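import Pool.Agent.Strip051.G.IE1.StF

/-! # Strips St0 (generated) -/

set_option linter.all false
set_option maxRecDepth 100000

namespace Pool.Agent.Strip051.G.IE1.Tab.St.C

open Pool.Agent.Strip051.PB Pool.Agent.Strip051.PB.T
open Pool.Agent.StripNear Pool.Agent.Strip051.LC
open Pool.Agent.Strip051.G.IE1.Tab Pool.Agent.Strip051.G.IE1.Tab.St

noncomputable def cut_A00pp_001_s1 : Cut := Cut.of [[⟨4, 0, 0, 1449551462⟩]]

noncomputable def f_A00pp_001_s1 : ℕ → ℕ → ℕ → ℕ → Bool := onCell 0 536870912 0 536870912 1046898278 26843546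
    (rowFX 0 true true true .up 0 0 1 (qsf 0 536870912 0 536870912 1) ndF0q0 ndF0q0 pcF1 cut_A00pp_001_s1 Ext.none)

def k0_A00pp_001_s1 : ∃ t, chk3 f_A00pp_001_s1 t 1 1 1 = true :=
  ⟨(l 4), by decide +kernel⟩

theorem c_A00pp_001_s1 : CertFX 0 536870912 0 536870912 1046898278 26843546 true true true .up 0 0 1
    ndF0q0 ndF0q0 pcF1 cut_A00pp_001_s1 Ext.none :=
  certFX0 (fam := true) (s1 := true) (s2 := true) (a := 0) (b := 0) (c := 1) (cn := .up) (n1 := ndF0q0) (n2 := ndF0q0) (pc := pcF1) (cut := cut_A00pp_001_s1) (xt := Ext.none) (P1 := 0) (W1 := 536870912) (P2 := 0) (W2 := 536870912) (P3 := 1046898278) (W3 := 26843546)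
    rfl k0_A00pp_001_s1

theorem s_A00pp_001_s1 {κ x : ℝ} (hκ : κ * h0 = kenE x) (hx : 39 / 40 ≤ x) (hx' : x < 1) :
    AltVA (VFD κ) (DD x) tKF tL pcF [⟨3, 0, 0, 1449551462⟩] 0 0 1 0 0 (sgb true) (sgb true) x :=
  strip_altVA (d := 1449551462) true rfl hκ (κ0 hκ hx) (x0 hx) hx' (covF00 hx hx') (covF00 hx hx') (x1 hx) (x2 hx') c_A00pp_001_s1 cutVA_nil (noExt_VA)

noncomputable def cut_A00pp_001_s3 : Cut := Cut.of [[⟨3, 0, 0, 2845415833⟩]]

noncomputable def f_A00pp_001_s3 : ℕ → ℕ → ℕ → ℕ → Bool := onCell 0 536870912 0 536870912 1046898278 26843546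
    (rowFX 0 true true true .up 0 0 1 (qsf 0 536870912 0 536870912 1) ndF0q0 ndF0q0 pcF1 cut_A00pp_001_s3 Ext.none)

def k0_A00pp_001_s3 : ∃ t, chk3 f_A00pp_001_s3 t 1 1 1 = true :=
  ⟨(l 4), by decide +kernel⟩

theorem c_A00pp_001_s3 : CertFX 0 536870912 0 536870912 1046898278 26843546 true true true .up 0 0 1
    ndF0q0 ndF0q0 pcF1 cut_A00pp_001_s3 Ext.none :=
  certFX0 (fam := true) (s1 := true) (s2 := true) (a := 0) (b := 0) (c := 1) (cn := .up) (n1 := ndF0q0) (n2 := ndF0q0) (pc := pcF1) (cut := cut_A00pp_001_s3) (xt := Ext.none) (P1 := 0) (W1 := 536870912) (P2 := 0) (W2 := 536870912) (P3 := 1046898278) (W3 := 26843546)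
    rfl k0_A00pp_001_s3

theorem s_A00pp_001_s3 {κ x : ℝ} (hκ : κ * h0 = kenE x) (hx : 39 / 40 ≤ x) (hx' : x < 1) :
    AltVA (VFD κ) (DD x) tKF tL pcF [⟨4, 0, 0, 2845415833⟩] 0 0 1 0 0 (sgb true) (sgb true) x :=
  strip_altVA (d := 2845415833) false rfl hκ (κ0 hκ hx) (x0 hx) hx' (covF00 hx hx') (covF00 hx hx') (x1 hx) (x2 hx') c_A00pp_001_s3 cutVA_nil (noExt_VA)

noncomputable def cut_A00pp_011_s1 : Cut := Cut.of [[⟨4, 0, 0, 1449551462⟩], [⟨0, 0, 0, 67108864⟩, ⟨1, 1, 0, 67108864⟩, ⟨2, 1, 0, 67108864⟩]]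

noncomputable def f_A00pp_011_s1 : ℕ → ℕ → ℕ → ℕ → Bool := onCell 0 536870912 536870912 536870912 1046898278 26843546
    (rowFX 0 true true true .pnn 0 1 1 (qsf 0 536870912 536870912 536870912 1) ndF0q0 ndF0q1 pcF1 cut_A00pp_011_s1 Ext.none)

def k0_A00pp_011_s1 : ∃ t, chk3 f_A00pp_011_s1 t 1 1 1 = true :=
  ⟨(l 6), by decide +kernel⟩

theorem c_A00pp_011_s1 : CertFX 0 536870912 536870912 536870912 1046898278 26843546 true true true .pnn 0 1 1
    ndF0q0 ndF0q1 pcF1 cut_A00pp_011_s1 Ext.none :=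
  certFX0 (fam := true) (s1 := true) (s2 := true) (a := 0) (b := 1) (c := 1) (cn := .pnn) (n1 := ndF0q0) (n2 := ndF0q1) (pc := pcF1) (cut := cut_A00pp_011_s1) (xt := Ext.none) (P1 := 0) (W1 := 536870912) (P2 := 536870912) (W2 := 536870912) (P3 := 1046898278) (W3 := 26843546)
    rfl k0_A00pp_011_s1

theorem s_A00pp_011_s1 {κ x : ℝ} (hκ : κ * h0 = kenE x) (hx : 39 / 40 ≤ x) (hx' : x < 1)
    (H : CutVA (VFD κ) (DD x) tKF tL pcF (Cut.of [[⟨0, 0, 0, 67108864⟩, ⟨1, 1, 0, 67108864⟩, ⟨2, 1, 0, 67108864⟩]]) 0 1 1 0 0 (sgb true) (sgb true) x) :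
    AltVA (VFD κ) (DD x) tKF tL pcF [⟨3, 0, 0, 1449551462⟩] 0 1 1 0 0 (sgb true) (sgb true) x :=
  strip_altVA (d := 1449551462) true rfl hκ (κ0 hκ hx) (x0 hx) hx' (covF00 hx hx') (covF01 hx hx') (x1 hx) (x2 hx') c_A00pp_011_s1 H (noExt_VA)

noncomputable def cut_A00pp_011_s3 : Cut := Cut.of [[⟨3, 0, 0, 2845415833⟩], [⟨0, 0, 0, 67108864⟩, ⟨1, 1, 0, 67108864⟩, ⟨2, 1, 0, 67108864⟩]]

noncomputable def f_A00pp_011_s3 : ℕ → ℕ → ℕ → ℕ → Bool := onCell 0 536870912 536870912 536870912 1046898278 26843546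
    (rowFX 0 true true true .pnn 0 1 1 (qsf 0 536870912 536870912 536870912 1) ndF0q0 ndF0q1 pcF1 cut_A00pp_011_s3 Ext.none)

def k0_A00pp_011_s3 : ∃ t, chk3 f_A00pp_011_s3 t 1 1 1 = true :=
  ⟨(b (l 4) (a (b (l 4) (a (b (l 4) (b (l 4) (a (a (l 14) (l 4)) (l 2)))) (l 4))) (l 4))), by decide +kernel⟩

theorem c_A00pp_011_s3 : CertFX 0 536870912 536870912 536870912 1046898278 26843546 true true true .pnn 0 1 1
    ndF0q0 ndF0q1 pcF1 cut_A00pp_011_s3 Ext.none :=
  certFX0 (fam := true) (s1 := true) (s2 := true) (a := 0) (b := 1) (c := 1) (cn := .pnn) (n1 := ndF0q0) (n2 := ndF0q1) (pc := pcF1) (cut := cut_A00pp_011_s3) (xt := Ext.none) (P1 := 0) (W1 := 536870912) (P2 := 536870912) (W2 := 536870912) (P3 := 1046898278) (W3 := 26843546)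
    rfl k0_A00pp_011_s3

theorem s_A00pp_011_s3 {κ x : ℝ} (hκ : κ * h0 = kenE x) (hx : 39 / 40 ≤ x) (hx' : x < 1)
    (H : CutVA (VFD κ) (DD x) tKF tL pcF (Cut.of [[⟨0, 0, 0, 67108864⟩, ⟨1, 1, 0, 67108864⟩, ⟨2, 1, 0, 67108864⟩]]) 0 1 1 0 0 (sgb true) (sgb true) x) :
    AltVA (VFD κ) (DD x) tKF tL pcF [⟨4, 0, 0, 2845415833⟩] 0 1 1 0 0 (sgb true) (sgb true) x :=
  strip_altVA (d := 2845415833) false rfl hκ (κ0 hκ hx) (x0 hx) hx' (covF00 hx hx') (covF01 hx hx') (x1 hx) (x2 hx') c_A00pp_011_s3 H (noExt_VA)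

noncomputable def cut_A00pp_012_s1 : Cut := Cut.of [[⟨4, 0, 0, 1449551462⟩], [⟨0, 0, 0, 67108864⟩, ⟨1, 1, 0, 67108864⟩, ⟨2, 1, 0, 67108864⟩]]

noncomputable def f_A00pp_012_s1 : ℕ → ℕ → ℕ → ℕ → Bool := onCell 0 536870912 536870912 536870912 1046898278 26843546
    (rowFX 0 true true true .pnp 0 1 2 (qsf 0 536870912 536870912 536870912 2) ndF0q0 ndF0q1 pcF2 cut_A00pp_012_s1 Ext.none)

def k0_A00pp_012_s1 : ∃ t, chk3 f_A00pp_012_s1 t 1 1 1 = true :=
  ⟨(l 6), by decide +kernel⟩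

theorem c_A00pp_012_s1 : CertFX 0 536870912 536870912 536870912 1046898278 26843546 true true true .pnp 0 1 2
    ndF0q0 ndF0q1 pcF2 cut_A00pp_012_s1 Ext.none :=
  certFX0 (fam := true) (s1 := true) (s2 := true) (a := 0) (b := 1) (c := 2) (cn := .pnp) (n1 := ndF0q0) (n2 := ndF0q1) (pc := pcF2) (cut := cut_A00pp_012_s1) (xt := Ext.none) (P1 := 0) (W1 := 536870912) (P2 := 536870912) (W2 := 536870912) (P3 := 1046898278) (W3 := 26843546)
    rfl k0_A00pp_012_s1

theorem s_A00pp_012_s1 {κ x : ℝ} (hκ : κ * h0 = kenE x) (hx : 39 / 40 ≤ x) (hx' : x < 1)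
    (H : CutVA (VFD κ) (DD x) tKF tL pcF (Cut.of [[⟨0, 0, 0, 67108864⟩, ⟨1, 1, 0, 67108864⟩, ⟨2, 1, 0, 67108864⟩]]) 0 1 2 0 0 (sgb true) (sgb true) x) :
    AltVA (VFD κ) (DD x) tKF tL pcF [⟨3, 0, 0, 1449551462⟩] 0 1 2 0 0 (sgb true) (sgb true) x :=
  strip_altVA (d := 1449551462) true rfl hκ (κ0 hκ hx) (x0 hx) hx' (covF00 hx hx') (covF01 hx hx') (x1 hx) (x2 hx') c_A00pp_012_s1 H (noExt_VA)

noncomputable def cut_A00pp_012_s3 : Cut := Cut.of [[⟨3, 0, 0, 2845415833⟩], [⟨0, 0, 0, 67108864⟩, ⟨1, 1, 0, 67108864⟩, ⟨2, 1, 0, 67108864⟩]]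

noncomputable def f_A00pp_012_s3 : ℕ → ℕ → ℕ → ℕ → Bool := onCell 0 536870912 536870912 536870912 1046898278 26843546
    (rowFX 0 true true true .pnp 0 1 2 (qsf 0 536870912 536870912 536870912 2) ndF0q0 ndF0q1 pcF2 cut_A00pp_012_s3 Ext.none)

def k0_A00pp_012_s3 : ∃ t, chk3 f_A00pp_012_s3 t 1 1 1 = true :=
  ⟨(b (l 4) (a (a (b (l 4) (b (l 4) (a (a (b (l 4) (l 14)) (l 4)) (l 4)))) (l 4)) (l 4))), by decide +kernel⟩

theorem c_A00pp_012_s3 : CertFX 0 536870912 536870912 536870912 1046898278 26843546 true true true .pnp 0 1 2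
    ndF0q0 ndF0q1 pcF2 cut_A00pp_012_s3 Ext.none :=
  certFX0 (fam := true) (s1 := true) (s2 := true) (a := 0) (b := 1) (c := 2) (cn := .pnp) (n1 := ndF0q0) (n2 := ndF0q1) (pc := pcF2) (cut := cut_A00pp_012_s3) (xt := Ext.none) (P1 := 0) (W1 := 536870912) (P2 := 536870912) (W2 := 536870912) (P3 := 1046898278) (W3 := 26843546)
    rfl k0_A00pp_012_s3

theorem s_A00pp_012_s3 {κ x : ℝ} (hκ : κ * h0 = kenE x) (hx : 39 / 40 ≤ x) (hx' : x < 1)
    (H : CutVA (VFD κ) (DD x) tKF tL pcF (Cut.of [[⟨0, 0, 0, 67108864⟩, ⟨1, 1, 0, 67108864⟩, ⟨2, 1, 0, 67108864⟩]]) 0 1 2 0 0 (sgb true) (sgb true) x) :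
    AltVA (VFD κ) (DD x) tKF tL pcF [⟨4, 0, 0, 2845415833⟩] 0 1 2 0 0 (sgb true) (sgb true) x :=
  strip_altVA (d := 2845415833) false rfl hκ (κ0 hκ hx) (x0 hx) hx' (covF00 hx hx') (covF01 hx hx') (x1 hx) (x2 hx') c_A00pp_012_s3 H (noExt_VA)

noncomputable def cut_A00pp_022_s1 : Cut := Cut.of [[⟨4, 0, 0, 1449551462⟩], [⟨0, 0, 0, 67108864⟩, ⟨1, 1, 0, 67108864⟩, ⟨2, 1, 0, 67108864⟩]]

noncomputable def f_A00pp_022_s1 : ℕ → ℕ → ℕ → ℕ → Bool := onCell 0 536870912 0 536870912 1046898278 26843546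
    (rowFX 0 true true true .pp 0 2 2 (qsf 0 536870912 0 536870912 2) ndF0q0 ndF0q2 pcF2 cut_A00pp_022_s1 Ext.none)

def k0_A00pp_022_s1 : ∃ t, chk3 f_A00pp_022_s1 t 1 1 1 = true :=
  ⟨(l 6), by decide +kernel⟩

theorem c_A00pp_022_s1 : CertFX 0 536870912 0 536870912 1046898278 26843546 true true true .pp 0 2 2
    ndF0q0 ndF0q2 pcF2 cut_A00pp_022_s1 Ext.none :=
  certFX0 (fam := true) (s1 := true) (s2 := true) (a := 0) (b := 2) (c := 2) (cn := .pp) (n1 := ndF0q0) (n2 := ndF0q2) (pc := pcF2) (cut := cut_A00pp_022_s1) (xt := Ext.none) (P1 := 0) (W1 := 536870912) (P2 := 0) (W2 := 536870912) (P3 := 1046898278) (W3 := 26843546)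
    rfl k0_A00pp_022_s1

theorem s_A00pp_022_s1 {κ x : ℝ} (hκ : κ * h0 = kenE x) (hx : 39 / 40 ≤ x) (hx' : x < 1)
    (H : CutVA (VFD κ) (DD x) tKF tL pcF (Cut.of [[⟨0, 0, 0, 67108864⟩, ⟨1, 1, 0, 67108864⟩, ⟨2, 1, 0, 67108864⟩]]) 0 2 2 0 0 (sgb true) (sgb true) x) :
    AltVA (VFD κ) (DD x) tKF tL pcF [⟨3, 0, 0, 1449551462⟩] 0 2 2 0 0 (sgb true) (sgb true) x :=
  strip_altVA (d := 1449551462) true rfl hκ (κ0 hκ hx) (x0 hx) hx' (covF00 hx hx') (covF02 hx hx') (x1 hx) (x2 hx') c_A00pp_022_s1 H (noExt_VA)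

noncomputable def cut_A00pp_023_s1 : Cut := Cut.of [[⟨4, 0, 0, 1449551462⟩]]

noncomputable def f_A00pp_023_s1 : ℕ → ℕ → ℕ → ℕ → Bool := onCell 0 536870912 0 536870912 1046898278 26843546
    (rowFX 0 true true true .up 0 2 3 (qsf 0 536870912 0 536870912 3) ndF0q0 ndF0q2 pcF3 cut_A00pp_023_s1 Ext.none)

def k0_A00pp_023_s1 : ∃ t, chk3 f_A00pp_023_s1 t 1 1 1 = true :=
  ⟨(l 6), by decide +kernel⟩

theorem c_A00pp_023_s1 : CertFX 0 536870912 0 536870912 1046898278 26843546 true true true .up 0 2 3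
    ndF0q0 ndF0q2 pcF3 cut_A00pp_023_s1 Ext.none :=
  certFX0 (fam := true) (s1 := true) (s2 := true) (a := 0) (b := 2) (c := 3) (cn := .up) (n1 := ndF0q0) (n2 := ndF0q2) (pc := pcF3) (cut := cut_A00pp_023_s1) (xt := Ext.none) (P1 := 0) (W1 := 536870912) (P2 := 0) (W2 := 536870912) (P3 := 1046898278) (W3 := 26843546)
    rfl k0_A00pp_023_s1

theorem s_A00pp_023_s1 {κ x : ℝ} (hκ : κ * h0 = kenE x) (hx : 39 / 40 ≤ x) (hx' : x < 1) :
    AltVA (VFD κ) (DD x) tKF tL pcF [⟨3, 0, 0, 1449551462⟩] 0 2 3 0 0 (sgb true) (sgb true) x :=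
  strip_altVA (d := 1449551462) true rfl hκ (κ0 hκ hx) (x0 hx) hx' (covF00 hx hx') (covF02 hx hx') (x1 hx) (x2 hx') c_A00pp_023_s1 cutVA_nil (noExt_VA)

noncomputable def cut_A00pp_023_s3 : Cut := Cut.of [[⟨3, 0, 0, 2845415833⟩]]

noncomputable def xt_A00pp_023_s3 : Ext := strExtY dd true true true .u0 .u2 .s2 .up 0 2 3 rfl rfl gl3 ge vv ndF0q0 ndF0q2

noncomputable def f_A00pp_023_s3 : ℕ → ℕ → ℕ → ℕ → Bool := onCell 1610612736 536870912 0 536870912 1046898278 26843546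
    (rowFX 2 true true true .up 0 2 3 (qsf 0 536870912 0 536870912 3) ndF0q0 ndF0q2 pcF3 cut_A00pp_023_s3 xt_A00pp_023_s3)

def k0_A00pp_023_s3 : ∃ t, chk3 f_A00pp_023_s3 t 4 4 1 = true :=
  ⟨(c (c (b (a (a (c (l 16777216) (l 16777216)) (b (c (l 16777216) (l 16777216)) (c (l 16777216) (l 16777216)))) (a (b (c (l 16777216) (l 16777216)) (c (l 536870927) (l 536870927))) (b (c (l 536870927) (l 536870927)) (c (l 536870927) (l 536870927))))) (a (b (a (l 536870927) (c (l 536870927) (l 536870927))) (c (a (l 536870927) (l 536870927)) (l 536870927))) (c (a (b (l 536870927) (l 536870927)) (b (l 536870927) (b (l 536870927) (l 536870927)))) (a (b (l 536870927) (l 536870927)) (b (l 536870927) (l 536870927)))))) (b (a (a (c (l 16777216) (l 16777216)) (b (c (l 16777216) (l 16777216)) (l 536870927))) (a (b (c (l 16777216) (l 16777216)) (l 536870927)) (b (c (l 536870927) (l 536870927)) (c (l 536870927) (l 536870927))))) (a (c (b (l 536870927) (l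 536870927)) (b (l 536870927) (l 536870927))) (c (a (b (l 536870927) (l 536870927)) (b (l 536870927) (l 536870927))) (a (l 536870927) (b (l 536870927) (l 536870927))))))) (c (b (a (a (c (l 16777216) (l 16777216)) (b (c (l 16777216) (l 16777216)) (l 536870927))) (a (b (b (l 536870927) (l 536870927)) (l 536870927)) (b (c (l 536870927) (l 536870927)) (l 536870927)))) (a (c (b (l 536870927) (l 536870927)) (b (l 536870927) (l 536870927))) (c (a (l 536870927) (l 536870927)) (a (l 536870927) (l 536870927))))) (b (a (a (b (l 16777216) (l 536870927)) (b (c (l 16777216) (l 16777216)) (l 536870927))) (a (b (b (l 536870927) (l 536870927)) (l 536870927)) (b (c (l 536870927) (l 536870927)) (l 536870927)))) (a (c (b (l 536870927) (l 536870927)) (b (l 536870927) (l 536870927))) (c (a (l 536870927) (l 536870927)) (a (l 536870927) (b (l 536870927) (l 536870927)))))))), by decide +kernel⟩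

def k1_A00pp_023_s3 : ∃ t, chk3 f_A00pp_023_s3 t 4 5 1 = true :=
  ⟨(c (a (a (c (b (c (l 536870927) (l 536870927)) (c (b (l 536870927) (l 4)) (l 536870927))) (b (c (l 536870927) (l 536870927)) (c (l 536870927) (l 536870927)))) (b (c (l 536870927) (l 536870927)) (l 4))) (b (a (c (l 536870927) (l 536870927)) (b (l 4) (l 4))) (l 4))) (a (c (b (c (l 536870927) (l 536870927)) (c (l 536870927) (l 536870927))) (b (c (l 536870927) (l 536870927)) (c (l 536870927) (l 536870927)))) (b (b (a (l 536870927) (l 4)) (l 4)) (l 4)))), by decide +kernel⟩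

def k2_A00pp_023_s3 : ∃ t, chk3 f_A00pp_023_s3 t 4 3 1 = true :=
  ⟨(l 4), by decide +kernel⟩

def k3_A00pp_023_s3 : ∃ t, chk3 f_A00pp_023_s3 t 5 1 1 = true :=
  ⟨(b (b (c (a (a (b (b (c (c (l 536870927) (l 536870927)) (c (l 536870927) (l 536870927))) (c (l 536870927) (l 536870927))) (c (b (l 536870927) (b (l 536870927) (l 4))) (b (l 536870927) (c (l 536870927) (l 536870927))))) (b (l 2) (l 2))) (l 2)) (a (a (b (b (c (l 536870927) (l 536870927)) (c (l 536870927) (l 536870927))) (c (c (l 536870927) (l 536870927)) (c (l 536870927) (l 536870927)))) (b (l 2) (l 2))) (l 2))) (l 4)) (l 4)), by decide +kernel⟩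

def k4_A00pp_023_s3 : ∃ t, chk3 f_A00pp_023_s3 t 3 1 1 = true :=
  ⟨(l 2), by decide +kernel⟩

theorem t5_A00pp_023_s3 : ∃ t, chk3 f_A00pp_023_s3 t 4 2 1 = true := ex3_b k0_A00pp_023_s3 k1_A00pp_023_s3

theorem t6_A00pp_023_s3 : ∃ t, chk3 f_A00pp_023_s3 t 4 1 1 = true := ex3_b t5_A00pp_023_s3 k2_A00pp_023_s3

theorem t7_A00pp_023_s3 : ∃ t, chk3 f_A00pp_023_s3 t 2 1 1 = true := ex3_a t6_A00pp_023_s3 k3_A00pp_023_s3

theorem t8_A00pp_023_s3 : ∃ t, chk3 f_A00pp_023_s3 t 1 1 1 = true := ex3_a t7_A00pp_023_s3 k4_A00pp_023_s3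

theorem c_A00pp_023_s3 : CertFX 0 536870912 0 536870912 1046898278 26843546 true true true .up 0 2 3
    ndF0q0 ndF0q2 pcF3 cut_A00pp_023_s3 xt_A00pp_023_s3 :=
  certFX2 (fam := true) (s1 := true) (s2 := true) (a := 0) (b := 2) (c := 3) (cn := .up) (n1 := ndF0q0) (n2 := ndF0q2) (pc := pcF3) (cut := cut_A00pp_023_s3) (xt := xt_A00pp_023_s3) (P1 := 0) (W1 := 536870912) (P2 := 0) (W2 := 536870912) (P3 := 1046898278) (W3 := 26843546)
    rfl (fun _ => rfl) t8_A00pp_023_s3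

theorem s_A00pp_023_s3 {κ x : ℝ} (hκ : κ * h0 = kenE x) (hx : 39 / 40 ≤ x) (hx' : x < 1) :
    AltVA (VFD κ) (DD x) tKF tL pcF [⟨4, 0, 0, 2845415833⟩] 0 2 3 0 0 (sgb true) (sgb true) x :=
  strip_altVA (d := 2845415833) false rfl hκ (κ0 hκ hx) (x0 hx) hx' (covF00 hx hx') (covF02 hx hx') (x1 hx) (x2 hx') c_A00pp_023_s3 cutVA_nil ((ok hx hx').extA (T := tt) (sideF hx hx') hκ (κ0 hκ hx) rfl rfl (.O 0 true) (.O 2 true) (Or.inr rfl))

noncomputable def cut_A00pp_101_s1 : Cut := Cut.of [[⟨4, 0, 0, 1449551462⟩]]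

noncomputable def f_A00pp_101_s1 : ℕ → ℕ → ℕ → ℕ → Bool := onCell 536870912 536870912 0 536870912 1046898278 26843546
    (rowFX 0 true true true .npn 1 0 1 (qsf 536870912 536870912 0 536870912 1) ndF0q1 ndF0q0 pcF1 cut_A00pp_101_s1 Ext.none)

def k0_A00pp_101_s1 : ∃ t, chk3 f_A00pp_101_s1 t 1 1 1 = true :=
  ⟨(l 6), by decide +kernel⟩

theorem c_A00pp_101_s1 : CertFX 536870912 536870912 0 536870912 1046898278 26843546 true true true .npn 1 0 1
    ndF0q1 ndF0q0 pcF1 cut_A00pp_101_s1 Ext.none :=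
  certFX0 (fam := true) (s1 := true) (s2 := true) (a := 1) (b := 0) (c := 1) (cn := .npn) (n1 := ndF0q1) (n2 := ndF0q0) (pc := pcF1) (cut := cut_A00pp_101_s1) (xt := Ext.none) (P1 := 536870912) (W1 := 536870912) (P2 := 0) (W2 := 536870912) (P3 := 1046898278) (W3 := 26843546)
    rfl k0_A00pp_101_s1

theorem s_A00pp_101_s1 {κ x : ℝ} (hκ : κ * h0 = kenE x) (hx : 39 / 40 ≤ x) (hx' : x < 1) :
    AltVA (VFD κ) (DD x) tKF tL pcF [⟨3, 0, 0, 1449551462⟩] 1 0 1 0 0 (sgb true) (sgb true) x :=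
  strip_altVA (d := 1449551462) true rfl hκ (κ0 hκ hx) (x0 hx) hx' (covF01 hx hx') (covF00 hx hx') (x1 hx) (x2 hx') c_A00pp_101_s1 cutVA_nil (noExt_VA)

noncomputable def cut_A00pp_101_s3 : Cut := Cut.of [[⟨3, 0, 0, 2845415833⟩]]

noncomputable def f_A00pp_101_s3 : ℕ → ℕ → ℕ → ℕ → Bool := onCell 536870912 536870912 0 536870912 1046898278 26843546
    (rowFX 0 true true true .npn 1 0 1 (qsf 536870912 536870912 0 536870912 1) ndF0q1 ndF0q0 pcF1 cut_A00pp_101_s3 Ext.none)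

def k0_A00pp_101_s3 : ∃ t, chk3 f_A00pp_101_s3 t 1 1 1 = true :=
  ⟨(a (l 4) (l 5)), by decide +kernel⟩

theorem c_A00pp_101_s3 : CertFX 536870912 536870912 0 536870912 1046898278 26843546 true true true .npn 1 0 1
    ndF0q1 ndF0q0 pcF1 cut_A00pp_101_s3 Ext.none :=
  certFX0 (fam := true) (s1 := true) (s2 := true) (a := 1) (b := 0) (c := 1) (cn := .npn) (n1 := ndF0q1) (n2 := ndF0q0) (pc := pcF1) (cut := cut_A00pp_101_s3) (xt := Ext.none) (P1 := 536870912) (W1 := 536870912) (P2 := 0) (W2 := 536870912) (P3 := 1046898278) (W3 := 26843546)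
    rfl k0_A00pp_101_s3

theorem s_A00pp_101_s3 {κ x : ℝ} (hκ : κ * h0 = kenE x) (hx : 39 / 40 ≤ x) (hx' : x < 1) :
    AltVA (VFD κ) (DD x) tKF tL pcF [⟨4, 0, 0, 2845415833⟩] 1 0 1 0 0 (sgb true) (sgb true) x :=
  strip_altVA (d := 2845415833) false rfl hκ (κ0 hκ hx) (x0 hx) hx' (covF01 hx hx') (covF00 hx hx') (x1 hx) (x2 hx') c_A00pp_101_s3 cutVA_nil (noExt_VA)

noncomputable def cut_A00pp_102_s1 : Cut := Cut.of [[⟨4, 0, 0, 1449551462⟩]]

noncomputable def f_A00pp_102_s1 : ℕ → ℕ → ℕ → ℕ → Bool := onCell 536870912 536870912 0 536870912 1046898278 26843546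
    (rowFX 0 true true true .npp 1 0 2 (qsf 536870912 536870912 0 536870912 2) ndF0q1 ndF0q0 pcF2 cut_A00pp_102_s1 Ext.none)

def k0_A00pp_102_s1 : ∃ t, chk3 f_A00pp_102_s1 t 1 1 1 = true :=
  ⟨(l 6), by decide +kernel⟩

theorem c_A00pp_102_s1 : CertFX 536870912 536870912 0 536870912 1046898278 26843546 true true true .npp 1 0 2
    ndF0q1 ndF0q0 pcF2 cut_A00pp_102_s1 Ext.none :=
  certFX0 (fam := true) (s1 := true) (s2 := true) (a := 1) (b := 0) (c := 2) (cn := .npp) (n1 := ndF0q1) (n2 := ndF0q0) (pc := pcF2) (cut := cut_A00pp_102_s1) (xt := Ext.none) (P1 := 536870912) (W1 := 536870912) (P2 := 0) (W2 := 536870912) (P3 := 1046898278) (W3 := 26843546)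
    rfl k0_A00pp_102_s1

theorem s_A00pp_102_s1 {κ x : ℝ} (hκ : κ * h0 = kenE x) (hx : 39 / 40 ≤ x) (hx' : x < 1) :
    AltVA (VFD κ) (DD x) tKF tL pcF [⟨3, 0, 0, 1449551462⟩] 1 0 2 0 0 (sgb true) (sgb true) x :=
  strip_altVA (d := 1449551462) true rfl hκ (κ0 hκ hx) (x0 hx) hx' (covF01 hx hx') (covF00 hx hx') (x1 hx) (x2 hx') c_A00pp_102_s1 cutVA_nil (noExt_VA)

noncomputable def cut_A00pp_102_s3 : Cut := Cut.of [[⟨3, 0, 0, 2845415833⟩]]

noncomputable def f_A00pp_102_s3 : ℕ → ℕ → ℕ → ℕ → Bool := onCell 536870912 536870912 0 536870912 1046898278 26843546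
    (rowFX 0 true true true .npp 1 0 2 (qsf 536870912 536870912 0 536870912 2) ndF0q1 ndF0q0 pcF2 cut_A00pp_102_s3 Ext.none)

def k0_A00pp_102_s3 : ∃ t, chk3 f_A00pp_102_s3 t 1 1 1 = true :=
  ⟨(a (l 4) (l 5)), by decide +kernel⟩

theorem c_A00pp_102_s3 : CertFX 536870912 536870912 0 536870912 1046898278 26843546 true true true .npp 1 0 2
    ndF0q1 ndF0q0 pcF2 cut_A00pp_102_s3 Ext.none :=
  certFX0 (fam := true) (s1 := true) (s2 := true) (a := 1) (b := 0) (c := 2) (cn := .npp) (n1 := ndF0q1) (n2 := ndF0q0) (pc := pcF2) (cut := cut_A00pp_102_s3) (xt := Ext.none) (P1 := 536870912) (W1 := 536870912) (P2 := 0) (W2 := 536870912) (P3 := 1046898278) (W3 := 26843546)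
    rfl k0_A00pp_102_s3

theorem s_A00pp_102_s3 {κ x : ℝ} (hκ : κ * h0 = kenE x) (hx : 39 / 40 ≤ x) (hx' : x < 1) :
    AltVA (VFD κ) (DD x) tKF tL pcF [⟨4, 0, 0, 2845415833⟩] 1 0 2 0 0 (sgb true) (sgb true) x :=
  strip_altVA (d := 2845415833) false rfl hκ (κ0 hκ hx) (x0 hx) hx' (covF01 hx hx') (covF00 hx hx') (x1 hx) (x2 hx') c_A00pp_102_s3 cutVA_nil (noExt_VA)

noncomputable def cut_A00pp_112_s1 : Cut := Cut.of [[⟨4, 0, 0, 1449551462⟩]]

noncomputable def f_A00pp_112_s1 : ℕ → ℕ → ℕ → ℕ → Bool := onCell 536870912 536870912 536870912 536870912 1046898278 26843546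
    (rowFX 0 true true true .dn 1 1 2 (qsf 536870912 536870912 536870912 536870912 2) ndF0q1 ndF0q1 pcF2 cut_A00pp_112_s1 Ext.none)

def k0_A00pp_112_s1 : ∃ t, chk3 f_A00pp_112_s1 t 1 1 1 = true :=
  ⟨(l 4), by decide +kernel⟩

theorem c_A00pp_112_s1 : CertFX 536870912 536870912 536870912 536870912 1046898278 26843546 true true true .dn 1 1 2
    ndF0q1 ndF0q1 pcF2 cut_A00pp_112_s1 Ext.none :=
  certFX0 (fam := true) (s1 := true) (s2 := true) (a := 1) (b := 1) (c := 2) (cn := .dn) (n1 := ndF0q1) (n2 := ndF0q1) (pc := pcF2) (cut := cut_A00pp_112_s1) (xt := Ext.none) (P1 := 536870912) (W1 := 536870912) (P2 := 536870912) (W2 := 536870912) (P3 := 1046898278) (W3 := 26843546)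
    rfl k0_A00pp_112_s1

theorem s_A00pp_112_s1 {κ x : ℝ} (hκ : κ * h0 = kenE x) (hx : 39 / 40 ≤ x) (hx' : x < 1) :
    AltVA (VFD κ) (DD x) tKF tL pcF [⟨3, 0, 0, 1449551462⟩] 1 1 2 0 0 (sgb true) (sgb true) x :=
  strip_altVA (d := 1449551462) true rfl hκ (κ0 hκ hx) (x0 hx) hx' (covF01 hx hx') (covF01 hx hx') (x1 hx) (x2 hx') c_A00pp_112_s1 cutVA_nil (noExt_VA)

noncomputable def cut_A00pp_112_s3 : Cut := Cut.of [[⟨3, 0, 0, 2845415833⟩]]

noncomputable def f_A00pp_112_s3 : ℕ → ℕ → ℕ → ℕ → Bool := onCell 536870912 536870912 536870912 536870912 1046898278 26843546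
    (rowFX 0 true true true .dn 1 1 2 (qsf 536870912 536870912 536870912 536870912 2) ndF0q1 ndF0q1 pcF2 cut_A00pp_112_s3 Ext.none)

def k0_A00pp_112_s3 : ∃ t, chk3 f_A00pp_112_s3 t 1 1 1 = true :=
  ⟨(l 4), by decide +kernel⟩

theorem c_A00pp_112_s3 : CertFX 536870912 536870912 536870912 536870912 1046898278 26843546 true true true .dn 1 1 2
    ndF0q1 ndF0q1 pcF2 cut_A00pp_112_s3 Ext.none :=
  certFX0 (fam := true) (s1 := true) (s2 := true) (a := 1) (b := 1) (c := 2) (cn := .dn) (n1 := ndF0q1) (n2 := ndF0q1) (pc := pcF2) (cut := cut_A00pp_112_s3) (xt := Ext.none) (P1 := 536870912) (W1 := 536870912) (P2 := 536870912) (W2 := 536870912) (P3 := 1046898278) (W3 := 26843546)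
    rfl k0_A00pp_112_s3

theorem s_A00pp_112_s3 {κ x : ℝ} (hκ : κ * h0 = kenE x) (hx : 39 / 40 ≤ x) (hx' : x < 1) :
    AltVA (VFD κ) (DD x) tKF tL pcF [⟨4, 0, 0, 2845415833⟩] 1 1 2 0 0 (sgb true) (sgb true) x :=
  strip_altVA (d := 2845415833) false rfl hκ (κ0 hκ hx) (x0 hx) hx' (covF01 hx hx') (covF01 hx hx') (x1 hx) (x2 hx') c_A00pp_112_s3 cutVA_nil (noExt_VA)

noncomputable def cut_A00pp_113_s1 : Cut := Cut.of [[⟨4, 0, 0, 1449551462⟩]]

noncomputable def f_A00pp_113_s1 : ℕ → ℕ → ℕ → ℕ → Bool := onCell 536870912 536870912 536870912 536870912 1046898278 26843546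
    (rowFX 0 true true true .nn 1 1 3 (qsf 536870912 536870912 536870912 536870912 3) ndF0q1 ndF0q1 pcF3 cut_A00pp_113_s1 Ext.none)

def k0_A00pp_113_s1 : ∃ t, chk3 f_A00pp_113_s1 t 1 1 1 = true :=
  ⟨(l 4), by decide +kernel⟩

theorem c_A00pp_113_s1 : CertFX 536870912 536870912 536870912 536870912 1046898278 26843546 true true true .nn 1 1 3
    ndF0q1 ndF0q1 pcF3 cut_A00pp_113_s1 Ext.none :=
  certFX0 (fam := true) (s1 := true) (s2 := true) (a := 1) (b := 1) (c := 3) (cn := .nn) (n1 := ndF0q1) (n2 := ndF0q1) (pc := pcF3) (cut := cut_A00pp_113_s1) (xt := Ext.none) (P1 := 536870912) (W1 := 536870912) (P2 := 536870912) (W2 := 536870912) (P3 := 1046898278) (W3 := 26843546)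
    rfl k0_A00pp_113_s1

theorem s_A00pp_113_s1 {κ x : ℝ} (hκ : κ * h0 = kenE x) (hx : 39 / 40 ≤ x) (hx' : x < 1) :
    AltVA (VFD κ) (DD x) tKF tL pcF [⟨3, 0, 0, 1449551462⟩] 1 1 3 0 0 (sgb true) (sgb true) x :=
  strip_altVA (d := 1449551462) true rfl hκ (κ0 hκ hx) (x0 hx) hx' (covF01 hx hx') (covF01 hx hx') (x1 hx) (x2 hx') c_A00pp_113_s1 cutVA_nil (noExt_VA)

noncomputable def cut_A00pp_113_s3 : Cut := Cut.of [[⟨3, 0, 0, 2845415833⟩]]

noncomputable def f_A00pp_113_s3 : ℕ → ℕ → ℕ → ℕ → Bool := onCell 536870912 536870912 536870912 536870912 1046898278 26843546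
    (rowFX 0 true true true .nn 1 1 3 (qsf 536870912 536870912 536870912 536870912 3) ndF0q1 ndF0q1 pcF3 cut_A00pp_113_s3 Ext.none)

def k0_A00pp_113_s3 : ∃ t, chk3 f_A00pp_113_s3 t 1 1 1 = true :=
  ⟨(l 4), by decide +kernel⟩

theorem c_A00pp_113_s3 : CertFX 536870912 536870912 536870912 536870912 1046898278 26843546 true true true .nn 1 1 3
    ndF0q1 ndF0q1 pcF3 cut_A00pp_113_s3 Ext.none :=
  certFX0 (fam := true) (s1 := true) (s2 := true) (a := 1) (b := 1) (c := 3) (cn := .nn) (n1 := ndF0q1) (n2 := ndF0q1) (pc := pcF3) (cut := cut_A00pp_113_s3) (xt := Ext.none) (P1 := 536870912) (W1 := 536870912) (P2 := 536870912) (W2 := 536870912) (P3 := 1046898278) (W3 := 26843546)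
    rfl k0_A00pp_113_s3

theorem s_A00pp_113_s3 {κ x : ℝ} (hκ : κ * h0 = kenE x) (hx : 39 / 40 ≤ x) (hx' : x < 1) :
    AltVA (VFD κ) (DD x) tKF tL pcF [⟨4, 0, 0, 2845415833⟩] 1 1 3 0 0 (sgb true) (sgb true) x :=
  strip_altVA (d := 2845415833) false rfl hκ (κ0 hκ hx) (x0 hx) hx' (covF01 hx hx') (covF01 hx hx') (x1 hx) (x2 hx') c_A00pp_113_s3 cutVA_nil (noExt_VA)

noncomputable def cut_A00pp_123_s1 : Cut := Cut.of [[⟨4, 0, 0, 1449551462⟩]]

noncomputable def f_A00pp_123_s1 : ℕ → ℕ → ℕ → ℕ → Bool := onCell 536870912 536870912 0 536870912 1046898278 26843546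
    (rowFX 0 true true true .npn 1 2 3 (qsf 536870912 536870912 0 536870912 3) ndF0q1 ndF0q2 pcF3 cut_A00pp_123_s1 Ext.none)

def k0_A00pp_123_s1 : ∃ t, chk3 f_A00pp_123_s1 t 1 1 1 = true :=
  ⟨(l 6), by decide +kernel⟩

theorem c_A00pp_123_s1 : CertFX 536870912 536870912 0 536870912 1046898278 26843546 true true true .npn 1 2 3
    ndF0q1 ndF0q2 pcF3 cut_A00pp_123_s1 Ext.none :=
  certFX0 (fam := true) (s1 := true) (s2 := true) (a := 1) (b := 2) (c := 3) (cn := .npn) (n1 := ndF0q1) (n2 := ndF0q2) (pc := pcF3) (cut := cut_A00pp_123_s1) (xt := Ext.none) (P1 := 536870912) (W1 := 536870912) (P2 := 0) (W2 := 536870912) (P3 := 1046898278) (W3 := 26843546)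
    rfl k0_A00pp_123_s1

theorem s_A00pp_123_s1 {κ x : ℝ} (hκ : κ * h0 = kenE x) (hx : 39 / 40 ≤ x) (hx' : x < 1) :
    AltVA (VFD κ) (DD x) tKF tL pcF [⟨3, 0, 0, 1449551462⟩] 1 2 3 0 0 (sgb true) (sgb true) x :=
  strip_altVA (d := 1449551462) true rfl hκ (κ0 hκ hx) (x0 hx) hx' (covF01 hx hx') (covF02 hx hx') (x1 hx) (x2 hx') c_A00pp_123_s1 cutVA_nil (noExt_VA)

noncomputable def cut_A00pp_123_s3 : Cut := Cut.of [[⟨3, 0, 0, 2845415833⟩]]

noncomputable def xt_A00pp_123_s3 : Ext := strExtY dd true true true .u0 .u2 .s2 .npn 1 2 3 rfl rfl gl3 ge vv ndF0q1 ndF0q2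

noncomputable def f_A00pp_123_s3 : ℕ → ℕ → ℕ → ℕ → Bool := onCell 536870912 536870912 0 536870912 1046898278 26843546
    (rowFX 0 true true true .npn 1 2 3 (qsf 536870912 536870912 0 536870912 3) ndF0q1 ndF0q2 pcF3 cut_A00pp_123_s3 xt_A00pp_123_s3)

def k0_A00pp_123_s3 : ∃ t, chk3 f_A00pp_123_s3 t 1 1 1 = true :=
  ⟨(a (a (b (b (c (b (a (c (c (b (a (l 536870927) (c (l 536870927) (l 536870927))) (l 536870927)) (b (a (l 536870927) (b (b (l 536870927) (l 536870927)) (l 536870927))) (l 536870927))) (b (b (a (l 536870927) (b (l 536870927) (l 536870927))) (a (l 536870927) (l 536870927))) (a (l 536870927) (l 536870927)))) (a (a (b (b (c (c (l 536870927) (c (l 536870927) (l 536870927))) (c (c (l 536870927) (l 536870927)) (c (l 536870927) (l 536870927)))) (l 4)) (l 4)) (l 4)) (l 4))) (b (a (a (c (l 536870927) (l 536870927)) (l 4)) (l 4)) (l 4))) (a (a (b (b (c (c (l 536870927) (l 536870927)) (c (l 536870927) (l 536870927))) (c (l 536870927)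 (l 536870927))) (b (c (l 536870927) (l 536870927)) (l 4))) (b (c (b (b (b (l 536870927) (l 536870927)) (l 536870927)) (l 536870927)) (b (b (b (l 536870927) (l 536870927)) (l 536870927)) (l 536870927))) (l 4))) (a (a (b (b (b (c (c (c (l 536870927) (l 536870927)) (c (l 536870927) (l 536870927))) (c (c (l 536870927) (l 536870927)) (c (l 536870927) (l 536870927)))) (l 4)) (l 4)) (l 4)) (b (l 4) (l 4))) (l 4)))) (l 4)) (l 4)) (b (l 4) (l 4))) (l 4)), by decide +kernel⟩

theorem c_A00pp_123_s3 : CertFX 536870912 536870912 0 536870912 1046898278 26843546 true true true .npn 1 2 3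
    ndF0q1 ndF0q2 pcF3 cut_A00pp_123_s3 xt_A00pp_123_s3 :=
  certFX0 (fam := true) (s1 := true) (s2 := true) (a := 1) (b := 2) (c := 3) (cn := .npn) (n1 := ndF0q1) (n2 := ndF0q2) (pc := pcF3) (cut := cut_A00pp_123_s3) (xt := xt_A00pp_123_s3) (P1 := 536870912) (W1 := 536870912) (P2 := 0) (W2 := 536870912) (P3 := 1046898278) (W3 := 26843546)
    rfl k0_A00pp_123_s3

theorem s_A00pp_123_s3 {κ x : ℝ} (hκ : κ * h0 = kenE x) (hx : 39 / 40 ≤ x) (hx' : x < 1) :
    AltVA (VFD κ) (DD x) tKF tL pcF [⟨4, 0, 0, 2845415833⟩] 1 2 3 0 0 (sgb true) (sgb true) x :=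
  strip_altVA (d := 2845415833) false rfl hκ (κ0 hκ hx) (x0 hx) hx' (covF01 hx hx') (covF02 hx hx') (x1 hx) (x2 hx') c_A00pp_123_s3 cutVA_nil ((ok hx hx').extA (T := tt) (sideF hx hx') hκ (κ0 hκ hx) rfl rfl (.O 1 true) (.O 2 true) (Or.inr rfl))

noncomputable def cut_A00pp_202_s1 : Cut := Cut.of [[⟨4, 0, 0, 1449551462⟩]]

noncomputable def f_A00pp_202_s1 : ℕ → ℕ → ℕ → ℕ → Bool := onCell 0 536870912 0 536870912 1046898278 26843546
    (rowFX 0 true true true .pp 2 0 2 (qsf 0 536870912 0 536870912 2) ndF0q2 ndF0q0 pcF2 cut_A00pp_202_s1 Ext.none)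

def k0_A00pp_202_s1 : ∃ t, chk3 f_A00pp_202_s1 t 1 1 1 = true :=
  ⟨(l 5), by decide +kernel⟩

theorem c_A00pp_202_s1 : CertFX 0 536870912 0 536870912 1046898278 26843546 true true true .pp 2 0 2
    ndF0q2 ndF0q0 pcF2 cut_A00pp_202_s1 Ext.none :=
  certFX0 (fam := true) (s1 := true) (s2 := true) (a := 2) (b := 0) (c := 2) (cn := .pp) (n1 := ndF0q2) (n2 := ndF0q0) (pc := pcF2) (cut := cut_A00pp_202_s1) (xt := Ext.none) (P1 := 0) (W1 := 536870912) (P2 := 0) (W2 := 536870912) (P3 := 1046898278) (W3 := 26843546)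
    rfl k0_A00pp_202_s1

theorem s_A00pp_202_s1 {κ x : ℝ} (hκ : κ * h0 = kenE x) (hx : 39 / 40 ≤ x) (hx' : x < 1) :
    AltVA (VFD κ) (DD x) tKF tL pcF [⟨3, 0, 0, 1449551462⟩] 2 0 2 0 0 (sgb true) (sgb true) x :=
  strip_altVA (d := 1449551462) true rfl hκ (κ0 hκ hx) (x0 hx) hx' (covF02 hx hx') (covF00 hx hx') (x1 hx) (x2 hx') c_A00pp_202_s1 cutVA_nil (noExt_VA)

noncomputable def cut_A00pp_202_s3 : Cut := Cut.of [[⟨3, 0, 0, 2845415833⟩]]

noncomputable def f_A00pp_202_s3 : ℕ → ℕ → ℕ → ℕ → Bool := onCell 0 536870912 0 536870912 1046898278 26843546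
    (rowFX 0 true true true .pp 2 0 2 (qsf 0 536870912 0 536870912 2) ndF0q2 ndF0q0 pcF2 cut_A00pp_202_s3 Ext.none)

def k0_A00pp_202_s3 : ∃ t, chk3 f_A00pp_202_s3 t 1 1 1 = true :=
  ⟨(l 5), by decide +kernel⟩

theorem c_A00pp_202_s3 : CertFX 0 536870912 0 536870912 1046898278 26843546 true true true .pp 2 0 2
    ndF0q2 ndF0q0 pcF2 cut_A00pp_202_s3 Ext.none :=
  certFX0 (fam := true) (s1 := true) (s2 := true) (a := 2) (b := 0) (c := 2) (cn := .pp) (n1 := ndF0q2) (n2 := ndF0q0) (pc := pcF2) (cut := cut_A00pp_202_s3) (xt := Ext.none) (P1 := 0) (W1 := 536870912) (P2 := 0) (W2 := 536870912) (P3 := 1046898278) (W3 := 26843546)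
    rfl k0_A00pp_202_s3

theorem s_A00pp_202_s3 {κ x : ℝ} (hκ : κ * h0 = kenE x) (hx : 39 / 40 ≤ x) (hx' : x < 1) :
    AltVA (VFD κ) (DD x) tKF tL pcF [⟨4, 0, 0, 2845415833⟩] 2 0 2 0 0 (sgb true) (sgb true) x :=
  strip_altVA (d := 2845415833) false rfl hκ (κ0 hκ hx) (x0 hx) hx' (covF02 hx hx') (covF00 hx hx') (x1 hx) (x2 hx') c_A00pp_202_s3 cutVA_nil (noExt_VA)

noncomputable def cut_A00pp_203_s1 : Cut := Cut.of [[⟨4, 0, 0, 1449551462⟩]]

noncomputable def f_A00pp_203_s1 : ℕ → ℕ → ℕ → ℕ → Bool := onCell 0 536870912 0 536870912 1046898278 26843546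
    (rowFX 0 true true true .up 2 0 3 (qsf 0 536870912 0 536870912 3) ndF0q2 ndF0q0 pcF3 cut_A00pp_203_s1 Ext.none)

def k0_A00pp_203_s1 : ∃ t, chk3 f_A00pp_203_s1 t 1 1 1 = true :=
  ⟨(l 5), by decide +kernel⟩

theorem c_A00pp_203_s1 : CertFX 0 536870912 0 536870912 1046898278 26843546 true true true .up 2 0 3
    ndF0q2 ndF0q0 pcF3 cut_A00pp_203_s1 Ext.none :=
  certFX0 (fam := true) (s1 := true) (s2 := true) (a := 2) (b := 0) (c := 3) (cn := .up) (n1 := ndF0q2) (n2 := ndF0q0) (pc := pcF3) (cut := cut_A00pp_203_s1) (xt := Ext.none) (P1 := 0) (W1 := 536870912) (P2 := 0) (W2 := 536870912) (P3 := 1046898278) (W3 := 26843546)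
    rfl k0_A00pp_203_s1

theorem s_A00pp_203_s1 {κ x : ℝ} (hκ : κ * h0 = kenE x) (hx : 39 / 40 ≤ x) (hx' : x < 1) :
    AltVA (VFD κ) (DD x) tKF tL pcF [⟨3, 0, 0, 1449551462⟩] 2 0 3 0 0 (sgb true) (sgb true) x :=
  strip_altVA (d := 1449551462) true rfl hκ (κ0 hκ hx) (x0 hx) hx' (covF02 hx hx') (covF00 hx hx') (x1 hx) (x2 hx') c_A00pp_203_s1 cutVA_nil (noExt_VA)

noncomputable def cut_A00pp_203_s3 : Cut := Cut.of [[⟨3, 0, 0, 2845415833⟩]]

noncomputable def f_A00pp_203_s3 : ℕ → ℕ → ℕ → ℕ → Bool := onCell 0 536870912 0 536870912 1046898278 26843546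
    (rowFX 0 true true true .up 2 0 3 (qsf 0 536870912 0 536870912 3) ndF0q2 ndF0q0 pcF3 cut_A00pp_203_s3 Ext.none)

def k0_A00pp_203_s3 : ∃ t, chk3 f_A00pp_203_s3 t 1 1 1 = true :=
  ⟨(l 5), by decide +kernel⟩

theorem c_A00pp_203_s3 : CertFX 0 536870912 0 536870912 1046898278 26843546 true true true .up 2 0 3
    ndF0q2 ndF0q0 pcF3 cut_A00pp_203_s3 Ext.none :=
  certFX0 (fam := true) (s1 := true) (s2 := true) (a := 2) (b := 0) (c := 3) (cn := .up) (n1 := ndF0q2) (n2 := ndF0q0) (pc := pcF3) (cut := cut_A00pp_203_s3) (xt := Ext.none) (P1 := 0) (W1 := 536870912) (P2 := 0) (W2 := 536870912) (P3 := 1046898278) (W3 := 26843546)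
    rfl k0_A00pp_203_s3

theorem s_A00pp_203_s3 {κ x : ℝ} (hκ : κ * h0 = kenE x) (hx : 39 / 40 ≤ x) (hx' : x < 1) :
    AltVA (VFD κ) (DD x) tKF tL pcF [⟨4, 0, 0, 2845415833⟩] 2 0 3 0 0 (sgb true) (sgb true) x :=
  strip_altVA (d := 2845415833) false rfl hκ (κ0 hκ hx) (x0 hx) hx' (covF02 hx hx') (covF00 hx hx') (x1 hx) (x2 hx') c_A00pp_203_s3 cutVA_nil (noExt_VA)

noncomputable def cut_A00pp_213_s1 : Cut := Cut.of [[⟨4, 0, 0, 1449551462⟩]]

noncomputable def f_A00pp_213_s1 : ℕ → ℕ → ℕ → ℕ → Bool := onCell 0 536870912 536870912 536870912 1046898278 26843546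
    (rowFX 0 true true true .pnn 2 1 3 (qsf 0 536870912 536870912 536870912 3) ndF0q2 ndF0q1 pcF3 cut_A00pp_213_s1 Ext.none)

def k0_A00pp_213_s1 : ∃ t, chk3 f_A00pp_213_s1 t 1 1 1 = true :=
  ⟨(l 6), by decide +kernel⟩

theorem c_A00pp_213_s1 : CertFX 0 536870912 536870912 536870912 1046898278 26843546 true true true .pnn 2 1 3
    ndF0q2 ndF0q1 pcF3 cut_A00pp_213_s1 Ext.none :=
  certFX0 (fam := true) (s1 := true) (s2 := true) (a := 2) (b := 1) (c := 3) (cn := .pnn) (n1 := ndF0q2) (n2 := ndF0q1) (pc := pcF3) (cut := cut_A00pp_213_s1) (xt := Ext.none) (P1 := 0) (W1 := 536870912) (P2 := 536870912) (W2 := 536870912) (P3 := 1046898278) (W3 := 26843546)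
    rfl k0_A00pp_213_s1

theorem s_A00pp_213_s1 {κ x : ℝ} (hκ : κ * h0 = kenE x) (hx : 39 / 40 ≤ x) (hx' : x < 1) :
    AltVA (VFD κ) (DD x) tKF tL pcF [⟨3, 0, 0, 1449551462⟩] 2 1 3 0 0 (sgb true) (sgb true) x :=
  strip_altVA (d := 1449551462) true rfl hκ (κ0 hκ hx) (x0 hx) hx' (covF02 hx hx') (covF01 hx hx') (x1 hx) (x2 hx') c_A00pp_213_s1 cutVA_nil (noExt_VA)

noncomputable def cut_A00pp_213_s3 : Cut := Cut.of [[⟨3, 0, 0, 2845415833⟩]]

noncomputable def f_A00pp_213_s3 : ℕ → ℕ → ℕ → ℕ → Bool := onCell 0 536870912 536870912 536870912 1046898278 26843546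
    (rowFX 0 true true true .pnn 2 1 3 (qsf 0 536870912 536870912 536870912 3) ndF0q2 ndF0q1 pcF3 cut_A00pp_213_s3 Ext.none)

def k0_A00pp_213_s3 : ∃ t, chk3 f_A00pp_213_s3 t 1 1 1 = true :=
  ⟨(a (l 5) (l 4)), by decide +kernel⟩

theorem c_A00pp_213_s3 : CertFX 0 536870912 536870912 536870912 1046898278 26843546 true true true .pnn 2 1 3
    ndF0q2 ndF0q1 pcF3 cut_A00pp_213_s3 Ext.none :=
  certFX0 (fam := true) (s1 := true) (s2 := true) (a := 2) (b := 1) (c := 3) (cn := .pnn) (n1 := ndF0q2) (n2 := ndF0q1) (pc := pcF3) (cut := cut_A00pp_213_s3) (xt := Ext.none) (P1 := 0) (W1 := 536870912) (P2 := 536870912) (W2 := 536870912) (P3 := 1046898278) (W3 := 26843546)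
    rfl k0_A00pp_213_s3

theorem s_A00pp_213_s3 {κ x : ℝ} (hκ : κ * h0 = kenE x) (hx : 39 / 40 ≤ x) (hx' : x < 1) :
    AltVA (VFD κ) (DD x) tKF tL pcF [⟨4, 0, 0, 2845415833⟩] 2 1 3 0 0 (sgb true) (sgb true) x :=
  strip_altVA (d := 2845415833) false rfl hκ (κ0 hκ hx) (x0 hx) hx' (covF02 hx hx') (covF01 hx hx') (x1 hx) (x2 hx') c_A00pp_213_s3 cutVA_nil (noExt_VA)

noncomputable def cut_A00pm_001_s1 : Cut := Cut.of [[⟨4, 0, 0, 1449551462⟩]]

noncomputable def f_A00pm_001_s1 : ℕ → ℕ → ℕ → ℕ → Bool := onCell 0 536870912 0 536870912 1046898278 26843546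
    (rowFX 0 true true false .up 0 0 1 (qsf 0 536870912 0 536870912 1) ndF0q0 ndF0q0 pcF1 cut_A00pm_001_s1 Ext.none)

def k0_A00pm_001_s1 : ∃ t, chk3 f_A00pm_001_s1 t 1 1 1 = true :=
  ⟨(l 3), by decide +kernel⟩

theorem c_A00pm_001_s1 : CertFX 0 536870912 0 536870912 1046898278 26843546 true true false .up 0 0 1
    ndF0q0 ndF0q0 pcF1 cut_A00pm_001_s1 Ext.none :=
  certFX0 (fam := true) (s1 := true) (s2 := false) (a := 0) (b := 0) (c := 1) (cn := .up) (n1 := ndF0q0) (n2 := ndF0q0) (pc := pcF1) (cut := cut_A00pm_001_s1) (xt := Ext.none) (P1 := 0) (W1 := 536870912) (P2 := 0) (W2 := 536870912) (P3 := 1046898278) (W3 := 26843546)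
    rfl k0_A00pm_001_s1

theorem s_A00pm_001_s1 {κ x : ℝ} (hκ : κ * h0 = kenE x) (hx : 39 / 40 ≤ x) (hx' : x < 1) :
    AltVA (VFD κ) (DD x) tKF tL pcF [⟨3, 0, 0, 1449551462⟩] 0 0 1 0 0 (sgb true) (sgb false) x :=
  strip_altVA (d := 1449551462) true rfl hκ (κ0 hκ hx) (x0 hx) hx' (covF00 hx hx') (covF00 hx hx') (x1 hx) (x2 hx') c_A00pm_001_s1 cutVA_nil (noExt_VA)

noncomputable def cut_A00pm_001_s3 : Cut := Cut.of [[⟨3, 0, 0, 2845415833⟩]]

noncomputable def f_A00pm_001_s3 : ℕ → ℕ → ℕ → ℕ → Bool := onCell 0 536870912 0 536870912 1046898278 26843546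
    (rowFX 0 true true false .up 0 0 1 (qsf 0 536870912 0 536870912 1) ndF0q0 ndF0q0 pcF1 cut_A00pm_001_s3 Ext.none)

def k0_A00pm_001_s3 : ∃ t, chk3 f_A00pm_001_s3 t 1 1 1 = true :=
  ⟨(l 3), by decide +kernel⟩

theorem c_A00pm_001_s3 : CertFX 0 536870912 0 536870912 1046898278 26843546 true true false .up 0 0 1
    ndF0q0 ndF0q0 pcF1 cut_A00pm_001_s3 Ext.none :=
  certFX0 (fam := true) (s1 := true) (s2 := false) (a := 0) (b := 0) (c := 1) (cn := .up) (n1 := ndF0q0) (n2 := ndF0q0) (pc := pcF1) (cut := cut_A00pm_001_s3) (xt := Ext.none) (P1 := 0) (W1 := 536870912) (P2 := 0) (W2 := 536870912) (P3 := 1046898278) (W3 := 26843546)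
    rfl k0_A00pm_001_s3

theorem s_A00pm_001_s3 {κ x : ℝ} (hκ : κ * h0 = kenE x) (hx : 39 / 40 ≤ x) (hx' : x < 1) :
    AltVA (VFD κ) (DD x) tKF tL pcF [⟨4, 0, 0, 2845415833⟩] 0 0 1 0 0 (sgb true) (sgb false) x :=
  strip_altVA (d := 2845415833) false rfl hκ (κ0 hκ hx) (x0 hx) hx' (covF00 hx hx') (covF00 hx hx') (x1 hx) (x2 hx') c_A00pm_001_s3 cutVA_nil (noExt_VA)

noncomputable def cut_A00pm_011_s1 : Cut := Cut.of [[⟨4, 0, 0, 1449551462⟩], [⟨0, 0, 0, 67108864⟩, ⟨1, 1, 0, 67108864⟩, ⟨2, 1, 0, 67108864⟩, ⟨3, 0, 0, 1233125376⟩]]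

noncomputable def f_A00pm_011_s1 : ℕ → ℕ → ℕ → ℕ → Bool := onCell 0 536870912 536870912 536870912 1046898278 26843546
    (rowFX 0 true true false .pnn 0 1 1 (qsf 0 536870912 536870912 536870912 1) ndF0q0 ndF0q1 pcF1 cut_A00pm_011_s1 Ext.none)

def k0_A00pm_011_s1 : ∃ t, chk3 f_A00pm_011_s1 t 1 1 1 = true :=
  ⟨(b (a (l 3) (a (l 3) (b (l 3) (b (a (l 3) (l 2)) (l 2))))) (a (b (a (l 3) (b (l 3) (a (l 3) (b (l 3) (l 2))))) (a (b (a (l 3) (a (l 3) (b (l 3) (b (l 3) (l 2))))) (a (b (b (l 3) (a (l 3) (a (l 3) (a (l 3) (l 2))))) (a (l 14) (a (l 14) (l 2)))) (b (a (b (a (l 3) (l 2)) (l 2)) (l 2)) (l 2)))) (b (a (b (a (l 3) (l 2)) (l 2)) (l 2)) (l 2)))) (b (a (b (a (b (l 3) (l 2)) (l 2)) (l 2)) (l 2)) (l 2)))), by decide +kernel⟩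

theorem c_A00pm_011_s1 : CertFX 0 536870912 536870912 536870912 1046898278 26843546 true true false .pnn 0 1 1
    ndF0q0 ndF0q1 pcF1 cut_A00pm_011_s1 Ext.none :=
  certFX0 (fam := true) (s1 := true) (s2 := false) (a := 0) (b := 1) (c := 1) (cn := .pnn) (n1 := ndF0q0) (n2 := ndF0q1) (pc := pcF1) (cut := cut_A00pm_011_s1) (xt := Ext.none) (P1 := 0) (W1 := 536870912) (P2 := 536870912) (W2 := 536870912) (P3 := 1046898278) (W3 := 26843546)
    rfl k0_A00pm_011_s1

theorem s_A00pm_011_s1 {κ x : ℝ} (hκ : κ * h0 = kenE x) (hx : 39 / 40 ≤ x) (hx' : x < 1)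
    (H : CutVA (VFD κ) (DD x) tKF tL pcF (Cut.of [[⟨0, 0, 0, 67108864⟩, ⟨1, 1, 0, 67108864⟩, ⟨2, 1, 0, 67108864⟩, ⟨3, 0, 0, 1233125376⟩]]) 0 1 1 0 0 (sgb true) (sgb false) x) :
    AltVA (VFD κ) (DD x) tKF tL pcF [⟨3, 0, 0, 1449551462⟩] 0 1 1 0 0 (sgb true) (sgb false) x :=
  strip_altVA (d := 1449551462) true rfl hκ (κ0 hκ hx) (x0 hx) hx' (covF00 hx hx') (covF01 hx hx') (x1 hx) (x2 hx') c_A00pm_011_s1 H (noExt_VA)

noncomputable def cut_A00pm_011_s3 : Cut := Cut.of [[⟨3, 0, 0, 2845415833⟩], [⟨0, 0, 0, 67108864⟩, ⟨1, 1, 0, 67108864⟩, ⟨2, 1, 0, 67108864⟩, ⟨3, 0, 0, 1233125376⟩]]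

noncomputable def f_A00pm_011_s3 : ℕ → ℕ → ℕ → ℕ → Bool := onCell 0 536870912 536870912 536870912 1046898278 26843546
    (rowFX 0 true true false .pnn 0 1 1 (qsf 0 536870912 536870912 536870912 1) ndF0q0 ndF0q1 pcF1 cut_A00pm_011_s3 Ext.none)

def k0_A00pm_011_s3 : ∃ t, chk3 f_A00pm_011_s3 t 1 1 1 = true :=
  ⟨(l 6), by decide +kernel⟩

theorem c_A00pm_011_s3 : CertFX 0 536870912 536870912 536870912 1046898278 26843546 true true false .pnn 0 1 1
    ndF0q0 ndF0q1 pcF1 cut_A00pm_011_s3 Ext.none :=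
  certFX0 (fam := true) (s1 := true) (s2 := false) (a := 0) (b := 1) (c := 1) (cn := .pnn) (n1 := ndF0q0) (n2 := ndF0q1) (pc := pcF1) (cut := cut_A00pm_011_s3) (xt := Ext.none) (P1 := 0) (W1 := 536870912) (P2 := 536870912) (W2 := 536870912) (P3 := 1046898278) (W3 := 26843546)
    rfl k0_A00pm_011_s3

theorem s_A00pm_011_s3 {κ x : ℝ} (hκ : κ * h0 = kenE x) (hx : 39 / 40 ≤ x) (hx' : x < 1)
    (H : CutVA (VFD κ) (DD x) tKF tL pcF (Cut.of [[⟨0, 0, 0, 67108864⟩, ⟨1, 1, 0, 67108864⟩, ⟨2, 1, 0, 67108864⟩, ⟨3, 0, 0, 1233125376⟩]]) 0 1 1 0 0 (sgb true) (sgb false) x) :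
    AltVA (VFD κ) (DD x) tKF tL pcF [⟨4, 0, 0, 2845415833⟩] 0 1 1 0 0 (sgb true) (sgb false) x :=
  strip_altVA (d := 2845415833) false rfl hκ (κ0 hκ hx) (x0 hx) hx' (covF00 hx hx') (covF01 hx hx') (x1 hx) (x2 hx') c_A00pm_011_s3 H (noExt_VA)

noncomputable def cut_A00pm_012_s3 : Cut := Cut.of [[⟨3, 0, 0, 2845415833⟩], [⟨0, 0, 0, 67108864⟩, ⟨1, 1, 0, 67108864⟩, ⟨2, 1, 0, 67108864⟩, ⟨3, 0, 0, 1233125376⟩]]

noncomputable def f_A00pm_012_s3 : ℕ → ℕ → ℕ → ℕ → Bool := onCell 0 536870912 536870912 536870912 1046898278 26843546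
    (rowFX 0 true true false .pnp 0 1 2 (qsf 0 536870912 536870912 536870912 2) ndF0q0 ndF0q1 pcF2 cut_A00pm_012_s3 Ext.none)

def k0_A00pm_012_s3 : ∃ t, chk3 f_A00pm_012_s3 t 1 1 1 = true :=
  ⟨(l 6), by decide +kernel⟩

theorem c_A00pm_012_s3 : CertFX 0 536870912 536870912 536870912 1046898278 26843546 true true false .pnp 0 1 2
    ndF0q0 ndF0q1 pcF2 cut_A00pm_012_s3 Ext.none :=
  certFX0 (fam := true) (s1 := true) (s2 := false) (a := 0) (b := 1) (c := 2) (cn := .pnp) (n1 := ndF0q0) (n2 := ndF0q1) (pc := pcF2) (cut := cut_A00pm_012_s3) (xt := Ext.none) (P1 := 0) (W1 := 536870912) (P2 := 536870912) (W2 := 536870912) (P3 := 1046898278) (W3 := 26843546)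
    rfl k0_A00pm_012_s3

theorem s_A00pm_012_s3 {κ x : ℝ} (hκ : κ * h0 = kenE x) (hx : 39 / 40 ≤ x) (hx' : x < 1)
    (H : CutVA (VFD κ) (DD x) tKF tL pcF (Cut.of [[⟨0, 0, 0, 67108864⟩, ⟨1, 1, 0, 67108864⟩, ⟨2, 1, 0, 67108864⟩, ⟨3, 0, 0, 1233125376⟩]]) 0 1 2 0 0 (sgb true) (sgb false) x) :
    AltVA (VFD κ) (DD x) tKF tL pcF [⟨4, 0, 0, 2845415833⟩] 0 1 2 0 0 (sgb true) (sgb false) x :=
  strip_altVA (d := 2845415833) false rfl hκ (κ0 hκ hx) (x0 hx) hx' (covF00 hx hx') (covF01 hx hx') (x1 hx) (x2 hx') c_A00pm_012_s3 H (noExt_VA)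

noncomputable def cut_A00pm_022_s1 : Cut := Cut.of [[⟨4, 0, 0, 1449551462⟩], [⟨0, 0, 0, 67108864⟩, ⟨1, 1, 0, 67108864⟩, ⟨2, 1, 0, 67108864⟩, ⟨3, 0, 0, 1233125376⟩]]

noncomputable def f_A00pm_022_s1 : ℕ → ℕ → ℕ → ℕ → Bool := onCell 1073741824 536870912 0 536870912 1046898278 26843546
    (rowFX 2 true true false .pp 0 2 2 (qsf 0 536870912 0 536870912 2) ndF0q0 ndF0q2 pcF2 cut_A00pm_022_s1 Ext.none)

def k0_A00pm_022_s1 : ∃ t, chk3 f_A00pm_022_s1 t 4 2 1 = true :=
  ⟨(a (l 1) (l 6)), by decide +kernel⟩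

def k1_A00pm_022_s1 : ∃ t, chk3 f_A00pm_022_s1 t 8 6 1 = true :=
  ⟨(l 1), by decide +kernel⟩

def k2_A00pm_022_s1 : ∃ t, chk3 f_A00pm_022_s1 t 16 7 1 = true :=
  ⟨(b (l 1) (l 14)), by decide +kernel⟩

def k3_A00pm_022_s1 : ∃ t, chk3 f_A00pm_022_s1 t 17 14 1 = true :=
  ⟨(c (a (b (l 1) (b (l 1) (a (l 14) (b (a (b (l 1) (l 14)) (c (l 16148048) (l 16153656))) (l 14))))) (b (b (l 1) (a (l 1) (c (c (a (c (l 16098032) (l 16098464)) (c (l 16150000) (l 16149016))) (l 16121368)) (c (l 16117680) (l 16113984))))) (c (a (b (c (b (l 16091448) (l 16147080)) (b (a (l 1) (l 16116912)) (l 16066584))) (c (b (l 16205016) (l 16263800)) (b (l 16125752) (l 16185776)))) (c (b (a (c (l 16186520) (l 16188080)) (c (l 16230872) (l 16230416))) (a (l 16206888) (c (l 16326272) (l 16326912)))) (b (l 16207400) (l 16226576)))) (b (a (b (l 16089792) (l 16147448)) (c (l 16204208) (l 16201832))) (a (c (l 16239472) (l 16237632)) (c (l 16227584) (l 16148280)))))))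 (b (b (l 1) (a (l 1) (a (l 1) (c (l 16108544) (c (l 16105808) (b (l 16081256) (l 16045824))))))) (a (b (l 1) (b (a (l 1) (c (l 16129008) (c (l 16123592) (a (l 16101616) (l 16142544))))) (l 14))) (b (c (a (l 16027416) (c (l 16201368) (l 16037648))) (a (c (l 16108968) (b (l 16075216) (a (l 16114688) (l 16164928)))) (c (b (l 16094032) (l 16158184)) (b (l 16100640) (l 16247720))))) (c (a (c (l 16154104) (b (l 16203888) (l 16192656))) (c (b (l 16288480) (l 16275704)) (b (l 16216912) (l 16288512)))) (a (c (b (a (l 16183472) (l 16231440)) (a (l 16261224) (l 16308312))) (b (a (l 16188696) (l 16235456)) (l 16291936))) (c (b (l 16227240) (l 16379616)) (l 16344776)))))))), by decide +kernel⟩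

def k4_A00pm_022_s1 : ∃ t, chk3 f_A00pm_022_s1 t 17 15 2 = true :=
  ⟨(b (a (l 14) (c (b (c (a (b (l 16323392) (l 14)) (a (b (l 16372112) (l 14)) (b (l 16406248) (c (c (b (l 16441360) (l 16466576)) (l 16372896)) (l 16459584))))) (a (b (l 16247040) (l 14)) (b (l 16396000) (l 16452736)))) (a (l 14) (a (l 14) (c (c (b (l 16430032) (l 16496464)) (b (l 16518240) (l 16584880))) (b (c (l 16435256) (l 16524128)) (l 16508720)))))) (a (b (b (l 16252432) (l 14)) (l 14)) (a (b (c (l 16330952) (l 16342928)) (l 14)) (b (c (l 16369104) (l 16345184)) (c (b (c (l 16534880) (l 16547568)) (c (l 16521464) (l 16527016))) (c (b (l 16559816) (l 16533648)) (l 16511472)))))))) (a (l 14) (c (a (l 14) (a (l 14) (a (l 14) (a (l 14) (b (c (l 16568536) (b (l 16597176) (l 16583264))) (c (b (l 16552592) (l 16505920)) (b (l 16615640) (l 16582200)))))))) (a (l 14) (a (l 14) (a (l 14) (b (c (b (l 16601168) (l 16577416)) (b (c (l 16606200) (l 16600488)) (l 16586320)))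 (b (l 16534264) (c (l 16583248) (l 16582440)))))))))), by decide +kernel⟩

def k5_A00pm_022_s1 : ∃ t, chk3 f_A00pm_022_s1 t 17 15 3 = true :=
  ⟨(b (a (l 14) (a (a (l 14) (a (l 14) (b (b (c (l 16297744) (l 16398192)) (l 14)) (l 14)))) (c (b (c (b (l 16348480) (l 16414720)) (b (l 16361208) (l 16508128))) (a (l 14) (l 16517808))) (b (l 16393296) (l 16502112))))) (a (l 14) (b (a (l 14) (a (l 14) (c (c (b (c (l 16591752) (l 16677520)) (c (l 16598280) (b (l 16619504) (l 16673800)))) (b (l 16677360) (b (l 16703240) (c (l 16594552) (l 16596856))))) (l 16619424)))) (c (a (l 14) (a (l 14) (b (c (l 16544384) (c (l 16549560) (b (l 16568344) (l 16622344)))) (c (l 16501648) (b (l 16594224) (l 16575440)))))) (b (a (l 14) (c (c (a (l 14) (b (l 16572712) (l 16541920))) (b (l 16664808) (c (l 16555368) (l 16555672)))) (l 16567632))) (a (l 14) (a (l 14) (b (c (c (l 16596904) (b (l 16523544) (l 16592672))) (c (c (b (l 16611192) (l 16595312)) (l 16565096))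 (l 16603448))) (c (c (l 16574712) (l 16574864)) (c (b (c (l 16580472) (l 16581696)) (l 16569304)) (b (l 16502088) (c (b (l 16572032) (l 16566424)) (l 16571600))))))))))))), by decide +kernel⟩

def k6_A00pm_022_s1 : ∃ t, chk3 f_A00pm_022_s1 t 9 12 1 = true :=
  ⟨(a (l 1) (l 6)), by decide +kernel⟩

def k7_A00pm_022_s1 : ∃ t, chk3 f_A00pm_022_s1 t 9 26 1 = true :=
  ⟨(a (a (l 1) (c (b (l 16137624) (l 16164192)) (c (l 16017232) (b (l 16040000) (a (l 16167144) (l 16148408)))))) (a (c (b (l 16235544) (b (l 16319848) (l 16297240))) (c (b (l 16159488) (c (l 16280016) (l 16291408))) (b (a (l 16090768) (l 6)) (a (l 16306328) (l 16492888))))) (l 6))), by decide +kernel⟩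

def k8_A00pm_022_s1 : ∃ t, chk3 f_A00pm_022_s1 t 9 27 1 = true :=
  ⟨(a (a (a (l 1) (c (b (b (l 1) (c (b (l 1) (c (l 16207520) (l 16204640))) (l 16101768))) (c (c (l 16156928) (l 16238104)) (l 16234040))) (b (c (l 15981872) (l 15976040)) (c (l 16228776) (c (l 16227984) (l 16147040)))))) (c (b (b (l 16250968) (b (l 16211424) (a (c (c (l 16259344) (l 16341304)) (l 16338304)) (c (l 16391360) (l 16390792))))) (a (c (c (l 16290368) (l 16372480)) (l 16286528)) (c (c (c (l 16423480) (l 16423248)) (l 16424448)) (c (l 16426976) (l 16432752))))) (c (b (b (l 16249176) (a (l 16319528) (l 16301032))) (a (c (l 16370760) (l 16292536)) (c (l 16360120) (l 16375360)))) (b (a (b (l 16260240) (c (l 16321296) (l 16242904))) (c (l 16196488) (l 16289144))) (a (c (l 16217000) (l 16309224)) (c (l 16385104) (l 16469224))))))) (c (b (a (c (l 16336072) (a (l 16488856) (l 16332480))) (c (c (l 16144832) (l 16129904)) (c (l 16112104) (l 16180376)))) (a (c (a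 (b (c (a (l 16516272) (l 16487096)) (l 16432624)) (a (l 16532992) (l 16480736))) (b (c (l 16379216) (l 16368168)) (l 16366688))) (a (c (a (l 16537328) (l 16466776)) (l 16406384)) (c (l 16260384) (l 16242016)))) (c (c (b (a (b (l 16321328) (l 16308176)) (b (l 16169616) (l 16148712))) (a (l 16304696) (l 16143744))) (b (a (l 16212120) (l 15968664)) (l 16035176))) (b (c (a (l 16274424) (l 16118496)) (l 16016728)) (c (l 16185088) (l 16172952)))))) (a (b (c (a (l 16344824) (l 16308672)) (l 16283960)) (c (a (c (a (l 16516512) (l 16434160)) (l 16379560)) (b (l 16316872) (l 16391624))) (a (l 16375064) (l 16304240)))) (b (c (l 16167976) (l 16245440)) (b (c (l 16090808) (b (l 16090992) (l 16158592))) (c (l 16166896) (l 16160272))))))), by decide +kernel⟩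

def k9_A00pm_022_s1 : ∃ t, chk3 f_A00pm_022_s1 t 18 14 2 = true :=
  ⟨(a (b (c (b (c (a (l 16167144) (l 16291088)) (a (l 16163832) (l 16288640))) (c (a (l 16231592) (l 16344536)) (a (l 16228632) (l 16343768)))) (b (a (l 16158856) (l 16201600)) (a (l 16140840) (c (l 16344696) (l 16348600))))) (a (c (b (c (l 16219264) (l 16218296)) (c (l 16228808) (l 16317376))) (b (c (l 16302880) (l 16222848)) (c (l 16242888) (l 16259208)))) (c (b (c (l 16327592) (l 16331824)) (c (l 16338824) (l 16433840))) (b (c (l 16340752) (l 16356344)) (c (l 16368440) (l 16386920)))))) (b (c (a (b (c (l 16329848) (l 16413552)) (c (l 16378560) (l 16382984))) (b (c (l 16457440) (l 16462600)) (c (l 16423144) (l 16518616)))) (b (a (c (l 16415104) (l 16419664)) (c (l 16472584) (l 16405368))) (a (c (l 16392128) (l 16407768)) (c (l 16453224) (l 16472832))))) (c (c (b (a (l 16362792) (l 16491024)) (a (l 16457216) (c (l 16425816) (l 16415120)))) (b (a (l 16457816) (l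 16476544)) (a (l 16478992) (l 16400576)))) (b (c (a (l 16392248) (l 16459368)) (b (l 16373144) (l 16412872))) (c (a (l 16497736) (l 16386880)) (a (l 16502080) (l 16546024))))))), by decide +kernel⟩

def k10_A00pm_022_s1 : ∃ t, chk3 f_A00pm_022_s1 t 18 14 3 = true :=
  ⟨(a (b (a (c (b (l 16152320) (c (l 16222800) (l 16226736))) (b (c (l 16150144) (l 15984504)) (c (b (l 16207776) (l 16171344)) (a (l 16118192) (l 16273856))))) (c (b (c (l 16284336) (l 16288840)) (c (l 16273688) (l 16202664))) (b (c (l 16128280) (l 16219728)) (c (l 16295648) (l 16378768))))) (c (b (a (c (l 16147936) (b (l 16212256) (l 16272352))) (c (l 16285656) (l 16380776))) (a (c (b (l 16322048) (l 16389152)) (l 16282392)) (c (l 16399064) (l 16487920)))) (b (a (c (l 16168888) (l 16335360)) (l 16384880)) (a (l 16369648) (l 16486832))))) (b (c (b (a (c (l 16345512) (l 16275416)) (c (l 16419936) (l 16516496))) (a (c (l 16337808) (l 16433616)) (l 16484432))) (b (c (l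 16279280) (l 16360984)) (c (l 16423680) (l 16423272)))) (c (b (c (a (l 16424112) (l 16521936)) (l 16493192)) (c (l 16436304) (l 16435816))) (b (b (l 16473000) (l 16486568)) (c (l 16435320) (l 16434832)))))), by decide +kernel⟩

def k11_A00pm_022_s1 : ∃ t, chk3 f_A00pm_022_s1 t 19 14 1 = true :=
  ⟨(c (a (b (b (c (a (c (l 16426720) (l 16499920)) (c (l 16447216) (l 16427456))) (a (a (l 16513616) (l 16351792)) (l 16235936))) (c (a (c (l 16402784) (l 16383648)) (c (l 16334584) (l 16315296))) (a (c (l 16365872) (l 16435000)) (l 16236768)))) (c (b (a (c (a (l 16477128) (l 16405768)) (a (l 16455400) (l 16384872))) (c (c (l 16298608) (l 16288424)) (l 16279248))) (a (c (c (b (l 16394888) (l 16356624)) (l 16282880)) (a (l 16387992) (l 16406504))) (c (b (l 16252136) (l 16302416)) (l 16310632)))) (b (a (c (l 16406224) (l 16480896)) (l 16349952)) (a (l 16346152) (l 16306768))))) (b (c (c (b (a (l 16289328) (l 16050392)) (a (l 16182384) (c (l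 16123384) (l 16112168)))) (b (a (l 16269472) (l 16118000)) (a (l 16250440) (l 16107104)))) (c (b (l 16097960) (l 16170544)) (l 16086272))) (c (b (a (c (c (l 16154480) (l 16227408)) (l 16222952)) (a (l 16127384) (l 16059920))) (a (b (l 16196560) (l 16170200)) (c (l 16046024) (l 16041512)))) (b (c (l 16152336) (l 16148688)) (c (l 16021528) (l 16017504)))))) (a (b (c (b (a (l 16368904) (l 16383928)) (a (l 16425936) (l 16370992))) (a (b (l 16445856) (l 16424752)) (b (l 16381136) (l 16367008)))) (c (b (a (l 16395048) (l 16346184)) (a (l 16343520) (l 16301616))) (b (a (b (l 16403760) (l 16380840)) (l 16257856)) (a (c (l 16424848) (l 16339264)) (l 16212576))))) (b (c (b (l 16167136) (l 16077968)) (b (l 15992624) (c (l 16156648) (l 16069288)))) (c (b (c (l 16145032) (l 16057496)) (c (l 16013480) (l 15925576))) (b (c (l 15969960) (a (l 16203928) (l 15982064))) (c (a (l 16163264) (l 16018944)) (a (l 16075872) (l 15930544)))))))), by decide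 +kernel⟩

def k12_A00pm_022_s1 : ∃ t, chk3 f_A00pm_022_s1 t 18 30 2 = true :=
  ⟨(a (b (c (c (b (a (l 16476944) (l 16503144)) (c (a (b (l 16511784) (l 16453144)) (l 16506552)) (a (l 16445160) (l 16473560)))) (a (l 16349024) (c (l 16461848) (l 16474504)))) (a (c (b (l 16419808) (l 16482000)) (b (l 16440592) (l 16499656))) (c (c (l 16483024) (l 16492400)) (l 16499832)))) (c (a (c (b (c (l 16498736) (l 16421264)) (l 16485320)) (b (c (b (l 16492064) (l 16523320)) (l 16433376)) (a (l 16554784) (l 16526104)))) (c (b (b (l 16512696) (l 16586176)) (l 16456432)) (b (c (c (l 16507064) (l 16503856)) (b (l 16590248) (l 16487112))) (c (l 16534136) (l 16528416))))) (c (b (a (l 16451824) (l 16573576)) (a (c (b (l 16490600) (l 16606128)) (b (l 16579848) (l 16611392))) (c (b (l 16542544) (l 16603848)) (l 16534928)))) (c (b (l 16512912) (a (l 16598272) (l 16535456))) (l 16516504))))) (c (b (c (b (c (l 16421184) (l 16329392)) (c (a (b (l 16541560)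 (l 16520344)) (b (l 16412976) (c (l 16397480) (l 16391448)))) (a (l 16436296) (c (l 16396872) (l 16474872))))) (b (a (l 16461080) (l 16422848)) (a (l 16504256) (l 16471192)))) (b (c (c (a (l 16480888) (l 16362176)) (b (a (l 16403648) (l 16371256)) (a (l 16464360) (l 16437864)))) (c (a (b (l 16479776) (l 16457888)) (b (l 16457784) (l 16441432))) (b (l 16421560) (l 16326872)))) (c (a (c (l 16427376) (l 16422024)) (l 16321408)) (c (l 16291736) (a (l 16427616) (l 16331800)))))) (b (c (b (l 16389760) (l 16437992)) (l 16367344)) (b (l 16329632) (c (c (b (l 16312832) (l 16375856)) (b (l 16396000) (l 16297496))) (c (b (l 16478336) (l 16383048)) (l 16470864))))))), by decide +kernel⟩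

def k13_A00pm_022_s1 : ∃ t, chk3 f_A00pm_022_s1 t 18 30 3 = true :=
  ⟨(a (c (b (c (b (l 16426048) (l 16477568)) (l 16453856)) (c (l 16516104) (l 16516016))) (b (c (l 16453400) (l 16452944)) (a (l 16577448) (l 16548080)))) (a (c (b (l 16504352) (l 16448064)) (b (l 16503040) (l 16445904))) (c (b (l 16395328) (l 16348440)) (b (c (l 16477136) (l 16391856)) (c (l 16429704) (l 16344064)))))), by decide +kernel⟩

def k14_A00pm_022_s1 : ∃ t, chk3 f_A00pm_022_s1 t 18 31 2 = true :=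
  ⟨(b (a (c (c (b (a (l 16513128) (c (l 16486424) (l 16481288))) (a (l 16500856) (b (l 16445672) (l 16424872)))) (a (b (c (l 16501488) (l 16497712)) (c (l 16531344) (l 16523752))) (b (l 16476744) (l 16517176)))) (c (b (a (l 16538832) (l 16485248)) (l 16398456)) (b (c (b (l 16468880) (l 16527800)) (b (l 16472728) (l 16448176))) (a (l 16535592) (l 16446440))))) (c (b (c (a (l 16378368) (l 16281368)) (a (l 16467136) (l 16287696))) (c (a (l 16342680) (l 16242472)) (a (l 16428840) (l 16327936)))) (c (b (a (l 16477136) (l 16297048)) (a (l 16433144) (l 16331560))) (b (c (b (a (l 16495656) (l 16400864)) (l 16341296)) (a (l 16362824) (b (l 16404296) (l 16380664)))) (a (l 16356928) (l 16338536)))))) (a (c (a (b (c (c (l 16503368) (l 16491640)) (l 16485912)) (b (l 16466616) (a (l 16553880) (l 16514608)))) (b (c (l 16403976) (l 16486040)) (b (l 16466992) (l 16367424)))) (b (c (b (l 16451136) (l 16435712)) (a (l 16487456) (l 16486992))) (a (b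 (l 16545976) (l 16447848)) (b (l 16463712) (a (l 16471952) (l 16424816)))))) (c (b (c (a (l 16312264) (l 16291960)) (a (l 16394272) (l 16289368))) (b (c (l 16235608) (l 16316848)) (a (l 16268032) (c (l 16252304) (l 16249224))))) (b (c (a (l 16393472) (l 16287848)) (a (l 16310112) (l 16287664))) (b (c (l 16314200) (l 16311552)) (a (l 16347168) (l 16160968))))))), by decide +kernel⟩

def k15_A00pm_022_s1 : ∃ t, chk3 f_A00pm_022_s1 t 36 31 3 = true :=
  ⟨(b (c (c (b (c (a (l 16511120) (l 16500944)) (l 16544984)) (c (a (l 16541232) (l 16451208)) (b (a (l 16561768) (l 16470936)) (l 16489104)))) (b (l 16544616) (b (l 16515232) (c (a (l 16538752) (l 16449976)) (c (l 16496040) (l 16494672)))))) (a (l 16550072) (l 16477368))) (c (c (b (a (l 16492096) (l 16407208)) (a (b (l 16544408) (l 16529840)) (b (l 16461352) (l 16445168)))) (b (b (c (l 16467312) (c (l 16470024) (l 16389352))) (a (l 16485072) (l 16484744))) (a (b (l 16544984) (l 16444808))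 (b (l 16461392) (l 16443496))))) (b (b (c (c (c (l 16391096) (l 16557224)) (l 16556856)) (l 16472232)) (c (a (c (c (l 16573512) (l 16491872)) (c (l 16494760) (l 16494880))) (c (l 16405296) (b (l 16498224) (l 16405288)))) (l 16450552))) (b (c (c (a (l 16547440) (l 16463456)) (c (l 16423632) (a (l 16467048) (l 16382584)))) (b (c (c (a (l 16561064) (l 16477272)) (l 16517616)) (l 16517144)) (c (b (c (l 16340432) (l 16508856)) (c (l 16416704) (a (l 16545536) (l 16461600)))) (l 16505144)))) (b (a (c (l 16447416) (c (c (l 16532448) (l 16533496)) (c (l 16453208) (l 16535424)))) (c (l 16446696) (c (c (l 16447512) (l 16448312)) (c (l 16368312) (l 16450088))))) (a (c (l 16523208) (c (l 16522520) (c (b (l 16524632) (l 16519768)) (l 16440880)))) (c (l 16437152) (c (l 16436056) (c (a (l 16461552) (l 16327376)) (l 16354216)))))))))), by decide +kernel⟩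

def k16_A00pm_022_s1 : ∃ t, chk3 f_A00pm_022_s1 t 37 62 3 = true :=
  ⟨(c (c (b (c (a (l 16408288) (l 16269376)) (l 16354664)) (c (a (l 16360808) (l 16257552)) (b (a (l 16465232) (l 16280088)) (l 16217352)))) (b (l 16353360) (b (l 16327176) (c (a (l 16360448) (l 16254744)) (c (l 16307856) (l 16390016)))))) (a (c (l 16384576) (l 16383048)) (c (b (l 16386960) (l 16347336)) (b (l 16301016) (l 16261112))))), by decide +kernel⟩

def k17_A00pm_022_s1 : ∃ t, chk3 f_A00pm_022_s1 t 37 63 3 = true :=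
  ⟨(c (b (c (a (l 16313608) (l 16290440)) (c (l 16179496) (b (c (l 16196320) (a (l 16422240) (l 16313768))) (l 16252288)))) (c (a (l 16270192) (l 16249560)) (b (l 16224168) (a (l 16341104) (l 16237072))))) (a (b (c (c (b (c (l 16423808) (l 16421696)) (c (l 16392648) (l 16311152))) (b (l 16420992) (c (l 16314224) (l 16313736)))) (l 16322848)) (c (c (l 16269008) (b (c (l 16365136) (l 16281728)) (l 16338664))) (b (c (c (b (l 16377112) (l 16359528)) (b (l 16375280) (b (l 16364776) (l 16358576)))) (l 16367456)) (c (b (c (l 16343800) (c (l 16344792) (l 16345016))) (l 16331584)) (c (b (c (l 16264496) (l 16348944)) (b (l 16249656) (l 16327768))) (b (l 16345872) (c (l 16249400) (l 16333304)))))))) (b (c (c (b (c (l 16315144) (l 16312664)) (c (l 16283424) (l 16202008))) (b (l 16311696) (b (l 16293456) (c (l 16281264) (l 16281544))))) (l 16213640)) (c (b (c (l 16256000) (c (l 16257736) (b (l 16182904) (l 16251432)))) (c (l 16234656) (l 16149880)))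 (c (c (b (b (c (l 16268552) (l 16267264)) (l 16168472)) (l 16149536)) (b (b (l 16266728) (c (l 16254840) (l 16254352))) (b (c (l 16238776) (l 16154976)) (l 16226592)))) (b (l 16259256) (c (b (c (b (l 16244408) (l 16235992)) (b (l 16243304) (b (l 16238408) (l 16235648)))) (b (b (c (l 16230328) (l 16231000)) (l 16227200)) (l 16223136))) (b (l 16239464) (c (b (a (l 16257104) (l 16121040)) (b (l 16139848) (l 16221232))) (a (l 16254232) (c (l 16118472) (l 16201544)))))))))))), by decide +kernel⟩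

def k18_A00pm_022_s1 : ∃ t, chk3 f_A00pm_022_s1 t 19 30 2 = true :=
  ⟨(a (c (b (c (a (b (c (l 16315416) (l 16392672)) (b (l 16374312) (c (a (l 16391728) (a (l 16354512) (l 16328232))) (l 16283176)))) (b (l 16273512) (b (l 16254224) (c (c (l 16243832) (l 16245480)) (l 16243616))))) (a (l 16378816) (l 16256872))) (a (c (b (c (a (l 16368048) (l 16231048)) (b (a (l 16380632) (a (l 16344000) (l 16316016))) (l 16253720))) (a (l 16330008) (l 16188200))) (b (a (c (l 16292608) (l 16379112)) (c (b (l 16332176) (l 16230424)) (b (l 16328656) (l 16318648)))) (c (l 16224536) (b (a (l 16354128) (l 16295736)) (l 16301912))))) (c (b (c (l 16212280) (b (l 16228464) (l 16207376))) (l 16169624)) (b (c (b (l 16230312) (l 16210392)) (l 16222952)) (c (l 16176712) (l 16093216)))))) (b (a (c (l 16376688) (l 16374568)) (l 16168504)) (b (a (l 16345024) (l 16215072)) (c (a (c (b (a (l 16359216) (l 16300976)) (l 16304888)) (b (l 16326968) (l 16185184))) (c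 (b (l 16197000) (l 16171448)) (l 16104936))) (c (a (b (l 16325720) (l 16310944)) (l 16184816)) (l 16164632)))))) (b (c (c (b (l 15982704) (b (l 16043208) (c (a (l 16020504) (l 15881856)) (l 16030896)))) (a (l 16119344) (l 15976816))) (c (l 15959416) (l 16038808))) (c (c (b (c (a (l 15987632) (b (l 15945616) (l 15926080))) (b (c (l 15850184) (l 15936264)) (l 15998304))) (c (l 15879104) (l 15966504))) (b (c (b (l 16018968) (a (l 16070720) (l 15933744))) (c (l 15844488) (l 16007680))) (c (l 15970864) (b (a (l 16052632) (l 15916296)) (l 15963848))))) (c (b (l 16004688) (c (b (l 15905376) (l 15880792)) (b (l 15984120) (l 15887872)))) (l 15986920))))), by decide +kernel⟩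

def k19_A00pm_022_s1 : ∃ t, chk3 f_A00pm_022_s1 t 19 30 3 = true :=
  ⟨(c (a (b (a (c (l 16372440) (l 16370312)) (b (l 16260544) (l 16234376))) (a (c (l 16326640) (l 16240280)) (l 16109280))) (b (c (l 15950432) (l 15862056)) (c (l 15982032) (l 15893256)))) (a (b (a (c (l 16284304) (b (l 16377504) (l 16354312))) (b (l 16170896) (c (l 16229752) (l 16226680)))) (c (a (a (l 16351680) (l 16210240)) (l 16188080)) (a (a (b (l 16363112) (l 16337144)) (b (l 16307280) (l 16276352))) (b (l 16200336) (l 16168768))))) (b (c (b (l 15956432) (l 16010072)) (b (l 15952048) (l 15921584))) (a (c (l 16043496) (l 15955224)) (c (l 15901536) (l 15812272)))))), by decide +kernel⟩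

def k20_A00pm_022_s1 : ∃ t, chk3 f_A00pm_022_s1 t 19 62 1 = true :=
  ⟨(c (c (a (c (a (c (a (l 16180568) (b (l 16225712) (l 16188816))) (b (l 16172672) (l 16132520))) (b (l 16043016) (c (l 16091184) (l 16090760)))) (a (b (a (l 16290392) (l 16232400)) (c (l 16216768) (l 16217520))) (b (l 16131544) (l 16091104)))) (c (b (a (l 15992608) (l 15860856)) (c (a (l 15960016) (l 15831368)) (l 15726504))) (b (c (l 15928280) (l 15930592)) (c (l 15893480) (l 15893072))))) (a (c (a (b (c (l 16267520) (l 16272440)) (l 16136384)) (b (l 16137680) (l 16093056))) (b (a (c (b (l 16205704) (l 16264176)) (b (l 16292520) (l 16183176))) (c (l 16057728) (b (l 16159720) (l 16136208)))) (a (l 16142592) (l 16098376)))) (c (b (c (l 15934040) (l 15851360)) (l 15810200)) (b (c (b (l 15952720) (l 15930288)) (b (l 15953464) (l 15848600))) (l 15814088))))) (a (c (b (c (c (a (b (l 16288712) (b (l 16274520) (l 16266456))) (l 16067136)) (l 16127296)) (a (l 16275712)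 (l 16142232))) (c (a (c (b (l 16159536) (l 16217832)) (b (c (l 16165280) (l 16166144)) (l 16136712))) (c (l 16015352) (b (l 16120416) (l 16091976)))) (b (l 16012832) (a (a (c (l 16254728) (l 16254912)) (c (c (l 16196936) (l 16115696)) (a (l 16212984) (l 16181704)))) (c (c (l 16096648) (l 16099152)) (l 16095792)))))) (c (a (c (l 16169936) (l 16168448)) (l 16036600)) (b (a (a (l 16300328) (l 16156000)) (l 16134744)) (a (a (l 16258936) (c (l 16201704) (l 16116168))) (l 16014296))))) (c (c (b (c (c (l 15861360) (l 15940376)) (l 15938424)) (c (b (l 15743272) (l 15889568)) (b (c (l 15916848) (l 15916440)) (l 15722664)))) (c (b (l 15935824) (b (l 15912432) (c (l 15811520) (l 15813656)))) (l 15917576))) (c (c (l 15831032) (l 15744496)) (a (c (l 15978248) (l 15891944)) (c (l 15841480) (l 15838584))))))), by decide +kernel⟩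

def k21_A00pm_022_s1 : ∃ t, chk3 f_A00pm_022_s1 t 19 63 2 = true :=
  ⟨(a (c (a (b (c (c (a (l 16214048) (l 16161088)) (l 16185744)) (c (l 16183968) (l 16182440))) (b (c (c (l 16167288) (l 16165432)) (l 16162648)) (a (c (l 16177800) (l 16174208)) (c (a (l 16140944) (l 16030264)) (l 16123688))))) (b (c (c (l 16065800) (l 16063584)) (l 16060488)) (b (c (l 16047048) (l 16042480)) (b (l 16035448) (a (l 16061112) (l 15998048)))))) (a (b (c (l 16097160) (l 16180120)) (c (a (l 16178736) (l 16127304)) (a (l 16175304) (l 16123528)))) (b (c (l 16057368) (l 16055568)) (b (l 16035632) (l 15940336))))) (c (b (c (a (l 15946672) (c (l 15812984) (l 15809840))) (a (l 15931048) (l 15805352))) (a (b (c (l 15920728) (l 15915240)) (b (l 15909784) (a (l 15935600) (l 15874240)))) (b (c (l 15800744) (l 15794368)) (b (l 15792768) (a (l 15733728) (l 15679616)))))) (b (c (a (l 15926992) (l 15800376)) (l 15860376)) (a (c (b (l 15909760) (l 15899936)) (l 15901040))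 (b (l 15784800) (l 15780152)))))), by decide +kernel⟩

def k22_A00pm_022_s1 : ∃ t, chk3 f_A00pm_022_s1 t 76 63 6 = true :=
  ⟨(b (c (c (l 16180808) (l 16182848)) (c (a (l 16212600) (l 16073480)) (b (c (b (l 16124936) (l 16194752)) (a (l 16231296) (a (l 16190464) (l 16161080)))) (l 16090184)))) (c (b (l 16151608) (l 16137920)) (b (c (l 16149544) (l 16149072)) (a (l 16160008) (l 16108088))))), by decide +kernel⟩

def k23_A00pm_022_s1 : ∃ t, chk3 f_A00pm_022_s1 t 76 63 14 = true :=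
  ⟨(b (c (b (b (l 16207568) (c (a (l 16226240) (l 16107952)) (l 16196368))) (c (a (l 16202360) (a (l 16162224) (l 16133224))) (a (l 16120984) (a (l 16080872) (b (l 16144384) (l 16128960)))))) (b (l 16200528) (b (l 16184120) (c (a (l 16200632) (a (l 16160712) (l 16089896))) (a (l 16200560) (l 16145312)))))) (b (c (c (l 16149408) (l 16066544)) (c (a (l 16178296) (a (l 16138968) (l 16110408))) (b (a (l 16186888) (a (l 16147336) (c (l 16117992) (l 16119792)))) (a (l 16172416) (l 16119072))))) (c (a (l 16157192) (l 16021112)) (a (c (l 16155864) (l 16155448)) (b (c (l 16106688) (l 16106400)) (l 16015096)))))), by decide +kernel⟩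

def k24_A00pm_022_s1 : ∃ t, chk3 f_A00pm_022_s1 t 76 126 15 = true :=
  ⟨(a (l 16214912) (a (l 16174008) (l 16060624))), by decide +kernel⟩

def k25_A00pm_022_s1 : ∃ t, chk3 f_A00pm_022_s1 t 76 127 30 = true :=
  ⟨(b (b (c (c (a (l 16188544) (a (l 16148920) (l 16120200))) (l 16160072)) (l 16159400)) (c (a (c (l 16172912) (l 16174152)) (a (c (l 16133712) (l 16134968)) (c (l 16105224) (b (l 16110920) (l 16102952))))) (b (l 16150752) (a (c (l 16171888) (l 16171808)) (c (a (l 16132800) (c (l 16104056) (l 16104656))) (l 16118064)))))) (c (a (l 16071616) (a (b (l 16120976) (l 16111344)) (b (l 16092776) (l 16083424)))) (b (c (a (l 16160416) (a (l 16121632) (l 16093368))) (a (l 16076560) (a (b (l 16125888) (l 16118704)) (b (c (l 16097240) (l 16098136)) (l 16090512))))) (a (l 16149072) (a (l 16110712) (c (l 16082664) (l 16082408))))))), by decide +kernel⟩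

def k26_A00pm_022_s1 : ∃ t, chk3 f_A00pm_022_s1 t 76 254 31 = true :=
  ⟨(a (l 16179304) (a (l 16139720) (l 16110992))), by decide +kernel⟩

def k27_A00pm_022_s1 : ∃ t, chk3 f_A00pm_022_s1 t 152 255 31 = true :=
  ⟨(c (b (c (b (l 16165744) (l 16157776)) (b (l 16164560) (b (l 16160016) (l 16073656)))) (b (c (l 16150912) (c (l 16151264) (l 16151280))) (l 16145752))) (b (l 16160856) (c (b (c (b (l 16153952) (l 16149928)) (b (l 16153344) (l 16067872))) (b (c (l 16146464) (a (l 16159320) (l 16049760))) (l 16143880))) (b (l 16151472) (c (b (l 16147608) (b (l 16144096) (l 16142944))) (l 16062408)))))), by decide +kernel⟩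

def k28_A00pm_022_s1 : ∃ t, chk3 f_A00pm_022_s1 t 153 255 31 = true :=
  ⟨(c (c (b (a (b (l 16126800) (l 16119056)) (b (c (l 16098320) (l 16097576)) (b (c (l 16092752) (l 16093560)) (l 16089192)))) (a (l 16110376) (b (l 16084344) (l 16079616)))) (b (c (b (l 16111496) (a (l 16120280) (b (l 16093056) (a (l 16098456) (l 16082000))))) (l 16108368)) (b (c (a (l 16112752) (l 16084640)) (a (l 16112744) (a (a (l 16012840) (l 16088984)) (l 16076416)))) (a (l 16107232) (b (l 16080040) (l 16078104)))))) (b (l 16107760) (a (c (b (c (b (l 16115352) (l 16111440)) (c (b (l 16114792) (l 16112048)) (l 16113192))) (b (c (l 16108096) (c (l 16108256) (l 16108256))) (l 16105600))) (b (l 16112888) (c (b (c (b (l 16109560) (l 16107600)) (l 16109336)) (b (c (l 16105920) (l 16105912)) (l 16104672))) (b (l 16108328) (c (b (l 16106488) (l 16104600)) (l 16105840)))))) (c (b (c (b (c (b (l 16087600) (l 16086336)) (l 16086752)) (a (a (l 16095440) (l 16087704))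 (l 16075144))) (c (b (l 16086632) (b (l 16084464) (a (l 16091248) (l 16074824)))) (l 16085056))) (b (c (l 16080080) (c (l 16080224) (a (a (l 16092296) (l 16084568)) (l 16072016)))) (c (l 16077704) (l 16077528)))) (b (l 16084744) (c (b (a (a (c (b (l 16093584) (l 16091648)) (c (l 16093480) (l 16092512))) (c (b (l 16085856) (l 16083920)) (l 16085656))) (c (b (l 16073304) (l 16071376)) (l 16073112))) (b (c (l 16077928) (a (c (l 16086208) (a (l 16090064) (l 16082344))) (l 16069728))) (a (l 16084904) (l 16068520)))) (b (l 16080272) (a (a (c (b (l 16090568) (b (l 16088840) (l 16088296))) (b (l 16090096) (l 16088896))) (c (b (l 16082848) (l 16080968)) (l 16082192))) (c (b (l 16070304) (l 16068440)) (l 16069656)))))))))), by decide +kernel⟩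

def k29_A00pm_022_s1 : ∃ t, chk3 f_A00pm_022_s1 t 77 63 3 = true :=
  ⟨(c (b (c (l 16056736) (c (l 16058208) (b (c (l 16072536) (l 16076192)) (l 16048464)))) (c (l 15940760) (b (l 16026000) (l 16012600)))) (c (b (c (b (c (l 16076944) (l 16073816)) (c (l 16048840) (b (l 16059880) (l 16044680)))) (c (b (l 16072768) (b (l 16057736) (l 15963760))) (l 16061680))) (b (c (l 16025872) (c (l 16026592) (b (c (l 16034072) (l 16035880)) (l 16021400)))) (c (l 16009016) (b (l 16009712) (l 16002864))))) (b (c (l 16060072) (l 15974048)) (c (b (c (b (c (l 16036200) (l 16034592)) (c (l 16021568) (l 15939000))) (c (b (l 16034040) (b (l 16026088) (l 16020824))) (l 16028184))) (b (c (l 16009640) (c (l 16009984) (b (l 15930280) (l 16007320)))) (c (l 16001064) (b (l 16001352) (l 15997944))))) (b (l 16026776) (c (b (b (c (a (l 15964432) (l 15981776)) (l 16013616)) (c (a (l 15956936) (l 15974472)) (c (l 15924896) (l 16008016)))) (b (c (l 16001320) (c (l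 16001480) (l 15917624))) (c (l 15997048) (l 15912744)))) (b (l 16010032) (c (c (b (b (l 16004024) (l 16000264)) (a (l 16029344) (l 15963280))) (c (b (b (l 16003392) (l 16000872)) (b (l 15997176) (l 15994808))) (b (a (l 16035088) (l 15968784)) (b (l 15997200) (l 15910840))))) (c (b (l 16001648) (c (b (b (l 15998472) (l 15996576)) (a (l 16027680) (l 15961616))) (b (l 15914400) (b (l 15911064) (l 15910008))))) (b (l 16001352) (b (l 15997192) (a (b (l 16028872) (a (l 16043640) (l 16010448))) (l 15878152))))))))))))), by decide +kernel⟩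

def k30_A00pm_022_s1 : ∃ t, chk3 f_A00pm_022_s1 t 39 63 6 = true :=
  ⟨(c (b (c (l 15859368) (l 15860280)) (a (l 15811928) (l 15775088))) (b (c (b (l 15786536) (l 15849384)) (b (c (b (l 15880960) (l 15868416)) (b (l 15881040) (l 15869624))) (l 15851368))) (a (b (l 15895088) (l 15883592)) (b (l 15770656) (l 15764120))))), by decide +kernel⟩

def k31_A00pm_022_s1 : ∃ t, chk3 f_A00pm_022_s1 t 39 63 7 = true :=
  ⟨(b (c (c (b (c (b (l 15878448) (l 15787616)) (l 15872840)) (c (b (l 15774088) (l 15846728)) (b (a (l 15926424) (l 15796392)) (l 15763224)))) (c (b (l 15871440) (b (l 15858432) (a (l 15914720) (l 15786128)))) (l 15861784))) (a (l 15840080) (c (l 15794280) (l 15791216)))) (c (b (c (a (l 15894264) (l 15769168)) (c (a (l 15894432) (l 15768784)) (b (a (c (l 15901600) (l 15903384)) (c (l 15774696) (l 15776440))) (l 15827144)))) (a (c (l 15879320) (b (l 15878800) (l 15873088))) (c (l 15759200) (b (l 15756816) (l 15753912))))) (b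 (c (b (b (l 15839608) (c (a (l 15817224) (l 15690440)) (l 15834552))) (c (a (c (l 15889528) (l 15890856)) (c (l 15764592) (l 15765952))) (c (a (l 15808352) (l 15767232)) (l 15827824)))) (a (l 15893792) (l 15767360))) (c (b (c (l 15649424) (a (c (l 15878456) (b (l 15882480) (l 15875968))) (c (l 15755872) (l 15672008)))) (a (c (l 15870944) (l 15786008)) (c (l 15751448) (l 15750192)))) (b (b (c (c (a (l 15883160) (l 15759744)) (l 15819712)) (l 15734720)) (c (b (c (a (l 15878256) (l 15755944)) (l 15816392)) (a (c (l 15874536) (a (l 15908640) (l 15843576))) (c (l 15752872) (l 15754384)))) (l 15730384))) (a (c (b (b (c (l 15871592) (l 15788096)) (l 15869104)) (a (l 15898448) (l 15834272))) (c (c (b (b (l 15872704) (l 15869200)) (l 15781992)) (b (a (l 15905008) (l 15840216)) (b (a (l 15898536) (l 15834032)) (l 15864328)))) (b (l 15870184) (b (a (l 15900080) (l 15835576)) (b (a (l 15896864) (l 15832512)) (c (l 15863456) (l 15779608)))))))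 (c (b (b (c (l 15750680) (l 15750976)) (l 15748840)) (l 15747304)) (c (c (b (b (l 15751608) (l 15748808)) (l 15663632)) (b (l 15751808) (b (l 15746448) (l 15745296)))) (b (l 15749272) (b (l 15747984) (l 15661576))))))))))), by decide +kernel⟩

def k32_A00pm_022_s1 : ∃ t, chk3 f_A00pm_022_s1 t 5 2 1 = true :=
  ⟨(l 6), by decide +kernel⟩

def k33_A00pm_022_s1 : ∃ t, chk3 f_A00pm_022_s1 t 10 6 1 = true :=
  ⟨(b (l 6) (a (b (l 6) (a (a (b (l 6) (c (c (b (c (b (l 6) (l 15905208)) (l 15838912)) (c (l 15985632) (l 15966864))) (b (l 15969944) (l 15958136))) (b (c (l 15960384) (l 15950824)) (l 15859624)))) (l 6)) (l 6))) (l 6))), by decide +kernel⟩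

def k34_A00pm_022_s1 : ∃ t, chk3 f_A00pm_022_s1 t 40 14 1 = true :=
  ⟨(c (c (b (c (b (a (c (l 15988968) (l 15977384)) (a (l 15875712) (l 15807336))) (a (l 15972464) (a (l 15871760) (l 15798328)))) (b (a (l 15971608) (l 15834784)) (a (l 15972104) (l 15828816)))) (b (c (a (l 15954408) (a (l 15844232) (l 15772512))) (a (l 15949256) (l 15802088))) (c (a (l 15901872) (c (l 15762192) (l 15758888))) (a (l 15896304) (l 15753928))))) (b (b (a (l 15964600) (l 15825960)) (a (l 15964696) (l 15819832))) (b (c (l 15785720) (l 15780024)) (c (l 15818752) (l 15812664))))) (c (b (b (a (l 15954840) (l 15730312)) (a (l 15954816) (c (l 15810856) (l 15804864)))) (b (c (l 15690440) (a (l 15928632) (l 15777160))) (c (l 15722680) (l 15632704)))) (b (b (a (l 15945080) (c (l 15805368) (a (l 15836360) (l 15764432)))) (a (c (l 15947408) (l 15942472)) (c (l 15798880) (a (l 15831760) (l 15754528))))) (b (a (c (l 15923480) (l 15834432)) (c (l 15687040) (b (l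 15775312) (l 15753752)))) (c (a (l 15868448) (l 15720872)) (a (l 15862880) (c (l 15715912) (l 15628720)))))))), by decide +kernel⟩

def k35_A00pm_022_s1 : ∃ t, chk3 f_A00pm_022_s1 t 41 14 1 = true :=
  ⟨(c (c (b (b (a (c (l 15842624) (l 15836704)) (l 6)) (a (c (l 15814008) (l 15807824)) (a (c (l 15788936) (l 15867024)) (l 15923544)))) (a (b (c (l 15772784) (l 15766256)) (c (l 15626896) (l 15703776))) (a (a (b (l 15798440) (a (l 15716960) (l 15719912))) (b (l 15819200) (l 15735184))) (b (l 15856672) (l 15769216))))) (a (b (b (l 15827824) (l 15798552)) (b (l 15756464) (l 15693264))) (a (b (b (l 6) (l 15858320)) (b (l 15796272) (l 15713032))) (b (l 15940808) (l 15633208))))) (b (b (a (c (l 15732096) (c (l 15807104) (b (l 6) (l 15794784)))) (l 6)) (a (c (c (l 15789280) (l 15783096)) (c (l 15776912) (c (l 15772272) (l 15769184)))) (c (a (a (l 15833992) (l 15859400)) (l 15901760)) (a (c (l 15754120) (a (l 15819280) (l 15845096))) (l 15890872)))))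 (a (c (b (c (l 15746680) (l 15740152)) (c (l 15682760) (l 15675752))) (b (c (l 15733624) (b (l 15741440) (l 15712432))) (c (l 15668744) (c (l 15663488) (l 15576104))))) (c (b (a (a (l 15773040) (l 15794344)) (l 15832816)) (a (a (l 15690624) (l 15707816)) (l 15742752))) (b (c (a (a (l 15763512) (l 15785024)) (l 15823872)) (a (a (l 15757168) (l 15778808)) (l 15817912))) (a (c (a (l 15680200) (l 15697544)) (a (l 15673240) (l 15690704))) (c (l 15732832) (l 15726216)))))))), by decide +kernel⟩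

def k36_A00pm_022_s1 : ∃ t, chk3 f_A00pm_022_s1 t 40 30 2 = true :=
  ⟨(c (b (c (b (a (l 15855072) (l 15717752)) (c (b (l 15768424) (c (a (l 15829160) (l 15696168)) (l 15593480))) (l 15760976))) (a (l 15836792) (l 15699808))) (c (b (c (b (c (l 15745080) (a (l 15811816) (l 15679440))) (l 15726416)) (b (c (a (l 15814352) (l 15682320)) (l 15581576)) (a (l 15794872) (l 15662648)))) (a (l 15765848) (c (l 15637072) (l 15639376)))) (b (b (l 15742720) (c (a (l 15799456) (l 15584272)) (l 15650264))) (c (l 15622664) (b (a (l 15782680) (l 15652656)) (l 15700112)))))) (b (c (l 15677624) (l 15754984)) (c (b (l 15731224) (c (b (a (l 15786920) (l 15656080)) (a (l 15764200) (l 15636240))) (b (l 15714752) (a (l 15771184) (l 15643064))))) (l 15715192)))), by decide +kernel⟩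

def k37_A00pm_022_s1 : ∃ t, chk3 f_A00pm_022_s1 t 41 30 2 = true :=
  ⟨(a (c (b (c (b (l 15573416) (c (b (l 15635656) (c (l 15544168) (l 15624312))) (l 15626936))) (l 15635896)) (c (b (c (b (c (l 15524632) (l 15526000)) (l 15590088)) (b (c (l 15528648) (l 15528272)) (l 15591176))) (a (l 15490392) (l 15472616))) (b (c (b (l 15607392) (l 15513104)) (l 15600160)) (c (l 15568048) (b (l 15580608) (l 15562440)))))) (b (c (l 15628376) (l 15620856)) (c (b (l 15593024) (c (b (l 15582544) (l 15562520)) (l 15491232))) (l 15575576)))) (c (b (b (c (a (l 15662808) (l 15703864)) (l 15676512)) (c (c (a (a (a (l 15541168) (l 15541112)) (l 15639440)) (l 15672448)) (l 15646416)) (l 15640768))) (b (c (a (a (c (c (l 15500712) (a (l 15501144) (l 15583664))) (b (l 15517224) (l 15492800))) (c (l 15595904) (l 15599080))) (c (l 15627304) (l 15630672))) (c (b (l 15621776) (a (a (l 15582104) (l 15594392)) (l 15625504))) (l 15610664))) (c (a (a (l 15460128)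 (l 15554664)) (l 15584088)) (a (a (c (l 15462720) (b (l 15561696) (l 15538624))) (c (l 15557184) (l 15557448))) (c (l 15586496) (l 15587320)))))) (b (b (l 15539792) (l 15545584)) (c (b (l 15604848) (a (a (c (b (l 15478512) (l 15539144)) (l 15552456)) (c (l 15560944) (l 15563072))) (c (l 15590792) (l 15592792)))) (l 15581912))))), by decide +kernel⟩

def k38_A00pm_022_s1 : ∃ t, chk3 f_A00pm_022_s1 t 20 30 3 = true :=
  ⟨(a (c (b (c (l 15580680) (a (l 15812696) (l 15671688))) (c (l 15624456) (a (l 15768576) (l 15634440)))) (b (c (b (l 15663624) (l 15639008)) (b (a (l 15813584) (l 15669152)) (a (l 15787376) (l 15645760)))) (a (c (l 15762208) (l 15671960)) (c (l 15543224) (b (l 15628264) (l 15526304)))))) (a (c (b (c (l 15613328) (l 15605808)) (c (l 15567688) (l 15559808))) (b (c (b (l 15612824) (l 15583016)) (b (l 15605416) (c (l 15577288) (l 15573472)))) (c (a (l 15559648) (l 15543640)) (c (l 15462120) (b (l 15552040) (l 15531232))))))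 (c (b (a (a (l 15520352) (l 15619136)) (l 15653688)) (a (c (l 15555368) (l 15547368)) (l 15588696))) (b (a (c (a (l 15592856) (l 15607904)) (a (b (l 15603096) (l 15566600)) (l 15600416))) (c (l 15642800) (l 15635544))) (c (a (a (l 15533296) (l 15545416)) (l 15577072)) (a (a (l 15525256) (l 15537456)) (l 15569320))))))), by decide +kernel⟩

def k39_A00pm_022_s1 : ∃ t, chk3 f_A00pm_022_s1 t 20 62 2 = true :=
  ⟨(a (c (c (b (a (c (l 15731536) (l 15731792)) (c (l 15611360) (l 15611160))) (a (c (l 15708488) (l 15706656)) (l 15594664))) (b (a (l 15733720) (l 15612408)) (a (l 15704880) (l 15590912)))) (c (b (c (l 15676384) (a (l 15736952) (l 15613928))) (a (l 15704024) (l 15589192))) (b (c (b (l 15523536) (l 15671288)) (b (l 15689312) (a (l 15734984) (l 15614184)))) (l 15564792)))) (c (a (c (b (c (l 15450456) (l 15533840)) (a (l 15443040) (l 15410808))) (b (l 15534648) (l 15506352))) (a (a (c (b (l 15420216) (l 15387600)) (b (l 15420216)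 (l 15382880))) (c (l 15496608) (l 15495120))) (c (l 15523128) (l 15521832)))) (c (a (b (c (l 15536832) (l 15535560)) (l 15503992)) (a (a (b (c (l 15506104) (l 15505304)) (l 15464088)) (c (l 15493608) (l 15490616))) (c (l 15520464) (l 15517552)))) (a (b (c (b (l 15552040) (l 15530416)) (b (l 15547512) (l 15534112))) (l 15504976)) (b (a (a (c (b (l 15523256) (l 15497400)) (b (l 15518720) (l 15500912))) (c (l 15516808) (l 15521136))) (c (l 15544992) (l 15549192))) (a (a (l 15464760) (l 15471480)) (l 15497576))))))), by decide +kernel⟩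

def k40_A00pm_022_s1 : ∃ t, chk3 f_A00pm_022_s1 t 20 62 3 = true :=
  ⟨(c (a (c (b (c (c (l 15516176) (l 15678712)) (l 15676056)) (c (b (c (l 15657192) (l 15660016)) (l 15641600)) (a (b (l 15722144) (l 15699040)) (b (l 15604424) (l 15584152))))) (c (b (l 15672512) (b (l 15656584) (c (l 15562552) (l 15563976)))) (l 15575624))) (a (c (b (c (c (l 15541240) (l 15536912)) (l 15533864)) (c (b (l 15514712) (l 15496432)) (b (l 15435368) (l 15496024)))) (c (b (l 15529792) (b (l 15512352) (c (l 15500608) (l 15501024)))) (l 15514040))) (b (c (c (a (a (c (l 15509224) (l 15505664)) (l 15517424)) (l 15545496)) (l 15523384)) (l 15517192)) (c (a (a (c (b (l 15476984) (l 15453672)) (b (l 15480400) (l 15453592))) (c (l 15469496) (l 15473432))) (c (l 15495880) (l 15499816))) (c (b (l 15492912) (a (a (c (l 15457536) (l 15457408)) (l 15464160)) (l 15490040))) (l 15479552)))))) (a (c (a (l 15714792) (l 15592264)) (a (c (l 15709752) (l 15622504)) (c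 (l 15586560) (l 15498864)))) (a (a (c (l 15522888) (l 15430888)) (c (l 15492896) (l 15484552))) (c (a (a (l 15471376) (l 15479280)) (l 15506928)) (a (a (l 15462864) (l 15470816)) (l 15498648)))))), by decide +kernel⟩

def k41_A00pm_022_s1 : ∃ t, chk3 f_A00pm_022_s1 t 40 63 1 = true :=
  ⟨(c (b (c (c (c (l 15706512) (l 15639816)) (c (l 15636048) (l 15632512))) (c (l 15628112) (l 15623184))) (b (c (c (l 15679824) (l 15630272)) (c (l 15622664) (l 15615056))) (a (c (b (l 15684832) (a (l 15709960) (l 15656992))) (l 15671208)) (c (a (l 15563920) (l 15470032)) (l 15564800))))) (c (b (c (c (l 15620872) (l 15620912)) (c (b (l 15542624) (l 15612624)) (b (c (b (l 15635928) (l 15625592)) (b (l 15634600) (l 15627440))) (l 15613752)))) (c (a (l 15663544) (l 15471424)) (b (l 15517744) (a (l 15653152) (l 15544728))))) (b (c (c (b (c (a (l 15688624) (l 15574784)) (l 15627640)) (c (b (l 15618448) (l 15610224)) (b (l 15537512) (l 15610064)))) (c (b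 (l 15625800) (b (l 15617896) (a (l 15669520) (l 15557368)))) (l 15618720))) (a (l 15671408) (l 15557256))) (c (b (c (l 15599216) (c (l 15597864) (b (a (l 15660296) (l 15548632)) (l 15595264)))) (b (c (l 15591768) (l 15588816)) (a (l 15560232) (l 15451288)))) (b (c (b (c (c (l 15604744) (l 15602656)) (l 15601248)) (c (c (l 15594640) (l 15512200)) (b (l 15596936) (c (l 15594904) (l 15593544))))) (l 15595568)) (b (c (c (l 15587624) (b (c (l 15589136) (l 15590232)) (l 15585536))) (c (c (b (a (l 15646280) (l 15535176)) (l 15501680)) (c (b (l 15588920) (l 15586608)) (l 15586960))) (l 15585768))) (b (b (c (l 15583424) (c (c (l 15582456) (l 15498792)) (a (c (l 15641568) (l 15637144)) (l 15530568)))) (c (l 15582576) (c (l 15580824) (a (c (l 15638192) (l 15635520)) (l 15444056))))) (c (a (l 15637752) (l 15528328)) (a (c (l 15635160) (c (b (l 15633664) (l 15633248)) (b (l 15635408) (l 15633160)))) (c (l 15525432) (b (l 15440440) (c (l 15523416)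 (a (l 15550040) (l 15495568)))))))))))))), by decide +kernel⟩

def k42_A00pm_022_s1 : ∃ t, chk3 f_A00pm_022_s1 t 82 63 1 = true :=
  ⟨(c (c (b (c (l 15412784) (l 15488216)) (b (l 15484136) (a (l 15420032) (l 15371512)))) (b (c (l 15480832) (l 15474776)) (b (l 15466600) (a (l 15486816) (l 15437512))))) (c (b (c (l 15471688) (b (c (l 15477800) (c (l 15480184) (l 15482920))) (l 15377552))) (b (c (l 15453544) (l 15446456)) (b (l 15444392) (a (l 15467784) (l 15416776))))) (c (b (c (b (c (l 15481152) (l 15477544)) (c (l 15459984) (b (l 15468824) (l 15456400)))) (c (b (l 15475424) (b (l 15465256) (l 15459040))) (l 15466520))) (b (c (l 15443168) (c (l 15441472) (b (l 15448336) (l 15437728)))) (b (c (l 15433432) (l 15429888)) (a (l 15454824) (l 15403232))))) (b (l 15461192) (b (c (c (b (c (l 15448120) (l 15446296)) (c (l 15437048) (l 15438272))) (c (b (l 15445216) (l 15439024)) (l 15440488))) (l 15437776)) (c (b (c (l 15428256) (c (l 15427392)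 (l 15427456))) (a (l 15448584) (l 15396696))) (c (b (c (b (l 15430816) (l 15425360)) (l 15430832)) (b (c (l 15420624) (l 15420264)) (a (l 15444280) (l 15391760)))) (b (l 15425512) (b (l 15422608) (a (b (l 15443608) (l 15441544)) (l 15391056))))))))))), by decide +kernel⟩

def k43_A00pm_022_s1 : ∃ t, chk3 f_A00pm_022_s1 t 166 63 1 = true :=
  ⟨(c (c (a (c (b (l 15364520) (l 15345688)) (c (l 15349432) (l 15345048))) (c (l 15360736) (l 15351912))) (b (c (l 15434104) (a (l 15425352) (l 15429992))) (a (c (l 15411272) (l 15402176)) (l 15410096)))) (c (b (c (a (l 15421880) (l 15426544)) (b (a (c (l 15430408) (c (l 15432536) (b (l 15438288) (l 15428384)))) (c (l 15435672) (l 15438664))) (a (l 15408920) (l 15413080)))) (a (c (l 15393184) (b (l 15389248) (l 15377688))) (c (l 15396088) (l 15388168)))) (b (c (c (a (b (c (l 15432576) (l 15429384)) (c (l 15407576) (b (l 15416832) (l 15402600)))) (b (l 15437528) (l 15412536))) (c (b (l 15429808)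 (a (b (l 15413464) (a (l 15409416) (l 15400000))) (l 15414648))) (l 15418176))) (l 15328720)) (a (c (b (c (l 15385632) (c (l 15383984) (b (a (l 15396608) (l 15386752)) (l 15378736)))) (c (l 15370624) (l 15366656))) (c (b (c (b (c (l 15391152) (l 15389536)) (a (l 15383672) (a (l 15374768) (l 15371968)))) (c (b (l 15388400) (b (l 15381160) (l 15376576))) (l 15382432))) (b (c (l 15366776) (c (l 15365944) (a (l 15371344) (l 15360568)))) (c (l 15359208) (l 15357224)))) (b (l 15379576) (c (b (a (l 15374168) (a (l 15364768) (c (l 15362208) (l 15361456)))) (b (a (l 15362176) (a (l 15352616) (l 15349480))) (l 15353016))) (b (l 15363680) (a (l 15361464) (a (l 15351656) (c (l 15348848) (l 15347856))))))))) (c (b (c (l 15388752) (c (l 15387128) (l 15387208))) (l 15287360)) (c (b (c (b (l 15394392) (l 15381408)) (c (l 15392952) (l 15385568))) (b (c (l 15369104) (c (l 15368280) (l 15368320))) (l 15360424))) (b (l 15382720) (c (b (l 15370904)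 (b (l 15358576) (l 15354944))) (l 15281640))))))))), by decide +kernel⟩

def k44_A00pm_022_s1 : ∃ t, chk3 f_A00pm_022_s1 t 167 63 2 = true :=
  ⟨(a (c (b (l 15380552) (a (l 15354856) (b (l 15450472) (l 15356128)))) (b (l 15449752) (a (l 15336776) (l 15345192)))) (b (c (l 15396280) (l 15465704)) (b (c (l 15461528) (l 15443568)) (b (l 15358952) (b (l 15437888) (b (l 15435384) (c (b (l 15443264) (a (c (a (a (l 15441304) (a (l 15442712) (b (l 15443344) (c (b (l 15445336) (c (a (a (l 15446192) (l 15363168)) (l 15446488)) (a (a (l 15443896) (l 15360872)) (l 15444200)))) (b (l 15440744) (c (a (a (l 15441608) (l 15442464)) (l 15441904)) (a (a (l 15439312) (l 15440176)) (l 15439608)))))))) (l 15445304)) (b (l 15434608) (a (a (l 15431872) (a (l 15433288) (c (b (l 15436160) (c (a (a (l 15437016) (l 15437880)) (l 15437320)) (a (a (l 15434720) (l 15435592)) (l 15435024)))) (a (a (l 15431408) (l 15432280)) (l 15431688))))) (l 15435928)))) (l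 15445896))) (b (l 15424984) (b (l 15424352) (a (a (a (l 15418104) (a (l 15419536) (c (l 15384752) (l 15333656)))) (l 15422200)) (l 15427432))))))))))), by decide +kernel⟩

def k45_A00pm_022_s1 : ∃ t, chk3 f_A00pm_022_s1 t 334 63 3 = true :=
  ⟨(c (b (c (l 15442760) (c (l 15439632) (b (l 15455360) (l 15428888)))) (b (l 15411792) (a (l 15395264) (l 15403512)))) (b (c (c (b (l 15454168) (l 15428648)) (c (b (l 15449216) (l 15430704)) (l 15437008))) (l 15431520)) (c (b (c (l 15404152) (c (l 15402576) (l 15402720))) (a (l 15381936) (l 15390264))) (c (b (c (b (l 15410008) (l 15396760)) (l 15407248)) (b (c (l 15384088) (c (l 15383288) (l 15383360))) (a (l 15371112) (l 15379272)))) (b (l 15398280) (a (c (b (l 15382128) (b (l 15369688) (l 15365648))) (l 15376264)) (b (l 15306336) (b (l 15378216) (c (l 15373680) (l 15372832)))))))))), by decide +kernel⟩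

def k46_A00pm_022_s1 : ∃ t, chk3 f_A00pm_022_s1 t 335 63 3 = true :=
  ⟨(b (c (c (l 15458880) (c (l 15455864) (b (l 15471976) (l 15444816)))) (c (c (b (l 15470720) (l 15444680)) (c (b (l 15465912) (l 15446672)) (l 15453392))) (l 15447984))) (c (b (l 15426976) (b (l 15415648) (b (l 15410568) (b (l 15408000) (b (l 15406712) (b (l 15406064) (a (a (a (l 15399728) (a (l 15401176) (a (a (l 15401600) (l 15402496)) (l 15401896)))) (l 15403888)) (l 15409184)))))))) (b (c (c (l 15419464) (c (l 15417936) (l 15418144))) (c (c (b (l 15425528) (l 15412016)) (l 15422496)) (l 15413752))) (b (c (l 15402760) (c (c (l 15398984) (l 15314608)) (l 15401336))) (b (c (l 15396912) (c (l 15390440) (l 15389232))) (b (c (l 15394312) (c (l 15387464) (l 15382056))) (b (c (l 15393008) (c (l 15386152) (l 15378832))) (c (a (b (l 15388768) (b (l 15388448) (b (l 15388280) (b (l 15388200) (a (a (l 15385704) (a (l 15387168) (a (a (l 15387600) (l 15388504)) (l 15387928))))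 (l 15389936)))))) (l 15395752)) (b (c (l 15385496) (l 15377400)) (c (a (a (a (l 15379056) (a (l 15380528) (a (a (l 15380960) (l 15381864)) (l 15381256)))) (l 15383280)) (l 15388664)) (b (l 15376744) (a (c (a (a (l 15375472) (a (l 15376944) (a (a (l 15377384) (l 15378288)) (l 15377696)))) (l 15379720)) (b (l 15373736) (b (l 15373584) (b (l 15373504) (b (l 15373472) (a (a (l 15372008) (a (l 15373488) (a (a (l 15373920) (l 15374832)) (l 15374256)))) (l 15376296))))))) (l 15382040))))))))))))), by decide +kernel⟩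

def k47_A00pm_022_s1 : ∃ t, chk3 f_A00pm_022_s1 t 21 14 1 = true :=
  ⟨(b (a (l 6) (l 6)) (c (b (a (c (a (l 15847184) (l 15948784)) (l 15888680)) (l 6)) (c (a (c (a (l 15843456) (l 15940592)) (l 15886808)) (c (l 16001680) (l 16081152))) (a (l 15794240) (l 16074528)))) (b (a (c (c (l 15964912) (l 15875920)) (a (c (l 15901032) (l 15811688)) (b (l 6) (l 15895904)))) (l 6)) (c (a (c (l 15869440) (l 15779768)) (l 15897928)) (a (c (a (l 15806672) (l 15907880)) (a (l 15632776) (l 15902424))) (a (b (l 15950880) (l 15894488)) (l 6))))))), by decide +kernel⟩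

def k48_A00pm_022_s1 : ∃ t, chk3 f_A00pm_022_s1 t 21 15 2 = true :=
  ⟨(b (c (b (c (b (a (l 15819248) (l 15998512)) (a (c (c (l 15697776) (l 15778576)) (l 15776088)) (l 15946976))) (a (l 15792176) (l 15967704))) (b (c (a (c (b (l 15579376) (l 15719304)) (b (l 15750720) (l 15721680))) (c (b (l 15909472) (l 15875816)) (b (l 15912144) (l 15879568)))) (c (a (b (l 15746056) (l 15727544)) (l 15898056)) (l 15730792))) (c (a (l 15596736) (l 15829880)) (a (c (l 15682864) (l 15517576)) (c (l 15833240) (l 15836880)))))) (b (a (l 15698576) (l 15959864)) (c (b (l 15726048) (a (c (l 15520888) (l 15690472)) (b (l 15853728) (l 15825088)))) (a (l 15702168) (l 15859792))))) (b (c (c (a (b (l 15630360) (l 15587368)) (b (l 15769552) (l 15716464))) (a (b (l 15631256) (l 15583472)) (b (l 15771472) (l 15713528)))) (c (b (a (c (l 15633920) (l 15633888)) (l 15690072)) (a (l 15581616) (l 15712632))) (b (a (c (l 15637384) (l 15557320)) (c (l 15779928) (l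 15783112))) (a (l 15582112) (l 15713872))))) (c (b (c (a (l 15553872) (l 15672840)) (a (l 15545784) (l 15665640))) (a (c (l 15523968) (l 15515472)) (c (l 15632568) (l 15624880)))) (c (a (b (l 15538776) (l 15506992)) (l 15555536)) (b (l 15426952) (l 15387256)))))), by decide +kernel⟩

def k49_A00pm_022_s1 : ∃ t, chk3 f_A00pm_022_s1 t 21 15 3 = true :=
  ⟨(b (c (a (b (c (l 15772744) (l 15766272)) (c (l 15695120) (l 15688072))) (b (c (l 15952024) (l 15946792)) (l 15767016))) (a (b (a (b (l 15646240) (l 15605360)) (b (l 15741784) (l 15779536))) (c (l 15597136) (a (l 15632384) (l 15715064)))) (b (c (l 15857680) (b (l 15879344) (l 15825248))) (c (l 15842008) (c (l 15837560) (l 15750712)))))) (c (b (a (c (b (c (l 15637824) (l 15632568)) (c (l 15498480) (b (l 15601984) (l 15570872)))) (c (b (l 15628816) (b (l 15596384) (l 15574840))) (l 15603360))) (b (l 15774824) (c (c (l 15715904) (l 15719440)) (c (l 15636680) (l 15715472))))) (b (c (a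 (l 15530384) (l 15652920)) (c (a (l 15443792) (l 15651352)) (a (b (c (l 15544960) (l 15546720)) (l 15514960)) (b (l 15671856) (l 15635880))))) (c (a (l 15490184) (l 15601976)) (a (b (l 15490416) (l 15472888)) (l 15595440))))) (b (a (c (l 15513728) (a (l 15553696) (l 15625752))) (c (l 15737696) (a (l 15696296) (l 15765304)))) (c (b (a (c (b (c (l 15544768) (l 15542000)) (c (l 15515008) (l 15516888))) (c (b (l 15539984) (l 15517576)) (l 15526104))) (b (l 15668056) (c (l 15553600) (c (l 15638880) (l 15636168))))) (b (c (a (l 15487336) (l 15603536)) (b (a (c (l 15493576) (l 15495232)) (l 15612368)) (a (l 15479224) (l 15594504)))) (a (c (l 15466368) (l 15462688)) (l 15575648)))) (b (a (l 15521008) (l 15646224)) (b (c (a (c (b (l 15494584) (l 15479656)) (a (l 15376384) (l 15519544))) (b (l 15611144) (c (l 15595384) (l 15598184)))) (l 15457968)) (a (c (b (b (c (l 15468192) (l 15468584)) (l 15461328)) (l 15453472)) (c (b (l 15382688) (b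 (l 15453288) (l 15447816))) (b (l 15462424) (l 15367432)))) (c (b (c (l 15577960) (l 15578008)) (l 15563776)) (c (b (l 15579312) (l 15561920)) (l 15570976)))))))))), by decide +kernel⟩

def k50_A00pm_022_s1 : ∃ t, chk3 f_A00pm_022_s1 t 11 6 1 = true :=
  ⟨(l 6), by decide +kernel⟩

def k51_A00pm_022_s1 : ∃ t, chk3 f_A00pm_022_s1 t 22 7 1 = true :=
  ⟨(b (l 6) (c (b (a (c (b (c (l 16059672) (l 16136200)) (c (b (c (l 15959776) (l 16047160)) (l 15972648)) (b (l 15966120) (l 15811216)))) (c (b (l 16132224) (b (l 16044728) (l 15899960))) (l 15986144))) (l 6)) (c (b (a (c (b (l 15902472) (l 15839496)) (l 15789600)) (c (l 15826024) (l 15996072))) (a (b (l 15782856) (l 15648344)) (c (l 15779192) (l 15857344)))) (b (c (a (b (l 15909896) (l 15837560)) (l 15914352)) (a (b (l 15916624) (l 15839992)) (l 15835200))) (a (c (l 15748784) (l 15743720)) (c (l 15852224) (l 15847928)))))) (b (a (a (c (l 15813656) (c (l 15848568) (b (l 15985112) (l 15953312))))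 (c (l 15935248) (c (l 15929112) (b (l 6) (l 16029384))))) (l 6)) (c (b (b (a (l 15912328) (l 16043328)) (a (c (l 15676680) (c (l 15847160) (l 15843488))) (c (l 15965048) (l 15842832)))) (b (c (l 15741752) (a (c (l 15769248) (l 15687368)) (c (l 15881136) (l 15883224)))) (c (l 15759040) (a (l 15702312) (l 15803320))))) (b (a (c (l 15871560) (c (l 15867304) (l 15864464))) (a (a (l 15949440) (l 15981032)) (l 6))) (c (c (b (b (l 15848632) (a (l 15753208) (l 15862784))) (b (l 15766992) (l 15732648))) (b (a (c (l 15775144) (l 15769496)) (l 15884064)) (b (a (c (l 15713736) (l 15714688)) (l 15819584)) (l 15646024)))) (b (a (l 15765512) (l 15878704)) (a (c (b (l 15632464) (b (l 15685352) (l 15668424))) (b (l 15711488) (c (l 15677744) (l 15676808)))) (a (b (l 15794064) (c (l 15753272) (l 15752936))) (c (l 15740904) (l 15823864))))))))))), by decide +kernel⟩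

def k52_A00pm_022_s1 : ∃ t, chk3 f_A00pm_022_s1 t 23 7 1 = true :=
  ⟨(b (l 6) (b (l 6) (c (b (l 6) (b (l 6) (a (c (a (l 15863760) (l 6)) (l 15743472)) (l 6)))) (b (l 6) (b (l 6) (b (l 6) (a (a (a (c (l 15835848) (c (l 15827552) (a (c (l 15829608) (a (l 15827976) (l 15830448))) (l 15820792)))) (l 6)) (l 6)) (l 6)))))))), by decide +kernel⟩

def k53_A00pm_022_s1 : ∃ t, chk3 f_A00pm_022_s1 t 3 1 1 = true :=
  ⟨(b (l 6) (l 6)), by decide +kernel⟩

theorem t54_A00pm_022_s1 : ∃ t, chk3 f_A00pm_022_s1 t 11 7 1 = true := ex3_a k51_A00pm_022_s1 k52_A00pm_022_s1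

theorem t55_A00pm_022_s1 : ∃ t, chk3 f_A00pm_022_s1 t 11 3 1 = true := ex3_b k50_A00pm_022_s1 t54_A00pm_022_s1

theorem t56_A00pm_022_s1 : ∃ t, chk3 f_A00pm_022_s1 t 21 15 1 = true := ex3_c k48_A00pm_022_s1 k49_A00pm_022_s1

theorem t57_A00pm_022_s1 : ∃ t, chk3 f_A00pm_022_s1 t 21 7 1 = true := ex3_b k47_A00pm_022_s1 t56_A00pm_022_s1

theorem t58_A00pm_022_s1 : ∃ t, chk3 f_A00pm_022_s1 t 167 63 3 = true := ex3_a k45_A00pm_022_s1 k46_A00pm_022_s1

theorem t59_A00pm_022_s1 : ∃ t, chk3 f_A00pm_022_s1 t 167 63 1 = true := ex3_c k44_A00pm_022_s1 t58_A00pm_022_s1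

theorem t60_A00pm_022_s1 : ∃ t, chk3 f_A00pm_022_s1 t 83 63 1 = true := ex3_a k43_A00pm_022_s1 t59_A00pm_022_s1

theorem t61_A00pm_022_s1 : ∃ t, chk3 f_A00pm_022_s1 t 41 63 1 = true := ex3_a k42_A00pm_022_s1 t60_A00pm_022_s1

theorem t62_A00pm_022_s1 : ∃ t, chk3 f_A00pm_022_s1 t 20 63 1 = true := ex3_a k41_A00pm_022_s1 t61_A00pm_022_s1

theorem t63_A00pm_022_s1 : ∃ t, chk3 f_A00pm_022_s1 t 20 62 1 = true := ex3_c k39_A00pm_022_s1 k40_A00pm_022_s1

theorem t64_A00pm_022_s1 : ∃ t, chk3 f_A00pm_022_s1 t 20 31 1 = true := ex3_b t63_A00pm_022_s1 t62_A00pm_022_s1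

theorem t65_A00pm_022_s1 : ∃ t, chk3 f_A00pm_022_s1 t 20 30 2 = true := ex3_a k36_A00pm_022_s1 k37_A00pm_022_s1

theorem t66_A00pm_022_s1 : ∃ t, chk3 f_A00pm_022_s1 t 20 30 1 = true := ex3_c t65_A00pm_022_s1 k38_A00pm_022_s1

theorem t67_A00pm_022_s1 : ∃ t, chk3 f_A00pm_022_s1 t 20 15 1 = true := ex3_b t66_A00pm_022_s1 t64_A00pm_022_s1

theorem t68_A00pm_022_s1 : ∃ t, chk3 f_A00pm_022_s1 t 20 14 1 = true := ex3_a k34_A00pm_022_s1 k35_A00pm_022_s1

theorem t69_A00pm_022_s1 : ∃ t, chk3 f_A00pm_022_s1 t 20 7 1 = true := ex3_b t68_A00pm_022_s1 t67_A00pm_022_s1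

theorem t70_A00pm_022_s1 : ∃ t, chk3 f_A00pm_022_s1 t 10 7 1 = true := ex3_a t69_A00pm_022_s1 t57_A00pm_022_s1

theorem t71_A00pm_022_s1 : ∃ t, chk3 f_A00pm_022_s1 t 10 3 1 = true := ex3_b k33_A00pm_022_s1 t70_A00pm_022_s1

theorem t72_A00pm_022_s1 : ∃ t, chk3 f_A00pm_022_s1 t 5 3 1 = true := ex3_a t71_A00pm_022_s1 t55_A00pm_022_s1

theorem t73_A00pm_022_s1 : ∃ t, chk3 f_A00pm_022_s1 t 5 1 1 = true := ex3_b k32_A00pm_022_s1 t72_A00pm_022_s1

theorem t74_A00pm_022_s1 : ∃ t, chk3 f_A00pm_022_s1 t 39 63 3 = true := ex3_c k30_A00pm_022_s1 k31_A00pm_022_s1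

theorem t75_A00pm_022_s1 : ∃ t, chk3 f_A00pm_022_s1 t 76 255 31 = true := ex3_a k27_A00pm_022_s1 k28_A00pm_022_s1

theorem t76_A00pm_022_s1 : ∃ t, chk3 f_A00pm_022_s1 t 76 127 31 = true := ex3_b k26_A00pm_022_s1 t75_A00pm_022_s1

theorem t77_A00pm_022_s1 : ∃ t, chk3 f_A00pm_022_s1 t 76 127 15 = true := ex3_c k25_A00pm_022_s1 t76_A00pm_022_s1

theorem t78_A00pm_022_s1 : ∃ t, chk3 f_A00pm_022_s1 t 76 63 15 = true := ex3_b k24_A00pm_022_s1 t77_A00pm_022_s1

theorem t79_A00pm_022_s1 : ∃ t, chk3 f_A00pm_022_s1 t 76 63 7 = true := ex3_c k23_A00pm_022_s1 t78_A00pm_022_s1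

theorem t80_A00pm_022_s1 : ∃ t, chk3 f_A00pm_022_s1 t 76 63 3 = true := ex3_c k22_A00pm_022_s1 t79_A00pm_022_s1

theorem t81_A00pm_022_s1 : ∃ t, chk3 f_A00pm_022_s1 t 38 63 3 = true := ex3_a t80_A00pm_022_s1 k29_A00pm_022_s1

theorem t82_A00pm_022_s1 : ∃ t, chk3 f_A00pm_022_s1 t 19 63 3 = true := ex3_a t81_A00pm_022_s1 t74_A00pm_022_s1

theorem t83_A00pm_022_s1 : ∃ t, chk3 f_A00pm_022_s1 t 19 63 1 = true := ex3_c k21_A00pm_022_s1 t82_A00pm_022_s1

theorem t84_A00pm_022_s1 : ∃ t, chk3 f_A00pm_022_s1 t 19 31 1 = true := ex3_b k20_A00pm_022_s1 t83_A00pm_022_s1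

theorem t85_A00pm_022_s1 : ∃ t, chk3 f_A00pm_022_s1 t 19 30 1 = true := ex3_c k18_A00pm_022_s1 k19_A00pm_022_s1

theorem t86_A00pm_022_s1 : ∃ t, chk3 f_A00pm_022_s1 t 19 15 1 = true := ex3_b t85_A00pm_022_s1 t84_A00pm_022_s1

theorem t87_A00pm_022_s1 : ∃ t, chk3 f_A00pm_022_s1 t 37 31 3 = true := ex3_b k16_A00pm_022_s1 k17_A00pm_022_s1

theorem t88_A00pm_022_s1 : ∃ t, chk3 f_A00pm_022_s1 t 18 31 3 = true := ex3_a k15_A00pm_022_s1 t87_A00pm_022_s1

theorem t89_A00pm_022_s1 : ∃ t, chk3 f_A00pm_022_s1 t 18 31 1 = true := ex3_c k14_A00pm_022_s1 t88_A00pm_022_s1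

theorem t90_A00pm_022_s1 : ∃ t, chk3 f_A00pm_022_s1 t 18 30 1 = true := ex3_c k12_A00pm_022_s1 k13_A00pm_022_s1

theorem t91_A00pm_022_s1 : ∃ t, chk3 f_A00pm_022_s1 t 18 15 1 = true := ex3_b t90_A00pm_022_s1 t89_A00pm_022_s1

theorem t92_A00pm_022_s1 : ∃ t, chk3 f_A00pm_022_s1 t 9 15 1 = true := ex3_a t91_A00pm_022_s1 t86_A00pm_022_s1

theorem t93_A00pm_022_s1 : ∃ t, chk3 f_A00pm_022_s1 t 18 14 1 = true := ex3_c k9_A00pm_022_s1 k10_A00pm_022_s1

theorem t94_A00pm_022_s1 : ∃ t, chk3 f_A00pm_022_s1 t 9 14 1 = true := ex3_a t93_A00pm_022_s1 k11_A00pm_022_s1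

theorem t95_A00pm_022_s1 : ∃ t, chk3 f_A00pm_022_s1 t 9 7 1 = true := ex3_b t94_A00pm_022_s1 t92_A00pm_022_s1

theorem t96_A00pm_022_s1 : ∃ t, chk3 f_A00pm_022_s1 t 9 13 1 = true := ex3_b k7_A00pm_022_s1 k8_A00pm_022_s1

theorem t97_A00pm_022_s1 : ∃ t, chk3 f_A00pm_022_s1 t 9 6 1 = true := ex3_b k6_A00pm_022_s1 t96_A00pm_022_s1

theorem t98_A00pm_022_s1 : ∃ t, chk3 f_A00pm_022_s1 t 9 3 1 = true := ex3_b t97_A00pm_022_s1 t95_A00pm_022_s1

theorem t99_A00pm_022_s1 : ∃ t, chk3 f_A00pm_022_s1 t 17 15 1 = true := ex3_c k4_A00pm_022_s1 k5_A00pm_022_s1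

theorem t100_A00pm_022_s1 : ∃ t, chk3 f_A00pm_022_s1 t 17 7 1 = true := ex3_b k3_A00pm_022_s1 t99_A00pm_022_s1

theorem t101_A00pm_022_s1 : ∃ t, chk3 f_A00pm_022_s1 t 8 7 1 = true := ex3_a k2_A00pm_022_s1 t100_A00pm_022_s1

theorem t102_A00pm_022_s1 : ∃ t, chk3 f_A00pm_022_s1 t 8 3 1 = true := ex3_b k1_A00pm_022_s1 t101_A00pm_022_s1

theorem t103_A00pm_022_s1 : ∃ t, chk3 f_A00pm_022_s1 t 4 3 1 = true := ex3_a t102_A00pm_022_s1 t98_A00pm_022_s1

theorem t104_A00pm_022_s1 : ∃ t, chk3 f_A00pm_022_s1 t 4 1 1 = true := ex3_b k0_A00pm_022_s1 t103_A00pm_022_s1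

theorem t105_A00pm_022_s1 : ∃ t, chk3 f_A00pm_022_s1 t 2 1 1 = true := ex3_a t104_A00pm_022_s1 t73_A00pm_022_s1

theorem t106_A00pm_022_s1 : ∃ t, chk3 f_A00pm_022_s1 t 1 1 1 = true := ex3_a t105_A00pm_022_s1 k53_A00pm_022_s1

theorem c_A00pm_022_s1 : CertFX 0 536870912 0 536870912 1046898278 26843546 true true false .pp 0 2 2
    ndF0q0 ndF0q2 pcF2 cut_A00pm_022_s1 Ext.none :=
  certFX2 (fam := true) (s1 := true) (s2 := false) (a := 0) (b := 2) (c := 2) (cn := .pp) (n1 := ndF0q0) (n2 := ndF0q2) (pc := pcF2) (cut := cut_A00pm_022_s1) (xt := Ext.none) (P1 := 0) (W1 := 536870912) (P2 := 0) (W2 := 536870912) (P3 := 1046898278) (W3 := 26843546)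
    rfl (fun _ => rfl) t106_A00pm_022_s1

theorem s_A00pm_022_s1 {κ x : ℝ} (hκ : κ * h0 = kenE x) (hx : 39 / 40 ≤ x) (hx' : x < 1)
    (H : CutVA (VFD κ) (DD x) tKF tL pcF (Cut.of [[⟨0, 0, 0, 67108864⟩, ⟨1, 1, 0, 67108864⟩, ⟨2, 1, 0, 67108864⟩, ⟨3, 0, 0, 1233125376⟩]]) 0 2 2 0 0 (sgb true) (sgb false) x) :
    AltVA (VFD κ) (DD x) tKF tL pcF [⟨3, 0, 0, 1449551462⟩] 0 2 2 0 0 (sgb true) (sgb false) x :=
  strip_altVA (d := 1449551462) true rfl hκ (κ0 hκ hx) (x0 hx) hx' (covF00 hx hx') (covF02 hx hx') (x1 hx) (x2 hx') c_A00pm_022_s1 H (noExt_VA)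

noncomputable def cut_A00pm_022_s3 : Cut := Cut.of [[⟨3, 0, 0, 2845415833⟩], [⟨0, 0, 0, 67108864⟩, ⟨1, 1, 0, 67108864⟩, ⟨2, 1, 0, 67108864⟩, ⟨3, 0, 0, 1233125376⟩]]

noncomputable def f_A00pm_022_s3 : ℕ → ℕ → ℕ → ℕ → Bool := onCell 0 536870912 0 536870912 1046898278 26843546
    (rowFX 0 true true false .pp 0 2 2 (qsf 0 536870912 0 536870912 2) ndF0q0 ndF0q2 pcF2 cut_A00pm_022_s3 Ext.none)

def k0_A00pm_022_s3 : ∃ t, chk3 f_A00pm_022_s3 t 1 1 1 = true :=
  ⟨(a (l 6) (a (b (a (l 6) (a (l 6) (a (b (l 6) (l 6)) (b (l 2) (l 6))))) (l 6)) (b (b (l 2) (b (l 2) (l 6))) (l 6)))), by decide +kernel⟩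

theorem c_A00pm_022_s3 : CertFX 0 536870912 0 536870912 1046898278 26843546 true true false .pp 0 2 2
    ndF0q0 ndF0q2 pcF2 cut_A00pm_022_s3 Ext.none :=
  certFX0 (fam := true) (s1 := true) (s2 := false) (a := 0) (b := 2) (c := 2) (cn := .pp) (n1 := ndF0q0) (n2 := ndF0q2) (pc := pcF2) (cut := cut_A00pm_022_s3) (xt := Ext.none) (P1 := 0) (W1 := 536870912) (P2 := 0) (W2 := 536870912) (P3 := 1046898278) (W3 := 26843546)
    rfl k0_A00pm_022_s3

theorem s_A00pm_022_s3 {κ x : ℝ} (hκ : κ * h0 = kenE x) (hx : 39 / 40 ≤ x) (hx' : x < 1)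
    (H : CutVA (VFD κ) (DD x) tKF tL pcF (Cut.of [[⟨0, 0, 0, 67108864⟩, ⟨1, 1, 0, 67108864⟩, ⟨2, 1, 0, 67108864⟩, ⟨3, 0, 0, 1233125376⟩]]) 0 2 2 0 0 (sgb true) (sgb false) x) :
    AltVA (VFD κ) (DD x) tKF tL pcF [⟨4, 0, 0, 2845415833⟩] 0 2 2 0 0 (sgb true) (sgb false) x :=
  strip_altVA (d := 2845415833) false rfl hκ (κ0 hκ hx) (x0 hx) hx' (covF00 hx hx') (covF02 hx hx') (x1 hx) (x2 hx') c_A00pm_022_s3 H (noExt_VA)

noncomputable def cut_A00pm_023_s1 : Cut := Cut.of [[⟨4, 0, 0, 1449551462⟩]]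

noncomputable def f_A00pm_023_s1 : ℕ → ℕ → ℕ → ℕ → Bool := onCell 0 536870912 0 536870912 1046898278 26843546
    (rowFX 0 true true false .up 0 2 3 (qsf 0 536870912 0 536870912 3) ndF0q0 ndF0q2 pcF3 cut_A00pm_023_s1 Ext.none)

def k0_A00pm_023_s1 : ∃ t, chk3 f_A00pm_023_s1 t 1 1 1 = true :=
  ⟨(b (l 6) (a (l 1) (b (l 6) (l 6)))), by decide +kernel⟩

theorem c_A00pm_023_s1 : CertFX 0 536870912 0 536870912 1046898278 26843546 true true false .up 0 2 3
    ndF0q0 ndF0q2 pcF3 cut_A00pm_023_s1 Ext.none :=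
  certFX0 (fam := true) (s1 := true) (s2 := false) (a := 0) (b := 2) (c := 3) (cn := .up) (n1 := ndF0q0) (n2 := ndF0q2) (pc := pcF3) (cut := cut_A00pm_023_s1) (xt := Ext.none) (P1 := 0) (W1 := 536870912) (P2 := 0) (W2 := 536870912) (P3 := 1046898278) (W3 := 26843546)
    rfl k0_A00pm_023_s1

theorem s_A00pm_023_s1 {κ x : ℝ} (hκ : κ * h0 = kenE x) (hx : 39 / 40 ≤ x) (hx' : x < 1) :
    AltVA (VFD κ) (DD x) tKF tL pcF [⟨3, 0, 0, 1449551462⟩] 0 2 3 0 0 (sgb true) (sgb false) x :=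
  strip_altVA (d := 1449551462) true rfl hκ (κ0 hκ hx) (x0 hx) hx' (covF00 hx hx') (covF02 hx hx') (x1 hx) (x2 hx') c_A00pm_023_s1 cutVA_nil (noExt_VA)

noncomputable def cut_A00pm_023_s3 : Cut := Cut.of [[⟨3, 0, 0, 2845415833⟩]]

noncomputable def xt_A00pm_023_s3 : Ext := strExtY dd true true false .u0 .u2 .s2 .up 0 2 3 rfl rfl gl3 ge vv ndF0q0 ndF0q2

noncomputable def f_A00pm_023_s3 : ℕ → ℕ → ℕ → ℕ → Bool := onCell 0 536870912 0 536870912 1046898278 26843546
    (rowFX 0 true true false .up 0 2 3 (qsf 0 536870912 0 536870912 3) ndF0q0 ndF0q2 pcF3 cut_A00pm_023_s3 xt_A00pm_023_s3)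

def k0_A00pm_023_s3 : ∃ t, chk3 f_A00pm_023_s3 t 2 2 1 = true :=
  ⟨(l 1), by decide +kernel⟩

def k1_A00pm_023_s3 : ∃ t, chk3 f_A00pm_023_s3 t 3 2 2 = true :=
  ⟨(b (a (b (b (a (l 1) (a (l 1) (c (l 16777216) (l 16777216)))) (l 6)) (l 6)) (a (b (c (c (a (l 16777216) (b (l 16777216) (l 16777216))) (a (l 16777216) (b (l 16777216) (l 16777216)))) (a (c (l 16777216) (l 16777216)) (c (b (l 16777216) (l 16777216)) (b (l 16777216) (l 16777216))))) (l 6)) (c (b (a (c (b (a (l 16777216) (l 16777216)) (l 16777216)) (b (l 536870927) (l 16777216))) (c (b (l 536870927) (a (l 16777216) (l 16777216))) (b (l 536870927) (a (l 16777216) (l 16777216))))) (b (a (c (l 16777216) (l 16777216)) (c (l 16777216) (l 16777216))) (a (l 6) (c (l 16777216) (l 16777216))))) (b (a (c (b (l 536870927) (l 16777216)) (b (l 536870927) (l 16777216))) (c (b (l 536870927) (l 536870927)) (b (l 536870927) (l 536870927)))) (b (a (c (l 16777216) (l 16777216)) (c (l 16777216)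 (l 16777216))) (a (l 6) (c (l 16777216) (l 16777216)))))))) (b (a (l 6) (l 6)) (l 6))), by decide +kernel⟩

def k2_A00pm_023_s3 : ∃ t, chk3 f_A00pm_023_s3 t 3 2 3 = true :=
  ⟨(b (a (b (b (a (l 1) (a (l 1) (c (l 16777216) (l 16777216)))) (l 6)) (l 6)) (a (b (c (a (c (l 16777216) (l 16777216)) (c (b (l 16777216) (l 16777216)) (b (l 16777216) (l 16777216)))) (c (a (l 16777216) (b (l 16777216) (l 16777216))) (a (l 16777216) (b (l 16777216) (l 16777216))))) (l 6)) (c (b (a (c (b (l 536870927) (l 16777216)) (b (l 536870927) (l 16777216))) (c (b (l 536870927) (l 536870927)) (b (l 536870927) (l 536870927)))) (b (a (c (l 16777216) (l 16777216)) (c (l 16777216) (l 16777216))) (a (l 6) (c (l 16777216) (l 16777216))))) (b (a (c (b (l 536870927) (l 16777216)) (b (l 536870927) (l 16777216))) (c (b (l 536870927) (l 536870927)) (b (l 536870927) (l 536870927)))) (b (a (c (l 16777216) (l 16777216)) (c (l 16777216) (l 16777216))) (a (l 6) (c (l 16777216)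 (l 16777216)))))))) (a (l 6) (b (l 6) (l 6)))), by decide +kernel⟩

def k3_A00pm_023_s3 : ∃ t, chk3 f_A00pm_023_s3 t 1 3 1 = true :=
  ⟨(l 6), by decide +kernel⟩

theorem t4_A00pm_023_s3 : ∃ t, chk3 f_A00pm_023_s3 t 3 2 1 = true := ex3_c k1_A00pm_023_s3 k2_A00pm_023_s3

theorem t5_A00pm_023_s3 : ∃ t, chk3 f_A00pm_023_s3 t 1 2 1 = true := ex3_a k0_A00pm_023_s3 t4_A00pm_023_s3

theorem t6_A00pm_023_s3 : ∃ t, chk3 f_A00pm_023_s3 t 1 1 1 = true := ex3_b t5_A00pm_023_s3 k3_A00pm_023_s3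

theorem c_A00pm_023_s3 : CertFX 0 536870912 0 536870912 1046898278 26843546 true true false .up 0 2 3
    ndF0q0 ndF0q2 pcF3 cut_A00pm_023_s3 xt_A00pm_023_s3 :=
  certFX0 (fam := true) (s1 := true) (s2 := false) (a := 0) (b := 2) (c := 3) (cn := .up) (n1 := ndF0q0) (n2 := ndF0q2) (pc := pcF3) (cut := cut_A00pm_023_s3) (xt := xt_A00pm_023_s3) (P1 := 0) (W1 := 536870912) (P2 := 0) (W2 := 536870912) (P3 := 1046898278) (W3 := 26843546)
    rfl t6_A00pm_023_s3

theorem s_A00pm_023_s3 {κ x : ℝ} (hκ : κ * h0 = kenE x) (hx : 39 / 40 ≤ x) (hx' : x < 1) :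
    AltVA (VFD κ) (DD x) tKF tL pcF [⟨4, 0, 0, 2845415833⟩] 0 2 3 0 0 (sgb true) (sgb false) x :=
  strip_altVA (d := 2845415833) false rfl hκ (κ0 hκ hx) (x0 hx) hx' (covF00 hx hx') (covF02 hx hx') (x1 hx) (x2 hx') c_A00pm_023_s3 cutVA_nil ((ok hx hx').extA (T := tt) (sideF hx hx') hκ (κ0 hκ hx) rfl rfl (.O 0 true) (.O 2 false) (Or.inr rfl))

noncomputable def cut_A00pm_101_s1 : Cut := Cut.of [[⟨4, 0, 0, 1449551462⟩], [⟨0, 1, 0, 67108864⟩, ⟨1, 0, 0, 67108864⟩, ⟨2, 1, 0, 67108864⟩, ⟨3, 0, 0, 1233125376⟩]]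

noncomputable def f_A00pm_101_s1 : ℕ → ℕ → ℕ → ℕ → Bool := onCell 536870912 536870912 0 536870912 1046898278 26843546
    (rowFX 0 true true false .npn 1 0 1 (qsf 536870912 536870912 0 536870912 1) ndF0q1 ndF0q0 pcF1 cut_A00pm_101_s1 Ext.none)

def k0_A00pm_101_s1 : ∃ t, chk3 f_A00pm_101_s1 t 1 1 1 = true :=
  ⟨(a (b (l 3) (b (l 3) (a (l 3) (a (b (l 3) (l 2)) (l 2))))) (b (a (b (l 3) (a (l 3) (b (l 3) (a (l 3) (l 2))))) (b (a (b (l 3) (b (l 3) (a (l 3) (a (l 3) (l 2))))) (b (a (a (l 3) (a (l 3) (b (l 3) (b (l 3) (l 2))))) (b (l 14) (b (l 14) (l 2)))) (a (b (a (b (l 3) (l 2)) (l 2)) (l 2)) (l 2)))) (a (b (a (b (l 3) (l 2)) (l 2)) (l 2)) (l 2)))) (a (b (a (b (a (l 3) (l 2)) (l 2)) (l 2)) (l 2)) (l 2)))), by decide +kernel⟩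

theorem c_A00pm_101_s1 : CertFX 536870912 536870912 0 536870912 1046898278 26843546 true true false .npn 1 0 1
    ndF0q1 ndF0q0 pcF1 cut_A00pm_101_s1 Ext.none :=
  certFX0 (fam := true) (s1 := true) (s2 := false) (a := 1) (b := 0) (c := 1) (cn := .npn) (n1 := ndF0q1) (n2 := ndF0q0) (pc := pcF1) (cut := cut_A00pm_101_s1) (xt := Ext.none) (P1 := 536870912) (W1 := 536870912) (P2 := 0) (W2 := 536870912) (P3 := 1046898278) (W3 := 26843546)
    rfl k0_A00pm_101_s1

theorem s_A00pm_101_s1 {κ x : ℝ} (hκ : κ * h0 = kenE x) (hx : 39 / 40 ≤ x) (hx' : x < 1)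
    (H : CutVA (VFD κ) (DD x) tKF tL pcF (Cut.of [[⟨0, 1, 0, 67108864⟩, ⟨1, 0, 0, 67108864⟩, ⟨2, 1, 0, 67108864⟩, ⟨3, 0, 0, 1233125376⟩]]) 1 0 1 0 0 (sgb true) (sgb false) x) :
    AltVA (VFD κ) (DD x) tKF tL pcF [⟨3, 0, 0, 1449551462⟩] 1 0 1 0 0 (sgb true) (sgb false) x :=
  strip_altVA (d := 1449551462) true rfl hκ (κ0 hκ hx) (x0 hx) hx' (covF01 hx hx') (covF00 hx hx') (x1 hx) (x2 hx') c_A00pm_101_s1 H (noExt_VA)

noncomputable def cut_A00pm_101_s3 : Cut := Cut.of [[⟨3, 0, 0, 2845415833⟩], [⟨0, 1, 0, 67108864⟩, ⟨1, 0, 0, 67108864⟩, ⟨2, 1, 0, 67108864⟩, ⟨3, 0, 0, 1233125376⟩]]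

noncomputable def f_A00pm_101_s3 : ℕ → ℕ → ℕ → ℕ → Bool := onCell 536870912 536870912 0 536870912 1046898278 26843546
    (rowFX 0 true true false .npn 1 0 1 (qsf 536870912 536870912 0 536870912 1) ndF0q1 ndF0q0 pcF1 cut_A00pm_101_s3 Ext.none)

def k0_A00pm_101_s3 : ∃ t, chk3 f_A00pm_101_s3 t 1 1 1 = true :=
  ⟨(l 6), by decide +kernel⟩

theorem c_A00pm_101_s3 : CertFX 536870912 536870912 0 536870912 1046898278 26843546 true true false .npn 1 0 1
    ndF0q1 ndF0q0 pcF1 cut_A00pm_101_s3 Ext.none :=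
  certFX0 (fam := true) (s1 := true) (s2 := false) (a := 1) (b := 0) (c := 1) (cn := .npn) (n1 := ndF0q1) (n2 := ndF0q0) (pc := pcF1) (cut := cut_A00pm_101_s3) (xt := Ext.none) (P1 := 536870912) (W1 := 536870912) (P2 := 0) (W2 := 536870912) (P3 := 1046898278) (W3 := 26843546)
    rfl k0_A00pm_101_s3

theorem s_A00pm_101_s3 {κ x : ℝ} (hκ : κ * h0 = kenE x) (hx : 39 / 40 ≤ x) (hx' : x < 1)
    (H : CutVA (VFD κ) (DD x) tKF tL pcF (Cut.of [[⟨0, 1, 0, 67108864⟩, ⟨1, 0, 0, 67108864⟩, ⟨2, 1, 0, 67108864⟩, ⟨3, 0, 0, 1233125376⟩]]) 1 0 1 0 0 (sgb true) (sgb false) x) :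
    AltVA (VFD κ) (DD x) tKF tL pcF [⟨4, 0, 0, 2845415833⟩] 1 0 1 0 0 (sgb true) (sgb false) x :=
  strip_altVA (d := 2845415833) false rfl hκ (κ0 hκ hx) (x0 hx) hx' (covF01 hx hx') (covF00 hx hx') (x1 hx) (x2 hx') c_A00pm_101_s3 H (noExt_VA)

noncomputable def cut_A00pm_102_s3 : Cut := Cut.of [[⟨3, 0, 0, 2845415833⟩], [⟨0, 1, 0, 67108864⟩, ⟨1, 0, 0, 67108864⟩, ⟨2, 1, 0, 67108864⟩, ⟨3, 0, 0, 1233125376⟩]]

noncomputable def f_A00pm_102_s3 : ℕ → ℕ → ℕ → ℕ → Bool := onCell 536870912 536870912 0 536870912 1046898278 26843546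
    (rowFX 0 true true false .npp 1 0 2 (qsf 536870912 536870912 0 536870912 2) ndF0q1 ndF0q0 pcF2 cut_A00pm_102_s3 Ext.none)

def k0_A00pm_102_s3 : ∃ t, chk3 f_A00pm_102_s3 t 1 1 1 = true :=
  ⟨(l 6), by decide +kernel⟩

theorem c_A00pm_102_s3 : CertFX 536870912 536870912 0 536870912 1046898278 26843546 true true false .npp 1 0 2
    ndF0q1 ndF0q0 pcF2 cut_A00pm_102_s3 Ext.none :=
  certFX0 (fam := true) (s1 := true) (s2 := false) (a := 1) (b := 0) (c := 2) (cn := .npp) (n1 := ndF0q1) (n2 := ndF0q0) (pc := pcF2) (cut := cut_A00pm_102_s3) (xt := Ext.none) (P1 := 536870912) (W1 := 536870912) (P2 := 0) (W2 := 536870912) (P3 := 1046898278) (W3 := 26843546)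
    rfl k0_A00pm_102_s3

theorem s_A00pm_102_s3 {κ x : ℝ} (hκ : κ * h0 = kenE x) (hx : 39 / 40 ≤ x) (hx' : x < 1)
    (H : CutVA (VFD κ) (DD x) tKF tL pcF (Cut.of [[⟨0, 1, 0, 67108864⟩, ⟨1, 0, 0, 67108864⟩, ⟨2, 1, 0, 67108864⟩, ⟨3, 0, 0, 1233125376⟩]]) 1 0 2 0 0 (sgb true) (sgb false) x) :
    AltVA (VFD κ) (DD x) tKF tL pcF [⟨4, 0, 0, 2845415833⟩] 1 0 2 0 0 (sgb true) (sgb false) x :=
  strip_altVA (d := 2845415833) false rfl hκ (κ0 hκ hx) (x0 hx) hx' (covF01 hx hx') (covF00 hx hx') (x1 hx) (x2 hx') c_A00pm_102_s3 H (noExt_VA)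

noncomputable def cut_A00pm_112_s3 : Cut := Cut.of [[⟨3, 0, 0, 2845415833⟩]]

noncomputable def f_A00pm_112_s3 : ℕ → ℕ → ℕ → ℕ → Bool := onCell 536870912 536870912 536870912 536870912 1046898278 26843546
    (rowFX 0 true true false .dn 1 1 2 (qsf 536870912 536870912 536870912 536870912 2) ndF0q1 ndF0q1 pcF2 cut_A00pm_112_s3 Ext.none)

def k0_A00pm_112_s3 : ∃ t, chk3 f_A00pm_112_s3 t 1 1 1 = true :=
  ⟨(b (l 6) (a (l 6) (a (b (l 6) (l 2)) (l 2)))), by decide +kernel⟩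

theorem c_A00pm_112_s3 : CertFX 536870912 536870912 536870912 536870912 1046898278 26843546 true true false .dn 1 1 2
    ndF0q1 ndF0q1 pcF2 cut_A00pm_112_s3 Ext.none :=
  certFX0 (fam := true) (s1 := true) (s2 := false) (a := 1) (b := 1) (c := 2) (cn := .dn) (n1 := ndF0q1) (n2 := ndF0q1) (pc := pcF2) (cut := cut_A00pm_112_s3) (xt := Ext.none) (P1 := 536870912) (W1 := 536870912) (P2 := 536870912) (W2 := 536870912) (P3 := 1046898278) (W3 := 26843546)
    rfl k0_A00pm_112_s3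

theorem s_A00pm_112_s3 {κ x : ℝ} (hκ : κ * h0 = kenE x) (hx : 39 / 40 ≤ x) (hx' : x < 1) :
    AltVA (VFD κ) (DD x) tKF tL pcF [⟨4, 0, 0, 2845415833⟩] 1 1 2 0 0 (sgb true) (sgb false) x :=
  strip_altVA (d := 2845415833) false rfl hκ (κ0 hκ hx) (x0 hx) hx' (covF01 hx hx') (covF01 hx hx') (x1 hx) (x2 hx') c_A00pm_112_s3 cutVA_nil (noExt_VA)

noncomputable def cut_A00pm_113_s1 : Cut := Cut.of [[⟨4, 0, 0, 1449551462⟩], [⟨0, 1, 0, 67108864⟩, ⟨1, 1, 0, 67108864⟩, ⟨2, 2, 0, 67108864⟩]]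

noncomputable def f_A00pm_113_s1 : ℕ → ℕ → ℕ → ℕ → Bool := onCell 536870912 536870912 536870912 536870912 1046898278 26843546
    (rowFX 0 true true false .nn 1 1 3 (qsf 536870912 536870912 536870912 536870912 3) ndF0q1 ndF0q1 pcF3 cut_A00pm_113_s1 Ext.none)

def k0_A00pm_113_s1 : ∃ t, chk3 f_A00pm_113_s1 t 1 1 1 = true :=
  ⟨(a (b (a (l 1) (b (l 1) (a (l 1) (b (l 1) (l 6))))) (b (a (a (l 1) (a (l 1) (l 6))) (l 6)) (l 6))) (b (a (b (a (l 1) (a (l 1) (l 6))) (l 6)) (l 6)) (l 6))), by decide +kernel⟩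

theorem c_A00pm_113_s1 : CertFX 536870912 536870912 536870912 536870912 1046898278 26843546 true true false .nn 1 1 3
    ndF0q1 ndF0q1 pcF3 cut_A00pm_113_s1 Ext.none :=
  certFX0 (fam := true) (s1 := true) (s2 := false) (a := 1) (b := 1) (c := 3) (cn := .nn) (n1 := ndF0q1) (n2 := ndF0q1) (pc := pcF3) (cut := cut_A00pm_113_s1) (xt := Ext.none) (P1 := 536870912) (W1 := 536870912) (P2 := 536870912) (W2 := 536870912) (P3 := 1046898278) (W3 := 26843546)
    rfl k0_A00pm_113_s1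

theorem s_A00pm_113_s1 {κ x : ℝ} (hκ : κ * h0 = kenE x) (hx : 39 / 40 ≤ x) (hx' : x < 1)
    (H : CutVA (VFD κ) (DD x) tKF tL pcF (Cut.of [[⟨0, 1, 0, 67108864⟩, ⟨1, 1, 0, 67108864⟩, ⟨2, 2, 0, 67108864⟩]]) 1 1 3 0 0 (sgb true) (sgb false) x) :
    AltVA (VFD κ) (DD x) tKF tL pcF [⟨3, 0, 0, 1449551462⟩] 1 1 3 0 0 (sgb true) (sgb false) x :=
  strip_altVA (d := 1449551462) true rfl hκ (κ0 hκ hx) (x0 hx) hx' (covF01 hx hx') (covF01 hx hx') (x1 hx) (x2 hx') c_A00pm_113_s1 H (noExt_VA)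

noncomputable def cut_A00pm_113_s3 : Cut := Cut.of [[⟨3, 0, 0, 2845415833⟩], [⟨0, 1, 0, 67108864⟩, ⟨1, 1, 0, 67108864⟩, ⟨2, 2, 0, 67108864⟩]]

noncomputable def f_A00pm_113_s3 : ℕ → ℕ → ℕ → ℕ → Bool := onCell 536870912 536870912 536870912 536870912 1046898278 26843546
    (rowFX 0 true true false .nn 1 1 3 (qsf 536870912 536870912 536870912 536870912 3) ndF0q1 ndF0q1 pcF3 cut_A00pm_113_s3 Ext.none)

def k0_A00pm_113_s3 : ∃ t, chk3 f_A00pm_113_s3 t 2 1 1 = true :=
  ⟨(l 6), by decide +kernel⟩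

def k1_A00pm_113_s3 : ∃ t, chk3 f_A00pm_113_s3 t 3 2 1 = true :=
  ⟨(l 6), by decide +kernel⟩

def k2_A00pm_113_s3 : ∃ t, chk3 f_A00pm_113_s3 t 3 6 1 = true :=
  ⟨(a (l 6) (a (l 6) (a (l 6) (b (l 6) (b (l 6) (b (l 6) (a (l 6) (a (l 6) (c (l 15762688) (c (l 15744136) (l 15654024))))))))))), by decide +kernel⟩

def k3_A00pm_113_s3 : ∃ t, chk3 f_A00pm_113_s3 t 6 7 1 = true :=
  ⟨(b (l 6) (b (l 6) (a (l 6) (a (l 6) (a (l 6) (b (l 6) (b (l 6) (c (l 15762688) (c (l 15744136) (l 15654024)))))))))), by decide +kernel⟩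

def k4_A00pm_113_s3 : ∃ t, chk3 f_A00pm_113_s3 t 7 14 1 = true :=
  ⟨(a (l 6) (a (b (l 6) (a (c (l 15872976) (l 15771528)) (b (c (l 15780112) (l 15681816)) (c (a (l 15745432) (l 15694936)) (l 15579312))))) (b (a (c (c (a (l 15816432) (l 15752800)) (a (l 15797856) (l 15739728))) (l 15728896)) (c (a (c (l 15701400) (l 15679472)) (b (l 15690864) (b (l 15639384) (a (l 15614640) (a (l 15607096) (l 15603256)))))) (a (c (l 15661768) (l 15634808)) (a (c (l 15616968) (l 15593872)) (b (l 15634992) (b (l 15560544) (c (l 15534144) (a (l 15495888) (l 15486336))))))))) (a (b (c (a (l 15703848) (a (l 15581496) (a (l 15581232) (l 15630520)))) (a (l 15600872) (l 15554144))) (a (c (b (l 15663584) (l 15642848)) (l 15503608)) (c (c (a (l 15653632) (l 15631592)) (a (l 15589640) (l 15566544))) (l 15463712)))) (b (a (c (a (c (l 15634936) (l 15589024)) (b (l 15604064) (l 15585872))) (c (a (l 15544856) (l 15519352)) (l 15478552))) (c (a (l 15584216) (a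 (l 15581384) (l 15580240))) (a (c (l 15497672) (l 15446640)) (c (l 15488024) (c (l 15443984) (l 15417632)))))) (c (a (a (a (l 15584544) (l 15576888)) (l 15568512)) (a (l 15563768) (a (l 15564880) (b (l 15567416) (l 15567928))))) (a (c (a (l 15474264) (l 15453616)) (l 15383936)) (a (c (l 15436656) (l 15358584)) (c (b (l 15445104) (l 15418336)) (b (l 15369184) (l 15324824))))))))))), by decide +kernel⟩

def k5_A00pm_113_s3 : ∃ t, chk3 f_A00pm_113_s3 t 14 15 1 = true :=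
  ⟨(b (a (l 6) (b (c (l 15872976) (l 15771528)) (a (c (l 15780112) (l 15681816)) (c (b (l 15745432) (l 15694936)) (l 15579312))))) (a (b (c (c (b (l 15816432) (l 15752800)) (b (l 15797856) (l 15739728))) (l 15728896)) (c (b (c (l 15701400) (l 15679472)) (a (l 15690864) (a (l 15639384) (b (l 15614640) (b (l 15607096) (l 15603256)))))) (b (c (l 15661768) (l 15634808)) (b (c (l 15616968) (l 15593872)) (a (l 15634992) (a (l 15560544) (c (l 15534144) (b (l 15495888) (l 15486336))))))))) (b (a (c (b (l 15703848) (a (l 15581528) (b (l 15652176) (l 15709520)))) (b (l 15600872) (l 15554144))) (b (c (a (l 15663584) (l 15642848)) (l 15503608)) (c (c (b (l 15653632) (l 15631592)) (b (l 15589640) (l 15566544))) (l 15463712)))) (a (b (c (b (c (l 15634936) (l 15589024)) (a (l 15604064) (l 15585872))) (c (b (l 15544856) (l 15519352)) (l 15478552))) (c (b (l 15584216) (b (l 15581384) (l 15580240))) (b (c (l 15497672) (l 15446640)) (c (l 15488024)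 (c (l 15443984) (l 15417632)))))) (c (b (b (a (l 15589104) (l 15579320)) (l 15568512)) (b (l 15563768) (a (l 15566760) (c (l 15616048) (l 15516968))))) (b (c (b (l 15474264) (l 15453616)) (l 15383936)) (b (c (l 15436656) (l 15358584)) (c (a (l 15445104) (l 15418336)) (a (l 15369184) (l 15324824)))))))))), by decide +kernel⟩

def k6_A00pm_113_s3 : ∃ t, chk3 f_A00pm_113_s3 t 30 30 1 = true :=
  ⟨(a (b (c (l 15748200) (l 15596240)) (b (c (l 15676952) (l 15494392)) (c (a (l 15654776) (l 15627536)) (l 15437096)))) (b (a (c (l 15676952) (l 15494392)) (c (b (l 15654776) (l 15627536)) (l 15437096))) (a (c (b (l 15626296) (l 15689704)) (l 15373168)) (c (b (l 15773592) (a (l 15597352) (l 15602768))) (b (l 15347256) (l 15299480)))))), by decide +kernel⟩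

def k7_A00pm_113_s3 : ∃ t, chk3 f_A00pm_113_s3 t 31 30 1 = true :=
  ⟨(a (b (a (c (b (l 15623000) (a (l 15610680) (l 15602120))) (l 15397360)) (c (c (b (l 15638504) (l 15645680)) (b (l 15546496) (l 15529008))) (b (l 15392648) (l 15338992)))) (c (b (a (c (a (l 15668680) (l 15668400)) (l 15532496)) (c (a (l 15668648) (b (l 15662128) (l 15683768))) (a (l 15525816) (l 15520904)))) (b (a (c (a (l 15679544) (l 15688520)) (l 15526904)) (a (c (l 15699360) (l 15530400)) (l 14))) (a (c (a (l 15698408) (l 15714440)) (l 15534584)) (l 14)))) (b (a (l 15314304) (l 15287880)) (a (b (l 15278256) (l 15264768)) (a (l 15254272) (l 14)))))) (c (b (a (b (a (c (l 15621624) (l 15520528)) (l 15565592)) (a (c (b (l 15633912) (l 15648504)) (l 15511520)) (c (b (l 15638688) (c (l 15696648) (l 15619016))) (b (l 15504280) (l 15506216))))) (a (b (b (l 15565608) (c (l 15717656) (l 15505680))) (a (b (l 15575640) (l 14)) (l 14))) (b (a (b (l 15570400) (c (l 15641376)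 (l 15510488))) (b (b (l 15573152) (l 15575096)) (l 14))) (l 14)))) (a (b (a (c (b (l 15669544) (l 14)) (l 15517832)) (l 14)) (l 14)) (l 14))) (b (a (a (b (l 15365640) (c (l 15384840) (l 15246408))) (b (l 15266872) (c (b (l 15379024) (l 15363416)) (l 15231640)))) (a (c (b (l 15391208) (l 15359672)) (b (l 15280736) (l 15216056))) (b (c (b (l 15397400) (l 15380256)) (a (l 15272088) (l 15267224))) (l 14)))) (a (a (b (l 15267824) (l 14)) (l 14)) (l 14))))), by decide +kernel⟩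

def k8_A00pm_113_s3 : ∃ t, chk3 f_A00pm_113_s3 t 15 31 1 = true :=
  ⟨(a (b (a (b (c (a (l 15623000) (b (l 15610680) (l 15602120))) (l 15397360)) (c (c (a (l 15638504) (l 15645680)) (a (l 15546496) (l 15529008))) (a (l 15392648) (l 15338992)))) (c (a (b (c (b (l 15668680) (l 15668400)) (l 15532496)) (c (b (l 15668648) (a (l 15662128) (l 15683768))) (b (l 15525816) (l 15520904)))) (a (b (c (b (l 15679544) (l 15688520)) (l 15526904)) (b (c (l 15699360) (l 15530400)) (l 14))) (b (c (b (l 15698408) (l 15714440)) (l 15534584)) (l 14)))) (a (b (l 15314304) (l 15287880)) (b (a (l 15278256) (l 15264768)) (b (l 15254272) (l 14)))))) (c (a (b (a (b (c (l 15621624) (l 15520528)) (l 15565592)) (b (c (a (l 15633912) (l 15648504)) (l 15511520)) (c (a (l 15638688) (c (l 15696648) (l 15619016))) (a (l 15504280) (l 15506216))))) (b (a (a (l 15565608) (c (l 15717656) (l 15505680))) (a (b (l 15575640) (l 14)) (l 14))) (a (b (a (l 15570400) (c (l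 15641376) (l 15510488))) (a (a (l 15573152) (l 15575096)) (l 14))) (l 14)))) (b (a (b (c (a (l 15669544) (l 14)) (l 15517832)) (l 14)) (l 14)) (l 14))) (a (b (b (a (l 15365640) (c (l 15384840) (l 15246408))) (a (l 15266872) (c (a (l 15379024) (l 15363416)) (l 15231640)))) (b (c (a (l 15391208) (l 15359672)) (a (l 15280736) (l 15216056))) (a (c (a (l 15397400) (l 15380256)) (b (l 15272088) (l 15267224))) (l 14)))) (b (b (a (l 15267824) (l 14)) (l 14)) (l 14))))) (a (a (a (b (b (c (c (b (c (l 15763104) (l 15680720)) (l 14)) (l 15547120)) (l 15254400)) (l 14)) (l 14)) (l 14)) (l 14)) (l 14))), by decide +kernel⟩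

theorem t9_A00pm_113_s3 : ∃ t, chk3 f_A00pm_113_s3 t 15 30 1 = true := ex3_a k6_A00pm_113_s3 k7_A00pm_113_s3

theorem t10_A00pm_113_s3 : ∃ t, chk3 f_A00pm_113_s3 t 15 15 1 = true := ex3_b t9_A00pm_113_s3 k8_A00pm_113_s3

theorem t11_A00pm_113_s3 : ∃ t, chk3 f_A00pm_113_s3 t 7 15 1 = true := ex3_a k5_A00pm_113_s3 t10_A00pm_113_s3

theorem t12_A00pm_113_s3 : ∃ t, chk3 f_A00pm_113_s3 t 7 7 1 = true := ex3_b k4_A00pm_113_s3 t11_A00pm_113_s3

theorem t13_A00pm_113_s3 : ∃ t, chk3 f_A00pm_113_s3 t 3 7 1 = true := ex3_a k3_A00pm_113_s3 t12_A00pm_113_s3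

theorem t14_A00pm_113_s3 : ∃ t, chk3 f_A00pm_113_s3 t 3 3 1 = true := ex3_b k2_A00pm_113_s3 t13_A00pm_113_s3

theorem t15_A00pm_113_s3 : ∃ t, chk3 f_A00pm_113_s3 t 3 1 1 = true := ex3_b k1_A00pm_113_s3 t14_A00pm_113_s3

theorem t16_A00pm_113_s3 : ∃ t, chk3 f_A00pm_113_s3 t 1 1 1 = true := ex3_a k0_A00pm_113_s3 t15_A00pm_113_s3

theorem c_A00pm_113_s3 : CertFX 536870912 536870912 536870912 536870912 1046898278 26843546 true true false .nn 1 1 3
    ndF0q1 ndF0q1 pcF3 cut_A00pm_113_s3 Ext.none :=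
  certFX0 (fam := true) (s1 := true) (s2 := false) (a := 1) (b := 1) (c := 3) (cn := .nn) (n1 := ndF0q1) (n2 := ndF0q1) (pc := pcF3) (cut := cut_A00pm_113_s3) (xt := Ext.none) (P1 := 536870912) (W1 := 536870912) (P2 := 536870912) (W2 := 536870912) (P3 := 1046898278) (W3 := 26843546)
    rfl t16_A00pm_113_s3

theorem s_A00pm_113_s3 {κ x : ℝ} (hκ : κ * h0 = kenE x) (hx : 39 / 40 ≤ x) (hx' : x < 1)
    (H : CutVA (VFD κ) (DD x) tKF tL pcF (Cut.of [[⟨0, 1, 0, 67108864⟩, ⟨1, 1, 0, 67108864⟩, ⟨2, 2, 0, 67108864⟩]]) 1 1 3 0 0 (sgb true) (sgb false) x) :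
    AltVA (VFD κ) (DD x) tKF tL pcF [⟨4, 0, 0, 2845415833⟩] 1 1 3 0 0 (sgb true) (sgb false) x :=
  strip_altVA (d := 2845415833) false rfl hκ (κ0 hκ hx) (x0 hx) hx' (covF01 hx hx') (covF01 hx hx') (x1 hx) (x2 hx') c_A00pm_113_s3 H (noExt_VA)

noncomputable def cut_A00pm_123_s1 : Cut := Cut.of [[⟨4, 0, 0, 1449551462⟩], [⟨0, 1, 0, 67108864⟩, ⟨1, 1, 0, 67108864⟩, ⟨2, 2, 0, 67108864⟩]]

noncomputable def f_A00pm_123_s1 : ℕ → ℕ → ℕ → ℕ → Bool := onCell 536870912 536870912 0 536870912 1046898278 26843546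
    (rowFX 0 true true false .npn 1 2 3 (qsf 536870912 536870912 0 536870912 3) ndF0q1 ndF0q2 pcF3 cut_A00pm_123_s1 Ext.none)

def k0_A00pm_123_s1 : ∃ t, chk3 f_A00pm_123_s1 t 1 1 1 = true :=
  ⟨(l 6), by decide +kernel⟩

theorem c_A00pm_123_s1 : CertFX 536870912 536870912 0 536870912 1046898278 26843546 true true false .npn 1 2 3
    ndF0q1 ndF0q2 pcF3 cut_A00pm_123_s1 Ext.none :=
  certFX0 (fam := true) (s1 := true) (s2 := false) (a := 1) (b := 2) (c := 3) (cn := .npn) (n1 := ndF0q1) (n2 := ndF0q2) (pc := pcF3) (cut := cut_A00pm_123_s1) (xt := Ext.none) (P1 := 536870912) (W1 := 536870912) (P2 := 0) (W2 := 536870912) (P3 := 1046898278) (W3 := 26843546)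
    rfl k0_A00pm_123_s1

theorem s_A00pm_123_s1 {κ x : ℝ} (hκ : κ * h0 = kenE x) (hx : 39 / 40 ≤ x) (hx' : x < 1)
    (H : CutVA (VFD κ) (DD x) tKF tL pcF (Cut.of [[⟨0, 1, 0, 67108864⟩, ⟨1, 1, 0, 67108864⟩, ⟨2, 2, 0, 67108864⟩]]) 1 2 3 0 0 (sgb true) (sgb false) x) :
    AltVA (VFD κ) (DD x) tKF tL pcF [⟨3, 0, 0, 1449551462⟩] 1 2 3 0 0 (sgb true) (sgb false) x :=
  strip_altVA (d := 1449551462) true rfl hκ (κ0 hκ hx) (x0 hx) hx' (covF01 hx hx') (covF02 hx hx') (x1 hx) (x2 hx') c_A00pm_123_s1 H (noExt_VA)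

end Pool.Agent.Strip051.G.IE1.Tab.St.C
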