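import Pool.Agent.Strip051.G.IE1.StZ
import Pool.Agent.Strip051.PB.StripYM

/-! # Strips by reflection (generated) -/

set_option linter.all false

namespace Pool.Agent.Strip051.G.IE1.Tab.St.C

open Pool.Agent.Strip051.PB Pool.Agent.Strip051.PB.T
open Pool.Agent.StripNear Pool.Agent.Strip051.LC
open Pool.Agent.Strip051.G.IE1.Tab Pool.Agent.Strip051.G.IE1.Tab.St

theorem c1n_lt {y z : ℝ} (h0 : 0 ≤ y) (h : y < z) (h1 : y < 1) : c1n z < c1n y := by
  unfold c1n
  rw [Real.sqrt_lt_sqrt_iff_of_pos (by nlinarith)]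
  nlinarith

theorem s_A00mm_202_s3 {κ x : ℝ} (hκ : κ * h0 = kenE x) (hx : 39 / 40 ≤ x) (hx' : x < 1)
    (H : CutVA (VFD κ) (DD x) tKF tL pcF (Cut.of [[⟨0, 1, 0, 67108864⟩, ⟨1, 0, 0, 67108864⟩, ⟨2, 1, 0, 67108864⟩]]) 2 0 2 0 0 (sgb false) (sgb false) x) :
    AltVA (VFD κ) (DD x) tKF tL pcF [⟨4, 0, 0, 2845415833⟩] 2 0 2 0 0 (sgb false) (sgb false) x := by
  have q : ∀ X Y : ℝ, qqn (-X) Y = qqn X Y := fun X Y => by unfold qqn; ring
  have c2 : ∀ (q : ℕ) (y : ℝ), crv (DD x).P 0 q y = c1n y := fun q y => crv0 x q y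
  refine AltVA.mirror (s1 := true) (s2 := true) (mirVF (x0 hx) hx') (sideF hx hx') ?_ ?_
    (s_A00pp_022_s3 hκ hx hx' (CutVA.mirror (s1 := false) (s2 := false) (mirVF (x0 hx) hx')
      (sideF hx hx') ?_ ?_ H))
  · intro y y' X Y h d hd
    have h2 := h d hd
    simp only [List.mem_singleton] at hd
    subst hd
    simpa only [Cc.P, q] using h2
  · intro y y' F
    have h1 : 0 < c1n y := lt_of_le_of_lt (c1n_nn 1) (c1n_lt F.q1.1 (by linarith [F.q1.2]) (by linarith [F.q1.2]))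
    have h2 := c1n_nn y'
    simp only [sgb, cond_true, c2]
    linarith
  · rintro y y' X Y ⟨l, hl, h⟩
    simp only [List.mem_singleton] at hl
    subst hl
    refine ⟨_, List.mem_singleton.2 rfl, ?_⟩
    simp only [List.mem_cons, List.not_mem_nil, or_false, forall_eq_or_imp, forall_eq] at h ⊢
    simp only [Cc.P, Cc.cen, q, add_comm y' y] at h ⊢
    exact ⟨h.2.1, h.1, h.2.2⟩
  · intro y y' F
    have h1 : 0 < c1n y' := lt_of_le_of_lt (c1n_nn 1) (c1n_lt F.q2.1 (by linarith [F.q2.2]) (by linarith [F.q2.2]))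
    have h2 := c1n_nn y
    simp only [sgb, cond_false, c2]
    linarith

theorem s_A00pm_102_s1 {κ x : ℝ} (hκ : κ * h0 = kenE x) (hx : 39 / 40 ≤ x) (hx' : x < 1)
    (H : CutVA (VFD κ) (DD x) tKF tL pcF (Cut.of [[⟨0, 1, 0, 67108864⟩, ⟨1, 0, 0, 67108864⟩, ⟨2, 1, 0, 67108864⟩, ⟨3, 0, 0, 1233125376⟩]]) 1 0 2 0 0 (sgb true) (sgb false) x) :
    AltVA (VFD κ) (DD x) tKF tL pcF [⟨3, 0, 0, 1449551462⟩] 1 0 2 0 0 (sgb true) (sgb false) x := by
  have q : ∀ X Y : ℝ, qqn (-X) Y = qqn X Y := fun X Y => by unfold qqn; ring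
  have c2 : ∀ (q : ℕ) (y : ℝ), crv (DD x).P 0 q y = c1n y := fun q y => crv0 x q y
  refine AltVA.mirror (s1 := true) (s2 := false) (mirVF (x0 hx) hx') (sideF hx hx') ?_ ?_
    (s_A00pm_012_s1 hκ hx hx' (CutVA.mirror (s1 := true) (s2 := false) (mirVF (x0 hx) hx')
      (sideF hx hx') ?_ ?_ H))
  · intro y y' X Y h d hd
    have h2 := h d hd
    simp only [List.mem_singleton] at hd
    subst hd
    simpa only [Cc.P, q] using h2
  · intro y y' F
    have h1 := c1n_lt (y := y) (z := y') (by linarith [F.q1.1]) (by linarith [F.q1.2, F.q2.1]) (by linarith [F.q1.2])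
    simp only [sgb, cond_true, cond_false, c2]
    linarith
  · rintro y y' X Y ⟨l, hl, h⟩
    simp only [List.mem_singleton] at hl
    subst hl
    refine ⟨_, List.mem_singleton.2 rfl, ?_⟩
    simp only [List.mem_cons, List.not_mem_nil, or_false, forall_eq_or_imp, forall_eq] at h ⊢
    simp only [Cc.P, Cc.cen, q, add_comm y' y] at h ⊢
    exact ⟨h.2.1, h.1, h.2.2.1, h.2.2.2⟩
  · intro y y' F
    have h1 := c1n_lt (y := y') (z := y) (by linarith [F.q2.1]) (by linarith [F.q2.2, F.q1.1]) (by linarith [F.q2.2])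
    simp only [sgb, cond_true, cond_false, c2]
    linarith

theorem s_A00pm_213_s3 {κ x : ℝ} (hκ : κ * h0 = kenE x) (hx : 39 / 40 ≤ x) (hx' : x < 1)
    (H : CutVA (VFD κ) (DD x) tKF tL pcF (Cut.of [[⟨0, 1, 0, 67108864⟩, ⟨1, 1, 0, 67108864⟩, ⟨2, 2, 0, 67108864⟩]]) 2 1 3 0 0 (sgb true) (sgb false) x) :
    AltVA (VFD κ) (DD x) tKF tL pcF [⟨4, 0, 0, 2845415833⟩] 2 1 3 0 0 (sgb true) (sgb false) x := by
  have q : ∀ X Y : ℝ, qqn (-X) Y = qqn X Y := fun X Y => by unfold qqn; ring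
  have c2 : ∀ (q : ℕ) (y : ℝ), crv (DD x).P 0 q y = c1n y := fun q y => crv0 x q y
  refine AltVA.mirror (s1 := true) (s2 := false) (mirVF (x0 hx) hx') (sideF hx hx') ?_ ?_
    (s_A00pm_123_s3 hκ hx hx' (CutVA.mirror (s1 := true) (s2 := false) (mirVF (x0 hx) hx')
      (sideF hx hx') ?_ ?_ H))
  · intro y y' X Y h d hd
    have h2 := h d hd
    simp only [List.mem_singleton] at hd
    subst hd
    simpa only [Cc.P, q] using h2
  · intro y y' F
    have h1 := c1n_lt (y := y) (z := y') (by linarith [F.q1.1]) (by linarith [F.q1.2, F.q2.1]) (by linarith [F.q1.2])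
    simp only [sgb, cond_true, cond_false, c2]
    linarith
  · rintro y y' X Y ⟨l, hl, h⟩
    simp only [List.mem_singleton] at hl
    subst hl
    refine ⟨_, List.mem_singleton.2 rfl, ?_⟩
    simp only [List.mem_cons, List.not_mem_nil, or_false, forall_eq_or_imp, forall_eq] at h ⊢
    simp only [Cc.P, Cc.cen, q, add_comm y' y] at h ⊢
    exact ⟨h.2.1, h.1, h.2.2⟩
  · intro y y' F
    have h1 := c1n_lt (y := y') (z := y) (by linarith [F.q2.1]) (by linarith [F.q2.2, F.q1.1]) (by linarith [F.q2.2])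
    simp only [sgb, cond_true, cond_false, c2]
    linarith

end Pool.Agent.Strip051.G.IE1.Tab.St.C
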