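import Pool.Agent.Strip051.G.IE1.StD

/-! # Strips St77 (generated) -/

set_option linter.all false
set_option maxRecDepth 100000

namespace Pool.Agent.Strip051.G.IE1.Tab.St.C

open Pool.Agent.Strip051.PB Pool.Agent.Strip051.PB.T
open Pool.Agent.StripNear Pool.Agent.Strip051.LC
open Pool.Agent.Strip051.G.IE1.Tab Pool.Agent.Strip051.G.IE1.Tab.St

def k234_B07pp_123_s1 : ∃ t, chk3 f_B07pp_123_s1 t 3 3 1 = true :=
  ⟨(b (c (a (b (a (b (c (l 16777216) (l 16777216)) (c (l 16777216) (l 16777216))) (a (b (l 16777216) (l 16777216)) (l 6))) (b (a (c (l 16777216) (l 16777216)) (c (l 16777216) (l 16777216))) (a (c (b (l 16777216) (l 16777216)) (b (l 16777216) (l 16777216))) (l 1)))) (l 6)) (a (b (a (b (c (l 16777216) (l 16777216)) (c (l 16777216) (l 16777216))) (a (b (l 16777216) (l 16777216)) (l 6))) (b (a (c (l 16777216) (l 16777216)) (c (l 16777216) (l 16777216))) (a (c (b (l 16777216) (l 16777216)) (b (l 16777216) (l 16777216))) (l 1)))) (l 6))) (l 1)), by decide +kernel⟩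

end Pool.Agent.Strip051.G.IE1.Tab.St.C
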