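import Pool.Agent.Strip051.G.IE1.St8
import Pool.Agent.Strip051.G.IE1.St9
import Pool.Agent.Strip051.G.IE1.St10
import Pool.Agent.Strip051.G.IE1.St11
import Pool.Agent.Strip051.G.IE1.St12
import Pool.Agent.Strip051.G.IE1.St13
import Pool.Agent.Strip051.G.IE1.St14
import Pool.Agent.Strip051.G.IE1.St15
import Pool.Agent.Strip051.G.IE1.St16
import Pool.Agent.Strip051.G.IE1.St17
import Pool.Agent.Strip051.G.IE1.St18
import Pool.Agent.Strip051.G.IE1.St19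
import Pool.Agent.Strip051.G.IE1.St20
import Pool.Agent.Strip051.G.IE1.St21
import Pool.Agent.Strip051.G.IE1.St22
import Pool.Agent.Strip051.G.IE1.St23
import Pool.Agent.Strip051.G.IE1.St24
import Pool.Agent.Strip051.G.IE1.St25
import Pool.Agent.Strip051.G.IE1.St26
import Pool.Agent.Strip051.G.IE1.St27
import Pool.Agent.Strip051.G.IE1.St28
import Pool.Agent.Strip051.G.IE1.St29
import Pool.Agent.Strip051.G.IE1.St30
import Pool.Agent.Strip051.G.IE1.St31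
import Pool.Agent.Strip051.G.IE1.St44
import Pool.Agent.Strip051.G.IE1.St45
import Pool.Agent.Strip051.G.IE1.St46
import Pool.Agent.Strip051.G.IE1.St47
import Pool.Agent.Strip051.G.IE1.St48
import Pool.Agent.Strip051.G.IE1.St49
import Pool.Agent.Strip051.G.IE1.St62
import Pool.Agent.Strip051.G.IE1.St63
import Pool.Agent.Strip051.G.IE1.St64
import Pool.Agent.Strip051.G.IE1.St65
import Pool.Agent.Strip051.G.IE1.St66
import Pool.Agent.Strip051.G.IE1.St67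
import Pool.Agent.Strip051.G.IE1.St68
import Pool.Agent.Strip051.G.IE1.St69
import Pool.Agent.Strip051.G.IE1.St70
import Pool.Agent.Strip051.G.IE1.St71
import Pool.Agent.Strip051.G.IE1.St72
import Pool.Agent.Strip051.G.IE1.St73
import Pool.Agent.Strip051.G.IE1.St74
import Pool.Agent.Strip051.G.IE1.St75
import Pool.Agent.Strip051.G.IE1.St76
import Pool.Agent.Strip051.G.IE1.St77

/-! # Strips StZ (generated) -/

set_option linter.all false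
set_option maxRecDepth 100000

namespace Pool.Agent.Strip051.G.IE1.Tab.St.C

open Pool.Agent.Strip051.PB Pool.Agent.Strip051.PB.T
open Pool.Agent.StripNear Pool.Agent.Strip051.LC
open Pool.Agent.Strip051.G.IE1.Tab Pool.Agent.Strip051.G.IE1.Tab.St

theorem t774_A00pp_022_s3 : ∃ t, chk3 f_A00pp_022_s3 t 13 3 1 = true := ex3_a k771_A00pp_022_s3 k772_A00pp_022_s3

theorem t775_A00pp_022_s3 : ∃ t, chk3 f_A00pp_022_s3 t 24 13 1 = true := ex3_b k767_A00pp_022_s3 k768_A00pp_022_s3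

theorem t776_A00pp_022_s3 : ∃ t, chk3 f_A00pp_022_s3 t 12 13 1 = true := ex3_a t775_A00pp_022_s3 k769_A00pp_022_s3

theorem t777_A00pp_022_s3 : ∃ t, chk3 f_A00pp_022_s3 t 12 6 1 = true := ex3_b k766_A00pp_022_s3 t776_A00pp_022_s3

theorem t778_A00pp_022_s3 : ∃ t, chk3 f_A00pp_022_s3 t 12 3 1 = true := ex3_b t777_A00pp_022_s3 k770_A00pp_022_s3

theorem t779_A00pp_022_s3 : ∃ t, chk3 f_A00pp_022_s3 t 6 3 1 = true := ex3_a t778_A00pp_022_s3 t774_A00pp_022_s3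

theorem t780_A00pp_022_s3 : ∃ t, chk3 f_A00pp_022_s3 t 3 3 1 = true := ex3_a t779_A00pp_022_s3 k773_A00pp_022_s3

theorem t781_A00pp_022_s3 : ∃ t, chk3 f_A00pp_022_s3 t 6 5 1 = true := ex3_a k763_A00pp_022_s3 k764_A00pp_022_s3

theorem t782_A00pp_022_s3 : ∃ t, chk3 f_A00pp_022_s3 t 6 2 1 = true := ex3_b k762_A00pp_022_s3 t781_A00pp_022_s3

theorem t783_A00pp_022_s3 : ∃ t, chk3 f_A00pp_022_s3 t 3 2 1 = true := ex3_a t782_A00pp_022_s3 k765_A00pp_022_s3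

theorem t784_A00pp_022_s3 : ∃ t, chk3 f_A00pp_022_s3 t 3 1 1 = true := ex3_b t783_A00pp_022_s3 t780_A00pp_022_s3

theorem t785_A00pp_022_s3 : ∃ t, chk3 f_A00pp_022_s3 t 22 28 4 = true := ex3_a k755_A00pp_022_s3 k756_A00pp_022_s3

theorem t786_A00pp_022_s3 : ∃ t, chk3 f_A00pp_022_s3 t 22 14 4 = true := ex3_b t785_A00pp_022_s3 k757_A00pp_022_s3

theorem t787_A00pp_022_s3 : ∃ t, chk3 f_A00pp_022_s3 t 22 14 2 = true := ex3_c t786_A00pp_022_s3 k758_A00pp_022_s3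

theorem t788_A00pp_022_s3 : ∃ t, chk3 f_A00pp_022_s3 t 22 14 1 = true := ex3_c t787_A00pp_022_s3 k759_A00pp_022_s3

theorem t789_A00pp_022_s3 : ∃ t, chk3 f_A00pp_022_s3 t 22 7 1 = true := ex3_b t788_A00pp_022_s3 k760_A00pp_022_s3

theorem t790_A00pp_022_s3 : ∃ t, chk3 f_A00pp_022_s3 t 11 7 1 = true := ex3_a t789_A00pp_022_s3 k761_A00pp_022_s3

theorem t791_A00pp_022_s3 : ∃ t, chk3 f_A00pp_022_s3 t 21 28 3 = true := ex3_a k751_A00pp_022_s3 k752_A00pp_022_s3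

theorem t792_A00pp_022_s3 : ∃ t, chk3 f_A00pp_022_s3 t 21 14 3 = true := ex3_b t791_A00pp_022_s3 k753_A00pp_022_s3

theorem t793_A00pp_022_s3 : ∃ t, chk3 f_A00pp_022_s3 t 21 58 2 = true := ex3_a k748_A00pp_022_s3 k749_A00pp_022_s3

theorem t794_A00pp_022_s3 : ∃ t, chk3 f_A00pp_022_s3 t 21 29 2 = true := ex3_b t793_A00pp_022_s3 k750_A00pp_022_s3

theorem t795_A00pp_022_s3 : ∃ t, chk3 f_A00pp_022_s3 t 43 28 2 = true := ex3_b k746_A00pp_022_s3 k747_A00pp_022_s3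

theorem t796_A00pp_022_s3 : ∃ t, chk3 f_A00pp_022_s3 t 42 28 2 = true := ex3_b k744_A00pp_022_s3 k745_A00pp_022_s3

theorem t797_A00pp_022_s3 : ∃ t, chk3 f_A00pp_022_s3 t 21 28 2 = true := ex3_a t796_A00pp_022_s3 t795_A00pp_022_s3

theorem t798_A00pp_022_s3 : ∃ t, chk3 f_A00pp_022_s3 t 21 14 2 = true := ex3_b t797_A00pp_022_s3 t794_A00pp_022_s3

theorem t799_A00pp_022_s3 : ∃ t, chk3 f_A00pp_022_s3 t 21 14 1 = true := ex3_c t798_A00pp_022_s3 t792_A00pp_022_s3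

theorem t800_A00pp_022_s3 : ∃ t, chk3 f_A00pp_022_s3 t 21 7 1 = true := ex3_b t799_A00pp_022_s3 k754_A00pp_022_s3

theorem t801_A00pp_022_s3 : ∃ t, chk3 f_A00pp_022_s3 t 41 58 3 = true := ex3_a k740_A00pp_022_s3 k741_A00pp_022_s3

theorem t802_A00pp_022_s3 : ∃ t, chk3 f_A00pp_022_s3 t 41 29 3 = true := ex3_b t801_A00pp_022_s3 k742_A00pp_022_s3

theorem t803_A00pp_022_s3 : ∃ t, chk3 f_A00pp_022_s3 t 41 14 3 = true := ex3_b k739_A00pp_022_s3 t802_A00pp_022_s3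

theorem t804_A00pp_022_s3 : ∃ t, chk3 f_A00pp_022_s3 t 41 58 5 = true := ex3_a k736_A00pp_022_s3 k737_A00pp_022_s3

theorem t805_A00pp_022_s3 : ∃ t, chk3 f_A00pp_022_s3 t 41 29 5 = true := ex3_b t804_A00pp_022_s3 k738_A00pp_022_s3

theorem t806_A00pp_022_s3 : ∃ t, chk3 f_A00pp_022_s3 t 41 58 4 = true := ex3_a k733_A00pp_022_s3 k734_A00pp_022_s3

theorem t807_A00pp_022_s3 : ∃ t, chk3 f_A00pp_022_s3 t 41 29 4 = true := ex3_b t806_A00pp_022_s3 k735_A00pp_022_s3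

theorem t808_A00pp_022_s3 : ∃ t, chk3 f_A00pp_022_s3 t 41 29 2 = true := ex3_c t807_A00pp_022_s3 t805_A00pp_022_s3

theorem t809_A00pp_022_s3 : ∃ t, chk3 f_A00pp_022_s3 t 41 28 2 = true := ex3_a k731_A00pp_022_s3 k732_A00pp_022_s3

theorem t810_A00pp_022_s3 : ∃ t, chk3 f_A00pp_022_s3 t 41 14 2 = true := ex3_b t809_A00pp_022_s3 t808_A00pp_022_s3

theorem t811_A00pp_022_s3 : ∃ t, chk3 f_A00pp_022_s3 t 41 14 1 = true := ex3_c t810_A00pp_022_s3 t803_A00pp_022_s3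

theorem t812_A00pp_022_s3 : ∃ t, chk3 f_A00pp_022_s3 t 41 7 1 = true := ex3_b t811_A00pp_022_s3 k743_A00pp_022_s3

theorem t813_A00pp_022_s3 : ∃ t, chk3 f_A00pp_022_s3 t 40 58 3 = true := ex3_a k727_A00pp_022_s3 k728_A00pp_022_s3

theorem t814_A00pp_022_s3 : ∃ t, chk3 f_A00pp_022_s3 t 40 29 3 = true := ex3_b t813_A00pp_022_s3 k729_A00pp_022_s3

theorem t815_A00pp_022_s3 : ∃ t, chk3 f_A00pp_022_s3 t 40 28 3 = true := ex3_b k725_A00pp_022_s3 k726_A00pp_022_s3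

theorem t816_A00pp_022_s3 : ∃ t, chk3 f_A00pp_022_s3 t 40 14 3 = true := ex3_b t815_A00pp_022_s3 t814_A00pp_022_s3

theorem t817_A00pp_022_s3 : ∃ t, chk3 f_A00pp_022_s3 t 40 59 4 = true := ex3_b k722_A00pp_022_s3 k723_A00pp_022_s3

theorem t818_A00pp_022_s3 : ∃ t, chk3 f_A00pp_022_s3 t 40 59 2 = true := ex3_c t817_A00pp_022_s3 k724_A00pp_022_s3

theorem t819_A00pp_022_s3 : ∃ t, chk3 f_A00pp_022_s3 t 40 117 4 = true := ex3_a k719_A00pp_022_s3 k720_A00pp_022_s3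

theorem t820_A00pp_022_s3 : ∃ t, chk3 f_A00pp_022_s3 t 40 117 2 = true := ex3_c t819_A00pp_022_s3 k721_A00pp_022_s3

theorem t821_A00pp_022_s3 : ∃ t, chk3 f_A00pp_022_s3 t 40 116 4 = true := ex3_a k716_A00pp_022_s3 k717_A00pp_022_s3

theorem t822_A00pp_022_s3 : ∃ t, chk3 f_A00pp_022_s3 t 40 116 2 = true := ex3_c t821_A00pp_022_s3 k718_A00pp_022_s3

theorem t823_A00pp_022_s3 : ∃ t, chk3 f_A00pp_022_s3 t 40 58 2 = true := ex3_b t822_A00pp_022_s3 t820_A00pp_022_s3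

theorem t824_A00pp_022_s3 : ∃ t, chk3 f_A00pp_022_s3 t 40 29 2 = true := ex3_b t823_A00pp_022_s3 t818_A00pp_022_s3

theorem t825_A00pp_022_s3 : ∃ t, chk3 f_A00pp_022_s3 t 40 57 2 = true := ex3_a k714_A00pp_022_s3 k715_A00pp_022_s3

theorem t826_A00pp_022_s3 : ∃ t, chk3 f_A00pp_022_s3 t 40 28 2 = true := ex3_b k713_A00pp_022_s3 t825_A00pp_022_s3

theorem t827_A00pp_022_s3 : ∃ t, chk3 f_A00pp_022_s3 t 40 14 2 = true := ex3_b t826_A00pp_022_s3 t824_A00pp_022_s3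

theorem t828_A00pp_022_s3 : ∃ t, chk3 f_A00pp_022_s3 t 40 14 1 = true := ex3_c t827_A00pp_022_s3 t816_A00pp_022_s3

theorem t829_A00pp_022_s3 : ∃ t, chk3 f_A00pp_022_s3 t 40 7 1 = true := ex3_b t828_A00pp_022_s3 k730_A00pp_022_s3

theorem t830_A00pp_022_s3 : ∃ t, chk3 f_A00pp_022_s3 t 20 7 1 = true := ex3_a t829_A00pp_022_s3 t812_A00pp_022_s3

theorem t831_A00pp_022_s3 : ∃ t, chk3 f_A00pp_022_s3 t 10 7 1 = true := ex3_a t830_A00pp_022_s3 t800_A00pp_022_s3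

theorem t832_A00pp_022_s3 : ∃ t, chk3 f_A00pp_022_s3 t 5 7 1 = true := ex3_a t831_A00pp_022_s3 t790_A00pp_022_s3

theorem t833_A00pp_022_s3 : ∃ t, chk3 f_A00pp_022_s3 t 23 13 2 = true := ex3_b k710_A00pp_022_s3 k711_A00pp_022_s3

theorem t834_A00pp_022_s3 : ∃ t, chk3 f_A00pp_022_s3 t 23 13 1 = true := ex3_c t833_A00pp_022_s3 k712_A00pp_022_s3

theorem t835_A00pp_022_s3 : ∃ t, chk3 f_A00pp_022_s3 t 22 27 1 = true := ex3_c k708_A00pp_022_s3 k709_A00pp_022_s3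

theorem t836_A00pp_022_s3 : ∃ t, chk3 f_A00pp_022_s3 t 22 13 1 = true := ex3_b k707_A00pp_022_s3 t835_A00pp_022_s3

theorem t837_A00pp_022_s3 : ∃ t, chk3 f_A00pp_022_s3 t 11 13 1 = true := ex3_a t836_A00pp_022_s3 t834_A00pp_022_s3

theorem t838_A00pp_022_s3 : ∃ t, chk3 f_A00pp_022_s3 t 10 13 3 = true := ex3_c k705_A00pp_022_s3 k706_A00pp_022_s3

theorem t839_A00pp_022_s3 : ∃ t, chk3 f_A00pp_022_s3 t 10 13 5 = true := ex3_a k703_A00pp_022_s3 k704_A00pp_022_s3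

theorem t840_A00pp_022_s3 : ∃ t, chk3 f_A00pp_022_s3 t 10 13 4 = true := ex3_c k701_A00pp_022_s3 k702_A00pp_022_s3

theorem t841_A00pp_022_s3 : ∃ t, chk3 f_A00pp_022_s3 t 10 13 2 = true := ex3_c t840_A00pp_022_s3 t839_A00pp_022_s3

theorem t842_A00pp_022_s3 : ∃ t, chk3 f_A00pp_022_s3 t 10 13 1 = true := ex3_c t841_A00pp_022_s3 t838_A00pp_022_s3

theorem t843_A00pp_022_s3 : ∃ t, chk3 f_A00pp_022_s3 t 5 13 1 = true := ex3_a t842_A00pp_022_s3 t837_A00pp_022_s3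

theorem t844_A00pp_022_s3 : ∃ t, chk3 f_A00pp_022_s3 t 11 12 1 = true := ex3_c k699_A00pp_022_s3 k700_A00pp_022_s3

theorem t845_A00pp_022_s3 : ∃ t, chk3 f_A00pp_022_s3 t 5 12 1 = true := ex3_a k698_A00pp_022_s3 t844_A00pp_022_s3

theorem t846_A00pp_022_s3 : ∃ t, chk3 f_A00pp_022_s3 t 5 6 1 = true := ex3_b t845_A00pp_022_s3 t843_A00pp_022_s3

theorem t847_A00pp_022_s3 : ∃ t, chk3 f_A00pp_022_s3 t 5 3 1 = true := ex3_b t846_A00pp_022_s3 t832_A00pp_022_s3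

theorem t848_A00pp_022_s3 : ∃ t, chk3 f_A00pp_022_s3 t 5 1 1 = true := ex3_b k697_A00pp_022_s3 t847_A00pp_022_s3

theorem t849_A00pp_022_s3 : ∃ t, chk3 f_A00pp_022_s3 t 38 60 3 = true := ex3_a k692_A00pp_022_s3 k693_A00pp_022_s3

theorem t850_A00pp_022_s3 : ∃ t, chk3 f_A00pp_022_s3 t 38 30 3 = true := ex3_b t849_A00pp_022_s3 k694_A00pp_022_s3

theorem t851_A00pp_022_s3 : ∃ t, chk3 f_A00pp_022_s3 t 19 30 3 = true := ex3_a t850_A00pp_022_s3 k695_A00pp_022_s3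

theorem t852_A00pp_022_s3 : ∃ t, chk3 f_A00pp_022_s3 t 39 30 2 = true := ex3_a k690_A00pp_022_s3 k691_A00pp_022_s3

theorem t853_A00pp_022_s3 : ∃ t, chk3 f_A00pp_022_s3 t 38 60 5 = true := ex3_b k687_A00pp_022_s3 k688_A00pp_022_s3

theorem t854_A00pp_022_s3 : ∃ t, chk3 f_A00pp_022_s3 t 77 60 9 = true := ex3_b k685_A00pp_022_s3 k686_A00pp_022_s3

theorem t855_A00pp_022_s3 : ∃ t, chk3 f_A00pp_022_s3 t 76 60 9 = true := ex3_a k683_A00pp_022_s3 k684_A00pp_022_s3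

theorem t856_A00pp_022_s3 : ∃ t, chk3 f_A00pp_022_s3 t 38 60 9 = true := ex3_a t855_A00pp_022_s3 t854_A00pp_022_s3

theorem t857_A00pp_022_s3 : ∃ t, chk3 f_A00pp_022_s3 t 77 60 8 = true := ex3_b k681_A00pp_022_s3 k682_A00pp_022_s3

theorem t858_A00pp_022_s3 : ∃ t, chk3 f_A00pp_022_s3 t 76 121 8 = true := ex3_a k679_A00pp_022_s3 k680_A00pp_022_s3

theorem t859_A00pp_022_s3 : ∃ t, chk3 f_A00pp_022_s3 t 304 483 16 = true := ex3_c k674_A00pp_022_s3 k675_A00pp_022_s3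

theorem t860_A00pp_022_s3 : ∃ t, chk3 f_A00pp_022_s3 t 152 483 16 = true := ex3_a t859_A00pp_022_s3 k676_A00pp_022_s3

theorem t861_A00pp_022_s3 : ∃ t, chk3 f_A00pp_022_s3 t 152 482 16 = true := ex3_a k672_A00pp_022_s3 k673_A00pp_022_s3

theorem t862_A00pp_022_s3 : ∃ t, chk3 f_A00pp_022_s3 t 152 241 16 = true := ex3_b t861_A00pp_022_s3 t860_A00pp_022_s3

theorem t863_A00pp_022_s3 : ∃ t, chk3 f_A00pp_022_s3 t 152 241 8 = true := ex3_c t862_A00pp_022_s3 k677_A00pp_022_s3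

theorem t864_A00pp_022_s3 : ∃ t, chk3 f_A00pp_022_s3 t 76 241 8 = true := ex3_a t863_A00pp_022_s3 k678_A00pp_022_s3

theorem t865_A00pp_022_s3 : ∃ t, chk3 f_A00pp_022_s3 t 153 240 8 = true := ex3_c k670_A00pp_022_s3 k671_A00pp_022_s3

theorem t866_A00pp_022_s3 : ∃ t, chk3 f_A00pp_022_s3 t 152 240 16 = true := ex3_a k667_A00pp_022_s3 k668_A00pp_022_s3

theorem t867_A00pp_022_s3 : ∃ t, chk3 f_A00pp_022_s3 t 152 240 8 = true := ex3_c t866_A00pp_022_s3 k669_A00pp_022_s3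

theorem t868_A00pp_022_s3 : ∃ t, chk3 f_A00pp_022_s3 t 76 240 8 = true := ex3_a t867_A00pp_022_s3 t865_A00pp_022_s3

theorem t869_A00pp_022_s3 : ∃ t, chk3 f_A00pp_022_s3 t 76 120 8 = true := ex3_b t868_A00pp_022_s3 t864_A00pp_022_s3

theorem t870_A00pp_022_s3 : ∃ t, chk3 f_A00pp_022_s3 t 76 60 8 = true := ex3_b t869_A00pp_022_s3 t858_A00pp_022_s3

theorem t871_A00pp_022_s3 : ∃ t, chk3 f_A00pp_022_s3 t 38 60 8 = true := ex3_a t870_A00pp_022_s3 t857_A00pp_022_s3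

theorem t872_A00pp_022_s3 : ∃ t, chk3 f_A00pp_022_s3 t 38 60 4 = true := ex3_c t871_A00pp_022_s3 t856_A00pp_022_s3

theorem t873_A00pp_022_s3 : ∃ t, chk3 f_A00pp_022_s3 t 38 60 2 = true := ex3_c t872_A00pp_022_s3 t853_A00pp_022_s3

theorem t874_A00pp_022_s3 : ∃ t, chk3 f_A00pp_022_s3 t 38 30 2 = true := ex3_b t873_A00pp_022_s3 k689_A00pp_022_s3

theorem t875_A00pp_022_s3 : ∃ t, chk3 f_A00pp_022_s3 t 19 30 2 = true := ex3_a t874_A00pp_022_s3 t852_A00pp_022_s3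

theorem t876_A00pp_022_s3 : ∃ t, chk3 f_A00pp_022_s3 t 19 30 1 = true := ex3_c t875_A00pp_022_s3 t851_A00pp_022_s3

theorem t877_A00pp_022_s3 : ∃ t, chk3 f_A00pp_022_s3 t 19 15 1 = true := ex3_b t876_A00pp_022_s3 k696_A00pp_022_s3

theorem t878_A00pp_022_s3 : ∃ t, chk3 f_A00pp_022_s3 t 74 122 5 = true := ex3_a k661_A00pp_022_s3 k662_A00pp_022_s3

theorem t879_A00pp_022_s3 : ∃ t, chk3 f_A00pp_022_s3 t 37 122 5 = true := ex3_a t878_A00pp_022_s3 k663_A00pp_022_s3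

theorem t880_A00pp_022_s3 : ∃ t, chk3 f_A00pp_022_s3 t 37 61 5 = true := ex3_b t879_A00pp_022_s3 k664_A00pp_022_s3

theorem t881_A00pp_022_s3 : ∃ t, chk3 f_A00pp_022_s3 t 75 488 8 = true := ex3_a k655_A00pp_022_s3 k656_A00pp_022_s3

theorem t882_A00pp_022_s3 : ∃ t, chk3 f_A00pp_022_s3 t 75 244 8 = true := ex3_b t881_A00pp_022_s3 k657_A00pp_022_s3

theorem t883_A00pp_022_s3 : ∃ t, chk3 f_A00pp_022_s3 t 75 122 8 = true := ex3_b t882_A00pp_022_s3 k658_A00pp_022_s3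

theorem t884_A00pp_022_s3 : ∃ t, chk3 f_A00pp_022_s3 t 75 122 4 = true := ex3_c t883_A00pp_022_s3 k659_A00pp_022_s3

theorem t885_A00pp_022_s3 : ∃ t, chk3 f_A00pp_022_s3 t 75 61 4 = true := ex3_b t884_A00pp_022_s3 k660_A00pp_022_s3

theorem t886_A00pp_022_s3 : ∃ t, chk3 f_A00pp_022_s3 t 148 245 9 = true := ex3_a k651_A00pp_022_s3 k652_A00pp_022_s3

theorem t887_A00pp_022_s3 : ∃ t, chk3 f_A00pp_022_s3 t 297 244 18 = true := ex3_b k648_A00pp_022_s3 k649_A00pp_022_s3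

theorem t888_A00pp_022_s3 : ∃ t, chk3 f_A00pp_022_s3 t 148 244 18 = true := ex3_a k647_A00pp_022_s3 t887_A00pp_022_s3

theorem t889_A00pp_022_s3 : ∃ t, chk3 f_A00pp_022_s3 t 148 244 9 = true := ex3_c t888_A00pp_022_s3 k650_A00pp_022_s3

theorem t890_A00pp_022_s3 : ∃ t, chk3 f_A00pp_022_s3 t 148 122 9 = true := ex3_b t889_A00pp_022_s3 t886_A00pp_022_s3

theorem t891_A00pp_022_s3 : ∃ t, chk3 f_A00pp_022_s3 t 74 122 9 = true := ex3_a t890_A00pp_022_s3 k653_A00pp_022_s3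

theorem t892_A00pp_022_s3 : ∃ t, chk3 f_A00pp_022_s3 t 149 244 17 = true := ex3_a k644_A00pp_022_s3 k645_A00pp_022_s3

theorem t893_A00pp_022_s3 : ∃ t, chk3 f_A00pp_022_s3 t 149 244 8 = true := ex3_c k643_A00pp_022_s3 t892_A00pp_022_s3

theorem t894_A00pp_022_s3 : ∃ t, chk3 f_A00pp_022_s3 t 149 122 8 = true := ex3_b t893_A00pp_022_s3 k646_A00pp_022_s3

theorem t895_A00pp_022_s3 : ∃ t, chk3 f_A00pp_022_s3 t 297 244 16 = true := ex3_b k639_A00pp_022_s3 k640_A00pp_022_s3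

theorem t896_A00pp_022_s3 : ∃ t, chk3 f_A00pp_022_s3 t 297 244 8 = true := ex3_c t895_A00pp_022_s3 k641_A00pp_022_s3

theorem t897_A00pp_022_s3 : ∃ t, chk3 f_A00pp_022_s3 t 296 488 17 = true := ex3_c k636_A00pp_022_s3 k637_A00pp_022_s3

theorem t898_A00pp_022_s3 : ∃ t, chk3 f_A00pp_022_s3 t 296 488 8 = true := ex3_c k635_A00pp_022_s3 t897_A00pp_022_s3

theorem t899_A00pp_022_s3 : ∃ t, chk3 f_A00pp_022_s3 t 296 244 8 = true := ex3_b t898_A00pp_022_s3 k638_A00pp_022_s3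

theorem t900_A00pp_022_s3 : ∃ t, chk3 f_A00pp_022_s3 t 148 244 8 = true := ex3_a t899_A00pp_022_s3 t896_A00pp_022_s3

theorem t901_A00pp_022_s3 : ∃ t, chk3 f_A00pp_022_s3 t 148 122 8 = true := ex3_b t900_A00pp_022_s3 k642_A00pp_022_s3

theorem t902_A00pp_022_s3 : ∃ t, chk3 f_A00pp_022_s3 t 74 122 8 = true := ex3_a t901_A00pp_022_s3 t894_A00pp_022_s3

theorem t903_A00pp_022_s3 : ∃ t, chk3 f_A00pp_022_s3 t 74 122 4 = true := ex3_c t902_A00pp_022_s3 t891_A00pp_022_s3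

theorem t904_A00pp_022_s3 : ∃ t, chk3 f_A00pp_022_s3 t 74 61 4 = true := ex3_b t903_A00pp_022_s3 k654_A00pp_022_s3

theorem t905_A00pp_022_s3 : ∃ t, chk3 f_A00pp_022_s3 t 37 61 4 = true := ex3_a t904_A00pp_022_s3 t885_A00pp_022_s3

theorem t906_A00pp_022_s3 : ∃ t, chk3 f_A00pp_022_s3 t 37 61 2 = true := ex3_c t905_A00pp_022_s3 t880_A00pp_022_s3

theorem t907_A00pp_022_s3 : ∃ t, chk3 f_A00pp_022_s3 t 37 61 1 = true := ex3_c t906_A00pp_022_s3 k665_A00pp_022_s3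

theorem t908_A00pp_022_s3 : ∃ t, chk3 f_A00pp_022_s3 t 37 121 3 = true := ex3_a k633_A00pp_022_s3 k634_A00pp_022_s3

theorem t909_A00pp_022_s3 : ∃ t, chk3 f_A00pp_022_s3 t 75 121 5 = true := ex3_a k631_A00pp_022_s3 k632_A00pp_022_s3

theorem t910_A00pp_022_s3 : ∃ t, chk3 f_A00pp_022_s3 t 148 121 10 = true := ex3_b k627_A00pp_022_s3 k628_A00pp_022_s3

theorem t911_A00pp_022_s3 : ∃ t, chk3 f_A00pp_022_s3 t 148 121 5 = true := ex3_c t910_A00pp_022_s3 k629_A00pp_022_s3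

theorem t912_A00pp_022_s3 : ∃ t, chk3 f_A00pp_022_s3 t 74 121 5 = true := ex3_a t911_A00pp_022_s3 k630_A00pp_022_s3

theorem t913_A00pp_022_s3 : ∃ t, chk3 f_A00pp_022_s3 t 37 121 5 = true := ex3_a t912_A00pp_022_s3 t909_A00pp_022_s3

theorem t914_A00pp_022_s3 : ∃ t, chk3 f_A00pp_022_s3 t 300 242 18 = true := ex3_b k621_A00pp_022_s3 k622_A00pp_022_s3

theorem t915_A00pp_022_s3 : ∃ t, chk3 f_A00pp_022_s3 t 300 242 9 = true := ex3_c t914_A00pp_022_s3 k623_A00pp_022_s3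

theorem t916_A00pp_022_s3 : ∃ t, chk3 f_A00pp_022_s3 t 300 121 9 = true := ex3_b t915_A00pp_022_s3 k624_A00pp_022_s3

theorem t917_A00pp_022_s3 : ∃ t, chk3 f_A00pp_022_s3 t 150 121 9 = true := ex3_a t916_A00pp_022_s3 k625_A00pp_022_s3

theorem t918_A00pp_022_s3 : ∃ t, chk3 f_A00pp_022_s3 t 75 121 9 = true := ex3_a t917_A00pp_022_s3 k626_A00pp_022_s3

theorem t919_A00pp_022_s3 : ∃ t, chk3 f_A00pp_022_s3 t 151 243 8 = true := ex3_a k619_A00pp_022_s3 k620_A00pp_022_s3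

theorem t920_A00pp_022_s3 : ∃ t, chk3 f_A00pp_022_s3 t 303 242 8 = true := ex3_b k617_A00pp_022_s3 k618_A00pp_022_s3

theorem t921_A00pp_022_s3 : ∃ t, chk3 f_A00pp_022_s3 t 302 242 8 = true := ex3_c k615_A00pp_022_s3 k616_A00pp_022_s3

theorem t922_A00pp_022_s3 : ∃ t, chk3 f_A00pp_022_s3 t 151 242 8 = true := ex3_a t921_A00pp_022_s3 t920_A00pp_022_s3

theorem t923_A00pp_022_s3 : ∃ t, chk3 f_A00pp_022_s3 t 151 121 8 = true := ex3_b t922_A00pp_022_s3 t919_A00pp_022_s3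

theorem t924_A00pp_022_s3 : ∃ t, chk3 f_A00pp_022_s3 t 300 243 17 = true := ex3_b k612_A00pp_022_s3 k613_A00pp_022_s3

theorem t925_A00pp_022_s3 : ∃ t, chk3 f_A00pp_022_s3 t 150 243 17 = true := ex3_a t924_A00pp_022_s3 k614_A00pp_022_s3

theorem t926_A00pp_022_s3 : ∃ t, chk3 f_A00pp_022_s3 t 301 242 17 = true := ex3_b k610_A00pp_022_s3 k611_A00pp_022_s3

theorem t927_A00pp_022_s3 : ∃ t, chk3 f_A00pp_022_s3 t 150 242 17 = true := ex3_a k609_A00pp_022_s3 t926_A00pp_022_s3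

theorem t928_A00pp_022_s3 : ∃ t, chk3 f_A00pp_022_s3 t 150 121 17 = true := ex3_b t927_A00pp_022_s3 t925_A00pp_022_s3

theorem t929_A00pp_022_s3 : ∃ t, chk3 f_A00pp_022_s3 t 300 242 16 = true := ex3_c k605_A00pp_022_s3 k606_A00pp_022_s3

theorem t930_A00pp_022_s3 : ∃ t, chk3 f_A00pp_022_s3 t 150 242 16 = true := ex3_a t929_A00pp_022_s3 k607_A00pp_022_s3

theorem t931_A00pp_022_s3 : ∃ t, chk3 f_A00pp_022_s3 t 150 121 16 = true := ex3_b t930_A00pp_022_s3 k608_A00pp_022_s3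

theorem t932_A00pp_022_s3 : ∃ t, chk3 f_A00pp_022_s3 t 150 121 8 = true := ex3_c t931_A00pp_022_s3 t928_A00pp_022_s3

theorem t933_A00pp_022_s3 : ∃ t, chk3 f_A00pp_022_s3 t 75 121 8 = true := ex3_a t932_A00pp_022_s3 t923_A00pp_022_s3

theorem t934_A00pp_022_s3 : ∃ t, chk3 f_A00pp_022_s3 t 75 121 4 = true := ex3_c t933_A00pp_022_s3 t918_A00pp_022_s3

theorem t935_A00pp_022_s3 : ∃ t, chk3 f_A00pp_022_s3 t 149 486 18 = true := ex3_a k601_A00pp_022_s3 k602_A00pp_022_s3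

theorem t936_A00pp_022_s3 : ∃ t, chk3 f_A00pp_022_s3 t 149 243 18 = true := ex3_b t935_A00pp_022_s3 k603_A00pp_022_s3

theorem t937_A00pp_022_s3 : ∃ t, chk3 f_A00pp_022_s3 t 149 243 9 = true := ex3_c t936_A00pp_022_s3 k604_A00pp_022_s3

theorem t938_A00pp_022_s3 : ∃ t, chk3 f_A00pp_022_s3 t 149 485 18 = true := ex3_a k598_A00pp_022_s3 k599_A00pp_022_s3

theorem t939_A00pp_022_s3 : ∃ t, chk3 f_A00pp_022_s3 t 149 242 18 = true := ex3_b k597_A00pp_022_s3 t938_A00pp_022_s3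

theorem t940_A00pp_022_s3 : ∃ t, chk3 f_A00pp_022_s3 t 149 242 9 = true := ex3_c t939_A00pp_022_s3 k600_A00pp_022_s3

theorem t941_A00pp_022_s3 : ∃ t, chk3 f_A00pp_022_s3 t 149 121 9 = true := ex3_b t940_A00pp_022_s3 t937_A00pp_022_s3

theorem t942_A00pp_022_s3 : ∃ t, chk3 f_A00pp_022_s3 t 297 243 19 = true := ex3_b k595_A00pp_022_s3 k596_A00pp_022_s3

theorem t943_A00pp_022_s3 : ∃ t, chk3 f_A00pp_022_s3 t 297 243 9 = true := ex3_c k594_A00pp_022_s3 t942_A00pp_022_s3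

theorem t944_A00pp_022_s3 : ∃ t, chk3 f_A00pp_022_s3 t 296 243 19 = true := ex3_b k592_A00pp_022_s3 k593_A00pp_022_s3

theorem t945_A00pp_022_s3 : ∃ t, chk3 f_A00pp_022_s3 t 296 243 9 = true := ex3_c k591_A00pp_022_s3 t944_A00pp_022_s3

theorem t946_A00pp_022_s3 : ∃ t, chk3 f_A00pp_022_s3 t 148 243 9 = true := ex3_a t945_A00pp_022_s3 t943_A00pp_022_s3

theorem t947_A00pp_022_s3 : ∃ t, chk3 f_A00pp_022_s3 t 297 242 19 = true := ex3_b k589_A00pp_022_s3 k590_A00pp_022_s3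

theorem t948_A00pp_022_s3 : ∃ t, chk3 f_A00pp_022_s3 t 297 242 18 = true := ex3_a k587_A00pp_022_s3 k588_A00pp_022_s3

theorem t949_A00pp_022_s3 : ∃ t, chk3 f_A00pp_022_s3 t 297 242 9 = true := ex3_c t948_A00pp_022_s3 t947_A00pp_022_s3

theorem t950_A00pp_022_s3 : ∃ t, chk3 f_A00pp_022_s3 t 593 485 36 = true := ex3_c k583_A00pp_022_s3 k584_A00pp_022_s3

theorem t951_A00pp_022_s3 : ∃ t, chk3 f_A00pp_022_s3 t 296 485 36 = true := ex3_a k582_A00pp_022_s3 t950_A00pp_022_s3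

theorem t952_A00pp_022_s3 : ∃ t, chk3 f_A00pp_022_s3 t 296 242 36 = true := ex3_b k581_A00pp_022_s3 t951_A00pp_022_s3

theorem t953_A00pp_022_s3 : ∃ t, chk3 f_A00pp_022_s3 t 296 242 18 = true := ex3_c t952_A00pp_022_s3 k585_A00pp_022_s3

theorem t954_A00pp_022_s3 : ∃ t, chk3 f_A00pp_022_s3 t 296 242 9 = true := ex3_c t953_A00pp_022_s3 k586_A00pp_022_s3

theorem t955_A00pp_022_s3 : ∃ t, chk3 f_A00pp_022_s3 t 148 242 9 = true := ex3_a t954_A00pp_022_s3 t949_A00pp_022_s3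

theorem t956_A00pp_022_s3 : ∃ t, chk3 f_A00pp_022_s3 t 148 121 9 = true := ex3_b t955_A00pp_022_s3 t946_A00pp_022_s3

theorem t957_A00pp_022_s3 : ∃ t, chk3 f_A00pp_022_s3 t 74 121 9 = true := ex3_a t956_A00pp_022_s3 t941_A00pp_022_s3

theorem t958_A00pp_022_s3 : ∃ t, chk3 f_A00pp_022_s3 t 149 243 17 = true := ex3_b k579_A00pp_022_s3 k580_A00pp_022_s3

theorem t959_A00pp_022_s3 : ∃ t, chk3 f_A00pp_022_s3 t 149 487 16 = true := ex3_a k577_A00pp_022_s3 k578_A00pp_022_s3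

theorem t960_A00pp_022_s3 : ∃ t, chk3 f_A00pp_022_s3 t 149 486 16 = true := ex3_a k575_A00pp_022_s3 k576_A00pp_022_s3

theorem t961_A00pp_022_s3 : ∃ t, chk3 f_A00pp_022_s3 t 149 243 16 = true := ex3_b t960_A00pp_022_s3 t959_A00pp_022_s3

theorem t962_A00pp_022_s3 : ∃ t, chk3 f_A00pp_022_s3 t 149 243 8 = true := ex3_c t961_A00pp_022_s3 t958_A00pp_022_s3

theorem t963_A00pp_022_s3 : ∃ t, chk3 f_A00pp_022_s3 t 298 484 35 = true := ex3_a k571_A00pp_022_s3 k572_A00pp_022_s3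

theorem t964_A00pp_022_s3 : ∃ t, chk3 f_A00pp_022_s3 t 298 242 35 = true := ex3_b t963_A00pp_022_s3 k573_A00pp_022_s3

theorem t965_A00pp_022_s3 : ∃ t, chk3 f_A00pp_022_s3 t 298 242 17 = true := ex3_c k570_A00pp_022_s3 t964_A00pp_022_s3

theorem t966_A00pp_022_s3 : ∃ t, chk3 f_A00pp_022_s3 t 149 242 17 = true := ex3_a t965_A00pp_022_s3 k574_A00pp_022_s3

theorem t967_A00pp_022_s3 : ∃ t, chk3 f_A00pp_022_s3 t 299 242 16 = true := ex3_b k568_A00pp_022_s3 k569_A00pp_022_s3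

theorem t968_A00pp_022_s3 : ∃ t, chk3 f_A00pp_022_s3 t 149 242 16 = true := ex3_a k567_A00pp_022_s3 t967_A00pp_022_s3

theorem t969_A00pp_022_s3 : ∃ t, chk3 f_A00pp_022_s3 t 149 242 8 = true := ex3_c t968_A00pp_022_s3 t966_A00pp_022_s3

theorem t970_A00pp_022_s3 : ∃ t, chk3 f_A00pp_022_s3 t 149 121 8 = true := ex3_b t969_A00pp_022_s3 t962_A00pp_022_s3

theorem t971_A00pp_022_s3 : ∃ t, chk3 f_A00pp_022_s3 t 297 243 17 = true := ex3_a k565_A00pp_022_s3 k566_A00pp_022_s3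

theorem t972_A00pp_022_s3 : ∃ t, chk3 f_A00pp_022_s3 t 296 243 17 = true := ex3_b k563_A00pp_022_s3 k564_A00pp_022_s3

theorem t973_A00pp_022_s3 : ∃ t, chk3 f_A00pp_022_s3 t 148 243 17 = true := ex3_a t972_A00pp_022_s3 t971_A00pp_022_s3

theorem t974_A00pp_022_s3 : ∃ t, chk3 f_A00pp_022_s3 t 148 243 8 = true := ex3_c k562_A00pp_022_s3 t973_A00pp_022_s3

theorem t975_A00pp_022_s3 : ∃ t, chk3 f_A00pp_022_s3 t 595 242 35 = true := ex3_b k560_A00pp_022_s3 k561_A00pp_022_s3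

theorem t976_A00pp_022_s3 : ∃ t, chk3 f_A00pp_022_s3 t 297 242 35 = true := ex3_a k559_A00pp_022_s3 t975_A00pp_022_s3

theorem t977_A00pp_022_s3 : ∃ t, chk3 f_A00pp_022_s3 t 297 242 17 = true := ex3_c k558_A00pp_022_s3 t976_A00pp_022_s3

theorem t978_A00pp_022_s3 : ∃ t, chk3 f_A00pp_022_s3 t 297 242 8 = true := ex3_c k557_A00pp_022_s3 t977_A00pp_022_s3

theorem t979_A00pp_022_s3 : ∃ t, chk3 f_A00pp_022_s3 t 148 242 8 = true := ex3_a k556_A00pp_022_s3 t978_A00pp_022_s3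

theorem t980_A00pp_022_s3 : ∃ t, chk3 f_A00pp_022_s3 t 148 121 8 = true := ex3_b t979_A00pp_022_s3 t974_A00pp_022_s3

theorem t981_A00pp_022_s3 : ∃ t, chk3 f_A00pp_022_s3 t 74 121 8 = true := ex3_a t980_A00pp_022_s3 t970_A00pp_022_s3

theorem t982_A00pp_022_s3 : ∃ t, chk3 f_A00pp_022_s3 t 74 121 4 = true := ex3_c t981_A00pp_022_s3 t957_A00pp_022_s3

theorem t983_A00pp_022_s3 : ∃ t, chk3 f_A00pp_022_s3 t 37 121 4 = true := ex3_a t982_A00pp_022_s3 t934_A00pp_022_s3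

theorem t984_A00pp_022_s3 : ∃ t, chk3 f_A00pp_022_s3 t 37 121 2 = true := ex3_c t983_A00pp_022_s3 t913_A00pp_022_s3

theorem t985_A00pp_022_s3 : ∃ t, chk3 f_A00pp_022_s3 t 37 121 1 = true := ex3_c t984_A00pp_022_s3 t908_A00pp_022_s3

theorem t986_A00pp_022_s3 : ∃ t, chk3 f_A00pp_022_s3 t 150 241 18 = true := ex3_a k550_A00pp_022_s3 k551_A00pp_022_s3

theorem t987_A00pp_022_s3 : ∃ t, chk3 f_A00pp_022_s3 t 150 241 9 = true := ex3_c t986_A00pp_022_s3 k552_A00pp_022_s3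

theorem t988_A00pp_022_s3 : ∃ t, chk3 f_A00pp_022_s3 t 150 120 9 = true := ex3_b k549_A00pp_022_s3 t987_A00pp_022_s3

theorem t989_A00pp_022_s3 : ∃ t, chk3 f_A00pp_022_s3 t 75 120 9 = true := ex3_a t988_A00pp_022_s3 k553_A00pp_022_s3

theorem t990_A00pp_022_s3 : ∃ t, chk3 f_A00pp_022_s3 t 303 483 8 = true := ex3_c k547_A00pp_022_s3 k548_A00pp_022_s3

theorem t991_A00pp_022_s3 : ∃ t, chk3 f_A00pp_022_s3 t 302 483 32 = true := ex3_a k543_A00pp_022_s3 k544_A00pp_022_s3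

theorem t992_A00pp_022_s3 : ∃ t, chk3 f_A00pp_022_s3 t 302 483 16 = true := ex3_c t991_A00pp_022_s3 k545_A00pp_022_s3

theorem t993_A00pp_022_s3 : ∃ t, chk3 f_A00pp_022_s3 t 302 483 8 = true := ex3_c t992_A00pp_022_s3 k546_A00pp_022_s3

theorem t994_A00pp_022_s3 : ∃ t, chk3 f_A00pp_022_s3 t 151 483 8 = true := ex3_a t993_A00pp_022_s3 t990_A00pp_022_s3

theorem t995_A00pp_022_s3 : ∃ t, chk3 f_A00pp_022_s3 t 151 482 8 = true := ex3_c k541_A00pp_022_s3 k542_A00pp_022_s3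

theorem t996_A00pp_022_s3 : ∃ t, chk3 f_A00pp_022_s3 t 151 241 8 = true := ex3_b t995_A00pp_022_s3 t994_A00pp_022_s3

theorem t997_A00pp_022_s3 : ∃ t, chk3 f_A00pp_022_s3 t 151 240 32 = true := ex3_a k537_A00pp_022_s3 k538_A00pp_022_s3

theorem t998_A00pp_022_s3 : ∃ t, chk3 f_A00pp_022_s3 t 151 240 16 = true := ex3_c t997_A00pp_022_s3 k539_A00pp_022_s3

theorem t999_A00pp_022_s3 : ∃ t, chk3 f_A00pp_022_s3 t 151 240 8 = true := ex3_c t998_A00pp_022_s3 k540_A00pp_022_s3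

theorem t1000_A00pp_022_s3 : ∃ t, chk3 f_A00pp_022_s3 t 151 120 8 = true := ex3_b t999_A00pp_022_s3 t996_A00pp_022_s3

theorem t1001_A00pp_022_s3 : ∃ t, chk3 f_A00pp_022_s3 t 300 241 17 = true := ex3_c k534_A00pp_022_s3 k535_A00pp_022_s3

theorem t1002_A00pp_022_s3 : ∃ t, chk3 f_A00pp_022_s3 t 150 241 17 = true := ex3_a t1001_A00pp_022_s3 k536_A00pp_022_s3

theorem t1003_A00pp_022_s3 : ∃ t, chk3 f_A00pp_022_s3 t 301 241 33 = true := ex3_b k532_A00pp_022_s3 k533_A00pp_022_s3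

theorem t1004_A00pp_022_s3 : ∃ t, chk3 f_A00pp_022_s3 t 301 241 32 = true := ex3_b k530_A00pp_022_s3 k531_A00pp_022_s3

theorem t1005_A00pp_022_s3 : ∃ t, chk3 f_A00pp_022_s3 t 301 241 16 = true := ex3_c t1004_A00pp_022_s3 t1003_A00pp_022_s3

theorem t1006_A00pp_022_s3 : ∃ t, chk3 f_A00pp_022_s3 t 300 483 33 = true := ex3_a k528_A00pp_022_s3 k529_A00pp_022_s3

theorem t1007_A00pp_022_s3 : ∃ t, chk3 f_A00pp_022_s3 t 300 241 33 = true := ex3_b k527_A00pp_022_s3 t1006_A00pp_022_s3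

theorem t1008_A00pp_022_s3 : ∃ t, chk3 f_A00pp_022_s3 t 300 241 16 = true := ex3_c k526_A00pp_022_s3 t1007_A00pp_022_s3

theorem t1009_A00pp_022_s3 : ∃ t, chk3 f_A00pp_022_s3 t 150 241 16 = true := ex3_a t1008_A00pp_022_s3 t1005_A00pp_022_s3

theorem t1010_A00pp_022_s3 : ∃ t, chk3 f_A00pp_022_s3 t 150 241 8 = true := ex3_c t1009_A00pp_022_s3 t1002_A00pp_022_s3

theorem t1011_A00pp_022_s3 : ∃ t, chk3 f_A00pp_022_s3 t 150 240 8 = true := ex3_c k524_A00pp_022_s3 k525_A00pp_022_s3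

theorem t1012_A00pp_022_s3 : ∃ t, chk3 f_A00pp_022_s3 t 150 120 8 = true := ex3_b t1011_A00pp_022_s3 t1010_A00pp_022_s3

theorem t1013_A00pp_022_s3 : ∃ t, chk3 f_A00pp_022_s3 t 75 120 8 = true := ex3_a t1012_A00pp_022_s3 t1000_A00pp_022_s3

theorem t1014_A00pp_022_s3 : ∃ t, chk3 f_A00pp_022_s3 t 75 120 4 = true := ex3_c t1013_A00pp_022_s3 t989_A00pp_022_s3

theorem t1015_A00pp_022_s3 : ∃ t, chk3 f_A00pp_022_s3 t 75 120 2 = true := ex3_c t1014_A00pp_022_s3 k554_A00pp_022_s3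

theorem t1016_A00pp_022_s3 : ∃ t, chk3 f_A00pp_022_s3 t 75 120 1 = true := ex3_c t1015_A00pp_022_s3 k555_A00pp_022_s3

theorem t1017_A00pp_022_s3 : ∃ t, chk3 f_A00pp_022_s3 t 148 241 10 = true := ex3_a k519_A00pp_022_s3 k520_A00pp_022_s3

theorem t1018_A00pp_022_s3 : ∃ t, chk3 f_A00pp_022_s3 t 148 241 5 = true := ex3_c t1017_A00pp_022_s3 k521_A00pp_022_s3

theorem t1019_A00pp_022_s3 : ∃ t, chk3 f_A00pp_022_s3 t 74 241 5 = true := ex3_a t1018_A00pp_022_s3 k522_A00pp_022_s3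

theorem t1020_A00pp_022_s3 : ∃ t, chk3 f_A00pp_022_s3 t 298 241 9 = true := ex3_c k516_A00pp_022_s3 k517_A00pp_022_s3

theorem t1021_A00pp_022_s3 : ∃ t, chk3 f_A00pp_022_s3 t 149 241 9 = true := ex3_a t1020_A00pp_022_s3 k518_A00pp_022_s3

theorem t1022_A00pp_022_s3 : ∃ t, chk3 f_A00pp_022_s3 t 297 241 9 = true := ex3_c k514_A00pp_022_s3 k515_A00pp_022_s3

theorem t1023_A00pp_022_s3 : ∃ t, chk3 f_A00pp_022_s3 t 296 241 18 = true := ex3_c k511_A00pp_022_s3 k512_A00pp_022_s3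

theorem t1024_A00pp_022_s3 : ∃ t, chk3 f_A00pp_022_s3 t 296 241 9 = true := ex3_c t1023_A00pp_022_s3 k513_A00pp_022_s3

theorem t1025_A00pp_022_s3 : ∃ t, chk3 f_A00pp_022_s3 t 148 241 9 = true := ex3_a t1024_A00pp_022_s3 t1022_A00pp_022_s3

theorem t1026_A00pp_022_s3 : ∃ t, chk3 f_A00pp_022_s3 t 74 241 9 = true := ex3_a t1025_A00pp_022_s3 t1021_A00pp_022_s3

theorem t1027_A00pp_022_s3 : ∃ t, chk3 f_A00pp_022_s3 t 599 483 34 = true := ex3_c k508_A00pp_022_s3 k509_A00pp_022_s3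

theorem t1028_A00pp_022_s3 : ∃ t, chk3 f_A00pp_022_s3 t 299 483 34 = true := ex3_a k507_A00pp_022_s3 t1027_A00pp_022_s3

theorem t1029_A00pp_022_s3 : ∃ t, chk3 f_A00pp_022_s3 t 299 241 34 = true := ex3_b k506_A00pp_022_s3 t1028_A00pp_022_s3

theorem t1030_A00pp_022_s3 : ∃ t, chk3 f_A00pp_022_s3 t 299 241 17 = true := ex3_c t1029_A00pp_022_s3 k510_A00pp_022_s3

theorem t1031_A00pp_022_s3 : ∃ t, chk3 f_A00pp_022_s3 t 298 483 35 = true := ex3_a k504_A00pp_022_s3 k505_A00pp_022_s3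

theorem t1032_A00pp_022_s3 : ∃ t, chk3 f_A00pp_022_s3 t 298 241 35 = true := ex3_b k503_A00pp_022_s3 t1031_A00pp_022_s3

theorem t1033_A00pp_022_s3 : ∃ t, chk3 f_A00pp_022_s3 t 298 241 17 = true := ex3_c k502_A00pp_022_s3 t1032_A00pp_022_s3

theorem t1034_A00pp_022_s3 : ∃ t, chk3 f_A00pp_022_s3 t 149 241 17 = true := ex3_a t1033_A00pp_022_s3 t1030_A00pp_022_s3

theorem t1035_A00pp_022_s3 : ∃ t, chk3 f_A00pp_022_s3 t 149 241 8 = true := ex3_c k501_A00pp_022_s3 t1034_A00pp_022_s3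

theorem t1036_A00pp_022_s3 : ∃ t, chk3 f_A00pp_022_s3 t 148 241 8 = true := ex3_c k499_A00pp_022_s3 k500_A00pp_022_s3

theorem t1037_A00pp_022_s3 : ∃ t, chk3 f_A00pp_022_s3 t 74 241 8 = true := ex3_a t1036_A00pp_022_s3 t1035_A00pp_022_s3

theorem t1038_A00pp_022_s3 : ∃ t, chk3 f_A00pp_022_s3 t 74 241 4 = true := ex3_c t1037_A00pp_022_s3 t1026_A00pp_022_s3

theorem t1039_A00pp_022_s3 : ∃ t, chk3 f_A00pp_022_s3 t 74 241 2 = true := ex3_c t1038_A00pp_022_s3 t1019_A00pp_022_s3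

theorem t1040_A00pp_022_s3 : ∃ t, chk3 f_A00pp_022_s3 t 149 240 4 = true := ex3_c k496_A00pp_022_s3 k497_A00pp_022_s3

theorem t1041_A00pp_022_s3 : ∃ t, chk3 f_A00pp_022_s3 t 148 240 4 = true := ex3_a k494_A00pp_022_s3 k495_A00pp_022_s3

theorem t1042_A00pp_022_s3 : ∃ t, chk3 f_A00pp_022_s3 t 74 240 4 = true := ex3_a t1041_A00pp_022_s3 t1040_A00pp_022_s3

theorem t1043_A00pp_022_s3 : ∃ t, chk3 f_A00pp_022_s3 t 74 240 2 = true := ex3_c t1042_A00pp_022_s3 k498_A00pp_022_s3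

theorem t1044_A00pp_022_s3 : ∃ t, chk3 f_A00pp_022_s3 t 74 120 2 = true := ex3_b t1043_A00pp_022_s3 t1039_A00pp_022_s3

theorem t1045_A00pp_022_s3 : ∃ t, chk3 f_A00pp_022_s3 t 74 120 1 = true := ex3_c t1044_A00pp_022_s3 k523_A00pp_022_s3

theorem t1046_A00pp_022_s3 : ∃ t, chk3 f_A00pp_022_s3 t 37 120 1 = true := ex3_a t1045_A00pp_022_s3 t1016_A00pp_022_s3

theorem t1047_A00pp_022_s3 : ∃ t, chk3 f_A00pp_022_s3 t 37 60 1 = true := ex3_b t1046_A00pp_022_s3 t985_A00pp_022_s3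

theorem t1048_A00pp_022_s3 : ∃ t, chk3 f_A00pp_022_s3 t 37 30 1 = true := ex3_b t1047_A00pp_022_s3 t907_A00pp_022_s3

theorem t1049_A00pp_022_s3 : ∃ t, chk3 f_A00pp_022_s3 t 73 246 5 = true := ex3_b k490_A00pp_022_s3 k491_A00pp_022_s3

theorem t1050_A00pp_022_s3 : ∃ t, chk3 f_A00pp_022_s3 t 73 123 5 = true := ex3_b t1049_A00pp_022_s3 k492_A00pp_022_s3

theorem t1051_A00pp_022_s3 : ∃ t, chk3 f_A00pp_022_s3 t 146 246 19 = true := ex3_a k486_A00pp_022_s3 k487_A00pp_022_s3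

theorem t1052_A00pp_022_s3 : ∃ t, chk3 f_A00pp_022_s3 t 146 246 9 = true := ex3_c k485_A00pp_022_s3 t1051_A00pp_022_s3

theorem t1053_A00pp_022_s3 : ∃ t, chk3 f_A00pp_022_s3 t 146 123 9 = true := ex3_b t1052_A00pp_022_s3 k488_A00pp_022_s3

theorem t1054_A00pp_022_s3 : ∃ t, chk3 f_A00pp_022_s3 t 146 123 4 = true := ex3_c k484_A00pp_022_s3 t1053_A00pp_022_s3

theorem t1055_A00pp_022_s3 : ∃ t, chk3 f_A00pp_022_s3 t 73 123 4 = true := ex3_a t1054_A00pp_022_s3 k489_A00pp_022_s3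

theorem t1056_A00pp_022_s3 : ∃ t, chk3 f_A00pp_022_s3 t 73 123 2 = true := ex3_c t1055_A00pp_022_s3 t1050_A00pp_022_s3

theorem t1057_A00pp_022_s3 : ∃ t, chk3 f_A00pp_022_s3 t 73 123 1 = true := ex3_c t1056_A00pp_022_s3 k493_A00pp_022_s3

theorem t1058_A00pp_022_s3 : ∃ t, chk3 f_A00pp_022_s3 t 288 494 21 = true := ex3_a k477_A00pp_022_s3 k478_A00pp_022_s3

theorem t1059_A00pp_022_s3 : ∃ t, chk3 f_A00pp_022_s3 t 288 247 21 = true := ex3_b t1058_A00pp_022_s3 k479_A00pp_022_s3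

theorem t1060_A00pp_022_s3 : ∃ t, chk3 f_A00pp_022_s3 t 144 247 21 = true := ex3_a t1059_A00pp_022_s3 k480_A00pp_022_s3

theorem t1061_A00pp_022_s3 : ∃ t, chk3 f_A00pp_022_s3 t 72 247 21 = true := ex3_a t1060_A00pp_022_s3 k481_A00pp_022_s3

theorem t1062_A00pp_022_s3 : ∃ t, chk3 f_A00pp_022_s3 t 144 247 41 = true := ex3_a k474_A00pp_022_s3 k475_A00pp_022_s3

theorem t1063_A00pp_022_s3 : ∃ t, chk3 f_A00pp_022_s3 t 72 247 41 = true := ex3_a t1062_A00pp_022_s3 k476_A00pp_022_s3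

theorem t1064_A00pp_022_s3 : ∃ t, chk3 f_A00pp_022_s3 t 72 247 40 = true := ex3_a k472_A00pp_022_s3 k473_A00pp_022_s3

theorem t1065_A00pp_022_s3 : ∃ t, chk3 f_A00pp_022_s3 t 72 247 20 = true := ex3_c t1064_A00pp_022_s3 t1063_A00pp_022_s3

theorem t1066_A00pp_022_s3 : ∃ t, chk3 f_A00pp_022_s3 t 72 247 10 = true := ex3_c t1065_A00pp_022_s3 t1061_A00pp_022_s3

theorem t1067_A00pp_022_s3 : ∃ t, chk3 f_A00pp_022_s3 t 72 247 5 = true := ex3_c t1066_A00pp_022_s3 k482_A00pp_022_s3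

theorem t1068_A00pp_022_s3 : ∃ t, chk3 f_A00pp_022_s3 t 144 247 4 = true := ex3_b k469_A00pp_022_s3 k470_A00pp_022_s3

theorem t1069_A00pp_022_s3 : ∃ t, chk3 f_A00pp_022_s3 t 72 247 4 = true := ex3_a t1068_A00pp_022_s3 k471_A00pp_022_s3

theorem t1070_A00pp_022_s3 : ∃ t, chk3 f_A00pp_022_s3 t 72 247 2 = true := ex3_c t1069_A00pp_022_s3 t1067_A00pp_022_s3

theorem t1071_A00pp_022_s3 : ∃ t, chk3 f_A00pp_022_s3 t 72 247 1 = true := ex3_c t1070_A00pp_022_s3 k483_A00pp_022_s3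

theorem t1072_A00pp_022_s3 : ∃ t, chk3 f_A00pp_022_s3 t 72 246 3 = true := ex3_a k467_A00pp_022_s3 k468_A00pp_022_s3

theorem t1073_A00pp_022_s3 : ∃ t, chk3 f_A00pp_022_s3 t 145 987 2 = true := ex3_c k465_A00pp_022_s3 k466_A00pp_022_s3

theorem t1074_A00pp_022_s3 : ∃ t, chk3 f_A00pp_022_s3 t 289 987 2 = true := ex3_c k463_A00pp_022_s3 k464_A00pp_022_s3

theorem t1075_A00pp_022_s3 : ∃ t, chk3 f_A00pp_022_s3 t 288 1975 2 = true := ex3_c k461_A00pp_022_s3 k462_A00pp_022_s3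

theorem t1076_A00pp_022_s3 : ∃ t, chk3 f_A00pp_022_s3 t 288 1974 2 = true := ex3_a k459_A00pp_022_s3 k460_A00pp_022_s3

theorem t1077_A00pp_022_s3 : ∃ t, chk3 f_A00pp_022_s3 t 288 987 2 = true := ex3_b t1076_A00pp_022_s3 t1075_A00pp_022_s3

theorem t1078_A00pp_022_s3 : ∃ t, chk3 f_A00pp_022_s3 t 144 987 2 = true := ex3_a t1077_A00pp_022_s3 t1074_A00pp_022_s3

theorem t1079_A00pp_022_s3 : ∃ t, chk3 f_A00pp_022_s3 t 72 987 2 = true := ex3_a t1078_A00pp_022_s3 t1073_A00pp_022_s3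

theorem t1080_A00pp_022_s3 : ∃ t, chk3 f_A00pp_022_s3 t 145 986 5 = true := ex3_c k457_A00pp_022_s3 k458_A00pp_022_s3

theorem t1081_A00pp_022_s3 : ∃ t, chk3 f_A00pp_022_s3 t 145 986 2 = true := ex3_c k456_A00pp_022_s3 t1080_A00pp_022_s3

theorem t1082_A00pp_022_s3 : ∃ t, chk3 f_A00pp_022_s3 t 289 986 19 = true := ex3_c k453_A00pp_022_s3 k454_A00pp_022_s3

theorem t1083_A00pp_022_s3 : ∃ t, chk3 f_A00pp_022_s3 t 289 986 9 = true := ex3_c k452_A00pp_022_s3 t1082_A00pp_022_s3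

theorem t1084_A00pp_022_s3 : ∃ t, chk3 f_A00pp_022_s3 t 289 986 4 = true := ex3_c k451_A00pp_022_s3 t1083_A00pp_022_s3

theorem t1085_A00pp_022_s3 : ∃ t, chk3 f_A00pp_022_s3 t 289 986 2 = true := ex3_c t1084_A00pp_022_s3 k455_A00pp_022_s3

theorem t1086_A00pp_022_s3 : ∃ t, chk3 f_A00pp_022_s3 t 577 986 2 = true := ex3_c k449_A00pp_022_s3 k450_A00pp_022_s3

theorem t1087_A00pp_022_s3 : ∃ t, chk3 f_A00pp_022_s3 t 576 986 2 = true := ex3_b k447_A00pp_022_s3 k448_A00pp_022_s3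

theorem t1088_A00pp_022_s3 : ∃ t, chk3 f_A00pp_022_s3 t 288 986 2 = true := ex3_a t1087_A00pp_022_s3 t1086_A00pp_022_s3

theorem t1089_A00pp_022_s3 : ∃ t, chk3 f_A00pp_022_s3 t 144 986 2 = true := ex3_a t1088_A00pp_022_s3 t1085_A00pp_022_s3

theorem t1090_A00pp_022_s3 : ∃ t, chk3 f_A00pp_022_s3 t 72 986 2 = true := ex3_a t1089_A00pp_022_s3 t1081_A00pp_022_s3

theorem t1091_A00pp_022_s3 : ∃ t, chk3 f_A00pp_022_s3 t 72 493 2 = true := ex3_b t1090_A00pp_022_s3 t1079_A00pp_022_s3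

theorem t1092_A00pp_022_s3 : ∃ t, chk3 f_A00pp_022_s3 t 290 492 10 = true := ex3_c k443_A00pp_022_s3 k444_A00pp_022_s3

theorem t1093_A00pp_022_s3 : ∃ t, chk3 f_A00pp_022_s3 t 145 492 10 = true := ex3_a t1092_A00pp_022_s3 k445_A00pp_022_s3

theorem t1094_A00pp_022_s3 : ∃ t, chk3 f_A00pp_022_s3 t 145 492 5 = true := ex3_c t1093_A00pp_022_s3 k446_A00pp_022_s3

theorem t1095_A00pp_022_s3 : ∃ t, chk3 f_A00pp_022_s3 t 291 492 9 = true := ex3_c k441_A00pp_022_s3 k442_A00pp_022_s3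

theorem t1096_A00pp_022_s3 : ∃ t, chk3 f_A00pp_022_s3 t 290 985 19 = true := ex3_c k439_A00pp_022_s3 k440_A00pp_022_s3

theorem t1097_A00pp_022_s3 : ∃ t, chk3 f_A00pp_022_s3 t 290 492 19 = true := ex3_b k438_A00pp_022_s3 t1096_A00pp_022_s3

theorem t1098_A00pp_022_s3 : ∃ t, chk3 f_A00pp_022_s3 t 290 492 9 = true := ex3_c k437_A00pp_022_s3 t1097_A00pp_022_s3

theorem t1099_A00pp_022_s3 : ∃ t, chk3 f_A00pp_022_s3 t 145 492 9 = true := ex3_a t1098_A00pp_022_s3 t1095_A00pp_022_s3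

theorem t1100_A00pp_022_s3 : ∃ t, chk3 f_A00pp_022_s3 t 145 492 4 = true := ex3_c k436_A00pp_022_s3 t1099_A00pp_022_s3

theorem t1101_A00pp_022_s3 : ∃ t, chk3 f_A00pp_022_s3 t 145 492 2 = true := ex3_c t1100_A00pp_022_s3 t1094_A00pp_022_s3

theorem t1102_A00pp_022_s3 : ∃ t, chk3 f_A00pp_022_s3 t 289 985 5 = true := ex3_c k434_A00pp_022_s3 k435_A00pp_022_s3

theorem t1103_A00pp_022_s3 : ∃ t, chk3 f_A00pp_022_s3 t 289 985 2 = true := ex3_c k433_A00pp_022_s3 t1102_A00pp_022_s3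

theorem t1104_A00pp_022_s3 : ∃ t, chk3 f_A00pp_022_s3 t 579 984 2 = true := ex3_c k431_A00pp_022_s3 k432_A00pp_022_s3

theorem t1105_A00pp_022_s3 : ∃ t, chk3 f_A00pp_022_s3 t 578 984 2 = true := ex3_c k429_A00pp_022_s3 k430_A00pp_022_s3

theorem t1106_A00pp_022_s3 : ∃ t, chk3 f_A00pp_022_s3 t 289 984 2 = true := ex3_a t1105_A00pp_022_s3 t1104_A00pp_022_s3

theorem t1107_A00pp_022_s3 : ∃ t, chk3 f_A00pp_022_s3 t 289 492 2 = true := ex3_b t1106_A00pp_022_s3 t1103_A00pp_022_s3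

theorem t1108_A00pp_022_s3 : ∃ t, chk3 f_A00pp_022_s3 t 577 985 2 = true := ex3_b k427_A00pp_022_s3 k428_A00pp_022_s3

theorem t1109_A00pp_022_s3 : ∃ t, chk3 f_A00pp_022_s3 t 576 985 2 = true := ex3_c k425_A00pp_022_s3 k426_A00pp_022_s3

theorem t1110_A00pp_022_s3 : ∃ t, chk3 f_A00pp_022_s3 t 288 985 2 = true := ex3_a t1109_A00pp_022_s3 t1108_A00pp_022_s3

theorem t1111_A00pp_022_s3 : ∃ t, chk3 f_A00pp_022_s3 t 577 984 2 = true := ex3_b k423_A00pp_022_s3 k424_A00pp_022_s3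

theorem t1112_A00pp_022_s3 : ∃ t, chk3 f_A00pp_022_s3 t 576 984 2 = true := ex3_b k421_A00pp_022_s3 k422_A00pp_022_s3

theorem t1113_A00pp_022_s3 : ∃ t, chk3 f_A00pp_022_s3 t 288 984 2 = true := ex3_a t1112_A00pp_022_s3 t1111_A00pp_022_s3

theorem t1114_A00pp_022_s3 : ∃ t, chk3 f_A00pp_022_s3 t 288 492 2 = true := ex3_b t1113_A00pp_022_s3 t1110_A00pp_022_s3

theorem t1115_A00pp_022_s3 : ∃ t, chk3 f_A00pp_022_s3 t 144 492 2 = true := ex3_a t1114_A00pp_022_s3 t1107_A00pp_022_s3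

theorem t1116_A00pp_022_s3 : ∃ t, chk3 f_A00pp_022_s3 t 72 492 2 = true := ex3_a t1115_A00pp_022_s3 t1101_A00pp_022_s3

theorem t1117_A00pp_022_s3 : ∃ t, chk3 f_A00pp_022_s3 t 72 246 2 = true := ex3_b t1116_A00pp_022_s3 t1091_A00pp_022_s3

theorem t1118_A00pp_022_s3 : ∃ t, chk3 f_A00pp_022_s3 t 72 246 1 = true := ex3_c t1117_A00pp_022_s3 t1072_A00pp_022_s3

theorem t1119_A00pp_022_s3 : ∃ t, chk3 f_A00pp_022_s3 t 72 123 1 = true := ex3_b t1118_A00pp_022_s3 t1071_A00pp_022_s3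

theorem t1120_A00pp_022_s3 : ∃ t, chk3 f_A00pp_022_s3 t 36 123 1 = true := ex3_a t1119_A00pp_022_s3 t1057_A00pp_022_s3

theorem t1121_A00pp_022_s3 : ∃ t, chk3 f_A00pp_022_s3 t 146 983 9 = true := ex3_c k416_A00pp_022_s3 k417_A00pp_022_s3

theorem t1122_A00pp_022_s3 : ∃ t, chk3 f_A00pp_022_s3 t 73 983 9 = true := ex3_a t1121_A00pp_022_s3 k418_A00pp_022_s3

theorem t1123_A00pp_022_s3 : ∃ t, chk3 f_A00pp_022_s3 t 73 983 4 = true := ex3_c k415_A00pp_022_s3 t1122_A00pp_022_s3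

theorem t1124_A00pp_022_s3 : ∃ t, chk3 f_A00pp_022_s3 t 73 983 2 = true := ex3_c t1123_A00pp_022_s3 k419_A00pp_022_s3

theorem t1125_A00pp_022_s3 : ∃ t, chk3 f_A00pp_022_s3 t 145 983 10 = true := ex3_a k412_A00pp_022_s3 k413_A00pp_022_s3

theorem t1126_A00pp_022_s3 : ∃ t, chk3 f_A00pp_022_s3 t 145 983 5 = true := ex3_c t1125_A00pp_022_s3 k414_A00pp_022_s3

theorem t1127_A00pp_022_s3 : ∃ t, chk3 f_A00pp_022_s3 t 145 983 9 = true := ex3_a k410_A00pp_022_s3 k411_A00pp_022_s3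

theorem t1128_A00pp_022_s3 : ∃ t, chk3 f_A00pp_022_s3 t 145 983 4 = true := ex3_c k409_A00pp_022_s3 t1127_A00pp_022_s3

theorem t1129_A00pp_022_s3 : ∃ t, chk3 f_A00pp_022_s3 t 145 983 2 = true := ex3_c t1128_A00pp_022_s3 t1126_A00pp_022_s3

theorem t1130_A00pp_022_s3 : ∃ t, chk3 f_A00pp_022_s3 t 289 1967 2 = true := ex3_a k407_A00pp_022_s3 k408_A00pp_022_s3

theorem t1131_A00pp_022_s3 : ∃ t, chk3 f_A00pp_022_s3 t 289 1966 2 = true := ex3_c k405_A00pp_022_s3 k406_A00pp_022_s3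

theorem t1132_A00pp_022_s3 : ∃ t, chk3 f_A00pp_022_s3 t 289 983 2 = true := ex3_b t1131_A00pp_022_s3 t1130_A00pp_022_s3

theorem t1133_A00pp_022_s3 : ∃ t, chk3 f_A00pp_022_s3 t 577 983 2 = true := ex3_b k403_A00pp_022_s3 k404_A00pp_022_s3

theorem t1134_A00pp_022_s3 : ∃ t, chk3 f_A00pp_022_s3 t 576 983 2 = true := ex3_c k401_A00pp_022_s3 k402_A00pp_022_s3

theorem t1135_A00pp_022_s3 : ∃ t, chk3 f_A00pp_022_s3 t 288 983 2 = true := ex3_a t1134_A00pp_022_s3 t1133_A00pp_022_s3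

theorem t1136_A00pp_022_s3 : ∃ t, chk3 f_A00pp_022_s3 t 144 983 2 = true := ex3_a t1135_A00pp_022_s3 t1132_A00pp_022_s3

theorem t1137_A00pp_022_s3 : ∃ t, chk3 f_A00pp_022_s3 t 72 983 2 = true := ex3_a t1136_A00pp_022_s3 t1129_A00pp_022_s3

theorem t1138_A00pp_022_s3 : ∃ t, chk3 f_A00pp_022_s3 t 36 983 2 = true := ex3_a t1137_A00pp_022_s3 t1124_A00pp_022_s3

theorem t1139_A00pp_022_s3 : ∃ t, chk3 f_A00pp_022_s3 t 36 983 1 = true := ex3_c t1138_A00pp_022_s3 k420_A00pp_022_s3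

theorem t1140_A00pp_022_s3 : ∃ t, chk3 f_A00pp_022_s3 t 146 982 18 = true := ex3_b k395_A00pp_022_s3 k396_A00pp_022_s3

theorem t1141_A00pp_022_s3 : ∃ t, chk3 f_A00pp_022_s3 t 146 982 9 = true := ex3_c t1140_A00pp_022_s3 k397_A00pp_022_s3

theorem t1142_A00pp_022_s3 : ∃ t, chk3 f_A00pp_022_s3 t 73 982 9 = true := ex3_a t1141_A00pp_022_s3 k398_A00pp_022_s3

theorem t1143_A00pp_022_s3 : ∃ t, chk3 f_A00pp_022_s3 t 73 982 4 = true := ex3_c k394_A00pp_022_s3 t1142_A00pp_022_s3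

theorem t1144_A00pp_022_s3 : ∃ t, chk3 f_A00pp_022_s3 t 73 982 2 = true := ex3_c t1143_A00pp_022_s3 k399_A00pp_022_s3

theorem t1145_A00pp_022_s3 : ∃ t, chk3 f_A00pp_022_s3 t 73 982 1 = true := ex3_c t1144_A00pp_022_s3 k400_A00pp_022_s3

theorem t1146_A00pp_022_s3 : ∃ t, chk3 f_A00pp_022_s3 t 290 982 10 = true := ex3_c k389_A00pp_022_s3 k390_A00pp_022_s3

theorem t1147_A00pp_022_s3 : ∃ t, chk3 f_A00pp_022_s3 t 145 982 10 = true := ex3_a t1146_A00pp_022_s3 k391_A00pp_022_s3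

theorem t1148_A00pp_022_s3 : ∃ t, chk3 f_A00pp_022_s3 t 145 982 5 = true := ex3_c t1147_A00pp_022_s3 k392_A00pp_022_s3

theorem t1149_A00pp_022_s3 : ∃ t, chk3 f_A00pp_022_s3 t 145 982 19 = true := ex3_a k387_A00pp_022_s3 k388_A00pp_022_s3

theorem t1150_A00pp_022_s3 : ∃ t, chk3 f_A00pp_022_s3 t 145 982 9 = true := ex3_c k386_A00pp_022_s3 t1149_A00pp_022_s3

theorem t1151_A00pp_022_s3 : ∃ t, chk3 f_A00pp_022_s3 t 145 982 4 = true := ex3_c k385_A00pp_022_s3 t1150_A00pp_022_s3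

theorem t1152_A00pp_022_s3 : ∃ t, chk3 f_A00pp_022_s3 t 145 982 2 = true := ex3_c t1151_A00pp_022_s3 t1148_A00pp_022_s3

theorem t1153_A00pp_022_s3 : ∃ t, chk3 f_A00pp_022_s3 t 578 982 2 = true := ex3_b k382_A00pp_022_s3 k383_A00pp_022_s3

theorem t1154_A00pp_022_s3 : ∃ t, chk3 f_A00pp_022_s3 t 289 982 2 = true := ex3_a t1153_A00pp_022_s3 k384_A00pp_022_s3

theorem t1155_A00pp_022_s3 : ∃ t, chk3 f_A00pp_022_s3 t 288 982 10 = true := ex3_c k379_A00pp_022_s3 k380_A00pp_022_s3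

theorem t1156_A00pp_022_s3 : ∃ t, chk3 f_A00pp_022_s3 t 288 982 5 = true := ex3_c t1155_A00pp_022_s3 k381_A00pp_022_s3

theorem t1157_A00pp_022_s3 : ∃ t, chk3 f_A00pp_022_s3 t 288 982 2 = true := ex3_c k378_A00pp_022_s3 t1156_A00pp_022_s3

theorem t1158_A00pp_022_s3 : ∃ t, chk3 f_A00pp_022_s3 t 144 982 2 = true := ex3_a t1157_A00pp_022_s3 t1154_A00pp_022_s3

theorem t1159_A00pp_022_s3 : ∃ t, chk3 f_A00pp_022_s3 t 72 982 2 = true := ex3_a t1158_A00pp_022_s3 t1152_A00pp_022_s3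

theorem t1160_A00pp_022_s3 : ∃ t, chk3 f_A00pp_022_s3 t 72 982 1 = true := ex3_c t1159_A00pp_022_s3 k393_A00pp_022_s3

theorem t1161_A00pp_022_s3 : ∃ t, chk3 f_A00pp_022_s3 t 36 982 1 = true := ex3_a t1160_A00pp_022_s3 t1145_A00pp_022_s3

theorem t1162_A00pp_022_s3 : ∃ t, chk3 f_A00pp_022_s3 t 36 491 1 = true := ex3_b t1161_A00pp_022_s3 t1139_A00pp_022_s3

theorem t1163_A00pp_022_s3 : ∃ t, chk3 f_A00pp_022_s3 t 292 490 20 = true := ex3_a k371_A00pp_022_s3 k372_A00pp_022_s3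

theorem t1164_A00pp_022_s3 : ∃ t, chk3 f_A00pp_022_s3 t 146 490 20 = true := ex3_a t1163_A00pp_022_s3 k373_A00pp_022_s3

theorem t1165_A00pp_022_s3 : ∃ t, chk3 f_A00pp_022_s3 t 146 490 10 = true := ex3_c t1164_A00pp_022_s3 k374_A00pp_022_s3

theorem t1166_A00pp_022_s3 : ∃ t, chk3 f_A00pp_022_s3 t 146 490 5 = true := ex3_c t1165_A00pp_022_s3 k375_A00pp_022_s3

theorem t1167_A00pp_022_s3 : ∃ t, chk3 f_A00pp_022_s3 t 73 490 5 = true := ex3_a t1166_A00pp_022_s3 k376_A00pp_022_s3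

theorem t1168_A00pp_022_s3 : ∃ t, chk3 f_A00pp_022_s3 t 294 490 9 = true := ex3_a k368_A00pp_022_s3 k369_A00pp_022_s3

theorem t1169_A00pp_022_s3 : ∃ t, chk3 f_A00pp_022_s3 t 147 490 9 = true := ex3_a t1168_A00pp_022_s3 k370_A00pp_022_s3

theorem t1170_A00pp_022_s3 : ∃ t, chk3 f_A00pp_022_s3 t 147 490 8 = true := ex3_b k366_A00pp_022_s3 k367_A00pp_022_s3

theorem t1171_A00pp_022_s3 : ∃ t, chk3 f_A00pp_022_s3 t 147 490 4 = true := ex3_c t1170_A00pp_022_s3 t1169_A00pp_022_s3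

theorem t1172_A00pp_022_s3 : ∃ t, chk3 f_A00pp_022_s3 t 293 490 18 = true := ex3_b k363_A00pp_022_s3 k364_A00pp_022_s3

theorem t1173_A00pp_022_s3 : ∃ t, chk3 f_A00pp_022_s3 t 293 490 9 = true := ex3_c t1172_A00pp_022_s3 k365_A00pp_022_s3

theorem t1174_A00pp_022_s3 : ∃ t, chk3 f_A00pp_022_s3 t 292 490 9 = true := ex3_c k361_A00pp_022_s3 k362_A00pp_022_s3

theorem t1175_A00pp_022_s3 : ∃ t, chk3 f_A00pp_022_s3 t 146 490 9 = true := ex3_a t1174_A00pp_022_s3 t1173_A00pp_022_s3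

theorem t1176_A00pp_022_s3 : ∃ t, chk3 f_A00pp_022_s3 t 146 490 4 = true := ex3_c k360_A00pp_022_s3 t1175_A00pp_022_s3

theorem t1177_A00pp_022_s3 : ∃ t, chk3 f_A00pp_022_s3 t 73 490 4 = true := ex3_a t1176_A00pp_022_s3 t1171_A00pp_022_s3

theorem t1178_A00pp_022_s3 : ∃ t, chk3 f_A00pp_022_s3 t 73 490 2 = true := ex3_c t1177_A00pp_022_s3 t1167_A00pp_022_s3

theorem t1179_A00pp_022_s3 : ∃ t, chk3 f_A00pp_022_s3 t 73 490 1 = true := ex3_c t1178_A00pp_022_s3 k377_A00pp_022_s3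

theorem t1180_A00pp_022_s3 : ∃ t, chk3 f_A00pp_022_s3 t 291 981 2 = true := ex3_c k357_A00pp_022_s3 k358_A00pp_022_s3

theorem t1181_A00pp_022_s3 : ∃ t, chk3 f_A00pp_022_s3 t 290 981 2 = true := ex3_a k355_A00pp_022_s3 k356_A00pp_022_s3

theorem t1182_A00pp_022_s3 : ∃ t, chk3 f_A00pp_022_s3 t 145 981 2 = true := ex3_a t1181_A00pp_022_s3 t1180_A00pp_022_s3

theorem t1183_A00pp_022_s3 : ∃ t, chk3 f_A00pp_022_s3 t 291 980 2 = true := ex3_c k353_A00pp_022_s3 k354_A00pp_022_s3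

theorem t1184_A00pp_022_s3 : ∃ t, chk3 f_A00pp_022_s3 t 290 1960 2 = true := ex3_a k350_A00pp_022_s3 k351_A00pp_022_s3

theorem t1185_A00pp_022_s3 : ∃ t, chk3 f_A00pp_022_s3 t 290 980 2 = true := ex3_b t1184_A00pp_022_s3 k352_A00pp_022_s3

theorem t1186_A00pp_022_s3 : ∃ t, chk3 f_A00pp_022_s3 t 145 980 2 = true := ex3_a t1185_A00pp_022_s3 t1183_A00pp_022_s3

theorem t1187_A00pp_022_s3 : ∃ t, chk3 f_A00pp_022_s3 t 145 490 2 = true := ex3_b t1186_A00pp_022_s3 t1182_A00pp_022_s3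

theorem t1188_A00pp_022_s3 : ∃ t, chk3 f_A00pp_022_s3 t 578 981 5 = true := ex3_c k347_A00pp_022_s3 k348_A00pp_022_s3

theorem t1189_A00pp_022_s3 : ∃ t, chk3 f_A00pp_022_s3 t 578 981 2 = true := ex3_c k346_A00pp_022_s3 t1188_A00pp_022_s3

theorem t1190_A00pp_022_s3 : ∃ t, chk3 f_A00pp_022_s3 t 289 981 2 = true := ex3_a t1189_A00pp_022_s3 k349_A00pp_022_s3

theorem t1191_A00pp_022_s3 : ∃ t, chk3 f_A00pp_022_s3 t 579 980 5 = true := ex3_c k344_A00pp_022_s3 k345_A00pp_022_s3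

theorem t1192_A00pp_022_s3 : ∃ t, chk3 f_A00pp_022_s3 t 579 980 2 = true := ex3_c k343_A00pp_022_s3 t1191_A00pp_022_s3

theorem t1193_A00pp_022_s3 : ∃ t, chk3 f_A00pp_022_s3 t 289 980 2 = true := ex3_a k342_A00pp_022_s3 t1192_A00pp_022_s3

theorem t1194_A00pp_022_s3 : ∃ t, chk3 f_A00pp_022_s3 t 289 490 2 = true := ex3_b t1193_A00pp_022_s3 t1190_A00pp_022_s3

theorem t1195_A00pp_022_s3 : ∃ t, chk3 f_A00pp_022_s3 t 288 981 10 = true := ex3_c k339_A00pp_022_s3 k340_A00pp_022_s3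

theorem t1196_A00pp_022_s3 : ∃ t, chk3 f_A00pp_022_s3 t 288 981 5 = true := ex3_c t1195_A00pp_022_s3 k341_A00pp_022_s3

theorem t1197_A00pp_022_s3 : ∃ t, chk3 f_A00pp_022_s3 t 288 981 2 = true := ex3_c k338_A00pp_022_s3 t1196_A00pp_022_s3

theorem t1198_A00pp_022_s3 : ∃ t, chk3 f_A00pp_022_s3 t 288 980 5 = true := ex3_c k336_A00pp_022_s3 k337_A00pp_022_s3

theorem t1199_A00pp_022_s3 : ∃ t, chk3 f_A00pp_022_s3 t 288 980 2 = true := ex3_c k335_A00pp_022_s3 t1198_A00pp_022_s3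

theorem t1200_A00pp_022_s3 : ∃ t, chk3 f_A00pp_022_s3 t 288 490 2 = true := ex3_b t1199_A00pp_022_s3 t1197_A00pp_022_s3

theorem t1201_A00pp_022_s3 : ∃ t, chk3 f_A00pp_022_s3 t 144 490 2 = true := ex3_a t1200_A00pp_022_s3 t1194_A00pp_022_s3

theorem t1202_A00pp_022_s3 : ∃ t, chk3 f_A00pp_022_s3 t 72 490 2 = true := ex3_a t1201_A00pp_022_s3 t1187_A00pp_022_s3

theorem t1203_A00pp_022_s3 : ∃ t, chk3 f_A00pp_022_s3 t 72 490 1 = true := ex3_c t1202_A00pp_022_s3 k359_A00pp_022_s3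

theorem t1204_A00pp_022_s3 : ∃ t, chk3 f_A00pp_022_s3 t 36 490 1 = true := ex3_a t1203_A00pp_022_s3 t1179_A00pp_022_s3

theorem t1205_A00pp_022_s3 : ∃ t, chk3 f_A00pp_022_s3 t 36 245 1 = true := ex3_b t1204_A00pp_022_s3 t1162_A00pp_022_s3

theorem t1206_A00pp_022_s3 : ∃ t, chk3 f_A00pp_022_s3 t 293 489 20 = true := ex3_a k329_A00pp_022_s3 k330_A00pp_022_s3

theorem t1207_A00pp_022_s3 : ∃ t, chk3 f_A00pp_022_s3 t 292 489 20 = true := ex3_a k327_A00pp_022_s3 k328_A00pp_022_s3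

theorem t1208_A00pp_022_s3 : ∃ t, chk3 f_A00pp_022_s3 t 146 489 20 = true := ex3_a t1207_A00pp_022_s3 t1206_A00pp_022_s3

theorem t1209_A00pp_022_s3 : ∃ t, chk3 f_A00pp_022_s3 t 146 489 10 = true := ex3_c t1208_A00pp_022_s3 k331_A00pp_022_s3

theorem t1210_A00pp_022_s3 : ∃ t, chk3 f_A00pp_022_s3 t 146 489 5 = true := ex3_c t1209_A00pp_022_s3 k332_A00pp_022_s3

theorem t1211_A00pp_022_s3 : ∃ t, chk3 f_A00pp_022_s3 t 73 489 5 = true := ex3_a t1210_A00pp_022_s3 k333_A00pp_022_s3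

theorem t1212_A00pp_022_s3 : ∃ t, chk3 f_A00pp_022_s3 t 147 489 19 = true := ex3_a k325_A00pp_022_s3 k326_A00pp_022_s3

theorem t1213_A00pp_022_s3 : ∃ t, chk3 f_A00pp_022_s3 t 147 489 18 = true := ex3_b k323_A00pp_022_s3 k324_A00pp_022_s3

theorem t1214_A00pp_022_s3 : ∃ t, chk3 f_A00pp_022_s3 t 147 489 9 = true := ex3_c t1213_A00pp_022_s3 t1212_A00pp_022_s3

theorem t1215_A00pp_022_s3 : ∃ t, chk3 f_A00pp_022_s3 t 295 489 17 = true := ex3_c k321_A00pp_022_s3 k322_A00pp_022_s3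

theorem t1216_A00pp_022_s3 : ∃ t, chk3 f_A00pp_022_s3 t 147 489 17 = true := ex3_a k320_A00pp_022_s3 t1215_A00pp_022_s3

theorem t1217_A00pp_022_s3 : ∃ t, chk3 f_A00pp_022_s3 t 147 489 8 = true := ex3_c k319_A00pp_022_s3 t1216_A00pp_022_s3

theorem t1218_A00pp_022_s3 : ∃ t, chk3 f_A00pp_022_s3 t 147 489 4 = true := ex3_c t1217_A00pp_022_s3 t1214_A00pp_022_s3

theorem t1219_A00pp_022_s3 : ∃ t, chk3 f_A00pp_022_s3 t 292 489 19 = true := ex3_c k316_A00pp_022_s3 k317_A00pp_022_s3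

theorem t1220_A00pp_022_s3 : ∃ t, chk3 f_A00pp_022_s3 t 146 489 19 = true := ex3_a t1219_A00pp_022_s3 k318_A00pp_022_s3

theorem t1221_A00pp_022_s3 : ∃ t, chk3 f_A00pp_022_s3 t 146 489 18 = true := ex3_a k314_A00pp_022_s3 k315_A00pp_022_s3

theorem t1222_A00pp_022_s3 : ∃ t, chk3 f_A00pp_022_s3 t 146 489 9 = true := ex3_c t1221_A00pp_022_s3 t1220_A00pp_022_s3

theorem t1223_A00pp_022_s3 : ∃ t, chk3 f_A00pp_022_s3 t 146 489 4 = true := ex3_c k313_A00pp_022_s3 t1222_A00pp_022_s3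

theorem t1224_A00pp_022_s3 : ∃ t, chk3 f_A00pp_022_s3 t 73 489 4 = true := ex3_a t1223_A00pp_022_s3 t1218_A00pp_022_s3

theorem t1225_A00pp_022_s3 : ∃ t, chk3 f_A00pp_022_s3 t 73 489 2 = true := ex3_c t1224_A00pp_022_s3 t1211_A00pp_022_s3

theorem t1226_A00pp_022_s3 : ∃ t, chk3 f_A00pp_022_s3 t 73 489 1 = true := ex3_c t1225_A00pp_022_s3 k334_A00pp_022_s3

theorem t1227_A00pp_022_s3 : ∃ t, chk3 f_A00pp_022_s3 t 291 979 2 = true := ex3_c k310_A00pp_022_s3 k311_A00pp_022_s3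

theorem t1228_A00pp_022_s3 : ∃ t, chk3 f_A00pp_022_s3 t 580 979 2 = true := ex3_c k307_A00pp_022_s3 k308_A00pp_022_s3

theorem t1229_A00pp_022_s3 : ∃ t, chk3 f_A00pp_022_s3 t 290 979 2 = true := ex3_a t1228_A00pp_022_s3 k309_A00pp_022_s3

theorem t1230_A00pp_022_s3 : ∃ t, chk3 f_A00pp_022_s3 t 145 979 2 = true := ex3_a t1229_A00pp_022_s3 t1227_A00pp_022_s3

theorem t1231_A00pp_022_s3 : ∃ t, chk3 f_A00pp_022_s3 t 291 978 10 = true := ex3_c k304_A00pp_022_s3 k305_A00pp_022_s3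

theorem t1232_A00pp_022_s3 : ∃ t, chk3 f_A00pp_022_s3 t 291 978 5 = true := ex3_c t1231_A00pp_022_s3 k306_A00pp_022_s3

theorem t1233_A00pp_022_s3 : ∃ t, chk3 f_A00pp_022_s3 t 291 978 2 = true := ex3_c k303_A00pp_022_s3 t1232_A00pp_022_s3

theorem t1234_A00pp_022_s3 : ∃ t, chk3 f_A00pp_022_s3 t 290 978 2 = true := ex3_a k301_A00pp_022_s3 k302_A00pp_022_s3

theorem t1235_A00pp_022_s3 : ∃ t, chk3 f_A00pp_022_s3 t 145 978 2 = true := ex3_a t1234_A00pp_022_s3 t1233_A00pp_022_s3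

theorem t1236_A00pp_022_s3 : ∃ t, chk3 f_A00pp_022_s3 t 145 489 2 = true := ex3_b t1235_A00pp_022_s3 t1230_A00pp_022_s3

theorem t1237_A00pp_022_s3 : ∃ t, chk3 f_A00pp_022_s3 t 289 489 41 = true := ex3_a k297_A00pp_022_s3 k298_A00pp_022_s3

theorem t1238_A00pp_022_s3 : ∃ t, chk3 f_A00pp_022_s3 t 289 489 20 = true := ex3_c k296_A00pp_022_s3 t1237_A00pp_022_s3

theorem t1239_A00pp_022_s3 : ∃ t, chk3 f_A00pp_022_s3 t 289 489 10 = true := ex3_c t1238_A00pp_022_s3 k299_A00pp_022_s3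

theorem t1240_A00pp_022_s3 : ∃ t, chk3 f_A00pp_022_s3 t 289 489 5 = true := ex3_c t1239_A00pp_022_s3 k300_A00pp_022_s3

theorem t1241_A00pp_022_s3 : ∃ t, chk3 f_A00pp_022_s3 t 289 489 2 = true := ex3_c k295_A00pp_022_s3 t1240_A00pp_022_s3

theorem t1242_A00pp_022_s3 : ∃ t, chk3 f_A00pp_022_s3 t 288 489 10 = true := ex3_c k292_A00pp_022_s3 k293_A00pp_022_s3

theorem t1243_A00pp_022_s3 : ∃ t, chk3 f_A00pp_022_s3 t 288 489 5 = true := ex3_c t1242_A00pp_022_s3 k294_A00pp_022_s3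

theorem t1244_A00pp_022_s3 : ∃ t, chk3 f_A00pp_022_s3 t 288 489 2 = true := ex3_c k291_A00pp_022_s3 t1243_A00pp_022_s3

theorem t1245_A00pp_022_s3 : ∃ t, chk3 f_A00pp_022_s3 t 144 489 2 = true := ex3_a t1244_A00pp_022_s3 t1241_A00pp_022_s3

theorem t1246_A00pp_022_s3 : ∃ t, chk3 f_A00pp_022_s3 t 72 489 2 = true := ex3_a t1245_A00pp_022_s3 t1236_A00pp_022_s3

theorem t1247_A00pp_022_s3 : ∃ t, chk3 f_A00pp_022_s3 t 72 489 1 = true := ex3_c t1246_A00pp_022_s3 k312_A00pp_022_s3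

theorem t1248_A00pp_022_s3 : ∃ t, chk3 f_A00pp_022_s3 t 36 489 1 = true := ex3_a t1247_A00pp_022_s3 t1226_A00pp_022_s3

theorem t1249_A00pp_022_s3 : ∃ t, chk3 f_A00pp_022_s3 t 146 488 10 = true := ex3_a k286_A00pp_022_s3 k287_A00pp_022_s3

theorem t1250_A00pp_022_s3 : ∃ t, chk3 f_A00pp_022_s3 t 146 488 5 = true := ex3_c t1249_A00pp_022_s3 k288_A00pp_022_s3

theorem t1251_A00pp_022_s3 : ∃ t, chk3 f_A00pp_022_s3 t 73 488 5 = true := ex3_a t1250_A00pp_022_s3 k289_A00pp_022_s3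

theorem t1252_A00pp_022_s3 : ∃ t, chk3 f_A00pp_022_s3 t 147 488 19 = true := ex3_a k284_A00pp_022_s3 k285_A00pp_022_s3

theorem t1253_A00pp_022_s3 : ∃ t, chk3 f_A00pp_022_s3 t 294 488 18 = true := ex3_c k281_A00pp_022_s3 k282_A00pp_022_s3

theorem t1254_A00pp_022_s3 : ∃ t, chk3 f_A00pp_022_s3 t 147 488 18 = true := ex3_a t1253_A00pp_022_s3 k283_A00pp_022_s3

theorem t1255_A00pp_022_s3 : ∃ t, chk3 f_A00pp_022_s3 t 147 488 9 = true := ex3_c t1254_A00pp_022_s3 t1252_A00pp_022_s3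

theorem t1256_A00pp_022_s3 : ∃ t, chk3 f_A00pp_022_s3 t 147 488 8 = true := ex3_c k279_A00pp_022_s3 k280_A00pp_022_s3

theorem t1257_A00pp_022_s3 : ∃ t, chk3 f_A00pp_022_s3 t 147 488 4 = true := ex3_c t1256_A00pp_022_s3 t1255_A00pp_022_s3

theorem t1258_A00pp_022_s3 : ∃ t, chk3 f_A00pp_022_s3 t 584 488 39 = true := ex3_c k275_A00pp_022_s3 k276_A00pp_022_s3

theorem t1259_A00pp_022_s3 : ∃ t, chk3 f_A00pp_022_s3 t 292 488 39 = true := ex3_a t1258_A00pp_022_s3 k277_A00pp_022_s3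

theorem t1260_A00pp_022_s3 : ∃ t, chk3 f_A00pp_022_s3 t 292 488 19 = true := ex3_c k274_A00pp_022_s3 t1259_A00pp_022_s3

theorem t1261_A00pp_022_s3 : ∃ t, chk3 f_A00pp_022_s3 t 146 488 19 = true := ex3_a t1260_A00pp_022_s3 k278_A00pp_022_s3

theorem t1262_A00pp_022_s3 : ∃ t, chk3 f_A00pp_022_s3 t 146 488 9 = true := ex3_c k273_A00pp_022_s3 t1261_A00pp_022_s3

theorem t1263_A00pp_022_s3 : ∃ t, chk3 f_A00pp_022_s3 t 146 488 4 = true := ex3_c k272_A00pp_022_s3 t1262_A00pp_022_s3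

theorem t1264_A00pp_022_s3 : ∃ t, chk3 f_A00pp_022_s3 t 73 488 4 = true := ex3_a t1263_A00pp_022_s3 t1257_A00pp_022_s3

theorem t1265_A00pp_022_s3 : ∃ t, chk3 f_A00pp_022_s3 t 73 488 2 = true := ex3_c t1264_A00pp_022_s3 t1251_A00pp_022_s3

theorem t1266_A00pp_022_s3 : ∃ t, chk3 f_A00pp_022_s3 t 73 488 1 = true := ex3_c t1265_A00pp_022_s3 k290_A00pp_022_s3

theorem t1267_A00pp_022_s3 : ∃ t, chk3 f_A00pp_022_s3 t 291 977 2 = true := ex3_b k269_A00pp_022_s3 k270_A00pp_022_s3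

theorem t1268_A00pp_022_s3 : ∃ t, chk3 f_A00pp_022_s3 t 291 976 2 = true := ex3_c k267_A00pp_022_s3 k268_A00pp_022_s3

theorem t1269_A00pp_022_s3 : ∃ t, chk3 f_A00pp_022_s3 t 291 488 2 = true := ex3_b t1268_A00pp_022_s3 t1267_A00pp_022_s3

theorem t1270_A00pp_022_s3 : ∃ t, chk3 f_A00pp_022_s3 t 290 977 5 = true := ex3_c k265_A00pp_022_s3 k266_A00pp_022_s3

theorem t1271_A00pp_022_s3 : ∃ t, chk3 f_A00pp_022_s3 t 290 977 2 = true := ex3_c k264_A00pp_022_s3 t1270_A00pp_022_s3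

theorem t1272_A00pp_022_s3 : ∃ t, chk3 f_A00pp_022_s3 t 290 976 2 = true := ex3_c k262_A00pp_022_s3 k263_A00pp_022_s3

theorem t1273_A00pp_022_s3 : ∃ t, chk3 f_A00pp_022_s3 t 290 488 2 = true := ex3_b t1272_A00pp_022_s3 t1271_A00pp_022_s3

theorem t1274_A00pp_022_s3 : ∃ t, chk3 f_A00pp_022_s3 t 145 488 2 = true := ex3_a t1273_A00pp_022_s3 t1269_A00pp_022_s3

theorem t1275_A00pp_022_s3 : ∃ t, chk3 f_A00pp_022_s3 t 144 488 10 = true := ex3_a k259_A00pp_022_s3 k260_A00pp_022_s3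

theorem t1276_A00pp_022_s3 : ∃ t, chk3 f_A00pp_022_s3 t 144 488 5 = true := ex3_c t1275_A00pp_022_s3 k261_A00pp_022_s3

theorem t1277_A00pp_022_s3 : ∃ t, chk3 f_A00pp_022_s3 t 144 488 2 = true := ex3_c k258_A00pp_022_s3 t1276_A00pp_022_s3

theorem t1278_A00pp_022_s3 : ∃ t, chk3 f_A00pp_022_s3 t 72 488 2 = true := ex3_a t1277_A00pp_022_s3 t1274_A00pp_022_s3

theorem t1279_A00pp_022_s3 : ∃ t, chk3 f_A00pp_022_s3 t 72 488 1 = true := ex3_c t1278_A00pp_022_s3 k271_A00pp_022_s3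

theorem t1280_A00pp_022_s3 : ∃ t, chk3 f_A00pp_022_s3 t 36 488 1 = true := ex3_a t1279_A00pp_022_s3 t1266_A00pp_022_s3

theorem t1281_A00pp_022_s3 : ∃ t, chk3 f_A00pp_022_s3 t 36 244 1 = true := ex3_b t1280_A00pp_022_s3 t1248_A00pp_022_s3

theorem t1282_A00pp_022_s3 : ∃ t, chk3 f_A00pp_022_s3 t 36 122 1 = true := ex3_b t1281_A00pp_022_s3 t1205_A00pp_022_s3

theorem t1283_A00pp_022_s3 : ∃ t, chk3 f_A00pp_022_s3 t 36 61 1 = true := ex3_b t1282_A00pp_022_s3 t1120_A00pp_022_s3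

theorem t1284_A00pp_022_s3 : ∃ t, chk3 f_A00pp_022_s3 t 147 487 20 = true := ex3_a k253_A00pp_022_s3 k254_A00pp_022_s3

theorem t1285_A00pp_022_s3 : ∃ t, chk3 f_A00pp_022_s3 t 147 487 10 = true := ex3_c t1284_A00pp_022_s3 k255_A00pp_022_s3

theorem t1286_A00pp_022_s3 : ∃ t, chk3 f_A00pp_022_s3 t 147 487 5 = true := ex3_c t1285_A00pp_022_s3 k256_A00pp_022_s3

theorem t1287_A00pp_022_s3 : ∃ t, chk3 f_A00pp_022_s3 t 147 487 19 = true := ex3_a k251_A00pp_022_s3 k252_A00pp_022_s3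

theorem t1288_A00pp_022_s3 : ∃ t, chk3 f_A00pp_022_s3 t 147 487 18 = true := ex3_a k249_A00pp_022_s3 k250_A00pp_022_s3

theorem t1289_A00pp_022_s3 : ∃ t, chk3 f_A00pp_022_s3 t 147 487 9 = true := ex3_c t1288_A00pp_022_s3 t1287_A00pp_022_s3

theorem t1290_A00pp_022_s3 : ∃ t, chk3 f_A00pp_022_s3 t 147 487 4 = true := ex3_c k248_A00pp_022_s3 t1289_A00pp_022_s3

theorem t1291_A00pp_022_s3 : ∃ t, chk3 f_A00pp_022_s3 t 147 487 2 = true := ex3_c t1290_A00pp_022_s3 t1286_A00pp_022_s3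

theorem t1292_A00pp_022_s3 : ∃ t, chk3 f_A00pp_022_s3 t 293 487 38 = true := ex3_a k244_A00pp_022_s3 k245_A00pp_022_s3

theorem t1293_A00pp_022_s3 : ∃ t, chk3 f_A00pp_022_s3 t 293 487 19 = true := ex3_c t1292_A00pp_022_s3 k246_A00pp_022_s3

theorem t1294_A00pp_022_s3 : ∃ t, chk3 f_A00pp_022_s3 t 293 487 9 = true := ex3_c k243_A00pp_022_s3 t1293_A00pp_022_s3

theorem t1295_A00pp_022_s3 : ∃ t, chk3 f_A00pp_022_s3 t 293 487 4 = true := ex3_c k242_A00pp_022_s3 t1294_A00pp_022_s3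

theorem t1296_A00pp_022_s3 : ∃ t, chk3 f_A00pp_022_s3 t 293 487 2 = true := ex3_c t1295_A00pp_022_s3 k247_A00pp_022_s3

theorem t1297_A00pp_022_s3 : ∃ t, chk3 f_A00pp_022_s3 t 292 975 2 = true := ex3_c k240_A00pp_022_s3 k241_A00pp_022_s3

theorem t1298_A00pp_022_s3 : ∃ t, chk3 f_A00pp_022_s3 t 292 487 2 = true := ex3_b k239_A00pp_022_s3 t1297_A00pp_022_s3

theorem t1299_A00pp_022_s3 : ∃ t, chk3 f_A00pp_022_s3 t 146 487 2 = true := ex3_a t1298_A00pp_022_s3 t1296_A00pp_022_s3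

theorem t1300_A00pp_022_s3 : ∃ t, chk3 f_A00pp_022_s3 t 73 487 2 = true := ex3_a t1299_A00pp_022_s3 t1291_A00pp_022_s3

theorem t1301_A00pp_022_s3 : ∃ t, chk3 f_A00pp_022_s3 t 147 486 10 = true := ex3_c k236_A00pp_022_s3 k237_A00pp_022_s3

theorem t1302_A00pp_022_s3 : ∃ t, chk3 f_A00pp_022_s3 t 147 486 5 = true := ex3_c t1301_A00pp_022_s3 k238_A00pp_022_s3

theorem t1303_A00pp_022_s3 : ∃ t, chk3 f_A00pp_022_s3 t 147 486 19 = true := ex3_a k234_A00pp_022_s3 k235_A00pp_022_s3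

theorem t1304_A00pp_022_s3 : ∃ t, chk3 f_A00pp_022_s3 t 295 486 37 = true := ex3_a k232_A00pp_022_s3 k233_A00pp_022_s3

theorem t1305_A00pp_022_s3 : ∃ t, chk3 f_A00pp_022_s3 t 295 486 18 = true := ex3_c k231_A00pp_022_s3 t1304_A00pp_022_s3

theorem t1306_A00pp_022_s3 : ∃ t, chk3 f_A00pp_022_s3 t 147 486 18 = true := ex3_a k230_A00pp_022_s3 t1305_A00pp_022_s3

theorem t1307_A00pp_022_s3 : ∃ t, chk3 f_A00pp_022_s3 t 147 486 9 = true := ex3_c t1306_A00pp_022_s3 t1303_A00pp_022_s3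

theorem t1308_A00pp_022_s3 : ∃ t, chk3 f_A00pp_022_s3 t 147 486 4 = true := ex3_c k229_A00pp_022_s3 t1307_A00pp_022_s3

theorem t1309_A00pp_022_s3 : ∃ t, chk3 f_A00pp_022_s3 t 147 486 2 = true := ex3_c t1308_A00pp_022_s3 t1302_A00pp_022_s3

theorem t1310_A00pp_022_s3 : ∃ t, chk3 f_A00pp_022_s3 t 146 973 4 = true := ex3_c k226_A00pp_022_s3 k227_A00pp_022_s3

theorem t1311_A00pp_022_s3 : ∃ t, chk3 f_A00pp_022_s3 t 146 973 2 = true := ex3_c t1310_A00pp_022_s3 k228_A00pp_022_s3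

theorem t1312_A00pp_022_s3 : ∃ t, chk3 f_A00pp_022_s3 t 146 972 2 = true := ex3_c k224_A00pp_022_s3 k225_A00pp_022_s3

theorem t1313_A00pp_022_s3 : ∃ t, chk3 f_A00pp_022_s3 t 146 486 2 = true := ex3_b t1312_A00pp_022_s3 t1311_A00pp_022_s3

theorem t1314_A00pp_022_s3 : ∃ t, chk3 f_A00pp_022_s3 t 73 486 2 = true := ex3_a t1313_A00pp_022_s3 t1309_A00pp_022_s3

theorem t1315_A00pp_022_s3 : ∃ t, chk3 f_A00pp_022_s3 t 73 243 2 = true := ex3_b t1314_A00pp_022_s3 t1300_A00pp_022_s3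

theorem t1316_A00pp_022_s3 : ∃ t, chk3 f_A00pp_022_s3 t 147 485 18 = true := ex3_a k220_A00pp_022_s3 k221_A00pp_022_s3

theorem t1317_A00pp_022_s3 : ∃ t, chk3 f_A00pp_022_s3 t 147 485 9 = true := ex3_c t1316_A00pp_022_s3 k222_A00pp_022_s3

theorem t1318_A00pp_022_s3 : ∃ t, chk3 f_A00pp_022_s3 t 147 485 4 = true := ex3_c k219_A00pp_022_s3 t1317_A00pp_022_s3

theorem t1319_A00pp_022_s3 : ∃ t, chk3 f_A00pp_022_s3 t 147 485 2 = true := ex3_c t1318_A00pp_022_s3 k223_A00pp_022_s3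

theorem t1320_A00pp_022_s3 : ∃ t, chk3 f_A00pp_022_s3 t 293 485 2 = true := ex3_c k217_A00pp_022_s3 k218_A00pp_022_s3

theorem t1321_A00pp_022_s3 : ∃ t, chk3 f_A00pp_022_s3 t 292 485 2 = true := ex3_c k215_A00pp_022_s3 k216_A00pp_022_s3

theorem t1322_A00pp_022_s3 : ∃ t, chk3 f_A00pp_022_s3 t 146 485 2 = true := ex3_a t1321_A00pp_022_s3 t1320_A00pp_022_s3

theorem t1323_A00pp_022_s3 : ∃ t, chk3 f_A00pp_022_s3 t 73 485 2 = true := ex3_a t1322_A00pp_022_s3 t1319_A00pp_022_s3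

theorem t1324_A00pp_022_s3 : ∃ t, chk3 f_A00pp_022_s3 t 147 484 9 = true := ex3_c k212_A00pp_022_s3 k213_A00pp_022_s3

theorem t1325_A00pp_022_s3 : ∃ t, chk3 f_A00pp_022_s3 t 147 484 4 = true := ex3_c k211_A00pp_022_s3 t1324_A00pp_022_s3

theorem t1326_A00pp_022_s3 : ∃ t, chk3 f_A00pp_022_s3 t 147 484 2 = true := ex3_c t1325_A00pp_022_s3 k214_A00pp_022_s3

theorem t1327_A00pp_022_s3 : ∃ t, chk3 f_A00pp_022_s3 t 146 484 2 = true := ex3_a k209_A00pp_022_s3 k210_A00pp_022_s3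

theorem t1328_A00pp_022_s3 : ∃ t, chk3 f_A00pp_022_s3 t 73 484 2 = true := ex3_a t1327_A00pp_022_s3 t1326_A00pp_022_s3

theorem t1329_A00pp_022_s3 : ∃ t, chk3 f_A00pp_022_s3 t 73 242 2 = true := ex3_b t1328_A00pp_022_s3 t1323_A00pp_022_s3

theorem t1330_A00pp_022_s3 : ∃ t, chk3 f_A00pp_022_s3 t 73 121 2 = true := ex3_b t1329_A00pp_022_s3 t1315_A00pp_022_s3

theorem t1331_A00pp_022_s3 : ∃ t, chk3 f_A00pp_022_s3 t 73 121 1 = true := ex3_c t1330_A00pp_022_s3 k257_A00pp_022_s3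

theorem t1332_A00pp_022_s3 : ∃ t, chk3 f_A00pp_022_s3 t 147 241 10 = true := ex3_c k205_A00pp_022_s3 k206_A00pp_022_s3

theorem t1333_A00pp_022_s3 : ∃ t, chk3 f_A00pp_022_s3 t 147 241 5 = true := ex3_c t1332_A00pp_022_s3 k207_A00pp_022_s3

theorem t1334_A00pp_022_s3 : ∃ t, chk3 f_A00pp_022_s3 t 147 483 9 = true := ex3_c k203_A00pp_022_s3 k204_A00pp_022_s3

theorem t1335_A00pp_022_s3 : ∃ t, chk3 f_A00pp_022_s3 t 147 483 4 = true := ex3_c k202_A00pp_022_s3 t1334_A00pp_022_s3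

theorem t1336_A00pp_022_s3 : ∃ t, chk3 f_A00pp_022_s3 t 147 241 4 = true := ex3_b k201_A00pp_022_s3 t1335_A00pp_022_s3

theorem t1337_A00pp_022_s3 : ∃ t, chk3 f_A00pp_022_s3 t 147 241 2 = true := ex3_c t1336_A00pp_022_s3 t1333_A00pp_022_s3

theorem t1338_A00pp_022_s3 : ∃ t, chk3 f_A00pp_022_s3 t 293 241 2 = true := ex3_c k199_A00pp_022_s3 k200_A00pp_022_s3

theorem t1339_A00pp_022_s3 : ∃ t, chk3 f_A00pp_022_s3 t 292 241 4 = true := ex3_c k196_A00pp_022_s3 k197_A00pp_022_s3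

theorem t1340_A00pp_022_s3 : ∃ t, chk3 f_A00pp_022_s3 t 292 241 2 = true := ex3_c t1339_A00pp_022_s3 k198_A00pp_022_s3

theorem t1341_A00pp_022_s3 : ∃ t, chk3 f_A00pp_022_s3 t 146 241 2 = true := ex3_a t1340_A00pp_022_s3 t1338_A00pp_022_s3

theorem t1342_A00pp_022_s3 : ∃ t, chk3 f_A00pp_022_s3 t 73 241 2 = true := ex3_a t1341_A00pp_022_s3 t1337_A00pp_022_s3

theorem t1343_A00pp_022_s3 : ∃ t, chk3 f_A00pp_022_s3 t 147 240 2 = true := ex3_c k194_A00pp_022_s3 k195_A00pp_022_s3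

theorem t1344_A00pp_022_s3 : ∃ t, chk3 f_A00pp_022_s3 t 146 240 2 = true := ex3_a k192_A00pp_022_s3 k193_A00pp_022_s3

theorem t1345_A00pp_022_s3 : ∃ t, chk3 f_A00pp_022_s3 t 73 240 2 = true := ex3_a t1344_A00pp_022_s3 t1343_A00pp_022_s3

theorem t1346_A00pp_022_s3 : ∃ t, chk3 f_A00pp_022_s3 t 73 120 2 = true := ex3_b t1345_A00pp_022_s3 t1342_A00pp_022_s3

theorem t1347_A00pp_022_s3 : ∃ t, chk3 f_A00pp_022_s3 t 73 120 1 = true := ex3_c t1346_A00pp_022_s3 k208_A00pp_022_s3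

theorem t1348_A00pp_022_s3 : ∃ t, chk3 f_A00pp_022_s3 t 73 60 1 = true := ex3_b t1347_A00pp_022_s3 t1331_A00pp_022_s3

theorem t1349_A00pp_022_s3 : ∃ t, chk3 f_A00pp_022_s3 t 583 975 2 = true := ex3_a k189_A00pp_022_s3 k190_A00pp_022_s3

theorem t1350_A00pp_022_s3 : ∃ t, chk3 f_A00pp_022_s3 t 291 975 2 = true := ex3_a k188_A00pp_022_s3 t1349_A00pp_022_s3

theorem t1351_A00pp_022_s3 : ∃ t, chk3 f_A00pp_022_s3 t 291 487 2 = true := ex3_b k187_A00pp_022_s3 t1350_A00pp_022_s3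

theorem t1352_A00pp_022_s3 : ∃ t, chk3 f_A00pp_022_s3 t 290 487 5 = true := ex3_c k185_A00pp_022_s3 k186_A00pp_022_s3

theorem t1353_A00pp_022_s3 : ∃ t, chk3 f_A00pp_022_s3 t 290 487 2 = true := ex3_c k184_A00pp_022_s3 t1352_A00pp_022_s3

theorem t1354_A00pp_022_s3 : ∃ t, chk3 f_A00pp_022_s3 t 145 487 2 = true := ex3_a t1353_A00pp_022_s3 t1351_A00pp_022_s3

theorem t1355_A00pp_022_s3 : ∃ t, chk3 f_A00pp_022_s3 t 291 486 2 = true := ex3_c k182_A00pp_022_s3 k183_A00pp_022_s3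

theorem t1356_A00pp_022_s3 : ∃ t, chk3 f_A00pp_022_s3 t 290 486 2 = true := ex3_c k180_A00pp_022_s3 k181_A00pp_022_s3

theorem t1357_A00pp_022_s3 : ∃ t, chk3 f_A00pp_022_s3 t 145 486 2 = true := ex3_a t1356_A00pp_022_s3 t1355_A00pp_022_s3

theorem t1358_A00pp_022_s3 : ∃ t, chk3 f_A00pp_022_s3 t 145 243 2 = true := ex3_b t1357_A00pp_022_s3 t1354_A00pp_022_s3

theorem t1359_A00pp_022_s3 : ∃ t, chk3 f_A00pp_022_s3 t 144 243 11 = true := ex3_c k178_A00pp_022_s3 k179_A00pp_022_s3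

theorem t1360_A00pp_022_s3 : ∃ t, chk3 f_A00pp_022_s3 t 144 243 10 = true := ex3_c k176_A00pp_022_s3 k177_A00pp_022_s3

theorem t1361_A00pp_022_s3 : ∃ t, chk3 f_A00pp_022_s3 t 144 243 5 = true := ex3_c t1360_A00pp_022_s3 t1359_A00pp_022_s3

theorem t1362_A00pp_022_s3 : ∃ t, chk3 f_A00pp_022_s3 t 144 243 2 = true := ex3_c k175_A00pp_022_s3 t1361_A00pp_022_s3

theorem t1363_A00pp_022_s3 : ∃ t, chk3 f_A00pp_022_s3 t 72 243 2 = true := ex3_a t1362_A00pp_022_s3 t1358_A00pp_022_s3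

theorem t1364_A00pp_022_s3 : ∃ t, chk3 f_A00pp_022_s3 t 72 243 1 = true := ex3_c t1363_A00pp_022_s3 k191_A00pp_022_s3

theorem t1365_A00pp_022_s3 : ∃ t, chk3 f_A00pp_022_s3 t 145 242 10 = true := ex3_c k171_A00pp_022_s3 k172_A00pp_022_s3

theorem t1366_A00pp_022_s3 : ∃ t, chk3 f_A00pp_022_s3 t 145 242 5 = true := ex3_c t1365_A00pp_022_s3 k173_A00pp_022_s3

theorem t1367_A00pp_022_s3 : ∃ t, chk3 f_A00pp_022_s3 t 144 242 5 = true := ex3_b k169_A00pp_022_s3 k170_A00pp_022_s3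

theorem t1368_A00pp_022_s3 : ∃ t, chk3 f_A00pp_022_s3 t 72 242 5 = true := ex3_a t1367_A00pp_022_s3 t1366_A00pp_022_s3

theorem t1369_A00pp_022_s3 : ∃ t, chk3 f_A00pp_022_s3 t 72 242 19 = true := ex3_a k167_A00pp_022_s3 k168_A00pp_022_s3

theorem t1370_A00pp_022_s3 : ∃ t, chk3 f_A00pp_022_s3 t 72 242 9 = true := ex3_c k166_A00pp_022_s3 t1369_A00pp_022_s3

theorem t1371_A00pp_022_s3 : ∃ t, chk3 f_A00pp_022_s3 t 72 242 4 = true := ex3_c k165_A00pp_022_s3 t1370_A00pp_022_s3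

theorem t1372_A00pp_022_s3 : ∃ t, chk3 f_A00pp_022_s3 t 72 242 2 = true := ex3_c t1371_A00pp_022_s3 t1368_A00pp_022_s3

theorem t1373_A00pp_022_s3 : ∃ t, chk3 f_A00pp_022_s3 t 72 242 1 = true := ex3_c t1372_A00pp_022_s3 k174_A00pp_022_s3

theorem t1374_A00pp_022_s3 : ∃ t, chk3 f_A00pp_022_s3 t 72 121 1 = true := ex3_b t1373_A00pp_022_s3 t1364_A00pp_022_s3

theorem t1375_A00pp_022_s3 : ∃ t, chk3 f_A00pp_022_s3 t 145 120 10 = true := ex3_a k161_A00pp_022_s3 k162_A00pp_022_s3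

theorem t1376_A00pp_022_s3 : ∃ t, chk3 f_A00pp_022_s3 t 145 120 5 = true := ex3_c t1375_A00pp_022_s3 k163_A00pp_022_s3

theorem t1377_A00pp_022_s3 : ∃ t, chk3 f_A00pp_022_s3 t 145 120 9 = true := ex3_c k159_A00pp_022_s3 k160_A00pp_022_s3

theorem t1378_A00pp_022_s3 : ∃ t, chk3 f_A00pp_022_s3 t 145 120 4 = true := ex3_c k158_A00pp_022_s3 t1377_A00pp_022_s3

theorem t1379_A00pp_022_s3 : ∃ t, chk3 f_A00pp_022_s3 t 145 120 2 = true := ex3_c t1378_A00pp_022_s3 t1376_A00pp_022_s3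

theorem t1380_A00pp_022_s3 : ∃ t, chk3 f_A00pp_022_s3 t 145 120 1 = true := ex3_c t1379_A00pp_022_s3 k164_A00pp_022_s3

theorem t1381_A00pp_022_s3 : ∃ t, chk3 f_A00pp_022_s3 t 144 241 5 = true := ex3_a k155_A00pp_022_s3 k156_A00pp_022_s3

theorem t1382_A00pp_022_s3 : ∃ t, chk3 f_A00pp_022_s3 t 144 241 2 = true := ex3_c k154_A00pp_022_s3 t1381_A00pp_022_s3

theorem t1383_A00pp_022_s3 : ∃ t, chk3 f_A00pp_022_s3 t 144 241 1 = true := ex3_c t1382_A00pp_022_s3 k157_A00pp_022_s3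

theorem t1384_A00pp_022_s3 : ∃ t, chk3 f_A00pp_022_s3 t 144 240 1 = true := ex3_c k152_A00pp_022_s3 k153_A00pp_022_s3

theorem t1385_A00pp_022_s3 : ∃ t, chk3 f_A00pp_022_s3 t 144 120 1 = true := ex3_b t1384_A00pp_022_s3 t1383_A00pp_022_s3

theorem t1386_A00pp_022_s3 : ∃ t, chk3 f_A00pp_022_s3 t 72 120 1 = true := ex3_a t1385_A00pp_022_s3 t1380_A00pp_022_s3

theorem t1387_A00pp_022_s3 : ∃ t, chk3 f_A00pp_022_s3 t 72 60 1 = true := ex3_b t1386_A00pp_022_s3 t1374_A00pp_022_s3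

theorem t1388_A00pp_022_s3 : ∃ t, chk3 f_A00pp_022_s3 t 36 60 1 = true := ex3_a t1387_A00pp_022_s3 t1348_A00pp_022_s3

theorem t1389_A00pp_022_s3 : ∃ t, chk3 f_A00pp_022_s3 t 36 30 1 = true := ex3_b t1388_A00pp_022_s3 t1283_A00pp_022_s3

theorem t1390_A00pp_022_s3 : ∃ t, chk3 f_A00pp_022_s3 t 18 30 1 = true := ex3_a t1389_A00pp_022_s3 t1048_A00pp_022_s3

theorem t1391_A00pp_022_s3 : ∃ t, chk3 f_A00pp_022_s3 t 18 15 1 = true := ex3_b t1390_A00pp_022_s3 k666_A00pp_022_s3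

theorem t1392_A00pp_022_s3 : ∃ t, chk3 f_A00pp_022_s3 t 9 15 1 = true := ex3_a t1391_A00pp_022_s3 t877_A00pp_022_s3

theorem t1393_A00pp_022_s3 : ∃ t, chk3 f_A00pp_022_s3 t 78 59 3 = true := ex3_b k149_A00pp_022_s3 k150_A00pp_022_s3

theorem t1394_A00pp_022_s3 : ∃ t, chk3 f_A00pp_022_s3 t 39 59 3 = true := ex3_a t1393_A00pp_022_s3 k151_A00pp_022_s3

theorem t1395_A00pp_022_s3 : ∃ t, chk3 f_A00pp_022_s3 t 39 58 3 = true := ex3_b k147_A00pp_022_s3 k148_A00pp_022_s3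

theorem t1396_A00pp_022_s3 : ∃ t, chk3 f_A00pp_022_s3 t 39 29 3 = true := ex3_b t1395_A00pp_022_s3 t1394_A00pp_022_s3

theorem t1397_A00pp_022_s3 : ∃ t, chk3 f_A00pp_022_s3 t 38 59 3 = true := ex3_a k145_A00pp_022_s3 k146_A00pp_022_s3

theorem t1398_A00pp_022_s3 : ∃ t, chk3 f_A00pp_022_s3 t 38 29 3 = true := ex3_b k144_A00pp_022_s3 t1397_A00pp_022_s3

theorem t1399_A00pp_022_s3 : ∃ t, chk3 f_A00pp_022_s3 t 19 29 3 = true := ex3_a t1398_A00pp_022_s3 t1396_A00pp_022_s3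

theorem t1400_A00pp_022_s3 : ∃ t, chk3 f_A00pp_022_s3 t 39 59 5 = true := ex3_a k142_A00pp_022_s3 k143_A00pp_022_s3

theorem t1401_A00pp_022_s3 : ∃ t, chk3 f_A00pp_022_s3 t 78 119 8 = true := ex3_b k138_A00pp_022_s3 k139_A00pp_022_s3

theorem t1402_A00pp_022_s3 : ∃ t, chk3 f_A00pp_022_s3 t 39 119 8 = true := ex3_a t1401_A00pp_022_s3 k140_A00pp_022_s3

theorem t1403_A00pp_022_s3 : ∃ t, chk3 f_A00pp_022_s3 t 39 119 4 = true := ex3_c t1402_A00pp_022_s3 k141_A00pp_022_s3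

theorem t1404_A00pp_022_s3 : ∃ t, chk3 f_A00pp_022_s3 t 39 118 4 = true := ex3_a k136_A00pp_022_s3 k137_A00pp_022_s3

theorem t1405_A00pp_022_s3 : ∃ t, chk3 f_A00pp_022_s3 t 39 59 4 = true := ex3_b t1404_A00pp_022_s3 t1403_A00pp_022_s3

theorem t1406_A00pp_022_s3 : ∃ t, chk3 f_A00pp_022_s3 t 39 59 2 = true := ex3_c t1405_A00pp_022_s3 t1400_A00pp_022_s3

theorem t1407_A00pp_022_s3 : ∃ t, chk3 f_A00pp_022_s3 t 77 119 8 = true := ex3_b k132_A00pp_022_s3 k133_A00pp_022_s3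

theorem t1408_A00pp_022_s3 : ∃ t, chk3 f_A00pp_022_s3 t 155 118 8 = true := ex3_a k130_A00pp_022_s3 k131_A00pp_022_s3

theorem t1409_A00pp_022_s3 : ∃ t, chk3 f_A00pp_022_s3 t 154 118 8 = true := ex3_b k128_A00pp_022_s3 k129_A00pp_022_s3

theorem t1410_A00pp_022_s3 : ∃ t, chk3 f_A00pp_022_s3 t 77 118 8 = true := ex3_a t1409_A00pp_022_s3 t1408_A00pp_022_s3

theorem t1411_A00pp_022_s3 : ∃ t, chk3 f_A00pp_022_s3 t 77 59 8 = true := ex3_b t1410_A00pp_022_s3 t1407_A00pp_022_s3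

theorem t1412_A00pp_022_s3 : ∃ t, chk3 f_A00pp_022_s3 t 77 59 4 = true := ex3_c t1411_A00pp_022_s3 k134_A00pp_022_s3

theorem t1413_A00pp_022_s3 : ∃ t, chk3 f_A00pp_022_s3 t 152 59 9 = true := ex3_b k125_A00pp_022_s3 k126_A00pp_022_s3

theorem t1414_A00pp_022_s3 : ∃ t, chk3 f_A00pp_022_s3 t 76 59 9 = true := ex3_a t1413_A00pp_022_s3 k127_A00pp_022_s3

theorem t1415_A00pp_022_s3 : ∃ t, chk3 f_A00pp_022_s3 t 153 239 16 = true := ex3_a k122_A00pp_022_s3 k123_A00pp_022_s3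

theorem t1416_A00pp_022_s3 : ∃ t, chk3 f_A00pp_022_s3 t 153 239 8 = true := ex3_c t1415_A00pp_022_s3 k124_A00pp_022_s3

theorem t1417_A00pp_022_s3 : ∃ t, chk3 f_A00pp_022_s3 t 153 119 8 = true := ex3_b k121_A00pp_022_s3 t1416_A00pp_022_s3

theorem t1418_A00pp_022_s3 : ∃ t, chk3 f_A00pp_022_s3 t 152 239 8 = true := ex3_c k119_A00pp_022_s3 k120_A00pp_022_s3

theorem t1419_A00pp_022_s3 : ∃ t, chk3 f_A00pp_022_s3 t 152 119 8 = true := ex3_b k118_A00pp_022_s3 t1418_A00pp_022_s3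

theorem t1420_A00pp_022_s3 : ∃ t, chk3 f_A00pp_022_s3 t 76 119 8 = true := ex3_a t1419_A00pp_022_s3 t1417_A00pp_022_s3

theorem t1421_A00pp_022_s3 : ∃ t, chk3 f_A00pp_022_s3 t 153 118 8 = true := ex3_c k116_A00pp_022_s3 k117_A00pp_022_s3

theorem t1422_A00pp_022_s3 : ∃ t, chk3 f_A00pp_022_s3 t 76 118 8 = true := ex3_a k115_A00pp_022_s3 t1421_A00pp_022_s3

theorem t1423_A00pp_022_s3 : ∃ t, chk3 f_A00pp_022_s3 t 76 59 8 = true := ex3_b t1422_A00pp_022_s3 t1420_A00pp_022_s3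

theorem t1424_A00pp_022_s3 : ∃ t, chk3 f_A00pp_022_s3 t 76 59 4 = true := ex3_c t1423_A00pp_022_s3 t1414_A00pp_022_s3

theorem t1425_A00pp_022_s3 : ∃ t, chk3 f_A00pp_022_s3 t 38 59 4 = true := ex3_a t1424_A00pp_022_s3 t1412_A00pp_022_s3

theorem t1426_A00pp_022_s3 : ∃ t, chk3 f_A00pp_022_s3 t 38 59 2 = true := ex3_c t1425_A00pp_022_s3 k135_A00pp_022_s3

theorem t1427_A00pp_022_s3 : ∃ t, chk3 f_A00pp_022_s3 t 19 59 2 = true := ex3_a t1426_A00pp_022_s3 t1406_A00pp_022_s3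

theorem t1428_A00pp_022_s3 : ∃ t, chk3 f_A00pp_022_s3 t 78 117 4 = true := ex3_b k111_A00pp_022_s3 k112_A00pp_022_s3

theorem t1429_A00pp_022_s3 : ∃ t, chk3 f_A00pp_022_s3 t 39 117 4 = true := ex3_a t1428_A00pp_022_s3 k113_A00pp_022_s3

theorem t1430_A00pp_022_s3 : ∃ t, chk3 f_A00pp_022_s3 t 39 117 2 = true := ex3_c t1429_A00pp_022_s3 k114_A00pp_022_s3

theorem t1431_A00pp_022_s3 : ∃ t, chk3 f_A00pp_022_s3 t 155 117 8 = true := ex3_c k107_A00pp_022_s3 k108_A00pp_022_s3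

theorem t1432_A00pp_022_s3 : ∃ t, chk3 f_A00pp_022_s3 t 77 117 8 = true := ex3_a k106_A00pp_022_s3 t1431_A00pp_022_s3

theorem t1433_A00pp_022_s3 : ∃ t, chk3 f_A00pp_022_s3 t 77 117 4 = true := ex3_c t1432_A00pp_022_s3 k109_A00pp_022_s3

theorem t1434_A00pp_022_s3 : ∃ t, chk3 f_A00pp_022_s3 t 76 117 4 = true := ex3_c k104_A00pp_022_s3 k105_A00pp_022_s3

theorem t1435_A00pp_022_s3 : ∃ t, chk3 f_A00pp_022_s3 t 38 117 4 = true := ex3_a t1434_A00pp_022_s3 t1433_A00pp_022_s3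

theorem t1436_A00pp_022_s3 : ∃ t, chk3 f_A00pp_022_s3 t 38 117 2 = true := ex3_c t1435_A00pp_022_s3 k110_A00pp_022_s3

theorem t1437_A00pp_022_s3 : ∃ t, chk3 f_A00pp_022_s3 t 19 117 2 = true := ex3_a t1436_A00pp_022_s3 t1430_A00pp_022_s3

theorem t1438_A00pp_022_s3 : ∃ t, chk3 f_A00pp_022_s3 t 78 116 8 = true := ex3_a k99_A00pp_022_s3 k100_A00pp_022_s3

theorem t1439_A00pp_022_s3 : ∃ t, chk3 f_A00pp_022_s3 t 78 116 4 = true := ex3_c t1438_A00pp_022_s3 k101_A00pp_022_s3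

theorem t1440_A00pp_022_s3 : ∃ t, chk3 f_A00pp_022_s3 t 39 116 4 = true := ex3_a t1439_A00pp_022_s3 k102_A00pp_022_s3

theorem t1441_A00pp_022_s3 : ∃ t, chk3 f_A00pp_022_s3 t 39 116 2 = true := ex3_c t1440_A00pp_022_s3 k103_A00pp_022_s3

theorem t1442_A00pp_022_s3 : ∃ t, chk3 f_A00pp_022_s3 t 38 233 4 = true := ex3_a k96_A00pp_022_s3 k97_A00pp_022_s3

theorem t1443_A00pp_022_s3 : ∃ t, chk3 f_A00pp_022_s3 t 38 233 2 = true := ex3_c t1442_A00pp_022_s3 k98_A00pp_022_s3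

theorem t1444_A00pp_022_s3 : ∃ t, chk3 f_A00pp_022_s3 t 38 116 2 = true := ex3_b k95_A00pp_022_s3 t1443_A00pp_022_s3

theorem t1445_A00pp_022_s3 : ∃ t, chk3 f_A00pp_022_s3 t 19 116 2 = true := ex3_a t1444_A00pp_022_s3 t1441_A00pp_022_s3

theorem t1446_A00pp_022_s3 : ∃ t, chk3 f_A00pp_022_s3 t 19 58 2 = true := ex3_b t1445_A00pp_022_s3 t1437_A00pp_022_s3

theorem t1447_A00pp_022_s3 : ∃ t, chk3 f_A00pp_022_s3 t 19 29 2 = true := ex3_b t1446_A00pp_022_s3 t1427_A00pp_022_s3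

theorem t1448_A00pp_022_s3 : ∃ t, chk3 f_A00pp_022_s3 t 19 29 1 = true := ex3_c t1447_A00pp_022_s3 t1399_A00pp_022_s3

theorem t1449_A00pp_022_s3 : ∃ t, chk3 f_A00pp_022_s3 t 78 57 4 = true := ex3_c k90_A00pp_022_s3 k91_A00pp_022_s3

theorem t1450_A00pp_022_s3 : ∃ t, chk3 f_A00pp_022_s3 t 39 57 4 = true := ex3_a t1449_A00pp_022_s3 k92_A00pp_022_s3

theorem t1451_A00pp_022_s3 : ∃ t, chk3 f_A00pp_022_s3 t 39 57 2 = true := ex3_c t1450_A00pp_022_s3 k93_A00pp_022_s3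

theorem t1452_A00pp_022_s3 : ∃ t, chk3 f_A00pp_022_s3 t 39 57 1 = true := ex3_c t1451_A00pp_022_s3 k94_A00pp_022_s3

theorem t1453_A00pp_022_s3 : ∃ t, chk3 f_A00pp_022_s3 t 39 28 1 = true := ex3_b k89_A00pp_022_s3 t1452_A00pp_022_s3

theorem t1454_A00pp_022_s3 : ∃ t, chk3 f_A00pp_022_s3 t 38 115 1 = true := ex3_a k87_A00pp_022_s3 k88_A00pp_022_s3

theorem t1455_A00pp_022_s3 : ∃ t, chk3 f_A00pp_022_s3 t 38 57 1 = true := ex3_b k86_A00pp_022_s3 t1454_A00pp_022_s3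

theorem t1456_A00pp_022_s3 : ∃ t, chk3 f_A00pp_022_s3 t 38 28 1 = true := ex3_b k85_A00pp_022_s3 t1455_A00pp_022_s3

theorem t1457_A00pp_022_s3 : ∃ t, chk3 f_A00pp_022_s3 t 19 28 1 = true := ex3_a t1456_A00pp_022_s3 t1453_A00pp_022_s3

theorem t1458_A00pp_022_s3 : ∃ t, chk3 f_A00pp_022_s3 t 19 14 1 = true := ex3_b t1457_A00pp_022_s3 t1448_A00pp_022_s3

theorem t1459_A00pp_022_s3 : ∃ t, chk3 f_A00pp_022_s3 t 37 14 6 = true := ex3_b k82_A00pp_022_s3 k83_A00pp_022_s3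

theorem t1460_A00pp_022_s3 : ∃ t, chk3 f_A00pp_022_s3 t 37 14 3 = true := ex3_c t1459_A00pp_022_s3 k84_A00pp_022_s3

theorem t1461_A00pp_022_s3 : ∃ t, chk3 f_A00pp_022_s3 t 36 59 3 = true := ex3_b k80_A00pp_022_s3 k81_A00pp_022_s3

theorem t1462_A00pp_022_s3 : ∃ t, chk3 f_A00pp_022_s3 t 36 29 3 = true := ex3_b k79_A00pp_022_s3 t1461_A00pp_022_s3

theorem t1463_A00pp_022_s3 : ∃ t, chk3 f_A00pp_022_s3 t 36 28 3 = true := ex3_c k77_A00pp_022_s3 k78_A00pp_022_s3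

theorem t1464_A00pp_022_s3 : ∃ t, chk3 f_A00pp_022_s3 t 36 14 3 = true := ex3_b t1463_A00pp_022_s3 t1462_A00pp_022_s3

theorem t1465_A00pp_022_s3 : ∃ t, chk3 f_A00pp_022_s3 t 18 14 3 = true := ex3_a t1464_A00pp_022_s3 t1460_A00pp_022_s3

theorem t1466_A00pp_022_s3 : ∃ t, chk3 f_A00pp_022_s3 t 151 119 9 = true := ex3_c k74_A00pp_022_s3 k75_A00pp_022_s3

theorem t1467_A00pp_022_s3 : ∃ t, chk3 f_A00pp_022_s3 t 75 119 9 = true := ex3_a k73_A00pp_022_s3 t1466_A00pp_022_s3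

theorem t1468_A00pp_022_s3 : ∃ t, chk3 f_A00pp_022_s3 t 151 119 8 = true := ex3_b k71_A00pp_022_s3 k72_A00pp_022_s3

theorem t1469_A00pp_022_s3 : ∃ t, chk3 f_A00pp_022_s3 t 150 119 8 = true := ex3_c k69_A00pp_022_s3 k70_A00pp_022_s3

theorem t1470_A00pp_022_s3 : ∃ t, chk3 f_A00pp_022_s3 t 75 119 8 = true := ex3_a t1469_A00pp_022_s3 t1468_A00pp_022_s3

theorem t1471_A00pp_022_s3 : ∃ t, chk3 f_A00pp_022_s3 t 75 119 4 = true := ex3_c t1470_A00pp_022_s3 t1467_A00pp_022_s3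

theorem t1472_A00pp_022_s3 : ∃ t, chk3 f_A00pp_022_s3 t 75 118 4 = true := ex3_a k67_A00pp_022_s3 k68_A00pp_022_s3

theorem t1473_A00pp_022_s3 : ∃ t, chk3 f_A00pp_022_s3 t 75 59 4 = true := ex3_b t1472_A00pp_022_s3 t1471_A00pp_022_s3

theorem t1474_A00pp_022_s3 : ∃ t, chk3 f_A00pp_022_s3 t 75 59 2 = true := ex3_c t1473_A00pp_022_s3 k76_A00pp_022_s3

theorem t1475_A00pp_022_s3 : ∃ t, chk3 f_A00pp_022_s3 t 149 119 4 = true := ex3_b k64_A00pp_022_s3 k65_A00pp_022_s3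

theorem t1476_A00pp_022_s3 : ∃ t, chk3 f_A00pp_022_s3 t 149 119 2 = true := ex3_c t1475_A00pp_022_s3 k66_A00pp_022_s3

theorem t1477_A00pp_022_s3 : ∃ t, chk3 f_A00pp_022_s3 t 296 119 2 = true := ex3_a k61_A00pp_022_s3 k62_A00pp_022_s3

theorem t1478_A00pp_022_s3 : ∃ t, chk3 f_A00pp_022_s3 t 148 119 2 = true := ex3_a t1477_A00pp_022_s3 k63_A00pp_022_s3

theorem t1479_A00pp_022_s3 : ∃ t, chk3 f_A00pp_022_s3 t 74 119 2 = true := ex3_a t1478_A00pp_022_s3 t1476_A00pp_022_s3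

theorem t1480_A00pp_022_s3 : ∃ t, chk3 f_A00pp_022_s3 t 148 118 2 = true := ex3_a k58_A00pp_022_s3 k59_A00pp_022_s3

theorem t1481_A00pp_022_s3 : ∃ t, chk3 f_A00pp_022_s3 t 74 118 2 = true := ex3_a t1480_A00pp_022_s3 k60_A00pp_022_s3

theorem t1482_A00pp_022_s3 : ∃ t, chk3 f_A00pp_022_s3 t 74 59 2 = true := ex3_b t1481_A00pp_022_s3 t1479_A00pp_022_s3

theorem t1483_A00pp_022_s3 : ∃ t, chk3 f_A00pp_022_s3 t 37 59 2 = true := ex3_a t1482_A00pp_022_s3 t1474_A00pp_022_s3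

theorem t1484_A00pp_022_s3 : ∃ t, chk3 f_A00pp_022_s3 t 37 58 5 = true := ex3_b k56_A00pp_022_s3 k57_A00pp_022_s3

theorem t1485_A00pp_022_s3 : ∃ t, chk3 f_A00pp_022_s3 t 75 117 4 = true := ex3_c k54_A00pp_022_s3 k55_A00pp_022_s3

theorem t1486_A00pp_022_s3 : ∃ t, chk3 f_A00pp_022_s3 t 75 58 4 = true := ex3_b k53_A00pp_022_s3 t1485_A00pp_022_s3

theorem t1487_A00pp_022_s3 : ∃ t, chk3 f_A00pp_022_s3 t 74 58 8 = true := ex3_a k50_A00pp_022_s3 k51_A00pp_022_s3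

theorem t1488_A00pp_022_s3 : ∃ t, chk3 f_A00pp_022_s3 t 74 58 4 = true := ex3_c t1487_A00pp_022_s3 k52_A00pp_022_s3

theorem t1489_A00pp_022_s3 : ∃ t, chk3 f_A00pp_022_s3 t 37 58 4 = true := ex3_a t1488_A00pp_022_s3 t1486_A00pp_022_s3

theorem t1490_A00pp_022_s3 : ∃ t, chk3 f_A00pp_022_s3 t 37 58 2 = true := ex3_c t1489_A00pp_022_s3 t1484_A00pp_022_s3

theorem t1491_A00pp_022_s3 : ∃ t, chk3 f_A00pp_022_s3 t 37 29 2 = true := ex3_b t1490_A00pp_022_s3 t1483_A00pp_022_s3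

theorem t1492_A00pp_022_s3 : ∃ t, chk3 f_A00pp_022_s3 t 37 57 4 = true := ex3_a k47_A00pp_022_s3 k48_A00pp_022_s3

theorem t1493_A00pp_022_s3 : ∃ t, chk3 f_A00pp_022_s3 t 37 28 4 = true := ex3_b k46_A00pp_022_s3 t1492_A00pp_022_s3

theorem t1494_A00pp_022_s3 : ∃ t, chk3 f_A00pp_022_s3 t 37 28 2 = true := ex3_c t1493_A00pp_022_s3 k49_A00pp_022_s3

theorem t1495_A00pp_022_s3 : ∃ t, chk3 f_A00pp_022_s3 t 37 14 2 = true := ex3_b t1494_A00pp_022_s3 t1491_A00pp_022_s3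

theorem t1496_A00pp_022_s3 : ∃ t, chk3 f_A00pp_022_s3 t 73 59 5 = true := ex3_a k44_A00pp_022_s3 k45_A00pp_022_s3

theorem t1497_A00pp_022_s3 : ∃ t, chk3 f_A00pp_022_s3 t 72 119 10 = true := ex3_a k41_A00pp_022_s3 k42_A00pp_022_s3

theorem t1498_A00pp_022_s3 : ∃ t, chk3 f_A00pp_022_s3 t 72 59 10 = true := ex3_b k40_A00pp_022_s3 t1497_A00pp_022_s3

theorem t1499_A00pp_022_s3 : ∃ t, chk3 f_A00pp_022_s3 t 72 59 5 = true := ex3_c t1498_A00pp_022_s3 k43_A00pp_022_s3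

theorem t1500_A00pp_022_s3 : ∃ t, chk3 f_A00pp_022_s3 t 36 59 5 = true := ex3_a t1499_A00pp_022_s3 t1496_A00pp_022_s3

theorem t1501_A00pp_022_s3 : ∃ t, chk3 f_A00pp_022_s3 t 147 59 9 = true := ex3_b k38_A00pp_022_s3 k39_A00pp_022_s3

theorem t1502_A00pp_022_s3 : ∃ t, chk3 f_A00pp_022_s3 t 146 59 9 = true := ex3_c k36_A00pp_022_s3 k37_A00pp_022_s3

theorem t1503_A00pp_022_s3 : ∃ t, chk3 f_A00pp_022_s3 t 73 59 9 = true := ex3_a t1502_A00pp_022_s3 t1501_A00pp_022_s3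

theorem t1504_A00pp_022_s3 : ∃ t, chk3 f_A00pp_022_s3 t 72 59 9 = true := ex3_b k34_A00pp_022_s3 k35_A00pp_022_s3

theorem t1505_A00pp_022_s3 : ∃ t, chk3 f_A00pp_022_s3 t 36 59 9 = true := ex3_a t1504_A00pp_022_s3 t1503_A00pp_022_s3

theorem t1506_A00pp_022_s3 : ∃ t, chk3 f_A00pp_022_s3 t 36 59 8 = true := ex3_a k32_A00pp_022_s3 k33_A00pp_022_s3

theorem t1507_A00pp_022_s3 : ∃ t, chk3 f_A00pp_022_s3 t 36 59 4 = true := ex3_c t1506_A00pp_022_s3 t1505_A00pp_022_s3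

theorem t1508_A00pp_022_s3 : ∃ t, chk3 f_A00pp_022_s3 t 36 59 2 = true := ex3_c t1507_A00pp_022_s3 t1500_A00pp_022_s3

theorem t1509_A00pp_022_s3 : ∃ t, chk3 f_A00pp_022_s3 t 36 58 5 = true := ex3_a k30_A00pp_022_s3 k31_A00pp_022_s3

theorem t1510_A00pp_022_s3 : ∃ t, chk3 f_A00pp_022_s3 t 36 58 9 = true := ex3_b k28_A00pp_022_s3 k29_A00pp_022_s3

theorem t1511_A00pp_022_s3 : ∃ t, chk3 f_A00pp_022_s3 t 36 58 4 = true := ex3_c k27_A00pp_022_s3 t1510_A00pp_022_s3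

theorem t1512_A00pp_022_s3 : ∃ t, chk3 f_A00pp_022_s3 t 36 58 2 = true := ex3_c t1511_A00pp_022_s3 t1509_A00pp_022_s3

theorem t1513_A00pp_022_s3 : ∃ t, chk3 f_A00pp_022_s3 t 36 29 2 = true := ex3_b t1512_A00pp_022_s3 t1508_A00pp_022_s3

theorem t1514_A00pp_022_s3 : ∃ t, chk3 f_A00pp_022_s3 t 36 28 2 = true := ex3_a k25_A00pp_022_s3 k26_A00pp_022_s3

theorem t1515_A00pp_022_s3 : ∃ t, chk3 f_A00pp_022_s3 t 36 14 2 = true := ex3_b t1514_A00pp_022_s3 t1513_A00pp_022_s3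

theorem t1516_A00pp_022_s3 : ∃ t, chk3 f_A00pp_022_s3 t 18 14 2 = true := ex3_a t1515_A00pp_022_s3 t1495_A00pp_022_s3

theorem t1517_A00pp_022_s3 : ∃ t, chk3 f_A00pp_022_s3 t 18 14 1 = true := ex3_c t1516_A00pp_022_s3 t1465_A00pp_022_s3

theorem t1518_A00pp_022_s3 : ∃ t, chk3 f_A00pp_022_s3 t 9 14 1 = true := ex3_a t1517_A00pp_022_s3 t1458_A00pp_022_s3

theorem t1519_A00pp_022_s3 : ∃ t, chk3 f_A00pp_022_s3 t 9 7 1 = true := ex3_b t1518_A00pp_022_s3 t1392_A00pp_022_s3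

theorem t1520_A00pp_022_s3 : ∃ t, chk3 f_A00pp_022_s3 t 71 123 5 = true := ex3_b k21_A00pp_022_s3 k22_A00pp_022_s3

theorem t1521_A00pp_022_s3 : ∃ t, chk3 f_A00pp_022_s3 t 35 123 5 = true := ex3_a k20_A00pp_022_s3 t1520_A00pp_022_s3

theorem t1522_A00pp_022_s3 : ∃ t, chk3 f_A00pp_022_s3 t 35 61 5 = true := ex3_b k19_A00pp_022_s3 t1521_A00pp_022_s3

theorem t1523_A00pp_022_s3 : ∃ t, chk3 f_A00pp_022_s3 t 35 30 5 = true := ex3_b k18_A00pp_022_s3 t1522_A00pp_022_s3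

theorem t1524_A00pp_022_s3 : ∃ t, chk3 f_A00pp_022_s3 t 143 61 4 = true := ex3_b k16_A00pp_022_s3 k17_A00pp_022_s3

theorem t1525_A00pp_022_s3 : ∃ t, chk3 f_A00pp_022_s3 t 71 61 4 = true := ex3_a k15_A00pp_022_s3 t1524_A00pp_022_s3

theorem t1526_A00pp_022_s3 : ∃ t, chk3 f_A00pp_022_s3 t 35 61 4 = true := ex3_a k14_A00pp_022_s3 t1525_A00pp_022_s3

theorem t1527_A00pp_022_s3 : ∃ t, chk3 f_A00pp_022_s3 t 35 30 4 = true := ex3_b k13_A00pp_022_s3 t1526_A00pp_022_s3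

theorem t1528_A00pp_022_s3 : ∃ t, chk3 f_A00pp_022_s3 t 35 30 2 = true := ex3_c t1527_A00pp_022_s3 t1523_A00pp_022_s3

theorem t1529_A00pp_022_s3 : ∃ t, chk3 f_A00pp_022_s3 t 35 30 1 = true := ex3_c t1528_A00pp_022_s3 k23_A00pp_022_s3

theorem t1530_A00pp_022_s3 : ∃ t, chk3 f_A00pp_022_s3 t 17 30 1 = true := ex3_a k12_A00pp_022_s3 t1529_A00pp_022_s3

theorem t1531_A00pp_022_s3 : ∃ t, chk3 f_A00pp_022_s3 t 17 15 1 = true := ex3_b t1530_A00pp_022_s3 k24_A00pp_022_s3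

theorem t1532_A00pp_022_s3 : ∃ t, chk3 f_A00pp_022_s3 t 8 15 1 = true := ex3_a k11_A00pp_022_s3 t1531_A00pp_022_s3

theorem t1533_A00pp_022_s3 : ∃ t, chk3 f_A00pp_022_s3 t 17 14 1 = true := ex3_c k9_A00pp_022_s3 k10_A00pp_022_s3

theorem t1534_A00pp_022_s3 : ∃ t, chk3 f_A00pp_022_s3 t 8 14 1 = true := ex3_a k8_A00pp_022_s3 t1533_A00pp_022_s3

theorem t1535_A00pp_022_s3 : ∃ t, chk3 f_A00pp_022_s3 t 8 7 1 = true := ex3_b t1534_A00pp_022_s3 t1532_A00pp_022_s3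

theorem t1536_A00pp_022_s3 : ∃ t, chk3 f_A00pp_022_s3 t 4 7 1 = true := ex3_a t1535_A00pp_022_s3 t1519_A00pp_022_s3

theorem t1537_A00pp_022_s3 : ∃ t, chk3 f_A00pp_022_s3 t 19 13 2 = true := ex3_b k5_A00pp_022_s3 k6_A00pp_022_s3

theorem t1538_A00pp_022_s3 : ∃ t, chk3 f_A00pp_022_s3 t 19 13 1 = true := ex3_c t1537_A00pp_022_s3 k7_A00pp_022_s3

theorem t1539_A00pp_022_s3 : ∃ t, chk3 f_A00pp_022_s3 t 18 13 1 = true := ex3_c k3_A00pp_022_s3 k4_A00pp_022_s3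

theorem t1540_A00pp_022_s3 : ∃ t, chk3 f_A00pp_022_s3 t 9 13 1 = true := ex3_a t1539_A00pp_022_s3 t1538_A00pp_022_s3

theorem t1541_A00pp_022_s3 : ∃ t, chk3 f_A00pp_022_s3 t 9 6 1 = true := ex3_b k2_A00pp_022_s3 t1540_A00pp_022_s3

theorem t1542_A00pp_022_s3 : ∃ t, chk3 f_A00pp_022_s3 t 4 6 1 = true := ex3_a k1_A00pp_022_s3 t1541_A00pp_022_s3

theorem t1543_A00pp_022_s3 : ∃ t, chk3 f_A00pp_022_s3 t 4 3 1 = true := ex3_b t1542_A00pp_022_s3 t1536_A00pp_022_s3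

theorem t1544_A00pp_022_s3 : ∃ t, chk3 f_A00pp_022_s3 t 4 1 1 = true := ex3_b k0_A00pp_022_s3 t1543_A00pp_022_s3

theorem t1545_A00pp_022_s3 : ∃ t, chk3 f_A00pp_022_s3 t 2 1 1 = true := ex3_a t1544_A00pp_022_s3 t848_A00pp_022_s3

theorem t1546_A00pp_022_s3 : ∃ t, chk3 f_A00pp_022_s3 t 1 1 1 = true := ex3_a t1545_A00pp_022_s3 t784_A00pp_022_s3

theorem c_A00pp_022_s3 : CertFX 0 536870912 0 536870912 1046898278 26843546 true true true .pp 0 2 2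
    ndF0q0 ndF0q2 pcF2 cut_A00pp_022_s3 xt_A00pp_022_s3 :=
  certFX2 (fam := true) (s1 := true) (s2 := true) (a := 0) (b := 2) (c := 2) (cn := .pp) (n1 := ndF0q0) (n2 := ndF0q2) (pc := pcF2) (cut := cut_A00pp_022_s3) (xt := xt_A00pp_022_s3) (P1 := 0) (W1 := 536870912) (P2 := 0) (W2 := 536870912) (P3 := 1046898278) (W3 := 26843546)
    rfl (fun _ => rfl) t1546_A00pp_022_s3

theorem s_A00pp_022_s3 {κ x : ℝ} (hκ : κ * h0 = kenE x) (hx : 39 / 40 ≤ x) (hx' : x < 1)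
    (H : CutVA (VFD κ) (DD x) tKF tL pcF (Cut.of [[⟨0, 0, 0, 67108864⟩, ⟨1, 1, 0, 67108864⟩, ⟨2, 1, 0, 67108864⟩]]) 0 2 2 0 0 (sgb true) (sgb true) x) :
    AltVA (VFD κ) (DD x) tKF tL pcF [⟨4, 0, 0, 2845415833⟩] 0 2 2 0 0 (sgb true) (sgb true) x :=
  strip_altVA (d := 2845415833) false rfl hκ (κ0 hκ hx) (x0 hx) hx' (covF00 hx hx') (covF02 hx hx') (x1 hx) (x2 hx') c_A00pp_022_s3 H ((ok hx hx').extA (T := tt) (sideF hx hx') hκ (κ0 hκ hx) rfl rfl (.O 0 true) (.O 2 true) (Or.inl rfl))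

theorem t998_A00pm_012_s1 : ∃ t, chk3 f_A00pm_012_s1 t 6 1 1 = true := ex3_a k995_A00pm_012_s1 k996_A00pm_012_s1

theorem t999_A00pm_012_s1 : ∃ t, chk3 f_A00pm_012_s1 t 3 1 1 = true := ex3_a t998_A00pm_012_s1 k997_A00pm_012_s1

theorem t1000_A00pm_012_s1 : ∃ t, chk3 f_A00pm_012_s1 t 11 15 1 = true := ex3_a k993_A00pm_012_s1 k994_A00pm_012_s1

theorem t1001_A00pm_012_s1 : ∃ t, chk3 f_A00pm_012_s1 t 11 7 1 = true := ex3_b k992_A00pm_012_s1 t1000_A00pm_012_s1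

theorem t1002_A00pm_012_s1 : ∃ t, chk3 f_A00pm_012_s1 t 21 15 1 = true := ex3_b k990_A00pm_012_s1 k991_A00pm_012_s1

theorem t1003_A00pm_012_s1 : ∃ t, chk3 f_A00pm_012_s1 t 1340 63 3 = true := ex3_a k986_A00pm_012_s1 k987_A00pm_012_s1

theorem t1004_A00pm_012_s1 : ∃ t, chk3 f_A00pm_012_s1 t 670 63 3 = true := ex3_a t1003_A00pm_012_s1 k988_A00pm_012_s1

theorem t1005_A00pm_012_s1 : ∃ t, chk3 f_A00pm_012_s1 t 335 63 3 = true := ex3_a t1004_A00pm_012_s1 k989_A00pm_012_s1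

theorem t1006_A00pm_012_s1 : ∃ t, chk3 f_A00pm_012_s1 t 167 63 3 = true := ex3_a k985_A00pm_012_s1 t1005_A00pm_012_s1

theorem t1007_A00pm_012_s1 : ∃ t, chk3 f_A00pm_012_s1 t 167 31 3 = true := ex3_b k984_A00pm_012_s1 t1006_A00pm_012_s1

theorem t1008_A00pm_012_s1 : ∃ t, chk3 f_A00pm_012_s1 t 83 31 3 = true := ex3_a k983_A00pm_012_s1 t1007_A00pm_012_s1

theorem t1009_A00pm_012_s1 : ∃ t, chk3 f_A00pm_012_s1 t 41 31 3 = true := ex3_a k982_A00pm_012_s1 t1008_A00pm_012_s1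

theorem t1010_A00pm_012_s1 : ∃ t, chk3 f_A00pm_012_s1 t 20 31 3 = true := ex3_a k981_A00pm_012_s1 t1009_A00pm_012_s1

theorem t1011_A00pm_012_s1 : ∃ t, chk3 f_A00pm_012_s1 t 83 31 2 = true := ex3_a k979_A00pm_012_s1 k980_A00pm_012_s1

theorem t1012_A00pm_012_s1 : ∃ t, chk3 f_A00pm_012_s1 t 41 31 2 = true := ex3_a k978_A00pm_012_s1 t1011_A00pm_012_s1

theorem t1013_A00pm_012_s1 : ∃ t, chk3 f_A00pm_012_s1 t 20 31 2 = true := ex3_a k977_A00pm_012_s1 t1012_A00pm_012_s1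

theorem t1014_A00pm_012_s1 : ∃ t, chk3 f_A00pm_012_s1 t 20 31 1 = true := ex3_c t1013_A00pm_012_s1 t1010_A00pm_012_s1

theorem t1015_A00pm_012_s1 : ∃ t, chk3 f_A00pm_012_s1 t 83 30 1 = true := ex3_a k975_A00pm_012_s1 k976_A00pm_012_s1

theorem t1016_A00pm_012_s1 : ∃ t, chk3 f_A00pm_012_s1 t 41 30 1 = true := ex3_a k974_A00pm_012_s1 t1015_A00pm_012_s1

theorem t1017_A00pm_012_s1 : ∃ t, chk3 f_A00pm_012_s1 t 20 30 1 = true := ex3_a k973_A00pm_012_s1 t1016_A00pm_012_s1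

theorem t1018_A00pm_012_s1 : ∃ t, chk3 f_A00pm_012_s1 t 20 15 1 = true := ex3_b t1017_A00pm_012_s1 t1014_A00pm_012_s1

theorem t1019_A00pm_012_s1 : ∃ t, chk3 f_A00pm_012_s1 t 10 15 1 = true := ex3_a t1018_A00pm_012_s1 t1002_A00pm_012_s1

theorem t1020_A00pm_012_s1 : ∃ t, chk3 f_A00pm_012_s1 t 167 29 1 = true := ex3_c k970_A00pm_012_s1 k971_A00pm_012_s1

theorem t1021_A00pm_012_s1 : ∃ t, chk3 f_A00pm_012_s1 t 83 29 1 = true := ex3_a k969_A00pm_012_s1 t1020_A00pm_012_s1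

theorem t1022_A00pm_012_s1 : ∃ t, chk3 f_A00pm_012_s1 t 332 56 1 = true := ex3_c k964_A00pm_012_s1 k965_A00pm_012_s1

theorem t1023_A00pm_012_s1 : ∃ t, chk3 f_A00pm_012_s1 t 166 56 1 = true := ex3_a t1022_A00pm_012_s1 k966_A00pm_012_s1

theorem t1024_A00pm_012_s1 : ∃ t, chk3 f_A00pm_012_s1 t 83 56 1 = true := ex3_a t1023_A00pm_012_s1 k967_A00pm_012_s1

theorem t1025_A00pm_012_s1 : ∃ t, chk3 f_A00pm_012_s1 t 83 28 1 = true := ex3_b t1024_A00pm_012_s1 k968_A00pm_012_s1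

theorem t1026_A00pm_012_s1 : ∃ t, chk3 f_A00pm_012_s1 t 83 14 1 = true := ex3_b t1025_A00pm_012_s1 t1021_A00pm_012_s1

theorem t1027_A00pm_012_s1 : ∃ t, chk3 f_A00pm_012_s1 t 165 114 3 = true := ex3_a k960_A00pm_012_s1 k961_A00pm_012_s1

theorem t1028_A00pm_012_s1 : ∃ t, chk3 f_A00pm_012_s1 t 165 114 2 = true := ex3_a k958_A00pm_012_s1 k959_A00pm_012_s1

theorem t1029_A00pm_012_s1 : ∃ t, chk3 f_A00pm_012_s1 t 165 114 1 = true := ex3_c t1028_A00pm_012_s1 t1027_A00pm_012_s1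

theorem t1030_A00pm_012_s1 : ∃ t, chk3 f_A00pm_012_s1 t 165 57 1 = true := ex3_b t1029_A00pm_012_s1 k962_A00pm_012_s1

theorem t1031_A00pm_012_s1 : ∃ t, chk3 f_A00pm_012_s1 t 164 115 3 = true := ex3_c k956_A00pm_012_s1 k957_A00pm_012_s1

theorem t1032_A00pm_012_s1 : ∃ t, chk3 f_A00pm_012_s1 t 164 57 3 = true := ex3_b k955_A00pm_012_s1 t1031_A00pm_012_s1

theorem t1033_A00pm_012_s1 : ∃ t, chk3 f_A00pm_012_s1 t 164 115 2 = true := ex3_a k953_A00pm_012_s1 k954_A00pm_012_s1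

theorem t1034_A00pm_012_s1 : ∃ t, chk3 f_A00pm_012_s1 t 164 57 2 = true := ex3_b k952_A00pm_012_s1 t1033_A00pm_012_s1

theorem t1035_A00pm_012_s1 : ∃ t, chk3 f_A00pm_012_s1 t 164 57 1 = true := ex3_c t1034_A00pm_012_s1 t1032_A00pm_012_s1

theorem t1036_A00pm_012_s1 : ∃ t, chk3 f_A00pm_012_s1 t 82 57 1 = true := ex3_a t1035_A00pm_012_s1 t1030_A00pm_012_s1

theorem t1037_A00pm_012_s1 : ∃ t, chk3 f_A00pm_012_s1 t 82 28 1 = true := ex3_b k951_A00pm_012_s1 t1036_A00pm_012_s1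

theorem t1038_A00pm_012_s1 : ∃ t, chk3 f_A00pm_012_s1 t 82 14 1 = true := ex3_b t1037_A00pm_012_s1 k963_A00pm_012_s1

theorem t1039_A00pm_012_s1 : ∃ t, chk3 f_A00pm_012_s1 t 41 14 1 = true := ex3_a t1038_A00pm_012_s1 t1026_A00pm_012_s1

theorem t1040_A00pm_012_s1 : ∃ t, chk3 f_A00pm_012_s1 t 81 116 3 = true := ex3_a k947_A00pm_012_s1 k948_A00pm_012_s1

theorem t1041_A00pm_012_s1 : ∃ t, chk3 f_A00pm_012_s1 t 163 116 2 = true := ex3_b k945_A00pm_012_s1 k946_A00pm_012_s1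

theorem t1042_A00pm_012_s1 : ∃ t, chk3 f_A00pm_012_s1 t 81 116 2 = true := ex3_a k944_A00pm_012_s1 t1041_A00pm_012_s1

theorem t1043_A00pm_012_s1 : ∃ t, chk3 f_A00pm_012_s1 t 81 116 1 = true := ex3_c t1042_A00pm_012_s1 t1040_A00pm_012_s1

theorem t1044_A00pm_012_s1 : ∃ t, chk3 f_A00pm_012_s1 t 81 58 1 = true := ex3_b t1043_A00pm_012_s1 k949_A00pm_012_s1

theorem t1045_A00pm_012_s1 : ∃ t, chk3 f_A00pm_012_s1 t 81 29 1 = true := ex3_b t1044_A00pm_012_s1 k950_A00pm_012_s1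

theorem t1046_A00pm_012_s1 : ∃ t, chk3 f_A00pm_012_s1 t 80 58 1 = true := ex3_a k941_A00pm_012_s1 k942_A00pm_012_s1

theorem t1047_A00pm_012_s1 : ∃ t, chk3 f_A00pm_012_s1 t 80 29 1 = true := ex3_b t1046_A00pm_012_s1 k943_A00pm_012_s1

theorem t1048_A00pm_012_s1 : ∃ t, chk3 f_A00pm_012_s1 t 40 29 1 = true := ex3_a t1047_A00pm_012_s1 t1045_A00pm_012_s1

theorem t1049_A00pm_012_s1 : ∃ t, chk3 f_A00pm_012_s1 t 81 57 1 = true := ex3_c k939_A00pm_012_s1 k940_A00pm_012_s1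

theorem t1050_A00pm_012_s1 : ∃ t, chk3 f_A00pm_012_s1 t 40 57 1 = true := ex3_a k938_A00pm_012_s1 t1049_A00pm_012_s1

theorem t1051_A00pm_012_s1 : ∃ t, chk3 f_A00pm_012_s1 t 40 28 1 = true := ex3_b k937_A00pm_012_s1 t1050_A00pm_012_s1

theorem t1052_A00pm_012_s1 : ∃ t, chk3 f_A00pm_012_s1 t 40 14 1 = true := ex3_b t1051_A00pm_012_s1 t1048_A00pm_012_s1

theorem t1053_A00pm_012_s1 : ∃ t, chk3 f_A00pm_012_s1 t 20 14 1 = true := ex3_a t1052_A00pm_012_s1 t1039_A00pm_012_s1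

theorem t1054_A00pm_012_s1 : ∃ t, chk3 f_A00pm_012_s1 t 10 14 1 = true := ex3_a t1053_A00pm_012_s1 k972_A00pm_012_s1

theorem t1055_A00pm_012_s1 : ∃ t, chk3 f_A00pm_012_s1 t 10 7 1 = true := ex3_b t1054_A00pm_012_s1 t1019_A00pm_012_s1

theorem t1056_A00pm_012_s1 : ∃ t, chk3 f_A00pm_012_s1 t 5 7 1 = true := ex3_a t1055_A00pm_012_s1 t1001_A00pm_012_s1

theorem t1057_A00pm_012_s1 : ∃ t, chk3 f_A00pm_012_s1 t 11 12 1 = true := ex3_c k934_A00pm_012_s1 k935_A00pm_012_s1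

theorem t1058_A00pm_012_s1 : ∃ t, chk3 f_A00pm_012_s1 t 11 6 1 = true := ex3_b t1057_A00pm_012_s1 k936_A00pm_012_s1

theorem t1059_A00pm_012_s1 : ∃ t, chk3 f_A00pm_012_s1 t 21 12 3 = true := ex3_a k931_A00pm_012_s1 k932_A00pm_012_s1

theorem t1060_A00pm_012_s1 : ∃ t, chk3 f_A00pm_012_s1 t 21 12 2 = true := ex3_b k929_A00pm_012_s1 k930_A00pm_012_s1

theorem t1061_A00pm_012_s1 : ∃ t, chk3 f_A00pm_012_s1 t 21 12 1 = true := ex3_c t1060_A00pm_012_s1 t1059_A00pm_012_s1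

theorem t1062_A00pm_012_s1 : ∃ t, chk3 f_A00pm_012_s1 t 21 6 1 = true := ex3_b t1061_A00pm_012_s1 k933_A00pm_012_s1

theorem t1063_A00pm_012_s1 : ∃ t, chk3 f_A00pm_012_s1 t 10726 27 1 = true := ex3_a k924_A00pm_012_s1 k925_A00pm_012_s1

theorem t1064_A00pm_012_s1 : ∃ t, chk3 f_A00pm_012_s1 t 5363 27 1 = true := ex3_a t1063_A00pm_012_s1 k926_A00pm_012_s1

theorem t1065_A00pm_012_s1 : ∃ t, chk3 f_A00pm_012_s1 t 2681 27 1 = true := ex3_a k923_A00pm_012_s1 t1064_A00pm_012_s1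

theorem t1066_A00pm_012_s1 : ∃ t, chk3 f_A00pm_012_s1 t 1340 27 1 = true := ex3_a k922_A00pm_012_s1 t1065_A00pm_012_s1

theorem t1067_A00pm_012_s1 : ∃ t, chk3 f_A00pm_012_s1 t 670 27 1 = true := ex3_a t1066_A00pm_012_s1 k927_A00pm_012_s1

theorem t1068_A00pm_012_s1 : ∃ t, chk3 f_A00pm_012_s1 t 335 27 1 = true := ex3_a t1067_A00pm_012_s1 k928_A00pm_012_s1

theorem t1069_A00pm_012_s1 : ∃ t, chk3 f_A00pm_012_s1 t 167 27 1 = true := ex3_a k921_A00pm_012_s1 t1068_A00pm_012_s1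

theorem t1070_A00pm_012_s1 : ∃ t, chk3 f_A00pm_012_s1 t 686503 26 1 = true := ex3_a k914_A00pm_012_s1 k915_A00pm_012_s1

theorem t1071_A00pm_012_s1 : ∃ t, chk3 f_A00pm_012_s1 t 343251 26 1 = true := ex3_a k913_A00pm_012_s1 t1070_A00pm_012_s1

theorem t1072_A00pm_012_s1 : ∃ t, chk3 f_A00pm_012_s1 t 171625 26 1 = true := ex3_a k912_A00pm_012_s1 t1071_A00pm_012_s1

theorem t1073_A00pm_012_s1 : ∃ t, chk3 f_A00pm_012_s1 t 85812 26 1 = true := ex3_a k911_A00pm_012_s1 t1072_A00pm_012_s1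

theorem t1074_A00pm_012_s1 : ∃ t, chk3 f_A00pm_012_s1 t 42906 26 1 = true := ex3_a t1073_A00pm_012_s1 k916_A00pm_012_s1

theorem t1075_A00pm_012_s1 : ∃ t, chk3 f_A00pm_012_s1 t 21453 26 1 = true := ex3_a t1074_A00pm_012_s1 k917_A00pm_012_s1

theorem t1076_A00pm_012_s1 : ∃ t, chk3 f_A00pm_012_s1 t 10726 26 1 = true := ex3_a k910_A00pm_012_s1 t1075_A00pm_012_s1

theorem t1077_A00pm_012_s1 : ∃ t, chk3 f_A00pm_012_s1 t 5363 26 1 = true := ex3_a t1076_A00pm_012_s1 k918_A00pm_012_s1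

theorem t1078_A00pm_012_s1 : ∃ t, chk3 f_A00pm_012_s1 t 2681 26 1 = true := ex3_a k909_A00pm_012_s1 t1077_A00pm_012_s1

theorem t1079_A00pm_012_s1 : ∃ t, chk3 f_A00pm_012_s1 t 1340 26 1 = true := ex3_a k908_A00pm_012_s1 t1078_A00pm_012_s1

theorem t1080_A00pm_012_s1 : ∃ t, chk3 f_A00pm_012_s1 t 670 26 1 = true := ex3_a t1079_A00pm_012_s1 k919_A00pm_012_s1

theorem t1081_A00pm_012_s1 : ∃ t, chk3 f_A00pm_012_s1 t 335 26 1 = true := ex3_a t1080_A00pm_012_s1 k920_A00pm_012_s1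

theorem t1082_A00pm_012_s1 : ∃ t, chk3 f_A00pm_012_s1 t 167 26 1 = true := ex3_a k907_A00pm_012_s1 t1081_A00pm_012_s1

theorem t1083_A00pm_012_s1 : ∃ t, chk3 f_A00pm_012_s1 t 167 13 1 = true := ex3_b t1082_A00pm_012_s1 t1069_A00pm_012_s1

theorem t1084_A00pm_012_s1 : ∃ t, chk3 f_A00pm_012_s1 t 1341 25 1 = true := ex3_a k904_A00pm_012_s1 k905_A00pm_012_s1

theorem t1085_A00pm_012_s1 : ∃ t, chk3 f_A00pm_012_s1 t 10984053 25 1 = true := ex3_a k897_A00pm_012_s1 k898_A00pm_012_s1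

theorem t1086_A00pm_012_s1 : ∃ t, chk3 f_A00pm_012_s1 t 5492026 25 1 = true := ex3_a k896_A00pm_012_s1 t1085_A00pm_012_s1

theorem t1087_A00pm_012_s1 : ∃ t, chk3 f_A00pm_012_s1 t 2746013 25 1 = true := ex3_a t1086_A00pm_012_s1 k899_A00pm_012_s1

theorem t1088_A00pm_012_s1 : ∃ t, chk3 f_A00pm_012_s1 t 1373006 25 1 = true := ex3_a k895_A00pm_012_s1 t1087_A00pm_012_s1

theorem t1089_A00pm_012_s1 : ∃ t, chk3 f_A00pm_012_s1 t 686503 25 1 = true := ex3_a t1088_A00pm_012_s1 k900_A00pm_012_s1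

theorem t1090_A00pm_012_s1 : ∃ t, chk3 f_A00pm_012_s1 t 343251 25 1 = true := ex3_a k894_A00pm_012_s1 t1089_A00pm_012_s1

theorem t1091_A00pm_012_s1 : ∃ t, chk3 f_A00pm_012_s1 t 171625 25 1 = true := ex3_a k893_A00pm_012_s1 t1090_A00pm_012_s1

theorem t1092_A00pm_012_s1 : ∃ t, chk3 f_A00pm_012_s1 t 85812 25 1 = true := ex3_a k892_A00pm_012_s1 t1091_A00pm_012_s1

theorem t1093_A00pm_012_s1 : ∃ t, chk3 f_A00pm_012_s1 t 42906 25 1 = true := ex3_a t1092_A00pm_012_s1 k901_A00pm_012_s1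

theorem t1094_A00pm_012_s1 : ∃ t, chk3 f_A00pm_012_s1 t 21453 25 1 = true := ex3_a t1093_A00pm_012_s1 k902_A00pm_012_s1

theorem t1095_A00pm_012_s1 : ∃ t, chk3 f_A00pm_012_s1 t 10726 25 1 = true := ex3_a k891_A00pm_012_s1 t1094_A00pm_012_s1

theorem t1096_A00pm_012_s1 : ∃ t, chk3 f_A00pm_012_s1 t 5363 25 1 = true := ex3_a t1095_A00pm_012_s1 k903_A00pm_012_s1

theorem t1097_A00pm_012_s1 : ∃ t, chk3 f_A00pm_012_s1 t 2681 25 1 = true := ex3_a k890_A00pm_012_s1 t1096_A00pm_012_s1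

theorem t1098_A00pm_012_s1 : ∃ t, chk3 f_A00pm_012_s1 t 1340 25 1 = true := ex3_a k889_A00pm_012_s1 t1097_A00pm_012_s1

theorem t1099_A00pm_012_s1 : ∃ t, chk3 f_A00pm_012_s1 t 670 25 1 = true := ex3_a t1098_A00pm_012_s1 t1084_A00pm_012_s1

theorem t1100_A00pm_012_s1 : ∃ t, chk3 f_A00pm_012_s1 t 335 25 1 = true := ex3_a t1099_A00pm_012_s1 k906_A00pm_012_s1

theorem t1101_A00pm_012_s1 : ∃ t, chk3 f_A00pm_012_s1 t 167 25 1 = true := ex3_a k888_A00pm_012_s1 t1100_A00pm_012_s1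

theorem t1102_A00pm_012_s1 : ∃ t, chk3 f_A00pm_012_s1 t 10731 24 1 = true := ex3_a k884_A00pm_012_s1 k885_A00pm_012_s1

theorem t1103_A00pm_012_s1 : ∃ t, chk3 f_A00pm_012_s1 t 5365 24 1 = true := ex3_a k883_A00pm_012_s1 t1102_A00pm_012_s1

theorem t1104_A00pm_012_s1 : ∃ t, chk3 f_A00pm_012_s1 t 2682 24 1 = true := ex3_a k882_A00pm_012_s1 t1103_A00pm_012_s1

theorem t1105_A00pm_012_s1 : ∃ t, chk3 f_A00pm_012_s1 t 1341 24 1 = true := ex3_a t1104_A00pm_012_s1 k886_A00pm_012_s1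

theorem t1106_A00pm_012_s1 : ∃ t, chk3 f_A00pm_012_s1 t 43936213 24 1 = true := ex3_a k874_A00pm_012_s1 k875_A00pm_012_s1

theorem t1107_A00pm_012_s1 : ∃ t, chk3 f_A00pm_012_s1 t 43936212 24 1 = true := ex3_a k872_A00pm_012_s1 k873_A00pm_012_s1

theorem t1108_A00pm_012_s1 : ∃ t, chk3 f_A00pm_012_s1 t 21968106 24 1 = true := ex3_a t1107_A00pm_012_s1 t1106_A00pm_012_s1

theorem t1109_A00pm_012_s1 : ∃ t, chk3 f_A00pm_012_s1 t 10984053 24 1 = true := ex3_a t1108_A00pm_012_s1 k876_A00pm_012_s1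

theorem t1110_A00pm_012_s1 : ∃ t, chk3 f_A00pm_012_s1 t 21968105 24 1 = true := ex3_a k870_A00pm_012_s1 k871_A00pm_012_s1

theorem t1111_A00pm_012_s1 : ∃ t, chk3 f_A00pm_012_s1 t 21968104 24 1 = true := ex3_c k868_A00pm_012_s1 k869_A00pm_012_s1

theorem t1112_A00pm_012_s1 : ∃ t, chk3 f_A00pm_012_s1 t 10984052 24 1 = true := ex3_a t1111_A00pm_012_s1 t1110_A00pm_012_s1

theorem t1113_A00pm_012_s1 : ∃ t, chk3 f_A00pm_012_s1 t 5492026 24 1 = true := ex3_a t1112_A00pm_012_s1 t1109_A00pm_012_s1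

theorem t1114_A00pm_012_s1 : ∃ t, chk3 f_A00pm_012_s1 t 2746013 24 1 = true := ex3_a t1113_A00pm_012_s1 k877_A00pm_012_s1

theorem t1115_A00pm_012_s1 : ∃ t, chk3 f_A00pm_012_s1 t 10984051 24 5 = true := ex3_b k865_A00pm_012_s1 k866_A00pm_012_s1

theorem t1116_A00pm_012_s1 : ∃ t, chk3 f_A00pm_012_s1 t 10984051 24 2 = true := ex3_c k864_A00pm_012_s1 t1115_A00pm_012_s1

theorem t1117_A00pm_012_s1 : ∃ t, chk3 f_A00pm_012_s1 t 10984051 24 1 = true := ex3_c t1116_A00pm_012_s1 k867_A00pm_012_s1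

theorem t1118_A00pm_012_s1 : ∃ t, chk3 f_A00pm_012_s1 t 5492025 24 1 = true := ex3_a k863_A00pm_012_s1 t1117_A00pm_012_s1

theorem t1119_A00pm_012_s1 : ∃ t, chk3 f_A00pm_012_s1 t 2746012 24 1 = true := ex3_a k862_A00pm_012_s1 t1118_A00pm_012_s1

theorem t1120_A00pm_012_s1 : ∃ t, chk3 f_A00pm_012_s1 t 1373006 24 1 = true := ex3_a t1119_A00pm_012_s1 t1114_A00pm_012_s1

theorem t1121_A00pm_012_s1 : ∃ t, chk3 f_A00pm_012_s1 t 686503 24 1 = true := ex3_a t1120_A00pm_012_s1 k878_A00pm_012_s1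

theorem t1122_A00pm_012_s1 : ∃ t, chk3 f_A00pm_012_s1 t 1373005 24 1 = true := ex3_a k860_A00pm_012_s1 k861_A00pm_012_s1

theorem t1123_A00pm_012_s1 : ∃ t, chk3 f_A00pm_012_s1 t 686502 24 1 = true := ex3_a k859_A00pm_012_s1 t1122_A00pm_012_s1

theorem t1124_A00pm_012_s1 : ∃ t, chk3 f_A00pm_012_s1 t 343251 24 1 = true := ex3_a t1123_A00pm_012_s1 t1121_A00pm_012_s1

theorem t1125_A00pm_012_s1 : ∃ t, chk3 f_A00pm_012_s1 t 343250 24 1 = true := ex3_a k857_A00pm_012_s1 k858_A00pm_012_s1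

theorem t1126_A00pm_012_s1 : ∃ t, chk3 f_A00pm_012_s1 t 171625 24 1 = true := ex3_a t1125_A00pm_012_s1 t1124_A00pm_012_s1

theorem t1127_A00pm_012_s1 : ∃ t, chk3 f_A00pm_012_s1 t 171624 24 1 = true := ex3_a k855_A00pm_012_s1 k856_A00pm_012_s1

theorem t1128_A00pm_012_s1 : ∃ t, chk3 f_A00pm_012_s1 t 85812 24 1 = true := ex3_a t1127_A00pm_012_s1 t1126_A00pm_012_s1

theorem t1129_A00pm_012_s1 : ∃ t, chk3 f_A00pm_012_s1 t 42906 24 1 = true := ex3_a t1128_A00pm_012_s1 k879_A00pm_012_s1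

theorem t1130_A00pm_012_s1 : ∃ t, chk3 f_A00pm_012_s1 t 21453 24 1 = true := ex3_a t1129_A00pm_012_s1 k880_A00pm_012_s1

theorem t1131_A00pm_012_s1 : ∃ t, chk3 f_A00pm_012_s1 t 42905 24 1 = true := ex3_a k853_A00pm_012_s1 k854_A00pm_012_s1

theorem t1132_A00pm_012_s1 : ∃ t, chk3 f_A00pm_012_s1 t 21452 24 1 = true := ex3_a k852_A00pm_012_s1 t1131_A00pm_012_s1

theorem t1133_A00pm_012_s1 : ∃ t, chk3 f_A00pm_012_s1 t 10726 24 1 = true := ex3_a t1132_A00pm_012_s1 t1130_A00pm_012_s1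

theorem t1134_A00pm_012_s1 : ∃ t, chk3 f_A00pm_012_s1 t 5363 24 1 = true := ex3_a t1133_A00pm_012_s1 k881_A00pm_012_s1

theorem t1135_A00pm_012_s1 : ∃ t, chk3 f_A00pm_012_s1 t 5362 24 1 = true := ex3_a k850_A00pm_012_s1 k851_A00pm_012_s1

theorem t1136_A00pm_012_s1 : ∃ t, chk3 f_A00pm_012_s1 t 2681 24 1 = true := ex3_a t1135_A00pm_012_s1 t1134_A00pm_012_s1

theorem t1137_A00pm_012_s1 : ∃ t, chk3 f_A00pm_012_s1 t 1340 24 1 = true := ex3_a k849_A00pm_012_s1 t1136_A00pm_012_s1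

theorem t1138_A00pm_012_s1 : ∃ t, chk3 f_A00pm_012_s1 t 670 24 1 = true := ex3_a t1137_A00pm_012_s1 t1105_A00pm_012_s1

theorem t1139_A00pm_012_s1 : ∃ t, chk3 f_A00pm_012_s1 t 335 24 1 = true := ex3_a t1138_A00pm_012_s1 k887_A00pm_012_s1

theorem t1140_A00pm_012_s1 : ∃ t, chk3 f_A00pm_012_s1 t 669 24 1 = true := ex3_a k847_A00pm_012_s1 k848_A00pm_012_s1

theorem t1141_A00pm_012_s1 : ∃ t, chk3 f_A00pm_012_s1 t 334 24 1 = true := ex3_a k846_A00pm_012_s1 t1140_A00pm_012_s1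

theorem t1142_A00pm_012_s1 : ∃ t, chk3 f_A00pm_012_s1 t 167 24 1 = true := ex3_a t1141_A00pm_012_s1 t1139_A00pm_012_s1

theorem t1143_A00pm_012_s1 : ∃ t, chk3 f_A00pm_012_s1 t 167 12 1 = true := ex3_b t1142_A00pm_012_s1 t1101_A00pm_012_s1

theorem t1144_A00pm_012_s1 : ∃ t, chk3 f_A00pm_012_s1 t 167 6 1 = true := ex3_b t1143_A00pm_012_s1 t1083_A00pm_012_s1

theorem t1145_A00pm_012_s1 : ∃ t, chk3 f_A00pm_012_s1 t 332 24 3 = true := ex3_b k841_A00pm_012_s1 k842_A00pm_012_s1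

theorem t1146_A00pm_012_s1 : ∃ t, chk3 f_A00pm_012_s1 t 332 12 3 = true := ex3_b t1145_A00pm_012_s1 k843_A00pm_012_s1

theorem t1147_A00pm_012_s1 : ∃ t, chk3 f_A00pm_012_s1 t 1328 192 4 = true := ex3_b k832_A00pm_012_s1 k833_A00pm_012_s1

theorem t1148_A00pm_012_s1 : ∃ t, chk3 f_A00pm_012_s1 t 1328 192 2 = true := ex3_c t1147_A00pm_012_s1 k834_A00pm_012_s1

theorem t1149_A00pm_012_s1 : ∃ t, chk3 f_A00pm_012_s1 t 664 192 2 = true := ex3_a t1148_A00pm_012_s1 k835_A00pm_012_s1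

theorem t1150_A00pm_012_s1 : ∃ t, chk3 f_A00pm_012_s1 t 664 96 2 = true := ex3_b t1149_A00pm_012_s1 k836_A00pm_012_s1

theorem t1151_A00pm_012_s1 : ∃ t, chk3 f_A00pm_012_s1 t 664 48 2 = true := ex3_b t1150_A00pm_012_s1 k837_A00pm_012_s1

theorem t1152_A00pm_012_s1 : ∃ t, chk3 f_A00pm_012_s1 t 332 48 2 = true := ex3_a t1151_A00pm_012_s1 k838_A00pm_012_s1

theorem t1153_A00pm_012_s1 : ∃ t, chk3 f_A00pm_012_s1 t 332 24 2 = true := ex3_b t1152_A00pm_012_s1 k839_A00pm_012_s1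

theorem t1154_A00pm_012_s1 : ∃ t, chk3 f_A00pm_012_s1 t 332 12 2 = true := ex3_b t1153_A00pm_012_s1 k840_A00pm_012_s1

theorem t1155_A00pm_012_s1 : ∃ t, chk3 f_A00pm_012_s1 t 332 12 1 = true := ex3_c t1154_A00pm_012_s1 t1146_A00pm_012_s1

theorem t1156_A00pm_012_s1 : ∃ t, chk3 f_A00pm_012_s1 t 166 12 1 = true := ex3_a t1155_A00pm_012_s1 k844_A00pm_012_s1

theorem t1157_A00pm_012_s1 : ∃ t, chk3 f_A00pm_012_s1 t 166 6 1 = true := ex3_b t1156_A00pm_012_s1 k845_A00pm_012_s1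

theorem t1158_A00pm_012_s1 : ∃ t, chk3 f_A00pm_012_s1 t 83 6 1 = true := ex3_a t1157_A00pm_012_s1 t1144_A00pm_012_s1

theorem t1159_A00pm_012_s1 : ∃ t, chk3 f_A00pm_012_s1 t 663 96 3 = true := ex3_c k826_A00pm_012_s1 k827_A00pm_012_s1

theorem t1160_A00pm_012_s1 : ∃ t, chk3 f_A00pm_012_s1 t 663 48 3 = true := ex3_b t1159_A00pm_012_s1 k828_A00pm_012_s1

theorem t1161_A00pm_012_s1 : ∃ t, chk3 f_A00pm_012_s1 t 662 48 3 = true := ex3_c k824_A00pm_012_s1 k825_A00pm_012_s1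

theorem t1162_A00pm_012_s1 : ∃ t, chk3 f_A00pm_012_s1 t 331 48 3 = true := ex3_a t1161_A00pm_012_s1 t1160_A00pm_012_s1

theorem t1163_A00pm_012_s1 : ∃ t, chk3 f_A00pm_012_s1 t 331 24 3 = true := ex3_b t1162_A00pm_012_s1 k829_A00pm_012_s1

theorem t1164_A00pm_012_s1 : ∃ t, chk3 f_A00pm_012_s1 t 330 98 3 = true := ex3_a k821_A00pm_012_s1 k822_A00pm_012_s1

theorem t1165_A00pm_012_s1 : ∃ t, chk3 f_A00pm_012_s1 t 330 49 3 = true := ex3_b t1164_A00pm_012_s1 k823_A00pm_012_s1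

theorem t1166_A00pm_012_s1 : ∃ t, chk3 f_A00pm_012_s1 t 330 24 3 = true := ex3_b k820_A00pm_012_s1 t1165_A00pm_012_s1

theorem t1167_A00pm_012_s1 : ∃ t, chk3 f_A00pm_012_s1 t 165 24 3 = true := ex3_a t1166_A00pm_012_s1 t1163_A00pm_012_s1

theorem t1168_A00pm_012_s1 : ∃ t, chk3 f_A00pm_012_s1 t 165 12 3 = true := ex3_b t1167_A00pm_012_s1 k830_A00pm_012_s1

theorem t1169_A00pm_012_s1 : ∃ t, chk3 f_A00pm_012_s1 t 328 100 3 = true := ex3_a k815_A00pm_012_s1 k816_A00pm_012_s1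

theorem t1170_A00pm_012_s1 : ∃ t, chk3 f_A00pm_012_s1 t 328 50 3 = true := ex3_b t1169_A00pm_012_s1 k817_A00pm_012_s1

theorem t1171_A00pm_012_s1 : ∃ t, chk3 f_A00pm_012_s1 t 164 50 3 = true := ex3_a t1170_A00pm_012_s1 k818_A00pm_012_s1

theorem t1172_A00pm_012_s1 : ∃ t, chk3 f_A00pm_012_s1 t 164 25 3 = true := ex3_b t1171_A00pm_012_s1 k819_A00pm_012_s1

theorem t1173_A00pm_012_s1 : ∃ t, chk3 f_A00pm_012_s1 t 329 24 6 = true := ex3_b k812_A00pm_012_s1 k813_A00pm_012_s1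

theorem t1174_A00pm_012_s1 : ∃ t, chk3 f_A00pm_012_s1 t 164 24 6 = true := ex3_a k811_A00pm_012_s1 t1173_A00pm_012_s1

theorem t1175_A00pm_012_s1 : ∃ t, chk3 f_A00pm_012_s1 t 164 24 3 = true := ex3_c t1174_A00pm_012_s1 k814_A00pm_012_s1

theorem t1176_A00pm_012_s1 : ∃ t, chk3 f_A00pm_012_s1 t 164 12 3 = true := ex3_b t1175_A00pm_012_s1 t1172_A00pm_012_s1

theorem t1177_A00pm_012_s1 : ∃ t, chk3 f_A00pm_012_s1 t 82 12 3 = true := ex3_a t1176_A00pm_012_s1 t1168_A00pm_012_s1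

theorem t1178_A00pm_012_s1 : ∃ t, chk3 f_A00pm_012_s1 t 662 97 5 = true := ex3_b k806_A00pm_012_s1 k807_A00pm_012_s1

theorem t1179_A00pm_012_s1 : ∃ t, chk3 f_A00pm_012_s1 t 662 97 4 = true := ex3_b k804_A00pm_012_s1 k805_A00pm_012_s1

theorem t1180_A00pm_012_s1 : ∃ t, chk3 f_A00pm_012_s1 t 662 97 2 = true := ex3_c t1179_A00pm_012_s1 t1178_A00pm_012_s1

theorem t1181_A00pm_012_s1 : ∃ t, chk3 f_A00pm_012_s1 t 331 97 2 = true := ex3_a t1180_A00pm_012_s1 k808_A00pm_012_s1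

theorem t1182_A00pm_012_s1 : ∃ t, chk3 f_A00pm_012_s1 t 663 193 5 = true := ex3_a k802_A00pm_012_s1 k803_A00pm_012_s1

theorem t1183_A00pm_012_s1 : ∃ t, chk3 f_A00pm_012_s1 t 331 193 5 = true := ex3_a k801_A00pm_012_s1 t1182_A00pm_012_s1

theorem t1184_A00pm_012_s1 : ∃ t, chk3 f_A00pm_012_s1 t 331 96 5 = true := ex3_b k800_A00pm_012_s1 t1183_A00pm_012_s1

theorem t1185_A00pm_012_s1 : ∃ t, chk3 f_A00pm_012_s1 t 663 193 4 = true := ex3_a k798_A00pm_012_s1 k799_A00pm_012_s1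

theorem t1186_A00pm_012_s1 : ∃ t, chk3 f_A00pm_012_s1 t 331 193 4 = true := ex3_a k797_A00pm_012_s1 t1185_A00pm_012_s1

theorem t1187_A00pm_012_s1 : ∃ t, chk3 f_A00pm_012_s1 t 331 96 4 = true := ex3_b k796_A00pm_012_s1 t1186_A00pm_012_s1

theorem t1188_A00pm_012_s1 : ∃ t, chk3 f_A00pm_012_s1 t 331 96 2 = true := ex3_c t1187_A00pm_012_s1 t1184_A00pm_012_s1

theorem t1189_A00pm_012_s1 : ∃ t, chk3 f_A00pm_012_s1 t 331 48 2 = true := ex3_b t1188_A00pm_012_s1 t1181_A00pm_012_s1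

theorem t1190_A00pm_012_s1 : ∃ t, chk3 f_A00pm_012_s1 t 331 24 2 = true := ex3_b t1189_A00pm_012_s1 k809_A00pm_012_s1

theorem t1191_A00pm_012_s1 : ∃ t, chk3 f_A00pm_012_s1 t 660 98 2 = true := ex3_b k792_A00pm_012_s1 k793_A00pm_012_s1

theorem t1192_A00pm_012_s1 : ∃ t, chk3 f_A00pm_012_s1 t 330 98 2 = true := ex3_a t1191_A00pm_012_s1 k794_A00pm_012_s1

theorem t1193_A00pm_012_s1 : ∃ t, chk3 f_A00pm_012_s1 t 330 49 2 = true := ex3_b t1192_A00pm_012_s1 k795_A00pm_012_s1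

theorem t1194_A00pm_012_s1 : ∃ t, chk3 f_A00pm_012_s1 t 330 24 2 = true := ex3_b k791_A00pm_012_s1 t1193_A00pm_012_s1

theorem t1195_A00pm_012_s1 : ∃ t, chk3 f_A00pm_012_s1 t 165 24 2 = true := ex3_a t1194_A00pm_012_s1 t1190_A00pm_012_s1

theorem t1196_A00pm_012_s1 : ∃ t, chk3 f_A00pm_012_s1 t 165 12 2 = true := ex3_b t1195_A00pm_012_s1 k810_A00pm_012_s1

theorem t1197_A00pm_012_s1 : ∃ t, chk3 f_A00pm_012_s1 t 328 100 2 = true := ex3_c k786_A00pm_012_s1 k787_A00pm_012_s1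

theorem t1198_A00pm_012_s1 : ∃ t, chk3 f_A00pm_012_s1 t 328 50 2 = true := ex3_b t1197_A00pm_012_s1 k788_A00pm_012_s1

theorem t1199_A00pm_012_s1 : ∃ t, chk3 f_A00pm_012_s1 t 164 50 2 = true := ex3_a t1198_A00pm_012_s1 k789_A00pm_012_s1

theorem t1200_A00pm_012_s1 : ∃ t, chk3 f_A00pm_012_s1 t 164 25 2 = true := ex3_b t1199_A00pm_012_s1 k790_A00pm_012_s1

theorem t1201_A00pm_012_s1 : ∃ t, chk3 f_A00pm_012_s1 t 329 49 5 = true := ex3_b k784_A00pm_012_s1 k785_A00pm_012_s1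

theorem t1202_A00pm_012_s1 : ∃ t, chk3 f_A00pm_012_s1 t 329 24 5 = true := ex3_b k783_A00pm_012_s1 t1201_A00pm_012_s1

theorem t1203_A00pm_012_s1 : ∃ t, chk3 f_A00pm_012_s1 t 164 24 5 = true := ex3_a k782_A00pm_012_s1 t1202_A00pm_012_s1

theorem t1204_A00pm_012_s1 : ∃ t, chk3 f_A00pm_012_s1 t 329 24 4 = true := ex3_b k780_A00pm_012_s1 k781_A00pm_012_s1

theorem t1205_A00pm_012_s1 : ∃ t, chk3 f_A00pm_012_s1 t 164 24 4 = true := ex3_a k779_A00pm_012_s1 t1204_A00pm_012_s1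

theorem t1206_A00pm_012_s1 : ∃ t, chk3 f_A00pm_012_s1 t 164 24 2 = true := ex3_c t1205_A00pm_012_s1 t1203_A00pm_012_s1

theorem t1207_A00pm_012_s1 : ∃ t, chk3 f_A00pm_012_s1 t 164 12 2 = true := ex3_b t1206_A00pm_012_s1 t1200_A00pm_012_s1

theorem t1208_A00pm_012_s1 : ∃ t, chk3 f_A00pm_012_s1 t 82 12 2 = true := ex3_a t1207_A00pm_012_s1 t1196_A00pm_012_s1

theorem t1209_A00pm_012_s1 : ∃ t, chk3 f_A00pm_012_s1 t 82 12 1 = true := ex3_c t1208_A00pm_012_s1 t1177_A00pm_012_s1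

theorem t1210_A00pm_012_s1 : ∃ t, chk3 f_A00pm_012_s1 t 82 6 1 = true := ex3_b t1209_A00pm_012_s1 k831_A00pm_012_s1

theorem t1211_A00pm_012_s1 : ∃ t, chk3 f_A00pm_012_s1 t 41 6 1 = true := ex3_a t1210_A00pm_012_s1 t1158_A00pm_012_s1

theorem t1212_A00pm_012_s1 : ∃ t, chk3 f_A00pm_012_s1 t 81 26 3 = true := ex3_b k776_A00pm_012_s1 k777_A00pm_012_s1

theorem t1213_A00pm_012_s1 : ∃ t, chk3 f_A00pm_012_s1 t 81 26 1 = true := ex3_c k775_A00pm_012_s1 t1212_A00pm_012_s1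

theorem t1214_A00pm_012_s1 : ∃ t, chk3 f_A00pm_012_s1 t 323 104 3 = true := ex3_b k771_A00pm_012_s1 k772_A00pm_012_s1

theorem t1215_A00pm_012_s1 : ∃ t, chk3 f_A00pm_012_s1 t 323 52 3 = true := ex3_b t1214_A00pm_012_s1 k773_A00pm_012_s1

theorem t1216_A00pm_012_s1 : ∃ t, chk3 f_A00pm_012_s1 t 322 52 3 = true := ex3_c k769_A00pm_012_s1 k770_A00pm_012_s1

theorem t1217_A00pm_012_s1 : ∃ t, chk3 f_A00pm_012_s1 t 161 52 3 = true := ex3_a t1216_A00pm_012_s1 t1215_A00pm_012_s1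

theorem t1218_A00pm_012_s1 : ∃ t, chk3 f_A00pm_012_s1 t 161 26 3 = true := ex3_b t1217_A00pm_012_s1 k774_A00pm_012_s1

theorem t1219_A00pm_012_s1 : ∃ t, chk3 f_A00pm_012_s1 t 160 53 7 = true := ex3_b k767_A00pm_012_s1 k768_A00pm_012_s1

theorem t1220_A00pm_012_s1 : ∃ t, chk3 f_A00pm_012_s1 t 160 53 3 = true := ex3_c k766_A00pm_012_s1 t1219_A00pm_012_s1

theorem t1221_A00pm_012_s1 : ∃ t, chk3 f_A00pm_012_s1 t 160 26 3 = true := ex3_b k765_A00pm_012_s1 t1220_A00pm_012_s1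

theorem t1222_A00pm_012_s1 : ∃ t, chk3 f_A00pm_012_s1 t 80 26 3 = true := ex3_a t1221_A00pm_012_s1 t1218_A00pm_012_s1

theorem t1223_A00pm_012_s1 : ∃ t, chk3 f_A00pm_012_s1 t 161 52 2 = true := ex3_b k762_A00pm_012_s1 k763_A00pm_012_s1

theorem t1224_A00pm_012_s1 : ∃ t, chk3 f_A00pm_012_s1 t 161 26 2 = true := ex3_b t1223_A00pm_012_s1 k764_A00pm_012_s1

theorem t1225_A00pm_012_s1 : ∃ t, chk3 f_A00pm_012_s1 t 80 26 2 = true := ex3_a k761_A00pm_012_s1 t1224_A00pm_012_s1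

theorem t1226_A00pm_012_s1 : ∃ t, chk3 f_A00pm_012_s1 t 80 26 1 = true := ex3_c t1225_A00pm_012_s1 t1222_A00pm_012_s1

theorem t1227_A00pm_012_s1 : ∃ t, chk3 f_A00pm_012_s1 t 40 26 1 = true := ex3_a t1226_A00pm_012_s1 t1213_A00pm_012_s1

theorem t1228_A00pm_012_s1 : ∃ t, chk3 f_A00pm_012_s1 t 40 13 1 = true := ex3_b t1227_A00pm_012_s1 k778_A00pm_012_s1

theorem t1229_A00pm_012_s1 : ∃ t, chk3 f_A00pm_012_s1 t 326 102 3 = true := ex3_a k757_A00pm_012_s1 k758_A00pm_012_s1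

theorem t1230_A00pm_012_s1 : ∃ t, chk3 f_A00pm_012_s1 t 163 102 3 = true := ex3_a t1229_A00pm_012_s1 k759_A00pm_012_s1

theorem t1231_A00pm_012_s1 : ∃ t, chk3 f_A00pm_012_s1 t 163 51 3 = true := ex3_b t1230_A00pm_012_s1 k760_A00pm_012_s1

theorem t1232_A00pm_012_s1 : ∃ t, chk3 f_A00pm_012_s1 t 327 50 3 = true := ex3_c k755_A00pm_012_s1 k756_A00pm_012_s1

theorem t1233_A00pm_012_s1 : ∃ t, chk3 f_A00pm_012_s1 t 163 50 3 = true := ex3_a k754_A00pm_012_s1 t1232_A00pm_012_s1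

theorem t1234_A00pm_012_s1 : ∃ t, chk3 f_A00pm_012_s1 t 163 25 3 = true := ex3_b t1233_A00pm_012_s1 t1231_A00pm_012_s1

theorem t1235_A00pm_012_s1 : ∃ t, chk3 f_A00pm_012_s1 t 162 103 7 = true := ex3_a k752_A00pm_012_s1 k753_A00pm_012_s1

theorem t1236_A00pm_012_s1 : ∃ t, chk3 f_A00pm_012_s1 t 162 51 7 = true := ex3_b k751_A00pm_012_s1 t1235_A00pm_012_s1

theorem t1237_A00pm_012_s1 : ∃ t, chk3 f_A00pm_012_s1 t 162 25 7 = true := ex3_b k750_A00pm_012_s1 t1236_A00pm_012_s1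

theorem t1238_A00pm_012_s1 : ∃ t, chk3 f_A00pm_012_s1 t 162 25 6 = true := ex3_a k748_A00pm_012_s1 k749_A00pm_012_s1

theorem t1239_A00pm_012_s1 : ∃ t, chk3 f_A00pm_012_s1 t 162 25 3 = true := ex3_c t1238_A00pm_012_s1 t1237_A00pm_012_s1

theorem t1240_A00pm_012_s1 : ∃ t, chk3 f_A00pm_012_s1 t 81 25 3 = true := ex3_a t1239_A00pm_012_s1 t1234_A00pm_012_s1

theorem t1241_A00pm_012_s1 : ∃ t, chk3 f_A00pm_012_s1 t 40 25 3 = true := ex3_a k747_A00pm_012_s1 t1240_A00pm_012_s1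

theorem t1242_A00pm_012_s1 : ∃ t, chk3 f_A00pm_012_s1 t 81 24 3 = true := ex3_b k745_A00pm_012_s1 k746_A00pm_012_s1

theorem t1243_A00pm_012_s1 : ∃ t, chk3 f_A00pm_012_s1 t 40 24 3 = true := ex3_a k744_A00pm_012_s1 t1242_A00pm_012_s1

theorem t1244_A00pm_012_s1 : ∃ t, chk3 f_A00pm_012_s1 t 40 12 3 = true := ex3_b t1243_A00pm_012_s1 t1241_A00pm_012_s1

theorem t1245_A00pm_012_s1 : ∃ t, chk3 f_A00pm_012_s1 t 327 50 2 = true := ex3_c k741_A00pm_012_s1 k742_A00pm_012_s1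

theorem t1246_A00pm_012_s1 : ∃ t, chk3 f_A00pm_012_s1 t 163 50 2 = true := ex3_a k740_A00pm_012_s1 t1245_A00pm_012_s1

theorem t1247_A00pm_012_s1 : ∃ t, chk3 f_A00pm_012_s1 t 163 25 2 = true := ex3_b t1246_A00pm_012_s1 k743_A00pm_012_s1

theorem t1248_A00pm_012_s1 : ∃ t, chk3 f_A00pm_012_s1 t 162 25 2 = true := ex3_c k738_A00pm_012_s1 k739_A00pm_012_s1

theorem t1249_A00pm_012_s1 : ∃ t, chk3 f_A00pm_012_s1 t 81 25 2 = true := ex3_a t1248_A00pm_012_s1 t1247_A00pm_012_s1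

theorem t1250_A00pm_012_s1 : ∃ t, chk3 f_A00pm_012_s1 t 40 25 2 = true := ex3_a k737_A00pm_012_s1 t1249_A00pm_012_s1

theorem t1251_A00pm_012_s1 : ∃ t, chk3 f_A00pm_012_s1 t 40 24 2 = true := ex3_a k735_A00pm_012_s1 k736_A00pm_012_s1

theorem t1252_A00pm_012_s1 : ∃ t, chk3 f_A00pm_012_s1 t 40 12 2 = true := ex3_b t1251_A00pm_012_s1 t1250_A00pm_012_s1

theorem t1253_A00pm_012_s1 : ∃ t, chk3 f_A00pm_012_s1 t 40 12 1 = true := ex3_c t1252_A00pm_012_s1 t1244_A00pm_012_s1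

theorem t1254_A00pm_012_s1 : ∃ t, chk3 f_A00pm_012_s1 t 40 6 1 = true := ex3_b t1253_A00pm_012_s1 t1228_A00pm_012_s1

theorem t1255_A00pm_012_s1 : ∃ t, chk3 f_A00pm_012_s1 t 20 6 1 = true := ex3_a t1254_A00pm_012_s1 t1211_A00pm_012_s1

theorem t1256_A00pm_012_s1 : ∃ t, chk3 f_A00pm_012_s1 t 10 6 1 = true := ex3_a t1255_A00pm_012_s1 t1062_A00pm_012_s1

theorem t1257_A00pm_012_s1 : ∃ t, chk3 f_A00pm_012_s1 t 5 6 1 = true := ex3_a t1256_A00pm_012_s1 t1058_A00pm_012_s1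

theorem t1258_A00pm_012_s1 : ∃ t, chk3 f_A00pm_012_s1 t 5 3 1 = true := ex3_b t1257_A00pm_012_s1 t1056_A00pm_012_s1

theorem t1259_A00pm_012_s1 : ∃ t, chk3 f_A00pm_012_s1 t 11 5 1 = true := ex3_b k733_A00pm_012_s1 k734_A00pm_012_s1

theorem t1260_A00pm_012_s1 : ∃ t, chk3 f_A00pm_012_s1 t 11 2 1 = true := ex3_b k732_A00pm_012_s1 t1259_A00pm_012_s1

theorem t1261_A00pm_012_s1 : ∃ t, chk3 f_A00pm_012_s1 t 21 23 3 = true := ex3_a k730_A00pm_012_s1 k731_A00pm_012_s1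

theorem t1262_A00pm_012_s1 : ∃ t, chk3 f_A00pm_012_s1 t 21 11 3 = true := ex3_b k729_A00pm_012_s1 t1261_A00pm_012_s1

theorem t1263_A00pm_012_s1 : ∃ t, chk3 f_A00pm_012_s1 t 21 11 2 = true := ex3_b k727_A00pm_012_s1 k728_A00pm_012_s1

theorem t1264_A00pm_012_s1 : ∃ t, chk3 f_A00pm_012_s1 t 21 11 1 = true := ex3_c t1263_A00pm_012_s1 t1262_A00pm_012_s1

theorem t1265_A00pm_012_s1 : ∃ t, chk3 f_A00pm_012_s1 t 21 5 1 = true := ex3_b k726_A00pm_012_s1 t1264_A00pm_012_s1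

theorem t1266_A00pm_012_s1 : ∃ t, chk3 f_A00pm_012_s1 t 21 2 1 = true := ex3_b k725_A00pm_012_s1 t1265_A00pm_012_s1

theorem t1267_A00pm_012_s1 : ∃ t, chk3 f_A00pm_012_s1 t 671 11 1 = true := ex3_b k723_A00pm_012_s1 k724_A00pm_012_s1

theorem t1268_A00pm_012_s1 : ∃ t, chk3 f_A00pm_012_s1 t 671 5 1 = true := ex3_b k722_A00pm_012_s1 t1267_A00pm_012_s1

theorem t1269_A00pm_012_s1 : ∃ t, chk3 f_A00pm_012_s1 t 2683 11 1 = true := ex3_b k720_A00pm_012_s1 k721_A00pm_012_s1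

theorem t1270_A00pm_012_s1 : ∃ t, chk3 f_A00pm_012_s1 t 2683 5 1 = true := ex3_b k719_A00pm_012_s1 t1269_A00pm_012_s1

theorem t1271_A00pm_012_s1 : ∃ t, chk3 f_A00pm_012_s1 t 21463 11 1 = true := ex3_b k717_A00pm_012_s1 k718_A00pm_012_s1

theorem t1272_A00pm_012_s1 : ∃ t, chk3 f_A00pm_012_s1 t 21463 5 1 = true := ex3_b k716_A00pm_012_s1 t1271_A00pm_012_s1

theorem t1273_A00pm_012_s1 : ∃ t, chk3 f_A00pm_012_s1 t 21462 11 1 = true := ex3_b k714_A00pm_012_s1 k715_A00pm_012_s1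

theorem t1274_A00pm_012_s1 : ∃ t, chk3 f_A00pm_012_s1 t 21462 5 1 = true := ex3_b k713_A00pm_012_s1 t1273_A00pm_012_s1

theorem t1275_A00pm_012_s1 : ∃ t, chk3 f_A00pm_012_s1 t 10731 5 1 = true := ex3_a t1274_A00pm_012_s1 t1272_A00pm_012_s1

theorem t1276_A00pm_012_s1 : ∃ t, chk3 f_A00pm_012_s1 t 10730 11 1 = true := ex3_b k711_A00pm_012_s1 k712_A00pm_012_s1

theorem t1277_A00pm_012_s1 : ∃ t, chk3 f_A00pm_012_s1 t 10730 5 1 = true := ex3_b k710_A00pm_012_s1 t1276_A00pm_012_s1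

theorem t1278_A00pm_012_s1 : ∃ t, chk3 f_A00pm_012_s1 t 5365 5 1 = true := ex3_a t1277_A00pm_012_s1 t1275_A00pm_012_s1

theorem t1279_A00pm_012_s1 : ∃ t, chk3 f_A00pm_012_s1 t 5364 11 1 = true := ex3_b k708_A00pm_012_s1 k709_A00pm_012_s1

theorem t1280_A00pm_012_s1 : ∃ t, chk3 f_A00pm_012_s1 t 5364 5 1 = true := ex3_b k707_A00pm_012_s1 t1279_A00pm_012_s1

theorem t1281_A00pm_012_s1 : ∃ t, chk3 f_A00pm_012_s1 t 2682 5 1 = true := ex3_a t1280_A00pm_012_s1 t1278_A00pm_012_s1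

theorem t1282_A00pm_012_s1 : ∃ t, chk3 f_A00pm_012_s1 t 1341 5 1 = true := ex3_a t1281_A00pm_012_s1 t1270_A00pm_012_s1

theorem t1283_A00pm_012_s1 : ∃ t, chk3 f_A00pm_012_s1 t 10727 11 1 = true := ex3_b k705_A00pm_012_s1 k706_A00pm_012_s1

theorem t1284_A00pm_012_s1 : ∃ t, chk3 f_A00pm_012_s1 t 10727 5 1 = true := ex3_b k704_A00pm_012_s1 t1283_A00pm_012_s1

theorem t1285_A00pm_012_s1 : ∃ t, chk3 f_A00pm_012_s1 t 42907 11 1 = true := ex3_b k702_A00pm_012_s1 k703_A00pm_012_s1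

theorem t1286_A00pm_012_s1 : ∃ t, chk3 f_A00pm_012_s1 t 42907 5 1 = true := ex3_b k701_A00pm_012_s1 t1285_A00pm_012_s1

theorem t1287_A00pm_012_s1 : ∃ t, chk3 f_A00pm_012_s1 t 85813 11 1 = true := ex3_b k699_A00pm_012_s1 k700_A00pm_012_s1

theorem t1288_A00pm_012_s1 : ∃ t, chk3 f_A00pm_012_s1 t 85813 5 1 = true := ex3_b k698_A00pm_012_s1 t1287_A00pm_012_s1

theorem t1289_A00pm_012_s1 : ∃ t, chk3 f_A00pm_012_s1 t 1373007 11 1 = true := ex3_b k696_A00pm_012_s1 k697_A00pm_012_s1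

theorem t1290_A00pm_012_s1 : ∃ t, chk3 f_A00pm_012_s1 t 1373007 5 1 = true := ex3_b k695_A00pm_012_s1 t1289_A00pm_012_s1

theorem t1291_A00pm_012_s1 : ∃ t, chk3 f_A00pm_012_s1 t 5492027 11 1 = true := ex3_b k693_A00pm_012_s1 k694_A00pm_012_s1

theorem t1292_A00pm_012_s1 : ∃ t, chk3 f_A00pm_012_s1 t 5492027 5 1 = true := ex3_b k692_A00pm_012_s1 t1291_A00pm_012_s1

theorem t1293_A00pm_012_s1 : ∃ t, chk3 f_A00pm_012_s1 t 21968107 11 1 = true := ex3_b k690_A00pm_012_s1 k691_A00pm_012_s1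

theorem t1294_A00pm_012_s1 : ∃ t, chk3 f_A00pm_012_s1 t 21968107 5 1 = true := ex3_b k689_A00pm_012_s1 t1293_A00pm_012_s1

theorem t1295_A00pm_012_s1 : ∃ t, chk3 f_A00pm_012_s1 t 87872427 11 1 = true := ex3_b k687_A00pm_012_s1 k688_A00pm_012_s1

theorem t1296_A00pm_012_s1 : ∃ t, chk3 f_A00pm_012_s1 t 87872427 5 1 = true := ex3_b k686_A00pm_012_s1 t1295_A00pm_012_s1

theorem t1297_A00pm_012_s1 : ∃ t, chk3 f_A00pm_012_s1 t 87872426 11 1 = true := ex3_b k684_A00pm_012_s1 k685_A00pm_012_s1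

theorem t1298_A00pm_012_s1 : ∃ t, chk3 f_A00pm_012_s1 t 87872426 5 1 = true := ex3_b k683_A00pm_012_s1 t1297_A00pm_012_s1

theorem t1299_A00pm_012_s1 : ∃ t, chk3 f_A00pm_012_s1 t 43936213 5 1 = true := ex3_a t1298_A00pm_012_s1 t1296_A00pm_012_s1

theorem t1300_A00pm_012_s1 : ∃ t, chk3 f_A00pm_012_s1 t 87872425 11 1 = true := ex3_b k681_A00pm_012_s1 k682_A00pm_012_s1

theorem t1301_A00pm_012_s1 : ∃ t, chk3 f_A00pm_012_s1 t 87872425 5 1 = true := ex3_b k680_A00pm_012_s1 t1300_A00pm_012_s1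

theorem t1302_A00pm_012_s1 : ∃ t, chk3 f_A00pm_012_s1 t 87872424 11 1 = true := ex3_b k678_A00pm_012_s1 k679_A00pm_012_s1

theorem t1303_A00pm_012_s1 : ∃ t, chk3 f_A00pm_012_s1 t 87872424 5 1 = true := ex3_b k677_A00pm_012_s1 t1302_A00pm_012_s1

theorem t1304_A00pm_012_s1 : ∃ t, chk3 f_A00pm_012_s1 t 43936212 5 1 = true := ex3_a t1303_A00pm_012_s1 t1301_A00pm_012_s1

theorem t1305_A00pm_012_s1 : ∃ t, chk3 f_A00pm_012_s1 t 21968106 5 1 = true := ex3_a t1304_A00pm_012_s1 t1299_A00pm_012_s1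

theorem t1306_A00pm_012_s1 : ∃ t, chk3 f_A00pm_012_s1 t 10984053 5 1 = true := ex3_a t1305_A00pm_012_s1 t1294_A00pm_012_s1

theorem t1307_A00pm_012_s1 : ∃ t, chk3 f_A00pm_012_s1 t 43936211 23 1 = true := ex3_c k675_A00pm_012_s1 k676_A00pm_012_s1

theorem t1308_A00pm_012_s1 : ∃ t, chk3 f_A00pm_012_s1 t 43936211 11 1 = true := ex3_b k674_A00pm_012_s1 t1307_A00pm_012_s1

theorem t1309_A00pm_012_s1 : ∃ t, chk3 f_A00pm_012_s1 t 43936211 5 1 = true := ex3_b k673_A00pm_012_s1 t1308_A00pm_012_s1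

theorem t1310_A00pm_012_s1 : ∃ t, chk3 f_A00pm_012_s1 t 43936210 23 1 = true := ex3_c k671_A00pm_012_s1 k672_A00pm_012_s1

theorem t1311_A00pm_012_s1 : ∃ t, chk3 f_A00pm_012_s1 t 43936210 11 1 = true := ex3_b k670_A00pm_012_s1 t1310_A00pm_012_s1

theorem t1312_A00pm_012_s1 : ∃ t, chk3 f_A00pm_012_s1 t 43936210 5 1 = true := ex3_b k669_A00pm_012_s1 t1311_A00pm_012_s1

theorem t1313_A00pm_012_s1 : ∃ t, chk3 f_A00pm_012_s1 t 21968105 5 1 = true := ex3_a t1312_A00pm_012_s1 t1309_A00pm_012_s1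

theorem t1314_A00pm_012_s1 : ∃ t, chk3 f_A00pm_012_s1 t 21968104 23 1 = true := ex3_c k667_A00pm_012_s1 k668_A00pm_012_s1

theorem t1315_A00pm_012_s1 : ∃ t, chk3 f_A00pm_012_s1 t 21968104 11 1 = true := ex3_b k666_A00pm_012_s1 t1314_A00pm_012_s1

theorem t1316_A00pm_012_s1 : ∃ t, chk3 f_A00pm_012_s1 t 21968104 5 1 = true := ex3_b k665_A00pm_012_s1 t1315_A00pm_012_s1

theorem t1317_A00pm_012_s1 : ∃ t, chk3 f_A00pm_012_s1 t 10984052 5 1 = true := ex3_a t1316_A00pm_012_s1 t1313_A00pm_012_s1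

theorem t1318_A00pm_012_s1 : ∃ t, chk3 f_A00pm_012_s1 t 5492026 5 1 = true := ex3_a t1317_A00pm_012_s1 t1306_A00pm_012_s1

theorem t1319_A00pm_012_s1 : ∃ t, chk3 f_A00pm_012_s1 t 2746013 5 1 = true := ex3_a t1318_A00pm_012_s1 t1292_A00pm_012_s1

theorem t1320_A00pm_012_s1 : ∃ t, chk3 f_A00pm_012_s1 t 10984051 23 3 = true := ex3_b k663_A00pm_012_s1 k664_A00pm_012_s1

theorem t1321_A00pm_012_s1 : ∃ t, chk3 f_A00pm_012_s1 t 10984051 47 5 = true := ex3_c k661_A00pm_012_s1 k662_A00pm_012_s1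

theorem t1322_A00pm_012_s1 : ∃ t, chk3 f_A00pm_012_s1 t 10984051 23 5 = true := ex3_b k660_A00pm_012_s1 t1321_A00pm_012_s1

theorem t1323_A00pm_012_s1 : ∃ t, chk3 f_A00pm_012_s1 t 10984051 23 2 = true := ex3_c k659_A00pm_012_s1 t1322_A00pm_012_s1

theorem t1324_A00pm_012_s1 : ∃ t, chk3 f_A00pm_012_s1 t 10984051 23 1 = true := ex3_c t1323_A00pm_012_s1 t1320_A00pm_012_s1

theorem t1325_A00pm_012_s1 : ∃ t, chk3 f_A00pm_012_s1 t 10984051 11 1 = true := ex3_b k658_A00pm_012_s1 t1324_A00pm_012_s1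

theorem t1326_A00pm_012_s1 : ∃ t, chk3 f_A00pm_012_s1 t 10984051 5 1 = true := ex3_b k657_A00pm_012_s1 t1325_A00pm_012_s1

theorem t1327_A00pm_012_s1 : ∃ t, chk3 f_A00pm_012_s1 t 10984050 11 1 = true := ex3_c k655_A00pm_012_s1 k656_A00pm_012_s1

theorem t1328_A00pm_012_s1 : ∃ t, chk3 f_A00pm_012_s1 t 10984050 5 1 = true := ex3_b k654_A00pm_012_s1 t1327_A00pm_012_s1

theorem t1329_A00pm_012_s1 : ∃ t, chk3 f_A00pm_012_s1 t 5492025 5 1 = true := ex3_a t1328_A00pm_012_s1 t1326_A00pm_012_s1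

theorem t1330_A00pm_012_s1 : ∃ t, chk3 f_A00pm_012_s1 t 5492024 11 1 = true := ex3_c k652_A00pm_012_s1 k653_A00pm_012_s1

theorem t1331_A00pm_012_s1 : ∃ t, chk3 f_A00pm_012_s1 t 5492024 5 1 = true := ex3_b k651_A00pm_012_s1 t1330_A00pm_012_s1

theorem t1332_A00pm_012_s1 : ∃ t, chk3 f_A00pm_012_s1 t 2746012 5 1 = true := ex3_a t1331_A00pm_012_s1 t1329_A00pm_012_s1

theorem t1333_A00pm_012_s1 : ∃ t, chk3 f_A00pm_012_s1 t 1373006 5 1 = true := ex3_a t1332_A00pm_012_s1 t1319_A00pm_012_s1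

theorem t1334_A00pm_012_s1 : ∃ t, chk3 f_A00pm_012_s1 t 686503 5 1 = true := ex3_a t1333_A00pm_012_s1 t1290_A00pm_012_s1

theorem t1335_A00pm_012_s1 : ∃ t, chk3 f_A00pm_012_s1 t 2746011 11 1 = true := ex3_c k649_A00pm_012_s1 k650_A00pm_012_s1

theorem t1336_A00pm_012_s1 : ∃ t, chk3 f_A00pm_012_s1 t 2746011 5 1 = true := ex3_b k648_A00pm_012_s1 t1335_A00pm_012_s1

theorem t1337_A00pm_012_s1 : ∃ t, chk3 f_A00pm_012_s1 t 2746010 11 1 = true := ex3_c k646_A00pm_012_s1 k647_A00pm_012_s1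

theorem t1338_A00pm_012_s1 : ∃ t, chk3 f_A00pm_012_s1 t 2746010 5 1 = true := ex3_b k645_A00pm_012_s1 t1337_A00pm_012_s1

theorem t1339_A00pm_012_s1 : ∃ t, chk3 f_A00pm_012_s1 t 1373005 5 1 = true := ex3_a t1338_A00pm_012_s1 t1336_A00pm_012_s1

theorem t1340_A00pm_012_s1 : ∃ t, chk3 f_A00pm_012_s1 t 1373004 11 1 = true := ex3_c k643_A00pm_012_s1 k644_A00pm_012_s1

theorem t1341_A00pm_012_s1 : ∃ t, chk3 f_A00pm_012_s1 t 1373004 5 1 = true := ex3_b k642_A00pm_012_s1 t1340_A00pm_012_s1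

theorem t1342_A00pm_012_s1 : ∃ t, chk3 f_A00pm_012_s1 t 686502 5 1 = true := ex3_a t1341_A00pm_012_s1 t1339_A00pm_012_s1

theorem t1343_A00pm_012_s1 : ∃ t, chk3 f_A00pm_012_s1 t 343251 5 1 = true := ex3_a t1342_A00pm_012_s1 t1334_A00pm_012_s1

theorem t1344_A00pm_012_s1 : ∃ t, chk3 f_A00pm_012_s1 t 686501 11 1 = true := ex3_c k640_A00pm_012_s1 k641_A00pm_012_s1

theorem t1345_A00pm_012_s1 : ∃ t, chk3 f_A00pm_012_s1 t 686501 5 1 = true := ex3_b k639_A00pm_012_s1 t1344_A00pm_012_s1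

theorem t1346_A00pm_012_s1 : ∃ t, chk3 f_A00pm_012_s1 t 686500 11 1 = true := ex3_c k637_A00pm_012_s1 k638_A00pm_012_s1

theorem t1347_A00pm_012_s1 : ∃ t, chk3 f_A00pm_012_s1 t 686500 5 1 = true := ex3_b k636_A00pm_012_s1 t1346_A00pm_012_s1

theorem t1348_A00pm_012_s1 : ∃ t, chk3 f_A00pm_012_s1 t 343250 5 1 = true := ex3_a t1347_A00pm_012_s1 t1345_A00pm_012_s1

theorem t1349_A00pm_012_s1 : ∃ t, chk3 f_A00pm_012_s1 t 171625 5 1 = true := ex3_a t1348_A00pm_012_s1 t1343_A00pm_012_s1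

theorem t1350_A00pm_012_s1 : ∃ t, chk3 f_A00pm_012_s1 t 343249 11 1 = true := ex3_c k634_A00pm_012_s1 k635_A00pm_012_s1

theorem t1351_A00pm_012_s1 : ∃ t, chk3 f_A00pm_012_s1 t 343249 5 1 = true := ex3_b k633_A00pm_012_s1 t1350_A00pm_012_s1

theorem t1352_A00pm_012_s1 : ∃ t, chk3 f_A00pm_012_s1 t 343248 11 1 = true := ex3_c k631_A00pm_012_s1 k632_A00pm_012_s1

theorem t1353_A00pm_012_s1 : ∃ t, chk3 f_A00pm_012_s1 t 343248 5 1 = true := ex3_b k630_A00pm_012_s1 t1352_A00pm_012_s1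

theorem t1354_A00pm_012_s1 : ∃ t, chk3 f_A00pm_012_s1 t 171624 5 1 = true := ex3_a t1353_A00pm_012_s1 t1351_A00pm_012_s1

theorem t1355_A00pm_012_s1 : ∃ t, chk3 f_A00pm_012_s1 t 85812 5 1 = true := ex3_a t1354_A00pm_012_s1 t1349_A00pm_012_s1

theorem t1356_A00pm_012_s1 : ∃ t, chk3 f_A00pm_012_s1 t 42906 5 1 = true := ex3_a t1355_A00pm_012_s1 t1288_A00pm_012_s1

theorem t1357_A00pm_012_s1 : ∃ t, chk3 f_A00pm_012_s1 t 21453 5 1 = true := ex3_a t1356_A00pm_012_s1 t1286_A00pm_012_s1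

theorem t1358_A00pm_012_s1 : ∃ t, chk3 f_A00pm_012_s1 t 171623 5 1 = true := ex3_b k628_A00pm_012_s1 k629_A00pm_012_s1

theorem t1359_A00pm_012_s1 : ∃ t, chk3 f_A00pm_012_s1 t 171622 5 1 = true := ex3_b k626_A00pm_012_s1 k627_A00pm_012_s1

theorem t1360_A00pm_012_s1 : ∃ t, chk3 f_A00pm_012_s1 t 85811 5 1 = true := ex3_a t1359_A00pm_012_s1 t1358_A00pm_012_s1

theorem t1361_A00pm_012_s1 : ∃ t, chk3 f_A00pm_012_s1 t 85810 5 1 = true := ex3_b k624_A00pm_012_s1 k625_A00pm_012_s1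

theorem t1362_A00pm_012_s1 : ∃ t, chk3 f_A00pm_012_s1 t 42905 5 1 = true := ex3_a t1361_A00pm_012_s1 t1360_A00pm_012_s1

theorem t1363_A00pm_012_s1 : ∃ t, chk3 f_A00pm_012_s1 t 42904 5 1 = true := ex3_b k622_A00pm_012_s1 k623_A00pm_012_s1

theorem t1364_A00pm_012_s1 : ∃ t, chk3 f_A00pm_012_s1 t 21452 5 1 = true := ex3_a t1363_A00pm_012_s1 t1362_A00pm_012_s1

theorem t1365_A00pm_012_s1 : ∃ t, chk3 f_A00pm_012_s1 t 10726 5 1 = true := ex3_a t1364_A00pm_012_s1 t1357_A00pm_012_s1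

theorem t1366_A00pm_012_s1 : ∃ t, chk3 f_A00pm_012_s1 t 5363 5 1 = true := ex3_a t1365_A00pm_012_s1 t1284_A00pm_012_s1

theorem t1367_A00pm_012_s1 : ∃ t, chk3 f_A00pm_012_s1 t 21451 5 1 = true := ex3_b k620_A00pm_012_s1 k621_A00pm_012_s1

theorem t1368_A00pm_012_s1 : ∃ t, chk3 f_A00pm_012_s1 t 10725 5 1 = true := ex3_a k619_A00pm_012_s1 t1367_A00pm_012_s1

theorem t1369_A00pm_012_s1 : ∃ t, chk3 f_A00pm_012_s1 t 10724 5 1 = true := ex3_b k617_A00pm_012_s1 k618_A00pm_012_s1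

theorem t1370_A00pm_012_s1 : ∃ t, chk3 f_A00pm_012_s1 t 5362 5 1 = true := ex3_a t1369_A00pm_012_s1 t1368_A00pm_012_s1

theorem t1371_A00pm_012_s1 : ∃ t, chk3 f_A00pm_012_s1 t 2681 5 1 = true := ex3_a t1370_A00pm_012_s1 t1366_A00pm_012_s1

theorem t1372_A00pm_012_s1 : ∃ t, chk3 f_A00pm_012_s1 t 5361 11 1 = true := ex3_c k615_A00pm_012_s1 k616_A00pm_012_s1

theorem t1373_A00pm_012_s1 : ∃ t, chk3 f_A00pm_012_s1 t 5361 5 1 = true := ex3_b k614_A00pm_012_s1 t1372_A00pm_012_s1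

theorem t1374_A00pm_012_s1 : ∃ t, chk3 f_A00pm_012_s1 t 5360 11 1 = true := ex3_c k612_A00pm_012_s1 k613_A00pm_012_s1

theorem t1375_A00pm_012_s1 : ∃ t, chk3 f_A00pm_012_s1 t 5360 5 1 = true := ex3_b k611_A00pm_012_s1 t1374_A00pm_012_s1

theorem t1376_A00pm_012_s1 : ∃ t, chk3 f_A00pm_012_s1 t 2680 5 1 = true := ex3_a t1375_A00pm_012_s1 t1373_A00pm_012_s1

theorem t1377_A00pm_012_s1 : ∃ t, chk3 f_A00pm_012_s1 t 1340 5 1 = true := ex3_a t1376_A00pm_012_s1 t1371_A00pm_012_s1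

theorem t1378_A00pm_012_s1 : ∃ t, chk3 f_A00pm_012_s1 t 670 5 1 = true := ex3_a t1377_A00pm_012_s1 t1282_A00pm_012_s1

theorem t1379_A00pm_012_s1 : ∃ t, chk3 f_A00pm_012_s1 t 335 5 1 = true := ex3_a t1378_A00pm_012_s1 t1268_A00pm_012_s1

theorem t1380_A00pm_012_s1 : ∃ t, chk3 f_A00pm_012_s1 t 2679 22 4 = true := ex3_b k606_A00pm_012_s1 k607_A00pm_012_s1

theorem t1381_A00pm_012_s1 : ∃ t, chk3 f_A00pm_012_s1 t 2679 22 2 = true := ex3_c t1380_A00pm_012_s1 k608_A00pm_012_s1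

theorem t1382_A00pm_012_s1 : ∃ t, chk3 f_A00pm_012_s1 t 2679 11 2 = true := ex3_b t1381_A00pm_012_s1 k609_A00pm_012_s1

theorem t1383_A00pm_012_s1 : ∃ t, chk3 f_A00pm_012_s1 t 2679 11 1 = true := ex3_c t1382_A00pm_012_s1 k610_A00pm_012_s1

theorem t1384_A00pm_012_s1 : ∃ t, chk3 f_A00pm_012_s1 t 2679 5 1 = true := ex3_b k605_A00pm_012_s1 t1383_A00pm_012_s1

theorem t1385_A00pm_012_s1 : ∃ t, chk3 f_A00pm_012_s1 t 21431 5 1 = true := ex3_b k603_A00pm_012_s1 k604_A00pm_012_s1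

theorem t1386_A00pm_012_s1 : ∃ t, chk3 f_A00pm_012_s1 t 21430 22 1 = true := ex3_b k600_A00pm_012_s1 k601_A00pm_012_s1

theorem t1387_A00pm_012_s1 : ∃ t, chk3 f_A00pm_012_s1 t 21430 11 1 = true := ex3_b t1386_A00pm_012_s1 k602_A00pm_012_s1

theorem t1388_A00pm_012_s1 : ∃ t, chk3 f_A00pm_012_s1 t 21430 5 1 = true := ex3_b k599_A00pm_012_s1 t1387_A00pm_012_s1

theorem t1389_A00pm_012_s1 : ∃ t, chk3 f_A00pm_012_s1 t 10715 5 1 = true := ex3_a t1388_A00pm_012_s1 t1385_A00pm_012_s1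

theorem t1390_A00pm_012_s1 : ∃ t, chk3 f_A00pm_012_s1 t 10714 44 2 = true := ex3_c k594_A00pm_012_s1 k595_A00pm_012_s1

theorem t1391_A00pm_012_s1 : ∃ t, chk3 f_A00pm_012_s1 t 10714 44 1 = true := ex3_c t1390_A00pm_012_s1 k596_A00pm_012_s1

theorem t1392_A00pm_012_s1 : ∃ t, chk3 f_A00pm_012_s1 t 10714 22 1 = true := ex3_b t1391_A00pm_012_s1 k597_A00pm_012_s1

theorem t1393_A00pm_012_s1 : ∃ t, chk3 f_A00pm_012_s1 t 10714 11 1 = true := ex3_b t1392_A00pm_012_s1 k598_A00pm_012_s1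

theorem t1394_A00pm_012_s1 : ∃ t, chk3 f_A00pm_012_s1 t 10714 5 1 = true := ex3_b k593_A00pm_012_s1 t1393_A00pm_012_s1

theorem t1395_A00pm_012_s1 : ∃ t, chk3 f_A00pm_012_s1 t 5357 5 1 = true := ex3_a t1394_A00pm_012_s1 t1389_A00pm_012_s1

theorem t1396_A00pm_012_s1 : ∃ t, chk3 f_A00pm_012_s1 t 5356 360 4 = true := ex3_c k585_A00pm_012_s1 k586_A00pm_012_s1

theorem t1397_A00pm_012_s1 : ∃ t, chk3 f_A00pm_012_s1 t 5356 180 4 = true := ex3_b t1396_A00pm_012_s1 k587_A00pm_012_s1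

theorem t1398_A00pm_012_s1 : ∃ t, chk3 f_A00pm_012_s1 t 5356 180 2 = true := ex3_c t1397_A00pm_012_s1 k588_A00pm_012_s1

theorem t1399_A00pm_012_s1 : ∃ t, chk3 f_A00pm_012_s1 t 5356 90 2 = true := ex3_b t1398_A00pm_012_s1 k589_A00pm_012_s1

theorem t1400_A00pm_012_s1 : ∃ t, chk3 f_A00pm_012_s1 t 5356 45 2 = true := ex3_b t1399_A00pm_012_s1 k590_A00pm_012_s1

theorem t1401_A00pm_012_s1 : ∃ t, chk3 f_A00pm_012_s1 t 5356 22 2 = true := ex3_b k584_A00pm_012_s1 t1400_A00pm_012_s1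

theorem t1402_A00pm_012_s1 : ∃ t, chk3 f_A00pm_012_s1 t 5356 22 1 = true := ex3_c t1401_A00pm_012_s1 k591_A00pm_012_s1

theorem t1403_A00pm_012_s1 : ∃ t, chk3 f_A00pm_012_s1 t 5356 11 1 = true := ex3_b t1402_A00pm_012_s1 k592_A00pm_012_s1

theorem t1404_A00pm_012_s1 : ∃ t, chk3 f_A00pm_012_s1 t 5356 21 1 = true := ex3_c k582_A00pm_012_s1 k583_A00pm_012_s1

theorem t1405_A00pm_012_s1 : ∃ t, chk3 f_A00pm_012_s1 t 5356 10 1 = true := ex3_b k581_A00pm_012_s1 t1404_A00pm_012_s1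

theorem t1406_A00pm_012_s1 : ∃ t, chk3 f_A00pm_012_s1 t 5356 5 1 = true := ex3_b t1405_A00pm_012_s1 t1403_A00pm_012_s1

theorem t1407_A00pm_012_s1 : ∃ t, chk3 f_A00pm_012_s1 t 2678 5 1 = true := ex3_a t1406_A00pm_012_s1 t1395_A00pm_012_s1

theorem t1408_A00pm_012_s1 : ∃ t, chk3 f_A00pm_012_s1 t 1339 5 1 = true := ex3_a t1407_A00pm_012_s1 t1384_A00pm_012_s1

theorem t1409_A00pm_012_s1 : ∃ t, chk3 f_A00pm_012_s1 t 1338 90 6 = true := ex3_a k576_A00pm_012_s1 k577_A00pm_012_s1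

theorem t1410_A00pm_012_s1 : ∃ t, chk3 f_A00pm_012_s1 t 1338 90 3 = true := ex3_c t1409_A00pm_012_s1 k578_A00pm_012_s1

theorem t1411_A00pm_012_s1 : ∃ t, chk3 f_A00pm_012_s1 t 1338 45 3 = true := ex3_b t1410_A00pm_012_s1 k579_A00pm_012_s1

theorem t1412_A00pm_012_s1 : ∃ t, chk3 f_A00pm_012_s1 t 1338 22 3 = true := ex3_b k575_A00pm_012_s1 t1411_A00pm_012_s1

theorem t1413_A00pm_012_s1 : ∃ t, chk3 f_A00pm_012_s1 t 5352 364 4 = true := ex3_a k568_A00pm_012_s1 k569_A00pm_012_s1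

theorem t1414_A00pm_012_s1 : ∃ t, chk3 f_A00pm_012_s1 t 2676 364 4 = true := ex3_a t1413_A00pm_012_s1 k570_A00pm_012_s1

theorem t1415_A00pm_012_s1 : ∃ t, chk3 f_A00pm_012_s1 t 2676 182 4 = true := ex3_b t1414_A00pm_012_s1 k571_A00pm_012_s1

theorem t1416_A00pm_012_s1 : ∃ t, chk3 f_A00pm_012_s1 t 2676 182 2 = true := ex3_c t1415_A00pm_012_s1 k572_A00pm_012_s1

theorem t1417_A00pm_012_s1 : ∃ t, chk3 f_A00pm_012_s1 t 2676 91 2 = true := ex3_b t1416_A00pm_012_s1 k573_A00pm_012_s1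

theorem t1418_A00pm_012_s1 : ∃ t, chk3 f_A00pm_012_s1 t 1338 91 2 = true := ex3_a t1417_A00pm_012_s1 k574_A00pm_012_s1

theorem t1419_A00pm_012_s1 : ∃ t, chk3 f_A00pm_012_s1 t 2677 181 5 = true := ex3_c k566_A00pm_012_s1 k567_A00pm_012_s1

theorem t1420_A00pm_012_s1 : ∃ t, chk3 f_A00pm_012_s1 t 5354 362 4 = true := ex3_a k562_A00pm_012_s1 k563_A00pm_012_s1

theorem t1421_A00pm_012_s1 : ∃ t, chk3 f_A00pm_012_s1 t 5354 181 4 = true := ex3_b t1420_A00pm_012_s1 k564_A00pm_012_s1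

theorem t1422_A00pm_012_s1 : ∃ t, chk3 f_A00pm_012_s1 t 2677 181 4 = true := ex3_a t1421_A00pm_012_s1 k565_A00pm_012_s1

theorem t1423_A00pm_012_s1 : ∃ t, chk3 f_A00pm_012_s1 t 2677 181 2 = true := ex3_c t1422_A00pm_012_s1 t1419_A00pm_012_s1

theorem t1424_A00pm_012_s1 : ∃ t, chk3 f_A00pm_012_s1 t 5355 361 4 = true := ex3_a k559_A00pm_012_s1 k560_A00pm_012_s1

theorem t1425_A00pm_012_s1 : ∃ t, chk3 f_A00pm_012_s1 t 5355 180 4 = true := ex3_b k558_A00pm_012_s1 t1424_A00pm_012_s1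

theorem t1426_A00pm_012_s1 : ∃ t, chk3 f_A00pm_012_s1 t 2677 180 4 = true := ex3_a k557_A00pm_012_s1 t1425_A00pm_012_s1

theorem t1427_A00pm_012_s1 : ∃ t, chk3 f_A00pm_012_s1 t 2677 180 2 = true := ex3_c t1426_A00pm_012_s1 k561_A00pm_012_s1

theorem t1428_A00pm_012_s1 : ∃ t, chk3 f_A00pm_012_s1 t 2677 90 2 = true := ex3_b t1427_A00pm_012_s1 t1423_A00pm_012_s1

theorem t1429_A00pm_012_s1 : ∃ t, chk3 f_A00pm_012_s1 t 2676 90 5 = true := ex3_b k555_A00pm_012_s1 k556_A00pm_012_s1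

theorem t1430_A00pm_012_s1 : ∃ t, chk3 f_A00pm_012_s1 t 5353 363 4 = true := ex3_a k553_A00pm_012_s1 k554_A00pm_012_s1

theorem t1431_A00pm_012_s1 : ∃ t, chk3 f_A00pm_012_s1 t 5353 181 4 = true := ex3_b k552_A00pm_012_s1 t1430_A00pm_012_s1

theorem t1432_A00pm_012_s1 : ∃ t, chk3 f_A00pm_012_s1 t 2676 181 4 = true := ex3_a k551_A00pm_012_s1 t1431_A00pm_012_s1

theorem t1433_A00pm_012_s1 : ∃ t, chk3 f_A00pm_012_s1 t 2676 90 4 = true := ex3_b k550_A00pm_012_s1 t1432_A00pm_012_s1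

theorem t1434_A00pm_012_s1 : ∃ t, chk3 f_A00pm_012_s1 t 2676 90 2 = true := ex3_c t1433_A00pm_012_s1 t1429_A00pm_012_s1

theorem t1435_A00pm_012_s1 : ∃ t, chk3 f_A00pm_012_s1 t 1338 90 2 = true := ex3_a t1434_A00pm_012_s1 t1428_A00pm_012_s1

theorem t1436_A00pm_012_s1 : ∃ t, chk3 f_A00pm_012_s1 t 1338 45 2 = true := ex3_b t1435_A00pm_012_s1 t1418_A00pm_012_s1

theorem t1437_A00pm_012_s1 : ∃ t, chk3 f_A00pm_012_s1 t 1338 44 4 = true := ex3_c k547_A00pm_012_s1 k548_A00pm_012_s1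

theorem t1438_A00pm_012_s1 : ∃ t, chk3 f_A00pm_012_s1 t 1338 44 2 = true := ex3_c t1437_A00pm_012_s1 k549_A00pm_012_s1

theorem t1439_A00pm_012_s1 : ∃ t, chk3 f_A00pm_012_s1 t 1338 22 2 = true := ex3_b t1438_A00pm_012_s1 t1436_A00pm_012_s1

theorem t1440_A00pm_012_s1 : ∃ t, chk3 f_A00pm_012_s1 t 1338 22 1 = true := ex3_c t1439_A00pm_012_s1 t1412_A00pm_012_s1

theorem t1441_A00pm_012_s1 : ∃ t, chk3 f_A00pm_012_s1 t 1338 11 1 = true := ex3_b t1440_A00pm_012_s1 k580_A00pm_012_s1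

theorem t1442_A00pm_012_s1 : ∃ t, chk3 f_A00pm_012_s1 t 1338 10 5 = true := ex3_b k544_A00pm_012_s1 k545_A00pm_012_s1

theorem t1443_A00pm_012_s1 : ∃ t, chk3 f_A00pm_012_s1 t 1338 21 4 = true := ex3_c k542_A00pm_012_s1 k543_A00pm_012_s1

theorem t1444_A00pm_012_s1 : ∃ t, chk3 f_A00pm_012_s1 t 1338 10 4 = true := ex3_b k541_A00pm_012_s1 t1443_A00pm_012_s1

theorem t1445_A00pm_012_s1 : ∃ t, chk3 f_A00pm_012_s1 t 1338 10 2 = true := ex3_c t1444_A00pm_012_s1 t1442_A00pm_012_s1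

theorem t1446_A00pm_012_s1 : ∃ t, chk3 f_A00pm_012_s1 t 1338 10 1 = true := ex3_c t1445_A00pm_012_s1 k546_A00pm_012_s1

theorem t1447_A00pm_012_s1 : ∃ t, chk3 f_A00pm_012_s1 t 1338 5 1 = true := ex3_b t1446_A00pm_012_s1 t1441_A00pm_012_s1

theorem t1448_A00pm_012_s1 : ∃ t, chk3 f_A00pm_012_s1 t 669 5 1 = true := ex3_a t1447_A00pm_012_s1 t1408_A00pm_012_s1

theorem t1449_A00pm_012_s1 : ∃ t, chk3 f_A00pm_012_s1 t 1336 92 3 = true := ex3_c k536_A00pm_012_s1 k537_A00pm_012_s1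

theorem t1450_A00pm_012_s1 : ∃ t, chk3 f_A00pm_012_s1 t 668 92 3 = true := ex3_a t1449_A00pm_012_s1 k538_A00pm_012_s1

theorem t1451_A00pm_012_s1 : ∃ t, chk3 f_A00pm_012_s1 t 668 46 3 = true := ex3_b t1450_A00pm_012_s1 k539_A00pm_012_s1

theorem t1452_A00pm_012_s1 : ∃ t, chk3 f_A00pm_012_s1 t 2673 184 5 = true := ex3_b k531_A00pm_012_s1 k532_A00pm_012_s1

theorem t1453_A00pm_012_s1 : ∃ t, chk3 f_A00pm_012_s1 t 1336 184 5 = true := ex3_a k530_A00pm_012_s1 t1452_A00pm_012_s1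

theorem t1454_A00pm_012_s1 : ∃ t, chk3 f_A00pm_012_s1 t 1336 92 5 = true := ex3_b t1453_A00pm_012_s1 k533_A00pm_012_s1

theorem t1455_A00pm_012_s1 : ∃ t, chk3 f_A00pm_012_s1 t 5344 370 4 = true := ex3_b k525_A00pm_012_s1 k526_A00pm_012_s1

theorem t1456_A00pm_012_s1 : ∃ t, chk3 f_A00pm_012_s1 t 2672 370 4 = true := ex3_a t1455_A00pm_012_s1 k527_A00pm_012_s1

theorem t1457_A00pm_012_s1 : ∃ t, chk3 f_A00pm_012_s1 t 2672 185 4 = true := ex3_b t1456_A00pm_012_s1 k528_A00pm_012_s1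

theorem t1458_A00pm_012_s1 : ∃ t, chk3 f_A00pm_012_s1 t 1336 185 4 = true := ex3_a t1457_A00pm_012_s1 k529_A00pm_012_s1

theorem t1459_A00pm_012_s1 : ∃ t, chk3 f_A00pm_012_s1 t 5347 368 4 = true := ex3_b k522_A00pm_012_s1 k523_A00pm_012_s1

theorem t1460_A00pm_012_s1 : ∃ t, chk3 f_A00pm_012_s1 t 2673 368 4 = true := ex3_a k521_A00pm_012_s1 t1459_A00pm_012_s1

theorem t1461_A00pm_012_s1 : ∃ t, chk3 f_A00pm_012_s1 t 2673 184 4 = true := ex3_b t1460_A00pm_012_s1 k524_A00pm_012_s1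

theorem t1462_A00pm_012_s1 : ∃ t, chk3 f_A00pm_012_s1 t 5345 369 4 = true := ex3_b k519_A00pm_012_s1 k520_A00pm_012_s1

theorem t1463_A00pm_012_s1 : ∃ t, chk3 f_A00pm_012_s1 t 5345 184 4 = true := ex3_b k518_A00pm_012_s1 t1462_A00pm_012_s1

theorem t1464_A00pm_012_s1 : ∃ t, chk3 f_A00pm_012_s1 t 2672 184 4 = true := ex3_a k517_A00pm_012_s1 t1463_A00pm_012_s1

theorem t1465_A00pm_012_s1 : ∃ t, chk3 f_A00pm_012_s1 t 1336 184 4 = true := ex3_a t1464_A00pm_012_s1 t1461_A00pm_012_s1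

theorem t1466_A00pm_012_s1 : ∃ t, chk3 f_A00pm_012_s1 t 1336 92 4 = true := ex3_b t1465_A00pm_012_s1 t1458_A00pm_012_s1

theorem t1467_A00pm_012_s1 : ∃ t, chk3 f_A00pm_012_s1 t 1336 92 2 = true := ex3_c t1466_A00pm_012_s1 t1454_A00pm_012_s1

theorem t1468_A00pm_012_s1 : ∃ t, chk3 f_A00pm_012_s1 t 668 92 2 = true := ex3_a t1467_A00pm_012_s1 k534_A00pm_012_s1

theorem t1469_A00pm_012_s1 : ∃ t, chk3 f_A00pm_012_s1 t 668 46 2 = true := ex3_b t1468_A00pm_012_s1 k535_A00pm_012_s1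

theorem t1470_A00pm_012_s1 : ∃ t, chk3 f_A00pm_012_s1 t 668 46 1 = true := ex3_c t1469_A00pm_012_s1 t1451_A00pm_012_s1

theorem t1471_A00pm_012_s1 : ∃ t, chk3 f_A00pm_012_s1 t 668 23 1 = true := ex3_b t1470_A00pm_012_s1 k540_A00pm_012_s1

theorem t1472_A00pm_012_s1 : ∃ t, chk3 f_A00pm_012_s1 t 1337 91 6 = true := ex3_b k514_A00pm_012_s1 k515_A00pm_012_s1

theorem t1473_A00pm_012_s1 : ∃ t, chk3 f_A00pm_012_s1 t 1337 45 6 = true := ex3_b k513_A00pm_012_s1 t1472_A00pm_012_s1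

theorem t1474_A00pm_012_s1 : ∃ t, chk3 f_A00pm_012_s1 t 668 45 6 = true := ex3_a k512_A00pm_012_s1 t1473_A00pm_012_s1

theorem t1475_A00pm_012_s1 : ∃ t, chk3 f_A00pm_012_s1 t 668 22 6 = true := ex3_b k511_A00pm_012_s1 t1474_A00pm_012_s1

theorem t1476_A00pm_012_s1 : ∃ t, chk3 f_A00pm_012_s1 t 668 22 3 = true := ex3_c t1475_A00pm_012_s1 k516_A00pm_012_s1

theorem t1477_A00pm_012_s1 : ∃ t, chk3 f_A00pm_012_s1 t 2674 183 5 = true := ex3_b k508_A00pm_012_s1 k509_A00pm_012_s1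

theorem t1478_A00pm_012_s1 : ∃ t, chk3 f_A00pm_012_s1 t 1337 183 5 = true := ex3_a t1477_A00pm_012_s1 k510_A00pm_012_s1

theorem t1479_A00pm_012_s1 : ∃ t, chk3 f_A00pm_012_s1 t 2675 182 5 = true := ex3_a k506_A00pm_012_s1 k507_A00pm_012_s1

theorem t1480_A00pm_012_s1 : ∃ t, chk3 f_A00pm_012_s1 t 1337 182 5 = true := ex3_a k505_A00pm_012_s1 t1479_A00pm_012_s1

theorem t1481_A00pm_012_s1 : ∃ t, chk3 f_A00pm_012_s1 t 1337 91 5 = true := ex3_b t1480_A00pm_012_s1 t1478_A00pm_012_s1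

theorem t1482_A00pm_012_s1 : ∃ t, chk3 f_A00pm_012_s1 t 1337 45 5 = true := ex3_b k504_A00pm_012_s1 t1481_A00pm_012_s1

theorem t1483_A00pm_012_s1 : ∃ t, chk3 f_A00pm_012_s1 t 668 45 5 = true := ex3_a k503_A00pm_012_s1 t1482_A00pm_012_s1

theorem t1484_A00pm_012_s1 : ∃ t, chk3 f_A00pm_012_s1 t 668 22 5 = true := ex3_b k502_A00pm_012_s1 t1483_A00pm_012_s1

theorem t1485_A00pm_012_s1 : ∃ t, chk3 f_A00pm_012_s1 t 5348 367 4 = true := ex3_b k498_A00pm_012_s1 k499_A00pm_012_s1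

theorem t1486_A00pm_012_s1 : ∃ t, chk3 f_A00pm_012_s1 t 2674 367 4 = true := ex3_a t1485_A00pm_012_s1 k500_A00pm_012_s1

theorem t1487_A00pm_012_s1 : ∃ t, chk3 f_A00pm_012_s1 t 5349 366 4 = true := ex3_b k496_A00pm_012_s1 k497_A00pm_012_s1

theorem t1488_A00pm_012_s1 : ∃ t, chk3 f_A00pm_012_s1 t 2674 366 4 = true := ex3_a k495_A00pm_012_s1 t1487_A00pm_012_s1

theorem t1489_A00pm_012_s1 : ∃ t, chk3 f_A00pm_012_s1 t 2674 183 4 = true := ex3_b t1488_A00pm_012_s1 t1486_A00pm_012_s1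

theorem t1490_A00pm_012_s1 : ∃ t, chk3 f_A00pm_012_s1 t 1337 183 4 = true := ex3_a t1489_A00pm_012_s1 k501_A00pm_012_s1

theorem t1491_A00pm_012_s1 : ∃ t, chk3 f_A00pm_012_s1 t 5351 365 4 = true := ex3_b k493_A00pm_012_s1 k494_A00pm_012_s1

theorem t1492_A00pm_012_s1 : ∃ t, chk3 f_A00pm_012_s1 t 2675 365 4 = true := ex3_a k492_A00pm_012_s1 t1491_A00pm_012_s1

theorem t1493_A00pm_012_s1 : ∃ t, chk3 f_A00pm_012_s1 t 2675 182 4 = true := ex3_b k491_A00pm_012_s1 t1492_A00pm_012_s1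

theorem t1494_A00pm_012_s1 : ∃ t, chk3 f_A00pm_012_s1 t 1337 182 4 = true := ex3_a k490_A00pm_012_s1 t1493_A00pm_012_s1

theorem t1495_A00pm_012_s1 : ∃ t, chk3 f_A00pm_012_s1 t 1337 91 4 = true := ex3_b t1494_A00pm_012_s1 t1490_A00pm_012_s1

theorem t1496_A00pm_012_s1 : ∃ t, chk3 f_A00pm_012_s1 t 1337 45 4 = true := ex3_b k489_A00pm_012_s1 t1495_A00pm_012_s1

theorem t1497_A00pm_012_s1 : ∃ t, chk3 f_A00pm_012_s1 t 1336 45 4 = true := ex3_c k487_A00pm_012_s1 k488_A00pm_012_s1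

theorem t1498_A00pm_012_s1 : ∃ t, chk3 f_A00pm_012_s1 t 668 45 4 = true := ex3_a t1497_A00pm_012_s1 t1496_A00pm_012_s1

theorem t1499_A00pm_012_s1 : ∃ t, chk3 f_A00pm_012_s1 t 668 44 8 = true := ex3_a k484_A00pm_012_s1 k485_A00pm_012_s1

theorem t1500_A00pm_012_s1 : ∃ t, chk3 f_A00pm_012_s1 t 668 44 4 = true := ex3_c t1499_A00pm_012_s1 k486_A00pm_012_s1

theorem t1501_A00pm_012_s1 : ∃ t, chk3 f_A00pm_012_s1 t 668 22 4 = true := ex3_b t1500_A00pm_012_s1 t1498_A00pm_012_s1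

theorem t1502_A00pm_012_s1 : ∃ t, chk3 f_A00pm_012_s1 t 668 22 2 = true := ex3_c t1501_A00pm_012_s1 t1484_A00pm_012_s1

theorem t1503_A00pm_012_s1 : ∃ t, chk3 f_A00pm_012_s1 t 668 22 1 = true := ex3_c t1502_A00pm_012_s1 t1476_A00pm_012_s1

theorem t1504_A00pm_012_s1 : ∃ t, chk3 f_A00pm_012_s1 t 668 11 1 = true := ex3_b t1503_A00pm_012_s1 t1471_A00pm_012_s1

theorem t1505_A00pm_012_s1 : ∃ t, chk3 f_A00pm_012_s1 t 668 10 3 = true := ex3_b k482_A00pm_012_s1 k483_A00pm_012_s1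

theorem t1506_A00pm_012_s1 : ∃ t, chk3 f_A00pm_012_s1 t 668 21 5 = true := ex3_c k480_A00pm_012_s1 k481_A00pm_012_s1

theorem t1507_A00pm_012_s1 : ∃ t, chk3 f_A00pm_012_s1 t 668 10 5 = true := ex3_b k479_A00pm_012_s1 t1506_A00pm_012_s1

theorem t1508_A00pm_012_s1 : ∃ t, chk3 f_A00pm_012_s1 t 668 21 9 = true := ex3_a k477_A00pm_012_s1 k478_A00pm_012_s1

theorem t1509_A00pm_012_s1 : ∃ t, chk3 f_A00pm_012_s1 t 668 21 8 = true := ex3_a k475_A00pm_012_s1 k476_A00pm_012_s1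

theorem t1510_A00pm_012_s1 : ∃ t, chk3 f_A00pm_012_s1 t 668 21 4 = true := ex3_c t1509_A00pm_012_s1 t1508_A00pm_012_s1

theorem t1511_A00pm_012_s1 : ∃ t, chk3 f_A00pm_012_s1 t 668 10 4 = true := ex3_b k474_A00pm_012_s1 t1510_A00pm_012_s1

theorem t1512_A00pm_012_s1 : ∃ t, chk3 f_A00pm_012_s1 t 668 10 2 = true := ex3_c t1511_A00pm_012_s1 t1507_A00pm_012_s1

theorem t1513_A00pm_012_s1 : ∃ t, chk3 f_A00pm_012_s1 t 668 10 1 = true := ex3_c t1512_A00pm_012_s1 t1505_A00pm_012_s1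

theorem t1514_A00pm_012_s1 : ∃ t, chk3 f_A00pm_012_s1 t 668 5 1 = true := ex3_b t1513_A00pm_012_s1 t1504_A00pm_012_s1

theorem t1515_A00pm_012_s1 : ∃ t, chk3 f_A00pm_012_s1 t 334 5 1 = true := ex3_a t1514_A00pm_012_s1 t1448_A00pm_012_s1

theorem t1516_A00pm_012_s1 : ∃ t, chk3 f_A00pm_012_s1 t 167 5 1 = true := ex3_a t1515_A00pm_012_s1 t1379_A00pm_012_s1

theorem t1517_A00pm_012_s1 : ∃ t, chk3 f_A00pm_012_s1 t 666 94 6 = true := ex3_a k469_A00pm_012_s1 k470_A00pm_012_s1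

theorem t1518_A00pm_012_s1 : ∃ t, chk3 f_A00pm_012_s1 t 666 94 3 = true := ex3_c t1517_A00pm_012_s1 k471_A00pm_012_s1

theorem t1519_A00pm_012_s1 : ∃ t, chk3 f_A00pm_012_s1 t 666 47 3 = true := ex3_b t1518_A00pm_012_s1 k472_A00pm_012_s1

theorem t1520_A00pm_012_s1 : ∃ t, chk3 f_A00pm_012_s1 t 333 47 3 = true := ex3_a t1519_A00pm_012_s1 k473_A00pm_012_s1

theorem t1521_A00pm_012_s1 : ∃ t, chk3 f_A00pm_012_s1 t 667 93 6 = true := ex3_a k466_A00pm_012_s1 k467_A00pm_012_s1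

theorem t1522_A00pm_012_s1 : ∃ t, chk3 f_A00pm_012_s1 t 667 93 3 = true := ex3_c t1521_A00pm_012_s1 k468_A00pm_012_s1

theorem t1523_A00pm_012_s1 : ∃ t, chk3 f_A00pm_012_s1 t 667 92 3 = true := ex3_c k464_A00pm_012_s1 k465_A00pm_012_s1

theorem t1524_A00pm_012_s1 : ∃ t, chk3 f_A00pm_012_s1 t 667 46 3 = true := ex3_b t1523_A00pm_012_s1 t1522_A00pm_012_s1

theorem t1525_A00pm_012_s1 : ∃ t, chk3 f_A00pm_012_s1 t 333 46 3 = true := ex3_a k463_A00pm_012_s1 t1524_A00pm_012_s1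

theorem t1526_A00pm_012_s1 : ∃ t, chk3 f_A00pm_012_s1 t 333 23 3 = true := ex3_b t1525_A00pm_012_s1 t1520_A00pm_012_s1

theorem t1527_A00pm_012_s1 : ∃ t, chk3 f_A00pm_012_s1 t 665 47 6 = true := ex3_b k460_A00pm_012_s1 k461_A00pm_012_s1

theorem t1528_A00pm_012_s1 : ∃ t, chk3 f_A00pm_012_s1 t 332 47 6 = true := ex3_a k459_A00pm_012_s1 t1527_A00pm_012_s1

theorem t1529_A00pm_012_s1 : ∃ t, chk3 f_A00pm_012_s1 t 332 23 6 = true := ex3_b k458_A00pm_012_s1 t1528_A00pm_012_s1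

theorem t1530_A00pm_012_s1 : ∃ t, chk3 f_A00pm_012_s1 t 332 23 3 = true := ex3_c t1529_A00pm_012_s1 k462_A00pm_012_s1

theorem t1531_A00pm_012_s1 : ∃ t, chk3 f_A00pm_012_s1 t 166 23 3 = true := ex3_a t1530_A00pm_012_s1 t1526_A00pm_012_s1

theorem t1532_A00pm_012_s1 : ∃ t, chk3 f_A00pm_012_s1 t 166 22 6 = true := ex3_a k455_A00pm_012_s1 k456_A00pm_012_s1

theorem t1533_A00pm_012_s1 : ∃ t, chk3 f_A00pm_012_s1 t 166 22 3 = true := ex3_c t1532_A00pm_012_s1 k457_A00pm_012_s1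

theorem t1534_A00pm_012_s1 : ∃ t, chk3 f_A00pm_012_s1 t 166 11 3 = true := ex3_b t1533_A00pm_012_s1 t1531_A00pm_012_s1

theorem t1535_A00pm_012_s1 : ∃ t, chk3 f_A00pm_012_s1 t 1333 188 5 = true := ex3_c k450_A00pm_012_s1 k451_A00pm_012_s1

theorem t1536_A00pm_012_s1 : ∃ t, chk3 f_A00pm_012_s1 t 2666 376 4 = true := ex3_a k446_A00pm_012_s1 k447_A00pm_012_s1

theorem t1537_A00pm_012_s1 : ∃ t, chk3 f_A00pm_012_s1 t 2666 188 4 = true := ex3_b t1536_A00pm_012_s1 k448_A00pm_012_s1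

theorem t1538_A00pm_012_s1 : ∃ t, chk3 f_A00pm_012_s1 t 1333 188 4 = true := ex3_a t1537_A00pm_012_s1 k449_A00pm_012_s1

theorem t1539_A00pm_012_s1 : ∃ t, chk3 f_A00pm_012_s1 t 1333 188 2 = true := ex3_c t1538_A00pm_012_s1 t1535_A00pm_012_s1

theorem t1540_A00pm_012_s1 : ∃ t, chk3 f_A00pm_012_s1 t 1333 94 2 = true := ex3_b t1539_A00pm_012_s1 k452_A00pm_012_s1

theorem t1541_A00pm_012_s1 : ∃ t, chk3 f_A00pm_012_s1 t 2664 189 4 = true := ex3_c k442_A00pm_012_s1 k443_A00pm_012_s1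

theorem t1542_A00pm_012_s1 : ∃ t, chk3 f_A00pm_012_s1 t 1332 189 4 = true := ex3_a t1541_A00pm_012_s1 k444_A00pm_012_s1

theorem t1543_A00pm_012_s1 : ∃ t, chk3 f_A00pm_012_s1 t 1332 189 2 = true := ex3_c t1542_A00pm_012_s1 k445_A00pm_012_s1

theorem t1544_A00pm_012_s1 : ∃ t, chk3 f_A00pm_012_s1 t 2665 377 4 = true := ex3_a k439_A00pm_012_s1 k440_A00pm_012_s1

theorem t1545_A00pm_012_s1 : ∃ t, chk3 f_A00pm_012_s1 t 1332 377 4 = true := ex3_a k438_A00pm_012_s1 t1544_A00pm_012_s1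

theorem t1546_A00pm_012_s1 : ∃ t, chk3 f_A00pm_012_s1 t 1332 188 4 = true := ex3_b k437_A00pm_012_s1 t1545_A00pm_012_s1

theorem t1547_A00pm_012_s1 : ∃ t, chk3 f_A00pm_012_s1 t 1332 188 2 = true := ex3_c t1546_A00pm_012_s1 k441_A00pm_012_s1

theorem t1548_A00pm_012_s1 : ∃ t, chk3 f_A00pm_012_s1 t 1332 94 2 = true := ex3_b t1547_A00pm_012_s1 t1543_A00pm_012_s1

theorem t1549_A00pm_012_s1 : ∃ t, chk3 f_A00pm_012_s1 t 666 94 2 = true := ex3_a t1548_A00pm_012_s1 t1540_A00pm_012_s1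

theorem t1550_A00pm_012_s1 : ∃ t, chk3 f_A00pm_012_s1 t 666 47 2 = true := ex3_b t1549_A00pm_012_s1 k453_A00pm_012_s1

theorem t1551_A00pm_012_s1 : ∃ t, chk3 f_A00pm_012_s1 t 333 47 2 = true := ex3_a t1550_A00pm_012_s1 k454_A00pm_012_s1

theorem t1552_A00pm_012_s1 : ∃ t, chk3 f_A00pm_012_s1 t 5340 372 4 = true := ex3_b k430_A00pm_012_s1 k431_A00pm_012_s1

theorem t1553_A00pm_012_s1 : ∃ t, chk3 f_A00pm_012_s1 t 2670 372 4 = true := ex3_a t1552_A00pm_012_s1 k432_A00pm_012_s1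

theorem t1554_A00pm_012_s1 : ∃ t, chk3 f_A00pm_012_s1 t 2670 186 4 = true := ex3_b t1553_A00pm_012_s1 k433_A00pm_012_s1

theorem t1555_A00pm_012_s1 : ∃ t, chk3 f_A00pm_012_s1 t 2670 186 2 = true := ex3_c t1554_A00pm_012_s1 k434_A00pm_012_s1

theorem t1556_A00pm_012_s1 : ∃ t, chk3 f_A00pm_012_s1 t 1335 186 2 = true := ex3_a t1555_A00pm_012_s1 k435_A00pm_012_s1

theorem t1557_A00pm_012_s1 : ∃ t, chk3 f_A00pm_012_s1 t 1335 93 2 = true := ex3_b t1556_A00pm_012_s1 k436_A00pm_012_s1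

theorem t1558_A00pm_012_s1 : ∃ t, chk3 f_A00pm_012_s1 t 2668 187 5 = true := ex3_b k427_A00pm_012_s1 k428_A00pm_012_s1

theorem t1559_A00pm_012_s1 : ∃ t, chk3 f_A00pm_012_s1 t 1334 187 5 = true := ex3_a t1558_A00pm_012_s1 k429_A00pm_012_s1

theorem t1560_A00pm_012_s1 : ∃ t, chk3 f_A00pm_012_s1 t 1334 186 5 = true := ex3_c k425_A00pm_012_s1 k426_A00pm_012_s1

theorem t1561_A00pm_012_s1 : ∃ t, chk3 f_A00pm_012_s1 t 1334 93 5 = true := ex3_b t1560_A00pm_012_s1 t1559_A00pm_012_s1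

theorem t1562_A00pm_012_s1 : ∃ t, chk3 f_A00pm_012_s1 t 2668 374 4 = true := ex3_a k421_A00pm_012_s1 k422_A00pm_012_s1

theorem t1563_A00pm_012_s1 : ∃ t, chk3 f_A00pm_012_s1 t 2668 187 4 = true := ex3_b t1562_A00pm_012_s1 k423_A00pm_012_s1

theorem t1564_A00pm_012_s1 : ∃ t, chk3 f_A00pm_012_s1 t 1334 187 4 = true := ex3_a t1563_A00pm_012_s1 k424_A00pm_012_s1

theorem t1565_A00pm_012_s1 : ∃ t, chk3 f_A00pm_012_s1 t 2669 373 4 = true := ex3_a k419_A00pm_012_s1 k420_A00pm_012_s1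

theorem t1566_A00pm_012_s1 : ∃ t, chk3 f_A00pm_012_s1 t 1334 373 4 = true := ex3_a k418_A00pm_012_s1 t1565_A00pm_012_s1

theorem t1567_A00pm_012_s1 : ∃ t, chk3 f_A00pm_012_s1 t 1334 186 4 = true := ex3_b k417_A00pm_012_s1 t1566_A00pm_012_s1

theorem t1568_A00pm_012_s1 : ∃ t, chk3 f_A00pm_012_s1 t 1334 93 4 = true := ex3_b t1567_A00pm_012_s1 t1564_A00pm_012_s1

theorem t1569_A00pm_012_s1 : ∃ t, chk3 f_A00pm_012_s1 t 1334 93 2 = true := ex3_c t1568_A00pm_012_s1 t1561_A00pm_012_s1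

theorem t1570_A00pm_012_s1 : ∃ t, chk3 f_A00pm_012_s1 t 667 93 2 = true := ex3_a t1569_A00pm_012_s1 t1557_A00pm_012_s1

theorem t1571_A00pm_012_s1 : ∃ t, chk3 f_A00pm_012_s1 t 1335 185 10 = true := ex3_a k414_A00pm_012_s1 k415_A00pm_012_s1

theorem t1572_A00pm_012_s1 : ∃ t, chk3 f_A00pm_012_s1 t 1335 92 10 = true := ex3_b k413_A00pm_012_s1 t1571_A00pm_012_s1

theorem t1573_A00pm_012_s1 : ∃ t, chk3 f_A00pm_012_s1 t 667 92 10 = true := ex3_a k412_A00pm_012_s1 t1572_A00pm_012_s1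

theorem t1574_A00pm_012_s1 : ∃ t, chk3 f_A00pm_012_s1 t 667 92 5 = true := ex3_c t1573_A00pm_012_s1 k416_A00pm_012_s1

theorem t1575_A00pm_012_s1 : ∃ t, chk3 f_A00pm_012_s1 t 5342 371 4 = true := ex3_b k409_A00pm_012_s1 k410_A00pm_012_s1

theorem t1576_A00pm_012_s1 : ∃ t, chk3 f_A00pm_012_s1 t 2671 371 4 = true := ex3_a t1575_A00pm_012_s1 k411_A00pm_012_s1

theorem t1577_A00pm_012_s1 : ∃ t, chk3 f_A00pm_012_s1 t 2671 370 4 = true := ex3_c k407_A00pm_012_s1 k408_A00pm_012_s1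

theorem t1578_A00pm_012_s1 : ∃ t, chk3 f_A00pm_012_s1 t 2671 185 4 = true := ex3_b t1577_A00pm_012_s1 t1576_A00pm_012_s1

theorem t1579_A00pm_012_s1 : ∃ t, chk3 f_A00pm_012_s1 t 2671 92 4 = true := ex3_b k406_A00pm_012_s1 t1578_A00pm_012_s1

theorem t1580_A00pm_012_s1 : ∃ t, chk3 f_A00pm_012_s1 t 1335 92 4 = true := ex3_a k405_A00pm_012_s1 t1579_A00pm_012_s1

theorem t1581_A00pm_012_s1 : ∃ t, chk3 f_A00pm_012_s1 t 667 92 4 = true := ex3_a k404_A00pm_012_s1 t1580_A00pm_012_s1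

theorem t1582_A00pm_012_s1 : ∃ t, chk3 f_A00pm_012_s1 t 667 92 2 = true := ex3_c t1581_A00pm_012_s1 t1574_A00pm_012_s1

theorem t1583_A00pm_012_s1 : ∃ t, chk3 f_A00pm_012_s1 t 667 46 2 = true := ex3_b t1582_A00pm_012_s1 t1570_A00pm_012_s1

theorem t1584_A00pm_012_s1 : ∃ t, chk3 f_A00pm_012_s1 t 1333 93 5 = true := ex3_c k402_A00pm_012_s1 k403_A00pm_012_s1

theorem t1585_A00pm_012_s1 : ∃ t, chk3 f_A00pm_012_s1 t 1333 46 5 = true := ex3_b k401_A00pm_012_s1 t1584_A00pm_012_s1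

theorem t1586_A00pm_012_s1 : ∃ t, chk3 f_A00pm_012_s1 t 666 46 5 = true := ex3_a k400_A00pm_012_s1 t1585_A00pm_012_s1

theorem t1587_A00pm_012_s1 : ∃ t, chk3 f_A00pm_012_s1 t 666 93 9 = true := ex3_c k398_A00pm_012_s1 k399_A00pm_012_s1

theorem t1588_A00pm_012_s1 : ∃ t, chk3 f_A00pm_012_s1 t 666 93 8 = true := ex3_c k396_A00pm_012_s1 k397_A00pm_012_s1

theorem t1589_A00pm_012_s1 : ∃ t, chk3 f_A00pm_012_s1 t 666 93 4 = true := ex3_c t1588_A00pm_012_s1 t1587_A00pm_012_s1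

theorem t1590_A00pm_012_s1 : ∃ t, chk3 f_A00pm_012_s1 t 666 46 4 = true := ex3_b k395_A00pm_012_s1 t1589_A00pm_012_s1

theorem t1591_A00pm_012_s1 : ∃ t, chk3 f_A00pm_012_s1 t 666 46 2 = true := ex3_c t1590_A00pm_012_s1 t1586_A00pm_012_s1

theorem t1592_A00pm_012_s1 : ∃ t, chk3 f_A00pm_012_s1 t 333 46 2 = true := ex3_a t1591_A00pm_012_s1 t1583_A00pm_012_s1

theorem t1593_A00pm_012_s1 : ∃ t, chk3 f_A00pm_012_s1 t 333 23 2 = true := ex3_b t1592_A00pm_012_s1 t1551_A00pm_012_s1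

theorem t1594_A00pm_012_s1 : ∃ t, chk3 f_A00pm_012_s1 t 1331 190 2 = true := ex3_c k392_A00pm_012_s1 k393_A00pm_012_s1

theorem t1595_A00pm_012_s1 : ∃ t, chk3 f_A00pm_012_s1 t 1331 95 2 = true := ex3_b t1594_A00pm_012_s1 k394_A00pm_012_s1

theorem t1596_A00pm_012_s1 : ∃ t, chk3 f_A00pm_012_s1 t 1330 190 5 = true := ex3_b k389_A00pm_012_s1 k390_A00pm_012_s1

theorem t1597_A00pm_012_s1 : ∃ t, chk3 f_A00pm_012_s1 t 1330 190 4 = true := ex3_b k387_A00pm_012_s1 k388_A00pm_012_s1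

theorem t1598_A00pm_012_s1 : ∃ t, chk3 f_A00pm_012_s1 t 1330 190 2 = true := ex3_c t1597_A00pm_012_s1 t1596_A00pm_012_s1

theorem t1599_A00pm_012_s1 : ∃ t, chk3 f_A00pm_012_s1 t 1330 95 2 = true := ex3_b t1598_A00pm_012_s1 k391_A00pm_012_s1

theorem t1600_A00pm_012_s1 : ∃ t, chk3 f_A00pm_012_s1 t 665 95 2 = true := ex3_a t1599_A00pm_012_s1 t1595_A00pm_012_s1

theorem t1601_A00pm_012_s1 : ∃ t, chk3 f_A00pm_012_s1 t 2663 189 4 = true := ex3_c k384_A00pm_012_s1 k385_A00pm_012_s1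

theorem t1602_A00pm_012_s1 : ∃ t, chk3 f_A00pm_012_s1 t 1331 189 4 = true := ex3_a k383_A00pm_012_s1 t1601_A00pm_012_s1

theorem t1603_A00pm_012_s1 : ∃ t, chk3 f_A00pm_012_s1 t 665 189 4 = true := ex3_a k382_A00pm_012_s1 t1602_A00pm_012_s1

theorem t1604_A00pm_012_s1 : ∃ t, chk3 f_A00pm_012_s1 t 665 94 4 = true := ex3_b k381_A00pm_012_s1 t1603_A00pm_012_s1

theorem t1605_A00pm_012_s1 : ∃ t, chk3 f_A00pm_012_s1 t 665 94 2 = true := ex3_c t1604_A00pm_012_s1 k386_A00pm_012_s1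

theorem t1606_A00pm_012_s1 : ∃ t, chk3 f_A00pm_012_s1 t 665 47 2 = true := ex3_b t1605_A00pm_012_s1 t1600_A00pm_012_s1

theorem t1607_A00pm_012_s1 : ∃ t, chk3 f_A00pm_012_s1 t 665 23 2 = true := ex3_b k380_A00pm_012_s1 t1606_A00pm_012_s1

theorem t1608_A00pm_012_s1 : ∃ t, chk3 f_A00pm_012_s1 t 1329 191 5 = true := ex3_b k378_A00pm_012_s1 k379_A00pm_012_s1

theorem t1609_A00pm_012_s1 : ∃ t, chk3 f_A00pm_012_s1 t 1329 95 5 = true := ex3_b k377_A00pm_012_s1 t1608_A00pm_012_s1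

theorem t1610_A00pm_012_s1 : ∃ t, chk3 f_A00pm_012_s1 t 1329 47 5 = true := ex3_b k376_A00pm_012_s1 t1609_A00pm_012_s1

theorem t1611_A00pm_012_s1 : ∃ t, chk3 f_A00pm_012_s1 t 664 47 5 = true := ex3_a k375_A00pm_012_s1 t1610_A00pm_012_s1

theorem t1612_A00pm_012_s1 : ∃ t, chk3 f_A00pm_012_s1 t 664 23 5 = true := ex3_b k374_A00pm_012_s1 t1611_A00pm_012_s1

theorem t1613_A00pm_012_s1 : ∃ t, chk3 f_A00pm_012_s1 t 1329 191 4 = true := ex3_b k372_A00pm_012_s1 k373_A00pm_012_s1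

theorem t1614_A00pm_012_s1 : ∃ t, chk3 f_A00pm_012_s1 t 664 191 4 = true := ex3_a k371_A00pm_012_s1 t1613_A00pm_012_s1

theorem t1615_A00pm_012_s1 : ∃ t, chk3 f_A00pm_012_s1 t 664 95 4 = true := ex3_b k370_A00pm_012_s1 t1614_A00pm_012_s1

theorem t1616_A00pm_012_s1 : ∃ t, chk3 f_A00pm_012_s1 t 664 47 4 = true := ex3_b k369_A00pm_012_s1 t1615_A00pm_012_s1

theorem t1617_A00pm_012_s1 : ∃ t, chk3 f_A00pm_012_s1 t 664 23 4 = true := ex3_b k368_A00pm_012_s1 t1616_A00pm_012_s1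

theorem t1618_A00pm_012_s1 : ∃ t, chk3 f_A00pm_012_s1 t 664 23 2 = true := ex3_c t1617_A00pm_012_s1 t1612_A00pm_012_s1

theorem t1619_A00pm_012_s1 : ∃ t, chk3 f_A00pm_012_s1 t 332 23 2 = true := ex3_a t1618_A00pm_012_s1 t1607_A00pm_012_s1

theorem t1620_A00pm_012_s1 : ∃ t, chk3 f_A00pm_012_s1 t 166 23 2 = true := ex3_a t1619_A00pm_012_s1 t1593_A00pm_012_s1

theorem t1621_A00pm_012_s1 : ∃ t, chk3 f_A00pm_012_s1 t 333 22 10 = true := ex3_a k365_A00pm_012_s1 k366_A00pm_012_s1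

theorem t1622_A00pm_012_s1 : ∃ t, chk3 f_A00pm_012_s1 t 333 22 5 = true := ex3_c t1621_A00pm_012_s1 k367_A00pm_012_s1

theorem t1623_A00pm_012_s1 : ∃ t, chk3 f_A00pm_012_s1 t 332 22 5 = true := ex3_c k363_A00pm_012_s1 k364_A00pm_012_s1

theorem t1624_A00pm_012_s1 : ∃ t, chk3 f_A00pm_012_s1 t 166 22 5 = true := ex3_a t1623_A00pm_012_s1 t1622_A00pm_012_s1

theorem t1625_A00pm_012_s1 : ∃ t, chk3 f_A00pm_012_s1 t 333 45 9 = true := ex3_a k361_A00pm_012_s1 k362_A00pm_012_s1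

theorem t1626_A00pm_012_s1 : ∃ t, chk3 f_A00pm_012_s1 t 667 45 8 = true := ex3_a k359_A00pm_012_s1 k360_A00pm_012_s1

theorem t1627_A00pm_012_s1 : ∃ t, chk3 f_A00pm_012_s1 t 666 45 8 = true := ex3_c k357_A00pm_012_s1 k358_A00pm_012_s1

theorem t1628_A00pm_012_s1 : ∃ t, chk3 f_A00pm_012_s1 t 333 45 8 = true := ex3_a t1627_A00pm_012_s1 t1626_A00pm_012_s1

theorem t1629_A00pm_012_s1 : ∃ t, chk3 f_A00pm_012_s1 t 333 45 4 = true := ex3_c t1628_A00pm_012_s1 t1625_A00pm_012_s1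

theorem t1630_A00pm_012_s1 : ∃ t, chk3 f_A00pm_012_s1 t 333 44 9 = true := ex3_a k355_A00pm_012_s1 k356_A00pm_012_s1

theorem t1631_A00pm_012_s1 : ∃ t, chk3 f_A00pm_012_s1 t 333 44 8 = true := ex3_a k353_A00pm_012_s1 k354_A00pm_012_s1

theorem t1632_A00pm_012_s1 : ∃ t, chk3 f_A00pm_012_s1 t 333 44 4 = true := ex3_c t1631_A00pm_012_s1 t1630_A00pm_012_s1

theorem t1633_A00pm_012_s1 : ∃ t, chk3 f_A00pm_012_s1 t 333 22 4 = true := ex3_b t1632_A00pm_012_s1 t1629_A00pm_012_s1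

theorem t1634_A00pm_012_s1 : ∃ t, chk3 f_A00pm_012_s1 t 332 22 9 = true := ex3_b k351_A00pm_012_s1 k352_A00pm_012_s1

theorem t1635_A00pm_012_s1 : ∃ t, chk3 f_A00pm_012_s1 t 332 44 8 = true := ex3_a k348_A00pm_012_s1 k349_A00pm_012_s1

theorem t1636_A00pm_012_s1 : ∃ t, chk3 f_A00pm_012_s1 t 332 22 8 = true := ex3_b t1635_A00pm_012_s1 k350_A00pm_012_s1

theorem t1637_A00pm_012_s1 : ∃ t, chk3 f_A00pm_012_s1 t 332 22 4 = true := ex3_c t1636_A00pm_012_s1 t1634_A00pm_012_s1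

theorem t1638_A00pm_012_s1 : ∃ t, chk3 f_A00pm_012_s1 t 166 22 4 = true := ex3_a t1637_A00pm_012_s1 t1633_A00pm_012_s1

theorem t1639_A00pm_012_s1 : ∃ t, chk3 f_A00pm_012_s1 t 166 22 2 = true := ex3_c t1638_A00pm_012_s1 t1624_A00pm_012_s1

theorem t1640_A00pm_012_s1 : ∃ t, chk3 f_A00pm_012_s1 t 166 11 2 = true := ex3_b t1639_A00pm_012_s1 t1620_A00pm_012_s1

theorem t1641_A00pm_012_s1 : ∃ t, chk3 f_A00pm_012_s1 t 166 11 1 = true := ex3_c t1640_A00pm_012_s1 t1534_A00pm_012_s1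

theorem t1642_A00pm_012_s1 : ∃ t, chk3 f_A00pm_012_s1 t 333 10 3 = true := ex3_b k346_A00pm_012_s1 k347_A00pm_012_s1

theorem t1643_A00pm_012_s1 : ∃ t, chk3 f_A00pm_012_s1 t 166 10 3 = true := ex3_a k345_A00pm_012_s1 t1642_A00pm_012_s1

theorem t1644_A00pm_012_s1 : ∃ t, chk3 f_A00pm_012_s1 t 333 10 5 = true := ex3_c k343_A00pm_012_s1 k344_A00pm_012_s1

theorem t1645_A00pm_012_s1 : ∃ t, chk3 f_A00pm_012_s1 t 166 10 5 = true := ex3_a k342_A00pm_012_s1 t1644_A00pm_012_s1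

theorem t1646_A00pm_012_s1 : ∃ t, chk3 f_A00pm_012_s1 t 333 10 9 = true := ex3_a k340_A00pm_012_s1 k341_A00pm_012_s1

theorem t1647_A00pm_012_s1 : ∃ t, chk3 f_A00pm_012_s1 t 667 21 8 = true := ex3_a k338_A00pm_012_s1 k339_A00pm_012_s1

theorem t1648_A00pm_012_s1 : ∃ t, chk3 f_A00pm_012_s1 t 667 10 8 = true := ex3_b k337_A00pm_012_s1 t1647_A00pm_012_s1

theorem t1649_A00pm_012_s1 : ∃ t, chk3 f_A00pm_012_s1 t 666 10 8 = true := ex3_b k335_A00pm_012_s1 k336_A00pm_012_s1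

theorem t1650_A00pm_012_s1 : ∃ t, chk3 f_A00pm_012_s1 t 333 10 8 = true := ex3_a t1649_A00pm_012_s1 t1648_A00pm_012_s1

theorem t1651_A00pm_012_s1 : ∃ t, chk3 f_A00pm_012_s1 t 333 10 4 = true := ex3_c t1650_A00pm_012_s1 t1646_A00pm_012_s1

theorem t1652_A00pm_012_s1 : ∃ t, chk3 f_A00pm_012_s1 t 332 10 8 = true := ex3_a k332_A00pm_012_s1 k333_A00pm_012_s1

theorem t1653_A00pm_012_s1 : ∃ t, chk3 f_A00pm_012_s1 t 332 10 4 = true := ex3_c t1652_A00pm_012_s1 k334_A00pm_012_s1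

theorem t1654_A00pm_012_s1 : ∃ t, chk3 f_A00pm_012_s1 t 166 10 4 = true := ex3_a t1653_A00pm_012_s1 t1651_A00pm_012_s1

theorem t1655_A00pm_012_s1 : ∃ t, chk3 f_A00pm_012_s1 t 166 10 2 = true := ex3_c t1654_A00pm_012_s1 t1645_A00pm_012_s1

theorem t1656_A00pm_012_s1 : ∃ t, chk3 f_A00pm_012_s1 t 166 10 1 = true := ex3_c t1655_A00pm_012_s1 t1643_A00pm_012_s1

theorem t1657_A00pm_012_s1 : ∃ t, chk3 f_A00pm_012_s1 t 166 5 1 = true := ex3_b t1656_A00pm_012_s1 t1641_A00pm_012_s1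

theorem t1658_A00pm_012_s1 : ∃ t, chk3 f_A00pm_012_s1 t 83 5 1 = true := ex3_a t1657_A00pm_012_s1 t1516_A00pm_012_s1

theorem t1659_A00pm_012_s1 : ∃ t, chk3 f_A00pm_012_s1 t 83 2 1 = true := ex3_b k331_A00pm_012_s1 t1658_A00pm_012_s1

theorem t1660_A00pm_012_s1 : ∃ t, chk3 f_A00pm_012_s1 t 82 5 6 = true := ex3_a k328_A00pm_012_s1 k329_A00pm_012_s1

theorem t1661_A00pm_012_s1 : ∃ t, chk3 f_A00pm_012_s1 t 82 5 3 = true := ex3_c t1660_A00pm_012_s1 k330_A00pm_012_s1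

theorem t1662_A00pm_012_s1 : ∃ t, chk3 f_A00pm_012_s1 t 331 11 5 = true := ex3_b k326_A00pm_012_s1 k327_A00pm_012_s1

theorem t1663_A00pm_012_s1 : ∃ t, chk3 f_A00pm_012_s1 t 165 11 5 = true := ex3_a k325_A00pm_012_s1 t1662_A00pm_012_s1

theorem t1664_A00pm_012_s1 : ∃ t, chk3 f_A00pm_012_s1 t 165 5 5 = true := ex3_b k324_A00pm_012_s1 t1663_A00pm_012_s1

theorem t1665_A00pm_012_s1 : ∃ t, chk3 f_A00pm_012_s1 t 82 5 5 = true := ex3_a k323_A00pm_012_s1 t1664_A00pm_012_s1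

theorem t1666_A00pm_012_s1 : ∃ t, chk3 f_A00pm_012_s1 t 331 22 8 = true := ex3_a k319_A00pm_012_s1 k320_A00pm_012_s1

theorem t1667_A00pm_012_s1 : ∃ t, chk3 f_A00pm_012_s1 t 331 22 4 = true := ex3_c t1666_A00pm_012_s1 k321_A00pm_012_s1

theorem t1668_A00pm_012_s1 : ∃ t, chk3 f_A00pm_012_s1 t 331 11 4 = true := ex3_b t1667_A00pm_012_s1 k322_A00pm_012_s1

theorem t1669_A00pm_012_s1 : ∃ t, chk3 f_A00pm_012_s1 t 165 11 4 = true := ex3_a k318_A00pm_012_s1 t1668_A00pm_012_s1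

theorem t1670_A00pm_012_s1 : ∃ t, chk3 f_A00pm_012_s1 t 82 11 4 = true := ex3_a k317_A00pm_012_s1 t1669_A00pm_012_s1

theorem t1671_A00pm_012_s1 : ∃ t, chk3 f_A00pm_012_s1 t 165 21 4 = true := ex3_c k315_A00pm_012_s1 k316_A00pm_012_s1

theorem t1672_A00pm_012_s1 : ∃ t, chk3 f_A00pm_012_s1 t 165 10 4 = true := ex3_b k314_A00pm_012_s1 t1671_A00pm_012_s1

theorem t1673_A00pm_012_s1 : ∃ t, chk3 f_A00pm_012_s1 t 82 10 4 = true := ex3_a k313_A00pm_012_s1 t1672_A00pm_012_s1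

theorem t1674_A00pm_012_s1 : ∃ t, chk3 f_A00pm_012_s1 t 82 5 4 = true := ex3_b t1673_A00pm_012_s1 t1670_A00pm_012_s1

theorem t1675_A00pm_012_s1 : ∃ t, chk3 f_A00pm_012_s1 t 82 5 2 = true := ex3_c t1674_A00pm_012_s1 t1665_A00pm_012_s1

theorem t1676_A00pm_012_s1 : ∃ t, chk3 f_A00pm_012_s1 t 82 5 1 = true := ex3_c t1675_A00pm_012_s1 t1661_A00pm_012_s1

theorem t1677_A00pm_012_s1 : ∃ t, chk3 f_A00pm_012_s1 t 82 2 1 = true := ex3_b k312_A00pm_012_s1 t1676_A00pm_012_s1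

theorem t1678_A00pm_012_s1 : ∃ t, chk3 f_A00pm_012_s1 t 41 2 1 = true := ex3_a t1677_A00pm_012_s1 t1659_A00pm_012_s1

theorem t1679_A00pm_012_s1 : ∃ t, chk3 f_A00pm_012_s1 t 20 2 1 = true := ex3_a k311_A00pm_012_s1 t1678_A00pm_012_s1

theorem t1680_A00pm_012_s1 : ∃ t, chk3 f_A00pm_012_s1 t 10 2 1 = true := ex3_a t1679_A00pm_012_s1 t1266_A00pm_012_s1

theorem t1681_A00pm_012_s1 : ∃ t, chk3 f_A00pm_012_s1 t 5 2 1 = true := ex3_a t1680_A00pm_012_s1 t1260_A00pm_012_s1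

theorem t1682_A00pm_012_s1 : ∃ t, chk3 f_A00pm_012_s1 t 5 1 1 = true := ex3_b t1681_A00pm_012_s1 t1258_A00pm_012_s1

theorem t1683_A00pm_012_s1 : ∃ t, chk3 f_A00pm_012_s1 t 38 63 3 = true := ex3_c k308_A00pm_012_s1 k309_A00pm_012_s1

theorem t1684_A00pm_012_s1 : ∃ t, chk3 f_A00pm_012_s1 t 38 31 3 = true := ex3_b k307_A00pm_012_s1 t1683_A00pm_012_s1

theorem t1685_A00pm_012_s1 : ∃ t, chk3 f_A00pm_012_s1 t 19 31 3 = true := ex3_a t1684_A00pm_012_s1 k310_A00pm_012_s1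

theorem t1686_A00pm_012_s1 : ∃ t, chk3 f_A00pm_012_s1 t 38 62 4 = true := ex3_a k302_A00pm_012_s1 k303_A00pm_012_s1

theorem t1687_A00pm_012_s1 : ∃ t, chk3 f_A00pm_012_s1 t 38 62 2 = true := ex3_c t1686_A00pm_012_s1 k304_A00pm_012_s1

theorem t1688_A00pm_012_s1 : ∃ t, chk3 f_A00pm_012_s1 t 38 31 2 = true := ex3_b t1687_A00pm_012_s1 k305_A00pm_012_s1

theorem t1689_A00pm_012_s1 : ∃ t, chk3 f_A00pm_012_s1 t 19 31 2 = true := ex3_a t1688_A00pm_012_s1 k306_A00pm_012_s1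

theorem t1690_A00pm_012_s1 : ∃ t, chk3 f_A00pm_012_s1 t 19 31 1 = true := ex3_c t1689_A00pm_012_s1 t1685_A00pm_012_s1

theorem t1691_A00pm_012_s1 : ∃ t, chk3 f_A00pm_012_s1 t 38 61 1 = true := ex3_c k299_A00pm_012_s1 k300_A00pm_012_s1

theorem t1692_A00pm_012_s1 : ∃ t, chk3 f_A00pm_012_s1 t 76 60 1 = true := ex3_c k296_A00pm_012_s1 k297_A00pm_012_s1

theorem t1693_A00pm_012_s1 : ∃ t, chk3 f_A00pm_012_s1 t 38 60 1 = true := ex3_a t1692_A00pm_012_s1 k298_A00pm_012_s1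

theorem t1694_A00pm_012_s1 : ∃ t, chk3 f_A00pm_012_s1 t 38 30 1 = true := ex3_b t1693_A00pm_012_s1 t1691_A00pm_012_s1

theorem t1695_A00pm_012_s1 : ∃ t, chk3 f_A00pm_012_s1 t 19 30 1 = true := ex3_a t1694_A00pm_012_s1 k301_A00pm_012_s1

theorem t1696_A00pm_012_s1 : ∃ t, chk3 f_A00pm_012_s1 t 19 15 1 = true := ex3_b t1695_A00pm_012_s1 t1690_A00pm_012_s1

theorem t1697_A00pm_012_s1 : ∃ t, chk3 f_A00pm_012_s1 t 39 59 1 = true := ex3_a k294_A00pm_012_s1 k295_A00pm_012_s1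

theorem t1698_A00pm_012_s1 : ∃ t, chk3 f_A00pm_012_s1 t 39 29 1 = true := ex3_b k293_A00pm_012_s1 t1697_A00pm_012_s1

theorem t1699_A00pm_012_s1 : ∃ t, chk3 f_A00pm_012_s1 t 39 56 1 = true := ex3_c k290_A00pm_012_s1 k291_A00pm_012_s1

theorem t1700_A00pm_012_s1 : ∃ t, chk3 f_A00pm_012_s1 t 39 28 1 = true := ex3_b t1699_A00pm_012_s1 k292_A00pm_012_s1

theorem t1701_A00pm_012_s1 : ∃ t, chk3 f_A00pm_012_s1 t 39 14 1 = true := ex3_b t1700_A00pm_012_s1 t1698_A00pm_012_s1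

theorem t1702_A00pm_012_s1 : ∃ t, chk3 f_A00pm_012_s1 t 76 29 1 = true := ex3_c k287_A00pm_012_s1 k288_A00pm_012_s1

theorem t1703_A00pm_012_s1 : ∃ t, chk3 f_A00pm_012_s1 t 38 29 1 = true := ex3_a t1702_A00pm_012_s1 k289_A00pm_012_s1

theorem t1704_A00pm_012_s1 : ∃ t, chk3 f_A00pm_012_s1 t 310 224 15 = true := ex3_b k281_A00pm_012_s1 k282_A00pm_012_s1

theorem t1705_A00pm_012_s1 : ∃ t, chk3 f_A00pm_012_s1 t 310 224 7 = true := ex3_c k280_A00pm_012_s1 t1704_A00pm_012_s1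

theorem t1706_A00pm_012_s1 : ∃ t, chk3 f_A00pm_012_s1 t 310 112 7 = true := ex3_b t1705_A00pm_012_s1 k283_A00pm_012_s1

theorem t1707_A00pm_012_s1 : ∃ t, chk3 f_A00pm_012_s1 t 310 112 3 = true := ex3_c k279_A00pm_012_s1 t1706_A00pm_012_s1

theorem t1708_A00pm_012_s1 : ∃ t, chk3 f_A00pm_012_s1 t 155 112 3 = true := ex3_a t1707_A00pm_012_s1 k284_A00pm_012_s1

theorem t1709_A00pm_012_s1 : ∃ t, chk3 f_A00pm_012_s1 t 155 56 3 = true := ex3_b t1708_A00pm_012_s1 k285_A00pm_012_s1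

theorem t1710_A00pm_012_s1 : ∃ t, chk3 f_A00pm_012_s1 t 154 113 3 = true := ex3_c k277_A00pm_012_s1 k278_A00pm_012_s1

theorem t1711_A00pm_012_s1 : ∃ t, chk3 f_A00pm_012_s1 t 309 225 7 = true := ex3_a k275_A00pm_012_s1 k276_A00pm_012_s1

theorem t1712_A00pm_012_s1 : ∃ t, chk3 f_A00pm_012_s1 t 309 112 7 = true := ex3_b k274_A00pm_012_s1 t1711_A00pm_012_s1

theorem t1713_A00pm_012_s1 : ∃ t, chk3 f_A00pm_012_s1 t 308 112 7 = true := ex3_c k272_A00pm_012_s1 k273_A00pm_012_s1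

theorem t1714_A00pm_012_s1 : ∃ t, chk3 f_A00pm_012_s1 t 154 112 7 = true := ex3_a t1713_A00pm_012_s1 t1712_A00pm_012_s1

theorem t1715_A00pm_012_s1 : ∃ t, chk3 f_A00pm_012_s1 t 154 112 3 = true := ex3_c k271_A00pm_012_s1 t1714_A00pm_012_s1

theorem t1716_A00pm_012_s1 : ∃ t, chk3 f_A00pm_012_s1 t 154 56 3 = true := ex3_b t1715_A00pm_012_s1 t1710_A00pm_012_s1

theorem t1717_A00pm_012_s1 : ∃ t, chk3 f_A00pm_012_s1 t 77 56 3 = true := ex3_a t1716_A00pm_012_s1 t1709_A00pm_012_s1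

theorem t1718_A00pm_012_s1 : ∃ t, chk3 f_A00pm_012_s1 t 154 112 2 = true := ex3_a k267_A00pm_012_s1 k268_A00pm_012_s1

theorem t1719_A00pm_012_s1 : ∃ t, chk3 f_A00pm_012_s1 t 154 56 2 = true := ex3_b t1718_A00pm_012_s1 k269_A00pm_012_s1

theorem t1720_A00pm_012_s1 : ∃ t, chk3 f_A00pm_012_s1 t 77 56 2 = true := ex3_a t1719_A00pm_012_s1 k270_A00pm_012_s1

theorem t1721_A00pm_012_s1 : ∃ t, chk3 f_A00pm_012_s1 t 77 56 1 = true := ex3_c t1720_A00pm_012_s1 t1717_A00pm_012_s1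

theorem t1722_A00pm_012_s1 : ∃ t, chk3 f_A00pm_012_s1 t 77 28 1 = true := ex3_b t1721_A00pm_012_s1 k286_A00pm_012_s1

theorem t1723_A00pm_012_s1 : ∃ t, chk3 f_A00pm_012_s1 t 307 56 15 = true := ex3_a k264_A00pm_012_s1 k265_A00pm_012_s1

theorem t1724_A00pm_012_s1 : ∃ t, chk3 f_A00pm_012_s1 t 153 56 15 = true := ex3_a k263_A00pm_012_s1 t1723_A00pm_012_s1

theorem t1725_A00pm_012_s1 : ∃ t, chk3 f_A00pm_012_s1 t 153 56 7 = true := ex3_c k262_A00pm_012_s1 t1724_A00pm_012_s1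

theorem t1726_A00pm_012_s1 : ∃ t, chk3 f_A00pm_012_s1 t 153 56 3 = true := ex3_c k261_A00pm_012_s1 t1725_A00pm_012_s1

theorem t1727_A00pm_012_s1 : ∃ t, chk3 f_A00pm_012_s1 t 153 28 3 = true := ex3_b t1726_A00pm_012_s1 k266_A00pm_012_s1

theorem t1728_A00pm_012_s1 : ∃ t, chk3 f_A00pm_012_s1 t 152 28 3 = true := ex3_b k259_A00pm_012_s1 k260_A00pm_012_s1

theorem t1729_A00pm_012_s1 : ∃ t, chk3 f_A00pm_012_s1 t 76 28 3 = true := ex3_a t1728_A00pm_012_s1 t1727_A00pm_012_s1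

theorem t1730_A00pm_012_s1 : ∃ t, chk3 f_A00pm_012_s1 t 305 228 8 = true := ex3_b k252_A00pm_012_s1 k253_A00pm_012_s1

theorem t1731_A00pm_012_s1 : ∃ t, chk3 f_A00pm_012_s1 t 305 228 4 = true := ex3_c t1730_A00pm_012_s1 k254_A00pm_012_s1

theorem t1732_A00pm_012_s1 : ∃ t, chk3 f_A00pm_012_s1 t 305 114 4 = true := ex3_b t1731_A00pm_012_s1 k255_A00pm_012_s1

theorem t1733_A00pm_012_s1 : ∃ t, chk3 f_A00pm_012_s1 t 304 114 4 = true := ex3_a k250_A00pm_012_s1 k251_A00pm_012_s1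

theorem t1734_A00pm_012_s1 : ∃ t, chk3 f_A00pm_012_s1 t 152 114 4 = true := ex3_a t1733_A00pm_012_s1 t1732_A00pm_012_s1

theorem t1735_A00pm_012_s1 : ∃ t, chk3 f_A00pm_012_s1 t 152 114 2 = true := ex3_c t1734_A00pm_012_s1 k256_A00pm_012_s1

theorem t1736_A00pm_012_s1 : ∃ t, chk3 f_A00pm_012_s1 t 76 114 2 = true := ex3_a t1735_A00pm_012_s1 k257_A00pm_012_s1

theorem t1737_A00pm_012_s1 : ∃ t, chk3 f_A00pm_012_s1 t 76 57 2 = true := ex3_b t1736_A00pm_012_s1 k258_A00pm_012_s1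

theorem t1738_A00pm_012_s1 : ∃ t, chk3 f_A00pm_012_s1 t 306 227 8 = true := ex3_b k245_A00pm_012_s1 k246_A00pm_012_s1

theorem t1739_A00pm_012_s1 : ∃ t, chk3 f_A00pm_012_s1 t 153 227 8 = true := ex3_a t1738_A00pm_012_s1 k247_A00pm_012_s1

theorem t1740_A00pm_012_s1 : ∃ t, chk3 f_A00pm_012_s1 t 76 227 8 = true := ex3_a k244_A00pm_012_s1 t1739_A00pm_012_s1

theorem t1741_A00pm_012_s1 : ∃ t, chk3 f_A00pm_012_s1 t 76 113 8 = true := ex3_b k243_A00pm_012_s1 t1740_A00pm_012_s1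

theorem t1742_A00pm_012_s1 : ∃ t, chk3 f_A00pm_012_s1 t 76 113 4 = true := ex3_c t1741_A00pm_012_s1 k248_A00pm_012_s1

theorem t1743_A00pm_012_s1 : ∃ t, chk3 f_A00pm_012_s1 t 76 56 4 = true := ex3_b k242_A00pm_012_s1 t1742_A00pm_012_s1

theorem t1744_A00pm_012_s1 : ∃ t, chk3 f_A00pm_012_s1 t 76 56 2 = true := ex3_c t1743_A00pm_012_s1 k249_A00pm_012_s1

theorem t1745_A00pm_012_s1 : ∃ t, chk3 f_A00pm_012_s1 t 76 28 2 = true := ex3_b t1744_A00pm_012_s1 t1737_A00pm_012_s1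

theorem t1746_A00pm_012_s1 : ∃ t, chk3 f_A00pm_012_s1 t 76 28 1 = true := ex3_c t1745_A00pm_012_s1 t1729_A00pm_012_s1

theorem t1747_A00pm_012_s1 : ∃ t, chk3 f_A00pm_012_s1 t 38 28 1 = true := ex3_a t1746_A00pm_012_s1 t1722_A00pm_012_s1

theorem t1748_A00pm_012_s1 : ∃ t, chk3 f_A00pm_012_s1 t 38 14 1 = true := ex3_b t1747_A00pm_012_s1 t1703_A00pm_012_s1

theorem t1749_A00pm_012_s1 : ∃ t, chk3 f_A00pm_012_s1 t 19 14 1 = true := ex3_a t1748_A00pm_012_s1 t1701_A00pm_012_s1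

theorem t1750_A00pm_012_s1 : ∃ t, chk3 f_A00pm_012_s1 t 19 7 1 = true := ex3_b t1749_A00pm_012_s1 t1696_A00pm_012_s1

theorem t1751_A00pm_012_s1 : ∃ t, chk3 f_A00pm_012_s1 t 18 31 3 = true := ex3_a k240_A00pm_012_s1 k241_A00pm_012_s1

theorem t1752_A00pm_012_s1 : ∃ t, chk3 f_A00pm_012_s1 t 18 31 2 = true := ex3_a k238_A00pm_012_s1 k239_A00pm_012_s1

theorem t1753_A00pm_012_s1 : ∃ t, chk3 f_A00pm_012_s1 t 18 31 1 = true := ex3_c t1752_A00pm_012_s1 t1751_A00pm_012_s1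

theorem t1754_A00pm_012_s1 : ∃ t, chk3 f_A00pm_012_s1 t 37 61 2 = true := ex3_a k235_A00pm_012_s1 k236_A00pm_012_s1

theorem t1755_A00pm_012_s1 : ∃ t, chk3 f_A00pm_012_s1 t 37 61 1 = true := ex3_c t1754_A00pm_012_s1 k237_A00pm_012_s1

theorem t1756_A00pm_012_s1 : ∃ t, chk3 f_A00pm_012_s1 t 37 60 1 = true := ex3_c k233_A00pm_012_s1 k234_A00pm_012_s1

theorem t1757_A00pm_012_s1 : ∃ t, chk3 f_A00pm_012_s1 t 37 30 1 = true := ex3_b t1756_A00pm_012_s1 t1755_A00pm_012_s1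

theorem t1758_A00pm_012_s1 : ∃ t, chk3 f_A00pm_012_s1 t 36 61 2 = true := ex3_a k230_A00pm_012_s1 k231_A00pm_012_s1

theorem t1759_A00pm_012_s1 : ∃ t, chk3 f_A00pm_012_s1 t 36 61 1 = true := ex3_c t1758_A00pm_012_s1 k232_A00pm_012_s1

theorem t1760_A00pm_012_s1 : ∃ t, chk3 f_A00pm_012_s1 t 73 60 1 = true := ex3_c k228_A00pm_012_s1 k229_A00pm_012_s1

theorem t1761_A00pm_012_s1 : ∃ t, chk3 f_A00pm_012_s1 t 72 120 3 = true := ex3_b k225_A00pm_012_s1 k226_A00pm_012_s1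

theorem t1762_A00pm_012_s1 : ∃ t, chk3 f_A00pm_012_s1 t 72 60 3 = true := ex3_b t1761_A00pm_012_s1 k227_A00pm_012_s1

theorem t1763_A00pm_012_s1 : ∃ t, chk3 f_A00pm_012_s1 t 288 240 2 = true := ex3_c k219_A00pm_012_s1 k220_A00pm_012_s1

theorem t1764_A00pm_012_s1 : ∃ t, chk3 f_A00pm_012_s1 t 288 120 2 = true := ex3_b t1763_A00pm_012_s1 k221_A00pm_012_s1

theorem t1765_A00pm_012_s1 : ∃ t, chk3 f_A00pm_012_s1 t 144 120 2 = true := ex3_a t1764_A00pm_012_s1 k222_A00pm_012_s1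

theorem t1766_A00pm_012_s1 : ∃ t, chk3 f_A00pm_012_s1 t 72 120 2 = true := ex3_a t1765_A00pm_012_s1 k223_A00pm_012_s1

theorem t1767_A00pm_012_s1 : ∃ t, chk3 f_A00pm_012_s1 t 72 60 2 = true := ex3_b t1766_A00pm_012_s1 k224_A00pm_012_s1

theorem t1768_A00pm_012_s1 : ∃ t, chk3 f_A00pm_012_s1 t 72 60 1 = true := ex3_c t1767_A00pm_012_s1 t1762_A00pm_012_s1

theorem t1769_A00pm_012_s1 : ∃ t, chk3 f_A00pm_012_s1 t 36 60 1 = true := ex3_a t1768_A00pm_012_s1 t1760_A00pm_012_s1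

theorem t1770_A00pm_012_s1 : ∃ t, chk3 f_A00pm_012_s1 t 36 30 1 = true := ex3_b t1769_A00pm_012_s1 t1759_A00pm_012_s1

theorem t1771_A00pm_012_s1 : ∃ t, chk3 f_A00pm_012_s1 t 18 30 1 = true := ex3_a t1770_A00pm_012_s1 t1757_A00pm_012_s1

theorem t1772_A00pm_012_s1 : ∃ t, chk3 f_A00pm_012_s1 t 18 15 1 = true := ex3_b t1771_A00pm_012_s1 t1753_A00pm_012_s1

theorem t1773_A00pm_012_s1 : ∃ t, chk3 f_A00pm_012_s1 t 37 59 1 = true := ex3_c k217_A00pm_012_s1 k218_A00pm_012_s1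

theorem t1774_A00pm_012_s1 : ∃ t, chk3 f_A00pm_012_s1 t 149 58 3 = true := ex3_c k214_A00pm_012_s1 k215_A00pm_012_s1

theorem t1775_A00pm_012_s1 : ∃ t, chk3 f_A00pm_012_s1 t 148 117 3 = true := ex3_b k212_A00pm_012_s1 k213_A00pm_012_s1

theorem t1776_A00pm_012_s1 : ∃ t, chk3 f_A00pm_012_s1 t 148 58 3 = true := ex3_b k211_A00pm_012_s1 t1775_A00pm_012_s1

theorem t1777_A00pm_012_s1 : ∃ t, chk3 f_A00pm_012_s1 t 74 58 3 = true := ex3_a t1776_A00pm_012_s1 t1774_A00pm_012_s1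

theorem t1778_A00pm_012_s1 : ∃ t, chk3 f_A00pm_012_s1 t 37 58 3 = true := ex3_a t1777_A00pm_012_s1 k216_A00pm_012_s1

theorem t1779_A00pm_012_s1 : ∃ t, chk3 f_A00pm_012_s1 t 74 58 4 = true := ex3_a k207_A00pm_012_s1 k208_A00pm_012_s1

theorem t1780_A00pm_012_s1 : ∃ t, chk3 f_A00pm_012_s1 t 74 58 2 = true := ex3_c t1779_A00pm_012_s1 k209_A00pm_012_s1

theorem t1781_A00pm_012_s1 : ∃ t, chk3 f_A00pm_012_s1 t 37 58 2 = true := ex3_a t1780_A00pm_012_s1 k210_A00pm_012_s1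

theorem t1782_A00pm_012_s1 : ∃ t, chk3 f_A00pm_012_s1 t 37 58 1 = true := ex3_c t1781_A00pm_012_s1 t1778_A00pm_012_s1

theorem t1783_A00pm_012_s1 : ∃ t, chk3 f_A00pm_012_s1 t 37 29 1 = true := ex3_b t1782_A00pm_012_s1 t1773_A00pm_012_s1

theorem t1784_A00pm_012_s1 : ∃ t, chk3 f_A00pm_012_s1 t 75 115 3 = true := ex3_a k205_A00pm_012_s1 k206_A00pm_012_s1

theorem t1785_A00pm_012_s1 : ∃ t, chk3 f_A00pm_012_s1 t 75 57 3 = true := ex3_b k204_A00pm_012_s1 t1784_A00pm_012_s1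

theorem t1786_A00pm_012_s1 : ∃ t, chk3 f_A00pm_012_s1 t 75 56 3 = true := ex3_c k202_A00pm_012_s1 k203_A00pm_012_s1

theorem t1787_A00pm_012_s1 : ∃ t, chk3 f_A00pm_012_s1 t 75 28 3 = true := ex3_b t1786_A00pm_012_s1 t1785_A00pm_012_s1

theorem t1788_A00pm_012_s1 : ∃ t, chk3 f_A00pm_012_s1 t 74 57 3 = true := ex3_b k200_A00pm_012_s1 k201_A00pm_012_s1

theorem t1789_A00pm_012_s1 : ∃ t, chk3 f_A00pm_012_s1 t 74 28 3 = true := ex3_b k199_A00pm_012_s1 t1788_A00pm_012_s1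

theorem t1790_A00pm_012_s1 : ∃ t, chk3 f_A00pm_012_s1 t 37 28 3 = true := ex3_a t1789_A00pm_012_s1 t1787_A00pm_012_s1

theorem t1791_A00pm_012_s1 : ∃ t, chk3 f_A00pm_012_s1 t 151 115 8 = true := ex3_a k195_A00pm_012_s1 k196_A00pm_012_s1

theorem t1792_A00pm_012_s1 : ∃ t, chk3 f_A00pm_012_s1 t 151 57 8 = true := ex3_b k194_A00pm_012_s1 t1791_A00pm_012_s1

theorem t1793_A00pm_012_s1 : ∃ t, chk3 f_A00pm_012_s1 t 151 57 4 = true := ex3_c t1792_A00pm_012_s1 k197_A00pm_012_s1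

theorem t1794_A00pm_012_s1 : ∃ t, chk3 f_A00pm_012_s1 t 151 57 2 = true := ex3_c t1793_A00pm_012_s1 k198_A00pm_012_s1

theorem t1795_A00pm_012_s1 : ∃ t, chk3 f_A00pm_012_s1 t 150 57 2 = true := ex3_b k192_A00pm_012_s1 k193_A00pm_012_s1

theorem t1796_A00pm_012_s1 : ∃ t, chk3 f_A00pm_012_s1 t 75 57 2 = true := ex3_a t1795_A00pm_012_s1 t1794_A00pm_012_s1

theorem t1797_A00pm_012_s1 : ∃ t, chk3 f_A00pm_012_s1 t 75 28 2 = true := ex3_b k191_A00pm_012_s1 t1796_A00pm_012_s1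

theorem t1798_A00pm_012_s1 : ∃ t, chk3 f_A00pm_012_s1 t 37 28 2 = true := ex3_a k190_A00pm_012_s1 t1797_A00pm_012_s1

theorem t1799_A00pm_012_s1 : ∃ t, chk3 f_A00pm_012_s1 t 37 28 1 = true := ex3_c t1798_A00pm_012_s1 t1790_A00pm_012_s1

theorem t1800_A00pm_012_s1 : ∃ t, chk3 f_A00pm_012_s1 t 37 14 1 = true := ex3_b t1799_A00pm_012_s1 t1783_A00pm_012_s1

theorem t1801_A00pm_012_s1 : ∃ t, chk3 f_A00pm_012_s1 t 73 118 7 = true := ex3_a k187_A00pm_012_s1 k188_A00pm_012_s1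

theorem t1802_A00pm_012_s1 : ∃ t, chk3 f_A00pm_012_s1 t 73 59 7 = true := ex3_b t1801_A00pm_012_s1 k189_A00pm_012_s1

theorem t1803_A00pm_012_s1 : ∃ t, chk3 f_A00pm_012_s1 t 73 118 6 = true := ex3_a k184_A00pm_012_s1 k185_A00pm_012_s1

theorem t1804_A00pm_012_s1 : ∃ t, chk3 f_A00pm_012_s1 t 73 59 6 = true := ex3_b t1803_A00pm_012_s1 k186_A00pm_012_s1

theorem t1805_A00pm_012_s1 : ∃ t, chk3 f_A00pm_012_s1 t 73 59 3 = true := ex3_c t1804_A00pm_012_s1 t1802_A00pm_012_s1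

theorem t1806_A00pm_012_s1 : ∃ t, chk3 f_A00pm_012_s1 t 73 116 3 = true := ex3_a k181_A00pm_012_s1 k182_A00pm_012_s1

theorem t1807_A00pm_012_s1 : ∃ t, chk3 f_A00pm_012_s1 t 73 58 3 = true := ex3_b t1806_A00pm_012_s1 k183_A00pm_012_s1

theorem t1808_A00pm_012_s1 : ∃ t, chk3 f_A00pm_012_s1 t 73 29 3 = true := ex3_b t1807_A00pm_012_s1 t1805_A00pm_012_s1

theorem t1809_A00pm_012_s1 : ∃ t, chk3 f_A00pm_012_s1 t 145 119 3 = true := ex3_c k179_A00pm_012_s1 k180_A00pm_012_s1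

theorem t1810_A00pm_012_s1 : ∃ t, chk3 f_A00pm_012_s1 t 145 59 3 = true := ex3_b k178_A00pm_012_s1 t1809_A00pm_012_s1

theorem t1811_A00pm_012_s1 : ∃ t, chk3 f_A00pm_012_s1 t 144 119 3 = true := ex3_a k176_A00pm_012_s1 k177_A00pm_012_s1

theorem t1812_A00pm_012_s1 : ∃ t, chk3 f_A00pm_012_s1 t 144 59 3 = true := ex3_b k175_A00pm_012_s1 t1811_A00pm_012_s1

theorem t1813_A00pm_012_s1 : ∃ t, chk3 f_A00pm_012_s1 t 72 59 3 = true := ex3_a t1812_A00pm_012_s1 t1810_A00pm_012_s1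

theorem t1814_A00pm_012_s1 : ∃ t, chk3 f_A00pm_012_s1 t 72 58 3 = true := ex3_b k173_A00pm_012_s1 k174_A00pm_012_s1

theorem t1815_A00pm_012_s1 : ∃ t, chk3 f_A00pm_012_s1 t 72 29 3 = true := ex3_b t1814_A00pm_012_s1 t1813_A00pm_012_s1

theorem t1816_A00pm_012_s1 : ∃ t, chk3 f_A00pm_012_s1 t 36 29 3 = true := ex3_a t1815_A00pm_012_s1 t1808_A00pm_012_s1

theorem t1817_A00pm_012_s1 : ∃ t, chk3 f_A00pm_012_s1 t 147 57 3 = true := ex3_b k171_A00pm_012_s1 k172_A00pm_012_s1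

theorem t1818_A00pm_012_s1 : ∃ t, chk3 f_A00pm_012_s1 t 73 57 3 = true := ex3_a k170_A00pm_012_s1 t1817_A00pm_012_s1

theorem t1819_A00pm_012_s1 : ∃ t, chk3 f_A00pm_012_s1 t 73 28 3 = true := ex3_b k169_A00pm_012_s1 t1818_A00pm_012_s1

theorem t1820_A00pm_012_s1 : ∃ t, chk3 f_A00pm_012_s1 t 36 28 3 = true := ex3_a k168_A00pm_012_s1 t1819_A00pm_012_s1

theorem t1821_A00pm_012_s1 : ∃ t, chk3 f_A00pm_012_s1 t 36 14 3 = true := ex3_b t1820_A00pm_012_s1 t1816_A00pm_012_s1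

theorem t1822_A00pm_012_s1 : ∃ t, chk3 f_A00pm_012_s1 t 73 59 5 = true := ex3_b k166_A00pm_012_s1 k167_A00pm_012_s1

theorem t1823_A00pm_012_s1 : ∃ t, chk3 f_A00pm_012_s1 t 73 59 2 = true := ex3_c k165_A00pm_012_s1 t1822_A00pm_012_s1

theorem t1824_A00pm_012_s1 : ∃ t, chk3 f_A00pm_012_s1 t 73 29 2 = true := ex3_b k164_A00pm_012_s1 t1823_A00pm_012_s1

theorem t1825_A00pm_012_s1 : ∃ t, chk3 f_A00pm_012_s1 t 145 59 2 = true := ex3_c k162_A00pm_012_s1 k163_A00pm_012_s1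

theorem t1826_A00pm_012_s1 : ∃ t, chk3 f_A00pm_012_s1 t 144 119 2 = true := ex3_a k160_A00pm_012_s1 k161_A00pm_012_s1

theorem t1827_A00pm_012_s1 : ∃ t, chk3 f_A00pm_012_s1 t 144 59 2 = true := ex3_b k159_A00pm_012_s1 t1826_A00pm_012_s1

theorem t1828_A00pm_012_s1 : ∃ t, chk3 f_A00pm_012_s1 t 72 59 2 = true := ex3_a t1827_A00pm_012_s1 t1825_A00pm_012_s1

theorem t1829_A00pm_012_s1 : ∃ t, chk3 f_A00pm_012_s1 t 72 29 2 = true := ex3_b k158_A00pm_012_s1 t1828_A00pm_012_s1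

theorem t1830_A00pm_012_s1 : ∃ t, chk3 f_A00pm_012_s1 t 36 29 2 = true := ex3_a t1829_A00pm_012_s1 t1824_A00pm_012_s1

theorem t1831_A00pm_012_s1 : ∃ t, chk3 f_A00pm_012_s1 t 36 14 2 = true := ex3_b k157_A00pm_012_s1 t1830_A00pm_012_s1

theorem t1832_A00pm_012_s1 : ∃ t, chk3 f_A00pm_012_s1 t 36 14 1 = true := ex3_c t1831_A00pm_012_s1 t1821_A00pm_012_s1

theorem t1833_A00pm_012_s1 : ∃ t, chk3 f_A00pm_012_s1 t 18 14 1 = true := ex3_a t1832_A00pm_012_s1 t1800_A00pm_012_s1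

theorem t1834_A00pm_012_s1 : ∃ t, chk3 f_A00pm_012_s1 t 18 7 1 = true := ex3_b t1833_A00pm_012_s1 t1772_A00pm_012_s1

theorem t1835_A00pm_012_s1 : ∃ t, chk3 f_A00pm_012_s1 t 9 7 1 = true := ex3_a t1834_A00pm_012_s1 t1750_A00pm_012_s1

theorem t1836_A00pm_012_s1 : ∃ t, chk3 f_A00pm_012_s1 t 158 108 7 = true := ex3_a k152_A00pm_012_s1 k153_A00pm_012_s1

theorem t1837_A00pm_012_s1 : ∃ t, chk3 f_A00pm_012_s1 t 158 54 7 = true := ex3_b t1836_A00pm_012_s1 k154_A00pm_012_s1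

theorem t1838_A00pm_012_s1 : ∃ t, chk3 f_A00pm_012_s1 t 79 54 7 = true := ex3_a t1837_A00pm_012_s1 k155_A00pm_012_s1

theorem t1839_A00pm_012_s1 : ∃ t, chk3 f_A00pm_012_s1 t 79 27 7 = true := ex3_b t1838_A00pm_012_s1 k156_A00pm_012_s1

theorem t1840_A00pm_012_s1 : ∃ t, chk3 f_A00pm_012_s1 t 157 55 7 = true := ex3_c k150_A00pm_012_s1 k151_A00pm_012_s1

theorem t1841_A00pm_012_s1 : ∃ t, chk3 f_A00pm_012_s1 t 312 222 7 = true := ex3_c k146_A00pm_012_s1 k147_A00pm_012_s1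

theorem t1842_A00pm_012_s1 : ∃ t, chk3 f_A00pm_012_s1 t 312 111 7 = true := ex3_b t1841_A00pm_012_s1 k148_A00pm_012_s1

theorem t1843_A00pm_012_s1 : ∃ t, chk3 f_A00pm_012_s1 t 156 111 7 = true := ex3_a t1842_A00pm_012_s1 k149_A00pm_012_s1

theorem t1844_A00pm_012_s1 : ∃ t, chk3 f_A00pm_012_s1 t 313 110 7 = true := ex3_a k144_A00pm_012_s1 k145_A00pm_012_s1

theorem t1845_A00pm_012_s1 : ∃ t, chk3 f_A00pm_012_s1 t 156 110 7 = true := ex3_a k143_A00pm_012_s1 t1844_A00pm_012_s1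

theorem t1846_A00pm_012_s1 : ∃ t, chk3 f_A00pm_012_s1 t 156 55 7 = true := ex3_b t1845_A00pm_012_s1 t1843_A00pm_012_s1

theorem t1847_A00pm_012_s1 : ∃ t, chk3 f_A00pm_012_s1 t 78 55 7 = true := ex3_a t1846_A00pm_012_s1 t1840_A00pm_012_s1

theorem t1848_A00pm_012_s1 : ∃ t, chk3 f_A00pm_012_s1 t 157 54 7 = true := ex3_a k141_A00pm_012_s1 k142_A00pm_012_s1

theorem t1849_A00pm_012_s1 : ∃ t, chk3 f_A00pm_012_s1 t 78 54 7 = true := ex3_a k140_A00pm_012_s1 t1848_A00pm_012_s1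

theorem t1850_A00pm_012_s1 : ∃ t, chk3 f_A00pm_012_s1 t 78 27 7 = true := ex3_b t1849_A00pm_012_s1 t1847_A00pm_012_s1

theorem t1851_A00pm_012_s1 : ∃ t, chk3 f_A00pm_012_s1 t 39 27 7 = true := ex3_a t1850_A00pm_012_s1 t1839_A00pm_012_s1

theorem t1852_A00pm_012_s1 : ∃ t, chk3 f_A00pm_012_s1 t 155 223 15 = true := ex3_b k138_A00pm_012_s1 k139_A00pm_012_s1

theorem t1853_A00pm_012_s1 : ∃ t, chk3 f_A00pm_012_s1 t 77 223 15 = true := ex3_a k137_A00pm_012_s1 t1852_A00pm_012_s1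

theorem t1854_A00pm_012_s1 : ∃ t, chk3 f_A00pm_012_s1 t 77 111 15 = true := ex3_b k136_A00pm_012_s1 t1853_A00pm_012_s1

theorem t1855_A00pm_012_s1 : ∃ t, chk3 f_A00pm_012_s1 t 77 55 15 = true := ex3_b k135_A00pm_012_s1 t1854_A00pm_012_s1

theorem t1856_A00pm_012_s1 : ∃ t, chk3 f_A00pm_012_s1 t 77 55 7 = true := ex3_c k134_A00pm_012_s1 t1855_A00pm_012_s1

theorem t1857_A00pm_012_s1 : ∃ t, chk3 f_A00pm_012_s1 t 77 27 7 = true := ex3_b k133_A00pm_012_s1 t1856_A00pm_012_s1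

theorem t1858_A00pm_012_s1 : ∃ t, chk3 f_A00pm_012_s1 t 38 27 7 = true := ex3_a k132_A00pm_012_s1 t1857_A00pm_012_s1

theorem t1859_A00pm_012_s1 : ∃ t, chk3 f_A00pm_012_s1 t 19 27 7 = true := ex3_a t1858_A00pm_012_s1 t1851_A00pm_012_s1

theorem t1860_A00pm_012_s1 : ∃ t, chk3 f_A00pm_012_s1 t 9 27 7 = true := ex3_a k131_A00pm_012_s1 t1859_A00pm_012_s1

theorem t1861_A00pm_012_s1 : ∃ t, chk3 f_A00pm_012_s1 t 159 107 7 = true := ex3_a k129_A00pm_012_s1 k130_A00pm_012_s1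

theorem t1862_A00pm_012_s1 : ∃ t, chk3 f_A00pm_012_s1 t 79 107 7 = true := ex3_a k128_A00pm_012_s1 t1861_A00pm_012_s1

theorem t1863_A00pm_012_s1 : ∃ t, chk3 f_A00pm_012_s1 t 79 53 7 = true := ex3_b k127_A00pm_012_s1 t1862_A00pm_012_s1

theorem t1864_A00pm_012_s1 : ∃ t, chk3 f_A00pm_012_s1 t 79 26 7 = true := ex3_b k126_A00pm_012_s1 t1863_A00pm_012_s1

theorem t1865_A00pm_012_s1 : ∃ t, chk3 f_A00pm_012_s1 t 39 26 7 = true := ex3_a k125_A00pm_012_s1 t1864_A00pm_012_s1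

theorem t1866_A00pm_012_s1 : ∃ t, chk3 f_A00pm_012_s1 t 19 26 7 = true := ex3_a k124_A00pm_012_s1 t1865_A00pm_012_s1

theorem t1867_A00pm_012_s1 : ∃ t, chk3 f_A00pm_012_s1 t 9 26 7 = true := ex3_a k123_A00pm_012_s1 t1866_A00pm_012_s1

theorem t1868_A00pm_012_s1 : ∃ t, chk3 f_A00pm_012_s1 t 9 13 7 = true := ex3_b t1867_A00pm_012_s1 t1860_A00pm_012_s1

theorem t1869_A00pm_012_s1 : ∃ t, chk3 f_A00pm_012_s1 t 78 27 6 = true := ex3_b k120_A00pm_012_s1 k121_A00pm_012_s1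

theorem t1870_A00pm_012_s1 : ∃ t, chk3 f_A00pm_012_s1 t 39 27 6 = true := ex3_a t1869_A00pm_012_s1 k122_A00pm_012_s1

theorem t1871_A00pm_012_s1 : ∃ t, chk3 f_A00pm_012_s1 t 38 27 6 = true := ex3_a k118_A00pm_012_s1 k119_A00pm_012_s1

theorem t1872_A00pm_012_s1 : ∃ t, chk3 f_A00pm_012_s1 t 19 27 6 = true := ex3_a t1871_A00pm_012_s1 t1870_A00pm_012_s1

theorem t1873_A00pm_012_s1 : ∃ t, chk3 f_A00pm_012_s1 t 9 27 6 = true := ex3_a k117_A00pm_012_s1 t1872_A00pm_012_s1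

theorem t1874_A00pm_012_s1 : ∃ t, chk3 f_A00pm_012_s1 t 19 26 6 = true := ex3_a k115_A00pm_012_s1 k116_A00pm_012_s1

theorem t1875_A00pm_012_s1 : ∃ t, chk3 f_A00pm_012_s1 t 9 26 6 = true := ex3_a k114_A00pm_012_s1 t1874_A00pm_012_s1

theorem t1876_A00pm_012_s1 : ∃ t, chk3 f_A00pm_012_s1 t 9 13 6 = true := ex3_b t1875_A00pm_012_s1 t1873_A00pm_012_s1

theorem t1877_A00pm_012_s1 : ∃ t, chk3 f_A00pm_012_s1 t 9 13 3 = true := ex3_c t1876_A00pm_012_s1 t1868_A00pm_012_s1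

theorem t1878_A00pm_012_s1 : ∃ t, chk3 f_A00pm_012_s1 t 9 6 3 = true := ex3_b k113_A00pm_012_s1 t1877_A00pm_012_s1

theorem t1879_A00pm_012_s1 : ∃ t, chk3 f_A00pm_012_s1 t 39 27 5 = true := ex3_a k111_A00pm_012_s1 k112_A00pm_012_s1

theorem t1880_A00pm_012_s1 : ∃ t, chk3 f_A00pm_012_s1 t 38 27 5 = true := ex3_a k109_A00pm_012_s1 k110_A00pm_012_s1

theorem t1881_A00pm_012_s1 : ∃ t, chk3 f_A00pm_012_s1 t 19 27 5 = true := ex3_a t1880_A00pm_012_s1 t1879_A00pm_012_s1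

theorem t1882_A00pm_012_s1 : ∃ t, chk3 f_A00pm_012_s1 t 9 27 5 = true := ex3_a k108_A00pm_012_s1 t1881_A00pm_012_s1

theorem t1883_A00pm_012_s1 : ∃ t, chk3 f_A00pm_012_s1 t 39 26 5 = true := ex3_a k106_A00pm_012_s1 k107_A00pm_012_s1

theorem t1884_A00pm_012_s1 : ∃ t, chk3 f_A00pm_012_s1 t 19 26 5 = true := ex3_a k105_A00pm_012_s1 t1883_A00pm_012_s1

theorem t1885_A00pm_012_s1 : ∃ t, chk3 f_A00pm_012_s1 t 9 26 5 = true := ex3_a k104_A00pm_012_s1 t1884_A00pm_012_s1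

theorem t1886_A00pm_012_s1 : ∃ t, chk3 f_A00pm_012_s1 t 9 13 5 = true := ex3_b t1885_A00pm_012_s1 t1882_A00pm_012_s1

theorem t1887_A00pm_012_s1 : ∃ t, chk3 f_A00pm_012_s1 t 39 27 4 = true := ex3_a k102_A00pm_012_s1 k103_A00pm_012_s1

theorem t1888_A00pm_012_s1 : ∃ t, chk3 f_A00pm_012_s1 t 38 27 4 = true := ex3_a k100_A00pm_012_s1 k101_A00pm_012_s1

theorem t1889_A00pm_012_s1 : ∃ t, chk3 f_A00pm_012_s1 t 19 27 4 = true := ex3_a t1888_A00pm_012_s1 t1887_A00pm_012_s1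

theorem t1890_A00pm_012_s1 : ∃ t, chk3 f_A00pm_012_s1 t 9 27 4 = true := ex3_a k99_A00pm_012_s1 t1889_A00pm_012_s1

theorem t1891_A00pm_012_s1 : ∃ t, chk3 f_A00pm_012_s1 t 78 26 4 = true := ex3_a k96_A00pm_012_s1 k97_A00pm_012_s1

theorem t1892_A00pm_012_s1 : ∃ t, chk3 f_A00pm_012_s1 t 39 26 4 = true := ex3_a t1891_A00pm_012_s1 k98_A00pm_012_s1

theorem t1893_A00pm_012_s1 : ∃ t, chk3 f_A00pm_012_s1 t 19 26 4 = true := ex3_a k95_A00pm_012_s1 t1892_A00pm_012_s1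

theorem t1894_A00pm_012_s1 : ∃ t, chk3 f_A00pm_012_s1 t 9 26 4 = true := ex3_a k94_A00pm_012_s1 t1893_A00pm_012_s1

theorem t1895_A00pm_012_s1 : ∃ t, chk3 f_A00pm_012_s1 t 9 13 4 = true := ex3_b t1894_A00pm_012_s1 t1890_A00pm_012_s1

theorem t1896_A00pm_012_s1 : ∃ t, chk3 f_A00pm_012_s1 t 9 13 2 = true := ex3_c t1895_A00pm_012_s1 t1886_A00pm_012_s1

theorem t1897_A00pm_012_s1 : ∃ t, chk3 f_A00pm_012_s1 t 9 6 2 = true := ex3_b k93_A00pm_012_s1 t1896_A00pm_012_s1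

theorem t1898_A00pm_012_s1 : ∃ t, chk3 f_A00pm_012_s1 t 9 6 1 = true := ex3_c t1897_A00pm_012_s1 t1878_A00pm_012_s1

theorem t1899_A00pm_012_s1 : ∃ t, chk3 f_A00pm_012_s1 t 9 3 1 = true := ex3_b t1898_A00pm_012_s1 t1835_A00pm_012_s1

theorem t1900_A00pm_012_s1 : ∃ t, chk3 f_A00pm_012_s1 t 35 62 3 = true := ex3_a k90_A00pm_012_s1 k91_A00pm_012_s1

theorem t1901_A00pm_012_s1 : ∃ t, chk3 f_A00pm_012_s1 t 35 31 3 = true := ex3_b t1900_A00pm_012_s1 k92_A00pm_012_s1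

theorem t1902_A00pm_012_s1 : ∃ t, chk3 f_A00pm_012_s1 t 71 60 7 = true := ex3_a k87_A00pm_012_s1 k88_A00pm_012_s1

theorem t1903_A00pm_012_s1 : ∃ t, chk3 f_A00pm_012_s1 t 143 120 6 = true := ex3_a k84_A00pm_012_s1 k85_A00pm_012_s1

theorem t1904_A00pm_012_s1 : ∃ t, chk3 f_A00pm_012_s1 t 143 60 6 = true := ex3_b t1903_A00pm_012_s1 k86_A00pm_012_s1

theorem t1905_A00pm_012_s1 : ∃ t, chk3 f_A00pm_012_s1 t 142 60 6 = true := ex3_a k82_A00pm_012_s1 k83_A00pm_012_s1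

theorem t1906_A00pm_012_s1 : ∃ t, chk3 f_A00pm_012_s1 t 71 60 6 = true := ex3_a t1905_A00pm_012_s1 t1904_A00pm_012_s1

theorem t1907_A00pm_012_s1 : ∃ t, chk3 f_A00pm_012_s1 t 71 60 3 = true := ex3_c t1906_A00pm_012_s1 t1902_A00pm_012_s1

theorem t1908_A00pm_012_s1 : ∃ t, chk3 f_A00pm_012_s1 t 71 30 3 = true := ex3_b t1907_A00pm_012_s1 k89_A00pm_012_s1

theorem t1909_A00pm_012_s1 : ∃ t, chk3 f_A00pm_012_s1 t 140 244 3 = true := ex3_c k77_A00pm_012_s1 k78_A00pm_012_s1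

theorem t1910_A00pm_012_s1 : ∃ t, chk3 f_A00pm_012_s1 t 140 122 3 = true := ex3_b t1909_A00pm_012_s1 k79_A00pm_012_s1

theorem t1911_A00pm_012_s1 : ∃ t, chk3 f_A00pm_012_s1 t 140 61 3 = true := ex3_b t1910_A00pm_012_s1 k80_A00pm_012_s1

theorem t1912_A00pm_012_s1 : ∃ t, chk3 f_A00pm_012_s1 t 70 61 3 = true := ex3_a t1911_A00pm_012_s1 k81_A00pm_012_s1

theorem t1913_A00pm_012_s1 : ∃ t, chk3 f_A00pm_012_s1 t 141 121 3 = true := ex3_c k75_A00pm_012_s1 k76_A00pm_012_s1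

theorem t1914_A00pm_012_s1 : ∃ t, chk3 f_A00pm_012_s1 t 141 60 3 = true := ex3_b k74_A00pm_012_s1 t1913_A00pm_012_s1

theorem t1915_A00pm_012_s1 : ∃ t, chk3 f_A00pm_012_s1 t 70 60 3 = true := ex3_a k73_A00pm_012_s1 t1914_A00pm_012_s1

theorem t1916_A00pm_012_s1 : ∃ t, chk3 f_A00pm_012_s1 t 70 30 3 = true := ex3_b t1915_A00pm_012_s1 t1912_A00pm_012_s1

theorem t1917_A00pm_012_s1 : ∃ t, chk3 f_A00pm_012_s1 t 35 30 3 = true := ex3_a t1916_A00pm_012_s1 t1908_A00pm_012_s1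

theorem t1918_A00pm_012_s1 : ∃ t, chk3 f_A00pm_012_s1 t 35 15 3 = true := ex3_b t1917_A00pm_012_s1 t1901_A00pm_012_s1

theorem t1919_A00pm_012_s1 : ∃ t, chk3 f_A00pm_012_s1 t 71 59 3 = true := ex3_b k71_A00pm_012_s1 k72_A00pm_012_s1

theorem t1920_A00pm_012_s1 : ∃ t, chk3 f_A00pm_012_s1 t 71 29 3 = true := ex3_b k70_A00pm_012_s1 t1919_A00pm_012_s1

theorem t1921_A00pm_012_s1 : ∃ t, chk3 f_A00pm_012_s1 t 35 29 3 = true := ex3_a k69_A00pm_012_s1 t1920_A00pm_012_s1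

theorem t1922_A00pm_012_s1 : ∃ t, chk3 f_A00pm_012_s1 t 35 14 3 = true := ex3_b k68_A00pm_012_s1 t1921_A00pm_012_s1

theorem t1923_A00pm_012_s1 : ∃ t, chk3 f_A00pm_012_s1 t 35 7 3 = true := ex3_b t1922_A00pm_012_s1 t1918_A00pm_012_s1

theorem t1924_A00pm_012_s1 : ∃ t, chk3 f_A00pm_012_s1 t 68 248 3 = true := ex3_a k62_A00pm_012_s1 k63_A00pm_012_s1

theorem t1925_A00pm_012_s1 : ∃ t, chk3 f_A00pm_012_s1 t 68 124 3 = true := ex3_b t1924_A00pm_012_s1 k64_A00pm_012_s1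

theorem t1926_A00pm_012_s1 : ∃ t, chk3 f_A00pm_012_s1 t 68 62 3 = true := ex3_b t1925_A00pm_012_s1 k65_A00pm_012_s1

theorem t1927_A00pm_012_s1 : ∃ t, chk3 f_A00pm_012_s1 t 34 62 3 = true := ex3_a t1926_A00pm_012_s1 k66_A00pm_012_s1

theorem t1928_A00pm_012_s1 : ∃ t, chk3 f_A00pm_012_s1 t 34 31 3 = true := ex3_b t1927_A00pm_012_s1 k67_A00pm_012_s1

theorem t1929_A00pm_012_s1 : ∃ t, chk3 f_A00pm_012_s1 t 69 123 7 = true := ex3_a k60_A00pm_012_s1 k61_A00pm_012_s1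

theorem t1930_A00pm_012_s1 : ∃ t, chk3 f_A00pm_012_s1 t 69 123 3 = true := ex3_c k59_A00pm_012_s1 t1929_A00pm_012_s1

theorem t1931_A00pm_012_s1 : ∃ t, chk3 f_A00pm_012_s1 t 69 122 7 = true := ex3_b k57_A00pm_012_s1 k58_A00pm_012_s1

theorem t1932_A00pm_012_s1 : ∃ t, chk3 f_A00pm_012_s1 t 69 122 3 = true := ex3_c k56_A00pm_012_s1 t1931_A00pm_012_s1

theorem t1933_A00pm_012_s1 : ∃ t, chk3 f_A00pm_012_s1 t 69 61 3 = true := ex3_b t1932_A00pm_012_s1 t1930_A00pm_012_s1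

theorem t1934_A00pm_012_s1 : ∃ t, chk3 f_A00pm_012_s1 t 69 30 3 = true := ex3_b k55_A00pm_012_s1 t1933_A00pm_012_s1

theorem t1935_A00pm_012_s1 : ∃ t, chk3 f_A00pm_012_s1 t 68 123 7 = true := ex3_b k53_A00pm_012_s1 k54_A00pm_012_s1

theorem t1936_A00pm_012_s1 : ∃ t, chk3 f_A00pm_012_s1 t 68 123 3 = true := ex3_c k52_A00pm_012_s1 t1935_A00pm_012_s1

theorem t1937_A00pm_012_s1 : ∃ t, chk3 f_A00pm_012_s1 t 68 61 3 = true := ex3_b k51_A00pm_012_s1 t1936_A00pm_012_s1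

theorem t1938_A00pm_012_s1 : ∃ t, chk3 f_A00pm_012_s1 t 68 30 3 = true := ex3_b k50_A00pm_012_s1 t1937_A00pm_012_s1

theorem t1939_A00pm_012_s1 : ∃ t, chk3 f_A00pm_012_s1 t 34 30 3 = true := ex3_a t1938_A00pm_012_s1 t1934_A00pm_012_s1

theorem t1940_A00pm_012_s1 : ∃ t, chk3 f_A00pm_012_s1 t 34 15 3 = true := ex3_b t1939_A00pm_012_s1 t1928_A00pm_012_s1

theorem t1941_A00pm_012_s1 : ∃ t, chk3 f_A00pm_012_s1 t 34 7 3 = true := ex3_b k49_A00pm_012_s1 t1940_A00pm_012_s1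

theorem t1942_A00pm_012_s1 : ∃ t, chk3 f_A00pm_012_s1 t 17 7 3 = true := ex3_a t1941_A00pm_012_s1 t1923_A00pm_012_s1

theorem t1943_A00pm_012_s1 : ∃ t, chk3 f_A00pm_012_s1 t 35 62 2 = true := ex3_a k46_A00pm_012_s1 k47_A00pm_012_s1

theorem t1944_A00pm_012_s1 : ∃ t, chk3 f_A00pm_012_s1 t 35 31 2 = true := ex3_b t1943_A00pm_012_s1 k48_A00pm_012_s1

theorem t1945_A00pm_012_s1 : ∃ t, chk3 f_A00pm_012_s1 t 143 120 5 = true := ex3_a k42_A00pm_012_s1 k43_A00pm_012_s1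

theorem t1946_A00pm_012_s1 : ∃ t, chk3 f_A00pm_012_s1 t 143 120 4 = true := ex3_a k40_A00pm_012_s1 k41_A00pm_012_s1

theorem t1947_A00pm_012_s1 : ∃ t, chk3 f_A00pm_012_s1 t 143 120 2 = true := ex3_c t1946_A00pm_012_s1 t1945_A00pm_012_s1

theorem t1948_A00pm_012_s1 : ∃ t, chk3 f_A00pm_012_s1 t 143 60 2 = true := ex3_b t1947_A00pm_012_s1 k44_A00pm_012_s1

theorem t1949_A00pm_012_s1 : ∃ t, chk3 f_A00pm_012_s1 t 142 242 2 = true := ex3_c k37_A00pm_012_s1 k38_A00pm_012_s1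

theorem t1950_A00pm_012_s1 : ∃ t, chk3 f_A00pm_012_s1 t 142 121 2 = true := ex3_b t1949_A00pm_012_s1 k39_A00pm_012_s1

theorem t1951_A00pm_012_s1 : ∃ t, chk3 f_A00pm_012_s1 t 142 120 2 = true := ex3_c k35_A00pm_012_s1 k36_A00pm_012_s1

theorem t1952_A00pm_012_s1 : ∃ t, chk3 f_A00pm_012_s1 t 142 60 2 = true := ex3_b t1951_A00pm_012_s1 t1950_A00pm_012_s1

theorem t1953_A00pm_012_s1 : ∃ t, chk3 f_A00pm_012_s1 t 71 60 2 = true := ex3_a t1952_A00pm_012_s1 t1948_A00pm_012_s1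

theorem t1954_A00pm_012_s1 : ∃ t, chk3 f_A00pm_012_s1 t 71 30 2 = true := ex3_b t1953_A00pm_012_s1 k45_A00pm_012_s1

theorem t1955_A00pm_012_s1 : ∃ t, chk3 f_A00pm_012_s1 t 70 122 2 = true := ex3_a k32_A00pm_012_s1 k33_A00pm_012_s1

theorem t1956_A00pm_012_s1 : ∃ t, chk3 f_A00pm_012_s1 t 70 61 2 = true := ex3_b t1955_A00pm_012_s1 k34_A00pm_012_s1

theorem t1957_A00pm_012_s1 : ∃ t, chk3 f_A00pm_012_s1 t 141 121 2 = true := ex3_c k30_A00pm_012_s1 k31_A00pm_012_s1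

theorem t1958_A00pm_012_s1 : ∃ t, chk3 f_A00pm_012_s1 t 141 60 2 = true := ex3_b k29_A00pm_012_s1 t1957_A00pm_012_s1

theorem t1959_A00pm_012_s1 : ∃ t, chk3 f_A00pm_012_s1 t 70 60 2 = true := ex3_a k28_A00pm_012_s1 t1958_A00pm_012_s1

theorem t1960_A00pm_012_s1 : ∃ t, chk3 f_A00pm_012_s1 t 70 30 2 = true := ex3_b t1959_A00pm_012_s1 t1956_A00pm_012_s1

theorem t1961_A00pm_012_s1 : ∃ t, chk3 f_A00pm_012_s1 t 35 30 2 = true := ex3_a t1960_A00pm_012_s1 t1954_A00pm_012_s1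

theorem t1962_A00pm_012_s1 : ∃ t, chk3 f_A00pm_012_s1 t 35 15 2 = true := ex3_b t1961_A00pm_012_s1 t1944_A00pm_012_s1

theorem t1963_A00pm_012_s1 : ∃ t, chk3 f_A00pm_012_s1 t 71 59 5 = true := ex3_b k26_A00pm_012_s1 k27_A00pm_012_s1

theorem t1964_A00pm_012_s1 : ∃ t, chk3 f_A00pm_012_s1 t 71 29 5 = true := ex3_b k25_A00pm_012_s1 t1963_A00pm_012_s1

theorem t1965_A00pm_012_s1 : ∃ t, chk3 f_A00pm_012_s1 t 71 59 4 = true := ex3_b k23_A00pm_012_s1 k24_A00pm_012_s1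

theorem t1966_A00pm_012_s1 : ∃ t, chk3 f_A00pm_012_s1 t 71 29 4 = true := ex3_b k22_A00pm_012_s1 t1965_A00pm_012_s1

theorem t1967_A00pm_012_s1 : ∃ t, chk3 f_A00pm_012_s1 t 71 29 2 = true := ex3_c t1966_A00pm_012_s1 t1964_A00pm_012_s1

theorem t1968_A00pm_012_s1 : ∃ t, chk3 f_A00pm_012_s1 t 35 29 2 = true := ex3_a k21_A00pm_012_s1 t1967_A00pm_012_s1

theorem t1969_A00pm_012_s1 : ∃ t, chk3 f_A00pm_012_s1 t 35 14 2 = true := ex3_b k20_A00pm_012_s1 t1968_A00pm_012_s1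

theorem t1970_A00pm_012_s1 : ∃ t, chk3 f_A00pm_012_s1 t 35 7 2 = true := ex3_b t1969_A00pm_012_s1 t1962_A00pm_012_s1

theorem t1971_A00pm_012_s1 : ∃ t, chk3 f_A00pm_012_s1 t 69 62 2 = true := ex3_b k17_A00pm_012_s1 k18_A00pm_012_s1

theorem t1972_A00pm_012_s1 : ∃ t, chk3 f_A00pm_012_s1 t 68 124 2 = true := ex3_a k14_A00pm_012_s1 k15_A00pm_012_s1

theorem t1973_A00pm_012_s1 : ∃ t, chk3 f_A00pm_012_s1 t 68 62 2 = true := ex3_b t1972_A00pm_012_s1 k16_A00pm_012_s1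

theorem t1974_A00pm_012_s1 : ∃ t, chk3 f_A00pm_012_s1 t 34 62 2 = true := ex3_a t1973_A00pm_012_s1 t1971_A00pm_012_s1

theorem t1975_A00pm_012_s1 : ∃ t, chk3 f_A00pm_012_s1 t 34 31 2 = true := ex3_b t1974_A00pm_012_s1 k19_A00pm_012_s1

theorem t1976_A00pm_012_s1 : ∃ t, chk3 f_A00pm_012_s1 t 69 61 5 = true := ex3_b k12_A00pm_012_s1 k13_A00pm_012_s1

theorem t1977_A00pm_012_s1 : ∃ t, chk3 f_A00pm_012_s1 t 69 30 5 = true := ex3_b k11_A00pm_012_s1 t1976_A00pm_012_s1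

theorem t1978_A00pm_012_s1 : ∃ t, chk3 f_A00pm_012_s1 t 69 61 4 = true := ex3_a k9_A00pm_012_s1 k10_A00pm_012_s1

theorem t1979_A00pm_012_s1 : ∃ t, chk3 f_A00pm_012_s1 t 69 30 4 = true := ex3_b k8_A00pm_012_s1 t1978_A00pm_012_s1

theorem t1980_A00pm_012_s1 : ∃ t, chk3 f_A00pm_012_s1 t 69 30 2 = true := ex3_c t1979_A00pm_012_s1 t1977_A00pm_012_s1

theorem t1981_A00pm_012_s1 : ∃ t, chk3 f_A00pm_012_s1 t 68 61 4 = true := ex3_b k5_A00pm_012_s1 k6_A00pm_012_s1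

theorem t1982_A00pm_012_s1 : ∃ t, chk3 f_A00pm_012_s1 t 68 30 4 = true := ex3_b k4_A00pm_012_s1 t1981_A00pm_012_s1

theorem t1983_A00pm_012_s1 : ∃ t, chk3 f_A00pm_012_s1 t 68 30 2 = true := ex3_c t1982_A00pm_012_s1 k7_A00pm_012_s1

theorem t1984_A00pm_012_s1 : ∃ t, chk3 f_A00pm_012_s1 t 34 30 2 = true := ex3_a t1983_A00pm_012_s1 t1980_A00pm_012_s1

theorem t1985_A00pm_012_s1 : ∃ t, chk3 f_A00pm_012_s1 t 34 15 2 = true := ex3_b t1984_A00pm_012_s1 t1975_A00pm_012_s1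

theorem t1986_A00pm_012_s1 : ∃ t, chk3 f_A00pm_012_s1 t 34 7 2 = true := ex3_b k3_A00pm_012_s1 t1985_A00pm_012_s1

theorem t1987_A00pm_012_s1 : ∃ t, chk3 f_A00pm_012_s1 t 17 7 2 = true := ex3_a t1986_A00pm_012_s1 t1970_A00pm_012_s1

theorem t1988_A00pm_012_s1 : ∃ t, chk3 f_A00pm_012_s1 t 17 7 1 = true := ex3_c t1987_A00pm_012_s1 t1942_A00pm_012_s1

theorem t1989_A00pm_012_s1 : ∃ t, chk3 f_A00pm_012_s1 t 8 7 1 = true := ex3_a k2_A00pm_012_s1 t1988_A00pm_012_s1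

theorem t1990_A00pm_012_s1 : ∃ t, chk3 f_A00pm_012_s1 t 8 3 1 = true := ex3_b k1_A00pm_012_s1 t1989_A00pm_012_s1

theorem t1991_A00pm_012_s1 : ∃ t, chk3 f_A00pm_012_s1 t 4 3 1 = true := ex3_a t1990_A00pm_012_s1 t1899_A00pm_012_s1

theorem t1992_A00pm_012_s1 : ∃ t, chk3 f_A00pm_012_s1 t 4 1 1 = true := ex3_b k0_A00pm_012_s1 t1991_A00pm_012_s1

theorem t1993_A00pm_012_s1 : ∃ t, chk3 f_A00pm_012_s1 t 2 1 1 = true := ex3_a t1992_A00pm_012_s1 t1682_A00pm_012_s1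

theorem t1994_A00pm_012_s1 : ∃ t, chk3 f_A00pm_012_s1 t 1 1 1 = true := ex3_a t1993_A00pm_012_s1 t999_A00pm_012_s1

theorem c_A00pm_012_s1 : CertFX 0 536870912 536870912 536870912 1046898278 26843546 true true false .pnp 0 1 2
    ndF0q0 ndF0q1 pcF2 cut_A00pm_012_s1 xt_A00pm_012_s1 :=
  certFX2 (fam := true) (s1 := true) (s2 := false) (a := 0) (b := 1) (c := 2) (cn := .pnp) (n1 := ndF0q0) (n2 := ndF0q1) (pc := pcF2) (cut := cut_A00pm_012_s1) (xt := xt_A00pm_012_s1) (P1 := 0) (W1 := 536870912) (P2 := 536870912) (W2 := 536870912) (P3 := 1046898278) (W3 := 26843546)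
    rfl (fun _ => rfl) t1994_A00pm_012_s1

theorem s_A00pm_012_s1 {κ x : ℝ} (hκ : κ * h0 = kenE x) (hx : 39 / 40 ≤ x) (hx' : x < 1)
    (H : CutVA (VFD κ) (DD x) tKF tL pcF (Cut.of [[⟨0, 0, 0, 67108864⟩, ⟨1, 1, 0, 67108864⟩, ⟨2, 1, 0, 67108864⟩, ⟨3, 0, 0, 1233125376⟩]]) 0 1 2 0 0 (sgb true) (sgb false) x) :
    AltVA (VFD κ) (DD x) tKF tL pcF [⟨3, 0, 0, 1449551462⟩] 0 1 2 0 0 (sgb true) (sgb false) x :=
  strip_altVA (d := 1449551462) true rfl hκ (κ0 hκ hx) (x0 hx) hx' (covF00 hx hx') (covF01 hx hx') (x1 hx) (x2 hx') c_A00pm_012_s1 H ((ok hx hx').extA (T := tt) (sideF hx hx') hκ (κ0 hκ hx) rfl rfl (.O 0 true) (.O 1 false) rfl)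

theorem t234_A00pm_112_s1 : ∃ t, chk3 f_A00pm_112_s1 t 2 6 1 = true := ex3_a k230_A00pm_112_s1 k231_A00pm_112_s1

theorem t235_A00pm_112_s1 : ∃ t, chk3 f_A00pm_112_s1 t 2 3 1 = true := ex3_b t234_A00pm_112_s1 k232_A00pm_112_s1

theorem t236_A00pm_112_s1 : ∃ t, chk3 f_A00pm_112_s1 t 1 3 1 = true := ex3_a t235_A00pm_112_s1 k233_A00pm_112_s1

theorem t237_A00pm_112_s1 : ∃ t, chk3 f_A00pm_112_s1 t 11 11 1 = true := ex3_a k227_A00pm_112_s1 k228_A00pm_112_s1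

theorem t238_A00pm_112_s1 : ∃ t, chk3 f_A00pm_112_s1 t 5 11 1 = true := ex3_a k226_A00pm_112_s1 t237_A00pm_112_s1

theorem t239_A00pm_112_s1 : ∃ t, chk3 f_A00pm_112_s1 t 4 11 1 = true := ex3_c k224_A00pm_112_s1 k225_A00pm_112_s1

theorem t240_A00pm_112_s1 : ∃ t, chk3 f_A00pm_112_s1 t 2 11 1 = true := ex3_a t239_A00pm_112_s1 t238_A00pm_112_s1

theorem t241_A00pm_112_s1 : ∃ t, chk3 f_A00pm_112_s1 t 4 21 1 = true := ex3_c k221_A00pm_112_s1 k222_A00pm_112_s1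

theorem t242_A00pm_112_s1 : ∃ t, chk3 f_A00pm_112_s1 t 2 21 1 = true := ex3_a t241_A00pm_112_s1 k223_A00pm_112_s1

theorem t243_A00pm_112_s1 : ∃ t, chk3 f_A00pm_112_s1 t 5 670 1 = true := ex3_b k218_A00pm_112_s1 k219_A00pm_112_s1

theorem t244_A00pm_112_s1 : ∃ t, chk3 f_A00pm_112_s1 t 5 335 1 = true := ex3_b t243_A00pm_112_s1 k220_A00pm_112_s1

theorem t245_A00pm_112_s1 : ∃ t, chk3 f_A00pm_112_s1 t 20 10715 1 = true := ex3_b k213_A00pm_112_s1 k214_A00pm_112_s1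

theorem t246_A00pm_112_s1 : ∃ t, chk3 f_A00pm_112_s1 t 10 10715 1 = true := ex3_a t245_A00pm_112_s1 k215_A00pm_112_s1

theorem t247_A00pm_112_s1 : ∃ t, chk3 f_A00pm_112_s1 t 5 10715 1 = true := ex3_a t246_A00pm_112_s1 k216_A00pm_112_s1

theorem t248_A00pm_112_s1 : ∃ t, chk3 f_A00pm_112_s1 t 20 10714 2 = true := ex3_c k208_A00pm_112_s1 k209_A00pm_112_s1

theorem t249_A00pm_112_s1 : ∃ t, chk3 f_A00pm_112_s1 t 20 10714 1 = true := ex3_c t248_A00pm_112_s1 k210_A00pm_112_s1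

theorem t250_A00pm_112_s1 : ∃ t, chk3 f_A00pm_112_s1 t 10 10714 1 = true := ex3_a t249_A00pm_112_s1 k211_A00pm_112_s1

theorem t251_A00pm_112_s1 : ∃ t, chk3 f_A00pm_112_s1 t 5 10714 1 = true := ex3_a t250_A00pm_112_s1 k212_A00pm_112_s1

theorem t252_A00pm_112_s1 : ∃ t, chk3 f_A00pm_112_s1 t 5 5357 1 = true := ex3_b t251_A00pm_112_s1 t247_A00pm_112_s1

theorem t253_A00pm_112_s1 : ∃ t, chk3 f_A00pm_112_s1 t 20 5356 4 = true := ex3_c k202_A00pm_112_s1 k203_A00pm_112_s1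

theorem t254_A00pm_112_s1 : ∃ t, chk3 f_A00pm_112_s1 t 10 5356 4 = true := ex3_a t253_A00pm_112_s1 k204_A00pm_112_s1

theorem t255_A00pm_112_s1 : ∃ t, chk3 f_A00pm_112_s1 t 10 5356 2 = true := ex3_c t254_A00pm_112_s1 k205_A00pm_112_s1

theorem t256_A00pm_112_s1 : ∃ t, chk3 f_A00pm_112_s1 t 10 5356 1 = true := ex3_c t255_A00pm_112_s1 k206_A00pm_112_s1

theorem t257_A00pm_112_s1 : ∃ t, chk3 f_A00pm_112_s1 t 5 5356 1 = true := ex3_a t256_A00pm_112_s1 k207_A00pm_112_s1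

theorem t258_A00pm_112_s1 : ∃ t, chk3 f_A00pm_112_s1 t 5 2678 1 = true := ex3_b t257_A00pm_112_s1 t252_A00pm_112_s1

theorem t259_A00pm_112_s1 : ∃ t, chk3 f_A00pm_112_s1 t 5 1339 1 = true := ex3_b t258_A00pm_112_s1 k217_A00pm_112_s1

theorem t260_A00pm_112_s1 : ∃ t, chk3 f_A00pm_112_s1 t 20 1338 3 = true := ex3_c k198_A00pm_112_s1 k199_A00pm_112_s1

theorem t261_A00pm_112_s1 : ∃ t, chk3 f_A00pm_112_s1 t 10 1338 3 = true := ex3_a t260_A00pm_112_s1 k200_A00pm_112_s1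

theorem t262_A00pm_112_s1 : ∃ t, chk3 f_A00pm_112_s1 t 20 1338 5 = true := ex3_c k195_A00pm_112_s1 k196_A00pm_112_s1

theorem t263_A00pm_112_s1 : ∃ t, chk3 f_A00pm_112_s1 t 10 1338 5 = true := ex3_a t262_A00pm_112_s1 k197_A00pm_112_s1

theorem t264_A00pm_112_s1 : ∃ t, chk3 f_A00pm_112_s1 t 40 1338 9 = true := ex3_b k191_A00pm_112_s1 k192_A00pm_112_s1

theorem t265_A00pm_112_s1 : ∃ t, chk3 f_A00pm_112_s1 t 20 1338 9 = true := ex3_a t264_A00pm_112_s1 k193_A00pm_112_s1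

theorem t266_A00pm_112_s1 : ∃ t, chk3 f_A00pm_112_s1 t 41 1338 8 = true := ex3_b k189_A00pm_112_s1 k190_A00pm_112_s1

theorem t267_A00pm_112_s1 : ∃ t, chk3 f_A00pm_112_s1 t 40 2677 8 = true := ex3_c k187_A00pm_112_s1 k188_A00pm_112_s1

theorem t268_A00pm_112_s1 : ∃ t, chk3 f_A00pm_112_s1 t 40 1338 8 = true := ex3_b k186_A00pm_112_s1 t267_A00pm_112_s1

theorem t269_A00pm_112_s1 : ∃ t, chk3 f_A00pm_112_s1 t 20 1338 8 = true := ex3_a t268_A00pm_112_s1 t266_A00pm_112_s1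

theorem t270_A00pm_112_s1 : ∃ t, chk3 f_A00pm_112_s1 t 20 1338 4 = true := ex3_c t269_A00pm_112_s1 t265_A00pm_112_s1

theorem t271_A00pm_112_s1 : ∃ t, chk3 f_A00pm_112_s1 t 10 1338 4 = true := ex3_a t270_A00pm_112_s1 k194_A00pm_112_s1

theorem t272_A00pm_112_s1 : ∃ t, chk3 f_A00pm_112_s1 t 10 1338 2 = true := ex3_c t271_A00pm_112_s1 t263_A00pm_112_s1

theorem t273_A00pm_112_s1 : ∃ t, chk3 f_A00pm_112_s1 t 10 1338 1 = true := ex3_c t272_A00pm_112_s1 t261_A00pm_112_s1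

theorem t274_A00pm_112_s1 : ∃ t, chk3 f_A00pm_112_s1 t 5 1338 1 = true := ex3_a t273_A00pm_112_s1 k201_A00pm_112_s1

theorem t275_A00pm_112_s1 : ∃ t, chk3 f_A00pm_112_s1 t 5 669 1 = true := ex3_b t274_A00pm_112_s1 t259_A00pm_112_s1

theorem t276_A00pm_112_s1 : ∃ t, chk3 f_A00pm_112_s1 t 20 668 3 = true := ex3_a k182_A00pm_112_s1 k183_A00pm_112_s1

theorem t277_A00pm_112_s1 : ∃ t, chk3 f_A00pm_112_s1 t 10 668 3 = true := ex3_a t276_A00pm_112_s1 k184_A00pm_112_s1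

theorem t278_A00pm_112_s1 : ∃ t, chk3 f_A00pm_112_s1 t 20 668 5 = true := ex3_a k179_A00pm_112_s1 k180_A00pm_112_s1

theorem t279_A00pm_112_s1 : ∃ t, chk3 f_A00pm_112_s1 t 10 668 5 = true := ex3_a t278_A00pm_112_s1 k181_A00pm_112_s1

theorem t280_A00pm_112_s1 : ∃ t, chk3 f_A00pm_112_s1 t 20 1337 9 = true := ex3_a k176_A00pm_112_s1 k177_A00pm_112_s1

theorem t281_A00pm_112_s1 : ∃ t, chk3 f_A00pm_112_s1 t 20 668 9 = true := ex3_b k175_A00pm_112_s1 t280_A00pm_112_s1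

theorem t282_A00pm_112_s1 : ∃ t, chk3 f_A00pm_112_s1 t 40 1337 8 = true := ex3_a k172_A00pm_112_s1 k173_A00pm_112_s1

theorem t283_A00pm_112_s1 : ∃ t, chk3 f_A00pm_112_s1 t 20 1337 8 = true := ex3_a t282_A00pm_112_s1 k174_A00pm_112_s1

theorem t284_A00pm_112_s1 : ∃ t, chk3 f_A00pm_112_s1 t 20 1336 8 = true := ex3_a k170_A00pm_112_s1 k171_A00pm_112_s1

theorem t285_A00pm_112_s1 : ∃ t, chk3 f_A00pm_112_s1 t 20 668 8 = true := ex3_b t284_A00pm_112_s1 t283_A00pm_112_s1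

theorem t286_A00pm_112_s1 : ∃ t, chk3 f_A00pm_112_s1 t 20 668 4 = true := ex3_c t285_A00pm_112_s1 t281_A00pm_112_s1

theorem t287_A00pm_112_s1 : ∃ t, chk3 f_A00pm_112_s1 t 10 668 4 = true := ex3_a t286_A00pm_112_s1 k178_A00pm_112_s1

theorem t288_A00pm_112_s1 : ∃ t, chk3 f_A00pm_112_s1 t 10 668 2 = true := ex3_c t287_A00pm_112_s1 t279_A00pm_112_s1

theorem t289_A00pm_112_s1 : ∃ t, chk3 f_A00pm_112_s1 t 10 668 1 = true := ex3_c t288_A00pm_112_s1 t277_A00pm_112_s1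

theorem t290_A00pm_112_s1 : ∃ t, chk3 f_A00pm_112_s1 t 5 668 1 = true := ex3_a t289_A00pm_112_s1 k185_A00pm_112_s1

theorem t291_A00pm_112_s1 : ∃ t, chk3 f_A00pm_112_s1 t 5 334 1 = true := ex3_b t290_A00pm_112_s1 t275_A00pm_112_s1

theorem t292_A00pm_112_s1 : ∃ t, chk3 f_A00pm_112_s1 t 5 167 1 = true := ex3_b t291_A00pm_112_s1 t244_A00pm_112_s1

theorem t293_A00pm_112_s1 : ∃ t, chk3 f_A00pm_112_s1 t 20 333 8 = true := ex3_b k163_A00pm_112_s1 k164_A00pm_112_s1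

theorem t294_A00pm_112_s1 : ∃ t, chk3 f_A00pm_112_s1 t 10 333 8 = true := ex3_a t293_A00pm_112_s1 k165_A00pm_112_s1

theorem t295_A00pm_112_s1 : ∃ t, chk3 f_A00pm_112_s1 t 10 333 4 = true := ex3_c t294_A00pm_112_s1 k166_A00pm_112_s1

theorem t296_A00pm_112_s1 : ∃ t, chk3 f_A00pm_112_s1 t 10 166 4 = true := ex3_b k162_A00pm_112_s1 t295_A00pm_112_s1

theorem t297_A00pm_112_s1 : ∃ t, chk3 f_A00pm_112_s1 t 10 166 2 = true := ex3_c t296_A00pm_112_s1 k167_A00pm_112_s1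

theorem t298_A00pm_112_s1 : ∃ t, chk3 f_A00pm_112_s1 t 10 166 1 = true := ex3_c t297_A00pm_112_s1 k168_A00pm_112_s1

theorem t299_A00pm_112_s1 : ∃ t, chk3 f_A00pm_112_s1 t 5 166 1 = true := ex3_a t298_A00pm_112_s1 k169_A00pm_112_s1

theorem t300_A00pm_112_s1 : ∃ t, chk3 f_A00pm_112_s1 t 5 83 1 = true := ex3_b t299_A00pm_112_s1 t292_A00pm_112_s1

theorem t301_A00pm_112_s1 : ∃ t, chk3 f_A00pm_112_s1 t 9 21968106 1 = true := ex3_b k152_A00pm_112_s1 k153_A00pm_112_s1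

theorem t302_A00pm_112_s1 : ∃ t, chk3 f_A00pm_112_s1 t 9 10984053 1 = true := ex3_b t301_A00pm_112_s1 k154_A00pm_112_s1

theorem t303_A00pm_112_s1 : ∃ t, chk3 f_A00pm_112_s1 t 9 5492026 1 = true := ex3_b k151_A00pm_112_s1 t302_A00pm_112_s1

theorem t304_A00pm_112_s1 : ∃ t, chk3 f_A00pm_112_s1 t 9 2746013 1 = true := ex3_b t303_A00pm_112_s1 k155_A00pm_112_s1

theorem t305_A00pm_112_s1 : ∃ t, chk3 f_A00pm_112_s1 t 9 1373006 1 = true := ex3_b k150_A00pm_112_s1 t304_A00pm_112_s1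

theorem t306_A00pm_112_s1 : ∃ t, chk3 f_A00pm_112_s1 t 9 686503 1 = true := ex3_b t305_A00pm_112_s1 k156_A00pm_112_s1

theorem t307_A00pm_112_s1 : ∃ t, chk3 f_A00pm_112_s1 t 9 343251 1 = true := ex3_b k149_A00pm_112_s1 t306_A00pm_112_s1

theorem t308_A00pm_112_s1 : ∃ t, chk3 f_A00pm_112_s1 t 9 171625 1 = true := ex3_b k148_A00pm_112_s1 t307_A00pm_112_s1

theorem t309_A00pm_112_s1 : ∃ t, chk3 f_A00pm_112_s1 t 9 85812 1 = true := ex3_b k147_A00pm_112_s1 t308_A00pm_112_s1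

theorem t310_A00pm_112_s1 : ∃ t, chk3 f_A00pm_112_s1 t 9 42906 1 = true := ex3_b t309_A00pm_112_s1 k157_A00pm_112_s1

theorem t311_A00pm_112_s1 : ∃ t, chk3 f_A00pm_112_s1 t 9 21453 1 = true := ex3_b t310_A00pm_112_s1 k158_A00pm_112_s1

theorem t312_A00pm_112_s1 : ∃ t, chk3 f_A00pm_112_s1 t 9 21452 1 = true := ex3_a k145_A00pm_112_s1 k146_A00pm_112_s1

theorem t313_A00pm_112_s1 : ∃ t, chk3 f_A00pm_112_s1 t 9 10726 1 = true := ex3_b t312_A00pm_112_s1 t311_A00pm_112_s1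

theorem t314_A00pm_112_s1 : ∃ t, chk3 f_A00pm_112_s1 t 9 5363 1 = true := ex3_b t313_A00pm_112_s1 k159_A00pm_112_s1

theorem t315_A00pm_112_s1 : ∃ t, chk3 f_A00pm_112_s1 t 9 5362 1 = true := ex3_b k143_A00pm_112_s1 k144_A00pm_112_s1

theorem t316_A00pm_112_s1 : ∃ t, chk3 f_A00pm_112_s1 t 9 2681 1 = true := ex3_b t315_A00pm_112_s1 t314_A00pm_112_s1

theorem t317_A00pm_112_s1 : ∃ t, chk3 f_A00pm_112_s1 t 76 5361 16 = true := ex3_a k135_A00pm_112_s1 k136_A00pm_112_s1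

theorem t318_A00pm_112_s1 : ∃ t, chk3 f_A00pm_112_s1 t 76 5361 8 = true := ex3_c t317_A00pm_112_s1 k137_A00pm_112_s1

theorem t319_A00pm_112_s1 : ∃ t, chk3 f_A00pm_112_s1 t 38 5361 8 = true := ex3_a t318_A00pm_112_s1 k138_A00pm_112_s1

theorem t320_A00pm_112_s1 : ∃ t, chk3 f_A00pm_112_s1 t 38 5361 4 = true := ex3_c t319_A00pm_112_s1 k139_A00pm_112_s1

theorem t321_A00pm_112_s1 : ∃ t, chk3 f_A00pm_112_s1 t 19 5361 4 = true := ex3_a t320_A00pm_112_s1 k140_A00pm_112_s1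

theorem t322_A00pm_112_s1 : ∃ t, chk3 f_A00pm_112_s1 t 9 5361 4 = true := ex3_a k134_A00pm_112_s1 t321_A00pm_112_s1

theorem t323_A00pm_112_s1 : ∃ t, chk3 f_A00pm_112_s1 t 9 5361 2 = true := ex3_c t322_A00pm_112_s1 k141_A00pm_112_s1

theorem t324_A00pm_112_s1 : ∃ t, chk3 f_A00pm_112_s1 t 9 5361 1 = true := ex3_c t323_A00pm_112_s1 k142_A00pm_112_s1

theorem t325_A00pm_112_s1 : ∃ t, chk3 f_A00pm_112_s1 t 154 5360 8 = true := ex3_b k127_A00pm_112_s1 k128_A00pm_112_s1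

theorem t326_A00pm_112_s1 : ∃ t, chk3 f_A00pm_112_s1 t 77 5360 8 = true := ex3_a t325_A00pm_112_s1 k129_A00pm_112_s1

theorem t327_A00pm_112_s1 : ∃ t, chk3 f_A00pm_112_s1 t 38 5360 8 = true := ex3_a k126_A00pm_112_s1 t326_A00pm_112_s1

theorem t328_A00pm_112_s1 : ∃ t, chk3 f_A00pm_112_s1 t 38 5360 4 = true := ex3_c t327_A00pm_112_s1 k130_A00pm_112_s1

theorem t329_A00pm_112_s1 : ∃ t, chk3 f_A00pm_112_s1 t 19 5360 4 = true := ex3_a t328_A00pm_112_s1 k131_A00pm_112_s1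

theorem t330_A00pm_112_s1 : ∃ t, chk3 f_A00pm_112_s1 t 9 5360 4 = true := ex3_a k125_A00pm_112_s1 t329_A00pm_112_s1

theorem t331_A00pm_112_s1 : ∃ t, chk3 f_A00pm_112_s1 t 9 5360 2 = true := ex3_c t330_A00pm_112_s1 k132_A00pm_112_s1

theorem t332_A00pm_112_s1 : ∃ t, chk3 f_A00pm_112_s1 t 9 5360 1 = true := ex3_c t331_A00pm_112_s1 k133_A00pm_112_s1

theorem t333_A00pm_112_s1 : ∃ t, chk3 f_A00pm_112_s1 t 9 2680 1 = true := ex3_b t332_A00pm_112_s1 t324_A00pm_112_s1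

theorem t334_A00pm_112_s1 : ∃ t, chk3 f_A00pm_112_s1 t 9 1340 1 = true := ex3_b t333_A00pm_112_s1 t316_A00pm_112_s1

theorem t335_A00pm_112_s1 : ∃ t, chk3 f_A00pm_112_s1 t 9 670 1 = true := ex3_b t334_A00pm_112_s1 k160_A00pm_112_s1

theorem t336_A00pm_112_s1 : ∃ t, chk3 f_A00pm_112_s1 t 9 335 1 = true := ex3_b t335_A00pm_112_s1 k161_A00pm_112_s1

theorem t337_A00pm_112_s1 : ∃ t, chk3 f_A00pm_112_s1 t 19 2679 9 = true := ex3_a k121_A00pm_112_s1 k122_A00pm_112_s1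

theorem t338_A00pm_112_s1 : ∃ t, chk3 f_A00pm_112_s1 t 78 2679 8 = true := ex3_b k118_A00pm_112_s1 k119_A00pm_112_s1

theorem t339_A00pm_112_s1 : ∃ t, chk3 f_A00pm_112_s1 t 39 2679 8 = true := ex3_a t338_A00pm_112_s1 k120_A00pm_112_s1

theorem t340_A00pm_112_s1 : ∃ t, chk3 f_A00pm_112_s1 t 155 2679 8 = true := ex3_a k116_A00pm_112_s1 k117_A00pm_112_s1

theorem t341_A00pm_112_s1 : ∃ t, chk3 f_A00pm_112_s1 t 77 2679 8 = true := ex3_a k115_A00pm_112_s1 t340_A00pm_112_s1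

theorem t342_A00pm_112_s1 : ∃ t, chk3 f_A00pm_112_s1 t 38 2679 8 = true := ex3_a k114_A00pm_112_s1 t341_A00pm_112_s1

theorem t343_A00pm_112_s1 : ∃ t, chk3 f_A00pm_112_s1 t 19 2679 8 = true := ex3_a t342_A00pm_112_s1 t339_A00pm_112_s1

theorem t344_A00pm_112_s1 : ∃ t, chk3 f_A00pm_112_s1 t 19 2679 4 = true := ex3_c t343_A00pm_112_s1 t337_A00pm_112_s1

theorem t345_A00pm_112_s1 : ∃ t, chk3 f_A00pm_112_s1 t 9 2679 4 = true := ex3_a k113_A00pm_112_s1 t344_A00pm_112_s1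

theorem t346_A00pm_112_s1 : ∃ t, chk3 f_A00pm_112_s1 t 9 2679 2 = true := ex3_c t345_A00pm_112_s1 k123_A00pm_112_s1

theorem t347_A00pm_112_s1 : ∃ t, chk3 f_A00pm_112_s1 t 9 2679 1 = true := ex3_c t346_A00pm_112_s1 k124_A00pm_112_s1

theorem t348_A00pm_112_s1 : ∃ t, chk3 f_A00pm_112_s1 t 39 21430 1 = true := ex3_c k110_A00pm_112_s1 k111_A00pm_112_s1

theorem t349_A00pm_112_s1 : ∃ t, chk3 f_A00pm_112_s1 t 19 21430 1 = true := ex3_a k109_A00pm_112_s1 t348_A00pm_112_s1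

theorem t350_A00pm_112_s1 : ∃ t, chk3 f_A00pm_112_s1 t 9 21430 1 = true := ex3_a k108_A00pm_112_s1 t349_A00pm_112_s1

theorem t351_A00pm_112_s1 : ∃ t, chk3 f_A00pm_112_s1 t 9 10715 1 = true := ex3_b t350_A00pm_112_s1 k112_A00pm_112_s1

theorem t352_A00pm_112_s1 : ∃ t, chk3 f_A00pm_112_s1 t 39 10714 2 = true := ex3_a k105_A00pm_112_s1 k106_A00pm_112_s1

theorem t353_A00pm_112_s1 : ∃ t, chk3 f_A00pm_112_s1 t 19 10714 2 = true := ex3_a k104_A00pm_112_s1 t352_A00pm_112_s1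

theorem t354_A00pm_112_s1 : ∃ t, chk3 f_A00pm_112_s1 t 19 10714 1 = true := ex3_c t353_A00pm_112_s1 k107_A00pm_112_s1

theorem t355_A00pm_112_s1 : ∃ t, chk3 f_A00pm_112_s1 t 9 10714 1 = true := ex3_a k103_A00pm_112_s1 t354_A00pm_112_s1

theorem t356_A00pm_112_s1 : ∃ t, chk3 f_A00pm_112_s1 t 9 5357 1 = true := ex3_b t355_A00pm_112_s1 t351_A00pm_112_s1

theorem t357_A00pm_112_s1 : ∃ t, chk3 f_A00pm_112_s1 t 39 5356 4 = true := ex3_a k99_A00pm_112_s1 k100_A00pm_112_s1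

theorem t358_A00pm_112_s1 : ∃ t, chk3 f_A00pm_112_s1 t 19 5356 4 = true := ex3_a k98_A00pm_112_s1 t357_A00pm_112_s1

theorem t359_A00pm_112_s1 : ∃ t, chk3 f_A00pm_112_s1 t 19 5356 2 = true := ex3_c t358_A00pm_112_s1 k101_A00pm_112_s1

theorem t360_A00pm_112_s1 : ∃ t, chk3 f_A00pm_112_s1 t 19 5356 1 = true := ex3_c t359_A00pm_112_s1 k102_A00pm_112_s1

theorem t361_A00pm_112_s1 : ∃ t, chk3 f_A00pm_112_s1 t 9 5356 1 = true := ex3_a k97_A00pm_112_s1 t360_A00pm_112_s1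

theorem t362_A00pm_112_s1 : ∃ t, chk3 f_A00pm_112_s1 t 9 2678 1 = true := ex3_b t361_A00pm_112_s1 t356_A00pm_112_s1

theorem t363_A00pm_112_s1 : ∃ t, chk3 f_A00pm_112_s1 t 9 1339 1 = true := ex3_b t362_A00pm_112_s1 t347_A00pm_112_s1

theorem t364_A00pm_112_s1 : ∃ t, chk3 f_A00pm_112_s1 t 39 2677 8 = true := ex3_a k92_A00pm_112_s1 k93_A00pm_112_s1

theorem t365_A00pm_112_s1 : ∃ t, chk3 f_A00pm_112_s1 t 39 1338 8 = true := ex3_b k91_A00pm_112_s1 t364_A00pm_112_s1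

theorem t366_A00pm_112_s1 : ∃ t, chk3 f_A00pm_112_s1 t 19 1338 8 = true := ex3_a k90_A00pm_112_s1 t365_A00pm_112_s1

theorem t367_A00pm_112_s1 : ∃ t, chk3 f_A00pm_112_s1 t 19 1338 4 = true := ex3_c t366_A00pm_112_s1 k94_A00pm_112_s1

theorem t368_A00pm_112_s1 : ∃ t, chk3 f_A00pm_112_s1 t 19 1338 2 = true := ex3_c t367_A00pm_112_s1 k95_A00pm_112_s1

theorem t369_A00pm_112_s1 : ∃ t, chk3 f_A00pm_112_s1 t 9 1338 2 = true := ex3_a k89_A00pm_112_s1 t368_A00pm_112_s1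

theorem t370_A00pm_112_s1 : ∃ t, chk3 f_A00pm_112_s1 t 9 1338 1 = true := ex3_c t369_A00pm_112_s1 k96_A00pm_112_s1

theorem t371_A00pm_112_s1 : ∃ t, chk3 f_A00pm_112_s1 t 9 669 1 = true := ex3_b t370_A00pm_112_s1 t363_A00pm_112_s1

theorem t372_A00pm_112_s1 : ∃ t, chk3 f_A00pm_112_s1 t 9 334 1 = true := ex3_b k88_A00pm_112_s1 t371_A00pm_112_s1

theorem t373_A00pm_112_s1 : ∃ t, chk3 f_A00pm_112_s1 t 9 167 1 = true := ex3_b t372_A00pm_112_s1 t336_A00pm_112_s1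

theorem t374_A00pm_112_s1 : ∃ t, chk3 f_A00pm_112_s1 t 17 167 3 = true := ex3_c k86_A00pm_112_s1 k87_A00pm_112_s1

theorem t375_A00pm_112_s1 : ∃ t, chk3 f_A00pm_112_s1 t 16 167 7 = true := ex3_a k84_A00pm_112_s1 k85_A00pm_112_s1

theorem t376_A00pm_112_s1 : ∃ t, chk3 f_A00pm_112_s1 t 16 167 6 = true := ex3_a k82_A00pm_112_s1 k83_A00pm_112_s1

theorem t377_A00pm_112_s1 : ∃ t, chk3 f_A00pm_112_s1 t 16 167 3 = true := ex3_c t376_A00pm_112_s1 t375_A00pm_112_s1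

theorem t378_A00pm_112_s1 : ∃ t, chk3 f_A00pm_112_s1 t 8 167 3 = true := ex3_a t377_A00pm_112_s1 t374_A00pm_112_s1

theorem t379_A00pm_112_s1 : ∃ t, chk3 f_A00pm_112_s1 t 34 167 10 = true := ex3_a k78_A00pm_112_s1 k79_A00pm_112_s1

theorem t380_A00pm_112_s1 : ∃ t, chk3 f_A00pm_112_s1 t 34 167 5 = true := ex3_c t379_A00pm_112_s1 k80_A00pm_112_s1

theorem t381_A00pm_112_s1 : ∃ t, chk3 f_A00pm_112_s1 t 17 167 5 = true := ex3_a t380_A00pm_112_s1 k81_A00pm_112_s1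

theorem t382_A00pm_112_s1 : ∃ t, chk3 f_A00pm_112_s1 t 70 167 9 = true := ex3_c k75_A00pm_112_s1 k76_A00pm_112_s1

theorem t383_A00pm_112_s1 : ∃ t, chk3 f_A00pm_112_s1 t 35 167 9 = true := ex3_a t382_A00pm_112_s1 k77_A00pm_112_s1

theorem t384_A00pm_112_s1 : ∃ t, chk3 f_A00pm_112_s1 t 142 670 16 = true := ex3_b k70_A00pm_112_s1 k71_A00pm_112_s1

theorem t385_A00pm_112_s1 : ∃ t, chk3 f_A00pm_112_s1 t 142 335 16 = true := ex3_b t384_A00pm_112_s1 k72_A00pm_112_s1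

theorem t386_A00pm_112_s1 : ∃ t, chk3 f_A00pm_112_s1 t 142 167 16 = true := ex3_b k69_A00pm_112_s1 t385_A00pm_112_s1

theorem t387_A00pm_112_s1 : ∃ t, chk3 f_A00pm_112_s1 t 71 167 16 = true := ex3_a t386_A00pm_112_s1 k73_A00pm_112_s1

theorem t388_A00pm_112_s1 : ∃ t, chk3 f_A00pm_112_s1 t 71 167 8 = true := ex3_c t387_A00pm_112_s1 k74_A00pm_112_s1

theorem t389_A00pm_112_s1 : ∃ t, chk3 f_A00pm_112_s1 t 70 167 17 = true := ex3_a k67_A00pm_112_s1 k68_A00pm_112_s1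

theorem t390_A00pm_112_s1 : ∃ t, chk3 f_A00pm_112_s1 t 141 2680 16 = true := ex3_b k62_A00pm_112_s1 k63_A00pm_112_s1

theorem t391_A00pm_112_s1 : ∃ t, chk3 f_A00pm_112_s1 t 141 1340 16 = true := ex3_b t390_A00pm_112_s1 k64_A00pm_112_s1

theorem t392_A00pm_112_s1 : ∃ t, chk3 f_A00pm_112_s1 t 141 670 16 = true := ex3_b t391_A00pm_112_s1 k65_A00pm_112_s1

theorem t393_A00pm_112_s1 : ∃ t, chk3 f_A00pm_112_s1 t 141 335 16 = true := ex3_b t392_A00pm_112_s1 k66_A00pm_112_s1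

theorem t394_A00pm_112_s1 : ∃ t, chk3 f_A00pm_112_s1 t 141 167 16 = true := ex3_b k61_A00pm_112_s1 t393_A00pm_112_s1

theorem t395_A00pm_112_s1 : ∃ t, chk3 f_A00pm_112_s1 t 140 167 16 = true := ex3_b k59_A00pm_112_s1 k60_A00pm_112_s1

theorem t396_A00pm_112_s1 : ∃ t, chk3 f_A00pm_112_s1 t 70 167 16 = true := ex3_a t395_A00pm_112_s1 t394_A00pm_112_s1

theorem t397_A00pm_112_s1 : ∃ t, chk3 f_A00pm_112_s1 t 70 167 8 = true := ex3_c t396_A00pm_112_s1 t389_A00pm_112_s1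

theorem t398_A00pm_112_s1 : ∃ t, chk3 f_A00pm_112_s1 t 35 167 8 = true := ex3_a t397_A00pm_112_s1 t388_A00pm_112_s1

theorem t399_A00pm_112_s1 : ∃ t, chk3 f_A00pm_112_s1 t 35 167 4 = true := ex3_c t398_A00pm_112_s1 t383_A00pm_112_s1

theorem t400_A00pm_112_s1 : ∃ t, chk3 f_A00pm_112_s1 t 69 167 18 = true := ex3_b k56_A00pm_112_s1 k57_A00pm_112_s1

theorem t401_A00pm_112_s1 : ∃ t, chk3 f_A00pm_112_s1 t 69 167 9 = true := ex3_c t400_A00pm_112_s1 k58_A00pm_112_s1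

theorem t402_A00pm_112_s1 : ∃ t, chk3 f_A00pm_112_s1 t 68 167 9 = true := ex3_c k54_A00pm_112_s1 k55_A00pm_112_s1

theorem t403_A00pm_112_s1 : ∃ t, chk3 f_A00pm_112_s1 t 34 167 9 = true := ex3_a t402_A00pm_112_s1 t401_A00pm_112_s1

theorem t404_A00pm_112_s1 : ∃ t, chk3 f_A00pm_112_s1 t 69 167 17 = true := ex3_a k52_A00pm_112_s1 k53_A00pm_112_s1

theorem t405_A00pm_112_s1 : ∃ t, chk3 f_A00pm_112_s1 t 69 167 16 = true := ex3_a k50_A00pm_112_s1 k51_A00pm_112_s1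

theorem t406_A00pm_112_s1 : ∃ t, chk3 f_A00pm_112_s1 t 69 167 8 = true := ex3_c t405_A00pm_112_s1 t404_A00pm_112_s1

theorem t407_A00pm_112_s1 : ∃ t, chk3 f_A00pm_112_s1 t 68 669 17 = true := ex3_b k47_A00pm_112_s1 k48_A00pm_112_s1

theorem t408_A00pm_112_s1 : ∃ t, chk3 f_A00pm_112_s1 t 68 334 17 = true := ex3_b k46_A00pm_112_s1 t407_A00pm_112_s1

theorem t409_A00pm_112_s1 : ∃ t, chk3 f_A00pm_112_s1 t 68 167 17 = true := ex3_b t408_A00pm_112_s1 k49_A00pm_112_s1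

theorem t410_A00pm_112_s1 : ∃ t, chk3 f_A00pm_112_s1 t 68 167 16 = true := ex3_a k44_A00pm_112_s1 k45_A00pm_112_s1

theorem t411_A00pm_112_s1 : ∃ t, chk3 f_A00pm_112_s1 t 68 167 8 = true := ex3_c t410_A00pm_112_s1 t409_A00pm_112_s1

theorem t412_A00pm_112_s1 : ∃ t, chk3 f_A00pm_112_s1 t 34 167 8 = true := ex3_a t411_A00pm_112_s1 t406_A00pm_112_s1

theorem t413_A00pm_112_s1 : ∃ t, chk3 f_A00pm_112_s1 t 34 167 4 = true := ex3_c t412_A00pm_112_s1 t403_A00pm_112_s1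

theorem t414_A00pm_112_s1 : ∃ t, chk3 f_A00pm_112_s1 t 17 167 4 = true := ex3_a t413_A00pm_112_s1 t399_A00pm_112_s1

theorem t415_A00pm_112_s1 : ∃ t, chk3 f_A00pm_112_s1 t 17 167 2 = true := ex3_c t414_A00pm_112_s1 t381_A00pm_112_s1

theorem t416_A00pm_112_s1 : ∃ t, chk3 f_A00pm_112_s1 t 33 167 10 = true := ex3_a k41_A00pm_112_s1 k42_A00pm_112_s1

theorem t417_A00pm_112_s1 : ∃ t, chk3 f_A00pm_112_s1 t 33 167 5 = true := ex3_c t416_A00pm_112_s1 k43_A00pm_112_s1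

theorem t418_A00pm_112_s1 : ∃ t, chk3 f_A00pm_112_s1 t 32 167 10 = true := ex3_a k38_A00pm_112_s1 k39_A00pm_112_s1

theorem t419_A00pm_112_s1 : ∃ t, chk3 f_A00pm_112_s1 t 32 167 5 = true := ex3_c t418_A00pm_112_s1 k40_A00pm_112_s1

theorem t420_A00pm_112_s1 : ∃ t, chk3 f_A00pm_112_s1 t 16 167 5 = true := ex3_a t419_A00pm_112_s1 t417_A00pm_112_s1

theorem t421_A00pm_112_s1 : ∃ t, chk3 f_A00pm_112_s1 t 67 669 9 = true := ex3_b k35_A00pm_112_s1 k36_A00pm_112_s1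

theorem t422_A00pm_112_s1 : ∃ t, chk3 f_A00pm_112_s1 t 67 334 9 = true := ex3_b k34_A00pm_112_s1 t421_A00pm_112_s1

theorem t423_A00pm_112_s1 : ∃ t, chk3 f_A00pm_112_s1 t 67 167 9 = true := ex3_b t422_A00pm_112_s1 k37_A00pm_112_s1

theorem t424_A00pm_112_s1 : ∃ t, chk3 f_A00pm_112_s1 t 66 167 9 = true := ex3_c k32_A00pm_112_s1 k33_A00pm_112_s1

theorem t425_A00pm_112_s1 : ∃ t, chk3 f_A00pm_112_s1 t 33 167 9 = true := ex3_a t424_A00pm_112_s1 t423_A00pm_112_s1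

theorem t426_A00pm_112_s1 : ∃ t, chk3 f_A00pm_112_s1 t 67 334 17 = true := ex3_b k29_A00pm_112_s1 k30_A00pm_112_s1

theorem t427_A00pm_112_s1 : ∃ t, chk3 f_A00pm_112_s1 t 67 167 17 = true := ex3_b t426_A00pm_112_s1 k31_A00pm_112_s1

theorem t428_A00pm_112_s1 : ∃ t, chk3 f_A00pm_112_s1 t 67 167 16 = true := ex3_a k27_A00pm_112_s1 k28_A00pm_112_s1

theorem t429_A00pm_112_s1 : ∃ t, chk3 f_A00pm_112_s1 t 67 167 8 = true := ex3_c t428_A00pm_112_s1 t427_A00pm_112_s1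

theorem t430_A00pm_112_s1 : ∃ t, chk3 f_A00pm_112_s1 t 66 334 17 = true := ex3_b k24_A00pm_112_s1 k25_A00pm_112_s1

theorem t431_A00pm_112_s1 : ∃ t, chk3 f_A00pm_112_s1 t 66 167 17 = true := ex3_b t430_A00pm_112_s1 k26_A00pm_112_s1

theorem t432_A00pm_112_s1 : ∃ t, chk3 f_A00pm_112_s1 t 66 167 16 = true := ex3_a k22_A00pm_112_s1 k23_A00pm_112_s1

theorem t433_A00pm_112_s1 : ∃ t, chk3 f_A00pm_112_s1 t 66 167 8 = true := ex3_c t432_A00pm_112_s1 t431_A00pm_112_s1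

theorem t434_A00pm_112_s1 : ∃ t, chk3 f_A00pm_112_s1 t 33 167 8 = true := ex3_a t433_A00pm_112_s1 t429_A00pm_112_s1

theorem t435_A00pm_112_s1 : ∃ t, chk3 f_A00pm_112_s1 t 33 167 4 = true := ex3_c t434_A00pm_112_s1 t425_A00pm_112_s1

theorem t436_A00pm_112_s1 : ∃ t, chk3 f_A00pm_112_s1 t 65 334 9 = true := ex3_b k19_A00pm_112_s1 k20_A00pm_112_s1

theorem t437_A00pm_112_s1 : ∃ t, chk3 f_A00pm_112_s1 t 65 167 9 = true := ex3_b t436_A00pm_112_s1 k21_A00pm_112_s1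

theorem t438_A00pm_112_s1 : ∃ t, chk3 f_A00pm_112_s1 t 64 167 9 = true := ex3_c k17_A00pm_112_s1 k18_A00pm_112_s1

theorem t439_A00pm_112_s1 : ∃ t, chk3 f_A00pm_112_s1 t 32 167 9 = true := ex3_a t438_A00pm_112_s1 t437_A00pm_112_s1

theorem t440_A00pm_112_s1 : ∃ t, chk3 f_A00pm_112_s1 t 65 334 16 = true := ex3_b k13_A00pm_112_s1 k14_A00pm_112_s1

theorem t441_A00pm_112_s1 : ∃ t, chk3 f_A00pm_112_s1 t 65 167 16 = true := ex3_b t440_A00pm_112_s1 k15_A00pm_112_s1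

theorem t442_A00pm_112_s1 : ∃ t, chk3 f_A00pm_112_s1 t 65 167 8 = true := ex3_c t441_A00pm_112_s1 k16_A00pm_112_s1

theorem t443_A00pm_112_s1 : ∃ t, chk3 f_A00pm_112_s1 t 64 167 8 = true := ex3_c k11_A00pm_112_s1 k12_A00pm_112_s1

theorem t444_A00pm_112_s1 : ∃ t, chk3 f_A00pm_112_s1 t 32 167 8 = true := ex3_a t443_A00pm_112_s1 t442_A00pm_112_s1

theorem t445_A00pm_112_s1 : ∃ t, chk3 f_A00pm_112_s1 t 32 167 4 = true := ex3_c t444_A00pm_112_s1 t439_A00pm_112_s1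

theorem t446_A00pm_112_s1 : ∃ t, chk3 f_A00pm_112_s1 t 16 167 4 = true := ex3_a t445_A00pm_112_s1 t435_A00pm_112_s1

theorem t447_A00pm_112_s1 : ∃ t, chk3 f_A00pm_112_s1 t 16 167 2 = true := ex3_c t446_A00pm_112_s1 t420_A00pm_112_s1

theorem t448_A00pm_112_s1 : ∃ t, chk3 f_A00pm_112_s1 t 8 167 2 = true := ex3_a t447_A00pm_112_s1 t415_A00pm_112_s1

theorem t449_A00pm_112_s1 : ∃ t, chk3 f_A00pm_112_s1 t 8 167 1 = true := ex3_c t448_A00pm_112_s1 t378_A00pm_112_s1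

theorem t450_A00pm_112_s1 : ∃ t, chk3 f_A00pm_112_s1 t 4 167 1 = true := ex3_a t449_A00pm_112_s1 t373_A00pm_112_s1

theorem t451_A00pm_112_s1 : ∃ t, chk3 f_A00pm_112_s1 t 32 333 4 = true := ex3_a k4_A00pm_112_s1 k5_A00pm_112_s1

theorem t452_A00pm_112_s1 : ∃ t, chk3 f_A00pm_112_s1 t 16 333 4 = true := ex3_a t451_A00pm_112_s1 k6_A00pm_112_s1

theorem t453_A00pm_112_s1 : ∃ t, chk3 f_A00pm_112_s1 t 8 333 4 = true := ex3_a t452_A00pm_112_s1 k7_A00pm_112_s1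

theorem t454_A00pm_112_s1 : ∃ t, chk3 f_A00pm_112_s1 t 8 333 2 = true := ex3_c t453_A00pm_112_s1 k8_A00pm_112_s1

theorem t455_A00pm_112_s1 : ∃ t, chk3 f_A00pm_112_s1 t 8 166 2 = true := ex3_b k3_A00pm_112_s1 t454_A00pm_112_s1

theorem t456_A00pm_112_s1 : ∃ t, chk3 f_A00pm_112_s1 t 8 166 1 = true := ex3_c t455_A00pm_112_s1 k9_A00pm_112_s1

theorem t457_A00pm_112_s1 : ∃ t, chk3 f_A00pm_112_s1 t 4 166 1 = true := ex3_a t456_A00pm_112_s1 k10_A00pm_112_s1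

theorem t458_A00pm_112_s1 : ∃ t, chk3 f_A00pm_112_s1 t 4 83 1 = true := ex3_b t457_A00pm_112_s1 t450_A00pm_112_s1

theorem t459_A00pm_112_s1 : ∃ t, chk3 f_A00pm_112_s1 t 2 83 1 = true := ex3_a t458_A00pm_112_s1 t300_A00pm_112_s1

theorem t460_A00pm_112_s1 : ∃ t, chk3 f_A00pm_112_s1 t 2 41 1 = true := ex3_b k2_A00pm_112_s1 t459_A00pm_112_s1

theorem t461_A00pm_112_s1 : ∃ t, chk3 f_A00pm_112_s1 t 2 20 1 = true := ex3_b k1_A00pm_112_s1 t460_A00pm_112_s1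

theorem t462_A00pm_112_s1 : ∃ t, chk3 f_A00pm_112_s1 t 2 10 1 = true := ex3_b t461_A00pm_112_s1 t242_A00pm_112_s1

theorem t463_A00pm_112_s1 : ∃ t, chk3 f_A00pm_112_s1 t 2 5 1 = true := ex3_b t462_A00pm_112_s1 t240_A00pm_112_s1

theorem t464_A00pm_112_s1 : ∃ t, chk3 f_A00pm_112_s1 t 1 5 1 = true := ex3_a t463_A00pm_112_s1 k229_A00pm_112_s1

theorem t465_A00pm_112_s1 : ∃ t, chk3 f_A00pm_112_s1 t 1 2 1 = true := ex3_b k0_A00pm_112_s1 t464_A00pm_112_s1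

theorem t466_A00pm_112_s1 : ∃ t, chk3 f_A00pm_112_s1 t 1 1 1 = true := ex3_b t465_A00pm_112_s1 t236_A00pm_112_s1

theorem c_A00pm_112_s1 : CertFX 536870912 536870912 536870912 536870912 1046898278 26843546 true true false .dn 1 1 2
    ndF0q1 ndF0q1 pcF2 cut_A00pm_112_s1 xt_A00pm_112_s1 :=
  certFX1 (fam := true) (s1 := true) (s2 := false) (a := 1) (b := 1) (c := 2) (cn := .dn) (n1 := ndF0q1) (n2 := ndF0q1) (pc := pcF2) (cut := cut_A00pm_112_s1) (xt := xt_A00pm_112_s1) (P1 := 536870912) (W1 := 536870912) (P2 := 536870912) (W2 := 536870912) (P3 := 1046898278) (W3 := 26843546)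
    rfl (fun _ => rfl) t466_A00pm_112_s1

theorem s_A00pm_112_s1 {κ x : ℝ} (hκ : κ * h0 = kenE x) (hx : 39 / 40 ≤ x) (hx' : x < 1) :
    AltVA (VFD κ) (DD x) tKF tL pcF [⟨3, 0, 0, 1449551462⟩] 1 1 2 0 0 (sgb true) (sgb false) x :=
  strip_altVA (d := 1449551462) true rfl hκ (κ0 hκ hx) (x0 hx) hx' (covF01 hx hx') (covF01 hx hx') (x1 hx) (x2 hx') c_A00pm_112_s1 cutVA_nil ((ok hx hx').extA (T := tt) (sideF hx hx') hκ (κ0 hκ hx) rfl rfl (.O 1 true) (.O 1 false) rfl)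

theorem t154_A00pm_123_s3 : ∃ t, chk3 f_A00pm_123_s3 t 126 14 6 = true := ex3_b k149_A00pm_123_s3 k150_A00pm_123_s3

theorem t155_A00pm_123_s3 : ∃ t, chk3 f_A00pm_123_s3 t 126 14 3 = true := ex3_c t154_A00pm_123_s3 k151_A00pm_123_s3

theorem t156_A00pm_123_s3 : ∃ t, chk3 f_A00pm_123_s3 t 126 29 5 = true := ex3_c k147_A00pm_123_s3 k148_A00pm_123_s3

theorem t157_A00pm_123_s3 : ∃ t, chk3 f_A00pm_123_s3 t 1013 116 4 = true := ex3_c k142_A00pm_123_s3 k143_A00pm_123_s3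

theorem t158_A00pm_123_s3 : ∃ t, chk3 f_A00pm_123_s3 t 506 116 4 = true := ex3_a k141_A00pm_123_s3 t157_A00pm_123_s3

theorem t159_A00pm_123_s3 : ∃ t, chk3 f_A00pm_123_s3 t 506 58 4 = true := ex3_b t158_A00pm_123_s3 k144_A00pm_123_s3

theorem t160_A00pm_123_s3 : ∃ t, chk3 f_A00pm_123_s3 t 253 58 4 = true := ex3_a t159_A00pm_123_s3 k145_A00pm_123_s3

theorem t161_A00pm_123_s3 : ∃ t, chk3 f_A00pm_123_s3 t 126 58 4 = true := ex3_a k140_A00pm_123_s3 t160_A00pm_123_s3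

theorem t162_A00pm_123_s3 : ∃ t, chk3 f_A00pm_123_s3 t 126 29 4 = true := ex3_b t161_A00pm_123_s3 k146_A00pm_123_s3

theorem t163_A00pm_123_s3 : ∃ t, chk3 f_A00pm_123_s3 t 126 29 2 = true := ex3_c t162_A00pm_123_s3 t156_A00pm_123_s3

theorem t164_A00pm_123_s3 : ∃ t, chk3 f_A00pm_123_s3 t 252 57 5 = true := ex3_a k137_A00pm_123_s3 k138_A00pm_123_s3

theorem t165_A00pm_123_s3 : ∃ t, chk3 f_A00pm_123_s3 t 252 28 5 = true := ex3_b k136_A00pm_123_s3 t164_A00pm_123_s3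

theorem t166_A00pm_123_s3 : ∃ t, chk3 f_A00pm_123_s3 t 505 57 4 = true := ex3_b k134_A00pm_123_s3 k135_A00pm_123_s3

theorem t167_A00pm_123_s3 : ∃ t, chk3 f_A00pm_123_s3 t 504 57 8 = true := ex3_a k131_A00pm_123_s3 k132_A00pm_123_s3

theorem t168_A00pm_123_s3 : ∃ t, chk3 f_A00pm_123_s3 t 504 57 4 = true := ex3_c t167_A00pm_123_s3 k133_A00pm_123_s3

theorem t169_A00pm_123_s3 : ∃ t, chk3 f_A00pm_123_s3 t 252 57 4 = true := ex3_a t168_A00pm_123_s3 t166_A00pm_123_s3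

theorem t170_A00pm_123_s3 : ∃ t, chk3 f_A00pm_123_s3 t 252 28 4 = true := ex3_b k130_A00pm_123_s3 t169_A00pm_123_s3

theorem t171_A00pm_123_s3 : ∃ t, chk3 f_A00pm_123_s3 t 252 28 2 = true := ex3_c t170_A00pm_123_s3 t165_A00pm_123_s3

theorem t172_A00pm_123_s3 : ∃ t, chk3 f_A00pm_123_s3 t 126 28 2 = true := ex3_a t171_A00pm_123_s3 k139_A00pm_123_s3

theorem t173_A00pm_123_s3 : ∃ t, chk3 f_A00pm_123_s3 t 126 14 2 = true := ex3_b t172_A00pm_123_s3 t163_A00pm_123_s3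

theorem t174_A00pm_123_s3 : ∃ t, chk3 f_A00pm_123_s3 t 126 14 1 = true := ex3_c t173_A00pm_123_s3 t155_A00pm_123_s3

theorem t175_A00pm_123_s3 : ∃ t, chk3 f_A00pm_123_s3 t 126 7 1 = true := ex3_b t174_A00pm_123_s3 k152_A00pm_123_s3

theorem t176_A00pm_123_s3 : ∃ t, chk3 f_A00pm_123_s3 t 63 7 1 = true := ex3_a t175_A00pm_123_s3 k153_A00pm_123_s3

theorem t177_A00pm_123_s3 : ∃ t, chk3 f_A00pm_123_s3 t 63 3 1 = true := ex3_b k129_A00pm_123_s3 t176_A00pm_123_s3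

theorem t178_A00pm_123_s3 : ∃ t, chk3 f_A00pm_123_s3 t 125 14 6 = true := ex3_b k125_A00pm_123_s3 k126_A00pm_123_s3

theorem t179_A00pm_123_s3 : ∃ t, chk3 f_A00pm_123_s3 t 125 14 3 = true := ex3_c t178_A00pm_123_s3 k127_A00pm_123_s3

theorem t180_A00pm_123_s3 : ∃ t, chk3 f_A00pm_123_s3 t 124 14 3 = true := ex3_b k123_A00pm_123_s3 k124_A00pm_123_s3

theorem t181_A00pm_123_s3 : ∃ t, chk3 f_A00pm_123_s3 t 62 14 3 = true := ex3_a t180_A00pm_123_s3 t179_A00pm_123_s3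

theorem t182_A00pm_123_s3 : ∃ t, chk3 f_A00pm_123_s3 t 62 7 3 = true := ex3_b t181_A00pm_123_s3 k128_A00pm_123_s3

theorem t183_A00pm_123_s3 : ∃ t, chk3 f_A00pm_123_s3 t 124 54 3 = true := ex3_a k119_A00pm_123_s3 k120_A00pm_123_s3

theorem t184_A00pm_123_s3 : ∃ t, chk3 f_A00pm_123_s3 t 124 27 3 = true := ex3_b t183_A00pm_123_s3 k121_A00pm_123_s3

theorem t185_A00pm_123_s3 : ∃ t, chk3 f_A00pm_123_s3 t 62 27 3 = true := ex3_a t184_A00pm_123_s3 k122_A00pm_123_s3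

theorem t186_A00pm_123_s3 : ∃ t, chk3 f_A00pm_123_s3 t 62 13 3 = true := ex3_b k118_A00pm_123_s3 t185_A00pm_123_s3

theorem t187_A00pm_123_s3 : ∃ t, chk3 f_A00pm_123_s3 t 62 6 3 = true := ex3_b k117_A00pm_123_s3 t186_A00pm_123_s3

theorem t188_A00pm_123_s3 : ∃ t, chk3 f_A00pm_123_s3 t 62 3 3 = true := ex3_b t187_A00pm_123_s3 t182_A00pm_123_s3

theorem t189_A00pm_123_s3 : ∃ t, chk3 f_A00pm_123_s3 t 251 56 5 = true := ex3_b k112_A00pm_123_s3 k113_A00pm_123_s3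

theorem t190_A00pm_123_s3 : ∃ t, chk3 f_A00pm_123_s3 t 251 28 5 = true := ex3_b t189_A00pm_123_s3 k114_A00pm_123_s3

theorem t191_A00pm_123_s3 : ∃ t, chk3 f_A00pm_123_s3 t 251 14 5 = true := ex3_b t190_A00pm_123_s3 k115_A00pm_123_s3

theorem t192_A00pm_123_s3 : ∃ t, chk3 f_A00pm_123_s3 t 125 14 5 = true := ex3_a k111_A00pm_123_s3 t191_A00pm_123_s3

theorem t193_A00pm_123_s3 : ∃ t, chk3 f_A00pm_123_s3 t 503 113 4 = true := ex3_c k107_A00pm_123_s3 k108_A00pm_123_s3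

theorem t194_A00pm_123_s3 : ∃ t, chk3 f_A00pm_123_s3 t 251 113 4 = true := ex3_a k106_A00pm_123_s3 t193_A00pm_123_s3

theorem t195_A00pm_123_s3 : ∃ t, chk3 f_A00pm_123_s3 t 502 112 4 = true := ex3_a k103_A00pm_123_s3 k104_A00pm_123_s3

theorem t196_A00pm_123_s3 : ∃ t, chk3 f_A00pm_123_s3 t 251 112 4 = true := ex3_a t195_A00pm_123_s3 k105_A00pm_123_s3

theorem t197_A00pm_123_s3 : ∃ t, chk3 f_A00pm_123_s3 t 251 56 4 = true := ex3_b t196_A00pm_123_s3 t194_A00pm_123_s3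

theorem t198_A00pm_123_s3 : ∃ t, chk3 f_A00pm_123_s3 t 251 28 4 = true := ex3_b t197_A00pm_123_s3 k109_A00pm_123_s3

theorem t199_A00pm_123_s3 : ∃ t, chk3 f_A00pm_123_s3 t 251 14 4 = true := ex3_b t198_A00pm_123_s3 k110_A00pm_123_s3

theorem t200_A00pm_123_s3 : ∃ t, chk3 f_A00pm_123_s3 t 250 14 9 = true := ex3_b k101_A00pm_123_s3 k102_A00pm_123_s3

theorem t201_A00pm_123_s3 : ∃ t, chk3 f_A00pm_123_s3 t 250 14 4 = true := ex3_c k100_A00pm_123_s3 t200_A00pm_123_s3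

theorem t202_A00pm_123_s3 : ∃ t, chk3 f_A00pm_123_s3 t 125 14 4 = true := ex3_a t201_A00pm_123_s3 t199_A00pm_123_s3

theorem t203_A00pm_123_s3 : ∃ t, chk3 f_A00pm_123_s3 t 125 14 2 = true := ex3_c t202_A00pm_123_s3 t192_A00pm_123_s3

theorem t204_A00pm_123_s3 : ∃ t, chk3 f_A00pm_123_s3 t 124 14 4 = true := ex3_a k97_A00pm_123_s3 k98_A00pm_123_s3

theorem t205_A00pm_123_s3 : ∃ t, chk3 f_A00pm_123_s3 t 124 14 2 = true := ex3_c t204_A00pm_123_s3 k99_A00pm_123_s3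

theorem t206_A00pm_123_s3 : ∃ t, chk3 f_A00pm_123_s3 t 62 14 2 = true := ex3_a t205_A00pm_123_s3 t203_A00pm_123_s3

theorem t207_A00pm_123_s3 : ∃ t, chk3 f_A00pm_123_s3 t 62 7 2 = true := ex3_b t206_A00pm_123_s3 k116_A00pm_123_s3

theorem t208_A00pm_123_s3 : ∃ t, chk3 f_A00pm_123_s3 t 250 55 4 = true := ex3_a k93_A00pm_123_s3 k94_A00pm_123_s3

theorem t209_A00pm_123_s3 : ∃ t, chk3 f_A00pm_123_s3 t 250 55 2 = true := ex3_c t208_A00pm_123_s3 k95_A00pm_123_s3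

theorem t210_A00pm_123_s3 : ∃ t, chk3 f_A00pm_123_s3 t 250 27 2 = true := ex3_b k92_A00pm_123_s3 t209_A00pm_123_s3

theorem t211_A00pm_123_s3 : ∃ t, chk3 f_A00pm_123_s3 t 125 27 2 = true := ex3_a t210_A00pm_123_s3 k96_A00pm_123_s3

theorem t212_A00pm_123_s3 : ∃ t, chk3 f_A00pm_123_s3 t 124 55 2 = true := ex3_c k90_A00pm_123_s3 k91_A00pm_123_s3

theorem t213_A00pm_123_s3 : ∃ t, chk3 f_A00pm_123_s3 t 124 54 2 = true := ex3_a k88_A00pm_123_s3 k89_A00pm_123_s3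

theorem t214_A00pm_123_s3 : ∃ t, chk3 f_A00pm_123_s3 t 124 27 2 = true := ex3_b t213_A00pm_123_s3 t212_A00pm_123_s3

theorem t215_A00pm_123_s3 : ∃ t, chk3 f_A00pm_123_s3 t 62 27 2 = true := ex3_a t214_A00pm_123_s3 t211_A00pm_123_s3

theorem t216_A00pm_123_s3 : ∃ t, chk3 f_A00pm_123_s3 t 62 13 2 = true := ex3_b k87_A00pm_123_s3 t215_A00pm_123_s3

theorem t217_A00pm_123_s3 : ∃ t, chk3 f_A00pm_123_s3 t 62 6 2 = true := ex3_b k86_A00pm_123_s3 t216_A00pm_123_s3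

theorem t218_A00pm_123_s3 : ∃ t, chk3 f_A00pm_123_s3 t 62 3 2 = true := ex3_b t217_A00pm_123_s3 t207_A00pm_123_s3

theorem t219_A00pm_123_s3 : ∃ t, chk3 f_A00pm_123_s3 t 62 3 1 = true := ex3_c t218_A00pm_123_s3 t188_A00pm_123_s3

theorem t220_A00pm_123_s3 : ∃ t, chk3 f_A00pm_123_s3 t 31 3 1 = true := ex3_a t219_A00pm_123_s3 t177_A00pm_123_s3

theorem t221_A00pm_123_s3 : ∃ t, chk3 f_A00pm_123_s3 t 30 15 1 = true := ex3_b k84_A00pm_123_s3 k85_A00pm_123_s3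

theorem t222_A00pm_123_s3 : ∃ t, chk3 f_A00pm_123_s3 t 61 28 1 = true := ex3_c k81_A00pm_123_s3 k82_A00pm_123_s3

theorem t223_A00pm_123_s3 : ∃ t, chk3 f_A00pm_123_s3 t 61 14 1 = true := ex3_b t222_A00pm_123_s3 k83_A00pm_123_s3

theorem t224_A00pm_123_s3 : ∃ t, chk3 f_A00pm_123_s3 t 60 56 1 = true := ex3_c k77_A00pm_123_s3 k78_A00pm_123_s3

theorem t225_A00pm_123_s3 : ∃ t, chk3 f_A00pm_123_s3 t 60 28 1 = true := ex3_b t224_A00pm_123_s3 k79_A00pm_123_s3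

theorem t226_A00pm_123_s3 : ∃ t, chk3 f_A00pm_123_s3 t 60 14 1 = true := ex3_b t225_A00pm_123_s3 k80_A00pm_123_s3

theorem t227_A00pm_123_s3 : ∃ t, chk3 f_A00pm_123_s3 t 30 14 1 = true := ex3_a t226_A00pm_123_s3 t223_A00pm_123_s3

theorem t228_A00pm_123_s3 : ∃ t, chk3 f_A00pm_123_s3 t 30 7 1 = true := ex3_b t227_A00pm_123_s3 t221_A00pm_123_s3

theorem t229_A00pm_123_s3 : ∃ t, chk3 f_A00pm_123_s3 t 61 27 3 = true := ex3_a k75_A00pm_123_s3 k76_A00pm_123_s3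

theorem t230_A00pm_123_s3 : ∃ t, chk3 f_A00pm_123_s3 t 30 27 3 = true := ex3_a k74_A00pm_123_s3 t229_A00pm_123_s3

theorem t231_A00pm_123_s3 : ∃ t, chk3 f_A00pm_123_s3 t 247 26 7 = true := ex3_a k72_A00pm_123_s3 k73_A00pm_123_s3

theorem t232_A00pm_123_s3 : ∃ t, chk3 f_A00pm_123_s3 t 247 26 6 = true := ex3_b k70_A00pm_123_s3 k71_A00pm_123_s3

theorem t233_A00pm_123_s3 : ∃ t, chk3 f_A00pm_123_s3 t 247 26 3 = true := ex3_c t232_A00pm_123_s3 t231_A00pm_123_s3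

theorem t234_A00pm_123_s3 : ∃ t, chk3 f_A00pm_123_s3 t 123 26 3 = true := ex3_a k69_A00pm_123_s3 t233_A00pm_123_s3

theorem t235_A00pm_123_s3 : ∃ t, chk3 f_A00pm_123_s3 t 61 26 3 = true := ex3_a k68_A00pm_123_s3 t234_A00pm_123_s3

theorem t236_A00pm_123_s3 : ∃ t, chk3 f_A00pm_123_s3 t 30 26 3 = true := ex3_a k67_A00pm_123_s3 t235_A00pm_123_s3

theorem t237_A00pm_123_s3 : ∃ t, chk3 f_A00pm_123_s3 t 30 13 3 = true := ex3_b t236_A00pm_123_s3 t230_A00pm_123_s3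

theorem t238_A00pm_123_s3 : ∃ t, chk3 f_A00pm_123_s3 t 30 6 3 = true := ex3_b k66_A00pm_123_s3 t237_A00pm_123_s3

theorem t239_A00pm_123_s3 : ∃ t, chk3 f_A00pm_123_s3 t 30 27 2 = true := ex3_a k64_A00pm_123_s3 k65_A00pm_123_s3

theorem t240_A00pm_123_s3 : ∃ t, chk3 f_A00pm_123_s3 t 123 26 5 = true := ex3_b k62_A00pm_123_s3 k63_A00pm_123_s3

theorem t241_A00pm_123_s3 : ∃ t, chk3 f_A00pm_123_s3 t 123 26 2 = true := ex3_c k61_A00pm_123_s3 t240_A00pm_123_s3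

theorem t242_A00pm_123_s3 : ∃ t, chk3 f_A00pm_123_s3 t 245 52 2 = true := ex3_c k58_A00pm_123_s3 k59_A00pm_123_s3

theorem t243_A00pm_123_s3 : ∃ t, chk3 f_A00pm_123_s3 t 122 52 2 = true := ex3_a k57_A00pm_123_s3 t242_A00pm_123_s3

theorem t244_A00pm_123_s3 : ∃ t, chk3 f_A00pm_123_s3 t 122 26 2 = true := ex3_b t243_A00pm_123_s3 k60_A00pm_123_s3

theorem t245_A00pm_123_s3 : ∃ t, chk3 f_A00pm_123_s3 t 61 26 2 = true := ex3_a t244_A00pm_123_s3 t241_A00pm_123_s3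

theorem t246_A00pm_123_s3 : ∃ t, chk3 f_A00pm_123_s3 t 30 26 2 = true := ex3_a k56_A00pm_123_s3 t245_A00pm_123_s3

theorem t247_A00pm_123_s3 : ∃ t, chk3 f_A00pm_123_s3 t 30 13 2 = true := ex3_b t246_A00pm_123_s3 t239_A00pm_123_s3

theorem t248_A00pm_123_s3 : ∃ t, chk3 f_A00pm_123_s3 t 30 12 2 = true := ex3_a k54_A00pm_123_s3 k55_A00pm_123_s3

theorem t249_A00pm_123_s3 : ∃ t, chk3 f_A00pm_123_s3 t 30 6 2 = true := ex3_b t248_A00pm_123_s3 t247_A00pm_123_s3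

theorem t250_A00pm_123_s3 : ∃ t, chk3 f_A00pm_123_s3 t 30 6 1 = true := ex3_c t249_A00pm_123_s3 t238_A00pm_123_s3

theorem t251_A00pm_123_s3 : ∃ t, chk3 f_A00pm_123_s3 t 30 3 1 = true := ex3_b t250_A00pm_123_s3 t228_A00pm_123_s3

theorem t252_A00pm_123_s3 : ∃ t, chk3 f_A00pm_123_s3 t 15 3 1 = true := ex3_a t251_A00pm_123_s3 t220_A00pm_123_s3

theorem t253_A00pm_123_s3 : ∃ t, chk3 f_A00pm_123_s3 t 15 1 1 = true := ex3_b k53_A00pm_123_s3 t252_A00pm_123_s3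

theorem t254_A00pm_123_s3 : ∃ t, chk3 f_A00pm_123_s3 t 14 15 1 = true := ex3_a k51_A00pm_123_s3 k52_A00pm_123_s3

theorem t255_A00pm_123_s3 : ∃ t, chk3 f_A00pm_123_s3 t 14 14 1 = true := ex3_a k49_A00pm_123_s3 k50_A00pm_123_s3

theorem t256_A00pm_123_s3 : ∃ t, chk3 f_A00pm_123_s3 t 14 7 1 = true := ex3_b t255_A00pm_123_s3 t254_A00pm_123_s3

theorem t257_A00pm_123_s3 : ∃ t, chk3 f_A00pm_123_s3 t 59 27 1 = true := ex3_a k47_A00pm_123_s3 k48_A00pm_123_s3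

theorem t258_A00pm_123_s3 : ∃ t, chk3 f_A00pm_123_s3 t 29 27 1 = true := ex3_a k46_A00pm_123_s3 t257_A00pm_123_s3

theorem t259_A00pm_123_s3 : ∃ t, chk3 f_A00pm_123_s3 t 29 13 1 = true := ex3_b k45_A00pm_123_s3 t258_A00pm_123_s3

theorem t260_A00pm_123_s3 : ∃ t, chk3 f_A00pm_123_s3 t 29 12 4 = true := ex3_a k41_A00pm_123_s3 k42_A00pm_123_s3

theorem t261_A00pm_123_s3 : ∃ t, chk3 f_A00pm_123_s3 t 29 12 2 = true := ex3_c t260_A00pm_123_s3 k43_A00pm_123_s3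

theorem t262_A00pm_123_s3 : ∃ t, chk3 f_A00pm_123_s3 t 29 12 1 = true := ex3_c t261_A00pm_123_s3 k44_A00pm_123_s3

theorem t263_A00pm_123_s3 : ∃ t, chk3 f_A00pm_123_s3 t 29 6 1 = true := ex3_b t262_A00pm_123_s3 t259_A00pm_123_s3

theorem t264_A00pm_123_s3 : ∃ t, chk3 f_A00pm_123_s3 t 28 6 2 = true := ex3_b k38_A00pm_123_s3 k39_A00pm_123_s3

theorem t265_A00pm_123_s3 : ∃ t, chk3 f_A00pm_123_s3 t 28 6 1 = true := ex3_c t264_A00pm_123_s3 k40_A00pm_123_s3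

theorem t266_A00pm_123_s3 : ∃ t, chk3 f_A00pm_123_s3 t 14 6 1 = true := ex3_a t265_A00pm_123_s3 t263_A00pm_123_s3

theorem t267_A00pm_123_s3 : ∃ t, chk3 f_A00pm_123_s3 t 14 3 1 = true := ex3_b t266_A00pm_123_s3 t256_A00pm_123_s3

theorem t268_A00pm_123_s3 : ∃ t, chk3 f_A00pm_123_s3 t 28 11 4 = true := ex3_a k33_A00pm_123_s3 k34_A00pm_123_s3

theorem t269_A00pm_123_s3 : ∃ t, chk3 f_A00pm_123_s3 t 28 5 4 = true := ex3_b k32_A00pm_123_s3 t268_A00pm_123_s3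

theorem t270_A00pm_123_s3 : ∃ t, chk3 f_A00pm_123_s3 t 28 5 2 = true := ex3_c t269_A00pm_123_s3 k35_A00pm_123_s3

theorem t271_A00pm_123_s3 : ∃ t, chk3 f_A00pm_123_s3 t 14 5 2 = true := ex3_a t270_A00pm_123_s3 k36_A00pm_123_s3

theorem t272_A00pm_123_s3 : ∃ t, chk3 f_A00pm_123_s3 t 14 5 1 = true := ex3_c t271_A00pm_123_s3 k37_A00pm_123_s3

theorem t273_A00pm_123_s3 : ∃ t, chk3 f_A00pm_123_s3 t 14 2 1 = true := ex3_b k31_A00pm_123_s3 t272_A00pm_123_s3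

theorem t274_A00pm_123_s3 : ∃ t, chk3 f_A00pm_123_s3 t 14 1 1 = true := ex3_b t273_A00pm_123_s3 t267_A00pm_123_s3

theorem t275_A00pm_123_s3 : ∃ t, chk3 f_A00pm_123_s3 t 7 1 1 = true := ex3_a t274_A00pm_123_s3 t253_A00pm_123_s3

theorem t276_A00pm_123_s3 : ∃ t, chk3 f_A00pm_123_s3 t 13 14 1 = true := ex3_c k28_A00pm_123_s3 k29_A00pm_123_s3

theorem t277_A00pm_123_s3 : ∃ t, chk3 f_A00pm_123_s3 t 6 14 1 = true := ex3_a k27_A00pm_123_s3 t276_A00pm_123_s3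

theorem t278_A00pm_123_s3 : ∃ t, chk3 f_A00pm_123_s3 t 6 7 1 = true := ex3_b t277_A00pm_123_s3 k30_A00pm_123_s3

theorem t279_A00pm_123_s3 : ∃ t, chk3 f_A00pm_123_s3 t 13 27 1 = true := ex3_c k25_A00pm_123_s3 k26_A00pm_123_s3

theorem t280_A00pm_123_s3 : ∃ t, chk3 f_A00pm_123_s3 t 13 26 1 = true := ex3_a k23_A00pm_123_s3 k24_A00pm_123_s3

theorem t281_A00pm_123_s3 : ∃ t, chk3 f_A00pm_123_s3 t 13 13 1 = true := ex3_b t280_A00pm_123_s3 t279_A00pm_123_s3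

theorem t282_A00pm_123_s3 : ∃ t, chk3 f_A00pm_123_s3 t 13 12 1 = true := ex3_a k21_A00pm_123_s3 k22_A00pm_123_s3

theorem t283_A00pm_123_s3 : ∃ t, chk3 f_A00pm_123_s3 t 13 6 1 = true := ex3_b t282_A00pm_123_s3 t281_A00pm_123_s3

theorem t284_A00pm_123_s3 : ∃ t, chk3 f_A00pm_123_s3 t 12 12 1 = true := ex3_b k18_A00pm_123_s3 k19_A00pm_123_s3

theorem t285_A00pm_123_s3 : ∃ t, chk3 f_A00pm_123_s3 t 12 6 1 = true := ex3_b t284_A00pm_123_s3 k20_A00pm_123_s3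

theorem t286_A00pm_123_s3 : ∃ t, chk3 f_A00pm_123_s3 t 6 6 1 = true := ex3_a t285_A00pm_123_s3 t283_A00pm_123_s3

theorem t287_A00pm_123_s3 : ∃ t, chk3 f_A00pm_123_s3 t 6 3 1 = true := ex3_b t286_A00pm_123_s3 t278_A00pm_123_s3

theorem t288_A00pm_123_s3 : ∃ t, chk3 f_A00pm_123_s3 t 13 5 3 = true := ex3_a k16_A00pm_123_s3 k17_A00pm_123_s3

theorem t289_A00pm_123_s3 : ∃ t, chk3 f_A00pm_123_s3 t 12 5 3 = true := ex3_b k14_A00pm_123_s3 k15_A00pm_123_s3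

theorem t290_A00pm_123_s3 : ∃ t, chk3 f_A00pm_123_s3 t 6 5 3 = true := ex3_a t289_A00pm_123_s3 t288_A00pm_123_s3

theorem t291_A00pm_123_s3 : ∃ t, chk3 f_A00pm_123_s3 t 13 5 2 = true := ex3_a k12_A00pm_123_s3 k13_A00pm_123_s3

theorem t292_A00pm_123_s3 : ∃ t, chk3 f_A00pm_123_s3 t 6 5 2 = true := ex3_a k11_A00pm_123_s3 t291_A00pm_123_s3

theorem t293_A00pm_123_s3 : ∃ t, chk3 f_A00pm_123_s3 t 6 5 1 = true := ex3_c t292_A00pm_123_s3 t290_A00pm_123_s3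

theorem t294_A00pm_123_s3 : ∃ t, chk3 f_A00pm_123_s3 t 6 4 1 = true := ex3_c k9_A00pm_123_s3 k10_A00pm_123_s3

theorem t295_A00pm_123_s3 : ∃ t, chk3 f_A00pm_123_s3 t 6 2 1 = true := ex3_b t294_A00pm_123_s3 t293_A00pm_123_s3

theorem t296_A00pm_123_s3 : ∃ t, chk3 f_A00pm_123_s3 t 6 1 1 = true := ex3_b t295_A00pm_123_s3 t287_A00pm_123_s3

theorem t297_A00pm_123_s3 : ∃ t, chk3 f_A00pm_123_s3 t 3 1 1 = true := ex3_a t296_A00pm_123_s3 t275_A00pm_123_s3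

theorem t298_A00pm_123_s3 : ∃ t, chk3 f_A00pm_123_s3 t 11 5 1 = true := ex3_b k6_A00pm_123_s3 k7_A00pm_123_s3

theorem t299_A00pm_123_s3 : ∃ t, chk3 f_A00pm_123_s3 t 5 5 1 = true := ex3_a k5_A00pm_123_s3 t298_A00pm_123_s3

theorem t300_A00pm_123_s3 : ∃ t, chk3 f_A00pm_123_s3 t 5 4 3 = true := ex3_c k3_A00pm_123_s3 k4_A00pm_123_s3

theorem t301_A00pm_123_s3 : ∃ t, chk3 f_A00pm_123_s3 t 5 4 2 = true := ex3_c k1_A00pm_123_s3 k2_A00pm_123_s3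

theorem t302_A00pm_123_s3 : ∃ t, chk3 f_A00pm_123_s3 t 5 4 1 = true := ex3_c t301_A00pm_123_s3 t300_A00pm_123_s3

theorem t303_A00pm_123_s3 : ∃ t, chk3 f_A00pm_123_s3 t 5 2 1 = true := ex3_b t302_A00pm_123_s3 t299_A00pm_123_s3

theorem t304_A00pm_123_s3 : ∃ t, chk3 f_A00pm_123_s3 t 2 2 1 = true := ex3_a k0_A00pm_123_s3 t303_A00pm_123_s3

theorem t305_A00pm_123_s3 : ∃ t, chk3 f_A00pm_123_s3 t 2 1 1 = true := ex3_b t304_A00pm_123_s3 k8_A00pm_123_s3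

theorem t306_A00pm_123_s3 : ∃ t, chk3 f_A00pm_123_s3 t 1 1 1 = true := ex3_a t305_A00pm_123_s3 t297_A00pm_123_s3

theorem c_A00pm_123_s3 : CertFX 536870912 536870912 0 536870912 1046898278 26843546 true true false .npn 1 2 3
    ndF0q1 ndF0q2 pcF3 cut_A00pm_123_s3 xt_A00pm_123_s3 :=
  certFX2 (fam := true) (s1 := true) (s2 := false) (a := 1) (b := 2) (c := 3) (cn := .npn) (n1 := ndF0q1) (n2 := ndF0q2) (pc := pcF3) (cut := cut_A00pm_123_s3) (xt := xt_A00pm_123_s3) (P1 := 536870912) (W1 := 536870912) (P2 := 0) (W2 := 536870912) (P3 := 1046898278) (W3 := 26843546)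
    rfl (fun _ => rfl) t306_A00pm_123_s3

theorem s_A00pm_123_s3 {κ x : ℝ} (hκ : κ * h0 = kenE x) (hx : 39 / 40 ≤ x) (hx' : x < 1)
    (H : CutVA (VFD κ) (DD x) tKF tL pcF (Cut.of [[⟨0, 1, 0, 67108864⟩, ⟨1, 1, 0, 67108864⟩, ⟨2, 2, 0, 67108864⟩]]) 1 2 3 0 0 (sgb true) (sgb false) x) :
    AltVA (VFD κ) (DD x) tKF tL pcF [⟨4, 0, 0, 2845415833⟩] 1 2 3 0 0 (sgb true) (sgb false) x :=
  strip_altVA (d := 2845415833) false rfl hκ (κ0 hκ hx) (x0 hx) hx' (covF01 hx hx') (covF02 hx hx') (x1 hx) (x2 hx') c_A00pm_123_s3 H ((ok hx hx').extA (T := tt) (sideF hx hx') hκ (κ0 hκ hx) rfl rfl (.O 1 true) (.O 2 false) (Or.inr rfl))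

theorem t200_B00pp_012_s1 : ∃ t, chk3 f_B00pp_012_s1 t 124 241 4 = true := ex3_c k191_B00pp_012_s1 k192_B00pp_012_s1

theorem t201_B00pp_012_s1 : ∃ t, chk3 f_B00pp_012_s1 t 124 241 2 = true := ex3_c t200_B00pp_012_s1 k193_B00pp_012_s1

theorem t202_B00pp_012_s1 : ∃ t, chk3 f_B00pp_012_s1 t 124 241 1 = true := ex3_c t201_B00pp_012_s1 k194_B00pp_012_s1

theorem t203_B00pp_012_s1 : ∃ t, chk3 f_B00pp_012_s1 t 62 241 1 = true := ex3_a t202_B00pp_012_s1 k195_B00pp_012_s1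

theorem t204_B00pp_012_s1 : ∃ t, chk3 f_B00pp_012_s1 t 124 240 1 = true := ex3_c k188_B00pp_012_s1 k189_B00pp_012_s1

theorem t205_B00pp_012_s1 : ∃ t, chk3 f_B00pp_012_s1 t 62 240 1 = true := ex3_a t204_B00pp_012_s1 k190_B00pp_012_s1

theorem t206_B00pp_012_s1 : ∃ t, chk3 f_B00pp_012_s1 t 62 120 1 = true := ex3_b t205_B00pp_012_s1 t203_B00pp_012_s1

theorem t207_B00pp_012_s1 : ∃ t, chk3 f_B00pp_012_s1 t 62 60 1 = true := ex3_b t206_B00pp_012_s1 k196_B00pp_012_s1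

theorem t208_B00pp_012_s1 : ∃ t, chk3 f_B00pp_012_s1 t 62 30 1 = true := ex3_b t207_B00pp_012_s1 k197_B00pp_012_s1

theorem t209_B00pp_012_s1 : ∃ t, chk3 f_B00pp_012_s1 t 31 30 1 = true := ex3_a t208_B00pp_012_s1 k198_B00pp_012_s1

theorem t210_B00pp_012_s1 : ∃ t, chk3 f_B00pp_012_s1 t 31 15 1 = true := ex3_b t209_B00pp_012_s1 k199_B00pp_012_s1

theorem t211_B00pp_012_s1 : ∃ t, chk3 f_B00pp_012_s1 t 31 29 3 = true := ex3_b k186_B00pp_012_s1 k187_B00pp_012_s1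

theorem t212_B00pp_012_s1 : ∃ t, chk3 f_B00pp_012_s1 t 31 14 3 = true := ex3_b k185_B00pp_012_s1 t211_B00pp_012_s1

theorem t213_B00pp_012_s1 : ∃ t, chk3 f_B00pp_012_s1 t 62 479 2 = true := ex3_b k182_B00pp_012_s1 k183_B00pp_012_s1

theorem t214_B00pp_012_s1 : ∃ t, chk3 f_B00pp_012_s1 t 62 239 2 = true := ex3_b k181_B00pp_012_s1 t213_B00pp_012_s1

theorem t215_B00pp_012_s1 : ∃ t, chk3 f_B00pp_012_s1 t 62 238 2 = true := ex3_a k179_B00pp_012_s1 k180_B00pp_012_s1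

theorem t216_B00pp_012_s1 : ∃ t, chk3 f_B00pp_012_s1 t 62 119 2 = true := ex3_b t215_B00pp_012_s1 t214_B00pp_012_s1

theorem t217_B00pp_012_s1 : ∃ t, chk3 f_B00pp_012_s1 t 62 118 2 = true := ex3_a k177_B00pp_012_s1 k178_B00pp_012_s1

theorem t218_B00pp_012_s1 : ∃ t, chk3 f_B00pp_012_s1 t 62 59 2 = true := ex3_b t217_B00pp_012_s1 t216_B00pp_012_s1

theorem t219_B00pp_012_s1 : ∃ t, chk3 f_B00pp_012_s1 t 62 58 2 = true := ex3_a k175_B00pp_012_s1 k176_B00pp_012_s1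

theorem t220_B00pp_012_s1 : ∃ t, chk3 f_B00pp_012_s1 t 62 29 2 = true := ex3_b t219_B00pp_012_s1 t218_B00pp_012_s1

theorem t221_B00pp_012_s1 : ∃ t, chk3 f_B00pp_012_s1 t 62 28 2 = true := ex3_b k173_B00pp_012_s1 k174_B00pp_012_s1

theorem t222_B00pp_012_s1 : ∃ t, chk3 f_B00pp_012_s1 t 62 14 2 = true := ex3_b t221_B00pp_012_s1 t220_B00pp_012_s1

theorem t223_B00pp_012_s1 : ∃ t, chk3 f_B00pp_012_s1 t 31 14 2 = true := ex3_a t222_B00pp_012_s1 k184_B00pp_012_s1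

theorem t224_B00pp_012_s1 : ∃ t, chk3 f_B00pp_012_s1 t 31 14 1 = true := ex3_c t223_B00pp_012_s1 t212_B00pp_012_s1

theorem t225_B00pp_012_s1 : ∃ t, chk3 f_B00pp_012_s1 t 31 7 1 = true := ex3_b t224_B00pp_012_s1 t210_B00pp_012_s1

theorem t226_B00pp_012_s1 : ∃ t, chk3 f_B00pp_012_s1 t 123 60 3 = true := ex3_b k169_B00pp_012_s1 k170_B00pp_012_s1

theorem t227_B00pp_012_s1 : ∃ t, chk3 f_B00pp_012_s1 t 123 30 3 = true := ex3_b t226_B00pp_012_s1 k171_B00pp_012_s1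

theorem t228_B00pp_012_s1 : ∃ t, chk3 f_B00pp_012_s1 t 123 15 3 = true := ex3_b t227_B00pp_012_s1 k172_B00pp_012_s1

theorem t229_B00pp_012_s1 : ∃ t, chk3 f_B00pp_012_s1 t 61 15 3 = true := ex3_a k168_B00pp_012_s1 t228_B00pp_012_s1

theorem t230_B00pp_012_s1 : ∃ t, chk3 f_B00pp_012_s1 t 122 59 3 = true := ex3_b k165_B00pp_012_s1 k166_B00pp_012_s1

theorem t231_B00pp_012_s1 : ∃ t, chk3 f_B00pp_012_s1 t 61 59 3 = true := ex3_a t230_B00pp_012_s1 k167_B00pp_012_s1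

theorem t232_B00pp_012_s1 : ∃ t, chk3 f_B00pp_012_s1 t 61 58 3 = true := ex3_a k163_B00pp_012_s1 k164_B00pp_012_s1

theorem t233_B00pp_012_s1 : ∃ t, chk3 f_B00pp_012_s1 t 61 29 3 = true := ex3_b t232_B00pp_012_s1 t231_B00pp_012_s1

theorem t234_B00pp_012_s1 : ∃ t, chk3 f_B00pp_012_s1 t 61 14 3 = true := ex3_b k162_B00pp_012_s1 t233_B00pp_012_s1

theorem t235_B00pp_012_s1 : ∃ t, chk3 f_B00pp_012_s1 t 61 7 3 = true := ex3_b t234_B00pp_012_s1 t229_B00pp_012_s1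

theorem t236_B00pp_012_s1 : ∃ t, chk3 f_B00pp_012_s1 t 121 58 3 = true := ex3_c k158_B00pp_012_s1 k159_B00pp_012_s1

theorem t237_B00pp_012_s1 : ∃ t, chk3 f_B00pp_012_s1 t 120 58 3 = true := ex3_c k156_B00pp_012_s1 k157_B00pp_012_s1

theorem t238_B00pp_012_s1 : ∃ t, chk3 f_B00pp_012_s1 t 60 58 3 = true := ex3_a t237_B00pp_012_s1 t236_B00pp_012_s1

theorem t239_B00pp_012_s1 : ∃ t, chk3 f_B00pp_012_s1 t 60 29 3 = true := ex3_b t238_B00pp_012_s1 k160_B00pp_012_s1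

theorem t240_B00pp_012_s1 : ∃ t, chk3 f_B00pp_012_s1 t 60 28 3 = true := ex3_b k154_B00pp_012_s1 k155_B00pp_012_s1

theorem t241_B00pp_012_s1 : ∃ t, chk3 f_B00pp_012_s1 t 60 14 3 = true := ex3_b t240_B00pp_012_s1 t239_B00pp_012_s1

theorem t242_B00pp_012_s1 : ∃ t, chk3 f_B00pp_012_s1 t 60 7 3 = true := ex3_b t241_B00pp_012_s1 k161_B00pp_012_s1

theorem t243_B00pp_012_s1 : ∃ t, chk3 f_B00pp_012_s1 t 30 7 3 = true := ex3_a t242_B00pp_012_s1 t235_B00pp_012_s1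

theorem t244_B00pp_012_s1 : ∃ t, chk3 f_B00pp_012_s1 t 123 120 5 = true := ex3_a k149_B00pp_012_s1 k150_B00pp_012_s1

theorem t245_B00pp_012_s1 : ∃ t, chk3 f_B00pp_012_s1 t 123 60 5 = true := ex3_b t244_B00pp_012_s1 k151_B00pp_012_s1

theorem t246_B00pp_012_s1 : ∃ t, chk3 f_B00pp_012_s1 t 247 121 9 = true := ex3_b k147_B00pp_012_s1 k148_B00pp_012_s1

theorem t247_B00pp_012_s1 : ∃ t, chk3 f_B00pp_012_s1 t 123 121 9 = true := ex3_a k146_B00pp_012_s1 t246_B00pp_012_s1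

theorem t248_B00pp_012_s1 : ∃ t, chk3 f_B00pp_012_s1 t 246 241 18 = true := ex3_a k142_B00pp_012_s1 k143_B00pp_012_s1

theorem t249_B00pp_012_s1 : ∃ t, chk3 f_B00pp_012_s1 t 246 120 18 = true := ex3_b k141_B00pp_012_s1 t248_B00pp_012_s1

theorem t250_B00pp_012_s1 : ∃ t, chk3 f_B00pp_012_s1 t 246 120 9 = true := ex3_c t249_B00pp_012_s1 k144_B00pp_012_s1

theorem t251_B00pp_012_s1 : ∃ t, chk3 f_B00pp_012_s1 t 123 120 9 = true := ex3_a t250_B00pp_012_s1 k145_B00pp_012_s1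

theorem t252_B00pp_012_s1 : ∃ t, chk3 f_B00pp_012_s1 t 123 60 9 = true := ex3_b t251_B00pp_012_s1 t247_B00pp_012_s1

theorem t253_B00pp_012_s1 : ∃ t, chk3 f_B00pp_012_s1 t 246 120 17 = true := ex3_b k137_B00pp_012_s1 k138_B00pp_012_s1

theorem t254_B00pp_012_s1 : ∃ t, chk3 f_B00pp_012_s1 t 123 120 17 = true := ex3_a t253_B00pp_012_s1 k139_B00pp_012_s1

theorem t255_B00pp_012_s1 : ∃ t, chk3 f_B00pp_012_s1 t 123 60 17 = true := ex3_b t254_B00pp_012_s1 k140_B00pp_012_s1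

theorem t256_B00pp_012_s1 : ∃ t, chk3 f_B00pp_012_s1 t 247 120 16 = true := ex3_a k134_B00pp_012_s1 k135_B00pp_012_s1

theorem t257_B00pp_012_s1 : ∃ t, chk3 f_B00pp_012_s1 t 123 120 16 = true := ex3_a k133_B00pp_012_s1 t256_B00pp_012_s1

theorem t258_B00pp_012_s1 : ∃ t, chk3 f_B00pp_012_s1 t 123 60 16 = true := ex3_b t257_B00pp_012_s1 k136_B00pp_012_s1

theorem t259_B00pp_012_s1 : ∃ t, chk3 f_B00pp_012_s1 t 123 60 8 = true := ex3_c t258_B00pp_012_s1 t255_B00pp_012_s1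

theorem t260_B00pp_012_s1 : ∃ t, chk3 f_B00pp_012_s1 t 123 60 4 = true := ex3_c t259_B00pp_012_s1 t252_B00pp_012_s1

theorem t261_B00pp_012_s1 : ∃ t, chk3 f_B00pp_012_s1 t 123 60 2 = true := ex3_c t260_B00pp_012_s1 t245_B00pp_012_s1

theorem t262_B00pp_012_s1 : ∃ t, chk3 f_B00pp_012_s1 t 123 30 2 = true := ex3_b t261_B00pp_012_s1 k152_B00pp_012_s1

theorem t263_B00pp_012_s1 : ∃ t, chk3 f_B00pp_012_s1 t 123 15 2 = true := ex3_b t262_B00pp_012_s1 k153_B00pp_012_s1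

theorem t264_B00pp_012_s1 : ∃ t, chk3 f_B00pp_012_s1 t 245 120 16 = true := ex3_c k125_B00pp_012_s1 k126_B00pp_012_s1

theorem t265_B00pp_012_s1 : ∃ t, chk3 f_B00pp_012_s1 t 122 120 16 = true := ex3_a k124_B00pp_012_s1 t264_B00pp_012_s1

theorem t266_B00pp_012_s1 : ∃ t, chk3 f_B00pp_012_s1 t 122 120 8 = true := ex3_c t265_B00pp_012_s1 k127_B00pp_012_s1

theorem t267_B00pp_012_s1 : ∃ t, chk3 f_B00pp_012_s1 t 122 60 8 = true := ex3_b t266_B00pp_012_s1 k128_B00pp_012_s1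

theorem t268_B00pp_012_s1 : ∃ t, chk3 f_B00pp_012_s1 t 122 60 4 = true := ex3_c t267_B00pp_012_s1 k129_B00pp_012_s1

theorem t269_B00pp_012_s1 : ∃ t, chk3 f_B00pp_012_s1 t 122 60 2 = true := ex3_c t268_B00pp_012_s1 k130_B00pp_012_s1

theorem t270_B00pp_012_s1 : ∃ t, chk3 f_B00pp_012_s1 t 122 30 2 = true := ex3_b t269_B00pp_012_s1 k131_B00pp_012_s1

theorem t271_B00pp_012_s1 : ∃ t, chk3 f_B00pp_012_s1 t 122 15 2 = true := ex3_b t270_B00pp_012_s1 k132_B00pp_012_s1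

theorem t272_B00pp_012_s1 : ∃ t, chk3 f_B00pp_012_s1 t 61 15 2 = true := ex3_a t271_B00pp_012_s1 t263_B00pp_012_s1

theorem t273_B00pp_012_s1 : ∃ t, chk3 f_B00pp_012_s1 t 123 29 5 = true := ex3_b k122_B00pp_012_s1 k123_B00pp_012_s1

theorem t274_B00pp_012_s1 : ∃ t, chk3 f_B00pp_012_s1 t 122 59 5 = true := ex3_b k120_B00pp_012_s1 k121_B00pp_012_s1

theorem t275_B00pp_012_s1 : ∃ t, chk3 f_B00pp_012_s1 t 122 29 5 = true := ex3_b k119_B00pp_012_s1 t274_B00pp_012_s1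

theorem t276_B00pp_012_s1 : ∃ t, chk3 f_B00pp_012_s1 t 61 29 5 = true := ex3_a t275_B00pp_012_s1 t273_B00pp_012_s1

theorem t277_B00pp_012_s1 : ∃ t, chk3 f_B00pp_012_s1 t 123 59 9 = true := ex3_a k117_B00pp_012_s1 k118_B00pp_012_s1

theorem t278_B00pp_012_s1 : ∃ t, chk3 f_B00pp_012_s1 t 247 59 8 = true := ex3_c k115_B00pp_012_s1 k116_B00pp_012_s1

theorem t279_B00pp_012_s1 : ∃ t, chk3 f_B00pp_012_s1 t 246 59 8 = true := ex3_c k113_B00pp_012_s1 k114_B00pp_012_s1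

theorem t280_B00pp_012_s1 : ∃ t, chk3 f_B00pp_012_s1 t 123 59 8 = true := ex3_a t279_B00pp_012_s1 t278_B00pp_012_s1

theorem t281_B00pp_012_s1 : ∃ t, chk3 f_B00pp_012_s1 t 123 59 4 = true := ex3_c t280_B00pp_012_s1 t277_B00pp_012_s1

theorem t282_B00pp_012_s1 : ∃ t, chk3 f_B00pp_012_s1 t 122 119 9 = true := ex3_a k111_B00pp_012_s1 k112_B00pp_012_s1

theorem t283_B00pp_012_s1 : ∃ t, chk3 f_B00pp_012_s1 t 122 59 9 = true := ex3_b k110_B00pp_012_s1 t282_B00pp_012_s1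

theorem t284_B00pp_012_s1 : ∃ t, chk3 f_B00pp_012_s1 t 245 119 32 = true := ex3_b k106_B00pp_012_s1 k107_B00pp_012_s1

theorem t285_B00pp_012_s1 : ∃ t, chk3 f_B00pp_012_s1 t 245 119 16 = true := ex3_c t284_B00pp_012_s1 k108_B00pp_012_s1

theorem t286_B00pp_012_s1 : ∃ t, chk3 f_B00pp_012_s1 t 245 59 16 = true := ex3_b k105_B00pp_012_s1 t285_B00pp_012_s1

theorem t287_B00pp_012_s1 : ∃ t, chk3 f_B00pp_012_s1 t 245 59 8 = true := ex3_c t286_B00pp_012_s1 k109_B00pp_012_s1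

theorem t288_B00pp_012_s1 : ∃ t, chk3 f_B00pp_012_s1 t 489 239 64 = true := ex3_b k100_B00pp_012_s1 k101_B00pp_012_s1

theorem t289_B00pp_012_s1 : ∃ t, chk3 f_B00pp_012_s1 t 489 239 32 = true := ex3_c t288_B00pp_012_s1 k102_B00pp_012_s1

theorem t290_B00pp_012_s1 : ∃ t, chk3 f_B00pp_012_s1 t 489 119 32 = true := ex3_b k99_B00pp_012_s1 t289_B00pp_012_s1

theorem t291_B00pp_012_s1 : ∃ t, chk3 f_B00pp_012_s1 t 244 119 32 = true := ex3_a k98_B00pp_012_s1 t290_B00pp_012_s1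

theorem t292_B00pp_012_s1 : ∃ t, chk3 f_B00pp_012_s1 t 244 119 16 = true := ex3_c t291_B00pp_012_s1 k103_B00pp_012_s1

theorem t293_B00pp_012_s1 : ∃ t, chk3 f_B00pp_012_s1 t 244 59 16 = true := ex3_b k97_B00pp_012_s1 t292_B00pp_012_s1

theorem t294_B00pp_012_s1 : ∃ t, chk3 f_B00pp_012_s1 t 244 59 8 = true := ex3_c t293_B00pp_012_s1 k104_B00pp_012_s1

theorem t295_B00pp_012_s1 : ∃ t, chk3 f_B00pp_012_s1 t 122 59 8 = true := ex3_a t294_B00pp_012_s1 t287_B00pp_012_s1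

theorem t296_B00pp_012_s1 : ∃ t, chk3 f_B00pp_012_s1 t 122 59 4 = true := ex3_c t295_B00pp_012_s1 t283_B00pp_012_s1

theorem t297_B00pp_012_s1 : ∃ t, chk3 f_B00pp_012_s1 t 61 59 4 = true := ex3_a t296_B00pp_012_s1 t281_B00pp_012_s1

theorem t298_B00pp_012_s1 : ∃ t, chk3 f_B00pp_012_s1 t 61 58 8 = true := ex3_a k94_B00pp_012_s1 k95_B00pp_012_s1

theorem t299_B00pp_012_s1 : ∃ t, chk3 f_B00pp_012_s1 t 61 58 4 = true := ex3_c t298_B00pp_012_s1 k96_B00pp_012_s1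

theorem t300_B00pp_012_s1 : ∃ t, chk3 f_B00pp_012_s1 t 61 29 4 = true := ex3_b t299_B00pp_012_s1 t297_B00pp_012_s1

theorem t301_B00pp_012_s1 : ∃ t, chk3 f_B00pp_012_s1 t 61 29 2 = true := ex3_c t300_B00pp_012_s1 t276_B00pp_012_s1

theorem t302_B00pp_012_s1 : ∃ t, chk3 f_B00pp_012_s1 t 61 14 2 = true := ex3_b k93_B00pp_012_s1 t301_B00pp_012_s1

theorem t303_B00pp_012_s1 : ∃ t, chk3 f_B00pp_012_s1 t 61 7 2 = true := ex3_b t302_B00pp_012_s1 t272_B00pp_012_s1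

theorem t304_B00pp_012_s1 : ∃ t, chk3 f_B00pp_012_s1 t 120 58 5 = true := ex3_b k88_B00pp_012_s1 k89_B00pp_012_s1

theorem t305_B00pp_012_s1 : ∃ t, chk3 f_B00pp_012_s1 t 60 58 5 = true := ex3_a t304_B00pp_012_s1 k90_B00pp_012_s1

theorem t306_B00pp_012_s1 : ∃ t, chk3 f_B00pp_012_s1 t 60 29 5 = true := ex3_b t305_B00pp_012_s1 k91_B00pp_012_s1

theorem t307_B00pp_012_s1 : ∃ t, chk3 f_B00pp_012_s1 t 121 118 8 = true := ex3_a k84_B00pp_012_s1 k85_B00pp_012_s1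

theorem t308_B00pp_012_s1 : ∃ t, chk3 f_B00pp_012_s1 t 60 118 8 = true := ex3_a k83_B00pp_012_s1 t307_B00pp_012_s1

theorem t309_B00pp_012_s1 : ∃ t, chk3 f_B00pp_012_s1 t 60 59 8 = true := ex3_b t308_B00pp_012_s1 k86_B00pp_012_s1

theorem t310_B00pp_012_s1 : ∃ t, chk3 f_B00pp_012_s1 t 60 59 4 = true := ex3_c t309_B00pp_012_s1 k87_B00pp_012_s1

theorem t311_B00pp_012_s1 : ∃ t, chk3 f_B00pp_012_s1 t 121 117 4 = true := ex3_a k81_B00pp_012_s1 k82_B00pp_012_s1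

theorem t312_B00pp_012_s1 : ∃ t, chk3 f_B00pp_012_s1 t 121 58 4 = true := ex3_b k80_B00pp_012_s1 t311_B00pp_012_s1

theorem t313_B00pp_012_s1 : ∃ t, chk3 f_B00pp_012_s1 t 120 235 4 = true := ex3_a k78_B00pp_012_s1 k79_B00pp_012_s1

theorem t314_B00pp_012_s1 : ∃ t, chk3 f_B00pp_012_s1 t 120 117 4 = true := ex3_b k77_B00pp_012_s1 t313_B00pp_012_s1

theorem t315_B00pp_012_s1 : ∃ t, chk3 f_B00pp_012_s1 t 120 58 4 = true := ex3_b k76_B00pp_012_s1 t314_B00pp_012_s1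

theorem t316_B00pp_012_s1 : ∃ t, chk3 f_B00pp_012_s1 t 60 58 4 = true := ex3_a t315_B00pp_012_s1 t312_B00pp_012_s1

theorem t317_B00pp_012_s1 : ∃ t, chk3 f_B00pp_012_s1 t 60 29 4 = true := ex3_b t316_B00pp_012_s1 t310_B00pp_012_s1

theorem t318_B00pp_012_s1 : ∃ t, chk3 f_B00pp_012_s1 t 60 29 2 = true := ex3_c t317_B00pp_012_s1 t306_B00pp_012_s1

theorem t319_B00pp_012_s1 : ∃ t, chk3 f_B00pp_012_s1 t 60 28 2 = true := ex3_b k74_B00pp_012_s1 k75_B00pp_012_s1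

theorem t320_B00pp_012_s1 : ∃ t, chk3 f_B00pp_012_s1 t 60 14 2 = true := ex3_b t319_B00pp_012_s1 t318_B00pp_012_s1

theorem t321_B00pp_012_s1 : ∃ t, chk3 f_B00pp_012_s1 t 60 7 2 = true := ex3_b t320_B00pp_012_s1 k92_B00pp_012_s1

theorem t322_B00pp_012_s1 : ∃ t, chk3 f_B00pp_012_s1 t 30 7 2 = true := ex3_a t321_B00pp_012_s1 t303_B00pp_012_s1

theorem t323_B00pp_012_s1 : ∃ t, chk3 f_B00pp_012_s1 t 30 7 1 = true := ex3_c t322_B00pp_012_s1 t243_B00pp_012_s1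

theorem t324_B00pp_012_s1 : ∃ t, chk3 f_B00pp_012_s1 t 15 7 1 = true := ex3_a t323_B00pp_012_s1 t225_B00pp_012_s1

theorem t325_B00pp_012_s1 : ∃ t, chk3 f_B00pp_012_s1 t 31 13 1 = true := ex3_c k72_B00pp_012_s1 k73_B00pp_012_s1

theorem t326_B00pp_012_s1 : ∃ t, chk3 f_B00pp_012_s1 t 31 12 3 = true := ex3_a k70_B00pp_012_s1 k71_B00pp_012_s1

theorem t327_B00pp_012_s1 : ∃ t, chk3 f_B00pp_012_s1 t 62 24 2 = true := ex3_a k66_B00pp_012_s1 k67_B00pp_012_s1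

theorem t328_B00pp_012_s1 : ∃ t, chk3 f_B00pp_012_s1 t 62 12 2 = true := ex3_b t327_B00pp_012_s1 k68_B00pp_012_s1

theorem t329_B00pp_012_s1 : ∃ t, chk3 f_B00pp_012_s1 t 31 12 2 = true := ex3_a t328_B00pp_012_s1 k69_B00pp_012_s1

theorem t330_B00pp_012_s1 : ∃ t, chk3 f_B00pp_012_s1 t 31 12 1 = true := ex3_c t329_B00pp_012_s1 t326_B00pp_012_s1

theorem t331_B00pp_012_s1 : ∃ t, chk3 f_B00pp_012_s1 t 31 6 1 = true := ex3_b t330_B00pp_012_s1 t325_B00pp_012_s1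

theorem t332_B00pp_012_s1 : ∃ t, chk3 f_B00pp_012_s1 t 30 6 3 = true := ex3_b k64_B00pp_012_s1 k65_B00pp_012_s1

theorem t333_B00pp_012_s1 : ∃ t, chk3 f_B00pp_012_s1 t 30 6 2 = true := ex3_b k62_B00pp_012_s1 k63_B00pp_012_s1

theorem t334_B00pp_012_s1 : ∃ t, chk3 f_B00pp_012_s1 t 30 6 1 = true := ex3_c t333_B00pp_012_s1 t332_B00pp_012_s1

theorem t335_B00pp_012_s1 : ∃ t, chk3 f_B00pp_012_s1 t 15 6 1 = true := ex3_a t334_B00pp_012_s1 t331_B00pp_012_s1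

theorem t336_B00pp_012_s1 : ∃ t, chk3 f_B00pp_012_s1 t 15 3 1 = true := ex3_b t335_B00pp_012_s1 t324_B00pp_012_s1

theorem t337_B00pp_012_s1 : ∃ t, chk3 f_B00pp_012_s1 t 59 57 3 = true := ex3_c k58_B00pp_012_s1 k59_B00pp_012_s1

theorem t338_B00pp_012_s1 : ∃ t, chk3 f_B00pp_012_s1 t 59 28 3 = true := ex3_b k57_B00pp_012_s1 t337_B00pp_012_s1

theorem t339_B00pp_012_s1 : ∃ t, chk3 f_B00pp_012_s1 t 29 28 3 = true := ex3_a k56_B00pp_012_s1 t338_B00pp_012_s1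

theorem t340_B00pp_012_s1 : ∃ t, chk3 f_B00pp_012_s1 t 29 14 3 = true := ex3_b t339_B00pp_012_s1 k60_B00pp_012_s1

theorem t341_B00pp_012_s1 : ∃ t, chk3 f_B00pp_012_s1 t 29 7 3 = true := ex3_b t340_B00pp_012_s1 k61_B00pp_012_s1

theorem t342_B00pp_012_s1 : ∃ t, chk3 f_B00pp_012_s1 t 29 6 3 = true := ex3_b k54_B00pp_012_s1 k55_B00pp_012_s1

theorem t343_B00pp_012_s1 : ∃ t, chk3 f_B00pp_012_s1 t 29 3 3 = true := ex3_b t342_B00pp_012_s1 t341_B00pp_012_s1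

theorem t344_B00pp_012_s1 : ∃ t, chk3 f_B00pp_012_s1 t 59 28 5 = true := ex3_b k50_B00pp_012_s1 k51_B00pp_012_s1

theorem t345_B00pp_012_s1 : ∃ t, chk3 f_B00pp_012_s1 t 29 28 5 = true := ex3_a k49_B00pp_012_s1 t344_B00pp_012_s1

theorem t346_B00pp_012_s1 : ∃ t, chk3 f_B00pp_012_s1 t 29 14 5 = true := ex3_b t345_B00pp_012_s1 k52_B00pp_012_s1

theorem t347_B00pp_012_s1 : ∃ t, chk3 f_B00pp_012_s1 t 118 57 4 = true := ex3_a k45_B00pp_012_s1 k46_B00pp_012_s1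

theorem t348_B00pp_012_s1 : ∃ t, chk3 f_B00pp_012_s1 t 59 57 4 = true := ex3_a t347_B00pp_012_s1 k47_B00pp_012_s1

theorem t349_B00pp_012_s1 : ∃ t, chk3 f_B00pp_012_s1 t 59 28 4 = true := ex3_b k44_B00pp_012_s1 t348_B00pp_012_s1

theorem t350_B00pp_012_s1 : ∃ t, chk3 f_B00pp_012_s1 t 29 28 4 = true := ex3_a k43_B00pp_012_s1 t349_B00pp_012_s1

theorem t351_B00pp_012_s1 : ∃ t, chk3 f_B00pp_012_s1 t 29 14 4 = true := ex3_b t350_B00pp_012_s1 k48_B00pp_012_s1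

theorem t352_B00pp_012_s1 : ∃ t, chk3 f_B00pp_012_s1 t 29 14 2 = true := ex3_c t351_B00pp_012_s1 t346_B00pp_012_s1

theorem t353_B00pp_012_s1 : ∃ t, chk3 f_B00pp_012_s1 t 29 7 2 = true := ex3_b t352_B00pp_012_s1 k53_B00pp_012_s1

theorem t354_B00pp_012_s1 : ∃ t, chk3 f_B00pp_012_s1 t 29 27 2 = true := ex3_a k41_B00pp_012_s1 k42_B00pp_012_s1

theorem t355_B00pp_012_s1 : ∃ t, chk3 f_B00pp_012_s1 t 29 13 2 = true := ex3_b k40_B00pp_012_s1 t354_B00pp_012_s1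

theorem t356_B00pp_012_s1 : ∃ t, chk3 f_B00pp_012_s1 t 29 6 2 = true := ex3_b k39_B00pp_012_s1 t355_B00pp_012_s1

theorem t357_B00pp_012_s1 : ∃ t, chk3 f_B00pp_012_s1 t 29 3 2 = true := ex3_b t356_B00pp_012_s1 t353_B00pp_012_s1

theorem t358_B00pp_012_s1 : ∃ t, chk3 f_B00pp_012_s1 t 29 3 1 = true := ex3_c t357_B00pp_012_s1 t343_B00pp_012_s1

theorem t359_B00pp_012_s1 : ∃ t, chk3 f_B00pp_012_s1 t 28 6 3 = true := ex3_b k36_B00pp_012_s1 k37_B00pp_012_s1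

theorem t360_B00pp_012_s1 : ∃ t, chk3 f_B00pp_012_s1 t 28 3 3 = true := ex3_b t359_B00pp_012_s1 k38_B00pp_012_s1

theorem t361_B00pp_012_s1 : ∃ t, chk3 f_B00pp_012_s1 t 28 27 2 = true := ex3_a k33_B00pp_012_s1 k34_B00pp_012_s1

theorem t362_B00pp_012_s1 : ∃ t, chk3 f_B00pp_012_s1 t 28 26 2 = true := ex3_c k31_B00pp_012_s1 k32_B00pp_012_s1

theorem t363_B00pp_012_s1 : ∃ t, chk3 f_B00pp_012_s1 t 28 13 2 = true := ex3_b t362_B00pp_012_s1 t361_B00pp_012_s1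

theorem t364_B00pp_012_s1 : ∃ t, chk3 f_B00pp_012_s1 t 28 6 2 = true := ex3_b k30_B00pp_012_s1 t363_B00pp_012_s1

theorem t365_B00pp_012_s1 : ∃ t, chk3 f_B00pp_012_s1 t 28 3 2 = true := ex3_b t364_B00pp_012_s1 k35_B00pp_012_s1

theorem t366_B00pp_012_s1 : ∃ t, chk3 f_B00pp_012_s1 t 28 3 1 = true := ex3_c t365_B00pp_012_s1 t360_B00pp_012_s1

theorem t367_B00pp_012_s1 : ∃ t, chk3 f_B00pp_012_s1 t 14 3 1 = true := ex3_a t366_B00pp_012_s1 t358_B00pp_012_s1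

theorem t368_B00pp_012_s1 : ∃ t, chk3 f_B00pp_012_s1 t 7 3 1 = true := ex3_a t367_B00pp_012_s1 t336_B00pp_012_s1

theorem t369_B00pp_012_s1 : ∃ t, chk3 f_B00pp_012_s1 t 61 23 1 = true := ex3_c k27_B00pp_012_s1 k28_B00pp_012_s1

theorem t370_B00pp_012_s1 : ∃ t, chk3 f_B00pp_012_s1 t 60 23 1 = true := ex3_c k25_B00pp_012_s1 k26_B00pp_012_s1

theorem t371_B00pp_012_s1 : ∃ t, chk3 f_B00pp_012_s1 t 30 23 1 = true := ex3_a t370_B00pp_012_s1 t369_B00pp_012_s1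

theorem t372_B00pp_012_s1 : ∃ t, chk3 f_B00pp_012_s1 t 30 11 1 = true := ex3_b k24_B00pp_012_s1 t371_B00pp_012_s1

theorem t373_B00pp_012_s1 : ∃ t, chk3 f_B00pp_012_s1 t 30 5 1 = true := ex3_b k23_B00pp_012_s1 t372_B00pp_012_s1

theorem t374_B00pp_012_s1 : ∃ t, chk3 f_B00pp_012_s1 t 15 5 1 = true := ex3_a t373_B00pp_012_s1 k29_B00pp_012_s1

theorem t375_B00pp_012_s1 : ∃ t, chk3 f_B00pp_012_s1 t 29 22 1 = true := ex3_c k20_B00pp_012_s1 k21_B00pp_012_s1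

theorem t376_B00pp_012_s1 : ∃ t, chk3 f_B00pp_012_s1 t 29 11 1 = true := ex3_b t375_B00pp_012_s1 k22_B00pp_012_s1

theorem t377_B00pp_012_s1 : ∃ t, chk3 f_B00pp_012_s1 t 29 5 1 = true := ex3_b k19_B00pp_012_s1 t376_B00pp_012_s1

theorem t378_B00pp_012_s1 : ∃ t, chk3 f_B00pp_012_s1 t 28 5 1 = true := ex3_c k17_B00pp_012_s1 k18_B00pp_012_s1

theorem t379_B00pp_012_s1 : ∃ t, chk3 f_B00pp_012_s1 t 14 5 1 = true := ex3_a t378_B00pp_012_s1 t377_B00pp_012_s1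

theorem t380_B00pp_012_s1 : ∃ t, chk3 f_B00pp_012_s1 t 7 5 1 = true := ex3_a t379_B00pp_012_s1 t374_B00pp_012_s1

theorem t381_B00pp_012_s1 : ∃ t, chk3 f_B00pp_012_s1 t 7 2 1 = true := ex3_b k16_B00pp_012_s1 t380_B00pp_012_s1

theorem t382_B00pp_012_s1 : ∃ t, chk3 f_B00pp_012_s1 t 7 1 1 = true := ex3_b t381_B00pp_012_s1 t368_B00pp_012_s1

theorem t383_B00pp_012_s1 : ∃ t, chk3 f_B00pp_012_s1 t 27 6 1 = true := ex3_b k13_B00pp_012_s1 k14_B00pp_012_s1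

theorem t384_B00pp_012_s1 : ∃ t, chk3 f_B00pp_012_s1 t 27 3 1 = true := ex3_b t383_B00pp_012_s1 k15_B00pp_012_s1

theorem t385_B00pp_012_s1 : ∃ t, chk3 f_B00pp_012_s1 t 13 3 1 = true := ex3_a k12_B00pp_012_s1 t384_B00pp_012_s1

theorem t386_B00pp_012_s1 : ∃ t, chk3 f_B00pp_012_s1 t 6 3 1 = true := ex3_a k11_B00pp_012_s1 t385_B00pp_012_s1

theorem t387_B00pp_012_s1 : ∃ t, chk3 f_B00pp_012_s1 t 13 5 1 = true := ex3_b k9_B00pp_012_s1 k10_B00pp_012_s1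

theorem t388_B00pp_012_s1 : ∃ t, chk3 f_B00pp_012_s1 t 6 5 1 = true := ex3_a k8_B00pp_012_s1 t387_B00pp_012_s1

theorem t389_B00pp_012_s1 : ∃ t, chk3 f_B00pp_012_s1 t 6 4 1 = true := ex3_a k6_B00pp_012_s1 k7_B00pp_012_s1

theorem t390_B00pp_012_s1 : ∃ t, chk3 f_B00pp_012_s1 t 6 2 1 = true := ex3_b t389_B00pp_012_s1 t388_B00pp_012_s1

theorem t391_B00pp_012_s1 : ∃ t, chk3 f_B00pp_012_s1 t 6 1 1 = true := ex3_b t390_B00pp_012_s1 t386_B00pp_012_s1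

theorem t392_B00pp_012_s1 : ∃ t, chk3 f_B00pp_012_s1 t 3 1 1 = true := ex3_a t391_B00pp_012_s1 t382_B00pp_012_s1

theorem t393_B00pp_012_s1 : ∃ t, chk3 f_B00pp_012_s1 t 5 4 2 = true := ex3_b k1_B00pp_012_s1 k2_B00pp_012_s1

theorem t394_B00pp_012_s1 : ∃ t, chk3 f_B00pp_012_s1 t 2 4 2 = true := ex3_a k0_B00pp_012_s1 t393_B00pp_012_s1

theorem t395_B00pp_012_s1 : ∃ t, chk3 f_B00pp_012_s1 t 2 2 2 = true := ex3_b t394_B00pp_012_s1 k3_B00pp_012_s1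

theorem t396_B00pp_012_s1 : ∃ t, chk3 f_B00pp_012_s1 t 2 2 1 = true := ex3_c t395_B00pp_012_s1 k4_B00pp_012_s1

theorem t397_B00pp_012_s1 : ∃ t, chk3 f_B00pp_012_s1 t 2 1 1 = true := ex3_b t396_B00pp_012_s1 k5_B00pp_012_s1

theorem t398_B00pp_012_s1 : ∃ t, chk3 f_B00pp_012_s1 t 1 1 1 = true := ex3_a t397_B00pp_012_s1 t392_B00pp_012_s1

theorem c_B00pp_012_s1 : CertFX 0 536870912 0 536870912 1046898278 26843546 false true true .pnp 0 1 2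
    ndF0q0 ndF0q2 pcF1 cut_B00pp_012_s1 xt_B00pp_012_s1 :=
  certFX2 (fam := false) (s1 := true) (s2 := true) (a := 0) (b := 1) (c := 2) (cn := .pnp) (n1 := ndF0q0) (n2 := ndF0q2) (pc := pcF1) (cut := cut_B00pp_012_s1) (xt := xt_B00pp_012_s1) (P1 := 0) (W1 := 536870912) (P2 := 0) (W2 := 536870912) (P3 := 1046898278) (W3 := 26843546)
    rfl (fun _ => rfl) t398_B00pp_012_s1

theorem s_B00pp_012_s1 {κ x : ℝ} (hκ : κ * h0 = kenE x) (hx : 39 / 40 ≤ x) (hx' : x < 1)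
    (H : CutVB (VFD κ) (DD x) tKF tL pcF (Cut.of [[⟨0, 0, 0, 67108864⟩, ⟨1, 1, 0, 67108864⟩, ⟨2, 1, 0, 67108864⟩, ⟨3, 0, 0, 1233125376⟩]]) 0 1 2 0 0 (sgb true) (sgb true) x) :
    AltVB (VFD κ) (DD x) tKF tL pcF [⟨3, 0, 0, 1449551462⟩] 0 1 2 0 0 (sgb true) (sgb true) x :=
  strip_altVB (d := 1449551462) true rfl hκ (κ0 hκ hx) (x0 hx) hx' (covF00 hx hx') (covF02 hx hx') (x1 hx) (x2 hx') c_B00pp_012_s1 H ((ok hx hx').extB (T := tt) (sideF hx hx') hκ (κ0 hκ hx) rfl rfl (.O 0 true) (.O 2 true) (Or.inr rfl))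

theorem t384_B00pm_011_s3 : ∃ t, chk3 f_B00pm_011_s3 t 960 31 3 = true := ex3_b k376_B00pm_011_s3 k377_B00pm_011_s3

theorem t385_B00pm_011_s3 : ∃ t, chk3 f_B00pm_011_s3 t 480 31 3 = true := ex3_a t384_B00pm_011_s3 k378_B00pm_011_s3

theorem t386_B00pm_011_s3 : ∃ t, chk3 f_B00pm_011_s3 t 240 31 3 = true := ex3_a t385_B00pm_011_s3 k379_B00pm_011_s3

theorem t387_B00pm_011_s3 : ∃ t, chk3 f_B00pm_011_s3 t 120 31 3 = true := ex3_a t386_B00pm_011_s3 k380_B00pm_011_s3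

theorem t388_B00pm_011_s3 : ∃ t, chk3 f_B00pm_011_s3 t 60 31 3 = true := ex3_a t387_B00pm_011_s3 k381_B00pm_011_s3

theorem t389_B00pm_011_s3 : ∃ t, chk3 f_B00pm_011_s3 t 30 31 3 = true := ex3_a t388_B00pm_011_s3 k382_B00pm_011_s3

theorem t390_B00pm_011_s3 : ∃ t, chk3 f_B00pm_011_s3 t 60 125 2 = true := ex3_c k372_B00pm_011_s3 k373_B00pm_011_s3

theorem t391_B00pm_011_s3 : ∃ t, chk3 f_B00pm_011_s3 t 30 125 2 = true := ex3_a t390_B00pm_011_s3 k374_B00pm_011_s3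

theorem t392_B00pm_011_s3 : ∃ t, chk3 f_B00pm_011_s3 t 30 62 2 = true := ex3_b k371_B00pm_011_s3 t391_B00pm_011_s3

theorem t393_B00pm_011_s3 : ∃ t, chk3 f_B00pm_011_s3 t 30 31 2 = true := ex3_b t392_B00pm_011_s3 k375_B00pm_011_s3

theorem t394_B00pm_011_s3 : ∃ t, chk3 f_B00pm_011_s3 t 30 31 1 = true := ex3_c t393_B00pm_011_s3 t389_B00pm_011_s3

theorem t395_B00pm_011_s3 : ∃ t, chk3 f_B00pm_011_s3 t 30 15 1 = true := ex3_b k370_B00pm_011_s3 t394_B00pm_011_s3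

theorem t396_B00pm_011_s3 : ∃ t, chk3 f_B00pm_011_s3 t 15 15 1 = true := ex3_a t395_B00pm_011_s3 k383_B00pm_011_s3

theorem t397_B00pm_011_s3 : ∃ t, chk3 f_B00pm_011_s3 t 15 7 1 = true := ex3_b k369_B00pm_011_s3 t396_B00pm_011_s3

theorem t398_B00pm_011_s3 : ∃ t, chk3 f_B00pm_011_s3 t 119 255 3 = true := ex3_b k367_B00pm_011_s3 k368_B00pm_011_s3

theorem t399_B00pm_011_s3 : ∃ t, chk3 f_B00pm_011_s3 t 59 255 3 = true := ex3_a k366_B00pm_011_s3 t398_B00pm_011_s3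

theorem t400_B00pm_011_s3 : ∃ t, chk3 f_B00pm_011_s3 t 59 127 3 = true := ex3_b k365_B00pm_011_s3 t399_B00pm_011_s3

theorem t401_B00pm_011_s3 : ∃ t, chk3 f_B00pm_011_s3 t 29 127 3 = true := ex3_a k364_B00pm_011_s3 t400_B00pm_011_s3

theorem t402_B00pm_011_s3 : ∃ t, chk3 f_B00pm_011_s3 t 119 252 3 = true := ex3_a k361_B00pm_011_s3 k362_B00pm_011_s3

theorem t403_B00pm_011_s3 : ∃ t, chk3 f_B00pm_011_s3 t 59 252 3 = true := ex3_a k360_B00pm_011_s3 t402_B00pm_011_s3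

theorem t404_B00pm_011_s3 : ∃ t, chk3 f_B00pm_011_s3 t 29 252 3 = true := ex3_a k359_B00pm_011_s3 t403_B00pm_011_s3

theorem t405_B00pm_011_s3 : ∃ t, chk3 f_B00pm_011_s3 t 29 126 3 = true := ex3_b t404_B00pm_011_s3 k363_B00pm_011_s3

theorem t406_B00pm_011_s3 : ∃ t, chk3 f_B00pm_011_s3 t 29 63 3 = true := ex3_b t405_B00pm_011_s3 t401_B00pm_011_s3

theorem t407_B00pm_011_s3 : ∃ t, chk3 f_B00pm_011_s3 t 59 125 3 = true := ex3_b k357_B00pm_011_s3 k358_B00pm_011_s3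

theorem t408_B00pm_011_s3 : ∃ t, chk3 f_B00pm_011_s3 t 59 62 3 = true := ex3_b k356_B00pm_011_s3 t407_B00pm_011_s3

theorem t409_B00pm_011_s3 : ∃ t, chk3 f_B00pm_011_s3 t 58 125 3 = true := ex3_b k354_B00pm_011_s3 k355_B00pm_011_s3

theorem t410_B00pm_011_s3 : ∃ t, chk3 f_B00pm_011_s3 t 58 62 3 = true := ex3_b k353_B00pm_011_s3 t409_B00pm_011_s3

theorem t411_B00pm_011_s3 : ∃ t, chk3 f_B00pm_011_s3 t 29 62 3 = true := ex3_a t410_B00pm_011_s3 t408_B00pm_011_s3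

theorem t412_B00pm_011_s3 : ∃ t, chk3 f_B00pm_011_s3 t 29 31 3 = true := ex3_b t411_B00pm_011_s3 t406_B00pm_011_s3

theorem t413_B00pm_011_s3 : ∃ t, chk3 f_B00pm_011_s3 t 59 255 2 = true := ex3_b k351_B00pm_011_s3 k352_B00pm_011_s3

theorem t414_B00pm_011_s3 : ∃ t, chk3 f_B00pm_011_s3 t 59 127 2 = true := ex3_b k350_B00pm_011_s3 t413_B00pm_011_s3

theorem t415_B00pm_011_s3 : ∃ t, chk3 f_B00pm_011_s3 t 58 127 4 = true := ex3_b k347_B00pm_011_s3 k348_B00pm_011_s3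

theorem t416_B00pm_011_s3 : ∃ t, chk3 f_B00pm_011_s3 t 58 127 2 = true := ex3_c t415_B00pm_011_s3 k349_B00pm_011_s3

theorem t417_B00pm_011_s3 : ∃ t, chk3 f_B00pm_011_s3 t 29 127 2 = true := ex3_a t416_B00pm_011_s3 t414_B00pm_011_s3

theorem t418_B00pm_011_s3 : ∃ t, chk3 f_B00pm_011_s3 t 119 252 5 = true := ex3_b k344_B00pm_011_s3 k345_B00pm_011_s3

theorem t419_B00pm_011_s3 : ∃ t, chk3 f_B00pm_011_s3 t 119 505 4 = true := ex3_a k342_B00pm_011_s3 k343_B00pm_011_s3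

theorem t420_B00pm_011_s3 : ∃ t, chk3 f_B00pm_011_s3 t 119 252 4 = true := ex3_b k341_B00pm_011_s3 t419_B00pm_011_s3

theorem t421_B00pm_011_s3 : ∃ t, chk3 f_B00pm_011_s3 t 119 252 2 = true := ex3_c t420_B00pm_011_s3 t418_B00pm_011_s3

theorem t422_B00pm_011_s3 : ∃ t, chk3 f_B00pm_011_s3 t 118 504 8 = true := ex3_a k336_B00pm_011_s3 k337_B00pm_011_s3

theorem t423_B00pm_011_s3 : ∃ t, chk3 f_B00pm_011_s3 t 118 504 4 = true := ex3_c t422_B00pm_011_s3 k338_B00pm_011_s3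

theorem t424_B00pm_011_s3 : ∃ t, chk3 f_B00pm_011_s3 t 118 252 4 = true := ex3_b t423_B00pm_011_s3 k339_B00pm_011_s3

theorem t425_B00pm_011_s3 : ∃ t, chk3 f_B00pm_011_s3 t 118 252 2 = true := ex3_c t424_B00pm_011_s3 k340_B00pm_011_s3

theorem t426_B00pm_011_s3 : ∃ t, chk3 f_B00pm_011_s3 t 59 252 2 = true := ex3_a t425_B00pm_011_s3 t421_B00pm_011_s3

theorem t427_B00pm_011_s3 : ∃ t, chk3 f_B00pm_011_s3 t 59 126 2 = true := ex3_b t426_B00pm_011_s3 k346_B00pm_011_s3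

theorem t428_B00pm_011_s3 : ∃ t, chk3 f_B00pm_011_s3 t 58 126 2 = true := ex3_b k334_B00pm_011_s3 k335_B00pm_011_s3

theorem t429_B00pm_011_s3 : ∃ t, chk3 f_B00pm_011_s3 t 29 126 2 = true := ex3_a t428_B00pm_011_s3 t427_B00pm_011_s3

theorem t430_B00pm_011_s3 : ∃ t, chk3 f_B00pm_011_s3 t 29 63 2 = true := ex3_b t429_B00pm_011_s3 t417_B00pm_011_s3

theorem t431_B00pm_011_s3 : ∃ t, chk3 f_B00pm_011_s3 t 119 503 4 = true := ex3_b k331_B00pm_011_s3 k332_B00pm_011_s3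

theorem t432_B00pm_011_s3 : ∃ t, chk3 f_B00pm_011_s3 t 119 503 2 = true := ex3_c t431_B00pm_011_s3 k333_B00pm_011_s3

theorem t433_B00pm_011_s3 : ∃ t, chk3 f_B00pm_011_s3 t 239 502 5 = true := ex3_a k329_B00pm_011_s3 k330_B00pm_011_s3

theorem t434_B00pm_011_s3 : ∃ t, chk3 f_B00pm_011_s3 t 119 502 5 = true := ex3_a k328_B00pm_011_s3 t433_B00pm_011_s3

theorem t435_B00pm_011_s3 : ∃ t, chk3 f_B00pm_011_s3 t 119 502 4 = true := ex3_a k326_B00pm_011_s3 k327_B00pm_011_s3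

theorem t436_B00pm_011_s3 : ∃ t, chk3 f_B00pm_011_s3 t 119 502 2 = true := ex3_c t435_B00pm_011_s3 t434_B00pm_011_s3

theorem t437_B00pm_011_s3 : ∃ t, chk3 f_B00pm_011_s3 t 119 251 2 = true := ex3_b t436_B00pm_011_s3 t432_B00pm_011_s3

theorem t438_B00pm_011_s3 : ∃ t, chk3 f_B00pm_011_s3 t 237 251 4 = true := ex3_c k323_B00pm_011_s3 k324_B00pm_011_s3

theorem t439_B00pm_011_s3 : ∃ t, chk3 f_B00pm_011_s3 t 118 251 4 = true := ex3_a k322_B00pm_011_s3 t438_B00pm_011_s3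

theorem t440_B00pm_011_s3 : ∃ t, chk3 f_B00pm_011_s3 t 118 251 2 = true := ex3_c t439_B00pm_011_s3 k325_B00pm_011_s3

theorem t441_B00pm_011_s3 : ∃ t, chk3 f_B00pm_011_s3 t 59 251 2 = true := ex3_a t440_B00pm_011_s3 t437_B00pm_011_s3

theorem t442_B00pm_011_s3 : ∃ t, chk3 f_B00pm_011_s3 t 239 501 20 = true := ex3_b k318_B00pm_011_s3 k319_B00pm_011_s3

theorem t443_B00pm_011_s3 : ∃ t, chk3 f_B00pm_011_s3 t 239 250 20 = true := ex3_b k317_B00pm_011_s3 t442_B00pm_011_s3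

theorem t444_B00pm_011_s3 : ∃ t, chk3 f_B00pm_011_s3 t 239 250 10 = true := ex3_c t443_B00pm_011_s3 k320_B00pm_011_s3

theorem t445_B00pm_011_s3 : ∃ t, chk3 f_B00pm_011_s3 t 238 250 10 = true := ex3_a k315_B00pm_011_s3 k316_B00pm_011_s3

theorem t446_B00pm_011_s3 : ∃ t, chk3 f_B00pm_011_s3 t 119 250 10 = true := ex3_a t445_B00pm_011_s3 t444_B00pm_011_s3

theorem t447_B00pm_011_s3 : ∃ t, chk3 f_B00pm_011_s3 t 119 250 5 = true := ex3_c t446_B00pm_011_s3 k321_B00pm_011_s3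

theorem t448_B00pm_011_s3 : ∃ t, chk3 f_B00pm_011_s3 t 239 501 4 = true := ex3_a k313_B00pm_011_s3 k314_B00pm_011_s3

theorem t449_B00pm_011_s3 : ∃ t, chk3 f_B00pm_011_s3 t 239 250 4 = true := ex3_b k312_B00pm_011_s3 t448_B00pm_011_s3

theorem t450_B00pm_011_s3 : ∃ t, chk3 f_B00pm_011_s3 t 238 501 4 = true := ex3_a k310_B00pm_011_s3 k311_B00pm_011_s3

theorem t451_B00pm_011_s3 : ∃ t, chk3 f_B00pm_011_s3 t 238 250 4 = true := ex3_b k309_B00pm_011_s3 t450_B00pm_011_s3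

theorem t452_B00pm_011_s3 : ∃ t, chk3 f_B00pm_011_s3 t 119 250 4 = true := ex3_a t451_B00pm_011_s3 t449_B00pm_011_s3

theorem t453_B00pm_011_s3 : ∃ t, chk3 f_B00pm_011_s3 t 119 250 2 = true := ex3_c t452_B00pm_011_s3 t447_B00pm_011_s3

theorem t454_B00pm_011_s3 : ∃ t, chk3 f_B00pm_011_s3 t 237 501 4 = true := ex3_c k306_B00pm_011_s3 k307_B00pm_011_s3

theorem t455_B00pm_011_s3 : ∃ t, chk3 f_B00pm_011_s3 t 118 501 4 = true := ex3_a k305_B00pm_011_s3 t454_B00pm_011_s3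

theorem t456_B00pm_011_s3 : ∃ t, chk3 f_B00pm_011_s3 t 237 500 4 = true := ex3_b k303_B00pm_011_s3 k304_B00pm_011_s3

theorem t457_B00pm_011_s3 : ∃ t, chk3 f_B00pm_011_s3 t 236 500 9 = true := ex3_c k301_B00pm_011_s3 k302_B00pm_011_s3

theorem t458_B00pm_011_s3 : ∃ t, chk3 f_B00pm_011_s3 t 236 500 4 = true := ex3_c k300_B00pm_011_s3 t457_B00pm_011_s3

theorem t459_B00pm_011_s3 : ∃ t, chk3 f_B00pm_011_s3 t 118 500 4 = true := ex3_a t458_B00pm_011_s3 t456_B00pm_011_s3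

theorem t460_B00pm_011_s3 : ∃ t, chk3 f_B00pm_011_s3 t 118 250 4 = true := ex3_b t459_B00pm_011_s3 t455_B00pm_011_s3

theorem t461_B00pm_011_s3 : ∃ t, chk3 f_B00pm_011_s3 t 118 250 2 = true := ex3_c t460_B00pm_011_s3 k308_B00pm_011_s3

theorem t462_B00pm_011_s3 : ∃ t, chk3 f_B00pm_011_s3 t 59 250 2 = true := ex3_a t461_B00pm_011_s3 t453_B00pm_011_s3

theorem t463_B00pm_011_s3 : ∃ t, chk3 f_B00pm_011_s3 t 59 125 2 = true := ex3_b t462_B00pm_011_s3 t441_B00pm_011_s3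

theorem t464_B00pm_011_s3 : ∃ t, chk3 f_B00pm_011_s3 t 236 499 4 = true := ex3_c k295_B00pm_011_s3 k296_B00pm_011_s3

theorem t465_B00pm_011_s3 : ∃ t, chk3 f_B00pm_011_s3 t 118 499 4 = true := ex3_a t464_B00pm_011_s3 k297_B00pm_011_s3

theorem t466_B00pm_011_s3 : ∃ t, chk3 f_B00pm_011_s3 t 118 249 4 = true := ex3_b k294_B00pm_011_s3 t465_B00pm_011_s3

theorem t467_B00pm_011_s3 : ∃ t, chk3 f_B00pm_011_s3 t 118 249 2 = true := ex3_c t466_B00pm_011_s3 k298_B00pm_011_s3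

theorem t468_B00pm_011_s3 : ∃ t, chk3 f_B00pm_011_s3 t 118 124 2 = true := ex3_b k293_B00pm_011_s3 t467_B00pm_011_s3

theorem t469_B00pm_011_s3 : ∃ t, chk3 f_B00pm_011_s3 t 59 124 2 = true := ex3_a t468_B00pm_011_s3 k299_B00pm_011_s3

theorem t470_B00pm_011_s3 : ∃ t, chk3 f_B00pm_011_s3 t 59 62 2 = true := ex3_b t469_B00pm_011_s3 t463_B00pm_011_s3

theorem t471_B00pm_011_s3 : ∃ t, chk3 f_B00pm_011_s3 t 117 503 4 = true := ex3_c k290_B00pm_011_s3 k291_B00pm_011_s3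

theorem t472_B00pm_011_s3 : ∃ t, chk3 f_B00pm_011_s3 t 117 251 4 = true := ex3_b k289_B00pm_011_s3 t471_B00pm_011_s3

theorem t473_B00pm_011_s3 : ∃ t, chk3 f_B00pm_011_s3 t 117 251 2 = true := ex3_c t472_B00pm_011_s3 k292_B00pm_011_s3

theorem t474_B00pm_011_s3 : ∃ t, chk3 f_B00pm_011_s3 t 117 501 4 = true := ex3_b k286_B00pm_011_s3 k287_B00pm_011_s3

theorem t475_B00pm_011_s3 : ∃ t, chk3 f_B00pm_011_s3 t 117 501 2 = true := ex3_c t474_B00pm_011_s3 k288_B00pm_011_s3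

theorem t476_B00pm_011_s3 : ∃ t, chk3 f_B00pm_011_s3 t 117 500 8 = true := ex3_a k282_B00pm_011_s3 k283_B00pm_011_s3

theorem t477_B00pm_011_s3 : ∃ t, chk3 f_B00pm_011_s3 t 117 500 4 = true := ex3_c t476_B00pm_011_s3 k284_B00pm_011_s3

theorem t478_B00pm_011_s3 : ∃ t, chk3 f_B00pm_011_s3 t 117 500 2 = true := ex3_c t477_B00pm_011_s3 k285_B00pm_011_s3

theorem t479_B00pm_011_s3 : ∃ t, chk3 f_B00pm_011_s3 t 117 250 2 = true := ex3_b t478_B00pm_011_s3 t475_B00pm_011_s3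

theorem t480_B00pm_011_s3 : ∃ t, chk3 f_B00pm_011_s3 t 117 125 2 = true := ex3_b t479_B00pm_011_s3 t473_B00pm_011_s3

theorem t481_B00pm_011_s3 : ∃ t, chk3 f_B00pm_011_s3 t 116 502 8 = true := ex3_a k277_B00pm_011_s3 k278_B00pm_011_s3

theorem t482_B00pm_011_s3 : ∃ t, chk3 f_B00pm_011_s3 t 116 502 4 = true := ex3_c t481_B00pm_011_s3 k279_B00pm_011_s3

theorem t483_B00pm_011_s3 : ∃ t, chk3 f_B00pm_011_s3 t 116 251 4 = true := ex3_b t482_B00pm_011_s3 k280_B00pm_011_s3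

theorem t484_B00pm_011_s3 : ∃ t, chk3 f_B00pm_011_s3 t 116 251 2 = true := ex3_c t483_B00pm_011_s3 k281_B00pm_011_s3

theorem t485_B00pm_011_s3 : ∃ t, chk3 f_B00pm_011_s3 t 116 250 8 = true := ex3_a k273_B00pm_011_s3 k274_B00pm_011_s3

theorem t486_B00pm_011_s3 : ∃ t, chk3 f_B00pm_011_s3 t 116 250 4 = true := ex3_c t485_B00pm_011_s3 k275_B00pm_011_s3

theorem t487_B00pm_011_s3 : ∃ t, chk3 f_B00pm_011_s3 t 116 250 2 = true := ex3_c t486_B00pm_011_s3 k276_B00pm_011_s3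

theorem t488_B00pm_011_s3 : ∃ t, chk3 f_B00pm_011_s3 t 116 125 2 = true := ex3_b t487_B00pm_011_s3 t484_B00pm_011_s3

theorem t489_B00pm_011_s3 : ∃ t, chk3 f_B00pm_011_s3 t 58 125 2 = true := ex3_a t488_B00pm_011_s3 t480_B00pm_011_s3

theorem t490_B00pm_011_s3 : ∃ t, chk3 f_B00pm_011_s3 t 235 249 9 = true := ex3_b k270_B00pm_011_s3 k271_B00pm_011_s3

theorem t491_B00pm_011_s3 : ∃ t, chk3 f_B00pm_011_s3 t 235 124 9 = true := ex3_b k269_B00pm_011_s3 t490_B00pm_011_s3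

theorem t492_B00pm_011_s3 : ∃ t, chk3 f_B00pm_011_s3 t 117 124 9 = true := ex3_a k268_B00pm_011_s3 t491_B00pm_011_s3

theorem t493_B00pm_011_s3 : ∃ t, chk3 f_B00pm_011_s3 t 235 499 17 = true := ex3_c k266_B00pm_011_s3 k267_B00pm_011_s3

theorem t494_B00pm_011_s3 : ∃ t, chk3 f_B00pm_011_s3 t 235 249 17 = true := ex3_b k265_B00pm_011_s3 t493_B00pm_011_s3

theorem t495_B00pm_011_s3 : ∃ t, chk3 f_B00pm_011_s3 t 235 124 17 = true := ex3_b k264_B00pm_011_s3 t494_B00pm_011_s3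

theorem t496_B00pm_011_s3 : ∃ t, chk3 f_B00pm_011_s3 t 235 124 8 = true := ex3_c k263_B00pm_011_s3 t495_B00pm_011_s3

theorem t497_B00pm_011_s3 : ∃ t, chk3 f_B00pm_011_s3 t 234 499 8 = true := ex3_c k261_B00pm_011_s3 k262_B00pm_011_s3

theorem t498_B00pm_011_s3 : ∃ t, chk3 f_B00pm_011_s3 t 234 997 8 = true := ex3_c k259_B00pm_011_s3 k260_B00pm_011_s3

theorem t499_B00pm_011_s3 : ∃ t, chk3 f_B00pm_011_s3 t 234 498 8 = true := ex3_b k258_B00pm_011_s3 t498_B00pm_011_s3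

theorem t500_B00pm_011_s3 : ∃ t, chk3 f_B00pm_011_s3 t 234 249 8 = true := ex3_b t499_B00pm_011_s3 t497_B00pm_011_s3

theorem t501_B00pm_011_s3 : ∃ t, chk3 f_B00pm_011_s3 t 234 124 8 = true := ex3_b k257_B00pm_011_s3 t500_B00pm_011_s3

theorem t502_B00pm_011_s3 : ∃ t, chk3 f_B00pm_011_s3 t 117 124 8 = true := ex3_a t501_B00pm_011_s3 t496_B00pm_011_s3

theorem t503_B00pm_011_s3 : ∃ t, chk3 f_B00pm_011_s3 t 117 124 4 = true := ex3_c t502_B00pm_011_s3 t492_B00pm_011_s3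

theorem t504_B00pm_011_s3 : ∃ t, chk3 f_B00pm_011_s3 t 117 124 2 = true := ex3_c t503_B00pm_011_s3 k272_B00pm_011_s3

theorem t505_B00pm_011_s3 : ∃ t, chk3 f_B00pm_011_s3 t 233 499 8 = true := ex3_a k253_B00pm_011_s3 k254_B00pm_011_s3

theorem t506_B00pm_011_s3 : ∃ t, chk3 f_B00pm_011_s3 t 116 499 8 = true := ex3_a k252_B00pm_011_s3 t505_B00pm_011_s3

theorem t507_B00pm_011_s3 : ∃ t, chk3 f_B00pm_011_s3 t 116 499 4 = true := ex3_c t506_B00pm_011_s3 k255_B00pm_011_s3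

theorem t508_B00pm_011_s3 : ∃ t, chk3 f_B00pm_011_s3 t 116 499 2 = true := ex3_c t507_B00pm_011_s3 k256_B00pm_011_s3

theorem t509_B00pm_011_s3 : ∃ t, chk3 f_B00pm_011_s3 t 467 498 16 = true := ex3_b k247_B00pm_011_s3 k248_B00pm_011_s3

theorem t510_B00pm_011_s3 : ∃ t, chk3 f_B00pm_011_s3 t 233 498 16 = true := ex3_a k246_B00pm_011_s3 t509_B00pm_011_s3

theorem t511_B00pm_011_s3 : ∃ t, chk3 f_B00pm_011_s3 t 233 498 8 = true := ex3_c t510_B00pm_011_s3 k249_B00pm_011_s3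

theorem t512_B00pm_011_s3 : ∃ t, chk3 f_B00pm_011_s3 t 233 498 4 = true := ex3_c t511_B00pm_011_s3 k250_B00pm_011_s3

theorem t513_B00pm_011_s3 : ∃ t, chk3 f_B00pm_011_s3 t 233 498 2 = true := ex3_c t512_B00pm_011_s3 k251_B00pm_011_s3

theorem t514_B00pm_011_s3 : ∃ t, chk3 f_B00pm_011_s3 t 232 498 16 = true := ex3_a k241_B00pm_011_s3 k242_B00pm_011_s3

theorem t515_B00pm_011_s3 : ∃ t, chk3 f_B00pm_011_s3 t 232 498 8 = true := ex3_c t514_B00pm_011_s3 k243_B00pm_011_s3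

theorem t516_B00pm_011_s3 : ∃ t, chk3 f_B00pm_011_s3 t 232 498 4 = true := ex3_c t515_B00pm_011_s3 k244_B00pm_011_s3

theorem t517_B00pm_011_s3 : ∃ t, chk3 f_B00pm_011_s3 t 232 498 2 = true := ex3_c t516_B00pm_011_s3 k245_B00pm_011_s3

theorem t518_B00pm_011_s3 : ∃ t, chk3 f_B00pm_011_s3 t 116 498 2 = true := ex3_a t517_B00pm_011_s3 t513_B00pm_011_s3

theorem t519_B00pm_011_s3 : ∃ t, chk3 f_B00pm_011_s3 t 116 249 2 = true := ex3_b t518_B00pm_011_s3 t508_B00pm_011_s3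

theorem t520_B00pm_011_s3 : ∃ t, chk3 f_B00pm_011_s3 t 466 995 4 = true := ex3_c k237_B00pm_011_s3 k238_B00pm_011_s3

theorem t521_B00pm_011_s3 : ∃ t, chk3 f_B00pm_011_s3 t 233 995 4 = true := ex3_a t520_B00pm_011_s3 k239_B00pm_011_s3

theorem t522_B00pm_011_s3 : ∃ t, chk3 f_B00pm_011_s3 t 233 497 4 = true := ex3_b k236_B00pm_011_s3 t521_B00pm_011_s3

theorem t523_B00pm_011_s3 : ∃ t, chk3 f_B00pm_011_s3 t 465 497 16 = true := ex3_b k232_B00pm_011_s3 k233_B00pm_011_s3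

theorem t524_B00pm_011_s3 : ∃ t, chk3 f_B00pm_011_s3 t 464 497 16 = true := ex3_c k230_B00pm_011_s3 k231_B00pm_011_s3

theorem t525_B00pm_011_s3 : ∃ t, chk3 f_B00pm_011_s3 t 232 497 16 = true := ex3_a t524_B00pm_011_s3 t523_B00pm_011_s3

theorem t526_B00pm_011_s3 : ∃ t, chk3 f_B00pm_011_s3 t 232 497 8 = true := ex3_c t525_B00pm_011_s3 k234_B00pm_011_s3

theorem t527_B00pm_011_s3 : ∃ t, chk3 f_B00pm_011_s3 t 232 497 4 = true := ex3_c t526_B00pm_011_s3 k235_B00pm_011_s3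

theorem t528_B00pm_011_s3 : ∃ t, chk3 f_B00pm_011_s3 t 116 497 4 = true := ex3_a t527_B00pm_011_s3 t522_B00pm_011_s3

theorem t529_B00pm_011_s3 : ∃ t, chk3 f_B00pm_011_s3 t 116 496 8 = true := ex3_b k227_B00pm_011_s3 k228_B00pm_011_s3

theorem t530_B00pm_011_s3 : ∃ t, chk3 f_B00pm_011_s3 t 116 496 4 = true := ex3_c t529_B00pm_011_s3 k229_B00pm_011_s3

theorem t531_B00pm_011_s3 : ∃ t, chk3 f_B00pm_011_s3 t 116 248 4 = true := ex3_b t530_B00pm_011_s3 t528_B00pm_011_s3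

theorem t532_B00pm_011_s3 : ∃ t, chk3 f_B00pm_011_s3 t 116 248 2 = true := ex3_c t531_B00pm_011_s3 k240_B00pm_011_s3

theorem t533_B00pm_011_s3 : ∃ t, chk3 f_B00pm_011_s3 t 116 124 2 = true := ex3_b t532_B00pm_011_s3 t519_B00pm_011_s3

theorem t534_B00pm_011_s3 : ∃ t, chk3 f_B00pm_011_s3 t 58 124 2 = true := ex3_a t533_B00pm_011_s3 t504_B00pm_011_s3

theorem t535_B00pm_011_s3 : ∃ t, chk3 f_B00pm_011_s3 t 58 62 2 = true := ex3_b t534_B00pm_011_s3 t489_B00pm_011_s3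

theorem t536_B00pm_011_s3 : ∃ t, chk3 f_B00pm_011_s3 t 29 62 2 = true := ex3_a t535_B00pm_011_s3 t470_B00pm_011_s3

theorem t537_B00pm_011_s3 : ∃ t, chk3 f_B00pm_011_s3 t 29 31 2 = true := ex3_b t536_B00pm_011_s3 t430_B00pm_011_s3

theorem t538_B00pm_011_s3 : ∃ t, chk3 f_B00pm_011_s3 t 29 31 1 = true := ex3_c t537_B00pm_011_s3 t412_B00pm_011_s3

theorem t539_B00pm_011_s3 : ∃ t, chk3 f_B00pm_011_s3 t 29 15 1 = true := ex3_b k226_B00pm_011_s3 t538_B00pm_011_s3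

theorem t540_B00pm_011_s3 : ∃ t, chk3 f_B00pm_011_s3 t 57 127 3 = true := ex3_b k224_B00pm_011_s3 k225_B00pm_011_s3

theorem t541_B00pm_011_s3 : ∃ t, chk3 f_B00pm_011_s3 t 56 127 3 = true := ex3_b k222_B00pm_011_s3 k223_B00pm_011_s3

theorem t542_B00pm_011_s3 : ∃ t, chk3 f_B00pm_011_s3 t 28 127 3 = true := ex3_a t541_B00pm_011_s3 t540_B00pm_011_s3

theorem t543_B00pm_011_s3 : ∃ t, chk3 f_B00pm_011_s3 t 115 255 4 = true := ex3_b k219_B00pm_011_s3 k220_B00pm_011_s3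

theorem t544_B00pm_011_s3 : ∃ t, chk3 f_B00pm_011_s3 t 57 255 4 = true := ex3_a k218_B00pm_011_s3 t543_B00pm_011_s3

theorem t545_B00pm_011_s3 : ∃ t, chk3 f_B00pm_011_s3 t 57 254 4 = true := ex3_b k216_B00pm_011_s3 k217_B00pm_011_s3

theorem t546_B00pm_011_s3 : ∃ t, chk3 f_B00pm_011_s3 t 57 127 4 = true := ex3_b t545_B00pm_011_s3 t544_B00pm_011_s3

theorem t547_B00pm_011_s3 : ∃ t, chk3 f_B00pm_011_s3 t 57 127 2 = true := ex3_c t546_B00pm_011_s3 k221_B00pm_011_s3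

theorem t548_B00pm_011_s3 : ∃ t, chk3 f_B00pm_011_s3 t 56 127 2 = true := ex3_c k214_B00pm_011_s3 k215_B00pm_011_s3

theorem t549_B00pm_011_s3 : ∃ t, chk3 f_B00pm_011_s3 t 28 127 2 = true := ex3_a t548_B00pm_011_s3 t547_B00pm_011_s3

theorem t550_B00pm_011_s3 : ∃ t, chk3 f_B00pm_011_s3 t 28 127 1 = true := ex3_c t549_B00pm_011_s3 t542_B00pm_011_s3

theorem t551_B00pm_011_s3 : ∃ t, chk3 f_B00pm_011_s3 t 57 126 2 = true := ex3_b k211_B00pm_011_s3 k212_B00pm_011_s3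

theorem t552_B00pm_011_s3 : ∃ t, chk3 f_B00pm_011_s3 t 28 126 2 = true := ex3_a k210_B00pm_011_s3 t551_B00pm_011_s3

theorem t553_B00pm_011_s3 : ∃ t, chk3 f_B00pm_011_s3 t 28 126 1 = true := ex3_c t552_B00pm_011_s3 k213_B00pm_011_s3

theorem t554_B00pm_011_s3 : ∃ t, chk3 f_B00pm_011_s3 t 28 63 1 = true := ex3_b t553_B00pm_011_s3 t550_B00pm_011_s3

theorem t555_B00pm_011_s3 : ∃ t, chk3 f_B00pm_011_s3 t 57 125 3 = true := ex3_a k208_B00pm_011_s3 k209_B00pm_011_s3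

theorem t556_B00pm_011_s3 : ∃ t, chk3 f_B00pm_011_s3 t 57 62 3 = true := ex3_b k207_B00pm_011_s3 t555_B00pm_011_s3

theorem t557_B00pm_011_s3 : ∃ t, chk3 f_B00pm_011_s3 t 56 62 3 = true := ex3_b k205_B00pm_011_s3 k206_B00pm_011_s3

theorem t558_B00pm_011_s3 : ∃ t, chk3 f_B00pm_011_s3 t 28 62 3 = true := ex3_a t557_B00pm_011_s3 t556_B00pm_011_s3

theorem t559_B00pm_011_s3 : ∃ t, chk3 f_B00pm_011_s3 t 115 502 8 = true := ex3_a k200_B00pm_011_s3 k201_B00pm_011_s3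

theorem t560_B00pm_011_s3 : ∃ t, chk3 f_B00pm_011_s3 t 115 251 8 = true := ex3_b t559_B00pm_011_s3 k202_B00pm_011_s3

theorem t561_B00pm_011_s3 : ∃ t, chk3 f_B00pm_011_s3 t 115 251 4 = true := ex3_c t560_B00pm_011_s3 k203_B00pm_011_s3

theorem t562_B00pm_011_s3 : ∃ t, chk3 f_B00pm_011_s3 t 230 1003 16 = true := ex3_a k195_B00pm_011_s3 k196_B00pm_011_s3

theorem t563_B00pm_011_s3 : ∃ t, chk3 f_B00pm_011_s3 t 230 1003 8 = true := ex3_c t562_B00pm_011_s3 k197_B00pm_011_s3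

theorem t564_B00pm_011_s3 : ∃ t, chk3 f_B00pm_011_s3 t 230 501 8 = true := ex3_b k194_B00pm_011_s3 t563_B00pm_011_s3

theorem t565_B00pm_011_s3 : ∃ t, chk3 f_B00pm_011_s3 t 230 250 8 = true := ex3_b k193_B00pm_011_s3 t564_B00pm_011_s3

theorem t566_B00pm_011_s3 : ∃ t, chk3 f_B00pm_011_s3 t 230 250 4 = true := ex3_c t565_B00pm_011_s3 k198_B00pm_011_s3

theorem t567_B00pm_011_s3 : ∃ t, chk3 f_B00pm_011_s3 t 115 250 4 = true := ex3_a t566_B00pm_011_s3 k199_B00pm_011_s3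

theorem t568_B00pm_011_s3 : ∃ t, chk3 f_B00pm_011_s3 t 115 125 4 = true := ex3_b t567_B00pm_011_s3 t561_B00pm_011_s3

theorem t569_B00pm_011_s3 : ∃ t, chk3 f_B00pm_011_s3 t 115 125 2 = true := ex3_c t568_B00pm_011_s3 k204_B00pm_011_s3

theorem t570_B00pm_011_s3 : ∃ t, chk3 f_B00pm_011_s3 t 114 250 4 = true := ex3_b k189_B00pm_011_s3 k190_B00pm_011_s3

theorem t571_B00pm_011_s3 : ∃ t, chk3 f_B00pm_011_s3 t 114 125 4 = true := ex3_b t570_B00pm_011_s3 k191_B00pm_011_s3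

theorem t572_B00pm_011_s3 : ∃ t, chk3 f_B00pm_011_s3 t 114 125 2 = true := ex3_c t571_B00pm_011_s3 k192_B00pm_011_s3

theorem t573_B00pm_011_s3 : ∃ t, chk3 f_B00pm_011_s3 t 57 125 2 = true := ex3_a t572_B00pm_011_s3 t569_B00pm_011_s3

theorem t574_B00pm_011_s3 : ∃ t, chk3 f_B00pm_011_s3 t 231 249 16 = true := ex3_b k184_B00pm_011_s3 k185_B00pm_011_s3

theorem t575_B00pm_011_s3 : ∃ t, chk3 f_B00pm_011_s3 t 231 249 8 = true := ex3_c t574_B00pm_011_s3 k186_B00pm_011_s3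

theorem t576_B00pm_011_s3 : ∃ t, chk3 f_B00pm_011_s3 t 230 498 8 = true := ex3_b k181_B00pm_011_s3 k182_B00pm_011_s3

theorem t577_B00pm_011_s3 : ∃ t, chk3 f_B00pm_011_s3 t 230 249 8 = true := ex3_b t576_B00pm_011_s3 k183_B00pm_011_s3

theorem t578_B00pm_011_s3 : ∃ t, chk3 f_B00pm_011_s3 t 115 249 8 = true := ex3_a t577_B00pm_011_s3 t575_B00pm_011_s3

theorem t579_B00pm_011_s3 : ∃ t, chk3 f_B00pm_011_s3 t 115 249 4 = true := ex3_c t578_B00pm_011_s3 k187_B00pm_011_s3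

theorem t580_B00pm_011_s3 : ∃ t, chk3 f_B00pm_011_s3 t 115 249 2 = true := ex3_c t579_B00pm_011_s3 k188_B00pm_011_s3

theorem t581_B00pm_011_s3 : ∃ t, chk3 f_B00pm_011_s3 t 57 249 2 = true := ex3_a k180_B00pm_011_s3 t580_B00pm_011_s3

theorem t582_B00pm_011_s3 : ∃ t, chk3 f_B00pm_011_s3 t 463 497 32 = true := ex3_b k174_B00pm_011_s3 k175_B00pm_011_s3

theorem t583_B00pm_011_s3 : ∃ t, chk3 f_B00pm_011_s3 t 463 497 16 = true := ex3_c t582_B00pm_011_s3 k176_B00pm_011_s3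

theorem t584_B00pm_011_s3 : ∃ t, chk3 f_B00pm_011_s3 t 231 497 16 = true := ex3_a k173_B00pm_011_s3 t583_B00pm_011_s3

theorem t585_B00pm_011_s3 : ∃ t, chk3 f_B00pm_011_s3 t 231 497 8 = true := ex3_c t584_B00pm_011_s3 k177_B00pm_011_s3

theorem t586_B00pm_011_s3 : ∃ t, chk3 f_B00pm_011_s3 t 460 497 32 = true := ex3_a k168_B00pm_011_s3 k169_B00pm_011_s3

theorem t587_B00pm_011_s3 : ∃ t, chk3 f_B00pm_011_s3 t 460 497 16 = true := ex3_c t586_B00pm_011_s3 k170_B00pm_011_s3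

theorem t588_B00pm_011_s3 : ∃ t, chk3 f_B00pm_011_s3 t 230 497 16 = true := ex3_a t587_B00pm_011_s3 k171_B00pm_011_s3

theorem t589_B00pm_011_s3 : ∃ t, chk3 f_B00pm_011_s3 t 230 497 8 = true := ex3_c t588_B00pm_011_s3 k172_B00pm_011_s3

theorem t590_B00pm_011_s3 : ∃ t, chk3 f_B00pm_011_s3 t 115 497 8 = true := ex3_a t589_B00pm_011_s3 t585_B00pm_011_s3

theorem t591_B00pm_011_s3 : ∃ t, chk3 f_B00pm_011_s3 t 115 497 4 = true := ex3_c t590_B00pm_011_s3 k178_B00pm_011_s3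

theorem t592_B00pm_011_s3 : ∃ t, chk3 f_B00pm_011_s3 t 115 497 2 = true := ex3_c t591_B00pm_011_s3 k179_B00pm_011_s3

theorem t593_B00pm_011_s3 : ∃ t, chk3 f_B00pm_011_s3 t 115 496 2 = true := ex3_a k166_B00pm_011_s3 k167_B00pm_011_s3

theorem t594_B00pm_011_s3 : ∃ t, chk3 f_B00pm_011_s3 t 115 248 2 = true := ex3_b t593_B00pm_011_s3 t592_B00pm_011_s3

theorem t595_B00pm_011_s3 : ∃ t, chk3 f_B00pm_011_s3 t 114 248 4 = true := ex3_b k163_B00pm_011_s3 k164_B00pm_011_s3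

theorem t596_B00pm_011_s3 : ∃ t, chk3 f_B00pm_011_s3 t 114 248 2 = true := ex3_c t595_B00pm_011_s3 k165_B00pm_011_s3

theorem t597_B00pm_011_s3 : ∃ t, chk3 f_B00pm_011_s3 t 57 248 2 = true := ex3_a t596_B00pm_011_s3 t594_B00pm_011_s3

theorem t598_B00pm_011_s3 : ∃ t, chk3 f_B00pm_011_s3 t 57 124 2 = true := ex3_b t597_B00pm_011_s3 t581_B00pm_011_s3

theorem t599_B00pm_011_s3 : ∃ t, chk3 f_B00pm_011_s3 t 57 62 2 = true := ex3_b t598_B00pm_011_s3 t573_B00pm_011_s3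

theorem t600_B00pm_011_s3 : ∃ t, chk3 f_B00pm_011_s3 t 56 125 2 = true := ex3_a k161_B00pm_011_s3 k162_B00pm_011_s3

theorem t601_B00pm_011_s3 : ∃ t, chk3 f_B00pm_011_s3 t 56 124 2 = true := ex3_b k159_B00pm_011_s3 k160_B00pm_011_s3

theorem t602_B00pm_011_s3 : ∃ t, chk3 f_B00pm_011_s3 t 56 62 2 = true := ex3_b t601_B00pm_011_s3 t600_B00pm_011_s3

theorem t603_B00pm_011_s3 : ∃ t, chk3 f_B00pm_011_s3 t 28 62 2 = true := ex3_a t602_B00pm_011_s3 t599_B00pm_011_s3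

theorem t604_B00pm_011_s3 : ∃ t, chk3 f_B00pm_011_s3 t 28 62 1 = true := ex3_c t603_B00pm_011_s3 t558_B00pm_011_s3

theorem t605_B00pm_011_s3 : ∃ t, chk3 f_B00pm_011_s3 t 28 31 1 = true := ex3_b t604_B00pm_011_s3 t554_B00pm_011_s3

theorem t606_B00pm_011_s3 : ∃ t, chk3 f_B00pm_011_s3 t 115 247 8 = true := ex3_a k154_B00pm_011_s3 k155_B00pm_011_s3

theorem t607_B00pm_011_s3 : ∃ t, chk3 f_B00pm_011_s3 t 115 247 4 = true := ex3_c t606_B00pm_011_s3 k156_B00pm_011_s3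

theorem t608_B00pm_011_s3 : ∃ t, chk3 f_B00pm_011_s3 t 115 123 4 = true := ex3_b k153_B00pm_011_s3 t607_B00pm_011_s3

theorem t609_B00pm_011_s3 : ∃ t, chk3 f_B00pm_011_s3 t 115 61 4 = true := ex3_b k152_B00pm_011_s3 t608_B00pm_011_s3

theorem t610_B00pm_011_s3 : ∃ t, chk3 f_B00pm_011_s3 t 115 61 2 = true := ex3_c t609_B00pm_011_s3 k157_B00pm_011_s3

theorem t611_B00pm_011_s3 : ∃ t, chk3 f_B00pm_011_s3 t 114 247 2 = true := ex3_b k150_B00pm_011_s3 k151_B00pm_011_s3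

theorem t612_B00pm_011_s3 : ∃ t, chk3 f_B00pm_011_s3 t 114 123 2 = true := ex3_b k149_B00pm_011_s3 t611_B00pm_011_s3

theorem t613_B00pm_011_s3 : ∃ t, chk3 f_B00pm_011_s3 t 114 61 2 = true := ex3_b k148_B00pm_011_s3 t612_B00pm_011_s3

theorem t614_B00pm_011_s3 : ∃ t, chk3 f_B00pm_011_s3 t 57 61 2 = true := ex3_a t613_B00pm_011_s3 t610_B00pm_011_s3

theorem t615_B00pm_011_s3 : ∃ t, chk3 f_B00pm_011_s3 t 57 61 1 = true := ex3_c t614_B00pm_011_s3 k158_B00pm_011_s3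

theorem t616_B00pm_011_s3 : ∃ t, chk3 f_B00pm_011_s3 t 56 123 2 = true := ex3_c k145_B00pm_011_s3 k146_B00pm_011_s3

theorem t617_B00pm_011_s3 : ∃ t, chk3 f_B00pm_011_s3 t 56 61 2 = true := ex3_b k144_B00pm_011_s3 t616_B00pm_011_s3

theorem t618_B00pm_011_s3 : ∃ t, chk3 f_B00pm_011_s3 t 56 61 1 = true := ex3_c t617_B00pm_011_s3 k147_B00pm_011_s3

theorem t619_B00pm_011_s3 : ∃ t, chk3 f_B00pm_011_s3 t 28 61 1 = true := ex3_a t618_B00pm_011_s3 t615_B00pm_011_s3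

theorem t620_B00pm_011_s3 : ∃ t, chk3 f_B00pm_011_s3 t 28 30 1 = true := ex3_b k143_B00pm_011_s3 t619_B00pm_011_s3

theorem t621_B00pm_011_s3 : ∃ t, chk3 f_B00pm_011_s3 t 28 15 1 = true := ex3_b t620_B00pm_011_s3 t605_B00pm_011_s3

theorem t622_B00pm_011_s3 : ∃ t, chk3 f_B00pm_011_s3 t 14 15 1 = true := ex3_a t621_B00pm_011_s3 t539_B00pm_011_s3

theorem t623_B00pm_011_s3 : ∃ t, chk3 f_B00pm_011_s3 t 14 7 1 = true := ex3_b k142_B00pm_011_s3 t622_B00pm_011_s3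

theorem t624_B00pm_011_s3 : ∃ t, chk3 f_B00pm_011_s3 t 7 7 1 = true := ex3_a t623_B00pm_011_s3 t397_B00pm_011_s3

theorem t625_B00pm_011_s3 : ∃ t, chk3 f_B00pm_011_s3 t 7 3 1 = true := ex3_b k141_B00pm_011_s3 t624_B00pm_011_s3

theorem t626_B00pm_011_s3 : ∃ t, chk3 f_B00pm_011_s3 t 55 511 3 = true := ex3_c k139_B00pm_011_s3 k140_B00pm_011_s3

theorem t627_B00pm_011_s3 : ∃ t, chk3 f_B00pm_011_s3 t 55 255 3 = true := ex3_b k138_B00pm_011_s3 t626_B00pm_011_s3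

theorem t628_B00pm_011_s3 : ∃ t, chk3 f_B00pm_011_s3 t 55 255 1 = true := ex3_c k137_B00pm_011_s3 t627_B00pm_011_s3

theorem t629_B00pm_011_s3 : ∃ t, chk3 f_B00pm_011_s3 t 55 127 1 = true := ex3_b k136_B00pm_011_s3 t628_B00pm_011_s3

theorem t630_B00pm_011_s3 : ∃ t, chk3 f_B00pm_011_s3 t 217 1023 7 = true := ex3_a k133_B00pm_011_s3 k134_B00pm_011_s3

theorem t631_B00pm_011_s3 : ∃ t, chk3 f_B00pm_011_s3 t 108 1023 7 = true := ex3_a k132_B00pm_011_s3 t630_B00pm_011_s3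

theorem t632_B00pm_011_s3 : ∃ t, chk3 f_B00pm_011_s3 t 108 511 7 = true := ex3_b k131_B00pm_011_s3 t631_B00pm_011_s3

theorem t633_B00pm_011_s3 : ∃ t, chk3 f_B00pm_011_s3 t 108 255 7 = true := ex3_b k130_B00pm_011_s3 t632_B00pm_011_s3

theorem t634_B00pm_011_s3 : ∃ t, chk3 f_B00pm_011_s3 t 108 255 3 = true := ex3_c k129_B00pm_011_s3 t633_B00pm_011_s3

theorem t635_B00pm_011_s3 : ∃ t, chk3 f_B00pm_011_s3 t 54 255 3 = true := ex3_a t634_B00pm_011_s3 k135_B00pm_011_s3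

theorem t636_B00pm_011_s3 : ∃ t, chk3 f_B00pm_011_s3 t 54 254 3 = true := ex3_a k127_B00pm_011_s3 k128_B00pm_011_s3

theorem t637_B00pm_011_s3 : ∃ t, chk3 f_B00pm_011_s3 t 54 127 3 = true := ex3_b t636_B00pm_011_s3 t635_B00pm_011_s3

theorem t638_B00pm_011_s3 : ∃ t, chk3 f_B00pm_011_s3 t 108 127 2 = true := ex3_b k124_B00pm_011_s3 k125_B00pm_011_s3

theorem t639_B00pm_011_s3 : ∃ t, chk3 f_B00pm_011_s3 t 54 127 2 = true := ex3_a t638_B00pm_011_s3 k126_B00pm_011_s3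

theorem t640_B00pm_011_s3 : ∃ t, chk3 f_B00pm_011_s3 t 54 127 1 = true := ex3_c t639_B00pm_011_s3 t637_B00pm_011_s3

theorem t641_B00pm_011_s3 : ∃ t, chk3 f_B00pm_011_s3 t 27 127 1 = true := ex3_a t640_B00pm_011_s3 t629_B00pm_011_s3

theorem t642_B00pm_011_s3 : ∃ t, chk3 f_B00pm_011_s3 t 27 126 1 = true := ex3_a k122_B00pm_011_s3 k123_B00pm_011_s3

theorem t643_B00pm_011_s3 : ∃ t, chk3 f_B00pm_011_s3 t 27 63 1 = true := ex3_b t642_B00pm_011_s3 t641_B00pm_011_s3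

theorem t644_B00pm_011_s3 : ∃ t, chk3 f_B00pm_011_s3 t 26 1023 7 = true := ex3_a k120_B00pm_011_s3 k121_B00pm_011_s3

theorem t645_B00pm_011_s3 : ∃ t, chk3 f_B00pm_011_s3 t 26 511 7 = true := ex3_b k119_B00pm_011_s3 t644_B00pm_011_s3

theorem t646_B00pm_011_s3 : ∃ t, chk3 f_B00pm_011_s3 t 26 511 3 = true := ex3_c k118_B00pm_011_s3 t645_B00pm_011_s3

theorem t647_B00pm_011_s3 : ∃ t, chk3 f_B00pm_011_s3 t 26 255 3 = true := ex3_b k117_B00pm_011_s3 t646_B00pm_011_s3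

theorem t648_B00pm_011_s3 : ∃ t, chk3 f_B00pm_011_s3 t 26 127 3 = true := ex3_b k116_B00pm_011_s3 t647_B00pm_011_s3

theorem t649_B00pm_011_s3 : ∃ t, chk3 f_B00pm_011_s3 t 26 127 1 = true := ex3_c k115_B00pm_011_s3 t648_B00pm_011_s3

theorem t650_B00pm_011_s3 : ∃ t, chk3 f_B00pm_011_s3 t 26 126 3 = true := ex3_b k113_B00pm_011_s3 k114_B00pm_011_s3

theorem t651_B00pm_011_s3 : ∃ t, chk3 f_B00pm_011_s3 t 26 126 1 = true := ex3_c k112_B00pm_011_s3 t650_B00pm_011_s3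

theorem t652_B00pm_011_s3 : ∃ t, chk3 f_B00pm_011_s3 t 26 63 1 = true := ex3_b t651_B00pm_011_s3 t649_B00pm_011_s3

theorem t653_B00pm_011_s3 : ∃ t, chk3 f_B00pm_011_s3 t 13 63 1 = true := ex3_a t652_B00pm_011_s3 t643_B00pm_011_s3

theorem t654_B00pm_011_s3 : ∃ t, chk3 f_B00pm_011_s3 t 27 125 1 = true := ex3_a k110_B00pm_011_s3 k111_B00pm_011_s3

theorem t655_B00pm_011_s3 : ∃ t, chk3 f_B00pm_011_s3 t 55 249 1 = true := ex3_c k108_B00pm_011_s3 k109_B00pm_011_s3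

theorem t656_B00pm_011_s3 : ∃ t, chk3 f_B00pm_011_s3 t 55 124 1 = true := ex3_b k107_B00pm_011_s3 t655_B00pm_011_s3

theorem t657_B00pm_011_s3 : ∃ t, chk3 f_B00pm_011_s3 t 109 124 1 = true := ex3_b k105_B00pm_011_s3 k106_B00pm_011_s3

theorem t658_B00pm_011_s3 : ∃ t, chk3 f_B00pm_011_s3 t 108 124 1 = true := ex3_a k103_B00pm_011_s3 k104_B00pm_011_s3

theorem t659_B00pm_011_s3 : ∃ t, chk3 f_B00pm_011_s3 t 54 124 1 = true := ex3_a t658_B00pm_011_s3 t657_B00pm_011_s3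

theorem t660_B00pm_011_s3 : ∃ t, chk3 f_B00pm_011_s3 t 27 124 1 = true := ex3_a t659_B00pm_011_s3 t656_B00pm_011_s3

theorem t661_B00pm_011_s3 : ∃ t, chk3 f_B00pm_011_s3 t 27 62 1 = true := ex3_b t660_B00pm_011_s3 t654_B00pm_011_s3

theorem t662_B00pm_011_s3 : ∃ t, chk3 f_B00pm_011_s3 t 26 124 1 = true := ex3_b k100_B00pm_011_s3 k101_B00pm_011_s3

theorem t663_B00pm_011_s3 : ∃ t, chk3 f_B00pm_011_s3 t 26 62 1 = true := ex3_b t662_B00pm_011_s3 k102_B00pm_011_s3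

theorem t664_B00pm_011_s3 : ∃ t, chk3 f_B00pm_011_s3 t 13 62 1 = true := ex3_a t663_B00pm_011_s3 t661_B00pm_011_s3

theorem t665_B00pm_011_s3 : ∃ t, chk3 f_B00pm_011_s3 t 13 31 1 = true := ex3_b t664_B00pm_011_s3 t653_B00pm_011_s3

theorem t666_B00pm_011_s3 : ∃ t, chk3 f_B00pm_011_s3 t 55 123 1 = true := ex3_c k98_B00pm_011_s3 k99_B00pm_011_s3

theorem t667_B00pm_011_s3 : ∃ t, chk3 f_B00pm_011_s3 t 55 122 1 = true := ex3_a k96_B00pm_011_s3 k97_B00pm_011_s3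

theorem t668_B00pm_011_s3 : ∃ t, chk3 f_B00pm_011_s3 t 55 61 1 = true := ex3_b t667_B00pm_011_s3 t666_B00pm_011_s3

theorem t669_B00pm_011_s3 : ∃ t, chk3 f_B00pm_011_s3 t 54 123 1 = true := ex3_a k94_B00pm_011_s3 k95_B00pm_011_s3

theorem t670_B00pm_011_s3 : ∃ t, chk3 f_B00pm_011_s3 t 54 122 1 = true := ex3_a k92_B00pm_011_s3 k93_B00pm_011_s3

theorem t671_B00pm_011_s3 : ∃ t, chk3 f_B00pm_011_s3 t 54 61 1 = true := ex3_b t670_B00pm_011_s3 t669_B00pm_011_s3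

theorem t672_B00pm_011_s3 : ∃ t, chk3 f_B00pm_011_s3 t 27 61 1 = true := ex3_a t671_B00pm_011_s3 t668_B00pm_011_s3

theorem t673_B00pm_011_s3 : ∃ t, chk3 f_B00pm_011_s3 t 53 247 3 = true := ex3_a k90_B00pm_011_s3 k91_B00pm_011_s3

theorem t674_B00pm_011_s3 : ∃ t, chk3 f_B00pm_011_s3 t 53 247 1 = true := ex3_c k89_B00pm_011_s3 t673_B00pm_011_s3

theorem t675_B00pm_011_s3 : ∃ t, chk3 f_B00pm_011_s3 t 53 123 1 = true := ex3_b k88_B00pm_011_s3 t674_B00pm_011_s3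

theorem t676_B00pm_011_s3 : ∃ t, chk3 f_B00pm_011_s3 t 52 246 3 = true := ex3_a k85_B00pm_011_s3 k86_B00pm_011_s3

theorem t677_B00pm_011_s3 : ∃ t, chk3 f_B00pm_011_s3 t 52 246 1 = true := ex3_c k84_B00pm_011_s3 t676_B00pm_011_s3

theorem t678_B00pm_011_s3 : ∃ t, chk3 f_B00pm_011_s3 t 52 123 1 = true := ex3_b t677_B00pm_011_s3 k87_B00pm_011_s3

theorem t679_B00pm_011_s3 : ∃ t, chk3 f_B00pm_011_s3 t 26 123 1 = true := ex3_a t678_B00pm_011_s3 t675_B00pm_011_s3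

theorem t680_B00pm_011_s3 : ∃ t, chk3 f_B00pm_011_s3 t 52 122 1 = true := ex3_a k81_B00pm_011_s3 k82_B00pm_011_s3

theorem t681_B00pm_011_s3 : ∃ t, chk3 f_B00pm_011_s3 t 26 122 1 = true := ex3_a t680_B00pm_011_s3 k83_B00pm_011_s3

theorem t682_B00pm_011_s3 : ∃ t, chk3 f_B00pm_011_s3 t 26 61 1 = true := ex3_b t681_B00pm_011_s3 t679_B00pm_011_s3

theorem t683_B00pm_011_s3 : ∃ t, chk3 f_B00pm_011_s3 t 13 61 1 = true := ex3_a t682_B00pm_011_s3 t672_B00pm_011_s3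

theorem t684_B00pm_011_s3 : ∃ t, chk3 f_B00pm_011_s3 t 26 121 3 = true := ex3_a k78_B00pm_011_s3 k79_B00pm_011_s3

theorem t685_B00pm_011_s3 : ∃ t, chk3 f_B00pm_011_s3 t 13 121 3 = true := ex3_a t684_B00pm_011_s3 k80_B00pm_011_s3

theorem t686_B00pm_011_s3 : ∃ t, chk3 f_B00pm_011_s3 t 13 120 3 = true := ex3_a k76_B00pm_011_s3 k77_B00pm_011_s3

theorem t687_B00pm_011_s3 : ∃ t, chk3 f_B00pm_011_s3 t 13 60 3 = true := ex3_b t686_B00pm_011_s3 t685_B00pm_011_s3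

theorem t688_B00pm_011_s3 : ∃ t, chk3 f_B00pm_011_s3 t 13 60 5 = true := ex3_b k74_B00pm_011_s3 k75_B00pm_011_s3

theorem t689_B00pm_011_s3 : ∃ t, chk3 f_B00pm_011_s3 t 13 60 2 = true := ex3_c k73_B00pm_011_s3 t688_B00pm_011_s3

theorem t690_B00pm_011_s3 : ∃ t, chk3 f_B00pm_011_s3 t 13 60 1 = true := ex3_c t689_B00pm_011_s3 t687_B00pm_011_s3

theorem t691_B00pm_011_s3 : ∃ t, chk3 f_B00pm_011_s3 t 13 30 1 = true := ex3_b t690_B00pm_011_s3 t683_B00pm_011_s3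

theorem t692_B00pm_011_s3 : ∃ t, chk3 f_B00pm_011_s3 t 13 15 1 = true := ex3_b t691_B00pm_011_s3 t665_B00pm_011_s3

theorem t693_B00pm_011_s3 : ∃ t, chk3 f_B00pm_011_s3 t 25 127 1 = true := ex3_c k71_B00pm_011_s3 k72_B00pm_011_s3

theorem t694_B00pm_011_s3 : ∃ t, chk3 f_B00pm_011_s3 t 25 63 1 = true := ex3_b k70_B00pm_011_s3 t693_B00pm_011_s3

theorem t695_B00pm_011_s3 : ∃ t, chk3 f_B00pm_011_s3 t 25 62 1 = true := ex3_c k68_B00pm_011_s3 k69_B00pm_011_s3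

theorem t696_B00pm_011_s3 : ∃ t, chk3 f_B00pm_011_s3 t 25 31 1 = true := ex3_b t695_B00pm_011_s3 t694_B00pm_011_s3

theorem t697_B00pm_011_s3 : ∃ t, chk3 f_B00pm_011_s3 t 24 31 1 = true := ex3_b k66_B00pm_011_s3 k67_B00pm_011_s3

theorem t698_B00pm_011_s3 : ∃ t, chk3 f_B00pm_011_s3 t 12 31 1 = true := ex3_a t697_B00pm_011_s3 t696_B00pm_011_s3

theorem t699_B00pm_011_s3 : ∃ t, chk3 f_B00pm_011_s3 t 51 246 1 = true := ex3_c k63_B00pm_011_s3 k64_B00pm_011_s3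

theorem t700_B00pm_011_s3 : ∃ t, chk3 f_B00pm_011_s3 t 51 123 1 = true := ex3_b t699_B00pm_011_s3 k65_B00pm_011_s3

theorem t701_B00pm_011_s3 : ∃ t, chk3 f_B00pm_011_s3 t 25 123 1 = true := ex3_a k62_B00pm_011_s3 t700_B00pm_011_s3

theorem t702_B00pm_011_s3 : ∃ t, chk3 f_B00pm_011_s3 t 102 491 1 = true := ex3_b k59_B00pm_011_s3 k60_B00pm_011_s3

theorem t703_B00pm_011_s3 : ∃ t, chk3 f_B00pm_011_s3 t 102 245 1 = true := ex3_b k58_B00pm_011_s3 t702_B00pm_011_s3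

theorem t704_B00pm_011_s3 : ∃ t, chk3 f_B00pm_011_s3 t 51 245 1 = true := ex3_a t703_B00pm_011_s3 k61_B00pm_011_s3

theorem t705_B00pm_011_s3 : ∃ t, chk3 f_B00pm_011_s3 t 51 122 1 = true := ex3_b k57_B00pm_011_s3 t704_B00pm_011_s3

theorem t706_B00pm_011_s3 : ∃ t, chk3 f_B00pm_011_s3 t 101 490 1 = true := ex3_c k54_B00pm_011_s3 k55_B00pm_011_s3

theorem t707_B00pm_011_s3 : ∃ t, chk3 f_B00pm_011_s3 t 101 245 1 = true := ex3_b t706_B00pm_011_s3 k56_B00pm_011_s3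

theorem t708_B00pm_011_s3 : ∃ t, chk3 f_B00pm_011_s3 t 50 245 1 = true := ex3_a k53_B00pm_011_s3 t707_B00pm_011_s3

theorem t709_B00pm_011_s3 : ∃ t, chk3 f_B00pm_011_s3 t 100 244 1 = true := ex3_c k50_B00pm_011_s3 k51_B00pm_011_s3

theorem t710_B00pm_011_s3 : ∃ t, chk3 f_B00pm_011_s3 t 50 244 1 = true := ex3_a t709_B00pm_011_s3 k52_B00pm_011_s3

theorem t711_B00pm_011_s3 : ∃ t, chk3 f_B00pm_011_s3 t 50 122 1 = true := ex3_b t710_B00pm_011_s3 t708_B00pm_011_s3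

theorem t712_B00pm_011_s3 : ∃ t, chk3 f_B00pm_011_s3 t 25 122 1 = true := ex3_a t711_B00pm_011_s3 t705_B00pm_011_s3

theorem t713_B00pm_011_s3 : ∃ t, chk3 f_B00pm_011_s3 t 25 61 1 = true := ex3_b t712_B00pm_011_s3 t701_B00pm_011_s3

theorem t714_B00pm_011_s3 : ∃ t, chk3 f_B00pm_011_s3 t 51 60 1 = true := ex3_b k48_B00pm_011_s3 k49_B00pm_011_s3

theorem t715_B00pm_011_s3 : ∃ t, chk3 f_B00pm_011_s3 t 50 60 1 = true := ex3_b k46_B00pm_011_s3 k47_B00pm_011_s3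

theorem t716_B00pm_011_s3 : ∃ t, chk3 f_B00pm_011_s3 t 25 60 1 = true := ex3_a t715_B00pm_011_s3 t714_B00pm_011_s3

theorem t717_B00pm_011_s3 : ∃ t, chk3 f_B00pm_011_s3 t 25 30 1 = true := ex3_b t716_B00pm_011_s3 t713_B00pm_011_s3

theorem t718_B00pm_011_s3 : ∃ t, chk3 f_B00pm_011_s3 t 49 244 3 = true := ex3_a k42_B00pm_011_s3 k43_B00pm_011_s3

theorem t719_B00pm_011_s3 : ∃ t, chk3 f_B00pm_011_s3 t 49 244 2 = true := ex3_a k40_B00pm_011_s3 k41_B00pm_011_s3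

theorem t720_B00pm_011_s3 : ∃ t, chk3 f_B00pm_011_s3 t 49 244 1 = true := ex3_c t719_B00pm_011_s3 t718_B00pm_011_s3

theorem t721_B00pm_011_s3 : ∃ t, chk3 f_B00pm_011_s3 t 49 122 1 = true := ex3_b t720_B00pm_011_s3 k44_B00pm_011_s3

theorem t722_B00pm_011_s3 : ∃ t, chk3 f_B00pm_011_s3 t 49 61 1 = true := ex3_b t721_B00pm_011_s3 k45_B00pm_011_s3

theorem t723_B00pm_011_s3 : ∃ t, chk3 f_B00pm_011_s3 t 24 61 1 = true := ex3_a k39_B00pm_011_s3 t722_B00pm_011_s3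

theorem t724_B00pm_011_s3 : ∃ t, chk3 f_B00pm_011_s3 t 99 60 1 = true := ex3_a k37_B00pm_011_s3 k38_B00pm_011_s3

theorem t725_B00pm_011_s3 : ∃ t, chk3 f_B00pm_011_s3 t 49 60 1 = true := ex3_a k36_B00pm_011_s3 t724_B00pm_011_s3

theorem t726_B00pm_011_s3 : ∃ t, chk3 f_B00pm_011_s3 t 48 121 1 = true := ex3_b k34_B00pm_011_s3 k35_B00pm_011_s3

theorem t727_B00pm_011_s3 : ∃ t, chk3 f_B00pm_011_s3 t 48 60 1 = true := ex3_b k33_B00pm_011_s3 t726_B00pm_011_s3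

theorem t728_B00pm_011_s3 : ∃ t, chk3 f_B00pm_011_s3 t 24 60 1 = true := ex3_a t727_B00pm_011_s3 t725_B00pm_011_s3

theorem t729_B00pm_011_s3 : ∃ t, chk3 f_B00pm_011_s3 t 24 30 1 = true := ex3_b t728_B00pm_011_s3 t723_B00pm_011_s3

theorem t730_B00pm_011_s3 : ∃ t, chk3 f_B00pm_011_s3 t 12 30 1 = true := ex3_a t729_B00pm_011_s3 t717_B00pm_011_s3

theorem t731_B00pm_011_s3 : ∃ t, chk3 f_B00pm_011_s3 t 12 15 1 = true := ex3_b t730_B00pm_011_s3 t698_B00pm_011_s3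

theorem t732_B00pm_011_s3 : ∃ t, chk3 f_B00pm_011_s3 t 6 15 1 = true := ex3_a t731_B00pm_011_s3 t692_B00pm_011_s3

theorem t733_B00pm_011_s3 : ∃ t, chk3 f_B00pm_011_s3 t 51 59 1 = true := ex3_b k30_B00pm_011_s3 k31_B00pm_011_s3

theorem t734_B00pm_011_s3 : ∃ t, chk3 f_B00pm_011_s3 t 51 29 1 = true := ex3_b k29_B00pm_011_s3 t733_B00pm_011_s3

theorem t735_B00pm_011_s3 : ∃ t, chk3 f_B00pm_011_s3 t 50 29 2 = true := ex3_c k26_B00pm_011_s3 k27_B00pm_011_s3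

theorem t736_B00pm_011_s3 : ∃ t, chk3 f_B00pm_011_s3 t 50 29 1 = true := ex3_c t735_B00pm_011_s3 k28_B00pm_011_s3

theorem t737_B00pm_011_s3 : ∃ t, chk3 f_B00pm_011_s3 t 25 29 1 = true := ex3_a t736_B00pm_011_s3 t734_B00pm_011_s3

theorem t738_B00pm_011_s3 : ∃ t, chk3 f_B00pm_011_s3 t 24 119 1 = true := ex3_a k24_B00pm_011_s3 k25_B00pm_011_s3

theorem t739_B00pm_011_s3 : ∃ t, chk3 f_B00pm_011_s3 t 49 118 1 = true := ex3_c k22_B00pm_011_s3 k23_B00pm_011_s3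

theorem t740_B00pm_011_s3 : ∃ t, chk3 f_B00pm_011_s3 t 24 118 1 = true := ex3_a k21_B00pm_011_s3 t739_B00pm_011_s3

theorem t741_B00pm_011_s3 : ∃ t, chk3 f_B00pm_011_s3 t 24 59 1 = true := ex3_b t740_B00pm_011_s3 t738_B00pm_011_s3

theorem t742_B00pm_011_s3 : ∃ t, chk3 f_B00pm_011_s3 t 24 29 1 = true := ex3_b k20_B00pm_011_s3 t741_B00pm_011_s3

theorem t743_B00pm_011_s3 : ∃ t, chk3 f_B00pm_011_s3 t 12 29 1 = true := ex3_a t742_B00pm_011_s3 t737_B00pm_011_s3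

theorem t744_B00pm_011_s3 : ∃ t, chk3 f_B00pm_011_s3 t 6 29 1 = true := ex3_a t743_B00pm_011_s3 k32_B00pm_011_s3

theorem t745_B00pm_011_s3 : ∃ t, chk3 f_B00pm_011_s3 t 6 14 1 = true := ex3_b k19_B00pm_011_s3 t744_B00pm_011_s3

theorem t746_B00pm_011_s3 : ∃ t, chk3 f_B00pm_011_s3 t 6 7 1 = true := ex3_b t745_B00pm_011_s3 t732_B00pm_011_s3

theorem t747_B00pm_011_s3 : ∃ t, chk3 f_B00pm_011_s3 t 6 3 1 = true := ex3_b k18_B00pm_011_s3 t746_B00pm_011_s3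

theorem t748_B00pm_011_s3 : ∃ t, chk3 f_B00pm_011_s3 t 3 3 1 = true := ex3_a t747_B00pm_011_s3 t625_B00pm_011_s3

theorem t749_B00pm_011_s3 : ∃ t, chk3 f_B00pm_011_s3 t 3 1 1 = true := ex3_b k17_B00pm_011_s3 t748_B00pm_011_s3

theorem t750_B00pm_011_s3 : ∃ t, chk3 f_B00pm_011_s3 t 23 60 1 = true := ex3_b k13_B00pm_011_s3 k14_B00pm_011_s3

theorem t751_B00pm_011_s3 : ∃ t, chk3 f_B00pm_011_s3 t 11 60 1 = true := ex3_a k12_B00pm_011_s3 t750_B00pm_011_s3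

theorem t752_B00pm_011_s3 : ∃ t, chk3 f_B00pm_011_s3 t 11 30 1 = true := ex3_b t751_B00pm_011_s3 k15_B00pm_011_s3

theorem t753_B00pm_011_s3 : ∃ t, chk3 f_B00pm_011_s3 t 5 30 1 = true := ex3_a k11_B00pm_011_s3 t752_B00pm_011_s3

theorem t754_B00pm_011_s3 : ∃ t, chk3 f_B00pm_011_s3 t 5 15 1 = true := ex3_b t753_B00pm_011_s3 k16_B00pm_011_s3

theorem t755_B00pm_011_s3 : ∃ t, chk3 f_B00pm_011_s3 t 23 14 1 = true := ex3_b k9_B00pm_011_s3 k10_B00pm_011_s3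

theorem t756_B00pm_011_s3 : ∃ t, chk3 f_B00pm_011_s3 t 22 14 1 = true := ex3_b k7_B00pm_011_s3 k8_B00pm_011_s3

theorem t757_B00pm_011_s3 : ∃ t, chk3 f_B00pm_011_s3 t 11 14 1 = true := ex3_a t756_B00pm_011_s3 t755_B00pm_011_s3

theorem t758_B00pm_011_s3 : ∃ t, chk3 f_B00pm_011_s3 t 10 28 1 = true := ex3_a k4_B00pm_011_s3 k5_B00pm_011_s3

theorem t759_B00pm_011_s3 : ∃ t, chk3 f_B00pm_011_s3 t 10 14 1 = true := ex3_b t758_B00pm_011_s3 k6_B00pm_011_s3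

theorem t760_B00pm_011_s3 : ∃ t, chk3 f_B00pm_011_s3 t 5 14 1 = true := ex3_a t759_B00pm_011_s3 t757_B00pm_011_s3

theorem t761_B00pm_011_s3 : ∃ t, chk3 f_B00pm_011_s3 t 5 7 1 = true := ex3_b t760_B00pm_011_s3 t754_B00pm_011_s3

theorem t762_B00pm_011_s3 : ∃ t, chk3 f_B00pm_011_s3 t 2 7 1 = true := ex3_a k3_B00pm_011_s3 t761_B00pm_011_s3

theorem t763_B00pm_011_s3 : ∃ t, chk3 f_B00pm_011_s3 t 2 6 1 = true := ex3_b k1_B00pm_011_s3 k2_B00pm_011_s3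

theorem t764_B00pm_011_s3 : ∃ t, chk3 f_B00pm_011_s3 t 2 3 1 = true := ex3_b t763_B00pm_011_s3 t762_B00pm_011_s3

theorem t765_B00pm_011_s3 : ∃ t, chk3 f_B00pm_011_s3 t 2 1 1 = true := ex3_b k0_B00pm_011_s3 t764_B00pm_011_s3

theorem t766_B00pm_011_s3 : ∃ t, chk3 f_B00pm_011_s3 t 1 1 1 = true := ex3_a t765_B00pm_011_s3 t749_B00pm_011_s3

theorem c_B00pm_011_s3 : CertFX 0 536870912 536870912 536870912 1046898278 26843546 false true false .pnn 0 1 1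
    ndF0q0 ndF0q1 pcF1 cut_B00pm_011_s3 xt_B00pm_011_s3 :=
  certFX2 (fam := false) (s1 := true) (s2 := false) (a := 0) (b := 1) (c := 1) (cn := .pnn) (n1 := ndF0q0) (n2 := ndF0q1) (pc := pcF1) (cut := cut_B00pm_011_s3) (xt := xt_B00pm_011_s3) (P1 := 0) (W1 := 536870912) (P2 := 536870912) (W2 := 536870912) (P3 := 1046898278) (W3 := 26843546)
    rfl (fun _ => rfl) t766_B00pm_011_s3

theorem s_B00pm_011_s3 {κ x : ℝ} (hκ : κ * h0 = kenE x) (hx : 39 / 40 ≤ x) (hx' : x < 1)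
    (H : CutVB (VFD κ) (DD x) tKF tL pcF (Cut.of [[⟨0, 0, 0, 67108864⟩, ⟨1, 1, 0, 67108864⟩, ⟨2, 1, 0, 67108864⟩]]) 0 1 1 0 0 (sgb true) (sgb false) x) :
    AltVB (VFD κ) (DD x) tKF tL pcF [⟨4, 0, 0, 2845415833⟩] 0 1 1 0 0 (sgb true) (sgb false) x :=
  strip_altVB (d := 2845415833) false rfl hκ (κ0 hκ hx) (x0 hx) hx' (covF00 hx hx') (covF01 hx hx') (x1 hx) (x2 hx') c_B00pm_011_s3 H ((ok hx hx').extB (T := tt) (sideF hx hx') hκ (κ0 hκ hx) rfl rfl (.O 0 true) (.O 1 false) (Or.inr rfl))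

theorem t100_B00pm_102_s1 : ∃ t, chk3 f_B00pm_102_s1 t 14 12 2 = true := ex3_a k94_B00pm_102_s1 k95_B00pm_102_s1

theorem t101_B00pm_102_s1 : ∃ t, chk3 f_B00pm_102_s1 t 14 12 1 = true := ex3_c t100_B00pm_102_s1 k96_B00pm_102_s1

theorem t102_B00pm_102_s1 : ∃ t, chk3 f_B00pm_102_s1 t 7 12 1 = true := ex3_a t101_B00pm_102_s1 k97_B00pm_102_s1

theorem t103_B00pm_102_s1 : ∃ t, chk3 f_B00pm_102_s1 t 7 6 1 = true := ex3_b t102_B00pm_102_s1 k98_B00pm_102_s1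

theorem t104_B00pm_102_s1 : ∃ t, chk3 f_B00pm_102_s1 t 12 26 1 = true := ex3_c k90_B00pm_102_s1 k91_B00pm_102_s1

theorem t105_B00pm_102_s1 : ∃ t, chk3 f_B00pm_102_s1 t 12 13 1 = true := ex3_b t104_B00pm_102_s1 k92_B00pm_102_s1

theorem t106_B00pm_102_s1 : ∃ t, chk3 f_B00pm_102_s1 t 6 13 1 = true := ex3_a t105_B00pm_102_s1 k93_B00pm_102_s1

theorem t107_B00pm_102_s1 : ∃ t, chk3 f_B00pm_102_s1 t 13 25 2 = true := ex3_a k87_B00pm_102_s1 k88_B00pm_102_s1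

theorem t108_B00pm_102_s1 : ∃ t, chk3 f_B00pm_102_s1 t 13 25 1 = true := ex3_c t107_B00pm_102_s1 k89_B00pm_102_s1

theorem t109_B00pm_102_s1 : ∃ t, chk3 f_B00pm_102_s1 t 27 24 2 = true := ex3_c k84_B00pm_102_s1 k85_B00pm_102_s1

theorem t110_B00pm_102_s1 : ∃ t, chk3 f_B00pm_102_s1 t 27 24 1 = true := ex3_c t109_B00pm_102_s1 k86_B00pm_102_s1

theorem t111_B00pm_102_s1 : ∃ t, chk3 f_B00pm_102_s1 t 13 24 1 = true := ex3_a k83_B00pm_102_s1 t110_B00pm_102_s1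

theorem t112_B00pm_102_s1 : ∃ t, chk3 f_B00pm_102_s1 t 13 12 1 = true := ex3_b t111_B00pm_102_s1 t108_B00pm_102_s1

theorem t113_B00pm_102_s1 : ∃ t, chk3 f_B00pm_102_s1 t 12 12 1 = true := ex3_b k81_B00pm_102_s1 k82_B00pm_102_s1

theorem t114_B00pm_102_s1 : ∃ t, chk3 f_B00pm_102_s1 t 6 12 1 = true := ex3_a t113_B00pm_102_s1 t112_B00pm_102_s1

theorem t115_B00pm_102_s1 : ∃ t, chk3 f_B00pm_102_s1 t 6 6 1 = true := ex3_b t114_B00pm_102_s1 t106_B00pm_102_s1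

theorem t116_B00pm_102_s1 : ∃ t, chk3 f_B00pm_102_s1 t 3 6 1 = true := ex3_a t115_B00pm_102_s1 t103_B00pm_102_s1

theorem t117_B00pm_102_s1 : ∃ t, chk3 f_B00pm_102_s1 t 3 3 1 = true := ex3_b t116_B00pm_102_s1 k99_B00pm_102_s1

theorem t118_B00pm_102_s1 : ∃ t, chk3 f_B00pm_102_s1 t 15 11 3 = true := ex3_b k79_B00pm_102_s1 k80_B00pm_102_s1

theorem t119_B00pm_102_s1 : ∃ t, chk3 f_B00pm_102_s1 t 30 22 2 = true := ex3_a k75_B00pm_102_s1 k76_B00pm_102_s1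

theorem t120_B00pm_102_s1 : ∃ t, chk3 f_B00pm_102_s1 t 15 22 2 = true := ex3_a t119_B00pm_102_s1 k77_B00pm_102_s1

theorem t121_B00pm_102_s1 : ∃ t, chk3 f_B00pm_102_s1 t 15 11 2 = true := ex3_b t120_B00pm_102_s1 k78_B00pm_102_s1

theorem t122_B00pm_102_s1 : ∃ t, chk3 f_B00pm_102_s1 t 15 11 1 = true := ex3_c t121_B00pm_102_s1 t118_B00pm_102_s1

theorem t123_B00pm_102_s1 : ∃ t, chk3 f_B00pm_102_s1 t 31 21 1 = true := ex3_c k73_B00pm_102_s1 k74_B00pm_102_s1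

theorem t124_B00pm_102_s1 : ∃ t, chk3 f_B00pm_102_s1 t 31 10 1 = true := ex3_b k72_B00pm_102_s1 t123_B00pm_102_s1

theorem t125_B00pm_102_s1 : ∃ t, chk3 f_B00pm_102_s1 t 15 10 1 = true := ex3_a k71_B00pm_102_s1 t124_B00pm_102_s1

theorem t126_B00pm_102_s1 : ∃ t, chk3 f_B00pm_102_s1 t 15 5 1 = true := ex3_b t125_B00pm_102_s1 t122_B00pm_102_s1

theorem t127_B00pm_102_s1 : ∃ t, chk3 f_B00pm_102_s1 t 14 23 3 = true := ex3_a k69_B00pm_102_s1 k70_B00pm_102_s1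

theorem t128_B00pm_102_s1 : ∃ t, chk3 f_B00pm_102_s1 t 29 23 2 = true := ex3_a k67_B00pm_102_s1 k68_B00pm_102_s1

theorem t129_B00pm_102_s1 : ∃ t, chk3 f_B00pm_102_s1 t 14 23 2 = true := ex3_a k66_B00pm_102_s1 t128_B00pm_102_s1

theorem t130_B00pm_102_s1 : ∃ t, chk3 f_B00pm_102_s1 t 14 23 1 = true := ex3_c t129_B00pm_102_s1 t127_B00pm_102_s1

theorem t131_B00pm_102_s1 : ∃ t, chk3 f_B00pm_102_s1 t 14 22 1 = true := ex3_a k64_B00pm_102_s1 k65_B00pm_102_s1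

theorem t132_B00pm_102_s1 : ∃ t, chk3 f_B00pm_102_s1 t 14 11 1 = true := ex3_b t131_B00pm_102_s1 t130_B00pm_102_s1

theorem t133_B00pm_102_s1 : ∃ t, chk3 f_B00pm_102_s1 t 14 5 1 = true := ex3_b k63_B00pm_102_s1 t132_B00pm_102_s1

theorem t134_B00pm_102_s1 : ∃ t, chk3 f_B00pm_102_s1 t 7 5 1 = true := ex3_a t133_B00pm_102_s1 t126_B00pm_102_s1

theorem t135_B00pm_102_s1 : ∃ t, chk3 f_B00pm_102_s1 t 7 2 1 = true := ex3_b k62_B00pm_102_s1 t134_B00pm_102_s1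

theorem t136_B00pm_102_s1 : ∃ t, chk3 f_B00pm_102_s1 t 13 5 1 = true := ex3_c k60_B00pm_102_s1 k61_B00pm_102_s1

theorem t137_B00pm_102_s1 : ∃ t, chk3 f_B00pm_102_s1 t 6 5 1 = true := ex3_a k59_B00pm_102_s1 t136_B00pm_102_s1

theorem t138_B00pm_102_s1 : ∃ t, chk3 f_B00pm_102_s1 t 6 2 1 = true := ex3_b k58_B00pm_102_s1 t137_B00pm_102_s1

theorem t139_B00pm_102_s1 : ∃ t, chk3 f_B00pm_102_s1 t 3 2 1 = true := ex3_a t138_B00pm_102_s1 t135_B00pm_102_s1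

theorem t140_B00pm_102_s1 : ∃ t, chk3 f_B00pm_102_s1 t 3 1 1 = true := ex3_b t139_B00pm_102_s1 t117_B00pm_102_s1

theorem t141_B00pm_102_s1 : ∃ t, chk3 f_B00pm_102_s1 t 11 7 1 = true := ex3_a k56_B00pm_102_s1 k57_B00pm_102_s1

theorem t142_B00pm_102_s1 : ∃ t, chk3 f_B00pm_102_s1 t 20 15 2 = true := ex3_b k52_B00pm_102_s1 k53_B00pm_102_s1

theorem t143_B00pm_102_s1 : ∃ t, chk3 f_B00pm_102_s1 t 20 15 1 = true := ex3_c t142_B00pm_102_s1 k54_B00pm_102_s1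

theorem t144_B00pm_102_s1 : ∃ t, chk3 f_B00pm_102_s1 t 10 15 1 = true := ex3_a t143_B00pm_102_s1 k55_B00pm_102_s1

theorem t145_B00pm_102_s1 : ∃ t, chk3 f_B00pm_102_s1 t 21 14 1 = true := ex3_b k50_B00pm_102_s1 k51_B00pm_102_s1

theorem t146_B00pm_102_s1 : ∃ t, chk3 f_B00pm_102_s1 t 20 29 1 = true := ex3_c k48_B00pm_102_s1 k49_B00pm_102_s1

theorem t147_B00pm_102_s1 : ∃ t, chk3 f_B00pm_102_s1 t 20 14 1 = true := ex3_b k47_B00pm_102_s1 t146_B00pm_102_s1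

theorem t148_B00pm_102_s1 : ∃ t, chk3 f_B00pm_102_s1 t 10 14 1 = true := ex3_a t147_B00pm_102_s1 t145_B00pm_102_s1

theorem t149_B00pm_102_s1 : ∃ t, chk3 f_B00pm_102_s1 t 10 7 1 = true := ex3_b t148_B00pm_102_s1 t144_B00pm_102_s1

theorem t150_B00pm_102_s1 : ∃ t, chk3 f_B00pm_102_s1 t 5 7 1 = true := ex3_a t149_B00pm_102_s1 t141_B00pm_102_s1

theorem t151_B00pm_102_s1 : ∃ t, chk3 f_B00pm_102_s1 t 23 26 1 = true := ex3_a k44_B00pm_102_s1 k45_B00pm_102_s1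

theorem t152_B00pm_102_s1 : ∃ t, chk3 f_B00pm_102_s1 t 23 13 1 = true := ex3_b t151_B00pm_102_s1 k46_B00pm_102_s1

theorem t153_B00pm_102_s1 : ∃ t, chk3 f_B00pm_102_s1 t 23 6 1 = true := ex3_b k43_B00pm_102_s1 t152_B00pm_102_s1

theorem t154_B00pm_102_s1 : ∃ t, chk3 f_B00pm_102_s1 t 22 27 1 = true := ex3_a k41_B00pm_102_s1 k42_B00pm_102_s1

theorem t155_B00pm_102_s1 : ∃ t, chk3 f_B00pm_102_s1 t 22 13 1 = true := ex3_b k40_B00pm_102_s1 t154_B00pm_102_s1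

theorem t156_B00pm_102_s1 : ∃ t, chk3 f_B00pm_102_s1 t 22 6 1 = true := ex3_b k39_B00pm_102_s1 t155_B00pm_102_s1

theorem t157_B00pm_102_s1 : ∃ t, chk3 f_B00pm_102_s1 t 11 6 1 = true := ex3_a t156_B00pm_102_s1 t153_B00pm_102_s1

theorem t158_B00pm_102_s1 : ∃ t, chk3 f_B00pm_102_s1 t 5 6 1 = true := ex3_a k38_B00pm_102_s1 t157_B00pm_102_s1

theorem t159_B00pm_102_s1 : ∃ t, chk3 f_B00pm_102_s1 t 5 3 1 = true := ex3_b t158_B00pm_102_s1 t150_B00pm_102_s1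

theorem t160_B00pm_102_s1 : ∃ t, chk3 f_B00pm_102_s1 t 5 1 1 = true := ex3_b k37_B00pm_102_s1 t159_B00pm_102_s1

theorem t161_B00pm_102_s1 : ∃ t, chk3 f_B00pm_102_s1 t 19 15 3 = true := ex3_b k35_B00pm_102_s1 k36_B00pm_102_s1

theorem t162_B00pm_102_s1 : ∃ t, chk3 f_B00pm_102_s1 t 38 30 2 = true := ex3_b k31_B00pm_102_s1 k32_B00pm_102_s1

theorem t163_B00pm_102_s1 : ∃ t, chk3 f_B00pm_102_s1 t 19 30 2 = true := ex3_a t162_B00pm_102_s1 k33_B00pm_102_s1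

theorem t164_B00pm_102_s1 : ∃ t, chk3 f_B00pm_102_s1 t 19 15 2 = true := ex3_b t163_B00pm_102_s1 k34_B00pm_102_s1

theorem t165_B00pm_102_s1 : ∃ t, chk3 f_B00pm_102_s1 t 19 15 1 = true := ex3_c t164_B00pm_102_s1 t161_B00pm_102_s1

theorem t166_B00pm_102_s1 : ∃ t, chk3 f_B00pm_102_s1 t 36 30 3 = true := ex3_b k27_B00pm_102_s1 k28_B00pm_102_s1

theorem t167_B00pm_102_s1 : ∃ t, chk3 f_B00pm_102_s1 t 18 30 3 = true := ex3_a t166_B00pm_102_s1 k29_B00pm_102_s1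

theorem t168_B00pm_102_s1 : ∃ t, chk3 f_B00pm_102_s1 t 18 15 3 = true := ex3_b t167_B00pm_102_s1 k30_B00pm_102_s1

theorem t169_B00pm_102_s1 : ∃ t, chk3 f_B00pm_102_s1 t 37 60 4 = true := ex3_b k22_B00pm_102_s1 k23_B00pm_102_s1

theorem t170_B00pm_102_s1 : ∃ t, chk3 f_B00pm_102_s1 t 37 60 2 = true := ex3_c t169_B00pm_102_s1 k24_B00pm_102_s1

theorem t171_B00pm_102_s1 : ∃ t, chk3 f_B00pm_102_s1 t 37 30 2 = true := ex3_b t170_B00pm_102_s1 k25_B00pm_102_s1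

theorem t172_B00pm_102_s1 : ∃ t, chk3 f_B00pm_102_s1 t 72 61 4 = true := ex3_b k18_B00pm_102_s1 k19_B00pm_102_s1

theorem t173_B00pm_102_s1 : ∃ t, chk3 f_B00pm_102_s1 t 72 61 2 = true := ex3_c t172_B00pm_102_s1 k20_B00pm_102_s1

theorem t174_B00pm_102_s1 : ∃ t, chk3 f_B00pm_102_s1 t 36 61 2 = true := ex3_a t173_B00pm_102_s1 k21_B00pm_102_s1

theorem t175_B00pm_102_s1 : ∃ t, chk3 f_B00pm_102_s1 t 36 121 4 = true := ex3_c k15_B00pm_102_s1 k16_B00pm_102_s1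

theorem t176_B00pm_102_s1 : ∃ t, chk3 f_B00pm_102_s1 t 36 60 4 = true := ex3_b k14_B00pm_102_s1 t175_B00pm_102_s1

theorem t177_B00pm_102_s1 : ∃ t, chk3 f_B00pm_102_s1 t 36 60 2 = true := ex3_c t176_B00pm_102_s1 k17_B00pm_102_s1

theorem t178_B00pm_102_s1 : ∃ t, chk3 f_B00pm_102_s1 t 36 30 2 = true := ex3_b t177_B00pm_102_s1 t174_B00pm_102_s1

theorem t179_B00pm_102_s1 : ∃ t, chk3 f_B00pm_102_s1 t 18 30 2 = true := ex3_a t178_B00pm_102_s1 t171_B00pm_102_s1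

theorem t180_B00pm_102_s1 : ∃ t, chk3 f_B00pm_102_s1 t 18 15 2 = true := ex3_b t179_B00pm_102_s1 k26_B00pm_102_s1

theorem t181_B00pm_102_s1 : ∃ t, chk3 f_B00pm_102_s1 t 18 15 1 = true := ex3_c t180_B00pm_102_s1 t168_B00pm_102_s1

theorem t182_B00pm_102_s1 : ∃ t, chk3 f_B00pm_102_s1 t 9 15 1 = true := ex3_a t181_B00pm_102_s1 t165_B00pm_102_s1

theorem t183_B00pm_102_s1 : ∃ t, chk3 f_B00pm_102_s1 t 19 29 3 = true := ex3_a k12_B00pm_102_s1 k13_B00pm_102_s1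

theorem t184_B00pm_102_s1 : ∃ t, chk3 f_B00pm_102_s1 t 19 14 3 = true := ex3_b k11_B00pm_102_s1 t183_B00pm_102_s1

theorem t185_B00pm_102_s1 : ∃ t, chk3 f_B00pm_102_s1 t 38 29 2 = true := ex3_a k8_B00pm_102_s1 k9_B00pm_102_s1

theorem t186_B00pm_102_s1 : ∃ t, chk3 f_B00pm_102_s1 t 19 29 2 = true := ex3_a t185_B00pm_102_s1 k10_B00pm_102_s1

theorem t187_B00pm_102_s1 : ∃ t, chk3 f_B00pm_102_s1 t 19 14 2 = true := ex3_b k7_B00pm_102_s1 t186_B00pm_102_s1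

theorem t188_B00pm_102_s1 : ∃ t, chk3 f_B00pm_102_s1 t 19 14 1 = true := ex3_c t187_B00pm_102_s1 t184_B00pm_102_s1

theorem t189_B00pm_102_s1 : ∃ t, chk3 f_B00pm_102_s1 t 9 14 1 = true := ex3_a k6_B00pm_102_s1 t188_B00pm_102_s1

theorem t190_B00pm_102_s1 : ∃ t, chk3 f_B00pm_102_s1 t 9 7 1 = true := ex3_b t189_B00pm_102_s1 t182_B00pm_102_s1

theorem t191_B00pm_102_s1 : ∃ t, chk3 f_B00pm_102_s1 t 17 15 1 = true := ex3_c k4_B00pm_102_s1 k5_B00pm_102_s1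

theorem t192_B00pm_102_s1 : ∃ t, chk3 f_B00pm_102_s1 t 8 15 1 = true := ex3_a k3_B00pm_102_s1 t191_B00pm_102_s1

theorem t193_B00pm_102_s1 : ∃ t, chk3 f_B00pm_102_s1 t 8 7 1 = true := ex3_b k2_B00pm_102_s1 t192_B00pm_102_s1

theorem t194_B00pm_102_s1 : ∃ t, chk3 f_B00pm_102_s1 t 4 7 1 = true := ex3_a t193_B00pm_102_s1 t190_B00pm_102_s1

theorem t195_B00pm_102_s1 : ∃ t, chk3 f_B00pm_102_s1 t 4 3 1 = true := ex3_b k1_B00pm_102_s1 t194_B00pm_102_s1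

theorem t196_B00pm_102_s1 : ∃ t, chk3 f_B00pm_102_s1 t 4 1 1 = true := ex3_b k0_B00pm_102_s1 t195_B00pm_102_s1

theorem t197_B00pm_102_s1 : ∃ t, chk3 f_B00pm_102_s1 t 2 1 1 = true := ex3_a t196_B00pm_102_s1 t160_B00pm_102_s1

theorem t198_B00pm_102_s1 : ∃ t, chk3 f_B00pm_102_s1 t 1 1 1 = true := ex3_a t197_B00pm_102_s1 t140_B00pm_102_s1

theorem c_B00pm_102_s1 : CertFX 536870912 536870912 0 536870912 1046898278 26843546 false true false .npp 1 0 2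
    ndF0q1 ndF0q2 pcF0 cut_B00pm_102_s1 xt_B00pm_102_s1 :=
  certFX2 (fam := false) (s1 := true) (s2 := false) (a := 1) (b := 0) (c := 2) (cn := .npp) (n1 := ndF0q1) (n2 := ndF0q2) (pc := pcF0) (cut := cut_B00pm_102_s1) (xt := xt_B00pm_102_s1) (P1 := 536870912) (W1 := 536870912) (P2 := 0) (W2 := 536870912) (P3 := 1046898278) (W3 := 26843546)
    rfl (fun _ => rfl) t198_B00pm_102_s1

theorem s_B00pm_102_s1 {κ x : ℝ} (hκ : κ * h0 = kenE x) (hx : 39 / 40 ≤ x) (hx' : x < 1)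
    (H : CutVB (VFD κ) (DD x) tKF tL pcF (Cut.of [[⟨0, 1, 0, 67108864⟩, ⟨1, 0, 0, 67108864⟩, ⟨2, 1, 0, 67108864⟩, ⟨3, 0, 0, 1317011456⟩]]) 1 0 2 0 0 (sgb true) (sgb false) x) :
    AltVB (VFD κ) (DD x) tKF tL pcF [⟨3, 0, 0, 1449551462⟩] 1 0 2 0 0 (sgb true) (sgb false) x :=
  strip_altVB (d := 1449551462) true rfl hκ (κ0 hκ hx) (x0 hx) hx' (covF01 hx hx') (covF02 hx hx') (x1 hx) (x2 hx') c_B00pm_102_s1 H ((ok hx hx').extB (T := tt) (sideF hx hx') hκ (κ0 hκ hx) rfl rfl (.O 1 true) (.O 2 false) (Or.inl rfl))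

theorem t158_B07pp_022_s1 : ∃ t, chk3 f_B07pp_022_s1 t 13 85812 3 = true := ex3_b k147_B07pp_022_s1 k148_B07pp_022_s1

theorem t159_B07pp_022_s1 : ∃ t, chk3 f_B07pp_022_s1 t 13 42906 3 = true := ex3_b t158_B07pp_022_s1 k149_B07pp_022_s1

theorem t160_B07pp_022_s1 : ∃ t, chk3 f_B07pp_022_s1 t 13 21453 3 = true := ex3_b t159_B07pp_022_s1 k150_B07pp_022_s1

theorem t161_B07pp_022_s1 : ∃ t, chk3 f_B07pp_022_s1 t 13 10726 3 = true := ex3_b k146_B07pp_022_s1 t160_B07pp_022_s1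

theorem t162_B07pp_022_s1 : ∃ t, chk3 f_B07pp_022_s1 t 13 5363 3 = true := ex3_b t161_B07pp_022_s1 k151_B07pp_022_s1

theorem t163_B07pp_022_s1 : ∃ t, chk3 f_B07pp_022_s1 t 13 2681 3 = true := ex3_b k145_B07pp_022_s1 t162_B07pp_022_s1

theorem t164_B07pp_022_s1 : ∃ t, chk3 f_B07pp_022_s1 t 13 1340 3 = true := ex3_b k144_B07pp_022_s1 t163_B07pp_022_s1

theorem t165_B07pp_022_s1 : ∃ t, chk3 f_B07pp_022_s1 t 13 670 3 = true := ex3_b t164_B07pp_022_s1 k152_B07pp_022_s1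

theorem t166_B07pp_022_s1 : ∃ t, chk3 f_B07pp_022_s1 t 13 335 3 = true := ex3_b t165_B07pp_022_s1 k153_B07pp_022_s1

theorem t167_B07pp_022_s1 : ∃ t, chk3 f_B07pp_022_s1 t 13 167 3 = true := ex3_b k143_B07pp_022_s1 t166_B07pp_022_s1

theorem t168_B07pp_022_s1 : ∃ t, chk3 f_B07pp_022_s1 t 13 42906 2 = true := ex3_b k137_B07pp_022_s1 k138_B07pp_022_s1

theorem t169_B07pp_022_s1 : ∃ t, chk3 f_B07pp_022_s1 t 13 21453 2 = true := ex3_b t168_B07pp_022_s1 k139_B07pp_022_s1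

theorem t170_B07pp_022_s1 : ∃ t, chk3 f_B07pp_022_s1 t 13 10726 2 = true := ex3_b k136_B07pp_022_s1 t169_B07pp_022_s1

theorem t171_B07pp_022_s1 : ∃ t, chk3 f_B07pp_022_s1 t 13 5363 2 = true := ex3_b t170_B07pp_022_s1 k140_B07pp_022_s1

theorem t172_B07pp_022_s1 : ∃ t, chk3 f_B07pp_022_s1 t 13 2681 2 = true := ex3_b k135_B07pp_022_s1 t171_B07pp_022_s1

theorem t173_B07pp_022_s1 : ∃ t, chk3 f_B07pp_022_s1 t 13 1340 2 = true := ex3_b k134_B07pp_022_s1 t172_B07pp_022_s1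

theorem t174_B07pp_022_s1 : ∃ t, chk3 f_B07pp_022_s1 t 13 670 2 = true := ex3_b t173_B07pp_022_s1 k141_B07pp_022_s1

theorem t175_B07pp_022_s1 : ∃ t, chk3 f_B07pp_022_s1 t 13 335 2 = true := ex3_b t174_B07pp_022_s1 k142_B07pp_022_s1

theorem t176_B07pp_022_s1 : ∃ t, chk3 f_B07pp_022_s1 t 13 167 2 = true := ex3_b k133_B07pp_022_s1 t175_B07pp_022_s1

theorem t177_B07pp_022_s1 : ∃ t, chk3 f_B07pp_022_s1 t 13 167 1 = true := ex3_c t176_B07pp_022_s1 t167_B07pp_022_s1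

theorem t178_B07pp_022_s1 : ∃ t, chk3 f_B07pp_022_s1 t 12 686503 1 = true := ex3_b k126_B07pp_022_s1 k127_B07pp_022_s1

theorem t179_B07pp_022_s1 : ∃ t, chk3 f_B07pp_022_s1 t 12 343251 1 = true := ex3_b k125_B07pp_022_s1 t178_B07pp_022_s1

theorem t180_B07pp_022_s1 : ∃ t, chk3 f_B07pp_022_s1 t 12 171625 1 = true := ex3_b k124_B07pp_022_s1 t179_B07pp_022_s1

theorem t181_B07pp_022_s1 : ∃ t, chk3 f_B07pp_022_s1 t 12 85812 1 = true := ex3_b k123_B07pp_022_s1 t180_B07pp_022_s1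

theorem t182_B07pp_022_s1 : ∃ t, chk3 f_B07pp_022_s1 t 12 42906 1 = true := ex3_b t181_B07pp_022_s1 k128_B07pp_022_s1

theorem t183_B07pp_022_s1 : ∃ t, chk3 f_B07pp_022_s1 t 12 21453 1 = true := ex3_b t182_B07pp_022_s1 k129_B07pp_022_s1

theorem t184_B07pp_022_s1 : ∃ t, chk3 f_B07pp_022_s1 t 12 10726 1 = true := ex3_b k122_B07pp_022_s1 t183_B07pp_022_s1

theorem t185_B07pp_022_s1 : ∃ t, chk3 f_B07pp_022_s1 t 12 5363 1 = true := ex3_b t184_B07pp_022_s1 k130_B07pp_022_s1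

theorem t186_B07pp_022_s1 : ∃ t, chk3 f_B07pp_022_s1 t 12 2681 1 = true := ex3_b k121_B07pp_022_s1 t185_B07pp_022_s1

theorem t187_B07pp_022_s1 : ∃ t, chk3 f_B07pp_022_s1 t 12 1340 1 = true := ex3_b k120_B07pp_022_s1 t186_B07pp_022_s1

theorem t188_B07pp_022_s1 : ∃ t, chk3 f_B07pp_022_s1 t 12 670 1 = true := ex3_b t187_B07pp_022_s1 k131_B07pp_022_s1

theorem t189_B07pp_022_s1 : ∃ t, chk3 f_B07pp_022_s1 t 12 335 1 = true := ex3_b t188_B07pp_022_s1 k132_B07pp_022_s1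

theorem t190_B07pp_022_s1 : ∃ t, chk3 f_B07pp_022_s1 t 12 167 1 = true := ex3_b k119_B07pp_022_s1 t189_B07pp_022_s1

theorem t191_B07pp_022_s1 : ∃ t, chk3 f_B07pp_022_s1 t 6 167 1 = true := ex3_a t190_B07pp_022_s1 t177_B07pp_022_s1

theorem t192_B07pp_022_s1 : ∃ t, chk3 f_B07pp_022_s1 t 6 83 1 = true := ex3_b k118_B07pp_022_s1 t191_B07pp_022_s1

theorem t193_B07pp_022_s1 : ∃ t, chk3 f_B07pp_022_s1 t 3 83 1 = true := ex3_a t192_B07pp_022_s1 k154_B07pp_022_s1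

theorem t194_B07pp_022_s1 : ∃ t, chk3 f_B07pp_022_s1 t 13 82 1 = true := ex3_c k115_B07pp_022_s1 k116_B07pp_022_s1

theorem t195_B07pp_022_s1 : ∃ t, chk3 f_B07pp_022_s1 t 6 82 1 = true := ex3_a k114_B07pp_022_s1 t194_B07pp_022_s1

theorem t196_B07pp_022_s1 : ∃ t, chk3 f_B07pp_022_s1 t 3 82 1 = true := ex3_a t195_B07pp_022_s1 k117_B07pp_022_s1

theorem t197_B07pp_022_s1 : ∃ t, chk3 f_B07pp_022_s1 t 3 41 1 = true := ex3_b t196_B07pp_022_s1 t193_B07pp_022_s1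

theorem t198_B07pp_022_s1 : ∃ t, chk3 f_B07pp_022_s1 t 12 40 3 = true := ex3_b k110_B07pp_022_s1 k111_B07pp_022_s1

theorem t199_B07pp_022_s1 : ∃ t, chk3 f_B07pp_022_s1 t 6 40 3 = true := ex3_a t198_B07pp_022_s1 k112_B07pp_022_s1

theorem t200_B07pp_022_s1 : ∃ t, chk3 f_B07pp_022_s1 t 3 40 3 = true := ex3_a t199_B07pp_022_s1 k113_B07pp_022_s1

theorem t201_B07pp_022_s1 : ∃ t, chk3 f_B07pp_022_s1 t 6 40 2 = true := ex3_a k107_B07pp_022_s1 k108_B07pp_022_s1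

theorem t202_B07pp_022_s1 : ∃ t, chk3 f_B07pp_022_s1 t 3 40 2 = true := ex3_a t201_B07pp_022_s1 k109_B07pp_022_s1

theorem t203_B07pp_022_s1 : ∃ t, chk3 f_B07pp_022_s1 t 3 40 1 = true := ex3_c t202_B07pp_022_s1 t200_B07pp_022_s1

theorem t204_B07pp_022_s1 : ∃ t, chk3 f_B07pp_022_s1 t 3 20 1 = true := ex3_b t203_B07pp_022_s1 t197_B07pp_022_s1

theorem t205_B07pp_022_s1 : ∃ t, chk3 f_B07pp_022_s1 t 3 10 1 = true := ex3_b t204_B07pp_022_s1 k155_B07pp_022_s1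

theorem t206_B07pp_022_s1 : ∃ t, chk3 f_B07pp_022_s1 t 3 5 1 = true := ex3_b t205_B07pp_022_s1 k156_B07pp_022_s1

theorem t207_B07pp_022_s1 : ∃ t, chk3 f_B07pp_022_s1 t 11 686503 1 = true := ex3_b k98_B07pp_022_s1 k99_B07pp_022_s1

theorem t208_B07pp_022_s1 : ∃ t, chk3 f_B07pp_022_s1 t 11 343251 1 = true := ex3_b k97_B07pp_022_s1 t207_B07pp_022_s1

theorem t209_B07pp_022_s1 : ∃ t, chk3 f_B07pp_022_s1 t 11 171625 1 = true := ex3_b k96_B07pp_022_s1 t208_B07pp_022_s1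

theorem t210_B07pp_022_s1 : ∃ t, chk3 f_B07pp_022_s1 t 11 85812 1 = true := ex3_b k95_B07pp_022_s1 t209_B07pp_022_s1

theorem t211_B07pp_022_s1 : ∃ t, chk3 f_B07pp_022_s1 t 11 42906 1 = true := ex3_b t210_B07pp_022_s1 k100_B07pp_022_s1

theorem t212_B07pp_022_s1 : ∃ t, chk3 f_B07pp_022_s1 t 11 21453 1 = true := ex3_b t211_B07pp_022_s1 k101_B07pp_022_s1

theorem t213_B07pp_022_s1 : ∃ t, chk3 f_B07pp_022_s1 t 11 10726 1 = true := ex3_b k94_B07pp_022_s1 t212_B07pp_022_s1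

theorem t214_B07pp_022_s1 : ∃ t, chk3 f_B07pp_022_s1 t 11 5363 1 = true := ex3_b t213_B07pp_022_s1 k102_B07pp_022_s1

theorem t215_B07pp_022_s1 : ∃ t, chk3 f_B07pp_022_s1 t 11 2681 1 = true := ex3_b k93_B07pp_022_s1 t214_B07pp_022_s1

theorem t216_B07pp_022_s1 : ∃ t, chk3 f_B07pp_022_s1 t 11 1340 1 = true := ex3_b k92_B07pp_022_s1 t215_B07pp_022_s1

theorem t217_B07pp_022_s1 : ∃ t, chk3 f_B07pp_022_s1 t 11 670 1 = true := ex3_b t216_B07pp_022_s1 k103_B07pp_022_s1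

theorem t218_B07pp_022_s1 : ∃ t, chk3 f_B07pp_022_s1 t 11 335 1 = true := ex3_b t217_B07pp_022_s1 k104_B07pp_022_s1

theorem t219_B07pp_022_s1 : ∃ t, chk3 f_B07pp_022_s1 t 11 167 1 = true := ex3_b k91_B07pp_022_s1 t218_B07pp_022_s1

theorem t220_B07pp_022_s1 : ∃ t, chk3 f_B07pp_022_s1 t 11 83 1 = true := ex3_b k90_B07pp_022_s1 t219_B07pp_022_s1

theorem t221_B07pp_022_s1 : ∃ t, chk3 f_B07pp_022_s1 t 11 41 1 = true := ex3_b k89_B07pp_022_s1 t220_B07pp_022_s1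

theorem t222_B07pp_022_s1 : ∃ t, chk3 f_B07pp_022_s1 t 21 10726 1 = true := ex3_b k84_B07pp_022_s1 k85_B07pp_022_s1

theorem t223_B07pp_022_s1 : ∃ t, chk3 f_B07pp_022_s1 t 21 5363 1 = true := ex3_b t222_B07pp_022_s1 k86_B07pp_022_s1

theorem t224_B07pp_022_s1 : ∃ t, chk3 f_B07pp_022_s1 t 21 2681 1 = true := ex3_b k83_B07pp_022_s1 t223_B07pp_022_s1

theorem t225_B07pp_022_s1 : ∃ t, chk3 f_B07pp_022_s1 t 21 1340 1 = true := ex3_b k82_B07pp_022_s1 t224_B07pp_022_s1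

theorem t226_B07pp_022_s1 : ∃ t, chk3 f_B07pp_022_s1 t 21 670 1 = true := ex3_b t225_B07pp_022_s1 k87_B07pp_022_s1

theorem t227_B07pp_022_s1 : ∃ t, chk3 f_B07pp_022_s1 t 21 335 1 = true := ex3_b t226_B07pp_022_s1 k88_B07pp_022_s1

theorem t228_B07pp_022_s1 : ∃ t, chk3 f_B07pp_022_s1 t 21 167 1 = true := ex3_b k81_B07pp_022_s1 t227_B07pp_022_s1

theorem t229_B07pp_022_s1 : ∃ t, chk3 f_B07pp_022_s1 t 10 167 1 = true := ex3_a k80_B07pp_022_s1 t228_B07pp_022_s1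

theorem t230_B07pp_022_s1 : ∃ t, chk3 f_B07pp_022_s1 t 10 83 1 = true := ex3_b k79_B07pp_022_s1 t229_B07pp_022_s1

theorem t231_B07pp_022_s1 : ∃ t, chk3 f_B07pp_022_s1 t 10 41 1 = true := ex3_b k78_B07pp_022_s1 t230_B07pp_022_s1

theorem t232_B07pp_022_s1 : ∃ t, chk3 f_B07pp_022_s1 t 5 41 1 = true := ex3_a t231_B07pp_022_s1 t221_B07pp_022_s1

theorem t233_B07pp_022_s1 : ∃ t, chk3 f_B07pp_022_s1 t 5 20 1 = true := ex3_b k77_B07pp_022_s1 t232_B07pp_022_s1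

theorem t234_B07pp_022_s1 : ∃ t, chk3 f_B07pp_022_s1 t 5 10 1 = true := ex3_b t233_B07pp_022_s1 k105_B07pp_022_s1

theorem t235_B07pp_022_s1 : ∃ t, chk3 f_B07pp_022_s1 t 8 83 1 = true := ex3_c k73_B07pp_022_s1 k74_B07pp_022_s1

theorem t236_B07pp_022_s1 : ∃ t, chk3 f_B07pp_022_s1 t 8 41 1 = true := ex3_b k72_B07pp_022_s1 t235_B07pp_022_s1

theorem t237_B07pp_022_s1 : ∃ t, chk3 f_B07pp_022_s1 t 4 41 1 = true := ex3_a t236_B07pp_022_s1 k75_B07pp_022_s1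

theorem t238_B07pp_022_s1 : ∃ t, chk3 f_B07pp_022_s1 t 4 20 1 = true := ex3_b k71_B07pp_022_s1 t237_B07pp_022_s1

theorem t239_B07pp_022_s1 : ∃ t, chk3 f_B07pp_022_s1 t 4 10 1 = true := ex3_b t238_B07pp_022_s1 k76_B07pp_022_s1

theorem t240_B07pp_022_s1 : ∃ t, chk3 f_B07pp_022_s1 t 2 10 1 = true := ex3_a t239_B07pp_022_s1 t234_B07pp_022_s1

theorem t241_B07pp_022_s1 : ∃ t, chk3 f_B07pp_022_s1 t 2 5 1 = true := ex3_b t240_B07pp_022_s1 k106_B07pp_022_s1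

theorem t242_B07pp_022_s1 : ∃ t, chk3 f_B07pp_022_s1 t 1 5 1 = true := ex3_a t241_B07pp_022_s1 t206_B07pp_022_s1

theorem t243_B07pp_022_s1 : ∃ t, chk3 f_B07pp_022_s1 t 6 9 1 = true := ex3_c k68_B07pp_022_s1 k69_B07pp_022_s1

theorem t244_B07pp_022_s1 : ∃ t, chk3 f_B07pp_022_s1 t 3 9 1 = true := ex3_a t243_B07pp_022_s1 k70_B07pp_022_s1

theorem t245_B07pp_022_s1 : ∃ t, chk3 f_B07pp_022_s1 t 3 4 1 = true := ex3_b k67_B07pp_022_s1 t244_B07pp_022_s1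

theorem t246_B07pp_022_s1 : ∃ t, chk3 f_B07pp_022_s1 t 11 39 3 = true := ex3_a k65_B07pp_022_s1 k66_B07pp_022_s1

theorem t247_B07pp_022_s1 : ∃ t, chk3 f_B07pp_022_s1 t 11 39 1 = true := ex3_c k64_B07pp_022_s1 t246_B07pp_022_s1

theorem t248_B07pp_022_s1 : ∃ t, chk3 f_B07pp_022_s1 t 5 39 1 = true := ex3_a k63_B07pp_022_s1 t247_B07pp_022_s1

theorem t249_B07pp_022_s1 : ∃ t, chk3 f_B07pp_022_s1 t 11 38 3 = true := ex3_a k61_B07pp_022_s1 k62_B07pp_022_s1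

theorem t250_B07pp_022_s1 : ∃ t, chk3 f_B07pp_022_s1 t 11 38 1 = true := ex3_c k60_B07pp_022_s1 t249_B07pp_022_s1

theorem t251_B07pp_022_s1 : ∃ t, chk3 f_B07pp_022_s1 t 21 38 1 = true := ex3_c k58_B07pp_022_s1 k59_B07pp_022_s1

theorem t252_B07pp_022_s1 : ∃ t, chk3 f_B07pp_022_s1 t 10 38 1 = true := ex3_a k57_B07pp_022_s1 t251_B07pp_022_s1

theorem t253_B07pp_022_s1 : ∃ t, chk3 f_B07pp_022_s1 t 5 38 1 = true := ex3_a t252_B07pp_022_s1 t250_B07pp_022_s1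

theorem t254_B07pp_022_s1 : ∃ t, chk3 f_B07pp_022_s1 t 5 19 1 = true := ex3_b t253_B07pp_022_s1 t248_B07pp_022_s1

theorem t255_B07pp_022_s1 : ∃ t, chk3 f_B07pp_022_s1 t 5 37 3 = true := ex3_a k55_B07pp_022_s1 k56_B07pp_022_s1

theorem t256_B07pp_022_s1 : ∃ t, chk3 f_B07pp_022_s1 t 5 37 2 = true := ex3_a k53_B07pp_022_s1 k54_B07pp_022_s1

theorem t257_B07pp_022_s1 : ∃ t, chk3 f_B07pp_022_s1 t 5 37 1 = true := ex3_c t256_B07pp_022_s1 t255_B07pp_022_s1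

theorem t258_B07pp_022_s1 : ∃ t, chk3 f_B07pp_022_s1 t 5 36 1 = true := ex3_c k51_B07pp_022_s1 k52_B07pp_022_s1

theorem t259_B07pp_022_s1 : ∃ t, chk3 f_B07pp_022_s1 t 5 18 1 = true := ex3_b t258_B07pp_022_s1 t257_B07pp_022_s1

theorem t260_B07pp_022_s1 : ∃ t, chk3 f_B07pp_022_s1 t 5 9 1 = true := ex3_b t259_B07pp_022_s1 t254_B07pp_022_s1

theorem t261_B07pp_022_s1 : ∃ t, chk3 f_B07pp_022_s1 t 4 19 1 = true := ex3_a k49_B07pp_022_s1 k50_B07pp_022_s1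

theorem t262_B07pp_022_s1 : ∃ t, chk3 f_B07pp_022_s1 t 19 36 1 = true := ex3_c k46_B07pp_022_s1 k47_B07pp_022_s1

theorem t263_B07pp_022_s1 : ∃ t, chk3 f_B07pp_022_s1 t 9 36 1 = true := ex3_a k45_B07pp_022_s1 t262_B07pp_022_s1

theorem t264_B07pp_022_s1 : ∃ t, chk3 f_B07pp_022_s1 t 9 18 1 = true := ex3_b t263_B07pp_022_s1 k48_B07pp_022_s1

theorem t265_B07pp_022_s1 : ∃ t, chk3 f_B07pp_022_s1 t 8 18 1 = true := ex3_b k43_B07pp_022_s1 k44_B07pp_022_s1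

theorem t266_B07pp_022_s1 : ∃ t, chk3 f_B07pp_022_s1 t 4 18 1 = true := ex3_a t265_B07pp_022_s1 t264_B07pp_022_s1

theorem t267_B07pp_022_s1 : ∃ t, chk3 f_B07pp_022_s1 t 4 9 1 = true := ex3_b t266_B07pp_022_s1 t261_B07pp_022_s1

theorem t268_B07pp_022_s1 : ∃ t, chk3 f_B07pp_022_s1 t 2 9 1 = true := ex3_a t267_B07pp_022_s1 t260_B07pp_022_s1

theorem t269_B07pp_022_s1 : ∃ t, chk3 f_B07pp_022_s1 t 9 35 3 = true := ex3_a k40_B07pp_022_s1 k41_B07pp_022_s1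

theorem t270_B07pp_022_s1 : ∃ t, chk3 f_B07pp_022_s1 t 19 35 2 = true := ex3_b k38_B07pp_022_s1 k39_B07pp_022_s1

theorem t271_B07pp_022_s1 : ∃ t, chk3 f_B07pp_022_s1 t 9 35 2 = true := ex3_a k37_B07pp_022_s1 t270_B07pp_022_s1

theorem t272_B07pp_022_s1 : ∃ t, chk3 f_B07pp_022_s1 t 9 35 1 = true := ex3_c t271_B07pp_022_s1 t269_B07pp_022_s1

theorem t273_B07pp_022_s1 : ∃ t, chk3 f_B07pp_022_s1 t 18 34 3 = true := ex3_a k34_B07pp_022_s1 k35_B07pp_022_s1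

theorem t274_B07pp_022_s1 : ∃ t, chk3 f_B07pp_022_s1 t 9 34 3 = true := ex3_a t273_B07pp_022_s1 k36_B07pp_022_s1

theorem t275_B07pp_022_s1 : ∃ t, chk3 f_B07pp_022_s1 t 18 34 4 = true := ex3_a k30_B07pp_022_s1 k31_B07pp_022_s1

theorem t276_B07pp_022_s1 : ∃ t, chk3 f_B07pp_022_s1 t 18 34 2 = true := ex3_c t275_B07pp_022_s1 k32_B07pp_022_s1

theorem t277_B07pp_022_s1 : ∃ t, chk3 f_B07pp_022_s1 t 9 34 2 = true := ex3_a t276_B07pp_022_s1 k33_B07pp_022_s1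

theorem t278_B07pp_022_s1 : ∃ t, chk3 f_B07pp_022_s1 t 9 34 1 = true := ex3_c t277_B07pp_022_s1 t274_B07pp_022_s1

theorem t279_B07pp_022_s1 : ∃ t, chk3 f_B07pp_022_s1 t 9 17 1 = true := ex3_b t278_B07pp_022_s1 t272_B07pp_022_s1

theorem t280_B07pp_022_s1 : ∃ t, chk3 f_B07pp_022_s1 t 35 68 4 = true := ex3_b k24_B07pp_022_s1 k25_B07pp_022_s1

theorem t281_B07pp_022_s1 : ∃ t, chk3 f_B07pp_022_s1 t 35 68 2 = true := ex3_c t280_B07pp_022_s1 k26_B07pp_022_s1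

theorem t282_B07pp_022_s1 : ∃ t, chk3 f_B07pp_022_s1 t 17 68 2 = true := ex3_a k23_B07pp_022_s1 t281_B07pp_022_s1

theorem t283_B07pp_022_s1 : ∃ t, chk3 f_B07pp_022_s1 t 17 34 2 = true := ex3_b t282_B07pp_022_s1 k27_B07pp_022_s1

theorem t284_B07pp_022_s1 : ∃ t, chk3 f_B07pp_022_s1 t 17 34 1 = true := ex3_c t283_B07pp_022_s1 k28_B07pp_022_s1

theorem t285_B07pp_022_s1 : ∃ t, chk3 f_B07pp_022_s1 t 17 17 1 = true := ex3_b t284_B07pp_022_s1 k29_B07pp_022_s1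

theorem t286_B07pp_022_s1 : ∃ t, chk3 f_B07pp_022_s1 t 16 17 1 = true := ex3_c k21_B07pp_022_s1 k22_B07pp_022_s1

theorem t287_B07pp_022_s1 : ∃ t, chk3 f_B07pp_022_s1 t 8 17 1 = true := ex3_a t286_B07pp_022_s1 t285_B07pp_022_s1

theorem t288_B07pp_022_s1 : ∃ t, chk3 f_B07pp_022_s1 t 4 17 1 = true := ex3_a t287_B07pp_022_s1 t279_B07pp_022_s1

theorem t289_B07pp_022_s1 : ∃ t, chk3 f_B07pp_022_s1 t 17 67 3 = true := ex3_a k18_B07pp_022_s1 k19_B07pp_022_s1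

theorem t290_B07pp_022_s1 : ∃ t, chk3 f_B07pp_022_s1 t 17 33 3 = true := ex3_b k17_B07pp_022_s1 t289_B07pp_022_s1

theorem t291_B07pp_022_s1 : ∃ t, chk3 f_B07pp_022_s1 t 17 16 3 = true := ex3_b k16_B07pp_022_s1 t290_B07pp_022_s1

theorem t292_B07pp_022_s1 : ∃ t, chk3 f_B07pp_022_s1 t 8 16 3 = true := ex3_a k15_B07pp_022_s1 t291_B07pp_022_s1

theorem t293_B07pp_022_s1 : ∃ t, chk3 f_B07pp_022_s1 t 34 67 5 = true := ex3_c k12_B07pp_022_s1 k13_B07pp_022_s1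

theorem t294_B07pp_022_s1 : ∃ t, chk3 f_B07pp_022_s1 t 17 67 5 = true := ex3_a t293_B07pp_022_s1 k14_B07pp_022_s1

theorem t295_B07pp_022_s1 : ∃ t, chk3 f_B07pp_022_s1 t 34 66 5 = true := ex3_c k9_B07pp_022_s1 k10_B07pp_022_s1

theorem t296_B07pp_022_s1 : ∃ t, chk3 f_B07pp_022_s1 t 17 66 5 = true := ex3_a t295_B07pp_022_s1 k11_B07pp_022_s1

theorem t297_B07pp_022_s1 : ∃ t, chk3 f_B07pp_022_s1 t 17 33 5 = true := ex3_b t296_B07pp_022_s1 t294_B07pp_022_s1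

theorem t298_B07pp_022_s1 : ∃ t, chk3 f_B07pp_022_s1 t 35 67 8 = true := ex3_a k6_B07pp_022_s1 k7_B07pp_022_s1

theorem t299_B07pp_022_s1 : ∃ t, chk3 f_B07pp_022_s1 t 35 67 4 = true := ex3_c t298_B07pp_022_s1 k8_B07pp_022_s1

theorem t300_B07pp_022_s1 : ∃ t, chk3 f_B07pp_022_s1 t 34 67 9 = true := ex3_b k4_B07pp_022_s1 k5_B07pp_022_s1

theorem t301_B07pp_022_s1 : ∃ t, chk3 f_B07pp_022_s1 t 34 67 4 = true := ex3_c k3_B07pp_022_s1 t300_B07pp_022_s1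

theorem t302_B07pp_022_s1 : ∃ t, chk3 f_B07pp_022_s1 t 17 67 4 = true := ex3_a t301_B07pp_022_s1 t299_B07pp_022_s1

theorem t303_B07pp_022_s1 : ∃ t, chk3 f_B07pp_022_s1 t 17 33 4 = true := ex3_b k2_B07pp_022_s1 t302_B07pp_022_s1

theorem t304_B07pp_022_s1 : ∃ t, chk3 f_B07pp_022_s1 t 17 33 2 = true := ex3_c t303_B07pp_022_s1 t297_B07pp_022_s1

theorem t305_B07pp_022_s1 : ∃ t, chk3 f_B07pp_022_s1 t 17 16 2 = true := ex3_b k1_B07pp_022_s1 t304_B07pp_022_s1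

theorem t306_B07pp_022_s1 : ∃ t, chk3 f_B07pp_022_s1 t 8 16 2 = true := ex3_a k0_B07pp_022_s1 t305_B07pp_022_s1

theorem t307_B07pp_022_s1 : ∃ t, chk3 f_B07pp_022_s1 t 8 16 1 = true := ex3_c t306_B07pp_022_s1 t292_B07pp_022_s1

theorem t308_B07pp_022_s1 : ∃ t, chk3 f_B07pp_022_s1 t 4 16 1 = true := ex3_a t307_B07pp_022_s1 k20_B07pp_022_s1

theorem t309_B07pp_022_s1 : ∃ t, chk3 f_B07pp_022_s1 t 4 8 1 = true := ex3_b t308_B07pp_022_s1 t288_B07pp_022_s1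

theorem t310_B07pp_022_s1 : ∃ t, chk3 f_B07pp_022_s1 t 2 8 1 = true := ex3_a t309_B07pp_022_s1 k42_B07pp_022_s1

theorem t311_B07pp_022_s1 : ∃ t, chk3 f_B07pp_022_s1 t 2 4 1 = true := ex3_b t310_B07pp_022_s1 t268_B07pp_022_s1

theorem t312_B07pp_022_s1 : ∃ t, chk3 f_B07pp_022_s1 t 1 4 1 = true := ex3_a t311_B07pp_022_s1 t245_B07pp_022_s1

theorem t313_B07pp_022_s1 : ∃ t, chk3 f_B07pp_022_s1 t 1 2 1 = true := ex3_b t312_B07pp_022_s1 t242_B07pp_022_s1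

theorem t314_B07pp_022_s1 : ∃ t, chk3 f_B07pp_022_s1 t 1 1 1 = true := ex3_b t313_B07pp_022_s1 k157_B07pp_022_s1

theorem c_B07pp_022_s1 : CertFX 0 536870912 1073741824 536870912 1046898278 26843546 false true true .pp 0 2 2
    ndF0q0 ndF7q2 pcF2 cut_B07pp_022_s1 xt_B07pp_022_s1 :=
  certFX1 (fam := false) (s1 := true) (s2 := true) (a := 0) (b := 2) (c := 2) (cn := .pp) (n1 := ndF0q0) (n2 := ndF7q2) (pc := pcF2) (cut := cut_B07pp_022_s1) (xt := xt_B07pp_022_s1) (P1 := 0) (W1 := 536870912) (P2 := 1073741824) (W2 := 536870912) (P3 := 1046898278) (W3 := 26843546)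
    rfl (fun _ => rfl) t314_B07pp_022_s1

theorem s_B07pp_022_s1 {κ x : ℝ} (hκ : κ * h0 = kenE x) (hx : 39 / 40 ≤ x) (hx' : x < 1)
    (H : CutVB (VFD κ) (DD x) tKF tL pcF (Cut.of [[⟨0, 0, 0, 67108864⟩, ⟨1, 1, 0, 67108864⟩, ⟨2, 1, 0, 67108864⟩]]) 0 2 2 0 7 (sgb true) (sgb true) x) :
    AltVB (VFD κ) (DD x) tKF tL pcF [⟨3, 0, 0, 1449551462⟩] 0 2 2 0 7 (sgb true) (sgb true) x :=
  strip_altVB (d := 1449551462) true rfl hκ (κ0 hκ hx) (x0 hx) hx' (covF00 hx hx') (covF72 hx hx') (x1 hx) (x2 hx') c_B07pp_022_s1 H ((ok hx hx').extB (T := tt) (sideF hx hx') hκ (κ0 hκ hx) rfl rfl (.O 0 true) (.N 2 true) rfl)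

theorem t118_B07pp_023_s1 : ∃ t, chk3 f_B07pp_023_s1 t 21 15 1 = true := ex3_b k114_B07pp_023_s1 k115_B07pp_023_s1

theorem t119_B07pp_023_s1 : ∃ t, chk3 f_B07pp_023_s1 t 21 7 1 = true := ex3_b k113_B07pp_023_s1 t118_B07pp_023_s1

theorem t120_B07pp_023_s1 : ∃ t, chk3 f_B07pp_023_s1 t 10726 63 3 = true := ex3_a k108_B07pp_023_s1 k109_B07pp_023_s1

theorem t121_B07pp_023_s1 : ∃ t, chk3 f_B07pp_023_s1 t 5363 63 3 = true := ex3_a t120_B07pp_023_s1 k110_B07pp_023_s1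

theorem t122_B07pp_023_s1 : ∃ t, chk3 f_B07pp_023_s1 t 2681 63 3 = true := ex3_a k107_B07pp_023_s1 t121_B07pp_023_s1

theorem t123_B07pp_023_s1 : ∃ t, chk3 f_B07pp_023_s1 t 1340 63 3 = true := ex3_a k106_B07pp_023_s1 t122_B07pp_023_s1

theorem t124_B07pp_023_s1 : ∃ t, chk3 f_B07pp_023_s1 t 670 63 3 = true := ex3_a t123_B07pp_023_s1 k111_B07pp_023_s1

theorem t125_B07pp_023_s1 : ∃ t, chk3 f_B07pp_023_s1 t 335 63 3 = true := ex3_a t124_B07pp_023_s1 k112_B07pp_023_s1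

theorem t126_B07pp_023_s1 : ∃ t, chk3 f_B07pp_023_s1 t 167 63 3 = true := ex3_a k105_B07pp_023_s1 t125_B07pp_023_s1

theorem t127_B07pp_023_s1 : ∃ t, chk3 f_B07pp_023_s1 t 10726 63 2 = true := ex3_a k100_B07pp_023_s1 k101_B07pp_023_s1

theorem t128_B07pp_023_s1 : ∃ t, chk3 f_B07pp_023_s1 t 5363 63 2 = true := ex3_a t127_B07pp_023_s1 k102_B07pp_023_s1

theorem t129_B07pp_023_s1 : ∃ t, chk3 f_B07pp_023_s1 t 2681 63 2 = true := ex3_a k99_B07pp_023_s1 t128_B07pp_023_s1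

theorem t130_B07pp_023_s1 : ∃ t, chk3 f_B07pp_023_s1 t 1340 63 2 = true := ex3_a k98_B07pp_023_s1 t129_B07pp_023_s1

theorem t131_B07pp_023_s1 : ∃ t, chk3 f_B07pp_023_s1 t 670 63 2 = true := ex3_a t130_B07pp_023_s1 k103_B07pp_023_s1

theorem t132_B07pp_023_s1 : ∃ t, chk3 f_B07pp_023_s1 t 335 63 2 = true := ex3_a t131_B07pp_023_s1 k104_B07pp_023_s1

theorem t133_B07pp_023_s1 : ∃ t, chk3 f_B07pp_023_s1 t 167 63 2 = true := ex3_a k97_B07pp_023_s1 t132_B07pp_023_s1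

theorem t134_B07pp_023_s1 : ∃ t, chk3 f_B07pp_023_s1 t 167 63 1 = true := ex3_c t133_B07pp_023_s1 t126_B07pp_023_s1

theorem t135_B07pp_023_s1 : ∃ t, chk3 f_B07pp_023_s1 t 5492026 62 1 = true := ex3_a k88_B07pp_023_s1 k89_B07pp_023_s1

theorem t136_B07pp_023_s1 : ∃ t, chk3 f_B07pp_023_s1 t 2746013 62 1 = true := ex3_a t135_B07pp_023_s1 k90_B07pp_023_s1

theorem t137_B07pp_023_s1 : ∃ t, chk3 f_B07pp_023_s1 t 1373006 62 1 = true := ex3_a k87_B07pp_023_s1 t136_B07pp_023_s1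

theorem t138_B07pp_023_s1 : ∃ t, chk3 f_B07pp_023_s1 t 686503 62 1 = true := ex3_a t137_B07pp_023_s1 k91_B07pp_023_s1

theorem t139_B07pp_023_s1 : ∃ t, chk3 f_B07pp_023_s1 t 343251 62 1 = true := ex3_a k86_B07pp_023_s1 t138_B07pp_023_s1

theorem t140_B07pp_023_s1 : ∃ t, chk3 f_B07pp_023_s1 t 171625 62 1 = true := ex3_a k85_B07pp_023_s1 t139_B07pp_023_s1

theorem t141_B07pp_023_s1 : ∃ t, chk3 f_B07pp_023_s1 t 85812 62 1 = true := ex3_a k84_B07pp_023_s1 t140_B07pp_023_s1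

theorem t142_B07pp_023_s1 : ∃ t, chk3 f_B07pp_023_s1 t 42906 62 1 = true := ex3_a t141_B07pp_023_s1 k92_B07pp_023_s1

theorem t143_B07pp_023_s1 : ∃ t, chk3 f_B07pp_023_s1 t 21453 62 1 = true := ex3_a t142_B07pp_023_s1 k93_B07pp_023_s1

theorem t144_B07pp_023_s1 : ∃ t, chk3 f_B07pp_023_s1 t 10726 62 1 = true := ex3_a k83_B07pp_023_s1 t143_B07pp_023_s1

theorem t145_B07pp_023_s1 : ∃ t, chk3 f_B07pp_023_s1 t 5363 62 1 = true := ex3_a t144_B07pp_023_s1 k94_B07pp_023_s1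

theorem t146_B07pp_023_s1 : ∃ t, chk3 f_B07pp_023_s1 t 2681 62 1 = true := ex3_a k82_B07pp_023_s1 t145_B07pp_023_s1

theorem t147_B07pp_023_s1 : ∃ t, chk3 f_B07pp_023_s1 t 1340 62 1 = true := ex3_a k81_B07pp_023_s1 t146_B07pp_023_s1

theorem t148_B07pp_023_s1 : ∃ t, chk3 f_B07pp_023_s1 t 670 62 1 = true := ex3_a t147_B07pp_023_s1 k95_B07pp_023_s1

theorem t149_B07pp_023_s1 : ∃ t, chk3 f_B07pp_023_s1 t 335 62 1 = true := ex3_a t148_B07pp_023_s1 k96_B07pp_023_s1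

theorem t150_B07pp_023_s1 : ∃ t, chk3 f_B07pp_023_s1 t 334 62 1 = true := ex3_a k79_B07pp_023_s1 k80_B07pp_023_s1

theorem t151_B07pp_023_s1 : ∃ t, chk3 f_B07pp_023_s1 t 167 62 1 = true := ex3_a t150_B07pp_023_s1 t149_B07pp_023_s1

theorem t152_B07pp_023_s1 : ∃ t, chk3 f_B07pp_023_s1 t 167 31 1 = true := ex3_b t151_B07pp_023_s1 t134_B07pp_023_s1

theorem t153_B07pp_023_s1 : ∃ t, chk3 f_B07pp_023_s1 t 166 31 3 = true := ex3_b k77_B07pp_023_s1 k78_B07pp_023_s1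

theorem t154_B07pp_023_s1 : ∃ t, chk3 f_B07pp_023_s1 t 166 62 2 = true := ex3_a k74_B07pp_023_s1 k75_B07pp_023_s1

theorem t155_B07pp_023_s1 : ∃ t, chk3 f_B07pp_023_s1 t 166 31 2 = true := ex3_b t154_B07pp_023_s1 k76_B07pp_023_s1

theorem t156_B07pp_023_s1 : ∃ t, chk3 f_B07pp_023_s1 t 166 31 1 = true := ex3_c t155_B07pp_023_s1 t153_B07pp_023_s1

theorem t157_B07pp_023_s1 : ∃ t, chk3 f_B07pp_023_s1 t 83 31 1 = true := ex3_a t156_B07pp_023_s1 t152_B07pp_023_s1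

theorem t158_B07pp_023_s1 : ∃ t, chk3 f_B07pp_023_s1 t 5492026 61 1 = true := ex3_a k65_B07pp_023_s1 k66_B07pp_023_s1

theorem t159_B07pp_023_s1 : ∃ t, chk3 f_B07pp_023_s1 t 2746013 61 1 = true := ex3_a t158_B07pp_023_s1 k67_B07pp_023_s1

theorem t160_B07pp_023_s1 : ∃ t, chk3 f_B07pp_023_s1 t 1373006 61 1 = true := ex3_a k64_B07pp_023_s1 t159_B07pp_023_s1

theorem t161_B07pp_023_s1 : ∃ t, chk3 f_B07pp_023_s1 t 686503 61 1 = true := ex3_a t160_B07pp_023_s1 k68_B07pp_023_s1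

theorem t162_B07pp_023_s1 : ∃ t, chk3 f_B07pp_023_s1 t 343251 61 1 = true := ex3_a k63_B07pp_023_s1 t161_B07pp_023_s1

theorem t163_B07pp_023_s1 : ∃ t, chk3 f_B07pp_023_s1 t 171625 61 1 = true := ex3_a k62_B07pp_023_s1 t162_B07pp_023_s1

theorem t164_B07pp_023_s1 : ∃ t, chk3 f_B07pp_023_s1 t 85812 61 1 = true := ex3_a k61_B07pp_023_s1 t163_B07pp_023_s1

theorem t165_B07pp_023_s1 : ∃ t, chk3 f_B07pp_023_s1 t 42906 61 1 = true := ex3_a t164_B07pp_023_s1 k69_B07pp_023_s1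

theorem t166_B07pp_023_s1 : ∃ t, chk3 f_B07pp_023_s1 t 21453 61 1 = true := ex3_a t165_B07pp_023_s1 k70_B07pp_023_s1

theorem t167_B07pp_023_s1 : ∃ t, chk3 f_B07pp_023_s1 t 10726 61 1 = true := ex3_a k60_B07pp_023_s1 t166_B07pp_023_s1

theorem t168_B07pp_023_s1 : ∃ t, chk3 f_B07pp_023_s1 t 5363 61 1 = true := ex3_a t167_B07pp_023_s1 k71_B07pp_023_s1

theorem t169_B07pp_023_s1 : ∃ t, chk3 f_B07pp_023_s1 t 2681 61 1 = true := ex3_a k59_B07pp_023_s1 t168_B07pp_023_s1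

theorem t170_B07pp_023_s1 : ∃ t, chk3 f_B07pp_023_s1 t 1340 61 1 = true := ex3_a k58_B07pp_023_s1 t169_B07pp_023_s1

theorem t171_B07pp_023_s1 : ∃ t, chk3 f_B07pp_023_s1 t 670 61 1 = true := ex3_a t170_B07pp_023_s1 k72_B07pp_023_s1

theorem t172_B07pp_023_s1 : ∃ t, chk3 f_B07pp_023_s1 t 335 61 1 = true := ex3_a t171_B07pp_023_s1 k73_B07pp_023_s1

theorem t173_B07pp_023_s1 : ∃ t, chk3 f_B07pp_023_s1 t 2678 61 1 = true := ex3_a k55_B07pp_023_s1 k56_B07pp_023_s1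

theorem t174_B07pp_023_s1 : ∃ t, chk3 f_B07pp_023_s1 t 1339 61 1 = true := ex3_a t173_B07pp_023_s1 k57_B07pp_023_s1

theorem t175_B07pp_023_s1 : ∃ t, chk3 f_B07pp_023_s1 t 669 61 1 = true := ex3_a k54_B07pp_023_s1 t174_B07pp_023_s1

theorem t176_B07pp_023_s1 : ∃ t, chk3 f_B07pp_023_s1 t 334 61 1 = true := ex3_a k53_B07pp_023_s1 t175_B07pp_023_s1

theorem t177_B07pp_023_s1 : ∃ t, chk3 f_B07pp_023_s1 t 167 61 1 = true := ex3_a t176_B07pp_023_s1 t172_B07pp_023_s1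

theorem t178_B07pp_023_s1 : ∃ t, chk3 f_B07pp_023_s1 t 5492026 60 1 = true := ex3_a k44_B07pp_023_s1 k45_B07pp_023_s1

theorem t179_B07pp_023_s1 : ∃ t, chk3 f_B07pp_023_s1 t 2746013 60 1 = true := ex3_a t178_B07pp_023_s1 k46_B07pp_023_s1

theorem t180_B07pp_023_s1 : ∃ t, chk3 f_B07pp_023_s1 t 1373006 60 1 = true := ex3_a k43_B07pp_023_s1 t179_B07pp_023_s1

theorem t181_B07pp_023_s1 : ∃ t, chk3 f_B07pp_023_s1 t 686503 60 1 = true := ex3_a t180_B07pp_023_s1 k47_B07pp_023_s1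

theorem t182_B07pp_023_s1 : ∃ t, chk3 f_B07pp_023_s1 t 343251 60 1 = true := ex3_a k42_B07pp_023_s1 t181_B07pp_023_s1

theorem t183_B07pp_023_s1 : ∃ t, chk3 f_B07pp_023_s1 t 171625 60 1 = true := ex3_a k41_B07pp_023_s1 t182_B07pp_023_s1

theorem t184_B07pp_023_s1 : ∃ t, chk3 f_B07pp_023_s1 t 85812 60 1 = true := ex3_a k40_B07pp_023_s1 t183_B07pp_023_s1

theorem t185_B07pp_023_s1 : ∃ t, chk3 f_B07pp_023_s1 t 42906 60 1 = true := ex3_a t184_B07pp_023_s1 k48_B07pp_023_s1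

theorem t186_B07pp_023_s1 : ∃ t, chk3 f_B07pp_023_s1 t 21453 60 1 = true := ex3_a t185_B07pp_023_s1 k49_B07pp_023_s1

theorem t187_B07pp_023_s1 : ∃ t, chk3 f_B07pp_023_s1 t 21452 60 1 = true := ex3_a k38_B07pp_023_s1 k39_B07pp_023_s1

theorem t188_B07pp_023_s1 : ∃ t, chk3 f_B07pp_023_s1 t 10726 60 1 = true := ex3_a t187_B07pp_023_s1 t186_B07pp_023_s1

theorem t189_B07pp_023_s1 : ∃ t, chk3 f_B07pp_023_s1 t 5363 60 1 = true := ex3_a t188_B07pp_023_s1 k50_B07pp_023_s1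

theorem t190_B07pp_023_s1 : ∃ t, chk3 f_B07pp_023_s1 t 5362 60 1 = true := ex3_a k36_B07pp_023_s1 k37_B07pp_023_s1

theorem t191_B07pp_023_s1 : ∃ t, chk3 f_B07pp_023_s1 t 2681 60 1 = true := ex3_a t190_B07pp_023_s1 t189_B07pp_023_s1

theorem t192_B07pp_023_s1 : ∃ t, chk3 f_B07pp_023_s1 t 2680 60 1 = true := ex3_a k34_B07pp_023_s1 k35_B07pp_023_s1

theorem t193_B07pp_023_s1 : ∃ t, chk3 f_B07pp_023_s1 t 1340 60 1 = true := ex3_a t192_B07pp_023_s1 t191_B07pp_023_s1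

theorem t194_B07pp_023_s1 : ∃ t, chk3 f_B07pp_023_s1 t 670 60 1 = true := ex3_a t193_B07pp_023_s1 k51_B07pp_023_s1

theorem t195_B07pp_023_s1 : ∃ t, chk3 f_B07pp_023_s1 t 335 60 1 = true := ex3_a t194_B07pp_023_s1 k52_B07pp_023_s1

theorem t196_B07pp_023_s1 : ∃ t, chk3 f_B07pp_023_s1 t 2678 60 1 = true := ex3_a k31_B07pp_023_s1 k32_B07pp_023_s1

theorem t197_B07pp_023_s1 : ∃ t, chk3 f_B07pp_023_s1 t 1339 60 1 = true := ex3_a t196_B07pp_023_s1 k33_B07pp_023_s1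

theorem t198_B07pp_023_s1 : ∃ t, chk3 f_B07pp_023_s1 t 669 60 1 = true := ex3_a k30_B07pp_023_s1 t197_B07pp_023_s1

theorem t199_B07pp_023_s1 : ∃ t, chk3 f_B07pp_023_s1 t 334 60 1 = true := ex3_a k29_B07pp_023_s1 t198_B07pp_023_s1

theorem t200_B07pp_023_s1 : ∃ t, chk3 f_B07pp_023_s1 t 167 60 1 = true := ex3_a t199_B07pp_023_s1 t195_B07pp_023_s1

theorem t201_B07pp_023_s1 : ∃ t, chk3 f_B07pp_023_s1 t 167 30 1 = true := ex3_b t200_B07pp_023_s1 t177_B07pp_023_s1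

theorem t202_B07pp_023_s1 : ∃ t, chk3 f_B07pp_023_s1 t 166 61 2 = true := ex3_c k26_B07pp_023_s1 k27_B07pp_023_s1

theorem t203_B07pp_023_s1 : ∃ t, chk3 f_B07pp_023_s1 t 166 61 1 = true := ex3_c t202_B07pp_023_s1 k28_B07pp_023_s1

theorem t204_B07pp_023_s1 : ∃ t, chk3 f_B07pp_023_s1 t 166 60 1 = true := ex3_c k24_B07pp_023_s1 k25_B07pp_023_s1

theorem t205_B07pp_023_s1 : ∃ t, chk3 f_B07pp_023_s1 t 166 30 1 = true := ex3_b t204_B07pp_023_s1 t203_B07pp_023_s1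

theorem t206_B07pp_023_s1 : ∃ t, chk3 f_B07pp_023_s1 t 83 30 1 = true := ex3_a t205_B07pp_023_s1 t201_B07pp_023_s1

theorem t207_B07pp_023_s1 : ∃ t, chk3 f_B07pp_023_s1 t 83 15 1 = true := ex3_b t206_B07pp_023_s1 t157_B07pp_023_s1

theorem t208_B07pp_023_s1 : ∃ t, chk3 f_B07pp_023_s1 t 82 15 3 = true := ex3_b k22_B07pp_023_s1 k23_B07pp_023_s1

theorem t209_B07pp_023_s1 : ∃ t, chk3 f_B07pp_023_s1 t 82 31 2 = true := ex3_a k20_B07pp_023_s1 k21_B07pp_023_s1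

theorem t210_B07pp_023_s1 : ∃ t, chk3 f_B07pp_023_s1 t 165 30 2 = true := ex3_b k18_B07pp_023_s1 k19_B07pp_023_s1

theorem t211_B07pp_023_s1 : ∃ t, chk3 f_B07pp_023_s1 t 82 30 2 = true := ex3_a k17_B07pp_023_s1 t210_B07pp_023_s1

theorem t212_B07pp_023_s1 : ∃ t, chk3 f_B07pp_023_s1 t 82 15 2 = true := ex3_b t211_B07pp_023_s1 t209_B07pp_023_s1

theorem t213_B07pp_023_s1 : ∃ t, chk3 f_B07pp_023_s1 t 82 15 1 = true := ex3_c t212_B07pp_023_s1 t208_B07pp_023_s1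

theorem t214_B07pp_023_s1 : ∃ t, chk3 f_B07pp_023_s1 t 41 15 1 = true := ex3_a t213_B07pp_023_s1 t207_B07pp_023_s1

theorem t215_B07pp_023_s1 : ∃ t, chk3 f_B07pp_023_s1 t 83 29 7 = true := ex3_b k15_B07pp_023_s1 k16_B07pp_023_s1

theorem t216_B07pp_023_s1 : ∃ t, chk3 f_B07pp_023_s1 t 83 59 6 = true := ex3_c k13_B07pp_023_s1 k14_B07pp_023_s1

theorem t217_B07pp_023_s1 : ∃ t, chk3 f_B07pp_023_s1 t 83 29 6 = true := ex3_b k12_B07pp_023_s1 t216_B07pp_023_s1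

theorem t218_B07pp_023_s1 : ∃ t, chk3 f_B07pp_023_s1 t 83 29 3 = true := ex3_c t217_B07pp_023_s1 t215_B07pp_023_s1

theorem t219_B07pp_023_s1 : ∃ t, chk3 f_B07pp_023_s1 t 83 59 5 = true := ex3_c k10_B07pp_023_s1 k11_B07pp_023_s1

theorem t220_B07pp_023_s1 : ∃ t, chk3 f_B07pp_023_s1 t 83 29 5 = true := ex3_b k9_B07pp_023_s1 t219_B07pp_023_s1

theorem t221_B07pp_023_s1 : ∃ t, chk3 f_B07pp_023_s1 t 83 59 4 = true := ex3_c k7_B07pp_023_s1 k8_B07pp_023_s1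

theorem t222_B07pp_023_s1 : ∃ t, chk3 f_B07pp_023_s1 t 83 29 4 = true := ex3_b k6_B07pp_023_s1 t221_B07pp_023_s1

theorem t223_B07pp_023_s1 : ∃ t, chk3 f_B07pp_023_s1 t 83 29 2 = true := ex3_c t222_B07pp_023_s1 t220_B07pp_023_s1

theorem t224_B07pp_023_s1 : ∃ t, chk3 f_B07pp_023_s1 t 83 29 1 = true := ex3_c t223_B07pp_023_s1 t218_B07pp_023_s1

theorem t225_B07pp_023_s1 : ∃ t, chk3 f_B07pp_023_s1 t 83 14 1 = true := ex3_b k5_B07pp_023_s1 t224_B07pp_023_s1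

theorem t226_B07pp_023_s1 : ∃ t, chk3 f_B07pp_023_s1 t 41 14 1 = true := ex3_a k4_B07pp_023_s1 t225_B07pp_023_s1

theorem t227_B07pp_023_s1 : ∃ t, chk3 f_B07pp_023_s1 t 41 7 1 = true := ex3_b t226_B07pp_023_s1 t214_B07pp_023_s1

theorem t228_B07pp_023_s1 : ∃ t, chk3 f_B07pp_023_s1 t 20 7 1 = true := ex3_a k3_B07pp_023_s1 t227_B07pp_023_s1

theorem t229_B07pp_023_s1 : ∃ t, chk3 f_B07pp_023_s1 t 10 7 1 = true := ex3_a t228_B07pp_023_s1 t119_B07pp_023_s1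

theorem t230_B07pp_023_s1 : ∃ t, chk3 f_B07pp_023_s1 t 10 3 1 = true := ex3_b k2_B07pp_023_s1 t229_B07pp_023_s1

theorem t231_B07pp_023_s1 : ∃ t, chk3 f_B07pp_023_s1 t 5 3 1 = true := ex3_a t230_B07pp_023_s1 k116_B07pp_023_s1

theorem t232_B07pp_023_s1 : ∃ t, chk3 f_B07pp_023_s1 t 5 1 1 = true := ex3_b k1_B07pp_023_s1 t231_B07pp_023_s1

theorem t233_B07pp_023_s1 : ∃ t, chk3 f_B07pp_023_s1 t 2 1 1 = true := ex3_a k0_B07pp_023_s1 t232_B07pp_023_s1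

theorem t234_B07pp_023_s1 : ∃ t, chk3 f_B07pp_023_s1 t 1 1 1 = true := ex3_a t233_B07pp_023_s1 k117_B07pp_023_s1

theorem c_B07pp_023_s1 : CertFX 0 536870912 0 1230186008 1046898278 26843546 false true true .up 0 2 3
    ndF0q0 ndF7q3 pcF2 cut_B07pp_023_s1 xt_B07pp_023_s1 :=
  certFX2 (fam := false) (s1 := true) (s2 := true) (a := 0) (b := 2) (c := 3) (cn := .up) (n1 := ndF0q0) (n2 := ndF7q3) (pc := pcF2) (cut := cut_B07pp_023_s1) (xt := xt_B07pp_023_s1) (P1 := 0) (W1 := 536870912) (P2 := 0) (W2 := 1230186008) (P3 := 1046898278) (W3 := 26843546)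
    rfl (fun _ => rfl) t234_B07pp_023_s1

theorem s_B07pp_023_s1 {κ x : ℝ} (hκ : κ * h0 = kenE x) (hx : 39 / 40 ≤ x) (hx' : x < 1) :
    AltVB (VFD κ) (DD x) tKF tL pcF [⟨3, 0, 0, 1449551462⟩] 0 2 3 0 7 (sgb true) (sgb true) x :=
  strip_altVB (d := 1449551462) true rfl hκ (κ0 hκ hx) (x0 hx) hx' (covF00 hx hx') (covF73 hx hx') (x1 hx) (x2 hx') c_B07pp_023_s1 cutVB_nil ((ok hx hx').extB (T := tt) (sideF hx hx') hκ (κ0 hκ hx) rfl rfl (.O 0 true) (.N 3 true) rfl)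

theorem t235_B07pp_123_s1 : ∃ t, chk3 f_B07pp_123_s1 t 83 58 7 = true := ex3_c k228_B07pp_123_s1 k229_B07pp_123_s1

theorem t236_B07pp_123_s1 : ∃ t, chk3 f_B07pp_123_s1 t 83 29 7 = true := ex3_b t235_B07pp_123_s1 k230_B07pp_123_s1

theorem t237_B07pp_123_s1 : ∃ t, chk3 f_B07pp_123_s1 t 83 58 6 = true := ex3_c k225_B07pp_123_s1 k226_B07pp_123_s1

theorem t238_B07pp_123_s1 : ∃ t, chk3 f_B07pp_123_s1 t 83 29 6 = true := ex3_b t237_B07pp_123_s1 k227_B07pp_123_s1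

theorem t239_B07pp_123_s1 : ∃ t, chk3 f_B07pp_123_s1 t 83 29 3 = true := ex3_c t238_B07pp_123_s1 t236_B07pp_123_s1

theorem t240_B07pp_123_s1 : ∃ t, chk3 f_B07pp_123_s1 t 83 58 5 = true := ex3_c k222_B07pp_123_s1 k223_B07pp_123_s1

theorem t241_B07pp_123_s1 : ∃ t, chk3 f_B07pp_123_s1 t 83 29 5 = true := ex3_b t240_B07pp_123_s1 k224_B07pp_123_s1

theorem t242_B07pp_123_s1 : ∃ t, chk3 f_B07pp_123_s1 t 83 58 4 = true := ex3_c k219_B07pp_123_s1 k220_B07pp_123_s1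

theorem t243_B07pp_123_s1 : ∃ t, chk3 f_B07pp_123_s1 t 83 29 4 = true := ex3_b t242_B07pp_123_s1 k221_B07pp_123_s1

theorem t244_B07pp_123_s1 : ∃ t, chk3 f_B07pp_123_s1 t 83 29 2 = true := ex3_c t243_B07pp_123_s1 t241_B07pp_123_s1

theorem t245_B07pp_123_s1 : ∃ t, chk3 f_B07pp_123_s1 t 83 29 1 = true := ex3_c t244_B07pp_123_s1 t239_B07pp_123_s1

theorem t246_B07pp_123_s1 : ∃ t, chk3 f_B07pp_123_s1 t 167 57 3 = true := ex3_c k217_B07pp_123_s1 k218_B07pp_123_s1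

theorem t247_B07pp_123_s1 : ∃ t, chk3 f_B07pp_123_s1 t 167 57 5 = true := ex3_b k215_B07pp_123_s1 k216_B07pp_123_s1

theorem t248_B07pp_123_s1 : ∃ t, chk3 f_B07pp_123_s1 t 167 57 4 = true := ex3_b k213_B07pp_123_s1 k214_B07pp_123_s1

theorem t249_B07pp_123_s1 : ∃ t, chk3 f_B07pp_123_s1 t 167 57 2 = true := ex3_c t248_B07pp_123_s1 t247_B07pp_123_s1

theorem t250_B07pp_123_s1 : ∃ t, chk3 f_B07pp_123_s1 t 167 57 1 = true := ex3_c t249_B07pp_123_s1 t246_B07pp_123_s1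

theorem t251_B07pp_123_s1 : ∃ t, chk3 f_B07pp_123_s1 t 343251 56 1 = true := ex3_a k206_B07pp_123_s1 k207_B07pp_123_s1

theorem t252_B07pp_123_s1 : ∃ t, chk3 f_B07pp_123_s1 t 171625 56 1 = true := ex3_a k205_B07pp_123_s1 t251_B07pp_123_s1

theorem t253_B07pp_123_s1 : ∃ t, chk3 f_B07pp_123_s1 t 85812 56 1 = true := ex3_a k204_B07pp_123_s1 t252_B07pp_123_s1

theorem t254_B07pp_123_s1 : ∃ t, chk3 f_B07pp_123_s1 t 42906 56 1 = true := ex3_a t253_B07pp_123_s1 k208_B07pp_123_s1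

theorem t255_B07pp_123_s1 : ∃ t, chk3 f_B07pp_123_s1 t 21453 56 1 = true := ex3_a t254_B07pp_123_s1 k209_B07pp_123_s1

theorem t256_B07pp_123_s1 : ∃ t, chk3 f_B07pp_123_s1 t 10726 56 1 = true := ex3_a k203_B07pp_123_s1 t255_B07pp_123_s1

theorem t257_B07pp_123_s1 : ∃ t, chk3 f_B07pp_123_s1 t 5363 56 1 = true := ex3_a t256_B07pp_123_s1 k210_B07pp_123_s1

theorem t258_B07pp_123_s1 : ∃ t, chk3 f_B07pp_123_s1 t 2681 56 1 = true := ex3_a k202_B07pp_123_s1 t257_B07pp_123_s1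

theorem t259_B07pp_123_s1 : ∃ t, chk3 f_B07pp_123_s1 t 1340 56 1 = true := ex3_a k201_B07pp_123_s1 t258_B07pp_123_s1

theorem t260_B07pp_123_s1 : ∃ t, chk3 f_B07pp_123_s1 t 670 56 1 = true := ex3_a t259_B07pp_123_s1 k211_B07pp_123_s1

theorem t261_B07pp_123_s1 : ∃ t, chk3 f_B07pp_123_s1 t 335 56 1 = true := ex3_a t260_B07pp_123_s1 k212_B07pp_123_s1

theorem t262_B07pp_123_s1 : ∃ t, chk3 f_B07pp_123_s1 t 167 56 1 = true := ex3_a k200_B07pp_123_s1 t261_B07pp_123_s1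

theorem t263_B07pp_123_s1 : ∃ t, chk3 f_B07pp_123_s1 t 167 28 1 = true := ex3_b t262_B07pp_123_s1 t250_B07pp_123_s1

theorem t264_B07pp_123_s1 : ∃ t, chk3 f_B07pp_123_s1 t 83 28 1 = true := ex3_a k199_B07pp_123_s1 t263_B07pp_123_s1

theorem t265_B07pp_123_s1 : ∃ t, chk3 f_B07pp_123_s1 t 83 14 1 = true := ex3_b t264_B07pp_123_s1 t245_B07pp_123_s1

theorem t266_B07pp_123_s1 : ∃ t, chk3 f_B07pp_123_s1 t 41 14 1 = true := ex3_a k198_B07pp_123_s1 t265_B07pp_123_s1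

theorem t267_B07pp_123_s1 : ∃ t, chk3 f_B07pp_123_s1 t 41 7 1 = true := ex3_b t266_B07pp_123_s1 k231_B07pp_123_s1

theorem t268_B07pp_123_s1 : ∃ t, chk3 f_B07pp_123_s1 t 20 7 1 = true := ex3_a k197_B07pp_123_s1 t267_B07pp_123_s1

theorem t269_B07pp_123_s1 : ∃ t, chk3 f_B07pp_123_s1 t 10 7 1 = true := ex3_a t268_B07pp_123_s1 k232_B07pp_123_s1

theorem t270_B07pp_123_s1 : ∃ t, chk3 f_B07pp_123_s1 t 83 54 7 = true := ex3_c k193_B07pp_123_s1 k194_B07pp_123_s1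

theorem t271_B07pp_123_s1 : ∃ t, chk3 f_B07pp_123_s1 t 83 27 7 = true := ex3_b t270_B07pp_123_s1 k195_B07pp_123_s1

theorem t272_B07pp_123_s1 : ∃ t, chk3 f_B07pp_123_s1 t 83 54 6 = true := ex3_c k190_B07pp_123_s1 k191_B07pp_123_s1

theorem t273_B07pp_123_s1 : ∃ t, chk3 f_B07pp_123_s1 t 83 27 6 = true := ex3_b t272_B07pp_123_s1 k192_B07pp_123_s1

theorem t274_B07pp_123_s1 : ∃ t, chk3 f_B07pp_123_s1 t 83 27 3 = true := ex3_c t273_B07pp_123_s1 t271_B07pp_123_s1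

theorem t275_B07pp_123_s1 : ∃ t, chk3 f_B07pp_123_s1 t 83 54 5 = true := ex3_c k187_B07pp_123_s1 k188_B07pp_123_s1

theorem t276_B07pp_123_s1 : ∃ t, chk3 f_B07pp_123_s1 t 83 27 5 = true := ex3_b t275_B07pp_123_s1 k189_B07pp_123_s1

theorem t277_B07pp_123_s1 : ∃ t, chk3 f_B07pp_123_s1 t 83 54 4 = true := ex3_c k184_B07pp_123_s1 k185_B07pp_123_s1

theorem t278_B07pp_123_s1 : ∃ t, chk3 f_B07pp_123_s1 t 83 27 4 = true := ex3_b t277_B07pp_123_s1 k186_B07pp_123_s1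

theorem t279_B07pp_123_s1 : ∃ t, chk3 f_B07pp_123_s1 t 83 27 2 = true := ex3_c t278_B07pp_123_s1 t276_B07pp_123_s1

theorem t280_B07pp_123_s1 : ∃ t, chk3 f_B07pp_123_s1 t 83 27 1 = true := ex3_c t279_B07pp_123_s1 t274_B07pp_123_s1

theorem t281_B07pp_123_s1 : ∃ t, chk3 f_B07pp_123_s1 t 167 52 7 = true := ex3_a k181_B07pp_123_s1 k182_B07pp_123_s1

theorem t282_B07pp_123_s1 : ∃ t, chk3 f_B07pp_123_s1 t 83 52 7 = true := ex3_a k180_B07pp_123_s1 t281_B07pp_123_s1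

theorem t283_B07pp_123_s1 : ∃ t, chk3 f_B07pp_123_s1 t 83 26 7 = true := ex3_b t282_B07pp_123_s1 k183_B07pp_123_s1

theorem t284_B07pp_123_s1 : ∃ t, chk3 f_B07pp_123_s1 t 167 52 6 = true := ex3_a k177_B07pp_123_s1 k178_B07pp_123_s1

theorem t285_B07pp_123_s1 : ∃ t, chk3 f_B07pp_123_s1 t 83 52 6 = true := ex3_a k176_B07pp_123_s1 t284_B07pp_123_s1

theorem t286_B07pp_123_s1 : ∃ t, chk3 f_B07pp_123_s1 t 83 26 6 = true := ex3_b t285_B07pp_123_s1 k179_B07pp_123_s1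

theorem t287_B07pp_123_s1 : ∃ t, chk3 f_B07pp_123_s1 t 83 26 3 = true := ex3_c t286_B07pp_123_s1 t283_B07pp_123_s1

theorem t288_B07pp_123_s1 : ∃ t, chk3 f_B07pp_123_s1 t 83 53 5 = true := ex3_c k174_B07pp_123_s1 k175_B07pp_123_s1

theorem t289_B07pp_123_s1 : ∃ t, chk3 f_B07pp_123_s1 t 167 52 5 = true := ex3_a k172_B07pp_123_s1 k173_B07pp_123_s1

theorem t290_B07pp_123_s1 : ∃ t, chk3 f_B07pp_123_s1 t 83 52 5 = true := ex3_a k171_B07pp_123_s1 t289_B07pp_123_s1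

theorem t291_B07pp_123_s1 : ∃ t, chk3 f_B07pp_123_s1 t 83 26 5 = true := ex3_b t290_B07pp_123_s1 t288_B07pp_123_s1

theorem t292_B07pp_123_s1 : ∃ t, chk3 f_B07pp_123_s1 t 83 53 4 = true := ex3_c k169_B07pp_123_s1 k170_B07pp_123_s1

theorem t293_B07pp_123_s1 : ∃ t, chk3 f_B07pp_123_s1 t 167 52 4 = true := ex3_a k167_B07pp_123_s1 k168_B07pp_123_s1

theorem t294_B07pp_123_s1 : ∃ t, chk3 f_B07pp_123_s1 t 83 52 4 = true := ex3_a k166_B07pp_123_s1 t293_B07pp_123_s1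

theorem t295_B07pp_123_s1 : ∃ t, chk3 f_B07pp_123_s1 t 83 26 4 = true := ex3_b t294_B07pp_123_s1 t292_B07pp_123_s1

theorem t296_B07pp_123_s1 : ∃ t, chk3 f_B07pp_123_s1 t 83 26 2 = true := ex3_c t295_B07pp_123_s1 t291_B07pp_123_s1

theorem t297_B07pp_123_s1 : ∃ t, chk3 f_B07pp_123_s1 t 83 26 1 = true := ex3_c t296_B07pp_123_s1 t287_B07pp_123_s1

theorem t298_B07pp_123_s1 : ∃ t, chk3 f_B07pp_123_s1 t 83 13 1 = true := ex3_b t297_B07pp_123_s1 t280_B07pp_123_s1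

theorem t299_B07pp_123_s1 : ∃ t, chk3 f_B07pp_123_s1 t 41 13 1 = true := ex3_a k165_B07pp_123_s1 t298_B07pp_123_s1

theorem t300_B07pp_123_s1 : ∃ t, chk3 f_B07pp_123_s1 t 5492026 51 1 = true := ex3_a k156_B07pp_123_s1 k157_B07pp_123_s1

theorem t301_B07pp_123_s1 : ∃ t, chk3 f_B07pp_123_s1 t 2746013 51 1 = true := ex3_a t300_B07pp_123_s1 k158_B07pp_123_s1

theorem t302_B07pp_123_s1 : ∃ t, chk3 f_B07pp_123_s1 t 1373006 51 1 = true := ex3_a k155_B07pp_123_s1 t301_B07pp_123_s1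

theorem t303_B07pp_123_s1 : ∃ t, chk3 f_B07pp_123_s1 t 686503 51 1 = true := ex3_a t302_B07pp_123_s1 k159_B07pp_123_s1

theorem t304_B07pp_123_s1 : ∃ t, chk3 f_B07pp_123_s1 t 343251 51 1 = true := ex3_a k154_B07pp_123_s1 t303_B07pp_123_s1

theorem t305_B07pp_123_s1 : ∃ t, chk3 f_B07pp_123_s1 t 171625 51 1 = true := ex3_a k153_B07pp_123_s1 t304_B07pp_123_s1

theorem t306_B07pp_123_s1 : ∃ t, chk3 f_B07pp_123_s1 t 85812 51 1 = true := ex3_a k152_B07pp_123_s1 t305_B07pp_123_s1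

theorem t307_B07pp_123_s1 : ∃ t, chk3 f_B07pp_123_s1 t 42906 51 1 = true := ex3_a t306_B07pp_123_s1 k160_B07pp_123_s1

theorem t308_B07pp_123_s1 : ∃ t, chk3 f_B07pp_123_s1 t 21453 51 1 = true := ex3_a t307_B07pp_123_s1 k161_B07pp_123_s1

theorem t309_B07pp_123_s1 : ∃ t, chk3 f_B07pp_123_s1 t 10726 51 1 = true := ex3_a k151_B07pp_123_s1 t308_B07pp_123_s1

theorem t310_B07pp_123_s1 : ∃ t, chk3 f_B07pp_123_s1 t 5363 51 1 = true := ex3_a t309_B07pp_123_s1 k162_B07pp_123_s1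

theorem t311_B07pp_123_s1 : ∃ t, chk3 f_B07pp_123_s1 t 2681 51 1 = true := ex3_a k150_B07pp_123_s1 t310_B07pp_123_s1

theorem t312_B07pp_123_s1 : ∃ t, chk3 f_B07pp_123_s1 t 1340 51 1 = true := ex3_a k149_B07pp_123_s1 t311_B07pp_123_s1

theorem t313_B07pp_123_s1 : ∃ t, chk3 f_B07pp_123_s1 t 670 51 1 = true := ex3_a t312_B07pp_123_s1 k163_B07pp_123_s1

theorem t314_B07pp_123_s1 : ∃ t, chk3 f_B07pp_123_s1 t 335 51 1 = true := ex3_a t313_B07pp_123_s1 k164_B07pp_123_s1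

theorem t315_B07pp_123_s1 : ∃ t, chk3 f_B07pp_123_s1 t 669 51 1 = true := ex3_a k147_B07pp_123_s1 k148_B07pp_123_s1

theorem t316_B07pp_123_s1 : ∃ t, chk3 f_B07pp_123_s1 t 334 51 1 = true := ex3_a k146_B07pp_123_s1 t315_B07pp_123_s1

theorem t317_B07pp_123_s1 : ∃ t, chk3 f_B07pp_123_s1 t 167 51 1 = true := ex3_a t316_B07pp_123_s1 t314_B07pp_123_s1

theorem t318_B07pp_123_s1 : ∃ t, chk3 f_B07pp_123_s1 t 686503 50 1 = true := ex3_a k139_B07pp_123_s1 k140_B07pp_123_s1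

theorem t319_B07pp_123_s1 : ∃ t, chk3 f_B07pp_123_s1 t 343251 50 1 = true := ex3_a k138_B07pp_123_s1 t318_B07pp_123_s1

theorem t320_B07pp_123_s1 : ∃ t, chk3 f_B07pp_123_s1 t 171625 50 1 = true := ex3_a k137_B07pp_123_s1 t319_B07pp_123_s1

theorem t321_B07pp_123_s1 : ∃ t, chk3 f_B07pp_123_s1 t 85812 50 1 = true := ex3_a k136_B07pp_123_s1 t320_B07pp_123_s1

theorem t322_B07pp_123_s1 : ∃ t, chk3 f_B07pp_123_s1 t 42906 50 1 = true := ex3_a t321_B07pp_123_s1 k141_B07pp_123_s1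

theorem t323_B07pp_123_s1 : ∃ t, chk3 f_B07pp_123_s1 t 21453 50 1 = true := ex3_a t322_B07pp_123_s1 k142_B07pp_123_s1

theorem t324_B07pp_123_s1 : ∃ t, chk3 f_B07pp_123_s1 t 10726 50 1 = true := ex3_a k135_B07pp_123_s1 t323_B07pp_123_s1

theorem t325_B07pp_123_s1 : ∃ t, chk3 f_B07pp_123_s1 t 5363 50 1 = true := ex3_a t324_B07pp_123_s1 k143_B07pp_123_s1

theorem t326_B07pp_123_s1 : ∃ t, chk3 f_B07pp_123_s1 t 2681 50 1 = true := ex3_a k134_B07pp_123_s1 t325_B07pp_123_s1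

theorem t327_B07pp_123_s1 : ∃ t, chk3 f_B07pp_123_s1 t 1340 50 1 = true := ex3_a k133_B07pp_123_s1 t326_B07pp_123_s1

theorem t328_B07pp_123_s1 : ∃ t, chk3 f_B07pp_123_s1 t 670 50 1 = true := ex3_a t327_B07pp_123_s1 k144_B07pp_123_s1

theorem t329_B07pp_123_s1 : ∃ t, chk3 f_B07pp_123_s1 t 335 50 1 = true := ex3_a t328_B07pp_123_s1 k145_B07pp_123_s1

theorem t330_B07pp_123_s1 : ∃ t, chk3 f_B07pp_123_s1 t 669 50 1 = true := ex3_a k131_B07pp_123_s1 k132_B07pp_123_s1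

theorem t331_B07pp_123_s1 : ∃ t, chk3 f_B07pp_123_s1 t 334 50 1 = true := ex3_a k130_B07pp_123_s1 t330_B07pp_123_s1

theorem t332_B07pp_123_s1 : ∃ t, chk3 f_B07pp_123_s1 t 167 50 1 = true := ex3_a t331_B07pp_123_s1 t329_B07pp_123_s1

theorem t333_B07pp_123_s1 : ∃ t, chk3 f_B07pp_123_s1 t 167 25 1 = true := ex3_b t332_B07pp_123_s1 t317_B07pp_123_s1

theorem t334_B07pp_123_s1 : ∃ t, chk3 f_B07pp_123_s1 t 166 51 1 = true := ex3_c k128_B07pp_123_s1 k129_B07pp_123_s1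

theorem t335_B07pp_123_s1 : ∃ t, chk3 f_B07pp_123_s1 t 166 50 1 = true := ex3_c k126_B07pp_123_s1 k127_B07pp_123_s1

theorem t336_B07pp_123_s1 : ∃ t, chk3 f_B07pp_123_s1 t 166 25 1 = true := ex3_b t335_B07pp_123_s1 t334_B07pp_123_s1

theorem t337_B07pp_123_s1 : ∃ t, chk3 f_B07pp_123_s1 t 83 25 1 = true := ex3_a t336_B07pp_123_s1 t333_B07pp_123_s1

theorem t338_B07pp_123_s1 : ∃ t, chk3 f_B07pp_123_s1 t 343251 49 1 = true := ex3_a k119_B07pp_123_s1 k120_B07pp_123_s1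

theorem t339_B07pp_123_s1 : ∃ t, chk3 f_B07pp_123_s1 t 171625 49 1 = true := ex3_a k118_B07pp_123_s1 t338_B07pp_123_s1

theorem t340_B07pp_123_s1 : ∃ t, chk3 f_B07pp_123_s1 t 85812 49 1 = true := ex3_a k117_B07pp_123_s1 t339_B07pp_123_s1

theorem t341_B07pp_123_s1 : ∃ t, chk3 f_B07pp_123_s1 t 42906 49 1 = true := ex3_a t340_B07pp_123_s1 k121_B07pp_123_s1

theorem t342_B07pp_123_s1 : ∃ t, chk3 f_B07pp_123_s1 t 21453 49 1 = true := ex3_a t341_B07pp_123_s1 k122_B07pp_123_s1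

theorem t343_B07pp_123_s1 : ∃ t, chk3 f_B07pp_123_s1 t 10726 49 1 = true := ex3_a k116_B07pp_123_s1 t342_B07pp_123_s1

theorem t344_B07pp_123_s1 : ∃ t, chk3 f_B07pp_123_s1 t 5363 49 1 = true := ex3_a t343_B07pp_123_s1 k123_B07pp_123_s1

theorem t345_B07pp_123_s1 : ∃ t, chk3 f_B07pp_123_s1 t 2681 49 1 = true := ex3_a k115_B07pp_123_s1 t344_B07pp_123_s1

theorem t346_B07pp_123_s1 : ∃ t, chk3 f_B07pp_123_s1 t 1340 49 1 = true := ex3_a k114_B07pp_123_s1 t345_B07pp_123_s1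

theorem t347_B07pp_123_s1 : ∃ t, chk3 f_B07pp_123_s1 t 670 49 1 = true := ex3_a t346_B07pp_123_s1 k124_B07pp_123_s1

theorem t348_B07pp_123_s1 : ∃ t, chk3 f_B07pp_123_s1 t 335 49 1 = true := ex3_a t347_B07pp_123_s1 k125_B07pp_123_s1

theorem t349_B07pp_123_s1 : ∃ t, chk3 f_B07pp_123_s1 t 167 49 1 = true := ex3_a k113_B07pp_123_s1 t348_B07pp_123_s1

theorem t350_B07pp_123_s1 : ∃ t, chk3 f_B07pp_123_s1 t 10726 48 1 = true := ex3_a k108_B07pp_123_s1 k109_B07pp_123_s1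

theorem t351_B07pp_123_s1 : ∃ t, chk3 f_B07pp_123_s1 t 5363 48 1 = true := ex3_a t350_B07pp_123_s1 k110_B07pp_123_s1

theorem t352_B07pp_123_s1 : ∃ t, chk3 f_B07pp_123_s1 t 2681 48 1 = true := ex3_a k107_B07pp_123_s1 t351_B07pp_123_s1

theorem t353_B07pp_123_s1 : ∃ t, chk3 f_B07pp_123_s1 t 1340 48 1 = true := ex3_a k106_B07pp_123_s1 t352_B07pp_123_s1

theorem t354_B07pp_123_s1 : ∃ t, chk3 f_B07pp_123_s1 t 670 48 1 = true := ex3_a t353_B07pp_123_s1 k111_B07pp_123_s1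

theorem t355_B07pp_123_s1 : ∃ t, chk3 f_B07pp_123_s1 t 335 48 1 = true := ex3_a t354_B07pp_123_s1 k112_B07pp_123_s1

theorem t356_B07pp_123_s1 : ∃ t, chk3 f_B07pp_123_s1 t 167 48 1 = true := ex3_a k105_B07pp_123_s1 t355_B07pp_123_s1

theorem t357_B07pp_123_s1 : ∃ t, chk3 f_B07pp_123_s1 t 167 24 1 = true := ex3_b t356_B07pp_123_s1 t349_B07pp_123_s1

theorem t358_B07pp_123_s1 : ∃ t, chk3 f_B07pp_123_s1 t 166 24 3 = true := ex3_b k103_B07pp_123_s1 k104_B07pp_123_s1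

theorem t359_B07pp_123_s1 : ∃ t, chk3 f_B07pp_123_s1 t 166 24 2 = true := ex3_b k101_B07pp_123_s1 k102_B07pp_123_s1

theorem t360_B07pp_123_s1 : ∃ t, chk3 f_B07pp_123_s1 t 166 24 1 = true := ex3_c t359_B07pp_123_s1 t358_B07pp_123_s1

theorem t361_B07pp_123_s1 : ∃ t, chk3 f_B07pp_123_s1 t 83 24 1 = true := ex3_a t360_B07pp_123_s1 t357_B07pp_123_s1

theorem t362_B07pp_123_s1 : ∃ t, chk3 f_B07pp_123_s1 t 83 12 1 = true := ex3_b t361_B07pp_123_s1 t337_B07pp_123_s1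

theorem t363_B07pp_123_s1 : ∃ t, chk3 f_B07pp_123_s1 t 165 25 1 = true := ex3_c k99_B07pp_123_s1 k100_B07pp_123_s1

theorem t364_B07pp_123_s1 : ∃ t, chk3 f_B07pp_123_s1 t 82 25 1 = true := ex3_a k98_B07pp_123_s1 t363_B07pp_123_s1

theorem t365_B07pp_123_s1 : ∃ t, chk3 f_B07pp_123_s1 t 165 24 1 = true := ex3_b k96_B07pp_123_s1 k97_B07pp_123_s1

theorem t366_B07pp_123_s1 : ∃ t, chk3 f_B07pp_123_s1 t 82 24 1 = true := ex3_a k95_B07pp_123_s1 t365_B07pp_123_s1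

theorem t367_B07pp_123_s1 : ∃ t, chk3 f_B07pp_123_s1 t 82 12 1 = true := ex3_b t366_B07pp_123_s1 t364_B07pp_123_s1

theorem t368_B07pp_123_s1 : ∃ t, chk3 f_B07pp_123_s1 t 41 12 1 = true := ex3_a t367_B07pp_123_s1 t362_B07pp_123_s1

theorem t369_B07pp_123_s1 : ∃ t, chk3 f_B07pp_123_s1 t 41 6 1 = true := ex3_b t368_B07pp_123_s1 t299_B07pp_123_s1

theorem t370_B07pp_123_s1 : ∃ t, chk3 f_B07pp_123_s1 t 20 6 1 = true := ex3_a k94_B07pp_123_s1 t369_B07pp_123_s1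

theorem t371_B07pp_123_s1 : ∃ t, chk3 f_B07pp_123_s1 t 10 6 1 = true := ex3_a t370_B07pp_123_s1 k196_B07pp_123_s1

theorem t372_B07pp_123_s1 : ∃ t, chk3 f_B07pp_123_s1 t 10 3 1 = true := ex3_b t371_B07pp_123_s1 t269_B07pp_123_s1

theorem t373_B07pp_123_s1 : ∃ t, chk3 f_B07pp_123_s1 t 5 3 1 = true := ex3_a t372_B07pp_123_s1 k233_B07pp_123_s1

theorem t374_B07pp_123_s1 : ∃ t, chk3 f_B07pp_123_s1 t 2 3 1 = true := ex3_a k93_B07pp_123_s1 t373_B07pp_123_s1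

theorem t375_B07pp_123_s1 : ∃ t, chk3 f_B07pp_123_s1 t 1 3 1 = true := ex3_a t374_B07pp_123_s1 k234_B07pp_123_s1

theorem t376_B07pp_123_s1 : ∃ t, chk3 f_B07pp_123_s1 t 10726 47 1 = true := ex3_a k85_B07pp_123_s1 k86_B07pp_123_s1

theorem t377_B07pp_123_s1 : ∃ t, chk3 f_B07pp_123_s1 t 5363 47 1 = true := ex3_a t376_B07pp_123_s1 k87_B07pp_123_s1

theorem t378_B07pp_123_s1 : ∃ t, chk3 f_B07pp_123_s1 t 2681 47 1 = true := ex3_a k84_B07pp_123_s1 t377_B07pp_123_s1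

theorem t379_B07pp_123_s1 : ∃ t, chk3 f_B07pp_123_s1 t 1340 47 1 = true := ex3_a k83_B07pp_123_s1 t378_B07pp_123_s1

theorem t380_B07pp_123_s1 : ∃ t, chk3 f_B07pp_123_s1 t 670 47 1 = true := ex3_a t379_B07pp_123_s1 k88_B07pp_123_s1

theorem t381_B07pp_123_s1 : ∃ t, chk3 f_B07pp_123_s1 t 335 47 1 = true := ex3_a t380_B07pp_123_s1 k89_B07pp_123_s1

theorem t382_B07pp_123_s1 : ∃ t, chk3 f_B07pp_123_s1 t 167 47 1 = true := ex3_a k82_B07pp_123_s1 t381_B07pp_123_s1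

theorem t383_B07pp_123_s1 : ∃ t, chk3 f_B07pp_123_s1 t 83 47 1 = true := ex3_a k81_B07pp_123_s1 t382_B07pp_123_s1

theorem t384_B07pp_123_s1 : ∃ t, chk3 f_B07pp_123_s1 t 10726 46 1 = true := ex3_a k76_B07pp_123_s1 k77_B07pp_123_s1

theorem t385_B07pp_123_s1 : ∃ t, chk3 f_B07pp_123_s1 t 5363 46 1 = true := ex3_a t384_B07pp_123_s1 k78_B07pp_123_s1

theorem t386_B07pp_123_s1 : ∃ t, chk3 f_B07pp_123_s1 t 2681 46 1 = true := ex3_a k75_B07pp_123_s1 t385_B07pp_123_s1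

theorem t387_B07pp_123_s1 : ∃ t, chk3 f_B07pp_123_s1 t 1340 46 1 = true := ex3_a k74_B07pp_123_s1 t386_B07pp_123_s1

theorem t388_B07pp_123_s1 : ∃ t, chk3 f_B07pp_123_s1 t 670 46 1 = true := ex3_a t387_B07pp_123_s1 k79_B07pp_123_s1

theorem t389_B07pp_123_s1 : ∃ t, chk3 f_B07pp_123_s1 t 335 46 1 = true := ex3_a t388_B07pp_123_s1 k80_B07pp_123_s1

theorem t390_B07pp_123_s1 : ∃ t, chk3 f_B07pp_123_s1 t 167 46 1 = true := ex3_a k73_B07pp_123_s1 t389_B07pp_123_s1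

theorem t391_B07pp_123_s1 : ∃ t, chk3 f_B07pp_123_s1 t 83 46 1 = true := ex3_a k72_B07pp_123_s1 t390_B07pp_123_s1

theorem t392_B07pp_123_s1 : ∃ t, chk3 f_B07pp_123_s1 t 83 23 1 = true := ex3_b t391_B07pp_123_s1 t383_B07pp_123_s1

theorem t393_B07pp_123_s1 : ∃ t, chk3 f_B07pp_123_s1 t 10726 44 1 = true := ex3_a k66_B07pp_123_s1 k67_B07pp_123_s1

theorem t394_B07pp_123_s1 : ∃ t, chk3 f_B07pp_123_s1 t 5363 44 1 = true := ex3_a t393_B07pp_123_s1 k68_B07pp_123_s1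

theorem t395_B07pp_123_s1 : ∃ t, chk3 f_B07pp_123_s1 t 2681 44 1 = true := ex3_a k65_B07pp_123_s1 t394_B07pp_123_s1

theorem t396_B07pp_123_s1 : ∃ t, chk3 f_B07pp_123_s1 t 1340 44 1 = true := ex3_a k64_B07pp_123_s1 t395_B07pp_123_s1

theorem t397_B07pp_123_s1 : ∃ t, chk3 f_B07pp_123_s1 t 670 44 1 = true := ex3_a t396_B07pp_123_s1 k69_B07pp_123_s1

theorem t398_B07pp_123_s1 : ∃ t, chk3 f_B07pp_123_s1 t 335 44 1 = true := ex3_a t397_B07pp_123_s1 k70_B07pp_123_s1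

theorem t399_B07pp_123_s1 : ∃ t, chk3 f_B07pp_123_s1 t 167 44 1 = true := ex3_a k63_B07pp_123_s1 t398_B07pp_123_s1

theorem t400_B07pp_123_s1 : ∃ t, chk3 f_B07pp_123_s1 t 83 44 1 = true := ex3_a k62_B07pp_123_s1 t399_B07pp_123_s1

theorem t401_B07pp_123_s1 : ∃ t, chk3 f_B07pp_123_s1 t 83 22 1 = true := ex3_b t400_B07pp_123_s1 k71_B07pp_123_s1

theorem t402_B07pp_123_s1 : ∃ t, chk3 f_B07pp_123_s1 t 83 11 1 = true := ex3_b t401_B07pp_123_s1 t392_B07pp_123_s1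

theorem t403_B07pp_123_s1 : ∃ t, chk3 f_B07pp_123_s1 t 82 23 1 = true := ex3_a k60_B07pp_123_s1 k61_B07pp_123_s1

theorem t404_B07pp_123_s1 : ∃ t, chk3 f_B07pp_123_s1 t 82 11 1 = true := ex3_b k59_B07pp_123_s1 t403_B07pp_123_s1

theorem t405_B07pp_123_s1 : ∃ t, chk3 f_B07pp_123_s1 t 41 11 1 = true := ex3_a t404_B07pp_123_s1 t402_B07pp_123_s1

theorem t406_B07pp_123_s1 : ∃ t, chk3 f_B07pp_123_s1 t 41 10 1 = true := ex3_b k57_B07pp_123_s1 k58_B07pp_123_s1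

theorem t407_B07pp_123_s1 : ∃ t, chk3 f_B07pp_123_s1 t 41 5 1 = true := ex3_b t406_B07pp_123_s1 t405_B07pp_123_s1

theorem t408_B07pp_123_s1 : ∃ t, chk3 f_B07pp_123_s1 t 40 46 1 = true := ex3_a k54_B07pp_123_s1 k55_B07pp_123_s1

theorem t409_B07pp_123_s1 : ∃ t, chk3 f_B07pp_123_s1 t 40 23 1 = true := ex3_b t408_B07pp_123_s1 k56_B07pp_123_s1

theorem t410_B07pp_123_s1 : ∃ t, chk3 f_B07pp_123_s1 t 80 22 1 = true := ex3_b k51_B07pp_123_s1 k52_B07pp_123_s1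

theorem t411_B07pp_123_s1 : ∃ t, chk3 f_B07pp_123_s1 t 40 22 1 = true := ex3_a t410_B07pp_123_s1 k53_B07pp_123_s1

theorem t412_B07pp_123_s1 : ∃ t, chk3 f_B07pp_123_s1 t 40 11 1 = true := ex3_b t411_B07pp_123_s1 t409_B07pp_123_s1

theorem t413_B07pp_123_s1 : ∃ t, chk3 f_B07pp_123_s1 t 40 5 1 = true := ex3_b k50_B07pp_123_s1 t412_B07pp_123_s1

theorem t414_B07pp_123_s1 : ∃ t, chk3 f_B07pp_123_s1 t 20 5 1 = true := ex3_a t413_B07pp_123_s1 t407_B07pp_123_s1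

theorem t415_B07pp_123_s1 : ∃ t, chk3 f_B07pp_123_s1 t 10 5 1 = true := ex3_a t414_B07pp_123_s1 k90_B07pp_123_s1

theorem t416_B07pp_123_s1 : ∃ t, chk3 f_B07pp_123_s1 t 41 18 1 = true := ex3_c k46_B07pp_123_s1 k47_B07pp_123_s1

theorem t417_B07pp_123_s1 : ∃ t, chk3 f_B07pp_123_s1 t 20 18 1 = true := ex3_a k45_B07pp_123_s1 t416_B07pp_123_s1

theorem t418_B07pp_123_s1 : ∃ t, chk3 f_B07pp_123_s1 t 20 9 1 = true := ex3_b t417_B07pp_123_s1 k48_B07pp_123_s1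

theorem t419_B07pp_123_s1 : ∃ t, chk3 f_B07pp_123_s1 t 20 4 1 = true := ex3_b k44_B07pp_123_s1 t418_B07pp_123_s1

theorem t420_B07pp_123_s1 : ∃ t, chk3 f_B07pp_123_s1 t 10 4 1 = true := ex3_a t419_B07pp_123_s1 k49_B07pp_123_s1

theorem t421_B07pp_123_s1 : ∃ t, chk3 f_B07pp_123_s1 t 10 2 1 = true := ex3_b t420_B07pp_123_s1 t415_B07pp_123_s1

theorem t422_B07pp_123_s1 : ∃ t, chk3 f_B07pp_123_s1 t 5 2 1 = true := ex3_a t421_B07pp_123_s1 k91_B07pp_123_s1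

theorem t423_B07pp_123_s1 : ∃ t, chk3 f_B07pp_123_s1 t 78 21 1 = true := ex3_b k40_B07pp_123_s1 k41_B07pp_123_s1

theorem t424_B07pp_123_s1 : ∃ t, chk3 f_B07pp_123_s1 t 39 21 1 = true := ex3_a t423_B07pp_123_s1 k42_B07pp_123_s1

theorem t425_B07pp_123_s1 : ∃ t, chk3 f_B07pp_123_s1 t 39 10 1 = true := ex3_b k39_B07pp_123_s1 t424_B07pp_123_s1

theorem t426_B07pp_123_s1 : ∃ t, chk3 f_B07pp_123_s1 t 77 20 1 = true := ex3_b k36_B07pp_123_s1 k37_B07pp_123_s1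

theorem t427_B07pp_123_s1 : ∃ t, chk3 f_B07pp_123_s1 t 76 40 1 = true := ex3_c k33_B07pp_123_s1 k34_B07pp_123_s1

theorem t428_B07pp_123_s1 : ∃ t, chk3 f_B07pp_123_s1 t 76 20 1 = true := ex3_b t427_B07pp_123_s1 k35_B07pp_123_s1

theorem t429_B07pp_123_s1 : ∃ t, chk3 f_B07pp_123_s1 t 38 20 1 = true := ex3_a t428_B07pp_123_s1 t426_B07pp_123_s1

theorem t430_B07pp_123_s1 : ∃ t, chk3 f_B07pp_123_s1 t 38 10 1 = true := ex3_b t429_B07pp_123_s1 k38_B07pp_123_s1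

theorem t431_B07pp_123_s1 : ∃ t, chk3 f_B07pp_123_s1 t 19 10 1 = true := ex3_a t430_B07pp_123_s1 t425_B07pp_123_s1

theorem t432_B07pp_123_s1 : ∃ t, chk3 f_B07pp_123_s1 t 19 5 1 = true := ex3_b t431_B07pp_123_s1 k43_B07pp_123_s1

theorem t433_B07pp_123_s1 : ∃ t, chk3 f_B07pp_123_s1 t 9 5 1 = true := ex3_a k32_B07pp_123_s1 t432_B07pp_123_s1

theorem t434_B07pp_123_s1 : ∃ t, chk3 f_B07pp_123_s1 t 19 9 1 = true := ex3_b k30_B07pp_123_s1 k31_B07pp_123_s1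

theorem t435_B07pp_123_s1 : ∃ t, chk3 f_B07pp_123_s1 t 38 17 1 = true := ex3_c k27_B07pp_123_s1 k28_B07pp_123_s1

theorem t436_B07pp_123_s1 : ∃ t, chk3 f_B07pp_123_s1 t 19 17 1 = true := ex3_a t435_B07pp_123_s1 k29_B07pp_123_s1

theorem t437_B07pp_123_s1 : ∃ t, chk3 f_B07pp_123_s1 t 19 8 1 = true := ex3_b k26_B07pp_123_s1 t436_B07pp_123_s1

theorem t438_B07pp_123_s1 : ∃ t, chk3 f_B07pp_123_s1 t 19 4 1 = true := ex3_b t437_B07pp_123_s1 t434_B07pp_123_s1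

theorem t439_B07pp_123_s1 : ∃ t, chk3 f_B07pp_123_s1 t 74 19 1 = true := ex3_b k23_B07pp_123_s1 k24_B07pp_123_s1

theorem t440_B07pp_123_s1 : ∃ t, chk3 f_B07pp_123_s1 t 37 19 1 = true := ex3_a t439_B07pp_123_s1 k25_B07pp_123_s1

theorem t441_B07pp_123_s1 : ∃ t, chk3 f_B07pp_123_s1 t 37 9 1 = true := ex3_b k22_B07pp_123_s1 t440_B07pp_123_s1

theorem t442_B07pp_123_s1 : ∃ t, chk3 f_B07pp_123_s1 t 36 38 1 = true := ex3_c k19_B07pp_123_s1 k20_B07pp_123_s1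

theorem t443_B07pp_123_s1 : ∃ t, chk3 f_B07pp_123_s1 t 36 19 1 = true := ex3_b t442_B07pp_123_s1 k21_B07pp_123_s1

theorem t444_B07pp_123_s1 : ∃ t, chk3 f_B07pp_123_s1 t 72 37 1 = true := ex3_b k16_B07pp_123_s1 k17_B07pp_123_s1

theorem t445_B07pp_123_s1 : ∃ t, chk3 f_B07pp_123_s1 t 36 37 1 = true := ex3_a t444_B07pp_123_s1 k18_B07pp_123_s1

theorem t446_B07pp_123_s1 : ∃ t, chk3 f_B07pp_123_s1 t 36 18 1 = true := ex3_b k15_B07pp_123_s1 t445_B07pp_123_s1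

theorem t447_B07pp_123_s1 : ∃ t, chk3 f_B07pp_123_s1 t 36 9 1 = true := ex3_b t446_B07pp_123_s1 t443_B07pp_123_s1

theorem t448_B07pp_123_s1 : ∃ t, chk3 f_B07pp_123_s1 t 18 9 1 = true := ex3_a t447_B07pp_123_s1 t441_B07pp_123_s1

theorem t449_B07pp_123_s1 : ∃ t, chk3 f_B07pp_123_s1 t 18 17 1 = true := ex3_a k13_B07pp_123_s1 k14_B07pp_123_s1

theorem t450_B07pp_123_s1 : ∃ t, chk3 f_B07pp_123_s1 t 18 8 1 = true := ex3_b k12_B07pp_123_s1 t449_B07pp_123_s1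

theorem t451_B07pp_123_s1 : ∃ t, chk3 f_B07pp_123_s1 t 18 4 1 = true := ex3_b t450_B07pp_123_s1 t448_B07pp_123_s1

theorem t452_B07pp_123_s1 : ∃ t, chk3 f_B07pp_123_s1 t 9 4 1 = true := ex3_a t451_B07pp_123_s1 t438_B07pp_123_s1

theorem t453_B07pp_123_s1 : ∃ t, chk3 f_B07pp_123_s1 t 9 2 1 = true := ex3_b t452_B07pp_123_s1 t433_B07pp_123_s1

theorem t454_B07pp_123_s1 : ∃ t, chk3 f_B07pp_123_s1 t 71 18 3 = true := ex3_b k8_B07pp_123_s1 k9_B07pp_123_s1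

theorem t455_B07pp_123_s1 : ∃ t, chk3 f_B07pp_123_s1 t 35 18 3 = true := ex3_a k7_B07pp_123_s1 t454_B07pp_123_s1

theorem t456_B07pp_123_s1 : ∃ t, chk3 f_B07pp_123_s1 t 17 18 3 = true := ex3_a k6_B07pp_123_s1 t455_B07pp_123_s1

theorem t457_B07pp_123_s1 : ∃ t, chk3 f_B07pp_123_s1 t 17 9 3 = true := ex3_b t456_B07pp_123_s1 k10_B07pp_123_s1

theorem t458_B07pp_123_s1 : ∃ t, chk3 f_B07pp_123_s1 t 35 18 2 = true := ex3_a k3_B07pp_123_s1 k4_B07pp_123_s1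

theorem t459_B07pp_123_s1 : ∃ t, chk3 f_B07pp_123_s1 t 17 18 2 = true := ex3_a k2_B07pp_123_s1 t458_B07pp_123_s1

theorem t460_B07pp_123_s1 : ∃ t, chk3 f_B07pp_123_s1 t 17 9 2 = true := ex3_b t459_B07pp_123_s1 k5_B07pp_123_s1

theorem t461_B07pp_123_s1 : ∃ t, chk3 f_B07pp_123_s1 t 17 9 1 = true := ex3_c t460_B07pp_123_s1 t457_B07pp_123_s1

theorem t462_B07pp_123_s1 : ∃ t, chk3 f_B07pp_123_s1 t 17 4 1 = true := ex3_b k1_B07pp_123_s1 t461_B07pp_123_s1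

theorem t463_B07pp_123_s1 : ∃ t, chk3 f_B07pp_123_s1 t 8 4 1 = true := ex3_a k0_B07pp_123_s1 t462_B07pp_123_s1

theorem t464_B07pp_123_s1 : ∃ t, chk3 f_B07pp_123_s1 t 8 2 1 = true := ex3_b t463_B07pp_123_s1 k11_B07pp_123_s1

theorem t465_B07pp_123_s1 : ∃ t, chk3 f_B07pp_123_s1 t 4 2 1 = true := ex3_a t464_B07pp_123_s1 t453_B07pp_123_s1

theorem t466_B07pp_123_s1 : ∃ t, chk3 f_B07pp_123_s1 t 2 2 1 = true := ex3_a t465_B07pp_123_s1 t422_B07pp_123_s1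

theorem t467_B07pp_123_s1 : ∃ t, chk3 f_B07pp_123_s1 t 1 2 1 = true := ex3_a t466_B07pp_123_s1 k92_B07pp_123_s1

theorem t468_B07pp_123_s1 : ∃ t, chk3 f_B07pp_123_s1 t 1 1 1 = true := ex3_b t467_B07pp_123_s1 t375_B07pp_123_s1

theorem c_B07pp_123_s1 : CertFX 536870912 536870912 0 1230186008 1046898278 26843546 false true true .npn 1 2 3
    ndF0q1 ndF7q3 pcF2 cut_B07pp_123_s1 xt_B07pp_123_s1 :=
  certFX2 (fam := false) (s1 := true) (s2 := true) (a := 1) (b := 2) (c := 3) (cn := .npn) (n1 := ndF0q1) (n2 := ndF7q3) (pc := pcF2) (cut := cut_B07pp_123_s1) (xt := xt_B07pp_123_s1) (P1 := 536870912) (W1 := 536870912) (P2 := 0) (W2 := 1230186008) (P3 := 1046898278) (W3 := 26843546)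
    rfl (fun _ => rfl) t468_B07pp_123_s1

theorem s_B07pp_123_s1 {κ x : ℝ} (hκ : κ * h0 = kenE x) (hx : 39 / 40 ≤ x) (hx' : x < 1)
    (H : CutVB (VFD κ) (DD x) tKF tL pcF (Cut.of [[⟨0, 1, 0, 67108864⟩, ⟨1, 1, 0, 67108864⟩, ⟨2, 2, 0, 67108864⟩, ⟨3, 0, 0, 1233125376⟩]]) 1 2 3 0 7 (sgb true) (sgb true) x) :
    AltVB (VFD κ) (DD x) tKF tL pcF [⟨3, 0, 0, 1449551462⟩] 1 2 3 0 7 (sgb true) (sgb true) x :=
  strip_altVB (d := 1449551462) true rfl hκ (κ0 hκ hx) (x0 hx) hx' (covF01 hx hx') (covF73 hx hx') (x1 hx) (x2 hx') c_B07pp_123_s1 H ((ok hx hx').extB (T := tt) (sideF hx hx') hκ (κ0 hκ hx) rfl rfl (.O 1 true) (.N 3 true) rfl)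

end Pool.Agent.Strip051.G.IE1.Tab.St.C
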