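import Pool.Agent.Strip051.G.IE1.Tab

/-! # Certificates F0 (generated) -/

set_option linter.all false
set_option maxRecDepth 100000

namespace Pool.Agent.Strip051.G.IE1.Tab.C.FA00

open Pool.Agent.Strip051.PB Pool.Agent.Strip051.PB.T
open Pool.Agent.Strip051.G.IE1.Tab

noncomputable def cut_pp_001 : Cut := Cut.of [[⟨3, 0, 0, 1449551462⟩], [⟨4, 0, 0, 2845415833⟩]]

noncomputable def f_pp_001 : ℕ → ℕ → ℕ → ℕ → Bool := onCell 0 536870912 0 536870912 1046898278 26843546
    (rowFX 0 true true true .up 0 0 1 (qsf 0 536870912 0 536870912 1) ndF0q0 ndF0q0 pcF1 cut_pp_001 Ext.none)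

def k0_pp_001 : ∃ t, chk3 f_pp_001 t 1 1 1 = true :=
  ⟨(l 4), by decide +kernel⟩

theorem c_pp_001 : CertFX 0 536870912 0 536870912 1046898278 26843546 true true true .up 0 0 1
    ndF0q0 ndF0q0 pcF1 cut_pp_001 Ext.none :=
  certFX0 (fam := true) (s1 := true) (s2 := true) (a := 0) (b := 0) (c := 1) (cn := .up) (n1 := ndF0q0) (n2 := ndF0q0) (pc := pcF1) (cut := cut_pp_001) (xt := Ext.none) (P1 := 0) (W1 := 536870912) (P2 := 0) (W2 := 536870912) (P3 := 1046898278) (W3 := 26843546)
    rfl k0_pp_001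

noncomputable def cut_pp_011 : Cut := Cut.of [[⟨3, 0, 0, 1449551462⟩], [⟨4, 0, 0, 2845415833⟩], [⟨0, 0, 0, 67108864⟩, ⟨1, 1, 0, 67108864⟩, ⟨2, 1, 0, 67108864⟩]]

noncomputable def f_pp_011 : ℕ → ℕ → ℕ → ℕ → Bool := onCell 0 536870912 536870912 536870912 1046898278 26843546
    (rowFX 0 true true true .pnn 0 1 1 (qsf 0 536870912 536870912 536870912 1) ndF0q0 ndF0q1 pcF1 cut_pp_011 Ext.none)

def k0_pp_011 : ∃ t, chk3 f_pp_011 t 1 1 1 = true :=
  ⟨(l 14), by decide +kernel⟩

theorem c_pp_011 : CertFX 0 536870912 536870912 536870912 1046898278 26843546 true true true .pnn 0 1 1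
    ndF0q0 ndF0q1 pcF1 cut_pp_011 Ext.none :=
  certFX0 (fam := true) (s1 := true) (s2 := true) (a := 0) (b := 1) (c := 1) (cn := .pnn) (n1 := ndF0q0) (n2 := ndF0q1) (pc := pcF1) (cut := cut_pp_011) (xt := Ext.none) (P1 := 0) (W1 := 536870912) (P2 := 536870912) (W2 := 536870912) (P3 := 1046898278) (W3 := 26843546)
    rfl k0_pp_011

noncomputable def cut_pp_012 : Cut := Cut.of [[⟨3, 0, 0, 1449551462⟩], [⟨4, 0, 0, 2845415833⟩], [⟨0, 0, 0, 67108864⟩, ⟨1, 1, 0, 67108864⟩, ⟨2, 1, 0, 67108864⟩]]

noncomputable def f_pp_012 : ℕ → ℕ → ℕ → ℕ → Bool := onCell 0 536870912 536870912 536870912 1046898278 26843546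
    (rowFX 0 true true true .pnp 0 1 2 (qsf 0 536870912 536870912 536870912 2) ndF0q0 ndF0q1 pcF2 cut_pp_012 Ext.none)

def k0_pp_012 : ∃ t, chk3 f_pp_012 t 1 1 1 = true :=
  ⟨(l 14), by decide +kernel⟩

theorem c_pp_012 : CertFX 0 536870912 536870912 536870912 1046898278 26843546 true true true .pnp 0 1 2
    ndF0q0 ndF0q1 pcF2 cut_pp_012 Ext.none :=
  certFX0 (fam := true) (s1 := true) (s2 := true) (a := 0) (b := 1) (c := 2) (cn := .pnp) (n1 := ndF0q0) (n2 := ndF0q1) (pc := pcF2) (cut := cut_pp_012) (xt := Ext.none) (P1 := 0) (W1 := 536870912) (P2 := 536870912) (W2 := 536870912) (P3 := 1046898278) (W3 := 26843546)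
    rfl k0_pp_012

noncomputable def cut_pp_022 : Cut := Cut.of [[⟨3, 0, 0, 1449551462⟩], [⟨4, 0, 0, 2845415833⟩], [⟨0, 0, 0, 67108864⟩, ⟨1, 1, 0, 67108864⟩, ⟨2, 1, 0, 67108864⟩]]

noncomputable def f_pp_022 : ℕ → ℕ → ℕ → ℕ → Bool := onCell 0 536870912 0 536870912 1046898278 26843546
    (rowFX 0 true true true .pp 0 2 2 (qsf 0 536870912 0 536870912 2) ndF0q0 ndF0q2 pcF2 cut_pp_022 Ext.none)

def k0_pp_022 : ∃ t, chk3 f_pp_022 t 8 4 1 = true :=
  ⟨(b (a (c (b (a (c (l 15932144) (l 15924608)) (c (l 15707640) (l 15718792))) (a (b (c (l 15931824) (l 15924272)) (l 15948560)) (c (b (l 15716408) (l 15746184)) (b (l 15727680) (l 15757912))))) (b (a (c (l 15925216) (l 15935080)) (c (l 15736808) (l 15736552))) (a (c (b (l 15924856) (l 15945624)) (b (l 15913728) (l 15955760))) (c (b (l 15745824) (l 15776504)) (l 15761448))))) (c (b (c (a (c (l 15537624) (l 15552040)) (b (l 15415352) (b (l 15418864) (l 15429560)))) (a (b (l 15564472) (l 15566808)) (b (l 15416896) (l 15426656)))) (a (c (b (l 15567784)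 (l 15605600)) (b (l 15588344) (l 15626736))) (c (l 15418864) (l 15484328)))) (b (c (a (l 15569392) (l 15406312)) (l 15408176)) (a (l 15542512) (l 15459256))))) (a (c (a (b (c (l 16000952) (l 15994416)) (l 16036464)) (c (b (l 15802888) (l 15891568)) (b (l 15815464) (l 15905472)))) (a (c (b (l 15996024) (l 16078304)) (b (l 16006880) (l 16069352))) (c (b (l 15834912) (l 15926240)) (l 15884544)))) (c (c (a (b (l 15670576) (l 15769016)) (b (l 15575920) (l 15683904))) (a (b (l 15692704) (l 15792616)) (l 15552584))) (b (c (l 15628160) (l 15614528)) (c (l 15734536) (l 15722464)))))), by decide +kernel⟩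

def k1_pp_022 : ∃ t, chk3 f_pp_022 t 9 4 1 = true :=
  ⟨(b (a (b (c (a (a (a (b (b (l 15311864) (l 15312792)) (c (l 15336240) (l 15338464))) (b (l 15345784) (l 15359944))) (b (l 15402584) (l 15419800))) (b (c (l 15546752) (l 15530672)) (l 15559624))) (a (a (a (b (l 15295168) (l 15310712)) (l 15316896)) (b (l 15366888) (l 15384608))) (b (l 15506560) (l 15528088)))) (c (a (a (c (l 15424480) (l 15406600)) (l 15466992)) (l 15600928)) (a (a (l 15380312) (l 15433200)) (l 15570616)))) (c (b (a (b (l 15716840) (l 15738592)) (l 15894536)) (l 15809968)) (b (a (l 15699736) (l 15871680)) (l 15828080)))) (a (c (a (b (a (c (l 15514640) (l 15498112)) (l 15531824)) (a (l 15617304) (c (l 15617128) (l 15602344)))) (c (l 15695392) (l 15681528))) (a (b (a (l 15473856) (l 15499960)) (a (l 15587112) (l 15580176))) (c (l 15667664) (l 15653792)))) (c (c (l 15796928) (l 15911800)) (b (l 15871624) (l 15920016))))), by decide +kernel⟩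

def k2_pp_022 : ∃ t, chk3 f_pp_022 t 8 5 1 = true :=
  ⟨(a (b (c (a (b (l 16175816) (a (b (l 16302032) (l 16337864)) (l 16239552))) (c (b (l 15995280) (l 16112936)) (b (l 16010712) (l 16130064)))) (a (b (c (l 16177784) (l 16149256)) (a (c (l 16247992) (a (l 16287728) (l 16297408))) (l 16115752))) (c (b (l 16033008) (l 16154056)) (l 16100960)))) (a (c (b (a (l 16298160) (b (l 16331432) (l 16295232))) (b (a (l 16376608) (l 16388240)) (l 16409408))) (b (a (c (l 16358096) (b (l 16343328) (l 16372120))) (c (b (l 16340608) (l 16305336)) (b (l 16359552) (l 16387816)))) (a (c (l 16381104) (l 16389568)) (c (b (l 16377880) (l 16435424)) (b (l 16439728) (l 16455440)))))) (c (b (c (l 16243896) (l 16241904)) (a (b (l 16304880) (a (l 16404088) (b (l 16426528) (l 16457704)))) (c (l 16350888) (l 16357328)))) (b (c (l 16225808) (l 16296320)) (a (b (c (l 16420008) (l 16436176)) (c (a (l 16475104) (l 16480144)) (a (l 16495480) (l 16492776)))) (c (l 16406992) (l 16411928))))))) (b (c (c (a (b (l 15880488)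 (l 16003272)) (b (l 15803800) (l 15933880))) (a (b (l 15905752) (l 16030336)) (l 15879256))) (b (c (l 15853736) (l 15843392)) (a (l 16037544) (l 15928312)))) (c (b (a (c (l 16137040) (l 16166040)) (c (l 16072584) (l 16083944))) (a (c (l 16177064) (l 16166168)) (c (b (l 16180640) (l 16255400)) (l 16232136)))) (b (a (l 16155176) (l 16072104)) (a (c (l 16326384) (l 16321872)) (b (l 16184064) (l 16261496))))))), by decide +kernel⟩

def k3_pp_022 : ∃ t, chk3 f_pp_022 t 9 5 1 = true :=
  ⟨(a (b (c (a (b (a (l 15744128) (b (l 15680944) (l 15741312))) (l 15862096)) (b (l 15788480) (a (b (l 15818664) (l 15877344)) (l 15899008)))) (a (b (a (l 15717704) (l 15687144)) (l 15840568)) (b (l 15763680) (a (b (l 15794896) (l 15855280)) (l 15877264))))) (b (c (a (b (l 15970056) (l 16044656)) (a (l 15985920) (b (l 15966528) (l 16026656)))) (a (l 15990616) (a (l 15967024) (b (l 15946736) (l 16008592))))) (c (a (b (l 16120784) (l 16198272)) (b (l 16100032) (l 16179688))) (a (c (l 16150544) (l 16143896))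 (b (l 16084272) (l 16166224)))))) (b (c (b (l 15995104) (a (l 15997520) (l 16116504))) (b (l 15954496) (c (l 16044624) (l 16035712)))) (b (c (c (a (l 16080536) (l 16189608)) (l 16002328)) (c (l 16120312) (l 16112464))) (b (c (a (a (a (l 16107536) (l 16129832)) (l 16171552)) (l 16246640)) (a (c (l 16072096) (l 16127488)) (l 16233976))) (a (c (a (a (l 16179768) (b (l 16169472) (l 16203072))) (l 16220304)) (a (b (l 16150992) (l 16188344)) (l 16207240))) (l 14)))))), by decide +kernel⟩

def k4_pp_022 : ∃ t, chk3 f_pp_022 t 5 2 1 = true :=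
  ⟨(a (a (b (c (b (c (l 16112360) (l 16103712)) (b (l 16141456) (l 16085904))) (b (c (l 16095064) (l 16086424)) (c (l 16101344) (l 16051440)))) (b (c (b (c (l 16208904) (l 16201664)) (c (l 16253280) (l 16246688))) (c (b (l 16194432) (l 16240096)) (b (l 16187192) (l 16233504)))) (b (c (c (a (l 16271624) (l 16344600)) (l 16198248)) (c (l 16276344) (l 16291528))) (a (b (c (l 16322360) (l 16311448)) (l 14)) (l 14))))) (b (c (b (c (l 16345672) (l 16340040)) (b (l 16245008) (c (l 16361936) (l 16356544)))) (b (c (l 16334408) (l 16328776)) (b (c (l 16341568) (l 16336032)) (c (l 16351144) (l 16345744))))) (b (c (b (a (l 16333696) (l 16414040)) (c (l 16339848) (l 16314064))) (b (c (l 16367184) (l 16362008)) (c (a (l 16357512) (l 16427128)) (l 16304440)))) (a (b (b (c (l 16396240) (l 16386672)) (l 14)) (l 14)) (l 14))))) (b (c (c (a (b (l 16579400) (l 16579400)) (b (a (l 16744392) (l 16777216)) (a (l 16744392) (l 16777216)))) (a (b (l 16576816) (l 16555840)) (b (l 16739784) (a (l 16743960) (l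 16777216))))) (b (a (c (l 16574224) (l 16571640)) (c (l 16718600) (a (l 16743104) (l 16777216)))) (a (c (l 16532280) (l 16508728)) (c (a (l 16743536) (l 16777216)) (a (l 16722136) (l 16777216)))))) (b (b (c (a (c (l 16579400) (l 16576816)) (c (l 16719024) (l 16718816))) (a (c (l 16574224) (l 16571640)) (c (l 16697632) (l 16676448)))) (a (a (b (c (l 16519824) (l 16513136)) (l 14)) (l 14)) (l 14))) (l 14)))), by decide +kernel⟩

def k5_pp_022 : ∃ t, chk3 f_pp_022 t 16 12 1 = true :=
  ⟨(b (c (a (b (l 16430096) (l 16416304)) (a (b (c (l 16446600) (l 16479176)) (l 16456480)) (b (a (b (l 16473576) (c (l 16487160) (l 16510880))) (l 16446192)) (a (c (l 16489616) (l 16534560)) (b (c (l 16505584) (l 16538728)) (c (l 16531104) (l 16522616))))))) (a (c (a (l 16427808) (l 16424496)) (a (l 16331832) (l 16465728))) (a (c (b (a (l 16494360) (l 16522856)) (l 16531552)) (b (l 16525672) (l 16548976))) (b (a (c (b (l 16517280) (l 16546744)) (l 16537336)) (l 16510192)) (c (a (l 16558928) (b (l 16564320)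 (l 16547856))) (b (l 16474840) (l 16547456))))))) (c (a (b (c (l 16493752) (l 16472528)) (b (a (l 16514640) (l 16534328)) (a (l 16535584) (l 16557768)))) (c (b (l 16471808) (a (l 16558152) (l 16559160))) (a (b (l 16531944) (l 16570648)) (b (l 16570256) (l 16536592))))) (a (c (a (b (l 16482072) (l 16523760)) (b (l 16515008) (l 16537336))) (a (c (l 16505024) (a (l 16499144) (l 16525008))) (c (l 16491808) (l 16559928)))) (c (a (b (l 16519760) (l 16476288)) (c (l 16500200) (l 16534408))) (b (l 16550496) (l 16534768)))))), by decide +kernel⟩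

def k6_pp_022 : ∃ t, chk3 f_pp_022 t 17 12 1 = true :=
  ⟨(a (b (c (a (c (b (l 16413576) (l 16451856)) (b (l 16429928) (l 16427360))) (c (l 16273768) (b (l 16408936) (l 16475456)))) (b (l 16382664) (c (l 16443960) (l 16484128)))) (a (a (c (b (c (b (a (l 16557744) (l 16556912)) (l 16576032)) (b (a (l 16554288) (l 16535104)) (l 16545328))) (c (l 16568024) (l 16536712))) (b (b (c (l 16535800) (l 16535480)) (l 16522352)) (l 16513112))) (b (c (c (b (l 16543952) (a (l 16511272) (l 16580560))) (b (l 16573856) (a (b (l 16543528) (l 16533728)) (l 16547520)))) (b (l 16560408) (c (l 16518160) (l 16530432)))) (l 14))) (b (c (c (l 16501888) (l 16512704)) (l 16543640)) (l 14)))) (b (c (c (b (l 16269688) (a (l 16407280) (l 16353040))) (b (l 16347680) (l 16428704))) (c (l 16259600) (l 16298504))) (b (a (b (c (c (l 16469792) (l 16514448)) (l 16512176)) (l 14)) (l 14)) (l 14)))), by decide +kernel⟩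

def k7_pp_022 : ∃ t, chk3 f_pp_022 t 8 13 1 = true :=
  ⟨(b (b (a (a (c (c (b (l 16545024) (l 16521504)) (a (l 16551400) (l 16535392))) (a (c (l 16551248) (c (l 16555512) (l 16501440))) (b (c (l 16553456) (l 16536064)) (l 14)))) (l 14)) (l 14)) (l 14)) (l 14)), by decide +kernel⟩

def k8_pp_022 : ∃ t, chk3 f_pp_022 t 9 6 1 = true :=
  ⟨(b (a (b (b (c (a (c (l 16278488) (l 16274904)) (c (l 16263208) (l 16257640))) (a (l 16267440) (l 16249296))) (a (b (c (c (l 16337616) (l 16334872)) (l 16328680)) (l 14)) (l 14))) (l 14)) (l 14)) (l 14)), by decide +kernel⟩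

def k9_pp_022 : ∃ t, chk3 f_pp_022 t 4 7 1 = true :=
  ⟨(l 14), by decide +kernel⟩

def k10_pp_022 : ∃ t, chk3 f_pp_022 t 5 3 1 = true :=
  ⟨(l 14), by decide +kernel⟩

def k11_pp_022 : ∃ t, chk3 f_pp_022 t 3 1 1 = true :=
  ⟨(b (b (a (b (a (c (c (a (l 16777216) (c (l 16777216) (l 16777216))) (a (l 16777216) (l 16777216))) (c (c (l 16777216) (l 16777216)) (c (l 16777216) (l 16777216)))) (a (c (c (c (l 16777216) (l 16777216)) (c (l 16777216) (l 16777216))) (c (b (l 16777216) (l 16777216)) (b (l 16777216) (l 16777216)))) (b (c (c (l 16777216) (l 16777216)) (c (l 16777216) (l 16777216))) (l 14)))) (a (a (c (c (b (l 16777216) (l 16777216)) (c (l 16777216) (l 16777216))) (c (b (l 16777216) (l 16777216)) (b (l 16777216) (l 16777216)))) (b (c (c (l 16777216) (l 16777216)) (c (l 16777216) (l 16777216))) (l 14))) (l 14))) (l 2)) (l 14)) (l 14)), by decide +kernel⟩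

theorem s12_pp_022 : ∃ t, chk3 f_pp_022 t 8 12 1 = true := ex3_a k5_pp_022 k6_pp_022

theorem s13_pp_022 : ∃ t, chk3 f_pp_022 t 8 6 1 = true := ex3_b s12_pp_022 k7_pp_022

theorem s14_pp_022 : ∃ t, chk3 f_pp_022 t 4 6 1 = true := ex3_a s13_pp_022 k8_pp_022

theorem s15_pp_022 : ∃ t, chk3 f_pp_022 t 4 3 1 = true := ex3_b s14_pp_022 k9_pp_022

theorem s16_pp_022 : ∃ t, chk3 f_pp_022 t 2 3 1 = true := ex3_a s15_pp_022 k10_pp_022

theorem s17_pp_022 : ∃ t, chk3 f_pp_022 t 4 5 1 = true := ex3_a k2_pp_022 k3_pp_022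

theorem s18_pp_022 : ∃ t, chk3 f_pp_022 t 4 4 1 = true := ex3_a k0_pp_022 k1_pp_022

theorem s19_pp_022 : ∃ t, chk3 f_pp_022 t 4 2 1 = true := ex3_b s18_pp_022 s17_pp_022

theorem s20_pp_022 : ∃ t, chk3 f_pp_022 t 2 2 1 = true := ex3_a s19_pp_022 k4_pp_022

theorem s21_pp_022 : ∃ t, chk3 f_pp_022 t 2 1 1 = true := ex3_b s20_pp_022 s16_pp_022

theorem s22_pp_022 : ∃ t, chk3 f_pp_022 t 1 1 1 = true := ex3_a s21_pp_022 k11_pp_022

theorem c_pp_022 : CertFX 0 536870912 0 536870912 1046898278 26843546 true true true .pp 0 2 2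
    ndF0q0 ndF0q2 pcF2 cut_pp_022 Ext.none :=
  certFX0 (fam := true) (s1 := true) (s2 := true) (a := 0) (b := 2) (c := 2) (cn := .pp) (n1 := ndF0q0) (n2 := ndF0q2) (pc := pcF2) (cut := cut_pp_022) (xt := Ext.none) (P1 := 0) (W1 := 536870912) (P2 := 0) (W2 := 536870912) (P3 := 1046898278) (W3 := 26843546)
    rfl s22_pp_022

noncomputable def cut_pp_023 : Cut := Cut.of [[⟨3, 0, 0, 1449551462⟩], [⟨4, 0, 0, 2845415833⟩]]

noncomputable def f_pp_023 : ℕ → ℕ → ℕ → ℕ → Bool := onCell 1610612736 536870912 0 536870912 1046898278 26843546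
    (rowFX 2 true true true .up 0 2 3 (qsf 0 536870912 0 536870912 3) ndF0q0 ndF0q2 pcF3 cut_pp_023 Ext.none)

def k0_pp_023 : ∃ t, chk3 f_pp_023 t 1 1 1 = true :=
  ⟨(a (b (b (a (b (b (a (a (c (c (l 16777216) (l 16777216)) (c (l 16777216) (l 16777216))) (l 14)) (l 14)) (l 14)) (l 14)) (l 14)) (l 14)) (l 4)) (l 2)), by decide +kernel⟩

theorem c_pp_023 : CertFX 0 536870912 0 536870912 1046898278 26843546 true true true .up 0 2 3
    ndF0q0 ndF0q2 pcF3 cut_pp_023 Ext.none :=
  certFX2 (fam := true) (s1 := true) (s2 := true) (a := 0) (b := 2) (c := 3) (cn := .up) (n1 := ndF0q0) (n2 := ndF0q2) (pc := pcF3) (cut := cut_pp_023) (xt := Ext.none) (P1 := 0) (W1 := 536870912) (P2 := 0) (W2 := 536870912) (P3 := 1046898278) (W3 := 26843546)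
    rfl (fun _ => rfl) k0_pp_023

noncomputable def cut_pp_101 : Cut := Cut.of [[⟨3, 0, 0, 1449551462⟩], [⟨4, 0, 0, 2845415833⟩]]

noncomputable def f_pp_101 : ℕ → ℕ → ℕ → ℕ → Bool := onCell 536870912 536870912 0 536870912 1046898278 26843546
    (rowFX 0 true true true .npn 1 0 1 (qsf 536870912 536870912 0 536870912 1) ndF0q1 ndF0q0 pcF1 cut_pp_101 Ext.none)

def k0_pp_101 : ∃ t, chk3 f_pp_101 t 1 1 1 = true :=
  ⟨(l 14), by decide +kernel⟩

theorem c_pp_101 : CertFX 536870912 536870912 0 536870912 1046898278 26843546 true true true .npn 1 0 1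
    ndF0q1 ndF0q0 pcF1 cut_pp_101 Ext.none :=
  certFX0 (fam := true) (s1 := true) (s2 := true) (a := 1) (b := 0) (c := 1) (cn := .npn) (n1 := ndF0q1) (n2 := ndF0q0) (pc := pcF1) (cut := cut_pp_101) (xt := Ext.none) (P1 := 536870912) (W1 := 536870912) (P2 := 0) (W2 := 536870912) (P3 := 1046898278) (W3 := 26843546)
    rfl k0_pp_101

noncomputable def cut_pp_102 : Cut := Cut.of [[⟨3, 0, 0, 1449551462⟩], [⟨4, 0, 0, 2845415833⟩]]

noncomputable def f_pp_102 : ℕ → ℕ → ℕ → ℕ → Bool := onCell 536870912 536870912 0 536870912 1046898278 26843546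
    (rowFX 0 true true true .npp 1 0 2 (qsf 536870912 536870912 0 536870912 2) ndF0q1 ndF0q0 pcF2 cut_pp_102 Ext.none)

def k0_pp_102 : ∃ t, chk3 f_pp_102 t 1 1 1 = true :=
  ⟨(l 14), by decide +kernel⟩

theorem c_pp_102 : CertFX 536870912 536870912 0 536870912 1046898278 26843546 true true true .npp 1 0 2
    ndF0q1 ndF0q0 pcF2 cut_pp_102 Ext.none :=
  certFX0 (fam := true) (s1 := true) (s2 := true) (a := 1) (b := 0) (c := 2) (cn := .npp) (n1 := ndF0q1) (n2 := ndF0q0) (pc := pcF2) (cut := cut_pp_102) (xt := Ext.none) (P1 := 536870912) (W1 := 536870912) (P2 := 0) (W2 := 536870912) (P3 := 1046898278) (W3 := 26843546)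
    rfl k0_pp_102

noncomputable def cut_pp_112 : Cut := Cut.of [[⟨3, 0, 0, 1449551462⟩], [⟨4, 0, 0, 2845415833⟩]]

noncomputable def f_pp_112 : ℕ → ℕ → ℕ → ℕ → Bool := onCell 536870912 536870912 536870912 536870912 1046898278 26843546
    (rowFX 0 true true true .dn 1 1 2 (qsf 536870912 536870912 536870912 536870912 2) ndF0q1 ndF0q1 pcF2 cut_pp_112 Ext.none)

def k0_pp_112 : ∃ t, chk3 f_pp_112 t 1 1 1 = true :=
  ⟨(l 4), by decide +kernel⟩

theorem c_pp_112 : CertFX 536870912 536870912 536870912 536870912 1046898278 26843546 true true true .dn 1 1 2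
    ndF0q1 ndF0q1 pcF2 cut_pp_112 Ext.none :=
  certFX0 (fam := true) (s1 := true) (s2 := true) (a := 1) (b := 1) (c := 2) (cn := .dn) (n1 := ndF0q1) (n2 := ndF0q1) (pc := pcF2) (cut := cut_pp_112) (xt := Ext.none) (P1 := 536870912) (W1 := 536870912) (P2 := 536870912) (W2 := 536870912) (P3 := 1046898278) (W3 := 26843546)
    rfl k0_pp_112

noncomputable def cut_pp_113 : Cut := Cut.of [[⟨3, 0, 0, 1449551462⟩], [⟨4, 0, 0, 2845415833⟩]]

noncomputable def f_pp_113 : ℕ → ℕ → ℕ → ℕ → Bool := onCell 536870912 536870912 536870912 536870912 1046898278 26843546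
    (rowFX 0 true true true .nn 1 1 3 (qsf 536870912 536870912 536870912 536870912 3) ndF0q1 ndF0q1 pcF3 cut_pp_113 Ext.none)

def k0_pp_113 : ∃ t, chk3 f_pp_113 t 1 1 1 = true :=
  ⟨(l 4), by decide +kernel⟩

theorem c_pp_113 : CertFX 536870912 536870912 536870912 536870912 1046898278 26843546 true true true .nn 1 1 3
    ndF0q1 ndF0q1 pcF3 cut_pp_113 Ext.none :=
  certFX0 (fam := true) (s1 := true) (s2 := true) (a := 1) (b := 1) (c := 3) (cn := .nn) (n1 := ndF0q1) (n2 := ndF0q1) (pc := pcF3) (cut := cut_pp_113) (xt := Ext.none) (P1 := 536870912) (W1 := 536870912) (P2 := 536870912) (W2 := 536870912) (P3 := 1046898278) (W3 := 26843546)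
    rfl k0_pp_113

noncomputable def cut_pp_123 : Cut := Cut.of [[⟨3, 0, 0, 1449551462⟩], [⟨4, 0, 0, 2845415833⟩]]

noncomputable def f_pp_123 : ℕ → ℕ → ℕ → ℕ → Bool := onCell 536870912 536870912 0 536870912 1046898278 26843546
    (rowFX 0 true true true .npn 1 2 3 (qsf 536870912 536870912 0 536870912 3) ndF0q1 ndF0q2 pcF3 cut_pp_123 Ext.none)

def k0_pp_123 : ∃ t, chk3 f_pp_123 t 1 1 1 = true :=
  ⟨(a (l 14) (l 4)), by decide +kernel⟩

theorem c_pp_123 : CertFX 536870912 536870912 0 536870912 1046898278 26843546 true true true .npn 1 2 3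
    ndF0q1 ndF0q2 pcF3 cut_pp_123 Ext.none :=
  certFX0 (fam := true) (s1 := true) (s2 := true) (a := 1) (b := 2) (c := 3) (cn := .npn) (n1 := ndF0q1) (n2 := ndF0q2) (pc := pcF3) (cut := cut_pp_123) (xt := Ext.none) (P1 := 536870912) (W1 := 536870912) (P2 := 0) (W2 := 536870912) (P3 := 1046898278) (W3 := 26843546)
    rfl k0_pp_123

noncomputable def cut_pp_202 : Cut := Cut.of [[⟨3, 0, 0, 1449551462⟩], [⟨4, 0, 0, 2845415833⟩]]

noncomputable def f_pp_202 : ℕ → ℕ → ℕ → ℕ → Bool := onCell 0 536870912 0 536870912 1046898278 26843546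
    (rowFX 0 true true true .pp 2 0 2 (qsf 0 536870912 0 536870912 2) ndF0q2 ndF0q0 pcF2 cut_pp_202 Ext.none)

def k0_pp_202 : ∃ t, chk3 f_pp_202 t 1 1 1 = true :=
  ⟨(l 5), by decide +kernel⟩

theorem c_pp_202 : CertFX 0 536870912 0 536870912 1046898278 26843546 true true true .pp 2 0 2
    ndF0q2 ndF0q0 pcF2 cut_pp_202 Ext.none :=
  certFX0 (fam := true) (s1 := true) (s2 := true) (a := 2) (b := 0) (c := 2) (cn := .pp) (n1 := ndF0q2) (n2 := ndF0q0) (pc := pcF2) (cut := cut_pp_202) (xt := Ext.none) (P1 := 0) (W1 := 536870912) (P2 := 0) (W2 := 536870912) (P3 := 1046898278) (W3 := 26843546)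
    rfl k0_pp_202

noncomputable def cut_pp_203 : Cut := Cut.of [[⟨3, 0, 0, 1449551462⟩], [⟨4, 0, 0, 2845415833⟩]]

noncomputable def f_pp_203 : ℕ → ℕ → ℕ → ℕ → Bool := onCell 0 536870912 0 536870912 1046898278 26843546
    (rowFX 0 true true true .up 2 0 3 (qsf 0 536870912 0 536870912 3) ndF0q2 ndF0q0 pcF3 cut_pp_203 Ext.none)

def k0_pp_203 : ∃ t, chk3 f_pp_203 t 1 1 1 = true :=
  ⟨(l 5), by decide +kernel⟩

theorem c_pp_203 : CertFX 0 536870912 0 536870912 1046898278 26843546 true true true .up 2 0 3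
    ndF0q2 ndF0q0 pcF3 cut_pp_203 Ext.none :=
  certFX0 (fam := true) (s1 := true) (s2 := true) (a := 2) (b := 0) (c := 3) (cn := .up) (n1 := ndF0q2) (n2 := ndF0q0) (pc := pcF3) (cut := cut_pp_203) (xt := Ext.none) (P1 := 0) (W1 := 536870912) (P2 := 0) (W2 := 536870912) (P3 := 1046898278) (W3 := 26843546)
    rfl k0_pp_203

noncomputable def cut_pp_213 : Cut := Cut.of [[⟨3, 0, 0, 1449551462⟩], [⟨4, 0, 0, 2845415833⟩]]

noncomputable def f_pp_213 : ℕ → ℕ → ℕ → ℕ → Bool := onCell 0 536870912 536870912 536870912 1046898278 26843546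
    (rowFX 0 true true true .pnn 2 1 3 (qsf 0 536870912 536870912 536870912 3) ndF0q2 ndF0q1 pcF3 cut_pp_213 Ext.none)

def k0_pp_213 : ∃ t, chk3 f_pp_213 t 1 1 1 = true :=
  ⟨(a (l 5) (l 4)), by decide +kernel⟩

theorem c_pp_213 : CertFX 0 536870912 536870912 536870912 1046898278 26843546 true true true .pnn 2 1 3
    ndF0q2 ndF0q1 pcF3 cut_pp_213 Ext.none :=
  certFX0 (fam := true) (s1 := true) (s2 := true) (a := 2) (b := 1) (c := 3) (cn := .pnn) (n1 := ndF0q2) (n2 := ndF0q1) (pc := pcF3) (cut := cut_pp_213) (xt := Ext.none) (P1 := 0) (W1 := 536870912) (P2 := 536870912) (W2 := 536870912) (P3 := 1046898278) (W3 := 26843546)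
    rfl k0_pp_213

noncomputable def cut_pm_001 : Cut := Cut.of [[⟨3, 0, 0, 1449551462⟩], [⟨4, 0, 0, 2845415833⟩]]

noncomputable def f_pm_001 : ℕ → ℕ → ℕ → ℕ → Bool := onCell 0 536870912 0 536870912 1046898278 26843546
    (rowFX 0 true true false .up 0 0 1 (qsf 0 536870912 0 536870912 1) ndF0q0 ndF0q0 pcF1 cut_pm_001 Ext.none)

def k0_pm_001 : ∃ t, chk3 f_pm_001 t 1 1 1 = true :=
  ⟨(l 3), by decide +kernel⟩

theorem c_pm_001 : CertFX 0 536870912 0 536870912 1046898278 26843546 true true false .up 0 0 1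
    ndF0q0 ndF0q0 pcF1 cut_pm_001 Ext.none :=
  certFX0 (fam := true) (s1 := true) (s2 := false) (a := 0) (b := 0) (c := 1) (cn := .up) (n1 := ndF0q0) (n2 := ndF0q0) (pc := pcF1) (cut := cut_pm_001) (xt := Ext.none) (P1 := 0) (W1 := 536870912) (P2 := 0) (W2 := 536870912) (P3 := 1046898278) (W3 := 26843546)
    rfl k0_pm_001

noncomputable def cut_pm_011 : Cut := Cut.of [[⟨3, 0, 0, 1449551462⟩], [⟨4, 0, 0, 2845415833⟩], [⟨0, 0, 0, 67108864⟩, ⟨1, 1, 0, 67108864⟩, ⟨2, 1, 0, 67108864⟩, ⟨3, 0, 0, 1233125376⟩]]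

noncomputable def f_pm_011 : ℕ → ℕ → ℕ → ℕ → Bool := onCell 0 536870912 536870912 536870912 1046898278 26843546
    (rowFX 1 true true false .pnn 0 1 1 (qsf 0 536870912 536870912 536870912 1) ndF0q0 ndF0q1 pcF1 cut_pm_011 Ext.none)

def k0_pm_011 : ∃ t, chk3 f_pm_011 t 1 1 1 = true :=
  ⟨(l 6), by decide +kernel⟩

theorem c_pm_011 : CertFX 0 536870912 536870912 536870912 1046898278 26843546 true true false .pnn 0 1 1
    ndF0q0 ndF0q1 pcF1 cut_pm_011 Ext.none :=
  certFX1 (fam := true) (s1 := true) (s2 := false) (a := 0) (b := 1) (c := 1) (cn := .pnn) (n1 := ndF0q0) (n2 := ndF0q1) (pc := pcF1) (cut := cut_pm_011) (xt := Ext.none) (P1 := 0) (W1 := 536870912) (P2 := 536870912) (W2 := 536870912) (P3 := 1046898278) (W3 := 26843546)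
    rfl (fun _ => rfl) k0_pm_011

noncomputable def cut_pm_012 : Cut := Cut.of [[⟨3, 0, 0, 1449551462⟩], [⟨4, 0, 0, 2845415833⟩], [⟨0, 0, 0, 67108864⟩, ⟨1, 1, 0, 67108864⟩, ⟨2, 1, 0, 67108864⟩, ⟨3, 0, 0, 1233125376⟩]]

noncomputable def f_pm_012 : ℕ → ℕ → ℕ → ℕ → Bool := onCell 0 536870912 536870912 536870912 1046898278 26843546
    (rowFX 0 true true false .pnp 0 1 2 (qsf 0 536870912 536870912 536870912 2) ndF0q0 ndF0q1 pcF2 cut_pm_012 Ext.none)

def k0_pm_012 : ∃ t, chk3 f_pm_012 t 1 2 1 = true :=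
  ⟨(l 6), by decide +kernel⟩

def k1_pm_012 : ∃ t, chk3 f_pm_012 t 2 3 1 = true :=
  ⟨(a (l 6) (b (l 6) (b (l 6) (a (l 6) (a (l 6) (b (l 6) (b (l 6) (a (b (l 6) (a (b (l 6) (b (a (l 6) (c (l 15819736) (c (l 15801480) (l 15775992)))) (c (c (l 15807040) (l 15815800)) (c (l 15803584) (c (l 15794504) (a (b (l 6) (a (l 6) (l 15801608))) (l 15783640))))))) (c (c (a (l 15782256) (l 15787648)) (l 15782776)) (b (c (l 15782808) (c (l 15783128) (l 15779640))) (c (l 15763680) (c (l 15756304) (c (l 15754304) (l 15753584)))))))) (c (b (c (a (l 15797160) (l 15818672)) (l 15817200)) (l 15781240)) (b (c (l 15820296) (c (l 15816520) (l 15810464))) (c (l 15766296) (b (l 15773160) (b (l 15753208) (c (l 15741904) (l 15738008))))))))))))))), by decide +kernel⟩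

def k2_pm_012 : ∃ t, chk3 f_pm_012 t 3 6 1 = true :=
  ⟨(a (l 6) (b (l 6) (b (a (l 6) (a (l 6) (c (c (b (l 16777216) (l 16777216)) (l 16777216)) (c (l 16777216) (l 16777216))))) (a (a (l 6) (a (l 6) (b (l 6) (c (l 16752376) (l 16751728))))) (c (c (b (l 16777216) (l 16752536)) (b (l 16777216) (l 16752216))) (c (b (l 16777216) (l 16751888)) (b (l 16777216) (l 16751568)))))))), by decide +kernel⟩

def k3_pm_012 : ∃ t, chk3 f_pm_012 t 3 14 1 = true :=
  ⟨(a (a (l 6) (b (l 6) (a (a (l 6) (c (l 16323392) (l 16333664))) (c (b (l 16424496) (l 16306800)) (c (l 16357312) (l 16351960)))))) (a (c (b (a (l 16510376) (b (l 16650008) (l 16538920))) (a (l 16302424) (l 16344360))) (b (a (b (l 16646704) (l 16532736)) (b (l 16646704) (l 16532736))) (c (l 16294400) (b (l 16413040) (l 16291528))))) (c (b (b (a (l 16650008) (l 16650008)) (l 16538920)) (c (l 16368008) (l 16362664))) (b (a (b (l 16646704) (l 16532736)) (l 16547568)) (c (l 16357312) (a (l 16351960) (l 16351960))))))), by decide +kernel⟩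

def k4_pm_012 : ∃ t, chk3 f_pm_012 t 3 30 1 = true :=
  ⟨(a (a (a (b (l 6) (a (l 6) (b (l 6) (c (l 15994200) (l 15973544))))) (b (a (l 6) (c (l 16172304) (l 16156592))) (c (c (l 16037656) (l 16021856)) (c (l 16012112) (l 16002368))))) (c (c (b (l 16176232) (a (l 16037656) (l 16037656))) (a (l 16073616) (l 15968760))) (a (b (l 16156592) (c (l 16012112) (l 16002368))) (b (l 16135616) (c (l 16012112) (l 16002368)))))) (c (b (a (a (l 16172304) (l 16172304)) (l 16172304)) (a (c (l 16037656) (l 16021856)) (c (l 16037656) (l 16021856)))) (a (a (b (l 16135616) (l 15965296)) (b (l 16156592) (l 15965296))) (b (a (l 16156592) (l 16156592)) (c (l 16012112) (a (l 16002368) (l 16002368))))))), by decide +kernel⟩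

def k5_pm_012 : ∃ t, chk3 f_pm_012 t 6 31 1 = true :=
  ⟨(c (b (a (a (c (b (a (a (l 6) (l 15938120)) (l 15938120)) (l 15872232)) (b (l 15938936) (l 15879384))) (c (l 15905712) (l 15908248))) (c (a (b (l 15938120) (l 15872232)) (b (l 15938120) (l 15872232))) (a (l 15908248) (l 15908248)))) (a (c (a (l 15803536) (l 15803536)) (b (a (l 15817560) (l 15817560)) (a (l 15774848) (l 15774848)))) (b (a (c (l 15818672) (l 15817560)) (l 15819832)) (a (c (l 15787456) (l 15774848)) (l 15781240))))) (b (a (c (a (l 15902384) (l 15902536)) (a (a (b (l 15916952) (l 15865800)) (l 15891408)) (l 15891408))) (c (a (l 15902536) (l 15902536)) (a (l 15891408) (l 15891408)))) (a (c (b (a (l 15820656) (l 15820656)) (b (a (l 15775016) (l 15775016)) (a (l 15755088) (l 15755088)))) (b (a (l 15814488) (l 15814488)) (c (b (a (l 15775232) (l 15775232)) (a (l 15747600) (b (l 15752024) (l 15741904)))) (b (a (l 15771680) (l 15771680)) (a (c (l 15745552) (l 15744792)) (c (l 15745552) (l 15744792))))))) (a (c (b (l 15820656)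 (b (l 15775016) (l 15755088))) (b (l 15814488) (b (c (l 15775232) (l 15771680)) (c (b (l 15752024) (l 15741904)) (c (l 15745552) (l 15744792)))))) (c (b (l 15820656) (b (l 15775016) (l 15755088))) (b (l 15814488) (a (c (l 15762272) (l 15718888)) (c (l 15762272) (l 15760832))))))))), by decide +kernel⟩

def k6_pm_012 : ∃ t, chk3 f_pm_012 t 7 31 1 = true :=
  ⟨(c (a (b (c (a (l 15905712) (l 15905712)) (a (l 15908248) (l 15908248))) (c (b (l 15818672) (l 15787456)) (b (l 15817560) (l 15774848)))) (b (c (l 15905712) (l 15908248)) (a (b (l 15819832) (l 15781240)) (c (l 15803536) (l 15776968))))) (c (a (b (l 15902536) (b (a (l 15820656) (l 15820656)) (b (l 15775016) (a (l 15755088) (l 15755088))))) (b (l 15902536) (a (b (l 15820656) (l 15766296)) (b (l 15820656) (l 15766296))))) (a (b (a (l 15891408) (l 15891408)) (b (a (l 15814488) (l 15814488)) (c (a (l 15720328) (l 15762272)) (b (l 15771680) (a (l 15745632) (l 15745632)))))) (b (a (l 15891408) (l 15891408)) (b (a (l 15814488) (l 15814488))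 (c (a (l 15762272) (b (l 15775232) (l 15747600))) (a (a (l 15760832) (l 15697912)) (b (l 15771680) (c (l 15745552) (l 15744792)))))))))), by decide +kernel⟩

theorem s7_pm_012 : ∃ t, chk3 f_pm_012 t 3 31 1 = true := ex3_a k5_pm_012 k6_pm_012

theorem s8_pm_012 : ∃ t, chk3 f_pm_012 t 3 15 1 = true := ex3_b k4_pm_012 s7_pm_012

theorem s9_pm_012 : ∃ t, chk3 f_pm_012 t 3 7 1 = true := ex3_b k3_pm_012 s8_pm_012

theorem s10_pm_012 : ∃ t, chk3 f_pm_012 t 3 3 1 = true := ex3_b k2_pm_012 s9_pm_012

theorem s11_pm_012 : ∃ t, chk3 f_pm_012 t 1 3 1 = true := ex3_a k1_pm_012 s10_pm_012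

theorem s12_pm_012 : ∃ t, chk3 f_pm_012 t 1 1 1 = true := ex3_b k0_pm_012 s11_pm_012

theorem c_pm_012 : CertFX 0 536870912 536870912 536870912 1046898278 26843546 true true false .pnp 0 1 2
    ndF0q0 ndF0q1 pcF2 cut_pm_012 Ext.none :=
  certFX0 (fam := true) (s1 := true) (s2 := false) (a := 0) (b := 1) (c := 2) (cn := .pnp) (n1 := ndF0q0) (n2 := ndF0q1) (pc := pcF2) (cut := cut_pm_012) (xt := Ext.none) (P1 := 0) (W1 := 536870912) (P2 := 536870912) (W2 := 536870912) (P3 := 1046898278) (W3 := 26843546)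
    rfl s12_pm_012

noncomputable def cut_pm_022 : Cut := Cut.of [[⟨3, 0, 0, 1449551462⟩], [⟨4, 0, 0, 2845415833⟩], [⟨0, 0, 0, 67108864⟩, ⟨1, 1, 0, 67108864⟩, ⟨2, 1, 0, 67108864⟩, ⟨3, 0, 0, 1233125376⟩]]

noncomputable def f_pm_022 : ℕ → ℕ → ℕ → ℕ → Bool := onCell 1073741824 536870912 0 536870912 1046898278 26843546
    (rowFX 2 true true false .pp 0 2 2 (qsf 0 536870912 0 536870912 2) ndF0q0 ndF0q2 pcF2 cut_pm_022 Ext.none)

def k0_pm_022 : ∃ t, chk3 f_pm_022 t 4 1 1 = true :=
  ⟨(b (a (l 1) (b (l 1) (a (l 1) (a (l 1) (b (l 1) (b (l 1) (c (l 16348352) (b (l 212633509223) (c (l 16412808) (l 16287584)))))))))) (b (a (l 1) (b (a (l 1) (c (a (b (l 16228176) (l 16252584)) (b (a (l 16416664) (l 16476336)) (b (l 16423768) (l 16358792)))) (c (a (b (l 16221488) (l 16229392)) (a (b (l 16414504) (l 16312944)) (b (l 16434704) (b (l 16390192) (l 16373280))))) (a (b (l 16196808) (a (l 16159272) (b (l 16293168) (c (l 16388872) (l 16376392))))) (c (b (a (l 16417648) (l 16405184)) (a (l 16368672)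 (l 16377512))) (b (b (l 16301096) (l 16316912)) (l 16293920))))))) (b (a (a (l 1) (b (a (l 1) (c (l 16204624) (l 16112760))) (l 6))) (c (a (b (l 16298456) (c (l 16387712) (l 16374240))) (b (c (l 16428104) (l 16262024)) (c (l 16268696) (l 16154392)))) (a (c (b (a (l 16333472) (l 16355000)) (b (l 16293264) (l 16319808))) (b (a (l 16153688) (l 16332032)) (a (l 16306328) (l 16513864)))) (c (b (c (l 16241872) (l 16254808)) (l 16174336)) (b (l 16311720) (l 16314936)))))) (a (l 6) (a (a (l 6) (b (b (c (l 16411400) (l 16352504)) (l 6)) (l 6))) (b (c (c (c (l 16165808) (l 16171840)) (a (l 16264832) (l 16199160))) (c (l 16209920) (l 16245440))) (a (l 6) (b (c (c (c (b (l 16169616) (l 16148712)) (l 16031576)) (c (l 16118496) (l 16107008))) (c (l 16101528) (l 16094016))) (l 6))))))))) (l 6))), by decide +kernel⟩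

def k1_pm_022 : ∃ t, chk3 f_pm_022 t 10 4 1 = true :=
  ⟨(a (a (l 1) (c (b (c (l 16095312) (l 16133360)) (b (l 16172728) (l 16199952))) (b (c (l 16150448) (b (l 16171424) (l 16145872))) (c (b (l 16251968) (l 16239624)) (a (b (l 1) (l 16375608)) (b (l 16183800) (l 16198064))))))) (c (b (c (a (l 15835864) (b (l 15701816) (l 15727200))) (a (l 15893704) (c (l 15723648) (l 15733424)))) (c (a (b (l 15989712) (l 16033488)) (b (l 15762840) (l 15810648))) (a (b (l 15988376) (l 16037424)) (b (l 15780448) (l 15768936))))) (b (c (a (c (l 15936032) (l 15899768)) (c (l 15744848) (l 15749184))) (a (c (l 15886104) (l 15953808)) (l 15743688))) (c (a (b (l 15830712) (a (l 16104528) (l 15996640))) (b (l 15798944) (l 15846008))) (a (b (l 15950872) (l 16046008)) (l 15816376)))))), by decide +kernel⟩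

def k2_pm_022 : ∃ t, chk3 f_pm_022 t 10 5 1 = true :=
  ⟨(b (a (a (a (l 1) (c (b (l 16452160) (l 16396808)) (c (l 16329520) (b (l 16473024) (b (l 16444392) (l 16317984)))))) (c (b (l 16234368) (l 16237648)) (b (c (l 16218656) (c (l 16183936) (l 16191560))) (c (c (l 16329216) (l 16233824)) (b (l 16226536) (l 16292256)))))) (c (a (c (b (l 16087376) (l 16155232)) (b (l 16057968) (a (l 16229248) (l 16120208)))) (c (b (l 15870376) (l 15923664)) (b (l 15874152) (l 15966528)))) (a (c (b (a (l 16173592) (l 16062416)) (l 16052600)) (b (l 16128488) (l 16202248))) (c (b (l 15903064) (l 15971808)) (l 15929272))))) (a (a (c (b (c (l 16351064) (l 16329280)) (c (l 16314824) (l 16267136))) (a (c (b (l 16496480) (l 16424248)) (b (l 16397088) (c (l 16374576) (l 16346064)))) (c (b (l 16333336) (b (l 16296504) (l 16201432))) (b (c (l 16262352) (l 16254472)) (c (l 16221048) (l 16324192)))))) (c (b (b (l 16335464) (l 16304032)) (c (l 16317592) (a (l 16332912) (l 16412640)))) (b (c (b (l 16275456) (l 16259584))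 (l 16259536)) (c (c (l 16260792) (l 16252280)) (l 16290344))))) (c (c (a (b (l 16158032) (a (l 16355640) (l 16267680))) (b (l 15927632) (l 16085568))) (b (a (a (l 16280216) (l 16211608)) (l 16047768)) (a (b (l 16261536) (l 16293456)) (l 16137992)))) (a (c (b (l 16181176) (l 16298632)) (l 16143696)) (b (l 16041744) (l 16127032)))))), by decide +kernel⟩

def k3_pm_022 : ∃ t, chk3 f_pm_022 t 11 2 1 = true :=
  ⟨(b (a (c (b (c (a (c (l 15542304) (l 15557160)) (b (l 15406160) (l 15420144))) (a (c (l 15567296) (l 15571816)) (l 15410912))) (c (a (b (l 15552000) (l 15618576)) (b (l 15444464) (l 15478392))) (a (b (l 15610392) (l 15651440)) (l 15455384)))) (b (c (b (l 15469832) (l 15485992)) (l 15462624)) (b (c (l 15511776) (l 15496304)) (c (l 15547192) (l 15532160))))) (c (b (c (a (a (b (c (l 15338976) (l 15350656)) (l 15365112)) (l 15436936)) (l 15569600)) (a (b (l 15374760) (l 15386552)) (l 15553816))) (c (a (b (a (l 15386352) (l 15468288)) (l 15422392)) (l 15620088)) (a (b (l 15410304) (l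 15447176)) (l 15604960)))) (c (b (a (b (l 15356664) (l 15368616)) (l 15538032)) (a (b (l 15392664) (l 15430008)) (l 15589832))) (b (b (l 15427440) (l 15419184)) (b (l 15423504) (l 15399032)))))) (a (a (c (b (c (b (l 15693600) (l 15760216)) (l 15670936)) (b (c (l 15834928) (l 15830720)) (b (l 15894856) (l 15944792)))) (b (b (l 15686120) (l 15744488)) (b (l 15813720) (l 15818024)))) (b (c (c (a (l 15599080) (l 15519752)) (l 15546824)) (b (l 15490440) (l 15550736))) (c (b (l 15657408) (l 15752008)) (b (l 15628872) (l 15725880))))) (b (c (c (a (b (l 15515112) (l 15579368)) (l 15720296)) (b (l 15419208) (l 15504288))) (b (c (l 15529680) (l 15556272)) (c (l 15552672) (l 15559112)))) (c (b (a (c (l 15655960) (l 15641304)) (l 15816336)) (a (c (l 15744560) (l 15731064)) (l 15895584))) (b (a (c (l 15626648) (l 15611992)) (l 15791384)) (a (c (l 15717568) (l 15704072)) (l 15872688))))))), by decide +kernel⟩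

def k4_pm_022 : ∃ t, chk3 f_pm_022 t 10 12 1 = true :=
  ⟨(a (a (c (c (b (l 16249440) (a (l 16382520) (l 16187336))) (b (a (l 16384408) (b (l 16318696) (l 16282768))) (a (l 16210448) (b (l 16200368) (l 16200664))))) (c (b (a (c (l 16351712) (l 16297656)) (b (l 16230104) (l 16215384))) (a (l 16165736) (b (l 16219136) (l 16177832)))) (b (a (l 16290480) (l 16260160)) (l 16131096)))) (c (b (c (c (l 16285216) (l 16272720)) (a (l 16201752) (l 16345736))) (c (b (l 16244392) (l 16223112)) (b (l 16238144) (l 16242128)))) (b (c (a (l 16264848) (l 16413536)) (l 16292880)) (c (l 16250504) (l 16225392))))) (c (b (a (c (c (l 16286864) (l 16321928)) (l 16291792)) (c (l 16065144) (l 16233832))) (a (c (l 16355800) (l 16470872)) (l 16168064))) (a (b (l 16294480) (a (l 16440056) (l 16401792))) (b (b (l 16197072) (l 16229976)) (c (l 16266728) (l 16178712)))))), by decide +kernel⟩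

def k5_pm_022 : ∃ t, chk3 f_pm_022 t 20 13 1 = true :=
  ⟨(b (a (c (c (b (l 16051400) (a (l 16202992) (l 16061384))) (b (a (l 16257696) (l 16118536)) (l 15932512))) (b (c (l 16084032) (l 16099328)) (c (l 16085904) (l 16036384)))) (c (c (b (l 16164448) (l 16100320)) (l 15987768)) (b (l 16093024) (l 16010912)))) (a (b (c (c (a (l 16023120) (c (l 15948304) (l 15929168))) (l 15946088)) (c (l 15974464) (l 15944232))) (c (c (b (a (b (l 16006520) (c (l 15968120) (l 15967552))) (b (l 15861712) (c (a (l 15871568) (a (l 15817432) (l 15767016))) (l 15829416)))) (a (c (l 15985632) (l 15966864)) (a (l 15864912) (l 15797016)))) (b (a (l 15969944) (l 15793512)) (l 15888096))) (b (b (l 15896664) (c (l 15731880) (a (l 15937320) (b (l 15800896) (l 15790992))))) (c (l 15877328) (a (l 15938640) (l 15795040)))))) (a (b (c (l 15921368) (l 15942744)) (c (c (b (b (l 15896784) (b (l 15874904) (l 15777592))) (c (l 15855136) (l 15849384))) (b (l 15872776) (l 15840392))) (b (c (l 15840672) (a (l 15808944) (l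 15891400))) (c (l 15828896) (c (l 15820576) (l 15814816)))))) (b (c (l 16118136) (l 16102784)) (c (b (l 16025056) (c (a (a (l 15933568) (l 15965320)) (l 16013416)) (a (l 15939192) (l 16004008)))) (b (l 16006864) (c (a (l 15928952) (l 15994600)) (a (a (l 15902240) (l 15935216)) (l 15985192))))))))), by decide +kernel⟩

def k6_pm_022 : ∃ t, chk3 f_pm_022 t 21 13 1 = true :=
  ⟨(b (c (a (b (l 16343208) (l 16339736)) (l 16289960)) (a (b (b (l 16406224) (l 16399576)) (c (l 16356280) (l 16290416))) (c (l 16329408) (b (l 16365976) (l 16435696))))) (b (a (c (l 16302744) (l 16146184)) (c (l 16451056) (c (l 16470112) (l 16405920)))) (a (c (b (l 16226112) (c (a (l 16109392) (l 16235840)) (l 16166152))) (b (l 16150416) (c (l 16033056) (b (a (l 16093632) (l 16227576)) (l 16058304))))) (c (b (l 16439848) (c (c (l 16318304) (l 16379328)) (l 16376576))) (b (c (l 16456616) (l 16390896)) (c (l 16288904) (c (l 16265032) (a (l 16282184) (b (l 16487232) (l 16457448)))))))))), by decide +kernel⟩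

def k7_pm_022 : ∃ t, chk3 f_pm_022 t 20 7 1 = true :=
  ⟨(b (b (b (a (c (c (a (a (l 6) (l 15941560)) (a (l 15872696) (c (l 15807336) (l 15801208)))) (a (l 15964600) (l 15825960))) (c (a (l 15954840) (l 15751280)) (a (l 15945080) (c (l 15805368) (a (l 15836360) (l 15764432)))))) (c (a (c (c (l 15842624) (l 15836704)) (l 15827824)) (c (a (a (l 15904304) (l 15933032)) (l 15978072)) (l 15875128))) (a (c (l 15774040) (c (l 15807104) (b (l 15807632) (l 15794784)))) (c (a (l 15876104) (l 15958048)) (a (a (l 15850344) (l 15901192)) (l 15948032)))))) (a (l 6) (a (b (c (c (l 15819080) (l 15806856)) (c (l 15794632) (c (l 15785472) (l 15779360)))) (l 6)) (c (c (a (a (l 15857528) (l 15882280)) (l 15923544)) (a (l 15858320) (l 15912656))) (c (a (a (l 15833992) (l 15859400)) (l 15901760)) (a (a (c (l 15825168) (l 15819280)) (l 15847960)) (l 15890872))))))) (b (b (a (l 6) (a (l 6) (a (l 6) (c (c (l 15876704) (l 15865088)) (c (l 15853464) (l 15841840)))))) (l 6)) (l 6))) (l 6)), by decide +kernel⟩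

def k8_pm_022 : ∃ t, chk3 f_pm_022 t 21 7 1 = true :=
  ⟨(a (b (b (c (c (b (c (l 16128408) (l 16124400)) (c (l 16040728) (l 16057176))) (b (l 16118392) (l 16050384))) (c (b (l 16026504) (c (l 16043592) (l 16039072))) (b (c (l 16062440) (a (l 16038760) (l 16161448))) (c (l 15950656) (a (l 15973536) (l 16085944)))))) (b (c (c (a (l 15889120) (l 15990728)) (l 15909656)) (c (c (l 15964912) (l 15917864)) (c (a (l 15901032) (l 16006480)) (a (l 15832656) (b (l 16024808) (l 15977328)))))) (a (l 6) (c (c (l 15895928) (l 15926960)) (b (c (l 15941152) (l 15909632)) (l 6)))))) (l 6)) (b (c (b (c (c (a (l 16201200) (l 16315760)) (l 16110232)) (b (l 16334368) (l 16273712))) (c (b (c (l 16150872) (l 16189176)) (c (l 16043624) (l 16081152))) (b (l 16183720) (l 16074528)))) (b (c (b (l 16224768) (l 16099976)) (c (b (l 16221208) (l 16137440)) (b (a (l 16282352) (l 16321304)) (a (l 16137528) (l 16276912))))) (c (b (l 16008664) (l 15918896)) (b (c (l 16066120) (a (l 16069952) (l 16159312))) (c (l 15996160)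 (a (l 15983376) (l 16083464))))))) (b (b (c (c (b (l 15912104) (c (l 15946976) (l 15941624))) (l 15959864)) (c (c (l 15952024) (l 15946792)) (c (l 15857680) (b (l 15900320) (l 15888160))))) (l 6)) (l 6)))), by decide +kernel⟩

def k9_pm_022 : ∃ t, chk3 f_pm_022 t 22 6 1 = true :=
  ⟨(b (c (b (a (l 16009416) (l 15859712)) (a (l 16096272) (l 15894016))) (b (a (b (l 15980672) (l 16043176)) (c (l 15842168) (l 15830472))) (c (a (l 16148144) (l 15962616)) (a (l 16077864) (b (l 15921128) (l 15984064)))))) (b (c (a (b (l 16276256) (l 16396560)) (b (l 16081936) (l 16187800))) (a (c (l 16161304) (b (l 16177720) (l 16239376))) (c (b (l 16068680) (l 16176776)) (b (b (l 16034336) (l 16086328)) (c (l 16171256) (l 16041752)))))) (c (b (a (l 16435520) (l 16296008)) (c (b (l 16285256) (a (l 16503448) (l 16394600))) (a (l 16472544) (l 16341568)))) (c (b (a (l 16431984) (l 16287304)) (b (l 16258608) (a (l 16503408) (l 16345144)))) (a (b (a (l 16488208) (l 16394456)) (b (l 16462760) (c (l 16482360) (b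 (l 16510384) (a (l 16525264) (l 16561296)))))) (a (b (l 16297664) (b (l 16426784) (b (l 16471088) (a (l 16510384) (l 16470288))))) (c (l 16261584) (b (l 16222664) (l 16273168))))))))), by decide +kernel⟩

def k10_pm_022 : ∃ t, chk3 f_pm_022 t 23 6 1 = true :=
  ⟨(a (b (c (b (c (l 15841056) (l 15828816)) (c (l 15941440) (l 15930520))) (b (c (l 15711728) (a (l 15681656) (l 15844664))) (c (a (l 15885056) (l 15954328)) (a (b (l 15847216) (l 15900336)) (l 15943848))))) (c (b (c (l 16078344) (l 15964424)) (c (l 16279904) (l 16273728))) (b (c (b (l 16010328) (l 16109632)) (b (a (b (l 15942920) (l 15990416)) (l 16034168)) (a (a (a (l 16049528) (l 16057640)) (l 16083192)) (l 16133816)))) (a (c (l 16194832) (c (l 16106008) (a (b (a (l 16155144) (l 16162664)) (a (c (l 16266936) (l 16223488)) (l 16273056))) (b (l 16187480) (l 16297024))))) (c (l 16298056) (b (l 16238272) (l 16324760))))))) (b (c (b (l 15980024) (l 16071472)) (b (c (l 15964496) (l 15954144)) (c (l 16057728) (l 16048560)))) (c (b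 (c (l 16207216) (l 16199840)) (l 16356136)) (b (c (l 16171488) (b (l 16136528) (l 16233144))) (c (l 16370256) (b (l 16313392) (l 16354536))))))), by decide +kernel⟩

def k11_pm_022 : ∃ t, chk3 f_pm_022 t 22 14 1 = true :=
  ⟨(c (b (a (c (c (l 16300904) (l 16362872)) (l 16319552)) (c (a (l 16433320) (l 16388064)) (b (l 16429432) (l 16554680)))) (a (c (b (l 16250928) (l 16102960)) (b (l 16372536) (l 16264680))) (c (b (l 16428304) (l 16324464)) (l 16290920)))) (b (c (a (c (l 16360024) (l 16317128)) (b (c (l 16427480) (l 16384264)) (l 16448976))) (a (c (b (l 16427992) (l 16371232)) (a (b (l 16447880) (l 16353416)) (b (l 16532168) (l 16427784)))) (c (b (a (l 16504296) (l 16408960)) (l 16448344)) (a (b (a (l 16533000) (l 16452976)) (b (l 16560456) (l 16554208))) (b (b (a (l 16451000) (l 16329152)) (l 16413768)) (b (l 16448752) (a (l 16574128) (l 16541592)))))))) (a (c (b (l 16263464) (l 16174744)) (c (b (l 16260304) (l 16191176)) (b (a (l 16225720) (c (l 16416376) (l 16373576))) (a (l 16181680)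 (l 16236048))))) (c (c (l 16310272) (l 16267248)) (b (c (l 16425336) (a (b (l 16513336) (l 16463936)) (b (l 16542088) (l 16521752)))) (c (l 16315568) (c (l 16293384) (a (l 16329920) (l 16380552))))))))), by decide +kernel⟩

def k12_pm_022 : ∃ t, chk3 f_pm_022 t 23 14 1 = true :=
  ⟨(a (c (b (c (a (a (a (l 16366000) (l 16455976)) (l 16477584)) (l 16499336)) (a (a (l 16344576) (l 16474440)) (l 16496816))) (c (a (a (a (l 16435272) (l 16491984)) (l 16471712)) (l 16431640)) (a (l 16398744) (l 16471976)))) (a (a (a (b (a (c (l 16446904) (c (l 16402344) (c (l 16359096) (b (l 16341784) (l 16478880))))) (c (l 16375808) (c (l 16331168) (b (c (l 16376216) (b (a (l 16345104) (l 16347264)) (l 16403864))) (b (l 16441648) (l 16500544)))))) (c (l 16434288) (b (c (l 16555048) (a (l 16558440) (b (l 16560512) (l 16604168)))) (c (l 16498960) (a (l 16494880) (l 16459424)))))) (b (c (l 16449064) (c (l 16404536) (b (c (l 16386928) (l 16322936)) (l 16460520)))) (c (l 16490792) (c (l 16469376) (b (l 16560840)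 (l 16491344)))))) (c (b (l 16429352) (l 16448880)) (c (b (l 16385048) (l 16448176)) (b (b (b (l 16380936) (l 16437848)) (l 16482672)) (b (l 16561008) (l 16469976)))))) (c (b (l 16410400) (l 16407456)) (c (b (l 16366568) (l 16406256)) (b (b (b (l 16385120) (l 16483072)) (a (l 16511944) (l 16540936))) (b (l 16528872) (l 16406744))))))) (c (b (c (l 16540880) (l 16518632)) (c (l 16374312) (l 16350408))) (b (b (c (l 16505336) (c (l 16482736) (c (l 16460952) (b (l 16454168) (l 16529424))))) (c (l 16612568) (c (l 16591352) (l 16528280)))) (b (c (l 16490432) (c (l 16489104) (b (l 16527312) (l 16469832)))) (c (l 16371184) (c (l 16368120) (c (l 16345616) (l 16281680)))))))), by decide +kernel⟩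

def k13_pm_022 : ∃ t, chk3 f_pm_022 t 11 30 1 = true :=
  ⟨(a (c (b (c (a (c (l 16059672) (l 16136200)) (c (l 16240592) (l 16297408))) (a (l 16130240) (l 16293336))) (b (c (c (a (a (l 16007496) (l 16082216)) (l 16106920)) (a (l 15987096) (l 16195808))) (l 15928864)) (c (c (a (l 15972648) (l 16108592)) (a (l 15874128) (l 16116808))) (c (a (l 15941904) (l 16121000)) (l 16051808))))) (c (a (b (l 16059376) (l 16003608)) (b (l 16224992) (l 16149488))) (a (b (c (l 16053416) (b (l 16060480) (l 16059080))) (c (l 15996392) (a (l 15953312) (l 16029384)))) (c (b (l 16199944) (l 16143952)) (b (c (l 16135000) (a (l 16196912) (l 16216688))) (a (l 16103728) (l 16155360))))))) (c (c (a (a (a (b (l 16259392) (a (a (l 16223664) (l 16165176)) (l 16218480))) (b (l 16361472) (l 16198184))) (b (l 16321352) (l 16158064))) (b (l 16242992) (l 16079728))) (a (a (a (a (a (l 16245016) (l 16207608)) (l 16260752)) (l 16240128)) (l 16157400)) (l 15972888))) (c (a (a (b (l 16275840) (l 16210208)) (l 16168776)) (b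 (l 16225080) (l 16075448))) (a (c (a (b (a (l 16327000) (l 16344136)) (l 16184424)) (l 16122184)) (a (b (a (a (b (l 16389328) (l 16330520)) (l 16342296)) (l 16320920)) (a (a (l 16176800) (l 16210960)) (l 16189584))) (b (l 16236712) (l 16147328)))) (c (b (l 16220248) (l 16069008)) (b (b (l 16214960) (l 16155904)) (c (l 16065792) (l 16021704)))))))), by decide +kernel⟩

def k14_pm_022 : ∃ t, chk3 f_pm_022 t 22 31 1 = true :=
  ⟨(a (a (l 6) (b (b (c (c (l 15936792) (c (l 15942896) (l 15949448))) (c (l 15945680) (l 15934936))) (l 6)) (l 6))) (b (c (c (c (l 15867968) (l 15996072)) (c (l 15914352) (l 15856168))) (c (b (l 16043328) (c (l 15965048) (l 15842832))) (c (l 15999032) (a (l 15962816) (l 16025416))))) (b (c (c (l 15890376) (l 15882232)) (c (c (l 15880136) (c (l 15881136) (l 15883224))) (c (a (l 15815832) (l 15911128)) (l 15878704)))) (a (l 6) (a (l 6) (c (l 15858888) (c (l 15842352) (c (l 15837544) (c (l 15836816) (l 15835984)))))))))), by decide +kernel⟩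

def k15_pm_022 : ∃ t, chk3 f_pm_022 t 23 31 1 = true :=
  ⟨(c (a (b (c (a (a (a (c (l 16057536) (l 16060344)) (l 16051696)) (l 16031416)) (l 15991320)) (a (a (a (c (l 16063816) (l 16068560)) (l 16058296)) (l 16037680)) (l 15996912))) (c (a (a (a (l 15913472) (l 15905112)) (l 15884840)) (l 15846984)) (a (a (l 15900384) (l 15875528)) (l 15837024)))) (b (c (a (l 15939048) (l 15901960)) (b (l 15962688) (l 15885216))) (c (l 15813056) (l 15802520)))) (c (a (b (a (b (l 16095672) (a (a (l 16006936) (l 16019512)) (l 15998560))) (l 15978688)) (b (c (l 15894024) (a (a (a (l 15940680) (l 15932136)) (l 15911104)) (l 15869520))) (a (a (l 15854080) (l 15828760)) (l 15790528)))) (b (b (l 15963368) (c (l 15890064) (l 15890440))) (b (c (l 15818488) (b (l 15835536) (l 15801112))) (l 15766512)))) (b (a (a (a (a (a (l 16061992) (l 16065744)) (l 16055616)) (l 16034328)) (l 15908352)) (a (c (l 15939912) (l 15934728)) (c (l 15901064) (b (a (l 15934200) (l 15913352)) (l 15860792))))) (a (a (c (a (a (b (l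 15941920) (b (l 15874000) (l 15832016))) (b (l 15933256) (l 15844936))) (b (l 15912056) (l 15823736))) (b (l 15920624) (a (a (a (c (l 15851720) (l 15851000)) (c (l 15854256) (l 15853560))) (c (l 15844040) (l 15843312))) (c (l 15822712) (l 15821896))))) (b (c (l 15870128) (l 15865544)) (c (b (l 15802336) (l 15763992)) (b (l 15800880) (c (l 15761168) (l 15760496)))))) (b (c (a (l 15825256) (l 15812840)) (a (l 15820304) (l 15807784))) (c (b (l 15771992) (l 15747456)) (b (c (l 15771888) (l 15769248)) (c (l 15744528) (l 15743784))))))))), by decide +kernel⟩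

def k16_pm_022 : ∃ t, chk3 f_pm_022 t 3 4 1 = true :=
  ⟨(a (a (c (b (a (a (b (l 15728856) (l 15740656)) (b (l 15891616) (l 15900088))) (b (c (l 16102464) (l 16093648)) (l 16104576))) (c (a (b (l 15849168) (l 15881992)) (l 16142760)) (a (l 15790736) (l 16134472)))) (b (a (b (c (l 15793048) (l 15780512)) (l 15795912)) (b (l 15975568) (l 16087104))) (c (a (l 15841736) (l 16126176)) (a (l 15829816) (l 16117880))))) (c (b (a (b (a (l 16290376) (l 16413304)) (l 16339864)) (b (l 16591120) (l 16536520))) (a (c (l 16374080) (l 16390056)) (c (l 16587968) (l 16586040)))) (b (a (b (l 16257640) (l 16350016)) (b (l 16586288) (l 16552872))) (a (c (l 16385064) (l 16380064)) (c (l 16584120) (l 16582192)))))) (c (a (b (a (b (c (l 16764816) (l 16764656)) (a (l 16735552) (l 16777216))) (c (l 16777216) (l 16777216))) (b (a (c (l 16770008) (l 16769912)) (c (l 16777216) (l 16777216))) (c (a (l 16774112) (l 16777216)) (a (l 16774072) (l 16777216))))) (b (c (c (l 16777216) (l 16777216)) (c (l 16777216) (l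 16777216))) (c (b (a (l 16777216) (l 16777216)) (a (l 16777216) (l 16777216))) (b (a (l 16777216) (l 16777216)) (a (l 16777216) (l 16777216)))))) (a (a (c (b (b (l 16764496) (l 16766192)) (l 16728064)) (b (b (l 16764328) (l 16766056)) (b (l 16769728) (l 16773992)))) (b (c (l 16777216) (l 16777216)) (b (c (l 16777216) (l 16777216)) (l 16777216)))) (b (c (c (l 16777216) (l 16777216)) (c (l 16777216) (l 16777216))) (c (b (a (l 16777216) (l 16777216)) (a (l 16777216) (l 16777216))) (b (a (l 16777216) (l 16777216)) (a (l 16777216) (l 16777216)))))))), by decide +kernel⟩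

def k17_pm_022 : ∃ t, chk3 f_pm_022 t 6 5 1 = true :=
  ⟨(a (c (b (c (a (b (l 15924808) (l 15976848)) (b (l 16194000) (l 16240776))) (a (l 15856088) (l 16210752))) (c (a (b (l 16037192) (l 16105992)) (b (l 16296432) (a (l 16298680) (l 16421688)))) (a (b (l 16027512) (l 16097216)) (b (l 16290152) (l 16355280))))) (b (c (a (l 15929168) (l 16203448)) (a (l 15918368) (l 16196136))) (c (b (l 15943376) (a (l 16088440) (l 16349840))) (b (l 15977368) (a (l 16079672) (l 16344392)))))) (c (b (a (c (b (l 16442848) (l 16465464)) (l 16314400)) (b (a (l 16617000) (l 16726984)) (a (l 16658464) (l 16711824)))) (a (c (b (a (l 16479432) (l 16595984)) (c (a (l 16541112) (l 16655032)) (l 16492584))) (b (l 16472216) (a (l 16537240) (l 16653032)))) (b (c (a (l 16707744) (l 16772056)) (a (l 16706832) (l 16771984))) (c (a (b (l 16743352) (l 16740016)) (l 16777216)) (a (l 16707056) (l 16777216)))))) (a (b (c (l 16394208) (l 16453040)) (c (b (l 16532008) (l 16509456)) (b (l 16528880) (l 16549056)))) (b (b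 (a (l 16612840) (l 16725680)) (a (l 16655384) (l 16753160))) (b (c (a (l 16705928) (l 16771920)) (l 16661064)) (a (c (l 16748640) (l 16748272)) (l 16777216))))))), by decide +kernel⟩

def k18_pm_022 : ∃ t, chk3 f_pm_022 t 7 5 1 = true :=
  ⟨(c (b (a (c (a (l 16755880) (b (l 16777216) (l 16777216))) (b (l 16777072) (l 16777216))) (c (b (l 16777216) (a (l 16777216) (l 16777216))) (b (l 16777216) (l 16777216)))) (a (c (b (a (l 16777216) (l 16777216)) (a (l 16777216) (c (l 16777216) (l 16777216)))) (b (a (l 16777216) (l 16777216)) (a (l 16777216) (l 16777216)))) (c (b (c (l 16777216) (l 16777216)) (c (a (l 16777216) (l 16777216)) (a (l 16777216) (l 16777216)))) (b (a (l 16777216) (l 16777216)) (a (l 16777216) (l 16777216)))))) (b (a (c (b (l 16777064) (l 16777216)) (b (l 16777064) (l 16777216))) (c (b (l 16777216) (l 16777216)) (b (l 16777216) (l 16777216)))) (a (c (b (a (l 16777216) (l 16777216)) (a (l 16777216) (l 16777216))) (b (l 16777216) (a (l 16777216) (l 16777216)))) (c (b (a (l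 16777216) (l 16777216)) (a (l 16777216) (l 16777216))) (b (l 16777216) (a (l 16777216) (l 16777216))))))), by decide +kernel⟩

def k19_pm_022 : ∃ t, chk3 f_pm_022 t 12 6 1 = true :=
  ⟨(b (c (a (b (c (a (l 16118680) (l 16247808)) (l 16176032)) (c (l 16249248) (l 16263592))) (b (c (c (a (l 16373896) (l 16493912)) (l 16306376)) (a (l 16367288) (l 16489272))) (c (a (l 16454576) (c (a (l 16543848) (l 16580328)) (l 16529424))) (c (a (l 16451416) (l 16570024)) (l 16383720))))) (b (c (a (l 16168272) (l 16361416)) (a (l 16160520) (l 16419840))) (a (c (l 16256968) (l 16208392)) (c (a (l 16446144) (l 16524728)) (a (l 16441928) (l 16563992)))))) (b (a (c (c (a (l 16332784) (l 16391080)) (a (l 16327056) (l 16407904))) (c (b (l 16339176) (l 16386536)) (b (l 16270704) (l 16319312)))) (c (b (a (c (l 16530120) (l 16526920)) (c (c (l 16561104) (l 16581224)) (l 16558976))) (c (a (l 16589992) (l 16616328)) (a (l 16608976) (l 16657824)))) (b (c (a (l 16523720) (l 16578240)) (a (l 16520512) (l 16597504)))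 (c (a (l 16586016) (l 16678352)) (b (l 16536856) (l 16537352)))))) (a (c (c (l 16385568) (l 16362424)) (a (c (l 16448608) (c (l 16446376) (l 16361008))) (c (l 16501424) (b (l 16536192) (c (l 16631248) (l 16589032)))))) (a (c (c (l 16574976) (l 16553664)) (c (l 16532352) (b (l 16609280) (c (l 16579432) (l 16557856))))) (c (b (a (l 16626344) (a (l 16615088) (c (l 16598776) (l 16618024)))) (a (c (l 16581928) (l 16579504)) (c (l 16517760) (l 16535904)))) (b (c (a (l 16646144) (l 16584120)) (a (l 16624400) (b (l 16670208) (l 16597552)))) (c (a (l 16535144) (b (l 16573880) (l 16532064))) (a (c (l 16533328) (l 16490176)) (b (l 16550336) (l 16528944)))))))))), by decide +kernel⟩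

def k20_pm_022 : ∃ t, chk3 f_pm_022 t 13 12 1 = true :=
  ⟨(c (a (b (b (c (a (l 16527808) (l 16682144)) (l 16519936)) (c (a (c (l 16564528) (l 16626464)) (c (l 16671480) (l 16671200))) (a (l 16624992) (l 16670784)))) (a (c (c (a (b (l 16637408) (l 16656520)) (b (l 16693080) (l 16690416))) (a (l 16593968) (l 16649592))) (b (l 16600632) (c (l 16662168) (l 16661696)))) (c (b (a (b (l 16717096) (l 16713224)) (l 16753720)) (a (b (l 16725656) (l 16754056)) (l 16777216))) (b (a (l 16724752) (l 16774664)) (a (l 16748544) (l 16777216)))))) (b (c (b (a (l 16772600) (l 16777216)) (l 16777200)) (b (l 16753624) (l 16777200))) (c (c (l 16777216) (l 16777216)) (c (l 16777216) (l 16777216))))) (a (a (b (c (l 16583672) (l 16602440)) (b (c (l 16662080) (l 16660616)) (c (l 16660984) (l 16681008)))) (b (b (l 16679720) (b (l 16684576) (l 16678584))) (c (b (l 16715280) (l 16751312)) (b (l 16736000) (l 16772224))))) (b (c (b (l 16774560) (l 16777200)) (b (l 16774528) (l 16777200))) (c (c (l 16777216) (l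 16777216)) (c (l 16777216) (l 16777216)))))), by decide +kernel⟩

def k21_pm_022 : ∃ t, chk3 f_pm_022 t 13 26 1 = true :=
  ⟨(c (a (a (c (b (b (a (c (l 16668320) (l 16709824)) (c (b (l 16735496) (l 16725240)) (l 16718936))) (a (l 16702832) (a (b (l 16743320) (l 16722024)) (l 16747024)))) (b (a (c (l 16692768) (l 16692552)) (c (l 16715200) (l 16714792))) (a (a (l 16694608) (c (l 16662240) (l 16682600))) (l 16681240)))) (b (a (a (l 16671128) (l 16698712)) (b (l 16718784) (l 16730352))) (a (b (l 16692232) (a (l 16693608) (l 16681680))) (l 16655376)))) (b (c (c (l 16718560) (l 16739424)) (l 16739264)) (c (c (l 16698232) (l 16697720)) (l 16696944)))) (b (c (c (l 16718560) (l 16739424)) (c (l 16739312) (l 16760176))) (c (c (l 16698232) (l 16697720)) (c (l 16697200) (l 16696680))))) (c (a (a (a (b (l 16684344) (c (l 16649392) (l 16649016))) (b (b (l 16760520) (l 16730040)) (l 16675320))) (b (l 16739040) (l 16695904))) (b (b (l 16773792) (l 16746104)) (l 16659208))) (a (a (a (b (l 16704704)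 (b (l 16712352) (l 16665624))) (b (l 16707832) (l 16674288))) (b (l 16738824) (l 16694872))) (b (b (l 16773752) (l 16745704)) (c (l 16695128) (l 16694608)))))), by decide +kernel⟩

def k22_pm_022 : ∃ t, chk3 f_pm_022 t 13 27 1 = true :=
  ⟨(b (c (a (c (a (a (a (b (l 16649824) (l 16611776)) (l 16608504)) (l 16608504)) (l 16608504)) (a (a (b (l 16626184) (l 16609608)) (l 16627544)) (l 16627544))) (c (c (l 16629960) (l 16628992)) (l 16606576))) (a (c (a (a (b (l 16645488) (l 16607448)) (l 16625616)) (l 16625616)) (a (b (l 16622048) (l 16605288)) (l 16623688))) (c (l 16583672) (c (l 16624168) (l 16623200))))) (c (a (c (a (a (c (l 16557736) (l 16556296)) (l 16557016)) (l 16557016)) (a (a (l 16554136) (l 16554136)) (l 16554136))) (c (c (l 16557736) (l 16556296)) (l 16554136))) (a (c (a (l 16509312) (l 16551256)) (a (c (l 16549096) (l 16547664)) (l 16527408))) (c (c (l 16551976) (l 16550536)) (c (l 16549096) (l 16526688)))))), by decide +kernel⟩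

def k23_pm_022 : ∃ t, chk3 f_pm_022 t 7 12 1 = true :=
  ⟨(c (c (a (b (c (a (l 16777216) (b (l 16777216) (l 16777216))) (a (l 16777216) (b (l 16777216) (l 16777216)))) (a (c (b (l 16777216) (l 16777216)) (l 16777216)) (c (b (l 16777216) (l 16777216)) (b (l 16777216) (l 16777216))))) (b (c (a (b (l 16777216) (l 16777216)) (b (l 16777216) (l 16777216))) (a (l 16777216) (l 16777216))) (c (a (b (l 16777216) (l 16777216)) (c (l 16777216) (l 16777216))) (a (b (l 16777216) (l 16777216)) (l 16777216))))) (a (b (c (a (l 16777216) (l 16777216)) (a (l 16777216) (l 16777216))) (a (c (l 16777216) (l 16777216)) (c (l 16777216) (l 16777216)))) (b (c (a (l 16777216) (l 16777216)) (a (l 16777216) (l 16777216))) (c (a (l 16777216) (l 16777216)) (a (l 16777216) (l 16777216)))))) (c (a (b (c (a (l 16777216) (l 16777216)) (l 16777216)) (a (c (l 16777216) (l 16777216)) (c (l 16777216) (l 16777216)))) (b (c (a (l 16777216) (l 16777216)) (a (l 16777216) (l 16777216))) (c (a (l 16777216) (l 16777216)) (a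 (l 16777216) (l 16777216))))) (a (b (c (l 16777216) (l 16777216)) (a (c (l 16777216) (l 16777216)) (b (l 16777216) (l 16777216)))) (b (c (l 16777216) (l 16777216)) (c (a (l 16777216) (l 16777216)) (a (l 16777216) (l 16777216))))))), by decide +kernel⟩

def k24_pm_022 : ∃ t, chk3 f_pm_022 t 7 13 2 = true :=
  ⟨(b (a (c (c (b (a (a (l 16739536) (l 16739536)) (b (l 16752920) (l 16746992))) (a (l 16677264) (l 16677264))) (b (a (l 16718456) (b (l 16773872) (l 16746792))) (a (l 16697720) (l 16697720)))) (c (b (a (l 16739312) (l 16739312)) (a (l 16697200) (l 16697200))) (b (a (l 16739208) (l 16739208)) (a (l 16696680) (l 16696680))))) (c (b (a (c (b (l 16773888) (l 16746992)) (b (l 16773872) (l 16746792))) (c (b (l 16773888) (l 16746992)) (l 16718456))) (a (c (l 16677264) (l 16697720)) (c (l 16698232) (l 16697720)))) (b (a (c (l 16739312) (l 16739208)) (c (l 16739312) (l 16739208))) (a (c (l 16697200) (l 16696680)) (c (l 16697200) (l 16696680)))))) (a (c (a (b (c (l 16629960) (l 16628992))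 (l 16557016)) (b (c (l 16629960) (l 16628992)) (l 16557016))) (a (b (l 16627544) (l 16554136)) (b (l 16627544) (l 16554136)))) (c (a (b (c (l 16629960) (l 16628992)) (l 16557016)) (b (l 16629480) (l 16557016))) (a (b (l 16627544) (l 16554136)) (b (l 16627544) (l 16554136)))))), by decide +kernel⟩

def k25_pm_022 : ∃ t, chk3 f_pm_022 t 7 13 3 = true :=
  ⟨(b (a (a (c (b (c (l 16739096) (l 16738984)) (c (l 16696160) (l 16695648))) (b (c (l 16738880) (l 16738768)) (c (l 16695128) (l 16694608)))) (c (b (c (l 16739096) (l 16738984)) (c (l 16696160) (l 16695648))) (b (b (l 16773752) (l 16745704)) (c (l 16695128) (l 16694608))))) (c (b (a (c (l 16739096) (l 16738984)) (c (l 16739096) (l 16738984))) (a (c (l 16696160) (l 16695648)) (c (l 16696160) (l 16695648)))) (b (a (c (l 16738880) (l 16738768)) (c (l 16738880) (l 16738768))) (a (c (l 16695128) (l 16694608)) (c (l 16695128) (l 16673640)))))) (a (c (a (c (l 16547480) (l 16525304)) (b (l 16604648) (l 16530288))) (a (b (c (l 16624168) (l 16623200))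 (c (l 16549096) (l 16547664))) (b (c (l 16624168) (l 16623200)) (c (l 16549096) (l 16547664))))) (c (a (c (l 16526504) (l 16504336)) (c (l 16526504) (b (l 16625136) (l 16550536)))) (a (c (b (l 16624168) (l 16549096)) (b (l 16623200) (l 16547664))) (c (b (l 16624168) (l 16549096)) (b (l 16602232) (l 16526688))))))), by decide +kernel⟩

def k26_pm_022 : ∃ t, chk3 f_pm_022 t 12 28 1 = true :=
  ⟨(c (c (a (b (l 16500104) (l 16439032)) (a (b (l 16425192) (a (l 16428896) (l 16403656))) (b (a (l 16421200) (l 16480376)) (l 16404576)))) (a (b (c (l 16541736) (l 16520552)) (l 16415720)) (a (b (b (l 16556432) (l 16475656)) (a (l 16424488) (l 16398792))) (a (b (a (l 16481624) (l 16476600)) (l 16394400)) (b (l 16455528) (l 16394400)))))) (a (b (c (c (l 16499376) (c (l 16520184) (l 16499112))) (c (b (l 16543600) (l 16509464)) (a (b (l 16570944) (l 16601704)) (b (l 16584848) (l 16521704))))) (c (c (l 16434936) (l 16412792)) (c (a (l 16504504) (l 16445704)) (a (b (l 16558192) (l 16491064)) (c (l 16444504)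 (l 16401760)))))) (b (a (c (b (l 16553888) (a (l 16515192) (l 16471040))) (b (l 16488432) (c (a (l 16512920) (l 16468184)) (a (l 16511400) (b (l 16480360) (l 16450664)))))) (c (b (a (l 16497800) (l 16492728)) (c (l 16453432) (l 16451368))) (b (a (a (l 16496936) (l 16489248)) (l 16489104)) (c (l 16449296) (b (l 16457624) (l 16436688)))))) (a (c (a (l 16357168) (b (l 16416632) (l 16368216))) (a (c (l 16353864) (b (l 16446280) (a (l 16391176) (l 16349704)))) (c (b (l 16413208) (l 16364312)) (b (a (l 16413976) (l 16405232)) (l 16361704))))) (c (c (l 16390696) (l 16388224)) (c (l 16385752) (c (l 16383904) (l 16382664)))))))), by decide +kernel⟩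

def k27_pm_022 : ∃ t, chk3 f_pm_022 t 12 29 1 = true :=
  ⟨(c (a (c (a (l 16315720) (b (l 16361728) (l 16221408))) (a (l 16248144) (b (l 16335576) (l 16109376)))) (c (b (a (l 16312456) (c (l 16311120) (l 16308064))) (a (l 16202744) (l 16202744))) (b (a (a (l 16307840) (l 16303480)) (c (l 16305008) (l 16301952))) (a (l 16195232) (l 16195232))))) (a (c (a (c (l 16286592) (l 16221344)) (b (a (l 16374336) (l 16244008)) (a (l 16195432) (l 16170504)))) (b (b (c (l 16308776) (a (l 16421152) (l 16298576))) (c (a (l 16407656) (l 16245792)) (a (l 16342704) (a (l 16328984) (a (l 16291624) (c (l 16272328) (l 16270752))))))) (a (c (l 16262824) (c (l 16239672) (l 16154336))) (a (c (l 16148224) (b (l 16246576) (a (l 16174256) (c (l 16156808) (l 16133896))))) (c (b (l 16215680) (l 16153312)) (b (a (c (l 16215496) (l 16213736)) (l 16207128)) (l 16149376))))))) (c (b (a (a (b (l 16329224) (l 16271296)) (l 16297368)) (c (l 16298896) (l 16295840))) (c (l 16189600) (a (l 16185848) (l 16185848)))) (b (a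 (c (a (b (l 16324968) (l 16266464)) (l 16292784)) (b (a (a (b (l 16340144) (l 16308120)) (l 16316432)) (l 16316104)) (c (l 16263984) (l 16262376)))) (c (l 16271808) (c (l 16290488) (l 16267992)))) (c (a (l 16182096) (l 16182096)) (a (c (l 16179280) (l 16177400)) (c (l 16179280) (l 16177400)))))))), by decide +kernel⟩

def k28_pm_022 : ∃ t, chk3 f_pm_022 t 13 14 2 = true :=
  ⟨(b (a (a (c (b (a (b (l 16499976) (c (l 16461616) (l 16459544))) (b (l 16499976) (l 16460576))) (a (c (l 16400568) (l 16398104)) (c (l 16400568) (l 16398104)))) (b (a (c (l 16477464) (l 16475528)) (b (l 16496352) (l 16456440))) (a (c (l 16395632) (l 16393160)) (l 16394400)))) (b (c (b (l 16499976) (l 16460576)) (b (l 16496352) (l 16456440))) (c (c (l 16400568) (l 16398104)) (c (l 16395632) (l 16393160))))) (b (c (c (l 16481344) (l 16479408)) (l 16476496)) (b (c (a (l 16420064) (l 16420064)) (a (l 16415392) (l 16415392))) (c (l 16378400) (l 16373192))))) (a (c (a (b (a (c (l 16311120) (l 16308064)) (b (l 16334896)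 (l 16284040))) (a (l 16223712) (l 16202744))) (b (c (l 16311120) (l 16308064)) (l 16202744))) (a (b (a (c (l 16305008) (l 16301952)) (l 16303480)) (a (l 16195232) (l 16195232))) (b (b (l 16329112) (l 16277592)) (l 16195232)))) (c (b (c (l 16311120) (l 16308064)) (c (l 16204624) (l 16200864))) (b (c (l 16305008) (l 16301952)) (c (l 16197112) (l 16193360)))))), by decide +kernel⟩

def k29_pm_022 : ∃ t, chk3 f_pm_022 t 13 14 3 = true :=
  ⟨(b (a (c (a (b (b (l 16492728) (a (l 16431328) (l 16452296))) (c (l 16348752) (l 16388224))) (b (b (l 16492728) (l 16452296)) (c (l 16390696) (l 16388224)))) (b (a (b (l 16489104) (c (l 16449192) (l 16447128))) (c (l 16469704) (l 16446792))) (a (c (l 16364784) (c (l 16383904) (l 16382664))) (c (l 16385752) (b (l 16404888) (l 16361464)))))) (b (c (c (l 16473584) (l 16471648)) (c (l 16469704) (l 16446792))) (b (c (a (l 16410728) (l 16410728)) (a (c (l 16407224) (l 16404888)) (c (l 16407224) (l 16404888)))) (c (c (l 16369280) (l 16366672)) (c (l 16364064)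 (l 16340488)))))) (a (c (a (b (c (a (l 16298896) (l 16298896)) (a (l 16295840) (l 16295840))) (c (l 16189600) (l 16185848))) (b (c (l 16298896) (l 16295840)) (c (l 16189600) (l 16185848)))) (c (b (a (b (l 16318992) (l 16266312)) (l 16292784)) (a (l 16182096) (l 16182096))) (b (a (b (l 16316104) (l 16263088)) (b (l 16316104) (l 16263088))) (a (c (l 16179280) (l 16177400)) (l 16178336))))) (c (b (c (l 16298896) (a (l 16295840) (l 16295840))) (c (l 16189600) (l 16185848))) (b (c (a (l 16292784) (l 16292784)) (a (b (l 16316104) (l 16263088)) (l 16289728))) (c (l 16161120) (a (l 16178336) (l 16178336))))))), by decide +kernel⟩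

def k30_pm_022 : ∃ t, chk3 f_pm_022 t 6 15 2 = true :=
  ⟨(b (a (a (c (b (a (l 16146024) (l 16100552)) (a (l 15964496) (l 15992968))) (b (a (l 16132896) (l 16086632)) (c (a (l 16008280) (l 15994624)) (l 15938728)))) (c (b (a (l 16098872) (l 16119840)) (c (a (l 15991776) (l 15991776)) (b (l 16024184) (l 15970152)))) (c (b (l 16087152) (a (l 15994624) (l 15994624))) (b (l 16082688) (l 15993256))))) (c (a (b (a (a (b (l 16118088) (l 16069512)) (l 16098872)) (b (l 16118088) (l 16069512))) (a (a (c (b (l 16020848) (l 15963088)) (l 15995768)) (c (l 15991776) (l 15995768))) (c (l 15970808) (l 15995768)))) (b (b (l 16118088) (l 16069512)) (c (b (l 16020848) (l 15963088)) (b (l 16024184) (l 15970152))))) (a (b (a (a (l 16084920) (l 16084920)) (l 16084920)) (a (c (l 15994624) (l 15993256)) (l 15992768))) (b (l 16116376) (c (l 15994624) (l 15993256)))))) (a (c (b (a (l 15887816) (a (l 15887744) (l 15887744))) (a (l 15807104) (l 15807104))) (b (a (c (l 15889928) (b (l 15921520) (l 15863936)))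 (c (b (l 15917320) (l 15860384)) (b (l 15921448) (l 15863936)))) (a (l 15796464) (c (l 15798352) (l 15793576))))) (a (a (b (c (c (l 15886432) (l 15887792)) (c (b (l 15917320) (l 15860384)) (b (l 15921448) (l 15863936)))) (c (l 15807104) (l 15796464))) (b (c (l 15887744) (b (c (l 15917320) (l 15921448)) (l 15862944))) (c (l 15807104) (l 15796464)))) (b (c (c (l 15886432) (l 15887792)) (c (l 15868880) (b (l 15921448) (l 15863936)))) (c (l 15807104) (b (l 15813880) (l 15777976))))))), by decide +kernel⟩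

def k31_pm_022 : ∃ t, chk3 f_pm_022 t 6 30 3 = true :=
  ⟨(a (a (c (a (b (b (l 16160360) (l 16086184)) (a (l 16006080) (l 15986904))) (b (b (l 16102944) (l 16050872)) (l 15985696))) (a (b (b (c (l 16154648) (c (l 16151800) (l 16107952))) (a (l 16077928) (c (l 16056952) (a (l 16058552) (l 16043080))))) (a (c (l 15998776) (b (l 15982048) (a (l 15963016) (l 15951688)))) (c (l 15979352) (b (a (l 15997912) (l 15995496)) (l 15950480))))) (b (b (c (l 16096512) (a (a (c (l 16096328) (l 16094192)) (l 16090088)) (l 16090088))) (c (l 16043928) (l 16039304))) (c (l 15978136) (l 15952120))))) (c (c (b (l 16078216) (l 15988216)) (b (a (l 16073752) (l 16073752)) (l 15983176))) (c (b (a (l 16069288) (l 16069288)) (a (l 15978136) (l 15978136))) (b (a (b (l 16090088) (l 16039304)) (b (l 16090088) (l 16039304))) (a (l 15952120) (l 15973088)))))) (a (c (b (a (c (l 16078216) (l 16073752)) (l 16075984)) (c (l 15988216) (l 15983176))) (a (b (c (b (l 16094392) (l 16043928)) (b (l 16090088) (l 16039304)))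 (c (l 15978136) (l 15973088))) (b (b (l 16092240) (l 16041616)) (c (l 15978136) (l 15973088))))) (c (b (b (l 16100856) (l 16050872)) (l 15985696)) (b (c (b (l 16094392) (l 16043928)) (b (l 16090088) (l 16039304))) (c (l 15978136) (l 15973088)))))), by decide +kernel⟩

def k32_pm_022 : ∃ t, chk3 f_pm_022 t 6 31 3 = true :=
  ⟨(a (c (b (a (b (l 15918312) (c (l 15867512) (l 15867704))) (c (b (l 15920632) (c (l 15867080) (l 15868784))) (a (l 15891472) (l 15891472)))) (c (b (a (l 15810928) (l 15810928)) (l 15768368)) (b (a (c (l 15811912) (l 15813424)) (c (l 15811912) (l 15813424))) (a (l 15763000) (l 15763000))))) (b (a (c (l 15886240) (a (c (l 15882080) (l 15879264)) (l 15880544))) (c (l 15886168) (c (l 15881952) (l 15879136)))) (b (c (a (c (l 15813560) (l 15812192)) (a (l 15812840) (l 15812840))) (a (l 15807784) (l 15807784))) (b (c (c (l 15770504) (a (l 15771344) (l 15771344))) (c (a (l 15771320) (l 15771320)) (l 15768672))) (c (a (l 15747456) (l 15747456)) (a (c (l 15744528) (l 15743784))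 (c (l 15744528) (l 15743784)))))))) (c (a (b (c (b (l 15920632) (a (a (l 15867512) (l 15867512)) (l 15867512))) (l 15891472)) (b (c (l 15810928) (a (b (l 15826888) (l 15797680)) (l 15812696))) (c (l 15768368) (a (l 15763000) (l 15763000))))) (b (c (b (l 15920632) (l 15867512)) (l 15891472)) (b (c (l 15810928) (c (l 15811912) (l 15813424))) (c (l 15768368) (l 15763000))))) (b (a (c (l 15886168) (a (l 15880544) (l 15880544))) (c (l 15886168) (l 15880544))) (a (c (b (c (l 15813560) (l 15812192)) (b (c (l 15770504) (l 15771344)) (l 15747456))) (b (l 15807784) (c (b (l 15771320) (l 15744528)) (l 15757728)))) (c (b (l 15812840) (b (l 15771424) (l 15747456))) (b (l 15807784) (c (l 15758808) (l 15757728)))))))), by decide +kernel⟩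

def k33_pm_022 : ∃ t, chk3 f_pm_022 t 7 14 2 = true :=
  ⟨(a (b (b (c (a (l 16480376) (l 16480376)) (a (l 16476496) (l 16476496))) (a (c (b (l 16420064) (l 16378400)) (b (a (l 16415392) (l 16415392)) (l 16373192))) (c (a (l 16399336) (l 16399336)) (a (l 16394400) (l 16394400))))) (c (a (b (a (l 16309592) (l 16309592)) (l 16202744)) (b (l 16309592) (l 16202744))) (a (b (c (l 16305008) (l 16301952)) (l 16195232)) (b (c (l 16305008) (l 16301952)) (l 16195232))))) (b (c (b (a (l 16480376) (l 16480376)) (a (l 16399336) (l 16399336))) (b (a (l 16476496) (l 16476496)) (a (b (l 16415392) (l 16373192)) (l 16394400)))) (c (a (b (l 16309592) (l 16202744)) (b (l 16309592) (l 16202744))) (a (b (l 16303480) (l 16195232)) (b (l 16303480) (l 16195232)))))), by decide +kernel⟩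

def k34_pm_022 : ∃ t, chk3 f_pm_022 t 7 14 3 = true :=
  ⟨(b (a (b (c (a (l 16430672) (c (l 16473584) (l 16471648))) (a (c (l 16469704) (l 16467768)) (c (l 16469704) (l 16467768)))) (c (a (b (a (l 16410728) (l 16410728)) (l 16367976)) (c (b (l 16411896) (l 16369280)) (b (l 16409560) (l 16366672)))) (a (b (c (l 16407224) (a (l 16404888) (l 16404888))) (c (l 16364064) (l 16361464))) (a (b (l 16406056) (l 16362768)) (b (l 16406056) (l 16362768)))))) (c (b (a (l 16430672) (l 16451648)) (a (b (l 16410728) (l 16367976)) (c (l 16390696) (l 16388224)))) (b (a (c (l 16469704) (l 16467768)) (c (l 16469704) (l 16425824))) (a (c (l 16343808) (b (l 16404888) (l 16361464))) (c (l 16385752) (a (l 16383280) (l 16383280))))))) (a (c (a (b (c (l 16298896) (l 16295840)) (c (l 16189600) (l 16185848))) (b (c (l 16298896) (l 16295840)) (c (l 16189600) (l 16185848)))) (a (b (c (l 16271808) (b (l 16316104) (l 16263088))) (c (l 16182096) (a (l 16178336) (l 16178336)))) (b (c (l 16292784) (a (l 16289728) (l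 16289728))) (c (l 16182096) (l 16136392))))) (c (a (b (c (l 16298896) (l 16295840)) (l 16187728)) (b (c (l 16298896) (l 16295840)) (l 16187728))) (a (b (c (l 16292784) (l 16268752)) (c (l 16182096) (l 16178336))) (b (c (l 16250840) (b (l 16316104) (l 16263088))) (c (l 16182096) (a (l 16178336) (l 16178336)))))))), by decide +kernel⟩

def k35_pm_022 : ∃ t, chk3 f_pm_022 t 7 15 2 = true :=
  ⟨(a (b (c (b (a (b (l 16118088) (l 16069512)) (l 16098872)) (b (a (l 16019832) (l 16019832)) (a (l 15924232) (l 15966176)))) (a (b (l 16084920) (l 15992768)) (b (l 16084920) (l 15992768)))) (b (c (a (c (l 15886432) (l 15887792)) (l 15887744)) (a (c (l 15889856) (b (l 15921448) (l 15863936))) (c (l 15889856) (l 15893120)))) (c (a (l 15807104) (l 15807104)) (b (a (l 15813880) (l 15813880)) (l 15777976))))) (b (c (b (a (l 16098872) (l 16098872)) (a (c (l 15991776) (l 15995768)) (l 15992968))) (a (b (l 16084920) (l 15992768)) (b (l 16084920) (l 15992768)))) (c (b (a (l 15887744) (l 15887744)) (l 15807104))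 (b (a (c (l 15889856) (l 15893120)) (c (l 15889856) (l 15893120))) (c (l 15798352) (l 15793576)))))), by decide +kernel⟩

def k36_pm_022 : ∃ t, chk3 f_pm_022 t 7 15 3 = true :=
  ⟨(c (b (a (a (b (c (l 16078216) (l 16073752)) (l 15985696)) (b (c (l 16078216) (l 16073752)) (l 15985696))) (a (b (l 16075984) (l 15985696)) (b (l 16075984) (l 15985696)))) (a (a (b (c (b (l 15920632) (l 15867512)) (l 15891472)) (b (c (l 15810928) (l 15812696)) (l 15766016))) (b (c (l 15893760) (l 15891472)) (b (c (l 15810928) (l 15812696)) (l 15766016)))) (b (c (b (l 15920632) (l 15867512)) (l 15891472)) (b (c (l 15810928) (a (l 15812696) (l 15812696))) (a (l 15766016) (l 15766016)))))) (b (a (a (b (c (l 16069288) (b (l 16090088) (l 16039304))) (c (l 15978136) (l 15973088))) (b (c (l 16069288) (b (l 16090088) (l 16039304))) (c (l 15978136) (l 15973088)))) (a (b (c (l 16069288) (l 16022880)) (c (l 15978136) (l 15973088))) (c (b (l 16069288) (l 15978136)) (b (a (l 16064816) (l 16064816)) (a (l 15973088) (l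 15973088)))))) (a (b (a (c (l 15886168) (l 15880544)) (c (l 15886168) (l 15880544))) (c (b (a (l 15812840) (l 15812840)) (a (l 15760216) (l 15760216))) (c (b (l 15809304) (a (l 15758808) (l 15758808))) (a (l 15784176) (l 15784176))))) (b (a (c (l 15886168) (l 15880544)) (c (l 15886168) (a (l 15880544) (l 15880544)))) (c (a (b (l 15812840) (l 15760216)) (b (l 15812840) (c (l 15760016) (l 15759272)))) (a (b (l 15807784) (c (l 15758808) (l 15757728))) (b (l 15807784) (c (l 15758808) (b (l 15768672) (l 15743784)))))))))), by decide +kernel⟩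

theorem s37_pm_022 : ∃ t, chk3 f_pm_022 t 7 15 1 = true := ex3_c k35_pm_022 k36_pm_022

theorem s38_pm_022 : ∃ t, chk3 f_pm_022 t 7 14 1 = true := ex3_c k33_pm_022 k34_pm_022

theorem s39_pm_022 : ∃ t, chk3 f_pm_022 t 7 7 1 = true := ex3_b s38_pm_022 s37_pm_022

theorem s40_pm_022 : ∃ t, chk3 f_pm_022 t 6 15 3 = true := ex3_b k31_pm_022 k32_pm_022

theorem s41_pm_022 : ∃ t, chk3 f_pm_022 t 6 15 1 = true := ex3_c k30_pm_022 s40_pm_022

theorem s42_pm_022 : ∃ t, chk3 f_pm_022 t 13 14 1 = true := ex3_c k28_pm_022 k29_pm_022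

theorem s43_pm_022 : ∃ t, chk3 f_pm_022 t 12 14 1 = true := ex3_b k26_pm_022 k27_pm_022

theorem s44_pm_022 : ∃ t, chk3 f_pm_022 t 6 14 1 = true := ex3_a s43_pm_022 s42_pm_022

theorem s45_pm_022 : ∃ t, chk3 f_pm_022 t 6 7 1 = true := ex3_b s44_pm_022 s41_pm_022

theorem s46_pm_022 : ∃ t, chk3 f_pm_022 t 3 7 1 = true := ex3_a s45_pm_022 s39_pm_022

theorem s47_pm_022 : ∃ t, chk3 f_pm_022 t 7 13 1 = true := ex3_c k24_pm_022 k25_pm_022

theorem s48_pm_022 : ∃ t, chk3 f_pm_022 t 7 6 1 = true := ex3_b k23_pm_022 s47_pm_022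

theorem s49_pm_022 : ∃ t, chk3 f_pm_022 t 13 13 1 = true := ex3_b k21_pm_022 k22_pm_022

theorem s50_pm_022 : ∃ t, chk3 f_pm_022 t 13 6 1 = true := ex3_b k20_pm_022 s49_pm_022

theorem s51_pm_022 : ∃ t, chk3 f_pm_022 t 6 6 1 = true := ex3_a k19_pm_022 s50_pm_022

theorem s52_pm_022 : ∃ t, chk3 f_pm_022 t 3 6 1 = true := ex3_a s51_pm_022 s48_pm_022

theorem s53_pm_022 : ∃ t, chk3 f_pm_022 t 3 3 1 = true := ex3_b s52_pm_022 s46_pm_022

theorem s54_pm_022 : ∃ t, chk3 f_pm_022 t 3 5 1 = true := ex3_a k17_pm_022 k18_pm_022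

theorem s55_pm_022 : ∃ t, chk3 f_pm_022 t 3 2 1 = true := ex3_b k16_pm_022 s54_pm_022

theorem s56_pm_022 : ∃ t, chk3 f_pm_022 t 3 1 1 = true := ex3_b s55_pm_022 s53_pm_022

theorem s57_pm_022 : ∃ t, chk3 f_pm_022 t 11 31 1 = true := ex3_a k14_pm_022 k15_pm_022

theorem s58_pm_022 : ∃ t, chk3 f_pm_022 t 11 15 1 = true := ex3_b k13_pm_022 s57_pm_022

theorem s59_pm_022 : ∃ t, chk3 f_pm_022 t 11 14 1 = true := ex3_a k11_pm_022 k12_pm_022

theorem s60_pm_022 : ∃ t, chk3 f_pm_022 t 11 7 1 = true := ex3_b s59_pm_022 s58_pm_022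

theorem s61_pm_022 : ∃ t, chk3 f_pm_022 t 11 6 1 = true := ex3_a k9_pm_022 k10_pm_022

theorem s62_pm_022 : ∃ t, chk3 f_pm_022 t 11 3 1 = true := ex3_b s61_pm_022 s60_pm_022

theorem s63_pm_022 : ∃ t, chk3 f_pm_022 t 10 7 1 = true := ex3_a k7_pm_022 k8_pm_022

theorem s64_pm_022 : ∃ t, chk3 f_pm_022 t 10 13 1 = true := ex3_a k5_pm_022 k6_pm_022

theorem s65_pm_022 : ∃ t, chk3 f_pm_022 t 10 6 1 = true := ex3_b k4_pm_022 s64_pm_022

theorem s66_pm_022 : ∃ t, chk3 f_pm_022 t 10 3 1 = true := ex3_b s65_pm_022 s63_pm_022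

theorem s67_pm_022 : ∃ t, chk3 f_pm_022 t 5 3 1 = true := ex3_a s66_pm_022 s62_pm_022

theorem s68_pm_022 : ∃ t, chk3 f_pm_022 t 10 2 1 = true := ex3_b k1_pm_022 k2_pm_022

theorem s69_pm_022 : ∃ t, chk3 f_pm_022 t 5 2 1 = true := ex3_a s68_pm_022 k3_pm_022

theorem s70_pm_022 : ∃ t, chk3 f_pm_022 t 5 1 1 = true := ex3_b s69_pm_022 s67_pm_022

theorem s71_pm_022 : ∃ t, chk3 f_pm_022 t 2 1 1 = true := ex3_a k0_pm_022 s70_pm_022

theorem s72_pm_022 : ∃ t, chk3 f_pm_022 t 1 1 1 = true := ex3_a s71_pm_022 s56_pm_022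

theorem c_pm_022 : CertFX 0 536870912 0 536870912 1046898278 26843546 true true false .pp 0 2 2
    ndF0q0 ndF0q2 pcF2 cut_pm_022 Ext.none :=
  certFX2 (fam := true) (s1 := true) (s2 := false) (a := 0) (b := 2) (c := 2) (cn := .pp) (n1 := ndF0q0) (n2 := ndF0q2) (pc := pcF2) (cut := cut_pm_022) (xt := Ext.none) (P1 := 0) (W1 := 536870912) (P2 := 0) (W2 := 536870912) (P3 := 1046898278) (W3 := 26843546)
    rfl (fun _ => rfl) s72_pm_022

noncomputable def cut_pm_023 : Cut := Cut.of [[⟨3, 0, 0, 1449551462⟩], [⟨4, 0, 0, 2845415833⟩]]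

noncomputable def f_pm_023 : ℕ → ℕ → ℕ → ℕ → Bool := onCell 0 536870912 0 536870912 1046898278 26843546
    (rowFX 0 true true false .up 0 2 3 (qsf 0 536870912 0 536870912 3) ndF0q0 ndF0q2 pcF3 cut_pm_023 Ext.none)

def k0_pm_023 : ∃ t, chk3 f_pm_023 t 2 2 1 = true :=
  ⟨(l 1), by decide +kernel⟩

def k1_pm_023 : ∃ t, chk3 f_pm_023 t 6 2 1 = true :=
  ⟨(a (l 1) (a (b (b (l 1) (l 1)) (l 1)) (b (c (b (c (c (l 16777216) (l 16777216)) (c (l 16777216) (l 16777216))) (b (c (l 16777216) (l 16777216)) (c (b (l 16777216) (l 16777216)) (b (l 16777216) (l 16777216))))) (b (c (c (l 16777216) (l 16777216)) (b (l 16777216) (l 16777216))) (b (c (l 16777216) (l 16777216)) (c (b (l 16777216) (l 16777216)) (b (l 16777216) (l 16777216)))))) (b (c (c (b (l 16777216) (l 16777216)) (b (l 16777216) (l 16777216))) (c (l 16777216) (l 16777216))) (a (l 1) (c (c (b (l 16777216) (l 16777216)) (b (l 16777216) (l 16777216))) (c (b (l 16777216) (l 16777216)) (l 199212662791)))))))), by decide +kernel⟩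

def k2_pm_023 : ∃ t, chk3 f_pm_023 t 14 2 1 = true :=
  ⟨(a (b (c (b (c (c (l 16777216) (l 16777216)) (c (l 16777216) (l 16777216))) (c (b (l 16777216) (b (l 16777216) (l 16777216))) (b (l 16777216) (b (l 16777216) (l 16777216))))) (b (c (c (l 16777216) (l 16777216)) (b (l 16777216) (l 16777216))) (c (b (l 16777216) (b (l 16777216) (l 16777216))) (b (l 16777216) (l 16777216))))) (c (b (c (b (b (l 16777216) (l 16777216)) (l 16777216)) (b (l 16777216) (l 16777216))) (c (b (c (l 16777216) (l 16777216)) (c (l 16777216) (l 16777216))) (b (l 16777216) (c (l 16777216) (l 16777216))))) (b (c (b (l 16777216) (l 16777216)) (b (l 16777216) (l 16777216))) (c (b (l 16777216) (l 16777216)) (b (l 16777216) (l 16777216)))))) (b (b (a (c (c (c (l 16777216) (l 16777216)) (c (l 16777216) (l 16777216))) (c (b (l 16777216) (l 16777216)) (b (l 16777216) (l 16777216)))) (b (l 14) (c (c (l 16777216) (l 16777216)) (c (l 16777216) (l 16777216))))) (c (c (c (b (l 16777216) (l 16777216)) (b (l 16777216) (l 16777216)))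 (c (b (l 16777216) (l 16777216)) (l 16777216))) (c (c (l 16777216) (l 16777216)) (b (l 16777216) (l 16777216))))) (b (c (b (c (b (a (l 16777216) (l 16777216)) (l 16777216)) (b (l 16777216) (l 16777216))) (c (c (l 16777216) (l 16777216)) (l 16777216))) (b (c (b (l 16777216) (l 16777216)) (b (l 16777216) (l 16777216))) (c (l 16777216) (l 16777216)))) (c (c (b (c (l 16777216) (l 16777216)) (c (b (l 16777216) (l 16777216)) (l 16777216))) (b (c (l 16777216) (l 16777216)) (c (l 16777216) (l 16777216)))) (c (b (l 16777216) (c (l 16777216) (l 16777216))) (b (l 16777216) (l 16777216))))))), by decide +kernel⟩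

def k3_pm_023 : ∃ t, chk3 f_pm_023 t 30 2 1 = true :=
  ⟨(b (b (b (l 14) (a (c (c (c (l 16777216) (l 16777216)) (l 16777216)) (c (l 16777216) (l 16777216))) (l 14))) (c (c (c (b (l 16777216) (l 16777216)) (b (l 16777216) (l 16777216))) (c (b (l 16777216) (l 16777216)) (b (l 16777216) (l 16777216)))) (c (c (b (l 16777216) (l 16777216)) (b (l 16777216) (l 16777216))) (b (c (l 16777216) (l 16777216)) (c (l 16777216) (l 16777216)))))) (b (c (b (c (b (l 16777216) (a (l 16777216) (l 16777216))) (b (l 16777216) (a (l 16777216) (l 16777216)))) (c (c (l 16777216) (l 16777216)) (c (l 16777216) (l 16777216)))) (b (a (b (l 16777216) (b (l 16777216) (l 16777216))) (c (l 16777216) (l 16777216))) (c (c (l 16777216) (l 16777216)) (c (l 16777216) (l 16777216))))) (c (c (b (c (b (l 16777216) (l 16777216)) (l 16777216)) (b (c (l 16777216) (l 16777216)) (c (l 16777216) (l 16777216)))) (b (c (l 16777216) (l 16777216)) (c (l 16777216) (l 16777216)))) (c (b (c (l 16777216) (l 16777216)) (c (l 16777216)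 (l 16777216))) (b (c (l 16777216) (l 16777216)) (c (l 16777216) (l 16777216))))))), by decide +kernel⟩

def k4_pm_023 : ∃ t, chk3 f_pm_023 t 31 2 1 = true :=
  ⟨(b (b (l 14) (b (a (a (c (c (l 16777216) (l 16777216)) (c (l 16777216) (l 16777216))) (l 14)) (l 14)) (c (c (c (l 16777216) (l 16777216)) (c (l 16777216) (l 16777216))) (c (c (l 16777216) (l 16777216)) (c (l 16777216) (l 16777216)))))) (b (c (b (c (c (l 16777216) (l 16777216)) (c (l 16777216) (l 16777216))) (c (b (a (l 16777216) (l 16777216)) (l 16777216)) (b (a (l 16777216) (l 16777216)) (l 16777216)))) (b (c (c (l 16777216) (l 16777216)) (c (l 16777216) (l 16777216))) (c (b (a (l 16777216) (l 16777216)) (l 16777216)) (b (a (l 16777216) (l 16777216)) (l 16777216))))) (c (c (b (c (l 16777216) (l 16777216)) (c (l 16777216) (l 16777216))) (b (c (l 16777216) (l 16777216)) (c (l 16777216) (l 16777216)))) (c (b (c (l 16777216) (l 16777216)) (c (l 16777216) (l 16777216))) (b (c (l 16777216) (l 16777216)) (c (l 16777216) (l 16777216))))))),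 by decide +kernel⟩

def k5_pm_023 : ∃ t, chk3 f_pm_023 t 2 6 1 = true :=
  ⟨(l 1), by decide +kernel⟩

def k6_pm_023 : ∃ t, chk3 f_pm_023 t 6 6 1 = true :=
  ⟨(l 1), by decide +kernel⟩

def k7_pm_023 : ∃ t, chk3 f_pm_023 t 14 6 1 = true :=
  ⟨(b (b (c (c (c (a (b (l 16777216) (l 16777216)) (b (l 16777216) (c (l 16777216) (l 16777216)))) (a (b (l 16777216) (l 16777216)) (b (l 16777216) (l 16777216)))) (c (a (l 16777216) (l 16777216)) (a (l 16777216) (l 16777216)))) (c (c (a (l 16777216) (l 16777216)) (a (l 16777216) (l 16777216))) (c (a (l 16777216) (l 16777216)) (l 16777216)))) (a (a (l 1) (c (c (c (l 16777216) (l 16777216)) (c (l 16777216) (l 16777216))) (c (c (l 16777216) (l 16777216)) (l 16777216)))) (c (c (c (c (l 16777216) (l 16777216)) (c (l 16777216) (l 16777216))) (c (l 16777216) (l 16777216))) (c (c (l 16777216) (l 16777216)) (c (l 16777216) (l 16777216)))))) (a (a (l 1) (a (l 1) (b (b (c (c (l 16739480) (l 16760232)) (c (l 16760016) (l 16738824))) (l 1)) (l 1)))) (c (b (c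 (b (c (b (l 16773888) (l 16746992)) (l 16739424)) (c (l 16698232) (l 16697720))) (b (c (l 16739312) (l 16739208)) (c (l 16697200) (l 16696680)))) (c (b (l 16629480) (l 16557016)) (b (l 16627544) (l 16554136)))) (b (c (b (c (l 16739096) (l 16738984)) (c (l 16696160) (l 16695648))) (b (c (l 16738880) (l 16738768)) (c (l 16695128) (l 16673640)))) (c (c (l 16547480) (l 16504336)) (c (b (l 16624168) (l 16549096)) (b (l 16602232) (l 25265947575)))))))), by decide +kernel⟩

def k8_pm_023 : ∃ t, chk3 f_pm_023 t 15 12 1 = true :=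
  ⟨(c (c (b (a (c (b (a (l 16777216) (l 16777216)) (c (l 16777216) (l 16777216))) (b (l 16777216) (l 16777216))) (c (b (l 16777216) (a (l 16777216) (l 16777216))) (b (l 16777216) (l 16777216)))) (a (c (b (l 16777216) (l 16777216)) (c (l 16777216) (l 16777216))) (c (a (b (l 16777216) (l 16777216)) (l 16777216)) (a (l 16777216) (l 16777216))))) (b (a (c (b (l 16777216) (l 16777216)) (b (l 16777216) (l 16777216))) (c (b (l 16777216) (l 16777216)) (b (l 16777216) (l 16777216)))) (a (c (c (l 16777216) (l 16777216)) (l 16777216)) (c (a (l 16777216) (l 16777216)) (a (l 16777216) (l 16777216)))))) (c (b (a (c (b (l 16777216) (l 16777216)) (l 16777216)) (c (b (l 16777216) (l 16777216)) (l 16777216))) (a (c (l 16777216) (l 16777216)) (c (a (l 16777216) (l 16777216)) (b (l 16777216) (l 16777216))))) (b (a (c (l 16777216) (l 16777216)) (c (l 16777216) (l 16777216))) (a (c (l 16777216) (l 16777216)) (c (b (l 16777216) (l 16777216)) (b (l 16777216) (l 16777216))))))), by decide +kernel⟩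

def k9_pm_023 : ∃ t, chk3 f_pm_023 t 15 13 1 = true :=
  ⟨(c (b (c (a (b (c (b (l 16773888) (l 16746992)) (l 16718456)) (c (l 16698232) (l 16697720))) (b (a (b (l 16773880) (l 16746896)) (b (l 16773880) (l 16746896))) (a (l 16697976) (l 16677008)))) (b (a (c (l 16739312) (l 16739208)) (c (b (l 16773848) (l 16746592)) (b (l 16773824) (l 16746400)))) (a (c (l 16697200) (l 16696680)) (c (l 16697200) (l 16696680))))) (c (a (b (l 16629480) (l 16557016)) (b (l 16629480) (l 16557016))) (a (b (l 16606576) (l 16554136)) (c (l 16528904) (b (l 16627064) (l 16553416)))))) (b (c (a (b (c (l 16739096) (l 16738984)) (c (l 16696160) (l 16695648))) (b (c (b (l 16773808) (l 16746200)) (a (l 16738984) (l 16738984))) (c (l 16675192) (l 16674672)))) (a (b (c (l 16738880) (l 16738768)) (c (l 16674160) (l 16673640))) (b (c (a (l 16738880) (l 16738880)) (a (l 16738768) (l 16738768))) (c (a (l 16695128) (l 16695128)) (a (l 16694608) (l 16694608)))))) (c (a (c (l 16526504) (b (l 16625136) (l 16550536))) (c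 (b (l 16626096) (l 16551976)) (b (l 16625136) (l 16550536)))) (a (c (b (l 16624168) (l 16549096)) (b (l 16602232) (l 16526688))) (c (b (l 16603192) (l 16549096)) (a (l 16501936) (b (l 16623200) (l 16547664)))))))), by decide +kernel⟩

def k10_pm_023 : ∃ t, chk3 f_pm_023 t 1 7 1 = true :=
  ⟨(a (l 1) (a (l 1) (a (a (l 1) (a (l 1) (b (b (c (c (l 16440264) (l 16393912)) (c (b (l 16472616) (l 16389456)) (c (l 25265613527) (b (l 16467768) (l 16383280))))) (l 1)) (l 1)))) (b (c (b (b (c (a (l 16480376) (l 16480376)) (a (l 16476496) (l 16476496))) (c (l 16420312) (a (l 16394400) (l 16394400)))) (c (b (a (l 16309592) (l 16309592)) (l 46203368471)) (a (b (l 16282512) (l 16195232)) (b (l 16303480) (l 16195232))))) (b (c (a (b (c (l 16473584) (l 16471648)) (l 16389456)) (b (c (l 16473584) (l 16471648)) (l 16389456))) (a (c (b (l 16469704) (l 16385752)) (b (a (l 16467768) (l 16467768)) (a (l 16383280) (l 16383280)))) (c (b (l 16469704) (l 16385752)) (b (a (l 16467768) (l 16467768)) (l 16383280)))))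 (c (a (b (c (l 16298896) (l 16274872)) (l 16145784)) (b (c (l 16298896) (l 16295840)) (l 16187728))) (b (a (c (b (l 16318992) (l 16266312)) (b (a (l 16316104) (l 16316104)) (l 16263088))) (c (b (l 16318992) (l 16266312)) (b (l 16316104) (l 16263088)))) (a (c (l 16182096) (a (l 16178336) (l 16178336))) (c (l 16182096) (a (l 16178336) (l 16178336)))))))) (a (a (l 1) (b (b (c (l 16088264) (c (l 16075984) (c (l 16069288) (l 16022880)))) (l 1)) (l 1))) (b (c (c (b (l 16098872) (l 15992968)) (b (l 16084920) (l 15992768))) (c (c (l 16033648) (l 16028896)) (c (b (l 16069288) (l 15978136)) (b (a (l 16064816) (l 16064816)) (a (l 15973088) (l 15973088)))))) (b (c (c (l 15887744) (l 31706966423)) (c (c (l 15893760) (l 15891472)) (c (l 15886168) (a (l 15880544) (l 15880544))))) (a (l 1) (c (l 15802400) (c (b (l 15812816) (l 15766016)) (c (b (l 15812840) (l 15760216)) (c (l 70361506919) (l 33854295559))))))))))))), by decide +kernel⟩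

theorem s11_pm_023 : ∃ t, chk3 f_pm_023 t 15 6 1 = true := ex3_b k8_pm_023 k9_pm_023

theorem s12_pm_023 : ∃ t, chk3 f_pm_023 t 7 6 1 = true := ex3_a k7_pm_023 s11_pm_023

theorem s13_pm_023 : ∃ t, chk3 f_pm_023 t 3 6 1 = true := ex3_a k6_pm_023 s12_pm_023

theorem s14_pm_023 : ∃ t, chk3 f_pm_023 t 1 6 1 = true := ex3_a k5_pm_023 s13_pm_023

theorem s15_pm_023 : ∃ t, chk3 f_pm_023 t 1 3 1 = true := ex3_b s14_pm_023 k10_pm_023

theorem s16_pm_023 : ∃ t, chk3 f_pm_023 t 15 2 1 = true := ex3_a k3_pm_023 k4_pm_023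

theorem s17_pm_023 : ∃ t, chk3 f_pm_023 t 7 2 1 = true := ex3_a k2_pm_023 s16_pm_023

theorem s18_pm_023 : ∃ t, chk3 f_pm_023 t 3 2 1 = true := ex3_a k1_pm_023 s17_pm_023

theorem s19_pm_023 : ∃ t, chk3 f_pm_023 t 1 2 1 = true := ex3_a k0_pm_023 s18_pm_023

theorem s20_pm_023 : ∃ t, chk3 f_pm_023 t 1 1 1 = true := ex3_b s19_pm_023 s15_pm_023

theorem c_pm_023 : CertFX 0 536870912 0 536870912 1046898278 26843546 true true false .up 0 2 3
    ndF0q0 ndF0q2 pcF3 cut_pm_023 Ext.none :=
  certFX0 (fam := true) (s1 := true) (s2 := false) (a := 0) (b := 2) (c := 3) (cn := .up) (n1 := ndF0q0) (n2 := ndF0q2) (pc := pcF3) (cut := cut_pm_023) (xt := Ext.none) (P1 := 0) (W1 := 536870912) (P2 := 0) (W2 := 536870912) (P3 := 1046898278) (W3 := 26843546)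
    rfl s20_pm_023

noncomputable def cut_pm_101 : Cut := Cut.of [[⟨3, 0, 0, 1449551462⟩], [⟨4, 0, 0, 2845415833⟩], [⟨0, 1, 0, 67108864⟩, ⟨1, 0, 0, 67108864⟩, ⟨2, 1, 0, 67108864⟩, ⟨3, 0, 0, 1233125376⟩]]

noncomputable def f_pm_101 : ℕ → ℕ → ℕ → ℕ → Bool := onCell 536870912 536870912 536870912 536870912 1046898278 26843546
    (rowFX 1 true true false .npn 1 0 1 (qsf 536870912 536870912 0 536870912 1) ndF0q1 ndF0q0 pcF1 cut_pm_101 Ext.none)

def k0_pm_101 : ∃ t, chk3 f_pm_101 t 1 1 1 = true :=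
  ⟨(l 6), by decide +kernel⟩

theorem c_pm_101 : CertFX 536870912 536870912 0 536870912 1046898278 26843546 true true false .npn 1 0 1
    ndF0q1 ndF0q0 pcF1 cut_pm_101 Ext.none :=
  certFX1 (fam := true) (s1 := true) (s2 := false) (a := 1) (b := 0) (c := 1) (cn := .npn) (n1 := ndF0q1) (n2 := ndF0q0) (pc := pcF1) (cut := cut_pm_101) (xt := Ext.none) (P1 := 536870912) (W1 := 536870912) (P2 := 0) (W2 := 536870912) (P3 := 1046898278) (W3 := 26843546)
    rfl (fun _ => rfl) k0_pm_101

noncomputable def cut_pm_102 : Cut := Cut.of [[⟨3, 0, 0, 1449551462⟩], [⟨4, 0, 0, 2845415833⟩], [⟨0, 1, 0, 67108864⟩, ⟨1, 0, 0, 67108864⟩, ⟨2, 1, 0, 67108864⟩, ⟨3, 0, 0, 1233125376⟩]]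

noncomputable def f_pm_102 : ℕ → ℕ → ℕ → ℕ → Bool := onCell 536870912 536870912 0 536870912 1046898278 26843546
    (rowFX 0 true true false .npp 1 0 2 (qsf 536870912 536870912 0 536870912 2) ndF0q1 ndF0q0 pcF2 cut_pm_102 Ext.none)

def k0_pm_102 : ∃ t, chk3 f_pm_102 t 2 1 1 = true :=
  ⟨(l 6), by decide +kernel⟩

def k1_pm_102 : ∃ t, chk3 f_pm_102 t 3 2 1 = true :=
  ⟨(b (l 6) (a (l 6) (a (l 6) (b (l 6) (b (l 6) (a (l 6) (a (l 6) (b (a (l 6) (b (a (l 6) (a (b (l 6) (c (l 15819736) (c (l 15801480) (l 15775992)))) (c (c (l 15807040) (l 15815800)) (c (l 15803584) (c (l 15794504) (b (a (l 6) (b (l 6) (l 15801608))) (l 15783640))))))) (c (c (b (l 15782256) (l 15787648)) (l 15782776)) (a (c (l 15782808) (c (l 15783128) (l 15779640))) (c (l 15763680) (c (l 15756304) (c (l 15754304) (l 15753584)))))))) (c (a (c (b (l 15797160) (l 15818672)) (l 15817200)) (l 15781240)) (a (c (l 15820296) (c (l 15816520) (l 15810464))) (c (l 15766296) (a (l 15773160) (a (l 15753208) (c (l 15741904) (l 15738008))))))))))))))),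 by decide +kernel⟩

def k2_pm_102 : ∃ t, chk3 f_pm_102 t 6 3 1 = true :=
  ⟨(b (l 6) (a (l 6) (a (b (l 6) (b (l 6) (c (c (a (l 16777216) (l 16777216)) (l 16777216)) (c (l 16777216) (l 16777216))))) (b (a (l 6) (a (l 6) (b (l 6) (c (l 16731232) (l 16730032))))) (c (c (a (l 16777216) (l 16752536)) (a (l 16777216) (l 16752216))) (c (a (l 16777216) (l 16751888)) (a (l 16777216) (l 16751568)))))))), by decide +kernel⟩

def k3_pm_102 : ∃ t, chk3 f_pm_102 t 14 3 1 = true :=
  ⟨(b (b (l 6) (a (l 6) (a (b (l 6) (c (l 16424496) (l 16415336))) (c (b (l 16306800) (l 16306800)) (c (l 16297632) (l 16291528)))))) (b (c (a (b (l 16510376) (a (l 16650008) (l 16538920))) (b (l 16302424) (l 16344360))) (a (b (a (l 16646704) (l 16532736)) (a (l 16646704) (l 16532736))) (c (l 16294400) (a (l 16413040) (l 16291528))))) (c (a (a (b (l 16650008) (l 16650008)) (l 16538920)) (c (l 16368008) (l 16362664))) (a (b (a (l 16646704) (l 16532736)) (l 16547568)) (c (l 16357312) (b (l 16351960) (l 16351960))))))), by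 decide +kernel⟩

def k4_pm_102 : ∃ t, chk3 f_pm_102 t 30 3 1 = true :=
  ⟨(b (b (b (a (l 6) (a (l 6) (b (l 6) (c (l 15994200) (l 15973544))))) (a (a (l 6) (c (l 16135192) (l 16118520))) (c (c (l 16037656) (l 16021856)) (c (l 16012112) (l 16002368))))) (c (c (a (l 16176232) (b (l 16037656) (l 16037656))) (b (l 16073616) (l 15968760))) (b (a (l 16156592) (c (l 16012112) (l 16002368))) (a (l 16135616) (c (l 16012112) (l 16002368)))))) (c (a (b (b (l 16172304) (l 16172304)) (l 16172304)) (b (c (l 16037656) (l 16021856)) (c (l 16037656) (l 16021856)))) (b (b (a (l 16135616) (l 15965296)) (a (l 16156592) (l 15965296))) (a (b (l 16156592) (l 16156592)) (c (l 16012112) (b (l 16002368) (l 16002368))))))), by decide +kernel⟩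

def k5_pm_102 : ∃ t, chk3 f_pm_102 t 31 6 1 = true :=
  ⟨(c (a (b (b (c (a (b (b (l 6) (l 15938120)) (l 15938120)) (l 15872232)) (a (l 15938936) (l 15879384))) (c (l 15905712) (l 15908248))) (c (b (a (l 15938120) (l 15872232)) (a (l 15938120) (l 15872232))) (b (l 15908248) (l 15908248)))) (b (c (b (l 15803536) (l 15803536)) (a (b (l 15817560) (l 15817560)) (b (l 15774848) (l 15774848)))) (a (b (c (l 15818672) (l 15817560)) (l 15819832)) (b (c (l 15787456) (l 15774848)) (l 15781240))))) (a (b (c (b (l 15902384) (l 15902536)) (b (b (a (l 15916952) (l 15865800)) (l 15891408)) (l 15891408))) (c (b (l 15902536) (l 15902536)) (b (l 15891408) (l 15891408)))) (b (c (a (b (l 15820656) (l 15820656)) (a (b (l 15775016) (l 15775016)) (b (l 15755088) (l 15755088)))) (a (b (l 15814488) (l 15814488)) (c (a (b (l 15775232) (l 15775232)) (b (l 15747600) (a (l 15752024) (l 15741904)))) (a (b (l 15771680) (l 15771680)) (b (c (l 15745552) (l 15744792)) (c (l 15745552) (l 15744792))))))) (b (c (a (l 15820656)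 (a (l 15775016) (l 15755088))) (a (l 15814488) (a (c (l 15775232) (l 15771680)) (c (a (l 15752024) (l 15741904)) (c (l 15745552) (l 15744792)))))) (c (a (l 15820656) (a (l 15775016) (l 15755088))) (a (l 15814488) (a (l 15773160) (a (l 15753208) (c (l 15741904) (l 15738008)))))))))), by decide +kernel⟩

def k6_pm_102 : ∃ t, chk3 f_pm_102 t 31 7 1 = true :=
  ⟨(c (b (a (c (b (l 15905712) (l 15905712)) (b (l 15908248) (l 15908248))) (c (a (l 15818672) (l 15787456)) (a (l 15817560) (l 15774848)))) (a (c (l 15905712) (l 15908248)) (b (a (l 15819832) (l 15781240)) (c (l 15803536) (l 15776968))))) (c (b (a (l 15902536) (a (b (l 15820656) (l 15820656)) (a (l 15775016) (a (l 15758432) (l 15751624))))) (a (l 15902536) (a (c (l 15819824) (l 15820448)) (b (l 15766296) (l 15766296))))) (b (a (b (l 15891408) (l 15891408)) (a (b (l 15814488) (l 15814488)) (c (b (l 15720328) (l 15762272)) (a (l 15771680) (b (l 15745632) (l 15745632)))))) (a (b (l 15891408) (l 15891408)) (a (b (l 15814488) (l 15814488))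 (c (b (l 15762272) (a (l 15775232) (l 15747600))) (b (b (l 15760832) (l 15697912)) (a (l 15771680) (c (l 15745552) (l 15744792)))))))))), by decide +kernel⟩

theorem s7_pm_102 : ∃ t, chk3 f_pm_102 t 31 3 1 = true := ex3_b k5_pm_102 k6_pm_102

theorem s8_pm_102 : ∃ t, chk3 f_pm_102 t 15 3 1 = true := ex3_a k4_pm_102 s7_pm_102

theorem s9_pm_102 : ∃ t, chk3 f_pm_102 t 7 3 1 = true := ex3_a k3_pm_102 s8_pm_102

theorem s10_pm_102 : ∃ t, chk3 f_pm_102 t 3 3 1 = true := ex3_a k2_pm_102 s9_pm_102

theorem s11_pm_102 : ∃ t, chk3 f_pm_102 t 3 1 1 = true := ex3_b k1_pm_102 s10_pm_102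

theorem s12_pm_102 : ∃ t, chk3 f_pm_102 t 1 1 1 = true := ex3_a k0_pm_102 s11_pm_102

theorem c_pm_102 : CertFX 536870912 536870912 0 536870912 1046898278 26843546 true true false .npp 1 0 2
    ndF0q1 ndF0q0 pcF2 cut_pm_102 Ext.none :=
  certFX0 (fam := true) (s1 := true) (s2 := false) (a := 1) (b := 0) (c := 2) (cn := .npp) (n1 := ndF0q1) (n2 := ndF0q0) (pc := pcF2) (cut := cut_pm_102) (xt := Ext.none) (P1 := 536870912) (W1 := 536870912) (P2 := 0) (W2 := 536870912) (P3 := 1046898278) (W3 := 26843546)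
    rfl s12_pm_102

noncomputable def cut_pm_112 : Cut := Cut.of [[⟨3, 0, 0, 1449551462⟩], [⟨4, 0, 0, 2845415833⟩]]

noncomputable def f_pm_112 : ℕ → ℕ → ℕ → ℕ → Bool := onCell 536870912 536870912 536870912 536870912 1046898278 26843546
    (rowFX 0 true true false .dn 1 1 2 (qsf 536870912 536870912 536870912 536870912 2) ndF0q1 ndF0q1 pcF2 cut_pm_112 Ext.none)

def k0_pm_112 : ∃ t, chk3 f_pm_112 t 2 2 1 = true :=
  ⟨(b (a (l 6) (a (l 6) (b (l 6) (b (a (l 6) (a (l 6) (b (l 6) (c (l 16777216) (l 16777216))))) (c (c (l 16777216) (l 16777216)) (a (l 16777216) (l 16777216))))))) (b (a (l 6) (b (a (a (l 6) (c (l 16777216) (l 16777216))) (c (l 16777216) (l 16777216))) (a (c (a (l 16777216) (l 16777216)) (a (l 16777216) (l 16777216))) (c (l 16777216) (l 16777216))))) (a (a (l 6) (a (a (l 6) (a (l 6) (b (l 6) (c (l 16777216) (l 16777216))))) (c (c (l 16777216) (l 16777216)) (b (l 16777216) (l 16777216))))) (a (a (c (l 16777216) (l 16777216)) (c (l 16777216) (l 16777216))) (a (l 16777216) (l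 16777216)))))), by decide +kernel⟩

def k1_pm_112 : ∃ t, chk3 f_pm_112 t 6 2 1 = true :=
  ⟨(b (b (b (a (a (l 6) (a (a (l 6) (b (l 6) (l 6))) (c (c (l 16777216) (l 16777216)) (l 16777216)))) (c (a (c (a (l 16777216) (l 16777216)) (l 16777216)) (a (l 16777216) (l 16752376))) (a (c (l 16777216) (l 16777216)) (l 16764360)))) (a (a (b (l 6) (c (c (l 16777216) (l 16777216)) (l 16777216))) (c (c (c (l 16777216) (l 16777216)) (l 16777216)) (l 16777216))) (c (a (c (l 16777216) (l 16777216)) (a (l 16777216) (l 16752376))) (a (l 16777216) (l 16764360))))) (a (c (b (c (a (l 16777216) (l 16777216)) (a (l 16777216) (l 16777216))) (a (c (l 16777216) (l 16777216)) (l 16777216))) (b (c (l 16777216) (l 16777216)) (l 16777216))) (c (a (c (l 16777216) (l 16777216)) (c (a (l 16777216) (l 16752536)) (l 16764600))) (a (l 16777216) (c (l 16764440) (l 16764272)))))) (a (b (c (b (a (l 16777216) (l 16777216)) (l 16777216)) (b (l 16777216) (l 16777216))) (a (l 16777216) (l 16777216))) (b (c (a (l 16777216) (l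 16764680)) (a (l 16777216) (l 16743384))) (a (l 16777216) (l 2))))), by decide +kernel⟩

def k2_pm_112 : ∃ t, chk3 f_pm_112 t 7 2 1 = true :=
  ⟨(a (b (c (b (a (b (l 16531352) (l 16573296)) (c (l 16368008) (l 16362664))) (a (b (l 16594264) (l 16594264)) (b (l 16365336) (l 16365336)))) (b (a (c (l 16569728) (l 16483472)) (c (l 16357312) (a (l 16413040) (l 16291528)))) (a (b (l 16547568) (l 16589512)) (b (c (l 16357312) (l 16351960)) (l 16228808))))) (b (a (c (l 16594264) (l 16505624)) (l 2)) (l 2))) (b (a (b (c (c (l 16090912) (l 16073616)) (c (a (l 16160520) (l 16012112)) (a (b (l 16152664) (l 16152664)) (b (l 16002368) (l 16002368))))) (a (b (c (l 16172304) (l 157939297159)) (l 2)) (l 2))) (b (a (c (c (l 15905712) (l 15908248)) (c (l 15902536) (b (l 15891408) (l 154180726119)))) (b (c (c (l 15803536) (l 15797936)) (c (a (l 15820656) (l 15724352)) (a (l 25331599927) (b (c (l 15762272) (a (l 15771680) (l 136463742327))) (l 2))))) (l 2))) (l 2))) (l 2))), by decide +kernel⟩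

def k3_pm_112 : ∃ t, chk3 f_pm_112 t 2 6 1 = true :=
  ⟨(a (a (a (b (b (l 6) (b (a (l 6) (a (l 6) (l 6))) (c (c (l 16777216) (l 16777216)) (l 16777216)))) (c (b (c (b (l 16777216) (l 16777216)) (l 16777216)) (b (l 16777216) (l 16752376))) (b (c (l 16777216) (l 16777216)) (l 16764360)))) (b (b (a (l 6) (c (c (l 16777216) (l 16777216)) (l 16777216))) (c (c (c (l 16777216) (l 16777216)) (l 16777216)) (l 16777216))) (c (b (c (l 16777216) (l 16777216)) (b (l 16777216) (l 16752376))) (b (l 16777216) (l 16764360))))) (b (c (a (c (b (l 16777216) (l 16777216)) (b (l 16777216) (l 16777216))) (b (c (l 16777216) (l 16777216)) (l 16777216))) (a (c (l 16777216) (l 16777216)) (l 16777216))) (c (b (c (l 16777216) (l 16777216)) (c (b (l 16777216) (l 16752536)) (l 16764600))) (b (l 16777216) (c (l 16764440) (l 16764272)))))) (b (a (c (a (b (l 16777216) (l 16777216)) (l 16777216)) (a (l 16777216) (l 16777216))) (b (l 16777216) (l 16777216))) (a (c (b (l 16777216) (l 16764680)) (b (l 16777216) (l 16743384)))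 (b (l 16777216) (l 2))))), by decide +kernel⟩

def k4_pm_112 : ∃ t, chk3 f_pm_112 t 2 7 1 = true :=
  ⟨(b (a (c (a (b (a (l 16531352) (l 16573296)) (c (l 16368008) (l 16362664))) (b (a (l 16594264) (l 16594264)) (a (l 16365336) (l 16365336)))) (a (b (c (l 16569728) (l 16483472)) (c (l 16357312) (b (l 16413040) (l 16291528)))) (b (a (l 16547568) (l 16589512)) (a (c (l 16357312) (l 16351960)) (l 16228808))))) (a (b (c (l 16594264) (l 16505624)) (l 2)) (l 2))) (a (b (a (c (c (l 16090912) (l 16073616)) (c (b (l 16160520) (l 16012112)) (b (a (l 16152664) (l 16152664)) (a (l 16002368) (l 16002368))))) (a (c (l 108546840663) (c (l 16064808) (l 170287006375))) (l 2))) (a (b (c (c (l 15905712) (l 15908248)) (c (l 15902536) (a (l 15891408) (l 154180726119)))) (a (c (c (l 15803536) (l 15797936)) (c (b (l 15820656) (l 15724352)) (b (l 25331599927) (a (c (l 15762272) (b (l 15771680) (l 136463742327))) (l 2))))) (l 2))) (l 2))) (l 2))), by decide +kernel⟩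

def k5_pm_112 : ∃ t, chk3 f_pm_112 t 3 3 1 = true :=
  ⟨(a (a (b (b (c (l 128949682183) (l 83852525495)) (l 2)) (l 2)) (l 2)) (l 2)), by decide +kernel⟩

theorem s6_pm_112 : ∃ t, chk3 f_pm_112 t 2 3 1 = true := ex3_b k3_pm_112 k4_pm_112

theorem s7_pm_112 : ∃ t, chk3 f_pm_112 t 1 3 1 = true := ex3_a s6_pm_112 k5_pm_112

theorem s8_pm_112 : ∃ t, chk3 f_pm_112 t 3 2 1 = true := ex3_a k1_pm_112 k2_pm_112

theorem s9_pm_112 : ∃ t, chk3 f_pm_112 t 1 2 1 = true := ex3_a k0_pm_112 s8_pm_112

theorem s10_pm_112 : ∃ t, chk3 f_pm_112 t 1 1 1 = true := ex3_b s9_pm_112 s7_pm_112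

theorem c_pm_112 : CertFX 536870912 536870912 536870912 536870912 1046898278 26843546 true true false .dn 1 1 2
    ndF0q1 ndF0q1 pcF2 cut_pm_112 Ext.none :=
  certFX0 (fam := true) (s1 := true) (s2 := false) (a := 1) (b := 1) (c := 2) (cn := .dn) (n1 := ndF0q1) (n2 := ndF0q1) (pc := pcF2) (cut := cut_pm_112) (xt := Ext.none) (P1 := 536870912) (W1 := 536870912) (P2 := 536870912) (W2 := 536870912) (P3 := 1046898278) (W3 := 26843546)
    rfl s10_pm_112

noncomputable def cut_pm_113 : Cut := Cut.of [[⟨3, 0, 0, 1449551462⟩], [⟨4, 0, 0, 2845415833⟩], [⟨0, 1, 0, 67108864⟩, ⟨1, 1, 0, 67108864⟩, ⟨2, 2, 0, 67108864⟩]]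

noncomputable def f_pm_113 : ℕ → ℕ → ℕ → ℕ → Bool := onCell 536870912 536870912 536870912 536870912 1046898278 26843546
    (rowFX 0 true true false .nn 1 1 3 (qsf 536870912 536870912 536870912 536870912 3) ndF0q1 ndF0q1 pcF3 cut_pm_113 Ext.none)

def k0_pm_113 : ∃ t, chk3 f_pm_113 t 2 2 1 = true :=
  ⟨(a (l 1) (a (l 1) (b (l 1) (b (l 1) (a (l 1) (l 16777216)))))), by decide +kernel⟩

def k1_pm_113 : ∃ t, chk3 f_pm_113 t 2 6 1 = true :=
  ⟨(a (a (l 1) (a (l 1) (b (l 1) (c (l 173979553319) (b (l 1) (l 16764360)))))) (b (a (a (l 1) (b (l 1) (l 141767475207))) (b (l 16777216) (l 16777216))) (a (c (b (l 16777216) (l 16764680)) (b (l 16777216) (l 16722416))) (b (c (l 16777216) (l 16777216)) (c (l 16764680) (l 16764360)))))), by decide +kernel⟩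

def k2_pm_113 : ∃ t, chk3 f_pm_113 t 2 14 1 = true :=
  ⟨(b (a (a (l 1) (c (l 96132851095) (a (l 16484656) (l 16589512)))) (a (c (l 16594264) (l 16505624)) (c (l 16594264) (l 16589512)))) (a (c (a (l 78415637415) (a (l 16365336) (l 16365336))) (a (c (l 16315368) (a (l 1) (l 16330992))) (a (c (l 16357312) (l 16330992)) (l 16270752)))) (a (c (a (l 16365336) (l 16365336)) (a (l 16333664) (l 16354640))) (c (l 16365336) (l 16333664))))), by decide +kernel⟩

def k3_pm_113 : ∃ t, chk3 f_pm_113 t 2 15 1 = true :=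
  ⟨(a (b (c (a (c (l 16111888) (l 16052648)) (c (l 16028000) (l 15989736))) (a (c (b (l 16160520) (l 16012112)) (a (b (l 1) (l 219075174967)) (b (l 16152664) (l 16002368)))) (a (c (l 16085784) (b (l 16152664) (l 16002368))) (b (l 16156592) (l 16007240))))) (c (a (a (b (l 15887088) (c (l 15803536) (l 15797936))) (b (l 15887088) (c (l 15803536) (l 15797936)))) (b (c (l 15905712) (l 15908248)) (c (b (l 15818672) (l 15787456)) (a (b (l 15817560) (l 15774848)) (l 15797936))))) (b (a (c (l 15902536) (a (l 36002016615) (l 15891408))) (c (l 15902536) (a (l 15891408) (l 15891408)))) (b (a (c (c (l 15819824) (l 15820448)) (a (l 34391296567) (l 15814488))) (c (a (l 15820656) (l 15820656)) (a (l 15814488) (l 15814488)))) (a (c (a (c (l 15766576) (l 15763784)) (l 15766296)) (c (a (b (l 15775232) (l 15747600)) (l 15741296)) (a (b (l 15771680) (c (l 15745552) (l 15744792))) (c (l 15761072) (l 15759208))))) (c (a (c (l 15766576) (l 15763784)) (l 15766296)) (a (c (l 15762272) (b (l 15771680) (l 15745632)))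 (c (l 15762272) (l 15760832))))))))) (b (a (c (b (l 16172304) (l 16002392)) (a (b (l 16156592) (l 16007240)) (l 15913608))) (b (c (l 16172304) (l 16156592)) (c (l 16023368) (l 16007240)))) (c (a (b (c (l 15905712) (l 15908248)) (c (l 15803536) (b (l 15817560) (l 15774848)))) (b (c (l 15905712) (l 15908248)) (b (l 15819832) (b (l 15787768) (l 15774480))))) (a (b (c (l 15902536) (l 15891408)) (c (b (l 15820656) (l 15766296)) (b (l 15814488) (a (c (l 15762272) (l 15760832)) (l 15762472))))) (b (l 15899120) (b (l 15774768) (c (l 15766296) (a (l 15762472) (l 15762472))))))))), by decide +kernel⟩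

def k4_pm_113 : ∃ t, chk3 f_pm_113 t 6 1 1 = true :=
  ⟨(a (b (b (l 1) (a (b (l 1) (l 16777216)) (b (b (l 1) (l 141767475207)) (l 16777216)))) (b (a (b (b (l 16777216) (l 16777216)) (b (l 16777216) (l 16764520))) (b (b (l 16777216) (l 16777216)) (b (l 16777216) (l 16764520)))) (b (b (c (l 16573296) (l 16568544)) (c (l 16344360) (l 16354640))) (b (c (b (l 16172304) (a (l 16023368) (l 16023368))) (b (l 16156592) (l 15944328))) (c (b (a (l 15824176) (c (l 15905720) (l 15908248))) (a (b (l 15819832) (l 15781240)) (b (l 15819840) (l 15781256)))) (b (l 15899120) (c (b (l 15820664) (l 15766304)) (b (l 15814496) (a (l 15762472) (l 15762496)))))))))) (a (b (b (l 1) (b (c (l 16777216) (l 16777216)) (c (l 16777216) (l 16777216)))) (b (b (b (l 16777216) (l 16777216)) (b (l 16777216) (b (l 16777216) (l 16752048)))) (b (b (l 16591888) (l 16276096)) (b (b (l 16164448) (c (l 16023376) (l 16007248))) (c (b (c (l 15905728) (l 15908264)) (b (l 15819864) (l 15781288))) (b (l 15899144) (b (l 15816752)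 (c (l 15766344) (l 15762536))))))))) (b (b (a (l 1) (b (l 1) (b (l 1) (l 16710112)))) (b (c (l 16764680) (l 16722416)) (c (l 16764680) (l 16764360)))) (b (b (b (l 16764520) (l 16764520)) (b (a (l 16777216) (l 16752048)) (b (l 16764520) (l 16740312)))) (b (b (b (l 16637024) (l 16524616)) (b (l 16408792) (l 16226736))) (b (c (b (l 16162368) (a (l 16023376) (l 16004240))) (a (l 16081392) (l 15931936))) (b (c (b (a (l 15936144) (l 15917192)) (c (l 15800216) (l 15785288))) (a (l 15899152) (l 15875648))) (c (a (b (l 15819880) (l 15781296)) (b (l 15759216) (l 15762688))) (b (a (l 15816768) (l 15751368)) (a (c (l 15766360) (l 15762544)) (c (l 15744136) (l 15675000)))))))))))), by decide +kernel⟩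

def k5_pm_113 : ∃ t, chk3 f_pm_113 t 14 2 1 = true :=
  ⟨(a (b (b (l 1) (c (l 96132851095) (b (l 16484656) (l 16589512)))) (b (c (l 16594264) (l 16505624)) (c (l 16594264) (l 16589512)))) (b (c (b (l 78415637415) (b (l 16365336) (l 16365336))) (b (c (l 16315368) (b (l 1) (l 16330992))) (b (c (l 16357312) (l 16330992)) (l 16270752)))) (b (c (b (l 16365336) (l 16365336)) (b (l 16333664) (l 16354640))) (c (l 16365336) (l 16333664))))), by decide +kernel⟩

def k6_pm_113 : ∃ t, chk3 f_pm_113 t 15 2 1 = true :=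
  ⟨(b (a (c (b (c (l 16111888) (l 16052648)) (c (l 16028000) (l 15989736))) (b (c (a (l 16160520) (l 16012112)) (b (a (l 1) (l 219075174967)) (a (l 16152664) (l 16002368)))) (b (c (l 16085784) (a (l 16152664) (l 16002368))) (a (l 16156592) (l 16007240))))) (c (b (b (a (l 15887088) (c (l 15803536) (l 15797936))) (a (l 15887088) (c (l 15803536) (l 15797936)))) (a (c (l 15905712) (l 15908248)) (c (a (l 15818672) (l 15787456)) (b (a (l 15817560) (l 15774848)) (l 15797936))))) (a (b (c (l 15902536) (b (l 36002016615) (l 15891408))) (c (l 15902536) (b (l 15891408) (l 15891408)))) (a (b (c (c (l 15819824) (l 15820448)) (b (l 34391296567) (l 15814488))) (c (b (l 15820656) (l 15820656)) (b (l 15814488) (l 15814488)))) (b (c (b (c (l 15766576) (l 15763784)) (l 15766296)) (c (b (a (l 15775232) (l 15747600)) (l 15741296)) (b (a (l 15771680) (c (l 15745552) (l 15744792))) (c (l 15761072) (l 15759208))))) (c (b (c (l 15766576) (l 15763784)) (l 15766296)) (b (c (l 15762272) (a (l 15771680) (l 15745632)))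 (c (l 15762272) (l 15760832))))))))) (a (b (c (a (l 16172304) (l 16002392)) (b (a (l 16156592) (l 16007240)) (l 15913608))) (a (c (l 16172304) (l 16156592)) (c (l 16023368) (l 16007240)))) (c (b (a (c (l 15905712) (l 15908248)) (c (l 15803536) (a (l 15817560) (l 15774848)))) (a (c (l 15905712) (l 15908248)) (a (l 15819832) (a (l 15787768) (l 15774480))))) (b (a (c (l 15902536) (l 15891408)) (c (a (l 15820656) (l 15766296)) (a (l 15814488) (b (c (l 15762272) (l 15760832)) (l 15762472))))) (a (l 15899120) (a (l 15774768) (c (l 15766296) (b (l 15762472) (l 15762472))))))))), by decide +kernel⟩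

def k7_pm_113 : ∃ t, chk3 f_pm_113 t 7 6 1 = true :=
  ⟨(a (b (a (c (l 16573296) (l 16568544)) (c (l 16344360) (l 16354640))) (a (b (l 16591888) (a (l 16637024) (l 16524616))) (b (l 16276096) (a (l 16408792) (l 16226736))))) (a (b (c (a (l 16172304) (b (l 16023368) (l 16023368))) (a (l 16156592) (l 15944328))) (b (a (l 16164448) (c (l 16023376) (l 16007248))) (c (a (l 16162368) (b (l 16023376) (l 16004240))) (b (l 16081392) (l 15931936))))) (b (c (a (b (l 15824176) (c (l 15905720) (l 15908248))) (b (a (l 15819832) (l 15781240)) (a (l 15819840) (l 15781256)))) (a (l 15899120) (c (a (l 15820664) (l 15766304)) (a (l 15814496) (b (l 15762472) (l 15762496)))))) (a (b (c (c (l 15905728) (l 15908264)) (l 15899144)) (c (a (b (l 15936144) (l 15917192)) (c (l 15800216) (l 15785288))) (b (l 15899152) (l 15875648)))) (c (b (a (l 15819864) (l 15781288)) (b (a (l 15819880) (l 15781296)) (a (l 15759216) (l 15762688)))) (b (a (l 15816752) (c (l 15766344) (l 15762536))) (a (b (l 15816768) (l 15751368))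 (b (c (l 15766360) (l 15762544)) (c (l 15744136) (l 15675000)))))))))), by decide +kernel⟩

def k8_pm_113 : ∃ t, chk3 f_pm_113 t 7 7 1 = true :=
  ⟨(b (a (a (b (l 16337568) (b (l 16256856) (l 16141400))) (b (a (l 16256856) (l 16141400)) (a (l 16048336) (c (l 15984944) (l 15902008))))) (a (b (a (l 15987528) (c (l 15763120) (l 15835720))) (a (c (l 15872976) (l 15771528)) (a (c (l 15777520) (l 15661768)) (b (l 15704112) (l 14))))) (b (a (c (a (c (l 15816432) (l 15797856)) (c (l 15752800) (l 15739728))) (l 15728896)) (a (c (c (l 15701400) (l 15679472)) (c (l 15661768) (l 15634808))) (b (c (l 15690864) (c (l 15655024) (l 15637280))) (l 14)))) (a (a (b (c (l 15703848) (l 15600872)) (l 14)) (l 14)) (l 14))))) (a (b (a (b (l 15987528) (c (l 15763120) (l 15835720))) (b (c (l 15872976) (l 15771528)) (a (c (l 15780112) (l 15681816)) (b (l 15677976) (l 14))))) (a (b (c (b (c (l 15816432) (l 15797856)) (c (l 15752800) (l 15739728))) (l 15728896)) (a (c (b (l 15728456) (l 15690864)) (b (l 15698152)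 (c (l 15655024) (l 15637280)))) (b (c (l 15659080) (l 15598048)) (l 14)))) (b (b (a (c (l 15703848) (l 15600872)) (l 14)) (l 14)) (l 14)))) (b (a (a (b (c (l 15748200) (l 15596240)) (l 14)) (l 14)) (l 14)) (l 14)))), by decide +kernel⟩

theorem s9_pm_113 : ∃ t, chk3 f_pm_113 t 7 3 1 = true := ex3_b k7_pm_113 k8_pm_113

theorem s10_pm_113 : ∃ t, chk3 f_pm_113 t 7 2 1 = true := ex3_a k5_pm_113 k6_pm_113

theorem s11_pm_113 : ∃ t, chk3 f_pm_113 t 7 1 1 = true := ex3_b s10_pm_113 s9_pm_113

theorem s12_pm_113 : ∃ t, chk3 f_pm_113 t 3 1 1 = true := ex3_a k4_pm_113 s11_pm_113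

theorem s13_pm_113 : ∃ t, chk3 f_pm_113 t 2 7 1 = true := ex3_b k2_pm_113 k3_pm_113

theorem s14_pm_113 : ∃ t, chk3 f_pm_113 t 2 3 1 = true := ex3_b k1_pm_113 s13_pm_113

theorem s15_pm_113 : ∃ t, chk3 f_pm_113 t 2 1 1 = true := ex3_b k0_pm_113 s14_pm_113

theorem s16_pm_113 : ∃ t, chk3 f_pm_113 t 1 1 1 = true := ex3_a s15_pm_113 s12_pm_113

theorem c_pm_113 : CertFX 536870912 536870912 536870912 536870912 1046898278 26843546 true true false .nn 1 1 3
    ndF0q1 ndF0q1 pcF3 cut_pm_113 Ext.none :=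
  certFX0 (fam := true) (s1 := true) (s2 := false) (a := 1) (b := 1) (c := 3) (cn := .nn) (n1 := ndF0q1) (n2 := ndF0q1) (pc := pcF3) (cut := cut_pm_113) (xt := Ext.none) (P1 := 536870912) (W1 := 536870912) (P2 := 536870912) (W2 := 536870912) (P3 := 1046898278) (W3 := 26843546)
    rfl s16_pm_113

end Pool.Agent.Strip051.G.IE1.Tab.C.FA00

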