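import Pool.Agent.Strip051.G.IE1.Tab

/-! # Certificates F1 (generated) -/

set_option linter.all false
set_option maxRecDepth 100000

namespace Pool.Agent.Strip051.G.IE1.Tab.C.FA00

open Pool.Agent.Strip051.PB Pool.Agent.Strip051.PB.T
open Pool.Agent.Strip051.G.IE1.Tab

noncomputable def cut_pm_123 : Cut := Cut.of [[⟨3, 0, 0, 1449551462⟩], [⟨4, 0, 0, 2845415833⟩], [⟨0, 1, 0, 67108864⟩, ⟨1, 1, 0, 67108864⟩, ⟨2, 2, 0, 67108864⟩]]

noncomputable def f_pm_123 : ℕ → ℕ → ℕ → ℕ → Bool := onCell 536870912 536870912 0 536870912 1046898278 26843546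
    (rowFX 0 true true false .npn 1 2 3 (qsf 536870912 536870912 0 536870912 3) ndF0q1 ndF0q2 pcF3 cut_pm_123 Ext.none)

def k0_pm_123 : ∃ t, chk3 f_pm_123 t 4 4 1 = true :=
  ⟨(b (l 14) (b (l 14) (b (l 14) (a (a (a (c (c (l 16777216) (l 16777216)) (c (l 16777216) (l 16777216))) (l 14)) (l 14)) (l 14))))), by decide +kernel⟩

def k1_pm_123 : ∃ t, chk3 f_pm_123 t 8 10 1 = true :=
  ⟨(a (c (b (c (c (l 16777216) (l 16777216)) (c (l 16777216) (l 16777216))) (c (b (a (l 16777216) (l 16777216)) (a (b (l 16777216) (l 16777216)) (b (l 16777216) (l 16777216)))) (b (a (l 16777216) (l 16777216)) (a (l 16777216) (b (l 16777216) (l 16777216)))))) (b (c (c (l 16777216) (l 16777216)) (c (l 16777216) (l 16777216))) (c (b (a (l 16777216) (l 16777216)) (a (l 16777216) (b (l 16777216) (l 16777216)))) (b (a (l 16777216) (l 16777216)) (a (l 16777216) (b (l 16777216) (l 16777216))))))) (b (a (b (l 14) (c (c (l 16777216) (l 16777216)) (c (l 16777216) (l 16777216)))) (l 14)) (c (c (a (b (l 16777216) (l 16777216)) (c (l 16777216)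 (l 16777216))) (a (c (l 16777216) (l 16777216)) (c (l 16777216) (l 16777216)))) (c (a (c (l 16777216) (l 16777216)) (c (l 16777216) (l 16777216))) (c (a (l 16777216) (l 16777216)) (a (l 16777216) (l 16777216))))))), by decide +kernel⟩

def k2_pm_123 : ∃ t, chk3 f_pm_123 t 8 11 1 = true :=
  ⟨(c (b (a (c (c (l 16777216) (l 16777216)) (c (l 16777216) (l 16777216))) (c (b (a (b (l 16777216) (l 16777216)) (b (l 16777216) (a (l 16777216) (l 16777216)))) (c (l 16777216) (l 16777216))) (b (a (b (c (l 16777216) (l 16777216)) (l 16777216)) (b (l 16777216) (a (l 16777216) (l 16777216)))) (a (l 16777216) (l 16777216))))) (c (a (c (l 16777216) (l 16777216)) (b (c (l 16777216) (l 16777216)) (a (l 16777216) (a (l 16777216) (l 16777216))))) (a (c (l 16777216) (l 16777216)) (b (c (l 16777216) (l 16777216)) (a (l 16777216) (a (l 16777216) (l 16777216))))))) (c (b (a (c (l 16777216) (l 16777216)) (b (a (b (l 16777216) (l 16777216)) (b (l 16777216) (c (l 16777216) (l 16777216)))) (c (l 16777216) (l 16777216)))) (a (c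 (l 16777216) (l 16777216)) (c (a (l 16777216) (l 16777216)) (a (l 16777216) (l 16777216))))) (c (b (a (l 16777216) (b (a (l 16777216) (l 16777216)) (l 16777216))) (a (l 16777216) (a (l 16777216) (l 16777216)))) (b (a (l 16777216) (b (a (l 16777216) (l 16777216)) (l 16777216))) (a (l 16777216) (l 16777216)))))), by decide +kernel⟩

def k3_pm_123 : ∃ t, chk3 f_pm_123 t 9 5 1 = true :=
  ⟨(a (b (a (b (l 14) (b (l 14) (c (c (l 16777216) (l 16777216)) (c (l 16777216) (c (l 16777216) (l 16777216)))))) (l 14)) (c (b (c (b (a (c (l 16777216) (l 16777216)) (l 16777216)) (a (b (a (l 16777216) (l 16777216)) (l 16777216)) (b (l 16777216) (l 16777216)))) (b (a (c (l 16777216) (l 16777216)) (l 16777216)) (a (b (a (l 16777216) (l 16777216)) (l 16777216)) (b (l 16777216) (a (l 16777216) (l 16777216)))))) (c (b (c (l 16777216) (l 16777216)) (a (c (l 16777216) (l 16777216)) (l 16777216))) (c (a (b (l 16777216) (l 16777216)) (l 16777216)) (a (l 16777216) (l 16777216))))) (b (c (b (a (c (l 16777216) (l 16777216)) (l 16777216))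 (a (b (a (l 16777216) (l 16777216)) (l 16777216)) (b (l 16777216) (a (l 16777216) (l 16777216))))) (b (a (c (l 16777216) (l 16777216)) (l 16777216)) (a (c (l 16777216) (l 16777216)) (b (l 16777216) (l 16777216))))) (c (c (a (l 16777216) (l 16777216)) (a (l 16777216) (l 16777216))) (c (a (l 16777216) (l 16777216)) (a (l 16777216) (l 16777216))))))) (b (l 14) (a (b (b (l 14) (c (c (l 16777216) (c (l 16777216) (l 16777216))) (c (c (l 16777216) (l 16777216)) (c (l 16777216) (l 16777216))))) (c (c (b (b (l 16777216) (l 16777216)) (l 16777216)) (b (b (a (l 16777216) (l 16777216)) (l 16777216)) (l 16777216))) (c (b (b (a (l 16777216) (l 16777216)) (l 16777216)) (l 16777216)) (b (b (l 16777216) (l 16777216)) (l 16777216))))) (b (l 14) (c (b (c (b (l 16777216) (l 16777216)) (b (l 16777216) (a (l 16777216) (l 16777216)))) (c (l 16777216) (l 16777216))) (b (c (b (l 16777216) (a (l 16777216) (l 16777216))) (b (l 16777216) (a (l 16777216) (l 16777216)))) (c (l 16777216) (l 16777216)))))))), by decide +kernel⟩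

def k4_pm_123 : ∃ t, chk3 f_pm_123 t 5 2 1 = true :=
  ⟨(b (l 14) (a (a (a (b (l 14) (b (l 14) (b (l 14) (a (c (c (l 16777216) (l 16777216)) (c (l 16777216) (l 16777216))) (b (l 14) (a (c (l 16777216) (l 16777216)) (l 14))))))) (l 14)) (l 14)) (l 14))), by decide +kernel⟩

def k5_pm_123 : ∃ t, chk3 f_pm_123 t 4 12 2 = true :=
  ⟨(a (c (b (a (c (b (l 16777216) (l 16777216)) (b (l 16777216) (l 16777216))) (c (b (l 16777216) (l 16777216)) (b (a (l 16777216) (l 16777216)) (l 16777216)))) (a (c (b (l 16777216) (l 16777216)) (l 16777216)) (c (b (l 16777216) (l 16777216)) (b (l 16777216) (l 16777216))))) (b (a (c (b (l 16777216) (l 16777216)) (b (l 16777216) (l 16777216))) (a (c (l 16777216) (l 16777216)) (c (b (l 16777216) (l 16777216)) (b (l 16777216) (l 16777216))))) (a (c (l 16777216) (l 16777216)) (b (c (l 16777216) (l 16777216)) (c (l 16777216) (l 16777216)))))) (c (b (a (c (a (b (l 16777216) (l 16777216)) (b (l 16777216) (l 16777216))) (a (b (l 16777216) (l 16777216)) (b (l 16777216) (l 16777216))))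 (b (c (l 16777216) (l 16777216)) (c (l 16777216) (l 16777216)))) (a (c (a (b (l 16777216) (l 16777216)) (b (l 16777216) (l 16777216))) (a (b (l 16777216) (l 16777216)) (b (l 16777216) (l 16777216)))) (c (b (l 16777216) (l 16777216)) (b (l 16777216) (l 16777216))))) (a (b (c (a (b (l 16777216) (l 16777216)) (b (l 16777216) (l 16777216))) (a (b (l 16777216) (l 16777216)) (b (l 16777216) (l 16777216)))) (c (a (b (l 16777216) (l 16777216)) (b (l 16777216) (l 16777216))) (a (b (l 16777216) (l 16777216)) (b (l 16777216) (l 16777216))))) (b (c (b (l 16777216) (a (l 16777216) (l 16777216))) (b (l 16777216) (a (l 16777216) (l 16777216)))) (c (b (l 16777216) (l 16777216)) (b (a (l 16777216) (l 16777216)) (a (l 16777216) (l 16777216)))))))), by decide +kernel⟩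

def k6_pm_123 : ∃ t, chk3 f_pm_123 t 4 12 3 = true :=
  ⟨(a (c (b (a (c (b (l 16777216) (l 16777216)) (b (l 16777216) (l 16777216))) (c (a (l 16777216) (a (l 16777216) (l 16777216))) (b (l 16777216) (l 16777216)))) (a (c (b (l 16777216) (l 16777216)) (b (l 16777216) (l 16777216))) (c (a (l 16777216) (l 16777216)) (b (l 16777216) (l 16777216))))) (b (a (c (b (l 16777216) (l 16777216)) (l 16777216)) (c (b (l 16777216) (l 16777216)) (b (l 16777216) (l 16777216)))) (a (c (b (l 16777216) (l 16777216)) (b (l 16777216) (l 16777216))) (c (b (l 16777216) (l 16777216)) (b (l 16777216) (l 16777216)))))) (c (b (a (c (a (b (l 16777216) (l 16777216)) (b (l 16777216) (l 16777216))) (b (a (l 16777216) (l 16777216)) (a (l 16777216) (l 16777216)))) (c (b (l 16777216) (l 16777216)) (b (l 16777216) (l 16777216)))) (a (c (a (b (l 16777216) (l 16777216)) (b (l 16777216) (l 16777216))) (a (b (l 16777216) (l 16777216)) (b (l 16777216) (l 16777216)))) (c (b (a (l 16777216) (l 16777216)) (l 16777216)) (b (l 16777216) (l 16777216)))))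 (b (a (a (c (b (l 16777216) (l 16777216)) (l 16777216)) (b (l 16777216) (c (l 16777216) (l 16777216)))) (c (b (l 16777216) (l 16777216)) (b (l 16777216) (l 16777216)))) (a (c (a (b (l 16777216) (l 16777216)) (b (l 16777216) (l 16777216))) (b (a (l 16777216) (l 16777216)) (a (l 16777216) (l 16777216)))) (c (b (l 16777216) (l 16777216)) (b (l 16777216) (l 16777216))))))), by decide +kernel⟩

def k7_pm_123 : ∃ t, chk3 f_pm_123 t 4 13 2 = true :=
  ⟨(a (b (c (b (a (c (l 16760504) (l 16739424)) (c (l 16760504) (b (l 16773872) (l 16746792)))) (a (c (l 16698232) (l 16697720)) (c (l 16698232) (l 16697720)))) (b (a (c (l 16739312) (l 16739208)) (c (b (l 16773848) (l 16746592)) (b (l 16773824) (l 16746400)))) (a (c (l 16697200) (l 16696680)) (c (l 16697200) (l 16675712))))) (c (a (b (l 16608504) (l 16557016)) (b (l 16629480) (l 16557016))) (a (c (b (l 16628032) (l 16554856)) (b (l 16627064) (l 16553416))) (c (l 16549880) (b (l 16627064) (l 16553416)))))) (b (a (c (b (a (c (l 16760504) (l 16760400)) (b (c (l 16773888)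 (l 16773872)) (l 16746896))) (a (l 16677008) (l 16656032))) (b (a (b (c (l 16773848) (l 16773824)) (l 16725528)) (b (b (l 16777216) (l 16749472)) (l 16725528))) (a (c (l 16697200) (l 16696680)) (c (l 16697200) (l 16696680))))) (b (c (c (b (l 16773888) (l 16746992)) (b (l 16773872) (l 16746792))) (c (b (l 16752880) (l 16746592)) (b (b (l 16777216) (l 16770424)) (l 16746400)))) (c (c (l 16698232) (l 16676744)) (c (l 16676224) (b (l 16713512) (l 16679672)))))) (a (a (c (l 16530704) (b (l 16627544) (l 16554136))) (c (l 16530704) (b (l 16627544) (l 16554136)))) (c (b (a (l 16629480) (l 16629480)) (l 16557016)) (b (c (l 16628032) (l 16627064)) (c (l 16554856) (l 16553416))))))), by decide +kernel⟩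

def k8_pm_123 : ∃ t, chk3 f_pm_123 t 8 13 3 = true :=
  ⟨(b (c (b (a (c (l 16718128) (a (l 16738984) (l 16738984))) (c (a (l 16739096) (l 16739096)) (a (l 16738984) (l 16738984)))) (a (c (l 16696160) (l 16674672)) (c (l 16675192) (a (l 16695648) (l 16695648))))) (b (a (c (a (l 16738880) (l 16738880)) (b (l 16773736) (l 16745608))) (c (a (l 16738880) (l 16717904)) (b (l 16752768) (l 16724632)))) (a (c (l 16653184) (a (l 16694608) (l 16673640))) (c (a (l 16695128) (l 16674160)) (a (l 16673640) (l 16673640)))))) (c (a (c (b (l 16626096) (l 16551976)) (b (l 16625136) (l 16550536))) (c (b (l 16626096) (l 16551976)) (b (l 16604160) (l 16550536)))) (a (c (b (l 16582224) (a (l 16549096) (l 16549096))) (a (b (l 16623200) (l 16547664)) (b (l 16623200) (l 16547664)))) (c (b (a (l 16624168) (l 16624168)) (l 16507160)) (b (a (l 16623200) (l 16623200)) (a (l 16547664) (l 16547664))))))), by decide +kernel⟩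

def k9_pm_123 : ∃ t, chk3 f_pm_123 t 9 13 3 = true :=
  ⟨(b (c (a (b (a (c (b (l 16773808) (l 16746200)) (b (l 16773784) (l 16746000))) (b (b (l 16777216) (l 16749384)) (l 16725128))) (a (c (l 16696160) (l 16674672)) (c (l 16696160) (l 16695648)))) (b (c (b (b (l 16777216) (l 16770376)) (l 16746200)) (b (b (l 16777216) (l 16770336)) (l 16746000))) (c (b (l 16713096) (l 16679048)) (a (l 16695648) (l 16695648))))) (a (b (a (c (b (l 16773760) (l 16745800)) (b (l 16773736) (l 16745608))) (b (b (l 16777216) (l 16749296)) (l 16724736))) (a (c (l 16674160) (l 16673640)) (c (l 16674160) (l 16673640)))) (b (c (b (b (l 16777216) (l 16770288)) (l 16724832)) (b (l 16752768) (l 16745608))) (c (a (l 16674160) (l 16695128)) (a (l 16673640) (l 16673640)))))) (b (a (c (a (c (l 16626096) (l 16625136)) (l 16604648)) (a (c (l 16624168) (l 16623200)) (c (l 16624168) (l 16623200)))) (c (a (c (l 16626096) (l 16625136)) (l 16604648)) (a (c (l 16624168) (l 16623200)) (c (l 16624168) (l 16623200))))) (a (c (a (l 16530288) (l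 16551256)) (a (c (l 16549096) (l 16547664)) (c (l 16549096) (l 16547664)))) (c (c (l 16551976) (l 16550536)) (c (l 16528128) (a (l 16547664) (l 16547664))))))), by decide +kernel⟩

def k10_pm_123 : ∃ t, chk3 f_pm_123 t 20 6 1 = true :=
  ⟨(b (c (c (b (b (c (l 16777216) (l 16777216)) (c (l 16777216) (l 16777216))) (b (c (l 16777216) (l 16777216)) (c (l 16777216) (l 16777216)))) (a (b (b (l 16777216) (a (l 16777216) (l 16777216))) (c (l 16777216) (b (l 16777216) (l 16777216)))) (b (b (l 16777216) (c (l 16777216) (l 16777216))) (c (b (l 16777216) (l 16777216)) (b (l 16777216) (l 16777216)))))) (b (c (b (c (l 16777216) (l 16777216)) (c (a (l 16777216) (l 16777216)) (a (l 16777216) (l 16777216)))) (c (b (l 16777216) (a (l 16777216) (l 16777216))) (b (l 16777216) (l 16777216)))) (c (c (b (a (l 16777216) (l 16777216)) (a (l 16777216) (l 16777216))) (b (a (l 16777216) (l 16777216)) (a (l 16777216) (l 16777216)))) (c (b (a (l 16777216) (l 16777216)) (a (l 16777216) (l 16777216))) (b (l 16777216) (a (l 16777216)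 (l 16777216))))))) (c (b (c (b (c (b (l 16773888) (l 16746992)) (b (l 16752896) (l 16746792))) (c (l 16677264) (l 16676744))) (b (c (b (b (l 16777216) (l 16770464)) (l 16746592)) (b (b (l 16777216) (l 16770424)) (l 16746400))) (c (b (l 16713920) (l 16680304)) (b (l 16713512) (l 16679672))))) (c (b (a (l 16629480) (l 16629480)) (l 16557016)) (b (a (l 16627544) (l 16627544)) (c (l 16554856) (l 16553416))))) (b (b (c (b (a (b (l 16777216) (l 16770352)) (b (l 16777216) (l 16770352))) (a (l 16746104) (l 16725128))) (c (b (b (l 16777216) (l 16770288)) (l 16724832)) (b (b (l 16777216) (l 16770248)) (l 16724632)))) (c (c (a (l 16696160) (l 16696160)) (a (l 16695648) (l 16695648))) (c (a (l 16695128) (l 16674160)) (a (l 16673640) (l 16673640))))) (c (b (c (l 16605128) (l 16583192)) (c (l 16551976) (l 16550536))) (b (a (c (l 16624168) (l 16623200)) (c (l 16624168) (l 16623200))) (a (l 16527408) (l 16527408))))))), by decide +kernel⟩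

def k11_pm_123 : ∃ t, chk3 f_pm_123 t 42 6 1 = true :=
  ⟨(b (b (b (l 14) (c (c (c (l 16777216) (l 16777216)) (c (l 16777216) (l 16777216))) (c (c (l 16777216) (l 16777216)) (c (l 16777216) (l 16777216))))) (c (c (c (b (l 16777216) (l 16777216)) (b (l 16777216) (l 16777216))) (b (c (l 16777216) (l 16777216)) (c (l 16777216) (l 16777216)))) (c (b (c (l 16777216) (l 16777216)) (c (l 16777216) (l 16777216))) (b (c (l 16777216) (l 16777216)) (c (l 16777216) (l 16777216)))))) (b (c (b (c (b (b (l 16777216) (l 16770528)) (l 16725920)) (b (b (l 16777216) (l 16770440)) (c (l 16746592) (l 16746400)))) (c (b (l 16714536) (l 16681240)) (c (l 16697200) (l 16675712)))) (b (c (b (b (l 16777216) (l 16770352)) (l 16730368)) (b (b (l 16777216) (l 16770272)) (l 16724736))) (c (c (l 16675192) (l 16674672)) (b (l 16691104) (l 16677480))))) (c (c (b (l 16629480) (l 16557016)) (b (l 16606576) (l 16554136))) (c (b (c (l 16626096) (l 16625136)) (l 16551256)) (b (c (l 16624168) (l 16623200)) (l 16527408)))))), by decide +kernel⟩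

def k12_pm_123 : ∃ t, chk3 f_pm_123 t 43 6 1 = true :=
  ⟨(b (b (l 14) (b (c (a (c (b (l 16777216) (l 16777216)) (b (l 16777216) (l 16777216))) (b (l 14) (c (l 16777208) (l 16777208)))) (c (c (b (l 16777208) (l 16777208)) (l 16777208)) (c (l 16777208) (l 16777208)))) (c (c (c (a (l 16777216) (l 16777208)) (a (l 16777216) (l 16777208))) (c (a (l 16777216) (l 16777208)) (a (l 16777216) (l 16777208)))) (c (c (b (l 16777216) (l 16777216)) (l 16777216)) (c (l 16777216) (l 16777216)))))) (b (c (b (c (c (b (b (l 16777216) (l 16770552)) (l 16746992)) (b (b (l 16777216) (l 16770512)) (l 16746792))) (b (b (c (l 16777216) (l 16777216)) (c (l 16770464) (l 16770424))) (c (l 16746592) (l 16746400)))) (c (c (b (l 16714736) (l 16681552)) (b (l 16714328) (l 16680928))) (c (b (l 16713920) (l 16680304)) (b (l 16713512) (l 16679672))))) (b (c (b (c (b (l 16777216) (l 16770376)) (b (l 16777216) (l 16770336))) (c (l 16746200) (l 16746000))) (b (c (l 16752792) (l 16752768)) (c (l 16745800) (l 16745608)))) (c (c (b (l 16713096)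 (l 16679048)) (b (l 16712688) (l 16678416))) (c (l 16674160) (l 16673640))))) (c (c (b (b (l 16647000) (l 16611776)) (l 16557016)) (b (b (l 16645296) (l 16609608)) (l 16554136))) (c (b (c (l 16626096) (l 16625136)) (l 16530288)) (b (c (l 16624168) (l 16623200)) (l 16527408)))))), by decide +kernel⟩

def k13_pm_123 : ∃ t, chk3 f_pm_123 t 22 6 1 = true :=
  ⟨(a (b (b (l 14) (b (l 14) (c (c (c (l 16777200) (l 16777200)) (c (l 16777200) (l 16777200))) (c (c (l 16777200) (l 16777200)) (c (l 16777192) (l 16777192)))))) (b (c (b (c (b (b (l 16777200) (l 16749568)) (a (l 16725928) (l 16725936))) (b (b (l 16777200) (l 16749480)) (c (l 16746608) (l 16746408)))) (c (b (c (l 16714744) (l 16714336)) (c (l 16681560) (l 16680936))) (b (c (l 16713928) (l 16713512)) (c (l 16680304) (l 16679680))))) (b (c (b (b (l 16777200) (l 16749400)) (c (l 16746208) (l 16746008))) (b (b (l 16777200) (l 16770280)) (c (l 16745816) (l 16745616)))) (c (c (b (l 16713104) (l 16679048)) (b (l 16712696) (l 16678424))) (c (l 16653192) (l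 16673648))))) (c (b (c (b (l 16647000) (l 16611776)) (b (l 16624328) (l 16609616))) (c (l 16557016) (l 16533168))) (c (b (b (l 16643592) (l 16607448)) (l 16530288)) (b (b (l 16641896) (l 16605288)) (l 16548376)))))) (b (l 14) (b (b (b (b (l 14) (c (c (l 16770560) (l 16770472)) (c (l 16770384) (l 16770304)))) (c (c (l 16731192) (c (l 16746624) (l 16746424))) (c (c (l 16746224) (l 16746032)) (l 16724760)))) (c (c (b (c (l 16714760) (l 16714352)) (c (l 16681576) (l 16680944))) (c (b (l 16713944) (l 16680320)) (b (l 16713536) (l 16679696)))) (c (c (l 16654240) (l 16653728)) (c (l 16674184) (l 16673664))))) (c (b (c (b (l 16647016) (l 16611784)) (b (l 16645312) (l 16609624))) (c (b (l 16575552) (l 16538296)) (b (l 16572920) (l 16535176)))) (c (b (b (l 16643608) (l 16607464)) (b (l 16570288) (l 16532048))) (b (b (l 16641912) (l 16605304)) (b (l 16567648) (l 16528928)))))))), by decide +kernel⟩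

def k14_pm_123 : ∃ t, chk3 f_pm_123 t 23 6 1 = true :=
  ⟨(b (l 14) (a (b (b (l 14) (c (c (b (l 16698840) (c (l 16681592) (l 16680960))) (c (b (l 16713960) (l 16680336)) (l 16665264))) (c (c (l 16654264) (l 16653744)) (c (l 16674200) (l 16673680))))) (c (b (c (b (l 16647032) (l 16611800)) (b (l 16645328) (l 16609640))) (c (b (l 16575576) (l 16538312)) (b (l 16572936) (l 16535192)))) (c (b (b (l 16643632) (l 16607480)) (b (l 16570304) (l 16532072))) (b (c (l 16624200) (l 16623240)) (b (l 16567672) (l 16528944)))))) (b (l 14) (b (b (a (c (c (l 16647040) (l 16645344)) (c (l 16643640) (l 16641944))) (l 14)) (c (c (l 16611816) (l 16609656)) (c (l 16586528) (l 16605336)))) (c (c (b (l 16575584) (l 16538328)) (b (l 16572952) (l 16535208))) (c (b (l 16570320) (l 16532088)) (b (l 16567688) (l 16528968)))))))), by decide +kernel⟩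

def k15_pm_123 : ∃ t, chk3 f_pm_123 t 4 14 1 = true :=
  ⟨(c (a (b (c (a (b (l 16480376) (l 16399336)) (b (l 16480376) (l 16399336))) (a (b (l 16476496) (l 16394400)) (b (l 16476496) (l 16394400)))) (c (a (b (l 16309592) (l 16202744)) (b (l 16309592) (l 16202744))) (b (b (l 16329112) (a (l 16277592) (l 16277592))) (a (l 16195232) (l 16195232))))) (b (c (a (b (l 16480376) (l 16399336)) (b (l 16480376) (l 16399336))) (a (b (l 16476496) (l 16394400)) (b (l 16476496) (l 16394400)))) (a (c (b (l 16309592) (l 16202744)) (b (l 16303480) (l 16195232))) (b (l 16306536) (l 16198992))))) (a (b (c (a (b (c (l 16473584) (l 16471648)) (c (l 16390696) (l 16388224))) (b (c (l 16473584) (l 16471648)) (l 16389456))) (a (b (c (l 16469704) (a (l 16467768) (l 16467768))) (c (l 16385752) (l 16383280))) (b (c (l 16469704) (a (l 16467768) (l 16467768))) (c (l 16385752) (l 16383280))))) (c (a (b (b (l 16323336) (l 16271152)) (l 16187728)) (b (b (l 16323336) (l 16271152)) (l 16187728))) (a (b (b (l 16296576) (c (l 16266312)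 (l 16263088))) (c (l 16182096) (l 16178336))) (b (a (b (l 16317552) (l 16264704)) (l 16291256)) (a (l 16180216) (l 16180216)))))) (b (c (a (b (c (l 16473584) (l 16471648)) (l 16368488)) (b (l 16451648) (l 16389456))) (a (b (a (c (l 16469704) (l 16467768)) (l 16468736)) (c (l 16385752) (l 16383280))) (b (c (l 16469704) (l 16467768)) (c (l 16385752) (l 16383280))))) (a (c (b (a (l 16297368) (l 16297368)) (l 16187728)) (b (a (l 16291256) (l 16291256)) (a (l 16180216) (l 16180216)))) (b (c (l 16297368) (l 16291256)) (c (l 16187728) (l 16180216))))))), by decide +kernel⟩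

def k16_pm_123 : ∃ t, chk3 f_pm_123 t 4 15 1 = true :=
  ⟨(c (a (b (c (a (b (l 16098872) (l 15992968)) (b (l 16098872) (l 15992968))) (a (b (l 16084920) (l 15992768)) (b (l 16084920) (l 15992768)))) (c (b (c (l 15886432) (l 15887792)) (l 15807104)) (b (a (l 15870600) (b (l 15918304) (l 15862944))) (c (l 15798352) (l 15793576))))) (b (c (a (l 16045240) (l 16045240)) (a (l 15981248) (l 16044168))) (c (a (b (l 15887744) (l 15807104)) (l 15849384)) (a (b (b (l 15918304) (l 15862944)) (l 15775496)) (b (l 15891568) (l 15796464)))))) (b (a (c (a (b (l 16075984) (l 15985696)) (b (l 16075984) (l 15985696))) (a (c (b (l 16069288) (l 15978136)) (b (a (l 16064816) (l 16064816)) (l 15973088))) (c (b (l 16069288) (l 15978136)) (b (l 16064816) (l 15973088))))) (a (c (b (l 16075984) (l 15985696)) (a (l 15937880) (l 16021768))) (c (l 16031272) (b (l 16067056) (l 15975608))))) (a (c (b (c (a (l 15893760) (l 15893760)) (l 15891472)) (c (b (l 15810928) (l 15768368)) (a (b (l 15812696) (l 15763000)) (b (l 15812696) (l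 15763000))))) (b (a (c (l 15886168) (l 15880544)) (c (l 15886168) (l 15880544))) (c (a (b (l 15812840) (c (l 15760016) (l 15759272))) (b (l 15812840) (l 15760216))) (a (b (l 15807784) (c (l 15758808) (b (l 15768672) (l 15743784)))) (b (l 15807784) (c (l 15758808) (l 15757728))))))) (c (b (a (l 15892544) (l 15892544)) (a (c (l 15790584) (b (l 15812696) (l 15763000))) (c (l 15790584) (l 15789176)))) (a (b (a (l 15883352) (l 15883352)) (c (b (l 15812840) (l 15760216)) (c (l 15744768) (l 15784176)))) (b (l 15883352) (c (l 15788344) (l 15765344)))))))), by decide +kernel⟩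

def k17_pm_123 : ∃ t, chk3 f_pm_123 t 5 14 1 = true :=
  ⟨(c (a (b (c (a (b (l 16480376) (l 16399336)) (b (l 16480376) (l 16399336))) (a (b (l 16476496) (l 16394400)) (b (l 16476496) (l 16394400)))) (b (a (l 16285568) (c (l 16309592) (l 16303480))) (a (c (l 16202744) (l 16195232)) (c (l 16202744) (l 16195232))))) (b (a (b (c (a (l 16480376) (l 16480376)) (a (l 16476496) (l 16476496))) (c (l 16399336) (l 16394400))) (b (c (a (l 16480392) (l 16501376)) (a (l 16476512) (b (l 16496392) (l 16456472)))) (c (a (l 16399344) (l 16399360)) (b (l 16415416) (l 16373208))))) (b (a (c (l 16309592) (l 16303480)) (c (l 16330576) (l 16303488))) (a (b (l 16226688) (l 16171016)) (l 16198992))))) (a (b (c (a (b (l 16472616) (l 16389456)) (b (a (l 16472616) (l 16472616)) (l 16389456))) (a (b (c (l 16469704) (l 16467768)) (l 16363544)) (b (a (l 16468736) (l 16468736)) (l 16384520)))) (b (c (a (l 16297368) (l 16297368)) (a (l 16291256) (l 16291256))) (a (c (l 16187728) (l 16180216)) (c (l 16187728) (l 16180216))))) (b (b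 (a (c (a (l 16472616) (l 16472616)) (a (l 16468736) (l 16468736))) (c (a (l 16472632) (l 16451680)) (a (l 16468752) (l 16468776)))) (a (c (l 16389456) (l 16384520)) (c (b (l 16410744) (l 16367992)) (b (l 16406080) (l 16362784))))) (a (b (c (l 16297368) (l 16291256)) (b (l 16212392) (l 16155272))) (b (c (l 16297376) (l 16291264)) (l 16183976)))))), by decide +kernel⟩

def k18_pm_123 : ∃ t, chk3 f_pm_123 t 5 15 1 = true :=
  ⟨(c (b (a (c (b (l 16098872) (l 15992968)) (b (l 16084920) (l 15992768))) (b (a (l 16088264) (l 16088264)) (c (l 15930056) (l 15992768)))) (a (b (c (l 15866768) (a (l 15891568) (l 15891568))) (c (l 15807104) (l 15796464))) (b (c (l 15824824) (b (l 15918304) (l 15862944))) (a (l 15802400) (l 15802400))))) (a (b (a (c (l 16031272) (l 16021768)) (c (l 16031272) (l 16021768))) (c (b (a (l 15892544) (l 15892544)) (a (l 15791016) (l 15791016))) (b (a (l 15883352) (l 15883352)) (a (b (l 15809760) (l 15760256)) (b (l 15809760) (l 15760256)))))) (b (a (b (l 16071520) (l 15980656)) (b (l 16071520)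 (l 15980656))) (b (c (l 15892544) (l 15883352)) (c (a (l 15791016) (l 15791016)) (b (l 15809760) (l 15760256))))))), by decide +kernel⟩

def k19_pm_123 : ∃ t, chk3 f_pm_123 t 3 2 1 = true :=
  ⟨(l 14), by decide +kernel⟩

def k20_pm_123 : ∃ t, chk3 f_pm_123 t 6 6 1 = true :=
  ⟨(b (l 14) (b (l 14) (b (l 14) (a (a (a (a (c (c (b (l 16575600) (l 16538336)) (b (l 16572968) (l 16535216))) (c (b (l 16570336) (l 16532096)) (b (l 16567704) (l 16528976)))) (l 14)) (l 14)) (l 14)) (l 14))))), by decide +kernel⟩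

def k21_pm_123 : ∃ t, chk3 f_pm_123 t 24 7 1 = true :=
  ⟨(b (b (a (c (b (c (a (l 16480416) (l 16522368)) (b (l 16496408) (l 16456488))) (c (b (l 16420104) (l 16378440)) (b (l 16415440) (l 16373232)))) (b (c (b (l 16492784) (l 16452352)) (b (l 16489160) (l 16448216))) (c (b (l 16410776) (l 16368024)) (l 16384568)))) (b (b (l 14) (a (c (c (l 16460632) (l 16456496)) (c (l 16452360) (l 16448232))) (l 14))) (c (c (b (c (l 16421280) (l 16418952)) (l 16378456)) (b (l 16415456) (l 16373248))) (c (b (l 16410792) (l 16368040)) (b (l 16406128) (l 16362832)))))) (c (b (a (c (l 16309624) (l 16303512)) (b (c (l 16334944) (l 16329168)) (l 16301840))) (c (l 16223744) (l 16195264))) (b (c (b (l 16323384) (l 16271192)) (b (l 16317600) (l 16264752))) (c (l 16187760) (l 16180256))))) (b (c (b (b (a (l 16113800) (l 16113816)) (l 16065304)) (c (l 15992984) (l 15992784))) (b (c (l 16076008) (l 16067080)) (l 15980672))) (c (b (c (l 15887744) (l 15891576)) (c (l 15807104) (l 15796464))) (b (l 15886912) (c (l 15791016) (l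 15788360)))))), by decide +kernel⟩

def k22_pm_123 : ∃ t, chk3 f_pm_123 t 25 7 1 = true :=
  ⟨(b (a (b (b (l 14) (b (l 14) (c (c (c (l 16379768) (l 16377160)) (l 16373256)) (c (l 16368048) (l 16362840))))) (c (b (c (b (l 16334952) (l 16284096)) (b (l 16329176) (l 16277656))) (c (l 16202792) (l 16195288))) (b (c (b (l 16323400) (l 16271216)) (l 16291328)) (c (l 16187784) (l 16180280))))) (b (l 14) (b (b (l 14) (c (c (l 16284096) (l 16277656)) (c (l 16271216) (l 16264776)))) (c (c (l 16223776) (l 16195296)) (c (l 16187792) (l 16180288)))))) (b (c (b (b (c (l 16118144) (l 16109528)) (c (l 16069568) (l 16060176))) (c (a (l 15993008) (l 15993016)) (l 15992816))) (b (b (l 16096616) (l 16046304)) (l 15980704))) (c (b (c (l 15887776) (l 15891608)) (c (l 15807128) (l 15796496))) (b (c (l 15892584) (l 15883400)) (c (l 15791040) (l 15788384)))))), by decide +kernel⟩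

def k23_pm_123 : ∃ t, chk3 f_pm_123 t 13 7 1 = true :=
  ⟨(a (b (a (b (l 14) (b (l 14) (b (l 14) (c (l 16171056) (l 16155320))))) (l 14)) (b (c (b (a (b (l 16113832) (l 16065344)) (b (l 14) (l 16065312))) (c (a (l 15993024) (b (l 16019872) (l 15966224))) (b (l 16017608) (l 15968896)))) (b (a (b (l 16096608) (l 16046312)) (l 16071552)) (c (l 15985752) (l 15975672)))) (c (b (c (b (l 15910488) (l 15861504)) (b (l 15918368) (l 15863008))) (c (l 15807160) (l 15796528))) (b (c (l 15892608) (l 15883424)) (c (l 15728168) (b (l 15809832) (l 15760328))))))) (b (l 14) (b (l 14) (a (c (b (c (l 15887768) (l 15891600)) (l 15802448)) (b (l 15824024) (c (l 15791072) (l 15788416)))) (b (l 14) (c (a (l 15800016) (l 15772168)) (c (b (l 15793592) (l 15744864)) (b (l 15788144) (l 15736688))))))))), by decide +kernel⟩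

def k24_pm_123 : ∃ t, chk3 f_pm_123 t 7 3 1 = true :=
  ⟨(b (l 14) (a (l 14) (l 14))), by decide +kernel⟩

theorem s25_pm_123 : ∃ t, chk3 f_pm_123 t 12 7 1 = true := ex3_a k21_pm_123 k22_pm_123

theorem s26_pm_123 : ∃ t, chk3 f_pm_123 t 6 7 1 = true := ex3_a s25_pm_123 k23_pm_123

theorem s27_pm_123 : ∃ t, chk3 f_pm_123 t 6 3 1 = true := ex3_b k20_pm_123 s26_pm_123

theorem s28_pm_123 : ∃ t, chk3 f_pm_123 t 3 3 1 = true := ex3_a s27_pm_123 k24_pm_123

theorem s29_pm_123 : ∃ t, chk3 f_pm_123 t 3 1 1 = true := ex3_b k19_pm_123 s28_pm_123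

theorem s30_pm_123 : ∃ t, chk3 f_pm_123 t 5 7 1 = true := ex3_b k17_pm_123 k18_pm_123

theorem s31_pm_123 : ∃ t, chk3 f_pm_123 t 4 7 1 = true := ex3_b k15_pm_123 k16_pm_123

theorem s32_pm_123 : ∃ t, chk3 f_pm_123 t 2 7 1 = true := ex3_a s31_pm_123 s30_pm_123

theorem s33_pm_123 : ∃ t, chk3 f_pm_123 t 11 6 1 = true := ex3_a k13_pm_123 k14_pm_123

theorem s34_pm_123 : ∃ t, chk3 f_pm_123 t 21 6 1 = true := ex3_a k11_pm_123 k12_pm_123

theorem s35_pm_123 : ∃ t, chk3 f_pm_123 t 10 6 1 = true := ex3_a k10_pm_123 s34_pm_123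

theorem s36_pm_123 : ∃ t, chk3 f_pm_123 t 5 6 1 = true := ex3_a s35_pm_123 s33_pm_123

theorem s37_pm_123 : ∃ t, chk3 f_pm_123 t 4 13 3 = true := ex3_a k8_pm_123 k9_pm_123

theorem s38_pm_123 : ∃ t, chk3 f_pm_123 t 4 13 1 = true := ex3_c k7_pm_123 s37_pm_123

theorem s39_pm_123 : ∃ t, chk3 f_pm_123 t 4 12 1 = true := ex3_c k5_pm_123 k6_pm_123

theorem s40_pm_123 : ∃ t, chk3 f_pm_123 t 4 6 1 = true := ex3_b s39_pm_123 s38_pm_123

theorem s41_pm_123 : ∃ t, chk3 f_pm_123 t 2 6 1 = true := ex3_a s40_pm_123 s36_pm_123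

theorem s42_pm_123 : ∃ t, chk3 f_pm_123 t 2 3 1 = true := ex3_b s41_pm_123 s32_pm_123

theorem s43_pm_123 : ∃ t, chk3 f_pm_123 t 8 5 1 = true := ex3_b k1_pm_123 k2_pm_123

theorem s44_pm_123 : ∃ t, chk3 f_pm_123 t 4 5 1 = true := ex3_a s43_pm_123 k3_pm_123

theorem s45_pm_123 : ∃ t, chk3 f_pm_123 t 4 2 1 = true := ex3_b k0_pm_123 s44_pm_123

theorem s46_pm_123 : ∃ t, chk3 f_pm_123 t 2 2 1 = true := ex3_a s45_pm_123 k4_pm_123

theorem s47_pm_123 : ∃ t, chk3 f_pm_123 t 2 1 1 = true := ex3_b s46_pm_123 s42_pm_123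

theorem s48_pm_123 : ∃ t, chk3 f_pm_123 t 1 1 1 = true := ex3_a s47_pm_123 s29_pm_123

theorem c_pm_123 : CertFX 536870912 536870912 0 536870912 1046898278 26843546 true true false .npn 1 2 3
    ndF0q1 ndF0q2 pcF3 cut_pm_123 Ext.none :=
  certFX0 (fam := true) (s1 := true) (s2 := false) (a := 1) (b := 2) (c := 3) (cn := .npn) (n1 := ndF0q1) (n2 := ndF0q2) (pc := pcF3) (cut := cut_pm_123) (xt := Ext.none) (P1 := 536870912) (W1 := 536870912) (P2 := 0) (W2 := 536870912) (P3 := 1046898278) (W3 := 26843546)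
    rfl s48_pm_123

noncomputable def cut_pm_202 : Cut := Cut.of [[⟨3, 0, 0, 1449551462⟩], [⟨4, 0, 0, 2845415833⟩], [⟨0, 1, 0, 67108864⟩, ⟨1, 0, 0, 67108864⟩, ⟨2, 1, 0, 67108864⟩, ⟨3, 0, 0, 1233125376⟩]]

noncomputable def f_pm_202 : ℕ → ℕ → ℕ → ℕ → Bool := onCell 0 536870912 1073741824 536870912 1046898278 26843546
    (rowFX 1 true true false .pp 2 0 2 (qsf 0 536870912 0 536870912 2) ndF0q2 ndF0q0 pcF2 cut_pm_202 Ext.none)

def k0_pm_202 : ∃ t, chk3 f_pm_202 t 1 4 1 = true :=
  ⟨(a (b (l 1) (a (l 1) (b (l 1) (a (l 1) (a (l 1) (b (l 1) (c (l 357588716247) (b (l 1) (c (l 16454336) (a (l 16434520) (l 16439040))))))))))) (a (b (l 1) (a (b (l 1) (a (a (b (l 1) (c (l 16414480) (c (l 16415416) (b (l 16372304) (l 16429424))))) (c (b (l 16249000) (l 16416400)) (b (l 16094696) (c (l 16362024) (c (l 16308336) (l 16316912)))))) (c (b (l 16231616) (a (l 16423768) (l 16358792))) (b (c (l 16208424) (b (l 16138296) (a (l 16293168) (c (l 16388872) (l 16376392))))) (b (c (l 16312944) (a (l 16379368) (l 16484040)))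 (c (a (l 16390192) (l 16373280)) (l 16355736))))))) (a (b (a (a (l 1) (b (l 1) (c (l 16163056) (l 16027392)))) (l 6)) (c (b (a (l 16298456) (a (l 16361792) (l 16339184))) (a (c (l 16428104) (l 16262024)) (c (l 16268696) (l 16154392)))) (b (c (a (b (l 16333472) (l 16355000)) (a (l 16293264) (l 16319808))) (a (b (l 16132712) (l 16332032)) (b (l 16306328) (l 16513864)))) (c (a (c (l 16241872) (l 16254808)) (l 16174336)) (a (l 16311720) (l 16314936)))))) (b (l 6) (b (a (a (b (l 6) (c (l 16411400) (l 16352504))) (l 6)) (l 6)) (a (c (c (c (l 16165808) (l 16171840)) (b (l 16264832) (l 16199160))) (c (l 16209920) (l 16245440))) (b (l 6) (a (c (c (c (a (l 16169616) (l 16148712)) (l 16031576)) (c (l 16118496) (l 16107008))) (c (l 16101528) (l 16094016))) (l 6))))))))) (l 6))), by decide +kernel⟩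

def k1_pm_202 : ∃ t, chk3 f_pm_202 t 4 10 1 = true :=
  ⟨(b (b (l 1) (c (a (a (l 16117520) (l 16131272)) (a (l 16172728) (l 16199952))) (a (c (l 16129472) (b (l 1) (l 16038088))) (c (a (l 16251968) (l 16218656)) (b (a (l 1) (l 16375608)) (a (l 16183800) (l 16198064))))))) (c (a (c (b (l 15814888) (a (l 15701816) (l 15727200))) (b (l 15893704) (c (l 15723648) (l 15733424)))) (c (b (a (l 15989712) (l 16033488)) (a (l 15762840) (l 15810648))) (b (a (l 15988376) (l 16037424)) (a (l 15780448) (l 15747968))))) (a (c (b (c (l 15936032) (l 15878792)) (c (l 15744848) (l 15749184))) (b (c (l 15886104) (l 15953808)) (l 15743688))) (c (b (a (l 15830712) (b (l 16104528) (l 15996640))) (a (l 15798944) (l 15846008))) (b (a (l 15950872) (l 16046008)) (l 15816376)))))), by decide +kernel⟩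

def k2_pm_202 : ∃ t, chk3 f_pm_202 t 5 10 1 = true :=
  ⟨(a (b (b (b (l 1) (c (a (l 16452160) (l 16396808)) (a (b (l 1) (l 16405904)) (c (l 16437624) (a (l 16444392) (l 16317984)))))) (c (a (l 16234368) (l 16237648)) (a (c (l 16218656) (c (l 16183936) (l 16191560))) (c (c (l 16308240) (l 16233824)) (b (l 16324744) (l 16343832)))))) (c (b (c (a (l 16087376) (l 16155232)) (a (l 16057968) (b (l 16229248) (l 16120208)))) (c (a (l 15870376) (l 15923664)) (a (l 15874152) (l 15966528)))) (b (c (a (b (l 16173592) (l 16062416)) (l 16052600)) (a (l 16128488) (l 16202248))) (c (a (l 15903064) (l 15971808)) (l 15929272))))) (b (b (c (a (b (l 16496616) (l 16340696)) (c (l 16314824) (l 16267136))) (b (a (c (l 16496480) (l 16397088)) (c (l 16424248) (a (l 16386184) (l 16356928)))) (c (a (l 16312368) (a (l 16296504) (l 16201432))) (a (c (l 16241376) (l 16254472)) (c (l 16221048) (l 16324192)))))) (c (a (a (l 16335464) (l 16304032)) (c (l 16317592) (b (l 16332912) (l 16412640)))) (a (c (c (l 16279104) (l 16268840))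 (l 16259536)) (c (c (l 16260792) (l 16252280)) (l 16290344))))) (c (c (b (a (l 16158032) (b (l 16355640) (l 16267680))) (a (l 15927632) (l 16085568))) (a (b (b (l 16280216) (l 16211608)) (l 16047768)) (b (a (l 16261536) (l 16293456)) (l 16137992)))) (b (c (a (l 16181176) (l 16298632)) (l 16143696)) (a (l 16041744) (l 16127032)))))), by decide +kernel⟩

def k3_pm_202 : ∃ t, chk3 f_pm_202 t 2 11 1 = true :=
  ⟨(a (b (c (a (c (b (c (l 15542304) (l 15557160)) (a (l 15406160) (l 15420144))) (b (c (l 15567296) (l 15571816)) (l 15410912))) (c (b (a (l 15552000) (l 15618576)) (a (l 15444464) (l 15478392))) (b (a (l 15610392) (l 15651440)) (l 15455384)))) (a (a (l 15356976) (c (l 15485992) (l 15470192))) (a (c (l 15511776) (l 15496304)) (c (l 15547192) (l 15532160))))) (c (a (c (b (b (a (c (l 15338976) (l 15350656)) (l 15365112)) (l 15436936)) (l 15569600)) (b (a (l 15374760) (l 15386552)) (l 15553816))) (c (b (a (b (l 15386352) (l 15468288)) (l 15422392)) (l 15620088)) (b (a (l 15410304) (l 15447176)) (l 15604960))))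 (c (a (b (a (l 15356664) (l 15368616)) (l 15538032)) (b (a (l 15392664) (l 15430008)) (l 15589832))) (a (a (l 15427440) (l 15419184)) (a (l 15423504) (l 15399032)))))) (b (b (c (a (c (a (l 15693600) (l 15760216)) (l 15649968)) (a (c (l 15834928) (l 15830720)) (a (l 15894856) (l 15944792)))) (a (a (l 15686120) (l 15744488)) (a (l 15813720) (l 15818024)))) (a (c (c (a (l 15527520) (l 15583600)) (l 15546824)) (a (l 15490440) (l 15550736))) (c (a (l 15657408) (l 15752008)) (a (l 15628872) (l 15725880))))) (a (c (c (b (a (l 15515112) (l 15579368)) (l 15720296)) (a (l 15419208) (l 15504288))) (a (c (l 15529680) (l 15556272)) (c (l 15552672) (l 15559112)))) (c (a (b (c (l 15655960) (l 15641304)) (l 15816336)) (b (c (l 15744560) (l 15731064)) (l 15895584))) (a (b (c (l 15626648) (l 15611992)) (l 15791384)) (b (c (l 15717568) (l 15704072)) (l 15872688))))))), by decide +kernel⟩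

def k4_pm_202 : ∃ t, chk3 f_pm_202 t 12 10 1 = true :=
  ⟨(b (b (c (c (a (l 16228472) (b (l 16382520) (l 16187336))) (a (b (l 16384408) (a (l 16318696) (l 16282768))) (b (l 16210448) (a (l 16200368) (l 16200664))))) (c (a (b (c (l 16351712) (l 16297656)) (a (l 16230104) (l 16215384))) (b (l 16165736) (a (l 16219136) (l 16177832)))) (a (b (l 16290480) (l 16260160)) (l 16131096)))) (c (a (c (c (l 16285216) (l 16272720)) (b (l 16201752) (l 16345736))) (c (b (l 16215848) (l 16337656)) (a (l 16238144) (l 16242128)))) (a (c (c (l 16236688) (l 16295040)) (l 16292880)) (c (l 16250504) (l 16225392))))) (c (a (b (c (c (l 16286864) (l 16321928)) (l 16291792)) (c (l 16065144) (l 16233832))) (b (c (l 16355800) (l 16470872)) (l 16168064))) (b (a (l 16294480) (b (l 16440056) (l 16401792))) (a (a (l 16197072) (l 16229976)) (c (l 16266728) (l 16178712)))))), by decide +kernel⟩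

def k5_pm_202 : ∃ t, chk3 f_pm_202 t 13 20 1 = true :=
  ⟨(a (b (c (c (a (l 16051400) (b (l 16202992) (l 16061384))) (a (b (l 16257696) (l 16118536)) (l 15932512))) (a (c (l 16084032) (l 16099328)) (c (l 16085904) (l 16036384)))) (c (c (a (l 16164448) (l 16100320)) (l 15987768)) (a (l 16093024) (l 16010912)))) (b (a (c (c (b (l 16023120) (c (l 15948304) (l 15929168))) (l 15946088)) (c (l 15974464) (l 15944232))) (c (c (a (b (a (l 16006520) (c (l 15968120) (l 15967552))) (a (l 15861712) (c (b (l 15871568) (b (l 15817432) (l 15767016))) (l 15829416)))) (b (c (l 15985632) (l 15966864)) (b (l 15864912) (l 15797016)))) (a (b (l 15969944) (l 15793512)) (l 15888096))) (a (a (l 15896664) (c (l 15731880) (b (l 15937320) (a (l 15800896) (l 15790992))))) (c (l 15877328) (b (l 15938640) (l 15795040)))))) (b (a (c (l 15921368) (l 15942744)) (c (c (a (a (l 15896784) (a (l 15874904) (l 15777592))) (c (l 15855136) (l 15849384))) (a (l 15872776) (l 15840392))) (a (c (l 15840672) (b (l 15808944) (l 15891400))) (c (l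 15828896) (c (l 15820576) (l 15814816)))))) (a (c (l 16118136) (l 16102784)) (c (a (l 16025056) (c (b (b (l 15933568) (l 15965320)) (l 16013416)) (b (l 15939192) (l 16004008)))) (a (l 16006864) (c (b (l 15928952) (l 15994600)) (b (b (l 15902240) (l 15935216)) (l 15985192))))))))), by decide +kernel⟩

def k6_pm_202 : ∃ t, chk3 f_pm_202 t 13 21 1 = true :=
  ⟨(a (c (b (a (l 16343208) (l 16339736)) (l 16289960)) (b (a (a (l 16406224) (l 16399576)) (c (l 16356280) (l 16290416))) (c (l 16329408) (a (l 16365976) (l 16435696))))) (a (b (c (l 16302744) (l 16146184)) (c (l 16451056) (c (l 16470112) (l 16405920)))) (b (c (a (l 16226112) (c (b (l 16109392) (l 16235840)) (l 16166152))) (a (l 16150416) (c (l 16033056) (a (b (l 16093632) (l 16227576)) (l 16058304))))) (c (a (l 16439848) (c (c (l 16318304) (l 16379328)) (l 16376576))) (a (c (l 16456616) (l 16390896)) (c (l 16288904) (c (l 16265032) (b (l 16282184) (a (l 16487232) (l 16457448)))))))))), by decide +kernel⟩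

def k7_pm_202 : ∃ t, chk3 f_pm_202 t 7 20 1 = true :=
  ⟨(a (a (a (b (c (c (b (b (l 6) (l 15941560)) (b (l 15872696) (c (l 15807336) (l 15801208)))) (b (l 15964600) (l 15825960))) (c (b (l 15954840) (l 15751280)) (b (l 15945080) (c (l 15805368) (b (l 15836360) (l 15764432)))))) (c (b (c (c (l 15842624) (l 15836704)) (l 15827824)) (c (b (b (l 15904304) (l 15933032)) (l 15978072)) (l 15875128))) (b (c (l 15774040) (c (l 15807104) (a (l 15807632) (l 15794784)))) (c (b (l 15876104) (l 15958048)) (b (b (l 15850344) (l 15901192)) (l 15948032)))))) (b (l 6) (b (a (c (c (l 15819080) (l 15806856)) (c (l 15794632) (c (l 15785472) (l 15779360)))) (l 6)) (c (c (b (b (l 15857528) (l 15882280)) (l 15923544)) (b (l 15858320) (l 15912656))) (c (b (b (l 15833992) (l 15859400)) (l 15901760)) (b (b (c (l 15825168) (l 15819280)) (l 15847960)) (l 15890872))))))) (a (a (b (l 6) (b (l 6) (b (l 6) (c (c (l 15876704) (l 15865088)) (c (l 15853464) (l 15841840)))))) (l 6)) (l 6))) (l 6)), by decide +kernel⟩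

def k8_pm_202 : ∃ t, chk3 f_pm_202 t 7 21 1 = true :=
  ⟨(b (a (a (c (c (a (c (l 16128408) (l 16124400)) (c (l 16040728) (l 16057176))) (a (l 16118392) (l 16050384))) (c (a (l 16026504) (c (l 16043592) (l 16039072))) (a (c (l 16062440) (b (l 16038760) (l 16161448))) (c (l 15950656) (b (l 15973536) (l 16085944)))))) (a (c (c (b (l 15889120) (l 15990728)) (l 15909656)) (c (c (l 15964912) (l 15917864)) (c (b (l 15901032) (l 16006480)) (b (l 15832656) (a (l 16024808) (l 15977328)))))) (b (l 6) (c (c (l 15895928) (l 15926960)) (c (l 15916056) (c (l 15907880) (l 15902424))))))) (l 6)) (a (c (a (c (c (a (l 16298352) (l 16239232)) (l 16110232)) (a (l 16334368) (l 16273712))) (c (a (c (l 16150872) (l 16189176)) (c (l 16043624) (l 16081152))) (a (l 16183720) (l 16074528)))) (a (c (a (l 16224768) (l 16099976)) (c (a (l 16221208) (l 16137440)) (a (b (l 16282352) (l 16321304)) (b (l 16137528) (l 16276912))))) (c (a (l 16008664) (l 15918896)) (a (c (l 16066120) (b (l 16069952) (l 16159312))) (c (l 15996160) (b (l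 16004352) (l 16083464))))))) (a (a (c (c (a (l 15933080) (c (l 15946976) (l 15941624))) (l 15959864)) (c (c (l 15952024) (l 15946792)) (c (l 15857680) (a (l 15900320) (l 15888160))))) (l 6)) (l 6)))), by decide +kernel⟩

def k9_pm_202 : ∃ t, chk3 f_pm_202 t 6 22 1 = true :=
  ⟨(a (c (a (b (l 16009416) (l 15859712)) (b (l 16096272) (l 15894016))) (a (b (a (l 15980672) (l 16043176)) (c (l 15842168) (l 15830472))) (c (b (l 16148144) (l 15962616)) (b (l 16077864) (a (l 15921128) (l 15984064)))))) (a (c (b (a (l 16276256) (l 16396560)) (a (l 16081936) (l 16187800))) (b (c (l 16161304) (a (l 16177720) (l 16239376))) (c (a (l 16068680) (l 16176776)) (a (a (l 16034336) (l 16086328)) (c (l 16171256) (l 16041752)))))) (c (a (b (l 16435520) (l 16296008)) (c (a (l 16285256) (b (l 16503448) (l 16394600))) (b (l 16472544) (l 16341568)))) (c (a (a (l 16160288) (l 16219808)) (a (l 16258608) (b (l 16503408) (l 16345144)))) (b (a (b (l 16488208) (l 16394456)) (a (l 16462760) (c (l 16482360) (a (l 16510384) (b (l 16525264)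 (l 16561296)))))) (b (a (l 16297664) (a (l 16426784) (a (l 16471088) (b (l 16510384) (l 16470288))))) (c (l 16261584) (a (l 16222664) (l 16273168))))))))), by decide +kernel⟩

def k10_pm_202 : ∃ t, chk3 f_pm_202 t 6 23 1 = true :=
  ⟨(b (a (c (a (c (l 15841056) (l 15828816)) (c (l 15941440) (l 15930520))) (a (c (l 15711728) (b (l 15681656) (l 15844664))) (c (b (l 15885056) (l 15954328)) (b (a (l 15847216) (l 15900336)) (l 15943848))))) (c (a (c (l 16078344) (l 15964424)) (c (l 16279904) (l 16273728))) (a (c (a (l 16010328) (l 16109632)) (a (b (a (l 15942920) (l 15990416)) (l 16034168)) (b (b (b (l 16049528) (l 16057640)) (l 16083192)) (l 16133816)))) (a (c (l 16213736) (b (c (l 16176888) (b (b (l 16155144) (l 16162664)) (l 16187480))) (l 16238272))) (c (l 16320816) (b (b (b (b (l 16271984) (l 16200496)) (l 16274544)) (l 16298432)) (l 16324760))))))) (a (c (a (l 15980024) (l 16071472)) (a (c (l 15964496) (l 15954144)) (c (l 16057728) (l 16048560)))) (c (a (c (l 16207216) (l 16199840)) (l 16356136)) (a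 (c (l 16171488) (a (l 16136528) (l 16233144))) (c (l 16370256) (a (l 16313392) (l 16354536))))))), by decide +kernel⟩

def k11_pm_202 : ∃ t, chk3 f_pm_202 t 14 22 1 = true :=
  ⟨(c (a (b (c (c (l 16321880) (l 16362872)) (l 16319552)) (c (b (l 16433320) (l 16388064)) (a (l 16429432) (l 16554680)))) (b (c (a (l 16250928) (l 16102960)) (a (l 16372536) (l 16264680))) (c (a (l 16428304) (l 16324464)) (l 16290920)))) (a (c (b (c (l 16360024) (l 16317128)) (a (c (l 16427480) (l 16384264)) (l 16448976))) (b (c (a (l 16427992) (l 16371232)) (b (a (l 16447880) (l 16353416)) (a (l 16532168) (l 16427784)))) (c (a (b (l 16504296) (l 16408960)) (l 16448344)) (b (a (b (l 16533000) (l 16452976)) (a (l 16560456) (l 16554208))) (a (a (b (l 16451000) (l 16329152)) (l 16413768)) (a (l 16448752) (b (l 16574128) (l 16541592)))))))) (b (c (a (l 16263464) (l 16174744)) (c (a (l 16260304) (l 16191176)) (a (b (l 16225720) (c (l 16416376) (l 16373576))) (b (l 16181680) (l 16236048))))) (c (c (l 16310272) (l 16267248)) (a (c (l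 16425336) (b (a (l 16513336) (l 16463936)) (a (l 16542088) (l 16521752)))) (c (l 16315568) (c (l 16293384) (b (l 16329920) (l 16380552))))))))), by decide +kernel⟩

def k12_pm_202 : ∃ t, chk3 f_pm_202 t 14 23 1 = true :=
  ⟨(b (c (a (c (b (b (b (l 16366000) (l 16455976)) (l 16477584)) (l 16499336)) (b (b (l 16344576) (l 16474440)) (l 16496816))) (c (b (a (l 16529400) (a (l 16570824) (l 16489840))) (l 16431640)) (b (l 16398744) (l 16471976)))) (b (b (b (a (a (c (l 16385464) (c (l 16382160) (b (c (l 16384808) (l 16341784)) (c (l 16376216) (a (b (l 16345104) (l 16347264)) (l 16403864)))))) (c (l 16499480) (c (l 16497488) (b (l 16458232) (a (l 16441648) (l 16500544)))))) (c (l 16434288) (a (c (l 16555048) (b (l 16558440) (a (l 16560512) (l 16604168)))) (c (l 16498960) (b (l 16494880) (l 16459424)))))) (a (c (l 16449064) (c (l 16404536) (a (c (l 16386928) (l 16322936)) (l 16460520)))) (c (l 16490792) (c (l 16469376) (a (l 16560840) (l 16491344)))))) (c (a (l 16429352) (l 16448880)) (c (a (l 16385048) (l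 16448176)) (a (a (a (l 16380936) (l 16437848)) (l 16482672)) (a (l 16561008) (l 16469976)))))) (c (a (l 16410400) (l 16407456)) (c (a (l 16366568) (l 16406256)) (a (a (a (l 16385120) (l 16483072)) (a (l 16539712) (l 16575992))) (a (l 16528872) (l 16406744))))))) (c (a (c (l 16540880) (l 16518632)) (c (l 16374312) (l 16350408))) (a (a (c (l 16505336) (c (l 16482736) (c (l 16460952) (a (l 16454168) (l 16529424))))) (c (l 16612568) (c (l 16591352) (l 16528280)))) (a (c (l 16490432) (c (l 16489104) (a (l 16527312) (l 16469832)))) (c (l 16371184) (c (l 16368120) (c (l 16345616) (l 16281680)))))))), by decide +kernel⟩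

def k13_pm_202 : ∃ t, chk3 f_pm_202 t 30 11 1 = true :=
  ⟨(b (c (a (c (b (c (l 16059672) (l 16136200)) (c (l 16240592) (l 16297408))) (b (l 16130240) (l 16293336))) (a (c (c (b (b (l 16007496) (l 16082216)) (l 16106920)) (b (l 15987096) (l 16195808))) (l 15928864)) (c (c (b (l 15972648) (l 16108592)) (b (l 15874128) (l 16116808))) (c (b (l 15941904) (l 16121000)) (l 16051808))))) (c (b (a (l 16059376) (l 16003608)) (a (l 16224992) (l 16149488))) (b (a (c (l 16053416) (a (l 16060480) (l 16059080))) (c (l 15996392) (b (l 15953312) (l 16029384)))) (c (a (l 16199944) (l 16143952)) (a (c (l 16135000) (a (l 16233648) (l 16201128))) (b (l 16103728) (l 16155360))))))) (c (c (b (b (b (a (l 16259392) (b (b (l 16223664) (l 16165176)) (l 16218480))) (a (l 16361472) (l 16198184))) (a (l 16321352) (l 16158064))) (a (l 16242992) (l 16079728))) (b (a (l 16295520) (b (b (b (l 16229824) (l 16222080)) (l 16201456)) (l 16160680))) (l 15972888))) (c (b (b (a (l 16275840) (l 16210208)) (l 16168776)) (a (l 16225080) (l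 16075448))) (b (c (b (a (b (l 16327000) (l 16344136)) (l 16184424)) (l 16122184)) (b (a (b (b (a (l 16389328) (l 16330520)) (l 16342296)) (l 16320920)) (b (b (l 16176800) (l 16210960)) (l 16189584))) (a (l 16236712) (l 16147328)))) (c (a (l 16220248) (l 16069008)) (a (a (l 16214960) (l 16155904)) (c (l 16065792) (l 16021704)))))))), by decide +kernel⟩

def k14_pm_202 : ∃ t, chk3 f_pm_202 t 31 22 1 = true :=
  ⟨(b (b (l 6) (a (a (c (c (l 15936792) (a (l 15965824) (l 15925944))) (c (l 15945680) (l 15934936))) (l 6)) (l 6))) (a (c (c (c (l 15867968) (l 15996072)) (c (l 15914352) (l 15856168))) (c (a (l 16043328) (c (l 15965048) (l 15842832))) (c (l 15999032) (b (l 15962816) (l 16025416))))) (a (c (c (l 15890376) (l 15882232)) (c (c (l 15880136) (c (l 15881136) (l 15883224))) (c (b (l 15815832) (l 15911128)) (l 15878704)))) (b (l 6) (b (l 6) (c (l 15858888) (c (l 15842352) (c (l 15837544) (c (l 15836816) (l 15835984)))))))))), by decide +kernel⟩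

def k15_pm_202 : ∃ t, chk3 f_pm_202 t 31 23 1 = true :=
  ⟨(c (b (a (c (b (b (b (c (l 16057536) (l 16060344)) (l 16051696)) (l 16031416)) (l 15991320)) (b (b (b (c (l 16063816) (l 16068560)) (l 16058296)) (l 16037680)) (l 15996912))) (c (b (b (b (l 15913472) (l 15905112)) (l 15884840)) (l 15846984)) (b (b (l 15900384) (l 15875528)) (l 15837024)))) (a (c (b (l 15939048) (l 15901960)) (a (l 15962688) (l 15885216))) (c (l 15813056) (l 15802520)))) (c (b (a (b (a (l 16095672) (b (b (l 16006936) (l 16019512)) (l 15998560))) (l 15978688)) (a (c (l 15894024) (b (b (b (l 15940680) (l 15932136)) (l 15911104)) (l 15869520))) (b (b (l 15854080) (l 15828760)) (l 15790528)))) (a (a (l 15963368) (c (l 15890064) (l 15890440))) (a (c (l 15818488) (a (l 15835536) (l 15801112))) (l 15766512)))) (a (b (b (b (b (a (l 16104064) (l 16023456)) (l 16055616)) (l 16034328)) (l 15908352)) (b (c (l 15939912) (l 15934728)) (c (l 15901064) (a (b (l 15934200) (l 15913352)) (l 15860792))))) (b (b (c (b (b (a (l 15941920) (a (l 15874000)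 (l 15832016))) (a (l 15933256) (l 15844936))) (a (l 15912056) (l 15823736))) (a (l 15920624) (b (b (b (c (l 15851720) (l 15851000)) (c (l 15854256) (l 15853560))) (c (l 15844040) (l 15843312))) (c (l 15822712) (l 15821896))))) (a (c (l 15870128) (l 15865544)) (c (a (l 15802336) (l 15763992)) (a (l 15800880) (c (l 15761168) (l 15760496)))))) (a (c (b (l 15825256) (l 15812840)) (b (l 15820304) (l 15807784))) (c (a (l 15771992) (l 15747456)) (a (c (l 15771888) (l 15769248)) (c (l 15744528) (l 15743784))))))))), by decide +kernel⟩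

def k16_pm_202 : ∃ t, chk3 f_pm_202 t 4 3 1 = true :=
  ⟨(b (b (c (a (b (a (b (l 15728856) (l 15891616)) (c (l 15826968) (l 15814552))) (a (c (l 16102464) (l 16093648)) (l 16104576))) (c (b (a (l 15849168) (l 15881992)) (l 16142760)) (b (l 15790736) (l 16134472)))) (a (b (a (c (l 15793048) (l 15780512)) (l 15795912)) (a (l 15975568) (l 16087104))) (c (b (l 15841736) (l 16126176)) (b (l 15829816) (l 16117880))))) (c (a (b (a (b (l 16290376) (l 16413304)) (l 16339864)) (a (l 16591120) (l 16536520))) (b (c (l 16374080) (l 16390056)) (c (l 16587968) (l 16586040)))) (a (b (a (l 16257640) (l 16350016)) (a (l 16586288) (l 16552872))) (b (c (l 16385064) (l 16380064)) (c (l 16584120) (l 16582192)))))) (c (b (a (b (a (c (l 16764816) (l 16764656)) (b (l 16735552) (l 16777216))) (c (l 16777216) (l 16777216))) (a (b (c (l 16770008) (l 16769912)) (c (l 16777216) (l 16777216))) (c (b (l 16774112) (l 16777216)) (b (l 16774072) (l 16777216))))) (a (c (c (l 16777216) (l 16777216)) (c (l 16777216) (l 16777216))) (c (a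 (b (l 16777216) (l 16777216)) (b (l 16777216) (l 16777216))) (a (b (l 16777216) (l 16777216)) (b (l 16777216) (l 16777216)))))) (b (b (c (a (a (l 16764496) (l 16766192)) (l 16728064)) (a (a (l 16764328) (l 16766056)) (a (l 16769728) (l 16773992)))) (a (c (l 16777216) (l 16777216)) (a (c (l 16777216) (l 16777216)) (l 16777216)))) (a (c (c (l 16777216) (l 16777216)) (c (l 16777216) (l 16777216))) (c (a (b (l 16777216) (l 16777216)) (b (l 16777216) (l 16777216))) (a (b (l 16777216) (l 16777216)) (b (l 16777216) (l 16777216)))))))), by decide +kernel⟩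

def k17_pm_202 : ∃ t, chk3 f_pm_202 t 5 6 1 = true :=
  ⟨(b (c (a (c (b (a (l 15924808) (l 15976848)) (a (l 16194000) (l 16240776))) (b (l 15856088) (l 16210752))) (c (b (a (l 16037192) (l 16105992)) (a (l 16296432) (b (l 16298680) (l 16421688)))) (b (a (l 16027512) (l 16097216)) (a (l 16290152) (l 16355280))))) (a (c (b (l 15929168) (l 16203448)) (b (l 15918368) (l 16196136))) (c (a (l 15943376) (b (l 16088440) (l 16349840))) (a (l 15977368) (b (l 16079672) (l 16344392)))))) (c (a (b (c (a (l 16442848) (l 16465464)) (l 16314400)) (a (b (l 16617000) (l 16726984)) (b (l 16658464) (l 16711824)))) (b (c (a (b (l 16479432) (l 16595984)) (c (b (l 16541112) (l 16655032)) (l 16492584))) (a (l 16472216) (b (l 16537240) (l 16653032)))) (a (c (b (l 16707744) (l 16772056)) (b (l 16706832) (l 16771984))) (c (b (a (l 16743352) (l 16740016)) (l 16777216)) (b (l 16707056) (l 16777216)))))) (b (a (c (l 16394208) (l 16453040)) (c (a (l 16532008) (l 16509456)) (a (l 16528880) (l 16549056)))) (a (a (b (l 16612840) (l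 16725680)) (b (l 16655384) (l 16753160))) (a (c (b (l 16705928) (l 16771920)) (l 16661064)) (b (c (l 16748640) (l 16748272)) (l 16777216))))))), by decide +kernel⟩

def k18_pm_202 : ∃ t, chk3 f_pm_202 t 5 7 1 = true :=
  ⟨(c (a (b (c (b (l 16755880) (a (l 16777216) (l 16777216))) (a (l 16777072) (l 16777216))) (c (a (l 16777216) (b (l 16777216) (l 16777216))) (a (l 16777216) (l 16777216)))) (b (c (a (b (l 16777216) (l 16777216)) (b (l 16777216) (c (l 16777216) (l 16777216)))) (a (b (l 16777216) (l 16777216)) (b (l 16777216) (l 16777216)))) (c (a (c (l 16777216) (l 16777216)) (c (b (l 16777216) (l 16777216)) (b (l 16777216) (l 16777216)))) (a (b (l 16777216) (l 16777216)) (b (l 16777216) (l 16777216)))))) (a (b (c (a (l 16777064) (l 16777216)) (a (l 16777064) (l 16777216))) (c (a (l 16777216) (l 16777216)) (a (l 16777216) (l 16777216)))) (b (c (a (b (l 16777216) (l 16777216)) (b (l 16777216) (l 16777216))) (a (l 16777216) (b (l 16777216) (l 16777216)))) (c (a (b (l 16777216) (l 16777216)) (b (l 16777216)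 (l 16777216))) (a (l 16777216) (b (l 16777216) (l 16777216))))))), by decide +kernel⟩

def k19_pm_202 : ∃ t, chk3 f_pm_202 t 6 12 1 = true :=
  ⟨(a (c (b (a (c (b (l 16118680) (l 16247808)) (l 16176032)) (c (l 16249248) (l 16263592))) (a (c (c (b (l 16373896) (l 16493912)) (l 16306376)) (b (l 16367288) (l 16489272))) (c (b (l 16454576) (c (b (l 16543848) (l 16580328)) (l 16529424))) (c (b (l 16451416) (l 16570024)) (l 16383720))))) (a (c (b (l 16168272) (l 16361416)) (b (l 16160520) (l 16419840))) (b (c (l 16256968) (l 16208392)) (c (b (l 16446144) (l 16524728)) (b (l 16441928) (l 16563992)))))) (a (b (c (c (b (l 16332784) (l 16391080)) (b (l 16327056) (l 16407904))) (c (a (l 16339176) (l 16386536)) (a (l 16270704) (l 16319312)))) (c (a (b (c (l 16530120) (l 16526920)) (c (c (l 16561104) (l 16581224)) (l 16558976))) (c (b (l 16589992) (l 16616328)) (b (l 16608976) (l 16657824)))) (a (c (b (l 16523720) (l 16578240)) (b (l 16520512) (l 16597504))) (c (b (l 16586016) (l 16678352)) (a (l 16536856) (l 16537352))))))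 (b (c (c (l 16385568) (l 16362424)) (b (c (l 16448608) (c (l 16446376) (l 16361008))) (c (l 16501424) (a (l 16536192) (c (l 16631248) (l 16589032)))))) (b (c (c (l 16574976) (l 16553664)) (c (l 16532352) (a (l 16609280) (c (l 16579432) (l 16557856))))) (c (a (b (l 16626344) (b (l 16615088) (c (l 16598776) (l 16618024)))) (b (c (l 16581928) (l 16579504)) (c (l 16517760) (l 16535904)))) (a (c (b (l 16646144) (l 16584120)) (b (l 16624400) (a (l 16670208) (l 16597552)))) (c (b (l 16535144) (a (l 16573880) (l 16532064))) (b (c (l 16533328) (l 16490176)) (a (l 16550336) (l 16528944)))))))))), by decide +kernel⟩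

def k20_pm_202 : ∃ t, chk3 f_pm_202 t 12 13 1 = true :=
  ⟨(c (b (a (a (c (b (l 16527808) (l 16682144)) (l 16519936)) (c (b (c (l 16564528) (l 16626464)) (c (l 16671480) (l 16671200))) (b (l 16624992) (l 16670784)))) (b (c (c (b (a (l 16637408) (l 16656520)) (a (l 16693080) (l 16690416))) (b (l 16593968) (l 16649592))) (a (l 16600632) (c (l 16662168) (l 16661696)))) (c (a (b (a (l 16717096) (l 16713224)) (l 16753720)) (b (a (l 16725656) (l 16754056)) (l 16777216))) (a (b (l 16724752) (l 16774664)) (b (l 16748544) (l 16777216)))))) (a (c (a (b (l 16772600) (l 16777216)) (l 16777200)) (a (l 16753624) (l 16777200))) (c (c (l 16777216) (l 16777216)) (c (l 16777216) (l 16777216))))) (b (b (a (c (l 16583672) (l 16602440)) (a (c (l 16662080) (l 16660616)) (c (l 16660984) (l 16681008)))) (a (a (l 16679720) (a (l 16684576) (l 16678584))) (c (a (l 16715280) (l 16751312)) (a (l 16736000) (l 16772224))))) (a (c (a (l 16774560) (l 16777200)) (a (l 16774528) (l 16777200))) (c (c (l 16777216) (l 16777216)) (c (l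 16777216) (l 16777216)))))), by decide +kernel⟩

def k21_pm_202 : ∃ t, chk3 f_pm_202 t 26 13 1 = true :=
  ⟨(c (b (b (c (a (a (b (c (l 16668320) (l 16709824)) (c (a (l 16735496) (l 16725240)) (l 16718936))) (b (l 16702832) (b (a (l 16743320) (l 16722024)) (l 16747024)))) (a (b (c (l 16692768) (l 16692552)) (c (l 16715200) (l 16714792))) (b (b (l 16694608) (c (l 16662240) (l 16682600))) (l 16681240)))) (a (b (b (l 16671128) (l 16698712)) (a (l 16718784) (l 16730352))) (b (a (l 16692232) (b (l 16693608) (l 16681680))) (l 16655376)))) (a (c (c (l 16718560) (l 16739424)) (l 16739264)) (c (c (l 16698232) (l 16697720)) (l 16696944)))) (a (c (c (l 16718560) (l 16739424)) (c (l 16739312) (l 16760176))) (c (c (l 16698232) (l 16697720)) (c (l 16697200) (l 16696680))))) (c (b (b (b (a (l 16684344) (c (l 16649392) (l 16649016))) (a (a (l 16760520) (l 16730040)) (l 16675320))) (a (l 16739040) (l 16695904))) (a (a (l 16773792) (l 16746104)) (l 16659208))) (b (b (a (a (l 16691760) (l 16700936)) (b (a (l 16712352)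 (l 16665624)) (l 16674288))) (a (l 16738824) (l 16694872))) (a (a (l 16773752) (l 16745704)) (c (l 16695128) (l 16694608)))))), by decide +kernel⟩

def k22_pm_202 : ∃ t, chk3 f_pm_202 t 27 13 1 = true :=
  ⟨(a (c (b (c (b (b (b (a (l 16649824) (l 16611776)) (l 16608504)) (l 16608504)) (l 16608504)) (b (b (a (l 16626184) (l 16609608)) (l 16627544)) (l 16627544))) (c (c (l 16629960) (l 16628992)) (l 16606576))) (b (c (b (b (a (l 16645488) (l 16607448)) (l 16625616)) (l 16625616)) (b (a (l 16622048) (l 16605288)) (l 16623688))) (c (l 16583672) (c (l 16624168) (l 16623200))))) (c (b (c (b (b (c (l 16557736) (l 16556296)) (l 16557016)) (l 16557016)) (b (b (l 16554136) (l 16554136)) (l 16554136))) (c (c (l 16557736) (l 16556296)) (l 16554136))) (b (c (b (l 16509312) (l 16551256)) (b (c (l 16549096) (l 16547664)) (l 16527408))) (c (c (l 16551976) (l 16550536)) (c (l 16549096) (l 16526688)))))), by decide +kernel⟩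

def k23_pm_202 : ∃ t, chk3 f_pm_202 t 12 7 1 = true :=
  ⟨(c (c (b (a (c (b (l 16777216) (a (l 16777216) (l 16777216))) (b (l 16777216) (a (l 16777216) (l 16777216)))) (b (c (a (l 16777216) (l 16777216)) (l 16777216)) (c (a (l 16777216) (l 16777216)) (a (l 16777216) (l 16777216))))) (a (c (b (a (l 16777216) (l 16777216)) (a (l 16777216) (l 16777216))) (b (l 16777216) (l 16777216))) (c (b (a (l 16777216) (l 16777216)) (c (l 16777216) (l 16777216))) (b (a (l 16777216) (l 16777216)) (l 16777216))))) (b (a (c (b (l 16777216) (l 16777216)) (b (l 16777216) (l 16777216))) (b (c (l 16777216) (l 16777216)) (c (l 16777216) (l 16777216)))) (a (c (b (l 16777216) (l 16777216)) (b (l 16777216) (l 16777216))) (c (b (l 16777216) (l 16777216)) (b (l 16777216) (l 16777216)))))) (c (b (a (c (b (l 16777216) (l 16777216)) (l 16777216)) (b (c (l 16777216) (l 16777216)) (c (l 16777216) (l 16777216)))) (a (c (b (l 16777216) (l 16777216)) (b (l 16777216) (l 16777216))) (c (b (l 16777216) (l 16777216)) (b (l 16777216) (l 16777216)))))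 (b (a (c (l 16777216) (l 16777216)) (b (c (l 16777216) (l 16777216)) (a (l 16777216) (l 16777216)))) (a (c (l 16777216) (l 16777216)) (c (b (l 16777216) (l 16777216)) (b (l 16777216) (l 16777216))))))), by decide +kernel⟩

def k24_pm_202 : ∃ t, chk3 f_pm_202 t 13 7 2 = true :=
  ⟨(a (b (c (c (a (b (b (l 16739536) (l 16739536)) (a (l 16752920) (l 16746992))) (b (l 16677264) (l 16677264))) (a (b (l 16718456) (a (l 16773872) (l 16746792))) (b (l 16697720) (l 16697720)))) (c (a (b (l 16739312) (l 16739312)) (b (l 16697200) (l 16697200))) (a (b (l 16739208) (l 16739208)) (b (l 16696680) (l 16696680))))) (c (a (b (c (a (l 16773888) (l 16746992)) (a (l 16773872) (l 16746792))) (c (a (l 16773888) (l 16746992)) (l 16718456))) (b (c (l 16677264) (l 16697720)) (c (l 16698232) (l 16697720)))) (a (b (c (l 16739312) (l 16739208)) (c (l 16739312) (l 16739208))) (b (c (l 16697200) (l 16696680)) (c (l 16697200) (l 16696680)))))) (b (c (b (a (c (l 16629960) (l 16628992)) (l 16557016)) (a (c (l 16629960) (l 16628992))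 (l 16557016))) (b (a (l 16627544) (l 16554136)) (a (l 16627544) (l 16554136)))) (c (b (a (c (l 16629960) (l 16628992)) (l 16557016)) (a (l 16629480) (l 16557016))) (b (a (l 16627544) (l 16554136)) (a (l 16627544) (l 16554136)))))), by decide +kernel⟩

def k25_pm_202 : ∃ t, chk3 f_pm_202 t 13 7 3 = true :=
  ⟨(a (b (b (c (a (c (l 16739096) (l 16738984)) (c (l 16696160) (l 16695648))) (a (c (l 16738880) (l 16738768)) (c (l 16695128) (l 16694608)))) (c (a (c (l 16739096) (l 16738984)) (c (l 16696160) (l 16695648))) (a (a (l 16773752) (l 16745704)) (c (l 16695128) (l 16694608))))) (c (a (b (c (l 16739096) (l 16738984)) (c (l 16739096) (l 16738984))) (b (c (l 16696160) (l 16695648)) (c (l 16696160) (l 16695648)))) (a (b (c (l 16738880) (l 16738768)) (c (l 16738880) (l 16738768))) (b (c (l 16695128) (l 16694608)) (c (l 16695128) (l 16673640)))))) (b (c (b (c (l 16547480) (l 16525304)) (a (l 16604648) (l 16530288))) (b (a (c (l 16624168) (l 16623200)) (c (l 16549096) (l 16547664))) (a (c (l 16624168) (l 16623200))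 (c (l 16549096) (l 16547664))))) (c (b (c (l 16526504) (l 16504336)) (c (l 16526504) (a (l 16625136) (l 16550536)))) (b (c (a (l 16624168) (l 16549096)) (a (l 16623200) (l 16547664))) (c (a (l 16624168) (l 16549096)) (a (l 16602232) (l 16526688))))))), by decide +kernel⟩

def k26_pm_202 : ∃ t, chk3 f_pm_202 t 28 12 1 = true :=
  ⟨(c (c (b (a (l 16500104) (l 16439032)) (b (a (l 16425192) (b (l 16428896) (l 16403656))) (a (b (l 16421200) (l 16480376)) (l 16404576)))) (b (a (c (l 16541736) (l 16520552)) (l 16415720)) (b (a (a (l 16556432) (l 16475656)) (b (l 16424488) (l 16398792))) (a (b (a (l 16501336) (l 16456600)) (l 16455528)) (c (l 16395632) (l 16393160)))))) (b (a (c (c (l 16499376) (c (l 16520184) (l 16499112))) (c (a (l 16543600) (l 16509464)) (b (a (l 16570944) (l 16601704)) (a (l 16584848) (l 16521704))))) (c (c (l 16434936) (l 16412792)) (c (b (l 16504504) (l 16445704)) (b (a (l 16558192) (l 16491064)) (c (l 16444504) (l 16401760)))))) (a (b (c (a (l 16553888) (b (l 16515192) (l 16471040)))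 (a (l 16488432) (c (b (l 16512920) (l 16468184)) (b (l 16511400) (a (l 16480360) (l 16450664)))))) (c (a (b (l 16497800) (l 16492728)) (c (l 16453432) (l 16451368))) (a (b (b (l 16496936) (l 16489248)) (l 16489104)) (c (l 16449296) (a (l 16457624) (l 16436688)))))) (b (c (b (l 16357168) (a (l 16416632) (l 16368216))) (b (c (l 16353864) (a (l 16446280) (b (l 16391176) (l 16349704)))) (c (a (l 16413208) (l 16364312)) (a (b (l 16413976) (l 16405232)) (l 16361704))))) (c (c (l 16390696) (l 16388224)) (c (l 16385752) (c (l 16383904) (l 16382664)))))))), by decide +kernel⟩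

def k27_pm_202 : ∃ t, chk3 f_pm_202 t 29 12 1 = true :=
  ⟨(c (b (c (b (l 16315720) (a (l 16361728) (l 16221408))) (b (l 16248144) (a (l 16335576) (l 16109376)))) (c (a (b (l 16312456) (c (l 16311120) (l 16308064))) (b (l 16202744) (l 16202744))) (a (b (b (l 16307840) (l 16303480)) (c (l 16305008) (l 16301952))) (b (l 16195232) (l 16195232))))) (b (c (b (c (l 16286592) (l 16221344)) (a (b (l 16374336) (l 16244008)) (b (l 16195432) (l 16170504)))) (a (a (c (l 16308776) (b (l 16421152) (l 16298576))) (c (b (l 16407656) (l 16245792)) (b (l 16342704) (b (l 16328984) (b (l 16291624) (c (l 16272328) (l 16270752))))))) (b (c (l 16262824) (c (l 16239672) (l 16154336))) (b (c (l 16148224) (a (l 16246576) (b (l 16174256) (c (l 16156808) (l 16133896))))) (c (a (l 16215680) (l 16153312)) (a (b (c (l 16215496) (l 16213736)) (l 16207128)) (l 16149376))))))) (c (a (b (b (a (l 16329224) (l 16271296)) (l 16297368)) (c (l 16298896) (l 16295840))) (c (l 16189600) (b (l 16185848) (l 16185848)))) (a (b (c (b (a (l 16324968)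 (l 16266464)) (l 16292784)) (a (b (b (a (l 16340144) (l 16308120)) (l 16316432)) (l 16316104)) (c (l 16263984) (l 16262376)))) (c (l 16271808) (c (l 16290488) (l 16267992)))) (c (b (l 16182096) (l 16182096)) (b (c (l 16179280) (l 16177400)) (c (l 16179280) (l 16177400)))))))), by decide +kernel⟩

def k28_pm_202 : ∃ t, chk3 f_pm_202 t 14 13 2 = true :=
  ⟨(a (b (b (c (a (b (a (l 16499976) (c (l 16461616) (l 16459544))) (a (l 16499976) (l 16460576))) (b (c (l 16400568) (l 16398104)) (c (l 16400568) (l 16398104)))) (a (a (l 16496352) (a (l 16466528) (b (l 16446296) (l 16446296)))) (b (c (l 16395632) (l 16393160)) (l 16394400)))) (a (c (a (l 16499976) (l 16460576)) (a (l 16496352) (l 16456440))) (c (c (l 16400568) (l 16398104)) (c (l 16395632) (l 16393160))))) (a (c (c (l 16481344) (l 16479408)) (l 16476496)) (a (c (b (l 16420064) (l 16420064)) (b (l 16415392) (l 16415392))) (c (l 16378400) (l 16373192))))) (b (c (b (a (b (c (l 16311120) (l 16308064)) (a (l 16334896) (l 16284040))) (b (l 16223712) (l 16202744)))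 (a (c (l 16311120) (l 16308064)) (l 16202744))) (b (a (b (c (l 16305008) (l 16301952)) (l 16303480)) (b (l 16195232) (l 16195232))) (a (a (l 16329112) (l 16277592)) (l 16195232)))) (c (a (c (l 16311120) (l 16308064)) (c (l 16204624) (l 16200864))) (a (c (l 16305008) (l 16301952)) (c (l 16197112) (l 16193360)))))), by decide +kernel⟩

def k29_pm_202 : ∃ t, chk3 f_pm_202 t 14 13 3 = true :=
  ⟨(a (b (c (b (a (a (l 16492728) (b (l 16431328) (l 16452296))) (c (l 16348752) (l 16388224))) (a (a (l 16492728) (l 16452296)) (c (l 16390696) (l 16388224)))) (a (b (a (l 16489104) (c (l 16449192) (l 16447128))) (c (l 16469704) (l 16446792))) (b (c (l 16364784) (c (l 16383904) (l 16382664))) (c (l 16385752) (a (l 16404888) (l 16361464)))))) (a (c (c (l 16473584) (l 16471648)) (c (l 16469704) (l 16446792))) (a (c (b (l 16410728) (l 16410728)) (b (c (l 16407224) (l 16404888)) (c (l 16407224) (l 16404888)))) (c (c (l 16369280) (l 16366672)) (c (l 16364064) (l 16340488)))))) (b (c (b (a (c (b (l 16298896) (l 16298896))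 (b (l 16295840) (l 16295840))) (c (l 16189600) (l 16185848))) (a (c (l 16298896) (l 16295840)) (c (l 16189600) (l 16185848)))) (c (a (b (a (l 16318992) (l 16266312)) (l 16292784)) (b (l 16182096) (l 16182096))) (a (b (a (l 16316104) (l 16263088)) (a (l 16316104) (l 16263088))) (b (c (l 16179280) (l 16177400)) (l 16178336))))) (c (a (c (l 16298896) (b (l 16295840) (l 16295840))) (c (l 16189600) (l 16185848))) (a (c (b (l 16292784) (l 16292784)) (b (a (l 16316104) (l 16263088)) (l 16289728))) (c (l 16161120) (b (l 16178336) (l 16178336))))))), by decide +kernel⟩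

def k30_pm_202 : ∃ t, chk3 f_pm_202 t 15 6 2 = true :=
  ⟨(a (b (b (c (a (b (l 16146024) (l 16100552)) (b (l 15964496) (l 15992968))) (a (b (l 16132896) (l 16086632)) (c (b (l 16008280) (l 15994624)) (l 15938728)))) (c (a (b (l 16098872) (l 16119840)) (c (b (l 15991776) (l 15991776)) (a (l 16024184) (l 15970152)))) (c (a (l 16087152) (b (l 15994624) (l 15994624))) (a (l 16082688) (l 15993256))))) (c (b (a (b (b (a (l 16118088) (l 16069512)) (l 16098872)) (a (l 16118088) (l 16069512))) (b (b (c (a (l 16020848) (l 15963088)) (l 15995768)) (c (l 15991776) (l 15995768))) (c (l 15970808) (l 15995768)))) (a (a (l 16118088) (l 16069512)) (c (a (l 16020848) (l 15963088)) (a (l 16024184) (l 15970152))))) (b (a (b (b (l 16084920) (l 16084920)) (l 16084920)) (b (c (l 15994624) (l 15993256)) (l 15992768))) (a (l 16116376) (c (l 15994624) (l 15993256)))))) (b (c (a (b (l 15887816) (b (l 15887744) (l 15887744))) (b (l 15807104) (l 15807104))) (a (b (c (l 15889928) (a (l 15921520) (l 15863936))) (c (a (l 15917320)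 (l 15860384)) (a (l 15921448) (l 15863936)))) (b (l 15796464) (c (l 15798352) (l 15793576))))) (b (b (a (c (c (l 15886432) (l 15887792)) (c (a (l 15917320) (l 15860384)) (a (l 15921448) (l 15863936)))) (c (l 15807104) (l 15796464))) (a (c (l 15887744) (a (c (l 15917320) (l 15921448)) (l 15862944))) (c (l 15807104) (l 15796464)))) (a (c (c (l 15886432) (l 15887792)) (c (l 15868880) (a (l 15921448) (l 15863936)))) (c (l 15807104) (a (l 15813880) (l 15777976))))))), by decide +kernel⟩

def k31_pm_202 : ∃ t, chk3 f_pm_202 t 30 6 3 = true :=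
  ⟨(b (b (c (b (a (a (l 16160360) (l 16086184)) (b (l 16006080) (l 15986904))) (a (a (l 16102944) (l 16050872)) (l 15985696))) (b (a (a (c (l 16154648) (c (l 16151800) (l 16107952))) (b (l 16077928) (c (l 16056952) (b (l 16058552) (l 16043080))))) (b (c (l 15998776) (a (l 15982048) (b (l 15963016) (l 15951688)))) (c (l 15979352) (a (b (l 15997912) (l 15995496)) (l 15950480))))) (a (a (c (l 16096512) (b (b (c (l 16096328) (l 16094192)) (l 16090088)) (l 16090088))) (c (l 16043928) (l 16039304))) (c (l 15978136) (l 15952120))))) (c (c (a (l 16078216) (l 15988216)) (a (b (l 16073752) (l 16073752)) (l 15983176))) (c (a (b (l 16069288) (l 16069288)) (b (l 15978136) (l 15978136))) (a (b (a (l 16090088) (l 16039304)) (a (l 16090088) (l 16039304))) (b (l 15952120) (l 15973088)))))) (b (c (a (b (c (l 16078216) (l 16073752)) (l 16075984)) (c (l 15988216) (l 15983176))) (b (a (c (a (l 16094392) (l 16043928)) (a (l 16090088) (l 16039304))) (c (l 15978136) (l 15973088))) (a (a (l 16092240) (l 16041616)) (c (l 15978136)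 (l 15973088))))) (c (a (a (l 16100856) (l 16050872)) (l 15985696)) (a (c (a (l 16094392) (l 16043928)) (a (l 16090088) (l 16039304))) (c (l 15978136) (l 15973088)))))), by decide +kernel⟩

def k32_pm_202 : ∃ t, chk3 f_pm_202 t 31 6 3 = true :=
  ⟨(b (c (a (b (a (l 15918312) (c (l 15867512) (l 15867704))) (c (a (l 15920632) (c (l 15867080) (l 15868784))) (b (l 15891472) (l 15891472)))) (c (a (b (l 15810928) (l 15810928)) (l 15768368)) (a (b (c (l 15811912) (l 15813424)) (c (l 15811912) (l 15813424))) (b (l 15763000) (l 15763000))))) (a (b (c (l 15886240) (b (c (l 15882080) (l 15879264)) (l 15880544))) (c (l 15886168) (c (l 15881952) (l 15879136)))) (a (c (b (c (l 15813560) (l 15812192)) (b (l 15812840) (l 15812840))) (b (l 15807784) (l 15807784))) (a (c (c (l 15770504) (b (l 15771344) (l 15771344))) (c (b (l 15771320) (l 15771320)) (l 15768672))) (c (b (l 15747456) (l 15747456)) (b (c (l 15744528) (l 15743784)) (c (l 15744528) (l 15743784)))))))) (c (b (a (c (a (l 15920632) (b (b (l 15867512) (l 15867512))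 (l 15867512))) (l 15891472)) (a (c (l 15810928) (b (a (l 15826888) (l 15797680)) (l 15812696))) (c (l 15768368) (b (l 15763000) (l 15763000))))) (a (c (a (l 15920632) (l 15867512)) (l 15891472)) (a (c (l 15810928) (c (l 15811912) (l 15813424))) (c (l 15768368) (l 15763000))))) (a (b (c (l 15886168) (b (l 15880544) (l 15880544))) (c (l 15886168) (l 15880544))) (b (c (a (c (l 15813560) (l 15812192)) (a (c (l 15770504) (l 15771344)) (l 15747456))) (a (l 15807784) (c (a (l 15771320) (l 15744528)) (l 15757728)))) (c (a (l 15812840) (a (l 15771424) (l 15747456))) (a (l 15807784) (c (l 15758808) (l 15757728)))))))), by decide +kernel⟩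

def k33_pm_202 : ∃ t, chk3 f_pm_202 t 14 7 2 = true :=
  ⟨(b (a (a (c (b (l 16480376) (l 16480376)) (b (l 16476496) (l 16476496))) (b (c (a (l 16420064) (l 16378400)) (a (b (l 16415392) (l 16415392)) (l 16373192))) (c (b (l 16399336) (l 16399336)) (b (l 16394400) (l 16394400))))) (c (b (a (b (l 16309592) (l 16309592)) (l 16202744)) (a (l 16309592) (l 16202744))) (b (a (c (l 16305008) (l 16301952)) (l 16195232)) (a (c (l 16305008) (l 16301952)) (l 16195232))))) (a (c (a (b (l 16480376) (l 16480376)) (b (l 16399336) (l 16399336))) (a (b (l 16476496) (l 16476496)) (b (a (l 16415392) (l 16373192)) (l 16394400)))) (c (b (a (l 16309592) (l 16202744)) (a (l 16309592) (l 16202744))) (b (a (l 16303480) (l 16195232)) (a (l 16303480) (l 16195232)))))), by decide +kernel⟩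

def k34_pm_202 : ∃ t, chk3 f_pm_202 t 14 7 3 = true :=
  ⟨(a (b (a (c (b (l 16430672) (c (l 16473584) (l 16471648))) (b (c (l 16469704) (l 16467768)) (c (l 16469704) (l 16467768)))) (c (b (a (b (l 16410728) (l 16410728)) (l 16367976)) (c (a (l 16411896) (l 16369280)) (a (l 16409560) (l 16366672)))) (b (a (c (l 16407224) (b (l 16404888) (l 16404888))) (c (l 16364064) (l 16361464))) (a (b (l 16406056) (l 16406056)) (b (l 16362768) (l 16362768)))))) (c (a (b (l 16430672) (l 16451648)) (b (a (l 16410728) (l 16367976)) (c (l 16390696) (l 16388224)))) (a (b (c (l 16469704) (l 16467768)) (c (l 16469704) (l 16425824))) (b (c (l 16343808) (a (l 16404888) (l 16361464))) (c (l 16385752) (b (l 16383280) (l 16383280))))))) (b (c (b (a (c (l 16298896) (l 16295840)) (c (l 16189600) (l 16185848))) (a (c (l 16298896) (l 16295840)) (c (l 16189600) (l 16185848)))) (b (a (c (l 16271808) (a (l 16316104) (l 16263088))) (c (l 16182096) (b (l 16178336) (l 16178336)))) (a (c (l 16292784) (b (l 16289728) (l 16289728))) (c (l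 16182096) (l 16136392))))) (c (b (a (c (l 16298896) (l 16295840)) (l 16187728)) (a (c (l 16298896) (l 16295840)) (l 16187728))) (b (a (c (l 16292784) (l 16268752)) (c (l 16182096) (l 16178336))) (a (c (l 16250840) (a (l 16316104) (l 16263088))) (c (l 16182096) (b (l 16178336) (l 16178336)))))))), by decide +kernel⟩

def k35_pm_202 : ∃ t, chk3 f_pm_202 t 15 7 2 = true :=
  ⟨(b (a (c (a (b (a (l 16118088) (l 16069512)) (l 16098872)) (a (b (l 16019832) (l 16019832)) (b (l 15924232) (l 15966176)))) (b (a (l 16084920) (l 15992768)) (a (l 16084920) (l 15992768)))) (a (c (b (c (l 15886432) (l 15887792)) (l 15887744)) (b (c (l 15889856) (a (l 15921448) (l 15863936))) (c (l 15889856) (l 15893120)))) (c (b (l 15807104) (l 15807104)) (a (b (l 15813880) (l 15813880)) (l 15777976))))) (a (c (a (b (l 16098872) (l 16098872)) (b (c (l 15991776) (l 15995768)) (l 15992968))) (b (a (l 16084920) (l 15992768)) (a (l 16084920) (l 15992768)))) (c (a (b (l 15887744) (l 15887744)) (l 15807104)) (a (b (c (l 15889856) (l 15893120))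 (c (l 15889856) (l 15893120))) (c (l 15798352) (l 15793576)))))), by decide +kernel⟩

def k36_pm_202 : ∃ t, chk3 f_pm_202 t 15 7 3 = true :=
  ⟨(c (a (b (b (a (c (l 16078216) (l 16073752)) (l 15985696)) (a (c (l 16078216) (l 16073752)) (l 15985696))) (b (a (l 16075984) (l 15985696)) (a (l 16075984) (l 15985696)))) (b (b (a (c (a (l 15920632) (l 15867512)) (l 15891472)) (a (c (l 15810928) (l 15812696)) (l 15766016))) (a (c (l 15893760) (l 15891472)) (a (c (l 15810928) (l 15812696)) (l 15766016)))) (a (c (a (l 15920632) (l 15867512)) (l 15891472)) (a (c (l 15810928) (b (l 15812696) (l 15812696))) (b (l 15766016) (l 15766016)))))) (a (b (b (a (c (l 16069288) (a (l 16090088) (l 16039304))) (c (l 15978136) (l 15973088))) (a (c (l 16069288) (a (l 16090088) (l 16039304))) (c (l 15978136) (l 15973088)))) (b (a (c (l 16069288) (l 16022880)) (c (l 15978136) (l 15973088))) (c (a (l 16069288) (l 15978136)) (a (b (l 16064816) (l 16064816)) (b (l 15973088) (l 15973088)))))) (b (a (b (c (l 15886168) (l 15880544))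 (c (l 15886168) (l 15880544))) (c (a (b (l 15812840) (l 15812840)) (b (l 15760216) (l 15760216))) (c (a (l 15809304) (a (l 15771320) (l 15744528))) (b (l 15784176) (l 15784176))))) (a (b (c (l 15886168) (l 15880544)) (c (l 15886168) (b (l 15880544) (l 15880544)))) (c (b (a (l 15812840) (l 15760216)) (a (l 15812840) (c (l 15760016) (l 15759272)))) (b (a (l 15807784) (c (l 15758808) (l 15757728))) (a (l 15807784) (c (l 15758808) (a (l 15768672) (l 15743784)))))))))), by decide +kernel⟩

theorem s37_pm_202 : ∃ t, chk3 f_pm_202 t 15 7 1 = true := ex3_c k35_pm_202 k36_pm_202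

theorem s38_pm_202 : ∃ t, chk3 f_pm_202 t 14 7 1 = true := ex3_c k33_pm_202 k34_pm_202

theorem s39_pm_202 : ∃ t, chk3 f_pm_202 t 7 7 1 = true := ex3_a s38_pm_202 s37_pm_202

theorem s40_pm_202 : ∃ t, chk3 f_pm_202 t 15 6 3 = true := ex3_a k31_pm_202 k32_pm_202

theorem s41_pm_202 : ∃ t, chk3 f_pm_202 t 15 6 1 = true := ex3_c k30_pm_202 s40_pm_202

theorem s42_pm_202 : ∃ t, chk3 f_pm_202 t 14 13 1 = true := ex3_c k28_pm_202 k29_pm_202

theorem s43_pm_202 : ∃ t, chk3 f_pm_202 t 14 12 1 = true := ex3_a k26_pm_202 k27_pm_202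

theorem s44_pm_202 : ∃ t, chk3 f_pm_202 t 14 6 1 = true := ex3_b s43_pm_202 s42_pm_202

theorem s45_pm_202 : ∃ t, chk3 f_pm_202 t 7 6 1 = true := ex3_a s44_pm_202 s41_pm_202

theorem s46_pm_202 : ∃ t, chk3 f_pm_202 t 7 3 1 = true := ex3_b s45_pm_202 s39_pm_202

theorem s47_pm_202 : ∃ t, chk3 f_pm_202 t 13 7 1 = true := ex3_c k24_pm_202 k25_pm_202

theorem s48_pm_202 : ∃ t, chk3 f_pm_202 t 6 7 1 = true := ex3_a k23_pm_202 s47_pm_202

theorem s49_pm_202 : ∃ t, chk3 f_pm_202 t 13 13 1 = true := ex3_a k21_pm_202 k22_pm_202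

theorem s50_pm_202 : ∃ t, chk3 f_pm_202 t 6 13 1 = true := ex3_a k20_pm_202 s49_pm_202

theorem s51_pm_202 : ∃ t, chk3 f_pm_202 t 6 6 1 = true := ex3_b k19_pm_202 s50_pm_202

theorem s52_pm_202 : ∃ t, chk3 f_pm_202 t 6 3 1 = true := ex3_b s51_pm_202 s48_pm_202

theorem s53_pm_202 : ∃ t, chk3 f_pm_202 t 3 3 1 = true := ex3_a s52_pm_202 s46_pm_202

theorem s54_pm_202 : ∃ t, chk3 f_pm_202 t 5 3 1 = true := ex3_b k17_pm_202 k18_pm_202

theorem s55_pm_202 : ∃ t, chk3 f_pm_202 t 2 3 1 = true := ex3_a k16_pm_202 s54_pm_202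

theorem s56_pm_202 : ∃ t, chk3 f_pm_202 t 1 3 1 = true := ex3_a s55_pm_202 s53_pm_202

theorem s57_pm_202 : ∃ t, chk3 f_pm_202 t 31 11 1 = true := ex3_b k14_pm_202 k15_pm_202

theorem s58_pm_202 : ∃ t, chk3 f_pm_202 t 15 11 1 = true := ex3_a k13_pm_202 s57_pm_202

theorem s59_pm_202 : ∃ t, chk3 f_pm_202 t 14 11 1 = true := ex3_b k11_pm_202 k12_pm_202

theorem s60_pm_202 : ∃ t, chk3 f_pm_202 t 7 11 1 = true := ex3_a s59_pm_202 s58_pm_202

theorem s61_pm_202 : ∃ t, chk3 f_pm_202 t 6 11 1 = true := ex3_b k9_pm_202 k10_pm_202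

theorem s62_pm_202 : ∃ t, chk3 f_pm_202 t 3 11 1 = true := ex3_a s61_pm_202 s60_pm_202

theorem s63_pm_202 : ∃ t, chk3 f_pm_202 t 7 10 1 = true := ex3_b k7_pm_202 k8_pm_202

theorem s64_pm_202 : ∃ t, chk3 f_pm_202 t 13 10 1 = true := ex3_b k5_pm_202 k6_pm_202

theorem s65_pm_202 : ∃ t, chk3 f_pm_202 t 6 10 1 = true := ex3_a k4_pm_202 s64_pm_202

theorem s66_pm_202 : ∃ t, chk3 f_pm_202 t 3 10 1 = true := ex3_a s65_pm_202 s63_pm_202

theorem s67_pm_202 : ∃ t, chk3 f_pm_202 t 3 5 1 = true := ex3_b s66_pm_202 s62_pm_202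

theorem s68_pm_202 : ∃ t, chk3 f_pm_202 t 2 10 1 = true := ex3_a k1_pm_202 k2_pm_202

theorem s69_pm_202 : ∃ t, chk3 f_pm_202 t 2 5 1 = true := ex3_b s68_pm_202 k3_pm_202

theorem s70_pm_202 : ∃ t, chk3 f_pm_202 t 1 5 1 = true := ex3_a s69_pm_202 s67_pm_202

theorem s71_pm_202 : ∃ t, chk3 f_pm_202 t 1 2 1 = true := ex3_b k0_pm_202 s70_pm_202

theorem s72_pm_202 : ∃ t, chk3 f_pm_202 t 1 1 1 = true := ex3_b s71_pm_202 s56_pm_202

theorem c_pm_202 : CertFX 0 536870912 0 536870912 1046898278 26843546 true true false .pp 2 0 2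
    ndF0q2 ndF0q0 pcF2 cut_pm_202 Ext.none :=
  certFX1 (fam := true) (s1 := true) (s2 := false) (a := 2) (b := 0) (c := 2) (cn := .pp) (n1 := ndF0q2) (n2 := ndF0q0) (pc := pcF2) (cut := cut_pm_202) (xt := Ext.none) (P1 := 0) (W1 := 536870912) (P2 := 0) (W2 := 536870912) (P3 := 1046898278) (W3 := 26843546)
    rfl (fun _ => rfl) s72_pm_202

noncomputable def cut_pm_203 : Cut := Cut.of [[⟨3, 0, 0, 1449551462⟩], [⟨4, 0, 0, 2845415833⟩]]

noncomputable def f_pm_203 : ℕ → ℕ → ℕ → ℕ → Bool := onCell 0 536870912 0 536870912 1046898278 26843546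
    (rowFX 0 true true false .up 2 0 3 (qsf 0 536870912 0 536870912 3) ndF0q2 ndF0q0 pcF3 cut_pm_203 Ext.none)

def k0_pm_203 : ∃ t, chk3 f_pm_203 t 2 2 1 = true :=
  ⟨(l 1), by decide +kernel⟩

def k1_pm_203 : ∃ t, chk3 f_pm_203 t 2 6 1 = true :=
  ⟨(b (l 1) (b (a (a (l 1) (l 1)) (l 1)) (a (c (a (c (c (l 16777216) (l 16777216)) (c (l 16777216) (l 16777216))) (a (c (l 16777216) (l 16777216)) (c (a (l 16777216) (l 16777216)) (a (l 16777216) (l 16777216))))) (a (c (c (l 16777216) (l 16777216)) (a (l 16777216) (l 16777216))) (a (c (l 16777216) (l 16777216)) (c (a (l 16777216) (l 16777216)) (a (l 16777216) (l 16777216)))))) (a (c (c (a (l 16777216) (l 16777216)) (a (l 16777216) (l 16777216))) (c (l 16777216) (l 16777216))) (b (l 1) (c (c (a (l 16777216) (l 16777216)) (a (l 16777216) (l 16777216))) (c (a (l 16777216) (l 16777216)) (l 199212662791)))))))), by decide +kernel⟩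

def k2_pm_203 : ∃ t, chk3 f_pm_203 t 2 14 1 = true :=
  ⟨(b (a (c (a (c (c (l 16777216) (l 16777216)) (c (l 16777216) (l 16777216))) (c (a (l 16777216) (a (l 16777216) (l 16777216))) (a (l 16777216) (a (l 16777216) (l 16777216))))) (a (c (c (l 16777216) (l 16777216)) (a (l 16777216) (l 16777216))) (c (a (l 16777216) (a (l 16777216) (l 16777216))) (a (l 16777216) (l 16777216))))) (c (a (c (a (a (l 16777216) (l 16777216)) (l 16777216)) (a (l 16777216) (l 16777216))) (c (a (c (l 16777216) (l 16777216)) (c (l 16777216) (l 16777216))) (a (l 16777216) (c (l 16777216) (l 16777216))))) (a (c (a (l 16777216) (l 16777216)) (a (l 16777216) (l 16777216))) (c (a (l 16777216) (l 16777216)) (a (l 16777216) (l 16777216)))))) (a (a (a (b (c (c (l 16777216) (l 16777216)) (c (l 16777216) (l 16777216))) (l 14)) (c (c (c (l 16777216) (l 16777216)) (c (l 16777216) (l 16777216))) (c (c (l 16777216) (l 16777216)) (c (l 16777216) (l 16777216))))) (c (c (c (a (l 16777216) (l 16777216)) (a (l 16777216) (l 16777216))) (c (a (l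 16777216) (l 16777216)) (l 16777216))) (c (c (l 16777216) (l 16777216)) (a (l 16777216) (l 16777216))))) (a (c (a (c (a (b (l 16777216) (l 16777216)) (l 16777216)) (a (l 16777216) (l 16777216))) (c (c (l 16777216) (l 16777216)) (l 16777216))) (a (c (a (l 16777216) (l 16777216)) (a (l 16777216) (l 16777216))) (c (l 16777216) (l 16777216)))) (c (c (a (c (l 16777216) (l 16777216)) (c (a (l 16777216) (l 16777216)) (l 16777216))) (a (c (l 16777216) (l 16777216)) (c (l 16777216) (l 16777216)))) (c (a (l 16777216) (c (l 16777216) (l 16777216))) (a (l 16777216) (l 16777216))))))), by decide +kernel⟩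

def k3_pm_203 : ∃ t, chk3 f_pm_203 t 2 30 1 = true :=
  ⟨(a (a (a (l 14) (b (c (a (l 14) (c (l 16777216) (l 16777216))) (c (l 16777216) (l 16777216))) (l 14))) (c (c (c (a (l 16777216) (l 16777216)) (a (l 16777216) (l 16777216))) (c (a (l 16777216) (l 16777216)) (a (l 16777216) (l 16777216)))) (c (c (a (l 16777216) (l 16777216)) (a (l 16777216) (l 16777216))) (a (c (l 16777216) (l 16777216)) (c (l 16777216) (l 16777216)))))) (a (c (a (c (a (l 16777216) (b (l 16777216) (l 16777216))) (a (l 16777216) (b (l 16777216) (l 16777216)))) (c (c (l 16777216) (l 16777216)) (c (l 16777216) (l 16777216)))) (a (b (a (l 16777216) (a (l 16777216) (l 16777216))) (c (l 16777216) (l 16777216))) (c (c (l 16777216) (l 16777216)) (c (l 16777216) (l 16777216))))) (c (c (a (c (a (l 16777216) (l 16777216)) (l 16777216)) (a (c (l 16777216) (l 16777216)) (c (l 16777216) (l 16777216)))) (a (c (l 16777216) (l 16777216)) (c (l 16777216) (l 16777216)))) (c (a (c (l 16777216) (l 16777216)) (c (l 16777216) (l 16777216))) (a (c (l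 16777216) (l 16777216)) (c (l 16777216) (l 16777216))))))), by decide +kernel⟩

def k4_pm_203 : ∃ t, chk3 f_pm_203 t 2 31 1 = true :=
  ⟨(a (a (l 14) (a (a (l 14) (b (c (c (l 16777216) (l 16777216)) (c (l 16777216) (l 16777216))) (l 14))) (c (c (c (l 16777216) (l 16777216)) (c (l 16777216) (l 16777216))) (c (c (l 16777216) (l 16777216)) (c (l 16777216) (l 16777216)))))) (a (c (a (c (c (l 16777216) (l 16777216)) (c (l 16777216) (l 16777216))) (c (a (b (l 16777216) (l 16777216)) (l 16777216)) (a (b (l 16777216) (l 16777216)) (l 16777216)))) (a (c (c (l 16777216) (l 16777216)) (c (l 16777216) (l 16777216))) (c (a (b (l 16777216) (l 16777216)) (l 16777216)) (a (b (l 16777216) (l 16777216)) (l 16777216))))) (c (c (a (c (l 16777216) (l 16777216)) (c (l 16777216) (l 16777216))) (a (c (l 16777216) (l 16777216)) (c (l 16777216) (l 16777216)))) (c (a (c (l 16777216) (l 16777216)) (c (l 16777216) (l 16777216))) (a (c (l 16777216) (l 16777216)) (c (l 16777216) (l 16777216))))))), by decide +kernel⟩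

def k5_pm_203 : ∃ t, chk3 f_pm_203 t 6 2 1 = true :=
  ⟨(l 1), by decide +kernel⟩

def k6_pm_203 : ∃ t, chk3 f_pm_203 t 6 6 1 = true :=
  ⟨(l 1), by decide +kernel⟩

def k7_pm_203 : ∃ t, chk3 f_pm_203 t 6 14 1 = true :=
  ⟨(a (a (c (c (c (b (a (l 16777216) (l 16777216)) (a (l 16777216) (c (l 16777216) (l 16777216)))) (b (a (l 16777216) (l 16777216)) (a (l 16777216) (l 16777216)))) (c (b (l 16777216) (l 16777216)) (b (l 16777216) (l 16777216)))) (c (c (b (l 16777216) (l 16777216)) (b (l 16777216) (l 16777216))) (c (b (l 16777216) (l 16777216)) (l 16777216)))) (b (b (l 1) (c (c (c (l 16777216) (l 16777216)) (c (l 16777216) (l 16777216))) (c (c (l 16777216) (l 16777216)) (l 16777216)))) (c (c (c (c (l 16777216) (l 16777216)) (c (l 16777216) (l 16777216))) (c (l 16777216) (l 16777216))) (c (c (l 16777216) (l 16777216)) (c (l 16777216) (l 16777216)))))) (b (a (a (b (l 1) (c (c (a (l 16773880) (l 16746896)) (l 16739264)) (c (l 16739040) (l 16717848)))) (l 1)) (l 1)) (c (a (c (a (c (a (l 16773888) (l 16746992))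 (l 16739424)) (c (l 16698232) (l 16697720))) (a (c (l 16739312) (l 16739208)) (c (l 16697200) (l 16696680)))) (c (a (l 16629480) (l 16557016)) (a (l 16627544) (l 16554136)))) (a (c (a (c (l 16739096) (l 16738984)) (c (l 16696160) (l 16695648))) (a (c (l 16738880) (l 16738768)) (c (l 16695128) (l 16673640)))) (c (c (l 16547480) (l 16504336)) (c (a (l 16624168) (l 16549096)) (a (l 16602232) (l 25265947575)))))))), by decide +kernel⟩

def k8_pm_203 : ∃ t, chk3 f_pm_203 t 12 15 1 = true :=
  ⟨(c (c (a (b (c (a (b (l 16777216) (l 16777216)) (c (l 16777216) (l 16777216))) (a (l 16777216) (l 16777216))) (c (a (l 16777216) (b (l 16777216) (l 16777216))) (a (l 16777216) (l 16777216)))) (b (c (a (l 16777216) (l 16777216)) (c (l 16777216) (l 16777216))) (c (b (a (l 16777216) (l 16777216)) (l 16777216)) (b (l 16777216) (l 16777216))))) (a (b (c (a (l 16777216) (l 16777216)) (a (l 16777216) (l 16777216))) (c (a (l 16777216) (l 16777216)) (a (l 16777216) (l 16777216)))) (b (c (c (l 16777216) (l 16777216)) (l 16777216))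 (c (b (l 16777216) (l 16777216)) (b (l 16777216) (l 16777216)))))) (c (a (b (c (a (l 16777216) (l 16777216)) (l 16777216)) (c (a (l 16777216) (l 16777216)) (l 16777216))) (b (c (l 16777216) (l 16777216)) (c (b (l 16777216) (l 16777216)) (a (l 16777216) (l 16777216))))) (a (b (c (l 16777216) (l 16777216)) (c (l 16777216) (l 16777216))) (b (c (l 16777216) (l 16777216)) (c (a (l 16777216) (l 16777216)) (a (l 16777216) (l 16777216))))))), by decide +kernel⟩

def k9_pm_203 : ∃ t, chk3 f_pm_203 t 13 15 1 = true :=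
  ⟨(c (a (c (b (a (c (a (l 16773888) (l 16746992)) (l 16718456)) (c (l 16698232) (l 16697720))) (a (b (a (l 16773880) (l 16746896)) (a (l 16773880) (l 16746896))) (b (l 16697976) (l 16677008)))) (a (b (c (l 16739312) (l 16739208)) (c (a (l 16773848) (l 16746592)) (a (l 16773824) (l 16746400)))) (b (c (l 16697200) (l 16696680)) (c (l 16697200) (l 16696680))))) (c (b (a (l 16629480) (l 16557016)) (a (l 16629480) (l 16557016))) (b (a (l 16606576) (l 16554136)) (c (l 16528904) (a (l 16627064) (l 16553416)))))) (a (c (b (a (c (l 16739096) (l 16738984)) (c (l 16696160) (l 16695648))) (a (c (a (l 16773808) (l 16746200)) (b (l 16738984) (l 16738984))) (c (l 16675192) (l 16674672)))) (b (a (c (l 16738880) (l 16738768)) (c (l 16674160) (l 16673640))) (a (c (b (l 16738880) (l 16738880)) (b (l 16738768) (l 16738768))) (c (b (l 16695128) (l 16695128)) (b (l 16694608) (l 16694608)))))) (c (b (c (l 16526504) (a (l 16625136) (l 16550536))) (c (a (l 16626096) (l 16551976)) (a (l 16625136) (l 16550536)))) (b (c (a (l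 16624168) (l 16549096)) (a (l 16602232) (l 16526688))) (c (a (l 16603192) (l 16549096)) (b (l 16501936) (a (l 16623200) (l 16547664)))))))), by decide +kernel⟩

def k10_pm_203 : ∃ t, chk3 f_pm_203 t 7 1 1 = true :=
  ⟨(b (l 1) (b (l 1) (b (b (l 1) (b (l 1) (a (a (c (c (l 16440264) (l 16393912)) (c (a (l 16472616) (l 16389456)) (c (l 25265613527) (a (l 16467768) (l 16383280))))) (l 1)) (l 1)))) (a (c (a (a (c (b (l 16480376) (l 16480376)) (b (l 16476496) (l 16476496))) (c (l 16420312) (b (l 16394400) (l 16394400)))) (c (a (b (l 16309592) (l 16309592)) (l 46203368471)) (b (a (l 16282512) (l 16195232)) (a (l 16303480) (l 16195232))))) (a (c (b (a (c (l 16473584) (l 16471648)) (l 16389456)) (a (c (l 16473584) (l 16471648)) (l 16389456))) (b (c (a (l 16469704) (l 16385752)) (a (b (l 16467768) (l 16467768)) (b (l 16383280) (l 16383280)))) (c (a (l 16469704) (l 16385752)) (a (b (l 16467768) (l 16467768)) (l 16383280))))) (c (b (a (c (l 16298896) (l 16274872)) (l 16145784)) (a (c (l 16298896) (l 16295840))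 (l 16187728))) (a (b (c (a (l 16318992) (l 16266312)) (a (b (l 16316104) (l 16316104)) (l 16263088))) (c (a (l 16318992) (l 16266312)) (a (l 16316104) (l 16263088)))) (b (c (l 16182096) (b (l 16178336) (l 16178336))) (c (l 16182096) (b (l 16178336) (l 16178336)))))))) (b (b (l 1) (a (a (c (l 16088264) (c (l 16075984) (c (l 16069288) (l 16022880)))) (l 1)) (l 1))) (a (c (c (a (l 16098872) (l 15992968)) (a (l 16084920) (l 15992768))) (c (c (l 16033648) (l 16028896)) (c (a (l 16069288) (l 15978136)) (a (b (l 16064816) (l 16064816)) (b (l 15973088) (l 15973088)))))) (a (c (c (l 15887744) (l 31706966423)) (c (c (l 15893760) (l 15891472)) (c (l 15886168) (b (l 15880544) (l 15880544))))) (b (l 1) (c (l 15802400) (c (a (l 15812816) (l 15766016)) (c (a (l 15812840) (l 15760216)) (c (l 70361506919) (l 33854295559))))))))))))), by decide +kernel⟩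

theorem s11_pm_203 : ∃ t, chk3 f_pm_203 t 6 15 1 = true := ex3_a k8_pm_203 k9_pm_203

theorem s12_pm_203 : ∃ t, chk3 f_pm_203 t 6 7 1 = true := ex3_b k7_pm_203 s11_pm_203

theorem s13_pm_203 : ∃ t, chk3 f_pm_203 t 6 3 1 = true := ex3_b k6_pm_203 s12_pm_203

theorem s14_pm_203 : ∃ t, chk3 f_pm_203 t 6 1 1 = true := ex3_b k5_pm_203 s13_pm_203

theorem s15_pm_203 : ∃ t, chk3 f_pm_203 t 3 1 1 = true := ex3_a s14_pm_203 k10_pm_203

theorem s16_pm_203 : ∃ t, chk3 f_pm_203 t 2 15 1 = true := ex3_b k3_pm_203 k4_pm_203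

theorem s17_pm_203 : ∃ t, chk3 f_pm_203 t 2 7 1 = true := ex3_b k2_pm_203 s16_pm_203

theorem s18_pm_203 : ∃ t, chk3 f_pm_203 t 2 3 1 = true := ex3_b k1_pm_203 s17_pm_203

theorem s19_pm_203 : ∃ t, chk3 f_pm_203 t 2 1 1 = true := ex3_b k0_pm_203 s18_pm_203

theorem s20_pm_203 : ∃ t, chk3 f_pm_203 t 1 1 1 = true := ex3_a s19_pm_203 s15_pm_203

theorem c_pm_203 : CertFX 0 536870912 0 536870912 1046898278 26843546 true true false .up 2 0 3
    ndF0q2 ndF0q0 pcF3 cut_pm_203 Ext.none :=
  certFX0 (fam := true) (s1 := true) (s2 := false) (a := 2) (b := 0) (c := 3) (cn := .up) (n1 := ndF0q2) (n2 := ndF0q0) (pc := pcF3) (cut := cut_pm_203) (xt := Ext.none) (P1 := 0) (W1 := 536870912) (P2 := 0) (W2 := 536870912) (P3 := 1046898278) (W3 := 26843546)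
    rfl s20_pm_203

end Pool.Agent.Strip051.G.IE1.Tab.C.FA00

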