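import Pool.Agent.Strip051.G.IE1.Tab

/-! # Certificates F10 (generated) -/

set_option linter.all false
set_option maxRecDepth 100000

namespace Pool.Agent.Strip051.G.IE1.Tab.C.FA04

open Pool.Agent.Strip051.PB Pool.Agent.Strip051.PB.T
open Pool.Agent.Strip051.G.IE1.Tab

noncomputable def cut_pm_202 : Cut := Cut.of [[⟨0, 1, 0, 67108864⟩, ⟨1, 0, 0, 67108864⟩, ⟨2, 1, 0, 67108864⟩, ⟨3, 0, 0, 1233125376⟩]]

noncomputable def f_pm_202 : ℕ → ℕ → ℕ → ℕ → Bool := onCell 0 536870912 0 67108864 1046898278 26843546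
    (rowFX 0 true true false .pp 2 0 2 (qsf 0 536870912 0 67108864 2) ndF0q2 ndF4q0 pcF2 cut_pm_202 Ext.none)

def k0_pm_202 : ∃ t, chk3 f_pm_202 t 8 2 1 = true :=
  ⟨(b (c (a (b (c (a (l 16057296) (l 16074104)) (l 16057576)) (c (b (a (c (l 16051328) (l 16033264)) (l 16051256)) (a (l 15978352) (c (l 16005784) (l 15962248)))) (c (a (l 15851216) (l 15968824)) (b (l 15975056) (l 15883616))))) (b (c (l 16114120) (l 16107088)) (c (b (c (l 16099016) (l 16084704)) (l 15997920)) (c (l 16006304) (l 15985408))))) (c (b (a (b (l 16059968) (l 16014488)) (b (l 16111376) (l 16021928))) (a (c (l 15915408) (l 15918040)) (l 15967384))) (b (c (b (l 16053416) (l 16014528)) (b (l 15918848) (l 16016416))) (l 15949032)))) (c (a (c (b (a (c (l 15865144) (l 15833384)) (b (c (l 15905488) (l 15860024)) (c (l 15812672) (l 15793576)))) (c (l 15765304) (l 15776888))) (b (b (a (l 15836384) (l 15842928)) (l 15794488)) (a (l 15802496) (l 15793416)))) (c (b (c (a (l 15787888) (l 15897192)) (l 15713368)) (a (b (a (l 15768160)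 (l 15775208)) (l 15757440)) (c (l 15773984) (l 15792800)))) (b (l 15842048) (a (l 15801840) (l 15824152))))) (a (c (b (a (l 15848544) (l 15857616)) (a (l 15805320) (l 15803760))) (a (l 15807208) (l 15815624))) (c (l 15858144) (l 15847056))))), by decide +kernel⟩

def k1_pm_202 : ∃ t, chk3 f_pm_202 t 9 2 1 = true :=
  ⟨(c (b (b (c (a (l 16189368) (l 16293336)) (a (l 16162776) (l 16205792))) (c (a (b (c (l 16170368) (l 16156736)) (l 16067248)) (b (c (l 16269664) (l 16256984)) (l 16143272))) (c (a (l 16056848) (l 16093736)) (a (l 16036624) (l 16074464))))) (b (c (a (c (l 15928856) (l 15884080)) (c (l 16000304) (l 15956424))) (a (l 15888168) (l 15940904))) (c (a (c (l 15822384) (l 15842336)) (c (l 15909368) (l 15930176))) (a (l 15874416) (l 15963544))))) (b (b (c (b (a (l 16190688) (l 16300048)) (a (l 16056848) (l 16100408))) (a (c (l 15961416) (l 16080824)) (b (c (l 16269208) (l 16220472)) (l 16221992)))) (c (a (l 16019616) (l 16058888)) (a (l 16045728) (l 16149832)))) (a (c (l 15923600) (l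 15914272)) (c (l 16017272) (l 16009736))))), by decide +kernel⟩

def k2_pm_202 : ∃ t, chk3 f_pm_202 t 4 3 1 = true :=
  ⟨(a (c (b (a (c (l 15766464) (b (l 15784648) (l 15771072))) (c (a (b (l 15746760) (l 15745688)) (b (a (l 15748064) (l 15755960)) (a (l 15739392) (l 15737096)))) (b (a (l 15770592) (l 15783960)) (a (l 15745376) (c (l 15750192) (l 15740096)))))) (c (a (b (l 15780304) (l 15786808)) (b (l 15721856) (l 15741648))) (a (l 15748560) (b (l 15717576) (l 15697960))))) (b (a (c (l 15681408) (l 15698184)) (c (a (b (l 15757560) (l 15705416)) (l 15747552)) (l 15643112))) (a (l 15673448) (c (a (l 15664248) (l 15652776)) (a (l 15615648) (l 15609608)))))) (c (b (a (c (a (b (l 15775328) (a (c (l 15712376) (l 15750584)) (l 15753312))) (l 15791344)) (c (b (l 15823928) (l 15784032)) (l 15803864))) (c (a (l 15830944) (l 15877240)) (c (l 15881624) (l 15885176)))) (a (c (b (a (c (l 15707784) (c (l 15715048) (l 15734592))) (c (a (l 15715200) (l 15749120)) (l 15753576))) (a (l 15720392) (c (b (a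 (l 15727136) (l 15712264)) (l 15701944)) (a (l 15710224) (l 15717656))))) (a (b (l 15715896) (l 15677208)) (b (l 15738728) (l 15688544)))) (c (b (c (l 15796616) (l 15808720)) (c (a (b (l 15755624) (a (l 15710232) (l 15746240))) (l 15783944)) (l 15759760))) (l 15765440)))) (b (a (c (l 15788496) (l 15757240)) (c (l 15871008) (l 15841368))) (a (c (a (b (l 15679480) (l 15634584)) (l 15682080)) (l 15637640)) (c (l 15735464) (l 15705264)))))), by decide +kernel⟩

def k3_pm_202 : ∃ t, chk3 f_pm_202 t 10 2 1 = true :=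
  ⟨(b (b (a (c (c (l 16407544) (l 16301592)) (c (c (l 16271440) (b (l 16442336) (l 16334864))) (c (b (l 16392176) (l 16364528)) (l 16188008)))) (a (c (b (b (a (l 16414944) (l 16421440)) (l 16434936)) (l 16406496)) (b (c (b (l 16422720) (l 16426768)) (b (c (l 16418208) (a (l 16423824) (l 16408544))) (l 16326248))) (c (l 16379048) (l 16491056)))) (c (b (b (l 16434280) (a (l 16394672) (l 16397312))) (b (a (l 16395800) (l 16368792)) (l 16357504))) (b (c (b (l 16424760) (l 16346744)) (b (l 16419736) (c (l 16353048) (l 16379208)))) (c (b (a (l 16398928) (l 16329216)) (l 16397456)) (b (a (l 16413760) (l 16364552)) (l 16431536))))))) (c (c (b (a (c (l 16357440) (l 16304064)) (l 16331872)) (a (l 16228472) (l 16325760))) (a (b (c (l 16281136) (l 16330752)) (l 16201328)) (b (l 16358640) (l 16259744)))) (c (a (l 16150648) (l 16234992)) (a (l 16286048) (l 16394488))))) (c (a (c (b (c (l 16101112) (l 16058432)) (l 15973624)) (b (l 16065656) (l 16081896))) (b (c (b (l 16251208) (l 16114240)) (l 16139536))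 (c (l 16058320) (l 16232384)))) (a (c (l 16078256) (l 16136000)) (c (l 16151440) (l 16212168))))), by decide +kernel⟩

def k4_pm_202 : ∃ t, chk3 f_pm_202 t 11 4 1 = true :=
  ⟨(a (b (b (c (l 16414136) (c (l 16448088) (c (l 16429824) (l 16389856)))) (c (a (b (l 16374528) (a (c (l 16347064) (l 16301728)) (l 16320608))) (l 16323280)) (c (a (b (l 16377184) (a (l 16279888) (l 16359152))) (l 16335880)) (a (b (l 16391848) (a (l 16375912) (l 16371304))) (l 16409384))))) (a (c (b (a (b (l 16283136) (l 16324984)) (b (c (l 16321744) (l 16230840)) (l 16279024))) (c (l 16376968) (l 16419848))) (c (b (a (l 16425232) (b (l 16327928) (l 16402360))) (l 16476920)) (c (l 16278640) (l 16318320)))) (c (b (b (c (l 16322664) (l 16336824)) (c (a (b (l 16296896) (l 16304824)) (l 16297288)) (a (l 16341224) (l 16333544)))) (b (a (l 16276560) (b (a (l 16294136) (l 16307424)) (l 16288560))) (l 16267808))) (b (c (b (l 16371368) (a (l 16342296) (l 16355608))) (a (l 16326792) (l 16348248))) (c (a (l 16405048) (l 16319120))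 (l 16297736)))))) (c (b (c (l 16424616) (l 16337712)) (b (c (b (l 16375712) (l 16320248)) (l 16344320)) (a (c (a (b (l 16294432) (l 16309984)) (l 16308160)) (a (b (l 16341664) (c (l 16346656) (l 16356520))) (l 16349624))) (c (l 16336720) (l 16379224))))) (b (c (b (l 16504080) (c (l 16428088) (l 16441624))) (b (b (l 16395496) (l 16403416)) (l 16406168))) (b (c (l 16370304) (l 16396592)) (a (c (a (b (l 16341576) (l 16327592)) (l 16341024)) (a (l 16313536) (l 16315752))) (c (l 16371208) (l 16346376))))))), by decide +kernel⟩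

def k5_pm_202 : ∃ t, chk3 f_pm_202 t 11 5 1 = true :=
  ⟨(a (c (b (c (a (l 16261856) (l 16317896)) (b (l 16353640) (l 16390824))) (c (c (l 16227544) (l 16315576)) (l 16313512))) (c (b (l 16371392) (l 16322440)) (l 16304616))) (b (c (a (b (b (a (l 16263456) (c (l 16297528) (c (l 16328192) (l 16340296)))) (c (l 16389048) (l 16392936))) (c (l 16355464) (l 16436792))) (b (c (a (b (l 16315920) (a (l 16327336) (l 16318256))) (l 16331144)) (a (b (l 16340504) (l 16265600)) (l 16343488))) (a (c (l 16338736) (l 16355312)) (c (b (c (l 16323064) (l 16272624)) (l 16329736)) (b (l 16306920) (l 16313136)))))) (a (a (l 16348488) (b (c (l 16253664) (l 16301136)) (l 16367608))) (b (a (c (b (l 16302608) (l 16283192)) (l 16280704)) (l 16297704)) (a (l 16310600) (b (c (l 16261768) (l 16253360)) (l 16268480)))))) (c (c (a (l 16422384) (l 16352632)) (l 16298360)) (c (l 16291400) (l 16315728))))), by decide +kernel⟩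

def k6_pm_202 : ∃ t, chk3 f_pm_202 t 5 3 1 = true :=
  ⟨(a (c (b (a (c (a (l 15930536) (l 15991208)) (b (l 16024232) (l 15962048))) (c (a (l 16059616) (l 16136184)) (b (l 16167504) (l 16098176)))) (c (a (b (l 15814952) (c (l 15855704) (l 15850656))) (b (c (l 16019584) (l 16033936)) (c (l 15974760) (l 15970912)))) (a (l 15861896) (l 15882592)))) (b (a (c (l 15982032) (l 15954544)) (c (l 16124456) (l 16099728))) (a (c (l 15833848) (l 15805600)) (c (l 15961904) (l 15936160))))) (c (b (a (c (a (l 16221344) (l 16273632)) (a (l 16191904) (l 16246016))) (c (c (l 16274616) (l 16281456)) (a (l 16309880) (l 16384016)))) (a (c (b (a (l 16140016) (l 16228024)) (c (l 15999184) (l 16122656))) (a (l 16101480) (l 16189128))) (c (b (a (l 16325248) (l 16390280)) (c (l 16142352) (l 16309592))) (c (l 16197000) (l 16208832))))) (b (a (c (l 16175840) (l 16217424)) (a (l 16304552) (l 16361056))) (a (c (l 16101968) (l 16100320)) (c (l 16173992) (l 16218088)))))), by decide +kernel⟩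

def k7_pm_202 : ∃ t, chk3 f_pm_202 t 12 2 1 = true :=
  ⟨(b (c (b (c (a (l 16436504) (l 16359864)) (c (l 16273152) (a (l 16393488) (l 16314224)))) (c (b (a (a (l 16382208) (l 16411344)) (l 16404608)) (a (l 16383104) (l 16429920))) (c (a (l 16370496) (l 16442288)) (a (l 16318024) (l 16425192))))) (b (c (b (a (l 16423424) (l 16383080)) (a (c (l 16482128) (l 16495032)) (b (l 16390768) (l 16423352)))) (b (a (c (l 16393464) (b (l 16420208) (l 16467280))) (c (l 16330528) (l 16239352))) (a (l 16440544) (l 16358968)))) (c (a (a (l 16360352) (l 16391480)) (b (l 16434848) (l 16473840))) (a (l 16372416) (l 16469032))))) (a (c (b (b (c (l 16387224) (l 16317144)) (a (c (a (b (l 16335240) (c (l 16307352) (l 16322144))) (l 16343736)) (a (l 16280232) (l 16317240))) (c (l 16379328) (l 16353344)))) (a (b (a (b (c (l 16290760) (l 16284800)) (l 16335216)) (b (c (b (l 16316904) (l 16305968)) (l 16263576)) (a (l 16289920) (l 16248080)))) (l 16306304)) (b (c (b (l 16342528) (l 16306992)) (l 16275168)) (a (b (a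 (l 16258424) (l 16202264)) (l 16269392)) (b (l 16253264) (a (c (l 16255000) (l 16203040)) (l 16223488))))))) (b (b (c (l 16362648) (l 16347912)) (a (a (c (l 16194784) (l 16250488)) (l 16270720)) (l 16307552))) (a (b (a (c (l 16261440) (l 16260672)) (c (b (l 16223048) (l 16219848)) (l 16183632))) (l 16296680)) (b (c (l 16237304) (l 16236224)) (a (b (c (l 16175368) (l 16198096)) (l 16217096)) (b (l 16195048) (a (l 16175584) (l 16169072)))))))) (c (c (b (c (l 16409104) (l 16358616)) (c (l 16291992) (l 16331008))) (b (c (l 16356432) (l 16381808)) (l 16251344))) (c (b (l 16330352) (l 16219040)) (l 16205992))))), by decide +kernel⟩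

def k8_pm_202 : ∃ t, chk3 f_pm_202 t 13 2 1 = true :=
  ⟨(b (c (b (a (c (l 16370784) (b (l 16330176) (l 16381424))) (b (l 16341832) (l 16330680))) (a (c (b (b (l 16536240) (l 16517480)) (l 16539704)) (b (c (l 16530056) (l 16495928)) (l 16479392))) (c (b (l 16547440) (l 16623176)) (b (l 16523208) (l 16556208))))) (a (b (c (b (l 16326048) (c (l 16403920) (l 16381224))) (b (c (l 16272080) (b (l 16284880) (l 16324280))) (c (l 16388608) (l 16392368)))) (c (b (l 16383176) (l 16501968)) (l 16437856))) (b (c (a (b (l 16332568) (l 16398888)) (b (a (l 16334136) (c (l 16332816) (l 16323216))) (c (l 16435584) (l 16304056)))) (b (a (c (l 16319880) (b (c (l 16292664) (l 16286144)) (l 16330016))) (c (b (l 16262112) (a (l 16342776) (l 16330704))) (b (c (l 16268240) (l 16212896)) (a (l 16323040) (l 16298984))))) (a (l 16393816) (c (a (l 16397504) (l 16389976)) (a (l 16396664) (l 16383384)))))) (c (b (l 16477880) (l 16556832)) (a (l 16531384) (a (l 16534000) (b (l 16419840) (l 16582040)))))))) (c (a (c (b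 (a (l 16448880) (l 16522880)) (a (l 16374464) (l 16423784))) (b (b (l 16493776) (l 16479328)) (l 16329704))) (b (c (l 16502280) (l 16460768)) (c (l 16418240) (l 16410944)))) (a (c (a (l 16271296) (l 16322656)) (a (l 16349096) (l 16379960))) (c (l 16236616) (l 16336704))))), by decide +kernel⟩

def k9_pm_202 : ∃ t, chk3 f_pm_202 t 12 3 1 = true :=
  ⟨(b (a (a (c (c (l 16338112) (l 16262496)) (l 16257808)) (c (b (a (l 16215952) (c (l 16258904) (b (l 16223048) (l 16282472)))) (c (l 16396712) (l 16365944))) (a (l 16248648) (c (l 16119488) (l 16208552))))) (c (b (a (b (c (a (b (l 16232600) (l 16205928)) (l 16232800)) (a (b (l 16180176) (a (l 16185608) (l 16161056))) (l 16181048))) (a (l 16239072) (a (c (l 16212960) (l 16165008)) (b (c (l 16186536) (l 16135856)) (l 16166672))))) (a (b (l 16233176) (a (b (l 16167616) (c (l 16168464) (l 16119960))) (l 16120568))) (l 16159928))) (a (c (l 16310344) (l 16255608)) (b (a (c (l 16098024) (c (l 16122432) (l 16134496))) (c (b (l 16149592) (a (l 16140032)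 (l 16123160))) (b (l 16103832) (a (l 16098352) (l 16081040))))) (c (l 16197928) (l 16165296))))) (b (a (b (a (b (a (l 16154208) (l 16157648)) (a (l 16170152) (l 16144896))) (l 16161056)) (a (l 16206592) (b (a (l 16138120) (l 16123792)) (l 16152760)))) (a (b (l 16187640) (b (l 16136944) (a (l 16111488) (l 16109792)))) (l 16181328))) (a (l 16255936) (b (a (a (l 16151128) (l 16117688)) (b (l 16098264) (a (l 16095056) (l 16077312)))) (l 16165608)))))) (c (a (c (b (a (l 16444664) (l 16437560)) (a (l 16388264) (l 16469504))) (b (l 16400512) (l 16357408))) (a (c (b (l 16355408) (l 16402952)) (l 16300648)) (c (b (l 16261704) (l 16271792)) (l 16185512)))) (a (a (l 16340064) (c (l 16433376) (l 16462760))) (a (c (l 16327472) (l 16354432)) (c (l 16230784) (l 16234216)))))), by decide +kernel⟩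

def k10_pm_202 : ∃ t, chk3 f_pm_202 t 26 3 1 = true :=
  ⟨(b (a (c (b (c (l 16274360) (l 16225648)) (b (c (l 16152880) (l 16109736)) (a (a (b (c (l 16104640) (l 16067016)) (l 16103888)) (b (l 16077632) (c (l 16081488) (l 16048824)))) (c (l 16075000) (l 16039728))))) (b (l 16210336) (b (l 16105168) (a (a (b (l 16064656) (l 16086472)) (b (l 16055648) (l 16047016))) (l 16037096))))) (c (c (l 16152512) (l 16026728)) (c (l 16139520) (l 16142768)))) (b (a (c (a (c (l 16169952) (l 16151008)) (b (a (c (l 16064680) (l 16040272)) (b (c (l 16019536) (l 15991896)) (l 15990616))) (l 16087640))) (a (l 16151952) (b (b (a (l 16021672) (l 15989096)) (l 16026024)) (l 16078808)))) (c (b (a (a (b (l 15997976) (c (l 15984016) (l 15961864))) (l 15978752)) (l 15976688)) (a (a (l 16003264) (b (c (l 15950200) (l 15932512)) (l 15961232))) (b (c (l 15929536) (l 15911592)) (a (c (l 15917824) (l 15903848)) (l 15843352))))) (b (a (c (l 15927712) (l 15946560)) (l 15959744)) (a (a (l 15991616) (b (l 15927568) (l 15950008)))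 (b (l 15906416) (a (l 15898008) (l 15871792))))))) (c (a (c (c (l 16155872) (l 16233208)) (l 16233912)) (c (b (a (l 16043488) (a (l 15957504) (l 15901752))) (l 16049328)) (a (l 16069776) (l 15891768)))) (a (l 16109832) (a (l 16067464) (c (l 15909280) (l 15885064))))))), by decide +kernel⟩

def k11_pm_202 : ∃ t, chk3 f_pm_202 t 27 3 1 = true :=
  ⟨(b (c (c (l 16094168) (b (l 16236032) (l 16073816))) (c (l 16060640) (l 16064944))) (b (c (c (l 15946264) (l 15923768)) (a (l 15921032) (l 15920032))) (a (c (b (a (b (c (l 15853496) (l 15842048)) (a (l 15851720) (c (l 15820480) (l 15811128)))) (l 15823448)) (c (a (l 15874032) (b (l 15781576) (a (l 15798296) (l 15752808)))) (a (l 15867464) (b (l 15773576) (l 15771552))))) (b (a (b (l 15834744) (a (l 15840048) (l 15802760))) (l 15810352)) (a (l 15860048) (b (a (l 15768800) (l 15755096)) (a (l 15782160) (l 15734952)))))) (c (c (l 15789256) (l 15778640)) (l 15770328))))), by decide +kernel⟩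

def k12_pm_202 : ∃ t, chk3 f_pm_202 t 14 4 2 = true :=
  ⟨(a (b (a (c (b (a (l 16346296) (l 16317664)) (l 16465480)) (b (a (l 16311504) (l 16277032)) (a (l 16456888) (c (l 16457200) (l 16401864))))) (c (b (a (c (a (l 16339136) (l 16228112)) (l 16260536)) (c (a (l 16302920) (l 16309040)) (l 16296376))) (a (l 16413136) (c (b (l 16376112) (l 16482872)) (l 16415904)))) (a (b (l 16231120) (c (l 16444152) (l 16422488))) (b (l 16266400) (l 16253528))))) (c (a (l 16512416) (b (c (l 16471152) (b (l 16498752) (l 16584040))) (c (l 16648992) (l 16605024)))) (a (b (c (l 16545984) (l 16506752)) (l 16560600)) (c (b (a (l 16496240) (l 16479624)) (l 16560456)) (b (l 16460184) (a (l 16539208) (l 16502808))))))) (b (a (c (b (c (l 16284584) (l 16269816)) (a (c (l 16387280) (l 16408120)) (l 16380336))) (b (l 16245824) (c (l 16382176) (l 16316408)))) (c (c (l 16295472) (b (l 16270816) (l 16388712))) (c (b (l 16263112) (l 16378048)) (b (l 16253368) (l 16338768))))) (c (a (b (a (b (c (l 16488872) (l 16510552))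 (c (l 16573528) (l 16541568))) (c (b (l 16508696) (l 16573944)) (l 16511856))) (a (l 16486672) (a (l 16478072) (l 16493056)))) (b (c (l 16458264) (b (l 16479272) (l 16521368))) (c (a (l 16606320) (l 16593056)) (l 16545024)))) (a (a (b (l 16356096) (a (l 16483560) (l 16508856))) (b (l 16421808) (l 16407720))) (b (c (l 16461000) (l 16412088)) (c (l 16489800) (l 16448736))))))), by decide +kernel⟩

def k13_pm_202 : ∃ t, chk3 f_pm_202 t 14 4 3 = true :=
  ⟨(a (b (c (a (b (c (l 16285568) (l 16223176)) (c (a (l 16408920) (l 16372448)) (b (l 16347608) (l 16353464)))) (b (a (l 16163520) (l 16224488)) (c (b (l 16325784) (l 16387392)) (b (l 16302064) (l 16330304))))) (b (a (c (l 16164504) (b (l 16126472) (l 16241280))) (c (b (l 16169016) (a (l 16231336) (l 16209232))) (b (c (l 16147760) (a (l 16141568) (l 16127112))) (a (l 16195824) (l 16175640))))) (a (c (l 16206816) (l 16329904)) (c (a (l 16298832) (l 16270728)) (l 16244456))))) (c (a (b (c (l 16406896) (a (l 16469016) (l 16454968))) (a (l 16560064)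 (l 16489464))) (b (c (l 16369880) (l 16402920)) (a (c (l 16536000) (l 16547008)) (l 16487584)))) (a (c (b (l 16339272) (l 16467480)) (a (l 16390000) (l 16406032))) (c (l 16334984) (l 16366744))))) (b (c (b (a (c (l 16220744) (l 16202344)) (c (l 16241976) (l 16124160))) (a (c (b (l 16309072) (l 16342064)) (b (l 16268584) (l 16288768))) (c (b (l 16319320) (l 16345024)) (b (l 16284136) (l 16296944))))) (b (c (a (b (l 16156392) (l 16156808)) (b (l 16192352) (c (l 16236616) (l 16219456)))) (a (b (c (l 16138824) (l 16084968)) (l 16168920)) (b (c (l 16158024) (b (l 16162392) (l 16176400))) (l 16202888)))) (a (c (l 16145584) (l 16235832)) (c (l 16183744) (l 16258440))))) (c (a (b (a (c (l 16382824) (l 16358080)) (l 16297952)) (a (l 16473584) (l 16430576))) (b (c (l 16365648) (l 16346920)) (l 16376224))) (a (a (b (l 16301408) (l 16451400)) (b (l 16333672) (l 16411616))) (c (l 16266664) (l 16311744)))))), by decide +kernel⟩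

def k14_pm_202 : ∃ t, chk3 f_pm_202 t 14 5 1 = true :=
  ⟨(b (c (a (c (l 16522224) (a (l 16595800) (c (l 16485080) (l 16477288)))) (a (c (c (b (l 16658104) (l 16651616)) (a (l 16545648) (l 16476256))) (c (b (l 16501544) (l 16652760)) (l 16430384))) (c (a (b (c (l 16644640) (l 16585888)) (l 16525752)) (c (b (l 16622688) (l 16659816)) (l 16436984))) (c (a (l 16458080) (l 16460560)) (l 16404952))))) (a (c (a (l 16560088) (a (b (l 16566360) (l 16524488)) (b (l 16548024) (l 16503624)))) (a (c (l 16410088) (a (l 16533160) (l 16471600))) (a (c (l 16504184) (l 16525680)) (l 16449264)))) (a (c (c (l 16482192) (l 16499392)) (l 16412864)) (c (a (b (l 16529768) (l 16664040)) (b (l 16541712) (l 16604248))) (a (l 16402128) (b (l 16515584) (l 16562992))))))) (c (a (c (l 16431120) (l 16444456)) (c (a (b (c (l 16585552) (l 16567280)) (l 16478480)) (a (b (l 16598752) (l 16494024)) (b (l 16604808) (l 16491704)))) (a (b (a (l 16505848) (l 16545112)) (l 16266800)) (b (l 16528392) (l 16368888))))) (a (a (l 16405200)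 (c (c (l 16363216) (l 16302472)) (a (c (l 16424080) (l 16392920)) (b (l 16419872) (l 16363872))))) (a (c (b (a (l 16421656) (l 16540680)) (c (l 16411408) (l 16382296))) (b (l 16485088) (a (l 16396368) (l 16483992)))) (c (b (l 16560672) (l 16490016)) (l 16443296)))))), by decide +kernel⟩

def k15_pm_202 : ∃ t, chk3 f_pm_202 t 14 3 1 = true :=
  ⟨(c (b (a (c (l 16154432) (l 15944504)) (c (a (l 16237256) (b (a (l 16338920) (l 16248200)) (l 16144376))) (a (b (c (l 16291712) (l 16253776)) (l 16102848)) (a (b (l 16111168) (l 16104904)) (b (l 16129176) (l 16052424)))))) (a (c (b (l 15949064) (l 15785888)) (l 15704536)) (c (a (l 15873112) (l 15867816)) (l 15853552)))) (a (b (c (l 16100920) (a (l 16162112) (b (a (l 16255864) (c (l 16263768) (l 16272032))) (l 16093800)))) (a (l 15782144) (l 15807328))) (b (a (c (b (a (l 16208672) (c (l 16276840) (l 16287864))) (l 16101960)) (b (a (c (l 16282224) (l 16252344)) (b (l 16368432) (l 16261432))) (a (l 16105088) (c (l 16111528) (l 16120184))))) (c (b (c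 (l 16164984) (l 16249224)) (a (l 16030336) (c (l 16120464) (l 16134720)))) (b (c (l 16338640) (l 16395224)) (a (c (l 16126040) (l 16142240)) (l 16126200))))) (a (l 15853536) (c (b (a (l 15934720) (l 15941824)) (l 15766240)) (b (a (c (l 15938000) (l 15944032)) (c (l 15948888) (l 15960664))) (a (l 15764896) (b (l 15811240) (l 15719352))))))))), by decide +kernel⟩

def k16_pm_202 : ∃ t, chk3 f_pm_202 t 60 1 1 = true :=
  ⟨(b (b (c (b (c (a (l 16346608) (l 16355472)) (b (a (l 16268880) (l 16290224)) (c (l 16402464) (b (l 16374120) (a (l 16408512) (l 16425696)))))) (c (b (c (l 16491960) (b (l 16485576) (l 16521872))) (c (l 16557752) (l 16536696))) (b (c (b (l 16426416) (l 16481112)) (l 16431704)) (c (l 16488936) (l 16453856))))) (b (c (b (a (c (l 16283432) (l 16274912)) (l 6)) (c (b (l 16321320) (l 16381464)) (b (l 16291984) (l 16339136)))) (a (b (c (b (l 6) (l 16232728)) (l 6)) (c (l 16306464) (l 16301696))) (l 6))) (c (b (c (l 16348968) (l 16314888)) (l 16368472)) (a (b (l 16370912) (l 16445456))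 (b (l 16393360) (l 16460248)))))) (c (b (c (c (c (l 16624536) (l 16500048)) (b (l 16534088) (l 16588160))) (b (c (l 16526832) (l 16525912)) (l 16619944))) (a (c (b (l 16578848) (l 16523480)) (l 16506352)) (c (b (l 16673504) (l 16568864)) (l 16564040)))) (b (c (c (l 16502976) (l 16484800)) (b (l 16482944) (l 16538560))) (c (a (b (l 16649168) (l 16544288)) (l 16504696)) (a (l 16499400) (l 16569584)))))) (c (b (b (c (a (l 16244120) (b (l 16471480) (l 16349040))) (c (l 16264528) (l 16334048))) (c (a (l 16155592) (l 16032040)) (c (l 16017632) (l 16108776)))) (c (b (a (l 15953856) (l 15970480)) (l 15781888)) (b (a (l 15939376) (l 15960536)) (a (l 15764968) (l 15778016))))) (b (b (c (l 16217800) (a (l 16438824) (l 16418144))) (c (a (l 16158144) (l 16214000)) (l 16201464))) (c (b (a (l 15828272) (l 15987800)) (a (l 15767952) (l 15703176))) (b (a (l 15879352) (l 16042376)) (a (c (l 15770984) (l 15778912)) (c (l 15799256) (l 15817872)))))))), by decide +kernel⟩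

def k17_pm_202 : ∃ t, chk3 f_pm_202 t 61 1 1 = true :=
  ⟨(b (b (c (b (a (c (l 16288304) (c (l 16374400) (l 6))) (l 6)) (c (b (c (l 16490672) (b (l 16503512) (l 16533832))) (c (l 16565208) (l 16540144))) (c (b (b (l 16471048) (l 16499240)) (l 16498464)) (b (l 16459840) (a (l 16463992) (l 16478560)))))) (b (l 6) (a (c (b (c (l 16416800) (l 6)) (l 16469168)) (b (l 6) (l 16477136))) (c (b (l 6) (l 16490256)) (l 6))))) (c (c (b (b (l 16467856) (c (l 16590736) (l 16526760))) (c (l 16549160) (l 16585192))) (b (b (c (a (l 16520960) (l 16528032)) (l 16528240)) (c (l 16599000) (l 16613920))) (l 16462976))) (c (b (b (l 16512000) (c (l 16630320) (l 16613864))) (b (l 16690112) (l 16626208))) (b (b (l 16505520) (l 16566968)) (l 16581496))))) (a (b (c (b (c (b (l 16451120) (l 16396816)) (l 16343488)) (c (l 16170112) (l 16225000))) (b (b (c (l 16522016) (l 16570696)) (l 16345328)) (l 16147600))) (c (c (b (c (l 15994208) (l 15985680)) (l 15794736)) (b (l 16000016) (l 15804784))) (b (l 15950208) (c (l 15825136)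 (l 15873568))))) (b (c (b (c (b (l 16544984) (l 16434152)) (l 16398872)) (c (l 16112024) (l 16230056))) (b (b (l 16509360) (l 16403248)) (b (l 16287952) (l 16291296)))) (c (c (b (l 15850728) (c (l 15802400) (l 15811720))) (b (l 16053992) (l 15836272))) (c (l 15755520) (l 15921432)))))), by decide +kernel⟩

def k18_pm_202 : ∃ t, chk3 f_pm_202 t 31 2 1 = true :=
  ⟨(b (c (a (b (l 6) (c (b (l 6) (c (l 16577360) (l 16582472))) (l 6))) (l 6)) (l 6)) (b (a (c (c (b (l 16554440) (a (l 16594528) (l 16603832))) (b (c (l 16476544) (a (l 16555232) (l 6))) (a (l 16607648) (l 16648088)))) (c (a (c (l 16569776) (l 16582712)) (l 6)) (l 6))) (l 6)) (c (c (a (b (l 16611720) (l 16680872)) (b (l 16616560) (l 16720400))) (a (c (l 16575472) (l 16540920)) (a (l 16586392) (l 6)))) (a (a (c (l 16647728) (l 16654280)) (c (l 16600520) (l 16689912))) (c (a (b (l 6) (l 16592936)) (l 6)) (l 6)))))), by decide +kernel⟩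

def k19_pm_202 : ∃ t, chk3 f_pm_202 t 31 3 1 = true :=
  ⟨(c (b (a (c (b (b (a (l 16567064) (l 16589528)) (l 16394440)) (a (b (l 16351904) (l 16237800)) (l 16331376))) (b (c (l 16448616) (l 16448864)) (a (l 16226160) (l 16333576)))) (b (c (b (l 16630736) (l 16537040)) (c (l 16456616) (l 16397592))) (c (a (l 16370096) (l 16408008)) (c (l 16342336) (l 16369536))))) (a (b (c (a (l 16062864) (b (l 16165000) (l 16052104))) (a (l 16102592) (l 16140624))) (c (c (a (l 15824440) (l 15870352)) (l 15863512)) (l 15904488))) (b (c (a (b (l 16212048) (l 16106000)) (l 16209216)) (l 16070848)) (c (a (l 15798744) (c (l 15895832) (l 16008880))) (a (l 15982112) (l 16035832)))))) (b (a (b (c (a (l 16531800) (l 16519032)) (l 16471768)) (c (a (l 16337568) (l 16381456)) (a (l 16339664) (l 16425544)))) (b (c (a (l 16495304) (l 16531960)) (a (l 16532912) (l 6))) (c (a (l 16392120) (l 16400472)) (a (l 16435144) (l 16393624))))) (a (b (c (a (l 16159368) (l 16177504)) (a (l 16205824) (l 16246624))) (c (l 15969192)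 (l 16017520))) (c (b (a (l 16225752) (l 16247928)) (a (l 16034000) (l 16073728))) (b (a (l 16274040) (l 16288720)) (a (l 16085264) (l 15951312))))))), by decide +kernel⟩

theorem s20_pm_202 : ∃ t, chk3 f_pm_202 t 31 1 1 = true := ex3_b k18_pm_202 k19_pm_202

theorem s21_pm_202 : ∃ t, chk3 f_pm_202 t 30 1 1 = true := ex3_a k16_pm_202 k17_pm_202

theorem s22_pm_202 : ∃ t, chk3 f_pm_202 t 15 1 1 = true := ex3_a s21_pm_202 s20_pm_202

theorem s23_pm_202 : ∃ t, chk3 f_pm_202 t 14 4 1 = true := ex3_c k12_pm_202 k13_pm_202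

theorem s24_pm_202 : ∃ t, chk3 f_pm_202 t 14 2 1 = true := ex3_b s23_pm_202 k14_pm_202

theorem s25_pm_202 : ∃ t, chk3 f_pm_202 t 14 1 1 = true := ex3_b s24_pm_202 k15_pm_202

theorem s26_pm_202 : ∃ t, chk3 f_pm_202 t 7 1 1 = true := ex3_a s25_pm_202 s22_pm_202

theorem s27_pm_202 : ∃ t, chk3 f_pm_202 t 13 3 1 = true := ex3_a k10_pm_202 k11_pm_202

theorem s28_pm_202 : ∃ t, chk3 f_pm_202 t 6 3 1 = true := ex3_a k9_pm_202 s27_pm_202

theorem s29_pm_202 : ∃ t, chk3 f_pm_202 t 6 2 1 = true := ex3_a k7_pm_202 k8_pm_202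

theorem s30_pm_202 : ∃ t, chk3 f_pm_202 t 6 1 1 = true := ex3_b s29_pm_202 s28_pm_202

theorem s31_pm_202 : ∃ t, chk3 f_pm_202 t 3 1 1 = true := ex3_a s30_pm_202 s26_pm_202

theorem s32_pm_202 : ∃ t, chk3 f_pm_202 t 11 2 1 = true := ex3_b k4_pm_202 k5_pm_202

theorem s33_pm_202 : ∃ t, chk3 f_pm_202 t 5 2 1 = true := ex3_a k3_pm_202 s32_pm_202

theorem s34_pm_202 : ∃ t, chk3 f_pm_202 t 5 1 1 = true := ex3_b s33_pm_202 k6_pm_202

theorem s35_pm_202 : ∃ t, chk3 f_pm_202 t 4 2 1 = true := ex3_a k0_pm_202 k1_pm_202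

theorem s36_pm_202 : ∃ t, chk3 f_pm_202 t 4 1 1 = true := ex3_b s35_pm_202 k2_pm_202

theorem s37_pm_202 : ∃ t, chk3 f_pm_202 t 2 1 1 = true := ex3_a s36_pm_202 s34_pm_202

theorem s38_pm_202 : ∃ t, chk3 f_pm_202 t 1 1 1 = true := ex3_a s37_pm_202 s31_pm_202

theorem c_pm_202 : CertFX 0 536870912 0 67108864 1046898278 26843546 true true false .pp 2 0 2
    ndF0q2 ndF4q0 pcF2 cut_pm_202 Ext.none :=
  certFX0 (fam := true) (s1 := true) (s2 := false) (a := 2) (b := 0) (c := 2) (cn := .pp) (n1 := ndF0q2) (n2 := ndF4q0) (pc := pcF2) (cut := cut_pm_202) (xt := Ext.none) (P1 := 0) (W1 := 536870912) (P2 := 0) (W2 := 67108864) (P3 := 1046898278) (W3 := 26843546)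
    rfl s38_pm_202

noncomputable def f_pm_203 : ℕ → ℕ → ℕ → ℕ → Bool := onCell 0 536870912 0 67108864 1046898278 26843546
    (rowFX 0 true true false .up 2 0 3 (qsf 0 536870912 0 67108864 3) ndF0q2 ndF4q0 pcF3 Cut.none Ext.none)

def k0_pm_203 : ∃ t, chk3 f_pm_203 t 1 1 1 = true :=
  ⟨(l 1), by decide +kernel⟩

theorem c_pm_203 : CertFX 0 536870912 0 67108864 1046898278 26843546 true true false .up 2 0 3
    ndF0q2 ndF4q0 pcF3 Cut.none Ext.none :=
  certFX0 (fam := true) (s1 := true) (s2 := false) (a := 2) (b := 0) (c := 3) (cn := .up) (n1 := ndF0q2) (n2 := ndF4q0) (pc := pcF3) (cut := Cut.none) (xt := Ext.none) (P1 := 0) (W1 := 536870912) (P2 := 0) (W2 := 67108864) (P3 := 1046898278) (W3 := 26843546)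
    rfl k0_pm_203

noncomputable def f_mm_001 : ℕ → ℕ → ℕ → ℕ → Bool := onCell 0 536870912 0 67108864 1046898278 26843546
    (rowFX 0 true false false .up 0 0 1 (qsf 0 536870912 0 67108864 1) ndF0q0 ndF4q0 pcF1 Cut.none Ext.none)

def k0_mm_001 : ∃ t, chk3 f_mm_001 t 1 1 1 = true :=
  ⟨(l 4), by decide +kernel⟩

theorem c_mm_001 : CertFX 0 536870912 0 67108864 1046898278 26843546 true false false .up 0 0 1
    ndF0q0 ndF4q0 pcF1 Cut.none Ext.none :=
  certFX0 (fam := true) (s1 := false) (s2 := false) (a := 0) (b := 0) (c := 1) (cn := .up) (n1 := ndF0q0) (n2 := ndF4q0) (pc := pcF1) (cut := Cut.none) (xt := Ext.none) (P1 := 0) (W1 := 536870912) (P2 := 0) (W2 := 67108864) (P3 := 1046898278) (W3 := 26843546)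
    rfl k0_mm_001

noncomputable def cut_mm_101 : Cut := Cut.of [[⟨0, 1, 0, 67108864⟩, ⟨1, 0, 0, 67108864⟩, ⟨2, 1, 0, 67108864⟩]]

noncomputable def f_mm_101 : ℕ → ℕ → ℕ → ℕ → Bool := onCell 536870912 536870912 0 67108864 1046898278 26843546
    (rowFX 0 true false false .npn 1 0 1 (qsf 536870912 536870912 0 67108864 1) ndF0q1 ndF4q0 pcF1 cut_mm_101 Ext.none)

def k0_mm_101 : ∃ t, chk3 f_mm_101 t 1 1 1 = true :=
  ⟨(a (l 4) (a (l 4) (a (l 4) (a (l 4) (b (l 6) (l 4)))))), by decide +kernel⟩

theorem c_mm_101 : CertFX 536870912 536870912 0 67108864 1046898278 26843546 true false false .npn 1 0 1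
    ndF0q1 ndF4q0 pcF1 cut_mm_101 Ext.none :=
  certFX0 (fam := true) (s1 := false) (s2 := false) (a := 1) (b := 0) (c := 1) (cn := .npn) (n1 := ndF0q1) (n2 := ndF4q0) (pc := pcF1) (cut := cut_mm_101) (xt := Ext.none) (P1 := 536870912) (W1 := 536870912) (P2 := 0) (W2 := 67108864) (P3 := 1046898278) (W3 := 26843546)
    rfl k0_mm_101

noncomputable def cut_mm_102 : Cut := Cut.of [[⟨0, 1, 0, 67108864⟩, ⟨1, 0, 0, 67108864⟩, ⟨2, 1, 0, 67108864⟩]]

noncomputable def f_mm_102 : ℕ → ℕ → ℕ → ℕ → Bool := onCell 536870912 536870912 0 67108864 1046898278 26843546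
    (rowFX 0 true false false .npp 1 0 2 (qsf 536870912 536870912 0 67108864 2) ndF0q1 ndF4q0 pcF2 cut_mm_102 Ext.none)

def k0_mm_102 : ∃ t, chk3 f_mm_102 t 1 1 1 = true :=
  ⟨(a (l 1) (a (l 1) (a (l 4) (a (l 4) (b (l 6) (l 4)))))), by decide +kernel⟩

theorem c_mm_102 : CertFX 536870912 536870912 0 67108864 1046898278 26843546 true false false .npp 1 0 2
    ndF0q1 ndF4q0 pcF2 cut_mm_102 Ext.none :=
  certFX0 (fam := true) (s1 := false) (s2 := false) (a := 1) (b := 0) (c := 2) (cn := .npp) (n1 := ndF0q1) (n2 := ndF4q0) (pc := pcF2) (cut := cut_mm_102) (xt := Ext.none) (P1 := 536870912) (W1 := 536870912) (P2 := 0) (W2 := 67108864) (P3 := 1046898278) (W3 := 26843546)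
    rfl k0_mm_102

noncomputable def cut_mm_202 : Cut := Cut.of [[⟨0, 1, 0, 67108864⟩, ⟨1, 0, 0, 67108864⟩, ⟨2, 1, 0, 67108864⟩]]

noncomputable def f_mm_202 : ℕ → ℕ → ℕ → ℕ → Bool := onCell 0 536870912 0 67108864 1046898278 26843546
    (rowFX 0 true false false .pp 2 0 2 (qsf 0 536870912 0 67108864 2) ndF0q2 ndF4q0 pcF2 cut_mm_202 Ext.none)

def k0_mm_202 : ∃ t, chk3 f_mm_202 t 4 1 1 = true :=
  ⟨(b (a (b (c (a (b (c (a (l 16054176) (l 16063624)) (a (c (l 16044312) (l 16035888)) (l 16044936))) (c (b (c (l 16065928) (l 16044768)) (l 15996704)) (b (a (l 15982560) (l 15995856)) (l 15908000)))) (b (c (l 16094088) (l 16074560)) (c (b (l 16093128) (l 16040040)) (b (l 16030056) (l 15952328))))) (c (b (a (b (l 16036576) (c (l 16011296) (l 15983512))) (b (l 16058688) (l 16026200))) (a (a (l 15908272) (l 15918088)) (l 15953808))) (b (a (b (c (l 16021120) (l 16012080)) (l 15962272)) (b (c (l 16037656) (l 16024104)) (l 15984824))) (a (l 15910400) (l 15943896))))) (c (c (b (a (c (l 15889032) (l 15857504))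 (l 15925712)) (a (l 15807080) (l 15861080))) (a (b (l 15849792) (l 15832296)) (l 15892808))) (a (c (b (l 15864424) (l 15835072)) (l 15821168)) (c (l 15898648) (l 15873576))))) (b (c (b (c (l 16189336) (a (l 16132328) (l 16208272))) (c (a (b (l 16152808) (l 16101864)) (l 16094360)) (c (l 16028672) (l 15981560)))) (c (b (b (l 16157176) (a (l 16086584) (l 16165472))) (a (l 16017592) (l 16099168))) (b (b (a (l 16024248) (l 16103376)) (l 16046736)) (l 16053088)))) (c (c (b (a (l 15990688) (l 16070960)) (a (l 15931080) (l 16014616))) (a (l 15961992) (l 16046224))) (a (c (l 15969520) (l 15946160)) (l 15979680))))) (c (a (b (c (a (l 15812320) (l 15875400)) (a (l 15820296) (l 15884648))) (c (a (l 15776208) (l 15913864)) (a (l 15808968) (l 15885152)))) (b (c (a (l 15953032) (l 16042816)) (a (l 15964080) (l 16056152))) (c (a (l 16001320) (l 16099192)) (l 15963288)))) (a (c (b (l 15826216) (l 15800096)) (b (l 15777920) (l 15751080))) (c (b (l 15987824) (l 15981832)) (a (l 15882896) (l 15983816)))))),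 by decide +kernel⟩

def k1_mm_202 : ∃ t, chk3 f_mm_202 t 5 1 1 = true :=
  ⟨(b (a (b (c (b (a (l 16285480) (b (a (l 16372608) (l 16397312)) (a (l 16386784) (l 16438952)))) (c (a (l 16207616) (l 16334040)) (a (l 16150944) (b (l 16372096) (l 16300504))))) (b (a (c (l 16165760) (b (l 16200104) (l 16225136))) (c (b (l 16366416) (a (l 16341320) (l 16395608))) (b (c (l 16265888) (l 16191584)) (l 16293352)))) (c (l 16128816) (l 16252632)))) (c (c (b (a (l 16165256) (l 16272440)) (l 16124040)) (a (l 16143888) (l 16253936))) (a (l 16144304) (l 16259072)))) (b (c (a (a (b (l 16354528) (b (l 16373320) (l 16423304))) (b (l 16452600) (b (l 16391216) (l 16357792)))) (b (l 16460504) (b (l 16512808) (a (l 16343016) (l 16522552))))) (b (b (c (l 16363560) (c (l 16322336) (a (l 16361816) (l 16365880)))) (a (c (a (l 16428528) (l 16441064)) (l 16400176)) (c (l 16464536) (l 16427600)))) (a (c (a (l 16397656) (l 16445816)) (a (l 16399712) (l 16448624))) (c (a (l 16479440) (l 16501776)) (l 16448288))))) (c (a (b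 (c (l 16390544) (l 16376376)) (l 16352568)) (b (a (l 16297504) (b (l 16520304) (l 16526128))) (l 16482384))) (a (c (l 16394832) (l 16383232)) (b (a (l 16499864) (b (l 16542312) (l 16539928))) (l 16518064)))))) (a (c (b (a (l 16106096) (l 16215640)) (c (a (l 16205408) (l 16318048)) (l 16180592))) (b (a (l 16120472) (l 16236472)) (a (l 16122872) (l 16243536)))) (c (b (a (l 16291752) (l 16418632)) (c (a (l 16414360) (l 16555816)) (l 16296088))) (a (b (l 16361760) (l 16369824)) (b (l 16475632) (l 16479304)))))), by decide +kernel⟩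

def k2_mm_202 : ∃ t, chk3 f_mm_202 t 12 2 1 = true :=
  ⟨(b (c (b (a (l 16356432) (c (l 16494208) (l 16433568))) (c (a (l 16486904) (l 16398944)) (a (l 16531024) (b (l 16476120) (l 16496136))))) (b (c (a (b (l 16481536) (l 16520808)) (b (l 16523840) (c (l 16518664) (l 16546392)))) (a (b (c (l 16456376) (b (l 16387176) (l 16446744))) (l 16479368)) (b (c (l 16411256) (c (l 16438544) (l 16439936))) (l 16415152)))) (c (a (l 16545008) (l 16494784)) (a (l 16541976) (l 16524496))))) (a (c (b (a (l 16469768) (l 16514464)) (a (l 16442552) (b (l 16513784) (l 16501344)))) (b (a (l 16523232) (l 16509016)) (a (l 16474256) (b (l 16478296) (l 16472896))))) (c (c (l 16405224) (l 16464104)) (c (l 16449400) (l 16458896))))), by decide +kernel⟩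

def k3_mm_202 : ∃ t, chk3 f_mm_202 t 13 2 1 = true :=
  ⟨(b (c (a (b (c (l 16474024) (b (l 16535440) (l 16411456))) (c (b (l 16375440) (l 16393512)) (b (l 16412352) (l 16447056)))) (b (c (a (b (l 16526488) (l 16474656)) (b (l 16529624) (a (l 16456256) (l 16477832)))) (a (b (l 16576672) (l 16515040)) (b (l 16593040) (b (l 16547304) (l 16458848))))) (c (b (c (l 16344840) (l 16385992)) (l 16408344)) (b (b (l 16396776) (l 16508032)) (l 16517432))))) (b (a (c (b (a (l 16548000) (l 16580576)) (c (l 16508528) (l 16518552))) (b (c (a (l 16513736) (l 16476296)) (a (c (l 16511216) (l 16501184)) (b (c (l 16552440) (l 16524864)) (l 16567568)))) (c (l 16563344) (l 16573224)))) (c (b (a (a (l 16604360) (l 16528112)) (b (l 16604048) (l 16572896))) (a (c (l 16553304) (l 16587264)) (b (a (l 16573192) (l 16601520)) (c (l 16571448) (l 16617448))))) (b (a (b (c (l 16522296) (a (c (l 16546000) (l 16512528)) (c (l 16503000) (c (l 16472376) (l 16487248))))) (c (l 16547392) (l 16538600))) (c (b (l 16574800) (a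 (l 16528824) (l 16579408))) (b (c (l 16534376) (b (l 16495416) (l 16545776))) (c (l 16549672) (l 16542168))))) (a (c (l 16612456) (l 16600312)) (a (c (l 16591280) (l 16577856)) (b (l 16534808) (l 16550032))))))) (a (c (a (l 16439912) (l 16510160)) (a (l 16494392) (l 16525880))) (c (b (a (l 16559232) (l 16585472)) (l 16544608)) (a (l 16559632) (b (l 16587376) (l 16567952))))))) (b (c (a (c (l 16412544) (l 16432640)) (c (l 16400504) (l 16491728))) (a (a (l 16436512) (l 16435168)) (c (l 16482936) (l 16482416)))) (c (a (l 16405200) (c (l 16457672) (l 16430296))) (a (l 16324112) (c (l 16424112) (l 16454064)))))), by decide +kernel⟩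

def k4_mm_202 : ∃ t, chk3 f_mm_202 t 7 4 1 = true :=
  ⟨(a (a (c (b (c (a (l 16472856) (l 16379880)) (c (a (l 16559552) (l 16551592)) (b (l 16615048) (l 16517432)))) (c (a (b (b (l 16433888) (l 16315848)) (c (l 16378504) (l 16475520))) (b (l 16289400) (l 16360264))) (b (a (l 16467056) (l 16472096)) (a (l 16544696) (l 16554008))))) (b (c (b (a (l 16577344) (l 16566064)) (c (b (l 16592136) (l 16588208)) (b (l 16630128) (l 16636264)))) (b (c (b (a (l 16572840) (l 16593792)) (a (l 16552128) (c (l 16647648) (l 16626496)))) (b (a (c (l 16510960) (b (c (l 16559184) (l 16531400)) (l 16564040))) (a (c (l 16547008) (b (c (l 16574024) (l 16567080)) (l 16578904))) (l 6))) (c (l 16557512) (l 16570488)))) (c (b (l 16568856) (l 16648760)) (l 16543920)))) (c (a (b (c (l 16595784) (l 16616144)) (l 16576712)) (b (l 16611880) (l 16587856))) (a (b (a (l 16624464) (l 16630488)) (a (l 16586536) (l 16595144))) (l 16621984))))) (b (a (b (l 6) (a (b (l 6) (c (c (l 16430328) (l 16445824)) (c (l 16616960) (l 16622976))))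 (l 6))) (l 6)) (a (c (c (b (c (l 16373488) (l 16429872)) (l 16302192)) (c (b (l 16478784) (l 16534392)) (b (l 16570216) (l 16587784)))) (c (b (l 16624744) (l 16600424)) (l 16583512))) (b (l 6) (c (c (l 16431368) (c (l 16536664) (c (l 16565096) (l 16628344)))) (c (l 16607384) (l 16621488))))))) (l 6)), by decide +kernel⟩

def k5_mm_202 : ∃ t, chk3 f_mm_202 t 7 5 1 = true :=
  ⟨(a (c (a (b (c (a (b (l 16401984) (l 16494832)) (b (c (l 16434768) (l 16440160)) (c (l 16405856) (l 16468392)))) (a (l 16519072) (b (l 16527904) (l 16521400)))) (c (a (l 16484992) (b (l 16425424) (l 4))) (a (l 16454768) (l 16481496)))) (b (c (c (l 79690817463) (a (l 16404424) (l 4))) (a (c (l 16519848) (l 16557984)) (c (l 4) (l 16605736)))) (l 4))) (a (b (a (c (l 16514504) (l 16540072)) (c (b (l 16545840) (l 16507496)) (a (l 16511200) (l 16538192)))) (a (l 16465032) (c (l 16447768) (l 16500360)))) (a (b (c (l 16546104) (l 16570328)) (b (c (l 16462792) (l 16511552)) (a (l 16449128) (l 16451440)))) (c (b (l 16545200)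 (l 4)) (b (l 16561064) (l 16572656)))))) (a (b (l 6) (l 4)) (l 4))), by decide +kernel⟩

def k6_mm_202 : ∃ t, chk3 f_mm_202 t 3 3 1 = true :=
  ⟨(a (a (b (a (c (a (l 16564176) (l 16510928)) (l 16368200)) (c (b (a (b (l 16455704) (l 16430896)) (l 16372384)) (a (l 16458416) (b (l 16319336) (l 16404392)))) (b (a (b (l 16416208) (l 16444712)) (l 16401368)) (a (l 16465584) (b (l 16382600) (l 16413168)))))) (c (a (c (l 16542096) (l 16548560)) (c (l 16398640) (l 16441568))) (a (l 16516560) (l 16402864)))) (b (a (c (a (b (l 16387632) (b (l 16372608) (a (l 16368264) (l 16369880)))) (l 16328360)) (a (b (l 16379216) (b (l 16375232) (l 16313864))) (l 16389288))) (c (b (a (l 16403016) (l 16409904)) (c (l 16405336) (l 16381280))) (b (l 16366376) (l 16363232)))) (a (c (b (a (a (l 16373248) (l 16331312)) (b (l 16357328) (a (l 16377944) (l 16383096)))) (a (l 16379912) (l 4))) (a (b (l 16345736) (l 16401808)) (b (b (l 16392424) (a (l 16395072) (l 16400512))) (l 16407728)))) (b (c (l 16353832) (l 16390680))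 (c (l 4) (a (b (a (l 16412240) (l 4)) (l 4)) (l 4))))))) (a (b (a (c (a (c (l 4) (l 16365064)) (l 4)) (a (b (l 16424176) (l 16414936)) (b (l 16430616) (l 16437392)))) (c (l 4) (a (b (a (l 16476504) (l 4)) (l 4)) (l 4)))) (l 4)) (l 4))), by decide +kernel⟩

theorem s7_mm_202 : ∃ t, chk3 f_mm_202 t 7 2 1 = true := ex3_b k4_mm_202 k5_mm_202

theorem s8_mm_202 : ∃ t, chk3 f_mm_202 t 6 2 1 = true := ex3_a k2_mm_202 k3_mm_202

theorem s9_mm_202 : ∃ t, chk3 f_mm_202 t 3 2 1 = true := ex3_a s8_mm_202 s7_mm_202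

theorem s10_mm_202 : ∃ t, chk3 f_mm_202 t 3 1 1 = true := ex3_b s9_mm_202 k6_mm_202

theorem s11_mm_202 : ∃ t, chk3 f_mm_202 t 2 1 1 = true := ex3_a k0_mm_202 k1_mm_202

theorem s12_mm_202 : ∃ t, chk3 f_mm_202 t 1 1 1 = true := ex3_a s11_mm_202 s10_mm_202

theorem c_mm_202 : CertFX 0 536870912 0 67108864 1046898278 26843546 true false false .pp 2 0 2
    ndF0q2 ndF4q0 pcF2 cut_mm_202 Ext.none :=
  certFX0 (fam := true) (s1 := false) (s2 := false) (a := 2) (b := 0) (c := 2) (cn := .pp) (n1 := ndF0q2) (n2 := ndF4q0) (pc := pcF2) (cut := cut_mm_202) (xt := Ext.none) (P1 := 0) (W1 := 536870912) (P2 := 0) (W2 := 67108864) (P3 := 1046898278) (W3 := 26843546)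
    rfl s12_mm_202

noncomputable def f_mm_203 : ℕ → ℕ → ℕ → ℕ → Bool := onCell 0 536870912 0 67108864 1046898278 26843546
    (rowFX 0 true false false .up 2 0 3 (qsf 0 536870912 0 67108864 3) ndF0q2 ndF4q0 pcF3 Cut.none Ext.none)

def k0_mm_203 : ∃ t, chk3 f_mm_203 t 1 1 1 = true :=
  ⟨(l 1), by decide +kernel⟩

theorem c_mm_203 : CertFX 0 536870912 0 67108864 1046898278 26843546 true false false .up 2 0 3
    ndF0q2 ndF4q0 pcF3 Cut.none Ext.none :=
  certFX0 (fam := true) (s1 := false) (s2 := false) (a := 2) (b := 0) (c := 3) (cn := .up) (n1 := ndF0q2) (n2 := ndF4q0) (pc := pcF3) (cut := Cut.none) (xt := Ext.none) (P1 := 0) (W1 := 536870912) (P2 := 0) (W2 := 67108864) (P3 := 1046898278) (W3 := 26843546)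
    rfl k0_mm_203

end Pool.Agent.Strip051.G.IE1.Tab.C.FA04

namespace Pool.Agent.Strip051.G.IE1.Tab.C.FA05

open Pool.Agent.Strip051.PB Pool.Agent.Strip051.PB.T
open Pool.Agent.Strip051.G.IE1.Tab

noncomputable def f_pp_001 : ℕ → ℕ → ℕ → ℕ → Bool := onCell 0 536870912 0 536870912 1046898278 26843546
    (rowFX 0 true true true .up 0 0 1 (qsf 0 536870912 0 536870912 1) ndF0q0 ndF5q0 pcF1 Cut.none Ext.none)

def k0_pp_001 : ∃ t, chk3 f_pp_001 t 1 1 1 = true :=
  ⟨(l 4), by decide +kernel⟩

theorem c_pp_001 : CertFX 0 536870912 0 536870912 1046898278 26843546 true true true .up 0 0 1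
    ndF0q0 ndF5q0 pcF1 Cut.none Ext.none :=
  certFX0 (fam := true) (s1 := true) (s2 := true) (a := 0) (b := 0) (c := 1) (cn := .up) (n1 := ndF0q0) (n2 := ndF5q0) (pc := pcF1) (cut := Cut.none) (xt := Ext.none) (P1 := 0) (W1 := 536870912) (P2 := 0) (W2 := 536870912) (P3 := 1046898278) (W3 := 26843546)
    rfl k0_pp_001

noncomputable def f_pp_011 : ℕ → ℕ → ℕ → ℕ → Bool := onCell 0 536870912 536870912 469762048 1046898278 26843546
    (rowFX 0 true true true .pnn 0 1 1 (qsf 0 536870912 536870912 469762048 1) ndF0q0 ndF5q1 pcF1 Cut.none Ext.none)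

def k0_pp_011 : ∃ t, chk3 f_pp_011 t 1 1 1 = true :=
  ⟨(l 4), by decide +kernel⟩

theorem c_pp_011 : CertFX 0 536870912 536870912 469762048 1046898278 26843546 true true true .pnn 0 1 1
    ndF0q0 ndF5q1 pcF1 Cut.none Ext.none :=
  certFX0 (fam := true) (s1 := true) (s2 := true) (a := 0) (b := 1) (c := 1) (cn := .pnn) (n1 := ndF0q0) (n2 := ndF5q1) (pc := pcF1) (cut := Cut.none) (xt := Ext.none) (P1 := 0) (W1 := 536870912) (P2 := 536870912) (W2 := 469762048) (P3 := 1046898278) (W3 := 26843546)
    rfl k0_pp_011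

noncomputable def f_pp_012 : ℕ → ℕ → ℕ → ℕ → Bool := onCell 0 536870912 536870912 469762048 1046898278 26843546
    (rowFX 0 true true true .pnp 0 1 2 (qsf 0 536870912 536870912 469762048 2) ndF0q0 ndF5q1 pcF2 Cut.none Ext.none)

def k0_pp_012 : ∃ t, chk3 f_pp_012 t 1 1 1 = true :=
  ⟨(l 4), by decide +kernel⟩

theorem c_pp_012 : CertFX 0 536870912 536870912 469762048 1046898278 26843546 true true true .pnp 0 1 2
    ndF0q0 ndF5q1 pcF2 Cut.none Ext.none :=
  certFX0 (fam := true) (s1 := true) (s2 := true) (a := 0) (b := 1) (c := 2) (cn := .pnp) (n1 := ndF0q0) (n2 := ndF5q1) (pc := pcF2) (cut := Cut.none) (xt := Ext.none) (P1 := 0) (W1 := 536870912) (P2 := 536870912) (W2 := 469762048) (P3 := 1046898278) (W3 := 26843546)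
    rfl k0_pp_012

noncomputable def f_pp_022 : ℕ → ℕ → ℕ → ℕ → Bool := onCell 0 536870912 1073741824 536870912 1046898278 26843546
    (rowFX 0 true true true .pp 0 2 2 (qsf 0 536870912 1073741824 536870912 2) ndF0q0 ndF5q2 pcF2 Cut.none Ext.none)

def k0_pp_022 : ∃ t, chk3 f_pp_022 t 1 1 1 = true :=
  ⟨(l 4), by decide +kernel⟩

theorem c_pp_022 : CertFX 0 536870912 1073741824 536870912 1046898278 26843546 true true true .pp 0 2 2
    ndF0q0 ndF5q2 pcF2 Cut.none Ext.none :=
  certFX0 (fam := true) (s1 := true) (s2 := true) (a := 0) (b := 2) (c := 2) (cn := .pp) (n1 := ndF0q0) (n2 := ndF5q2) (pc := pcF2) (cut := Cut.none) (xt := Ext.none) (P1 := 0) (W1 := 536870912) (P2 := 1073741824) (W2 := 536870912) (P3 := 1046898278) (W3 := 26843546)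
    rfl k0_pp_022

noncomputable def f_pp_023 : ℕ → ℕ → ℕ → ℕ → Bool := onCell 0 536870912 1073741824 536870912 1046898278 26843546
    (rowFX 0 true true true .up 0 2 3 (qsf 0 536870912 1073741824 536870912 3) ndF0q0 ndF5q2 pcF3 Cut.none Ext.none)

def k0_pp_023 : ∃ t, chk3 f_pp_023 t 1 1 1 = true :=
  ⟨(l 4), by decide +kernel⟩

theorem c_pp_023 : CertFX 0 536870912 1073741824 536870912 1046898278 26843546 true true true .up 0 2 3
    ndF0q0 ndF5q2 pcF3 Cut.none Ext.none :=
  certFX0 (fam := true) (s1 := true) (s2 := true) (a := 0) (b := 2) (c := 3) (cn := .up) (n1 := ndF0q0) (n2 := ndF5q2) (pc := pcF3) (cut := Cut.none) (xt := Ext.none) (P1 := 0) (W1 := 536870912) (P2 := 1073741824) (W2 := 536870912) (P3 := 1046898278) (W3 := 26843546)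
    rfl k0_pp_023

noncomputable def f_pp_033 : ℕ → ℕ → ℕ → ℕ → Bool := onCell 0 536870912 0 1230186008 1046898278 26843546
    (rowFX 0 true true true .pnn 0 3 3 (qsf 0 536870912 0 1230186008 3) ndF0q0 ndF5q3 pcF3 Cut.none Ext.none)

def k0_pp_033 : ∃ t, chk3 f_pp_033 t 1 1 1 = true :=
  ⟨(b (l 4) (l 4)), by decide +kernel⟩

theorem c_pp_033 : CertFX 0 536870912 0 1230186008 1046898278 26843546 true true true .pnn 0 3 3
    ndF0q0 ndF5q3 pcF3 Cut.none Ext.none :=
  certFX0 (fam := true) (s1 := true) (s2 := true) (a := 0) (b := 3) (c := 3) (cn := .pnn) (n1 := ndF0q0) (n2 := ndF5q3) (pc := pcF3) (cut := Cut.none) (xt := Ext.none) (P1 := 0) (W1 := 536870912) (P2 := 0) (W2 := 1230186008) (P3 := 1046898278) (W3 := 26843546)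
    rfl k0_pp_033

noncomputable def f_pp_101 : ℕ → ℕ → ℕ → ℕ → Bool := onCell 536870912 536870912 0 536870912 1046898278 26843546
    (rowFX 0 true true true .npn 1 0 1 (qsf 536870912 536870912 0 536870912 1) ndF0q1 ndF5q0 pcF1 Cut.none Ext.none)

def k0_pp_101 : ∃ t, chk3 f_pp_101 t 1 1 1 = true :=
  ⟨(l 5), by decide +kernel⟩

theorem c_pp_101 : CertFX 536870912 536870912 0 536870912 1046898278 26843546 true true true .npn 1 0 1
    ndF0q1 ndF5q0 pcF1 Cut.none Ext.none :=
  certFX0 (fam := true) (s1 := true) (s2 := true) (a := 1) (b := 0) (c := 1) (cn := .npn) (n1 := ndF0q1) (n2 := ndF5q0) (pc := pcF1) (cut := Cut.none) (xt := Ext.none) (P1 := 536870912) (W1 := 536870912) (P2 := 0) (W2 := 536870912) (P3 := 1046898278) (W3 := 26843546)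
    rfl k0_pp_101

noncomputable def f_pp_102 : ℕ → ℕ → ℕ → ℕ → Bool := onCell 536870912 536870912 0 536870912 1046898278 26843546
    (rowFX 0 true true true .npp 1 0 2 (qsf 536870912 536870912 0 536870912 2) ndF0q1 ndF5q0 pcF2 Cut.none Ext.none)

def k0_pp_102 : ∃ t, chk3 f_pp_102 t 1 1 1 = true :=
  ⟨(l 5), by decide +kernel⟩

theorem c_pp_102 : CertFX 536870912 536870912 0 536870912 1046898278 26843546 true true true .npp 1 0 2
    ndF0q1 ndF5q0 pcF2 Cut.none Ext.none :=
  certFX0 (fam := true) (s1 := true) (s2 := true) (a := 1) (b := 0) (c := 2) (cn := .npp) (n1 := ndF0q1) (n2 := ndF5q0) (pc := pcF2) (cut := Cut.none) (xt := Ext.none) (P1 := 536870912) (W1 := 536870912) (P2 := 0) (W2 := 536870912) (P3 := 1046898278) (W3 := 26843546)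
    rfl k0_pp_102

noncomputable def f_pp_112 : ℕ → ℕ → ℕ → ℕ → Bool := onCell 536870912 536870912 536870912 469762048 1046898278 26843546
    (rowFX 0 true true true .dn 1 1 2 (qsf 536870912 536870912 536870912 469762048 2) ndF0q1 ndF5q1 pcF2 Cut.none Ext.none)

def k0_pp_112 : ∃ t, chk3 f_pp_112 t 1 1 1 = true :=
  ⟨(l 4), by decide +kernel⟩

theorem c_pp_112 : CertFX 536870912 536870912 536870912 469762048 1046898278 26843546 true true true .dn 1 1 2
    ndF0q1 ndF5q1 pcF2 Cut.none Ext.none :=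
  certFX0 (fam := true) (s1 := true) (s2 := true) (a := 1) (b := 1) (c := 2) (cn := .dn) (n1 := ndF0q1) (n2 := ndF5q1) (pc := pcF2) (cut := Cut.none) (xt := Ext.none) (P1 := 536870912) (W1 := 536870912) (P2 := 536870912) (W2 := 469762048) (P3 := 1046898278) (W3 := 26843546)
    rfl k0_pp_112

noncomputable def f_pp_113 : ℕ → ℕ → ℕ → ℕ → Bool := onCell 536870912 536870912 536870912 469762048 1046898278 26843546
    (rowFX 0 true true true .nn 1 1 3 (qsf 536870912 536870912 536870912 469762048 3) ndF0q1 ndF5q1 pcF3 Cut.none Ext.none)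

def k0_pp_113 : ∃ t, chk3 f_pp_113 t 1 1 1 = true :=
  ⟨(l 4), by decide +kernel⟩

theorem c_pp_113 : CertFX 536870912 536870912 536870912 469762048 1046898278 26843546 true true true .nn 1 1 3
    ndF0q1 ndF5q1 pcF3 Cut.none Ext.none :=
  certFX0 (fam := true) (s1 := true) (s2 := true) (a := 1) (b := 1) (c := 3) (cn := .nn) (n1 := ndF0q1) (n2 := ndF5q1) (pc := pcF3) (cut := Cut.none) (xt := Ext.none) (P1 := 536870912) (W1 := 536870912) (P2 := 536870912) (W2 := 469762048) (P3 := 1046898278) (W3 := 26843546)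
    rfl k0_pp_113

noncomputable def f_pp_123 : ℕ → ℕ → ℕ → ℕ → Bool := onCell 536870912 536870912 1073741824 536870912 1046898278 26843546
    (rowFX 0 true true true .npn 1 2 3 (qsf 536870912 536870912 1073741824 536870912 3) ndF0q1 ndF5q2 pcF3 Cut.none Ext.none)

def k0_pp_123 : ∃ t, chk3 f_pp_123 t 1 1 1 = true :=
  ⟨(l 4), by decide +kernel⟩

theorem c_pp_123 : CertFX 536870912 536870912 1073741824 536870912 1046898278 26843546 true true true .npn 1 2 3
    ndF0q1 ndF5q2 pcF3 Cut.none Ext.none :=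
  certFX0 (fam := true) (s1 := true) (s2 := true) (a := 1) (b := 2) (c := 3) (cn := .npn) (n1 := ndF0q1) (n2 := ndF5q2) (pc := pcF3) (cut := Cut.none) (xt := Ext.none) (P1 := 536870912) (W1 := 536870912) (P2 := 1073741824) (W2 := 536870912) (P3 := 1046898278) (W3 := 26843546)
    rfl k0_pp_123

noncomputable def f_pp_133 : ℕ → ℕ → ℕ → ℕ → Bool := onCell 536870912 536870912 0 1230186008 1046898278 26843546
    (rowFX 0 true true true .dn 1 3 3 (qsf 536870912 536870912 0 1230186008 3) ndF0q1 ndF5q3 pcF3 Cut.none Ext.none)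

def k0_pp_133 : ∃ t, chk3 f_pp_133 t 1 1 1 = true :=
  ⟨(b (l 2) (l 4)), by decide +kernel⟩

theorem c_pp_133 : CertFX 536870912 536870912 0 1230186008 1046898278 26843546 true true true .dn 1 3 3
    ndF0q1 ndF5q3 pcF3 Cut.none Ext.none :=
  certFX0 (fam := true) (s1 := true) (s2 := true) (a := 1) (b := 3) (c := 3) (cn := .dn) (n1 := ndF0q1) (n2 := ndF5q3) (pc := pcF3) (cut := Cut.none) (xt := Ext.none) (P1 := 536870912) (W1 := 536870912) (P2 := 0) (W2 := 1230186008) (P3 := 1046898278) (W3 := 26843546)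
    rfl k0_pp_133

noncomputable def f_pp_202 : ℕ → ℕ → ℕ → ℕ → Bool := onCell 0 536870912 0 536870912 1046898278 26843546
    (rowFX 0 true true true .pp 2 0 2 (qsf 0 536870912 0 536870912 2) ndF0q2 ndF5q0 pcF2 Cut.none Ext.none)

def k0_pp_202 : ∃ t, chk3 f_pp_202 t 1 1 1 = true :=
  ⟨(l 5), by decide +kernel⟩

theorem c_pp_202 : CertFX 0 536870912 0 536870912 1046898278 26843546 true true true .pp 2 0 2
    ndF0q2 ndF5q0 pcF2 Cut.none Ext.none :=
  certFX0 (fam := true) (s1 := true) (s2 := true) (a := 2) (b := 0) (c := 2) (cn := .pp) (n1 := ndF0q2) (n2 := ndF5q0) (pc := pcF2) (cut := Cut.none) (xt := Ext.none) (P1 := 0) (W1 := 536870912) (P2 := 0) (W2 := 536870912) (P3 := 1046898278) (W3 := 26843546)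
    rfl k0_pp_202

noncomputable def f_pp_203 : ℕ → ℕ → ℕ → ℕ → Bool := onCell 0 536870912 0 536870912 1046898278 26843546
    (rowFX 0 true true true .up 2 0 3 (qsf 0 536870912 0 536870912 3) ndF0q2 ndF5q0 pcF3 Cut.none Ext.none)

def k0_pp_203 : ∃ t, chk3 f_pp_203 t 1 1 1 = true :=
  ⟨(l 5), by decide +kernel⟩

theorem c_pp_203 : CertFX 0 536870912 0 536870912 1046898278 26843546 true true true .up 2 0 3
    ndF0q2 ndF5q0 pcF3 Cut.none Ext.none :=
  certFX0 (fam := true) (s1 := true) (s2 := true) (a := 2) (b := 0) (c := 3) (cn := .up) (n1 := ndF0q2) (n2 := ndF5q0) (pc := pcF3) (cut := Cut.none) (xt := Ext.none) (P1 := 0) (W1 := 536870912) (P2 := 0) (W2 := 536870912) (P3 := 1046898278) (W3 := 26843546)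
    rfl k0_pp_203

noncomputable def f_pp_213 : ℕ → ℕ → ℕ → ℕ → Bool := onCell 0 536870912 536870912 469762048 1046898278 26843546
    (rowFX 0 true true true .pnn 2 1 3 (qsf 0 536870912 536870912 469762048 3) ndF0q2 ndF5q1 pcF3 Cut.none Ext.none)

def k0_pp_213 : ∃ t, chk3 f_pp_213 t 1 1 1 = true :=
  ⟨(l 4), by decide +kernel⟩

theorem c_pp_213 : CertFX 0 536870912 536870912 469762048 1046898278 26843546 true true true .pnn 2 1 3
    ndF0q2 ndF5q1 pcF3 Cut.none Ext.none :=
  certFX0 (fam := true) (s1 := true) (s2 := true) (a := 2) (b := 1) (c := 3) (cn := .pnn) (n1 := ndF0q2) (n2 := ndF5q1) (pc := pcF3) (cut := Cut.none) (xt := Ext.none) (P1 := 0) (W1 := 536870912) (P2 := 536870912) (W2 := 469762048) (P3 := 1046898278) (W3 := 26843546)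
    rfl k0_pp_213

noncomputable def f_pm_001 : ℕ → ℕ → ℕ → ℕ → Bool := onCell 0 536870912 536870912 536870912 1046898278 26843546
    (rowFX 1 true true false .up 0 0 1 (qsf 0 536870912 0 536870912 1) ndF0q0 ndF5q0 pcF1 Cut.none Ext.none)

def k0_pm_001 : ∃ t, chk3 f_pm_001 t 1 1 1 = true :=
  ⟨(b (l 3) (b (l 3) (a (l 2) (b (l 3) (b (l 3) (a (l 2) (a (l 2) (a (b (b (l 3) (l 2)) (l 2)) (c (b (l 15847848) (l 15826144)) (b (l 162837752759) (c (l 15817352) (l 206793801623)))))))))))), by decide +kernel⟩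

theorem c_pm_001 : CertFX 0 536870912 0 536870912 1046898278 26843546 true true false .up 0 0 1
    ndF0q0 ndF5q0 pcF1 Cut.none Ext.none :=
  certFX1 (fam := true) (s1 := true) (s2 := false) (a := 0) (b := 0) (c := 1) (cn := .up) (n1 := ndF0q0) (n2 := ndF5q0) (pc := pcF1) (cut := Cut.none) (xt := Ext.none) (P1 := 0) (W1 := 536870912) (P2 := 0) (W2 := 536870912) (P3 := 1046898278) (W3 := 26843546)
    rfl (fun _ => rfl) k0_pm_001

noncomputable def f_pm_011 : ℕ → ℕ → ℕ → ℕ → Bool := onCell 536870912 536870912 536870912 469762048 1046898278 26843546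
    (rowFX 2 true true false .pnn 0 1 1 (qsf 0 536870912 536870912 469762048 1) ndF0q0 ndF5q1 pcF1 Cut.none Ext.none)

def k0_pm_011 : ∃ t, chk3 f_pm_011 t 2 1 1 = true :=
  ⟨(l 3), by decide +kernel⟩

def k1_pm_011 : ∃ t, chk3 f_pm_011 t 6 1 1 = true :=
  ⟨(l 3), by decide +kernel⟩

def k2_pm_011 : ∃ t, chk3 f_pm_011 t 14 1 1 = true :=
  ⟨(l 3), by decide +kernel⟩

def k3_pm_011 : ∃ t, chk3 f_pm_011 t 30 1 1 = true :=
  ⟨(b (l 3) (l 3)), by decide +kernel⟩

def k4_pm_011 : ∃ t, chk3 f_pm_011 t 31 2 1 = true :=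
  ⟨(b (c (c (a (b (l 15907960) (l 277728042375)) (l 15823984)) (a (b (l 254642625255) (l 284170525767)) (b (l 15819816) (l 15815672)))) (a (b (c (l 264843260695) (l 266453859735)) (c (l 285781223703) (l 279338758071))) (b (c (a (l 15835288) (l 15794048)) (a (l 15828776) (l 15789144))) (c (a (l 15831520) (l 15789800)) (a (l 15825096) (c (l 15785248) (l 15783280))))))) (b (c (a (a (l 3) (c (l 15872704) (l 311014097767))) (c (l 15817672) (a (l 15825376) (l 15794504)))) (a (c (l 316919735895) (l 307256044119)) (c (a (b (l 15828768) (l 15826992)) (l 15785712)) (a (l 15821568) (c (l 15781256) (l 15779384)))))) (a (b (l 3) (l 3)) (c (c (a (l 319604028775) (l 15802944)) (a (b (l 15822656) (l 15821184)) (l 15790512))) (c (a (b (l 15804416) (a (l 15836056) (l 15809976))) (b (l 15782720) (l 15780776))) (a (b (l 15819104) (l 15817768)) (b (l 15778256) (l 15755424)))))))), by decide +kernel⟩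

def k5_pm_011 : ∃ t, chk3 f_pm_011 t 31 6 1 = true :=
  ⟨(a (l 3) (b (c (b (c (l 309940358295) (a (l 320140829463) (l 15787568))) (a (b (c (l 313161480311) (a (l 1054580205575) (l 15803240))) (c (l 15695016) (a (l 3) (l 15753608)))) (b (l 15792448) (b (l 15764168) (l 15756760))))) (b (a (c (a (l 344300063815) (l 15808192)) (l 15816664)) (c (l 15778864) (a (l 15782528) (l 15762432)))) (a (b (a (b (l 1239800709687) (l 3)) (c (c (l 15804152) (l 15807136)) (l 15802592))) (c (a (l 3) (c (l 15753944) (l 15756552))) (l 355574160055))) (c (b (l 15777432) (a (b (l 15773536) (l 15734816)) (l 15754472))) (b (a (l 15781176) (l 15761008)) (a (b (l 15771152) (l 15731824)) (b (l 15759616) (l 15737128)))))))) (a (a (l 3) (b (c (b (c (l 15673744) (l 312087413863)) (c (l 15621656) (l 15612080))) (c (b (c (l 325509197687) (b (l 15683848) (l 15648256))) (c (l 15610776) (l 335709669303))) (b (b (l 15677832) (l 15641832)) (l 347520863239)))) (a (l 3) (c (c (l 15552128) (l 301349732647)) (c (c (l 311550282679)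 (b (l 15561888) (l 321750826583))) (b (l 15556168) (l 332488245767))))))) (c (c (b (l 15653176) (l 15574904)) (b (b (l 15686000) (l 15632728)) (a (l 15549568) (l 15567848)))) (b (c (b (b (l 15693432) (l 15657800)) (a (c (l 15614248) (l 15612280)) (l 15626736))) (a (b (c (l 15603808) (l 15662184)) (c (l 15612056) (l 15607112))) (b (c (l 15672240) (l 15669328)) (c (l 15617528) (l 15614216))))) (c (a (c (l 15539504) (b (l 15562496) (l 15511160))) (l 15551736)) (a (c (b (a (l 15561088) (l 15561880)) (a (l 15509448) (l 15510200))) (b (l 15556648) (l 15504632))) (c (l 15541712) (a (l 15535000) (l 15538664)))))))))), by decide +kernel⟩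

def k6_pm_011 : ∃ t, chk3 f_pm_011 t 62 7 1 = true :=
  ⟨(l 3), by decide +kernel⟩

def k7_pm_011 : ∃ t, chk3 f_pm_011 t 126 7 1 = true :=
  ⟨(a (l 3) (a (l 3) (b (b (b (c (l 302960244967) (c (c (l 15457384) (l 328193172071)) (l 414092517543))) (l 3)) (l 3)) (l 3)))), by decide +kernel⟩

def k8_pm_011 : ∃ t, chk3 f_pm_011 t 127 14 1 = true :=
  ⟨(c (b (b (c (l 15498600) (l 15481416)) (b (l 275042954599) (c (l 15439072) (b (l 15407984) (l 15455808))))) (c (b (l 15549248) (a (c (l 274506634535) (l 15659840)) (l 15682864))) (b (a (l 15523848) (l 15541832)) (a (l 258937139735) (l 15668336))))) (b (c (b (a (c (l 15461264) (a (l 15456976) (l 15458168))) (l 15473232)) (b (a (c (l 15420856) (l 15417616)) (l 15432656)) (a (b (c (l 15387336) (b (l 272895417191) (l 15388168))) (a (l 282559150359) (l 15435584))) (l 15433640)))) (b (a (c (a (l 15456248) (l 15456960)) (l 15451072)) (c (l 15462392) (a (l 15455168) (l 15458800)))) (b (a (c (a (l 15415384) (l 15416000)) (l 15409896)) (c (l 15421400) (a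 (l 15413928) (l 15417544)))) (a (c (a (b (b (l 15377584) (l 15406928)) (l 15430424)) (b (b (l 15399112) (l 15407448)) (l 15430864))) (b (b (l 15392928) (l 15401352)) (l 15424992))) (c (b (l 15408672) (l 15436248)) (a (b (l 15401128) (l 15428928)) (b (l 15404736) (l 15432528)))))))) (c (a (b (c (l 15513680) (a (l 15489192) (l 15510704))) (c (l 269137667607) (a (l 300276173527) (l 15638928)))) (b (l 15525520) (l 15653944))) (a (b (c (a (c (l 15511368) (l 15509720)) (c (l 15509776) (l 15510192))) (l 15463040)) (a (b (l 316919157479) (l 327119836247)) (c (c (l 15638744) (l 15639656)) (l 15636368)))) (c (b (l 15515384) (l 15645256)) (b (a (l 15508672) (l 15512264)) (a (l 15639504) (l 15643328)))))))), by decide +kernel⟩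

def k9_pm_011 : ∃ t, chk3 f_pm_011 t 127 15 1 = true :=
  ⟨(a (a (l 3) (b (c (c (b (c (b (l 15758096) (l 299202915431)) (l 15778416)) (c (b (b (l 303498015175) (a (l 3) (l 15880776))) (l 281486376439)) (l 294908158695))) (b (l 15768584) (l 15872992))) (c (b (l 15758280) (l 15842992)) (b (c (l 15736272) (l 15755232)) (c (b (l 15841032) (l 15887168)) (l 15862800))))) (b (c (c (b (l 276117764983) (l 276654745175)) (l 1526490222375)) (c (l 15954344) (c (l 15955368) (l 15954720)))) (l 3)))) (b (b (c (c (b (l 15773120) (l 15827296)) (l 15787288)) (c (l 15774648) (c (l 15767280) (a (l 15760896) (l 15767696))))) (c (c (c (b (b (l 15871264) (l 15896256)) (l 15929824)) (l 15930704)) (l 15891440)) (c (l 15880064) (c (l 15873816) (a (l 15868056) (l 15854032)))))) (c (b (c (b (c (l 15975168) (l 15968216)) (l 16017408)) (l 16011792)) (c (b (a (l 16066728) (l 16074544)) (b (l 16122352) (c (l 295445518615) (l 16153664)))) (b (b (l 16039336) (l 16070576)) (l 319067847495)))) (b (c (l 15969432) (c (l 15964104)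 (l 15963528))) (c (b (l 16045112) (l 16071648)) (c (b (l 16040552) (a (a (l 247663829735) (l 16107168)) (l 16110208))) (b (a (l 16037704) (l 16039816)) (a (c (a (l 240684519319) (l 16066560)) (l 260011877207)) (c (l 16108296) (a (l 16087048) (l 16065936))))))))))), by decide +kernel⟩

theorem s10_pm_011 : ∃ t, chk3 f_pm_011 t 127 7 1 = true := ex3_b k8_pm_011 k9_pm_011

theorem s11_pm_011 : ∃ t, chk3 f_pm_011 t 63 7 1 = true := ex3_a k7_pm_011 s10_pm_011

theorem s12_pm_011 : ∃ t, chk3 f_pm_011 t 31 7 1 = true := ex3_a k6_pm_011 s11_pm_011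

theorem s13_pm_011 : ∃ t, chk3 f_pm_011 t 31 3 1 = true := ex3_b k5_pm_011 s12_pm_011

theorem s14_pm_011 : ∃ t, chk3 f_pm_011 t 31 1 1 = true := ex3_b k4_pm_011 s13_pm_011

theorem s15_pm_011 : ∃ t, chk3 f_pm_011 t 15 1 1 = true := ex3_a k3_pm_011 s14_pm_011

theorem s16_pm_011 : ∃ t, chk3 f_pm_011 t 7 1 1 = true := ex3_a k2_pm_011 s15_pm_011

theorem s17_pm_011 : ∃ t, chk3 f_pm_011 t 3 1 1 = true := ex3_a k1_pm_011 s16_pm_011

theorem s18_pm_011 : ∃ t, chk3 f_pm_011 t 1 1 1 = true := ex3_a k0_pm_011 s17_pm_011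

theorem c_pm_011 : CertFX 0 536870912 536870912 469762048 1046898278 26843546 true true false .pnn 0 1 1
    ndF0q0 ndF5q1 pcF1 Cut.none Ext.none :=
  certFX2 (fam := true) (s1 := true) (s2 := false) (a := 0) (b := 1) (c := 1) (cn := .pnn) (n1 := ndF0q0) (n2 := ndF5q1) (pc := pcF1) (cut := Cut.none) (xt := Ext.none) (P1 := 0) (W1 := 536870912) (P2 := 536870912) (W2 := 469762048) (P3 := 1046898278) (W3 := 26843546)
    rfl (fun _ => rfl) s18_pm_011

noncomputable def f_pm_012 : ℕ → ℕ → ℕ → ℕ → Bool := onCell 1073741824 536870912 536870912 469762048 1046898278 26843546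
    (rowFX 2 true true false .pnp 0 1 2 (qsf 0 536870912 536870912 469762048 2) ndF0q0 ndF5q1 pcF2 Cut.none Ext.none)

def k0_pm_012 : ∃ t, chk3 f_pm_012 t 8 2 1 = true :=
  ⟨(c (c (a (a (b (b (a (l 15994992) (l 16038976)) (a (l 15969232) (l 16024448))) (b (a (l 15949200) (l 16007512)) (a (l 15929864) (l 15993848)))) (b (b (l 15911072) (l 15989992)) (b (l 16025824) (l 16017112)))) (b (a (b (l 15993648) (l 15996560)) (b (l 15924392) (c (l 15929856) (l 15937032)))) (a (b (l 15999768) (l 16004976)) (b (c (l 15964384) (l 15956976)) (c (l 15983312) (l 15969640)))))) (a (a (c (b (a (b (l 15979016) (l 15963352)) (b (l 16017640) (l 16004568))) (a (b (l 15941080) (l 15921560)) (b (l 15992496) (l 15976112)))) (b (b (l 15990968) (a (l 15929664) (l 15986768))) (a (b (a (l 15917544) (l 15952160)) (b (l 15921864) (l 15910160))) (b (l 15971840) (l 15960688))))) (b (b (l 16000680) (l 15811608)) (b (c (l 15995024) (l 15971384)) (c (l 15988576) (l 15964464))))) (b (b (l 15940024) (l 15950576)) (b (c (a (l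 15971696) (l 15947048)) (l 15954144)) (a (c (l 15973696) (l 15960560)) (c (l 15964408) (l 15958712))))))) (a (b (c (a (b (a (l 15962752) (l 15978472)) (a (l 15941024) (l 15961232))) (b (l 15967992) (l 15957736))) (c (a (b (l 15950752) (l 15930288)) (l 15947280)) (a (b (l 15938632) (l 15917696)) (l 15942040)))) (c (a (a (b (c (c (l 15864008) (l 15925016)) (l 15916216)) (c (a (b (l 15892056) (l 15884488)) (b (l 15925640) (l 15918432))) (l 15895968))) (b (l 15944712) (c (b (l 15941592) (l 15934416)) (l 15918304)))) (b (l 15947920) (a (c (l 15940312) (l 15923272)) (l 15888680)))) (a (b (c (l 15868712) (l 15897600)) (a (c (l 15881560) (l 15867040)) (l 15894408))) (b (l 15928584) (l 15918560))))) (b (c (a (l 15943560) (l 15904760)) (b (l 15911680) (l 15921920))) (c (a (l 15948072) (l 15940368)) (a (l 15937512) (l 15929712)))))), by decide +kernel⟩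

def k1_pm_012 : ∃ t, chk3 f_pm_012 t 16 6 2 = true :=
  ⟨(b (a (c (a (b (l 15915648) (l 15904600)) (a (l 15970384) (l 15993272))) (c (a (l 15901624) (l 15962328)) (a (a (l 15874008) (l 15916632)) (l 15944392)))) (c (l 16010928) (c (l 15979728) (l 15957904)))) (a (a (c (b (b (l 15854416) (l 15800784)) (l 15723360)) (a (b (b (l 15807800) (l 15750824)) (l 15671368)) (b (b (l 15813376) (l 15822816)) (l 15682104)))) (c (b (b (l 15857672) (l 15929304)) (l 15834192)) (b (b (a (l 15924240) (l 15950712)) (l 15836928)) (c (l 15834920) (l 15815400))))) (b (b (c (l 16012808) (l 15968824)) (c (l 16024872) (l 15917832))) (c (l 15975496) (l 15888136))))), by decide +kernel⟩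

def k2_pm_012 : ∃ t, chk3 f_pm_012 t 16 6 3 = true :=
  ⟨(c (a (a (c (b (a (b (l 15876352) (l 15862080)) (b (l 15911880) (l 15903104))) (b (a (l 15748704) (b (l 15862088) (l 15807928))) (a (l 15660256) (l 15729176)))) (c (b (a (b (l 15867976) (l 15857240)) (l 15852616)) (b (a (l 15682168) (b (l 15852760) (l 15798432))) (a (l 15654704) (l 15718328)))) (b (b (l 15878800) (l 15867216)) (a (b (b (c (l 15790016) (l 15788968)) (l 15688488)) (b (a (l 15659592) (l 15696640)) (l 15560792))) (b (b (l 15841608) (l 15786256)) (a (l 15698056) (l 15719576))))))) (b (c (b (l 15928968) (l 15923176)) (c (l 15906696) (l 15896456))) (b (c (b (l 15905872) (l 15871376)) (b (c (l 15888504) (l 15876256)) (l 15720328))) (c (l 15794720) (c (l 15777816) (l 15762664)))))) (b (a (c (l 15930904) (c (l 15913400) (l 15906776))) (c (l 15935616) (l 15926384))) (b (a (c (l 15885520) (c (b (l 15911944) (l 15912832)) (l 15901080))) (c (l 15890664) (l 15941616))) (c (a (l 15861504) (l 15927720)) (a (c (l 15844088) (l 15834192))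 (l 15915840)))))) (b (a (a (a (b (l 15851008) (c (l 15846288) (l 15832288))) (c (l 15871232) (l 15853000))) (l 15877808)) (l 15908872)) (a (a (b (a (c (b (l 15781392) (l 15722816)) (b (l 15766784) (l 15707680))) (b (c (l 15825896) (l 15807040)) (l 15763792))) (b (a (c (l 15668784) (l 15653184)) (l 15710440)) (c (c (a (c (a (l 15599872) (l 15636704)) (l 15616184)) (l 15668728)) (l 15633112)) (a (l 15576192) (l 15642504))))) (b (b (b (l 15865744) (l 15854904)) (l 15821656)) (c (l 15748144) (l 15736248)))) (b (b (l 15908872) (l 15920816)) (l 15868008))))), by decide +kernel⟩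

def k3_pm_012 : ∃ t, chk3 f_pm_012 t 17 6 1 = true :=
  ⟨(c (a (b (c (l 16007688) (c (l 15976688) (l 15962176))) (c (b (l 16037056) (l 16071168)) (b (a (l 15994528) (l 16000520)) (a (l 16013816) (l 16058336))))) (c (b (c (l 15999928) (l 15987840)) (b (l 15969152) (a (l 16113768) (l 16126184)))) (b (c (l 15976496) (l 15975296)) (b (l 16011320) (l 16099152))))) (b (c (a (l 15953760) (l 15900904)) (l 15950064)) (a (b (c (l 15982120) (l 15970152)) (c (a (l 15990488) (l 16050152)) (l 16005104))) (c (c (b (l 16009056) (l 16095912)) (l 16043712)) (l 16015944))))), by decide +kernel⟩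

def k4_pm_012 : ∃ t, chk3 f_pm_012 t 32 14 2 = true :=
  ⟨(b (c (a (b (l 15642384) (b (l 15600584) (l 15599656))) (b (l 15777488) (b (l 15737336) (l 15674080)))) (a (a (b (l 15588408) (b (l 15545624) (l 15544584))) (b (l 15663712) (b (l 15621744) (l 15620992)))) (b (c (l 15756240) (l 15735968)) (c (l 15715408) (b (l 15694944) (l 15694536)))))) (c (c (a (b (l 15688888) (l 15808552)) (a (l 15860104) (l 15918688))) (a (l 15657480) (l 15770792))) (a (c (l 15587712) (a (l 15688744) (l 15701480))) (c (l 15860696) (l 15778088))))), by decide +kernel⟩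

def k5_pm_012 : ∃ t, chk3 f_pm_012 t 32 14 3 = true :=
  ⟨(a (c (b (c (b (a (l 15576408) (l 15646928)) (b (a (l 15533176) (l 15604488)) (a (l 15532160) (l 15603744)))) (a (b (c (l 15570408) (l 15565888)) (b (l 15524432) (c (l 15525944) (l 15500312)))) (b (c (l 15635568) (l 15625680)) (b (l 15586992) (c (l 15592112) (l 15581224)))))) (c (a (l 15555792) (b (l 15691480) (l 15814568))) (a (c (l 15655296) (b (l 15610288) (l 15735120))) (c (l 15741672) (l 15710312))))) (c (c (b (a (b (c (a (l 15543648) (l 15580528)) (l 15559152)) (b (a (l 15498432) (c (l 15537768) (l 15532816))) (a (l 15456104) (c (l 15536384) (l 15531904))))) (b (l 15570160) (b (l 15569704) (c (l 15573736) (l 15566096))))) (a (a (b (l 15588008) (l 15712456)) (b (c (l 15625488) (l 15622064)) (l 15748704))) (b (l 15638192) (l 15783904)))) (b (b (l 15492448) (b (l 15532704) (a (l 15508480) (l 15556288)))) (c (a (a (b (l 15583208) (l 15709648)) (b (l 15616920) (l 15742552))) (l 15563000)) (a (l 15533304) (l 15703896))))) (b (b (a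 (a (l 15527648) (l 15554072)) (l 15585800)) (b (c (l 15481432) (l 15514856)) (a (a (c (l 15486968) (l 15478440)) (l 15509080)) (l 15541392)))) (a (a (b (l 15572512) (l 15699096)) (l 15577752)) (l 15651256))))) (c (b (c (b (l 15714528) (b (l 15673112) (l 15672664))) (b (l 15669464) (b (l 15648168) (l 15646696)))) (c (l 15673304) (b (l 15734216) (l 15856976)))) (b (c (c (b (c (l 15671408) (l 15666720)) (a (b (l 15607040) (l 15606808)) (b (l 15645216) (l 15644840)))) (b (l 15661008) (l 15618416))) (b (l 15653808) (l 15610992))) (c (c (a (l 15757592) (b (l 15733096) (l 15856952))) (b (l 15706360) (c (l 15704504) (l 15828096)))) (l 15761128))))), by decide +kernel⟩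

def k6_pm_012 : ∃ t, chk3 f_pm_012 t 33 14 1 = true :=
  ⟨(c (b (c (b (l 15902344) (b (l 15864448) (l 15864832))) (b (l 15855304) (a (l 15783936) (l 15848936)))) (c (a (l 15867544) (l 16041888)) (a (l 15928240) (l 15991808)))) (b (c (c (a (l 15764160) (l 15812728)) (a (b (c (l 15765416) (l 15756752)) (b (l 15722520) (l 15701384))) (l 15822544))) (b (l 15790432) (a (c (c (l 15710120) (l 15707752)) (l 15702608)) (l 15793680)))) (c (c (a (l 15889552) (l 15958552)) (a (a (l 15847896) (l 15886768)) (l 15948824))) (c (c (a (l 15857944) (l 15943816)) (l 15899272)) (l 15895208))))), by decide +kernel⟩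

def k7_pm_012 : ∃ t, chk3 f_pm_012 t 16 15 2 = true :=
  ⟨(a (b (a (c (b (b (l 15812848) (c (l 15934904) (l 15950592))) (c (b (a (l 15966592) (l 16047928)) (l 16030408)) (b (l 16002416) (l 16045920)))) (b (a (l 15873528) (l 15952328)) (c (l 16018768) (l 15907848)))) (c (b (a (l 15974648) (l 16093016)) (a (c (l 16149600) (l 16141728)) (l 16204936))) (b (a (l 16014512) (l 16058936)) (c (l 16155272) (l 16137216))))) (a (b (c (c (a (l 16075752) (l 16156896)) (l 16068184)) (c (l 16082320) (l 15971048))) (c (b (a (l 16139896) (l 16219928)) (a (l 16199312) (l 16270224))) (b (a (l 16104336) (l 16205160)) (a (c (l 16186136) (l 16179696)) (c (l 16258256) (l 16250536)))))) (c (b (a (l 16231208) (l 16291808)) (a (b (l 16297184) (l 16342512)) (l 16380072))) (b (c (l 16240008) (l 16221504)) (c (l 16221704) (l 16265192)))))) (a (b (c (b (l 16153960) (l 16228424)) (b (l 16112112) (l 16229080))) (c (b (l 16361360) (l 16428264)) (b (l 16318000) (l 16361832)))) (b (c (l 16112720) (l 16190928)) (b (l 16309576)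 (l 16355424))))), by decide +kernel⟩

def k8_pm_012 : ∃ t, chk3 f_pm_012 t 16 15 6 = true :=
  ⟨(a (b (a (c (a (b (l 15864864) (l 15966984)) (b (l 15938736) (l 16043440))) (a (b (c (l 15860536) (l 15857112)) (c (l 15963200) (l 15960136))) (b (c (l 15928872) (l 15919088)) (l 15965968)))) (c (b (l 16007184) (l 16118184)) (b (l 15983304) (l 16094936)))) (a (b (c (a (l 16051808) (l 16128096)) (a (l 16046872) (l 16114048))) (a (c (b (l 16117728) (l 16176048)) (b (l 16113232) (a (l 16154640) (l 16189216)))) (c (b (l 16192552) (l 16199952)) (b (l 16178880) (a (l 16217632) (l 16239368)))))) (b (c (l 16202944) (l 16180120)) (c (l 16205136) (b (l 16244552) (l 16288688)))))) (b (c (a (l 16133048) (l 16180768)) (a (b (l 16054752) (l 16173224)) (l 16193176))) (a (c (l 16281992) (b (l 16262568) (l 16264288))) (c (b (l 16359056) (l 16445032)) (l 16310400))))), by decide +kernel⟩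

def k9_pm_012 : ∃ t, chk3 f_pm_012 t 32 15 7 = true :=
  ⟨(c (b (a (a (c (b (a (l 15834144) (l 15872256)) (a (l 15936784) (l 15975744))) (a (b (c (l 15832544) (l 15724344)) (c (l 15934840) (l 15912520))) (b (c (l 15867712) (l 15861144)) (c (l 15970864) (l 15966024))))) (c (b (l 15908728) (l 16014568)) (b (c (l 15900104) (l 15892088)) (c (l 16005784) (l 15998952))))) (c (b (l 15944864) (l 16077496)) (b (c (l 15853328) (l 15871032)) (a (c (l 16047696) (l 16042824)) (l 16092888))))) (a (a (b (c (l 16041824) (a (l 16020368) (l 16054712))) (c (b (l 16108504) (a (l 16151816) (l 16183568))) (a (b (l 16087360) (l 16128720)) (b (l 16119856) (c (l 16179160) (l 16174568)))))) (b (c (l 16100088) (l 16088920)) (b (l 16117008) (c (l 16215000) (l 16182384))))) (c (b (l 16163000) (a (l 16228464) (l 16269784))) (b (a (l 16131888) (l 16179496)) (a (b (l 16196104) (l 16198816)) (l 16265648)))))) (b (a (a (c (b (l 15838792) (a (c (b (l 15909280) (l 15952552)) (l 15928328)) (l 15957560))) (b (l 15809856) (l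 15914216))) (b (l 15883088) (l 15989704))) (b (l 15951840) (l 16064880))) (b (a (c (c (a (a (l 15995856) (l 16046240)) (l 16078312)) (l 16052280)) (l 16047296)) (c (l 16124784) (l 16150144))) (a (b (c (c (a (a (a (l 16075896) (l 16094328)) (l 16113040)) (l 16144608)) (a (l 16094664) (l 16140832))) (a (l 16089040) (l 16138472))) (c (a (a (c (a (l 16139896) (l 16155856)) (c (a (l 16138496) (l 16152848)) (l 16144448))) (c (l 16170112) (c (l 16164944) (l 16162168)))) (c (a (l 16185424) (b (l 16188640) (l 16215880))) (a (c (l 16180080) (l 16178640)) (l 16199352)))) (a (a (a (l 16134704) (l 16145416)) (l 16157672)) (l 16188704)))) (c (c (b (l 16216960) (l 16241056)) (c (l 16175880) (l 16238704))) (l 16153872)))))), by decide +kernel⟩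

def k10_pm_012 : ∃ t, chk3 f_pm_012 t 33 15 7 = true :=
  ⟨(b (c (a (b (l 16019520) (c (l 16165184) (l 16162712))) (l 16124448)) (b (l 16083648) (l 16204320))) (b (a (c (l 16169480) (l 16246904)) (l 16220424)) (c (c (l 16326448) (a (l 16340256) (l 16436328))) (c (a (c (l 16338376) (l 16338344)) (l 16391088)) (l 16239672))))), by decide +kernel⟩

def k11_pm_012 : ∃ t, chk3 f_pm_012 t 17 7 1 = true :=
  ⟨(b (c (a (b (c (b (l 16022664) (l 15988616)) (b (l 15983824) (l 15865072))) (c (l 16128040) (a (l 16054848) (l 16121248)))) (b (c (a (l 16087456) (b (l 16156592) (l 16129824))) (b (l 16113976) (l 16085016))) (c (a (l 16209936) (l 16267360)) (l 16224936)))) (b (a (c (b (l 15964848) (l 15887112)) (l 15935856)) (c (c (l 16050216) (c (l 16091624) (l 16087872))) (l 16082672))) (a (a (l 16027608) (l 16066256)) (c (c (l 16219288) (l 16058520)) (l 16212504))))) (c (b (c (a (l 16195400) (a (l 16337184) (l 16351104))) (a (c (l 16185712) (l 16194040)) (l 16291664))) (a (c (a (l 16399984) (l 16478696))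 (c (b (l 16432216) (l 16486264)) (b (l 16419648) (l 16472968)))) (c (a (l 16458120) (l 16375328)) (l 16302544)))) (c (b (a (b (l 16253392) (l 16373200)) (c (l 16373624) (b (l 16376152) (l 16473208)))) (a (c (l 16335136) (b (l 16434824) (l 16489480))) (a (l 16413232) (c (l 16445872) (l 16383008))))) (b (a (b (l 16249136) (l 16328400)) (b (l 16278336) (c (l 16398008) (l 16514688)))) (b (a (a (l 16435328) (l 16495880)) (c (b (l 16476864) (l 16429640)) (l 16567912))) (a (c (b (l 16446248) (l 16449792)) (l 16425600)) (c (a (l 16417504) (c (l 16449536) (l 16378968))) (l 16370864)))))))), by decide +kernel⟩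

def k12_pm_012 : ∃ t, chk3 f_pm_012 t 9 2 1 = true :=
  ⟨(b (b (l 2) (a (c (a (l 15844688) (l 15710512)) (a (l 15820472) (l 15682808))) (c (a (l 15408632) (l 15367536)) (a (l 15523696) (l 15330920))))) (c (a (c (b (a (c (l 15889536) (l 15883472)) (c (l 15771776) (l 15760344))) (a (c (l 15912816) (l 15913472)) (c (l 15813416) (l 15811136)))) (a (b (l 15871296) (c (l 15909760) (l 15899720))) (l 15772104))) (a (c (b (l 15624496) (c (b (l 15672488) (l 15704392)) (l 15679200))) (l 15512288)) (b (l 15442144) (l 15408288)))) (a (b (c (l 15799408) (l 15786944)) (c (l 15837712) (l 15825744))) (b (c (l 15505024) (l 15488816)) (c (l 15571056) (l 15555696)))))), by decide +kernel⟩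

def k13_pm_012 : ∃ t, chk3 f_pm_012 t 9 6 1 = true :=
  ⟨(a (c (b (c (a (l 15938168) (c (l 15847560) (l 15847104))) (c (a (l 15936776) (l 15847904)) (a (l 15934864) (l 15835096)))) (c (a (l 16038456) (c (l 15956904) (l 15947688))) (c (a (l 16027544) (l 15944136)) (a (l 16027304) (l 15779600))))) (c (b (l 15874576) (a (b (l 15969152) (c (l 16079528) (l 16070400))) (l 15933352))) (b (l 15863072) (l 15841336)))) (c (b (c (a (c (a (l 15772712) (l 15708936)) (a (l 15775648) (l 15708312))) (c (l 15580152) (l 15589344))) (l 15628000)) (c (a (c (a (l 15887800) (l 15820944)) (a (l 15876472) (l 15814128))) (c (b (l 15659440) (l 15764088)) (b (l 15662720) (l 15761696)))) (c (a (a (l 15879504) (l 15818176)) (b (l 15648248) (l 15763488))) (a (a (l 15876104) (l 15805392)) (l 15693840))))) (b (c (l 15634408) (l 15619856)) (c (a (l 15829032) (l 15683600)) (l 15617336))))), by decide +kernel⟩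

def k14_pm_012 : ∃ t, chk3 f_pm_012 t 9 14 1 = true :=
  ⟨(a (c (c (b (a (b (l 16159304) (l 16172392)) (b (l 16089728) (l 16150384))) (a (l 16312112) (l 16268608))) (b (a (b (l 16148696) (l 16165176)) (c (l 16112376) (l 15918616))) (a (l 16307304) (a (l 16326904) (l 16221440))))) (b (c (c (a (b (l 16149328) (l 16160824)) (c (l 16106648) (l 16103544))) (a (l 16143016) (l 16100600))) (a (l 16137448) (l 16094712))) (c (a (c (l 16302128) (c (l 16304344) (l 16300704))) (c (b (l 16270504) (l 16386832)) (l 16322072))) (a (l 16297704) (l 16318928))))) (c (c (b (a (a (l 16056792) (l 15993592)) (c (l 15887952) (l 15877096))) (a (b (l 16162104) (l 16298992)) (l 16074848))) (b (a (c (a (l 16046792) (l 15983360)) (a (l 16049688) (l 15987984))) (c (l 15880368) (l 15877592))) (a (a (b (l 16161952) (l 16392368)) (b (l 16188192) (l 16363736))) (c (l 16045048) (b (l 16082688) (l 16234496)))))) (b (a (l 15813760) (l 15858040)) (a (c (c (c (a (l 16309368) (l 16254984)) (l 16288744)) (l 16287088)) (b (l 16207960)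 (l 16374232))) (l 16039272))))), by decide +kernel⟩

def k15_pm_012 : ∃ t, chk3 f_pm_012 t 9 15 1 = true :=
  ⟨(a (a (c (b (c (l 16476920) (l 16475640)) (b (c (l 16473256) (l 16475608)) (c (l 16353584) (l 16357424)))) (b (c (c (l 16536344) (b (l 16482200) (l 16548152))) (l 16536632)) (c (c (b (l 16475288) (l 16357144)) (b (l 16433464) (l 16315112))) (c (c (b (l 16471592) (l 16331696)) (l 16351088)) (l 16308208))))) (c (b (c (l 16496816) (l 16433416)) (c (l 16306480) (l 16266864))) (b (c (c (l 16430880) (c (l 16520000) (l 16518824))) (l 16537904)) (c (c (l 16308960) (b (l 16302064) (l 16202304))) (b (l 16386488) (a (c (l 16206520) (l 16282752)) (l 16240544))))))) (c (c (b (a (l 16304464) (l 16309552)) (a (l 16174424) (l 16228992))) (b (a (b (l 16330800) (l 16445408)) (c (l 16456752) (l 16247048))) (a (l 16092280) (l 16109560)))) (c (b (a (c (a (l 16439008) (l 16480088)) (b (l 16502856) (l 16443912))) (c (b (l 16446712) (l 16412432)) (l 16498808))) (a (c (a (l 16251448) (l 16250448)) (c (a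 (l 16267152) (l 16243712)) (a (l 16243720) (l 16245696)))) (c (l 16101784) (c (l 16224960) (l 16227328))))) (b (a (l 16513624) (l 16414912)) (a (l 16253976) (l 16224928)))))), by decide +kernel⟩

def k16_pm_012 : ∃ t, chk3 f_pm_012 t 5 2 1 = true :=
  ⟨(b (l 2) (b (a (a (a (c (l 15174216) (l 15218648)) (c (a (l 15223512) (l 15340920)) (a (l 15183152) (l 15303608)))) (c (a (l 15578656) (l 2)) (l 15523920))) (l 2)) (a (a (a (c (c (l 15351328) (l 15332688)) (l 15304728)) (c (a (l 15303056) (l 15405688)) (a (l 15264768) (l 15370064)))) (c (c (l 15669184) (l 15782168)) (a (l 15604432) (l 15924136)))) (a (c (a (l 16263136) (l 16586672)) (a (l 16249784) (l 16581720))) (c (a (l 16776152) (l 2)) (l 16776872)))))), by decide +kernel⟩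

def k17_pm_012 : ∃ t, chk3 f_pm_012 t 10 6 1 = true :=
  ⟨(a (c (a (c (b (c (l 15441264) (l 15426736)) (c (b (l 15520248) (l 15618296)) (b (l 15504808) (l 15621520)))) (b (l 15413536) (l 15545912))) (b (a (c (l 15388208) (l 15370048)) (c (l 15476088) (l 15459080))) (b (a (l 15453264) (l 15530760)) (c (c (a (l 15573608) (l 15598712)) (l 15593888)) (l 15582664))))) (a (b (l 15387144) (l 15522512)) (b (a (l 15342816) (l 15433568)) (a (l 15471448) (l 15546504))))) (b (c (c (l 15589752) (l 15766256)) (a (l 15658752) (l 15965184))) (c (c (a (l 15791792) (l 16072904)) (a (l 15779208) (l 16064008))) (c (l 15742160) (l 15815296))))), by decide +kernel⟩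

def k18_pm_012 : ∃ t, chk3 f_pm_012 t 20 7 1 = true :=
  ⟨(b (c (a (c (b (c (l 15735504) (l 15714600)) (c (l 16028664) (l 15997736))) (c (b (l 15736936) (l 15940944)) (b (l 15722000) (l 15960608)))) (a (c (b (c (l 15680616) (l 15683360)) (c (l 15959728) (l 15953880))) (b (l 15666976) (c (l 15957408) (l 15946632)))) (c (b (a (c (l 15712592) (l 15708688)) (l 15777952)) (c (l 15897248) (l 15773848))) (b (l 15727232) (l 15995824))))) (a (b (l 15705992) (l 15986112)) (b (a (l 15646656) (l 15708088)) (a (l 15935720) (l 15983744))))) (a (c (c (b (b (l 16316648) (l 16420992)) (l 16208632)) (b (c (b (l 16311176) (l 16425008)) (b (l 16320976) (l 16417952))) (c (l 16211144) (b (l 16275824) (l 16150016))))) (b (b (l 16310128) (l 16378808)) (c (c (c (l 16185208) (l 16206720)) (l 16208040)) (l 16205352)))) (c (a (c (b (l 16222256) (l 16172856)) (b (c (l 16288568) (l 16292120)) (c (l 16178600) (b (l 16238688) (l 16104672))))) (b (c (b (l 16077968) (l 16389744)) (c (a (l 16171056) (l 16391216)) (l 16360512)))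 (c (b (l 16176344) (l 16009320)) (b (a (c (l 16205192) (l 16200136)) (l 16121448)) (c (l 16013736) (l 15903168)))))) (b (a (l 16242520) (l 16212176)) (a (b (l 16197120) (l 16099288)) (b (l 16108960) (l 16003392))))))), by decide +kernel⟩

def k19_pm_012 : ∃ t, chk3 f_pm_012 t 21 7 1 = true :=
  ⟨(b (c (c (b (a (c (l 15922384) (l 15933360)) (l 16201256)) (a (c (l 16018944) (l 16042344)) (c (l 16312552) (l 16430256)))) (b (l 15870864) (a (l 16159000) (l 16428920)))) (b (a (l 15910496) (l 16184736)) (a (l 16045936) (l 16363336)))) (c (b (c (a (c (l 16209400) (l 16163664)) (b (l 16123032) (l 15993232))) (a (c (l 16139072) (l 16330928)) (l 16046112))) (a (c (b (l 16018952) (l 15805200)) (c (l 15701072) (l 15696976))) (c (l 15504032) (c (l 15684736) (l 15684192))))) (b (b (a (l 16439056) (l 16263896)) (a (l 16188256) (l 16020248))) (a (c (l 15799800) (l 15749912)) (l 15522752))))), by decide +kernel⟩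

def k20_pm_012 : ∃ t, chk3 f_pm_012 t 11 3 1 = true :=
  ⟨(b (a (c (b (a (l 16288752) (l 16575496)) (a (l 16102688) (l 16454688))) (b (a (l 16276064) (l 16591768)) (a (l 16323040) (l 16619808)))) (c (b (a (l 16776208) (l 16777216)) (a (l 16548928) (l 16695280))) (b (l 16776696) (l 16567560)))) (a (b (a (b (c (c (l 16468224) (l 16465296)) (l 16460904)) (c (l 16207552) (l 16328848))) (b (c (l 16509608) (l 16612032)) (c (b (l 16376560) (l 16134272)) (l 16181320)))) (b (c (a (c (c (l 15915920) (l 15958008)) (l 15951600)) (l 15634032)) (a (l 15875328) (l 15734976))) (c (c (a (l 15334656) (l 15275128)) (l 15305208)) (a (l 15410304) (l 15236312))))) (b (b (c (a (l 16414184) (l 16518512)) (l 16470120)) (c (a (l 16047120) (l 16151400)) (l 16072528))) (c (b (c (l 15633248) (l 15639984)) (c (l 15157136) (l 15141752))) (b (l 15471280) (a (l 15112272) (l 15111592))))))), by decide +kernel⟩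

def k21_pm_012 : ∃ t, chk3 f_pm_012 t 3 1 1 = true :=
  ⟨(b (l 2) (b (a (b (a (c (a (l 16777216) (l 2)) (l 16777216)) (l 2)) (a (c (a (l 16695280) (l 16695280)) (a (l 16693152) (l 16693152))) (c (l 16695280) (l 16693152)))) (l 2)) (a (a (b (c (b (a (l 16518512) (l 16518512)) (a (l 16151400) (l 16151400))) (b (l 16469848) (l 16114168))) (c (b (a (l 15646792) (l 15646792)) (a (l 15148528) (l 15148528))) (b (l 15429016) (c (l 15122128) (l 15101048))))) (b (a (b (c (l 16518512) (l 16511792)) (c (l 16151400) (l 16135144))) (b (l 16515152) (l 16143272))) (c (a (b (l 15646792) (l 15148528)) (b (l 15646792) (l 15148528))) (a (b (l 15617760) (l 15111592)) (b (l 15617760) (l 15111592)))))) (b (a (b (l 2) (l 15912584)) (l 2)) (c (b (l 15520960) (a (l 15148528) (l 15148528))) (b (a (l 15617760) (l 2)) (a (l 15111592) (l 15111592)))))))), by decide +kernel⟩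

theorem s22_pm_012 : ∃ t, chk3 f_pm_012 t 10 7 1 = true := ex3_a k18_pm_012 k19_pm_012

theorem s23_pm_012 : ∃ t, chk3 f_pm_012 t 10 3 1 = true := ex3_b k17_pm_012 s22_pm_012

theorem s24_pm_012 : ∃ t, chk3 f_pm_012 t 5 3 1 = true := ex3_a s23_pm_012 k20_pm_012

theorem s25_pm_012 : ∃ t, chk3 f_pm_012 t 5 1 1 = true := ex3_b k16_pm_012 s24_pm_012

theorem s26_pm_012 : ∃ t, chk3 f_pm_012 t 9 7 1 = true := ex3_b k14_pm_012 k15_pm_012

theorem s27_pm_012 : ∃ t, chk3 f_pm_012 t 9 3 1 = true := ex3_b k13_pm_012 s26_pm_012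

theorem s28_pm_012 : ∃ t, chk3 f_pm_012 t 9 1 1 = true := ex3_b k12_pm_012 s27_pm_012

theorem s29_pm_012 : ∃ t, chk3 f_pm_012 t 16 15 7 = true := ex3_a k9_pm_012 k10_pm_012

theorem s30_pm_012 : ∃ t, chk3 f_pm_012 t 16 15 3 = true := ex3_c k8_pm_012 s29_pm_012

theorem s31_pm_012 : ∃ t, chk3 f_pm_012 t 16 15 1 = true := ex3_c k7_pm_012 s30_pm_012

theorem s32_pm_012 : ∃ t, chk3 f_pm_012 t 32 14 1 = true := ex3_c k4_pm_012 k5_pm_012

theorem s33_pm_012 : ∃ t, chk3 f_pm_012 t 16 14 1 = true := ex3_a s32_pm_012 k6_pm_012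

theorem s34_pm_012 : ∃ t, chk3 f_pm_012 t 16 7 1 = true := ex3_b s33_pm_012 s31_pm_012

theorem s35_pm_012 : ∃ t, chk3 f_pm_012 t 8 7 1 = true := ex3_a s34_pm_012 k11_pm_012

theorem s36_pm_012 : ∃ t, chk3 f_pm_012 t 16 6 1 = true := ex3_c k1_pm_012 k2_pm_012

theorem s37_pm_012 : ∃ t, chk3 f_pm_012 t 8 6 1 = true := ex3_a s36_pm_012 k3_pm_012

theorem s38_pm_012 : ∃ t, chk3 f_pm_012 t 8 3 1 = true := ex3_b s37_pm_012 s35_pm_012

theorem s39_pm_012 : ∃ t, chk3 f_pm_012 t 8 1 1 = true := ex3_b k0_pm_012 s38_pm_012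

theorem s40_pm_012 : ∃ t, chk3 f_pm_012 t 4 1 1 = true := ex3_a s39_pm_012 s28_pm_012

theorem s41_pm_012 : ∃ t, chk3 f_pm_012 t 2 1 1 = true := ex3_a s40_pm_012 s25_pm_012

theorem s42_pm_012 : ∃ t, chk3 f_pm_012 t 1 1 1 = true := ex3_a s41_pm_012 k21_pm_012

theorem c_pm_012 : CertFX 0 536870912 536870912 469762048 1046898278 26843546 true true false .pnp 0 1 2
    ndF0q0 ndF5q1 pcF2 Cut.none Ext.none :=
  certFX2 (fam := true) (s1 := true) (s2 := false) (a := 0) (b := 1) (c := 2) (cn := .pnp) (n1 := ndF0q0) (n2 := ndF5q1) (pc := pcF2) (cut := Cut.none) (xt := Ext.none) (P1 := 0) (W1 := 536870912) (P2 := 536870912) (W2 := 469762048) (P3 := 1046898278) (W3 := 26843546)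
    rfl (fun _ => rfl) s42_pm_012

end Pool.Agent.Strip051.G.IE1.Tab.C.FA05

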