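import Pool.Agent.Strip051.G.IE1.Tab

/-! # Certificates F11 (generated) -/

set_option linter.all false
set_option maxRecDepth 100000

namespace Pool.Agent.Strip051.G.IE1.Tab.C.FA05

open Pool.Agent.Strip051.PB Pool.Agent.Strip051.PB.T
open Pool.Agent.Strip051.G.IE1.Tab

noncomputable def f_pm_022 : ℕ → ℕ → ℕ → ℕ → Bool := onCell 1073741824 536870912 1073741824 536870912 1046898278 26843546
    (rowFX 2 true true false .pp 0 2 2 (qsf 0 536870912 1073741824 536870912 2) ndF0q0 ndF5q2 pcF2 Cut.none Ext.none)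

def k0_pm_022 : ∃ t, chk3 f_pm_022 t 8 1 1 = true :=
  ⟨(b (l 3) (l 1)), by decide +kernel⟩

def k1_pm_022 : ∃ t, chk3 f_pm_022 t 36 8 1 = true :=
  ⟨(l 3), by decide +kernel⟩

def k2_pm_022 : ∃ t, chk3 f_pm_022 t 74 16 1 = true :=
  ⟨(a (a (l 3) (b (b (l 3) (b (l 3) (c (c (l 15918184) (l 15907240)) (l 15890816)))) (c (c (b (a (l 3) (c (b (a (l 3) (l 15938824)) (c (c (b (c (l 15951568) (l 15953928)) (l 15954856)) (b (l 15954888) (c (l 15960536) (l 15962912)))) (l 15958368))) (l 15944504))) (b (a (l 3) (c (c (b (l 15959696) (l 15960736)) (l 15951696)) (l 15975552))) (c (c (a (c (l 15961304) (l 15966480)) (c (b (l 15959672) (l 15964656)) (l 15968048))) (l 15957200)) (c (l 15969392) (l 15995768))))) (l 15959224)) (l 15944096)))) (b (c (c (c (a (b (l 15891560) (b (b (l 15899344) (l 15904120)) (l 15917496))) (b (l 15897264) (b (l 15906832) (b (l 15913208) (l 15921472))))) (b (l 15888736) (l 15885648))) (b (l 15880152) (l 15877328))) (c (b (l 15868704) (l 15887200)) (l 15867216))) (c (c (b (c (c (a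 (c (b (l 15940032) (b (a (c (l 15953704) (l 15954856)) (l 15954720)) (a (l 15958448) (c (l 15960440) (l 15962808))))) (l 15927248)) (a (l 15932248) (l 15947792))) (l 15946400)) (l 15942472)) (a (c (c (b (c (l 15962168) (b (a (l 15967600) (l 15970320)) (l 15970944))) (c (b (l 15964376) (l 15967848)) (l 15973144))) (b (l 15953536) (l 15961560))) (l 15983144)) (c (c (b (c (b (a (l 15967448) (l 15970000)) (l 15970624)) (b (l 15971888) (l 15977448))) (l 15955640)) (b (l 15975872) (l 15968064))) (l 15962216)))) (l 15955752)) (c (l 15945632) (l 15935504))))), by decide +kernel⟩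

def k3_pm_022 : ∃ t, chk3 f_pm_022 t 75 16 1 = true :=
  ⟨(a (c (a (b (c (c (b (l 15903016) (b (l 15912464) (l 15919856))) (l 15883072)) (l 15874680)) (c (c (b (l 15945664) (c (b (c (b (a (l 15971544) (l 15972104)) (a (l 15976072) (l 15978528))) (l 15975712)) (c (l 15979552) (b (l 15986016) (l 15988336)))) (l 15972184))) (l 15961016)) (l 15953280))) (b (c (b (l 15905848) (l 15918392)) (l 15900976)) (c (c (b (l 15923656) (b (l 15952896) (c (l 15966672) (l 15992968)))) (l 15959576)) (l 15951944)))) (b (c (l 15887280) (l 15876128)) (c (l 15942600) (l 15932440)))) (c (b (c (c (c (l 15903824) (l 15901072)) (l 15896944)) (c (l 15912416) (l 15906920))) (c (b (c (a (l 15924320) (l 15926648)) (l 15920888)) (c (c (a (b (l 15974136) (l 15969728)) (l 15961224)) (l 15981072)) (l 15977376))) (c (b (l 15915648) (l 15972456)) (l 15949920)))) (c (b (l 15898672) (c (l 15944840) (l 15939768))) (b (l 15887672) (l 15932144))))), by decide +kernel⟩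

def k4_pm_022 : ∃ t, chk3 f_pm_022 t 74 17 2 = true :=
  ⟨(a (b (a (b (l 3) (b (l 3) (c (c (l 1089477299975) (l 16031952)) (l 16037232)))) (c (b (c (c (a (a (l 15979360) (l 15958488)) (l 15980728)) (l 15968784)) (c (l 15980496) (l 16011152))) (c (b (b (a (a (l 15978168) (l 15997872)) (l 15999248)) (a (a (b (l 15981064) (l 15984808)) (l 15983576)) (l 15984528))) (c (l 15994248) (l 16020032))) (l 16026400))) (c (b (c (l 16016744) (l 16023568)) (l 16045768)) (b (l 16020888) (l 16057912))))) (c (b (c (a (l 16052808) (l 16048816)) (l 16058528)) (c (a (l 16106456) (l 16099488)) (l 16104552))) (b (c (l 16070672) (l 16088664)) (l 16094208)))) (c (b (c (b (c (b (a (c (l 15975664) (l 15980288)) (l 15961416)) (l 15969560)) (b (l 15971968) (l 15979264))) (c (b (a (l 15979256) (l 16003144)) (a (l 15994008) (l 15994592))) (l 15995832))) (b (a (c (l 15984592) (l 16013640)) (b (l 15988168) (l 15997472))) (c (l 16025848) (l 16037216)))) (b (c (c (l 16023536) (l 16027560)) (l 16057688)) (c (l 16092384) (l 16096368))))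 (b (c (b (l 16020672) (c (l 16046792) (l 16053976))) (l 16038472)) (b (c (l 16075200) (l 16090960)) (l 16113960))))), by decide +kernel⟩

def k5_pm_022 : ∃ t, chk3 f_pm_022 t 75 17 2 = true :=
  ⟨(c (b (c (a (b (c (a (b (l 15966520) (l 15995200)) (l 15982616)) (b (a (l 15978928) (l 15985048)) (l 15988992))) (c (a (l 15990600) (l 16014248)) (l 16001512))) (b (c (b (a (l 15977080) (l 15983920)) (l 15986896)) (b (l 15987816) (a (l 15995824) (l 16002312)))) (c (b (l 15993416) (l 16024160)) (l 16010248)))) (a (b (c (b (l 15989248) (c (l 15997456) (l 16004296))) (l 16019280)) (c (l 16013048) (l 16043712))) (b (c (l 15996696) (l 16017800)) (c (a (l 16018696) (l 16043296)) (b (l 16025280) (l 16056248)))))) (a (b (c (a (l 16045104) (l 16044984)) (l 16060088)) (c (l 16084056) (l 16091736))) (c (b (a (l 16024752) (l 16047472)) (l 16079904)) (b (l 16065792) (l 16090984))))) (b (b (a (l 16016648) (l 16012104)) (c (a (c (l 16050768) (l 16057872)) (l 16055136)) (l 16055304))) (c (b (a (l 16078632) (l 16083608))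 (a (l 16104200) (l 16108832))) (a (b (l 16092784) (l 16122520)) (b (l 16094512) (l 16124920)))))), by decide +kernel⟩

def k6_pm_022 : ∃ t, chk3 f_pm_022 t 37 17 3 = true :=
  ⟨(a (c (b (a (l 16040624) (l 16033368)) (b (a (l 16100008) (l 16093952)) (c (a (l 16132736) (l 16135336)) (l 16143544)))) (b (l 16028064) (l 16121688))) (c (b (a (l 16028840) (l 16024632)) (c (a (l 16115008) (l 16110464)) (l 16113472))) (a (l 16065136) (b (l 16015888) (l 16105640))))), by decide +kernel⟩

def k7_pm_022 : ∃ t, chk3 f_pm_022 t 18 9 1 = true :=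
  ⟨(b (a (a (l 3) (a (l 3) (b (b (l 3) (c (l 16258664) (c (l 16251272) (l 16234040)))) (c (l 16303008) (l 16275392))))) (c (a (b (c (a (l 16139808) (b (l 16151864) (l 16219504))) (a (l 16199856) (l 16124288))) (c (a (l 16344904) (l 16325528)) (l 16331512))) (c (a (b (c (l 16127672) (l 16169496)) (l 16305448)) (b (a (b (l 16129072) (l 16187376)) (b (l 16126624) (l 16181944))) (a (l 16291528) (l 16286312)))) (b (a (b (l 16148864) (l 16199128)) (b (c (l 16139192) (l 16154480)) (c (l 16186584) (l 16191752)))) (a (l 16301288) (a (l 16287304) (l 16282616)))))) (a (b (c (b (c (l 16171080) (a (l 16181816) (l 16180640))) (a (l 16230528) (l 16219568))) (b (c (l 16190856) (l 16189424)) (c (a (l 16235320) (l 16230440)) (l 16241848)))) (c (l 16327832) (b (c (l 16291128) (l 16231584)) (l 16361648)))) (c (b (a (b (c (l 16166920) (l 16179128)) (c (l 16204104) (l 16216152))) (c (b (l 16170760) (l 16204240)) (b (l 16178096) (l 16216776)))) (a (l 16299816) (c (l 16285640) (l 16206144)))) (c (b (a (l 16205928) (l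 16201456)) (a (l 16261072) (b (l 16246216) (l 16318856)))) (b (l 16203088) (a (b (l 16277504) (l 16332664)) (b (l 16273224) (l 16323712))))))))) (a (l 1) (a (l 1) (a (l 1) (a (l 1) (c (l 16363776) (l 16319984))))))), by decide +kernel⟩

def k8_pm_022 : ∃ t, chk3 f_pm_022 t 76 8 2 = true :=
  ⟨(b (a (b (c (a (c (l 15911832) (l 15906400)) (c (l 15920384) (l 15915000))) (a (a (l 15917480) (l 15899984)) (a (l 15925112) (l 15908696)))) (a (c (b (c (l 15930864) (l 15925656)) (c (l 15959968) (l 15975816))) (b (l 15917848) (l 15968424))) (c (b (a (l 15954112) (a (l 15957416) (l 15962024))) (a (l 15958488) (l 15985016))) (b (l 15926240) (a (l 15969616) (l 15975256)))))) (b (a (c (a (c (l 15927688) (l 15922360)) (l 15956552)) (c (l 15942952) (l 15937656))) (c (l 15977688) (l 15967456))) (c (b (a (l 15975304) (l 16001480)) (a (l 15997688) (l 16020200))) (b (l 15978640) (l 16000344))))) (a (c (b (a (c (b (c (b (l 15987688) (a (l 16015184) (l 15999248))) (a (l 15996736) (l 15998192))) (a (l 16010376) (c (l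 16008176) (l 16009592)))) (b (l 15996944) (c (b (l 16025720) (l 16055328)) (l 16056608)))) (b (c (c (b (l 15995432) (l 16010392)) (l 16025512)) (l 16022800)) (c (b (l 16042496) (l 16053912)) (l 16064016)))) (a (c (b (a (l 16050240) (l 16055296)) (l 16083568)) (b (a (l 16071440) (l 16076848)) (l 16097096))) (b (c (l 16069512) (l 16090808)) (l 16108200)))) (b (a (c (l 16035136) (l 16030760)) (b (l 16016016) (l 16062624))) (a (c (b (c (l 16088320) (l 16096328)) (l 16116848)) (b (l 16096528) (l 16132904))) (c (l 16055512) (l 16125400))))) (c (b (c (b (a (l 16039472) (l 16059680)) (c (a (l 16063304) (b (l 16085832) (l 16093384))) (a (b (l 16070336) (l 16079984)) (l 16097528)))) (b (l 16046576) (a (l 16080416) (l 16100408)))) (b (c (a (l 16089016) (l 16113480)) (a (l 16109376) (l 16131648))) (c (l 16126336) (l 16145816)))) (b (l 16020888) (b (l 16110208) (c (l 16164288) (l 16175864))))))), by decide +kernel⟩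

def k9_pm_022 : ∃ t, chk3 f_pm_022 t 76 8 3 = true :=
  ⟨(b (a (c (b (a (l 15908344) (l 15917152)) (a (b (l 15928416) (l 15958568)) (b (l 15936912) (l 15962528)))) (b (a (l 15897472) (l 15906392)) (a (l 15933936) (l 15940656)))) (b (a (c (l 15929720) (l 15919128)) (l 15952104)) (c (l 15959328) (l 15970656)))) (a (c (a (b (l 16024200) (l 16115128)) (b (l 16030264) (l 16126000))) (a (b (l 16015456) (l 16106760)) (l 16027544))) (c (b (l 16054504) (l 16148928)) (l 16093808)))), by decide +kernel⟩

def k10_pm_022 : ∃ t, chk3 f_pm_022 t 76 9 1 = true :=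
  ⟨(b (c (b (b (a (c (a (c (l 16127552) (l 16134480)) (l 16144768)) (a (c (l 16146168) (l 16164832)) (l 16173360))) (c (l 16127840) (c (l 16193136) (l 16209920)))) (c (a (l 16191656) (l 16214768)) (a (l 16203416) (l 16235568)))) (c (a (l 16294160) (l 16268064)) (a (l 16293000) (l 16250560)))) (b (a (c (b (a (l 16179568) (l 16193056)) (l 16227944)) (a (l 16206728) (l 16218248))) (c (c (l 16154984) (l 16242248)) (l 16240736))) (c (b (c (l 16259648) (a (l 16275568) (l 16308080))) (l 16277952)) (b (l 16193160) (a (l 16317704) (l 16324568)))))) (b (c (c (l 16386120) (l 16405328)) (c (l 16403704) (a (l 16397552) (l 16311312)))) (l 1))), by decide +kernel⟩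

def k11_pm_022 : ∃ t, chk3 f_pm_022 t 77 4 1 = true :=
  ⟨(b (b (c (b (c (a (b (l 16021400) (l 16036312)) (b (l 16081632) (l 16095528))) (a (l 16019264) (l 16079792))) (a (c (b (l 16051424) (l 16067248)) (l 16050520)) (c (b (l 16109632) (l 16123928)) (l 16108704)))) (b (c (l 16020848) (l 16032688)) (c (l 16030768) (l 16064296)))) (c (b (c (b (a (a (l 16084112) (l 16107952)) (b (l 16135568) (l 16149640))) (b (a (a (a (l 16087936) (l 16121864)) (l 16139552)) (l 16170352)) (c (a (c (a (l 16124632) (l 16155624)) (l 16148400)) (l 16190720)) (l 16171016)))) (a (l 16110352) (b (l 16136072) (l 16174032)))) (c (b (a (c (c (l 16153000) (l 16163368)) (c (l 16128664) (l 16179272))) (c (b (c (l 16178768) (l 16210632)) (l 16193064)) (l 16220640))) (c (a (l 16179896) (l 16229736)) (a (l 16200464) (l 16249056)))) (c (b (l 16201184) (a (l 16215224) (l 16262160))) (l 16220296)))) (b (a (l 16098872) (l 16124008)) (l 16213120)))) (b (c (b (c (a (b (l 16218544) (l 16256720)) (c (l 16271152) (l 16267848))) (b (a (l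 16208376) (l 16274032)) (c (l 16299008) (l 16274712)))) (c (b (l 16283296) (l 16385848)) (b (a (l 16320888) (l 16360712)) (l 16391712)))) (b (c (c (l 16243336) (l 16308288)) (l 16305216)) (c (b (c (l 16322560) (l 16375696)) (c (l 16403184) (l 16375392))) (b (l 16379248) (l 16381088))))) (c (b (l 16386824) (l 353830773687)) (b (c (l 16392864) (c (l 16357864) (l 16344232))) (l 16417928))))), by decide +kernel⟩

def k12_pm_022 : ∃ t, chk3 f_pm_022 t 39 8 1 = true :=
  ⟨(b (c (a (b (c (a (b (l 16132944) (l 16145896)) (b (l 16176208) (l 16188472))) (a (l 16131320) (l 16174800))) (c (a (b (l 16159048) (l 16172400)) (b (l 16200736) (l 16213200))) (a (l 16158328) (l 16200152)))) (b (c (a (b (l 16210728) (l 16224216)) (b (l 16237016) (l 16253736))) (a (l 16210192) (l 16238152))) (c (a (l 16241416) (l 16269968)) (a (l 16235120) (l 16264080))))) (a (b (c (l 16146352) (l 16138592)) (c (l 16173264) (l 16166208))) (b (c (l 16196584) (l 16210744)) (c (l 16244336) (l 16238256))))) (c (b (a (b (c (a (l 16186472)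 (l 16225864)) (l 16179912)) (a (c (b (l 16203792) (l 16224072)) (l 16207712)) (c (b (l 16236272) (l 16249512)) (l 16238000)))) (c (a (b (l 16259104) (l 16271640)) (l 16292064)) (a (l 16259856) (l 16286928)))) (a (c (c (a (b (c (b (l 16243664) (l 16252280)) (l 16253584)) (l 16250032)) (b (l 16278760) (l 16261672))) (b (l 16267424) (a (l 16264872) (l 16318016)))) (l 16243816)) (c (b (a (l 16297680) (l 16314160)) (c (a (c (l 16325136) (l 16335488)) (l 16347424)) (l 16343024))) (a (l 16313064) (l 16327560))))) (a (b (a (l 16143176) (l 16178392)) (l 16277288)) (b (c (l 16268984) (l 16263664)) (c (l 16317784) (l 16313568)))))), by decide +kernel⟩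

def k13_pm_022 : ∃ t, chk3 f_pm_022 t 39 9 1 = true :=
  ⟨(b (c (b (a (c (c (a (l 16264480) (l 16274696)) (b (a (l 16313024) (l 16344760)) (l 16333424))) (c (b (l 16299944) (l 16351072)) (l 16281168))) (a (c (b (l 16293960) (l 16320600)) (l 16348952)) (c (c (l 16316472) (l 16395032)) (l 16405648)))) (a (c (b (l 16316520) (l 16402408)) (b (c (l 16400176) (l 16397696)) (l 16381800))) (c (b (l 16333528) (l 16427648)) (b (l 16364408) (c (l 16470328) (l 16489456)))))) (c (a (b (l 16369920) (c (b (l 16431056) (l 16423640)) (l 16414344))) (b (l 16399368) (l 16400632))) (a (l 16327136) (l 16377552)))) (c (b (a (a (l 16451232) (l 16418992)) (c (l 16458584) (b (l 16492624) (l 16510128)))) (a (l 16397568) (l 16378872))) (b (a (c (b (c (l 16502440) (l 16517416)) (l 16530352)) (b (l 16524368) (l 16475024))) (c (b (l 16498240) (l 16492592)) (l 16504648))) (c (a (l 16415816) (l 16370400)) (a (l 16387872) (b (l 16373264) (l 16349680))))))), by decide +kernel⟩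

def k14_pm_022 : ∃ t, chk3 f_pm_022 t 9 5 1 = true :=
  ⟨(a (l 1) (b (a (l 1) (a (l 1) (b (b (c (l 16249776) (l 16241696)) (l 1)) (l 1)))) (l 1))), by decide +kernel⟩

def k15_pm_022 : ∃ t, chk3 f_pm_022 t 9 3 1 = true :=
  ⟨(l 1), by decide +kernel⟩

def k16_pm_022 : ∃ t, chk3 f_pm_022 t 40 4 1 = true :=
  ⟨(b (b (c (a (b (c (a (l 16265768) (l 16280840)) (a (l 16259424) (l 16274712))) (c (a (l 16293320) (l 16312000)) (l 16297800))) (b (c (l 16294272) (l 16288336)) (c (a (l 16325600) (l 16334496)) (l 16324800)))) (a (b (c (l 16261024) (l 16254784)) (c (l 16292384) (l 16286968))) (b (c (l 16282400) (l 16276464)) (c (l 16319784) (l 16314760))))) (c (c (a (b (a (l 16313952) (l 16331384)) (b (l 16339104) (l 16337488))) (b (a (l 16344952) (l 16355200)) (l 16368872))) (a (b (l 16318584) (l 16305240)) (b (l 16346216) (l 16365368)))) (a (b (c (l 16313912) (l 16309232)) (c (l 16343376) (l 16339568))) (b (c (l 16341960) (l 16337704)) (l 16360112))))) (b (c (a (b (c (a (b (l 16338192) (l 16411624)) (l 16339952))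 (l 16412872)) (c (b (c (l 16431424) (l 16450144)) (l 16443368)) (a (l 16416504) (l 16441576)))) (b (c (a (l 16361296) (l 16405600)) (l 16408224)) (c (a (l 16396288) (l 16397032)) (b (l 16465752) (l 16433968))))) (a (b (l 16407920) (l 16453064)) (b (l 16404576) (l 16443624)))) (c (a (b (c (l 16454160) (b (l 16484240) (l 16490416))) (l 16333072)) (b (c (a (l 16510648) (l 16470824)) (a (l 16505328) (b (l 16521552) (l 16468424)))) (a (l 16400880) (c (l 16377992) (l 16357784))))) (c (a (b (l 16472712) (b (l 16392120) (l 16352504))) (b (a (l 16486960) (l 16479792)) (a (l 16335536) (a (l 16328056) (l 16349248))))) (a (b (l 16487576) (l 16278992)) (a (l 16418768) (l 16346592))))))), by decide +kernel⟩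

def k17_pm_022 : ∃ t, chk3 f_pm_022 t 82 4 1 = true :=
  ⟨(b (b (a (c (b (l 16297384) (l 16336760)) (c (l 16308680) (l 16303304))) (c (a (b (l 16301552) (c (l 16350712) (l 16346008))) (b (l 16323112) (l 16384528))) (a (b (l 16289984) (l 16338952)) (b (l 16312136) (l 16376152))))) (a (c (b (a (l 16358992) (l 16366216)) (a (l 16377024) (l 16391280))) (b (l 16356832) (l 16359640))) (c (b (a (l 16391080) (l 16434672)) (l 16450800)) (b (a (l 16383872) (l 16428744)) (l 16446368))))) (b (c (a (b (a (l 16386904) (l 16433720)) (c (l 16362456) (l 16504504))) (b (l 16470368) (c (l 16428848) (l 16503448)))) (a (b (l 16333848) (l 16481680)) (b (l 16489128) (l 16502704)))) (c (b (c (c (l 16310480) (l 16231672)) (a (l 16443312) (l 16325488))) (c (l 16179392) (a (l 16280000) (l 16227312)))) (b (a (l 16428416) (l 16357616)) (c (l 16111136) (l 16249112)))))), by decide +kernel⟩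

def k18_pm_022 : ∃ t, chk3 f_pm_022 t 166 8 1 = true :=
  ⟨(b (c (a (b (l 16369936) (l 16429816)) (b (l 16429824) (l 16488120))) (a (l 16391192) (l 16368072))) (c (b (a (l 16482080) (l 16478392)) (a (l 16518824) (l 16556560))) (a (l 16433920) (b (l 16517616) (l 16577008))))), by decide +kernel⟩

def k19_pm_022 : ∃ t, chk3 f_pm_022 t 167 8 1 = true :=
  ⟨(b (a (a (c (b (l 16480936) (l 16537704)) (l 16440848)) (c (b (c (l 16525048) (l 16522344)) (c (l 16537960) (l 16557592))) (c (l 16485232) (l 16504168)))) (c (a (b (a (a (l 16556424) (a (l 16573128) (c (b (l 16575328) (b (l 16594872) (l 16587072))) (l 16565560)))) (l 16595232)) (c (a (a (l 16590504) (a (l 16606656) (a (a (l 16617568) (b (l 16631528) (l 16613800))) (l 16605880)))) (l 16607000)) (a (a (l 16610624) (a (l 16627024) (b (l 16606288) (l 16613080)))) (l 16627696)))) (b (l 16598528) (c (l 16609976) (l 16630728)))) (a (b (a (a (l 16551952) (a (l 16569128) (l 16583848))) (l 16591880)) (a (a (l 16609336) (a (l 16626112) (l 16598536))) (l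 16648248))) (b (l 16595272) (l 16630384))))) (b (a (c (a (l 16528272) (b (l 16580048) (c (l 16555328) (l 16575944)))) (a (l 16590000) (l 16542320))) (c (a (a (a (b (l 16581560) (l 16543736)) (c (a (b (l 16586600) (l 16548992)) (a (a (b (l 16575800) (l 16538184)) (b (c (l 16548672) (l 16569264)) (c (b (l 16545168) (l 16519288)) (l 16531520)))) (b (l 16587568) (l 16528968)))) (a (l 16535464) (b (l 16551224) (b (l 16526088) (l 16520832)))))) (c (b (l 16586240) (l 16527288)) (l 16513672))) (c (b (l 16561720) (l 16522896)) (l 16509696))) (a (a (a (l 16551016) (a (l 16534280) (c (l 16499536) (l 16540480)))) (l 16532960)) (l 16528904)))) (a (c (a (l 16518888) (c (l 16456504) (l 16476328))) (l 16428992)) (c (c (a (a (a (l 16466824) (a (l 16429960) (a (a (l 16419320) (b (l 16480424) (l 16429856))) (l 16431216)))) (l 16408568)) (l 16404072)) (a (a (a (l 16486168) (a (l 16470032) (b (l 16481936) (l 16430824)))) (l 16448312)) (l 16443752))) (a (a (a (l 16483720) (a (l 16467224) (l 16432192))) (l 16445008))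 (l 16440360)))))), by decide +kernel⟩

def k20_pm_022 : ∃ t, chk3 f_pm_022 t 83 18 1 = true :=
  ⟨(a (b (c (a (l 16555920) (l 16466384)) (l 16429584)) (c (a (b (l 16477072) (l 16353016)) (l 16284528)) (a (l 16439152) (l 16384312)))) (a (b (c (a (l 16458640) (l 16396600)) (l 16388200)) (c (a (l 16281080) (b (l 16340160) (l 16272080))) (l 16251456))) (c (b (a (a (a (l 16386408) (a (l 16370736) (c (b (b (l 16395776) (l 16371136)) (l 16334608)) (l 16355848)))) (l 16349656)) (l 16345272)) (a (a (a (b (l 16310696) (l 16243296)) (a (b (l 16295576) (l 16228528)) (b (b (l 16296728) (l 16268592)) (c (l 16176872) (l 16214192))))) (b (l 16275248) (l 16209208))) (b (l 16271568) (l 16207000)))) (b (a (a (a (l 16381128) (a (l 16364992) (l 16351232))) (l 16343272)) (l 16338760)) (a (a (a (l 16269448) (a (l 16254104) (l 16240920))) (l 16233680)) (l 16230624)))))), by decide +kernel⟩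

def k21_pm_022 : ∃ t, chk3 f_pm_022 t 83 19 1 = true :=
  ⟨(a (c (b (c (a (l 16284104) (l 16210408)) (l 16128024)) (c (a (l 16211840) (l 16161296)) (a (l 16182984) (l 16128992)))) (b (l 16265080) (l 16004248))) (c (a (b (c (a (l 16185640) (b (l 16196568) (l 16162088))) (l 16139648)) (c (a (l 16118016) (l 16081440)) (b (l 16090696) (l 16035240)))) (b (c (a (a (b (a (l 16188944) (a (l 16153400) (c (b (l 16173960) (l 16150896)) (l 16149704)))) (a (l 16133112) (a (l 16118472) (c (l 16115688) (l 16094456))))) (b (l 16155312) (l 16099096))) (c (l 16109328) (l 16115752))) (a (a (a (l 16138328) (a (l 16123704) (l 16111168))) (l 16104600)) (l 16102472))) (c (a (a (a (l 16053704) (a (l 16039472) (b (l 16054696) (l 16002232)))) (l 16020368)) (l 16017144)) (a (a (a (l 16018952) (a (l 16004488) (b (l 16020584) (l 15965240)))) (l 15985408)) (l 15984288))))) (a (b (l 16173832) (l 15980032)) (c (a (a (a (l 16065536) (a (l 16050912) (l 16017384))) (l 16031824)) (l 16029832)) (b (l 16090840) (l 15976456)))))),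 by decide +kernel⟩

def k22_pm_022 : ∃ t, chk3 f_pm_022 t 21 8 1 = true :=
  ⟨(b (b (c (a (c (l 16562640) (l 16572080)) (c (l 16589168) (l 16610056))) (a (l 16570496) (l 16588968))) (c (c (b (a (l 16588904) (l 16554296)) (a (c (l 16544584) (l 16544232)) (l 16469472))) (a (a (l 16575192) (l 16557256)) (l 16478872))) (c (a (l 16555384) (l 16519352)) (l 16473448)))) (c (a (a (b (c (b (l 16519608) (c (b (l 16514384) (l 16464000)) (l 16478224))) (b (l 16560392) (l 16497824))) (c (b (c (l 16403168) (l 16443912)) (l 16394336)) (l 16374784))) (b (c (c (b (l 16503800) (l 16420080)) (l 16408392)) (l 16427840)) (c (b (b (l 16394272) (l 16365672)) (c (l 16348840) (l 16347048))) (b (l 16398336) (l 16344368))))) (b (b (c (a (c (l 16467280) (l 16487144)) (l 16430592)) (l 16446144)) (c (c (a (l 16384360) (l 16370168)) (l 16365160)) (l 16383768))) (c (b (c (a (l 16365456) (l 16331128)) (l 16325368)) (a (a (l 16294472) (l 16296480)) (c (l 16272224) (l 16269872)))) (b (l 16343488) (l 16242560))))) (b (c (a (l 16445664)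 (l 16412056)) (l 16363672)) (a (c (l 16329088) (l 16389040)) (c (l 16289112) (l 16305968)))))), by decide +kernel⟩

def k23_pm_022 : ∃ t, chk3 f_pm_022 t 21 9 1 = true :=
  ⟨(b (c (b (a (c (b (a (l 16345184) (l 16299416)) (l 16274344)) (b (l 16318504) (l 16270152))) (c (a (b (l 16233752) (l 16207904)) (b (a (l 16223472) (l 16205288)) (l 16164960))) (b (l 16188368) (l 16180880)))) (a (b (c (l 16206184) (l 16222488)) (a (c (l 16195736) (l 16189680)) (l 16156616))) (c (b (a (l 16162112) (l 16119880)) (l 16096432)) (b (l 16134984) (l 16090088))))) (b (a (l 16246400) (c (l 16200952) (l 16195720))) (a (b (l 16215496) (l 16162632)) (c (l 16106336) (l 16100208))))) (c (b (a (c (b (a (c (l 16098904) (l 16128720)) (l 16107656)) (c (a (l 16084552) (l 16054968)) (l 16059592))) (l 16057712)) (b (c (l 16052688) (l 16045920)) (a (l 16018944) (l 15986512)))) (c (a (b (c (a (l 16033768) (l 16000640)) (l 16001472)) (c (l 15967032) (a (l 15965304) (l 15933368)))) (b (a (c (l 15972728) (l 15959992)) (l 15942408))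 (c (a (l 15920424) (l 15894216)) (l 15896464)))) (a (b (l 15986624) (l 15927896)) (l 15912208)))) (b (a (l 16069888) (l 15988888)) (a (l 15935776) (l 15900416))))), by decide +kernel⟩

def k24_pm_022 : ∃ t, chk3 f_pm_022 t 11 8 2 = true :=
  ⟨(b (a (b (a (c (l 16532656) (l 16552360)) (c (l 16477504) (l 16496016))) (a (c (a (l 16445656) (l 16430080)) (l 16424776)) (c (b (l 16448160) (l 16387968)) (l 16372304)))) (b (a (c (a (l 16478160) (l 16384560)) (a (l 16474672) (l 16422152))) (b (c (l 16428712) (l 16424168)) (a (l 16341648) (l 16314024)))) (a (c (a (l 16274072) (l 16304592)) (a (l 16353288) (l 16299040))) (c (b (l 16194672) (l 16196840)) (b (l 16251032) (l 16189688)))))) (a (b (c (a (a (b (l 16415920) (l 16334552)) (b (l 16380752) (l 16321264))) (b (a (l 16346024) (l 16311728)) (a (l 16287488) (l 16254176)))) (a (b (l 16394752) (l 16334168)) (b (l 16324216) (l 16265568)))) (a (a (c (b (c (l 16297368) (l 16295096)) (l 16248528)) (l 16262160)) (c (b (l 16262888) (l 16205616)) (l 16228776)))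 (c (c (b (l 16215288) (l 16159592)) (b (l 16212384) (l 16156400))) (b (l 16208040) (l 16151616))))) (c (b (a (a (b (l 16270560) (l 16192672)) (b (l 16217168) (l 16160248))) (c (b (l 16140720) (l 16083896)) (l 16087216))) (b (a (a (l 16157832) (l 16104424)) (l 16025976)) (a (a (l 16103128) (l 16049712)) (l 15971232)))) (a (b (a (l 16215176) (l 16181888)) (a (l 16123400) (l 16069136))) (b (l 16081224) (l 15989400)))))), by decide +kernel⟩

def k25_pm_022 : ∃ t, chk3 f_pm_022 t 11 9 2 = true :=
  ⟨(a (b (b (a (c (b (a (l 16180976) (l 16149456)) (a (c (l 16128280) (l 16125096)) (l 16094432))) (b (l 16159136) (l 16104160))) (c (b (a (l 16118520) (l 16088144)) (c (l 16072528) (l 16047800))) (b (l 16096328) (l 16042176)))) (a (c (b (a (l 16078720) (c (l 16044008) (l 16040312))) (a (l 16035424) (l 15996096))) (b (l 16032864) (l 16008128))) (c (b (c (l 15999240) (l 15995208)) (a (l 15971768) (l 15932256))) (b (l 15989168) (l 15938368))))) (b (a (c (b (l 15973808) (l 15932960)) (l 15945184)) (c (b (a (l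 15917176) (l 15884144)) (a (l 15877616) (l 15842040))) (b (l 15892096) (l 15850320)))) (b (c (a (l 15892872) (l 15821656)) (l 15826576)) (a (a (l 15860240) (l 15831400)) (l 15779568))))) (b (c (a (b (a (b (l 16049544) (l 15997088)) (b (l 15996120) (l 15943656))) (a (a (b (l 15959040) (l 15908848)) (l 15942736)) (b (l 15892328) (l 15842144)))) (a (b (l 15917128) (l 15835408)) (b (l 15865608) (l 15762872)))) (b (a (a (l 16015144) (l 15960880)) (l 15881088)) (a (a (l 15932424) (l 15857184)) (l 15777352)))) (c (b (a (a (b (l 15846576) (c (l 15802824) (l 15797656))) (c (l 15771808) (l 15766344))) (c (l 15745888) (l 15687384))) (a (b (a (l 15759816) (l 15700088)) (l 15671136)) (b (l 15619920) (l 15575384)))) (b (a (a (l 15813440) (l 15758144)) (l 15678264)) (a (l 15700352) (l 15584680)))))), by decide +kernel⟩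

def k26_pm_022 : ∃ t, chk3 f_pm_022 t 11 4 3 = true :=
  ⟨(b (b (a (a (b (l 16550472) (l 16420912)) (b (l 16450376) (l 16366744))) (a (b (c (l 16381880) (l 16440888)) (c (l 16320912) (l 16315800))) (b (c (l 16332880) (l 16369768)) (c (l 16213792) (l 16206944))))) (a (b (c (a (l 16360496) (l 16289864)) (l 16320616)) (c (a (l 16240312) (l 16173624)) (l 16201152))) (a (c (b (l 16202616) (l 16088752)) (l 16075440)) (b (l 16006320) (l 15975768))))) (b (a (b (c (a (l 16125520) (l 16061904)) (l 16086832)) (a (c (l 16024208) (l 16016888)) (c (l 15955608) (l 15947288)))) (c (a (b (l 15979408) (l 15874664)) (l 15692224)) (b (l 15915304) (l 15809520)))) (a (a (b (l 15932992) (l 15847304)) (b (l 15815936) (l 15778240))) (a (b (c (l 15775400) (l 15764888)) (l 15683368)) (b (l 15660040) (l 15565048)))))), by decide +kernel⟩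

def k27_pm_022 : ∃ t, chk3 f_pm_022 t 20 5 1 = true :=
  ⟨(b (a (b (b (c (a (l 16252584) (a (l 16260928) (l 16243152))) (a (c (l 16246888) (l 16238144)) (c (a (l 16253752) (l 16231760)) (a (l 16220736) (l 16174872))))) (a (l 1) (a (l 1) (c (l 16312760) (l 16331008))))) (l 1)) (b (a (b (c (a (l 16188232) (l 16122672)) (c (b (l 16146328) (l 16101376)) (l 15965272))) (c (l 16101368) (b (l 16044648) (l 16392680)))) (b (a (b (c (l 15991360) (l 15989504)) (c (l 15985344) (c (l 15981960) (l 15961664)))) (c (a (c (a (l 15989608) (l 15956488)) (b (l 15981800) (l 15921024))) (c (a (a (a (l 15930968) (a (l 15917544) (b (l 15941648) (l 15872512)))) (l 15900016)) (l 15898680)) (a (a (a (l 15909264) (b (l 15920192) (l 15862720))) (l 15876824)) (l 15874272)))) (a (c (b (l 15951520) (l 15894456)) (l 15902600)) (c (b (b (l 15907528) (l 15878680)) (c (l 15847448) (l 15830008))) (l 15846824))))) (a (c (l 16036192) (c (l 16091384) (l 15974424))) (c (a (l 15960416) (a (a (a (l 16049640) (a (l 16036632) (l 15941480)))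 (l 16020040)) (l 16019872))) (c (a (l 16054112) (a (l 15856448) (l 16046864))) (a (l 15934000) (b (l 15930424) (l 16084152)))))))) (a (l 1) (a (l 1) (a (l 1) (a (l 1) (c (l 1469984922615) (l 675952325063)))))))) (l 1)), by decide +kernel⟩

def k28_pm_022 : ∃ t, chk3 f_pm_022 t 21 5 1 = true :=
  ⟨(b (b (b (c (a (c (b (c (l 15913312) (l 15898104)) (b (l 15864264) (l 15836040))) (b (c (l 15880744) (l 15864472)) (a (l 15833744) (l 15809720)))) (c (b (c (a (l 15873456) (l 15843976)) (l 15842560)) (c (b (l 15824584) (l 15804456)) (a (l 15809504) (l 15781296)))) (b (l 15826696) (c (l 15779096) (l 15766504))))) (c (a (b (l 15849288) (l 15791280)) (l 15782568)) (l 15791232))) (c (b (a (c (l 15953264) (l 15933792)) (c (c (l 15931296) (l 15916912)) (l 15745976))) (a (l 16122176) (c (l 16114536) (l 15964808)))) (a (c (a (l 15869136) (l 15809344)) (l 15817104)) (c (l 15780352) (l 15980496))))) (c (b (a (l 16178344) (b (c (l 16313344) (l 16280232)) (l 16186776))) (a (l 15942952) (l 15855640))) (b (a (c (l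 16246904) (b (l 16296848) (l 16278888))) (c (b (l 16220504) (b (l 16320920) (l 16200472))) (b (l 16333856) (l 16238896)))) (c (l 15841832) (a (l 15924648) (l 15749392)))))) (a (l 1) (b (b (c (l 15474096) (l 15445648)) (l 1)) (l 1)))), by decide +kernel⟩

def k29_pm_022 : ∃ t, chk3 f_pm_022 t 11 10 1 = true :=
  ⟨(b (a (b (c (a (c (b (a (c (l 15819512) (l 15806264)) (l 15792240)) (c (b (l 15771416) (b (l 15753336) (l 15746024))) (l 15749536))) (l 15761536)) (b (l 15743144) (a (c (l 15723952) (l 15712392)) (l 15692872)))) (a (l 15747040) (l 15701128))) (c (a (c (a (b (l 15762176) (l 16109912)) (b (l 15803072) (l 16023464))) (b (l 15853872) (l 16052184))) (c (b (a (l 15744736) (l 15826936)) (l 15910368)) (l 15859456))) (l 15752304))) (b (c (c (b (a (l 15657088) (l 15535024)) (a (b (l 15631512) (l 15616664)) (l 15499760))) (a (l 15628552) (l 15503984))) (c (l 15469120) (l 15540120))) (c (b (a (l 15607400) (l 15608128)) (a (a (l 16035592) (l 15978592)) (l 15885376))) (a (l 15758480) (l 15737880)))))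 (a (c (b (a (c (b (l 16204280) (l 16170720)) (b (l 16162696) (l 16092160))) (b (c (l 16125016) (l 16236008)) (c (c (l 16165856) (l 16142328)) (l 16181792)))) (c (a (l 15818344) (b (l 15962976) (l 15790224))) (a (l 15740848) (b (l 15965744) (l 15725552))))) (b (b (l 16131832) (c (l 16104960) (l 16290768))) (a (c (b (l 15996952) (l 15794216)) (l 15785328)) (c (l 15779344) (l 15944032))))) (c (b (a (c (b (c (l 16082704) (l 16158224)) (l 16113728)) (l 16148672)) (b (l 16114312) (l 16230992))) (b (a (c (c (l 15943528) (l 16040296)) (l 16090960)) (c (l 16079056) (l 16208040))) (c (a (a (l 15828008) (l 15872664)) (l 15921344)) (l 15684656)))) (b (b (l 16034456) (l 16216752)) (l 15841872))))), by decide +kernel⟩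

def k30_pm_022 : ∃ t, chk3 f_pm_022 t 11 11 1 = true :=
  ⟨(b (a (a (c (b (l 15460448) (l 15016776)) (b (c (l 15444992) (l 15420368)) (l 14973880))) (c (b (c (l 15395592) (l 15290032)) (l 14992432)) (b (c (b (l 15581048) (l 15336256)) (l 15467128)) (c (l 14987144) (l 14976296))))) (c (b (c (b (a (a (l 15591208) (l 15655344)) (l 15611872)) (a (l 15351072) (c (l 15518320) (l 15530640)))) (a (b (l 15561520) (a (l 15367968) (l 15435928))) (l 15549496))) (a (c (b (l 15168664) (l 14951392)) (b (l 15165976) (l 14934600))) (c (b (l 15272416) (l 15060104)) (b (l 15305000) (l 15067216))))) (b (c (a (l 15431776) (l 15652912)) (l 15581680)) (a (c (b (l 15171520) (l 14927560)) (l 15051480)) (l 15006432))))) (b (a (c (c (a (l 1) (l 14713056)) (l 14706664)) (l 14667184)) (c (c (a (l 14794160) (b (l 14894792) (l 14840720))) (a (l 14747424) (l 14859392))) (c (a (l 14727880) (l 14644248)) (a (l 14712832) (l 14849112))))) (a (l 1) (c (l 14713080) (c (l 14678816) (l 14660944)))))), by decide +kernel⟩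

def k31_pm_022 : ∃ t, chk3 f_pm_022 t 5 3 1 = true :=
  ⟨(a (l 1) (a (l 1) (b (b (c (l 14475544) (l 247525818647)) (l 1)) (l 1)))), by decide +kernel⟩

def k32_pm_022 : ∃ t, chk3 f_pm_022 t 6 8 1 = true :=
  ⟨(b (a (c (a (a (b (l 16324648) (c (b (l 16204728) (a (l 16123416) (l 16097184))) (b (l 16197256) (l 16104688)))) (c (l 16026664) (l 16187640))) (c (b (l 16369256) (l 16147488)) (l 16166664))) (a (b (l 16355928) (a (c (l 16146576) (l 16138608)) (l 16126904))) (l 16135504))) (c (a (c (l 16152488) (l 16250552)) (l 16191032)) (a (l 16240360) (l 16240360)))) (a (c (a (b (a (c (b (a (l 16062936) (l 16016096)) (l 15981200)) (b (l 16030368) (l 15971224))) (c (b (a (l 15990448) (l 15986704)) (a (l 15910936) (l 15885864))) (b (l 15978896) (l 15889888)))) (c (a (c (l 15900464) (l 15895080)) (a (l 15825176) (b (l 15807952) (l 15750864)))) (a (l 15887008) (l 15790248)))) (b (c (c (l 15936952) (l 15931440)) (l 15923176)) (a (c (a (b (l 15783456) (l 15707144)) (l 15710920)) (a (l 15734560) (l 15718240)))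 (c (l 15729552) (l 15715856))))) (a (c (b (a (l 15991384) (l 15927032)) (l 15700848)) (a (l 15923272) (l 15677872))) (b (l 15906648) (a (l 15709632) (l 15695312))))) (c (c (a (b (l 15934200) (l 15729552)) (l 15830840)) (a (l 15818472) (l 15818472))) (c (l 15806096) (l 15793728))))), by decide +kernel⟩

def k33_pm_022 : ∃ t, chk3 f_pm_022 t 6 9 1 = true :=
  ⟨(a (c (a (b (b (c (a (c (l 15793376) (l 15787480)) (c (l 15697448) (l 15690736))) (a (l 15778632) (l 15680664))) (c (a (c (l 15690824) (l 15684424)) (l 15591192)) (a (l 15674832) (l 15576800)))) (b (c (a (l 15631392) (l 15492928)) (l 15526080)) (c (a (l 15537936) (l 15399392)) (l 15431672)))) (b (b (a (c (a (l 15624768) (l 15581352)) (l 15588272)) (c (a (b (l 15585184) (l 15512096)) (l 15535864)) (l 15530656))) (c (a (l 15499224) (b (l 15438392) (l 15386640))) (a (l 15483256) (l 15395224)))) (c (b (a (l 15400864) (l 15313256)) (l 15336240)) (b (l 15338856) (l 15244328))))) (b (a (c (b (l 15716472) (l 15611656)) (l 15650440)) (b (a (l 15565760)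 (l 15506624)) (c (l 15422120) (l 15405392)))) (a (b (l 15504256) (l 15408480)) (c (l 15273008) (l 15254928))))) (c (b (a (a (b (l 15525512) (c (b (l 15394608) (l 15317512)) (l 15340432))) (c (l 15439048) (l 15421552))) (c (l 15439048) (l 15421552))) (a (b (a (c (l 15231064) (l 15211192)) (c (a (l 15184056) (l 15170328)) (l 15159232))) (c (a (l 15136304) (l 15058416)) (l 15075544))) (b (l 15157816) (c (a (l 15010184) (l 14999136)) (l 14983288))))) (b (a (c (l 15263672) (l 15393096)) (l 15395320)) (a (a (l 15132600) (b (l 15128016) (l 15003096))) (l 14970192))))), by decide +kernel⟩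

def k34_pm_022 : ∃ t, chk3 f_pm_022 t 7 4 1 = true :=
  ⟨(b (c (a (b (c (l 16257344) (l 16250552)) (c (l 15830840) (l 15818472))) (b (l 16149088) (c (l 15830840) (l 15818472)))) (a (b (l 16240360) (l 15799912)) (b (l 16240360) (l 15799912)))) (c (a (a (b (l 15346416) (a (l 15071624) (l 15071624))) (b (l 15430304) (l 15071624))) (b (l 15430304) (l 15092592))) (a (b (l 15395320) (l 15027320)) (b (l 15395320) (l 15027320))))), by decide +kernel⟩

def k35_pm_022 : ∃ t, chk3 f_pm_022 t 6 10 1 = true :=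
  ⟨(b (a (b (c (a (c (b (a (l 15429032) (l 15332368)) (a (b (l 15396712) (l 15378288)) (l 15290160))) (b (l 15364024) (l 15321968))) (c (b (l 15195712) (l 15174416)) (l 15155136))) (a (l 15234688) (l 15126152))) (c (c (a (a (b (l 15518096) (l 15770560)) (l 15331512)) (a (l 15364496) (l 15360624))) (a (l 15329400) (l 15388024))) (a (l 15415056) (l 15364128)))) (c (c (b (a (a (l 15047792) (l 14968912)) (a (l 14895336) (l 14849888))) (a (l 15111448) (l 14921096))) (b (a (l 14985592) (l 14851512)) (a (l 15218480) (l 15067352)))) (b (a (l 14952296) (l 14814584)) (a (l 15190272) (l 15035072))))) (a (b (a (c (a (l 15928840) (l 15816136)) (l 15882120)) (c (c (l 15654712) (l 15813480)) (l 15862896))) (a (a (c (a (l 15989040) (l 16079304)) (l 16063064)) (c (l 16120176) (l 16243320))) (c (a (l 16183408) (l 16109784)) (l 16174880)))) (a (b (c (l 15544976) (l 15688736)) (c (l 15985768) (l 16101184))) (c (b (l 15457752) (l 16004064)) (l 15564064))))), by decide +kernel⟩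

def k36_pm_022 : ∃ t, chk3 f_pm_022 t 6 11 1 = true :=
  ⟨(b (a (c (b (a (a (c (b (l 15861016) (l 15662616)) (l 15773688)) (a (l 15821800) (l 15940472))) (c (l 15901248) (l 15979176))) (a (a (c (b (l 15396560) (l 15038272)) (l 15329536)) (b (l 15392064) (l 15203936))) (a (b (l 15721600) (l 15495248)) (l 15776624)))) (a (b (l 15742680) (l 15381912)) (b (l 15991216) (l 15669904)))) (a (b (c (l 16136288) (l 16278792)) (c (l 15819672) (l 15990136))) (b (c (l 16358672) (l 16460712)) (c (l 16166608) (l 16260176))))) (a (c (b (c (a (a (a (l 14955320) (l 14946456)) (b (l 15104120) (l 15104848))) (a (b (l 15337296) (l 15261744)) (l 15448480))) (a (a (b (l 15038448) (l 14959608)) (l 15150304)) (l 15367248))) (a (c (l 14792640) (a (l 14858336) (l 15001952))) (a (l 14955560) (l 15286368)))) (a (b (c (l 15073640) (l 15048888)) (c (l 14681328) (l 14924448))) (l 15130208))) (c (a (b (l 15624232) (l 15327752)) (b (l 16012856) (l 15866568))) (a (l 15549840) (l 15916736))))), by decide +kernel⟩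

def k37_pm_022 : ∃ t, chk3 f_pm_022 t 7 5 1 = true :=
  ⟨(b (b (a (b (c (c (l 14818536) (l 14814176)) (l 14776184)) (c (a (c (l 14819912) (l 14985584)) (l 14990696)) (l 14948168))) (b (c (l 14826840) (l 14776184)) (c (l 14990696) (l 14944288)))) (a (c (a (b (a (l 15462320) (l 15422072)) (l 15851376)) (b (l 15412928) (l 15822848))) (a (b (l 15411136) (l 15871528)) (l 15591720))) (c (c (l 15499128) (l 15609896)) (l 15587304)))) (b (a (b (a (c (l 16227824) (l 16323584)) (c (l 16126504) (l 16217680))) (a (l 16275064) (c (l 16530976) (l 16633912)))) (b (c (l 16203696) (l 16188800)) (c (a (l 16513688) (l 16571960)) (l 16569408)))) (a (c (a (l 16148512) (l 16376544)) (a (l 16196728) (l 16452208))) (c (a (b (l 16720320) (l 16634544)) (l 16769392)) (a (l 16668752) (l 16769192)))))), by decide +kernel⟩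

def k38_pm_022 : ∃ t, chk3 f_pm_022 t 6 3 1 = true :=
  ⟨(b (a (b (c (b (a (b (l 14819776) (l 14712928)) (b (a (l 14895440) (l 15144304)) (a (l 14868448) (l 15000304)))) (l 148742096439)) (a (b (b (a (l 14722592) (l 14851872)) (l 85928188679)) (l 14514352)) (b (b (l 15070688) (a (l 14851872) (l 14981024))) (c (l 14745600) (a (l 14660784) (l 14786872)))))) (c (l 14377176) (b (l 14415584) (l 1)))) (b (c (b (a (b (l 15166168) (l 15227696)) (b (l 15707320) (l 15516496))) (a (b (l 15018136) (l 14940856)) (b (l 15375888) (l 15227696)))) (a (b (l 15276544) (a (l 14786448) (l 15070688))) (b (l 15591368) (l 15276544)))) (c (a (l 14678560) (b (b (l 15081056) (l 14940856)) (l 14772616))) (a (b (c (l 14745600) (a (l 14660784) (l 14786872))) (l 14514352)) (b (b (l 15070688) (l 14933248)) (c (l 14745600) (l 14564336))))))) (a (l 1) (a (l 1) (b (c (l 14475376) (l 14394616)) (l 1))))), by decide +kernel⟩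

def k39_pm_022 : ∃ t, chk3 f_pm_022 t 7 3 1 = true :=
  ⟨(b (b (a (c (b (l 15866128) (a (l 15590480) (l 15938152))) (a (l 15559248) (l 15994704))) (a (b (l 16414096) (l 16203752)) (b (c (l 16671272) (l 16668520)) (l 16456040)))) (a (c (b (a (l 15078800) (l 15590480)) (a (l 14870624) (b (l 15375888) (l 15227696)))) (b (a (l 15276544) (l 15591368)) (a (a (l 14933248) (l 15070688)) (l 15276544)))) (b (c (l 15970984) (l 15910824)) (a (c (l 15590480) (l 15591368)) (l 15801424))))) (a (b (c (a (l 14678560) (b (c (l 15014824) (l 15013816)) (l 14772616))) (b (a (c (l 14745600) (b (l 14786872) (l 14660784))) (b (l 15070688) (l 14786448))) (a (l 14514352) (c (l 14745600) (l 14564336))))) (c (l 14377176) (a (l 1) (l 14415584)))) (b (c (b (a (c (l 15311944) (l 15312392)) (l 15590480)) (a (c (l 15014824) (l 15013816)) (c (l 15311944) (l 15312392)))) (a (b (l 15276544) (a (l 14828392) (l 15070688))) (b (l 15591368) (l 15276544)))) (c (a (l 14678560) (b (l 14933544) (l 14772616))) (a (b (c (l 14745600) (l 14732104))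 (l 14514352)) (b (l 14821912) (l 10229424359))))))), by decide +kernel⟩

theorem s40_pm_022 : ∃ t, chk3 f_pm_022 t 3 3 1 = true := ex3_a k38_pm_022 k39_pm_022

theorem s41_pm_022 : ∃ t, chk3 f_pm_022 t 6 5 1 = true := ex3_b k35_pm_022 k36_pm_022

theorem s42_pm_022 : ∃ t, chk3 f_pm_022 t 3 5 1 = true := ex3_a s41_pm_022 k37_pm_022

theorem s43_pm_022 : ∃ t, chk3 f_pm_022 t 6 4 1 = true := ex3_b k32_pm_022 k33_pm_022

theorem s44_pm_022 : ∃ t, chk3 f_pm_022 t 3 4 1 = true := ex3_a s43_pm_022 k34_pm_022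

theorem s45_pm_022 : ∃ t, chk3 f_pm_022 t 3 2 1 = true := ex3_b s44_pm_022 s42_pm_022

theorem s46_pm_022 : ∃ t, chk3 f_pm_022 t 3 1 1 = true := ex3_b s45_pm_022 s40_pm_022

theorem s47_pm_022 : ∃ t, chk3 f_pm_022 t 11 5 1 = true := ex3_b k29_pm_022 k30_pm_022

theorem s48_pm_022 : ∃ t, chk3 f_pm_022 t 10 5 1 = true := ex3_a k27_pm_022 k28_pm_022

theorem s49_pm_022 : ∃ t, chk3 f_pm_022 t 5 5 1 = true := ex3_a s48_pm_022 s47_pm_022

theorem s50_pm_022 : ∃ t, chk3 f_pm_022 t 11 4 2 = true := ex3_b k24_pm_022 k25_pm_022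

theorem s51_pm_022 : ∃ t, chk3 f_pm_022 t 11 4 1 = true := ex3_c s50_pm_022 k26_pm_022

theorem s52_pm_022 : ∃ t, chk3 f_pm_022 t 21 4 1 = true := ex3_b k22_pm_022 k23_pm_022

theorem s53_pm_022 : ∃ t, chk3 f_pm_022 t 83 9 1 = true := ex3_b k20_pm_022 k21_pm_022

theorem s54_pm_022 : ∃ t, chk3 f_pm_022 t 83 8 1 = true := ex3_a k18_pm_022 k19_pm_022

theorem s55_pm_022 : ∃ t, chk3 f_pm_022 t 83 4 1 = true := ex3_b s54_pm_022 s53_pm_022

theorem s56_pm_022 : ∃ t, chk3 f_pm_022 t 41 4 1 = true := ex3_a k17_pm_022 s55_pm_022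

theorem s57_pm_022 : ∃ t, chk3 f_pm_022 t 20 4 1 = true := ex3_a k16_pm_022 s56_pm_022

theorem s58_pm_022 : ∃ t, chk3 f_pm_022 t 10 4 1 = true := ex3_a s57_pm_022 s52_pm_022

theorem s59_pm_022 : ∃ t, chk3 f_pm_022 t 5 4 1 = true := ex3_a s58_pm_022 s51_pm_022

theorem s60_pm_022 : ∃ t, chk3 f_pm_022 t 5 2 1 = true := ex3_b s59_pm_022 s49_pm_022

theorem s61_pm_022 : ∃ t, chk3 f_pm_022 t 5 1 1 = true := ex3_b s60_pm_022 k31_pm_022

theorem s62_pm_022 : ∃ t, chk3 f_pm_022 t 39 4 1 = true := ex3_b k12_pm_022 k13_pm_022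

theorem s63_pm_022 : ∃ t, chk3 f_pm_022 t 76 8 1 = true := ex3_c k8_pm_022 k9_pm_022

theorem s64_pm_022 : ∃ t, chk3 f_pm_022 t 76 4 1 = true := ex3_b s63_pm_022 k10_pm_022

theorem s65_pm_022 : ∃ t, chk3 f_pm_022 t 38 4 1 = true := ex3_a s64_pm_022 k11_pm_022

theorem s66_pm_022 : ∃ t, chk3 f_pm_022 t 19 4 1 = true := ex3_a s65_pm_022 s62_pm_022

theorem s67_pm_022 : ∃ t, chk3 f_pm_022 t 37 17 2 = true := ex3_a k4_pm_022 k5_pm_022

theorem s68_pm_022 : ∃ t, chk3 f_pm_022 t 37 17 1 = true := ex3_c s67_pm_022 k6_pm_022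

theorem s69_pm_022 : ∃ t, chk3 f_pm_022 t 37 16 1 = true := ex3_a k2_pm_022 k3_pm_022

theorem s70_pm_022 : ∃ t, chk3 f_pm_022 t 37 8 1 = true := ex3_b s69_pm_022 s68_pm_022

theorem s71_pm_022 : ∃ t, chk3 f_pm_022 t 18 8 1 = true := ex3_a k1_pm_022 s70_pm_022

theorem s72_pm_022 : ∃ t, chk3 f_pm_022 t 18 4 1 = true := ex3_b s71_pm_022 k7_pm_022

theorem s73_pm_022 : ∃ t, chk3 f_pm_022 t 9 4 1 = true := ex3_a s72_pm_022 s66_pm_022

theorem s74_pm_022 : ∃ t, chk3 f_pm_022 t 9 2 1 = true := ex3_b s73_pm_022 k14_pm_022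

theorem s75_pm_022 : ∃ t, chk3 f_pm_022 t 9 1 1 = true := ex3_b s74_pm_022 k15_pm_022

theorem s76_pm_022 : ∃ t, chk3 f_pm_022 t 4 1 1 = true := ex3_a k0_pm_022 s75_pm_022

theorem s77_pm_022 : ∃ t, chk3 f_pm_022 t 2 1 1 = true := ex3_a s76_pm_022 s61_pm_022

theorem s78_pm_022 : ∃ t, chk3 f_pm_022 t 1 1 1 = true := ex3_a s77_pm_022 s46_pm_022

theorem c_pm_022 : CertFX 0 536870912 1073741824 536870912 1046898278 26843546 true true false .pp 0 2 2
    ndF0q0 ndF5q2 pcF2 Cut.none Ext.none :=
  certFX2 (fam := true) (s1 := true) (s2 := false) (a := 0) (b := 2) (c := 2) (cn := .pp) (n1 := ndF0q0) (n2 := ndF5q2) (pc := pcF2) (cut := Cut.none) (xt := Ext.none) (P1 := 0) (W1 := 536870912) (P2 := 1073741824) (W2 := 536870912) (P3 := 1046898278) (W3 := 26843546)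
    rfl (fun _ => rfl) s78_pm_022

noncomputable def f_pm_023 : ℕ → ℕ → ℕ → ℕ → Bool := onCell 1610612736 536870912 1073741824 536870912 1046898278 26843546
    (rowFX 2 true true false .up 0 2 3 (qsf 0 536870912 1073741824 536870912 3) ndF0q0 ndF5q2 pcF3 Cut.none Ext.none)

def k0_pm_023 : ∃ t, chk3 f_pm_023 t 1 2 1 = true :=
  ⟨(a (b (a (a (b (c (b (l 16149088) (l 15824656)) (b (l 16198416) (l 15799912))) (c (b (l 15430304) (l 15071624)) (l 14976336))) (b (b (l 2) (c (l 15824656) (l 15799912))) (c (b (l 15430304) (l 15071624)) (l 14976336)))) (a (a (b (l 2) (c (l 15099976) (l 15207024))) (l 2)) (l 2))) (c (b (a (b (b (a (l 14826840) (l 14826840)) (a (l 14990696) (l 14990696))) (a (l 15533536) (l 15596456))) (a (b (b (l 14826840) (l 14990696)) (l 15617424)) (b (l 2) (l 15617424)))) (a (b (a (b (l 16203696) (l 16571960)) (l 16285264)) (a (l 16776672) (l 16776672))) (b (a (l 16306240) (l 16264296)) (a (l 16776672) (l 16776672))))) (b (a (b (b (l 14776184) (l 14944288)) (a (l 15587304) (l 15587304)))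 (b (b (l 14776184) (l 14944288)) (a (l 15587304) (l 15587304)))) (a (b (a (l 16317152) (l 16359096)) (l 16776656)) (b (a (l 16359096) (l 16338128)) (l 16776656)))))) (a (b (l 2) (b (l 2) (b (l 2) (c (a (l 16776680) (l 2)) (l 16776704))))) (l 2))), by decide +kernel⟩

def k1_pm_023 : ∃ t, chk3 f_pm_023 t 1 3 1 = true :=
  ⟨(b (a (a (a (a (b (b (l 16769104) (c (l 16671272) (l 16668520))) (c (l 16170056) (l 16116696))) (b (c (l 16771984) (l 16771848)) (b (c (l 16671272) (l 16668520)) (l 16393128)))) (b (c (l 16777216) (l 16777216)) (a (b (l 16769104) (c (l 16671272) (l 16668520))) (b (l 16777216) (l 16769104))))) (c (a (b (l 16777216) (l 16777216)) (l 16777216)) (b (a (l 16777216) (l 16777216)) (a (l 16777216) (l 16777216))))) (a (c (a (l 16777200) (l 16777152)) (a (l 16777200) (l 16777152))) (a (a (c (l 16776208) (l 16776184)) (l 2)) (l 2)))) (b (a (a (a (c (b (l 15929040) (a (l 15548536) (l 15938152))) (a (l 15601192) (l 15994704))) (a (c (l 16274912) (l 16221552)) (b (l 16669896) (l 16435072))))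 (a (a (b (l 16769104) (c (l 16671272) (l 16668520))) (b (l 16777216) (l 16769104))) (c (l 16777216) (l 16777216)))) (a (a (l 16777208) (l 16777152)) (a (a (c (l 16776512) (l 16776496)) (c (a (l 16765672) (l 16758584)) (l 16762144))) (a (a (c (l 16765184) (l 16763880)) (l 2)) (l 2))))) (a (b (a (a (c (a (l 15162680) (l 15590480)) (a (l 15276544) (l 15591368))) (a (l 15780456) (l 16203752))) (a (a (l 16456040) (l 16669896)) (l 16771920))) (a (a (a (c (l 14912568) (l 14800944)) (c (l 15078800) (l 15276544))) (a (c (l 15569504) (l 15591368)) (l 15927256))) (a (a (l 16203752) (l 16456040)) (a (l 16669896) (l 16769104))))) (a (a (l 16777208) (c (l 16777152) (l 16777152))) (a (a (c (l 16776664) (l 16776648)) (c (l 16767616) (l 16767368))) (a (a (c (l 16773040) (l 16772584)) (c (a (l 16776320) (l 4)) (l 385171357735))) (l 4))))))), by decide +kernel⟩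

theorem s2_pm_023 : ∃ t, chk3 f_pm_023 t 1 1 1 = true := ex3_b k0_pm_023 k1_pm_023

theorem c_pm_023 : CertFX 0 536870912 1073741824 536870912 1046898278 26843546 true true false .up 0 2 3
    ndF0q0 ndF5q2 pcF3 Cut.none Ext.none :=
  certFX2 (fam := true) (s1 := true) (s2 := false) (a := 0) (b := 2) (c := 3) (cn := .up) (n1 := ndF0q0) (n2 := ndF5q2) (pc := pcF3) (cut := Cut.none) (xt := Ext.none) (P1 := 0) (W1 := 536870912) (P2 := 1073741824) (W2 := 536870912) (P3 := 1046898278) (W3 := 26843546)
    rfl (fun _ => rfl) s2_pm_023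

noncomputable def f_pm_033 : ℕ → ℕ → ℕ → ℕ → Bool := onCell 1610612736 536870912 0 1230186008 1046898278 26843546
    (rowFX 2 true true false .pnn 0 3 3 (qsf 0 536870912 0 1230186008 3) ndF0q0 ndF5q3 pcF3 Cut.none Ext.none)

def k0_pm_033 : ∃ t, chk3 f_pm_033 t 2 1 1 = true :=
  ⟨(b (l 1) (b (a (l 1) (a (l 1) (a (l 1) (b (l 1) (c (l 14483200) (b (l 1) (a (l 1) (l 14613640)))))))) (a (b (l 1) (b (a (l 1) (c (b (l 14630824) (a (l 14723672) (l 14959472))) (b (a (l 1) (c (l 14695280) (l 14679040))) (a (c (l 14694208) (l 14615032)) (b (l 14869552) (l 15014840)))))) (a (c (b (l 14640472) (a (l 14759640) (b (l 14915424) (l 15070952)))) (b (a (l 1) (c (l 14705952) (l 14585488))) (a (b (l 14650224) (l 14745688)) (b (l 14694768) (l 15061448))))) (c (b (a (l 14846808) (l 15205688)) (a (l 15211704) (l 15622248))) (b (a (b (l 14836968) (l 15032224)) (l 15248544)) (a (l 15285048) (l 15569352))))))) (b (a (b (c (l 14420464) (l 14233992)) (c (a (l 14654280) (b (l 14760544) (l 14975496))) (a (b (l 1) (c (l 14708408)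 (l 14692864))) (b (c (l 14733288) (l 14719152)) (c (l 14967272) (l 14957520)))))) (b (a (c (l 14720824) (b (l 14580464) (c (l 14770152) (l 14758144)))) (c (b (l 14840568) (l 15004496)) (b (a (l 14744248) (l 14876704)) (l 14852408)))) (c (a (b (l 15003952) (l 15262248)) (b (l 15295792) (l 15546768))) (a (b (l 14745888) (l 15231504)) (l 15368432))))) (b (a (c (b (a (l 14960624) (l 15201880)) (a (l 15231816) (l 15572464))) (b (a (c (l 14950944) (l 14942008)) (l 15223448)) (a (l 15231808) (l 15520392)))) (c (b (a (l 15528816) (l 15875152)) (l 15992424)) (a (l 15431584) (l 15912112)))) (a (a (b (b (l 15384440) (l 15639864)) (l 15905512)) (b (l 15874128) (l 16185528))) (b (a (l 16157968) (l 16413352)) (a (l 16418080) (l 16655352))))))))), by decide +kernel⟩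

def k1_pm_033 : ∃ t, chk3 f_pm_033 t 3 2 1 = true :=
  ⟨(a (l 1) (l 4)), by decide +kernel⟩

def k2_pm_033 : ∃ t, chk3 f_pm_033 t 3 6 1 = true :=
  ⟨(a (a (b (l 1) (c (b (a (l 14543696) (l 14745184)) (a (b (l 14733304) (l 14898120)) (b (l 14907264) (l 15115224)))) (b (a (l 14485696) (a (l 14644568) (b (l 14674576) (l 14833792)))) (a (b (l 14489456) (a (l 14805864) (l 14945616))) (b (a (l 14883568) (l 15019808)) (l 15153448)))))) (b (a (a (a (l 1) (b (l 1) (l 4))) (l 4)) (l 4)) (b (a (c (a (l 14909896) (b (l 14941904) (l 15123720))) (a (b (l 14795584) (l 14976176)) (c (l 15038344) (l 15017232)))) (l 4)) (a (c (a (l 15218016) (l 15362176)) (a (l 15280728) (l 15414688))) (c (a (l 15550224) (l 15771824)) (a (l 15577040) (l 15745712))))))) (l 4)), by decide +kernel⟩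

def k3_pm_033 : ∃ t, chk3 f_pm_033 t 3 7 1 = true :=
  ⟨(a (b (a (b (c (a (b (l 15082776) (l 15175536)) (b (l 15355744) (l 15658168))) (a (b (l 15091624) (l 15306288)) (l 15316704))) (a (c (l 15599704) (b (l 15577920) (l 15870888))) (c (l 15966912) (l 15885128)))) (a (b (c (l 15744856) (l 15636872)) (c (l 16314640) (a (l 16237760) (l 16366352)))) (b (c (a (l 16070784) (l 16203160)) (a (l 16052432) (l 16188248))) (c (l 16402712) (b (l 16441808) (l 16644392)))))) (a (b (a (b (l 16148104) (l 16401960)) (b (l 16299272) (l 16631432))) (b (a (l 16638752) (l 16758288)) (a (l 16763136) (l 16777192)))) (a (b (b (a (l 16584480) (l 16688056)) (a (l 16749504) (l 16776104))) (c (l 16777160) (l 16777160))) (b (c (l 16764440) (l 16764104)) (c (l 16777160) (l 16777160)))))) (a (b (a (a (b (c (l 16330152) (l 16318544)) (b (l 16529792) (l 16758048))) (b (l 4) (c (l 194581711543) (b (l 16716088) (l 16777168))))) (l 4)) (b (a (c (l 16777040) (l 16777032)) (c (a (l 16776424) (l 311620019687)) (a (l 16776400) (l 320746825191))))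 (a (c (l 16776856) (l 16776848)) (c (a (l 16773432) (l 16774288)) (a (l 16773336) (l 16774216)))))) (a (b (l 4) (a (c (c (l 265449146007) (l 296587641495)) (c (l 325578670855) (l 351885263479))) (l 4))) (l 4)))), by decide +kernel⟩

theorem s4_pm_033 : ∃ t, chk3 f_pm_033 t 3 3 1 = true := ex3_b k2_pm_033 k3_pm_033

theorem s5_pm_033 : ∃ t, chk3 f_pm_033 t 3 1 1 = true := ex3_b k1_pm_033 s4_pm_033

theorem s6_pm_033 : ∃ t, chk3 f_pm_033 t 1 1 1 = true := ex3_a k0_pm_033 s5_pm_033

theorem c_pm_033 : CertFX 0 536870912 0 1230186008 1046898278 26843546 true true false .pnn 0 3 3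
    ndF0q0 ndF5q3 pcF3 Cut.none Ext.none :=
  certFX2 (fam := true) (s1 := true) (s2 := false) (a := 0) (b := 3) (c := 3) (cn := .pnn) (n1 := ndF0q0) (n2 := ndF5q3) (pc := pcF3) (cut := Cut.none) (xt := Ext.none) (P1 := 0) (W1 := 536870912) (P2 := 0) (W2 := 1230186008) (P3 := 1046898278) (W3 := 26843546)
    rfl (fun _ => rfl) s6_pm_033

noncomputable def f_pm_101 : ℕ → ℕ → ℕ → ℕ → Bool := onCell 536870912 536870912 0 536870912 1046898278 26843546
    (rowFX 2 true true false .npn 1 0 1 (qsf 536870912 536870912 0 536870912 1) ndF0q1 ndF5q0 pcF1 Cut.none Ext.none)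

def k0_pm_101 : ∃ t, chk3 f_pm_101 t 2 1 1 = true :=
  ⟨(l 3), by decide +kernel⟩

def k1_pm_101 : ∃ t, chk3 f_pm_101 t 6 2 1 = true :=
  ⟨(l 3), by decide +kernel⟩

def k2_pm_101 : ∃ t, chk3 f_pm_101 t 14 4 1 = true :=
  ⟨(l 3), by decide +kernel⟩

def k3_pm_101 : ∃ t, chk3 f_pm_101 t 60 4 1 = true :=
  ⟨(l 3), by decide +kernel⟩

def k4_pm_101 : ∃ t, chk3 f_pm_101 t 122 4 1 = true :=
  ⟨(a (l 3) (b (a (l 3) (b (b (c (b (c (l 15145448) (b (l 14694848) (c (l 14857784) (l 130623492103)))) (c (b (b (l 15160752) (c (l 15252632) (l 15074200))) (l 15137648)) (b (c (l 126865865575) (l 14685904)) (l 110222824471)))) (b (c (b (l 14243792) (c (l 132233761543) (l 135991454183))) (b (c (b (l 13859248) (l 13938184)) (b (l 151022196919) (l 13711688))) (l 146728350423))) (c (b (l 134381263719) (l 14481464)) (l 14139520)))) (c (b (c (b (l 15097312) (c (l 15138576) (l 15007832))) (c (l 113980922103) (l 14767768))) (c (l 15096056) (l 14919872))) (c (l 14666768) (l 14436672)))) (b (l 3) (l 3)))) (l 3))), by decide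 +kernel⟩

def k5_pm_101 : ∃ t, chk3 f_pm_101 t 123 4 1 = true :=
  ⟨(b (b (b (c (b (c (a (l 15256736) (b (l 15478144) (l 15411096))) (b (l 14837384) (b (l 14863216) (c (l 14992664) (l 14768600))))) (c (b (b (l 15309240) (c (c (l 15446336) (l 15350256)) (l 15196776))) (a (l 15203520) (l 15311824))) (b (c (b (l 14996728) (l 14982568)) (l 14767184)) (c (l 14955944) (l 14765784))))) (b (c (b (l 14306192) (b (c (l 14507376) (l 14254648)) (c (l 14530200) (l 14285272)))) (b (c (b (l 13860304) (l 13939680)) (b (c (l 13648584) (l 13507336)) (l 13675504))) (c (l 14037648) (l 13816528)))) (c (b (c (l 14547432) (l 14349768)) (l 14521360)) (l 14137608)))) (b (c (c (b (l 15198848) (c (l 15234800) (l 15089864))) (c (b (l 14942984) (l 14965656)) (l 14824120))) (l 14618840)) (c (c (a (l 15135288) (l 15202472)) (l 14967616)) (l 14638104)))) (c (b (c (l 15227632) (l 15073240)) (b (l 15290480) (l 15272776))) (b (l 14803808) (l 14970240)))) (b (c (b (l 15329744) (c (l 15443456) (l 15352640))) (b (l 15104336) (l 15216120)))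 (c (b (b (a (b (l 15440256) (c (l 137067453399) (l 15422240))) (c (l 15487000) (l 15407896))) (a (l 15483608) (c (l 15508088) (l 15435856)))) (c (a (l 15561872) (l 15547936)) (l 15493704))) (b (b (l 200417612103) (l 15335344)) (l 15401640))))), by decide +kernel⟩

def k6_pm_101 : ∃ t, chk3 f_pm_101 t 31 16 2 = true :=
  ⟨(b (a (b (c (c (a (a (a (l 15753648) (l 15898704)) (l 16154392)) (l 16688656)) (a (a (l 15523752) (l 15803368)) (l 16408176))) (a (b (l 15205728) (c (l 15302760) (l 15010544))) (c (l 15967304) (b (l 15640744) (b (l 15485824) (l 15413832)))))) (c (c (b (a (a (l 15647560) (l 15856648)) (l 16266176)) (a (c (l 15687352) (l 15573856)) (l 16027080))) (a (b (b (l 15522696) (a (l 15397112) (l 15567976))) (l 15400984)) (b (b (l 16011624) (l 15901480)) (l 15758504)))) (c (a (b (b (l 15262440) (l 15223656)) (l 15169024)) (b (b (l 15682520) (l 15594856)) (l 15486688))) (b (l 15123520) (a (l 14943456) (l 15220160)))))) (b (a (c (l 16623240) (c (l 16580840) (b (l 16622480) (b (l 16378504) (l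 16127512))))) (c (l 16604360) (b (l 16610152) (l 16527856)))) (c (a (b (c (l 16606272) (b (l 16616240) (l 16547912))) (l 16435584)) (b (l 16542296) (l 16560248))) (b (a (c (l 16265888) (l 15864288)) (c (l 16559544) (l 16589896))) (a (c (l 15964152) (l 15645768)) (l 16460312)))))) (a (c (b (b (a (l 15420472) (l 15732800)) (a (c (l 15437520) (l 15271744)) (c (l 15715664) (l 15522296)))) (a (c (l 15380544) (l 15260832)) (l 15525168))) (c (b (a (l 15125736) (b (l 15391176) (l 15344576))) (l 15222264)) (a (l 14996360) (l 15175720)))) (a (c (b (b (l 16166344) (c (l 16090504) (l 15868136))) (l 15796984)) (b (c (l 15708408) (l 15482008)) (l 15470120))) (b (c (b (l 16613784) (l 16427880)) (l 16037960)) (c (l 16132392) (l 15768944)))))), by decide +kernel⟩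

def k7_pm_101 : ∃ t, chk3 f_pm_101 t 31 16 3 = true :=
  ⟨(b (a (b (c (b (c (l 14879888) (l 14469016)) (c (b (l 14866856) (l 14853992)) (b (l 14503512) (l 14516024)))) (b (c (b (l 14005688) (l 14078424)) (b (c (l 13673912) (l 13452640)) (l 13681208))) (c (l 14174088) (l 13850184)))) (c (b (c (l 14831280) (l 14557464)) (l 14733808)) (l 14233904))) (b (c (a (b (c (l 16189680) (l 15408176)) (c (a (l 15497328) (l 15947872)) (b (l 15203808) (l 15122992)))) (a (b (l 16531688) (c (l 16576968) (l 15888440))) (b (l 16580288) (c (l 16558640) (l 16533360))))) (a (b (c (l 14793808) (b (l 13741184) (l 13895960))) (l 14359552)) (b (c (a (b (l 15797136) (l 15400248)) (b (l 16579200) (l 16553936))) (b (a (l 14193664) (c (l 16278952) (b (l 14960904) (l 14685912)))) (a (l 14304920) (l 14921904)))) (c (a (l 15175752) (l 15639632)) (l 14532416))))) (c (a (c (b (l 15458576) (l 15337168)) (l 15050104)) (c (b (l 16263616) (l 15917024)) (l 15414824))) (a (l 14546208) (a (l 14881424) (l 15220784)))))) (a (c (b (l 14810016)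 (l 14898192)) (l 14538344)) (a (c (b (l 15158624) (l 15163080)) (l 14784744)) (c (a (l 15387064) (l 15577168)) (a (l 15006008) (l 15200328)))))), by decide +kernel⟩

def k8_pm_101 : ∃ t, chk3 f_pm_101 t 31 17 1 = true :=
  ⟨(a (c (b (c (a (l 15407904) (l 15449488)) (a (l 15153192) (b (l 15253808) (l 15268384)))) (c (a (b (l 15357280) (l 15380632)) (l 15580096)) (a (l 15232736) (l 15293944)))) (b (c (l 15000000) (l 14783088)) (l 15030376))) (a (c (b (c (l 15616712) (l 15402184)) (c (l 15529432) (l 15379976))) (c (b (l 15187752) (l 15226888)) (l 15020368))) (c (b (c (l 15824048) (l 15598008)) (l 15729256)) (c (b (l 15382640) (l 15355304)) (b (l 15163880) (l 15204632)))))), by decide +kernel⟩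

def k9_pm_101 : ∃ t, chk3 f_pm_101 t 31 9 1 = true :=
  ⟨(b (a (c (c (a (b (l 15409352) (l 15449240)) (b (l 15443440) (l 15462256))) (a (l 15374712) (b (l 15334824) (l 15379832)))) (b (l 15140512) (l 15232680))) (c (b (a (l 15445608) (l 15531424)) (a (l 15454040) (l 15513072))) (a (c (l 15299520) (l 15196216)) (c (l 15366520) (l 15268736))))) (a (c (b (a (c (b (a (l 15482984) (l 15481496)) (a (c (l 15513240) (l 15483984)) (l 15489144))) (b (l 15410752) (l 15428232))) (c (b (l 15482888) (l 15485800)) (b (l 15414960) (l 15424144)))) (a (c (a (l 15529336) (c (l 15523752) (l 15501616))) (l 15466088)) (c (b (a (l 15487416) (l 15481704)) (l 15498344)) (b (l 15429016) (l 15447912))))) (b (a (b (l 15288992) (l 15315912)) (l 15309672)) (a (l 15368488) (l 15347120)))) (c (a (b (c (l 15502240) (l 15431816)) (c (l 15490256) (l 15429392))) (b (l 15507880) (l 15484760))) (a (c (b (l 15364352) (l 15371520)) (l 15300400)) (c (l 15393048) (l 15328112)))))), by decide +kernel⟩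

def k10_pm_101 : ∃ t, chk3 f_pm_101 t 7 5 1 = true :=
  ⟨(a (l 3) (a (a (l 3) (a (l 3) (b (c (b (c (b (a (l 105392201127) (l 15608168)) (a (l 86064983415) (l 15673216))) (b (l 15566840) (l 15642808))) (c (a (b (l 15759024) (l 3)) (b (l 15738880) (l 15806440))) (l 15755344))) (b (b (l 15492184) (l 15582992)) (l 15713456))) (b (c (b (b (l 79085966823) (l 15896824)) (l 78012263943)) (l 15884000)) (c (l 49021491863) (l 15973936)))))) (b (b (a (c (c (a (c (b (l 15586832) (a (l 15659632) (l 15634544))) (a (l 15613792) (l 15591824))) (c (l 15573776) (l 15557648))) (a (l 15571720) (l 15532400))) (c (l 15507864) (l 15460104))) (c (c (b (a (l 15510776) (l 15509504)) (l 15559544)) (a (l 15494576) (l 15457600))) (a (c (l 15454496) (l 15407816)) (c (l 15428904) (b (l 15341856) (l 15419088)))))) (c (a (c (a (c (b (l 15708592) (l 15773040)) (l 15692448)) (c (l 15693224) (l 15686768))) (a (l 15718608) (l 15675952))) (a (c (l 15657088) (l 15634104)) (l 15623672))) (a (c (l 15671456) (l 15641960)) (c (a (l 15614232)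 (l 15578264)) (l 15467728))))) (c (a (b (c (a (c (b (l 15839784) (l 15907976)) (l 15874224)) (c (l 15824048) (l 15824416))) (a (l 15868152) (l 15823800))) (c (a (l 15947832) (l 15898336)) (l 15924608))) (b (c (a (l 15789208) (l 15770000)) (l 15704672)) (c (l 15852608) (l 15845712)))) (a (b (l 15826920) (l 15915000)) (b (c (a (l 15774280) (l 15737080)) (l 15746184)) (c (l 15840848) (l 15836192)))))))), by decide +kernel⟩

def k11_pm_101 : ∃ t, chk3 f_pm_101 t 3 3 1 = true :=
  ⟨(a (l 3) (a (l 3) (a (a (l 3) (b (b (c (b (l 16023456) (l 16023368)) (l 16007352)) (l 3)) (l 3))) (b (c (a (b (c (b (l 15920920) (l 15918624)) (l 15921528)) (c (l 15915896) (l 15917736))) (b (c (l 15847952) (l 15841184)) (l 15840248))) (a (b (l 15912024) (l 15908344)) (b (c (l 15836528) (l 15832080)) (c (l 15830832) (l 15826648))))) (c (a (b (c (l 15912560) (l 15914632)) (c (l 15909920) (l 15912168))) (b (l 15834688) (l 15808496))) (a (b (c (l 15908784) (l 15897728)) (c (l 15906376) (l 186325881063))) (b (c (l 15825520)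 (l 15821576)) (c (l 130491031495) (a (l 15832888) (l 15793736)))))))))), by decide +kernel⟩

theorem s12_pm_101 : ∃ t, chk3 f_pm_101 t 31 16 1 = true := ex3_c k6_pm_101 k7_pm_101

theorem s13_pm_101 : ∃ t, chk3 f_pm_101 t 31 8 1 = true := ex3_b s12_pm_101 k8_pm_101

theorem s14_pm_101 : ∃ t, chk3 f_pm_101 t 31 4 1 = true := ex3_b s13_pm_101 k9_pm_101

theorem s15_pm_101 : ∃ t, chk3 f_pm_101 t 61 4 1 = true := ex3_a k4_pm_101 k5_pm_101

theorem s16_pm_101 : ∃ t, chk3 f_pm_101 t 30 4 1 = true := ex3_a k3_pm_101 s15_pm_101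

theorem s17_pm_101 : ∃ t, chk3 f_pm_101 t 15 4 1 = true := ex3_a s16_pm_101 s14_pm_101

theorem s18_pm_101 : ∃ t, chk3 f_pm_101 t 7 4 1 = true := ex3_a k2_pm_101 s17_pm_101

theorem s19_pm_101 : ∃ t, chk3 f_pm_101 t 7 2 1 = true := ex3_b s18_pm_101 k10_pm_101

theorem s20_pm_101 : ∃ t, chk3 f_pm_101 t 3 2 1 = true := ex3_a k1_pm_101 s19_pm_101

theorem s21_pm_101 : ∃ t, chk3 f_pm_101 t 3 1 1 = true := ex3_b s20_pm_101 k11_pm_101

theorem s22_pm_101 : ∃ t, chk3 f_pm_101 t 1 1 1 = true := ex3_a k0_pm_101 s21_pm_101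

theorem c_pm_101 : CertFX 536870912 536870912 0 536870912 1046898278 26843546 true true false .npn 1 0 1
    ndF0q1 ndF5q0 pcF1 Cut.none Ext.none :=
  certFX2 (fam := true) (s1 := true) (s2 := false) (a := 1) (b := 0) (c := 1) (cn := .npn) (n1 := ndF0q1) (n2 := ndF5q0) (pc := pcF1) (cut := Cut.none) (xt := Ext.none) (P1 := 536870912) (W1 := 536870912) (P2 := 0) (W2 := 536870912) (P3 := 1046898278) (W3 := 26843546)
    rfl (fun _ => rfl) s22_pm_101

noncomputable def f_pm_102 : ℕ → ℕ → ℕ → ℕ → Bool := onCell 536870912 536870912 1073741824 536870912 1046898278 26843546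
    (rowFX 1 true true false .npp 1 0 2 (qsf 536870912 536870912 0 536870912 2) ndF0q1 ndF5q0 pcF2 Cut.none Ext.none)

def k0_pm_102 : ∃ t, chk3 f_pm_102 t 2 4 1 = true :=
  ⟨(b (c (b (a (b (c (a (b (l 16013016) (l 15880560)) (b (l 16031760) (c (l 16070880) (l 16064104)))) (a (b (c (l 16000800) (l 15998152)) (l 16025880)) (l 16035656))) (c (a (c (l 16049928) (l 16032352)) (c (l 16057296) (l 16042856))) (l 16011472))) (b (a (c (b (l 15953640) (l 16087896)) (l 16060808)) (c (b (l 16096256) (l 16109488)) (b (l 16086832) (l 16089952)))) (a (l 16001464) (c (l 16069560) (l 16041432))))) (a (c (a (b (l 15992512) (l 15923608)) (b (l 15984144) (l 15900792))) (b (l 15957304) (l 15895208))) (c (a (b (l 15978264) (l 15876168)) (b (l 15971848) (l 15786296))) (b (a (l 15951704) (l 15947552)) (a (l 15859704) (l 15833256)))))) (a (b (b (a (c (l 15987944) (c (l 15969632) (l 15957960))) (c (l 16012712) (l 15989424))) (a (c (l 15974432) (l 15956704)) (l 15896024))) (a (c (l 15921104) (l 15910200)) (c (l 15908760)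 (l 15897696)))) (b (b (a (c (l 16039216) (l 16017304)) (c (l 16067880) (l 16047456))) (a (l 15993968) (l 16009256))) (a (b (l 15930248) (l 15841944)) (b (l 15926816) (l 15814984)))))) (a (a (b (b (c (l 15818976) (l 15794088)) (l 2)) (l 2)) (b (c (c (l 15712688) (l 15698776)) (c (l 15684856) (l 15670944))) (c (c (b (l 15476240) (l 15294104)) (l 15368104)) (c (l 15349920) (l 15331744))))) (b (c (a (c (l 15659888) (l 15645280)) (b (l 15664248) (l 15372456))) (a (c (l 15630672) (l 15616072)) (b (l 15656856) (l 15465072)))) (a (c (c (b (l 15395112) (l 15197232)) (l 15278144)) (b (l 15349944) (l 15145600))) (c (b (c (l 15306080) (l 15286848)) (c (l 15088096) (l 15066288))) (b (l 15258000) (l 15031800))))))), by decide +kernel⟩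

def k1_pm_102 : ∃ t, chk3 f_pm_102 t 6 16 1 = true :=
  ⟨(a (c (b (a (c (b (l 16120808) (l 16127056)) (b (l 16111736) (l 16108680))) (b (c (a (l 16107824) (l 16054664)) (l 16004232)) (c (a (b (l 16132376) (l 16130112)) (l 16071648)) (a (l 16111192) (l 16070976))))) (a (c (l 16056904) (l 16051872)) (c (b (a (l 16105960) (l 16088832)) (a (l 16057376) (l 16053616))) (a (l 16057352) (l 16044608))))) (b (a (c (l 16049328) (l 16072056)) (c (b (l 16050200) (l 16063152)) (b (l 16028288) (l 16039208)))) (c (a (l 16028216) (l 15982872)) (l 16010384)))) (c (b (a (c (b (c (l 15981024) (l 15968000)) (b (l 16012248) (l 16022744))) (b (l 15948040) (l 15987040))) (b (c (a (l 15904960) (l 15883864)) (a (l 15864712) (l 15833800))) (c (a (l 15932880) (b (l 15930416) (l 15946352))) (a (l 15912272) (l 15889480))))) (a (c (b (l 16021160) (l 16000064)) (l 15980824)) (c (a (b (l 15962608) (l 15945408)) (b (l 15952104) (l 15938344))) (a (l 15915904) (l 15902248))))) (b (c (a (b (l 15918248) (l 15951328)) (b (a (l 15821320)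 (l 15780728)) (l 15849920))) (a (b (l 15883800) (l 15917360)) (b (a (l 15773528) (l 15723424)) (l 15801448)))) (a (c (l 15951464) (l 15929664)) (c (a (l 15877744) (l 15858928)) (l 15833432)))))), by decide +kernel⟩

def k2_pm_102 : ∃ t, chk3 f_pm_102 t 6 17 1 = true :=
  ⟨(a (c (b (c (a (l 15966568) (c (l 15968832) (l 15956624))) (a (l 15944128) (l 15941632))) (c (b (c (l 15861952) (l 15851392)) (c (l 15781744) (l 15773904))) (l 15803784))) (b (c (l 15928368) (l 15917552)) (l 15784944))) (c (b (a (c (a (b (l 15979016) (l 15917496)) (l 15917184)) (b (l 15933168) (l 15880816))) (c (a (l 15884696) (c (l 15889000) (l 15871368))) (a (l 15855216) (l 15847112)))) (a (c (b (a (l 15840624) (l 15821888)) (c (a (l 15756576) (l 15742960)) (l 15741624))) (l 15646528)) (c (b (a (l 15791016) (l 15786272)) (c (a (l 15717040) (l 15711360)) (l 15702944))) (l 15581928)))) (b (a (c (l 15890216) (l 15875928)) (c (l 15823728) (l 15799752))) (a (c (l 15758648) (l 15744936)) (c (l 15708840) (l 15688960)))))), by decide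 +kernel⟩

def k3_pm_102 : ∃ t, chk3 f_pm_102 t 6 9 1 = true :=
  ⟨(b (a (c (a (b (l 15645248) (l 15441696)) (c (b (l 15624000) (l 15409808)) (l 15398264))) (b (l 15601280) (l 15386392))) (c (b (a (c (c (l 15597176) (l 15589432)) (l 15577824)) (a (b (l 15609368) (l 15500936)) (c (b (l 15610304) (l 15505608)) (l 15538152)))) (a (c (b (l 15423120) (l 15315088)) (l 15350680)) (c (b (a (l 15399784) (l 15371800)) (l 15316352)) (a (l 15337016) (l 15333216))))) (a (b (l 15554600) (l 15323296)) (b (a (l 15521456) (l 15509776)) (b (l 15343176) (l 15270064)))))) (a (c (c (b (a (l 15232800) (b (l 15238456) (l 15137464))) (a (l 15019512) (l 15011704))) (b (a (l 15212592) (l 15169080)) (l 14916120))) (b (a (l 15182528) (l 15138344)) (a (l 14962448) (l 14955072)))) (b (a (b (c (a (l 15208480) (l 15207104)) (l 15170288)) (l 15101168)) (c (l 15181672) (l 15141832))) (c (l 15014032) (l 14968928))))), by decide +kernel⟩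

def k4_pm_102 : ∃ t, chk3 f_pm_102 t 14 8 1 = true :=
  ⟨(b (b (c (a (b (c (a (l 15924272) (l 15975528)) (a (l 15869856) (l 15916208))) (c (b (l 16005416) (l 16026864)) (l 15964880))) (b (c (a (l 16023928) (l 16087088)) (a (l 15954568) (l 16001080))) (c (a (l 16033272) (l 16195776)) (a (l 16062440) (l 16134944))))) (a (b (c (b (l 15806080) (l 15859560)) (b (l 15742272) (l 15797112))) (c (l 15908976) (l 15854408))) (b (c (a (l 15882608) (l 15912680)) (b (l 15761336) (l 15860864))) (c (l 16033368) (l 15972816))))) (c (a (c (b (l 16040120) (l 16033792)) (l 15891200)) (a (b (c (l 16157912) (l 16113768)) (l 16142552)) (b (l 16104632) (l 16248360)))) (a (c (l 15912192) (l 15917856)) (c (a (l 16085152) (l 16192744)) (l 16102104))))) (b (c (a (c (b (l 16003560) (l 15953488)) (b (l 15970760) (l 15928320))) (c (a (l 16109200) (l 16206984)) (b (l 16162600) (l 16119536)))) (a (l 15874176) (b (l 16140136) (l 16110944)))) (c (a (a (c (b (l 15848656) (l 15765912)) (l 15789976)) (c (b (l 15924072) (l 15835152))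 (l 15863408))) (c (b (a (l 16007296) (l 16025408)) (c (a (l 15918184) (l 15892880)) (l 15910648))) (b (l 16038968) (l 15907072)))) (a (b (l 15840400) (l 15763168)) (b (l 16036944) (l 15899880)))))), by decide +kernel⟩

def k5_pm_102 : ∃ t, chk3 f_pm_102 t 30 8 1 = true :=
  ⟨(b (b (c (b (a (c (l 16069384) (l 16091648)) (c (a (l 16320552) (l 16441968)) (b (l 16185520) (l 16294672)))) (a (c (l 16315680) (l 16251800)) (c (a (l 16442464) (l 16545128)) (l 16430928)))) (b (c (a (l 15983296) (l 15947232)) (a (l 15871672) (b (l 15860472) (l 16069672)))) (c (a (l 16183752) (l 16369184)) (a (l 16116488) (l 16306928))))) (c (c (a (l 16330904) (b (a (l 16510104) (l 16598576)) (l 16445472))) (a (l 16368528) (l 16377760))) (b (a (l 16290248) (l 16410688)) (a (l 16362024) (l 16416776))))) (b (c (a (c (l 16012496) (b (l 16274008) (l 16113080))) (c (b (l 16277864) (l 16103544)) (l 15944152))) (a (l 16119112) (l 15973960))) (a (b (c (c (l 15968264) (l 15958528)) (l 15944208)) (l 15809296)) (c (l 15834224) (l 15813208))))),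 by decide +kernel⟩

def k6_pm_102 : ∃ t, chk3 f_pm_102 t 31 32 1 = true :=
  ⟨(c (a (b (c (a (l 16569912) (b (l 16549864) (l 16618168))) (b (a (l 16384480) (l 16596232)) (l 16545728))) (c (b (l 16586968) (l 16753288)) (b (l 16640808) (l 16729184)))) (b (a (c (b (a (l 16624560) (l 16573320)) (a (l 16620528) (l 16645864))) (b (a (l 16586000) (c (l 16611736) (l 16598720))) (c (l 16617640) (l 16598728)))) (b (c (l 16500736) (a (b (l 16600696) (l 16614376)) (l 16571432))) (c (a (l 16608624) (l 16604048)) (a (c (l 16629576) (l 16622016)) (b (l 16612256) (l 16607768)))))) (a (c (b (l 16654112) (l 16697464)) (b (l 16669984) (l 16739896))) (c (b (a (l 16666064) (l 16628112)) (l 16658192)) (b (a (l 16625096) (c (l 16650888) (l 16645840))) (l 16671640)))))) (a (b (c (b (l 16137920) (l 16418448)) (b (l 15975168) (l 16289192))) (c (l 16653664) (l 16620208))) (b (c (a (b (c (l 16565944) (l 16545432)) (c (l 16635024) (l 16654328))) (b (a (c (b (l 16587608) (l 16597688)) (b (l 16578224) (l 16585248))) (b (l 16542336)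 (c (l 16588624) (l 16519784)))) (a (c (l 16611120) (l 16621688)) (b (c (l 16602176) (l 16600384)) (c (l 16616704) (l 16612896)))))) (a (b (c (l 16368640) (l 16193048)) (l 16646992)) (b (c (a (b (l 16571056) (l 16593056)) (b (a (l 16570280) (l 16560032)) (a (l 16582800) (l 16579320)))) (a (l 16594024) (b (a (l 16565504) (c (l 16561040) (l 16540800))) (l 16586728)))) (c (a (l 16637856) (l 16595744)) (l 16632912))))) (c (a (l 16614592) (c (b (l 16654520) (l 16717848)) (l 16535144))) (a (l 16734840) (a (l 16666576) (l 16561576))))))), by decide +kernel⟩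

def k7_pm_102 : ∃ t, chk3 f_pm_102 t 31 33 1 = true :=
  ⟨(c (c (a (b (l 16575296) (l 16393928)) (b (a (l 16723536) (l 16591576)) (l 16436656))) (a (b (l 16606264) (l 16462472)) (a (l 16394576) (b (l 16660496) (l 16533704))))) (a (b (c (l 16611312) (l 16608616)) (l 16433728)) (b (c (a (l 16647512) (l 16595384)) (a (l 16646640) (l 16669352))) (c (a (l 16481488) (l 16480880)) (l 16412504))))), by decide +kernel⟩

def k8_pm_102 : ∃ t, chk3 f_pm_102 t 31 17 1 = true :=
  ⟨(b (c (a (c (b (l 16223512) (l 16100672)) (b (l 16282056) (l 16101816))) (b (c (l 16356336) (l 16171744)) (l 16098008))) (a (b (l 16279656) (l 16096328)) (b (a (l 16301760) (l 16211096)) (l 16121504)))) (a (c (l 15834944) (l 15824120)) (c (a (l 15840264) (l 15867352)) (a (l 15834944) (l 15846600))))), by decide +kernel⟩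

def k9_pm_102 : ∃ t, chk3 f_pm_102 t 7 9 1 = true :=
  ⟨(a (a (a (b (b (c (c (b (l 15666944) (l 15575320)) (l 15608608)) (l 15586856)) (l 15430528)) (c (l 15196344) (l 15174928))) (b (b (b (c (l 15741136) (l 15724160)) (l 15650064)) (l 15530440)) (l 15254912))) (b (b (a (l 15736840) (l 15683464)) (l 15473872)) (l 15075248))) (a (b (a (l 15273960) (c (l 15264912) (l 15379456))) (c (l 14951768) (l 14933384))) (b (a (c (b (l 15511528) (l 15231560)) (l 15348336)) (c (b (l 15518288) (l 15208960)) (b (l 15503376) (l 15184736)))) (a (l 14626816) (c (l 14803768) (l 14557680)))))), by decide +kernel⟩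

def k10_pm_102 : ∃ t, chk3 f_pm_102 t 1 5 1 = true :=
  ⟨(a (a (a (l 2) (b (b (b (c (c (l 15109432) (l 15087632)) (l 15054928)) (l 2)) (l 2)) (l 2))) (a (b (b (b (c (c (l 14996592) (l 14973320)) (l 14938400)) (c (b (l 14983624) (c (l 15165256) (l 15144360))) (b (l 14937040) (l 15111888)))) (c (b (c (l 15448712) (l 15431304)) (c (l 15834280) (l 15821880))) (b (l 15405544) (l 15803784)))) (a (l 2) (b (l 16326248) (l 2)))) (b (b (b (c (a (l 14886920) (c (l 14859880) (l 14834736))) (l 14822744)) (a (c (b (l 14902632) (l 15107040)) (l 14751864)) (b (c (l 14892488) (l 14842904)) (l 15086048)))) (b (c (a (l 15422136) (l 15425800)) (l 15391800)) (l 15816144))) (b (l 16287608) (l 16776680))))) (a (b (b (b (a (a (c (b (l 14876464) (l 14800144)) (l 14790992)) (l 14820416)) (c (l 14866912) (l 14817952))) (a (l 14989760) (l 14806680))) (a (l 15458344) (a (l 15636984) (l 15656368)))) (b (a (l 16376360) (l 16199096)) (a (l 16776688) (l 16770448)))) (b (a (b (b (a (l 15008448) (l 14842768)) (a (l 15182520) (l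 14948872))) (a (l 15746296) (l 15349352))) (b (b (a (c (l 14669976) (l 14601168)) (a (l 14386720) (c (l 14452440) (l 14404896)))) (a (c (l 14739432) (l 14670936)) (a (l 14564992) (c (l 14526072) (l 14479976))))) (a (a (l 15223096) (c (l 15106320) (l 15062712))) (c (a (l 15031432) (l 14980600)) (a (l 14995328) (l 14758720)))))) (a (b (a (l 16260352) (l 16046216)) (a (l 16591528) (l 16359584))) (b (a (a (l 15853128) (l 15608832)) (a (c (l 15594320) (l 15575032)) (c (l 15522352) (b (l 15365240) (l 15634944))))) (a (c (l 16113072) (l 16080936)) (c (l 15858144) (c (l 15854784) (l 15743640))))))))), by decide +kernel⟩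

def k11_pm_102 : ∃ t, chk3 f_pm_102 t 1 3 1 = true :=
  ⟨(a (b (a (l 2) (c (l 16777216) (l 16777216))) (l 2)) (a (b (a (l 16777216) (a (l 16777216) (l 16722576))) (l 16794800)) (b (a (b (l 16348952) (l 16411872)) (a (b (l 15911992) (l 16079760)) (b (c (l 15858544) (l 15770880)) (c (l 15858544) (l 15854768))))) (a (b (l 16474784) (l 16474784)) (b (a (l 16079760) (l 15734488)) (a (l 16079760) (l 15860320))))))), by decide +kernel⟩

theorem s12_pm_102 : ∃ t, chk3 f_pm_102 t 31 16 1 = true := ex3_b k6_pm_102 k7_pm_102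

theorem s13_pm_102 : ∃ t, chk3 f_pm_102 t 31 8 1 = true := ex3_b s12_pm_102 k8_pm_102

theorem s14_pm_102 : ∃ t, chk3 f_pm_102 t 15 8 1 = true := ex3_a k5_pm_102 s13_pm_102

theorem s15_pm_102 : ∃ t, chk3 f_pm_102 t 7 8 1 = true := ex3_a k4_pm_102 s14_pm_102

theorem s16_pm_102 : ∃ t, chk3 f_pm_102 t 7 4 1 = true := ex3_b s15_pm_102 k9_pm_102

theorem s17_pm_102 : ∃ t, chk3 f_pm_102 t 6 8 1 = true := ex3_b k1_pm_102 k2_pm_102

theorem s18_pm_102 : ∃ t, chk3 f_pm_102 t 6 4 1 = true := ex3_b s17_pm_102 k3_pm_102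

theorem s19_pm_102 : ∃ t, chk3 f_pm_102 t 3 4 1 = true := ex3_a s18_pm_102 s16_pm_102

theorem s20_pm_102 : ∃ t, chk3 f_pm_102 t 1 4 1 = true := ex3_a k0_pm_102 s19_pm_102

theorem s21_pm_102 : ∃ t, chk3 f_pm_102 t 1 2 1 = true := ex3_b s20_pm_102 k10_pm_102

theorem s22_pm_102 : ∃ t, chk3 f_pm_102 t 1 1 1 = true := ex3_b s21_pm_102 k11_pm_102

theorem c_pm_102 : CertFX 536870912 536870912 0 536870912 1046898278 26843546 true true false .npp 1 0 2
    ndF0q1 ndF5q0 pcF2 Cut.none Ext.none :=
  certFX1 (fam := true) (s1 := true) (s2 := false) (a := 1) (b := 0) (c := 2) (cn := .npp) (n1 := ndF0q1) (n2 := ndF5q0) (pc := pcF2) (cut := Cut.none) (xt := Ext.none) (P1 := 536870912) (W1 := 536870912) (P2 := 0) (W2 := 536870912) (P3 := 1046898278) (W3 := 26843546)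
    rfl (fun _ => rfl) s22_pm_102

noncomputable def f_pm_112 : ℕ → ℕ → ℕ → ℕ → Bool := onCell 536870912 536870912 1073741824 536870912 1046898278 26843546
    (rowFX 1 true true false .dn 1 1 2 (qsf 536870912 536870912 536870912 469762048 2) ndF0q1 ndF5q1 pcF2 Cut.none Ext.none)

def k0_pm_112 : ∃ t, chk3 f_pm_112 t 8 1 1 = true :=
  ⟨(b (b (b (b (b (a (c (c (b (l 16008416) (l 16045360)) (b (l 15925800) (l 16021144))) (c (l 15982136) (l 15957256))) (l 1)) (c (c (c (l 16049928) (l 16032352)) (l 16006160)) (c (l 15974432) (l 15956704)))) (c (c (b (l 15992512) (l 15923608)) (l 15938504)) (c (l 15921104) (l 15910200)))) (c (b (c (l 15761560) (l 15748280)) (c (l 15468456) (l 15451344))) (b (l 15707400) (c (l 15434240) (l 15417128))))) (b (b (b (c (l 15203656) (l 15162784)) (c (b (l 15188848) (l 15322328)) (b (l 15147592) (l 15284536)))) (c (c (l 15751856) (l 15738456)) (l 15634464))) (b (c (b (l 16250280) (l 16584656)) (b (l 16236592) (l 16579656))) (c (l 16813392) (l 16776672))))) (b (b (c (b (l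 16777184) (l 16756424)) (l 16761560)) (a (b (l 16647896) (a (l 16349832) (l 16536064))) (l 16692704))) (b (a (b (c (l 15959592) (l 15898840)) (c (l 15472024) (l 15252672))) (b (a (l 16349832) (l 16536064)) (a (l 15890576) (l 16173384)))) (a (b (c (l 14798040) (l 14841104)) (a (l 2) (c (l 14423216) (l 14398504)))) (b (c (l 15472024) (l 15315584)) (c (l 14860960) (l 14862072))))))), by decide +kernel⟩

def k1_pm_112 : ∃ t, chk3 f_pm_112 t 9 1 1 = true :=
  ⟨(b (b (b (a (b (l 1) (c (c (l 15949560) (l 15928792)) (l 15738520))) (l 1)) (b (c (c (l 15712688) (l 15698776)) (c (l 15684856) (l 15670944))) (c (c (b (l 15476240) (l 15294104)) (l 15368104)) (c (l 15349920) (l 15331744))))) (b (b (b (c (c (l 15109432) (l 15087632)) (l 15054928)) (c (b (l 15090184) (l 15242584)) (b (l 15046368) (l 15202720)))) (c (c (l 15630280) (l 15679024)) (l 15532080))) (b (c (b (l 16218600) (l 16574984)) (b (l 16204064) (l 16569696))) (c (a (l 16776696) (l 16776680)) (l 16776664))))) (b (b (l 16777216) (l 16656904)) (b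 (a (b (l 16647896) (a (l 16370800) (l 16536064))) (l 16692704)) (a (b (a (l 15890576) (l 16173384)) (c (l 15472024) (l 15357528))) (b (l 16449168) (l 15782440)))))), by decide +kernel⟩

def k2_pm_112 : ∃ t, chk3 f_pm_112 t 5 1 1 = true :=
  ⟨(a (b (b (b (l 1) (b (l 1) (b (l 1) (c (l 14977192) (l 15145600))))) (b (b (b (c (c (l 14996592) (l 14973320)) (l 14938400)) (c (b (l 14983624) (c (l 15165256) (l 15144360))) (b (l 14937040) (l 15111888)))) (c (b (c (l 15448712) (l 15431304)) (c (l 15834280) (l 15821880))) (b (l 15405544) (l 15803784)))) (b (b (c (l 16146760) (l 16194664)) (l 16571352)) (l 16776672)))) (b (l 16777216) (b (l 16761760) (a (l 16435024) (l 16692704))))) (b (b (l 1) (b (b (l 1) (b (l 1) (l 15816144))) (b (l 16266640) (l 16776680)))) (b (l 16777216) (l 16767376)))), by decide +kernel⟩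

def k3_pm_112 : ∃ t, chk3 f_pm_112 t 3 1 1 = true :=
  ⟨(b (b (l 1) (a (b (l 1) (b (l 1) (a (l 16776688) (l 1)))) (l 1))) (a (b (a (l 16777216) (l 293701765223)) (l 16773832)) (b (a (b (l 1) (l 16244096)) (l 1)) (a (b (l 16474784) (l 16474784)) (b (a (l 16079760) (l 1)) (a (l 16079760) (l 15860320))))))), by decide +kernel⟩

theorem s4_pm_112 : ∃ t, chk3 f_pm_112 t 4 1 1 = true := ex3_a k0_pm_112 k1_pm_112

theorem s5_pm_112 : ∃ t, chk3 f_pm_112 t 2 1 1 = true := ex3_a s4_pm_112 k2_pm_112

theorem s6_pm_112 : ∃ t, chk3 f_pm_112 t 1 1 1 = true := ex3_a s5_pm_112 k3_pm_112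

theorem c_pm_112 : CertFX 536870912 536870912 536870912 469762048 1046898278 26843546 true true false .dn 1 1 2
    ndF0q1 ndF5q1 pcF2 Cut.none Ext.none :=
  certFX1 (fam := true) (s1 := true) (s2 := false) (a := 1) (b := 1) (c := 2) (cn := .dn) (n1 := ndF0q1) (n2 := ndF5q1) (pc := pcF2) (cut := Cut.none) (xt := Ext.none) (P1 := 536870912) (W1 := 536870912) (P2 := 536870912) (W2 := 469762048) (P3 := 1046898278) (W3 := 26843546)
    rfl (fun _ => rfl) s6_pm_112

noncomputable def f_pm_113 : ℕ → ℕ → ℕ → ℕ → Bool := onCell 1610612736 536870912 536870912 469762048 1046898278 26843546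
    (rowFX 2 true true false .nn 1 1 3 (qsf 536870912 536870912 536870912 469762048 3) ndF0q1 ndF5q1 pcF3 Cut.none Ext.none)

def k0_pm_113 : ∃ t, chk3 f_pm_113 t 1 1 1 = true :=
  ⟨(b (a (a (b (a (b (a (b (l 15776352) (l 15941672)) (b (l 2) (l 15757032))) (a (l 16272480) (b (l 15914448) (l 16083792)))) (b (l 2) (a (b (l 15738472) (l 15888400)) (c (l 15679336) (l 15490008))))) (a (b (a (l 16637064) (l 16439312)) (l 16740624)) (b (a (l 16213960) (b (l 15863512) (l 16060696))) (a (l 16596152) (l 16376936))))) (b (l 2) (a (b (a (c (l 15743264) (l 15644784)) (a (l 15666256) (l 2))) (a (c (l 16142832) (l 16148496)) (c (l 15916248) (l 15912376)))) (b (l 2) (a (l 4) (l 4)))))) (l 2)) (a (a (b (a (b (l 16777216) (l 16694216)) (b (a (l 16772440) (l 16703112)) (a (l 16694216) (l 16694216)))) (b (a (b (l 16515152) (l 16143272)) (b (l 16515152) (l 16143272))) (b (a (l 15632304) (l 15632304)) (a (c (l 15148528) (l 15111592)) (c (l 15148528) (l 15111592)))))) (b (a (b (a (l 16529368) (c (l 16323872) (l 16302424)))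 (a (l 16680816) (l 16488728))) (b (a (c (l 16079888) (l 16086768)) (l 4)) (a (c (l 16419520) (l 16404312)) (a (l 16242128) (l 4))))) (a (b (a (b (l 16515152) (l 16143272)) (b (l 16515152) (l 16143272))) (c (b (l 15646792) (l 15148528)) (b (l 15617760) (l 15111592)))) (b (a (b (l 16477016) (l 16143272)) (c (b (l 16340360) (l 16105848)) (b (l 16314400) (l 16082128)))) (c (a (l 15399608) (l 15273488)) (a (l 15304104) (b (l 15617280) (l 15111592)))))))) (a (b (a (l 4) (l 4)) (a (a (b (l 4) (c (b (l 15590400) (l 15146264)) (b (l 15550672) (l 15108944)))) (l 4)) (l 4))) (l 4)))), by decide +kernel⟩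

theorem c_pm_113 : CertFX 536870912 536870912 536870912 469762048 1046898278 26843546 true true false .nn 1 1 3
    ndF0q1 ndF5q1 pcF3 Cut.none Ext.none :=
  certFX2 (fam := true) (s1 := true) (s2 := false) (a := 1) (b := 1) (c := 3) (cn := .nn) (n1 := ndF0q1) (n2 := ndF5q1) (pc := pcF3) (cut := Cut.none) (xt := Ext.none) (P1 := 536870912) (W1 := 536870912) (P2 := 536870912) (W2 := 469762048) (P3 := 1046898278) (W3 := 26843546)
    rfl (fun _ => rfl) k0_pm_113

noncomputable def f_pm_123 : ℕ → ℕ → ℕ → ℕ → Bool := onCell 1610612736 536870912 1073741824 536870912 1046898278 26843546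
    (rowFX 2 true true false .npn 1 2 3 (qsf 536870912 536870912 1073741824 536870912 3) ndF0q1 ndF5q2 pcF3 Cut.none Ext.none)

def k0_pm_123 : ∃ t, chk3 f_pm_123 t 2 1 1 = true :=
  ⟨(b (b (a (b (c (a (b (l 16149088) (l 15824656)) (b (l 16170064) (l 15824656))) (a (b (l 16198416) (l 15799912)) (b (l 16156472) (l 15799912)))) (c (a (b (l 15430304) (l 1)) (b (l 15430304) (l 15071624))) (a (l 14976336) (l 14976336)))) (b (a (c (b (l 16253952) (l 15824656)) (b (l 16240360) (l 15799912))) (b (c (l 16253952) (l 16240360)) (c (l 15824656) (l 15799912)))) (c (a (b (l 15430304) (l 15071624)) (b (l 15430304) (l 15071624))) (a (l 14997312) (b (l 15395320) (l 15027320)))))) (b (a (a (l 1) (a (l 1) (b (b (l 14801512) (l 1)) (l 1)))) (c (b (b (a (l 14826840) (l 14826840)) (a (l 14990696) (l 14990696))) (a (l 15617424) (l 15617424))) (b (b (l 14776184) (l 14944288)) (a (l 15587304) (l 15587304))))) (a (l 1) (b (a (c (l 16306240) (l 16359096)) (c (l 16264296) (l 16338128))) (c (a (l 1) (l 16776672)) (l 16776656))))))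 (a (l 1) (a (l 1) (b (c (l 16777216) (l 200286404615)) (l 1))))), by decide +kernel⟩

def k1_pm_123 : ∃ t, chk3 f_pm_123 t 6 1 1 = true :=
  ⟨(b (b (b (a (b (l 16121328) (l 15812288)) (b (a (l 16247168) (b (l 16354888) (l 16135152))) (l 15749392))) (a (c (b (l 15430312) (l 15071632)) (l 15207032)) (b (l 15412840) (l 15049512)))) (b (b (b (c (l 14826872) (l 14776224)) (a (l 14967504) (l 14967544))) (a (c (l 15533552) (l 15587312)) (c (l 15596504) (l 15587360)))) (b (a (c (b (l 16203704) (l 16571976)) (l 16380080)) (c (l 16390176) (l 16380128))) (c (a (l 16776680) (l 16776728)) (l 16776704))))) (b (c (a (l 16777200) (b (l 16777152) (l 16777160))) (a (l 16777200) (l 16777152))) (a (l 1) (b (l 16777152) (l 1))))), by decide +kernel⟩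

def k2_pm_123 : ∃ t, chk3 f_pm_123 t 14 1 1 = true :=
  ⟨(b (b (b (a (b (b (a (l 16307352) (l 16239712)) (l 16109152)) (a (l 15812280) (l 15810920))) (b (a (l 16128408) (b (l 16114424) (l 16038176))) (a (b (l 15902128) (l 15712696)) (b (l 15896696) (l 15714144))))) (a (b (l 15413528) (l 15050480)) (b (a (l 15423352) (l 15424720)) (a (l 15067104) (l 15074392))))) (b (a (b (b (l 14802776) (c (l 14991888) (l 14945800))) (a (l 15602360) (l 15604872))) (b (b (a (l 14824272) (l 14840520)) (a (l 14992024) (l 15007568))) (a (l 15626528) (l 15641912)))) (a (b (c (l 16265376) (l 16297488)) (c (l 16775528) (l 16775464))) (b (a (l 16364600) (l 16337616)) (l 16743784))))) (b (a (c (l 16776208) (l 16776184)) (b (l 16749072) (c (l 16759024) (l 16758560)))) (b (a (l 186864645783) (c (a (l 16765672) (l 16758584)) (l 16762144))) (a (l 1) (c (l 16767616) (l 16767368)))))), by decide +kernel⟩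

def k3_pm_123 : ∃ t, chk3 f_pm_123 t 30 1 1 = true :=
  ⟨(b (b (b (a (b (c (a (l 16148768) (c (l 16222728) (l 16134224))) (b (l 16000880) (l 15976176))) (b (a (l 15907968) (l 15923312)) (l 15741656))) (b (b (c (c (l 16368032) (l 16214880)) (l 15994920)) (c (l 16101256) (l 16025496))) (c (b (l 16064232) (l 15863800)) (l 15858408)))) (b (a (b (l 15535040) (l 15334312)) (c (l 15509744) (l 15452016))) (a (c (l 15086368) (l 15056936)) (c (l 15081144) (l 15052632))))) (b (b (c (b (a (l 14850808) (l 14832448)) (a (l 15015400) (l 14997296))) (b (l 14814808) (l 14986632))) (c (a (l 15640520) (l 15624152)) (l 15375112))) (b (a (l 16327160) (l 16265200)) (l 16846936)))) (a (b (b (l 16745616) (c (l 16756040) (l 16753744))) (c (b (l 16765184) (l 16773040)) (b (l 16763880) (l 16772584)))) (c (b (c (l 16763872) (l 16755384)) (c (l 344369209719) (l 371749632263))) (b (b (l 16751224) (l 16797048)) (c (l 16811112) (l 400203782727)))))), by decide +kernel⟩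

def k4_pm_123 : ∃ t, chk3 f_pm_123 t 62 4 1 = true :=
  ⟨(c (b (a (b (b (l 16237352) (l 16333120)) (l 16071208)) (b (b (b (l 16184232) (l 16397632)) (l 16429184)) (b (l 16227576) (l 16037808)))) (b (a (l 15593536) (b (l 15809544) (l 15530352))) (b (l 15225648) (l 14978608)))) (b (b (b (a (l 16045392) (l 16126224)) (a (l 16127424) (l 16239616))) (b (l 16085976) (l 15901296))) (b (b (l 15674184) (l 15424728)) (b (l 15172984) (l 14962320))))), by decide +kernel⟩

def k5_pm_123 : ∃ t, chk3 f_pm_123 t 63 4 1 = true :=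
  ⟨(a (b (b (c (b (a (b (l 15952760) (l 16334232)) (b (l 16116992) (l 16298384))) (a (l 16470872) (l 16371160))) (b (a (c (l 16242080) (l 16118992)) (b (l 16013040) (a (l 16292648) (l 16293944)))) (a (l 16355440) (c (l 16463936) (l 16420000))))) (c (b (l 16451824) (l 16109328)) (b (l 16297408) (c (l 16108152) (l 16028072))))) (c (b (a (l 15510296) (l 15770736)) (c (l 15185472) (l 15164656))) (b (c (l 15699416) (l 15647584)) (c (l 15137120) (l 15106880))))) (a (b (b (b (c (c (l 16049552) (a (l 16172688) (l 16069376))) (c (b (a (l 16086344) (l 16090640)) (l 16270384)) (a (l 16177424) (l 15989184)))) (c (a (l 16438256) (b (l 16416768) (l 16579296))) (a (b (l 16442016) (l 16496368)) (l 16448936)))) (b (c (l 16531656) (c (l 16477944) (l 16411072))) (c (l 16322872) (a (l 16162632) (l 16201808))))) (c (b (l 15803896) (l 15213152)) (c (b (l 15782152) (l 15182664)) (b (l 15730160) (l 15154320))))) (b (a (b (b (l 4) (c (l 4620008442295) (l 16466840))) (b (c (l 16639752) (l 16535024)) (c (l 16338864) (l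 16203392)))) (b (l 4) (b (l 4) (a (l 16245136) (l 4))))) (a (c (b (l 15842200) (l 15233928)) (b (b (l 15960968) (l 15654016)) (l 15088992))) (b (a (c (l 15859872) (l 15835952)) (a (c (l 15858136) (l 15834040)) (a (l 15654304) (c (l 15850352) (l 15595512))))) (a (c (l 15244232) (l 15204408)) (a (l 15229552) (a (l 15022456) (c (l 15253712) (l 15151232)))))))))), by decide +kernel⟩

def k6_pm_123 : ∃ t, chk3 f_pm_123 t 31 5 1 = true :=
  ⟨(a (b (b (c (b (l 14827192) (l 14989688)) (b (l 14789880) (l 14961416))) (c (l 15469064) (l 15605112))) (b (c (l 16301272) (l 16279672)) (a (l 16750456) (c (l 16738256) (l 16724816))))) (a (b (b (c (b (l 14826688) (l 14981816)) (b (l 14779192) (l 14946744))) (c (l 15600128) (l 15580336))) (b (c (a (l 16360760) (l 16347600)) (a (l 16261600) (b (l 16150160) (l 16511104)))) (c (l 16727888) (l 16636824)))) (a (b (b (b (c (l 14823448) (c (l 14787832) (l 14772464))) (l 14947480)) (c (l 15583016) (c (l 15560648) (l 15543464)))) (b (c (l 16263160) (b (l 16145608) (l 16497832)))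 (c (l 16706512) (l 16704104)))) (b (a (b (b (l 14799240) (c (l 14961816) (l 14914936))) (c (l 15586384) (l 15531488))) (b (a (b (c (l 14821584) (l 14769472)) (l 14942504)) (a (b (l 14805008) (l 14941816)) (a (b (l 14811528) (l 14949888)) (b (c (l 14843432) (l 14793280)) (l 4))))) (a (l 15460120) (a (l 15554208) (l 4))))) (a (b (c (l 16337240) (l 16260832)) (l 4)) (l 4)))))), by decide +kernel⟩

def k7_pm_123 : ∃ t, chk3 f_pm_123 t 31 3 1 = true :=
  ⟨(b (b (a (c (l 16741320) (l 16729032)) (a (c (l 16707312) (l 16704008)) (l 4))) (a (c (l 16726232) (l 16719400)) (l 4))) (a (c (c (l 16728728) (l 16724760)) (l 374970706215)) (l 4))), by decide +kernel⟩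

theorem s8_pm_123 : ∃ t, chk3 f_pm_123 t 31 4 1 = true := ex3_a k4_pm_123 k5_pm_123

theorem s9_pm_123 : ∃ t, chk3 f_pm_123 t 31 2 1 = true := ex3_b s8_pm_123 k6_pm_123

theorem s10_pm_123 : ∃ t, chk3 f_pm_123 t 31 1 1 = true := ex3_b s9_pm_123 k7_pm_123

theorem s11_pm_123 : ∃ t, chk3 f_pm_123 t 15 1 1 = true := ex3_a k3_pm_123 s10_pm_123

theorem s12_pm_123 : ∃ t, chk3 f_pm_123 t 7 1 1 = true := ex3_a k2_pm_123 s11_pm_123

theorem s13_pm_123 : ∃ t, chk3 f_pm_123 t 3 1 1 = true := ex3_a k1_pm_123 s12_pm_123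

theorem s14_pm_123 : ∃ t, chk3 f_pm_123 t 1 1 1 = true := ex3_a k0_pm_123 s13_pm_123

theorem c_pm_123 : CertFX 536870912 536870912 1073741824 536870912 1046898278 26843546 true true false .npn 1 2 3
    ndF0q1 ndF5q2 pcF3 Cut.none Ext.none :=
  certFX2 (fam := true) (s1 := true) (s2 := false) (a := 1) (b := 2) (c := 3) (cn := .npn) (n1 := ndF0q1) (n2 := ndF5q2) (pc := pcF3) (cut := Cut.none) (xt := Ext.none) (P1 := 536870912) (W1 := 536870912) (P2 := 1073741824) (W2 := 536870912) (P3 := 1046898278) (W3 := 26843546)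
    rfl (fun _ => rfl) s14_pm_123

noncomputable def f_pm_133 : ℕ → ℕ → ℕ → ℕ → Bool := onCell 536870912 536870912 0 1230186008 1046898278 26843546
    (rowFX 0 true true false .dn 1 3 3 (qsf 536870912 536870912 0 1230186008 3) ndF0q1 ndF5q3 pcF3 Cut.none Ext.none)

def k0_pm_133 : ∃ t, chk3 f_pm_133 t 1 1 1 = true :=
  ⟨(b (l 2) (b (l 2) (a (l 4) (l 2)))), by decide +kernel⟩

theorem c_pm_133 : CertFX 536870912 536870912 0 1230186008 1046898278 26843546 true true false .dn 1 3 3
    ndF0q1 ndF5q3 pcF3 Cut.none Ext.none :=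
  certFX0 (fam := true) (s1 := true) (s2 := false) (a := 1) (b := 3) (c := 3) (cn := .dn) (n1 := ndF0q1) (n2 := ndF5q3) (pc := pcF3) (cut := Cut.none) (xt := Ext.none) (P1 := 536870912) (W1 := 536870912) (P2 := 0) (W2 := 1230186008) (P3 := 1046898278) (W3 := 26843546)
    rfl k0_pm_133

end Pool.Agent.Strip051.G.IE1.Tab.C.FA05

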