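import Pool.Agent.Strip051.G.IE1.Tab

/-! # Certificates F12 (generated) -/

set_option linter.all false
set_option maxRecDepth 100000

namespace Pool.Agent.Strip051.G.IE1.Tab.C.FA05

open Pool.Agent.Strip051.PB Pool.Agent.Strip051.PB.T
open Pool.Agent.Strip051.G.IE1.Tab

noncomputable def f_pm_202 : ℕ → ℕ → ℕ → ℕ → Bool := onCell 0 536870912 0 536870912 1046898278 26843546
    (rowFX 0 true true false .pp 2 0 2 (qsf 0 536870912 0 536870912 2) ndF0q2 ndF5q0 pcF2 Cut.none Ext.none)

def k0_pm_202 : ∃ t, chk3 f_pm_202 t 8 16 1 = true :=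
  ⟨(c (b (b (c (a (l 16280776) (l 16289376)) (a (l 16293648) (c (l 16301032) (l 16305808)))) (c (a (b (l 16270248) (l 16216656)) (b (c (l 16277528) (l 16274088)) (l 16215744))) (c (a (l 16215408) (l 16195440)) (b (l 16237096) (l 16160384))))) (b (a (c (c (l 16107680) (l 16096016)) (l 16113992)) (c (c (l 16100368) (l 16088640)) (l 16085536))) (c (a (l 16037000) (l 16021336)) (l 16085944)))) (b (b (c (b (a (l 16313224) (l 16324000)) (c (l 16269232) (l 16278600))) (c (b (l 16302424) (l 16275072)) (b (l 16220808) (l 16286464)))) (c (a (l 16205592) (l 16164632)) (l 16229832))) (c (a (l 16140320) (l 16128400)) (l 16145512)))), by decide +kernel⟩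

def k1_pm_202 : ∃ t, chk3 f_pm_202 t 9 32 1 = true :=
  ⟨(c (b (a (c (a (a (l 16308064) (l 16322760)) (l 16354984)) (a (b (l 16338488) (c (l 16320552) (l 16323072))) (l 16306000))) (c (l 16371456) (c (l 16426648) (l 16327624)))) (a (a (b (c (c (l 16295232) (l 16249976)) (l 16223600)) (c (l 16230104) (l 16183448))) (c (b (b (l 16332520) (c (l 16320064) (l 16311080))) (a (l 16180864) (a (l 16254784) (l 16265472)))) (b (c (l 16245440) (l 16285528)) (c (l 16211096) (l 16196352))))) (c (b (c (l 16337048) (b (l 16413288) (l 16344400))) (c (l 16232304) (l 16310024))) (b (c (l 16279984) (l 16362576)) (c (l 16282368) (l 16268144)))))) (b (c (a (b (a (l 16354016) (l 16397688)) (a (c (l 16315624) (l 16304192)) (c (l 16353408) (l 16342248)))) (b (l 16438544) (c (l 16357720) (l 16349752)))) (a (b (c (b (l 16394128) (l 16347800)) (b (l 16396600) (l 16366744))) (c (l 16299576) (l 16332256))) (c (b (l 16422864) (l 16420640)) (b (l 16384320) (l 16433056))))) (a (c (a (l 16139352) (b (l 16229464) (l 16220264)))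 (a (l 16246040) (l 16273792))) (c (c (l 16188712) (l 16328040)) (l 16349424))))), by decide +kernel⟩

def k2_pm_202 : ∃ t, chk3 f_pm_202 t 9 33 1 = true :=
  ⟨(c (a (b (c (b (a (l 16139496) (c (l 16169776) (l 16142176))) (c (l 16073192) (l 16071024))) (b (c (a (l 16116312) (l 16133696)) (l 16142352)) (l 16108224))) (c (c (c (l 16007096) (l 16019664)) (l 16041856)) (l 16084512))) (c (b (a (b (l 16151200) (c (a (b (l 16117736) (l 16073864)) (l 16118112)) (a (l 16095104) (l 16116264)))) (c (l 16124032) (b (l 16231336) (l 16155624)))) (a (b (c (a (l 16040200) (b (l 16062144) (l 16045776))) (l 16075128)) (l 16041408)) (c (b (l 16091720) (l 16062080)) (l 16105488)))) (b (c (b (l 16092632) (a (l 16129032) (l 16178808))) (l 16115728)) (a (l 16108816) (l 16148824))))) (a (c (b (a (l 16161312) (l 16177544)) (l 16119904)) (l 16151832)) (c (a (b (l 16211192) (l 16144544)) (b (l 16263008) (l 16185144))) (a (l 16187120) (l 16233376))))), by decide +kernel⟩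

def k3_pm_202 : ∃ t, chk3 f_pm_202 t 4 17 1 = true :=
  ⟨(a (c (c (b (a (l 16033744) (l 16005936)) (a (l 16048344) (b (l 16008560) (l 16008336)))) (b (a (l 16074672) (l 16046416)) (a (l 16055400) (l 16011360)))) (c (b (l 16070112) (l 16025600)) (b (l 16061544) (l 16016960)))) (c (a (b (c (a (l 15998040) (l 16000808)) (c (l 16036648) (l 16048144))) (c (b (l 15988864) (l 15980008)) (l 15986936))) (b (c (a (b (l 16021304) (l 16002504)) (b (a (b (l 16042952) (l 16028240)) (b (l 16063496) (l 16041896))) (l 15995432))) (a (l 15987720) (b (c (l 16087592) (l 16107592)) (l 16050736)))) (c (b (c (l 15984304) (l 16003560)) (c (l 15973960) (l 15976824))) (l 15985872)))) (a (b (c (l 16048256) (l 16039328)) (l 15972984)) (b (a (l 16056576) (b (c (l 16110568) (l 16103072)) (l 16043624))) (c (l 15976568) (l 15967144)))))), by decide +kernel⟩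

def k4_pm_202 : ∃ t, chk3 f_pm_202 t 10 32 1 = true :=
  ⟨(c (b (a (c (l 16373440) (c (l 16404920) (l 16295160))) (b (a (c (b (a (l 16342688) (l 16307112)) (l 16322224)) (b (a (l 16347344) (l 16332416)) (l 16348072))) (a (b (l 16346000) (a (b (l 16316032) (l 16313080)) (l 16311896))) (l 16337376))) (a (c (l 16396992) (l 16321712)) (b (a (l 16319360) (a (b (l 16291264) (l 16293856)) (b (l 16291232) (l 16279384)))) (c (l 16329576) (l 16296352)))))) (c (a (b (c (l 16420688) (a (l 16404280) (l 16431384))) (c (l 16333776) (l 16349488))) (b (c (l 16301664) (b (l 16366592) (l 16317256))) (a (l 16423608) (l 16348232)))) (a (a (b (l 16359096) (l 16325328)) (c (l 16326144) (l 16298472))) (b (a (l 16356336) (l 16257000)) (a (l 16411064) (l 16376880)))))) (b (a (c (b (l 16365208) (c (l 16364568) (l 16371312))) (b (c (l 16318192) (l 16272936)) (l 16369912))) (b (a (c (b (a (l 16330936) (l 16315696)) (l 16291056)) (b (a (b (l 16267560) (l 16319256)) (b (l 16303440) (c (l 16295648) (l 16291888)))) (c (l 16309792)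 (l 16330000)))) (a (c (b (l 16320920) (b (l 16292672) (l 16285904))) (b (l 16284392) (c (b (l 16285808) (l 16285968)) (l 16288240)))) (c (l 16312864) (c (l 16306304) (l 16302008))))) (c (a (c (l 16342792) (l 16348784)) (b (a (l 16306416) (c (b (l 16271080) (l 16271000)) (l 16217008))) (l 16283296))) (a (l 16346128) (b (a (l 16308440) (c (l 16285448) (l 16273656))) (l 16325752)))))) (c (a (b (l 16332256) (l 16356456)) (c (a (l 16389392) (l 16311176)) (l 16317912))) (a (l 16416480) (l 16321024))))), by decide +kernel⟩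

def k5_pm_202 : ∃ t, chk3 f_pm_202 t 10 33 1 = true :=
  ⟨(c (a (b (c (c (c (l 16200000) (l 16125928)) (b (l 16283504) (l 16163448))) (c (b (l 16255400) (l 16271200)) (l 16318880))) (c (b (a (l 16120328) (l 16163536)) (l 16100128)) (l 16216352))) (b (c (c (a (l 16281704) (l 16322552)) (b (l 16351448) (a (l 16354232) (l 16373776)))) (b (c (l 16324456) (l 16448744)) (l 16352504))) (c (c (a (l 16203656) (l 16261752)) (l 16294048)) (l 16277024)))) (c (a (c (l 16204120) (l 16238584)) (a (l 16295768) (l 16337432))) (a (l 16284032) (l 16331608)))), by decide +kernel⟩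

def k6_pm_202 : ∃ t, chk3 f_pm_202 t 22 64 1 = true :=
  ⟨(c (a (b (l 16355944) (a (b (l 16290240) (c (a (l 16280232) (b (l 16272744) (l 16264568))) (b (a (l 16259784) (l 16256168)) (c (l 16261488) (l 16260744))))) (c (l 16291832) (c (l 16278912) (l 16232056))))) (c (l 16352472) (c (l 16339896) (l 16249792)))) (b (c (l 16325160) (c (l 16276880) (b (l 16328936) (l 16322912)))) (c (a (a (b (l 16276464) (b (c (l 16260704) (l 16276152)) (l 16280448))) (c (l 16234408) (l 16281640))) (c (l 16297320) (l 16302784))) (a (b (l 16284520) (a (c (l 16274864) (l 16259808)) (l 16265736))) (l 16298976))))), by decide +kernel⟩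

def k7_pm_202 : ∃ t, chk3 f_pm_202 t 22 65 1 = true :=
  ⟨(a (c (b (c (b (a (l 16289232) (b (a (l 16252792) (l 16246720)) (a (l 16261480) (l 16241280)))) (c (l 16294856) (l 16298224))) (b (a (l 16292112) (b (c (a (l 16242864) (l 16236688)) (l 16250736)) (a (l 16268792) (l 16248304)))) (l 16321136))) (c (l 16243760) (c (l 16395224) (l 16361072)))) (b (c (b (a (l 16311952) (c (l 16214664) (b (l 16273416) (l 16279968)))) (l 16330672)) (a (l 16306648) (b (l 16231624) (l 16276336)))) (c (l 16381336) (l 16351560)))) (a (c (b (b (b (c (l 16255616) (l 16251216)) (c (l 16216288) (l 16244248))) (c (b (c (a (l 16233096) (l 16225552)) (a (l 16209536) (l 16222904))) (b (c (l 16229648) (l 16234624)) (l 16220688))) (a (l 16264960) (l 16209848)))) (c (l 16259704) (l 16265560))) (b (c (b (c (l 16270008) (l 16270616)) (c (b (l 16250552) (l 16282464)) (l 16262928))) (b (l 16244728) (l 16216336))) (c (l 16311408) (l 16280344)))) (c (b (c (b (l 16260272) (b (l 16234000) (c (a (l 16214904) (l 16220392)) (l 16225256))))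 (b (l 16262728) (l 16252296))) (b (c (b (a (c (b (l 16212616) (l 16221384)) (l 16233824)) (b (l 16217912) (l 16217104))) (l 16177392)) (b (a (l 16258720) (l 16250816)) (a (l 16283288) (l 16239944)))) (c (l 16280712) (l 16306200)))) (b (c (c (l 16275496) (l 16268824)) (l 16244240)) (b (c (b (a (l 16253440) (l 16245400)) (l 16255608)) (l 16200792)) (l 16262408)))))), by decide +kernel⟩

def k8_pm_202 : ∃ t, chk3 f_pm_202 t 23 32 1 = true :=
  ⟨(c (b (c (l 16278080) (c (l 16328688) (b (l 16425344) (b (l 16362520) (l 16305888))))) (b (c (c (a (l 16268528) (l 16303528)) (b (l 16297224) (c (l 16265976) (l 16271168)))) (c (b (a (l 16279600) (l 16315400)) (l 16284016)) (l 16305400))) (a (b (c (b (l 16236056) (a (l 16224616) (l 16239464))) (a (a (l 16254832) (l 16261720)) (l 16274056))) (a (c (a (l 16182432) (b (l 16225320) (l 16235432))) (c (a (l 16270240) (l 16215232)) (b (a (l 16265864) (l 16258936)) (l 16271976)))) (c (l 16234872) (c (l 16259824) (l 16263128))))) (c (c (l 16255920) (l 16272680)) (c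 (l 16289912) (l 16297120)))))) (b (c (b (l 16330056) (c (b (l 16357504) (l 16335904)) (b (l 16363688) (l 16349664)))) (b (c (b (l 16422712) (l 16391384)) (b (l 16356328) (l 16390896))) (c (l 16354128) (l 16342744)))) (c (b (c (l 16317200) (l 16310704)) (a (a (b (l 16247704) (a (l 16240416) (l 16227024))) (l 16246792)) (l 16273392))) (a (b (l 16267856) (a (b (l 16213128) (l 16205952)) (l 16214216))) (l 16273464))))), by decide +kernel⟩

def k9_pm_202 : ∃ t, chk3 f_pm_202 t 22 33 1 = true :=
  ⟨(c (b (c (c (a (l 16352248) (c (l 16324056) (l 16289064))) (b (l 16293640) (c (l 16364000) (l 16399688)))) (c (b (a (l 16405072) (l 16335416)) (l 16403224)) (l 16330616))) (c (c (a (l 16307496) (l 16383296)) (l 16366040)) (l 16371920))) (c (a (l 16323360) (c (l 16300384) (l 16309200))) (l 16265128))), by decide +kernel⟩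

def k10_pm_202 : ∃ t, chk3 f_pm_202 t 23 33 1 = true :=
  ⟨(b (c (a (b (c (b (a (l 16286752) (a (b (l 16196560) (l 16262160)) (b (l 16233928) (a (l 16243448) (l 16236864))))) (l 16253064)) (b (a (l 16277488) (c (b (a (l 16261456) (l 16256896)) (c (l 16230776) (l 16249928))) (a (l 16257408) (l 16245592)))) (l 16287840))) (c (c (l 16305032) (l 16302712)) (l 16353264))) (b (c (a (b (l 16244552) (a (b (a (l 16245736) (l 16240376)) (l 16264416)) (b (l 16243632) (c (l 16218416) (b (l 16251296) (l 16255776)))))) (l 16257928)) (a (b (c (l 16264016) (l 16250712)) (a (b (a (l 16243264) (l 16216856)) (l 16250736)) (b (l 16241112) (l 16211808)))) (c (l 16268440) (l 16251216)))) (c (a (c (b (l 16285672) (l 16338040)) (b (l 16270744) (l 16327920))) (b (b (a (c (l 16221792) (c (l 16254728) (l 16233392))) (l 16251440)) (a (c (l 16259200) (l 16262544)) (c (l 16246472) (a (b (l 16248328) (l 16248304)) (l 16248624))))) (b (c (b (l 16245864) (l 16278960)) (l 16203520)) (c (l 16296552) (l 16280056))))) (a (l 16273712)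 (b (a (b (l 16222040) (l 16224960)) (l 16198464)) (l 16212136)))))) (a (a (c (l 16304032) (l 16284528)) (b (b (c (a (l 16218992) (l 16185952)) (l 16189984)) (l 16181488)) (l 16211712))) (b (a (c (b (l 16211920) (a (l 16134360) (b (l 16190536) (l 16181344)))) (b (l 16185888) (l 16174216))) (c (l 16213256) (l 16189088))) (a (c (l 16226728) (l 16211288)) (c (b (a (b (l 16171440) (l 16175432)) (l 16148472)) (l 16143896)) (b (l 16137152) (l 16172088))))))) (c (c (b (c (a (l 16386800) (c (l 16289848) (l 16363368))) (l 16269600)) (c (l 16328944) (l 16324432))) (a (l 16374960) (l 16270072))) (c (c (l 16186024) (l 16262352)) (l 16259896)))), by decide +kernel⟩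

def k11_pm_202 : ∃ t, chk3 f_pm_202 t 10 17 1 = true :=
  ⟨(c (b (a (c (a (b (l 16091472) (a (b (l 16043192) (l 16026280)) (l 16057520))) (b (l 16151552) (l 16100176))) (b (c (l 16164848) (l 16185424)) (a (c (a (l 16068928) (l 16091632)) (l 16085392)) (l 16135752)))) (c (a (b (l 16219208) (l 16164384)) (b (l 16294864) (l 16236376))) (c (b (l 16301832) (l 16194280)) (b (l 16302440) (l 16241464))))) (a (c (b (b (a (a (l 16015176) (c (l 16015592) (l 16040208))) (l 16065208)) (a (l 16008032) (a (c (l 16020824) (l 16037496)) (l 16053912)))) (a (c (l 15985808) (l 15988752)) (c (a (b (l 16006208) (l 15993096)) (b (l 16025952) (b (l 16010144) (l 15978816)))) (a (l 16001464) (l 16018008))))) (a (b (l 16025680) (l 15981576)) (b (l 16024200) (a (l 15994424) (l 16011152))))) (c (b (c (a (l 16102912) (l 16171032)) (a (l 16123048) (l 16191664))) (c (a (b (l 16069208) (l 16042904)) (b (l 16134640) (l 16106184))) (a (l 16058344) (l 16122904)))) (a (b (l 16125832) (l 16051936)) (l 16155152))))) (a (a (b (b (l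 16156080) (l 16075648)) (b (l 16012032) (l 15967176))) (b (l 16154176) (b (l 16053384) (c (l 15993888) (l 15984592))))) (b (c (l 16157048) (l 16277320)) (c (l 15968600) (l 16107960))))), by decide +kernel⟩

def k12_pm_202 : ∃ t, chk3 f_pm_202 t 11 17 1 = true :=
  ⟨(c (a (b (c (a (b (l 16337000) (l 16274632)) (b (l 16388040) (l 16342544))) (a (c (l 16261472) (l 16317472)) (b (l 16403520) (l 16382640)))) (c (b (c (a (l 16247112) (l 16331616)) (a (l 16268312) (l 16332472))) (c (a (b (l 16207888) (l 16177544)) (b (l 16289392) (l 16257064))) (a (l 16195744) (l 16276856)))) (a (l 16125864) (b (l 16358792) (l 16272872))))) (b (b (c (a (l 16448472) (l 16387248)) (c (l 16337680) (c (l 16342616) (l 16336528)))) (c (a (l 16398640) (l 16467624)) (a (l 16419216) (l 16414680)))) (c (a (c (b (l 16404072) (c (l 16274984) (l 16322224))) (b (l 16384640) (l 16366720))) (b (c (l 16444008) (l 16446312)) (c (b (l 16437216) (l 16379616)) (l 16444896)))) (a (b (l 16453952) (l 16363736)) (b (l 16474824) (l 16463984))))))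 (a (b (c (c (l 16283968) (l 16303888)) (l 16302304)) (a (l 16159152) (l 16182128))) (b (c (c (l 16292768) (l 16292336)) (l 16291688)) (c (a (l 16362688) (l 16403784)) (l 16307344))))), by decide +kernel⟩

def k13_pm_202 : ∃ t, chk3 f_pm_202 t 4 9 1 = true :=
  ⟨(b (a (c (b (a (c (l 16045648) (l 16100440)) (b (c (l 16016712) (l 16007280)) (l 16077536))) (l 16112720)) (b (a (l 16004536) (b (l 15993264) (l 16060472))) (l 16204264))) (c (b (a (b (c (b (l 15971576) (l 15971784)) (l 15962496)) (l 16016640)) (b (c (l 15931224) (l 15941752)) (a (l 15971880) (l 15948288)))) (a (l 16139248) (l 16085296))) (b (a (b (l 15947448) (l 15997704)) (b (l 15926208) (l 15942112))) (a (l 16123504) (l 16067912))))) (c (a (l 16290496) (a (l 16321968) (l 16286752))) (a (l 16323016) (a (l 16310904) (l 16274592))))), by decide +kernel⟩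

def k14_pm_202 : ∃ t, chk3 f_pm_202 t 5 18 1 = true :=
  ⟨(a (a (b (c (b (c (c (l 15964768) (l 15959632)) (l 15951960)) (a (b (l 15928864) (l 15933816)) (l 15909632))) (b (l 15936616) (l 15913568))) (c (a (l 16041888) (l 16011712)) (l 16008184))) (b (c (b (c (a (a (b (c (l 15999864) (l 15995008)) (l 15971816)) (b (l 16023712) (l 15991712))) (l 16053680)) (a (a (l 15975192) (l 15998816)) (l 16044712))) (a (c (a (l 15944152) (l 15953936)) (l 15937896)) (c (a (l 15974584) (l 16002240)) (l 15979784)))) (a (b (c (l 15978584) (l 15968880)) (l 15921992)) (b (l 16031392) (l 15964784)))) (b (a (c (l 15943256) (l 15921784)) (c (b (c (l 15947296) (l 15936560)) (a (l 15933152) (b (l 15931024) (l 15928264)))) (b (l 15920472) (a (l 15911320) (l 15909360))))) (c (l 16009632) (l 15989840))))) (b (c (a (a (c (b (l 16143472) (l 16052024)) (l 16077960)) (c (b (c (l 16200976) (l 16197584)) (l 16124952)) (l 16153944))) (c (c (b (a (l 16286016) (l 16380040)) (l 16252712)) (a (l 16159192) (l 16209784))) (a (l 16175544)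 (l 16206184)))) (a (c (l 16045152) (l 16100128)) (c (a (l 16232296) (l 16327208)) (l 16253296)))) (a (b (c (a (c (l 15987808) (l 15977640)) (l 16051752)) (a (l 15962384) (l 16033408))) (a (c (b (a (b (l 15940520) (l 15955816)) (b (l 15960376) (l 15957648))) (l 15987944)) (b (a (l 15928232) (l 15939672)) (l 15967456))) (c (b (l 16003856) (a (l 15985056) (l 15999528))) (b (l 15983936) (l 15974840))))) (c (a (b (l 16129432) (l 16061984)) (l 16179096)) (a (b (l 16113328) (l 16043664)) (l 16164272)))))), by decide +kernel⟩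

def k15_pm_202 : ∃ t, chk3 f_pm_202 t 5 19 1 = true :=
  ⟨(a (c (a (l 16248024) (l 16161216)) (a (l 16234696) (l 16188488))) (a (c (b (a (b (l 16055984) (l 16133472)) (b (l 16042304) (l 16106816))) (l 16213616)) (b (a (l 16075376) (l 16058352)) (l 16199080))) (b (b (a (c (b (a (l 16024720) (l 16041400)) (l 16058968)) (b (l 16016888) (l 16040312))) (c (b (l 16093520) (a (l 16064912) (l 16085976))) (b (l 16075936) (l 16060608)))) (c (l 16099056) (l 16081440))) (c (a (l 16181752) (l 16174528)) (a (l 16166304) (l 16158880)))))), by decide +kernel⟩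

def k16_pm_202 : ∃ t, chk3 f_pm_202 t 2 5 1 = true :=
  ⟨(a (b (a (c (b (l 16472416) (l 16511272)) (b (l 16465080) (l 16463040))) (c (b (l 16448144) (l 16518944)) (b (l 16440040) (l 16449968)))) (c (a (b (l 16663752) (l 16777080)) (b (l 16684720) (l 16777080))) (a (b (l 16661344) (l 16777080)) (b (l 16682320) (l 16777080))))) (b (a (b (c (l 16420448) (l 16411480)) (c (l 16550888) (l 16545128))) (b (a (c (l 16385224) (l 16375200)) (a (l 16312544) (b (c (l 16281288) (l 16268424)) (l 16392560)))) (c (l 16510008) (l 16504256)))) (a (c (b (l 16685584) (l 16777080)) (b (l 16683208) (l 16777080))) (c (b (l 16653016) (l 16777080)) (b (l 16608952) (l 16777080)))))), by decide +kernel⟩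

def k17_pm_202 : ∃ t, chk3 f_pm_202 t 12 32 1 = true :=
  ⟨(c (b (a (c (a (l 16402752) (l 16409496)) (b (l 16434136) (c (l 16413928) (a (l 16364664) (l 16391952))))) (c (l 16421024) (c (l 16441688) (b (l 16496760) (c (l 16433728) (l 16412464)))))) (c (c (a (a (b (l 16322768) (l 16273784)) (b (l 16347512) (l 16318056))) (a (b (l 16399072) (l 16368088)) (b (l 16456824) (l 16424248)))) (a (b (b (l 16358008) (c (l 16283112) (l 16351616))) (l 16334416)) (b (b (l 16441744) (c (l 16385896) (l 16454904))) (l 16435816)))) (a (b (c (b (a (l 16356488) (l 16403184)) (l 16365208)) (l 16388072)) (c (l 16352400) (a (l 16337280) (l 16362048)))) (b (c (b (c (l 16419056) (l 16444136)) (l 16469384)) (l 16473016)) (c (l 16454984) (b (l 16434728) (l 16391856))))))) (b (c (b (a (a (l 16436104) (l 16465608)) (b (l 16505120) (l 16489320))) (c (a (b (l 16402056) (l 16421072)) (b (l 16470352) (l 16487896))) (a (b (l 16450888) (l 16435720)) (b (l 16499096) (l 16482672))))) (b (c (a (b (l 16513528) (l 16417712)) (b (l 16539352)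 (l 16489240))) (a (b (c (l 16510984) (l 16488392)) (l 16459704)) (c (b (l 16542040) (l 16574912)) (l 16457208)))) (a (c (l 16399296) (l 16430120)) (c (l 16447512) (l 16499680))))) (c (a (c (b (l 16316824) (l 16348536)) (b (l 16352648) (l 16323680))) (c (b (a (l 16456808) (l 16495624)) (l 16389440)) (c (l 16344488) (l 16396632)))) (a (l 16212288) (c (l 16362928) (l 16418632)))))), by decide +kernel⟩

def k18_pm_202 : ∃ t, chk3 f_pm_202 t 12 66 1 = true :=
  ⟨(a (c (c (b (c (l 16301120) (a (l 16295984) (l 16339776))) (b (c (l 16290040) (c (l 16299752) (l 16295696))) (a (a (a (c (b (b (l 16249560) (l 16228656)) (a (l 16261344) (c (l 16251816) (l 16232056)))) (b (l 16243104) (l 16240664))) (c (c (l 16253008) (l 16235136)) (l 16242664))) (c (l 16268024) (l 16257136))) (c (l 16300208) (l 16289440))))) (b (c (c (b (l 16335080) (l 16316056)) (l 16257088)) (l 16303000)) (a (a (b (l 16231208) (a (b (l 16202144) (l 16199584)) (l 16201504))) (l 16233576)) (l 16266112)))) (a (a (c (b (l 16232536) (b (l 16181144)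 (a (b (l 16153168) (l 16151952)) (l 16153376)))) (b (l 16208488) (b (l 16163688) (l 16142464)))) (c (l 16219976) (l 16198576))) (c (l 16169240) (l 16231968)))) (c (c (c (b (l 16399264) (a (l 16311000) (l 16385928))) (b (l 16333304) (c (b (l 16376160) (l 16370992)) (l 16312176)))) (c (b (c (b (l 16435768) (l 16394408)) (l 16336296)) (l 16334152)) (l 16281552))) (c (c (l 16276144) (l 16234888)) (l 16267296)))), by decide +kernel⟩

def k19_pm_202 : ∃ t, chk3 f_pm_202 t 24 67 2 = true :=
  ⟨(a (b (a (b (c (b (a (l 16263424) (c (c (a (l 16259112) (b (l 16229352) (l 16252504))) (l 16228632)) (l 16186624))) (l 16265528)) (a (l 16218400) (b (a (l 16189632) (l 16182112)) (l 16196120)))) (c (l 16287232) (l 16233104))) (b (b (c (c (l 16254976) (l 16231000)) (l 16189560)) (a (c (a (b (c (l 16242856) (l 16215312)) (l 16232832)) (b (l 16229232) (l 16224032))) (a (l 16176344) (l 16171608))) (c (l 16232440) (l 16176912)))) (a (c (l 16243400) (l 16188336)) (c (b (a (b (l 16218584) (l 16218256)) (l 16218032)) (a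 (l 16228024) (l 16214552))) (b (a (l 16163904) (l 16162280)) (l 16166160)))))) (c (l 16237712) (l 16247176))) (b (c (b (c (c (l 16284312) (l 16275040)) (l 16253864)) (a (a (a (b (l 16222672) (b (l 16209640) (l 16205528))) (l 16219064)) (l 16226944)) (l 16243312))) (a (a (c (l 16130168) (l 16165712)) (l 16188800)) (l 16205280))) (a (b (a (a (c (l 16219344) (l 16163848)) (b (c (b (l 16199880) (l 16200808)) (l 16145496)) (l 16183064))) (b (c (l 16201184) (l 16145104)) (c (a (l 16196776) (b (l 16190304) (l 16187048))) (a (l 16140816) (l 16133520))))) (c (l 16225016) (l 16169944))) (b (c (l 16207824) (l 16151608)) (a (c (b (a (b (l 16181048) (l 16182560)) (l 16179664)) (a (l 16193096) (l 16178176))) (b (a (l 16126616) (l 16123288)) (l 16129968))) (a (b (l 16155496) (c (b (l 16171112) (l 16168072)) (l 16114360))) (c (l 16180568) (l 16124296)))))))), by decide +kernel⟩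

def k20_pm_202 : ∃ t, chk3 f_pm_202 t 24 67 3 = true :=
  ⟨(a (b (a (a (l 16185864) (b (c (c (l 16153504) (l 16141000)) (l 16136224)) (l 16172496))) (b (a (c (c (l 16100072) (l 16129400)) (l 16124480)) (l 16134096)) (c (a (l 16146672) (b (c (l 16125480) (l 16116272)) (l 16124768))) (l 16107816)))) (c (l 16213256) (l 16206648))) (b (c (a (c (b (l 16161520) (l 16128848)) (l 16134728)) (l 16161920)) (l 16140648)) (a (b (c (a (b (l 16091520) (l 16126392)) (b (l 16105352) (a (l 16103408) (l 16095944)))) (a (l 16112264) (l 16097256))) (l 16132664)) (b (c (l 16113152) (l 16104880)) (c (a (b (a (l 16091432) (l 16087992)) (l 16097304)) (b (l 16094984) (l 16082832))) (a (l 16089048) (l 16082048))))))), by decide +kernel⟩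

def k21_pm_202 : ∃ t, chk3 f_pm_202 t 25 67 1 = true :=
  ⟨(c (c (b (c (a (c (l 16272976) (l 16303840)) (l 16277048)) (l 16266800)) (a (l 16203368) (l 16274864))) (a (l 16141704) (l 16193064))) (c (c (a (l 16169328) (l 16220704)) (l 16185808)) (l 16181416))), by decide +kernel⟩

def k22_pm_202 : ∃ t, chk3 f_pm_202 t 13 32 1 = true :=
  ⟨(c (b (a (c (a (l 16433232) (l 16484184)) (b (l 16464440) (a (c (l 16583736) (l 16524768)) (l 16530848)))) (c (l 16438656) (b (l 16486712) (a (l 16560888) (l 16571184))))) (a (c (b (a (b (l 16544240) (c (l 16524024) (l 16508264))) (b (l 16575040) (l 16474544))) (a (c (l 16470256) (l 16510824)) (l 16509072))) (b (c (a (b (l 16521536) (l 16546600)) (l 16523472)) (l 16556736)) (c (l 16535272) (a (l 16477320) (l 16527600))))) (c (b (b (l 16551960) (c (l 16550112) (l 16555592))) (l 16482896)) (a (b (c (l 16576312) (l 16593496)) (l 16509368)) (b (l 16558832) (l 16543872)))))) (b (c (a (b (a (l 16455984) (l 16506384)) (c (b (a (l 16591640) (l 16600864)) (l 16574512))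 (b (l 16564672) (l 16581296)))) (b (a (l 16515280) (l 16530808)) (c (b (l 16552488) (l 16620504)) (b (l 16584016) (l 16620920))))) (a (b (c (b (l 16509272) (c (l 16531088) (l 16526000))) (b (c (l 16490616) (b (l 16503608) (l 16521448))) (c (l 16545768) (l 16551968)))) (c (a (l 16569704) (l 16600144)) (l 16587216))) (b (b (c (l 16531864) (c (l 16492232) (b (l 16505472) (l 16543136)))) (c (a (l 16540640) (l 16554776)) (l 16526040))) (c (a (l 16609168) (l 16619424)) (l 16585768))))) (a (c (c (b (a (l 16545072) (l 16597000)) (l 16449632)) (a (l 16437648) (l 16467448))) (a (l 16438744) (l 16468232))) (c (b (a (l 16539664) (l 16533672)) (l 16478552)) (a (l 16499144) (l 16491816)))))), by decide +kernel⟩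

def k23_pm_202 : ∃ t, chk3 f_pm_202 t 13 33 1 = true :=
  ⟨(c (a (b (c (a (b (l 16459536) (c (l 16429640) (b (l 16465472) (l 16434672)))) (b (l 16486992) (c (l 16455720) (l 16453384)))) (c (b (a (b (l 16509664) (l 16482752)) (l 16500728)) (l 16386856)) (a (l 16416864) (l 16443176)))) (c (a (c (b (c (l 16388584) (l 16398440)) (l 16329456)) (l 16317656)) (c (l 16305264) (l 16340552))) (a (l 16191856) (l 16297944)))) (b (c (b (l 16500832) (c (l 16467384) (l 16444032))) (b (c (l 16473024) (l 16497360)) (l 16427576))) (c (a (l 16273184) (l 16321944)) (l 16240552)))) (a (c (a (b (c (l 16411312) (l 16370072)) (c (l 16219360) (l 16252368))) (b (l 16364936) (l 16216496))) (a (l 16209424) (l 16274792))) (c (b (a (l 16391912) (l 16401712)) (a (l 16260088) (l 16265336))) (a (l 16278392) (l 16285728))))), by decide +kernel⟩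

def k24_pm_202 : ∃ t, chk3 f_pm_202 t 24 17 1 = true :=
  ⟨(b (c (a (b (c (c (l 16312904) (l 16328560)) (c (l 16323864) (l 16262136))) (c (l 16342064) (c (l 16352488) (l 16408224)))) (b (c (a (l 16232872) (b (a (l 16221176) (b (b (a (l 16175560) (b (l 16161896) (l 16163360))) (l 16181960)) (l 16203568))) (l 16261816))) (a (c (l 16255592) (l 16234944)) (b (a (l 16167224) (b (b (c (l 16086144) (l 16100600)) (l 16126344)) (l 16149392))) (l 16128456)))) (c (c (l 16282056) (l 16276960)) (c (c (l 16280344) (l 16273408)) (l 16311624))))) (a (c (l 16214600) (l 16295880)) (a (c (l 16187976) (l 16267920)) (b (c (b (a (l 16141232) (b (l 16092312) (l 16126248))) (l 16195664)) (l 16112744)) (l 16296064))))) (c (a (c (b (c (l 16494216) (l 16455216)) (c (b (l 16504592) (l 16465648)) (l 16490944))) (b (l 16469472) (l 16490288))) (b (c (a (c (l 16475832) (l 16435944)) (c (l 16439160) (l 16377688))) (l 16356752)) (c (c (b (l 16479280) (l 16510440)) (l 16479256)) (l 16478584)))) (c (a (l 16455088) (l 16353960))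 (c (l 16325728) (l 16346296))))), by decide +kernel⟩

def k25_pm_202 : ∃ t, chk3 f_pm_202 t 25 68 2 = true :=
  ⟨(a (b (a (b (a (c (b (a (l 16160512) (l 16165016)) (a (l 16137712) (b (l 16152000) (l 16159032)))) (b (l 16106528) (a (l 16102576) (b (l 16095520) (l 16071248))))) (c (l 16164568) (l 16108216))) (a (c (l 16171008) (l 16116160)) (c (b (a (b (l 16142416) (l 16143208)) (l 16141376)) (a (l 16153408) (b (l 16135408) (l 16140264)))) (b (a (c (l 16101096) (l 16074672)) (l 16085256)) (c (l 16103480) (l 16078264)))))) (c (a (b (l 16176096) (a (b (l 16146344) (b (l 16133056) (a (l 16128992) (l 16126464)))) (l 16143160))) (l 16169944)) (b (l 16125624) (a (b (l 16093064) (a (c (l 16088672) (l 16063272)) (l 16078520))) (l 16096208))))) (a (c (l 16197480) (c (l 16155720) (l 16136192))) (b (c (a (b (a (l 16134392) (b (l 16122752) (l 16122272))) (l 16140232)) (b (l 16125240) (a (b (a (l 16115848) (l 16112064)) (l 16118184)) (b (l 16114504) (l 16121512))))) (a (b (a (l 16079696) (c (l 16080608) (b (l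 16055064) (l 16055480)))) (l 16086648)) (a (b (l 16035872) (c (l 16074144) (l 16051976))) (c (l 16077024) (l 16054208))))) (c (c (l 16117464) (l 16130608)) (c (l 16102368) (l 16083984)))))) (a (b (c (l 16188344) (l 16132576)) (b (c (l 16133936) (l 16079520)) (c (a (b (a (b (l 16103240) (a (l 16102520) (l 16097744))) (l 16103848)) (a (l 16108784) (b (a (l 16094104) (l 16092344)) (l 16095344)))) (c (l 16119008) (l 16089640))) (a (a (b (c (l 16059864) (l 16039720)) (l 16057104)) (b (l 16050552) (c (l 16052448) (l 16034688)))) (c (l 16060840) (l 16041992)))))) (c (l 16135368) (c (l 16134232) (l 16111920))))), by decide +kernel⟩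

def k26_pm_202 : ∃ t, chk3 f_pm_202 t 25 68 3 = true :=
  ⟨(a (b (a (b (a (c (b (l 16076144) (l 16072912)) (l 16069112)) (l 16074504)) (a (l 16088720) (c (b (l 16063008) (l 16068272)) (l 16060072)))) (c (a (l 16076264) (l 16087032)) (l 16074624))) (a (l 16125432) (b (a (c (b (l 16054784) (l 16068112)) (l 16054472)) (a (b (l 16042312) (l 16040176)) (l 16041544))) (c (l 16077560) (l 16069752))))) (a (b (l 16101064) (b (l 16055352) (a (c (b (l 16034128) (l 16035872)) (l 16029088)) (l 16030864)))) (c (l 16099800) (l 16092720)))), by decide +kernel⟩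

def k27_pm_202 : ∃ t, chk3 f_pm_202 t 25 69 1 = true :=
  ⟨(a (c (c (c (a (l 16294608) (l 16229376)) (l 16150720)) (c (c (l 16111184) (l 16124648)) (l 16183080))) (c (l 16178616) (l 16193400))) (c (b (a (c (a (l 16135984) (b (b (a (b (l 16086776) (l 16091584)) (b (l 16084352) (a (l 16079856) (l 16077536)))) (l 16093696)) (l 16115088))) (b (a (l 16072976) (b (c (a (l 16046456) (l 16039424)) (a (l 16031328) (l 16003248))) (c (l 16051040) (l 16038544)))) (l 16045992))) (b (c (a (b (l 16088896) (a (b (l 16073744) (l 16072368)) (l 16073928))) (l 16092256)) (a (b (l 16038128) (a (c (b (l 16030456) (l 16029432)) (l 15997648)) (l 16024704))) (l 16042600))) (b (c (a (a (l 16081056) (b (a (l 16065304) (l 16062704)) (l 16066832))) (a (l 16063000) (l 16068088))) (a (c (a (l 16039080) (b (l 16022216) (l 16024736))) (l 16022240)) (c (l 16002464) (l 15991904)))) (c (a (l 16086424) (a (b (l 16057616) (l 16062704)) (b (l 16054584) (l 16060456)))) (a (l 16041544) (a (c (b (l 16015968) (l 16021832)) (l 16010840))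 (c (c (l 16016520) (l 15985936)) (l 15982232)))))))) (c (a (l 16175200) (a (l 16122360) (l 16065232))) (c (a (l 16141000) (b (l 16051992) (l 16085048))) (l 16057288)))) (b (a (a (l 16073480) (b (a (l 16029056) (b (l 16013384) (l 16018656))) (l 16054784))) (b (a (c (b (l 16023816) (l 16013096)) (l 16010752)) (l 16024320)) (a (c (l 16023848) (l 16015168)) (b (l 16001696) (a (l 15999616) (l 15991832)))))) (c (l 16030488) (l 16085632))))), by decide +kernel⟩

def k28_pm_202 : ∃ t, chk3 f_pm_202 t 25 35 1 = true :=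
  ⟨(c (a (b (c (c (l 16263408) (c (l 16224528) (l 16238408))) (l 16212280)) (c (c (b (l 16361696) (c (l 16438256) (l 16476648))) (l 16382696)) (l 16380616))) (c (b (c (a (l 16270672) (l 16201736)) (b (c (l 16188088) (l 16156216)) (l 16159504))) (c (b (c (l 16321552) (l 16290096)) (c (l 16311976) (l 16370792))) (l 16253960))) (b (c (l 16142096) (l 16181000)) (l 16250392)))) (a (c (b (l 16313104) (l 16419824)) (l 16269224)) (c (b (l 16176168) (l 16308592)) (l 16132672)))), by decide +kernel⟩

def k29_pm_202 : ∃ t, chk3 f_pm_202 t 26 34 1 = true :=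
  ⟨(a (c (b (c (a (l 16158888) (l 16202336)) (c (l 16116368) (a (l 16114376) (l 16136368)))) (b (c (a (l 16089912) (l 16089840)) (c (a (l 16048056) (l 16047672)) (l 16035272))) (a (c (b (a (b (a (b (l 16044000) (l 16042496)) (l 16044312)) (a (l 16051000) (b (l 16034856) (l 16036376)))) (a (l 16039216) (l 16037376))) (a (l 16063448) (b (a (b (l 16024216) (l 16028648)) (b (l 16014520) (l 16009016))) (l 16026696)))) (b (a (b (a (c (b (l 15982608) (l 16002960)) (l 15976416)) (l 16000792)) (a (l 16010152) (c (b (l 15975176) (l 15977792)) (l 15992576)))) (c (a (l 16000520) (l 15998592)) (l 15992648))) (a (l 16026728) (b (a (c (l 15991176) (l 15985816)) (c (b (l 15977704) (l 15952432)) (l 15950032))) (l 15990664))))) (c (a (b (l 16035400) (a (b (l 16008504) (b (l 15995608) (l 15993088))) (l 15998144))) (l 16014640)) (b (l 15991664) (a (a (b (l 15969464) (b (l 15937496) (l 15936248))) (l 15960216)) (l 15958056))))))) (b (c (l 16123928) (l 16117128)) (b (c (l 16028888) (l 16020240)) (a (b (a (c (b (l 15991664)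 (l 15993904)) (b (l 15982488) (l 15984736))) (l 15981024)) (a (l 16013224) (b (a (l 15974048) (l 15958976)) (l 15976648)))) (a (b (l 15977688) (c (a (l 15955200) (l 15950216)) (l 15943928))) (l 15958984)))))) (c (c (b (l 16199480) (l 15963056)) (b (c (l 16155440) (l 16132672)) (c (b (l 16041824) (l 15971864)) (l 15996736)))) (c (b (l 16120496) (l 15989984)) (l 16046784)))), by decide +kernel⟩

def k30_pm_202 : ∃ t, chk3 f_pm_202 t 52 70 1 = true :=
  ⟨(c (a (c (c (l 16063520) (a (l 16062552) (b (l 16049288) (l 16111576)))) (l 16007104)) (b (c (b (a (b (a (l 16000424) (b (l 15978016) (l 15978080))) (l 16001456)) (b (l 15968696) (a (b (a (l 15964408) (l 15956640)) (l 15964216)) (c (l 15944800) (l 15936032))))) (a (l 16023848) (a (l 15983000) (c (l 15970176) (c (l 15947416) (l 15936496)))))) (b (a (b (a (l 15966912) (b (l 15922440) (l 15924232))) (l 15971048)) (a (b (l 15935440) (l 15932864)) (l 15926736))) (a (l 15997496) (l 15942808)))) (c (c (l 16052376) (l 16031056)) (l 16022216)))) (a (c (l 16083336)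 (l 16075272)) (b (c (b (a (b (l 15947736) (l 15961352)) (b (l 15924616) (a (l 15922632) (l 15909320)))) (l 15960600)) (b (a (l 15945744) (l 15912920)) (l 15950864))) (l 16008592)))), by decide +kernel⟩

def k31_pm_202 : ∃ t, chk3 f_pm_202 t 53 70 1 = true :=
  ⟨(c (b (a (c (b (l 15955336) (a (b (a (b (l 15934592) (c (l 15923352) (l 15894432))) (l 15928632)) (a (c (l 15949072) (l 15921352)) (c (l 15930248) (b (l 15880880) (l 15879056))))) (l 15917760))) (a (b (l 15923616) (b (a (l 15883520) (l 15899736)) (a (l 15909080) (l 15868888)))) (l 15905040))) (c (l 15932368) (l 15900968))) (a (a (c (c (l 15970352) (l 15948344)) (l 15938616)) (b (c (b (a (c (l 15892336) (b (l 15864096) (l 15864792))) (l 15890304)) (a (l 15909176) (c (l 15875872) (b (l 15848432) (l 15851568))))) (b (a (l 15854816) (l 15865712)) (a (l 15887040) (l 15862192)))) (c (l 15918656) (l 15899136)))) (b (c (c (l 15890752) (a (l 15845928) (l 15863440))) (l 15854248)) (a (c (b (a (c (l 15859824) (l 15837344)) (c (l 15844544) (l 15821928)))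 (c (l 15879240) (l 15859336))) (b (a (l 15849032) (l 15812480)) (l 15850592))) (c (b (l 15828832) (c (l 15824224) (a (l 15806104) (l 15821328)))) (a (l 15803376) (l 15820048))))))) (b (a (a (b (l 15908304) (a (b (l 15888512) (l 15893176)) (c (l 15884840) (l 15874064)))) (l 15889368)) (l 15885200)) (a (a (l 15923256) (b (c (b (a (l 15864712) (l 15854496)) (l 15864296)) (b (l 15850064) (l 15853200))) (l 15882928))) (b (c (l 15842864) (l 15831480)) (a (b (a (l 15831808) (l 15815896)) (l 15833368)) (c (l 15811112) (l 15799264))))))), by decide +kernel⟩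

def k32_pm_202 : ∃ t, chk3 f_pm_202 t 26 71 1 = true :=
  ⟨(c (a (c (c (a (b (l 16146552) (c (l 16269488) (l 16264944))) (b (l 16109176) (l 16168592))) (a (l 16209528) (l 16130024))) (a (l 16204768) (l 16124184))) (a (c (c (b (l 16000312) (l 16060920)) (l 16020936)) (l 16013944)) (b (c (a (l 15909808) (b (b (a (l 15841560) (c (l 15808472) (l 15790992))) (l 15842768)) (l 15867384))) (a (l 15893888) (b (b (a (l 15823768) (l 15781944)) (l 15826400)) (l 15852776)))) (c (c (l 15949016) (l 15941704)) (l 15933880))))) (a (c (l 16021256) (l 16119072)) (a (l 15916112) (b (a (l 15877504) (a (l 15832808) (b (c (l 15765064) (l 15784448)) (l 15820432)))) (l 15918224))))), by decide +kernel⟩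

def k33_pm_202 : ∃ t, chk3 f_pm_202 t 27 17 1 = true :=
  ⟨(b (c (c (a (b (l 16198208) (l 16041152)) (l 16014688)) (a (b (l 16100888) (c (l 16001336) (l 15990104))) (b (l 16144024) (l 15993432)))) (c (a (l 15986704) (l 16027304)) (a (l 16042024) (l 16040624)))) (b (c (c (a (c (l 15902096) (l 15855888)) (l 15820304)) (a (l 15861584) (l 15853864))) (a (l 15845072) (l 15837160))) (a (c (b (a (b (c (a (b (l 15791328) (a (c (l 15791336) (l 15776464)) (l 15773768))) (l 15780136)) (a (b (l 15794056) (a (l 15767192) (l 15777672))) (l 15783024))) (a (c (a (l 15823416) (c (b (l 15774824) (l 15806872)) (l 15790352))) (a (l 15808184) (l 15780984))) (a (c (b (l 15755960) (c (l 15758896) (l 15748056))) (b (l 15760840) (l 15738464))) (c (c (l 15752528) (l 15740312)) (l 15730640))))) (c (l 15780432) (l 15762600))) (a (c (a (l 15858568) (b (c (l 15787064) (l 15778176)) (l 15815456))) (a (l 15845672) (l 15785944))) (b (a (c (b (c (l 15724712) (l 15715232)) (a (l 15724424) (l 15705184))) (b (l 15705288) (a (l 15731448)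 (l 15690968)))) (l 15698960)) (a (c (l 15755184) (l 15741776)) (b (c (a (l 15689008) (l 15702240)) (l 15693232)) (a (l 15689560) (c (l 15673264) (l 15659272)))))))) (b (a (b (a (a (c (l 15780560) (l 15768272)) (l 15766888)) (l 15764368)) (a (c (l 15783088) (l 15770800)) (b (l 15740624) (a (l 15740248) (l 15724800))))) (l 15743496)) (a (c (l 15803944) (l 15791888)) (b (a (b (l 15706360) (a (l 15711640) (l 15691728))) (l 15692792)) (a (l 15722152) (b (a (l 15675472) (l 15667456)) (a (l 15683432) (l 15659352)))))))) (c (c (c (b (l 15779640) (l 15708784)) (l 15732016)) (l 15722000)) (c (l 15708680) (l 15695360)))))), by decide +kernel⟩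

def k34_pm_202 : ∃ t, chk3 f_pm_202 t 12 9 1 = true :=
  ⟨(b (c (a (b (b (a (c (b (l 16463864) (l 16460544)) (l 16459448)) (c (b (l 16537200) (l 16531480)) (l 16533296))) (a (l 16330624) (c (l 16483872) (l 16502440)))) (a (l 16209432) (l 16249448))) (b (b (a (b (c (l 16493808) (l 16513336)) (l 16530968)) (c (c (l 16379488) (l 16398960)) (l 16375712))) (c (l 16431032) (l 16451608))) (c (l 16320704) (l 16339672)))) (a (b (a (c (l 16368960) (l 16428584)) (b (l 16511112) (l 16498832))) (a (l 16260216) (l 16366128))) (b (a (c (l 16454648) (l 16496368)) (c (l 16350512) (l 16390256))) (b (l 16404296) (l 16396328))))) (a (b (b (c (l 16211128) (l 16196832)) (a (c (b (a (l 16097512) (l 16125480)) (l 16113208)) (b (l 16097520) (l 16095960))) (a (c (l 16089128) (l 16135912)) (l 16186512)))) (b (a (l 16140664) (c (a (l 16148824) (l 16154416)) (l 16137096))) (c (l 16198504) (l 16183480)))) (b (c (l 16143256) (l 16196400)) (a (b (c (b (l 16199192) (a (l 16163640) (l 16184192))) (b (l 16184296) (l 16161928)))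 (c (l 16198528) (l 16183496))) (b (l 16273168) (c (b (l 16198832) (l 16214808)) (b (l 16205376) (l 16200208)))))))), by decide +kernel⟩

def k35_pm_202 : ∃ t, chk3 f_pm_202 t 13 9 1 = true :=
  ⟨(b (a (b (a (c (b (c (a (l 16275352) (l 16240616)) (a (l 16333712) (l 16255616))) (a (l 16458984) (l 16384072))) (b (c (l 16195096) (l 16252688)) (l 16319984))) (c (b (c (b (l 15962432) (l 16133064)) (l 15987216)) (l 16162552)) (c (b (l 16020824) (l 16215520)) (l 15933256)))) (c (a (l 16418416) (l 16282192)) (a (l 16415992) (l 16273832)))) (b (b (a (c (c (l 15724024) (l 15817400)) (c (l 15826824) (l 15836248))) (b (a (c (b (a (b (c (a (l 15657832) (l 15667448)) (l 15660632)) (l 15670880)) (l 15628872)) (a (l 15694352) (b (a (l 15620376) (l 15626552)) (l 15641368)))) (b (a (b (a (l 15643472) (l 15631720)) (l 15642528)) (l 15621128)) (a (l 15666600) (b (a (l 15612160) (l 15596952)) (l 15612152))))) (c (c (l 15636840) (l 15622144)) (a (l 15601792) (l 15597824)))) (a (c (l 15715488) (l 15688224)) (a (a (c (l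 15636464) (l 15607040)) (b (c (l 15575360) (l 15565840)) (l 15606096))) (c (b (l 15560664) (l 15578472)) (b (l 15550744) (l 15547440))))))) (c (a (l 15999520) (l 15755576)) (a (l 15979920) (l 15729256)))) (c (a (l 16126880) (l 15911872)) (a (l 16112296) (l 15911688))))) (a (b (a (a (l 16376392) (l 16505840)) (c (l 16492112) (l 16469312))) (a (a (c (l 16235072) (l 16244400)) (l 16392408)) (l 16400456))) (a (b (l 16175480) (l 16493616)) (b (a (l 16194928) (l 16076120)) (l 16318528))))), by decide +kernel⟩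

def k36_pm_202 : ∃ t, chk3 f_pm_202 t 14 16 1 = true :=
  ⟨(b (b (c (a (b (l 16505816) (a (l 16558600) (l 16591376))) (a (l 16460032) (l 16507560))) (c (a (b (a (l 16547584) (l 16576400)) (c (l 16571104) (b (l 16634192) (l 16649336)))) (b (b (l 16552920) (l 16587752)) (b (l 16587632) (l 16600248)))) (a (b (c (b (l 16559960) (b (l 16592472) (l 16586768))) (b (c (l 16562296) (l 16521800)) (l 16576160))) (c (l 16601112) (l 16635080))) (b (c (b (l 16565272) (l 16607944)) (b (c (l 16567504) (l 16547912)) (l 16585448))) (c (l 16637584) (l 16671480)))))) (c (b (a (a (c (l 16572144) (l 16610928)) (c (l 16602272) (l 16620400))) (c (l 16519416) (l 16580088))) (a (c (l 16485104) (a (l 16558264) (l 16588264))) (c (l 16567848) (c (l 16601168) (l 16611712))))) (a (c (a (b (l 16586064) (l 16541000)) (b (l 16616792) (l 16570672))) (a (l 16502888) (l 16533312))) (c (c (l 16483064) (l 16510976)) (l 16488864))))) (c (a (b (c (a (l 16414320) (l 16447912)) (a (l 16378640) (l 16391064))) (c (a (l 16374584) (l 16389248))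 (l 16260064))) (b (c (a (l 16497136) (l 16521168)) (b (l 16483368) (l 16465192))) (a (l 16181216) (l 16344312)))) (a (a (c (b (l 16415416) (l 16274480)) (l 16296960)) (c (b (l 16427056) (l 16287616)) (l 16265984))) (a (c (l 16186608) (l 16314640)) (l 16135432))))), by decide +kernel⟩

def k37_pm_202 : ∃ t, chk3 f_pm_202 t 14 17 1 = true :=
  ⟨(a (b (c (c (a (l 16080912) (l 16130008)) (a (b (l 16148880) (l 15993552)) (l 15932600))) (a (b (l 16118600) (l 15974976)) (l 15883464))) (c (c (a (b (l 15879192) (l 15647024)) (b (l 15878680) (l 15725504))) (a (l 15781104) (l 15777864))) (a (c (l 15768504) (l 15756008)) (c (l 15765184) (l 15752616))))) (b (c (a (c (l 16137056) (l 15980784)) (c (l 16131792) (l 16016448))) (a (l 15952344) (l 15987472))) (c (c (a (b (l 15877928) (l 15719640)) (l 15789112)) (a (l 15774256) (l 15762352))) (a (l 15755168) (l 15742992))))), by decide +kernel⟩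

def k38_pm_202 : ∃ t, chk3 f_pm_202 t 30 32 1 = true :=
  ⟨(c (b (a (l 16478520) (a (l 16491536) (b (l 16370096) (b (l 16584784) (l 16642256))))) (c (b (l 16545040) (l 16625192)) (a (l 16464144) (l 16530016)))) (b (b (a (c (l 16569896) (b (l 16471560) (c (l 16598424) (l 16596696)))) (c (a (l 16533680) (l 16445064)) (c (b (l 16502960) (l 16527464)) (b (a (l 16516936) (l 16491944)) (l 16546280))))) (a (c (l 16596752) (l 16635952)) (c (b (a (l 16610872) (l 16539592)) (l 16635288)) (c (l 16584528) (l 16617832))))) (c (c (l 16511056) (l 16517744)) (l 16495216)))), by decide +kernel⟩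

def k39_pm_202 : ∃ t, chk3 f_pm_202 t 31 32 1 = true :=
  ⟨(c (a (b (c (b (a (l 16492680) (l 16496288)) (a (l 16602720) (l 16597376))) (b (l 16431968) (a (l 16555376) (l 16557360)))) (c (b (a (l 16709384) (l 16695592)) (l 16653432)) (b (a (l 16668752) (l 16661560)) (a (l 16714024) (l 16697296))))) (b (c (a (l 16399272) (l 16448288)) (b (a (l 16515864) (l 16530616)) (a (l 16541816) (b (l 16590200) (l 16606368))))) (c (b (a (l 16681144) (l 16630224)) (l 16635744)) (b (a (l 16658664) (l 16621208)) (l 16615312))))) (b (c (a (b (c (l 16498480) (l 16503256)) (c (a (l 16562672) (l 16584600)) (b (l 16560680) (l 16576032)))) (b (a (c (l 16524384) (l 16525968)) (c (l 16543616) (l 16488144))) (c (a (l 16597728) (l 16522352)) (a (l 16539688) (l 16534312))))) (a (b (c (b (l 16487320) (l 16522824)) (b (l 16468200) (l 16520488))) (c (l 16526936) (l 16580920))) (b (c (a (b (l 16508712) (l 16539336)) (b (l 16517240) (c (l 16568208) (l 16562072)))) (a (b (l 16490392) (l 16537112)) (b (c (l 16475504) (b (l 16532736)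 (l 16543280))) (l 16517424)))) (c (a (l 16574600) (l 16530816)) (l 16506160))))) (a (c (a (c (l 16526152) (l 16645712)) (c (l 16512464) (l 16563448))) (c (l 16531592) (l 16560000))) (c (c (b (l 16583416) (l 16680952)) (a (l 16604856) (l 16609984))) (c (a (l 16682624) (l 16649712)) (l 16582552)))))), by decide +kernel⟩

def k40_pm_202 : ∃ t, chk3 f_pm_202 t 15 33 1 = true :=
  ⟨(a (a (c (b (c (l 16523536) (l 16481832)) (l 16329592)) (l 16188952)) (c (b (c (l 16584456) (l 16516032)) (l 16347288)) (l 16241072))) (c (a (b (a (l 16451728) (c (l 16663768) (l 16473176))) (l 16339440)) (b (c (a (l 16648400) (l 16746808)) (b (l 16607152) (l 16675808))) (c (b (l 16633632) (l 16506160)) (a (l 16405608) (l 16499552))))) (a (b (b (c (l 16470072) (l 16614688)) (l 16523856)) (l 16377856)) (c (b (a (c (l 16663640) (l 16647920)) (l 16625064)) (a (l 16392808) (l 16392168))) (b (a (l 16624136) (l 16672440)) (a (l 16456352) (l 16453952))))))), by decide +kernel⟩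

def k41_pm_202 : ∃ t, chk3 f_pm_202 t 15 17 1 = true :=
  ⟨(a (c (b (a (c (l 16135552) (l 16077088)) (l 15917216)) (a (c (l 15726624) (l 15757376)) (c (l 15793128) (l 15775808)))) (b (a (l 16047640) (l 16077656)) (a (l 15737864) (l 15759664)))) (b (a (c (l 15933144) (l 16102320)) (b (c (l 16332848) (l 16241560)) (c (l 16127840) (l 16097256)))) (c (a (c (l 15805784) (l 15793672)) (l 15848088)) (a (l 15787216) (l 15786032))))), by decide +kernel⟩

def k42_pm_202 : ∃ t, chk3 f_pm_202 t 14 9 1 = true :=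
  ⟨(b (a (a (b (b (b (c (l 15620104) (l 15590536)) (a (c (l 15560200) (l 15528696)) (l 15536568))) (a (b (c (a (l 15562336) (b (l 15491880) (l 15513760))) (b (a (l 15514464) (l 15479984)) (l 15513912))) (l 15580232)) (b (c (l 15490168) (l 15456656)) (c (a (l 15496872) (b (l 15422064) (l 15446392))) (a (l 15463448) (b (l 15408176) (l 15411568))))))) (c (l 15699048) (l 15670888))) (b (b (c (l 15577528) (l 15546752)) (a (a (c (l 15452584) (l 15417992)) (l 15429592)) (l 15424680))) (b (a (b (c (a (l 15428208) (l 15378080)) (a (l 15392816) (b (l 15334880) (l 15339128)))) (l 15443544)) (b (c (l 15346920) (l 15309312)) (a (l 15274504) (b (l 15279376) (l 15282832))))) (c (l 15492984) (l 15459112))))) (b (c (a (b (l 15566688) (l 15429864)) (l 15475888)) (a (l 15464768) (l 15442280))) (a (b (a (c (l 15304664) (l 15265840)) (l 15269128)) (a (b (c (l 15175496) (a (l 15240992) (l 15186840))) (l 15290464)) (b (l 15107376) (c (l 15174488) (a (l 15154240) (l 15098216)))))) (c (l 15198696) (l 15156864))))) (a (b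 (a (c (l 15962136) (l 15940896)) (c (l 15698832) (l 15670336))) (c (l 15902368) (l 15843192))) (a (b (c (l 15410664) (l 15374256)) (l 15527856)) (b (b (a (b (c (l 15085368) (l 15040208)) (l 15107056)) (b (l 14998464) (c (l 14994752) (l 14946976)))) (l 15143744)) (l 15339752))))), by decide +kernel⟩

def k43_pm_202 : ∃ t, chk3 f_pm_202 t 15 9 1 = true :=
  ⟨(b (a (c (b (a (l 15460024) (l 15468088)) (a (l 15172080) (l 15169368))) (b (l 15393600) (l 15133504))) (c (a (b (l 15481408) (l 15173448)) (l 15100536)) (a (b (l 15466032) (l 15148920)) (b (l 15451416) (l 15170848))))) (a (b (a (b (l 14942664) (a (b (c (l 14911552) (l 14861336)) (l 14927440)) (c (l 14859568) (l 14807240)))) (c (l 14892848) (l 14851416))) (a (c (l 15070712) (l 14857840)) (a (b (c (b (l 14768400) (l 14788096)) (b (l 14719784) (l 14739880))) (l 14878384)) (b (c (l 14723480) (l 14679176)) (c (l 14741800) (l 14697704)))))) (a (a (b (l 14682480) (b (l 14692176) (c (l 14632976) (b (l 14589192) (l 14582048))))) (c (l 14764048) (l 14730416)))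 (c (l 14776232) (l 14588528))))), by decide +kernel⟩

def k44_pm_202 : ∃ t, chk3 f_pm_202 t 6 5 1 = true :=
  ⟨(b (a (b (a (c (b (l 16274528) (a (l 16378792) (l 16372176))) (b (l 16261480) (l 16367328))) (c (l 16321576) (l 16309744))) (a (c (b (l 16477840) (l 16576752)) (l 16432400)) (c (b (l 16464912) (l 16558520)) (b (l 16456800) (l 16552848))))) (b (a (b (a (b (a (l 16244648) (b (l 16274976) (l 16275656))) (l 16302880)) (b (b (l 16392128) (a (l 16315344) (l 16384208))) (c (l 16357992) (l 16347368)))) (c (l 16402256) (l 16392672))) (b (a (b (l 16505480) (a (b (l 16422688) (l 16402480)) (l 16383784))) (l 16497864)) (a (c (l 16471344) (l 16463976)) (b (a (b (l 16485520) (l 16495192)) (b (l 16596888) (l 16509176))) (c (l 16542072) (l 16536968)))))) (c (a (l 16537432) (l 16622328)) (a (l 16531376) (l 16598328))))) (a (b (a (c (l 16699152) (l 16697152)) (c (l 16584176) (l 16602864))) (c (l 16775568) (l 16775528))) (b (a (c (b (l 16670008) (l 16756208)) (b (l 16667448) (l 16756080))) (c (l 16665808)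 (l 16663696))) (a (c (l 16727536) (l 16684296)) (b (l 16568328) (l 16526296)))))), by decide +kernel⟩

def k45_pm_202 : ∃ t, chk3 f_pm_202 t 7 10 1 = true :=
  ⟨(a (b (a (a (b (l 16341952) (b (l 16583880) (c (a (l 16598920) (l 16667568)) (b (l 16538344) (l 16493360))))) (b (l 16099320) (l 16326672))) (a (c (l 15974072) (l 15852160)) (c (l 15788560) (l 15616464)))) (a (a (c (l 16693760) (l 16609744)) (b (b (c (l 16428360) (b (l 16484024) (l 16507824))) (l 16559424)) (l 16585080))) (b (a (a (b (l 16489016) (b (l 16479432) (l 16571224))) (c (l 16352568) (l 16176584))) (l 16143360)) (a (c (l 16500360) (l 16494704)) (b (c (l 16256608) (a (l 16370952) (l 16303456))) (c (l 16375920) (l 16366824))))))) (a (b (c (a (l 15519808) (l 15183952)) (a (l 15340032) (l 15129192))) (a (b (l 15808256) (b (l 16099880) (c (l 16181152) (a (l 16251376) (l 16138384))))) (c (l 15758616) (l 15698728)))) (b (b (a (a (l 14633592) (b (c (l 14568288) (b (l 14500128) (l 14539560))) (l 14666688))) (c (b (l 14492504) (a (l 14528040)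 (l 14421816))) (b (a (a (l 14449008) (l 14431800)) (l 14430544)) (a (l 14486152) (b (l 14350624) (l 14353640)))))) (c (l 14811672) (a (l 14988992) (l 14634040)))) (c (a (l 15448904) (l 15130104)) (a (l 15283760) (c (l 15102944) (l 15005880))))))), by decide +kernel⟩

def k46_pm_202 : ∃ t, chk3 f_pm_202 t 7 11 1 = true :=
  ⟨(a (a (b (c (l 16514952) (l 16508840)) (c (l 16438168) (l 16429360))) (c (b (l 16333952) (l 16253400)) (b (l 16323104) (l 16239800)))) (b (a (b (a (c (l 16207728) (l 16048192)) (c (b (l 16048856) (l 16085256)) (b (a (l 16104528) (l 15983112)) (l 16014504)))) (c (l 16090728) (l 16073264))) (b (a (c (l 15783224) (a (l 15853088) (l 15747104))) (c (l 15531600) (l 15511632))) (a (c (b (l 15934456) (l 15918288)) (b (a (l 15980296) (l 15897760)) (l 15914440))) (c (l 15531400) (b (l 15678208) (a (l 15831864) (l 15729104))))))) (a (c (l 16045640) (l 16026648)) (c (l 15850200) (a (l 15887032) (c (l 15790784) (l 15788120))))))), by decide +kernel⟩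

def k47_pm_202 : ∃ t, chk3 f_pm_202 t 1 3 1 = true :=
  ⟨(b (b (a (b (a (a (l 4) (c (l 16777216) (l 16777216))) (c (a (l 16777216) (l 16777216)) (a (l 16777216) (l 16777216)))) (a (l 4) (c (a (l 16777216) (l 16777216)) (a (l 16777216) (l 16777216))))) (a (a (c (c (l 16777216) (l 16777216)) (c (l 16777216) (l 16777216))) (c (a (l 16729216) (l 16593576)) (a (l 16727968) (l 16588816)))) (a (a (b (c (l 16437688) (l 16428864)) (l 16433656)) (b (c (l 16253288) (l 16239680)) (c (l 16253280) (l 16239672)))) (c (a (l 16045520) (l 15850352)) (a (l 16026520) (c (l 15845568) (l 15842032))))))) (a (a (l 4) (b (c (a (l 16777216) (l 16777216)) (a (l 16777216) (l 16777216))) (a (l 4) (c (l 16777216) (l 16777216))))) (a (a (c (c (l 16777216) (l 16777216)) (c (l 16777216) (l 16777216))) (c (a (l 16729216) (l 16592424)) (a (l 16727968) (l 16587624)))) (a (c (a (l 16438056) (l 16253288)) (a (l 16429248) (l 16239680))) (a (c (l 16045520) (l 16026520)) (c (l 15850336) (l 15845808))))))) (b (a (a (l 2) (a (l 2) (b (c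 (l 16777216) (l 16777216)) (l 2)))) (a (a (b (c (l 16777216) (l 16777216)) (l 2)) (c (l 16662200) (a (l 16727968) (l 16587624)))) (a (c (l 16347472) (l 16336304)) (c (a (l 16045520) (l 15850352)) (a (l 16026520) (l 15845824)))))) (a (l 2) (a (l 2) (a (c (l 16347472) (l 16336304)) (c (l 15954576) (l 15952016))))))), by decide +kernel⟩

theorem s48_pm_202 : ∃ t, chk3 f_pm_202 t 7 5 1 = true := ex3_b k45_pm_202 k46_pm_202

theorem s49_pm_202 : ∃ t, chk3 f_pm_202 t 3 5 1 = true := ex3_a k44_pm_202 s48_pm_202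

theorem s50_pm_202 : ∃ t, chk3 f_pm_202 t 7 9 1 = true := ex3_a k42_pm_202 k43_pm_202

theorem s51_pm_202 : ∃ t, chk3 f_pm_202 t 15 32 1 = true := ex3_a k38_pm_202 k39_pm_202

theorem s52_pm_202 : ∃ t, chk3 f_pm_202 t 15 16 1 = true := ex3_b s51_pm_202 k40_pm_202

theorem s53_pm_202 : ∃ t, chk3 f_pm_202 t 15 8 1 = true := ex3_b s52_pm_202 k41_pm_202

theorem s54_pm_202 : ∃ t, chk3 f_pm_202 t 14 8 1 = true := ex3_b k36_pm_202 k37_pm_202

theorem s55_pm_202 : ∃ t, chk3 f_pm_202 t 7 8 1 = true := ex3_a s54_pm_202 s53_pm_202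

theorem s56_pm_202 : ∃ t, chk3 f_pm_202 t 7 4 1 = true := ex3_b s55_pm_202 s50_pm_202

theorem s57_pm_202 : ∃ t, chk3 f_pm_202 t 6 9 1 = true := ex3_a k34_pm_202 k35_pm_202

theorem s58_pm_202 : ∃ t, chk3 f_pm_202 t 26 70 1 = true := ex3_a k30_pm_202 k31_pm_202

theorem s59_pm_202 : ∃ t, chk3 f_pm_202 t 26 35 1 = true := ex3_b s58_pm_202 k32_pm_202

theorem s60_pm_202 : ∃ t, chk3 f_pm_202 t 26 17 1 = true := ex3_b k29_pm_202 s59_pm_202

theorem s61_pm_202 : ∃ t, chk3 f_pm_202 t 13 17 1 = true := ex3_a s60_pm_202 k33_pm_202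

theorem s62_pm_202 : ∃ t, chk3 f_pm_202 t 25 68 1 = true := ex3_c k25_pm_202 k26_pm_202

theorem s63_pm_202 : ∃ t, chk3 f_pm_202 t 25 34 1 = true := ex3_b s62_pm_202 k27_pm_202

theorem s64_pm_202 : ∃ t, chk3 f_pm_202 t 25 17 1 = true := ex3_b s63_pm_202 k28_pm_202

theorem s65_pm_202 : ∃ t, chk3 f_pm_202 t 12 17 1 = true := ex3_a k24_pm_202 s64_pm_202

theorem s66_pm_202 : ∃ t, chk3 f_pm_202 t 6 17 1 = true := ex3_a s65_pm_202 s61_pm_202

theorem s67_pm_202 : ∃ t, chk3 f_pm_202 t 13 16 1 = true := ex3_b k22_pm_202 k23_pm_202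

theorem s68_pm_202 : ∃ t, chk3 f_pm_202 t 24 67 1 = true := ex3_c k19_pm_202 k20_pm_202

theorem s69_pm_202 : ∃ t, chk3 f_pm_202 t 12 67 1 = true := ex3_a s68_pm_202 k21_pm_202

theorem s70_pm_202 : ∃ t, chk3 f_pm_202 t 12 33 1 = true := ex3_b k18_pm_202 s69_pm_202

theorem s71_pm_202 : ∃ t, chk3 f_pm_202 t 12 16 1 = true := ex3_b k17_pm_202 s70_pm_202

theorem s72_pm_202 : ∃ t, chk3 f_pm_202 t 6 16 1 = true := ex3_a s71_pm_202 s67_pm_202

theorem s73_pm_202 : ∃ t, chk3 f_pm_202 t 6 8 1 = true := ex3_b s72_pm_202 s66_pm_202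

theorem s74_pm_202 : ∃ t, chk3 f_pm_202 t 6 4 1 = true := ex3_b s73_pm_202 s57_pm_202

theorem s75_pm_202 : ∃ t, chk3 f_pm_202 t 3 4 1 = true := ex3_a s74_pm_202 s56_pm_202

theorem s76_pm_202 : ∃ t, chk3 f_pm_202 t 3 2 1 = true := ex3_b s75_pm_202 s49_pm_202

theorem s77_pm_202 : ∃ t, chk3 f_pm_202 t 5 9 1 = true := ex3_b k14_pm_202 k15_pm_202

theorem s78_pm_202 : ∃ t, chk3 f_pm_202 t 2 9 1 = true := ex3_a k13_pm_202 s77_pm_202

theorem s79_pm_202 : ∃ t, chk3 f_pm_202 t 5 17 1 = true := ex3_a k11_pm_202 k12_pm_202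

theorem s80_pm_202 : ∃ t, chk3 f_pm_202 t 11 33 1 = true := ex3_a k9_pm_202 k10_pm_202

theorem s81_pm_202 : ∃ t, chk3 f_pm_202 t 22 32 1 = true := ex3_b k6_pm_202 k7_pm_202

theorem s82_pm_202 : ∃ t, chk3 f_pm_202 t 11 32 1 = true := ex3_a s81_pm_202 k8_pm_202

theorem s83_pm_202 : ∃ t, chk3 f_pm_202 t 11 16 1 = true := ex3_b s82_pm_202 s80_pm_202

theorem s84_pm_202 : ∃ t, chk3 f_pm_202 t 10 16 1 = true := ex3_b k4_pm_202 k5_pm_202

theorem s85_pm_202 : ∃ t, chk3 f_pm_202 t 5 16 1 = true := ex3_a s84_pm_202 s83_pm_202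

theorem s86_pm_202 : ∃ t, chk3 f_pm_202 t 5 8 1 = true := ex3_b s85_pm_202 s79_pm_202

theorem s87_pm_202 : ∃ t, chk3 f_pm_202 t 9 16 1 = true := ex3_b k1_pm_202 k2_pm_202

theorem s88_pm_202 : ∃ t, chk3 f_pm_202 t 4 16 1 = true := ex3_a k0_pm_202 s87_pm_202

theorem s89_pm_202 : ∃ t, chk3 f_pm_202 t 4 8 1 = true := ex3_b s88_pm_202 k3_pm_202

theorem s90_pm_202 : ∃ t, chk3 f_pm_202 t 2 8 1 = true := ex3_a s89_pm_202 s86_pm_202

theorem s91_pm_202 : ∃ t, chk3 f_pm_202 t 2 4 1 = true := ex3_b s90_pm_202 s78_pm_202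

theorem s92_pm_202 : ∃ t, chk3 f_pm_202 t 2 2 1 = true := ex3_b s91_pm_202 k16_pm_202

theorem s93_pm_202 : ∃ t, chk3 f_pm_202 t 1 2 1 = true := ex3_a s92_pm_202 s76_pm_202

theorem s94_pm_202 : ∃ t, chk3 f_pm_202 t 1 1 1 = true := ex3_b s93_pm_202 k47_pm_202

theorem c_pm_202 : CertFX 0 536870912 0 536870912 1046898278 26843546 true true false .pp 2 0 2
    ndF0q2 ndF5q0 pcF2 Cut.none Ext.none :=
  certFX0 (fam := true) (s1 := true) (s2 := false) (a := 2) (b := 0) (c := 2) (cn := .pp) (n1 := ndF0q2) (n2 := ndF5q0) (pc := pcF2) (cut := Cut.none) (xt := Ext.none) (P1 := 0) (W1 := 536870912) (P2 := 0) (W2 := 536870912) (P3 := 1046898278) (W3 := 26843546)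
    rfl s94_pm_202

noncomputable def f_pm_203 : ℕ → ℕ → ℕ → ℕ → Bool := onCell 0 536870912 1610612736 536870912 1046898278 26843546
    (rowFX 1 true true false .up 2 0 3 (qsf 0 536870912 0 536870912 3) ndF0q2 ndF5q0 pcF3 Cut.none Ext.none)

def k0_pm_203 : ∃ t, chk3 f_pm_203 t 1 1 1 = true :=
  ⟨(b (a (a (l 4) (a (l 4) (b (b (l 4) (l 4)) (l 4)))) (b (b (a (c (a (l 16777216) (l 16662200)) (a (l 16777216) (l 16659216))) (a (c (l 16347472) (l 16336304)) (c (l 15954576) (l 15952016)))) (a (a (l 4) (b (c (l 16662200) (l 16659216)) (l 4))) (a (c (l 16347472) (l 16336304)) (l 2)))) (a (l 2) (l 2)))) (l 2)), by decide +kernel⟩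

theorem c_pm_203 : CertFX 0 536870912 0 536870912 1046898278 26843546 true true false .up 2 0 3
    ndF0q2 ndF5q0 pcF3 Cut.none Ext.none :=
  certFX1 (fam := true) (s1 := true) (s2 := false) (a := 2) (b := 0) (c := 3) (cn := .up) (n1 := ndF0q2) (n2 := ndF5q0) (pc := pcF3) (cut := Cut.none) (xt := Ext.none) (P1 := 0) (W1 := 536870912) (P2 := 0) (W2 := 536870912) (P3 := 1046898278) (W3 := 26843546)
    rfl (fun _ => rfl) k0_pm_203

noncomputable def f_pm_213 : ℕ → ℕ → ℕ → ℕ → Bool := onCell 0 536870912 1610612736 536870912 1046898278 26843546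
    (rowFX 1 true true false .pnn 2 1 3 (qsf 0 536870912 536870912 469762048 3) ndF0q2 ndF5q1 pcF3 Cut.none Ext.none)

def k0_pm_213 : ∃ t, chk3 f_pm_213 t 1 1 1 = true :=
  ⟨(b (b (b (a (l 1) (a (l 1) (a (c (l 16347472) (l 16336304)) (c (l 15954576) (l 15952016))))) (a (l 4) (a (a (l 4) (b (c (l 16662200) (l 16659216)) (l 4))) (a (c (l 16347472) (l 16336304)) (c (l 15954576) (l 15952016)))))) (b (a (l 4) (a (l 4) (a (l 4) (b (l 15852200) (l 4))))) (l 4))) (l 4)), by decide +kernel⟩

theorem c_pm_213 : CertFX 0 536870912 536870912 469762048 1046898278 26843546 true true false .pnn 2 1 3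
    ndF0q2 ndF5q1 pcF3 Cut.none Ext.none :=
  certFX1 (fam := true) (s1 := true) (s2 := false) (a := 2) (b := 1) (c := 3) (cn := .pnn) (n1 := ndF0q2) (n2 := ndF5q1) (pc := pcF3) (cut := Cut.none) (xt := Ext.none) (P1 := 0) (W1 := 536870912) (P2 := 536870912) (W2 := 469762048) (P3 := 1046898278) (W3 := 26843546)
    rfl (fun _ => rfl) k0_pm_213

noncomputable def f_mm_001 : ℕ → ℕ → ℕ → ℕ → Bool := onCell 0 536870912 0 536870912 1046898278 26843546
    (rowFX 0 true false false .up 0 0 1 (qsf 0 536870912 0 536870912 1) ndF0q0 ndF5q0 pcF1 Cut.none Ext.none)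

def k0_mm_001 : ∃ t, chk3 f_mm_001 t 1 1 1 = true :=
  ⟨(l 4), by decide +kernel⟩

theorem c_mm_001 : CertFX 0 536870912 0 536870912 1046898278 26843546 true false false .up 0 0 1
    ndF0q0 ndF5q0 pcF1 Cut.none Ext.none :=
  certFX0 (fam := true) (s1 := false) (s2 := false) (a := 0) (b := 0) (c := 1) (cn := .up) (n1 := ndF0q0) (n2 := ndF5q0) (pc := pcF1) (cut := Cut.none) (xt := Ext.none) (P1 := 0) (W1 := 536870912) (P2 := 0) (W2 := 536870912) (P3 := 1046898278) (W3 := 26843546)
    rfl k0_mm_001

noncomputable def f_mm_011 : ℕ → ℕ → ℕ → ℕ → Bool := onCell 0 536870912 536870912 469762048 1046898278 26843546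
    (rowFX 0 true false false .pnn 0 1 1 (qsf 0 536870912 536870912 469762048 1) ndF0q0 ndF5q1 pcF1 Cut.none Ext.none)

def k0_mm_011 : ∃ t, chk3 f_mm_011 t 1 1 1 = true :=
  ⟨(l 4), by decide +kernel⟩

theorem c_mm_011 : CertFX 0 536870912 536870912 469762048 1046898278 26843546 true false false .pnn 0 1 1
    ndF0q0 ndF5q1 pcF1 Cut.none Ext.none :=
  certFX0 (fam := true) (s1 := false) (s2 := false) (a := 0) (b := 1) (c := 1) (cn := .pnn) (n1 := ndF0q0) (n2 := ndF5q1) (pc := pcF1) (cut := Cut.none) (xt := Ext.none) (P1 := 0) (W1 := 536870912) (P2 := 536870912) (W2 := 469762048) (P3 := 1046898278) (W3 := 26843546)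
    rfl k0_mm_011

noncomputable def f_mm_012 : ℕ → ℕ → ℕ → ℕ → Bool := onCell 0 536870912 536870912 469762048 1046898278 26843546
    (rowFX 0 true false false .pnp 0 1 2 (qsf 0 536870912 536870912 469762048 2) ndF0q0 ndF5q1 pcF2 Cut.none Ext.none)

def k0_mm_012 : ∃ t, chk3 f_mm_012 t 1 1 1 = true :=
  ⟨(l 4), by decide +kernel⟩

theorem c_mm_012 : CertFX 0 536870912 536870912 469762048 1046898278 26843546 true false false .pnp 0 1 2
    ndF0q0 ndF5q1 pcF2 Cut.none Ext.none :=
  certFX0 (fam := true) (s1 := false) (s2 := false) (a := 0) (b := 1) (c := 2) (cn := .pnp) (n1 := ndF0q0) (n2 := ndF5q1) (pc := pcF2) (cut := Cut.none) (xt := Ext.none) (P1 := 0) (W1 := 536870912) (P2 := 536870912) (W2 := 469762048) (P3 := 1046898278) (W3 := 26843546)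
    rfl k0_mm_012

noncomputable def f_mm_022 : ℕ → ℕ → ℕ → ℕ → Bool := onCell 0 536870912 1073741824 536870912 1046898278 26843546
    (rowFX 0 true false false .pp 0 2 2 (qsf 0 536870912 1073741824 536870912 2) ndF0q0 ndF5q2 pcF2 Cut.none Ext.none)

def k0_mm_022 : ∃ t, chk3 f_mm_022 t 1 1 1 = true :=
  ⟨(l 4), by decide +kernel⟩

theorem c_mm_022 : CertFX 0 536870912 1073741824 536870912 1046898278 26843546 true false false .pp 0 2 2
    ndF0q0 ndF5q2 pcF2 Cut.none Ext.none :=
  certFX0 (fam := true) (s1 := false) (s2 := false) (a := 0) (b := 2) (c := 2) (cn := .pp) (n1 := ndF0q0) (n2 := ndF5q2) (pc := pcF2) (cut := Cut.none) (xt := Ext.none) (P1 := 0) (W1 := 536870912) (P2 := 1073741824) (W2 := 536870912) (P3 := 1046898278) (W3 := 26843546)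
    rfl k0_mm_022

noncomputable def f_mm_023 : ℕ → ℕ → ℕ → ℕ → Bool := onCell 0 536870912 1073741824 536870912 1046898278 26843546
    (rowFX 0 true false false .up 0 2 3 (qsf 0 536870912 1073741824 536870912 3) ndF0q0 ndF5q2 pcF3 Cut.none Ext.none)

def k0_mm_023 : ∃ t, chk3 f_mm_023 t 1 1 1 = true :=
  ⟨(l 4), by decide +kernel⟩

theorem c_mm_023 : CertFX 0 536870912 1073741824 536870912 1046898278 26843546 true false false .up 0 2 3
    ndF0q0 ndF5q2 pcF3 Cut.none Ext.none :=
  certFX0 (fam := true) (s1 := false) (s2 := false) (a := 0) (b := 2) (c := 3) (cn := .up) (n1 := ndF0q0) (n2 := ndF5q2) (pc := pcF3) (cut := Cut.none) (xt := Ext.none) (P1 := 0) (W1 := 536870912) (P2 := 1073741824) (W2 := 536870912) (P3 := 1046898278) (W3 := 26843546)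
    rfl k0_mm_023

noncomputable def f_mm_033 : ℕ → ℕ → ℕ → ℕ → Bool := onCell 0 536870912 0 1230186008 1046898278 26843546
    (rowFX 0 true false false .pnn 0 3 3 (qsf 0 536870912 0 1230186008 3) ndF0q0 ndF5q3 pcF3 Cut.none Ext.none)

def k0_mm_033 : ∃ t, chk3 f_mm_033 t 1 1 1 = true :=
  ⟨(l 5), by decide +kernel⟩

theorem c_mm_033 : CertFX 0 536870912 0 1230186008 1046898278 26843546 true false false .pnn 0 3 3
    ndF0q0 ndF5q3 pcF3 Cut.none Ext.none :=
  certFX0 (fam := true) (s1 := false) (s2 := false) (a := 0) (b := 3) (c := 3) (cn := .pnn) (n1 := ndF0q0) (n2 := ndF5q3) (pc := pcF3) (cut := Cut.none) (xt := Ext.none) (P1 := 0) (W1 := 536870912) (P2 := 0) (W2 := 1230186008) (P3 := 1046898278) (W3 := 26843546)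
    rfl k0_mm_033

noncomputable def f_mm_101 : ℕ → ℕ → ℕ → ℕ → Bool := onCell 536870912 536870912 0 536870912 1046898278 26843546
    (rowFX 0 true false false .npn 1 0 1 (qsf 536870912 536870912 0 536870912 1) ndF0q1 ndF5q0 pcF1 Cut.none Ext.none)

def k0_mm_101 : ∃ t, chk3 f_mm_101 t 1 1 1 = true :=
  ⟨(a (l 4) (l 4)), by decide +kernel⟩

theorem c_mm_101 : CertFX 536870912 536870912 0 536870912 1046898278 26843546 true false false .npn 1 0 1
    ndF0q1 ndF5q0 pcF1 Cut.none Ext.none :=
  certFX0 (fam := true) (s1 := false) (s2 := false) (a := 1) (b := 0) (c := 1) (cn := .npn) (n1 := ndF0q1) (n2 := ndF5q0) (pc := pcF1) (cut := Cut.none) (xt := Ext.none) (P1 := 536870912) (W1 := 536870912) (P2 := 0) (W2 := 536870912) (P3 := 1046898278) (W3 := 26843546)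
    rfl k0_mm_101

noncomputable def f_mm_102 : ℕ → ℕ → ℕ → ℕ → Bool := onCell 536870912 536870912 0 536870912 1046898278 26843546
    (rowFX 0 true false false .npp 1 0 2 (qsf 536870912 536870912 0 536870912 2) ndF0q1 ndF5q0 pcF2 Cut.none Ext.none)

def k0_mm_102 : ∃ t, chk3 f_mm_102 t 1 1 1 = true :=
  ⟨(b (l 4) (l 4)), by decide +kernel⟩

theorem c_mm_102 : CertFX 536870912 536870912 0 536870912 1046898278 26843546 true false false .npp 1 0 2
    ndF0q1 ndF5q0 pcF2 Cut.none Ext.none :=
  certFX0 (fam := true) (s1 := false) (s2 := false) (a := 1) (b := 0) (c := 2) (cn := .npp) (n1 := ndF0q1) (n2 := ndF5q0) (pc := pcF2) (cut := Cut.none) (xt := Ext.none) (P1 := 536870912) (W1 := 536870912) (P2 := 0) (W2 := 536870912) (P3 := 1046898278) (W3 := 26843546)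
    rfl k0_mm_102

noncomputable def f_mm_112 : ℕ → ℕ → ℕ → ℕ → Bool := onCell 536870912 536870912 536870912 469762048 1046898278 26843546
    (rowFX 0 true false false .dn 1 1 2 (qsf 536870912 536870912 536870912 469762048 2) ndF0q1 ndF5q1 pcF2 Cut.none Ext.none)

def k0_mm_112 : ∃ t, chk3 f_mm_112 t 1 1 1 = true :=
  ⟨(l 4), by decide +kernel⟩

theorem c_mm_112 : CertFX 536870912 536870912 536870912 469762048 1046898278 26843546 true false false .dn 1 1 2
    ndF0q1 ndF5q1 pcF2 Cut.none Ext.none :=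
  certFX0 (fam := true) (s1 := false) (s2 := false) (a := 1) (b := 1) (c := 2) (cn := .dn) (n1 := ndF0q1) (n2 := ndF5q1) (pc := pcF2) (cut := Cut.none) (xt := Ext.none) (P1 := 536870912) (W1 := 536870912) (P2 := 536870912) (W2 := 469762048) (P3 := 1046898278) (W3 := 26843546)
    rfl k0_mm_112

noncomputable def f_mm_113 : ℕ → ℕ → ℕ → ℕ → Bool := onCell 536870912 536870912 536870912 469762048 1046898278 26843546
    (rowFX 0 true false false .nn 1 1 3 (qsf 536870912 536870912 536870912 469762048 3) ndF0q1 ndF5q1 pcF3 Cut.none Ext.none)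

def k0_mm_113 : ∃ t, chk3 f_mm_113 t 1 1 1 = true :=
  ⟨(l 4), by decide +kernel⟩

theorem c_mm_113 : CertFX 536870912 536870912 536870912 469762048 1046898278 26843546 true false false .nn 1 1 3
    ndF0q1 ndF5q1 pcF3 Cut.none Ext.none :=
  certFX0 (fam := true) (s1 := false) (s2 := false) (a := 1) (b := 1) (c := 3) (cn := .nn) (n1 := ndF0q1) (n2 := ndF5q1) (pc := pcF3) (cut := Cut.none) (xt := Ext.none) (P1 := 536870912) (W1 := 536870912) (P2 := 536870912) (W2 := 469762048) (P3 := 1046898278) (W3 := 26843546)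
    rfl k0_mm_113

noncomputable def f_mm_123 : ℕ → ℕ → ℕ → ℕ → Bool := onCell 536870912 536870912 1073741824 536870912 1046898278 26843546
    (rowFX 0 true false false .npn 1 2 3 (qsf 536870912 536870912 1073741824 536870912 3) ndF0q1 ndF5q2 pcF3 Cut.none Ext.none)

def k0_mm_123 : ∃ t, chk3 f_mm_123 t 1 1 1 = true :=
  ⟨(l 4), by decide +kernel⟩

theorem c_mm_123 : CertFX 536870912 536870912 1073741824 536870912 1046898278 26843546 true false false .npn 1 2 3
    ndF0q1 ndF5q2 pcF3 Cut.none Ext.none :=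
  certFX0 (fam := true) (s1 := false) (s2 := false) (a := 1) (b := 2) (c := 3) (cn := .npn) (n1 := ndF0q1) (n2 := ndF5q2) (pc := pcF3) (cut := Cut.none) (xt := Ext.none) (P1 := 536870912) (W1 := 536870912) (P2 := 1073741824) (W2 := 536870912) (P3 := 1046898278) (W3 := 26843546)
    rfl k0_mm_123

noncomputable def f_mm_133 : ℕ → ℕ → ℕ → ℕ → Bool := onCell 1610612736 536870912 0 1230186008 1046898278 26843546
    (rowFX 2 true false false .dn 1 3 3 (qsf 536870912 536870912 0 1230186008 3) ndF0q1 ndF5q3 pcF3 Cut.none Ext.none)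

def k0_mm_133 : ∃ t, chk3 f_mm_133 t 1 1 1 = true :=
  ⟨(l 5), by decide +kernel⟩

theorem c_mm_133 : CertFX 536870912 536870912 0 1230186008 1046898278 26843546 true false false .dn 1 3 3
    ndF0q1 ndF5q3 pcF3 Cut.none Ext.none :=
  certFX2 (fam := true) (s1 := false) (s2 := false) (a := 1) (b := 3) (c := 3) (cn := .dn) (n1 := ndF0q1) (n2 := ndF5q3) (pc := pcF3) (cut := Cut.none) (xt := Ext.none) (P1 := 536870912) (W1 := 536870912) (P2 := 0) (W2 := 1230186008) (P3 := 1046898278) (W3 := 26843546)
    rfl (fun _ => rfl) k0_mm_133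

noncomputable def f_mm_202 : ℕ → ℕ → ℕ → ℕ → Bool := onCell 0 536870912 0 536870912 1046898278 26843546
    (rowFX 0 true false false .pp 2 0 2 (qsf 0 536870912 0 536870912 2) ndF0q2 ndF5q0 pcF2 Cut.none Ext.none)

def k0_mm_202 : ∃ t, chk3 f_mm_202 t 4 8 1 = true :=
  ⟨(b (c (b (a (b (c (l 16313696) (a (l 16308136) (l 16342936))) (c (a (b (l 16289408) (l 16239104)) (l 16173216)) (c (l 16195192) (l 16165840)))) (b (c (l 16405984) (l 16326472)) (c (a (l 16271496) (l 16384280)) (a (l 16227216) (l 16320064))))) (a (a (c (b (l 16133904) (l 16072208)) (l 16135296)) (c (b (l 16179232) (l 16123840)) (l 16184528))) (c (b (a (l 16239408) (l 16312736)) (l 16207944)) (a (l 16248232) (l 16324368))))) (b (a (b (c (b (l 16344744) (c (l 16321808) (l 16310448))) (b (c (l 16348608) (l 16288144)) (l 16267760))) (c (a (l 16227056) (l 16268040)) (l 16272336))) (c (b (b (l 16448064) (a (l 16344080) (l 16455992))) (a (l 16326040) (l 16398944))) (b (c (b (l 16453016) (l 16416480)) (l 16252496)) (l 16389184)))) (a (a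 (l 16050024) (l 16184256)) (c (l 16223280) (l 16320208))))) (a (c (c (b (a (l 16079568) (l 16140400)) (a (l 16107784) (l 16180416))) (b (a (l 16121216) (l 16182992)) (l 16153760))) (c (b (l 16163480) (l 16147088)) (b (l 16156344) (l 16140296)))) (c (b (c (l 16193632) (l 16196048)) (c (a (l 16263664) (l 16355184)) (l 16321960))) (c (a (l 16264720) (l 16354672)) (a (l 16259912) (l 16351200)))))), by decide +kernel⟩

def k1_mm_202 : ∃ t, chk3 f_mm_202 t 5 8 1 = true :=
  ⟨(b (a (b (c (b (a (l 16509656) (b (l 16449536) (l 16444208))) (c (a (l 16509544) (l 16485328)) (a (l 16467488) (l 16499176)))) (b (a (c (l 16480544) (b (l 16477600) (l 16516680))) (c (b (l 16427752) (l 16442208)) (b (a (l 16386280) (l 16409128)) (l 16442264)))) (c (l 16409216) (l 16518024)))) (c (b (c (l 16259400) (l 16356360)) (a (l 16358208) (l 16475584))) (a (l 16437104) (l 16515216)))) (b (c (b (a (a (l 16415472) (l 16400472)) (l 16368024)) (a (b (a (l 16412984) (l 16300504)) (c (l 16423888) (l 16452448))) (b (l 16351544) (c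 (l 16339416) (l 16325640))))) (b (a (c (b (l 16398992) (l 16360768)) (b (l 16371032) (l 16349480))) (c (l 16334504) (b (l 16327856) (l 16348936)))) (a (c (b (a (l 16429072) (l 16399920)) (l 16437264)) (a (l 16419440) (l 16363664))) (c (b (l 16366488) (l 16350952)) (l 16321720))))) (c (a (c (l 16471144) (l 16510144)) (b (a (c (l 16448016) (l 16435560)) (b (l 16347952) (l 16415464))) (l 16459384))) (a (l 16472712) (b (a (l 16387464) (b (l 16341792) (l 16350192))) (l 16396096)))))) (a (c (b (c (l 16311272) (l 16337328)) (a (l 16352256) (l 16454728))) (b (a (l 16448080) (l 16547880)) (a (l 16463192) (l 16568736)))) (c (b (a (l 16516784) (l 16410008)) (a (c (l 16556328) (l 16544392)) (c (l 16482504) (l 16468976)))) (b (a (l 16525272) (l 16435696)) (a (l 16542768) (l 16444424)))))), by decide +kernel⟩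

def k2_mm_202 : ∃ t, chk3 f_mm_202 t 2 9 1 = true :=
  ⟨(a (b (a (c (b (a (a (l 16131576) (l 16144744)) (b (l 16108896) (l 16268808))) (l 16328280)) (b (a (l 16113648) (b (l 16201016) (l 16257672))) (l 16318416))) (c (b (a (b (l 16278648) (l 16343272)) (b (l 16395968) (l 16429248))) (l 16421704)) (b (a (b (l 16289544) (l 16334448)) (b (l 16388872) (l 16423088))) (l 16437056)))) (a (c (l 16411656) (l 16404728)) (c (a (l 16529088) (l 16585912)) (a (l 16524560) (l 16583208))))) (b (a (b (c (a (b (l 16499520) (l 16528576)) (l 16619904)) (a (b (l 16495616) (l 16525512)) (l 16619496))) (a (c (l 16590504) (l 16588888)) (c (b (l 16612376) (l 16611744)) (b (l 16590544) (l 16610480))))) (a (b (c (l 16547352) (l 16544936)) (l 4)) (l 4))) (a (a (c (l 16639632) (l 16638656)) (l 4)) (l 4)))), by decide +kernel⟩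

def k3_mm_202 : ∃ t, chk3 f_mm_202 t 2 5 1 = true :=
  ⟨(a (a (b (b (c (l 16426528) (c (l 16505792) (l 16502712))) (c (b (l 16514784) (l 16553280)) (b (l 16508136) (l 16547464)))) (l 4)) (b (b (c (a (l 16549552) (l 16578008)) (a (l 16544608) (l 16573944))) (l 4)) (l 4))) (l 4)), by decide +kernel⟩

def k4_mm_202 : ∃ t, chk3 f_mm_202 t 3 2 1 = true :=
  ⟨(b (b (a (b (b (b (a (c (a (l 16298424) (l 16200880)) (c (a (l 16262880) (l 16120760)) (b (a (l 16253912) (l 16111192)) (a (l 16277016) (l 16171560))))) (a (c (c (l 16146880) (l 16130088)) (c (b (l 16123512) (l 16112472)) (b (c (l 16113808) (l 16107424)) (l 16107144)))) (a (b (b (c (l 16164704) (l 16135400)) (l 4)) (l 4)) (l 4)))) (a (c (c (a (l 16287784) (l 16186400)) (a (l 16299240) (l 16196664))) (c (a (l 16297544) (l 16193384)) (l 16138928))) (a (c (c (l 16039880) (b (l 16118448) (l 16156776))) (c (l 16130096) (l 16101040))) (l 4)))) (a (a (c (b (a (l 16258000) (l 16323240)) (a (b (l 16349432) (l 16395424)) (b (l 16350272) (l 16351896)))) (b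 (a (l 16310568) (l 16268976)) (a (l 16286376) (b (l 16277072) (l 16288288))))) (c (b (c (l 16262792) (l 16246464)) (l 16281816)) (c (l 16209712) (l 16191144)))) (l 4))) (a (a (b (c (a (l 16407792) (l 16342832)) (a (l 16367696) (l 16321752))) (l 4)) (l 4)) (l 4))) (l 4)) (l 4)) (l 4)), by decide +kernel⟩

def k5_mm_202 : ∃ t, chk3 f_mm_202 t 1 3 1 = true :=
  ⟨(l 4), by decide +kernel⟩

theorem s6_mm_202 : ∃ t, chk3 f_mm_202 t 2 8 1 = true := ex3_a k0_mm_202 k1_mm_202

theorem s7_mm_202 : ∃ t, chk3 f_mm_202 t 2 4 1 = true := ex3_b s6_mm_202 k2_mm_202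

theorem s8_mm_202 : ∃ t, chk3 f_mm_202 t 2 2 1 = true := ex3_b s7_mm_202 k3_mm_202

theorem s9_mm_202 : ∃ t, chk3 f_mm_202 t 1 2 1 = true := ex3_a s8_mm_202 k4_mm_202

theorem s10_mm_202 : ∃ t, chk3 f_mm_202 t 1 1 1 = true := ex3_b s9_mm_202 k5_mm_202

theorem c_mm_202 : CertFX 0 536870912 0 536870912 1046898278 26843546 true false false .pp 2 0 2
    ndF0q2 ndF5q0 pcF2 Cut.none Ext.none :=
  certFX0 (fam := true) (s1 := false) (s2 := false) (a := 2) (b := 0) (c := 2) (cn := .pp) (n1 := ndF0q2) (n2 := ndF5q0) (pc := pcF2) (cut := Cut.none) (xt := Ext.none) (P1 := 0) (W1 := 536870912) (P2 := 0) (W2 := 536870912) (P3 := 1046898278) (W3 := 26843546)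
    rfl s10_mm_202

noncomputable def f_mm_203 : ℕ → ℕ → ℕ → ℕ → Bool := onCell 0 536870912 1610612736 536870912 1046898278 26843546
    (rowFX 1 true false false .up 2 0 3 (qsf 0 536870912 0 536870912 3) ndF0q2 ndF5q0 pcF3 Cut.none Ext.none)

def k0_mm_203 : ∃ t, chk3 f_mm_203 t 1 1 1 = true :=
  ⟨(l 4), by decide +kernel⟩

theorem c_mm_203 : CertFX 0 536870912 0 536870912 1046898278 26843546 true false false .up 2 0 3
    ndF0q2 ndF5q0 pcF3 Cut.none Ext.none :=
  certFX1 (fam := true) (s1 := false) (s2 := false) (a := 2) (b := 0) (c := 3) (cn := .up) (n1 := ndF0q2) (n2 := ndF5q0) (pc := pcF3) (cut := Cut.none) (xt := Ext.none) (P1 := 0) (W1 := 536870912) (P2 := 0) (W2 := 536870912) (P3 := 1046898278) (W3 := 26843546)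
    rfl (fun _ => rfl) k0_mm_203

noncomputable def f_mm_213 : ℕ → ℕ → ℕ → ℕ → Bool := onCell 0 536870912 536870912 469762048 1046898278 26843546
    (rowFX 0 true false false .pnn 2 1 3 (qsf 0 536870912 536870912 469762048 3) ndF0q2 ndF5q1 pcF3 Cut.none Ext.none)

def k0_mm_213 : ∃ t, chk3 f_mm_213 t 1 1 1 = true :=
  ⟨(l 4), by decide +kernel⟩

theorem c_mm_213 : CertFX 0 536870912 536870912 469762048 1046898278 26843546 true false false .pnn 2 1 3
    ndF0q2 ndF5q1 pcF3 Cut.none Ext.none :=
  certFX0 (fam := true) (s1 := false) (s2 := false) (a := 2) (b := 1) (c := 3) (cn := .pnn) (n1 := ndF0q2) (n2 := ndF5q1) (pc := pcF3) (cut := Cut.none) (xt := Ext.none) (P1 := 0) (W1 := 536870912) (P2 := 536870912) (W2 := 469762048) (P3 := 1046898278) (W3 := 26843546)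
    rfl k0_mm_213

end Pool.Agent.Strip051.G.IE1.Tab.C.FA05

namespace Pool.Agent.Strip051.G.IE1.Tab.C.FA06

open Pool.Agent.Strip051.PB Pool.Agent.Strip051.PB.T
open Pool.Agent.Strip051.G.IE1.Tab

noncomputable def f_pp_001 : ℕ → ℕ → ℕ → ℕ → Bool := onCell 0 536870912 0 536870912 1046898278 26843546
    (rowFX 0 true true true .up 0 0 1 (qsf 0 536870912 0 536870912 1) ndF0q0 ndF6q0 pcF1 Cut.none Ext.none)

def k0_pp_001 : ∃ t, chk3 f_pp_001 t 1 1 1 = true :=
  ⟨(l 4), by decide +kernel⟩

theorem c_pp_001 : CertFX 0 536870912 0 536870912 1046898278 26843546 true true true .up 0 0 1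
    ndF0q0 ndF6q0 pcF1 Cut.none Ext.none :=
  certFX0 (fam := true) (s1 := true) (s2 := true) (a := 0) (b := 0) (c := 1) (cn := .up) (n1 := ndF0q0) (n2 := ndF6q0) (pc := pcF1) (cut := Cut.none) (xt := Ext.none) (P1 := 0) (W1 := 536870912) (P2 := 0) (W2 := 536870912) (P3 := 1046898278) (W3 := 26843546)
    rfl k0_pp_001

noncomputable def f_pp_011 : ℕ → ℕ → ℕ → ℕ → Bool := onCell 0 536870912 536870912 469762048 1046898278 26843546
    (rowFX 0 true true true .pnn 0 1 1 (qsf 0 536870912 536870912 469762048 1) ndF0q0 ndF6q1 pcF1 Cut.none Ext.none)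

def k0_pp_011 : ∃ t, chk3 f_pp_011 t 1 1 1 = true :=
  ⟨(l 4), by decide +kernel⟩

theorem c_pp_011 : CertFX 0 536870912 536870912 469762048 1046898278 26843546 true true true .pnn 0 1 1
    ndF0q0 ndF6q1 pcF1 Cut.none Ext.none :=
  certFX0 (fam := true) (s1 := true) (s2 := true) (a := 0) (b := 1) (c := 1) (cn := .pnn) (n1 := ndF0q0) (n2 := ndF6q1) (pc := pcF1) (cut := Cut.none) (xt := Ext.none) (P1 := 0) (W1 := 536870912) (P2 := 536870912) (W2 := 469762048) (P3 := 1046898278) (W3 := 26843546)
    rfl k0_pp_011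

noncomputable def f_pp_012 : ℕ → ℕ → ℕ → ℕ → Bool := onCell 0 536870912 536870912 469762048 1046898278 26843546
    (rowFX 0 true true true .pnp 0 1 2 (qsf 0 536870912 536870912 469762048 2) ndF0q0 ndF6q1 pcF2 Cut.none Ext.none)

def k0_pp_012 : ∃ t, chk3 f_pp_012 t 1 1 1 = true :=
  ⟨(l 4), by decide +kernel⟩

theorem c_pp_012 : CertFX 0 536870912 536870912 469762048 1046898278 26843546 true true true .pnp 0 1 2
    ndF0q0 ndF6q1 pcF2 Cut.none Ext.none :=
  certFX0 (fam := true) (s1 := true) (s2 := true) (a := 0) (b := 1) (c := 2) (cn := .pnp) (n1 := ndF0q0) (n2 := ndF6q1) (pc := pcF2) (cut := Cut.none) (xt := Ext.none) (P1 := 0) (W1 := 536870912) (P2 := 536870912) (W2 := 469762048) (P3 := 1046898278) (W3 := 26843546)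
    rfl k0_pp_012

noncomputable def f_pp_022 : ℕ → ℕ → ℕ → ℕ → Bool := onCell 0 536870912 1073741824 536870912 1046898278 26843546
    (rowFX 0 true true true .pp 0 2 2 (qsf 0 536870912 1073741824 536870912 2) ndF0q0 ndF6q2 pcF2 Cut.none Ext.none)

def k0_pp_022 : ∃ t, chk3 f_pp_022 t 1 1 1 = true :=
  ⟨(l 4), by decide +kernel⟩

theorem c_pp_022 : CertFX 0 536870912 1073741824 536870912 1046898278 26843546 true true true .pp 0 2 2
    ndF0q0 ndF6q2 pcF2 Cut.none Ext.none :=
  certFX0 (fam := true) (s1 := true) (s2 := true) (a := 0) (b := 2) (c := 2) (cn := .pp) (n1 := ndF0q0) (n2 := ndF6q2) (pc := pcF2) (cut := Cut.none) (xt := Ext.none) (P1 := 0) (W1 := 536870912) (P2 := 1073741824) (W2 := 536870912) (P3 := 1046898278) (W3 := 26843546)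
    rfl k0_pp_022

noncomputable def f_pp_023 : ℕ → ℕ → ℕ → ℕ → Bool := onCell 0 536870912 1073741824 536870912 1046898278 26843546
    (rowFX 0 true true true .up 0 2 3 (qsf 0 536870912 1073741824 536870912 3) ndF0q0 ndF6q2 pcF3 Cut.none Ext.none)

def k0_pp_023 : ∃ t, chk3 f_pp_023 t 1 1 1 = true :=
  ⟨(l 4), by decide +kernel⟩

theorem c_pp_023 : CertFX 0 536870912 1073741824 536870912 1046898278 26843546 true true true .up 0 2 3
    ndF0q0 ndF6q2 pcF3 Cut.none Ext.none :=
  certFX0 (fam := true) (s1 := true) (s2 := true) (a := 0) (b := 2) (c := 3) (cn := .up) (n1 := ndF0q0) (n2 := ndF6q2) (pc := pcF3) (cut := Cut.none) (xt := Ext.none) (P1 := 0) (W1 := 536870912) (P2 := 1073741824) (W2 := 536870912) (P3 := 1046898278) (W3 := 26843546)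
    rfl k0_pp_023

noncomputable def f_pp_033 : ℕ → ℕ → ℕ → ℕ → Bool := onCell 0 536870912 0 1230186008 1046898278 26843546
    (rowFX 0 true true true .pnn 0 3 3 (qsf 0 536870912 0 1230186008 3) ndF0q0 ndF6q3 pcF3 Cut.none Ext.none)

def k0_pp_033 : ∃ t, chk3 f_pp_033 t 1 1 1 = true :=
  ⟨(b (l 4) (l 4)), by decide +kernel⟩

theorem c_pp_033 : CertFX 0 536870912 0 1230186008 1046898278 26843546 true true true .pnn 0 3 3
    ndF0q0 ndF6q3 pcF3 Cut.none Ext.none :=
  certFX0 (fam := true) (s1 := true) (s2 := true) (a := 0) (b := 3) (c := 3) (cn := .pnn) (n1 := ndF0q0) (n2 := ndF6q3) (pc := pcF3) (cut := Cut.none) (xt := Ext.none) (P1 := 0) (W1 := 536870912) (P2 := 0) (W2 := 1230186008) (P3 := 1046898278) (W3 := 26843546)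
    rfl k0_pp_033

noncomputable def f_pp_101 : ℕ → ℕ → ℕ → ℕ → Bool := onCell 536870912 536870912 0 536870912 1046898278 26843546
    (rowFX 0 true true true .npn 1 0 1 (qsf 536870912 536870912 0 536870912 1) ndF0q1 ndF6q0 pcF1 Cut.none Ext.none)

def k0_pp_101 : ∃ t, chk3 f_pp_101 t 1 1 1 = true :=
  ⟨(l 4), by decide +kernel⟩

theorem c_pp_101 : CertFX 536870912 536870912 0 536870912 1046898278 26843546 true true true .npn 1 0 1
    ndF0q1 ndF6q0 pcF1 Cut.none Ext.none :=
  certFX0 (fam := true) (s1 := true) (s2 := true) (a := 1) (b := 0) (c := 1) (cn := .npn) (n1 := ndF0q1) (n2 := ndF6q0) (pc := pcF1) (cut := Cut.none) (xt := Ext.none) (P1 := 536870912) (W1 := 536870912) (P2 := 0) (W2 := 536870912) (P3 := 1046898278) (W3 := 26843546)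
    rfl k0_pp_101

noncomputable def f_pp_102 : ℕ → ℕ → ℕ → ℕ → Bool := onCell 536870912 536870912 0 536870912 1046898278 26843546
    (rowFX 0 true true true .npp 1 0 2 (qsf 536870912 536870912 0 536870912 2) ndF0q1 ndF6q0 pcF2 Cut.none Ext.none)

def k0_pp_102 : ∃ t, chk3 f_pp_102 t 1 1 1 = true :=
  ⟨(l 4), by decide +kernel⟩

theorem c_pp_102 : CertFX 536870912 536870912 0 536870912 1046898278 26843546 true true true .npp 1 0 2
    ndF0q1 ndF6q0 pcF2 Cut.none Ext.none :=
  certFX0 (fam := true) (s1 := true) (s2 := true) (a := 1) (b := 0) (c := 2) (cn := .npp) (n1 := ndF0q1) (n2 := ndF6q0) (pc := pcF2) (cut := Cut.none) (xt := Ext.none) (P1 := 536870912) (W1 := 536870912) (P2 := 0) (W2 := 536870912) (P3 := 1046898278) (W3 := 26843546)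
    rfl k0_pp_102

noncomputable def f_pp_112 : ℕ → ℕ → ℕ → ℕ → Bool := onCell 536870912 536870912 536870912 469762048 1046898278 26843546
    (rowFX 0 true true true .dn 1 1 2 (qsf 536870912 536870912 536870912 469762048 2) ndF0q1 ndF6q1 pcF2 Cut.none Ext.none)

def k0_pp_112 : ∃ t, chk3 f_pp_112 t 1 1 1 = true :=
  ⟨(l 4), by decide +kernel⟩

theorem c_pp_112 : CertFX 536870912 536870912 536870912 469762048 1046898278 26843546 true true true .dn 1 1 2
    ndF0q1 ndF6q1 pcF2 Cut.none Ext.none :=
  certFX0 (fam := true) (s1 := true) (s2 := true) (a := 1) (b := 1) (c := 2) (cn := .dn) (n1 := ndF0q1) (n2 := ndF6q1) (pc := pcF2) (cut := Cut.none) (xt := Ext.none) (P1 := 536870912) (W1 := 536870912) (P2 := 536870912) (W2 := 469762048) (P3 := 1046898278) (W3 := 26843546)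
    rfl k0_pp_112

noncomputable def f_pp_113 : ℕ → ℕ → ℕ → ℕ → Bool := onCell 536870912 536870912 536870912 469762048 1046898278 26843546
    (rowFX 0 true true true .nn 1 1 3 (qsf 536870912 536870912 536870912 469762048 3) ndF0q1 ndF6q1 pcF3 Cut.none Ext.none)

def k0_pp_113 : ∃ t, chk3 f_pp_113 t 1 1 1 = true :=
  ⟨(l 4), by decide +kernel⟩

theorem c_pp_113 : CertFX 536870912 536870912 536870912 469762048 1046898278 26843546 true true true .nn 1 1 3
    ndF0q1 ndF6q1 pcF3 Cut.none Ext.none :=
  certFX0 (fam := true) (s1 := true) (s2 := true) (a := 1) (b := 1) (c := 3) (cn := .nn) (n1 := ndF0q1) (n2 := ndF6q1) (pc := pcF3) (cut := Cut.none) (xt := Ext.none) (P1 := 536870912) (W1 := 536870912) (P2 := 536870912) (W2 := 469762048) (P3 := 1046898278) (W3 := 26843546)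
    rfl k0_pp_113

noncomputable def f_pp_123 : ℕ → ℕ → ℕ → ℕ → Bool := onCell 536870912 536870912 1073741824 536870912 1046898278 26843546
    (rowFX 0 true true true .npn 1 2 3 (qsf 536870912 536870912 1073741824 536870912 3) ndF0q1 ndF6q2 pcF3 Cut.none Ext.none)

def k0_pp_123 : ∃ t, chk3 f_pp_123 t 1 1 1 = true :=
  ⟨(l 4), by decide +kernel⟩

theorem c_pp_123 : CertFX 536870912 536870912 1073741824 536870912 1046898278 26843546 true true true .npn 1 2 3
    ndF0q1 ndF6q2 pcF3 Cut.none Ext.none :=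
  certFX0 (fam := true) (s1 := true) (s2 := true) (a := 1) (b := 2) (c := 3) (cn := .npn) (n1 := ndF0q1) (n2 := ndF6q2) (pc := pcF3) (cut := Cut.none) (xt := Ext.none) (P1 := 536870912) (W1 := 536870912) (P2 := 1073741824) (W2 := 536870912) (P3 := 1046898278) (W3 := 26843546)
    rfl k0_pp_123

noncomputable def f_pp_133 : ℕ → ℕ → ℕ → ℕ → Bool := onCell 536870912 536870912 0 1230186008 1046898278 26843546
    (rowFX 0 true true true .dn 1 3 3 (qsf 536870912 536870912 0 1230186008 3) ndF0q1 ndF6q3 pcF3 Cut.none Ext.none)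

def k0_pp_133 : ∃ t, chk3 f_pp_133 t 1 1 1 = true :=
  ⟨(l 4), by decide +kernel⟩

theorem c_pp_133 : CertFX 536870912 536870912 0 1230186008 1046898278 26843546 true true true .dn 1 3 3
    ndF0q1 ndF6q3 pcF3 Cut.none Ext.none :=
  certFX0 (fam := true) (s1 := true) (s2 := true) (a := 1) (b := 3) (c := 3) (cn := .dn) (n1 := ndF0q1) (n2 := ndF6q3) (pc := pcF3) (cut := Cut.none) (xt := Ext.none) (P1 := 536870912) (W1 := 536870912) (P2 := 0) (W2 := 1230186008) (P3 := 1046898278) (W3 := 26843546)
    rfl k0_pp_133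

noncomputable def f_pp_202 : ℕ → ℕ → ℕ → ℕ → Bool := onCell 0 536870912 0 536870912 1046898278 26843546
    (rowFX 0 true true true .pp 2 0 2 (qsf 0 536870912 0 536870912 2) ndF0q2 ndF6q0 pcF2 Cut.none Ext.none)

def k0_pp_202 : ∃ t, chk3 f_pp_202 t 1 1 1 = true :=
  ⟨(l 5), by decide +kernel⟩

theorem c_pp_202 : CertFX 0 536870912 0 536870912 1046898278 26843546 true true true .pp 2 0 2
    ndF0q2 ndF6q0 pcF2 Cut.none Ext.none :=
  certFX0 (fam := true) (s1 := true) (s2 := true) (a := 2) (b := 0) (c := 2) (cn := .pp) (n1 := ndF0q2) (n2 := ndF6q0) (pc := pcF2) (cut := Cut.none) (xt := Ext.none) (P1 := 0) (W1 := 536870912) (P2 := 0) (W2 := 536870912) (P3 := 1046898278) (W3 := 26843546)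
    rfl k0_pp_202

noncomputable def f_pp_203 : ℕ → ℕ → ℕ → ℕ → Bool := onCell 0 536870912 0 536870912 1046898278 26843546
    (rowFX 0 true true true .up 2 0 3 (qsf 0 536870912 0 536870912 3) ndF0q2 ndF6q0 pcF3 Cut.none Ext.none)

def k0_pp_203 : ∃ t, chk3 f_pp_203 t 1 1 1 = true :=
  ⟨(l 5), by decide +kernel⟩

theorem c_pp_203 : CertFX 0 536870912 0 536870912 1046898278 26843546 true true true .up 2 0 3
    ndF0q2 ndF6q0 pcF3 Cut.none Ext.none :=
  certFX0 (fam := true) (s1 := true) (s2 := true) (a := 2) (b := 0) (c := 3) (cn := .up) (n1 := ndF0q2) (n2 := ndF6q0) (pc := pcF3) (cut := Cut.none) (xt := Ext.none) (P1 := 0) (W1 := 536870912) (P2 := 0) (W2 := 536870912) (P3 := 1046898278) (W3 := 26843546)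
    rfl k0_pp_203

noncomputable def f_pp_213 : ℕ → ℕ → ℕ → ℕ → Bool := onCell 0 536870912 536870912 469762048 1046898278 26843546
    (rowFX 0 true true true .pnn 2 1 3 (qsf 0 536870912 536870912 469762048 3) ndF0q2 ndF6q1 pcF3 Cut.none Ext.none)

def k0_pp_213 : ∃ t, chk3 f_pp_213 t 1 1 1 = true :=
  ⟨(l 4), by decide +kernel⟩

theorem c_pp_213 : CertFX 0 536870912 536870912 469762048 1046898278 26843546 true true true .pnn 2 1 3
    ndF0q2 ndF6q1 pcF3 Cut.none Ext.none :=
  certFX0 (fam := true) (s1 := true) (s2 := true) (a := 2) (b := 1) (c := 3) (cn := .pnn) (n1 := ndF0q2) (n2 := ndF6q1) (pc := pcF3) (cut := Cut.none) (xt := Ext.none) (P1 := 0) (W1 := 536870912) (P2 := 536870912) (W2 := 469762048) (P3 := 1046898278) (W3 := 26843546)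
    rfl k0_pp_213

noncomputable def f_pm_001 : ℕ → ℕ → ℕ → ℕ → Bool := onCell 0 536870912 536870912 536870912 1046898278 26843546
    (rowFX 1 true true false .up 0 0 1 (qsf 0 536870912 0 536870912 1) ndF0q0 ndF6q0 pcF1 Cut.none Ext.none)

def k0_pm_001 : ∃ t, chk3 f_pm_001 t 1 1 1 = true :=
  ⟨(b (l 3) (b (a (l 3) (b (l 3) (a (l 3) (a (l 3) (a (l 3) (a (l 3) (b (l 3) (c (l 16764720) (l 131701063607))))))))) (a (l 2) (b (b (b (a (l 3) (a (c (l 249275501687) (l 719037542423)) (c (l 213842028407) (l 16626616)))) (a (l 2) (a (c (l 199346290119) (a (l 16533184) (l 16534208))) (c (l 16542816) (l 16536728))))) (a (l 2) (a (c (c (l 109084403047) (l 16371424)) (a (l 211089834167) (l 16365056))) (c (c (l 16382464) (l 16377304)) (a (l 16368056) (l 16371128)))))) (a (l 2) (a (a (l 2) (b (b (l 194983473879) (l 2)) (l 2))) (b (c (b (l 16212632) (l 16099392)) (b (l 16197968) (l 16083440))) (c (b (l 92977493287) (l 15930192)) (b (l 15995648) (l 240079834663)))))))))), by decide +kernel⟩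

theorem c_pm_001 : CertFX 0 536870912 0 536870912 1046898278 26843546 true true false .up 0 0 1
    ndF0q0 ndF6q0 pcF1 Cut.none Ext.none :=
  certFX1 (fam := true) (s1 := true) (s2 := false) (a := 0) (b := 0) (c := 1) (cn := .up) (n1 := ndF0q0) (n2 := ndF6q0) (pc := pcF1) (cut := Cut.none) (xt := Ext.none) (P1 := 0) (W1 := 536870912) (P2 := 0) (W2 := 536870912) (P3 := 1046898278) (W3 := 26843546)
    rfl (fun _ => rfl) k0_pm_001

noncomputable def f_pm_011 : ℕ → ℕ → ℕ → ℕ → Bool := onCell 536870912 536870912 536870912 469762048 1046898278 26843546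
    (rowFX 2 true true false .pnn 0 1 1 (qsf 0 536870912 536870912 469762048 1) ndF0q0 ndF6q1 pcF1 Cut.none Ext.none)

def k0_pm_011 : ∃ t, chk3 f_pm_011 t 2 1 1 = true :=
  ⟨(l 3), by decide +kernel⟩

def k1_pm_011 : ∃ t, chk3 f_pm_011 t 6 1 1 = true :=
  ⟨(l 3), by decide +kernel⟩

def k2_pm_011 : ∃ t, chk3 f_pm_011 t 14 2 1 = true :=
  ⟨(a (a (l 3) (b (b (c (c (l 16540800) (l 286856235639)) (b (l 260012678279) (l 519858199607))) (l 3)) (l 3))) (b (c (b (a (c (l 16430512) (l 16425984)) (l 16319472)) (a (b (l 16425784) (l 317457644103)) (c (l 16316840) (l 16310824)))) (b (a (b (l 16420128) (l 16418128)) (l 16307584)) (a (b (l 248201278695) (l 301351516791)) (b (l 16303192) (l 16300352))))) (b (a (b (c (l 750712601719) (l 564418376935)) (l 3)) (c (b (c (l 16312992) (l 16306928)) (c (l 326047355367) (l 315846790615))) (b (a (l 261622961975) (l 16269304)) (c (l 301888147175) (l 283634522023))))) (b (a (l 3) (a (l 3) (c (c (l 603609704887) (l 573008062711)) (c (l 543480162679) (l 511804661687)))))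 (l 3))))), by decide +kernel⟩

def k3_pm_011 : ∃ t, chk3 f_pm_011 t 15 2 1 = true :=
  ⟨(a (b (c (a (b (l 16204056) (l 16216032)) (b (c (l 16099792) (l 16087600)) (c (l 16086760) (l 16073816)))) (b (a (l 16189168) (l 16074256)) (a (c (l 16183720) (l 16176160)) (l 16060208)))) (a (b (c (b (l 16188496) (c (l 16188088) (l 16180384))) (b (l 16173200) (c (l 16172688) (l 16164984)))) (a (b (c (c (l 16217512) (l 16210200)) (c (l 16202880) (l 16195568))) (c (c (b (l 16215104) (b (l 323899701111) (l 334637077735))) (b (l 16207752) (b (a (l 502140886487) (l 16188352)) (l 336247669447)))) (b (c (l 16200408) (l 16193056)) (b (c (a (l 528447560743) (l 16180744)) (l 307793533895)) (c (l 334100185111) (l 329805200071)))))) (c (b (l 16147136) (b (l 16143608) (a (c (l 16159032) (l 16150936)) (l 16124600)))) (b (c (l 16134864) (l 16126680)) (b (l 16127152) (c (a (l 16142840) (l 16111888)) (l 16117912))))))) (c (b (a (l 16091704) (l 16039392)) (a (b (l 16082696) (l 16076832)) (b (l 16029152) (l 16022488)))) (c (b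 (l 16051296) (b (l 16041456) (l 15993112))) (b (l 16042048) (a (l 16057144) (l 16001192))))))) (b (b (c (a (c (l 16006288) (l 16002008)) (l 15929080)) (a (l 15990208) (l 15828376))) (c (a (c (l 15989448) (l 15986304)) (c (l 15914840) (l 15906328))) (a (l 15974952) (c (l 15898896) (l 15891576))))) (c (a (b (c (l 15973240) (l 15971200)) (c (a (l 15982264) (l 15932560)) (a (l 15980600) (l 15934216)))) (b (c (l 15897424) (l 15889368)) (c (l 15880600) (l 15872992)))) (a (b (l 15960272) (c (l 15949848) (l 15939320))) (b (a (l 15897280) (l 15858968)) (c (a (l 15886336) (l 15845832)) (a (l 15878640) (l 15838912)))))))), by decide +kernel⟩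

def k4_pm_011 : ∃ t, chk3 f_pm_011 t 14 6 1 = true :=
  ⟨(l 3), by decide +kernel⟩

def k5_pm_011 : ∃ t, chk3 f_pm_011 t 30 12 1 = true :=
  ⟨(a (a (b (b (c (c (l 526836831847) (l 552606617815)) (c (l 590724434759) (l 639042799047))) (l 3)) (l 3)) (b (c (b (a (c (l 16105272) (l 16096248)) (b (l 16107960) (l 16068648))) (c (l 297055729191) (a (l 322825535479) (l 15997832)))) (b (c (a (l 16087224) (l 16074392)) (a (l 16078192) (l 16065288))) (c (a (l 329267986519) (l 15987320)) (a (l 333562932951) (l 15976808))))) (a (b (c (c (l 508582834967) (l 521467713255)) (c (l 552069331639) (l 598240206471))) (l 3)) (c (b (c (l 290613097015) (l 300276748263)) (c (l 483349692215) (b (l 317456600727) (l 504287583559)))) (b (c (b (l 15918240) (l 312624786871)) (l 312624754791)) (c (b (l 329804605767) (l 503750685367)) (l 529520510839))))))) (b (c (a (b (b (l 16070816) (a (l 16058648) (l 16044120))) (c (l 15993512) (l 15982928))) (b (l 16016696) (a (l 15978296) (l 15956528)))) (a (b (c (b (l 16057040) (l 16035680))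 (b (l 16047856) (l 16026136))) (c (l 15972344) (l 15961768))) (b (l 15996664) (b (l 15976184) (l 15936360))))) (c (a (b (c (l 15903400) (a (l 15896264) (l 15886744))) (a (c (l 267527436039) (c (l 276654226967) (l 281486051079))) (c (l 15805048) (l 15791520)))) (c (b (l 15895240) (l 15801344)) (b (l 15883440) (l 15788056)))) (a (b (c (a (l 15884248) (l 15874672)) (a (l 15872232) (l 15862600))) (c (a (b (l 15812264) (a (l 298129066439) (l 15760640))) (l 15778000)) (a (c (l 15777872) (l 15771152)) (l 15764472)))) (c (b (l 15871440) (l 15774568)) (b (l 15859440) (l 15761072))))))), by decide +kernel⟩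

def k6_pm_011 : ∃ t, chk3 f_pm_011 t 31 12 1 = true :=
  ⟨(a (c (b (a (c (b (l 15973192) (l 15959640)) (l 15964256)) (c (l 15920352) (l 15923112))) (a (c (b (l 15894472) (l 15800416)) (l 15845328)) (c (b (l 15884336) (l 15798056)) (b (l 15887128) (l 15799824))))) (b (a (b (l 15956312) (l 15942464)) (l 15914480)) (a (c (l 15832664) (l 15820184)) (b (l 15877952) (l 15788736))))) (c (b (a (l 15879384) (l 15849264)) (a (b (l 15867176) (l 15806872)) (l 15827264))) (b (a (l 15870744) (l 15831576)) (a (c (b (l 15863200) (l 15801816)) (l 15821008)) (c (l 15811600) (b (l 15821840) (l 15793712))))))), by decide +kernel⟩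

def k7_pm_011 : ∃ t, chk3 f_pm_011 t 60 13 1 = true :=
  ⟨(l 3), by decide +kernel⟩

def k8_pm_011 : ∃ t, chk3 f_pm_011 t 122 13 1 = true :=
  ⟨(a (b (b (b (c (c (a (l 413556258855) (l 261084904279)) (a (b (l 315308890999) (b (l 491402552535) (l 3))) (c (a (l 275580399063) (l 15706656)) (b (l 15733984) (l 275580379751))))) (c (c (b (l 294907796807) (a (l 481738821431) (b (l 15708008) (l 283096546887)))) (a (l 471001434199) (l 282022812375))) (c (l 312624437655) (l 315308776439)))) (a (l 3) (c (c (l 285781009655) (c (l 294370944183) (l 306718969975))) (c (c (l 351279241303) (l 392618287175)) (l 364701033591))))) (l 3)) (l 3)) (b (b (b (c (c (l 15711504) (b (l 15730216) (l 15684512))) (c (c (l 15706928) (l 15699624)) (l 15688672))) (c (c (l 15740680) (b (l 15711632) (l 257326836519))) (c (c (l 15715392) (l 15708168)) (l 15697328)))) (c (c (b (l 262695672631) (l 276654444695)) (b (a (c (l 279338670183) (l 283096766967)) (l 15782760)) (c (l 284707499191) (a (l 314235392679) (l 219746113047))))) (c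 (a (c (b (l 286317992503) (l 330341507399)) (b (l 289539217543) (l 365238104039))) (b (l 15779656) (c (l 229946660375) (l 242831562023)))) (c (b (l 278264929191) (l 302424188631)) (l 299202751719))))) (a (l 3) (b (b (c (c (l 284707623287) (c (l 291150074311) (l 298129376423))) (b (c (l 298666201415) (l 303498039319)) (c (l 319604226759) (l 387249938535)))) (l 3)) (l 3))))), by decide +kernel⟩

def k9_pm_011 : ∃ t, chk3 f_pm_011 t 123 13 1 = true :=
  ⟨(b (c (b (b (c (l 15707720) (l 15693328)) (c (a (l 15735104) (l 15738672)) (l 15722536))) (c (a (l 15838064) (l 15825840)) (a (a (b (l 15778824) (l 15838584)) (l 15809800)) (l 15813072)))) (b (b (c (l 15699696) (l 15685104)) (c (l 15708080) (l 15693624))) (c (a (b (l 15765816) (a (l 15825848) (l 15827088))) (l 15800016)) (a (b (l 15752216) (l 15813744)) (l 15786968))))) (a (c (c (b (b (l 15911656) (l 269138484663)) (b (l 283097261943) (l 296519169959))) (b (c (b (l 15902792) (l 272896581143)) (a (b (l 15896320) (l 284170848791)) (l 15964960))) (b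 (c (l 286855358215) (a (l 314235746151) (l 16022168))) (a (l 3) (l 301350980055))))) (b (c (a (c (b (l 15900888) (a (l 297592642327) (l 15952344))) (b (l 200418875543) (a (l 300276996935) (l 15957360)))) (b (l 15888640) (l 15951088))) (b (c (l 212766908007) (l 15873264)) (a (c (l 293834433351) (l 294908157031)) (l 15940200)))) (a (a (l 3) (b (c (l 320678217767) (l 333563061927)) (l 3))) (c (b (b (l 15998568) (l 281486643111)) (l 305109013399)) (c (b (l 274507211111) (l 317993883975)) (l 318530605511)))))) (c (b (c (l 15966240) (l 15965776)) (c (c (l 16070400) (l 16066280)) (b (l 16027624) (a (l 16100416) (l 16092016))))) (b (c (b (l 15891968) (l 15954408)) (b (l 15880272) (l 15943608))) (c (b (l 16017736) (b (l 16065816) (l 16103432))) (b (l 16007848) (c (l 16075256) (l 16070768)))))))), by decide +kernel⟩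

def k10_pm_011 : ∃ t, chk3 f_pm_011 t 31 13 1 = true :=
  ⟨(a (b (c (b (a (b (c (l 15727648) (l 15723488)) (c (l 15735584) (l 15731704))) (b (c (l 15725064) (l 15725960)) (c (l 15732784) (l 15734024)))) (a (c (a (l 15823392) (l 15821744)) (l 15820144)) (c (l 15819248) (l 15822184)))) (b (b (a (l 15701720) (l 15713288)) (a (l 15710144) (l 15721680))) (a (c (l 15807080) (l 15794208)) (l 15812112)))) (c (a (c (b (a (c (l 15943840) (l 15946808)) (l 15940680)) (a (c (l 16066136) (l 16070216)) (l 16063224))) (b (a (l 15938792) (l 15943504)) (a (l 16063576) (l 16068216)))) (c (b (l 15937760) (l 16059888)) (b (a (l 15943400) (l 15942784)) (a (l 16067904) (l 16067056))))) (a (b (c (l 15930048) (l 15919016)) (c (a (l 16054288) (l 16059064)) (b (l 16014992) (l 16080080)))) (c (b (l 15940616) (l 16067072)) (b (l 15929520) (l 16057840)))))) (c (b (b (a (b (l 15733688) (l 15741456)) (l 15760216)) (a (l 15807544) (l 15851216))) (a (c (l 16007736) (b (l 15945664) (l 16069632))) (l 16031608))) (c (b (a (b (b (l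 15727152) (l 15735352)) (l 15824848)) (b (l 15743056) (l 15836424))) (a (b (l 15947416) (l 15989720)) (l 16021288))) (b (a (b (l 15721976) (l 15817208)) (b (b (l 15731704) (l 15740040)) (l 15830944))) (a (l 16005464) (a (l 16013616) (l 16021088))))))), by decide +kernel⟩

def k11_pm_011 : ∃ t, chk3 f_pm_011 t 14 7 1 = true :=
  ⟨(l 3), by decide +kernel⟩

def k12_pm_011 : ∃ t, chk3 f_pm_011 t 30 14 1 = true :=
  ⟨(b (a (l 3) (a (l 3) (a (l 3) (b (b (c (c (l 265917652647) (a (l 284708140695) (l 16156192))) (c (a (l 287392373527) (l 16148160)) (c (l 270212502455) (l 269675621511)))) (c (c (l 269139025319) (l 281487011815)) (a (l 3) (c (l 270212638679) (l 273970735239))))) (b (c (c (l 273970986023) (l 291150857127)) (c (l 304572568327) (l 317994349639))) (l 3)))))) (l 3)), by decide +kernel⟩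

def k13_pm_011 : ∃ t, chk3 f_pm_011 t 31 28 1 = true :=
  ⟨(a (c (a (c (b (a (c (l 16191944) (l 16197128)) (c (l 16185488) (l 16194032))) (b (a (c (l 16288632) (l 16294640)) (l 16286080)) (a (c (b (l 16331352) (l 16330672)) (l 245516870423)) (c (l 16323952) (l 16333800))))) (b (a (b (l 16159472) (l 16224480)) (l 16196440)) (b (a (l 16290408) (l 16294856)) (a (b (l 252496212919) (l 257864902951)) (c (l 16339048) (l 16336528)))))) (c (b (l 16164568) (b (l 16282040) (a (l 16324592) (l 16322680)))) (b (a (c (l 16196376) (l 16199384)) (l 16194856)) (b (a (l 16294200) (l 16292952)) (a (c (l 16337072) (l 16341248)) (l 16335800)))))) (a (b (b (c (l 16153872) (l 16146048)) (a (c (l 16217480) (l 16210488)) (l 16218784))) (b (c (a (l 214378200663) (l 16288928)) (a (l 249274809911) (l 16283040))) (b (b (a (c (l 256791171031) (l 261086112247)) (l 16328040)) (c (l 250885581031) (l 255717418983))) (a (c (l 268602309479) (l 279339727799)) (l 16329600))))) (b (c (l 16197056) (l 16189672)) (b (c (l 16296792) (l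 16290800)) (c (a (l 16337432) (l 16342808)) (l 16334952)))))) (c (c (b (l 16209264) (b (l 16305648) (l 16326752))) (a (b (l 16197136) (b (l 16295024) (l 16316760))) (b (l 16217024) (l 16336208)))) (a (b (c (a (l 16201664) (l 16203480)) (l 16201736)) (c (b (a (l 16301256) (l 16302936)) (a (l 16344744) (l 16346336))) (b (l 16302776) (l 16346880)))) (c (b (l 16214192) (b (l 16313568) (l 16356920))) (b (a (l 16209664) (l 16217024)) (b (a (l 16310600) (l 16317904)) (a (l 16354624) (l 16361896)))))))), by decide +kernel⟩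

def k14_pm_011 : ∃ t, chk3 f_pm_011 t 31 29 1 = true :=
  ⟨(b (a (a (a (a (l 3) (c (c (c (l 535963945447) (l 312088804599)) (b (l 16303880) (l 290613967959))) (c (b (l 266991669879) (l 295445794231)) (b (l 279876571415) (l 317457501799))))) (c (c (c (b (l 16316424) (l 16300696)) (b (l 16326328) (l 16310576))) (b (c (l 16331568) (l 16328968)) (l 231021293639))) (b (c (l 16324848) (b (l 16322920) (l 16316528))) (c (l 235316256839) (l 223505096343))))) (c (c (a (c (l 16306712) (l 16315800)) (l 16312392)) (a (c (b (l 16331352) (l 16319224)) (l 16328992)) (c (l 16322248) (l 16330488)))) (c (a (b (l 16331600) (l 16319248)) (l 16332544)) (b (l 16328992) (l 16296712))))) (c (a (c (l 16323256) (a (l 16325512) (l 16328360))) (l 16350240)) (a (c (a (l 16335184) (l 16336656)) (l 16337128)) (c (l 16347176) (a (l 16344768) (l 16351992)))))) (a (a (a (l 3) (c (c (c (b (l 301888194567) (l 278265858247)) (a (l 307256888967) (l 224578755063))) (c (l 244979870071) (l 254643544775))) (c (b (l 259475410567) (l 279339598199))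 (b (l 276655279671) (l 295445725511))))) (c (c (a (c (a (l 16272600) (l 16273896)) (l 16282328)) (l 16282888)) (a (c (a (l 16292528) (l 16292320)) (l 16295312)) (c (l 16292632) (l 16300848)))) (c (a (b (l 16300608) (l 16280944)) (l 16302616)) (a (b (l 16294784) (l 16274776)) (l 16296696))))) (c (a (c (l 16258320) (a (l 16300672) (l 16307776))) (l 16333296)) (a (c (a (c (l 16310232) (l 16312408)) (c (l 16313032) (l 16318680))) (a (l 16308256) (l 16319032))) (c (a (l 16322448) (l 16335864)) (a (l 16326808) (l 16335552))))))), by decide +kernel⟩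

def k15_pm_011 : ∃ t, chk3 f_pm_011 t 30 15 1 = true :=
  ⟨(l 3), by decide +kernel⟩

def k16_pm_011 : ∃ t, chk3 f_pm_011 t 31 60 1 = true :=
  ⟨(a (a (b (a (l 3) (c (c (c (l 524689570615) (l 531132019719)) (l 348595958199)) (c (l 301888175319) (l 316383676487)))) (l 3)) (c (c (b (a (c (a (l 295982546599) (l 16244464)) (l 16253072)) (l 16253352)) (a (c (a (l 530595127767) (b (l 16208368) (c (l 297056230967) (l 16220992)))) (l 280950129911)) (c (l 16209400) (l 16234784)))) (a (c (a (b (l 16263368) (l 330879151959)) (b (l 16262768) (l 16242552))) (b (l 16265840) (l 256254095383))) (c (l 16252800) (b (l 16271080) (l 16250624))))) (c (a (b (l 16260984) (l 264307162135)) (l 16262304)) (a (b (l 16254488) (l 272360212167)) (l 16255688))))) (c (a (c (a (l 16253600) (l 16270800)) (a (c (l 16257176) (l 16263768)) (l 16270296))) (l 16281704)) (a (c (a (c (l 16270576) (l 16272528)) (c (l 16275272) (l 16280784))) (l 16253664)) (c (a (l 16288104) (l 16306568)) (a (l 16292080) (c (l 16304600) (l 16305848))))))),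 by decide +kernel⟩

def k17_pm_011 : ∃ t, chk3 f_pm_011 t 31 61 1 = true :=
  ⟨(a (a (l 3) (b (c (a (a (l 3) (c (b (c (c (a (l 521468287191) (a (l 294371851047) (l 16186584))) (l 16190024)) (l 16217280)) (c (c (a (l 3) (c (c (a (l 271286411159) (l 307256764919)) (l 312088605079)) (l 334100316071))) (l 357185778263)) (l 16199336))) (b (c (l 16206392) (l 16232832)) (c (l 269139010183) (l 16213472))))) (c (b (c (c (l 16214072) (l 16215312)) (l 16219200)) (c (a (c (b (l 16188712) (l 16199464)) (l 16194648)) (l 16220656)) (l 16200632))) (b (c (l 16226920) (l 16234968)) (c (l 16207392) (a (l 174112870135) (l 16237168)))))) (c (a (b (l 279339530471) (l 291150709975)) (b (l 16236120) (l 16237200))) (b (l 262159642423) (l 266991481207)))) (a (l 3) (c (c (c (a (c (b (a (l 291687558023) (l 16234848)) (b (l 289540099991) (a (l 3) (l 293298218551)))) (b (l 299740632183) (a (l 309404354903) (l 16242952)))) (c (l 16228000) (l 16247984))) (a (b (l 16237136) (l 280950212023)) (l 16247960))) (c (a (b (l 16222248)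 (l 240684917287)) (l 16250616)) (a (a (l 259475390183) (c (l 16257176) (l 16261096))) (l 16258280)))) (c (a (l 262696632343) (l 16261416)) (l 16252608)))))) (c (a (a (c (b (b (l 16227808) (l 16230592)) (c (l 16258096) (l 16255848))) (b (b (l 16235192) (l 16236520)) (c (l 16254840) (l 16259720)))) (b (b (l 16245632) (c (l 16247848) (l 16245488))) (c (l 16274432) (l 16267520)))) (c (b (l 16281152) (l 16309248)) (b (l 16274800) (l 16297544)))) (a (c (a (b (c (b (l 16244416) (l 16245456)) (l 16246752)) (c (l 16266712) (l 16268704))) (c (b (l 16249464) (l 16271120)) (b (l 16254904) (l 16276768)))) (b (b (l 16247984) (l 16249040)) (l 16270640))) (c (a (b (l 16262168) (l 16283856)) (l 16291664)) (a (c (b (l 16266376) (l 16288352)) (l 16276928)) (c (l 16289496) (b (l 16279640) (l 16301744)))))))), by decide +kernel⟩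

def k18_pm_011 : ∃ t, chk3 f_pm_011 t 31 62 1 = true :=
  ⟨(a (a (l 3) (a (l 3) (a (b (b (c (c (c (c (l 266991603175) (l 264844133095)) (l 319604977463)) (c (l 241221843783) (l 268602213351))) (l 283634645895)) (l 3)) (l 3)) (c (c (b (c (b (b (a (l 16250936) (l 16273600)) (l 16265344)) (l 291150864151)) (b (l 306720058551) (l 16304720))) (c (c (b (l 279339772679) (a (l 3) (b (l 276118576615) (l 3)))) (l 271823641479)) (l 264307430327))) (c (b (b (l 16276624) (l 16302352)) (c (l 16344448) (l 16341200))) (b (b (l 16283088) (l 16308048)) (l 257864871463)))) (c (b (l 121499596615) (l 16352392)) (b (l 16293152) (l 16346896))))))) (c (a (c (a (b (b (a (c (l 16262304) (l 16278840)) (l 16287008)) (a (l 16305728) (l 16307488))) (c (a (b (l 16339240) (c (c (b (l 16365648) (l 301888414839)) (l 16371208)) (l 16367696))) (l 16354760)) (l 16356296))) (b (l 16310256) (b (l 16341456) (l 16369240)))) (c (a (b (b (l 16277672) (a (l 16297264) (l 16296536))) (c (l 16338040) (l 16332760))) (b (l 16296552) (b (l 16323344)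 (l 16348240)))) (a (b (a (l 16291536) (l 16289400)) (l 16338336)) (b (l 16294888) (l 16332840))))) (b (c (l 16345064) (l 16327160)) (c (l 16361912) (c (l 16360832) (l 16352928))))) (a (a (c (b (c (a (c (l 16298664) (l 16301136)) (l 16298128)) (l 16301200)) (c (l 16304088) (l 16348624))) (b (l 16296680) (l 16344544))) (c (c (b (l 16299616) (l 16337888)) (b (l 16305536) (l 16344144))) (l 16305312))) (c (a (b (l 16312296) (l 16343304)) (l 16345280)) (a (c (l 16312120) (l 16333056)) (c (l 16343632) (l 16345232))))))), by decide +kernel⟩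

def k19_pm_011 : ∃ t, chk3 f_pm_011 t 62 63 1 = true :=
  ⟨(l 3), by decide +kernel⟩

def k20_pm_011 : ∃ t, chk3 f_pm_011 t 63 63 2 = true :=
  ⟨(c (a (b (a (c (a (b (c (b (c (l 300814700567) (l 296519734263)) (c (l 16380080) (l 294909150567))) (l 292224794199)) (a (l 3) (c (l 305109734647) (b (l 16398432) (l 291687981415))))) (a (b (c (b (l 16373496) (l 16386024)) (l 16397832)) (c (l 16421360) (l 16426032))) (c (b (l 16402320) (l 16425592)) (l 16412184)))) (a (b (l 16390248) (l 278266209047)) (l 16404088))) (c (b (l 16406136) (c (a (l 16432912) (l 16442200)) (l 16432960))) (l 16406360))) (b (a (c (a (c (l 281487452951) (b (l 319068412951) (l 3))) (a (c (l 16438392) (l 279876868535)) (c (l 16442960) (l 16450768)))) (c (a (b (l 336248292183) (l 3)) (c (l 285245585655) (l 16450176))) (l 284708712391))) (c (a (c (l 16451944) (l 16456304)) (l 16463936)) (l 16450760))) (a (a (l 3) (c (c (a (l 16458680) (l 16461776)) (l 292761768247)) (c (b (l 303499225399) (l 291688058615)) (c (l 295983055911) (l 16472400)))))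 (c (c (l 16477656) (a (b (l 16472632) (l 16480648)) (l 16488536))) (c (a (b (l 16473592) (l 16485344)) (l 16486048)) (l 16475408)))))) (b (a (l 16424328) (l 16436920)) (c (a (b (l 16476152) (c (l 16500136) (l 16502176))) (l 16503240)) (l 16417560)))) (a (a (b (c (c (l 230484680551) (a (l 266991881511) (l 16383616))) (a (l 288466608887) (l 16387624))) (c (b (c (l 279876865495) (a (l 402283408759) (l 16423672))) (a (l 3) (c (l 16462976) (c (l 291151177463) (l 16449648))))) (a (l 677698126295) (l 301888482071)))) (c (b (c (l 16392640) (l 16382656)) (c (b (l 16434536) (l 16462728)) (b (l 16422632) (l 16449832)))) (b (l 16384176) (l 16437520)))) (b (c (a (l 16395912) (l 16409048)) (l 16393504)) (c (b (l 16442440) (c (l 16475960) (l 16461344))) (l 16444912))))), by decide +kernel⟩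

def k21_pm_011 : ∃ t, chk3 f_pm_011 t 63 63 3 = true :=
  ⟨(a (a (b (c (c (c (l 294909058999) (l 292761587223)) (l 16402728)) (l 286856016215)) (c (c (a (l 745343872631) (b (l 16437632) (a (l 758228825783) (l 16463408)))) (a (l 805473441015) (l 293298585191))) (b (l 276118709255) (a (l 3) (c (l 16468160) (l 284171828999)))))) (c (c (b (l 16389632) (a (l 16445664) (l 16440544))) (b (l 16396312) (a (c (l 16452504) (l 16454720)) (l 16448448)))) (b (l 16397488) (a (l 16431312) (l 16451736))))) (c (a (b (l 16388688) (c (l 16439952) (l 16443592))) (l 16421832)) (a (c (a (l 16422632) (l 16419632)) (l 16422144)) (a (c (l 16418000) (l 16421008)) (b (l 16397072) (l 16448352)))))), by decide +kernel⟩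

theorem s22_pm_011 : ∃ t, chk3 f_pm_011 t 63 63 1 = true := ex3_c k20_pm_011 k21_pm_011

theorem s23_pm_011 : ∃ t, chk3 f_pm_011 t 31 63 1 = true := ex3_a k19_pm_011 s22_pm_011

theorem s24_pm_011 : ∃ t, chk3 f_pm_011 t 31 31 1 = true := ex3_b k18_pm_011 s23_pm_011

theorem s25_pm_011 : ∃ t, chk3 f_pm_011 t 31 30 1 = true := ex3_b k16_pm_011 k17_pm_011

theorem s26_pm_011 : ∃ t, chk3 f_pm_011 t 31 15 1 = true := ex3_b s25_pm_011 s24_pm_011

theorem s27_pm_011 : ∃ t, chk3 f_pm_011 t 15 15 1 = true := ex3_a k15_pm_011 s26_pm_011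

theorem s28_pm_011 : ∃ t, chk3 f_pm_011 t 31 14 1 = true := ex3_b k13_pm_011 k14_pm_011

theorem s29_pm_011 : ∃ t, chk3 f_pm_011 t 15 14 1 = true := ex3_a k12_pm_011 s28_pm_011

theorem s30_pm_011 : ∃ t, chk3 f_pm_011 t 15 7 1 = true := ex3_b s29_pm_011 s27_pm_011

theorem s31_pm_011 : ∃ t, chk3 f_pm_011 t 7 7 1 = true := ex3_a k11_pm_011 s30_pm_011

theorem s32_pm_011 : ∃ t, chk3 f_pm_011 t 61 13 1 = true := ex3_a k8_pm_011 k9_pm_011

theorem s33_pm_011 : ∃ t, chk3 f_pm_011 t 30 13 1 = true := ex3_a k7_pm_011 s32_pm_011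

theorem s34_pm_011 : ∃ t, chk3 f_pm_011 t 15 13 1 = true := ex3_a s33_pm_011 k10_pm_011

theorem s35_pm_011 : ∃ t, chk3 f_pm_011 t 15 12 1 = true := ex3_a k5_pm_011 k6_pm_011

theorem s36_pm_011 : ∃ t, chk3 f_pm_011 t 15 6 1 = true := ex3_b s35_pm_011 s34_pm_011

theorem s37_pm_011 : ∃ t, chk3 f_pm_011 t 7 6 1 = true := ex3_a k4_pm_011 s36_pm_011

theorem s38_pm_011 : ∃ t, chk3 f_pm_011 t 7 3 1 = true := ex3_b s37_pm_011 s31_pm_011

theorem s39_pm_011 : ∃ t, chk3 f_pm_011 t 7 2 1 = true := ex3_a k2_pm_011 k3_pm_011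

theorem s40_pm_011 : ∃ t, chk3 f_pm_011 t 7 1 1 = true := ex3_b s39_pm_011 s38_pm_011

theorem s41_pm_011 : ∃ t, chk3 f_pm_011 t 3 1 1 = true := ex3_a k1_pm_011 s40_pm_011

theorem s42_pm_011 : ∃ t, chk3 f_pm_011 t 1 1 1 = true := ex3_a k0_pm_011 s41_pm_011

theorem c_pm_011 : CertFX 0 536870912 536870912 469762048 1046898278 26843546 true true false .pnn 0 1 1
    ndF0q0 ndF6q1 pcF1 Cut.none Ext.none :=
  certFX2 (fam := true) (s1 := true) (s2 := false) (a := 0) (b := 1) (c := 1) (cn := .pnn) (n1 := ndF0q0) (n2 := ndF6q1) (pc := pcF1) (cut := Cut.none) (xt := Ext.none) (P1 := 0) (W1 := 536870912) (P2 := 536870912) (W2 := 469762048) (P3 := 1046898278) (W3 := 26843546)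
    rfl (fun _ => rfl) s42_pm_011

noncomputable def f_pm_012 : ℕ → ℕ → ℕ → ℕ → Bool := onCell 1073741824 536870912 536870912 469762048 1046898278 26843546
    (rowFX 2 true true false .pnp 0 1 2 (qsf 0 536870912 536870912 469762048 2) ndF0q0 ndF6q1 pcF2 Cut.none Ext.none)

def k0_pm_012 : ∃ t, chk3 f_pm_012 t 4 4 1 = true :=
  ⟨(b (a (a (a (b (l 16334552) (c (a (l 16412992) (l 16152128)) (a (l 16340608) (l 16286472)))) (c (l 16121640) (l 16104608))) (c (l 15810464) (l 15785352))) (l 2)) (a (a (c (a (c (a (l 16372816) (l 16287152)) (a (l 16367464) (l 16279376))) (c (b (l 16141872) (l 16136344)) (l 16128152))) (a (c (a (l 16361440) (l 16270760)) (l 16121152)) (c (l 16118440) (l 16109600)))) (c (a (c (l 15806688) (l 15794928)) (c (a (l 15779856) (l 15597104)) (l 15717248))) (a (l 15757184) (b (l 15691776) (l 15697576))))) (c (a (a (l 15531136) (l 15355008)) (l 15104928)) (a (l 15406656) (l 15061488))))), by decide +kernel⟩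

def k1_pm_012 : ∃ t, chk3 f_pm_012 t 4 5 1 = true :=
  ⟨(b (a (a (a (c (c (a (l 16295040) (l 16234672)) (a (l 16288528) (l 16223416))) (c (l 16035464) (l 16150072))) (c (c (l 16098544) (l 16104144)) (c (l 16089712) (l 16078976)))) (c (a (c (l 15945880) (l 15930736)) (c (a (l 15805912) (c (l 15710568) (l 15703216))) (l 15741928))) (a (l 15912904) (c (l 15728608) (l 15715280))))) (a (c (a (c (b (l 15543008) (l 15573272)) (l 15541832)) (c (b (l 15355328) (l 15366728)) (b (l 15336568) (l 15348240)))) (a (b (l 15502928) (l 15534056)) (b (l 15309680) (l 15320888)))) (a (b (l 15150096) (c (a (l 15212448) (l 15124384)) (l 15128864))) (c (l 15004600) (l 14958560))))) (a (a (c (a (c (a (l 16219936) (l 16184376)) (a (l 16212320) (l 16169792))) (c (l 16097632) (l 16076672))) (a (c (a (l 16202168) (l 16150904)) (a (l 16188456) (l 16133424))) (c (l 16057400) (l 16044704)))) (c (a (c (l 15958616) (l 15938984)) (c (a (l 15845664) (l 15767800)) (l 15792328))) (a (l 15919728) (c (l 15779616) (l 15766912))))) (a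 (c (c (a (l 15635840) (l 15445432)) (a (l 15620920) (l 15428024))) (a (l 15598544) (l 15401904))) (c (a (c (a (l 15296584) (l 15189568)) (a (l 15277176) (l 15168896))) (b (c (l 15017336) (l 14994232)) (l 15062104))) (a (b (l 15157056) (l 15230496)) (b (l 14960304) (l 15017232))))))), by decide +kernel⟩

def k2_pm_012 : ∃ t, chk3 f_pm_012 t 8 6 1 = true :=
  ⟨(a (b (c (a (c (a (l 16146112) (l 16135616)) (a (l 16137416) (l 16117808))) (c (l 16034496) (l 16050064))) (a (b (c (l 16125808) (l 16087416)) (a (c (l 16105624) (l 16087856)) (l 16050608))) (c (l 16026088) (l 16011488)))) (c (a (b (a (b (c (l 16078856) (l 16069128)) (c (l 16156184) (l 16147800))) (b (c (b (l 16106024) (l 16134056)) (l 16097328)) (c (l 16216224) (l 16197736)))) (c (a (c (l 16100528) (l 16311472)) (c (a (l 16304576) (l 16394280)) (l 16375296))) (a (l 16265024) (l 16319184)))) (b (b (c (b (l 16064728) (l 16115168)) (l 16060352)) (c (l 16150880) (l 16206776))) (c (a (l 16391056) (l 16430536)) (l 16331416)))) (a (b (a (c (b (l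 15950552) (l 16135208)) (b (b (l 16034936) (l 16038296)) (l 16116712))) (b (c (l 16070784) (l 16046528)) (c (l 16171904) (l 16148488)))) (a (c (l 16128848) (a (l 16186520) (l 16292608))) (c (l 16336480) (l 16314432)))) (b (b (c (l 16033944) (l 16018624)) (c (l 16181792) (l 16168592))) (c (l 16287024) (l 16360264)))))) (b (c (c (a (l 15970952) (c (l 15860136) (l 15850792))) (a (l 15946968) (l 15839720))) (a (c (l 15931720) (l 15920952)) (c (l 15827624) (l 15815528)))) (c (b (a (c (b (l 16004280) (l 16179240)) (b (l 15978072) (l 16154960))) (c (b (a (l 15932688) (l 15885176)) (l 16086136)) (l 15877544))) (a (b (c (l 16359984) (l 16295768)) (c (l 16502768) (l 16481848))) (a (b (l 16264648) (l 16369072)) (a (l 16187328) (l 16188208))))) (b (a (b (l 15957256) (l 16138280)) (b (l 15876960) (l 16060216))) (a (b (l 16283336) (l 16472656)) (a (l 16218920) (l 16211256))))))), by decide +kernel⟩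

def k3_pm_012 : ∃ t, chk3 f_pm_012 t 16 14 1 = true :=
  ⟨(c (a (a (c (b (c (b (l 16436528) (l 16498984)) (b (l 16476888) (b (l 16560032) (l 16596432)))) (c (l 16523072) (b (l 16538320) (l 16549792)))) (b (b (l 16474288) (l 16473800)) (c (b (l 16490848) (l 16443232)) (l 16499056)))) (b (a (c (c (b (l 16537312) (l 16644936)) (b (l 16534576) (l 16533736))) (l 16493552)) (c (c (b (l 16565088) (l 16610488)) (l 16524288)) (l 16554144))) (c (c (l 16524592) (a (l 16528880) (l 16643720))) (c (a (a (l 16532888) (l 16630360)) (l 16647240)) (l 16626824))))) (b (b (c (c (l 16433232) (l 16589760)) (l 16569408)) (c (a (c (l 16565320) (l 16552232)) (c (l 16491584) (l 16521712))) (l 16539392))) (c (a (c (l 16587472) (l 16594528)) (l 16527008)) (c (a (l 16584712) (l 16549704)) (l 16587320))))) (a (b (c (a (b (l 16403264) (a (l 16513648) (l 16569600))) (b (l 16509184) (l 16617144))) (a (b (a (l 16420112) (l 16464912)) (a (b (l 16508448) (l 16544224)) (l 16546048))) (b (l 16488512) (l 16597216)))) (c (a (a (l 16515712)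 (l 16512808)) (l 16565024)) (a (a (c (l 16532120) (l 16482408)) (l 16514000)) (l 16522544)))) (b (c (b (l 16547232) (l 16532872)) (l 16426688)) (c (a (l 16630976) (l 16569112)) (l 16604312))))), by decide +kernel⟩

def k4_pm_012 : ∃ t, chk3 f_pm_012 t 16 15 2 = true :=
  ⟨(a (c (b (a (b (l 16410224) (c (l 16392232) (l 16430840))) (a (b (l 16531688) (a (l 16550960) (l 16514768))) (b (l 16630504) (l 16607136)))) (a (b (c (l 16491600) (l 16502624)) (b (c (l 16539272) (l 16545048)) (c (l 16537952) (l 16541432)))) (b (c (a (l 16649088) (l 16662752)) (l 16531720)) (a (b (l 16626064) (l 16547704)) (c (l 16566984) (l 16613344)))))) (b (a (c (b (l 16395064) (l 16385136)) (b (c (a (l 16483096) (l 16518632)) (l 16510864)) (a (c (l 16457640) (l 16412992)) (c (l 16499280) (a (l 16502280) (l 16509576)))))) (c (b (b (l 16567064) (l 16574680)) (a (l 16531568) (l 16609048))) (b (c (l 16570672) (l 16587392)) (a (l 16541984) (c (l 16579328) (l 16570208)))))) (a (c (b (l 16448800) (b (l 16505768) (a (l 16511128) (l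 16569344)))) (a (b (l 16494184) (l 16503120)) (b (l 16495960) (a (l 16590600) (l 16577904))))) (c (b (l 16533792) (a (a (l 16577624) (l 16682760)) (l 16640808))) (b (a (l 16606456) (l 16641528)) (l 16563776)))))) (b (c (b (a (l 16643200) (l 16577768)) (a (b (l 16656768) (l 16638760)) (l 16578264))) (c (b (l 16605624) (a (l 16627384) (l 16601168))) (b (l 16619360) (l 16501312)))) (b (c (a (l 16523824) (l 16488704)) (c (l 16440888) (l 16542968))) (c (a (b (l 16514624) (l 16466416)) (l 16363792)) (a (c (a (l 16578400) (l 16563296)) (l 16612256)) (l 16443200)))))), by decide +kernel⟩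

def k5_pm_012 : ∃ t, chk3 f_pm_012 t 16 15 3 = true :=
  ⟨(a (c (a (b (b (a (l 16481600) (l 16507848)) (a (c (b (l 16447104) (l 16416824)) (l 16452056)) (l 16422048))) (c (b (a (c (l 16493088) (l 16489880)) (a (c (l 16542280) (l 16517440)) (l 16479032))) (b (a (c (l 16525408) (l 16524840)) (c (l 16587880) (l 16542008))) (a (l 16541072) (a (l 16561840) (l 16604720))))) (b (a (l 16490416) (l 16542432)) (c (b (l 16530760) (a (l 16537560) (c (l 16587488) (l 16606312)))) (a (l 16521056) (l 16587168)))))) (b (b (l 16546608) (l 16492080)) (c (c (b (l 16527856) (l 16596824)) (a (b (l 16588280) (l 16599584)) (l 16598928))) (b (l 16590248) (c (b (l 16630080) (l 16589816)) (l 16632280)))))) (b (a (b (a (c (l 16476144) (l 16467504)) (l 16486136)) (a (c (l 16447032) (a (l 16428496) (l 16449472))) (c (l 16487048) (l 16474032)))) (b (l 16523080) (l 16446472))) (a (a (b (c (l 16485488) (l 16476288)) (c (b (l 16518608) (l 16554664)) (b (l 16488432) (a (l 16538720) (l 16554640))))) (b (l 16502312) (c (l 16553848)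 (l 16540512)))) (b (l 16510520) (c (l 16559064) (l 16574560)))))) (b (c (b (l 16565088) (a (l 16584768) (l 16628168))) (b (l 16619024) (l 16516248))) (b (c (c (c (a (l 16660432) (l 16575448)) (l 16601600)) (l 16563896)) (l 16524280)) (c (c (a (l 16586048) (c (l 16511424) (l 16494856))) (c (a (b (l 16648128) (l 16589488)) (l 16537728)) (l 16526896))) (a (l 16602832) (l 16536080)))))), by decide +kernel⟩

def k6_pm_012 : ∃ t, chk3 f_pm_012 t 17 7 1 = true :=
  ⟨(b (c (a (b (c (c (b (l 16554168) (l 16423624)) (l 16424800)) (b (l 16571664) (l 16450904))) (c (c (l 16451904) (l 16461016)) (c (c (l 16404912) (l 16471432)) (l 16473856)))) (c (b (b (l 16417792) (c (a (l 16381160) (l 16277216)) (l 16363384))) (c (a (l 16381384) (l 16313360)) (a (l 16385512) (l 16332096)))) (b (b (l 16483520) (l 16363312)) (l 16358952)))) (b (a (a (l 16421080) (l 16368040)) (b (l 16355832) (l 16274776))) (a (l 16389464) (c (l 16355672) (l 16352400))))) (c (c (b (a (b (l 16491232) (l 16422328)) (a (b (l 16409912) (l 16374656))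 (c (l 16279832) (l 16346960)))) (a (b (l 16359808) (b (l 16340160) (l 16303824))) (c (a (l 16243640) (l 16114392)) (a (l 16182264) (l 16192048))))) (c (b (a (a (l 16537856) (b (l 16477520) (l 16453216))) (b (l 16381208) (l 16350200))) (a (b (l 16329416) (a (l 16410192) (l 16324408))) (b (l 16288152) (l 16197544)))) (a (b (b (l 16512416) (a (l 16528064) (l 16476696))) (a (b (l 16464336) (l 16431200)) (l 16372952))) (b (b (l 16381328) (l 16326480)) (a (l 16288416) (l 16209392)))))) (b (a (a (b (l 16548416) (l 16530144)) (b (l 16477728) (l 16474800))) (c (l 16289616) (b (l 16375984) (l 16364536)))) (a (c (c (a (l 16399280) (l 16286088)) (l 16269032)) (b (l 16401184) (l 16275312))) (c (c (a (l 16199688) (l 16035480)) (l 16222280)) (b (l 16282080) (l 16174552))))))), by decide +kernel⟩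

def k7_pm_012 : ∃ t, chk3 f_pm_012 t 9 6 1 = true :=
  ⟨(a (b (c (c (a (l 15717376) (l 15555440)) (a (l 15703528) (l 15539472))) (a (c (l 15689672) (l 15675816)) (c (l 15523504) (l 15507528)))) (c (b (c (a (l 15668568) (b (l 15645312) (l 15820984))) (b (l 15579232) (l 15884128))) (a (a (l 16161944) (l 16130648)) (c (l 16041384) (l 16098000)))) (b (a (b (l 15758984) (l 15943040)) (b (l 15608600) (l 15791888))) (a (b (l 16154984) (l 16331936)) (l 15962720))))) (b (c (a (c (a (l 15428392) (l 15335688)) (l 15363592)) (c (l 15190712) (l 15169968))) (a (c (l 15345352) (l 15327112)) (l 15138864))) (c (b (a (c (b (l 15487544) (l 15662288)) (l 15516808)) (c (l 15351416) (l 15375760))) (a (c (l 15858736) (l 15955192)) (c (l 15776400) (l 15765552)))) (b (a (b (l 15445680) (l 15628016)) (l 15349352)) (a (l 15753856) (l 15749280)))))), by decide +kernel⟩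

def k8_pm_012 : ∃ t, chk3 f_pm_012 t 9 14 1 = true :=
  ⟨(a (c (b (a (b (l 16294072) (c (l 16300576) (l 16296944))) (c (b (l 16444544) (l 16286512)) (l 16182600))) (c (a (c (l 16282728) (l 16278264)) (c (b (l 16238832) (l 16235256)) (l 16238528))) (a (l 16278448) (l 16235432)))) (b (a (b (l 16333920) (l 16186632)) (a (l 16143184) (l 16235296))) (a (l 16251424) (c (l 16231296) (l 16227168))))) (c (b (a (c (b (l 16258888) (l 16351304)) (l 16173368)) (c (l 15959200) (l 16039680))) (a (a (c (c (l 16161344) (l 16226280)) (l 16223376)) (a (l 16234432) (l 16228840))) (l 16136512))) (b (a (b (l 16210088) (l 16264832)) (b (l 16074224) (l 16290512))) (a (a (l 16217568) (l 16238336)) (l 16238184))))), by decide +kernel⟩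

def k9_pm_012 : ∃ t, chk3 f_pm_012 t 9 15 1 = true :=
  ⟨(a (c (b (c (a (b (l 16253776) (l 16252488)) (c (b (l 16242136) (l 16209680)) (b (l 16234184) (l 16210472)))) (c (a (b (l 16288552) (l 16268520)) (b (l 16235488) (l 16205136))) (l 16186408))) (c (a (b (l 16166744) (l 16055936)) (b (l 16102856) (l 15982536))) (c (a (b (l 16179728) (l 16077720)) (b (l 16110080) (l 16006840))) (a (b (l 16176664) (l 16085552)) (b (l 16108520) (l 16008144)))))) (b (a (c (l 16276088) (l 16271944)) (b (l 16227968) (l 16202072))) (a (c (b (l 16175664) (c (l 16014536) (l 16077960))) (l 16080112)) (c (l 16057112) (l 16050344))))) (c (b (c (a (a (c (l 16085296) (b (l 16199416) (l 16167512))) (c (l 16175808) (l 16168192))) (b (c (l 16194552) (l 16197840)) (c (l 16147472) (l 16142104)))) (a (l 16156600) (l 16090088))) (c (a (c (l 15918576) (b (l 16053952) (l 15931792))) (c (l 15967128) (l 15869656))) (c (a (a (l 15904408) (l 15990912)) (b (l 16036072) (l 15920952))) (a (a (l 15925160) (l 15994056)) (l 15987640))))) (b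 (a (c (l 16173360) (l 16168744)) (b (l 16189632) (l 16140576))) (a (c (l 16001864) (l 15994792)) (l 15958184))))), by decide +kernel⟩

def k10_pm_012 : ∃ t, chk3 f_pm_012 t 5 2 1 = true :=
  ⟨(b (l 2) (b (a (a (a (c (l 14854504) (l 14804560)) (l 14918264)) (c (l 15649128) (l 15619824))) (l 2)) (a (a (a (c (b (a (l 14877864) (l 14799848)) (c (a (l 14914608) (l 14822456)) (l 14845952))) (b (l 14791504) (l 14809048))) (b (l 14984056) (b (l 14975232) (c (a (l 14893048) (l 15104200)) (a (l 14843960) (l 15060440)))))) (c (l 15527864) (l 15602992))) (a (a (l 16208456) (l 16574856)) (l 16776688))))), by decide +kernel⟩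

def k11_pm_012 : ∃ t, chk3 f_pm_012 t 10 6 1 = true :=
  ⟨(a (a (b (c (c (b (l 14951424) (l 15039792)) (l 14971864)) (l 14748176)) (c (b (c (b (l 15124192) (l 15293784)) (l 15187992)) (c (l 15584312) (l 15570952))) (b (l 15074072) (l 15550912)))) (b (c (a (c (l 14996888) (l 14973552)) (b (c (l 15136120) (l 15114672)) (l 15190696))) (a (l 14939160) (b (l 15082520) (l 15149488)))) (c (a (b (c (l 15195064) (l 15174864)) (l 15503024)) (b (c (l 15297904) (l 15321544)) (l 15519304))) (a (b (l 15144576) (l 15517456)) (b (l 15294096) (l 15641880)))))) (b (b (c (a (c (l 15434432) (l 15416808)) (l 15741240)) (a (l 15390864) (l 15799992))) (c (a (l 15463040) (l 15747728)) (a (l 15428696) (l 15806920)))) (c (b (a (c (l 15595560) (l 15580616)) (b (l 15872216) (l 15995968))) (a (l 15732080) (l 15982392))) (a (b (l 15558192) (l 15882024)) (b (l 15912384) (l 16183144)))))), by decide +kernel⟩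

def k12_pm_012 : ∃ t, chk3 f_pm_012 t 10 7 1 = true :=
  ⟨(b (a (a (c (b (b (l 15844008) (c (l 16072608) (l 16089440))) (c (l 16289624) (l 16288648))) (b (b (l 15870248) (l 16041280)) (l 16203312))) (c (b (a (c (l 15917656) (l 15932016)) (a (l 15851064) (l 15981880))) (a (l 16138592) (l 16172200))) (b (a (l 15838216) (b (l 15926936) (l 16117792))) (a (l 16219072) (l 16297272))))) (c (b (a (c (l 16074352) (l 16156352)) (c (l 16112616) (l 16193736))) (a (l 16074368) (l 15967184))) (b (a (l 16069648) (l 16084736)) (a (l 16173536) (l 15953016))))) (a (c (a (b (c (b (l 16259776) (c (l 16143032) (l 16159328))) (l 16025720)) (c (c (l 15829376) (b (l 16015664) (l 15897256))) (c (l 15773992) (l 15976304)))) (b (a (c (l 16216776) (l 16216376)) (b (l 16209760) (l 16004504))) (c (c (a (l 15735944) (b (l 15798392) (l 15723792))) (a (l 15697296) (b (l 15891272) (l 15688864)))) (a (l 15923680) (l 15763680))))) (a (b (b (l 16255152) (l 16091760)) (l 15884480)) (b (a (l 16087720) (l 15976824)) (a (l 15753048)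 (b (l 15890760) (l 15742584)))))) (c (b (b (a (l 16044400) (l 15824960)) (c (l 15747856) (l 15784160))) (c (a (c (b (l 15708928) (l 15502104)) (l 15618648)) (c (l 15369984) (l 15378416))) (a (l 15562384) (l 15382056)))) (b (a (l 15845880) (l 15741992)) (a (b (l 15707408) (l 15514848)) (l 15366128)))))), by decide +kernel⟩

def k13_pm_012 : ∃ t, chk3 f_pm_012 t 11 3 1 = true :=
  ⟨(b (a (b (a (c (b (l 16209432) (l 16187584)) (l 16091512)) (l 16487816)) (b (a (c (b (l 16228256) (l 16334672)) (b (l 16214176) (l 16325352))) (c (b (l 16565288) (l 16603888)) (l 16523160))) (c (a (l 16301088) (l 16165864)) (a (l 16426144) (l 16302488))))) (b (c (l 16776680) (l 16776672)) (b (a (c (b (l 16748472) (l 16532856)) (l 16606728)) (l 16649800)) (c (a (l 16043832) (l 16211048)) (l 16070760))))) (a (b (b (c (a (l 15830824) (l 15742528)) (a (l 15942272) (l 15824792))) (c (a (l 15758368) (l 15552592)) (l 15460976))) (c (b (c (a (l 15548576) (l 15334312)) (l 15259024)) (c (a (l 15149616) (l 14926784)) (l 14913792)))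 (b (a (l 15515192) (l 15291072)) (a (l 15131416) (l 14898824))))) (b (c (b (a (a (l 15717112) (l 15736872)) (l 15736872)) (a (l 15435240) (l 15434600))) (b (a (l 15710472) (l 15709848)) (l 15400056))) (c (b (c (l 15064688) (l 15192824)) (c (a (l 14799168) (l 14798464)) (l 14796160))) (b (l 15099672) (a (l 14765520) (l 14764784))))))), by decide +kernel⟩

def k14_pm_012 : ∃ t, chk3 f_pm_012 t 3 1 1 = true :=
  ⟨(b (l 2) (b (a (a (b (c (l 16777216) (l 16777216)) (b (c (l 16651432) (l 16648168)) (c (l 16211048) (l 16196344)))) (b (l 2) (b (l 2) (c (l 16211048) (l 16196344))))) (l 2)) (a (b (a (b (a (c (l 15736872) (l 15709848)) (l 15723360)) (c (a (l 15434600) (l 15434600)) (l 15399728))) (c (l 15356944) (b (l 15709848) (l 15399728)))) (c (a (b (a (l 15201816) (l 15201816)) (c (l 14798464) (l 14795800))) (a (b (l 15201816) (l 14794776)) (b (l 15201816) (l 14794776)))) (a (b (a (l 15162240) (l 15162240)) (c (l 14777520) (l 14752048))) (a (b (l 15162240) (l 14764784)) (b (l 15162240) (l 14764784))))))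 (b (a (b (l 2) (l 15417160)) (l 2)) (c (b (l 15055016) (a (l 14794776) (l 14794776))) (a (b (l 15162240) (l 14764784)) (b (l 2) (l 14764784)))))))), by decide +kernel⟩

theorem s15_pm_012 : ∃ t, chk3 f_pm_012 t 10 3 1 = true := ex3_b k11_pm_012 k12_pm_012

theorem s16_pm_012 : ∃ t, chk3 f_pm_012 t 5 3 1 = true := ex3_a s15_pm_012 k13_pm_012

theorem s17_pm_012 : ∃ t, chk3 f_pm_012 t 5 1 1 = true := ex3_b k10_pm_012 s16_pm_012

theorem s18_pm_012 : ∃ t, chk3 f_pm_012 t 9 7 1 = true := ex3_b k8_pm_012 k9_pm_012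

theorem s19_pm_012 : ∃ t, chk3 f_pm_012 t 9 3 1 = true := ex3_b k7_pm_012 s18_pm_012

theorem s20_pm_012 : ∃ t, chk3 f_pm_012 t 16 15 1 = true := ex3_c k4_pm_012 k5_pm_012

theorem s21_pm_012 : ∃ t, chk3 f_pm_012 t 16 7 1 = true := ex3_b k3_pm_012 s20_pm_012

theorem s22_pm_012 : ∃ t, chk3 f_pm_012 t 8 7 1 = true := ex3_a s21_pm_012 k6_pm_012

theorem s23_pm_012 : ∃ t, chk3 f_pm_012 t 8 3 1 = true := ex3_b k2_pm_012 s22_pm_012

theorem s24_pm_012 : ∃ t, chk3 f_pm_012 t 4 3 1 = true := ex3_a s23_pm_012 s19_pm_012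

theorem s25_pm_012 : ∃ t, chk3 f_pm_012 t 4 2 1 = true := ex3_b k0_pm_012 k1_pm_012

theorem s26_pm_012 : ∃ t, chk3 f_pm_012 t 4 1 1 = true := ex3_b s25_pm_012 s24_pm_012

theorem s27_pm_012 : ∃ t, chk3 f_pm_012 t 2 1 1 = true := ex3_a s26_pm_012 s17_pm_012

theorem s28_pm_012 : ∃ t, chk3 f_pm_012 t 1 1 1 = true := ex3_a s27_pm_012 k14_pm_012

theorem c_pm_012 : CertFX 0 536870912 536870912 469762048 1046898278 26843546 true true false .pnp 0 1 2
    ndF0q0 ndF6q1 pcF2 Cut.none Ext.none :=
  certFX2 (fam := true) (s1 := true) (s2 := false) (a := 0) (b := 1) (c := 2) (cn := .pnp) (n1 := ndF0q0) (n2 := ndF6q1) (pc := pcF2) (cut := Cut.none) (xt := Ext.none) (P1 := 0) (W1 := 536870912) (P2 := 536870912) (W2 := 469762048) (P3 := 1046898278) (W3 := 26843546)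
    rfl (fun _ => rfl) s28_pm_012

end Pool.Agent.Strip051.G.IE1.Tab.C.FA06

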