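import Pool.Agent.Strip051.G.IE1.Tab

/-! # Certificates F2 (generated) -/

set_option linter.all false
set_option maxRecDepth 100000

namespace Pool.Agent.Strip051.G.IE1.Tab.C.FA00

open Pool.Agent.Strip051.PB Pool.Agent.Strip051.PB.T
open Pool.Agent.Strip051.G.IE1.Tab

noncomputable def cut_pm_213 : Cut := Cut.of [[⟨3, 0, 0, 1449551462⟩], [⟨4, 0, 0, 2845415833⟩], [⟨0, 1, 0, 67108864⟩, ⟨1, 1, 0, 67108864⟩, ⟨2, 2, 0, 67108864⟩]]

noncomputable def f_pm_213 : ℕ → ℕ → ℕ → ℕ → Bool := onCell 0 536870912 536870912 536870912 1046898278 26843546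
    (rowFX 0 true true false .pnn 2 1 3 (qsf 0 536870912 536870912 536870912 3) ndF0q2 ndF0q1 pcF3 cut_pm_213 Ext.none)

def k0_pm_213 : ∃ t, chk3 f_pm_213 t 4 4 1 = true :=
  ⟨(a (l 14) (a (l 14) (a (l 14) (b (b (b (c (c (l 16777216) (l 16777216)) (c (l 16777216) (l 16777216))) (l 14)) (l 14)) (l 14))))), by decide +kernel⟩

def k1_pm_213 : ∃ t, chk3 f_pm_213 t 10 8 1 = true :=
  ⟨(b (c (a (c (c (l 16777216) (l 16777216)) (c (l 16777216) (l 16777216))) (c (a (b (l 16777216) (l 16777216)) (b (a (l 16777216) (l 16777216)) (a (l 16777216) (l 16777216)))) (a (b (l 16777216) (l 16777216)) (b (l 16777216) (a (l 16777216) (l 16777216)))))) (a (c (c (l 16777216) (l 16777216)) (c (l 16777216) (l 16777216))) (c (a (b (l 16777216) (l 16777216)) (b (l 16777216) (a (l 16777216) (l 16777216)))) (a (b (l 16777216) (l 16777216)) (b (l 16777216) (a (l 16777216) (l 16777216))))))) (a (a (l 14) (b (c (c (l 16777216) (l 16777216)) (c (l 16777216) (l 16777216))) (l 14))) (c (c (b (a (l 16777216) (l 16777216))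 (c (l 16777216) (l 16777216))) (b (c (l 16777216) (l 16777216)) (c (l 16777216) (l 16777216)))) (c (b (c (l 16777216) (l 16777216)) (c (l 16777216) (l 16777216))) (c (b (l 16777216) (l 16777216)) (b (l 16777216) (l 16777216))))))), by decide +kernel⟩

def k2_pm_213 : ∃ t, chk3 f_pm_213 t 11 8 1 = true :=
  ⟨(c (a (b (c (c (l 16777216) (l 16777216)) (c (l 16777216) (l 16777216))) (c (a (b (a (l 16777216) (l 16777216)) (a (l 16777216) (b (l 16777216) (l 16777216)))) (c (l 16777216) (l 16777216))) (a (b (a (c (l 16777216) (l 16777216)) (l 16777216)) (a (l 16777216) (b (l 16777216) (l 16777216)))) (b (l 16777216) (l 16777216))))) (c (b (c (l 16777216) (l 16777216)) (a (c (l 16777216) (l 16777216)) (b (l 16777216) (a (l 16777216) (l 16777216))))) (b (c (l 16777216) (l 16777216)) (a (c (l 16777216) (l 16777216)) (b (l 16777216) (a (l 16777216) (l 16777216))))))) (c (a (b (c (l 16777216) (l 16777216)) (a (b (a (l 16777216) (l 16777216)) (a (l 16777216) (c (l 16777216) (l 16777216)))) (c (l 16777216)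 (l 16777216)))) (b (c (l 16777216) (l 16777216)) (c (b (l 16777216) (l 16777216)) (b (l 16777216) (l 16777216))))) (c (a (b (l 16777216) (a (b (l 16777216) (l 16777216)) (l 16777216))) (b (l 16777216) (b (l 16777216) (l 16777216)))) (a (b (l 16777216) (a (b (l 16777216) (l 16777216)) (l 16777216))) (b (l 16777216) (l 16777216)))))), by decide +kernel⟩

def k3_pm_213 : ∃ t, chk3 f_pm_213 t 5 9 1 = true :=
  ⟨(b (a (b (a (l 14) (a (l 14) (c (c (l 16777216) (l 16777216)) (c (l 16777216) (c (l 16777216) (l 16777216)))))) (l 14)) (c (a (c (a (b (c (l 16777216) (l 16777216)) (l 16777216)) (b (a (b (l 16777216) (l 16777216)) (l 16777216)) (a (l 16777216) (l 16777216)))) (a (b (c (l 16777216) (l 16777216)) (l 16777216)) (b (a (b (l 16777216) (l 16777216)) (l 16777216)) (a (l 16777216) (b (l 16777216) (l 16777216)))))) (c (a (c (l 16777216) (l 16777216)) (b (c (l 16777216) (l 16777216)) (l 16777216))) (c (b (a (l 16777216) (l 16777216)) (l 16777216)) (b (l 16777216) (l 16777216))))) (a (c (a (b (c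 (l 16777216) (l 16777216)) (l 16777216)) (b (a (b (l 16777216) (l 16777216)) (l 16777216)) (a (l 16777216) (b (l 16777216) (l 16777216))))) (a (b (c (l 16777216) (l 16777216)) (l 16777216)) (b (c (l 16777216) (l 16777216)) (a (l 16777216) (l 16777216))))) (c (c (b (l 16777216) (l 16777216)) (b (l 16777216) (l 16777216))) (c (b (l 16777216) (l 16777216)) (b (l 16777216) (l 16777216))))))) (a (l 14) (b (a (a (l 14) (c (c (l 16777216) (c (l 16777216) (l 16777216))) (c (c (l 16777216) (l 16777216)) (c (l 16777216) (l 16777216))))) (c (c (a (a (l 16777216) (l 16777216)) (l 16777216)) (a (a (b (l 16777216) (l 16777216)) (l 16777216)) (l 16777216))) (c (a (a (b (l 16777216) (l 16777216)) (l 16777216)) (l 16777216)) (a (a (l 16777216) (l 16777216)) (l 16777216))))) (a (l 14) (c (a (c (a (l 16777216) (l 16777216)) (a (l 16777216) (b (l 16777216) (l 16777216)))) (c (l 16777216) (l 16777216))) (a (c (a (l 16777216) (b (l 16777216) (l 16777216))) (a (l 16777216) (b (l 16777216) (l 16777216)))) (c (l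 16777216) (l 16777216)))))))), by decide +kernel⟩

def k4_pm_213 : ∃ t, chk3 f_pm_213 t 2 5 1 = true :=
  ⟨(a (l 14) (b (b (b (a (l 14) (a (l 14) (a (l 14) (a (a (l 14) (b (c (l 16777216) (l 16777216)) (l 14))) (c (c (l 16777216) (l 16777216)) (c (l 16777216) (l 16777216))))))) (l 14)) (l 14)) (l 14))), by decide +kernel⟩

def k5_pm_213 : ∃ t, chk3 f_pm_213 t 2 3 1 = true :=
  ⟨(l 14), by decide +kernel⟩

def k6_pm_213 : ∃ t, chk3 f_pm_213 t 12 4 2 = true :=
  ⟨(b (c (a (b (c (a (l 16777216) (l 16777216)) (a (l 16777216) (l 16777216))) (c (a (l 16777216) (l 16777216)) (a (b (l 16777216) (l 16777216)) (l 16777216)))) (b (c (a (l 16777216) (l 16777216)) (l 16777216)) (c (a (l 16777216) (l 16777216)) (a (l 16777216) (l 16777216))))) (a (b (c (a (l 16777216) (l 16777216)) (a (l 16777216) (l 16777216))) (b (c (l 16777216) (l 16777216)) (c (a (l 16777216) (l 16777216)) (a (l 16777216) (l 16777216))))) (b (c (l 16777216) (l 16777216)) (a (c (l 16777216) (l 16777216)) (c (l 16777216) (l 16777216))))))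 (c (a (b (c (b (a (l 16777216) (l 16777216)) (a (l 16777216) (l 16777216))) (b (a (l 16777216) (l 16777216)) (a (l 16777216) (l 16777216)))) (a (c (l 16777216) (l 16777216)) (c (l 16777216) (l 16777216)))) (b (c (b (a (l 16777216) (l 16777216)) (a (l 16777216) (l 16777216))) (b (a (l 16777216) (l 16777216)) (a (l 16777216) (l 16777216)))) (c (a (l 16777216) (l 16777216)) (a (l 16777216) (l 16777216))))) (b (a (c (b (a (l 16777216) (l 16777216)) (a (l 16777216) (l 16777216))) (b (a (l 16777216) (l 16777216)) (a (l 16777216) (l 16777216)))) (c (b (a (l 16777216) (l 16777216)) (a (l 16777216) (l 16777216))) (b (a (l 16777216) (l 16777216)) (a (l 16777216) (l 16777216))))) (a (c (a (l 16777216) (b (l 16777216) (l 16777216))) (a (l 16777216) (b (l 16777216) (l 16777216)))) (c (a (l 16777216) (l 16777216)) (a (b (l 16777216) (l 16777216)) (b (l 16777216) (l 16777216)))))))), by decide +kernel⟩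

def k7_pm_213 : ∃ t, chk3 f_pm_213 t 12 4 3 = true :=
  ⟨(b (c (a (b (c (a (l 16777216) (l 16777216)) (a (l 16777216) (l 16777216))) (c (b (l 16777216) (a (l 16777216) (l 16777216))) (a (l 16777216) (l 16777216)))) (b (c (a (l 16777216) (l 16777216)) (a (l 16777216) (l 16777216))) (c (b (l 16777216) (l 16777216)) (a (l 16777216) (l 16777216))))) (a (b (c (a (l 16777216) (l 16777216)) (l 16777216)) (c (a (l 16777216) (l 16777216)) (a (l 16777216) (l 16777216)))) (b (c (a (l 16777216) (l 16777216)) (a (l 16777216) (l 16777216))) (c (a (l 16777216) (l 16777216)) (a (l 16777216) (l 16777216)))))) (c (a (b (c (b (a (l 16777216) (l 16777216)) (a (l 16777216) (l 16777216))) (a (b (l 16777216) (l 16777216)) (b (l 16777216) (l 16777216)))) (c (a (l 16777216) (l 16777216)) (a (l 16777216) (l 16777216)))) (b (c (b (a (l 16777216) (l 16777216)) (a (l 16777216) (l 16777216))) (b (a (l 16777216) (l 16777216)) (a (l 16777216) (l 16777216)))) (c (a (b (l 16777216) (l 16777216)) (l 16777216)) (a (l 16777216)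 (l 16777216))))) (a (b (b (c (a (l 16777216) (l 16777216)) (l 16777216)) (a (l 16777216) (c (l 16777216) (l 16777216)))) (c (a (l 16777216) (l 16777216)) (a (l 16777216) (l 16777216)))) (b (c (b (a (l 16777216) (l 16777216)) (a (l 16777216) (l 16777216))) (a (b (l 16777216) (l 16777216)) (b (l 16777216) (l 16777216)))) (c (a (l 16777216) (l 16777216)) (a (l 16777216) (l 16777216))))))), by decide +kernel⟩

def k8_pm_213 : ∃ t, chk3 f_pm_213 t 13 4 2 = true :=
  ⟨(b (a (c (a (b (c (l 16760504) (l 16739424)) (c (l 16760504) (a (l 16773872) (l 16746792)))) (b (c (l 16698232) (l 16697720)) (c (l 16698232) (l 16697720)))) (a (b (c (l 16739312) (l 16739208)) (c (a (l 16773848) (l 16746592)) (a (l 16773824) (l 16746400)))) (b (c (l 16697200) (l 16696680)) (c (l 16697200) (l 16675712))))) (c (b (a (l 16608504) (l 16557016)) (a (l 16629480) (l 16557016))) (b (c (a (l 16628032) (l 16554856)) (a (l 16627064) (l 16553416))) (c (l 16549880) (a (l 16627064) (l 16553416)))))) (a (b (c (a (b (c (l 16760504)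 (l 16760400)) (a (c (l 16773888) (l 16773872)) (l 16746896))) (b (l 16677008) (l 16656032))) (a (b (a (c (l 16773848) (l 16773824)) (l 16725528)) (a (a (l 16777216) (l 16749472)) (l 16725528))) (b (c (l 16697200) (l 16696680)) (c (l 16697200) (l 16696680))))) (a (c (c (a (l 16773888) (l 16746992)) (a (l 16773872) (l 16746792))) (c (a (l 16752880) (l 16746592)) (a (a (l 16777216) (l 16770424)) (l 16746400)))) (c (c (l 16698232) (l 16676744)) (c (l 16676224) (a (l 16713512) (l 16679672)))))) (b (b (c (l 16530704) (a (l 16627544) (l 16554136))) (c (l 16530704) (a (l 16627544) (l 16554136)))) (c (a (b (l 16629480) (l 16629480)) (l 16557016)) (a (c (l 16628032) (l 16627064)) (c (l 16554856) (l 16553416))))))), by decide +kernel⟩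

def k9_pm_213 : ∃ t, chk3 f_pm_213 t 13 8 3 = true :=
  ⟨(a (c (a (b (c (l 16718128) (b (l 16738984) (l 16738984))) (c (b (l 16739096) (l 16739096)) (b (l 16738984) (l 16738984)))) (b (c (l 16696160) (l 16674672)) (c (l 16675192) (b (l 16695648) (l 16695648))))) (a (b (c (b (l 16738880) (l 16738880)) (a (l 16773736) (l 16745608))) (c (b (l 16738880) (l 16717904)) (a (l 16752768) (l 16724632)))) (b (c (l 16653184) (b (l 16694608) (l 16673640))) (c (b (l 16695128) (l 16674160)) (b (l 16673640) (l 16673640)))))) (c (b (c (a (l 16626096) (l 16551976)) (a (l 16625136) (l 16550536))) (c (a (l 16626096) (l 16551976)) (a (l 16604160) (l 16550536)))) (b (c (a (l 16582224) (b (l 16549096) (l 16549096))) (b (a (l 16623200) (l 16547664)) (a (l 16623200) (l 16547664)))) (c (a (b (l 16624168) (l 16624168)) (l 16507160)) (a (b (l 16623200) (l 16623200)) (b (l 16547664) (l 16547664))))))), by decide +kernel⟩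

def k10_pm_213 : ∃ t, chk3 f_pm_213 t 13 9 3 = true :=
  ⟨(a (c (b (a (b (c (a (l 16773808) (l 16746200)) (a (l 16773784) (l 16746000))) (a (a (l 16777216) (l 16749384)) (l 16725128))) (b (c (l 16696160) (l 16674672)) (c (l 16696160) (l 16695648)))) (a (c (a (a (l 16777216) (l 16770376)) (l 16746200)) (a (a (l 16777216) (l 16770336)) (l 16746000))) (c (a (l 16713096) (l 16679048)) (b (l 16695648) (l 16695648))))) (b (a (b (c (a (l 16773760) (l 16745800)) (a (l 16773736) (l 16745608))) (a (a (l 16777216) (l 16749296)) (l 16724736))) (b (c (l 16674160) (l 16673640)) (c (l 16674160) (l 16673640)))) (a (c (a (a (l 16777216) (l 16770288)) (l 16724832)) (a (l 16752768) (l 16745608))) (c (b (l 16674160) (l 16695128)) (b (l 16673640) (l 16673640)))))) (a (b (c (b (c (l 16626096) (l 16625136)) (l 16604648)) (b (c (l 16624168) (l 16623200)) (c (l 16624168) (l 16623200)))) (c (b (c (l 16626096) (l 16625136)) (l 16604648)) (b (c (l 16624168) (l 16623200)) (c (l 16624168) (l 16623200))))) (b (c (b (l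 16530288) (l 16551256)) (b (c (l 16549096) (l 16547664)) (c (l 16549096) (l 16547664)))) (c (c (l 16551976) (l 16550536)) (c (l 16528128) (b (l 16547664) (l 16547664))))))), by decide +kernel⟩

def k11_pm_213 : ∃ t, chk3 f_pm_213 t 6 20 1 = true :=
  ⟨(a (c (c (a (a (c (l 16777216) (l 16777216)) (c (l 16777216) (l 16777216))) (a (c (l 16777216) (l 16777216)) (c (l 16777216) (l 16777216)))) (b (a (a (l 16777216) (a (l 16777216) (l 16777216))) (c (l 16777216) (a (l 16777216) (l 16777216)))) (a (a (l 16777216) (c (l 16777216) (l 16777216))) (c (a (l 16777216) (l 16777216)) (a (l 16777216) (l 16777216)))))) (a (c (a (c (l 16777216) (l 16777216)) (c (b (l 16777216) (l 16777216)) (b (l 16777216) (l 16777216)))) (c (a (l 16777216) (b (l 16777216) (l 16777216))) (a (l 16777216) (l 16777216)))) (c (c (a (b (l 16777216) (l 16777216)) (b (l 16777216) (l 16777216))) (a (b (l 16777216) (l 16777216)) (b (l 16777216) (l 16777216)))) (c (a (b (l 16777216) (l 16777216)) (b (l 16777216) (l 16777216))) (a (l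 16777216) (b (l 16777216) (l 16777216))))))) (c (a (c (a (c (a (l 16773888) (l 16746992)) (a (l 16752896) (l 16746792))) (c (l 16677264) (l 16676744))) (a (c (a (a (l 16777216) (l 16770464)) (l 16746592)) (a (a (l 16777216) (l 16770424)) (l 16746400))) (c (a (l 16713920) (l 16680304)) (a (l 16713512) (l 16679672))))) (c (a (b (l 16629480) (l 16629480)) (l 16557016)) (a (b (l 16627544) (l 16627544)) (c (l 16554856) (l 16553416))))) (a (a (c (a (b (a (l 16777216) (l 16770352)) (a (l 16777216) (l 16770352))) (b (l 16746104) (l 16725128))) (c (a (a (l 16777216) (l 16770288)) (l 16724832)) (a (a (l 16777216) (l 16770248)) (l 16724632)))) (c (c (b (l 16696160) (l 16696160)) (b (l 16695648) (l 16695648))) (c (b (l 16695128) (l 16674160)) (b (l 16673640) (l 16673640))))) (c (a (c (l 16605128) (l 16583192)) (c (l 16551976) (l 16550536))) (a (b (c (l 16624168) (l 16623200)) (c (l 16624168) (l 16623200))) (b (l 16527408) (l 16527408))))))), by decide +kernel⟩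

def k12_pm_213 : ∃ t, chk3 f_pm_213 t 6 42 1 = true :=
  ⟨(a (a (a (l 14) (c (c (c (l 16777216) (l 16777216)) (c (l 16777216) (l 16777216))) (c (c (l 16777216) (l 16777216)) (c (l 16777216) (l 16777216))))) (c (c (c (a (l 16777216) (l 16777216)) (a (l 16777216) (l 16777216))) (a (c (l 16777216) (l 16777216)) (c (l 16777216) (l 16777216)))) (c (a (c (l 16777216) (l 16777216)) (c (l 16777216) (l 16777216))) (a (c (l 16777216) (l 16777216)) (c (l 16777216) (l 16777216)))))) (a (c (a (c (a (a (l 16777216) (l 16770528)) (l 16725920)) (a (a (l 16777216) (l 16770440)) (c (l 16746592) (l 16746400)))) (c (a (l 16714536) (l 16681240)) (c (l 16697200) (l 16675712)))) (a (c (a (a (l 16777216) (l 16770352)) (l 16730368)) (a (a (l 16777216) (l 16770272)) (l 16724736))) (c (c (l 16675192) (l 16674672)) (a (l 16691104) (l 16677480))))) (c (c (a (l 16629480) (l 16557016)) (a (l 16606576) (l 16554136))) (c (a (c (l 16626096) (l 16625136)) (l 16551256)) (a (c (l 16624168) (l 16623200)) (l 16527408)))))), by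 decide +kernel⟩

def k13_pm_213 : ∃ t, chk3 f_pm_213 t 6 43 1 = true :=
  ⟨(a (a (l 14) (a (c (a (b (c (l 16777216) (l 16777216)) (l 14)) (c (c (l 16777208) (l 16777208)) (c (l 16777208) (l 16777208)))) (c (c (a (l 16777208) (l 16777208)) (l 16777208)) (c (l 16777208) (l 16777208)))) (c (c (c (b (l 16777216) (l 16777208)) (b (l 16777216) (l 16777208))) (c (b (l 16777216) (l 16777208)) (b (l 16777216) (l 16777208)))) (c (c (a (l 16777216) (l 16777216)) (l 16777216)) (c (l 16777216) (l 16777216)))))) (a (c (a (c (c (a (a (l 16777216) (l 16770552)) (l 16746992)) (a (a (l 16777216) (l 16770512)) (l 16746792))) (a (a (c (l 16777216) (l 16777216)) (c (l 16770464) (l 16770424))) (c (l 16746592) (l 16746400)))) (c (c (a (l 16714736) (l 16681552)) (a (l 16714328) (l 16680928))) (c (a (l 16713920) (l 16680304)) (a (l 16713512) (l 16679672))))) (a (c (a (c (a (l 16777216) (l 16770376)) (a (l 16777216) (l 16770336))) (c (l 16746200) (l 16746000))) (a (c (l 16752792) (l 16752768)) (c (l 16745800) (l 16745608))))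 (c (c (a (l 16713096) (l 16679048)) (a (l 16712688) (l 16678416))) (c (l 16674160) (l 16673640))))) (c (c (a (a (l 16647000) (l 16611776)) (l 16557016)) (a (a (l 16645296) (l 16609608)) (l 16554136))) (c (a (c (l 16626096) (l 16625136)) (l 16530288)) (a (c (l 16624168) (l 16623200)) (l 16527408)))))), by decide +kernel⟩

def k14_pm_213 : ∃ t, chk3 f_pm_213 t 6 22 1 = true :=
  ⟨(b (a (a (l 14) (a (l 14) (c (c (c (l 16777200) (l 16777200)) (c (l 16777200) (l 16777200))) (c (c (l 16777200) (l 16777200)) (c (l 16777192) (l 16777192)))))) (a (c (a (c (a (a (l 16777200) (l 16749568)) (b (l 16725928) (l 16725936))) (a (a (l 16777200) (l 16749480)) (c (l 16746608) (l 16746408)))) (c (a (c (l 16714744) (l 16714336)) (c (l 16681560) (l 16680936))) (a (c (l 16713928) (l 16713512)) (c (l 16680304) (l 16679680))))) (a (c (a (a (l 16777200) (l 16749400)) (c (l 16746208) (l 16746008))) (a (a (l 16777200) (l 16770280)) (c (l 16745816) (l 16745616)))) (c (c (a (l 16713104) (l 16679048)) (a (l 16712696) (l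 16678424))) (c (l 16653192) (l 16673648))))) (c (a (c (a (l 16647000) (l 16611776)) (a (l 16624328) (l 16609616))) (c (l 16557016) (l 16533168))) (c (a (a (l 16643592) (l 16607448)) (l 16530288)) (a (a (l 16641896) (l 16605288)) (l 16548376)))))) (a (l 14) (a (a (a (a (l 14) (c (c (l 16770560) (l 16770472)) (c (l 16770384) (l 16770304)))) (c (c (l 16731192) (c (l 16746624) (l 16746424))) (c (c (l 16746224) (l 16746032)) (l 16724760)))) (c (c (a (c (l 16714760) (l 16714352)) (c (l 16681576) (l 16680944))) (c (a (l 16713944) (l 16680320)) (a (l 16713536) (l 16679696)))) (c (c (l 16654240) (l 16653728)) (c (l 16674184) (l 16673664))))) (c (a (c (a (l 16647016) (l 16611784)) (a (l 16645312) (l 16609624))) (c (a (l 16575552) (l 16538296)) (a (l 16572920) (l 16535176)))) (c (a (a (l 16643608) (l 16607464)) (a (l 16570288) (l 16532048))) (a (a (l 16641912) (l 16605304)) (a (l 16567648) (l 16528928)))))))), by decide +kernel⟩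

def k15_pm_213 : ∃ t, chk3 f_pm_213 t 6 23 1 = true :=
  ⟨(a (l 14) (b (a (a (l 14) (c (c (a (l 16698840) (c (l 16681592) (l 16680960))) (c (a (l 16713960) (l 16680336)) (l 16665264))) (c (c (l 16654264) (l 16653744)) (c (l 16674200) (l 16673680))))) (c (a (c (a (l 16647032) (l 16611800)) (a (l 16645328) (l 16609640))) (c (a (l 16575576) (l 16538312)) (a (l 16572936) (l 16535192)))) (c (a (a (l 16643632) (l 16607480)) (a (l 16570304) (l 16532072))) (a (c (l 16624200) (l 16623240)) (a (l 16567672) (l 16528944)))))) (a (l 14) (a (a (a (l 14) (c (c (l 16638336) (l 16636528)) (c (l 16634712) (l 16632896)))) (c (c (l 16611816) (l 16609656)) (c (l 16586528) (l 16605336)))) (c (c (a (l 16575584) (l 16538328)) (a (l 16572952) (l 16535208))) (c (a (l 16570320) (l 16532088)) (a (l 16567688) (l 16528968)))))))), by decide +kernel⟩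

def k16_pm_213 : ∃ t, chk3 f_pm_213 t 14 4 1 = true :=
  ⟨(c (b (a (c (b (a (l 16480376) (l 16399336)) (a (l 16480376) (l 16399336))) (b (a (l 16476496) (l 16394400)) (a (l 16476496) (l 16394400)))) (c (b (a (l 16309592) (l 16202744)) (a (l 16309592) (l 16202744))) (a (a (l 16329112) (b (l 16277592) (l 16277592))) (b (l 16195232) (l 16195232))))) (a (c (b (a (l 16480376) (l 16399336)) (a (l 16480376) (l 16399336))) (b (a (l 16476496) (l 16394400)) (a (l 16476496) (l 16394400)))) (b (c (a (l 16309592) (l 16202744)) (a (l 16303480) (l 16195232))) (a (l 16306536) (l 16198992))))) (b (a (c (b (a (c (l 16473584) (l 16471648)) (c (l 16390696) (l 16388224))) (a (c (l 16473584) (l 16471648)) (l 16389456))) (b (a (c (l 16469704) (b (l 16467768) (l 16467768))) (c (l 16385752) (l 16383280))) (a (c (l 16469704) (b (l 16467768) (l 16467768))) (c (l 16385752) (l 16383280))))) (c (b (a (a (l 16323336) (l 16271152)) (l 16187728)) (a (a (l 16323336) (l 16271152)) (l 16187728))) (b (a (a (l 16296576) (c (l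 16266312) (l 16263088))) (c (l 16182096) (l 16178336))) (a (b (a (l 16317552) (l 16264704)) (l 16291256)) (b (l 16180216) (l 16180216)))))) (a (c (b (a (c (l 16473584) (l 16471648)) (l 16368488)) (a (l 16451648) (l 16389456))) (b (a (b (c (l 16469704) (l 16467768)) (l 16468736)) (c (l 16385752) (l 16383280))) (a (c (l 16469704) (l 16467768)) (c (l 16385752) (l 16383280))))) (b (c (a (b (l 16297368) (l 16297368)) (l 16187728)) (a (b (l 16291256) (l 16291256)) (b (l 16180216) (l 16180216)))) (a (c (l 16297368) (l 16291256)) (c (l 16187728) (l 16180216))))))), by decide +kernel⟩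

def k17_pm_213 : ∃ t, chk3 f_pm_213 t 15 4 1 = true :=
  ⟨(c (b (a (c (b (a (l 16098872) (l 15992968)) (a (l 16098872) (l 15992968))) (b (a (l 16084920) (l 15992768)) (a (l 16084920) (l 15992768)))) (c (a (c (l 15886432) (l 15887792)) (l 15807104)) (a (b (l 15870600) (a (l 15918304) (l 15862944))) (c (l 15798352) (l 15793576))))) (a (c (b (l 16045240) (l 16045240)) (b (l 15981248) (l 16044168))) (c (b (a (l 15887744) (l 15807104)) (l 15849384)) (b (a (a (l 15918304) (l 15862944)) (l 15775496)) (a (l 15891568) (l 15796464)))))) (a (b (c (b (a (l 16075984) (l 15985696)) (a (l 16075984) (l 15985696))) (b (c (a (l 16069288) (l 15978136)) (a (b (l 16064816) (l 16064816)) (l 15973088))) (c (a (l 16069288) (l 15978136)) (a (l 16064816) (l 15973088))))) (b (c (a (l 16075984) (l 15985696)) (b (l 15937880) (l 16021768))) (c (l 16031272) (a (l 16067056) (l 15975608))))) (b (c (a (c (b (l 15893760) (l 15893760)) (l 15891472)) (c (a (l 15810928) (l 15768368)) (b (a (l 15812696) (l 15763000)) (a (l 15812696)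 (l 15763000))))) (a (b (c (l 15886168) (l 15880544)) (c (l 15886168) (l 15880544))) (c (b (a (l 15812840) (c (l 15760016) (l 15759272))) (a (l 15812840) (l 15760216))) (b (a (l 15807784) (c (l 15758808) (a (l 15768672) (l 15743784)))) (a (l 15807784) (c (l 15758808) (l 15757728))))))) (c (a (b (l 15892544) (l 15892544)) (b (c (l 15790584) (a (l 15812696) (l 15763000))) (c (l 15790584) (l 15789176)))) (b (a (b (l 15883352) (l 15883352)) (c (a (l 15812840) (l 15760216)) (c (l 15744768) (l 15784176)))) (a (l 15883352) (c (l 15788336) (l 15765344)))))))), by decide +kernel⟩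

def k18_pm_213 : ∃ t, chk3 f_pm_213 t 14 5 1 = true :=
  ⟨(c (b (a (c (b (a (l 16480376) (l 16399336)) (a (l 16480376) (l 16399336))) (b (a (l 16476496) (l 16394400)) (a (l 16476496) (l 16394400)))) (a (b (l 16285568) (c (l 16309592) (l 16303480))) (b (c (l 16202744) (l 16195232)) (c (l 16202744) (l 16195232))))) (a (b (a (c (b (l 16480376) (l 16480376)) (b (l 16476496) (l 16476496))) (c (l 16399336) (l 16394400))) (a (c (b (l 16480392) (l 16501376)) (b (l 16476512) (a (l 16496392) (l 16456472)))) (c (b (l 16399344) (l 16399360)) (a (l 16415416) (l 16373208))))) (a (b (c (l 16309592) (l 16303480)) (c (l 16330576) (l 16303488))) (b (a (l 16226688) (l 16171016)) (l 16198992))))) (b (a (c (b (a (l 16472616) (l 16389456)) (a (b (l 16472616) (l 16472616)) (l 16389456))) (b (a (c (l 16469704) (l 16467768)) (l 16363544)) (a (b (l 16468736) (l 16468736)) (l 16384520)))) (a (c (b (l 16297368) (l 16297368)) (b (l 16291256) (l 16291256))) (b (c (l 16187728) (l 16180216)) (c (l 16187728) (l 16180216)))))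 (a (a (b (c (b (l 16472616) (l 16472616)) (b (l 16468736) (l 16468736))) (c (b (l 16472632) (l 16451680)) (b (l 16468752) (l 16468776)))) (b (c (l 16389456) (l 16384520)) (c (a (l 16410744) (l 16367992)) (a (l 16406080) (l 16362784))))) (b (a (c (l 16297368) (l 16291256)) (a (l 16212392) (l 16155272))) (a (c (l 16297376) (l 16291264)) (l 16183976)))))), by decide +kernel⟩

def k19_pm_213 : ∃ t, chk3 f_pm_213 t 15 5 1 = true :=
  ⟨(c (a (b (c (a (l 16098872) (l 15992968)) (a (l 16084920) (l 15992768))) (a (b (l 16088264) (l 16088264)) (c (l 15930056) (l 15992768)))) (b (a (c (l 15866768) (b (l 15891568) (l 15891568))) (c (l 15807104) (l 15796464))) (a (c (l 15824824) (a (l 15918304) (l 15862944))) (b (l 15802400) (l 15802400))))) (b (a (b (c (l 16031272) (l 16021768)) (c (l 16031272) (l 16021768))) (c (a (b (l 15892544) (l 15892544)) (b (l 15791016) (l 15791016))) (a (b (l 15883352) (l 15883352)) (b (a (l 15809760) (l 15760256)) (a (l 15809760) (l 15760256)))))) (a (b (a (l 16071520) (l 15980656))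 (a (l 16071520) (l 15980656))) (a (c (l 15892544) (l 15883352)) (c (b (l 15791016) (l 15791016)) (a (l 15809760) (l 15760256))))))), by decide +kernel⟩

def k20_pm_213 : ∃ t, chk3 f_pm_213 t 6 6 1 = true :=
  ⟨(a (l 14) (a (l 14) (a (l 14) (b (b (b (b (c (c (a (l 16575600) (l 16538336)) (a (l 16572968) (l 16535216))) (c (a (l 16570336) (l 16532096)) (a (l 16567704) (l 16528976)))) (l 14)) (l 14)) (l 14)) (l 14))))), by decide +kernel⟩

def k21_pm_213 : ∃ t, chk3 f_pm_213 t 7 24 1 = true :=
  ⟨(a (a (b (c (a (c (b (l 16480416) (l 16522368)) (a (l 16496408) (l 16456488))) (c (a (l 16420104) (l 16378440)) (a (l 16415440) (l 16373232)))) (a (c (a (l 16492784) (l 16452352)) (a (l 16489160) (l 16448216))) (c (a (l 16410776) (l 16368024)) (l 16384568)))) (a (a (l 14) (b (c (c (l 16460632) (l 16456496)) (c (l 16452360) (l 16448232))) (l 14))) (c (c (a (c (l 16421280) (l 16418952)) (l 16378456)) (a (l 16415456) (l 16373248))) (c (a (l 16410792) (l 16368040)) (a (l 16406128) (l 16362832)))))) (c (a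 (b (c (l 16309624) (l 16303512)) (a (c (l 16334944) (l 16329168)) (l 16301840))) (c (l 16223744) (l 16195264))) (a (c (a (l 16323384) (l 16271192)) (a (l 16317600) (l 16264752))) (c (l 16187760) (l 16180256))))) (a (c (a (a (b (l 16113800) (l 16113816)) (l 16065304)) (c (l 15992984) (l 15992784))) (a (c (l 16076008) (l 16067080)) (l 15980672))) (c (a (c (l 15887744) (l 15891576)) (c (l 15807104) (l 15796464))) (a (l 15886912) (c (l 15791016) (l 15788360)))))), by decide +kernel⟩

def k22_pm_213 : ∃ t, chk3 f_pm_213 t 7 25 1 = true :=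
  ⟨(a (b (a (a (l 14) (a (l 14) (c (c (c (l 16379768) (l 16377160)) (l 16373256)) (c (l 16368048) (l 16362840))))) (c (a (c (a (l 16334952) (l 16284096)) (a (l 16329176) (l 16277656))) (c (l 16202792) (l 16195288))) (a (c (a (l 16323400) (l 16271216)) (l 16291328)) (c (l 16187784) (l 16180280))))) (a (l 14) (a (a (l 14) (c (c (l 16284096) (l 16277656)) (a (l 16281648) (l 16254272)))) (c (c (l 16223776) (l 16195296)) (c (l 16187792) (l 16180288)))))) (a (c (a (a (c (l 16118144) (l 16109528)) (c (l 16069568) (l 16060176))) (c (b (l 15993008) (l 15993016)) (l 15992816))) (a (a (l 16096616) (l 16046304)) (l 15980704))) (c (a (c (l 15887776) (l 15891608)) (c (l 15807128) (l 15796496))) (a (c (l 15892584) (l 15883400)) (c (l 15791040) (l 15788384)))))), by decide +kernel⟩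

def k23_pm_213 : ∃ t, chk3 f_pm_213 t 7 13 1 = true :=
  ⟨(b (a (b (a (l 14) (a (l 14) (a (l 14) (c (l 16171056) (l 16155320))))) (l 14)) (a (c (a (b (a (l 16113832) (l 16065344)) (a (l 14) (l 16065312))) (c (b (l 15993024) (a (l 16019872) (l 15966224))) (a (l 16017608) (l 15968896)))) (a (b (a (l 16096608) (l 16046312)) (l 16071552)) (c (l 15985752) (l 15975672)))) (c (a (c (a (l 15910488) (l 15861504)) (a (l 15918368) (l 15863008))) (c (l 15807160) (l 15796528))) (a (c (l 15892608) (l 15883424)) (c (l 15728168) (a (l 15809832) (l 15760328))))))) (a (l 14) (a (l 14) (a (b (c (c (l 15887768) (l 15891600)) (l 15824024)) (l 14)) (c (b (l 15802448) (b (l 15800016) (l 15772168))) (b (c (l 15791072) (l 15788416)) (c (a (l 15793592) (l 15744864)) (a (l 15788144) (l 15736688))))))))), by decide +kernel⟩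

def k24_pm_213 : ∃ t, chk3 f_pm_213 t 3 7 1 = true :=
  ⟨(a (l 14) (b (l 14) (l 14))), by decide +kernel⟩

theorem s25_pm_213 : ∃ t, chk3 f_pm_213 t 7 12 1 = true := ex3_b k21_pm_213 k22_pm_213

theorem s26_pm_213 : ∃ t, chk3 f_pm_213 t 7 6 1 = true := ex3_b s25_pm_213 k23_pm_213

theorem s27_pm_213 : ∃ t, chk3 f_pm_213 t 3 6 1 = true := ex3_a k20_pm_213 s26_pm_213

theorem s28_pm_213 : ∃ t, chk3 f_pm_213 t 3 3 1 = true := ex3_b s27_pm_213 k24_pm_213

theorem s29_pm_213 : ∃ t, chk3 f_pm_213 t 7 5 1 = true := ex3_a k18_pm_213 k19_pm_213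

theorem s30_pm_213 : ∃ t, chk3 f_pm_213 t 7 4 1 = true := ex3_a k16_pm_213 k17_pm_213

theorem s31_pm_213 : ∃ t, chk3 f_pm_213 t 7 2 1 = true := ex3_b s30_pm_213 s29_pm_213

theorem s32_pm_213 : ∃ t, chk3 f_pm_213 t 6 11 1 = true := ex3_b k14_pm_213 k15_pm_213

theorem s33_pm_213 : ∃ t, chk3 f_pm_213 t 6 21 1 = true := ex3_b k12_pm_213 k13_pm_213

theorem s34_pm_213 : ∃ t, chk3 f_pm_213 t 6 10 1 = true := ex3_b k11_pm_213 s33_pm_213

theorem s35_pm_213 : ∃ t, chk3 f_pm_213 t 6 5 1 = true := ex3_b s34_pm_213 s32_pm_213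

theorem s36_pm_213 : ∃ t, chk3 f_pm_213 t 13 4 3 = true := ex3_b k9_pm_213 k10_pm_213

theorem s37_pm_213 : ∃ t, chk3 f_pm_213 t 13 4 1 = true := ex3_c k8_pm_213 s36_pm_213

theorem s38_pm_213 : ∃ t, chk3 f_pm_213 t 12 4 1 = true := ex3_c k6_pm_213 k7_pm_213

theorem s39_pm_213 : ∃ t, chk3 f_pm_213 t 6 4 1 = true := ex3_a s38_pm_213 s37_pm_213

theorem s40_pm_213 : ∃ t, chk3 f_pm_213 t 6 2 1 = true := ex3_b s39_pm_213 s35_pm_213

theorem s41_pm_213 : ∃ t, chk3 f_pm_213 t 3 2 1 = true := ex3_a s40_pm_213 s31_pm_213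

theorem s42_pm_213 : ∃ t, chk3 f_pm_213 t 3 1 1 = true := ex3_b s41_pm_213 s28_pm_213

theorem s43_pm_213 : ∃ t, chk3 f_pm_213 t 5 8 1 = true := ex3_a k1_pm_213 k2_pm_213

theorem s44_pm_213 : ∃ t, chk3 f_pm_213 t 5 4 1 = true := ex3_b s43_pm_213 k3_pm_213

theorem s45_pm_213 : ∃ t, chk3 f_pm_213 t 2 4 1 = true := ex3_a k0_pm_213 s44_pm_213

theorem s46_pm_213 : ∃ t, chk3 f_pm_213 t 2 2 1 = true := ex3_b s45_pm_213 k4_pm_213

theorem s47_pm_213 : ∃ t, chk3 f_pm_213 t 2 1 1 = true := ex3_b s46_pm_213 k5_pm_213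

theorem s48_pm_213 : ∃ t, chk3 f_pm_213 t 1 1 1 = true := ex3_a s47_pm_213 s42_pm_213

theorem c_pm_213 : CertFX 0 536870912 536870912 536870912 1046898278 26843546 true true false .pnn 2 1 3
    ndF0q2 ndF0q1 pcF3 cut_pm_213 Ext.none :=
  certFX0 (fam := true) (s1 := true) (s2 := false) (a := 2) (b := 1) (c := 3) (cn := .pnn) (n1 := ndF0q2) (n2 := ndF0q1) (pc := pcF3) (cut := cut_pm_213) (xt := Ext.none) (P1 := 0) (W1 := 536870912) (P2 := 536870912) (W2 := 536870912) (P3 := 1046898278) (W3 := 26843546)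
    rfl s48_pm_213

noncomputable def cut_mm_001 : Cut := Cut.of [[⟨3, 0, 0, 1449551462⟩], [⟨4, 0, 0, 2845415833⟩]]

noncomputable def f_mm_001 : ℕ → ℕ → ℕ → ℕ → Bool := onCell 0 536870912 0 536870912 1046898278 26843546
    (rowFX 0 true false false .up 0 0 1 (qsf 0 536870912 0 536870912 1) ndF0q0 ndF0q0 pcF1 cut_mm_001 Ext.none)

def k0_mm_001 : ∃ t, chk3 f_mm_001 t 1 1 1 = true :=
  ⟨(l 4), by decide +kernel⟩

theorem c_mm_001 : CertFX 0 536870912 0 536870912 1046898278 26843546 true false false .up 0 0 1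
    ndF0q0 ndF0q0 pcF1 cut_mm_001 Ext.none :=
  certFX0 (fam := true) (s1 := false) (s2 := false) (a := 0) (b := 0) (c := 1) (cn := .up) (n1 := ndF0q0) (n2 := ndF0q0) (pc := pcF1) (cut := cut_mm_001) (xt := Ext.none) (P1 := 0) (W1 := 536870912) (P2 := 0) (W2 := 536870912) (P3 := 1046898278) (W3 := 26843546)
    rfl k0_mm_001

noncomputable def cut_mm_011 : Cut := Cut.of [[⟨3, 0, 0, 1449551462⟩], [⟨4, 0, 0, 2845415833⟩]]

noncomputable def f_mm_011 : ℕ → ℕ → ℕ → ℕ → Bool := onCell 0 536870912 536870912 536870912 1046898278 26843546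
    (rowFX 0 true false false .pnn 0 1 1 (qsf 0 536870912 536870912 536870912 1) ndF0q0 ndF0q1 pcF1 cut_mm_011 Ext.none)

def k0_mm_011 : ∃ t, chk3 f_mm_011 t 1 1 1 = true :=
  ⟨(l 14), by decide +kernel⟩

theorem c_mm_011 : CertFX 0 536870912 536870912 536870912 1046898278 26843546 true false false .pnn 0 1 1
    ndF0q0 ndF0q1 pcF1 cut_mm_011 Ext.none :=
  certFX0 (fam := true) (s1 := false) (s2 := false) (a := 0) (b := 1) (c := 1) (cn := .pnn) (n1 := ndF0q0) (n2 := ndF0q1) (pc := pcF1) (cut := cut_mm_011) (xt := Ext.none) (P1 := 0) (W1 := 536870912) (P2 := 536870912) (W2 := 536870912) (P3 := 1046898278) (W3 := 26843546)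
    rfl k0_mm_011

noncomputable def cut_mm_012 : Cut := Cut.of [[⟨3, 0, 0, 1449551462⟩], [⟨4, 0, 0, 2845415833⟩]]

noncomputable def f_mm_012 : ℕ → ℕ → ℕ → ℕ → Bool := onCell 0 536870912 536870912 536870912 1046898278 26843546
    (rowFX 0 true false false .pnp 0 1 2 (qsf 0 536870912 536870912 536870912 2) ndF0q0 ndF0q1 pcF2 cut_mm_012 Ext.none)

def k0_mm_012 : ∃ t, chk3 f_mm_012 t 1 1 1 = true :=
  ⟨(l 14), by decide +kernel⟩

theorem c_mm_012 : CertFX 0 536870912 536870912 536870912 1046898278 26843546 true false false .pnp 0 1 2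
    ndF0q0 ndF0q1 pcF2 cut_mm_012 Ext.none :=
  certFX0 (fam := true) (s1 := false) (s2 := false) (a := 0) (b := 1) (c := 2) (cn := .pnp) (n1 := ndF0q0) (n2 := ndF0q1) (pc := pcF2) (cut := cut_mm_012) (xt := Ext.none) (P1 := 0) (W1 := 536870912) (P2 := 536870912) (W2 := 536870912) (P3 := 1046898278) (W3 := 26843546)
    rfl k0_mm_012

noncomputable def cut_mm_022 : Cut := Cut.of [[⟨3, 0, 0, 1449551462⟩], [⟨4, 0, 0, 2845415833⟩]]

noncomputable def f_mm_022 : ℕ → ℕ → ℕ → ℕ → Bool := onCell 0 536870912 0 536870912 1046898278 26843546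
    (rowFX 0 true false false .pp 0 2 2 (qsf 0 536870912 0 536870912 2) ndF0q0 ndF0q2 pcF2 cut_mm_022 Ext.none)

def k0_mm_022 : ∃ t, chk3 f_mm_022 t 1 1 1 = true :=
  ⟨(l 5), by decide +kernel⟩

theorem c_mm_022 : CertFX 0 536870912 0 536870912 1046898278 26843546 true false false .pp 0 2 2
    ndF0q0 ndF0q2 pcF2 cut_mm_022 Ext.none :=
  certFX0 (fam := true) (s1 := false) (s2 := false) (a := 0) (b := 2) (c := 2) (cn := .pp) (n1 := ndF0q0) (n2 := ndF0q2) (pc := pcF2) (cut := cut_mm_022) (xt := Ext.none) (P1 := 0) (W1 := 536870912) (P2 := 0) (W2 := 536870912) (P3 := 1046898278) (W3 := 26843546)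
    rfl k0_mm_022

noncomputable def cut_mm_023 : Cut := Cut.of [[⟨3, 0, 0, 1449551462⟩], [⟨4, 0, 0, 2845415833⟩]]

noncomputable def f_mm_023 : ℕ → ℕ → ℕ → ℕ → Bool := onCell 0 536870912 0 536870912 1046898278 26843546
    (rowFX 0 true false false .up 0 2 3 (qsf 0 536870912 0 536870912 3) ndF0q0 ndF0q2 pcF3 cut_mm_023 Ext.none)

def k0_mm_023 : ∃ t, chk3 f_mm_023 t 1 1 1 = true :=
  ⟨(l 5), by decide +kernel⟩

theorem c_mm_023 : CertFX 0 536870912 0 536870912 1046898278 26843546 true false false .up 0 2 3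
    ndF0q0 ndF0q2 pcF3 cut_mm_023 Ext.none :=
  certFX0 (fam := true) (s1 := false) (s2 := false) (a := 0) (b := 2) (c := 3) (cn := .up) (n1 := ndF0q0) (n2 := ndF0q2) (pc := pcF3) (cut := cut_mm_023) (xt := Ext.none) (P1 := 0) (W1 := 536870912) (P2 := 0) (W2 := 536870912) (P3 := 1046898278) (W3 := 26843546)
    rfl k0_mm_023

noncomputable def cut_mm_101 : Cut := Cut.of [[⟨3, 0, 0, 1449551462⟩], [⟨4, 0, 0, 2845415833⟩], [⟨0, 1, 0, 67108864⟩, ⟨1, 0, 0, 67108864⟩, ⟨2, 1, 0, 67108864⟩]]

noncomputable def f_mm_101 : ℕ → ℕ → ℕ → ℕ → Bool := onCell 536870912 536870912 0 536870912 1046898278 26843546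
    (rowFX 0 true false false .npn 1 0 1 (qsf 536870912 536870912 0 536870912 1) ndF0q1 ndF0q0 pcF1 cut_mm_101 Ext.none)

def k0_mm_101 : ∃ t, chk3 f_mm_101 t 1 1 1 = true :=
  ⟨(l 14), by decide +kernel⟩

theorem c_mm_101 : CertFX 536870912 536870912 0 536870912 1046898278 26843546 true false false .npn 1 0 1
    ndF0q1 ndF0q0 pcF1 cut_mm_101 Ext.none :=
  certFX0 (fam := true) (s1 := false) (s2 := false) (a := 1) (b := 0) (c := 1) (cn := .npn) (n1 := ndF0q1) (n2 := ndF0q0) (pc := pcF1) (cut := cut_mm_101) (xt := Ext.none) (P1 := 536870912) (W1 := 536870912) (P2 := 0) (W2 := 536870912) (P3 := 1046898278) (W3 := 26843546)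
    rfl k0_mm_101

noncomputable def cut_mm_102 : Cut := Cut.of [[⟨3, 0, 0, 1449551462⟩], [⟨4, 0, 0, 2845415833⟩], [⟨0, 1, 0, 67108864⟩, ⟨1, 0, 0, 67108864⟩, ⟨2, 1, 0, 67108864⟩]]

noncomputable def f_mm_102 : ℕ → ℕ → ℕ → ℕ → Bool := onCell 536870912 536870912 0 536870912 1046898278 26843546
    (rowFX 0 true false false .npp 1 0 2 (qsf 536870912 536870912 0 536870912 2) ndF0q1 ndF0q0 pcF2 cut_mm_102 Ext.none)

def k0_mm_102 : ∃ t, chk3 f_mm_102 t 1 1 1 = true :=
  ⟨(l 14), by decide +kernel⟩

theorem c_mm_102 : CertFX 536870912 536870912 0 536870912 1046898278 26843546 true false false .npp 1 0 2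
    ndF0q1 ndF0q0 pcF2 cut_mm_102 Ext.none :=
  certFX0 (fam := true) (s1 := false) (s2 := false) (a := 1) (b := 0) (c := 2) (cn := .npp) (n1 := ndF0q1) (n2 := ndF0q0) (pc := pcF2) (cut := cut_mm_102) (xt := Ext.none) (P1 := 536870912) (W1 := 536870912) (P2 := 0) (W2 := 536870912) (P3 := 1046898278) (W3 := 26843546)
    rfl k0_mm_102

noncomputable def cut_mm_112 : Cut := Cut.of [[⟨3, 0, 0, 1449551462⟩], [⟨4, 0, 0, 2845415833⟩]]

noncomputable def f_mm_112 : ℕ → ℕ → ℕ → ℕ → Bool := onCell 536870912 536870912 536870912 536870912 1046898278 26843546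
    (rowFX 0 true false false .dn 1 1 2 (qsf 536870912 536870912 536870912 536870912 2) ndF0q1 ndF0q1 pcF2 cut_mm_112 Ext.none)

def k0_mm_112 : ∃ t, chk3 f_mm_112 t 1 1 1 = true :=
  ⟨(l 4), by decide +kernel⟩

theorem c_mm_112 : CertFX 536870912 536870912 536870912 536870912 1046898278 26843546 true false false .dn 1 1 2
    ndF0q1 ndF0q1 pcF2 cut_mm_112 Ext.none :=
  certFX0 (fam := true) (s1 := false) (s2 := false) (a := 1) (b := 1) (c := 2) (cn := .dn) (n1 := ndF0q1) (n2 := ndF0q1) (pc := pcF2) (cut := cut_mm_112) (xt := Ext.none) (P1 := 536870912) (W1 := 536870912) (P2 := 536870912) (W2 := 536870912) (P3 := 1046898278) (W3 := 26843546)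
    rfl k0_mm_112

noncomputable def cut_mm_113 : Cut := Cut.of [[⟨3, 0, 0, 1449551462⟩], [⟨4, 0, 0, 2845415833⟩]]

noncomputable def f_mm_113 : ℕ → ℕ → ℕ → ℕ → Bool := onCell 536870912 536870912 536870912 536870912 1046898278 26843546
    (rowFX 0 true false false .nn 1 1 3 (qsf 536870912 536870912 536870912 536870912 3) ndF0q1 ndF0q1 pcF3 cut_mm_113 Ext.none)

def k0_mm_113 : ∃ t, chk3 f_mm_113 t 1 1 1 = true :=
  ⟨(l 4), by decide +kernel⟩

theorem c_mm_113 : CertFX 536870912 536870912 536870912 536870912 1046898278 26843546 true false false .nn 1 1 3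
    ndF0q1 ndF0q1 pcF3 cut_mm_113 Ext.none :=
  certFX0 (fam := true) (s1 := false) (s2 := false) (a := 1) (b := 1) (c := 3) (cn := .nn) (n1 := ndF0q1) (n2 := ndF0q1) (pc := pcF3) (cut := cut_mm_113) (xt := Ext.none) (P1 := 536870912) (W1 := 536870912) (P2 := 536870912) (W2 := 536870912) (P3 := 1046898278) (W3 := 26843546)
    rfl k0_mm_113

noncomputable def cut_mm_123 : Cut := Cut.of [[⟨3, 0, 0, 1449551462⟩], [⟨4, 0, 0, 2845415833⟩]]

noncomputable def f_mm_123 : ℕ → ℕ → ℕ → ℕ → Bool := onCell 536870912 536870912 0 536870912 1046898278 26843546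
    (rowFX 0 true false false .npn 1 2 3 (qsf 536870912 536870912 0 536870912 3) ndF0q1 ndF0q2 pcF3 cut_mm_123 Ext.none)

def k0_mm_123 : ∃ t, chk3 f_mm_123 t 1 1 1 = true :=
  ⟨(a (l 5) (l 4)), by decide +kernel⟩

theorem c_mm_123 : CertFX 536870912 536870912 0 536870912 1046898278 26843546 true false false .npn 1 2 3
    ndF0q1 ndF0q2 pcF3 cut_mm_123 Ext.none :=
  certFX0 (fam := true) (s1 := false) (s2 := false) (a := 1) (b := 2) (c := 3) (cn := .npn) (n1 := ndF0q1) (n2 := ndF0q2) (pc := pcF3) (cut := cut_mm_123) (xt := Ext.none) (P1 := 536870912) (W1 := 536870912) (P2 := 0) (W2 := 536870912) (P3 := 1046898278) (W3 := 26843546)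
    rfl k0_mm_123

noncomputable def cut_mm_202 : Cut := Cut.of [[⟨3, 0, 0, 1449551462⟩], [⟨4, 0, 0, 2845415833⟩], [⟨0, 1, 0, 67108864⟩, ⟨1, 0, 0, 67108864⟩, ⟨2, 1, 0, 67108864⟩]]

noncomputable def f_mm_202 : ℕ → ℕ → ℕ → ℕ → Bool := onCell 0 536870912 0 536870912 1046898278 26843546
    (rowFX 0 true false false .pp 2 0 2 (qsf 0 536870912 0 536870912 2) ndF0q2 ndF0q0 pcF2 cut_mm_202 Ext.none)

def k0_mm_202 : ∃ t, chk3 f_mm_202 t 4 8 1 = true :=
  ⟨(a (b (c (a (b (c (l 15932144) (l 15924608)) (c (l 15707640) (l 15718792))) (b (a (c (l 15931824) (l 15924272)) (l 15948560)) (c (a (l 15716408) (l 15746184)) (a (l 15727680) (l 15757912))))) (a (b (c (l 15925216) (l 15935080)) (c (l 15736808) (l 15736552))) (b (c (a (l 15924856) (l 15945624)) (a (l 15913728) (l 15955760))) (c (a (l 15745824) (l 15776504)) (l 15761448))))) (c (a (c (b (c (l 15537624) (l 15552040)) (a (l 15415352) (a (l 15418864) (l 15429560)))) (b (a (l 15564472) (l 15566808)) (a (l 15416896) (l 15426656)))) (b (c (a (l 15567784)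 (l 15605600)) (a (l 15588344) (l 15626736))) (c (l 15418864) (l 15484328)))) (a (c (b (l 15569392) (l 15406312)) (l 15408176)) (b (l 15521544) (l 15459256))))) (b (c (b (a (c (l 16000952) (l 15994416)) (l 16036464)) (c (a (l 15802888) (l 15891568)) (a (l 15815464) (l 15905472)))) (b (c (a (l 15996024) (l 16078304)) (a (l 16006880) (l 16069352))) (c (a (l 15834912) (l 15926240)) (l 15884544)))) (c (c (b (a (l 15670576) (l 15769016)) (a (l 15575920) (l 15683904))) (b (a (l 15692704) (l 15792616)) (l 15552584))) (a (c (l 15628160) (l 15614528)) (c (l 15734536) (l 15722464)))))), by decide +kernel⟩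

def k1_mm_202 : ∃ t, chk3 f_mm_202 t 4 9 1 = true :=
  ⟨(a (b (a (c (b (b (b (a (a (l 15311864) (l 15312792)) (c (l 15336240) (l 15338464))) (a (l 15345784) (l 15359944))) (a (l 15402584) (l 15419800))) (a (c (l 15546752) (l 15530672)) (l 15559624))) (b (b (b (a (l 15295168) (l 15310712)) (l 15316896)) (a (l 15366888) (l 15384608))) (a (l 15506560) (l 15528088)))) (c (b (b (c (l 15424480) (l 15406600)) (l 15466992)) (l 15600928)) (b (b (l 15380312) (l 15433200)) (l 15570616)))) (c (a (b (a (l 15716840) (l 15738592)) (l 15894536)) (l 15809968)) (a (b (l 15699736) (l 15871680)) (l 15828080)))) (b (c (b (a (b (c (l 15514640) (l 15498112)) (l 15531824)) (b (l 15617304) (c (l 15617128) (l 15602344)))) (c (l 15695392) (l 15681528))) (b (a (b (l 15473856) (l 15499960)) (b (l 15587112) (l 15580176))) (c (l 15667664) (l 15653792)))) (c (c (l 15796928) (l 15911800)) (a (l 15871624) (l 15920016))))), by decide +kernel⟩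

def k2_mm_202 : ∃ t, chk3 f_mm_202 t 5 8 1 = true :=
  ⟨(b (a (c (b (a (l 16175816) (b (a (l 16302032) (l 16337864)) (l 16239552))) (c (a (l 15995280) (l 16112936)) (a (l 16010712) (l 16130064)))) (b (a (c (l 16177784) (l 16149256)) (b (c (l 16247992) (a (l 16284792) (l 16279824))) (l 16115752))) (c (a (l 16033008) (l 16154056)) (l 16100960)))) (b (c (a (b (l 16277184) (a (l 16331432) (l 16295232))) (a (b (l 16376608) (l 16388240)) (l 16409408))) (a (b (c (l 16358096) (a (l 16343328) (l 16372120))) (c (a (l 16340608) (l 16305336)) (a (l 16359552) (l 16387816)))) (b (c (l 16381104) (l 16389568)) (c (a (l 16377880) (l 16435424)) (a (l 16439728) (l 16455440)))))) (c (a (c (l 16243896) (l 16241904)) (b (a (l 16304880) (b (l 16404088) (a (l 16426528) (l 16457704)))) (c (l 16350888) (l 16357328)))) (a (c (l 16225808) (l 16296320)) (b (a (c (l 16420008) (l 16436176)) (c (b (l 16475104) (l 16480144)) (b (l 16495480) (l 16492776)))) (c (l 16406992) (l 16411928))))))) (a (c (c (b (a (l 15880488) (l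 16003272)) (a (l 15803800) (l 15933880))) (b (a (l 15905752) (l 16030336)) (l 15879256))) (a (c (l 15853736) (l 15843392)) (b (l 16037544) (l 15928312)))) (c (a (b (c (l 16137040) (l 16166040)) (c (l 16072584) (l 16083944))) (b (c (l 16177064) (l 16166168)) (c (a (l 16180640) (l 16255400)) (l 16232136)))) (a (b (l 16155176) (l 16072104)) (b (c (l 16326384) (l 16321872)) (a (l 16184064) (l 16261496))))))), by decide +kernel⟩

def k3_mm_202 : ∃ t, chk3 f_mm_202 t 5 9 1 = true :=
  ⟨(b (a (c (b (a (b (l 15744128) (a (l 15680944) (l 15741312))) (l 15862096)) (a (l 15788480) (b (a (l 15818664) (l 15877344)) (l 15899008)))) (b (a (b (l 15717704) (l 15687144)) (l 15840568)) (a (l 15763680) (b (a (l 15794896) (l 15855280)) (l 15877264))))) (a (c (b (a (l 15970056) (l 16044656)) (b (l 15985920) (a (l 15966528) (l 16026656)))) (b (l 15990616) (b (l 15967024) (a (l 15946736) (l 16008592))))) (c (b (a (l 16120784) (l 16198272)) (a (l 16100032) (l 16179688))) (b (c (l 16150544) (l 16143896)) (a (l 16084272)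 (l 16166224)))))) (a (c (a (l 15995104) (b (l 15997520) (l 16116504))) (a (l 15954496) (c (l 16044624) (l 16035712)))) (a (c (c (b (l 16080536) (l 16189608)) (l 16002328)) (c (l 16120312) (l 16112464))) (a (c (b (b (b (l 16107536) (l 16129832)) (l 16171552)) (l 16246640)) (b (c (l 16072096) (l 16127488)) (l 16233976))) (b (c (b (b (l 16179768) (a (l 16169472) (l 16203072))) (l 16220304)) (b (a (l 16150992) (l 16188344)) (l 16207240))) (l 14)))))), by decide +kernel⟩

def k4_mm_202 : ∃ t, chk3 f_mm_202 t 2 5 1 = true :=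
  ⟨(b (b (a (c (a (c (l 16112360) (l 16103712)) (a (l 16141456) (l 16085904))) (a (c (l 16095064) (l 16086424)) (c (l 16101344) (l 16051440)))) (a (c (a (c (l 16208904) (l 16201664)) (c (l 16253280) (l 16246688))) (c (a (l 16194432) (l 16240096)) (a (l 16187192) (l 16233504)))) (a (c (c (b (l 16271624) (l 16344600)) (l 16198248)) (c (l 16276344) (l 16291528))) (a (b (c (l 16322360) (l 16311448)) (l 14)) (l 14))))) (a (c (a (c (l 16345672) (l 16340040)) (a (l 16245008) (c (l 16361936) (l 16356544)))) (a (c (l 16334408) (l 16328776)) (a (c (l 16341568) (l 16336032)) (c (l 16351144) (l 16345744))))) (a (c (a (b (l 16333696) (l 16393064)) (c (l 16339848) (l 16314064))) (a (c (l 16367184) (l 16362008)) (c (b (l 16357512) (l 16427128)) (l 16304440)))) (b (a (a (c (l 16396240) (l 16386672)) (l 14)) (l 14)) (l 14))))) (a (c (c (b (a (l 16579400) (l 16579400)) (a (b (l 16744392) (l 16777216)) (b (l 16744392) (l 16777216)))) (b (a (l 16576816) (l 16555840)) (a (l 16739784) (b (l 16743960) (l 16777216)))))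 (a (b (c (l 16574224) (l 16571640)) (c (l 16718600) (b (l 16743104) (l 16777216)))) (b (c (l 16532280) (l 16508728)) (c (b (l 16743536) (l 16777216)) (b (l 16722136) (l 16777216)))))) (a (a (c (b (c (l 16579400) (l 16576816)) (c (l 16719024) (l 16718816))) (b (c (l 16574224) (l 16571640)) (c (l 16697632) (l 16676448)))) (b (a (b (c (l 16519824) (l 16513136)) (l 14)) (l 14)) (l 14))) (l 14)))), by decide +kernel⟩

def k5_mm_202 : ∃ t, chk3 f_mm_202 t 12 16 1 = true :=
  ⟨(a (c (b (a (l 16430096) (l 16416304)) (b (a (c (l 16446600) (l 16479176)) (l 16456480)) (a (b (a (l 16473576) (c (l 16487160) (l 16510880))) (l 16446192)) (b (c (l 16489616) (l 16534560)) (a (c (l 16505584) (l 16538728)) (c (l 16531104) (l 16522616))))))) (b (c (b (l 16427808) (l 16424496)) (b (c (l 16431160) (l 16418424)) (l 16465728))) (b (c (a (b (l 16494360) (l 16522856)) (l 16531552)) (a (l 16525672) (l 16548976))) (a (b (c (a (l 16517280) (l 16546744)) (l 16537336)) (l 16510192)) (c (b (l 16558928) (a (l 16564320) (l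 16547856))) (a (l 16474840) (l 16547456))))))) (c (b (a (c (l 16493752) (l 16472528)) (a (b (l 16514640) (l 16534328)) (b (l 16535584) (l 16557768)))) (c (a (l 16471808) (b (l 16558152) (l 16559160))) (b (a (l 16531944) (l 16570648)) (a (l 16570256) (l 16536592))))) (b (c (b (a (l 16482072) (l 16523760)) (a (l 16515008) (l 16537336))) (b (c (l 16505024) (a (l 16494360) (l 16536592))) (c (l 16491808) (l 16559928)))) (c (b (a (l 16519760) (l 16476288)) (c (l 16500200) (l 16534408))) (a (l 16550496) (l 16534768)))))), by decide +kernel⟩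

def k6_mm_202 : ∃ t, chk3 f_mm_202 t 12 17 1 = true :=
  ⟨(b (a (c (b (c (a (l 16413576) (l 16451856)) (a (l 16429928) (l 16427360))) (c (l 16273768) (a (l 16408936) (l 16475456)))) (a (l 16382664) (c (l 16443960) (l 16484128)))) (b (b (c (a (c (a (b (l 16557744) (l 16556912)) (l 16576032)) (a (b (l 16554288) (l 16535104)) (l 16545328))) (c (l 16568024) (l 16536712))) (a (a (c (l 16535800) (l 16535480)) (l 16522352)) (l 16513112))) (a (c (c (a (l 16543952) (b (l 16511272) (l 16580560))) (a (l 16573856) (b (a (l 16543528) (l 16533728)) (l 16547520)))) (a (l 16560408) (c (l 16518160) (l 16530432)))) (l 14))) (a (c (c (l 16501888) (l 16512704)) (l 16543640)) (l 14)))) (a (c (c (a (l 16269688) (b (l 16407280) (l 16353040))) (a (l 16347680) (l 16428704))) (c (l 16259600) (l 16298504))) (a (a (b (c (c (l 16469792) (l 16514448)) (l 16512176)) (l 14)) (l 14)) (l 14)))), by decide +kernel⟩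

def k7_mm_202 : ∃ t, chk3 f_mm_202 t 13 8 1 = true :=
  ⟨(a (a (b (b (c (c (a (l 16545024) (l 16521504)) (b (l 16551400) (l 16535392))) (b (c (l 16551248) (c (l 16555512) (l 16501440))) (a (c (l 16553456) (l 16536064)) (l 14)))) (l 14)) (l 14)) (l 14)) (l 14)), by decide +kernel⟩

def k8_mm_202 : ∃ t, chk3 f_mm_202 t 6 9 1 = true :=
  ⟨(a (b (a (a (c (b (c (l 16278488) (l 16274904)) (c (l 16263208) (l 16257640))) (b (l 16267440) (l 16249296))) (b (a (c (c (l 16337616) (l 16334872)) (l 16328680)) (l 14)) (l 14))) (l 14)) (l 14)) (l 14)), by decide +kernel⟩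

def k9_mm_202 : ∃ t, chk3 f_mm_202 t 7 4 1 = true :=
  ⟨(l 14), by decide +kernel⟩

def k10_mm_202 : ∃ t, chk3 f_mm_202 t 3 5 1 = true :=
  ⟨(l 14), by decide +kernel⟩

def k11_mm_202 : ∃ t, chk3 f_mm_202 t 1 3 1 = true :=
  ⟨(a (a (b (a (b (c (c (b (l 16777216) (c (l 16777216) (l 16777216))) (b (l 16777216) (l 16777216))) (c (c (l 16777216) (l 16777216)) (c (l 16777216) (l 16777216)))) (a (c (c (b (l 16777216) (l 16777216)) (b (l 16777216) (l 16777216))) (c (b (l 16777216) (l 16777216)) (b (l 16777216) (l 16777216)))) (b (c (c (l 16777216) (l 16777216)) (c (l 16777216) (l 16777216))) (l 14)))) (b (a (c (c (b (l 16777216) (l 16777216)) (b (l 16777216) (l 16777216))) (c (b (l 16777216) (l 16777216)) (b (l 16777216) (l 16777216)))) (b (c (c (l 16777216) (l 16777216)) (c (l 16777216) (l 16777216))) (l 14))) (l 14))) (l 2)) (l 14)) (l 14)), by decide +kernel⟩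

theorem s12_mm_202 : ∃ t, chk3 f_mm_202 t 12 8 1 = true := ex3_b k5_mm_202 k6_mm_202

theorem s13_mm_202 : ∃ t, chk3 f_mm_202 t 6 8 1 = true := ex3_a s12_mm_202 k7_mm_202

theorem s14_mm_202 : ∃ t, chk3 f_mm_202 t 6 4 1 = true := ex3_b s13_mm_202 k8_mm_202

theorem s15_mm_202 : ∃ t, chk3 f_mm_202 t 3 4 1 = true := ex3_a s14_mm_202 k9_mm_202

theorem s16_mm_202 : ∃ t, chk3 f_mm_202 t 3 2 1 = true := ex3_b s15_mm_202 k10_mm_202

theorem s17_mm_202 : ∃ t, chk3 f_mm_202 t 5 4 1 = true := ex3_b k2_mm_202 k3_mm_202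

theorem s18_mm_202 : ∃ t, chk3 f_mm_202 t 4 4 1 = true := ex3_b k0_mm_202 k1_mm_202

theorem s19_mm_202 : ∃ t, chk3 f_mm_202 t 2 4 1 = true := ex3_a s18_mm_202 s17_mm_202

theorem s20_mm_202 : ∃ t, chk3 f_mm_202 t 2 2 1 = true := ex3_b s19_mm_202 k4_mm_202

theorem s21_mm_202 : ∃ t, chk3 f_mm_202 t 1 2 1 = true := ex3_a s20_mm_202 s16_mm_202

theorem s22_mm_202 : ∃ t, chk3 f_mm_202 t 1 1 1 = true := ex3_b s21_mm_202 k11_mm_202

theorem c_mm_202 : CertFX 0 536870912 0 536870912 1046898278 26843546 true false false .pp 2 0 2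
    ndF0q2 ndF0q0 pcF2 cut_mm_202 Ext.none :=
  certFX0 (fam := true) (s1 := false) (s2 := false) (a := 2) (b := 0) (c := 2) (cn := .pp) (n1 := ndF0q2) (n2 := ndF0q0) (pc := pcF2) (cut := cut_mm_202) (xt := Ext.none) (P1 := 0) (W1 := 536870912) (P2 := 0) (W2 := 536870912) (P3 := 1046898278) (W3 := 26843546)
    rfl s22_mm_202

noncomputable def cut_mm_203 : Cut := Cut.of [[⟨3, 0, 0, 1449551462⟩], [⟨4, 0, 0, 2845415833⟩]]

noncomputable def f_mm_203 : ℕ → ℕ → ℕ → ℕ → Bool := onCell 0 536870912 1610612736 536870912 1046898278 26843546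
    (rowFX 1 true false false .up 2 0 3 (qsf 0 536870912 0 536870912 3) ndF0q2 ndF0q0 pcF3 cut_mm_203 Ext.none)

def k0_mm_203 : ∃ t, chk3 f_mm_203 t 1 1 1 = true :=
  ⟨(b (a (a (b (a (a (b (b (c (c (l 16777216) (l 16777216)) (c (l 16777216) (l 16777216))) (l 14)) (l 14)) (l 14)) (l 14)) (l 14)) (l 14)) (l 4)) (l 2)), by decide +kernel⟩

theorem c_mm_203 : CertFX 0 536870912 0 536870912 1046898278 26843546 true false false .up 2 0 3
    ndF0q2 ndF0q0 pcF3 cut_mm_203 Ext.none :=
  certFX1 (fam := true) (s1 := false) (s2 := false) (a := 2) (b := 0) (c := 3) (cn := .up) (n1 := ndF0q2) (n2 := ndF0q0) (pc := pcF3) (cut := cut_mm_203) (xt := Ext.none) (P1 := 0) (W1 := 536870912) (P2 := 0) (W2 := 536870912) (P3 := 1046898278) (W3 := 26843546)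
    rfl (fun _ => rfl) k0_mm_203

noncomputable def cut_mm_213 : Cut := Cut.of [[⟨3, 0, 0, 1449551462⟩], [⟨4, 0, 0, 2845415833⟩]]

noncomputable def f_mm_213 : ℕ → ℕ → ℕ → ℕ → Bool := onCell 0 536870912 536870912 536870912 1046898278 26843546
    (rowFX 0 true false false .pnn 2 1 3 (qsf 0 536870912 536870912 536870912 3) ndF0q2 ndF0q1 pcF3 cut_mm_213 Ext.none)

def k0_mm_213 : ∃ t, chk3 f_mm_213 t 1 1 1 = true :=
  ⟨(a (l 14) (l 4)), by decide +kernel⟩

theorem c_mm_213 : CertFX 0 536870912 536870912 536870912 1046898278 26843546 true false false .pnn 2 1 3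
    ndF0q2 ndF0q1 pcF3 cut_mm_213 Ext.none :=
  certFX0 (fam := true) (s1 := false) (s2 := false) (a := 2) (b := 1) (c := 3) (cn := .pnn) (n1 := ndF0q2) (n2 := ndF0q1) (pc := pcF3) (cut := cut_mm_213) (xt := Ext.none) (P1 := 0) (W1 := 536870912) (P2 := 536870912) (W2 := 536870912) (P3 := 1046898278) (W3 := 26843546)
    rfl k0_mm_213

end Pool.Agent.Strip051.G.IE1.Tab.C.FA00

namespace Pool.Agent.Strip051.G.IE1.Tab.C.FA01

open Pool.Agent.Strip051.PB Pool.Agent.Strip051.PB.T
open Pool.Agent.Strip051.G.IE1.Tab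

noncomputable def f_pp_001 : ℕ → ℕ → ℕ → ℕ → Bool := onCell 0 536870912 67108864 469762048 1046898278 26843546
    (rowFX 0 true true true .up 0 0 1 (qsf 0 536870912 67108864 469762048 1) ndF0q0 ndF1q0 pcF1 Cut.none Ext.none)

def k0_pp_001 : ∃ t, chk3 f_pp_001 t 1 1 1 = true :=
  ⟨(l 4), by decide +kernel⟩

theorem c_pp_001 : CertFX 0 536870912 67108864 469762048 1046898278 26843546 true true true .up 0 0 1
    ndF0q0 ndF1q0 pcF1 Cut.none Ext.none :=
  certFX0 (fam := true) (s1 := true) (s2 := true) (a := 0) (b := 0) (c := 1) (cn := .up) (n1 := ndF0q0) (n2 := ndF1q0) (pc := pcF1) (cut := Cut.none) (xt := Ext.none) (P1 := 0) (W1 := 536870912) (P2 := 67108864) (W2 := 469762048) (P3 := 1046898278) (W3 := 26843546)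
    rfl k0_pp_001

noncomputable def f_pp_011 : ℕ → ℕ → ℕ → ℕ → Bool := onCell 0 536870912 536870912 536870912 1046898278 26843546
    (rowFX 0 true true true .pnn 0 1 1 (qsf 0 536870912 536870912 536870912 1) ndF0q0 ndF1q1 pcF1 Cut.none Ext.none)

def k0_pp_011 : ∃ t, chk3 f_pp_011 t 1 1 1 = true :=
  ⟨(l 4), by decide +kernel⟩

theorem c_pp_011 : CertFX 0 536870912 536870912 536870912 1046898278 26843546 true true true .pnn 0 1 1
    ndF0q0 ndF1q1 pcF1 Cut.none Ext.none :=
  certFX0 (fam := true) (s1 := true) (s2 := true) (a := 0) (b := 1) (c := 1) (cn := .pnn) (n1 := ndF0q0) (n2 := ndF1q1) (pc := pcF1) (cut := Cut.none) (xt := Ext.none) (P1 := 0) (W1 := 536870912) (P2 := 536870912) (W2 := 536870912) (P3 := 1046898278) (W3 := 26843546)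
    rfl k0_pp_011

noncomputable def f_pp_012 : ℕ → ℕ → ℕ → ℕ → Bool := onCell 0 536870912 536870912 536870912 1046898278 26843546
    (rowFX 0 true true true .pnp 0 1 2 (qsf 0 536870912 536870912 536870912 2) ndF0q0 ndF1q1 pcF2 Cut.none Ext.none)

def k0_pp_012 : ∃ t, chk3 f_pp_012 t 1 1 1 = true :=
  ⟨(l 4), by decide +kernel⟩

theorem c_pp_012 : CertFX 0 536870912 536870912 536870912 1046898278 26843546 true true true .pnp 0 1 2
    ndF0q0 ndF1q1 pcF2 Cut.none Ext.none :=
  certFX0 (fam := true) (s1 := true) (s2 := true) (a := 0) (b := 1) (c := 2) (cn := .pnp) (n1 := ndF0q0) (n2 := ndF1q1) (pc := pcF2) (cut := Cut.none) (xt := Ext.none) (P1 := 0) (W1 := 536870912) (P2 := 536870912) (W2 := 536870912) (P3 := 1046898278) (W3 := 26843546)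
    rfl k0_pp_012

noncomputable def f_pp_022_a : ℕ → ℕ → ℕ → ℕ → Bool := onCell 1073741824 536870912 0 420477299 1046898278 26843546
    (rowFX 2 true true true .pp 0 2 2 (qsf 0 536870912 0 420477299 2) ndF0q0 ndF1q2a pcF2 Cut.none Ext.none)

def k0_pp_022_a : ∃ t, chk3 f_pp_022_a t 4 2 1 = true :=
  ⟨(l 1), by decide +kernel⟩

def k1_pp_022_a : ∃ t, chk3 f_pp_022_a t 8 3 1 = true :=
  ⟨(a (l 1) (a (l 1) (a (l 1) (b (l 1) (b (l 1) (b (l 1) (b (l 1) (c (c (l 16587728) (c (l 16564672) (l 16563272))) (c (l 16561408) (l 16560496)))))))))), by decide +kernel⟩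

def k2_pp_022_a : ∃ t, chk3 f_pp_022_a t 9 6 1 = true :=
  ⟨(a (l 1) (a (a (l 1) (b (l 1) (c (l 16477080) (b (l 1) (c (l 16517064) (l 16521496)))))) (c (b (l 16363528) (b (l 16458664) (a (l 16525768) (l 16533208)))) (b (b (l 1) (a (l 1) (l 16342016))) (c (b (l 16439840) (a (l 16531144) (l 16425392))) (b (a (l 16454408) (l 16458936)) (a (b (l 16517864) (l 16532280)) (l 16488952)))))))), by decide +kernel⟩

def k3_pp_022_a : ∃ t, chk3 f_pp_022_a t 36 7 1 = true :=
  ⟨(b (l 1) (b (a (l 1) (b (l 1) (c (c (b (l 16528720) (a (l 16575784) (l 16525360))) (l 16562232)) (c (l 16561496) (c (l 16561040) (l 16543136)))))) (c (c (a (b (a (l 1) (l 16565328)) (a (l 16575136) (c (l 16623376) (l 16568800)))) (b (c (l 16587088) (a (l 16560760) (l 16569176))) (c (l 16585880) (c (l 16559336) (l 16564424))))) (a (b (l 16524976) (c (a (l 16568800) (l 16562792)) (l 16561304))) (b (l 16562832) (l 16560736)))) (c (b (a (l 16563000) (l 16562928)) (a (l 16560696) (c (l 16563112) (l 16549560)))) (a (b (l 16563480) (c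 (l 16563448) (a (b (l 16561272) (l 16562720)) (b (l 16566136) (l 16551224))))) (b (c (a (l 16562920) (l 16569168)) (a (b (l 16564176) (l 16569288)) (l 16536440))) (c (a (b (l 16567232) (l 16575352)) (l 16524592)) (a (l 16540560) (l 16590280))))))))), by decide +kernel⟩

def k4_pp_022_a : ∃ t, chk3 f_pp_022_a t 37 7 1 = true :=
  ⟨(b (b (l 1) (c (a (c (a (l 1) (l 16565968)) (l 16553608)) (c (a (l 16571328) (l 16577984)) (l 16573024))) (c (a (l 16553160) (l 16573312)) (a (l 16553504) (b (l 16572832) (c (l 16580720) (l 16545936))))))) (c (b (a (c (c (a (a (l 16568760) (l 16564888)) (l 16561360)) (a (a (l 16561808) (l 16562800)) (l 16568424))) (b (l 16542240) (l 16544680))) (c (b (l 16580984) (l 16538936)) (l 16560448))) (c (a (a (c (a (l 16570824) (l 16565648)) (a (l 16561904) (l 16561952))) (c (b (l 16582648) (l 16578960)) (l 16567200))) (b (c (l 16559712) (l 16578872)) (c (a (l 16555568) (l 16581216)) (l 16583080)))) (a (a (a (l 16541000) (l 16544024)) (b (l 16569728) (l 16555584))) (b (l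 16547976) (c (l 16574000) (l 16568368)))))) (b (c (a (a (l 16539776) (l 16549592)) (b (l 16585168) (c (l 16590056) (l 16519288)))) (a (b (a (l 16560608) (c (l 16567960) (l 16574216))) (a (c (l 16544936) (a (l 16547576) (l 16555424))) (c (l 16582184) (l 16592752)))) (b (c (l 16533280) (l 16585536)) (c (l 16573816) (l 16619624))))) (c (a (b (a (l 16527400) (c (l 16576200) (l 16568552))) (c (a (l 16552848) (l 16593704)) (a (a (l 16582752) (l 16572328)) (l 16568920)))) (b (c (a (l 16595560) (l 16617424)) (l 16539656)) (c (b (l 16581256) (l 16591056)) (l 16598512)))) (a (b (a (c (a (l 16555640) (l 16566112)) (l 16548144)) (l 16540872)) (a (a (l 16554216) (l 16605536)) (l 16595408))) (b (l 16609016) (l 16643416))))))), by decide +kernel⟩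

def k5_pp_022_a : ∃ t, chk3 f_pp_022_a t 19 14 1 = true :=
  ⟨(c (a (b (b (l 16520064) (a (l 16564792) (l 16554752))) (c (b (l 16580136) (l 16556648)) (a (l 16591136) (b (l 16573728) (l 16592664))))) (b (c (b (l 16557504) (l 16563984)) (b (l 16549400) (a (l 16555208) (l 16549264)))) (c (a (b (l 16584656) (l 16607488)) (b (l 16588880) (l 16609480))) (a (b (l 16571080) (l 16585512)) (b (l 16542632) (c (l 16586184) (l 16570488))))))) (a (b (c (b (l 16555856) (l 16511664)) (a (b (l 16562760) (l 16495792)) (b (c (l 16543480) (l 16536536)) (c (l 16536832) (l 16528128))))) (c (a (b (l 16580952) (l 16575408)) (b (c (l 16566504) (l 16555192)) (c (l 16576960) (l 16564616)))) (a (b (c (l 16574168) (l 16566248)) (c (l 16562600) (l 16577192))) (c (l 16486320) (l 16548384))))) (b (b (c (a (l 16540912) (l 16508304)) (a (l 16502592) (l 16518160))) (c (c (a (l 16543376) (l 16529688)) (l 16481720)) (l 16494728))) (c (a (b (l 16526104) (l 16541368)) (c (l 16530720) (l 16546200))) (l 16521288))))), by decide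 +kernel⟩

def k6_pp_022_a : ∃ t, chk3 f_pp_022_a t 19 15 1 = true :=
  ⟨(c (a (b (c (a (b (l 16591672) (l 16572768)) (b (l 16608184) (c (l 16609424) (l 16620072)))) (a (b (l 16598752) (l 16567760)) (b (l 16567160) (c (l 16614880) (l 16576920))))) (c (a (b (l 16557264) (l 16566648)) (b (l 16565104) (c (l 16589872) (a (l 16643256) (l 16641200))))) (a (b (c (l 16614712) (l 16570912)) (c (l 16571544) (b (l 16606672) (l 16617144)))) (b (c (a (l 16645616) (l 16648616)) (l 16595056)) (c (c (l 16607568) (l 16627256)) (b (l 16654560) (l 16666952))))))) (b (c (a (b (l 16599384) (l 16590240)) (b (l 16565184) (c (l 16615952) (l 16619720)))) (b (a (c (l 16609960) (l 16592096)) (c (l 16603400) (l 16590616))) (a (c (l 16625128) (l 16611176)) (c (l 16625128) (l 16615664))))) (c (b (a (c (l 16634968) (l 16615720)) (c (l 16611336) (l 16622840))) (a (c (l 16610648) (b (l 16650624) (l 16657904))) (c (b (l 16622936) (l 16628480)) (l 16663192)))) (a (b (c (l 16626112) (l 16635504)) (c (b (l 16668064) (l 16681128))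 (l 16670544))) (b (l 16641336) (l 16688056)))))) (a (b (b (c (a (c (l 16611352) (l 16562352)) (c (l 16568512) (l 16578056))) (a (l 16577320) (l 16574208))) (c (a (c (l 16588984) (l 16597656)) (c (l 16604920) (l 16597280))) (l 16582600))) (c (b (a (c (l 16584064) (l 16639248)) (a (l 16631960) (l 16623672))) (a (c (l 16624944) (l 16665976)) (l 16636272))) (b (l 16630328) (l 16640120)))) (b (c (b (a (l 16559784) (l 16584392)) (l 16586664)) (l 16551192)) (b (c (l 16621048) (l 16620680)) (c (l 16638648) (l 16659536)))))), by decide +kernel⟩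

def k7_pp_022_a : ∃ t, chk3 f_pp_022_a t 5 2 1 = true :=
  ⟨(a (a (a (b (l 1) (c (l 16209168) (b (l 1) (c (l 16319960) (a (l 16300456) (l 16279032)))))) (b (c (l 16151832) (b (l 16131352) (l 16117552))) (c (b (l 16203200) (l 16245976)) (b (c (l 16202272) (l 16126904)) (c (a (l 16307688) (l 16242968)) (a (l 16257648) (l 16256648))))))) (b (c (a (l 15875016) (b (l 15737824) (l 15744176))) (a (c (a (l 15998768) (l 15923656)) (l 15787712)) (c (l 15840088) (l 15835464)))) (a (c (b (l 16046856) (c (l 16129600) (a (l 16169552) (l 16125800)))) (b (c (l 16063936) (l 16075696)) (c (l 16107792) (l 16172752)))) (c (b (c (l 15932664) (l 15954336)) (c (l 15994360) (l 16081464))) (b (l 15961216) (l 16085536)))))) (a (b (c (a (b (c (l 15665664) (l 15686304)) (l 15720384)) (c (l 15602568) (l 15644864))) (l 15588504)) (c (b (a (l 15705760) (l 15810272)) (a (c (l 16013800) (l 16022232)) (b (l 15933272) (l 16023176)))) (a (l 15943928) (b (l 15801504) (l 15962968))))) (b (c (a (l 15594552) (l 15797488)) (a (l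 15629360) (l 15772872))) (c (a (b (l 15849808) (l 16024688)) (b (l 15973920) (l 16133008))) (b (a (l 15827120) (l 15954232)) (a (l 16006752) (l 16117624))))))), by decide +kernel⟩

def k8_pp_022_a : ∃ t, chk3 f_pp_022_a t 10 6 1 = true :=
  ⟨(a (a (c (b (a (l 16394704) (l 16372632)) (b (c (l 16436192) (a (l 16475360) (l 16497552))) (c (a (l 16534152) (l 16485176)) (a (l 16551552) (b (l 16554736) (l 16467672)))))) (b (c (a (l 16396392) (b (l 16395088) (l 16452528))) (a (b (l 16371552) (l 16435008)) (b (l 16410144) (l 16468472)))) (c (a (b (l 16491792) (l 16490432)) (b (l 16440080) (l 16478424))) (b (a (l 16510872) (l 16534824)) (l 16494184))))) (c (c (b (l 16246288) (b (a (l 16458872) (l 16420360)) (b (l 16416712) (a (l 16556776) (l 16510096))))) (b (a (l 16348400) (l 16196168)) (b (a (l 16487720) (l 16411936)) (b (l 16430008) (l 16492936))))) (c (b (b (l 16251648) (a (l 16441400) (l 16397376))) (a (l 16385696) (l 16510376))) (b (a (l 16426712) (l 16371008)) (l 16511864))))) (c (b (a (c (b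 (l 16221792) (l 16211768)) (b (l 16226904) (l 16283072))) (c (b (l 16172624) (l 16255696)) (l 16184328))) (b (a (c (a (l 16373152) (l 16369480)) (l 16362352)) (c (a (l 16350688) (l 16340024)) (l 16348656))) (a (c (a (l 16421680) (l 16354328)) (l 16447520)) (a (l 16405848) (l 16439056))))) (b (a (c (l 16236808) (l 16296656)) (l 16222936)) (a (b (l 16406512) (l 16465544)) (b (l 16343056) (a (l 16442752) (l 16433592))))))), by decide +kernel⟩

def k9_pp_022_a : ∃ t, chk3 f_pp_022_a t 20 7 2 = true :=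
  ⟨(a (a (b (b (c (b (l 16564576) (l 16569232)) (b (l 16541328) (l 16519032))) (c (c (l 16604360) (l 16533128)) (b (l 16557192) (l 16576928)))) (b (c (b (c (l 16635528) (l 16616360)) (c (l 16613960) (l 16621272))) (b (c (l 16583176) (l 16596952)) (l 16610552))) (c (b (c (b (l 16644528) (l 16626832)) (l 16672496)) (c (l 16653504) (l 16678232))) (b (l 16671160) (l 16678024))))) (b (b (c (b (l 16518048) (a (l 16565824) (l 16560416))) (b (a (l 16531504) (l 16506384)) (a (l 16533600) (l 16489776)))) (c (c (b (l 16590448) (a (l 16611840) (l 16608312))) (a (l 16582808) (a (l 16559456) (b (l 16547448) (l 16567840))))) (c (b (l 16504104) (l 16537784)) (l 16520624)))) (b (b (c (a (l 16605064) (c (c (l 16614248) (l 16613912)) (l 16611920))) (l 16570568)) (c (c (a (l 16638704) (a (l 16657744) (l 16640088))) (a (l 16625328) (l 16635688))) (l 16588256))) (a (c (b (l 16654496) (l 16669760)) (l 16651848)) (b (c (a (l 16672576) (l 16669416)) (l 16649816)) (a (c (l 16667336) (l 16666760)) (a (l 16666992) (b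 (l 16665232) (l 16669816))))))))) (b (b (c (b (a (l 16515296) (l 16517584)) (c (l 16522896) (l 16529344))) (b (a (l 16553456) (l 16597512)) (l 16539224))) (c (a (b (l 16558120) (c (l 16605576) (l 16613584))) (c (b (l 16615848) (l 16629536)) (l 16630128))) (a (l 16585184) (l 16630152)))) (b (a (c (b (l 16607824) (l 16638440)) (l 16640520)) (c (b (l 16634488) (l 16643496)) (l 16598304))) (b (a (c (l 16660912) (l 16660448)) (c (l 16658048) (l 16657400))) (c (a (l 16668792) (l 16672328)) (a (l 16668128) (l 16671568))))))), by decide +kernel⟩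

def k10_pp_022_a : ∃ t, chk3 f_pp_022_a t 20 7 3 = true :=
  ⟨(c (a (b (b (a (b (l 16518104) (l 16521424)) (b (l 16511080) (l 16520072))) (a (l 16551488) (l 16519840))) (b (a (l 16592680) (a (l 16605424) (l 16605952))) (a (l 16649040) (a (l 16651560) (b (l 16670568) (a (l 16666192) (a (l 16666104) (l 16666624)))))))) (b (b (l 16512352) (l 16578176)) (b (a (l 16640488) (l 16618808)) (b (a (l 16659976) (l 16656752)) (a (l 16667464) (l 16670816)))))) (a (b (b (a (l 16512992) (l 16493432)) (a (l 16551296) (l 16539880))) (b (a (l 16592136) (a (l 16605000) (l 16609552))) (a (l 16648944) (a (l 16651272) (a (l 16647944) (a (l 16667696) (b (l 16667592) (l 16666024)))))))) (b (b (l 16532864) (l 16577968)) (b (a (l 16640464) (l 16618344)) (b (a (l 16659512) (l 16656104)) (a (l 16666792) (l 16670056))))))), by decide +kernel⟩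

def k11_pp_022_a : ∃ t, chk3 f_pp_022_a t 21 7 1 = true :=
  ⟨(b (c (a (b (b (c (a (c (l 16554272) (l 16568392)) (l 16535352)) (l 16550912)) (a (c (l 16586576) (l 16588616)) (l 16560568))) (a (c (b (l 16596272) (l 16607240)) (l 16581624)) (c (l 16591976) (l 16591048)))) (b (b (c (l 16524952) (l 16523360)) (c (l 16564600) (l 16563416))) (c (a (l 16600984) (l 16614480)) (l 16564592)))) (b (a (b (l 16507584) (a (l 16587880) (l 16558504))) (b (c (l 16521768) (l 16520176)) (c (l 16562232) (l 16561040)))) (a (a (c (l 16580992) (l 16580368)) (c (l 16590112) (l 16589184))) (c (l 16584656) (l 16583752))))) (b (a (c (c (a (l 16612824) (l 16616192)) (a (l 16633088) (l 16636368))) (c (a (l 16632384) (l 16635576)) (a (l 16631680) (l 16634784)))) (c (c (a (l 16609504) (b (l 16655984) (l 16682144))) (b (l 16625632) (l 16629800))) (c (b (l 16645904) (l 16650168)) (b (l 16645208) (l 16628584))))) (b (a (c (c (a (l 16661328) (l 16667920)) (a (l 16660592) (l 16667136))) (c (a (l 16659848) (l 16666360)) (a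 (l 16659112) (l 16665576)))) (c (a (c (l 16685648) (l 16664024)) (c (b (l 16700808) (l 102240185671)) (b (l 16700336) (l 105998280759)))) (c (a (l 16663376) (a (l 16679288) (l 129620599943))) (a (l 16662728) (a (l 16678776) (l 127473115415)))))) (a (c (a (c (b (l 16673888) (l 16681728)) (b (l 16673096) (l 16680896))) (a (c (l 128009945543) (l 130694298087)) (c (l 137673627287) (a (l 135526143639) (l 126936218983))))) (c (a (b (l 16672304) (l 16680056)) (b (l 16680472) (a (l 16685392) (l 101166422887)))) (a (b (l 16671520) (l 16679224)) (b (l 16679664) (a (l 16684528) (l 100092679239)))))) (b (c (a (c (l 132304935879) (l 123715001271)) (c (l 94187145255) (l 83449726231))) (c (a (l 119420032647) (l 76470404247)) (a (l 117809418583) (l 73786048567)))) (l 4)))))), by decide +kernel⟩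

def k12_pp_022_a : ∃ t, chk3 f_pp_022_a t 11 6 1 = true :=
  ⟨(a (b (c (a (b (l 16135840) (a (l 16231896) (l 16222536))) (b (l 16122552) (l 16233000))) (a (l 16089408) (l 16165200))) (c (a (b (l 16332080) (c (l 16451640) (l 16448832))) (b (l 16350960) (c (l 16477368) (l 16474640)))) (a (b (l 16323432) (l 16423656)) (c (l 16303984) (l 16342384))))) (a (a (b (c (b (l 16149736) (l 16262040)) (l 16067688)) (c (a (b (l 16371344) (c (l 16436272) (l 16496608))) (b (l 16391496) (l 16471000))) (b (l 16331184) (c (l 16459192) (l 16477656))))) (c (b (l 16253680) (b (l 16419288) (c (l 16532640) (l 16530408)))) (b (l 16241776) (b (l 16411808) (l 16527064))))) (b (c (c (l 16212648) (l 16291272)) (c (l 16306984) (l 16301720))) (c (c (b (l 16462872) (l 16521792)) (b (l 16459568) (l 16561800))) (c (b (l 16456264) (l 16559864)) (l 16380144)))))), by decide +kernel⟩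

def k13_pp_022_a : ∃ t, chk3 f_pp_022_a t 22 7 1 = true :=
  ⟨(a (b (c (b (c (b (l 16544688) (l 16589400)) (b (l 16543104) (l 16588304))) (c (a (l 16609040) (b (l 16630816) (l 16663096))) (a (l 16629240) (l 16625504)))) (b (c (b (l 16541520) (l 16587216)) (b (l 16539936) (l 16586120))) (c (b (l 16620648) (l 16631600)) (b (l 16619824) (l 16631008))))) (b (c (c (b (a (l 16674704) (l 16670104)) (a (l 16679968) (l 59290516855))) (b (a (l 16674216) (l 16690720)) (a (l 16679600) (b (l 16708640) (l 109756404631))))) (c (b (a (l 16673736) (l 16690360)) (a (l 16679232) (b (l 16708344) (l 114051371655)))) (a (b (l 16673256) (l 16678856)) (b (l 16690008) (b (l 16708048) (l 117272597191)))))) (b (c (a (c (b (l 103850818087) (l 96334648743)) (b (l 108145784007) (l 85060359015))) (c (l 108682680887) (l 87207843527))) (a (c (b (l 111903880647) (l 78081036903)) (b (l 114588234487) (l 74859810535))) (c (l 79154779623) (b (l 75933556023) (l 4))))) (l 4)))) (b (c (b (c (b (a (l 16566136) (l 16581848)) (a (l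 16613336) (l 16626808))) (b (l 16572160) (l 16618328))) (c (a (b (l 16647128) (l 16676624)) (b (l 16657656) (l 16686224))) (a (l 16619032) (l 16650696)))) (b (c (b (l 16570736) (l 16617424)) (b (l 16569304) (l 16616520))) (c (b (l 16629472) (l 16659272)) (b (l 16649816) (l 16658848))))) (b (c (b (c (a (l 16702080) (l 43184381367)) (a (l 16701776) (l 51774314791))) (c (a (b (l 16719008) (l 110830169095)) (l 107608941415)) (a (l 114588239015) (l 87207846791)))) (c (b (a (l 16701472) (l 122104403591)) (a (b (l 16697520) (l 80765396791)) (l 79154782487))) (b (a (l 16701160) (l 117809436279)) (a (b (l 113514499607) (l 76470429527)) (l 73786073399))))) (l 4)))), by decide +kernel⟩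

def k14_pp_022_a : ∃ t, chk3 f_pp_022_a t 23 7 1 = true :=
  ⟨(a (b (a (c (a (b (c (b (a (l 16590088) (l 16594472)) (a (l 16632328) (l 16636392))) (b (l 16569992) (l 16612568))) (a (c (a (l 16656736) (l 16658232)) (l 16636040)) (c (l 16661224) (l 16681752)))) (b (c (b (l 16601944) (l 16643144)) (l 16579736)) (c (l 16667096) (l 16666704)))) (b (b (c (l 16552664) (l 16572376)) (c (l 16616248) (l 16615464))) (c (a (a (l 16656536) (l 16681312)) (l 16666312)) (a (a (l 16656064) (l 16680864)) (l 16665920))))) (c (b (c (b (l 16616216) (l 16656016)) (b (l 16615136) (l 16655392))) (c (b (l 16685040) (l 16691520)) (b (l 16684640) (l 16691304)))) (b (c (l 16592576) (l 16591720)) (c (b (l 16684240) (l 16691088)) (b (l 16683840) (l 16690864)))))) (b (b (a (c (c (a (a (a (l 16719480) (l 60364274823)) (l 16701456)) (l 83449741127)) (a (a (b (l 16693376) (l 31373317927)) (l 16701248)) (l 105998318359))) (c (a (a (a (l 16698080) (l 119956944887)) (l 16701040)) (l 98482125175)) (a (a (a (l 16697856) (l 114588235671))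 (l 16700832)) (l 93650287207)))) (a (c (c (l 104387720263) (l 111367041847)) (c (l 16717856) (l 76470432039))) (l 4))) (l 4)) (l 4))) (b (c (b (b (c (b (l 16629008) (l 16634264)) (l 16620344)) (c (l 16637256) (l 16657800))) (b (c (a (l 16699352) (l 16690984)) (l 41573735191)) (a (c (l 72712307447) (l 81302241367)) (b (c (l 99019009223) (l 16705944)) (l 4))))) (b (b (c (l 16640472) (l 16639624)) (c (l 16678344) (l 16677920))) (c (b (l 50700540215) (a (l 108682657527) (l 50700655511))) (b (l 61974829207) (a (l 104387690215) (l 123715067719)))))) (l 4))), by decide +kernel⟩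

def k15_pp_022_a : ∃ t, chk3 f_pp_022_a t 6 2 1 = true :=
  ⟨(a (b (a (c (b (l 15957936) (l 16032728)) (b (l 15937176) (l 16014080))) (c (a (l 16153368) (l 16241720)) (b (l 16158552) (l 16142816)))) (a (c (b (a (l 16088368) (l 16178968)) (a (l 16223544) (l 16292704))) (b (a (l 16071424) (l 16164144)) (a (l 16210248) (l 16280936)))) (a (c (b (l 16254064) (l 16352960)) (c (l 16191512) (l 16227584))) (c (c (l 16305672) (l 16279504)) (c (l 16253336) (l 16248136)))))) (a (c (b (a (l 16323096) (l 16427832)) (a (b (l 16383928) (c (l 16456352) (l 16452192))) (c (l 16431160) (l 16406760)))) (b (a (l 16311360) (l 16418760)) (b (a (l 16373784) (l 16472312)) (a (c (l 16448040) (l 16443880)) (c (l 16539024) (l 16535992)))))) (b (c (c (l 16564048) (l 16561808)) (c (l 16538600) (l 16536360))) (b (c (a (l 16576280) (b (l 16697400) (l 16658536))) (c (l 16525664) (l 16524064))) (c (a (c (l 16638240) (l 16636696)) (c (a (l 16739024) (l 16769680)) (a (l 16738520) (l 16769584)))) (a (c (l 16635152) (l 16612640))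 (a (c (l 16738024) (l 16716552)) (c (l 16748512) (l 16748416))))))))), by decide +kernel⟩

def k16_pp_022_a : ∃ t, chk3 f_pp_022_a t 6 12 1 = true :=
  ⟨(a (a (c (a (c (l 16380480) (l 16375896)) (c (l 16431320) (l 16427248))) (c (a (l 16371312) (l 16423176)) (a (l 16366728) (l 16419112)))) (c (a (c (l 16475784) (l 16472144)) (c (l 16514008) (l 16510728))) (c (a (l 16468504) (l 16486472)) (a (l 16464864) (l 16462224))))) (a (c (a (c (a (l 16538688) (l 16554576)) (a (l 16535632) (l 16551680))) (c (l 16523160) (b (l 16602208) (l 16607096)))) (a (c (a (l 16532584) (l 16527808)) (a (l 16529528) (b (l 16520296) (l 16570552)))) (c (b (l 16599952) (l 16605448)) (c (l 16559736) (l 16558760))))) (c (a (b (c (l 16652720) (l 16651920)) (c (a (l 16733416) (b (l 16767032) (l 16775376))) (a (l 16690896) (b (l 16766904) (l 16775352))))) (c (b (a (l 16773264) (l 16777192)) (a (l 16777184) (l 123178319815))) (b (a (l 16773208) (l 16777192)) (c (l 108682805191) (l 108682805191))))) (a (c (b (a (l 16686472)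 (l 16741632)) (a (l 16690328) (a (l 16745176) (l 16755048)))) (a (b (l 16685312) (l 16689752)) (b (l 16720200) (b (l 16745664) (a (l 16774304) (l 16777184)))))) (c (b (a (l 16773160) (l 16777192)) (c (l 109219676103) (l 111367159735))) (b (a (l 16752136) (l 16777192)) (c (l 114588385191) (b (l 16777192) (l 142505672487))))))))), by decide +kernel⟩

def k17_pp_022_a : ∃ t, chk3 f_pp_022_a t 6 13 1 = true :=
  ⟨(b (a (a (c (a (c (l 16507624) (l 16504744)) (c (l 16546120) (l 16543584))) (a (c (l 16501872) (l 16498992)) (c (l 16541056) (l 16538520)))) (c (c (a (l 16578536) (l 16605016)) (a (l 16576264) (l 16602928))) (a (c (l 16573992) (l 16571720)) (c (l 16600848) (l 16556824))))) (a (c (a (c (a (l 16621072) (l 16610440)) (a (l 16619096) (l 16608544))) (a (c (l 85060164263) (l 81302062551)) (b (c (l 16715696) (l 16714888)) (c (l 150558580663) (l 151095449671))))) (a (c (a (l 16617120) (a (l 16624008) (l 16631168))) (a (l 16615144) (a (l 16622080) (l 56069075847)))) (a (c (l 82375801671) (c (l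 16628136) (l 90965732887))) (c (b (l 16714088) (l 151632319319)) (b (l 16692312) (c (l 152169189879) (l 153779801495))))))) (a (b (c (c (a (l 86670998791) (l 159685541799)) (a (b (l 16739592) (l 144653084823)) (l 162906767287))) (c (a (a (l 16734720) (l 114051487927)) (l 161833025463)) (a (a (l 104387738007) (c (l 128546986919) (l 131768212167))) (l 160759283639)))) (l 4)) (l 4)))) (a (a (c (a (c (l 16536848) (l 16577168)) (c (l 16587832) (l 16607408))) (a (c (l 16596520) (l 16594904)) (c (l 16626984) (l 16604624)))) (c (a (c (a (l 16648464) (l 16659064)) (a (l 16647184) (l 16657840))) (c (a (l 81302082967) (b (l 16659056) (l 145726684583))) (a (l 77007113271) (b (l 16657648) (l 139821102439))))) (a (c (a (l 16645904) (l 16656608)) (a (l 16644632) (l 16613440))) (c (a (l 78617720983) (b (l 16656240) (l 139821098359))) (a (b (l 16645960) (l 105461341255)) (b (l 16654840) (c (l 144652935607) (l 148411030359)))))))) (b (a (a (c (c (a (l 104924447207) (l 148947855847)) (a (l 100092602295) (l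 143579140775))) (c (a (l 100092599191) (a (l 137136708839) (l 163980247927))) (a (c (l 16662400) (l 107071918247)) (a (l 140357931255) (l 160222203975))))) (l 4)) (l 4)) (l 4)))), by decide +kernel⟩

def k18_pp_022_a : ∃ t, chk3 f_pp_022_a t 6 7 1 = true :=
  ⟨(a (b (b (b (a (c (a (c (l 16629592) (l 16649960)) (c (a (l 16668784) (l 16679040)) (l 43184313255))) (a (c (l 16649344) (l 16648736)) (c (l 16652120) (a (l 16688280) (l 16677696))))) (a (c (c (a (b (l 16698752) (l 121567559495)) (l 139284273703)) (a (l 95797710823) (l 135526176391))) (c (a (l 97408322023) (l 143042367239)) (a (b (l 16697048) (l 140358038951)) (b (l 145189851719) (l 4))))) (l 4))) (a (c (a (c (c (l 16683960) (l 16683840)) (l 16683664)) (c (a (l 74322917047) (l 113514513175)) (a (l 16697848) (l 124251930983)))) (a (c (l 16683416) (l 16683176)) (c (a (l 16697656) (l 136063090471)) (a (l 85597204567) (l 148411120855))))) (l 4))) (b (a (a (c (c (a (l 73249177687) (b (l 99555876471) (l 4))) (a (l 80765370135) (l 57143124439)))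 (c (a (l 16700088) (l 49090039751)) (a (l 87744690679) (l 122104451655)))) (l 4)) (l 4)) (l 4))) (l 4)) (l 4)), by decide +kernel⟩

def k19_pp_022_a : ∃ t, chk3 f_pp_022_a t 14 2 1 = true :=
  ⟨(b (c (a (a (b (l 16753120) (l 16740424)) (l 16777216)) (c (l 16777216) (l 16777216))) (a (a (b (l 16752496) (l 16698072)) (l 16777216)) (c (l 16777216) (l 16777216)))) (c (a (c (b (a (l 16772808) (l 16777208)) (a (l 16777200) (l 16777200))) (b (a (l 16772752) (l 16777208)) (a (l 16777200) (l 16777200)))) (b (c (a (l 16777208) (l 16777208)) (a (l 16777208) (l 16777208))) (a (c (c (l 83986743271) (l 82376130535)) (c (l 81302388695) (l 81302388695))) (b (c (l 16777208) (l 16777208)) (a (c (l 126399545319) (l 125325803479)) (c (l 156464316391) (l 155390574567))))))) (a (c (a (b (l 16772696) (l 16777200)) (c (l 16777208) (l 16777208))) (a (b (l 16772640) (l 16777200)) (c (l 16777208) (l 16777208)))) (c (a (b (l 16777208) (c (l 82376130519) (l 83986743255))) (b (l 16777208) (b (l 16777208) (c (l 139821318119)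 (l 140895059943))))) (a (b (l 16777208) (c (l 83986743239) (l 84523614151))) (b (l 16777208) (b (l 16777208) (c (l 143042543591) (l 146800639975))))))))), by decide +kernel⟩

def k20_pp_022_a : ∃ t, chk3 f_pp_022_a t 15 2 1 = true :=
  ⟨(a (b (c (c (l 16777216) (l 16777216)) (c (l 16777216) (b (l 16777216) (l 16777216)))) (c (b (c (a (l 16777208) (l 16777208)) (a (l 16777208) (b (l 16777216) (l 16777208)))) (b (c (a (a (l 16777208) (l 118346481607)) (a (l 149484994551) (l 193508409335))) (a (a (l 16777208) (l 116735868871)) (c (l 159685541879) (l 159148670967)))) (a (a (c (l 201024602087) (l 198340247527)) (l 4)) (l 4)))) (b (c (a (l 16777208) (b (l 16777216) (l 16777208))) (a (l 16777208) (c (l 16777208) (l 16777208)))) (b (c (a (a (l 16777208) (l 117272739783)) (c (l 165591121911) (l 163980509175))) (a (c (l 111904030631) (l 112440901543)) (c (l 162369896439) (l 160759283703)))) (a (a (c (l 195119022055) (l 191897796583)) (l 4)) (l 4)))))) (b (c (a (c (l 16777216) (l 16777216)) (c (l 16777216)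 (l 16777216))) (c (c (l 16777216) (l 16777216)) (c (l 16777216) (l 16777216)))) (b (c (a (c (b (l 16777216) (c (l 132305125367) (l 130694512631))) (b (l 16777216) (c (l 129620770807) (l 128547028983)))) (b (c (a (l 16777216) (l 16777216)) (a (l 16777216) (l 16777216))) (c (c (l 199950860279) (l 197266505719)) (c (l 194045280247) (l 190824054775))))) (a (c (b (l 16777216) (c (l 128547028983) (l 128547028983))) (b (l 16777216) (c (l 129083899895) (l 130157641719)))) (b (c (c (l 16777216) (l 16777216)) (c (l 16777216) (l 16777216))) (c (c (l 187602829303) (l 184381603831)) (c (l 180623507447) (l 177939152887)))))) (a (a (b (c (c (l 228405018615) (l 223036309495)) (c (l 217667600375) (l 210688278519))) (l 4)) (l 4)) (l 4))))), by decide +kernel⟩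

def k21_pp_022_a : ∃ t, chk3 f_pp_022_a t 7 3 1 = true :=
  ⟨(b (b (a (a (a (c (b (c (l 75396808663) (c (l 16777192) (l 16777192))) (b (c (l 161296154551) (a (l 127473287079) (l 191360925607))) (l 4))) (b (c (c (l 16777192) (l 16777192)) (c (l 16777192) (l 16777192))) (c (a (l 150021865415) (l 192434667463)) (c (l 166127992775) (l 164517380039))))) (b (c (c (a (l 108682805207) (l 137673834455)) (c (l 122641448919) (l 122641448919))) (c (c (l 123178319831) (l 125325803479)) (b (a (l 16777192) (l 110293417943)) (a (l 143579414327) (l 192971538391))))) (l 4))) (a (a (b (b (c (c (l 168812347335) (l 165054250935)) (c (l 161296154551) (l 158074929111))) (l 4)) (l 4)) (l 4)) (l 4))) (l 4)) (l 4)) (l 4)), by decide +kernel⟩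

theorem s22_pp_022_a : ∃ t, chk3 f_pp_022_a t 7 2 1 = true := ex3_a k19_pp_022_a k20_pp_022_a

theorem s23_pp_022_a : ∃ t, chk3 f_pp_022_a t 7 1 1 = true := ex3_b s22_pp_022_a k21_pp_022_a

theorem s24_pp_022_a : ∃ t, chk3 f_pp_022_a t 6 6 1 = true := ex3_b k16_pp_022_a k17_pp_022_a

theorem s25_pp_022_a : ∃ t, chk3 f_pp_022_a t 6 3 1 = true := ex3_b s24_pp_022_a k18_pp_022_a

theorem s26_pp_022_a : ∃ t, chk3 f_pp_022_a t 6 1 1 = true := ex3_b k15_pp_022_a s25_pp_022_a

theorem s27_pp_022_a : ∃ t, chk3 f_pp_022_a t 3 1 1 = true := ex3_a s26_pp_022_a s23_pp_022_a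

theorem s28_pp_022_a : ∃ t, chk3 f_pp_022_a t 11 7 1 = true := ex3_a k13_pp_022_a k14_pp_022_a

theorem s29_pp_022_a : ∃ t, chk3 f_pp_022_a t 11 3 1 = true := ex3_b k12_pp_022_a s28_pp_022_a

theorem s30_pp_022_a : ∃ t, chk3 f_pp_022_a t 20 7 1 = true := ex3_c k9_pp_022_a k10_pp_022_a

theorem s31_pp_022_a : ∃ t, chk3 f_pp_022_a t 10 7 1 = true := ex3_a s30_pp_022_a k11_pp_022_a

theorem s32_pp_022_a : ∃ t, chk3 f_pp_022_a t 10 3 1 = true := ex3_b k8_pp_022_a s31_pp_022_a

theorem s33_pp_022_a : ∃ t, chk3 f_pp_022_a t 5 3 1 = true := ex3_a s32_pp_022_a s29_pp_022_a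

theorem s34_pp_022_a : ∃ t, chk3 f_pp_022_a t 5 1 1 = true := ex3_b k7_pp_022_a s33_pp_022_a

theorem s35_pp_022_a : ∃ t, chk3 f_pp_022_a t 19 7 1 = true := ex3_b k5_pp_022_a k6_pp_022_a

theorem s36_pp_022_a : ∃ t, chk3 f_pp_022_a t 18 7 1 = true := ex3_a k3_pp_022_a k4_pp_022_a

theorem s37_pp_022_a : ∃ t, chk3 f_pp_022_a t 9 7 1 = true := ex3_a s36_pp_022_a s35_pp_022_a

theorem s38_pp_022_a : ∃ t, chk3 f_pp_022_a t 9 3 1 = true := ex3_b k2_pp_022_a s37_pp_022_a

theorem s39_pp_022_a : ∃ t, chk3 f_pp_022_a t 4 3 1 = true := ex3_a k1_pp_022_a s38_pp_022_a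

theorem s40_pp_022_a : ∃ t, chk3 f_pp_022_a t 4 1 1 = true := ex3_b k0_pp_022_a s39_pp_022_a

theorem s41_pp_022_a : ∃ t, chk3 f_pp_022_a t 2 1 1 = true := ex3_a s40_pp_022_a s34_pp_022_a

theorem s42_pp_022_a : ∃ t, chk3 f_pp_022_a t 1 1 1 = true := ex3_a s41_pp_022_a s27_pp_022_a

theorem c_pp_022_a : CertFX 0 536870912 0 420477299 1046898278 26843546 true true true .pp 0 2 2
    ndF0q0 ndF1q2a pcF2 Cut.none Ext.none :=
  certFX2 (fam := true) (s1 := true) (s2 := true) (a := 0) (b := 2) (c := 2) (cn := .pp) (n1 := ndF0q0) (n2 := ndF1q2a) (pc := pcF2) (cut := Cut.none) (xt := Ext.none) (P1 := 0) (W1 := 536870912) (P2 := 0) (W2 := 420477299) (P3 := 1046898278) (W3 := 26843546)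
    rfl (fun _ => rfl) s42_pp_022_a

noncomputable def f_pp_022_b : ℕ → ℕ → ℕ → ℕ → Bool := onCell 0 536870912 1073741824 536870912 1046898278 26843546
    (rowFX 1 true true true .pp 0 2 2 (qsf 0 536870912 1239849684 370763052 2) ndF0q0 ndF1q2b pcF2 Cut.none Ext.none)

def k0_pp_022_b : ∃ t, chk3 f_pp_022_b t 1 2 1 = true :=
  ⟨(b (l 1) (a (a (b (a (b (a (a (a (b (l 1) (c (l 16192648) (l 16046568))) (l 1)) (l 1)) (l 1)) (a (c (a (l 15679008) (c (l 305510784711) (l 294236522711))) (a (c (l 15734984) (l 15532736)) (c (l 285109758087) (l 15905744)))) (a (b (l 1) (c (l 377988396727) (l 15905752))) (l 1)))) (l 1)) (a (b (a (c (c (l 15295144) (l 15081800)) (a (c (l 15215160) (l 15214624)) (l 15253104))) (c (a (c (l 15406312) (l 15488672)) (c (l 302825998071) (l 15658648))) (l 256654942775))) (c (a (a (l 14968456) (l 15084912)) (c (a (l 15226288) (l 15389408)) (l 15315280))) (a (a (l 14943664) (l 15083992)) (l 15301176)))) (b (a (c (a (l 380135694231) (l 1)) (l 404295010359)) (l 1)) (a (c (a (l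 15529728) (l 15698264)) (l 15459408)) (c (l 476772855495) (l 470867233447)))))) (l 1)) (l 1))), by decide +kernel⟩

def k1_pp_022_b : ∃ t, chk3 f_pp_022_b t 2 3 1 = true :=
  ⟨(b (a (a (b (c (a (b (l 14990488) (l 14934216)) (b (c (l 15268144) (l 15273504)) (l 15216344))) (a (b (l 14876000) (l 14922736)) (l 15231312))) (c (a (l 14871888) (b (l 15157088) (l 15149528))) (a (l 14669408) (l 15135264)))) (b (c (a (b (l 15563440) (l 15507144)) (b (l 15913344) (l 15857936))) (a (l 15453296) (b (l 15891344) (l 15834376)))) (c (a (b (l 15447920) (l 15440344)) (l 15753752)) (b (l 15410416) (l 15591368))))) (b (a (b (a (c (l 457982970471) (l 472478445127)) (l 1)) (a (c (l 16145144) (l 16128952)) (c (l 452077784567) (l 477310666711)))) (l 1)) (a (c (b (a (l 16087432) (l 16303160)) (l 16022360)) (b (a (l 16069552) (l 16291960)) (l 16070576))) (a (c (b (l 380674342071) (l 16515192)) (b (l 441877605575) (l 16510016))) (b (l 1) (c (l 549789180247) (l 587907014119))))))) (a (a (c (b (a (l 14867920) (l 15149528))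 (l 14849696)) (b (a (l 14854024) (l 15131104)) (a (l 14854024) (l 15131104)))) (c (b (a (l 15440344) (l 15791688)) (l 15543336)) (b (l 15381648) (l 15591368)))) (b (a (c (a (l 16080000) (l 16337824)) (a (l 16061896) (l 16326416))) (c (a (b (l 16578104) (l 16578104)) (b (a (l 16744176) (l 16777216)) (l 16739896))) (a (b (l 16572936) (l 16572936)) (b (a (l 16743320) (l 16777216)) (l 16760440))))) (a (c (l 16211104) (l 16154464)) (c (a (l 16578104) (b (l 16760864) (l 16760864))) (a (l 16572936) (b (l 16760440) (l 16760440)))))))), by decide +kernel⟩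

def k2_pp_022_b : ∃ t, chk3 f_pp_022_b t 3 3 1 = true :=
  ⟨(b (l 1) (a (b (a (b (a (c (l 580391008759) (l 581464750551)) (l 1)) (a (c (l 343630938039) (l 343094066551)) (c (l 600792103415) (l 572874815959)))) (l 1)) (a (c (a (b (l 16777216) (l 16777216)) (c (l 340946583479) (l 323229843383))) (c (b (l 317324263271) (l 16777216)) (b (l 314639907559) (l 16777216)))) (b (a (c (l 575559170551) (l 557305559511)) (l 1)) (b (a (c (l 495028535223) (l 482680503671)) (l 1)) (a (c (l 320008617943) (l 298533780855)) (c (l 547105013751) (l 536367595511))))))) (l 1))), by decide +kernel⟩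

theorem s3_pp_022_b : ∃ t, chk3 f_pp_022_b t 1 3 1 = true := ex3_a k1_pp_022_b k2_pp_022_b

theorem s4_pp_022_b : ∃ t, chk3 f_pp_022_b t 1 1 1 = true := ex3_b k0_pp_022_b s3_pp_022_b

theorem c_pp_022_b : CertFX 0 536870912 1239849684 370763052 1046898278 26843546 true true true .pp 0 2 2
    ndF0q0 ndF1q2b pcF2 Cut.none Ext.none :=
  certFX1 (fam := true) (s1 := true) (s2 := true) (a := 0) (b := 2) (c := 2) (cn := .pp) (n1 := ndF0q0) (n2 := ndF1q2b) (pc := pcF2) (cut := Cut.none) (xt := Ext.none) (P1 := 0) (W1 := 536870912) (P2 := 1239849684) (W2 := 370763052) (P3 := 1046898278) (W3 := 26843546)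
    rfl (fun _ => rfl) s4_pp_022_b

noncomputable def f_pp_023_a : ℕ → ℕ → ℕ → ℕ → Bool := onCell 1610612736 536870912 0 420477299 1046898278 26843546
    (rowFX 2 true true true .up 0 2 3 (qsf 0 536870912 0 420477299 3) ndF0q0 ndF1q2a pcF3 Cut.none Ext.none)

def k0_pp_023_a : ∃ t, chk3 f_pp_023_a t 8 4 1 = true :=
  ⟨(c (a (c (b (l 16777216) (a (b (l 16777216) (l 16777216)) (a (l 62511906775) (b (l 16777216) (a (l 118346481623) (l 137136963543)))))) (b (l 16777216) (a (c (l 16777216) (l 16777216)) (b (l 16777216) (a (l 16777216) (c (l 129083899863) (l 127473287127))))))) (c (a (b (l 16777216) (c (b (l 16777216) (a (l 166664863751) (l 199950860295))) (b (l 16777216) (a (l 164517380103) (l 197803376647))))) (c (b (l 16777216) (b (b (l 16777216) (a (l 144653156343) (l 209614536711))) (l 250953596935))) (b (l 16777216) (b (b (l 16777216) (a (l 142505672695) (l 208003923975))) (l 248806113287))))) (b (a (l 16777216) (b (l 16777216) (l 16777216))) (c (b (a (l 16777216) (b (l 16777216) (a (l 140358189047)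 (l 205856440327)))) (a (a (l 162369896455) (l 195655892999)) (l 246658629639))) (b (a (l 16777216) (b (l 16777216) (a (l 138210705399) (l 203708956679)))) (a (a (l 160759283719) (l 193508409351)) (l 244511145991))))))) (a (a (c (c (l 16777216) (l 16777216)) (c (l 16777216) (l 16777216))) (c (b (l 16777216) (b (l 16777216) (a (l 16777216) (a (l 111904030679) (l 130157641687))))) (b (l 16777216) (a (l 16777216) (c (l 53385101239) (l 53921972151)))))) (b (c (a (l 16777216) (c (l 16777216) (l 16777216))) (c (l 16777216) (l 16777216))) (a (a (b (c (l 16777216) (l 16777216)) (c (c (l 158611800071) (l 157001187335)) (b (l 112440901591) (l 203172085767)))) (b (c (l 16777216) (l 16777216)) (c (c (l 191360925703) (l 189213442055)) (c (l 186529087495) (l 183844732935))))) (a (b (c (c (l 120493965271) (l 16777216)) (c (l 16777216) (l 16777216))) (a (c (l 235921211399) (l 229478760455)) (l 4))) (b (c (b (l 103850967031) (a (l 177402281975) (l 223036309511))) (b (l 16777216) (a (l 172033572823) (l 217667600391))))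 (l 4))))))), by decide +kernel⟩

def k1_pp_023_a : ∃ t, chk3 f_pp_023_a t 18 8 1 = true :=
  ⟨(c (a (c (a (l 16777216) (a (l 16777216) (c (l 44258295815) (l 46405779463)))) (b (l 16777216) (a (l 16777216) (c (l 42647683079) (l 44258295815))))) (b (c (a (l 16777216) (l 16777216)) (a (l 16777216) (l 16777216))) (a (b (c (c (l 16777216) (l 16777216)) (c (l 16777216) (l 16777216))) (c (c (l 191897796615) (l 189750312967)) (c (l 187602829319) (l 185455345671)))) (b (c (c (l 162369896455) (l 160759283719)) (c (l 158611800071) (l 155927445511))) (a (c (l 257932918791) (l 255248564231)) (l 4)))))) (a (c (b (l 16777216) (a (l 16777216) (c (l 16777216) (l 16777216)))) (a (l 16777216) (c (l 53921972215) (l 16777216)))) (b (c (c (l 16777216) (l 16777216)) (c (l 16777216) (l 16777216))) (a (c (b (c (l 16777216) (l 16777216)) (c (l 182770991111) (l 179549765639))) (b (l 16777216) (c (l 176328540167) (l 173107314695)))) (a (b (c (a (l 16777216) (l 134989479943)) (a (l 16777216) (l 29762781191))) (c (l 251490467847)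 (l 246121758727))) (b (c (c (l 166127992839) (l 162906767367)) (c (l 159685541895) (l 155927445511))) (l 4))))))), by decide +kernel⟩

def k2_pp_023_a : ∃ t, chk3 f_pp_023_a t 19 8 1 = true :=
  ⟨(a (b (c (a (c (c (l 41037070343) (l 42647683079)) (c (l 16777216) (l 16777216))) (a (c (b (l 16777216) (c (l 170959831047) (l 169349218311))) (b (l 16777216) (c (l 167201734663) (l 165054251015)))) (b (c (l 16777216) (l 16777216)) (c (c (l 206393311239) (l 204782698503)) (c (l 202635214855) (l 199950860295)))))) (c (c (b (l 16777216) (a (l 16777216) (b (l 149484994567) (l 227868147719)))) (b (l 16777216) (a (l 16777216) (b (l 146800640007) (l 226257534983))))) (a (c (l 16777216) (l 16777216)) (b (c (l 16777216) (l 16777216)) (a (c (l 156464316423) (l 152706220039)) (c (l 190287183879) (l 185992216583))))))) (a (b (c (c (c (l 228941889543) (l 227868147719)) (c (l 226794405895) (l 225720664071))) (c (c (l 224110051335) (l 221962567687)) (c (l 201024602119) (l 196729634823)))) (l 4)) (l 4))) (b (b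 (a (c (c (c (b (l 16777216) (a (l 16777216) (l 220351954951))) (a (l 16777216) (b (l 16777216) (l 218741342215)))) (c (a (l 16777216) (b (l 16777216) (l 217130729479))) (a (l 16777216) (b (l 16777216) (l 214983245831))))) (c (c (a (l 16777216) (b (l 16777216) (l 212835762183))) (a (l 16777216) (b (l 16777216) (l 210151407623)))) (c (a (l 16777216) (b (l 16777216) (l 187602829319))) (a (l 16777216) (b (l 16777216) (l 183307862023)))))) (b (c (c (a (c (l 171496701959) (l 170422960135)) (c (l 249879855111) (l 248269242375))) (a (c (l 168275476487) (l 166664863751)) (c (l 246121758727) (l 243974275079)))) (c (a (c (l 163980509191) (l 161296154631)) (c (l 241289920519) (l 238605565959))) (a (c (l 158611800071) (l 155390574599)) (c (l 235384340487) (l 209077665799))))) (l 4))) (a (a (a (c (c (l 252564209671) (l 250953596935)) (c (l 247732371463) (l 242900533255))) (l 4)) (l 4)) (l 4))) (l 4))), by decide +kernel⟩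

def k3_pp_023_a : ∃ t, chk3 f_pp_023_a t 9 9 1 = true :=
  ⟨(b (b (a (a (a (c (c (c (l 167738605575) (l 165591121927)) (c (l 163443638263) (l 161296154615))) (c (c (l 158611800055) (l 156464316407)) (c (l 153779961815) (l 151095607255)))) (a (c (c (l 226794405895) (l 223573180423)) (c (l 219278213127) (l 214446374919))) (l 4))) (l 4)) (l 4)) (l 4)) (l 4)), by decide +kernel⟩

def k4_pp_023_a : ∃ t, chk3 f_pp_023_a t 5 4 1 = true :=
  ⟨(a (l 4) (l 2)), by decide +kernel⟩

def k5_pp_023_a : ∃ t, chk3 f_pp_023_a t 2 5 1 = true :=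
  ⟨(b (a (b (a (a (a (c (c (b (a (l 16777216) (l 132841996247)) (a (l 164517380087) (l 231626244087))) (a (a (l 121567707095) (l 139821318103)) (b (l 129620770775) (l 225720664055)))) (c (a (a (l 120493965223) (l 138210705319)) (b (l 127473287127) (l 219278213111))) (b (a (l 16777216) (l 126399545255)) (a (l 158611800055) (l 211762020343))))) (a (b (c (c (b (l 176328540119) (l 239142436871)) (b (l 171496701911) (l 234310598663))) (c (b (l 166664863703) (l 227868147719)) (l 182770991015))) (l 4)) (l 4))) (l 4)) (l 4)) (l 4)) (l 4)) (l 4)), by decide +kernel⟩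

def k6_pp_023_a : ∃ t, chk3 f_pp_023_a t 2 3 1 = true :=
  ⟨(l 4), by decide +kernel⟩

def k7_pp_023_a : ∃ t, chk3 f_pp_023_a t 3 1 1 = true :=
  ⟨(l 2), by decide +kernel⟩

theorem s8_pp_023_a : ∃ t, chk3 f_pp_023_a t 9 8 1 = true := ex3_a k1_pp_023_a k2_pp_023_a

theorem s9_pp_023_a : ∃ t, chk3 f_pp_023_a t 9 4 1 = true := ex3_b s8_pp_023_a k3_pp_023_a

theorem s10_pp_023_a : ∃ t, chk3 f_pp_023_a t 4 4 1 = true := ex3_a k0_pp_023_a s9_pp_023_a

theorem s11_pp_023_a : ∃ t, chk3 f_pp_023_a t 2 4 1 = true := ex3_a s10_pp_023_a k4_pp_023_a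

theorem s12_pp_023_a : ∃ t, chk3 f_pp_023_a t 2 2 1 = true := ex3_b s11_pp_023_a k5_pp_023_a

theorem s13_pp_023_a : ∃ t, chk3 f_pp_023_a t 2 1 1 = true := ex3_b s12_pp_023_a k6_pp_023_a

theorem s14_pp_023_a : ∃ t, chk3 f_pp_023_a t 1 1 1 = true := ex3_a s13_pp_023_a k7_pp_023_a

theorem c_pp_023_a : CertFX 0 536870912 0 420477299 1046898278 26843546 true true true .up 0 2 3
    ndF0q0 ndF1q2a pcF3 Cut.none Ext.none :=
  certFX2 (fam := true) (s1 := true) (s2 := true) (a := 0) (b := 2) (c := 3) (cn := .up) (n1 := ndF0q0) (n2 := ndF1q2a) (pc := pcF3) (cut := Cut.none) (xt := Ext.none) (P1 := 0) (W1 := 536870912) (P2 := 0) (W2 := 420477299) (P3 := 1046898278) (W3 := 26843546)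
    rfl (fun _ => rfl) s14_pp_023_a

noncomputable def f_pp_023_b : ℕ → ℕ → ℕ → ℕ → Bool := onCell 1610612736 536870912 1239849684 370763052 1046898278 26843546
    (rowFX 2 true true true .up 0 2 3 (qsf 0 536870912 1239849684 370763052 3) ndF0q0 ndF1q2b pcF3 Cut.none Ext.none)

def k0_pp_023_b : ∃ t, chk3 f_pp_023_b t 8 2 1 = true :=
  ⟨(b (c (c (c (b (a (l 16777216) (l 16777216)) (l 16777216)) (b (a (l 16777216) (l 16777216)) (l 16777216))) (c (b (a (l 16777216) (l 16777216)) (l 16777216)) (b (a (l 16777216) (l 16777216)) (l 16777216)))) (c (c (b (a (l 16777216) (l 16777216)) (l 16777216)) (b (a (l 16777216) (l 16777216)) (l 16777216))) (c (b (a (l 16777216) (l 16777216)) (l 16777216)) (b (a (l 16777216) (l 16777216)) (l 16777216))))) (c (b (a (l 16766896) (l 16777216)) (a (l 16615168) (l 16743720))) (b (a (l 16766632) (l 16777216)) (a (l 16548048) (l 16742856))))), by decide +kernel⟩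

def k1_pp_023_b : ∃ t, chk3 f_pp_023_b t 9 2 1 = true :=
  ⟨(a (b (c (b (c (b (a (l 16777216) (c (l 16777216) (l 16777216))) (l 16777216)) (b (a (l 16777216) (c (l 16777216) (l 16777216))) (l 16777216))) (c (l 16777216) (l 16777216))) (b (c (b (a (l 16777216) (c (l 16777216) (l 16777216))) (l 16777216)) (b (a (l 16777216) (c (l 16777216) (l 16777216))) (l 16777216))) (c (l 16777216) (l 16777216)))) (c (b (l 16777216) (l 16777216)) (b (l 16777216) (l 16777216)))) (b (a (c (b (c (b (c (l 16777216) (l 16777216)) (l 16777216)) (b (c (l 16777216) (l 16777216)) (l 16777216))) (c (l 16777216) (l 16777216))) (b (c (b (c (l 16777216) (l 16777216)) (l 16777216)) (b (c (l 16777216) (l 16777216)) (l 16777216))) (c (l 16777216) (l 16777216)))) (b (c (b (c (a (c (l 16777216) (l 16777216)) (b (a (c (l 16777216) (l 16777216)) (c (l 245048016903) (l 242900533255))) (l 16777216))) (a (c (l 16777216) (l 16777216)) (b (a (c (l 16777216) (l 16777216)) (c (l 240753049607) (l 238068695047))) (l 16777216)))) (c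 (l 16777216) (l 16777216))) (c (b (a (c (l 16777216) (l 16777216)) (b (c (a (l 16777216) (l 234847469575)) (a (l 16777216) (l 231089373191))) (l 16777216))) (l 220888825863)) (b (a (c (l 16777216) (l 16777216)) (b (c (a (l 16777216) (l 227331276807)) (a (l 16777216) (l 223036309511))) (l 16777216))) (l 219278212967)))) (l 4))) (l 4))), by decide +kernel⟩

def k2_pp_023_b : ∃ t, chk3 f_pp_023_b t 4 3 1 = true :=
  ⟨(a (b (a (c (b (l 16296296) (l 15921920)) (b (l 16283800) (l 15899704))) (c (b (l 16538624) (l 16198968)) (b (l 16532424) (l 16183952)))) (c (b (a (l 15507632) (l 15805616)) (a (l 15076808) (l 15383800))) (b (a (l 15457312) (l 15780384)) (a (l 15069008) (l 15367120))))) (a (a (b (c (l 16539504) (b (l 16684608) (l 16377912))) (c (l 15644448) (l 15745576))) (l 4)) (l 4))), by decide +kernel⟩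

def k3_pp_023_b : ∃ t, chk3 f_pp_023_b t 5 1 1 = true :=
  ⟨(a (b (b (a (l 4) (l 4)) (l 4)) (l 4)) (l 4)), by decide +kernel⟩

def k4_pp_023_b : ∃ t, chk3 f_pp_023_b t 3 1 1 = true :=
  ⟨(l 4), by decide +kernel⟩

theorem s5_pp_023_b : ∃ t, chk3 f_pp_023_b t 4 2 1 = true := ex3_a k0_pp_023_b k1_pp_023_b

theorem s6_pp_023_b : ∃ t, chk3 f_pp_023_b t 4 1 1 = true := ex3_b s5_pp_023_b k2_pp_023_b

theorem s7_pp_023_b : ∃ t, chk3 f_pp_023_b t 2 1 1 = true := ex3_a s6_pp_023_b k3_pp_023_b

theorem s8_pp_023_b : ∃ t, chk3 f_pp_023_b t 1 1 1 = true := ex3_a s7_pp_023_b k4_pp_023_b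

theorem c_pp_023_b : CertFX 0 536870912 1239849684 370763052 1046898278 26843546 true true true .up 0 2 3
    ndF0q0 ndF1q2b pcF3 Cut.none Ext.none :=
  certFX2 (fam := true) (s1 := true) (s2 := true) (a := 0) (b := 2) (c := 3) (cn := .up) (n1 := ndF0q0) (n2 := ndF1q2b) (pc := pcF3) (cut := Cut.none) (xt := Ext.none) (P1 := 0) (W1 := 536870912) (P2 := 1239849684) (W2 := 370763052) (P3 := 1046898278) (W3 := 26843546)
    rfl (fun _ => rfl) s8_pp_023_b

noncomputable def f_pp_033 : ℕ → ℕ → ℕ → ℕ → Bool := onCell 1610612736 536870912 1610612736 469762048 1046898278 26843546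
    (rowFX 2 true true true .pnn 0 3 3 (qsf 0 536870912 1610612736 469762048 3) ndF0q0 ndF1q3 pcF3 Cut.none Ext.none)

def k0_pp_033 : ∃ t, chk3 f_pp_033 t 1 1 1 = true :=
  ⟨(a (b (a (a (b (c (b (a (l 14702144) (l 14935344)) (l 14451000)) (b (a (l 14666824) (l 14814944)) (l 14396000))) (l 1)) (a (b (b (c (l 175788034631) (l 180619872887)) (c (l 14757792) (l 14580424))) (l 1)) (l 4))) (l 4)) (a (l 1) (a (l 1) (l 4)))) (l 4)), by decide +kernel⟩

theorem c_pp_033 : CertFX 0 536870912 1610612736 469762048 1046898278 26843546 true true true .pnn 0 3 3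
    ndF0q0 ndF1q3 pcF3 Cut.none Ext.none :=
  certFX2 (fam := true) (s1 := true) (s2 := true) (a := 0) (b := 3) (c := 3) (cn := .pnn) (n1 := ndF0q0) (n2 := ndF1q3) (pc := pcF3) (cut := Cut.none) (xt := Ext.none) (P1 := 0) (W1 := 536870912) (P2 := 1610612736) (W2 := 469762048) (P3 := 1046898278) (W3 := 26843546)
    rfl (fun _ => rfl) k0_pp_033

noncomputable def f_pp_101 : ℕ → ℕ → ℕ → ℕ → Bool := onCell 536870912 536870912 67108864 469762048 1046898278 26843546
    (rowFX 0 true true true .npn 1 0 1 (qsf 536870912 536870912 67108864 469762048 1) ndF0q1 ndF1q0 pcF1 Cut.none Ext.none)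

def k0_pp_101 : ∃ t, chk3 f_pp_101 t 1 1 1 = true :=
  ⟨(l 5), by decide +kernel⟩

theorem c_pp_101 : CertFX 536870912 536870912 67108864 469762048 1046898278 26843546 true true true .npn 1 0 1
    ndF0q1 ndF1q0 pcF1 Cut.none Ext.none :=
  certFX0 (fam := true) (s1 := true) (s2 := true) (a := 1) (b := 0) (c := 1) (cn := .npn) (n1 := ndF0q1) (n2 := ndF1q0) (pc := pcF1) (cut := Cut.none) (xt := Ext.none) (P1 := 536870912) (W1 := 536870912) (P2 := 67108864) (W2 := 469762048) (P3 := 1046898278) (W3 := 26843546)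
    rfl k0_pp_101

noncomputable def f_pp_102 : ℕ → ℕ → ℕ → ℕ → Bool := onCell 536870912 536870912 67108864 469762048 1046898278 26843546
    (rowFX 0 true true true .npp 1 0 2 (qsf 536870912 536870912 67108864 469762048 2) ndF0q1 ndF1q0 pcF2 Cut.none Ext.none)

def k0_pp_102 : ∃ t, chk3 f_pp_102 t 1 1 1 = true :=
  ⟨(l 5), by decide +kernel⟩

theorem c_pp_102 : CertFX 536870912 536870912 67108864 469762048 1046898278 26843546 true true true .npp 1 0 2
    ndF0q1 ndF1q0 pcF2 Cut.none Ext.none :=
  certFX0 (fam := true) (s1 := true) (s2 := true) (a := 1) (b := 0) (c := 2) (cn := .npp) (n1 := ndF0q1) (n2 := ndF1q0) (pc := pcF2) (cut := Cut.none) (xt := Ext.none) (P1 := 536870912) (W1 := 536870912) (P2 := 67108864) (W2 := 469762048) (P3 := 1046898278) (W3 := 26843546)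
    rfl k0_pp_102

noncomputable def f_pp_112 : ℕ → ℕ → ℕ → ℕ → Bool := onCell 536870912 536870912 536870912 536870912 1046898278 26843546
    (rowFX 0 true true true .dn 1 1 2 (qsf 536870912 536870912 536870912 536870912 2) ndF0q1 ndF1q1 pcF2 Cut.none Ext.none)

def k0_pp_112 : ∃ t, chk3 f_pp_112 t 1 1 1 = true :=
  ⟨(l 4), by decide +kernel⟩

theorem c_pp_112 : CertFX 536870912 536870912 536870912 536870912 1046898278 26843546 true true true .dn 1 1 2
    ndF0q1 ndF1q1 pcF2 Cut.none Ext.none :=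
  certFX0 (fam := true) (s1 := true) (s2 := true) (a := 1) (b := 1) (c := 2) (cn := .dn) (n1 := ndF0q1) (n2 := ndF1q1) (pc := pcF2) (cut := Cut.none) (xt := Ext.none) (P1 := 536870912) (W1 := 536870912) (P2 := 536870912) (W2 := 536870912) (P3 := 1046898278) (W3 := 26843546)
    rfl k0_pp_112

noncomputable def f_pp_113 : ℕ → ℕ → ℕ → ℕ → Bool := onCell 536870912 536870912 536870912 536870912 1046898278 26843546
    (rowFX 0 true true true .nn 1 1 3 (qsf 536870912 536870912 536870912 536870912 3) ndF0q1 ndF1q1 pcF3 Cut.none Ext.none)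

def k0_pp_113 : ∃ t, chk3 f_pp_113 t 1 1 1 = true :=
  ⟨(l 4), by decide +kernel⟩

theorem c_pp_113 : CertFX 536870912 536870912 536870912 536870912 1046898278 26843546 true true true .nn 1 1 3
    ndF0q1 ndF1q1 pcF3 Cut.none Ext.none :=
  certFX0 (fam := true) (s1 := true) (s2 := true) (a := 1) (b := 1) (c := 3) (cn := .nn) (n1 := ndF0q1) (n2 := ndF1q1) (pc := pcF3) (cut := Cut.none) (xt := Ext.none) (P1 := 536870912) (W1 := 536870912) (P2 := 536870912) (W2 := 536870912) (P3 := 1046898278) (W3 := 26843546)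
    rfl k0_pp_113

noncomputable def f_pp_123_a : ℕ → ℕ → ℕ → ℕ → Bool := onCell 536870912 536870912 0 420477299 1046898278 26843546
    (rowFX 0 true true true .npn 1 2 3 (qsf 536870912 536870912 0 420477299 3) ndF0q1 ndF1q2a pcF3 Cut.none Ext.none)

def k0_pp_123_a : ∃ t, chk3 f_pp_123_a t 1 1 1 = true :=
  ⟨(a (b (l 4) (l 4)) (l 4)), by decide +kernel⟩

theorem c_pp_123_a : CertFX 536870912 536870912 0 420477299 1046898278 26843546 true true true .npn 1 2 3
    ndF0q1 ndF1q2a pcF3 Cut.none Ext.none :=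
  certFX0 (fam := true) (s1 := true) (s2 := true) (a := 1) (b := 2) (c := 3) (cn := .npn) (n1 := ndF0q1) (n2 := ndF1q2a) (pc := pcF3) (cut := Cut.none) (xt := Ext.none) (P1 := 536870912) (W1 := 536870912) (P2 := 0) (W2 := 420477299) (P3 := 1046898278) (W3 := 26843546)
    rfl k0_pp_123_a

noncomputable def f_pp_123_b : ℕ → ℕ → ℕ → ℕ → Bool := onCell 536870912 536870912 1239849684 370763052 1046898278 26843546
    (rowFX 0 true true true .npn 1 2 3 (qsf 536870912 536870912 1239849684 370763052 3) ndF0q1 ndF1q2b pcF3 Cut.none Ext.none)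

def k0_pp_123_b : ∃ t, chk3 f_pp_123_b t 1 1 1 = true :=
  ⟨(a (b (a (l 4) (l 4)) (l 4)) (l 4)), by decide +kernel⟩

theorem c_pp_123_b : CertFX 536870912 536870912 1239849684 370763052 1046898278 26843546 true true true .npn 1 2 3
    ndF0q1 ndF1q2b pcF3 Cut.none Ext.none :=
  certFX0 (fam := true) (s1 := true) (s2 := true) (a := 1) (b := 2) (c := 3) (cn := .npn) (n1 := ndF0q1) (n2 := ndF1q2b) (pc := pcF3) (cut := Cut.none) (xt := Ext.none) (P1 := 536870912) (W1 := 536870912) (P2 := 1239849684) (W2 := 370763052) (P3 := 1046898278) (W3 := 26843546)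
    rfl k0_pp_123_b

noncomputable def f_pp_133 : ℕ → ℕ → ℕ → ℕ → Bool := onCell 536870912 536870912 1610612736 469762048 1046898278 26843546
    (rowFX 0 true true true .dn 1 3 3 (qsf 536870912 536870912 1610612736 469762048 3) ndF0q1 ndF1q3 pcF3 Cut.none Ext.none)

def k0_pp_133 : ∃ t, chk3 f_pp_133 t 1 1 1 = true :=
  ⟨(l 4), by decide +kernel⟩

theorem c_pp_133 : CertFX 536870912 536870912 1610612736 469762048 1046898278 26843546 true true true .dn 1 3 3
    ndF0q1 ndF1q3 pcF3 Cut.none Ext.none :=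
  certFX0 (fam := true) (s1 := true) (s2 := true) (a := 1) (b := 3) (c := 3) (cn := .dn) (n1 := ndF0q1) (n2 := ndF1q3) (pc := pcF3) (cut := Cut.none) (xt := Ext.none) (P1 := 536870912) (W1 := 536870912) (P2 := 1610612736) (W2 := 469762048) (P3 := 1046898278) (W3 := 26843546)
    rfl k0_pp_133

noncomputable def f_pp_202 : ℕ → ℕ → ℕ → ℕ → Bool := onCell 0 536870912 67108864 469762048 1046898278 26843546
    (rowFX 0 true true true .pp 2 0 2 (qsf 0 536870912 67108864 469762048 2) ndF0q2 ndF1q0 pcF2 Cut.none Ext.none)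

def k0_pp_202 : ∃ t, chk3 f_pp_202 t 1 1 1 = true :=
  ⟨(l 5), by decide +kernel⟩

theorem c_pp_202 : CertFX 0 536870912 67108864 469762048 1046898278 26843546 true true true .pp 2 0 2
    ndF0q2 ndF1q0 pcF2 Cut.none Ext.none :=
  certFX0 (fam := true) (s1 := true) (s2 := true) (a := 2) (b := 0) (c := 2) (cn := .pp) (n1 := ndF0q2) (n2 := ndF1q0) (pc := pcF2) (cut := Cut.none) (xt := Ext.none) (P1 := 0) (W1 := 536870912) (P2 := 67108864) (W2 := 469762048) (P3 := 1046898278) (W3 := 26843546)
    rfl k0_pp_202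

noncomputable def f_pp_203 : ℕ → ℕ → ℕ → ℕ → Bool := onCell 0 536870912 67108864 469762048 1046898278 26843546
    (rowFX 0 true true true .up 2 0 3 (qsf 0 536870912 67108864 469762048 3) ndF0q2 ndF1q0 pcF3 Cut.none Ext.none)

def k0_pp_203 : ∃ t, chk3 f_pp_203 t 1 1 1 = true :=
  ⟨(l 5), by decide +kernel⟩

theorem c_pp_203 : CertFX 0 536870912 67108864 469762048 1046898278 26843546 true true true .up 2 0 3
    ndF0q2 ndF1q0 pcF3 Cut.none Ext.none :=
  certFX0 (fam := true) (s1 := true) (s2 := true) (a := 2) (b := 0) (c := 3) (cn := .up) (n1 := ndF0q2) (n2 := ndF1q0) (pc := pcF3) (cut := Cut.none) (xt := Ext.none) (P1 := 0) (W1 := 536870912) (P2 := 67108864) (W2 := 469762048) (P3 := 1046898278) (W3 := 26843546)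
    rfl k0_pp_203

noncomputable def f_pp_213 : ℕ → ℕ → ℕ → ℕ → Bool := onCell 0 536870912 536870912 536870912 1046898278 26843546
    (rowFX 0 true true true .pnn 2 1 3 (qsf 0 536870912 536870912 536870912 3) ndF0q2 ndF1q1 pcF3 Cut.none Ext.none)

def k0_pp_213 : ∃ t, chk3 f_pp_213 t 1 1 1 = true :=
  ⟨(l 5), by decide +kernel⟩

theorem c_pp_213 : CertFX 0 536870912 536870912 536870912 1046898278 26843546 true true true .pnn 2 1 3
    ndF0q2 ndF1q1 pcF3 Cut.none Ext.none :=
  certFX0 (fam := true) (s1 := true) (s2 := true) (a := 2) (b := 1) (c := 3) (cn := .pnn) (n1 := ndF0q2) (n2 := ndF1q1) (pc := pcF3) (cut := Cut.none) (xt := Ext.none) (P1 := 0) (W1 := 536870912) (P2 := 536870912) (W2 := 536870912) (P3 := 1046898278) (W3 := 26843546)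
    rfl k0_pp_213

noncomputable def f_pm_001 : ℕ → ℕ → ℕ → ℕ → Bool := onCell 0 536870912 67108864 469762048 1046898278 26843546
    (rowFX 0 true true false .up 0 0 1 (qsf 0 536870912 67108864 469762048 1) ndF0q0 ndF1q0 pcF1 Cut.none Ext.none)

def k0_pm_001 : ∃ t, chk3 f_pm_001 t 1 1 1 = true :=
  ⟨(l 3), by decide +kernel⟩

theorem c_pm_001 : CertFX 0 536870912 67108864 469762048 1046898278 26843546 true true false .up 0 0 1
    ndF0q0 ndF1q0 pcF1 Cut.none Ext.none :=
  certFX0 (fam := true) (s1 := true) (s2 := false) (a := 0) (b := 0) (c := 1) (cn := .up) (n1 := ndF0q0) (n2 := ndF1q0) (pc := pcF1) (cut := Cut.none) (xt := Ext.none) (P1 := 0) (W1 := 536870912) (P2 := 67108864) (W2 := 469762048) (P3 := 1046898278) (W3 := 26843546)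
    rfl k0_pm_001

noncomputable def f_pm_011 : ℕ → ℕ → ℕ → ℕ → Bool := onCell 0 536870912 536870912 536870912 1046898278 26843546
    (rowFX 1 true true false .pnn 0 1 1 (qsf 0 536870912 536870912 536870912 1) ndF0q0 ndF1q1 pcF1 Cut.none Ext.none)

def k0_pm_011 : ∃ t, chk3 f_pm_011 t 1 1 1 = true :=
  ⟨(l 3), by decide +kernel⟩

theorem c_pm_011 : CertFX 0 536870912 536870912 536870912 1046898278 26843546 true true false .pnn 0 1 1
    ndF0q0 ndF1q1 pcF1 Cut.none Ext.none :=
  certFX1 (fam := true) (s1 := true) (s2 := false) (a := 0) (b := 1) (c := 1) (cn := .pnn) (n1 := ndF0q0) (n2 := ndF1q1) (pc := pcF1) (cut := Cut.none) (xt := Ext.none) (P1 := 0) (W1 := 536870912) (P2 := 536870912) (W2 := 536870912) (P3 := 1046898278) (W3 := 26843546)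
    rfl (fun _ => rfl) k0_pm_011

end Pool.Agent.Strip051.G.IE1.Tab.C.FA01

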