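import Pool.Agent.Strip051.G.IE1.Tab

/-! # Certificates F3 (generated) -/

set_option linter.all false
set_option maxRecDepth 100000

namespace Pool.Agent.Strip051.G.IE1.Tab.C.FA01

open Pool.Agent.Strip051.PB Pool.Agent.Strip051.PB.T
open Pool.Agent.Strip051.G.IE1.Tab

noncomputable def f_pm_012 : ℕ → ℕ → ℕ → ℕ → Bool := onCell 1073741824 536870912 536870912 536870912 1046898278 26843546
    (rowFX 2 true true false .pnp 0 1 2 (qsf 0 536870912 536870912 536870912 2) ndF0q0 ndF1q1 pcF2 Cut.none Ext.none)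

def k0_pm_012 : ∃ t, chk3 f_pm_012 t 8 1 1 = true :=
  ⟨(l 3), by decide +kernel⟩

def k1_pm_012 : ∃ t, chk3 f_pm_012 t 9 2 1 = true :=
  ⟨(l 3), by decide +kernel⟩

def k2_pm_012 : ∃ t, chk3 f_pm_012 t 18 3 1 = true :=
  ⟨(l 3), by decide +kernel⟩

def k3_pm_012 : ∃ t, chk3 f_pm_012 t 19 6 1 = true :=
  ⟨(l 3), by decide +kernel⟩

def k4_pm_012 : ∃ t, chk3 f_pm_012 t 38 7 1 = true :=
  ⟨(a (l 3) (b (l 3) (b (l 3) (b (l 3) (b (a (l 3) (c (c (a (c (l 16490568) (l 16489112)) (c (b (l 16513024) (l 16497040)) (l 16503728))) (a (b (l 3) (l 16478472)) (c (l 16502392) (l 16501048)))) (c (a (l 16484024) (c (l 16499704) (l 16498360))) (a (l 16481112) (l 16496344))))) (c (c (a (a (l 16413104) (c (l 16431792) (l 16429960))) (a (c (l 16449416) (l 16447712)) (c (l 16466704) (l 16465128)))) (a (a (l 16409160) (l 16406232)) (c (a (l 16446008) (l 16463552)) (a (l 16444304) (l 16461976))))) (c (a (a (l 16405224) (l 16423528)) (c (l 16451424) (l 16449784))) (a (a (l 16401280) (l 16419848)) (c (l 16448144) (l 16446504)))))))))),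 by decide +kernel⟩

def k5_pm_012 : ∃ t, chk3 f_pm_012 t 39 14 1 = true :=
  ⟨(l 3), by decide +kernel⟩

def k6_pm_012 : ∃ t, chk3 f_pm_012 t 156 15 1 = true :=
  ⟨(b (l 3) (b (a (b (l 3) (b (l 3) (c (c (c (l 16542528) (l 16541432)) (c (l 16540336) (l 16539240))) (c (l 16537592) (l 16535400))))) (b (a (l 3) (c (b (l 3) (c (l 16589152) (l 16587584))) (c (l 16593384) (l 16591904)))) (c (c (a (c (l 16539536) (l 16559536)) (c (l 16567408) (l 16566496))) (c (l 16541104) (l 16561136))) (c (c (l 16560192) (l 16559248)) (l 16536864))))) (c (c (b (c (a (l 16519104) (l 16533064)) (a (l 16517872) (l 16531936))) (c (a (b (l 16494096) (l 16472688)) (b (l 16508824) (l 16489672))) (a (l 16481800) (l 16476752)))) (b (c (a (l 16516640) (l 16530816)) (a (l 16515408) (l 16529696))) (c (a (l 16480352) (l 16496400)) (a (l 16478904) (l 16495072))))) (c (b (c (l 16500408) (l 16520200)) (c (a (l 16477456) (l 16493744)) (l 16462912))) (b (c (l 16519024) (l 16517848)) (c (l 16482496) (l 16481104))))))), by decide +kernel⟩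

def k7_pm_012 : ∃ t, chk3 f_pm_012 t 157 15 1 = true :=
  ⟨(b (a (l 3) (b (l 3) (b (l 3) (b (l 3) (c (c (a (l 16637824) (c (l 16644776) (l 16644376))) (c (l 16619592) (l 16640136))) (c (c (l 16639712) (l 16639288)) (l 16638656))))))) (c (b (c (b (a (c (b (l 16614040) (a (l 16596384) (l 16603200))) (b (l 16613424) (l 16599096))) (c (a (l 16596176) (l 16623912)) (a (l 16616568) (l 16623392)))) (c (a (b (l 16585184) (l 16570192)) (b (l 16598848) (l 16583912))) (a (l 16576896) (l 16569720)))) (c (b (a (b (l 16612800) (l 16598392)) (b (l 16626576) (l 16612216))) (a (l 16576064) (l 16589976))) (b (a (b (l 16612184) (l 16597688)) (l 16618888)) (a (l 16575232) (l 16589248))))) (c (c (b (a (l 16546944) (l 16539784)) (a (b (l 16522800) (l 16505480)) (l 16528456))) (b (a (l 16545936) (l 16559856)) (a (l 16512912) (l 16527360)))) (c (b (a (l 16544920) (l 16558952)) (a (l 16511696) (l 16526264))) (b (a (l 16543904) (l 16558048)) (a (l 16510488) (l 16525168)))))) (b (c (c (b (a (l 16583344) (l 16618336)) (a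 (l 16574400) (l 16588528))) (b (a (l 16603656) (l 16617792)) (l 16559728))) (c (b (a (l 16603000) (l 16617240)) (l 16579920)) (b (l 16609528) (l 16579144)))) (c (c (b (l 16529056) (l 16495576)) (b (l 16549064) (l 16515392))) (c (b (l 16548104) (l 16514240)) (b (l 16547144) (l 16513088))))))), by decide +kernel⟩

def k8_pm_012 : ∃ t, chk3 f_pm_012 t 158 30 1 = true :=
  ⟨(b (l 3) (b (a (a (l 3) (c (c (c (l 16670080) (l 16669992)) (c (l 16669912) (l 16669824))) (c (c (l 16669736) (l 16669648)) (l 16669520)))) (c (b (a (l 3) (c (c (l 16673136) (l 16673072)) (c (l 16673008) (l 16693912)))) (c (c (a (a (l 16668640) (l 16671944)) (l 16676896)) (a (l 16680712) (l 16676880))) (c (a (l 16670160) (l 16676872)) (a (l 16670088) (l 16676856))))) (c (c (b (l 16676880) (l 16673432)) (b (l 16676840) (l 16673392))) (c (l 16679968) (l 16679968))))) (c (c (b (a (c (a (l 16664920) (l 16671584)) (a (l 16664656) (l 16671376))) (c (l 16660568) (l 16660448))) (c (a (l 16654832) (l 16647208)) (a (l 16654520) (l 16647008))))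 (a (c (a (b (l 16664400) (l 16650800)) (l 16643456)) (a (l 16636368) (l 16643208))) (c (c (l 16653640) (l 16653560)) (c (l 16653480) (l 16653400))))) (c (a (c (b (l 16646352) (l 16653584)) (l 16639248)) (c (l 16653280) (l 16653120))) (c (a (l 16659944) (l 16652960)) (l 16645760)))))), by decide +kernel⟩

def k9_pm_012 : ∃ t, chk3 f_pm_012 t 158 31 1 = true :=
  ⟨(c (b (c (c (b (a (b (l 16641064) (l 16626936)) (c (l 16626576) (l 16626408))) (a (b (l 16612432) (l 16597552)) (b (l 16625944) (l 16611128)))) (b (a (b (l 16640664) (l 16626456)) (b (l 16654176) (l 16640024))) (a (l 16583448) (l 16597104)))) (c (b (a (l 16612192) (l 16625840)) (a (l 16603808) (l 16617576))) (b (a (l 16611752) (l 16625512)) (a (l 16603200) (l 16617072))))) (c (a (b (c (l 16553520) (l 16573696)) (c (l 16542320) (l 16541336))) (b (c (l 16588152) (l 16587472)) (b (c (l 16564288) (l 16563464)) (c (a (l 16544872) (l 16552768)) (l 16548280))))) (a (c (b (l 16572904) (l 16540352)) (b (l 16572112) (l 16539360))) (b (c (l 16586784)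 (l 16586104)) (c (b (l 16562632) (l 16547368)) (l 16533896)))))) (b (c (c (b (a (l 16632288) (l 16646160)) (a (l 16602592) (l 16616576))) (b (a (l 16631848) (l 16645832)) (l 16588064))) (c (b (l 16617496) (l 16608480)) (b (l 16617112) (l 16607920)))) (c (a (c (l 16513072) (l 16554128)) (b (l 16564104) (c (l 16554000) (l 16553136)))) (a (c (l 16553232) (l 16552344)) (b (l 16583712) (l 16551832)))))), by decide +kernel⟩

def k10_pm_012 : ∃ t, chk3 f_pm_012 t 318 15 1 = true :=
  ⟨(b (b (b (l 3) (c (c (c (b (l 16670088) (a (l 16679920) (l 16661760))) (b (l 16669792) (a (l 16679728) (l 16671992)))) (c (b (l 16669488) (a (l 16679528) (l 16671736))) (b (l 16669192) (l 16664920)))) (c (c (b (l 16668896) (l 16675176)) (l 16671736)) (c (l 16671472) (l 16671208))))) (c (c (b (c (b (a (l 16686336) (l 16678592)) (l 16668272)) (b (a (l 16686216) (l 16678408)) (l 16668192))) (c (c (l 16667176) (l 16667152)) (c (l 16667128) (l 16667104)))) (c (b (b (l 16661192) (l 16668120)) (c (l 16667080) (l 16667056))) (b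 (b (l 16661040) (l 16668048)) (l 16667024)))) (c (c (b (l 16664392) (l 16666976)) (b (l 16664280) (l 16666928))) (c (a (l 16654784) (l 16667560)) (l 16671624))))) (c (b (c (c (b (c (l 16639896) (l 16639792)) (l 16611072)) (b (l 16639632) (l 16610680))) (c (b (l 16639416) (l 16631264)) (b (l 16639200) (l 16630880)))) (c (b (c (l 16601744) (l 16601168)) (c (b (a (l 16575056) (l 16582864)) (l 16566496)) (b (l 16557600) (l 16565720)))) (b (c (l 16600592) (l 16600024)) (c (b (l 16577864) (l 16564944)) (b (l 16577160) (l 16564160)))))) (b (c (c (b (l 16638984) (l 16630488)) (b (l 16659744) (l 16630096))) (b (l 16638448) (l 16629512))) (c (b (l 16599168) (c (b (l 16576448) (l 16563384)) (l 16569592))) (b (l 16598024) (c (l 16568848) (l 16568112))))))), by decide +kernel⟩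

def k11_pm_012 : ∃ t, chk3 f_pm_012 t 319 15 1 = true :=
  ⟨(b (b (b (b (l 3) (a (l 3) (c (c (c (l 16645664) (l 16645160)) (c (l 16644648) (l 16644144))) (c (l 16643384) (l 16642368))))) (c (c (c (b (a (b (l 16657272) (l 16660128)) (l 16651112)) (l 16660752)) (b (a (l 16658304) (l 16650672)) (l 16660416))) (c (b (a (l 16657928) (l 16650232)) (l 16660080)) (b (l 16653664) (l 16659736)))) (c (c (l 16635312) (l 16655912)) (c (l 16655536) (l 16655160))))) (c (c (c (b (c (l 16649352) (l 16649240)) (c (l 16663416) (l 16663376))) (b (c (l 16649128) (l 16649016)) (c (l 16663344) (l 16663312)))) (c (b (a (l 16673752) (l 16665888)) (c (l 16663280) (l 16663248))) (b (l 16648624) (l 16663200)))) (c (c (b (l 16669368) (l 16663128)) (b (l 16669144) (l 16663064))) (c (l 16655296) (l 16655144))))) (b (c (c (c (b (l 16653120) (l 16624464)) (b (l 16653016) (l 16645160))) (c (b (l 16652912) (l 16644880)) (b (l 16652816) (l 16644600)))) (c (c (b (l 16652712) (l 16644328)) (l 16617024)) (b (l 16652456) (l 16643632))))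 (b (c (c (a (c (l 16612464) (l 16611976)) (b (l 16626168) (a (l 16609968) (l 16614208)))) (b (l 16621992) (a (l 16603328) (l 16611256)))) (c (c (l 16593728) (l 16614248)) (c (l 16613792) (l 16613344)))) (a (c (c (b (l 16591560) (l 16581032)) (l 16584992)) (c (l 16583720) (l 16582456))) (c (l 16595064) (l 16592824)))))), by decide +kernel⟩

def k12_pm_012 : ∃ t, chk3 f_pm_012 t 10 4 1 = true :=
  ⟨(a (a (a (l 3) (l 2)) (l 2)) (l 2)), by decide +kernel⟩

def k13_pm_012 : ∃ t, chk3 f_pm_012 t 40 5 1 = true :=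
  ⟨(l 3), by decide +kernel⟩

def k14_pm_012 : ∃ t, chk3 f_pm_012 t 82 5 1 = true :=
  ⟨(l 3), by decide +kernel⟩

def k15_pm_012 : ∃ t, chk3 f_pm_012 t 166 5 1 = true :=
  ⟨(b (b (b (l 2) (l 3)) (l 3)) (l 3)), by decide +kernel⟩

def k16_pm_012 : ∃ t, chk3 f_pm_012 t 167 20 1 = true :=
  ⟨(b (l 2) (b (l 2) (a (a (a (l 3) (c (c (l 2620097822727) (l 2616339726343)) (c (l 2583053729799) (l 16777216)))) (b (l 2) (c (a (c (l 16777216) (l 16777216)) (c (a (l 16777216) (l 16777216)) (a (l 16777216) (l 16777216)))) (a (c (l 16777216) (l 16777216)) (c (l 16777216) (l 16777216)))))) (b (l 2) (c (a (a (b (a (c (l 16777216) (l 16777216)) (l 2)) (c (c (a (l 16777216) (a (l 16777216) (a (a (l 16777216) (a (a (a (l 16777216) (l 16777216)) (l 16777216)) (l 16777216))) (l 16777216)))) (a (l 16777216) (a (l 16777216) (a (a (l 16777216) (a (a (a (l 16777216) (l 16777216)) (l 16777216)) (l 16777216))) (l 16777216))))) (a (l 16777216) (c (a (l 16777216) (a (a (l 16777216) (a (a (a (l 16777216) (l 16777216)) (l 16777216))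 (l 16777216))) (l 16777216))) (a (l 16777216) (a (a (l 16777216) (a (a (a (l 16777216) (l 16777216)) (l 16777216)) (l 16777216))) (l 16777216))))))) (l 16777216)) (l 16777216)) (a (a (a (c (l 16777216) (l 16777216)) (b (l 2) (a (c (l 16777216) (l 16777216)) (a (a (c (l 16777216) (l 16777216)) (a (a (a (l 16777216) (c (c (l 16777216) (l 16777216)) (l 16777216))) (l 16777216)) (l 16777216))) (l 16777216))))) (l 16777216)) (l 16777216))))))), by decide +kernel⟩

def k17_pm_012 : ∃ t, chk3 f_pm_012 t 334 21 1 = true :=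
  ⟨(a (l 3) (b (c (a (c (c (l 2945978466311) (l 2950273433607)) (c (l 2945978466311) (l 2939536015367))) (a (c (c (l 16777216) (l 16777216)) (c (l 16777216) (l 16777216))) (c (l 16777216) (l 16777216)))) (a (c (c (l 2922893017095) (l 2887996407815)) (l 2823571898375)) (a (c (l 1211885420551) (l 16777216)) (c (l 16777216) (l 16777216))))) (a (l 3) (c (c (b (a (l 5601341997063) (l 2389243330567)) (l 5762940141575)) (b (a (l 5684556988423) (l 2533124734983)) (l 5784414978055))) (c (c (l 4044953223175) (l 4008982872071)) (b (l 3426477932551) (l 5419342757895))))))), by decide +kernel⟩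

def k18_pm_012 : ∃ t, chk3 f_pm_012 t 335 21 1 = true :=
  ⟨(a (a (a (c (c (c (b (l 16777216) (l 16777216)) (b (l 16777216) (l 16777216))) (c (b (l 16777216) (l 16777216)) (b (l 16777216) (l 16777216)))) (c (c (b (l 16777216) (l 16777216)) (b (l 16777216) (l 16777216))) (c (l 16777216) (l 16777216)))) (a (c (c (c (b (l 16777216) (l 16777216)) (b (l 16777216) (l 16777216))) (c (b (l 16777216) (l 16777216)) (b (l 16777216) (l 16777216)))) (c (c (l 16777216) (l 16777216)) (c (l 16777216) (l 16777216)))) (a (c (a (c (c (l 16777216) (l 16777216)) (c (l 16777216) (l 16777216))) (a (a (a (c (b (l 16777216) (l 16777216)) (c (l 16777216) (l 16777216))) (a (c (b (l 16777216) (l 16777216)) (c (l 16777216) (l 16777216))) (c (b (b (l 16777216) (l 16777216)) (l 16777216)) (c (b (l 16777216) (l 16777216)) (l 16777216))))) (c (l 16777216) (l 16777216))) (c (l 16777216) (l 16777216)))) (a (c (c (l 16777216) (l 16777216)) (c (l 16777216) (l 16777216))) (a (a (c (a (l 16777216) (a (l 16777216) (c (l 16777216) (l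 16777216)))) (a (l 16777216) (c (l 16777216) (l 16777216)))) (c (l 16777216) (l 16777216))) (c (l 16777216) (l 16777216))))) (c (c (l 16777216) (l 16777216)) (c (l 16777216) (l 16777216)))))) (c (c (l 16777216) (l 16777216)) (c (l 16777216) (l 16777216)))) (c (c (l 16777216) (l 16777216)) (c (l 16777216) (l 16777216)))), by decide +kernel⟩

def k19_pm_012 : ∃ t, chk3 f_pm_012 t 167 11 1 = true :=
  ⟨(a (b (l 3) (a (l 3) (a (l 3) (c (c (l 16777216) (l 16777216)) (c (l 16777216) (l 16777216)))))) (a (a (a (b (a (l 3) (b (c (c (l 7716076519431) (l 7619439755271)) (c (l 7545888440327) (l 16777216))) (l 3))) (c (c (b (l 16777216) (l 16777216)) (b (l 16777216) (l 16777216))) (c (b (l 16777216) (l 16777216)) (l 16777216)))) (a (b (b (c (c (b (l 16777216) (l 8834378629127)) (b (l 16777216) (l 8714119544839))) (c (b (l 16777216) (l 8478970085383)) (l 2995907461127))) (l 3)) (c (c (b (l 16777216) (l 16777216)) (b (l 16777216) (l 16777216))) (c (c (l 16777216) (l 16777216)) (l 16777216)))) (a (a (c (b (b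 (c (l 16777216) (l 16777216)) (a (b (l 29526457319431) (l 3)) (c (l 16777216) (l 16777216)))) (c (l 16777216) (l 16777216))) (b (c (b (l 16777216) (b (l 16777216) (l 16777216))) (b (l 16777216) (l 16777216))) (c (l 16777216) (l 16777216)))) (c (b (c (b (c (l 16777216) (l 16777216)) (b (l 16777216) (l 16777216))) (c (b (l 16777216) (l 16777216)) (b (l 16777216) (l 16777216)))) (c (b (l 16777216) (l 16777216)) (c (l 16777216) (l 16777216)))) (b (c (b (c (l 16777216) (l 16777216)) (b (l 16777216) (l 16777216))) (b (b (l 16777216) (l 16777216)) (b (l 16777216) (l 16777216)))) (c (c (l 16777216) (l 16777216)) (b (l 16777216) (l 16777216)))))) (c (b (b (l 16777216) (l 16777216)) (l 16777216)) (b (b (l 16777216) (l 16777216)) (l 16777216)))))) (c (b (b (l 16777216) (l 16777216)) (l 16777216)) (b (b (l 16777216) (l 16777216)) (l 16777216)))) (c (b (b (l 16777216) (l 16777216)) (l 16777216)) (b (c (l 16777216) (l 16777216)) (l 16777216))))), by decide +kernel⟩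

def k20_pm_012 : ∃ t, chk3 f_pm_012 t 21 5 1 = true :=
  ⟨(b (b (a (b (l 2) (c (c (l 16777216) (l 16777216)) (c (l 16777216) (l 16777216)))) (l 2)) (c (c (c (l 16777216) (l 16777216)) (c (l 16777216) (l 16777216))) (b (c (l 16777216) (l 16777216)) (c (l 16777216) (l 16777216))))) (c (b (b (c (l 16777216) (l 16777216)) (a (c (l 16777216) (l 16777216)) (l 16777216))) (c (a (l 16777216) (l 16777216)) (a (l 16777216) (l 16777216)))) (b (c (c (l 16777216) (l 16777216)) (a (l 16777216) (l 16777216))) (c (a (l 16777216) (l 16777216)) (a (l 16777216) (l 16777216)))))), by decide +kernel⟩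

def k21_pm_012 : ∃ t, chk3 f_pm_012 t 40 6 1 = true :=
  ⟨(b (l 3) (l 3)), by decide +kernel⟩

def k22_pm_012 : ∃ t, chk3 f_pm_012 t 80 14 1 = true :=
  ⟨(b (l 3) (b (b (l 3) (a (l 3) (c (c (a (c (l 16580168) (l 16578992)) (c (a (b (l 3) (l 16571080)) (b (l 16561552) (l 16564112))) (b (l 16563704) (l 16566336)))) (a (l 16577224) (c (l 16563704) (l 16562416)))) (c (a (l 16574864) (l 16560496)) (l 16565208))))) (c (a (a (b (l 3) (c (b (l 3) (c (l 16614352) (l 16624112))) (c (l 16621160) (l 16620408)))) (c (b (c (l 16600472) (l 16599496)) (c (b (a (l 16609672) (l 16602440)) (a (l 16613848) (l 16606544))) (b (a (l 16608808) (l 16601520)) (l 16598880)))) (b (l 16587552) (c (b (l 16604272) (l 16608536)) (l 16605504))))) (c (a (b (c (b (a (l 16588128) (l 16581064)) (a (l 16591512) (l 16584376))) (b (l 16583488) (l 16586888))) (c (c (l 16593824) (l 16593336)) (l 16592608))) (c (b (c (l 16572360) (l 16571768)) (c (l 16579408) (l 16578872))) (b (l 16570880) (l 16578064)))) (a (b (c (b (l 16582384) (l 16585832))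 (l 16582992)) (c (l 16591640) (l 16590672))) (c (b (l 16569688) (l 16576984)) (l 16572056))))) (a (c (b (l 16603472) (a (l 16619280) (c (l 16604648) (l 16603784)))) (c (l 16585184) (l 16605288))) (c (c (b (a (l 16581912) (l 16567320)) (l 16582264)) (b (l 16573472) (l 16581240))) (c (b (l 16572344) (l 16580216)) (l 16575040))))))), by decide +kernel⟩

def k23_pm_012 : ∃ t, chk3 f_pm_012 t 162 14 1 = true :=
  ⟨(b (b (l 3) (a (b (l 3) (b (l 3) (b (l 3) (c (c (l 16545216) (l 16542208)) (l 16537696))))) (c (c (b (c (l 16598808) (l 16597640)) (b (c (l 16560952) (l 16559536)) (c (a (b (l 16542288) (l 16536256)) (l 16537184)) (a (l 16538264) (l 16535608))))) (b (l 16595888) (c (b (l 16558120) (l 16536016)) (l 16545920)))) (c (b (l 16593544) (l 16543696)) (l 16566080))))) (c (c (b (b (a (c (a (b (l 3) (l 16552472)) (b (l 16543832) (l 16545672))) (b (l 16545720) (l 16547624))) (c (l 16534592) (l 16533032))) (c (a (l 16552424) (l 16538656)) (a (l 16551040) (l 16537168)))) (c (a (b (c (l 16558280) (l 16557632))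 (c (l 16565064) (l 16564472))) (b (l 16543920) (l 16550464))) (a (b (l 16556664) (l 16563584)) (b (l 16542528) (l 16549176))))) (b (c (a (b (l 16545176) (l 16549656)) (l 16533440)) (b (l 16536800) (l 16541224))) (c (a (b (l 16555376) (l 16562400)) (l 16544360)) (a (l 16557504) (l 16543016))))) (c (b (c (b (l 16535288) (l 16539792)) (l 16535920)) (c (a (l 16556264) (l 16541672)) (l 16547664))) (b (c (l 16534448) (l 16532968)) (c (l 16546376) (l 16545080)))))), by decide +kernel⟩

def k24_pm_012 : ∃ t, chk3 f_pm_012 t 163 14 1 = true :=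
  ⟨(b (c (a (b (c (b (l 3) (l 16648856)) (l 16672808)) (c (c (b (l 16577840) (l 16548416)) (b (l 16597640) (l 16546912))) (c (l 16549984) (l 16569616)))) (b (c (b (l 16699432) (c (l 16649272) (l 16648440))) (l 16630864)) (c (c (l 16531632) (l 16572240)) (l 16528296)))) (c (b (l 16629520) (c (l 16568280) (l 16566944))) (b (l 16670112) (l 16564936)))) (c (c (b (a (b (c (a (l 16524608) (l 16497688)) (l 16520264)) (c (l 16524952) (l 16523368))) (b (c (b (a (l 16493632) (l 16511968)) (l 16508552)) (b (l 16512192) (l 16506816))) (c (l 16511320) (l 16509632)))) (c (a (c (l 16533304) (l 16532584)) (c (l 16519304) (l 16518520))) (a (c (l 16531856) (l 16531136)) (l 16517360)))) (b (a (c (b (l 16518608) (l 16521776)) (l 16518480)) (b (c (l 16508440) (l 16506712)) (l 16507096))) (c (a (l 16530048) (l 16515800)) (a (l 16528600) (l 16514248))))) (c (b (c (a (l 16516856) (l 16504880)) (a (l 16515232) (l 16503168))) (c (a (l 16527144) (l 16512696)) (l 16518408))) (b (c (l 16508264) (l 16506608)) (c (l 16516904)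 (l 16515408)))))), by decide +kernel⟩

def k25_pm_012 : ∃ t, chk3 f_pm_012 t 80 60 1 = true :=
  ⟨(c (a (c (a (b (c (b (a (l 16633160) (l 16625760)) (a (l 16638176) (l 16630696))) (b (a (l 16632536) (l 16625072)) (l 16633840))) (c (c (l 16642712) (l 16642472)) (c (l 16642232) (l 16641984)))) (c (b (c (l 16617240) (l 16616872)) (c (l 16627616) (l 16627320))) (b (l 16621568) (c (l 16627024) (l 16626720))))) (c (a (b (b (l 16617656) (l 16633256)) (l 16641624)) (b (l 16615592) (l 16626272))) (b (a (b (l 16627488) (l 16632664)) (l 16614856)) (a (l 16641136) (l 16625672))))) (c (c (a (b (c (l 16602488) (l 16602072)) (c (l 16612592) (l 16612240))) (b (c (l 16587808) (l 16587328)) (a (l 16601168) (l 16593696)))) (a (b (l 16601432) (c (l 16611888) (l 16611528))) (b (l 16586616) (l 16586128)))) (c (a (b (l 16600592) (l 16611000)) (b (l 16585656) (l 16595792))) (a (b (l 16599744) (l 16610288)) (l 16568704))))) (c (a (a (b (c (l 16629408) (l 16628784)) (c (l 16640648) (l 16640160))) (c (l 16598464) (l 16618768)))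 (c (a (l 16604072) (l 16588784)) (a (l 16603296) (l 16587896)))) (a (c (b (l 16620400) (l 16631768)) (b (l 16619720) (l 16631224))) (c (a (l 16602520) (l 16587008)) (l 16593920))))), by decide +kernel⟩

def k26_pm_012 : ∃ t, chk3 f_pm_012 t 81 60 1 = true :=
  ⟨(c (a (c (c (a (b (c (l 16573192) (l 16572656)) (a (l 16586240) (l 16578800))) (b (l 16558352) (l 16567664))) (a (b (l 16571864) (l 16581584)) (b (l 16557176) (l 16566624)))) (c (a (b (l 16570800) (l 16580656)) (l 16560632)) (a (l 16574568) (l 16559528)))) (c (a (b (c (l 16543848) (l 16542568)) (c (a (l 16556568) (b (l 16546816) (l 16551672))) (a (l 16555448) (l 16548024)))) (a (b (l 16532328) (c (b (l 16539536) (l 16544472)) (b (l 16538272) (l 16543272)))) (b (c (l 16525880) (l 16524464)) (c (l 16535040) (l 16533752))))) (a (c (b (l 16541288) (a (l 16554320) (l 16546848))) (b (l 16540000) (l 16549408))) (b (c (l 16526688) (l 16525296)) (c (a (l 16539496) (l 16532472)) (a (l 16538264) (l 16531184))))))) (a (c (c (a (l 16573568) (l 16558416))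 (a (l 16572568) (l 16557312))) (c (l 16563880) (l 16562824))) (c (a (c (b (l 16538720) (l 16548256)) (l 16542096)) (b (c (l 16523912) (l 16522520)) (c (a (l 16537032) (l 16529904)) (l 16532176)))) (a (c (l 16540880) (l 16539664)) (c (b (l 16521136) (l 16530912)) (l 16524584)))))), by decide +kernel⟩

def k27_pm_012 : ∃ t, chk3 f_pm_012 t 40 61 2 = true :=
  ⟨(b (a (a (c (c (a (c (l 16633912) (l 16633744)) (c (l 16618544) (l 16639288))) (a (a (l 16658352) (l 16650576)) (a (l 16642824) (l 16635080)))) (c (a (c (l 16654208) (l 16654040)) (l 16617528)) (a (l 16653784) (l 16638048)))) (c (a (c (a (l 16627896) (l 16620248)) (a (l 16627360) (l 16619656))) (c (a (l 16612616) (l 16605008)) (a (l 16611968) (l 16604304)))) (c (a (l 16622944) (l 16607456)) (a (l 16622384) (l 16606784))))) (a (c (a (c (a (l 16597408) (l 16589832)) (l 16592832)) (c (a (l 16582192) (b (l 16571856) (l 16577456))) (a (l 16581320) (b (l 16570888) (l 16576568))))) (a (c (l 16592040) (l 16591256)) (c (a (l 16580448) (l 16572720))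 (a (l 16579576) (l 16571792))))) (a (c (a (b (c (l 16564320) (l 16563296)) (l 16569336)) (l 16559160)) (a (c (l 16565064) (l 16564080)) (l 16557088))) (c (l 16548824) (l 16546592))))) (a (a (c (c (a (c (l 16647696) (l 16647600)) (a (l 16656856) (l 16649032))) (a (c (l 16647512) (l 16647424)) (a (l 16656584) (l 16648712)))) (c (a (l 16652528) (l 16631384)) (a (l 16647104) (l 16652056)))) (c (a (c (a (l 16641224) (l 16633440)) (l 16615952)) (c (a (l 16625672) (l 16617840)) (a (l 16625176) (l 16617288)))) (a (c (l 16636520) (l 16636112)) (c (l 16620648) (l 16620128))))) (a (b (a (c (c (a (l 16606824) (l 16598984)) (l 16602144)) (c (l 16601472) (l 16600792))) (a (a (c (l 16592712) (l 16591224)) (l 16587880)) (l 16581928))) (a (c (a (a (l 16615112) (l 16611032)) (l 16604744)) (c (l 16587040) (l 16607416))) (l 16591960))) (c (l 16567928) (l 16566112))))), by decide +kernel⟩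

def k28_pm_012 : ∃ t, chk3 f_pm_012 t 40 61 3 = true :=
  ⟨(a (a (c (c (a (b (l 16653448) (l 16646928)) (b (l 16637600) (l 16651768))) (a (b (l 16653112) (l 16667720)) (l 16623160))) (c (a (l 16639008) (l 16643760)) (a (l 16638744) (l 16643384)))) (c (a (c (b (l 16621816) (l 16635704)) (l 16628096)) (c (b (l 16606104) (l 16619608)) (l 16612016))) (a (c (l 16627616) (l 16627128)) (c (l 16611416) (l 16610816))))) (b (a (c (a (c (l 16590472) (l 16589680)) (c (a (l 16578704) (l 16570864)) (l 16573816))) (a (l 16588504) (c (l 16572920) (l 16572016)))) (a (a (b (c (l 16559728) (l 16557696)) (l 16564600)) (l 16553968)) (l 16543256))) (a (a (c (c (a (l 16607480) (l 16599312)) (l 16602648)) (c (l 16602008) (l 16601376))) (a (c (l 16590728) (l 16589280)) (l 16581864))) (c (l 16564296) (l 16562480))))), by decide +kernel⟩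

def k29_pm_012 : ∃ t, chk3 f_pm_012 t 40 62 1 = true :=
  ⟨(c (a (b (a (c (c (a (l 16663168) (l 16647208)) (a (l 16663152) (l 16647080))) (c (a (l 16663144) (l 16646952)) (a (l 16663128) (l 16667800)))) (c (a (c (b (l 16648376) (l 16634880)) (b (l 16648088) (l 16634680))) (c (a (b (l 16636336) (l 16643112)) (l 16610160)) (a (l 16618320) (l 16630736)))) (a (c (l 16630368) (l 16630128)) (c (a (l 16638960) (l 16630344)) (a (l 16638624) (l 16629952)))))) (a (c (a (c (l 16638048) (l 16637880)) (a (c (l 16648416) (l 16648344)) (b (l 16655416) (l 16649088)))) (a (c (l 16637720) (l 16637560)) (c (b (l 16658632) (l 16644992)) (a (l 16648200) (l 16655592))))) (a (a (b (c (c (l 16667704) (l 16667624)) (l 16646520)) (l 16673872)) (l 16640304)) (l 16626888)))) (a (c (b (l 16610080) (l 16624208)) (l 16574096)) (c (b (l 16581952) (l 16597784)) (b (l 16580464) (l 16596648))))) (a (b (a (c (c (a (l 16663112) (l 16667672)) (l 16654832)) (a (l 16663088) (l 16646384))) (c (a (c (l 16650856) (l 16650608)) (c (a (l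 16638296) (l 16629560)) (l 16633448))) (a (l 16629272) (c (l 16633080) (l 16632720))))) (a (c (a (a (l 16654560) (l 16640720)) (c (l 16631144) (l 16652072))) (a (l 16636992) (a (l 16647936) (l 16655552)))) (a (a (c (l 16649664) (l 16670528)) (l 16660800)) (l 16647000)))) (a (c (l 16594144) (l 16614184)) (c (l 16587056) (l 16585744))))), by decide +kernel⟩

def k30_pm_012 : ∃ t, chk3 f_pm_012 t 40 63 1 = true :=
  ⟨(a (b (a (b (c (a (c (c (a (l 16633680) (l 16641496)) (l 16616480)) (c (l 16637160) (l 16636864))) (l 16654248)) (a (c (c (l 16636576) (l 16636280)) (l 16635848)) (l 16653632))) (c (c (l 16634456) (l 16633872)) (l 16633008))) (c (c (l 16649656) (l 16649656)) (l 16628680))) (a (c (c (l 16595704) (l 16615896)) (l 16572784)) (c (c (l 16623616) (l 16623304)) (l 16601856)))) (c (a (c (b (l 16619136) (l 16636928)) (b (l 16618712) (l 16636864))) (c (b (l 16615520) (l 16614320)) (a (l 16609136) (l 16598544)))) (c (a (l 16606376) (l 16603120)) (a (l 16627104) (l 16602560))))), by decide +kernel⟩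

def k31_pm_012 : ∃ t, chk3 f_pm_012 t 82 6 1 = true :=
  ⟨(b (l 3) (a (b (l 3) (c (b (c (l 16737888) (l 16737376)) (c (a (b (l 3) (l 16728928)) (b (l 16754392) (l 16749896))) (c (l 16712056) (l 16733008)))) (b (c (l 16736856) (l 1057803377239)) (c (l 16712016) (l 606294919703))))) (b (c (a (c (l 16750984) (l 16750648)) (c (b (l 16755312) (l 16746632)) (l 16750648))) (a (l 1350934913255) (c (l 16750304) (l 746418266007)))) (c (c (b (a (l 16737888) (l 16737888)) (a (l 16733048) (l 16719936))) (b (a (l 16737376) (l 16737376)) (c (l 16712048) (l 16733008)))) (c (b (a (l 16736856) (l 16736856)) (a (l 16774928) (l 16753960))) (b (a (l 16736344) (l 16736344)) (a (l 16774904) (l 16753928)))))))), by decide +kernel⟩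

def k32_pm_012 : ∃ t, chk3 f_pm_012 t 82 14 2 = true :=
  ⟨(b (a (a (c (b (c (l 16653520) (l 16673816)) (c (l 16552608) (l 16572240))) (b (l 16651840) (l 16549264))) (c (c (b (l 16674496) (l 16573576)) (l 16518208)) (c (l 16559152) (l 16579120)))) (c (a (c (b (l 16674496) (l 16573576)) (l 16539184)) (c (b (l 16674496) (l 16510792)) (b (l 16673816) (l 16572376)))) (a (c (l 16559152) (l 16579120)) (c (b (l 16673144) (l 16571040)) (l 16537336))))) (a (c (b (a (b (c (b (l 16510640) (l 16475488)) (b (l 16508888) (l 16494632))) (c (l 16497752) (l 16495960))) (b (c (a (l 16500184) (l 16498720)) (l 16498136)) (c (l 16484256) (l 16482360)))) (a (a (b (l 16504832) (l 16510688)) (b (l 16497912) (c (l 16504568) (l 16502936)))) (b (a (l 16491000) (c (l 16485248) (l 16483416))) (a (c (b (l 16496096) (l 16499768)) (l 16475240)) (a (l 16486528) (l 16489656)))))) (b (a (b (c (l 16501016) (l 16499232)) (l 16493280)) (b (c (l 16496320) (l 16494504)) (l 16479528))) (a (c (b (l 16498808) (l 16504872)) (l 16500096))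 (b (c (l 16485064) (l 16483256)) (a (c (l 16494528) (l 16492848)) (l 16466584)))))) (a (b (c (b (c (l 16497992) (l 16496160)) (a (l 16452368) (c (b (l 16468344) (l 16468864)) (l 16445776)))) (b (l 16493416) (a (l 16469408) (c (l 16464744) (l 16462744))))) (b (a (c (c (b (l 16477416) (l 16480656)) (l 16477080)) (c (l 16475200) (l 16473320))) (l 16470784)) (c (l 16483104) (l 16479536)))) (b (b (c (a (c (l 16498152) (l 16496320)) (c (l 16477912) (l 16497064))) (a (l 16493576) (c (l 16495240) (l 16493416)))) (b (a (a (c (l 16443152) (l 16460040)) (l 16461296)) (l 16461504)) (l 16458520))) (c (l 16469680) (l 16465864)))))), by decide +kernel⟩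

def k33_pm_012 : ∃ t, chk3 f_pm_012 t 82 14 3 = true :=
  ⟨(b (a (c (c (b (l 16671800) (l 16568240)) (l 16556136)) (c (l 16576104) (l 16596072))) (c (a (l 16535664) (c (l 16557304) (l 16577272))) (a (l 16575600) (b (l 16670112) (l 16565032))))) (a (c (b (a (b (l 16496560) (l 16489696)) (b (l 16491776) (l 16475752))) (a (c (l 16498440) (l 16496784)) (c (b (l 16481456) (l 16488144)) (b (l 16479648) (l 16486440))))) (b (a (l 16490032) (b (l 16488144) (l 16471968))) (a (l 16483808) (c (l 16481224) (l 16479464))))) (a (b (c (b (l 16489752) (a (l 16465488) (l 16459736))) (b (l 16486088) (l 16459128))) (a (c (b (l 16470496) (l 16478576)) (l 16470632)) (l 16467208))) (b (a (c (b (l 16489920) (b (l 16455928) (l 16454696))) (b (l 16486256) (l 16451384))) (b (c (l 16490680) (l 16487032)) (l 16451144))) (l 16460136))))), by decide +kernel⟩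

def k34_pm_012 : ∃ t, chk3 f_pm_012 t 82 15 1 = true :=
  ⟨(b (b (a (b (c (a (c (a (c (b (l 16516800) (l 16521056)) (l 16496472)) (c (l 16512384) (l 16510872))) (c (a (l 16515976) (l 16509360)) (a (l 16514512) (l 16507840)))) (c (l 16502840) (l 16499688))) (a (c (c (l 16509672) (l 16508176)) (c (l 16506688) (l 16505200))) (l 16494952))) (c (c (l 16518896) (l 16516104)) (l 16511920))) (c (c (b (a (l 16492448) (l 16483632)) (a (l 16503376) (l 16494952))) (b (l 16484568) (l 16495992))) (c (l 16486888) (l 16483664)))) (c (a (c (b (a (l 16536384) (l 16525440)) (a (l 16549656) (l 16539296))) (b (l 16528272) (l 16542176))) (c (a (b (l 16515976) (l 16530352)) (b (l 16507984) (l 16522824))) (a (l 16520464) (l 16512600)))) (a (c (l 16532720) (l 16530400)) (c (l 16513864) (l 16511296))))) (c (a (b (c (b (l 16559712) (l 16577000)) (b (l 16557912) (l 16575592))) (c (b (l 16596320) (l 16617792)) (l 16564112))) (b (c (a (l 16534552) (l 16527776)) (a (l 16553752) (l 16546896))) (c (b (l 16582120) (l 16604984))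 (b (l 16580944) (l 16604256))))) (a (b (c (l 16564952) (l 16563352)) (c (l 16584288) (l 16604472))) (b (c (l 16527456) (l 16546616)) (c (l 16570464) (l 16590480)))))), by decide +kernel⟩

def k35_pm_012 : ∃ t, chk3 f_pm_012 t 166 6 1 = true :=
  ⟨(b (b (l 3) (c (a (c (l 16768152) (l 16768032)) (c (a (l 16768152) (l 16768152)) (a (l 16768032) (l 16768032)))) (a (c (l 16767920) (l 1400863944055)) (c (a (l 16767920) (l 16767920)) (a (l 16767800) (l 16767800)))))) (c (b (a (c (c (l 16751072) (l 16750904)) (c (l 16750728) (l 16750560))) (c (a (l 16750984) (l 16750984)) (a (l 16750648) (l 16750648)))) (a (c (b (l 16737888) (b (l 16754392) (l 16728928))) (b (l 16737376) (l 16733016))) (c (b (a (l 16737888) (l 16737888)) (a (l 16733048) (l 16733120))) (b (l 16737376) (a (l 16753984) (l 16754064)))))) (b (a (c (l 16750304) (l 16749960)) (c (a (l 16750304) (l 16750304)) (a (l 16749960) (l 16749960)))) (a (c (b (l 16736856) (l 16753960)) (b (l 16736344) (l 16753928))) (c (b (l 16736856) (a (l 16774928) (l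 16775008))) (b (l 16736344) (a (l 16774904) (l 16754008)))))))), by decide +kernel⟩

def k36_pm_012 : ∃ t, chk3 f_pm_012 t 334 6 1 = true :=
  ⟨(a (b (c (b (b (l 3) (c (l 16777192) (l 16777192))) (c (l 16768152) (l 16768032))) (c (b (l 16777200) (l 16767920)) (b (l 16777200) (l 16767800)))) (c (b (c (l 16750984) (l 16750648)) (b (c (l 16737888) (l 16737376)) (c (a (l 16712472) (b (l 16754752) (l 16751360))) (a (l 16733424) (l 16713000))))) (b (c (l 16750304) (l 16749960)) (b (c (l 16736856) (l 16736344)) (c (b (l 16754232) (l 16729288)) (a (l 16754352) (l 16733952))))))) (a (b (c (c (b (l 16777200) (l 16768152)) (b (l 16777200) (l 16768032))) (c (b (l 16777200) (l 16767920)) (b (l 16777200) (l 16767800)))) (c (b (c (l 16750984) (l 16750648)) (b (c (l 16738232) (l 16737744)) (c (b (l 16755832) (l 16753264)) (l 16712456)))) (b (a (l 16750128) (l 16729160)) (b (c (l 16737256) (l 16736768)) (c (l 16733408) (l 16733400)))))) (b (c (c (b (l 16775896) (l 16768152)) (b (a (l 16777200) (l 16777200)) (l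 16768032))) (c (b (l 16777200) (l 16767920)) (b (l 16777200) (l 16767800)))) (c (b (c (l 16750984) (l 16750648)) (b (a (c (l 16738592) (l 16738136)) (c (l 16739352) (l 16738960))) (l 16751032))) (b (c (l 16750304) (l 16749960)) (b (c (l 16738328) (b (l 16739272) (l 16736176))) (l 16771880))))))), by decide +kernel⟩

def k37_pm_012 : ∃ t, chk3 f_pm_012 t 670 12 1 = true :=
  ⟨(a (a (c (c (b (l 16777200) (l 16768152)) (b (l 16777200) (l 16768032))) (c (b (l 16777200) (l 16767920)) (b (l 16777200) (l 16767800)))) (a (c (c (b (l 16777200) (l 16768152)) (b (l 16777200) (l 16768032))) (c (b (l 16777200) (l 16767920)) (b (l 16777200) (l 16767800)))) (a (a (c (c (b (l 16777200) (l 16768152)) (b (l 16777200) (l 16768032))) (c (b (l 16777200) (l 16767920)) (b (l 16777200) (l 16767800)))) (c (c (b (b (l 16777216) (l 16777192)) (b (l 16772368) (l 16763904))) (b (c (l 16777200) (l 16777200)) (c (l 16768064) (l 16768008)))) (c (c (b (l 16777200) (l 16767944)) (b (l 16777200) (l 16767888))) (b (b (l 16777216)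 (l 16777192)) (b (l 16772176) (l 16763384)))))) (c (b (l 16777200) (l 16768096)) (b (l 16777200) (l 16767856)))))) (c (b (l 16777200) (l 16768096)) (b (l 16777200) (l 16767856)))), by decide +kernel⟩

def k38_pm_012 : ∃ t, chk3 f_pm_012 t 670 13 1 = true :=
  ⟨(b (a (a (c (c (b (l 16755312) (l 16747152)) (b (l 16755032) (l 16746792))) (c (l 16750912) (b (l 16754456) (l 16746064)))) (a (a (c (c (l 16751672) (l 16751376)) (c (l 16751080) (l 16750792))) (c (c (b (l 16755312) (l 16748048)) (l 16730736)) (c (l 16751432) (l 16751160)))) (a (a (c (c (b (l 16755528) (l 16748992)) (b (l 16755256) (l 16748784))) (c (l 16751856) (l 16751616))) (a (b (a (a (c (l 16755424) (l 16754888)) (c (c (b (l 16757472) (l 16753624)) (l 16734456)) (c (l 16755168) (l 16754904)))) (c (l 16755560) (l 16755040))) (c (l 16749824) (l 16749560))) (c (b (l 16755560) (l 16750192)) (l 16752320)))) (c (b (l 16755560) (l 16750184)) (l 16752320))))) (c (b (l 16755552) (l 16750152)) (l 16752296))) (b (c (a (a (c (l 16741064) (l 16740816))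 (b (l 16745000) (l 16740536))) (l 16741608)) (a (a (a (l 16739736) (l 16741104)) (l 16743192)) (l 16741296))) (a (a (c (l 16747976) (l 16768744)) (a (c (l 16745672) (l 16766376)) (c (b (l 16749728) (l 16739216)) (l 16764376)))) (c (l 16763864) (l 16763528))))), by decide +kernel⟩

def k39_pm_012 : ∃ t, chk3 f_pm_012 t 671 6 1 = true :=
  ⟨(b (c (b (l 16777200) (l 16768096)) (b (l 16777200) (l 16767856))) (b (c (b (l 16755544) (l 16750072)) (l 16752240)) (c (b (l 16741816) (l 16743120)) (b (l 16741528) (l 16763760))))), by decide +kernel⟩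

def k40_pm_012 : ∃ t, chk3 f_pm_012 t 166 14 1 = true :=
  ⟨(c (a (b (a (c (b (l 16674152) (b (l 16598224) (c (l 16549048) (l 16547552)))) (b (l 16672808) (a (l 16570584) (l 16507984)))) (b (c (l 16674152) (l 16672808)) (b (c (c (l 16599408) (l 16598240)) (l 16596496)) (c (a (l 16549576) (l 16551008)) (l 16547312))))) (b (c (b (l 16501560) (l 16461112)) (l 16435888)) (c (c (l 16463000) (l 16461040)) (l 16458096)))) (b (b (c (c (a (l 16633080) (b (l 16700344) (l 16651632))) (a (l 16653384) (b (l 16699840) (l 16650808)))) (a (b (l 16698416) (l 16647752)) (c (l 16632800) (l 16653112)))) (a (a (c (b (l 16599872) (l 16552352)) (l 16573424)) (l 16576200)) (l 16536400))) (b (c (b (l 16507088) (l 16441024)) (l 16459872)) (c (c (l 16454872) (l 16452856)) (l 16449824))))) (b (b (a (c (l 16671464) (l 16670112)) (c (a (l 16651040) (c (l 16673424) (l 16672768))) (a (l 16670680) (l 16650800)))) (a (c (a (l 16526272) (c (l 16569928) (l 16568608))) (a (l 16565552) (l 16566624))) (a (c (l 16529576) (l 16568912))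 (l 16573224)))) (b (a (c (l 16473992) (l 16470160)) (c (l 16477064) (l 16473280))) (c (a (l 16454168) (l 16445784)) (l 16446288))))), by decide +kernel⟩

def k41_pm_012 : ∃ t, chk3 f_pm_012 t 334 14 1 = true :=
  ⟨(b (a (b (c (l 16656880) (l 16675296)) (c (c (l 16582608) (l 16580096)) (l 16576328))) (c (c (b (l 16682288) (l 16565232)) (b (l 16681072) (l 16583752))) (c (l 16588624) (l 16607768)))) (c (b (a (c (l 16466536) (l 16483776)) (c (a (l 16489720) (l 16470608)) (l 16466152))) (a (c (c (l 16427352) (l 16425288)) (l 16443160)) (a (c (b (l 16420016) (l 16448120)) (l 16440232)) (c (b (b (l 16418064) (l 16440656)) (l 16446336)) (b (l 16414600) (l 16442248)))))) (b (c (a (l 16480040) (l 16483448)) (l 16478552)) (c (a (l 16439032) (b (l 16432208) (l 16439232))) (a (l 16434896) (l 16431408)))))), by decide +kernel⟩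

def k42_pm_012 : ∃ t, chk3 f_pm_012 t 335 28 1 = true :=
  ⟨(c (c (a (b (a (a (l 16685144) (a (l 16686632) (l 16645952))) (l 16688400)) (a (a (l 16588904) (a (l 16590328) (a (a (l 16591296) (l 16570888)) (l 16592088)))) (l 16591984))) (b (l 16688192) (l 16591712))) (a (a (a (l 16572320) (a (l 16552832) (b (l 16665816) (b (l 16613520) (l 16564824))))) (l 16575544)) (l 16575304))) (a (b (a (a (l 16682240) (a (l 16683800) (l 16664144))) (l 16685640)) (a (a (l 16582896) (a (l 16584376) (c (l 16586808) (l 16584448)))) (l 16586104))) (b (l 16685424) (l 16585824)))), by decide +kernel⟩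

def k43_pm_012 : ∃ t, chk3 f_pm_012 t 335 29 1 = true :=
  ⟨(c (b (a (a (a (c (l 16472344) (l 16489680)) (a (c (b (l 16518464) (l 16470856)) (l 16491032)) (a (a (c (l 16453608) (l 16491952)) (c (c (b (l 16520752) (l 16473248)) (l 16453240)) (c (l 16493392) (l 16491592)))) (c (l 16496296) (l 16492704))))) (c (l 16475192) (l 16492576))) (c (l 16495832) (l 16492240))) (a (a (a (c (b (b (l 16417952) (l 16439736)) (l 16424336)) (b (l 16414064) (l 16441216))) (c (a (b (b (b (l 16441344) (l 16437256)) (l 16439704)) (c (l 16446232) (l 16444184))) (b (a (a (b (l 16418912) (l 16440024)) (b (b (c (l 16422744) (l 16441568)) (c (l 16418000) (l 16436808))) (c (a (a (a (l 16441320) (l 16441512)) (l 16441608)) (l 16441528)) (l 16439240)))) (b (l 16419376) (l 16440176))) (a (a (c (l 16446512) (l 16444464)) (a (a (a (l 16445712) (a (l 16445808) (c (l 16446952) (l 16444912)))) (l 16445984)) (l 16445896))) (l 16445608)))) (a (b (l 16414264) (l 16441120)) (a (a (b (l 16414664) (l 16441400)) (b (b (l 16415008) (l 16436048))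 (c (l 16421712) (l 16440648)))) (b (l 16414992) (l 16441528)))))) (c (b (b (l 16418712) (l 16438136)) (l 16443536)) (b (l 16434720) (l 16439416)))) (c (b (b (l 16416888) (l 16432712)) (l 16438000)) (b (l 16431368) (l 16433800))))) (b (a (a (a (l 16484224) (a (l 16464632) (c (b (l 16513032) (l 16464152)) (l 16484976)))) (l 16487192)) (l 16486840)) (a (a (a (c (l 16433776) (l 16429576)) (a (c (l 16433832) (l 16429632)) (c (a (a (l 16434176) (b (l 16431704) (l 16437584))) (l 16434408)) (b (l 16427088) (l 16433088))))) (c (l 16432744) (l 16428528))) (c (l 16428296) (l 16424016))))), by decide +kernel⟩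

def k44_pm_012 : ∃ t, chk3 f_pm_012 t 166 15 1 = true :=
  ⟨(b (c (b (c (a (b (l 16476400) (l 16488040)) (b (l 16446840) (l 16479152))) (a (l 16478672) (b (l 16464168) (l 16475816)))) (a (c (b (l 16501408) (l 16516616)) (l 16506128)) (c (b (l 16492224) (l 16507112)) (b (l 16489208) (l 16504464))))) (b (c (a (l 16475296) (l 16466320)) (l 16446672)) (c (a (l 16503424) (l 16493816)) (a (l 16500720) (l 16490984))))) (c (b (a (c (l 16516952) (l 16541240)) (c (b (l 16523928) (l 16542784)) (l 16510136))) (a (c (l 16585944) (l 16584912)) (c (l 16554272) (l 16574064)))) (c (b (a (l 16539328) (l 16529048)) (a (l 16583880) (l 16572888))) (b (a (l 16537408) (l 16526992)) (l 16535552))))), by decide +kernel⟩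

def k45_pm_012 : ∃ t, chk3 f_pm_012 t 334 15 1 = true :=
  ⟨(b (c (b (a (c (c (l 16466736) (l 16464936)) (c (l 16463136) (l 16461328))) (c (a (b (l 16457168) (l 16467832)) (b (c (l 16456176) (l 16454264)) (c (l 16466584) (l 16464816)))) (a (l 16458680) (c (l 16457528) (l 16455688))))) (a (c (b (l 16484056) (l 16498464)) (l 16467152)) (c (a (b (l 16480184) (l 16494328)) (b (c (l 16478672) (l 16477064)) (l 16491816))) (a (l 16484064) (b (l 16474648) (l 16488952)))))) (b (c (a (l 16458624) (a (l 16455024) (l 16452928))) (a (l 16455024) (l 16450448))) (a (c (l 16485168) (l 16482216)) (c (a (l 16481048) (l 16478568)) (l 16476912))))) (c (a (b (c (l 16502768) (l 16521552)) (c (l 16564720) (l 16563392))) (b (c (a (l 16519192) (b (l 16507648) (l 16525480))) (a (l 16516936) (l 16493104))) (c (a (l 16559568) (l 16556296)) (a (l 16558176) (l 16554856))))) (c (a (b (l 16519360) (l 16562072)) (b (a (l 16514680) (l 16511776)) (l 16555192))) (a (l 16496184) (b (l 16511072) (l 16553776)))))), by decide +kernel⟩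

def k46_pm_012 : ∃ t, chk3 f_pm_012 t 670 30 2 = true :=
  ⟨(b (a (b (c (a (c (l 16455008) (l 16453096)) (a (c (l 16454816) (l 16452896)) (a (a (c (l 16455040) (l 16453120)) (a (a (a (l 16454280) (a (l 16454376) (c (b (l 16453176) (l 16457808)) (l 16453536)))) (l 16454536)) (l 16454448))) (l 16454152)))) (a (l 16450216) (a (l 16450016) (a (a (l 16450248) (c (b (l 16449096) (l 16443384)) (l 16449528))) (l 16450320))))) (c (a (c (l 16465272) (l 16463496)) (a (c (l 16457112) (l 16463200)) (a (a (c (l 16465144) (l 16463368)) (a (a (a (l 16464432) (a (l 16464520) (c (b (l 16462840) (l 16468272)) (l 16463744)))) (l 16464664)) (l 16464576))) (l 16464272)))) (a (l 16460832) (a (l 16450048) (a (a (l 16460704) (a (a (a (l 16460880) (c (l 16440960) (l 16460160))) (l 16461120)) (l 16461032))) (l 16460720)))))) (c (b (l 16452024) (l 16462088)) (c (l 16454096) (l 16452232)))) (a (b (c (a (c (l 16477200) (l 16475584)) (a (a (l 16475960) (l 16475944)) (a (a (c (l 16476904) (l 16475280)) (a (a (a (l 16476248)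 (a (l 16476328) (c (b (l 16474136) (l 16480424)) (l 16454648)))) (l 16476464)) (l 16476368))) (l 16476056)))) (a (l 16473152) (a (l 16470136) (a (a (l 16472856) (a (a (a (l 16473016) (a (l 16473096) (a (l 16473168) (l 16473232)))) (l 16473232)) (l 16473136))) (l 16472824))))) (c (a (l 16469200) (a (a (l 16489656) (l 16489592)) (a (a (c (l 16490424) (l 16488976)) (a (a (a (l 16489824) (a (l 16489896) (a (l 16489968) (l 16469048)))) (l 16490016)) (l 16489920))) (l 16489600)))) (a (l 16487280) (a (l 16486768) (a (a (l 16486800) (a (a (a (l 16486936) (a (l 16487008) (l 16487096))) (l 16487128)) (l 16487032))) (l 16486704)))))) (c (b (l 16473824) (l 16487312)) (b (l 16470552) (l 16484376))))), by decide +kernel⟩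

def k47_pm_012 : ∃ t, chk3 f_pm_012 t 671 30 2 = true :=
  ⟨(b (c (b (l 16446352) (l 16456280)) (c (l 16448288) (l 16446376))) (c (b (l 16467864) (l 16481208)) (b (l 16464504) (l 16478184)))), by decide +kernel⟩

def k48_pm_012 : ∃ t, chk3 f_pm_012 t 335 30 3 = true :=
  ⟨(c (a (b (a (a (l 16451648) (a (l 16451408) (a (a (l 16451608) (c (l 16452752) (l 16450904))) (l 16451656)))) (l 16449432)) (a (a (l 16476968) (a (l 16476504) (a (a (l 16476576) (b (l 16469792) (l 16484040))) (l 16476512)))) (l 16474176))) (b (l 16443520) (l 16467960))) (a (b (a (a (l 16447952) (a (l 16447704) (b (l 16442416) (l 16453424)))) (l 16445704)) (a (a (l 16473904) (a (l 16473432) (a (a (l 16473504) (l 16473664)) (l 16473440)))) (l 16471072))) (b (l 16439704) (l 16464768)))), by decide +kernel⟩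

def k49_pm_012 : ∃ t, chk3 f_pm_012 t 335 31 1 = true :=
  ⟨(a (b (c (c (a (a (b (l 16505832) (l 16523472)) (a (b (l 16505208) (l 16522720)) (a (a (b (l 16505168) (l 16522608)) (a (a (a (l 16513784) (a (l 16513840) (b (l 16505416) (l 16522808)))) (l 16513936)) (l 16513832))) (l 16513504)))) (l 16511128)) (a (a (l 16491160) (a (b (l 16502680) (l 16520592)) (a (a (b (l 16502640) (l 16520480)) (b (c (b (l 16488752) (l 16507584)) (l 16502096)) (b (l 16515872) (l 16525280)))) (l 16511168)))) (l 16508760))) (a (a (c (l 16509808) (l 16507488)) (a (c (l 16509112) (l 16506776)) (a (a (c (l 16509032) (l 16506704)) (c (b (l 16500208) (l 16518392)) (l 16506776))) (c (l 16508840) (l 16506504))))) (c (l 16506392) (l 16504016)))) (c (c (a (a (l 16553992) (a (l 16553040) (a (a (l 16552808) (b (l 16542144) (l 16563840))) (l 16552472)))) (l 16549976)) (a (a (l 16552512) (a (l 16551552) (a (a (l 16551312) (b (l 16540432) (l 16562576))) (l 16550976)))) (l 16548448))) (a (a (c (l 16551040) (l 16549568)) (a (c (l 16550072)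 (l 16548584)) (a (a (c (l 16549824) (l 16548336)) (c (l 16549800) (l 16548312))) (l 16548736)))) (l 16546152)))) (c (b (c (l 16504792) (l 16502328)) (c (l 16543336) (l 16541712))) (b (c (l 16499872) (l 16497408)) (l 16539272)))), by decide +kernel⟩

def k50_pm_012 : ∃ t, chk3 f_pm_012 t 21 6 1 = true :=
  ⟨(b (c (b (c (l 16777200) (l 16777200)) (c (l 16768152) (l 16768032))) (b (c (l 16777200) (l 16777200)) (c (l 16767920) (l 16767800)))) (b (c (b (c (l 16755576) (l 16755304)) (c (l 16748456) (l 16748176))) (c (l 16751576) (l 16751312))) (c (b (l 16742752) (a (l 16724608) (l 16770672))) (b (l 16742472) (l 16726552))))), by decide +kernel⟩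

def k51_pm_012 : ∃ t, chk3 f_pm_012 t 21 14 1 = true :=
  ⟨(b (c (b (c (l 16641888) (l 16682648)) (c (a (l 16567768) (l 16583584)) (l 16541696))) (c (b (l 16681472) (l 16581192)) (l 16587576))) (c (b (c (a (c (l 16472072) (l 16491216)) (l 16485648)) (a (l 16467504) (l 16481896))) (a (c (a (b (a (b (l 16435248) (c (l 16420984) (l 16418696))) (l 16421360)) (a (l 16419640) (b (c (l 16395328) (l 16392880)) (l 16392152)))) (b (l 16418352) (a (b (l 16383720) (c (l 16369616) (l 16367000))) (l 16369720)))) (b (a (a (b (l 16430864) (l 16415280)) (l 16416792)) (l 16413736)) (a (a (l 16415160) (b (l 16389200) (l 16387280))) (a (b (l 16378664) (l 16363072)) (l 16364472))))) (c (c (l 16389856) (l 16387352)) (l 16383592)))) (b (c (l 16460424) (l 16477688)) (a (c (b (a (l 16417480) (l 16409128)) (a (l 16398296) (l 16364536))) (b (l 16409440) (a (l 16393632) (l 16359376)))) (c (l 16378576) (l 16373560)))))), by decide +kernel⟩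

def k52_pm_012 : ∃ t, chk3 f_pm_012 t 21 30 1 = true :=
  ⟨(c (a (a (b (b (c (c (l 16413672) (l 16411440)) (l 16408088)) (c (c (l 16422680) (l 16420584)) (l 16443648))) (c (b (c (l 16454296) (l 16431376)) (c (l 16445704) (l 16443920))) (b (c (l 16429424) (l 16427472)) (l 16441240)))) (b (c (b (a (l 16368120) (b (c (l 16322888) (l 16341072)) (l 16340536))) (c (l 16362320) (l 16359752))) (b (a (l 16362968) (b (l 16336888) (l 16334992))) (l 16355904))) (c (b (c (l 16371448) (l 16369016)) (c (l 16382272) (l 16380000))) (c (l 16351008) (l 16369624))))) (b (c (a (b (a (b (l 16331976) (l 16311336)) (l 16317872)) (b (a (l 16314664) (l 16269680)) (l 16303480))) (b (l 16314520) (a (b (l 16280048) (l 16243720)) (l 16265840)))) (c (b (a (l 16297720) (l 16310040)) (a (a (l 16312064) (l 16285856)) (l 16266208))) (b (l 16291104) (a (l 16296792) (l 16262936))))) (c (a (b (l 16309400) (l 16318752)) (b (b (a (l 16262824) (l 16217728)) (l 16251640)) (l 16257680))) (b (a (l 16303600) (a (l 16258120) (l 16231696)))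 (a (l 16313240) (l 16251208)))))) (b (a (c (b (a (l 16403616) (l 16345376)) (l 16360864)) (b (l 16369888) (l 16377168))) (c (b (a (l 16311376) (l 16302560)) (a (l 16292280) (l 16258040))) (b (l 16301744) (a (l 16286264) (l 16251504))))) (c (a (b (c (l 16393464) (l 16391272)) (l 16341768)) (b (a (l 16297800) (l 16239048)) (l 16276064))) (a (l 16352168) (b (l 16262472) (l 16270072)))))), by decide +kernel⟩

def k53_pm_012 : ∃ t, chk3 f_pm_012 t 21 31 1 = true :=
  ⟨(c (b (a (c (b (a (l 16459120) (l 16393856)) (a (l 16475368) (l 16408488))) (b (a (l 16455904) (l 16389648)) (l 16396480))) (c (b (a (l 16329896) (l 16267256)) (a (l 16342928) (l 16278688))) (c (a (l 16332456) (l 16268280)) (l 16297440)))) (c (a (b (l 16417304) (l 16457936)) (b (l 16324856) (l 16341184))) (a (b (l 16435344) (l 16476408)) (b (l 16319896) (l 16336624))))) (b (c (a (a (l 16460992) (l 16392928)) (c (l 16294688) (l 16291928))) (a (l 16423264) (l 16287792))) (c (a (l 16400520) (l 16323288)) (a (l 16460720) (l 16318528))))),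 by decide +kernel⟩

def k54_pm_012 : ∃ t, chk3 f_pm_012 t 11 2 1 = true :=
  ⟨(b (l 2) (b (b (l 2) (a (c (c (l 16777216) (l 16777216)) (c (l 16777216) (l 16777216))) (l 2))) (c (a (b (c (l 16777216) (l 16777216)) (c (b (l 16777216) (l 16777216)) (l 16777216))) (c (b (l 16777216) (l 16777216)) (l 16777216))) (b (c (l 16777216) (l 16777216)) (a (c (l 16777216) (l 16777216)) (l 16777216)))))), by decide +kernel⟩

def k55_pm_012 : ∃ t, chk3 f_pm_012 t 22 3 1 = true :=
  ⟨(b (b (c (b (c (l 16777200) (l 16777200)) (l 16768096)) (b (l 16777200) (l 16767856))) (b (c (b (l 16755176) (l 16746696)) (l 16729408)) (c (b (l 16738896) (l 16775632)) (b (l 16738000) (l 16775616))))) (b (b (c (c (l 16543088) (l 16562112)) (c (l 16581136) (l 16600160))) (c (c (b (l 16477064) (a (l 16381312) (l 16374688))) (b (l 16473168) (l 16372728))) (c (b (l 16469272) (l 16367536)) (l 16371864)))) (b (c (b (c (a (l 16263160) (l 16275992)) (a (l 16277736) (l 16269456))) (a (c (a (b (a (b (l 16227976) (l 16191712)) (l 16213680))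 (a (l 16212720) (l 16165624))) (b (l 16209984) (a (l 16169520) (l 16161432)))) (b (a (a (l 16214472) (l 16206376)) (l 16202616)) (a (a (l 16205544) (l 16178992)) (l 16158896)))) (c (l 16179000) (l 16171200)))) (b (c (l 16267040) (l 16260576)) (a (c (a (b (l 16204560) (l 16185728)) (l 16110856)) (b (l 16193288) (l 16164072))) (c (l 16163408) (l 16155608))))) (c (b (a (c (a (l 16210664) (b (l 16148488) (l 16154192))) (b (a (l 16198784) (l 16140432)) (l 16177496))) (c (a (b (l 16114576) (l 16096512)) (b (l 16105056) (l 16062352))) (a (b (l 16105960) (l 16087760)) (l 16075296)))) (a (c (b (l 16195808) (l 16208840)) (b (l 16188824) (l 16202224))) (a (b (l 16098288) (l 16109056)) (c (l 16048048) (l 16038752))))) (b (a (c (a (l 16196696) (l 16135728)) (l 16159040)) (c (a (b (l 16097352) (l 16079008)) (l 16066264)) (b (l 16084424) (l 16055688)))) (c (a (l 16188528) (a (l 16091000) (l 16029456))) (a (l 16181728) (l 16051704)))))))), by decide +kernel⟩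

def k56_pm_012 : ∃ t, chk3 f_pm_012 t 23 3 1 = true :=
  ⟨(b (b (c (c (l 16772720) (l 16772664)) (c (l 16772600) (l 16772544))) (c (b (l 16750816) (b (l 16737632) (l 16774976))) (b (l 16750128) (b (l 16736600) (l 16774920))))) (b (c (b (b (l 16673488) (l 16571584)) (c (l 16379480) (l 16374832))) (b (l 16534672) (c (l 16412120) (l 16407472)))) (c (b (c (b (l 16271608) (l 16152704)) (b (l 16265000) (l 16165784))) (b (c (l 16078008) (l 16068864)) (a (b (c (l 16010888) (l 16000880)) (a (c (l 15995136) (l 15985040)) (l 15961496))) (l 15959176)))) (b (c (b (l 16258392) (l 16157896)) (l 16158832)) (b (c (l 16059728) (l 16050584)) (a (c (a (b (l 15992352) (l 15974944)) (l 15967456)) (a (l 15976936) (l 15957144))) (l 15959440))))))), by decide +kernel⟩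

def k57_pm_012 : ∃ t, chk3 f_pm_012 t 3 1 1 = true :=
  ⟨(b (a (a (b (l 2) (b (l 2) (b (l 2) (c (c (l 16777216) (l 16777216)) (l 21038628791))))) (l 2)) (l 2)) (a (a (b (b (b (c (c (l 16777200) (l 16777200)) (c (l 16777200) (l 16777200))) (c (l 16747120) (l 16767856))) (c (b (l 16750816) (b (l 16737632) (l 16733032))) (b (l 16750128) (b (l 16736600) (l 16774920))))) (b (c (b (a (l 16601600) (l 16622568)) (a (l 16377152) (l 16419088))) (b (l 16534664) (c (l 16412112) (l 16407464)))) (c (b (a (c (l 16201544) (l 16215264)) (c (l 16222512) (l 16215264))) (c (a (b (l 16077992) (l 15985320)) (l 16031456)) (a (l 16021704) (l 16021704)))) (b (a (c (l 16208016) (l 16200760)) (l 16204384)) (c (a (l 16011952) (l 16011952)) (l 16002208)))))) (b (b (b (l 2) (c (l 16768096) (l 102642969767))) (b (c (l 16750816) (l 16750128)) (c (b (l 16737632) (l 16774976)) (b (l 16736600) (l 16756568))))) (b (c (b (a (l 16622568) (l 16622568)) (a (l 16419088) (l 16419088))) (b (l 16513696) (l 16409792))) (c (b (a (l 16218888)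 (l 16218888)) (c (a (l 16031456) (l 16031456)) (l 16021704))) (b (l 16204384) (c (l 16011952) (l 16002208))))))) (a (b (b (l 2) (b (l 2) (c (l 16758504) (c (l 16758136) (l 16757896))))) (b (c (b (l 16559656) (l 16419088)) (b (c (l 16619560) (l 16617544)) (l 16409792))) (c (c (b (l 16222512) (l 16031456)) (l 16013032)) (b (l 16204384) (l 16007080))))) (b (l 2) (b (b (l 2) (c (l 16419088) (l 16409792))) (c (b (l 16218888) (l 16026576)) (b (l 16204384) (l 16007080)))))))), by decide +kernel⟩

theorem s58_pm_012 : ∃ t, chk3 f_pm_012 t 11 3 1 = true := ex3_a k55_pm_012 k56_pm_012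

theorem s59_pm_012 : ∃ t, chk3 f_pm_012 t 11 1 1 = true := ex3_b k54_pm_012 s58_pm_012

theorem s60_pm_012 : ∃ t, chk3 f_pm_012 t 21 15 1 = true := ex3_b k52_pm_012 k53_pm_012

theorem s61_pm_012 : ∃ t, chk3 f_pm_012 t 21 7 1 = true := ex3_b k51_pm_012 s60_pm_012

theorem s62_pm_012 : ∃ t, chk3 f_pm_012 t 21 3 1 = true := ex3_b k50_pm_012 s61_pm_012

theorem s63_pm_012 : ∃ t, chk3 f_pm_012 t 335 30 2 = true := ex3_a k46_pm_012 k47_pm_012

theorem s64_pm_012 : ∃ t, chk3 f_pm_012 t 335 30 1 = true := ex3_c s63_pm_012 k48_pm_012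

theorem s65_pm_012 : ∃ t, chk3 f_pm_012 t 335 15 1 = true := ex3_b s64_pm_012 k49_pm_012

theorem s66_pm_012 : ∃ t, chk3 f_pm_012 t 167 15 1 = true := ex3_a k45_pm_012 s65_pm_012

theorem s67_pm_012 : ∃ t, chk3 f_pm_012 t 83 15 1 = true := ex3_a k44_pm_012 s66_pm_012

theorem s68_pm_012 : ∃ t, chk3 f_pm_012 t 335 14 1 = true := ex3_b k42_pm_012 k43_pm_012

theorem s69_pm_012 : ∃ t, chk3 f_pm_012 t 167 14 1 = true := ex3_a k41_pm_012 s68_pm_012

theorem s70_pm_012 : ∃ t, chk3 f_pm_012 t 83 14 1 = true := ex3_a k40_pm_012 s69_pm_012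

theorem s71_pm_012 : ∃ t, chk3 f_pm_012 t 83 7 1 = true := ex3_b s70_pm_012 s67_pm_012

theorem s72_pm_012 : ∃ t, chk3 f_pm_012 t 670 6 1 = true := ex3_b k37_pm_012 k38_pm_012

theorem s73_pm_012 : ∃ t, chk3 f_pm_012 t 335 6 1 = true := ex3_a s72_pm_012 k39_pm_012

theorem s74_pm_012 : ∃ t, chk3 f_pm_012 t 167 6 1 = true := ex3_a k36_pm_012 s73_pm_012

theorem s75_pm_012 : ∃ t, chk3 f_pm_012 t 83 6 1 = true := ex3_a k35_pm_012 s74_pm_012

theorem s76_pm_012 : ∃ t, chk3 f_pm_012 t 83 3 1 = true := ex3_b s75_pm_012 s71_pm_012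

theorem s77_pm_012 : ∃ t, chk3 f_pm_012 t 82 14 1 = true := ex3_c k32_pm_012 k33_pm_012

theorem s78_pm_012 : ∃ t, chk3 f_pm_012 t 82 7 1 = true := ex3_b s77_pm_012 k34_pm_012

theorem s79_pm_012 : ∃ t, chk3 f_pm_012 t 82 3 1 = true := ex3_b k31_pm_012 s78_pm_012

theorem s80_pm_012 : ∃ t, chk3 f_pm_012 t 41 3 1 = true := ex3_a s79_pm_012 s76_pm_012

theorem s81_pm_012 : ∃ t, chk3 f_pm_012 t 40 31 1 = true := ex3_b k29_pm_012 k30_pm_012

theorem s82_pm_012 : ∃ t, chk3 f_pm_012 t 40 61 1 = true := ex3_c k27_pm_012 k28_pm_012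

theorem s83_pm_012 : ∃ t, chk3 f_pm_012 t 40 60 1 = true := ex3_a k25_pm_012 k26_pm_012

theorem s84_pm_012 : ∃ t, chk3 f_pm_012 t 40 30 1 = true := ex3_b s83_pm_012 s82_pm_012

theorem s85_pm_012 : ∃ t, chk3 f_pm_012 t 40 15 1 = true := ex3_b s84_pm_012 s81_pm_012

theorem s86_pm_012 : ∃ t, chk3 f_pm_012 t 81 14 1 = true := ex3_a k23_pm_012 k24_pm_012

theorem s87_pm_012 : ∃ t, chk3 f_pm_012 t 40 14 1 = true := ex3_a k22_pm_012 s86_pm_012

theorem s88_pm_012 : ∃ t, chk3 f_pm_012 t 40 7 1 = true := ex3_b s87_pm_012 s85_pm_012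

theorem s89_pm_012 : ∃ t, chk3 f_pm_012 t 40 3 1 = true := ex3_b k21_pm_012 s88_pm_012

theorem s90_pm_012 : ∃ t, chk3 f_pm_012 t 20 3 1 = true := ex3_a s89_pm_012 s80_pm_012

theorem s91_pm_012 : ∃ t, chk3 f_pm_012 t 10 3 1 = true := ex3_a s90_pm_012 s62_pm_012

theorem s92_pm_012 : ∃ t, chk3 f_pm_012 t 167 21 1 = true := ex3_a k17_pm_012 k18_pm_012

theorem s93_pm_012 : ∃ t, chk3 f_pm_012 t 167 10 1 = true := ex3_b k16_pm_012 s92_pm_012

theorem s94_pm_012 : ∃ t, chk3 f_pm_012 t 167 5 1 = true := ex3_b s93_pm_012 k19_pm_012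

theorem s95_pm_012 : ∃ t, chk3 f_pm_012 t 83 5 1 = true := ex3_a k15_pm_012 s94_pm_012

theorem s96_pm_012 : ∃ t, chk3 f_pm_012 t 41 5 1 = true := ex3_a k14_pm_012 s95_pm_012

theorem s97_pm_012 : ∃ t, chk3 f_pm_012 t 20 5 1 = true := ex3_a k13_pm_012 s96_pm_012

theorem s98_pm_012 : ∃ t, chk3 f_pm_012 t 10 5 1 = true := ex3_a s97_pm_012 k20_pm_012

theorem s99_pm_012 : ∃ t, chk3 f_pm_012 t 10 2 1 = true := ex3_b k12_pm_012 s98_pm_012

theorem s100_pm_012 : ∃ t, chk3 f_pm_012 t 10 1 1 = true := ex3_b s99_pm_012 s91_pm_012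

theorem s101_pm_012 : ∃ t, chk3 f_pm_012 t 5 1 1 = true := ex3_a s100_pm_012 s59_pm_012

theorem s102_pm_012 : ∃ t, chk3 f_pm_012 t 159 15 1 = true := ex3_a k10_pm_012 k11_pm_012

theorem s103_pm_012 : ∃ t, chk3 f_pm_012 t 158 15 1 = true := ex3_b k8_pm_012 k9_pm_012

theorem s104_pm_012 : ∃ t, chk3 f_pm_012 t 79 15 1 = true := ex3_a s103_pm_012 s102_pm_012

theorem s105_pm_012 : ∃ t, chk3 f_pm_012 t 78 15 1 = true := ex3_a k6_pm_012 k7_pm_012

theorem s106_pm_012 : ∃ t, chk3 f_pm_012 t 39 15 1 = true := ex3_a s105_pm_012 s104_pm_012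

theorem s107_pm_012 : ∃ t, chk3 f_pm_012 t 39 7 1 = true := ex3_b k5_pm_012 s106_pm_012

theorem s108_pm_012 : ∃ t, chk3 f_pm_012 t 19 7 1 = true := ex3_a k4_pm_012 s107_pm_012

theorem s109_pm_012 : ∃ t, chk3 f_pm_012 t 19 3 1 = true := ex3_b k3_pm_012 s108_pm_012

theorem s110_pm_012 : ∃ t, chk3 f_pm_012 t 9 3 1 = true := ex3_a k2_pm_012 s109_pm_012

theorem s111_pm_012 : ∃ t, chk3 f_pm_012 t 9 1 1 = true := ex3_b k1_pm_012 s110_pm_012

theorem s112_pm_012 : ∃ t, chk3 f_pm_012 t 4 1 1 = true := ex3_a k0_pm_012 s111_pm_012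

theorem s113_pm_012 : ∃ t, chk3 f_pm_012 t 2 1 1 = true := ex3_a s112_pm_012 s101_pm_012

theorem s114_pm_012 : ∃ t, chk3 f_pm_012 t 1 1 1 = true := ex3_a s113_pm_012 k57_pm_012

theorem c_pm_012 : CertFX 0 536870912 536870912 536870912 1046898278 26843546 true true false .pnp 0 1 2
    ndF0q0 ndF1q1 pcF2 Cut.none Ext.none :=
  certFX2 (fam := true) (s1 := true) (s2 := false) (a := 0) (b := 1) (c := 2) (cn := .pnp) (n1 := ndF0q0) (n2 := ndF1q1) (pc := pcF2) (cut := Cut.none) (xt := Ext.none) (P1 := 0) (W1 := 536870912) (P2 := 536870912) (W2 := 536870912) (P3 := 1046898278) (W3 := 26843546)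
    rfl (fun _ => rfl) s114_pm_012

noncomputable def f_pm_022_a : ℕ → ℕ → ℕ → ℕ → Bool := onCell 1073741824 536870912 0 420477299 1046898278 26843546
    (rowFX 2 true true false .pp 0 2 2 (qsf 0 536870912 0 420477299 2) ndF0q0 ndF1q2a pcF2 Cut.none Ext.none)

def k0_pm_022_a : ∃ t, chk3 f_pm_022_a t 4 2 1 = true :=
  ⟨(l 1), by decide +kernel⟩

def k1_pm_022_a : ∃ t, chk3 f_pm_022_a t 4 6 1 = true :=
  ⟨(a (l 1) (a (l 1) (c (a (l 16069472) (b (l 16408656) (l 16384624))) (c (a (l 16167696) (b (l 16406448) (a (l 16468000) (l 16341896)))) (a (b (l 1) (l 16079120)) (b (l 16283176) (b (a (l 16433936) (l 16395656)) (c (l 16316536) (l 16309624))))))))), by decide +kernel⟩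

def k2_pm_022_a : ∃ t, chk3 f_pm_022_a t 4 14 1 = true :=
  ⟨(a (l 1) (a (a (l 1) (b (l 1) (b (a (l 1) (a (l 1) (c (b (l 16308008) (l 16298520)) (c (l 16317168) (l 16254744))))) (c (c (a (l 16193520) (l 16328048)) (l 16172264)) (c (l 16188904) (a (l 16177128) (c (l 16323128) (l 16307536)))))))) (b (c (a (b (l 16354272) (l 16330832)) (c (l 16359896) (l 16304792))) (a (a (c (l 16313440) (l 16190448)) (c (l 16412512) (l 16258056))) (c (a (l 16403024) (l 16300512)) (c (l 16229552) (l 16314744))))) (b (c (a (b (l 16369208) (a (c (l 16338072) (l 16398896)) (b (l 16549232) (l 16460840)))) (c (a (l 16367160) (l 16232072)) (a (l 16352160) (l 16182312)))) (a (b (c (l 16335440) (l 16268104)) (c (a (l 16379536) (l 16460384)) (a (a (l 16373440) (c (l 16491336) (l 16498416))) (l 16529960)))) (c (a (l 16305784) (l 16303016)) (l 16239248)))) (c (a (a (c (l 16419200) (l 16418768)) (c (l 16554480) (l 16548656))) (c (a (l 16419584) (l 16250048)) (a (l 16395520) (l 16131136)))) (a (a (c (a (l 16429512) (c (l 16499712)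 (l 16511944))) (l 16321192)) (c (l 16462528) (l 16555992))) (c (a (l 16391248) (l 16258688)) (l 16281136)))))))), by decide +kernel⟩

def k3_pm_022_a : ∃ t, chk3 f_pm_022_a t 4 30 1 = true :=
  ⟨(a (l 1) (a (a (a (l 1) (b (l 1) (c (c (l 16151344) (l 16144752)) (c (l 16138168) (l 16092896))))) (c (c (a (b (l 16230824) (l 16273056)) (l 16250080)) (a (l 16225800) (l 16291912))) (a (c (l 16181640) (c (b (l 16217888) (l 16250296)) (b (l 16220616) (l 16236344)))) (c (c (l 16338072) (l 16241416)) (c (l 16209240) (l 16300200)))))) (c (a (c (a (a (l 16427720) (l 16450800)) (a (l 16519880) (l 16490048))) (a (c (l 16403616) (l 16412400)) (a (l 16519264) (l 16422936)))) (c (a (c (l 16407264) (l 16415872)) (c (l 16302736) (l 16260928))) (c (a (l 16355840) (l 16264976)) (l 16117456)))) (a (c (a (c (l 16342480) (l 16357880)) (c (l 16481400) (l 16514592))) (a (b (l 16419888) (l 16555304)) (l 16511304))) (c (l 16127352) (l 16248048)))))), by decide +kernel⟩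

def k4_pm_022_a : ∃ t, chk3 f_pm_022_a t 4 31 1 = true :=
  ⟨(a (b (l 1) (b (l 1) (b (l 1) (a (l 1) (a (l 1) (a (l 1) (a (l 1) (c (c (l 16108344) (l 16101264)) (l 16090032))))))))) (a (c (b (a (c (a (l 16090168) (l 16205840)) (l 15994552)) (c (a (l 16320272) (l 16394912)) (a (l 16317968) (l 16383576)))) (a (c (a (l 16157408) (l 16265632)) (a (l 16150632) (l 16261160))) (a (c (l 16332432) (l 16316944)) (c (l 16407112) (l 16388912))))) (a (c (a (l 16047208) (b (l 16194928) (l 16160672))) (a (b (l 16068792) (c (l 16142560) (a (l 16110632) (l 16175720)))) (b (c (l 16196328) (l 16138136)) (c (l 16190432) (l 16260920))))) (c (a (c (l 16212872) (b (l 16328336) (l 16342272))) (c (b (l 16422600) (l 16431896)) (l 16346520))) (c (a (b (l 16297536) (l 16394384)) (l 16434632)) (l 16200880))))) (c (a (c (a (b (l 16437160) (l 16472528)) (c (l 16436160) (l 16397432))) (a (b (l 16421856) (a (l 16514032) (l 16526104))) (c (l 16358784) (l 16387120)))) (c (c (b (l 16127072) (a (l 16373776) (l 16225320))) (b (l 16172640)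 (l 16156608))) (c (a (l 16315696) (l 16214576)) (l 16257632)))) (a (c (a (b (l 16448336) (l 16522008)) (l 16383128)) (a (l 16514208) (l 16437056))) (c (l 16189936) (b (l 16282968) (l 16233584))))))), by decide +kernel⟩

def k5_pm_022_a : ∃ t, chk3 f_pm_022_a t 10 2 1 = true :=
  ⟨(a (a (b (l 1) (c (l 16261616) (b (l 1) (c (l 16343584) (a (l 16482312) (c (l 16348224) (l 16217664))))))) (b (a (l 1) (c (l 16228240) (b (l 16197384) (l 16127544)))) (c (b (l 16309848) (l 16317672)) (b (c (l 16271360) (c (l 16172704) (l 16158416))) (c (a (l 16377880) (l 16282248)) (b (l 16255256) (l 16255496))))))) (c (b (a (b (l 15996568) (l 16044248)) (c (l 15718024) (b (l 15771024) (l 15821144)))) (a (b (l 15969136) (a (l 16171752) (c (l 16136456) (l 16161872)))) (b (c (l 15874088) (l 15873880)) (c (l 15934568) (l 15978480))))) (b (b (a (c (l 15998952) (l 16012152)) (l 15762400)) (a (c (l 15947776) (l 16005120)) (l 15679352))) (a (b (c (a (l 16189896) (l 16072696)) (l 16105512)) (c (l 16076976) (l 16247904))) (b (l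 15879392) (l 16001640)))))), by decide +kernel⟩

def k6_pm_022_a : ∃ t, chk3 f_pm_022_a t 10 6 1 = true :=
  ⟨(a (a (c (b (l 16254672) (c (l 16197000) (b (l 16268272) (l 16116448)))) (b (c (b (l 16283272) (a (l 16420088) (l 16251928))) (b (a (l 16421712) (l 16233064)) (a (l 16323312) (l 16256680)))) (c (b (a (l 16339504) (l 16225784)) (l 16029112)) (a (l 16166784) (l 16206176))))) (c (b (a (l 16265800) (c (l 16520672) (l 16390792))) (c (b (l 16317088) (l 16245904)) (b (l 16228896) (l 16216944)))) (b (c (b (l 16212344) (l 16232768)) (l 16198256)) (c (l 16143072) (l 16242928))))) (c (b (a (c (a (l 16372840) (l 16254264)) (l 16132960)) (c (l 16049000) (l 16121960))) (a (b (l 16215760) (l 16367096)) (b (l 16154896) (l 16289680)))) (a (b (a (l 16292904) (l 16310136)) (l 16361280)) (b (l 16116240) (l 16118176))))), by decide +kernel⟩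

def k7_pm_022_a : ∃ t, chk3 f_pm_022_a t 20 14 1 = true :=
  ⟨(b (a (c (c (b (l 16272792) (l 16155776)) (b (l 16159656) (l 16059400))) (c (l 15981680) (l 16141736))) (c (a (c (l 16141144) (l 16177232)) (l 16154832)) (l 16157976))) (a (c (b (c (a (l 16215752) (l 16049480)) (l 15983376)) (c (a (c (l 16171872) (l 16149960)) (b (c (a (l 16062592) (l 15988000)) (l 15938936)) (c (l 16014144) (l 15992832)))) (a (l 16020120) (b (l 15980984) (l 15974704))))) (b (l 16063056) (b (c (l 16040944) (l 15885976)) (a (l 16104312) (l 15960968))))) (b (c (c (l 16068152) (l 16152048)) (l 16142560)) (a (c (c (c (b (l 16001400) (l 16025152)) (l 15933088)) (l 15967104)) (c (l 16000120) (b (l 15999280) (l 15984080)))) (c (c (a (a (b (l 16125872) (l 16103488)) (l 16152600)) (l 16210408)) (a (l 16125960) (l 16204440))) (b (c (l 16170960) (l 16101424)) (a (l 16082576) (l 16180560)))))))), by decide +kernel⟩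

def k8_pm_022_a : ∃ t, chk3 f_pm_022_a t 20 15 1 = true :=
  ⟨(a (c (c (c (b (a (l 16150904) (b (l 15964872) (l 15910224))) (a (b (l 16114856) (l 16082240)) (b (l 15973216) (l 15949616)))) (b (a (l 16130688) (a (l 16021616) (l 15948872))) (a (l 16086720) (l 15954840)))) (b (a (l 16076328) (l 15973736)) (a (l 16079512) (l 15884424)))) (b (c (l 15928248) (a (l 16094912) (l 15954840))) (c (a (l 16071432) (l 15874416)) (b (l 15944408) (a (l 16052008) (l 15916496)))))) (c (a (b (c (b (l 15903432) (l 15991520)) (l 15989280)) (c (b (l 15965064) (l 15923712)) (l 15870264))) (b (c (a (a (l 16075488) (l 16107576)) (l 16155392)) (a (l 16082888) (l 16148184))) (c (a (a (l 15987824) (l 16011480)) (l 16051656)) (a (l 15990096) (l 16042776))))) (a (b (c (l 15979952) (b (l 15977752) (l 15963040))) (c (b (l 15945184) (l 15902480)) (b (l 15935240) (l 15891864)))) (b (c (a (l 16074808) (l 16140976)) (a (a (l 16050608) (l 16084008)) (l 16133760))) (c (a (l 15959560) (l 16033904)) (a (a (l 15958648) (l 15983240))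 (l 16025032))))))), by decide +kernel⟩

def k9_pm_022_a : ∃ t, chk3 f_pm_022_a t 21 7 1 = true :=
  ⟨(b (b (a (c (a (l 16349176) (l 16579368)) (l 16350008)) (c (l 16362464) (l 16272208))) (b (a (c (l 16339256) (l 16353224)) (c (l 16557344) (l 16449840))) (c (a (b (l 16381696) (c (l 16262744) (l 16342504))) (c (l 16452112) (l 16514872))) (a (b (l 16374680) (c (l 16338376) (l 16250368))) (c (l 16514728) (c (l 16514464) (l 16472456))))))) (c (a (c (b (a (l 16246656) (l 16363944)) (c (l 16080904) (l 16161248))) (b (l 16258472) (l 16114000))) (b (c (l 16347760) (l 16387800)) (c (c (l 16246800) (l 16307640)) (l 16262592)))) (a (c (b (l 16232344) (l 16044008)) (b (a (l 16228760) (l 16350920)) (b (l 16177904) (l 16064056)))) (b (c (l 16385912) (c (l 16384440) (l 16362536))) (c (l 16237472) (b (l 16315840) (l 16191776))))))), by decide +kernel⟩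

def k10_pm_022_a : ∃ t, chk3 f_pm_022_a t 11 1 2 = true :=
  ⟨(b (a (b (a (c (b (l 15572792) (l 15614192)) (l 15465376)) (b (l 15413640) (l 15441480))) (a (b (c (l 15684536) (l 15694080)) (l 15669488)) (b (l 15469928) (l 15584672)))) (b (a (b (l 15387352) (l 15416584)) (l 15575600)) (a (b (l 15476848) (l 15571552)) (l 15699648)))) (a (b (b (a (b (l 15862576) (l 15927952)) (l 15714816)) (a (l 16060208) (l 15879112))) (b (b (a (l 16220528) (l 16027360)) (a (a (b (l 16398008) (l 16408304)) (l 16341800)) (l 16181760))) (a (b (c (a (l 16514936) (l 16429536)) (l 16396048)) (c (l 16374720) (l 16436696))) (b (c (a (l 16403616) (l 16294696)) (l 16301880)) (c (l 16348544) (l 16430016)))))) (a (b (b (l 15697384) (l 15846352)) (b (b (l 15975248) (l 16114592)) (a (c (a (a (a (l 16240624) (l 16107232)) (l 16264608)) (l 16287224)) (b (l 16240888) (l 16419016))) (c (l 16311032) (l 16348544))))) (b (b (l 15859168) (l 15991104)) (b (l 16029368) (b (l 16395424) (l 16499664))))))), by decide +kernel⟩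

def k11_pm_022_a : ∃ t, chk3 f_pm_022_a t 11 1 3 = true :=
  ⟨(b (a (b (a (l 15603320) (l 15407288)) (a (l 15723840) (b (l 15472504) (l 15559544)))) (b (a (a (l 15327920) (l 15407936)) (l 15544392)) (a (b (l 15443072) (l 15540240)) (l 15671664)))) (a (b (b (a (l 15879592) (l 15687760)) (a (l 16001160) (l 15856232))) (b (a (b (l 16102600) (a (c (l 16398048) (l 16331912)) (l 16331928))) (b (c (l 16013064) (l 15961600)) (l 15978248))) (a (b (c (l 16352496) (b (c (l 16417024) (l 16374000)) (l 16432528))) (c (l 16414784) (a (l 16419800) (l 16491136)))) (b (c (l 16192016) (b (c (l 16293008) (l 16185352)) (l 16270448))) (c (l 16364688) (a (l 16436152) (l 16330872))))))) (b (b (a (l 15669336) (l 15835328)) (a (c (l 15828216) (l 15627384)) (l 15970680))) (b (c (b (l 15986224) (l 16167608)) (b (b (l 15863008) (l 15922224)) (a (l 16051512) (l 16225408)))) (b (a (c (a (a (l 16220520) (l 16248080)) (l 16295552)) (a (a (a (c (l 16211848) (l 16145544)) (l 16217408)) (l 16241696)) (l 16289792))) (c (l 16388616)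 (l 16279216))) (c (a (a (l 16352208) (l 16472616)) (l 16517864)) (a (a (a (a (l 16310728) (l 16401512)) (l 16424344)) (l 16448552)) (l 16453096)))))))), by decide +kernel⟩

def k12_pm_022_a : ∃ t, chk3 f_pm_022_a t 3 2 1 = true :=
  ⟨(a (a (b (c (a (a (l 15748696) (l 15906168)) (l 16110840)) (a (l 15802440) (l 16093536))) (c (a (b (l 15893352) (l 15971136)) (b (l 16167800) (l 16237248))) (a (b (l 15870392) (l 15950200)) (l 16084440)))) (a (b (c (l 16282744) (l 16355968)) (c (a (b (l 16358432) (l 16424344)) (l 16471400)) (a (l 16382992) (l 16506488)))) (b (c (l 16583904) (l 16600392)) (c (a (l 16566416) (b (l 16709552) (l 16750552))) (a (l 16604520) (b (l 16707792) (l 16749856))))))) (a (b (c (a (a (l 16755040) (l 16777216)) (l 16777216)) (a (l 16721968) (l 16777216))) (c (a (b (l 16774608) (l 16777200)) (c (l 16777208) (l 16777208))) (a (b (l 16774544) (l 16777200)) (l 16777208)))) (c (b (a (l 16777216) (b (l 16777216) (l 16777216))) (c (a (l 16777208) (l 16777208)) (l 16777208))) (b (a (l 16777216)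 (l 16777216)) (c (l 16777208) (l 16777208)))))), by decide +kernel⟩

def k13_pm_022_a : ∃ t, chk3 f_pm_022_a t 6 6 1 = true :=
  ⟨(a (c (a (b (l 16070184) (l 16190480)) (b (a (l 16265680) (l 16390528)) (a (l 16379968) (c (l 16502600) (l 16499008))))) (a (b (l 16051816) (l 16133304)) (b (l 16317000) (a (l 16369648) (l 16493624))))) (a (a (c (b (c (l 16512720) (l 16509264)) (c (l 16534408) (l 16595248))) (b (l 16504072) (l 16550192))) (b (c (l 16585120) (l 16623168)) (c (b (l 16659024) (c (l 16682136) (l 16744632))) (b (l 16698984) (l 16723032))))) (c (b (a (b (l 16715256) (l 16727648)) (l 16775048)) (b (a (l 16770264) (l 16777176)) (l 16777168))) (b (a (l 16707056) (l 16774992)) (a (l 16729656) (l 16777168)))))), by decide +kernel⟩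

def k14_pm_022_a : ∃ t, chk3 f_pm_022_a t 12 7 1 = true :=
  ⟨(b (a (c (b (l 16259968) (l 16385496)) (b (l 16142808) (l 16292888))) (a (c (b (l 16485392) (l 16560608)) (b (l 16477856) (l 16535560))) (c (b (c (l 16561408) (l 16601104)) (l 16608704)) (b (l 16555784) (l 16649696))))) (a (c (b (a (l 16471208) (l 16542424)) (c (l 16491368) (l 16469624))) (b (c (a (l 16508744) (l 16603344)) (b (l 16442152) (l 16477792))) (c (l 16426904) (c (l 16447296) (l 16425936))))) (b (c (a (b (l 16700184) (l 16583504)) (a (l 16540952) (c (l 16486368) (l 16525976)))) (a (c (l 16585640) (l 16543304)) (b (l 16603216) (c (l 16540808) (l 16496248))))) (c (a (c (l 16458504) (l 16434216)) (a (a (l 16409736) (l 16421864)) (l 16397560))) (a (c (l 16409928) (b (l 16543608) (l 16394928))) (c (a (l 16400944) (l 16432920)) (b (l 16454008) (l 16392296)))))))), by decide +kernel⟩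

def k15_pm_022_a : ∃ t, chk3 f_pm_022_a t 13 7 1 = true :=
  ⟨(b (c (a (b (a (c (a (l 16624632) (l 16657144)) (l 16608536)) (b (c (l 16749032) (l 16769912)) (l 16730216))) (a (c (a (l 16623704) (l 16644352)) (a (l 16643928) (l 16664160))) (l 16660464))) (b (c (l 16763776) (l 16763600)) (c (l 16682064) (l 16680816)))) (a (b (a (b (l 16668696) (l 16693112)) (b (l 16769768) (l 16750520))) (a (c (l 16614000) (l 16613096)) (l 16678952))) (b (c (l 16763424) (l 16763248)) (l 16637008)))) (c (a (a (b (b (c (l 16604232) (l 16601976)) (c (a (l 16543168) (l 16543168)) (l 16540112))) (c (a (l 16441672) (l 16441672)) (l 16437280))) (b (c (l 16573320) (l 16570656)) (c (l 16441672) (l 16437280)))) (b (a (l 16571992) (l 16571992)) (c (b (l 16477712) (l 16406024)) (l 16395336)))) (a (b (a (b (l 16598592) (c (l 16537048) (l 16533992))) (c (l 16567992) (l 16565328))) (c (a (l 16432896) (l 16432896)) (a (l 16428512) (l 16428512)))) (b (c (l 16567992) (l 16565328)) (c (b (l 16469880) (l 16396320)) (b (l 16465968)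 (l 16391472))))))), by decide +kernel⟩

def k16_pm_022_a : ∃ t, chk3 f_pm_022_a t 7 3 1 = true :=
  ⟨(b (c (a (c (a (l 16777184) (l 16777184)) (a (l 16777184) (l 16777184))) (c (a (l 16777184) (l 16777184)) (a (l 16777184) (l 16777184)))) (a (c (a (l 16777184) (l 16777184)) (b (l 16777192) (l 16777168))) (c (b (l 16777192) (l 16777168)) (b (l 16777192) (l 16777168))))) (b (c (a (c (b (a (l 16763776) (l 16763776)) (a (l 16682064) (l 16682064))) (b (a (l 16763600) (l 16763600)) (l 16680816))) (b (c (a (l 16763776) (l 16763776)) (l 16721656)) (c (l 16640120) (l 16680816)))) (a (c (b (l 16721480) (l 16658600)) (b (a (l 16763248) (l 16763248)) (l 16636384))) (b (c (l 16742456) (l 16721304)) (c (l 16679576) (l 16657360))))) (c (a (b (c (l 16573320) (l 16570656)) (a (c (l 16420696) (l 16437280)) (c (l 16441672) (l 16437280)))) (b (c (l 16573320) (l 16570656)) (a (b (l 16475752) (l 16403600)) (c (l 16441672) (l 16437280))))) (a (b (c (l 16567992) (l 16544360)) (c (a (l 16390952) (l 16369984)) (a (b (l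 16465968) (l 16391472)) (b (l 16465968) (l 16391472))))) (b (c (l 16567992) (l 16544360)) (c (a (l 16432896) (l 16432896)) (a (b (l 16465968) (l 16391472)) (l 16407536)))))))), by decide +kernel⟩

theorem s17_pm_022_a : ∃ t, chk3 f_pm_022_a t 6 7 1 = true := ex3_a k14_pm_022_a k15_pm_022_a

theorem s18_pm_022_a : ∃ t, chk3 f_pm_022_a t 6 3 1 = true := ex3_b k13_pm_022_a s17_pm_022_a

theorem s19_pm_022_a : ∃ t, chk3 f_pm_022_a t 3 3 1 = true := ex3_a s18_pm_022_a k16_pm_022_a

theorem s20_pm_022_a : ∃ t, chk3 f_pm_022_a t 3 1 1 = true := ex3_b k12_pm_022_a s19_pm_022_a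

theorem s21_pm_022_a : ∃ t, chk3 f_pm_022_a t 11 1 1 = true := ex3_c k10_pm_022_a k11_pm_022_a

theorem s22_pm_022_a : ∃ t, chk3 f_pm_022_a t 20 7 1 = true := ex3_b k7_pm_022_a k8_pm_022_a

theorem s23_pm_022_a : ∃ t, chk3 f_pm_022_a t 10 7 1 = true := ex3_a s22_pm_022_a k9_pm_022_a

theorem s24_pm_022_a : ∃ t, chk3 f_pm_022_a t 10 3 1 = true := ex3_b k6_pm_022_a s23_pm_022_a

theorem s25_pm_022_a : ∃ t, chk3 f_pm_022_a t 10 1 1 = true := ex3_b k5_pm_022_a s24_pm_022_a

theorem s26_pm_022_a : ∃ t, chk3 f_pm_022_a t 5 1 1 = true := ex3_a s25_pm_022_a s21_pm_022_a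

theorem s27_pm_022_a : ∃ t, chk3 f_pm_022_a t 4 15 1 = true := ex3_b k3_pm_022_a k4_pm_022_a

theorem s28_pm_022_a : ∃ t, chk3 f_pm_022_a t 4 7 1 = true := ex3_b k2_pm_022_a s27_pm_022_a

theorem s29_pm_022_a : ∃ t, chk3 f_pm_022_a t 4 3 1 = true := ex3_b k1_pm_022_a s28_pm_022_a

theorem s30_pm_022_a : ∃ t, chk3 f_pm_022_a t 4 1 1 = true := ex3_b k0_pm_022_a s29_pm_022_a

theorem s31_pm_022_a : ∃ t, chk3 f_pm_022_a t 2 1 1 = true := ex3_a s30_pm_022_a s26_pm_022_a

theorem s32_pm_022_a : ∃ t, chk3 f_pm_022_a t 1 1 1 = true := ex3_a s31_pm_022_a s20_pm_022_a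

theorem c_pm_022_a : CertFX 0 536870912 0 420477299 1046898278 26843546 true true false .pp 0 2 2
    ndF0q0 ndF1q2a pcF2 Cut.none Ext.none :=
  certFX2 (fam := true) (s1 := true) (s2 := false) (a := 0) (b := 2) (c := 2) (cn := .pp) (n1 := ndF0q0) (n2 := ndF1q2a) (pc := pcF2) (cut := Cut.none) (xt := Ext.none) (P1 := 0) (W1 := 536870912) (P2 := 0) (W2 := 420477299) (P3 := 1046898278) (W3 := 26843546)
    rfl (fun _ => rfl) s32_pm_022_a

noncomputable def f_pm_022_b : ℕ → ℕ → ℕ → ℕ → Bool := onCell 0 536870912 1073741824 536870912 1046898278 26843546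
    (rowFX 1 true true false .pp 0 2 2 (qsf 0 536870912 1239849684 370763052 2) ndF0q0 ndF1q2b pcF2 Cut.none Ext.none)

def k0_pm_022_b : ∃ t, chk3 f_pm_022_b t 1 2 1 = true :=
  ⟨(b (l 1) (a (a (b (a (b (b (l 1) (b (l 1) (a (a (a (c (l 16220064) (l 16137952)) (l 1)) (l 1)) (l 1)))) (a (c (a (l 343628464983) (b (l 226591194407) (l 299068068119))) (a (c (l 361345192583) (b (l 15830816) (l 15615232))) (b (l 258803507271) (l 323227296823)))) (b (l 1) (c (a (c (l 15873984) (l 15878136)) (l 1)) (l 259340094263))))) (l 1)) (b (a (a (c (a (l 15130864) (b (l 15405600) (l 15093112))) (a (c (l 15109400) (l 15107184)) (c (l 15151864) (l 15249384)))) (c (a (c (l 306583562023) (l 320542241415)) (b (l 225516693207) (l 293698672183))) (l 342554054439))) (a (a (c (l 211558022919) (l 273834995447)) (l 1)) (l 1))) (a (c (c (a (l 14869304) (a (l 15063120) (b (l 15226672) (l 15225760)))) (a (l 14858808) (a (l 15075952) (l 15224888)))) (a (a (c (l 14775904) (l 14768408)) (l 14851664)) (b (l 15132064) (l 15131104))))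 (a (c (a (b (b (l 15367096) (l 15365224)) (l 15365224)) (b (l 238401931687) (l 15534632))) (b (l 359733926151) (l 15416312))) (c (b (l 1) (l 15791696)) (l 377451324087)))))) (l 1)) (l 1))), by decide +kernel⟩

def k1_pm_022_b : ∃ t, chk3 f_pm_022_b t 1 3 1 = true :=
  ⟨(a (b (a (a (c (b (a (l 14867920) (c (a (l 15062672) (l 15225760)) (l 15149096))) (a (l 14867920) (l 15149528))) (b (a (c (l 14852904) (l 14847848)) (l 15131104)) (a (l 14833056) (l 15131104)))) (c (b (a (a (l 15365224) (l 15534624)) (b (l 309268919383) (l 15791688))) (a (l 15440344) (l 15791688))) (b (a (l 15416312) (b (l 15766096) (l 15766096))) (a (l 15416312) (l 15766096))))) (a (b (a (c (l 364030355911) (l 459056465895)) (b (l 1) (c (l 311954406455) (l 405906790631)))) (c (b (a (l 16080000) (l 404296223367)) (l 16127224)) (b (a (l 16061896) (l 16326416)) (l 16196400)))) (b (l 1) (a (b (c (l 348998992935) (l 466036830951)) (l 422550322871)) (b (l 1) (a (l 310344900855) (l 1))))))) (a (a (a (c (l 14867920) (b (l 14854024) (l 14854024)))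 (b (c (l 15149528) (l 15131104)) (l 14882520))) (b (a (l 15386176) (l 15778896)) (a (l 15428120) (l 15778896)))) (a (a (b (l 16070944) (l 16070944)) (b (l 16248232) (l 16332120))) (b (a (c (l 16578104) (l 16572936)) (c (l 412887174743) (a (l 16743320) (l 16777216)))) (a (c (l 16578104) (l 16572936)) (c (l 16760864) (l 16760440))))))) (b (l 1) (a (a (b (a (c (l 349536483719) (l 420403444071)) (b (l 1) (a (l 437583347623) (l 1)))) (c (a (b (l 16777216) (l 16777216)) (b (l 474090569655) (l 16777216))) (a (l 16777216) (b (l 491807309751) (l 16777216))))) (b (l 1) (a (c (b (l 395707415031) (l 552473722807)) (l 520798338039)) (b (l 1) (c (l 411276671479) (l 448320764375)))))) (l 1)))), by decide +kernel⟩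

theorem s2_pm_022_b : ∃ t, chk3 f_pm_022_b t 1 1 1 = true := ex3_b k0_pm_022_b k1_pm_022_b

theorem c_pm_022_b : CertFX 0 536870912 1239849684 370763052 1046898278 26843546 true true false .pp 0 2 2
    ndF0q0 ndF1q2b pcF2 Cut.none Ext.none :=
  certFX1 (fam := true) (s1 := true) (s2 := false) (a := 0) (b := 2) (c := 2) (cn := .pp) (n1 := ndF0q0) (n2 := ndF1q2b) (pc := pcF2) (cut := Cut.none) (xt := Ext.none) (P1 := 0) (W1 := 536870912) (P2 := 1239849684) (W2 := 370763052) (P3 := 1046898278) (W3 := 26843546)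
    rfl (fun _ => rfl) s2_pm_022_b

noncomputable def f_pm_023_a : ℕ → ℕ → ℕ → ℕ → Bool := onCell 0 536870912 0 420477299 1046898278 26843546
    (rowFX 0 true true false .up 0 2 3 (qsf 0 536870912 0 420477299 3) ndF0q0 ndF1q2a pcF3 Cut.none Ext.none)

def k0_pm_023_a : ∃ t, chk3 f_pm_023_a t 2 1 1 = true :=
  ⟨(l 1), by decide +kernel⟩

def k1_pm_023_a : ∃ t, chk3 f_pm_023_a t 6 1 1 = true :=
  ⟨(a (l 1) (a (b (b (l 1) (l 1)) (l 1)) (b (b (c (b (c (l 16777216) (l 16777216)) (l 16777216)) (b (l 20971520007) (l 16777216))) (c (c (l 16777208) (l 16777208)) (l 16777208))) (b (a (l 1) (c (l 16777184) (l 16777184))) (l 1))))), by decide +kernel⟩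

def k2_pm_023_a : ∃ t, chk3 f_pm_023_a t 14 1 1 = true :=
  ⟨(a (b (b (c (b (c (l 16777216) (l 16777216)) (l 16777216)) (b (c (l 16777216) (l 16777216)) (l 16777216))) (c (c (l 16777208) (l 16777208)) (l 16777208))) (b (c (c (l 16777184) (l 16777184)) (c (l 16777184) (l 16777184))) (a (l 1) (b (c (b (l 16763688) (l 16681440)) (b (l 16742368) (l 16678952))) (l 1))))) (b (b (c (b (c (l 16777216) (l 16777216)) (b (a (l 16777216) (l 16777216)) (l 16777216))) (b (c (l 16777216) (l 16777216)) (c (l 16777216) (l 16777216)))) (c (c (l 16777208) (l 16777208)) (c (l 16777208) (l 16777208)))) (b (c (c (l 16777184) (l 16777184)) (c (l 16777184) (l 16777184))) (b (c (b (c (l 16763776) (l 16763600)) (l 16681440)) (b (c (l 16763424) (l 16763248)) (l 16657976))) (b (c (l 16571992) (l 16503744)) (a (l 1) (c (l 16418504) (b (l 16467920) (l 16393896))))))))), by decide +kernel⟩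

def k3_pm_023_a : ∃ t, chk3 f_pm_023_a t 15 1 1 = true :=
  ⟨(b (b (c (a (b (c (l 16777216) (l 16777216)) (c (b (l 16777216) (l 16777216)) (b (l 16777216) (l 16777216)))) (b (c (l 16777216) (l 16777216)) (c (a (l 16777216) (l 16777216)) (b (l 16777216) (l 16777216))))) (a (b (c (l 16777216) (l 16777216)) (c (b (l 16777216) (l 16777216)) (l 16777216))) (c (b (l 16777216) (l 16777216)) (b (l 16777216) (l 16777216))))) (c (a (c (b (l 16777208) (l 16777200)) (l 16777208)) (b (c (l 16777208) (l 16777208)) (l 16777200))) (a (c (l 16777208) (l 16777208)) (b (c (l 16777208) (l 16777208)) (l 16777200))))) (b (c (a (c (b (l 16777192) (l 16777176)) (l 16777184)) (c (l 16777184) (l 16777184))) (a (c (l 16777184) (l 16777184)) (c (l 16777184) (l 16777184)))) (b (b (c (c (a (l 16763776) (l 16763776)) (a (l 16763600) (l 16763600))) (c (a (l 16763424) (l 16763424)) (a (l 16763248) (l 16763248)))) (c (a (l 16660464) (l 16639496)) (c (l 16637632) (a (l 16678328) (l 16678328))))) (b (c (c (l 16573320) (l 16570656))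 (c (l 16567992) (a (l 16565328) (l 16565328)))) (c (a (c (l 16441672) (l 16437280)) (l 16439472)) (a (c (l 16432896) (l 16386568)) (c (l 16432896) (l 16428512)))))))), by decide +kernel⟩

theorem s4_pm_023_a : ∃ t, chk3 f_pm_023_a t 7 1 1 = true := ex3_a k2_pm_023_a k3_pm_023_a

theorem s5_pm_023_a : ∃ t, chk3 f_pm_023_a t 3 1 1 = true := ex3_a k1_pm_023_a s4_pm_023_a

theorem s6_pm_023_a : ∃ t, chk3 f_pm_023_a t 1 1 1 = true := ex3_a k0_pm_023_a s5_pm_023_a

theorem c_pm_023_a : CertFX 0 536870912 0 420477299 1046898278 26843546 true true false .up 0 2 3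
    ndF0q0 ndF1q2a pcF3 Cut.none Ext.none :=
  certFX0 (fam := true) (s1 := true) (s2 := false) (a := 0) (b := 2) (c := 3) (cn := .up) (n1 := ndF0q0) (n2 := ndF1q2a) (pc := pcF3) (cut := Cut.none) (xt := Ext.none) (P1 := 0) (W1 := 536870912) (P2 := 0) (W2 := 420477299) (P3 := 1046898278) (W3 := 26843546)
    rfl s6_pm_023_a

noncomputable def f_pm_023_b : ℕ → ℕ → ℕ → ℕ → Bool := onCell 0 536870912 1610612736 536870912 1046898278 26843546
    (rowFX 1 true true false .up 0 2 3 (qsf 0 536870912 1239849684 370763052 3) ndF0q0 ndF1q2b pcF3 Cut.none Ext.none)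

def k0_pm_023_b : ∃ t, chk3 f_pm_023_b t 2 2 1 = true :=
  ⟨(a (b (a (b (c (l 14975528) (a (l 14854024) (l 15131104))) (a (l 2) (b (l 15134176) (l 2)))) (b (c (l 15648192) (l 15591368)) (c (l 15543336) (l 15591368)))) (a (l 2) (a (l 2) (b (b (l 15778896) (l 2)) (l 2))))) (b (b (a (c (l 16211104) (l 16196400)) (c (l 16671272) (l 16574144))) (a (c (l 16211104) (l 16196400)) (c (l 16671272) (a (l 16572936) (l 16760440))))) (b (c (a (l 16211104) (b (l 16671272) (l 16671272))) (a (b (l 16196400) (l 16196400)) (b (l 16668520) (l 16668520)))) (b (c (a (l 16211104) (l 16671272)) (a (l 16196400) (l 16647544))) (l 4))))), by decide +kernel⟩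

def k1_pm_023_b : ∃ t, chk3 f_pm_023_b t 3 2 1 = true :=
  ⟨(b (a (b (a (c (l 16777216) (l 16777216)) (a (c (b (l 16777216) (l 16777216)) (l 16777216)) (c (b (l 424698445783) (l 16777216)) (b (l 488049213367) (l 16777216))))) (c (a (l 16777216) (b (l 16777216) (l 16777216))) (a (l 16777216) (b (l 16777216) (l 16777216))))) (b (a (b (a (c (l 398391769591) (l 462816278999)) (l 1)) (a (c (l 397318029271) (l 456910700471)) (c (a (l 348462776311) (l 1)) (l 415034767831)))) (l 1)) (a (c (b (c (a (l 16777216) (l 389801836503)) (l 446710153143)) (a (l 16777216) (c (l 16777216) (l 16777216)))) (b (c (l 476774924215) (l 508450308023)) (c (l 16777216) (l 16777216)))) (b (a (a (c (l 333430390775) (l 422014091255)) (l 1)) (l 1)) (c (c (a (l 388728094727) (l 307123714567)) (a (l 419329736631) (l 345778420215))) (c (a (l 452078862263) (l 388191222231)) (a (l 486975471543) (l 435435862471)))))))) (b (a (c (a (l 16777216) (l 16777216)) (c (l 16777216) (l 16777216))) (a (c (b (c (l 16777216) (l 16777216)) (l 16777216))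 (b (l 16777216) (l 16777216))) (c (c (b (a (l 16777216) (l 375843192839)) (a (l 16777216) (b (l 16777216) (l 16777216)))) (b (a (l 16777216) (l 406444834823)) (c (l 16777216) (l 16777216)))) (c (b (a (l 16777216) (l 438120218631)) (c (l 16777216) (l 16777216))) (b (a (l 16777216) (l 469795602439)) (a (l 16777216) (l 16777216))))))) (c (a (b (l 16777216) (c (l 16777216) (l 16777216))) (b (a (l 16777216) (c (l 16777216) (l 16777216))) (a (l 16777216) (c (l 16777216) (l 16777216))))) (a (b (c (l 16777216) (l 16777216)) (c (l 16777216) (l 16777216))) (b (a (l 16777216) (c (l 16777216) (l 16777216))) (c (a (l 16777216) (l 16777216)) (a (l 16777216) (l 16777216)))))))), by decide +kernel⟩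

def k2_pm_023_b : ∃ t, chk3 f_pm_023_b t 1 3 1 = true :=
  ⟨(b (a (l 4) (b (a (l 4) (b (a (b (c (l 16777216) (l 16777216)) (l 4)) (c (c (l 16777216) (l 16777216)) (c (l 16777216) (l 16777216)))) (l 4))) (l 4))) (l 4)), by decide +kernel⟩

theorem s3_pm_023_b : ∃ t, chk3 f_pm_023_b t 1 2 1 = true := ex3_a k0_pm_023_b k1_pm_023_b

theorem s4_pm_023_b : ∃ t, chk3 f_pm_023_b t 1 1 1 = true := ex3_b s3_pm_023_b k2_pm_023_b

theorem c_pm_023_b : CertFX 0 536870912 1239849684 370763052 1046898278 26843546 true true false .up 0 2 3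
    ndF0q0 ndF1q2b pcF3 Cut.none Ext.none :=
  certFX1 (fam := true) (s1 := true) (s2 := false) (a := 0) (b := 2) (c := 3) (cn := .up) (n1 := ndF0q0) (n2 := ndF1q2b) (pc := pcF3) (cut := Cut.none) (xt := Ext.none) (P1 := 0) (W1 := 536870912) (P2 := 1239849684) (W2 := 370763052) (P3 := 1046898278) (W3 := 26843546)
    rfl (fun _ => rfl) s4_pm_023_b

noncomputable def f_pm_033 : ℕ → ℕ → ℕ → ℕ → Bool := onCell 0 536870912 1610612736 536870912 1046898278 26843546
    (rowFX 1 true true false .pnn 0 3 3 (qsf 0 536870912 1610612736 469762048 3) ndF0q0 ndF1q3 pcF3 Cut.none Ext.none)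

def k0_pm_033 : ∃ t, chk3 f_pm_033 t 1 1 1 = true :=
  ⟨(b (b (a (a (a (b (c (l 14975528) (l 235178976247)) (c (a (l 14867920) (l 15149528)) (a (l 14854024) (l 15131104)))) (b (c (l 15648192) (l 15591368)) (c (l 15543336) (l 15591368)))) (b (l 1) (a (c (l 16211104) (l 16196400)) (l 1)))) (l 1)) (b (a (a (a (c (a (l 14867920) (l 15149528)) (c (l 15010984) (l 14998360))) (c (c (l 15644928) (l 15613880)) (b (l 15591368) (l 15591368)))) (c (a (l 16211104) (l 323766349783)) (a (l 141765810263) (b (l 1) (l 16668520))))) (l 1)) (b (a (a (a (l 4) (c (l 15648192) (l 15591368))) (c (a (l 16211104) (l 16671272)) (a (l 16196400) (l 16626576)))) (l 1)) (a (l 4) (a (a (b (l 1) (l 4)) (l 1)) (l 1)))))) (b (a (l 4) (a (l 4) (b (l 1) (l 4)))) (l 4))), by decide +kernel⟩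

theorem c_pm_033 : CertFX 0 536870912 1610612736 469762048 1046898278 26843546 true true false .pnn 0 3 3
    ndF0q0 ndF1q3 pcF3 Cut.none Ext.none :=
  certFX1 (fam := true) (s1 := true) (s2 := false) (a := 0) (b := 3) (c := 3) (cn := .pnn) (n1 := ndF0q0) (n2 := ndF1q3) (pc := pcF3) (cut := Cut.none) (xt := Ext.none) (P1 := 0) (W1 := 536870912) (P2 := 1610612736) (W2 := 469762048) (P3 := 1046898278) (W3 := 26843546)
    rfl (fun _ => rfl) k0_pm_033

noncomputable def f_pm_101 : ℕ → ℕ → ℕ → ℕ → Bool := onCell 536870912 536870912 67108864 469762048 1046898278 26843546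
    (rowFX 2 true true false .npn 1 0 1 (qsf 536870912 536870912 67108864 469762048 1) ndF0q1 ndF1q0 pcF1 Cut.none Ext.none)

def k0_pm_101 : ∃ t, chk3 f_pm_101 t 1 1 1 = true :=
  ⟨(b (l 3) (l 3)), by decide +kernel⟩

theorem c_pm_101 : CertFX 536870912 536870912 67108864 469762048 1046898278 26843546 true true false .npn 1 0 1
    ndF0q1 ndF1q0 pcF1 Cut.none Ext.none :=
  certFX2 (fam := true) (s1 := true) (s2 := false) (a := 1) (b := 0) (c := 1) (cn := .npn) (n1 := ndF0q1) (n2 := ndF1q0) (pc := pcF1) (cut := Cut.none) (xt := Ext.none) (P1 := 536870912) (W1 := 536870912) (P2 := 67108864) (W2 := 469762048) (P3 := 1046898278) (W3 := 26843546)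
    rfl (fun _ => rfl) k0_pm_101

end Pool.Agent.Strip051.G.IE1.Tab.C.FA01

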