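import Pool.Agent.Strip051.G.IE1.Tab

/-! # Certificates F4 (generated) -/

set_option linter.all false
set_option maxRecDepth 100000

namespace Pool.Agent.Strip051.G.IE1.Tab.C.FA01

open Pool.Agent.Strip051.PB Pool.Agent.Strip051.PB.T
open Pool.Agent.Strip051.G.IE1.Tab

noncomputable def f_pm_102 : ℕ → ℕ → ℕ → ℕ → Bool := onCell 536870912 536870912 1073741824 536870912 1046898278 26843546
    (rowFX 1 true true false .npp 1 0 2 (qsf 536870912 536870912 67108864 469762048 2) ndF0q1 ndF1q0 pcF2 Cut.none Ext.none)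

def k0_pm_102 : ∃ t, chk3 f_pm_102 t 4 4 1 = true :=
  ⟨(l 3), by decide +kernel⟩

def k1_pm_102 : ∃ t, chk3 f_pm_102 t 10 4 1 = true :=
  ⟨(l 3), by decide +kernel⟩

def k2_pm_102 : ∃ t, chk3 f_pm_102 t 11 8 1 = true :=
  ⟨(l 3), by decide +kernel⟩

def k3_pm_102 : ∃ t, chk3 f_pm_102 t 11 18 1 = true :=
  ⟨(l 3), by decide +kernel⟩

def k4_pm_102 : ∃ t, chk3 f_pm_102 t 11 38 1 = true :=
  ⟨(l 3), by decide +kernel⟩

def k5_pm_102 : ∃ t, chk3 f_pm_102 t 11 78 1 = true :=
  ⟨(a (l 3) (a (l 3) (b (b (l 3) (b (l 3) (a (l 3) (c (c (l 742123372551) (l 705616150535)) (c (l 679846346759) (l 657834639367)))))) (b (a (l 3) (c (c (c (l 523080040407) (l 504289558535)) (a (b (l 729238470663) (l 488183431127)) (c (l 387251699671) (l 367387475927)))) (c (c (a (l 546702360583) (l 343765155799)) (l 418390212535)) (c (l 393157279671) (l 16777216))))) (c (c (a (c (l 568714067975) (a (l 654613413895) (l 433959469015))) (c (l 16777208) (l 16777208))) (c (a (a (l 632601706503) (l 422685179863)) (l 16777208)) (a (a (l 610589999111)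 (l 408726536151)) (l 16777208)))) (c (a (c (a (l 588041420807) (l 392620408791)) (l 464024240087)) (c (l 16777208) (l 16777208))) (c (l 317995351975) (l 16777216)))))))), by decide +kernel⟩

def k6_pm_102 : ∃ t, chk3 f_pm_102 t 22 79 1 = true :=
  ⟨(b (l 3) (a (l 3) (b (a (l 3) (c (c (c (a (l 805474140167) (l 506437042167)) (a (l 775409369095) (b (l 694878732295) (l 16777216)))) (c (b (l 743197114375) (a (l 675014508551) (l 16777216))) (b (l 714742956039) (a (l 646023479303) (l 16777216))))) (c (c (b (l 686825668615) (l 467782336471)) (l 530596233223)) (c (l 502142074839) (l 16777216))))) (c (c (c (a (b (l 814600945671) (l 563345358839)) (l 16777216)) (a (b (l 783462432775) (a (l 666424573959) (l 16777216))) (l 242833424391))) (c (a (b (l 753934532615) (a (l 640654770183) (l 16777216))) (l 228874780679)) (a (b (l 724406632455) (a (l 615421837319) (l 16777216))) (l 213305524231)))) (c (a (c (b (l 695952474119) (l 453823692759)) (l 530059362311)) (c (l 16777216) (l 16777216))) (c (l 370608701367) (l 16777216))))))),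 by decide +kernel⟩

def k7_pm_102 : ∃ t, chk3 f_pm_102 t 23 79 1 = true :=
  ⟨(c (b (a (b (a (l 3) (c (c (l 610053128199) (a (l 704005537799) (l 463487369175))) (a (c (l 679846346759) (l 655687155719)) (c (l 450602467287) (l 436643823575))))) (c (c (a (l 645486608391) (l 16777216)) (a (a (l 745344598023) (l 483888463863)) (l 16777216))) (c (a (b (l 710447988743) (l 508584525831)) (l 16777216)) (a (b (l 684678184967) (l 482277851095)) (l 16777216))))) (c (c (b (l 16777208) (l 16777208)) (b (l 16777208) (l 16777208))) (c (b (l 211694911447) (l 16777208)) (b (l 16777208) (l 16777208))))) (c (c (a (b (l 16777208) (l 16777208)) (l 16777200)) (a (b (a (l 16777216) (l 16777208)) (l 16777208)) (l 16777200))) (c (a (b (a (l 239612198887) (l 16777208)) (l 16777208)) (l 16777200)) (a (b (a (l 16777216) (l 16777208)) (l 16777208)) (l 16777200))))) (b (c (a (b (a (l 3) (c (b (l 620790546439) (l 431275114455)) (l 488183431175))) (a (c (b (l 658908381191) (l 455434305495)) (l 513416364039)) (c (l 16777216) (l 16777216)))) (c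 (b (l 16777208) (l 16777208)) (b (l 16777208) (l 16777208)))) (c (a (b (l 558513520647) (l 356113186743)) (l 16777208)) (a (b (l 537038684167) (l 16777216)) (l 16777208)))) (c (c (b (a (l 180556398551) (l 16777200)) (l 16777208)) (b (a (l 16777208) (l 16777200)) (l 16777208))) (c (b (l 16777208) (l 16777208)) (l 16777208))))), by decide +kernel⟩

def k8_pm_102 : ∃ t, chk3 f_pm_102 t 6 8 1 = true :=
  ⟨(l 3), by decide +kernel⟩

def k9_pm_102 : ∃ t, chk3 f_pm_102 t 14 16 1 = true :=
  ⟨(l 3), by decide +kernel⟩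

def k10_pm_102 : ∃ t, chk3 f_pm_102 t 30 32 1 = true :=
  ⟨(l 3), by decide +kernel⟩

def k11_pm_102 : ∃ t, chk3 f_pm_102 t 30 66 1 = true :=
  ⟨(a (l 3) (a (l 3) (a (a (a (l 3) (l 1)) (l 1)) (l 1)))), by decide +kernel⟩

def k12_pm_102 : ∃ t, chk3 f_pm_102 t 30 134 1 = true :=
  ⟨(a (l 3) (a (a (b (l 3) (b (l 3) (c (c (c (c (l 190756316503) (a (l 3) (l 196125093543))) (l 16480680)) (l 175723896039)) (c (l 16421440) (l 16387672))))) (b (a (l 3) (b (l 3) (c (c (c (c (l 214378728631) (l 16521776)) (c (l 200956960679) (l 16514192))) (l 16492296)) (c (l 16457312) (l 16422592))))) (c (c (c (b (c (a (l 207399387335) (l 16548960)) (l 191830157175)) (c (l 16556832) (c (l 16557016) (b (l 16550264) (l 16561568))))) (b (a (l 195588239911) (c (l 16545472) (l 16538096))) (l 16547080))) (c (l 80160836151) (l 16462176))) (c (c (l 16467328) (l 16473088)) (l 16450576))))) (a (b (b (a (b (a (a (l 3) (a (l 3) (l 1))) (l 1)) (c (c (c (c (a (l 16531960) (l 16549408)) (l 134921875175)) (c (l 16535672) (l 126331939655))) (l 16509984))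 (c (l 16474816) (l 16440152)))) (l 1)) (c (c (c (c (a (a (l 16550544) (c (l 16568880) (l 16567088))) (c (l 16594544) (l 16592456))) (a (l 16557128) (l 16591160))) (c (a (a (l 16547192) (l 16564616)) (l 16589864)) (a (l 16550208) (l 16584456)))) (a (l 16529616) (l 16564784))) (c (a (l 16496864) (l 16533696)) (l 16485160)))) (c (c (c (b (a (c (l 16583696) (l 16583208)) (c (a (l 16609040) (l 16625864)) (l 16616752))) (c (a (l 16607576) (l 16640688)) (a (l 16607080) (c (l 16640824) (l 16639784))))) (b (c (a (l 16580376) (l 16614040)) (l 16590192)) (l 16615208))) (a (l 16566496) (b (l 16589464) (l 16612656)))) (c (a (l 16538392) (b (l 16561520) (l 16587880))) (a (l 16513376) (l 16500248))))) (a (b (l 1) (b (l 1) (b (l 1) (c (c (c (l 16679080) (l 16671424)) (l 16654144)) (l 16626240))))) (l 1))))), by decide +kernel⟩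

def k13_pm_102 : ∃ t, chk3 f_pm_102 t 60 135 1 = true :=
  ⟨(a (l 3) (a (b (l 3) (b (l 3) (c (c (l 178408250871) (l 16427208)) (l 173576239687)))) (c (b (c (c (b (l 3) (c (c (l 184850724359) (l 178408274887)) (l 16475368))) (l 171965765143)) (l 171965749687)) (c (c (b (c (a (l 181092665031) (l 180555861911)) (l 16495880)) (l 162302243751)) (l 146196077207)) (c (l 69423378839) (l 16467656)))) (b (c (l 16394568) (l 16361568)) (c (l 16405464) (l 16420816)))))), by decide +kernel⟩

def k14_pm_102 : ∃ t, chk3 f_pm_102 t 61 135 1 = true :=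
  ⟨(c (c (a (c (b (a (c (b (a (l 194514456215) (l 16533048)) (c (b (l 16535664) (l 16547200)) (b (l 190756430919) (l 16545328)))) (b (a (l 186461398103) (l 187535212791)) (l 16535248))) (c (b (l 16580872) (c (l 16603328) (l 16602208))) (b (c (l 16579848) (l 16576920)) (l 16597864)))) (a (b (a (l 16542832) (l 16572536)) (l 16575512)) (b (a (l 16603120) (l 16634240)) (l 16635152)))) (b (a (l 169818438775) (l 16578480)) (a (l 16554144) (l 16532024)))) (c (b (a (a (c (b (l 16630336) (c (l 16651272) (l 16650448))) (b (l 16628160) (l 16646696))) (b (c (l 16662656) (l 16660824)) (l 16679736))) (c (a (l 16640864) (l 205118025399)) (l 16715648))) (a (a (b (l 16665408) (l 16678856)) (l 16699792)) (a (l 16715944) (l 16701008)))) (a (b (a (l 16628792) (l 16661920)) (l 16678304)) (l 16694872)))) (a (b (a (c (l 79623944599) (l 16463384)) (l 16495568)) (a (l 16472216) (c (l 16520800) (l 16530416)))) (a (b (a (b (l 16600288) (l 16621552)) (b (l 16635200) (l 16655128))) (a (l 16649760) (l 16680640))) (b (l 16696304) (l 16698904)))))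 (a (c (b (a (c (l 16469664) (l 16455432)) (l 16533120)) (a (l 16511336) (a (l 16561680) (l 16577752)))) (b (a (l 16434192) (l 16510736)) (a (l 16489712) (a (l 16544896) (l 16586040))))) (a (c (b (c (a (l 16593512) (l 16630104)) (l 16562088)) (a (l 16636152) (l 16670816))) (b (c (l 16554840) (l 16547592)) (l 16606248))) (c (b (l 16683128) (l 16689360)) (l 16673152))))), by decide +kernel⟩

def k15_pm_102 : ∃ t, chk3 f_pm_102 t 31 16 1 = true :=
  ⟨(a (a (b (l 1) (b (l 1) (a (b (l 1) (b (l 1) (c (c (c (c (l 16701816) (l 16719680)) (l 16714552)) (l 16699904)) (l 255047029671)))) (l 1)))) (l 1)) (l 1)), by decide +kernel⟩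

def k16_pm_102 : ∃ t, chk3 f_pm_102 t 14 34 1 = true :=
  ⟨(a (l 3) (b (b (l 3) (a (l 3) (a (l 3) (a (l 3) (b (l 3) (c (c (c (b (l 151564658807) (l 16478952)) (l 115594271159)) (l 106467545367)) (c (l 16423272) (b (l 16349200) (l 16415872))))))))) (a (a (l 3) (b (l 3) (b (l 3) (c (a (l 3) (c (l 151027851959) (l 16452872))) (c (l 16416272) (l 16397672)))))) (a (b (b (l 3) (a (l 3) (c (c (c (l 156396551687) (l 16461328)) (l 16447008)) (c (l 16428016) (l 16388064))))) (c (b (c (a (l 153712201447) (c (l 16505272) (l 16496464))) (a (l 16449688) (l 16483672))) (c (a (c (l 16506120) (l 16497568)) (l 16529856)) (l 51169832999))) (b (c (l 16369584) (a (l 16412936) (c (l 16455000) (l 16446824)))) (c (l 16484208) (c (l 16472920) (l 16465400)))))) (c (b (b (c (a (b (l 16455096) (l 120426244423)) (c (l 69423479207) (l 16496152))) (a (l 16444896) (l 16482520))) (c (c (a (l 16505008) (l 16536800)) (l 52243564903)) (a (l 16482736) (l 16515552)))) (b (c (c (l 16550192) (l 16541536)) (l 16530088)) (c (a (l 16558344) (b (l 16580528)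 (l 16572664))) (a (l 16543736) (b (l 16567016) (l 16581504)))))) (b (b (c (a (l 16425304) (l 16465432)) (a (c (l 16410632) (l 16400848)) (c (l 16452760) (l 16444312)))) (c (l 16441312) (c (l 16471712) (a (l 16445128) (l 16483944))))) (b (c (l 16517288) (c (l 16507784) (l 16501456))) (c (a (l 16532144) (b (l 16557912) (l 16573824))) (a (l 16520600) (c (l 16559392) (b (l 16546600) (l 16564248)))))))))))), by decide +kernel⟩

def k17_pm_102 : ∃ t, chk3 f_pm_102 t 14 140 1 = true :=
  ⟨(a (l 3) (b (a (a (l 3) (c (c (a (l 137606070055) (c (l 16507480) (l 16499200))) (a (l 16456504) (l 16487320))) (c (l 16454528) (a (l 16422248) (l 16456192))))) (c (a (c (c (l 16546968) (l 16538584)) (l 16528104)) (c (a (b (l 16577664) (l 16589200)) (b (l 16585656) (l 16617416))) (a (l 16570312) (l 16561016)))) (a (c (l 16515224) (c (l 16505568) (l 16499128))) (a (c (l 16540192) (b (l 16545208) (c (l 16562392) (l 16558120)))) (a (c (l 16588240) (b (l 16573216) (l 16588936))) (l 16602760)))))) (c (a (a (c (c (l 101098757671) (l 16456896))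 (l 16443992)) (c (c (a (l 16509288) (l 16533936)) (l 16513240)) (l 16502216))) (a (c (c (a (l 16558848) (l 16583944)) (l 16541576)) (l 16532752)) (c (a (c (l 16590960) (l 16583560)) (l 16633464)) (a (l 16577496) (l 16626872))))) (a (a (c (l 16426800) (l 16409608)) (c (l 16487808) (c (l 16476992) (l 16469792)))) (a (c (l 16500928) (c (l 16534736) (l 16487368))) (c (a (b (l 16584176) (l 16598624)) (l 16624176)) (a (c (l 16586696) (b (l 16575008) (l 16590968))) (l 16621480)))))))), by decide +kernel⟩

def k18_pm_102 : ∃ t, chk3 f_pm_102 t 14 141 1 = true :=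
  ⟨(a (b (l 3) (a (l 3) (a (l 3) (c (c (a (l 3) (c (l 116668131943) (l 16479416))) (l 16453744)) (c (l 16438040) (l 16422328)))))) (c (a (a (c (b (a (l 108615052087) (c (l 16511488) (l 16503816))) (c (a (l 16512208) (l 16533848)) (l 16515368))) (b (l 16456904) (l 16505096))) (c (b (c (l 16546072) (l 16538384)) (c (l 16567000) (l 16559920))) (b (l 16528720) (l 16551600)))) (a (c (b (a (l 16578504) (c (l 16586560) (l 16600440))) (a (c (l 16602000) (l 16595464)) (l 16581928))) (b (a (l 16566904) (l 16594344)) (a (l 16589248) (l 16616608)))) (c (c (l 16652200) (l 16647640)) (l 16646560)))) (a (a (c (b (l 16462584) (l 16491432)) (b (a (l 16433168) (l 16463544)) (l 16456792))) (c (b (l 16516088) (l 16540584)) (b (l 16503448) (l 16529576)))) (a (c (b (a (l 16556944) (c (l 16588688) (l 16584912))) (a (l 16560120) (l 16611120))) (b (a (l 16546984) (c (l 16581136) (b (l 16569344) (l 16585152)))) (a (c (l 16574984) (l 16570904)) (c (l 16607000) (l 16604256))))) (c (l 16645816) (b (l 16631768) (l 16650296))))))), by decide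 +kernel⟩

def k19_pm_102 : ∃ t, chk3 f_pm_102 t 14 142 1 = true :=
  ⟨(a (a (l 3) (b (a (l 3) (c (c (a (l 16465624) (a (l 16504184) (l 16514000))) (l 16482616)) (c (l 16468560) (a (l 16443512) (l 16467640))))) (c (a (c (l 133311157447) (l 16465000)) (c (c (l 16522744) (l 16516272)) (l 16506856))) (a (l 152638376727) (c (l 16494288) (l 16481728)))))) (c (a (a (c (c (b (l 16541960) (l 16559664)) (l 16502592)) (b (l 16525944) (l 16545424))) (c (b (a (l 16570840) (c (l 16595656) (l 16589776))) (c (a (l 16590192) (l 16614528)) (a (l 16584888) (l 16610008)))) (b (a (l 16559880) (l 16583328)) (a (l 16578208) (l 16604768))))) (a (c (b (c (l 16569408) (l 16627728)) (l 16645304)) (b (a (l 16610712) (l 16635960)) (l 16641544))) (c (l 16625448) (l 16643608)))) (a (a (c (b (l 16513664) (l 16534464)) (b (l 16501376) (l 16523504))) (c (b (a (l 16549576) (l 16574728)) (a (l 16569304) (l 16597776))) (b (a (l 16539272) (c (l 16568280) (l 16563984))) (c (l 16535488) (a (l 16558176) (l 16589040)))))) (a (a (b (c (l 16604360) (b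 (l 16592040) (l 16602768))) (l 16621968)) (c (l 16642952) (l 16640672))) (c (l 16642136) (l 16640664)))))), by decide +kernel⟩

def k20_pm_102 : ∃ t, chk3 f_pm_102 t 14 143 1 = true :=
  ⟨(a (a (a (l 3) (c (c (b (l 3) (l 16489632)) (l 16442024)) (c (l 229947758759) (l 16437792)))) (c (b (c (a (c (l 16486184) (l 16500984)) (l 16537840)) (a (l 16491784) (l 16526528))) (c (a (l 16524560) (l 16554712)) (l 16528376))) (a (c (b (l 16479504) (l 16502600)) (b (l 16467232) (l 16491616))) (c (l 16525216) (c (l 16517280) (l 16511992)))))) (c (a (a (c (b (a (l 16564160) (c (l 16585640) (l 16580728))) (a (l 16580376) (b (l 16596688) (l 16605760)))) (b (a (l 16553808) (l 16573904)) (a (l 16571480) (b (l 16588528) (l 16598328))))) (a (b (c (c (l 16608760) (l 16604592)) (l 16599000)) (l 16619016)) (c (l 16636008) (l 16631080)))) (c (b (l 16590304) (l 16605088)) (l 16627584))) (a (a (c (b (a (l 16543616) (l 16564816)) (a (l 16562640) (l 16585936))) (b (a (l 16533424) (l 16555720)) (a (l 16553792) (c (l 16580128) (l 16576256)))))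 (b (a (c (l 16591536) (c (l 16585944) (l 16582216))) (l 16613960)) (l 16599224))) (c (l 16605176) (a (l 16642864) (l 16627336)))))), by decide +kernel⟩

def k21_pm_102 : ∃ t, chk3 f_pm_102 t 30 68 2 = true :=
  ⟨(b (a (a (a (l 3) (b (l 3) (c (b (c (l 166060235799) (l 16456120)) (c (l 96267019575) (l 16476448))) (b (l 16437752) (l 16459544))))) (c (b (a (c (a (l 169818357079) (l 169281545463)) (l 119352387895)) (c (l 16544960) (l 16533104))) (b (c (a (l 16518008) (l 16568992)) (l 16490040)) (c (a (l 16535536) (l 16585184)) (l 16465456)))) (b (a (c (l 16466272) (l 16453480)) (l 16515232)) (b (a (l 16489472) (l 16542048)) (a (l 16508616) (l 16560096)))))) (b (a (c (a (c (l 16515976) (l 16526008)) (c (l 16656784) (l 16648312))) (a (c (l 16535928) (l 16524864)) (c (l 16639728) (l 16631192)))) (c (a (l 16687032) (l 16700280)) (l 16656736))) (a (a (c (b (c (l 16622184) (l 16612848)) (a (l 16619552) (l 16644608))) (b (a (l 16583848) (l 16613608)) (a (l 16602112) (l 16629576)))) (c (l 16668072) (l 16655056))) (c (a (l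 16672512) (l 16684632)) (c (l 16664936) (l 16656408)))))) (a (a (c (c (b (a (b (l 172502669815) (l 16450128)) (l 119889453351)) (a (b (l 125795000919) (l 16517368)) (l 16550312))) (b (a (l 16397544) (l 16506112)) (b (l 16427408) (l 16486440)))) (b (a (c (l 16449592) (l 16438768)) (l 16448872)) (a (a (l 16454280) (l 16495856)) (l 16527808)))) (c (a (b (c (l 16562128) (l 16552336)) (c (a (l 16582200) (l 16604456)) (l 16584632))) (b (c (a (l 16597304) (l 16621880)) (l 16590504)) (c (l 16637104) (l 16630472)))) (a (b (l 16537848) (b (l 16564088) (l 16518256))) (b (c (l 16592168) (l 16584248)) (c (l 16623760) (l 16619160)))))) (a (c (a (l 16632024) (l 16652088)) (c (l 16641664) (l 16615360))) (c (a (l 16653528) (l 16663872)) (c (l 16643048) (l 16635592)))))), by decide +kernel⟩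

def k22_pm_102 : ∃ t, chk3 f_pm_102 t 30 69 2 = true :=
  ⟨(a (b (c (a (b (a (c (a (l 16531840) (l 16550672)) (l 16532544)) (c (b (l 16573112) (l 16586400)) (l 16550280))) (a (c (l 16570280) (l 16562080)) (c (a (l 16596568) (l 16614888)) (a (l 16589440) (l 16608616))))) (b (a (a (c (l 16610472) (l 16603296)) (l 16626352)) (l 16638472)) (l 16628368))) (a (b (a (c (l 16523808) (l 16516288)) (b (l 16553120) (l 16547152))) (a (l 16530384) (c (a (l 16582704) (l 16602784)) (l 16589960)))) (a (b (c (l 16607352) (l 16603496)) (l 16619360)) (l 16621520)))) (a (a (c (b (b (l 16544760) (l 16600464)) (b (l 16612792) (l 16623440))) (b (c (l 16583224) (l 16579488)) (l 16609672))) (c (b (l 16623032) (l 16621184)) (l 16594760))) (c (b (l 16615976) (l 16602976)) (b (l 16604960) (l 16592392))))) (a (c (b (b (l 16634432) (l 16620760)) (c (l 16604104) (l 16593440))) (b (c (l 16614544) (l 16610696)) (l 16553440))) (c (b (a (l 16625160) (b (l 16640832) (l 16625088))) (a (b (l 16601816) (l 16584760)) (a (l 16599288) (l 16602216))))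 (b (a (c (l 16609016) (l 16604432)) (b (l 16620176) (l 16584264))) (a (b (l 16584704) (l 16569112)) (b (l 16591168) (l 16575592))))))), by decide +kernel⟩

def k23_pm_102 : ∃ t, chk3 f_pm_102 t 30 35 2 = true :=
  ⟨(c (b (a (b (a (c (l 16630408) (l 16623824)) (c (a (l 16597256) (l 16583232)) (a (l 16588936) (l 16573808)))) (a (c (l 16620328) (l 16614384)) (c (l 16530016) (b (l 16567472) (l 16559928))))) (a (b (b (l 16575408) (c (l 16563984) (l 16552760))) (a (c (l 16543712) (l 16534856)) (c (l 16494544) (b (l 16534048) (l 16519048))))) (b (a (b (l 16527152) (c (l 16559192) (l 16546560))) (l 16566152)) (c (l 16534984) (l 16523776))))) (a (b (c (a (l 16605440) (l 16554768)) (l 16575616)) (a (c (l 16590560) (l 16588552)) (a (l 16551240) (b (l 16527488) (l 16521560))))) (a (b (a (c (b (l 16521168) (l 16511792)) (l 16511648)) (l 16498176)) (b (a (l 16502192) (l 16476872)) (l 16481104))) (a (b (l 16492440) (l 16459352)) (b (l 16496352) (l 16462208)))))) (b (a (b (a (l 16620440) (a (l 16584480) (l 16568808))) (a (l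 16612216) (l 16561464))) (a (b (b (l 16563504) (l 16548080)) (a (l 16531544) (b (l 16530472) (l 16516216)))) (b (b (l 16559248) (l 16544064)) (l 16520184)))) (a (b (l 16510712) (a (l 16586688) (a (l 16547728) (l 16520680)))) (a (a (b (b (l 16512280) (l 16504736)) (l 16494648)) (l 16481336)) (l 16472264))))), by decide +kernel⟩

def k24_pm_102 : ∃ t, chk3 f_pm_102 t 62 17 2 = true :=
  ⟨(b (b (b (a (a (c (c (c (a (l 16682856) (l 174516383943)) (l 16680080)) (l 16675624)) (b (l 16687848) (l 16673672))) (a (b (l 1) (c (c (l 16669784) (l 16689760)) (l 16674504))) (l 1))) (l 1)) (a (c (a (c (a (l 16673248) (l 16672880)) (l 16647216)) (c (b (l 16656616) (l 16663384)) (a (l 16671360) (l 16666376)))) (a (c (l 16655536) (b (l 16653320) (l 16639336))) (c (l 16661056) (b (l 16657312) (l 16645128))))) (a (a (c (l 202433577607) (l 231424601655)) (l 1)) (l 1)))) (a (c (b (a (a (b (l 16646480) (l 16629520)) (l 16636624)) (l 16636320)) (c (l 16604008) (l 16597480))) (b (b (c (l 16593400) (l 16629088)) (l 16615544)) (l 16570976)))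 (c (c (b (a (l 16635440) (b (l 1) (l 16625720))) (a (l 16599256) (l 16599856))) (a (l 16589992) (l 16600696))) (c (b (a (l 16604352) (l 16609992)) (a (l 16593832) (l 16584632))) (a (l 16611840) (l 16582752)))))) (b (c (a (c (b (l 16567312) (l 16529248)) (b (a (l 16564616) (l 16561840)) (l 16505400))) (b (a (l 16559136) (l 16556272)) (c (l 16520480) (l 16517280)))) (a (l 16545000) (a (l 16524696) (b (l 16558896) (l 16526256))))) (c (a (c (b (l 16490720) (c (l 16453104) (l 16456136))) (l 16476632)) (c (b (l 16480472) (l 16443456)) (l 16466768))) (a (l 16480424) (c (l 16475592) (l 16482584)))))), by decide +kernel⟩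

def k25_pm_102 : ∃ t, chk3 f_pm_102 t 63 17 2 = true :=
  ⟨(a (b (b (l 1) (a (a (b (l 1) (c (l 16591336) (l 16578896))) (l 1)) (l 1))) (b (c (c (a (b (l 16564952) (l 16523352)) (b (a (l 16569280) (l 1)) (l 16535624))) (b (a (l 16547984) (l 16547048)) (a (l 16513064) (l 16519632)))) (a (b (l 16552072) (l 16521584)) (a (l 16531984) (l 16531376)))) (c (a (c (b (l 16482000) (l 16444624)) (l 16461936)) (c (l 16455272) (l 16471296))) (a (a (l 16473224) (l 16470792)) (l 16432296))))) (b (l 1) (b (a (c (c (l 16509832) (l 240551118551)) (l 16534480)) (l 1)) (c (c (b (c (l 16503056) (l 16509512)) (c (l 16458592) (l 16473592))) (l 16486528)) (c (l 16485016) (l 16420872)))))), by decide +kernel⟩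

def k26_pm_102 : ∃ t, chk3 f_pm_102 t 30 68 3 = true :=
  ⟨(a (a (a (b (l 3) (b (c (l 16422752) (c (l 16406752) (l 16375120))) (c (l 16446960) (c (l 16455128) (a (l 48485380615) (l 16458808)))))) (b (b (l 3) (c (l 79086976519) (b (l 16388984) (l 16415536)))) (c (b (l 16471920) (l 16513248)) (b (l 16411664) (l 16499536))))) (b (c (b (a (l 16434696) (l 16493080)) (b (l 16495048) (l 16494800))) (b (a (l 16388872) (l 16472400)) (b (l 16434280) (a (l 16470912) (l 16530848))))) (c (a (b (l 16522048) (a (l 16549320) (l 16575520))) (b (c (l 16579264) (l 16553752)) (l 16616984))) (a (b (l 16507616) (c (l 16533968) (a (l 16536160) (l 16565664)))) (b (c (l 16549208) (l 16523688)) (a (l 16556512) (l 16629448))))))) (b (a (c (b (a (l 16512048) (l 16602912)) (a (b (l 16585424) (l 16606584)) (l 16649784))) (b (a (a (l 16522192) (l 16557424)) (a (l 16575712) (l 16636392))) (a (b (l 16533328) (l 16578968)) (l 16648752)))) (b (c (l 16669512) (l 16668168)) (c (l 16653272) (l 16651688)))) (a (c (l 16634504) (l 16590888)) (c (l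 16633392) (l 16631552))))), by decide +kernel⟩

def k27_pm_102 : ∃ t, chk3 f_pm_102 t 30 69 3 = true :=
  ⟨(a (b (c (a (b (a (l 16506312) (b (l 16542056) (l 16559448))) (a (l 16541064) (a (b (l 16565800) (l 16583456)) (l 16598104)))) (b (a (a (l 16566728) (l 16612208)) (l 16624392)) (l 16615040))) (a (b (a (c (l 16496336) (a (l 16477672) (l 16502160))) (c (l 16522360) (b (l 16529208) (l 16528528)))) (a (c (l 16533672) (l 16507768)) (c (a (l 16549288) (l 16595944)) (a (b (l 16557312) (l 16577720)) (l 16594496))))) (b (a (a (c (l 16583720) (l 16560088)) (l 16610168)) (l 16622912)) (l 16613296)))) (a (a (c (b (c (l 16576184) (l 16572880)) (l 16606352)) (b (c (l 16527640) (b (l 16535704) (l 16554848))) (c (l 16603912) (l 16560352)))) (c (l 16614184) (b (l 16572704) (l 16609696)))) (c (l 16575504) (b (l 16600352) (a (l 16591560) (l 16583512)))))) (a (c (b (l 16609088) (l 16581904)) (b (b (l 16613584) (l 16600176)) (l 16579400))) (b (c (a (l 16602760) (l 16587184)) (a (l 16600528) (b (l 16613488) (l 16599280)))) (c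 (a (l 16573128) (l 16581160)) (a (b (l 16579088) (l 16563592)) (a (l 16576528) (l 16579080))))))), by decide +kernel⟩

def k28_pm_102 : ∃ t, chk3 f_pm_102 t 31 34 3 = true :=
  ⟨(a (a (b (b (a (c (l 16670328) (b (l 16675992) (l 16663168))) (a (c (l 16668408) (l 16646088)) (l 1))) (a (c (l 16644232) (l 16621608)) (c (l 16648864) (l 16647312)))) (b (a (c (l 16616888) (l 16572968)) (l 16621368)) (l 16587528))) (a (b (l 259341892583) (b (l 16623928) (l 16595912))) (b (l 1) (c (l 16608680) (l 16606520))))) (a (a (b (l 1) (c (l 16555544) (l 16599304))) (l 1)) (l 1))), by decide +kernel⟩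

def k29_pm_102 : ∃ t, chk3 f_pm_102 t 15 70 3 = true :=
  ⟨(a (a (b (a (c (l 16618712) (c (l 16617416) (l 16616552))) (c (a (l 16582016) (l 16566104)) (a (b (l 16582192) (l 16575712)) (b (l 16569648) (l 16556544))))) (c (a (l 16610144) (b (l 16561712) (l 16554680))) (a (b (l 16610816) (l 16605256)) (b (l 16516992) (l 16551816))))) (b (a (c (b (l 16560728) (l 16545104)) (b (l 16557944) (l 16542128))) (a (c (b (l 16552728) (l 16538464)) (b (l 16549880) (l 16535448))) (l 16548608))) (a (c (a (l 16528352) (b (l 16527288) (l 16512848))) (a (b (l 16532920) (l 16517872)) (b (l 16524096) (l 16509488)))) (l 16515280)))) (a (a (b (l 16556336) (l 16524480)) (b (c (l 16568792) (l 16565920)) (l 16513160))) (a (a (c (b (l 16566072) (l 16513792)) (a (l 16552624) (b (l 16567304) (c (l 16537992) (l 16535496))))) (c (c (l 126734508295) (b (l 16560512) (l 16537896))) (a (c (l 16552312) (c (l 143377538135) (l 16551024))) (c (l 16551288) (l 164852371879))))) (a (a (a (c (l 16539176) (c (l 16548904) (l 16551136))) (l 1)) (l 1)) (l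 1))))), by decide +kernel⟩

def k30_pm_102 : ∃ t, chk3 f_pm_102 t 15 71 3 = true :=
  ⟨(a (a (b (c (a (l 16597496) (l 16544640)) (a (l 16595200) (l 16541648))) (c (a (l 16584200) (a (l 16544736) (l 16517344))) (a (l 16581712) (b (l 16529968) (l 16481504))))) (a (b (a (c (b (l 16508840) (l 16501200)) (b (l 16484432) (l 16497672))) (l 16486464)) (a (c (l 16491000) (l 16487344)) (l 16462376))) (b (l 16482520) (c (l 16452152) (l 16448072))))) (a (c (a (l 16476520) (l 16484736)) (b (l 16493432) (l 16459856))) (c (a (a (c (l 16484240) (l 16487768)) (c (l 16482312) (l 16447872))) (c (a (l 16481136) (l 16487856)) (a (b (l 16502968) (l 16468864)) (c (l 16486048) (b (l 16500272) (l 16471400)))))) (a (a (a (l 16485368) (c (l 16487800) (c (l 16443040) (l 16485728)))) (c (c (l 16493184) (a (l 16489856) (l 16492152))) (b (l 16507640) (c (l 16471112) (l 16472936))))) (c (a (c (a (l 16492592) (l 16487680)) (b (c (l 16509304) (a (l 16511880) (l 16511384))) (c (l 16475608) (l 16439496)))) (c (c (l 16486704) (l 16466456)) (l 16487128)))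 (a (a (b (l 16495208) (l 16460312)) (l 16493360)) (l 16490136))))))), by decide +kernel⟩

def k31_pm_102 : ∃ t, chk3 f_pm_102 t 12 18 1 = true :=
  ⟨(a (l 3) (a (l 3) (a (l 3) (b (l 3) (b (l 3) (b (l 3) (c (c (l 526838065239) (l 534354236087)) (c (l 539186073367) (l 541870426983))))))))), by decide +kernel⟩

def k32_pm_102 : ∃ t, chk3 f_pm_102 t 26 18 1 = true :=
  ⟨(b (l 3) (b (a (l 3) (b (a (l 3) (b (l 3) (c (l 387788246951) (l 411947437511)))) (c (c (l 332490570151) (a (l 408726251223) (l 16633872))) (c (a (l 423221765415) (l 238001292071)) (a (l 432348568183) (l 265918576343)))))) (b (c (a (a (l 3) (c (l 384567142727) (b (l 460802815607) (l 378661600583)))) (c (l 98951792311) (b (l 16661544) (l 16697992)))) (a (c (c (l 457044739799) (l 462950318823)) (c (l 467245306087) (l 469929659639))) (c (b (l 207399717623) (l 16696968)) (c (l 16667176) (l 16666616))))) (c (a (b (c (l 349133732071) (a (l 449528605863) (l 16725360))) (c (l 132774786839) (a (l 215989793047) (l 16740136)))) (c (l 16720984) (l 16699272)))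 (a (c (a (b (l 457581669639) (l 242833338871)) (b (l 16724688) (l 16739656))) (a (b (l 457581668423) (l 250886401783)) (b (l 16724016) (l 16739176)))) (c (c (l 16719696) (l 16719328)) (c (l 16718960) (l 16718592)))))))), by decide +kernel⟩

def k33_pm_102 : ∃ t, chk3 f_pm_102 t 54 18 1 = true :=
  ⟨(b (b (l 3) (a (l 3) (b (l 3) (a (b (l 3) (c (l 16587336) (l 320142426119))) (c (c (l 16574328) (l 200957011383)) (c (l 224042454631) (b (l 16554792) (l 16575552)))))))) (b (c (b (c (a (l 16616920) (l 16609368)) (a (l 16593848) (l 16607144))) (c (l 16644168) (l 16642432))) (b (c (a (l 241759301815) (l 16604928)) (a (l 271287202039) (l 16602704))) (c (l 16640696) (l 16638952)))) (c (b (c (b (l 16666936) (l 16679976)) (b (l 16665496) (l 16678704))) (c (a (l 16684688) (b (l 16687976) (l 16695344))) (a (b (l 16700112) (l 16712432)) (b (l 16686808) (l 16673304))))) (b (c (b (l 16664056) (l 16677432)) (b (l 16662616) (l 16676160))) (c (a (b (l 16699120) (l 16711600)) (b (l 16664664) (l 16672232))) (a (b (l 16698120) (l 16710760))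 (b (a (l 16689680) (l 16681304)) (l 16671160)))))))), by decide +kernel⟩

def k34_pm_102 : ∃ t, chk3 f_pm_102 t 55 18 1 = true :=
  ⟨(a (b (b (l 3) (c (b (c (a (l 16525848) (l 16524984)) (l 244443427639)) (c (l 16564352) (l 16538184))) (b (c (a (l 16512584) (l 16509872)) (a (l 16505944) (l 16502312))) (c (l 179482139495) (a (l 16552400) (l 16545496)))))) (c (b (b (c (a (l 16600216) (l 16597776)) (a (l 16597248) (l 16593952))) (c (a (l 16632552) (l 16630792)) (a (l 16630624) (l 16628704)))) (b (c (b (a (l 16654552) (l 16652008)) (l 16661560)) (b (a (l 16652952) (l 16650832)) (l 16639320))) (l 16661880))) (b (b (c (a (l 16594280) (l 16590120)) (a (l 16591304) (l 16586296))) (c (a (l 16628696) (l 16605640)) (a (l 16626768) (b (l 16616800) (l 16634504))))) (b (a (c (b (l 16651344) (l 16663264)) (b (l 16649744) (l 16661808))) (b (c (l 16649664) (l 16648488)) (l 16652288))) (l 16659376))))) (b (b (b (l 3) (c (c (l 16501984) (l 16450800)) (c (l 266991932983) (l 301888525095)))) (c (c (b (l 16543976) (l 16580360)) (b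 (l 16536800) (l 16575120))) (c (b (l 16529616) (l 16569880)) (b (l 16522432) (l 16564640))))) (b (c (b (c (l 16615128) (l 16611848)) (c (b (l 16639920) (l 16651712)) (b (l 16638184) (l 16651032)))) (b (c (l 16608568) (l 16605288)) (c (b (l 16636448) (l 16650344)) (b (l 16634712) (l 16649664))))) (b (c (l 16645320) (l 16644248)) (c (l 16586536) (l 16615760)))))), by decide +kernel⟩

def k35_pm_102 : ∃ t, chk3 f_pm_102 t 24 38 1 = true :=
  ⟨(b (l 3) (b (b (l 3) (a (l 3) (a (l 3) (c (c (c (l 457044918231) (l 452749950983)) (a (b (l 3) (l 513416364039)) (c (l 381882990551) (l 382419861463)))) (c (c (a (l 532743716871) (l 379735506903)) (l 435570081799)) (c (l 429664501687) (l 421611438007))))))) (a (a (l 3) (a (l 3) (b (l 3) (b (l 3) (c (c (l 530596233207) (c (l 510732009431) (l 495162752983))) (c (c (l 487109689303) (l 16777216)) (l 459729272791))))))) (c (c (c (a (a (l 467782336519) (l 371145572311)) (l 16777208)) (a (b (l 531669975047) (l 337322704855)) (b (l 16777208) (l 16777208)))) (c (b (a (l 521469427719)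 (l 271287582631)) (c (l 280951259127) (l 275045679095))) (b (a (l 509658267655) (l 258402680743)) (c (l 267529486327) (l 259476422647))))) (c (c (b (a (l 499994591239) (l 240685940647)) (c (l 250349617143) (l 239612198903))) (a (b (l 496773365767) (l 277193162663)) (b (l 16777208) (l 16777208)))) (c (b (a (l 490867785735) (l 16777208)) (l 16777208)) (b (l 313700384599) (l 16777208)))))))), by decide +kernel⟩

def k36_pm_102 : ∃ t, chk3 f_pm_102 t 50 38 1 = true :=
  ⟨(b (b (l 3) (b (b (l 3) (a (l 3) (c (c (l 556366035543) (l 550460456823)) (c (l 535964942199) (l 513953233495))))) (a (a (l 3) (c (c (l 644412866567) (l 632601706503)) (c (l 617569320967) (l 599852580871)))) (c (c (c (l 16777192) (l 16777192)) (c (l 264845129767) (l 271824451463))) (c (c (l 275045676935) (l 273435064023)) (c (l 16777192) (l 16777192))))))) (c (c (b (b (a (c (l 484425334743) (l 481740980183)) (l 16777208)) (c (l 16777208) (l 16777208))) (c (l 16777192) (l 16777192))) (c (b (a (b (a (l 530596233223) (l 16777216)) (l 16777208)) (l 16777200))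 (b (l 16777200) (l 16777192))) (b (a (b (a (l 522006298631) (l 16777216)) (l 16777208)) (l 16777200)) (b (l 16777200) (l 16777192))))) (c (c (b (a (b (a (l 511805751303) (l 16777216)) (l 16777208)) (l 16777200)) (b (l 16777200) (l 16777192))) (b (a (b (a (l 498920849415) (l 16777216)) (l 16777208)) (l 16777200)) (b (l 16777200) (l 16777192)))) (b (c (a (b (l 415705857975) (l 16777208)) (l 16777200)) (b (l 313163513815) (l 16777200))) (c (l 16777192) (l 16777192)))))), by decide +kernel⟩

def k37_pm_102 : ∃ t, chk3 f_pm_102 t 51 38 1 = true :=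
  ⟨(b (b (b (a (l 3) (c (c (l 407115880631) (c (l 415705815063) (l 416242685879))) (c (b (l 448454944727) (l 367387451863)) (c (l 395841590903) (l 16747928))))) (c (c (a (l 487109681495) (l 16772936)) (a (a (l 574082774711) (l 285246220679)) (l 16772880))) (c (a (a (l 569250936503) (l 305647315319)) (l 16762336)) (a (c (l 464024232887) (l 454360553831)) (l 16772768))))) (c (c (b (a (l 175724551783) (l 16773896)) (l 16771848)) (b (a (c (l 16776016) (l 16776008)) (l 16773856)) (c (l 16777088) (l 16777088)))) (c (b (a (c (l 16776000) (l 16775992)) (l 16773808)) (c (l 16777088) (l 16777088))) (b (c (l 16774864) (l 16774848)) (c (l 16777088) (l 16777088)))))) (c (c (b (c (l 16777192) (l 16777184)) (c (l 16776544) (l 16776544))) (b (c (l 16777184) (l 16777184)) (c (l 16776536) (l 16776536)))) (c (b (c (l 16777184) (l 16777184)) (b (l 16777184) (l 16776840))) (b (c (l 16777184) (l 16777184)) (c (l 16776520) (l 16776512)))))), by decide +kernel⟩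

def k38_pm_102 : ∃ t, chk3 f_pm_102 t 13 76 1 = true :=
  ⟨(a (c (a (b (c (b (l 16758592) (l 16764448)) (b (c (l 16758408) (l 16758288)) (l 16764280))) (c (b (l 16770520) (l 16776944)) (b (l 16770432) (l 16776944)))) (b (c (b (l 16741976) (a (l 16755832) (l 16747176))) (b (l 16741520) (a (l 16755552) (l 16746784)))) (c (a (b (l 16767096) (a (l 16776576) (l 16772520))) (b (l 16735520) (l 16753024))) (a (b (l 16766968) (a (l 16776568) (l 16772464))) (b (a (l 16761928) (l 16751512)) (l 16752704)))))) (a (b (c (b (c (l 16758160) (l 16758040)) (l 16764112)) (b (c (l 16757920) (l 16757800)) (l 16763944))) (c (b (l 16770344) (l 16776936)) (b (l 16770256) (l 16776936)))) (b (c (b (l 16741056) (a (l 16755272) (l 16746392))) (b (l 16740592) (a (l 16754992) (l 16725032)))) (c (b (a (l 16766832) (a (l 16761728) (l 16751176))) (a (a (l 16776560) (l 16772400)) (l 16752384))) (b (a (l 16766704) (a (l 16761536) (l 16750848))) (a (b (l 16774608) (l 16772992)) (l 16752072))))))) (c (b (a (a (b (c (l 16724048) (a (l 16728656)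 (l 16719496))) (c (l 16728480) (l 16727840))) (l 16693336)) (a (l 16661432) (l 16619680))) (a (c (l 16706048) (l 16705112)) (c (l 16566128) (l 16607720)))) (b (a (a (c (b (a (l 16728032) (l 16718752)) (l 16727208)) (b (c (l 16722136) (l 16721792)) (l 16726568))) (l 16691160)) (a (l 16658912) (l 16617064))) (a (c (l 16704184) (l 16703256)) (a (l 16633712) (l 16614040)))))), by decide +kernel⟩

def k39_pm_102 : ∃ t, chk3 f_pm_102 t 13 77 1 = true :=
  ⟨(a (a (a (c (b (c (l 16777176) (l 16777176)) (c (b (l 16775072) (a (l 16774432) (l 16767928))) (b (l 16775040) (a (l 16774392) (l 16767808))))) (b (c (l 16777176) (l 16777168)) (c (b (a (l 16777168) (l 16775040)) (a (l 16774352) (l 16767688))) (b (a (l 16777168) (l 16775016)) (a (l 16774320) (l 16767568)))))) (c (b (c (b (l 16776088) (l 16761736)) (b (l 16776072) (a (l 16775624) (l 16770960)))) (b (c (l 16763800) (l 16763624)) (l 16750464))) (b (c (b (l 16776056) (a (l 16775600) (l 16770880))) (b (l 16776040) (a (l 16775576) (l 16770800)))) (b (c (l 16763448) (l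 16763272)) (l 16749768))))) (a (b (a (b (c (c (l 16772064) (l 16772000)) (c (l 16771936) (l 16771864))) (l 16758080)) (l 16709496)) (c (l 16732904) (l 16731752))) (c (l 16718224) (l 16716688)))) (a (c (l 16678352) (l 16675784)) (c (a (l 16640696) (l 16609928)) (a (l 16637624) (l 16607344))))), by decide +kernel⟩

def k40_pm_102 : ∃ t, chk3 f_pm_102 t 12 78 2 = true :=
  ⟨(a (b (a (c (c (a (b (l 688973152263) (l 459192401879)) (b (l 398525988823) (l 16777208))) (a (b (l 672867024903) (a (l 530596233223) (l 16777216))) (b (l 394767892439) (l 16777208)))) (c (a (b (l 656760897543) (a (l 522006298631) (l 339470188503))) (b (a (l 451676209111) (l 16777216)) (l 16777208))) (a (b (l 640654770183) (a (l 511268880391) (l 319069093847))) (b (a (l 443086274519) (l 16777216)) (l 16777208))))) (c (c (l 16777200) (b (l 16777200) (l 16777200))) (c (b (l 16777200) (l 16777200)) (b (l 16777200) (l 16777200))))) (c (c (a (l 16777208) (l 16777192)) (a (b (l 16777208) (l 16777200)) (l 16777192))) (c (a (b (l 16777208) (l 16777200))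 (l 16777192)) (a (b (l 16777208) (l 16777200)) (l 16777192))))) (a (b (c (c (l 16777184) (l 16777184)) (c (l 16777184) (l 16777184))) (c (b (l 16776840) (a (l 16777184) (c (l 16774632) (l 16774616)))) (b (c (l 16776840) (l 16776840)) (a (l 16777184) (c (l 16774600) (l 16753608)))))) (b (c (b (a (l 16777176) (c (l 16774024) (l 16774000))) (a (c (l 16775736) (l 16775728)) (l 16768160))) (b (a (l 16777176) (a (l 16776320) (l 16773472))) (a (b (l 16777056) (l 16775792)) (b (l 16770608) (l 16765184))))) (b (a (b (c (l 16774256) (l 16763728)) (c (l 16771408) (l 16771336))) (l 16758040)) (l 16757368))))), by decide +kernel⟩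

def k41_pm_102 : ∃ t, chk3 f_pm_102 t 12 79 2 = true :=
  ⟨(a (a (c (b (c (l 16777200) (l 16777200)) (c (l 16777192) (l 16777192))) (b (c (l 16777200) (l 16777200)) (c (l 16777192) (l 16777192)))) (b (c (b (l 16777192) (c (l 16776480) (l 16776472))) (b (l 16777192) (c (l 16776472) (l 16776464)))) (a (c (b (l 16777048) (c (l 16775592) (l 16775584))) (b (l 16777040) (c (l 16775576) (l 16775560)))) (b (c (c (l 16774592) (l 16774576)) (c (l 16774560) (l 16774544))) (l 16769888))))) (b (a (a (c (b (c (l 16775816) (l 16775808)) (c (l 16772840) (l 16772816))) (b (c (l 16775800) (l 16775792)) (c (l 16772784) (l 16772760)))) (b (c (l 16769736) (b (l 16771608) (l 16767440))) (l 16762456))) (l 16748232)) (a (l 16759848) (l 16742648)))), by decide +kernel⟩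

def k42_pm_102 : ∃ t, chk3 f_pm_102 t 13 39 2 = true :=
  ⟨(b (a (a (b (l 16745176) (l 16731032)) (l 16681232)) (a (l 16666760) (l 16603432))) (a (a (l 16702976) (l 16703088)) (a (l 16681776) (l 16626016)))), by decide +kernel⟩

def k43_pm_102 : ∃ t, chk3 f_pm_102 t 12 78 3 = true :=
  ⟨(a (b (c (c (a (a (b (l 624548642823) (b (l 465634852871) (l 16777216))) (b (b (l 407115923415) (l 16777216)) (l 16777208))) (b (l 16777200) (l 16777200))) (a (b (a (l 614884966407) (l 333027737527)) (a (l 377051152311) (l 16777208))) (b (l 16777200) (l 16777200)))) (a (c (b (a (l 607368773639) (l 16777216)) (l 267529486327)) (b (l 402820956007) (l 16777208))) (c (l 16777200) (l 16777200)))) (c (c (a (b (l 16777208) (l 16777200)) (l 16777192)) (a (b (l 16777208) (l 16777200)) (l 16777192))) (c (a (l 16777208) (l 16777192)) (l 16777200)))) (a (b (c (c (l 16777184) (l 16777184)) (c (l 16777184) (l 16777184))) (c (b (c (l 16776832) (l 16776832)) (a (l 16777184) (c (l 16769320) (a (l 16776328) (l 16774072))))) (b (c (l 16776832)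 (l 16776824)) (a (l 16777184) (c (l 16774528) (l 16774512)))))) (b (b (c (a (l 16777176) (a (l 16776312) (l 16773424))) (a (l 16777176) (a (l 16776296) (l 16752408)))) (b (c (a (l 16777056) (l 16770520)) (a (l 16777056) (l 16770432))) (a (c (l 16775776) (l 16775760)) (l 16764952)))) (b (a (c (c (l 16772296) (l 16772264)) (c (l 16772232) (l 16772200))) (l 16757536)) (l 16756856))))), by decide +kernel⟩

def k44_pm_102 : ∃ t, chk3 f_pm_102 t 12 79 3 = true :=
  ⟨(a (a (c (b (c (l 16777200) (l 16777200)) (c (l 16777192) (l 16777192))) (b (c (l 16777200) (l 16777200)) (c (l 16777192) (l 16777192)))) (b (c (b (l 16777192) (c (l 16776464) (l 16776456))) (b (l 16777192) (c (l 16776448) (l 16776448)))) (a (c (b (l 16777040) (c (l 16775552) (l 16775544))) (b (l 16777040) (c (l 16775528) (l 16775520)))) (b (c (c (l 16774528) (l 16774504)) (c (l 16774488) (l 16774472))) (l 16769696))))) (b (a (a (c (b (b (l 16776768) (l 16775808)) (b (l 16774280) (l 16771432))) (b (c (l 16775760) (l 16775752)) (c (l 16772672) (l 16772640))))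 (a (b (c (l 16772680) (l 16772624)) (l 16764832)) (l 16762392))) (l 16747480)) (a (l 16738432) (l 16741744)))), by decide +kernel⟩

def k45_pm_102 : ∃ t, chk3 f_pm_102 t 13 39 3 = true :=
  ⟨(b (a (a (b (l 16744344) (l 16729832)) (l 16679280)) (a (l 16663888) (a (l 16639496) (l 16615848)))) (a (a (b (l 16723296) (l 16723768)) (l 16701168)) (a (l 16679296) (l 16604000)))), by decide +kernel⟩

def k46_pm_102 : ∃ t, chk3 f_pm_102 t 28 36 1 = true :=
  ⟨(b (b (c (a (a (c (l 54391065511) (l 16456560)) (c (b (l 16512976) (l 16532872)) (l 16511976))) (a (c (l 16530376) (l 16542192)) (c (b (l 16573144) (a (l 16585664) (l 16603048))) (b (l 16564544) (l 16585488))))) (a (a (c (l 240685216807) (l 16434880)) (c (l 16480952) (l 16491864))) (b (c (l 16538424) (l 16529184)) (c (a (l 16543992) (l 16578248)) (a (l 16535448) (l 16550024)))))) (c (a (a (c (b (l 16523688) (l 16542760)) (l 16524080)) (c (l 16560448) (l 16552672))) (c (a (b (l 16581240) (l 16600016)) (b (a (l 16606096) (l 16623504)) (l 16633144))) (a (l 16519352)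 (b (l 16588376) (l 16628704))))) (a (a (c (l 16515520) (l 16506952)) (c (l 16544904) (l 16537128))) (c (a (l 16575560) (b (l 16603528) (l 16624256))) (a (b (l 16559360) (l 16581816)) (b (a (l 16587352) (l 16607368)) (l 16619808))))))) (c (a (b (c (a (l 16570160) (b (l 16589824) (l 16608064))) (a (l 16563696) (l 16591984))) (c (a (l 16606344) (b (l 16605936) (l 16642352))) (a (l 16601960) (b (l 16623144) (l 16639768))))) (b (a (c (b (a (l 16613000) (l 16629040)) (l 16637488)) (b (l 16615848) (l 16633952))) (l 16651160)) (c (l 16661224) (l 16660768)))) (a (b (c (a (l 16557224) (l 16586464)) (a (l 16550752) (l 16580944))) (c (a (l 16597584) (b (l 16619384) (l 16637176))) (a (l 16593208) (b (l 16615624) (l 16634584))))) (b (a (c (b (l 16611064) (l 16630424)) (b (l 16606272) (l 16626896))) (l 16646504)) (l 16639104))))), by decide +kernel⟩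

def k47_pm_102 : ∃ t, chk3 f_pm_102 t 29 36 1 = true :=
  ⟨(b (a (c (b (b (a (a (c (c (l 16602208) (l 16598520)) (l 16592992)) (l 16616464)) (l 16648488)) (a (c (l 16629984) (l 16624656)) (l 16666584))) (c (a (l 16654584) (l 16676288)) (l 16648904))) (b (a (b (a (c (l 16585616) (l 16578240)) (l 16603848)) (c (l 16619328) (l 16614008))) (c (l 16653896) (l 16651288))) (c (l 16647832) (a (l 16645808) (l 16674016))))) (c (b (c (a (l 16656704) (l 16620112)) (l 16615736)) (c (l 16603384) (l 16622360))) (b (c (l 16613976) (a (l 16652560) (l 16613936))) (c (l 16620352) (l 16576408))))) (a (c (b (c (l 16663320) (l 16662152)) (c (l 16636296) (l 16634568))) (b (c (l 16660984) (l 16659816)) (c (l 16632840) (l 16631112)))) (c (b (c (l 16543256) (l 16582936)) (a (c (l 16603440) (l 16601144)) (c (l 16540584) (l 16558688)))) (b (c (l 16601648) (l 16557440)) (a (c (l 16598840) (l 16596544)) (c (l 16555824) (l 16552960))))))), by decide +kernel⟩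

def k48_pm_102 : ∃ t, chk3 f_pm_102 t 14 37 1 = true :=
  ⟨(a (b (c (a (b (a (c (b (l 16612496) (l 16647248)) (b (l 16630728) (l 16645608))) (l 16652784)) (l 16626176)) (c (b (l 16643056) (l 16613968)) (l 16606280))) (a (b (a (c (b (l 16627984) (l 16643968)) (b (l 16625240) (l 16642328))) (l 16651144)) (l 16645912)) (b (l 16639944) (l 16609312)))) (c (a (c (l 16583088) (l 16602264)) (c (l 16502968) (l 16563280))) (a (c (l 16600472) (l 16598680)) (c (l 16560672) (l 16558072))))) (b (c (a (c (b (l 16605984) (l 16573520)) (l 16524600)) (a (b (c (l 16573776) (l 16571072)) (c (l 16536968) (l 16533776))) (b (c (a (l 16549544) (l 16530136)) (a (l 16546512) (l 16526856))) (a (c (l 16521800) (l 16518400)) (l 16500192))))) (a (c (l 16564120) (l 16561704)) (a (b (l 16567024) (c (l 16530576) (l 16527384))) (b (c (a (l 16543480) (l 16523568)) (l 16509056)) (c (l 16505888) (l 16502368)))))) (c (a (b (c (l 16539496) (l 16536384)) (c (a (l 16516352) (l 16489872)) (l 16476160))) (a (b (c (a (l 16508040) (l 16498296)) (l 16499456))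 (c (a (l 16474544) (l 16459232)) (l 16464568))) (c (l 16456696) (l 16452416)))) (a (b (l 16531712) (c (l 16493504) (l 16489872))) (a (b (c (l 16495800) (l 16492144)) (a (l 16464456) (l 16448616))) (l 16445992)))))), by decide +kernel⟩

def k49_pm_102 : ∃ t, chk3 f_pm_102 t 30 18 1 = true :=
  ⟨(b (a (b (c (b (a (c (l 16574576) (l 16571896)) (c (a (l 16533944) (l 16508632)) (a (l 16530728) (l 16505104)))) (a (c (a (l 16569800) (l 16540848)) (l 16529784)) (a (b (l 16518560) (l 16506352)) (l 16483160)))) (c (b (a (l 16569208) (b (l 16519616) (l 16510472))) (a (l 16547800) (l 16493840))) (b (a (l 16566528) (b (l 16495344) (l 16507056))) (a (a (l 16561552) (l 16531464)) (l 16490208))))) (c (a (b (c (a (l 16547528) (l 16521344)) (a (l 16544480) (l 16517960))) (a (c (l 16527328) (l 16524008)) (l 16493800))) (l 16418480)) (a (b (c (l 16486232) (a (l 16538384) (l 16511200))) (c (l 16506000) (l 16502496))) (l 16452136)))) (c (b (a (b (l 16463952) (l 16438816)) (c (b (l 16406000) (l 16391856)) (b (l 16422696) (l 16387104))))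 (a (c (l 16400032) (l 16395104)) (c (l 16345504) (l 16340128)))) (b (a (b (l 16455832) (l 16430048)) (b (c (l 16418184) (l 16413672)) (l 16379632))) (a (l 16387704) (l 16331728))))) (a (c (b (a (l 16448936) (c (l 16407496) (l 16402616))) (a (c (l 16391040) (l 16407144)) (c (l 16347952) (l 16342248)))) (b (a (l 16461808) (l 16395288)) (a (l 16399840) (l 16333704)))) (c (a (b (c (l 16340696) (l 16334960)) (c (l 16277768) (l 16271168))) (b (c (l 16281608) (l 16275368)) (c (l 16215168) (l 16208008)))) (b (a (l 16326360) (l 16265664)) (a (l 16261272) (l 16196936)))))), by decide +kernel⟩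

def k50_pm_102 : ∃ t, chk3 f_pm_102 t 31 18 2 = true :=
  ⟨(b (a (a (b (c (b (l 16415280) (a (l 16368824) (l 16361424))) (l 16376600)) (c (a (c (l 16309336) (l 16315544)) (b (l 16309808) (l 16265176))) (l 16264376))) (c (b (b (l 16403760) (l 16349184)) (a (l 16271712) (l 16258672))) (b (b (l 16418176) (l 16362856)) (a (l 16284456) (l 16188200))))) (a (c (b (a (l 16350544) (l 16376528)) (a (l 16256984) (l 16257288))) (a (b (b (l 16410400) (l 16352688)) (c (l 16261168) (l 16268440))) (b (l 16378000) (l 16257120)))) (c (b (a (l 16387784) (l 16400360)) (c (l 16270344) (l 16267272))) (b (a (l 16383792) (l 16354856)) (c (l 16264184) (l 16261496)))))) (a (c (a (b (c (l 16223712) (l 16229440)) (c (l 16153848) (l 16159088))) (a (b (l 16179568) (l 16105504)) (b (a (l 16156584) (b (l 16173544) (l 16122808))) (a (l 16078160) (l 16062464))))) (a (b (l 16230736) (l 16159664)) (a (b (l 16191024) (l 16115928)) (b (c (l 16162632) (l 16170488)) (c (l 16080400) (l 16087704)))))) (c (a (b (c (l 16139944) (l 16138816)) (c (a (l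 16041576) (l 16025728)) (a (l 16041584) (l 16022160)))) (c (b (l 16145448) (l 16020776)) (b (l 16141504) (l 16015944)))) (a (c (b (l 16140160) (l 16034288)) (b (l 16144872) (l 16038328))) (c (b (l 16137552) (l 16011112)) (b (l 16133992) (l 16006672))))))), by decide +kernel⟩

def k51_pm_102 : ∃ t, chk3 f_pm_102 t 31 36 3 = true :=
  ⟨(a (b (a (b (l 16415832) (l 16364056)) (c (l 16395768) (l 16390712))) (a (b (l 16316528) (l 16274616)) (b (l 16309040) (a (l 16253056) (c (l 16249728) (a (l 16246664) (c (l 16245120) (l 16239392)))))))) (a (c (a (b (c (l 16372264) (l 16396200)) (c (l 16275944) (l 16278216))) (c (l 16219144) (b (l 16392008) (l 16269088)))) (b (c (a (b (l 16422984) (l 16363904)) (c (l 16394728) (c (l 16392928) (a (l 16393232) (l 16392944))))) (a (b (c (l 16420536) (l 16420160)) (a (l 16295640) (l 16359352))) (c (b (l 16424000) (l 16363920)) (l 16393392)))) (c (a (c (l 16275872) (a (l 16274520) (l 16272176))) (c (l 16269656) (c (l 16268568) (l 16272360)))) (c (a (a (l 16271512) (l 16270200)) (l 16272848))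 (l 16274512))))) (a (c (c (l 16214992) (c (l 16321160) (b (l 16386656) (l 16258640)))) (c (b (c (c (l 16388240) (l 16391280)) (c (a (l 16394392) (l 16392376)) (a (l 16395064) (l 16392728)))) (c (c (l 16262320) (l 16265600)) (c (a (l 16268944) (l 16262440)) (l 16265008)))) (l 16328288))) (c (c (b (l 16393544) (l 16260344)) (c (b (l 16390056) (l 16259280)) (b (b (l 16422768) (l 16358344)) (l 16261368)))) (b (c (a (c (l 16389328) (l 16388824)) (l 16391240)) (l 16394000)) (l 16260056)))))), by decide +kernel⟩

def k52_pm_102 : ∃ t, chk3 f_pm_102 t 31 37 3 = true :=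
  ⟨(a (a (b (l 16220016) (l 16147480)) (a (b (l 16185688) (l 16109056)) (c (b (c (l 16172808) (l 16168744)) (l 16023816)) (c (c (b (l 16166112) (l 16081800)) (a (l 16124928) (l 16054368))) (b (c (b (l 16182232) (l 16134016)) (l 16075216)) (c (a (l 16037288) (l 16063912)) (a (l 16080248) (l 16068552)))))))) (c (a (c (b (a (l 16156472) (l 16140456)) (l 15936600)) (a (b (l 16157760) (l 16056256)) (b (l 16145872) (c (l 16028112) (l 16027560))))) (c (a (l 16046512) (c (l 16064752) (b (l 16128688) (l 15999896)))) (b (c (a (l 16128640) (l 16130616)) (a (l 16132728) (l 16129848))) (c (a (l 16001704) (l 16001096)) (a (l 15903408) (l 15995416)))))) (a (c (b (c (a (l 16154984) (l 16145128)) (a (a (l 16154880) (l 16149656)) (c (a (l 16146616) (l 16145672)) (l 16110904)))) (c (a (l 16052760) (c (l 16028520) (l 16029552))) (a (c (l 16049112) (a (l 16055728) (l 16042536))) (a (c (l 16033000) (l 16032760)) (l 16021240))))) (b (c (a (l 16085728) (l 16150048)) (l 16148176)) (a (c (c (b (l 16071616) (l 16031504)) (l 16052264))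 (l 16048816)) (l 16023776)))) (c (a (c (c (b (l 16136648) (l 16009152)) (b (l 16138024) (l 16008232))) (l 16072656)) (l 16060296)) (a (l 16070800) (l 16039504)))))), by decide +kernel⟩

def k53_pm_102 : ∃ t, chk3 f_pm_102 t 14 19 1 = true :=
  ⟨(b (a (b (c (a (b (c (l 16536072) (l 16554504)) (c (a (l 16483272) (l 16511888)) (a (l 16543552) (l 16508672)))) (b (c (l 16514776) (l 16511456)) (c (l 16438312) (l 16476472)))) (a (b (c (l 16551968) (l 16549432)) (a (c (l 16540920) (l 16538288)) (l 16503840))) (b (l 16506480) (c (l 16472688) (l 16468904))))) (a (c (a (l 16534760) (b (l 16481824) (l 16469264))) (a (l 16529208) (l 16428024))) (a (b (l 16457648) (l 16435704)) (b (l 16438504) (c (l 16421608) (l 16412328)))))) (b (a (c (b (a (l 16478880) (c (a (l 16460760) (l 16450720)) (l 16451608))) (b (a (l 16450640) (c (l 16429592) (l 16424976))) (a (c (l 16436296) (l 16431808)) (l 16408512)))) (b (a (l 16471120) (c (l 16447344) (l 16443080))) (a (c (l 16434568) (l 16430192)) (b (l 16418040) (l 16398768))))) (c (b (c (l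 16412560) (l 16407680)) (c (l 16352576) (l 16368136))) (b (l 16400352) (l 16360016)))) (a (a (b (c (a (l 16426336) (l 16414752)) (l 16411752)) (c (l 16397552) (l 16387520))) (c (l 16375792) (l 16365136))) (c (b (l 16338144) (l 16303816)) (l 16309168))))) (a (b (a (c (l 16430600) (l 16445056)) (a (b (c (l 16423144) (l 16413968)) (c (a (l 16431440) (l 16404248)) (a (l 16422424) (l 16394456)))) (b (c (l 16403792) (l 16393968)) (l 16367560)))) (a (a (c (l 16578056) (l 16531128)) (b (c (l 16500456) (l 16493280)) (c (l 16512208) (a (l 16528464) (l 16480104))))) (a (b (c (l 16417600) (l 16408144)) (l 16406712)) (c (l 16331240) (l 16319472))))) (b (a (c (l 16330688) (l 16318824)) (c (b (l 16266200) (l 16225672)) (l 16231936))) (a (c (l 16254864) (l 16240968)) (c (l 16097048) (l 16143368)))))), by decide +kernel⟩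

def k54_pm_102 : ∃ t, chk3 f_pm_102 t 30 19 1 = true :=
  ⟨(a (b (b (c (b (a (l 16355488) (l 16297440)) (c (a (l 16317280) (b (l 16274760) (l 16256088))) (l 16284112))) (b (l 16313448) (l 16232392))) (c (a (b (l 16275672) (l 16235296)) (a (l 16214592) (l 16185984))) (l 16150296))) (b (c (a (l 16169808) (l 16106848)) (l 16121120)) (c (c (l 15919952) (l 16035832)) (l 16020904)))) (b (c (b (a (c (b (l 16229088) (l 16196040)) (l 16205096)) (c (b (l 16164392) (b (l 16138816) (l 16120784))) (l 16139024))) (a (b (l 16155976) (l 16114016)) (b (l 16117656) (l 16043848)))) (b (a (l 16193840) (l 16084568)) (a (l 16117224) (l 16045968)))) (c (b (a (c (l 16045640) (l 16035760)) (b (l 15999624) (l 15951000))) (a (l 15934360) (c (l 15875104) (l 15863072)))) (b (a (l 16020944) (l 15952720)) (a (l 15911576) (l 15844680)))))), by decide +kernel⟩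

def k55_pm_102 : ∃ t, chk3 f_pm_102 t 31 19 2 = true :=
  ⟨(a (b (a (b (c (b (c (l 16101072) (l 16105936)) (c (b (l 16074664) (l 16055424)) (l 16069672))) (l 16087640)) (c (c (a (l 16018816) (l 15977224)) (l 16001984)) (l 16000888))) (b (c (a (b (l 16049288) (c (b (l 16017320) (l 15996808)) (l 16014256))) (a (b (l 16023376) (l 15983632)) (l 15985216))) (a (b (l 16058464) (l 16019952)) (c (l 16003808) (l 16010656)))) (c (a (a (l 15948512) (c (l 15926184) (l 15932296))) (l 15951152)) (a (c (l 15948496) (l 15950192)) (l 15907128))))) (a (b (c (a (l 15925352) (l 15883712)) (l 15904784)) (b (c (l 15831928) (l 15831088)) (a (l 15795056) (c (l 15758080) (l 15759288))))) (c (a (b (a (c (l 15845656) (l 15852432)) (l 15826160)) (a (l 15751200) (l 15724992))) (c (l 15741584) (l 15742752))) (a (b (a (l 15857888) (l 15835608)) (l 15745904)) (c (l 15747376) (l 15752328)))))) (c (b (b (a (c (a (l 15960752) (l 15934648)) (l 15945680)) (c (b (l 15932576) (b (l 15892896) (l 15867400))) (b (l 15927112) (l 15874744)))) (c (a (l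 15848184) (l 15796080)) (a (l 15844984) (l 15789624)))) (c (a (a (l 15702736) (l 15669576)) (c (l 15628144) (l 15624280))) (a (l 15682248) (l 15618488)))) (c (b (b (a (l 15945696) (b (l 15921648) (l 15868904))) (a (l 15844272) (l 15783168))) (a (l 15680336) (l 15610760))) (a (b (b (l 15949104) (l 15846960)) (l 15681824)) (b (b (b (l 15916576) (l 15861760)) (c (l 15778416) (l 15770936))) (c (l 15515400) (a (l 15614760) (l 15585840)))))))), by decide +kernel⟩

def k56_pm_102 : ∃ t, chk3 f_pm_102 t 62 19 3 = true :=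
  ⟨(a (b (b (b (l 16092656) (l 16055232)) (l 15985368)) (b (l 15887192) (b (l 15811904) (a (l 15774928) (a (l 15751552) (c (l 15737480) (c (l 15727152) (c (l 15716112) (l 15717680))))))))) (a (b (b (a (l 16040072) (c (l 16028480) (c (l 16021304) (a (l 16022560) (c (l 16015128) (b (l 16031456) (b (l 16002856) (l 15982024)))))))) (c (l 15940864) (c (a (l 15940768) (l 15927168)) (c (c (a (l 15938792) (l 15924320)) (l 15864184)) (c (a (l 15933368) (l 15878088)) (l 15926496)))))) (c (b (l 15776536) (c (l 15741408) (l 15734512))) (c (a (b (l 15837904) (l 15736376)) (c (l 15769104) (b (l 15818656) (l 15713440)))) (a (c (b (c (l 15834808) (l 15829576)) (c (l 15732592) (l 15732040))) (b (l 15829976) (l 15730160))) (c (b (c (l 15816600) (l 15807864)) (c (l 15705576) (l 15709464))) (c (l 15759704) (l 15759472))))))) (b (c (b (c (l 16012024) (l 16007072)) (c (l 15911904) (l 15906000))) (b (c (c (l 16003400) (a (l 16008448) (l 15991000))) (b (c (a (l 15982568) (l 15987336)) (c (l 16019752) (l 16018240))) (c (c (a (l 15985104)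 (l 15966936)) (b (l 15982360) (c (l 15961408) (l 15963144)))) (b (l 15984728) (c (l 15964128) (l 15963472)))))) (c (c (l 15902048) (a (l 15908160) (l 15888696))) (c (c (c (a (l 15906480) (l 15887752)) (a (l 15905208) (l 15892984))) (c (l 15896360) (l 15897440))) (l 15875024))))) (c (c (l 15751808) (l 15744984)) (c (a (c (l 15749864) (b (l 15799504) (c (l 15693280) (l 15690632)))) (c (l 15725688) (c (l 15725536) (b (l 15780032) (l 15674008))))) (c (b (c (c (a (l 15796592) (l 15780568)) (l 15771504)) (l 15792224)) (a (c (l 15634320) (l 15696080)) (l 15668816))) (l 15691536))))))), by decide +kernel⟩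

def k57_pm_102 : ∃ t, chk3 f_pm_102 t 63 38 3 = true :=
  ⟨(c (b (a (c (a (l 15972320) (l 15930400)) (a (l 15972552) (c (l 15933936) (c (l 15933272) (l 15870640))))) (c (a (c (l 15895080) (l 15890928)) (c (b (l 15902816) (l 15845888)) (b (l 15904544) (l 15847648)))) (c (a (b (l 15916536) (l 15870432)) (b (l 15901728) (l 15841576))) (a (a (b (l 15929160) (l 15884144)) (l 15884576)) (l 15869256))))) (a (c (l 15848736) (a (l 15870496) (c (l 15825920) (l 15788008)))) (c (c (l 15748560) (a (l 15782616) (l 15759592))) (a (c (l 15787488) (l 15788664)) (l 15750952))))) (a (a (c (b (c (b (l 15988872) (l 15944848)) (c (b (l 15985984) (l 15944112)) (a (b (l 15993504) (l 15951928)) (b (l 15980232) (l 15937280))))) (c (l 15821384) (c (a (l 15871704) (l 15856944)) (a (l 15872944) (l 15853216))))) (c (b (a (b (c (l 15998968) (l 15998680)) (c (a (l 15956832) (l 15948608)) (l 15950064))) (l 15955104)) (b (c (l 15835536) (l 15887616)) (l 15832112))) (l 15909136))) (c (b (c (b (l 15958616) (c (l 15914680) (l 15914632))) (b (c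 (c (l 15956944) (l 15954640)) (l 15953680)) (l 15909840))) (c (a (l 15842016) (l 15819712)) (l 15826032))) (l 15874824))) (b (c (a (l 15897232) (l 15867200)) (a (l 15894496) (l 15845080))) (c (l 15767728) (l 15766296))))), by decide +kernel⟩

def k58_pm_102 : ∃ t, chk3 f_pm_102 t 63 39 3 = true :=
  ⟨(c (a (c (c (l 15681864) (a (l 15707344) (l 15654112))) (c (a (l 15706672) (b (l 15713152) (l 15603712))) (a (b (l 15755120) (l 15645472)) (c (l 15663224) (l 15663704))))) (c (c (a (l 15610776) (l 15586800)) (a (b (l 15669784) (l 15558064)) (l 15578176))) (c (a (a (l 15624256) (l 15599400)) (l 15574272)) (l 15591584)))) (c (a (a (c (c (l 15700088) (b (l 15754944) (l 15647040))) (a (c (l 15709472) (b (l 15762856) (l 15650608))) (l 15685952))) (c (c (l 15661928) (l 15657544)) (l 15654824))) (l 15569280)) (a (l 15670208) (l 15482696)))), by decide +kernel⟩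

def k59_pm_102 : ∃ t, chk3 f_pm_102 t 4 40 1 = true :=
  ⟨(b (l 3) (l 2)), by decide +kernel⟩

def k60_pm_102 : ∃ t, chk3 f_pm_102 t 20 40 2 = true :=
  ⟨(b (l 3) (b (a (l 3) (b (l 3) (a (b (l 3) (c (l 1085183885319) (a (l 3) (l 997673926663)))) (c (b (c (l 890836615175) (l 868824907783)) (c (l 16777216) (l 408189665271))) (b (c (l 845739458567) (l 820506525703)) (c (l 407115923447) (l 409800278007))))))) (a (a (l 2) (b (b (l 3) (c (c (l 867214295047) (l 850034425863)) (c (l 831243943943) (l 810842849287)))) (c (c (l 16777216) (l 64525172743)) (c (l 67209527287) (l 72041365495))))) (c (b (b (a (c (l 600389451783) (l 596631355383)) (l 16777216)) (c (l 16777216) (l 16777216))) (c (l 16777216) (l 16777216))) (b (b (a (c (l 597168226295) (l 602000064503)) (l 16777216)) (c (l 16777216) (l 16777216))) (c (l 16777216) (l 16777216))))))), by decide +kernel⟩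

def k61_pm_102 : ∃ t, chk3 f_pm_102 t 21 40 2 = true :=
  ⟨(b (b (a (l 3) (b (l 3) (a (l 3) (c (c (l 958482350087) (l 936470642695)) (c (l 912311451655) (l 887615389703)))))) (a (b (l 3) (a (l 3) (b (l 3) (c (c (l 825875234823) (l 800642301959)) (c (l 774872498183) (l 746955210759)))))) (b (a (c (c (l 935396900871) (l 911774580743)) (a (l 3) (c (l 856476876807) (l 829633331207)))) (c (b (c (l 654076542983) (a (l 873119875079) (l 467245465591))) (c (l 16777216) (l 324974673911))) (c (b (a (l 848423813127) (l 446307500023)) (l 306721062903)) (b (a (l 822117138439) (l 427517018103)) (l 290078064631))))) (c (c (a (b (l 552071069687) (l 16777216)) (l 16777216)) (a (b (a (l 756082016263) (l 16777216)) (l 16777216)) (l 16777216))) (c (a (b (a (l 730849083383) (l 16777216)) (l 16777216)) (l 16777216)) (a (b (a (l 704542408695) (l 16777216)) (l 16777216)) (l 16777216))))))) (b (b (a (b (a (a (l 3) (c (l 994989572103) (l 940765609991))) (c (c (l 412484632567) (l 399599730679)) (c (l 389399183351) (l 382419861495)))) (c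 (a (c (l 615958708215) (l 604684419063)) (c (l 16777216) (l 16777216))) (a (c (l 596094484471) (l 590725775351)) (c (l 16777216) (l 16777216))))) (c (c (l 16777216) (l 16777216)) (c (l 16777216) (l 16777216)))) (c (c (a (l 169282109447) (l 16777208)) (a (c (l 16777216) (l 16777216)) (l 16777208))) (c (a (b (l 16777216) (l 16777216)) (l 16777208)) (a (a (l 185388236791) (l 16777216)) (l 16777208))))) (c (c (b (a (l 16777216) (l 16777208)) (c (l 16777208) (l 16777208))) (b (a (l 16777216) (l 16777208)) (c (l 16777208) (l 16777208)))) (c (b (a (l 16777216) (l 16777208)) (a (l 16777208) (l 16777208))) (b (a (l 16777216) (l 16777208)) (a (l 16777208) (l 16777208))))))), by decide +kernel⟩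

def k62_pm_102 : ∃ t, chk3 f_pm_102 t 11 80 2 = true :=
  ⟨(b (a (a (b (a (l 3) (b (a (l 3) (c (c (l 660518993911) (l 641728512007)) (c (l 621327417351) (l 599315709959)))) (c (c (l 455971176439) (a (l 619179933687) (l 16777216))) (c (a (l 598241968119) (l 16777216)) (a (l 575693389815) (l 16777216)))))) (c (c (a (b (l 730849083399) (l 417316470775)) (l 16777216)) (a (b (l 709911117831) (l 396915376119)) (l 16777216))) (a (b (a (l 910163968007) (c (l 566566584311) (l 544018006007))) (c (l 378124894199) (l 360945025015))) (c (l 16777216) (l 16777216))))) (c (c (b (a (l 16777216) (l 16777208)) (l 16777208)) (b (c (l 16777208) (l 16777208)) (l 16777208))) (b (c (c (l 16777208) (l 16777208)) (b (l 183240753159) (l 16777208))) (c (l 16777208) (l 16777208))))) (c (c (b (l 16777200) (l 16777200)) (b (l 16777200) (l 16777200))) (c (b (l 16777200) (l 16777200)) (b (l 16777200) (l 16777200))))) (a (c (c (b (a (l 16777216) (l 16777208)) (a (l 16777208) (l 16777208))) (b (a (l 16777216) (l 16777208)) (a (l 16777208) (l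 16777208)))) (c (b (a (l 16777216) (l 16777208)) (a (l 16777208) (l 16777208))) (b (a (l 16777216) (l 16777208)) (a (l 16777208) (l 16777208))))) (a (c (c (l 16777200) (b (l 16777200) (l 16777200))) (c (b (l 16777200) (l 16777200)) (b (l 16777200) (l 16777200)))) (a (c (b (l 16777200) (c (l 16776912) (l 16776912))) (b (l 16777200) (c (l 16776904) (l 16776904)))) (c (b (c (l 16776768) (l 16776768)) (c (l 16775800) (l 16775792))) (b (c (l 16776760) (l 16776760)) (c (l 16775784) (l 16775776)))))))), by decide +kernel⟩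

def k63_pm_102 : ∃ t, chk3 f_pm_102 t 11 81 2 = true :=
  ⟨(b (b (a (c (c (l 16777208) (a (l 16777208) (l 16777208))) (c (a (l 16777208) (l 16777208)) (a (l 16777208) (l 16777208)))) (a (a (c (l 16777200) (l 16777200)) (c (c (l 16777024) (l 16777024)) (b (l 16777200) (c (l 16777032) (l 16777032))))) (a (c (c (l 16776296) (l 16776288)) (c (l 16776280) (l 16776272))) (l 16774400)))) (a (c (c (l 16777208) (l 16777208)) (c (l 16777208) (l 16777208))) (a (a (c (c (l 16777104) (b (l 16777200) (l 16777112))) (b (l 16777200) (c (l 16777112) (l 16777112)))) (c (c (l 16776824) (l 16776824)) (b (c (l 16776848) (l 16776848)) (l 16776608)))) (l 16775152)))) (a (b (b (c (c (l 16777200) (l 16777200)) (c (l 16777200) (l 16777200))) (c (a (l 16777208) (a (l 16777208) (c (l 16777200) (l 16777200)))) (a (l 16777208) (a (l 16777208) (c (l 16777200) (l 16777200)))))) (b (c (a (l 16777208) (a (c (l 16777208) (l 16777208)) (b (l 16777144) (l 16776984)))) (a (l 16777208) (a (c (l 16777208) (l 16777208)) (b (l 16777144) (l 16776976)))))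 (a (c (l 16777208) (l 16777208)) (a (c (c (l 16777080) (l 16777080)) (c (l 16777080) (l 16777072))) (l 16776496))))) (a (b (b (c (c (l 16776896) (l 16776896)) (c (l 16776888) (l 16776888))) (l 16777184)) (l 16776008)) (l 16776568)))), by decide +kernel⟩

def k64_pm_102 : ∃ t, chk3 f_pm_102 t 10 40 3 = true :=
  ⟨(a (b (l 3) (b (b (l 3) (a (l 3) (c (c (a (l 1037939245063) (b (l 801716043783) (l 416242728951))) (a (l 1040623599623) (b (l 803326656519) (l 16777216)))) (c (a (l 1045455437831) (l 553144811479)) (l 781314949127))))) (a (a (l 2) (b (b (l 3) (a (l 2) (c (c (l 644949737463) (l 16777216)) (l 592873258999)))) (c (c (l 77946945527) (l 85463138295)) (c (l 16777216) (l 16777216))))) (c (b (c (a (b (l 610053128183) (l 16777216)) (l 16777216)) (a (b (l 622401159159) (l 16777216)) (l 16777216))) (c (l 16777216) (l 16777216))) (b (c (a (l 429664501719) (l 16777216)) (l 315847868343)) (c (l 16777216) (l 16777216))))))) (b (b (b (l 3) (b (l 3) (a (l 3) (c (c (l 893520969735) (l 876341100551)) (l 852718780423)))))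 (a (a (l 3) (b (l 3) (b (l 3) (c (c (l 717964181511) (l 706689892343)) (l 698636828631))))) (c (c (b (a (l 836612653063) (b (l 571398422535) (l 16777216))) (a (b (l 491941527543) (l 16777216)) (l 16777216))) (b (a (l 822117138439) (b (l 555292295127) (l 16777216))) (c (l 290614935511) (l 282561871831)))) (b (a (l 803863527431) (c (l 411947761623) (l 16777216))) (c (a (l 16777216) (l 16777216)) (l 16777216)))))) (b (c (a (b (a (b (a (l 3) (l 894594711559)) (c (l 588041420791) (l 588578291703))) (c (b (l 378124894199) (l 16777216)) (l 293836160983))) (c (c (l 16777216) (l 16777216)) (l 156397207527))) (c (b (l 16777216) (l 16777208)) (b (l 16777216) (l 16777208)))) (c (a (b (a (l 707763634183) (l 16777216)) (l 16777216)) (b (l 16777216) (l 16777208))) (a (b (l 525227524023) (l 16777216)) (l 16777208)))) (c (c (b (a (l 16777216) (l 16777208)) (c (l 16777208) (l 16777208))) (b (a (l 16777216) (l 16777208)) (c (l 16777208) (l 16777208)))) (c (b (c (l 16777208) (l 16777208)) (c (l 16777208) (l 16777208))) (b (l 16777208)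 (l 16777208))))))), by decide +kernel⟩

def k65_pm_102 : ∃ t, chk3 f_pm_102 t 22 40 3 = true :=
  ⟨(c (b (b (a (b (a (l 3) (c (b (l 669645799431) (l 388325441495)) (l 509658267607))) (a (c (b (l 640117899271) (l 345375768567)) (l 482277851095)) (c (l 16777216) (l 16777216)))) (c (b (a (l 16777216) (l 16777208)) (l 16777208)) (b (l 16777208) (l 16777208)))) (c (b (a (l 16777208) (l 16777208)) (a (l 16777208) (l 16777208))) (b (a (l 16777208) (l 16777208)) (l 16777208)))) (b (c (b (l 16777208) (l 16777208)) (b (l 16777208) (l 16777208))) (b (b (c (l 16777200) (l 16777200)) (a (l 16777208) (a (l 16777208) (c (l 16777200) (l 16777200))))) (b (a (l 16777208) (a (c (l 16777208) (l 16777208)) (c (l 16777072) (l 16777072)))) (a (l 16777208) (a (c (l 16777072) (l 16777072)) (l 16776480))))))) (a (c (b (b (b (l 593947000839) (l 333564608439)) (l 16777208)) (b (l 16777208) (b (l 16777208) (l 16777208)))) (b (b (b (l 579451486215) (l 16777216)) (l 16777208)) (b (l 16777208) (l 16777208)))) (b (b (c (l 16777208) (l 16777208))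 (c (l 16777208) (l 16777208))) (b (c (l 16777208) (l 16777208)) (b (a (l 16777208) (c (l 16777192) (l 16777192))) (b (a (l 16777208) (l 16777072)) (c (l 16776792) (l 16776792)))))))), by decide +kernel⟩

def k66_pm_102 : ∃ t, chk3 f_pm_102 t 23 40 3 = true :=
  ⟨(b (b (c (c (b (l 16777200) (l 16777200)) (b (l 16777200) (l 16777200))) (c (b (l 16777200) (l 16777200)) (l 16777200))) (c (b (a (c (l 16777200) (l 16777200)) (a (l 16777200) (c (l 16776752) (l 16776752)))) (a (c (l 16777200) (l 16777200)) (c (a (l 16776904) (l 16775760)) (a (l 16776904) (l 16775752))))) (b (a (l 16777200) (c (a (l 16777200) (l 16776752)) (l 16776728))) (a (l 16777200) (c (a (l 16776896) (l 16775744)) (a (l 16776896) (l 16775736))))))) (a (a (b (c (b (l 16777200) (b (l 16777200) (c (l 16777112) (l 16777112)))) (b (l 16777200) (c (l 16777096) (l 16777096)))) (b (b (c (c (l 16777072) (l 16777064)) (l 16777064)) (l 16777192)) (l 16776264))) (b (c (b (a (l 16777200) (b (l 16777200) (l 16777032))) (c (b (l 16776840) (l 16776600)) (l 16776816)))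 (b (c (l 16777016) (l 16777016)) (c (l 16776808) (l 16776808)))) (l 16776832))) (b (a (b (c (c (l 16776272) (l 16776264)) (c (l 16776256) (l 16776248))) (l 16775640)) (l 16774216)) (l 16776552)))), by decide +kernel⟩

def k67_pm_102 : ∃ t, chk3 f_pm_102 t 4 82 1 = true :=
  ⟨(l 2), by decide +kernel⟩

def k68_pm_102 : ∃ t, chk3 f_pm_102 t 20 82 1 = true :=
  ⟨(a (a (l 2) (b (b (b (c (c (l 16777216) (l 16777216)) (c (l 16777216) (l 16777216))) (l 2)) (l 2)) (l 2))) (b (c (c (b (c (l 16777216) (l 16777216)) (c (l 16777216) (l 16777216))) (b (c (l 16777216) (l 16777216)) (c (l 16777216) (l 16777216)))) (c (b (c (l 16777216) (l 16777216)) (c (l 16777216) (l 16777216))) (c (b (l 16777216) (l 16777216)) (b (l 16777216) (l 16777216))))) (c (b (c (c (l 16777216) (l 16777216)) (c (l 16777216) (l 16777216))) (c (c (b (l 16777216) (l 16777216)) (b (l 16777216) (l 16777216))) (c (b (l 16777216) (l 16777216)) (b (l 16777216) (l 16777216))))) (b (c (c (l 16777216) (l 16777216)) (c (l 16777216) (l 16777216))) (c (c (b (l 16777216)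 (l 16777216)) (b (l 16777216) (l 16777216))) (c (b (l 16777216) (l 16777216)) (l 42513465255))))))), by decide +kernel⟩

def k69_pm_102 : ∃ t, chk3 f_pm_102 t 42 82 1 = true :=
  ⟨(b (c (c (b (c (l 16777208) (l 16777208)) (c (l 16777208) (l 16777208))) (b (c (l 16777208) (l 16777208)) (c (l 16777208) (l 16777208)))) (c (b (c (l 16777208) (l 16777208)) (c (l 16777208) (l 16777208))) (c (b (l 16777208) (l 16777208)) (b (l 16777208) (l 16777208))))) (c (b (c (c (b (l 16777208) (l 16777160)) (b (l 16777208) (l 16777160))) (c (b (l 16777208) (l 16777160)) (b (l 16777208) (l 16777160)))) (c (b (a (c (l 16777216) (l 16777216)) (c (b (l 16776928) (l 16776464)) (b (l 16776928) (l 16776456)))) (c (a (b (l 16776984) (l 16776544)) (l 16774696)) (a (b (l 16776976) (l 16776536)) (l 16774680)))) (b (a (c (l 16777216) (l 16777216)) (c (b (l 16776920) (l 16776448)) (b (l 16776920) (l 16776448)))) (c (a (b (l 16776976) (a (l 16776984) (l 16776184))) (l 16774664)) (a (b (l 16776976) (a (l 16776984) (l 16776176))) (l 16774648))))))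 (b (c (c (b (l 16777208) (l 16777160)) (b (l 16777208) (l 16777160))) (c (b (l 16777208) (l 16777160)) (l 16777136))) (c (b (c (a (l 16777216) (b (l 16776920) (l 16776440))) (a (l 16777216) (b (l 16776920) (l 16776440)))) (c (a (b (l 16776976) (l 16776520)) (l 16774632)) (a (b (l 16776976) (l 16776520)) (l 16774616)))) (b (c (a (l 16777208) (b (l 16776912) (l 16776432))) (a (l 16777208) (l 16776560))) (c (a (b (l 16776976) (l 16776512)) (l 16774600)) (a (l 16776608) (l 16774584)))))))), by decide +kernel⟩

def k70_pm_102 : ∃ t, chk3 f_pm_102 t 43 82 1 = true :=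
  ⟨(b (c (c (b (c (l 16777208) (l 16777208)) (a (c (l 16777208) (l 16777208)) (b (l 16777208) (c (l 16777000) (a (l 16777208) (l 16776976)))))) (b (c (l 16777208) (l 16777208)) (b (c (l 16777208) (l 16777208)) (a (l 16777208) (a (l 16777208) (b (l 16777160) (l 16776928))))))) (c (b (c (l 16777208) (l 16777208)) (a (c (l 16777208) (l 16777208)) (b (l 16777208) (c (a (l 16777208) (l 16776976)) (l 16776992))))) (b (c (l 16777208) (l 16777208)) (b (l 16777208) (a (l 16777208) (b (l 16777152) (l 16775664))))))) (b (b (c (a (c (c (l 16777080) (l 16777080)) (c (l 16777080) (l 16777080))) (a (c (c (l 16776720) (l 16776720)) (c (l 16776712) (l 16776712))) (l 16775784))) (c (c (a (l 16777080) (l 16776264)) (a (l 16777080) (l 16776256))) (c (a (l 16777072) (l 16776248)) (a (l 16777072) (l 16776248))))) (a (c (a (c (c (l 16776880) (l 16776872)) (c (l 16776872) (l 16776872))) (b (c (l 16776672) (l 16776664)) (l 16775640))) (c (c (b (l 16776816) (l 16776248)) (b (l 16776816) (l 16776240))) (c (l 16776456) (l 16776448)))) (c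 (l 16774288) (l 16774216)))) (c (c (l 16771712) (l 16771640)) (c (l 16771568) (l 16771496))))), by decide +kernel⟩

def k71_pm_102 : ∃ t, chk3 f_pm_102 t 11 82 1 = true :=
  ⟨(a (b (a (a (c (b (c (b (l 16777208) (l 16777184)) (c (l 16777184) (l 16777184))) (b (c (c (l 16776896) (a (l 16777112) (l 16776792))) (c (b (l 16777064) (l 16776832)) (b (l 16777064) (l 16776832)))) (b (c (l 16776360) (l 16776344)) (l 16775520)))) (c (b (c (l 16777184) (l 16777184)) (b (c (b (l 16777056) (l 16776832)) (l 16776888)) (b (l 16776336) (l 16775480)))) (b (c (l 16777184) (l 16777184)) (b (c (l 16776888) (l 16776880)) (l 16775936))))) (b (c (c (b (c (l 16777120) (l 16777120)) (c (l 16776760) (l 16776760))) (b (c (l 16777120) (l 16777120)) (c (l 16776752) (l 16776752)))) (c (b (c (l 16777120) (l 16777120)) (c (l 16776744) (l 16776744))) (c (b (l 16777112) (l 16776744)) (l 16776832)))) (c (l 16774816) (l 16774760)))) (b (a (b (b (c (c (l 16776784) (l 16776776)) (c (l 16776768) (l 16776760))) (c (l 16776320) (l 16776296))) (c (l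 16775448) (l 16775400))) (c (l 16774808) (l 16774744))) (c (l 16751048) (l 16771888)))) (c (c (a (l 16769008) (l 16763712)) (a (l 16768896) (l 16763528))) (c (b (l 16769184) (l 16762736)) (l 16765928)))) (c (b (c (l 16769224) (l 16769120)) (c (l 16755648) (l 16755368))) (b (c (l 16769016) (l 16768904)) (c (l 16755088) (l 16754800))))), by decide +kernel⟩

def k72_pm_102 : ∃ t, chk3 f_pm_102 t 4 83 1 = true :=
  ⟨(l 2), by decide +kernel⟩

def k73_pm_102 : ∃ t, chk3 f_pm_102 t 20 83 1 = true :=
  ⟨(a (l 2) (a (b (b (b (b (c (c (l 16777216) (l 16777216)) (c (l 16777216) (l 16777216))) (l 2)) (l 2)) (l 2)) (l 2)) (b (b (b (c (c (c (b (l 16776992) (l 16776520)) (b (l 16776992) (l 185857993191))) (b (c (l 16776992) (l 16776992)) (c (a (l 16776976) (l 16776176)) (a (l 16776976) (l 16776168))))) (c (c (b (l 16776992) (l 183710509511)) (b (l 16776984) (l 16776496))) (c (b (l 16776984) (l 16776488)) (b (l 16776984) (l 16776488))))) (b (b (c (c (l 111232940647) (l 110696069703)) (c (c (l 16775728) (l 16775720)) (l 16775704)))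 (c (l 16774800) (l 16774736))) (c (l 16773424) (l 16773328)))) (c (c (l 16768832) (l 16768720)) (c (l 16768616) (l 16768504)))) (b (c (b (l 16763176) (l 16758456)) (b (l 16762816) (l 16757968))) (a (l 2) (b (b (b (c (l 16754288) (l 16753688)) (b (c (l 16752432) (l 16751792)) (c (l 16750864) (l 16750184)))) (l 16749928)) (l 16750320))))))), by decide +kernel⟩

def k74_pm_102 : ∃ t, chk3 f_pm_102 t 21 83 1 = true :=
  ⟨(b (b (c (b (c (a (b (c (l 16773976) (l 16773960)) (l 16772200)) (l 16766760)) (a (b (c (l 16773936) (l 16773912)) (l 16772136)) (l 16766624))) (c (l 16745168) (l 16745024))) (b (c (a (b (c (l 16773896) (l 16773872)) (l 16772072)) (l 16766488)) (a (c (l 16773000) (l 16772976)) (l 16766352))) (c (l 16744880) (l 16765712)))) (c (c (a (l 16764208) (l 16758008)) (a (l 16764040) (l 16757760))) (c (a (l 16763864) (l 16757504)) (l 16760472)))) (b (c (b (c (l 16756200) (l 16755928)) (c (l 16752056) (l 16751728))) (b (c (l 16755656) (l 16755376)) (c (l 16751400) (l 16751072)))) (c (b (b (b (c (l 16748936)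 (l 16748568)) (b (l 16747088) (c (l 16745880) (l 16745472)))) (l 16745192)) (l 16745632)) (b (b (b (c (l 16748200) (l 16747824)) (b (c (l 16746504) (l 16746112)) (c (l 16745064) (l 16744656)))) (l 16744360)) (l 16744808))))), by decide +kernel⟩

def k75_pm_102 : ∃ t, chk3 f_pm_102 t 11 83 1 = true :=
  ⟨(b (c (a (b (c (l 16755040) (l 16754752)) (c (l 16748608) (l 16748232))) (b (l 16741584) (l 16735600))) (a (b (c (l 16754464) (l 16754176)) (c (l 16747856) (l 16747488))) (b (l 16740656) (l 16734520)))) (b (c (a (b (l 16744560) (l 16741280)) (b (l 16732832) (l 16730456))) (a (b (l 16743712) (l 16740344)) (b (l 16731680) (l 16729248)))) (b (b (b (c (a (l 16738808) (l 16728680)) (a (l 16737808) (l 16727416))) (b (c (a (l 16737480) (l 16727696)) (a (l 16736448) (l 16726408))) (c (a (a (l 16738712) (l 16734016)) (l 16726872)) (a (c (l 16735568) (l 16735032)) (l 16725560))))) (c (l 16731368) (l 16730176))) (c (l 16731968) (l 16730792))))), by decide +kernel⟩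

def k76_pm_102 : ∃ t, chk3 f_pm_102 t 2 21 1 = true :=
  ⟨(a (l 2) (a (a (a (l 2) (c (l 16759920) (l 16759464))) (c (c (l 16755056) (l 16754768)) (c (l 16754480) (l 16754184)))) (c (a (l 16748136) (l 16741248)) (a (l 16747384) (l 16740312))))), by decide +kernel⟩

def k77_pm_102 : ∃ t, chk3 f_pm_102 t 2 11 1 = true :=
  ⟨(a (l 2) (b (a (c (l 61840783799) (l 81705007239)) (c (l 16766744) (l 16766472))) (a (l 2) (c (l 16777200) (l 16777200))))), by decide +kernel⟩

def k78_pm_102 : ∃ t, chk3 f_pm_102 t 6 40 1 = true :=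
  ⟨(a (b (c (a (a (a (b (c (b (l 16777192) (c (l 16776544) (l 16776536))) (b (l 16777192) (c (l 16776536) (l 16776528)))) (b (b (c (l 16775800) (l 16775784)) (l 16774400)) (l 16772920))) (b (b (c (c (l 16776184) (l 16776176)) (c (l 16776168) (l 16776160))) (b (c (l 16774984) (l 16774952)) (l 16773080))) (l 16770280))) (b (b (b (c (l 16770280) (l 16770192)) (l 16768168)) (l 16766160)) (l 16765008))) (c (l 16730328) (a (l 16755736) (l 16746176)))) (a (a (a (b (c (b (l 16777192) (c (l 16776528) (l 16776520))) (b (l 16777192) (c (l 16776512) (l 16776512)))) (b (b (c (l 16775768) (l 16775744)) (l 16774328)) (l 16772808))) (b (b (c (c (l 16776152) (l 16776152)) (c (l 16776144) (l 16776136))) (b (c (l 16774920) (l 16774896)) (l 16772968))) (l 16770104))) (b (b (b (c (l 16770096) (l 16770008)) (l 16767928)) (l 16765872)) (l 16764688))) (c (a (l 16755464) (l 16745776)) (a (l 16755184) (l 16745376))))) (c (a (c (b (l 16770544) (l 16776024)) (b (l 16770456) (l 16776008))) (c (l 16771184) (l 16750136))) (a (c (b (l 16770368)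 (l 16775992)) (b (l 16770280) (l 16775976))) (c (l 16750056) (l 16749976))))) (a (b (c (a (l 16736704) (l 16726840)) (a (l 16735656) (l 16725528))) (c (b (l 16757872) (l 16774472)) (c (l 16747336) (l 16747216)))) (b (a (c (l 16716752) (l 16715184)) (b (c (l 16670824) (l 16648488)) (a (c (l 16725032) (l 16724136)) (c (a (l 16700344) (l 16665448)) (a (l 16698584) (l 16662608)))))) (a (b (c (l 16752896) (l 16752264)) (b (c (l 16768880) (l 16768664)) (a (l 16745784) (c (l 16775016) (l 16753992))))) (b (a (c (a (l 16746696) (l 16720856)) (a (l 16745904) (l 16699728))) (c (l 16679080) (l 16676704))) (a (c (l 16717152) (l 16695632)) (l 16658840))))))), by decide +kernel⟩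

def k79_pm_102 : ∃ t, chk3 f_pm_102 t 12 41 1 = true :=
  ⟨(b (c (a (b (c (l 16762824) (l 16762632)) (c (l 16744688) (l 16744264))) (b (l 16756104) (l 16733112))) (b (a (c (l 16762448) (l 16762256)) (l 16755552)) (a (c (l 16743832) (l 16743408)) (l 16731968)))) (b (c (a (b (l 16727952) (l 16722480)) (b (l 16713920) (l 16708976))) (a (b (l 16726672) (l 16721056)) (b (l 16712272) (l 16707200)))) (b (a (c (b (l 16720832) (l 16719384)) (b (l 16719368) (l 16717888))) (b (c (a (l 16711632) (l 16710616)) (a (l 16709928) (l 16687912))) (a (c (l 16710904) (l 16709184)) (a (b (l 16706248) (c (l 16713944) (l 16712296))) (c (b (l 16718152) (l 16741096)) (b (l 16716616) (l 16740160))))))) (a (b (b (b (c (l 16718312) (l 16716776)) (b (c (l 16717680) (l 16716136)) (c (a (l 16719624) (l 16714704)) (l 16715600)))) (c (l 16717184) (l 16715624))) (c (l 16717944) (l 16716400))) (a (b (c (b (b (l 16712864) (b (l 16716552) (b (b (l 16719104) (a (l 16712272) (l 16731016))) (l 16722352)))) (l 16722592)) (b (b (l 16711200) (b (l 16714976)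 (b (b (l 16717592) (a (l 16710584) (l 16729816))) (l 16720928)))) (l 16721168))) (a (l 16712448) (l 16734568))) (b (b (b (c (l 16723976) (l 16723136)) (c (l 16773584) (l 16773488))) (l 16764464)) (l 16764736))))))), by decide +kernel⟩

def k80_pm_102 : ∃ t, chk3 f_pm_102 t 13 41 1 = true :=
  ⟨(a (b (b (c (a (l 16750992) (l 16728920)) (a (l 16750312) (l 16728208))) (a (c (l 16724360) (l 16722984)) (c (a (b (l 16727248) (l 16677576)) (b (a (l 16728584) (l 16737000)) (l 16703624))) (a (b (l 16725952) (a (l 16712680) (l 16717760))) (b (a (l 16727320) (l 16735952)) (l 16702800)))))) (b (a (b (c (c (l 16688784) (l 16687904)) (c (l 16687024) (l 16686136))) (a (c (b (l 16701192) (l 16708664)) (b (l 16699216) (l 16706880))) (b (c (l 16693224) (l 16691584)) (l 16740200)))) (b (a (a (c (l 16674264) (l 16683168)) (l 16738904)) (l 16755464)) (l 16734416))) (b (b (a (c (l 16686520) (l 16685800)) (l 16713576)) (a (l 16741032) (l 16676752))) (a (c (l 16693432) (l 16691800)) (c (l 16636552) (l 16632896)))))) (b (a (b (c (a (b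 (l 16757944) (a (l 16746144) (l 16764944))) (l 16758304)) (a (b (l 16757448) (l 16713432)) (l 16736840))) (l 16697576)) (b (a (l 16703080) (l 16635608)) (a (l 16660080) (l 16605720)))) (b (a (b (l 16697208) (l 16656584)) (b (l 16569376) (l 16577352))) (b (a (l 16601312) (b (l 16548720) (l 16522560))) (a (c (l 16557040) (l 16551320)) (a (c (l 16499248) (l 16492440)) (c (l 16449352) (l 16490672)))))))), by decide +kernel⟩

def k81_pm_102 : ∃ t, chk3 f_pm_102 t 6 21 1 = true :=
  ⟨(a (a (c (l 16734192) (l 16733072)) (a (c (a (l 16730800) (l 16743112)) (a (l 16729592) (l 16742224))) (l 16749368))) (a (a (l 16714624) (l 16657848)) (a (l 16599872) (c (l 16521832) (l 16540496))))), by decide +kernel⟩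

def k82_pm_102 : ∃ t, chk3 f_pm_102 t 6 11 1 = true :=
  ⟨(a (a (c (l 16770392) (l 16770208)) (b (a (c (l 16763352) (l 16762992)) (l 16776624)) (c (l 16777208) (l 16777200)))) (b (a (l 16705472) (a (l 16717360) (l 16613864))) (a (l 16777176) (a (l 16777128) (l 16751976))))), by decide +kernel⟩

def k83_pm_102 : ∃ t, chk3 f_pm_102 t 14 10 1 = true :=
  ⟨(b (b (a (b (a (b (a (c (a (l 16620280) (l 16581000)) (a (l 16616248) (l 16575880))) (l 16502560)) (l 16479640)) (c (l 16345232) (l 16270960))) (a (c (l 16480000) (l 16473528)) (c (l 16313968) (l 16301880)))) (a (b (a (b (l 16209632) (l 16176344)) (l 16134632)) (a (c (l 16149080) (l 16132472)) (b (l 16063240) (l 16023400)))) (b (c (l 16064816) (l 16045632)) (c (l 15961744) (l 15939768))))) (b (a (a (b (l 16465728) (l 16415736)) (b (l 16275520) (l 16247272))) (a (b (l 16049776) (l 16022112)) (c (b (l 15881200) (l 15830408)) (b (l 15857072) (l 15804920))))) (b (a (b (a (l 16431224) (l 16222160)) (a (l 16411288) (l 16206752))) (a (b (l 15998512) (l 15988160)) (c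 (b (l 15792528) (l 15780544)) (b (l 15766048) (l 15753728))))) (a (b (c (l 16062216) (l 16134816)) (b (b (b (l 16145728) (b (l 16118032) (a (l 16353560) (l 16162736)))) (l 16152520)) (l 16156592))) (a (b (c (l 15987232) (l 15966552)) (b (b (b (l 15968224) (b (l 15963592) (l 15959312))) (l 15959184)) (l 15964688))) (b (c (b (l 15775320) (l 15770608)) (l 15682440)) (b (b (b (c (l 15765688) (l 15738440)) (b (c (l 15762360) (l 15735024)) (c (c (l 15766136) (l 15752432)) (l 15731872)))) (l 15746232)) (l 15752176)))))))) (a (a (c (l 16395944) (l 16430192)) (c (l 16208040) (l 16257712))) (a (c (l 15968048) (l 16075320)) (c (b (l 15817544) (l 15974320)) (l 15736208))))), by decide +kernel⟩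

def k84_pm_102 : ∃ t, chk3 f_pm_102 t 30 20 1 = true :=
  ⟨(a (b (b (c (b (l 15963864) (l 15910928)) (l 15914568)) (c (b (l 15856816) (l 15801544)) (l 15803168))) (b (c (b (l 15745000) (l 15686768)) (b (l 15716768) (l 15656904))) (b (b (l 15626648) (l 15611584)) (b (b (l 15605680) (l 15652552)) (b (b (b (l 15595512) (b (l 15592800) (c (l 15606472) (l 15574264)))) (l 15589760)) (l 15591312)))))) (b (c (b (a (l 15824368) (l 15692248)) (a (l 15711928) (l 15639944))) (b (l 15678840) (l 15561704))) (b (c (a (l 15597160) (b (l 15553624) (l 15496000))) (b (l 15557176) (l 15497696))) (b (c (b (a (l 15525152) (l 15453416)) (l 15477440)) (b (l 15453392) (l 15444816))) (b (c (a (l 15513240) (l 15450408)) (l 15445616)) (c (b (b (b (l 15478312) (b (l 15477632) (a (l 15488264) (l 15430816)))) (l 15477464)) (l 15480072)) (b (b (b (l 15445640) (b (l 15444936) (l 15444208))) (l 15444760)) (l 15447424)))))))), by decide +kernel⟩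

def k85_pm_102 : ∃ t, chk3 f_pm_102 t 31 20 2 = true :=
  ⟨(b (a (a (a (b (c (l 15712560) (l 15705944)) (c (l 15596088) (l 15587736))) (b (c (a (l 15686888) (b (l 15696048) (l 15638136))) (l 15674336)) (c (b (l 15587664) (l 15530280)) (l 15557792)))) (c (c (b (l 15608712) (l 15494880)) (b (l 15611304) (l 15496632))) (c (b (l 15614024) (l 15498536)) (l 15555152)))) (c (c (a (b (l 15527272) (l 15419024)) (c (l 15405768) (l 15401048))) (a (b (l 15521664) (l 15412568)) (l 15393960))) (a (c (l 15358048) (l 15462752)) (c (c (l 15386880) (a (l 15399920) (l 15359824))) (c (a (l 15392344) (l 15360104)) (a (l 15388160) (l 15359944))))))) (a (b (a (b (c (a (l 15509784) (l 15474024)) (l 15482232)) (c (a (l 15450752) (l 15419096)) (l 15427216))) (c (c (l 15385832) (l 15386736)) (c (l 15387792) (l 15387008)))) (a (a (b (c (b (l 15388352) (l 15405552)) (l 15395776)) (b (b (l 15402696) (c (l 15394928) (l 15404520))) (b (b (b (l 15409480) (b (l 15410256) (b (b (l 15410488) (l 15410880)) (l 15410720)))) (l 15412000)) (l 15415448))))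 (c (c (l 15360880) (l 15385072)) (l 15378336))) (c (b (b (l 15327168) (l 15326928)) (l 15343144)) (c (l 15335112) (l 15291960))))) (c (b (c (a (l 15324224) (l 15271952)) (a (l 15317024) (l 15261456))) (b (b (c (c (l 15238584) (l 15254848)) (l 15248448)) (c (l 15240144) (l 15252152))) (c (l 15260280) (l 15270408)))) (b (a (c (l 15312312) (l 15308592)) (c (a (l 15266256) (c (l 15236584) (l 15234288))) (c (a (l 15255360) (l 15233272)) (a (l 15255456) (l 15224112))))) (a (c (b (l 15262864) (l 15283008)) (b (b (l 15257280) (l 15258952)) (l 15277288))) (c (b (b (c (l 15196528) (l 15213464)) (l 15220168)) (l 15242840)) (b (b (a (l 15218064) (l 15202928)) (l 15218400)) (l 15240736)))))))), by decide +kernel⟩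

def k86_pm_102 : ∃ t, chk3 f_pm_102 t 31 40 3 = true :=
  ⟨(a (a (b (a (l 15684216) (c (l 15658344) (a (l 15654856) (c (l 15642904) (c (c (l 15638840) (l 15634280)) (l 15633704)))))) (a (l 15563400) (c (l 15540344) (c (a (l 15533680) (l 15521680)) (c (c (l 15416336) (c (l 15521848) (l 15518480))) (a (l 15522880) (l 15515264))))))) (c (c (l 15550848) (a (l 15562280) (c (l 15527752) (l 15520168)))) (a (c (c (l 15556712) (a (b (l 15624136) (l 15500856)) (b (l 15604208) (c (l 15482920) (l 15482016))))) (c (b (c (b (l 15634376) (l 15580192)) (l 15609272)) (c (c (l 15491232) (l 15492504)) (l 15492424))) (b (l 15608984) (l 15487744)))) (c (a (c (l 15464376) (c (l 15526096) (b (l 15586464) (l 15468064)))) (c (b (l 15568104) (l 15455336)) (c (l 15509952) (l 15504968)))) (b (c (b (l 15608136) (l 15544352)) (l 15567384)) (l 15450736)))))) (c (a (c (a (l 15488312) (c (l 15430712) (b (l 15488808) (l 15381680)))) (c (a (b (l 15540256) (l 15428544)) (b (l 15495680) (l 15386504))) (a (b (l 15539392) (l 15388264)) (b (l 15495144)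 (l 15381200))))) (c (a (c (l 15306704) (l 15243048)) (l 15347528)) (l 15361632))) (a (c (c (a (a (c (l 15493232) (l 15490336)) (l 15468272)) (l 15434112)) (l 15451176)) (l 15444608)) (c (l 15357144) (l 15289824))))), by decide +kernel⟩

def k87_pm_102 : ∃ t, chk3 f_pm_102 t 31 82 3 = true :=
  ⟨(a (c (a (a (l 15447888) (a (l 15432072) (l 15414552))) (c (l 15381776) (a (l 15387864) (c (l 15359128) (l 15351344))))) (a (a (a (l 15442928) (a (l 15431608) (b (l 15453328) (c (l 15397016) (l 15383872))))) (c (a (l 15418384) (l 15400680)) (a (c (b (l 15435304) (l 15380752)) (l 15407912)) (c (l 15392288) (l 15395048))))) (c (c (a (l 15378680) (c (l 15351136) (l 15351176))) (a (c (l 15374912) (a (l 15380896) (l 15369168))) (c (a (l 15356160) (l 15337960)) (l 15343520)))) (c (a (c (l 15295816) (l 15377416)) (l 15339920)) (l 15350928))))) (c (a (c (a (l 15325848) (c (l 15285072) (l 15290832))) (c (a (l 15326968) (l 15289888)) (a (l 15305624) (l 15287000)))) (c (c (a (l 15253584) (l 15218816)) (l 15229272)) (l 15224912)))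 (a (l 15293768) (c (l 15219368) (l 15213904))))), by decide +kernel⟩

def k88_pm_102 : ∃ t, chk3 f_pm_102 t 31 83 3 = true :=
  ⟨(a (a (a (b (c (l 15375720) (a (l 15367400) (c (l 15356520) (b (c (l 15345456) (l 15344648)) (l 15341992))))) (b (c (l 15383480) (a (l 15373608) (c (l 15365784) (b (l 15349016) (l 15354472))))) (c (b (b (b (l 15387256) (b (l 15388048) (l 15389632))) (l 15389816)) (l 15393336)) (b (b (b (c (l 15373016) (l 15361656)) (c (b (l 15373816) (l 15375416)) (b (l 15362448) (l 15364064)))) (c (l 15375608) (l 15364280))) (c (l 15379160) (l 15367912)))))) (c (c (l 15364104) (l 15354080)) (c (c (l 15305216) (a (l 15348248) (b (l 15329520) (l 15343264)))) (b (b (b (l 15334296) (l 15301592)) (l 15327464)) (l 15343928))))) (a (c (c (l 15340536) (b (l 15322904) (l 15338528))) (b (b (c (c (l 15313848) (c (l 15311248) (a (l 15315696) (l 15304456)))) (c (l 15292152) (l 15301136))) (c (c (l 15312832) (l 15315672)) (l 15314184))) (c (c (l 15329032) (l 15332880)) (l 15330360)))) (c (c (l 15295112) (b (b (c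 (l 15299624) (l 15293080)) (l 15295616)) (l 15313744))) (c (c (a (b (b (l 15297800) (l 15298240)) (l 15315872)) (l 15292224)) (l 15293504)) (l 15286000))))) (c (a (b (c (b (a (l 15272264) (c (l 15238256) (l 15241872))) (a (l 15273968) (l 15245576))) (a (c (b (l 15274008) (l 15276048)) (b (l 15269960) (l 15270768))) (l 15239512))) (c (c (l 15276936) (l 15280696)) (c (l 15281536) (l 15274128)))) (l 15211296)) (a (l 15252896) (c (l 15200976) (b (l 15182720) (l 15208120)))))), by decide +kernel⟩

def k89_pm_102 : ∃ t, chk3 f_pm_102 t 15 42 1 = true :=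
  ⟨(a (a (c (c (a (l 15676336) (l 15612864)) (l 15602792)) (a (l 15659720) (l 15572104))) (c (a (l 15538512) (l 15488576)) (l 15478040))) (c (a (a (c (a (l 15463360) (l 15438088)) (l 15445776)) (c (c (l 15396456) (l 15397368)) (l 15397360))) (c (c (a (l 15358528) (l 15339032)) (a (l 15351512) (c (l 15329720) (l 15322680)))) (c (a (l 15346984) (c (l 15319616) (l 15318056))) (a (a (l 15356328) (l 15329624)) (a (l 15318176) (l 15304496)))))) (a (c (a (a (l 15433768) (l 15414776)) (c (l 15389864) (a (l 15390312) (c (l 15374248) (l 15373016))))) (a (c (a (c (l 15422976) (l 15394344)) (b (c (l 15384328) (l 15372624)) (l 15419880))) (a (b (l 15390416) (l 15430624)) (l 15397672))) (c (c (b (a (c (l 15363160) (l 15362176)) (l 15292616)) (l 15386640)) (b (l 15357424) (l 15402336))) (l 15363960)))) (c (a (c (c (l 15344248) (a (l 15358696) (l 15330376))) (a (c (l 15358968) (l 15351032)) (l 15328720))) (l 15298472)) (a (l 15329280) (c (l 15289064) (l 15284032))))))), by decide +kernel⟩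

def k90_pm_102 : ∃ t, chk3 f_pm_102 t 15 43 1 = true :=
  ⟨(a (c (a (l 15755336) (a (b (l 15588296) (l 15656880)) (c (a (l 15574952) (l 15554328)) (l 15547816)))) (a (l 15748312) (a (l 15593816) (a (l 15532560) (c (l 15519328) (a (l 15507464) (c (l 15503840) (l 15494672)))))))) (c (a (a (c (c (l 15527896) (l 15528432)) (l 15522128)) (c (l 15486312) (l 15487208))) (c (c (a (l 15460600) (l 15453736)) (a (l 15454336) (b (l 15414160) (l 15474688)))) (c (a (l 15447688) (l 15398160)) (a (l 15449336) (l 15431536))))) (a (c (a (c (l 15508784) (a (l 15505408) (l 15492616))) (c (l 15480152) (b (c (l 15452264) (l 15456656)) (l 15503416)))) (a (b (c (a (l 15477544) (l 15464168)) (l 15466128)) (c (l 15504168) (l 15501456))) (c (a (l 15377192) (l 15459360)) (l 15456680)))) (c (a (c (c (l 15451312) (l 15452008)) (l 15446608)) (l 15419104)) (a (l 15436256) (c (l 15411000) (l 15406840))))))), by decide +kernel⟩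

def k91_pm_102 : ∃ t, chk3 f_pm_102 t 14 11 1 = true :=
  ⟨(b (a (a (l 16514096) (l 16381696)) (a (l 16159784) (a (l 16178576) (l 16063376)))) (a (c (l 16594152) (l 16589400)) (c (l 16365160) (l 16354456)))), by decide +kernel⟩

def k92_pm_102 : ∃ t, chk3 f_pm_102 t 15 11 1 = true :=
  ⟨(a (a (b (c (l 15842512) (l 15947248)) (c (l 16172072) (l 16156352))) (b (a (c (l 15876184) (l 15851448)) (b (a (l 15704424) (c (l 15620056) (c (l 15659984) (c (l 15647128) (l 15641136))))) (c (l 15887992) (c (l 15868312) (l 15857592))))) (c (a (l 16059504) (b (l 15993632) (l 15994200))) (b (c (l 15948624) (c (l 16004216) (l 15915456))) (l 16007240))))) (a (b (c (c (b (a (b (l 15594680) (l 15675136)) (b (l 15553456) (l 15609632))) (a (l 15824440) (l 15749888))) (b (a (l 15634240) (b (l 15555368) (l 15611392))) (a (l 15823504) (l 15754216)))) (b (c (b (a (c (l 15577512) (l 15560568)) (c (l 15550584) (l 15549976))) (a (l 15651600) (c (l 15609224) (l 15607240)))) (b (a (c (l 15558952) (l 15554224)) (l 15540896)) (a (l 15643504)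 (l 15590120)))) (c (l 15590904) (a (l 15799376) (l 15737248))))) (b (b (c (c (a (l 15936880) (l 15870896)) (l 15864952)) (c (l 15901200) (l 15848120))) (c (l 15908056) (l 15899120))) (c (l 15908056) (l 15899120)))) (b (a (c (c (b (l 15561456) (b (l 15649712) (l 15743792))) (b (c (l 15553520) (l 15556720)) (c (l 15696080) (l 15698616)))) (b (c (c (c (l 15556608) (l 15555520)) (l 15553656)) (l 15544504)) (c (l 15698808) (l 15564816)))) (c (c (b (c (l 15571368) (l 15565376)) (b (l 15658200) (l 15728536))) (c (b (l 15559176) (l 15684664)) (l 15613968))) (c (b (l 15540856) (l 15670760)) (b (c (l 15534128) (l 15530888)) (b (l 15626488) (c (l 15700320) (l 15698384))))))) (c (b (b (b (b (c (b (l 15792448) (l 15802984)) (l 15792408)) (l 15802904)) (l 15802904)) (l 15802904)) (l 15802904)) (c (a (l 15820288) (l 15766056)) (a (l 15814112) (c (l 15762032) (c (l 15760832) (l 15758968))))))))), by decide +kernel⟩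

def k93_pm_102 : ∃ t, chk3 f_pm_102 t 1 3 1 = true :=
  ⟨(a (a (l 2) (b (a (l 2) (c (b (l 16777216) (l 2)) (l 16777216))) (l 2))) (a (b (a (c (a (l 16777216) (a (l 16777216) (l 16777216))) (b (l 16777216) (l 16777216))) (a (c (l 16777216) (l 16777216)) (b (a (l 16777216) (l 16752048)) (l 16701608)))) (a (l 2) (a (l 2) (l 72041260167)))) (b (b (a (a (l 16508000) (c (l 16365336) (l 16354640))) (a (a (l 16164448) (b (c (l 16023368) (l 16007240)) (c (l 16023368) (l 16007240)))) (c (a (c (a (l 15938120) (l 15872232)) (l 15908248)) (c (l 15803536) (l 15797936))) (a (c (l 15902536) (l 15891408)) (c (a (l 15820656) (l 15766296)) (a (l 15814488) (l 15762472))))))) (a (a (l 16570920) (b (l 16359984) (l 16359984))) (c (c (a (b (a (l 16176232) (l 16037656)) (l 16111888)) (b (a (a (l 15938120) (l 15872232)) (l 15803536)) (l 15773312))) (a (b (l 16010704) (l 16094592)) (a (b (l 15908248) (l 15908248)) (l 15797936)))) (a (b (a (l 16156592) (l 16007240)) (l 16081376)) (b (a (l 15899120) (c (l 15795120) (l 15792576))) (a (l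 15899120) (l 15795696))))))) (a (a (l 16549944) (b (l 16359984) (l 16359984))) (a (c (b (a (l 16172304) (l 16023368)) (a (l 16172304) (l 16023368))) (b (l 16081376) (l 16081376))) (a (c (b (l 15908056) (l 15908056)) (l 15899120)) (b (c (l 15802904) (l 15753752)) (c (l 15802904) (l 15795696))))))))), by decide +kernel⟩

theorem s94_pm_102 : ∃ t, chk3 f_pm_102 t 7 11 1 = true := ex3_a k91_pm_102 k92_pm_102

theorem s95_pm_102 : ∃ t, chk3 f_pm_102 t 15 21 1 = true := ex3_b k89_pm_102 k90_pm_102

theorem s96_pm_102 : ∃ t, chk3 f_pm_102 t 31 41 3 = true := ex3_b k87_pm_102 k88_pm_102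

theorem s97_pm_102 : ∃ t, chk3 f_pm_102 t 31 20 3 = true := ex3_b k86_pm_102 s96_pm_102

theorem s98_pm_102 : ∃ t, chk3 f_pm_102 t 31 20 1 = true := ex3_c k85_pm_102 s97_pm_102

theorem s99_pm_102 : ∃ t, chk3 f_pm_102 t 15 20 1 = true := ex3_a k84_pm_102 s98_pm_102

theorem s100_pm_102 : ∃ t, chk3 f_pm_102 t 15 10 1 = true := ex3_b s99_pm_102 s95_pm_102

theorem s101_pm_102 : ∃ t, chk3 f_pm_102 t 7 10 1 = true := ex3_a k83_pm_102 s100_pm_102

theorem s102_pm_102 : ∃ t, chk3 f_pm_102 t 7 5 1 = true := ex3_b s101_pm_102 s94_pm_102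

theorem s103_pm_102 : ∃ t, chk3 f_pm_102 t 6 41 1 = true := ex3_a k79_pm_102 k80_pm_102

theorem s104_pm_102 : ∃ t, chk3 f_pm_102 t 6 20 1 = true := ex3_b k78_pm_102 s103_pm_102

theorem s105_pm_102 : ∃ t, chk3 f_pm_102 t 6 10 1 = true := ex3_b s104_pm_102 k81_pm_102

theorem s106_pm_102 : ∃ t, chk3 f_pm_102 t 6 5 1 = true := ex3_b s105_pm_102 k82_pm_102

theorem s107_pm_102 : ∃ t, chk3 f_pm_102 t 3 5 1 = true := ex3_a s106_pm_102 s102_pm_102

theorem s108_pm_102 : ∃ t, chk3 f_pm_102 t 10 83 1 = true := ex3_a k73_pm_102 k74_pm_102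

theorem s109_pm_102 : ∃ t, chk3 f_pm_102 t 5 83 1 = true := ex3_a s108_pm_102 k75_pm_102

theorem s110_pm_102 : ∃ t, chk3 f_pm_102 t 2 83 1 = true := ex3_a k72_pm_102 s109_pm_102

theorem s111_pm_102 : ∃ t, chk3 f_pm_102 t 21 82 1 = true := ex3_a k69_pm_102 k70_pm_102

theorem s112_pm_102 : ∃ t, chk3 f_pm_102 t 10 82 1 = true := ex3_a k68_pm_102 s111_pm_102

theorem s113_pm_102 : ∃ t, chk3 f_pm_102 t 5 82 1 = true := ex3_a s112_pm_102 k71_pm_102

theorem s114_pm_102 : ∃ t, chk3 f_pm_102 t 2 82 1 = true := ex3_a k67_pm_102 s113_pm_102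

theorem s115_pm_102 : ∃ t, chk3 f_pm_102 t 2 41 1 = true := ex3_b s114_pm_102 s110_pm_102

theorem s116_pm_102 : ∃ t, chk3 f_pm_102 t 11 40 3 = true := ex3_a k65_pm_102 k66_pm_102

theorem s117_pm_102 : ∃ t, chk3 f_pm_102 t 5 40 3 = true := ex3_a k64_pm_102 s116_pm_102

theorem s118_pm_102 : ∃ t, chk3 f_pm_102 t 11 40 2 = true := ex3_b k62_pm_102 k63_pm_102

theorem s119_pm_102 : ∃ t, chk3 f_pm_102 t 10 40 2 = true := ex3_a k60_pm_102 k61_pm_102

theorem s120_pm_102 : ∃ t, chk3 f_pm_102 t 5 40 2 = true := ex3_a s119_pm_102 s118_pm_102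

theorem s121_pm_102 : ∃ t, chk3 f_pm_102 t 5 40 1 = true := ex3_c s120_pm_102 s117_pm_102

theorem s122_pm_102 : ∃ t, chk3 f_pm_102 t 2 40 1 = true := ex3_a k59_pm_102 s121_pm_102

theorem s123_pm_102 : ∃ t, chk3 f_pm_102 t 2 20 1 = true := ex3_b s122_pm_102 s115_pm_102

theorem s124_pm_102 : ∃ t, chk3 f_pm_102 t 2 10 1 = true := ex3_b s123_pm_102 k76_pm_102

theorem s125_pm_102 : ∃ t, chk3 f_pm_102 t 2 5 1 = true := ex3_b s124_pm_102 k77_pm_102

theorem s126_pm_102 : ∃ t, chk3 f_pm_102 t 1 5 1 = true := ex3_a s125_pm_102 s107_pm_102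

theorem s127_pm_102 : ∃ t, chk3 f_pm_102 t 63 19 3 = true := ex3_b k57_pm_102 k58_pm_102

theorem s128_pm_102 : ∃ t, chk3 f_pm_102 t 31 19 3 = true := ex3_a k56_pm_102 s127_pm_102

theorem s129_pm_102 : ∃ t, chk3 f_pm_102 t 31 19 1 = true := ex3_c k55_pm_102 s128_pm_102

theorem s130_pm_102 : ∃ t, chk3 f_pm_102 t 15 19 1 = true := ex3_a k54_pm_102 s129_pm_102

theorem s131_pm_102 : ∃ t, chk3 f_pm_102 t 7 19 1 = true := ex3_a k53_pm_102 s130_pm_102

theorem s132_pm_102 : ∃ t, chk3 f_pm_102 t 31 18 3 = true := ex3_b k51_pm_102 k52_pm_102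

theorem s133_pm_102 : ∃ t, chk3 f_pm_102 t 31 18 1 = true := ex3_c k50_pm_102 s132_pm_102

theorem s134_pm_102 : ∃ t, chk3 f_pm_102 t 15 18 1 = true := ex3_a k49_pm_102 s133_pm_102

theorem s135_pm_102 : ∃ t, chk3 f_pm_102 t 14 36 1 = true := ex3_a k46_pm_102 k47_pm_102

theorem s136_pm_102 : ∃ t, chk3 f_pm_102 t 14 18 1 = true := ex3_b s135_pm_102 k48_pm_102

theorem s137_pm_102 : ∃ t, chk3 f_pm_102 t 7 18 1 = true := ex3_a s136_pm_102 s134_pm_102

theorem s138_pm_102 : ∃ t, chk3 f_pm_102 t 7 9 1 = true := ex3_b s137_pm_102 s131_pm_102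

theorem s139_pm_102 : ∃ t, chk3 f_pm_102 t 12 39 3 = true := ex3_b k43_pm_102 k44_pm_102

theorem s140_pm_102 : ∃ t, chk3 f_pm_102 t 6 39 3 = true := ex3_a s139_pm_102 k45_pm_102

theorem s141_pm_102 : ∃ t, chk3 f_pm_102 t 12 39 2 = true := ex3_b k40_pm_102 k41_pm_102

theorem s142_pm_102 : ∃ t, chk3 f_pm_102 t 6 39 2 = true := ex3_a s141_pm_102 k42_pm_102

theorem s143_pm_102 : ∃ t, chk3 f_pm_102 t 6 39 1 = true := ex3_c s142_pm_102 s140_pm_102

theorem s144_pm_102 : ∃ t, chk3 f_pm_102 t 13 38 1 = true := ex3_b k38_pm_102 k39_pm_102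

theorem s145_pm_102 : ∃ t, chk3 f_pm_102 t 25 38 1 = true := ex3_a k36_pm_102 k37_pm_102

theorem s146_pm_102 : ∃ t, chk3 f_pm_102 t 12 38 1 = true := ex3_a k35_pm_102 s145_pm_102

theorem s147_pm_102 : ∃ t, chk3 f_pm_102 t 6 38 1 = true := ex3_a s146_pm_102 s144_pm_102

theorem s148_pm_102 : ∃ t, chk3 f_pm_102 t 6 19 1 = true := ex3_b s147_pm_102 s143_pm_102

theorem s149_pm_102 : ∃ t, chk3 f_pm_102 t 27 18 1 = true := ex3_a k33_pm_102 k34_pm_102

theorem s150_pm_102 : ∃ t, chk3 f_pm_102 t 13 18 1 = true := ex3_a k32_pm_102 s149_pm_102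

theorem s151_pm_102 : ∃ t, chk3 f_pm_102 t 6 18 1 = true := ex3_a k31_pm_102 s150_pm_102

theorem s152_pm_102 : ∃ t, chk3 f_pm_102 t 6 9 1 = true := ex3_b s151_pm_102 s148_pm_102

theorem s153_pm_102 : ∃ t, chk3 f_pm_102 t 3 9 1 = true := ex3_a s152_pm_102 s138_pm_102

theorem s154_pm_102 : ∃ t, chk3 f_pm_102 t 15 35 3 = true := ex3_b k29_pm_102 k30_pm_102

theorem s155_pm_102 : ∃ t, chk3 f_pm_102 t 30 34 3 = true := ex3_b k26_pm_102 k27_pm_102

theorem s156_pm_102 : ∃ t, chk3 f_pm_102 t 15 34 3 = true := ex3_a s155_pm_102 k28_pm_102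

theorem s157_pm_102 : ∃ t, chk3 f_pm_102 t 15 17 3 = true := ex3_b s156_pm_102 s154_pm_102

theorem s158_pm_102 : ∃ t, chk3 f_pm_102 t 31 17 2 = true := ex3_a k24_pm_102 k25_pm_102

theorem s159_pm_102 : ∃ t, chk3 f_pm_102 t 30 34 2 = true := ex3_b k21_pm_102 k22_pm_102

theorem s160_pm_102 : ∃ t, chk3 f_pm_102 t 30 17 2 = true := ex3_b s159_pm_102 k23_pm_102

theorem s161_pm_102 : ∃ t, chk3 f_pm_102 t 15 17 2 = true := ex3_a s160_pm_102 s158_pm_102

theorem s162_pm_102 : ∃ t, chk3 f_pm_102 t 15 17 1 = true := ex3_c s161_pm_102 s157_pm_102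

theorem s163_pm_102 : ∃ t, chk3 f_pm_102 t 14 71 1 = true := ex3_b k19_pm_102 k20_pm_102

theorem s164_pm_102 : ∃ t, chk3 f_pm_102 t 14 70 1 = true := ex3_b k17_pm_102 k18_pm_102

theorem s165_pm_102 : ∃ t, chk3 f_pm_102 t 14 35 1 = true := ex3_b s164_pm_102 s163_pm_102

theorem s166_pm_102 : ∃ t, chk3 f_pm_102 t 14 17 1 = true := ex3_b k16_pm_102 s165_pm_102

theorem s167_pm_102 : ∃ t, chk3 f_pm_102 t 7 17 1 = true := ex3_a s166_pm_102 s162_pm_102

theorem s168_pm_102 : ∃ t, chk3 f_pm_102 t 30 135 1 = true := ex3_a k13_pm_102 k14_pm_102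

theorem s169_pm_102 : ∃ t, chk3 f_pm_102 t 30 67 1 = true := ex3_b k12_pm_102 s168_pm_102

theorem s170_pm_102 : ∃ t, chk3 f_pm_102 t 30 33 1 = true := ex3_b k11_pm_102 s169_pm_102

theorem s171_pm_102 : ∃ t, chk3 f_pm_102 t 30 16 1 = true := ex3_b k10_pm_102 s170_pm_102

theorem s172_pm_102 : ∃ t, chk3 f_pm_102 t 15 16 1 = true := ex3_a s171_pm_102 k15_pm_102

theorem s173_pm_102 : ∃ t, chk3 f_pm_102 t 7 16 1 = true := ex3_a k9_pm_102 s172_pm_102

theorem s174_pm_102 : ∃ t, chk3 f_pm_102 t 7 8 1 = true := ex3_b s173_pm_102 s167_pm_102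

theorem s175_pm_102 : ∃ t, chk3 f_pm_102 t 3 8 1 = true := ex3_a k8_pm_102 s174_pm_102

theorem s176_pm_102 : ∃ t, chk3 f_pm_102 t 3 4 1 = true := ex3_b s175_pm_102 s153_pm_102

theorem s177_pm_102 : ∃ t, chk3 f_pm_102 t 11 79 1 = true := ex3_a k6_pm_102 k7_pm_102

theorem s178_pm_102 : ∃ t, chk3 f_pm_102 t 11 39 1 = true := ex3_b k5_pm_102 s177_pm_102

theorem s179_pm_102 : ∃ t, chk3 f_pm_102 t 11 19 1 = true := ex3_b k4_pm_102 s178_pm_102

theorem s180_pm_102 : ∃ t, chk3 f_pm_102 t 11 9 1 = true := ex3_b k3_pm_102 s179_pm_102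

theorem s181_pm_102 : ∃ t, chk3 f_pm_102 t 11 4 1 = true := ex3_b k2_pm_102 s180_pm_102

theorem s182_pm_102 : ∃ t, chk3 f_pm_102 t 5 4 1 = true := ex3_a k1_pm_102 s181_pm_102

theorem s183_pm_102 : ∃ t, chk3 f_pm_102 t 2 4 1 = true := ex3_a k0_pm_102 s182_pm_102

theorem s184_pm_102 : ∃ t, chk3 f_pm_102 t 1 4 1 = true := ex3_a s183_pm_102 s176_pm_102

theorem s185_pm_102 : ∃ t, chk3 f_pm_102 t 1 2 1 = true := ex3_b s184_pm_102 s126_pm_102

theorem s186_pm_102 : ∃ t, chk3 f_pm_102 t 1 1 1 = true := ex3_b s185_pm_102 k93_pm_102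

theorem c_pm_102 : CertFX 536870912 536870912 67108864 469762048 1046898278 26843546 true true false .npp 1 0 2
    ndF0q1 ndF1q0 pcF2 Cut.none Ext.none :=
  certFX1 (fam := true) (s1 := true) (s2 := false) (a := 1) (b := 0) (c := 2) (cn := .npp) (n1 := ndF0q1) (n2 := ndF1q0) (pc := pcF2) (cut := Cut.none) (xt := Ext.none) (P1 := 536870912) (W1 := 536870912) (P2 := 67108864) (W2 := 469762048) (P3 := 1046898278) (W3 := 26843546)
    rfl (fun _ => rfl) s186_pm_102

end Pool.Agent.Strip051.G.IE1.Tab.C.FA01

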