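import Pool.Agent.Strip051.G.IE1.Tab

/-! # Certificates F5 (generated) -/

set_option linter.all false
set_option maxRecDepth 100000

namespace Pool.Agent.Strip051.G.IE1.Tab.C.FA01

open Pool.Agent.Strip051.PB Pool.Agent.Strip051.PB.T
open Pool.Agent.Strip051.G.IE1.Tab

noncomputable def f_pm_112 : ℕ → ℕ → ℕ → ℕ → Bool := onCell 536870912 536870912 1073741824 536870912 1046898278 26843546
    (rowFX 1 true true false .dn 1 1 2 (qsf 536870912 536870912 536870912 536870912 2) ndF0q1 ndF1q1 pcF2 Cut.none Ext.none)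

def k0_pm_112 : ∃ t, chk3 f_pm_112 t 1 4 1 = true :=
  ⟨(a (a (l 3) (a (l 3) (l 1))) (l 1)), by decide +kernel⟩

def k1_pm_112 : ∃ t, chk3 f_pm_112 t 2 40 1 = true :=
  ⟨(a (a (l 3) (a (l 3) (a (l 3) (a (l 3) (b (l 3) (b (l 3) (b (l 3) (a (l 3) (c (c (l 1200611131399) (l 1169472618503)) (c (l 1129744171015) (l 1080888918023))))))))))) (a (a (a (b (l 3) (b (l 3) (b (b (l 3) (a (l 3) (c (c (c (l 863993069575) (l 852718780423)) (c (l 839833878535) (l 825875234823))) (c (c (l 810842849287) (l 794199850999)) (c (l 775946239991) (l 756618887127)))))) (a (b (a (l 3) (c (c (l 950966157319) (l 925733224455)) (c (l 894594711559) (l 857013747703)))) (c (c (c (l 16777216) (l 16777216)) (c (l 425906405383) (l 404431568903))) (c (c (l 16777216) (l 16777216)) (l 363092508663)))) (c (c (c (l 16777216) (l 219211104263)) (b (c (l 16777216) (l 16777216)) (l 16777216))) (c (c (b (l 16777216) (l 16777216)) (l 16777216)) (c (l 16777216) (l 16777216)))))))) (b (l 1) (a (b (l 1) (b (l 1) (b (l 1) (c (c (l 16777216) (l 16777216))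 (c (l 16777216) (l 16777216)))))) (l 1)))) (l 1)) (l 1))), by decide +kernel⟩

def k2_pm_112 : ∃ t, chk3 f_pm_112 t 4 164 1 = true :=
  ⟨(a (l 3) (a (l 3) (a (b (l 3) (a (b (l 3) (c (c (l 1064245919751) (l 1055119114247)) (c (l 1039549857799) (l 1015927537655)))) (c (c (b (l 961703575559) (l 16777216)) (b (l 950966157319) (l 16777216))) (c (b (l 934860029959) (l 16777216)) (b (l 912311451639) (l 16777216)))))) (c (c (c (b (a (l 991768346631) (l 443086274567)) (l 16777216)) (b (b (l 835538911239) (l 469929820167)) (l 16777216))) (b (a (c (l 975662219271) (l 965461671943)) (b (c (l 573545906183) (l 553681682439)) (l 16777216))) (c (l 16777216) (l 16777216)))) (c (b (a (c (l 953650511879) (l 940228739079)) (b (c (l 538112425975) (l 16777216)) (l 16777216))) (c (l 16777216) (l 16777216))) (b (c (b (l 742660243463) (l 417853341687)) (b (l 735680921559) (l 16777216))) (c (l 16777216) (l 16777216)))))))), by decide +kernel⟩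

def k3_pm_112 : ∃ t, chk3 f_pm_112 t 4 165 1 = true :=
  ⟨(a (l 3) (b (a (a (l 3) (a (b (l 3) (c (c (l 1189336842247) (l 1187726229511)) (c (l 1176988811271) (l 1158198329335)))) (c (c (b (l 1142092201991) (l 16777216)) (b (l 1136186621959) (l 16777216))) (c (b (l 1122227978247) (l 16777216)) (b (l 1099679399927) (l 16777216)))))) (c (c (c (a (l 16777216) (l 16777216)) (b (l 16777216) (l 16777216))) (c (b (l 16777216) (l 16777216)) (b (l 16777216) (l 16777216)))) (c (c (b (l 16777216) (l 16777216)) (b (l 16777216) (l 16777216))) (c (a (l 16777216) (l 16777216)) (a (l 16777216) (l 16777216)))))) (a (a (b (a (l 3) (c (c (l 1196853035015) (l 1209737936903)) (c (l 1247318900743) (l 1253761351671)))) (c (c (c (l 762524467207) (l 781851820039)) (c (l 793126109191) (l 795273592839))) (c (c (l 789904883719) (l 776483110919)) (c (l 755008274423) (l 726017245175))))) (c (b (c (c (l 16777216) (l 16777216)) (c (l 16777216) (l 16777216))) (c (l 16777216) (l 16777216))) (c (b (c (l 16777216) (l 16777216)) (l 16777216))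 (c (l 16777216) (l 16777216))))) (c (c (c (c (l 16777216) (l 16777216)) (c (l 16777216) (l 16777216))) (c (b (l 16777216) (l 16777216)) (b (l 16777216) (l 16777216)))) (c (c (b (l 16777216) (l 16777216)) (b (l 16777216) (l 16777216))) (c (b (l 16777216) (l 16777216)) (l 16777216))))))), by decide +kernel⟩

def k4_pm_112 : ∃ t, chk3 f_pm_112 t 5 82 1 = true :=
  ⟨(a (a (b (c (c (c (b (c (l 16777216) (l 16777216)) (c (l 16777216) (l 16777216))) (b (c (l 16777216) (l 16777216)) (c (l 16777216) (l 16777216)))) (b (c (c (l 16777216) (l 16777216)) (c (l 16777216) (l 16777216))) (c (c (l 16777216) (l 16777216)) (c (l 16777216) (l 16777216))))) (c (c (b (c (l 16777216) (l 16777216)) (c (l 16777216) (l 16777216))) (b (c (l 16777216) (l 16777216)) (c (l 16777216) (l 16777216)))) (c (b (c (l 16777216) (l 16777216)) (c (l 16777216) (l 16777216))) (b (l 16777216) (l 16777216))))) (c (c (b (c (c (l 16777216) (l 16777216)) (c (l 16777216) (l 16777216))) (c (c (l 16777216) (l 16777216)) (b (l 16777216) (l 16777216))))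 (b (c (c (l 16777216) (l 16777216)) (c (l 16777216) (l 16777216))) (c (b (l 16777216) (l 8623488983)) (b (l 12918456279) (c (l 16777216) (l 16777216)))))) (c (b (c (c (l 16777216) (l 16777216)) (c (l 16777216) (l 16777216))) (c (b (l 16676552663) (c (l 16777216) (l 16777216))) (b (l 16777216) (l 16777216)))) (b (c (c (l 16777216) (l 16777216)) (l 16777216)) (c (b (l 16777216) (l 16777216)) (b (l 16777216) (l 16777216))))))) (l 1)) (l 1)), by decide +kernel⟩

def k5_pm_112 : ∃ t, chk3 f_pm_112 t 4 332 1 = true :=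
  ⟨(a (a (l 3) (a (a (l 3) (b (l 3) (c (c (l 1876531609607) (b (l 3) (l 1660709502983))) (c (l 1760567492615) (l 1746071977991))))) (c (c (b (c (l 1461530394631) (l 1421801947143)) (c (l 607905644551) (l 629380481031))) (b (c (l 1369725468679) (l 1352008728583)) (c (l 600926322695) (l 548312973319)))) (c (b (c (l 1360598663175) (l 1366504243207)) (c (l 486035947527) (l 16777216))) (b (c (l 1370262339591) (l 1371336081399)) (c (l 16777216) (l 16777216))))))) (c (c (c (a (b (l 16777216) (l 16777216)) (b (l 16777216) (l 16777216))) (a (b (a (l 16777216) (l 16777216)) (l 16777216)) (b (l 16777216) (l 16777216)))) (a (c (b (a (l 16777216) (l 16777216)) (l 16777216)) (b (a (l 16777216) (l 16777216)) (l 16777216))) (c (b (l 16777216) (l 16777216)) (b (l 16777216) (l 16777216))))) (c (a (c (b (a (l 16777216) (l 16777216)) (l 16777216)) (b (l 77477183495) (l 16777216))) (c (b (l 16777216) (l 16777216)) (b (l 16777216) (l 16777216)))) (a (c (b (l 16777216) (l 16777216)) (b (l 16777216) (l 16777216))) (c (b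 (l 16777216) (l 16777216)) (b (l 16777216) (l 16777216))))))), by decide +kernel⟩

def k6_pm_112 : ∃ t, chk3 f_pm_112 t 8 333 1 = true :=
  ⟨(a (a (l 3) (b (l 3) (a (b (l 3) (c (c (l 1741240139783) (l 1756809396231)) (c (l 1757346267143) (l 16777216)))) (c (c (b (l 1467972845575) (l 16777216)) (b (l 1489984552967) (l 16777216))) (c (c (l 16777216) (l 16777216)) (l 1115785527303)))))) (c (c (b (a (c (a (l 1535618580487) (l 16777216)) (a (l 1509311905799) (l 16777216))) (c (l 16777216) (l 16777216))) (c (c (l 16777216) (l 16777216)) (c (l 16777216) (l 16777216)))) (b (a (c (a (l 1499111358471) (l 16777216)) (a (l 1507164422151) (l 16777216))) (c (l 16777216) (l 16777216))) (c (c (l 16777216) (l 16777216)) (c (l 16777216) (l 16777216))))) (c (b (c (a (l 919827644423) (l 16777216)) (a (l 848423813127) (l 16777216))) (c (l 16777216) (l 16777216))) (b (c (a (l 16777216) (l 16777216)) (l 294373031927)) (c (l 16777216) (l 16777216)))))), by decide +kernel⟩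

def k7_pm_112 : ∃ t, chk3 f_pm_112 t 9 333 1 = true :=
  ⟨(c (c (a (c (b (l 16777216) (c (l 16777216) (l 16777216))) (b (a (l 16777216) (l 16777216)) (c (l 16777216) (l 16777216)))) (b (c (l 16777216) (c (l 16777216) (l 16777216))) (b (c (l 16777216) (l 16777216)) (b (c (l 16777032) (l 16777032)) (a (l 16777216) (a (l 16777216) (c (l 16776792) (l 16776792)))))))) (a (c (b (a (l 16777216) (l 16777216)) (c (l 16777216) (l 16777216))) (b (a (l 16777216) (l 16777216)) (c (l 16777216) (l 16777216)))) (b (c (c (l 16777216) (l 16777216)) (c (l 16777216) (l 16777216))) (b (c (l 16777216) (l 16777216)) (b (c (l 16777032) (l 16777032)) (a (l 16777216) (a (l 16777216) (c (l 16776792) (l 16776784))))))))) (c (a (b (c (a (l 16777216) (l 16777216)) (l 16777216)) (c (c (l 16777216) (l 16777216)) (c (l 16777216) (l 16777216)))) (b (c (c (l 16777216) (l 16777216)) (l 16777216)) (a (c (l 16777216) (l 16777216)) (a (c (l 16777216) (l 16777216)) (b (l 16777216) (c (b (l 16777064) (l 16776784)) (l 16776800))))))) (a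 (b (c (l 16777216) (l 16777216)) (c (a (l 16777216) (l 16777216)) (l 16777216))) (b (c (l 16777216) (l 16777216)) (a (c (l 16777216) (l 16777216)) (b (l 16777216) (c (l 16776800) (l 16776792)))))))), by decide +kernel⟩

def k8_pm_112 : ∃ t, chk3 f_pm_112 t 8 334 1 = true :=
  ⟨(a (c (b (a (b (a (l 3) (c (l 1928608088071) (l 1939882377223))) (c (c (l 1156050845703) (l 1163567038471)) (c (l 1159272071175) (l 1142629072903)))) (c (c (b (l 16777216) (l 16777216)) (b (l 16777216) (l 16777216))) (c (b (l 16777216) (l 16777216)) (l 16777216)))) (b (c (c (l 16777216) (l 16777216)) (c (l 16777216) (l 16777216))) (c (c (a (l 16777216) (l 16777216)) (a (l 16777216) (l 16777216))) (c (a (l 16777216) (l 16777216)) (a (l 16777216) (l 16777216)))))) (b (c (c (a (b (l 2331261272071) (l 16777216)) (l 16777216)) (a (b (l 2315155144711) (l 16777216)) (l 16777216))) (c (a (l 1800295940103) (l 16777216)) (a (l 1787411038215) (l 16777216)))) (b (c (c (l 16777216) (l 16777216)) (c (l 16777216) (l 16777216))) (c (c (a (l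 16777216) (l 16777216)) (l 16777216)) (c (l 16777216) (l 16777216)))))) (c (b (c (c (a (l 16777216) (l 16777216)) (a (l 16777216) (l 16777216))) (c (a (l 16777216) (l 16777216)) (a (l 16777216) (l 16777216)))) (b (c (c (l 16777216) (l 16777216)) (c (l 16777216) (l 16777216))) (b (c (c (l 16777216) (l 16777216)) (c (l 16777216) (l 16777216))) (c (c (l 16777216) (l 16777216)) (c (l 16777216) (l 16777216)))))) (b (c (c (a (l 16777216) (l 16777216)) (a (l 16777216) (l 16777216))) (c (a (l 16777216) (l 16777216)) (l 16777216))) (b (c (c (l 16777216) (l 16777216)) (c (l 16777216) (l 16777216))) (b (c (c (l 16777216) (l 16777216)) (c (l 16777216) (l 16777216))) (c (c (l 16777216) (l 16777216)) (c (l 16777216) (l 16777216)))))))), by decide +kernel⟩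

def k9_pm_112 : ∃ t, chk3 f_pm_112 t 16 335 1 = true :=
  ⟨(b (b (b (c (c (c (a (l 16777216) (l 16777216)) (a (l 16777216) (l 16777216))) (c (a (l 16777216) (l 16777216)) (a (l 16777216) (l 16777216)))) (c (c (l 16777216) (l 16777216)) (c (l 16777216) (l 16777216)))) (b (c (b (c (c (l 16777216) (l 16777216)) (c (l 16777216) (l 16777216))) (c (c (l 16777216) (l 16777216)) (c (l 16777216) (l 16777216)))) (c (c (a (l 16777216) (l 16777216)) (a (l 16777216) (l 16777216))) (c (l 16777216) (l 16777216)))) (b (b (c (c (c (l 16777216) (l 16777216)) (c (l 16777216) (l 16777216))) (c (c (l 16777216) (l 16777216)) (c (l 16777216) (l 16777216)))) (b (c (c (b (b (c (l 16777216) (l 16777216)) (b (c (l 16777216) (l 16777216)) (c (a (l 16777216) (l 16777216)) (a (l 16777216) (l 16777216))))) (l 16777216)) (b (b (c (l 16777216) (l 16777216)) (b (c (l 16777216) (l 16777216)) (c (a (l 16777216) (l 16777216)) (a (l 16777216) (l 16777216))))) (l 16777216))) (b (b (c (l 16777216) (l 16777216)) (b (c (l 16777216) (l 16777216))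 (c (c (a (l 16777216) (l 16777216)) (l 16777216)) (c (l 16777216) (l 16777216))))) (c (l 16777216) (l 16777216)))) (c (c (l 16777216) (l 16777216)) (c (l 16777216) (l 16777216))))) (c (c (l 16777216) (l 16777216)) (c (l 16777216) (l 16777216)))))) (c (c (l 16777216) (l 16777216)) (c (l 16777216) (l 16777216)))) (c (c (l 16777216) (l 16777216)) (c (l 16777216) (l 16777216)))), by decide +kernel⟩

def k10_pm_112 : ∃ t, chk3 f_pm_112 t 34 670 1 = true :=
  ⟨(c (b (b (c (c (l 16777216) (l 16777216)) (c (l 16777216) (l 16777216))) (c (b (b (l 16777216) (c (l 16777216) (l 16777216))) (b (b (c (l 16777216) (l 16777216)) (b (b (b (l 16777216) (b (l 16777216) (b (l 16777216) (l 16777216)))) (l 16777216)) (l 16777216))) (l 16777216))) (b (b (l 16777216) (c (l 16777216) (l 16777216))) (b (b (c (l 16777216) (l 16777216)) (b (b (b (l 16777216) (b (l 16777216) (b (l 16777216) (l 16777216)))) (l 16777216)) (l 16777216))) (l 16777216))))) (c (l 16777216) (l 16777216))) (b (a (b (c (c (l 16777216) (l 16777216)) (l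 16777216)) (b (b (c (l 16777216) (l 16777216)) (c (l 16777216) (l 16777216))) (b (b (c (l 16777216) (l 16777216)) (b (b (b (c (l 16777216) (l 16777216)) (b (c (l 16777216) (l 16777216)) (c (b (l 16777216) (l 16777216)) (l 16777216)))) (l 16777216)) (l 16777216))) (l 16777216)))) (b (c (c (l 16777216) (l 16777216)) (c (l 16777216) (l 16777216))) (b (b (c (l 16777216) (l 16777216)) (c (l 16777216) (l 16777216))) (b (b (c (c (l 16777216) (l 16777216)) (l 16777216)) (b (b (b (c (l 16777216) (l 16777216)) (b (c (l 16777216) (l 16777216)) (c (b (l 16777216) (l 16777216)) (l 16777216)))) (l 16777216)) (l 16777216))) (l 16777216))))) (c (l 16777216) (l 16777216)))), by decide +kernel⟩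

def k11_pm_112 : ∃ t, chk3 f_pm_112 t 35 670 2 = true :=
  ⟨(b (a (c (b (b (l 16777216) (l 16777216)) (b (b (l 16777216) (l 16777216)) (b (b (b (l 16777216) (l 16777216)) (b (b (b (l 16777216) (b (l 16777216) (b (l 16777216) (l 16777216)))) (l 16777216)) (l 16777216))) (l 16777216)))) (b (b (l 16777216) (l 16777216)) (b (b (l 16777216) (l 16777216)) (b (b (b (l 16777216) (l 16777216)) (b (b (b (l 16777216) (b (l 16777216) (b (l 16777216) (l 16777216)))) (l 16777216)) (l 16777216))) (l 16777216))))) (c (b (b (l 16777216) (l 16777216)) (b (b (l 16777216) (l 16777216)) (c (b (b (l 16777216) (b (b (b (l 16777168) (b (l 16777120) (b (l 16777072) (l 16777032)))) (l 16777032)) (l 16777032))) (l 16777032)) (b (b (l 16777216) (b (b (b (l 16777168) (b (l 16777120) (b (l 16777072) (l 16777032)))) (l 16777032)) (l 16777032))) (l 16777032))))) (b (b (l 16777216) (l 16777216)) (a (b (c (l 16777216) (l 16777216)) (b (b (c (l 16777216) (l 16777216)) (b (b (b (l 16777216) (b (l 16777216) (c (l 16777216) (l 16777216))))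 (l 16777216)) (l 16777216))) (l 16777216))) (b (c (l 16777216) (l 16777216)) (b (b (c (l 16777216) (l 16777216)) (b (b (b (l 16777176) (b (l 16777120) (b (l 16777056) (l 16776984)))) (l 16776944)) (l 16776944))) (l 16776944))))))) (c (l 16777040) (l 16777032))), by decide +kernel⟩

def k12_pm_112 : ∃ t, chk3 f_pm_112 t 35 670 3 = true :=
  ⟨(b (a (b (b (c (l 16777216) (l 16777216)) (c (l 16777216) (l 16777216))) (b (b (c (l 16777216) (l 16777216)) (c (l 16777216) (l 16777216))) (b (b (c (c (l 16777216) (l 16777216)) (l 16777216)) (b (b (b (c (l 16777216) (l 16777216)) (b (c (l 16777216) (l 16777216)) (b (c (l 16777216) (l 16777216)) (c (l 16777216) (l 16777216))))) (l 16777216)) (l 16777216))) (l 16777216)))) (c (c (b (l 16777216) (b (l 16777216) (b (b (l 16777216) (b (b (b (l 16777168) (b (l 16777120) (b (l 16777072) (l 16777032)))) (l 16777032)) (l 16777032))) (l 16777032)))) (b (l 16777216) (b (l 16777216) (b (b (l 16777216) (b (b (b (l 16777168) (b (l 16777120) (b (l 16777064) (l 16777032))))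 (l 16777032)) (l 16777032))) (l 16777032))))) (b (b (l 16777216) (l 16777216)) (b (b (l 16777216) (l 16777216)) (b (b (l 16777216) (b (b (b (l 16777168) (b (l 16777120) (b (l 16777064) (l 16777032)))) (l 16777024)) (l 16777024))) (l 16777024)))))) (c (l 16777032) (l 16777032))), by decide +kernel⟩

def k13_pm_112 : ∃ t, chk3 f_pm_112 t 17 671 1 = true :=
  ⟨(c (c (a (l 16777216) (l 16777048)) (a (l 16777216) (l 16777048))) (c (a (l 16777216) (l 16777048)) (l 16777024))), by decide +kernel⟩

def k14_pm_112 : ∃ t, chk3 f_pm_112 t 18 167 2 = true :=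
  ⟨(b (b (b (c (c (l 16777216) (l 16777216)) (c (l 16777216) (l 16777216))) (c (c (l 16777216) (l 16777216)) (c (l 16777216) (l 16777216)))) (a (b (c (c (l 16777216) (l 16777216)) (c (l 16777216) (l 16777216))) (a (c (b (l 16777216) (l 16777216)) (b (l 16777216) (l 16777216))) (c (b (l 16777216) (l 16777216)) (b (l 16777216) (l 16777216))))) (b (c (c (l 16777216) (l 16777216)) (c (l 16777216) (l 16777216))) (b (c (c (l 16777048) (l 16777048)) (c (l 16777040) (l 16777040))) (b (c (a (l 16777216) (c (l 16776800) (l 16776800))) (a (l 16777216) (c (l 16776800) (l 16776792)))) (c (a (l 16777136) (l 16776232)) (a (l 16777136) (l 16776216)))))))) (b (a (b (b (b (c (l 16777216) (l 16777216)) (b (c (l 16777216) (l 16777216)) (c (a (l 16777216) (l 16777048)) (c (l 16777032) (l 16777032))))) (a (b (b (c (l 16777216) (l 16777216)) (c (a (l 16777216) (c (l 16777016) (l 16777016))) (a (l 16777216) (c (l 16777016) (l 16777016))))) (b (b (b (c (l 16776880) (l 16776872)) (a (c (l 16776960) (l 16776952)) (l 16776048)))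 (b (b (b (c (l 16776112) (l 16776096)) (l 16775608)) (l 16775296)) (l 16775296))) (l 16775296))) (b (b (c (c (l 16776760) (l 16776752)) (c (l 16776752) (l 16776752))) (b (c (l 16776320) (l 16776312)) (l 16775608))) (c (l 16774152) (l 16774112))))) (c (l 16774248) (l 16774208))) (b (b (a (b (c (c (l 16776840) (l 16776840)) (c (l 16776832) (l 16776832))) (b (c (l 16776432) (l 16776424)) (c (l 16775720) (l 16775696)))) (l 16774296)) (b (l 16772928) (c (l 16770792) (l 16770704)))) (l 16769800))) (c (l 16772184) (l 16772120)))), by decide +kernel⟩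

def k15_pm_112 : ∃ t, chk3 f_pm_112 t 18 167 3 = true :=
  ⟨(b (b (b (c (c (l 16777216) (l 16777216)) (c (l 16777216) (l 16777216))) (c (c (l 16777216) (l 16777216)) (c (l 16777216) (l 16777216)))) (b (c (c (a (l 16777216) (l 16777216)) (a (l 16777216) (l 16777216))) (c (l 16777216) (l 16777216))) (b (c (a (c (l 16777216) (l 16777216)) (c (l 16777040) (l 16777040))) (c (a (l 16777216) (l 16777040)) (l 16777016))) (c (a (c (l 16777216) (l 16777216)) (c (a (l 16777128) (l 16771168)) (a (l 16777128) (l 16776408)))) (a (c (l 16777216) (l 16777216)) (a (l 16777128) (c (l 16776400) (l 16776392)))))))) (b (b (b (a (b (c (l 16777216) (l 16777216)) (c (c (l 16777024) (l 16777024)) (c (l 16777024) (l 16777024)))) (b (a (c (c (l 16776832) (l 16776832)) (l 16776824)) (l 16775000)) (b (c (l 16775288) (l 16775264)) (c (l 16774472) (l 16774432))))) (b (a (b (c (a (l 16777216) (c (l 16776744) (l 16776744))) (c (l 16776800) (l 16776800))) (c (c (a (l 16777016) (l 16775936)) (a (l 16777008) (l 16775928))) (c (a (l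 16777008) (l 16775920)) (l 16776360)))) (l 16772816)) (b (b (a (a (b (c (l 16776864) (l 16776864)) (a (c (l 16776952) (l 16776944)) (l 16776016))) (l 16774528)) (l 16771032)) (b (b (b (a (c (l 16774944) (l 16774912)) (l 16770280)) (c (l 16751184) (l 16772088))) (c (l 16771848) (l 16771784))) (c (l 16771848) (l 16771784)))) (c (l 16771856) (l 16771792))))) (c (l 16771912) (l 16771848))) (c (l 16772056) (l 16771992)))), by decide +kernel⟩

def k16_pm_112 : ∃ t, chk3 f_pm_112 t 19 334 1 = true :=
  ⟨(a (b (c (c (b (c (l 16777216) (l 16777216)) (b (l 16777216) (c (l 16776960) (l 16776960)))) (b (c (l 16777216) (l 16777216)) (b (l 16777216) (c (l 16776960) (l 16776960))))) (c (b (c (l 16777216) (l 16777216)) (b (l 16777216) (c (l 16776952) (l 16776952)))) (b (l 16777216) (c (l 16776936) (l 16776936))))) (b (b (c (c (a (l 16777216) (c (l 16776488) (l 16776488))) (a (l 16777216) (c (l 16776480) (l 16776472)))) (c (a (l 16777216) (c (l 16776472) (l 16776464))) (c (l 16776608) (l 16776608)))) (c (c (a (c (l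 16776880) (l 16776880)) (l 16775272)) (a (c (l 16776880) (l 16776880)) (l 16764760))) (c (a (c (l 16776872) (l 16776872)) (l 16775224)) (c (l 16776032) (l 16776024))))) (b (c (b (a (c (l 16776496) (l 16776488)) (l 16774032)) (c (l 16774520) (l 16753512))) (c (c (l 16774904) (l 16774896)) (b (l 16775304) (l 16774416)))) (c (l 16773000) (l 16772896))))) (b (b (c (b (a (c (l 16777200) (l 16777200)) (a (c (l 16776816) (l 16776808)) (l 16775600))) (a (c (c (l 16776936) (l 16776936)) (c (l 16776936) (l 16776928))) (l 16775144))) (c (c (a (l 16776928) (l 16775696)) (a (l 16776920) (l 16775688))) (c (a (l 16776920) (l 16775680)) (l 16765640)))) (a (c (c (b (c (l 16776496) (l 16776488)) (l 16775472)) (b (c (l 16776480) (l 16776480)) (l 16775456))) (c (b (c (l 16776472) (l 16776472)) (l 16775432)) (c (l 16775912) (l 16775904)))) (c (l 16773296) (l 16773192)))) (c (c (l 16770192) (l 16770104)) (c (l 16770008) (l 16769920))))), by decide +kernel⟩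

def k17_pm_112 : ∃ t, chk3 f_pm_112 t 19 335 1 = true :=
  ⟨(c (b (b (b (c (l 16768320) (l 16768200)) (b (c (l 16766008) (l 16765864)) (c (a (l 16766296) (l 16761800)) (a (l 16766152) (l 16761592))))) (l 16763136)) (l 16763376)) (b (b (b (c (l 16768088) (l 16767968)) (b (c (l 16765712) (l 16765568)) (c (a (l 16766016) (l 16761392)) (l 16763528)))) (l 16762768)) (l 16763016))), by decide +kernel⟩

def k18_pm_112 : ∃ t, chk3 f_pm_112 t 40 166 1 = true :=
  ⟨(c (b (c (c (b (l 16777216) (l 16777216)) (b (l 16777216) (l 16777216))) (b (c (l 16777216) (l 16777216)) (c (l 16777216) (l 16777216)))) (a (b (b (c (l 16777216) (l 16777216)) (c (c (l 16777088) (l 16777088)) (c (l 16777088) (l 16777088)))) (b (a (c (c (l 16776976) (l 16776976)) (c (l 16776976) (l 16776976))) (b (c (l 16776784) (l 16776776)) (l 16775920))) (b (c (l 16775672) (l 16775656)) (l 16774536)))) (b (b (a (c (l 16777192) (l 16777192)) (c (c (l 16776800) (l 16776800)) (c (l 16776800) (l 16776792)))) (c (c (l 16776040) (l 16776032)) (c (l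 16776024) (l 16776016)))) (l 16773096)))) (b (c (c (b (l 16777216) (l 16777216)) (b (l 16777216) (l 16777216))) (c (b (l 16777216) (l 16777216)) (b (l 16777216) (l 16777216)))) (b (c (c (b (a (l 16777216) (l 16776832)) (a (l 16777088) (l 16776008))) (a (l 16777072) (b (l 16776824) (l 16776000)))) (c (b (l 16776824) (a (l 16777088) (l 16775992))) (b (l 16776816) (l 16776312)))) (a (b (c (c (b (l 16776856) (l 16776448)) (l 16776544)) (c (l 16776536) (l 16776536))) (b (c (l 16775632) (l 16775616)) (l 16774464))) (l 16772992))))), by decide +kernel⟩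

def k19_pm_112 : ∃ t, chk3 f_pm_112 t 41 166 1 = true :=
  ⟨(a (b (c (c (b (c (l 16777216) (l 16777216)) (b (c (l 16776952) (l 16776952)) (c (l 16776368) (a (l 16776888) (l 16775952))))) (b (c (l 16777216) (l 16777216)) (b (c (l 16776952) (l 16776944)) (c (a (l 16776888) (l 16775944)) (a (l 16776880) (l 16775936)))))) (c (b (c (l 16777216) (l 16777216)) (c (b (l 16776944) (l 16776344)) (b (l 16776944) (l 16776336)))) (b (c (l 16777216) (l 16777216)) (c (b (l 16776944) (l 16776336)) (b (l 16776936) (l 16776328)))))) (b (b (b (c (c (l 16775392) (l 16775368)) (c (l 16775344) (l 16775328))) (c (l 16774416) (l 16774344))) (c (l 16773000) (l 16772896))) (c (l 16770096) (l 16769912)))) (a (b (b (a (c (c (c (l 16777144) (l 16777144)) (c (l 16777144) (l 16777144))) (c (c (l 16777144) (l 16777144)) (c (l 16777144) (l 16777144)))) (l 1)) (b (b (c (c (l 16776520) (l 16776512)) (c (l 16776496) (l 16776488))) (c (l 16775624) (l 16775584))) (c (l 16774248) (l 16774176)))) (c (l 16748576) (l 16769352))) (b (l 1)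 (c (l 16768000) (l 16767760))))), by decide +kernel⟩

def k20_pm_112 : ∃ t, chk3 f_pm_112 t 21 166 1 = true :=
  ⟨(l 1), by decide +kernel⟩

def k21_pm_112 : ∃ t, chk3 f_pm_112 t 11 166 1 = true :=
  ⟨(l 1), by decide +kernel⟩

def k22_pm_112 : ∃ t, chk3 f_pm_112 t 5 167 1 = true :=
  ⟨(a (a (b (c (b (c (l 16746504) (l 16746376)) (c (a (l 16765048) (l 16759872)) (a (l 16764888) (l 16759648)))) (b (c (l 16767224) (l 16767096)) (c (l 16741104) (l 16761880)))) (c (b (b (b (c (l 16758672) (l 16758432)) (b (c (l 16756688) (l 16756424)) (c (a (l 16757280) (l 16752744)) (a (l 16757016) (l 16752424))))) (l 16754208)) (l 16754544)) (b (b (b (c (l 16758192) (l 16757952)) (b (c (l 16756152) (l 16755888)) (c (l 16754432) (l 16754136)))) (l 16753608)) (l 16753960)))) (b (l 1) (b (l 1) (c (l 16745632) (l 16744808))))) (l 1)), by decide +kernel⟩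

def k23_pm_112 : ∃ t, chk3 f_pm_112 t 2 21 1 = true :=
  ⟨(a (a (c (a (c (b (l 16777216) (l 16777216)) (b (l 16777216) (l 16777216))) (a (c (l 16777216) (l 16777216)) (b (c (l 16777080) (l 16777080)) (l 16777216)))) (a (c (l 16777216) (l 16777216)) (a (a (l 16777216) (l 16777216)) (c (l 16777080) (l 16777080))))) (a (c (a (c (b (l 16775576) (l 16776688)) (b (l 16775552) (l 16776680))) (b (l 16771712) (l 16774336))) (a (c (b (l 16775536) (l 16776672)) (l 16776088)) (l 16773040))) (a (c (l 16748880) (l 16769656)) (c (l 16766552) (l 16766272))))) (a (c (a (c (l 16761696) (l 16761496)) (c (l 16755056) (l 16754768))) (a (c (l 16761288) (l 16761088)) (c (l 16754480) (l 16754184)))) (c (l 310344829703) (l 376379949863)))), by decide +kernel⟩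

def k24_pm_112 : ∃ t, chk3 f_pm_112 t 2 11 1 = true :=
  ⟨(a (a (c (c (b (l 16777216) (l 16777216)) (b (l 16777216) (l 16777216))) (c (l 16777216) (l 16777216))) (c (a (b (a (l 16777120) (l 16776688)) (l 16777216)) (b (l 16774976) (l 16777216))) (a (a (l 16777136) (l 16776840)) (b (l 16774912) (l 16777216))))) (a (a (c (l 16775176) (l 16775120)) (c (l 16774000) (l 16773920))) (c (l 16740768) (b (l 16766472) (l 16777200))))), by decide +kernel⟩

def k25_pm_112 : ∃ t, chk3 f_pm_112 t 3 5 1 = true :=
  ⟨(a (a (a (a (b (l 1) (l 293701883559)) (l 1)) (l 1)) (l 1)) (l 1)), by decide +kernel⟩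

def k26_pm_112 : ∃ t, chk3 f_pm_112 t 1 3 1 = true :=
  ⟨(a (a (b (a (c (b (a (l 16774232) (l 16777208)) (a (l 16759176) (l 16765512))) (b (a (l 16774152) (l 16777208)) (a (b (l 16759056) (l 16754048)) (l 16765208)))) (b (a (c (l 16777216) (l 16777216)) (c (l 16777216) (l 16777216))) (a (c (l 16774232) (l 16774152)) (l 16777208)))) (a (b (a (a (b (l 16672144) (l 16465912)) (b (a (l 16742872) (l 16776592)) (l 16548024))) (b (c (l 16754640) (l 16754048)) (c (l 16709496) (a (l 16670800) (l 16754680))))) (a (c (l 16136528) (l 16164008)) (b (c (l 16520848) (l 16472248)) (l 16228872)))) (b (a (c (l 16759176) (a (l 16755952) (l 16754616))) (l 16765360)) (a (b (c (l 16709496) (l 16697248)) (c (l 16520848) (l 16493216))) (b (c (l 16754640) (l 16754048)) (c (l 16709496) (l 16707736))))))) (b (a (a (b (l 16777216) (l 16777216)) (b (l 16777216) (l 16777216))) (c (b (l 16777216) (l 16777216)) (l 16777216))) (a (a (b (l 16774192) (a (b (l 16754896) (l 16754160)) (l 16754904))) (b (l 16777208) (l 16765360))) (b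 (l 16777216) (a (l 16774192) (l 16777208)))))) (a (b (a (c (b (l 16777216) (a (l 16777216) (l 16777216))) (b (l 16777216) (l 16777216))) (a (c (l 16777216) (l 16777216)) (c (l 81637775607) (l 16701440)))) (a (c (b (l 16777216) (l 16777216)) (l 16777216)) (a (c (l 16777216) (l 16777216)) (c (l 16764680) (l 16764360))))) (b (a (a (b (l 1) (l 16549944)) (l 1)) (l 1)) (a (a (l 16528976) (b (l 16359984) (l 16359984))) (b (a (c (a (l 16172304) (l 1)) (l 15976520)) (l 1)) (a (c (a (l 16172304) (l 16023368)) (l 16081376)) (c (l 195452267687) (l 216927054679)))))))), by decide +kernel⟩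

theorem s27_pm_112 : ∃ t, chk3 f_pm_112 t 20 166 1 = true := ex3_a k18_pm_112 k19_pm_112

theorem s28_pm_112 : ∃ t, chk3 f_pm_112 t 10 166 1 = true := ex3_a s27_pm_112 k20_pm_112

theorem s29_pm_112 : ∃ t, chk3 f_pm_112 t 5 166 1 = true := ex3_a s28_pm_112 k21_pm_112

theorem s30_pm_112 : ∃ t, chk3 f_pm_112 t 5 83 1 = true := ex3_b s29_pm_112 k22_pm_112

theorem s31_pm_112 : ∃ t, chk3 f_pm_112 t 19 167 1 = true := ex3_b k16_pm_112 k17_pm_112

theorem s32_pm_112 : ∃ t, chk3 f_pm_112 t 18 167 1 = true := ex3_c k14_pm_112 k15_pm_112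

theorem s33_pm_112 : ∃ t, chk3 f_pm_112 t 9 167 1 = true := ex3_a s32_pm_112 s31_pm_112

theorem s34_pm_112 : ∃ t, chk3 f_pm_112 t 35 670 1 = true := ex3_c k11_pm_112 k12_pm_112

theorem s35_pm_112 : ∃ t, chk3 f_pm_112 t 17 670 1 = true := ex3_a k10_pm_112 s34_pm_112

theorem s36_pm_112 : ∃ t, chk3 f_pm_112 t 17 335 1 = true := ex3_b s35_pm_112 k13_pm_112

theorem s37_pm_112 : ∃ t, chk3 f_pm_112 t 8 335 1 = true := ex3_a k9_pm_112 s36_pm_112

theorem s38_pm_112 : ∃ t, chk3 f_pm_112 t 8 167 1 = true := ex3_b k8_pm_112 s37_pm_112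

theorem s39_pm_112 : ∃ t, chk3 f_pm_112 t 4 167 1 = true := ex3_a s38_pm_112 s33_pm_112

theorem s40_pm_112 : ∃ t, chk3 f_pm_112 t 4 333 1 = true := ex3_a k6_pm_112 k7_pm_112

theorem s41_pm_112 : ∃ t, chk3 f_pm_112 t 4 166 1 = true := ex3_b k5_pm_112 s40_pm_112

theorem s42_pm_112 : ∃ t, chk3 f_pm_112 t 4 83 1 = true := ex3_b s41_pm_112 s39_pm_112

theorem s43_pm_112 : ∃ t, chk3 f_pm_112 t 2 83 1 = true := ex3_a s42_pm_112 s30_pm_112

theorem s44_pm_112 : ∃ t, chk3 f_pm_112 t 4 82 1 = true := ex3_b k2_pm_112 k3_pm_112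

theorem s45_pm_112 : ∃ t, chk3 f_pm_112 t 2 82 1 = true := ex3_a s44_pm_112 k4_pm_112

theorem s46_pm_112 : ∃ t, chk3 f_pm_112 t 2 41 1 = true := ex3_b s45_pm_112 s43_pm_112

theorem s47_pm_112 : ∃ t, chk3 f_pm_112 t 2 20 1 = true := ex3_b k1_pm_112 s46_pm_112

theorem s48_pm_112 : ∃ t, chk3 f_pm_112 t 2 10 1 = true := ex3_b s47_pm_112 k23_pm_112

theorem s49_pm_112 : ∃ t, chk3 f_pm_112 t 2 5 1 = true := ex3_b s48_pm_112 k24_pm_112

theorem s50_pm_112 : ∃ t, chk3 f_pm_112 t 1 5 1 = true := ex3_a s49_pm_112 k25_pm_112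

theorem s51_pm_112 : ∃ t, chk3 f_pm_112 t 1 2 1 = true := ex3_b k0_pm_112 s50_pm_112

theorem s52_pm_112 : ∃ t, chk3 f_pm_112 t 1 1 1 = true := ex3_b s51_pm_112 k26_pm_112

theorem c_pm_112 : CertFX 536870912 536870912 536870912 536870912 1046898278 26843546 true true false .dn 1 1 2
    ndF0q1 ndF1q1 pcF2 Cut.none Ext.none :=
  certFX1 (fam := true) (s1 := true) (s2 := false) (a := 1) (b := 1) (c := 2) (cn := .dn) (n1 := ndF0q1) (n2 := ndF1q1) (pc := pcF2) (cut := Cut.none) (xt := Ext.none) (P1 := 536870912) (W1 := 536870912) (P2 := 536870912) (W2 := 536870912) (P3 := 1046898278) (W3 := 26843546)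
    rfl (fun _ => rfl) s52_pm_112

noncomputable def f_pm_113 : ℕ → ℕ → ℕ → ℕ → Bool := onCell 536870912 536870912 1610612736 536870912 1046898278 26843546
    (rowFX 1 true true false .nn 1 1 3 (qsf 536870912 536870912 536870912 536870912 3) ndF0q1 ndF1q1 pcF3 Cut.none Ext.none)

def k0_pm_113 : ∃ t, chk3 f_pm_113 t 2 2 1 = true :=
  ⟨(b (a (a (b (a (b (c (l 15936520) (l 15914688)) (c (l 15727352) (l 15743120))) (c (l 15924544) (l 16009976))) (a (l 2) (b (c (l 15769296) (l 15743120)) (l 2)))) (b (a (a (l 16163128) (l 16031944)) (b (l 16475576) (l 16228872))) (a (b (l 15925600) (l 313630908839)) (b (l 16113632) (l 15925600))))) (a (b (a (b (a (l 16672144) (l 16754960)) (l 16391688)) (b (l 16754344) (a (l 16672144) (l 16754960)))) (a (c (l 16073616) (l 15975264)) (b (l 16349744) (l 16249840)))) (b (a (b (l 16759288) (l 16754344)) (l 16765360)) (a (b (a (l 16672144) (l 16754960)) (l 16454600)) (b (l 16754344) (a (l 16672144) (l 16754960))))))) (a (b (a (l 2) (a (l 2) (b (l 310946554279) (l 2)))) (l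 2)) (a (b (a (b (l 15925600) (l 15609408)) (b (l 16113632) (l 15925600))) (a (l 2) (b (a (l 2) (l 15795008)) (l 2)))) (b (a (b (l 16312760) (l 16113632)) (b (l 16454600) (l 16312760))) (a (b (l 15925600) (l 15714264)) (b (l 16113632) (l 15925600))))))), by decide +kernel⟩

def k1_pm_113 : ∃ t, chk3 f_pm_113 t 3 2 1 = true :=
  ⟨(a (b (a (b (l 16774976) (a (b (l 16759288) (l 16754344)) (l 16765360))) (a (l 16775448) (b (l 16764520) (l 16764528)))) (a (b (a (b (a (l 16672144) (l 16754960)) (l 16517520)) (b (l 16754344) (a (l 16672144) (l 16754960)))) (a (b (l 16312760) (l 16113632)) (b (l 16517520) (l 16312760)))) (b (a (l 16758944) (l 16758640)) (a (b (l 16687640) (l 16517520)) (b (l 16683368) (a (l 16672144) (l 16731216))))))) (a (b (a (l 16570920) (a (l 16419912) (c (l 16306800) (l 16294576)))) (a (b (l 16594728) (l 16545424)) (b (l 16359992) (l 16328920)))) (b (a (b (c (l 16029608) (l 16081376)) (c (l 16113496) (l 16081376))) (b (c (a (l 15908056) (l 15802904)) (a (l 15899120) (l 15795696))) (c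 (a (l 15908056) (l 15802904)) (a (l 15899120) (l 15795696))))) (a (b (c (l 16113496) (l 16081376)) (a (l 16167824) (l 16017008))) (b (c (l 15774656) (l 15854768)) (a (c (l 15908064) (l 15899128)) (l 15802216))))))), by decide +kernel⟩

def k2_pm_113 : ∃ t, chk3 f_pm_113 t 2 3 1 = true :=
  ⟨(b (a (l 2) (b (a (l 2) (b (a (l 2) (l 15756208)) (l 2))) (l 2))) (l 2)), by decide +kernel⟩

def k3_pm_113 : ∃ t, chk3 f_pm_113 t 6 3 1 = true :=
  ⟨(b (a (b (a (b (l 15925600) (l 15651360)) (b (l 16113632) (l 15925608))) (b (a (l 2) (l 15756232)) (l 2))) (b (a (b (l 16312760) (l 16113632)) (a (l 16363864) (l 16444296))) (a (b (l 15925600) (l 15756216)) (a (l 15972144) (l 16044816))))) (b (b (a (l 2) (a (l 2) (b (l 15784416) (l 2)))) (l 2)) (l 2))), by decide +kernel⟩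

def k4_pm_113 : ∃ t, chk3 f_pm_113 t 7 3 1 = true :=
  ⟨(a (a (b (b (b (l 16488432) (l 16351280)) (b (l 16154400) (l 15961440))) (b (b (b (l 15822528) (l 15734128)) (b (l 15649416) (l 2))) (l 2))) (a (b (b (l 16293576) (l 16054848)) (b (b (l 15787648) (l 15568344)) (l 2))) (b (b (b (l 16328336) (l 16281504)) (l 16036536)) (b (b (b (l 15827552) (l 15748800)) (b (l 15663160) (l 15581712))) (b (b (c (l 15838560) (l 15396672)) (l 2)) (l 2)))))) (a (b (b (a (b (l 16184464) (l 16184496)) (l 16036032)) (a (l 15928400) (b (c (l 16006472) (l 15986416)) (l 15846744)))) (b (b (b (l 15630128) (a (l 15725384) (l 15669576))) (a (b (l 15659824) (l 15598760)) (l 15597392))) (a (b (b (c (l 15895592) (l 15395784)) (c (l 15783864) (l 15387024))) (l 2)) (b (b (l 15574960) (l 15651608)) (b (c (l 16265464) (l 15450280)) (l 2)))))) (a (b (b (c (l 15920032) (l 15912888)) (b (l 15921096) (l 15814920))) (b (b (c (l 15710696) (l 15620856)) (c (l 15661760) (l 15472392))) (b (b (c (l 15730896) (l 15388472)) (c (l 15924152) (l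 15378176))) (b (c (b (l 16281728) (c (l 16717312) (l 16509984))) (b (l 15435216) (l 15599816))) (a (l 2) (b (b (b (l 16579112) (l 2)) (l 2)) (l 2))))))) (b (b (c (l 15809744) (l 15803512)) (b (l 15829440) (c (l 15786456) (l 15775032)))) (b (b (c (l 15666264) (l 15608336)) (c (l 15600656) (b (l 15492456) (l 15427040)))) (b (b (c (l 15644440) (l 15370072)) (c (b (l 15749832) (l 15890344)) (b (l 15348648) (l 15363408)))) (b (c (b (l 16139512) (l 16532344)) (b (a (l 15421456) (l 15397120)) (l 15533848))) (b (c (b (l 16516240) (l 16542440)) (c (b (l 16209072) (l 16508080)) (b (l 15368568) (l 15554024)))) (l 4))))))))), by decide +kernel⟩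

theorem s5_pm_113 : ∃ t, chk3 f_pm_113 t 3 3 1 = true := ex3_a k3_pm_113 k4_pm_113

theorem s6_pm_113 : ∃ t, chk3 f_pm_113 t 1 3 1 = true := ex3_a k2_pm_113 s5_pm_113

theorem s7_pm_113 : ∃ t, chk3 f_pm_113 t 1 2 1 = true := ex3_a k0_pm_113 k1_pm_113

theorem s8_pm_113 : ∃ t, chk3 f_pm_113 t 1 1 1 = true := ex3_b s7_pm_113 s6_pm_113

theorem c_pm_113 : CertFX 536870912 536870912 536870912 536870912 1046898278 26843546 true true false .nn 1 1 3
    ndF0q1 ndF1q1 pcF3 Cut.none Ext.none :=
  certFX1 (fam := true) (s1 := true) (s2 := false) (a := 1) (b := 1) (c := 3) (cn := .nn) (n1 := ndF0q1) (n2 := ndF1q1) (pc := pcF3) (cut := Cut.none) (xt := Ext.none) (P1 := 536870912) (W1 := 536870912) (P2 := 536870912) (W2 := 536870912) (P3 := 1046898278) (W3 := 26843546)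
    rfl (fun _ => rfl) s8_pm_113

noncomputable def f_pm_123_a : ℕ → ℕ → ℕ → ℕ → Bool := onCell 1610612736 536870912 0 420477299 1046898278 26843546
    (rowFX 2 true true false .npn 1 2 3 (qsf 536870912 536870912 0 420477299 3) ndF0q1 ndF1q2a pcF3 Cut.none Ext.none)

def k0_pm_123_a : ∃ t, chk3 f_pm_123_a t 4 2 1 = true :=
  ⟨(l 1), by decide +kernel⟩

def k1_pm_123_a : ∃ t, chk3 f_pm_123_a t 10 2 1 = true :=
  ⟨(a (a (b (l 1) (b (l 1) (c (l 16777200) (l 16777200)))) (b (c (c (l 16777216) (l 16777216)) (c (l 16777216) (l 16777216))) (c (b (c (l 16777208) (l 16777208)) (l 16777200)) (b (c (l 16777208) (l 16777208)) (l 16777200))))) (b (c (c (a (l 16777216) (b (l 16777216) (l 16777216))) (a (l 16777216) (b (l 16777216) (l 16777216)))) (c (a (l 16777216) (b (l 16777216) (l 16777216))) (a (l 16777216) (b (l 16777216) (l 16777216))))) (c (a (b (b (c (l 16777216) (l 16777216)) (l 16777208)) (l 16777200)) (b (b (l 16777216) (c (l 16777208) (l 16777208))) (l 16777200))) (b (c (b (l 16777216) (l 16777208))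 (b (l 16777216) (l 16777208))) (c (l 16777200) (l 16777200)))))), by decide +kernel⟩

def k2_pm_123_a : ∃ t, chk3 f_pm_123_a t 11 2 1 = true :=
  ⟨(c (b (a (c (c (b (l 16777216) (l 16777216)) (b (l 16777216) (l 16777216))) (a (b (l 16777216) (l 16777216)) (b (l 16777216) (l 16777216)))) (c (a (b (l 16777216) (l 16777216)) (b (l 16777216) (l 16777216))) (a (c (l 16777216) (l 16777216)) (b (l 16777216) (l 16777216))))) (a (a (b (c (b (l 16777216) (l 16777208)) (l 16777208)) (l 16777200)) (b (c (l 16777208) (l 16777208)) (c (l 16777200) (l 16777200)))) (b (c (l 16777208) (a (l 16777208) (l 16777208))) (a (b (c (l 16777208) (l 16777208)) (l 16777200)) (b (l 16777208) (l 16777200)))))) (b (a (c (a (b (l 16777216) (l 16777216)) (b (l 16777216) (l 16777216))) (a (b (l 16777216) (l 16777216)) (b (l 16777216) (l 16777216)))) (c (a (c (l 16777216) (l 16777216)) (b (l 16777216) (l 16777216))) (a (c (l 16777216) (l 16777216)) (c (l 16777216) (l 16777216))))) (a (a (b (c (l 16777208) (l 16777208)) (l 16777200))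 (b (c (l 16777208) (l 16777208)) (c (l 16777200) (l 16777200)))) (b (c (a (l 16777208) (l 16777208)) (a (l 16777208) (l 16777208))) (a (b (c (l 16777208) (l 16777208)) (l 16777200)) (b (l 16777208) (l 16777200))))))), by decide +kernel⟩

def k3_pm_123_a : ∃ t, chk3 f_pm_123_a t 2 6 1 = true :=
  ⟨(a (a (l 1) (a (l 1) (c (c (l 16777184) (l 16777184)) (c (l 16777184) (b (l 16777192) (l 16777168)))))) (c (a (c (a (l 16777184) (b (l 16777192) (l 16777176))) (a (l 16777184) (b (l 16777192) (l 16777168)))) (a (c (b (l 16777192) (l 16777176)) (b (l 16777192) (l 16777168))) (c (l 16777184) (l 16777184)))) (a (c (a (b (l 16777192) (l 16777168)) (b (l 16777192) (l 16777168))) (a (b (l 16777192) (l 16777168)) (b (l 16777192) (l 16777168)))) (a (c (b (l 16777192) (l 16777168)) (b (l 16777192) (l 16777168))) (c (l 16777184) (b (l 16777192) (l 16777168))))))), by decide +kernel⟩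

def k4_pm_123_a : ∃ t, chk3 f_pm_123_a t 2 7 1 = true :=
  ⟨(a (a (a (l 1) (a (l 1) (b (l 1) (b (l 1) (c (l 16439472) (l 100964427719)))))) (b (b (a (l 1) (c (c (l 16763776) (l 16763600)) (c (l 16763424) (l 16763248)))) (c (c (l 25803061735) (l 7549446935)) (c (a (l 16679576) (l 16679576)) (a (l 16678328) (l 16678328))))) (c (c (b (l 16573320) (l 16441672)) (b (l 16528712) (l 16395336))) (c (b (a (l 16567992) (l 16567992)) (a (l 16432896) (l 16432896))) (b (a (l 16565328) (l 16565328)) (a (l 16428512) (l 16428512))))))) (b (a (c (c (b (a (l 16763776) (l 16763776)) (a (l 16682064) (l 16682064))) (b (a (l 16763600) (l 16763600)) (a (l 16680816) (l 16680816)))) (c (b (a (l 16763424) (l 16763424)) (a (l 16679576) (l 16679576))) (b (a (l 16742280) (l 16721304)) (a (l 16678328) (l 16678328))))) (c (b (a (c (l 16763776) (l 16763600)) (c (l 16763776) (l 16763600))) (a (l 16660464) (l 16660464))) (b (a (c (l 16763424) (l 16763248)) (c (l 16763424) (l 16742280))) (c (a (l 16679576) (l 16679576)) (a (l 16678328)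 (l 16678328)))))) (a (c (c (b (l 16573320) (l 16441672)) (b (a (l 16570656) (l 16570656)) (a (l 16437280) (l 16437280)))) (c (b (a (l 16567992) (l 16567992)) (a (l 16432896) (l 16432896))) (b (a (l 16565328) (l 16565328)) (a (l 16428512) (l 16428512))))) (c (b (a (l 16571992) (l 16571992)) (a (l 16439472) (l 16418504))) (b (c (l 16526048) (a (l 16565328) (l 16565328))) (c (l 16390952) (a (l 16428512) (l 16428512)))))))), by decide +kernel⟩

def k5_pm_123_a : ∃ t, chk3 f_pm_123_a t 12 4 1 = true :=
  ⟨(c (a (c (a (b (c (l 16777216) (l 16777216)) (l 16777216)) (b (a (l 16777216) (l 16777216)) (l 16777216))) (a (b (c (l 16777216) (l 16777216)) (l 16777216)) (b (c (l 16777216) (l 16777216)) (l 16777216)))) (c (a (b (c (l 16777216) (a (l 16777216) (l 16777216))) (l 16777208)) (b (c (a (l 16777208) (l 16777208)) (a (l 16777208) (l 16777208))) (c (l 16777208) (l 16777200)))) (a (b (c (a (l 16777216) (l 16777216)) (a (l 16777216) (l 16777208))) (c (l 16777208) (l 16777208))) (b (c (a (l 16777208) (l 16777208))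 (a (l 16777208) (l 16777208))) (c (l 16777200) (l 16777200)))))) (a (c (a (b (c (l 16777216) (l 16777216)) (l 16777216)) (b (c (l 16777216) (l 16777216)) (l 16777216))) (a (b (c (l 16777216) (l 16777216)) (l 16777216)) (b (c (l 16777216) (l 16777216)) (c (l 16777216) (l 16777216))))) (c (a (b (c (a (l 16777216) (l 16777208)) (a (l 16777216) (l 16777208))) (c (l 16777208) (l 16777208))) (b (c (a (l 16777208) (l 16777208)) (a (l 16777208) (l 16777208))) (c (l 16777200) (l 16777200)))) (a (b (c (a (l 16777216) (l 16777208)) (a (l 16777216) (l 16777208))) (c (l 16777208) (l 16777208))) (b (c (a (l 16777208) (l 16777208)) (a (l 16777208) (l 16777208))) (c (l 16777200) (l 16777200))))))), by decide +kernel⟩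

def k6_pm_123_a : ∃ t, chk3 f_pm_123_a t 12 5 1 = true :=
  ⟨(b (c (a (c (a (l 16777208) (l 16777208)) (a (l 16777208) (l 16777208))) (c (a (l 16777208) (l 16777192)) (a (l 16777208) (l 16777192)))) (a (c (a (l 16777208) (l 16777208)) (a (l 16777208) (l 16777208))) (c (a (l 16777208) (l 16777192)) (a (l 16777208) (l 16777192))))) (a (c (a (b (l 16777208) (l 16777200)) (c (l 16777200) (l 16777200))) (a (b (l 16777208) (c (l 16777200) (l 16777200))) (c (l 16777200) (l 16777200)))) (c (c (l 16777192) (a (l 16777200) (l 16777184))) (c (a (l 16777200) (l 16777184)) (a (l 16777200) (l 16777184)))))), by decide +kernel⟩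

def k7_pm_123_a : ∃ t, chk3 f_pm_123_a t 52 2 1 = true :=
  ⟨(b (c (b (b (a (c (c (l 16777216) (l 16777216)) (c (l 16777216) (l 16777216))) (b (a (c (b (a (c (l 16777216) (l 16777216)) (l 323968040967)) (l 16777216)) (a (c (l 16777216) (l 16777216)) (b (c (l 321283686407) (l 318599331847)) (l 16777216)))) (b (l 4) (c (a (l 16777216) (l 331484233735)) (a (c (l 16777216) (l 16777216)) (l 327189266439))))) (c (c (l 16777216) (l 16777216)) (c (l 16777216) (l 16777216))))) (c (a (c (l 16777208) (l 16777208)) (c (l 16777208) (l 16777208))) (a (c (l 16777208) (l 16777208)) (c (l 16777208) (l 16777208))))) (c (c (l 16777200) (l 16777200)) (c (l 16777200) (l 16777200)))) (b (b (a (c (c (l 16777216) (l 16777216)) (c (l 16777216) (l 48553262775))) (a (c (b (a (c (l 16777216) (l 16777216)) (b (l 314304364535) (l 16777216))) (l 16777216)) (b (a (c (l 16777216) (l 16777216)) (b (l 305714429959) (l 16777216))) (l 16777216))) (b (b (l 4) (a (c (a (l 16777216) (l 16777216)) (c (l 16777216) (l 16777216))) (c (l 320746815479)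 (l 312156880903)))) (c (l 16777216) (l 34594619063))))) (c (a (c (l 16777208) (l 16777208)) (c (l 16777208) (l 16777208))) (a (c (l 16777208) (l 16777208)) (c (l 16777208) (l 16777208))))) (c (c (l 16777200) (l 16777200)) (c (l 16777200) (l 16777200))))) (c (c (b (l 16777192) (l 16777176)) (c (l 16777184) (l 16777184))) (c (c (l 16777184) (l 16777184)) (c (l 16777184) (l 16777184))))), by decide +kernel⟩

def k8_pm_123_a : ∃ t, chk3 f_pm_123_a t 53 2 1 = true :=
  ⟨(b (a (b (b (b (l 4) (b (a (c (c (a (l 16777216) (l 340074168327)) (a (l 16777216) (l 335242330119))) (c (a (c (l 16777216) (l 16777216)) (l 328263008247)) (c (l 276723400663) (l 272965303671)))) (l 4)) (c (c (a (l 16777216) (a (l 16777216) (l 349737844743))) (a (l 16777216) (a (l 16777216) (l 344906006535)))) (c (a (l 16777216) (c (l 289071431671) (l 286387077079))) (a (l 16777216) (c (l 283165851607) (l 278870883703))))))) (c (c (c (l 16777208) (l 16777208)) (c (l 16777208) (l 16777208))) (c (c (l 16777208) (l 16777208)) (c (l 16777208)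 (l 16777208))))) (c (c (c (l 16777200) (l 16777200)) (c (l 16777200) (l 16777200))) (c (c (l 16777200) (l 16777200)) (c (l 16777200) (l 16777200))))) (b (b (l 4) (b (a (b (a (c (c (l 16777216) (l 16777216)) (c (l 16777216) (l 271891562183))) (l 4)) (c (c (l 16777216) (l 16777216)) (c (l 16777216) (l 16777216)))) (a (b (l 4) (c (c (l 16777216) (l 16777216)) (c (l 16777216) (l 16777216)))) (l 4))) (c (c (c (l 16777216) (l 16777216)) (c (l 16777216) (l 16777216))) (c (c (l 16777216) (l 16777216)) (a (l 16777216) (l 16777216)))))) (c (c (c (l 16777200) (l 16777200)) (c (l 16777200) (l 16777200))) (c (c (l 16777200) (l 16777200)) (c (l 16777200) (l 16777200)))))) (c (c (b (a (l 16777184) (l 16777184)) (l 16777168)) (b (a (l 16777184) (l 16777184)) (l 16777168))) (c (b (a (l 16777184) (l 16777184)) (l 16777168)) (b (a (l 16777184) (l 16777184)) (l 16777168))))), by decide +kernel⟩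

def k9_pm_123_a : ∃ t, chk3 f_pm_123_a t 54 2 1 = true :=
  ⟨(b (a (b (b (l 4) (b (l 4) (c (a (c (b (l 322357428231) (l 16777216)) (b (a (l 16777216) (l 4)) (l 16777216))) (b (l 4) (c (l 335779201031) (l 330947362807)))) (c (a (b (l 313230622679) (l 16777216)) (l 333094846471)) (a (b (l 305177558727) (l 16777216)) (l 323431170055)))))) (c (c (c (l 16777208) (l 16777208)) (c (l 16777208) (l 16777208))) (c (c (l 16777208) (l 16777208)) (c (l 16777208) (l 16777208))))) (b (l 4) (c (c (b (b (a (b (l 349737844743) (l 16777216)) (l 368528326663)) (l 16777216)) (l 16777208)) (b (b (a (b (l 343832264711) (l 16777216)) (l 361012133895)) (c (l 16777216) (l 16777216))) (l 16777208))) (c (b (b (a (b (l 335242330103) (l 16777216)) (l 351348457479)) (a (l 16777216) (l 16777216))) (l 16777208)) (b (b (a (b (l 325041782455) (l 16777216)) (l 339537297415)) (a (l 16777216) (l 16777216))) (l 16777208)))))) (c (c (b (a (l 16777184) (l 16777192)) (l 16777168)) (b (a (l 16777184) (l 16777192)) (l 16777168))) (c (b (a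 (l 16777184) (l 16777192)) (l 16777168)) (b (a (l 16777184) (l 16777192)) (l 16777168))))), by decide +kernel⟩

def k10_pm_123_a : ∃ t, chk3 f_pm_123_a t 55 2 1 = true :=
  ⟨(b (a (b (l 4) (b (a (b (l 4) (b (l 4) (c (c (l 16777216) (l 16777216)) (c (l 16777216) (l 16777216))))) (l 4)) (c (a (c (l 16777208) (l 16777208)) (c (l 16777216) (l 16777216))) (c (a (l 16777208) (l 16777216)) (c (l 16777208) (l 16777208)))))) (b (l 4) (b (l 4) (b (a (b (l 4) (c (c (l 16777216) (l 16777216)) (c (l 16777216) (l 16777216)))) (l 4)) (c (c (a (l 16777216) (l 16777216)) (a (l 16777216) (l 16777216))) (c (a (l 16777216) (l 16777216)) (c (l 16777216) (l 16777216)))))))) (c (c (b (a (l 16777200) (l 16777208)) (l 16777184)) (b (a (l 16777200) (l 16777208)) (l 16777184))) (c (b (a (l 16777200) (l 16777208)) (l 16777184)) (b (c (l 16777200) (l 16777200)) (l 16777184))))), by decide +kernel⟩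

def k11_pm_123_a : ∃ t, chk3 f_pm_123_a t 6 6 1 = true :=
  ⟨(a (a (c (b (c (l 16777192) (l 16777192)) (c (l 16777176) (l 16777168))) (b (a (l 16777192) (c (l 16777192) (l 16777192))) (c (l 16777168) (l 16777168)))) (c (b (a (b (c (l 16777192) (l 16777192)) (l 16777192)) (b (l 16777176) (l 16777168))) (c (l 16777168) (l 16777168))) (b (a (b (c (l 16777192) (l 16777192)) (l 16777192)) (b (c (l 16777176) (l 16777176)) (l 16777168))) (c (l 16777168) (l 16777168))))) (a (c (b (a (b (l 16777160) (l 16777152)) (c (l 16777144) (l 16777144))) (a (l 16777144) (b (l 16777128) (l 16777120)))) (b (a (b (l 16777160) (c (l 16777152) (l 16777152))) (c (l 16777144) (l 16777144))) (a (l 16777136) (b (l 16777128) (l 16777112))))) (c (b (a (c (l 16777144) (l 16777144)) (c (l 16777160) (l 16777160))) (a (b (l 16777120) (l 16777112)) (b (l 16777144) (l 16777136)))) (b (a (c (l 16777136) (l 16777136)) (c (l 16777160) (l 16777160))) (a (b (c (l 16777120) (l 16777120)) (l 16777104)) (b (l 16777144) (c (l 16777128) (l 16777128)))))))),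 by decide +kernel⟩

def k12_pm_123_a : ∃ t, chk3 f_pm_123_a t 6 7 1 = true :=
  ⟨(b (a (c (a (b (c (l 16763776) (l 16742632)) (c (l 16682064) (l 16680816))) (b (c (l 16742824) (l 16742648)) (l 16639512))) (a (b (c (l 16742456) (b (l 16776712) (l 16749744))) (c (l 16679576) (l 16678328))) (b (c (l 16742480) (b (l 16776736) (l 16749760))) (l 16658000)))) (c (a (b (b (l 16776776) (l 16750656)) (c (l 16682112) (l 16680872))) (b (a (b (l 16776792) (l 16750664)) (b (l 16776768) (l 16750640))) (a (l 16639560) (l 16670992)))) (a (b (c (l 16742512) (l 16742336)) (c (l 16679632) (l 16678392))) (b (c (b (l 16776776) (l 16750144)) (b (l 16776776) (l 16749800))) (c (l 16679632) (l 16678392)))))) (a (c (a (b (c (l 16573320) (l 16570656)) (c (l 16441672) (l 16437280))) (b (l 16551040) (b (l 16475776) (l 16403624)))) (a (b (c (l 16567992) (l 16565328)) (c (l 16432896) (l 16428512))) (b (l 16566680) (l 16430728)))) (c (a (b (a (l 16572032) (l 16551080)) (c (l 16399776) (l 16437336))) (b (c (l 16510456) (l 16549736))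 (c (b (l 16477760) (l 16406072)) (l 16374416)))) (a (b (c (l 16568048) (l 16565392)) (c (l 16432952) (l 16428568))) (b (c (l 16547080) (l 16565384)) (c (l 16411976) (l 16407600))))))), by decide +kernel⟩

def k13_pm_123_a : ∃ t, chk3 f_pm_123_a t 14 4 1 = true :=
  ⟨(a (a (a (a (b (l 4) (b (l 4) (c (c (l 378192003079) (l 367454584839)) (c (l 354032812039) (l 339000426503))))) (l 4)) (l 4)) (l 4)) (l 4)), by decide +kernel⟩

def k14_pm_123_a : ∃ t, chk3 f_pm_123_a t 14 10 1 = true :=
  ⟨(a (a (a (c (c (a (l 16777208) (c (l 16777208) (l 16777208))) (a (l 16777208) (c (l 16777208) (l 16777208)))) (c (a (l 16777208) (c (l 16777208) (l 16777208))) (a (l 16777208) (a (l 16777208) (c (l 16777208) (l 16777208)))))) (b (b (l 4) (c (c (a (l 16777208) (l 350274715639)) (a (l 16777208) (l 337926684663))) (c (a (l 16777208) (l 323968040951)) (a (l 16777208) (l 307325042679))))) (c (c (l 16777208) (l 16777208)) (c (l 16777208) (l 16777208))))) (b (l 4) (a (c (c (a (l 16777208) (b (l 396445614071) (l 16777208)))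 (a (l 16777208) (b (l 381950099447) (l 16777208)))) (c (a (l 16777208) (b (l 365307101175) (l 16777208))) (a (l 16777208) (b (l 346516619175) (l 16777208))))) (a (b (l 4) (b (l 4) (c (c (l 16777208) (l 16777208)) (c (l 16777208) (l 16777208))))) (l 4))))) (l 4)), by decide +kernel⟩

def k15_pm_123_a : ∃ t, chk3 f_pm_123_a t 14 11 1 = true :=
  ⟨(a (c (a (c (a (l 16777200) (l 16777200)) (a (l 16777192) (l 16777200))) (a (c (l 16777208) (l 16777208)) (c (b (a (l 16777160) (l 16777048)) (l 16776784)) (b (a (l 16777160) (l 16777048)) (l 16776776))))) (a (c (a (l 16777192) (l 16777200)) (a (l 16777192) (l 16777200))) (a (c (c (l 16777208) (l 16777208)) (c (l 16777208) (l 16777208))) (a (c (l 16777112) (l 16777112)) (c (l 16776792) (a (l 16776856) (l 16776744))))))) (b (a (a (a (c (c (b (l 383560711687) (l 16777008)) (b (l 372823293287) (l 16777008))) (c (b (l 360475262311) (l 16777008)) (b (l 345979747687) (l 16777000)))) (b (l 4) (c (c (l 332021103543) (l 321820556215)) (c (l 310009396151) (l 16777152)))))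 (l 4)) (l 4)) (a (c (a (c (l 16776288) (l 16776280)) (c (a (l 16776608) (b (l 390540033207) (l 16776752))) (a (l 16776600) (b (l 382486969527) (l 16776752))))) (a (c (l 16776264) (l 16776256)) (c (a (l 16776592) (b (l 374970776583) (l 16776744))) (a (l 16776584) (b (l 364770229255) (l 16776736)))))) (b (l 4) (a (a (c (c (l 342221650327) (l 333094844983)) (c (l 326115523111) (l 317525587863))) (l 4)) (l 4)))))), by decide +kernel⟩

def k16_pm_123_a : ∃ t, chk3 f_pm_123_a t 14 3 2 = true :=
  ⟨(b (c (a (a (b (l 16777184) (l 16777160)) (b (a (l 16777192) (l 16776304)) (l 16776360))) (a (b (a (l 16774384) (l 16773712)) (a (l 16771712) (l 16769000))) (b (a (a (l 16774104) (c (l 16774672) (l 16774656))) (b (a (b (l 4) (l 16776672)) (l 378192002999)) (a (l 16774016) (l 16775192)))) (a (l 16767720) (l 16747032))))) (a (a (b (l 16777184) (l 16777160)) (b (a (l 16777192) (l 16776296)) (l 16776352))) (a (b (a (l 16774344) (l 16752696)) (a (l 16771640) (l 16768896))) (b (a (a (l 16774064) (c (l 16774640) (l 16774616)))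 (b (a (b (l 4) (l 16776664)) (l 372286422967)) (a (l 16773976) (l 16775160)))) (a (l 16767600) (l 16746912)))))) (a (b (a (b (b (l 16776744) (l 16750624)) (l 16681456)) (b (a (l 16721752) (b (l 16774848) (l 16752088))) (a (l 16681440) (l 16683168)))) (a (b (l 16572000) (b (l 16475760) (l 16403608))) (b (a (l 16571992) (l 16574008)) (a (l 16439472) (l 16441768))))) (b (a (a (b (l 16758648) (l 16687288)) (b (l 16733240) (l 16640400))) (b (a (b (l 16762888) (l 16739200)) (c (l 16728776) (l 16728416))) (a (b (l 16699344) (l 16654624)) (c (l 16652872) (l 16630864))))) (a (b (l 16581024) (l 16429040)) (b (a (l 16577336) (b (c (l 16600272) (l 16599000)) (l 16543256))) (a (l 16454512) (b (l 16486360) (l 16427400)))))))), by decide +kernel⟩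

def k17_pm_123_a : ∃ t, chk3 f_pm_123_a t 14 3 3 = true :=
  ⟨(b (a (c (a (b (l 16777184) (l 16777160)) (b (a (l 16777192) (l 16776280)) (a (l 16777176) (l 16775600)))) (a (b (l 16777184) (l 16777160)) (b (a (l 16777192) (l 16776272)) (a (l 16777176) (l 16775576))))) (a (c (b (a (l 16774304) (l 16752648)) (l 16770016)) (b (a (l 16774272) (b (l 16774768) (l 16772392))) (l 16769920))) (b (a (c (a (l 16774024) (c (l 16774600) (l 16774584))) (b (a (l 16775552) (l 16776248)) (l 16772656))) (b (b (l 4) (c (a (l 16776656) (l 355106551783)) (a (l 16776648) (l 356717164519)))) (c (a (l 16773928) (l 16775136)) (a (l 16773888) (l 16775112))))) (a (c (l 16767472) (l 16767352)) (c (l 16746792) (b (l 16769992) (l 16765320))))))) (a (b (a (b (b (l 16776736) (l 16749936)) (l 16678968)) (b (a (b (l 16776720) (l 16749920)) (b (l 16774784) (l 16751904))) (a (l 16678952) (l 16660264)))) (a (b (l 16566672) (l 16367800)) (b (a (l 16566656) (l 16569336)) (a (l 16430696) (b (l 16470888) (l 16397064)))))) (b (a (b (a (l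 16737216) (l 16732640)) (c (l 16621744) (l 16621408))) (a (b (b (l 16762512) (l 16738232)) (c (l 16654792) (l 16632936))) (b (c (l 16728048) (l 16706704)) (b (l 16673424) (c (l 16648464) (l 16647312)))))) (a (b (l 16537648) (b (l 16482464) (l 16409520))) (b (a (l 16575752) (b (a (l 16598440) (c (l 16596376) (l 16595024))) (l 16540656))) (a (l 16454184) (b (a (l 16481248) (l 16484928)) (l 16424240)))))))), by decide +kernel⟩

def k18_pm_123_a : ∃ t, chk3 f_pm_123_a t 30 2 1 = true :=
  ⟨(l 4), by decide +kernel⟩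

def k19_pm_123_a : ∃ t, chk3 f_pm_123_a t 30 6 1 = true :=
  ⟨(b (b (l 4) (a (a (a (c (c (b (l 325041773943) (l 16775824)) (b (l 318062457655) (l 16775792))) (c (b (l 314841231847) (l 16775776)) (b (a (l 16777016) (l 16777192)) (l 16775752)))) (b (l 4) (c (c (c (l 16776928) (l 16776904)) (l 283165849063)) (c (a (l 16776824) (l 16777128)) (a (l 16776816) (l 16777128)))))) (l 4)) (l 4))) (a (c (a (c (a (l 16769880) (l 16772104)) (a (l 16769704) (l 16771800))) (c (b (a (c (l 16776056) (l 16775832)) (b (l 374433906631) (a (l 16776520) (l 16776976)))) (l 16762912)) (b (a (b (l 255248561287) (l 16775048)) (b (l 378728873271) (l 16776552))) (l 16772592)))) (a (a (c (l 16769608) (l 16769512)) (c (l 16771728) (b (l 16774144) (l 16769200)))) (c (a (c (l 16773576) (l 16773552)) (b (b (l 378192002183) (l 16776544)) (l 16773568))) (a (c (l 16773528) (l 16773504)) (b (b (l 391613774823) (l 16776536)) (l 16773520)))))) (b (b (l 4) (a (a (c (c (l 336316068567) (l 349737838727)) (c (l 355106552439) (l 368528325239)))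 (l 4)) (l 4))) (a (a (c (c (l 16776040) (b (l 16776416) (l 16774576))) (c (l 16775392) (l 16775368))) (b (a (c (c (l 16777144) (l 321283679655)) (c (l 16777120) (l 16777120))) (l 4)) (c (c (a (l 16776576) (l 16775024)) (a (l 16776048) (l 16774752))) (c (a (l 16775992) (l 16774688)) (a (l 16775976) (l 16774656)))))) (a (a (b (l 4) (c (c (l 16767424) (l 299808810503)) (c (l 16767112) (l 16766984)))) (l 4)) (l 4)))))), by decide +kernel⟩

def k20_pm_123_a : ∃ t, chk3 f_pm_123_a t 60 7 1 = true :=
  ⟨(b (c (b (a (c (b (l 16764744) (l 16739672)) (l 16730464)) (c (b (l 16770112) (l 16724040)) (b (l 16768688) (l 16742920)))) (a (c (l 16653968) (l 16652312)) (c (b (l 16702728) (l 16659248)) (b (l 16700064) (l 16656448))))) (b (a (c (l 16709152) (l 16708816)) (c (b (l 16768584) (l 16742496)) (b (l 16768472) (l 16742072)))) (a (c (l 16651272) (l 16650240)) (c (b (l 16699288) (l 16655544)) (b (l 16698504) (l 16654624)))))) (c (b (a (c (b (a (l 16556624) (l 16600936)) (a (a (l 16541992) (l 16545704)) (b (l 16565576)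 (l 16545984)))) (b (a (l 16596952) (l 16598888)) (a (l 16543232) (l 16556432)))) (b (c (l 16597760) (l 16598168)) (c (c (l 16576448) (l 16554792)) (l 16573760)))) (b (a (a (l 16498576) (l 16507704)) (c (c (l 16528200) (l 16526136)) (l 16521488))) (c (a (l 16446696) (l 16469968)) (l 16450344)))) (b (c (a (b (a (l 16595552) (l 16597592)) (a (l 16541864) (l 16555944))) (b (l 16598064) (l 16570464))) (a (b (a (l 16594152) (l 16596296)) (a (l 16540504) (l 16534488))) (b (l 16576992) (l 16567176)))) (a (b (l 16499632) (l 16432304)) (b (a (l 16507480) (l 16494200)) (l 16444264)))))), by decide +kernel⟩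

def k21_pm_123_a : ∃ t, chk3 f_pm_123_a t 61 14 1 = true :=
  ⟨(b (a (c (c (b (a (l 16773664) (l 16774560)) (a (l 16748600) (a (l 16750016) (l 16751088)))) (a (b (l 16772000) (l 16746024)) (b (l 16773232) (l 16714624)))) (c (b (a (l 16771864) (l 16773016)) (a (l 16745552) (l 16727120))) (b (a (l 16771800) (a (l 16773408) (l 16772512))) (a (l 16745184) (a (l 16746688) (l 16726816)))))) (a (c (b (b (c (l 16763424) (l 16741968)) (c (l 16742512) (l 16741576))) (c (c (l 16732368) (l 16731288)) (a (l 16727448) (l 16751296)))) (b (c (a (l 16765816) (l 16738088)) (a (l 16765672) (b (l 16758680) (l 16758680)))) (c (l 16729064) (a (l 16747288) (l 16750208))))) (b (a (b (l 4) (c (c (l 16758808) (l 16737504)) (c (l 16758208) (l 16757976)))) (l 4)) (c (c (a (l 16758208) (l 16763440)) (a (l 16757072) (l 16762888))) (c (a (l 16756496) (l 16762544)) (a (l 16756224) (l 16762368))))))) (a (a (c (c (b (l 16708536) (l 16673232)) (b (l 16705720) (l 16673224))) (c (l 16650832) (l 16650672))) (b (c (c (l 16697824) (l 16697912))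 (c (l 16718776) (l 16718536))) (c (c (l 16688552) (l 16687496)) (l 16683616)))) (c (c (a (b (l 16737920) (l 16709272)) (b (l 16753536) (l 16733624))) (a (l 16692808) (b (l 16751272) (l 16733312)))) (c (a (l 16723536) (l 16723280)) (a (l 16701464) (b (l 16749768) (l 16732048))))))), by decide +kernel⟩

def k22_pm_123_a : ∃ t, chk3 f_pm_123_a t 61 15 1 = true :=
  ⟨(c (a (b (c (a (l 16617944) (l 16632696)) (a (l 16614880) (l 16628968))) (c (b (a (l 16547760) (l 16563368)) (l 16499512)) (b (a (l 16540640) (a (l 16551552) (l 16560032))) (a (l 16480728) (c (l 16500192) (l 16493336)))))) (b (c (a (l 16653808) (b (l 16698936) (l 16658232))) (a (l 16650464) (l 16676392))) (b (c (l 16598200) (l 16569904)) (c (a (l 16531120) (l 16558288)) (a (c (l 16522984) (l 16517064)) (b (l 16562672) (l 16532192))))))) (a (b (c (a (l 16609808) (l 16622648)) (a (l 16604608) (l 16615816))) (b (a (c (l 16530584) (l 16520368)) (c (l 16544568) (l 16532752))) (a (l 16459400) (b (l 16490688) (l 16455776))))) (b (a (c (l 16644848)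 (l 16638192)) (c (l 16672296) (l 16666648))) (b (c (l 16581256) (l 16569632)) (a (c (l 16505064) (l 16488648)) (c (l 16534136) (l 16518120))))))), by decide +kernel⟩

def k23_pm_123_a : ∃ t, chk3 f_pm_123_a t 31 2 1 = true :=
  ⟨(l 4), by decide +kernel⟩

def k24_pm_123_a : ∃ t, chk3 f_pm_123_a t 31 6 1 = true :=
  ⟨(l 4), by decide +kernel⟩

def k25_pm_123_a : ∃ t, chk3 f_pm_123_a t 124 7 1 = true :=
  ⟨(a (b (b (a (b (l 4) (c (c (l 16768856) (l 16768704)) (c (l 206393290039) (l 16768504)))) (l 4)) (c (c (b (l 16743408) (l 16755424)) (c (l 16738192) (l 16716368))) (c (c (b (l 16762928) (l 16751600)) (l 16736528)) (c (l 16736400) (l 16736272))))) (c (b (c (b (l 16726840) (l 16686880)) (l 16705440)) (b (l 16679704) (c (l 16589040) (l 16578544)))) (b (c (l 16703096) (l 16699136)) (c (b (l 16627768) (l 16567136)) (b (l 16617936) (l 16552280)))))) (b (b (l 4) (a (c (c (b (l 16751608) (l 16763192)) (b (l 222499406215) (l 16762072))) (c (b (l 304640648423) (l 16761176)) (b (l 246658598711) (l 16760912))))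 (b (l 4) (c (c (l 16747488) (l 16768048)) (c (l 181160325047) (l 16767536)))))) (c (b (c (b (l 16733808) (l 16719000)) (l 16716704)) (c (b (l 16674296) (l 16623656)) (b (l 16668968) (l 16613912)))) (b (c (b (l 16729936) (l 16714968)) (l 16715000)) (c (b (l 16663896) (l 16604536)) (b (l 16656352) (l 16591824))))))), by decide +kernel⟩

def k26_pm_123_a : ∃ t, chk3 f_pm_123_a t 125 7 1 = true :=
  ⟨(b (a (a (b (l 4) (b (l 4) (c (c (c (l 16773472) (l 16752504)) (l 272428391863)) (c (l 299808802663) (l 328262970167))))) (l 4)) (l 4)) (b (b (a (c (c (a (l 16741496) (c (l 16768176) (l 16768136))) (a (l 16761592) (l 161832997783))) (c (a (l 16760656) (c (l 16767680) (l 16746568))) (a (l 16760304) (l 260617224327)))) (l 4)) (c (a (c (a (l 16744584) (l 16754344)) (l 16729160)) (c (a (l 16738336) (l 40500162503)) (a (b (l 16762600) (l 16754464)) (c (l 145726863719) (l 143579385143))))) (a (c (a (l 16742856) (l 16751376)) (l 16726336)) (c (a (a (l 16735176) (l 163443568455)) (b (l 4) (l 232163051463))) (a (l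 148411181127) (l 260080343575)))))) (c (a (c (b (c (l 16713408) (l 16710568)) (l 16642584)) (b (l 16707688) (l 16654296))) (c (b (a (l 16740320) (l 16747848)) (l 16686512)) (b (a (l 16738232) (c (l 16747776) (l 16747248))) (a (l 16688120) (l 16712200))))) (a (c (b (l 16704680) (l 16647056)) (b (l 16700360) (l 16637472))) (c (b (a (l 16737128) (l 101166486663)) (a (l 16682704) (l 16708112))) (b (a (l 16736776) (l 16724184)) (a (l 16676112) (l 16704144)))))))), by decide +kernel⟩

def k27_pm_123_a : ∃ t, chk3 f_pm_123_a t 63 7 1 = true :=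
  ⟨(a (b (l 4) (b (l 4) (a (b (a (c (c (a (l 16752112) (l 16735176)) (c (l 16733288) (a (l 16730792) (l 16734856)))) (c (a (l 16732896) (l 219815002743)) (a (l 16733680) (l 231089291575)))) (l 4)) (c (c (a (l 16711048) (c (l 21709593751) (l 54458721063))) (a (c (l 16732040) (l 16731752)) (c (l 81302266391) (a (l 16736920) (l 16719648))))) (c (a (b (l 16736792) (l 16719904)) (c (a (l 16736440) (l 138210587767)) (b (l 16723176) (l 16731568)))) (a (c (l 16729800) (l 16729544)) (c (a (l 16735208) (l 161296035799)) (b (l 16722656) (l 16730584))))))) (b (l 4) (b (l 4) (a (a (a (c (c (l 16737456) (l 16736944)) (c (l 16715432) (l 16714856))) (l 4)) (l 4)) (l 4))))))) (l 4)), by decide +kernel⟩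

theorem s28_pm_123_a : ∃ t, chk3 f_pm_123_a t 62 7 1 = true := ex3_a k25_pm_123_a k26_pm_123_a

theorem s29_pm_123_a : ∃ t, chk3 f_pm_123_a t 31 7 1 = true := ex3_a s28_pm_123_a k27_pm_123_a

theorem s30_pm_123_a : ∃ t, chk3 f_pm_123_a t 31 3 1 = true := ex3_b k24_pm_123_a s29_pm_123_a

theorem s31_pm_123_a : ∃ t, chk3 f_pm_123_a t 31 1 1 = true := ex3_b k23_pm_123_a s30_pm_123_a

theorem s32_pm_123_a : ∃ t, chk3 f_pm_123_a t 61 7 1 = true := ex3_b k21_pm_123_a k22_pm_123_a

theorem s33_pm_123_a : ∃ t, chk3 f_pm_123_a t 30 7 1 = true := ex3_a k20_pm_123_a s32_pm_123_a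

theorem s34_pm_123_a : ∃ t, chk3 f_pm_123_a t 30 3 1 = true := ex3_b k19_pm_123_a s33_pm_123_a

theorem s35_pm_123_a : ∃ t, chk3 f_pm_123_a t 30 1 1 = true := ex3_b k18_pm_123_a s34_pm_123_a

theorem s36_pm_123_a : ∃ t, chk3 f_pm_123_a t 15 1 1 = true := ex3_a s35_pm_123_a s31_pm_123_a

theorem s37_pm_123_a : ∃ t, chk3 f_pm_123_a t 14 3 1 = true := ex3_c k16_pm_123_a k17_pm_123_a

theorem s38_pm_123_a : ∃ t, chk3 f_pm_123_a t 14 5 1 = true := ex3_b k14_pm_123_a k15_pm_123_a

theorem s39_pm_123_a : ∃ t, chk3 f_pm_123_a t 14 2 1 = true := ex3_b k13_pm_123_a s38_pm_123_a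

theorem s40_pm_123_a : ∃ t, chk3 f_pm_123_a t 14 1 1 = true := ex3_b s39_pm_123_a s37_pm_123_a

theorem s41_pm_123_a : ∃ t, chk3 f_pm_123_a t 7 1 1 = true := ex3_a s40_pm_123_a s36_pm_123_a

theorem s42_pm_123_a : ∃ t, chk3 f_pm_123_a t 6 3 1 = true := ex3_b k11_pm_123_a k12_pm_123_a

theorem s43_pm_123_a : ∃ t, chk3 f_pm_123_a t 27 2 1 = true := ex3_a k9_pm_123_a k10_pm_123_a

theorem s44_pm_123_a : ∃ t, chk3 f_pm_123_a t 26 2 1 = true := ex3_a k7_pm_123_a k8_pm_123_a

theorem s45_pm_123_a : ∃ t, chk3 f_pm_123_a t 13 2 1 = true := ex3_a s44_pm_123_a s43_pm_123_a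

theorem s46_pm_123_a : ∃ t, chk3 f_pm_123_a t 12 2 1 = true := ex3_b k5_pm_123_a k6_pm_123_a

theorem s47_pm_123_a : ∃ t, chk3 f_pm_123_a t 6 2 1 = true := ex3_a s46_pm_123_a s45_pm_123_a

theorem s48_pm_123_a : ∃ t, chk3 f_pm_123_a t 6 1 1 = true := ex3_b s47_pm_123_a s42_pm_123_a

theorem s49_pm_123_a : ∃ t, chk3 f_pm_123_a t 3 1 1 = true := ex3_a s48_pm_123_a s41_pm_123_a

theorem s50_pm_123_a : ∃ t, chk3 f_pm_123_a t 2 3 1 = true := ex3_b k3_pm_123_a k4_pm_123_a

theorem s51_pm_123_a : ∃ t, chk3 f_pm_123_a t 5 2 1 = true := ex3_a k1_pm_123_a k2_pm_123_a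

theorem s52_pm_123_a : ∃ t, chk3 f_pm_123_a t 2 2 1 = true := ex3_a k0_pm_123_a s51_pm_123_a

theorem s53_pm_123_a : ∃ t, chk3 f_pm_123_a t 2 1 1 = true := ex3_b s52_pm_123_a s50_pm_123_a

theorem s54_pm_123_a : ∃ t, chk3 f_pm_123_a t 1 1 1 = true := ex3_a s53_pm_123_a s49_pm_123_a

theorem c_pm_123_a : CertFX 536870912 536870912 0 420477299 1046898278 26843546 true true false .npn 1 2 3
    ndF0q1 ndF1q2a pcF3 Cut.none Ext.none :=
  certFX2 (fam := true) (s1 := true) (s2 := false) (a := 1) (b := 2) (c := 3) (cn := .npn) (n1 := ndF0q1) (n2 := ndF1q2a) (pc := pcF3) (cut := Cut.none) (xt := Ext.none) (P1 := 536870912) (W1 := 536870912) (P2 := 0) (W2 := 420477299) (P3 := 1046898278) (W3 := 26843546)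
    rfl (fun _ => rfl) s54_pm_123_a

noncomputable def f_pm_123_b : ℕ → ℕ → ℕ → ℕ → Bool := onCell 1610612736 536870912 1239849684 370763052 1046898278 26843546
    (rowFX 2 true true false .npn 1 2 3 (qsf 536870912 536870912 1239849684 370763052 3) ndF0q1 ndF1q2b pcF3 Cut.none Ext.none)

def k0_pm_123_b : ∃ t, chk3 f_pm_123_b t 2 1 1 = true :=
  ⟨(a (l 1) (a (b (b (b (b (a (a (l 1) (c (c (l 16777216) (l 16777216)) (c (l 16777216) (l 16777216)))) (c (c (a (l 16777216) (l 16777216)) (a (l 16777216) (l 16777216))) (c (a (l 16777216) (l 16777216)) (a (l 16777216) (l 16777216))))) (a (l 1) (a (l 1) (c (l 16777216) (l 16777216))))) (l 1)) (l 1)) (l 1)) (b (a (b (b (c (c (b (c (l 16777216) (l 16777216)) (l 16777216)) (b (c (l 16777216) (l 16777216)) (l 16777216))) (a (b (c (l 16777216) (l 16777216)) (l 16777216)) (c (c (l 16777216) (l 16777216)) (c (l 16777216) (l 16777216))))) (b (c (l 16777216) (l 16777216)) (l 1))) (l 1)) (c (b (b (c (a (c (l 16777216) (l 16777216)) (c (l 16777216) (l 16777216))) (a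 (c (l 16777216) (l 16777216)) (b (a (l 16777216) (l 16777216)) (l 16777216)))) (c (l 16777216) (l 16777216))) (c (l 16777216) (l 16777216))) (b (b (b (c (a (a (l 16777216) (l 16777216)) (a (l 16777216) (l 16777216))) (a (a (l 16777216) (l 16777216)) (c (l 16777216) (l 16777216)))) (c (l 16777216) (l 16777216))) (c (l 16777216) (l 16777216))) (c (l 16777216) (l 16777216))))) (l 1)))), by decide +kernel⟩

def k1_pm_123_b : ∃ t, chk3 f_pm_123_b t 6 8 1 = true :=
  ⟨(b (a (a (c (c (a (a (l 16777216) (l 16777216)) (c (l 16777216) (l 16777216))) (a (c (l 16777216) (l 16777216)) (c (l 16777216) (l 16777216)))) (c (a (c (l 16777216) (l 16777216)) (b (c (l 16777216) (l 16777216)) (l 16777216))) (a (c (l 16777216) (l 16777216)) (b (c (l 16777216) (l 16777216)) (l 16777216))))) (c (c (a (b (c (l 16777216) (l 16777216)) (l 16777216)) (a (c (l 16777216) (l 16777216)) (b (c (l 16777216) (l 16777216)) (l 16777216)))) (a (b (c (l 16777216) (a (l 16777216) (l 16777216))) (l 16777216)) (a (c (l 16777216) (l 16777216))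 (b (c (l 16777216) (l 16777216)) (l 16777216))))) (c (a (a (a (l 16777216) (l 16777216)) (c (l 16777216) (l 16777216))) (a (c (l 16777216) (l 16777216)) (b (c (l 16777216) (l 16777216)) (l 16777216)))) (a (a (a (l 16777216) (l 16777216)) (c (l 16777216) (l 16777216))) (a (c (l 16777216) (l 16777216)) (b (c (l 16777216) (l 16777216)) (l 16777216))))))) (a (a (a (b (c (c (a (c (l 16777216) (l 16777216)) (b (c (l 16777216) (l 16777216)) (l 16777216))) (a (c (l 16777216) (l 16777216)) (c (l 16777216) (l 16777216)))) (c (a (c (l 16777216) (l 16777216)) (c (l 16777216) (l 16777216))) (a (c (l 16777216) (l 16777216)) (c (l 16777216) (l 16777216))))) (c (c (l 318599331847) (l 312156880903)) (c (l 303566946295) (l 292292657143)))) (l 4)) (l 4)) (l 4))) (a (a (c (c (a (l 16777216) (l 16777216)) (a (l 16777216) (l 16777216))) (c (a (l 16777216) (l 16777216)) (a (l 16777216) (l 16777216)))) (c (a (c (l 16777216) (l 16777216)) (c (a (l 16777216) (l 16777216)) (a (l 16777216) (l 16777216)))) (a (c (l 16777216)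 (l 16777216)) (c (a (l 16777216) (l 16777216)) (a (l 16777216) (l 16777216)))))) (l 4))), by decide +kernel⟩

def k2_pm_123_b : ∃ t, chk3 f_pm_123_b t 6 9 1 = true :=
  ⟨(a (a (c (c (l 16777216) (a (l 16777216) (l 16777216))) (c (a (l 16777216) (l 16777216)) (a (l 16777216) (l 16777216)))) (a (c (c (l 16777216) (l 16777216)) (c (c (l 16777216) (l 16777216)) (b (l 16777216) (l 16777216)))) (a (c (c (l 16777216) (l 16777216)) (c (l 16777216) (l 16777216))) (l 4)))) (l 4)), by decide +kernel⟩

def k3_pm_123_b : ∃ t, chk3 f_pm_123_b t 6 5 1 = true :=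
  ⟨(a (b (a (c (c (l 16777216) (l 16777216)) (c (l 16777216) (l 16777216))) (a (l 4) (l 4))) (a (l 1) (l 4))) (l 4)), by decide +kernel⟩

def k4_pm_123_b : ∃ t, chk3 f_pm_123_b t 6 3 1 = true :=
  ⟨(a (l 1) (l 4)), by decide +kernel⟩

def k5_pm_123_b : ∃ t, chk3 f_pm_123_b t 7 1 1 = true :=
  ⟨(l 4), by decide +kernel⟩

theorem s6_pm_123_b : ∃ t, chk3 f_pm_123_b t 6 4 1 = true := ex3_b k1_pm_123_b k2_pm_123_b

theorem s7_pm_123_b : ∃ t, chk3 f_pm_123_b t 6 2 1 = true := ex3_b s6_pm_123_b k3_pm_123_b

theorem s8_pm_123_b : ∃ t, chk3 f_pm_123_b t 6 1 1 = true := ex3_b s7_pm_123_b k4_pm_123_b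

theorem s9_pm_123_b : ∃ t, chk3 f_pm_123_b t 3 1 1 = true := ex3_a s8_pm_123_b k5_pm_123_b

theorem s10_pm_123_b : ∃ t, chk3 f_pm_123_b t 1 1 1 = true := ex3_a k0_pm_123_b s9_pm_123_b

theorem c_pm_123_b : CertFX 536870912 536870912 1239849684 370763052 1046898278 26843546 true true false .npn 1 2 3
    ndF0q1 ndF1q2b pcF3 Cut.none Ext.none :=
  certFX2 (fam := true) (s1 := true) (s2 := false) (a := 1) (b := 2) (c := 3) (cn := .npn) (n1 := ndF0q1) (n2 := ndF1q2b) (pc := pcF3) (cut := Cut.none) (xt := Ext.none) (P1 := 536870912) (W1 := 536870912) (P2 := 1239849684) (W2 := 370763052) (P3 := 1046898278) (W3 := 26843546)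
    rfl (fun _ => rfl) s10_pm_123_b

noncomputable def f_pm_133 : ℕ → ℕ → ℕ → ℕ → Bool := onCell 536870912 536870912 1610612736 469762048 1046898278 26843546
    (rowFX 0 true true false .dn 1 3 3 (qsf 536870912 536870912 1610612736 469762048 3) ndF0q1 ndF1q3 pcF3 Cut.none Ext.none)

def k0_pm_133 : ∃ t, chk3 f_pm_133 t 1 1 1 = true :=
  ⟨(l 4), by decide +kernel⟩

theorem c_pm_133 : CertFX 536870912 536870912 1610612736 469762048 1046898278 26843546 true true false .dn 1 3 3
    ndF0q1 ndF1q3 pcF3 Cut.none Ext.none :=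
  certFX0 (fam := true) (s1 := true) (s2 := false) (a := 1) (b := 3) (c := 3) (cn := .dn) (n1 := ndF0q1) (n2 := ndF1q3) (pc := pcF3) (cut := Cut.none) (xt := Ext.none) (P1 := 536870912) (W1 := 536870912) (P2 := 1610612736) (W2 := 469762048) (P3 := 1046898278) (W3 := 26843546)
    rfl k0_pm_133

noncomputable def f_pm_202 : ℕ → ℕ → ℕ → ℕ → Bool := onCell 0 536870912 1073741824 536870912 1046898278 26843546
    (rowFX 1 true true false .pp 2 0 2 (qsf 0 536870912 67108864 469762048 2) ndF0q2 ndF1q0 pcF2 Cut.none Ext.none)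

def k0_pm_202 : ∃ t, chk3 f_pm_202 t 2 4 1 = true :=
  ⟨(l 1), by decide +kernel⟩

def k1_pm_202 : ∃ t, chk3 f_pm_202 t 2 10 1 = true :=
  ⟨(a (l 1) (b (l 1) (b (l 1) (a (l 1) (a (l 1) (b (l 1) (c (c (l 16113600) (l 16114344)) (l 16103528)))))))), by decide +kernel⟩

def k2_pm_202 : ∃ t, chk3 f_pm_202 t 2 11 1 = true :=
  ⟨(b (b (a (l 1) (a (c (c (a (l 15701296) (l 15671256)) (a (l 15728768) (l 15797840))) (a (l 15713856) (l 15779960))) (c (a (c (b (l 15923248) (l 15849168)) (l 15880160)) (a (l 15960008) (l 16020544))) (a (l 15801192) (a (l 15939136) (l 16002104)))))) (a (a (b (l 1) (c (c (c (l 15427496) (l 15423616)) (l 15410520)) (c (l 15393072) (l 15375616)))) (c (c (c (a (l 15488616) (l 15531424)) (l 48349121783)) (a (l 15479248) (l 15519344))) (a (l 15454608) (l 15495480)))) (a (c (a (c (l 15587496) (l 15574024)) (a (l 15635656) (l 15676776))) (a (l 15551192) (l 15623584))) (c (a (l 15745744) (l 15848800)) (a (l 15719192) (l 15825000)))))) (c (b (a (a (a (c (b (b (c (l 15381752) (l 15372712))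 (l 15445016)) (a (l 15518560) (l 15517552))) (b (b (l 15380168) (l 15427504)) (l 15503640))) (c (b (l 15355744) (l 15530024)) (l 15465344))) (c (a (b (l 15462728) (l 15558008)) (l 15489760)) (a (l 15493880) (l 15536600)))) (a (c (a (l 15608744) (l 15678584)) (a (l 15593416) (l 15664184))) (a (c (l 15756056) (l 15742696)) (c (l 15833096) (l 15820752))))) (a (a (a (c (a (l 15670272) (l 15663440)) (l 15654104)) (l 15666976)) (c (l 15721056) (l 15707224))) (a (c (l 15811104) (l 15798464)) (a (l 15886480) (l 15943936))))) (c (a (a (a (b (b (l 15386816) (l 15487208)) (l 15639624)) (l 15421624)) (b (a (l 15477320) (l 15520592)) (l 15693416))) (a (b (a (l 15578136) (l 15649824)) (l 15785832)) (b (a (l 15729344) (l 15808408)) (l 15899088)))) (a (a (a (b (l 15421368) (l 15625144)) (l 15531784)) (a (l 15539728) (l 15413928))) (a (b (a (l 15562864) (l 15635464)) (l 15773208)) (b (a (l 15716000) (l 15796072)) (l 15887896))))))), by decide +kernel⟩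

def k3_pm_202 : ∃ t, chk3 f_pm_202 t 2 6 1 = true :=
  ⟨(a (b (c (a (b (a (b (a (l 15845872) (l 15787864)) (l 15958640)) (b (l 15832384) (l 15948488))) (a (l 16123928) (b (l 16058512) (l 16173344)))) (c (b (l 15882808) (l 16150544)) (b (l 15913608) (l 16142352)))) (a (b (a (a (l 15884648) (l 15867320)) (c (l 15875016) (l 15863528))) (a (l 16107024) (b (l 16039856) (l 16157672)))) (c (b (l 15902464) (l 16134160)) (b (l 15891320) (l 16125968))))) (a (b (c (a (l 16377080) (l 16385584)) (a (l 16366696) (l 16375416))) (c (c (l 16655920) (l 16654336)) (c (l 16652752) (l 16651168)))) (b (c (a (l 16279280) (l 16435664)) (a (l 16353496) (l 16426792))) (a (c (l 16591904) (l 16589272)) (c (l 16634792) (l 16632728)))))) (b (a (c (b (c (l 15989000) (l 15978696)) (a (l 16196184) (l 16224360))) (b (c (l 15968392) (l 15958088)) (a (l 16181088) (l 16231520)))) (c (b (a (l 15988736) (c (l 16116832) (l 16108200))) (a (l 16222944) (l 16213312))) (b (a (l 16032808) (c (l 16099568) (l 16090936))) (a (l 16294608) (l 16349824)))))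 (a (b (c (c (l 16441480) (l 16458880)) (c (l 16476288) (l 16493696))) (c (a (l 16722248) (l 16725096)) (a (l 16720816) (l 16745256)))) (c (a (b (l 16419760) (l 16744440)) (b (b (l 16568976) (l 16675624)) (l 16776224))) (b (a (l 16498720) (c (l 16546480) (l 16565848))) (a (l 16765112) (l 16776200))))))), by decide +kernel⟩

def k4_pm_202 : ∃ t, chk3 f_pm_202 t 2 7 1 = true :=
  ⟨(a (c (b (a (c (l 16777208) (l 16777208)) (a (l 16777216) (c (l 16777216) (l 16777216)))) (a (c (l 16777216) (l 16777216)) (c (l 16777216) (l 16777216)))) (c (b (a (l 16777208) (l 16777216)) (a (l 16777216) (l 16777216))) (a (b (l 16777208) (l 16777216)) (b (l 16777216) (l 16777216))))) (a (c (b (a (l 16777216) (l 16777216)) (a (l 16777216) (b (l 16777216) (l 16777216)))) (b (a (l 16777216) (l 16777216)) (a (l 16777216) (l 16777216)))) (c (b (a (l 16777216) (l 16777216)) (a (l 16777216) (l 16777216))) (c (b (l 16777216) (l 16777216)) (l 16777216))))), by decide +kernel⟩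

def k5_pm_202 : ∃ t, chk3 f_pm_202 t 6 4 1 = true :=
  ⟨(l 1), by decide +kernel⟩

def k6_pm_202 : ∃ t, chk3 f_pm_202 t 7 8 1 = true :=
  ⟨(b (l 1) (b (l 1) (b (l 1) (b (l 1) (b (l 1) (a (l 1) (a (l 1) (a (l 1) (a (l 1) (a (l 1) (c (c (l 16489784) (l 16484320)) (c (c (l 16481168) (l 16441000)) (l 16481504))))))))))))), by decide +kernel⟩

def k7_pm_202 : ∃ t, chk3 f_pm_202 t 14 18 1 = true :=
  ⟨(l 1), by decide +kernel⟩

def k8_pm_202 : ∃ t, chk3 f_pm_202 t 15 36 1 = true :=
  ⟨(a (l 1) (a (b (l 1) (a (b (l 1) (c (c (a (l 1) (c (l 16417952) (l 16418248))) (l 16444904)) (l 16409432))) (c (c (c (b (l 16441776) (l 16376576)) (l 16277640)) (c (c (l 16344928) (l 16330016)) (b (l 16389608) (l 16387992)))) (c (l 16384552) (l 16427416))))) (c (c (b (c (a (l 56404167159) (l 16372256)) (a (l 16477176) (l 16430224))) (a (c (l 16358248) (l 16354952)) (l 16282880))) (c (b (a (l 16475568) (l 16428288)) (a (l 16246168) (l 16299752))) (a (b (c (l 16431672) (l 16392936)) (c (l 16289328) (l 16272352))) (b (l 16426352)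 (l 16294352))))) (c (c (a (c (b (l 16355448) (l 16315776)) (l 16313936)) (b (c (l 16380736) (b (l 16455288) (l 16394512))) (c (l 16293448) (l 16274728)))) (a (b (l 16486984) (l 16362816)) (c (b (a (l 16437640) (l 16412240)) (l 16295096)) (l 16253928)))) (a (b (l 16449048) (l 16344632)) (b (c (l 16404368) (l 16386480)) (l 16211336))))))), by decide +kernel⟩

def k9_pm_202 : ∃ t, chk3 f_pm_202 t 15 37 1 = true :=
  ⟨(a (b (a (l 1) (a (l 1) (b (l 1) (c (c (c (c (l 16276112) (l 16360064)) (l 16366240)) (l 16369384)) (l 16304816))))) (a (a (l 1) (b (l 1) (c (c (l 16324736) (l 16316360)) (l 16266728)))) (c (c (c (a (l 16187856) (c (a (l 16265528) (l 16235640)) (l 16254248))) (l 16202512)) (c (l 16287512) (l 16288400))) (c (l 16263256) (l 16173808))))) (c (a (c (c (a (b (c (l 16203512) (a (l 16345680) (l 16314928))) (c (l 16101280) (l 16085824))) (l 16036008)) (a (b (c (l 16209672) (l 16319488)) (c (l 16175368) (l 16196080))) (c (b (l 16272072) (l 16130664)) (b (l 16272248) (l 16134392))))) (c (a (l 16107472)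 (c (b (l 16256624) (l 16138992)) (b (l 16281528) (l 16137256)))) (a (l 16156192) (l 16213296)))) (c (c (b (l 16177728) (l 16023720)) (b (l 16195320) (l 16061344))) (c (a (c (b (l 16216648) (l 16077712)) (b (l 16214408) (l 16079344))) (l 16079712)) (c (a (b (l 16217688) (l 16082328)) (l 15947296)) (a (b (l 16219896) (l 16078480)) (b (l 16159736) (l 16027488))))))) (a (c (b (a (l 16353736) (l 16291264)) (l 16094816)) (b (l 16215320) (l 16173712))) (c (c (a (l 16149776) (c (b (l 16161488) (l 16029408)) (a (l 16103656) (l 15975376)))) (a (l 16153960) (l 16089336))) (a (c (l 16156520) (l 16153880)) (c (l 16067864) (l 15984832))))))), by decide +kernel⟩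

def k10_pm_202 : ∃ t, chk3 f_pm_202 t 14 38 1 = true :=
  ⟨(a (l 1) (a (l 1) (c (c (b (c (b (l 1) (l 16253664)) (l 16218680)) (c (a (l 16193120) (l 16146216)) (l 16160656))) (b (l 16310896) (l 16155152))) (b (c (l 16305888) (l 16216896)) (c (l 16147848) (l 16098600)))))), by decide +kernel⟩

def k11_pm_202 : ∃ t, chk3 f_pm_202 t 15 38 2 = true :=
  ⟨(a (b (c (a (c (a (l 16176320) (l 16215504)) (l 16230800)) (c (b (a (l 16201936) (l 16143032)) (l 16096304)) (l 16118184))) (a (l 16184080) (l 16054104))) (c (a (c (l 16076072) (l 16068368)) (c (l 15910408) (l 15977392))) (a (l 16061856) (l 15974504)))) (a (c (c (b (a (c (b (l 16058408) (b (l 16026920) (l 15948528))) (b (l 16085384) (a (l 16023744) (l 15998096)))) (c (l 15994904) (b (l 16027616) (l 15955632)))) (a (c (a (l 15904056) (l 15876272)) (l 15893800)) (c (l 15840032) (a (l 15851440) (l 15827432))))) (b (a (b (l 16089360) (l 16013784)) (c (b (l 16026760) (a (l 15972656) (l 15943072))) (b (l 16031376) (l 15940520)))) (a (l 15892864) (c (a (l 15854824)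 (l 15825888)) (l 15843096))))) (c (b (c (a (l 16055256) (l 15892128)) (l 16028264)) (l 15870304)) (b (l 16031656) (l 15873552)))) (c (b (c (b (l 15965808) (b (l 15915888) (l 15881192))) (a (c (l 15948208) (l 15942928)) (l 15906704))) (c (a (l 15805032) (l 15780272)) (a (c (l 15799816) (a (l 15802400) (l 15788768))) (l 15773744)))) (c (b (a (c (a (l 15954520) (l 15930776)) (b (l 15978608) (l 15910352))) (b (l 15934416) (l 15864912))) (a (c (a (l 15804816) (l 15783592)) (l 15796832)) (c (l 15768848) (l 15761704)))) (b (a (c (l 15839240) (l 15939784)) (c (a (l 15906704) (l 15884880)) (b (l 15929032) (l 15863032)))) (a (l 15790216) (c (l 15762304) (l 15763360)))))))), by decide +kernel⟩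

def k12_pm_202 : ∃ t, chk3 f_pm_202 t 15 38 3 = true :=
  ⟨(a (b (a (c (l 16135768) (a (l 16215104) (l 16192576))) (c (l 16133360) (l 16041840))) (c (a (l 16053176) (l 15967568)) (a (l 16044488) (l 15957632)))) (c (a (b (c (l 16033384) (l 16032192)) (l 15851976)) (b (c (c (a (l 15939936) (a (l 15901600) (l 15883816))) (l 15915608)) (l 15790248)) (a (l 15791328) (l 15751832)))) (a (b (l 15941832) (l 15863720)) (b (a (l 15879208) (c (l 15883680) (l 15841184))) (a (l 15767112) (c (l 15745912) (l 15744400))))))), by decide +kernel⟩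

def k13_pm_202 : ∃ t, chk3 f_pm_202 t 7 39 1 = true :=
  ⟨(a (a (a (l 1) (b (l 1) (c (c (c (l 141228676647) (l 15951104)) (l 15943328)) (c (l 15933192) (l 15923048))))) (c (c (a (c (b (a (l 16099120) (l 16061848)) (l 15904528)) (b (l 16070744) (l 15900808))) (b (a (l 16017088) (l 15970296)) (l 15820024))) (a (l 15767480) (l 15689840))) (c (a (b (l 16055680) (l 15881624)) (b (l 15976816) (l 15795616))) (a (b (l 16026192) (l 15828712)) (b (l 15925176) (l 15783376)))))) (c (a (c (a (c (a (l 15839104) (l 15798016)) (l 15812632)) (c (a (l 15690440) (b (l 15781416) (l 15623816))) (b (l 15811320) (l 15650096)))) (a (l 15782400) (c (l 15665488) (l 15725328)))) (c (a (c (a (c (b (b (l 15730200) (l 15693112)) (l 15588704)) (l 15659208)) (b (c (a (b (l 15731088) (l 15659688)) (l 15683456)) (a (l 15678616) (l 15678240))) (c (a (l 15569432) (l 15557320)) (a (l 15569880) (l 15557216))))) (a (l 15660760) (a (l 15630688) (c (b (l 15681104) (l 15557880)) (l 15613728))))) (c (b (l 15702688) (c (l 15549992) (l 15542744)))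 (a (c (b (l 15661952) (l 15542616)) (b (l 15661192) (l 15544176))) (l 15592256)))) (a (c (b (l 15714400) (l 15575720)) (l 15502184)) (c (a (c (b (l 15663216) (l 15543032)) (l 15599024)) (c (a (l 15586872) (l 15585328)) (b (l 15641296) (l 15525904)))) (a (l 15592608) (c (b (l 15642984) (l 15525560)) (l 15580664))))))) (a (c (a (l 15707136) (b (l 15797328) (l 15632008))) (a (b (l 15866808) (l 15690704)) (b (l 15785000) (l 15617344)))) (a (c (c (l 15522168) (l 15623112)) (b (l 15681800) (l 15559552))) (c (a (l 15507696) (l 15567416)) (a (l 15459648) (c (l 15559504) (l 15556656)))))))), by decide +kernel⟩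

def k14_pm_202 : ∃ t, chk3 f_pm_202 t 6 10 1 = true :=
  ⟨(b (a (l 1) (b (b (l 1) (a (l 1) (c (c (a (l 15926928) (l 15794376)) (l 15841272)) (a (l 15868328) (c (l 15766776) (l 15754448)))))) (a (c (c (a (l 16065136) (l 16013840)) (a (l 16151704) (l 16125120))) (a (c (l 16186680) (l 16139048)) (c (l 16096752) (l 16005472)))) (c (a (b (l 15939336) (l 16072960)) (l 15868344)) (a (b (l 15917888) (l 16056520)) (l 15783056)))))) (b (a (a (a (l 1) (c (c (l 16368384) (l 16447816)) (l 16427920))) (c (c (b (l 16413528) (l 16466744)) (l 16426544)) (a (l 16449576) (l 16406456)))) (a (c (a (c (l 16366320) (l 16385080)) (l 16328368)) (a (b (l 16380856) (l 16484528)) (l 16258016))) (c (l 15963424) (c (l 16079024) (l 15967232))))) (a (a (c (c (b (l 16244416) (l 16240392)) (l 16241680)) (a (l 16241928) (l 16286168))) (c (l 16283352) (a (l 16383448) (l 16420832)))) (c (a (c (l 16440160) (l 16418688)) (c (l 16307800) (l 16283496))) (a (a (l 16433760) (l 16438456)) (c (l 16238208) (a (l 16356416) (l 16275544)))))))),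 by decide +kernel⟩

def k15_pm_202 : ∃ t, chk3 f_pm_202 t 14 40 1 = true :=
  ⟨(a (a (a (c (b (b (l 1) (c (l 15806424) (l 15793088))) (b (l 15718600) (l 15641032))) (a (l 15600976) (b (c (l 15803464) (l 15791600)) (l 15632928)))) (c (b (c (l 15808688) (l 15795296)) (c (b (l 15672912) (a (l 15595944) (l 15579808))) (l 15616328))) (b (c (l 15783216) (l 15771120)) (c (l 15538656) (a (b (l 15636840) (l 15550256)) (l 15579816)))))) (c (c (b (l 15780216) (c (l 15604136) (l 15596520))) (b (l 15768520) (l 15585072))) (c (b (l 15755880) (l 15569808)) (b (l 15743240) (c (l 15558360) (l 15550728)))))) (c (c (a (b (l 15724632) (c (l 15554480) (l 15546448))) (c (b (l 15651800) (l 15483544)) (l 15412920))) (a (l 15496832) (b (l 15633400) (l 15462072)))) (c (a (b (l 15697584) (l 15518312)) (b (l 15618672) (l 15444888))) (a (c (l 15533816) (l 15379600)) (b (l 15603944) (c (l 15432000) (l 15423408))))))), by decide +kernel⟩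

def k16_pm_202 : ∃ t, chk3 f_pm_202 t 14 41 1 = true :=
  ⟨(a (a (a (c (l 15758312) (l 15732608)) (c (b (c (c (l 15633688) (l 15626256)) (l 15615280)) (b (c (a (l 15741496) (l 15705080)) (l 15710808)) (l 15781232))) (b (c (l 15474552) (b (a (l 15564000) (l 15536280)) (l 15617000))) (b (a (l 15708088) (c (l 15677224) (l 15621344))) (l 15755752))))) (c (b (c (l 15557824) (l 15563168)) (c (b (b (l 15640048) (l 15665504)) (l 15706840)) (b (l 15637488) (l 15692888)))) (b (c (l 15547496) (c (l 15535744) (l 15527904))) (c (b (l 15622864) (l 15678912)) (b (b (l 15595376) (l 15622152)) (l 15664928)))))) (c (b (c (a (c (l 15520856) (l 15512528)) (c (l 15449608) (l 15440728))) (a (l 15500040) (l 15427416))) (c (c (b (a (l 15540560) (l 15508592)) (l 15605992)) (a (l 15542696) (l 15530472))) (a (b (l 15562672) (l 15622688)) (l 15518032)))) (b (c (a (l 15483384) (l 15388688)) (a (c (l 15470896) (l 15462568)) (c (l 15396344) (l 15387464)))) (b (c (a (l 15546808) (l 15470360)) (a (b (l 15516240) (l 15543968)) (l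 15369488))) (c (l 15570856) (a (l 15592528) (l 15516336))))))), by decide +kernel⟩

def k17_pm_202 : ∃ t, chk3 f_pm_202 t 15 40 2 = true :=
  ⟨(a (c (a (c (b (l 15573200) (a (l 15429368) (l 15408632))) (b (l 15561832) (l 15411304))) (a (c (b (l 15519912) (l 15389984)) (l 15454688)) (c (l 15467776) (l 15429144)))) (a (b (l 15549848) (l 15397664)) (c (l 15394376) (l 15431128)))) (c (a (c (a (l 15442808) (c (b (a (l 15451064) (l 15438200)) (a (l 15328968) (c (l 15322864) (l 15323296)))) (b (l 15383240) (l 15324272)))) (b (l 15451896) (l 15330576))) (c (a (c (b (l 15436200) (l 15315560)) (b (l 15427168) (a (l 15316200) (l 15311008)))) (l 15433704)) (a (b (c (l 15426936) (l 15427456)) (c (a (l 15313152) (l 15309096)) (l 15309056))) (c (l 15360624) (b (l 15412064) (l 15297440)))))) (a (c (l 15389736) (l 15389472)) (a (l 15354992) (c (c (b (l 15410376) (l 15298240)) (b (l 15411400) (l 15296136))) (c (l 15347848) (l 15339480))))))), by decide +kernel⟩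

def k18_pm_202 : ∃ t, chk3 f_pm_202 t 15 41 2 = true :=
  ⟨(a (b (c (a (c (l 15394320) (l 15381592)) (c (l 15338896) (l 15338264))) (a (l 15367576) (l 15328328))) (c (a (b (c (l 15357232) (l 15428688)) (l 15493616)) (b (c (b (l 15358008) (l 15378608)) (l 15367848)) (l 15417496))) (a (l 15443208) (l 15362688)))) (b (c (a (c (c (a (l 15293312) (a (l 15276456) (a (l 15268480) (b (l 15269832) (l 15265272))))) (l 15281472)) (l 15258888)) (c (c (c (a (b (l 15263200) (l 15254784)) (l 15251944)) (b (l 15233496) (l 15222656))) (a (b (l 15238440) (l 15231832)) (l 15245304))) (a (c (l 15254184) (l 15244776)) (c (l 15214888) (l 15234200))))) (a (c (l 15277520) (l 15276384)) (c (a (l 15238176) (c (l 15233544) (l 15225544))) (l 15223680)))) (a (c (b (c (l 15231976) (l 15291904)) (l 15339080)) (c (l 15312392) (l 15311472))) (c (b (c (b (b (a (l 15228832) (l 15232856)) (a (b (l 15227968) (l 15229448)) (l 15230856))) (a (l 15243824) (l 15241824))) (b (a (a (l 15243352) (l 15216032)) (c (l 15200040) (l 15219608)))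 (c (l 15248056) (l 15245584)))) (c (a (a (l 15284912) (l 15270832)) (l 15246504)) (a (l 15287368) (l 15260712)))) (a (l 15254328) (c (b (b (l 15214592) (l 15225600)) (l 15252360)) (l 15221224))))))), by decide +kernel⟩

def k19_pm_202 : ∃ t, chk3 f_pm_202 t 15 20 3 = true :=
  ⟨(b (a (c (a (b (l 15533864) (l 15379488)) (b (l 15483440) (l 15351328))) (a (b (l 15517888) (a (l 15370800) (l 15348976))) (b (l 15466656) (l 15332632)))) (c (a (c (l 15386584) (l 15380768)) (c (l 15340728) (l 15294120))) (a (c (l 15371936) (l 15362784)) (c (a (l 15342336) (l 15317792)) (a (l 15333960) (l 15313176)))))) (a (b (c (a (l 15348888) (l 15312008)) (a (c (l 15334880) (l 15325536)) (l 15292688))) (c (b (a (l 15397040) (l 15342224)) (l 15424384)) (b (a (b (l 15366368) (l 15391560)) (l 15323256)) (l 15406584)))) (b (c (a (c (l 15272624) (l 15265928)) (c (l 15216464) (l 15210840))) (a (l 15251216) (c (l 15205792) (l 15178576)))) (c (a (b (l 15281440) (l 15327752)) (b (a (l 15223920) (l 15189920)) (l 15245960))) (c (a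 (l 15291944) (a (l 15238736) (l 15194152))) (a (l 15282136) (a (l 15229528) (l 15083688)))))))), by decide +kernel⟩

def k20_pm_202 : ∃ t, chk3 f_pm_202 t 14 21 1 = true :=
  ⟨(a (c (b (a (l 15923304) (c (b (a (l 15819888) (l 15783480)) (l 15900912)) (a (l 15861800) (l 15840832)))) (a (l 16274200) (c (b (l 16089400) (l 16234344)) (l 16050728)))) (b (a (c (l 15971216) (l 15898264)) (c (a (b (l 15794880) (l 15942528)) (l 15828720)) (a (b (a (l 15793984) (l 15767632)) (l 15931976)) (l 15732736)))) (a (l 16178216) (c (b (l 16071752) (l 16220832)) (a (b (l 16088592) (l 16242560)) (b (l 16033984) (l 16182472))))))) (c (c (b (a (l 15740072) (l 15636392)) (a (l 16068328) (l 15967920))) (b (l 15581040) (l 15945976))) (c (b (a (l 15777304) (l 15692168)) (a (l 16050080) (l 15946792))) (b (a (b (l 15695112) (l 15833648)) (l 15531312)) (a (c (l 16043240) (l 16017704)) (l 15810400)))))), by decide +kernel⟩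

def k21_pm_202 : ∃ t, chk3 f_pm_202 t 15 21 1 = true :=
  ⟨(c (a (c (b (a (c (l 15640032) (l 15628968)) (c (l 15466800) (l 15551504))) (a (c (l 15823608) (l 15856104)) (c (l 15661952) (l 15748056)))) (b (a (l 15617456) (l 15543744)) (a (l 15847008) (l 15742408)))) (a (c (b (c (b (l 15411360) (l 15498856)) (l 15451824)) (c (l 15615160) (l 15614464))) (b (c (l 15450656) (l 15450696)) (l 15615168))) (c (b (c (a (b (c (l 15360448) (l 15357032)) (l 15430456)) (c (l 15351272) (l 15347016))) (a (l 15382216) (c (l 15345376) (l 15342488)))) (c (a (b (l 15498208) (l 15564952)) (b (l 15447312) (l 15513432))) (c (l 15502048) (l 15494696)))) (b (l 15349144) (l 15485776))))) (a (b (c (a (l 15602112) (l 15530320)) (a (b (l 15526672) (l 15646704)) (l 15388064))) (c (a (l 15834880) (l 15731792)) (a (b (l 15766584) (l 15880768)) (b (l 15672360) (l 15765640))))) (c (a (b (c (l 15448112) (l 15442600)) (l 15612040)) (b (a (l 15363264) (l 15307888)) (l 15475504))) (a (b (b (l 15385368) (l 15476936)) (l 15598752)) (b (a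 (l 15353528) (c (l 15296888) (l 15291984))) (a (l 15499000) (l 15346352))))))), by decide +kernel⟩

def k22_pm_202 : ∃ t, chk3 f_pm_202 t 6 11 1 = true :=
  ⟨(b (a (c (a (b (l 16032624) (c (l 15960192) (l 15949720))) (b (c (l 16254944) (l 16248768)) (c (l 16058256) (l 16049048)))) (a (b (l 16079600) (a (l 15909200) (l 15962832))) (b (a (l 16205368) (l 16254656)) (a (l 16012984) (l 16058880))))) (a (c (b (c (l 16290840) (l 16244912)) (l 16073952)) (b (a (c (l 16335840) (l 16289192)) (l 16295336)) (a (l 16095736) (l 16168504)))) (b (c (l 16457232) (a (l 16422408) (l 16484320))) (c (l 16306464) (c (l 16278344) (l 16189696)))))) (a (c (a (c (l 15876576) (l 15907848)) (b (c (l 15980240) (l 15969816)) (l 16082568))) (a (b (c (l 15883176) (l 15871784)) (l 15989240)) (b (c (l 15959400) (l 15948984)) (l 16064520)))) (c (a (b (c (l 16095296) (l 16086456)) (a (l 16158040) (l 16251352))) (b (c (l 16283864) (l 16235800)) (l 16388280))) (a (b (c (a (l 16033360) (l 16121488)) (a (l 16023912) (l 16092280))) (a (l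 16142008) (l 16237944))) (b (c (b (l 16240344) (l 16298928)) (b (a (l 16182224) (l 16220672)) (l 16251216))) (c (l 16402624) (l 16335296))))))), by decide +kernel⟩

def k23_pm_202 : ∃ t, chk3 f_pm_202 t 7 22 1 = true :=
  ⟨(a (c (a (b (a (l 16540840) (b (l 16248720) (l 16513264))) (l 16370160)) (a (b (c (l 16161224) (l 16260800)) (c (l 16399560) (l 16460904))) (b (c (l 16160056) (l 16194888)) (l 16261552)))) (a (b (a (l 16390472) (c (l 16229784) (b (a (l 16392704) (l 16330432)) (l 16486056)))) (c (l 16346936) (a (l 16368560) (l 16422704)))) (b (c (a (l 16108720) (l 16166800)) (a (b (l 16225704) (a (l 16371968) (l 16349336))) (b (l 16124816) (l 16238752)))) (a (c (l 16354488) (a (b (l 16459216) (l 16576608)) (c (l 16439240) (l 16396224)))) (c (l 16360568) (c (l 16336680) (l 16250840))))))) (c (a (c (b (a (l 16003232) (l 15814160)) (a (l 16231672) (l 16067296))) (b (l 15864464) (l 16087032))) (c (a (b (l 15704752) (l 15919632)) (c (b (a (l 15668856) (l 15611568)) (l 15732344)) (l 15636672))) (a (b (l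 15769688) (l 15924040)) (l 15481120)))) (a (c (b (l 15788064) (l 15992408)) (b (a (b (l 15984744) (l 16082576)) (l 15856808)) (a (c (l 16230392) (l 16101432)) (l 15929096)))) (c (a (b (l 15768848) (l 15925592)) (b (l 15614176) (l 15753096))) (a (b (l 15757848) (l 15875040)) (b (c (l 15609440) (l 15543120)) (c (l 15749976) (l 15600856)))))))), by decide +kernel⟩

def k24_pm_202 : ∃ t, chk3 f_pm_202 t 7 23 1 = true :=
  ⟨(a (a (c (c (l 16421600) (l 16314920)) (b (c (l 16329624) (b (a (l 16335112) (l 16438960)) (l 16423064))) (c (l 16504928) (l 16441176)))) (c (b (b (b (a (l 16556192) (l 16453576)) (l 16426544)) (l 16379960)) (c (l 16395544) (l 16349928))) (c (b (b (b (b (l 16414056) (l 16469616)) (l 16424512)) (l 16397728)) (l 16262368)) (a (b (a (l 16546064) (b (b (b (l 16583408) (l 16618024)) (l 16593512)) (l 16565968))) (l 16407816)) (b (b (b (b (l 16431064) (l 16507272)) (l 16482720)) (l 16434152)) (l 16276232)))))) (a (c (b (b (c (a (l 16294768) (l 16120680)) (l 16167504)) (l 16022736)) (a (l 16176448)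 (l 16005120))) (c (a (b (l 16164912) (l 16166424)) (b (l 16129856) (l 16021040))) (b (b (b (b (a (l 16293440) (l 16172648)) (l 16162224)) (l 16137624)) (l 16047032)) (a (l 16158992) (b (l 16028112) (l 15987592)))))) (c (b (c (b (a (l 15984232) (b (l 15841208) (l 15823344))) (l 15791544)) (a (l 15961640) (l 15816288))) (a (l 15875544) (l 15802400))) (b (a (c (b (l 15992288) (l 15934032)) (b (b (l 15999352) (l 15970192)) (l 15925528))) (c (b (a (l 15853096) (l 15777472)) (l 15794096)) (b (a (c (l 15853616) (l 15848896)) (c (l 15771816) (b (l 15774576) (l 15761712)))) (a (l 15814048) (l 15760256))))) (a (c (l 15897536) (l 15888432)) (c (l 15791016) (l 15788352))))))), by decide +kernel⟩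

def k25_pm_202 : ∃ t, chk3 f_pm_202 t 6 3 1 = true :=
  ⟨(b (a (b (a (c (b (b (l 16119528) (l 16250440)) (c (l 16404560) (l 16442448))) (b (c (l 16176120) (l 16168464)) (c (l 16459376) (l 16455328)))) (b (c (b (l 16205992) (l 16348592)) (c (l 16247688) (l 16220232))) (c (c (l 16455696) (l 16473832)) (c (l 16471000) (l 16489136))))) (c (b (a (b (c (l 16628728) (l 16627336)) (a (l 16757344) (l 16772032))) (b (a (b (l 16702496) (l 16758280)) (b (l 16724800) (l 16775528))) (l 16777216))) (a (l 16777216) (l 16777216))) (b (a (b (l 16604272) (a (l 16756824) (l 16771904))) (b (a (l 16665152) (l 16693896)) (l 16777216))) (a (l 16777216) (l 16777216))))) (b (a (b (c (c (l 16270704) (l 16266080)) (a (l 16293864) (l 16349672))) (b (c (l 16474488) (c (l 16534504) (l 16511608))) (a (c (l 16646480) (l 16644784)) (c (l 16620288) (l 16619272))))) (b (c (l 16361136) (a (l 16430904) (l 16472920))) (c (b (a (l 16685304) (l 16531504)) (a (l 16594576) (l 16555648))) (b (a (l 16642432) (l 16506176)) (a (l 16591008) (l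 16549896)))))) (c (a (a (b (c (l 16704328) (l 16698896)) (l 16760344)) (b (l 16676488) (l 16697456))) (b (c (l 16593624) (l 16591224)) (l 16592424))) (a (b (a (b (l 16699808) (l 16759904)) (l 16695384)) (a (l 16759904) (l 16695384))) (c (l 16525904) (l 16544480)))))) (a (c (b (a (l 16777216) (l 16777216)) (a (l 16777216) (l 16777216))) (c (b (l 16777216) (l 16777216)) (a (l 16777216) (l 16777216)))) (a (c (b (a (l 16760344) (l 16697456)) (l 16718728)) (b (a (l 16759904) (l 16695384)) (a (l 16759904) (l 16695384)))) (b (c (l 16592424) (l 16587624)) (c (l 16592424) (l 16587624)))))), by decide +kernel⟩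

def k26_pm_202 : ∃ t, chk3 f_pm_202 t 7 6 1 = true :=
  ⟨(a (b (a (b (c (a (l 16498936) (b (l 16547864) (l 16441504))) (a (l 16454504) (c (l 16343032) (b (l 16500224) (l 16389176))))) (c (a (b (l 16490776) (l 16478440)) (l 16397128)) (a (b (b (l 16490080) (l 16471128)) (l 16470672)) (l 16366288)))) (c (b (a (b (l 16401736) (l 16319952)) (b (l 16221232) (l 16199248))) (a (l 16306536) (b (l 16198992) (l 16198992)))) (b (a (b (l 16329904) (c (l 16311136) (l 16200400))) (b (c (l 16232064) (a (l 16263416) (l 16182024))) (c (l 16187992) (l 16180488)))) (a (l 16294312) (c (l 16187728) (l 16180216)))))) (b (c (a (a (l 16478440) (l 16396864)) (a (l 16306536) (l 16198992))) (a (c (l 16431448) (l 16427048)) (a (l 16294312) (l 16183968)))) (a (c (l 16438056) (l 16429248)) (c (l 16253288) (l 16239680))))) (c (b (a (a (b (b (l 16098768) (l 16088264)) (c (l 16098872) (l 16084920))) (c (l 15992968) (l 15992768))) (c (b (l 15849384) (l 15849384)) (a (l 15891568) (l 15796464)))) (a (b (b (a (l 16088264) (l 15991624))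 (a (l 16088264) (l 15991624))) (a (l 16088264) (l 15991624))) (b (c (l 15849384) (a (l 15891568) (l 15796464))) (l 15850352)))) (b (a (b (c (a (l 16040568) (l 15985696)) (a (b (b (l 16083184) (l 16067128)) (l 16067056)) (l 15975608))) (c (l 16031272) (l 16000792))) (c (a (l 15892544) (l 15791016)) (a (l 15883352) (c (l 15788336) (l 15786320))))) (a (b (b (a (l 16071520) (l 15980656)) (l 16026520)) (l 16005544)) (b (c (a (l 15892544) (l 15791016)) (a (l 15883352) (l 15788352))) (a (l 15886904) (l 15791176))))))), by decide +kernel⟩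

def k27_pm_202 : ∃ t, chk3 f_pm_202 t 7 7 1 = true :=
  ⟨(a (a (c (b (a (l 16478440) (l 16396864)) (l 16438056)) (b (l 16366336) (l 16429248))) (c (b (a (l 16306536) (l 16198992)) (l 16253288)) (b (l 16176768) (l 16239680)))) (c (a (b (a (l 16088264) (b (l 15991624) (l 15991624))) (l 16045520)) (b (a (l 15891648) (l 15802400)) (l 15850352))) (b (a (a (l 16071520) (l 15980656)) (a (l 15886904) (l 15791176))) (a (l 16026520) (a (l 15886904) (l 15791176)))))), by decide +kernel⟩

theorem s28_pm_202 : ∃ t, chk3 f_pm_202 t 7 3 1 = true := ex3_b k26_pm_202 k27_pm_202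

theorem s29_pm_202 : ∃ t, chk3 f_pm_202 t 3 3 1 = true := ex3_a k25_pm_202 s28_pm_202

theorem s30_pm_202 : ∃ t, chk3 f_pm_202 t 7 11 1 = true := ex3_b k23_pm_202 k24_pm_202

theorem s31_pm_202 : ∃ t, chk3 f_pm_202 t 3 11 1 = true := ex3_a k22_pm_202 s30_pm_202

theorem s32_pm_202 : ∃ t, chk3 f_pm_202 t 7 21 1 = true := ex3_a k20_pm_202 k21_pm_202

theorem s33_pm_202 : ∃ t, chk3 f_pm_202 t 15 20 2 = true := ex3_b k17_pm_202 k18_pm_202

theorem s34_pm_202 : ∃ t, chk3 f_pm_202 t 15 20 1 = true := ex3_c s33_pm_202 k19_pm_202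

theorem s35_pm_202 : ∃ t, chk3 f_pm_202 t 14 20 1 = true := ex3_b k15_pm_202 k16_pm_202

theorem s36_pm_202 : ∃ t, chk3 f_pm_202 t 7 20 1 = true := ex3_a s35_pm_202 s34_pm_202

theorem s37_pm_202 : ∃ t, chk3 f_pm_202 t 7 10 1 = true := ex3_b s36_pm_202 s32_pm_202

theorem s38_pm_202 : ∃ t, chk3 f_pm_202 t 3 10 1 = true := ex3_a k14_pm_202 s37_pm_202

theorem s39_pm_202 : ∃ t, chk3 f_pm_202 t 3 5 1 = true := ex3_b s38_pm_202 s31_pm_202

theorem s40_pm_202 : ∃ t, chk3 f_pm_202 t 15 38 1 = true := ex3_c k11_pm_202 k12_pm_202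

theorem s41_pm_202 : ∃ t, chk3 f_pm_202 t 7 38 1 = true := ex3_a k10_pm_202 s40_pm_202

theorem s42_pm_202 : ∃ t, chk3 f_pm_202 t 7 19 1 = true := ex3_b s41_pm_202 k13_pm_202

theorem s43_pm_202 : ∃ t, chk3 f_pm_202 t 15 18 1 = true := ex3_b k8_pm_202 k9_pm_202

theorem s44_pm_202 : ∃ t, chk3 f_pm_202 t 7 18 1 = true := ex3_a k7_pm_202 s43_pm_202

theorem s45_pm_202 : ∃ t, chk3 f_pm_202 t 7 9 1 = true := ex3_b s44_pm_202 s42_pm_202

theorem s46_pm_202 : ∃ t, chk3 f_pm_202 t 7 4 1 = true := ex3_b k6_pm_202 s45_pm_202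

theorem s47_pm_202 : ∃ t, chk3 f_pm_202 t 3 4 1 = true := ex3_a k5_pm_202 s46_pm_202

theorem s48_pm_202 : ∃ t, chk3 f_pm_202 t 3 2 1 = true := ex3_b s47_pm_202 s39_pm_202

theorem s49_pm_202 : ∃ t, chk3 f_pm_202 t 3 1 1 = true := ex3_b s48_pm_202 s29_pm_202

theorem s50_pm_202 : ∃ t, chk3 f_pm_202 t 2 3 1 = true := ex3_b k3_pm_202 k4_pm_202

theorem s51_pm_202 : ∃ t, chk3 f_pm_202 t 2 5 1 = true := ex3_b k1_pm_202 k2_pm_202

theorem s52_pm_202 : ∃ t, chk3 f_pm_202 t 2 2 1 = true := ex3_b k0_pm_202 s51_pm_202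

theorem s53_pm_202 : ∃ t, chk3 f_pm_202 t 2 1 1 = true := ex3_b s52_pm_202 s50_pm_202

theorem s54_pm_202 : ∃ t, chk3 f_pm_202 t 1 1 1 = true := ex3_a s53_pm_202 s49_pm_202

theorem c_pm_202 : CertFX 0 536870912 67108864 469762048 1046898278 26843546 true true false .pp 2 0 2
    ndF0q2 ndF1q0 pcF2 Cut.none Ext.none :=
  certFX1 (fam := true) (s1 := true) (s2 := false) (a := 2) (b := 0) (c := 2) (cn := .pp) (n1 := ndF0q2) (n2 := ndF1q0) (pc := pcF2) (cut := Cut.none) (xt := Ext.none) (P1 := 0) (W1 := 536870912) (P2 := 67108864) (W2 := 469762048) (P3 := 1046898278) (W3 := 26843546)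
    rfl (fun _ => rfl) s54_pm_202

noncomputable def f_pm_203 : ℕ → ℕ → ℕ → ℕ → Bool := onCell 0 536870912 1610612736 536870912 1046898278 26843546
    (rowFX 1 true true false .up 2 0 3 (qsf 0 536870912 67108864 469762048 3) ndF0q2 ndF1q0 pcF3 Cut.none Ext.none)

def k0_pm_203 : ∃ t, chk3 f_pm_203 t 1 1 1 = true :=
  ⟨(b (b (b (a (a (c (c (a (l 16777216) (l 16777216)) (a (l 16777216) (l 16777216))) (c (a (l 16777216) (l 16777216)) (a (l 16777216) (l 16777216)))) (a (c (c (l 16777216) (l 16777216)) (c (l 16777216) (l 16777216))) (c (a (b (l 16777216) (l 16777216)) (l 16777216)) (a (c (l 16777216) (l 16777216)) (l 16777216))))) (a (a (c (a (l 16777216) (l 16777216)) (c (l 16777216) (l 16777216))) (a (c (l 16729216) (l 16717480)) (c (l 16592424) (l 16587624)))) (a (c (a (l 16438056) (l 16253288)) (a (l 16429248) (l 16239680))) (a (c (l 16045520) (l 16026520)) (c (l 15850352) (a (l 15886904) (l 15791176))))))) (a (a (c (c (a (b (l 16777216) (l 16777216)) (l 16777216)) (a (b (l 16777216) (l 16777216))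 (l 16777216))) (c (a (b (l 16777216) (l 16777216)) (l 16777216)) (a (b (l 16777216) (l 16777216)) (b (l 16777216) (l 16777216))))) (c (a (c (l 16777216) (l 16777216)) (a (b (l 16777216) (l 16777216)) (b (l 16777216) (l 16777216)))) (a (c (l 16777216) (l 16777216)) (a (c (l 16777216) (l 16777216)) (b (l 16777216) (l 16777216)))))) (a (a (c (a (l 16777216) (l 16777216)) (a (l 16777216) (l 16777216))) (a (c (l 16729216) (l 16727968)) (c (l 16592424) (l 16587624)))) (a (a (c (l 16438056) (l 16429248)) (l 2)) (l 2))))) (a (b (b (a (c (c (a (l 16777216) (l 16777216)) (a (l 16777216) (l 16777216))) (c (a (l 16777216) (l 16777216)) (a (l 16777216) (l 16777216)))) (c (a (l 16777216) (l 16777216)) (a (c (l 16777216) (l 16777216)) (l 90831847431)))) (a (a (l 2) (l 2)) (l 2))) (l 2)) (a (l 2) (l 2)))) (l 2)), by decide +kernel⟩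

theorem c_pm_203 : CertFX 0 536870912 67108864 469762048 1046898278 26843546 true true false .up 2 0 3
    ndF0q2 ndF1q0 pcF3 Cut.none Ext.none :=
  certFX1 (fam := true) (s1 := true) (s2 := false) (a := 2) (b := 0) (c := 3) (cn := .up) (n1 := ndF0q2) (n2 := ndF1q0) (pc := pcF3) (cut := Cut.none) (xt := Ext.none) (P1 := 0) (W1 := 536870912) (P2 := 67108864) (W2 := 469762048) (P3 := 1046898278) (W3 := 26843546)
    rfl (fun _ => rfl) k0_pm_203

end Pool.Agent.Strip051.G.IE1.Tab.C.FA01

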