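import Pool.Agent.Strip051.G.IE1.Tab

/-! # Certificates F7 (generated) -/

set_option linter.all false
set_option maxRecDepth 100000

namespace Pool.Agent.Strip051.G.IE1.Tab.C.FA02

open Pool.Agent.Strip051.PB Pool.Agent.Strip051.PB.T
open Pool.Agent.Strip051.G.IE1.Tab

noncomputable def f_pm_102 : ℕ → ℕ → ℕ → ℕ → Bool := onCell 536870912 536870912 1073741824 536870912 1046898278 26843546
    (rowFX 1 true true false .npp 1 0 2 (qsf 536870912 536870912 67108864 469762048 2) ndF0q1 ndF2q0 pcF2 Cut.none Ext.none)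

def k0_pm_102 : ∃ t, chk3 f_pm_102 t 2 8 1 = true :=
  ⟨(b (l 3) (b (l 3) (a (l 3) (a (l 3) (b (l 3) (a (a (l 3) (b (l 3) (c (l 16412240) (l 460802206775)))) (a (b (l 3) (c (l 270213026839) (c (l 16398328) (l 16393496)))) (c (b (l 709373351511) (l 16389680)) (b (l 584819297527) (c (l 16382088) (l 16377056))))))))))), by decide +kernel⟩

def k1_pm_102 : ∃ t, chk3 f_pm_102 t 4 9 1 = true :=
  ⟨(b (b (l 3) (a (l 2) (a (a (b (l 3) (l 2)) (b (b (l 3) (c (c (l 566029432087) (l 608442278423)) (c (l 662666195543) (a (l 3) (l 704542118855))))) (c (c (b (l 16674168) (l 16724504)) (b (c (l 16694336) (l 16693800)) (l 16723816))) (c (b (c (l 152571789511) (l 158477368151)) (l 131097016695)) (b (c (l 163846076183) (l 169214785223)) (l 137002594855)))))) (c (c (b (b (l 548849470391) (a (l 16656912) (l 16650208))) (b (l 16683704) (a (l 16716624) (l 16706248)))) (b (b (a (l 619716486231) (l 345375395431)) (a (l 330879961719) (l 16648544))) (b (c (l 16682784) (l 16682176)) (a (l 16715832) (l 16705320)))))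 (c (b (b (a (l 659444929623) (l 374903291431)) (a (c (l 16633192) (l 368997793191)) (l 16646888))) (b (c (l 16681568) (l 16680952)) (a (l 16715040) (l 16683424)))) (b (b (a (l 712058274887) (l 397451869351)) (a (b (l 633138286199) (l 16661248)) (l 16645224))) (b (c (l 16680344) (l 16679728)) (a (l 16714248) (b (l 16698600) (l 16711224)))))))))) (a (l 2) (a (a (l 2) (a (l 2) (b (b (b (b (b (c (l 16739744) (l 125191496455)) (l 2)) (l 2)) (l 2)) (l 2)) (l 2)))) (b (b (c (b (c (b (a (l 16737256) (l 16724056)) (a (l 16746232) (l 16727288))) (b (a (l 16736736) (l 16723360)) (a (l 16745824) (l 16726640)))) (a (b (c (l 16754360) (l 16754064)) (l 16747824)) (l 16719936))) (b (c (b (a (l 16736216) (l 16722664)) (a (l 16745416) (l 16725984))) (b (a (l 16735688) (l 16701000)) (a (l 16724040) (l 16725336)))) (a (b (c (l 16732792) (l 172436125799)) (l 16747056)) (l 16718448)))) (c (l 16658200) (a (l 16690096) (l 16685120)))) (c (b (l 16679424) (l 16688264)) (b (l 16676888) (l 16685952))))))), by decide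 +kernel⟩

def k2_pm_102 : ∃ t, chk3 f_pm_102 t 5 36 1 = true :=
  ⟨(b (b (a (l 3) (c (a (a (l 516636877927) (l 16444464)) (a (l 16427768) (l 16406992))) (a (a (l 490867057623) (l 271286833751)) (a (l 16418696) (c (l 16399784) (l 16394976)))))) (a (a (l 3) (a (l 3) (c (c (l 16494864) (l 16491168)) (c (l 16487480) (l 16483792))))) (c (a (c (l 16478232) (l 16474328)) (c (l 16442584) (l 16438216))) (a (c (l 16470416) (l 16466512)) (c (l 16433840) (l 16387520)))))) (a (c (a (b (a (l 3) (l 567102920871)) (c (l 527911411063) (a (l 557439324583) (l 16570784)))) (b (c (l 16528896) (l 282561299287)) (c (l 16558560) (l 16555696)))) (c (a (b (l 579450995927) (a (l 564955511815) (l 16568120))) (b (a (l 16527992) (l 16518496)) (l 16552840))) (a (b (l 593409633383) (a (l 577840413751) (l 16565456))) (b (a (l 16524816) (l 16515200)) (l 16549984))))) (c (a (b (c (l 16501808) (l 16498208)) (c (l 16529120) (l 16483928))) (b (c (l 16468152) (l 16464112)) (l 16475280))) (a (b (c (l 16494600) (l 16491000)) (c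 (a (l 16532456) (l 16515688)) (a (l 16529344) (l 16512360)))) (b (c (l 16460072) (l 16456032)) (l 16467432)))))), by decide +kernel⟩

def k3_pm_102 : ∃ t, chk3 f_pm_102 t 5 37 1 = true :=
  ⟨(c (a (b (a (b (c (l 16607496) (l 265381599831)) (c (l 16637432) (l 16635608))) (b (c (l 16583712) (a (l 16591112) (l 16577248))) (c (a (l 16619488) (l 16600120)) (a (l 16617424) (l 16597800))))) (b (c (a (a (l 16670968) (l 16657296)) (l 16619208)) (a (a (l 16669584) (l 16634760)) (l 16575200))) (a (a (c (l 16671880) (b (l 16688648) (l 16696880))) (l 16665000)) (l 16616040)))) (b (a (b (c (l 16548640) (l 16545648)) (l 16549792)) (l 16483272)) (a (l 16550496) (l 16482600)))) (a (a (b (b (c (a (l 16607816) (l 16598480)) (a (l 16605656) (l 16596200))) (c (l 16633776) (l 16631952))) (a (b (c (l 16668192) (l 16666808)) (c (b (l 16687504) (l 16695848)) (b (l 16686360) (l 16694808)))) (b (c (b (l 16649896) (l 16661336)) (b (l 16648272) (l 16659856))) (l 16662088)))) (a (b (c (b (l 16588712) (l 16615360)) (b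 (l 16586304) (l 16613304))) (b (c (l 16630936) (l 16629072)) (l 16628712))) (b (c (b (l 16574672) (l 16595488)) (b (l 16572088) (l 16593176))) (l 16595592)))) (b (a (b (c (l 16542664) (l 16518704)) (l 16543888)) (l 16475640)) (a (l 16544608) (l 16474944))))), by decide +kernel⟩

def k4_pm_102 : ∃ t, chk3 f_pm_102 t 5 19 1 = true :=
  ⟨(b (a (b (c (a (c (l 16675904) (l 16653608)) (c (l 16610960) (l 16608784))) (a (c (l 16652280) (l 16650952)) (c (l 16606608) (l 16604440)))) (c (a (l 16649168) (l 16597256)) (a (l 16645840) (l 16592584)))) (b (c (a (l 16543008) (l 16474408)) (a (l 16494984) (l 16445576))) (a (c (l 16544160) (l 16538112)) (c (l 16481600) (a (l 16493216) (l 16462128)))))) (a (b (c (a (l 16644992) (l 16609936)) (a (l 16641560) (l 16605592))) (a (c (l 16667360) (l 16664512)) (c (l 16637232) (l 16570688)))) (b (a (c (l 16563696) (a (l 16578112) (l 16551368))) (a (b (l 16522512) (l 16522368)) (l 16472304))) (a (c (l 16507632) (a (l 16586624) (l 16562352))) (l 16481408))))), by decide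 +kernel⟩

def k5_pm_102 : ∃ t, chk3 f_pm_102 t 6 16 1 = true :=
  ⟨(a (l 3) (a (l 3) (a (l 3) (a (l 3) (b (l 3) (b (l 3) (b (l 3) (b (l 3) (c (c (c (l 177870312695) (l 15890088)) (l 15861456)) (l 15804864)))))))))), by decide +kernel⟩

def k6_pm_102 : ∃ t, chk3 f_pm_102 t 6 68 1 = true :=
  ⟨(a (l 3) (b (a (l 3) (c (b (a (a (l 3) (l 15914728)) (a (c (a (l 15914992) (l 15910928)) (l 15877752)) (c (l 15927104) (l 15888288)))) (a (a (l 15968392) (c (l 15958048) (l 15928728))) (a (c (a (l 15941472) (l 15936176)) (l 15902992)) (c (b (l 15945224) (l 15958000)) (l 15910840))))) (a (c (l 15887568) (l 15860416)) (a (b (l 15826304) (l 15853128)) (b (l 15833344) (l 15857488)))))) (a (a (l 3) (c (a (a (l 16078816) (l 16064768)) (b (l 16028024) (l 16058776))) (l 16009288))) (b (c (a (c (a (l 16012544) (l 15987096)) (l 15966080)) (a (c (a (l 15969056) (l 15962928)) (l 15928456)) (c (l 15979504) (l 15938640)))) (a (l 15927600) (a (l 15880360) (l 15887848)))) (c (a (c (l 16025344) (l 15997016)) (c (a (a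 (l 15994568) (l 15989544)) (l 16004512)) (a (l 15954792) (l 15963256)))) (a (l 15960808) (a (l 15909088) (l 15915096)))))))), by decide +kernel⟩

def k7_pm_102 : ∃ t, chk3 f_pm_102 t 6 69 1 = true :=
  ⟨(a (a (l 3) (c (c (b (l 3) (c (l 16215488) (l 16209608))) (l 154248357079)) (c (l 444695504279) (l 422146911847)))) (b (a (a (c (a (l 159617158647) (c (l 16165224) (l 16154928))) (a (l 16160224) (l 16140896))) (c (b (c (l 16108200) (l 16091056)) (c (l 16129680) (l 16111752))) (b (l 16068576) (l 16090808)))) (c (a (c (b (c (l 16056664) (l 16041576)) (a (l 16085608) (l 16058144))) (b (l 16020256) (l 16044192))) (c (a (l 16026120) (l 16038480)) (a (l 15988952) (l 15998240)))) (a (c (b (l 15997112) (l 16022568)) (l 15993160)) (l 15950072)))) (a (c (a (a (l 16212080) (c (l 16201888) (l 16190720))) (c (b (l 16149408) (l 16169736)) (b (l 16131400) (l 16152656)))) (a (a (l 16196168) (l 16178696)) (b (l 16112120) (l 16135064)))) (a (c (c (l 16100312) (l 16072992)) (l 16043720)) (c (c (a (l 16065136)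 (l 16077288)) (l 16035008)) (l 15996824)))))), by decide +kernel⟩

def k8_pm_102 : ∃ t, chk3 f_pm_102 t 6 35 1 = true :=
  ⟨(a (c (b (a (c (b (l 16195672) (l 731921732727)) (b (l 673939591799) (l 669644707655))) (b (c (a (l 16258592) (b (l 16249928) (l 16260392))) (l 16236288)) (a (l 16292592) (c (l 16275600) (l 16267112))))) (b (a (a (l 16353200) (l 16329816)) (a (c (l 16312288) (l 16305368)) (l 16285384))) (a (a (l 16365576) (c (l 16348200) (l 16342392))) (l 16309984)))) (b (b (a (c (l 611125684119) (l 549922387847)) (c (l 175723317127) (a (l 16236440) (l 16221104)))) (a (a (l 16313744) (l 16302376)) (a (l 16279456) (c (l 16260528) (l 16253952))))) (b (a (a (l 16342040) (l 16317952)) (a (c (l 16299280) (l 16293184)) (l 16271912))) (a (a (c (l 16357496) (l 16352152)) (c (l 16336776) (l 16331168))) (l 16297656))))) (a (b (c (a (b (c (b (l 16227920) (l 16240736)) (l 16223880)) (l 16248160)) (c (b (l 16192512) (a (l 16232368) (l 16205744))) (l 16170032))) (a (b (c (l 16216728) (l 16209576))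 (l 16232808)) (b (l 16161488) (l 16192520)))) (c (c (a (l 16272152) (b (l 16215424) (l 16251456))) (a (l 16264120) (l 16234520))) (c (l 16220592) (l 16234408)))) (b (c (a (c (b (l 16133696) (l 16162408)) (l 16126768)) (c (b (a (l 16098456) (l 16110552)) (a (l 16127480) (l 16117304))) (b (l 16073080) (l 16105264)))) (a (l 16060672) (b (l 16039088) (a (l 16072184) (l 16081024))))) (c (c (a (b (l 16185536) (l 16163368)) (b (a (l 16129624) (l 16165480)) (a (l 16174816) (l 16187320)))) (a (l 16095280) (b (l 16137576) (l 16164488)))) (a (b (l 16150200) (l 16176008)) (b (c (l 16119352) (l 16101128)) (a (l 16133984) (l 16145656)))))))), by decide +kernel⟩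

def k9_pm_102 : ∃ t, chk3 f_pm_102 t 14 32 1 = true :=
  ⟨(a (l 3) (a (l 3) (a (l 3) (b (l 3) (b (l 3) (b (l 3) (a (l 3) (b (l 3) (c (c (l 15924664) (l 15860408)) (c (l 15792944) (l 15711376))))))))))), by decide +kernel⟩

def k10_pm_102 : ∃ t, chk3 f_pm_102 t 28 33 1 = true :=
  ⟨(b (b (l 3) (a (l 3) (a (l 3) (b (l 3) (a (l 3) (c (c (c (l 15906432) (l 181091511975)) (l 15866312)) (l 15791440))))))) (a (b (a (l 3) (b (l 3) (c (c (b (c (l 15889720) (l 15878496)) (c (c (l 15912080) (l 15909336)) (l 15895688))) (l 182165220503)) (b (l 15780584) (l 15799120))))) (a (c (c (b (c (c (b (l 15898504) (a (l 15910072) (l 15925696))) (l 15901448)) (l 15886408)) (b (c (l 15929360) (l 15909040)) (l 15932832))) (b (l 15855696) (l 15884800))) (c (l 15823352) (l 15783792))) (c (c (b (c (c (b (l 15933000) (l 15951464)) (l 15934744)) (l 15918648)) (c (b (l 15961800) (l 15975112)) (l 15945584))) (b (l 15885840) (l 15911280))) (b (l 15822536) (l 15849024))))) (c (a (c (b (c (b (b (l 15885256) (l 159079808055))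 (b (c (l 15929640) (l 15926656)) (c (l 15950872) (l 15946696)))) (b (b (l 15876168) (l 15896760)) (b (l 15915320) (l 15931584)))) (c (b (c (b (l 15971208) (c (l 15991304) (l 15987368))) (b (l 15963960) (l 15978720))) (b (c (l 16004936) (l 15993024)) (l 16012536))) (b (l 15953384) (l 15981760)))) (b (b (l 183238956919) (l 15886416)) (b (l 15917208) (l 15945184)))) (c (b (c (b (b (c (l 15930952) (l 15924624)) (c (l 15952352) (l 15946928))) (b (c (l 15973528) (l 15968592)) (c (l 15994144) (l 16009000)))) (b (b (c (l 15920568) (l 15914472)) (l 15937248)) (b (l 15955000) (l 15970976)))) (b (c (a (c (b (l 16002720) (l 16020440)) (l 16001864)) (l 16028344)) (l 15993904)) (l 16034248))) (b (b (l 15891128) (l 15924776)) (b (l 15955336) (l 15981672))))) (c (b (a (l 15819736) (b (l 15840704) (l 15875312))) (c (a (l 15897520) (l 15936424)) (l 15854048))) (b (a (l 15774312) (l 15808544)) (a (l 15847128) (l 15886128))))))), by decide +kernel⟩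

def k11_pm_102 : ∃ t, chk3 f_pm_102 t 29 66 2 = true :=
  ⟨(b (b (a (l 3) (a (b (l 3) (a (l 3) (c (l 227799362679) (l 188607725047)))) (c (b (a (l 15918928) (c (l 15970088) (l 15936312))) (c (a (l 15961264) (l 15998992)) (l 15950408))) (c (l 175185971463) (c (l 15887360) (l 163374756951)))))) (a (a (l 3) (a (l 3) (b (l 3) (c (a (l 15910944) (l 15923016)) (c (l 15890880) (l 15870480)))))) (b (c (c (a (a (l 15926680) (l 15955640)) (a (l 15989664) (l 16027616))) (a (l 15920344) (l 15980352))) (c (c (l 15930224) (l 15917752)) (c (a (l 15881176) (l 15933824)) (l 15888400)))) (c (a (a (l 15942536) (l 15971912)) (c (a (l 16017800) (l 16054704)) (l 16007640))) (c (c (l 169280473703) (a (l 15921264) (l 15976472))) (a (l 15900752) (l 15952752))))))) (c (a (b (a (a (l 3) (b (l 3) (l 184849662327))) (b (a (l 15915368) (a (l 15936152) (l 15949960))) (c (l 15962784) (l 15945432)))) (b (c (a (l 15931560) (l 15987432)) (a (l 15917600) (l 15969960))) (c (a (l 15954448) (l 16010144)) (c (l 15969696) (a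 (l 15938376) (l 15989056)))))) (c (a (b (a (l 15993912) (l 16023952)) (b (l 16046112) (l 16069816))) (b (a (l 16056976) (l 16094600)) (l 16124408))) (b (a (c (l 15992184) (l 15981544)) (b (l 16034672) (l 16061840))) (a (b (a (l 16011408) (l 16039056)) (l 16047936)) (l 16097888))))) (a (b (a (b (l 3) (l 188607731287)) (c (b (b (l 145658078615) (l 15911640)) (c (l 15934824) (l 15924344))) (l 15890544))) (b (c (a (l 15902136) (l 15950608)) (l 15895280)) (a (l 15908784) (l 15955792)))) (c (b (c (b (l 15985696) (a (l 15985000) (l 16042416))) (b (a (l 15947984) (l 16003832)) (l 15999056))) (a (b (a (l 15989200) (l 16013952)) (l 16021976)) (l 16068016))) (a (b (l 15936800) (l 15982656)) (l 16011368)))))), by decide +kernel⟩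

def k12_pm_102 : ∃ t, chk3 f_pm_102 t 29 67 2 = true :=
  ⟨(c (a (b (b (c (c (a (b (l 15980968) (l 16002072)) (b (l 16036544) (l 16057472))) (b (a (l 15972960) (l 16027104)) (l 16020712))) (c (b (l 15992328) (a (l 15987944) (l 16039712))) (b (a (l 15958840) (l 16009552)) (l 16002600)))) (a (b (a (c (l 16006480) (l 15988232)) (l 16020504)) (l 16027000)) (c (l 16082000) (l 16058904)))) (c (b (a (l 16064104) (l 16116864)) (l 16119360)) (l 16077432))) (b (a (c (b (l 16102592) (a (l 16126544) (l 16157424))) (b (l 16079552) (l 16115840))) (c (b (l 16168136) (l 16206632)) (b (l 16140752) (l 16177336)))) (a (b (c (l 16175968) (l 16146960)) (l 16189848)) (b (c (l 16240848) (l 16210056)) (l 16254520))))) (a (b (a (b (b (l 15925960) (l 15942904)) (l 15967720)) (c (l 16014952) (l 15965896))) (l 16034520)) (b (a (l 16052008) (l 16108040)) (a (l 16114208) (l 16177448))))), by decide +kernel⟩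

def k13_pm_102 : ∃ t, chk3 f_pm_102 t 29 33 3 = true :=
  ⟨(b (c (a (b (a (l 3) (a (l 3) (b (l 3) (l 166595908695)))) (c (a (l 15834312) (b (l 15861032) (l 15902920))) (b (l 15806752) (l 15785712)))) (b (a (c (l 15825528) (l 15790528)) (b (l 15825224) (c (l 15901808) (l 15864688)))) (c (a (b (l 15904456) (l 15930712)) (l 15976320)) (a (b (l 15872904) (l 15922696)) (l 15944008))))) (a (a (l 142436194551) (b (l 116129593815) (b (l 15790816) (l 15837328)))) (b (a (l 15740360) (b (l 15749024) (l 15813552))) (a (b (l 15829736) (l 15841824)) (l 15900880))))) (a (b (a (c (b (b (l 15872848) (l 15889824)) (l 15915632)) (l 15790648)) (c (c (l 15959376) (l 15935392)) (l 15901512))) (c (l 15984096) (l 15944208))) (b (a (c (l 15992704) (l 15945760)) (c (b (l 16024336) (l 16064808)) (l 15995616))) (a (c (l 16062176) (l 16024264)) (c (b (l 16105360) (l 16141936)) (l 16087960)))))), by decide +kernel⟩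

def k14_pm_102 : ∃ t, chk3 f_pm_102 t 60 32 1 = true :=
  ⟨(b (l 3) (b (a (l 3) (a (l 3) (a (l 3) (l 1)))) (b (a (b (l 3) (a (l 3) (a (l 3) (c (c (l 15962448) (l 15877184)) (c (l 15796848) (l 15702744)))))) (a (c (c (a (b (l 3) (l 15987360)) (b (l 15983112) (l 16014656))) (c (l 189144659671) (l 15874400))) (c (c (c (l 15842992) (l 170354000695)) (l 15783184)) (l 15704816))) (c (a (c (b (c (l 322825812983) (l 15985680)) (l 16044368)) (b (l 15912848) (l 15951848))) (a (b (l 1) (c (l 16067976) (l 15973344))) (l 1))) (c (c (c (l 15891656) (b (l 15848328) (l 15890056))) (l 15828456)) (l 15747384))))) (c (c (b (a (c (a (l 205787739895) (l 16006216)) (l 15941576)) (a (l 16034608) (a (l 16077680) (l 16108120)))) (a (a (l 15964680) (c (l 16033448) (l 15992976))) (a (c (l 16087184) (l 16044696)) (l 16124448)))) (c (a (b (l 15901312) (l 15935200)) (b (a (l 15969880) (l 16024648)) (l 16030576))) (a (b (l 15864760) (c (l 15908712) (l 15891856))) (c (l 15984288) (l 15964984))))) (c (c (a (b (l 169280288327)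 (l 15862104)) (c (b (l 15926544) (l 15963088)) (l 15921040))) (a (a (l 15781784) (l 15817248)) (l 15883624))) (a (a (l 15715624) (l 15748952)) (l 15812728))))))), by decide +kernel⟩

def k15_pm_102 : ∃ t, chk3 f_pm_102 t 60 33 1 = true :=
  ⟨(c (b (c (b (a (b (c (b (a (l 16013816) (l 16063056)) (a (l 16042776) (l 16091736))) (c (b (a (l 15985992) (l 16033728)) (l 16038056)) (l 16007528))) (b (a (c (l 16070568) (l 16038752)) (l 16102576)) (l 16105872))) (b (c (l 16159704) (l 16120016)) (c (l 16214064) (l 16178576)))) (b (a (l 16145040) (c (l 16264016) (l 16230832))) (c (a (l 16208168) (l 16309352)) (a (l 16177568) (l 16277200))))) (b (b (a (c (c (l 15991176) (l 15974792)) (c (l 15959000) (b (l 15926496) (l 15958304)))) (c (l 16082016) (l 16042624))) (a (b (c (l 16029064) (c (l 16006232) (l 15986968))) (l 16060424)) (c (l 16142224) (l 16102216)))) (c (b (a (l 16096696) (c (l 16204360) (l 16185624))) (a (l 16143480) (l 16241424))) (a (l 16081360) (l 16178224))))) (c (b (a (c (b (l 16250264)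 (l 16287480)) (b (l 16219536) (l 16256256))) (l 16351840)) (l 16197296)) (b (a (l 16185264) (l 16282664)) (l 16300712)))) (b (c (b (a (b (c (l 15910976) (l 15867848)) (a (l 15930240) (l 15966816))) (b (l 15974584) (l 16035000))) (a (b (l 16000016) (l 16048664)) (c (l 16136792) (l 16036712)))) (b (a (b (l 15807616) (l 15876008)) (b (l 15887488) (l 15957664))) (a (l 15960520) (l 16056144)))) (b (c (a (c (l 16132104) (l 16104944)) (l 16216328)) (a (l 16070984) (l 16171760))) (c (l 16206680) (l 16216512))))), by decide +kernel⟩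

def k16_pm_102 : ∃ t, chk3 f_pm_102 t 61 16 1 = true :=
  ⟨(a (b (a (b (l 1) (b (l 1) (b (l 1) (c (c (l 610454674119) (c (l 16104696) (l 16060824))) (c (l 15987296) (l 15887088)))))) (l 1)) (c (b (a (b (c (b (c (l 16252456) (l 16211160)) (c (l 16304248) (l 16267816))) (b (c (l 16170808) (l 16128184)) (c (l 16229720) (l 16187736)))) (c (l 16358336) (l 16284288))) (b (b (l 1) (b (l 1) (c (l 16365464) (l 16288560)))) (c (c (l 16439800) (l 16407096)) (l 16350208)))) (b (c (l 16467184) (l 16400784)) (c (l 16522552) (l 16466320)))) (b (c (b (b (a (l 16056024) (l 1)) (a (l 16118808) (l 16185120))) (c (l 16255680) (l 16219224))) (b (b (l 15997912) (l 16075728)) (l 16179704))) (c (b (l 16318104) (l 16425752)) (b (l 16302576) (l 16410128)))))) (b (l 1) (b (a (b (l 1) (b (l 1) (c (c (l 16511648) (l 16443296)) (l 384432094855)))) (l 1)) (b (c (c (c (a (l 16575752) (l 16596320)) (l 16578904)) (l 16536008)) (c (c (l 312491698071) (l 16478360)) (c (l 16472768) (l 16462760)))) (c (a (l 16533944) (l 16553784))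 (c (l 16496200) (l 16493152))))))), by decide +kernel⟩

def k17_pm_102 : ∃ t, chk3 f_pm_102 t 31 16 1 = true :=
  ⟨(a (a (b (l 1) (b (l 1) (b (l 1) (c (c (l 357052263015) (l 16593656)) (c (l 359736516439) (l 16562432)))))) (l 1)) (l 1)), by decide +kernel⟩

def k18_pm_102 : ∃ t, chk3 f_pm_102 t 7 68 1 = true :=
  ⟨(a (c (a (b (a (c (b (a (c (l 15962440) (l 15940872)) (c (l 15994808) (l 15971712))) (a (b (l 15970424) (l 15983904)) (l 16007216))) (b (a (l 15908432) (l 15936952)) (a (l 15933696) (l 15959912)))) (c (b (l 16038992) (l 16063272)) (l 15999968))) (a (c (a (l 16016880) (l 16046096)) (l 15985592)) (c (l 16100952) (l 16050688)))) (a (b (c (a (l 16118176) (l 16085112)) (a (l 16062944) (b (l 16098984) (l 16124864)))) (c (a (l 16166112) (l 16217640)) (c (l 16150672) (l 16085192)))) (b (a (b (c (l 16216040) (l 16157160)) (l 16211024)) (c (l 16292496) (l 16233984))) (c (l 16305288) (c (l 16263216) (l 16240488)))))) (a (b (a (a (b (l 15850568) (c (l 15895784) (l 15861104))) (b (l 15877240)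 (l 15902904))) (l 15939712)) (a (l 15933968) (l 15998456))) (a (b (a (l 16002224) (l 16051704)) (c (l 16104208) (l 16075160))) (b (a (b (l 16096416) (l 16128008)) (l 16179504)) (l 16210488))))) (a (c (a (b (c (l 16414592) (l 16358224)) (c (l 16451248) (a (l 16362400) (l 16452376)))) (a (c (l 16491144) (b (l 16508392) (l 16474520))) (c (l 16550064) (l 16406848)))) (a (b (l 16313088) (a (l 16333232) (l 16439304))) (a (c (l 16477120) (l 16473440)) (c (l 16495512) (l 16491344))))) (a (a (c (c (c (l 16514984) (l 16562088)) (c (l 16547600) (l 16510632))) (b (l 216391946535) (l 16507560))) (a (c (c (l 16516648) (l 362957666151)) (l 381748178407)) (l 1))) (l 1)))), by decide +kernel⟩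

def k19_pm_102 : ∃ t, chk3 f_pm_102 t 7 69 1 = true :=
  ⟨(a (c (a (b (a (c (l 16076640) (l 16033096)) (a (c (l 16123632) (l 16077456)) (c (l 16143480) (l 16117240)))) (c (a (b (l 16106048) (l 16122408)) (a (l 16162728) (l 16201216))) (a (l 16074024) (a (l 16122184) (l 16160280))))) (a (b (c (a (l 16208896) (l 16259032)) (c (l 16194560) (l 16177232))) (c (l 16268752) (l 16228776))) (c (l 16360448) (b (l 16298896) (l 16340640))))) (a (a (b (l 15988032) (l 16034984)) (b (c (l 16065904) (l 16038016)) (a (l 16084104) (l 16123984)))) (a (b (a (l 16120192) (l 16173400)) (l 16197360)) (l 16296848)))) (a (c (a (c (a (b (l 16440424) (l 16439056)) (l 16448424)) (b (a (l 16404488) (l 16434168)) (a (l 16413072) (l 16400504)))) (c (a (l 16450736) (l 16462176)) (c (l 16345664) (l 16422488)))) (a (c (a (l 16418272) (l 16410904)) (a (b (l 16391960) (l 16405688)) (b (l 16422592) (l 16390536)))) (a (c (l 16410384) (l 16408416)) (c (l 16360784) (l 16423120))))) (a (c (c (a (l 16478888) (c (l 16494144) (l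 16480592))) (c (a (l 16465352) (l 194380041367)) (a (l 16458840) (l 16478064)))) (c (b (a (l 16474552) (l 16502048)) (c (l 16448824) (l 16430200))) (b (l 16485488) (l 16444232)))) (a (c (c (l 364568092855) (c (l 16397736) (l 16483800))) (c (c (l 375842436295) (l 16495224)) (l 16495864))) (l 1))))), by decide +kernel⟩

def k20_pm_102 : ∃ t, chk3 f_pm_102 t 7 70 1 = true :=
  ⟨(a (c (a (a (c (b (c (l 16159200) (l 16136224)) (b (l 16150976) (l 16183728))) (b (l 16114912) (l 16153352))) (c (b (l 16213544) (l 16242352)) (l 16199368))) (a (c (b (l 16299088) (l 16326208)) (l 16287416)) (c (b (l 16400856) (c (l 16427144) (l 16413040))) (l 16393640)))) (a (a (b (c (l 16092192) (l 16069472)) (a (l 16108392) (l 16136192))) (l 16170072)) (a (l 16265416) (b (l 16369344) (a (l 16376864) (c (l 16407704) (l 16403104))))))) (a (c (a (c (a (b (l 16418000) (l 16396528)) (l 16336176)) (a (l 16391112) (l 16360424))) (c (c (l 16357000) (a (l 16354664) (l 16361336))) (a (l 16345912) (l 16352736)))) (a (c (a (l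 16386488) (c (l 16356560) (l 16353864))) (a (c (l 16381032) (l 16382160)) (c (l 16308256) (l 16351520)))) (c (a (c (l 16341712) (b (l 16357112) (l 16318320))) (c (l 16347392) (c (l 16344832) (l 16325984)))) (c (a (l 16340312) (l 16350808)) (l 16338224))))) (c (c (a (c (a (l 16384152) (l 16388080)) (a (l 16377928) (l 16384320))) (c (a (l 16410328) (l 16451976)) (a (l 16331272) (b (l 1) (l 16336240))))) (a (a (l 16374936) (c (l 16387976) (l 16373048))) (c (a (l 16392096) (l 16419288)) (a (b (l 16424120) (l 16378848)) (l 16417520))))) (a (c (c (a (l 16372256) (l 16336168)) (b (l 16328216) (l 16324384))) (l 16379416)) (a (c (l 16407904) (l 16409464)) (c (l 16417128) (l 16380056))))))), by decide +kernel⟩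

def k21_pm_102 : ∃ t, chk3 f_pm_102 t 7 71 1 = true :=
  ⟨(a (c (a (a (b (l 16192576) (l 16218416)) (b (l 16258720) (l 16285272))) (a (b (l 16323072) (l 16369696)) (c (c (b (l 16416336) (l 16398968)) (l 16402800)) (l 16378992)))) (a (a (l 16172040) (l 16243856)) (a (l 16340872) (c (a (l 16406360) (l 16385192)) (c (a (l 16401520) (b (l 16388080) (l 16372072))) (a (l 16404264) (l 16381600))))))) (a (c (c (a (c (l 16346648) (l 16339392)) (c (a (l 16289736) (l 16237584)) (l 16278680))) (a (l 16334840) (a (l 16277264) (c (l 16268120) (l 16263416))))) (a (c (c (l 16330904) (a (l 16349264) (c (l 16307280) (l 16304824)))) (c (b (l 16333136) (l 16252520)) (l 16324616))) (c (a (c (l 16270576) (c (l 16269240) (b (l 16283312) (l 16252624)))) (c (b (l 16282984) (l 16239336)) (c (l 16261240) (l 16257272)))) (a (b (a (l 16292584) (l 16271656)) (l 16246320)) (l 16253096))))) (c (c (a (c (a (b (l 16305200) (l 16253304)) (l 16236096)) (l 16240416)) (c (a (b (l 16321984) (l 16263880)) (b (l 16294816) (c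 (l 16297984) (l 16293264)))) (a (l 16268032) (b (l 16347064) (l 16294872))))) (a (c (a (l 16284696) (l 16245456)) (a (l 16281240) (c (l 16295768) (l 16297328)))) (c (a (b (l 16320848) (l 16267488)) (l 16235192)) (a (a (l 16295280) (l 16297608)) (l 16314104))))) (a (c (c (a (c (l 16281608) (l 16279896)) (l 16295960)) (l 16284216)) (l 16279544)) (c (a (l 16306544) (l 16314248)) (a (l 16306792) (l 16254880))))))), by decide +kernel⟩

def k22_pm_102 : ∃ t, chk3 f_pm_102 t 6 9 1 = true :=
  ⟨(b (b (a (b (a (c (b (a (c (l 16389464) (l 16384400)) (l 16362560)) (l 16393416)) (b (a (c (l 16379328) (l 16374264)) (l 16351792)) (l 16383448))) (c (l 16331880) (l 16320312))) (c (a (l 16409832) (l 16347176)) (a (l 16400288) (l 16336008)))) (a (b (c (a (l 16290704) (b (l 16257520) (l 16263744))) (b (l 16256984) (l 16262432))) (c (a (c (l 16298856) (l 16292608)) (b (l 16267664) (l 16262896))) (a (l 16283224) (l 16252688)))) (b (a (b (c (b (l 16216592) (l 16222872)) (l 16200712)) (a (l 16231976) (l 16204576)))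 (c (c (l 16200776) (l 16187184)) (l 16166808))) (a (c (l 16227240) (l 16211760)) (c (l 16200480) (l 16179480)))))) (a (a (c (b (l 16416608) (a (l 16430264) (l 16389200))) (b (l 16407240) (a (l 16421248) (l 16379120)))) (a (c (b (l 16359464) (l 16360024)) (b (l 16348616) (l 16349192))) (b (c (l 16329640) (l 16318016)) (l 16312640)))) (a (b (c (a (l 16292072) (l 16255000)) (l 16262432)) (c (l 16258448) (l 16244976))) (c (a (b (l 16216184) (l 16196112)) (b (a (l 16187072) (l 16197048)) (a (l 16166704) (l 16177168)))) (a (l 16191928) (b (l 16175704) (l 16158552))))))) (b (a (b (a (c (b (l 16403592) (l 16403248)) (b (l 16372912) (a (l 16409912) (l 16368664)))) (c (l 16321920) (l 16310096))) (a (a (l 16401112) (l 16377496)) (l 16306112))) (a (b (c (l 16237688) (l 16223680)) (l 16207144)) (b (c (a (l 16171736) (c (l 16148992) (l 16142560))) (l 16144632)) (a (l 16129656) (l 16097800))))) (b (a (a (l 16393536) (l 16284928)) (a (l 16171296) (c (l 16071072) (l 16054304)))) (a (a (l 16367200) (l 16248496))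 (a (l 16124304) (a (l 16027072) (a (l 15979944) (c (l 15983144) (c (l 15972592) (l 15958808)))))))))), by decide +kernel⟩

def k23_pm_102 : ∃ t, chk3 f_pm_102 t 14 18 1 = true :=
  ⟨(c (b (a (b (a (l 16238472) (l 16302176)) (a (l 16240408) (l 16297520))) (c (b (a (l 16377208) (l 16350192)) (a (l 16310984) (l 16263744))) (a (b (l 16375960) (l 16307264)) (b (a (l 16358224) (l 16328688)) (l 16257256))))) (a (a (b (l 16228264) (l 16205688)) (c (b (l 16262728) (l 16185640)) (b (l 16260856) (l 16181520)))) (c (a (b (a (l 16239416) (l 16215480)) (l 16137712)) (b (l 16173464) (l 16077040))) (a (b (l 16224304) (l 16130448)) (c (l 16119344) (l 16115360)))))) (b (a (b (a (l 16214288) (l 16285432)) (l 16255112)) (b (a (b (l 16377056) (a (l 16354968) (c (l 16356584) (l 16308328)))) (c (c (l 16341848) (a (l 16353056) (l 16322088))) (c (a (l 16349984) (l 16296240)) (a (l 16350096) (l 16322072))))) (a (c (a (l 16312112) (l 16295064)) (c (l 16277640) (l 16298264))) (c (c (l 16253120) (a (l 16266744) (c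 (l 16234856) (l 16230848)))) (c (c (l 16243200) (l 16246848)) (l 16246712)))))) (a (a (l 16211912) (a (l 16234168) (c (b (l 16249320) (l 16167728)) (c (l 16199688) (l 16200448))))) (a (c (a (b (l 16229696) (l 16138032)) (c (l 16158600) (b (l 16202096) (l 16092512)))) (b (c (a (l 16223656) (l 16194232)) (l 16214720)) (l 16057032))) (c (b (c (l 16157928) (a (c (l 16174880) (l 16170488)) (c (l 16139912) (l 16130152)))) (c (a (l 16077880) (l 16043208)) (c (a (l 16073432) (l 16044544)) (l 15965520)))) (c (b (l 16055048) (l 16066040)) (l 16103984))))))), by decide +kernel⟩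

def k24_pm_102 : ∃ t, chk3 f_pm_102 t 14 19 2 = true :=
  ⟨(a (b (a (b (c (l 16074832) (l 16157520)) (a (l 16118584) (c (l 16057336) (l 16053096)))) (b (c (a (l 16118544) (l 16094272)) (l 16059944)) (c (a (l 16023248) (l 15988504)) (l 16001648)))) (b (a (c (l 15947952) (l 16029520)) (c (l 15817184) (l 15872112))) (a (c (l 15985128) (l 15983680)) (c (l 15731552) (l 15807216))))) (b (c (b (a (l 16024624) (c (l 15977864) (l 15972904))) (a (l 15935328) (l 15856904))) (a (b (l 16037680) (l 15926136)) (c (b (l 15967944) (l 15843600)) (b (l 15852280) (l 15797504))))) (c (a (c (l 15761080) (l 15755520)) (c (l 15671400) (b (l 15727656) (l 15573040)))) (c (a (l 15749952) (b (l 15694448) (l 15447136))) (a (b (l 15799624) (l 15678384)) (c (l 15551640) (l 15593736))))))), by decide +kernel⟩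

def k25_pm_102 : ∃ t, chk3 f_pm_102 t 14 19 3 = true :=
  ⟨(a (a (b (b (l 16155728) (a (l 16118504) (c (l 16048152) (c (l 16038384) (l 16042992))))) (c (c (l 15965128) (b (a (l 16052512) (l 15984992)) (l 15937832))) (c (b (l 16023016) (a (l 15985128) (l 15924232))) (b (l 15960672) (l 15983960))))) (b (b (c (a (l 16108520) (l 16082216)) (c (c (l 16092656) (l 16005048)) (c (l 16091048) (l 16091896)))) (c (c (l 15996704) (l 15999864)) (c (a (l 16005488) (l 15970456)) (l 15992856)))) (c (c (b (l 15887744) (l 15796928)) (b (a (l 15907152) (l 15859000)) (a (l 15832424) (c (l 15751704) (l 15746824))))) (c (b (a (l 15901944) (l 15867952)) (a (l 15843016) (l 15708760))) (a (l 15870056) (l 15797776)))))) (a (b (c (c (b (l 16031784) (l 15913336)) (c (a (l 15985408) (b (l 16007944) (l 15897336))) (b (l 15971240) (l 15903696)))) (b (c (b (l 16051296) (l 16007352)) (l 16025392)) (c (l 15902080) (l 15905456)))) (c (c (c (l 15737440) (b (l 15796464) (l 15681872))) (b (c (l 15687776) (l 15812760)) (c (l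 15616880) (l 15671088)))) (c (l 15637384) (l 15722136)))) (c (b (b (c (c (l 15956664) (l 15958592)) (a (c (l 15976392) (l 15990944)) (l 15933384))) (c (a (l 15862080) (l 15822632)) (b (l 15823224) (l 15798880)))) (c (b (c (l 15716072) (l 15706712)) (l 15579520)) (l 15637320))) (b (l 15884512) (l 15627096))))), by decide +kernel⟩

def k26_pm_102 : ∃ t, chk3 f_pm_102 t 30 18 2 = true :=
  ⟨(b (c (a (b (l 16274592) (l 16182720)) (a (b (l 16204880) (l 16106464)) (b (l 16171640) (l 16063000)))) (a (c (l 16223904) (b (l 16266400) (l 16171376))) (c (b (l 16183392) (a (l 16099752) (l 16053480))) (b (a (l 16193848) (b (l 16187224) (l 16131072))) (a (l 16093632) (l 16034304)))))) (c (a (c (l 15893176) (l 15993160)) (c (a (l 15954392) (b (l 15959400) (l 15844840))) (b (a (l 16001504) (l 15949680)) (a (l 15891088) (c (l 15841752) (l 15842648)))))) (a (c (b (l 16080328) (l 15848000)) (b (l 15924176) (c (l 15972688) (l 15974064)))) (c (b (a (l 15993152) (l 15950496)) (a (l 15891232) (l 15841264))) (b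 (a (l 15995096) (l 15946368)) (c (l 15861720) (l 15854800))))))), by decide +kernel⟩

def k27_pm_102 : ∃ t, chk3 f_pm_102 t 31 18 2 = true :=
  ⟨(b (b (a (c (a (l 16055008) (c (l 16149912) (l 16153760))) (c (a (l 16163208) (c (l 16162480) (l 16168240))) (a (c (l 16163984) (l 16163200)) (l 16107520)))) (c (c (a (l 16156840) (b (l 16228064) (l 16152248))) (a (l 16077008) (l 16169248))) (c (a (l 16142568) (l 16182896)) (l 16174600)))) (a (c (c (a (l 16027536) (l 15914976)) (a (c (l 16030136) (l 16032376)) (c (l 16005080) (l 16012088)))) (c (a (c (l 16034864) (l 16035128)) (c (l 16014784) (l 16015600))) (a (l 16010504) (l 16017360)))) (c (c (a (c (l 16006064) (l 16007976)) (l 15971528)) (a (l 15966816) (l 16025160))) (l 15993656)))) (c (a (c (a (b (c (l 15908976) (l 15908920)) (c (l 15790968) (l 15797792))) (b (c (b (l 15890448) (l 15827056)) (l 15823016)) (c (l 15738968) (l 15737128)))) (a (b (c (l 15913192) (l 15919136)) (c (l 15801648) (l 15799696))) (b (c (l 15868280) (l 15868288)) (l 15739432))))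 (c (b (a (c (l 15853472) (l 15847888)) (l 15866232)) (l 15701112)) (b (l 15853520) (l 15695608)))) (a (c (b (a (l 15918856) (l 15871736)) (l 15768992)) (l 15768336)) (a (b (l 15847192) (l 15694856)) (l 15767056))))), by decide +kernel⟩

def k28_pm_102 : ∃ t, chk3 f_pm_102 t 15 18 3 = true :=
  ⟨(a (b (c (a (b (c (l 16260080) (b (c (l 16281104) (l 16178520)) (c (l 16235384) (l 16158584)))) (c (c (l 16166472) (l 16166128)) (c (a (l 16190440) (l 16143744)) (a (l 16137968) (l 16138560))))) (b (c (a (l 16170712) (c (l 16161088) (l 16158992))) (a (c (l 16191544) (l 16186800)) (l 16153768))) (a (c (l 15970152) (l 16086320)) (l 16044160)))) (a (c (b (b (l 16201072) (l 16220504)) (l 16087832)) (l 16104320)) (b (l 16165792) (l 16057064)))) (c (a (c (b (c (l 16071752) (l 16073192)) (a (l 16003920) (l 15944352))) (b (a (c (l 16099040) (l 16109664)) (l 16038816)) (l 15963776))) (l 15903592)) (a (l 16008312) (l 15892160)))) (a (b (c (b (l 16160904) (l 16019568)) (b (l 16153032) (l 16009800))) (c (l 15761656)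 (l 15812136))) (b (c (a (l 15946008) (l 15972064)) (a (l 16090208) (b (l 16180152) (l 16012592)))) (c (a (b (l 15850552) (l 15696064)) (l 15758320)) (a (l 15769032) (l 15649472)))))), by decide +kernel⟩

def k29_pm_102 : ∃ t, chk3 f_pm_102 t 30 19 1 = true :=
  ⟨(c (b (c (a (b (c (l 15883920) (b (l 15905960) (l 15845704))) (c (l 15756920) (a (l 15779352) (l 15699992)))) (b (c (b (c (l 15791944) (l 15743248)) (a (l 15759968) (c (l 15704016) (l 15704528)))) (a (b (l 15810896) (l 15757736)) (c (l 15690408) (l 15726504)))) (c (a (c (l 15662944) (l 15662320)) (c (l 15546264) (l 15606040))) (a (c (l 15662936) (l 15659048)) (l 15595984))))) (b (c (a (a (l 15897752) (c (l 15842928) (l 15844184))) (a (c (l 15783928) (l 15776464)) (l 15719472))) (a (c (a (l 15896880) (l 15842544)) (l 15702704)) (l 15741928))) (a (c (c (l 15748168) (l 15748984)) (c (l 15746608) (l 15737312))) (l 15614912)))) (c (c (a (b (c (l 15622760) (l 15555120)) (c (a (l 15524952) (l 15459336)) (l 15384392))) (a (b (c (l 15531360)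 (l 15530104)) (l 15329456)) (c (b (l 15469960) (l 15326496)) (l 15392360)))) (a (b (c (l 15617704) (l 15618784)) (a (l 15520576) (l 15453336))) (l 15416560))) (a (c (a (b (l 15648496) (l 15512200)) (l 15509136)) (l 15534456)) (l 15402704)))) (b (c (b (a (c (c (l 15865576) (l 15858768)) (l 15854328)) (l 15731608)) (l 15663192)) (a (l 15780304) (l 15651008))) (c (l 15285208) (a (l 15506272) (l 15365736))))), by decide +kernel⟩

def k30_pm_102 : ∃ t, chk3 f_pm_102 t 31 19 1 = true :=
  ⟨(c (b (c (b (a (c (a (c (b (l 15706632) (l 15646296)) (b (l 15709200) (l 15645272))) (l 15610432)) (l 15645424)) (a (l 15560592) (l 15534232))) (a (a (l 15539896) (l 15472632)) (l 15397248))) (a (b (l 15642960) (l 15503496)) (b (a (l 15555592) (l 15517888)) (l 15385600)))) (a (c (c (a (l 15327512) (l 15252056)) (a (l 15326800) (l 15252112))) (c (l 15286592) (l 15281344))) (c (c (l 15191432) (l 15161000)) (c (l 15153040) (l 15146528))))) (b (a (c (l 15563024) (l 15546944)) (a (b (l 15486000) (l 15398328)) (c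 (l 15426528) (b (l 15498032) (l 15334752))))) (a (c (l 15268808) (l 15248552)) (c (l 15054888) (a (l 15155664) (l 15089080)))))), by decide +kernel⟩

def k31_pm_102 : ∃ t, chk3 f_pm_102 t 2 5 1 = true :=
  ⟨(b (b (a (b (a (l 2) (a (l 2) (b (c (l 16719304) (l 16717800)) (l 2)))) (l 2)) (b (a (b (a (c (l 16680888) (l 16657960)) (c (a (l 16684096) (l 16650672)) (b (l 16622208) (l 16645696)))) (a (c (b (l 16731656) (l 16729040)) (b (l 126265194807) (l 16727792))) (l 16523672))) (b (a (l 16562416) (l 16445880)) (a (l 16512648) (l 16393568)))) (b (a (a (c (l 16646712) (l 16643864)) (l 16449712)) (a (l 16440376) (l 16323040))) (b (a (a (l 16540840) (l 16477936)) (a (l 16370752) (l 16260616))) (a (b (a (l 16519184) (l 16426920)) (c (l 16441448) (l 16369816))) (b (l 16283976) (c (l 16272712) (l 16259600)))))))) (a (l 2) (a (a (l 16539112) (l 16478040)) (a (l 16415648) (l 16351568))))) (a (l 2) (b (a (l 89221005719) (c (l 16638368) (l 16634760))) (a (l 2) (l 16777008))))), by decide +kernel⟩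

def k32_pm_102 : ∃ t, chk3 f_pm_102 t 6 10 1 = true :=
  ⟨(a (b (b (a (b (l 16325472) (l 16270536)) (b (l 16200328) (l 16142680))) (b (a (l 16201824) (l 16075856)) (b (a (l 16146856) (l 16028648)) (b (l 15957480) (c (l 15988696) (l 16075792)))))) (c (l 16111288) (l 16160712))) (a (b (b (b (l 16069408) (l 16008920)) (b (l 15944088) (b (l 15905000) (b (l 15922824) (a (l 15964800) (l 15915952)))))) (a (l 16163056) (b (l 16024760) (c (l 16232016) (c (l 16213536) (l 16213616)))))) (a (b (b (b (l 15966904) (l 15904208)) (b (a (l 15858504) (c (l 15828416) (c (l 15809936) (l 15791112)))) (b (c (l 15813480) (a (l 15812584) (c (l 15783264) (l 15722312)))) (b (c (l 15845520) (c (l 15809024) (l 15811248))) (c (a (l 15895760) (a (c (l 15774800) (l 15867800)) (l 15854392))) (a (l 15872864) (a (c (l 15855688) (l 15794752)) (l 15800280)))))))) (c (b (l 15948872) (l 16143208)) (b (c (l 15970096) (l 15946128)) (c (l 16196968) (l 16196344))))) (b (b (a (b (l 15917056) (c (l 15858352) (c (l 15840776) (l 15716456))))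 (c (b (l 15922896) (l 15864504)) (c (b (l 15911072) (l 15851432)) (c (b (l 15896072) (l 15842264)) (l 15872136))))) (b (c (c (l 15816200) (l 15804896)) (c (a (l 15787424) (l 15767896)) (a (l 15624336) (l 15780800)))) (c (c (l 15810792) (l 15798960)) (b (c (l 15663672) (b (l 15744136) (l 15762432))) (c (l 15792792) (l 15807992)))))) (c (c (l 15999192) (b (l 15962552) (l 16119328))) (b (c (l 15946056) (l 15957432)) (l 15982344))))))), by decide +kernel⟩

def k33_pm_102 : ∃ t, chk3 f_pm_102 t 14 40 1 = true :=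
  ⟨(a (c (a (c (b (l 15931984) (l 15862896)) (b (l 15932272) (l 15861632))) (c (c (l 15722152) (l 15717984)) (c (l 15713824) (l 15702536)))) (c (a (a (b (l 15920928) (l 15844648)) (c (l 15856608) (c (l 15850456) (l 15850536)))) (c (c (l 15700592) (b (l 15727736) (l 15677264))) (c (b (l 15636480) (l 15635056)) (b (l 15744760) (l 15695232))))) (a (b (a (l 15913080) (l 15889832)) (c (l 15862840) (l 15867568))) (c (b (l 15740296) (l 15668984)) (l 15693024))))) (a (c (c (c (b (l 15590744) (l 15498280)) (b (l 15584312) (l 15486576))) (c (b (l 15571008) (a (l 15522928) (l 15436032))) (b (l 15445056) (a (l 15523360) (l 15435416))))) (c (c (a (c (l 15563560) (l 15560416)) (l 15478384)) (l 15516368)) (l 15506464))) (c (c (c (a (l 15440888) (c (l 15282296) (l 15281016))) (b (a (l 15496536) (l 15448968)) (c (l 15351096) (l 15351504)))) (c (b (c (l 15472504) (l 15471192)) (l 15222344)) (c (l 15401616) (l 15392872)))) (l 15248416)))), by decide +kernel⟩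

def k34_pm_102 : ∃ t, chk3 f_pm_102 t 14 41 1 = true :=
  ⟨(c (b (a (c (a (l 15812360) (l 15659352)) (a (l 15810376) (c (l 15650920) (l 15644808)))) (c (a (c (l 15460248) (l 15342320)) (c (a (c (l 15316256) (l 15313520)) (c (l 15257144) (l 15254592))) (a (c (l 15313640) (l 15310592)) (l 15243360)))) (a (c (c (l 15447360) (l 15448280)) (l 15342320)) (l 15264280)))) (a (c (c (l 15584792) (l 15687584)) (a (l 15826424) (c (l 15507312) (b (l 15652720) (l 15700040))))) (c (a (c (b (l 15471544) (l 15519496)) (b (b (l 15455344) (l 15475440)) (l 15516968))) (b (c (b (a (l 15312016) (l 15238904)) (l 15294712)) (b (l 15269544) (l 15281368))) (c (l 15332920) (l 15318888)))) (a (c (b (b (l 15455712) (l 15475088)) (l 15515272)) (l 15478488)) (l 15286000))))) (c (a (b (c (a (l 15802480) (c (l 15648064) (l 15649600))) (a (l 15746224) (l 15516968))) (b (b (c (a (l 15784840) (l 15665488)) (l 15601680)) (a (l 15817768) (l 15686664))) (a (l 15865008) (l 15723280)))) (b (l 15342096) (l 15369472))) (a (a (b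 (l 15643920) (c (l 15690640) (l 15822152))) (l 15584560)) (b (a (l 15414752) (l 15227856)) (l 15206496))))), by decide +kernel⟩

def k35_pm_102 : ∃ t, chk3 f_pm_102 t 15 20 1 = true :=
  ⟨(c (c (a (b (a (c (b (c (a (l 15392544) (l 15328248)) (l 15235120)) (a (c (l 15267632) (l 15261576)) (l 15184864))) (b (c (l 15355896) (l 15345288)) (l 15212752))) (c (a (l 15175936) (l 15106296)) (l 15129744))) (a (b (l 15147048) (l 15157680)) (b (c (l 15009536) (l 14993440)) (c (l 14931384) (l 15020224))))) (b (a (a (b (l 15106632) (l 14956008)) (b (l 15030128) (l 14877288))) (b (l 14933072) (c (l 14782632) (l 14770136)))) (b (a (c (l 14863824) (l 14859936)) (c (l 14741656) (l 14728776))) (a (c (b (l 14888568) (l 14929080)) (l 14905136)) (b (c (l 14785848) (l 14773248)) (l 14827160)))))) (b (a (a (l 15265720) (l 15112872)) (a (c (l 14985800) (l 14978336)) (b (l 14914328) (l 14755720)))) (a (b (l 14987232) (a (l 15136048) (l 15001960))) (b (a (l 14848712) (l 14713784)) (a (l 14894280) (l 14782448))))))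 (b (a (c (l 15021464) (a (l 15226552) (l 15067880))) (a (c (l 14962480) (l 14937808)) (c (a (l 14855744) (l 14776824)) (a (l 14835432) (l 14758440))))) (a (b (c (l 15027096) (l 14941128)) (c (l 15045664) (a (l 15092792) (l 14953256)))) (b (a (c (l 14827376) (l 14800632)) (c (l 14694600) (a (l 14706808) (l 14637080)))) (a (c (l 14873432) (l 14847176)) (c (l 14764144) (a (l 14769544) (l 14714368)))))))), by decide +kernel⟩

def k36_pm_102 : ∃ t, chk3 f_pm_102 t 7 21 1 = true :=
  ⟨(a (c (a (b (c (c (l 15916648) (l 15718736)) (a (c (l 15989240) (l 15987176)) (c (l 15826336) (b (l 15776568) (l 15876208))))) (c (c (l 15979688) (l 15957656)) (a (l 16000896) (c (l 16029832) (l 16021976))))) (b (c (c (a (l 15488168) (b (l 15414528) (l 15525504))) (a (l 15550120) (l 15459088))) (a (c (l 15648752) (l 15637432)) (l 15446288))) (c (a (c (l 15875968) (l 15868536)) (l 15697704)) (l 15770504)))) (a (c (b (a (l 15902168) (l 15656312)) (l 16024888)) (l 15764296)) (b (c (l 15528704) (l 15513512)) (l 15624744))))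 (a (c (b (a (c (b (l 15230048) (l 15324840)) (l 15261536)) (c (c (l 15150520) (l 15135136)) (l 15117840))) (a (c (l 15504512) (l 15486608)) (c (a (l 15357168) (l 15289344)) (l 15307352)))) (b (a (c (l 15241056) (l 15220576)) (l 15062280)) (a (l 15459744) (c (l 15286688) (l 15266024))))) (c (a (c (b (c (l 15039096) (l 15036320)) (l 15139032)) (b (l 15026744) (l 15214568))) (c (b (l 14952400) (l 15162288)) (b (l 14933400) (l 15146360)))) (a (b (c (l 15007600) (l 14983040)) (l 15189152)) (c (b (l 14917184) (l 15133216)) (b (l 14691528) (l 15015496))))))), by decide +kernel⟩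

def k37_pm_102 : ∃ t, chk3 f_pm_102 t 3 11 1 = true :=
  ⟨(c (a (a (b (b (l 16506544) (l 16677120)) (c (l 16776920) (l 16776920))) (b (a (c (l 16492720) (l 16318880)) (b (c (l 16425800) (l 16348408)) (l 16421000))) (b (a (l 16776544) (l 16659360)) (l 16770832)))) (b (a (a (b (c (a (l 16366712) (l 16171168)) (l 16137352)) (b (l 16363760) (l 16515776))) (b (l 15816328) (l 16191456))) (a (b (c (a (l 15763576) (l 15584600)) (l 15655056)) (c (l 15847936) (l 15932800))) (b (a (c (a (l 15464992) (l 15407784)) (l 15436536)) (c (l 15364008) (l 15372464))) (a (c (l 15701488) (l 15721912)) (a (c (l 15637672) (l 15633496)) (l 15625520)))))) (a (b (a (b (l 16572168) (l 16594264)) (l 16364608)) (l 16394776)) (a (b (c (l 16027120) (l 16093696)) (l 16113496)) (a (b (c (l 15841800) (l 15907224)) (l 15908056)) (l 15802504)))))) (a (b (a (l 16586840) (a (b (l 16439008) (l 16654152)) (c (l 16326088) (l 16304056)))) (a (l 16776920) (a (l 16776880) (l 16764128)))) (a (b (a (b (l 16286200) (l 16436680)) (b (l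 15941608) (l 16197312))) (b (a (l 16567936) (l 16353888)) (l 16387016))) (b (a (b (c (l 15639296) (l 15518680)) (c (l 15921296) (l 15867840))) (b (a (c (l 15423232) (l 15404512)) (c (l 15341768) (b (l 15291992) (l 15371072)))) (a (c (l 15713112) (l 15698896)) (a (c (l 15633536) (l 15603336)) (l 15521024))))) (a (b (c (l 16084872) (l 16076048)) (l 16081376)) (c (a (l 15902064) (l 15794712)) (b (a (l 15890352) (l 15791664)) (l 15765024)))))))), by decide +kernel⟩

def k38_pm_102 : ∃ t, chk3 f_pm_102 t 1 3 1 = true :=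
  ⟨(a (a (l 2) (b (c (a (l 2) (l 16777216)) (l 16777216)) (l 2))) (a (b (c (b (a (c (l 16777216) (l 16777216)) (a (l 16777216) (l 16764680))) (a (c (l 16777216) (l 16777216)) (a (l 16777216) (l 16764680)))) (b (a (l 16777216) (l 16770664)) (a (l 16777216) (l 16770664)))) (a (l 2) (c (b (l 16770832) (l 2)) (l 16770664)))) (b (a (b (c (a (l 16594264) (l 16365336)) (a (l 16589512) (l 16291720))) (b (c (l 16352832) (l 16387016)) (l 16327984))) (b (a (c (c (l 16111888) (l 16094592)) (b (l 16081376) (l 16081376))) (c (a (l 15908056) (l 15802904)) (a (l 15899120) (l 15795696)))) (a (c (l 16113496) (l 16081376)) (c (a (l 15908056) (l 15802904)) (a (l 15899120) (l 15795696)))))) (a (a (b (l 16591888) (l 2)) (l 16359984)) (a (c (l 16113496) (l 16081376)) (b (c (l 15858544) (l 15854768)) (l 15860320))))))), by decide +kernel⟩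

theorem s39_pm_102 : ∃ t, chk3 f_pm_102 t 14 20 1 = true := ex3_b k33_pm_102 k34_pm_102

theorem s40_pm_102 : ∃ t, chk3 f_pm_102 t 7 20 1 = true := ex3_a s39_pm_102 k35_pm_102

theorem s41_pm_102 : ∃ t, chk3 f_pm_102 t 7 10 1 = true := ex3_b s40_pm_102 k36_pm_102

theorem s42_pm_102 : ∃ t, chk3 f_pm_102 t 3 10 1 = true := ex3_a k32_pm_102 s41_pm_102

theorem s43_pm_102 : ∃ t, chk3 f_pm_102 t 3 5 1 = true := ex3_b s42_pm_102 k37_pm_102

theorem s44_pm_102 : ∃ t, chk3 f_pm_102 t 1 5 1 = true := ex3_a k31_pm_102 s43_pm_102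

theorem s45_pm_102 : ∃ t, chk3 f_pm_102 t 15 19 1 = true := ex3_a k29_pm_102 k30_pm_102

theorem s46_pm_102 : ∃ t, chk3 f_pm_102 t 15 18 2 = true := ex3_a k26_pm_102 k27_pm_102

theorem s47_pm_102 : ∃ t, chk3 f_pm_102 t 15 18 1 = true := ex3_c s46_pm_102 k28_pm_102

theorem s48_pm_102 : ∃ t, chk3 f_pm_102 t 15 9 1 = true := ex3_b s47_pm_102 s45_pm_102

theorem s49_pm_102 : ∃ t, chk3 f_pm_102 t 14 19 1 = true := ex3_c k24_pm_102 k25_pm_102

theorem s50_pm_102 : ∃ t, chk3 f_pm_102 t 14 9 1 = true := ex3_b k23_pm_102 s49_pm_102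

theorem s51_pm_102 : ∃ t, chk3 f_pm_102 t 7 9 1 = true := ex3_a s50_pm_102 s48_pm_102

theorem s52_pm_102 : ∃ t, chk3 f_pm_102 t 3 9 1 = true := ex3_a k22_pm_102 s51_pm_102

theorem s53_pm_102 : ∃ t, chk3 f_pm_102 t 7 35 1 = true := ex3_b k20_pm_102 k21_pm_102

theorem s54_pm_102 : ∃ t, chk3 f_pm_102 t 7 34 1 = true := ex3_b k18_pm_102 k19_pm_102

theorem s55_pm_102 : ∃ t, chk3 f_pm_102 t 7 17 1 = true := ex3_b s54_pm_102 s53_pm_102

theorem s56_pm_102 : ∃ t, chk3 f_pm_102 t 60 16 1 = true := ex3_b k14_pm_102 k15_pm_102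

theorem s57_pm_102 : ∃ t, chk3 f_pm_102 t 30 16 1 = true := ex3_a s56_pm_102 k16_pm_102

theorem s58_pm_102 : ∃ t, chk3 f_pm_102 t 15 16 1 = true := ex3_a s57_pm_102 k17_pm_102

theorem s59_pm_102 : ∃ t, chk3 f_pm_102 t 29 33 2 = true := ex3_b k11_pm_102 k12_pm_102

theorem s60_pm_102 : ∃ t, chk3 f_pm_102 t 29 33 1 = true := ex3_c s59_pm_102 k13_pm_102

theorem s61_pm_102 : ∃ t, chk3 f_pm_102 t 14 33 1 = true := ex3_a k10_pm_102 s60_pm_102

theorem s62_pm_102 : ∃ t, chk3 f_pm_102 t 14 16 1 = true := ex3_b k9_pm_102 s61_pm_102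

theorem s63_pm_102 : ∃ t, chk3 f_pm_102 t 7 16 1 = true := ex3_a s62_pm_102 s58_pm_102

theorem s64_pm_102 : ∃ t, chk3 f_pm_102 t 7 8 1 = true := ex3_b s63_pm_102 s55_pm_102

theorem s65_pm_102 : ∃ t, chk3 f_pm_102 t 6 34 1 = true := ex3_b k6_pm_102 k7_pm_102

theorem s66_pm_102 : ∃ t, chk3 f_pm_102 t 6 17 1 = true := ex3_b s65_pm_102 k8_pm_102

theorem s67_pm_102 : ∃ t, chk3 f_pm_102 t 6 8 1 = true := ex3_b k5_pm_102 s66_pm_102

theorem s68_pm_102 : ∃ t, chk3 f_pm_102 t 3 8 1 = true := ex3_a s67_pm_102 s64_pm_102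

theorem s69_pm_102 : ∃ t, chk3 f_pm_102 t 3 4 1 = true := ex3_b s68_pm_102 s52_pm_102

theorem s70_pm_102 : ∃ t, chk3 f_pm_102 t 5 18 1 = true := ex3_b k2_pm_102 k3_pm_102

theorem s71_pm_102 : ∃ t, chk3 f_pm_102 t 5 9 1 = true := ex3_b s70_pm_102 k4_pm_102

theorem s72_pm_102 : ∃ t, chk3 f_pm_102 t 2 9 1 = true := ex3_a k1_pm_102 s71_pm_102

theorem s73_pm_102 : ∃ t, chk3 f_pm_102 t 2 4 1 = true := ex3_b k0_pm_102 s72_pm_102

theorem s74_pm_102 : ∃ t, chk3 f_pm_102 t 1 4 1 = true := ex3_a s73_pm_102 s69_pm_102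

theorem s75_pm_102 : ∃ t, chk3 f_pm_102 t 1 2 1 = true := ex3_b s74_pm_102 s44_pm_102

theorem s76_pm_102 : ∃ t, chk3 f_pm_102 t 1 1 1 = true := ex3_b s75_pm_102 k38_pm_102

theorem c_pm_102 : CertFX 536870912 536870912 67108864 469762048 1046898278 26843546 true true false .npp 1 0 2
    ndF0q1 ndF2q0 pcF2 Cut.none Ext.none :=
  certFX1 (fam := true) (s1 := true) (s2 := false) (a := 1) (b := 0) (c := 2) (cn := .npp) (n1 := ndF0q1) (n2 := ndF2q0) (pc := pcF2) (cut := Cut.none) (xt := Ext.none) (P1 := 536870912) (W1 := 536870912) (P2 := 67108864) (W2 := 469762048) (P3 := 1046898278) (W3 := 26843546)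
    rfl (fun _ => rfl) s76_pm_102

noncomputable def f_pm_112 : ℕ → ℕ → ℕ → ℕ → Bool := onCell 536870912 536870912 1073741824 536870912 1046898278 26843546
    (rowFX 1 true true false .dn 1 1 2 (qsf 536870912 536870912 536870912 536870912 2) ndF0q1 ndF2q1 pcF2 Cut.none Ext.none)

def k0_pm_112 : ∃ t, chk3 f_pm_112 t 2 8 1 = true :=
  ⟨(a (l 3) (l 1)), by decide +kernel⟩

def k1_pm_112 : ∃ t, chk3 f_pm_112 t 2 18 1 = true :=
  ⟨(a (b (l 3) (b (a (l 3) (a (a (l 3) (a (l 3) (b (l 1) (c (c (l 16660144) (l 476371988359)) (c (l 842383775095) (l 932578085255)))))) (l 1))) (b (a (l 3) (a (c (c (a (c (l 16678952) (l 578377541927)) (l 16674168)) (a (c (l 569250735415) (l 550460252311)) (c (l 16694336) (l 16693800)))) (c (a (c (l 520932350967) (l 492478191463)) (b (l 300278400695) (l 16700928))) (a (c (l 519858608103) (l 545628410535)) (c (l 197199181591) (l 141901477575))))) (l 1))) (a (a (l 3) (a (a (l 3) (c (c (l 604684302935) (l 612737367655)) (c (l 588578175671) (l 638507190503)))) (c (c (c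 (l 16717432) (l 344838773335)) (c (l 375440414487) (l 402283959575))) (c (c (l 425906279687) (l 445770502759)) (c (l 462413500199) (l 475298401575)))))) (a (c (c (a (l 16711360) (l 16724504)) (c (l 16706968) (l 16706648))) (c (a (a (l 16712192) (l 16729168)) (l 16723128)) (c (l 177871893127) (l 16705376)))) (a (c (c (l 16716624) (l 16715832)) (c (l 16715040) (l 16693280))) (l 1))))))) (l 1)), by decide +kernel⟩

def k2_pm_112 : ∃ t, chk3 f_pm_112 t 16 38 1 = true :=
  ⟨(b (b (a (l 3) (a (b (l 3) (c (c (l 553144805095) (l 570861544839)) (c (l 550460450183) (l 566566577527)))) (c (c (b (l 615958674599) (l 16775304)) (b (l 640654736071) (l 16775280))) (c (b (l 633675414375) (l 373293051911)) (b (l 627232962951) (l 16775232)))))) (c (c (a (b (c (l 531133098743) (l 525764389623)) (c (l 16777176) (l 16777176))) (c (l 16775888) (l 16775880))) (a (b (c (l 509658262263) (l 507510778615)) (c (l 16777168) (l 16777168))) (c (l 16754896) (l 297594238807)))) (c (a (b (c (l 531133098567) (l 552071064135))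 (c (l 16777168) (l 16777168))) (c (l 16765368) (l 16775840))) (c (a (l 495162739239) (l 16775832)) (a (l 16776704) (l 16775824)))))) (c (c (c (b (l 16777192) (l 16777184)) (b (l 16777192) (l 16777184))) (c (b (l 16777192) (l 16777184)) (b (l 16777192) (l 16777184)))) (c (c (b (l 16777192) (l 16777184)) (b (l 16777192) (l 16777184))) (c (b (l 16777192) (l 16777184)) (l 16777184))))), by decide +kernel⟩

def k3_pm_112 : ∃ t, chk3 f_pm_112 t 17 38 1 = true :=
  ⟨(c (b (b (c (b (a (c (l 16768080) (l 16768024)) (l 16760984)) (a (l 16771456) (l 16765992))) (b (a (c (l 16746992) (l 16746928)) (l 16739800)) (a (l 16771376) (l 16765848)))) (c (c (l 16774240) (l 16753256)) (c (l 16758472) (b (l 16772096) (l 16776992))))) (b (c (c (l 16776112) (l 16776104)) (c (l 16776096) (l 16776088))) (c (a (b (l 16777176) (l 16775184)) (b (l 16773032) (l 16765360))) (a (b (l 16777176) (l 16775160)) (b (l 16772976) (l 16765200)))))) (b (b (c (b (a (c (l 407652748759) (l 16746808)) (l 16739584)) (a (l 16750328)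 (l 16765704))) (b (c (l 343765092567) (l 282561808263)) (c (l 16768416) (l 16768368)))) (c (c (b (l 16772064) (l 16776992)) (l 16753176)) (c (l 16774128) (l 16774104)))) (b (c (c (l 16776080) (l 16776072)) (c (l 16776064) (l 16776056))) (c (a (b (l 16777176) (l 16775136)) (b (l 16772920) (l 16765048))) (a (b (l 16777176) (l 16775112)) (b (l 16772872) (l 16764896))))))), by decide +kernel⟩

def k4_pm_112 : ∃ t, chk3 f_pm_112 t 9 38 1 = true :=
  ⟨(b (a (c (b (b (c (l 16728192) (a (l 16752800) (l 16744784))) (c (l 16757768) (l 16757512))) (c (a (l 16772576) (b (l 16765656) (l 16771152))) (a (l 16772512) (b (l 16765504) (l 16771072))))) (b (c (b (a (l 16752480) (l 16744368)) (l 16736288)) (b (a (l 16752168) (l 16743952)) (l 16757000))) (c (a (l 16772456) (b (l 16765352) (l 16771000))) (a (l 16772392) (b (l 16765200) (l 16770920)))))) (a (b (a (c (c (l 16744712) (l 16723312)) (c (l 16722888) (l 16722464))) (l 1)) (b (c (c (l 16754360) (l 16754064)) (c (l 16732792) (l 16732496))) (c (l 16747824)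 (l 16747056)))) (l 1))) (c (a (b (c (a (b (l 16774560) (l 16769008)) (l 16754944)) (a (b (l 16774520) (l 16768904)) (l 16754656))) (l 16695856)) (l 16658200)) (a (b (c (a (b (l 16774488) (l 16768792)) (l 16754360)) (a (b (l 16774456) (l 16768688)) (b (l 16760664) (l 16743928)))) (l 16694832)) (b (l 16688496) (l 16689664))))), by decide +kernel⟩

def k5_pm_112 : ∃ t, chk3 f_pm_112 t 4 39 1 = true :=
  ⟨(a (a (b (c (b (c (a (l 16777184) (b (l 16776648) (l 16773792))) (a (l 16777184) (b (l 16776640) (l 16773744)))) (c (a (b (l 16775408) (l 16771672)) (l 16764048)) (a (b (l 16775384) (l 16771592)) (l 16763880)))) (b (c (a (l 16777184) (b (l 16776632) (l 16773696))) (a (l 16777176) (b (l 16776624) (l 16773656)))) (c (a (b (l 16775360) (l 16771520)) (l 16763704)) (c (l 16725000) (l 16766880))))) (c (a (l 16733704) (l 16744536)) (c (l 16749088) (l 16748736)))) (b (c (b (a (b (c (l 16770824) (l 16770744)) (l 16760608)) (l 16747488)) (l 16718824)) (b (a (b (c (l 16770664) (l 16770576)) (l 16760176))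 (l 16746720)) (l 16717856))) (c (l 16729312) (l 16707096)))) (c (a (b (l 16671448) (l 16708880)) (b (l 16679424) (l 16688264))) (a (b (a (l 16720360) (l 16703040)) (l 16707112)) (b (l 16676888) (l 16685952))))), by decide +kernel⟩

def k6_pm_112 : ∃ t, chk3 f_pm_112 t 5 19 1 = true :=
  ⟨(b (l 1) (a (a (a (b (l 1) (l 265784382023)) (l 1)) (l 1)) (l 1))), by decide +kernel⟩

def k7_pm_112 : ∃ t, chk3 f_pm_112 t 3 4 1 = true :=
  ⟨(l 1), by decide +kernel⟩

def k8_pm_112 : ∃ t, chk3 f_pm_112 t 2 10 1 = true :=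
  ⟨(b (a (b (a (c (b (a (l 16727624) (l 16738896)) (c (l 16770136) (l 16770048))) (b (c (l 16722144) (l 16742680)) (c (l 16769952) (l 16769856)))) (a (c (b (l 16729144) (l 16768056)) (b (l 16727896) (l 16767816))) (b (c (l 16719304) (l 16717800)) (c (l 16759744) (l 16738320))))) (b (a (c (a (b (l 16755048) (l 16731240)) (l 16717640)) (c (l 16740336) (l 16739864))) (c (a (b (l 16748048) (a (l 16725104) (l 16737136))) (b (l 16771496) (l 16756960))) (a (b (l 16747288) (a (l 16723752) (l 16736096))) (b (l 16771344) (l 16756432))))) (b (a (c (a (l 16708928) (b (l 16707912) (a (l 16706640) (l 16699616)))) (a (l 16707152) (b (l 16706112) (l 16674576)))) (a (a (b (c (l 16719656) (l 16718160)) (l 16763704)) (l 16762192)) (l 16685824))) (a (b (c (a (b (l 16709296) (a (l 16712136) (l 16703184))) (b (l 16740344) (l 16771848))) (a (b (l 16707536) (l 16720672)) (b (l 16739392) (l 16771704)))) (a (b (b (b (c (l 16735552) (l 16734472)) (b (c (l 16753312) (l 16752688)) (c (l 16771072) (l 16770912)))) (l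 16733440)) (l 16733424)) (c (l 16722864) (l 16721456)))) (b (c (l 16551296) (l 16590096)) (a (c (l 16643624) (l 16640152)) (l 16560920))))))) (a (a (b (b (c (l 16680888) (l 16657960)) (c (b (l 16731656) (l 16729040)) (b (l 16730472) (l 16727792)))) (b (c (l 16646712) (l 16643864)) (b (l 16582784) (b (l 16519184) (l 16478896))))) (b (l 1) (b (l 1) (b (l 1) (b (l 1) (l 16395448)))))) (l 1))) (a (a (c (a (l 16775936) (l 16718072)) (l 16704768)) (c (l 16568224) (l 16585400))) (a (a (l 16539112) (l 16478040)) (l 476773634455)))), by decide +kernel⟩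

def k9_pm_112 : ∃ t, chk3 f_pm_112 t 2 11 1 = true :=
  ⟨(a (a (c (b (l 16766736) (l 16777200)) (b (l 16766464) (l 16777200))) (b (c (l 16724984) (l 16723624)) (l 16777136))) (b (a (l 16681240) (l 16636568)) (a (l 16777072) (l 16777008)))), by decide +kernel⟩

def k10_pm_112 : ∃ t, chk3 f_pm_112 t 3 5 1 = true :=
  ⟨(b (l 1) (a (a (b (l 1) (c (l 240014940311) (l 16818864))) (l 1)) (l 1))), by decide +kernel⟩

def k11_pm_112 : ∃ t, chk3 f_pm_112 t 1 3 1 = true :=
  ⟨(a (a (b (a (c (b (l 16775784) (l 16765408)) (a (b (l 16775216) (l 16762880)) (l 16772600))) (c (l 16776296) (l 16776272))) (a (b (a (c (l 16712816) (l 16711144)) (c (l 16770080) (l 16769888))) (c (a (l 16521024) (l 16621176)) (a (l 16430480) (l 16596152)))) (a (b (l 16763064) (c (l 16712816) (l 16711144))) (b (l 16769352) (l 16769984))))) (b (c (a (l 16777216) (l 16777216)) (l 16777216)) (a (c (l 16767648) (l 16767400)) (b (l 16777216) (l 16775760))))) (a (b (c (b (c (a (l 16777216) (l 301217958231)) (a (l 16777216) (l 16770792)))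 (a (c (l 16777216) (l 16777216)) (a (l 16777216) (l 16764680)))) (b (a (l 16777216) (l 342557018695)) (a (l 16777216) (l 16770664)))) (a (c (l 16777216) (l 16777216)) (c (b (l 16770832) (l 16770832)) (l 16770664)))) (b (a (b (l 1) (b (l 1) (l 178273589047))) (l 1)) (a (a (b (l 16591888) (l 16591888)) (l 16359984)) (a (l 313027439847) (l 456908363447)))))), by decide +kernel⟩

theorem s12_pm_112 : ∃ t, chk3 f_pm_112 t 2 5 1 = true := ex3_b k8_pm_112 k9_pm_112

theorem s13_pm_112 : ∃ t, chk3 f_pm_112 t 1 5 1 = true := ex3_a s12_pm_112 k10_pm_112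

theorem s14_pm_112 : ∃ t, chk3 f_pm_112 t 8 38 1 = true := ex3_a k2_pm_112 k3_pm_112

theorem s15_pm_112 : ∃ t, chk3 f_pm_112 t 4 38 1 = true := ex3_a s14_pm_112 k4_pm_112

theorem s16_pm_112 : ∃ t, chk3 f_pm_112 t 4 19 1 = true := ex3_b s15_pm_112 k5_pm_112

theorem s17_pm_112 : ∃ t, chk3 f_pm_112 t 2 19 1 = true := ex3_a s16_pm_112 k6_pm_112

theorem s18_pm_112 : ∃ t, chk3 f_pm_112 t 2 9 1 = true := ex3_b k1_pm_112 s17_pm_112

theorem s19_pm_112 : ∃ t, chk3 f_pm_112 t 2 4 1 = true := ex3_b k0_pm_112 s18_pm_112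

theorem s20_pm_112 : ∃ t, chk3 f_pm_112 t 1 4 1 = true := ex3_a s19_pm_112 k7_pm_112

theorem s21_pm_112 : ∃ t, chk3 f_pm_112 t 1 2 1 = true := ex3_b s20_pm_112 s13_pm_112

theorem s22_pm_112 : ∃ t, chk3 f_pm_112 t 1 1 1 = true := ex3_b s21_pm_112 k11_pm_112

theorem c_pm_112 : CertFX 536870912 536870912 536870912 536870912 1046898278 26843546 true true false .dn 1 1 2
    ndF0q1 ndF2q1 pcF2 Cut.none Ext.none :=
  certFX1 (fam := true) (s1 := true) (s2 := false) (a := 1) (b := 1) (c := 2) (cn := .dn) (n1 := ndF0q1) (n2 := ndF2q1) (pc := pcF2) (cut := Cut.none) (xt := Ext.none) (P1 := 536870912) (W1 := 536870912) (P2 := 536870912) (W2 := 536870912) (P3 := 1046898278) (W3 := 26843546)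
    rfl (fun _ => rfl) s22_pm_112

noncomputable def f_pm_113 : ℕ → ℕ → ℕ → ℕ → Bool := onCell 536870912 536870912 1610612736 536870912 1046898278 26843546
    (rowFX 1 true true false .nn 1 1 3 (qsf 536870912 536870912 536870912 536870912 3) ndF0q1 ndF2q1 pcF3 Cut.none Ext.none)

def k0_pm_113 : ∃ t, chk3 f_pm_113 t 2 1 1 = true :=
  ⟨(b (b (a (a (a (b (c (l 234175096055) (b (l 462882302823) (l 441407490823))) (l 2)) (b (c (l 16417944) (b (l 16461592) (l 449460530023))) (a (l 2) (a (l 2) (c (l 16225600) (l 439259875591)))))) (b (c (a (l 16521024) (l 16621176)) (a (l 16409512) (l 16596152))) (a (c (l 211089646839) (b (l 466640399207) (c (l 369466559415) (l 496168317127)))) (b (l 16465584) (c (l 16365192) (l 500463266663)))))) (a (b (a (l 16680528) (l 16769984)) (c (l 16362008) (a (l 16409512) (l 16596152)))) (b (c (l 16765408) (l 16765096)) (b (c (l 16770080) (l 16748920)) (a (l 16668408) (l 16756816)))))) (a (b (b (a (l 2) (a (l 2) (a (l 2) (l 376446093127)))) (l 2)) (l 2)) (a (a (b (c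 (l 267997963511) (b (l 509590072167) (l 484894034695))) (l 2)) (b (b (l 16465584) (c (l 16365192) (l 520864361319))) (b (c (l 16196680) (l 496705194759)) (l 2)))) (c (b (b (l 16579232) (l 16416160)) (a (c (l 252428713095) (l 351212948839)) (a (l 326517133991) (l 16380880)))) (b (a (b (l 16566056) (l 16461592)) (l 16617128)) (b (a (l 535896746855) (l 16461592)) (a (c (l 451608044887) (l 558445342919)) (l 546634165095)))))))) (b (a (l 2) (b (b (b (a (l 2) (a (l 2) (a (l 2) (l 422616993799)))) (l 2)) (l 2)) (l 2))) (l 2))), by decide +kernel⟩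

def k1_pm_113 : ∃ t, chk3 f_pm_113 t 6 1 1 = true :=
  ⟨(a (b (b (b (l 16775760) (b (l 16769352) (l 16763064))) (c (b (b (l 16770080) (l 16691848)) (a (b (l 16571400) (l 16427640)) (l 16621176))) (b (a (l 16711144) (l 16769888)) (a (b (l 16566056) (l 16398672)) (l 16617128))))) (b (b (a (a (b (c (l 16338688) (l 532675527287)) (l 2)) (b (l 413490295047) (l 487041584855))) (b (c (l 16469584) (l 16461592)) (a (l 503684498903) (l 16386320)))) (a (l 2) (b (c (l 344770507047) (l 617501149847)) (l 2)))) (l 2))) (b (b (a (b (l 16777216) (l 16775240)) (l 16764520)) (b (a (l 16763064) (l 16762600)) (a (l 16670040) (l 16757792)))) (b (b (a (b (l 16568728) (c (l 16469568) (l 16461576))) (b (l 16657168) (a (l 16543192) (l 16572088)))) (b (a (l 524085628871) (a (c (l 16443568) (l 16434896)) (l 16470144))) (a (b (l 543949704823) (l 2)) (a (l 636828524343) (c (b (l 16398616) (l 633070494215)) (l 823659645639)))))) (b (b (a (l 2) (b (a (l 2) (c (l 597636907639) (l 820975187207))) (l 2))) (l 2)) (l 2))))),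 by decide +kernel⟩

def k2_pm_113 : ∃ t, chk3 f_pm_113 t 7 1 1 = true :=
  ⟨(b (b (a (l 16474784) (a (l 16079760) (b (l 15860320) (l 15860320)))) (a (b (l 16476152) (a (l 16604648) (l 16367200))) (b (a (l 16079760) (l 15860320)) (a (l 16060616) (c (l 15858544) (l 15854768)))))) (a (a (b (b (b (l 16574040) (l 16495544)) (b (c (b (l 16442680) (l 16399232)) (l 16389240)) (c (b (l 16354736) (a (l 16324464) (l 16292032))) (b (l 16314352) (l 16263456))))) (b (b (c (b (l 656155927383) (l 636828483207)) (b (l 904726846439) (l 893452431431))) (b (c (l 625017193703) (l 909021588039)) (l 2))) (l 2))) (b (b (b (l 16376184) (l 16342528)) (b (c (l 16285584) (l 16253656)) (c (l 16268656) (l 16164344)))) (b (b (c (b (l 16181968) (b (l 16165600) (l 16156392))) (b (l 16098216) (a (l 16085536) (l 16022952)))) (b (c (b (l 475230446983) (a (l 16152424) (l 16127040))) (b (l 16023920) (l 638975551255))) (a (a (l 2) (l 4)) (l 4)))) (l 4)))) (b (b (a (b (l 16090560) (l 16095824)) (c (l 15865168) (l 15841384)))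 (b (a (c (l 16098224) (l 16062352)) (c (l 15872984) (l 15872136))) (a (c (l 16039608) (l 15982376)) (c (b (l 15858872) (l 15832464)) (b (l 15855176) (l 15820936)))))) (b (b (a (c (b (l 16003424) (a (l 16036976) (l 4))) (b (l 15919464) (l 325039727319))) (b (c (l 15802448) (l 15778264)) (l 4))) (l 4)) (l 4))))), by decide +kernel⟩

theorem s3_pm_113 : ∃ t, chk3 f_pm_113 t 3 1 1 = true := ex3_a k1_pm_113 k2_pm_113

theorem s4_pm_113 : ∃ t, chk3 f_pm_113 t 1 1 1 = true := ex3_a k0_pm_113 s3_pm_113

theorem c_pm_113 : CertFX 536870912 536870912 536870912 536870912 1046898278 26843546 true true false .nn 1 1 3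
    ndF0q1 ndF2q1 pcF3 Cut.none Ext.none :=
  certFX1 (fam := true) (s1 := true) (s2 := false) (a := 1) (b := 1) (c := 3) (cn := .nn) (n1 := ndF0q1) (n2 := ndF2q1) (pc := pcF3) (cut := Cut.none) (xt := Ext.none) (P1 := 536870912) (W1 := 536870912) (P2 := 536870912) (W2 := 536870912) (P3 := 1046898278) (W3 := 26843546)
    rfl (fun _ => rfl) s4_pm_113

noncomputable def f_pm_123_a : ℕ → ℕ → ℕ → ℕ → Bool := onCell 1610612736 536870912 0 420477299 1046898278 26843546
    (rowFX 2 true true false .npn 1 2 3 (qsf 536870912 536870912 0 420477299 3) ndF0q1 ndF2q2a pcF3 Cut.none Ext.none)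

def k0_pm_123_a : ∃ t, chk3 f_pm_123_a t 1 2 1 = true :=
  ⟨(a (a (l 1) (a (b (c (a (l 16703352) (l 16703352)) (l 16680464)) (c (b (l 16722096) (l 16771272)) (b (l 16720664) (l 16771112)))) (b (c (l 16682384) (a (l 16701432) (l 16701432))) (c (b (l 16722096) (l 16771272)) (b (l 16720664) (l 16750144)))))) (a (a (b (a (l 16702392) (c (l 16703368) (l 16701448))) (c (b (l 16722104) (l 16771280)) (b (l 16720672) (l 16771128)))) (a (b (c (b (l 16707120) (l 16699800)) (b (l 16705304) (l 16697784))) (b (l 16721416) (l 16771248))) (b (c (a (l 16703392) (l 16703376)) (a (l 16701480) (l 16701464))) (b (c (l 16722136) (l 16720704)) (l 16771248))))) (a (a (b (a (c (l 16703360) (l 16701448)) (c (l 16703760) (l 16701856))) (a (b (l 16721400) (l 16771216)) (b (c (l 16722664) (l 16721256)) (c (l 16771504) (l 16771448))))) (b (a (c (b (l 16709632) (l 16703384)) (b (l 16707888) (l 16701480))) (c (a (l 16706760) (b (l 16708304) (l 16703304))) (a (l 16704944) (b (l 16706520) (l 16701400))))) (a (c (b (l 16726968)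 (l 16763352)) (l 16674280)) (c (b (l 16728736) (l 16758488)) (b (l 16727504) (l 16757984)))))) (a (a (b (b (a (c (c (l 554285498951) (l 16706808)) (l 520999514103)) (l 4)) (c (a (l 16701272) (c (l 16700448) (l 16699480))) (a (l 16699336) (c (l 16698480) (l 16697472))))) (c (a (b (l 16726448) (l 16760920)) (b (l 16723664) (l 16765792))) (a (b (l 16725240) (l 16760232)) (b (l 16722448) (l 16764792))))) (b (l 4) (b (a (c (a (l 16722368) (l 16680872)) (a (l 16721016) (l 16700432))) (l 4)) (a (c (c (l 16769856) (l 16768696)) (l 16726448)) (c (a (l 16757816) (l 16742264)) (a (l 16757008) (l 16741296))))))) (l 4))))), by decide +kernel⟩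

def k1_pm_123_a : ∃ t, chk3 f_pm_123_a t 1 6 1 = true :=
  ⟨(a (a (a (l 1) (a (l 1) (c (l 16569416) (l 16544136)))) (a (c (b (l 16677568) (l 16544360)) (c (l 16545216) (l 16522088))) (c (a (l 16548448) (l 16590392)) (a (l 16502192) (l 16565112))))) (a (a (c (a (l 16611360) (l 16611384)) (b (l 16674992) (l 16538328))) (a (b (l 16676328) (l 16541392)) (b (l 16676328) (l 16541392)))) (a (a (a (b (l 16676288) (l 16541352)) (b (l 16635344) (l 16542552))) (a (b (c (l 16682904) (l 16682504)) (l 16552136)) (b (c (l 16631808) (l 16629968)) (a (l 16554272) (b (l 16583800) (l 16511688)))))) (a (a (c (b (a (l 16673272) (l 16676672)) (b (l 16585064) (a (l 16510008) (l 16510176)))) (b (l 16630504) (a (l 16544216) (l 16545368)))) (a (c (b (l 16678536) (l 16546736)) (b (l 16676440) (l 16545848))) (c (b (a (l 16670720) (l 16656560)) (l 16454880)) (b (a (l 16666640) (l 16652120)) (l 16509728))))) (a (a (c (b (a (l 16641168) (l 16605232)) (b (l 16547280) (l 16492024))) (b (a (l 16636840) (l 16559032)) (b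 (l 16518264) (l 16481008)))) (b (l 4) (b (a (c (l 16528552) (l 16521672)) (l 4)) (c (a (l 16494480) (l 203708323431)) (a (l 16485680) (l 242899896247)))))) (l 4)))))), by decide +kernel⟩

def k2_pm_123_a : ∃ t, chk3 f_pm_123_a t 2 7 1 = true :=
  ⟨(b (a (a (l 1) (a (c (l 16398928) (l 16368128)) (c (l 16398928) (l 16389104)))) (a (c (l 16398928) (c (l 16391560) (l 16386648))) (c (l 16398928) (l 16389104)))) (a (a (a (l 1) (c (l 16291480) (l 16257896))) (c (a (l 16291480) (l 16291480)) (c (l 16219104) (a (l 16275712) (l 16275712))))) (a (c (c (l 16294640) (l 16288328)) (c (l 16282016) (a (l 16275712) (l 16275712)))) (c (b (l 16320840) (l 16262112)) (b (l 16308984) (l 16248728)))))), by decide +kernel⟩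

def k3_pm_123_a : ∃ t, chk3 f_pm_123_a t 6 7 1 = true :=
  ⟨(a (b (c (l 16398936) (a (l 16389104) (l 16389128))) (a (c (l 16291480) (l 16278864)) (l 16285200))) (b (c (a (l 16398976) (l 16398976)) (a (l 16389160) (l 16389160))) (c (a (l 16291536) (l 16291528)) (a (l 16278928) (l 16278920))))), by decide +kernel⟩

def k4_pm_123_a : ∃ t, chk3 f_pm_123_a t 7 14 1 = true :=
  ⟨(a (a (c (a (l 16398936) (l 16400168)) (a (l 16389112) (l 16390704))) (a (c (l 16409720) (l 16404192)) (c (b (l 16438792) (l 16389192)) (l 16414160)))) (b (a (a (c (a (l 16432176) (l 16430936)) (l 16429664)) (a (c (b (l 16442480) (l 16412248)) (l 16428256)) (c (b (l 16444304) (l 16428648)) (l 16432808)))) (a (a (c (l 16464008) (l 16451712)) (c (a (l 16482352) (c (l 16493792) (l 16489872))) (a (l 16471136) (c (l 16485152) (l 16480928))))) (b (l 4) (a (a (a (c (l 16501784) (l 16494320)) (l 4)) (l 4)) (l 4))))) (a (a (c (a (l 16382152) (l 16382488)) (l 16380920)) (c (a (c (l 16394736) (l 16392968)) (c (l 16429952) (l 16426024)))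 (a (l 16389744) (l 16422480)))) (a (a (c (l 16473392) (l 16469648)) (c (a (l 16505248) (l 16516872)) (a (l 16493480) (l 16506848)))) (a (a (c (c (l 16528912) (l 16525856)) (c (l 16522000) (l 16517992))) (b (l 4) (b (l 4) (l 4)))) (l 4)))))), by decide +kernel⟩

def k5_pm_123_a : ∃ t, chk3 f_pm_123_a t 7 15 1 = true :=
  ⟨(b (a (a (a (l 16314920) (l 16316488)) (a (l 16329504) (l 16338216))) (a (a (c (a (l 16337896) (l 16349816)) (l 16343448)) (c (a (l 16376816) (l 16418648)) (a (l 16362960) (l 16401472)))) (a (a (c (a (l 16458560) (l 16488488)) (c (l 16461896) (l 16453784))) (c (a (l 16519808) (l 16543072)) (a (l 16508856) (l 16537664)))) (a (c (a (c (l 16560568) (l 16558704)) (a (l 16567592) (c (l 16577272) (l 16574576)))) (a (c (l 16554320) (l 16549424)) (a (c (l 16563496) (l 16559912)) (c (l 16571880) (l 16569032))))) (l 4))))) (a (a (c (l 16262904) (l 16249752)) (a (l 16271168) (c (l 16284992) (l 16281480)))) (a (a (c (a (l 16300240) (l 16321632)) (l 16296744)) (c (a (l 16351840) (l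 16396968)) (l 16344008))) (a (c (a (l 16457960) (a (c (l 16522840) (l 16505688)) (c (l 16564352) (l 16548008)))) (a (l 16427672) (c (a (l 16493056) (l 16536216)) (l 16502040)))) (a (c (a (c (l 16591608) (l 16589296)) (a (l 16603880) (c (l 16609384) (l 16607472)))) (a (c (l 16581824) (l 16578840)) (c (a (l 16601136) (l 16605640)) (a (l 16596080) (l 16602128))))) (a (a (c (c (l 16617456) (l 16615304)) (c (a (l 16609816) (l 16615168)) (c (l 16611520) (l 16610208)))) (l 4)) (l 4))))))), by decide +kernel⟩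

theorem s6_pm_123_a : ∃ t, chk3 f_pm_123_a t 7 7 1 = true := ex3_b k4_pm_123_a k5_pm_123_a

theorem s7_pm_123_a : ∃ t, chk3 f_pm_123_a t 3 7 1 = true := ex3_a k3_pm_123_a s6_pm_123_a

theorem s8_pm_123_a : ∃ t, chk3 f_pm_123_a t 1 7 1 = true := ex3_a k2_pm_123_a s7_pm_123_a

theorem s9_pm_123_a : ∃ t, chk3 f_pm_123_a t 1 3 1 = true := ex3_b k1_pm_123_a s8_pm_123_a

theorem s10_pm_123_a : ∃ t, chk3 f_pm_123_a t 1 1 1 = true := ex3_b k0_pm_123_a s9_pm_123_a

theorem c_pm_123_a : CertFX 536870912 536870912 0 420477299 1046898278 26843546 true true false .npn 1 2 3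
    ndF0q1 ndF2q2a pcF3 Cut.none Ext.none :=
  certFX2 (fam := true) (s1 := true) (s2 := false) (a := 1) (b := 2) (c := 3) (cn := .npn) (n1 := ndF0q1) (n2 := ndF2q2a) (pc := pcF3) (cut := Cut.none) (xt := Ext.none) (P1 := 536870912) (W1 := 536870912) (P2 := 0) (W2 := 420477299) (P3 := 1046898278) (W3 := 26843546)
    rfl (fun _ => rfl) s10_pm_123_a

noncomputable def f_pm_123_b : ℕ → ℕ → ℕ → ℕ → Bool := onCell 1610612736 536870912 1239849684 370763052 1046898278 26843546
    (rowFX 2 true true false .npn 1 2 3 (qsf 536870912 536870912 1239849684 370763052 3) ndF0q1 ndF2q2b pcF3 Cut.none Ext.none)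

def k0_pm_123_b : ∃ t, chk3 f_pm_123_b t 1 2 1 = true :=
  ⟨(a (a (l 1) (b (b (a (c (c (l 16733848) (l 16733288)) (c (l 16732720) (l 16732152))) (c (c (l 16733848) (l 16733288)) (b (l 16720480) (l 16744024)))) (a (l 1) (c (l 16771920) (l 16771776)))) (a (l 1) (a (l 1) (c (l 16777216) (l 16777216)))))) (b (a (a (c (b (a (l 16733568) (l 16733576)) (a (l 16771920) (l 16771928))) (b (a (l 16711464) (b (l 16720488) (l 16744040))) (a (l 16771776) (l 16771784)))) (a (c (b (l 16733592) (l 16771936)) (b (b (l 16720512) (l 16744048)) (l 16771800))) (c (b (c (l 16733872) (l 16733312)) (l 16771928)) (b (c (l 16732744) (l 16732176)) (c (l 16771832) (l 16771760)))))) (a (b (a (c (a (l 16733576) (l 16733792)) (a (l 16732440) (l 16732664))) (a (c (a (l 16734664) (l 16734608)) (a (l 16733560) (l 16733504))) (a (c (c (l 16734408) (l 16733848)) (c (l 16733288) (l 16732728))) (a (c (l 16712688) (l 304640549607)) (l 4))))) (a (c (a (l 16771920) (c (l 16772032) (l 16771968))) (a (l 16771784) (c (l 16771896)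 (l 16771832)))) (a (c (a (l 16772104) (l 283165804951)) (c (l 226794355383) (a (l 16771936) (l 16771792)))) (l 4)))) (l 4))) (a (a (c (a (l 16777216) (l 16777200)) (a (l 16777216) (c (l 16777200) (l 16777200)))) (a (c (c (l 16777184) (l 16777184)) (c (l 16777184) (l 16777184))) (c (c (l 16777200) (l 16777200)) (c (l 16777200) (l 16777200))))) (a (a (b (c (a (l 16777216) (a (l 16777216) (l 16777200))) (a (l 16777216) (a (l 16777216) (l 16777200)))) (a (c (l 16777216) (l 16777216)) (l 4))) (l 4)) (l 4))))), by decide +kernel⟩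

def k1_pm_123_b : ∃ t, chk3 f_pm_123_b t 1 3 1 = true :=
  ⟨(a (l 1) (b (a (a (l 1) (a (c (l 16777200) (l 16777200)) (c (c (l 16777208) (l 16777208)) (c (l 16777208) (l 16777208))))) (b (a (a (l 4) (l 4)) (l 4)) (l 4))) (a (l 1) (l 4)))), by decide +kernel⟩

theorem s2_pm_123_b : ∃ t, chk3 f_pm_123_b t 1 1 1 = true := ex3_b k0_pm_123_b k1_pm_123_b

theorem c_pm_123_b : CertFX 536870912 536870912 1239849684 370763052 1046898278 26843546 true true false .npn 1 2 3
    ndF0q1 ndF2q2b pcF3 Cut.none Ext.none :=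
  certFX2 (fam := true) (s1 := true) (s2 := false) (a := 1) (b := 2) (c := 3) (cn := .npn) (n1 := ndF0q1) (n2 := ndF2q2b) (pc := pcF3) (cut := Cut.none) (xt := Ext.none) (P1 := 536870912) (W1 := 536870912) (P2 := 1239849684) (W2 := 370763052) (P3 := 1046898278) (W3 := 26843546)
    rfl (fun _ => rfl) s2_pm_123_b

noncomputable def f_pm_133 : ℕ → ℕ → ℕ → ℕ → Bool := onCell 536870912 536870912 1610612736 469762048 1046898278 26843546
    (rowFX 0 true true false .dn 1 3 3 (qsf 536870912 536870912 1610612736 469762048 3) ndF0q1 ndF2q3 pcF3 Cut.none Ext.none)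

def k0_pm_133 : ∃ t, chk3 f_pm_133 t 1 1 1 = true :=
  ⟨(l 4), by decide +kernel⟩

theorem c_pm_133 : CertFX 536870912 536870912 1610612736 469762048 1046898278 26843546 true true false .dn 1 3 3
    ndF0q1 ndF2q3 pcF3 Cut.none Ext.none :=
  certFX0 (fam := true) (s1 := true) (s2 := false) (a := 1) (b := 3) (c := 3) (cn := .dn) (n1 := ndF0q1) (n2 := ndF2q3) (pc := pcF3) (cut := Cut.none) (xt := Ext.none) (P1 := 536870912) (W1 := 536870912) (P2 := 1610612736) (W2 := 469762048) (P3 := 1046898278) (W3 := 26843546)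
    rfl k0_pm_133

noncomputable def f_pm_202 : ℕ → ℕ → ℕ → ℕ → Bool := onCell 0 536870912 1073741824 536870912 1046898278 26843546
    (rowFX 1 true true false .pp 2 0 2 (qsf 0 536870912 67108864 469762048 2) ndF0q2 ndF2q0 pcF2 Cut.none Ext.none)

def k0_pm_202 : ∃ t, chk3 f_pm_202 t 2 4 1 = true :=
  ⟨(l 1), by decide +kernel⟩

def k1_pm_202 : ∃ t, chk3 f_pm_202 t 2 10 1 = true :=
  ⟨(a (l 1) (b (l 1) (b (l 1) (a (l 1) (a (l 1) (b (l 1) (c (c (l 16175144) (l 16173448)) (l 16163752)))))))), by decide +kernel⟩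

def k2_pm_202 : ∃ t, chk3 f_pm_202 t 4 11 1 = true :=
  ⟨(b (b (l 1) (a (b (l 1) (b (l 1) (c (a (c (l 15492184) (l 15497120)) (c (l 15473752) (l 15478280))) (a (l 15472608) (l 15453304))))) (c (c (a (b (l 1) (l 15533496)) (b (l 15629928) (l 15575920))) (a (l 15548328) (l 15590240))) (a (l 15525024) (l 15567736))))) (a (c (a (c (b (l 15598736) (l 15807176)) (l 15627840)) (b (c (b (a (b (a (l 15463936) (l 15463384)) (l 15533392)) (l 15514384)) (a (l 15614120) (l 15609632))) (b (a (b (l 15469104) (l 15517096)) (l 15497824)) (l 15597784))) (a (l 15769648) (c (l 15760568) (l 15747288))))) (a (b (l 15560448) (l 15775808)) (b (c (b (a (l 15477552) (l 15481320)) (l 15582584)) (b (l 15465752) (l 15567384))) (a (l 15743520) (l 15727384))))) (c (b (b (c (a (b (l 15514992) (l 15558680)) (l 15536016)) (a (l 15520592) (l 15562240))) (c (l 15650728) (l 15635968))) (a (c (a (l 15764584) (l 15778304)) (l 15760272)) (c (l 15808512) (l 15795832)))) (a (b (c (l 15551936) (l 15536328)) (c (l 15747152) (l 15734040)))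 (b (c (l 15594032) (l 15578960)) (l 15776840)))))), by decide +kernel⟩

def k3_pm_202 : ∃ t, chk3 f_pm_202 t 5 11 1 = true :=
  ⟨(b (a (c (b (c (a (l 15782984) (l 61771567751)) (a (l 15784224) (l 15858248))) (a (c (l 15659264) (l 15646136)) (a (l 15705816) (l 15745576)))) (a (b (l 15769320) (l 15624688)) (b (l 15841648) (l 15697024)))) (c (a (b (c (b (l 15988152) (l 15915768)) (l 15944240)) (l 15812528)) (b (a (l 16024152) (l 16081656)) (l 15913168))) (a (b (l 127269987095) (l 15787848)) (b (l 15971648) (l 15891112))))) (c (c (a (b (a (l 15595064) (l 15726504)) (l 15879304)) (b (a (b (l 15784112) (l 15866760)) (l 15859376)) (l 15991632))) (a (b (a (l 15664568) (l 15734000)) (l 15867560)) (b (a (l 15727768) (l 15889872)) (l 15981360)))) (c (a (b (a (l 15650216) (l 15720536)) (l 15855824)) (b (a (l 15799192) (l 15878424)) (l 15971096))) (a (b (b (l 15624624) (l 15720096)) (l 15844088)) (b (a (l 15786736) (l 15866976)) (l 15960824)))))), by decide +kernel⟩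

def k4_pm_202 : ∃ t, chk3 f_pm_202 t 2 3 1 = true :=
  ⟨(b (a (b (a (c (b (c (l 15965984) (l 16019240)) (c (l 16240680) (l 16233752))) (b (a (l 16019312) (l 15989800)) (l 16181416))) (c (b (a (b (a (l 15926216) (l 15928184)) (l 16054488)) (b (l 15945032) (l 16062296))) (a (l 16231672) (b (l 16178424) (l 16300104)))) (b (a (a (l 15969760) (l 15886568)) (b (l 15923416) (l 16043736))) (a (l 16217584) (l 16160904))))) (c (b (a (l 16393408) (l 16425592)) (a (c (l 16669544) (l 16668136)) (l 16590248))) (b (a (l 16384544) (l 16396584)) (a (l 16603112) (l 16567144))))) (b (a (c (b (c (l 16061560) (l 16052208)) (a (l 16121688) (l 16311064))) (b (c (l 16042848) (l 16033496)) (a (l 16255280) (l 16298960)))) (c (b (a (l 16127048) (l 16187096)) (a (l 16365248) (l 16429416))) (b (a (l 16110160) (l 16171768)) (a (l 16354544) (l 16420376))))) (a (b (c (b (l 16433024) (l 16595088)) (a (l 16504640) (l 16529760))) (c (l 16608496) (a (l 16726968) (l 16748688)))) (b (c (b (l 16581064) (l 16695736)) (b (l 16575968)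 (l 16693624))) (a (c (l 16766656) (l 16766384)) (l 16776320)))))) (a (c (b (a (c (l 16777216) (l 16777216)) (c (l 16777216) (l 16777216))) (c (a (l 16777216) (l 16777216)) (a (l 16777216) (l 16777216)))) (b (a (c (l 16777216) (l 16777216)) (c (l 16777216) (l 16777216))) (c (a (l 16777216) (l 16777216)) (a (l 16777216) (l 16777216))))) (c (b (a (l 16777216) (a (l 16777216) (l 16777216))) (a (l 16777216) (l 16777216))) (b (a (l 16777216) (a (l 16777216) (l 16777216))) (c (l 16777216) (l 16777216)))))), by decide +kernel⟩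

def k5_pm_202 : ∃ t, chk3 f_pm_202 t 6 4 1 = true :=
  ⟨(l 1), by decide +kernel⟩

def k6_pm_202 : ∃ t, chk3 f_pm_202 t 14 4 1 = true :=
  ⟨(b (l 1) (b (l 1) (a (a (l 1) (b (l 1) (b (l 1) (c (l 15772696) (l 15744544))))) (a (b (l 1) (c (c (b (a (l 15683072) (l 15761064)) (a (l 15661184) (l 15577672))) (b (l 15782880) (l 15608640))) (b (c (l 15623592) (a (l 15789936) (l 15721352))) (a (l 15625544) (b (l 15580480) (l 15491952)))))) (b (c (c (b (l 320006802343) (l 15886304)) (l 333965146071)) (b (l 96668462183) (l 15791480))) (c (b (c (l 15677288) (l 15663856)) (c (l 15363232) (l 15450936))) (b (l 15642584) (c (l 15433744) (l 15416560))))))))), by decide +kernel⟩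

def k7_pm_202 : ∃ t, chk3 f_pm_202 t 30 4 1 = true :=
  ⟨(b (l 1) (b (b (l 1) (a (a (l 1) (b (l 1) (b (l 1) (c (l 16072264) (l 16053520))))) (c (c (c (a (l 187399758455) (l 15830256)) (l 209948199431)) (l 293163247063)) (c (l 15964456) (l 15893584))))) (c (b (c (b (a (c (l 15949696) (l 15959416)) (l 15754504)) (a (l 15767280) (l 15640328))) (b (a (l 15951760) (l 15836464)) (l 15697992))) (c (a (c (l 15461928) (l 15449824)) (c (l 15130512) (l 15339760))) (a (l 15436744) (l 15330056)))) (b (b (a (c (l 15941552) (l 15931344)) (l 15632952)) (c (l 15680752) (l 15666896))) (c (a (l 15419304) (l 15314048)) (a (l 15401864) (l 15295032))))))), by decide +kernel⟩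

def k8_pm_202 : ∃ t, chk3 f_pm_202 t 31 4 1 = true :=
  ⟨(a (b (l 1) (b (c (b (b (l 1) (c (c (l 16173240) (l 16234448)) (l 16177384))) (c (b (a (l 16097720) (l 16025904)) (l 15884688)) (b (l 16049176) (l 15888768)))) (b (c (l 271688834407) (l 16115376)) (c (b (l 16073856) (l 15889952)) (l 15808000)))) (c (b (c (b (l 15638080) (l 15506672)) (b (l 15702440) (l 15505304))) (c (b (l 15313768) (l 15135032)) (b (l 15309584) (l 15128192)))) (b (c (b (l 15701008) (l 15501072)) (l 15336888)) (c (l 15213144) (l 15194656)))))) (b (a (l 1) (b (l 1) (b (l 1) (b (l 1) (a (l 1) (c (c (c (b (l 1) (l 384432025047)) (l 16354296)) (l 16346696)) (l 366178373047))))))) (b (c (b (c (c (b (b (l 16208280) (l 16228944)) (l 16105752)) (l 15951008)) (b (l 16258976) (l 16097488))) (c (b (l 15933384) (l 15759144)) (l 15711216))) (b (b (c (l 16176104) (l 197600561831)) (c (l 16096304) (l 15888200))) (c (l 15622536) (a (l 15865016) (l 15788472))))) (c (b (c (b (l 15559720) (l 15400680)) (b (l 15566880) (l 15384224)))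 (c (c (l 15155192) (l 15144192)) (l 15129512))) (b (c (b (l 15558248) (l 15372952)) (b (l 15510472) (l 15364464))) (c (l 15114472) (l 15060280))))))), by decide +kernel⟩

def k9_pm_202 : ∃ t, chk3 f_pm_202 t 6 10 1 = true :=
  ⟨(b (a (l 1) (b (b (l 1) (a (l 1) (c (c (l 443486533223) (l 15772288)) (a (l 15799704) (c (l 15737056) (l 15724264)))))) (a (c (c (a (l 16035304) (l 15983120)) (a (l 16125616) (l 16096552))) (a (l 37612901127) (b (l 16012824) (l 16156496)))) (c (a (b (l 15909720) (l 16044432)) (l 15842920)) (a (b (l 15887752) (l 16026848)) (l 15756624)))))) (b (a (a (a (l 1) (a (l 1) (c (l 16418752) (l 16531064)))) (c (c (a (l 16442752) (l 16398560)) (l 16394288)) (a (l 16436248) (l 16413560)))) (a (c (a (c (l 16354048) (l 16372232)) (l 16298488)) (a (a (l 16395416) (l 16383688)) (l 16268848))) (c (l 15937656) (a (l 16180592) (l 16042016))))) (a (a (c (c (b (l 16323728) (l 16298888)) (l 16277480)) (a (l 16300568) (l 16365912))) (c (l 16314352) (l 16330176))) (a (c (c (l 16445272)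 (l 16424160)) (a (l 16482480) (l 16427280))) (c (a (l 16374416) (l 16340312)) (a (l 16326472) (l 16246800))))))), by decide +kernel⟩

def k10_pm_202 : ∃ t, chk3 f_pm_202 t 7 20 1 = true :=
  ⟨(b (a (a (c (a (b (l 15766616) (l 15615184)) (l 15454944)) (a (b (l 15738472) (l 15502536)) (b (l 15586760) (l 15428024)))) (a (c (l 15372160) (l 15230632)) (c (c (b (a (l 15323536) (l 15237712)) (b (l 15156384) (l 15080016))) (b (l 15264504) (l 15097336))) (b (c (l 15244608) (a (l 15265536) (l 15176144))) (b (c (l 15112712) (l 15090920)) (l 15023104)))))) (c (a (a (b (c (l 15150560) (l 15123600)) (c (a (b (l 15020112) (l 14944656)) (l 14931568)) (a (l 14961432) (l 14906456)))) (c (b (l 15051952) (c (l 14882192) (l 14878344))) (l 14951888))) (c (a (b (l 14967504) (c (l 14803760) (l 14797264))) (b (l 14905608) (l 14743032))) (a (l 14811104) (l 14799352)))) (a (a (b (c (l 15101672) (l 15079760)) (c (a (l 14937216) (l 14881472)) (a (l 14892040) (l 14856480)))) (c (l 14930424) (l 14905952))) (c (a (l 14860560)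 (l 14779280)) (a (l 14836944) (c (l 14765648) (l 14756312))))))) (a (a (c (a (l 15698904) (l 15545632)) (a (l 15650288) (l 15492512))) (c (a (l 15385464) (l 15214952)) (a (l 15222808) (l 15173168)))) (a (a (a (l 15065192) (b (c (c (b (l 14906768) (l 14984656)) (l 14923040)) (c (l 14898064) (l 14873096))) (l 15074368))) (b (c (c (b (l 14841176) (l 14896656)) (l 14851232)) (c (l 14828208) (l 14802176))) (b (c (c (b (l 14944688) (l 14980056)) (l 14948336)) (b (l 14895064) (l 14931656))) (c (c (l 15036728) (l 15022736)) (l 14990320))))) (c (b (c (a (l 14781848) (l 14715160)) (a (l 14769528) (l 14688040))) (c (b (a (l 14858704) (l 14779416)) (l 14878680)) (a (l 14877800) (l 14780728)))) (b (c (a (l 14754368) (l 14666104)) (a (l 14729048) (l 14646968))) (c (a (l 14864056) (l 14760024)) (a (l 14840144) (b (l 14713776) (l 14771264))))))))), by decide +kernel⟩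

def k11_pm_202 : ∃ t, chk3 f_pm_202 t 7 21 1 = true :=
  ⟨(a (a (c (b (a (l 15963584) (l 15827368)) (l 16141384)) (b (a (l 15837936) (l 15718704)) (a (l 16230776) (l 16105240)))) (c (a (l 15778144) (l 15686336)) (a (b (l 15659928) (l 15967608)) (b (l 15500232) (l 15808968))))) (c (a (b (a (l 15371760) (b (c (l 15152536) (l 15140080)) (l 15297968))) (l 15536192)) (b (a (c (b (l 15011408) (l 15145944)) (l 14884416)) (c (l 14973992) (l 14950456))) (a (c (b (l 15283208) (l 15418672)) (l 15347704)) (b (l 15094432) (l 15263272))))) (a (b (a (l 15334880) (b (a (l 15143232) (l 15072656)) (l 15266904))) (l 15441408)) (b (a (c (b (l 14990112) (l 15128360)) (b (l 14967888) (l 15107992))) (c (l 14932104) (l 14916552))) (a (c (l 15340400) (l 15239072)) (c (l 15176792) (a (l 15198336) (l 15120808)))))))), by decide +kernel⟩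

def k12_pm_202 : ∃ t, chk3 f_pm_202 t 3 11 1 = true :=
  ⟨(a (b (a (c (a (b (l 16111416) (c (l 16022768) (l 16013112))) (b (a (l 16273552) (l 16340568)) (l 16011952))) (a (b (l 16118064) (a (l 15973912) (l 16027168))) (b (a (l 16261760) (l 16330488)) (l 16058072)))) (a (c (b (a (l 16332592) (l 16437872)) (l 16159920)) (b (a (l 16324528) (l 16411920)) (a (l 16182768) (l 16277768)))) (b (c (l 16510048) (l 16447000)) (c (l 16374456) (l 16282848))))) (a (c (a (c (l 15927064) (l 15896352)) (c (l 16024400) (l 16015656))) (a (c (l 15907576) (l 15918808)) (b (b (l 16000488) (l 16056704)) (l 16143560)))) (a (c (b (a (l 16122624) (l 16210944)) (l 16280368)) (b (a (l 16063728) (l 16154536)) (l 16225664))) (c (b (l 16292584) (l 16469936)) (b (c (l 16305848) (l 16174880)) (l 16420784)))))) (b (a (a (b (c (l 16333672) (c (l 16328520) (l 16283144))) (c (l 16499696) (a (l 16441344) (l 16503120)))) (a (c (l 16203024) (b (l 16211008) (l 16383368))) (c (l 16150168) (b (l 16091888) (l 16324000))))) (a (c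 (a (l 16067408) (l 15909368)) (a (l 15798808) (l 15770272))) (c (b (a (l 15617264) (b (l 15393024) (l 15520200))) (l 15787760)) (b (a (l 15604048) (c (l 15437904) (a (l 15469280) (l 15381680)))) (a (l 15858816) (l 15522136)))))) (b (a (a (c (l 16437496) (c (l 16434632) (a (l 16459696) (l 16509984)))) (c (l 16436232) (a (c (l 16597448) (l 16512456)) (l 16349144)))) (c (a (l 16158368) (l 15831896)) (a (c (l 16189944) (l 16036240)) (a (c (l 15955632) (l 15947472)) (c (l 15808664) (b (l 15666704) (l 15791160))))))) (a (a (c (l 16632120) (l 16505904)) (c (l 16414624) (l 16259736))) (c (a (l 16082232) (l 15853648)) (a (a (l 16152544) (l 16012416)) (a (l 15891408) (l 15791176)))))))), by decide +kernel⟩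

def k13_pm_202 : ∃ t, chk3 f_pm_202 t 3 3 1 = true :=
  ⟨(b (a (b (a (a (c (b (l 16194952) (l 16481600)) (b (l 16202432) (l 16495440))) (c (b (l 16339888) (l 16542440)) (b (l 16286584) (l 16537432)))) (a (b (c (l 16337040) (l 16287096)) (c (a (l 16575840) (l 16649800)) (a (l 16593816) (l 16628296)))) (b (c (l 16518904) (l 16453656)) (c (b (l 16624752) (l 16598056)) (b (l 16558984) (l 16593456)))))) (a (b (c (a (b (l 16681968) (l 16762800)) (l 16651112)) (a (l 16591016) (b (l 16742552) (l 16777216)))) (c (l 16777216) (l 16777216))) (c (a (b (l 16688536) (l 16729216)) (l 16592424)) (a (b (l 16645400) (l 16727968)) (l 16587624))))) (a (b (a (b (c (a (l 16608072) (l 16462744)) (c (l 16375864) (l 16331448))) (c (l 16422688) (a (l 16477416) (l 16387232)))) (b (c (a (l 16357328) (l 16222192)) (b (a (l 16381792) (l 16223784)) (a (l 16306704) (l 16184216)))) (c (l 16253288) (l 16239680)))) (c (a (l 16438056) (l 16127456)) (a (l 16429248) (l 16197736)))) (b (a (c (a (l 16091408) (l 15991624)) (b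 (a (l 16077408) (l 15980656)) (l 16026520))) (c (l 15850352) (a (l 15886904) (l 15791176)))) (c (a (l 15940664) (l 15850352)) (a (l 16026520) (b (l 15845824) (l 15845824))))))) (a (a (b (c (a (b (l 16777216) (l 16777216)) (l 16777216)) (a (l 16777216) (l 16777216))) (c (a (l 16777216) (l 16777216)) (a (l 16777216) (l 16777216)))) (b (a (c (l 16729216) (l 16727968)) (l 16590024)) (a (c (l 16729216) (l 16727968)) (l 16590024)))) (a (a (c (l 16396112) (l 16429248)) (c (l 16253288) (l 16239680))) (a (c (l 16045520) (l 16026520)) (c (l 15850352) (b (l 15845824) (l 15845824))))))), by decide +kernel⟩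

theorem s14_pm_202 : ∃ t, chk3 f_pm_202 t 7 10 1 = true := ex3_b k10_pm_202 k11_pm_202

theorem s15_pm_202 : ∃ t, chk3 f_pm_202 t 3 10 1 = true := ex3_a k9_pm_202 s14_pm_202

theorem s16_pm_202 : ∃ t, chk3 f_pm_202 t 3 5 1 = true := ex3_b s15_pm_202 k12_pm_202

theorem s17_pm_202 : ∃ t, chk3 f_pm_202 t 15 4 1 = true := ex3_a k7_pm_202 k8_pm_202

theorem s18_pm_202 : ∃ t, chk3 f_pm_202 t 7 4 1 = true := ex3_a k6_pm_202 s17_pm_202

theorem s19_pm_202 : ∃ t, chk3 f_pm_202 t 3 4 1 = true := ex3_a k5_pm_202 s18_pm_202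

theorem s20_pm_202 : ∃ t, chk3 f_pm_202 t 3 2 1 = true := ex3_b s19_pm_202 s16_pm_202

theorem s21_pm_202 : ∃ t, chk3 f_pm_202 t 3 1 1 = true := ex3_b s20_pm_202 k13_pm_202

theorem s22_pm_202 : ∃ t, chk3 f_pm_202 t 2 11 1 = true := ex3_a k2_pm_202 k3_pm_202

theorem s23_pm_202 : ∃ t, chk3 f_pm_202 t 2 5 1 = true := ex3_b k1_pm_202 s22_pm_202

theorem s24_pm_202 : ∃ t, chk3 f_pm_202 t 2 2 1 = true := ex3_b k0_pm_202 s23_pm_202

theorem s25_pm_202 : ∃ t, chk3 f_pm_202 t 2 1 1 = true := ex3_b s24_pm_202 k4_pm_202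

theorem s26_pm_202 : ∃ t, chk3 f_pm_202 t 1 1 1 = true := ex3_a s25_pm_202 s21_pm_202

theorem c_pm_202 : CertFX 0 536870912 67108864 469762048 1046898278 26843546 true true false .pp 2 0 2
    ndF0q2 ndF2q0 pcF2 Cut.none Ext.none :=
  certFX1 (fam := true) (s1 := true) (s2 := false) (a := 2) (b := 0) (c := 2) (cn := .pp) (n1 := ndF0q2) (n2 := ndF2q0) (pc := pcF2) (cut := Cut.none) (xt := Ext.none) (P1 := 0) (W1 := 536870912) (P2 := 67108864) (W2 := 469762048) (P3 := 1046898278) (W3 := 26843546)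
    rfl (fun _ => rfl) s26_pm_202

noncomputable def f_pm_203 : ℕ → ℕ → ℕ → ℕ → Bool := onCell 0 536870912 1610612736 536870912 1046898278 26843546
    (rowFX 1 true true false .up 2 0 3 (qsf 0 536870912 67108864 469762048 3) ndF0q2 ndF2q0 pcF3 Cut.none Ext.none)

def k0_pm_203 : ∃ t, chk3 f_pm_203 t 1 1 1 = true :=
  ⟨(b (a (b (a (a (b (b (c (l 16777216) (l 16777216)) (l 4)) (l 4)) (b (c (b (l 16777216) (l 16777216)) (c (l 16777216) (l 16777216))) (b (c (l 16777216) (l 16777216)) (l 4)))) (a (b (c (l 16777216) (l 16777216)) (c (b (l 16777216) (l 16777216)) (b (l 16777216) (l 16777216)))) (b (c (l 16777216) (l 16777216)) (c (l 16777216) (b (l 16777216) (l 16777216)))))) (b (a (l 4) (a (l 4) (b (c (l 16777216) (l 16777216)) (l 2)))) (l 2))) (b (a (b (a (c (l 16777216) (l 16777216)) (c (a (l 16729216) (l 16592424)) (a (l 16727968) (l 16587624)))) (c (a (l 16777216) (l 16662200)) (a (l 16777216) (l 16659216)))) (a (b (c (l 16347472) (l 16315336)) (c (l 16347472) (l 16273392))) (b (a (l 16030512)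 (l 15850984)) (l 2)))) (a (l 2) (l 2)))) (l 2)), by decide +kernel⟩

theorem c_pm_203 : CertFX 0 536870912 67108864 469762048 1046898278 26843546 true true false .up 2 0 3
    ndF0q2 ndF2q0 pcF3 Cut.none Ext.none :=
  certFX1 (fam := true) (s1 := true) (s2 := false) (a := 2) (b := 0) (c := 3) (cn := .up) (n1 := ndF0q2) (n2 := ndF2q0) (pc := pcF3) (cut := Cut.none) (xt := Ext.none) (P1 := 0) (W1 := 536870912) (P2 := 67108864) (W2 := 469762048) (P3 := 1046898278) (W3 := 26843546)
    rfl (fun _ => rfl) k0_pm_203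

noncomputable def f_pm_213 : ℕ → ℕ → ℕ → ℕ → Bool := onCell 0 536870912 1610612736 536870912 1046898278 26843546
    (rowFX 1 true true false .pnn 2 1 3 (qsf 0 536870912 536870912 536870912 3) ndF0q2 ndF2q1 pcF3 Cut.none Ext.none)

def k0_pm_213 : ∃ t, chk3 f_pm_213 t 1 1 1 = true :=
  ⟨(b (b (b (a (l 1) (a (l 1) (a (c (l 16347472) (l 396242944295)) (a (l 16030512) (l 15850984))))) (a (a (l 1) (a (l 1) (c (l 16777216) (l 295312556023)))) (a (c (a (l 16777216) (l 16662200)) (a (l 16777216) (l 16659216))) (a (c (l 16347472) (l 16252416)) (a (l 16030512) (l 15850984)))))) (b (a (a (l 4) (a (l 4) (c (b (l 16777216) (l 16777216)) (b (l 16777216) (l 16777216))))) (a (c (a (b (l 16777216) (l 16777216)) (l 16662200)) (a (b (l 16777216) (l 16777216)) (l 16659216))) (a (c (l 16347472) (l 16336304)) (c (l 15954576) (l 15952016))))) (a (l 4) (a (a (b (c (l 16777216) (l 16777216)) (l 4)) (c (b (l 16662200) (l 16662200)) (b (l 16659216) (l 16659216)))) (a (c (l 16347472) (l 16336304)) (c (l 15954576)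 (l 15952016))))))) (a (l 4) (b (a (b (a (l 4) (b (c (l 16662200) (l 16659216)) (l 4))) (l 4)) (a (b (b (c (l 16347472) (l 16336304)) (c (l 16347472) (l 16336304))) (l 4)) (b (c (b (l 15954576) (l 15956384)) (b (l 15952024) (l 15954128))) (a (b (c (l 16049344) (l 16031184)) (l 4)) (b (c (l 15860280) (l 15857704)) (c (l 15820680) (l 15861312))))))) (l 4)))), by decide +kernel⟩

theorem c_pm_213 : CertFX 0 536870912 536870912 536870912 1046898278 26843546 true true false .pnn 2 1 3
    ndF0q2 ndF2q1 pcF3 Cut.none Ext.none :=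
  certFX1 (fam := true) (s1 := true) (s2 := false) (a := 2) (b := 1) (c := 3) (cn := .pnn) (n1 := ndF0q2) (n2 := ndF2q1) (pc := pcF3) (cut := Cut.none) (xt := Ext.none) (P1 := 0) (W1 := 536870912) (P2 := 536870912) (W2 := 536870912) (P3 := 1046898278) (W3 := 26843546)
    rfl (fun _ => rfl) k0_pm_213

noncomputable def f_mm_001 : ℕ → ℕ → ℕ → ℕ → Bool := onCell 0 536870912 67108864 469762048 1046898278 26843546
    (rowFX 0 true false false .up 0 0 1 (qsf 0 536870912 67108864 469762048 1) ndF0q0 ndF2q0 pcF1 Cut.none Ext.none)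

def k0_mm_001 : ∃ t, chk3 f_mm_001 t 1 1 1 = true :=
  ⟨(l 4), by decide +kernel⟩

theorem c_mm_001 : CertFX 0 536870912 67108864 469762048 1046898278 26843546 true false false .up 0 0 1
    ndF0q0 ndF2q0 pcF1 Cut.none Ext.none :=
  certFX0 (fam := true) (s1 := false) (s2 := false) (a := 0) (b := 0) (c := 1) (cn := .up) (n1 := ndF0q0) (n2 := ndF2q0) (pc := pcF1) (cut := Cut.none) (xt := Ext.none) (P1 := 0) (W1 := 536870912) (P2 := 67108864) (W2 := 469762048) (P3 := 1046898278) (W3 := 26843546)
    rfl k0_mm_001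

noncomputable def f_mm_011 : ℕ → ℕ → ℕ → ℕ → Bool := onCell 0 536870912 536870912 536870912 1046898278 26843546
    (rowFX 0 true false false .pnn 0 1 1 (qsf 0 536870912 536870912 536870912 1) ndF0q0 ndF2q1 pcF1 Cut.none Ext.none)

def k0_mm_011 : ∃ t, chk3 f_mm_011 t 1 1 1 = true :=
  ⟨(l 4), by decide +kernel⟩

theorem c_mm_011 : CertFX 0 536870912 536870912 536870912 1046898278 26843546 true false false .pnn 0 1 1
    ndF0q0 ndF2q1 pcF1 Cut.none Ext.none :=
  certFX0 (fam := true) (s1 := false) (s2 := false) (a := 0) (b := 1) (c := 1) (cn := .pnn) (n1 := ndF0q0) (n2 := ndF2q1) (pc := pcF1) (cut := Cut.none) (xt := Ext.none) (P1 := 0) (W1 := 536870912) (P2 := 536870912) (W2 := 536870912) (P3 := 1046898278) (W3 := 26843546)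
    rfl k0_mm_011

noncomputable def f_mm_012 : ℕ → ℕ → ℕ → ℕ → Bool := onCell 0 536870912 536870912 536870912 1046898278 26843546
    (rowFX 0 true false false .pnp 0 1 2 (qsf 0 536870912 536870912 536870912 2) ndF0q0 ndF2q1 pcF2 Cut.none Ext.none)

def k0_mm_012 : ∃ t, chk3 f_mm_012 t 1 1 1 = true :=
  ⟨(l 4), by decide +kernel⟩

theorem c_mm_012 : CertFX 0 536870912 536870912 536870912 1046898278 26843546 true false false .pnp 0 1 2
    ndF0q0 ndF2q1 pcF2 Cut.none Ext.none :=
  certFX0 (fam := true) (s1 := false) (s2 := false) (a := 0) (b := 1) (c := 2) (cn := .pnp) (n1 := ndF0q0) (n2 := ndF2q1) (pc := pcF2) (cut := Cut.none) (xt := Ext.none) (P1 := 0) (W1 := 536870912) (P2 := 536870912) (W2 := 536870912) (P3 := 1046898278) (W3 := 26843546)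
    rfl k0_mm_012

noncomputable def f_mm_022_a : ℕ → ℕ → ℕ → ℕ → Bool := onCell 0 536870912 0 420477299 1046898278 26843546
    (rowFX 0 true false false .pp 0 2 2 (qsf 0 536870912 0 420477299 2) ndF0q0 ndF2q2a pcF2 Cut.none Ext.none)

def k0_mm_022_a : ∃ t, chk3 f_mm_022_a t 1 1 1 = true :=
  ⟨(l 5), by decide +kernel⟩

theorem c_mm_022_a : CertFX 0 536870912 0 420477299 1046898278 26843546 true false false .pp 0 2 2
    ndF0q0 ndF2q2a pcF2 Cut.none Ext.none :=
  certFX0 (fam := true) (s1 := false) (s2 := false) (a := 0) (b := 2) (c := 2) (cn := .pp) (n1 := ndF0q0) (n2 := ndF2q2a) (pc := pcF2) (cut := Cut.none) (xt := Ext.none) (P1 := 0) (W1 := 536870912) (P2 := 0) (W2 := 420477299) (P3 := 1046898278) (W3 := 26843546)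
    rfl k0_mm_022_a

noncomputable def f_mm_022_b : ℕ → ℕ → ℕ → ℕ → Bool := onCell 0 536870912 1239849684 370763052 1046898278 26843546
    (rowFX 0 true false false .pp 0 2 2 (qsf 0 536870912 1239849684 370763052 2) ndF0q0 ndF2q2b pcF2 Cut.none Ext.none)

def k0_mm_022_b : ∃ t, chk3 f_mm_022_b t 1 1 1 = true :=
  ⟨(l 5), by decide +kernel⟩

theorem c_mm_022_b : CertFX 0 536870912 1239849684 370763052 1046898278 26843546 true false false .pp 0 2 2
    ndF0q0 ndF2q2b pcF2 Cut.none Ext.none :=
  certFX0 (fam := true) (s1 := false) (s2 := false) (a := 0) (b := 2) (c := 2) (cn := .pp) (n1 := ndF0q0) (n2 := ndF2q2b) (pc := pcF2) (cut := Cut.none) (xt := Ext.none) (P1 := 0) (W1 := 536870912) (P2 := 1239849684) (W2 := 370763052) (P3 := 1046898278) (W3 := 26843546)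
    rfl k0_mm_022_b

noncomputable def f_mm_023_a : ℕ → ℕ → ℕ → ℕ → Bool := onCell 0 536870912 0 420477299 1046898278 26843546
    (rowFX 0 true false false .up 0 2 3 (qsf 0 536870912 0 420477299 3) ndF0q0 ndF2q2a pcF3 Cut.none Ext.none)

def k0_mm_023_a : ∃ t, chk3 f_mm_023_a t 1 1 1 = true :=
  ⟨(l 5), by decide +kernel⟩

theorem c_mm_023_a : CertFX 0 536870912 0 420477299 1046898278 26843546 true false false .up 0 2 3
    ndF0q0 ndF2q2a pcF3 Cut.none Ext.none :=
  certFX0 (fam := true) (s1 := false) (s2 := false) (a := 0) (b := 2) (c := 3) (cn := .up) (n1 := ndF0q0) (n2 := ndF2q2a) (pc := pcF3) (cut := Cut.none) (xt := Ext.none) (P1 := 0) (W1 := 536870912) (P2 := 0) (W2 := 420477299) (P3 := 1046898278) (W3 := 26843546)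
    rfl k0_mm_023_a

noncomputable def f_mm_023_b : ℕ → ℕ → ℕ → ℕ → Bool := onCell 0 536870912 1239849684 370763052 1046898278 26843546
    (rowFX 0 true false false .up 0 2 3 (qsf 0 536870912 1239849684 370763052 3) ndF0q0 ndF2q2b pcF3 Cut.none Ext.none)

def k0_mm_023_b : ∃ t, chk3 f_mm_023_b t 1 1 1 = true :=
  ⟨(l 5), by decide +kernel⟩

theorem c_mm_023_b : CertFX 0 536870912 1239849684 370763052 1046898278 26843546 true false false .up 0 2 3
    ndF0q0 ndF2q2b pcF3 Cut.none Ext.none :=
  certFX0 (fam := true) (s1 := false) (s2 := false) (a := 0) (b := 2) (c := 3) (cn := .up) (n1 := ndF0q0) (n2 := ndF2q2b) (pc := pcF3) (cut := Cut.none) (xt := Ext.none) (P1 := 0) (W1 := 536870912) (P2 := 1239849684) (W2 := 370763052) (P3 := 1046898278) (W3 := 26843546)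
    rfl k0_mm_023_b

noncomputable def f_mm_033 : ℕ → ℕ → ℕ → ℕ → Bool := onCell 0 536870912 1610612736 469762048 1046898278 26843546
    (rowFX 0 true false false .pnn 0 3 3 (qsf 0 536870912 1610612736 469762048 3) ndF0q0 ndF2q3 pcF3 Cut.none Ext.none)

def k0_mm_033 : ∃ t, chk3 f_mm_033 t 1 1 1 = true :=
  ⟨(l 5), by decide +kernel⟩

theorem c_mm_033 : CertFX 0 536870912 1610612736 469762048 1046898278 26843546 true false false .pnn 0 3 3
    ndF0q0 ndF2q3 pcF3 Cut.none Ext.none :=
  certFX0 (fam := true) (s1 := false) (s2 := false) (a := 0) (b := 3) (c := 3) (cn := .pnn) (n1 := ndF0q0) (n2 := ndF2q3) (pc := pcF3) (cut := Cut.none) (xt := Ext.none) (P1 := 0) (W1 := 536870912) (P2 := 1610612736) (W2 := 469762048) (P3 := 1046898278) (W3 := 26843546)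
    rfl k0_mm_033

noncomputable def f_mm_101 : ℕ → ℕ → ℕ → ℕ → Bool := onCell 536870912 536870912 67108864 469762048 1046898278 26843546
    (rowFX 2 true false false .npn 1 0 1 (qsf 536870912 536870912 67108864 469762048 1) ndF0q1 ndF2q0 pcF1 Cut.none Ext.none)

def k0_mm_101 : ∃ t, chk3 f_mm_101 t 1 1 1 = true :=
  ⟨(l 4), by decide +kernel⟩

theorem c_mm_101 : CertFX 536870912 536870912 67108864 469762048 1046898278 26843546 true false false .npn 1 0 1
    ndF0q1 ndF2q0 pcF1 Cut.none Ext.none :=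
  certFX2 (fam := true) (s1 := false) (s2 := false) (a := 1) (b := 0) (c := 1) (cn := .npn) (n1 := ndF0q1) (n2 := ndF2q0) (pc := pcF1) (cut := Cut.none) (xt := Ext.none) (P1 := 536870912) (W1 := 536870912) (P2 := 67108864) (W2 := 469762048) (P3 := 1046898278) (W3 := 26843546)
    rfl (fun _ => rfl) k0_mm_101

noncomputable def f_mm_102 : ℕ → ℕ → ℕ → ℕ → Bool := onCell 536870912 536870912 67108864 469762048 1046898278 26843546
    (rowFX 0 true false false .npp 1 0 2 (qsf 536870912 536870912 67108864 469762048 2) ndF0q1 ndF2q0 pcF2 Cut.none Ext.none)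

def k0_mm_102 : ∃ t, chk3 f_mm_102 t 1 1 1 = true :=
  ⟨(a (l 4) (l 4)), by decide +kernel⟩

theorem c_mm_102 : CertFX 536870912 536870912 67108864 469762048 1046898278 26843546 true false false .npp 1 0 2
    ndF0q1 ndF2q0 pcF2 Cut.none Ext.none :=
  certFX0 (fam := true) (s1 := false) (s2 := false) (a := 1) (b := 0) (c := 2) (cn := .npp) (n1 := ndF0q1) (n2 := ndF2q0) (pc := pcF2) (cut := Cut.none) (xt := Ext.none) (P1 := 536870912) (W1 := 536870912) (P2 := 67108864) (W2 := 469762048) (P3 := 1046898278) (W3 := 26843546)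
    rfl k0_mm_102

noncomputable def f_mm_112 : ℕ → ℕ → ℕ → ℕ → Bool := onCell 536870912 536870912 536870912 536870912 1046898278 26843546
    (rowFX 0 true false false .dn 1 1 2 (qsf 536870912 536870912 536870912 536870912 2) ndF0q1 ndF2q1 pcF2 Cut.none Ext.none)

def k0_mm_112 : ∃ t, chk3 f_mm_112 t 1 1 1 = true :=
  ⟨(l 4), by decide +kernel⟩

theorem c_mm_112 : CertFX 536870912 536870912 536870912 536870912 1046898278 26843546 true false false .dn 1 1 2
    ndF0q1 ndF2q1 pcF2 Cut.none Ext.none :=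
  certFX0 (fam := true) (s1 := false) (s2 := false) (a := 1) (b := 1) (c := 2) (cn := .dn) (n1 := ndF0q1) (n2 := ndF2q1) (pc := pcF2) (cut := Cut.none) (xt := Ext.none) (P1 := 536870912) (W1 := 536870912) (P2 := 536870912) (W2 := 536870912) (P3 := 1046898278) (W3 := 26843546)
    rfl k0_mm_112

noncomputable def f_mm_113 : ℕ → ℕ → ℕ → ℕ → Bool := onCell 536870912 536870912 536870912 536870912 1046898278 26843546
    (rowFX 0 true false false .nn 1 1 3 (qsf 536870912 536870912 536870912 536870912 3) ndF0q1 ndF2q1 pcF3 Cut.none Ext.none)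

def k0_mm_113 : ∃ t, chk3 f_mm_113 t 1 1 1 = true :=
  ⟨(l 4), by decide +kernel⟩

theorem c_mm_113 : CertFX 536870912 536870912 536870912 536870912 1046898278 26843546 true false false .nn 1 1 3
    ndF0q1 ndF2q1 pcF3 Cut.none Ext.none :=
  certFX0 (fam := true) (s1 := false) (s2 := false) (a := 1) (b := 1) (c := 3) (cn := .nn) (n1 := ndF0q1) (n2 := ndF2q1) (pc := pcF3) (cut := Cut.none) (xt := Ext.none) (P1 := 536870912) (W1 := 536870912) (P2 := 536870912) (W2 := 536870912) (P3 := 1046898278) (W3 := 26843546)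
    rfl k0_mm_113

noncomputable def f_mm_123_a : ℕ → ℕ → ℕ → ℕ → Bool := onCell 536870912 536870912 0 420477299 1046898278 26843546
    (rowFX 0 true false false .npn 1 2 3 (qsf 536870912 536870912 0 420477299 3) ndF0q1 ndF2q2a pcF3 Cut.none Ext.none)

def k0_mm_123_a : ∃ t, chk3 f_mm_123_a t 1 1 1 = true :=
  ⟨(l 4), by decide +kernel⟩

theorem c_mm_123_a : CertFX 536870912 536870912 0 420477299 1046898278 26843546 true false false .npn 1 2 3
    ndF0q1 ndF2q2a pcF3 Cut.none Ext.none :=
  certFX0 (fam := true) (s1 := false) (s2 := false) (a := 1) (b := 2) (c := 3) (cn := .npn) (n1 := ndF0q1) (n2 := ndF2q2a) (pc := pcF3) (cut := Cut.none) (xt := Ext.none) (P1 := 536870912) (W1 := 536870912) (P2 := 0) (W2 := 420477299) (P3 := 1046898278) (W3 := 26843546)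
    rfl k0_mm_123_a

noncomputable def f_mm_123_b : ℕ → ℕ → ℕ → ℕ → Bool := onCell 536870912 536870912 1239849684 370763052 1046898278 26843546
    (rowFX 0 true false false .npn 1 2 3 (qsf 536870912 536870912 1239849684 370763052 3) ndF0q1 ndF2q2b pcF3 Cut.none Ext.none)

def k0_mm_123_b : ∃ t, chk3 f_mm_123_b t 1 1 1 = true :=
  ⟨(l 4), by decide +kernel⟩

theorem c_mm_123_b : CertFX 536870912 536870912 1239849684 370763052 1046898278 26843546 true false false .npn 1 2 3
    ndF0q1 ndF2q2b pcF3 Cut.none Ext.none :=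
  certFX0 (fam := true) (s1 := false) (s2 := false) (a := 1) (b := 2) (c := 3) (cn := .npn) (n1 := ndF0q1) (n2 := ndF2q2b) (pc := pcF3) (cut := Cut.none) (xt := Ext.none) (P1 := 536870912) (W1 := 536870912) (P2 := 1239849684) (W2 := 370763052) (P3 := 1046898278) (W3 := 26843546)
    rfl k0_mm_123_b

noncomputable def f_mm_133 : ℕ → ℕ → ℕ → ℕ → Bool := onCell 536870912 536870912 1610612736 469762048 1046898278 26843546
    (rowFX 0 true false false .dn 1 3 3 (qsf 536870912 536870912 1610612736 469762048 3) ndF0q1 ndF2q3 pcF3 Cut.none Ext.none)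

def k0_mm_133 : ∃ t, chk3 f_mm_133 t 1 1 1 = true :=
  ⟨(l 4), by decide +kernel⟩

theorem c_mm_133 : CertFX 536870912 536870912 1610612736 469762048 1046898278 26843546 true false false .dn 1 3 3
    ndF0q1 ndF2q3 pcF3 Cut.none Ext.none :=
  certFX0 (fam := true) (s1 := false) (s2 := false) (a := 1) (b := 3) (c := 3) (cn := .dn) (n1 := ndF0q1) (n2 := ndF2q3) (pc := pcF3) (cut := Cut.none) (xt := Ext.none) (P1 := 536870912) (W1 := 536870912) (P2 := 1610612736) (W2 := 469762048) (P3 := 1046898278) (W3 := 26843546)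
    rfl k0_mm_133

noncomputable def f_mm_202 : ℕ → ℕ → ℕ → ℕ → Bool := onCell 0 536870912 67108864 469762048 1046898278 26843546
    (rowFX 0 true false false .pp 2 0 2 (qsf 0 536870912 67108864 469762048 2) ndF0q2 ndF2q0 pcF2 Cut.none Ext.none)

def k0_mm_202 : ∃ t, chk3 f_mm_202 t 2 4 1 = true :=
  ⟨(c (a (b (b (a (b (c (b (a (l 15591088) (l 15668880)) (l 15703224)) (a (l 15615680) (l 15688816))) (c (l 15831408) (l 15819320))) (b (a (b (l 15690496) (l 15798656)) (b (l 15861600) (c (l 15889376) (l 15878392)))) (c (l 15956040) (l 15945824)))) (a (c (l 16045536) (l 16036256)) (c (l 16145296) (l 16137504)))) (a (b (l 16148336) (l 16304864)) (b (a (l 16259128) (l 16300120)) (c (l 16386120) (l 16381136))))) (b (b (a (b (a (l 15944144) (l 16113920)) (a (l 16043680) (b (l 16140408) (l 16184184)))) (a (b (l 16248456) (a (l 16252016) (l 16319240))) (b (l 16387264) (l 16426024)))) (b (a (l 16191896) (a (l 16242992) (b (l 16404416) (a (l 16472416) (l 16533456))))) (a (l 16309632) (l 16419936))))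 (a (b (l 16318112) (a (l 16432936) (l 16481104))) (b (a (l 16488440) (l 16558720)) (a (l 16520976) (b (l 16603592) (l 16617616))))))) (a (b (b (a (a (b (l 15572584) (l 15771192)) (b (b (l 15633536) (l 15702584)) (l 15831504))) (b (a (b (l 15727488) (l 15774024)) (b (l 15838920) (l 15861984))) (c (l 15935640) (l 15925448)))) (a (c (l 16026976) (l 16017688)) (a (l 16097104) (l 16155248)))) (a (b (l 16196952) (l 16293832)) (b (a (l 16246248) (l 16288456)) (c (l 16376160) (l 16371184))))) (b (a (b (b (a (l 15966376) (l 16098008)) (a (l 16047512) (b (l 16125640) (l 16170440)))) (a (l 16222464) (l 16301032))) (b (a (b (l 16236504) (a (l 16240408) (l 16309616))) (b (l 16379360) (l 16419552))) (b (a (l 16255320) (b (l 16398800) (a (l 16466728) (l 16529600)))) (l 16351360)))) (a (b (l 16287864) (c (l 16450656) (l 16446736))) (b (a (l 16482368) (l 16555408)) (a (b (l 16522992) (l 16549960)) (b (l 16600384) (l 16614376)))))))), by decide +kernel⟩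

def k1_mm_202 : ∃ t, chk3 f_mm_202 t 2 5 1 = true :=
  ⟨(a (b (c (a (b (l 16516888) (l 16676936)) (b (c (l 16523664) (l 16520360)) (c (l 16719256) (l 16718504)))) (a (c (l 16490168) (l 16488112)) (b (c (l 16517056) (l 16513744)) (c (l 16717744) (l 16716984))))) (b (c (a (l 16777216) (c (l 16777216) (l 16777216))) (a (l 16777216) (c (l 16777216) (l 16777216)))) (a (c (l 16777216) (l 16777216)) (a (c (l 16777216) (l 16777216)) (l 4))))) (b (a (b (c (a (l 16533504) (b (l 16525704) (l 16576032))) (a (l 16527216) (b (l 16519344) (l 16570824)))) (c (c (l 16719256) (l 16718504)) (c (l 16717744) (l 16716984)))) (a (b (b (c (l 16574400) (l 16569456)) (l 4)) (l 4)) (l 4))) (a (l 4) (l 4)))), by decide +kernel⟩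

def k2_mm_202 : ∃ t, chk3 f_mm_202 t 3 2 1 = true :=
  ⟨(b (a (b (b (a (c (a (b (l 16528880) (l 16569192)) (b (l 16566920) (l 16583368))) (a (b (l 16525056) (l 16566936)) (b (l 16566384) (l 16581416)))) (a (c (b (a (l 16516528) (l 16516568)) (a (l 16515256) (l 16521768))) (b (l 16459704) (a (l 16510840) (l 16517176)))) (a (c (b (l 16521888) (l 16534104)) (b (l 16518184) (l 16529480))) (b (b (c (a (b (l 16521536) (l 16526200)) (b (l 16527856) (l 16532032))) (a (b (l 16517232) (l 16521720)) (b (l 16523528) (l 16527512)))) (c (l 16535368) (l 16530824))) (l 4))))) (b (a (c (a (l 16456096) (l 16520952)) (a (a (l 16585120) (l 16653464)) (l 16517696))) (a (c (a (l 16497224) (l 16512328)) (a (l 16491648) (l 16506840))) (l 4))) (a (a (c (a (l 16623024) (l 16524704)) (a (l 16621616) (b (l 16650176) (l 16650080)))) (b (c (l 16563064) (l 16559448)) (a (c (l 16595264) (l 16592560)) (l 4)))) (l 4)))) (a (b (a (c (b (l 16676360) (l 16680872)) (b (l 16676264) (l 16680512))) (a (c (l 16633160) (l 16631192))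 (l 4))) (l 4)) (l 4))) (a (b (b (a (b (a (b (c (l 16538616) (l 16534240)) (l 4)) (l 4)) (l 4)) (l 4)) (l 4)) (l 4)) (l 4))) (l 4)), by decide +kernel⟩

def k3_mm_202 : ∃ t, chk3 f_mm_202 t 1 3 1 = true :=
  ⟨(b (a (a (a (b (c (c (l 16777216) (l 16777216)) (c (l 16777216) (l 16777216))) (l 4)) (l 4)) (l 4)) (l 4)) (l 4)), by decide +kernel⟩

theorem s4_mm_202 : ∃ t, chk3 f_mm_202 t 2 2 1 = true := ex3_b k0_mm_202 k1_mm_202

theorem s5_mm_202 : ∃ t, chk3 f_mm_202 t 1 2 1 = true := ex3_a s4_mm_202 k2_mm_202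

theorem s6_mm_202 : ∃ t, chk3 f_mm_202 t 1 1 1 = true := ex3_b s5_mm_202 k3_mm_202

theorem c_mm_202 : CertFX 0 536870912 67108864 469762048 1046898278 26843546 true false false .pp 2 0 2
    ndF0q2 ndF2q0 pcF2 Cut.none Ext.none :=
  certFX0 (fam := true) (s1 := false) (s2 := false) (a := 2) (b := 0) (c := 2) (cn := .pp) (n1 := ndF0q2) (n2 := ndF2q0) (pc := pcF2) (cut := Cut.none) (xt := Ext.none) (P1 := 0) (W1 := 536870912) (P2 := 67108864) (W2 := 469762048) (P3 := 1046898278) (W3 := 26843546)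
    rfl s6_mm_202

noncomputable def f_mm_203 : ℕ → ℕ → ℕ → ℕ → Bool := onCell 0 536870912 1610612736 536870912 1046898278 26843546
    (rowFX 1 true false false .up 2 0 3 (qsf 0 536870912 67108864 469762048 3) ndF0q2 ndF2q0 pcF3 Cut.none Ext.none)

def k0_mm_203 : ∃ t, chk3 f_mm_203 t 1 1 1 = true :=
  ⟨(b (a (l 4) (l 4)) (l 2)), by decide +kernel⟩

theorem c_mm_203 : CertFX 0 536870912 67108864 469762048 1046898278 26843546 true false false .up 2 0 3
    ndF0q2 ndF2q0 pcF3 Cut.none Ext.none :=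
  certFX1 (fam := true) (s1 := false) (s2 := false) (a := 2) (b := 0) (c := 3) (cn := .up) (n1 := ndF0q2) (n2 := ndF2q0) (pc := pcF3) (cut := Cut.none) (xt := Ext.none) (P1 := 0) (W1 := 536870912) (P2 := 67108864) (W2 := 469762048) (P3 := 1046898278) (W3 := 26843546)
    rfl (fun _ => rfl) k0_mm_203

noncomputable def f_mm_213 : ℕ → ℕ → ℕ → ℕ → Bool := onCell 0 536870912 536870912 536870912 1046898278 26843546
    (rowFX 0 true false false .pnn 2 1 3 (qsf 0 536870912 536870912 536870912 3) ndF0q2 ndF2q1 pcF3 Cut.none Ext.none)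

def k0_mm_213 : ∃ t, chk3 f_mm_213 t 1 1 1 = true :=
  ⟨(l 4), by decide +kernel⟩

theorem c_mm_213 : CertFX 0 536870912 536870912 536870912 1046898278 26843546 true false false .pnn 2 1 3
    ndF0q2 ndF2q1 pcF3 Cut.none Ext.none :=
  certFX0 (fam := true) (s1 := false) (s2 := false) (a := 2) (b := 1) (c := 3) (cn := .pnn) (n1 := ndF0q2) (n2 := ndF2q1) (pc := pcF3) (cut := Cut.none) (xt := Ext.none) (P1 := 0) (W1 := 536870912) (P2 := 536870912) (W2 := 536870912) (P3 := 1046898278) (W3 := 26843546)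
    rfl k0_mm_213

end Pool.Agent.Strip051.G.IE1.Tab.C.FA02

namespace Pool.Agent.Strip051.G.IE1.Tab.C.FA03

open Pool.Agent.Strip051.PB Pool.Agent.Strip051.PB.T
open Pool.Agent.Strip051.G.IE1.Tab

noncomputable def f_pp_001 : ℕ → ℕ → ℕ → ℕ → Bool := onCell 0 536870912 0 536870912 1046898278 26843546
    (rowFX 0 true true true .up 0 0 1 (qsf 0 536870912 0 536870912 1) ndF0q0 ndF3q0 pcF1 Cut.none Ext.none)

def k0_pp_001 : ∃ t, chk3 f_pp_001 t 1 1 1 = true :=
  ⟨(l 4), by decide +kernel⟩

theorem c_pp_001 : CertFX 0 536870912 0 536870912 1046898278 26843546 true true true .up 0 0 1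
    ndF0q0 ndF3q0 pcF1 Cut.none Ext.none :=
  certFX0 (fam := true) (s1 := true) (s2 := true) (a := 0) (b := 0) (c := 1) (cn := .up) (n1 := ndF0q0) (n2 := ndF3q0) (pc := pcF1) (cut := Cut.none) (xt := Ext.none) (P1 := 0) (W1 := 536870912) (P2 := 0) (W2 := 536870912) (P3 := 1046898278) (W3 := 26843546)
    rfl k0_pp_001

noncomputable def f_pp_011 : ℕ → ℕ → ℕ → ℕ → Bool := onCell 0 536870912 536870912 536870912 1046898278 26843546
    (rowFX 0 true true true .pnn 0 1 1 (qsf 0 536870912 536870912 536870912 1) ndF0q0 ndF3q1 pcF1 Cut.none Ext.none)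

def k0_pp_011 : ∃ t, chk3 f_pp_011 t 1 1 1 = true :=
  ⟨(l 4), by decide +kernel⟩

theorem c_pp_011 : CertFX 0 536870912 536870912 536870912 1046898278 26843546 true true true .pnn 0 1 1
    ndF0q0 ndF3q1 pcF1 Cut.none Ext.none :=
  certFX0 (fam := true) (s1 := true) (s2 := true) (a := 0) (b := 1) (c := 1) (cn := .pnn) (n1 := ndF0q0) (n2 := ndF3q1) (pc := pcF1) (cut := Cut.none) (xt := Ext.none) (P1 := 0) (W1 := 536870912) (P2 := 536870912) (W2 := 536870912) (P3 := 1046898278) (W3 := 26843546)
    rfl k0_pp_011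

noncomputable def f_pp_012 : ℕ → ℕ → ℕ → ℕ → Bool := onCell 0 536870912 536870912 536870912 1046898278 26843546
    (rowFX 0 true true true .pnp 0 1 2 (qsf 0 536870912 536870912 536870912 2) ndF0q0 ndF3q1 pcF2 Cut.none Ext.none)

def k0_pp_012 : ∃ t, chk3 f_pp_012 t 1 1 1 = true :=
  ⟨(l 4), by decide +kernel⟩

theorem c_pp_012 : CertFX 0 536870912 536870912 536870912 1046898278 26843546 true true true .pnp 0 1 2
    ndF0q0 ndF3q1 pcF2 Cut.none Ext.none :=
  certFX0 (fam := true) (s1 := true) (s2 := true) (a := 0) (b := 1) (c := 2) (cn := .pnp) (n1 := ndF0q0) (n2 := ndF3q1) (pc := pcF2) (cut := Cut.none) (xt := Ext.none) (P1 := 0) (W1 := 536870912) (P2 := 536870912) (W2 := 536870912) (P3 := 1046898278) (W3 := 26843546)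
    rfl k0_pp_012

noncomputable def cut_pp_022 : Cut := Cut.of [[⟨0, 0, 0, 67108864⟩, ⟨1, 1, 0, 67108864⟩, ⟨2, 1, 0, 67108864⟩]]

noncomputable def f_pp_022 : ℕ → ℕ → ℕ → ℕ → Bool := onCell 0 536870912 1073741824 536870912 1046898278 26843546
    (rowFX 0 true true true .pp 0 2 2 (qsf 0 536870912 1073741824 536870912 2) ndF0q0 ndF3q2 pcF2 cut_pp_022 Ext.none)

def k0_pp_022 : ∃ t, chk3 f_pp_022 t 1 1 1 = true :=
  ⟨(b (a (a (b (a (b (a (a (b (l 6) (l 4)) (l 4)) (l 4)) (l 4)) (l 4)) (l 4)) (l 4)) (l 4)) (l 4)), by decide +kernel⟩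

theorem c_pp_022 : CertFX 0 536870912 1073741824 536870912 1046898278 26843546 true true true .pp 0 2 2
    ndF0q0 ndF3q2 pcF2 cut_pp_022 Ext.none :=
  certFX0 (fam := true) (s1 := true) (s2 := true) (a := 0) (b := 2) (c := 2) (cn := .pp) (n1 := ndF0q0) (n2 := ndF3q2) (pc := pcF2) (cut := cut_pp_022) (xt := Ext.none) (P1 := 0) (W1 := 536870912) (P2 := 1073741824) (W2 := 536870912) (P3 := 1046898278) (W3 := 26843546)
    rfl k0_pp_022

noncomputable def f_pp_023 : ℕ → ℕ → ℕ → ℕ → Bool := onCell 0 536870912 1610612736 536870912 1046898278 26843546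
    (rowFX 1 true true true .up 0 2 3 (qsf 0 536870912 1073741824 536870912 3) ndF0q0 ndF3q2 pcF3 Cut.none Ext.none)

def k0_pp_023 : ∃ t, chk3 f_pp_023 t 1 1 1 = true :=
  ⟨(b (l 4) (l 4)), by decide +kernel⟩

theorem c_pp_023 : CertFX 0 536870912 1073741824 536870912 1046898278 26843546 true true true .up 0 2 3
    ndF0q0 ndF3q2 pcF3 Cut.none Ext.none :=
  certFX1 (fam := true) (s1 := true) (s2 := true) (a := 0) (b := 2) (c := 3) (cn := .up) (n1 := ndF0q0) (n2 := ndF3q2) (pc := pcF3) (cut := Cut.none) (xt := Ext.none) (P1 := 0) (W1 := 536870912) (P2 := 1073741824) (W2 := 536870912) (P3 := 1046898278) (W3 := 26843546)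
    rfl (fun _ => rfl) k0_pp_023

noncomputable def f_pp_033 : ℕ → ℕ → ℕ → ℕ → Bool := onCell 0 536870912 1610612736 536870912 1046898278 26843546
    (rowFX 0 true true true .pnn 0 3 3 (qsf 0 536870912 1610612736 536870912 3) ndF0q0 ndF3q3 pcF3 Cut.none Ext.none)

def k0_pp_033 : ∃ t, chk3 f_pp_033 t 1 1 1 = true :=
  ⟨(l 4), by decide +kernel⟩

theorem c_pp_033 : CertFX 0 536870912 1610612736 536870912 1046898278 26843546 true true true .pnn 0 3 3
    ndF0q0 ndF3q3 pcF3 Cut.none Ext.none :=
  certFX0 (fam := true) (s1 := true) (s2 := true) (a := 0) (b := 3) (c := 3) (cn := .pnn) (n1 := ndF0q0) (n2 := ndF3q3) (pc := pcF3) (cut := Cut.none) (xt := Ext.none) (P1 := 0) (W1 := 536870912) (P2 := 1610612736) (W2 := 536870912) (P3 := 1046898278) (W3 := 26843546)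
    rfl k0_pp_033

noncomputable def f_pp_101 : ℕ → ℕ → ℕ → ℕ → Bool := onCell 536870912 536870912 0 536870912 1046898278 26843546
    (rowFX 0 true true true .npn 1 0 1 (qsf 536870912 536870912 0 536870912 1) ndF0q1 ndF3q0 pcF1 Cut.none Ext.none)

def k0_pp_101 : ∃ t, chk3 f_pp_101 t 1 1 1 = true :=
  ⟨(l 5), by decide +kernel⟩

theorem c_pp_101 : CertFX 536870912 536870912 0 536870912 1046898278 26843546 true true true .npn 1 0 1
    ndF0q1 ndF3q0 pcF1 Cut.none Ext.none :=
  certFX0 (fam := true) (s1 := true) (s2 := true) (a := 1) (b := 0) (c := 1) (cn := .npn) (n1 := ndF0q1) (n2 := ndF3q0) (pc := pcF1) (cut := Cut.none) (xt := Ext.none) (P1 := 536870912) (W1 := 536870912) (P2 := 0) (W2 := 536870912) (P3 := 1046898278) (W3 := 26843546)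
    rfl k0_pp_101

noncomputable def f_pp_102 : ℕ → ℕ → ℕ → ℕ → Bool := onCell 536870912 536870912 0 536870912 1046898278 26843546
    (rowFX 0 true true true .npp 1 0 2 (qsf 536870912 536870912 0 536870912 2) ndF0q1 ndF3q0 pcF2 Cut.none Ext.none)

def k0_pp_102 : ∃ t, chk3 f_pp_102 t 1 1 1 = true :=
  ⟨(l 5), by decide +kernel⟩

theorem c_pp_102 : CertFX 536870912 536870912 0 536870912 1046898278 26843546 true true true .npp 1 0 2
    ndF0q1 ndF3q0 pcF2 Cut.none Ext.none :=
  certFX0 (fam := true) (s1 := true) (s2 := true) (a := 1) (b := 0) (c := 2) (cn := .npp) (n1 := ndF0q1) (n2 := ndF3q0) (pc := pcF2) (cut := Cut.none) (xt := Ext.none) (P1 := 536870912) (W1 := 536870912) (P2 := 0) (W2 := 536870912) (P3 := 1046898278) (W3 := 26843546)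
    rfl k0_pp_102

noncomputable def f_pp_112 : ℕ → ℕ → ℕ → ℕ → Bool := onCell 536870912 536870912 536870912 536870912 1046898278 26843546
    (rowFX 0 true true true .dn 1 1 2 (qsf 536870912 536870912 536870912 536870912 2) ndF0q1 ndF3q1 pcF2 Cut.none Ext.none)

def k0_pp_112 : ∃ t, chk3 f_pp_112 t 1 1 1 = true :=
  ⟨(l 4), by decide +kernel⟩

theorem c_pp_112 : CertFX 536870912 536870912 536870912 536870912 1046898278 26843546 true true true .dn 1 1 2
    ndF0q1 ndF3q1 pcF2 Cut.none Ext.none :=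
  certFX0 (fam := true) (s1 := true) (s2 := true) (a := 1) (b := 1) (c := 2) (cn := .dn) (n1 := ndF0q1) (n2 := ndF3q1) (pc := pcF2) (cut := Cut.none) (xt := Ext.none) (P1 := 536870912) (W1 := 536870912) (P2 := 536870912) (W2 := 536870912) (P3 := 1046898278) (W3 := 26843546)
    rfl k0_pp_112

noncomputable def f_pp_113 : ℕ → ℕ → ℕ → ℕ → Bool := onCell 536870912 536870912 536870912 536870912 1046898278 26843546
    (rowFX 0 true true true .nn 1 1 3 (qsf 536870912 536870912 536870912 536870912 3) ndF0q1 ndF3q1 pcF3 Cut.none Ext.none)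

def k0_pp_113 : ∃ t, chk3 f_pp_113 t 1 1 1 = true :=
  ⟨(l 4), by decide +kernel⟩

theorem c_pp_113 : CertFX 536870912 536870912 536870912 536870912 1046898278 26843546 true true true .nn 1 1 3
    ndF0q1 ndF3q1 pcF3 Cut.none Ext.none :=
  certFX0 (fam := true) (s1 := true) (s2 := true) (a := 1) (b := 1) (c := 3) (cn := .nn) (n1 := ndF0q1) (n2 := ndF3q1) (pc := pcF3) (cut := Cut.none) (xt := Ext.none) (P1 := 536870912) (W1 := 536870912) (P2 := 536870912) (W2 := 536870912) (P3 := 1046898278) (W3 := 26843546)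
    rfl k0_pp_113

noncomputable def f_pp_123 : ℕ → ℕ → ℕ → ℕ → Bool := onCell 536870912 536870912 1073741824 536870912 1046898278 26843546
    (rowFX 0 true true true .npn 1 2 3 (qsf 536870912 536870912 1073741824 536870912 3) ndF0q1 ndF3q2 pcF3 Cut.none Ext.none)

def k0_pp_123 : ∃ t, chk3 f_pp_123 t 1 1 1 = true :=
  ⟨(l 4), by decide +kernel⟩

theorem c_pp_123 : CertFX 536870912 536870912 1073741824 536870912 1046898278 26843546 true true true .npn 1 2 3
    ndF0q1 ndF3q2 pcF3 Cut.none Ext.none :=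
  certFX0 (fam := true) (s1 := true) (s2 := true) (a := 1) (b := 2) (c := 3) (cn := .npn) (n1 := ndF0q1) (n2 := ndF3q2) (pc := pcF3) (cut := Cut.none) (xt := Ext.none) (P1 := 536870912) (W1 := 536870912) (P2 := 1073741824) (W2 := 536870912) (P3 := 1046898278) (W3 := 26843546)
    rfl k0_pp_123

noncomputable def f_pp_133 : ℕ → ℕ → ℕ → ℕ → Bool := onCell 536870912 536870912 1610612736 536870912 1046898278 26843546
    (rowFX 0 true true true .dn 1 3 3 (qsf 536870912 536870912 1610612736 536870912 3) ndF0q1 ndF3q3 pcF3 Cut.none Ext.none)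

def k0_pp_133 : ∃ t, chk3 f_pp_133 t 1 1 1 = true :=
  ⟨(l 4), by decide +kernel⟩

theorem c_pp_133 : CertFX 536870912 536870912 1610612736 536870912 1046898278 26843546 true true true .dn 1 3 3
    ndF0q1 ndF3q3 pcF3 Cut.none Ext.none :=
  certFX0 (fam := true) (s1 := true) (s2 := true) (a := 1) (b := 3) (c := 3) (cn := .dn) (n1 := ndF0q1) (n2 := ndF3q3) (pc := pcF3) (cut := Cut.none) (xt := Ext.none) (P1 := 536870912) (W1 := 536870912) (P2 := 1610612736) (W2 := 536870912) (P3 := 1046898278) (W3 := 26843546)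
    rfl k0_pp_133

noncomputable def f_pp_202 : ℕ → ℕ → ℕ → ℕ → Bool := onCell 0 536870912 0 536870912 1046898278 26843546
    (rowFX 0 true true true .pp 2 0 2 (qsf 0 536870912 0 536870912 2) ndF0q2 ndF3q0 pcF2 Cut.none Ext.none)

def k0_pp_202 : ∃ t, chk3 f_pp_202 t 1 1 1 = true :=
  ⟨(l 5), by decide +kernel⟩

theorem c_pp_202 : CertFX 0 536870912 0 536870912 1046898278 26843546 true true true .pp 2 0 2
    ndF0q2 ndF3q0 pcF2 Cut.none Ext.none :=
  certFX0 (fam := true) (s1 := true) (s2 := true) (a := 2) (b := 0) (c := 2) (cn := .pp) (n1 := ndF0q2) (n2 := ndF3q0) (pc := pcF2) (cut := Cut.none) (xt := Ext.none) (P1 := 0) (W1 := 536870912) (P2 := 0) (W2 := 536870912) (P3 := 1046898278) (W3 := 26843546)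
    rfl k0_pp_202

noncomputable def f_pp_203 : ℕ → ℕ → ℕ → ℕ → Bool := onCell 0 536870912 0 536870912 1046898278 26843546
    (rowFX 0 true true true .up 2 0 3 (qsf 0 536870912 0 536870912 3) ndF0q2 ndF3q0 pcF3 Cut.none Ext.none)

def k0_pp_203 : ∃ t, chk3 f_pp_203 t 1 1 1 = true :=
  ⟨(l 5), by decide +kernel⟩

theorem c_pp_203 : CertFX 0 536870912 0 536870912 1046898278 26843546 true true true .up 2 0 3
    ndF0q2 ndF3q0 pcF3 Cut.none Ext.none :=
  certFX0 (fam := true) (s1 := true) (s2 := true) (a := 2) (b := 0) (c := 3) (cn := .up) (n1 := ndF0q2) (n2 := ndF3q0) (pc := pcF3) (cut := Cut.none) (xt := Ext.none) (P1 := 0) (W1 := 536870912) (P2 := 0) (W2 := 536870912) (P3 := 1046898278) (W3 := 26843546)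
    rfl k0_pp_203

noncomputable def f_pp_213 : ℕ → ℕ → ℕ → ℕ → Bool := onCell 0 536870912 536870912 536870912 1046898278 26843546
    (rowFX 0 true true true .pnn 2 1 3 (qsf 0 536870912 536870912 536870912 3) ndF0q2 ndF3q1 pcF3 Cut.none Ext.none)

def k0_pp_213 : ∃ t, chk3 f_pp_213 t 1 1 1 = true :=
  ⟨(l 4), by decide +kernel⟩

theorem c_pp_213 : CertFX 0 536870912 536870912 536870912 1046898278 26843546 true true true .pnn 2 1 3
    ndF0q2 ndF3q1 pcF3 Cut.none Ext.none :=
  certFX0 (fam := true) (s1 := true) (s2 := true) (a := 2) (b := 1) (c := 3) (cn := .pnn) (n1 := ndF0q2) (n2 := ndF3q1) (pc := pcF3) (cut := Cut.none) (xt := Ext.none) (P1 := 0) (W1 := 536870912) (P2 := 536870912) (W2 := 536870912) (P3 := 1046898278) (W3 := 26843546)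
    rfl k0_pp_213

noncomputable def f_pm_001 : ℕ → ℕ → ℕ → ℕ → Bool := onCell 536870912 536870912 0 536870912 1046898278 26843546
    (rowFX 2 true true false .up 0 0 1 (qsf 0 536870912 0 536870912 1) ndF0q0 ndF3q0 pcF1 Cut.none Ext.none)

def k0_pm_001 : ∃ t, chk3 f_pm_001 t 1 1 1 = true :=
  ⟨(a (l 3) (a (l 3) (b (l 2) (a (l 3) (b (l 2) (a (l 3) (a (l 3) (a (l 3) (b (l 2) (b (l 2) (c (l 15781248) (c (l 15766296) (l 280412217191))))))))))))), by decide +kernel⟩

theorem c_pm_001 : CertFX 0 536870912 0 536870912 1046898278 26843546 true true false .up 0 0 1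
    ndF0q0 ndF3q0 pcF1 Cut.none Ext.none :=
  certFX2 (fam := true) (s1 := true) (s2 := false) (a := 0) (b := 0) (c := 1) (cn := .up) (n1 := ndF0q0) (n2 := ndF3q0) (pc := pcF1) (cut := Cut.none) (xt := Ext.none) (P1 := 0) (W1 := 536870912) (P2 := 0) (W2 := 536870912) (P3 := 1046898278) (W3 := 26843546)
    rfl (fun _ => rfl) k0_pm_001

noncomputable def cut_pm_011 : Cut := Cut.of [[⟨0, 0, 0, 67108864⟩, ⟨1, 1, 0, 67108864⟩, ⟨2, 1, 0, 67108864⟩]]

noncomputable def f_pm_011 : ℕ → ℕ → ℕ → ℕ → Bool := onCell 536870912 536870912 536870912 536870912 1046898278 26843546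
    (rowFX 2 true true false .pnn 0 1 1 (qsf 0 536870912 536870912 536870912 1) ndF0q0 ndF3q1 pcF1 cut_pm_011 Ext.none)

def k0_pm_011 : ∃ t, chk3 f_pm_011 t 2 1 1 = true :=
  ⟨(l 3), by decide +kernel⟩

def k1_pm_011 : ∃ t, chk3 f_pm_011 t 6 1 1 = true :=
  ⟨(l 3), by decide +kernel⟩

def k2_pm_011 : ∃ t, chk3 f_pm_011 t 14 1 1 = true :=
  ⟨(l 3), by decide +kernel⟩

def k3_pm_011 : ∃ t, chk3 f_pm_011 t 30 1 1 = true :=
  ⟨(l 3), by decide +kernel⟩

def k4_pm_011 : ∃ t, chk3 f_pm_011 t 31 2 1 = true :=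
  ⟨(a (l 3) (a (l 3) (a (b (l 3) (l 3)) (b (c (b (l 15774504) (l 275043663031)) (b (c (l 15755104) (c (l 15747624) (l 299202736903))) (c (l 15755104) (c (l 15747616) (l 304034575111))))) (c (b (b (l 15774480) (l 15774480)) (b (l 341615655255) (l 335710075223))) (b (c (l 315308933303) (c (l 15747616) (l 317456348567))) (c (b (l 15755088) (l 15755088)) (b (l 345373619671) (c (l 15747600) (l 364164130983)))))))))), by decide +kernel⟩

def k5_pm_011 : ∃ t, chk3 f_pm_011 t 31 3 1 = true :=
  ⟨(a (l 3) (a (l 3) (a (b (l 3) (l 3)) (a (b (l 3) (l 3)) (a (b (b (l 3) (l 3)) (b (l 3) (l 3))) (a (b (b (l 3) (l 3)) (b (l 3) (l 3))) (b (b (b (c (b (l 15768776) (c (l 15741360) (l 15727680))) (b (l 15722016) (c (l 15714000) (b (l 15726280) (l 15675064))))) (c (c (l 15575168) (l 15558744)) (c (b (l 15601976) (l 15481512)) (b (l 15586888) (l 15464560))))) (a (l 3) (b (c (c (l 15332776) (l 15312632)) (c (l 15187624) (b (l 15337776) (l 15143176)))) (c (b (b (b (l 15176840) (b (l 15151952) (l 15148096))) (l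 15206208)) (c (l 15360616) (l 15341224))) (b (b (c (b (l 15143464) (b (l 15118056) (l 15114144))) (b (l 15121400) (b (l 15095640) (c (l 15097168) (l 15086048))))) (c (l 15173672) (l 15152160))) (c (l 15321832) (b (l 15251952) (l 15353832)))))))) (b (a (l 3) (b (c (c (b (b (l 15508864) (l 15606064)) (c (b (l 15742016) (b (b (b (l 15751368) (l 283096731959)) (l 15773352)) (l 15793504))) (b (l 15692944) (l 15772736)))) (b (l 15540832) (b (l 15682248) (l 15762920)))) (b (c (l 15524488) (b (l 15457792) (l 15559432))) (b (l 15619128) (c (l 15749832) (l 15736928))))) (a (l 3) (c (b (c (b (l 15831496) (l 15886928)) (l 15847176)) (b (c (l 15944248) (l 15933552)) (c (l 16021960) (l 16011976)))) (b (l 15829456) (b (l 15917608) (c (l 16002336) (b (l 15970456) (c (l 16017464) (l 16012880)))))))))) (b (b (b (b (b (a (l 3) (b (c (b (l 16042504) (l 6)) (c (l 16051960) (c (l 16045224) (l 311551407255)))) (l 6))) (l 6)) (l 6)) (l 6)) (l 6)) (l 6)))))))))), by decide +kernel⟩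

theorem s6_pm_011 : ∃ t, chk3 f_pm_011 t 31 1 1 = true := ex3_b k4_pm_011 k5_pm_011

theorem s7_pm_011 : ∃ t, chk3 f_pm_011 t 15 1 1 = true := ex3_a k3_pm_011 s6_pm_011

theorem s8_pm_011 : ∃ t, chk3 f_pm_011 t 7 1 1 = true := ex3_a k2_pm_011 s7_pm_011

theorem s9_pm_011 : ∃ t, chk3 f_pm_011 t 3 1 1 = true := ex3_a k1_pm_011 s8_pm_011

theorem s10_pm_011 : ∃ t, chk3 f_pm_011 t 1 1 1 = true := ex3_a k0_pm_011 s9_pm_011

theorem c_pm_011 : CertFX 0 536870912 536870912 536870912 1046898278 26843546 true true false .pnn 0 1 1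
    ndF0q0 ndF3q1 pcF1 cut_pm_011 Ext.none :=
  certFX2 (fam := true) (s1 := true) (s2 := false) (a := 0) (b := 1) (c := 1) (cn := .pnn) (n1 := ndF0q0) (n2 := ndF3q1) (pc := pcF1) (cut := cut_pm_011) (xt := Ext.none) (P1 := 0) (W1 := 536870912) (P2 := 536870912) (W2 := 536870912) (P3 := 1046898278) (W3 := 26843546)
    rfl (fun _ => rfl) s10_pm_011

end Pool.Agent.Strip051.G.IE1.Tab.C.FA03

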