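import Pool.Agent.Strip051.G.IE1.Tab

/-! # Certificates F8 (generated) -/

set_option linter.all false
set_option maxRecDepth 100000

namespace Pool.Agent.Strip051.G.IE1.Tab.C.FA03

open Pool.Agent.Strip051.PB Pool.Agent.Strip051.PB.T
open Pool.Agent.Strip051.G.IE1.Tab

noncomputable def cut_pm_012 : Cut := Cut.of [[⟨0, 0, 0, 67108864⟩, ⟨1, 1, 0, 67108864⟩, ⟨2, 1, 0, 67108864⟩]]

noncomputable def f_pm_012 : ℕ → ℕ → ℕ → ℕ → Bool := onCell 1073741824 536870912 536870912 536870912 1046898278 26843546
    (rowFX 2 true true false .pnp 0 1 2 (qsf 0 536870912 536870912 536870912 2) ndF0q0 ndF3q1 pcF2 cut_pm_012 Ext.none)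

def k0_pm_012 : ∃ t, chk3 f_pm_012 t 16 2 2 = true :=
  ⟨(a (b (b (a (c (l 15831808) (a (l 15790488) (l 15851384))) (c (l 15934856) (l 15903760))) (a (c (l 15831192) (a (l 15790152) (l 15850096))) (c (l 15933008) (l 15901792)))) (b (a (a (b (l 15796768) (l 15796600)) (b (l 15855600) (l 15855024))) (c (l 15931288) (l 15899960))) (a (a (b (c (l 15802936) (l 15790152)) (c (l 15802752) (l 15789976))) (c (l 15861176) (b (l 15847976) (l 15847416)))) (c (l 15929656) (c (l 15909264) (l 15889040)))))) (b (c (b (l 15994112) (l 15992536)) (b (l 15946720) (l 15944744))) (b (c (l 15991072) (l 15942904)) (c (l 15989688) (l 15941168))))), by decide +kernel⟩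

def k1_pm_012 : ∃ t, chk3 f_pm_012 t 16 4 3 = true :=
  ⟨(a (c (a (b (a (b (l 15776768) (l 15776584)) (l 15806408)) (a (b (l 15776400) (l 15776224)) (c (l 15835056) (l 15818592)))) (b (l 15860264) (c (l 15871352) (l 15845664)))) (a (a (a (b (c (l 15752568) (c (l 15745216) (a (c (l 15737048) (l 15733600)) (b (l 15747224) (l 15747144))))) (c (l 15752400) (b (c (l 15745216) (c (l 15739976) (l 15736256))) (c (l 15745128) (c (l 15739880) (l 15736232)))))) (b (c (l 15779312) (c (l 15763976) (l 15754392))) (c (l 15778536) (c (l 15763192) (l 15754064))))) (b (c (l 15797416) (b (l 15778536) (l 15757280))) (c (l 15796008) (c (l 15780144) (l 15770792))))) (b (c (b (l 15831056) (l 15824648)) (l 15810768)) (c (b (l 15823504) (l 15822400)) (l 15809664))))) (c (b (c (l 15910840) (l 15853496)) (c (l 15908568) (l 15892152))) (b (c (l 15883400) (l 15875072)) (c (l 15882424) (l 15873288))))), by decide +kernel⟩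

def k2_pm_012 : ∃ t, chk3 f_pm_012 t 16 5 3 = true :=
  ⟨(a (c (a (b (a (b (l 15776056) (a (l 15762848) (l 15793224))) (b (l 15824776) (l 15824176))) (a (b (a (l 15762760) (l 15792896)) (a (l 15762672) (l 15792576))) (b (l 15823592) (l 15823016)))) (b (c (l 15869392) (l 15843608)) (b (l 15854384) (l 15853456)))) (a (a (a (b (c (b (l 15752448) (l 15752360)) (b (c (l 15745032) (c (l 15739800) (l 15736208))) (c (l 15744944) (a (c (l 15736784) (l 15733552)) (l 15746808))))) (c (b (l 15752264) (l 15752176)) (b (c (l 15744864) (a (c (l 15736744) (l 15733544)) (l 15746728))) (c (l 15744776) (c (l 15739552) (c (l 15736752) (l 15735112))))))) (b (c (l 15777824) (c (l 15762464) (l 15753776))) (c (b (l 15776928) (l 15776600)) (b (c (l 15761544) (l 15753352)) (c (l 15761216) (l 15753224)))))) (b (c (l 15794712) (c (l 15776680) (l 15770200))) (c (l 15793488) (c (l 15775424) (l 15769672))))) (b (c (b (l 15821336) (l 15820296)) (l 15808712)) (c (b (l 15819288) (l 15818304)) (b (l 15807824) (l 15807432)))))) (c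 (b (c (l 15906440) (l 15889912)) (c (l 15904440) (l 15824888))) (b (c (l 15881544) (l 15871792)) (c (l 15838736) (l 15870536))))), by decide +kernel⟩

def k3_pm_012 : ∃ t, chk3 f_pm_012 t 17 2 1 = true :=
  ⟨(b (c (c (a (l 16015872) (b (l 16015760) (l 16023648))) (a (b (l 15975632) (l 15976584)) (b (l 15993888) (l 16004392)))) (a (b (c (l 15955584) (l 15946312)) (c (l 15955872) (l 15946896))) (c (b (l 15999272) (l 16002744)) (b (l 15976512) (l 15984448))))) (c (c (a (b (l 16018080) (l 16019384)) (b (l 16030984) (l 16037904))) (a (b (l 15977480) (l 15978320)) (l 15951784))) (a (b (c (l 15956160) (l 15947368)) (c (l 15956472) (l 15947744))) (c (b (l 15984520) (l 15965960)) (b (l 16002568) (l 16008088)))))), by decide +kernel⟩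

def k4_pm_012 : ∃ t, chk3 f_pm_012 t 9 2 1 = true :=
  ⟨(a (b (a (c (c (b (l 15965936) (l 15982624)) (b (l 15892120) (l 15968432))) (c (b (l 15977040) (l 15989488)) (l 15942144))) (b (l 2) (c (c (l 15884600) (c (l 15877176) (l 15878768))) (l 15861280)))) (c (c (b (l 15957640) (l 15976432)) (b (a (l 15983888) (l 15796832)) (c (l 15968584) (l 15949808)))) (c (b (a (l 15998216) (l 15827352)) (a (l 15962552) (c (l 15923832) (l 15946384)))) (b (l 15925504) (l 15945032))))) (b (b (l 2) (c (a (c (c (l 15766312) (l 15768376)) (c (l 15769104) (l 15757336))) (c (c (l 15618112) (l 15615184)) (l 15597512))) (a (l 15740936) (l 15574680)))) (c (b (c (a (a (l 15841040) (l 15768288)) (c (l 15653168) (l 15656712))) (a (c (l 15799208) (l 15798528)) (c (l 15654456) (l 15641200)))) (c (a (l 15843416) (c (l 15706744) (l 15689888))) (a (c (l 15828888) (l 15768968)) (c (l 15693688) (l 15691024))))) (b (a (l 15778072) (l 15622936)) (a (c (a (c (l 15861888) (l 15848368)) (l 15787064)) (l 15806800)) (l 15668136)))))), by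 decide +kernel⟩

def k5_pm_012 : ∃ t, chk3 f_pm_012 t 16 6 2 = true :=
  ⟨(a (b (a (b (a (b (c (l 15802968) (l 15790184)) (b (c (l 15797504) (l 15784624)) (l 15689936))) (b (l 15853440) (b (l 15853160) (l 15791056)))) (a (b (c (l 15675944) (l 15640072)) (c (l 15559680) (l 15521952))) (c (l 15703600) (l 15624656)))) (b (c (l 15905808) (a (l 15884968) (l 15909464))) (c (a (l 15783552) (l 15844592)) (a (l 15755672) (l 15805136))))) (b (a (a (c (a (l 15354608) (l 15398752)) (a (b (l 15398288) (l 15270560)) (l 15379568))) (c (l 15463568) (l 15422880))) (c (l 15576264) (a (l 15514008) (l 15566792)))) (a (b (b (a (b (c (l 15232400) (l 15210768)) (b (l 15175744) (a (l 15128816) (l 15215424)))) (c (l 15307128) (l 15243216))) (a (c (l 15261224) (l 15240144)) (l 15337840))) (a (c (a (c (l 15429176) (l 15377696)) (l 15425888)) (a (l 15363368) (l 15407440))) (c (l 15490104) (l 15471112)))) (b (b (c (c (l 15431416) (l 15414520)) (a (l 15356560) (l 15410656))) (c (l 15462584) (l 15423920))) (c (a (l 15571456) (l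 15635280)) (l 15544424)))))) (c (b (b (l 15988632) (b (l 15970560) (l 15898184))) (b (l 15662248) (b (b (l 15574744) (l 15614384)) (l 15707680)))) (b (b (l 15939840) (b (l 15879408) (l 15847736))) (b (l 15609056) (b (b (l 15519288) (l 15559568)) (l 15696904)))))), by decide +kernel⟩

def k6_pm_012 : ∃ t, chk3 f_pm_012 t 16 24 3 = true :=
  ⟨(a (a (c (a (b (a (l 15762840) (l 15792272)) (a (b (l 15756048) (l 15711200)) (b (l 15790040) (l 15754280)))) (b (l 15822528) (b (l 15822232) (l 15759624)))) (c (a (a (b (l 15752320) (b (l 15745424) (l 15700032))) (b (l 15776296) (b (l 15774032) (l 15737832)))) (b (l 15792328) (b (l 15792024) (l 15771096)))) (a (c (a (b (l 15744832) (a (b (l 15732768) (l 15684336)) (l 15725432))) (b (l 15760896) (l 15739416))) (a (b (c (l 15739512) (c (l 15736664) (l 15734992))) (c (a (b (l 15728960) (l 15680384)) (l 15717576)) (b (a (c (l 15726264) (l 15724528)) (l 15736224)) (c (l 15662744) (l 15682000))))) (b (l 15753056) (c (l 15730176) (l 15727688))))) (c (b (l 15774232)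 (b (l 15773920) (l 15752864))) (b (l 15769088) (b (l 15768904) (l 15747864))))))) (c (b (l 15852696) (l 15807464)) (c (a (l 15784656) (l 15824760)) (b (l 15807072) (c (l 15803768) (l 15799472)))))) (c (a (l 15879544) (l 15908576)) (c (l 15879680) (l 15869544)))), by decide +kernel⟩

def k7_pm_012 : ∃ t, chk3 f_pm_012 t 16 25 3 = true :=
  ⟨(a (a (c (a (a (b (l 15624488) (l 15504264)) (b (l 15668032) (l 15548272))) (c (l 15628584) (l 15547808))) (c (a (a (a (b (l 15602152) (l 15480408)) (l 15459352)) (b (l 15650544) (l 15529392))) (b (l 15687944) (l 15567528))) (a (a (a (c (b (l 15596000) (l 15473552)) (b (c (l 15591816) (a (c (l 15585728) (l 15563032)) (l 15594288))) (c (a (l 15464960) (l 15474840)) (c (a (l 15462704) (l 15470544)) (a (c (l 15461192) (l 15460248)) (l 15468416)))))) (c (l 15429088) (c (l 15525592) (b (l 15603104) (l 15438416))))) (c (l 15511208) (c (l 15480512) (l 15456856)))) (c (b (l 15669216) (l 15548096)) (b (l 15664024) (l 15542632)))))) (c (a (l 15628656) (l 15691224)) (c (a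 (l 15609664) (b (l 15774952) (l 15658784))) (b (c (l 15743000) (l 15738728)) (c (l 15625264) (l 15620800)))))) (c (a (b (c (l 15865376) (l 15842592)) (l 15758632)) (b (l 15903592) (l 15842792))) (b (a (c (l 15830944) (l 15824216)) (l 15889368)) (c (l 15760968) (l 15669712))))), by decide +kernel⟩

def k8_pm_012 : ∃ t, chk3 f_pm_012 t 32 13 6 = true :=
  ⟨(a (b (a (a (b (l 15295480) (a (l 15238560) (l 15261424))) (b (l 15423832) (l 15294704))) (c (l 15382104) (l 15257528))) (a (b (b (a (b (l 15166560) (b (l 15141208) (l 15095352))) (b (l 15211608) (b (l 15186328) (l 15182416)))) (a (l 15196616) (l 15241472))) (a (b (l 15294616) (l 15394704)) (l 15367520))) (b (b (b (l 15265648) (a (b (l 15225728) (l 15221816)) (l 15254952))) (l 15232272)) (c (l 15451848) (l 15432480))))) (b (a (l 15404264) (l 15512096)) (b (b (a (l 15265520) (l 15353696)) (l 15372296)) (l 15432096)))), by decide +kernel⟩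

def k9_pm_012 : ∃ t, chk3 f_pm_012 t 32 26 7 = true :=
  ⟨(a (a (a (c (a (b (l 15353984) (l 15222872)) (b (l 15376592) (l 15245712))) (c (a (b (l 15304488) (a (l 15209344) (l 15220888))) (b (l 15366248) (l 15234680))) (a (a (b (c (l 15337424) (c (l 15334992) (c (l 15333400) (b (l 15364776) (l 15299688))))) (c (l 15205208) (c (l 15160656) (c (b (l 15234480) (l 15167072)) (c (l 15179064) (l 15178576)))))) (b (c (l 15347416) (c (l 15342944) (l 15340728))) (c (l 15215312) (c (l 15210672) (l 15208360))))) (c (l 15208192) (c (b (l 15352192) (l 15220096)) (b (l 15350768) (l 15218600))))))) (c (b (l 15403552) (l 15273040)) (c (l 15195232) (b (c (l 15375752) (l 15372888)) (c (l 15244184) (l 15241192)))))) (c (b (l 15442432) (l 15312656)) (c (b (l 15422304) (l 15291824)) (c (l 15309304) (l 15243888))))) (c (a (l 15361512) (l 15472536)) (c (l 15395304) (a (l 15363696) (l 15458928))))), by decide +kernel⟩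

def k10_pm_012 : ∃ t, chk3 f_pm_012 t 128 27 14 = true :=
  ⟨(b (b (a (a (b (l 15138680) (b (l 15113040) (l 15109104))) (b (l 15161520) (b (l 15135912) (l 15131976)))) (b (l 15189072) (b (l 15163528) (l 15159584)))) (a (a (l 15169208) (l 15191968)) (l 15219344))) (a (a (l 15255904) (l 15341288)) (l 15284192))), by decide +kernel⟩

def k11_pm_012 : ∃ t, chk3 f_pm_012 t 128 27 15 = true :=
  ⟨(b (c (a (b (a (b (l 15129976) (b (l 15104208) (a (l 15094904) (l 15106424)))) (b (l 15150048) (b (l 15124312) (l 15120360)))) (a (l 15139752) (l 15180704))) (b (b (l 15170384) (b (l 15144704) (l 15140752))) (l 15200864))) (b (a (c (a (b (a (l 15120272) (l 15130360)) (b (a (l 15094424) (l 15104520)) (a (l 15090464) (l 15100560)))) (b (l 15140600) (b (l 15114792) (l 15110832)))) (a (c (a (b (l 15117520) (b (l 15091632) (a (l 15085560) (l 15090616)))) (b (l 15125600) (b (l 15099736) (l 15095768)))) (b (a (c (l 15115744) (a (l 15112944) (l 15116896))) (l 15123232)) (b (a (c (l 15089840) (a (l 15087016) (l 15090984)))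 (l 15097344)) (a (c (a (l 15084160) (l 15088216)) (a (c (l 15083264) (b (l 15077408) (l 15088000))) (l 15087024))) (c (l 15093016) (l 15092240)))))) (b (c (l 15135136) (l 15133608)) (b (c (l 15109304) (l 15107752)) (c (l 15105336) (l 15103792)))))) (c (b (l 15159560) (b (l 15133824) (l 15129864))) (b (l 15156480) (b (l 15130712) (l 15126760))))) (a (c (a (a (l 15151152) (l 15161208)) (l 15171352)) (a (a (c (l 15148464) (c (l 15146736) (c (l 15145824) (l 15145320)))) (c (l 15156504) (l 15154184))) (c (l 15165952) (l 15164480)))) (c (l 15190144) (l 15187192))))) (c (a (a (a (l 15306008) (l 15317360)) (l 15330880)) (l 15350448)) (a (a (c (a (l 15281224) (l 15312112)) (c (a (b (l 15248816) (l 15351256)) (l 15307624)) (a (c (b (l 15247152) (l 15349664)) (c (l 15192448) (l 15212968))) (l 15221576)))) (c (l 15321960) (c (l 15316768) (l 15315480)))) (c (l 15340152) (l 15295616))))), by decide +kernel⟩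

def k12_pm_012 : ∃ t, chk3 f_pm_012 t 129 27 7 = true :=
  ⟨(c (b (b (b (l 15229136) (b (l 15203728) (l 15199792))) (l 15259072)) (l 15406656)) (b (b (c (b (l 15207872) (b (l 15182328) (l 15178384))) (b (l 15201664) (c (l 15173416) (b (l 15172832) (l 15168888))))) (c (l 15238008) (l 15148168))) (c (l 15365464) (c (l 15380072) (l 15378128))))), by decide +kernel⟩

def k13_pm_012 : ∃ t, chk3 f_pm_012 t 65 27 7 = true :=
  ⟨(c (b (b (a (b (l 15276568) (l 15249392)) (l 15312440)) (l 15331648)) (a (l 15452128) (l 15499568))) (b (b (c (l 15275552) (b (l 15284192) (b (l 15258912) (l 15255000)))) (c (l 15318632) (l 15314016))) (c (l 15464784) (l 15439968)))), by decide +kernel⟩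

def k14_pm_012 : ∃ t, chk3 f_pm_012 t 33 13 3 = true :=
  ⟨(b (c (a (c (l 15588504) (l 15563560)) (l 15666544)) (c (l 15370792) (a (l 15499904) (l 15643520)))) (c (b (b (a (l 15420640) (l 15513152)) (a (l 15462000) (l 15553672))) (a (l 15602800) (l 15691736))) (b (b (c (l 15444832) (a (l 15383096) (l 15487688))) (c (l 15486264) (l 15477776))) (c (l 15627312) (l 15536224))))), by decide +kernel⟩

def k15_pm_012 : ∃ t, chk3 f_pm_012 t 17 6 1 = true :=
  ⟨(c (b (a (c (b (l 16020344) (l 16007648)) (b (l 15978944) (l 15839984))) (c (l 16043240) (l 16023568))) (b (a (c (l 15872832) (l 15765792)) (c (b (l 16026160) (l 15955432)) (l 15964400))) (a (b (c (b (l 15729624) (l 15767824)) (b (l 15683288) (l 15722088))) (c (l 15897992) (l 15854256))) (c (b (b (l 15874808) (l 15911872)) (l 16037384)) (b (l 15871080) (l 16017592)))))) (b (a (b (c (l 15958008) (l 15948024)) (c (l 15944592) (a (l 15914176) (l 15960960)))) (c (c (l 16016272) (l 16010064)) (l 16011024))) (b (a (c (l 15805336) (l 15666848)) (c (l 15827928)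 (c (l 15781272) (l 15940464)))) (a (b (c (l 15677368) (b (l 15642944) (l 15682984))) (c (l 15831448) (l 15819208))) (c (b (l 15859144) (l 16008016)) (b (b (l 15831856) (l 15870368)) (l 16001272))))))), by decide +kernel⟩

def k16_pm_012 : ∃ t, chk3 f_pm_012 t 16 14 2 = true :=
  ⟨(a (b (a (c (b (a (a (b (l 15530448) (b (l 15605480) (l 15651912))) (b (l 15573000) (l 15672176))) (b (l 15636112) (l 15735680))) (a (a (a (c (a (b (b (l 15683672) (l 15708016)) (b (a (b (b (l 15754776) (b (l 15763376) (l 15768352))) (l 15776744)) (b (l 15765888) (l 15782312))) (l 15757704))) (b (l 15717496) (b (b (l 15774224) (l 15790632)) (l 15810752)))) (b (l 15704768) (l 15784456))) (b (l 15730816) (b (b (l 15787656) (l 15804088)) (l 15824240)))) (b (l 15764352) (c (b (l 15811264) (l 15860400)) (l 15840224)))) (b (l 15830760) (c (l 15912088) (l 15906504))))) (a (b (a (l 15499904) (l 15606848)) (b (l 15728112) (l 15766440))) (b (l 15669648) (b (l 15816968) (l 15896664))))) (b (c (a (l 15744288) (l 15827224)) (l 15740248))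 (c (b (a (l 15913304) (l 15976168)) (a (l 15930240) (l 16059296))) (b (l 15911424) (l 15994552))))) (a (a (b (b (c (a (c (a (a (l 15819360) (l 15851416)) (l 15867920)) (l 15850808)) (l 15898000)) (l 15864064)) (c (a (a (l 15898144) (l 15920184)) (l 15953000)) (l 15899024))) (b (a (c (a (l 15955216) (l 15976584)) (l 15955616)) (l 16004152)) (a (c (l 16040168) (l 16030376)) (l 16072496)))) (b (c (l 15906912) (l 15979336)) (b (c (l 16073840) (l 16063544)) (c (l 16135488) (l 16105072))))) (b (c (a (l 16010952) (l 16139472)) (a (l 16050528) (l 16104496))) (c (a (l 16163392) (l 16248664)) (a (l 16141592) (l 16215200)))))) (b (b (c (a (l 15897912) (l 15977728)) (l 15887136)) (c (b (l 16061880) (a (l 16131872) (l 16209384))) (b (l 16035128) (l 16123016)))) (c (a (a (l 16119792) (l 16188560)) (l 16185448)) (b (l 16105840) (l 16174680))))), by decide +kernel⟩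

def k17_pm_012 : ∃ t, chk3 f_pm_012 t 32 28 3 = true :=
  ⟨(c (a (a (b (a (b (l 15496864) (l 15597800)) (l 15548992)) (a (b (l 15691592) (l 15773216)) (b (l 15737288) (l 15818512)))) (b (c (l 15652640) (l 15634784)) (b (l 15792112) (l 15872960)))) (b (l 15672816) (b (l 15867144) (l 15951472)))) (a (a (c (a (b (a (l 15418888) (l 15546264)) (b (l 15659336) (a (l 15752152) (l 15775120)))) (b (l 15488912) (b (l 15720744) (l 15802832)))) (b (c (a (a (b (l 15466536) (l 15568896)) (l 15537000)) (l 15556304)) (a (a (c (a (l 15466968) (l 15518872)) (c (a (b (l 15455776) (l 15558400)) (l 15514672)) (c (b (l 15415432) (l 15497312)) (b (l 15456528) (l 15559432))))) (c (l 15528648) (b (l 15473216) (l 15555936)))) (c (l 15546576) (l 15502520)))) (c (a (a (b (l 15663848) (l 15746888)) (b (l 15684248) (l 15767080))) (b (l 15705048) (l 15787576))) (a (c (a (b (l 15659872) (l 15743136)) (b (l 15676296) (l 15759344))) (a (b (c (l 15657104) (a (l 15630976) (l 15660024))) (c (a (l 15737000) (l 15745136)) (c (l 15718080)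 (l 15738360)))) (b (l 15672688) (l 15755904)))) (c (b (l 15695720) (l 15778464)) (b (l 15693944) (l 15776872))))))) (c (b (l 15610464) (b (l 15761568) (l 15843280))) (c (b (l 15591368) (b (l 15743288) (l 15825424))) (b (c (l 15585576) (l 15584184)) (b (l 15739632) (l 15822136)))))) (c (b (l 15573104) (b (l 15831992) (l 15917216))) (b (c (l 15666888) (l 15643104)) (b (c (l 15821752) (l 15819720)) (c (l 15907424) (l 15905840))))))), by decide +kernel⟩

def k18_pm_012 : ∃ t, chk3 f_pm_012 t 64 29 3 = true :=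
  ⟨(c (a (b (a (l 15858000) (l 15903000)) (a (b (l 15945216) (b (l 15999064) (l 16043136))) (b (l 15988992) (l 16037760)))) (b (l 15956824) (b (l 16042176) (a (b (l 16072432) (l 16111128)) (l 16119008))))) (c (a (b (a (l 15848504) (l 15888208)) (a (b (l 15936592) (a (l 16004568) (l 16023320))) (b (l 15975080) (b (l 16023936) (l 16066920))))) (b (l 15928016) (b (l 16014232) (b (l 16059008) (l 16095672))))) (a (b (c (a (a (l 15833168) (l 15853232)) (l 15873392)) (a (a (c (l 15829680) (c (l 15827176) (l 15825712))) (c (l 15845712) (l 15842456))) (c (l 15864504) (l 15863128)))) (c (a (a (b (l 15921848) (a (l 15996280) (l 16005744))) (b (l 15941032) (l 16016536))) (b (l 15960696) (b (l 16009792) (l 16052992)))) (b (a (c (a (l 15918544) (l 15933736)) (a (c (l 15916112) (a (l 15911392) (l 15918800))) (l 15930648))) (c (l 15952024) (l 15950856))) (a (c (a (a (a (l 15992128) (l 15996888)) (l 16002312)) (l 16009432)) (a (c (a (a (l 15949184) (l 15995160)) (l 15998736)) (c (a (a (a (l 15989552) (l 15991568))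 (l 15993368)) (l 15996576)) (a (c (a (a (l 15968200) (l 15990672)) (l 15992288)) (a (a (c (l 15967912) (c (l 15967760) (l 15967688))) (l 15948232)) (l 15992168))) (l 15975376)))) (c (l 16005144) (c (l 16003960) (l 15983016))))) (c (b (l 16001240) (l 16044552)) (b (l 16000192) (c (l 16042232) (c (l 16041816) (l 16041640))))))))) (c (b (l 15910600) (b (l 15997248) (b (l 16042248) (a (l 16068968) (l 16087504))))) (b (l 15907728) (b (l 15994784) (c (b (l 16037624) (l 16074552)) (b (l 16037576) (c (l 16073768) (b (l 16062576) (l 16083568))))))))))), by decide +kernel⟩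

def k19_pm_012 : ∃ t, chk3 f_pm_012 t 65 29 3 = true :=
  ⟨(c (b (l 16034288) (c (l 16076032) (l 16031048))) (c (b (l 16000896) (b (l 16085872) (a (l 16098352) (l 16166656)))) (b (c (l 15991536) (l 15990448)) (c (b (l 16076936) (l 16093632)) (b (l 16076360) (a (c (l 16107080) (c (l 16106344) (l 16063496))) (c (l 16160720) (l 16159632)))))))), by decide +kernel⟩

def k20_pm_012 : ∃ t, chk3 f_pm_012 t 33 14 3 = true :=
  ⟨(b (c (b (a (l 15797736) (l 15883008)) (a (l 15867560) (l 16076432))) (b (c (l 15822552) (l 15712248)) (c (l 15872064) (b (l 15970232) (l 16019208))))) (c (b (a (l 16124608) (l 16214176)) (a (c (l 16244528) (l 16224352)) (l 16242504))) (b (c (l 16154328) (a (l 16101584) (l 16202928))) (c (a (l 16215472) (l 16319056)) (a (c (l 16192128) (c (l 16086776) (l 16105544))) (b (l 16289216) (l 16261848))))))), by decide +kernel⟩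

def k21_pm_012 : ∃ t, chk3 f_pm_012 t 64 30 1 = true :=
  ⟨(b (a (b (a (b (c (c (c (c (b (b (l 16091792) (l 16082240)) (a (l 6) (l 16132568))) (l 16104904)) (l 16101648)) (l 16095256)) (c (l 16086744) (a (b (c (l 16060216) (c (a (l 16052224) (l 16061560)) (c (a (l 16050352) (l 16058264)) (c (a (a (l 16047264) (l 16051232)) (l 16054752)) (a (c (a (a (l 16045720) (l 16047704)) (l 16049472)) (a (a (c (l 16045344) (c (l 16045056) (l 16044896))) (c (l 16046824) (l 16046472))) (c (l 16048408) (l 16048312)))) (c (l 16052632) (l 16052432))))))) (l 6)) (c (l 16089584) (c (l 16083128) (c (l 16076184) (c (l 16071976) (c (l 16070832) (l 16070904))))))))) (l 6)) (c (c (c (b (b (l 16132888) (l 16156952)) (c (l 16203496) (l 16188544))) (l 16158720)) (l 16152952)) (c (l 16144752) (c (l 16058992) (c (l 16118784) (c (l 16089528) (c (l 16108256) (c (l 16107880) (l 16086800))))))))) (l 6)) (b (c (c (c (b (l 16199864) (c (l 16261760) (l 16242688))) (l 16212320)) (l 16205672)) (c (c (l 16194352) (l 16180272)) (c (l 16159704)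 (c (l 16080520) (c (l 16139056) (c (l 16138352) (b (l 16095408) (l 16159880)))))))) (a (l 6) (c (a (l 6) (c (c (l 16366336) (l 16315664)) (l 16316104))) (c (l 16284192) (c (l 16254416) (c (l 16238400) (c (l 16236232) (l 16194584))))))))) (l 6)), by decide +kernel⟩

def k22_pm_012 : ∃ t, chk3 f_pm_012 t 65 30 1 = true :=
  ⟨(b (c (c (b (c (b (a (l 16270568) (l 16331072)) (a (l 16324496) (l 16378272))) (l 16262952)) (b (c (l 16328192) (l 16325552)) (a (c (l 16401544) (l 16401920)) (l 16393008)))) (a (l 16219176) (l 16301736))) (c (a (b (l 16225608) (l 16310160)) (l 16216360)) (c (a (b (l 16149112) (l 16276432)) (b (l 16207920) (l 16308616))) (c (b (a (l 16180648) (l 16224592)) (l 16285680)) (b (c (a (l 16179344) (l 16223408)) (a (c (l 16178696) (b (l 16156776) (l 16198896))) (b (l 16204032) (l 16239376)))) (c (l 16284648) (a (l 16244288) (l 16303176)))))))) (a (l 6) (b (c (c (c (l 16512416) (l 16502176)) (l 16371544)) (c (l 16425208) (c (l 16395312) (c (l 16391824) (l 16350528))))) (l 6)))), by decide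 +kernel⟩

def k23_pm_012 : ∃ t, chk3 f_pm_012 t 32 31 1 = true :=
  ⟨(l 6), by decide +kernel⟩

def k24_pm_012 : ∃ t, chk3 f_pm_012 t 33 15 1 = true :=
  ⟨(b (c (b (c (b (c (b (l 16364616) (l 16383552)) (l 16416680)) (a (c (l 16447096) (l 16391360)) (l 16452040))) (a (l 16273096) (l 16469232))) (b (c (a (b (l 16489520) (l 16483696)) (l 16517520)) (a (l 16413848) (l 16465224))) (c (a (c (l 16462080) (l 16498496)) (l 16355744)) (c (l 16516512) (l 16474008))))) (c (b (a (b (l 16256944) (l 16322520)) (l 16310488)) (a (l 16404160) (l 16444320))) (b (a (c (b (l 16300744) (l 16366968)) (c (b (l 16298800) (l 16344376)) (b (c (l 16297824) (l 16254696)) (a (l 16300872) (l 16363600))))) (c (l 16388160) (c (l 16386928) (b (l 16400064) (l 16434808))))) (a (c (l 16428832) (c (l 16427824) (c (l 16406352) (l 16384864)))) (c (l 16481384) (a (l 16420208) (l 16478504))))))) (a (l 6) (a (l 6) (b (b (c (b (l 16307448) (l 6)) (c (l 16546696) (l 16575632))) (l 6)) (l 6))))), by decide +kernel⟩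

def k25_pm_012 : ∃ t, chk3 f_pm_012 t 34 7 1 = true :=
  ⟨(b (c (b (c (b (l 16078528) (l 16240368)) (b (l 16037544) (l 16139224))) (a (b (l 16303792) (l 16377512)) (b (l 16371544) (l 16389256)))) (b (c (l 15880048) (b (l 16008064) (l 16136272))) (b (c (l 16346312) (a (l 16298928) (l 16384320))) (c (l 16341720) (a (c (l 16419256) (l 16354720)) (b (l 16440400) (c (l 16543312) (l 16501064)))))))) (b (c (b (c (b (l 16479408) (l 16488488)) (l 16421504)) (c (a (l 16260088) (l 16303064)) (c (a (l 16422672) (l 16360728)) (a (l 16466704) (l 16456880))))) (c (b (l 16430592) (l 16419152)) (b (c (l 16429856) (a (l 16443840) (l 16498096))) (a (b (l 16527312) (l 16535128)) (c (l 16485672) (l 16443208)))))) (b (c (c (b (a (c (l 16223800) (l 16349192)) (l 16189200)) (b (c (l 16073056) (l 16211040)) (a (l 6) (l 16141552)))) (a (b (l 16378544) (l 16157816)) (b (l 16325760) (l 16171376)))) (c (b (a (b (l 16580808) (l 16488784)) (l 16384064)) (l 16220264)) (a (l 16393840) (c (l 16392936) (l 16328864))))) (a (l 6) (b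 (b (c (c (l 16139072) (l 16162032)) (c (l 16237088) (l 16222880))) (l 6)) (l 6)))))), by decide +kernel⟩

def k26_pm_012 : ∃ t, chk3 f_pm_012 t 35 7 1 = true :=
  ⟨(b (c (b (c (b (l 16190616) (l 16262336)) (l 16094520)) (c (c (l 16376760) (l 16367800)) (l 16383000))) (b (c (b (l 16187856) (l 16328176)) (b (l 16141088) (a (l 16326344) (l 16303064)))) (c (c (l 16403392) (l 16319120)) (c (a (l 16342976) (b (l 16543432) (l 16493056))) (b (l 16362096) (b (l 16460400) (a (l 16537280) (l 16431760)))))))) (c (b (c (b (a (l 16288168) (b (l 16402664) (l 16356400))) (a (l 16240280) (l 16194856))) (b (l 16376744) (l 16087192))) (b (b (a (l 15982504) (l 15908752)) (c (a (l 15933264) (l 15954504)) (l 15906496))) (b (c (a (l 16054720) (l 15951088)) (b (l 16011304) (l 16000920))) (c (a (l 16067888) (l 15972872)) (l 16003160))))) (b (b (c (b (l 16403152) (l 16386440)) (a (c (l 16472000) (l 16386296)) (c (l 16399640) (c (l 16333384) (l 16418936))))) (c (l 16259568) (c (l 16256944) (a (l 16358320) (l 16212872)))))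 (b (c (a (b (l 16329688) (l 16231056)) (l 15987720)) (c (a (l 16300680) (l 16181144)) (a (l 16193672) (l 16114064)))) (c (b (a (l 16110728) (l 16006496)) (l 15960456)) (c (b (l 15967576) (b (l 16025456) (l 15996048))) (a (b (l 16180856) (c (l 15995056) (l 16023376))) (b (l 16074152) (c (l 15954816) (l 15960568)))))))))), by decide +kernel⟩

def k27_pm_012 : ∃ t, chk3 f_pm_012 t 9 6 1 = true :=
  ⟨(a (b (c (c (l 15993144) (c (l 15985448) (l 15980320))) (c (a (c (l 16007104) (l 16013312)) (c (l 15938904) (l 15961664))) (a (l 16012792) (l 15927608)))) (b (c (c (a (l 16018840) (l 15970160)) (a (l 16008880) (l 15959584))) (a (c (c (l 16001408) (l 15994472)) (c (l 16004616) (l 15986464))) (c (c (l 15949952) (l 15964528)) (l 15938432)))) (c (b (a (c (l 15992504) (l 15982200)) (c (b (l 15973504) (l 16042736)) (l 15993832))) (c (l 16113992) (l 16043568))) (a (c (b (b (l 15950904) (l 15990672)) (l 16117296)) (b (c (l 15807384) (l 15959016)) (l 16120408))) (b (c (c (l 15986312) (b (l 15949968) (l 16020968)))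 (b (l 15941904) (l 16034528))) (c (c (l 16164304) (l 16159216)) (l 16091256))))))) (b (c (c (a (l 15874368) (l 15743704)) (a (c (l 15865512) (l 15792320)) (c (l 15727696) (l 15731416)))) (c (a (a (c (l 15886824) (l 15913608)) (c (l 15831928) (l 15818224))) (b (l 15707728) (c (l 15737992) (l 15722992)))) (l 15770608))) (c (c (b (a (l 15892248) (l 15768728)) (a (b (b (l 15901296) (l 15986592)) (l 16119432)) (b (l 15821496) (l 16046824)))) (b (a (l 15880648) (l 15748504)) (a (b (l 15827968) (l 16112296)) (b (l 15804408) (l 16038224))))) (b (c (a (c (l 15870792) (a (l 15901016) (l 15838280))) (c (l 15753352) (l 15739008))) (l 15793112)) (c (a (c (b (l 15816512) (l 16124920)) (a (b (l 15951712) (l 16172280)) (b (l 15897824) (l 16135400)))) (c (b (l 15803576) (l 16032568)) (b (l 15793632) (l 15877704)))) (b (l 15847752) (l 16056736))))))), by decide +kernel⟩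

def k28_pm_012 : ∃ t, chk3 f_pm_012 t 9 14 1 = true :=
  ⟨(a (a (c (b (c (l 16259920) (l 16256272)) (a (l 16388040) (l 16339952))) (b (c (b (l 16291256) (l 16446816)) (b (l 16211816) (c (l 16387368) (l 16465064)))) (c (a (l 16365952) (l 16359048)) (c (c (l 16341248) (a (l 16365640) (l 16309616))) (c (a (b (l 16598688) (l 16412312)) (l 16441528)) (l 16360952)))))) (c (b (c (l 16275272) (l 16251536)) (c (l 16399000) (l 16355112))) (b (c (c (l 16375288) (b (l 16328720) (l 16500552))) (b (l 16241680) (c (l 16454968) (l 16501544)))) (c (a (l 16312480) (l 16248880)) (c (b (l 16362312) (c (l 16361552) (l 16243736))) (l 16329752)))))) (c (b (a (c (b (l 16356576) (l 16517680)) (b (l 16331944) (l 16517040))) (c (b (l 16264752) (l 16478240)) (b (l 16260376) (l 16477496)))) (c (a (b (l 16440032) (l 16293128)) (l 16335176)) (a (b (l 16438416) (l 16289488)) (l 16290632)))) (b (a (c (c (l 16242472) (a (l 16268400) (l 16283088))) (b (l 16345608) (l 16515760))) (c (c (b (l 16213256) (l 16473352)) (c (l 16120632)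 (l 16305456))) (l 16198912))) (a (c (b (c (l 16437208) (a (l 16449840) (l 16425480))) (a (l 16237416) (l 16193848))) (c (c (a (b (l 16444776) (l 16293736)) (l 16324736)) (l 16317936)) (b (l 16434784) (l 16281280)))) (c (c (l 16270688) (b (l 16379128) (l 16186248))) (l 16264464)))))), by decide +kernel⟩

def k29_pm_012 : ∃ t, chk3 f_pm_012 t 18 15 1 = true :=
  ⟨(b (c (b (c (a (l 16167288) (l 16173872)) (a (l 16317408) (l 16218128))) (c (a (l 16075440) (l 15962120)) (a (l 16029664) (l 16041000)))) (c (a (b (l 16208632) (l 16157952)) (c (l 16140632) (l 16116728))) (a (c (c (l 16056832) (b (l 16226920) (l 16174816))) (a (b (c (l 16289064) (l 16334968)) (l 16136496)) (b (l 16232344) (l 16131832)))) (c (c (l 16053128) (b (l 16115344) (l 16008040))) (b (l 16207064) (l 15960816)))))) (c (b (c (b (l 15621168) (a (l 15827056) (l 15692808))) (a (l 15882784) (l 15792792))) (a (b (c (l 15829832) (l 15837112)) (a (l 15882928) (l 15820160))) (c (l 15707672) (l 15707824)))) (c (b (a (c (l 16014840) (l 16041024))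 (c (l 15881856) (l 15907344))) (b (a (l 15775656) (l 15740784)) (a (l 15799000) (l 15705416)))) (c (b (a (l 16047432) (c (l 15914128) (l 15912504))) (a (b (l 15935848) (b (l 15860480) (l 15838320))) (c (l 15644264) (b (l 15805184) (l 15719344))))) (b (a (c (l 15999552) (l 16042920)) (l 15857232)) (a (b (l 15880688) (a (b (l 15923360) (c (l 15876168) (l 15880272))) (b (l 15851840) (l 15690296)))) (c (b (l 15798528) (l 15656656)) (l 15769776)))))))), by decide +kernel⟩

def k30_pm_012 : ∃ t, chk3 f_pm_012 t 19 15 1 = true :=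
  ⟨(c (b (c (b (a (l 16073904) (l 16080976)) (a (l 15878320) (l 15841520))) (b (a (l 16138416) (l 16103520)) (a (l 15935448) (l 15919568)))) (b (c (a (b (l 15674584) (l 15589184)) (l 15599544)) (a (l 15672264) (l 15674232))) (c (a (l 15592080) (l 15539152)) (a (a (l 15610072) (l 15570632)) (l 15537824))))) (b (c (c (a (l 16057808) (l 16021944)) (a (a (l 16067408) (l 16044032)) (c (l 16023744) (l 16017968)))) (c (a (a (c (l 16065344) (b (l 16140536) (l 15970240))) (c (l 16036968) (l 16037424))) (c (b (l 16093296) (l 15933344)) (l 16014456))) (a (l 16047872) (l 16011960)))) (c (a (b (a (l 15803368) (l 15774168)) (b (a (l 15643136) (l 15605464)) (c (l 15581824) (l 15581520)))) (b (c (l 15741520) (l 15769584)) (c (l 15546640) (l 15566328)))) (a (b (c (a (l 15756016) (l 15783864)) (l 15807008)) (a (c (c (l 15649688) (b (l 15704880) (l 15617864))) (b (l 15706480) (l 15629144))) (c (c (l 15611000) (l 15614976)) (l 15627208)))) (c (b (l 15708792) (b (l 15611720) (c (l 15527992) (l 15517648)))) (l 15577840)))))),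 by decide +kernel⟩

def k31_pm_012 : ∃ t, chk3 f_pm_012 t 5 2 1 = true :=
  ⟨(b (b (l 2) (a (a (a (c (c (c (l 15449664) (l 15435688)) (l 15422576)) (l 15396360)) (l 2)) (l 2)) (l 2))) (b (a (a (a (c (c (c (l 15506704) (l 15501024)) (l 15481888)) (l 15456816)) (c (a (c (c (l 15452424) (l 15437912)) (l 15424824)) (l 15506832)) (a (l 15398656) (l 15473832)))) (c (c (l 15862088) (l 15850128)) (l 15601496))) (a (a (c (l 16295376) (l 16282864)) (l 2)) (l 2))) (a (a (a (c (c (c (l 15549408) (l 15552824)) (c (l 15551272) (l 15533336))) (l 15513336)) (c (c (a (c (l 15501336) (l 15499160)) (c (a (l 15536904) (l 15600760)) (l 15555848))) (l 15510088)) (a (l 15454192) (l 15520048)))) (c (a (c (c (l 15769192) (l 15757616)) (l 15747648)) (l 16032152)) (c (l 15874584) (l 15863088)))) (a (c (a (l 16315936) (l 16605992)) (a (l 16303952) (l 16601544))) (c (c (l 16776736) (l 16776736)) (l 16776720)))))), by decide +kernel⟩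

def k32_pm_012 : ∃ t, chk3 f_pm_012 t 10 6 1 = true :=
  ⟨(a (b (a (c (c (c (l 15608016) (l 15592288)) (c (l 15595120) (l 15595072))) (l 15565832)) (c (c (a (c (l 15544760) (l 15540768)) (a (b (l 15562736) (l 15576304)) (l 15633680))) (c (a (l 15541488) (b (l 15580360) (l 15601640))) (l 15552568))) (a (l 15505752) (l 15562776)))) (a (b (c (c (l 15636952) (c (l 15620320) (l 15624232))) (l 15599624)) (c (c (b (l 15691400) (l 15908376)) (c (l 15788096) (b (l 15674232) (l 15892608)))) (c (c (a (l 15693440) (l 15742288)) (l 15770712)) (l 15761488)))) (c (a (c (b (l 15575224) (l 15649616)) (b (c (l 15566936) (l 15562392)) (c (l 15719512) (l 15617776)))) (b (c (a (l 15592592) (l 15652480)) (c (l 15620160) (l 15608344))) (c (b (l 15633712) (l 15876872)) (c (b (l 15602552) (l 15866792)) (b (l 15657792) (l 15867112)))))) (b (a (l 15538800) (l 15589520)) (a (b (l 15593376) (l 15810952)) (b (l 15639928) (l 15849856))))))) (b (c (c (a (c (l 15802376) (l 15800048)) (c (l 16071808) (l 16063000))) (l 15835264))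 (a (l 15765304) (l 16042056))) (c (b (c (a (l 15734896) (l 16024144)) (c (a (l 15819536) (l 16075408)) (l 15936808))) (c (a (c (l 15857360) (b (l 15860640) (l 16051880))) (b (c (l 16124944) (l 16125752)) (l 16175288))) (a (c (b (l 15860624) (l 16053888)) (l 15946984)) (l 16078032)))) (b (l 15734528) (a (b (l 15835648) (l 16035960)) (b (l 16101520) (l 16288624))))))), by decide +kernel⟩

def k33_pm_012 : ∃ t, chk3 f_pm_012 t 20 7 1 = true :=
  ⟨(b (a (b (c (c (b (l 16154024) (l 16369512)) (b (l 16014984) (l 16215800))) (c (c (b (l 16129592) (l 16245056)) (l 16133408)) (l 16067536))) (c (c (l 16313040) (l 16184832)) (c (c (l 16057744) (c (l 16178760) (l 16307384))) (l 16180072)))) (b (a (c (c (l 16070320) (c (l 16192528) (l 16021792))) (c (c (l 15983864) (l 16185296)) (l 16181680))) (c (c (b (l 16105432) (l 16340984)) (c (b (l 16097712) (l 16339448)) (a (l 15941248) (l 16203936)))) (l 15959168))) (a (c (c (l 16285872) (b (l 16370152) (l 16196704))) (c (c (b (l 16360664) (l 16189656)) (l 16238464))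 (l 16110816))) (c (c (b (l 16316192) (l 16114048)) (b (a (l 16236952) (l 16290448)) (l 15861128))) (c (c (c (a (l 16010696) (l 16137024)) (l 16109424)) (l 16024272)) (b (l 16310224) (l 16099312))))))) (c (b (a (c (l 15680096) (b (l 16078504) (l 15892856))) (a (c (l 15767904) (b (l 16040504) (l 15854552))) (c (b (l 15929896) (l 15687056)) (b (l 15953264) (l 15763784))))) (a (b (c (l 15570896) (l 15645656)) (c (l 15507504) (l 15506208))) (a (b (c (l 15532520) (l 15607064)) (l 15388136)) (b (c (l 15441688) (l 15515032)) (c (l 15376896) (l 15374192)))))) (c (c (a (b (l 15979328) (b (l 15713000) (l 15515040))) (b (a (l 15958968) (a (l 15717712) (l 15823472))) (a (b (l 15676792) (l 15476008)) (b (l 15520200) (l 15363256))))) (a (b (c (l 15993056) (l 15988480)) (b (l 15715568) (b (l 15563584) (l 15493344)))) (b (a (c (l 15952120) (l 15953592)) (l 15862792)) (a (b (l 15693416) (l 15323200)) (c (b (l 15602736) (l 15138088)) (l 15290104)))))) (a (b (l 15988048) (b (l 15740800) (c (c (l 15520568) (l 15553080))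 (l 15562576)))) (b (a (l 15949376) (l 15856808)) (b (l 15655112) (a (l 15516832) (l 15379376)))))))), by decide +kernel⟩

def k34_pm_012 : ∃ t, chk3 f_pm_012 t 21 7 1 = true :=
  ⟨(b (b (c (c (a (b (l 16208576) (l 16432064)) (b (l 16376368) (l 16075504))) (a (c (l 16132784) (b (l 16272560) (l 16386064))) (c (b (l 16506192) (l 16214632)) (l 16254016)))) (a (b (l 16243576) (l 16325688)) (b (l 16481784) (l 16146496)))) (c (a (c (b (l 16164744) (l 15917016)) (a (b (l 16190768) (l 15969840)) (l 15724584))) (c (l 15728776) (c (l 15801488) (l 15752920)))) (b (a (l 16090264) (l 15945048)) (a (c (l 15900720) (l 15892576)) (l 15664032))))) (b (c (b (c (a (l 15687640) (l 15403456)) (a (l 15582088) (c (l 15421416) (l 15409824)))) (c (l 15079216) (a (l 15427336) (c (l 15166288) (l 15182744))))) (a (c (c (b (l 15692968) (l 15523032)) (l 15607056)) (l 15514296)) (b (l 15162512) (l 15171528)))) (c (c (b (a (l 15180536) (l 14834856)) (l 14927960)) (b (a (l 15252952) (l 14900816)) (a (l 15100488) (l 14740712)))) (c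 (b (c (a (l 15311048) (l 14955584)) (l 15156360)) (a (c (l 15105344) (b (l 15152400) (l 15052904))) (c (l 14735520) (l 14751472)))) (b (l 15153200) (b (l 15002856) (l 14756544))))))), by decide +kernel⟩

def k35_pm_012 : ∃ t, chk3 f_pm_012 t 11 6 1 = true :=
  ⟨(a (b (c (a (l 16292584) (a (l 16542936) (l 16683280))) (a (l 16323016) (l 16608632))) (b (c (a (c (l 16350112) (l 16341720)) (l 16614688)) (a (l 16333256) (l 16610416))) (c (a (c (b (l 16217616) (l 16444736)) (l 16292280)) (b (l 16496880) (l 16447912))) (a (l 16224248) (b (l 16640496) (l 16526880)))))) (b (c (c (l 16776120) (l 16776120)) (l 16776120)) (b (c (a (l 16768952) (l 16768144)) (l 16768352)) (c (b (a (l 16628576) (l 16732912)) (a (l 16432464) (l 16431912))) (b (l 16690088) (l 16423232)))))), by decide +kernel⟩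

def k36_pm_012 : ∃ t, chk3 f_pm_012 t 11 7 1 = true :=
  ⟨(a (b (a (b (c (c (b (l 16232760) (l 15987824)) (l 16002576)) (b (l 16372808) (l 16031776))) (c (c (l 15504072) (c (l 15617352) (l 15612248))) (l 15364664))) (b (c (c (c (l 15844216) (l 15968360)) (l 15940552)) (l 15822024)) (c (c (l 15427960) (l 15411552)) (l 15260120)))) (b (c (a (c (b (l 15175928) (l 14813456)) (b (l 15180208) (c (l 14870720) (l 14887656)))) (c (b (l 14962288) (l 14577152)) (b (l 14967776) (l 14629840)))) (a (b (l 15154496) (l 14869984)) (l 14654592))) (c (b (a (c (l 14496792) (l 14512160)) (c (l 14201800) (l 14169952))) (c (l 14102600) (a (l 14381512) (l 14031480)))) (b (a (l 14611440) (l 14282672)) (c (b (l 14238472) (l 14164032)) (b (l 14275080) (l 14162896))))))) (b (b (c (c (a (l 15843736) (l 15927032)) (l 15790392)) (a (l 15795008) (l 15899248))) (c (a (a (b (l 15450096) (l 15156408)) (l 15303192)) (l 15303192)) (a (l 15181688) (l 15264904)))) (b (c (a (c (b (c (l 14837368) (l 14848384)) (l 14450752)) (l 14599688))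 (b (l 14836680) (l 14473400))) (c (l 14664200) (l 14637280))) (c (c (a (b (a (l 14055688) (l 14054240)) (l 13852280)) (l 13959984)) (b (l 14106040) (a (c (l 13825736) (l 13817688)) (l 13808712)))) (b (c (l 14157504) (l 14154472)) (c (b (l 13866368) (l 13743176)) (b (l 13896976) (l 13735280)))))))), by decide +kernel⟩

def k37_pm_012 : ∃ t, chk3 f_pm_012 t 3 1 1 = true :=
  ⟨(b (b (l 2) (a (a (a (c (l 16777216) (l 16777216)) (l 2)) (l 2)) (l 2))) (b (b (a (a (c (a (l 16775720) (l 16775720)) (l 16775680)) (a (c (l 16775720) (l 16775680)) (l 2))) (l 2)) (a (a (c (b (l 16768144) (b (a (l 16732912) (l 16732912)) (l 16431912))) (b (l 16767912) (b (l 16710792) (l 16422944)))) (a (b (c (l 16768144) (l 16767912)) (c (l 16478992) (b (l 16731768) (l 16422944)))) (b (l 16768032) (b (l 16732336) (l 16427432))))) (a (b (l 2) (b (l 2) (l 16427432))) (l 2)))) (a (b (c (a (b (a (l 15900504) (l 15921480)) (a (l 15303192) (l 15303192))) (a (b (l 15921480) (l 15303192)) (b (l 15921480) (l 15303192)))) (a (b (a (l 15899248)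 (l 15899248)) (c (l 15274480) (l 15255336))) (b (a (l 15899248) (l 15899248)) (a (l 15264904) (l 15264904))))) (c (b (a (c (b (l 14839864) (l 14450064)) (b (l 14843160) (l 14506944))) (a (c (l 14641712) (l 14661904)) (l 14646872))) (a (b (a (l 14087456) (l 14087456)) (c (l 13835504) (l 13808712))) (a (b (l 14087456) (l 13826040)) (l 13974584)))) (b (a (c (l 14663840) (l 14636920)) (a (l 14650384) (l 14650384))) (a (c (b (l 14157128) (l 13805880)) (b (l 14154096) (b (l 13894872) (l 13721472)))) (a (c (l 13767944) (l 13729184)) (b (l 14150488) (l 13810152))))))) (a (b (b (c (l 15921480) (l 15899248)) (c (l 15303192) (l 15181016))) (b (c (c (l 14641712) (l 14661904)) (a (l 14650384) (l 14650384))) (c (b (l 14087456) (l 13826040)) (b (c (l 14157128) (l 14154096)) (c (l 13805880) (l 13807664)))))) (b (b (l 2) (c (l 15303192) (l 15264904))) (b (c (l 14646872) (l 14650384)) (c (l 13932640) (c (l 13977656) (l 13750152))))))))), by decide +kernel⟩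

theorem s38_pm_012 : ∃ t, chk3 f_pm_012 t 11 3 1 = true := ex3_b k35_pm_012 k36_pm_012

theorem s39_pm_012 : ∃ t, chk3 f_pm_012 t 10 7 1 = true := ex3_a k33_pm_012 k34_pm_012

theorem s40_pm_012 : ∃ t, chk3 f_pm_012 t 10 3 1 = true := ex3_b k32_pm_012 s39_pm_012

theorem s41_pm_012 : ∃ t, chk3 f_pm_012 t 5 3 1 = true := ex3_a s40_pm_012 s38_pm_012

theorem s42_pm_012 : ∃ t, chk3 f_pm_012 t 5 1 1 = true := ex3_b k31_pm_012 s41_pm_012

theorem s43_pm_012 : ∃ t, chk3 f_pm_012 t 9 15 1 = true := ex3_a k29_pm_012 k30_pm_012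

theorem s44_pm_012 : ∃ t, chk3 f_pm_012 t 9 7 1 = true := ex3_b k28_pm_012 s43_pm_012

theorem s45_pm_012 : ∃ t, chk3 f_pm_012 t 9 3 1 = true := ex3_b k27_pm_012 s44_pm_012

theorem s46_pm_012 : ∃ t, chk3 f_pm_012 t 17 7 1 = true := ex3_a k25_pm_012 k26_pm_012

theorem s47_pm_012 : ∃ t, chk3 f_pm_012 t 32 30 1 = true := ex3_a k21_pm_012 k22_pm_012

theorem s48_pm_012 : ∃ t, chk3 f_pm_012 t 32 15 1 = true := ex3_b s47_pm_012 k23_pm_012

theorem s49_pm_012 : ∃ t, chk3 f_pm_012 t 16 15 1 = true := ex3_a s48_pm_012 k24_pm_012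

theorem s50_pm_012 : ∃ t, chk3 f_pm_012 t 32 29 3 = true := ex3_a k18_pm_012 k19_pm_012

theorem s51_pm_012 : ∃ t, chk3 f_pm_012 t 32 14 3 = true := ex3_b k17_pm_012 s50_pm_012

theorem s52_pm_012 : ∃ t, chk3 f_pm_012 t 16 14 3 = true := ex3_a s51_pm_012 k20_pm_012

theorem s53_pm_012 : ∃ t, chk3 f_pm_012 t 16 14 1 = true := ex3_c k16_pm_012 s52_pm_012

theorem s54_pm_012 : ∃ t, chk3 f_pm_012 t 16 7 1 = true := ex3_b s53_pm_012 s49_pm_012

theorem s55_pm_012 : ∃ t, chk3 f_pm_012 t 8 7 1 = true := ex3_a s54_pm_012 s46_pm_012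

theorem s56_pm_012 : ∃ t, chk3 f_pm_012 t 128 27 7 = true := ex3_c k10_pm_012 k11_pm_012

theorem s57_pm_012 : ∃ t, chk3 f_pm_012 t 64 27 7 = true := ex3_a s56_pm_012 k12_pm_012

theorem s58_pm_012 : ∃ t, chk3 f_pm_012 t 32 27 7 = true := ex3_a s57_pm_012 k13_pm_012

theorem s59_pm_012 : ∃ t, chk3 f_pm_012 t 32 13 7 = true := ex3_b k9_pm_012 s58_pm_012

theorem s60_pm_012 : ∃ t, chk3 f_pm_012 t 32 13 3 = true := ex3_c k8_pm_012 s59_pm_012

theorem s61_pm_012 : ∃ t, chk3 f_pm_012 t 16 13 3 = true := ex3_a s60_pm_012 k14_pm_012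

theorem s62_pm_012 : ∃ t, chk3 f_pm_012 t 16 12 3 = true := ex3_b k6_pm_012 k7_pm_012

theorem s63_pm_012 : ∃ t, chk3 f_pm_012 t 16 6 3 = true := ex3_b s62_pm_012 s61_pm_012

theorem s64_pm_012 : ∃ t, chk3 f_pm_012 t 16 6 1 = true := ex3_c k5_pm_012 s63_pm_012

theorem s65_pm_012 : ∃ t, chk3 f_pm_012 t 8 6 1 = true := ex3_a s64_pm_012 k15_pm_012

theorem s66_pm_012 : ∃ t, chk3 f_pm_012 t 8 3 1 = true := ex3_b s65_pm_012 s55_pm_012

theorem s67_pm_012 : ∃ t, chk3 f_pm_012 t 4 3 1 = true := ex3_a s66_pm_012 s45_pm_012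

theorem s68_pm_012 : ∃ t, chk3 f_pm_012 t 16 2 3 = true := ex3_b k1_pm_012 k2_pm_012

theorem s69_pm_012 : ∃ t, chk3 f_pm_012 t 16 2 1 = true := ex3_c k0_pm_012 s68_pm_012

theorem s70_pm_012 : ∃ t, chk3 f_pm_012 t 8 2 1 = true := ex3_a s69_pm_012 k3_pm_012

theorem s71_pm_012 : ∃ t, chk3 f_pm_012 t 4 2 1 = true := ex3_a s70_pm_012 k4_pm_012

theorem s72_pm_012 : ∃ t, chk3 f_pm_012 t 4 1 1 = true := ex3_b s71_pm_012 s67_pm_012

theorem s73_pm_012 : ∃ t, chk3 f_pm_012 t 2 1 1 = true := ex3_a s72_pm_012 s42_pm_012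

theorem s74_pm_012 : ∃ t, chk3 f_pm_012 t 1 1 1 = true := ex3_a s73_pm_012 k37_pm_012

theorem c_pm_012 : CertFX 0 536870912 536870912 536870912 1046898278 26843546 true true false .pnp 0 1 2
    ndF0q0 ndF3q1 pcF2 cut_pm_012 Ext.none :=
  certFX2 (fam := true) (s1 := true) (s2 := false) (a := 0) (b := 1) (c := 2) (cn := .pnp) (n1 := ndF0q0) (n2 := ndF3q1) (pc := pcF2) (cut := cut_pm_012) (xt := Ext.none) (P1 := 0) (W1 := 536870912) (P2 := 536870912) (W2 := 536870912) (P3 := 1046898278) (W3 := 26843546)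
    rfl (fun _ => rfl) s74_pm_012

noncomputable def cut_pm_022 : Cut := Cut.of [[⟨0, 0, 0, 67108864⟩, ⟨1, 1, 0, 67108864⟩, ⟨2, 1, 0, 67108864⟩, ⟨3, 0, 0, 1233125376⟩]]

noncomputable def f_pm_022 : ℕ → ℕ → ℕ → ℕ → Bool := onCell 1073741824 536870912 1073741824 536870912 1046898278 26843546
    (rowFX 2 true true false .pp 0 2 2 (qsf 0 536870912 1073741824 536870912 2) ndF0q0 ndF3q2 pcF2 cut_pm_022 Ext.none)

def k0_pm_022 : ∃ t, chk3 f_pm_022 t 8 1 1 = true :=
  ⟨(b (b (b (b (a (l 6) (a (l 6) (a (l 6) (a (l 6) (a (l 6) (a (l 6) (c (b (c (b (c (l 16549072) (l 16596920)) (c (l 16530576) (l 16558472))) (b (l 16595224) (l 16609032))) (c (b (l 16452136) (l 16418440)) (b (c (l 16546816) (l 16598984)) (l 16452616)))) (c (b (b (b (l 16599088) (l 16639456)) (l 16680184)) (b (l 16604864) (l 16544904))) (b (c (b (l 16530960) (l 16668456)) (c (b (l 16564488) (l 16662480)) (c (l 16559304) (l 16557920)))) (c (l 16551080) (c (l 16550552) (l 16508984)))))))))))) (a (b (l 6) (l 1)) (a (b (l 6) (b (l 6) (l 1))) (a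 (b (l 6) (b (l 6) (b (l 6) (l 1)))) (a (b (l 6) (b (l 6) (b (l 6) (b (l 6) (l 1))))) (c (c (b (l 16269360) (b (l 16224336) (l 16163608))) (b (b (l 16337984) (l 16313136)) (l 16198256))) (b (c (b (c (l 16418040) (l 16447784)) (c (l 16331016) (l 16239160))) (c (b (l 16448824) (l 16351840)) (c (l 16399528) (l 16293072)))) (b (a (l 6) (c (l 16176688) (c (c (l 16250200) (l 16254464)) (c (l 16255680) (l 16252688))))) (c (l 16154912) (c (l 16153632) (b (a (l 6) (c (l 16178720) (l 16137096))) (c (l 16130216) (c (c (l 16130088) (l 16130336)) (l 16131120)))))))))))))) (b (b (a (l 1) (a (l 1) (a (l 1) (c (c (l 16108168) (l 16104344)) (c (l 16097024) (c (l 16091536) (c (l 16089152) (l 16084560)))))))) (l 1)) (l 1))) (l 1)) (l 1)), by decide +kernel⟩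

def k1_pm_022 : ∃ t, chk3 f_pm_022 t 36 8 2 = true :=
  ⟨(b (b (b (a (c (b (l 16479864) (c (l 16542984) (l 16613984))) (l 16491888)) (b (l 16417104) (l 16471952))) (c (c (b (c (l 16517768) (l 16512200)) (l 16495744)) (b (l 16540744) (l 16539048))) (a (l 16600904) (l 16547288)))) (c (a (b (c (l 16479880) (l 16449584)) (l 16360624)) (c (b (l 16521888) (l 16488408)) (b (l 16549392) (l 16484760)))) (b (b (l 16548392) (c (l 16495656) (l 16607336))) (c (a (l 16437800) (l 16518904)) (l 16445080))))) (b (c (a (l 16203992) (b (l 16400920) (l 16382984))) (b (a (c (l 16434896) (c (l 16400024) (l 16433704))) (c (l 16457184) (l 16486784))) (a (c (l 16347640) (l 16368552)) (c (l 16428528) (l 16409832))))) (c (b (l 16239440) (l 16214832)) (a (l 16145744) (b (l 16298592) (l 16246096)))))), by decide +kernel⟩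

def k2_pm_022 : ∃ t, chk3 f_pm_022 t 36 8 3 = true :=
  ⟨(b (b (c (b (a (b (l 16516240) (l 16556448)) (b (l 16454024) (l 16519808))) (l 16509824)) (b (c (b (a (l 16510400) (l 16468368)) (l 16494440)) (a (c (b (l 16524480) (l 16583128)) (c (l 16518968) (l 16495544))) (c (l 16397960) (c (l 16414728) (b (l 16411056) (l 16498576)))))) (c (a (l 16584904) (l 16568824)) (c (l 16517944) (a (l 16555576) (l 16538744)))))) (c (c (l 16481000) (l 16491072)) (c (l 16494408) (c (l 16494256) (a (a (l 16506272) (l 16540592)) (l 16556016)))))) (c (b (b (c (l 16354656) (l 16483512)) (a (c (a (l 16338016) (l 16403112)) (l 16307968)) (l 16357816))) (a (b (c (l 16255680) (a (b (l 16291432) (l 16238032)) (l 16287368))) (c (l 16185048) (l 16126320))) (b (c (l 16296456) (l 16349064)) (c (l 16255304) (a (l 16244944) (l 16287160)))))) (c (b (a (l 16378960) (l 16471384)) (c (a (b (l 16211720) (a (l 16171824) (l 16210856))) (l 16157184)) (a (b (l 16296912) (a (b (l 16199552) (l 16148536)) (l 16216648))) (l 16282320)))) (c (b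 (a (l 16377760) (l 16470560)) (b (l 16249880) (a (a (b (l 16203352) (c (l 16150344) (l 16152352))) (l 16218240)) (l 16275384)))) (b (a (a (l 16315880) (l 16393784)) (l 16426232)) (a (b (l 16229880) (a (c (c (l 16138360) (l 16180360)) (l 16180160)) (l 16212920))) (l 16255536))))))), by decide +kernel⟩

def k3_pm_022 : ∃ t, chk3 f_pm_022 t 36 9 1 = true :=
  ⟨(b (c (b (c (l 16162168) (l 16156000)) (l 16118472)) (c (b (a (l 16123232) (c (l 16179160) (l 16119144))) (l 16108216)) (c (b (b (a (l 16068800) (c (l 16177224) (a (l 16180376) (l 16222048)))) (l 16074160)) (l 16103088)) (b (a (b (c (a (l 16114272) (b (l 16154640) (l 16135920))) (a (c (c (l 16113160) (l 16113664)) (l 16093160)) (b (c (l 16132400) (l 16157152)) (l 16070216)))) (l 16102032)) (b (b (c (l 16195304) (l 16209584)) (c (c (l 16191160) (l 16193152)) (l 16194768))) (c (c (l 16163680) (l 16164112)) (l 16166112)))) (l 211022224135))))) (l 1)), by decide +kernel⟩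

def k4_pm_022 : ∃ t, chk3 f_pm_022 t 37 8 1 = true :=
  ⟨(c (c (b (b (a (b (l 16343808) (b (l 16506224) (l 16583144))) (b (l 16265112) (l 16357152))) (b (a (c (l 16554168) (l 16631928)) (l 16499784)) (c (l 16464296) (l 16534744)))) (b (a (b (l 16380752) (l 16400336)) (b (l 16481360) (l 16401632))) (b (c (l 16365216) (l 16351880)) (a (l 16298352) (l 16349384))))) (b (a (b (b (l 16318104) (l 16467280)) (l 16565232)) (b (b (l 16259016) (l 16396376)) (l 16467304))) (b (c (b (l 16510544) (l 16386744)) (b (l 16595488) (l 16464752))) (b (a (l 16295936) (l 16420136)) (a (l 16299264) (l 16297600)))))) (b (b (c (b (b (l 16240416) (l 16293576)) (a (l 16473664) (l 16401528))) (b (b (c (a (l 16368056) (l 16264368)) (c (a (l 16360288) (l 16214136)) (c (a (l 16355456) (l 16209048)) (a (l 16267856) (c (l 16227632) (b (l 16191264) (l 16260568))))))) (c (l 16332208) (c (l 16296072) (c (l 16313232) (a (l 16405992) (l 16280624)))))) (c (a (l 16466024) (l 16371992)) (c (l 16305208) (a (l 16372304) (c (l 16384808) (l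 16321616))))))) (c (a (l 16511256) (l 16411096)) (c (l 16395272) (c (l 16394656) (a (l 16498264) (b (l 16376744) (l 16523704))))))) (c (b (l 16453464) (a (c (b (l 16442928) (l 16318008)) (l 16314360)) (c (l 16386840) (l 16473600)))) (c (c (l 16318240) (l 16317784)) (a (b (l 16416696) (c (l 16314392) (l 16371440))) (b (l 16506800) (l 16342368))))))), by decide +kernel⟩

def k5_pm_022 : ∃ t, chk3 f_pm_022 t 37 9 1 = true :=
  ⟨(b (c (c (b (l 16268944) (l 16224192)) (b (a (l 16239592) (b (l 16326200) (l 16282896))) (l 16219264))) (c (b (c (a (l 16244952) (b (l 16345136) (l 16292760))) (a (b (l 16210720) (l 16226368)) (b (l 16355872) (l 16305848)))) (c (l 16217008) (l 16219720))) (b (c (a (b (l 16239816) (c (l 16230432) (l 16234768))) (b (l 16359088) (l 16314288))) (a (c (b (l 16278784) (c (l 16237720) (l 16237824))) (l 16263488)) (l 16244744))) (c (a (l 16186192) (b (l 16245392) (l 16230376))) (c (a (b (l 16129552) (l 16164672)) (c (l 16190112) (l 16254848))) (b (l 16177336) (l 16204256))))))) (a (l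 1) (b (c (c (l 16222832) (l 16217816)) (c (l 16212800) (c (l 16210760) (l 16154592)))) (l 1)))), by decide +kernel⟩

def k6_pm_022 : ∃ t, chk3 f_pm_022 t 38 4 2 = true :=
  ⟨(b (b (b (b (a (c (a (l 16233080) (a (l 16196480) (l 16106856))) (b (l 16074160) (l 16264192))) (c (a (l 16059384) (l 16017328)) (l 16039776))) (c (a (b (l 16311288) (l 16417648)) (b (l 16235440) (l 16299584))) (c (l 16161688) (l 16228040)))) (a (c (b (l 16429160) (l 16486144)) (l 16339216)) (c (b (l 16373992) (l 16459368)) (l 16309240)))) (b (c (a (c (l 16485576) (l 16518176)) (a (l 16438768) (l 16421624))) (a (l 16507360) (l 16410832))) (c (a (b (c (l 16467784) (l 16459240)) (l 16326832)) (b (l 16498240) (l 16370848))) (c (b (l 16461248) (l 16344632)) (l 16357384))))) (b (c (a (b (l 16320400) (l 16301760)) (b (l 16336432) (l 16379088))) (b (a (b (l 16283816) (l 16337480)) (b (l 16430128) (c (l 16452792) (l 16450424)))) (a (l 16304192) (l 16309400)))) (c (b (a (l 16275056) (l 16346104)) (l 16331312)) (a (l 16281224) (l 16311904))))),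 by decide +kernel⟩

def k7_pm_022 : ∃ t, chk3 f_pm_022 t 76 8 3 = true :=
  ⟨(c (b (b (b (b (a (l 16197104) (l 16145848)) (l 16224696)) (l 16299656)) (b (l 16366256) (l 16447888))) (b (l 16538496) (l 16443136))) (c (b (b (b (b (a (l 16187704) (b (l 16118048) (l 16155672))) (l 16219848)) (l 16185208)) (b (l 16368928) (l 16463120))) (b (l 16495920) (l 16461456))) (c (b (b (b (b (a (l 16137096) (b (a (l 16126872) (l 16099040)) (l 16142240))) (a (l 16230072) (l 16177864))) (l 16198280)) (b (l 16325504) (l 16420208))) (b (b (l 16521048) (l 16573848)) (l 16375088))) (a (b (b (b (b (c (b (l 16160576) (l 16186272)) (c (l 16129328) (c (l 16170312) (l 16128008)))) (c (l 16225936) (l 16203120))) (c (l 16307472) (l 16286320))) (b (l 16350936) (l 16486736))) (l 16442712)) (b (b (b (c (b (b (a (l 16122384) (b (l 16087440) (l 16102152))) (l 16134048)) (l 16173600)) (a (c (b (b (l 16119664) (l 16145856)) (l 16186976)) (b (c (l 16090072) (b (c (l 16117896) (l 16117712)) (l 16145432))) (l 16186848))) (c (b (b (b (l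 16064176) (l 16097992)) (l 16117880)) (l 16158944)) (b (c (b (b (b (l 16080464) (l 16086896)) (l 16096872)) (l 16117520)) (b (a (a (c (l 16101976) (l 16080824)) (c (l 16094264) (l 16094080))) (c (l 16081728) (l 16081552))) (a (l 16125648) (l 16109248)))) (a (l 16146072) (l 16150632)))))) (c (l 16171024) (a (l 16247880) (c (l 16177344) (l 16220496))))) (a (b (l 16333856) (l 16456096)) (b (c (l 16347192) (l 16349496)) (l 16410248)))) (b (l 16459304) (l 16563232))))))), by decide +kernel⟩

def k8_pm_022 : ∃ t, chk3 f_pm_022 t 76 9 3 = true :=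
  ⟨(b (c (b (c (l 16300280) (l 16369880)) (c (l 16310520) (b (l 16339384) (l 16293016)))) (c (b (l 16412912) (c (l 16261864) (b (l 16348008) (l 16240408)))) (c (b (l 16300544) (c (b (l 16347008) (l 16240872)) (l 16331072))) (l 16312720)))) (b (c (l 16266712) (c (c (l 16264760) (b (l 16266024) (l 16264664))) (b (l 16268784) (l 16263000)))) (l 1))), by decide +kernel⟩

def k9_pm_022 : ∃ t, chk3 f_pm_022 t 77 4 3 = true :=
  ⟨(b (b (b (c (b (b (l 16050968) (l 16124816)) (l 16199368)) (c (b (b (b (l 16022216) (l 16059632)) (l 16097744)) (l 16167560)) (b (c (b (b (l 15953720) (l 16045712)) (l 16081192)) (c (b (b (b (l 15983848) (l 16019384)) (l 16037272)) (l 16076680)) (b (c (a (b (l 16042000) (l 16068072)) (l 15921088)) (b (a (c (l 16040672) (c (l 16040112) (l 16039968))) (c (l 15974608) (l 15973808))) (l 15991960))) (c (l 16075904) (l 16054824))))) (c (l 16159032) (c (l 16157696) (l 16031784)))))) (c (l 16166392) (c (l 16235168) (c (l 16212376) (b (c (l 16221312) (l 16266112)) (l 16287032)))))) (c (b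 (l 16439464) (l 16574912)) (c (b (l 16416848) (l 16595832)) (b (c (b (l 16461400) (l 16496328)) (l 16358016)) (l 16464048))))) (b (c (b (c (l 16484968) (l 16509240)) (c (l 16324608) (l 16337736))) (c (b (l 16487480) (c (l 16403880) (l 16404952))) (b (c (c (l 16507760) (l 16477512)) (l 16507464)) (l 16328088)))) (c (c (l 16353224) (l 16252000)) (c (b (c (l 16329472) (b (l 16295320) (l 16341448))) (l 16224144)) (b (b (l 16343912) (l 16346792)) (l 16358832)))))), by decide +kernel⟩

def k10_pm_022 : ∃ t, chk3 f_pm_022 t 39 8 1 = true :=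
  ⟨(b (c (b (b (a (c (a (l 15975888) (l 15893328)) (l 15913352)) (c (a (l 15813208) (l 15840704)) (l 15773024))) (c (c (b (l 16011704) (l 16120592)) (l 15948392)) (l 15923616))) (c (b (l 16081168) (l 16250024)) (l 16034576))) (c (b (b (b (a (l 15922912) (l 15803568)) (l 15829360)) (l 15922992)) (c (l 16125400) (l 16047312))) (b (c (b (b (a (l 15805792) (l 15748080)) (l 15863184)) (l 15805264)) (c (b (b (b (a (l 15865680) (l 15766752)) (l 15832864)) (l 15761736)) (l 15879608)) (c (b (b (a (a (l 15884672) (l 15841256)) (b (l 15761320) (l 15783312))) (l 15819632)) (a (l 16026312) (l 15897536))) (b (a (b (c (a (l 15923816) (l 15859336)) (a (c (l 15859792) (l 15922344)) (c (l 15816280) (l 15857824)))) (c (l 15944752) (l 15944688))) (b (c (b (l 15758128) (l 15780664)) (b (b (l 15728776) (l 15760688)) (l 15779512))) (l 15712432))) (a (l 15984384) (l 15876680)))))) (c (l 15934736) (c (b (l 16068720) (l 16172120)) (b (c (l 15899168) (l 16006528)) (l 16048584))))))) (c (b (b (c (l 16324224) (l 16278656)) (c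 (a (l 16472560) (l 16355400)) (l 16315768))) (c (c (b (l 16337928) (l 16401960)) (b (l 16394536) (l 16429528))) (l 16363424))) (c (b (l 16156224) (l 16320008)) (c (b (l 16152720) (l 16339360)) (b (c (c (l 16256120) (b (l 16272280) (l 16324432))) (c (l 16072480) (l 16254368))) (c (l 16260448) (l 16421896))))))), by decide +kernel⟩

def k11_pm_022 : ∃ t, chk3 f_pm_022 t 39 9 1 = true :=
  ⟨(c (b (c (b (c (l 16377952) (l 16383960)) (b (l 16385040) (l 16379192))) (a (b (l 16453920) (b (l 16418752) (l 16452280))) (b (l 16483464) (l 16396256)))) (c (b (l 16345560) (l 16464824)) (b (b (l 16340528) (l 16430840)) (l 16485536)))) (b (c (b (l 16444336) (c (l 16388256) (l 16477016))) (c (c (l 16522968) (b (l 16528032) (l 16478248))) (b (l 16415312) (l 16359752)))) (c (b (c (a (l 16418248) (l 16503664)) (c (l 16293384) (l 16277920))) (c (l 16486784) (l 16470872))) (c (b (b (c (l 16458720) (l 16372984)) (c (l 16352856) (b (l 16335024) (l 16285008)))) (c (l 16327968) (c (l 16347160) (l 16413920)))) (b (b (l 16521600)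 (l 16403720)) (a (l 16449896) (l 16495312))))))), by decide +kernel⟩

def k12_pm_022 : ∃ t, chk3 f_pm_022 t 9 5 1 = true :=
  ⟨(a (l 1) (b (b (a (l 1) (b (c (l 16313512) (c (l 16373632) (c (l 16303912) (l 16502048)))) (l 1))) (l 1)) (l 1))), by decide +kernel⟩

def k13_pm_022 : ∃ t, chk3 f_pm_022 t 9 3 1 = true :=
  ⟨(l 1), by decide +kernel⟩

def k14_pm_022 : ∃ t, chk3 f_pm_022 t 40 8 1 = true :=
  ⟨(b (c (c (b (a (b (a (l 15786840) (l 15733880)) (b (l 15873216) (l 15932352))) (b (a (l 15681480) (l 15629672)) (l 15794200))) (b (a (l 16003440) (l 15889160)) (l 16027560))) (b (b (a (l 15746360) (l 15598248)) (l 15710336)) (l 15748480))) (c (b (b (b (a (l 15693192) (l 15585552)) (l 15704792)) (l 15748240)) (c (l 15899584) (l 15819728))) (b (c (b (b (a (l 15678440) (l 15527656)) (l 15673208)) (l 15627960)) (b (b (b (c (a (l 15654968) (l 15545584)) (a (c (l 15649240) (c (l 15645904) (l 15643424))) (c (l 15539552) (b (c (l 15530456) (l 15506552)) (l 15537320))))) (c (l 15624768) (c (l 15615208) (l 15484104))))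 (c (l 15654400) (c (l 15648760) (l 15562528)))) (c (l 15721992) (c (b (l 15695360) (l 15742424)) (a (l 15776104) (l 15663424)))))) (c (b (l 15822928) (l 15921448)) (c (b (l 15818496) (l 15917000)) (b (a (l 15856408) (l 15737016)) (l 15857560))))))) (c (b (c (l 16073936) (l 15991016)) (c (b (l 16245816) (l 16177728)) (l 16183104))) (c (b (l 16034624) (l 16051904)) (b (c (l 16028496) (c (c (l 16067280) (l 15946240)) (l 15968520))) (c (l 16067600) (c (l 16013240) (l 16254232))))))), by decide +kernel⟩

def k15_pm_022 : ∃ t, chk3 f_pm_022 t 40 9 1 = true :=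
  ⟨(c (b (c (a (b (l 16392048) (l 16353472)) (b (l 16326824) (l 16282712))) (b (l 16366776) (c (l 16298960) (l 16375160)))) (c (b (a (l 16481392) (l 16332256)) (l 16364840)) (b (c (a (l 16486480) (l 16376448)) (l 16224896)) (a (l 16441720) (l 16321936))))) (b (c (b (l 16237984) (l 16283416)) (c (c (l 16290040) (b (l 16296808) (l 16348344))) (b (b (l 16239656) (l 16367512)) (l 16386552)))) (c (c (b (l 16281096) (a (l 16433640) (l 16327768))) (b (l 16359944) (a (l 16425360) (l 16313560)))) (c (b (c (l 16398672) (c (l 16402080) (l 16399248))) (c (a (l 16419896) (l 16313656)) (l 16337536))) (b (l 16398528) (a (l 16388672) (l 16308808))))))), by decide +kernel⟩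

def k16_pm_022 : ∃ t, chk3 f_pm_022 t 41 4 2 = true :=
  ⟨(b (a (b (b (b (b (a (l 15531336) (l 15480696)) (l 15561768)) (c (l 15692384) (l 15657168))) (c (l 15737856) (l 15769544))) (c (b (l 15964104) (l 16115224)) (b (l 15920560) (l 16096560)))) (b (b (b (b (a (a (l 15443448) (l 15445208)) (a (a (l 15455496) (l 15463104)) (b (b (a (a (a (l 15437000) (a (l 15438424) (a (a (l 15438840) (a (a (a (l 15438752) (l 15439360)) (l 15438776)) (l 15438856))) (l 15439128)))) (l 15441080)) (l 15446264)) (l 15462616)) (l 15492288)))) (c (l 15541928) (l 15523672))) (c (a (l 15632280) (l 15654112)) (l 15607248))) (c (a (l 15740616) (l 15783736)) (l 15719760))) (b (c (l 15887968) (a (l 15854360) (l 15873480))) (c (l 15975216) (l 16039568))))) (b (a (c (b (l 16229064) (l 16270672)) (b (l 16218048) (l 16253392))) (c (b (l 16175416) (a (l 16221432) (l 16243728))) (b (l 16168840) (l 16222472)))) (a (c (b (b (l 16300728) (l 16302800)) (l 16277848)) (b (l 16232592) (l 16147432))) (c (b (b (l 16262536) (l 16262704)) (a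 (l 16235672) (l 16262696))) (b (a (l 16226952) (l 16252912)) (a (l 16165184) (l 16232240))))))), by decide +kernel⟩

def k17_pm_022 : ∃ t, chk3 f_pm_022 t 41 4 6 = true :=
  ⟨(b (b (b (b (a (a (l 15537184) (l 15485520)) (a (a (l 15447448) (l 15449296)) (a (a (l 15459792) (l 15467640)) (a (a (a (l 15471400) (a (l 15472880) (a (a (l 15473272) (l 15474256)) (l 15473472)))) (l 15475472)) (l 15480792))))) (a (l 15608864) (l 15558160))) (a (l 15638984) (b (l 15631568) (l 15708840)))) (a (c (l 15997056) (l 15992408)) (c (l 15793376) (b (l 15838936) (l 16028648))))) (b (a (c (l 16231496) (l 16228800)) (a (b (l 16132288) (l 16203952)) (l 16138336))) (b (a (l 16259808) (c (l 16234048) (l 16230864))) (a (c (l 16234256) (l 16223304)) (c (l 16203128) (a (l 16180024) (l 16211256))))))), by decide +kernel⟩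

def k18_pm_022 : ∃ t, chk3 f_pm_022 t 41 4 14 = true :=
  ⟨(b (a (b (b (b (a (l 15491880) (l 15397688)) (l 15570696)) (l 15701248)) (b (l 15890640) (l 16081016))) (b (b (b (b (a (a (l 15398016) (l 15399800)) (a (a (l 15410424) (l 15418288)) (a (a (a (l 15422136) (a (l 15423616) (a (a (l 15424032) (l 15424968)) (l 15424272)))) (l 15426288)) (l 15431656)))) (l 15460336)) (a (l 15508024) (l 15530696))) (b (l 15563040) (l 15694808))) (b (a (l 15759800) (l 15842288)) (a (a (l 16014128) (l 16013648)) (l 16031440))))) (c (a (b (l 16224440) (l 16242264)) (b (b (l 16158160) (l 16107736)) (a (a (l 16196152) (l 16202888)) (l 16230656)))) (b (a (b (l 16207464) (l 16248712)) (a (a (b (l 16148144) (l 16199160)) (l 16120696)) (l 16141968))) (l 16120480)))), by decide +kernel⟩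

def k19_pm_022 : ∃ t, chk3 f_pm_022 t 41 4 15 = true :=
  ⟨(b (a (b (b (c (b (a (l 15456816) (b (l 15423888) (l 15466416))) (l 15558992)) (c (b (a (l 15492008) (l 15439320)) (l 15554136)) (b (b (a (c (l 15466048) (l 15464224)) (l 15411440)) (l 15484264)) (l 15556240)))) (c (b (l 15649960) (l 15740432)) (b (l 15649448) (l 15743624)))) (b (c (l 15827224) (l 15883928)) (l 16048032))) (b (b (b (c (b (a (a (l 15385096) (l 15386888)) (a (a (l 15397568) (l 15405472)) (a (a (a (l 15409344) (a (l 15410832) (a (a (l 15411248) (l 15412192)) (l 15411488)))) (l 15413512)) (l 15418912)))) (a (l 15428984) (l 15451608))) (a (a (c (b (l 15377696) (l 15421888)) (a (l 15402216) (a (l 15392352) (l 15347144)))) (c (l 15402352) (l 15398608))) (b (b (b (b (a (a (l 15364544) (l 15372456)) (a (a (a (l 15376408) (a (l 15377888) (a (a (l 15378328) (l 15379240)) (l 15378648)))) (l 15380688)) (l 15386112))) (l 15380880)) (l 15390272)) (l 15406464)) (l 15442056)))) (a (a (c (l 15495072) (a (l 15496360) (l 15485128))) (c (l 15496848)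 (l 15492584))) (c (l 15518752) (l 15514648)))) (a (a (c (b (l 15586840) (l 15676264)) (l 15548416)) (l 15590064)) (l 15591408))) (c (a (a (b (l 15821640) (l 16021472)) (l 15835616)) (l 15833768)) (l 15923688)))) (a (b (l 16223424) (l 16237640)) (b (l 16180872) (l 16209888)))), by decide +kernel⟩

def k20_pm_022 : ∃ t, chk3 f_pm_022 t 21 4 1 = true :=
  ⟨(b (b (c (b (c (b (a (l 15582048) (l 15686592)) (a (l 15722776) (l 15828368))) (b (l 15472000) (l 15679336))) (c (a (l 15832216) (l 15960200)) (a (l 15801368) (l 15909944)))) (c (b (b (a (l 15540336) (l 15648056)) (l 15611104)) (a (l 15755032) (l 15865200))) (b (c (b (a (l 15474016) (l 15624864)) (a (l 15602056) (l 15711976))) (b (c (a (l 15438936) (l 15611344)) (a (c (l 15495080) (b (l 15467280) (l 15514992))) (c (l 15541680) (l 15601504)))) (c (l 15541512) (a (l 15586840) (l 15697976))))) (c (a (l 15733696) (l 15845032)) (a (c (l 15643216) (l 15728816)) (l 15798032)))))) (c (c (b (a (l 15985152) (l 16093120)) (a (l 16042392) (l 16163736))) (b (a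 (l 15941824) (l 16051360)) (a (l 16107672) (l 16209488)))) (c (a (b (l 15920176) (l 16099856)) (b (l 16031280) (l 16203112))) (c (a (b (l 15912280) (c (l 16094976) (l 16092400))) (c (l 16113472) (l 15943312))) (a (b (l 15849168) (l 16098152)) (l 15904288)))))) (c (b (a (c (b (l 16241808) (a (l 16289984) (l 16336824))) (b (l 16236144) (l 16305512))) (c (b (l 16333520) (l 16405432)) (l 16241048))) (c (a (b (b (l 16309912) (l 16350512)) (a (l 16307168) (l 16365128))) (b (a (l 16419616) (l 16487128)) (a (l 16425776) (l 16486256)))) (a (b (l 16338904) (l 16251824)) (b (l 16458816) (l 16446312))))) (b (a (c (b (l 16230480) (l 16259328)) (c (b (l 16126800) (l 16182840)) (l 16259624))) (c (b (l 16324792) (l 16335184)) (b (c (l 16285176) (l 16319344)) (l 16322752)))) (a (c (c (l 16316888) (b (l 16333544) (l 16303576))) (b (c (l 16264160) (l 16332080)) (l 16301704))) (c (c (l 16428368) (b (l 16456024) (l 16446384))) (b (l 16341000) (l 16444464))))))), by decide +kernel⟩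

def k21_pm_022 : ∃ t, chk3 f_pm_022 t 20 10 1 = true :=
  ⟨(a (b (b (c (c (l 16329672) (l 16305856)) (c (c (l 16323648) (c (l 16320904) (l 16274416))) (c (c (a (l 16370008) (l 16272808)) (l 16270400)) (a (l 16360480) (l 16259752))))) (b (c (l 16145968) (c (c (l 16267912) (l 16243608)) (l 16264040))) (l 1))) (l 1)) (a (b (c (c (b (l 16219656) (l 16171048)) (b (l 16210744) (l 16166576))) (c (c (b (l 16200760) (l 16163224)) (b (c (l 16194584) (l 16190056)) (b (l 16154560) (l 16170456)))) (b (l 16175536) (b (l 16144688) (l 16164552))))) (l 1)) (b (c (b (c (l 16208048) (a (l 16177920) (l 16208440))) (c (b (l 16159560) (l 16173608)) (b (l 16154352) (l 16169288)))) (c (c (b (l 16070544) (b (l 16148752) (l 16166056))) (b (a (a (l 16146296) (l 16153568)) (l 16179256)) (a (a (b (l 16123184) (l 16140464)) (l 16142624)) (l 16068392)))) (b (l 16151544) (b (l 16126600) (l 16155048))))) (a (l 1) (c (l 213706837367) (c (c (l 16212872) (l 16142144)) (l 16314568))))))), by decide +kernel⟩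

def k22_pm_022 : ∃ t, chk3 f_pm_022 t 21 10 1 = true :=
  ⟨(b (c (c (b (a (l 16227520) (l 16312072)) (a (l 16145616) (b (l 16423368) (l 16348720)))) (a (b (c (l 16272928) (l 16259096)) (b (l 16268976) (l 16254784))) (b (l 16398392) (b (l 16402104) (l 16231568))))) (c (a (b (c (l 16273272) (l 16207080)) (c (b (l 16253576) (l 16223712)) (b (l 16141480) (a (l 16207488) (l 16278848))))) (b (c (l 16410992) (l 16414472)) (c (b (l 16388016) (l 16343128)) (b (l 16388392) (l 16421840))))) (b (l 16254272) (b (l 16159688) (a (l 16140784) (l 16418320)))))) (c (a (c (b (l 16262896) (l 16056120)) (b (l 16241648) (l 16030368))) (b (c (l 16063968) (a (l 16149792) (l 16075072))) (c (l 15921800) (l 15791016)))) (c (b (a (c (l 16202296) (b (l 16269896) (l 16313240))) (c (b (a (l 16340056) (l 16278040)) (l 16079280)) (b (l 16325448) (l 16130248)))) (c (a (l 15983928) (l 15845152)) (l 15792064))) (a (b (a (l 16344464) (l 16170616)) (l 16083712)) (b (l 16002576) (a (l 15951624) (l 15853544))))))), by decide +kernel⟩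

def k23_pm_022 : ∃ t, chk3 f_pm_022 t 10 11 1 = true :=
  ⟨(a (l 1) (a (l 1) (a (l 1) (a (l 1) (b (c (c (l 15422432) (l 15324632)) (l 15384720)) (l 1)))))), by decide +kernel⟩

def k24_pm_022 : ∃ t, chk3 f_pm_022 t 22 4 1 = true :=
  ⟨(b (b (c (b (c (b (a (l 15785664) (l 15879120)) (a (l 15928656) (l 16023504))) (b (l 15736024) (l 15882928))) (c (a (l 16062184) (l 16158968)) (l 15979472))) (c (b (b (a (l 15750248) (l 15846768)) (l 15901760)) (l 15874120)) (b (b (b (c (l 15752936) (c (l 15721008) (a (l 15641040) (l 15760648)))) (c (l 15805200) (a (l 15732264) (l 15832520)))) (c (l 15845808) (a (l 15803472) (l 15904120)))) (c (l 15897648) (a (l 15947072) (l 16048512)))))) (c (b (c (l 16121832) (l 16040504)) (c (a (l 16290232) (l 16371096)) (l 16243128))) (c (a (l 16100240) (l 16225000)) (a (b (l 16110696) (l 16289080)) (l 16179320))))) (c (b (c (a (b (l 16432160) (l 16475232)) (l 16460352)) (a (l 16338096) (l 16459776))) (c (b (b (a (l 16548112) (l 16507264)) (l 16376504)) (a (a (l 16502520) (l 16461320))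 (l 16401192))) (a (b (l 16555224) (l 16485888)) (b (l 16482992) (l 16399056))))) (b (a (c (b (l 16426416) (l 16387064)) (c (l 16339464) (l 16459048))) (c (c (l 16543224) (l 16500720)) (l 16460912))) (c (a (b (c (l 16555160) (l 16555272)) (l 16312624)) (b (l 16417424) (l 16373560))) (a (l 16505872) (l 16437400)))))), by decide +kernel⟩

def k25_pm_022 : ∃ t, chk3 f_pm_022 t 23 4 1 = true :=
  ⟨(a (b (b (c (b (a (c (b (l 15910984) (l 16056224)) (l 15876432)) (b (l 15854576) (l 15986520))) (c (a (l 16171928) (l 16140544)) (l 16119568))) (b (c (b (a (l 15879728) (l 15828296)) (l 15956680)) (c (b (b (l 15745768) (l 15859640)) (l 15922360)) (a (c (b (b (l 15823568) (l 15869528)) (l 15940248)) (a (a (a (l 15904544) (l 15802120)) (l 15896720)) (l 15875312))) (b (b (c (l 15772096) (l 15763600)) (l 15811992)) (l 15883832))))) (c (l 16078096) (a (a (l 16014872) (l 16073040)) (l 16030936))))) (c (b (c (l 16305880) (l 16267440)) (c (l 16318984) (l 16389112))) (a (c (l 16241552) (l 16174760)) (l 16248040)))) (c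 (b (c (a (l 16467952) (l 16551872)) (l 16430688)) (b (a (c (l 16392792) (l 16432872)) (l 16509952)) (c (l 16328376) (l 16347272)))) (b (c (a (l 16425840) (l 16550280)) (l 16429992)) (c (a (a (l 16293944) (l 16428568)) (l 16474664)) (l 16440880))))) (b (b (c (b (c (b (l 15831888) (l 15943360)) (l 15761720)) (c (l 16063432) (l 16014696))) (b (c (b (l 15797952) (l 15867184)) (b (c (l 15776480) (b (c (l 15751288) (l 15742712)) (l 15770480))) (c (l 15831768) (l 15778008)))) (c (l 15971496) (l 15928976)))) (c (c (l 16147616) (l 16186488)) (b (l 16139104) (l 16317864)))) (b (c (l 16430608) (l 16426344)) (c (c (l 16504704) (l 16546520)) (l 16441472))))), by decide +kernel⟩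

def k26_pm_022 : ∃ t, chk3 f_pm_022 t 11 10 1 = true :=
  ⟨(a (b (b (c (a (c (a (l 16452472) (l 16372632)) (l 16433672)) (c (l 16205296) (l 16319040))) (c (a (c (l 16432880) (l 16429816)) (l 16291880)) (l 16333360))) (c (c (a (b (l 16384712) (l 16162712)) (b (l 16268104) (l 16115544))) (a (b (l 16403880) (l 16211464)) (l 16074720))) (c (c (b (l 16191184) (l 16045024)) (l 16118200)) (l 16074416)))) (b (c (a (c (l 15837480) (a (l 15929904) (l 15913912))) (c (a (l 15875512) (l 15848096)) (c (l 15950288) (l 15975392)))) (c (a (c (l 15913920) (l 16106448)) (l 15909192)) (l 15950992))) (c (c (a (l 15714376) (a (l 15648800) (l 15576120))) (a (c (l 15755432) (l 15655192)) (c (l 15407440) (l 15396888)))) (a (c (c (a (l 15790704) (l 15730632)) (l 15707736)) (l 15673864)) (c (l 15609696) (l 15643632)))))) (b (b (c (a (c (l 16288624) (l 16285792)) (l 16463720)) (c (a (l 16261960) (l 16462648)) (l 16392248))) (c (a (a (b (l 16166448) (c (l 16154792) (l 16151192))) (l 16193848)) (l 16172840)) (a (c (b (l 16238040)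 (l 16032208)) (l 16174976)) (l 16294920)))) (c (c (b (a (a (a (l 15801880) (l 15933368)) (l 15977008)) (l 16004112)) (a (a (c (l 15455440) (l 15384304)) (l 15636032)) (l 15649928))) (a (a (b (l 15884216) (c (l 15518704) (l 15522816))) (l 15638536)) (b (l 16072344) (l 15754248)))) (a (c (l 15647984) (l 15777616)) (l 15736736))))), by decide +kernel⟩

def k27_pm_022 : ∃ t, chk3 f_pm_022 t 11 11 1 = true :=
  ⟨(b (a (c (c (a (b (l 15466976) (l 15176488)) (b (l 15103680) (l 14897920))) (a (c (l 15101464) (b (l 15448256) (l 15151152))) (b (c (l 15307544) (l 15223384)) (c (l 15007232) (l 14996728))))) (a (c (l 15085320) (b (l 15273032) (l 15119264))) (c (b (a (l 15336520) (l 15281736)) (l 14986848)) (b (l 15314624) (l 14913080))))) (c (a (a (c (b (a (a (l 15234504) (l 15242976)) (l 15267216)) (a (a (l 14941288) (l 14945984)) (l 14963200))) (c (a (b (l 15241384) (l 14927040)) (l 14948960)) (b (l 15270216) (l 14932176)))) (c (b (l 15322672) (l 15002112)) (b (l 15313736) (l 14996608)))) (c (b (a (l 15370832)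 (l 15466704)) (a (l 15061384) (l 15134112))) (b (l 15416984) (a (l 14984624) (l 15142992))))) (a (c (b (l 15181376) (a (l 14825288) (l 14999336))) (b (l 15293808) (l 14923016))) (c (l 15023272) (l 15253504))))) (a (a (l 1) (a (l 1) (c (c (c (l 14742248) (l 14729224)) (l 14645744)) (l 14669792)))) (c (a (a (a (a (c (a (l 14694712) (l 14689448)) (c (l 14671624) (l 14658024))) (c (l 14697552) (l 14670368))) (c (l 14714864) (l 14687912))) (c (l 14749304) (l 14723152))) (c (b (l 14869448) (l 14771816)) (l 14578144))) (c (a (l 14679768) (b (l 14769616) (l 14726464))) (a (a (l 14629744) (l 14686144)) (b (l 14848648) (l 14711384))))))), by decide +kernel⟩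

def k28_pm_022 : ∃ t, chk3 f_pm_022 t 5 3 1 = true :=
  ⟨(a (l 1) (a (l 1) (a (l 1) (b (b (c (l 14523768) (l 14465240)) (l 1)) (l 1))))), by decide +kernel⟩

def k29_pm_022 : ∃ t, chk3 f_pm_022 t 6 8 1 = true :=
  ⟨(a (b (c (b (a (c (l 15874800) (l 15850616)) (c (l 15832856) (b (l 15815840) (l 15890640)))) (a (a (l 15888392) (l 15957120)) (l 15936144))) (c (b (b (a (l 15795144) (l 15732232)) (a (l 15845648) (l 15845648))) (a (a (l 15904272) (l 15888720)) (l 15888720))) (b (c (b (a (l 15773632) (l 15773632)) (a (l 15809960) (l 15809960))) (b (a (c (l 15760952) (b (l 15742672) (l 15763488))) (c (b (l 15751248) (l 15769624)) (l 15711000))) (a (l 15797968) (l 15797968)))) (a (a (b (l 15847056) (l 15908080)) (l 15865792)) (l 15865792))))) (c (a (b (a (l 16083048) (l 16020320)) (c (l 16191920) (l 16173880))) (b (l 16005832) (c (l 16080680) (l 16060680)))) (a (b (a (l 16014464) (c (l 15975616) (l 15965472))) (l 15995248)) (b (c (l 15960744) (l 15950344)) (a (l 16051768) (l 16037456)))))) (c (b (b (a (c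 (b (l 15829176) (l 15922544)) (b (l 15815840) (l 15890640))) (b (l 15822256) (l 15904472))) (a (c (l 15983424) (l 15933304)) (l 15957120))) (c (b (l 16025488) (l 16071664)) (a (l 16022624) (l 16022624)))) (b (c (b (a (b (l 15795144) (l 15845648)) (b (l 15795144) (l 15845648))) (a (l 15888720) (l 15888720))) (a (b (c (b (l 15773632) (l 15809960)) (b (c (l 15719016) (l 15752944)) (l 15797968))) (l 15865792)) (b (b (c (l 15773632) (b (l 15746456) (l 15767048))) (l 15804952)) (l 15865792)))) (a (c (c (l 16004176) (l 15999240)) (l 15991832)) (b (l 15955544) (l 16037456)))))), by decide +kernel⟩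

def k30_pm_022 : ∃ t, chk3 f_pm_022 t 6 9 1 = true :=
  ⟨(a (b (c (a (a (l 16371160) (l 16274176)) (a (l 16182296) (l 16114568))) (a (c (l 16315048) (l 16310328)) (c (l 16141496) (l 16133816)))) (c (a (b (l 16333928) (l 16310824)) (c (l 16213960) (l 16207840))) (a (c (l 16391696) (l 16388904)) (l 16093816)))) (a (a (b (c (l 16077920) (l 16059848)) (c (l 16084264) (l 16067400))) (b (c (l 16069488) (l 16051104)) (c (l 16023224) (l 16004112)))) (b (c (l 16069488) (l 16051104)) (c (l 15988352) (l 15967936))))), by decide +kernel⟩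

def k31_pm_022 : ∃ t, chk3 f_pm_022 t 7 4 1 = true :=
  ⟨(b (c (b (a (b (c (a (l 15874800) (l 15874800)) (b (l 15815840) (l 15890640))) (c (l 15983424) (l 15933304))) (b (c (l 15874800) (b (l 15815840) (l 15890640))) (c (l 15983424) (l 15933304)))) (a (c (l 16050520) (b (l 15982272) (l 16051504))) (c (l 16050520) (b (l 15982272) (l 16051504))))) (b (a (c (b (b (a (l 15795144) (l 15795144)) (l 15845648)) (c (l 15895360) (l 15878224))) (b (c (b (a (l 15773632) (l 15773632)) (l 15809960)) (a (c (l 15759976) (l 15774192)) (c (l 15780944) (l 15774192)))) (a (l 15865792) (l 15865792)))) (c (b (b (c (l 15803040) (l 15790496)) (l 15845648)) (c (l 15895360) (l 15878224))) (b (c (b (a (l 15773632) (l 15773632)) (l 15809960)) (b (a (a (l 15756632) (l 15756632)) (b (c (l 15751248) (l 15742672)) (l 15767048))) (a (l 15797968) (l 15797968)))) (a (l 15865792) (l 15865792))))) (a (c (l 16001704) (l 15991832)) (c (l 16001704) (b (l 15950344) (l 16032776)))))) (c (b (a (c (l 16074080) (l 16064888)) (l 16069488))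 (a (l 15982784) (l 15982784))) (b (a (c (l 16055704) (l 16046512)) (l 16051104)) (a (l 15962152) (l 15962152))))), by decide +kernel⟩

def k32_pm_022 : ∃ t, chk3 f_pm_022 t 3 5 1 = true :=
  ⟨(a (b (a (b (a (b (c (l 16366872) (l 16383544)) (c (a (l 16315600) (l 16315976)) (l 16324256))) (c (c (l 16130352) (l 16083264)) (l 16138456))) (a (c (b (c (l 16121320) (l 16097048)) (a (c (l 15881744) (l 15883888)) (l 16039192))) (a (l 15852880) (l 15979680))) (c (b (l 16297128) (l 16041568)) (b (l 16463656) (l 16158336))))) (b (a (c (a (l 16084504) (l 16005176)) (l 16027768)) (c (b (l 15902480) (l 15903712)) (l 15864456))) (a (c (b (l 16214096) (l 16277848)) (l 16314080)) (c (l 16084608) (l 16242696))))) (a (b (b (a (c (a (c (l 15528736) (l 15567040)) (l 15470240)) (l 15619368)) (c (l 15696952) (l 15929616))) (c (a (c (a (a (l 15207288) (l 15286240)) (l 15396296)) (l 15199976)) (c (l 15464728) (l 15621416))) (a (l 15304552) (l 15599704)))) (c (a (c (a (b (l 14911824) (l 14868856)) (b (l 15125304) (l 14995144)))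 (b (a (l 14834752) (l 15149888)) (a (l 14858336) (l 15001952)))) (c (a (b (l 15300160) (l 15145736)) (l 15389832)) (b (l 15387832) (l 15225112)))) (a (c (b (l 15073216) (a (l 14852888) (l 14999960))) (b (l 15048448) (l 14924448))) (l 15255832)))) (b (a (c (a (l 15810480) (l 16156976)) (l 15882520)) (b (l 16419872) (l 16211128))) (a (c (a (l 15516736) (l 15707544)) (l 15591608)) (c (l 15938360) (l 15916576)))))) (b (a (b (c (a (b (l 15865512) (l 15822800)) (l 15840608)) (b (l 15841832) (l 15795288))) (a (c (l 16089664) (l 16095864)) (c (l 16119768) (l 16102760)))) (b (c (l 15840608) (l 15816280)) (c (l 16115536) (l 16098344)))) (a (b (a (b (l 16534712) (l 16395416)) (b (l 16305784) (l 16539720))) (c (l 16107304) (l 16074928))) (a (b (b (l 16445312) (l 16621144)) (c (l 16671400) (l 16626712))) (b (l 16448256) (c (l 16769312) (l 16769112))))))), by decide +kernel⟩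

def k33_pm_022 : ∃ t, chk3 f_pm_022 t 6 3 1 = true :=
  ⟨(a (b (b (c (a (b (a (l 14712928) (l 14819776)) (l 14571696)) (b (a (b (l 15000304) (l 14868448)) (b (l 15144304) (l 15000304))) (l 14772616))) (a (b (c (a (l 14678656) (l 14796728)) (a (l 14660784) (l 14786872))) (l 14514352)) (b (a (b (l 14981024) (l 14851872)) (l 15070688)) (c (l 14640744) (a (l 14660784) (l 14786872)))))) (c (l 303897187223) (a (l 1) (l 14415584)))) (l 1)) (a (b (b (c (b (c (l 15144176) (l 15312392)) (a (l 14856976) (l 15081056))) (b (l 15276544) (a (c (l 14932984) (l 14924448)) (l 15070688)))) (c (l 14615648) (b (c (l 14745600) (a (l 14660784) (l 14786872))) (l 14514352)))) (l 1)) (b (b (c (b (l 15422704) (c (l 15311944) (l 15312392))) (b (l 15591368) (l 15276544))) (c (b (c (l 15014824) (l 15013816)) (l 14772616)) (b (b (l 15070688) (l 14849368)) (c (l 14745600) (l 14543360))))) (c (l 14277096) (b (l 14415584) (l 1)))))), by decide +kernel⟩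

def k34_pm_022 : ∃ t, chk3 f_pm_022 t 7 3 1 = true :=
  ⟨(b (a (b (c (b (l 15908064) (a (l 15590480) (l 15938152))) (a (l 15496336) (l 15952768))) (c (a (b (c (l 15311944) (l 15312392)) (c (l 15014824) (l 15013816))) (b (l 15590480) (c (l 15311944) (l 15312392)))) (a (b (l 15276544) (a (l 14933248) (l 15070688))) (b (l 15591368) (l 15276544))))) (b (a (c (l 16212000) (l 16200584)) (b (c (l 16671272) (l 16668520)) (l 16393128))) (a (b (l 15843368) (b (l 15693424) (l 15422600))) (b (l 16161816) (l 15927256))))) (a (b (c (a (l 14678560) (b (a (l 14940856) (l 15081056)) (l 14772616))) (a (b (c (l 14745600) (l 14543360)) (l 14514352)) (b (a (l 14933248) (l 15070688)) (b (l 14795600) (l 14673032))))) (c (l 14377176) (l 14314832))) (b (c (b (a (l 15162680) (l 15590480)) (a (l 14975480) (l 15246568))) (a (b (l 15276544) (l 14800944)) (b (l 15591368) (l 15276544)))) (c (b (a (l 14772616) (l 15017424)) (l 14678560)) (b (a (l 14532880) (l 14947744)) (a (l 14514352) (l 14721624))))))), by decide +kernel⟩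

theorem s35_pm_022 : ∃ t, chk3 f_pm_022 t 3 3 1 = true := ex3_a k33_pm_022 k34_pm_022

theorem s36_pm_022 : ∃ t, chk3 f_pm_022 t 6 4 1 = true := ex3_b k29_pm_022 k30_pm_022

theorem s37_pm_022 : ∃ t, chk3 f_pm_022 t 3 4 1 = true := ex3_a s36_pm_022 k31_pm_022

theorem s38_pm_022 : ∃ t, chk3 f_pm_022 t 3 2 1 = true := ex3_b s37_pm_022 k32_pm_022

theorem s39_pm_022 : ∃ t, chk3 f_pm_022 t 3 1 1 = true := ex3_b s38_pm_022 s35_pm_022

theorem s40_pm_022 : ∃ t, chk3 f_pm_022 t 11 5 1 = true := ex3_b k26_pm_022 k27_pm_022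

theorem s41_pm_022 : ∃ t, chk3 f_pm_022 t 11 4 1 = true := ex3_a k24_pm_022 k25_pm_022

theorem s42_pm_022 : ∃ t, chk3 f_pm_022 t 11 2 1 = true := ex3_b s41_pm_022 s40_pm_022

theorem s43_pm_022 : ∃ t, chk3 f_pm_022 t 10 10 1 = true := ex3_a k21_pm_022 k22_pm_022

theorem s44_pm_022 : ∃ t, chk3 f_pm_022 t 10 5 1 = true := ex3_b s43_pm_022 k23_pm_022

theorem s45_pm_022 : ∃ t, chk3 f_pm_022 t 41 4 7 = true := ex3_c k18_pm_022 k19_pm_022

theorem s46_pm_022 : ∃ t, chk3 f_pm_022 t 41 4 3 = true := ex3_c k17_pm_022 s45_pm_022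

theorem s47_pm_022 : ∃ t, chk3 f_pm_022 t 41 4 1 = true := ex3_c k16_pm_022 s46_pm_022

theorem s48_pm_022 : ∃ t, chk3 f_pm_022 t 40 4 1 = true := ex3_b k14_pm_022 k15_pm_022

theorem s49_pm_022 : ∃ t, chk3 f_pm_022 t 20 4 1 = true := ex3_a s48_pm_022 s47_pm_022

theorem s50_pm_022 : ∃ t, chk3 f_pm_022 t 10 4 1 = true := ex3_a s49_pm_022 k20_pm_022

theorem s51_pm_022 : ∃ t, chk3 f_pm_022 t 10 2 1 = true := ex3_b s50_pm_022 s44_pm_022

theorem s52_pm_022 : ∃ t, chk3 f_pm_022 t 5 2 1 = true := ex3_a s51_pm_022 s42_pm_022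

theorem s53_pm_022 : ∃ t, chk3 f_pm_022 t 5 1 1 = true := ex3_b s52_pm_022 k28_pm_022

theorem s54_pm_022 : ∃ t, chk3 f_pm_022 t 39 4 1 = true := ex3_b k10_pm_022 k11_pm_022

theorem s55_pm_022 : ∃ t, chk3 f_pm_022 t 76 4 3 = true := ex3_b k7_pm_022 k8_pm_022

theorem s56_pm_022 : ∃ t, chk3 f_pm_022 t 38 4 3 = true := ex3_a s55_pm_022 k9_pm_022

theorem s57_pm_022 : ∃ t, chk3 f_pm_022 t 38 4 1 = true := ex3_c k6_pm_022 s56_pm_022

theorem s58_pm_022 : ∃ t, chk3 f_pm_022 t 19 4 1 = true := ex3_a s57_pm_022 s54_pm_022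

theorem s59_pm_022 : ∃ t, chk3 f_pm_022 t 37 4 1 = true := ex3_b k4_pm_022 k5_pm_022

theorem s60_pm_022 : ∃ t, chk3 f_pm_022 t 36 8 1 = true := ex3_c k1_pm_022 k2_pm_022

theorem s61_pm_022 : ∃ t, chk3 f_pm_022 t 36 4 1 = true := ex3_b s60_pm_022 k3_pm_022

theorem s62_pm_022 : ∃ t, chk3 f_pm_022 t 18 4 1 = true := ex3_a s61_pm_022 s59_pm_022

theorem s63_pm_022 : ∃ t, chk3 f_pm_022 t 9 4 1 = true := ex3_a s62_pm_022 s58_pm_022

theorem s64_pm_022 : ∃ t, chk3 f_pm_022 t 9 2 1 = true := ex3_b s63_pm_022 k12_pm_022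

theorem s65_pm_022 : ∃ t, chk3 f_pm_022 t 9 1 1 = true := ex3_b s64_pm_022 k13_pm_022

theorem s66_pm_022 : ∃ t, chk3 f_pm_022 t 4 1 1 = true := ex3_a k0_pm_022 s65_pm_022

theorem s67_pm_022 : ∃ t, chk3 f_pm_022 t 2 1 1 = true := ex3_a s66_pm_022 s53_pm_022

theorem s68_pm_022 : ∃ t, chk3 f_pm_022 t 1 1 1 = true := ex3_a s67_pm_022 s39_pm_022

theorem c_pm_022 : CertFX 0 536870912 1073741824 536870912 1046898278 26843546 true true false .pp 0 2 2
    ndF0q0 ndF3q2 pcF2 cut_pm_022 Ext.none :=
  certFX2 (fam := true) (s1 := true) (s2 := false) (a := 0) (b := 2) (c := 2) (cn := .pp) (n1 := ndF0q0) (n2 := ndF3q2) (pc := pcF2) (cut := cut_pm_022) (xt := Ext.none) (P1 := 0) (W1 := 536870912) (P2 := 1073741824) (W2 := 536870912) (P3 := 1046898278) (W3 := 26843546)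
    rfl (fun _ => rfl) s68_pm_022

noncomputable def f_pm_023 : ℕ → ℕ → ℕ → ℕ → Bool := onCell 0 536870912 1610612736 536870912 1046898278 26843546
    (rowFX 1 true true false .up 0 2 3 (qsf 0 536870912 1073741824 536870912 3) ndF0q0 ndF3q2 pcF3 Cut.none Ext.none)

def k0_pm_023 : ∃ t, chk3 f_pm_023 t 2 1 1 = true :=
  ⟨(b (b (a (a (c (a (l 14867920) (b (l 15149528) (l 15149528))) (a (b (l 14854024) (l 2)) (l 15131104))) (a (c (l 15440344) (l 15416312)) (b (l 15778896) (l 15778896)))) (b (a (a (l 16070944) (l 16332120)) (a (c (l 16578104) (l 16572936)) (b (l 16760648) (l 16760648)))) (a (l 16140840) (a (l 16575520) (l 16760648))))) (a (b (a (l 2) (a (l 2) (l 15778896))) (l 2)) (b (a (l 16161816) (a (l 16575520) (l 16760648))) (a (b (l 16203752) (l 2)) (a (l 16575520) (l 16760648)))))) (b (a (l 2) (b (a (l 2) (b (a (l 2) (l 16760648)) (l 2))) (l 2))) (l 2))), by decide +kernel⟩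

def k1_pm_023 : ∃ t, chk3 f_pm_023 t 3 2 1 = true :=
  ⟨(b (a (b (a (b (a (l 16777064) (c (b (l 16631352) (l 16738880)) (l 16645432))) (c (l 16777120) (l 16777112))) (b (a (l 16167400) (a (l 16008056) (l 15757216))) (a (b (c (l 16631352) (l 16627560)) (l 16738376)) (l 16167400)))) (a (l 16777216) (b (a (l 16777064) (c (b (l 16631352) (l 16738880)) (l 16666400))) (l 16777120)))) (b (b (a (a (c (l 15905600) (l 15861984)) (c (l 16010400) (l 15969512))) (a (c (c (l 15960344) (l 16045048)) (c (l 16029016) (l 16019480))) (a (c (b (l 15985208) (l 16038456)) (c (l 15972056) (l 15950384))) (c (b (c (l 15925504) (l 15889200)) (l 15985208)) (a (c (l 15872760) (l 15846936)) (b (c (b (l 15817752) (l 15860416)) (b (c (l 15792864) (a (l 15788224) (l 15724824))) (l 15825680))) (l 15899312))))))) (a (a (a (l 16008056) (l 15841104)) (c (l 15905600) (l 15882960))) (c (a (l 16010400) (c (l 16023256) (l 16045048))) (a (l 15969512) (c (l 16029016) (l 16019480)))))) (a (b (a (l 16125456) (b (l 15841104) (l 16008056)))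 (a (b (l 16587512) (l 16738376)) (l 16188368))) (b (a (c (l 15905600) (l 15882960)) (c (l 16010400) (l 15927568))) (a (a (l 16008056) (l 15883048)) (c (l 15905600) (l 15882960))))))) (a (c (b (l 16777216) (l 16777216)) (a (l 16777216) (l 16777216))) (a (b (a (l 16777120) (b (c (l 16648232) (l 16666400)) (l 16777064))) (l 16777216)) (b (a (b (l 16146424) (a (l 16738376) (l 16629456))) (b (a (l 15987088) (l 15820128)) (l 16083512))) (a (l 16777120) (b (a (l 16738376) (l 16629456)) (l 16777064))))))), by decide +kernel⟩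

def k2_pm_023 : ∃ t, chk3 f_pm_023 t 3 3 1 = true :=
  ⟨(b (c (b (a (b (l 16777216) (l 16777200)) (l 16777208)) (a (b (l 16777176) (l 16777200)) (b (l 16777160) (l 16777168)))) (b (a (b (l 16777216) (l 16777200)) (l 16777208)) (a (b (l 16777176) (l 31776046903)) (b (l 16777160) (l 16777168))))) (b (a (b (b (c (l 16777216) (l 16777216)) (l 2)) (l 2)) (b (c (b (l 16777208) (l 16776952)) (b (l 16777208) (l 16776944))) (a (b (c (l 16777112) (l 16777112)) (l 4)) (c (b (l 16775864) (l 206393314855)) (b (l 16775832) (l 183844736535)))))) (l 4))), by decide +kernel⟩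

theorem s3_pm_023 : ∃ t, chk3 f_pm_023 t 3 1 1 = true := ex3_b k1_pm_023 k2_pm_023

theorem s4_pm_023 : ∃ t, chk3 f_pm_023 t 1 1 1 = true := ex3_a k0_pm_023 s3_pm_023

theorem c_pm_023 : CertFX 0 536870912 1073741824 536870912 1046898278 26843546 true true false .up 0 2 3
    ndF0q0 ndF3q2 pcF3 Cut.none Ext.none :=
  certFX1 (fam := true) (s1 := true) (s2 := false) (a := 0) (b := 2) (c := 3) (cn := .up) (n1 := ndF0q0) (n2 := ndF3q2) (pc := pcF3) (cut := Cut.none) (xt := Ext.none) (P1 := 0) (W1 := 536870912) (P2 := 1073741824) (W2 := 536870912) (P3 := 1046898278) (W3 := 26843546)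
    rfl (fun _ => rfl) s4_pm_023

noncomputable def f_pm_033 : ℕ → ℕ → ℕ → ℕ → Bool := onCell 0 536870912 1610612736 536870912 1046898278 26843546
    (rowFX 1 true true false .pnn 0 3 3 (qsf 0 536870912 1610612736 536870912 3) ndF0q0 ndF3q3 pcF3 Cut.none Ext.none)

def k0_pm_033 : ∃ t, chk3 f_pm_033 t 1 2 1 = true :=
  ⟨(a (b (a (a (c (a (l 14867920) (l 135858136471)) (a (b (l 14854024) (l 14854024)) (l 15131104))) (a (c (l 15440344) (l 15416312)) (l 76266828839))) (a (b (l 1) (l 16182784)) (l 1))) (a (b (a (c (a (l 14867920) (l 15149528)) (a (l 14791112) (l 15131104))) (a (l 15365200) (l 15778896))) (a (c (a (l 14867920) (b (l 15149528) (l 15149528))) (a (b (l 14854024) (l 14854024)) (b (l 15131104) (l 15131104)))) (c (a (l 15440344) (l 15791688)) (b (l 15591368) (l 15591368))))) (a (b (l 16140840) (b (l 16203752) (c (l 16211104) (l 16196400)))) (a (b (l 16575520) (l 16575520)) (l 44593661511))))) (b (l 1) (a (c (l 16777216) (l 16777216)) (l 1)))), by decide +kernel⟩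

def k1_pm_033 : ∃ t, chk3 f_pm_033 t 1 3 1 = true :=
  ⟨(b (b (a (a (c (a (b (a (l 14867920) (l 15149528)) (a (l 14867904) (l 15149520))) (b (l 15627216) (l 15417496))) (a (b (a (l 14854024) (l 15131104)) (a (c (l 14852896) (l 14847840)) (l 15131104))) (b (l 15591368) (l 15570392)))) (a (b (c (l 16211104) (l 16196400)) (c (l 16211096) (l 16196392))) (b (a (l 16575520) (l 16760648)) (c (l 16671256) (l 16668504))))) (a (c (b (l 16777216) (l 16777200)) (b (l 16777216) (l 16777200))) (l 1))) (a (b (a (a (l 4) (c (c (l 15519096) (l 15613880)) (b (l 15591368) (l 15507480)))) (a (c (l 16085272) (b (l 16196392) (l 16196400))) (c (l 16671256) (l 16584616)))) (a (l 4) (a (b (c (l 16211104) (l 16196400)) (l 4)) (c (b (l 16671264) (l 16587384)) (b (l 16668512) (l 16542688)))))) (a (b (c (l 16777176) (l 16777176)) (c (a (l 16777200) (l 16777192)) (a (l 16777200) (l 16777192)))) (a (b (l 1) (c (l 16777176) (l 16777176))) (l 1))))) (a (a (l 4) (l 4)) (b (a (b (b (c (l 16777216) (l 161296154551)) (a (l 4) (b (l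 167201734663) (l 4)))) (l 4)) (a (b (c (b (l 16777208) (l 16777088)) (l 36742109399)) (b (c (l 16777112) (l 16777112)) (l 4))) (a (b (l 1) (b (l 1) (l 4))) (l 1)))) (l 4)))), by decide +kernel⟩

theorem s2_pm_033 : ∃ t, chk3 f_pm_033 t 1 1 1 = true := ex3_b k0_pm_033 k1_pm_033

theorem c_pm_033 : CertFX 0 536870912 1610612736 536870912 1046898278 26843546 true true false .pnn 0 3 3
    ndF0q0 ndF3q3 pcF3 Cut.none Ext.none :=
  certFX1 (fam := true) (s1 := true) (s2 := false) (a := 0) (b := 3) (c := 3) (cn := .pnn) (n1 := ndF0q0) (n2 := ndF3q3) (pc := pcF3) (cut := Cut.none) (xt := Ext.none) (P1 := 0) (W1 := 536870912) (P2 := 1610612736) (W2 := 536870912) (P3 := 1046898278) (W3 := 26843546)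
    rfl (fun _ => rfl) s2_pm_033

noncomputable def cut_pm_101 : Cut := Cut.of [[⟨0, 1, 0, 67108864⟩, ⟨1, 0, 0, 67108864⟩, ⟨2, 1, 0, 67108864⟩, ⟨3, 0, 0, 1233125376⟩]]

noncomputable def f_pm_101 : ℕ → ℕ → ℕ → ℕ → Bool := onCell 536870912 536870912 0 536870912 1046898278 26843546
    (rowFX 2 true true false .npn 1 0 1 (qsf 536870912 536870912 0 536870912 1) ndF0q1 ndF3q0 pcF1 cut_pm_101 Ext.none)

def k0_pm_101 : ∃ t, chk3 f_pm_101 t 1 1 1 = true :=
  ⟨(a (l 3) (a (l 3) (b (a (l 3) (a (l 3) (a (b (l 3) (l 3)) (a (b (l 3) (l 3)) (a (b (b (l 3) (l 3)) (l 3)) (a (b (b (l 3) (l 3)) (b (l 3) (l 3))) (b (b (b (l 6) (b (l 6) (b (l 6) (b (l 6) (c (l 158542454647) (l 15097576)))))) (a (l 3) (b (c (b (b (l 15427208) (l 15399488)) (l 15380488)) (b (l 15119320) (l 15157040))) (c (b (b (l 15379472) (l 15371104)) (c (l 125792858791) (l 15314792))) (b (b (l 15193608) (l 15200400)) (l 15198760)))))) (b (c (b (b (a (l 3) (b (l 129014077815) (b (b (l 15337976) (l 122571614247)) (l 15352696)))) (c (b (l 15410544)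 (l 15444488)) (l 15372600))) (c (b (l 83917067399) (l 15569752)) (l 15495232))) (b (b (c (l 15241240) (l 119349839415)) (l 15292576)) (c (l 15458328) (l 15423752)))) (c (b (b (l 68348069367) (l 15721296)) (c (l 15777624) (l 15764552))) (b (l 15640448) (l 15746848))))))))))) (a (l 3) (a (l 3) (a (l 3) (a (l 3) (b (c (b (l 15781280) (l 15781272)) (b (l 15744888) (l 213303357319))) (c (b (l 15781264) (l 15781264)) (b (c (l 15766320) (l 15762496)) (c (l 15766312) (b (l 15762480) (l 280412217191))))))))))))), by decide +kernel⟩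

theorem c_pm_101 : CertFX 536870912 536870912 0 536870912 1046898278 26843546 true true false .npn 1 0 1
    ndF0q1 ndF3q0 pcF1 cut_pm_101 Ext.none :=
  certFX2 (fam := true) (s1 := true) (s2 := false) (a := 1) (b := 0) (c := 1) (cn := .npn) (n1 := ndF0q1) (n2 := ndF3q0) (pc := pcF1) (cut := cut_pm_101) (xt := Ext.none) (P1 := 536870912) (W1 := 536870912) (P2 := 0) (W2 := 536870912) (P3 := 1046898278) (W3 := 26843546)
    rfl (fun _ => rfl) k0_pm_101

end Pool.Agent.Strip051.G.IE1.Tab.C.FA03

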