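import Pool.Agent.Strip051.G.IE1.Tab

/-! # Certificates F9 (generated) -/

set_option linter.all false
set_option maxRecDepth 100000

namespace Pool.Agent.Strip051.G.IE1.Tab.C.FA03

open Pool.Agent.Strip051.PB Pool.Agent.Strip051.PB.T
open Pool.Agent.Strip051.G.IE1.Tab

noncomputable def cut_pm_102 : Cut := Cut.of [[⟨0, 1, 0, 67108864⟩, ⟨1, 0, 0, 67108864⟩, ⟨2, 1, 0, 67108864⟩, ⟨3, 0, 0, 1233125376⟩]]

noncomputable def f_pm_102 : ℕ → ℕ → ℕ → ℕ → Bool := onCell 536870912 536870912 1073741824 536870912 1046898278 26843546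
    (rowFX 1 true true false .npp 1 0 2 (qsf 536870912 536870912 0 536870912 2) ndF0q1 ndF3q0 pcF2 cut_pm_102 Ext.none)

def k0_pm_102 : ∃ t, chk3 f_pm_102 t 2 16 1 = true :=
  ⟨(c (a (c (b (b (a (l 15831528) (l 15832152)) (l 15874256)) (l 15995584)) (b (b (a (l 15815160) (l 15815776)) (a (l 15905088) (l 15907352))) (a (l 15947624) (l 15949856)))) (b (a (b (a (l 15824224) (l 15824584)) (l 15776712)) (b (a (l 15824960) (b (l 15798864) (l 15864520))) (c (l 15943304) (l 15912776)))) (a (c (l 15998592) (l 15952344)) (c (l 16000856) (l 15955184))))) (a (b (c (b (a (b (l 15776096) (l 15828456)) (b (l 15776448) (l 15830032))) (a (l 15861720) (l 15864224))) (b (a (c (b (a (l 15762072) (l 15762264)) (l 15798536)) (b (a (c (l 15751680) (c (l 15744752) (l 15741992))) (c (l 15751880) (l 15743912))) (a (l 15778728) (l 15779040)))) (c (b (l 15762040) (l 15800192)) (b (c (l 15729280) (l 15723280)) (l 15779840)))) (a (c (a (l 15831336) (l 15831984)) (l 15811576)) (c (l 15833224) (l 15813056))))) (c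 (a (b (l 15889784) (l 112304736007)) (c (l 15914464) (l 15894920))) (a (a (l 15879456) (l 15880152)) (l 15881456)))) (b (b (c (a (b (l 15776824) (l 15831816)) (b (l 15777240) (l 15833872))) (a (c (b (l 15762432) (l 15802056)) (b (a (l 15748232) (l 15727336)) (l 15780672))) (b (c (l 15762864) (b (l 15742480) (l 15767040))) (c (l 15808328) (l 15781680))))) (c (a (l 15867024) (l 15870240)) (a (c (l 15834448) (l 15814856)) (l 15807240)))) (c (a (c (l 15917344) (l 15896776)) (c (l 15916200) (l 15898312))) (a (l 15883320) (l 15885640)))))), by decide +kernel⟩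

def k1_pm_102 : ∃ t, chk3 f_pm_102 t 2 17 1 = true :=
  ⟨(a (c (c (b (l 16014064) (a (l 16015400) (l 16006768))) (b (a (l 15975368) (l 15974304)) (a (l 15993624) (l 15985664)))) (a (b (c (l 15955520) (l 15946136)) (c (l 15999216) (l 15976152))) (b (c (l 15955184) (l 15943704)) (c (l 15994360) (l 15967456))))) (c (b (c (a (l 16011336) (l 16009240)) (a (l 15973352) (b (l 15968208) (l 15970152)))) (c (a (l 15997168) (c (l 15991552) (b (l 15982080) (l 15968056)))) (a (l 15969552) (c (l 15966696) (l 15962688))))) (b (a (l 15949824) (l 15949144)) (a (c (l 15987528) (l 15957800)) (l 15952056))))), by decide +kernel⟩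

def k2_pm_102 : ∃ t, chk3 f_pm_102 t 2 9 1 = true :=
  ⟨(a (a (a (l 2) (b (c (c (l 15772720) (c (l 15905920) (l 15906192))) (l 15848488)) (l 2))) (b (c (c (b (l 15946320) (l 15676720)) (c (l 15745472) (b (l 15939288) (l 15831712)))) (c (l 15878792) (l 15867352))) (c (c (b (c (l 15600024) (l 15721176)) (c (l 15569312) (l 15553552))) (l 15626096)) (c (l 15611240) (l 15596384))))) (b (c (a (b (c (l 15927080) (c (l 15924528) (l 15913024))) (c (c (l 15816664) (l 15815424)) (l 15803096))) (c (b (c (l 15906000) (l 15906976)) (c (l 15786808) (l 15777104))) (b (c (l 15899280) (l 15894752)) (l 15767336)))) (a (c (l 15852944) (l 15841168)) (b (l 15880560) (l 15747784)))) (c (a (b (c (c (b (l 15727384) (l 15639104)) (l 15673480)) (l 15662696)) (l 15493008)) (c (b (l 15627304) (l 15438168)) (l 15518608))) (a (b (l 15641120) (l 15459648)) (b (l 15589728) (l 15394408)))))), by decide +kernel⟩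

def k3_pm_102 : ∃ t, chk3 f_pm_102 t 12 32 2 = true :=
  ⟨(b (a (c (b (a (l 15806600) (l 15806560)) (l 15872464)) (b (l 15792952) (l 15859216))) (c (a (b (b (l 15748344) (l 15792824)) (a (l 15867616) (l 15838312))) (b (b (c (l 15673960) (l 15662408)) (l 15715456)) (l 15781792))) (b (a (l 15753320) (l 15668000)) (a (l 15837096) (l 15760808))))) (a (c (b (l 15928768) (l 15965104)) (l 15915392)) (c (a (b (a (l 15929504) (l 15913584)) (l 15963360)) (b (l 15798088) (l 15918184))) (a (b (l 15894272) (l 15927184)) (c (l 15865264) (l 15843312)))))), by decide +kernel⟩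

def k4_pm_102 : ∃ t, chk3 f_pm_102 t 13 32 2 = true :=
  ⟨(b (a (c (b (a (b (c (b (l 15586752) (l 15611808)) (l 15583072)) (l 15640328)) (b (b (a (l 15523544) (l 15488464)) (l 15532112)) (l 15570048))) (a (l 15709600) (c (l 15651560) (l 15633368)))) (b (a (l 15583592) (l 15502328)) (c (l 15651536) (l 15633896)))) (c (a (b (b (b (c (a (l 15467944) (l 15436520)) (l 15424504)) (a (l 15482472) (l 15450328))) (c (l 15518776) (l 15493272))) (c (l 15593976) (l 15570280))) (b (a (b (b (a (l 15397936) (c (a (l 15404400) (l 15405264)) (l 15371096))) (a (l 15426752) (l 15417024))) (a (l 15468360) (l 15459168))) (b (b (c (l 15411144) (l 15375984)) (l 15423416)) (l 15466520))) (a (a (l 15547592) (l 15539376)) (l 15548520)))) (a (b (b (l 15397592) (l 15455016)) (c (l 15546584) (l 15521064))) (b (a (b (l 15341864) (l 15402064)) (l 15368184)) (a (c (l 15500504) (l 15470104)) (l 15486120)))))) (c (a (b (c (a (l 15801048) (l 15739808)) (a (l 15785416) (l 15719920))) (c (l 15729320) (l 15809936))) (a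 (b (c (l 15686240) (l 15661296)) (l 15740248)) (b (a (c (a (l 15657240) (l 15651000)) (l 15624680)) (c (l 15662728) (l 15631808))) (a (c (l 15726984) (l 15692176)) (l 15720336))))) (a (c (b (l 15730672) (l 15785112)) (l 15710024)) (a (c (l 15663712) (l 15629360)) (a (c (l 15582952) (l 15586416)) (b (l 15577848) (l 15645896))))))), by decide +kernel⟩

def k5_pm_102 : ∃ t, chk3 f_pm_102 t 12 32 3 = true :=
  ⟨(b (c (a (b (l 15778368) (l 15835264)) (b (a (l 15735752) (l 15643600)) (c (l 15780112) (l 15761600)))) (a (c (b (l 15763792) (l 15805656)) (b (c (l 15749944) (l 15744528)) (l 15782176))) (b (c (l 15523024) (b (c (l 15643104) (l 15633808)) (l 15677112))) (c (a (l 15780696) (l 15694720)) (l 15710448))))) (c (a (l 15872792) (a (l 15780976) (l 15784896))) (a (l 15829224) (c (a (l 15827144) (l 15764192)) (l 15775376))))), by decide +kernel⟩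

def k6_pm_102 : ∃ t, chk3 f_pm_102 t 13 32 3 = true :=
  ⟨(b (c (a (b (a (l 15551000) (l 15376040)) (c (l 15612560) (l 15586472))) (b (a (b (l 15343792) (l 15403520)) (b (a (l 15276856) (l 15268704)) (a (l 15339944) (l 15334184)))) (a (c (l 15491856) (l 15457912)) (c (a (l 15436016) (l 15434480)) (c (l 15406888) (l 15384800)))))) (b (a (c (b (l 15452920) (l 15503392)) (b (c (l 15436872) (b (l 15414880) (l 15438000))) (c (l 15483240) (l 15461576)))) (c (a (b (l 15302792) (l 15358792)) (b (l 15221448) (c (l 15293904) (l 15272712)))) (b (c (a (l 15280096) (a (l 15200528) (l 15187152))) (a (b (l 15251752) (l 15277944)) (b (c (l 15166136) (a (l 15162832) (l 15147240))) (l 15189488)))) (a (c (l 15331880) (l 15306160)) (c (c (l 15255072) (l 15242648)) (l 15222000)))))) (a (c (c (l 15563440) (l 15545728)) (l 15372656)) (c (a (c (l 15428992) (l 15407648)) (c (l 15362112) (l 15338208))) (a (c (l 15383984) (l 15371848)) (c (a (l 15314288) (l 15307312)) (l 15296272))))))) (c (a (c (l 15702384)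 (l 15647056)) (c (a (l 15593792) (b (l 15516760) (l 15580328))) (a (l 15553520) (b (l 15472208) (l 15536360))))) (a (c (c (b (l 15618968) (l 15668584)) (b (l 15598208) (l 15650960))) (l 15612408)) (c (b (a (c (l 15494344) (l 15468296)) (c (l 15436952) (c (l 15418136) (l 15407256)))) (c (a (l 15551208) (c (l 15506328) (l 15496624))) (l 15512984))) (a (l 15490680) (l 15430992)))))), by decide +kernel⟩

def k7_pm_102 : ∃ t, chk3 f_pm_102 t 6 33 1 = true :=
  ⟨(a (c (c (c (a (l 16014336) (a (l 15973360) (b (l 15918504) (l 16018144)))) (a (l 15993096) (b (a (l 15986072) (l 15961296)) (l 15996592)))) (a (l 15957744) (b (a (l 15951824) (l 15925480)) (l 15959968)))) (c (a (c (l 15921408) (l 15899680)) (b (c (l 15897000) (b (l 15844432) (l 15866336))) (c (b (l 15922512) (l 15933568)) (l 15910272)))) (a (l 15887968) (b (l 15809208) (l 15908776))))) (c (c (a (b (c (a (l 15925560) (l 15871880)) (l 15852072)) (c (l 15954072) (l 15926656))) (b (a (c (l 15826104) (l 15795328)) (b (a (l 15761928) (l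 15775760)) (a (l 15804704) (l 15821144)))) (a (l 15873304) (c (l 15877784) (l 15842136))))) (a (b (c (l 15845616) (l 15815512)) (l 15886584)) (b (a (l 15743608) (c (l 15715696) (l 15696800))) (a (l 15809080) (c (l 15805912) (l 15768720)))))) (a (c (b (c (l 15782112) (c (l 15761768) (l 15706848))) (c (b (l 15831448) (l 15859248)) (l 15825200))) (b (l 15724624) (l 15818376))) (c (b (c (a (l 15687656) (l 15655336)) (a (c (l 15661272) (l 15645192)) (c (b (l 15600632) (l 15648056)) (b (l 15579592) (l 15636560))))) (c (a (b (l 15743296) (l 15775928)) (b (l 15716856) (l 15753344))) (l 15727008))) (a (l 15674776) (l 15637256)))))), by decide +kernel⟩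

def k8_pm_102 : ∃ t, chk3 f_pm_102 t 6 17 1 = true :=
  ⟨(a (c (b (c (a (l 16007408) (c (l 16017160) (l 15994824))) (c (b (l 15976224) (l 15970568)) (b (l 15957568) (l 15962352)))) (c (b (c (l 15989920) (a (l 15974200) (l 15969200))) (c (a (l 15966200) (b (l 15963960) (l 15949224))) (l 15955888))) (c (b (l 15965016) (l 15952672)) (b (l 15960496) (l 15943584))))) (b (c (l 15911424) (l 15940224)) (c (l 15944664) (l 15934056)))) (b (c (a (c (b (a (l 15990800) (l 15947280)) (a (c (l 16002536) (l 15981144)) (l 15960856))) (b (c (l 15930696) (b (l 15900680) (l 15916680))) (c (a (l 15962800) (l 15928264)) (l 15934136)))) (c (b (a (l 15908752) (l 15899728)) (a (l 15924880) (c (l 15933736) (l 15903072)))) (b (c (a (l 15862416) (l 15849944)) (a (l 15837272) (b (l 15809712) (l 15833360)))) (c (a (l 15888544) (b (l 15873416) (l 15884880))) (l 15867344))))) (c (a (b (l 15891600) (l 15923248)) (a (l 15839496) (l 15822024))) (a (l 15893616) (l 15698848)))) (c (a (c (b (c (a (l 15982744) (l 15962472))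 (a (l 15965832) (b (l 15949568) (l 15947720)))) (c (b (a (l 15957656) (l 15928864)) (c (l 15919984) (l 15938256))) (a (l 15945272) (l 15931064)))) (b (c (l 15884704) (l 15939736)) (l 15929528))) (c (b (c (a (l 15932896) (l 15930800)) (a (c (l 15919152) (l 15910928)) (b (l 15910744) (l 15910472)))) (c (b (a (l 15925272) (c (l 15927272) (l 15916616))) (a (l 15916296) (l 15911776))) (l 15905840))) (a (l 15900504) (l 15892872)))) (a (c (l 15924504) (l 15912776)) (c (a (l 15883688) (l 15871800)) (l 15857776)))))), by decide +kernel⟩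

def k9_pm_102 : ∃ t, chk3 f_pm_102 t 28 32 1 = true :=
  ⟨(c (b (b (a (c (b (b (a (l 15403952) (l 15417032)) (l 15441664)) (c (l 15504728) (l 15468976))) (b (l 15349384) (l 15415344))) (c (a (b (l 15449112) (l 15513704)) (b (a (l 15462832) (l 15467064)) (l 15533944))) (a (l 15399480) (b (l 15374440) (l 15450376))))) (c (a (c (l 15589152) (l 15556288)) (a (l 15603856) (l 15628896))) (a (c (l 15523416) (l 15488736)) (b (l 15510440) (l 15572600))))) (c (b (a (c (l 15692464) (l 15659680)) (c (l 15744112) (l 15708552))) (a (l 15753216) (l 15809472))) (a (c (l 15639776) (l 15619240)) (c (l 15647672) (l 15666752))))) (b (c (b (a (b (l 15273544) (l 15343352)) (b (a (l 15282728) (l 15284336)) (c (l 15381952) (l 15340848)))) (c (a (l 15450384) (l 15459512)) (a (l 15407312) (b (l 15407152) (l 15461416))))) (b (c (b (a (l 15216016) (a (l 15219664) (l 15216144))) (a (l 15283256) (c (l 15307528) (l 15282088)))) (b (c (a (l 15185072) (b (l 15164680) (l 15205536))) (a (b (c (l 15154240) (l 15142112))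 (l 15180184)) (b (c (l 15146944) (a (l 15138880) (b (l 15119760) (l 15140496)))) (c (l 15185280) (l 15168128))))) (c (a (l 15248128) (c (l 15261256) (l 15247208))) (a (l 15217384) (c (l 15229568) (l 15220032)))))) (c (c (a (l 15371552) (l 15395160)) (b (l 15331136) (l 15379904))) (c (a (c (l 15322040) (l 15309264)) (b (c (l 15318976) (l 15300128)) (c (l 15370856) (l 15361824)))) (a (l 15300704) (l 15318744)))))) (c (c (b (l 15559544) (l 15635080)) (b (a (l 15493248) (l 15531136)) (a (l 15565696) (l 15612928)))) (c (b (c (l 15472832) (a (c (l 15435800) (l 15424552)) (c (l 15470216) (l 15452256)))) (c (c (l 15555536) (l 15524416)) (l 15535848))) (l 15469560))))), by decide +kernel⟩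

def k10_pm_102 : ∃ t, chk3 f_pm_102 t 29 32 1 = true :=
  ⟨(c (b (b (a (c (b (a (l 15472784) (l 15488096)) (l 15554992)) (b (l 15371728) (l 15456408))) (c (b (a (l 15514200) (l 15554504)) (l 15612800)) (b (l 15392880) (l 15486464)))) (c (a (a (l 15650352) (l 15672160)) (l 15724744)) (a (b (l 15535568) (l 15608544)) (c (l 15642984) (l 15586704))))) (c (a (b (b (l 15757008) (a (l 15799176) (l 15829016))) (a (l 15862888) (l 15899232))) (b (b (l 15828256) (l 15888960)) (l 15963512))) (b (a (c (l 15721592) (l 15674560)) (c (l 15783704) (l 15728808))) (a (c (l 15816128) (l 15771352)) (l 15866992))))) (b (c (b (a (b (l 15264240) (l 15357344)) (b (l 15253448) (l 15359648))) (c (a (l 15480112) (l 15526784)) (a (b (l 15413616) (l 15482136)) (l 15420232)))) (b (c (b (a (l 15183008) (l 15148264)) (a (c (l 15292432) (l 15262536)) (c (l 15277400) (l 15240576)))) (b (c (a (b (l 15117576) (l 15167632)) (b (l 15066024) (l 15125456))) (b (a (c (l 15095768) (l 15079456)) (c (l 15036824) (l 15017536)))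 (a (l 15134672) (l 15084576)))) (c (a (l 15147120) (l 15201712)) (a (l 15193712) (l 15157640))))) (c (b (a (l 15353720) (l 15350920)) (c (l 15440904) (a (l 15406192) (l 15413400)))) (c (a (b (c (l 15313144) (l 15292352)) (c (l 15381632) (l 15371120))) (c (b (l 15301752) (l 15380080)) (l 15323120))) (l 15309784))))) (b (c (c (a (l 15624456) (l 15670824)) (a (l 15570144) (l 15609640))) (c (c (a (l 15527176) (l 15559256)) (a (b (c (l 15475384) (l 15461096)) (l 15529888)) (c (l 15533192) (l 15520944)))) (l 15413880))) (c (c (a (l 15722416) (l 15788208)) (a (c (l 15683512) (l 15657000)) (l 15731160))) (c (c (b (a (l 15606336) (l 15656536)) (l 15684880)) (l 15637264)) (l 15527512)))))), by decide +kernel⟩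

def k11_pm_102 : ∃ t, chk3 f_pm_102 t 15 32 1 = true :=
  ⟨(a (b (a (b (a (c (c (b (a (l 15597624) (l 6)) (l 15697480)) (b (l 15443064) (l 15544120))) (c (b (l 15270720) (l 15390040)) (c (b (l 15140872) (l 15268440)) (b (c (l 15073728) (b (c (l 15006616) (l 14981592)) (l 15061904))) (c (l 15201064) (l 15150392)))))) (l 6)) (c (c (a (l 15812680) (l 15897944)) (b (l 15670192) (c (l 15793400) (l 15726584)))) (c (c (b (l 15559752) (l 15654232)) (b (l 15480088) (l 15576968))) (c (c (l 15466416) (b (l 15371440) (l 15472032))) (c (a (b (l 15303920) (l 15411936)) (b (l 6) (l 15457392))) (l 15342488)))))) (l 6)) (a (c (c (b (b (l 15959888) (l 16023416)) (l 16102496)) (b (c (l 15904384) (l 15841168)) (l 15997280))) (c (c (b (l 15774824) (l 15911744)) (b (c (l 15722760) (l 15686656)) (l 15702616))) (c (b (c (l 15647928) (c (l 15514200) (l 15604784))) (l 15793992)) (l 15663280)))) (b (l 6) (a (c (c (l 16257024) (l 16150560)) (c (c (l 16063808) (l 16000016)) (l 15921408))) (l 6))))) (l 6)), by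 decide +kernel⟩

def k12_pm_102 : ∃ t, chk3 f_pm_102 t 7 33 1 = true :=
  ⟨(b (a (c (a (c (a (c (l 15855544) (l 15819720)) (b (l 15873880) (l 15927496))) (c (b (l 15785192) (l 15835400)) (l 15769280))) (c (a (b (l 15952720) (l 16012584)) (b (l 16046600) (l 16115744))) (a (b (l 15871072) (l 15933464)) (b (l 15959208) (l 16036480))))) (a (c (c (a (l 15697768) (l 15758280)) (c (b (l 15664056) (l 15721720)) (b (a (l 15615992) (l 15671296)) (l 15710064)))) (l 15647128)) (c (c (a (b (l 15803984) (l 15870256)) (l 15824568)) (a (b (c (l 15766584) (a (l 15725840) (l 15767440))) (l 15834272)) (b (c (l 15847536) (l 15826232)) (l 15933064)))) (a (l 15754400) (l 15842000))))) (a (a (c (c (b (l 16191608) (l 16265904)) (b (l 16101040) (l 16188088))) (c (c (l 15927992) (b (c (l 15985024) (l 15963184)) (l 16085080))) (l 15985704))) (b (a (c (c (l 16348056) (l 16262640)) (c (c (l 16191664) (c (l 16152032) (l 16131280))) (l 16090480))) (l 6)) (c (c (a (l 16423384) (l 16546440)) (l 16377672)) (c (c (l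 16362888) (l 16334784)) (l 16306888))))) (l 6))) (a (c (a (c (a (l 15915024) (l 15987120)) (c (l 15894768) (l 15857088))) (c (a (l 16078328) (b (l 16170080) (l 16210984))) (a (l 16007976) (b (l 16098056) (l 16146768))))) (a (c (c (b (c (l 15808912) (l 15790688)) (a (l 15809792) (l 15884776))) (l 15801520)) (l 15772944)) (c (b (c (c (l 15924256) (l 15971784)) (l 15954400)) (l 15945192)) (a (l 15905528) (l 16025816))))) (a (c (c (a (l 16347136) (a (l 16497816) (l 16550632))) (a (c (l 16299744) (l 16266984)) (b (l 16486560) (l 16502712)))) (a (b (l 16173264) (l 16254728)) (c (l 16400144) (l 16477872)))) (b (l 6) (a (a (c (c (l 16572568) (l 16544624)) (l 16520944)) (l 6)) (l 6)))))), by decide +kernel⟩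

def k13_pm_102 : ∃ t, chk3 f_pm_102 t 7 34 1 = true :=
  ⟨(b (a (c (a (c (a (l 15961016) (l 16040480)) (c (l 15949608) (b (l 15907344) (l 15935880)))) (c (a (l 16136400) (l 16254320)) (c (a (l 16090248) (l 16213424)) (b (a (l 16047472) (l 16173000)) (l 16141072))))) (a (l 15775696) (a (l 16027640) (l 16162704)))) (a (c (c (a (l 16403576) (c (l 16470328) (l 16451600))) (c (a (l 16373608) (l 16433952)) (a (l 16360312) (l 16422952)))) (a (l 16349048) (l 16413736))) (a (c (c (a (c (l 16490776) (l 16482528)) (c (l 16509832) (l 16499528))) (c (l 16352672) (l 16473728))) (c (l 16469784) (l 16465880))) (l 6)))) (a (c (c (a (c (a (l 15994496) (l 16076488)) (l 15945784)) (c (a (l 16174136) (l 16287968)) (l 16104472))) (a (c (b (l 15957936) (l 15991760)) (l 15970160)) (a (l 16126384) (l 16252264)))) (a (l 15939528) (l 16162984))) (a (c (c (a (c (l 16344600) (l 16328952)) (c (l 16355464) (l 16333352))) (a (l 16315680) (l 16321112))) (a (l 16306264) (l 16310072))) (a (c (c (c (a (l 16370064) (l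 16381064)) (l 16370176)) (l 16301392)) (l 16340808)) (b (l 6) (c (c (l 16401592) (l 16381240)) (a (l 16369584) (l 6)))))))), by decide +kernel⟩

def k14_pm_102 : ∃ t, chk3 f_pm_102 t 7 35 1 = true :=
  ⟨(a (c (c (b (a (c (a (l 15997816) (l 16081224)) (b (c (l 16023096) (l 16011504)) (l 16017752))) (c (a (l 16177240) (l 16269280)) (l 16216464))) (a (c (b (a (l 15989872) (l 16069600)) (l 16016576)) (l 16012632)) (c (l 16186808) (l 16182992)))) (a (b (l 16000624) (l 16001280)) (b (l 16208952) (l 16181384)))) (a (c (l 15986744) (l 15969520)) (b (l 16200696) (l 16157184)))) (a (c (c (b (c (a (l 16237136) (l 16225520)) (a (l 16227496) (l 16209328))) (a (l 16131160) (c (l 16029576) (l 16081504)))) (a (l 16089464) (b (l 16200824) (l 16074624)))) (b (a (l 16209696) (l 16189584)) (a (l 16109304) (l 16060864)))) (c (c (a (b (c (l 16240848) (l 16238408)) (c (l 16094736) (l 16097392))) (b (c (l 16297048) (l 16283576)) (c (l 16139928) (l 16133040)))) (a (b (l 16239232) (l 16099680)) (b (l 16259392)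 (l 16133688)))) (c (a (l 16169336) (a (l 16011288) (l 16011600))) (a (l 16161544) (a (l 16198808) (a (l 16130856) (l 16017776)))))))), by decide +kernel⟩

def k15_pm_102 : ∃ t, chk3 f_pm_102 t 6 9 1 = true :=
  ⟨(b (c (a (b (c (c (a (l 15892776) (b (l 15913840) (l 15845088))) (a (l 15887240) (l 15872480))) (l 15871112)) (c (a (l 15750240) (l 15728064)) (l 15725904))) (a (b (c (c (b (l 15901280) (l 15825888)) (l 15856768)) (l 15847768)) (c (l 15703712) (l 15689680))) (b (a (c (b (l 15874944) (l 15806272)) (l 15827496)) (c (b (l 15872856) (l 15807184)) (l 15825656))) (c (a (l 15683576) (b (l 15729560) (l 15641296))) (a (l 15669272) (l 15651656)))))) (a (b (l 15853576) (l 15705560)) (a (b (l 15829776) (l 15668632)) (b (a (l 15786072) (l 15801560)) (a (l 15647816) (l 15588888)))))) (c (a (b (c (a (l 15585040) (l 15553920)) (l 15554032)) (c (l 15365400) (l 15346944))) (b (a (c (l 15477872) (l 15503376)) (c (b (a (l 15544552) (l 15544696)) (l 15436800)) (l 15328968))) (a (c (l 15302408) (l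 15283128)) (c (a (l 15267152) (l 15261184)) (l 15245728))))) (a (b (l 15530352) (l 15319264)) (b (a (l 15478720) (c (l 15459776) (l 15443784))) (a (l 15254216) (l 15217248)))))), by decide +kernel⟩

def k16_pm_102 : ∃ t, chk3 f_pm_102 t 14 9 1 = true :=
  ⟨(b (c (b (a (c (b (l 15977256) (l 15908424)) (l 15934768)) (c (b (l 16080520) (l 15955184)) (l 15866544))) (a (c (b (l 15826816) (l 15733544)) (l 15777024)) (c (b (l 15823696) (l 15686992)) (l 15705128)))) (b (a (c (l 15924672) (l 15914576)) (c (l 16007096) (l 16000856))) (a (l 15706664) (c (l 15737480) (l 15727880))))) (c (a (b (a (c (b (l 15598912) (l 15484808)) (l 15536640)) (b (l 15630408) (l 15490624))) (c (a (l 15306328) (l 15106416)) (l 15327112))) (b (c (b (l 15545152) (l 15394144)) (l 15290208)) (c (c (l 15164832) (l 15157288)) (l 15145968)))) (a (b (b (l 15624272) (l 15508808)) (l 15323096)) (b (b (l 15515704) (l 15361248)) (l 15123320))))), by decide +kernel⟩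

def k17_pm_102 : ∃ t, chk3 f_pm_102 t 15 9 1 = true :=
  ⟨(b (a (c (b (a (c (l 15943248) (l 15932744)) (c (b (l 15951032) (l 15803048)) (l 15798168))) (c (a (l 15590888) (c (l 15574712) (l 15562792))) (a (l 15639664) (l 15550704)))) (b (b (a (l 15987120) (l 15917392)) (l 15720272)) (c (l 15496104) (l 15564768)))) (c (b (a (c (b (l 15930784) (a (l 15757568) (l 15744816))) (b (l 15933432) (l 15753888))) (c (b (l 15963000) (l 15771056)) (b (l 15959824) (l 15764880)))) (a (c (b (a (l 15594808) (l 15561600)) (l 15409192)) (b (l 15577512) (l 15404536))) (c (b (l 15570128) (l 15368496)) (b (l 15561088) (l 15356536))))) (b (a (b (l 15924480) (l 15741264)) (c (a (l 15853840) (l 15866064)) (a (l 15847960) (l 15842584)))) (a (c (l 15481552) (l 15464488)) (c (a (l 15452896) (l 15448368)) (a (l 15441488) (l 15440064))))))) (c (a (b (c (a (b (l 15421480) (l 15258408)) (b (l 15326552) (l 15152464))) (b (l 15352904) (l 15182344))) (a (c (l 15008616) (l 14986808)) (c (b (l 14975664) (a (l 14820904)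 (l 14764496))) (l 14853992)))) (b (a (c (b (a (l 15257848) (l 15210584)) (l 15051816)) (b (l 15227752) (l 15042048))) (b (c (l 15170200) (l 15155336)) (c (l 14974424) (l 14956616)))) (a (c (b (a (l 14891792) (l 14834176)) (a (l 14720888) (l 14678752))) (b (l 14849616) (l 14688112))) (b (c (a (l 14796096) (l 14786776)) (l 14773912)) (l 14641224))))) (a (b (b (l 15325448) (l 15151688)) (a (l 14954128) (b (l 14909432) (l 14727584)))) (b (a (l 14879552) (b (c (l 15143256) (l 15131456)) (l 14936296))) (a (b (l 14817728) (l 14653552)) (b (c (l 14756128) (l 14738632)) (l 14599704))))))), by decide +kernel⟩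

def k18_pm_102 : ∃ t, chk3 f_pm_102 t 2 5 1 = true :=
  ⟨(a (a (l 2) (b (b (b (c (c (l 15387024) (l 15368856)) (l 15341600)) (l 2)) (l 2)) (l 2))) (a (b (b (b (c (c (l 15318120) (l 15299048)) (l 15270440)) (c (b (l 15266592) (l 15374944)) (l 31235682535))) (c (c (l 15627048) (l 15760728)) (l 15678144))) (b (c (b (l 16252720) (l 2)) (l 16387424)) (l 2))) (b (b (b (c (c (l 15240832) (l 15220752)) (l 15190624)) (c (b (l 15191288) (l 15271032)) (b (l 15150096) (l 15274936)))) (c (b (l 15554456) (l 15885984)) (l 15608304))) (b (c (b (l 16162048) (l 16575336)) (b (l 16210728) (l 16570048))) (c (b (l 16776128) (l 16777216)) (l 16776632)))))), by decide +kernel⟩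

def k19_pm_102 : ∃ t, chk3 f_pm_102 t 6 10 1 = true :=
  ⟨(b (b (a (c (c (l 15152056) (l 15130808)) (l 15098944)) (c (a (c (l 15075512) (l 15053264)) (c (a (l 15032768) (l 15021728)) (l 15005664))) (a (l 15019896) (l 14972488)))) (a (c (b (c (l 15115800) (l 15094080)) (c (l 15251976) (l 15232040))) (b (l 15061504) (l 15202128))) (c (b (a (l 15031008) (c (l 14996880) (l 14974336))) (a (l 15181328) (a (l 15147552) (l 14976464)))) (b (l 14963072) (a (l 15139880) (l 15103264)))))) (b (a (c (c (l 15501424) (l 15484744)) (l 15459728)) (c (a (c (l 15452152) (l 15434808)) (b (l 15185456) (l 15512904))) (a (l 15408968) (l 15403408)))) (a (c (c (l 15763304) (l 15835008)) (l 15816936)) (a (c (l 15678456) (l 15800200)) (l 15824344))))), by decide +kernel⟩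

def k20_pm_102 : ∃ t, chk3 f_pm_102 t 7 10 1 = true :=
  ⟨(b (b (a (a (c (c (b (l 15141080) (l 15016832)) (l 15074128)) (l 15065744)) (b (c (a (l 14949288) (l 14865776)) (l 14882704)) (c (b (a (l 14864880) (l 14747816)) (c (a (l 14811080) (l 14697640)) (l 14741920))) (a (l 14808048) (l 14678328))))) (a (a (c (b (c (l 14762288) (l 14737656)) (b (l 14651464) (l 14595768))) (b (l 14701080) (l 14573192))) (b (a (c (c (l 14674936) (l 14647256)) (l 14606384)) (l 14587712)) (l 14512320))) (c (a (c (l 14514088) (l 14496384)) (l 14452128)) (a (l 14457000) (l 14404568))))) (a (a (b (c (c (a (l 15034560) (l 15050496)) (l 15047856)) (l 15038576)) (c (c (b (l 15193552) (l 15296392)) (l 15243496)) (l 15217408))) (a (b (c (b (l 14819624) (l 14930408)) (l 14860056)) (l 15056320)) (l 14821264))) (a (a (l 14711160) (l 14610800)) (c (a (l 14571096) (l 14516552)) (a (l 14522744) (l 14470152)))))) (a (b (a (l 15548920) (l 15245664)) (a (l 15875792) (l 15588304))) (a (a (l 15041608) (c (l 15077640) (l 15033248)))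 (c (a (l 15013208) (l 14974608)) (a (l 14976552) (c (l 14947232) (l 14931632))))))), by decide +kernel⟩

def k21_pm_102 : ∃ t, chk3 f_pm_102 t 3 11 1 = true :=
  ⟨(a (b (b (a (c (c (l 16151288) (l 16206792)) (l 16196040)) (l 16083608)) (a (a (l 16570512) (l 16571560)) (l 16495384))) (a (l 16776672) (l 16770432))) (a (b (a (l 16209096) (l 15993488)) (a (l 16591520) (l 16359576))) (b (a (c (l 15788936) (l 15557488)) (a (c (l 15583632) (l 15417192)) (c (l 15518784) (b (l 15359768) (a (l 15635896) (l 15610120)))))) (a (c (l 16113056) (l 16080920)) (c (l 15795224) (a (l 15898632) (c (l 15794728) (l 15792176)))))))), by decide +kernel⟩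

def k22_pm_102 : ∃ t, chk3 f_pm_102 t 1 3 1 = true :=
  ⟨(a (a (l 2) (a (l 2) (b (l 16777216) (l 2)))) (a (a (b (l 16777216) (l 2)) (b (b (l 16770752) (l 16770752)) (l 16770752))) (b (a (b (l 16244096) (l 16348952)) (a (b (c (l 16113496) (l 16081376)) (c (l 16113496) (l 16081376))) (b (c (l 15858544) (a (l 15899120) (l 15795696))) (c (l 15858544) (l 15854768))))) (a (l 16474784) (b (a (l 16079760) (l 15860320)) (a (l 16079760) (l 15839352))))))), by decide +kernel⟩

theorem s23_pm_102 : ∃ t, chk3 f_pm_102 t 3 10 1 = true := ex3_a k19_pm_102 k20_pm_102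

theorem s24_pm_102 : ∃ t, chk3 f_pm_102 t 3 5 1 = true := ex3_b s23_pm_102 k21_pm_102

theorem s25_pm_102 : ∃ t, chk3 f_pm_102 t 1 5 1 = true := ex3_a k18_pm_102 s24_pm_102

theorem s26_pm_102 : ∃ t, chk3 f_pm_102 t 7 9 1 = true := ex3_a k16_pm_102 k17_pm_102

theorem s27_pm_102 : ∃ t, chk3 f_pm_102 t 3 9 1 = true := ex3_a k15_pm_102 s26_pm_102

theorem s28_pm_102 : ∃ t, chk3 f_pm_102 t 7 17 1 = true := ex3_b k13_pm_102 k14_pm_102

theorem s29_pm_102 : ∃ t, chk3 f_pm_102 t 14 32 1 = true := ex3_a k9_pm_102 k10_pm_102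

theorem s30_pm_102 : ∃ t, chk3 f_pm_102 t 7 32 1 = true := ex3_a s29_pm_102 k11_pm_102

theorem s31_pm_102 : ∃ t, chk3 f_pm_102 t 7 16 1 = true := ex3_b s30_pm_102 k12_pm_102

theorem s32_pm_102 : ∃ t, chk3 f_pm_102 t 7 8 1 = true := ex3_b s31_pm_102 s28_pm_102

theorem s33_pm_102 : ∃ t, chk3 f_pm_102 t 6 32 3 = true := ex3_a k5_pm_102 k6_pm_102

theorem s34_pm_102 : ∃ t, chk3 f_pm_102 t 6 32 2 = true := ex3_a k3_pm_102 k4_pm_102

theorem s35_pm_102 : ∃ t, chk3 f_pm_102 t 6 32 1 = true := ex3_c s34_pm_102 s33_pm_102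

theorem s36_pm_102 : ∃ t, chk3 f_pm_102 t 6 16 1 = true := ex3_b s35_pm_102 k7_pm_102

theorem s37_pm_102 : ∃ t, chk3 f_pm_102 t 6 8 1 = true := ex3_b s36_pm_102 k8_pm_102

theorem s38_pm_102 : ∃ t, chk3 f_pm_102 t 3 8 1 = true := ex3_a s37_pm_102 s32_pm_102

theorem s39_pm_102 : ∃ t, chk3 f_pm_102 t 3 4 1 = true := ex3_b s38_pm_102 s27_pm_102

theorem s40_pm_102 : ∃ t, chk3 f_pm_102 t 2 8 1 = true := ex3_b k0_pm_102 k1_pm_102

theorem s41_pm_102 : ∃ t, chk3 f_pm_102 t 2 4 1 = true := ex3_b s40_pm_102 k2_pm_102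

theorem s42_pm_102 : ∃ t, chk3 f_pm_102 t 1 4 1 = true := ex3_a s41_pm_102 s39_pm_102

theorem s43_pm_102 : ∃ t, chk3 f_pm_102 t 1 2 1 = true := ex3_b s42_pm_102 s25_pm_102

theorem s44_pm_102 : ∃ t, chk3 f_pm_102 t 1 1 1 = true := ex3_b s43_pm_102 k22_pm_102

theorem c_pm_102 : CertFX 536870912 536870912 0 536870912 1046898278 26843546 true true false .npp 1 0 2
    ndF0q1 ndF3q0 pcF2 cut_pm_102 Ext.none :=
  certFX1 (fam := true) (s1 := true) (s2 := false) (a := 1) (b := 0) (c := 2) (cn := .npp) (n1 := ndF0q1) (n2 := ndF3q0) (pc := pcF2) (cut := cut_pm_102) (xt := Ext.none) (P1 := 536870912) (W1 := 536870912) (P2 := 0) (W2 := 536870912) (P3 := 1046898278) (W3 := 26843546)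
    rfl (fun _ => rfl) s44_pm_102

noncomputable def f_pm_112 : ℕ → ℕ → ℕ → ℕ → Bool := onCell 536870912 536870912 1073741824 536870912 1046898278 26843546
    (rowFX 1 true true false .dn 1 1 2 (qsf 536870912 536870912 536870912 536870912 2) ndF0q1 ndF3q1 pcF2 Cut.none Ext.none)

def k0_pm_112 : ∃ t, chk3 f_pm_112 t 1 4 1 = true :=
  ⟨(a (a (b (b (a (b (a (c (b (l 15822928) (l 15918144)) (c (b (b (l 15776712) (l 15827848)) (l 15861000)) (b (c (b (l 15762072) (l 15797904)) (b (c (l 15751680) (c (l 15681840) (l 15741992))) (l 15778728))) (c (l 15831336) (l 15811056))))) (l 1)) (b (c (l 15960712) (c (l 15889784) (l 15860480))) (c (l 15980552) (c (l 15918608) (l 15897920))))) (l 1)) (a (c (b (c (l 16014816) (l 15975368)) (c (l 16015400) (l 15993624))) (b (c (l 15955520) (l 15946136)) (c (l 15999216) (l 15976152)))) (b (l 1) (c (c (l 16006768) (l 15985664)) (c (l 15994360) (l 15967456)))))) (b (c (a (c (c (l 15927224) (l 15906528)) (c (l 15909120) (b (l 15955160) (l 15860672)))) (c (b (l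 15946320) (l 61771445415)) (c (l 15703528) (b (l 15939288) (l 15831712))))) (a (c (b (l 15979584) (l 15851568)) (l 15891000)) (c (l 15878792) (l 15867352)))) (c (b (c (a (c (l 15755432) (l 15759056)) (c (l 74119176183) (l 15721176))) (a (c (l 15753632) (l 15744640)) (l 15707440))) (c (a (c (l 15616544) (l 15612744)) (c (l 15569312) (l 15553552))) (l 15567864))) (a (c (l 15657696) (l 15643432)) (c (l 15611240) (l 15596384)))))) (a (b (l 1) (b (l 1) (b (l 1) (c (l 427916746359) (l 15459648))))) (l 1))) (l 1)), by decide +kernel⟩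

def k1_pm_112 : ∃ t, chk3 f_pm_112 t 1 5 1 = true :=
  ⟨(a (b (b (a (b (c (a (c (c (l 15462536) (l 15445320)) (l 15432304)) (l 15315024)) (a (l 15406272) (l 15341600))) (c (a (b (l 15395032) (l 15480800)) (c (l 15264568) (l 15372264))) (a (l 15381496) (l 15303128)))) (a (b (c (c (l 15318120) (l 15299048)) (l 15270440)) (c (b (l 15266592) (l 15374944)) (b (l 15227360) (l 15338520)))) (l 1))) (a (c (a (c (l 15855008) (l 15842952)) (c (l 15816264) (l 15803704))) (a (l 15803904) (l 15742920))) (c (a (c (l 15606072) (l 15760728)) (c (l 518111379831) (l 15712792))) (a (l 15657168) (l 471403541815))))) (b (a (c (b (a (l 16298512) (l 16276632)) (a (l 16601184) (l 16592728))) (a (b (l 16286080) (l 16596608)) (b (l 16263624) (l 16587936)))) (c (a (b (l 16252720) (l 16583512)) (b (l 16120104) (l 45130224711))) (a (l 16408392) (b (l 16210728) (l 16570048))))) (c (a (c (l 16776720) (l 16776712)) (c (b (l 82711779575) (l 16777216)) (l 16776680))) (a (a (l 16776720) (l 16776696)) (c (l 16776672)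 (l 16776672)))))) (b (l 1) (a (b (l 1) (a (l 16776672) (l 1))) (l 1)))), by decide +kernel⟩

def k2_pm_112 : ∃ t, chk3 f_pm_112 t 1 3 1 = true :=
  ⟨(a (b (b (c (a (c (l 16776768) (l 16776760)) (b (l 16777216) (l 16777216))) (a (a (l 16776480) (l 16777216)) (l 16777216))) (a (a (b (c (l 16773296) (l 16773200)) (a (a (b (l 16760440) (l 16581336)) (l 16768736)) (l 16771136))) (l 16776496)) (l 16777216))) (a (a (b (a (a (b (l 16001968) (l 15299376)) (b (b (l 16581336) (l 16257168)) (l 15753504))) (b (c (l 16687040) (l 16600808)) (a (l 16022944) (b (l 16581336) (l 16257168))))) (a (c (b (l 14886920) (a (l 14139168) (l 14474536))) (b (l 14962456) (a (b (l 14317848) (l 13979936)) (l 14469080)))) (b (a (l 15362288) (l 15753504)) (c (l 14949832) (l 14962456))))) (b (a (b (l 16771136) (a (l 16651568) (l 16768736))) (l 16773248)) (a (b (a (l 16043912) (l 16418552)) (c (l 15636480) (l 15355192))) (b (l 16685864) (a (l 16085856) (l 16418552)))))) (a (b (l 16776496) (a (b (l 16771136) (l 16685864))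 (l 16773248))) (l 16776752)))) (a (a (b (l 16777216) (l 16777216)) (b (a (l 16777216) (l 394096643447)) (l 16770752))) (b (a (b (l 1) (l 455298979639)) (l 1)) (a (l 16474784) (a (l 511132806375) (b (l 1) (l 15755464))))))), by decide +kernel⟩

theorem s3_pm_112 : ∃ t, chk3 f_pm_112 t 1 2 1 = true := ex3_b k0_pm_112 k1_pm_112

theorem s4_pm_112 : ∃ t, chk3 f_pm_112 t 1 1 1 = true := ex3_b s3_pm_112 k2_pm_112

theorem c_pm_112 : CertFX 536870912 536870912 536870912 536870912 1046898278 26843546 true true false .dn 1 1 2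
    ndF0q1 ndF3q1 pcF2 Cut.none Ext.none :=
  certFX1 (fam := true) (s1 := true) (s2 := false) (a := 1) (b := 1) (c := 2) (cn := .dn) (n1 := ndF0q1) (n2 := ndF3q1) (pc := pcF2) (cut := Cut.none) (xt := Ext.none) (P1 := 536870912) (W1 := 536870912) (P2 := 536870912) (W2 := 536870912) (P3 := 1046898278) (W3 := 26843546)
    rfl (fun _ => rfl) s4_pm_112

noncomputable def f_pm_113 : ℕ → ℕ → ℕ → ℕ → Bool := onCell 1610612736 536870912 536870912 536870912 1046898278 26843546
    (rowFX 2 true true false .nn 1 1 3 (qsf 536870912 536870912 536870912 536870912 3) ndF0q1 ndF3q1 pcF3 Cut.none Ext.none)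

def k0_pm_113 : ∃ t, chk3 f_pm_113 t 2 2 1 = true :=
  ⟨(a (b (a (b (a (b (l 15704640) (l 15881120)) (b (l 15647976) (l 15767552))) (a (l 16356344) (b (l 15923064) (l 16198728)))) (b (a (b (l 2) (l 15647976)) (l 2)) (a (b (l 15788528) (l 15944040)) (b (l 15647976) (l 15788528))))) (a (b (a (l 16708960) (l 16538392)) (l 16773832)) (b (a (l 16356344) (b (l 15944040) (l 16198728))) (a (l 16708960) (l 16538392))))) (b (a (b (l 2) (a (c (l 15605176) (l 498313967239)) (l 2))) (l 2)) (a (b (a (b (l 15725608) (l 15881120)) (c (l 15523608) (b (l 15633504) (l 15777872)))) (a (l 16356344) (c (l 16110800) (l 16118496)))) (a (b (l 4) (c (b (l 15791472) (l 15985048)) (b (l 15777872) (l 15988408)))) (l 4))))), by decide +kernel⟩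

def k1_pm_113 : ∃ t, chk3 f_pm_113 t 2 3 1 = true :=
  ⟨(b (a (b (a (l 16775704) (a (l 16775704) (l 16773568))) (a (b (l 16768032) (l 16539400)) (b (l 16768032) (l 16581336)))) (a (b (a (l 16710376) (b (l 16474784) (l 16679656))) (b (a (l 16768032) (l 16764208)) (a (l 16581336) (l 16581336)))) (b (a (c (l 16353504) (l 16333240)) (a (c (l 16174312) (l 16168928)) (l 4))) (a (b (l 16685104) (l 16386736)) (b (c (l 16486368) (l 16479752)) (a (l 16534096) (l 16458872))))))) (a (a (b (b (l 15826480) (c (l 15303192) (l 15264904))) (b (c (l 14646872) (l 14650384)) (c (l 13974584) (c (l 13977656) (l 13896952))))) (b (b (l 15889392) (l 15074336)) (b (c (l 14646872) (l 14650384)) (c (l 13974584) (c (l 13977656) (l 13938896)))))) (a (b (a (b (l 15910368) (l 15284048)) (b (l 15910368) (l 15284048))) (b (c (l 14500072) (l 14650384)) (c (l 13890696) (c (l 13977656) (l 13980840))))) (b (a (b (l 15910368) (l 15284048)) (b (c (l 15916104) (l 15893040)) (c (l 15303192) (l 15264904)))) (b (c (a (l 14646872)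 (l 14646872)) (a (l 14650384) (l 14650384))) (c (a (l 13974584) (l 13974584)) (c (l 13914744) (l 13855016)))))))), by decide +kernel⟩

def k2_pm_113 : ∃ t, chk3 f_pm_113 t 3 1 1 = true :=
  ⟨(a (b (b (l 2) (b (l 2) (l 4))) (b (a (b (l 4) (a (b (l 4) (l 4)) (l 4))) (l 4)) (a (a (b (b (a (l 15864672) (l 4)) (c (l 15297912) (l 15258720))) (b (c (l 14646872) (l 14650384)) (c (l 13974584) (b (l 14150488) (l 13810152))))) (a (b (l 4) (b (l 4) (c (l 13974584) (l 13979936)))) (l 4))) (l 4)))) (b (l 2) (b (l 4) (l 4)))), by decide +kernel⟩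

theorem s3_pm_113 : ∃ t, chk3 f_pm_113 t 2 1 1 = true := ex3_b k0_pm_113 k1_pm_113

theorem s4_pm_113 : ∃ t, chk3 f_pm_113 t 1 1 1 = true := ex3_a s3_pm_113 k2_pm_113

theorem c_pm_113 : CertFX 536870912 536870912 536870912 536870912 1046898278 26843546 true true false .nn 1 1 3
    ndF0q1 ndF3q1 pcF3 Cut.none Ext.none :=
  certFX2 (fam := true) (s1 := true) (s2 := false) (a := 1) (b := 1) (c := 3) (cn := .nn) (n1 := ndF0q1) (n2 := ndF3q1) (pc := pcF3) (cut := Cut.none) (xt := Ext.none) (P1 := 536870912) (W1 := 536870912) (P2 := 536870912) (W2 := 536870912) (P3 := 1046898278) (W3 := 26843546)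
    rfl (fun _ => rfl) s4_pm_113

noncomputable def cut_pm_123 : Cut := Cut.of [[⟨0, 1, 0, 67108864⟩, ⟨1, 1, 0, 67108864⟩, ⟨2, 2, 0, 67108864⟩]]

noncomputable def f_pm_123 : ℕ → ℕ → ℕ → ℕ → Bool := onCell 1610612736 536870912 1073741824 536870912 1046898278 26843546
    (rowFX 2 true true false .npn 1 2 3 (qsf 536870912 536870912 1073741824 536870912 3) ndF0q1 ndF3q2 pcF3 cut_pm_123 Ext.none)

def k0_pm_123 : ∃ t, chk3 f_pm_123 t 4 4 1 = true :=
  ⟨(a (b (c (b (b (c (l 15874800) (b (l 15815840) (l 15890640))) (c (l 15983424) (l 15933304))) (c (l 16050520) (l 37075932391))) (b (a (c (b (b (l 15795144) (l 15845648)) (l 15888720)) (b (c (b (l 15731696) (l 15809960)) (b (b (c (l 15751248) (l 15742672)) (l 15767048)) (l 15797968))) (l 15865792))) (c (b (b (l 15795144) (l 15845648)) (l 15888720)) (b (b (c (l 15773632) (a (l 15735664) (l 15756632))) (l 15783984)) (l 15865792)))) (c (l 15980736) (l 15949888)))) (b (c (l 16069488) (l 16051104)) (l 1))) (b (b (c (c (b (l 15874800) (l 15983424))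 (b (a (l 15850616) (l 15850616)) (l 15933304))) (c (b (a (b (l 15795144) (l 15845648)) (b (l 15795144) (l 15845648))) (a (l 15888720) (l 15888720))) (b (a (b (c (l 15773632) (b (l 15746456) (l 15767048))) (l 15804952)) (c (l 15792864) (l 15756088))) (a (l 15865792) (l 15865792))))) (c (c (a (l 16050520) (l 16050520)) (b (l 15982272) (l 16051504))) (c (b (l 15960744) (l 16042136)) (l 15991832)))) (c (b (c (l 16074080) (l 16064888)) (l 15982784)) (b (c (l 16055704) (l 16046512)) (c (l 15967304) (l 15956992)))))), by decide +kernel⟩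

def k1_pm_123 : ∃ t, chk3 f_pm_123 t 5 4 1 = true :=
  ⟨(b (c (b (a (b (c (l 15874800) (l 15829648)) (c (l 15983424) (l 15933304))) (b (a (l 15796640) (l 15754696)) (a (l 15957120) (l 15957120)))) (a (c (l 16050520) (l 16022624)) (c (l 16050520) (l 16022624)))) (b (c (a (b (a (l 15796784) (l 15817752)) (l 15888720)) (b (b (l 15795144) (l 15845648)) (l 15888720))) (a (b (b (a (l 15701216) (l 15764136)) (l 15804952)) (l 15865792)) (b (a (b (l 15764136) (l 15804952)) (l 15784344)) (l 15865792)))) (a (c (l 16001704) (l 15991832)) (l 15996768)))) (c (a (b (l 16069488) (l 15982784)) (b (l 16069488) (l 15982784))) (a (b (l 16051104) (c (l 15967304) (l 15956992))) (b (l 16051104) (c (l 15967304) (l 15956992)))))), by decide +kernel⟩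

def k2_pm_123 : ∃ t, chk3 f_pm_123 t 2 5 1 = true :=
  ⟨(a (b (a (l 1) (b (c (l 15840608) (l 15816280)) (l 1))) (l 1)) (b (c (b (a (l 15840608) (c (l 15846688) (l 15834528))) (a (l 16115536) (l 16115536))) (b (a (l 15816280) (l 15816280)) (a (l 16098344) (l 16098344)))) (b (a (c (l 16514048) (l 16529272)) (c (l 16535016) (l 16550240))) (c (l 16776904) (l 16776896))))), by decide +kernel⟩

def k3_pm_123 : ∃ t, chk3 f_pm_123 t 2 3 1 = true :=
  ⟨(a (l 1) (a (l 1) (b (c (l 16777216) (l 16777216)) (l 1)))), by decide +kernel⟩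

def k4_pm_123 : ∃ t, chk3 f_pm_123 t 6 1 1 = true :=
  ⟨(a (b (b (b (b (c (b (a (b (l 15822256) (l 15904472)) (b (l 15822272) (l 15904496))) (a (l 15957120) (l 15957144))) (b (a (c (l 15817752) (l 15784344)) (c (l 15775840) (l 15763392))) (c (l 15888736) (l 15865808)))) (c (b (l 15942928) (l 16063440)) (l 15996784))) (b (c (l 16069496) (l 16051120)) (c (l 15982792) (l 15962160)))) (b (b (c (l 15840616) (l 15816288)) (c (l 16115544) (l 16098360))) (b (c (l 16556000) (l 16550256)) (c (l 16776912) (l 16776912))))) (b (c (l 16777208) (l 16777208)) (l 1))) (a (b (b (b (b (c (b (b (l 15822304) (c (l 15922600) (l 15890696))) (l 15957176)) (b (b (c (l 15795208) (l 15764200)) (l 15831656)) (l 15879280))) (c (b (l 16005888) (l 16063480)) (l 15996832))) (b (l 16060352) (l 15972528))) (b (b (l 15828496) (l 16107000)) (b (l 16553168) (l 16776960)))) (b (c (l 16777160) (l 16777152)) (l 1))) (b (b (b (b (b (c (b (a (l 15822312) (a (l 15821032) (l 15805208))) (c (l 15922160) (l 15890200))) (b (b (a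 (l 15762592) (a (l 15760384) (l 15732496))) (c (l 15814592) (l 15776576))) (c (l 15845160) (l 15804400)))) (c (l 15957160) (l 15879272))) (c (b (l 16005872) (l 16063472)) (l 15996824))) (b (l 16060344) (l 15972520))) (b (b (l 15828496) (l 16106992)) (b (l 16553168) (l 16776952)))) (b (c (b (l 16777152) (l 16777160)) (l 16777160)) (c (l 16777168) (l 16777168)))))), by decide +kernel⟩

def k5_pm_123 : ∃ t, chk3 f_pm_123 t 28 1 1 = true :=
  ⟨(b (b (b (b (a (b (c (b (l 15756752) (b (l 15857776) (l 15899912))) (b (c (l 15713704) (l 15672072)) (c (l 15810504) (l 15764912)))) (c (b (l 15938208) (l 15970432)) (b (l 15848616) (l 15894328)))) (b (c (a (b (l 15710344) (l 15839408)) (b (c (l 15709008) (l 15666520)) (c (l 15849544) (l 15797752)))) (a (b (c (l 15651232) (l 15598880)) (l 15739400)) (b (c (l 15616672) (l 15493600)) (l 15708880)))) (c (a (l 15938288) (l 15906176)) (a (l 15850896) (l 15830568))))) (b (a (l 15983864) (a (l 15962496) (c (l 15964376) (l 15954424)))) (a (l 16051224) (c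 (a (l 16063416) (l 16066784)) (l 16039792))))) (b (a (l 16060296) (a (l 16060272) (l 16064016))) (c (l 15983640) (l 15963224)))) (b (b (c (l 15841408) (l 15817264)) (l 16107760)) (b (c (l 16535696) (l 16551056)) (c (l 16776240) (l 16776216))))) (b (c (b (a (l 16777192) (l 16776112)) (a (l 16777192) (l 16776416))) (b (l 16776592) (l 16776720))) (b (c (l 16776904) (l 16776896)) (l 1)))), by decide +kernel⟩

def k6_pm_123 : ∃ t, chk3 f_pm_123 t 29 1 1 = true :=
  ⟨(a (b (b (b (b (b (c (b (a (l 15675720) (l 15667464)) (c (l 15845312) (l 15784392))) (b (c (l 15498208) (b (l 15472424) (l 15551248))) (c (l 15710344) (l 15640208)))) (c (b (l 15898544) (l 15953896)) (l 15816464))) (b (c (l 16014632) (l 15957408)) (c (b (l 16061112) (l 16093840)) (l 16058560)))) (b (l 16078520) (l 15989224))) (b (b (l 15843744) (l 16120712)) (b (l 16544152) (l 16764392)))) (b (c (b (l 16767088) (l 16770904)) (b (l 16766824) (l 16770736))) (c (c (l 16775264) (l 16775240)) (l 27950816199)))) (b (b (b (b (b (c (b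 (a (l 15664312) (c (l 15712056) (l 15626128))) (a (l 15813952) (c (l 15866896) (l 15783304)))) (b (c (a (l 15550448) (l 15532704)) (a (l 15461632) (b (l 15380736) (l 15480224)))) (c (l 15688480) (l 15600696)))) (c (a (l 15935288) (l 15948800)) (l 15723184))) (c (b (a (l 16028368) (l 16044120)) (b (l 16082496) (l 16111328))) (b (l 15962776) (l 16075104)))) (b (b (l 16105872) (l 16076800)) (l 15999760))) (b (b (l 15853192) (l 16128784)) (b (l 16459480) (c (l 16756480) (l 16755944))))) (b (b (c (l 16762544) (l 16762168)) (c (l 16769992) (l 16769808))) (b (c (l 16775384) (l 16775336)) (l 4))))), by decide +kernel⟩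

def k7_pm_123 : ∃ t, chk3 f_pm_123 t 60 2 1 = true :=
  ⟨(c (b (b (b (b (c (b (a (a (a (l 15725400) (l 15731376)) (b (l 15696800) (l 15786952))) (c (l 15810776) (b (l 6) (l 15789200)))) (a (c (a (b (l 15876576) (l 15937744)) (l 15921648)) (l 15868320)) (c (l 15953440) (b (a (l 15862264) (l 15883672)) (b (l 15917056) (l 15940824)))))) (b (a (b (l 15573960) (l 15680456)) (l 15683760)) (a (l 15792480) (l 15811568)))) (c (a (c (a (l 16029072) (l 16041984)) (l 15992688)) (b (l 16015328) (l 16071960))) (a (l 15923544) (l 15946512)))) (b (c (a (c (l 16110392) (l 16075200)) (l 16121304)) (l 16020760)) (l 16136512))) (b (b (l 16129792) (l 16078304)) (l 15997432))) (b (b (l 15854480) (l 16127672)) (b (a (l 16497128) (l 16498032)) (l 16761600)))) (b (b (b (b (b (b (a (c (l 15458392) (l 15333440)) (l 6)) (a (c (l 15570384) (l 15447152)) (c (l 15558552) (l 15408368)))) (c (a (l 15681360) (l 15681176)) (l 15562864))) (a (l 15808664) (l 15814040))) (b (l 15979952) (l 16095112))) (b (l 15995552) (l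 15993056))) (b (b (l 15843160) (l 16120712)) (b (l 16515136) (l 16759920))))), by decide +kernel⟩

def k8_pm_123 : ∃ t, chk3 f_pm_123 t 61 2 1 = true :=
  ⟨(b (b (b (b (a (b (l 6) (b (l 6) (c (c (l 16013552) (l 15881872)) (l 15672024)))) (l 6)) (b (c (c (l 16186360) (a (l 15950896) (l 16014464))) (a (l 15773120) (l 15814056))) (c (c (l 16149448) (a (l 16016200) (l 16076152))) (l 15842312)))) (c (b (c (l 16190400) (b (a (l 16066416) (l 16122800)) (l 16133472))) (l 16206728)) (b (l 16034240) (l 16145776)))) (b (c (b (l 16190680) (l 16110376)) (l 16028048)) (b (c (l 16034632) (l 16031584)) (l 15944176)))) (b (b (a (c (l 15846088) (l 15833928)) (c (l 15843688) (l 15837248))) (c (a (l 16120488) (l 16119000)) (l 16012168))) (b (c (l 16326600) (l 16404488)) (c (a (l 16770120) (l 16755512)) (l 16759888))))), by decide +kernel⟩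

def k9_pm_123 : ∃ t, chk3 f_pm_123 t 62 2 1 = true :=
  ⟨(a (b (b (b (b (l 6) (a (b (l 6) (c (l 16197128) (l 15985912))) (l 6))) (c (b (b (l 16250880) (l 16273296)) (l 16301832)) (b (l 16131624) (l 16232704)))) (b (c (l 16229552) (l 16201536)) (c (b (l 16060792) (l 15940216)) (b (l 16053560) (l 15927808))))) (b (b (c (b (l 15860464) (l 15811832)) (l 15825648)) (c (l 16108440) (l 16092688))) (b (c (l 16504864) (l 16515720)) (c (l 16727112) (l 16724912))))) (b (b (b (l 6) (c (b (b (l 16369296) (l 16401192)) (c (l 16416616) (l 16368048))) (b (l 16237672) (l 16319848)))) (b (c (b (l 16351480) (l 16237136)) (l 16121184)) (c (b (c (l 16099912) (l 16097616)) (a (l 15939576) (l 15938888))) (b (l 16083400) (l 15918168))))) (b (b (c (b (l 15844056) (l 15792016)) (b (l 15819904) (l 15768032))) (c (l 16057088) (l 16058456))) (b (c (a (l 16501488) (l 16487920)) (l 16434008)) (l 4))))), by decide +kernel⟩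

def k10_pm_123 : ∃ t, chk3 f_pm_123 t 63 2 1 = true :=
  ⟨(b (b (b (l 6) (a (b (a (a (c (l 16466616) (l 16328208)) (l 6)) (l 6)) (c (c (b (l 16541968) (l 16519640)) (l 16427920)) (c (l 16456776) (l 16428560)))) (b (l 6) (a (a (c (b (l 16581072) (l 16539312)) (c (l 16547896) (l 16528976))) (b (l 6) (c (l 16550560) (c (l 16544880) (l 16541280))))) (b (l 6) (a (c (a (l 16555592) (l 16561816)) (a (l 16547272) (l 16554240))) (l 4))))))) (a (c (b (a (b (l 16415232) (l 16269696)) (b (l 16434520) (l 16290448))) (a (b (l 16124392) (l 15937672)) (b (l 16133952) (l 15940816)))) (b (a (b (l 16376456) (l 16262736)) (b (c (l 16428440) (l 16424104)) (a (l 16275128) (l 16279704)))) (a (b (l 16107616) (l 15916080)) (b (l 16116904) (a (l 15916920) (l 15919496)))))) (a (b (a (b (c (l 16449064) (c (l 16444000) (l 16438616))) (c (l 16295520) (l 16282160))) (c (b (l 16452888) (l 16313728)) (b (l 16444016) (l 16300984)))) (c (c (b (l 16163280) (l 15978416)) (l 15977264)) (c (l 15842448) (b (l 16012408) (l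 15945672))))) (a (b (b (c (l 16476128) (c (l 16470504) (l 16466128))) (l 4)) (l 4)) (l 4))))) (b (a (b (c (a (b (l 15816672) (l 15763608)) (c (b (l 15807360) (l 15756952)) (l 15785352))) (b (c (l 15801288) (l 15786664)) (c (l 15751816) (l 15715592)))) (a (c (l 16053184) (l 16033312)) (l 4))) (l 4)) (l 4))), by decide +kernel⟩

def k11_pm_123 : ∃ t, chk3 f_pm_123 t 15 3 1 = true :=
  ⟨(b (b (a (a (c (l 16768336) (l 16767376)) (a (c (l 16774432) (l 16773528)) (c (l 16755344) (l 16754288)))) (b (l 4) (l 4))) (a (a (c (c (l 16774824) (l 16774488)) (c (l 16774456) (l 16774416))) (a (c (l 16776648) (l 16776616)) (l 4))) (l 4))) (b (b (a (a (c (l 219278230663) (l 16777128)) (l 4)) (l 4)) (l 4)) (l 4))), by decide +kernel⟩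

theorem s12_pm_123 : ∃ t, chk3 f_pm_123 t 31 2 1 = true := ex3_a k9_pm_123 k10_pm_123

theorem s13_pm_123 : ∃ t, chk3 f_pm_123 t 30 2 1 = true := ex3_a k7_pm_123 k8_pm_123

theorem s14_pm_123 : ∃ t, chk3 f_pm_123 t 15 2 1 = true := ex3_a s13_pm_123 s12_pm_123

theorem s15_pm_123 : ∃ t, chk3 f_pm_123 t 15 1 1 = true := ex3_b s14_pm_123 k11_pm_123

theorem s16_pm_123 : ∃ t, chk3 f_pm_123 t 14 1 1 = true := ex3_a k5_pm_123 k6_pm_123

theorem s17_pm_123 : ∃ t, chk3 f_pm_123 t 7 1 1 = true := ex3_a s16_pm_123 s15_pm_123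

theorem s18_pm_123 : ∃ t, chk3 f_pm_123 t 3 1 1 = true := ex3_a k4_pm_123 s17_pm_123

theorem s19_pm_123 : ∃ t, chk3 f_pm_123 t 2 4 1 = true := ex3_a k0_pm_123 k1_pm_123

theorem s20_pm_123 : ∃ t, chk3 f_pm_123 t 2 2 1 = true := ex3_b s19_pm_123 k2_pm_123

theorem s21_pm_123 : ∃ t, chk3 f_pm_123 t 2 1 1 = true := ex3_b s20_pm_123 k3_pm_123

theorem s22_pm_123 : ∃ t, chk3 f_pm_123 t 1 1 1 = true := ex3_a s21_pm_123 s18_pm_123

theorem c_pm_123 : CertFX 536870912 536870912 1073741824 536870912 1046898278 26843546 true true false .npn 1 2 3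
    ndF0q1 ndF3q2 pcF3 cut_pm_123 Ext.none :=
  certFX2 (fam := true) (s1 := true) (s2 := false) (a := 1) (b := 2) (c := 3) (cn := .npn) (n1 := ndF0q1) (n2 := ndF3q2) (pc := pcF3) (cut := cut_pm_123) (xt := Ext.none) (P1 := 536870912) (W1 := 536870912) (P2 := 1073741824) (W2 := 536870912) (P3 := 1046898278) (W3 := 26843546)
    rfl (fun _ => rfl) s22_pm_123

noncomputable def f_pm_133 : ℕ → ℕ → ℕ → ℕ → Bool := onCell 536870912 536870912 1610612736 536870912 1046898278 26843546
    (rowFX 0 true true false .dn 1 3 3 (qsf 536870912 536870912 1610612736 536870912 3) ndF0q1 ndF3q3 pcF3 Cut.none Ext.none)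

def k0_pm_133 : ∃ t, chk3 f_pm_133 t 1 1 1 = true :=
  ⟨(a (l 4) (l 2)), by decide +kernel⟩

theorem c_pm_133 : CertFX 536870912 536870912 1610612736 536870912 1046898278 26843546 true true false .dn 1 3 3
    ndF0q1 ndF3q3 pcF3 Cut.none Ext.none :=
  certFX0 (fam := true) (s1 := true) (s2 := false) (a := 1) (b := 3) (c := 3) (cn := .dn) (n1 := ndF0q1) (n2 := ndF3q3) (pc := pcF3) (cut := Cut.none) (xt := Ext.none) (P1 := 536870912) (W1 := 536870912) (P2 := 1610612736) (W2 := 536870912) (P3 := 1046898278) (W3 := 26843546)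
    rfl k0_pm_133

noncomputable def cut_pm_202 : Cut := Cut.of [[⟨0, 1, 0, 67108864⟩, ⟨1, 0, 0, 67108864⟩, ⟨2, 1, 0, 67108864⟩, ⟨3, 0, 0, 1233125376⟩]]

noncomputable def f_pm_202 : ℕ → ℕ → ℕ → ℕ → Bool := onCell 0 536870912 1073741824 536870912 1046898278 26843546
    (rowFX 1 true true false .pp 2 0 2 (qsf 0 536870912 0 536870912 2) ndF0q2 ndF3q0 pcF2 cut_pm_202 Ext.none)

def k0_pm_202 : ∃ t, chk3 f_pm_202 t 4 4 1 = true :=
  ⟨(l 1), by decide +kernel⟩

def k1_pm_202 : ∃ t, chk3 f_pm_202 t 4 10 1 = true :=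
  ⟨(b (b (l 1) (a (c (a (l 16056024) (l 16086568)) (b (l 1) (a (l 16112808) (l 16061408)))) (a (b (l 1) (c (l 16183120) (c (l 16181560) (l 16186344)))) (c (c (l 16178416) (l 16138080)) (b (c (l 16386968) (l 16386912)) (c (l 16231760) (l 16242704))))))) (a (c (b (c (a (b (l 15970928) (l 15856424)) (b (l 15999024) (l 15889616))) (a (l 15860624) (l 15873008))) (a (a (b (l 15795136) (c (l 15737736) (l 15750568))) (c (l 15770648) (l 15786248))) (c (l 15793424) (l 15808512)))) (b (c (a (l 15934368) (l 15968856)) (a (l 15942264) (l 15976952))) (a (a (b (l 15812512) (l 15748440)) (l 15788352)) (l 15810368)))) (c (b (a (c (b (l 16035976) (l 15936504)) (l 15918080)) (c (b (l 16087384) (l 16001176)) (l 16019432))) (c (a (l 15837928) (l 15896976)) (a (l 15852360) (l 15909912)))) (a (b (c (l 16015672) (l 16023936)) (l 15852904)) (b (c (l 16078216) (l 16084760)) (l 15846080)))))), by decide +kernel⟩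

def k2_pm_202 : ∃ t, chk3 f_pm_202 t 4 11 1 = true :=
  ⟨(b (a (c (a (b (b (a (l 15709680) (c (l 15695192) (l 15703624))) (c (l 15678264) (l 15679696))) (c (l 15663760) (l 15654272))) (b (a (b (l 15705720) (c (c (l 15637112) (l 15663192)) (l 15660784))) (c (l 15692920) (l 15696280))) (a (c (b (l 15634896) (l 15625072)) (l 15619832)) (b (c (a (l 15606992) (l 15631480)) (l 15621552)) (c (l 15583768) (l 15590280)))))) (a (b (a (l 15689744) (b (l 15690536) (l 15649496))) (l 15633280)) (b (a (b (l 15696808) (l 15641160)) (l 15680384)) (a (l 15598024) (b (l 15599904) (l 15567624)))))) (c (a (b (c (l 15723760) (l 15725912)) (a (b (l 15637920) (c (a (l 15578920) (l 15604416)) (l 15588624))) (c (l 15638664) (l 15626440)))) (b (c (l 15776576) (l 15776896)) (c (c (l 15676392) (l 15671584)) (l 15661216)))) (a (b (l 15709824) (a (b (l 15611456) (l 15565888)) (l 15604632))) (b (l 15760264) (l 15640080))))) (a (c (c (b (a (l 15752304) (l 15704208)) (l 15937632)) (a (l 15760312) (l 15611768))) (a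 (b (l 15719480) (l 15929568)) (b (l 15669496) (l 15890080)))) (c (b (a (b (a (b (a (l 15589096) (c (b (l 15580104) (l 15600104)) (l 15574976))) (l 15640776)) (b (c (l 15577792) (l 15583360)) (c (l 15643976) (l 15629168)))) (a (l 15727272) (l 15716352))) (b (c (b (l 15587816) (l 15671992)) (l 15636152)) (c (l 15743688) (l 15730184)))) (a (l 15889400) (a (b (l 15826064) (l 15936176)) (b (l 15840224) (l 15935736))))) (b (a (b (c (a (l 15590088) (l 15592648)) (l 15578080)) (l 15693776)) (b (c (l 15621432) (l 15606712)) (l 15709928))) (a (l 15866544) (a (l 15856464) (l 15866208))))))), by decide +kernel⟩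

def k3_pm_202 : ∃ t, chk3 f_pm_202 t 4 3 1 = true :=
  ⟨(a (b (b (c (b (a (l 16177048) (l 16149216)) (l 16352312)) (b (c (l 16151792) (l 16144072)) (l 16341600))) (c (b (l 16488520) (l 16682976)) (b (l 16460088) (l 16680528)))) (b (c (b (l 16777208) (l 16777216)) (b (l 16777208) (l 16777216))) (l 4))) (b (b (c (b (a (l 16131680) (l 16123720)) (l 16309200)) (b (a (l 16115200) (l 16106904)) (l 16319296))) (c (b (l 16515496) (l 16705720)) (b (l 16466784) (l 16682896)))) (b (c (b (l 16777216) (l 16777216)) (c (l 16777216) (l 16777216))) (b (c (l 16777216) (l 16777216)) (l 4))))), by decide +kernel⟩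

def k4_pm_202 : ∃ t, chk3 f_pm_202 t 5 4 1 = true :=
  ⟨(b (l 1) (a (l 1) (b (l 1) (b (l 1) (b (l 1) (a (l 1) (c (l 16461008) (a (l 16447832) (c (l 16476880) (l 16463512)))))))))), by decide +kernel⟩

def k5_pm_202 : ∃ t, chk3 f_pm_202 t 5 10 1 = true :=
  ⟨(b (b (b (a (l 1) (c (a (l 16502864) (a (l 16470320) (l 16368256))) (a (a (l 16491848) (l 16388880)) (c (l 16339520) (l 16306816))))) (a (c (a (l 16452928) (b (l 16455464) (l 16396560))) (a (c (l 16452416) (l 16452192)) (c (l 16369760) (b (l 16453472) (l 16321216))))) (c (a (a (l 16359096) (b (l 16434600) (l 16318376))) (a (b (l 16392104) (l 16311448)) (b (l 16383608) (l 16316064)))) (a (c (a (l 16348048) (l 16323552)) (a (l 16315296) (l 16329616))) (c (b (l 16369816) (l 16300904)) (l 16279912)))))) (a (c (a (c (l 16162904) (b (l 16429368) (l 16284104))) (c (c (l 16223880) (l 16210232)) (a (l 16241536) (l 16305464)))) (a (c (a (l 16204680) (l 16218312)) (b (l 16360048) (l 16315632))) (c (b (l 16420760) (l 16373504)) (l 16255288))))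 (c (a (c (b (l 16380024) (l 16413608)) (l 16301672)) (c (l 16293456) (l 16273000))) (a (a (l 16318320) (l 16286248)) (c (l 16279952) (l 16294224)))))) (a (c (b (a (c (l 16074888) (l 16140176)) (c (l 16190904) (l 16190728))) (a (c (l 15969096) (l 15981176)) (c (l 16057520) (l 16066072)))) (a (b (c (l 16154416) (l 16158536)) (l 15978880)) (b (l 16139232) (l 16020944)))) (c (b (a (c (l 16236840) (l 16254600)) (c (l 16316432) (l 16331016))) (a (c (l 16096552) (l 16164600)) (c (b (l 16316136) (l 16236208)) (l 16212216)))) (a (b (c (l 16283200) (l 16322928)) (l 16114256)) (b (a (l 16347720) (l 16405736)) (a (l 16237800) (l 16296936))))))), by decide +kernel⟩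

def k6_pm_202 : ∃ t, chk3 f_pm_202 t 5 11 1 = true :=
  ⟨(b (a (c (b (a (c (l 15843616) (l 15840368)) (c (l 15903104) (l 15918864))) (a (c (l 15731192) (l 15718568)) (c (l 15801992) (l 15789232)))) (a (b (l 15824768) (l 15698520)) (b (l 15903080) (l 15770528)))) (c (a (b (c (b (l 16052592) (l 15982592)) (l 16008512)) (c (l 15885104) (l 15873704))) (b (c (l 16119608) (l 16111904)) (c (l 15982664) (l 15972512)))) (a (b (l 15890048) (l 15856608)) (b (l 16100208) (l 15957288))))) (a (c (b (c (b (a (l 15683256) (l 15771344)) (l 15828752)) (a (l 15693872) (l 15782896))) (a (c (l 15924776) (l 15913640)) (l 15969840))) (b (b (a (l 15669168) (l 15738472)) (l 15797752)) (a (l 15896928) (l 15948864)))) (c (b (a (b (c (l 15852456) (l 15840368)) (l 15928928)) (b (a (l 15913408) (l 15955088)) (l 15998168))) (a (l 16025400) (l 16086072))) (c (b (a (l 15868984) (l 15948136)) (l 16042312)) (b (a (l 15857416) (l 15937576)) (l 16032952)))))), by decide +kernel⟩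

def k7_pm_202 : ∃ t, chk3 f_pm_202 t 5 3 1 = true :=
  ⟨(b (b (a (b (c (a (b (a (l 16051384) (l 16062304)) (l 16193856)) (b (l 16091752) (l 16214928))) (a (b (l 16040112) (l 16178784)) (b (l 16073952) (l 16200344)))) (c (a (l 16371560) (l 16396432)) (l 16289976))) (b (c (a (l 16201312) (l 16260096)) (a (l 16186352) (l 16246664))) (c (a (b (l 16374296) (l 16484872)) (l 16395968)) (a (l 16378056) (l 16451168))))) (a (b (c (l 16573048) (l 16567760)) (c (l 16739768) (l 16738800))) (b (a (c (l 16634728) (l 16631032)) (b (l 16633784) (l 16730336))) (c (l 16769104) (l 16768896))))) (b (c (c (l 16777216) (l 16777216)) (c (l 16777216) (l 16777216))) (c (c (l 16777216) (l 16777216)) (c (l 16777216) (l 16777216))))), by decide +kernel⟩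

def k8_pm_202 : ∃ t, chk3 f_pm_202 t 6 8 1 = true :=
  ⟨(l 1), by decide +kernel⟩

def k9_pm_202 : ∃ t, chk3 f_pm_202 t 14 8 1 = true :=
  ⟨(b (l 1) (b (a (l 1) (a (l 1) (b (l 6) (b (l 6) (c (c (c (l 16071632) (l 16183744)) (c (l 254508970199) (l 16145168))) (c (a (l 16147584) (l 16185344)) (a (c (l 16145368) (l 16145712)) (c (l 16233512) (l 16238136))))))))) (b (a (l 1) (c (c (a (c (b (l 346313735351) (l 16102000)) (b (l 360272380375) (l 258266998615))) (a (c (l 16105232) (b (l 16192216) (l 16240272))) (c (b (l 16250904) (l 16311072)) (b (l 16239864) (l 16325088))))) (c (a (l 404295801687) (b (l 16127456) (l 16209400))) (a (l 439192368183) (b (l 16152096) (l 16238200))))) (a (c (b (l 16005920) (a (l 16104176) (l 16174904))) (b (a (l 1) (l 16013216)) (a (l 16059272) (l 16118736)))) (c (b (a (l 16175192) (l 16288680)) (l 16210048)) (b (a (l 16119736) (l 16299904)) (l 16306784)))))) (a (a (l 1) (c (c (c (b (c (l 16094008) (l 316248972935)) (c (l 331281465527) (l 16152392))) (l 367788569159))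 (b (l 16086736) (l 346313822439))) (c (c (l 476236418215) (l 513817349607)) (b (l 320006943367) (a (l 16110376) (l 16156520)))))) (c (a (c (c (b (c (l 16196152) (l 16155568)) (a (l 16225144) (l 16229448))) (b (l 16134872) (l 16160432))) (b (a (l 16162664) (l 16234176)) (a (l 16231024) (l 16316024)))) (c (b (c (a (l 16276920) (l 16391112)) (l 16296168)) (c (l 16306376) (l 16426616))) (b (l 16291840) (l 16404480)))) (a (c (b (a (l 16165032) (l 16248120)) (l 16187216)) (b (a (l 16129432) (l 16259208)) (l 16304664))) (c (l 16273800) (l 16345840)))))))), by decide +kernel⟩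

def k10_pm_202 : ∃ t, chk3 f_pm_202 t 15 8 1 = true :=
  ⟨(b (l 6) (a (b (b (l 6) (b (l 6) (b (l 6) (c (a (c (a (l 16294168) (l 16379560)) (a (l 16319832) (l 16420056))) (c (l 16410360) (l 16482408))) (a (c (l 16370896) (l 16403928)) (l 16520528)))))) (c (b (a (c (a (c (l 16245992) (b (l 16350408) (l 16430360))) (c (l 16425232) (l 16405208))) (b (l 16316696) (l 16416616))) (c (c (l 16413912) (l 16427128)) (l 16443128))) (a (c (b (c (l 16417216) (l 16479576)) (l 16448904)) (l 16414376)) (c (c (l 16452536) (l 16530328)) (l 16498608)))) (b (a (c (a (l 16370368) (l 16488904)) (l 16363680)) (b (l 16506816) (l 16577400))) (c (a (l 16472224) (l 16511576)) (l 16420552))))) (b (l 6) (c (c (b (a (c (l 16519800) (l 16463592)) (l 16278376)) (a (c (l 16306808) (l 16424272)) (c (l 16265176) (l 16254280)))) (a (b (a (l 16589272) (l 16512760)) (l 16299328)) (b (l 16402016) (l 16247664)))) (c (a (b (l 16462760) (l 16367800)) (b (l 16319064) (l 16248152))) (a (b (l 16523728) (l 16428992)) (b (l 16240792)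 (l 16146888)))))))), by decide +kernel⟩

def k11_pm_202 : ∃ t, chk3 f_pm_202 t 6 18 1 = true :=
  ⟨(a (l 1) (b (a (l 1) (b (l 1) (a (a (l 1) (a (l 1) (b (l 1) (c (c (l 315175571335) (l 16230704)) (l 443487650183))))) (c (c (b (l 370473146663) (l 396243110951)) (b (l 16193144) (l 16215064))) (c (b (l 16187336) (l 16175376)) (b (l 16058784) (l 583610918471))))))) (a (a (b (l 1) (c (l 16218040) (l 355977534215))) (b (c (l 985727183783) (l 1017939342471)) (c (l 240013635175) (c (l 16271360) (l 16215264))))) (b (c (a (b (c (c (l 106869663207) (l 16266520)) (l 16178664)) (l 16260088)) (b (c (a (b (l 16324336) (l 16356000)) (b (l 16365552) (l 16406120))) (a (l 16273328) (l 16311144))) (c (l 16394096) (l 16409416)))) (a (a (l 1103301968007) (b (c (l 16283816) (l 16265664)) (l 16339216))) (b (c (a (l 16280432) (l 16370592)) (a (l 16291456) (l 16427048))) (l 16351888)))) (c (c (a (l 16334608) (l 16411456)) (c (l 16274248) (l 16283672))) (c (a (l 16342768) (l 16545880)) (l 16290096))))))), by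 decide +kernel⟩

def k12_pm_202 : ∃ t, chk3 f_pm_202 t 6 19 1 = true :=
  ⟨(a (b (a (c (l 399464236727) (a (l 1) (l 16189232))) (c (b (l 16267840) (a (l 16356560) (l 16312200))) (b (a (l 1) (l 16192552)) (a (c (l 16356456) (l 16318824)) (c (l 16364648) (l 16335384)))))) (b (a (c (a (l 16403632) (l 16410392)) (a (l 16340000) (c (l 16427616) (l 16392896)))) (c (c (l 16351928) (l 16347344)) (c (l 16323736) (l 16380360)))) (c (a (a (l 16485984) (l 16419312)) (a (l 16408096) (l 16383432))) (a (c (a (l 16501152) (l 16482040)) (a (l 16474160) (l 16488904))) (c (l 16354768) (l 16386560)))))) (a (b (c (a (b (l 16287920) (b (l 16343600) (l 16399080))) (b (l 16298936) (l 16454088))) (c (a (b (l 16294704) (l 16390048)) (l 16303880)) (a (b (l 16220224) (l 16447952)) (l 16359384)))) (c (a (c (l 16301768) (l 16255496)) (l 16110720)) (a (c (l 16281752) (l 16314496)) (l 16163664)))) (b (c (b (l 16325008) (l 16201688)) (b (b (l 16394192) (l 16353920)) (l 16232632))) (c (c (l 15993800) (l 15971760)) (a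 (l 16081656) (l 16057192)))))), by decide +kernel⟩

def k13_pm_202 : ∃ t, chk3 f_pm_202 t 14 18 1 = true :=
  ⟨(b (a (c (b (a (c (b (l 320007138023) (l 400001050151)) (b (l 16120520) (l 16175464))) (c (b (a (l 16194224) (l 16241928)) (a (l 16268856) (l 16307176))) (b (a (l 16188432) (l 16246904)) (a (l 16274192) (l 16346200))))) (a (c (b (a (l 16259008) (l 16302280)) (a (l 16342264) (l 16375872))) (b (l 512207135095) (l 16280688))) (c (c (a (l 16303904) (l 16398424)) (l 16269656)) (l 16266232)))) (b (a (c (b (l 16113400) (l 16112592)) (b (l 585758109799) (l 464962280055))) (c (b (a (l 16190864) (l 16260592)) (l 16287336)) (b (l 16070232) (l 16342736)))) (c (a (b (l 16209520) (l 16361528)) (l 16331416)) (a (b (l 16220648) (l 16418544)) (l 16405288))))) (c (b (a (c (b (a (l 16283680) (l 16390472)) (l 16325336)) (b (l 16264704) (l 16416520))) (c (l 16381848) (l 16408560))) (c (a (l 16388920) (l 16426712)) (a (l 16458768) (l 16445792)))) (b (c (a (l 16277472) (l 16467272)) (c (l 16295240)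 (l 16316608))) (a (l 16415848) (l 16325704))))) (c (a (a (b (b (a (c (l 16358656) (l 16421304)) (l 16398608)) (c (c (l 16429688) (l 16466648)) (l 16467584))) (l 16480360)) (b (b (l 16431008) (c (l 16496056) (l 16533768))) (b (c (l 16391776) (l 16430120)) (l 16351168)))) (b (a (c (l 16338136) (l 16401064)) (c (l 16306192) (l 16304800))) (c (a (b (l 16306920) (l 16204848)) (l 16006408)) (a (l 16151576) (l 16070552))))) (a (b (a (c (b (l 16422200) (l 16532944)) (l 16382632)) (a (l 16414320) (l 16419024))) (a (l 16445624) (b (l 16307232) (l 16321152)))) (b (c (l 16204752) (l 16220528)) (a (c (l 16181200) (l 16155048)) (b (l 16117416) (l 15999240))))))), by decide +kernel⟩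

def k14_pm_202 : ∃ t, chk3 f_pm_202 t 15 18 1 = true :=
  ⟨(c (a (b (c (b (a (l 16433248) (l 16298296)) (a (l 16282800) (l 16191632))) (b (a (l 16489808) (l 16372264)) (a (l 16361432) (l 16205560)))) (c (a (b (l 16164032) (l 15933040)) (b (l 15993464) (l 15769784))) (b (l 15904408) (l 15845336)))) (b (c (a (b (l 16240048) (l 16032984)) (b (l 16075800) (l 15875976))) (a (b (l 16239632) (l 16036104)) (l 15926328))) (c (b (a (l 15821312) (l 15669648)) (l 15363800)) (a (l 15610536) (l 15549496))))) (b (a (b (c (l 16256256) (l 16273592)) (a (l 16287152) (l 16198216))) (a (c (l 15892576) (l 16012864)) (c (b (l 16065216) (l 15861808)) (b (l 16066368) (l 15860200))))) (a (b (a (l 16128560) (l 15978272)) (a (l 15896616) (l 15749824))) (a (c (l 15693200) (l 15702792)) (c (l 15540664) (l 15408800)))))), by decide +kernel⟩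

def k15_pm_202 : ∃ t, chk3 f_pm_202 t 7 19 1 = true :=
  ⟨(a (b (a (c (a (l 16142104) (l 16119168)) (a (l 16152680) (l 16046976))) (b (c (a (l 16062192) (b (l 15925168) (l 15836024))) (a (l 16036936) (b (l 15900216) (l 15810480)))) (c (l 15573712) (l 15672432)))) (a (c (a (l 15943064) (l 15772840)) (a (l 15937936) (l 15767152))) (c (a (l 15653912) (l 15471736)) (a (l 15624664) (l 15438584))))) (b (a (a (b (b (c (l 15724032) (l 15719408)) (c (l 15587096) (l 15622216))) (l 15509344)) (c (b (c (l 15373672) (l 15535296)) (c (l 15352880) (l 15343904))) (b (b (l 15573344) (l 15457320)) (l 15319696)))) (c (b (c (a (l 15378288) (l 15231488)) (a (l 15375152) (l 15212648))) (a (c (l 15164640) (l 15158336)) (c (l 15011672) (l 14989552)))) (b (a (l 15360104) (l 14964376)) (a (c (l 15149200) (l 15129904)) (c (l 14972632) (l 14958504)))))) (a (c (a (l 15282520) (l 15101664)) (l 15072456)) (c (a (l 14923928) (b (c (l 14847472) (l 14822720)) (l 14701544))) (a (l 14892016) (b (c (l 14803192) (l 14786472))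 (l 14658248))))))), by decide +kernel⟩

def k16_pm_202 : ∃ t, chk3 f_pm_202 t 3 10 2 = true :=
  ⟨(a (b (a (b (a (a (b (l 16342512) (l 16205184)) (c (l 16141744) (l 16136624))) (c (b (l 16331584) (l 16123848)) (b (l 16307760) (b (l 16219616) (l 16129528))))) (a (c (a (l 16338168) (l 16316920)) (l 16151872)) (c (b (l 16223792) (l 16350736)) (b (l 16205128) (l 16338272))))) (b (a (a (b (l 16207616) (c (l 16114264) (l 16072864))) (c (l 15901768) (l 15819224))) (a (c (l 15795400) (l 15736576)) (b (l 15873432) (l 15559704)))) (a (a (c (l 16048120) (l 16099312)) (c (l 15994912) (l 16068048))) (a (b (l 15879920) (l 16015824)) (l 15817408))))) (a (b (a (c (b (l 16499088) (l 16429320)) (l 16377320)) (c (a (l 16430024) (l 16405808)) (l 16383000))) (a (c (b (l 16402712) (l 16357608)) (l 16313584)) (c (l 16430216) (l 16428408)))) (a (b (a (c (l 16341552) (l 16359104)) (l 16268504)) (b (l 16419736) (l 16485552))) (b (a (l 16208008) (l 16076096)) (l 16162360))))) (a (b (b (a (a (b (l 15732560) (l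 15587528)) (l 15364896)) (a (l 15351160) (l 15167096))) (a (a (l 15677456) (l 15527896)) (a (l 15370760) (l 15202384)))) (a (b (a (l 15941008) (l 15806072)) (l 16111304)) (a (l 15731448) (l 15659808)))) (b (b (a (a (l 14982888) (l 14820448)) (a (l 14661896) (l 14511248))) (a (l 14967640) (l 14654720))) (a (a (l 15497656) (l 15346640)) (a (l 15189216) (l 15039352)))))), by decide +kernel⟩

def k17_pm_202 : ∃ t, chk3 f_pm_202 t 3 11 2 = true :=
  ⟨(a (b (a (a (b (a (l 16201016) (l 16262896)) (a (l 16056880) (l 16108312))) (b (a (l 16328512) (l 16393976)) (l 16179496))) (a (b (c (l 16352912) (l 16350304)) (l 16244912)) (b (l 16521088) (l 16419920)))) (a (c (b (a (l 16044552) (l 16123352)) (l 16199832)) (b (a (l 16034976) (l 16114800)) (l 16192288))) (a (b (b (l 16171632) (l 16269168)) (l 16352536)) (b (l 16365600) (l 16529800))))) (b (a (a (b (l 16312304) (l 16553088)) (b (l 16144904) (a (l 16465416) (l 16314096)))) (a (a (l 16034616) (l 15886328)) (l 15553984))) (a (a (b (l 16519280)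 (l 16660992)) (b (l 16462544) (l 16393192))) (a (a (l 16202200) (l 16060208)) (a (l 15924744) (l 15811808)))))), by decide +kernel⟩

def k18_pm_202 : ∃ t, chk3 f_pm_202 t 3 10 3 = true :=
  ⟨(a (b (a (b (a (c (b (l 16314312) (a (l 16277016) (l 16236584))) (b (l 16364968) (l 16184856))) (a (c (l 16138360) (l 16193960)) (c (l 16093096) (l 16128888)))) (a (c (l 16203888) (l 16242120)) (a (l 16223352) (l 16177240)))) (b (a (a (b (l 16200208) (b (l 16114896) (l 16024760))) (c (l 15913512) (l 15863200))) (b (l 15832088) (a (l 15752096) (b (l 15736288) (l 15665008))))) (a (a (a (l 16199856) (l 16146184)) (l 15887720)) (a (l 15802360) (l 15730120))))) (a (a (b (b (l 16445008) (l 16432744)) (a (l 16359352) (l 16404048))) (b (a (l 16424360) (l 16399568)) (b (l 16494960) (l 16462816)))) (a (b (a (l 16291480) (l 16237656)) (a (l 16531280) (l 16437048))) (b (a (l 16173368) (l 16058496)) (a (l 16358312) (l 16279120)))))) (a (b (b (a (a (b (l 15705704) (l 15557592)) (b (l 15554696) (l 15405448)))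 (a (l 15250816) (l 15124384))) (a (a (l 15649000) (l 15495120)) (a (l 15312480) (l 15160208)))) (a (b (a (l 15877512) (l 15780616)) (l 15948624)) (b (l 15370472) (l 15687816)))) (b (b (a (a (l 14935952) (l 14776832)) (a (l 14622008) (l 14461896))) (a (l 14918416) (a (l 14688744) (l 14526936)))) (a (b (l 15239040) (l 15536888)) (a (l 14995592) (c (l 15010184) (l 14974712))))))), by decide +kernel⟩

def k19_pm_202 : ∃ t, chk3 f_pm_202 t 3 11 3 = true :=
  ⟨(a (b (a (a (b (l 16135648) (a (l 16038600) (l 16091344))) (b (a (l 16318208) (l 16385304)) (l 16164328))) (a (b (c (l 16347704) (l 16324120)) (l 16254184)) (b (l 16456840) (l 16372032)))) (a (a (c (l 15916952) (l 16033960)) (c (l 16060552) (l 16052760))) (a (b (b (l 16136160) (l 16256112)) (l 16341656)) (b (b (l 16352536) (l 16446552)) (l 16524200))))) (b (a (a (b (l 16220096) (l 16447344)) (b (l 15939968) (l 16192856))) (a (b (l 15814224) (l 16069888)) (a (l 15594776) (c (l 15563680) (l 15515488))))) (b (a (a (a (l 16507704) (l 16589248))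 (a (b (l 16577704) (l 16532456)) (l 16399096))) (a (l 16060360) (a (l 15942224) (c (l 15806360) (l 15803952))))) (a (a (l 16618096) (l 16384352)) (a (l 16078504) (a (l 15890840) (l 15791176))))))), by decide +kernel⟩

def k20_pm_202 : ∃ t, chk3 f_pm_202 t 3 3 1 = true :=
  ⟨(b (a (b (a (b (c (a (l 16326776) (l 16400568)) (a (l 16315080) (l 16390784))) (c (l 16449824) (l 16423616))) (b (c (a (l 16447488) (l 16614064)) (a (l 16440720) (l 16570736))) (a (c (l 16604056) (l 16581568)) (c (l 16622624) (l 16556016))))) (b (a (a (b (c (l 16694864) (l 16692720)) (l 16764456)) (b (l 16705408) (l 16777216))) (a (c (l 16730328) (l 16729120)) (l 16590024))) (a (c (l 16777216) (l 16777216)) (a (c (l 16729216) (l 16727968)) (l 16590024))))) (a (b (a (b (c (l 16512064) (a (l 16587232) (l 16465192))) (c (l 16442968) (l 16434336))) (b (c (l 16227376) (b (l 16296696) (l 16247920))) (c (l 16253288) (l 16239680)))) (c (a (l 16438056) (l 16253288)) (a (l 16429248) (l 16239680)))) (b (a (c (l 15880304) (b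 (l 16030880) (l 16026520))) (c (l 15850352) (a (l 15886904) (l 15791176)))) (c (a (l 16045520) (l 15850352)) (a (l 16026520) (l 15845824)))))) (a (b (a (c (l 16777216) (l 16777216)) (c (a (l 16729216) (l 16592424)) (a (l 16727968) (l 16587624)))) (a (c (l 16777216) (l 16777216)) (c (l 16662200) (l 16659216)))) (a (b (c (a (l 16438056) (l 16253288)) (b (l 16336304) (l 16336304))) (c (l 16347472) (l 16336304))) (b (a (c (l 16045520) (l 16026520)) (l 15850984)) (c (l 15954576) (l 15952016)))))), by decide +kernel⟩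

theorem s21_pm_202 : ∃ t, chk3 f_pm_202 t 3 5 3 = true := ex3_b k18_pm_202 k19_pm_202

theorem s22_pm_202 : ∃ t, chk3 f_pm_202 t 3 5 2 = true := ex3_b k16_pm_202 k17_pm_202

theorem s23_pm_202 : ∃ t, chk3 f_pm_202 t 3 5 1 = true := ex3_c s22_pm_202 s21_pm_202

theorem s24_pm_202 : ∃ t, chk3 f_pm_202 t 7 18 1 = true := ex3_a k13_pm_202 k14_pm_202

theorem s25_pm_202 : ∃ t, chk3 f_pm_202 t 7 9 1 = true := ex3_b s24_pm_202 k15_pm_202

theorem s26_pm_202 : ∃ t, chk3 f_pm_202 t 6 9 1 = true := ex3_b k11_pm_202 k12_pm_202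

theorem s27_pm_202 : ∃ t, chk3 f_pm_202 t 3 9 1 = true := ex3_a s26_pm_202 s25_pm_202

theorem s28_pm_202 : ∃ t, chk3 f_pm_202 t 7 8 1 = true := ex3_a k9_pm_202 k10_pm_202

theorem s29_pm_202 : ∃ t, chk3 f_pm_202 t 3 8 1 = true := ex3_a k8_pm_202 s28_pm_202

theorem s30_pm_202 : ∃ t, chk3 f_pm_202 t 3 4 1 = true := ex3_b s29_pm_202 s27_pm_202

theorem s31_pm_202 : ∃ t, chk3 f_pm_202 t 3 2 1 = true := ex3_b s30_pm_202 s23_pm_202

theorem s32_pm_202 : ∃ t, chk3 f_pm_202 t 3 1 1 = true := ex3_b s31_pm_202 k20_pm_202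

theorem s33_pm_202 : ∃ t, chk3 f_pm_202 t 5 5 1 = true := ex3_b k5_pm_202 k6_pm_202

theorem s34_pm_202 : ∃ t, chk3 f_pm_202 t 5 2 1 = true := ex3_b k4_pm_202 s33_pm_202

theorem s35_pm_202 : ∃ t, chk3 f_pm_202 t 5 1 1 = true := ex3_b s34_pm_202 k7_pm_202

theorem s36_pm_202 : ∃ t, chk3 f_pm_202 t 4 5 1 = true := ex3_b k1_pm_202 k2_pm_202

theorem s37_pm_202 : ∃ t, chk3 f_pm_202 t 4 2 1 = true := ex3_b k0_pm_202 s36_pm_202

theorem s38_pm_202 : ∃ t, chk3 f_pm_202 t 4 1 1 = true := ex3_b s37_pm_202 k3_pm_202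

theorem s39_pm_202 : ∃ t, chk3 f_pm_202 t 2 1 1 = true := ex3_a s38_pm_202 s35_pm_202

theorem s40_pm_202 : ∃ t, chk3 f_pm_202 t 1 1 1 = true := ex3_a s39_pm_202 s32_pm_202

theorem c_pm_202 : CertFX 0 536870912 0 536870912 1046898278 26843546 true true false .pp 2 0 2
    ndF0q2 ndF3q0 pcF2 cut_pm_202 Ext.none :=
  certFX1 (fam := true) (s1 := true) (s2 := false) (a := 2) (b := 0) (c := 2) (cn := .pp) (n1 := ndF0q2) (n2 := ndF3q0) (pc := pcF2) (cut := cut_pm_202) (xt := Ext.none) (P1 := 0) (W1 := 536870912) (P2 := 0) (W2 := 536870912) (P3 := 1046898278) (W3 := 26843546)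
    rfl (fun _ => rfl) s40_pm_202

noncomputable def f_pm_203 : ℕ → ℕ → ℕ → ℕ → Bool := onCell 0 536870912 1610612736 536870912 1046898278 26843546
    (rowFX 1 true true false .up 2 0 3 (qsf 0 536870912 0 536870912 3) ndF0q2 ndF3q0 pcF3 Cut.none Ext.none)

def k0_pm_203 : ∃ t, chk3 f_pm_203 t 1 1 1 = true :=
  ⟨(b (a (a (l 4) (b (b (c (c (l 16777216) (l 16777216)) (c (l 16777216) (l 16777216))) (l 4)) (l 4))) (b (a (a (b (c (l 16777216) (l 16777216)) (b (c (l 16777216) (l 16777216)) (l 4))) (b (c (l 16662200) (l 16659216)) (c (b (l 16662200) (l 16662200)) (b (l 16659216) (l 16659216))))) (b (a (c (l 16347472) (l 16336304)) (c (l 15954576) (l 15952016))) (a (c (l 16347472) (l 16336304)) (l 2)))) (a (l 2) (l 2)))) (l 2)), by decide +kernel⟩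

theorem c_pm_203 : CertFX 0 536870912 0 536870912 1046898278 26843546 true true false .up 2 0 3
    ndF0q2 ndF3q0 pcF3 Cut.none Ext.none :=
  certFX1 (fam := true) (s1 := true) (s2 := false) (a := 2) (b := 0) (c := 3) (cn := .up) (n1 := ndF0q2) (n2 := ndF3q0) (pc := pcF3) (cut := Cut.none) (xt := Ext.none) (P1 := 0) (W1 := 536870912) (P2 := 0) (W2 := 536870912) (P3 := 1046898278) (W3 := 26843546)
    rfl (fun _ => rfl) k0_pm_203

noncomputable def f_pm_213 : ℕ → ℕ → ℕ → ℕ → Bool := onCell 0 536870912 1610612736 536870912 1046898278 26843546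
    (rowFX 1 true true false .pnn 2 1 3 (qsf 0 536870912 536870912 536870912 3) ndF0q2 ndF3q1 pcF3 Cut.none Ext.none)

def k0_pm_213 : ∃ t, chk3 f_pm_213 t 1 1 1 = true :=
  ⟨(b (b (b (a (l 1) (a (l 1) (a (c (l 16347472) (l 16336304)) (c (l 15954576) (l 15952016))))) (a (l 4) (a (a (b (l 1) (l 4)) (c (l 607771159111) (a (l 16727968) (l 16587624)))) (a (c (l 16347472) (l 16336304)) (c (l 15954576) (l 15952016)))))) (a (l 4) (b (a (l 4) (c (a (l 16347472) (l 15954576)) (a (l 16252416) (l 15952016)))) (l 4)))) (l 4)), by decide +kernel⟩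

theorem c_pm_213 : CertFX 0 536870912 536870912 536870912 1046898278 26843546 true true false .pnn 2 1 3
    ndF0q2 ndF3q1 pcF3 Cut.none Ext.none :=
  certFX1 (fam := true) (s1 := true) (s2 := false) (a := 2) (b := 1) (c := 3) (cn := .pnn) (n1 := ndF0q2) (n2 := ndF3q1) (pc := pcF3) (cut := Cut.none) (xt := Ext.none) (P1 := 0) (W1 := 536870912) (P2 := 536870912) (W2 := 536870912) (P3 := 1046898278) (W3 := 26843546)
    rfl (fun _ => rfl) k0_pm_213

noncomputable def f_mm_001 : ℕ → ℕ → ℕ → ℕ → Bool := onCell 0 536870912 0 536870912 1046898278 26843546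
    (rowFX 0 true false false .up 0 0 1 (qsf 0 536870912 0 536870912 1) ndF0q0 ndF3q0 pcF1 Cut.none Ext.none)

def k0_mm_001 : ∃ t, chk3 f_mm_001 t 1 1 1 = true :=
  ⟨(l 4), by decide +kernel⟩

theorem c_mm_001 : CertFX 0 536870912 0 536870912 1046898278 26843546 true false false .up 0 0 1
    ndF0q0 ndF3q0 pcF1 Cut.none Ext.none :=
  certFX0 (fam := true) (s1 := false) (s2 := false) (a := 0) (b := 0) (c := 1) (cn := .up) (n1 := ndF0q0) (n2 := ndF3q0) (pc := pcF1) (cut := Cut.none) (xt := Ext.none) (P1 := 0) (W1 := 536870912) (P2 := 0) (W2 := 536870912) (P3 := 1046898278) (W3 := 26843546)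
    rfl k0_mm_001

noncomputable def f_mm_011 : ℕ → ℕ → ℕ → ℕ → Bool := onCell 0 536870912 536870912 536870912 1046898278 26843546
    (rowFX 0 true false false .pnn 0 1 1 (qsf 0 536870912 536870912 536870912 1) ndF0q0 ndF3q1 pcF1 Cut.none Ext.none)

def k0_mm_011 : ∃ t, chk3 f_mm_011 t 1 1 1 = true :=
  ⟨(l 4), by decide +kernel⟩

theorem c_mm_011 : CertFX 0 536870912 536870912 536870912 1046898278 26843546 true false false .pnn 0 1 1
    ndF0q0 ndF3q1 pcF1 Cut.none Ext.none :=
  certFX0 (fam := true) (s1 := false) (s2 := false) (a := 0) (b := 1) (c := 1) (cn := .pnn) (n1 := ndF0q0) (n2 := ndF3q1) (pc := pcF1) (cut := Cut.none) (xt := Ext.none) (P1 := 0) (W1 := 536870912) (P2 := 536870912) (W2 := 536870912) (P3 := 1046898278) (W3 := 26843546)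
    rfl k0_mm_011

noncomputable def f_mm_012 : ℕ → ℕ → ℕ → ℕ → Bool := onCell 0 536870912 536870912 536870912 1046898278 26843546
    (rowFX 0 true false false .pnp 0 1 2 (qsf 0 536870912 536870912 536870912 2) ndF0q0 ndF3q1 pcF2 Cut.none Ext.none)

def k0_mm_012 : ∃ t, chk3 f_mm_012 t 1 1 1 = true :=
  ⟨(l 4), by decide +kernel⟩

theorem c_mm_012 : CertFX 0 536870912 536870912 536870912 1046898278 26843546 true false false .pnp 0 1 2
    ndF0q0 ndF3q1 pcF2 Cut.none Ext.none :=
  certFX0 (fam := true) (s1 := false) (s2 := false) (a := 0) (b := 1) (c := 2) (cn := .pnp) (n1 := ndF0q0) (n2 := ndF3q1) (pc := pcF2) (cut := Cut.none) (xt := Ext.none) (P1 := 0) (W1 := 536870912) (P2 := 536870912) (W2 := 536870912) (P3 := 1046898278) (W3 := 26843546)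
    rfl k0_mm_012

noncomputable def f_mm_022 : ℕ → ℕ → ℕ → ℕ → Bool := onCell 0 536870912 1073741824 536870912 1046898278 26843546
    (rowFX 0 true false false .pp 0 2 2 (qsf 0 536870912 1073741824 536870912 2) ndF0q0 ndF3q2 pcF2 Cut.none Ext.none)

def k0_mm_022 : ∃ t, chk3 f_mm_022 t 1 1 1 = true :=
  ⟨(l 5), by decide +kernel⟩

theorem c_mm_022 : CertFX 0 536870912 1073741824 536870912 1046898278 26843546 true false false .pp 0 2 2
    ndF0q0 ndF3q2 pcF2 Cut.none Ext.none :=
  certFX0 (fam := true) (s1 := false) (s2 := false) (a := 0) (b := 2) (c := 2) (cn := .pp) (n1 := ndF0q0) (n2 := ndF3q2) (pc := pcF2) (cut := Cut.none) (xt := Ext.none) (P1 := 0) (W1 := 536870912) (P2 := 1073741824) (W2 := 536870912) (P3 := 1046898278) (W3 := 26843546)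
    rfl k0_mm_022

noncomputable def f_mm_023 : ℕ → ℕ → ℕ → ℕ → Bool := onCell 0 536870912 1073741824 536870912 1046898278 26843546
    (rowFX 0 true false false .up 0 2 3 (qsf 0 536870912 1073741824 536870912 3) ndF0q0 ndF3q2 pcF3 Cut.none Ext.none)

def k0_mm_023 : ∃ t, chk3 f_mm_023 t 1 1 1 = true :=
  ⟨(l 5), by decide +kernel⟩

theorem c_mm_023 : CertFX 0 536870912 1073741824 536870912 1046898278 26843546 true false false .up 0 2 3
    ndF0q0 ndF3q2 pcF3 Cut.none Ext.none :=
  certFX0 (fam := true) (s1 := false) (s2 := false) (a := 0) (b := 2) (c := 3) (cn := .up) (n1 := ndF0q0) (n2 := ndF3q2) (pc := pcF3) (cut := Cut.none) (xt := Ext.none) (P1 := 0) (W1 := 536870912) (P2 := 1073741824) (W2 := 536870912) (P3 := 1046898278) (W3 := 26843546)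
    rfl k0_mm_023

noncomputable def f_mm_033 : ℕ → ℕ → ℕ → ℕ → Bool := onCell 0 536870912 1610612736 536870912 1046898278 26843546
    (rowFX 0 true false false .pnn 0 3 3 (qsf 0 536870912 1610612736 536870912 3) ndF0q0 ndF3q3 pcF3 Cut.none Ext.none)

def k0_mm_033 : ∃ t, chk3 f_mm_033 t 1 1 1 = true :=
  ⟨(l 4), by decide +kernel⟩

theorem c_mm_033 : CertFX 0 536870912 1610612736 536870912 1046898278 26843546 true false false .pnn 0 3 3
    ndF0q0 ndF3q3 pcF3 Cut.none Ext.none :=
  certFX0 (fam := true) (s1 := false) (s2 := false) (a := 0) (b := 3) (c := 3) (cn := .pnn) (n1 := ndF0q0) (n2 := ndF3q3) (pc := pcF3) (cut := Cut.none) (xt := Ext.none) (P1 := 0) (W1 := 536870912) (P2 := 1610612736) (W2 := 536870912) (P3 := 1046898278) (W3 := 26843546)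
    rfl k0_mm_033

noncomputable def cut_mm_101 : Cut := Cut.of [[⟨0, 1, 0, 67108864⟩, ⟨1, 0, 0, 67108864⟩, ⟨2, 1, 0, 67108864⟩]]

noncomputable def f_mm_101 : ℕ → ℕ → ℕ → ℕ → Bool := onCell 536870912 536870912 0 536870912 1046898278 26843546
    (rowFX 0 true false false .npn 1 0 1 (qsf 536870912 536870912 0 536870912 1) ndF0q1 ndF3q0 pcF1 cut_mm_101 Ext.none)

def k0_mm_101 : ∃ t, chk3 f_mm_101 t 1 1 1 = true :=
  ⟨(a (l 4) (b (a (l 4) (b (a (l 4) (a (l 4) (b (b (l 6) (l 4)) (l 2)))) (l 4))) (l 4))), by decide +kernel⟩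

theorem c_mm_101 : CertFX 536870912 536870912 0 536870912 1046898278 26843546 true false false .npn 1 0 1
    ndF0q1 ndF3q0 pcF1 cut_mm_101 Ext.none :=
  certFX0 (fam := true) (s1 := false) (s2 := false) (a := 1) (b := 0) (c := 1) (cn := .npn) (n1 := ndF0q1) (n2 := ndF3q0) (pc := pcF1) (cut := cut_mm_101) (xt := Ext.none) (P1 := 536870912) (W1 := 536870912) (P2 := 0) (W2 := 536870912) (P3 := 1046898278) (W3 := 26843546)
    rfl k0_mm_101

noncomputable def cut_mm_102 : Cut := Cut.of [[⟨0, 1, 0, 67108864⟩, ⟨1, 0, 0, 67108864⟩, ⟨2, 1, 0, 67108864⟩]]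

noncomputable def f_mm_102 : ℕ → ℕ → ℕ → ℕ → Bool := onCell 536870912 536870912 0 536870912 1046898278 26843546
    (rowFX 0 true false false .npp 1 0 2 (qsf 536870912 536870912 0 536870912 2) ndF0q1 ndF3q0 pcF2 cut_mm_102 Ext.none)

def k0_mm_102 : ∃ t, chk3 f_mm_102 t 1 1 1 = true :=
  ⟨(a (l 4) (b (a (l 4) (b (b (a (l 4) (b (a (l 4) (l 6)) (l 4))) (l 4)) (l 4))) (l 4))), by decide +kernel⟩

theorem c_mm_102 : CertFX 536870912 536870912 0 536870912 1046898278 26843546 true false false .npp 1 0 2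
    ndF0q1 ndF3q0 pcF2 cut_mm_102 Ext.none :=
  certFX0 (fam := true) (s1 := false) (s2 := false) (a := 1) (b := 0) (c := 2) (cn := .npp) (n1 := ndF0q1) (n2 := ndF3q0) (pc := pcF2) (cut := cut_mm_102) (xt := Ext.none) (P1 := 536870912) (W1 := 536870912) (P2 := 0) (W2 := 536870912) (P3 := 1046898278) (W3 := 26843546)
    rfl k0_mm_102

noncomputable def f_mm_112 : ℕ → ℕ → ℕ → ℕ → Bool := onCell 536870912 536870912 536870912 536870912 1046898278 26843546
    (rowFX 0 true false false .dn 1 1 2 (qsf 536870912 536870912 536870912 536870912 2) ndF0q1 ndF3q1 pcF2 Cut.none Ext.none)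

def k0_mm_112 : ∃ t, chk3 f_mm_112 t 1 1 1 = true :=
  ⟨(l 4), by decide +kernel⟩

theorem c_mm_112 : CertFX 536870912 536870912 536870912 536870912 1046898278 26843546 true false false .dn 1 1 2
    ndF0q1 ndF3q1 pcF2 Cut.none Ext.none :=
  certFX0 (fam := true) (s1 := false) (s2 := false) (a := 1) (b := 1) (c := 2) (cn := .dn) (n1 := ndF0q1) (n2 := ndF3q1) (pc := pcF2) (cut := Cut.none) (xt := Ext.none) (P1 := 536870912) (W1 := 536870912) (P2 := 536870912) (W2 := 536870912) (P3 := 1046898278) (W3 := 26843546)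
    rfl k0_mm_112

noncomputable def f_mm_113 : ℕ → ℕ → ℕ → ℕ → Bool := onCell 536870912 536870912 536870912 536870912 1046898278 26843546
    (rowFX 0 true false false .nn 1 1 3 (qsf 536870912 536870912 536870912 536870912 3) ndF0q1 ndF3q1 pcF3 Cut.none Ext.none)

def k0_mm_113 : ∃ t, chk3 f_mm_113 t 1 1 1 = true :=
  ⟨(l 4), by decide +kernel⟩

theorem c_mm_113 : CertFX 536870912 536870912 536870912 536870912 1046898278 26843546 true false false .nn 1 1 3
    ndF0q1 ndF3q1 pcF3 Cut.none Ext.none :=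
  certFX0 (fam := true) (s1 := false) (s2 := false) (a := 1) (b := 1) (c := 3) (cn := .nn) (n1 := ndF0q1) (n2 := ndF3q1) (pc := pcF3) (cut := Cut.none) (xt := Ext.none) (P1 := 536870912) (W1 := 536870912) (P2 := 536870912) (W2 := 536870912) (P3 := 1046898278) (W3 := 26843546)
    rfl k0_mm_113

noncomputable def f_mm_123 : ℕ → ℕ → ℕ → ℕ → Bool := onCell 536870912 536870912 1073741824 536870912 1046898278 26843546
    (rowFX 0 true false false .npn 1 2 3 (qsf 536870912 536870912 1073741824 536870912 3) ndF0q1 ndF3q2 pcF3 Cut.none Ext.none)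

def k0_mm_123 : ∃ t, chk3 f_mm_123 t 1 1 1 = true :=
  ⟨(l 4), by decide +kernel⟩

theorem c_mm_123 : CertFX 536870912 536870912 1073741824 536870912 1046898278 26843546 true false false .npn 1 2 3
    ndF0q1 ndF3q2 pcF3 Cut.none Ext.none :=
  certFX0 (fam := true) (s1 := false) (s2 := false) (a := 1) (b := 2) (c := 3) (cn := .npn) (n1 := ndF0q1) (n2 := ndF3q2) (pc := pcF3) (cut := Cut.none) (xt := Ext.none) (P1 := 536870912) (W1 := 536870912) (P2 := 1073741824) (W2 := 536870912) (P3 := 1046898278) (W3 := 26843546)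
    rfl k0_mm_123

noncomputable def f_mm_133 : ℕ → ℕ → ℕ → ℕ → Bool := onCell 536870912 536870912 1610612736 536870912 1046898278 26843546
    (rowFX 0 true false false .dn 1 3 3 (qsf 536870912 536870912 1610612736 536870912 3) ndF0q1 ndF3q3 pcF3 Cut.none Ext.none)

def k0_mm_133 : ∃ t, chk3 f_mm_133 t 1 1 1 = true :=
  ⟨(l 4), by decide +kernel⟩

theorem c_mm_133 : CertFX 536870912 536870912 1610612736 536870912 1046898278 26843546 true false false .dn 1 3 3
    ndF0q1 ndF3q3 pcF3 Cut.none Ext.none :=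
  certFX0 (fam := true) (s1 := false) (s2 := false) (a := 1) (b := 3) (c := 3) (cn := .dn) (n1 := ndF0q1) (n2 := ndF3q3) (pc := pcF3) (cut := Cut.none) (xt := Ext.none) (P1 := 536870912) (W1 := 536870912) (P2 := 1610612736) (W2 := 536870912) (P3 := 1046898278) (W3 := 26843546)
    rfl k0_mm_133

noncomputable def cut_mm_202 : Cut := Cut.of [[⟨0, 1, 0, 67108864⟩, ⟨1, 0, 0, 67108864⟩, ⟨2, 1, 0, 67108864⟩]]

noncomputable def f_mm_202 : ℕ → ℕ → ℕ → ℕ → Bool := onCell 0 536870912 0 536870912 1046898278 26843546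
    (rowFX 0 true false false .pp 2 0 2 (qsf 0 536870912 0 536870912 2) ndF0q2 ndF3q0 pcF2 cut_mm_202 Ext.none)

def k0_mm_202 : ∃ t, chk3 f_mm_202 t 4 4 1 = true :=
  ⟨(b (b (a (c (b (a (b (c (l 15980848) (l 15974648)) (a (l 15782992) (c (b (l 15875216) (l 15835344)) (l 15872176)))) (b (a (c (l 15983176) (l 15976992)) (l 16000864)) (c (l 15888608) (l 15903312)))) (a (a (b (c (l 15794728) (l 15814272)) (l 15759936)) (c (l 15796024) (l 15813368))) (c (l 15833768) (l 15851680)))) (b (a (c (b (l 15976968) (l 15893104)) (b (l 15984728) (l 15900280))) (b (c (l 15991112) (l 15999056)) (l 15922824))) (a (a (b (l 15823728) (l 15770208)) (l 15817984)) (l 15857160)))) (c (b (a (c (l 15896272) (l 15986576)) (c (l 16059056) (l 16087592))) (a (c (l 15903536) (l 15922496)) (c (l 15988888) (l 16009128)))) (b (c (a (l 16017680) (l 16098872)) (a (l 16026504) (l 16108848))) (a (l 15929560) (l 16018096))))) (a (c (a (b (c (l 15736096) (l 15743312)) (c (l 15724496) (l 15717696))) (b (c (l 15800240) (l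 15808440)) (c (l 15800240) (l 15794592)))) (c (b (l 15772448) (l 15744784)) (a (l 15703048) (l 15776272)))) (c (a (b (c (l 15879992) (l 15889408)) (l 15844784)) (b (l 15977840) (l 15988360))) (a (b (l 15882880) (l 15869424)) (b (l 15979392) (l 15974112)))))) (b (a (c (b (a (c (l 15692552) (l 15784752)) (b (c (l 15826656) (l 15814616)) (l 15902608))) (c (l 16016720) (l 16007256))) (b (a (l 15682264) (b (l 15796824) (l 15880968))) (l 15972080))) (c (b (a (b (c (l 15914448) (l 15903736)) (l 15972408)) (b (l 16013072) (l 16054488))) (a (l 16103680) (l 16173728))) (b (a (b (l 15887952) (l 15952864)) (b (l 15994488) (l 16037416))) (l 16060352)))) (c (a (c (l 16228240) (l 16221488)) (a (l 16295328) (l 16352456))) (a (c (l 16214744) (l 16207992)) (a (l 16283968) (l 16342824)))))), by decide +kernel⟩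

def k1_mm_202 : ∃ t, chk3 f_mm_202 t 5 4 1 = true :=
  ⟨(b (b (a (b (a (c (b (l 16220480) (l 16140352)) (c (l 16196888) (l 16208224))) (b (c (a (l 16294960) (l 16288896)) (a (l 16245440) (b (l 16344376) (l 16346608)))) (c (l 16251984) (l 16286304)))) (c (a (l 16097880) (l 16210984)) (a (l 16121096) (l 16237440)))) (b (a (a (b (c (l 16352360) (l 16283240)) (c (l 16320616) (l 16378376))) (b (c (l 16361192) (l 16376008)) (c (b (l 16387576) (l 16393824)) (b (l 16428928) (l 16435056))))) (c (b (l 16380328) (b (l 16410160) (a (l 16435576) (l 16455616)))) (b (c (l 16387176) (l 16400216)) (a (l 16438496) (l 16478768))))) (a (c (l 16315504) (l 16366456)) (c (b (a (l 16445288) (l 16351144)) (l 16463664)) (b (a (l 16483744) (l 16516784)) (l 16494304)))))) (a (c (a (b (l 16082752) (l 16099448)) (b (l 16197056) (l 16218128))) (b (a (l 16087408) (l 16205048)) (a (l 16088528) (l 16210720)))) (c (a (b (l 16320720) (l 16342648)) (b (l 16454008) (l 16450656))) (a (b (l 16332264) (l 16338880)) (b (l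 16469304) (l 16471568)))))) (b (a (b (c (a (b (l 16128672) (l 16156104)) (l 16262944)) (a (l 16022520) (l 16251512))) (c (a (l 16253560) (b (l 16296648) (l 16380424))) (a (l 16241888) (b (l 16308040) (l 16372384))))) (a (b (c (l 16390400) (l 16382760)) (a (c (l 16328112) (l 16321824)) (c (l 16494488) (l 16490048)))) (c (b (l 16520576) (l 16592520)) (b (l 16516768) (l 16570080))))) (a (c (a (l 16419928) (l 16478992)) (a (l 16412336) (l 16473848))) (a (c (b (l 16567520) (l 16612464)) (b (l 16564712) (l 16610560))) (b (c (b (l 16476032) (l 16637216)) (b (a (l 16634056) (l 16615616)) (l 16636320))) (c (l 16657608) (l 16657008))))))), by decide +kernel⟩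

def k2_mm_202 : ∃ t, chk3 f_mm_202 t 2 5 1 = true :=
  ⟨(a (a (b (c (b (l 16337584) (b (l 16448672) (l 16513384))) (b (l 16327752) (c (l 16477792) (l 16474008)))) (c (b (l 16605032) (l 16777056)) (b (c (l 16665816) (l 16664400)) (c (l 16777056) (l 16777056))))) (a (b (b (c (l 16422664) (l 16414128)) (c (l 16412576) (l 16405392))) (b (c (l 16667952) (l 16665112)) (l 4))) (b (b (c (l 16463056) (l 16455744)) (c (b (l 16499248) (l 16525104)) (b (l 16492328) (l 16518592)))) (l 4)))) (b (a (b (c (b (l 16507304) (a (l 16526328) (l 16573824))) (b (l 16502240) (a (l 16520672) (l 16569608)))) (b (c (l 16552880) (l 16526576)) (l 4))) (a (b (c (l 16623344) (l 16599968)) (l 4)) (l 4))) (l 4))), by decide +kernel⟩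

def k3_mm_202 : ∃ t, chk3 f_mm_202 t 12 16 1 = true :=
  ⟨(b (b (c (a (a (l 16414152) (l 16425080)) (a (c (l 16484688) (l 16484832)) (c (l 16506144) (l 16527712)))) (a (c (l 16394856) (b (l 16428544) (l 16468072))) (c (b (l 16454520) (l 16506272)) (a (l 16486624) (l 16467504))))) (c (a (c (l 16420912) (l 16485344)) (a (l 16426840) (c (l 16564968) (l 16560584)))) (a (l 16390712) (c (l 16530280) (l 16538336))))) (a (c (b (a (l 16535672) (l 16557256)) (a (l 16558624) (b (l 16523800) (l 16514632)))) (b (a (l 16536936) (l 16525376)) (a (l 16533232) (l 16424936)))) (c (b (l 16444864) (l 16487736)) (a (l 16488152) (l 16461728))))), by decide +kernel⟩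

def k4_mm_202 : ∃ t, chk3 f_mm_202 t 13 32 2 = true :=
  ⟨(a (b (c (a (b (l 16525456) (l 16564312)) (b (c (l 16520376) (l 16536016)) (l 16534128))) (a (b (l 16546072) (l 16565936)) (b (l 16535392) (l 16555736)))) (a (c (l 16526032) (l 16548664)) (c (l 16532032) (l 16560816)))) (b (a (c (b (a (c (l 16504248) (l 16529488)) (c (b (a (l 16522992) (l 16528368)) (l 16531080)) (b (a (l 16522560) (l 16503648)) (l 16531896)))) (c (l 16536016) (l 16546856))) (b (a (l 16528688) (b (a (l 16521368) (l 16522344)) (l 16530896))) (l 16548064))) (c (b (c (a (b (l 16562592) (a (l 16537400) (l 16567248))) (l 16560312)) (a (b (l 16533944) (a (l 16533488) (l 16538688))) (c (l 16536616) (l 16542888)))) (b (a (c (a (l 16561808) (l 16567416)) (l 16520920)) (c (l 16581160) (l 16551816))) (a (l 16523176) (c (l 16539216) (l 16533592))))) (b (a (b (l 16527864) (l 16533240)) (l 16538880)) (a (b (l 16540112) (l 16550800)) (b (l 16546072) (l 16532880)))))) (c (a (b (l 16554152) (l 16605968)) (b (c (a (l 16573648)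 (b (l 16562072) (l 16587448))) (b (l 16537792) (l 16573520))) (l 16589912))) (a (l 16549368) (b (b (l 16528584) (l 16596584)) (l 16625912)))))), by decide +kernel⟩

def k5_mm_202 : ∃ t, chk3 f_mm_202 t 13 32 3 = true :=
  ⟨(a (a (b (c (b (l 16546072) (l 16581288)) (b (l 16513344) (l 16568064))) (c (l 16524520) (l 16510688))) (c (b (b (l 16535056) (l 16549776)) (l 16557552)) (b (b (l 16501992) (l 16591472)) (l 16543800)))) (b (a (c (b (a (l 16528112) (b (l 16520920) (l 16530200))) (l 16520824)) (b (b (a (l 16524120) (c (l 16520232) (l 16503512))) (l 16522280)) (l 16583184))) (b (c (b (l 16530872) (a (l 16532480) (l 16540584))) (b (l 16511504) (a (l 16502136) (l 16552192)))) (c (a (b (l 16526424) (l 16571304)) (b (l 16553336) (l 16553320))) (a (l 16518232) (b (l 16575008) (l 16596616)))))) (a (c (l 16592880) (l 16579216)) (c (b (l 16551584) (l 16603096)) (l 16568376))))), by decide +kernel⟩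

def k6_mm_202 : ∃ t, chk3 f_mm_202 t 13 33 1 = true :=
  ⟨(c (a (b (a (l 16477312) (l 16521576)) (a (l 16457224) (l 16476208))) (b (a (l 16550000) (c (l 16590472) (l 16566128))) (a (l 16493680) (l 16514320)))) (a (a (l 16422424) (l 16381064)) (b (a (l 16513616) (l 16543424)) (l 16453320)))), by decide +kernel⟩

def k7_mm_202 : ∃ t, chk3 f_mm_202 t 6 17 1 = true :=
  ⟨(a (a (c (b (l 16486416) (l 16561880)) (b (l 16450696) (l 16600944))) (b (c (b (a (b (l 16477248) (l 16478840)) (l 16422064)) (a (l 16495568) (l 16314616))) (b (a (b (l 16455784) (l 16462544)) (l 16421432)) (a (l 16483984) (l 16342952)))) (c (l 16449832) (l 16484896)))) (a (b (a (c (b (l 16425152) (b (l 16410536) (l 16365440))) (b (l 16402464) (b (l 16394712) (l 16373352)))) (c (l 16434552) (l 16413416))) (a (c (b (l 16372800) (l 16425928)) (b (l 16404640) (l 16418752))) (b (a (c (l 16314408) (l 16367056)) (c (l 16425664) (l 16415376))) (c (l 16430648) (l 16423256))))) (b (c (b (l 16463192) (l 16443472)) (b (l 16439944)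 (l 16428256))) (b (c (l 16439856) (l 16429432)) (a (b (c (l 16375144) (l 16388704)) (l 4)) (l 4)))))), by decide +kernel⟩

def k8_mm_202 : ∃ t, chk3 f_mm_202 t 6 9 1 = true :=
  ⟨(a (b (c (a (b (l 16601768) (l 16576128)) (b (l 16414168) (l 16466128))) (a (b (l 16601568) (l 16531872)) (b (a (l 16521248) (l 16468328)) (l 16418776)))) (a (b (b (c (l 16554328) (l 16550776)) (l 4)) (l 4)) (l 4))) (b (a (b (c (a (l 16438440) (l 16447296)) (a (l 16432528) (l 16441304))) (l 4)) (l 4)) (l 4))), by decide +kernel⟩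

def k9_mm_202 : ∃ t, chk3 f_mm_202 t 28 32 1 = true :=
  ⟨(b (b (a (c (c (c (a (l 16579448) (l 16598328)) (a (c (l 16576576) (b (l 16558280) (l 16558400))) (b (a (l 16562560) (l 16573312)) (l 16567720)))) (c (a (l 16548880) (c (b (a (l 16557192) (l 16566448)) (l 16563984)) (l 16557544))) (l 16552344))) (c (c (l 16551752) (l 16551800)) (c (l 16514264) (b (l 16552464) (l 16572192))))) (a (c (c (c (b (l 16616784) (l 16618560)) (b (a (l 16583864) (l 16594200)) (l 16589208))) (c (c (b (a (l 16578552) (l 16589792)) (l 16564440)) (b (a (l 16563800) (l 16550944)) (l 16571352))) (l 16567032))) (c (c (l 16566456) (l 16566528)) (c (l 16549984) (l 16535912)))) (b (l 6) (c (c (c (l 16637528) (l 16610840)) (c (c (l 16606712) (l 16588536)) (l 16580152))) (c (l 16579808) (l 16549584)))))) (c (c (c (a (l 16568664) (l 16631016)) (a (c (l 16544624) (l 16550280)) (a (l 16588760) (l 16611200)))) (a (c (l 16563184) (l 16564632)) (c (a (l 16561256) (c (l 16586040) (l 16591736))) (l 16564048)))) (c (a (l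 16536912) (c (l 16571144) (l 16582936))) (a (l 16557136) (l 16577640))))) (c (a (c (b (a (c (b (l 16599960) (l 16579568)) (b (l 16570104) (l 16559584))) (b (l 16543488) (l 16581192))) (a (c (l 16581456) (l 16616752)) (b (l 16605800) (l 16584928)))) (b (b (l 16582592) (l 16563920)) (a (l 16641744) (l 16627320)))) (c (c (a (l 16585352) (l 16589944)) (b (a (c (l 16598568) (l 16583392)) (l 16594568)) (l 16617416))) (c (b (c (l 16567016) (l 16610048)) (l 16656160)) (l 16583264)))) (a (c (b (a (l 16578368) (l 16629648)) (a (l 16623088) (l 16632512))) (b (l 16580568) (l 16615512))) (c (l 16596976) (l 16645800))))), by decide +kernel⟩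

def k10_mm_202 : ∃ t, chk3 f_mm_202 t 28 33 1 = true :=
  ⟨(c (b (a (c (b (a (l 16624520) (l 16582520)) (l 16592176)) (l 16591496)) (c (b (a (c (l 16626264) (l 16640440)) (l 16625792)) (a (l 16594552) (c (l 16572360) (l 16588360)))) (b (l 16627632) (l 16549968)))) (a (l 16453712) (c (c (l 16466184) (l 16558824)) (l 16541880)))) (b (a (b (l 16543752) (l 16551376)) (a (b (l 16578648) (l 16566528)) (b (l 16605312) (l 16573688)))) (a (l 16505504) (l 16523888)))), by decide +kernel⟩

def k11_mm_202 : ∃ t, chk3 f_mm_202 t 29 16 1 = true :=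
  ⟨(a (b (b (a (a (b (l 6) (c (c (l 16621072) (c (l 16574832) (l 16598704))) (c (l 16571064) (l 16612376)))) (l 6)) (l 6)) (c (b (c (c (l 16638056) (a (l 16638792) (l 16656328))) (c (a (c (l 16597528) (l 16609040)) (l 16611424)) (l 16599952))) (c (c (l 16643456) (l 16662568)) (c (l 16630320) (l 16672856)))) (c (l 16591120) (l 16639656)))) (c (b (c (b (l 16558800) (l 16551648)) (l 16622656)) (c (a (b (l 16525304) (l 16539776)) (b (l 16569728) (l 16529728))) (b (l 16574304) (l 16483440)))) (b (l 16559552) (a (b (l 16549008) (l 16519896)) (l 16508048))))) (b (a (b (l 6) (b (l 6) (c (c (l 16656576) (l 16619472)) (l 16653792)))) (l 6)) (c (b (c (b (l 16606872) (l 16560168)) (c (a (l 16633656) (l 16640176)) (l 16644496))) (c (c (l 16569952) (l 16548080)) (l 16537456))) (b (c (l 16610544) (l 16623592)) (l 16564736))))), by decide +kernel⟩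

def k12_mm_202 : ∃ t, chk3 f_mm_202 t 14 17 1 = true :=
  ⟨(b (b (a (c (a (l 16478528) (c (l 16508744) (l 16488288))) (a (l 16454632) (l 16475736))) (a (a (c (l 16454856) (l 16497144)) (l 4)) (l 4))) (a (c (a (l 16450888) (l 16471968)) (a (l 16435048) (l 16456136))) (l 4))) (l 4)), by decide +kernel⟩

def k13_mm_202 : ∃ t, chk3 f_mm_202 t 15 8 1 = true :=
  ⟨(b (b (l 6) (b (a (l 6) (l 4)) (l 4))) (l 4)), by decide +kernel⟩

def k14_mm_202 : ∃ t, chk3 f_mm_202 t 7 9 1 = true :=
  ⟨(l 4), by decide +kernel⟩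

def k15_mm_202 : ∃ t, chk3 f_mm_202 t 3 5 1 = true :=
  ⟨(l 4), by decide +kernel⟩

def k16_mm_202 : ∃ t, chk3 f_mm_202 t 1 3 1 = true :=
  ⟨(a (l 4) (l 4)), by decide +kernel⟩

theorem s17_mm_202 : ∃ t, chk3 f_mm_202 t 28 16 1 = true := ex3_b k9_mm_202 k10_mm_202

theorem s18_mm_202 : ∃ t, chk3 f_mm_202 t 14 16 1 = true := ex3_a s17_mm_202 k11_mm_202

theorem s19_mm_202 : ∃ t, chk3 f_mm_202 t 14 8 1 = true := ex3_b s18_mm_202 k12_mm_202

theorem s20_mm_202 : ∃ t, chk3 f_mm_202 t 7 8 1 = true := ex3_a s19_mm_202 k13_mm_202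

theorem s21_mm_202 : ∃ t, chk3 f_mm_202 t 7 4 1 = true := ex3_b s20_mm_202 k14_mm_202

theorem s22_mm_202 : ∃ t, chk3 f_mm_202 t 13 32 1 = true := ex3_c k4_mm_202 k5_mm_202

theorem s23_mm_202 : ∃ t, chk3 f_mm_202 t 13 16 1 = true := ex3_b s22_mm_202 k6_mm_202

theorem s24_mm_202 : ∃ t, chk3 f_mm_202 t 6 16 1 = true := ex3_a k3_mm_202 s23_mm_202

theorem s25_mm_202 : ∃ t, chk3 f_mm_202 t 6 8 1 = true := ex3_b s24_mm_202 k7_mm_202

theorem s26_mm_202 : ∃ t, chk3 f_mm_202 t 6 4 1 = true := ex3_b s25_mm_202 k8_mm_202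

theorem s27_mm_202 : ∃ t, chk3 f_mm_202 t 3 4 1 = true := ex3_a s26_mm_202 s21_mm_202

theorem s28_mm_202 : ∃ t, chk3 f_mm_202 t 3 2 1 = true := ex3_b s27_mm_202 k15_mm_202

theorem s29_mm_202 : ∃ t, chk3 f_mm_202 t 2 4 1 = true := ex3_a k0_mm_202 k1_mm_202

theorem s30_mm_202 : ∃ t, chk3 f_mm_202 t 2 2 1 = true := ex3_b s29_mm_202 k2_mm_202

theorem s31_mm_202 : ∃ t, chk3 f_mm_202 t 1 2 1 = true := ex3_a s30_mm_202 s28_mm_202

theorem s32_mm_202 : ∃ t, chk3 f_mm_202 t 1 1 1 = true := ex3_b s31_mm_202 k16_mm_202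

theorem c_mm_202 : CertFX 0 536870912 0 536870912 1046898278 26843546 true false false .pp 2 0 2
    ndF0q2 ndF3q0 pcF2 cut_mm_202 Ext.none :=
  certFX0 (fam := true) (s1 := false) (s2 := false) (a := 2) (b := 0) (c := 2) (cn := .pp) (n1 := ndF0q2) (n2 := ndF3q0) (pc := pcF2) (cut := cut_mm_202) (xt := Ext.none) (P1 := 0) (W1 := 536870912) (P2 := 0) (W2 := 536870912) (P3 := 1046898278) (W3 := 26843546)
    rfl s32_mm_202

noncomputable def f_mm_203 : ℕ → ℕ → ℕ → ℕ → Bool := onCell 0 536870912 1610612736 536870912 1046898278 26843546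
    (rowFX 1 true false false .up 2 0 3 (qsf 0 536870912 0 536870912 3) ndF0q2 ndF3q0 pcF3 Cut.none Ext.none)

def k0_mm_203 : ∃ t, chk3 f_mm_203 t 1 1 1 = true :=
  ⟨(l 4), by decide +kernel⟩

theorem c_mm_203 : CertFX 0 536870912 0 536870912 1046898278 26843546 true false false .up 2 0 3
    ndF0q2 ndF3q0 pcF3 Cut.none Ext.none :=
  certFX1 (fam := true) (s1 := false) (s2 := false) (a := 2) (b := 0) (c := 3) (cn := .up) (n1 := ndF0q2) (n2 := ndF3q0) (pc := pcF3) (cut := Cut.none) (xt := Ext.none) (P1 := 0) (W1 := 536870912) (P2 := 0) (W2 := 536870912) (P3 := 1046898278) (W3 := 26843546)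
    rfl (fun _ => rfl) k0_mm_203

noncomputable def f_mm_213 : ℕ → ℕ → ℕ → ℕ → Bool := onCell 0 536870912 536870912 536870912 1046898278 26843546
    (rowFX 0 true false false .pnn 2 1 3 (qsf 0 536870912 536870912 536870912 3) ndF0q2 ndF3q1 pcF3 Cut.none Ext.none)

def k0_mm_213 : ∃ t, chk3 f_mm_213 t 1 1 1 = true :=
  ⟨(l 4), by decide +kernel⟩

theorem c_mm_213 : CertFX 0 536870912 536870912 536870912 1046898278 26843546 true false false .pnn 2 1 3
    ndF0q2 ndF3q1 pcF3 Cut.none Ext.none :=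
  certFX0 (fam := true) (s1 := false) (s2 := false) (a := 2) (b := 1) (c := 3) (cn := .pnn) (n1 := ndF0q2) (n2 := ndF3q1) (pc := pcF3) (cut := Cut.none) (xt := Ext.none) (P1 := 0) (W1 := 536870912) (P2 := 536870912) (W2 := 536870912) (P3 := 1046898278) (W3 := 26843546)
    rfl k0_mm_213

end Pool.Agent.Strip051.G.IE1.Tab.C.FA03

namespace Pool.Agent.Strip051.G.IE1.Tab.C.FA04

open Pool.Agent.Strip051.PB Pool.Agent.Strip051.PB.T
open Pool.Agent.Strip051.G.IE1.Tab

noncomputable def f_pp_001 : ℕ → ℕ → ℕ → ℕ → Bool := onCell 0 536870912 0 67108864 1046898278 26843546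
    (rowFX 0 true true true .up 0 0 1 (qsf 0 536870912 0 67108864 1) ndF0q0 ndF4q0 pcF1 Cut.none Ext.none)

def k0_pp_001 : ∃ t, chk3 f_pp_001 t 1 1 1 = true :=
  ⟨(l 4), by decide +kernel⟩

theorem c_pp_001 : CertFX 0 536870912 0 67108864 1046898278 26843546 true true true .up 0 0 1
    ndF0q0 ndF4q0 pcF1 Cut.none Ext.none :=
  certFX0 (fam := true) (s1 := true) (s2 := true) (a := 0) (b := 0) (c := 1) (cn := .up) (n1 := ndF0q0) (n2 := ndF4q0) (pc := pcF1) (cut := Cut.none) (xt := Ext.none) (P1 := 0) (W1 := 536870912) (P2 := 0) (W2 := 67108864) (P3 := 1046898278) (W3 := 26843546)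
    rfl k0_pp_001

noncomputable def f_pp_101 : ℕ → ℕ → ℕ → ℕ → Bool := onCell 536870912 536870912 0 67108864 1046898278 26843546
    (rowFX 0 true true true .npn 1 0 1 (qsf 536870912 536870912 0 67108864 1) ndF0q1 ndF4q0 pcF1 Cut.none Ext.none)

def k0_pp_101 : ∃ t, chk3 f_pp_101 t 1 1 1 = true :=
  ⟨(l 5), by decide +kernel⟩

theorem c_pp_101 : CertFX 536870912 536870912 0 67108864 1046898278 26843546 true true true .npn 1 0 1
    ndF0q1 ndF4q0 pcF1 Cut.none Ext.none :=
  certFX0 (fam := true) (s1 := true) (s2 := true) (a := 1) (b := 0) (c := 1) (cn := .npn) (n1 := ndF0q1) (n2 := ndF4q0) (pc := pcF1) (cut := Cut.none) (xt := Ext.none) (P1 := 536870912) (W1 := 536870912) (P2 := 0) (W2 := 67108864) (P3 := 1046898278) (W3 := 26843546)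
    rfl k0_pp_101

noncomputable def f_pp_102 : ℕ → ℕ → ℕ → ℕ → Bool := onCell 536870912 536870912 0 67108864 1046898278 26843546
    (rowFX 0 true true true .npp 1 0 2 (qsf 536870912 536870912 0 67108864 2) ndF0q1 ndF4q0 pcF2 Cut.none Ext.none)

def k0_pp_102 : ∃ t, chk3 f_pp_102 t 1 1 1 = true :=
  ⟨(l 5), by decide +kernel⟩

theorem c_pp_102 : CertFX 536870912 536870912 0 67108864 1046898278 26843546 true true true .npp 1 0 2
    ndF0q1 ndF4q0 pcF2 Cut.none Ext.none :=
  certFX0 (fam := true) (s1 := true) (s2 := true) (a := 1) (b := 0) (c := 2) (cn := .npp) (n1 := ndF0q1) (n2 := ndF4q0) (pc := pcF2) (cut := Cut.none) (xt := Ext.none) (P1 := 536870912) (W1 := 536870912) (P2 := 0) (W2 := 67108864) (P3 := 1046898278) (W3 := 26843546)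
    rfl k0_pp_102

noncomputable def f_pp_202 : ℕ → ℕ → ℕ → ℕ → Bool := onCell 0 536870912 0 67108864 1046898278 26843546
    (rowFX 0 true true true .pp 2 0 2 (qsf 0 536870912 0 67108864 2) ndF0q2 ndF4q0 pcF2 Cut.none Ext.none)

def k0_pp_202 : ∃ t, chk3 f_pp_202 t 1 1 1 = true :=
  ⟨(l 5), by decide +kernel⟩

theorem c_pp_202 : CertFX 0 536870912 0 67108864 1046898278 26843546 true true true .pp 2 0 2
    ndF0q2 ndF4q0 pcF2 Cut.none Ext.none :=
  certFX0 (fam := true) (s1 := true) (s2 := true) (a := 2) (b := 0) (c := 2) (cn := .pp) (n1 := ndF0q2) (n2 := ndF4q0) (pc := pcF2) (cut := Cut.none) (xt := Ext.none) (P1 := 0) (W1 := 536870912) (P2 := 0) (W2 := 67108864) (P3 := 1046898278) (W3 := 26843546)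
    rfl k0_pp_202

noncomputable def f_pp_203 : ℕ → ℕ → ℕ → ℕ → Bool := onCell 0 536870912 0 67108864 1046898278 26843546
    (rowFX 0 true true true .up 2 0 3 (qsf 0 536870912 0 67108864 3) ndF0q2 ndF4q0 pcF3 Cut.none Ext.none)

def k0_pp_203 : ∃ t, chk3 f_pp_203 t 1 1 1 = true :=
  ⟨(l 1), by decide +kernel⟩

theorem c_pp_203 : CertFX 0 536870912 0 67108864 1046898278 26843546 true true true .up 2 0 3
    ndF0q2 ndF4q0 pcF3 Cut.none Ext.none :=
  certFX0 (fam := true) (s1 := true) (s2 := true) (a := 2) (b := 0) (c := 3) (cn := .up) (n1 := ndF0q2) (n2 := ndF4q0) (pc := pcF3) (cut := Cut.none) (xt := Ext.none) (P1 := 0) (W1 := 536870912) (P2 := 0) (W2 := 67108864) (P3 := 1046898278) (W3 := 26843546)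
    rfl k0_pp_203

noncomputable def f_pm_001 : ℕ → ℕ → ℕ → ℕ → Bool := onCell 0 536870912 0 67108864 1046898278 26843546
    (rowFX 0 true true false .up 0 0 1 (qsf 0 536870912 0 67108864 1) ndF0q0 ndF4q0 pcF1 Cut.none Ext.none)

def k0_pm_001 : ∃ t, chk3 f_pm_001 t 1 1 1 = true :=
  ⟨(l 3), by decide +kernel⟩

theorem c_pm_001 : CertFX 0 536870912 0 67108864 1046898278 26843546 true true false .up 0 0 1
    ndF0q0 ndF4q0 pcF1 Cut.none Ext.none :=
  certFX0 (fam := true) (s1 := true) (s2 := false) (a := 0) (b := 0) (c := 1) (cn := .up) (n1 := ndF0q0) (n2 := ndF4q0) (pc := pcF1) (cut := Cut.none) (xt := Ext.none) (P1 := 0) (W1 := 536870912) (P2 := 0) (W2 := 67108864) (P3 := 1046898278) (W3 := 26843546)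
    rfl k0_pm_001

noncomputable def cut_pm_101 : Cut := Cut.of [[⟨0, 1, 0, 67108864⟩, ⟨1, 0, 0, 67108864⟩, ⟨2, 1, 0, 67108864⟩, ⟨3, 0, 0, 1233125376⟩]]

noncomputable def f_pm_101 : ℕ → ℕ → ℕ → ℕ → Bool := onCell 536870912 536870912 0 67108864 1046898278 26843546
    (rowFX 2 true true false .npn 1 0 1 (qsf 536870912 536870912 0 67108864 1) ndF0q1 ndF4q0 pcF1 cut_pm_101 Ext.none)

def k0_pm_101 : ∃ t, chk3 f_pm_101 t 1 1 1 = true :=
  ⟨(a (l 3) (a (l 3) (a (l 3) (a (l 3) (a (b (l 3) (l 3)) (b (l 6) (b (a (a (a (a (l 3) (l 6)) (l 6)) (l 6)) (l 6)) (c (c (a (c (b (l 137067405111) (b (l 15451088) (l 15439408))) (b (a (l 15344712) (l 15411696)) (l 15356520))) (b (l 15596056) (c (l 15581104) (l 15490216)))) (a (b (a (l 3) (l 15254640)) (l 102706918311)) (b (l 15382312) (l 15346888)))) (a (l 3) (c (b (l 80695099895) (l 97338128327)) (a (l 3) (c (l 15038512) (l 14933776))))))))))))), by decide +kernel⟩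

theorem c_pm_101 : CertFX 536870912 536870912 0 67108864 1046898278 26843546 true true false .npn 1 0 1
    ndF0q1 ndF4q0 pcF1 cut_pm_101 Ext.none :=
  certFX2 (fam := true) (s1 := true) (s2 := false) (a := 1) (b := 0) (c := 1) (cn := .npn) (n1 := ndF0q1) (n2 := ndF4q0) (pc := pcF1) (cut := cut_pm_101) (xt := Ext.none) (P1 := 536870912) (W1 := 536870912) (P2 := 0) (W2 := 67108864) (P3 := 1046898278) (W3 := 26843546)
    rfl (fun _ => rfl) k0_pm_101

noncomputable def cut_pm_102 : Cut := Cut.of [[⟨0, 1, 0, 67108864⟩, ⟨1, 0, 0, 67108864⟩, ⟨2, 1, 0, 67108864⟩, ⟨3, 0, 0, 1233125376⟩]]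

noncomputable def f_pm_102 : ℕ → ℕ → ℕ → ℕ → Bool := onCell 1073741824 536870912 0 67108864 1046898278 26843546
    (rowFX 2 true true false .npp 1 0 2 (qsf 536870912 536870912 0 67108864 2) ndF0q1 ndF4q0 pcF2 cut_pm_102 Ext.none)

def k0_pm_102 : ∃ t, chk3 f_pm_102 t 1 1 1 = true :=
  ⟨(a (a (b (a (a (l 6) (a (a (a (a (b (l 2) (l 6)) (l 2)) (l 2)) (l 2)) (l 2))) (l 2)) (b (a (a (l 6) (a (c (a (c (l 16464752) (b (l 16482016) (l 16381248))) (c (l 16443752) (b (l 16455640) (l 16389728)))) (a (l 6) (c (l 16328968) (a (l 6) (l 16357248))))) (a (a (b (l 2) (c (l 16262424) (l 16351688))) (l 2)) (l 2)))) (l 2)) (b (a (a (l 6) (a (c (c (a (l 16466344) (l 16350448)) (a (l 6) (l 16344168))) (a (l 6) (c (l 16333032) (l 16345008)))) (c (c (a (l 16229376) (l 16089608)) (l 16168968)) (a (c (l 16264152) (l 16195744)) (l 16138480))))) (l 2)) (a (a (b (l 6) (b (l 6) (b (l 6) (a (c (a (c (l 15878440) (a (l 15604200) (l 15798760))) (c (a (l 16113912) (l 16252104)) (a (c (l 16014640) (l 15938824)) (l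 16137328)))) (c (a (a (l 15404296) (c (l 15671128) (a (l 15524368) (l 15626344)))) (c (a (l 15859368) (l 16038672)) (l 15870624))) (a (c (a (a (l 15184376) (c (l 15335936) (l 15278952))) (c (l 15498248) (l 15445600))) (a (c (a (l 15100168) (l 15214488)) (a (c (l 15052920) (l 15019976)) (l 15161808))) (l 15368256))) (l 15755216)))) (c (a (l 16397720) (l 16521296)) (a (l 16167152) (l 16502048))))))) (c (a (c (a (l 16430192) (l 16303152)) (a (l 16433136) (l 16321248))) (c (a (l 16171048) (l 16033120)) (l 15986512))) (a (a (l 16452192) (c (l 16350984) (l 16374264))) (a (c (l 16231600) (l 16270144)) (c (l 16098720) (l 16119392)))))) (a (a (a (c (l 15887184) (l 15965392)) (l 2)) (l 2)) (l 2)))))) (l 2)) (l 2)), by decide +kernel⟩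

theorem c_pm_102 : CertFX 536870912 536870912 0 67108864 1046898278 26843546 true true false .npp 1 0 2
    ndF0q1 ndF4q0 pcF2 cut_pm_102 Ext.none :=
  certFX2 (fam := true) (s1 := true) (s2 := false) (a := 1) (b := 0) (c := 2) (cn := .npp) (n1 := ndF0q1) (n2 := ndF4q0) (pc := pcF2) (cut := cut_pm_102) (xt := Ext.none) (P1 := 536870912) (W1 := 536870912) (P2 := 0) (W2 := 67108864) (P3 := 1046898278) (W3 := 26843546)
    rfl (fun _ => rfl) k0_pm_102

end Pool.Agent.Strip051.G.IE1.Tab.C.FA04

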