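import Pool.Agent.Strip051.G.IE1.AsmH
import Pool.Agent.Strip051.G.IE1.TrF0
import Pool.Agent.Strip051.G.IE1.TrF1
import Pool.Agent.Strip051.G.IE1.TrF10
import Pool.Agent.Strip051.G.IE1.TrF11
import Pool.Agent.Strip051.G.IE1.TrF12
import Pool.Agent.Strip051.G.IE1.TrF2
import Pool.Agent.Strip051.G.IE1.TrF3
import Pool.Agent.Strip051.G.IE1.TrF4
import Pool.Agent.Strip051.G.IE1.TrF5
import Pool.Agent.Strip051.G.IE1.TrF6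
import Pool.Agent.Strip051.G.IE1.TrF7
import Pool.Agent.Strip051.G.IE1.TrF8
import Pool.Agent.Strip051.G.IE1.TrF9
import Pool.Agent.Strip051.G.IE1.CubF
import Pool.Agent.Strip051.G.IE1.St0
import Pool.Agent.Strip051.G.IE1.St1
import Pool.Agent.Strip051.G.IE1.StM
import Pool.Agent.Strip051.G.IE1.StZ

/-! # Rows from certificates (generated) -/

set_option linter.all false
set_option maxRecDepth 100000

namespace Pool.Agent.Strip051.G.IE1.Tab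

open Pool.Agent.Strip051.PB Pool.Agent.StripNear Pool.Agent.Strip051.LC

theorem FA00_pp_001 {κ x : ℝ} (hκ : κ * h0 = kenE x) (hx : 39 / 40 ≤ x) (hx' : x < 1) :
    TriA (DD x).cur (farD κ (h0 * x) (tbl tKF x) (tbl tL x)) 0 0 1 0 0 1 1 :=
  (sideF hx hx').farA (Or.inl rfl) (Or.inl rfl) fun y y' F r1 r2 =>
    farXA_cert (s1 := true) (s2 := true) rfl hκ (ka0 hκ hx hx') (xa0 hx) hx' (covF00 hx hx') (covF00 hx hx') (x1 hx) (x2 hx')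
        Pool.Agent.Strip051.G.IE1.Tab.C.FA00.c_pp_001 (cutVA_cons (Pool.Agent.Strip051.G.IE1.Tab.St.C.s_A00pp_001_s1 hκ hx hx') (cutVA_cons (Pool.Agent.Strip051.G.IE1.Tab.St.C.s_A00pp_001_s3 hκ hx hx') cutVA_nil)) noExt_VA F r1 r2 r1 r2

theorem FA00_pp_011 {κ x : ℝ} (hκ : κ * h0 = kenE x) (hx : 39 / 40 ≤ x) (hx' : x < 1) :
    TriA (DD x).cur (farD κ (h0 * x) (tbl tKF x) (tbl tL x)) 0 1 1 0 0 1 1 :=
  (sideF hx hx').farA (Or.inl rfl) (Or.inl rfl) fun y y' F r1 r2 =>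
    farXA_cert (s1 := true) (s2 := true) rfl hκ (ka0 hκ hx hx') (xa0 hx) hx' (covF00 hx hx') (covF01 hx hx') (x1 hx) (x2 hx')
        Pool.Agent.Strip051.G.IE1.Tab.C.FA00.c_pp_011 (cutVA_cons (Pool.Agent.Strip051.G.IE1.Tab.St.C.s_A00pp_011_s1 hκ hx hx' (cutVA_cons (Pool.Agent.Strip051.G.IE1.Tab.qF_A00pp_011_011 hκ hx hx') cutVA_nil)) (cutVA_cons (Pool.Agent.Strip051.G.IE1.Tab.St.C.s_A00pp_011_s3 hκ hx hx' (cutVA_cons (Pool.Agent.Strip051.G.IE1.Tab.qF_A00pp_011_011 hκ hx hx') cutVA_nil)) (cutVA_cons (Pool.Agent.Strip051.G.IE1.Tab.qF_A00pp_011_011 hκ hx hx') cutVA_nil))) noExt_VA F r1 r2 r1 r2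

theorem FA00_pp_012 {κ x : ℝ} (hκ : κ * h0 = kenE x) (hx : 39 / 40 ≤ x) (hx' : x < 1) :
    TriA (DD x).cur (farD κ (h0 * x) (tbl tKF x) (tbl tL x)) 0 1 2 0 0 1 1 :=
  (sideF hx hx').farA (Or.inl rfl) (Or.inl rfl) fun y y' F r1 r2 =>
    farXA_cert (s1 := true) (s2 := true) rfl hκ (ka0 hκ hx hx') (xa0 hx) hx' (covF00 hx hx') (covF01 hx hx') (x1 hx) (x2 hx')
        Pool.Agent.Strip051.G.IE1.Tab.C.FA00.c_pp_012 (cutVA_cons (Pool.Agent.Strip051.G.IE1.Tab.St.C.s_A00pp_012_s1 hκ hx hx' (cutVA_cons (Pool.Agent.Strip051.G.IE1.Tab.qF_A00pp_012_011 hκ hx hx') cutVA_nil)) (cutVA_cons (Pool.Agent.Strip051.G.IE1.Tab.St.C.s_A00pp_012_s3 hκ hx hx' (cutVA_cons (Pool.Agent.Strip051.G.IE1.Tab.qF_A00pp_012_011 hκ hx hx') cutVA_nil)) (cutVA_cons (Pool.Agent.Strip051.G.IE1.Tab.qF_A00pp_012_011 hκ hx hx') cutVA_nil))) noExt_VA F r1 r2 r1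 r2

theorem FA00_pp_022 {κ x : ℝ} (hκ : κ * h0 = kenE x) (hx : 39 / 40 ≤ x) (hx' : x < 1) :
    TriA (DD x).cur (farD κ (h0 * x) (tbl tKF x) (tbl tL x)) 0 2 2 0 0 1 1 :=
  (sideF hx hx').farA (Or.inl rfl) (Or.inl rfl) fun y y' F r1 r2 =>
    farXA_cert (s1 := true) (s2 := true) rfl hκ (ka0 hκ hx hx') (xa0 hx) hx' (covF00 hx hx') (covF02 hx hx') (x1 hx) (x2 hx')
        Pool.Agent.Strip051.G.IE1.Tab.C.FA00.c_pp_022 (cutVA_cons (Pool.Agent.Strip051.G.IE1.Tab.St.C.s_A00pp_022_s1 hκ hx hx' (cutVA_cons (Pool.Agent.Strip051.G.IE1.Tab.qF_A00pp_022_011 hκ hx hx') cutVA_nil)) (cutVA_cons (Pool.Agent.Strip051.G.IE1.Tab.St.C.s_A00pp_022_s3 hκ hx hx' (cutVA_cons (Pool.Agent.Strip051.G.IE1.Tab.qF_A00pp_022_011 hκ hx hx') cutVA_nil)) (cutVA_cons (Pool.Agent.Strip051.G.IE1.Tab.qF_A00pp_022_011 hκ hx hx') cutVA_nil))) noExt_VA F r1 r2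 r1 r2

theorem FA00_pp_023 {κ x : ℝ} (hκ : κ * h0 = kenE x) (hx : 39 / 40 ≤ x) (hx' : x < 1) :
    TriA (DD x).cur (farD κ (h0 * x) (tbl tKF x) (tbl tL x)) 0 2 3 0 0 1 1 :=
  (sideF hx hx').farA (Or.inl rfl) (Or.inl rfl) fun y y' F r1 r2 =>
    farXA_cert (s1 := true) (s2 := true) rfl hκ (ka0 hκ hx hx') (xa0 hx) hx' (covF00 hx hx') (covF02 hx hx') (x1 hx) (x2 hx')
        Pool.Agent.Strip051.G.IE1.Tab.C.FA00.c_pp_023 (cutVA_cons (Pool.Agent.Strip051.G.IE1.Tab.St.C.s_A00pp_023_s1 hκ hx hx') (cutVA_cons (Pool.Agent.Strip051.G.IE1.Tab.St.C.s_A00pp_023_s3 hκ hx hx') cutVA_nil)) noExt_VA F r1 r2 r1 r2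

theorem FA00_pp_033 {κ x : ℝ} (hκ : κ * h0 = kenE x) (hx : 39 / 40 ≤ x) (hx' : x < 1) :
    TriA (DD x).cur (farD κ (h0 * x) (tbl tKF x) (tbl tL x)) 0 3 3 0 0 1 1 :=
  triVA_k0

theorem FA00_pp_101 {κ x : ℝ} (hκ : κ * h0 = kenE x) (hx : 39 / 40 ≤ x) (hx' : x < 1) :
    TriA (DD x).cur (farD κ (h0 * x) (tbl tKF x) (tbl tL x)) 1 0 1 0 0 1 1 :=
  (sideF hx hx').farA (Or.inl rfl) (Or.inl rfl) fun y y' F r1 r2 =>
    farXA_cert (s1 := true) (s2 := true) rfl hκ (ka0 hκ hx hx') (xa0 hx) hx' (covF01 hx hx') (covF00 hx hx') (x1 hx) (x2 hx')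
        Pool.Agent.Strip051.G.IE1.Tab.C.FA00.c_pp_101 (cutVA_cons (Pool.Agent.Strip051.G.IE1.Tab.St.C.s_A00pp_101_s1 hκ hx hx') (cutVA_cons (Pool.Agent.Strip051.G.IE1.Tab.St.C.s_A00pp_101_s3 hκ hx hx') cutVA_nil)) noExt_VA F r1 r2 r1 r2

theorem FA00_pp_102 {κ x : ℝ} (hκ : κ * h0 = kenE x) (hx : 39 / 40 ≤ x) (hx' : x < 1) :
    TriA (DD x).cur (farD κ (h0 * x) (tbl tKF x) (tbl tL x)) 1 0 2 0 0 1 1 :=
  (sideF hx hx').farA (Or.inl rfl) (Or.inl rfl) fun y y' F r1 r2 =>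
    farXA_cert (s1 := true) (s2 := true) rfl hκ (ka0 hκ hx hx') (xa0 hx) hx' (covF01 hx hx') (covF00 hx hx') (x1 hx) (x2 hx')
        Pool.Agent.Strip051.G.IE1.Tab.C.FA00.c_pp_102 (cutVA_cons (Pool.Agent.Strip051.G.IE1.Tab.St.C.s_A00pp_102_s1 hκ hx hx') (cutVA_cons (Pool.Agent.Strip051.G.IE1.Tab.St.C.s_A00pp_102_s3 hκ hx hx') cutVA_nil)) noExt_VA F r1 r2 r1 r2

theorem FA00_pp_112 {κ x : ℝ} (hκ : κ * h0 = kenE x) (hx : 39 / 40 ≤ x) (hx' : x < 1) :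
    TriA (DD x).cur (farD κ (h0 * x) (tbl tKF x) (tbl tL x)) 1 1 2 0 0 1 1 :=
  (sideF hx hx').farA (Or.inl rfl) (Or.inl rfl) fun y y' F r1 r2 =>
    farXA_cert (s1 := true) (s2 := true) rfl hκ (ka0 hκ hx hx') (xa0 hx) hx' (covF01 hx hx') (covF01 hx hx') (x1 hx) (x2 hx')
        Pool.Agent.Strip051.G.IE1.Tab.C.FA00.c_pp_112 (cutVA_cons (Pool.Agent.Strip051.G.IE1.Tab.St.C.s_A00pp_112_s1 hκ hx hx') (cutVA_cons (Pool.Agent.Strip051.G.IE1.Tab.St.C.s_A00pp_112_s3 hκ hx hx') cutVA_nil)) noExt_VA F r1 r2 r1 r2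

theorem FA00_pp_113 {κ x : ℝ} (hκ : κ * h0 = kenE x) (hx : 39 / 40 ≤ x) (hx' : x < 1) :
    TriA (DD x).cur (farD κ (h0 * x) (tbl tKF x) (tbl tL x)) 1 1 3 0 0 1 1 :=
  (sideF hx hx').farA (Or.inl rfl) (Or.inl rfl) fun y y' F r1 r2 =>
    farXA_cert (s1 := true) (s2 := true) rfl hκ (ka0 hκ hx hx') (xa0 hx) hx' (covF01 hx hx') (covF01 hx hx') (x1 hx) (x2 hx')
        Pool.Agent.Strip051.G.IE1.Tab.C.FA00.c_pp_113 (cutVA_cons (Pool.Agent.Strip051.G.IE1.Tab.St.C.s_A00pp_113_s1 hκ hx hx') (cutVA_cons (Pool.Agent.Strip051.G.IE1.Tab.St.C.s_A00pp_113_s3 hκ hx hx') cutVA_nil)) noExt_VA F r1 r2 r1 r2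

theorem FA00_pp_123 {κ x : ℝ} (hκ : κ * h0 = kenE x) (hx : 39 / 40 ≤ x) (hx' : x < 1) :
    TriA (DD x).cur (farD κ (h0 * x) (tbl tKF x) (tbl tL x)) 1 2 3 0 0 1 1 :=
  (sideF hx hx').farA (Or.inl rfl) (Or.inl rfl) fun y y' F r1 r2 =>
    farXA_cert (s1 := true) (s2 := true) rfl hκ (ka0 hκ hx hx') (xa0 hx) hx' (covF01 hx hx') (covF02 hx hx') (x1 hx) (x2 hx')
        Pool.Agent.Strip051.G.IE1.Tab.C.FA00.c_pp_123 (cutVA_cons (Pool.Agent.Strip051.G.IE1.Tab.St.C.s_A00pp_123_s1 hκ hx hx') (cutVA_cons (Pool.Agent.Strip051.G.IE1.Tab.St.C.s_A00pp_123_s3 hκ hx hx') cutVA_nil)) noExt_VA F r1 r2 r1 r2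

theorem FA00_pp_133 {κ x : ℝ} (hκ : κ * h0 = kenE x) (hx : 39 / 40 ≤ x) (hx' : x < 1) :
    TriA (DD x).cur (farD κ (h0 * x) (tbl tKF x) (tbl tL x)) 1 3 3 0 0 1 1 :=
  triVA_k0

theorem FA00_pp_202 {κ x : ℝ} (hκ : κ * h0 = kenE x) (hx : 39 / 40 ≤ x) (hx' : x < 1) :
    TriA (DD x).cur (farD κ (h0 * x) (tbl tKF x) (tbl tL x)) 2 0 2 0 0 1 1 :=
  (sideF hx hx').farA (Or.inl rfl) (Or.inl rfl) fun y y' F r1 r2 =>
    farXA_cert (s1 := true) (s2 := true) rfl hκ (ka0 hκ hx hx') (xa0 hx) hx' (covF02 hx hx') (covF00 hx hx') (x1 hx) (x2 hx')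
        Pool.Agent.Strip051.G.IE1.Tab.C.FA00.c_pp_202 (cutVA_cons (Pool.Agent.Strip051.G.IE1.Tab.St.C.s_A00pp_202_s1 hκ hx hx') (cutVA_cons (Pool.Agent.Strip051.G.IE1.Tab.St.C.s_A00pp_202_s3 hκ hx hx') cutVA_nil)) noExt_VA F r1 r2 r1 r2

theorem FA00_pp_203 {κ x : ℝ} (hκ : κ * h0 = kenE x) (hx : 39 / 40 ≤ x) (hx' : x < 1) :
    TriA (DD x).cur (farD κ (h0 * x) (tbl tKF x) (tbl tL x)) 2 0 3 0 0 1 1 :=
  (sideF hx hx').farA (Or.inl rfl) (Or.inl rfl) fun y y' F r1 r2 =>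
    farXA_cert (s1 := true) (s2 := true) rfl hκ (ka0 hκ hx hx') (xa0 hx) hx' (covF02 hx hx') (covF00 hx hx') (x1 hx) (x2 hx')
        Pool.Agent.Strip051.G.IE1.Tab.C.FA00.c_pp_203 (cutVA_cons (Pool.Agent.Strip051.G.IE1.Tab.St.C.s_A00pp_203_s1 hκ hx hx') (cutVA_cons (Pool.Agent.Strip051.G.IE1.Tab.St.C.s_A00pp_203_s3 hκ hx hx') cutVA_nil)) noExt_VA F r1 r2 r1 r2

theorem FA00_pp_213 {κ x : ℝ} (hκ : κ * h0 = kenE x) (hx : 39 / 40 ≤ x) (hx' : x < 1) :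
    TriA (DD x).cur (farD κ (h0 * x) (tbl tKF x) (tbl tL x)) 2 1 3 0 0 1 1 :=
  (sideF hx hx').farA (Or.inl rfl) (Or.inl rfl) fun y y' F r1 r2 =>
    farXA_cert (s1 := true) (s2 := true) rfl hκ (ka0 hκ hx hx') (xa0 hx) hx' (covF02 hx hx') (covF01 hx hx') (x1 hx) (x2 hx')
        Pool.Agent.Strip051.G.IE1.Tab.C.FA00.c_pp_213 (cutVA_cons (Pool.Agent.Strip051.G.IE1.Tab.St.C.s_A00pp_213_s1 hκ hx hx') (cutVA_cons (Pool.Agent.Strip051.G.IE1.Tab.St.C.s_A00pp_213_s3 hκ hx hx') cutVA_nil)) noExt_VA F r1 r2 r1 r2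

theorem FA00_pp_303 {κ x : ℝ} (hκ : κ * h0 = kenE x) (hx : 39 / 40 ≤ x) (hx' : x < 1) :
    TriA (DD x).cur (farD κ (h0 * x) (tbl tKF x) (tbl tL x)) 3 0 3 0 0 1 1 :=
  triVA_j0

theorem FA00_pp_313 {κ x : ℝ} (hκ : κ * h0 = kenE x) (hx : 39 / 40 ≤ x) (hx' : x < 1) :
    TriA (DD x).cur (farD κ (h0 * x) (tbl tKF x) (tbl tL x)) 3 1 3 0 0 1 1 :=
  triVA_j0

theorem FA00_pm_001 {κ x : ℝ} (hκ : κ * h0 = kenE x) (hx : 39 / 40 ≤ x) (hx' : x < 1) :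
    TriA (DD x).cur (farD κ (h0 * x) (tbl tKF x) (tbl tL x)) 0 0 1 0 0 1 (-1) :=
  (sideF hx hx').farA (Or.inl rfl) (Or.inr rfl) fun y y' F r1 r2 =>
    farXA_cert (s1 := true) (s2 := false) rfl hκ (ka0 hκ hx hx') (xa0 hx) hx' (covF00 hx hx') (covF00 hx hx') (x1 hx) (x2 hx')
        Pool.Agent.Strip051.G.IE1.Tab.C.FA00.c_pm_001 (cutVA_cons (Pool.Agent.Strip051.G.IE1.Tab.St.C.s_A00pm_001_s1 hκ hx hx') (cutVA_cons (Pool.Agent.Strip051.G.IE1.Tab.St.C.s_A00pm_001_s3 hκ hx hx') cutVA_nil)) noExt_VA F r1 r2 r1 r2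

theorem FA00_pm_011 {κ x : ℝ} (hκ : κ * h0 = kenE x) (hx : 39 / 40 ≤ x) (hx' : x < 1) :
    TriA (DD x).cur (farD κ (h0 * x) (tbl tKF x) (tbl tL x)) 0 1 1 0 0 1 (-1) :=
  (sideF hx hx').farA (Or.inl rfl) (Or.inr rfl) fun y y' F r1 r2 =>
    farXA_cert (s1 := true) (s2 := false) rfl hκ (ka0 hκ hx hx') (xa0 hx) hx' (covF00 hx hx') (covF01 hx hx') (x1 hx) (x2 hx')
        Pool.Agent.Strip051.G.IE1.Tab.C.FA00.c_pm_011 (cutVA_cons (Pool.Agent.Strip051.G.IE1.Tab.St.C.s_A00pm_011_s1 hκ hx hx' (cutVA_cons (Pool.Agent.Strip051.G.IE1.Tab.qF_A00pm_011_011 hκ hx hx') cutVA_nil)) (cutVA_cons (Pool.Agent.Strip051.G.IE1.Tab.St.C.s_A00pm_011_s3 hκ hx hx' (cutVA_cons (Pool.Agent.Strip051.G.IE1.Tab.qF_A00pm_011_011 hκ hx hx') cutVA_nil)) (cutVA_cons (Pool.Agent.Strip051.G.IE1.Tab.qF_A00pm_011_011 hκ hx hx') cutVA_nil))) noExt_VA F r1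 r2 r1 r2

theorem FA00_pm_012 {κ x : ℝ} (hκ : κ * h0 = kenE x) (hx : 39 / 40 ≤ x) (hx' : x < 1) :
    TriA (DD x).cur (farD κ (h0 * x) (tbl tKF x) (tbl tL x)) 0 1 2 0 0 1 (-1) :=
  (sideF hx hx').farA (Or.inl rfl) (Or.inr rfl) fun y y' F r1 r2 =>
    farXA_cert (s1 := true) (s2 := false) rfl hκ (ka0 hκ hx hx') (xa0 hx) hx' (covF00 hx hx') (covF01 hx hx') (x1 hx) (x2 hx')
        Pool.Agent.Strip051.G.IE1.Tab.C.FA00.c_pm_012 (cutVA_cons (Pool.Agent.Strip051.G.IE1.Tab.St.C.s_A00pm_012_s1 hκ hx hx' (cutVA_cons (Pool.Agent.Strip051.G.IE1.Tab.qF_A00pm_012_011 hκ hx hx') cutVA_nil)) (cutVA_cons (Pool.Agent.Strip051.G.IE1.Tab.St.C.s_A00pm_012_s3 hκ hx hx' (cutVA_cons (Pool.Agent.Strip051.G.IE1.Tab.qF_A00pm_012_011 hκ hx hx') cutVA_nil)) (cutVA_cons (Pool.Agent.Strip051.G.IE1.Tab.qF_A00pm_012_011 hκ hx hx') cutVA_nil))) noExt_VA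 F r1 r2 r1 r2

theorem FA00_pm_022 {κ x : ℝ} (hκ : κ * h0 = kenE x) (hx : 39 / 40 ≤ x) (hx' : x < 1) :
    TriA (DD x).cur (farD κ (h0 * x) (tbl tKF x) (tbl tL x)) 0 2 2 0 0 1 (-1) :=
  (sideF hx hx').farA (Or.inl rfl) (Or.inr rfl) fun y y' F r1 r2 =>
    farXA_cert (s1 := true) (s2 := false) rfl hκ (ka0 hκ hx hx') (xa0 hx) hx' (covF00 hx hx') (covF02 hx hx') (x1 hx) (x2 hx')
        Pool.Agent.Strip051.G.IE1.Tab.C.FA00.c_pm_022 (cutVA_cons (Pool.Agent.Strip051.G.IE1.Tab.St.C.s_A00pm_022_s1 hκ hx hx' (cutVA_cons (Pool.Agent.Strip051.G.IE1.Tab.qF_A00pm_022_011 hκ hx hx') cutVA_nil)) (cutVA_cons (Pool.Agent.Strip051.G.IE1.Tab.St.C.s_A00pm_022_s3 hκ hx hx' (cutVA_cons (Pool.Agent.Strip051.G.IE1.Tab.qF_A00pm_022_011 hκ hx hx') cutVA_nil)) (cutVA_cons (Pool.Agent.Strip051.G.IE1.Tab.qF_A00pm_022_011 hκ hx hx') cutVA_nil)))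 noExt_VA F r1 r2 r1 r2

theorem FA00_pm_023 {κ x : ℝ} (hκ : κ * h0 = kenE x) (hx : 39 / 40 ≤ x) (hx' : x < 1) :
    TriA (DD x).cur (farD κ (h0 * x) (tbl tKF x) (tbl tL x)) 0 2 3 0 0 1 (-1) :=
  (sideF hx hx').farA (Or.inl rfl) (Or.inr rfl) fun y y' F r1 r2 =>
    farXA_cert (s1 := true) (s2 := false) rfl hκ (ka0 hκ hx hx') (xa0 hx) hx' (covF00 hx hx') (covF02 hx hx') (x1 hx) (x2 hx')
        Pool.Agent.Strip051.G.IE1.Tab.C.FA00.c_pm_023 (cutVA_cons (Pool.Agent.Strip051.G.IE1.Tab.St.C.s_A00pm_023_s1 hκ hx hx') (cutVA_cons (Pool.Agent.Strip051.G.IE1.Tab.St.C.s_A00pm_023_s3 hκ hx hx') cutVA_nil)) noExt_VA F r1 r2 r1 r2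

theorem FA00_pm_033 {κ x : ℝ} (hκ : κ * h0 = kenE x) (hx : 39 / 40 ≤ x) (hx' : x < 1) :
    TriA (DD x).cur (farD κ (h0 * x) (tbl tKF x) (tbl tL x)) 0 3 3 0 0 1 (-1) :=
  triVA_k0

theorem FA00_pm_101 {κ x : ℝ} (hκ : κ * h0 = kenE x) (hx : 39 / 40 ≤ x) (hx' : x < 1) :
    TriA (DD x).cur (farD κ (h0 * x) (tbl tKF x) (tbl tL x)) 1 0 1 0 0 1 (-1) :=
  (sideF hx hx').farA (Or.inl rfl) (Or.inr rfl) fun y y' F r1 r2 =>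
    farXA_cert (s1 := true) (s2 := false) rfl hκ (ka0 hκ hx hx') (xa0 hx) hx' (covF01 hx hx') (covF00 hx hx') (x1 hx) (x2 hx')
        Pool.Agent.Strip051.G.IE1.Tab.C.FA00.c_pm_101 (cutVA_cons (Pool.Agent.Strip051.G.IE1.Tab.St.C.s_A00pm_101_s1 hκ hx hx' (cutVA_cons (Pool.Agent.Strip051.G.IE1.Tab.qF_A00pm_101_101 hκ hx hx') cutVA_nil)) (cutVA_cons (Pool.Agent.Strip051.G.IE1.Tab.St.C.s_A00pm_101_s3 hκ hx hx' (cutVA_cons (Pool.Agent.Strip051.G.IE1.Tab.qF_A00pm_101_101 hκ hx hx') cutVA_nil)) (cutVA_cons (Pool.Agent.Strip051.G.IE1.Tab.qF_A00pm_101_101 hκ hx hx') cutVA_nil))) noExt_VA F r1 r2 r1 r2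

theorem FA00_pm_102 {κ x : ℝ} (hκ : κ * h0 = kenE x) (hx : 39 / 40 ≤ x) (hx' : x < 1) :
    TriA (DD x).cur (farD κ (h0 * x) (tbl tKF x) (tbl tL x)) 1 0 2 0 0 1 (-1) :=
  (sideF hx hx').farA (Or.inl rfl) (Or.inr rfl) fun y y' F r1 r2 =>
    farXA_cert (s1 := true) (s2 := false) rfl hκ (ka0 hκ hx hx') (xa0 hx) hx' (covF01 hx hx') (covF00 hx hx') (x1 hx) (x2 hx')
        Pool.Agent.Strip051.G.IE1.Tab.C.FA00.c_pm_102 (cutVA_cons (Pool.Agent.Strip051.G.IE1.Tab.St.C.s_A00pm_102_s1 hκ hx hx' (cutVA_cons (Pool.Agent.Strip051.G.IE1.Tab.qF_A00pm_102_101 hκ hx hx') cutVA_nil)) (cutVA_cons (Pool.Agent.Strip051.G.IE1.Tab.St.C.s_A00pm_102_s3 hκ hx hx' (cutVA_cons (Pool.Agent.Strip051.G.IE1.Tab.qF_A00pm_102_101 hκ hx hx') cutVA_nil)) (cutVA_cons (Pool.Agent.Strip051.G.IE1.Tab.qF_A00pm_102_101 hκ hx hx') cutVA_nil))) noExt_VA F r1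 r2 r1 r2

theorem FA00_pm_112 {κ x : ℝ} (hκ : κ * h0 = kenE x) (hx : 39 / 40 ≤ x) (hx' : x < 1) :
    TriA (DD x).cur (farD κ (h0 * x) (tbl tKF x) (tbl tL x)) 1 1 2 0 0 1 (-1) :=
  (sideF hx hx').farA (Or.inl rfl) (Or.inr rfl) fun y y' F r1 r2 =>
    farXA_cert (s1 := true) (s2 := false) rfl hκ (ka0 hκ hx hx') (xa0 hx) hx' (covF01 hx hx') (covF01 hx hx') (x1 hx) (x2 hx')
        Pool.Agent.Strip051.G.IE1.Tab.C.FA00.c_pm_112 (cutVA_cons (Pool.Agent.Strip051.G.IE1.Tab.St.C.s_A00pm_112_s1 hκ hx hx') (cutVA_cons (Pool.Agent.Strip051.G.IE1.Tab.St.C.s_A00pm_112_s3 hκ hx hx') cutVA_nil)) noExt_VA F r1 r2 r1 r2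

theorem FA00_pm_113 {κ x : ℝ} (hκ : κ * h0 = kenE x) (hx : 39 / 40 ≤ x) (hx' : x < 1) :
    TriA (DD x).cur (farD κ (h0 * x) (tbl tKF x) (tbl tL x)) 1 1 3 0 0 1 (-1) :=
  (sideF hx hx').farA (Or.inl rfl) (Or.inr rfl) fun y y' F r1 r2 =>
    farXA_cert (s1 := true) (s2 := false) rfl hκ (ka0 hκ hx hx') (xa0 hx) hx' (covF01 hx hx') (covF01 hx hx') (x1 hx) (x2 hx')
        Pool.Agent.Strip051.G.IE1.Tab.C.FA00.c_pm_113 (cutVA_cons (Pool.Agent.Strip051.G.IE1.Tab.St.C.s_A00pm_113_s1 hκ hx hx' (cutVA_cons (Pool.Agent.Strip051.G.IE1.Tab.qF_A00pm_113_112 hκ hx hx') cutVA_nil)) (cutVA_cons (Pool.Agent.Strip051.G.IE1.Tab.St.C.s_A00pm_113_s3 hκ hx hx' (cutVA_cons (Pool.Agent.Strip051.G.IE1.Tab.qF_A00pm_113_112 hκ hx hx') cutVA_nil)) (cutVA_cons (Pool.Agent.Strip051.G.IE1.Tab.qF_A00pm_113_112 hκ hx hx') cutVA_nil))) noExt_VA F r1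 r2 r1 r2

theorem FA00_pm_123 {κ x : ℝ} (hκ : κ * h0 = kenE x) (hx : 39 / 40 ≤ x) (hx' : x < 1) :
    TriA (DD x).cur (farD κ (h0 * x) (tbl tKF x) (tbl tL x)) 1 2 3 0 0 1 (-1) :=
  (sideF hx hx').farA (Or.inl rfl) (Or.inr rfl) fun y y' F r1 r2 =>
    farXA_cert (s1 := true) (s2 := false) rfl hκ (ka0 hκ hx hx') (xa0 hx) hx' (covF01 hx hx') (covF02 hx hx') (x1 hx) (x2 hx')
        Pool.Agent.Strip051.G.IE1.Tab.C.FA00.c_pm_123 (cutVA_cons (Pool.Agent.Strip051.G.IE1.Tab.St.C.s_A00pm_123_s1 hκ hx hx' (cutVA_cons (Pool.Agent.Strip051.G.IE1.Tab.qF_A00pm_123_112 hκ hx hx') cutVA_nil)) (cutVA_cons (Pool.Agent.Strip051.G.IE1.Tab.St.C.s_A00pm_123_s3 hκ hx hx' (cutVA_cons (Pool.Agent.Strip051.G.IE1.Tab.qF_A00pm_123_112 hκ hx hx') cutVA_nil)) (cutVA_cons (Pool.Agent.Strip051.G.IE1.Tab.qF_A00pm_123_112 hκ hx hx') cutVA_nil))) noExt_VA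 F r1 r2 r1 r2

theorem FA00_pm_133 {κ x : ℝ} (hκ : κ * h0 = kenE x) (hx : 39 / 40 ≤ x) (hx' : x < 1) :
    TriA (DD x).cur (farD κ (h0 * x) (tbl tKF x) (tbl tL x)) 1 3 3 0 0 1 (-1) :=
  triVA_k0

theorem FA00_pm_202 {κ x : ℝ} (hκ : κ * h0 = kenE x) (hx : 39 / 40 ≤ x) (hx' : x < 1) :
    TriA (DD x).cur (farD κ (h0 * x) (tbl tKF x) (tbl tL x)) 2 0 2 0 0 1 (-1) :=
  (sideF hx hx').farA (Or.inl rfl) (Or.inr rfl) fun y y' F r1 r2 =>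
    farXA_cert (s1 := true) (s2 := false) rfl hκ (ka0 hκ hx hx') (xa0 hx) hx' (covF02 hx hx') (covF00 hx hx') (x1 hx) (x2 hx')
        Pool.Agent.Strip051.G.IE1.Tab.C.FA00.c_pm_202 (cutVA_cons (Pool.Agent.Strip051.G.IE1.Tab.St.C.s_A00pm_202_s1 hκ hx hx' (cutVA_cons (Pool.Agent.Strip051.G.IE1.Tab.qF_A00pm_202_101 hκ hx hx') cutVA_nil)) (cutVA_cons (Pool.Agent.Strip051.G.IE1.Tab.St.C.s_A00pm_202_s3 hκ hx hx' (cutVA_cons (Pool.Agent.Strip051.G.IE1.Tab.qF_A00pm_202_101 hκ hx hx') cutVA_nil)) (cutVA_cons (Pool.Agent.Strip051.G.IE1.Tab.qF_A00pm_202_101 hκ hx hx') cutVA_nil))) noExt_VA F r1 r2 r1 r2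

theorem FA00_pm_203 {κ x : ℝ} (hκ : κ * h0 = kenE x) (hx : 39 / 40 ≤ x) (hx' : x < 1) :
    TriA (DD x).cur (farD κ (h0 * x) (tbl tKF x) (tbl tL x)) 2 0 3 0 0 1 (-1) :=
  (sideF hx hx').farA (Or.inl rfl) (Or.inr rfl) fun y y' F r1 r2 =>
    farXA_cert (s1 := true) (s2 := false) rfl hκ (ka0 hκ hx hx') (xa0 hx) hx' (covF02 hx hx') (covF00 hx hx') (x1 hx) (x2 hx')
        Pool.Agent.Strip051.G.IE1.Tab.C.FA00.c_pm_203 (cutVA_cons (Pool.Agent.Strip051.G.IE1.Tab.St.C.s_A00pm_203_s1 hκ hx hx') (cutVA_cons (Pool.Agent.Strip051.G.IE1.Tab.St.C.s_A00pm_203_s3 hκ hx hx') cutVA_nil)) noExt_VA F r1 r2 r1 r2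

theorem FA00_pm_213 {κ x : ℝ} (hκ : κ * h0 = kenE x) (hx : 39 / 40 ≤ x) (hx' : x < 1) :
    TriA (DD x).cur (farD κ (h0 * x) (tbl tKF x) (tbl tL x)) 2 1 3 0 0 1 (-1) :=
  (sideF hx hx').farA (Or.inl rfl) (Or.inr rfl) fun y y' F r1 r2 =>
    farXA_cert (s1 := true) (s2 := false) rfl hκ (ka0 hκ hx hx') (xa0 hx) hx' (covF02 hx hx') (covF01 hx hx') (x1 hx) (x2 hx')
        Pool.Agent.Strip051.G.IE1.Tab.C.FA00.c_pm_213 (cutVA_cons (Pool.Agent.Strip051.G.IE1.Tab.St.C.s_A00pm_213_s1 hκ hx hx' (cutVA_cons (Pool.Agent.Strip051.G.IE1.Tab.qF_A00pm_213_112 hκ hx hx') cutVA_nil)) (cutVA_cons (Pool.Agent.Strip051.G.IE1.Tab.St.C.s_A00pm_213_s3 hκ hx hx' (cutVA_cons (Pool.Agent.Strip051.G.IE1.Tab.qF_A00pm_213_112 hκ hx hx') cutVA_nil)) (cutVA_cons (Pool.Agent.Strip051.G.IE1.Tab.qF_A00pm_213_112 hκ hx hx') cutVA_nil))) noExt_VA F r1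 r2 r1 r2

theorem FA00_pm_303 {κ x : ℝ} (hκ : κ * h0 = kenE x) (hx : 39 / 40 ≤ x) (hx' : x < 1) :
    TriA (DD x).cur (farD κ (h0 * x) (tbl tKF x) (tbl tL x)) 3 0 3 0 0 1 (-1) :=
  triVA_j0

theorem FA00_pm_313 {κ x : ℝ} (hκ : κ * h0 = kenE x) (hx : 39 / 40 ≤ x) (hx' : x < 1) :
    TriA (DD x).cur (farD κ (h0 * x) (tbl tKF x) (tbl tL x)) 3 1 3 0 0 1 (-1) :=
  triVA_j0

theorem FA00_mm_001 {κ x : ℝ} (hκ : κ * h0 = kenE x) (hx : 39 / 40 ≤ x) (hx' : x < 1) :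
    TriA (DD x).cur (farD κ (h0 * x) (tbl tKF x) (tbl tL x)) 0 0 1 0 0 (-1) (-1) :=
  (sideF hx hx').farA (Or.inr rfl) (Or.inr rfl) fun y y' F r1 r2 =>
    farXA_cert (s1 := false) (s2 := false) rfl hκ (ka0 hκ hx hx') (xa0 hx) hx' (covF00 hx hx') (covF00 hx hx') (x1 hx) (x2 hx')
        Pool.Agent.Strip051.G.IE1.Tab.C.FA00.c_mm_001 (cutVA_cons (Pool.Agent.Strip051.G.IE1.Tab.St.C.s_A00mm_001_s1 hκ hx hx') (cutVA_cons (Pool.Agent.Strip051.G.IE1.Tab.St.C.s_A00mm_001_s3 hκ hx hx') cutVA_nil)) noExt_VA F r1 r2 r1 r2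

theorem FA00_mm_011 {κ x : ℝ} (hκ : κ * h0 = kenE x) (hx : 39 / 40 ≤ x) (hx' : x < 1) :
    TriA (DD x).cur (farD κ (h0 * x) (tbl tKF x) (tbl tL x)) 0 1 1 0 0 (-1) (-1) :=
  (sideF hx hx').farA (Or.inr rfl) (Or.inr rfl) fun y y' F r1 r2 =>
    farXA_cert (s1 := false) (s2 := false) rfl hκ (ka0 hκ hx hx') (xa0 hx) hx' (covF00 hx hx') (covF01 hx hx') (x1 hx) (x2 hx')
        Pool.Agent.Strip051.G.IE1.Tab.C.FA00.c_mm_011 (cutVA_cons (Pool.Agent.Strip051.G.IE1.Tab.St.C.s_A00mm_011_s1 hκ hx hx') (cutVA_cons (Pool.Agent.Strip051.G.IE1.Tab.St.C.s_A00mm_011_s3 hκ hx hx') cutVA_nil)) noExt_VA F r1 r2 r1 r2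

theorem FA00_mm_012 {κ x : ℝ} (hκ : κ * h0 = kenE x) (hx : 39 / 40 ≤ x) (hx' : x < 1) :
    TriA (DD x).cur (farD κ (h0 * x) (tbl tKF x) (tbl tL x)) 0 1 2 0 0 (-1) (-1) :=
  (sideF hx hx').farA (Or.inr rfl) (Or.inr rfl) fun y y' F r1 r2 =>
    farXA_cert (s1 := false) (s2 := false) rfl hκ (ka0 hκ hx hx') (xa0 hx) hx' (covF00 hx hx') (covF01 hx hx') (x1 hx) (x2 hx')
        Pool.Agent.Strip051.G.IE1.Tab.C.FA00.c_mm_012 (cutVA_cons (Pool.Agent.Strip051.G.IE1.Tab.St.C.s_A00mm_012_s1 hκ hx hx') (cutVA_cons (Pool.Agent.Strip051.G.IE1.Tab.St.C.s_A00mm_012_s3 hκ hx hx') cutVA_nil)) noExt_VA F r1 r2 r1 r2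

theorem FA00_mm_022 {κ x : ℝ} (hκ : κ * h0 = kenE x) (hx : 39 / 40 ≤ x) (hx' : x < 1) :
    TriA (DD x).cur (farD κ (h0 * x) (tbl tKF x) (tbl tL x)) 0 2 2 0 0 (-1) (-1) :=
  (sideF hx hx').farA (Or.inr rfl) (Or.inr rfl) fun y y' F r1 r2 =>
    farXA_cert (s1 := false) (s2 := false) rfl hκ (ka0 hκ hx hx') (xa0 hx) hx' (covF00 hx hx') (covF02 hx hx') (x1 hx) (x2 hx')
        Pool.Agent.Strip051.G.IE1.Tab.C.FA00.c_mm_022 (cutVA_cons (Pool.Agent.Strip051.G.IE1.Tab.St.C.s_A00mm_022_s1 hκ hx hx') (cutVA_cons (Pool.Agent.Strip051.G.IE1.Tab.St.C.s_A00mm_022_s3 hκ hx hx') cutVA_nil)) noExt_VA F r1 r2 r1 r2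

theorem FA00_mm_023 {κ x : ℝ} (hκ : κ * h0 = kenE x) (hx : 39 / 40 ≤ x) (hx' : x < 1) :
    TriA (DD x).cur (farD κ (h0 * x) (tbl tKF x) (tbl tL x)) 0 2 3 0 0 (-1) (-1) :=
  (sideF hx hx').farA (Or.inr rfl) (Or.inr rfl) fun y y' F r1 r2 =>
    farXA_cert (s1 := false) (s2 := false) rfl hκ (ka0 hκ hx hx') (xa0 hx) hx' (covF00 hx hx') (covF02 hx hx') (x1 hx) (x2 hx')
        Pool.Agent.Strip051.G.IE1.Tab.C.FA00.c_mm_023 (cutVA_cons (Pool.Agent.Strip051.G.IE1.Tab.St.C.s_A00mm_023_s1 hκ hx hx') (cutVA_cons (Pool.Agent.Strip051.G.IE1.Tab.St.C.s_A00mm_023_s3 hκ hx hx') cutVA_nil)) noExt_VA F r1 r2 r1 r2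

theorem FA00_mm_033 {κ x : ℝ} (hκ : κ * h0 = kenE x) (hx : 39 / 40 ≤ x) (hx' : x < 1) :
    TriA (DD x).cur (farD κ (h0 * x) (tbl tKF x) (tbl tL x)) 0 3 3 0 0 (-1) (-1) :=
  triVA_k0

theorem FA00_mm_101 {κ x : ℝ} (hκ : κ * h0 = kenE x) (hx : 39 / 40 ≤ x) (hx' : x < 1) :
    TriA (DD x).cur (farD κ (h0 * x) (tbl tKF x) (tbl tL x)) 1 0 1 0 0 (-1) (-1) :=
  (sideF hx hx').farA (Or.inr rfl) (Or.inr rfl) fun y y' F r1 r2 =>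
    farXA_cert (s1 := false) (s2 := false) rfl hκ (ka0 hκ hx hx') (xa0 hx) hx' (covF01 hx hx') (covF00 hx hx') (x1 hx) (x2 hx')
        Pool.Agent.Strip051.G.IE1.Tab.C.FA00.c_mm_101 (cutVA_cons (Pool.Agent.Strip051.G.IE1.Tab.St.C.s_A00mm_101_s1 hκ hx hx' (cutVA_cons (Pool.Agent.Strip051.G.IE1.Tab.qF_A00mm_101_101 hκ hx hx') cutVA_nil)) (cutVA_cons (Pool.Agent.Strip051.G.IE1.Tab.St.C.s_A00mm_101_s3 hκ hx hx' (cutVA_cons (Pool.Agent.Strip051.G.IE1.Tab.qF_A00mm_101_101 hκ hx hx') cutVA_nil)) (cutVA_cons (Pool.Agent.Strip051.G.IE1.Tab.qF_A00mm_101_101 hκ hx hx') cutVA_nil))) noExt_VA F r1 r2 r1 r2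

theorem FA00_mm_102 {κ x : ℝ} (hκ : κ * h0 = kenE x) (hx : 39 / 40 ≤ x) (hx' : x < 1) :
    TriA (DD x).cur (farD κ (h0 * x) (tbl tKF x) (tbl tL x)) 1 0 2 0 0 (-1) (-1) :=
  (sideF hx hx').farA (Or.inr rfl) (Or.inr rfl) fun y y' F r1 r2 =>
    farXA_cert (s1 := false) (s2 := false) rfl hκ (ka0 hκ hx hx') (xa0 hx) hx' (covF01 hx hx') (covF00 hx hx') (x1 hx) (x2 hx')
        Pool.Agent.Strip051.G.IE1.Tab.C.FA00.c_mm_102 (cutVA_cons (Pool.Agent.Strip051.G.IE1.Tab.St.C.s_A00mm_102_s1 hκ hx hx' (cutVA_cons (Pool.Agent.Strip051.G.IE1.Tab.qF_A00mm_102_101 hκ hx hx') cutVA_nil)) (cutVA_cons (Pool.Agent.Strip051.G.IE1.Tab.St.C.s_A00mm_102_s3 hκ hx hx' (cutVA_cons (Pool.Agent.Strip051.G.IE1.Tab.qF_A00mm_102_101 hκ hx hx') cutVA_nil)) (cutVA_cons (Pool.Agent.Strip051.G.IE1.Tab.qF_A00mm_102_101 hκ hx hx') cutVA_nil))) noExt_VA F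 r1 r2 r1 r2

theorem FA00_mm_112 {κ x : ℝ} (hκ : κ * h0 = kenE x) (hx : 39 / 40 ≤ x) (hx' : x < 1) :
    TriA (DD x).cur (farD κ (h0 * x) (tbl tKF x) (tbl tL x)) 1 1 2 0 0 (-1) (-1) :=
  (sideF hx hx').farA (Or.inr rfl) (Or.inr rfl) fun y y' F r1 r2 =>
    farXA_cert (s1 := false) (s2 := false) rfl hκ (ka0 hκ hx hx') (xa0 hx) hx' (covF01 hx hx') (covF01 hx hx') (x1 hx) (x2 hx')
        Pool.Agent.Strip051.G.IE1.Tab.C.FA00.c_mm_112 (cutVA_cons (Pool.Agent.Strip051.G.IE1.Tab.St.C.s_A00mm_112_s1 hκ hx hx') (cutVA_cons (Pool.Agent.Strip051.G.IE1.Tab.St.C.s_A00mm_112_s3 hκ hx hx') cutVA_nil)) noExt_VA F r1 r2 r1 r2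

theorem FA00_mm_113 {κ x : ℝ} (hκ : κ * h0 = kenE x) (hx : 39 / 40 ≤ x) (hx' : x < 1) :
    TriA (DD x).cur (farD κ (h0 * x) (tbl tKF x) (tbl tL x)) 1 1 3 0 0 (-1) (-1) :=
  (sideF hx hx').farA (Or.inr rfl) (Or.inr rfl) fun y y' F r1 r2 =>
    farXA_cert (s1 := false) (s2 := false) rfl hκ (ka0 hκ hx hx') (xa0 hx) hx' (covF01 hx hx') (covF01 hx hx') (x1 hx) (x2 hx')
        Pool.Agent.Strip051.G.IE1.Tab.C.FA00.c_mm_113 (cutVA_cons (Pool.Agent.Strip051.G.IE1.Tab.St.C.s_A00mm_113_s1 hκ hx hx') (cutVA_cons (Pool.Agent.Strip051.G.IE1.Tab.St.C.s_A00mm_113_s3 hκ hx hx') cutVA_nil)) noExt_VA F r1 r2 r1 r2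

theorem FA00_mm_123 {κ x : ℝ} (hκ : κ * h0 = kenE x) (hx : 39 / 40 ≤ x) (hx' : x < 1) :
    TriA (DD x).cur (farD κ (h0 * x) (tbl tKF x) (tbl tL x)) 1 2 3 0 0 (-1) (-1) :=
  (sideF hx hx').farA (Or.inr rfl) (Or.inr rfl) fun y y' F r1 r2 =>
    farXA_cert (s1 := false) (s2 := false) rfl hκ (ka0 hκ hx hx') (xa0 hx) hx' (covF01 hx hx') (covF02 hx hx') (x1 hx) (x2 hx')
        Pool.Agent.Strip051.G.IE1.Tab.C.FA00.c_mm_123 (cutVA_cons (Pool.Agent.Strip051.G.IE1.Tab.St.C.s_A00mm_123_s1 hκ hx hx') (cutVA_cons (Pool.Agent.Strip051.G.IE1.Tab.St.C.s_A00mm_123_s3 hκ hx hx') cutVA_nil)) noExt_VA F r1 r2 r1 r2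

theorem FA00_mm_133 {κ x : ℝ} (hκ : κ * h0 = kenE x) (hx : 39 / 40 ≤ x) (hx' : x < 1) :
    TriA (DD x).cur (farD κ (h0 * x) (tbl tKF x) (tbl tL x)) 1 3 3 0 0 (-1) (-1) :=
  triVA_k0

theorem FA00_mm_202 {κ x : ℝ} (hκ : κ * h0 = kenE x) (hx : 39 / 40 ≤ x) (hx' : x < 1) :
    TriA (DD x).cur (farD κ (h0 * x) (tbl tKF x) (tbl tL x)) 2 0 2 0 0 (-1) (-1) :=
  (sideF hx hx').farA (Or.inr rfl) (Or.inr rfl) fun y y' F r1 r2 =>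
    farXA_cert (s1 := false) (s2 := false) rfl hκ (ka0 hκ hx hx') (xa0 hx) hx' (covF02 hx hx') (covF00 hx hx') (x1 hx) (x2 hx')
        Pool.Agent.Strip051.G.IE1.Tab.C.FA00.c_mm_202 (cutVA_cons (Pool.Agent.Strip051.G.IE1.Tab.St.C.s_A00mm_202_s1 hκ hx hx' (cutVA_cons (Pool.Agent.Strip051.G.IE1.Tab.qF_A00mm_202_101 hκ hx hx') cutVA_nil)) (cutVA_cons (Pool.Agent.Strip051.G.IE1.Tab.St.C.s_A00mm_202_s3 hκ hx hx' (cutVA_cons (Pool.Agent.Strip051.G.IE1.Tab.qF_A00mm_202_101 hκ hx hx') cutVA_nil)) (cutVA_cons (Pool.Agent.Strip051.G.IE1.Tab.qF_A00mm_202_101 hκ hx hx') cutVA_nil))) noExt_VA F r1 r2 r1 r2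

theorem FA00_mm_203 {κ x : ℝ} (hκ : κ * h0 = kenE x) (hx : 39 / 40 ≤ x) (hx' : x < 1) :
    TriA (DD x).cur (farD κ (h0 * x) (tbl tKF x) (tbl tL x)) 2 0 3 0 0 (-1) (-1) :=
  (sideF hx hx').farA (Or.inr rfl) (Or.inr rfl) fun y y' F r1 r2 =>
    farXA_cert (s1 := false) (s2 := false) rfl hκ (ka0 hκ hx hx') (xa0 hx) hx' (covF02 hx hx') (covF00 hx hx') (x1 hx) (x2 hx')
        Pool.Agent.Strip051.G.IE1.Tab.C.FA00.c_mm_203 (cutVA_cons (Pool.Agent.Strip051.G.IE1.Tab.St.C.s_A00mm_203_s1 hκ hx hx') (cutVA_cons (Pool.Agent.Strip051.G.IE1.Tab.St.C.s_A00mm_203_s3 hκ hx hx') cutVA_nil)) noExt_VA F r1 r2 r1 r2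

theorem FA00_mm_213 {κ x : ℝ} (hκ : κ * h0 = kenE x) (hx : 39 / 40 ≤ x) (hx' : x < 1) :
    TriA (DD x).cur (farD κ (h0 * x) (tbl tKF x) (tbl tL x)) 2 1 3 0 0 (-1) (-1) :=
  (sideF hx hx').farA (Or.inr rfl) (Or.inr rfl) fun y y' F r1 r2 =>
    farXA_cert (s1 := false) (s2 := false) rfl hκ (ka0 hκ hx hx') (xa0 hx) hx' (covF02 hx hx') (covF01 hx hx') (x1 hx) (x2 hx')
        Pool.Agent.Strip051.G.IE1.Tab.C.FA00.c_mm_213 (cutVA_cons (Pool.Agent.Strip051.G.IE1.Tab.St.C.s_A00mm_213_s1 hκ hx hx') (cutVA_cons (Pool.Agent.Strip051.G.IE1.Tab.St.C.s_A00mm_213_s3 hκ hx hx') cutVA_nil)) noExt_VA F r1 r2 r1 r2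

theorem FA00_mm_303 {κ x : ℝ} (hκ : κ * h0 = kenE x) (hx : 39 / 40 ≤ x) (hx' : x < 1) :
    TriA (DD x).cur (farD κ (h0 * x) (tbl tKF x) (tbl tL x)) 3 0 3 0 0 (-1) (-1) :=
  triVA_j0

theorem FA00_mm_313 {κ x : ℝ} (hκ : κ * h0 = kenE x) (hx : 39 / 40 ≤ x) (hx' : x < 1) :
    TriA (DD x).cur (farD κ (h0 * x) (tbl tKF x) (tbl tL x)) 3 1 3 0 0 (-1) (-1) :=
  triVA_j0

theorem FA00 {κ x : ℝ} (hκ : κ * h0 = kenE x) (hx : 39 / 40 ≤ x) (hx' : x < 1) : AllTA (DD x).cur (farD κ (h0 * x) (tbl tKF x) (tbl tL x)) 0 0 where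
  pp := all17 (Q := fun a b c => TriA (DD x).cur (farD κ (h0 * x) (tbl tKF x) (tbl tL x)) a b c 0 0 1 1)
    (FA00_pp_001 hκ hx hx') (FA00_pp_011 hκ hx hx') (FA00_pp_012 hκ hx hx') (FA00_pp_022 hκ hx hx') (FA00_pp_023 hκ hx hx') (FA00_pp_033 hκ hx hx') (FA00_pp_101 hκ hx hx') (FA00_pp_102 hκ hx hx') (FA00_pp_112 hκ hx hx') (FA00_pp_113 hκ hx hx') (FA00_pp_123 hκ hx hx') (FA00_pp_133 hκ hx hx') (FA00_pp_202 hκ hx hx') (FA00_pp_203 hκ hx hx') (FA00_pp_213 hκ hx hx') (FA00_pp_303 hκ hx hx') (FA00_pp_313 hκ hx hx')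
  pm := all17 (Q := fun a b c => TriA (DD x).cur (farD κ (h0 * x) (tbl tKF x) (tbl tL x)) a b c 0 0 1 (-1))
    (FA00_pm_001 hκ hx hx') (FA00_pm_011 hκ hx hx') (FA00_pm_012 hκ hx hx') (FA00_pm_022 hκ hx hx') (FA00_pm_023 hκ hx hx') (FA00_pm_033 hκ hx hx') (FA00_pm_101 hκ hx hx') (FA00_pm_102 hκ hx hx') (FA00_pm_112 hκ hx hx') (FA00_pm_113 hκ hx hx') (FA00_pm_123 hκ hx hx') (FA00_pm_133 hκ hx hx') (FA00_pm_202 hκ hx hx') (FA00_pm_203 hκ hx hx') (FA00_pm_213 hκ hx hx') (FA00_pm_303 hκ hx hx') (FA00_pm_313 hκ hx hx')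
  mm := all17 (Q := fun a b c => TriA (DD x).cur (farD κ (h0 * x) (tbl tKF x) (tbl tL x)) a b c 0 0 (-1) (-1))
    (FA00_mm_001 hκ hx hx') (FA00_mm_011 hκ hx hx') (FA00_mm_012 hκ hx hx') (FA00_mm_022 hκ hx hx') (FA00_mm_023 hκ hx hx') (FA00_mm_033 hκ hx hx') (FA00_mm_101 hκ hx hx') (FA00_mm_102 hκ hx hx') (FA00_mm_112 hκ hx hx') (FA00_mm_113 hκ hx hx') (FA00_mm_123 hκ hx hx') (FA00_mm_133 hκ hx hx') (FA00_mm_202 hκ hx hx') (FA00_mm_203 hκ hx hx') (FA00_mm_213 hκ hx hx') (FA00_mm_303 hκ hx hx') (FA00_mm_313 hκ hx hx')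

theorem FA01_pp_001 {κ x : ℝ} (hκ : κ * h0 = kenE x) (hx : 39 / 40 ≤ x) (hx' : x < 1) :
    TriA (DD x).cur (farD κ (h0 * x) (tbl tKF x) (tbl tL x)) 0 0 1 0 1 1 1 :=
  (sideF hx hx').farA (Or.inl rfl) (Or.inl rfl) fun y y' F r1 r2 =>
    farXA_cert (s1 := true) (s2 := true) rfl hκ (ka0 hκ hx hx') (xa0 hx) hx' (covF00 hx hx') (covF10 hx hx') (x1 hx) (x2 hx')
        Pool.Agent.Strip051.G.IE1.Tab.C.FA01.c_pp_001 noCut_VA noExt_VA F r1 r2 r1 r2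

theorem FA01_pp_011 {κ x : ℝ} (hκ : κ * h0 = kenE x) (hx : 39 / 40 ≤ x) (hx' : x < 1) :
    TriA (DD x).cur (farD κ (h0 * x) (tbl tKF x) (tbl tL x)) 0 1 1 0 1 1 1 :=
  (sideF hx hx').farA (Or.inl rfl) (Or.inl rfl) fun y y' F r1 r2 =>
    farXA_cert (s1 := true) (s2 := true) rfl hκ (ka0 hκ hx hx') (xa0 hx) hx' (covF00 hx hx') (covF11 hx hx') (x1 hx) (x2 hx')
        Pool.Agent.Strip051.G.IE1.Tab.C.FA01.c_pp_011 noCut_VA noExt_VA F r1 r2 r1 r2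

theorem FA01_pp_012 {κ x : ℝ} (hκ : κ * h0 = kenE x) (hx : 39 / 40 ≤ x) (hx' : x < 1) :
    TriA (DD x).cur (farD κ (h0 * x) (tbl tKF x) (tbl tL x)) 0 1 2 0 1 1 1 :=
  (sideF hx hx').farA (Or.inl rfl) (Or.inl rfl) fun y y' F r1 r2 =>
    farXA_cert (s1 := true) (s2 := true) rfl hκ (ka0 hκ hx hx') (xa0 hx) hx' (covF00 hx hx') (covF11 hx hx') (x1 hx) (x2 hx')
        Pool.Agent.Strip051.G.IE1.Tab.C.FA01.c_pp_012 noCut_VA noExt_VA F r1 r2 r1 r2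

theorem FA01_pp_022 {κ x : ℝ} (hκ : κ * h0 = kenE x) (hx : 39 / 40 ≤ x) (hx' : x < 1) :
    TriA (DD x).cur (farD κ (h0 * x) (tbl tKF x) (tbl tL x)) 0 2 2 0 1 1 1 :=
  (sideF hx hx').farA (Or.inl rfl) (Or.inl rfl) fun y y' F r1 r2 =>
    (lt_or_ge (h0 * y') 1).elim
      (fun g => farXA_cert (s1 := true) (s2 := true) rfl hκ (ka0 hκ hx hx') (xa0 hx) hx' (covF00 hx hx') (covF12a hx hx') (x1 hx) (x2 hx')
        Pool.Agent.Strip051.G.IE1.Tab.C.FA01.c_pp_022_a noCut_VA noExt_VA F r1 r2 r1 ⟨r2, g⟩)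
      (fun g => farXA_cert (s1 := true) (s2 := true) rfl hκ (ka0 hκ hx hx') (xa0 hx) hx' (covF00 hx hx') (covF12b hx hx') (x1 hx) (x2 hx')
        Pool.Agent.Strip051.G.IE1.Tab.C.FA01.c_pp_022_b noCut_VA noExt_VA F r1 r2 r1 ⟨r2, g⟩)

theorem FA01_pp_023 {κ x : ℝ} (hκ : κ * h0 = kenE x) (hx : 39 / 40 ≤ x) (hx' : x < 1) :
    TriA (DD x).cur (farD κ (h0 * x) (tbl tKF x) (tbl tL x)) 0 2 3 0 1 1 1 :=
  (sideF hx hx').farA (Or.inl rfl) (Or.inl rfl) fun y y' F r1 r2 =>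
    (lt_or_ge (h0 * y') 1).elim
      (fun g => farXA_cert (s1 := true) (s2 := true) rfl hκ (ka0 hκ hx hx') (xa0 hx) hx' (covF00 hx hx') (covF12a hx hx') (x1 hx) (x2 hx')
        Pool.Agent.Strip051.G.IE1.Tab.C.FA01.c_pp_023_a noCut_VA noExt_VA F r1 r2 r1 ⟨r2, g⟩)
      (fun g => farXA_cert (s1 := true) (s2 := true) rfl hκ (ka0 hκ hx hx') (xa0 hx) hx' (covF00 hx hx') (covF12b hx hx') (x1 hx) (x2 hx')
        Pool.Agent.Strip051.G.IE1.Tab.C.FA01.c_pp_023_b noCut_VA noExt_VA F r1 r2 r1 ⟨r2, g⟩)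

theorem FA01_pp_033 {κ x : ℝ} (hκ : κ * h0 = kenE x) (hx : 39 / 40 ≤ x) (hx' : x < 1) :
    TriA (DD x).cur (farD κ (h0 * x) (tbl tKF x) (tbl tL x)) 0 3 3 0 1 1 1 :=
  (sideF hx hx').farA (Or.inl rfl) (Or.inl rfl) fun y y' F r1 r2 =>
    farXA_cert (s1 := true) (s2 := true) rfl hκ (ka0 hκ hx hx') (xa0 hx) hx' (covF00 hx hx') (covF13 hx hx') (x1 hx) (x2 hx')
        Pool.Agent.Strip051.G.IE1.Tab.C.FA01.c_pp_033 noCut_VA noExt_VA F r1 r2 r1 r2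

theorem FA01_pp_101 {κ x : ℝ} (hκ : κ * h0 = kenE x) (hx : 39 / 40 ≤ x) (hx' : x < 1) :
    TriA (DD x).cur (farD κ (h0 * x) (tbl tKF x) (tbl tL x)) 1 0 1 0 1 1 1 :=
  (sideF hx hx').farA (Or.inl rfl) (Or.inl rfl) fun y y' F r1 r2 =>
    farXA_cert (s1 := true) (s2 := true) rfl hκ (ka0 hκ hx hx') (xa0 hx) hx' (covF01 hx hx') (covF10 hx hx') (x1 hx) (x2 hx')
        Pool.Agent.Strip051.G.IE1.Tab.C.FA01.c_pp_101 noCut_VA noExt_VA F r1 r2 r1 r2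

theorem FA01_pp_102 {κ x : ℝ} (hκ : κ * h0 = kenE x) (hx : 39 / 40 ≤ x) (hx' : x < 1) :
    TriA (DD x).cur (farD κ (h0 * x) (tbl tKF x) (tbl tL x)) 1 0 2 0 1 1 1 :=
  (sideF hx hx').farA (Or.inl rfl) (Or.inl rfl) fun y y' F r1 r2 =>
    farXA_cert (s1 := true) (s2 := true) rfl hκ (ka0 hκ hx hx') (xa0 hx) hx' (covF01 hx hx') (covF10 hx hx') (x1 hx) (x2 hx')
        Pool.Agent.Strip051.G.IE1.Tab.C.FA01.c_pp_102 noCut_VA noExt_VA F r1 r2 r1 r2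

theorem FA01_pp_112 {κ x : ℝ} (hκ : κ * h0 = kenE x) (hx : 39 / 40 ≤ x) (hx' : x < 1) :
    TriA (DD x).cur (farD κ (h0 * x) (tbl tKF x) (tbl tL x)) 1 1 2 0 1 1 1 :=
  (sideF hx hx').farA (Or.inl rfl) (Or.inl rfl) fun y y' F r1 r2 =>
    farXA_cert (s1 := true) (s2 := true) rfl hκ (ka0 hκ hx hx') (xa0 hx) hx' (covF01 hx hx') (covF11 hx hx') (x1 hx) (x2 hx')
        Pool.Agent.Strip051.G.IE1.Tab.C.FA01.c_pp_112 noCut_VA noExt_VA F r1 r2 r1 r2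

theorem FA01_pp_113 {κ x : ℝ} (hκ : κ * h0 = kenE x) (hx : 39 / 40 ≤ x) (hx' : x < 1) :
    TriA (DD x).cur (farD κ (h0 * x) (tbl tKF x) (tbl tL x)) 1 1 3 0 1 1 1 :=
  (sideF hx hx').farA (Or.inl rfl) (Or.inl rfl) fun y y' F r1 r2 =>
    farXA_cert (s1 := true) (s2 := true) rfl hκ (ka0 hκ hx hx') (xa0 hx) hx' (covF01 hx hx') (covF11 hx hx') (x1 hx) (x2 hx')
        Pool.Agent.Strip051.G.IE1.Tab.C.FA01.c_pp_113 noCut_VA noExt_VA F r1 r2 r1 r2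

theorem FA01_pp_123 {κ x : ℝ} (hκ : κ * h0 = kenE x) (hx : 39 / 40 ≤ x) (hx' : x < 1) :
    TriA (DD x).cur (farD κ (h0 * x) (tbl tKF x) (tbl tL x)) 1 2 3 0 1 1 1 :=
  (sideF hx hx').farA (Or.inl rfl) (Or.inl rfl) fun y y' F r1 r2 =>
    (lt_or_ge (h0 * y') 1).elim
      (fun g => farXA_cert (s1 := true) (s2 := true) rfl hκ (ka0 hκ hx hx') (xa0 hx) hx' (covF01 hx hx') (covF12a hx hx') (x1 hx) (x2 hx')
        Pool.Agent.Strip051.G.IE1.Tab.C.FA01.c_pp_123_a noCut_VA noExt_VA F r1 r2 r1 ⟨r2, g⟩)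
      (fun g => farXA_cert (s1 := true) (s2 := true) rfl hκ (ka0 hκ hx hx') (xa0 hx) hx' (covF01 hx hx') (covF12b hx hx') (x1 hx) (x2 hx')
        Pool.Agent.Strip051.G.IE1.Tab.C.FA01.c_pp_123_b noCut_VA noExt_VA F r1 r2 r1 ⟨r2, g⟩)

theorem FA01_pp_133 {κ x : ℝ} (hκ : κ * h0 = kenE x) (hx : 39 / 40 ≤ x) (hx' : x < 1) :
    TriA (DD x).cur (farD κ (h0 * x) (tbl tKF x) (tbl tL x)) 1 3 3 0 1 1 1 :=
  (sideF hx hx').farA (Or.inl rfl) (Or.inl rfl) fun y y' F r1 r2 =>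
    farXA_cert (s1 := true) (s2 := true) rfl hκ (ka0 hκ hx hx') (xa0 hx) hx' (covF01 hx hx') (covF13 hx hx') (x1 hx) (x2 hx')
        Pool.Agent.Strip051.G.IE1.Tab.C.FA01.c_pp_133 noCut_VA noExt_VA F r1 r2 r1 r2

theorem FA01_pp_202 {κ x : ℝ} (hκ : κ * h0 = kenE x) (hx : 39 / 40 ≤ x) (hx' : x < 1) :
    TriA (DD x).cur (farD κ (h0 * x) (tbl tKF x) (tbl tL x)) 2 0 2 0 1 1 1 :=
  (sideF hx hx').farA (Or.inl rfl) (Or.inl rfl) fun y y' F r1 r2 =>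
    farXA_cert (s1 := true) (s2 := true) rfl hκ (ka0 hκ hx hx') (xa0 hx) hx' (covF02 hx hx') (covF10 hx hx') (x1 hx) (x2 hx')
        Pool.Agent.Strip051.G.IE1.Tab.C.FA01.c_pp_202 noCut_VA noExt_VA F r1 r2 r1 r2

theorem FA01_pp_203 {κ x : ℝ} (hκ : κ * h0 = kenE x) (hx : 39 / 40 ≤ x) (hx' : x < 1) :
    TriA (DD x).cur (farD κ (h0 * x) (tbl tKF x) (tbl tL x)) 2 0 3 0 1 1 1 :=
  (sideF hx hx').farA (Or.inl rfl) (Or.inl rfl) fun y y' F r1 r2 =>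
    farXA_cert (s1 := true) (s2 := true) rfl hκ (ka0 hκ hx hx') (xa0 hx) hx' (covF02 hx hx') (covF10 hx hx') (x1 hx) (x2 hx')
        Pool.Agent.Strip051.G.IE1.Tab.C.FA01.c_pp_203 noCut_VA noExt_VA F r1 r2 r1 r2

theorem FA01_pp_213 {κ x : ℝ} (hκ : κ * h0 = kenE x) (hx : 39 / 40 ≤ x) (hx' : x < 1) :
    TriA (DD x).cur (farD κ (h0 * x) (tbl tKF x) (tbl tL x)) 2 1 3 0 1 1 1 :=
  (sideF hx hx').farA (Or.inl rfl) (Or.inl rfl) fun y y' F r1 r2 =>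
    farXA_cert (s1 := true) (s2 := true) rfl hκ (ka0 hκ hx hx') (xa0 hx) hx' (covF02 hx hx') (covF11 hx hx') (x1 hx) (x2 hx')
        Pool.Agent.Strip051.G.IE1.Tab.C.FA01.c_pp_213 noCut_VA noExt_VA F r1 r2 r1 r2

theorem FA01_pp_303 {κ x : ℝ} (hκ : κ * h0 = kenE x) (hx : 39 / 40 ≤ x) (hx' : x < 1) :
    TriA (DD x).cur (farD κ (h0 * x) (tbl tKF x) (tbl tL x)) 3 0 3 0 1 1 1 :=
  triVA_j0

theorem FA01_pp_313 {κ x : ℝ} (hκ : κ * h0 = kenE x) (hx : 39 / 40 ≤ x) (hx' : x < 1) :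
    TriA (DD x).cur (farD κ (h0 * x) (tbl tKF x) (tbl tL x)) 3 1 3 0 1 1 1 :=
  triVA_j0

theorem FA01_pm_001 {κ x : ℝ} (hκ : κ * h0 = kenE x) (hx : 39 / 40 ≤ x) (hx' : x < 1) :
    TriA (DD x).cur (farD κ (h0 * x) (tbl tKF x) (tbl tL x)) 0 0 1 0 1 1 (-1) :=
  (sideF hx hx').farA (Or.inl rfl) (Or.inr rfl) fun y y' F r1 r2 =>
    farXA_cert (s1 := true) (s2 := false) rfl hκ (ka0 hκ hx hx') (xa0 hx) hx' (covF00 hx hx') (covF10 hx hx') (x1 hx) (x2 hx')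
        Pool.Agent.Strip051.G.IE1.Tab.C.FA01.c_pm_001 noCut_VA noExt_VA F r1 r2 r1 r2

theorem FA01_pm_011 {κ x : ℝ} (hκ : κ * h0 = kenE x) (hx : 39 / 40 ≤ x) (hx' : x < 1) :
    TriA (DD x).cur (farD κ (h0 * x) (tbl tKF x) (tbl tL x)) 0 1 1 0 1 1 (-1) :=
  (sideF hx hx').farA (Or.inl rfl) (Or.inr rfl) fun y y' F r1 r2 =>
    farXA_cert (s1 := true) (s2 := false) rfl hκ (ka0 hκ hx hx') (xa0 hx) hx' (covF00 hx hx') (covF11 hx hx') (x1 hx) (x2 hx')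
        Pool.Agent.Strip051.G.IE1.Tab.C.FA01.c_pm_011 noCut_VA noExt_VA F r1 r2 r1 r2

theorem FA01_pm_012 {κ x : ℝ} (hκ : κ * h0 = kenE x) (hx : 39 / 40 ≤ x) (hx' : x < 1) :
    TriA (DD x).cur (farD κ (h0 * x) (tbl tKF x) (tbl tL x)) 0 1 2 0 1 1 (-1) :=
  (sideF hx hx').farA (Or.inl rfl) (Or.inr rfl) fun y y' F r1 r2 =>
    farXA_cert (s1 := true) (s2 := false) rfl hκ (ka0 hκ hx hx') (xa0 hx) hx' (covF00 hx hx') (covF11 hx hx') (x1 hx) (x2 hx')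
        Pool.Agent.Strip051.G.IE1.Tab.C.FA01.c_pm_012 noCut_VA noExt_VA F r1 r2 r1 r2

theorem FA01_pm_022 {κ x : ℝ} (hκ : κ * h0 = kenE x) (hx : 39 / 40 ≤ x) (hx' : x < 1) :
    TriA (DD x).cur (farD κ (h0 * x) (tbl tKF x) (tbl tL x)) 0 2 2 0 1 1 (-1) :=
  (sideF hx hx').farA (Or.inl rfl) (Or.inr rfl) fun y y' F r1 r2 =>
    (lt_or_ge (h0 * y') 1).elim
      (fun g => farXA_cert (s1 := true) (s2 := false) rfl hκ (ka0 hκ hx hx') (xa0 hx) hx' (covF00 hx hx') (covF12a hx hx') (x1 hx) (x2 hx')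
        Pool.Agent.Strip051.G.IE1.Tab.C.FA01.c_pm_022_a noCut_VA noExt_VA F r1 r2 r1 ⟨r2, g⟩)
      (fun g => farXA_cert (s1 := true) (s2 := false) rfl hκ (ka0 hκ hx hx') (xa0 hx) hx' (covF00 hx hx') (covF12b hx hx') (x1 hx) (x2 hx')
        Pool.Agent.Strip051.G.IE1.Tab.C.FA01.c_pm_022_b noCut_VA noExt_VA F r1 r2 r1 ⟨r2, g⟩)

theorem FA01_pm_023 {κ x : ℝ} (hκ : κ * h0 = kenE x) (hx : 39 / 40 ≤ x) (hx' : x < 1) :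
    TriA (DD x).cur (farD κ (h0 * x) (tbl tKF x) (tbl tL x)) 0 2 3 0 1 1 (-1) :=
  (sideF hx hx').farA (Or.inl rfl) (Or.inr rfl) fun y y' F r1 r2 =>
    (lt_or_ge (h0 * y') 1).elim
      (fun g => farXA_cert (s1 := true) (s2 := false) rfl hκ (ka0 hκ hx hx') (xa0 hx) hx' (covF00 hx hx') (covF12a hx hx') (x1 hx) (x2 hx')
        Pool.Agent.Strip051.G.IE1.Tab.C.FA01.c_pm_023_a noCut_VA noExt_VA F r1 r2 r1 ⟨r2, g⟩)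
      (fun g => farXA_cert (s1 := true) (s2 := false) rfl hκ (ka0 hκ hx hx') (xa0 hx) hx' (covF00 hx hx') (covF12b hx hx') (x1 hx) (x2 hx')
        Pool.Agent.Strip051.G.IE1.Tab.C.FA01.c_pm_023_b noCut_VA noExt_VA F r1 r2 r1 ⟨r2, g⟩)

theorem FA01_pm_033 {κ x : ℝ} (hκ : κ * h0 = kenE x) (hx : 39 / 40 ≤ x) (hx' : x < 1) :
    TriA (DD x).cur (farD κ (h0 * x) (tbl tKF x) (tbl tL x)) 0 3 3 0 1 1 (-1) :=
  (sideF hx hx').farA (Or.inl rfl) (Or.inr rfl) fun y y' F r1 r2 =>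
    farXA_cert (s1 := true) (s2 := false) rfl hκ (ka0 hκ hx hx') (xa0 hx) hx' (covF00 hx hx') (covF13 hx hx') (x1 hx) (x2 hx')
        Pool.Agent.Strip051.G.IE1.Tab.C.FA01.c_pm_033 noCut_VA noExt_VA F r1 r2 r1 r2

theorem FA01_pm_101 {κ x : ℝ} (hκ : κ * h0 = kenE x) (hx : 39 / 40 ≤ x) (hx' : x < 1) :
    TriA (DD x).cur (farD κ (h0 * x) (tbl tKF x) (tbl tL x)) 1 0 1 0 1 1 (-1) :=
  (sideF hx hx').farA (Or.inl rfl) (Or.inr rfl) fun y y' F r1 r2 =>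
    farXA_cert (s1 := true) (s2 := false) rfl hκ (ka0 hκ hx hx') (xa0 hx) hx' (covF01 hx hx') (covF10 hx hx') (x1 hx) (x2 hx')
        Pool.Agent.Strip051.G.IE1.Tab.C.FA01.c_pm_101 noCut_VA noExt_VA F r1 r2 r1 r2

theorem FA01_pm_102 {κ x : ℝ} (hκ : κ * h0 = kenE x) (hx : 39 / 40 ≤ x) (hx' : x < 1) :
    TriA (DD x).cur (farD κ (h0 * x) (tbl tKF x) (tbl tL x)) 1 0 2 0 1 1 (-1) :=
  (sideF hx hx').farA (Or.inl rfl) (Or.inr rfl) fun y y' F r1 r2 =>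
    farXA_cert (s1 := true) (s2 := false) rfl hκ (ka0 hκ hx hx') (xa0 hx) hx' (covF01 hx hx') (covF10 hx hx') (x1 hx) (x2 hx')
        Pool.Agent.Strip051.G.IE1.Tab.C.FA01.c_pm_102 noCut_VA noExt_VA F r1 r2 r1 r2

theorem FA01_pm_112 {κ x : ℝ} (hκ : κ * h0 = kenE x) (hx : 39 / 40 ≤ x) (hx' : x < 1) :
    TriA (DD x).cur (farD κ (h0 * x) (tbl tKF x) (tbl tL x)) 1 1 2 0 1 1 (-1) :=
  (sideF hx hx').farA (Or.inl rfl) (Or.inr rfl) fun y y' F r1 r2 =>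
    farXA_cert (s1 := true) (s2 := false) rfl hκ (ka0 hκ hx hx') (xa0 hx) hx' (covF01 hx hx') (covF11 hx hx') (x1 hx) (x2 hx')
        Pool.Agent.Strip051.G.IE1.Tab.C.FA01.c_pm_112 noCut_VA noExt_VA F r1 r2 r1 r2

theorem FA01_pm_113 {κ x : ℝ} (hκ : κ * h0 = kenE x) (hx : 39 / 40 ≤ x) (hx' : x < 1) :
    TriA (DD x).cur (farD κ (h0 * x) (tbl tKF x) (tbl tL x)) 1 1 3 0 1 1 (-1) :=
  (sideF hx hx').farA (Or.inl rfl) (Or.inr rfl) fun y y' F r1 r2 =>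
    farXA_cert (s1 := true) (s2 := false) rfl hκ (ka0 hκ hx hx') (xa0 hx) hx' (covF01 hx hx') (covF11 hx hx') (x1 hx) (x2 hx')
        Pool.Agent.Strip051.G.IE1.Tab.C.FA01.c_pm_113 noCut_VA noExt_VA F r1 r2 r1 r2

theorem FA01_pm_123 {κ x : ℝ} (hκ : κ * h0 = kenE x) (hx : 39 / 40 ≤ x) (hx' : x < 1) :
    TriA (DD x).cur (farD κ (h0 * x) (tbl tKF x) (tbl tL x)) 1 2 3 0 1 1 (-1) :=
  (sideF hx hx').farA (Or.inl rfl) (Or.inr rfl) fun y y' F r1 r2 =>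
    (lt_or_ge (h0 * y') 1).elim
      (fun g => farXA_cert (s1 := true) (s2 := false) rfl hκ (ka0 hκ hx hx') (xa0 hx) hx' (covF01 hx hx') (covF12a hx hx') (x1 hx) (x2 hx')
        Pool.Agent.Strip051.G.IE1.Tab.C.FA01.c_pm_123_a noCut_VA noExt_VA F r1 r2 r1 ⟨r2, g⟩)
      (fun g => farXA_cert (s1 := true) (s2 := false) rfl hκ (ka0 hκ hx hx') (xa0 hx) hx' (covF01 hx hx') (covF12b hx hx') (x1 hx) (x2 hx')
        Pool.Agent.Strip051.G.IE1.Tab.C.FA01.c_pm_123_b noCut_VA noExt_VA F r1 r2 r1 ⟨r2, g⟩)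

theorem FA01_pm_133 {κ x : ℝ} (hκ : κ * h0 = kenE x) (hx : 39 / 40 ≤ x) (hx' : x < 1) :
    TriA (DD x).cur (farD κ (h0 * x) (tbl tKF x) (tbl tL x)) 1 3 3 0 1 1 (-1) :=
  (sideF hx hx').farA (Or.inl rfl) (Or.inr rfl) fun y y' F r1 r2 =>
    farXA_cert (s1 := true) (s2 := false) rfl hκ (ka0 hκ hx hx') (xa0 hx) hx' (covF01 hx hx') (covF13 hx hx') (x1 hx) (x2 hx')
        Pool.Agent.Strip051.G.IE1.Tab.C.FA01.c_pm_133 noCut_VA noExt_VA F r1 r2 r1 r2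

theorem FA01_pm_202 {κ x : ℝ} (hκ : κ * h0 = kenE x) (hx : 39 / 40 ≤ x) (hx' : x < 1) :
    TriA (DD x).cur (farD κ (h0 * x) (tbl tKF x) (tbl tL x)) 2 0 2 0 1 1 (-1) :=
  (sideF hx hx').farA (Or.inl rfl) (Or.inr rfl) fun y y' F r1 r2 =>
    farXA_cert (s1 := true) (s2 := false) rfl hκ (ka0 hκ hx hx') (xa0 hx) hx' (covF02 hx hx') (covF10 hx hx') (x1 hx) (x2 hx')
        Pool.Agent.Strip051.G.IE1.Tab.C.FA01.c_pm_202 noCut_VA noExt_VA F r1 r2 r1 r2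

theorem FA01_pm_203 {κ x : ℝ} (hκ : κ * h0 = kenE x) (hx : 39 / 40 ≤ x) (hx' : x < 1) :
    TriA (DD x).cur (farD κ (h0 * x) (tbl tKF x) (tbl tL x)) 2 0 3 0 1 1 (-1) :=
  (sideF hx hx').farA (Or.inl rfl) (Or.inr rfl) fun y y' F r1 r2 =>
    farXA_cert (s1 := true) (s2 := false) rfl hκ (ka0 hκ hx hx') (xa0 hx) hx' (covF02 hx hx') (covF10 hx hx') (x1 hx) (x2 hx')
        Pool.Agent.Strip051.G.IE1.Tab.C.FA01.c_pm_203 noCut_VA noExt_VA F r1 r2 r1 r2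

theorem FA01_pm_213 {κ x : ℝ} (hκ : κ * h0 = kenE x) (hx : 39 / 40 ≤ x) (hx' : x < 1) :
    TriA (DD x).cur (farD κ (h0 * x) (tbl tKF x) (tbl tL x)) 2 1 3 0 1 1 (-1) :=
  (sideF hx hx').farA (Or.inl rfl) (Or.inr rfl) fun y y' F r1 r2 =>
    farXA_cert (s1 := true) (s2 := false) rfl hκ (ka0 hκ hx hx') (xa0 hx) hx' (covF02 hx hx') (covF11 hx hx') (x1 hx) (x2 hx')
        Pool.Agent.Strip051.G.IE1.Tab.C.FA01.c_pm_213 noCut_VA noExt_VA F r1 r2 r1 r2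

theorem FA01_pm_303 {κ x : ℝ} (hκ : κ * h0 = kenE x) (hx : 39 / 40 ≤ x) (hx' : x < 1) :
    TriA (DD x).cur (farD κ (h0 * x) (tbl tKF x) (tbl tL x)) 3 0 3 0 1 1 (-1) :=
  triVA_j0

theorem FA01_pm_313 {κ x : ℝ} (hκ : κ * h0 = kenE x) (hx : 39 / 40 ≤ x) (hx' : x < 1) :
    TriA (DD x).cur (farD κ (h0 * x) (tbl tKF x) (tbl tL x)) 3 1 3 0 1 1 (-1) :=
  triVA_j0

theorem FA01_mm_001 {κ x : ℝ} (hκ : κ * h0 = kenE x) (hx : 39 / 40 ≤ x) (hx' : x < 1) :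
    TriA (DD x).cur (farD κ (h0 * x) (tbl tKF x) (tbl tL x)) 0 0 1 0 1 (-1) (-1) :=
  (sideF hx hx').farA (Or.inr rfl) (Or.inr rfl) fun y y' F r1 r2 =>
    farXA_cert (s1 := false) (s2 := false) rfl hκ (ka0 hκ hx hx') (xa0 hx) hx' (covF00 hx hx') (covF10 hx hx') (x1 hx) (x2 hx')
        Pool.Agent.Strip051.G.IE1.Tab.C.FA01.c_mm_001 noCut_VA noExt_VA F r1 r2 r1 r2

theorem FA01_mm_011 {κ x : ℝ} (hκ : κ * h0 = kenE x) (hx : 39 / 40 ≤ x) (hx' : x < 1) :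
    TriA (DD x).cur (farD κ (h0 * x) (tbl tKF x) (tbl tL x)) 0 1 1 0 1 (-1) (-1) :=
  (sideF hx hx').farA (Or.inr rfl) (Or.inr rfl) fun y y' F r1 r2 =>
    farXA_cert (s1 := false) (s2 := false) rfl hκ (ka0 hκ hx hx') (xa0 hx) hx' (covF00 hx hx') (covF11 hx hx') (x1 hx) (x2 hx')
        Pool.Agent.Strip051.G.IE1.Tab.C.FA01.c_mm_011 noCut_VA noExt_VA F r1 r2 r1 r2

theorem FA01_mm_012 {κ x : ℝ} (hκ : κ * h0 = kenE x) (hx : 39 / 40 ≤ x) (hx' : x < 1) :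
    TriA (DD x).cur (farD κ (h0 * x) (tbl tKF x) (tbl tL x)) 0 1 2 0 1 (-1) (-1) :=
  (sideF hx hx').farA (Or.inr rfl) (Or.inr rfl) fun y y' F r1 r2 =>
    farXA_cert (s1 := false) (s2 := false) rfl hκ (ka0 hκ hx hx') (xa0 hx) hx' (covF00 hx hx') (covF11 hx hx') (x1 hx) (x2 hx')
        Pool.Agent.Strip051.G.IE1.Tab.C.FA01.c_mm_012 noCut_VA noExt_VA F r1 r2 r1 r2

theorem FA01_mm_022 {κ x : ℝ} (hκ : κ * h0 = kenE x) (hx : 39 / 40 ≤ x) (hx' : x < 1) :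
    TriA (DD x).cur (farD κ (h0 * x) (tbl tKF x) (tbl tL x)) 0 2 2 0 1 (-1) (-1) :=
  (sideF hx hx').farA (Or.inr rfl) (Or.inr rfl) fun y y' F r1 r2 =>
    (lt_or_ge (h0 * y') 1).elim
      (fun g => farXA_cert (s1 := false) (s2 := false) rfl hκ (ka0 hκ hx hx') (xa0 hx) hx' (covF00 hx hx') (covF12a hx hx') (x1 hx) (x2 hx')
        Pool.Agent.Strip051.G.IE1.Tab.C.FA01.c_mm_022_a noCut_VA noExt_VA F r1 r2 r1 ⟨r2, g⟩)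
      (fun g => farXA_cert (s1 := false) (s2 := false) rfl hκ (ka0 hκ hx hx') (xa0 hx) hx' (covF00 hx hx') (covF12b hx hx') (x1 hx) (x2 hx')
        Pool.Agent.Strip051.G.IE1.Tab.C.FA01.c_mm_022_b noCut_VA noExt_VA F r1 r2 r1 ⟨r2, g⟩)

theorem FA01_mm_023 {κ x : ℝ} (hκ : κ * h0 = kenE x) (hx : 39 / 40 ≤ x) (hx' : x < 1) :
    TriA (DD x).cur (farD κ (h0 * x) (tbl tKF x) (tbl tL x)) 0 2 3 0 1 (-1) (-1) :=
  (sideF hx hx').farA (Or.inr rfl) (Or.inr rfl) fun y y' F r1 r2 =>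
    (lt_or_ge (h0 * y') 1).elim
      (fun g => farXA_cert (s1 := false) (s2 := false) rfl hκ (ka0 hκ hx hx') (xa0 hx) hx' (covF00 hx hx') (covF12a hx hx') (x1 hx) (x2 hx')
        Pool.Agent.Strip051.G.IE1.Tab.C.FA01.c_mm_023_a noCut_VA noExt_VA F r1 r2 r1 ⟨r2, g⟩)
      (fun g => farXA_cert (s1 := false) (s2 := false) rfl hκ (ka0 hκ hx hx') (xa0 hx) hx' (covF00 hx hx') (covF12b hx hx') (x1 hx) (x2 hx')
        Pool.Agent.Strip051.G.IE1.Tab.C.FA01.c_mm_023_b noCut_VA noExt_VA F r1 r2 r1 ⟨r2, g⟩)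

theorem FA01_mm_033 {κ x : ℝ} (hκ : κ * h0 = kenE x) (hx : 39 / 40 ≤ x) (hx' : x < 1) :
    TriA (DD x).cur (farD κ (h0 * x) (tbl tKF x) (tbl tL x)) 0 3 3 0 1 (-1) (-1) :=
  (sideF hx hx').farA (Or.inr rfl) (Or.inr rfl) fun y y' F r1 r2 =>
    farXA_cert (s1 := false) (s2 := false) rfl hκ (ka0 hκ hx hx') (xa0 hx) hx' (covF00 hx hx') (covF13 hx hx') (x1 hx) (x2 hx')
        Pool.Agent.Strip051.G.IE1.Tab.C.FA01.c_mm_033 noCut_VA noExt_VA F r1 r2 r1 r2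

theorem FA01_mm_101 {κ x : ℝ} (hκ : κ * h0 = kenE x) (hx : 39 / 40 ≤ x) (hx' : x < 1) :
    TriA (DD x).cur (farD κ (h0 * x) (tbl tKF x) (tbl tL x)) 1 0 1 0 1 (-1) (-1) :=
  (sideF hx hx').farA (Or.inr rfl) (Or.inr rfl) fun y y' F r1 r2 =>
    farXA_cert (s1 := false) (s2 := false) rfl hκ (ka0 hκ hx hx') (xa0 hx) hx' (covF01 hx hx') (covF10 hx hx') (x1 hx) (x2 hx')
        Pool.Agent.Strip051.G.IE1.Tab.C.FA01.c_mm_101 noCut_VA noExt_VA F r1 r2 r1 r2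

theorem FA01_mm_102 {κ x : ℝ} (hκ : κ * h0 = kenE x) (hx : 39 / 40 ≤ x) (hx' : x < 1) :
    TriA (DD x).cur (farD κ (h0 * x) (tbl tKF x) (tbl tL x)) 1 0 2 0 1 (-1) (-1) :=
  (sideF hx hx').farA (Or.inr rfl) (Or.inr rfl) fun y y' F r1 r2 =>
    farXA_cert (s1 := false) (s2 := false) rfl hκ (ka0 hκ hx hx') (xa0 hx) hx' (covF01 hx hx') (covF10 hx hx') (x1 hx) (x2 hx')
        Pool.Agent.Strip051.G.IE1.Tab.C.FA01.c_mm_102 noCut_VA noExt_VA F r1 r2 r1 r2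

theorem FA01_mm_112 {κ x : ℝ} (hκ : κ * h0 = kenE x) (hx : 39 / 40 ≤ x) (hx' : x < 1) :
    TriA (DD x).cur (farD κ (h0 * x) (tbl tKF x) (tbl tL x)) 1 1 2 0 1 (-1) (-1) :=
  (sideF hx hx').farA (Or.inr rfl) (Or.inr rfl) fun y y' F r1 r2 =>
    farXA_cert (s1 := false) (s2 := false) rfl hκ (ka0 hκ hx hx') (xa0 hx) hx' (covF01 hx hx') (covF11 hx hx') (x1 hx) (x2 hx')
        Pool.Agent.Strip051.G.IE1.Tab.C.FA01.c_mm_112 noCut_VA noExt_VA F r1 r2 r1 r2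

theorem FA01_mm_113 {κ x : ℝ} (hκ : κ * h0 = kenE x) (hx : 39 / 40 ≤ x) (hx' : x < 1) :
    TriA (DD x).cur (farD κ (h0 * x) (tbl tKF x) (tbl tL x)) 1 1 3 0 1 (-1) (-1) :=
  (sideF hx hx').farA (Or.inr rfl) (Or.inr rfl) fun y y' F r1 r2 =>
    farXA_cert (s1 := false) (s2 := false) rfl hκ (ka0 hκ hx hx') (xa0 hx) hx' (covF01 hx hx') (covF11 hx hx') (x1 hx) (x2 hx')
        Pool.Agent.Strip051.G.IE1.Tab.C.FA01.c_mm_113 noCut_VA noExt_VA F r1 r2 r1 r2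

theorem FA01_mm_123 {κ x : ℝ} (hκ : κ * h0 = kenE x) (hx : 39 / 40 ≤ x) (hx' : x < 1) :
    TriA (DD x).cur (farD κ (h0 * x) (tbl tKF x) (tbl tL x)) 1 2 3 0 1 (-1) (-1) :=
  (sideF hx hx').farA (Or.inr rfl) (Or.inr rfl) fun y y' F r1 r2 =>
    (lt_or_ge (h0 * y') 1).elim
      (fun g => farXA_cert (s1 := false) (s2 := false) rfl hκ (ka0 hκ hx hx') (xa0 hx) hx' (covF01 hx hx') (covF12a hx hx') (x1 hx) (x2 hx')
        Pool.Agent.Strip051.G.IE1.Tab.C.FA01.c_mm_123_a noCut_VA noExt_VA F r1 r2 r1 ⟨r2, g⟩)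
      (fun g => farXA_cert (s1 := false) (s2 := false) rfl hκ (ka0 hκ hx hx') (xa0 hx) hx' (covF01 hx hx') (covF12b hx hx') (x1 hx) (x2 hx')
        Pool.Agent.Strip051.G.IE1.Tab.C.FA01.c_mm_123_b noCut_VA noExt_VA F r1 r2 r1 ⟨r2, g⟩)

theorem FA01_mm_133 {κ x : ℝ} (hκ : κ * h0 = kenE x) (hx : 39 / 40 ≤ x) (hx' : x < 1) :
    TriA (DD x).cur (farD κ (h0 * x) (tbl tKF x) (tbl tL x)) 1 3 3 0 1 (-1) (-1) :=
  (sideF hx hx').farA (Or.inr rfl) (Or.inr rfl) fun y y' F r1 r2 =>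
    farXA_cert (s1 := false) (s2 := false) rfl hκ (ka0 hκ hx hx') (xa0 hx) hx' (covF01 hx hx') (covF13 hx hx') (x1 hx) (x2 hx')
        Pool.Agent.Strip051.G.IE1.Tab.C.FA01.c_mm_133 noCut_VA noExt_VA F r1 r2 r1 r2

theorem FA01_mm_202 {κ x : ℝ} (hκ : κ * h0 = kenE x) (hx : 39 / 40 ≤ x) (hx' : x < 1) :
    TriA (DD x).cur (farD κ (h0 * x) (tbl tKF x) (tbl tL x)) 2 0 2 0 1 (-1) (-1) :=
  (sideF hx hx').farA (Or.inr rfl) (Or.inr rfl) fun y y' F r1 r2 =>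
    farXA_cert (s1 := false) (s2 := false) rfl hκ (ka0 hκ hx hx') (xa0 hx) hx' (covF02 hx hx') (covF10 hx hx') (x1 hx) (x2 hx')
        Pool.Agent.Strip051.G.IE1.Tab.C.FA01.c_mm_202 noCut_VA noExt_VA F r1 r2 r1 r2

theorem FA01_mm_203 {κ x : ℝ} (hκ : κ * h0 = kenE x) (hx : 39 / 40 ≤ x) (hx' : x < 1) :
    TriA (DD x).cur (farD κ (h0 * x) (tbl tKF x) (tbl tL x)) 2 0 3 0 1 (-1) (-1) :=
  (sideF hx hx').farA (Or.inr rfl) (Or.inr rfl) fun y y' F r1 r2 =>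
    farXA_cert (s1 := false) (s2 := false) rfl hκ (ka0 hκ hx hx') (xa0 hx) hx' (covF02 hx hx') (covF10 hx hx') (x1 hx) (x2 hx')
        Pool.Agent.Strip051.G.IE1.Tab.C.FA01.c_mm_203 noCut_VA noExt_VA F r1 r2 r1 r2

theorem FA01_mm_213 {κ x : ℝ} (hκ : κ * h0 = kenE x) (hx : 39 / 40 ≤ x) (hx' : x < 1) :
    TriA (DD x).cur (farD κ (h0 * x) (tbl tKF x) (tbl tL x)) 2 1 3 0 1 (-1) (-1) :=
  (sideF hx hx').farA (Or.inr rfl) (Or.inr rfl) fun y y' F r1 r2 =>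
    farXA_cert (s1 := false) (s2 := false) rfl hκ (ka0 hκ hx hx') (xa0 hx) hx' (covF02 hx hx') (covF11 hx hx') (x1 hx) (x2 hx')
        Pool.Agent.Strip051.G.IE1.Tab.C.FA01.c_mm_213 noCut_VA noExt_VA F r1 r2 r1 r2

theorem FA01_mm_303 {κ x : ℝ} (hκ : κ * h0 = kenE x) (hx : 39 / 40 ≤ x) (hx' : x < 1) :
    TriA (DD x).cur (farD κ (h0 * x) (tbl tKF x) (tbl tL x)) 3 0 3 0 1 (-1) (-1) :=
  triVA_j0

theorem FA01_mm_313 {κ x : ℝ} (hκ : κ * h0 = kenE x) (hx : 39 / 40 ≤ x) (hx' : x < 1) :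
    TriA (DD x).cur (farD κ (h0 * x) (tbl tKF x) (tbl tL x)) 3 1 3 0 1 (-1) (-1) :=
  triVA_j0

theorem FA01 {κ x : ℝ} (hκ : κ * h0 = kenE x) (hx : 39 / 40 ≤ x) (hx' : x < 1) : AllTA (DD x).cur (farD κ (h0 * x) (tbl tKF x) (tbl tL x)) 0 1 where
  pp := all17 (Q := fun a b c => TriA (DD x).cur (farD κ (h0 * x) (tbl tKF x) (tbl tL x)) a b c 0 1 1 1)
    (FA01_pp_001 hκ hx hx') (FA01_pp_011 hκ hx hx') (FA01_pp_012 hκ hx hx') (FA01_pp_022 hκ hx hx') (FA01_pp_023 hκ hx hx') (FA01_pp_033 hκ hx hx') (FA01_pp_101 hκ hx hx') (FA01_pp_102 hκ hx hx') (FA01_pp_112 hκ hx hx') (FA01_pp_113 hκ hx hx') (FA01_pp_123 hκ hx hx') (FA01_pp_133 hκ hx hx') (FA01_pp_202 hκ hx hx') (FA01_pp_203 hκ hx hx') (FA01_pp_213 hκ hx hx') (FA01_pp_303 hκ hx hx') (FA01_pp_313 hκ hx hx')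
  pm := all17 (Q := fun a b c => TriA (DD x).cur (farD κ (h0 * x) (tbl tKF x) (tbl tL x)) a b c 0 1 1 (-1))
    (FA01_pm_001 hκ hx hx') (FA01_pm_011 hκ hx hx') (FA01_pm_012 hκ hx hx') (FA01_pm_022 hκ hx hx') (FA01_pm_023 hκ hx hx') (FA01_pm_033 hκ hx hx') (FA01_pm_101 hκ hx hx') (FA01_pm_102 hκ hx hx') (FA01_pm_112 hκ hx hx') (FA01_pm_113 hκ hx hx') (FA01_pm_123 hκ hx hx') (FA01_pm_133 hκ hx hx') (FA01_pm_202 hκ hx hx') (FA01_pm_203 hκ hx hx') (FA01_pm_213 hκ hx hx') (FA01_pm_303 hκ hx hx') (FA01_pm_313 hκ hx hx')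
  mm := all17 (Q := fun a b c => TriA (DD x).cur (farD κ (h0 * x) (tbl tKF x) (tbl tL x)) a b c 0 1 (-1) (-1))
    (FA01_mm_001 hκ hx hx') (FA01_mm_011 hκ hx hx') (FA01_mm_012 hκ hx hx') (FA01_mm_022 hκ hx hx') (FA01_mm_023 hκ hx hx') (FA01_mm_033 hκ hx hx') (FA01_mm_101 hκ hx hx') (FA01_mm_102 hκ hx hx') (FA01_mm_112 hκ hx hx') (FA01_mm_113 hκ hx hx') (FA01_mm_123 hκ hx hx') (FA01_mm_133 hκ hx hx') (FA01_mm_202 hκ hx hx') (FA01_mm_203 hκ hx hx') (FA01_mm_213 hκ hx hx') (FA01_mm_303 hκ hx hx') (FA01_mm_313 hκ hx hx')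

theorem FA02_pp_001 {κ x : ℝ} (hκ : κ * h0 = kenE x) (hx : 39 / 40 ≤ x) (hx' : x < 1) :
    TriA (DD x).cur (farD κ (h0 * x) (tbl tKF x) (tbl tL x)) 0 0 1 0 2 1 1 :=
  (sideF hx hx').farA (Or.inl rfl) (Or.inl rfl) fun y y' F r1 r2 =>
    farXA_cert (s1 := true) (s2 := true) rfl hκ (ka0 hκ hx hx') (xa0 hx) hx' (covF00 hx hx') (covF20 hx hx') (x1 hx) (x2 hx')
        Pool.Agent.Strip051.G.IE1.Tab.C.FA02.c_pp_001 noCut_VA noExt_VA F r1 r2 r1 r2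

theorem FA02_pp_011 {κ x : ℝ} (hκ : κ * h0 = kenE x) (hx : 39 / 40 ≤ x) (hx' : x < 1) :
    TriA (DD x).cur (farD κ (h0 * x) (tbl tKF x) (tbl tL x)) 0 1 1 0 2 1 1 :=
  (sideF hx hx').farA (Or.inl rfl) (Or.inl rfl) fun y y' F r1 r2 =>
    farXA_cert (s1 := true) (s2 := true) rfl hκ (ka0 hκ hx hx') (xa0 hx) hx' (covF00 hx hx') (covF21 hx hx') (x1 hx) (x2 hx')
        Pool.Agent.Strip051.G.IE1.Tab.C.FA02.c_pp_011 noCut_VA noExt_VA F r1 r2 r1 r2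

theorem FA02_pp_012 {κ x : ℝ} (hκ : κ * h0 = kenE x) (hx : 39 / 40 ≤ x) (hx' : x < 1) :
    TriA (DD x).cur (farD κ (h0 * x) (tbl tKF x) (tbl tL x)) 0 1 2 0 2 1 1 :=
  (sideF hx hx').farA (Or.inl rfl) (Or.inl rfl) fun y y' F r1 r2 =>
    farXA_cert (s1 := true) (s2 := true) rfl hκ (ka0 hκ hx hx') (xa0 hx) hx' (covF00 hx hx') (covF21 hx hx') (x1 hx) (x2 hx')
        Pool.Agent.Strip051.G.IE1.Tab.C.FA02.c_pp_012 noCut_VA noExt_VA F r1 r2 r1 r2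

theorem FA02_pp_022 {κ x : ℝ} (hκ : κ * h0 = kenE x) (hx : 39 / 40 ≤ x) (hx' : x < 1) :
    TriA (DD x).cur (farD κ (h0 * x) (tbl tKF x) (tbl tL x)) 0 2 2 0 2 1 1 :=
  (sideF hx hx').farA (Or.inl rfl) (Or.inl rfl) fun y y' F r1 r2 =>
    (lt_or_ge (h0 * y') 1).elim
      (fun g => farXA_cert (s1 := true) (s2 := true) rfl hκ (ka0 hκ hx hx') (xa0 hx) hx' (covF00 hx hx') (covF22a hx hx') (x1 hx) (x2 hx')
        Pool.Agent.Strip051.G.IE1.Tab.C.FA02.c_pp_022_a noCut_VA noExt_VA F r1 r2 r1 ⟨r2, g⟩)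
      (fun g => farXA_cert (s1 := true) (s2 := true) rfl hκ (ka0 hκ hx hx') (xa0 hx) hx' (covF00 hx hx') (covF22b hx hx') (x1 hx) (x2 hx')
        Pool.Agent.Strip051.G.IE1.Tab.C.FA02.c_pp_022_b noCut_VA noExt_VA F r1 r2 r1 ⟨r2, g⟩)

theorem FA02_pp_023 {κ x : ℝ} (hκ : κ * h0 = kenE x) (hx : 39 / 40 ≤ x) (hx' : x < 1) :
    TriA (DD x).cur (farD κ (h0 * x) (tbl tKF x) (tbl tL x)) 0 2 3 0 2 1 1 :=
  (sideF hx hx').farA (Or.inl rfl) (Or.inl rfl) fun y y' F r1 r2 =>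
    (lt_or_ge (h0 * y') 1).elim
      (fun g => farXA_cert (s1 := true) (s2 := true) rfl hκ (ka0 hκ hx hx') (xa0 hx) hx' (covF00 hx hx') (covF22a hx hx') (x1 hx) (x2 hx')
        Pool.Agent.Strip051.G.IE1.Tab.C.FA02.c_pp_023_a noCut_VA noExt_VA F r1 r2 r1 ⟨r2, g⟩)
      (fun g => farXA_cert (s1 := true) (s2 := true) rfl hκ (ka0 hκ hx hx') (xa0 hx) hx' (covF00 hx hx') (covF22b hx hx') (x1 hx) (x2 hx')
        Pool.Agent.Strip051.G.IE1.Tab.C.FA02.c_pp_023_b noCut_VA noExt_VA F r1 r2 r1 ⟨r2, g⟩)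

theorem FA02_pp_033 {κ x : ℝ} (hκ : κ * h0 = kenE x) (hx : 39 / 40 ≤ x) (hx' : x < 1) :
    TriA (DD x).cur (farD κ (h0 * x) (tbl tKF x) (tbl tL x)) 0 3 3 0 2 1 1 :=
  (sideF hx hx').farA (Or.inl rfl) (Or.inl rfl) fun y y' F r1 r2 =>
    farXA_cert (s1 := true) (s2 := true) rfl hκ (ka0 hκ hx hx') (xa0 hx) hx' (covF00 hx hx') (covF23 hx hx') (x1 hx) (x2 hx')
        Pool.Agent.Strip051.G.IE1.Tab.C.FA02.c_pp_033 noCut_VA noExt_VA F r1 r2 r1 r2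

theorem FA02_pp_101 {κ x : ℝ} (hκ : κ * h0 = kenE x) (hx : 39 / 40 ≤ x) (hx' : x < 1) :
    TriA (DD x).cur (farD κ (h0 * x) (tbl tKF x) (tbl tL x)) 1 0 1 0 2 1 1 :=
  (sideF hx hx').farA (Or.inl rfl) (Or.inl rfl) fun y y' F r1 r2 =>
    farXA_cert (s1 := true) (s2 := true) rfl hκ (ka0 hκ hx hx') (xa0 hx) hx' (covF01 hx hx') (covF20 hx hx') (x1 hx) (x2 hx')
        Pool.Agent.Strip051.G.IE1.Tab.C.FA02.c_pp_101 noCut_VA noExt_VA F r1 r2 r1 r2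

theorem FA02_pp_102 {κ x : ℝ} (hκ : κ * h0 = kenE x) (hx : 39 / 40 ≤ x) (hx' : x < 1) :
    TriA (DD x).cur (farD κ (h0 * x) (tbl tKF x) (tbl tL x)) 1 0 2 0 2 1 1 :=
  (sideF hx hx').farA (Or.inl rfl) (Or.inl rfl) fun y y' F r1 r2 =>
    farXA_cert (s1 := true) (s2 := true) rfl hκ (ka0 hκ hx hx') (xa0 hx) hx' (covF01 hx hx') (covF20 hx hx') (x1 hx) (x2 hx')
        Pool.Agent.Strip051.G.IE1.Tab.C.FA02.c_pp_102 noCut_VA noExt_VA F r1 r2 r1 r2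

theorem FA02_pp_112 {κ x : ℝ} (hκ : κ * h0 = kenE x) (hx : 39 / 40 ≤ x) (hx' : x < 1) :
    TriA (DD x).cur (farD κ (h0 * x) (tbl tKF x) (tbl tL x)) 1 1 2 0 2 1 1 :=
  (sideF hx hx').farA (Or.inl rfl) (Or.inl rfl) fun y y' F r1 r2 =>
    farXA_cert (s1 := true) (s2 := true) rfl hκ (ka0 hκ hx hx') (xa0 hx) hx' (covF01 hx hx') (covF21 hx hx') (x1 hx) (x2 hx')
        Pool.Agent.Strip051.G.IE1.Tab.C.FA02.c_pp_112 noCut_VA noExt_VA F r1 r2 r1 r2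

theorem FA02_pp_113 {κ x : ℝ} (hκ : κ * h0 = kenE x) (hx : 39 / 40 ≤ x) (hx' : x < 1) :
    TriA (DD x).cur (farD κ (h0 * x) (tbl tKF x) (tbl tL x)) 1 1 3 0 2 1 1 :=
  (sideF hx hx').farA (Or.inl rfl) (Or.inl rfl) fun y y' F r1 r2 =>
    farXA_cert (s1 := true) (s2 := true) rfl hκ (ka0 hκ hx hx') (xa0 hx) hx' (covF01 hx hx') (covF21 hx hx') (x1 hx) (x2 hx')
        Pool.Agent.Strip051.G.IE1.Tab.C.FA02.c_pp_113 noCut_VA noExt_VA F r1 r2 r1 r2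

theorem FA02_pp_123 {κ x : ℝ} (hκ : κ * h0 = kenE x) (hx : 39 / 40 ≤ x) (hx' : x < 1) :
    TriA (DD x).cur (farD κ (h0 * x) (tbl tKF x) (tbl tL x)) 1 2 3 0 2 1 1 :=
  (sideF hx hx').farA (Or.inl rfl) (Or.inl rfl) fun y y' F r1 r2 =>
    (lt_or_ge (h0 * y') 1).elim
      (fun g => farXA_cert (s1 := true) (s2 := true) rfl hκ (ka0 hκ hx hx') (xa0 hx) hx' (covF01 hx hx') (covF22a hx hx') (x1 hx) (x2 hx')
        Pool.Agent.Strip051.G.IE1.Tab.C.FA02.c_pp_123_a noCut_VA noExt_VA F r1 r2 r1 ⟨r2, g⟩)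
      (fun g => farXA_cert (s1 := true) (s2 := true) rfl hκ (ka0 hκ hx hx') (xa0 hx) hx' (covF01 hx hx') (covF22b hx hx') (x1 hx) (x2 hx')
        Pool.Agent.Strip051.G.IE1.Tab.C.FA02.c_pp_123_b noCut_VA noExt_VA F r1 r2 r1 ⟨r2, g⟩)

theorem FA02_pp_133 {κ x : ℝ} (hκ : κ * h0 = kenE x) (hx : 39 / 40 ≤ x) (hx' : x < 1) :
    TriA (DD x).cur (farD κ (h0 * x) (tbl tKF x) (tbl tL x)) 1 3 3 0 2 1 1 :=
  (sideF hx hx').farA (Or.inl rfl) (Or.inl rfl) fun y y' F r1 r2 =>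
    farXA_cert (s1 := true) (s2 := true) rfl hκ (ka0 hκ hx hx') (xa0 hx) hx' (covF01 hx hx') (covF23 hx hx') (x1 hx) (x2 hx')
        Pool.Agent.Strip051.G.IE1.Tab.C.FA02.c_pp_133 noCut_VA noExt_VA F r1 r2 r1 r2

theorem FA02_pp_202 {κ x : ℝ} (hκ : κ * h0 = kenE x) (hx : 39 / 40 ≤ x) (hx' : x < 1) :
    TriA (DD x).cur (farD κ (h0 * x) (tbl tKF x) (tbl tL x)) 2 0 2 0 2 1 1 :=
  (sideF hx hx').farA (Or.inl rfl) (Or.inl rfl) fun y y' F r1 r2 =>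
    farXA_cert (s1 := true) (s2 := true) rfl hκ (ka0 hκ hx hx') (xa0 hx) hx' (covF02 hx hx') (covF20 hx hx') (x1 hx) (x2 hx')
        Pool.Agent.Strip051.G.IE1.Tab.C.FA02.c_pp_202 noCut_VA noExt_VA F r1 r2 r1 r2

theorem FA02_pp_203 {κ x : ℝ} (hκ : κ * h0 = kenE x) (hx : 39 / 40 ≤ x) (hx' : x < 1) :
    TriA (DD x).cur (farD κ (h0 * x) (tbl tKF x) (tbl tL x)) 2 0 3 0 2 1 1 :=
  (sideF hx hx').farA (Or.inl rfl) (Or.inl rfl) fun y y' F r1 r2 =>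
    farXA_cert (s1 := true) (s2 := true) rfl hκ (ka0 hκ hx hx') (xa0 hx) hx' (covF02 hx hx') (covF20 hx hx') (x1 hx) (x2 hx')
        Pool.Agent.Strip051.G.IE1.Tab.C.FA02.c_pp_203 noCut_VA noExt_VA F r1 r2 r1 r2

theorem FA02_pp_213 {κ x : ℝ} (hκ : κ * h0 = kenE x) (hx : 39 / 40 ≤ x) (hx' : x < 1) :
    TriA (DD x).cur (farD κ (h0 * x) (tbl tKF x) (tbl tL x)) 2 1 3 0 2 1 1 :=
  (sideF hx hx').farA (Or.inl rfl) (Or.inl rfl) fun y y' F r1 r2 =>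
    farXA_cert (s1 := true) (s2 := true) rfl hκ (ka0 hκ hx hx') (xa0 hx) hx' (covF02 hx hx') (covF21 hx hx') (x1 hx) (x2 hx')
        Pool.Agent.Strip051.G.IE1.Tab.C.FA02.c_pp_213 noCut_VA noExt_VA F r1 r2 r1 r2

theorem FA02_pp_303 {κ x : ℝ} (hκ : κ * h0 = kenE x) (hx : 39 / 40 ≤ x) (hx' : x < 1) :
    TriA (DD x).cur (farD κ (h0 * x) (tbl tKF x) (tbl tL x)) 3 0 3 0 2 1 1 :=
  triVA_j0

theorem FA02_pp_313 {κ x : ℝ} (hκ : κ * h0 = kenE x) (hx : 39 / 40 ≤ x) (hx' : x < 1) :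
    TriA (DD x).cur (farD κ (h0 * x) (tbl tKF x) (tbl tL x)) 3 1 3 0 2 1 1 :=
  triVA_j0

theorem FA02_pm_001 {κ x : ℝ} (hκ : κ * h0 = kenE x) (hx : 39 / 40 ≤ x) (hx' : x < 1) :
    TriA (DD x).cur (farD κ (h0 * x) (tbl tKF x) (tbl tL x)) 0 0 1 0 2 1 (-1) :=
  (sideF hx hx').farA (Or.inl rfl) (Or.inr rfl) fun y y' F r1 r2 =>
    farXA_cert (s1 := true) (s2 := false) rfl hκ (ka0 hκ hx hx') (xa0 hx) hx' (covF00 hx hx') (covF20 hx hx') (x1 hx) (x2 hx')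
        Pool.Agent.Strip051.G.IE1.Tab.C.FA02.c_pm_001 noCut_VA noExt_VA F r1 r2 r1 r2

theorem FA02_pm_011 {κ x : ℝ} (hκ : κ * h0 = kenE x) (hx : 39 / 40 ≤ x) (hx' : x < 1) :
    TriA (DD x).cur (farD κ (h0 * x) (tbl tKF x) (tbl tL x)) 0 1 1 0 2 1 (-1) :=
  (sideF hx hx').farA (Or.inl rfl) (Or.inr rfl) fun y y' F r1 r2 =>
    farXA_cert (s1 := true) (s2 := false) rfl hκ (ka0 hκ hx hx') (xa0 hx) hx' (covF00 hx hx') (covF21 hx hx') (x1 hx) (x2 hx')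
        Pool.Agent.Strip051.G.IE1.Tab.C.FA02.c_pm_011 noCut_VA noExt_VA F r1 r2 r1 r2

theorem FA02_pm_012 {κ x : ℝ} (hκ : κ * h0 = kenE x) (hx : 39 / 40 ≤ x) (hx' : x < 1) :
    TriA (DD x).cur (farD κ (h0 * x) (tbl tKF x) (tbl tL x)) 0 1 2 0 2 1 (-1) :=
  (sideF hx hx').farA (Or.inl rfl) (Or.inr rfl) fun y y' F r1 r2 =>
    farXA_cert (s1 := true) (s2 := false) rfl hκ (ka0 hκ hx hx') (xa0 hx) hx' (covF00 hx hx') (covF21 hx hx') (x1 hx) (x2 hx')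
        Pool.Agent.Strip051.G.IE1.Tab.C.FA02.c_pm_012 noCut_VA noExt_VA F r1 r2 r1 r2

theorem FA02_pm_022 {κ x : ℝ} (hκ : κ * h0 = kenE x) (hx : 39 / 40 ≤ x) (hx' : x < 1) :
    TriA (DD x).cur (farD κ (h0 * x) (tbl tKF x) (tbl tL x)) 0 2 2 0 2 1 (-1) :=
  (sideF hx hx').farA (Or.inl rfl) (Or.inr rfl) fun y y' F r1 r2 =>
    (lt_or_ge (h0 * y') 1).elim
      (fun g => farXA_cert (s1 := true) (s2 := false) rfl hκ (ka0 hκ hx hx') (xa0 hx) hx' (covF00 hx hx') (covF22a hx hx') (x1 hx) (x2 hx')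
        Pool.Agent.Strip051.G.IE1.Tab.C.FA02.c_pm_022_a noCut_VA noExt_VA F r1 r2 r1 ⟨r2, g⟩)
      (fun g => farXA_cert (s1 := true) (s2 := false) rfl hκ (ka0 hκ hx hx') (xa0 hx) hx' (covF00 hx hx') (covF22b hx hx') (x1 hx) (x2 hx')
        Pool.Agent.Strip051.G.IE1.Tab.C.FA02.c_pm_022_b noCut_VA noExt_VA F r1 r2 r1 ⟨r2, g⟩)

theorem FA02_pm_023 {κ x : ℝ} (hκ : κ * h0 = kenE x) (hx : 39 / 40 ≤ x) (hx' : x < 1) :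
    TriA (DD x).cur (farD κ (h0 * x) (tbl tKF x) (tbl tL x)) 0 2 3 0 2 1 (-1) :=
  (sideF hx hx').farA (Or.inl rfl) (Or.inr rfl) fun y y' F r1 r2 =>
    (lt_or_ge (h0 * y') 1).elim
      (fun g => farXA_cert (s1 := true) (s2 := false) rfl hκ (ka0 hκ hx hx') (xa0 hx) hx' (covF00 hx hx') (covF22a hx hx') (x1 hx) (x2 hx')
        Pool.Agent.Strip051.G.IE1.Tab.C.FA02.c_pm_023_a noCut_VA noExt_VA F r1 r2 r1 ⟨r2, g⟩)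
      (fun g => farXA_cert (s1 := true) (s2 := false) rfl hκ (ka0 hκ hx hx') (xa0 hx) hx' (covF00 hx hx') (covF22b hx hx') (x1 hx) (x2 hx')
        Pool.Agent.Strip051.G.IE1.Tab.C.FA02.c_pm_023_b noCut_VA noExt_VA F r1 r2 r1 ⟨r2, g⟩)

theorem FA02_pm_033 {κ x : ℝ} (hκ : κ * h0 = kenE x) (hx : 39 / 40 ≤ x) (hx' : x < 1) :
    TriA (DD x).cur (farD κ (h0 * x) (tbl tKF x) (tbl tL x)) 0 3 3 0 2 1 (-1) :=
  (sideF hx hx').farA (Or.inl rfl) (Or.inr rfl) fun y y' F r1 r2 =>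
    farXA_cert (s1 := true) (s2 := false) rfl hκ (ka0 hκ hx hx') (xa0 hx) hx' (covF00 hx hx') (covF23 hx hx') (x1 hx) (x2 hx')
        Pool.Agent.Strip051.G.IE1.Tab.C.FA02.c_pm_033 noCut_VA noExt_VA F r1 r2 r1 r2

theorem FA02_pm_101 {κ x : ℝ} (hκ : κ * h0 = kenE x) (hx : 39 / 40 ≤ x) (hx' : x < 1) :
    TriA (DD x).cur (farD κ (h0 * x) (tbl tKF x) (tbl tL x)) 1 0 1 0 2 1 (-1) :=
  (sideF hx hx').farA (Or.inl rfl) (Or.inr rfl) fun y y' F r1 r2 =>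
    farXA_cert (s1 := true) (s2 := false) rfl hκ (ka0 hκ hx hx') (xa0 hx) hx' (covF01 hx hx') (covF20 hx hx') (x1 hx) (x2 hx')
        Pool.Agent.Strip051.G.IE1.Tab.C.FA02.c_pm_101 noCut_VA noExt_VA F r1 r2 r1 r2

theorem FA02_pm_102 {κ x : ℝ} (hκ : κ * h0 = kenE x) (hx : 39 / 40 ≤ x) (hx' : x < 1) :
    TriA (DD x).cur (farD κ (h0 * x) (tbl tKF x) (tbl tL x)) 1 0 2 0 2 1 (-1) :=
  (sideF hx hx').farA (Or.inl rfl) (Or.inr rfl) fun y y' F r1 r2 =>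
    farXA_cert (s1 := true) (s2 := false) rfl hκ (ka0 hκ hx hx') (xa0 hx) hx' (covF01 hx hx') (covF20 hx hx') (x1 hx) (x2 hx')
        Pool.Agent.Strip051.G.IE1.Tab.C.FA02.c_pm_102 noCut_VA noExt_VA F r1 r2 r1 r2

theorem FA02_pm_112 {κ x : ℝ} (hκ : κ * h0 = kenE x) (hx : 39 / 40 ≤ x) (hx' : x < 1) :
    TriA (DD x).cur (farD κ (h0 * x) (tbl tKF x) (tbl tL x)) 1 1 2 0 2 1 (-1) :=
  (sideF hx hx').farA (Or.inl rfl) (Or.inr rfl) fun y y' F r1 r2 =>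
    farXA_cert (s1 := true) (s2 := false) rfl hκ (ka0 hκ hx hx') (xa0 hx) hx' (covF01 hx hx') (covF21 hx hx') (x1 hx) (x2 hx')
        Pool.Agent.Strip051.G.IE1.Tab.C.FA02.c_pm_112 noCut_VA noExt_VA F r1 r2 r1 r2

theorem FA02_pm_113 {κ x : ℝ} (hκ : κ * h0 = kenE x) (hx : 39 / 40 ≤ x) (hx' : x < 1) :
    TriA (DD x).cur (farD κ (h0 * x) (tbl tKF x) (tbl tL x)) 1 1 3 0 2 1 (-1) :=
  (sideF hx hx').farA (Or.inl rfl) (Or.inr rfl) fun y y' F r1 r2 =>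
    farXA_cert (s1 := true) (s2 := false) rfl hκ (ka0 hκ hx hx') (xa0 hx) hx' (covF01 hx hx') (covF21 hx hx') (x1 hx) (x2 hx')
        Pool.Agent.Strip051.G.IE1.Tab.C.FA02.c_pm_113 noCut_VA noExt_VA F r1 r2 r1 r2

theorem FA02_pm_123 {κ x : ℝ} (hκ : κ * h0 = kenE x) (hx : 39 / 40 ≤ x) (hx' : x < 1) :
    TriA (DD x).cur (farD κ (h0 * x) (tbl tKF x) (tbl tL x)) 1 2 3 0 2 1 (-1) :=
  (sideF hx hx').farA (Or.inl rfl) (Or.inr rfl) fun y y' F r1 r2 =>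
    (lt_or_ge (h0 * y') 1).elim
      (fun g => farXA_cert (s1 := true) (s2 := false) rfl hκ (ka0 hκ hx hx') (xa0 hx) hx' (covF01 hx hx') (covF22a hx hx') (x1 hx) (x2 hx')
        Pool.Agent.Strip051.G.IE1.Tab.C.FA02.c_pm_123_a noCut_VA noExt_VA F r1 r2 r1 ⟨r2, g⟩)
      (fun g => farXA_cert (s1 := true) (s2 := false) rfl hκ (ka0 hκ hx hx') (xa0 hx) hx' (covF01 hx hx') (covF22b hx hx') (x1 hx) (x2 hx')
        Pool.Agent.Strip051.G.IE1.Tab.C.FA02.c_pm_123_b noCut_VA noExt_VA F r1 r2 r1 ⟨r2, g⟩)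

theorem FA02_pm_133 {κ x : ℝ} (hκ : κ * h0 = kenE x) (hx : 39 / 40 ≤ x) (hx' : x < 1) :
    TriA (DD x).cur (farD κ (h0 * x) (tbl tKF x) (tbl tL x)) 1 3 3 0 2 1 (-1) :=
  (sideF hx hx').farA (Or.inl rfl) (Or.inr rfl) fun y y' F r1 r2 =>
    farXA_cert (s1 := true) (s2 := false) rfl hκ (ka0 hκ hx hx') (xa0 hx) hx' (covF01 hx hx') (covF23 hx hx') (x1 hx) (x2 hx')
        Pool.Agent.Strip051.G.IE1.Tab.C.FA02.c_pm_133 noCut_VA noExt_VA F r1 r2 r1 r2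

theorem FA02_pm_202 {κ x : ℝ} (hκ : κ * h0 = kenE x) (hx : 39 / 40 ≤ x) (hx' : x < 1) :
    TriA (DD x).cur (farD κ (h0 * x) (tbl tKF x) (tbl tL x)) 2 0 2 0 2 1 (-1) :=
  (sideF hx hx').farA (Or.inl rfl) (Or.inr rfl) fun y y' F r1 r2 =>
    farXA_cert (s1 := true) (s2 := false) rfl hκ (ka0 hκ hx hx') (xa0 hx) hx' (covF02 hx hx') (covF20 hx hx') (x1 hx) (x2 hx')
        Pool.Agent.Strip051.G.IE1.Tab.C.FA02.c_pm_202 noCut_VA noExt_VA F r1 r2 r1 r2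

theorem FA02_pm_203 {κ x : ℝ} (hκ : κ * h0 = kenE x) (hx : 39 / 40 ≤ x) (hx' : x < 1) :
    TriA (DD x).cur (farD κ (h0 * x) (tbl tKF x) (tbl tL x)) 2 0 3 0 2 1 (-1) :=
  (sideF hx hx').farA (Or.inl rfl) (Or.inr rfl) fun y y' F r1 r2 =>
    farXA_cert (s1 := true) (s2 := false) rfl hκ (ka0 hκ hx hx') (xa0 hx) hx' (covF02 hx hx') (covF20 hx hx') (x1 hx) (x2 hx')
        Pool.Agent.Strip051.G.IE1.Tab.C.FA02.c_pm_203 noCut_VA noExt_VA F r1 r2 r1 r2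

theorem FA02_pm_213 {κ x : ℝ} (hκ : κ * h0 = kenE x) (hx : 39 / 40 ≤ x) (hx' : x < 1) :
    TriA (DD x).cur (farD κ (h0 * x) (tbl tKF x) (tbl tL x)) 2 1 3 0 2 1 (-1) :=
  (sideF hx hx').farA (Or.inl rfl) (Or.inr rfl) fun y y' F r1 r2 =>
    farXA_cert (s1 := true) (s2 := false) rfl hκ (ka0 hκ hx hx') (xa0 hx) hx' (covF02 hx hx') (covF21 hx hx') (x1 hx) (x2 hx')
        Pool.Agent.Strip051.G.IE1.Tab.C.FA02.c_pm_213 noCut_VA noExt_VA F r1 r2 r1 r2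

theorem FA02_pm_303 {κ x : ℝ} (hκ : κ * h0 = kenE x) (hx : 39 / 40 ≤ x) (hx' : x < 1) :
    TriA (DD x).cur (farD κ (h0 * x) (tbl tKF x) (tbl tL x)) 3 0 3 0 2 1 (-1) :=
  triVA_j0

theorem FA02_pm_313 {κ x : ℝ} (hκ : κ * h0 = kenE x) (hx : 39 / 40 ≤ x) (hx' : x < 1) :
    TriA (DD x).cur (farD κ (h0 * x) (tbl tKF x) (tbl tL x)) 3 1 3 0 2 1 (-1) :=
  triVA_j0

theorem FA02_mm_001 {κ x : ℝ} (hκ : κ * h0 = kenE x) (hx : 39 / 40 ≤ x) (hx' : x < 1) :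
    TriA (DD x).cur (farD κ (h0 * x) (tbl tKF x) (tbl tL x)) 0 0 1 0 2 (-1) (-1) :=
  (sideF hx hx').farA (Or.inr rfl) (Or.inr rfl) fun y y' F r1 r2 =>
    farXA_cert (s1 := false) (s2 := false) rfl hκ (ka0 hκ hx hx') (xa0 hx) hx' (covF00 hx hx') (covF20 hx hx') (x1 hx) (x2 hx')
        Pool.Agent.Strip051.G.IE1.Tab.C.FA02.c_mm_001 noCut_VA noExt_VA F r1 r2 r1 r2

theorem FA02_mm_011 {κ x : ℝ} (hκ : κ * h0 = kenE x) (hx : 39 / 40 ≤ x) (hx' : x < 1) :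
    TriA (DD x).cur (farD κ (h0 * x) (tbl tKF x) (tbl tL x)) 0 1 1 0 2 (-1) (-1) :=
  (sideF hx hx').farA (Or.inr rfl) (Or.inr rfl) fun y y' F r1 r2 =>
    farXA_cert (s1 := false) (s2 := false) rfl hκ (ka0 hκ hx hx') (xa0 hx) hx' (covF00 hx hx') (covF21 hx hx') (x1 hx) (x2 hx')
        Pool.Agent.Strip051.G.IE1.Tab.C.FA02.c_mm_011 noCut_VA noExt_VA F r1 r2 r1 r2

theorem FA02_mm_012 {κ x : ℝ} (hκ : κ * h0 = kenE x) (hx : 39 / 40 ≤ x) (hx' : x < 1) :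
    TriA (DD x).cur (farD κ (h0 * x) (tbl tKF x) (tbl tL x)) 0 1 2 0 2 (-1) (-1) :=
  (sideF hx hx').farA (Or.inr rfl) (Or.inr rfl) fun y y' F r1 r2 =>
    farXA_cert (s1 := false) (s2 := false) rfl hκ (ka0 hκ hx hx') (xa0 hx) hx' (covF00 hx hx') (covF21 hx hx') (x1 hx) (x2 hx')
        Pool.Agent.Strip051.G.IE1.Tab.C.FA02.c_mm_012 noCut_VA noExt_VA F r1 r2 r1 r2

theorem FA02_mm_022 {κ x : ℝ} (hκ : κ * h0 = kenE x) (hx : 39 / 40 ≤ x) (hx' : x < 1) :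
    TriA (DD x).cur (farD κ (h0 * x) (tbl tKF x) (tbl tL x)) 0 2 2 0 2 (-1) (-1) :=
  (sideF hx hx').farA (Or.inr rfl) (Or.inr rfl) fun y y' F r1 r2 =>
    (lt_or_ge (h0 * y') 1).elim
      (fun g => farXA_cert (s1 := false) (s2 := false) rfl hκ (ka0 hκ hx hx') (xa0 hx) hx' (covF00 hx hx') (covF22a hx hx') (x1 hx) (x2 hx')
        Pool.Agent.Strip051.G.IE1.Tab.C.FA02.c_mm_022_a noCut_VA noExt_VA F r1 r2 r1 ⟨r2, g⟩)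
      (fun g => farXA_cert (s1 := false) (s2 := false) rfl hκ (ka0 hκ hx hx') (xa0 hx) hx' (covF00 hx hx') (covF22b hx hx') (x1 hx) (x2 hx')
        Pool.Agent.Strip051.G.IE1.Tab.C.FA02.c_mm_022_b noCut_VA noExt_VA F r1 r2 r1 ⟨r2, g⟩)

theorem FA02_mm_023 {κ x : ℝ} (hκ : κ * h0 = kenE x) (hx : 39 / 40 ≤ x) (hx' : x < 1) :
    TriA (DD x).cur (farD κ (h0 * x) (tbl tKF x) (tbl tL x)) 0 2 3 0 2 (-1) (-1) :=
  (sideF hx hx').farA (Or.inr rfl) (Or.inr rfl) fun y y' F r1 r2 =>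
    (lt_or_ge (h0 * y') 1).elim
      (fun g => farXA_cert (s1 := false) (s2 := false) rfl hκ (ka0 hκ hx hx') (xa0 hx) hx' (covF00 hx hx') (covF22a hx hx') (x1 hx) (x2 hx')
        Pool.Agent.Strip051.G.IE1.Tab.C.FA02.c_mm_023_a noCut_VA noExt_VA F r1 r2 r1 ⟨r2, g⟩)
      (fun g => farXA_cert (s1 := false) (s2 := false) rfl hκ (ka0 hκ hx hx') (xa0 hx) hx' (covF00 hx hx') (covF22b hx hx') (x1 hx) (x2 hx')
        Pool.Agent.Strip051.G.IE1.Tab.C.FA02.c_mm_023_b noCut_VA noExt_VA F r1 r2 r1 ⟨r2, g⟩)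

theorem FA02_mm_033 {κ x : ℝ} (hκ : κ * h0 = kenE x) (hx : 39 / 40 ≤ x) (hx' : x < 1) :
    TriA (DD x).cur (farD κ (h0 * x) (tbl tKF x) (tbl tL x)) 0 3 3 0 2 (-1) (-1) :=
  (sideF hx hx').farA (Or.inr rfl) (Or.inr rfl) fun y y' F r1 r2 =>
    farXA_cert (s1 := false) (s2 := false) rfl hκ (ka0 hκ hx hx') (xa0 hx) hx' (covF00 hx hx') (covF23 hx hx') (x1 hx) (x2 hx')
        Pool.Agent.Strip051.G.IE1.Tab.C.FA02.c_mm_033 noCut_VA noExt_VA F r1 r2 r1 r2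

theorem FA02_mm_101 {κ x : ℝ} (hκ : κ * h0 = kenE x) (hx : 39 / 40 ≤ x) (hx' : x < 1) :
    TriA (DD x).cur (farD κ (h0 * x) (tbl tKF x) (tbl tL x)) 1 0 1 0 2 (-1) (-1) :=
  (sideF hx hx').farA (Or.inr rfl) (Or.inr rfl) fun y y' F r1 r2 =>
    farXA_cert (s1 := false) (s2 := false) rfl hκ (ka0 hκ hx hx') (xa0 hx) hx' (covF01 hx hx') (covF20 hx hx') (x1 hx) (x2 hx')
        Pool.Agent.Strip051.G.IE1.Tab.C.FA02.c_mm_101 noCut_VA noExt_VA F r1 r2 r1 r2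

theorem FA02_mm_102 {κ x : ℝ} (hκ : κ * h0 = kenE x) (hx : 39 / 40 ≤ x) (hx' : x < 1) :
    TriA (DD x).cur (farD κ (h0 * x) (tbl tKF x) (tbl tL x)) 1 0 2 0 2 (-1) (-1) :=
  (sideF hx hx').farA (Or.inr rfl) (Or.inr rfl) fun y y' F r1 r2 =>
    farXA_cert (s1 := false) (s2 := false) rfl hκ (ka0 hκ hx hx') (xa0 hx) hx' (covF01 hx hx') (covF20 hx hx') (x1 hx) (x2 hx')
        Pool.Agent.Strip051.G.IE1.Tab.C.FA02.c_mm_102 noCut_VA noExt_VA F r1 r2 r1 r2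

theorem FA02_mm_112 {κ x : ℝ} (hκ : κ * h0 = kenE x) (hx : 39 / 40 ≤ x) (hx' : x < 1) :
    TriA (DD x).cur (farD κ (h0 * x) (tbl tKF x) (tbl tL x)) 1 1 2 0 2 (-1) (-1) :=
  (sideF hx hx').farA (Or.inr rfl) (Or.inr rfl) fun y y' F r1 r2 =>
    farXA_cert (s1 := false) (s2 := false) rfl hκ (ka0 hκ hx hx') (xa0 hx) hx' (covF01 hx hx') (covF21 hx hx') (x1 hx) (x2 hx')
        Pool.Agent.Strip051.G.IE1.Tab.C.FA02.c_mm_112 noCut_VA noExt_VA F r1 r2 r1 r2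

theorem FA02_mm_113 {κ x : ℝ} (hκ : κ * h0 = kenE x) (hx : 39 / 40 ≤ x) (hx' : x < 1) :
    TriA (DD x).cur (farD κ (h0 * x) (tbl tKF x) (tbl tL x)) 1 1 3 0 2 (-1) (-1) :=
  (sideF hx hx').farA (Or.inr rfl) (Or.inr rfl) fun y y' F r1 r2 =>
    farXA_cert (s1 := false) (s2 := false) rfl hκ (ka0 hκ hx hx') (xa0 hx) hx' (covF01 hx hx') (covF21 hx hx') (x1 hx) (x2 hx')
        Pool.Agent.Strip051.G.IE1.Tab.C.FA02.c_mm_113 noCut_VA noExt_VA F r1 r2 r1 r2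

theorem FA02_mm_123 {κ x : ℝ} (hκ : κ * h0 = kenE x) (hx : 39 / 40 ≤ x) (hx' : x < 1) :
    TriA (DD x).cur (farD κ (h0 * x) (tbl tKF x) (tbl tL x)) 1 2 3 0 2 (-1) (-1) :=
  (sideF hx hx').farA (Or.inr rfl) (Or.inr rfl) fun y y' F r1 r2 =>
    (lt_or_ge (h0 * y') 1).elim
      (fun g => farXA_cert (s1 := false) (s2 := false) rfl hκ (ka0 hκ hx hx') (xa0 hx) hx' (covF01 hx hx') (covF22a hx hx') (x1 hx) (x2 hx')
        Pool.Agent.Strip051.G.IE1.Tab.C.FA02.c_mm_123_a noCut_VA noExt_VA F r1 r2 r1 ⟨r2, g⟩)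
      (fun g => farXA_cert (s1 := false) (s2 := false) rfl hκ (ka0 hκ hx hx') (xa0 hx) hx' (covF01 hx hx') (covF22b hx hx') (x1 hx) (x2 hx')
        Pool.Agent.Strip051.G.IE1.Tab.C.FA02.c_mm_123_b noCut_VA noExt_VA F r1 r2 r1 ⟨r2, g⟩)

theorem FA02_mm_133 {κ x : ℝ} (hκ : κ * h0 = kenE x) (hx : 39 / 40 ≤ x) (hx' : x < 1) :
    TriA (DD x).cur (farD κ (h0 * x) (tbl tKF x) (tbl tL x)) 1 3 3 0 2 (-1) (-1) :=
  (sideF hx hx').farA (Or.inr rfl) (Or.inr rfl) fun y y' F r1 r2 =>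
    farXA_cert (s1 := false) (s2 := false) rfl hκ (ka0 hκ hx hx') (xa0 hx) hx' (covF01 hx hx') (covF23 hx hx') (x1 hx) (x2 hx')
        Pool.Agent.Strip051.G.IE1.Tab.C.FA02.c_mm_133 noCut_VA noExt_VA F r1 r2 r1 r2

theorem FA02_mm_202 {κ x : ℝ} (hκ : κ * h0 = kenE x) (hx : 39 / 40 ≤ x) (hx' : x < 1) :
    TriA (DD x).cur (farD κ (h0 * x) (tbl tKF x) (tbl tL x)) 2 0 2 0 2 (-1) (-1) :=
  (sideF hx hx').farA (Or.inr rfl) (Or.inr rfl) fun y y' F r1 r2 =>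
    farXA_cert (s1 := false) (s2 := false) rfl hκ (ka0 hκ hx hx') (xa0 hx) hx' (covF02 hx hx') (covF20 hx hx') (x1 hx) (x2 hx')
        Pool.Agent.Strip051.G.IE1.Tab.C.FA02.c_mm_202 noCut_VA noExt_VA F r1 r2 r1 r2

theorem FA02_mm_203 {κ x : ℝ} (hκ : κ * h0 = kenE x) (hx : 39 / 40 ≤ x) (hx' : x < 1) :
    TriA (DD x).cur (farD κ (h0 * x) (tbl tKF x) (tbl tL x)) 2 0 3 0 2 (-1) (-1) :=
  (sideF hx hx').farA (Or.inr rfl) (Or.inr rfl) fun y y' F r1 r2 =>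
    farXA_cert (s1 := false) (s2 := false) rfl hκ (ka0 hκ hx hx') (xa0 hx) hx' (covF02 hx hx') (covF20 hx hx') (x1 hx) (x2 hx')
        Pool.Agent.Strip051.G.IE1.Tab.C.FA02.c_mm_203 noCut_VA noExt_VA F r1 r2 r1 r2

theorem FA02_mm_213 {κ x : ℝ} (hκ : κ * h0 = kenE x) (hx : 39 / 40 ≤ x) (hx' : x < 1) :
    TriA (DD x).cur (farD κ (h0 * x) (tbl tKF x) (tbl tL x)) 2 1 3 0 2 (-1) (-1) :=
  (sideF hx hx').farA (Or.inr rfl) (Or.inr rfl) fun y y' F r1 r2 =>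
    farXA_cert (s1 := false) (s2 := false) rfl hκ (ka0 hκ hx hx') (xa0 hx) hx' (covF02 hx hx') (covF21 hx hx') (x1 hx) (x2 hx')
        Pool.Agent.Strip051.G.IE1.Tab.C.FA02.c_mm_213 noCut_VA noExt_VA F r1 r2 r1 r2

theorem FA02_mm_303 {κ x : ℝ} (hκ : κ * h0 = kenE x) (hx : 39 / 40 ≤ x) (hx' : x < 1) :
    TriA (DD x).cur (farD κ (h0 * x) (tbl tKF x) (tbl tL x)) 3 0 3 0 2 (-1) (-1) :=
  triVA_j0

theorem FA02_mm_313 {κ x : ℝ} (hκ : κ * h0 = kenE x) (hx : 39 / 40 ≤ x) (hx' : x < 1) :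
    TriA (DD x).cur (farD κ (h0 * x) (tbl tKF x) (tbl tL x)) 3 1 3 0 2 (-1) (-1) :=
  triVA_j0

theorem FA02 {κ x : ℝ} (hκ : κ * h0 = kenE x) (hx : 39 / 40 ≤ x) (hx' : x < 1) : AllTA (DD x).cur (farD κ (h0 * x) (tbl tKF x) (tbl tL x)) 0 2 where
  pp := all17 (Q := fun a b c => TriA (DD x).cur (farD κ (h0 * x) (tbl tKF x) (tbl tL x)) a b c 0 2 1 1)
    (FA02_pp_001 hκ hx hx') (FA02_pp_011 hκ hx hx') (FA02_pp_012 hκ hx hx') (FA02_pp_022 hκ hx hx') (FA02_pp_023 hκ hx hx') (FA02_pp_033 hκ hx hx') (FA02_pp_101 hκ hx hx') (FA02_pp_102 hκ hx hx') (FA02_pp_112 hκ hx hx') (FA02_pp_113 hκ hx hx') (FA02_pp_123 hκ hx hx') (FA02_pp_133 hκ hx hx') (FA02_pp_202 hκ hx hx') (FA02_pp_203 hκ hx hx') (FA02_pp_213 hκ hx hx') (FA02_pp_303 hκ hx hx') (FA02_pp_313 hκ hx hx')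
  pm := all17 (Q := fun a b c => TriA (DD x).cur (farD κ (h0 * x) (tbl tKF x) (tbl tL x)) a b c 0 2 1 (-1))
    (FA02_pm_001 hκ hx hx') (FA02_pm_011 hκ hx hx') (FA02_pm_012 hκ hx hx') (FA02_pm_022 hκ hx hx') (FA02_pm_023 hκ hx hx') (FA02_pm_033 hκ hx hx') (FA02_pm_101 hκ hx hx') (FA02_pm_102 hκ hx hx') (FA02_pm_112 hκ hx hx') (FA02_pm_113 hκ hx hx') (FA02_pm_123 hκ hx hx') (FA02_pm_133 hκ hx hx') (FA02_pm_202 hκ hx hx') (FA02_pm_203 hκ hx hx') (FA02_pm_213 hκ hx hx') (FA02_pm_303 hκ hx hx') (FA02_pm_313 hκ hx hx')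
  mm := all17 (Q := fun a b c => TriA (DD x).cur (farD κ (h0 * x) (tbl tKF x) (tbl tL x)) a b c 0 2 (-1) (-1))
    (FA02_mm_001 hκ hx hx') (FA02_mm_011 hκ hx hx') (FA02_mm_012 hκ hx hx') (FA02_mm_022 hκ hx hx') (FA02_mm_023 hκ hx hx') (FA02_mm_033 hκ hx hx') (FA02_mm_101 hκ hx hx') (FA02_mm_102 hκ hx hx') (FA02_mm_112 hκ hx hx') (FA02_mm_113 hκ hx hx') (FA02_mm_123 hκ hx hx') (FA02_mm_133 hκ hx hx') (FA02_mm_202 hκ hx hx') (FA02_mm_203 hκ hx hx') (FA02_mm_213 hκ hx hx') (FA02_mm_303 hκ hx hx') (FA02_mm_313 hκ hx hx')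

theorem FA03_pp_001 {κ x : ℝ} (hκ : κ * h0 = kenE x) (hx : 39 / 40 ≤ x) (hx' : x < 1) :
    TriA (DD x).cur (farD κ (h0 * x) (tbl tKF x) (tbl tL x)) 0 0 1 0 3 1 1 :=
  (sideF hx hx').farA (Or.inl rfl) (Or.inl rfl) fun y y' F r1 r2 =>
    farXA_cert (s1 := true) (s2 := true) rfl hκ (ka0 hκ hx hx') (xa0 hx) hx' (covF00 hx hx') (covF30 hx hx') (x1 hx) (x2 hx')
        Pool.Agent.Strip051.G.IE1.Tab.C.FA03.c_pp_001 noCut_VA noExt_VA F r1 r2 r1 r2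

theorem FA03_pp_011 {κ x : ℝ} (hκ : κ * h0 = kenE x) (hx : 39 / 40 ≤ x) (hx' : x < 1) :
    TriA (DD x).cur (farD κ (h0 * x) (tbl tKF x) (tbl tL x)) 0 1 1 0 3 1 1 :=
  (sideF hx hx').farA (Or.inl rfl) (Or.inl rfl) fun y y' F r1 r2 =>
    farXA_cert (s1 := true) (s2 := true) rfl hκ (ka0 hκ hx hx') (xa0 hx) hx' (covF00 hx hx') (covF31 hx hx') (x1 hx) (x2 hx')
        Pool.Agent.Strip051.G.IE1.Tab.C.FA03.c_pp_011 noCut_VA noExt_VA F r1 r2 r1 r2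

theorem FA03_pp_012 {κ x : ℝ} (hκ : κ * h0 = kenE x) (hx : 39 / 40 ≤ x) (hx' : x < 1) :
    TriA (DD x).cur (farD κ (h0 * x) (tbl tKF x) (tbl tL x)) 0 1 2 0 3 1 1 :=
  (sideF hx hx').farA (Or.inl rfl) (Or.inl rfl) fun y y' F r1 r2 =>
    farXA_cert (s1 := true) (s2 := true) rfl hκ (ka0 hκ hx hx') (xa0 hx) hx' (covF00 hx hx') (covF31 hx hx') (x1 hx) (x2 hx')
        Pool.Agent.Strip051.G.IE1.Tab.C.FA03.c_pp_012 noCut_VA noExt_VA F r1 r2 r1 r2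

theorem FA03_pp_022 {κ x : ℝ} (hκ : κ * h0 = kenE x) (hx : 39 / 40 ≤ x) (hx' : x < 1) :
    TriA (DD x).cur (farD κ (h0 * x) (tbl tKF x) (tbl tL x)) 0 2 2 0 3 1 1 :=
  (sideF hx hx').farA (Or.inl rfl) (Or.inl rfl) fun y y' F r1 r2 =>
    farXA_cert (s1 := true) (s2 := true) rfl hκ (ka0 hκ hx hx') (xa0 hx) hx' (covF00 hx hx') (covF32 hx hx') (x1 hx) (x2 hx')
        Pool.Agent.Strip051.G.IE1.Tab.C.FA03.c_pp_022 (cutVA_cons (Pool.Agent.Strip051.G.IE1.Tab.qF_A03pp_022_011 hκ hx hx') cutVA_nil) noExt_VA F r1 r2 r1 r2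

theorem FA03_pp_023 {κ x : ℝ} (hκ : κ * h0 = kenE x) (hx : 39 / 40 ≤ x) (hx' : x < 1) :
    TriA (DD x).cur (farD κ (h0 * x) (tbl tKF x) (tbl tL x)) 0 2 3 0 3 1 1 :=
  (sideF hx hx').farA (Or.inl rfl) (Or.inl rfl) fun y y' F r1 r2 =>
    farXA_cert (s1 := true) (s2 := true) rfl hκ (ka0 hκ hx hx') (xa0 hx) hx' (covF00 hx hx') (covF32 hx hx') (x1 hx) (x2 hx')
        Pool.Agent.Strip051.G.IE1.Tab.C.FA03.c_pp_023 noCut_VA noExt_VA F r1 r2 r1 r2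

theorem FA03_pp_033 {κ x : ℝ} (hκ : κ * h0 = kenE x) (hx : 39 / 40 ≤ x) (hx' : x < 1) :
    TriA (DD x).cur (farD κ (h0 * x) (tbl tKF x) (tbl tL x)) 0 3 3 0 3 1 1 :=
  (sideF hx hx').farA (Or.inl rfl) (Or.inl rfl) fun y y' F r1 r2 =>
    farXA_cert (s1 := true) (s2 := true) rfl hκ (ka0 hκ hx hx') (xa0 hx) hx' (covF00 hx hx') (covF33 hx hx') (x1 hx) (x2 hx')
        Pool.Agent.Strip051.G.IE1.Tab.C.FA03.c_pp_033 noCut_VA noExt_VA F r1 r2 r1 r2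

theorem FA03_pp_101 {κ x : ℝ} (hκ : κ * h0 = kenE x) (hx : 39 / 40 ≤ x) (hx' : x < 1) :
    TriA (DD x).cur (farD κ (h0 * x) (tbl tKF x) (tbl tL x)) 1 0 1 0 3 1 1 :=
  (sideF hx hx').farA (Or.inl rfl) (Or.inl rfl) fun y y' F r1 r2 =>
    farXA_cert (s1 := true) (s2 := true) rfl hκ (ka0 hκ hx hx') (xa0 hx) hx' (covF01 hx hx') (covF30 hx hx') (x1 hx) (x2 hx')
        Pool.Agent.Strip051.G.IE1.Tab.C.FA03.c_pp_101 noCut_VA noExt_VA F r1 r2 r1 r2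

theorem FA03_pp_102 {κ x : ℝ} (hκ : κ * h0 = kenE x) (hx : 39 / 40 ≤ x) (hx' : x < 1) :
    TriA (DD x).cur (farD κ (h0 * x) (tbl tKF x) (tbl tL x)) 1 0 2 0 3 1 1 :=
  (sideF hx hx').farA (Or.inl rfl) (Or.inl rfl) fun y y' F r1 r2 =>
    farXA_cert (s1 := true) (s2 := true) rfl hκ (ka0 hκ hx hx') (xa0 hx) hx' (covF01 hx hx') (covF30 hx hx') (x1 hx) (x2 hx')
        Pool.Agent.Strip051.G.IE1.Tab.C.FA03.c_pp_102 noCut_VA noExt_VA F r1 r2 r1 r2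

theorem FA03_pp_112 {κ x : ℝ} (hκ : κ * h0 = kenE x) (hx : 39 / 40 ≤ x) (hx' : x < 1) :
    TriA (DD x).cur (farD κ (h0 * x) (tbl tKF x) (tbl tL x)) 1 1 2 0 3 1 1 :=
  (sideF hx hx').farA (Or.inl rfl) (Or.inl rfl) fun y y' F r1 r2 =>
    farXA_cert (s1 := true) (s2 := true) rfl hκ (ka0 hκ hx hx') (xa0 hx) hx' (covF01 hx hx') (covF31 hx hx') (x1 hx) (x2 hx')
        Pool.Agent.Strip051.G.IE1.Tab.C.FA03.c_pp_112 noCut_VA noExt_VA F r1 r2 r1 r2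

theorem FA03_pp_113 {κ x : ℝ} (hκ : κ * h0 = kenE x) (hx : 39 / 40 ≤ x) (hx' : x < 1) :
    TriA (DD x).cur (farD κ (h0 * x) (tbl tKF x) (tbl tL x)) 1 1 3 0 3 1 1 :=
  (sideF hx hx').farA (Or.inl rfl) (Or.inl rfl) fun y y' F r1 r2 =>
    farXA_cert (s1 := true) (s2 := true) rfl hκ (ka0 hκ hx hx') (xa0 hx) hx' (covF01 hx hx') (covF31 hx hx') (x1 hx) (x2 hx')
        Pool.Agent.Strip051.G.IE1.Tab.C.FA03.c_pp_113 noCut_VA noExt_VA F r1 r2 r1 r2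

theorem FA03_pp_123 {κ x : ℝ} (hκ : κ * h0 = kenE x) (hx : 39 / 40 ≤ x) (hx' : x < 1) :
    TriA (DD x).cur (farD κ (h0 * x) (tbl tKF x) (tbl tL x)) 1 2 3 0 3 1 1 :=
  (sideF hx hx').farA (Or.inl rfl) (Or.inl rfl) fun y y' F r1 r2 =>
    farXA_cert (s1 := true) (s2 := true) rfl hκ (ka0 hκ hx hx') (xa0 hx) hx' (covF01 hx hx') (covF32 hx hx') (x1 hx) (x2 hx')
        Pool.Agent.Strip051.G.IE1.Tab.C.FA03.c_pp_123 noCut_VA noExt_VA F r1 r2 r1 r2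

theorem FA03_pp_133 {κ x : ℝ} (hκ : κ * h0 = kenE x) (hx : 39 / 40 ≤ x) (hx' : x < 1) :
    TriA (DD x).cur (farD κ (h0 * x) (tbl tKF x) (tbl tL x)) 1 3 3 0 3 1 1 :=
  (sideF hx hx').farA (Or.inl rfl) (Or.inl rfl) fun y y' F r1 r2 =>
    farXA_cert (s1 := true) (s2 := true) rfl hκ (ka0 hκ hx hx') (xa0 hx) hx' (covF01 hx hx') (covF33 hx hx') (x1 hx) (x2 hx')
        Pool.Agent.Strip051.G.IE1.Tab.C.FA03.c_pp_133 noCut_VA noExt_VA F r1 r2 r1 r2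

theorem FA03_pp_202 {κ x : ℝ} (hκ : κ * h0 = kenE x) (hx : 39 / 40 ≤ x) (hx' : x < 1) :
    TriA (DD x).cur (farD κ (h0 * x) (tbl tKF x) (tbl tL x)) 2 0 2 0 3 1 1 :=
  (sideF hx hx').farA (Or.inl rfl) (Or.inl rfl) fun y y' F r1 r2 =>
    farXA_cert (s1 := true) (s2 := true) rfl hκ (ka0 hκ hx hx') (xa0 hx) hx' (covF02 hx hx') (covF30 hx hx') (x1 hx) (x2 hx')
        Pool.Agent.Strip051.G.IE1.Tab.C.FA03.c_pp_202 noCut_VA noExt_VA F r1 r2 r1 r2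

theorem FA03_pp_203 {κ x : ℝ} (hκ : κ * h0 = kenE x) (hx : 39 / 40 ≤ x) (hx' : x < 1) :
    TriA (DD x).cur (farD κ (h0 * x) (tbl tKF x) (tbl tL x)) 2 0 3 0 3 1 1 :=
  (sideF hx hx').farA (Or.inl rfl) (Or.inl rfl) fun y y' F r1 r2 =>
    farXA_cert (s1 := true) (s2 := true) rfl hκ (ka0 hκ hx hx') (xa0 hx) hx' (covF02 hx hx') (covF30 hx hx') (x1 hx) (x2 hx')
        Pool.Agent.Strip051.G.IE1.Tab.C.FA03.c_pp_203 noCut_VA noExt_VA F r1 r2 r1 r2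

theorem FA03_pp_213 {κ x : ℝ} (hκ : κ * h0 = kenE x) (hx : 39 / 40 ≤ x) (hx' : x < 1) :
    TriA (DD x).cur (farD κ (h0 * x) (tbl tKF x) (tbl tL x)) 2 1 3 0 3 1 1 :=
  (sideF hx hx').farA (Or.inl rfl) (Or.inl rfl) fun y y' F r1 r2 =>
    farXA_cert (s1 := true) (s2 := true) rfl hκ (ka0 hκ hx hx') (xa0 hx) hx' (covF02 hx hx') (covF31 hx hx') (x1 hx) (x2 hx')
        Pool.Agent.Strip051.G.IE1.Tab.C.FA03.c_pp_213 noCut_VA noExt_VA F r1 r2 r1 r2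

theorem FA03_pp_303 {κ x : ℝ} (hκ : κ * h0 = kenE x) (hx : 39 / 40 ≤ x) (hx' : x < 1) :
    TriA (DD x).cur (farD κ (h0 * x) (tbl tKF x) (tbl tL x)) 3 0 3 0 3 1 1 :=
  triVA_j0

theorem FA03_pp_313 {κ x : ℝ} (hκ : κ * h0 = kenE x) (hx : 39 / 40 ≤ x) (hx' : x < 1) :
    TriA (DD x).cur (farD κ (h0 * x) (tbl tKF x) (tbl tL x)) 3 1 3 0 3 1 1 :=
  triVA_j0

theorem FA03_pm_001 {κ x : ℝ} (hκ : κ * h0 = kenE x) (hx : 39 / 40 ≤ x) (hx' : x < 1) :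
    TriA (DD x).cur (farD κ (h0 * x) (tbl tKF x) (tbl tL x)) 0 0 1 0 3 1 (-1) :=
  (sideF hx hx').farA (Or.inl rfl) (Or.inr rfl) fun y y' F r1 r2 =>
    farXA_cert (s1 := true) (s2 := false) rfl hκ (ka0 hκ hx hx') (xa0 hx) hx' (covF00 hx hx') (covF30 hx hx') (x1 hx) (x2 hx')
        Pool.Agent.Strip051.G.IE1.Tab.C.FA03.c_pm_001 noCut_VA noExt_VA F r1 r2 r1 r2

theorem FA03_pm_011 {κ x : ℝ} (hκ : κ * h0 = kenE x) (hx : 39 / 40 ≤ x) (hx' : x < 1) :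
    TriA (DD x).cur (farD κ (h0 * x) (tbl tKF x) (tbl tL x)) 0 1 1 0 3 1 (-1) :=
  (sideF hx hx').farA (Or.inl rfl) (Or.inr rfl) fun y y' F r1 r2 =>
    farXA_cert (s1 := true) (s2 := false) rfl hκ (ka0 hκ hx hx') (xa0 hx) hx' (covF00 hx hx') (covF31 hx hx') (x1 hx) (x2 hx')
        Pool.Agent.Strip051.G.IE1.Tab.C.FA03.c_pm_011 (cutVA_cons (Pool.Agent.Strip051.G.IE1.Tab.qF_A03pm_011_011 hκ hx hx') cutVA_nil) noExt_VA F r1 r2 r1 r2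

theorem FA03_pm_012 {κ x : ℝ} (hκ : κ * h0 = kenE x) (hx : 39 / 40 ≤ x) (hx' : x < 1) :
    TriA (DD x).cur (farD κ (h0 * x) (tbl tKF x) (tbl tL x)) 0 1 2 0 3 1 (-1) :=
  (sideF hx hx').farA (Or.inl rfl) (Or.inr rfl) fun y y' F r1 r2 =>
    farXA_cert (s1 := true) (s2 := false) rfl hκ (ka0 hκ hx hx') (xa0 hx) hx' (covF00 hx hx') (covF31 hx hx') (x1 hx) (x2 hx')
        Pool.Agent.Strip051.G.IE1.Tab.C.FA03.c_pm_012 (cutVA_cons (Pool.Agent.Strip051.G.IE1.Tab.qF_A03pm_012_011 hκ hx hx') cutVA_nil) noExt_VA F r1 r2 r1 r2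

theorem FA03_pm_022 {κ x : ℝ} (hκ : κ * h0 = kenE x) (hx : 39 / 40 ≤ x) (hx' : x < 1) :
    TriA (DD x).cur (farD κ (h0 * x) (tbl tKF x) (tbl tL x)) 0 2 2 0 3 1 (-1) :=
  (sideF hx hx').farA (Or.inl rfl) (Or.inr rfl) fun y y' F r1 r2 =>
    farXA_cert (s1 := true) (s2 := false) rfl hκ (ka0 hκ hx hx') (xa0 hx) hx' (covF00 hx hx') (covF32 hx hx') (x1 hx) (x2 hx')
        Pool.Agent.Strip051.G.IE1.Tab.C.FA03.c_pm_022 (cutVA_cons (Pool.Agent.Strip051.G.IE1.Tab.qF_A03pm_022_011 hκ hx hx') cutVA_nil) noExt_VA F r1 r2 r1 r2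

theorem FA03_pm_023 {κ x : ℝ} (hκ : κ * h0 = kenE x) (hx : 39 / 40 ≤ x) (hx' : x < 1) :
    TriA (DD x).cur (farD κ (h0 * x) (tbl tKF x) (tbl tL x)) 0 2 3 0 3 1 (-1) :=
  (sideF hx hx').farA (Or.inl rfl) (Or.inr rfl) fun y y' F r1 r2 =>
    farXA_cert (s1 := true) (s2 := false) rfl hκ (ka0 hκ hx hx') (xa0 hx) hx' (covF00 hx hx') (covF32 hx hx') (x1 hx) (x2 hx')
        Pool.Agent.Strip051.G.IE1.Tab.C.FA03.c_pm_023 noCut_VA noExt_VA F r1 r2 r1 r2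

theorem FA03_pm_033 {κ x : ℝ} (hκ : κ * h0 = kenE x) (hx : 39 / 40 ≤ x) (hx' : x < 1) :
    TriA (DD x).cur (farD κ (h0 * x) (tbl tKF x) (tbl tL x)) 0 3 3 0 3 1 (-1) :=
  (sideF hx hx').farA (Or.inl rfl) (Or.inr rfl) fun y y' F r1 r2 =>
    farXA_cert (s1 := true) (s2 := false) rfl hκ (ka0 hκ hx hx') (xa0 hx) hx' (covF00 hx hx') (covF33 hx hx') (x1 hx) (x2 hx')
        Pool.Agent.Strip051.G.IE1.Tab.C.FA03.c_pm_033 noCut_VA noExt_VA F r1 r2 r1 r2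

theorem FA03_pm_101 {κ x : ℝ} (hκ : κ * h0 = kenE x) (hx : 39 / 40 ≤ x) (hx' : x < 1) :
    TriA (DD x).cur (farD κ (h0 * x) (tbl tKF x) (tbl tL x)) 1 0 1 0 3 1 (-1) :=
  (sideF hx hx').farA (Or.inl rfl) (Or.inr rfl) fun y y' F r1 r2 =>
    farXA_cert (s1 := true) (s2 := false) rfl hκ (ka0 hκ hx hx') (xa0 hx) hx' (covF01 hx hx') (covF30 hx hx') (x1 hx) (x2 hx')
        Pool.Agent.Strip051.G.IE1.Tab.C.FA03.c_pm_101 (cutVA_cons (Pool.Agent.Strip051.G.IE1.Tab.qF_A03pm_101_101 hκ hx hx') cutVA_nil) noExt_VA F r1 r2 r1 r2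

theorem FA03_pm_102 {κ x : ℝ} (hκ : κ * h0 = kenE x) (hx : 39 / 40 ≤ x) (hx' : x < 1) :
    TriA (DD x).cur (farD κ (h0 * x) (tbl tKF x) (tbl tL x)) 1 0 2 0 3 1 (-1) :=
  (sideF hx hx').farA (Or.inl rfl) (Or.inr rfl) fun y y' F r1 r2 =>
    farXA_cert (s1 := true) (s2 := false) rfl hκ (ka0 hκ hx hx') (xa0 hx) hx' (covF01 hx hx') (covF30 hx hx') (x1 hx) (x2 hx')
        Pool.Agent.Strip051.G.IE1.Tab.C.FA03.c_pm_102 (cutVA_cons (Pool.Agent.Strip051.G.IE1.Tab.qF_A03pm_102_101 hκ hx hx') cutVA_nil) noExt_VA F r1 r2 r1 r2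

theorem FA03_pm_112 {κ x : ℝ} (hκ : κ * h0 = kenE x) (hx : 39 / 40 ≤ x) (hx' : x < 1) :
    TriA (DD x).cur (farD κ (h0 * x) (tbl tKF x) (tbl tL x)) 1 1 2 0 3 1 (-1) :=
  (sideF hx hx').farA (Or.inl rfl) (Or.inr rfl) fun y y' F r1 r2 =>
    farXA_cert (s1 := true) (s2 := false) rfl hκ (ka0 hκ hx hx') (xa0 hx) hx' (covF01 hx hx') (covF31 hx hx') (x1 hx) (x2 hx')
        Pool.Agent.Strip051.G.IE1.Tab.C.FA03.c_pm_112 noCut_VA noExt_VA F r1 r2 r1 r2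

theorem FA03_pm_113 {κ x : ℝ} (hκ : κ * h0 = kenE x) (hx : 39 / 40 ≤ x) (hx' : x < 1) :
    TriA (DD x).cur (farD κ (h0 * x) (tbl tKF x) (tbl tL x)) 1 1 3 0 3 1 (-1) :=
  (sideF hx hx').farA (Or.inl rfl) (Or.inr rfl) fun y y' F r1 r2 =>
    farXA_cert (s1 := true) (s2 := false) rfl hκ (ka0 hκ hx hx') (xa0 hx) hx' (covF01 hx hx') (covF31 hx hx') (x1 hx) (x2 hx')
        Pool.Agent.Strip051.G.IE1.Tab.C.FA03.c_pm_113 noCut_VA noExt_VA F r1 r2 r1 r2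

theorem FA03_pm_123 {κ x : ℝ} (hκ : κ * h0 = kenE x) (hx : 39 / 40 ≤ x) (hx' : x < 1) :
    TriA (DD x).cur (farD κ (h0 * x) (tbl tKF x) (tbl tL x)) 1 2 3 0 3 1 (-1) :=
  (sideF hx hx').farA (Or.inl rfl) (Or.inr rfl) fun y y' F r1 r2 =>
    farXA_cert (s1 := true) (s2 := false) rfl hκ (ka0 hκ hx hx') (xa0 hx) hx' (covF01 hx hx') (covF32 hx hx') (x1 hx) (x2 hx')
        Pool.Agent.Strip051.G.IE1.Tab.C.FA03.c_pm_123 (cutVA_cons (Pool.Agent.Strip051.G.IE1.Tab.qF_A03pm_123_112 hκ hx hx') cutVA_nil) noExt_VA F r1 r2 r1 r2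

theorem FA03_pm_133 {κ x : ℝ} (hκ : κ * h0 = kenE x) (hx : 39 / 40 ≤ x) (hx' : x < 1) :
    TriA (DD x).cur (farD κ (h0 * x) (tbl tKF x) (tbl tL x)) 1 3 3 0 3 1 (-1) :=
  (sideF hx hx').farA (Or.inl rfl) (Or.inr rfl) fun y y' F r1 r2 =>
    farXA_cert (s1 := true) (s2 := false) rfl hκ (ka0 hκ hx hx') (xa0 hx) hx' (covF01 hx hx') (covF33 hx hx') (x1 hx) (x2 hx')
        Pool.Agent.Strip051.G.IE1.Tab.C.FA03.c_pm_133 noCut_VA noExt_VA F r1 r2 r1 r2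

theorem FA03_pm_202 {κ x : ℝ} (hκ : κ * h0 = kenE x) (hx : 39 / 40 ≤ x) (hx' : x < 1) :
    TriA (DD x).cur (farD κ (h0 * x) (tbl tKF x) (tbl tL x)) 2 0 2 0 3 1 (-1) :=
  (sideF hx hx').farA (Or.inl rfl) (Or.inr rfl) fun y y' F r1 r2 =>
    farXA_cert (s1 := true) (s2 := false) rfl hκ (ka0 hκ hx hx') (xa0 hx) hx' (covF02 hx hx') (covF30 hx hx') (x1 hx) (x2 hx')
        Pool.Agent.Strip051.G.IE1.Tab.C.FA03.c_pm_202 (cutVA_cons (Pool.Agent.Strip051.G.IE1.Tab.qF_A03pm_202_101 hκ hx hx') cutVA_nil) noExt_VA F r1 r2 r1 r2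

theorem FA03_pm_203 {κ x : ℝ} (hκ : κ * h0 = kenE x) (hx : 39 / 40 ≤ x) (hx' : x < 1) :
    TriA (DD x).cur (farD κ (h0 * x) (tbl tKF x) (tbl tL x)) 2 0 3 0 3 1 (-1) :=
  (sideF hx hx').farA (Or.inl rfl) (Or.inr rfl) fun y y' F r1 r2 =>
    farXA_cert (s1 := true) (s2 := false) rfl hκ (ka0 hκ hx hx') (xa0 hx) hx' (covF02 hx hx') (covF30 hx hx') (x1 hx) (x2 hx')
        Pool.Agent.Strip051.G.IE1.Tab.C.FA03.c_pm_203 noCut_VA noExt_VA F r1 r2 r1 r2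

theorem FA03_pm_213 {κ x : ℝ} (hκ : κ * h0 = kenE x) (hx : 39 / 40 ≤ x) (hx' : x < 1) :
    TriA (DD x).cur (farD κ (h0 * x) (tbl tKF x) (tbl tL x)) 2 1 3 0 3 1 (-1) :=
  (sideF hx hx').farA (Or.inl rfl) (Or.inr rfl) fun y y' F r1 r2 =>
    farXA_cert (s1 := true) (s2 := false) rfl hκ (ka0 hκ hx hx') (xa0 hx) hx' (covF02 hx hx') (covF31 hx hx') (x1 hx) (x2 hx')
        Pool.Agent.Strip051.G.IE1.Tab.C.FA03.c_pm_213 noCut_VA noExt_VA F r1 r2 r1 r2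

theorem FA03_pm_303 {κ x : ℝ} (hκ : κ * h0 = kenE x) (hx : 39 / 40 ≤ x) (hx' : x < 1) :
    TriA (DD x).cur (farD κ (h0 * x) (tbl tKF x) (tbl tL x)) 3 0 3 0 3 1 (-1) :=
  triVA_j0

theorem FA03_pm_313 {κ x : ℝ} (hκ : κ * h0 = kenE x) (hx : 39 / 40 ≤ x) (hx' : x < 1) :
    TriA (DD x).cur (farD κ (h0 * x) (tbl tKF x) (tbl tL x)) 3 1 3 0 3 1 (-1) :=
  triVA_j0

theorem FA03_mm_001 {κ x : ℝ} (hκ : κ * h0 = kenE x) (hx : 39 / 40 ≤ x) (hx' : x < 1) :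
    TriA (DD x).cur (farD κ (h0 * x) (tbl tKF x) (tbl tL x)) 0 0 1 0 3 (-1) (-1) :=
  (sideF hx hx').farA (Or.inr rfl) (Or.inr rfl) fun y y' F r1 r2 =>
    farXA_cert (s1 := false) (s2 := false) rfl hκ (ka0 hκ hx hx') (xa0 hx) hx' (covF00 hx hx') (covF30 hx hx') (x1 hx) (x2 hx')
        Pool.Agent.Strip051.G.IE1.Tab.C.FA03.c_mm_001 noCut_VA noExt_VA F r1 r2 r1 r2

theorem FA03_mm_011 {κ x : ℝ} (hκ : κ * h0 = kenE x) (hx : 39 / 40 ≤ x) (hx' : x < 1) :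
    TriA (DD x).cur (farD κ (h0 * x) (tbl tKF x) (tbl tL x)) 0 1 1 0 3 (-1) (-1) :=
  (sideF hx hx').farA (Or.inr rfl) (Or.inr rfl) fun y y' F r1 r2 =>
    farXA_cert (s1 := false) (s2 := false) rfl hκ (ka0 hκ hx hx') (xa0 hx) hx' (covF00 hx hx') (covF31 hx hx') (x1 hx) (x2 hx')
        Pool.Agent.Strip051.G.IE1.Tab.C.FA03.c_mm_011 noCut_VA noExt_VA F r1 r2 r1 r2

theorem FA03_mm_012 {κ x : ℝ} (hκ : κ * h0 = kenE x) (hx : 39 / 40 ≤ x) (hx' : x < 1) :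
    TriA (DD x).cur (farD κ (h0 * x) (tbl tKF x) (tbl tL x)) 0 1 2 0 3 (-1) (-1) :=
  (sideF hx hx').farA (Or.inr rfl) (Or.inr rfl) fun y y' F r1 r2 =>
    farXA_cert (s1 := false) (s2 := false) rfl hκ (ka0 hκ hx hx') (xa0 hx) hx' (covF00 hx hx') (covF31 hx hx') (x1 hx) (x2 hx')
        Pool.Agent.Strip051.G.IE1.Tab.C.FA03.c_mm_012 noCut_VA noExt_VA F r1 r2 r1 r2

theorem FA03_mm_022 {κ x : ℝ} (hκ : κ * h0 = kenE x) (hx : 39 / 40 ≤ x) (hx' : x < 1) :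
    TriA (DD x).cur (farD κ (h0 * x) (tbl tKF x) (tbl tL x)) 0 2 2 0 3 (-1) (-1) :=
  (sideF hx hx').farA (Or.inr rfl) (Or.inr rfl) fun y y' F r1 r2 =>
    farXA_cert (s1 := false) (s2 := false) rfl hκ (ka0 hκ hx hx') (xa0 hx) hx' (covF00 hx hx') (covF32 hx hx') (x1 hx) (x2 hx')
        Pool.Agent.Strip051.G.IE1.Tab.C.FA03.c_mm_022 noCut_VA noExt_VA F r1 r2 r1 r2

theorem FA03_mm_023 {κ x : ℝ} (hκ : κ * h0 = kenE x) (hx : 39 / 40 ≤ x) (hx' : x < 1) :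
    TriA (DD x).cur (farD κ (h0 * x) (tbl tKF x) (tbl tL x)) 0 2 3 0 3 (-1) (-1) :=
  (sideF hx hx').farA (Or.inr rfl) (Or.inr rfl) fun y y' F r1 r2 =>
    farXA_cert (s1 := false) (s2 := false) rfl hκ (ka0 hκ hx hx') (xa0 hx) hx' (covF00 hx hx') (covF32 hx hx') (x1 hx) (x2 hx')
        Pool.Agent.Strip051.G.IE1.Tab.C.FA03.c_mm_023 noCut_VA noExt_VA F r1 r2 r1 r2

theorem FA03_mm_033 {κ x : ℝ} (hκ : κ * h0 = kenE x) (hx : 39 / 40 ≤ x) (hx' : x < 1) :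
    TriA (DD x).cur (farD κ (h0 * x) (tbl tKF x) (tbl tL x)) 0 3 3 0 3 (-1) (-1) :=
  (sideF hx hx').farA (Or.inr rfl) (Or.inr rfl) fun y y' F r1 r2 =>
    farXA_cert (s1 := false) (s2 := false) rfl hκ (ka0 hκ hx hx') (xa0 hx) hx' (covF00 hx hx') (covF33 hx hx') (x1 hx) (x2 hx')
        Pool.Agent.Strip051.G.IE1.Tab.C.FA03.c_mm_033 noCut_VA noExt_VA F r1 r2 r1 r2

theorem FA03_mm_101 {κ x : ℝ} (hκ : κ * h0 = kenE x) (hx : 39 / 40 ≤ x) (hx' : x < 1) :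
    TriA (DD x).cur (farD κ (h0 * x) (tbl tKF x) (tbl tL x)) 1 0 1 0 3 (-1) (-1) :=
  (sideF hx hx').farA (Or.inr rfl) (Or.inr rfl) fun y y' F r1 r2 =>
    farXA_cert (s1 := false) (s2 := false) rfl hκ (ka0 hκ hx hx') (xa0 hx) hx' (covF01 hx hx') (covF30 hx hx') (x1 hx) (x2 hx')
        Pool.Agent.Strip051.G.IE1.Tab.C.FA03.c_mm_101 (cutVA_cons (Pool.Agent.Strip051.G.IE1.Tab.qF_A03mm_101_101 hκ hx hx') cutVA_nil) noExt_VA F r1 r2 r1 r2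

theorem FA03_mm_102 {κ x : ℝ} (hκ : κ * h0 = kenE x) (hx : 39 / 40 ≤ x) (hx' : x < 1) :
    TriA (DD x).cur (farD κ (h0 * x) (tbl tKF x) (tbl tL x)) 1 0 2 0 3 (-1) (-1) :=
  (sideF hx hx').farA (Or.inr rfl) (Or.inr rfl) fun y y' F r1 r2 =>
    farXA_cert (s1 := false) (s2 := false) rfl hκ (ka0 hκ hx hx') (xa0 hx) hx' (covF01 hx hx') (covF30 hx hx') (x1 hx) (x2 hx')
        Pool.Agent.Strip051.G.IE1.Tab.C.FA03.c_mm_102 (cutVA_cons (Pool.Agent.Strip051.G.IE1.Tab.qF_A03mm_102_101 hκ hx hx') cutVA_nil) noExt_VA F r1 r2 r1 r2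

theorem FA03_mm_112 {κ x : ℝ} (hκ : κ * h0 = kenE x) (hx : 39 / 40 ≤ x) (hx' : x < 1) :
    TriA (DD x).cur (farD κ (h0 * x) (tbl tKF x) (tbl tL x)) 1 1 2 0 3 (-1) (-1) :=
  (sideF hx hx').farA (Or.inr rfl) (Or.inr rfl) fun y y' F r1 r2 =>
    farXA_cert (s1 := false) (s2 := false) rfl hκ (ka0 hκ hx hx') (xa0 hx) hx' (covF01 hx hx') (covF31 hx hx') (x1 hx) (x2 hx')
        Pool.Agent.Strip051.G.IE1.Tab.C.FA03.c_mm_112 noCut_VA noExt_VA F r1 r2 r1 r2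

theorem FA03_mm_113 {κ x : ℝ} (hκ : κ * h0 = kenE x) (hx : 39 / 40 ≤ x) (hx' : x < 1) :
    TriA (DD x).cur (farD κ (h0 * x) (tbl tKF x) (tbl tL x)) 1 1 3 0 3 (-1) (-1) :=
  (sideF hx hx').farA (Or.inr rfl) (Or.inr rfl) fun y y' F r1 r2 =>
    farXA_cert (s1 := false) (s2 := false) rfl hκ (ka0 hκ hx hx') (xa0 hx) hx' (covF01 hx hx') (covF31 hx hx') (x1 hx) (x2 hx')
        Pool.Agent.Strip051.G.IE1.Tab.C.FA03.c_mm_113 noCut_VA noExt_VA F r1 r2 r1 r2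

theorem FA03_mm_123 {κ x : ℝ} (hκ : κ * h0 = kenE x) (hx : 39 / 40 ≤ x) (hx' : x < 1) :
    TriA (DD x).cur (farD κ (h0 * x) (tbl tKF x) (tbl tL x)) 1 2 3 0 3 (-1) (-1) :=
  (sideF hx hx').farA (Or.inr rfl) (Or.inr rfl) fun y y' F r1 r2 =>
    farXA_cert (s1 := false) (s2 := false) rfl hκ (ka0 hκ hx hx') (xa0 hx) hx' (covF01 hx hx') (covF32 hx hx') (x1 hx) (x2 hx')
        Pool.Agent.Strip051.G.IE1.Tab.C.FA03.c_mm_123 noCut_VA noExt_VA F r1 r2 r1 r2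

theorem FA03_mm_133 {κ x : ℝ} (hκ : κ * h0 = kenE x) (hx : 39 / 40 ≤ x) (hx' : x < 1) :
    TriA (DD x).cur (farD κ (h0 * x) (tbl tKF x) (tbl tL x)) 1 3 3 0 3 (-1) (-1) :=
  (sideF hx hx').farA (Or.inr rfl) (Or.inr rfl) fun y y' F r1 r2 =>
    farXA_cert (s1 := false) (s2 := false) rfl hκ (ka0 hκ hx hx') (xa0 hx) hx' (covF01 hx hx') (covF33 hx hx') (x1 hx) (x2 hx')
        Pool.Agent.Strip051.G.IE1.Tab.C.FA03.c_mm_133 noCut_VA noExt_VA F r1 r2 r1 r2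

theorem FA03_mm_202 {κ x : ℝ} (hκ : κ * h0 = kenE x) (hx : 39 / 40 ≤ x) (hx' : x < 1) :
    TriA (DD x).cur (farD κ (h0 * x) (tbl tKF x) (tbl tL x)) 2 0 2 0 3 (-1) (-1) :=
  (sideF hx hx').farA (Or.inr rfl) (Or.inr rfl) fun y y' F r1 r2 =>
    farXA_cert (s1 := false) (s2 := false) rfl hκ (ka0 hκ hx hx') (xa0 hx) hx' (covF02 hx hx') (covF30 hx hx') (x1 hx) (x2 hx')
        Pool.Agent.Strip051.G.IE1.Tab.C.FA03.c_mm_202 (cutVA_cons (Pool.Agent.Strip051.G.IE1.Tab.qF_A03mm_202_101 hκ hx hx') cutVA_nil) noExt_VA F r1 r2 r1 r2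

theorem FA03_mm_203 {κ x : ℝ} (hκ : κ * h0 = kenE x) (hx : 39 / 40 ≤ x) (hx' : x < 1) :
    TriA (DD x).cur (farD κ (h0 * x) (tbl tKF x) (tbl tL x)) 2 0 3 0 3 (-1) (-1) :=
  (sideF hx hx').farA (Or.inr rfl) (Or.inr rfl) fun y y' F r1 r2 =>
    farXA_cert (s1 := false) (s2 := false) rfl hκ (ka0 hκ hx hx') (xa0 hx) hx' (covF02 hx hx') (covF30 hx hx') (x1 hx) (x2 hx')
        Pool.Agent.Strip051.G.IE1.Tab.C.FA03.c_mm_203 noCut_VA noExt_VA F r1 r2 r1 r2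

theorem FA03_mm_213 {κ x : ℝ} (hκ : κ * h0 = kenE x) (hx : 39 / 40 ≤ x) (hx' : x < 1) :
    TriA (DD x).cur (farD κ (h0 * x) (tbl tKF x) (tbl tL x)) 2 1 3 0 3 (-1) (-1) :=
  (sideF hx hx').farA (Or.inr rfl) (Or.inr rfl) fun y y' F r1 r2 =>
    farXA_cert (s1 := false) (s2 := false) rfl hκ (ka0 hκ hx hx') (xa0 hx) hx' (covF02 hx hx') (covF31 hx hx') (x1 hx) (x2 hx')
        Pool.Agent.Strip051.G.IE1.Tab.C.FA03.c_mm_213 noCut_VA noExt_VA F r1 r2 r1 r2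

theorem FA03_mm_303 {κ x : ℝ} (hκ : κ * h0 = kenE x) (hx : 39 / 40 ≤ x) (hx' : x < 1) :
    TriA (DD x).cur (farD κ (h0 * x) (tbl tKF x) (tbl tL x)) 3 0 3 0 3 (-1) (-1) :=
  triVA_j0

theorem FA03_mm_313 {κ x : ℝ} (hκ : κ * h0 = kenE x) (hx : 39 / 40 ≤ x) (hx' : x < 1) :
    TriA (DD x).cur (farD κ (h0 * x) (tbl tKF x) (tbl tL x)) 3 1 3 0 3 (-1) (-1) :=
  triVA_j0

theorem FA03 {κ x : ℝ} (hκ : κ * h0 = kenE x) (hx : 39 / 40 ≤ x) (hx' : x < 1) : AllTA (DD x).cur (farD κ (h0 * x) (tbl tKF x) (tbl tL x)) 0 3 where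
  pp := all17 (Q := fun a b c => TriA (DD x).cur (farD κ (h0 * x) (tbl tKF x) (tbl tL x)) a b c 0 3 1 1)
    (FA03_pp_001 hκ hx hx') (FA03_pp_011 hκ hx hx') (FA03_pp_012 hκ hx hx') (FA03_pp_022 hκ hx hx') (FA03_pp_023 hκ hx hx') (FA03_pp_033 hκ hx hx') (FA03_pp_101 hκ hx hx') (FA03_pp_102 hκ hx hx') (FA03_pp_112 hκ hx hx') (FA03_pp_113 hκ hx hx') (FA03_pp_123 hκ hx hx') (FA03_pp_133 hκ hx hx') (FA03_pp_202 hκ hx hx') (FA03_pp_203 hκ hx hx') (FA03_pp_213 hκ hx hx') (FA03_pp_303 hκ hx hx') (FA03_pp_313 hκ hx hx')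
  pm := all17 (Q := fun a b c => TriA (DD x).cur (farD κ (h0 * x) (tbl tKF x) (tbl tL x)) a b c 0 3 1 (-1))
    (FA03_pm_001 hκ hx hx') (FA03_pm_011 hκ hx hx') (FA03_pm_012 hκ hx hx') (FA03_pm_022 hκ hx hx') (FA03_pm_023 hκ hx hx') (FA03_pm_033 hκ hx hx') (FA03_pm_101 hκ hx hx') (FA03_pm_102 hκ hx hx') (FA03_pm_112 hκ hx hx') (FA03_pm_113 hκ hx hx') (FA03_pm_123 hκ hx hx') (FA03_pm_133 hκ hx hx') (FA03_pm_202 hκ hx hx') (FA03_pm_203 hκ hx hx') (FA03_pm_213 hκ hx hx') (FA03_pm_303 hκ hx hx') (FA03_pm_313 hκ hx hx')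
  mm := all17 (Q := fun a b c => TriA (DD x).cur (farD κ (h0 * x) (tbl tKF x) (tbl tL x)) a b c 0 3 (-1) (-1))
    (FA03_mm_001 hκ hx hx') (FA03_mm_011 hκ hx hx') (FA03_mm_012 hκ hx hx') (FA03_mm_022 hκ hx hx') (FA03_mm_023 hκ hx hx') (FA03_mm_033 hκ hx hx') (FA03_mm_101 hκ hx hx') (FA03_mm_102 hκ hx hx') (FA03_mm_112 hκ hx hx') (FA03_mm_113 hκ hx hx') (FA03_mm_123 hκ hx hx') (FA03_mm_133 hκ hx hx') (FA03_mm_202 hκ hx hx') (FA03_mm_203 hκ hx hx') (FA03_mm_213 hκ hx hx') (FA03_mm_303 hκ hx hx') (FA03_mm_313 hκ hx hx')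

theorem FA04_pp_001 {κ x : ℝ} (hκ : κ * h0 = kenE x) (hx : 39 / 40 ≤ x) (hx' : x < 1) :
    TriA (DD x).cur (farD κ (h0 * x) (tbl tKF x) (tbl tL x)) 0 0 1 0 4 1 1 :=
  (sideF hx hx').farA (Or.inl rfl) (Or.inl rfl) fun y y' F r1 r2 =>
    farXA_cert (s1 := true) (s2 := true) rfl hκ (ka0 hκ hx hx') (xa0 hx) hx' (covF00 hx hx') (covF40 hx hx') (x1 hx) (x2 hx')
        Pool.Agent.Strip051.G.IE1.Tab.C.FA04.c_pp_001 noCut_VA noExt_VA F r1 r2 r1 r2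

theorem FA04_pp_011 {κ x : ℝ} (hκ : κ * h0 = kenE x) (hx : 39 / 40 ≤ x) (hx' : x < 1) :
    TriA (DD x).cur (farD κ (h0 * x) (tbl tKF x) (tbl tL x)) 0 1 1 0 4 1 1 :=
  triVA_k nr4_1

theorem FA04_pp_012 {κ x : ℝ} (hκ : κ * h0 = kenE x) (hx : 39 / 40 ≤ x) (hx' : x < 1) :
    TriA (DD x).cur (farD κ (h0 * x) (tbl tKF x) (tbl tL x)) 0 1 2 0 4 1 1 :=
  triVA_k nr4_1

theorem FA04_pp_022 {κ x : ℝ} (hκ : κ * h0 = kenE x) (hx : 39 / 40 ≤ x) (hx' : x < 1) :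
    TriA (DD x).cur (farD κ (h0 * x) (tbl tKF x) (tbl tL x)) 0 2 2 0 4 1 1 :=
  triVA_k nr4_2

theorem FA04_pp_023 {κ x : ℝ} (hκ : κ * h0 = kenE x) (hx : 39 / 40 ≤ x) (hx' : x < 1) :
    TriA (DD x).cur (farD κ (h0 * x) (tbl tKF x) (tbl tL x)) 0 2 3 0 4 1 1 :=
  triVA_k nr4_2

theorem FA04_pp_033 {κ x : ℝ} (hκ : κ * h0 = kenE x) (hx : 39 / 40 ≤ x) (hx' : x < 1) :
    TriA (DD x).cur (farD κ (h0 * x) (tbl tKF x) (tbl tL x)) 0 3 3 0 4 1 1 :=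
  triVA_k nr4_3

theorem FA04_pp_101 {κ x : ℝ} (hκ : κ * h0 = kenE x) (hx : 39 / 40 ≤ x) (hx' : x < 1) :
    TriA (DD x).cur (farD κ (h0 * x) (tbl tKF x) (tbl tL x)) 1 0 1 0 4 1 1 :=
  (sideF hx hx').farA (Or.inl rfl) (Or.inl rfl) fun y y' F r1 r2 =>
    farXA_cert (s1 := true) (s2 := true) rfl hκ (ka0 hκ hx hx') (xa0 hx) hx' (covF01 hx hx') (covF40 hx hx') (x1 hx) (x2 hx')
        Pool.Agent.Strip051.G.IE1.Tab.C.FA04.c_pp_101 noCut_VA noExt_VA F r1 r2 r1 r2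

theorem FA04_pp_102 {κ x : ℝ} (hκ : κ * h0 = kenE x) (hx : 39 / 40 ≤ x) (hx' : x < 1) :
    TriA (DD x).cur (farD κ (h0 * x) (tbl tKF x) (tbl tL x)) 1 0 2 0 4 1 1 :=
  (sideF hx hx').farA (Or.inl rfl) (Or.inl rfl) fun y y' F r1 r2 =>
    farXA_cert (s1 := true) (s2 := true) rfl hκ (ka0 hκ hx hx') (xa0 hx) hx' (covF01 hx hx') (covF40 hx hx') (x1 hx) (x2 hx')
        Pool.Agent.Strip051.G.IE1.Tab.C.FA04.c_pp_102 noCut_VA noExt_VA F r1 r2 r1 r2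

theorem FA04_pp_112 {κ x : ℝ} (hκ : κ * h0 = kenE x) (hx : 39 / 40 ≤ x) (hx' : x < 1) :
    TriA (DD x).cur (farD κ (h0 * x) (tbl tKF x) (tbl tL x)) 1 1 2 0 4 1 1 :=
  triVA_k nr4_1

theorem FA04_pp_113 {κ x : ℝ} (hκ : κ * h0 = kenE x) (hx : 39 / 40 ≤ x) (hx' : x < 1) :
    TriA (DD x).cur (farD κ (h0 * x) (tbl tKF x) (tbl tL x)) 1 1 3 0 4 1 1 :=
  triVA_k nr4_1

theorem FA04_pp_123 {κ x : ℝ} (hκ : κ * h0 = kenE x) (hx : 39 / 40 ≤ x) (hx' : x < 1) :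
    TriA (DD x).cur (farD κ (h0 * x) (tbl tKF x) (tbl tL x)) 1 2 3 0 4 1 1 :=
  triVA_k nr4_2

theorem FA04_pp_133 {κ x : ℝ} (hκ : κ * h0 = kenE x) (hx : 39 / 40 ≤ x) (hx' : x < 1) :
    TriA (DD x).cur (farD κ (h0 * x) (tbl tKF x) (tbl tL x)) 1 3 3 0 4 1 1 :=
  triVA_k nr4_3

theorem FA04_pp_202 {κ x : ℝ} (hκ : κ * h0 = kenE x) (hx : 39 / 40 ≤ x) (hx' : x < 1) :
    TriA (DD x).cur (farD κ (h0 * x) (tbl tKF x) (tbl tL x)) 2 0 2 0 4 1 1 :=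
  (sideF hx hx').farA (Or.inl rfl) (Or.inl rfl) fun y y' F r1 r2 =>
    farXA_cert (s1 := true) (s2 := true) rfl hκ (ka0 hκ hx hx') (xa0 hx) hx' (covF02 hx hx') (covF40 hx hx') (x1 hx) (x2 hx')
        Pool.Agent.Strip051.G.IE1.Tab.C.FA04.c_pp_202 noCut_VA noExt_VA F r1 r2 r1 r2

theorem FA04_pp_203 {κ x : ℝ} (hκ : κ * h0 = kenE x) (hx : 39 / 40 ≤ x) (hx' : x < 1) :
    TriA (DD x).cur (farD κ (h0 * x) (tbl tKF x) (tbl tL x)) 2 0 3 0 4 1 1 :=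
  (sideF hx hx').farA (Or.inl rfl) (Or.inl rfl) fun y y' F r1 r2 =>
    farXA_cert (s1 := true) (s2 := true) rfl hκ (ka0 hκ hx hx') (xa0 hx) hx' (covF02 hx hx') (covF40 hx hx') (x1 hx) (x2 hx')
        Pool.Agent.Strip051.G.IE1.Tab.C.FA04.c_pp_203 noCut_VA noExt_VA F r1 r2 r1 r2

theorem FA04_pp_213 {κ x : ℝ} (hκ : κ * h0 = kenE x) (hx : 39 / 40 ≤ x) (hx' : x < 1) :
    TriA (DD x).cur (farD κ (h0 * x) (tbl tKF x) (tbl tL x)) 2 1 3 0 4 1 1 :=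
  triVA_k nr4_1

theorem FA04_pp_303 {κ x : ℝ} (hκ : κ * h0 = kenE x) (hx : 39 / 40 ≤ x) (hx' : x < 1) :
    TriA (DD x).cur (farD κ (h0 * x) (tbl tKF x) (tbl tL x)) 3 0 3 0 4 1 1 :=
  triVA_j0

theorem FA04_pp_313 {κ x : ℝ} (hκ : κ * h0 = kenE x) (hx : 39 / 40 ≤ x) (hx' : x < 1) :
    TriA (DD x).cur (farD κ (h0 * x) (tbl tKF x) (tbl tL x)) 3 1 3 0 4 1 1 :=
  triVA_j0

theorem FA04_pm_001 {κ x : ℝ} (hκ : κ * h0 = kenE x) (hx : 39 / 40 ≤ x) (hx' : x < 1) :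
    TriA (DD x).cur (farD κ (h0 * x) (tbl tKF x) (tbl tL x)) 0 0 1 0 4 1 (-1) :=
  (sideF hx hx').farA (Or.inl rfl) (Or.inr rfl) fun y y' F r1 r2 =>
    farXA_cert (s1 := true) (s2 := false) rfl hκ (ka0 hκ hx hx') (xa0 hx) hx' (covF00 hx hx') (covF40 hx hx') (x1 hx) (x2 hx')
        Pool.Agent.Strip051.G.IE1.Tab.C.FA04.c_pm_001 noCut_VA noExt_VA F r1 r2 r1 r2

theorem FA04_pm_011 {κ x : ℝ} (hκ : κ * h0 = kenE x) (hx : 39 / 40 ≤ x) (hx' : x < 1) :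
    TriA (DD x).cur (farD κ (h0 * x) (tbl tKF x) (tbl tL x)) 0 1 1 0 4 1 (-1) :=
  triVA_k nr4_1

theorem FA04_pm_012 {κ x : ℝ} (hκ : κ * h0 = kenE x) (hx : 39 / 40 ≤ x) (hx' : x < 1) :
    TriA (DD x).cur (farD κ (h0 * x) (tbl tKF x) (tbl tL x)) 0 1 2 0 4 1 (-1) :=
  triVA_k nr4_1

theorem FA04_pm_022 {κ x : ℝ} (hκ : κ * h0 = kenE x) (hx : 39 / 40 ≤ x) (hx' : x < 1) :
    TriA (DD x).cur (farD κ (h0 * x) (tbl tKF x) (tbl tL x)) 0 2 2 0 4 1 (-1) :=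
  triVA_k nr4_2

theorem FA04_pm_023 {κ x : ℝ} (hκ : κ * h0 = kenE x) (hx : 39 / 40 ≤ x) (hx' : x < 1) :
    TriA (DD x).cur (farD κ (h0 * x) (tbl tKF x) (tbl tL x)) 0 2 3 0 4 1 (-1) :=
  triVA_k nr4_2

theorem FA04_pm_033 {κ x : ℝ} (hκ : κ * h0 = kenE x) (hx : 39 / 40 ≤ x) (hx' : x < 1) :
    TriA (DD x).cur (farD κ (h0 * x) (tbl tKF x) (tbl tL x)) 0 3 3 0 4 1 (-1) :=
  triVA_k nr4_3

theorem FA04_pm_101 {κ x : ℝ} (hκ : κ * h0 = kenE x) (hx : 39 / 40 ≤ x) (hx' : x < 1) :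
    TriA (DD x).cur (farD κ (h0 * x) (tbl tKF x) (tbl tL x)) 1 0 1 0 4 1 (-1) :=
  (sideF hx hx').farA (Or.inl rfl) (Or.inr rfl) fun y y' F r1 r2 =>
    farXA_cert (s1 := true) (s2 := false) rfl hκ (ka0 hκ hx hx') (xa0 hx) hx' (covF01 hx hx') (covF40 hx hx') (x1 hx) (x2 hx')
        Pool.Agent.Strip051.G.IE1.Tab.C.FA04.c_pm_101 (cutVA_cons (Pool.Agent.Strip051.G.IE1.Tab.qF_A04pm_101_101 hκ hx hx') cutVA_nil) noExt_VA F r1 r2 r1 r2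

theorem FA04_pm_102 {κ x : ℝ} (hκ : κ * h0 = kenE x) (hx : 39 / 40 ≤ x) (hx' : x < 1) :
    TriA (DD x).cur (farD κ (h0 * x) (tbl tKF x) (tbl tL x)) 1 0 2 0 4 1 (-1) :=
  (sideF hx hx').farA (Or.inl rfl) (Or.inr rfl) fun y y' F r1 r2 =>
    farXA_cert (s1 := true) (s2 := false) rfl hκ (ka0 hκ hx hx') (xa0 hx) hx' (covF01 hx hx') (covF40 hx hx') (x1 hx) (x2 hx')
        Pool.Agent.Strip051.G.IE1.Tab.C.FA04.c_pm_102 (cutVA_cons (Pool.Agent.Strip051.G.IE1.Tab.qF_A04pm_102_101 hκ hx hx') cutVA_nil) noExt_VA F r1 r2 r1 r2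

theorem FA04_pm_112 {κ x : ℝ} (hκ : κ * h0 = kenE x) (hx : 39 / 40 ≤ x) (hx' : x < 1) :
    TriA (DD x).cur (farD κ (h0 * x) (tbl tKF x) (tbl tL x)) 1 1 2 0 4 1 (-1) :=
  triVA_k nr4_1

theorem FA04_pm_113 {κ x : ℝ} (hκ : κ * h0 = kenE x) (hx : 39 / 40 ≤ x) (hx' : x < 1) :
    TriA (DD x).cur (farD κ (h0 * x) (tbl tKF x) (tbl tL x)) 1 1 3 0 4 1 (-1) :=
  triVA_k nr4_1

theorem FA04_pm_123 {κ x : ℝ} (hκ : κ * h0 = kenE x) (hx : 39 / 40 ≤ x) (hx' : x < 1) :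
    TriA (DD x).cur (farD κ (h0 * x) (tbl tKF x) (tbl tL x)) 1 2 3 0 4 1 (-1) :=
  triVA_k nr4_2

theorem FA04_pm_133 {κ x : ℝ} (hκ : κ * h0 = kenE x) (hx : 39 / 40 ≤ x) (hx' : x < 1) :
    TriA (DD x).cur (farD κ (h0 * x) (tbl tKF x) (tbl tL x)) 1 3 3 0 4 1 (-1) :=
  triVA_k nr4_3

theorem FA04_pm_202 {κ x : ℝ} (hκ : κ * h0 = kenE x) (hx : 39 / 40 ≤ x) (hx' : x < 1) :
    TriA (DD x).cur (farD κ (h0 * x) (tbl tKF x) (tbl tL x)) 2 0 2 0 4 1 (-1) :=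
  (sideF hx hx').farA (Or.inl rfl) (Or.inr rfl) fun y y' F r1 r2 =>
    farXA_cert (s1 := true) (s2 := false) rfl hκ (ka0 hκ hx hx') (xa0 hx) hx' (covF02 hx hx') (covF40 hx hx') (x1 hx) (x2 hx')
        Pool.Agent.Strip051.G.IE1.Tab.C.FA04.c_pm_202 (cutVA_cons (Pool.Agent.Strip051.G.IE1.Tab.qF_A04pm_202_101 hκ hx hx') cutVA_nil) noExt_VA F r1 r2 r1 r2

theorem FA04_pm_203 {κ x : ℝ} (hκ : κ * h0 = kenE x) (hx : 39 / 40 ≤ x) (hx' : x < 1) :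
    TriA (DD x).cur (farD κ (h0 * x) (tbl tKF x) (tbl tL x)) 2 0 3 0 4 1 (-1) :=
  (sideF hx hx').farA (Or.inl rfl) (Or.inr rfl) fun y y' F r1 r2 =>
    farXA_cert (s1 := true) (s2 := false) rfl hκ (ka0 hκ hx hx') (xa0 hx) hx' (covF02 hx hx') (covF40 hx hx') (x1 hx) (x2 hx')
        Pool.Agent.Strip051.G.IE1.Tab.C.FA04.c_pm_203 noCut_VA noExt_VA F r1 r2 r1 r2

theorem FA04_pm_213 {κ x : ℝ} (hκ : κ * h0 = kenE x) (hx : 39 / 40 ≤ x) (hx' : x < 1) :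
    TriA (DD x).cur (farD κ (h0 * x) (tbl tKF x) (tbl tL x)) 2 1 3 0 4 1 (-1) :=
  triVA_k nr4_1

theorem FA04_pm_303 {κ x : ℝ} (hκ : κ * h0 = kenE x) (hx : 39 / 40 ≤ x) (hx' : x < 1) :
    TriA (DD x).cur (farD κ (h0 * x) (tbl tKF x) (tbl tL x)) 3 0 3 0 4 1 (-1) :=
  triVA_j0

theorem FA04_pm_313 {κ x : ℝ} (hκ : κ * h0 = kenE x) (hx : 39 / 40 ≤ x) (hx' : x < 1) :
    TriA (DD x).cur (farD κ (h0 * x) (tbl tKF x) (tbl tL x)) 3 1 3 0 4 1 (-1) :=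
  triVA_j0

theorem FA04_mm_001 {κ x : ℝ} (hκ : κ * h0 = kenE x) (hx : 39 / 40 ≤ x) (hx' : x < 1) :
    TriA (DD x).cur (farD κ (h0 * x) (tbl tKF x) (tbl tL x)) 0 0 1 0 4 (-1) (-1) :=
  (sideF hx hx').farA (Or.inr rfl) (Or.inr rfl) fun y y' F r1 r2 =>
    farXA_cert (s1 := false) (s2 := false) rfl hκ (ka0 hκ hx hx') (xa0 hx) hx' (covF00 hx hx') (covF40 hx hx') (x1 hx) (x2 hx')
        Pool.Agent.Strip051.G.IE1.Tab.C.FA04.c_mm_001 noCut_VA noExt_VA F r1 r2 r1 r2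

theorem FA04_mm_011 {κ x : ℝ} (hκ : κ * h0 = kenE x) (hx : 39 / 40 ≤ x) (hx' : x < 1) :
    TriA (DD x).cur (farD κ (h0 * x) (tbl tKF x) (tbl tL x)) 0 1 1 0 4 (-1) (-1) :=
  triVA_k nr4_1

theorem FA04_mm_012 {κ x : ℝ} (hκ : κ * h0 = kenE x) (hx : 39 / 40 ≤ x) (hx' : x < 1) :
    TriA (DD x).cur (farD κ (h0 * x) (tbl tKF x) (tbl tL x)) 0 1 2 0 4 (-1) (-1) :=
  triVA_k nr4_1

theorem FA04_mm_022 {κ x : ℝ} (hκ : κ * h0 = kenE x) (hx : 39 / 40 ≤ x) (hx' : x < 1) :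
    TriA (DD x).cur (farD κ (h0 * x) (tbl tKF x) (tbl tL x)) 0 2 2 0 4 (-1) (-1) :=
  triVA_k nr4_2

theorem FA04_mm_023 {κ x : ℝ} (hκ : κ * h0 = kenE x) (hx : 39 / 40 ≤ x) (hx' : x < 1) :
    TriA (DD x).cur (farD κ (h0 * x) (tbl tKF x) (tbl tL x)) 0 2 3 0 4 (-1) (-1) :=
  triVA_k nr4_2

theorem FA04_mm_033 {κ x : ℝ} (hκ : κ * h0 = kenE x) (hx : 39 / 40 ≤ x) (hx' : x < 1) :
    TriA (DD x).cur (farD κ (h0 * x) (tbl tKF x) (tbl tL x)) 0 3 3 0 4 (-1) (-1) :=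
  triVA_k nr4_3

theorem FA04_mm_101 {κ x : ℝ} (hκ : κ * h0 = kenE x) (hx : 39 / 40 ≤ x) (hx' : x < 1) :
    TriA (DD x).cur (farD κ (h0 * x) (tbl tKF x) (tbl tL x)) 1 0 1 0 4 (-1) (-1) :=
  (sideF hx hx').farA (Or.inr rfl) (Or.inr rfl) fun y y' F r1 r2 =>
    farXA_cert (s1 := false) (s2 := false) rfl hκ (ka0 hκ hx hx') (xa0 hx) hx' (covF01 hx hx') (covF40 hx hx') (x1 hx) (x2 hx')
        Pool.Agent.Strip051.G.IE1.Tab.C.FA04.c_mm_101 (cutVA_cons (Pool.Agent.Strip051.G.IE1.Tab.qF_A04mm_101_101 hκ hx hx') cutVA_nil) noExt_VA F r1 r2 r1 r2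

theorem FA04_mm_102 {κ x : ℝ} (hκ : κ * h0 = kenE x) (hx : 39 / 40 ≤ x) (hx' : x < 1) :
    TriA (DD x).cur (farD κ (h0 * x) (tbl tKF x) (tbl tL x)) 1 0 2 0 4 (-1) (-1) :=
  (sideF hx hx').farA (Or.inr rfl) (Or.inr rfl) fun y y' F r1 r2 =>
    farXA_cert (s1 := false) (s2 := false) rfl hκ (ka0 hκ hx hx') (xa0 hx) hx' (covF01 hx hx') (covF40 hx hx') (x1 hx) (x2 hx')
        Pool.Agent.Strip051.G.IE1.Tab.C.FA04.c_mm_102 (cutVA_cons (Pool.Agent.Strip051.G.IE1.Tab.qF_A04mm_102_101 hκ hx hx') cutVA_nil) noExt_VA F r1 r2 r1 r2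

theorem FA04_mm_112 {κ x : ℝ} (hκ : κ * h0 = kenE x) (hx : 39 / 40 ≤ x) (hx' : x < 1) :
    TriA (DD x).cur (farD κ (h0 * x) (tbl tKF x) (tbl tL x)) 1 1 2 0 4 (-1) (-1) :=
  triVA_k nr4_1

theorem FA04_mm_113 {κ x : ℝ} (hκ : κ * h0 = kenE x) (hx : 39 / 40 ≤ x) (hx' : x < 1) :
    TriA (DD x).cur (farD κ (h0 * x) (tbl tKF x) (tbl tL x)) 1 1 3 0 4 (-1) (-1) :=
  triVA_k nr4_1

theorem FA04_mm_123 {κ x : ℝ} (hκ : κ * h0 = kenE x) (hx : 39 / 40 ≤ x) (hx' : x < 1) :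
    TriA (DD x).cur (farD κ (h0 * x) (tbl tKF x) (tbl tL x)) 1 2 3 0 4 (-1) (-1) :=
  triVA_k nr4_2

theorem FA04_mm_133 {κ x : ℝ} (hκ : κ * h0 = kenE x) (hx : 39 / 40 ≤ x) (hx' : x < 1) :
    TriA (DD x).cur (farD κ (h0 * x) (tbl tKF x) (tbl tL x)) 1 3 3 0 4 (-1) (-1) :=
  triVA_k nr4_3

theorem FA04_mm_202 {κ x : ℝ} (hκ : κ * h0 = kenE x) (hx : 39 / 40 ≤ x) (hx' : x < 1) :
    TriA (DD x).cur (farD κ (h0 * x) (tbl tKF x) (tbl tL x)) 2 0 2 0 4 (-1) (-1) :=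
  (sideF hx hx').farA (Or.inr rfl) (Or.inr rfl) fun y y' F r1 r2 =>
    farXA_cert (s1 := false) (s2 := false) rfl hκ (ka0 hκ hx hx') (xa0 hx) hx' (covF02 hx hx') (covF40 hx hx') (x1 hx) (x2 hx')
        Pool.Agent.Strip051.G.IE1.Tab.C.FA04.c_mm_202 (cutVA_cons (Pool.Agent.Strip051.G.IE1.Tab.qF_A04mm_202_101 hκ hx hx') cutVA_nil) noExt_VA F r1 r2 r1 r2

theorem FA04_mm_203 {κ x : ℝ} (hκ : κ * h0 = kenE x) (hx : 39 / 40 ≤ x) (hx' : x < 1) :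
    TriA (DD x).cur (farD κ (h0 * x) (tbl tKF x) (tbl tL x)) 2 0 3 0 4 (-1) (-1) :=
  (sideF hx hx').farA (Or.inr rfl) (Or.inr rfl) fun y y' F r1 r2 =>
    farXA_cert (s1 := false) (s2 := false) rfl hκ (ka0 hκ hx hx') (xa0 hx) hx' (covF02 hx hx') (covF40 hx hx') (x1 hx) (x2 hx')
        Pool.Agent.Strip051.G.IE1.Tab.C.FA04.c_mm_203 noCut_VA noExt_VA F r1 r2 r1 r2

theorem FA04_mm_213 {κ x : ℝ} (hκ : κ * h0 = kenE x) (hx : 39 / 40 ≤ x) (hx' : x < 1) :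
    TriA (DD x).cur (farD κ (h0 * x) (tbl tKF x) (tbl tL x)) 2 1 3 0 4 (-1) (-1) :=
  triVA_k nr4_1

theorem FA04_mm_303 {κ x : ℝ} (hκ : κ * h0 = kenE x) (hx : 39 / 40 ≤ x) (hx' : x < 1) :
    TriA (DD x).cur (farD κ (h0 * x) (tbl tKF x) (tbl tL x)) 3 0 3 0 4 (-1) (-1) :=
  triVA_j0

theorem FA04_mm_313 {κ x : ℝ} (hκ : κ * h0 = kenE x) (hx : 39 / 40 ≤ x) (hx' : x < 1) :
    TriA (DD x).cur (farD κ (h0 * x) (tbl tKF x) (tbl tL x)) 3 1 3 0 4 (-1) (-1) :=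
  triVA_j0

theorem FA04 {κ x : ℝ} (hκ : κ * h0 = kenE x) (hx : 39 / 40 ≤ x) (hx' : x < 1) : AllTA (DD x).cur (farD κ (h0 * x) (tbl tKF x) (tbl tL x)) 0 4 where
  pp := all17 (Q := fun a b c => TriA (DD x).cur (farD κ (h0 * x) (tbl tKF x) (tbl tL x)) a b c 0 4 1 1)
    (FA04_pp_001 hκ hx hx') (FA04_pp_011 hκ hx hx') (FA04_pp_012 hκ hx hx') (FA04_pp_022 hκ hx hx') (FA04_pp_023 hκ hx hx') (FA04_pp_033 hκ hx hx') (FA04_pp_101 hκ hx hx') (FA04_pp_102 hκ hx hx') (FA04_pp_112 hκ hx hx') (FA04_pp_113 hκ hx hx') (FA04_pp_123 hκ hx hx') (FA04_pp_133 hκ hx hx') (FA04_pp_202 hκ hx hx') (FA04_pp_203 hκ hx hx') (FA04_pp_213 hκ hx hx') (FA04_pp_303 hκ hx hx') (FA04_pp_313 hκ hx hx')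
  pm := all17 (Q := fun a b c => TriA (DD x).cur (farD κ (h0 * x) (tbl tKF x) (tbl tL x)) a b c 0 4 1 (-1))
    (FA04_pm_001 hκ hx hx') (FA04_pm_011 hκ hx hx') (FA04_pm_012 hκ hx hx') (FA04_pm_022 hκ hx hx') (FA04_pm_023 hκ hx hx') (FA04_pm_033 hκ hx hx') (FA04_pm_101 hκ hx hx') (FA04_pm_102 hκ hx hx') (FA04_pm_112 hκ hx hx') (FA04_pm_113 hκ hx hx') (FA04_pm_123 hκ hx hx') (FA04_pm_133 hκ hx hx') (FA04_pm_202 hκ hx hx') (FA04_pm_203 hκ hx hx') (FA04_pm_213 hκ hx hx') (FA04_pm_303 hκ hx hx') (FA04_pm_313 hκ hx hx')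
  mm := all17 (Q := fun a b c => TriA (DD x).cur (farD κ (h0 * x) (tbl tKF x) (tbl tL x)) a b c 0 4 (-1) (-1))
    (FA04_mm_001 hκ hx hx') (FA04_mm_011 hκ hx hx') (FA04_mm_012 hκ hx hx') (FA04_mm_022 hκ hx hx') (FA04_mm_023 hκ hx hx') (FA04_mm_033 hκ hx hx') (FA04_mm_101 hκ hx hx') (FA04_mm_102 hκ hx hx') (FA04_mm_112 hκ hx hx') (FA04_mm_113 hκ hx hx') (FA04_mm_123 hκ hx hx') (FA04_mm_133 hκ hx hx') (FA04_mm_202 hκ hx hx') (FA04_mm_203 hκ hx hx') (FA04_mm_213 hκ hx hx') (FA04_mm_303 hκ hx hx') (FA04_mm_313 hκ hx hx')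

theorem FA05_pp_001 {κ x : ℝ} (hκ : κ * h0 = kenE x) (hx : 39 / 40 ≤ x) (hx' : x < 1) :
    TriA (DD x).cur (farD κ (h0 * x) (tbl tKF x) (tbl tL x)) 0 0 1 0 5 1 1 :=
  (sideF hx hx').farA (Or.inl rfl) (Or.inl rfl) fun y y' F r1 r2 =>
    farXA_cert (s1 := true) (s2 := true) rfl hκ (ka0 hκ hx hx') (xa0 hx) hx' (covF00 hx hx') (covF50 hx hx') (x1 hx) (x2 hx')
        Pool.Agent.Strip051.G.IE1.Tab.C.FA05.c_pp_001 noCut_VA noExt_VA F r1 r2 r1 r2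

theorem FA05_pp_011 {κ x : ℝ} (hκ : κ * h0 = kenE x) (hx : 39 / 40 ≤ x) (hx' : x < 1) :
    TriA (DD x).cur (farD κ (h0 * x) (tbl tKF x) (tbl tL x)) 0 1 1 0 5 1 1 :=
  (sideF hx hx').farA (Or.inl rfl) (Or.inl rfl) fun y y' F r1 r2 =>
    farXA_cert (s1 := true) (s2 := true) rfl hκ (ka0 hκ hx hx') (xa0 hx) hx' (covF00 hx hx') (covF51 hx hx') (x1 hx) (x2 hx')
        Pool.Agent.Strip051.G.IE1.Tab.C.FA05.c_pp_011 noCut_VA noExt_VA F r1 r2 r1 r2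

theorem FA05_pp_012 {κ x : ℝ} (hκ : κ * h0 = kenE x) (hx : 39 / 40 ≤ x) (hx' : x < 1) :
    TriA (DD x).cur (farD κ (h0 * x) (tbl tKF x) (tbl tL x)) 0 1 2 0 5 1 1 :=
  (sideF hx hx').farA (Or.inl rfl) (Or.inl rfl) fun y y' F r1 r2 =>
    farXA_cert (s1 := true) (s2 := true) rfl hκ (ka0 hκ hx hx') (xa0 hx) hx' (covF00 hx hx') (covF51 hx hx') (x1 hx) (x2 hx')
        Pool.Agent.Strip051.G.IE1.Tab.C.FA05.c_pp_012 noCut_VA noExt_VA F r1 r2 r1 r2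

theorem FA05_pp_022 {κ x : ℝ} (hκ : κ * h0 = kenE x) (hx : 39 / 40 ≤ x) (hx' : x < 1) :
    TriA (DD x).cur (farD κ (h0 * x) (tbl tKF x) (tbl tL x)) 0 2 2 0 5 1 1 :=
  (sideF hx hx').farA (Or.inl rfl) (Or.inl rfl) fun y y' F r1 r2 =>
    farXA_cert (s1 := true) (s2 := true) rfl hκ (ka0 hκ hx hx') (xa0 hx) hx' (covF00 hx hx') (covF52 hx hx') (x1 hx) (x2 hx')
        Pool.Agent.Strip051.G.IE1.Tab.C.FA05.c_pp_022 noCut_VA noExt_VA F r1 r2 r1 r2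

theorem FA05_pp_023 {κ x : ℝ} (hκ : κ * h0 = kenE x) (hx : 39 / 40 ≤ x) (hx' : x < 1) :
    TriA (DD x).cur (farD κ (h0 * x) (tbl tKF x) (tbl tL x)) 0 2 3 0 5 1 1 :=
  (sideF hx hx').farA (Or.inl rfl) (Or.inl rfl) fun y y' F r1 r2 =>
    farXA_cert (s1 := true) (s2 := true) rfl hκ (ka0 hκ hx hx') (xa0 hx) hx' (covF00 hx hx') (covF52 hx hx') (x1 hx) (x2 hx')
        Pool.Agent.Strip051.G.IE1.Tab.C.FA05.c_pp_023 noCut_VA noExt_VA F r1 r2 r1 r2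

theorem FA05_pp_033 {κ x : ℝ} (hκ : κ * h0 = kenE x) (hx : 39 / 40 ≤ x) (hx' : x < 1) :
    TriA (DD x).cur (farD κ (h0 * x) (tbl tKF x) (tbl tL x)) 0 3 3 0 5 1 1 :=
  (sideF hx hx').farA (Or.inl rfl) (Or.inl rfl) fun y y' F r1 r2 =>
    farXA_cert (s1 := true) (s2 := true) rfl hκ (ka0 hκ hx hx') (xa0 hx) hx' (covF00 hx hx') (covF53 hx hx') (x1 hx) (x2 hx')
        Pool.Agent.Strip051.G.IE1.Tab.C.FA05.c_pp_033 noCut_VA noExt_VA F r1 r2 r1 r2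

theorem FA05_pp_101 {κ x : ℝ} (hκ : κ * h0 = kenE x) (hx : 39 / 40 ≤ x) (hx' : x < 1) :
    TriA (DD x).cur (farD κ (h0 * x) (tbl tKF x) (tbl tL x)) 1 0 1 0 5 1 1 :=
  (sideF hx hx').farA (Or.inl rfl) (Or.inl rfl) fun y y' F r1 r2 =>
    farXA_cert (s1 := true) (s2 := true) rfl hκ (ka0 hκ hx hx') (xa0 hx) hx' (covF01 hx hx') (covF50 hx hx') (x1 hx) (x2 hx')
        Pool.Agent.Strip051.G.IE1.Tab.C.FA05.c_pp_101 noCut_VA noExt_VA F r1 r2 r1 r2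

theorem FA05_pp_102 {κ x : ℝ} (hκ : κ * h0 = kenE x) (hx : 39 / 40 ≤ x) (hx' : x < 1) :
    TriA (DD x).cur (farD κ (h0 * x) (tbl tKF x) (tbl tL x)) 1 0 2 0 5 1 1 :=
  (sideF hx hx').farA (Or.inl rfl) (Or.inl rfl) fun y y' F r1 r2 =>
    farXA_cert (s1 := true) (s2 := true) rfl hκ (ka0 hκ hx hx') (xa0 hx) hx' (covF01 hx hx') (covF50 hx hx') (x1 hx) (x2 hx')
        Pool.Agent.Strip051.G.IE1.Tab.C.FA05.c_pp_102 noCut_VA noExt_VA F r1 r2 r1 r2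

theorem FA05_pp_112 {κ x : ℝ} (hκ : κ * h0 = kenE x) (hx : 39 / 40 ≤ x) (hx' : x < 1) :
    TriA (DD x).cur (farD κ (h0 * x) (tbl tKF x) (tbl tL x)) 1 1 2 0 5 1 1 :=
  (sideF hx hx').farA (Or.inl rfl) (Or.inl rfl) fun y y' F r1 r2 =>
    farXA_cert (s1 := true) (s2 := true) rfl hκ (ka0 hκ hx hx') (xa0 hx) hx' (covF01 hx hx') (covF51 hx hx') (x1 hx) (x2 hx')
        Pool.Agent.Strip051.G.IE1.Tab.C.FA05.c_pp_112 noCut_VA noExt_VA F r1 r2 r1 r2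

theorem FA05_pp_113 {κ x : ℝ} (hκ : κ * h0 = kenE x) (hx : 39 / 40 ≤ x) (hx' : x < 1) :
    TriA (DD x).cur (farD κ (h0 * x) (tbl tKF x) (tbl tL x)) 1 1 3 0 5 1 1 :=
  (sideF hx hx').farA (Or.inl rfl) (Or.inl rfl) fun y y' F r1 r2 =>
    farXA_cert (s1 := true) (s2 := true) rfl hκ (ka0 hκ hx hx') (xa0 hx) hx' (covF01 hx hx') (covF51 hx hx') (x1 hx) (x2 hx')
        Pool.Agent.Strip051.G.IE1.Tab.C.FA05.c_pp_113 noCut_VA noExt_VA F r1 r2 r1 r2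

theorem FA05_pp_123 {κ x : ℝ} (hκ : κ * h0 = kenE x) (hx : 39 / 40 ≤ x) (hx' : x < 1) :
    TriA (DD x).cur (farD κ (h0 * x) (tbl tKF x) (tbl tL x)) 1 2 3 0 5 1 1 :=
  (sideF hx hx').farA (Or.inl rfl) (Or.inl rfl) fun y y' F r1 r2 =>
    farXA_cert (s1 := true) (s2 := true) rfl hκ (ka0 hκ hx hx') (xa0 hx) hx' (covF01 hx hx') (covF52 hx hx') (x1 hx) (x2 hx')
        Pool.Agent.Strip051.G.IE1.Tab.C.FA05.c_pp_123 noCut_VA noExt_VA F r1 r2 r1 r2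

theorem FA05_pp_133 {κ x : ℝ} (hκ : κ * h0 = kenE x) (hx : 39 / 40 ≤ x) (hx' : x < 1) :
    TriA (DD x).cur (farD κ (h0 * x) (tbl tKF x) (tbl tL x)) 1 3 3 0 5 1 1 :=
  (sideF hx hx').farA (Or.inl rfl) (Or.inl rfl) fun y y' F r1 r2 =>
    farXA_cert (s1 := true) (s2 := true) rfl hκ (ka0 hκ hx hx') (xa0 hx) hx' (covF01 hx hx') (covF53 hx hx') (x1 hx) (x2 hx')
        Pool.Agent.Strip051.G.IE1.Tab.C.FA05.c_pp_133 noCut_VA noExt_VA F r1 r2 r1 r2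

theorem FA05_pp_202 {κ x : ℝ} (hκ : κ * h0 = kenE x) (hx : 39 / 40 ≤ x) (hx' : x < 1) :
    TriA (DD x).cur (farD κ (h0 * x) (tbl tKF x) (tbl tL x)) 2 0 2 0 5 1 1 :=
  (sideF hx hx').farA (Or.inl rfl) (Or.inl rfl) fun y y' F r1 r2 =>
    farXA_cert (s1 := true) (s2 := true) rfl hκ (ka0 hκ hx hx') (xa0 hx) hx' (covF02 hx hx') (covF50 hx hx') (x1 hx) (x2 hx')
        Pool.Agent.Strip051.G.IE1.Tab.C.FA05.c_pp_202 noCut_VA noExt_VA F r1 r2 r1 r2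

theorem FA05_pp_203 {κ x : ℝ} (hκ : κ * h0 = kenE x) (hx : 39 / 40 ≤ x) (hx' : x < 1) :
    TriA (DD x).cur (farD κ (h0 * x) (tbl tKF x) (tbl tL x)) 2 0 3 0 5 1 1 :=
  (sideF hx hx').farA (Or.inl rfl) (Or.inl rfl) fun y y' F r1 r2 =>
    farXA_cert (s1 := true) (s2 := true) rfl hκ (ka0 hκ hx hx') (xa0 hx) hx' (covF02 hx hx') (covF50 hx hx') (x1 hx) (x2 hx')
        Pool.Agent.Strip051.G.IE1.Tab.C.FA05.c_pp_203 noCut_VA noExt_VA F r1 r2 r1 r2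

theorem FA05_pp_213 {κ x : ℝ} (hκ : κ * h0 = kenE x) (hx : 39 / 40 ≤ x) (hx' : x < 1) :
    TriA (DD x).cur (farD κ (h0 * x) (tbl tKF x) (tbl tL x)) 2 1 3 0 5 1 1 :=
  (sideF hx hx').farA (Or.inl rfl) (Or.inl rfl) fun y y' F r1 r2 =>
    farXA_cert (s1 := true) (s2 := true) rfl hκ (ka0 hκ hx hx') (xa0 hx) hx' (covF02 hx hx') (covF51 hx hx') (x1 hx) (x2 hx')
        Pool.Agent.Strip051.G.IE1.Tab.C.FA05.c_pp_213 noCut_VA noExt_VA F r1 r2 r1 r2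

theorem FA05_pp_303 {κ x : ℝ} (hκ : κ * h0 = kenE x) (hx : 39 / 40 ≤ x) (hx' : x < 1) :
    TriA (DD x).cur (farD κ (h0 * x) (tbl tKF x) (tbl tL x)) 3 0 3 0 5 1 1 :=
  triVA_j0

theorem FA05_pp_313 {κ x : ℝ} (hκ : κ * h0 = kenE x) (hx : 39 / 40 ≤ x) (hx' : x < 1) :
    TriA (DD x).cur (farD κ (h0 * x) (tbl tKF x) (tbl tL x)) 3 1 3 0 5 1 1 :=
  triVA_j0

theorem FA05_pm_001 {κ x : ℝ} (hκ : κ * h0 = kenE x) (hx : 39 / 40 ≤ x) (hx' : x < 1) :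
    TriA (DD x).cur (farD κ (h0 * x) (tbl tKF x) (tbl tL x)) 0 0 1 0 5 1 (-1) :=
  (sideF hx hx').farA (Or.inl rfl) (Or.inr rfl) fun y y' F r1 r2 =>
    farXA_cert (s1 := true) (s2 := false) rfl hκ (ka0 hκ hx hx') (xa0 hx) hx' (covF00 hx hx') (covF50 hx hx') (x1 hx) (x2 hx')
        Pool.Agent.Strip051.G.IE1.Tab.C.FA05.c_pm_001 noCut_VA noExt_VA F r1 r2 r1 r2

theorem FA05_pm_011 {κ x : ℝ} (hκ : κ * h0 = kenE x) (hx : 39 / 40 ≤ x) (hx' : x < 1) :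
    TriA (DD x).cur (farD κ (h0 * x) (tbl tKF x) (tbl tL x)) 0 1 1 0 5 1 (-1) :=
  (sideF hx hx').farA (Or.inl rfl) (Or.inr rfl) fun y y' F r1 r2 =>
    farXA_cert (s1 := true) (s2 := false) rfl hκ (ka0 hκ hx hx') (xa0 hx) hx' (covF00 hx hx') (covF51 hx hx') (x1 hx) (x2 hx')
        Pool.Agent.Strip051.G.IE1.Tab.C.FA05.c_pm_011 noCut_VA noExt_VA F r1 r2 r1 r2

theorem FA05_pm_012 {κ x : ℝ} (hκ : κ * h0 = kenE x) (hx : 39 / 40 ≤ x) (hx' : x < 1) :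
    TriA (DD x).cur (farD κ (h0 * x) (tbl tKF x) (tbl tL x)) 0 1 2 0 5 1 (-1) :=
  (sideF hx hx').farA (Or.inl rfl) (Or.inr rfl) fun y y' F r1 r2 =>
    farXA_cert (s1 := true) (s2 := false) rfl hκ (ka0 hκ hx hx') (xa0 hx) hx' (covF00 hx hx') (covF51 hx hx') (x1 hx) (x2 hx')
        Pool.Agent.Strip051.G.IE1.Tab.C.FA05.c_pm_012 noCut_VA noExt_VA F r1 r2 r1 r2

theorem FA05_pm_022 {κ x : ℝ} (hκ : κ * h0 = kenE x) (hx : 39 / 40 ≤ x) (hx' : x < 1) :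
    TriA (DD x).cur (farD κ (h0 * x) (tbl tKF x) (tbl tL x)) 0 2 2 0 5 1 (-1) :=
  (sideF hx hx').farA (Or.inl rfl) (Or.inr rfl) fun y y' F r1 r2 =>
    farXA_cert (s1 := true) (s2 := false) rfl hκ (ka0 hκ hx hx') (xa0 hx) hx' (covF00 hx hx') (covF52 hx hx') (x1 hx) (x2 hx')
        Pool.Agent.Strip051.G.IE1.Tab.C.FA05.c_pm_022 noCut_VA noExt_VA F r1 r2 r1 r2

theorem FA05_pm_023 {κ x : ℝ} (hκ : κ * h0 = kenE x) (hx : 39 / 40 ≤ x) (hx' : x < 1) :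
    TriA (DD x).cur (farD κ (h0 * x) (tbl tKF x) (tbl tL x)) 0 2 3 0 5 1 (-1) :=
  (sideF hx hx').farA (Or.inl rfl) (Or.inr rfl) fun y y' F r1 r2 =>
    farXA_cert (s1 := true) (s2 := false) rfl hκ (ka0 hκ hx hx') (xa0 hx) hx' (covF00 hx hx') (covF52 hx hx') (x1 hx) (x2 hx')
        Pool.Agent.Strip051.G.IE1.Tab.C.FA05.c_pm_023 noCut_VA noExt_VA F r1 r2 r1 r2

theorem FA05_pm_033 {κ x : ℝ} (hκ : κ * h0 = kenE x) (hx : 39 / 40 ≤ x) (hx' : x < 1) :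
    TriA (DD x).cur (farD κ (h0 * x) (tbl tKF x) (tbl tL x)) 0 3 3 0 5 1 (-1) :=
  (sideF hx hx').farA (Or.inl rfl) (Or.inr rfl) fun y y' F r1 r2 =>
    farXA_cert (s1 := true) (s2 := false) rfl hκ (ka0 hκ hx hx') (xa0 hx) hx' (covF00 hx hx') (covF53 hx hx') (x1 hx) (x2 hx')
        Pool.Agent.Strip051.G.IE1.Tab.C.FA05.c_pm_033 noCut_VA noExt_VA F r1 r2 r1 r2

theorem FA05_pm_101 {κ x : ℝ} (hκ : κ * h0 = kenE x) (hx : 39 / 40 ≤ x) (hx' : x < 1) :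
    TriA (DD x).cur (farD κ (h0 * x) (tbl tKF x) (tbl tL x)) 1 0 1 0 5 1 (-1) :=
  (sideF hx hx').farA (Or.inl rfl) (Or.inr rfl) fun y y' F r1 r2 =>
    farXA_cert (s1 := true) (s2 := false) rfl hκ (ka0 hκ hx hx') (xa0 hx) hx' (covF01 hx hx') (covF50 hx hx') (x1 hx) (x2 hx')
        Pool.Agent.Strip051.G.IE1.Tab.C.FA05.c_pm_101 noCut_VA noExt_VA F r1 r2 r1 r2

theorem FA05_pm_102 {κ x : ℝ} (hκ : κ * h0 = kenE x) (hx : 39 / 40 ≤ x) (hx' : x < 1) :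
    TriA (DD x).cur (farD κ (h0 * x) (tbl tKF x) (tbl tL x)) 1 0 2 0 5 1 (-1) :=
  (sideF hx hx').farA (Or.inl rfl) (Or.inr rfl) fun y y' F r1 r2 =>
    farXA_cert (s1 := true) (s2 := false) rfl hκ (ka0 hκ hx hx') (xa0 hx) hx' (covF01 hx hx') (covF50 hx hx') (x1 hx) (x2 hx')
        Pool.Agent.Strip051.G.IE1.Tab.C.FA05.c_pm_102 noCut_VA noExt_VA F r1 r2 r1 r2

theorem FA05_pm_112 {κ x : ℝ} (hκ : κ * h0 = kenE x) (hx : 39 / 40 ≤ x) (hx' : x < 1) :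
    TriA (DD x).cur (farD κ (h0 * x) (tbl tKF x) (tbl tL x)) 1 1 2 0 5 1 (-1) :=
  (sideF hx hx').farA (Or.inl rfl) (Or.inr rfl) fun y y' F r1 r2 =>
    farXA_cert (s1 := true) (s2 := false) rfl hκ (ka0 hκ hx hx') (xa0 hx) hx' (covF01 hx hx') (covF51 hx hx') (x1 hx) (x2 hx')
        Pool.Agent.Strip051.G.IE1.Tab.C.FA05.c_pm_112 noCut_VA noExt_VA F r1 r2 r1 r2

theorem FA05_pm_113 {κ x : ℝ} (hκ : κ * h0 = kenE x) (hx : 39 / 40 ≤ x) (hx' : x < 1) :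
    TriA (DD x).cur (farD κ (h0 * x) (tbl tKF x) (tbl tL x)) 1 1 3 0 5 1 (-1) :=
  (sideF hx hx').farA (Or.inl rfl) (Or.inr rfl) fun y y' F r1 r2 =>
    farXA_cert (s1 := true) (s2 := false) rfl hκ (ka0 hκ hx hx') (xa0 hx) hx' (covF01 hx hx') (covF51 hx hx') (x1 hx) (x2 hx')
        Pool.Agent.Strip051.G.IE1.Tab.C.FA05.c_pm_113 noCut_VA noExt_VA F r1 r2 r1 r2

theorem FA05_pm_123 {κ x : ℝ} (hκ : κ * h0 = kenE x) (hx : 39 / 40 ≤ x) (hx' : x < 1) :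
    TriA (DD x).cur (farD κ (h0 * x) (tbl tKF x) (tbl tL x)) 1 2 3 0 5 1 (-1) :=
  (sideF hx hx').farA (Or.inl rfl) (Or.inr rfl) fun y y' F r1 r2 =>
    farXA_cert (s1 := true) (s2 := false) rfl hκ (ka0 hκ hx hx') (xa0 hx) hx' (covF01 hx hx') (covF52 hx hx') (x1 hx) (x2 hx')
        Pool.Agent.Strip051.G.IE1.Tab.C.FA05.c_pm_123 noCut_VA noExt_VA F r1 r2 r1 r2

theorem FA05_pm_133 {κ x : ℝ} (hκ : κ * h0 = kenE x) (hx : 39 / 40 ≤ x) (hx' : x < 1) :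
    TriA (DD x).cur (farD κ (h0 * x) (tbl tKF x) (tbl tL x)) 1 3 3 0 5 1 (-1) :=
  (sideF hx hx').farA (Or.inl rfl) (Or.inr rfl) fun y y' F r1 r2 =>
    farXA_cert (s1 := true) (s2 := false) rfl hκ (ka0 hκ hx hx') (xa0 hx) hx' (covF01 hx hx') (covF53 hx hx') (x1 hx) (x2 hx')
        Pool.Agent.Strip051.G.IE1.Tab.C.FA05.c_pm_133 noCut_VA noExt_VA F r1 r2 r1 r2

theorem FA05_pm_202 {κ x : ℝ} (hκ : κ * h0 = kenE x) (hx : 39 / 40 ≤ x) (hx' : x < 1) :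
    TriA (DD x).cur (farD κ (h0 * x) (tbl tKF x) (tbl tL x)) 2 0 2 0 5 1 (-1) :=
  (sideF hx hx').farA (Or.inl rfl) (Or.inr rfl) fun y y' F r1 r2 =>
    farXA_cert (s1 := true) (s2 := false) rfl hκ (ka0 hκ hx hx') (xa0 hx) hx' (covF02 hx hx') (covF50 hx hx') (x1 hx) (x2 hx')
        Pool.Agent.Strip051.G.IE1.Tab.C.FA05.c_pm_202 noCut_VA noExt_VA F r1 r2 r1 r2

theorem FA05_pm_203 {κ x : ℝ} (hκ : κ * h0 = kenE x) (hx : 39 / 40 ≤ x) (hx' : x < 1) :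
    TriA (DD x).cur (farD κ (h0 * x) (tbl tKF x) (tbl tL x)) 2 0 3 0 5 1 (-1) :=
  (sideF hx hx').farA (Or.inl rfl) (Or.inr rfl) fun y y' F r1 r2 =>
    farXA_cert (s1 := true) (s2 := false) rfl hκ (ka0 hκ hx hx') (xa0 hx) hx' (covF02 hx hx') (covF50 hx hx') (x1 hx) (x2 hx')
        Pool.Agent.Strip051.G.IE1.Tab.C.FA05.c_pm_203 noCut_VA noExt_VA F r1 r2 r1 r2

theorem FA05_pm_213 {κ x : ℝ} (hκ : κ * h0 = kenE x) (hx : 39 / 40 ≤ x) (hx' : x < 1) :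
    TriA (DD x).cur (farD κ (h0 * x) (tbl tKF x) (tbl tL x)) 2 1 3 0 5 1 (-1) :=
  (sideF hx hx').farA (Or.inl rfl) (Or.inr rfl) fun y y' F r1 r2 =>
    farXA_cert (s1 := true) (s2 := false) rfl hκ (ka0 hκ hx hx') (xa0 hx) hx' (covF02 hx hx') (covF51 hx hx') (x1 hx) (x2 hx')
        Pool.Agent.Strip051.G.IE1.Tab.C.FA05.c_pm_213 noCut_VA noExt_VA F r1 r2 r1 r2

theorem FA05_pm_303 {κ x : ℝ} (hκ : κ * h0 = kenE x) (hx : 39 / 40 ≤ x) (hx' : x < 1) :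
    TriA (DD x).cur (farD κ (h0 * x) (tbl tKF x) (tbl tL x)) 3 0 3 0 5 1 (-1) :=
  triVA_j0

theorem FA05_pm_313 {κ x : ℝ} (hκ : κ * h0 = kenE x) (hx : 39 / 40 ≤ x) (hx' : x < 1) :
    TriA (DD x).cur (farD κ (h0 * x) (tbl tKF x) (tbl tL x)) 3 1 3 0 5 1 (-1) :=
  triVA_j0

theorem FA05_mm_001 {κ x : ℝ} (hκ : κ * h0 = kenE x) (hx : 39 / 40 ≤ x) (hx' : x < 1) :
    TriA (DD x).cur (farD κ (h0 * x) (tbl tKF x) (tbl tL x)) 0 0 1 0 5 (-1) (-1) :=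
  (sideF hx hx').farA (Or.inr rfl) (Or.inr rfl) fun y y' F r1 r2 =>
    farXA_cert (s1 := false) (s2 := false) rfl hκ (ka0 hκ hx hx') (xa0 hx) hx' (covF00 hx hx') (covF50 hx hx') (x1 hx) (x2 hx')
        Pool.Agent.Strip051.G.IE1.Tab.C.FA05.c_mm_001 noCut_VA noExt_VA F r1 r2 r1 r2

theorem FA05_mm_011 {κ x : ℝ} (hκ : κ * h0 = kenE x) (hx : 39 / 40 ≤ x) (hx' : x < 1) :
    TriA (DD x).cur (farD κ (h0 * x) (tbl tKF x) (tbl tL x)) 0 1 1 0 5 (-1) (-1) :=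
  (sideF hx hx').farA (Or.inr rfl) (Or.inr rfl) fun y y' F r1 r2 =>
    farXA_cert (s1 := false) (s2 := false) rfl hκ (ka0 hκ hx hx') (xa0 hx) hx' (covF00 hx hx') (covF51 hx hx') (x1 hx) (x2 hx')
        Pool.Agent.Strip051.G.IE1.Tab.C.FA05.c_mm_011 noCut_VA noExt_VA F r1 r2 r1 r2

theorem FA05_mm_012 {κ x : ℝ} (hκ : κ * h0 = kenE x) (hx : 39 / 40 ≤ x) (hx' : x < 1) :
    TriA (DD x).cur (farD κ (h0 * x) (tbl tKF x) (tbl tL x)) 0 1 2 0 5 (-1) (-1) :=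
  (sideF hx hx').farA (Or.inr rfl) (Or.inr rfl) fun y y' F r1 r2 =>
    farXA_cert (s1 := false) (s2 := false) rfl hκ (ka0 hκ hx hx') (xa0 hx) hx' (covF00 hx hx') (covF51 hx hx') (x1 hx) (x2 hx')
        Pool.Agent.Strip051.G.IE1.Tab.C.FA05.c_mm_012 noCut_VA noExt_VA F r1 r2 r1 r2

theorem FA05_mm_022 {κ x : ℝ} (hκ : κ * h0 = kenE x) (hx : 39 / 40 ≤ x) (hx' : x < 1) :
    TriA (DD x).cur (farD κ (h0 * x) (tbl tKF x) (tbl tL x)) 0 2 2 0 5 (-1) (-1) :=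
  (sideF hx hx').farA (Or.inr rfl) (Or.inr rfl) fun y y' F r1 r2 =>
    farXA_cert (s1 := false) (s2 := false) rfl hκ (ka0 hκ hx hx') (xa0 hx) hx' (covF00 hx hx') (covF52 hx hx') (x1 hx) (x2 hx')
        Pool.Agent.Strip051.G.IE1.Tab.C.FA05.c_mm_022 noCut_VA noExt_VA F r1 r2 r1 r2

theorem FA05_mm_023 {κ x : ℝ} (hκ : κ * h0 = kenE x) (hx : 39 / 40 ≤ x) (hx' : x < 1) :
    TriA (DD x).cur (farD κ (h0 * x) (tbl tKF x) (tbl tL x)) 0 2 3 0 5 (-1) (-1) :=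
  (sideF hx hx').farA (Or.inr rfl) (Or.inr rfl) fun y y' F r1 r2 =>
    farXA_cert (s1 := false) (s2 := false) rfl hκ (ka0 hκ hx hx') (xa0 hx) hx' (covF00 hx hx') (covF52 hx hx') (x1 hx) (x2 hx')
        Pool.Agent.Strip051.G.IE1.Tab.C.FA05.c_mm_023 noCut_VA noExt_VA F r1 r2 r1 r2

theorem FA05_mm_033 {κ x : ℝ} (hκ : κ * h0 = kenE x) (hx : 39 / 40 ≤ x) (hx' : x < 1) :
    TriA (DD x).cur (farD κ (h0 * x) (tbl tKF x) (tbl tL x)) 0 3 3 0 5 (-1) (-1) :=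
  (sideF hx hx').farA (Or.inr rfl) (Or.inr rfl) fun y y' F r1 r2 =>
    farXA_cert (s1 := false) (s2 := false) rfl hκ (ka0 hκ hx hx') (xa0 hx) hx' (covF00 hx hx') (covF53 hx hx') (x1 hx) (x2 hx')
        Pool.Agent.Strip051.G.IE1.Tab.C.FA05.c_mm_033 noCut_VA noExt_VA F r1 r2 r1 r2

theorem FA05_mm_101 {κ x : ℝ} (hκ : κ * h0 = kenE x) (hx : 39 / 40 ≤ x) (hx' : x < 1) :
    TriA (DD x).cur (farD κ (h0 * x) (tbl tKF x) (tbl tL x)) 1 0 1 0 5 (-1) (-1) :=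
  (sideF hx hx').farA (Or.inr rfl) (Or.inr rfl) fun y y' F r1 r2 =>
    farXA_cert (s1 := false) (s2 := false) rfl hκ (ka0 hκ hx hx') (xa0 hx) hx' (covF01 hx hx') (covF50 hx hx') (x1 hx) (x2 hx')
        Pool.Agent.Strip051.G.IE1.Tab.C.FA05.c_mm_101 noCut_VA noExt_VA F r1 r2 r1 r2

theorem FA05_mm_102 {κ x : ℝ} (hκ : κ * h0 = kenE x) (hx : 39 / 40 ≤ x) (hx' : x < 1) :
    TriA (DD x).cur (farD κ (h0 * x) (tbl tKF x) (tbl tL x)) 1 0 2 0 5 (-1) (-1) :=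
  (sideF hx hx').farA (Or.inr rfl) (Or.inr rfl) fun y y' F r1 r2 =>
    farXA_cert (s1 := false) (s2 := false) rfl hκ (ka0 hκ hx hx') (xa0 hx) hx' (covF01 hx hx') (covF50 hx hx') (x1 hx) (x2 hx')
        Pool.Agent.Strip051.G.IE1.Tab.C.FA05.c_mm_102 noCut_VA noExt_VA F r1 r2 r1 r2

theorem FA05_mm_112 {κ x : ℝ} (hκ : κ * h0 = kenE x) (hx : 39 / 40 ≤ x) (hx' : x < 1) :
    TriA (DD x).cur (farD κ (h0 * x) (tbl tKF x) (tbl tL x)) 1 1 2 0 5 (-1) (-1) :=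
  (sideF hx hx').farA (Or.inr rfl) (Or.inr rfl) fun y y' F r1 r2 =>
    farXA_cert (s1 := false) (s2 := false) rfl hκ (ka0 hκ hx hx') (xa0 hx) hx' (covF01 hx hx') (covF51 hx hx') (x1 hx) (x2 hx')
        Pool.Agent.Strip051.G.IE1.Tab.C.FA05.c_mm_112 noCut_VA noExt_VA F r1 r2 r1 r2

theorem FA05_mm_113 {κ x : ℝ} (hκ : κ * h0 = kenE x) (hx : 39 / 40 ≤ x) (hx' : x < 1) :
    TriA (DD x).cur (farD κ (h0 * x) (tbl tKF x) (tbl tL x)) 1 1 3 0 5 (-1) (-1) :=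
  (sideF hx hx').farA (Or.inr rfl) (Or.inr rfl) fun y y' F r1 r2 =>
    farXA_cert (s1 := false) (s2 := false) rfl hκ (ka0 hκ hx hx') (xa0 hx) hx' (covF01 hx hx') (covF51 hx hx') (x1 hx) (x2 hx')
        Pool.Agent.Strip051.G.IE1.Tab.C.FA05.c_mm_113 noCut_VA noExt_VA F r1 r2 r1 r2

theorem FA05_mm_123 {κ x : ℝ} (hκ : κ * h0 = kenE x) (hx : 39 / 40 ≤ x) (hx' : x < 1) :
    TriA (DD x).cur (farD κ (h0 * x) (tbl tKF x) (tbl tL x)) 1 2 3 0 5 (-1) (-1) :=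
  (sideF hx hx').farA (Or.inr rfl) (Or.inr rfl) fun y y' F r1 r2 =>
    farXA_cert (s1 := false) (s2 := false) rfl hκ (ka0 hκ hx hx') (xa0 hx) hx' (covF01 hx hx') (covF52 hx hx') (x1 hx) (x2 hx')
        Pool.Agent.Strip051.G.IE1.Tab.C.FA05.c_mm_123 noCut_VA noExt_VA F r1 r2 r1 r2

theorem FA05_mm_133 {κ x : ℝ} (hκ : κ * h0 = kenE x) (hx : 39 / 40 ≤ x) (hx' : x < 1) :
    TriA (DD x).cur (farD κ (h0 * x) (tbl tKF x) (tbl tL x)) 1 3 3 0 5 (-1) (-1) :=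
  (sideF hx hx').farA (Or.inr rfl) (Or.inr rfl) fun y y' F r1 r2 =>
    farXA_cert (s1 := false) (s2 := false) rfl hκ (ka0 hκ hx hx') (xa0 hx) hx' (covF01 hx hx') (covF53 hx hx') (x1 hx) (x2 hx')
        Pool.Agent.Strip051.G.IE1.Tab.C.FA05.c_mm_133 noCut_VA noExt_VA F r1 r2 r1 r2

theorem FA05_mm_202 {κ x : ℝ} (hκ : κ * h0 = kenE x) (hx : 39 / 40 ≤ x) (hx' : x < 1) :
    TriA (DD x).cur (farD κ (h0 * x) (tbl tKF x) (tbl tL x)) 2 0 2 0 5 (-1) (-1) :=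
  (sideF hx hx').farA (Or.inr rfl) (Or.inr rfl) fun y y' F r1 r2 =>
    farXA_cert (s1 := false) (s2 := false) rfl hκ (ka0 hκ hx hx') (xa0 hx) hx' (covF02 hx hx') (covF50 hx hx') (x1 hx) (x2 hx')
        Pool.Agent.Strip051.G.IE1.Tab.C.FA05.c_mm_202 noCut_VA noExt_VA F r1 r2 r1 r2

theorem FA05_mm_203 {κ x : ℝ} (hκ : κ * h0 = kenE x) (hx : 39 / 40 ≤ x) (hx' : x < 1) :
    TriA (DD x).cur (farD κ (h0 * x) (tbl tKF x) (tbl tL x)) 2 0 3 0 5 (-1) (-1) :=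
  (sideF hx hx').farA (Or.inr rfl) (Or.inr rfl) fun y y' F r1 r2 =>
    farXA_cert (s1 := false) (s2 := false) rfl hκ (ka0 hκ hx hx') (xa0 hx) hx' (covF02 hx hx') (covF50 hx hx') (x1 hx) (x2 hx')
        Pool.Agent.Strip051.G.IE1.Tab.C.FA05.c_mm_203 noCut_VA noExt_VA F r1 r2 r1 r2

theorem FA05_mm_213 {κ x : ℝ} (hκ : κ * h0 = kenE x) (hx : 39 / 40 ≤ x) (hx' : x < 1) :
    TriA (DD x).cur (farD κ (h0 * x) (tbl tKF x) (tbl tL x)) 2 1 3 0 5 (-1) (-1) :=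
  (sideF hx hx').farA (Or.inr rfl) (Or.inr rfl) fun y y' F r1 r2 =>
    farXA_cert (s1 := false) (s2 := false) rfl hκ (ka0 hκ hx hx') (xa0 hx) hx' (covF02 hx hx') (covF51 hx hx') (x1 hx) (x2 hx')
        Pool.Agent.Strip051.G.IE1.Tab.C.FA05.c_mm_213 noCut_VA noExt_VA F r1 r2 r1 r2

theorem FA05_mm_303 {κ x : ℝ} (hκ : κ * h0 = kenE x) (hx : 39 / 40 ≤ x) (hx' : x < 1) :
    TriA (DD x).cur (farD κ (h0 * x) (tbl tKF x) (tbl tL x)) 3 0 3 0 5 (-1) (-1) :=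
  triVA_j0

theorem FA05_mm_313 {κ x : ℝ} (hκ : κ * h0 = kenE x) (hx : 39 / 40 ≤ x) (hx' : x < 1) :
    TriA (DD x).cur (farD κ (h0 * x) (tbl tKF x) (tbl tL x)) 3 1 3 0 5 (-1) (-1) :=
  triVA_j0

theorem FA05 {κ x : ℝ} (hκ : κ * h0 = kenE x) (hx : 39 / 40 ≤ x) (hx' : x < 1) : AllTA (DD x).cur (farD κ (h0 * x) (tbl tKF x) (tbl tL x)) 0 5 where
  pp := all17 (Q := fun a b c => TriA (DD x).cur (farD κ (h0 * x) (tbl tKF x) (tbl tL x)) a b c 0 5 1 1)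
    (FA05_pp_001 hκ hx hx') (FA05_pp_011 hκ hx hx') (FA05_pp_012 hκ hx hx') (FA05_pp_022 hκ hx hx') (FA05_pp_023 hκ hx hx') (FA05_pp_033 hκ hx hx') (FA05_pp_101 hκ hx hx') (FA05_pp_102 hκ hx hx') (FA05_pp_112 hκ hx hx') (FA05_pp_113 hκ hx hx') (FA05_pp_123 hκ hx hx') (FA05_pp_133 hκ hx hx') (FA05_pp_202 hκ hx hx') (FA05_pp_203 hκ hx hx') (FA05_pp_213 hκ hx hx') (FA05_pp_303 hκ hx hx') (FA05_pp_313 hκ hx hx')
  pm := all17 (Q := fun a b c => TriA (DD x).cur (farD κ (h0 * x) (tbl tKF x) (tbl tL x)) a b c 0 5 1 (-1))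
    (FA05_pm_001 hκ hx hx') (FA05_pm_011 hκ hx hx') (FA05_pm_012 hκ hx hx') (FA05_pm_022 hκ hx hx') (FA05_pm_023 hκ hx hx') (FA05_pm_033 hκ hx hx') (FA05_pm_101 hκ hx hx') (FA05_pm_102 hκ hx hx') (FA05_pm_112 hκ hx hx') (FA05_pm_113 hκ hx hx') (FA05_pm_123 hκ hx hx') (FA05_pm_133 hκ hx hx') (FA05_pm_202 hκ hx hx') (FA05_pm_203 hκ hx hx') (FA05_pm_213 hκ hx hx') (FA05_pm_303 hκ hx hx') (FA05_pm_313 hκ hx hx')
  mm := all17 (Q := fun a b c => TriA (DD x).cur (farD κ (h0 * x) (tbl tKF x) (tbl tL x)) a b c 0 5 (-1) (-1))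
    (FA05_mm_001 hκ hx hx') (FA05_mm_011 hκ hx hx') (FA05_mm_012 hκ hx hx') (FA05_mm_022 hκ hx hx') (FA05_mm_023 hκ hx hx') (FA05_mm_033 hκ hx hx') (FA05_mm_101 hκ hx hx') (FA05_mm_102 hκ hx hx') (FA05_mm_112 hκ hx hx') (FA05_mm_113 hκ hx hx') (FA05_mm_123 hκ hx hx') (FA05_mm_133 hκ hx hx') (FA05_mm_202 hκ hx hx') (FA05_mm_203 hκ hx hx') (FA05_mm_213 hκ hx hx') (FA05_mm_303 hκ hx hx') (FA05_mm_313 hκ hx hx')

end Pool.Agent.Strip051.G.IE1.Tab
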