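import Pool.Agent.Strip051.G.IE1.StF

/-! # Strips St2 (generated) -/

set_option linter.all false
set_option maxRecDepth 100000

namespace Pool.Agent.Strip051.G.IE1.Tab.St.C

open Pool.Agent.Strip051.PB Pool.Agent.Strip051.PB.T
open Pool.Agent.StripNear Pool.Agent.Strip051.LC
open Pool.Agent.Strip051.G.IE1.Tab Pool.Agent.Strip051.G.IE1.Tab.St

noncomputable def cut_A07pm_011_s1 : Cut := Cut.of [[⟨4, 0, 0, 1449551462⟩], [⟨0, 0, 0, 67108864⟩, ⟨1, 1, 0, 67108864⟩, ⟨2, 1, 0, 67108864⟩]]

noncomputable def xt_A07pm_011_s1 : Ext := strExtY dd true true false .u0 .s0m .u0m .pnn 0 1 1 rfl rfl gf1 ge vv ndF0q0 ndF7q1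

noncomputable def f_A07pm_011_s1 : ℕ → ℕ → ℕ → ℕ → Bool := onCell 0 536870912 536870912 536870912 1046898278 26843546
    (rowFX 1 true true false .pnn 0 1 1 (qsf 0 536870912 536870912 536870912 1) ndF0q0 ndF7q1 pcF1 cut_A07pm_011_s1 xt_A07pm_011_s1)

def k0_A07pm_011_s1 : ∃ t, chk3 f_A07pm_011_s1 t 1 2 1 = true :=
  ⟨(a (l 3) (a (a (l 3) (l 1)) (l 1))), by decide +kernel⟩

def k1_A07pm_011_s1 : ∃ t, chk3 f_A07pm_011_s1 t 1 6 1 = true :=
  ⟨(a (b (l 3) (b (l 3) (a (l 3) (a (l 3) (a (a (l 3) (a (l 3) (b (l 3) (c (l 515551695) (l 515142607))))) (a (b (l 3) (a (c (l 520569423) (l 522305103)) (c (c (l 516913743) (l 520803663)) (b (l 520625487) (l 522605391))))) (b (c (l 535791119) (l 535762959)) (c (l 520731727) (l 520457551))))))))) (a (b (b (a (l 3) (l 1)) (c (a (a (l 3) (a (l 3) (l 536620559))) (l 536623631)) (a (c (l 536345359) (l 536610575)) (l 536617231)))) (a (a (c (b (b (l 3) (l 536032527)) (b (l 535799823) (l 521877391))) (b (c (l 536134927) (l 536125455)) (b (l 535771919) (l 521539983))))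 (b (b (c (c (l 536276239) (l 536268303)) (c (l 536260623) (l 536252943))) (a (a (c (l 536037903) (l 536016399)) (c (c (l 536045583) (l 536034831)) (c (l 536024079) (l 536013071)))) (c (c (l 536048911) (l 536038159)) (c (l 536027407) (l 536016655))))) (c (b (c (l 535818255) (l 535804431)) (l 512156047)) (b (c (l 535790607) (l 535776783)) (l 515854223))))) (b (c (c (c (l 536174607) (l 536169999)) (a (l 536159503) (l 275448278055))) (a (c (l 536150287) (l 536141071)) (c (l 282427599751) (l 293165017831)))) (c (c (b (a (l 16768168) (l 16764424)) (a (l 16759128) (l 16761256))) (b (l 535821839) (a (l 16675000) (l 16761040)))) (c (b (l 535808271) (a (l 524334223) (l 16760832))) (b (l 535794703) (a (l 524174479) (l 16760624)))))))) (b (l 1) (a (a (b (l 1) (b (l 1) (c (l 16679456) (l 251825836903)))) (l 1)) (l 1))))), by decide +kernel⟩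

def k2_A07pm_011_s1 : ∃ t, chk3 f_A07pm_011_s1 t 4 14 1 = true :=
  ⟨(a (l 3) (a (l 3) (b (l 3) (b (l 3) (b (l 3) (a (l 3) (c (a (c (l 515586127) (l 515522127)) (b (l 518679055) (l 520991375))) (a (b (l 3) (l 517271631)) (l 519032207))))))))), by decide +kernel⟩

def k3_A07pm_011_s1 : ∃ t, chk3 f_A07pm_011_s1 t 5 14 2 = true :=
  ⟨(b (a (a (l 3) (b (l 3) (a (b (l 3) (l 520003855)) (b (l 520392719) (l 520312591))))) (a (c (b (a (b (l 3) (l 520781071)) (c (l 521130255) (l 521095951))) (a (l 520745999) (l 521023503))) (b (a (b (l 3) (l 520709391)) (b (l 521033743) (l 520989455))) (a (l 520673551) (l 520951823)))) (b (a (a (c (l 520814863) (l 521284623)) (b (b (l 516054223) (c (l 516118735) (l 515914191))) (c (l 516058831) (l 515853519)))) (c (a (l 518710351) (l 522669391)) (b (l 522595151) (l 522512975)))) (a (a (c (l 521265423) (l 521195023)) (c (b (l 16689800) (l 16691312)) (b (l 16668584) (l 16690968)))) (c (l 515759823) (l 515552463)))))) (a (b (a (a (l 3) (b (a (l 3) (l 519785487))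 (a (l 519511823) (l 519664399)))) (a (b (l 519902479) (l 519785231)) (c (l 520053775) (l 520244751)))) (a (a (b (b (a (l 3) (c (l 519238671) (l 519151119))) (c (l 518855439) (l 518762767))) (a (l 519217807) (b (l 519020047) (l 518997007)))) (b (c (a (b (l 519399695) (l 519318031)) (b (l 519558415) (l 519479311))) (a (b (l 519312655) (l 519229455)) (l 519483663))) (c (a (l 519325455) (l 519457551)) (a (l 519236879) (l 519369231))))) (a (b (c (a (l 519723791) (l 16680720)) (a (l 519638287) (l 16638504))) (c (a (l 16713352) (l 16700712)) (l 517489551))) (b (c (l 16682848) (l 16661504)) (c (l 16681920) (l 16681424)))))) (a (b (a (c (l 520611599) (l 520535311)) (c (l 520895759) (l 520820239))) (a (b (c (l 16679112) (l 16678608)) (c (l 16657304) (l 16656672))) (c (l 16560184) (l 16643376)))) (a (b (a (l 521101839) (c (l 16577464) (l 16576952))) (c (l 16538944) (l 16538168))) (b (b (l 515596239) (l 16648480)) (c (l 16638104) (l 16637776))))))), by decide +kernel⟩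

def k4_A07pm_011_s1 : ∃ t, chk3 f_A07pm_011_s1 t 5 14 3 = true :=
  ⟨(b (a (a (l 3) (b (l 3) (a (b (l 3) (l 519847439)) (l 519741455)))) (a (b (c (a (b (l 3) (l 520637967)) (b (l 520964879) (l 520919055))) (a (b (l 3) (l 520566543)) (b (l 520896015) (l 520848655)))) (a (l 520564751) (b (l 520824591) (l 520751887)))) (b (a (a (c (l 521217295) (l 521150223)) (c (b (l 515723727) (l 515647951)) (b (l 515519695) (l 515442639)))) (b (l 518361167) (c (l 522372943) (l 522233167)))) (a (a (a (l 521062927) (l 521129231)) (a (l 521195279) (b (l 515508431) (l 16608856)))) (c (l 515345103) (l 515137743)))))) (a (b (a (a (l 3) (b (l 519405839) (l 519006991))) (a (b (l 519740943) (l 519618575)) (c (l 520167439) (l 520090127)))) (a (a (b (a (c (l 518921999) (l 518834191)) (b (c (l 519063567) (l 518976015)) (l 518931471))) (a (l 519126159) (l 519218319))) (b (c (a (l 519240975) (l 519397647)) (a (l 519154447) (l 519311631))) (c (a (l 519148559) (l 519280655)) (a (l 519060239) (l 519192335))))) (a (b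 (c (a (l 519553039) (l 16638232)) (a (l 519467535) (l 16637952))) (c (l 519402767) (l 519313679))) (c (b (l 16619192) (l 16680928)) (b (l 16618824) (l 16680424)))))) (a (b (a (l 520420879) (l 520707343)) (a (c (l 16625248) (l 16582744)) (c (l 16642688) (l 16642000)))) (a (a (b (l 520952591) (l 16624248)) (b (a (l 16657768) (l 16578512)) (l 16533736))) (b (a (l 16591016) (l 16627728)) (l 16553400)))))), by decide +kernel⟩

def k5_A07pm_011_s1 : ∃ t, chk3 f_A07pm_011_s1 t 8 30 1 = true :=
  ⟨(a (l 3) (b (l 3) (b (l 3) (b (l 3) (b (l 3) (a (l 3) (a (l 3) (a (l 3) (c (c (c (c (a (l 514284879) (l 514333007)) (l 514995855)) (l 515338511)) (c (c (l 515557903) (l 515525135)) (l 515476239))) (l 515312655)))))))))), by decide +kernel⟩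

def k6_A07pm_011_s1 : ∃ t, chk3 f_A07pm_011_s1 t 16 31 1 = true :=
  ⟨(a (l 14) (b (b (l 3) (l 14)) (l 14))), by decide +kernel⟩

def k7_A07pm_011_s1 : ∃ t, chk3 f_A07pm_011_s1 t 34 124 2 = true :=
  ⟨(a (l 3) (b (l 3) (b (l 3) (b (l 3) (a (l 3) (a (l 3) (c (c (l 512976911) (c (a (l 509842767) (l 509878351)) (l 514008399))) (c (a (l 514173519) (l 512178767)) (l 515011087))))))))), by decide +kernel⟩

def k8_A07pm_011_s1 : ∃ t, chk3 f_A07pm_011_s1 t 68 125 4 = true :=
  ⟨(b (b (l 3) (l 14)) (l 14)), by decide +kernel⟩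

def k9_A07pm_011_s1 : ∃ t, chk3 f_A07pm_011_s1 t 69 250 4 = true :=
  ⟨(a (b (b (l 3) (a (l 3) (c (l 512685071) (c (l 513025807) (a (l 509830735) (l 509864015)))))) (a (b (b (b (l 3) (l 14)) (l 14)) (l 14)) (a (b (b (c (l 512636431) (a (l 509580367) (l 509594703))) (b (l 509262415) (a (l 14) (c (c (l 16768392) (l 16773672)) (l 509524815))))) (c (c (b (b (a (l 14) (l 16767336)) (l 14)) (l 14)) (l 512723471)) (l 508230863))) (c (c (b (b (l 512556815) (a (l 16767848) (l 16772064))) (b (c (l 16759776) (l 16770640)) (l 16757440))) (l 513039887)) (b (l 509643087) (l 509565775)))))) (b (c (a (b (l 512832271) (l 512759567)) (b (l 512904207) (l 512831759))) (c (a (b (l 509625935) (l 509270479)) (b (a (l 509748303) (l 509783631)) (a (l 509670223) (l 509705807)))) (c (a (b (l 509851983) (a (l 509806927) (l 509844303))) (b (l 509942607) (l 509841231))) (b (a (l 508293263) (l 513643471)) (a (l 509923663) (b (l 510815247) (l 16758384))))))) (c (c (a (b (b (l 512516623) (l 16759000)) (b (l 16756832)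 (l 16743864))) (b (l 16766360) (l 16740904))) (a (l 513044239) (l 16743552))) (c (a (l 504401615) (b (a (l 508319695) (l 509629519)) (a (l 16742344) (l 16739432)))) (b (a (c (l 509673295) (l 509824847)) (c (l 509764431) (l 16743728))) (a (a (l 509731919) (l 509771087)) (c (l 509689167) (l 16716816)))))))), by decide +kernel⟩

def k10_A07pm_011_s1 : ∃ t, chk3 f_A07pm_011_s1 t 69 251 4 = true :=
  ⟨(c (a (b (a (l 14) (a (l 14) (b (c (l 16742592) (l 16744568)) (l 14)))) (l 14)) (c (b (l 16734384) (a (l 16724624) (l 16740872))) (b (b (l 16739464) (l 16713360)) (l 16746160)))) (a (b (a (l 14) (b (l 506074575) (l 14))) (l 14)) (c (b (a (l 16739872) (b (l 16736792) (l 16711832))) (a (l 16709152) (l 16704080))) (b (a (b (a (l 509656655) (l 509695567)) (c (l 16715904) (l 16713040))) (b (c (l 16712392) (l 16753152)) (l 16728376))) (a (b (l 16710296) (l 14)) (l 16721416)))))), by decide +kernel⟩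

def k11_A07pm_011_s1 : ∃ t, chk3 f_A07pm_011_s1 t 34 250 5 = true :=
  ⟨(a (b (l 3) (l 14)) (c (b (a (a (l 3) (b (l 3) (c (c (l 510033999) (l 514023247)) (l 514101839)))) (a (c (b (l 512059727) (l 512027471)) (l 514206287)) (c (c (l 512134479) (l 514202959)) (l 514746767)))) (a (b (c (c (a (a (l 14) (l 509932879)) (l 509905743)) (a (a (l 14) (l 512731151)) (l 513662927))) (a (a (l 14) (l 514091855)) (l 514083407))) (a (l 14) (c (a (l 509968719) (a (l 510013519) (c (l 509941839) (l 16758304)))) (l 514052687)))) (c (a (c (b (b (a (l 511275023) (l 16770368)) (l 16758568)) (l 16743840)) (b (l 514050383) (a (c (l 16746136) (a (b (l 16748576) (l 16746464)) (l 16758176))) (c (c (l 16754872) (l 16756400)) (l 16749344))))) (c (b (a (c (l 16745960) (a (b (l 16748328) (l 16746264)) (l 16757960))) (c (c (l 16754704) (l 16756200)) (l 16728160))) (a (c (l 16761240) (l 16742488)) (l 16741952))) (b (l 514094159) (c (a (l 16683984) (l 16745952)) (b (l 514053199) (a (l 16745792) (l 16721928))))))) (a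 (l 514181711) (l 514197583))))) (b (a (a (l 3) (b (l 3) (l 514864911))) (a (b (l 514938639) (l 514931471)) (b (l 515003407) (l 514995983)))) (a (a (b (l 514684559) (l 14)) (b (l 514858767) (l 514721423))) (a (b (l 514925071) (l 514760591)) (b (l 16767416) (l 514799503))))))), by decide +kernel⟩

def k12_A07pm_011_s1 : ∃ t, chk3 f_A07pm_011_s1 t 34 251 5 = true :=
  ⟨(a (l 14) (c (a (b (a (l 14) (b (a (l 14) (a (l 14) (c (c (l 16740984) (l 16763392)) (c (c (l 16745360) (l 16749224)) (l 514104399))))) (l 14))) (l 14)) (c (a (b (c (b (l 16738000) (l 16711528)) (b (a (c (l 16761344) (l 16742608)) (l 16742072)) (a (l 16714648) (l 16715040)))) (c (l 16704232) (a (l 14) (l 16705864)))) (a (c (b (l 16732464) (l 16721008)) (l 16713968)) (b (c (l 16711888) (b (l 16745080) (l 16677864))) (l 16705344)))) (a (b (c (b (c (a (l 16684152) (l 16746168)) (b (l 514029903) (a (l 16745992) (l 16722224)))) (a (l 16681200) (l 16745376))) (b (l 16747200) (c (b (l 16743000) (l 16763112)) (l 16764400)))) (c (l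 16673480) (b (c (l 16721144) (l 16719608)) (l 14)))) (b (c (b (c (b (l 16742672) (l 16762736)) (l 16764016)) (c (l 16720808) (l 16719176))) (l 16765448)) (c (b (l 16720312) (l 16675400)) (l 16759336)))))) (c (a (a (l 14) (b (b (l 514710927) (l 14)) (l 14))) (b (b (l 510711439) (l 16742848)) (a (l 16743168) (l 16761216)))) (a (a (l 14) (b (l 512675983) (l 14))) (b (b (l 16762224) (l 16716896)) (b (l 16714704) (l 16672384))))))), by decide +kernel⟩

def k13_A07pm_011_s1 : ∃ t, chk3 f_A07pm_011_s1 t 35 248 4 = true :=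
  ⟨(a (b (l 3) (a (l 3) (c (a (b (l 3) (c (l 509780559) (l 510158927))) (c (b (l 509973327) (l 509857103)) (l 514134095))) (c (a (l 512196943) (l 514258511)) (l 512830095))))) (c (a (c (c (b (l 506295695) (a (l 510007631) (l 508280463))) (b (l 514109263) (c (l 506207631) (l 513542351)))) (b (a (l 514246479) (l 514294863)) (a (l 514204495) (l 514253135)))) (b (c (a (l 514240335) (l 514288975)) (l 514282319)) (c (b (c (a (l 16757544) (b (l 513644495) (c (a (l 16763824) (l 16741952)) (l 16755648)))) (l 514163279)) (a (c (l 16742272) (b (l 513649103) (c (a (l 16764136) (l 16742272)) (l 16756000)))) (c (a (c (l 16759776) (l 16740760)) (l 16740224)) (c (l 16725192) (l 514226255))))) (l 514240847)))) (a (b (a (l 514929039) (l 515634447)) (a (l 514296911) (l 514963087))) (b (l 514799375) (l 514996879))))), by decide +kernel⟩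

def k14_A07pm_011_s1 : ∃ t, chk3 f_A07pm_011_s1 t 70 249 4 = true :=
  ⟨(c (a (c (b (b (l 3) (l 512837135)) (a (l 513144335) (l 513205519))) (b (a (l 3) (b (l 3) (l 509826639))) (a (b (l 509655375) (l 509577295)) (b (l 509731151) (l 509653071))))) (b (a (b (c (l 509684047) (l 510026063)) (c (l 509605967) (l 509910607))) (c (b (l 509761103) (l 509683023)) (c (l 510093903) (b (l 513612239) (b (l 16749072) (l 16746952)))))) (c (a (b (l 508304079) (l 508227535)) (b (l 509608527) (l 509534031))) (a (a (l 509942351) (l 509981519)) (a (l 510025551) (b (l 16740976) (l 16756232))))))) (c (a (a (b (l 3) (b (l 509993551) (l 509878863))) (c (b (l 512787471) (b (l 508191119) (l 509874767))) (b (l 514154063) (b (l 513626575) (a (l 508309391) (l 16757952)))))) (a (b (l 512157519) (b (c (b (l 16759864) (l 16757704)) (l 514131279)) (c (l 16743224) (a (c (l 16766288) (a (l 16757000) (l 16746688))) (c (b (l 16745672) (l 16743344)) (l 16727392)))))) (b (l 514219343) (c (b (a (c (l 16766032) (a (l 16746224)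 (l 16746392))) (c (b (l 16745376) (l 16743104)) (l 16727088))) (a (c (l 16760648) (l 16741792)) (l 16741248))) (b (l 514173519) (c (l 16747280) (a (l 16756192) (b (l 16764344) (l 16720848))))))))) (a (b (a (l 3) (l 512211535)) (a (b (l 514114895) (l 514081615)) (l 512175695))) (b (a (l 514262351) (l 514887055)) (l 508110415))))), by decide +kernel⟩

def k15_A07pm_011_s1 : ∃ t, chk3 f_A07pm_011_s1 t 71 249 4 = true :=
  ⟨(c (a (b (c (a (l 509932623) (b (b (l 16753528) (l 16740240)) (l 16746536))) (b (c (c (a (l 508248463) (a (l 16765472) (l 16754104))) (l 513609167)) (l 514108751)) (a (c (l 16742784) (b (l 513660367) (a (c (l 16764696) (l 16745216)) (a (l 16754928) (l 16724120))))) (c (a (c (l 16760256) (l 16741312)) (l 16740776)) (c (l 16725800) (a (l 16745384) (l 16742304))))))) (c (a (l 509804879) (b (l 16741064) (l 16725352))) (a (c (l 16712928) (b (a (c (l 16760464) (l 16741560)) (l 16741024)) (a (l 16713816) (l 16714152)))) (c (a (l 16710608) (l 16710936)) (b (l 16744032) (l 16675512))))))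 (c (a (b (c (l 16754456) (b (a (c (l 16760024) (l 16741048)) (l 16740512)) (a (l 16713408) (l 16713720)))) (c (l 16742800) (l 16725888))) (b (c (a (l 16710168) (l 16710480)) (l 16740672)) (l 16724656))) (b (c (c (a (l 16743808) (b (a (l 16740872) (l 16717320)) (l 16718264))) (b (l 514151503) (a (l 16721992) (l 16736920)))) (a (c (b (l 514222671) (a (l 16741104) (l 16717664))) (l 16742848)) (l 16761992))) (a (c (l 16672272) (b (c (l 16718560) (l 16737296)) (l 16718040))) (c (l 16718504) (l 16745352)))))) (a (b (l 512195407) (c (c (a (b (c (l 16726064) (a (l 16745544) (l 16742568))) (l 16744224)) (b (c (a (l 16741352) (l 16718016)) (l 16719768)) (c (l 16718864) (l 16716712)))) (b (l 514124367) (a (c (b (l 16741128) (l 16740040)) (l 16720152)) (l 16760448)))) (l 514917775))) (b (l 514996623) (c (b (l 16762192) (l 16737296)) (l 16714568))))), by decide +kernel⟩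

def k16_A07pm_011_s1 : ∃ t, chk3 f_A07pm_011_s1 t 35 124 5 = true :=
  ⟨(b (a (a (l 3) (b (l 3) (a (c (l 515403535) (l 515338511)) (c (l 515458831) (l 515393807))))) (b (a (c (c (l 515419919) (l 515387151)) (l 515337743)) (a (b (c (l 515549967) (l 515484687)) (c (l 515543055) (l 515477775))) (c (l 515678479) (l 515613967)))) (a (a (c (l 515513615) (l 515448847)) (c (l 515568143) (l 515503375))) (a (c (l 16757048) (l 16746528)) (l 16753376))))) (a (a (c (a (b (l 3) (a (l 514251599) (l 514807951))) (b (l 515351311) (l 514823311))) (b (a (l 3) (c (l 515302415) (l 515269903))) (a (b (l 515081999) (l 515074063)) (b (l 515143695) (l 16759976))))) (b (a (c (l 515406607) (l 514536207)) (c (l 515461135) (l 515396111))) (a (c (l 514861967) (l 513738255)) (c (l 514900879) (l 16764816))))) (a (b (a (c (l 16757560) (l 16757536)) (l 16753880)) (c (b (l 16761080) (l 16736936)) (l 16759312))) (b (l 16737912) (c (l 16710344) (l 16752008)))))), by decide +kernel⟩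

def k17_A07pm_011_s1 : ∃ t, chk3 f_A07pm_011_s1 t 70 250 8 = true :=
  ⟨(b (a (a (l 504263375) (c (l 16743064) (b (l 509577807) (l 509502287)))) (b (c (l 501928399) (a (l 509662543) (c (l 16731016) (l 16752072)))) (c (l 501850831) (a (l 509587279) (l 16726320))))) (c (a (b (l 16760224) (l 16713792)) (a (l 16730488) (l 16703592))) (a (a (l 16739376) (l 16733872)) (a (l 16726880) (l 16698392))))), by decide +kernel⟩

def k18_A07pm_011_s1 : ∃ t, chk3 f_A07pm_011_s1 t 70 250 9 = true :=
  ⟨(a (b (c (a (b (l 509784911) (l 509707855)) (a (l 510045263) (c (l 510007631) (l 16718408)))) (c (a (b (b (l 511941391) (l 16758176)) (l 16743584)) (b (a (c (l 16766520) (a (l 16757272) (l 16746968))) (c (b (l 16756440) (l 16743560)) (l 16727672))) (a (c (l 16760976) (l 16742184)) (l 16741640)))) (a (b (l 514090575) (a (c (l 16745768) (a (b (l 16748064) (l 16746040)) (l 16757712))) (c (b (l 16756696) (l 16743752)) (l 16727928)))) (b (l 514133583) (b (c (l 16747720) (l 514098255)) (a (l 16747728) (a (l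 16744864) (l 16753720)))))))) (c (a (b (l 509632335) (l 509557583)) (c (l 16730112) (l 16729064))) (a (c (b (l 16758568) (l 16752856)) (b (a (c (l 16761120) (l 16742352)) (l 16741808)) (a (l 16714440) (l 16714808)))) (a (c (l 16732248) (l 16677840)) (c (l 16711640) (l 16743048)))))) (c (a (c (b (l 16734352) (l 16702416)) (b (b (a (c (l 16760824) (l 16742000)) (l 16741456)) (a (l 16714168) (l 16714520))) (a (l 16705032) (l 16663456)))) (b (c (a (l 16731944) (l 16711320)) (b (l 16744392) (l 16675896))) (c (l 16720432) (l 16666800)))) (b (c (a (b (c (l 16747504) (b (l 514120271) (a (l 16724304) (l 16721104)))) (a (l 16680680) (l 16723288))) (b (c (b (l 16741424) (l 16740360)) (l 16678592)) (c (l 16719488) (l 16717512)))) (b (l 514067535) (a (c (b (l 16741720) (l 16740688)) (l 16678976)) (l 16761368)))) (a (c (l 16673024) (b (c (l 16719816) (l 16717912)) (l 16719320))) (c (l 16740080) (l 16757576)))))), by decide +kernel⟩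

def k19_A07pm_011_s1 : ∃ t, chk3 f_A07pm_011_s1 t 70 251 4 = true :=
  ⟨(c (c (a (l 16699080) (l 16710384)) (a (b (a (l 16709560) (l 16704056)) (l 16653048)) (b (l 16713688) (l 16723032)))) (a (c (b (a (l 16728088) (l 16720504)) (l 16714104)) (b (a (c (l 16703288) (a (l 16726352) (l 16663720))) (c (a (l 16699432) (l 16657488)) (l 16667096))) (a (c (l 16735392) (a (l 16694360) (l 16693856))) (c (a (l 16688520) (l 16687736)) (l 16654792))))) (c (b (a (c (l 16734544) (b (l 16696664) (l 16733072))) (c (l 16709272) (l 16738392))) (a (c (l 16723744) (l 16703544)) (c (l 16718120) (l 16725552)))) (c (l 16709760) (a (l 16708112) (a (l 16711264) (l 16733464))))))), by decide +kernel⟩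

def k20_A07pm_011_s1 : ∃ t, chk3 f_A07pm_011_s1 t 71 125 4 = true :=
  ⟨(c (a (c (b (b (a (l 16725568) (l 16697240)) (l 16712936)) (l 16716856)) (c (b (a (b (l 16743552) (l 16733440)) (b (l 16699024) (l 16687576))) (a (l 16717352) (l 16690912))) (b (a (b (l 16726272) (l 16714416)) (l 16660344)) (b (a (l 16703288) (l 16725656)) (l 16670432))))) (b (a (c (b (c (l 16732336) (l 16692864)) (c (l 16722624) (l 16681776))) (l 16711192)) (b (c (l 16712760) (l 16711560)) (c (c (l 16717736) (l 16725464)) (l 16659048)))) (c (a (l 16663896) (l 16661160)) (l 16678568)))) (a (b (c (a (b (c (l 16672696) (b (c (l 16719176) (l 16717112)) (l 16718672))) (l 16666144)) (b (c (l 16718912) (l 16756704)) (l 16732760))) (b (b (l 16763136) (l 16717248)) (b (l 16756528) (l 16733880)))) (c (b (l 16697552) (l 16643376)) (b (c (l 16712024) (l 16751360)) (a (l 16662840) (l 16664528))))) (b (c (b (b (l 16755576) (l 16743440)) (c (l 16711296) (l 16750408))) (l 16755360)) (c (b (a (l 16662984) (l 16664720)) (l 16651904))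 (b (l 16748440) (l 16745224)))))), by decide +kernel⟩

def k21_A07pm_011_s1 : ∃ t, chk3 f_A07pm_011_s1 t 35 125 5 = true :=
  ⟨(c (b (a (c (a (a (b (l 514200911) (c (b (b (c (l 16747872) (l 514075727)) (a (l 16747888) (a (l 16745096) (l 16753984)))) (a (l 16680992) (l 16723832))) (b (l 16757056) (c (b (l 16742344) (l 16741392)) (l 16763632))))) (b (l 514216783) (c (b (c (b (l 16742032) (l 16741032)) (l 16679360)) (c (l 16720144) (l 16718328))) (l 16764640)))) (b (l 510813583) (b (l 16763872) (l 16718160)))) (a (b (b (l 514882831) (l 514806671)) (b (l 514806671) (l 16679504))) (b (b (l 16761504) (l 16716432)) (l 16735568)))) (c (b (a (l 16714576) (l 16665296)) (l 16752376)) (b (l 16728080) (l 16703560)))) (a (c (a (b (a (c (l 16673296) (b (c (l 16720472) (l 16718752)) (l 16719984))) (c (l 16740200) (l 16758456))) (c (l 16663616) (a (l 16672384) (l 16714792)))) (b (b (l 16757488) (l 16755760)) (c (l 16733304) (l 16752312)))) (a (b (b (l 16763680) (l 16761000)) (b (l 16758424) (l 16756656)))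 (l 16754800))) (b (l 16663576) (l 16745288)))) (a (b (b (a (a (b (l 16760208) (l 16767208)) (l 16723312)) (l 16759736)) (a (b (l 16761872) (l 16737512)) (l 16710912))) (b (c (b (a (l 16714640) (l 16749224)) (l 16710696)) (l 16707560)) (a (b (l 16732392) (l 16668192)) (l 16661584)))) (b (b (l 16748752) (l 16658008)) (b (c (l 16697032) (l 16734912)) (l 16650496))))), by decide +kernel⟩

def k22_A07pm_011_s1 : ∃ t, chk3 f_A07pm_011_s1 t 17 62 3 = true :=
  ⟨(b (a (a (l 3) (a (l 3) (b (l 3) (b (l 3) (a (l 3) (l 515022095)))))) (b (a (a (l 3) (b (l 3) (a (l 515175695) (l 515231503)))) (b (a (l 515173391) (l 515310351)) (a (l 515173647) (l 515309839)))) (b (a (a (a (l 3) (l 515123471)) (a (l 515179023) (l 515233807))) (a (l 514640399) (l 515312143))) (a (a (a (l 515077903) (l 515132431)) (c (l 514302991) (l 514707983))) (a (c (l 16738256) (l 515120143)) (l 515318799)))))) (a (c (b (a (b (l 3) (l 14)) (b (c (b (a (l 3) (l 514561551)) (a (a (l 3) (l 514798095)) (a (l 514864911) (l 16760408))))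 (a (a (l 3) (l 514964239)) (a (l 515020303) (l 515074831)))) (a (c (a (b (c (l 514739215) (l 514705679)) (l 14)) (b (l 514791951) (l 514786319))) (a (l 514949903) (l 515003663))) (c (a (b (l 514858255) (l 16767576)) (l 16723680)) (a (l 515055887) (l 16723648)))))) (a (l 14) (a (b (a (l 14) (c (l 16724056) (l 16724016))) (l 14)) (c (b (l 16718480) (l 16669432)) (l 16735848))))) (b (b (a (l 3) (a (a (l 3) (l 514866703)) (a (l 514922767) (l 514977295)))) (a (l 14) (a (a (l 514315535) (l 514906383)) (a (l 514958607) (l 515010319))))) (a (l 14) (a (b (a (l 14) (l 514430991)) (l 14)) (c (l 16735784) (l 16714752)))))) (a (b (a (a (b (c (c (l 515193359) (l 515128335)) (l 515031055)) (c (l 16719952) (l 16719864))) (c (b (c (l 16723280) (l 16723240)) (l 16758192)) (b (l 515084047) (l 16758080)))) (c (b (l 16738680) (l 16752664)) (c (l 16672184) (l 16672120)))) (b (c (l 16707352) (l 16728152)) (c (a (l 16661888) (l 16738432)) (l 16742000)))) (b (c (a (l 16664928) (l 16741504)) (a (l 16664752) (l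 16741288))) (c (l 16689008) (l 16730856)))))), by decide +kernel⟩

def k23_A07pm_011_s1 : ∃ t, chk3 f_A07pm_011_s1 t 34 63 2 = true :=
  ⟨(c (b (b (b (b (a (l 14) (a (l 14) (c (l 16715072) (c (l 16739296) (l 16654272))))) (l 14)) (l 14)) (l 14)) (l 14)) (a (l 14) (a (l 14) (a (l 14) (b (b (b (a (l 14) (a (l 14) (c (c (l 16651176) (l 16713632)) (l 16754792)))) (l 14)) (l 14)) (l 14)))))), by decide +kernel⟩

def k24_A07pm_011_s1 : ∃ t, chk3 f_A07pm_011_s1 t 35 63 2 = true :=
  ⟨(b (c (a (b (c (a (b (l 16723152) (l 16689696)) (l 16683880)) (c (a (l 16632816) (a (l 16705728) (l 16660632))) (a (a (c (l 16717624) (l 16697160)) (c (l 16627768) (l 16634472))) (l 16635752)))) (c (a (c (l 16688240) (l 16605168)) (l 16632936)) (a (c (l 16688680) (b (l 16698128) (l 14))) (c (l 16592840) (l 16605240))))) (c (a (b (c (l 16691936) (l 16650424)) (c (l 16661032) (l 16662936))) (b (c (l 16679608) (l 16607864)) (l 16571768))) (b (c (a (l 16621648) (l 16628592)) (a (b (l 16650920) (l 16635000)) (l 16689064)))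 (a (l 16601872) (b (l 16615040) (l 16598744)))))) (c (b (a (c (a (b (c (l 16650800) (l 16662512)) (l 16642016)) (b (a (l 16704272) (l 16663920)) (a (l 16647064) (l 16651992)))) (a (b (c (a (l 16670584) (l 16752040)) (l 16753248)) (c (l 16659112) (l 16665944))) (b (l 16750576) (l 16744840)))) (a (b (l 16744328) (l 16715792)) (l 16734712))) (a (c (b (l 16683392) (l 16615576)) (a (c (l 16635448) (l 16646104)) (b (l 16734864) (l 16638720)))) (a (b (l 16642704) (c (l 16622672) (l 16722384))) (l 16634128)))) (a (b (b (l 16662880) (l 16744272)) (a (a (l 14) (l 16715320)) (l 16731520))) (b (l 16729944) (l 16636160))))) (c (a (a (l 14) (a (l 14) (c (l 16582176) (l 16546208)))) (c (a (c (l 16528280) (l 16527736)) (l 16520640)) (b (l 16569008) (l 16616192)))) (b (c (a (a (l 14) (l 16620528)) (c (a (l 16595968) (l 16598160)) (l 16613384))) (a (a (l 14) (l 16627400)) (l 16702736))) (a (l 14) (c (a (l 16567520) (l 16569968)) (l 16592600)))))), by decide +kernel⟩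

def k25_A07pm_011_s1 : ∃ t, chk3 f_A07pm_011_s1 t 17 63 3 = true :=
  ⟨(b (b (a (b (a (l 14) (a (l 14) (a (l 14) (b (c (l 16704480) (l 16745888)) (l 14))))) (l 14)) (c (c (a (b (c (l 16654736) (l 16735144)) (l 16649952)) (a (l 16641056) (l 16633744))) (a (l 16731344) (l 16716776))) (a (l 16731232) (l 16716584)))) (a (l 14) (c (c (a (l 16644504) (l 16629608)) (a (b (l 16638944) (l 16634440)) (l 16622048))) (a (l 16716400) (l 16701840))))) (a (l 14) (c (b (b (a (l 16632024) (l 16617208)) (l 16617840)) (a (l 14) (l 16677864))) (b (c (b (l 16616008) (l 16610600)) (l 16694368)) (c (l 16599024) (b (l 16599960) (l 16592240))))))), by decide +kernel⟩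

def k26_A07pm_011_s1 : ∃ t, chk3 f_A07pm_011_s1 t 9 60 4 = true :=
  ⟨(b (a (l 3) (a (a (l 3) (b (l 516236047) (c (l 514664975) (l 515951375)))) (a (b (l 519278159) (a (l 516224527) (l 519684047))) (b (l 519417167) (l 519182415))))) (b (a (l 3) (a (a (l 515488783) (a (l 515767823) (b (l 515885327) (l 515748367)))) (a (a (l 515965967) (l 519442127)) (l 516927567)))) (a (a (l 3) (a (l 3) (l 514967055))) (a (a (l 515214095) (l 515447567)) (a (a (l 16738272) (l 16731400)) (l 16728952)))))), by decide +kernel⟩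

def k27_A07pm_011_s1 : ∃ t, chk3 f_A07pm_011_s1 t 18 122 4 = true :=
  ⟨(a (b (l 3) (a (l 3) (c (c (a (a (l 3) (b (l 3) (l 513973263))) (c (l 514225423) (l 514208783))) (a (a (l 3) (l 514148367)) (l 514184207))) (a (a (l 3) (c (l 514115343) (l 514082575))) (l 514134543))))) (a (b (c (c (c (a (b (l 3) (l 514446351)) (b (l 514717967) (l 514563087))) (a (b (l 3) (l 514429967)) (l 514724623))) (a (b (l 3) (l 514405647)) (l 514701071))) (a (l 514543375) (l 514653711))) (a (b (a (c (c (c (l 514313743) (l 514297359)) (l 514272527)) (l 514223119)) (b (a (c (c (c (l 514380303) (l 514363663)) (l 514339087)) (l 514289935)) (c (c (c (l 514407951) (l 514391567)) (l 514366735)) (l 514317583))) (c (c (c (l 514300175) (l 514283535)) (l 514258703)) (l 514208783)))) (c (c (a (l 514144015) (l 16745456)) (l 514084367)) (l 514033935))) (c (b (c (c (l 514405903) (l 514389519)) (l 514364687)) (l 16739496)) (l 514360335)))) (c (b (b (l 514675215) (a (b (c (l 514680335) (l 514648079)) (l 16754640)) (l 16738120)))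 (a (b (l 16738816) (l 16752576)) (l 16706424))) (b (a (l 514762511) (l 514870287)) (a (l 514471439) (l 16706336)))))), by decide +kernel⟩

def k28_A07pm_011_s1 : ∃ t, chk3 f_A07pm_011_s1 t 18 123 4 = true :=
  ⟨(a (a (b (a (l 3) (b (l 3) (c (l 515931407) (l 515866639)))) (a (b (c (l 515075215) (l 515739151)) (c (a (l 512357199) (l 515110543)) (l 515735823))) (c (b (l 515927823) (l 515149455)) (b (l 515862799) (l 16754144))))) (b (a (b (a (c (c (l 510655567) (l 510606671)) (c (l 510557519) (l 510508367))) (b (c (l 513792527) (l 513723663)) (c (l 510641487) (l 510542671)))) (c (a (l 509016527) (l 510669647)) (a (l 504876751) (l 508558159)))) (c (c (b (l 508061839) (l 510786383)) (b (l 508004239) (l 510737231))) (a (b (l 507936655) (l 508661327)) (b (l 508032399) (l 16754216))))) (b (a (a (c (l 16744888) (l 16744856)) (l 16737472)) (a (b (l 16739824) (l 16746320)) (l 16741528))) (a (c (c (a (b (l 16761072) (l 16717048)) (l 16731976)) (l 508932815)) (a (l 16759200) (l 16751792))) (c (b (l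 16717400) (l 16693432)) (l 16694456)))))) (a (b (a (b (b (a (l 16764936) (l 16760936)) (l 16737032)) (l 16706368)) (b (b (l 16754960) (l 16750040)) (l 16740416))) (b (l 16710440) (a (c (b (l 16725760) (l 16720184)) (l 16722384)) (l 16672960)))) (b (a (b (l 16702640) (l 16732560)) (l 16688792)) (b (l 16715872) (l 16661424))))), by decide +kernel⟩

def k29_A07pm_011_s1 : ∃ t, chk3 f_A07pm_011_s1 t 19 61 4 = true :=
  ⟨(b (a (a (b (b (l 514906127) (a (l 16751296) (l 16743568))) (a (l 16740512) (l 16732744))) (b (a (l 16697504) (l 16731808)) (l 16721160))) (a (a (l 16696064) (l 16668144)) (l 16623656))) (a (b (a (l 16698064) (l 16703600)) (a (b (l 16700504) (l 16688144)) (l 16679272))) (a (b (l 16688656) (l 16664640)) (l 16628936)))), by decide +kernel⟩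

def k30_A07pm_011_s1 : ∃ t, chk3 f_A07pm_011_s1 t 9 30 5 = true :=
  ⟨(b (a (a (l 3) (b (l 3) (a (l 3) (b (l 3) (l 514843919))))) (b (a (a (l 3) (b (l 516129039) (a (l 515922191) (l 516018703)))) (a (b (l 519207247) (a (l 516114959) (l 519623631))) (b (l 519347023) (l 519107407)))) (b (a (a (l 515371535) (a (l 515652623) (l 515752463))) (a (a (l 515851535) (l 519376847)) (l 518861391))) (a (a (l 515091983) (l 515326479)) (a (l 516993743) (l 16728760)))))) (a (b (a (a (l 3) (b (l 3) (a (a (l 3) (l 514000143)) (l 514035727)))) (a (b (a (b (l 3) (l 514259471)) (l 513753359)) (a (l 514149647) (l 514262031))) (b (a (l 514667791) (l 514776079)) (a (l 514373135) (l 514483727))))) (a (a (b (a (l 3) (b (l 3) (l 515769615))) (a (c (b (l 515674127) (a (l 515736335) (l 515790351))) (l 515860751)) (b (l 515765775) (a (c (l 16745440) (l 16745400)) (l 16741784))))) (b (a (a (l 510522959) (l 510592847)) (b (l 507744655) (l 510515791))) (a (b (a (l 515628815) (l 16737328)) (a (l 16759112) (l 16751648)))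 (b (l 510502223) (l 16715160))))) (a (b (a (b (l 507945871) (l 16706136)) (b (l 512578063) (l 16740136))) (b (l 16710056) (l 16676080))) (b (a (b (l 16702440) (l 16732232)) (l 16688480)) (l 16708912))))) (a (b (a (b (a (l 514883343) (l 514989839)) (a (l 16698352) (l 16732480))) (b (l 515048719) (l 16720824))) (a (b (l 16676704) (l 16693528)) (b (l 16703120) (l 16678320)))) (b (a (b (l 16699432) (l 16705768)) (l 16623328)) (a (l 16591992) (l 16670072)))))), by decide +kernel⟩

def k31_A07pm_011_s1 : ∃ t, chk3 f_A07pm_011_s1 t 9 60 3 = true :=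
  ⟨(a (a (l 3) (b (l 3) (a (l 3) (b (l 3) (a (l 514777871) (l 514883855)))))) (b (c (a (a (l 3) (b (l 516022031) (a (l 515811599) (l 515908623)))) (a (b (l 519136591) (l 513406671)) (b (l 519276879) (l 519032655)))) (a (a (l 3) (b (l 515915023) (a (l 515701263) (l 515798543)))) (a (b (l 519065679) (l 515358671)) (b (l 519206735) (l 518957903))))) (a (a (b (l 515195663) (l 514908943)) (c (b (a (l 515537423) (l 515637519)) (l 515205647)) (b (a (l 515422479) (l 515522831)) (l 515084815)))) (a (b (c (l 515167695) (l 515101647)) (c (l 516922831) (l 516852175))) (c (a (l 513373391) (l 516901455)) (b (l 518702671) (l 16728384))))))), by decide +kernel⟩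

def k32_A07pm_011_s1 : ∃ t, chk3 f_A07pm_011_s1 t 9 61 3 = true :=
  ⟨(a (b (a (a (l 3) (b (l 3) (a (a (l 3) (l 513802511)) (l 513837583)))) (c (a (b (a (l 514321423) (l 514432271)) (a (l 514018063) (l 514130703))) (b (a (l 514541839) (l 514650383)) (a (l 514242319) (l 514353167)))) (a (b (a (l 514194703) (l 514305807)) (a (l 513886479) (l 513999631))) (b (a (l 514415631) (l 514524687)) (a (l 514111503) (l 514222607)))))) (a (b (a (a (l 3) (b (l 3) (l 515575055))) (a (b (a (l 510090575) (l 510165583)) (c (l 510120271) (l 509922639))) (b (l 507398543) (l 510220623)))) (b (a (a (l 515446287) (l 515571215)) (a (c (l 508468175) (l 508241103)) (l 510207055))) (a (a (l 515442959) (l 515567631)) (a (a (l 515578895) (l 508453839)) (l 510193231))))) (b (a (a (b (l 507601039) (l 507560335)) (a (l 507919759) (l 508011663))) (c (a (l 508236431) (l 16646224)) (a (l 508010895) (l 16645912)))) (a (a (a (l 508586575) (l 504562703)) (a (l 505586959) (l 506435599))) (c (l 16708360) (l 16707808)))))) (a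 (b (a (b (c (a (l 514757903) (l 514864911)) (l 513481231)) (c (a (l 16656192) (l 16732216)) (l 514259983))) (c (b (l 514923279) (l 16720488)) (b (l 514797583) (l 16720152)))) (c (a (b (l 16676320) (l 16692880)) (l 16648200)) (a (b (l 16633992) (l 16692232)) (l 16605640)))) (b (c (a (b (l 16699104) (l 16705344)) (l 16622992)) (a (b (l 16677808) (l 16704920)) (l 16622664))) (a (c (l 16591288) (l 16590592)) (c (l 16669408) (l 16668744)))))), by decide +kernel⟩

def k33_A07pm_011_s1 : ∃ t, chk3 f_A07pm_011_s1 t 36 124 2 = true :=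
  ⟨(c (a (b (a (b (c (l 514299215) (l 16754712)) (c (c (c (c (a (l 16722240) (b (a (l 16761392) (l 16716648)) (l 16717704))) (b (l 514204239) (a (l 16721584) (l 16736176)))) (a (c (b (l 514264143) (b (l 16740000) (l 16717888))) (l 16752536)) (l 16761072))) (l 515074959)) (l 515075215))) (c (b (l 515152015) (c (b (l 16760320) (l 16735416)) (l 16756512))) (b (l 16757952) (l 16730680)))) (a (c (c (b (a (c (l 16671776) (b (c (l 16717976) (l 16736544)) (l 16717424))) (c (l 16717928) (b (l 16713344) (l 16753816)))) (a (l 16665408) (l 16711256))) (b (b (l 16761264) (l 16736360)) (b (l 16754624) (l 16742520)))) (b (l 515075471) (l 16711472))) (c (c (b (b (l 16753664) (l 16741592)) (c (l 16709856) (l 16748480))) (l 16755080)) (b (l 16726624) (l 16662176))))) (a (b (c (b (a (b (l 16735576) (l 16713448)) (l 16728000)) (a (l 16713384) (l 16664000))) (b (l 16706896) (l 16721576))) (c (b (l 16666416) (l 16664184)) (b (a (l 16658280) (l 16650880)) (l 16652960)))) (b (c (b (l 16712304) (l 16648240))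 (l 16684416)) (c (l 16645608) (b (l 16719024) (l 16717328)))))) (b (a (a (b (a (c (l 16746016) (l 16745984)) (l 16752840)) (l 16737416)) (b (l 16757864) (l 16751136))) (a (a (l 16749080) (l 16741632)) (l 16725776))) (a (b (l 16706032) (c (l 16657536) (l 16741120))) (b (l 16641568) (a (l 16644624) (l 16708992)))))), by decide +kernel⟩

def k34_A07pm_011_s1 : ∃ t, chk3 f_A07pm_011_s1 t 36 125 2 = true :=
  ⟨(c (a (c (b (c (a (b (l 16655904) (l 16643576)) (b (l 16704616) (l 16652760))) (a (b (c (l 16710568) (l 16749448)) (l 16704840)) (l 16745168))) (c (a (l 16622704) (l 16630416)) (a (b (l 16652512) (l 16637168)) (b (l 16739864) (l 16728600))))) (c (b (l 16749592) (b (l 16743152) (l 16694560))) (b (l 16744176) (l 16738672)))) (c (b (c (a (b (l 16743760) (l 16696472)) (l 16725752)) (l 16647608)) (a (c (l 16636296) (l 16730600)) (l 16626432))) (b (l 16640008) (l 16633392)))) (a (b (c (b (l 16694968) (l 16650920)) (l 16730840)) (c (l 16731264) (l 16679896))) (b (c (b (l 16672480) (l 16628280))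 (l 16624480)) (c (l 16624520) (l 16615368))))), by decide +kernel⟩

def k35_A07pm_011_s1 : ∃ t, chk3 f_A07pm_011_s1 t 37 62 2 = true :=
  ⟨(b (c (a (b (b (c (a (b (l 16694960) (l 16671048)) (l 16705248)) (l 16664600)) (c (a (l 16627720) (l 16697672)) (a (l 16702680) (l 16688856)))) (b (a (l 16673424) (c (l 16691648) (l 16680176))) (a (l 16618112) (l 16597648)))) (b (c (b (l 16693744) (l 16685936)) (l 16683736)) (c (l 16673408) (l 16621576)))) (a (b (a (l 16664880) (l 16694440)) (a (l 16691352) (l 16672600))) (b (l 16682872) (l 16656656)))) (c (a (b (l 16602704) (l 16594928)) (b (b (l 16655736) (l 16648624)) (l 16638248))) (c (b (a (l 16589128) (l 16596776)) (l 16563080)) (b (a (l 16667216) (l 16632960)) (a (l 16657992) (l 16617960)))))), by decide +kernel⟩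

def k36_A07pm_011_s1 : ∃ t, chk3 f_A07pm_011_s1 t 19 62 2 = true :=
  ⟨(b (c (c (a (b (a (l 16591792) (l 16660616)) (l 16650432)) (a (l 16595464) (l 16631752))) (a (b (l 16577384) (a (l 16648512) (l 16633768))) (b (l 16636872) (l 16616864)))) (a (b (l 16660312) (l 16550600)) (a (l 16625784) (l 16620640)))) (a (c (b (a (l 16633776) (l 16618904)) (l 16605184)) (b (c (l 16613608) (l 16608080)) (c (l 16594232) (l 16585720)))) (c (a (l 16509784) (l 16588336)) (a (b (l 16591232) (l 16569616)) (l 16491848))))), by decide +kernel⟩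

def k37_A07pm_011_s1 : ∃ t, chk3 f_A07pm_011_s1 t 9 63 2 = true :=
  ⟨(a (a (c (b (a (b (a (c (l 16605264) (c (l 16635840) (l 16730008))) (c (b (l 16617392) (l 16603816)) (l 16721896))) (c (l 16575928) (c (a (l 16603416) (l 16610816)) (l 16663176)))) (c (b (a (c (l 16606056) (l 16625712)) (l 16605304)) (a (l 16581224) (l 16571248))) (b (l 16705576) (l 16602328)))) (a (c (l 16522504) (b (a (l 16575728) (l 16578056)) (l 16541920))) (b (c (l 16541704) (l 16574304)) (c (l 16590416) (a (l 16545344) (l 16623544)))))) (b (b (a (l 16634712) (l 16611816)) (a (l 16707528) (l 16600144))) (a (c (b (l 16602424) (c (l 16565656) (l 16663408))) (l 16675864)) (l 16570408)))) (b (c (a (c (b (l 16581080) (l 16556288)) (l 16655392)) (l 16531328)) (b (l 16549408) (l 16537680))) (c (c (a (b (a (l 16527296) (l 16605352)) (l 16572256)) (l 16482592)) (l 16507576)) (l 16591816)))) (b (a (c (a (l 16495312) (l 16557016)) (b (l 16486296) (l 16549824))) (c (l 16540760) (b (l 16545216) (l 16520752)))) (a (a (c (l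 16533608) (l 16530808)) (l 16497536)) (a (l 16476952) (l 16473296))))), by decide +kernel⟩

def k38_A07pm_011_s1 : ∃ t, chk3 f_A07pm_011_s1 t 9 31 3 = true :=
  ⟨(b (a (a (b (a (b (a (a (l 515803919) (l 515847439)) (c (l 515140623) (l 515552783))) (c (a (l 16664144) (l 16740760)) (a (l 16663960) (l 16740536)))) (b (a (a (l 515882255) (a (l 512896527) (l 512081935))) (b (l 508562127) (l 508544207))) (c (l 16679728) (l 16679328)))) (a (c (b (l 16730608) (l 16716496)) (b (l 16730328) (l 16716312))) (c (b (l 16624104) (l 16610080)) (l 16616680)))) (b (a (c (b (a (l 16622304) (l 16693696)) (l 16597592)) (b (a (l 16621672) (l 16692952)) (l 16596752))) (c (l 16585000) (l 16584048))) (c (a (l 16575424) (b (l 16631960) (l 16612376))) (a (l 16658648) (l 16538104))))) (a (b (c (a (l 16653824) (l 16639008)) (a (l 16652776) (l 16637864))) (c (l 16540976) (l 16592056))) (c (b (l 16538200) (l 16570424)) (b (l 16620872) (l 16568928))))) (a (b (c (a (b (a (c (l 16622856) (l 16702376)) (c (l 16600280)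 (l 16679864))) (a (c (l 16698776) (l 16691464)) (c (l 16676008) (l 16668880)))) (b (c (l 16538016) (l 16617496)) (c (l 16613488) (l 16606424)))) (a (a (l 16694480) (l 16587976)) (l 16525160))) (c (a (b (a (l 16598984) (l 16576288)) (l 16568320)) (b (l 16513768) (l 16578912))) (a (b (a (l 16632280) (l 16567760)) (c (l 16566112) (a (l 16573784) (l 16551288)))) (b (l 16505024) (c (l 16576224) (l 16488568)))))) (b (a (c (b (a (l 16566032) (l 16548944)) (a (l 16549512) (l 16525000))) (l 16458816)) (c (b (l 16533560) (l 16509784)) (l 16515400))) (c (a (b (l 16435976) (l 16498168)) (l 16468488)) (a (b (l 16426976) (c (l 16494912) (l 16490936))) (b (l 16475832) (l 16447952))))))), by decide +kernel⟩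

def k39_A07pm_011_s1 : ∃ t, chk3 f_A07pm_011_s1 t 5 30 1 = true :=
  ⟨(a (a (b (c (a (b (c (a (l 518959247) (l 519056783)) (a (l 518907279) (l 519005071))) (a (c (b (l 16651400) (l 16641248)) (b (l 16651312) (l 16641136))) (c (l 16634200) (l 16634048)))) (b (c (a (l 16636584) (l 16707424)) (a (l 16636344) (l 16707112))) (c (l 16613904) (l 16613632)))) (b (a (c (a (l 518855567) (l 518953615)) (a (l 518803855) (l 518901903))) (c (a (l 16636104) (l 16706800)) (a (l 16635864) (l 16706480)))) (a (a (c (b (l 16651232) (l 16641016)) (b (l 16651144) (l 16640904))) (c (l 16633896) (l 16633744))) (c (l 16613360) (l 16613088))))) (c (b (a (a (c (l 16621480) (l 16621248)) (c (l 16615272) (l 16615080))) (a (l 16687088) (l 16673296))) (a (c (a (l 16585088) (l 16583000)) (l 16583328)) (c (l 16570592) (l 16653880)))) (b (a (a (c (l 16621016) (l 16620784)) (c (l 16614880) (l 16614688))) (a (l 16602696) (l 16672624))) (a (c (l 16582808) (l 16582288)) (a (l 16575664) (l 16647568)))))) (c (b (c (a (b (l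 16688040) (l 16671256)) (l 16570296)) (a (b (l 16687616) (l 16670824)) (l 16569728))) (b (a (l 16652872) (l 16626216)) (a (l 16544056) (l 16601280)))) (c (b (a (b (l 16687200) (l 16670400)) (l 16569152)) (b (l 16554624) (l 16529568))) (b (a (b (l 16602888) (l 16669968)) (l 16568584)) (b (l 16554072) (l 16528840)))))) (c (a (b (a (b (l 16637440) (l 16619472)) (b (l 16612968) (l 16594512))) (b (l 16503400) (l 16478520))) (b (a (b (l 16591592) (l 16572704)) (l 16619824)) (a (b (l 16552576) (l 16527856)) (l 16506464)))) (a (b (a (b (l 16636032) (l 16617992)) (l 16518312)) (a (l 16502280) (l 16476536))) (b (a (l 16496496) (l 16619600)) (a (l 16454128) (l 16589176)))))), by decide +kernel⟩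

def k40_A07pm_011_s1 : ∃ t, chk3 f_A07pm_011_s1 t 5 31 1 = true :=
  ⟨(a (b (c (a (b (a (c (a (l 16543584) (l 16541944)) (l 16618856)) (c (l 16536520) (l 16613448))) (c (a (l 16586208) (l 16583192)) (a (b (l 16585112) (l 16563808)) (l 16572688)))) (b (c (l 16502648) (l 16580312)) (c (l 16474024) (l 16464872)))) (c (a (a (b (l 16617928) (l 16567584)) (l 16505224)) (l 16477312)) (a (a (l 16507808) (l 16504048)) (l 16476040)))) (c (a (b (a (c (l 16537144) (l 16529336)) (c (l 16535344) (l 16528304))) (a (l 16473840) (l 16474440))) (b (c (l 16520192) (l 16514048)) (l 16469016))) (a (b (c (a (l 16435392) (l 16519216)) (l 16514104)) (c (l 16384240) (b (l 16475824) (l 16364984)))) (b (c (l 16422280) (l 16501936)) (c (l 16463984) (a (l 16463688) (l 16455152))))))) (c (b (a (c (b (l 16535272) (l 16507640)) (b (l 16529800) (l 16499840))) (a (c (l 16403752) (l 16482120)) (b (l 16549272) (l 16436776)))) (a (c (l 16453776) (b (l 16469008) (l 16430912))) (a (b (l 16438992) (l 16401952)) (l 16387696))))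 (b (a (c (l 16511800) (l 16510200)) (a (l 16477304) (l 16529904))) (a (c (b (l 16462176) (l 16427184)) (b (l 16458184) (l 16338168))) (b (a (l 16345176) (l 16398872)) (c (l 16340176) (a (l 16392088) (l 16447320)))))))), by decide +kernel⟩

def k41_A07pm_011_s1 : ∃ t, chk3 f_A07pm_011_s1 t 3 14 1 = true :=
  ⟨(a (a (b (c (c (a (b (a (l 520535119) (l 16655440)) (a (l 522381135) (l 16469488))) (b (l 16657024) (l 16551176))) (a (b (a (l 522410063) (l 16653848)) (a (l 522239567) (l 16466584))) (b (l 16655448) (l 16548224)))) (a (b (b (l 519410831) (a (l 520164943) (l 516953103))) (a (b (l 520079183) (l 522002511)) (b (l 16569256) (l 521891151)))) (b (c (l 16569992) (l 16568424)) (c (l 16545272) (l 16542312))))) (a (c (b (c (a (l 16564472) (l 16486232)) (l 515864911)) (a (l 16545440) (l 16457080))) (b (a (c (l 16560080) (l 16557888)) (l 517700687)) (a (l 16541520) (l 16450008)))) (c (b (a (l 16445800) (l 16443424)) (a (l 16378928) (l 16341096))) (b (a (l 16353352) (l 16434752)) (a (l 16369048)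 (l 16329816)))))) (c (c (b (a (l 16522536) (l 16609056)) (a (l 16395784) (l 16400736))) (b (b (l 16574848) (l 16552776)) (a (l 16390800) (l 16395816)))) (b (a (b (c (l 16656080) (l 16654536)) (l 16546864)) (c (l 16520776) (l 16518576))) (a (b (l 16437936) (l 16329552)) (b (l 16442256) (l 16335408)))))) (a (b (c (a (l 16526792) (l 16613472)) (a (b (l 16659904) (l 16553208)) (l 16525328))) (c (a (l 16403376) (l 16408600)) (a (l 16309784) (l 16399024)))) (a (b (l 1) (c (l 16415824) (l 16406432))) (l 1)))), by decide +kernel⟩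

def k42_A07pm_011_s1 : ∃ t, chk3 f_A07pm_011_s1 t 3 15 1 = true :=
  ⟨(a (b (a (c (b (a (a (l 16524576) (l 16433536)) (a (l 16346728) (l 16270192))) (a (b (l 16462320) (l 16375960)) (c (l 16204136) (l 16280136)))) (a (b (a (l 16521064) (l 16426824)) (c (l 16373424) (l 16371136))) (b (a (l 16336888) (l 16257528)) (c (l 16274680) (l 16269232))))) (c (b (a (c (l 16238160) (l 16231128)) (l 16240552)) (a (b (l 16165088) (a (l 16157344) (l 16109928))) (c (l 16143496) (l 16133856)))) (a (b (l 16220592) (a (l 16151328) (l 16115912))) (c (l 16176864) (l 16169216))))) (c (a (b (c (a (l 16296064) (l 16113936)) (a (l 16300152) (l 16281384))) (c (b (l 16211720) (l 16228360)) (b (l 16128688) (l 16226112)))) (a (b (c (b (l 16123232) (l 16115592)) (l 15948544)) (c (l 16122408) (l 16116224))) (b (c (b (l 16073704) (l 16033120)) (l 16047152)) (c (l 15915520) (b (l 15995224) (l 15976344)))))) (a (b (a (l 16300864) (l 16192728)) (b (c (a (l 16482224) (l 16286408)) (l 16214000)) (c (l 16141144) (c (l 16141008)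 (l 16141272))))) (b (a (c (l 16109688) (l 16101736)) (l 16034240)) (a (c (b (l 16108008) (l 16112784)) (l 16020984)) (c (b (l 15986808) (l 15966568)) (b (l 15977464) (l 15957104)))))))) (b (b (a (c (a (l 16249560) (l 16258776)) (l 16240576)) (c (l 16274496) (l 16261440))) (c (a (a (l 16150880) (l 16166024)) (a (l 16179080) (l 16196392))) (a (c (l 16148160) (l 16140152)) (l 16171600)))) (a (c (b (c (a (l 16068776) (l 16082920)) (a (l 16060328) (l 16074000))) (a (c (l 15986960) (l 15976760)) (l 16001048))) (b (c (l 16058944) (l 16049792)) (a (c (l 15882720) (l 15956456)) (l 15980888)))) (c (l 16068264) (l 16049848))))), by decide +kernel⟩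

theorem t43_A07pm_011_s1 : ∃ t, chk3 f_A07pm_011_s1 t 3 7 1 = true := ex3_b k41_A07pm_011_s1 k42_A07pm_011_s1

theorem t44_A07pm_011_s1 : ∃ t, chk3 f_A07pm_011_s1 t 5 15 1 = true := ex3_b k39_A07pm_011_s1 k40_A07pm_011_s1

theorem t45_A07pm_011_s1 : ∃ t, chk3 f_A07pm_011_s1 t 36 62 2 = true := ex3_b k33_A07pm_011_s1 k34_A07pm_011_s1

theorem t46_A07pm_011_s1 : ∃ t, chk3 f_A07pm_011_s1 t 18 62 2 = true := ex3_a t45_A07pm_011_s1 k35_A07pm_011_s1

theorem t47_A07pm_011_s1 : ∃ t, chk3 f_A07pm_011_s1 t 9 62 2 = true := ex3_a t46_A07pm_011_s1 k36_A07pm_011_s1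

theorem t48_A07pm_011_s1 : ∃ t, chk3 f_A07pm_011_s1 t 9 31 2 = true := ex3_b t47_A07pm_011_s1 k37_A07pm_011_s1

theorem t49_A07pm_011_s1 : ∃ t, chk3 f_A07pm_011_s1 t 9 31 1 = true := ex3_c t48_A07pm_011_s1 k38_A07pm_011_s1

theorem t50_A07pm_011_s1 : ∃ t, chk3 f_A07pm_011_s1 t 9 30 3 = true := ex3_b k31_A07pm_011_s1 k32_A07pm_011_s1

theorem t51_A07pm_011_s1 : ∃ t, chk3 f_A07pm_011_s1 t 18 61 4 = true := ex3_b k27_A07pm_011_s1 k28_A07pm_011_s1

theorem t52_A07pm_011_s1 : ∃ t, chk3 f_A07pm_011_s1 t 9 61 4 = true := ex3_a t51_A07pm_011_s1 k29_A07pm_011_s1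

theorem t53_A07pm_011_s1 : ∃ t, chk3 f_A07pm_011_s1 t 9 30 4 = true := ex3_b k26_A07pm_011_s1 t52_A07pm_011_s1

theorem t54_A07pm_011_s1 : ∃ t, chk3 f_A07pm_011_s1 t 9 30 2 = true := ex3_c t53_A07pm_011_s1 k30_A07pm_011_s1

theorem t55_A07pm_011_s1 : ∃ t, chk3 f_A07pm_011_s1 t 9 30 1 = true := ex3_c t54_A07pm_011_s1 t50_A07pm_011_s1

theorem t56_A07pm_011_s1 : ∃ t, chk3 f_A07pm_011_s1 t 9 15 1 = true := ex3_b t55_A07pm_011_s1 t49_A07pm_011_s1

theorem t57_A07pm_011_s1 : ∃ t, chk3 f_A07pm_011_s1 t 17 63 2 = true := ex3_a k23_A07pm_011_s1 k24_A07pm_011_s1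

theorem t58_A07pm_011_s1 : ∃ t, chk3 f_A07pm_011_s1 t 17 63 1 = true := ex3_c t57_A07pm_011_s1 k25_A07pm_011_s1

theorem t59_A07pm_011_s1 : ∃ t, chk3 f_A07pm_011_s1 t 70 250 4 = true := ex3_c k17_A07pm_011_s1 k18_A07pm_011_s1

theorem t60_A07pm_011_s1 : ∃ t, chk3 f_A07pm_011_s1 t 70 125 4 = true := ex3_b t59_A07pm_011_s1 k19_A07pm_011_s1

theorem t61_A07pm_011_s1 : ∃ t, chk3 f_A07pm_011_s1 t 35 125 4 = true := ex3_a t60_A07pm_011_s1 k20_A07pm_011_s1

theorem t62_A07pm_011_s1 : ∃ t, chk3 f_A07pm_011_s1 t 35 125 2 = true := ex3_c t61_A07pm_011_s1 k21_A07pm_011_s1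

theorem t63_A07pm_011_s1 : ∃ t, chk3 f_A07pm_011_s1 t 35 249 4 = true := ex3_a k14_A07pm_011_s1 k15_A07pm_011_s1

theorem t64_A07pm_011_s1 : ∃ t, chk3 f_A07pm_011_s1 t 35 124 4 = true := ex3_b k13_A07pm_011_s1 t63_A07pm_011_s1

theorem t65_A07pm_011_s1 : ∃ t, chk3 f_A07pm_011_s1 t 35 124 2 = true := ex3_c t64_A07pm_011_s1 k16_A07pm_011_s1

theorem t66_A07pm_011_s1 : ∃ t, chk3 f_A07pm_011_s1 t 35 62 2 = true := ex3_b t65_A07pm_011_s1 t62_A07pm_011_s1

theorem t67_A07pm_011_s1 : ∃ t, chk3 f_A07pm_011_s1 t 34 125 5 = true := ex3_b k11_A07pm_011_s1 k12_A07pm_011_s1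

theorem t68_A07pm_011_s1 : ∃ t, chk3 f_A07pm_011_s1 t 69 125 4 = true := ex3_b k9_A07pm_011_s1 k10_A07pm_011_s1

theorem t69_A07pm_011_s1 : ∃ t, chk3 f_A07pm_011_s1 t 34 125 4 = true := ex3_a k8_A07pm_011_s1 t68_A07pm_011_s1

theorem t70_A07pm_011_s1 : ∃ t, chk3 f_A07pm_011_s1 t 34 125 2 = true := ex3_c t69_A07pm_011_s1 t67_A07pm_011_s1

theorem t71_A07pm_011_s1 : ∃ t, chk3 f_A07pm_011_s1 t 34 62 2 = true := ex3_b k7_A07pm_011_s1 t70_A07pm_011_s1

theorem t72_A07pm_011_s1 : ∃ t, chk3 f_A07pm_011_s1 t 17 62 2 = true := ex3_a t71_A07pm_011_s1 t66_A07pm_011_s1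

theorem t73_A07pm_011_s1 : ∃ t, chk3 f_A07pm_011_s1 t 17 62 1 = true := ex3_c t72_A07pm_011_s1 k22_A07pm_011_s1

theorem t74_A07pm_011_s1 : ∃ t, chk3 f_A07pm_011_s1 t 17 31 1 = true := ex3_b t73_A07pm_011_s1 t58_A07pm_011_s1

theorem t75_A07pm_011_s1 : ∃ t, chk3 f_A07pm_011_s1 t 8 31 1 = true := ex3_a k6_A07pm_011_s1 t74_A07pm_011_s1

theorem t76_A07pm_011_s1 : ∃ t, chk3 f_A07pm_011_s1 t 8 15 1 = true := ex3_b k5_A07pm_011_s1 t75_A07pm_011_s1

theorem t77_A07pm_011_s1 : ∃ t, chk3 f_A07pm_011_s1 t 4 15 1 = true := ex3_a t76_A07pm_011_s1 t56_A07pm_011_s1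

theorem t78_A07pm_011_s1 : ∃ t, chk3 f_A07pm_011_s1 t 2 15 1 = true := ex3_a t77_A07pm_011_s1 t44_A07pm_011_s1

theorem t79_A07pm_011_s1 : ∃ t, chk3 f_A07pm_011_s1 t 5 14 1 = true := ex3_c k3_A07pm_011_s1 k4_A07pm_011_s1

theorem t80_A07pm_011_s1 : ∃ t, chk3 f_A07pm_011_s1 t 2 14 1 = true := ex3_a k2_A07pm_011_s1 t79_A07pm_011_s1

theorem t81_A07pm_011_s1 : ∃ t, chk3 f_A07pm_011_s1 t 2 7 1 = true := ex3_b t80_A07pm_011_s1 t78_A07pm_011_s1

theorem t82_A07pm_011_s1 : ∃ t, chk3 f_A07pm_011_s1 t 1 7 1 = true := ex3_a t81_A07pm_011_s1 t43_A07pm_011_s1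

theorem t83_A07pm_011_s1 : ∃ t, chk3 f_A07pm_011_s1 t 1 3 1 = true := ex3_b k1_A07pm_011_s1 t82_A07pm_011_s1

theorem t84_A07pm_011_s1 : ∃ t, chk3 f_A07pm_011_s1 t 1 1 1 = true := ex3_b k0_A07pm_011_s1 t83_A07pm_011_s1

theorem c_A07pm_011_s1 : CertFX 0 536870912 536870912 536870912 1046898278 26843546 true true false .pnn 0 1 1
    ndF0q0 ndF7q1 pcF1 cut_A07pm_011_s1 xt_A07pm_011_s1 :=
  certFX1 (fam := true) (s1 := true) (s2 := false) (a := 0) (b := 1) (c := 1) (cn := .pnn) (n1 := ndF0q0) (n2 := ndF7q1) (pc := pcF1) (cut := cut_A07pm_011_s1) (xt := xt_A07pm_011_s1) (P1 := 0) (W1 := 536870912) (P2 := 536870912) (W2 := 536870912) (P3 := 1046898278) (W3 := 26843546)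
    rfl (fun _ => rfl) t84_A07pm_011_s1

theorem s_A07pm_011_s1 {κ x : ℝ} (hκ : κ * h0 = kenE x) (hx : 39 / 40 ≤ x) (hx' : x < 1)
    (H : CutVA (VFD κ) (DD x) tKF tL pcF (Cut.of [[⟨0, 0, 0, 67108864⟩, ⟨1, 1, 0, 67108864⟩, ⟨2, 1, 0, 67108864⟩]]) 0 1 1 0 7 (sgb true) (sgb false) x) :
    AltVA (VFD κ) (DD x) tKF tL pcF [⟨3, 0, 0, 1449551462⟩] 0 1 1 0 7 (sgb true) (sgb false) x :=
  strip_altVA (d := 1449551462) true rfl hκ (κ0 hκ hx) (x0 hx) hx' (covF00 hx hx') (covF71 hx hx') (x1 hx) (x2 hx') c_A07pm_011_s1 H ((ok hx hx').extA (T := tt) (sideF hx hx') hκ (κ0 hκ hx) rfl rfl (.O 0 true) (.N 1 false) (Or.inr rfl))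

noncomputable def cut_A07pm_012_s1 : Cut := Cut.of [[⟨4, 0, 0, 1449551462⟩], [⟨0, 0, 0, 67108864⟩, ⟨1, 1, 0, 67108864⟩, ⟨2, 1, 0, 67108864⟩]]

noncomputable def f_A07pm_012_s1 : ℕ → ℕ → ℕ → ℕ → Bool := onCell 1073741824 536870912 536870912 536870912 1046898278 26843546
    (rowFX 2 true true false .pnp 0 1 2 (qsf 0 536870912 536870912 536870912 2) ndF0q0 ndF7q1 pcF2 cut_A07pm_012_s1 Ext.none)

def k0_A07pm_012_s1 : ∃ t, chk3 f_A07pm_012_s1 t 4 2 1 = true :=
  ⟨(b (a (a (b (c (l 16072744) (l 16054440)) (c (b (l 16119928) (l 16150248)) (l 16034288))) (b (l 6) (c (l 15781240) (l 15755376)))) (l 6)) (a (b (a (b (c (l 15970720) (l 16124776)) (c (a (l 16529672) (l 16303120)) (a (l 16526192) (l 16293808)))) (c (b (l 15833704) (l 15738328)) (b (l 15809896) (l 15972568)))) (a (b (a (c (b (l 16573752) (b (l 16503352) (a (l 16349592) (c (l 16479112) (l 16476576))))) (a (b (l 16549896) (c (l 16369024) (l 16365704))) (c (l 16462648) (l 16461384)))) (c (l 16424592) (l 16506584))) (c (a (a (c (l 16332704)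 (l 16327616)) (c (a (l 16361688) (l 16382112)) (l 16200528))) (c (b (l 16309192) (l 16307264)) (a (l 16327248) (l 16369992)))) (a (c (a (l 16238888) (l 16365000)) (a (c (l 16319352) (l 16317160)) (l 16361600))) (c (b (l 16306200) (l 16303088)) (l 16261016))))) (b (c (c (l 15919152) (l 15997720)) (l 15905864)) (c (a (c (c (l 16230440) (l 16313720)) (a (l 16327816) (l 16254576))) (b (l 16199760) (c (a (l 16274816) (l 16159776)) (l 16131360)))) (a (a (l 16327352) (l 16169096)) (b (l 16191432) (c (l 16212816) (l 16294280)))))))) (a (b (c (b (l 15499824) (l 15620944)) (b (l 15467344) (l 15593968))) (b (c (l 15595904) (l 15742616)) (a (a (b (l 16030976) (c (l 16045640) (l 16120080))) (c (l 15976016) (l 15962416))) (c (l 15821600) (l 15804024))))) (b (l 6) (c (b (l 15390896) (l 15526936)) (b (l 15360192) (l 15501768))))))), by decide +kernel⟩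

def k1_A07pm_012_s1 : ∃ t, chk3 f_A07pm_012_s1 t 8 12 1 = true :=
  ⟨(a (c (a (b (a (c (b (l 16207856) (l 16143616)) (b (l 16201144) (l 16136096))) (c (a (l 16191336) (l 16207800)) (a (l 16185864) (l 16203768)))) (a (c (l 16157672) (l 16150448)) (c (a (l 16132752) (l 16121080)) (c (l 16123912) (l 16122624))))) (b (c (a (l 16237240) (l 16277696)) (l 16171432)) (c (b (a (l 16118184) (l 16137760)) (a (l 16110792) (l 16093888))) (b (l 16025336) (l 16102184))))) (a (b (c (a (b (l 16195032) (l 16045544)) (l 16192088)) (a (b (l 16189760) (a (l 16118800) (l 16123072))) (l 16188192))) (c (a (a (l 16152024) (l 16136544)) (l 16121520)) (a (c (l 16141144) (l 16139376)) (l 16118944)))) (b (c (a (l 16232168) (l 16273760)) (l 16248480)) (c (b (a (l 16114128) (l 16133848)) (l 16100696)) (b (l 16122296) (l 16095400)))))) (c (a (c (b (l 16171688) (b (l 16195072) (l 16109080))) (b (a (l 16317840) (l 16275312)) (a (b (l 16173904) (l 16094552)) (l 16080232)))) (c (b (a (l 16317144) (l 16169208)) (a (l 16204072)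 (l 16159568))) (b (l 16253520) (l 16136592)))) (a (b (c (l 16252112) (l 16249072)) (b (l 16102696) (a (l 16086336) (l 16103904)))) (c (a (l 16048520) (l 16006512)) (b (l 16336400) (l 16128000)))))), by decide +kernel⟩

def k2_A07pm_012_s1 : ∃ t, chk3 f_A07pm_012_s1 t 8 13 1 = true :=
  ⟨(a (c (a (b (c (a (l 16197192) (a (l 16159784) (l 16140280))) (a (b (l 16186944) (l 16195056)) (c (l 16148072) (l 16148304)))) (a (c (b (l 16206600) (l 16212984)) (b (l 16200240) (l 16206744))) (c (a (l 16157504) (l 16130200)) (c (l 16143264) (l 16145008))))) (b (c (a (l 16117376) (l 16091504)) (a (l 16119064) (l 16094696))) (c (a (l 16097816) (l 16060664)) (a (l 16103064) (l 16068096))))) (a (c (b (a (a (l 16197152) (l 16174104)) (l 16149936)) (a (a (l 16214880) (l 16183040)) (l 16149432))) (b (a (c (l 16184216) (l 16183720)) (l 16150400)) (a (a (c (l 16211664) (l 16211936)) (l 16185680)) (l 16152888)))) (b (c (a (l 16122032) (l 16094624)) (l 16103160)) (c (a (l 16110104) (l 16070832)) (l 16086024)))))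 (c (a (b (c (b (l 16070104) (l 16049880)) (a (l 16071432) (l 16049472))) (c (l 16013256) (a (l 16034080) (l 15999656)))) (b (c (a (b (l 16061720) (l 16017520)) (b (l 16079512) (l 15998320))) (b (l 16069304) (l 16002312))) (c (a (l 15969232) (l 15940032)) (l 15948456)))) (a (b (c (l 16055144) (l 16047616)) (c (l 16011480) (l 16003272))) (b (b (c (l 16062480) (l 16055664)) (c (l 15994424) (l 15986528))) (c (l 15939696) (l 15930936)))))), by decide +kernel⟩

def k3_A07pm_012_s1 : ∃ t, chk3 f_A07pm_012_s1 t 32 14 2 = true :=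
  ⟨(b (c (b (a (l 16222080) (l 16140240)) (a (c (b (a (l 16284816) (l 16229552)) (c (l 16299408) (l 16299224))) (c (l 16192864) (l 16273872))) (c (a (c (l 16194488) (l 16195064)) (l 16066752)) (a (a (l 16205088) (l 16180432)) (l 16152824))))) (a (b (a (l 16238440) (l 16192760)) (a (l 16299192) (l 16242240))) (b (l 16142088) (a (l 16194984) (l 16158176))))) (c (a (b (c (b (l 16251368) (l 16274192)) (b (a (l 16291712) (l 16313488)) (c (l 16386664) (l 16388944)))) (b (c (l 16295960) (b (l 16330664) (l 16340240))) (c (a (l 16429736) (l 16366632)) (a (l 16465304) (l 16401904))))) (b (c (a (b (l 16243440) (l 16261536)) (b (l 16192144) (l 16207608))) (a (a (b (l 16267480) (l 16305008)) (c (l 16255360) (l 16261192))) (l 16224464))) (c (a (b (l 16278528) (l 16300080)) (l 16231464)) (a (b (c (l 16309480) (l 16330400)) (a (l 16352536) (l 16321688))) (l 16273384))))) (a (c (b (b (l 16340856) (c (l 16306424) (l 16387760))) (b (a (c (l 16469984) (l 16472016)) (l 16318656)) (c (a (l 16492344) (l 16428664))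 (a (l 16421656) (l 16441888))))) (b (l 16278848) (b (l 16351336) (c (a (l 16424568) (a (l 16461672) (l 16429264))) (l 16390432))))) (c (a (c (b (b (l 16253616) (l 16297200)) (b (l 16338768) (l 16283024))) (b (l 16276176) (b (l 16342608) (l 16383480)))) (b (l 16232288) (b (l 16293064) (l 16233528)))) (b (l 16258952) (b (l 16323464) (a (l 16392336) (l 16259984)))))))), by decide +kernel⟩

def k4_A07pm_012_s1 : ∃ t, chk3 f_A07pm_012_s1 t 33 14 2 = true :=
  ⟨(b (b (c (a (l 16082168) (l 16035328)) (l 16068168)) (c (c (a (l 16100424) (l 16043832)) (l 16077400)) (l 16003272))) (c (a (b (c (b (l 16130376) (l 16142200)) (a (l 16181840) (l 16142456))) (c (l 16160720) (a (l 16225888) (l 16181520)))) (b (c (b (l 16061688) (l 16064352)) (l 16092800)) (c (l 16076240) (l 16122792)))) (a (c (b (a (l 16190568) (l 16153384)) (b (l 16228624) (c (l 16247192) (l 16267448)))) (b (l 16180248) (l 16259560))) (b (l 16107992) (c (l 16071928) (l 16179896)))))), by decide +kernel⟩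

def k5_A07pm_012_s1 : ∃ t, chk3 f_A07pm_012_s1 t 16 14 3 = true :=
  ⟨(a (b (a (c (b (a (l 16232368) (l 16191704)) (a (l 16293912) (l 16242592))) (b (c (l 16214008) (l 16131840)) (a (c (l 16292064) (l 16294208)) (l 16249728)))) (c (b (l 16149904) (l 16188200)) (b (l 16155848) (l 16196416)))) (a (c (b (a (l 16391616) (l 16250440)) (a (b (l 16467248) (l 16421400)) (c (l 16340032) (l 16345040)))) (a (b (c (l 16390976) (l 16310456)) (c (b (l 16467528) (l 16506064)) (b (l 16387952) (a (l 16520976) (l 16499536))))) (b (l 16260400) (c (l 16438200) (l 16445928))))) (c (b (l 16270248) (a (l 16380416) (l 16337208))) (b (l 16197504) (a (l 16313776) (l 16350688)))))) (b (c (b (l 15991104) (a (l 16126328) (l 16068192))) (b (l 16072320) (l 16094640))) (c (a (b (l 16192856) (l 16273480)) (b (l 16117800) (l 16186416))) (a (l 16152336) (l 16147568))))), by decide +kernel⟩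

def k6_A07pm_012_s1 : ∃ t, chk3 f_A07pm_012_s1 t 16 15 2 = true :=
  ⟨(b (a (c (a (b (c (b (a (c (b (l 16428776) (l 16448056)) (l 16444584)) (l 16376736)) (a (l 14) (a (l 14) (l 16303560)))) (b (l 16350360) (a (l 14) (b (l 16404392) (l 14))))) (l 14)) (b (c (a (b (l 16313704) (c (l 16334016) (l 16329272))) (b (l 16259920) (l 16273728))) (a (a (l 16358544) (l 16268520)) (l 16298184))) (a (l 14) (a (l 14) (b (b (l 16286392) (l 14)) (l 14)))))) (a (b (c (b (a (c (l 16492488) (l 16512472)) (l 16439792)) (a (l 14) (l 16437008))) (b (c (a (l 16443552) (a (l 16480440) (l 16449968))) (a (l 16448104) (a (l 16484872) (l 16456328)))) (a (l 14) (c (l 16381872) (a (l 14) (l 16426360)))))) (l 14)) (a (b (c (b (a (l 16312760) (l 16374632)) (l 16296544)) (b (c (l 16416136) (l 16425080)) (c (l 16414440) (l 16435680)))) (l 14)) (b (c (b (l 16341384) (l 16338560)) (b (c (l 16373616) (l 16383760)) (c (l 16374264) (l 16396920)))) (b (c (l 16336560) (l 16379280)) (l 14)))))) (c (b (a (b (c (l 16188264) (l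 16226856)) (a (l 16246368) (l 16121120))) (c (l 16111208) (l 16148728))) (a (c (b (a (l 16255976) (l 16204544)) (a (l 14) (l 16235848))) (b (l 16246424) (a (l 14) (l 16239752)))) (b (l 16078168) (c (a (l 16191280) (l 16147088)) (l 16185744))))) (b (c (a (b (l 16190928) (l 16280928)) (l 16195776)) (a (b (l 16231928) (c (l 16320144) (l 16344760))) (b (l 16231280) (l 16250000)))) (a (c (a (l 16300976) (l 16265632)) (b (l 16326848) (l 16321496))) (b (l 16152248) (l 16234952)))))) (a (l 14) (a (l 14) (a (l 14) (b (b (c (l 16194152) (l 16224136)) (l 14)) (l 14)))))), by decide +kernel⟩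

def k7_A07pm_012_s1 : ∃ t, chk3 f_A07pm_012_s1 t 16 15 3 = true :=
  ⟨(b (a (c (b (a (c (b (a (c (l 16531448) (l 16530240)) (l 16472776)) (a (l 14) (a (l 14) (c (l 16478976) (l 16483568))))) (a (l 16458080) (l 16489544))) (c (b (l 16411032) (a (c (l 16448040) (l 16453448)) (c (l 16411728) (l 16418760)))) (l 16350304))) (b (a (l 14) (a (l 14) (c (c (l 16414840) (l 16435568)) (c (l 16445424) (l 16452688))))) (l 14))) (b (a (a (b (c (l 16531320) (a (l 16546600) (l 16524728))) (l 14)) (c (l 16500384) (l 16509512))) (a (c (l 16465872) (l 16469984)) (l 16343008))) (a (l 14) (a (l 14) (l 16384640))))) (c (a (b (c (b (l 16331624) (c (l 16360376) (l 16367224))) (l 16272128)) (c (b (c (l 16364424) (l 16385456)) (l 16285216)) (c (a (b (l 16411360) (l 14)) (b (l 16375120) (l 16386504))) (b (l 16395992) (a (l 14) (l 16391672)))))) (b (c (c (b (l 16241752) (l 16279528)) (l 16262952)) (l 16262296)) (c (b (c (l 16209656) (a (l 16333168) (l 16289224))) (c (l 16285936) (l 16307816))) (b (l 16309968) (l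 16240056))))) (b (a (l 16273064) (l 16258296)) (a (l 16402960) (l 16313192))))) (b (b (b (a (l 14) (a (l 14) (c (c (l 16288216) (l 16322728)) (l 16329880)))) (l 14)) (l 14)) (l 14))), by decide +kernel⟩

def k8_A07pm_012_s1 : ∃ t, chk3 f_A07pm_012_s1 t 17 14 1 = true :=
  ⟨(c (c (a (b (b (l 15974712) (c (l 15972992) (l 15979896))) (b (c (a (l 16000048) (l 15947368)) (l 15921448)) (c (l 15967344) (a (l 16048048) (l 15978832))))) (b (c (b (l 15898016) (a (l 15907352) (l 15864832))) (l 15891400)) (c (b (a (l 15897840) (c (l 15843000) (l 15854176))) (a (l 15869856) (l 15810904))) (a (b (l 15840432) (c (l 15905088) (l 15923024))) (b (l 15867472) (l 15847008)))))) (a (b (b (l 15979808) (l 15984016)) (b (l 15929880) (c (a (l 16079840) (c (l 16004144) (l 16018288))) (a (a (l 16120448) (l 16079128)) (l 16017624))))) (b (l 15886472) (c (b (l 15896152) (a (l 15930944) (l 15860144))) (l 15898304))))) (a (b (b (l 15971408) (c (l 15980736) (l 15972024))) (c (b (l 16011608) (l 16054688)) (b (l 16003280)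 (l 16046896)))) (b (c (l 15876760) (l 15867040)) (c (l 15807208) (a (l 15914664) (l 15848408)))))), by decide +kernel⟩

def k9_A07pm_012_s1 : ∃ t, chk3 f_A07pm_012_s1 t 17 15 2 = true :=
  ⟨(b (c (a (b (a (l 16048400) (l 15967504)) (a (b (l 16081040) (l 16106224)) (l 16009640))) (c (b (a (l 15869896) (l 15794040)) (a (l 15909760) (l 15821688))) (a (b (l 15901768) (l 15929864)) (l 15705456)))) (a (b (a (c (l 16111744) (b (l 16060464) (l 16075832))) (c (l 15900656) (l 16054528))) (a (c (l 16136488) (b (l 16172216) (l 16176280))) (c (l 16048360) (l 16077208)))) (b (c (a (l 15936672) (l 15849240)) (a (l 15958880) (l 15785288))) (c (l 15896576) (a (l 15972576) (l 15871304)))))) (a (a (b (c (b (c (l 16129520) (l 16133736)) (l 16172376)) (c (l 16167256) (b (l 16179240) (l 16191600)))) (l 14)) (c (b (b (l 16055264) (l 16093896)) (b (l 16123352) (l 14))) (b (c (l 16088464) (l 16097400)) (a (l 14) (l 16114360))))) (c (b (a (b (l 15967240) (l 16004040)) (c (l 15888136) (l 15888472))) (a (c (l 16048856)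 (l 15966760)) (c (b (l 15941584) (l 15969520)) (l 15943088)))) (b (a (l 15996832) (l 15890560)) (a (l 16039816) (l 15942192)))))), by decide +kernel⟩

def k10_A07pm_012_s1 : ∃ t, chk3 f_A07pm_012_s1 t 17 15 3 = true :=
  ⟨(b (a (a (c (b (l 16164192) (c (b (l 16202128) (l 16209720)) (l 16135872))) (b (l 16155496) (l 16216272))) (c (b (l 15974248) (c (l 16017952) (l 16028840))) (l 15999656))) (c (b (a (c (l 15968208) (l 15964904)) (l 15878688)) (c (a (l 15911712) (c (l 15888816) (l 15898056))) (c (b (l 15949600) (l 15965872)) (l 15957712)))) (b (l 15913600) (l 15952272)))) (a (c (b (c (a (l 16204776) (l 16110480)) (b (a (l 16228488) (l 16134888)) (l 16088968))) (b (a (l 14) (l 16124360)) (l 14))) (b (c (b (a (l 16242536) (l 16147784)) (a (l 16241208) (l 16143384))) (l 16109032)) (a (l 14) (a (l 14) (b (c (l 16112816) (l 16121272)) (l 14)))))) (c (b (c (a (l 16009624) (l 15902912)) (b (c (l 15970008) (l 15896704)) (a (l 16030288) (l 15923600)))) (b (a (l 16027120) (l 15928528)) (l 15909600)))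 (b (c (b (l 15985936) (a (c (l 16046448) (l 16050280)) (c (l 15938032) (l 15946128)))) (l 15986928)) (a (c (b (c (l 16033832) (l 16041632)) (l 16040840)) (b (l 16045848) (c (l 16042824) (l 16046792)))) (c (b (c (l 15935192) (b (l 15940968) (l 15940504))) (l 15942960)) (b (l 15859624) (c (l 15940760) (l 15944624))))))))), by decide +kernel⟩

def k11_A07pm_012_s1 : ∃ t, chk3 f_A07pm_012_s1 t 9 6 1 = true :=
  ⟨(b (a (c (b (a (c (a (l 16135088) (l 16017440)) (l 15906392)) (c (b (l 15872152) (l 15987704)) (a (l 15981296) (l 15867344)))) (c (a (l 16223800) (l 16040640)) (a (l 16221904) (l 16123560)))) (b (a (c (l 15987800) (l 15985328)) (c (b (l 15943040) (l 16062680)) (l 15831304))) (a (a (l 16111248) (l 16158912)) (c (l 16122600) (l 16205520))))) (c (b (b (l 15640128) (a (a (l 15723664) (l 15780376)) (a (l 15675288) (l 15572424)))) (a (a (c (l 15949544) (l 16030200)) (l 15826720)) (c (b (l 15737040) (l 15893128)) (l 15553384)))) (b (b (l 15619240) (a (a (l 15877720) (l 15763704)) (l 15605968)))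 (a (a (l 15941464) (l 15900744)) (c (l 15713936) (l 15706728)))))) (a (c (b (a (b (l 16053632) (a (l 15996672) (l 16022896))) (c (l 15993736) (l 15989864))) (a (c (l 15913448) (l 15904608)) (c (b (l 15955608) (l 15865312)) (l 15741224)))) (c (b (a (l 15860336) (l 15986000)) (a (l 15895768) (l 15733120))) (b (a (b (l 16124888) (l 15995968)) (l 15982136)) (a (l 15886928) (l 15808904))))) (c (a (b (c (l 16002008) (l 16084704)) (c (b (l 16032312) (l 15887832)) (l 15789440))) (b (c (l 15896608) (l 15978608)) (l 15761392))) (a (b (c (l 16083512) (l 16082320)) (c (l 15782856) (l 15776272))) (b (l 15808016) (l 15879048)))))), by decide +kernel⟩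

def k12_A07pm_012_s1 : ∃ t, chk3 f_A07pm_012_s1 t 9 14 1 = true :=
  ⟨(c (a (c (b (b (l 15823848) (l 15797808)) (a (c (b (l 15792488) (l 15751984)) (b (l 15811352) (l 15780392))) (c (b (l 15740144) (l 15693376)) (b (l 15763800) (l 15633768))))) (b (a (l 15819688) (l 15783120)) (c (b (l 15784840) (a (c (l 15793888) (l 15807176)) (l 15735104))) (l 15776752)))) (b (a (c (b (l 15787744) (l 15749392)) (l 15759184)) (b (l 15820848) (l 15742704))) (c (c (a (a (b (l 15709480) (l 15652376)) (b (l 15703632) (l 15637864))) (b (l 15699416) (l 15626328))) (b (l 15722952) (a (a (l 15676784) (l 15665160)) (l 15660128)))) (a (l 15703072) (l 15692680))))) (a (b (a (c (l 15809496) (l 15799312)) (c (l 15772968) (l 15762816))) (a (c (l 15796912) (l 15786440)) (c (l 15741976) (l 15731232)))) (b (a (c (l 15749296) (l 15739400)) (b (l 15804480) (l 15721920))) (a (c (l 15701248) (l 15690456)) (l 15686160))))), by decide +kernel⟩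

def k13_A07pm_012_s1 : ∃ t, chk3 f_A07pm_012_s1 t 9 15 2 = true :=
  ⟨(a (b (c (a (b (l 15729888) (l 15726640)) (b (c (l 15646048) (l 15669936)) (l 15633760))) (b (c (a (b (l 15776520) (l 15755240)) (l 15609416)) (a (c (l 15784240) (l 15794552)) (c (l 15711400) (l 15725456)))) (a (c (l 15741576) (b (l 15768288) (l 15756696))) (c (l 15650304) (b (l 15679520) (l 15658144)))))) (a (b (c (l 15772936) (a (l 15803160) (l 15740088))) (c (a (l 15877552) (l 15808832)) (a (l 15861600) (l 15798408)))) (b (c (l 15655160) (l 15568568)) (c (l 15709552) (l 15698096))))) (b (b (c (a (c (l 15593168) (a (l 15623128) (l 15606312))) (c (l 15579184) (l 15591120))) (c (a (a (l 15643384) (l 15626320)) (l 15614064)) (l 15653304))) (c (a (a (l 15577928) (l 15558872)) (l 15548936)) (c (a (a (l 15596400) (l 15578000)) (l 15560800)) (a (a (l 15613032) (l 15591432)) (l 15572688))))) (c (a (b (l 15568064) (l 15597952)) (l 15542264)) (b (a (a (l 15576552) (l 15556800)) (c (l 15530064) (l 15537792))) (a (l 15417592)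 (l 15534824)))))), by decide +kernel⟩

def k14_A07pm_012_s1 : ∃ t, chk3 f_A07pm_012_s1 t 9 15 3 = true :=
  ⟨(a (b (c (b (a (l 15795920) (l 15724056)) (b (c (a (c (l 15787416) (l 15799136)) (l 15700384)) (l 15752536)) (a (c (l 15614128) (l 15802728)) (c (l 15593112) (l 15700776))))) (a (b (l 15784376) (l 15793432)) (l 15705432))) (c (b (c (a (b (l 15778872) (l 15782744)) (b (l 15662440) (l 15658256))) (a (c (b (l 15795512) (l 15792928)) (b (l 15806184) (l 15803416))) (c (l 15589504) (b (l 15691984) (l 15674120))))) (a (c (l 15820760) (a (l 15852776) (l 15789600))) (c (l 15689688) (b (l 15676888) (l 15698664))))) (b (c (b (l 15752736) (a (c (a (l 15846056) (l 15779944)) (l 15821456)) (l 15689552))) (l 15667216)) (b (c (a (c (l 15814576) (a (l 15851592) (l 15780152))) (c (l 15585680) (l 15677832))) (l 15676400)) (a (c (c (l 15828624) (a (l 15864920) (l 15800096))) (a (c (l 15862384) (l 15867384)) (c (l 15797552) (l 15806280)))) (c (l 15525536) (c (l 15689680) (l 15700808)))))))) (b (c (a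 (c (b (l 15670968) (c (a (l 15627848) (l 15610536)) (l 15633160))) (l 15652088)) (l 15628608)) (a (l 15644400) (l 15623464))) (c (a (b (c (a (b (l 15590360) (l 15577488)) (l 15561976)) (b (l 15603544) (c (l 15483216) (a (l 15590648) (l 15567272))))) (c (l 15576112) (b (a (l 15583176) (l 15545840)) (l 15580616)))) (b (c (c (l 15536424) (l 15539552)) (b (l 15574112) (c (l 15530432) (l 15546352)))) (c (l 15530808) (c (l 15525928) (b (l 15515240) (l 15522952)))))) (b (a (l 15600952) (l 15568760)) (a (c (a (b (c (l 15569712) (l 15595304)) (l 15587096)) (b (l 15532064) (l 15538832))) (a (b (l 15600056) (l 15600048)) (l 15566496))) (c (b (l 15531232) (l 15495144)) (l 15535400))))))), by decide +kernel⟩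

def k15_A07pm_012_s1 : ∃ t, chk3 f_A07pm_012_s1 t 5 2 1 = true :=
  ⟨(a (l 6) (l 6)), by decide +kernel⟩

def k16_A07pm_012_s1 : ∃ t, chk3 f_A07pm_012_s1 t 10 6 1 = true :=
  ⟨(a (b (b (l 6) (a (c (a (b (l 15565752) (l 15705616)) (b (l 6) (l 15497400))) (c (b (l 15500728) (l 15628376)) (l 15473496))) (l 6))) (b (a (c (b (l 15646088) (l 15831776)) (b (l 15800856) (l 15908608))) (a (b (l 6) (c (l 15877600) (l 15953856))) (l 6))) (a (c (a (l 15965800) (l 15933464)) (l 15905576)) (c (a (l 15903232) (l 15801936)) (a (l 15985608) (l 15880344)))))) (a (b (l 6) (b (l 6) (c (l 15625224) (l 15696544)))) (l 6))), by decide +kernel⟩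

def k17_A07pm_012_s1 : ∃ t, chk3 f_A07pm_012_s1 t 20 7 1 = true :=
  ⟨(b (a (c (b (c (b (l 15916072) (l 15785864)) (l 15763728)) (c (c (b (l 15698656) (l 15618432)) (l 15684016)) (l 15690344))) (b (b (l 15901544) (l 15764984)) (l 15558936))) (c (b (a (c (l 15782040) (l 15844472)) (c (l 15691184) (l 15752072))) (a (c (l 15450896) (l 15638024)) (c (b (l 15553832) (l 15453024)) (l 15441808)))) (b (a (l 15750736) (l 15656032)) (a (l 15547936) (b (l 15547992) (l 15475560)))))) (c (a (b (c (c (b (l 15565080) (l 15523680)) (b (l 15574864) (l 15536552))) (b (l 15619320) (c (l 15538568) (l 15556272)))) (c (l 15516680) (b (c (l 15514472) (l 15512032)) (l 15505640)))) (a (b (b (c (c (l 15503920) (l 15520912)) (l 15562776)) (c (l 15314320) (c (l 15483624) (l 15512224)))) (c (l 15472376) (b (c (l 15467368) (l 15459688)) (l 15468080)))) (b (c (c (b (l 15296856) (l 15362472)) (b (l 15403456) (l 15362368))) (c (b (l 15431168) (c (l 15365744) (l 15377168))) (l 15425800))) (c (l 15370344) (b (c (l 15357272)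 (a (l 15394816) (l 15305032))) (a (l 15414360) (l 15325952))))))) (b (a (c (l 15616184) (l 15611424)) (c (a (l 15561336) (l 15439536)) (a (l 15556136) (l 15432632)))) (a (c (b (c (c (l 15509280) (l 15517320)) (l 15537944)) (c (l 15503056) (c (b (l 15487672) (l 15495376)) (b (l 15493568) (l 15485832))))) (b (l 15547592) (c (b (l 15504952) (l 15454512)) (l 15506376)))) (c (a (b (c (c (l 15463520) (l 15476096)) (l 15490440)) (c (l 15456704) (b (l 15450464) (l 15336528)))) (b (l 15375392) (a (c (l 15399488) (c (l 15391056) (l 15394736))) (l 15114096)))) (b (l 15361080) (a (l 15462008) (l 15360848)))))))), by decide +kernel⟩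

def k18_A07pm_012_s1 : ∃ t, chk3 f_A07pm_012_s1 t 21 7 1 = true :=
  ⟨(b (c (b (c (b (l 15528520) (l 15390752)) (l 15195216)) (c (a (l 14965112) (l 15047024)) (a (l 15314952) (l 15057104)))) (b (a (l 15467528) (l 6)) (a (l 15133344) (l 15036928)))) (c (b (c (b (a (c (l 15115696) (l 15136752)) (l 14816344)) (a (c (l 15091576) (l 15088464)) (c (l 14734216) (l 14733296)))) (b (a (l 15169280) (l 14850624)) (c (a (l 15098776) (l 14742744)) (l 14939552)))) (a (c (l 14854192) (c (l 15006528) (b (l 15071976) (l 15086208)))) (c (b (l 14732008) (l 14744136)) (b (c (l 14712056) (l 14711376)) (c (l 14729432) (l 14713064)))))) (b (c (a (l 15163760) (l 14657320)) (a (l 15152720) (l 14808864))) (c (b (l 14657984) (a (c (l 14886920) (l 15050784)) (l 14676224))) (b (l 14916512) (l 14550200)))))), by decide +kernel⟩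

def k19_A07pm_012_s1 : ∃ t, chk3 f_A07pm_012_s1 t 11 3 1 = true :=
  ⟨(b (l 6) (a (a (b (l 6) (c (b (c (b (l 6) (c (l 14424400) (l 14424216))) (l 14183288)) (c (b (l 14377480) (l 14391368)) (b (c (l 14358640) (l 14353240)) (l 14346184)))) (b (c (l 14528360) (l 14507440)) (c (l 14352600) (b (l 14361264) (l 14325216)))))) (b (l 6) (l 6))) (l 6))), by decide +kernel⟩

def k20_A07pm_012_s1 : ∃ t, chk3 f_A07pm_012_s1 t 3 1 1 = true :=
  ⟨(b (l 6) (l 6)), by decide +kernel⟩

theorem t21_A07pm_012_s1 : ∃ t, chk3 f_A07pm_012_s1 t 10 7 1 = true := ex3_a k17_A07pm_012_s1 k18_A07pm_012_s1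

theorem t22_A07pm_012_s1 : ∃ t, chk3 f_A07pm_012_s1 t 10 3 1 = true := ex3_b k16_A07pm_012_s1 t21_A07pm_012_s1

theorem t23_A07pm_012_s1 : ∃ t, chk3 f_A07pm_012_s1 t 5 3 1 = true := ex3_a t22_A07pm_012_s1 k19_A07pm_012_s1

theorem t24_A07pm_012_s1 : ∃ t, chk3 f_A07pm_012_s1 t 5 1 1 = true := ex3_b k15_A07pm_012_s1 t23_A07pm_012_s1

theorem t25_A07pm_012_s1 : ∃ t, chk3 f_A07pm_012_s1 t 9 15 1 = true := ex3_c k13_A07pm_012_s1 k14_A07pm_012_s1

theorem t26_A07pm_012_s1 : ∃ t, chk3 f_A07pm_012_s1 t 9 7 1 = true := ex3_b k12_A07pm_012_s1 t25_A07pm_012_s1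

theorem t27_A07pm_012_s1 : ∃ t, chk3 f_A07pm_012_s1 t 9 3 1 = true := ex3_b k11_A07pm_012_s1 t26_A07pm_012_s1

theorem t28_A07pm_012_s1 : ∃ t, chk3 f_A07pm_012_s1 t 17 15 1 = true := ex3_c k9_A07pm_012_s1 k10_A07pm_012_s1

theorem t29_A07pm_012_s1 : ∃ t, chk3 f_A07pm_012_s1 t 17 7 1 = true := ex3_b k8_A07pm_012_s1 t28_A07pm_012_s1

theorem t30_A07pm_012_s1 : ∃ t, chk3 f_A07pm_012_s1 t 16 15 1 = true := ex3_c k6_A07pm_012_s1 k7_A07pm_012_s1

theorem t31_A07pm_012_s1 : ∃ t, chk3 f_A07pm_012_s1 t 16 14 2 = true := ex3_a k3_A07pm_012_s1 k4_A07pm_012_s1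

theorem t32_A07pm_012_s1 : ∃ t, chk3 f_A07pm_012_s1 t 16 14 1 = true := ex3_c t31_A07pm_012_s1 k5_A07pm_012_s1

theorem t33_A07pm_012_s1 : ∃ t, chk3 f_A07pm_012_s1 t 16 7 1 = true := ex3_b t32_A07pm_012_s1 t30_A07pm_012_s1

theorem t34_A07pm_012_s1 : ∃ t, chk3 f_A07pm_012_s1 t 8 7 1 = true := ex3_a t33_A07pm_012_s1 t29_A07pm_012_s1

theorem t35_A07pm_012_s1 : ∃ t, chk3 f_A07pm_012_s1 t 8 6 1 = true := ex3_b k1_A07pm_012_s1 k2_A07pm_012_s1

theorem t36_A07pm_012_s1 : ∃ t, chk3 f_A07pm_012_s1 t 8 3 1 = true := ex3_b t35_A07pm_012_s1 t34_A07pm_012_s1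

theorem t37_A07pm_012_s1 : ∃ t, chk3 f_A07pm_012_s1 t 4 3 1 = true := ex3_a t36_A07pm_012_s1 t27_A07pm_012_s1

theorem t38_A07pm_012_s1 : ∃ t, chk3 f_A07pm_012_s1 t 4 1 1 = true := ex3_b k0_A07pm_012_s1 t37_A07pm_012_s1

theorem t39_A07pm_012_s1 : ∃ t, chk3 f_A07pm_012_s1 t 2 1 1 = true := ex3_a t38_A07pm_012_s1 t24_A07pm_012_s1

theorem t40_A07pm_012_s1 : ∃ t, chk3 f_A07pm_012_s1 t 1 1 1 = true := ex3_a t39_A07pm_012_s1 k20_A07pm_012_s1

theorem c_A07pm_012_s1 : CertFX 0 536870912 536870912 536870912 1046898278 26843546 true true false .pnp 0 1 2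
    ndF0q0 ndF7q1 pcF2 cut_A07pm_012_s1 Ext.none :=
  certFX2 (fam := true) (s1 := true) (s2 := false) (a := 0) (b := 1) (c := 2) (cn := .pnp) (n1 := ndF0q0) (n2 := ndF7q1) (pc := pcF2) (cut := cut_A07pm_012_s1) (xt := Ext.none) (P1 := 0) (W1 := 536870912) (P2 := 536870912) (W2 := 536870912) (P3 := 1046898278) (W3 := 26843546)
    rfl (fun _ => rfl) t40_A07pm_012_s1

theorem s_A07pm_012_s1 {κ x : ℝ} (hκ : κ * h0 = kenE x) (hx : 39 / 40 ≤ x) (hx' : x < 1)
    (H : CutVA (VFD κ) (DD x) tKF tL pcF (Cut.of [[⟨0, 0, 0, 67108864⟩, ⟨1, 1, 0, 67108864⟩, ⟨2, 1, 0, 67108864⟩]]) 0 1 2 0 7 (sgb true) (sgb false) x) :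
    AltVA (VFD κ) (DD x) tKF tL pcF [⟨3, 0, 0, 1449551462⟩] 0 1 2 0 7 (sgb true) (sgb false) x :=
  strip_altVA (d := 1449551462) true rfl hκ (κ0 hκ hx) (x0 hx) hx' (covF00 hx hx') (covF71 hx hx') (x1 hx) (x2 hx') c_A07pm_012_s1 H (noExt_VA)

end Pool.Agent.Strip051.G.IE1.Tab.St.C
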