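import Pool.Agent.Strip051.G.IE1.StF

/-! # Strips St3 (generated) -/

set_option linter.all false
set_option maxRecDepth 100000

namespace Pool.Agent.Strip051.G.IE1.Tab.St.C

open Pool.Agent.Strip051.PB Pool.Agent.Strip051.PB.T
open Pool.Agent.StripNear Pool.Agent.Strip051.LC
open Pool.Agent.Strip051.G.IE1.Tab Pool.Agent.Strip051.G.IE1.Tab.St

noncomputable def cut_A07pm_022_s1 : Cut := Cut.of [[⟨4, 0, 0, 1449551462⟩], [⟨0, 0, 0, 67108864⟩, ⟨1, 1, 0, 67108864⟩, ⟨2, 1, 0, 67108864⟩]]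

noncomputable def f_A07pm_022_s1 : ℕ → ℕ → ℕ → ℕ → Bool := onCell 1073741824 536870912 1073741824 536870912 1046898278 26843546
    (rowFX 2 true true false .pp 0 2 2 (qsf 0 536870912 1073741824 536870912 2) ndF0q0 ndF7q2 pcF2 cut_A07pm_022_s1 Ext.none)

def k0_A07pm_022_s1 : ∃ t, chk3 f_A07pm_022_s1 t 8 1 1 = true :=
  ⟨(b (b (a (b (b (l 14) (b (l 14) (l 1))) (l 1)) (b (c (b (a (l 14) (a (l 14) (a (l 14) (a (l 14) (b (c (l 15951168) (l 16007024)) (c (l 16224152) (l 16026592))))))) (a (b (l 14) (b (l 14) (l 1))) (a (b (l 14) (b (l 14) (b (l 14) (l 1)))) (c (b (a (l 14) (l 16249152)) (a (l 16457880) (l 16420448))) (b (b (l 16235704) (l 16351600)) (b (l 16452032) (l 375842581367))))))) (b (a (l 14) (a (l 14) (a (l 14) (a (l 14) (b (c (l 16002856) (b (c (l 15950440) (c (l 15953784) (l 15958496))) (l 15900544))) (c (b (l 16149080) (l 16177464)) (l 16228912))))))) (a (b (l 14) (b (l 14) (l 1))) (a (b (l 14) (b (l 14) (a (l 1)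 (l 691522674839)))) (a (b (l 14) (c (l 16519896) (b (l 14) (l 395169939575)))) (b (c (c (b (l 16309200) (l 16437416)) (b (l 16406072) (l 16433264))) (l 16368984)) (c (l 16462968) (b (c (l 16528232) (l 16520544)) (c (l 16507520) (l 147135615655)))))))))) (a (l 1) (a (l 1) (b (b (b (c (c (l 636224881671) (l 670047715287)) (l 685616999479)) (l 1)) (l 1)) (l 1)))))) (l 1)) (l 1)), by decide +kernel⟩

def k1_A07pm_022_s1 : ∃ t, chk3 f_A07pm_022_s1 t 18 8 1 = true :=
  ⟨(b (c (b (b (a (a (c (l 15949064) (l 15926744)) (l 15880776)) (l 15786000)) (a (a (l 15941928) (l 15810320)) (a (l 15914968) (l 15851152)))) (a (a (c (b (l 16126568) (l 16220312)) (b (l 16099696) (l 16198416))) (c (l 16021520) (l 16089112))) (c (a (l 16044672) (l 15987464)) (l 16006928)))) (a (b (c (a (l 15796944) (l 15828664)) (c (b (a (l 15912784) (l 15860600)) (b (l 15964656) (l 16019288))) (c (b (a (l 15833432) (l 15779504)) (l 15924656)) (b (a (l 15919976)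 (l 15866296)) (l 16005824))))) (c (b (l 15997832) (a (l 16134240) (l 16163392))) (a (l 16019256) (l 16132240)))) (b (c (a (l 15685528) (l 15702936)) (b (c (l 15691136) (a (l 15804784) (l 15729968))) (b (c (l 15850208) (l 15864344)) (l 15919224)))) (c (a (l 15892840) (l 15925672)) (l 15970320))))) (c (a (b (c (a (l 16194656) (l 16128464)) (b (a (l 16144704) (l 16243664)) (a (a (l 16371736) (l 16419784)) (l 16197680)))) (c (a (l 16376320) (l 16326816)) (a (b (l 16380160) (l 16456816)) (b (l 16316048) (l 16508752))))) (b (c (b (l 15979504) (l 16062504)) (c (l 15950000) (l 16052856))) (c (a (l 16274280) (l 16213960)) (a (b (l 16249808) (l 16364680)) (b (l 16270280) (l 16301800)))))) (a (c (b (b (a (c (l 16245632) (l 16345896)) (l 16273288)) (a (c (a (l 16390584) (l 16351000)) (l 16452336)) (l 16300688))) (a (b (a (l 16415416) (l 16377416)) (l 16530792)) (b (l 16409984) (a (l 16527120) (l 16491432))))) (a (b (l 16394344) (b (l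 16381688) (a (c (l 16530072) (l 16540040)) (l 16458280)))) (b (l 16335696) (a (l 16372576) (l 16427528))))) (b (c (a (l 16185832) (l 16219888)) (l 16254016)) (c (a (l 16223480) (l 16334056)) (l 16354936)))))), by decide +kernel⟩

def k2_A07pm_022_s1 : ∃ t, chk3 f_A07pm_022_s1 t 18 9 1 = true :=
  ⟨(a (b (a (b (c (c (b (l 16514392) (l 16344200)) (l 444561881511)) (c (l 16420680) (b (a (l 557304910759) (c (l 16544984) (l 16467216))) (l 16468048)))) (l 1)) (c (b (c (l 16400624) (l 16438272)) (c (l 639982619463) (l 16390224))) (b (c (l 16399616) (b (c (l 16401664) (l 16495056)) (a (l 16399880) (l 16411408)))) (l 556767697287)))) (l 1)) (b (c (b (c (a (l 16405864) (l 16411776)) (a (l 16366872) (l 16384560))) (c (a (l 367252260871) (l 16262224)) (l 16321920))) (b (a (c (b (l 16417584) (l 16418680)) (b (l 16515384) (a (l 16424816) (l 16439816)))) (c (a (l 16313824) (l 16414240)) (l 16420368))) (c (a (l 16399616) (l 16329136)) (a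 (b (c (l 16432736) (l 16353192)) (l 16364512)) (b (l 16291896) (l 16295968)))))) (b (a (l 1) (c (l 16286744) (l 555156870087))) (l 1)))), by decide +kernel⟩

def k3_A07pm_022_s1 : ∃ t, chk3 f_A07pm_022_s1 t 19 8 1 = true :=
  ⟨(b (c (a (b (a (c (l 15734656) (l 15723936)) (c (l 15688576) (l 15677264))) (a (c (l 15931144) (l 15926616)) (l 15882760))) (b (c (l 15640136) (l 15628104)) (b (l 15776312) (l 15870816)))) (b (a (c (a (l 15465112) (l 15669440)) (a (c (b (l 15667528) (l 15780264)) (b (l 15657304) (l 15790280))) (c (b (l 15617992) (l 15735640)) (b (l 15607576) (l 15738208))))) (c (b (c (l 15577272) (l 15571176)) (l 15666144)) (c (b (l 15563512) (c (l 15670416) (l 15594872))) (b (l 15555504) (l 15677056))))) (a (c (a (l 15784688) (l 15906064)) (a (l 15971584) (l 15924768))) (b (c (l 15787496) (c (l 15652072) (l 15812808))) (l 15751464))))) (c (a (b (c (a (l 16027384) (l 16069272)) (a (l 16131632) (l 16097352))) (c (a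 (b (l 16264784) (l 16295832)) (l 16103080)) (a (b (l 16214448) (l 16241408)) (l 16137240)))) (b (c (a (l 16036896) (l 15996096)) (l 15961736)) (c (a (l 16232424) (l 16202072)) (l 16090528)))) (a (b (a (c (l 16171952) (l 16179968)) (l 16056152)) (a (l 16362072) (l 16324944))) (b (c (l 16000232) (l 16091456)) (l 16283000))))), by decide +kernel⟩

def k4_A07pm_022_s1 : ∃ t, chk3 f_A07pm_022_s1 t 19 9 1 = true :=
  ⟨(b (c (a (b (c (a (b (l 16410832) (l 16455032)) (l 16238272)) (a (c (l 16401336) (l 16391456)) (l 16342312))) (a (c (b (l 16376536) (l 16384952)) (l 16331776)) (c (l 16269840) (l 16349912)))) (b (c (a (l 16194640) (l 16238648)) (a (l 16382056) (l 16433848))) (c (a (l 16277200) (l 16287392)) (a (l 16285904) (l 16381480))))) (a (a (b (c (l 16377136) (l 16538528)) (c (b (l 16298784) (l 16386224)) (c (l 16274544) (l 16281208)))) (c (b (l 16495120) (c (l 16282024) (l 16295672))) (l 16299824))) (b (l 16271648) (a (l 16265728)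 (l 16397128))))) (a (a (b (c (l 16291808) (c (l 16285872) (b (l 16237696) (l 16249704)))) (l 1)) (c (b (l 16301720) (l 16151328)) (b (c (l 16219760) (c (l 16140760) (l 16146728))) (l 537976681959)))) (c (b (a (l 16308400) (l 16226472)) (a (l 16162344) (l 16158304))) (b (a (c (b (l 16354952) (l 16279528)) (l 16169800)) (c (l 16167160) (l 16264928))) (c (a (l 16154176) (l 16157648)) (a (l 15987704) (l 133712769079))))))), by decide +kernel⟩

def k5_A07pm_022_s1 : ∃ t, chk3 f_A07pm_022_s1 t 9 5 1 = true :=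
  ⟨(a (l 1) (b (b (a (l 1) (a (l 1) (a (l 1) (c (l 15921624) (l 569651468311))))) (l 1)) (l 1))), by decide +kernel⟩

def k6_A07pm_022_s1 : ∃ t, chk3 f_A07pm_022_s1 t 9 3 1 = true :=
  ⟨(l 1), by decide +kernel⟩

def k7_A07pm_022_s1 : ∃ t, chk3 f_A07pm_022_s1 t 20 8 1 = true :=
  ⟨(c (a (b (b (c (l 15597112) (l 15585648)) (a (l 15694296) (l 15661584))) (b (a (l 15985480) (l 15952024)) (c (a (l 16176112) (l 16142360)) (l 16038992)))) (a (b (b (l 15471576) (l 15547872)) (b (l 15921744) (l 15890208))) (a (b (b (l 15511376) (l 15680944)) (b (l 15888424) (l 15860128))) (c (b (a (l 15530640) (b (l 15408528) (b (l 15535424) (l 15526424)))) (a (l 15841040) (b (l 15587760) (l 15994440)))) (b (a (l 15524400) (b (l 15394464) (b (l 15524928) (b (l 15594752) (l 15640168))))) (a (l 15627360) (b (l 15492776) (l 15960016)))))))) (a (b (b (c (c (l 15576560) (b (l 15534768) (l 15614480))) (c (b (l 15508600) (l 15464128)) (b (l 15530416) (l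 15622368)))) (c (b (l 15632632) (l 15758272)) (c (a (l 15576656) (l 15541024)) (b (l 15736904) (l 15861104))))) (b (a (l 16034016) (l 16000008)) (l 16230288))) (a (b (c (b (c (l 15539512) (b (l 15495216) (l 15578624))) (b (l 15683856) (l 15793464))) (b (c (b (l 15464160) (l 15583944)) (l 15543896)) (b (l 15545344) (l 15653336)))) (b (l 15969256) (l 16187784))) (a (b (c (b (c (l 15495616) (b (l 15446128) (l 15537424))) (b (l 15647056) (l 15758880))) (b (c (a (l 15421944) (l 15469408)) (l 15506120)) (a (c (l 15493648) (l 15735920)) (l 15534536)))) (b (l 15851384) (l 16157112))) (b (b (c (l 15326864) (c (l 15397488) (l 15416240))) (a (c (l 15638312) (l 15484880)) (c (b (l 15537768) (b (l 15622816) (c (l 15662680) (l 15605272)))) (a (a (a (l 15545104) (a (l 15540520) (l 15535256))) (l 15530824)) (l 15513136))))) (a (b (l 15875032) (l 16104128)) (b (c (b (l 15510576) (l 15886248)) (l 15742752)) (l 16064672)))))))), by decide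 +kernel⟩

def k8_A07pm_022_s1 : ∃ t, chk3 f_A07pm_022_s1 t 21 8 1 = true :=
  ⟨(c (b (b (c (l 15025304) (a (l 15187568) (l 14827776))) (c (l 15119544) (l 14776384))) (b (c (l 15237624) (l 15012344)) (c (l 15550392) (l 15426992)))) (b (c (b (a (c (l 15179624) (l 15080800)) (l 14711744)) (a (c (l 15380784) (l 15139224)) (c (l 15028200) (l 15051928)))) (b (c (b (l 14925048) (l 14686320)) (l 14991040)) (a (c (l 15153144) (l 15398968)) (l 15040664)))) (b (c (c (l 15208712) (a (l 15491032) (l 15301984))) (a (l 15475448) (l 15286856))) (l 15607848)))), by decide +kernel⟩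

def k9_A07pm_022_s1 : ∃ t, chk3 f_A07pm_022_s1 t 10 9 1 = true :=
  ⟨(a (a (b (c (c (a (b (l 16294624) (l 16289008)) (b (l 16274664) (l 16372112))) (a (l 16237888) (l 16300624))) (a (l 16396992) (l 16472472))) (c (b (a (c (l 16292032) (l 16233904)) (c (l 16288400) (l 16231160))) (a (l 16146680) (l 16047128))) (b (a (l 16169328) (l 16243976)) (a (c (l 16071904) (l 16086888)) (c (l 16068200) (l 16163632)))))) (a (b (c (b (l 16108928) (c (l 16356816) (l 16437888))) (l 16379664)) (c (b (l 16034432) (c (l 16093712) (l 16032904))) (b (l 16311680) (c (l 16052992) (l 16138568))))) (b (a (c (b (l 16168560) (c (l 16429512) (l 16419416))) (l 16367512)) (c (a (b (l 16124776) (l 16368256)) (c (b (l 16075144) (l 16213648)) (l 16133616))) (a (l 16330928) (l 16134048)))) (a (c (b (l 16104808) (c (l 16075856) (l 16101912))) (b (l 16288784) (l 16114192))) (c (a (b (l 16204608) (l 15929752)) (b (b (l 16172232) (l 16095768)) (c (l 15924640)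 (a (l 15863408) (l 16120952))))) (a (l 15964672) (b (l 16227576) (l 15965336)))))))) (b (c (a (b (l 15818160) (l 15965352)) (b (l 15650392) (l 15886880))) (a (l 15946384) (l 15861016))) (c (b (a (l 16173632) (l 16123960)) (a (c (l 15975968) (l 16081032)) (l 16177448))) (a (l 16017296) (l 15968352))))), by decide +kernel⟩

def k10_A07pm_022_s1 : ∃ t, chk3 f_A07pm_022_s1 t 10 5 1 = true :=
  ⟨(a (b (a (b (c (a (l 383357281479) (l 180419988807)) (c (a (l 15900800) (l 15631928)) (b (a (l 15979032) (l 15799336)) (l 614211605175)))) (l 1)) (b (a (c (b (l 15930016) (l 15774288)) (b (c (l 15766936) (l 15862864)) (c (l 15758440) (l 15670728)))) (a (c (b (l 15897912) (l 15733664)) (b (c (l 15828624) (l 15923328)) (c (l 15719512) (l 15636080)))) (c (c (a (l 15806560) (b (l 15802240) (l 15632208))) (c (a (l 15804440) (b (l 15807016) (l 15707440))) (a (l 15722968) (b (l 15818344) (l 15702440))))) (a (c (b (l 15915768) (l 15706272)) (b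 (l 15919888) (l 15709496))) (c (c (b (l 15660808) (l 15699264)) (b (l 15838536) (l 15616528))) (b (l 15921752) (b (l 15674640) (b (l 15673720) (l 15621448))))))))) (b (a (l 1) (a (l 1) (a (l 1) (a (l 1) (c (l 15536184) (l 15508232)))))) (l 1)))) (l 1)) (b (b (c (c (a (b (l 15924400) (l 15807312)) (b (l 15989464) (l 15926504))) (a (b (l 15695776) (l 15727800)) (b (l 16094976) (l 15698152)))) (c (a (b (l 15877808) (c (l 15648576) (l 15654968))) (b (l 16270792) (l 15880456))) (a (b (l 16043424) (l 15663400)) (l 15987768)))) (c (b (a (l 15624528) (c (l 15798688) (l 15719304))) (l 263634116183)) (a (c (l 263097135527) (b (c (l 15524960) (l 15524944)) (l 15425832))) (c (b (c (l 15724048) (l 15646616)) (l 15609704)) (b (l 15655144) (l 205115317991)))))) (b (b (c (l 698499313495) (l 728563936471)) (l 1)) (l 1)))), by decide +kernel⟩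

def k11_A07pm_022_s1 : ∃ t, chk3 f_A07pm_022_s1 t 11 4 1 = true :=
  ⟨(a (b (c (b (a (c (l 14596088) (b (l 14470736) (l 14678696))) (c (l 14256584) (l 14232944))) (b (c (l 14743240) (l 14675520)) (c (l 14993192) (l 14944520)))) (b (c (b (a (l 14433360) (l 14082888)) (a (l 14521240) (l 14342040))) (b (l 13920776) (l 14342112))) (c (a (b (l 14948824) (l 15205568)) (l 14329944)) (a (l 14980272) (l 14729000))))) (b (c (c (a (l 15282416) (l 15232768)) (l 14981128)) (l 15044240)) (c (b (l 15662912) (a (l 15986760) (l 15861488))) (b (l 15641888) (l 15737840))))) (a (b (b (l 6) (a (b (l 6) (c (l 14658088) (l 14661176))) (l 6))) (b (c (c (l 15018392) (l 15029176)) (l 15000160)) (c (l 15516192) (l 15488144)))) (b (l 6) (b (l 6) (a (l 15162744) (l 15277064)))))), by decide +kernel⟩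

def k12_A07pm_022_s1 : ∃ t, chk3 f_A07pm_022_s1 t 11 5 1 = true :=
  ⟨(b (a (b (c (b (a (l 16226928) (l 16053312)) (a (a (l 15936464) (l 16045544)) (l 16210736))) (a (l 16046672) (l 15907512))) (b (c (a (c (l 15910344) (l 15765872)) (a (l 15915136) (l 16021064))) (c (l 15720872) (l 15965056))) (c (a (c (l 15787480) (l 15792064)) (c (l 15891784) (l 15747280))) (a (c (l 15466184) (l 15728088)) (l 15751080))))) (c (b (b (l 15858968) (b (l 16059448) (l 16198128))) (b (a (l 16129176) (l 16321776)) (c (l 15866096) (l 15965576)))) (b (l 15560792) (a (l 16036392) (l 16130768))))) (b (a (c (a (l 15266928) (b (l 15603728) (l 15571584))) (c (a (l 15420136) (b (l 15526792) (l 15559256))) (a (b (l 15425256) (l 15392080)) (b (l 15704704) (l 15473808))))) (c (b (a (c (l 15905744) (l 15760352)) (l 15855472)) (a (l 15610624) (c (l 15779744) (l 15800232)))) (b (c (l 15826680) (l 15985128)) (c (a (l 15616064) (l 15811936)) (l 15516152)))))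 (a (c (l 634611102679) (c (l 15192984) (l 15175088))) (c (a (l 15391360) (l 15219064)) (b (c (a (l 15473952) (l 15570096)) (a (l 15471264) (l 15577320))) (c (l 15309008) (l 294235192119))))))), by decide +kernel⟩

def k13_A07pm_022_s1 : ∃ t, chk3 f_A07pm_022_s1 t 5 3 1 = true :=
  ⟨(a (l 1) (a (l 1) (b (b (b (c (l 15027984) (l 466570124487)) (l 1)) (l 1)) (l 1)))), by decide +kernel⟩

def k14_A07pm_022_s1 : ∃ t, chk3 f_A07pm_022_s1 t 3 1 1 = true :=
  ⟨(b (a (a (a (b (l 6) (b (b (c (l 15768088) (l 15747024)) (c (a (l 16073264) (l 6)) (l 16000088))) (c (c (b (b (l 16033408) (l 15791104)) (a (l 15557176) (l 15499136))) (b (l 15679528) (a (l 15144360) (l 15515904)))) (b (l 15832600) (c (a (l 15237176) (l 15684232)) (l 15383240)))))) (b (l 6) (l 6))) (l 6)) (l 6)) (a (a (b (b (c (a (b (c (l 15192152) (l 15184224)) (l 14783504)) (a (b (a (l 15216864) (l 6)) (l 14911536)) (l 6))) (a (b (c (a (l 15119144) (l 15134800)) (a (l 15108904)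 (l 15216256))) (l 14733888)) (b (c (l 14985704) (l 15399640)) (c (l 14609736) (l 14516008))))) (b (c (l 251283742055) (l 307118198967)) (l 1))) (l 1)) (a (b (l 6) (l 1)) (l 6))) (l 6))), by decide +kernel⟩

theorem t15_A07pm_022_s1 : ∃ t, chk3 f_A07pm_022_s1 t 11 2 1 = true := ex3_b k11_A07pm_022_s1 k12_A07pm_022_s1

theorem t16_A07pm_022_s1 : ∃ t, chk3 f_A07pm_022_s1 t 10 8 1 = true := ex3_a k7_A07pm_022_s1 k8_A07pm_022_s1

theorem t17_A07pm_022_s1 : ∃ t, chk3 f_A07pm_022_s1 t 10 4 1 = true := ex3_b t16_A07pm_022_s1 k9_A07pm_022_s1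

theorem t18_A07pm_022_s1 : ∃ t, chk3 f_A07pm_022_s1 t 10 2 1 = true := ex3_b t17_A07pm_022_s1 k10_A07pm_022_s1

theorem t19_A07pm_022_s1 : ∃ t, chk3 f_A07pm_022_s1 t 5 2 1 = true := ex3_a t18_A07pm_022_s1 t15_A07pm_022_s1

theorem t20_A07pm_022_s1 : ∃ t, chk3 f_A07pm_022_s1 t 5 1 1 = true := ex3_b t19_A07pm_022_s1 k13_A07pm_022_s1

theorem t21_A07pm_022_s1 : ∃ t, chk3 f_A07pm_022_s1 t 19 4 1 = true := ex3_b k3_A07pm_022_s1 k4_A07pm_022_s1

theorem t22_A07pm_022_s1 : ∃ t, chk3 f_A07pm_022_s1 t 18 4 1 = true := ex3_b k1_A07pm_022_s1 k2_A07pm_022_s1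

theorem t23_A07pm_022_s1 : ∃ t, chk3 f_A07pm_022_s1 t 9 4 1 = true := ex3_a t22_A07pm_022_s1 t21_A07pm_022_s1

theorem t24_A07pm_022_s1 : ∃ t, chk3 f_A07pm_022_s1 t 9 2 1 = true := ex3_b t23_A07pm_022_s1 k5_A07pm_022_s1

theorem t25_A07pm_022_s1 : ∃ t, chk3 f_A07pm_022_s1 t 9 1 1 = true := ex3_b t24_A07pm_022_s1 k6_A07pm_022_s1

theorem t26_A07pm_022_s1 : ∃ t, chk3 f_A07pm_022_s1 t 4 1 1 = true := ex3_a k0_A07pm_022_s1 t25_A07pm_022_s1

theorem t27_A07pm_022_s1 : ∃ t, chk3 f_A07pm_022_s1 t 2 1 1 = true := ex3_a t26_A07pm_022_s1 t20_A07pm_022_s1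

theorem t28_A07pm_022_s1 : ∃ t, chk3 f_A07pm_022_s1 t 1 1 1 = true := ex3_a t27_A07pm_022_s1 k14_A07pm_022_s1

theorem c_A07pm_022_s1 : CertFX 0 536870912 1073741824 536870912 1046898278 26843546 true true false .pp 0 2 2
    ndF0q0 ndF7q2 pcF2 cut_A07pm_022_s1 Ext.none :=
  certFX2 (fam := true) (s1 := true) (s2 := false) (a := 0) (b := 2) (c := 2) (cn := .pp) (n1 := ndF0q0) (n2 := ndF7q2) (pc := pcF2) (cut := cut_A07pm_022_s1) (xt := Ext.none) (P1 := 0) (W1 := 536870912) (P2 := 1073741824) (W2 := 536870912) (P3 := 1046898278) (W3 := 26843546)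
    rfl (fun _ => rfl) t28_A07pm_022_s1

theorem s_A07pm_022_s1 {κ x : ℝ} (hκ : κ * h0 = kenE x) (hx : 39 / 40 ≤ x) (hx' : x < 1)
    (H : CutVA (VFD κ) (DD x) tKF tL pcF (Cut.of [[⟨0, 0, 0, 67108864⟩, ⟨1, 1, 0, 67108864⟩, ⟨2, 1, 0, 67108864⟩]]) 0 2 2 0 7 (sgb true) (sgb false) x) :
    AltVA (VFD κ) (DD x) tKF tL pcF [⟨3, 0, 0, 1449551462⟩] 0 2 2 0 7 (sgb true) (sgb false) x :=
  strip_altVA (d := 1449551462) true rfl hκ (κ0 hκ hx) (x0 hx) hx' (covF00 hx hx') (covF72 hx hx') (x1 hx) (x2 hx') c_A07pm_022_s1 H (noExt_VA)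

noncomputable def cut_A07pm_023_s1 : Cut := Cut.of [[⟨4, 0, 0, 1449551462⟩]]

noncomputable def f_A07pm_023_s1 : ℕ → ℕ → ℕ → ℕ → Bool := onCell 0 536870912 1073741824 536870912 1046898278 26843546
    (rowFX 0 true true false .up 0 2 3 (qsf 0 536870912 1073741824 536870912 3) ndF0q0 ndF7q2 pcF3 cut_A07pm_023_s1 Ext.none)

def k0_A07pm_023_s1 : ∃ t, chk3 f_A07pm_023_s1 t 1 1 1 = true :=
  ⟨(b (a (b (l 1) (a (l 1) (b (l 1) (l 6)))) (l 6)) (a (b (a (a (l 1) (l 6)) (l 6)) (l 6)) (l 6))), by decide +kernel⟩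

theorem c_A07pm_023_s1 : CertFX 0 536870912 1073741824 536870912 1046898278 26843546 true true false .up 0 2 3
    ndF0q0 ndF7q2 pcF3 cut_A07pm_023_s1 Ext.none :=
  certFX0 (fam := true) (s1 := true) (s2 := false) (a := 0) (b := 2) (c := 3) (cn := .up) (n1 := ndF0q0) (n2 := ndF7q2) (pc := pcF3) (cut := cut_A07pm_023_s1) (xt := Ext.none) (P1 := 0) (W1 := 536870912) (P2 := 1073741824) (W2 := 536870912) (P3 := 1046898278) (W3 := 26843546)
    rfl k0_A07pm_023_s1

theorem s_A07pm_023_s1 {κ x : ℝ} (hκ : κ * h0 = kenE x) (hx : 39 / 40 ≤ x) (hx' : x < 1) :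
    AltVA (VFD κ) (DD x) tKF tL pcF [⟨3, 0, 0, 1449551462⟩] 0 2 3 0 7 (sgb true) (sgb false) x :=
  strip_altVA (d := 1449551462) true rfl hκ (κ0 hκ hx) (x0 hx) hx' (covF00 hx hx') (covF72 hx hx') (x1 hx) (x2 hx') c_A07pm_023_s1 cutVA_nil (noExt_VA)

noncomputable def cut_A07pm_033_s1 : Cut := Cut.of [[⟨4, 0, 0, 1449551462⟩]]

noncomputable def f_A07pm_033_s1 : ℕ → ℕ → ℕ → ℕ → Bool := onCell 0 536870912 0 1230186008 1046898278 26843546
    (rowFX 0 true true false .pnn 0 3 3 (qsf 0 536870912 0 1230186008 3) ndF0q0 ndF7q3 pcF3 cut_A07pm_033_s1 Ext.none)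

def k0_A07pm_033_s1 : ∃ t, chk3 f_A07pm_033_s1 t 1 1 1 = true :=
  ⟨(b (l 6) (b (l 6) (l 6))), by decide +kernel⟩

theorem c_A07pm_033_s1 : CertFX 0 536870912 0 1230186008 1046898278 26843546 true true false .pnn 0 3 3
    ndF0q0 ndF7q3 pcF3 cut_A07pm_033_s1 Ext.none :=
  certFX0 (fam := true) (s1 := true) (s2 := false) (a := 0) (b := 3) (c := 3) (cn := .pnn) (n1 := ndF0q0) (n2 := ndF7q3) (pc := pcF3) (cut := cut_A07pm_033_s1) (xt := Ext.none) (P1 := 0) (W1 := 536870912) (P2 := 0) (W2 := 1230186008) (P3 := 1046898278) (W3 := 26843546)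
    rfl k0_A07pm_033_s1

theorem s_A07pm_033_s1 {κ x : ℝ} (hκ : κ * h0 = kenE x) (hx : 39 / 40 ≤ x) (hx' : x < 1) :
    AltVA (VFD κ) (DD x) tKF tL pcF [⟨3, 0, 0, 1449551462⟩] 0 3 3 0 7 (sgb true) (sgb false) x :=
  strip_altVA (d := 1449551462) true rfl hκ (κ0 hκ hx) (x0 hx) hx' (covF00 hx hx') (covF73 hx hx') (x1 hx) (x2 hx') c_A07pm_033_s1 cutVA_nil (noExt_VA)

noncomputable def cut_A07pm_101_s1 : Cut := Cut.of [[⟨4, 0, 0, 1449551462⟩]]

noncomputable def xt_A07pm_101_s1 : Ext := strExtY dd true true false .u0 .s0m .u0m .npn 1 0 1 rfl rfl gf1 ge vv ndF0q1 ndF7q0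

noncomputable def f_A07pm_101_s1 : ℕ → ℕ → ℕ → ℕ → Bool := onCell 536870912 536870912 536870912 536870912 1046898278 26843546
    (rowFX 1 true true false .npn 1 0 1 (qsf 536870912 536870912 0 536870912 1) ndF0q1 ndF7q0 pcF1 cut_A07pm_101_s1 xt_A07pm_101_s1)

def k0_A07pm_101_s1 : ∃ t, chk3 f_A07pm_101_s1 t 2 4 1 = true :=
  ⟨(a (c (c (b (a (l 3) (c (l 536870927) (l 536870927))) (a (b (b (l 3) (l 536870927)) (l 536870927)) (c (b (l 536870927) (l 536870927)) (b (l 536870927) (l 536870927))))) (b (a (l 3) (a (a (l 3) (l 1)) (l 1))) (a (b (b (l 3) (l 536870927)) (l 536870927)) (c (b (l 536870927) (l 536870927)) (b (l 536870927) (l 536870927)))))) (c (b (a (l 3) (a (a (l 3) (l 1)) (l 1))) (a (b (b (l 3) (l 536870927)) (l 536870927)) (b (c (l 536870927) (l 536870927)) (c (l 536870927) (l 536870927))))) (b (a (l 3) (a (a (l 3) (l 1)) (l 1))) (a (b (b (l 3) (l 536870927)) (l 536870927)) (b (c (a (l 536870927) (l 536870927)) (a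 (l 536870927) (l 536870927))) (c (l 536870927) (l 536870927))))))) (b (l 1) (a (b (l 1) (a (a (a (c (l 285112008711) (l 239477981191)) (l 1)) (l 1)) (l 1))) (l 1)))), by decide +kernel⟩

def k1_A07pm_101_s1 : ∃ t, chk3 f_A07pm_101_s1 t 2 5 1 = true :=
  ⟨(a (c (a (c (b (c (l 536870927) (l 536870927)) (b (a (l 536870927) (l 16777216)) (l 536870927))) (b (c (l 536870927) (l 536870927)) (c (l 536870927) (l 536870927)))) (b (b (c (a (l 536870927) (l 536870927)) (l 536870927)) (c (l 536870927) (l 536870927))) (c (c (l 16777216) (l 16777216)) (c (l 16777216) (l 16777216))))) (a (c (b (l 536870927) (l 536870927)) (b (l 536870927) (c (l 536870927) (l 536870927)))) (b (b (c (l 536870927) (l 536870927)) (c (l 536870927) (l 536870927))) (c (c (l 16777216) (l 16777216)) (c (l 16777216) (l 16777216)))))) (b (c (c (a (b (c (l 16777216) (l 16777216)) (l 16777216)) (b (l 1) (l 16777216))) (a (c (l 16777216) (l 16777216)) (l 298533781511)))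 (c (a (c (l 16777216) (l 16777216)) (l 260415946759)) (a (c (l 16777216) (l 16777216)) (b (l 1) (l 16777216))))) (c (a (c (b (l 16777216) (l 16777216)) (b (l 16777216) (l 16777216))) (b (l 16777216) (l 16777216))) (a (c (b (l 16777216) (l 16777216)) (b (l 16777216) (l 16777216))) (c (l 16777216) (l 16777216)))))), by decide +kernel⟩

def k2_A07pm_101_s1 : ∃ t, chk3 f_A07pm_101_s1 t 3 2 1 = true :=
  ⟨(a (b (l 1) (a (c (l 219076886535) (c (l 16777216) (l 16777216))) (l 1))) (l 1)), by decide +kernel⟩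

def k3_A07pm_101_s1 : ∃ t, chk3 f_A07pm_101_s1 t 1 3 1 = true :=
  ⟨(a (b (a (b (c (c (b (a (l 16777208) (l 16777208)) (a (l 16770944) (l 16768912))) (b (a (l 16777208) (l 16777208)) (a (l 16770864) (l 16768800)))) (c (b (a (l 16777208) (l 16777208)) (a (l 16770784) (l 16768696))) (b (a (l 536870671) (l 16777208)) (a (l 16770704) (l 16768584))))) (a (b (c (c (l 16755984) (l 16755704)) (c (l 16755424) (l 16755152))) (c (b (l 16741600) (a (l 16772728) (l 16774736))) (b (l 16740680) (a (l 16772616) (l 16774672))))) (c (b (a (l 16751888) (l 16751376)) (b (l 16738648) (l 16776096))) (b (a (l 16751224) (l 16750704)) (b (l 16737640) (l 16776064)))))) (c (b (a (b (a (l 16777200) (l 16777200)) (l 16768408)) (l 16773016)) (a (b (l 16752112) (l 16758560)) (b (l 16753312) (l 6)))) (b (a (a (b (l 16777200) (l 16768064)) (l 16772736)) (l 16772912)) (a (b (l 16751464) (l 16674192)) (b (l 16752688) (l 6)))))) (a (b (a (b (c (a (l 16623336)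 (l 16629296)) (a (l 16535456) (l 16625448))) (c (l 16351544) (l 16258784))) (c (l 16545696) (a (l 16451360) (l 16460288)))) (a (c (b (l 16262480) (l 16107808)) (b (l 16249112) (l 16090424))) (c (l 16221392) (l 16206960)))) (a (b (c (l 16563776) (l 16558232)) (l 6)) (l 6)))) (a (a (b (l 6) (l 6)) (l 6)) (l 6))), by decide +kernel⟩

theorem t4_A07pm_101_s1 : ∃ t, chk3 f_A07pm_101_s1 t 2 2 1 = true := ex3_b k0_A07pm_101_s1 k1_A07pm_101_s1

theorem t5_A07pm_101_s1 : ∃ t, chk3 f_A07pm_101_s1 t 1 2 1 = true := ex3_a t4_A07pm_101_s1 k2_A07pm_101_s1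

theorem t6_A07pm_101_s1 : ∃ t, chk3 f_A07pm_101_s1 t 1 1 1 = true := ex3_b t5_A07pm_101_s1 k3_A07pm_101_s1

theorem c_A07pm_101_s1 : CertFX 536870912 536870912 0 536870912 1046898278 26843546 true true false .npn 1 0 1
    ndF0q1 ndF7q0 pcF1 cut_A07pm_101_s1 xt_A07pm_101_s1 :=
  certFX1 (fam := true) (s1 := true) (s2 := false) (a := 1) (b := 0) (c := 1) (cn := .npn) (n1 := ndF0q1) (n2 := ndF7q0) (pc := pcF1) (cut := cut_A07pm_101_s1) (xt := xt_A07pm_101_s1) (P1 := 536870912) (W1 := 536870912) (P2 := 0) (W2 := 536870912) (P3 := 1046898278) (W3 := 26843546)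
    rfl (fun _ => rfl) t6_A07pm_101_s1

theorem s_A07pm_101_s1 {κ x : ℝ} (hκ : κ * h0 = kenE x) (hx : 39 / 40 ≤ x) (hx' : x < 1) :
    AltVA (VFD κ) (DD x) tKF tL pcF [⟨3, 0, 0, 1449551462⟩] 1 0 1 0 7 (sgb true) (sgb false) x :=
  strip_altVA (d := 1449551462) true rfl hκ (κ0 hκ hx) (x0 hx) hx' (covF01 hx hx') (covF70 hx hx') (x1 hx) (x2 hx') c_A07pm_101_s1 cutVA_nil ((ok hx hx').extA (T := tt) (sideF hx hx') hκ (κ0 hκ hx) rfl rfl (.O 1 true) (.N 0 false) (Or.inr rfl))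

noncomputable def cut_A07pm_102_s1 : Cut := Cut.of [[⟨4, 0, 0, 1449551462⟩]]

noncomputable def f_A07pm_102_s1 : ℕ → ℕ → ℕ → ℕ → Bool := onCell 536870912 536870912 0 536870912 1046898278 26843546
    (rowFX 0 true true false .npp 1 0 2 (qsf 536870912 536870912 0 536870912 2) ndF0q1 ndF7q0 pcF2 cut_A07pm_102_s1 Ext.none)

def k0_A07pm_102_s1 : ∃ t, chk3 f_A07pm_102_s1 t 1 1 1 = true :=
  ⟨(a (b (a (l 1) (b (l 1) (a (l 1) (b (l 1) (l 6))))) (a (b (a (l 1) (b (l 1) (a (l 1) (b (l 1) (l 6))))) (a (b (a (l 1) (b (l 1) (l 472478575623))) (a (a (b (l 1) (l 16268688)) (l 409664154135)) (b (l 461740667287) (l 6)))) (b (a (c (l 489657715719) (l 15875416)) (l 6)) (l 6)))) (b (a (b (a (l 1) (l 6)) (l 6)) (l 6)) (l 6)))) (b (a (b (a (l 1) (l 6)) (l 6)) (l 6)) (l 6))), by decide +kernel⟩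

theorem c_A07pm_102_s1 : CertFX 536870912 536870912 0 536870912 1046898278 26843546 true true false .npp 1 0 2
    ndF0q1 ndF7q0 pcF2 cut_A07pm_102_s1 Ext.none :=
  certFX0 (fam := true) (s1 := true) (s2 := false) (a := 1) (b := 0) (c := 2) (cn := .npp) (n1 := ndF0q1) (n2 := ndF7q0) (pc := pcF2) (cut := cut_A07pm_102_s1) (xt := Ext.none) (P1 := 536870912) (W1 := 536870912) (P2 := 0) (W2 := 536870912) (P3 := 1046898278) (W3 := 26843546)
    rfl k0_A07pm_102_s1

theorem s_A07pm_102_s1 {κ x : ℝ} (hκ : κ * h0 = kenE x) (hx : 39 / 40 ≤ x) (hx' : x < 1) :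
    AltVA (VFD κ) (DD x) tKF tL pcF [⟨3, 0, 0, 1449551462⟩] 1 0 2 0 7 (sgb true) (sgb false) x :=
  strip_altVA (d := 1449551462) true rfl hκ (κ0 hκ hx) (x0 hx) hx' (covF01 hx hx') (covF70 hx hx') (x1 hx) (x2 hx') c_A07pm_102_s1 cutVA_nil (noExt_VA)

noncomputable def cut_A07pm_112_s1 : Cut := Cut.of [[⟨4, 0, 0, 1449551462⟩]]

noncomputable def f_A07pm_112_s1 : ℕ → ℕ → ℕ → ℕ → Bool := onCell 536870912 536870912 536870912 536870912 1046898278 26843546
    (rowFX 0 true true false .dn 1 1 2 (qsf 536870912 536870912 536870912 536870912 2) ndF0q1 ndF7q1 pcF2 cut_A07pm_112_s1 Ext.none)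

def k0_A07pm_112_s1 : ∃ t, chk3 f_A07pm_112_s1 t 1 1 1 = true :=
  ⟨(a (b (a (b (a (b (a (b (l 6) (l 6)) (l 6)) (l 6)) (l 6)) (l 6)) (l 6)) (l 6)) (l 6)), by decide +kernel⟩

theorem c_A07pm_112_s1 : CertFX 536870912 536870912 536870912 536870912 1046898278 26843546 true true false .dn 1 1 2
    ndF0q1 ndF7q1 pcF2 cut_A07pm_112_s1 Ext.none :=
  certFX0 (fam := true) (s1 := true) (s2 := false) (a := 1) (b := 1) (c := 2) (cn := .dn) (n1 := ndF0q1) (n2 := ndF7q1) (pc := pcF2) (cut := cut_A07pm_112_s1) (xt := Ext.none) (P1 := 536870912) (W1 := 536870912) (P2 := 536870912) (W2 := 536870912) (P3 := 1046898278) (W3 := 26843546)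
    rfl k0_A07pm_112_s1

theorem s_A07pm_112_s1 {κ x : ℝ} (hκ : κ * h0 = kenE x) (hx : 39 / 40 ≤ x) (hx' : x < 1) :
    AltVA (VFD κ) (DD x) tKF tL pcF [⟨3, 0, 0, 1449551462⟩] 1 1 2 0 7 (sgb true) (sgb false) x :=
  strip_altVA (d := 1449551462) true rfl hκ (κ0 hκ hx) (x0 hx) hx' (covF01 hx hx') (covF71 hx hx') (x1 hx) (x2 hx') c_A07pm_112_s1 cutVA_nil (noExt_VA)

noncomputable def cut_A07pm_113_s1 : Cut := Cut.of [[⟨4, 0, 0, 1449551462⟩]]

noncomputable def f_A07pm_113_s1 : ℕ → ℕ → ℕ → ℕ → Bool := onCell 536870912 536870912 536870912 536870912 1046898278 26843546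
    (rowFX 0 true true false .nn 1 1 3 (qsf 536870912 536870912 536870912 536870912 3) ndF0q1 ndF7q1 pcF3 cut_A07pm_113_s1 Ext.none)

def k0_A07pm_113_s1 : ∃ t, chk3 f_A07pm_113_s1 t 1 1 1 = true :=
  ⟨(a (b (b (l 1) (l 6)) (l 6)) (l 6)), by decide +kernel⟩

theorem c_A07pm_113_s1 : CertFX 536870912 536870912 536870912 536870912 1046898278 26843546 true true false .nn 1 1 3
    ndF0q1 ndF7q1 pcF3 cut_A07pm_113_s1 Ext.none :=
  certFX0 (fam := true) (s1 := true) (s2 := false) (a := 1) (b := 1) (c := 3) (cn := .nn) (n1 := ndF0q1) (n2 := ndF7q1) (pc := pcF3) (cut := cut_A07pm_113_s1) (xt := Ext.none) (P1 := 536870912) (W1 := 536870912) (P2 := 536870912) (W2 := 536870912) (P3 := 1046898278) (W3 := 26843546)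
    rfl k0_A07pm_113_s1

theorem s_A07pm_113_s1 {κ x : ℝ} (hκ : κ * h0 = kenE x) (hx : 39 / 40 ≤ x) (hx' : x < 1) :
    AltVA (VFD κ) (DD x) tKF tL pcF [⟨3, 0, 0, 1449551462⟩] 1 1 3 0 7 (sgb true) (sgb false) x :=
  strip_altVA (d := 1449551462) true rfl hκ (κ0 hκ hx) (x0 hx) hx' (covF01 hx hx') (covF71 hx hx') (x1 hx) (x2 hx') c_A07pm_113_s1 cutVA_nil (noExt_VA)

noncomputable def cut_A07pm_123_s1 : Cut := Cut.of [[⟨4, 0, 0, 1449551462⟩]]

noncomputable def f_A07pm_123_s1 : ℕ → ℕ → ℕ → ℕ → Bool := onCell 536870912 536870912 1073741824 536870912 1046898278 26843546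
    (rowFX 0 true true false .npn 1 2 3 (qsf 536870912 536870912 1073741824 536870912 3) ndF0q1 ndF7q2 pcF3 cut_A07pm_123_s1 Ext.none)

def k0_A07pm_123_s1 : ∃ t, chk3 f_A07pm_123_s1 t 1 1 1 = true :=
  ⟨(l 6), by decide +kernel⟩

theorem c_A07pm_123_s1 : CertFX 536870912 536870912 1073741824 536870912 1046898278 26843546 true true false .npn 1 2 3
    ndF0q1 ndF7q2 pcF3 cut_A07pm_123_s1 Ext.none :=
  certFX0 (fam := true) (s1 := true) (s2 := false) (a := 1) (b := 2) (c := 3) (cn := .npn) (n1 := ndF0q1) (n2 := ndF7q2) (pc := pcF3) (cut := cut_A07pm_123_s1) (xt := Ext.none) (P1 := 536870912) (W1 := 536870912) (P2 := 1073741824) (W2 := 536870912) (P3 := 1046898278) (W3 := 26843546)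
    rfl k0_A07pm_123_s1

theorem s_A07pm_123_s1 {κ x : ℝ} (hκ : κ * h0 = kenE x) (hx : 39 / 40 ≤ x) (hx' : x < 1) :
    AltVA (VFD κ) (DD x) tKF tL pcF [⟨3, 0, 0, 1449551462⟩] 1 2 3 0 7 (sgb true) (sgb false) x :=
  strip_altVA (d := 1449551462) true rfl hκ (κ0 hκ hx) (x0 hx) hx' (covF01 hx hx') (covF72 hx hx') (x1 hx) (x2 hx') c_A07pm_123_s1 cutVA_nil (noExt_VA)

noncomputable def cut_A07pm_133_s1 : Cut := Cut.of [[⟨4, 0, 0, 1449551462⟩]]

noncomputable def f_A07pm_133_s1 : ℕ → ℕ → ℕ → ℕ → Bool := onCell 536870912 536870912 0 1230186008 1046898278 26843546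
    (rowFX 0 true true false .dn 1 3 3 (qsf 536870912 536870912 0 1230186008 3) ndF0q1 ndF7q3 pcF3 cut_A07pm_133_s1 Ext.none)

def k0_A07pm_133_s1 : ∃ t, chk3 f_A07pm_133_s1 t 1 1 1 = true :=
  ⟨(l 6), by decide +kernel⟩

theorem c_A07pm_133_s1 : CertFX 536870912 536870912 0 1230186008 1046898278 26843546 true true false .dn 1 3 3
    ndF0q1 ndF7q3 pcF3 cut_A07pm_133_s1 Ext.none :=
  certFX0 (fam := true) (s1 := true) (s2 := false) (a := 1) (b := 3) (c := 3) (cn := .dn) (n1 := ndF0q1) (n2 := ndF7q3) (pc := pcF3) (cut := cut_A07pm_133_s1) (xt := Ext.none) (P1 := 536870912) (W1 := 536870912) (P2 := 0) (W2 := 1230186008) (P3 := 1046898278) (W3 := 26843546)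
    rfl k0_A07pm_133_s1

theorem s_A07pm_133_s1 {κ x : ℝ} (hκ : κ * h0 = kenE x) (hx : 39 / 40 ≤ x) (hx' : x < 1) :
    AltVA (VFD κ) (DD x) tKF tL pcF [⟨3, 0, 0, 1449551462⟩] 1 3 3 0 7 (sgb true) (sgb false) x :=
  strip_altVA (d := 1449551462) true rfl hκ (κ0 hκ hx) (x0 hx) hx' (covF01 hx hx') (covF73 hx hx') (x1 hx) (x2 hx') c_A07pm_133_s1 cutVA_nil (noExt_VA)

noncomputable def cut_A07pm_202_s1 : Cut := Cut.of [[⟨4, 0, 0, 1449551462⟩]]

noncomputable def f_A07pm_202_s1 : ℕ → ℕ → ℕ → ℕ → Bool := onCell 0 536870912 0 536870912 1046898278 26843546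
    (rowFX 0 true true false .pp 2 0 2 (qsf 0 536870912 0 536870912 2) ndF0q2 ndF7q0 pcF2 cut_A07pm_202_s1 Ext.none)

def k0_A07pm_202_s1 : ∃ t, chk3 f_A07pm_202_s1 t 1 1 1 = true :=
  ⟨(l 6), by decide +kernel⟩

theorem c_A07pm_202_s1 : CertFX 0 536870912 0 536870912 1046898278 26843546 true true false .pp 2 0 2
    ndF0q2 ndF7q0 pcF2 cut_A07pm_202_s1 Ext.none :=
  certFX0 (fam := true) (s1 := true) (s2 := false) (a := 2) (b := 0) (c := 2) (cn := .pp) (n1 := ndF0q2) (n2 := ndF7q0) (pc := pcF2) (cut := cut_A07pm_202_s1) (xt := Ext.none) (P1 := 0) (W1 := 536870912) (P2 := 0) (W2 := 536870912) (P3 := 1046898278) (W3 := 26843546)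
    rfl k0_A07pm_202_s1

theorem s_A07pm_202_s1 {κ x : ℝ} (hκ : κ * h0 = kenE x) (hx : 39 / 40 ≤ x) (hx' : x < 1) :
    AltVA (VFD κ) (DD x) tKF tL pcF [⟨3, 0, 0, 1449551462⟩] 2 0 2 0 7 (sgb true) (sgb false) x :=
  strip_altVA (d := 1449551462) true rfl hκ (κ0 hκ hx) (x0 hx) hx' (covF02 hx hx') (covF70 hx hx') (x1 hx) (x2 hx') c_A07pm_202_s1 cutVA_nil (noExt_VA)

noncomputable def cut_A07pm_203_s1 : Cut := Cut.of [[⟨4, 0, 0, 1449551462⟩]]

noncomputable def f_A07pm_203_s1 : ℕ → ℕ → ℕ → ℕ → Bool := onCell 0 536870912 0 536870912 1046898278 26843546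
    (rowFX 0 true true false .up 2 0 3 (qsf 0 536870912 0 536870912 3) ndF0q2 ndF7q0 pcF3 cut_A07pm_203_s1 Ext.none)

def k0_A07pm_203_s1 : ∃ t, chk3 f_A07pm_203_s1 t 1 1 1 = true :=
  ⟨(l 6), by decide +kernel⟩

theorem c_A07pm_203_s1 : CertFX 0 536870912 0 536870912 1046898278 26843546 true true false .up 2 0 3
    ndF0q2 ndF7q0 pcF3 cut_A07pm_203_s1 Ext.none :=
  certFX0 (fam := true) (s1 := true) (s2 := false) (a := 2) (b := 0) (c := 3) (cn := .up) (n1 := ndF0q2) (n2 := ndF7q0) (pc := pcF3) (cut := cut_A07pm_203_s1) (xt := Ext.none) (P1 := 0) (W1 := 536870912) (P2 := 0) (W2 := 536870912) (P3 := 1046898278) (W3 := 26843546)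
    rfl k0_A07pm_203_s1

theorem s_A07pm_203_s1 {κ x : ℝ} (hκ : κ * h0 = kenE x) (hx : 39 / 40 ≤ x) (hx' : x < 1) :
    AltVA (VFD κ) (DD x) tKF tL pcF [⟨3, 0, 0, 1449551462⟩] 2 0 3 0 7 (sgb true) (sgb false) x :=
  strip_altVA (d := 1449551462) true rfl hκ (κ0 hκ hx) (x0 hx) hx' (covF02 hx hx') (covF70 hx hx') (x1 hx) (x2 hx') c_A07pm_203_s1 cutVA_nil (noExt_VA)

noncomputable def cut_A07pm_213_s1 : Cut := Cut.of [[⟨4, 0, 0, 1449551462⟩]]

noncomputable def f_A07pm_213_s1 : ℕ → ℕ → ℕ → ℕ → Bool := onCell 0 536870912 536870912 536870912 1046898278 26843546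
    (rowFX 0 true true false .pnn 2 1 3 (qsf 0 536870912 536870912 536870912 3) ndF0q2 ndF7q1 pcF3 cut_A07pm_213_s1 Ext.none)

def k0_A07pm_213_s1 : ∃ t, chk3 f_A07pm_213_s1 t 1 1 1 = true :=
  ⟨(l 6), by decide +kernel⟩

theorem c_A07pm_213_s1 : CertFX 0 536870912 536870912 536870912 1046898278 26843546 true true false .pnn 2 1 3
    ndF0q2 ndF7q1 pcF3 cut_A07pm_213_s1 Ext.none :=
  certFX0 (fam := true) (s1 := true) (s2 := false) (a := 2) (b := 1) (c := 3) (cn := .pnn) (n1 := ndF0q2) (n2 := ndF7q1) (pc := pcF3) (cut := cut_A07pm_213_s1) (xt := Ext.none) (P1 := 0) (W1 := 536870912) (P2 := 536870912) (W2 := 536870912) (P3 := 1046898278) (W3 := 26843546)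
    rfl k0_A07pm_213_s1

theorem s_A07pm_213_s1 {κ x : ℝ} (hκ : κ * h0 = kenE x) (hx : 39 / 40 ≤ x) (hx' : x < 1) :
    AltVA (VFD κ) (DD x) tKF tL pcF [⟨3, 0, 0, 1449551462⟩] 2 1 3 0 7 (sgb true) (sgb false) x :=
  strip_altVA (d := 1449551462) true rfl hκ (κ0 hκ hx) (x0 hx) hx' (covF02 hx hx') (covF71 hx hx') (x1 hx) (x2 hx') c_A07pm_213_s1 cutVA_nil (noExt_VA)

noncomputable def cut_A07mm_001_s1 : Cut := Cut.of [[⟨4, 0, 0, 1449551462⟩]]

noncomputable def f_A07mm_001_s1 : ℕ → ℕ → ℕ → ℕ → Bool := onCell 0 536870912 0 536870912 1046898278 26843546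
    (rowFX 0 true false false .up 0 0 1 (qsf 0 536870912 0 536870912 1) ndF0q0 ndF7q0 pcF1 cut_A07mm_001_s1 Ext.none)

def k0_A07mm_001_s1 : ∃ t, chk3 f_A07mm_001_s1 t 1 1 1 = true :=
  ⟨(l 4), by decide +kernel⟩

theorem c_A07mm_001_s1 : CertFX 0 536870912 0 536870912 1046898278 26843546 true false false .up 0 0 1
    ndF0q0 ndF7q0 pcF1 cut_A07mm_001_s1 Ext.none :=
  certFX0 (fam := true) (s1 := false) (s2 := false) (a := 0) (b := 0) (c := 1) (cn := .up) (n1 := ndF0q0) (n2 := ndF7q0) (pc := pcF1) (cut := cut_A07mm_001_s1) (xt := Ext.none) (P1 := 0) (W1 := 536870912) (P2 := 0) (W2 := 536870912) (P3 := 1046898278) (W3 := 26843546)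
    rfl k0_A07mm_001_s1

theorem s_A07mm_001_s1 {κ x : ℝ} (hκ : κ * h0 = kenE x) (hx : 39 / 40 ≤ x) (hx' : x < 1) :
    AltVA (VFD κ) (DD x) tKF tL pcF [⟨3, 0, 0, 1449551462⟩] 0 0 1 0 7 (sgb false) (sgb false) x :=
  strip_altVA (d := 1449551462) true rfl hκ (κ0 hκ hx) (x0 hx) hx' (covF00 hx hx') (covF70 hx hx') (x1 hx) (x2 hx') c_A07mm_001_s1 cutVA_nil (noExt_VA)

noncomputable def cut_A07mm_011_s1 : Cut := Cut.of [[⟨4, 0, 0, 1449551462⟩]]

noncomputable def f_A07mm_011_s1 : ℕ → ℕ → ℕ → ℕ → Bool := onCell 0 536870912 536870912 536870912 1046898278 26843546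
    (rowFX 0 true false false .pnn 0 1 1 (qsf 0 536870912 536870912 536870912 1) ndF0q0 ndF7q1 pcF1 cut_A07mm_011_s1 Ext.none)

def k0_A07mm_011_s1 : ∃ t, chk3 f_A07mm_011_s1 t 1 1 1 = true :=
  ⟨(l 4), by decide +kernel⟩

theorem c_A07mm_011_s1 : CertFX 0 536870912 536870912 536870912 1046898278 26843546 true false false .pnn 0 1 1
    ndF0q0 ndF7q1 pcF1 cut_A07mm_011_s1 Ext.none :=
  certFX0 (fam := true) (s1 := false) (s2 := false) (a := 0) (b := 1) (c := 1) (cn := .pnn) (n1 := ndF0q0) (n2 := ndF7q1) (pc := pcF1) (cut := cut_A07mm_011_s1) (xt := Ext.none) (P1 := 0) (W1 := 536870912) (P2 := 536870912) (W2 := 536870912) (P3 := 1046898278) (W3 := 26843546)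
    rfl k0_A07mm_011_s1

theorem s_A07mm_011_s1 {κ x : ℝ} (hκ : κ * h0 = kenE x) (hx : 39 / 40 ≤ x) (hx' : x < 1) :
    AltVA (VFD κ) (DD x) tKF tL pcF [⟨3, 0, 0, 1449551462⟩] 0 1 1 0 7 (sgb false) (sgb false) x :=
  strip_altVA (d := 1449551462) true rfl hκ (κ0 hκ hx) (x0 hx) hx' (covF00 hx hx') (covF71 hx hx') (x1 hx) (x2 hx') c_A07mm_011_s1 cutVA_nil (noExt_VA)

noncomputable def cut_A07mm_012_s1 : Cut := Cut.of [[⟨4, 0, 0, 1449551462⟩]]

noncomputable def f_A07mm_012_s1 : ℕ → ℕ → ℕ → ℕ → Bool := onCell 0 536870912 536870912 536870912 1046898278 26843546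
    (rowFX 0 true false false .pnp 0 1 2 (qsf 0 536870912 536870912 536870912 2) ndF0q0 ndF7q1 pcF2 cut_A07mm_012_s1 Ext.none)

def k0_A07mm_012_s1 : ∃ t, chk3 f_A07mm_012_s1 t 1 1 1 = true :=
  ⟨(l 4), by decide +kernel⟩

theorem c_A07mm_012_s1 : CertFX 0 536870912 536870912 536870912 1046898278 26843546 true false false .pnp 0 1 2
    ndF0q0 ndF7q1 pcF2 cut_A07mm_012_s1 Ext.none :=
  certFX0 (fam := true) (s1 := false) (s2 := false) (a := 0) (b := 1) (c := 2) (cn := .pnp) (n1 := ndF0q0) (n2 := ndF7q1) (pc := pcF2) (cut := cut_A07mm_012_s1) (xt := Ext.none) (P1 := 0) (W1 := 536870912) (P2 := 536870912) (W2 := 536870912) (P3 := 1046898278) (W3 := 26843546)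
    rfl k0_A07mm_012_s1

theorem s_A07mm_012_s1 {κ x : ℝ} (hκ : κ * h0 = kenE x) (hx : 39 / 40 ≤ x) (hx' : x < 1) :
    AltVA (VFD κ) (DD x) tKF tL pcF [⟨3, 0, 0, 1449551462⟩] 0 1 2 0 7 (sgb false) (sgb false) x :=
  strip_altVA (d := 1449551462) true rfl hκ (κ0 hκ hx) (x0 hx) hx' (covF00 hx hx') (covF71 hx hx') (x1 hx) (x2 hx') c_A07mm_012_s1 cutVA_nil (noExt_VA)

noncomputable def cut_A07mm_022_s1 : Cut := Cut.of [[⟨4, 0, 0, 1449551462⟩]]

noncomputable def f_A07mm_022_s1 : ℕ → ℕ → ℕ → ℕ → Bool := onCell 0 536870912 1073741824 536870912 1046898278 26843546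
    (rowFX 0 true false false .pp 0 2 2 (qsf 0 536870912 1073741824 536870912 2) ndF0q0 ndF7q2 pcF2 cut_A07mm_022_s1 Ext.none)

def k0_A07mm_022_s1 : ∃ t, chk3 f_A07mm_022_s1 t 1 1 1 = true :=
  ⟨(l 4), by decide +kernel⟩

theorem c_A07mm_022_s1 : CertFX 0 536870912 1073741824 536870912 1046898278 26843546 true false false .pp 0 2 2
    ndF0q0 ndF7q2 pcF2 cut_A07mm_022_s1 Ext.none :=
  certFX0 (fam := true) (s1 := false) (s2 := false) (a := 0) (b := 2) (c := 2) (cn := .pp) (n1 := ndF0q0) (n2 := ndF7q2) (pc := pcF2) (cut := cut_A07mm_022_s1) (xt := Ext.none) (P1 := 0) (W1 := 536870912) (P2 := 1073741824) (W2 := 536870912) (P3 := 1046898278) (W3 := 26843546)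
    rfl k0_A07mm_022_s1

theorem s_A07mm_022_s1 {κ x : ℝ} (hκ : κ * h0 = kenE x) (hx : 39 / 40 ≤ x) (hx' : x < 1) :
    AltVA (VFD κ) (DD x) tKF tL pcF [⟨3, 0, 0, 1449551462⟩] 0 2 2 0 7 (sgb false) (sgb false) x :=
  strip_altVA (d := 1449551462) true rfl hκ (κ0 hκ hx) (x0 hx) hx' (covF00 hx hx') (covF72 hx hx') (x1 hx) (x2 hx') c_A07mm_022_s1 cutVA_nil (noExt_VA)

noncomputable def cut_A07mm_023_s1 : Cut := Cut.of [[⟨4, 0, 0, 1449551462⟩]]

noncomputable def f_A07mm_023_s1 : ℕ → ℕ → ℕ → ℕ → Bool := onCell 0 536870912 1073741824 536870912 1046898278 26843546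
    (rowFX 0 true false false .up 0 2 3 (qsf 0 536870912 1073741824 536870912 3) ndF0q0 ndF7q2 pcF3 cut_A07mm_023_s1 Ext.none)

def k0_A07mm_023_s1 : ∃ t, chk3 f_A07mm_023_s1 t 1 1 1 = true :=
  ⟨(l 4), by decide +kernel⟩

theorem c_A07mm_023_s1 : CertFX 0 536870912 1073741824 536870912 1046898278 26843546 true false false .up 0 2 3
    ndF0q0 ndF7q2 pcF3 cut_A07mm_023_s1 Ext.none :=
  certFX0 (fam := true) (s1 := false) (s2 := false) (a := 0) (b := 2) (c := 3) (cn := .up) (n1 := ndF0q0) (n2 := ndF7q2) (pc := pcF3) (cut := cut_A07mm_023_s1) (xt := Ext.none) (P1 := 0) (W1 := 536870912) (P2 := 1073741824) (W2 := 536870912) (P3 := 1046898278) (W3 := 26843546)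
    rfl k0_A07mm_023_s1

theorem s_A07mm_023_s1 {κ x : ℝ} (hκ : κ * h0 = kenE x) (hx : 39 / 40 ≤ x) (hx' : x < 1) :
    AltVA (VFD κ) (DD x) tKF tL pcF [⟨3, 0, 0, 1449551462⟩] 0 2 3 0 7 (sgb false) (sgb false) x :=
  strip_altVA (d := 1449551462) true rfl hκ (κ0 hκ hx) (x0 hx) hx' (covF00 hx hx') (covF72 hx hx') (x1 hx) (x2 hx') c_A07mm_023_s1 cutVA_nil (noExt_VA)

noncomputable def cut_A07mm_033_s1 : Cut := Cut.of [[⟨4, 0, 0, 1449551462⟩]]

noncomputable def f_A07mm_033_s1 : ℕ → ℕ → ℕ → ℕ → Bool := onCell 0 536870912 0 1230186008 1046898278 26843546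
    (rowFX 0 true false false .pnn 0 3 3 (qsf 0 536870912 0 1230186008 3) ndF0q0 ndF7q3 pcF3 cut_A07mm_033_s1 Ext.none)

def k0_A07mm_033_s1 : ∃ t, chk3 f_A07mm_033_s1 t 1 1 1 = true :=
  ⟨(l 4), by decide +kernel⟩

theorem c_A07mm_033_s1 : CertFX 0 536870912 0 1230186008 1046898278 26843546 true false false .pnn 0 3 3
    ndF0q0 ndF7q3 pcF3 cut_A07mm_033_s1 Ext.none :=
  certFX0 (fam := true) (s1 := false) (s2 := false) (a := 0) (b := 3) (c := 3) (cn := .pnn) (n1 := ndF0q0) (n2 := ndF7q3) (pc := pcF3) (cut := cut_A07mm_033_s1) (xt := Ext.none) (P1 := 0) (W1 := 536870912) (P2 := 0) (W2 := 1230186008) (P3 := 1046898278) (W3 := 26843546)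
    rfl k0_A07mm_033_s1

theorem s_A07mm_033_s1 {κ x : ℝ} (hκ : κ * h0 = kenE x) (hx : 39 / 40 ≤ x) (hx' : x < 1) :
    AltVA (VFD κ) (DD x) tKF tL pcF [⟨3, 0, 0, 1449551462⟩] 0 3 3 0 7 (sgb false) (sgb false) x :=
  strip_altVA (d := 1449551462) true rfl hκ (κ0 hκ hx) (x0 hx) hx' (covF00 hx hx') (covF73 hx hx') (x1 hx) (x2 hx') c_A07mm_033_s1 cutVA_nil (noExt_VA)

noncomputable def cut_A07mm_101_s1 : Cut := Cut.of [[⟨4, 0, 0, 1449551462⟩]]

noncomputable def f_A07mm_101_s1 : ℕ → ℕ → ℕ → ℕ → Bool := onCell 536870912 536870912 0 536870912 1046898278 26843546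
    (rowFX 0 true false false .npn 1 0 1 (qsf 536870912 536870912 0 536870912 1) ndF0q1 ndF7q0 pcF1 cut_A07mm_101_s1 Ext.none)

def k0_A07mm_101_s1 : ∃ t, chk3 f_A07mm_101_s1 t 1 1 1 = true :=
  ⟨(l 4), by decide +kernel⟩

theorem c_A07mm_101_s1 : CertFX 536870912 536870912 0 536870912 1046898278 26843546 true false false .npn 1 0 1
    ndF0q1 ndF7q0 pcF1 cut_A07mm_101_s1 Ext.none :=
  certFX0 (fam := true) (s1 := false) (s2 := false) (a := 1) (b := 0) (c := 1) (cn := .npn) (n1 := ndF0q1) (n2 := ndF7q0) (pc := pcF1) (cut := cut_A07mm_101_s1) (xt := Ext.none) (P1 := 536870912) (W1 := 536870912) (P2 := 0) (W2 := 536870912) (P3 := 1046898278) (W3 := 26843546)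
    rfl k0_A07mm_101_s1

theorem s_A07mm_101_s1 {κ x : ℝ} (hκ : κ * h0 = kenE x) (hx : 39 / 40 ≤ x) (hx' : x < 1) :
    AltVA (VFD κ) (DD x) tKF tL pcF [⟨3, 0, 0, 1449551462⟩] 1 0 1 0 7 (sgb false) (sgb false) x :=
  strip_altVA (d := 1449551462) true rfl hκ (κ0 hκ hx) (x0 hx) hx' (covF01 hx hx') (covF70 hx hx') (x1 hx) (x2 hx') c_A07mm_101_s1 cutVA_nil (noExt_VA)

noncomputable def cut_A07mm_102_s1 : Cut := Cut.of [[⟨4, 0, 0, 1449551462⟩]]

noncomputable def f_A07mm_102_s1 : ℕ → ℕ → ℕ → ℕ → Bool := onCell 536870912 536870912 0 536870912 1046898278 26843546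
    (rowFX 0 true false false .npp 1 0 2 (qsf 536870912 536870912 0 536870912 2) ndF0q1 ndF7q0 pcF2 cut_A07mm_102_s1 Ext.none)

def k0_A07mm_102_s1 : ∃ t, chk3 f_A07mm_102_s1 t 1 1 1 = true :=
  ⟨(l 4), by decide +kernel⟩

theorem c_A07mm_102_s1 : CertFX 536870912 536870912 0 536870912 1046898278 26843546 true false false .npp 1 0 2
    ndF0q1 ndF7q0 pcF2 cut_A07mm_102_s1 Ext.none :=
  certFX0 (fam := true) (s1 := false) (s2 := false) (a := 1) (b := 0) (c := 2) (cn := .npp) (n1 := ndF0q1) (n2 := ndF7q0) (pc := pcF2) (cut := cut_A07mm_102_s1) (xt := Ext.none) (P1 := 536870912) (W1 := 536870912) (P2 := 0) (W2 := 536870912) (P3 := 1046898278) (W3 := 26843546)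
    rfl k0_A07mm_102_s1

theorem s_A07mm_102_s1 {κ x : ℝ} (hκ : κ * h0 = kenE x) (hx : 39 / 40 ≤ x) (hx' : x < 1) :
    AltVA (VFD κ) (DD x) tKF tL pcF [⟨3, 0, 0, 1449551462⟩] 1 0 2 0 7 (sgb false) (sgb false) x :=
  strip_altVA (d := 1449551462) true rfl hκ (κ0 hκ hx) (x0 hx) hx' (covF01 hx hx') (covF70 hx hx') (x1 hx) (x2 hx') c_A07mm_102_s1 cutVA_nil (noExt_VA)

noncomputable def cut_A07mm_112_s1 : Cut := Cut.of [[⟨4, 0, 0, 1449551462⟩]]

noncomputable def f_A07mm_112_s1 : ℕ → ℕ → ℕ → ℕ → Bool := onCell 536870912 536870912 536870912 536870912 1046898278 26843546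
    (rowFX 0 true false false .dn 1 1 2 (qsf 536870912 536870912 536870912 536870912 2) ndF0q1 ndF7q1 pcF2 cut_A07mm_112_s1 Ext.none)

def k0_A07mm_112_s1 : ∃ t, chk3 f_A07mm_112_s1 t 1 1 1 = true :=
  ⟨(l 4), by decide +kernel⟩

theorem c_A07mm_112_s1 : CertFX 536870912 536870912 536870912 536870912 1046898278 26843546 true false false .dn 1 1 2
    ndF0q1 ndF7q1 pcF2 cut_A07mm_112_s1 Ext.none :=
  certFX0 (fam := true) (s1 := false) (s2 := false) (a := 1) (b := 1) (c := 2) (cn := .dn) (n1 := ndF0q1) (n2 := ndF7q1) (pc := pcF2) (cut := cut_A07mm_112_s1) (xt := Ext.none) (P1 := 536870912) (W1 := 536870912) (P2 := 536870912) (W2 := 536870912) (P3 := 1046898278) (W3 := 26843546)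
    rfl k0_A07mm_112_s1

theorem s_A07mm_112_s1 {κ x : ℝ} (hκ : κ * h0 = kenE x) (hx : 39 / 40 ≤ x) (hx' : x < 1) :
    AltVA (VFD κ) (DD x) tKF tL pcF [⟨3, 0, 0, 1449551462⟩] 1 1 2 0 7 (sgb false) (sgb false) x :=
  strip_altVA (d := 1449551462) true rfl hκ (κ0 hκ hx) (x0 hx) hx' (covF01 hx hx') (covF71 hx hx') (x1 hx) (x2 hx') c_A07mm_112_s1 cutVA_nil (noExt_VA)

noncomputable def cut_A07mm_113_s1 : Cut := Cut.of [[⟨4, 0, 0, 1449551462⟩]]

noncomputable def f_A07mm_113_s1 : ℕ → ℕ → ℕ → ℕ → Bool := onCell 536870912 536870912 536870912 536870912 1046898278 26843546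
    (rowFX 0 true false false .nn 1 1 3 (qsf 536870912 536870912 536870912 536870912 3) ndF0q1 ndF7q1 pcF3 cut_A07mm_113_s1 Ext.none)

def k0_A07mm_113_s1 : ∃ t, chk3 f_A07mm_113_s1 t 1 1 1 = true :=
  ⟨(l 4), by decide +kernel⟩

theorem c_A07mm_113_s1 : CertFX 536870912 536870912 536870912 536870912 1046898278 26843546 true false false .nn 1 1 3
    ndF0q1 ndF7q1 pcF3 cut_A07mm_113_s1 Ext.none :=
  certFX0 (fam := true) (s1 := false) (s2 := false) (a := 1) (b := 1) (c := 3) (cn := .nn) (n1 := ndF0q1) (n2 := ndF7q1) (pc := pcF3) (cut := cut_A07mm_113_s1) (xt := Ext.none) (P1 := 536870912) (W1 := 536870912) (P2 := 536870912) (W2 := 536870912) (P3 := 1046898278) (W3 := 26843546)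
    rfl k0_A07mm_113_s1

theorem s_A07mm_113_s1 {κ x : ℝ} (hκ : κ * h0 = kenE x) (hx : 39 / 40 ≤ x) (hx' : x < 1) :
    AltVA (VFD κ) (DD x) tKF tL pcF [⟨3, 0, 0, 1449551462⟩] 1 1 3 0 7 (sgb false) (sgb false) x :=
  strip_altVA (d := 1449551462) true rfl hκ (κ0 hκ hx) (x0 hx) hx' (covF01 hx hx') (covF71 hx hx') (x1 hx) (x2 hx') c_A07mm_113_s1 cutVA_nil (noExt_VA)

noncomputable def cut_A07mm_123_s1 : Cut := Cut.of [[⟨4, 0, 0, 1449551462⟩]]

noncomputable def f_A07mm_123_s1 : ℕ → ℕ → ℕ → ℕ → Bool := onCell 536870912 536870912 1073741824 536870912 1046898278 26843546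
    (rowFX 0 true false false .npn 1 2 3 (qsf 536870912 536870912 1073741824 536870912 3) ndF0q1 ndF7q2 pcF3 cut_A07mm_123_s1 Ext.none)

def k0_A07mm_123_s1 : ∃ t, chk3 f_A07mm_123_s1 t 1 1 1 = true :=
  ⟨(l 4), by decide +kernel⟩

theorem c_A07mm_123_s1 : CertFX 536870912 536870912 1073741824 536870912 1046898278 26843546 true false false .npn 1 2 3
    ndF0q1 ndF7q2 pcF3 cut_A07mm_123_s1 Ext.none :=
  certFX0 (fam := true) (s1 := false) (s2 := false) (a := 1) (b := 2) (c := 3) (cn := .npn) (n1 := ndF0q1) (n2 := ndF7q2) (pc := pcF3) (cut := cut_A07mm_123_s1) (xt := Ext.none) (P1 := 536870912) (W1 := 536870912) (P2 := 1073741824) (W2 := 536870912) (P3 := 1046898278) (W3 := 26843546)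
    rfl k0_A07mm_123_s1

theorem s_A07mm_123_s1 {κ x : ℝ} (hκ : κ * h0 = kenE x) (hx : 39 / 40 ≤ x) (hx' : x < 1) :
    AltVA (VFD κ) (DD x) tKF tL pcF [⟨3, 0, 0, 1449551462⟩] 1 2 3 0 7 (sgb false) (sgb false) x :=
  strip_altVA (d := 1449551462) true rfl hκ (κ0 hκ hx) (x0 hx) hx' (covF01 hx hx') (covF72 hx hx') (x1 hx) (x2 hx') c_A07mm_123_s1 cutVA_nil (noExt_VA)

noncomputable def cut_A07mm_133_s1 : Cut := Cut.of [[⟨4, 0, 0, 1449551462⟩]]

noncomputable def f_A07mm_133_s1 : ℕ → ℕ → ℕ → ℕ → Bool := onCell 536870912 536870912 0 1230186008 1046898278 26843546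
    (rowFX 0 true false false .dn 1 3 3 (qsf 536870912 536870912 0 1230186008 3) ndF0q1 ndF7q3 pcF3 cut_A07mm_133_s1 Ext.none)

def k0_A07mm_133_s1 : ∃ t, chk3 f_A07mm_133_s1 t 1 1 1 = true :=
  ⟨(l 4), by decide +kernel⟩

theorem c_A07mm_133_s1 : CertFX 536870912 536870912 0 1230186008 1046898278 26843546 true false false .dn 1 3 3
    ndF0q1 ndF7q3 pcF3 cut_A07mm_133_s1 Ext.none :=
  certFX0 (fam := true) (s1 := false) (s2 := false) (a := 1) (b := 3) (c := 3) (cn := .dn) (n1 := ndF0q1) (n2 := ndF7q3) (pc := pcF3) (cut := cut_A07mm_133_s1) (xt := Ext.none) (P1 := 536870912) (W1 := 536870912) (P2 := 0) (W2 := 1230186008) (P3 := 1046898278) (W3 := 26843546)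
    rfl k0_A07mm_133_s1

theorem s_A07mm_133_s1 {κ x : ℝ} (hκ : κ * h0 = kenE x) (hx : 39 / 40 ≤ x) (hx' : x < 1) :
    AltVA (VFD κ) (DD x) tKF tL pcF [⟨3, 0, 0, 1449551462⟩] 1 3 3 0 7 (sgb false) (sgb false) x :=
  strip_altVA (d := 1449551462) true rfl hκ (κ0 hκ hx) (x0 hx) hx' (covF01 hx hx') (covF73 hx hx') (x1 hx) (x2 hx') c_A07mm_133_s1 cutVA_nil (noExt_VA)

noncomputable def cut_A07mm_202_s1 : Cut := Cut.of [[⟨4, 0, 0, 1449551462⟩]]

noncomputable def f_A07mm_202_s1 : ℕ → ℕ → ℕ → ℕ → Bool := onCell 0 536870912 0 536870912 1046898278 26843546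
    (rowFX 0 true false false .pp 2 0 2 (qsf 0 536870912 0 536870912 2) ndF0q2 ndF7q0 pcF2 cut_A07mm_202_s1 Ext.none)

def k0_A07mm_202_s1 : ∃ t, chk3 f_A07mm_202_s1 t 1 1 1 = true :=
  ⟨(l 4), by decide +kernel⟩

theorem c_A07mm_202_s1 : CertFX 0 536870912 0 536870912 1046898278 26843546 true false false .pp 2 0 2
    ndF0q2 ndF7q0 pcF2 cut_A07mm_202_s1 Ext.none :=
  certFX0 (fam := true) (s1 := false) (s2 := false) (a := 2) (b := 0) (c := 2) (cn := .pp) (n1 := ndF0q2) (n2 := ndF7q0) (pc := pcF2) (cut := cut_A07mm_202_s1) (xt := Ext.none) (P1 := 0) (W1 := 536870912) (P2 := 0) (W2 := 536870912) (P3 := 1046898278) (W3 := 26843546)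
    rfl k0_A07mm_202_s1

theorem s_A07mm_202_s1 {κ x : ℝ} (hκ : κ * h0 = kenE x) (hx : 39 / 40 ≤ x) (hx' : x < 1) :
    AltVA (VFD κ) (DD x) tKF tL pcF [⟨3, 0, 0, 1449551462⟩] 2 0 2 0 7 (sgb false) (sgb false) x :=
  strip_altVA (d := 1449551462) true rfl hκ (κ0 hκ hx) (x0 hx) hx' (covF02 hx hx') (covF70 hx hx') (x1 hx) (x2 hx') c_A07mm_202_s1 cutVA_nil (noExt_VA)

noncomputable def cut_A07mm_203_s1 : Cut := Cut.of [[⟨4, 0, 0, 1449551462⟩]]

noncomputable def f_A07mm_203_s1 : ℕ → ℕ → ℕ → ℕ → Bool := onCell 0 536870912 0 536870912 1046898278 26843546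
    (rowFX 0 true false false .up 2 0 3 (qsf 0 536870912 0 536870912 3) ndF0q2 ndF7q0 pcF3 cut_A07mm_203_s1 Ext.none)

def k0_A07mm_203_s1 : ∃ t, chk3 f_A07mm_203_s1 t 1 1 1 = true :=
  ⟨(l 4), by decide +kernel⟩

theorem c_A07mm_203_s1 : CertFX 0 536870912 0 536870912 1046898278 26843546 true false false .up 2 0 3
    ndF0q2 ndF7q0 pcF3 cut_A07mm_203_s1 Ext.none :=
  certFX0 (fam := true) (s1 := false) (s2 := false) (a := 2) (b := 0) (c := 3) (cn := .up) (n1 := ndF0q2) (n2 := ndF7q0) (pc := pcF3) (cut := cut_A07mm_203_s1) (xt := Ext.none) (P1 := 0) (W1 := 536870912) (P2 := 0) (W2 := 536870912) (P3 := 1046898278) (W3 := 26843546)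
    rfl k0_A07mm_203_s1

theorem s_A07mm_203_s1 {κ x : ℝ} (hκ : κ * h0 = kenE x) (hx : 39 / 40 ≤ x) (hx' : x < 1) :
    AltVA (VFD κ) (DD x) tKF tL pcF [⟨3, 0, 0, 1449551462⟩] 2 0 3 0 7 (sgb false) (sgb false) x :=
  strip_altVA (d := 1449551462) true rfl hκ (κ0 hκ hx) (x0 hx) hx' (covF02 hx hx') (covF70 hx hx') (x1 hx) (x2 hx') c_A07mm_203_s1 cutVA_nil (noExt_VA)

noncomputable def cut_A07mm_213_s1 : Cut := Cut.of [[⟨4, 0, 0, 1449551462⟩]]

noncomputable def f_A07mm_213_s1 : ℕ → ℕ → ℕ → ℕ → Bool := onCell 0 536870912 536870912 536870912 1046898278 26843546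
    (rowFX 0 true false false .pnn 2 1 3 (qsf 0 536870912 536870912 536870912 3) ndF0q2 ndF7q1 pcF3 cut_A07mm_213_s1 Ext.none)

def k0_A07mm_213_s1 : ∃ t, chk3 f_A07mm_213_s1 t 1 1 1 = true :=
  ⟨(l 4), by decide +kernel⟩

theorem c_A07mm_213_s1 : CertFX 0 536870912 536870912 536870912 1046898278 26843546 true false false .pnn 2 1 3
    ndF0q2 ndF7q1 pcF3 cut_A07mm_213_s1 Ext.none :=
  certFX0 (fam := true) (s1 := false) (s2 := false) (a := 2) (b := 1) (c := 3) (cn := .pnn) (n1 := ndF0q2) (n2 := ndF7q1) (pc := pcF3) (cut := cut_A07mm_213_s1) (xt := Ext.none) (P1 := 0) (W1 := 536870912) (P2 := 536870912) (W2 := 536870912) (P3 := 1046898278) (W3 := 26843546)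
    rfl k0_A07mm_213_s1

theorem s_A07mm_213_s1 {κ x : ℝ} (hκ : κ * h0 = kenE x) (hx : 39 / 40 ≤ x) (hx' : x < 1) :
    AltVA (VFD κ) (DD x) tKF tL pcF [⟨3, 0, 0, 1449551462⟩] 2 1 3 0 7 (sgb false) (sgb false) x :=
  strip_altVA (d := 1449551462) true rfl hκ (κ0 hκ hx) (x0 hx) hx' (covF02 hx hx') (covF71 hx hx') (x1 hx) (x2 hx') c_A07mm_213_s1 cutVA_nil (noExt_VA)

noncomputable def cut_B00pp_001_s1 : Cut := Cut.of [[⟨4, 0, 0, 1449551462⟩]]

noncomputable def f_B00pp_001_s1 : ℕ → ℕ → ℕ → ℕ → Bool := onCell 0 536870912 536870912 536870912 1046898278 26843546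
    (rowFX 0 false true true .up 0 0 1 (qsf 0 536870912 536870912 536870912 0) ndF0q0 ndF0q1 pcF0 cut_B00pp_001_s1 Ext.none)

def k0_B00pp_001_s1 : ∃ t, chk3 f_B00pp_001_s1 t 1 1 1 = true :=
  ⟨(b (l 3) (a (b (l 3) (l 2)) (l 3))), by decide +kernel⟩

theorem c_B00pp_001_s1 : CertFX 0 536870912 536870912 536870912 1046898278 26843546 false true true .up 0 0 1
    ndF0q0 ndF0q1 pcF0 cut_B00pp_001_s1 Ext.none :=
  certFX0 (fam := false) (s1 := true) (s2 := true) (a := 0) (b := 0) (c := 1) (cn := .up) (n1 := ndF0q0) (n2 := ndF0q1) (pc := pcF0) (cut := cut_B00pp_001_s1) (xt := Ext.none) (P1 := 0) (W1 := 536870912) (P2 := 536870912) (W2 := 536870912) (P3 := 1046898278) (W3 := 26843546)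
    rfl k0_B00pp_001_s1

theorem s_B00pp_001_s1 {κ x : ℝ} (hκ : κ * h0 = kenE x) (hx : 39 / 40 ≤ x) (hx' : x < 1) :
    AltVB (VFD κ) (DD x) tKF tL pcF [⟨3, 0, 0, 1449551462⟩] 0 0 1 0 0 (sgb true) (sgb true) x :=
  strip_altVB (d := 1449551462) true rfl hκ (κ0 hκ hx) (x0 hx) hx' (covF00 hx hx') (covF01 hx hx') (x1 hx) (x2 hx') c_B00pp_001_s1 cutVB_nil (noExt_VB)

noncomputable def cut_B00pp_001_s3 : Cut := Cut.of [[⟨3, 0, 0, 2845415833⟩]]

noncomputable def f_B00pp_001_s3 : ℕ → ℕ → ℕ → ℕ → Bool := onCell 0 536870912 536870912 536870912 1046898278 26843546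
    (rowFX 0 false true true .up 0 0 1 (qsf 0 536870912 536870912 536870912 0) ndF0q0 ndF0q1 pcF0 cut_B00pp_001_s3 Ext.none)

def k0_B00pp_001_s3 : ∃ t, chk3 f_B00pp_001_s3 t 1 1 1 = true :=
  ⟨(l 6), by decide +kernel⟩

theorem c_B00pp_001_s3 : CertFX 0 536870912 536870912 536870912 1046898278 26843546 false true true .up 0 0 1
    ndF0q0 ndF0q1 pcF0 cut_B00pp_001_s3 Ext.none :=
  certFX0 (fam := false) (s1 := true) (s2 := true) (a := 0) (b := 0) (c := 1) (cn := .up) (n1 := ndF0q0) (n2 := ndF0q1) (pc := pcF0) (cut := cut_B00pp_001_s3) (xt := Ext.none) (P1 := 0) (W1 := 536870912) (P2 := 536870912) (W2 := 536870912) (P3 := 1046898278) (W3 := 26843546)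
    rfl k0_B00pp_001_s3

theorem s_B00pp_001_s3 {κ x : ℝ} (hκ : κ * h0 = kenE x) (hx : 39 / 40 ≤ x) (hx' : x < 1) :
    AltVB (VFD κ) (DD x) tKF tL pcF [⟨4, 0, 0, 2845415833⟩] 0 0 1 0 0 (sgb true) (sgb true) x :=
  strip_altVB (d := 2845415833) false rfl hκ (κ0 hκ hx) (x0 hx) hx' (covF00 hx hx') (covF01 hx hx') (x1 hx) (x2 hx') c_B00pp_001_s3 cutVB_nil (noExt_VB)

noncomputable def cut_B00pp_011_s1 : Cut := Cut.of [[⟨4, 0, 0, 1449551462⟩], [⟨0, 0, 0, 67108864⟩, ⟨1, 1, 0, 67108864⟩, ⟨2, 1, 0, 67108864⟩, ⟨3, 0, 0, 1233125376⟩]]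

noncomputable def f_B00pp_011_s1 : ℕ → ℕ → ℕ → ℕ → Bool := onCell 0 536870912 536870912 536870912 1046898278 26843546
    (rowFX 0 false true true .pnn 0 1 1 (qsf 0 536870912 536870912 536870912 1) ndF0q0 ndF0q1 pcF1 cut_B00pp_011_s1 Ext.none)

def k0_B00pp_011_s1 : ∃ t, chk3 f_B00pp_011_s1 t 1 1 1 = true :=
  ⟨(b (l 3) (a (b (l 3) (a (b (l 3) (a (a (a (b (l 3) (l 14)) (l 3)) (l 3)) (l 3))) (l 3))) (l 3))), by decide +kernel⟩

theorem c_B00pp_011_s1 : CertFX 0 536870912 536870912 536870912 1046898278 26843546 false true true .pnn 0 1 1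
    ndF0q0 ndF0q1 pcF1 cut_B00pp_011_s1 Ext.none :=
  certFX0 (fam := false) (s1 := true) (s2 := true) (a := 0) (b := 1) (c := 1) (cn := .pnn) (n1 := ndF0q0) (n2 := ndF0q1) (pc := pcF1) (cut := cut_B00pp_011_s1) (xt := Ext.none) (P1 := 0) (W1 := 536870912) (P2 := 536870912) (W2 := 536870912) (P3 := 1046898278) (W3 := 26843546)
    rfl k0_B00pp_011_s1

theorem s_B00pp_011_s1 {κ x : ℝ} (hκ : κ * h0 = kenE x) (hx : 39 / 40 ≤ x) (hx' : x < 1)
    (H : CutVB (VFD κ) (DD x) tKF tL pcF (Cut.of [[⟨0, 0, 0, 67108864⟩, ⟨1, 1, 0, 67108864⟩, ⟨2, 1, 0, 67108864⟩, ⟨3, 0, 0, 1233125376⟩]]) 0 1 1 0 0 (sgb true) (sgb true) x) :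
    AltVB (VFD κ) (DD x) tKF tL pcF [⟨3, 0, 0, 1449551462⟩] 0 1 1 0 0 (sgb true) (sgb true) x :=
  strip_altVB (d := 1449551462) true rfl hκ (κ0 hκ hx) (x0 hx) hx' (covF00 hx hx') (covF01 hx hx') (x1 hx) (x2 hx') c_B00pp_011_s1 H (noExt_VB)

noncomputable def cut_B00pp_011_s3 : Cut := Cut.of [[⟨3, 0, 0, 2845415833⟩], [⟨0, 0, 0, 67108864⟩, ⟨1, 1, 0, 67108864⟩, ⟨2, 1, 0, 67108864⟩, ⟨3, 0, 0, 1233125376⟩]]

noncomputable def f_B00pp_011_s3 : ℕ → ℕ → ℕ → ℕ → Bool := onCell 0 536870912 536870912 536870912 1046898278 26843546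
    (rowFX 0 false true true .pnn 0 1 1 (qsf 0 536870912 536870912 536870912 1) ndF0q0 ndF0q1 pcF1 cut_B00pp_011_s3 Ext.none)

def k0_B00pp_011_s3 : ∃ t, chk3 f_B00pp_011_s3 t 1 1 1 = true :=
  ⟨(l 6), by decide +kernel⟩

theorem c_B00pp_011_s3 : CertFX 0 536870912 536870912 536870912 1046898278 26843546 false true true .pnn 0 1 1
    ndF0q0 ndF0q1 pcF1 cut_B00pp_011_s3 Ext.none :=
  certFX0 (fam := false) (s1 := true) (s2 := true) (a := 0) (b := 1) (c := 1) (cn := .pnn) (n1 := ndF0q0) (n2 := ndF0q1) (pc := pcF1) (cut := cut_B00pp_011_s3) (xt := Ext.none) (P1 := 0) (W1 := 536870912) (P2 := 536870912) (W2 := 536870912) (P3 := 1046898278) (W3 := 26843546)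
    rfl k0_B00pp_011_s3

theorem s_B00pp_011_s3 {κ x : ℝ} (hκ : κ * h0 = kenE x) (hx : 39 / 40 ≤ x) (hx' : x < 1)
    (H : CutVB (VFD κ) (DD x) tKF tL pcF (Cut.of [[⟨0, 0, 0, 67108864⟩, ⟨1, 1, 0, 67108864⟩, ⟨2, 1, 0, 67108864⟩, ⟨3, 0, 0, 1233125376⟩]]) 0 1 1 0 0 (sgb true) (sgb true) x) :
    AltVB (VFD κ) (DD x) tKF tL pcF [⟨4, 0, 0, 2845415833⟩] 0 1 1 0 0 (sgb true) (sgb true) x :=
  strip_altVB (d := 2845415833) false rfl hκ (κ0 hκ hx) (x0 hx) hx' (covF00 hx hx') (covF01 hx hx') (x1 hx) (x2 hx') c_B00pp_011_s3 H (noExt_VB)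

noncomputable def cut_B00pp_012_s3 : Cut := Cut.of [[⟨3, 0, 0, 2845415833⟩], [⟨0, 0, 0, 67108864⟩, ⟨1, 1, 0, 67108864⟩, ⟨2, 1, 0, 67108864⟩, ⟨3, 0, 0, 1233125376⟩]]

noncomputable def f_B00pp_012_s3 : ℕ → ℕ → ℕ → ℕ → Bool := onCell 0 536870912 0 536870912 1046898278 26843546
    (rowFX 0 false true true .pnp 0 1 2 (qsf 0 536870912 0 536870912 1) ndF0q0 ndF0q2 pcF1 cut_B00pp_012_s3 Ext.none)

def k0_B00pp_012_s3 : ∃ t, chk3 f_B00pp_012_s3 t 1 1 1 = true :=
  ⟨(l 6), by decide +kernel⟩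

theorem c_B00pp_012_s3 : CertFX 0 536870912 0 536870912 1046898278 26843546 false true true .pnp 0 1 2
    ndF0q0 ndF0q2 pcF1 cut_B00pp_012_s3 Ext.none :=
  certFX0 (fam := false) (s1 := true) (s2 := true) (a := 0) (b := 1) (c := 2) (cn := .pnp) (n1 := ndF0q0) (n2 := ndF0q2) (pc := pcF1) (cut := cut_B00pp_012_s3) (xt := Ext.none) (P1 := 0) (W1 := 536870912) (P2 := 0) (W2 := 536870912) (P3 := 1046898278) (W3 := 26843546)
    rfl k0_B00pp_012_s3

theorem s_B00pp_012_s3 {κ x : ℝ} (hκ : κ * h0 = kenE x) (hx : 39 / 40 ≤ x) (hx' : x < 1)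
    (H : CutVB (VFD κ) (DD x) tKF tL pcF (Cut.of [[⟨0, 0, 0, 67108864⟩, ⟨1, 1, 0, 67108864⟩, ⟨2, 1, 0, 67108864⟩, ⟨3, 0, 0, 1233125376⟩]]) 0 1 2 0 0 (sgb true) (sgb true) x) :
    AltVB (VFD κ) (DD x) tKF tL pcF [⟨4, 0, 0, 2845415833⟩] 0 1 2 0 0 (sgb true) (sgb true) x :=
  strip_altVB (d := 2845415833) false rfl hκ (κ0 hκ hx) (x0 hx) hx' (covF00 hx hx') (covF02 hx hx') (x1 hx) (x2 hx') c_B00pp_012_s3 H (noExt_VB)

noncomputable def cut_B00pp_022_s1 : Cut := Cut.of [[⟨4, 0, 0, 1449551462⟩], [⟨0, 0, 0, 67108864⟩, ⟨1, 1, 0, 67108864⟩, ⟨2, 1, 0, 67108864⟩, ⟨3, 0, 0, 1233125376⟩]]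

noncomputable def f_B00pp_022_s1 : ℕ → ℕ → ℕ → ℕ → Bool := onCell 1073741824 536870912 0 536870912 1046898278 26843546
    (rowFX 2 false true true .pp 0 2 2 (qsf 0 536870912 0 536870912 2) ndF0q0 ndF0q2 pcF2 cut_B00pp_022_s1 Ext.none)

def k0_B00pp_022_s1 : ∃ t, chk3 f_B00pp_022_s1 t 4 2 1 = true :=
  ⟨(a (a (b (l 6) (b (l 6) (b (l 6) (c (a (c (l 16323360) (l 16318072)) (l 16302656)) (a (c (l 16312784) (l 16307496)) (l 16292248)))))) (b (l 6) (l 6))) (l 6)), by decide +kernel⟩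

def k1_B00pp_022_s1 : ∃ t, chk3 f_B00pp_022_s1 t 8 12 1 = true :=
  ⟨(c (a (b (a (c (l 16195016) (l 16187864)) (c (l 16184984) (l 16178024))) (a (c (l 16045888) (l 16036648)) (c (l 16051480) (l 16042608)))) (b (a (b (l 16200280) (l 16147424)) (c (l 16105904) (l 16199752))) (c (a (b (l 16101104) (l 15962776)) (a (l 16011632) (l 16025480))) (a (l 16073648) (l 16037808))))) (a (b (a (c (l 16180712) (l 16173560)) (c (l 16171056) (l 16164096))) (a (c (l 16027400) (l 16018160)) (b (l 16064016) (l 15992664)))) (b (a (b (l 16187600) (l 16135728)) (l 16189600)) (b (l 16111392) (l 16067688))))), by decide +kernel⟩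

def k2_B00pp_022_s1 : ∃ t, chk3 f_B00pp_022_s1 t 8 26 1 = true :=
  ⟨(c (a (a (b (c (l 15939256) (l 15928536)) (c (b (l 15919176) (a (l 15901040) (l 15872368))) (b (l 15908168) (l 15896696)))) (b (b (l 15962472) (a (l 15941160) (l 15970856))) (c (a (b (l 15943552) (l 15902104)) (c (b (l 15892760) (c (b (l 15887152) (l 15885632)) (l 15895304))) (l 15978448))) (l 15868608)))) (a (c (b (b (c (l 16006472) (l 16013816)) (c (l 16001576) (l 16013472))) (c (a (b (l 15993992) (b (l 15908024) (l 15906160))) (b (l 16007312) (l 16006736))) (b (a (l 16008904) (l 16027448)) (a (l 16006416) (l 16026600))))) (b (l 16017904) (c (a (l 16012160) (l 16040008)) (l 16026848)))) (c (b (b (l 15960640) (l 16045568)) (b (l 16050936) (a (l 16040256) (l 16074200)))) (b (b (l 16069488) (l 15989120)) (a (c (l 16063976) (l 16075952)) (c (l 16083616) (l 16100344))))))) (a (b (a (c (l 15917824) (l 15907112)) (c (l 15945288) (l 15935208))) (a (c (l 15891648)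 (l 15880568)) (c (l 15942344) (l 15932192)))) (a (b (l 16004240) (l 16016040)) (c (b (l 16079336) (a (l 16080248) (l 16112032))) (l 16081208))))), by decide +kernel⟩

def k3_B00pp_022_s1 : ∃ t, chk3 f_B00pp_022_s1 t 32 27 4 = true :=
  ⟨(a (a (b (b (b (a (c (l 15847200) (l 15883360)) (l 15889240)) (c (c (l 15852736) (l 15807920)) (l 15803584))) (c (c (l 15830824) (l 15911912)) (l 15823816))) (c (b (c (l 15858688) (l 15855984)) (l 15891088)) (b (l 15851920) (l 15885904)))) (b (b (b (l 15894048) (c (b (a (l 15851032) (l 15853416)) (l 15815288)) (l 15807048))) (c (c (b (l 15825184) (l 15838032)) (l 15829192)) (l 15825016))) (c (b (c (l 15861400) (l 15858720)) (l 15894936)) (c (l 15957400) (l 15954768))))) (b (a (b (b (l 15900872) (c (c (b (a (l 15815512) (l 15862928)) (l 15864936)) (a (l 15814800) (a (l 15818504) (b (l 15862184) (l 15825496))))) (a (c (l 15811976) (l 15809152)) (c (a (l 15857648) (l 15820064)) (l 15815248)))))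 (a (c (l 15898608) (l 15830184)) (c (c (l 15927904) (l 15883264)) (c (l 15838696) (l 15920024))))) (b (b (l 15915072) (c (c (a (a (a (c (l 15871752) (l 15870368)) (b (l 15871160) (l 15833832))) (l 15877064)) (l 15894848)) (l 15834976)) (l 15830912))) (c (c (a (a (c (l 15850320) (l 15849032)) (l 15937592)) (l 15859824)) (l 15937184)) (l 15933504)))) (c (a (c (b (l 15870712) (c (l 15898424) (l 15900000))) (a (l 15965264) (l 15927376))) (c (b (a (c (a (l 15877336) (l 15879264)) (l 15878312)) (c (l 15880480) (l 15883472))) (a (c (a (l 15897344) (l 15979656)) (l 15901400)) (l 15894576))) (b (l 15964024) (l 15904264)))) (a (a (l 15961392) (c (l 15967032) (l 15964936))) (l 15974632))))), by decide +kernel⟩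

def k4_B00pp_022_s1 : ∃ t, chk3 f_B00pp_022_s1 t 32 27 5 = true :=
  ⟨(a (b (b (c (b (l 15840552) (l 15862544)) (a (l 15854104) (b (l 15879816) (c (l 15797088) (l 15794248))))) (c (l 15860912) (a (l 15896496) (l 15866376)))) (c (a (l 15948184) (l 15950832)) (a (l 15942888) (a (l 15943808) (l 15947392))))) (b (b (b (l 15897368) (c (a (a (c (l 15806336) (l 15803528)) (l 15894984)) (l 15909368)) (a (l 15802968) (l 15903952)))) (c (a (a (l 15908720) (l 15916288)) (l 15928608)) (a (l 15907520) (l 15923792)))) (c (a (a (l 15956648) (l 15962072)) (l 15970904)) (a (l 15955400) (l 15967408))))), by decide +kernel⟩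

def k5_B00pp_022_s1 : ∃ t, chk3 f_B00pp_022_s1 t 33 27 8 = true :=
  ⟨(a (b (b (a (b (l 15937888) (b (l 15938504) (a (l 15852128) (b (l 15902400) (l 15904680))))) (b (l 15914200) (c (b (c (l 15912776) (l 15874040)) (c (a (c (l 15867952) (l 15870504)) (l 15954624)) (a (l 15871640) (l 15877512)))) (b (l 15957728) (c (l 15938480) (l 15874688)))))) (c (b (a (a (l 15862104) (c (l 15910424) (l 15954168))) (c (l 15912880) (l 15929384))) (a (c (l 15924768) (l 15875616)) (a (l 15877120) (l 15960272)))) (a (l 15870048) (a (l 15881336) (c (b (l 15884256) (l 15888520)) (l 15889144)))))) (c (b (a (a (l 15945624) (l 15923184)) (c (l 15877216) (l 15884312))) (a (l 15892176) (l 15888808))) (a (b (l 15932048) (c (l 15901392) (l 15908832))) (b (c (l 15932520) (l 15939808)) (l 15901960))))) (b (a (b (b (c (l 15882216) (l 15974272)) (c (b (l 15878040) (a (a (a (l 15917080) (l 15917200)) (l 15917392)) (l 15928648))) (b (l 15889656) (c (l 15887176)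 (l 15891664))))) (c (a (c (b (c (l 15910736) (l 15872736)) (l 15925040)) (l 15921400)) (c (l 15915936) (l 15880328))) (c (l 15928832) (l 15894000)))) (b (b (c (l 15970000) (l 15898056)) (c (c (b (l 15963128) (l 15930112)) (l 15926552)) (l 15937120))) (c (b (c (l 15920272) (l 15925400)) (l 15883208)) (b (l 15893472) (l 15894312))))) (b (c (a (c (a (l 15877784) (l 15964280)) (l 15926560)) (l 15971104)) (a (l 15894912) (l 15897328))) (c (a (l 15931560) (l 15976592)) (l 15901720))))), by decide +kernel⟩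

def k6_B00pp_022_s1 : ∃ t, chk3 f_B00pp_022_s1 t 33 27 9 = true :=
  ⟨(b (a (b (a (c (l 15893008) (l 15890368)) (a (b (l 15947824) (l 15928552)) (l 15874992))) (a (l 15866456) (c (l 15927072) (l 15966776)))) (b (b (l 15898192) (c (a (l 15892304) (l 15906920)) (l 15984208))) (c (a (l 15940944) (a (l 15906424) (l 15907936))) (a (l 15985128) (l 15915736))))) (a (a (b (l 15890848) (l 15955080)) (c (b (a (l 15901200) (l 15905512)) (a (l 15915880) (l 15914008))) (l 15996808))) (a (b (c (l 15906072) (l 15916496)) (l 15960416)) (c (l 15912280) (l 15923344))))), by decide +kernel⟩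

def k7_B00pp_022_s1 : ∃ t, chk3 f_B00pp_022_s1 t 33 27 5 = true :=
  ⟨(b (b (b (l 15955504) (a (a (c (l 15845360) (l 15923992)) (l 15863168)) (c (l 15980776) (l 15975928)))) (c (a (c (l 15955632) (l 15953376)) (l 15991512)) (a (l 15950048) (l 15987040)))) (c (a (a (l 15983472) (l 15997208)) (c (b (l 16007792) (l 16017448)) (l 16016520))) (a (l 15987560) (l 16016552)))), by decide +kernel⟩

def k8_B00pp_022_s1 : ∃ t, chk3 f_B00pp_022_s1 t 16 27 3 = true :=
  ⟨(a (c (a (b (a (b (c (l 15785440) (l 15863576)) (l 15888104)) (b (b (l 15871272) (c (l 15873904) (l 15868288))) (c (l 15892488) (l 15887344)))) (a (c (l 15937592) (l 15932352)) (c (l 15857248) (l 15937016)))) (b (b (b (l 15886264) (c (a (l 15881304) (l 15898552)) (l 15884880))) (c (l 15910856) (l 15906184))) (c (l 15958088) (l 15955112)))) (a (b (c (a (b (b (l 15856160) (l 15858816)) (l 15879872)) (b (l 15863200) (l 15882456))) (a (b (c (l 15853544) (l 15850696)) (l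 15874672)) (b (l 15857576) (l 15877480)))) (a (c (l 15927512) (a (l 15921576) (l 15923168))) (c (l 15933592) (l 15929920)))) (b (c (b (b (l 15877936) (l 15879424)) (l 15901408)) (b (l 15874272) (l 15896224))) (c (l 15951816) (l 15947360))))) (c (b (a (c (b (l 15928312) (l 15945624)) (b (b (l 15921792) (l 15924032)) (l 15941040))) (c (b (b (l 15968848) (l 15971072)) (l 15982656)) (l 15971720))) (c (a (l 15984976) (l 15929696)) (a (l 15981856) (l 16009528)))) (b (a (b (l 15915360) (l 15933552)) (b (l 15957824) (l 15970760))) (a (l 15975168) (l 16002640))))), by decide +kernel⟩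

def k9_B00pp_022_s1 : ∃ t, chk3 f_B00pp_022_s1 t 34 27 2 = true :=
  ⟨(c (c (b (b (a (b (l 15903560) (c (l 15979888) (l 15905920))) (b (l 15923416) (a (l 15979680) (l 15931088)))) (a (a (c (b (a (l 15929792) (l 15945312)) (l 15975448)) (l 15963336)) (a (c (b (c (l 15948200) (l 15984144)) (l 15982016)) (l 15991216)) (c (b (c (b (l 15942912) (l 15984600)) (l 15989360)) (l 15955560)) (l 15912272)))) (a (c (a (b (c (b (b (l 15990456) (c (l 15957944) (l 15991352))) (l 15959264)) (l 15952744)) (c (l 15950080) (l 15994800))) (b (c (b (c (l 15955600) (l 15956664)) (l 15999416)) (l 15970072)) (l 15918256))) (b (l 15983368) (l 15920384))) (c (b (b (l 15972296) (l 15974000)) (l 16017072)) (b (l 15998112) (l 16020208)))))) (a (c (b (a (l 15935608) (c (a (l 15939840) (l 15904424)) (l 15904768))) (a (l 15940928) (l 15909672))) (b (c (l 15946672) (l 15909104)) (l 15953704))) (b (a (c (c (l 16000832) (l 15918688)) (l 15922576)) (l 15979192))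 (a (l 15925856) (l 15941192))))) (b (a (b (c (l 15981344) (l 16010472)) (c (a (l 15912152) (l 15919184)) (a (l 15923328) (l 15930680)))) (b (l 16026440) (a (c (l 15929168) (l 16022456)) (c (l 15983992) (l 15949448))))) (b (a (c (l 15917304) (l 15928216)) (c (l 15936592) (l 15943424))) (a (c (l 15919824) (l 16013872)) (l 16026896))))) (b (b (a (l 15975216) (c (l 16043880) (l 16052816))) (c (a (c (a (l 15933216) (l 15941776)) (l 16026256)) (a (c (l 16033728) (c (l 15958816) (l 16047504))) (c (l 16042376) (l 16053320)))) (a (c (l 16027424) (l 16025352)) (a (l 16053904) (l 16065848))))) (a (c (c (b (l 16022776) (l 16025424)) (b (l 16030984) (l 16036232))) (c (a (l 16037776) (l 16045184)) (l 15960464))) (a (c (c (l 16031176) (l 16043408)) (l 16054704)) (c (c (l 16040344) (l 16047624)) (l 16062736)))))), by decide +kernel⟩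

def k10_B00pp_022_s1 : ∃ t, chk3 f_B00pp_022_s1 t 35 27 2 = true :=
  ⟨(c (a (b (b (c (l 16041184) (l 16050776)) (c (b (b (l 16047272) (a (l 15996736) (l 15976368))) (a (l 15955184) (l 15977104))) (a (c (l 15959280) (b (l 16047168) (l 15963520))) (c (b (l 16063008) (l 15980736)) (l 16066944))))) (a (c (b (l 15998056) (l 15960528)) (c (l 16045840) (l 16049184))) (c (b (l 16021200) (l 15984792)) (c (b (l 15980616) (l 16068264)) (l 16068176))))) (b (b (l 16088256) (b (a (c (c (l 15998936) (a (l 15992672) (l 16005512))) (l 16086272)) (l 16113664)) (c (a (c (l 16088224) (l 16045744)) (c (a (l 16029776) (l 16088992)) (l 16120496))) (l 16062760)))) (c (a (c (l 16094560) (b (l 16090488) (l 16096320))) (c (a (l 16033520) (l 16090736)) (l 16123368))) (a (l 16092472) (l 16120656))))) (b (a (b (c (l 16066112) (l 16083008)) (c (b (l 16066992) (l 16066344)) (a (l 16078048) (l 16090464)))) (b (l 16105608) (c (a (l 16093192) (l 16116768))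 (l 16031224)))) (a (c (b (l 16064120) (l 16063792)) (l 16076392)) (c (l 16106424) (l 16108864))))), by decide +kernel⟩

def k11_B00pp_022_s1 : ∃ t, chk3 f_B00pp_022_s1 t 17 27 3 = true :=
  ⟨(a (c (b (b (l 16031504) (a (l 16019800) (l 16062120))) (a (l 16041000) (c (l 16068568) (l 16070368)))) (a (b (l 16005856) (l 16032336)) (b (l 16048312) (l 16064296)))) (c (b (b (c (l 16025520) (l 16113320)) (a (c (l 16014504) (l 16103216)) (c (a (l 16121320) (l 16134712)) (l 16140496)))) (a (c (a (l 16086048) (l 16094984)) (l 16099672)) (c (l 16116576) (a (l 16119800) (l 16133664))))) (b (b (l 16110080) (a (l 16097256) (l 16143336))) (a (l 16098544) (c (l 16135888) (l 16133424)))))), by decide +kernel⟩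

def k12_B00pp_022_s1 : ∃ t, chk3 f_B00pp_022_s1 t 32 14 2 = true :=
  ⟨(b (c (c (a (b (b (c (a (l 16015960) (l 15929536)) (l 15929640)) (c (a (l 16054760) (l 16041320)) (l 16050784))) (b (a (c (l 16088032) (l 16094736)) (c (l 16064736) (l 16073800))) (l 14))) (b (a (c (b (l 15920952) (l 15939224)) (a (l 16025296) (b (l 15927656) (l 16030120)))) (c (a (b (l 15912192) (l 15926216)) (l 15914984)) (b (l 15920448) (l 16021888)))) (b (a (c (l 15957752) (l 16054288)) (c (l 15941480) (l 16036944))) (l 14)))) (a (b (a (l 16030472) (l 16028360)) (b (c (l 16088536) (l 16088200)) (l 14))) (a (b (a (l 16026968) (b (l 15928272) (l 16041464))) (b (a (l 16072992) (a (l 16067888) (l 16061368))) (l 14))) (b (c (b (l 15931120) (l 16032480)) (l 16028952)) (c (l 16059408) (l 16070776)))))) (a (b (c (l 16024584) (a (l 16020920) (l 16019200))) (b (a (l 16087384) (a (l 16080440) (l 16076488))) (l 14))) (c (b (a (l 15940432) (l 16029280)) (b (a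 (l 16074744) (l 16072848)) (l 14))) (b (a (l 16021808) (l 16027608)) (a (l 16090808) (l 16090168)))))) (l 14)), by decide +kernel⟩

def k13_B00pp_022_s1 : ∃ t, chk3 f_B00pp_022_s1 t 33 14 2 = true :=
  ⟨(c (b (a (c (b (c (b (l 15943272) (l 15913728)) (a (l 16006608) (l 15957760))) (b (c (l 15928840) (l 15938224)) (l 14))) (b (a (c (l 16017400) (b (l 15937224) (l 16036136))) (c (l 16012712) (l 16024112))) (b (a (l 16045224) (l 16035080)) (l 14)))) (c (b (a (c (b (l 15897944) (l 15908688)) (l 15913208)) (b (l 15947456) (l 15916256))) (c (a (c (l 15930760) (l 15933800)) (l 15935336)) (b (l 15932296) (l 16032264)))) (b (b (l 16010888) (l 16019024)) (c (l 16032576) (l 16041520))))) (b (b (a (l 14) (a (l 14) (b (l 16050368) (l 14)))) (l 14)) (l 14))) (b (c (c (a (b (a (l 16033936) (l 16032800)) (a (l 16070472) (l 16061624))) (b (b (l 16028224) (l 16036888)) (l 16052104))) (b (a (l 16038000) (l 16041872)) (a (a (l 16079824) (l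 16074240)) (l 16064936)))) (b (a (l 16039376) (c (l 16048968) (l 16055800))) (a (b (l 16078320) (l 14)) (c (l 16076880) (l 16086152))))) (a (l 14) (a (l 14) (b (b (l 16086672) (l 14)) (l 14)))))), by decide +kernel⟩

def k14_B00pp_022_s1 : ∃ t, chk3 f_B00pp_022_s1 t 16 14 3 = true :=
  ⟨(a (c (b (a (a (b (c (l 16016144) (l 16011464)) (c (l 16102760) (l 16035784))) (b (c (l 16015568) (l 16012904)) (b (a (l 16073376) (l 16072536)) (l 14)))) (b (c (l 16023472) (l 16022824)) (c (a (l 16090792) (l 16091728)) (l 16093184)))) (l 14)) (b (a (c (a (b (l 15923632) (a (l 16097408) (l 16093432))) (b (l 16011536) (l 16092904))) (a (b (a (l 16003440) (l 16005208)) (a (c (l 16094904) (l 16094168)) (l 16092968))) (b (l 16009696) (l 16092968)))) (b (c (l 16021576) (l 16018128)) (c (a (l 16094040) (l 16094712)) (l 16091640)))) (l 14))) (a (b (c (b (c (l 16039312) (l 16038192)) (c (l 16095800) (a (l 16096416) (l 16097728)))) (b (l 16032616)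 (l 16092328))) (l 14)) (b (c (c (b (l 16056280) (a (l 16098520) (l 16095400))) (l 16075176)) (b (l 16046600) (l 16092336))) (a (l 14) (b (b (c (c (l 16118872) (l 16126848)) (l 16126128)) (l 14)) (l 14)))))), by decide +kernel⟩

def k15_B00pp_022_s1 : ∃ t, chk3 f_B00pp_022_s1 t 16 15 1 = true :=
  ⟨(l 14), by decide +kernel⟩

def k16_B00pp_022_s1 : ∃ t, chk3 f_B00pp_022_s1 t 34 14 2 = true :=
  ⟨(b (c (b (a (c (b (c (l 15913280) (l 15918952)) (c (l 15924096) (l 16012728))) (c (l 16014840) (l 16022528))) (c (a (b (l 15932752) (l 15942936)) (b (l 15948416) (l 15959840))) (a (l 16030192) (l 16043336)))) (c (a (b (c (l 15937984) (l 15941928)) (c (l 15955744) (l 16042784))) (c (l 16016280) (l 16059632))) (a (b (l 16034064) (l 16049248)) (a (l 16055320) (l 16069544))))) (a (c (b (c (l 16031736) (l 16043448)) (b (l 16047800) (l 16060608))) (c (b (a (l 16053344) (l 16053760)) (l 16066368)) (b (a (l 16062016) (l 16061960)) (l 16076160))))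 (c (b (a (c (l 16037776) (l 16044640)) (c (l 16047336) (l 16051616))) (a (l 16061488) (l 16071592))) (b (l 16059792) (l 16071896))))) (c (b (a (c (b (l 16063504) (l 16094912)) (b (l 16069752) (l 16100368))) (c (b (l 16086808) (l 16112520)) (l 16104360))) (a (l 14) (c (a (l 16152592) (l 16156944)) (l 16162392)))) (b (a (c (b (l 16078248) (l 16107576)) (a (b (l 16088968) (l 14)) (l 16101280))) (c (a (l 16103184) (l 16111808)) (l 16106488))) (a (l 14) (c (a (l 16167056) (l 16168688)) (l 16166704)))))), by decide +kernel⟩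

def k17_B00pp_022_s1 : ∃ t, chk3 f_B00pp_022_s1 t 35 14 2 = true :=
  ⟨(b (c (a (c (b (c (l 16070336) (l 16070552)) (l 16093088)) (b (a (c (l 16059736) (l 16060712)) (l 16080952)) (c (l 16094344) (l 16093968)))) (c (c (b (a (l 16106336) (c (l 16046896) (l 16046400))) (a (l 16119376) (l 16137048))) (a (b (l 16105904) (l 16119856)) (l 16132344))) (b (l 16114912) (l 16125512)))) (a (b (c (l 16071624) (l 16074392)) (c (l 16091568) (l 16088752))) (b (c (l 16111200) (l 16108440)) (l 16120016)))) (b (c (a (c (b (l 16111968) (l 16131392)) (a (l 16120160) (l 16129424))) (c (a (c (l 16137744) (l 16139192)) (l 1)) (l 16141408))) (a (c (l 16122832) (l 16119088)) (l 16094096))) (a (a (c (c (l 16161544) (l 16168368)) (l 16166944)) (l 1)) (l 1)))), by decide +kernel⟩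

def k18_B00pp_022_s1 : ∃ t, chk3 f_B00pp_022_s1 t 17 14 3 = true :=
  ⟨(a (b (c (b (a (c (l 16067360) (l 16068624)) (c (a (l 16073184) (l 16074008)) (l 16082016))) (a (c (b (l 16082392) (l 16091424)) (l 16095672)) (c (a (l 16080456) (l 16077072)) (a (l 16091544) (l 16088720))))) (b (l 16071008) (a (l 16093776) (c (l 16097976) (l 16094728))))) (c (b (a (b (c (l 16103168) (l 16114368)) (a (l 14) (l 16123264))) (c (l 16105800) (b (l 16097856) (l 16116744)))) (a (l 14) (l 16161656))) (b (a (c (b (l 16120048) (l 16058296)) (l 16128856)) (c (b (a (l 16108440) (l 16101576)) (a (l 16123336) (l 16116344))) (b (l 16111104) (a (l 16126528) (l 16121200))))) (a (l 14) (c (l 16075928) (b (a (l 16149288) (l 16140992)) (l 14))))))) (b (c (a (b (c (l 16082592) (a (l 16089952) (l 16095400))) (c (l 16088088) (l 16091968))) (b (c (l 16107736) (l 16111648)) (l 16113008))) (b (a (c (l 16100888) (l 16097776)) (c (a (l 16112072) (l 16121376))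 (l 16040544))) (a (c (b (l 16097568) (l 16096352)) (b (l 16101320) (l 16102944))) (c (l 16111416) (a (l 16107440) (l 16115904)))))) (c (b (a (l 16113792) (l 16128880)) (a (l 16159648) (l 1))) (b (a (c (l 16112024) (b (a (l 16103400) (l 16103000)) (l 16118872))) (l 16122088)) (a (l 16152888) (l 1)))))), by decide +kernel⟩

def k19_B00pp_022_s1 : ∃ t, chk3 f_B00pp_022_s1 t 17 15 1 = true :=
  ⟨(a (l 14) (l 1)), by decide +kernel⟩

def k20_B00pp_022_s1 : ∃ t, chk3 f_B00pp_022_s1 t 9 6 1 = true :=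
  ⟨(b (a (b (l 6) (c (a (c (l 16052376) (b (l 16176784) (l 16059136))) (c (l 16205824) (l 16214744))) (a (c (l 16092336) (l 16171728)) (a (a (b (l 6) (l 16107640)) (l 6)) (l 6))))) (l 6)) (b (b (c (a (a (c (l 16103448) (a (l 16102040) (l 16128888))) (l 16207624)) (l 16321856)) (c (a (a (a (l 16122624) (l 16149224)) (l 16127568)) (l 16318272)) (a (a (l 16143864) (a (l 16197040) (l 16241304))) (l 136934466839)))) (a (c (a (c (l 16057480) (a (l 16122792) (l 16166328))) (l 16261920)) (a (c (a (l 16143992) (l 16094088)) (a (l 16152880) (l 16192144))) (c (l 16258416) (a (l 16150400) (l 16289408))))) (l 1))) (a (c (b (a (b (c (l 16176448) (l 16175792)) (c (b (l 16196168) (c (a (l 16131408) (l 16243232)) (a (l 16170136) (l 16240576)))) (b (l 16192600) (a (l 16167160) (l 16236520))))) (a (b (l 16273072) (c (c (l 16221696) (l 16303432)) (l 16299968))) (l 1))) (a (c (c (a (l 16088256) (l 16239120)) (a (l 16168896) (l 16236400))) (a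 (l 16080656) (l 16232320))) (l 1))) (a (c (b (b (a (l 16078816) (l 16204920)) (a (c (l 16165912) (l 16092432)) (l 16226216))) (a (c (l 16162184) (l 16165912)) (l 16226968))) (b (a (b (l 16173456) (c (l 16186808) (l 16187632))) (b (l 16218232) (c (l 16229960) (l 16236992)))) (a (c (a (l 16160688) (l 16181312)) (l 16179344)) (c (l 16225616) (l 16144504))))) (a (b (c (l 16195480) (b (l 16267648) (l 16209616))) (l 1)) (l 1)))) (l 1)))), by decide +kernel⟩

def k21_B00pp_022_s1 : ∃ t, chk3 f_B00pp_022_s1 t 9 7 1 = true :=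
  ⟨(b (b (a (a (c (c (b (c (a (l 16169864) (l 16227696)) (a (l 16166560) (l 16224856))) (c (a (l 16168352) (l 1)) (l 16105272))) (b (a (l 16161616) (l 16220600)) (a (l 16160016) (l 1)))) (c (b (a (l 16155256) (l 16214928)) (l 16094280)) (b (a (c (l 16153888) (l 16072440)) (l 16209432)) (a (l 16147048) (l 1))))) (l 1)) (l 1)) (l 1)) (l 1)), by decide +kernel⟩

def k22_B00pp_022_s1 : ∃ t, chk3 f_B00pp_022_s1 t 5 1 1 = true :=
  ⟨(b (l 6) (b (l 1) (l 1))), by decide +kernel⟩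

def k23_B00pp_022_s1 : ∃ t, chk3 f_B00pp_022_s1 t 3 1 1 = true :=
  ⟨(l 1), by decide +kernel⟩

theorem t24_B00pp_022_s1 : ∃ t, chk3 f_B00pp_022_s1 t 9 3 1 = true := ex3_b k20_B00pp_022_s1 k21_B00pp_022_s1

theorem t25_B00pp_022_s1 : ∃ t, chk3 f_B00pp_022_s1 t 17 14 2 = true := ex3_a k16_B00pp_022_s1 k17_B00pp_022_s1

theorem t26_B00pp_022_s1 : ∃ t, chk3 f_B00pp_022_s1 t 17 14 1 = true := ex3_c t25_B00pp_022_s1 k18_B00pp_022_s1

theorem t27_B00pp_022_s1 : ∃ t, chk3 f_B00pp_022_s1 t 17 7 1 = true := ex3_b t26_B00pp_022_s1 k19_B00pp_022_s1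

theorem t28_B00pp_022_s1 : ∃ t, chk3 f_B00pp_022_s1 t 16 14 2 = true := ex3_a k12_B00pp_022_s1 k13_B00pp_022_s1

theorem t29_B00pp_022_s1 : ∃ t, chk3 f_B00pp_022_s1 t 16 14 1 = true := ex3_c t28_B00pp_022_s1 k14_B00pp_022_s1

theorem t30_B00pp_022_s1 : ∃ t, chk3 f_B00pp_022_s1 t 16 7 1 = true := ex3_b t29_B00pp_022_s1 k15_B00pp_022_s1

theorem t31_B00pp_022_s1 : ∃ t, chk3 f_B00pp_022_s1 t 8 7 1 = true := ex3_a t30_B00pp_022_s1 t27_B00pp_022_s1

theorem t32_B00pp_022_s1 : ∃ t, chk3 f_B00pp_022_s1 t 17 27 2 = true := ex3_a k9_B00pp_022_s1 k10_B00pp_022_s1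

theorem t33_B00pp_022_s1 : ∃ t, chk3 f_B00pp_022_s1 t 17 27 1 = true := ex3_c t32_B00pp_022_s1 k11_B00pp_022_s1

theorem t34_B00pp_022_s1 : ∃ t, chk3 f_B00pp_022_s1 t 33 27 4 = true := ex3_c k5_B00pp_022_s1 k6_B00pp_022_s1

theorem t35_B00pp_022_s1 : ∃ t, chk3 f_B00pp_022_s1 t 33 27 2 = true := ex3_c t34_B00pp_022_s1 k7_B00pp_022_s1

theorem t36_B00pp_022_s1 : ∃ t, chk3 f_B00pp_022_s1 t 32 27 2 = true := ex3_c k3_B00pp_022_s1 k4_B00pp_022_s1

theorem t37_B00pp_022_s1 : ∃ t, chk3 f_B00pp_022_s1 t 16 27 2 = true := ex3_a t36_B00pp_022_s1 t35_B00pp_022_s1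

theorem t38_B00pp_022_s1 : ∃ t, chk3 f_B00pp_022_s1 t 16 27 1 = true := ex3_c t37_B00pp_022_s1 k8_B00pp_022_s1

theorem t39_B00pp_022_s1 : ∃ t, chk3 f_B00pp_022_s1 t 8 27 1 = true := ex3_a t38_B00pp_022_s1 t33_B00pp_022_s1

theorem t40_B00pp_022_s1 : ∃ t, chk3 f_B00pp_022_s1 t 8 13 1 = true := ex3_b k2_B00pp_022_s1 t39_B00pp_022_s1

theorem t41_B00pp_022_s1 : ∃ t, chk3 f_B00pp_022_s1 t 8 6 1 = true := ex3_b k1_B00pp_022_s1 t40_B00pp_022_s1

theorem t42_B00pp_022_s1 : ∃ t, chk3 f_B00pp_022_s1 t 8 3 1 = true := ex3_b t41_B00pp_022_s1 t31_B00pp_022_s1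

theorem t43_B00pp_022_s1 : ∃ t, chk3 f_B00pp_022_s1 t 4 3 1 = true := ex3_a t42_B00pp_022_s1 t24_B00pp_022_s1

theorem t44_B00pp_022_s1 : ∃ t, chk3 f_B00pp_022_s1 t 4 1 1 = true := ex3_b k0_B00pp_022_s1 t43_B00pp_022_s1

theorem t45_B00pp_022_s1 : ∃ t, chk3 f_B00pp_022_s1 t 2 1 1 = true := ex3_a t44_B00pp_022_s1 k22_B00pp_022_s1

theorem t46_B00pp_022_s1 : ∃ t, chk3 f_B00pp_022_s1 t 1 1 1 = true := ex3_a t45_B00pp_022_s1 k23_B00pp_022_s1

theorem c_B00pp_022_s1 : CertFX 0 536870912 0 536870912 1046898278 26843546 false true true .pp 0 2 2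
    ndF0q0 ndF0q2 pcF2 cut_B00pp_022_s1 Ext.none :=
  certFX2 (fam := false) (s1 := true) (s2 := true) (a := 0) (b := 2) (c := 2) (cn := .pp) (n1 := ndF0q0) (n2 := ndF0q2) (pc := pcF2) (cut := cut_B00pp_022_s1) (xt := Ext.none) (P1 := 0) (W1 := 536870912) (P2 := 0) (W2 := 536870912) (P3 := 1046898278) (W3 := 26843546)
    rfl (fun _ => rfl) t46_B00pp_022_s1

theorem s_B00pp_022_s1 {κ x : ℝ} (hκ : κ * h0 = kenE x) (hx : 39 / 40 ≤ x) (hx' : x < 1)
    (H : CutVB (VFD κ) (DD x) tKF tL pcF (Cut.of [[⟨0, 0, 0, 67108864⟩, ⟨1, 1, 0, 67108864⟩, ⟨2, 1, 0, 67108864⟩, ⟨3, 0, 0, 1233125376⟩]]) 0 2 2 0 0 (sgb true) (sgb true) x) :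
    AltVB (VFD κ) (DD x) tKF tL pcF [⟨3, 0, 0, 1449551462⟩] 0 2 2 0 0 (sgb true) (sgb true) x :=
  strip_altVB (d := 1449551462) true rfl hκ (κ0 hκ hx) (x0 hx) hx' (covF00 hx hx') (covF02 hx hx') (x1 hx) (x2 hx') c_B00pp_022_s1 H (noExt_VB)

noncomputable def cut_B00pp_022_s3 : Cut := Cut.of [[⟨3, 0, 0, 2845415833⟩], [⟨0, 0, 0, 67108864⟩, ⟨1, 1, 0, 67108864⟩, ⟨2, 1, 0, 67108864⟩, ⟨3, 0, 0, 1233125376⟩]]

noncomputable def f_B00pp_022_s3 : ℕ → ℕ → ℕ → ℕ → Bool := onCell 0 536870912 0 536870912 1046898278 26843546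
    (rowFX 0 false true true .pp 0 2 2 (qsf 0 536870912 0 536870912 2) ndF0q0 ndF0q2 pcF2 cut_B00pp_022_s3 Ext.none)

def k0_B00pp_022_s3 : ∃ t, chk3 f_B00pp_022_s3 t 1 1 1 = true :=
  ⟨(l 6), by decide +kernel⟩

theorem c_B00pp_022_s3 : CertFX 0 536870912 0 536870912 1046898278 26843546 false true true .pp 0 2 2
    ndF0q0 ndF0q2 pcF2 cut_B00pp_022_s3 Ext.none :=
  certFX0 (fam := false) (s1 := true) (s2 := true) (a := 0) (b := 2) (c := 2) (cn := .pp) (n1 := ndF0q0) (n2 := ndF0q2) (pc := pcF2) (cut := cut_B00pp_022_s3) (xt := Ext.none) (P1 := 0) (W1 := 536870912) (P2 := 0) (W2 := 536870912) (P3 := 1046898278) (W3 := 26843546)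
    rfl k0_B00pp_022_s3

theorem s_B00pp_022_s3 {κ x : ℝ} (hκ : κ * h0 = kenE x) (hx : 39 / 40 ≤ x) (hx' : x < 1)
    (H : CutVB (VFD κ) (DD x) tKF tL pcF (Cut.of [[⟨0, 0, 0, 67108864⟩, ⟨1, 1, 0, 67108864⟩, ⟨2, 1, 0, 67108864⟩, ⟨3, 0, 0, 1233125376⟩]]) 0 2 2 0 0 (sgb true) (sgb true) x) :
    AltVB (VFD κ) (DD x) tKF tL pcF [⟨4, 0, 0, 2845415833⟩] 0 2 2 0 0 (sgb true) (sgb true) x :=
  strip_altVB (d := 2845415833) false rfl hκ (κ0 hκ hx) (x0 hx) hx' (covF00 hx hx') (covF02 hx hx') (x1 hx) (x2 hx') c_B00pp_022_s3 H (noExt_VB)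

noncomputable def cut_B00pp_101_s1 : Cut := Cut.of [[⟨4, 0, 0, 1449551462⟩]]

noncomputable def f_B00pp_101_s1 : ℕ → ℕ → ℕ → ℕ → Bool := onCell 536870912 536870912 536870912 536870912 1046898278 26843546
    (rowFX 0 false true true .npn 1 0 1 (qsf 536870912 536870912 536870912 536870912 0) ndF0q1 ndF0q1 pcF0 cut_B00pp_101_s1 Ext.none)

def k0_B00pp_101_s1 : ∃ t, chk3 f_B00pp_101_s1 t 1 1 1 = true :=
  ⟨(l 3), by decide +kernel⟩

theorem c_B00pp_101_s1 : CertFX 536870912 536870912 536870912 536870912 1046898278 26843546 false true true .npn 1 0 1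
    ndF0q1 ndF0q1 pcF0 cut_B00pp_101_s1 Ext.none :=
  certFX0 (fam := false) (s1 := true) (s2 := true) (a := 1) (b := 0) (c := 1) (cn := .npn) (n1 := ndF0q1) (n2 := ndF0q1) (pc := pcF0) (cut := cut_B00pp_101_s1) (xt := Ext.none) (P1 := 536870912) (W1 := 536870912) (P2 := 536870912) (W2 := 536870912) (P3 := 1046898278) (W3 := 26843546)
    rfl k0_B00pp_101_s1

theorem s_B00pp_101_s1 {κ x : ℝ} (hκ : κ * h0 = kenE x) (hx : 39 / 40 ≤ x) (hx' : x < 1) :
    AltVB (VFD κ) (DD x) tKF tL pcF [⟨3, 0, 0, 1449551462⟩] 1 0 1 0 0 (sgb true) (sgb true) x :=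
  strip_altVB (d := 1449551462) true rfl hκ (κ0 hκ hx) (x0 hx) hx' (covF01 hx hx') (covF01 hx hx') (x1 hx) (x2 hx') c_B00pp_101_s1 cutVB_nil (noExt_VB)

noncomputable def cut_B00pp_101_s3 : Cut := Cut.of [[⟨3, 0, 0, 2845415833⟩]]

noncomputable def f_B00pp_101_s3 : ℕ → ℕ → ℕ → ℕ → Bool := onCell 536870912 536870912 536870912 536870912 1046898278 26843546
    (rowFX 0 false true true .npn 1 0 1 (qsf 536870912 536870912 536870912 536870912 0) ndF0q1 ndF0q1 pcF0 cut_B00pp_101_s3 Ext.none)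

def k0_B00pp_101_s3 : ∃ t, chk3 f_B00pp_101_s3 t 1 1 1 = true :=
  ⟨(l 3), by decide +kernel⟩

theorem c_B00pp_101_s3 : CertFX 536870912 536870912 536870912 536870912 1046898278 26843546 false true true .npn 1 0 1
    ndF0q1 ndF0q1 pcF0 cut_B00pp_101_s3 Ext.none :=
  certFX0 (fam := false) (s1 := true) (s2 := true) (a := 1) (b := 0) (c := 1) (cn := .npn) (n1 := ndF0q1) (n2 := ndF0q1) (pc := pcF0) (cut := cut_B00pp_101_s3) (xt := Ext.none) (P1 := 536870912) (W1 := 536870912) (P2 := 536870912) (W2 := 536870912) (P3 := 1046898278) (W3 := 26843546)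
    rfl k0_B00pp_101_s3

theorem s_B00pp_101_s3 {κ x : ℝ} (hκ : κ * h0 = kenE x) (hx : 39 / 40 ≤ x) (hx' : x < 1) :
    AltVB (VFD κ) (DD x) tKF tL pcF [⟨4, 0, 0, 2845415833⟩] 1 0 1 0 0 (sgb true) (sgb true) x :=
  strip_altVB (d := 2845415833) false rfl hκ (κ0 hκ hx) (x0 hx) hx' (covF01 hx hx') (covF01 hx hx') (x1 hx) (x2 hx') c_B00pp_101_s3 cutVB_nil (noExt_VB)

noncomputable def cut_B00pp_102_s1 : Cut := Cut.of [[⟨4, 0, 0, 1449551462⟩]]

noncomputable def f_B00pp_102_s1 : ℕ → ℕ → ℕ → ℕ → Bool := onCell 536870912 536870912 0 536870912 1046898278 26843546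
    (rowFX 0 false true true .npp 1 0 2 (qsf 536870912 536870912 0 536870912 0) ndF0q1 ndF0q2 pcF0 cut_B00pp_102_s1 Ext.none)

def k0_B00pp_102_s1 : ∃ t, chk3 f_B00pp_102_s1 t 1 1 1 = true :=
  ⟨(a (a (b (b (l 2) (l 3)) (l 3)) (l 3)) (l 3)), by decide +kernel⟩

theorem c_B00pp_102_s1 : CertFX 536870912 536870912 0 536870912 1046898278 26843546 false true true .npp 1 0 2
    ndF0q1 ndF0q2 pcF0 cut_B00pp_102_s1 Ext.none :=
  certFX0 (fam := false) (s1 := true) (s2 := true) (a := 1) (b := 0) (c := 2) (cn := .npp) (n1 := ndF0q1) (n2 := ndF0q2) (pc := pcF0) (cut := cut_B00pp_102_s1) (xt := Ext.none) (P1 := 536870912) (W1 := 536870912) (P2 := 0) (W2 := 536870912) (P3 := 1046898278) (W3 := 26843546)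
    rfl k0_B00pp_102_s1

theorem s_B00pp_102_s1 {κ x : ℝ} (hκ : κ * h0 = kenE x) (hx : 39 / 40 ≤ x) (hx' : x < 1) :
    AltVB (VFD κ) (DD x) tKF tL pcF [⟨3, 0, 0, 1449551462⟩] 1 0 2 0 0 (sgb true) (sgb true) x :=
  strip_altVB (d := 1449551462) true rfl hκ (κ0 hκ hx) (x0 hx) hx' (covF01 hx hx') (covF02 hx hx') (x1 hx) (x2 hx') c_B00pp_102_s1 cutVB_nil (noExt_VB)

noncomputable def cut_B00pp_102_s3 : Cut := Cut.of [[⟨3, 0, 0, 2845415833⟩]]

noncomputable def f_B00pp_102_s3 : ℕ → ℕ → ℕ → ℕ → Bool := onCell 536870912 536870912 0 536870912 1046898278 26843546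
    (rowFX 0 false true true .npp 1 0 2 (qsf 536870912 536870912 0 536870912 0) ndF0q1 ndF0q2 pcF0 cut_B00pp_102_s3 Ext.none)

def k0_B00pp_102_s3 : ∃ t, chk3 f_B00pp_102_s3 t 1 1 1 = true :=
  ⟨(l 6), by decide +kernel⟩

theorem c_B00pp_102_s3 : CertFX 536870912 536870912 0 536870912 1046898278 26843546 false true true .npp 1 0 2
    ndF0q1 ndF0q2 pcF0 cut_B00pp_102_s3 Ext.none :=
  certFX0 (fam := false) (s1 := true) (s2 := true) (a := 1) (b := 0) (c := 2) (cn := .npp) (n1 := ndF0q1) (n2 := ndF0q2) (pc := pcF0) (cut := cut_B00pp_102_s3) (xt := Ext.none) (P1 := 536870912) (W1 := 536870912) (P2 := 0) (W2 := 536870912) (P3 := 1046898278) (W3 := 26843546)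
    rfl k0_B00pp_102_s3

theorem s_B00pp_102_s3 {κ x : ℝ} (hκ : κ * h0 = kenE x) (hx : 39 / 40 ≤ x) (hx' : x < 1) :
    AltVB (VFD κ) (DD x) tKF tL pcF [⟨4, 0, 0, 2845415833⟩] 1 0 2 0 0 (sgb true) (sgb true) x :=
  strip_altVB (d := 2845415833) false rfl hκ (κ0 hκ hx) (x0 hx) hx' (covF01 hx hx') (covF02 hx hx') (x1 hx) (x2 hx') c_B00pp_102_s3 cutVB_nil (noExt_VB)

noncomputable def cut_B00pp_112_s1 : Cut := Cut.of [[⟨4, 0, 0, 1449551462⟩]]

noncomputable def xt_B00pp_112_s1 : Ext := strExtY dd false true true .u0 .u2 .u0m .dn 1 1 2 rfl rfl gf1 ge vv ndF0q1 ndF0q2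

noncomputable def f_B00pp_112_s1 : ℕ → ℕ → ℕ → ℕ → Bool := onCell 536870912 536870912 0 536870912 1046898278 26843546
    (rowFX 0 false true true .dn 1 1 2 (qsf 536870912 536870912 0 536870912 1) ndF0q1 ndF0q2 pcF1 cut_B00pp_112_s1 xt_B00pp_112_s1)

def k0_B00pp_112_s1 : ∃ t, chk3 f_B00pp_112_s1 t 4 4 2 = true :=
  ⟨(b (c (b (b (a (a (a (l 536870927) (l 536870927)) (a (l 536870927) (b (l 536870927) (l 536870927)))) (a (a (c (c (l 536870927) (a (l 536870927) (l 536870927))) (c (a (l 536870927) (l 536870927)) (a (l 536870927) (c (l 536870927) (l 536870927))))) (l 3)) (l 3))) (a (c (l 536870927) (l 536870927)) (l 3))) (a (c (l 536870927) (l 536870927)) (l 3))) (a (b (a (c (l 536870927) (l 536870927)) (b (b (c (l 536870927) (l 536870927)) (l 536870927)) (l 536870927))) (c (l 536870927) (l 536870927))) (c (a (a (b (a (b (b (b (l 536870927) (l 536870927)) (l 536870927)) (l 3)) (b (b (c (a (l 536870927) (l 536870927)) (c (l 536870927)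 (l 536870927))) (l 3)) (l 3))) (l 3)) (l 3)) (l 3)) (a (a (a (b (b (b (b (l 536870927) (l 536870927)) (l 536870927)) (l 3)) (l 3)) (b (b (b (c (c (l 536870927) (l 536870927)) (c (l 536870927) (l 536870927))) (l 3)) (l 3)) (l 3))) (l 3)) (l 3))))) (b (a (a (c (l 536870927) (l 536870927)) (l 3)) (l 3)) (l 3))), by decide +kernel⟩

def k1_B00pp_112_s1 : ∃ t, chk3 f_B00pp_112_s1 t 4 4 3 = true :=
  ⟨(b (a (c (b (a (c (l 536870927) (l 536870927)) (b (b (l 536870927) (l 536870927)) (l 536870927))) (c (l 536870927) (l 536870927))) (b (b (a (l 536870927) (b (l 536870927) (l 536870927))) (c (l 536870927) (l 536870927))) (a (l 536870927) (l 536870927)))) (c (a (a (a (b (b (b (b (l 536870927) (l 536870927)) (l 536870927)) (l 3)) (l 3)) (b (b (b (c (c (c (l 536870927) (l 536870927)) (c (l 536870927) (l 536870927))) (c (c (l 536870927) (l 536870927)) (l 536870927))) (l 3)) (l 3)) (l 3))) (l 3)) (l 3)) (a (a (b (b (c (c (a (l 536870927)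 (c (l 536870927) (l 536870927))) (a (l 536870927) (l 536870927))) (c (l 536870927) (l 536870927))) (l 3)) (l 3)) (l 3)) (l 3)))) (b (a (a (c (l 536870927) (l 536870927)) (l 3)) (l 3)) (l 3))), by decide +kernel⟩

def k2_B00pp_112_s1 : ∃ t, chk3 f_B00pp_112_s1 t 4 5 1 = true :=
  ⟨(l 3), by decide +kernel⟩

def k3_B00pp_112_s1 : ∃ t, chk3 f_B00pp_112_s1 t 4 3 1 = true :=
  ⟨(l 3), by decide +kernel⟩

def k4_B00pp_112_s1 : ∃ t, chk3 f_B00pp_112_s1 t 5 1 1 = true :=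
  ⟨(l 3), by decide +kernel⟩

def k5_B00pp_112_s1 : ∃ t, chk3 f_B00pp_112_s1 t 3 1 1 = true :=
  ⟨(l 1), by decide +kernel⟩

theorem t6_B00pp_112_s1 : ∃ t, chk3 f_B00pp_112_s1 t 4 4 1 = true := ex3_c k0_B00pp_112_s1 k1_B00pp_112_s1

theorem t7_B00pp_112_s1 : ∃ t, chk3 f_B00pp_112_s1 t 4 2 1 = true := ex3_b t6_B00pp_112_s1 k2_B00pp_112_s1

theorem t8_B00pp_112_s1 : ∃ t, chk3 f_B00pp_112_s1 t 4 1 1 = true := ex3_b t7_B00pp_112_s1 k3_B00pp_112_s1

theorem t9_B00pp_112_s1 : ∃ t, chk3 f_B00pp_112_s1 t 2 1 1 = true := ex3_a t8_B00pp_112_s1 k4_B00pp_112_s1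

theorem t10_B00pp_112_s1 : ∃ t, chk3 f_B00pp_112_s1 t 1 1 1 = true := ex3_a t9_B00pp_112_s1 k5_B00pp_112_s1

theorem c_B00pp_112_s1 : CertFX 536870912 536870912 0 536870912 1046898278 26843546 false true true .dn 1 1 2
    ndF0q1 ndF0q2 pcF1 cut_B00pp_112_s1 xt_B00pp_112_s1 :=
  certFX0 (fam := false) (s1 := true) (s2 := true) (a := 1) (b := 1) (c := 2) (cn := .dn) (n1 := ndF0q1) (n2 := ndF0q2) (pc := pcF1) (cut := cut_B00pp_112_s1) (xt := xt_B00pp_112_s1) (P1 := 536870912) (W1 := 536870912) (P2 := 0) (W2 := 536870912) (P3 := 1046898278) (W3 := 26843546)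
    rfl t10_B00pp_112_s1

theorem s_B00pp_112_s1 {κ x : ℝ} (hκ : κ * h0 = kenE x) (hx : 39 / 40 ≤ x) (hx' : x < 1) :
    AltVB (VFD κ) (DD x) tKF tL pcF [⟨3, 0, 0, 1449551462⟩] 1 1 2 0 0 (sgb true) (sgb true) x :=
  strip_altVB (d := 1449551462) true rfl hκ (κ0 hκ hx) (x0 hx) hx' (covF01 hx hx') (covF02 hx hx') (x1 hx) (x2 hx') c_B00pp_112_s1 cutVB_nil ((ok hx hx').extB (T := tt) (sideF hx hx') hκ (κ0 hκ hx) rfl rfl (.O 1 true) (.O 2 true) (Or.inr rfl))

noncomputable def cut_B00pp_112_s3 : Cut := Cut.of [[⟨3, 0, 0, 2845415833⟩]]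

noncomputable def f_B00pp_112_s3 : ℕ → ℕ → ℕ → ℕ → Bool := onCell 536870912 536870912 0 536870912 1046898278 26843546
    (rowFX 0 false true true .dn 1 1 2 (qsf 536870912 536870912 0 536870912 1) ndF0q1 ndF0q2 pcF1 cut_B00pp_112_s3 Ext.none)

def k0_B00pp_112_s3 : ∃ t, chk3 f_B00pp_112_s3 t 1 1 1 = true :=
  ⟨(l 6), by decide +kernel⟩

theorem c_B00pp_112_s3 : CertFX 536870912 536870912 0 536870912 1046898278 26843546 false true true .dn 1 1 2
    ndF0q1 ndF0q2 pcF1 cut_B00pp_112_s3 Ext.none :=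
  certFX0 (fam := false) (s1 := true) (s2 := true) (a := 1) (b := 1) (c := 2) (cn := .dn) (n1 := ndF0q1) (n2 := ndF0q2) (pc := pcF1) (cut := cut_B00pp_112_s3) (xt := Ext.none) (P1 := 536870912) (W1 := 536870912) (P2 := 0) (W2 := 536870912) (P3 := 1046898278) (W3 := 26843546)
    rfl k0_B00pp_112_s3

theorem s_B00pp_112_s3 {κ x : ℝ} (hκ : κ * h0 = kenE x) (hx : 39 / 40 ≤ x) (hx' : x < 1) :
    AltVB (VFD κ) (DD x) tKF tL pcF [⟨4, 0, 0, 2845415833⟩] 1 1 2 0 0 (sgb true) (sgb true) x :=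
  strip_altVB (d := 2845415833) false rfl hκ (κ0 hκ hx) (x0 hx) hx' (covF01 hx hx') (covF02 hx hx') (x1 hx) (x2 hx') c_B00pp_112_s3 cutVB_nil (noExt_VB)

noncomputable def cut_B00pp_202_s1 : Cut := Cut.of [[⟨4, 0, 0, 1449551462⟩]]

noncomputable def f_B00pp_202_s1 : ℕ → ℕ → ℕ → ℕ → Bool := onCell 0 536870912 0 536870912 1046898278 26843546
    (rowFX 0 false true true .pp 2 0 2 (qsf 0 536870912 0 536870912 0) ndF0q2 ndF0q2 pcF0 cut_B00pp_202_s1 Ext.none)

def k0_B00pp_202_s1 : ∃ t, chk3 f_B00pp_202_s1 t 1 1 1 = true :=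
  ⟨(l 3), by decide +kernel⟩

theorem c_B00pp_202_s1 : CertFX 0 536870912 0 536870912 1046898278 26843546 false true true .pp 2 0 2
    ndF0q2 ndF0q2 pcF0 cut_B00pp_202_s1 Ext.none :=
  certFX0 (fam := false) (s1 := true) (s2 := true) (a := 2) (b := 0) (c := 2) (cn := .pp) (n1 := ndF0q2) (n2 := ndF0q2) (pc := pcF0) (cut := cut_B00pp_202_s1) (xt := Ext.none) (P1 := 0) (W1 := 536870912) (P2 := 0) (W2 := 536870912) (P3 := 1046898278) (W3 := 26843546)
    rfl k0_B00pp_202_s1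

theorem s_B00pp_202_s1 {κ x : ℝ} (hκ : κ * h0 = kenE x) (hx : 39 / 40 ≤ x) (hx' : x < 1) :
    AltVB (VFD κ) (DD x) tKF tL pcF [⟨3, 0, 0, 1449551462⟩] 2 0 2 0 0 (sgb true) (sgb true) x :=
  strip_altVB (d := 1449551462) true rfl hκ (κ0 hκ hx) (x0 hx) hx' (covF02 hx hx') (covF02 hx hx') (x1 hx) (x2 hx') c_B00pp_202_s1 cutVB_nil (noExt_VB)

noncomputable def cut_B00pp_202_s3 : Cut := Cut.of [[⟨3, 0, 0, 2845415833⟩]]

noncomputable def f_B00pp_202_s3 : ℕ → ℕ → ℕ → ℕ → Bool := onCell 0 536870912 0 536870912 1046898278 26843546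
    (rowFX 0 false true true .pp 2 0 2 (qsf 0 536870912 0 536870912 0) ndF0q2 ndF0q2 pcF0 cut_B00pp_202_s3 Ext.none)

def k0_B00pp_202_s3 : ∃ t, chk3 f_B00pp_202_s3 t 1 1 1 = true :=
  ⟨(l 3), by decide +kernel⟩

theorem c_B00pp_202_s3 : CertFX 0 536870912 0 536870912 1046898278 26843546 false true true .pp 2 0 2
    ndF0q2 ndF0q2 pcF0 cut_B00pp_202_s3 Ext.none :=
  certFX0 (fam := false) (s1 := true) (s2 := true) (a := 2) (b := 0) (c := 2) (cn := .pp) (n1 := ndF0q2) (n2 := ndF0q2) (pc := pcF0) (cut := cut_B00pp_202_s3) (xt := Ext.none) (P1 := 0) (W1 := 536870912) (P2 := 0) (W2 := 536870912) (P3 := 1046898278) (W3 := 26843546)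
    rfl k0_B00pp_202_s3

theorem s_B00pp_202_s3 {κ x : ℝ} (hκ : κ * h0 = kenE x) (hx : 39 / 40 ≤ x) (hx' : x < 1) :
    AltVB (VFD κ) (DD x) tKF tL pcF [⟨4, 0, 0, 2845415833⟩] 2 0 2 0 0 (sgb true) (sgb true) x :=
  strip_altVB (d := 2845415833) false rfl hκ (κ0 hκ hx) (x0 hx) hx' (covF02 hx hx') (covF02 hx hx') (x1 hx) (x2 hx') c_B00pp_202_s3 cutVB_nil (noExt_VB)

noncomputable def cut_B00pm_001_s1 : Cut := Cut.of [[⟨4, 0, 0, 1449551462⟩]]

noncomputable def f_B00pm_001_s1 : ℕ → ℕ → ℕ → ℕ → Bool := onCell 0 536870912 536870912 536870912 1046898278 26843546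
    (rowFX 0 false true false .up 0 0 1 (qsf 0 536870912 536870912 536870912 0) ndF0q0 ndF0q1 pcF0 cut_B00pm_001_s1 Ext.none)

def k0_B00pm_001_s1 : ∃ t, chk3 f_B00pm_001_s1 t 1 1 1 = true :=
  ⟨(l 6), by decide +kernel⟩

theorem c_B00pm_001_s1 : CertFX 0 536870912 536870912 536870912 1046898278 26843546 false true false .up 0 0 1
    ndF0q0 ndF0q1 pcF0 cut_B00pm_001_s1 Ext.none :=
  certFX0 (fam := false) (s1 := true) (s2 := false) (a := 0) (b := 0) (c := 1) (cn := .up) (n1 := ndF0q0) (n2 := ndF0q1) (pc := pcF0) (cut := cut_B00pm_001_s1) (xt := Ext.none) (P1 := 0) (W1 := 536870912) (P2 := 536870912) (W2 := 536870912) (P3 := 1046898278) (W3 := 26843546)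
    rfl k0_B00pm_001_s1

theorem s_B00pm_001_s1 {κ x : ℝ} (hκ : κ * h0 = kenE x) (hx : 39 / 40 ≤ x) (hx' : x < 1) :
    AltVB (VFD κ) (DD x) tKF tL pcF [⟨3, 0, 0, 1449551462⟩] 0 0 1 0 0 (sgb true) (sgb false) x :=
  strip_altVB (d := 1449551462) true rfl hκ (κ0 hκ hx) (x0 hx) hx' (covF00 hx hx') (covF01 hx hx') (x1 hx) (x2 hx') c_B00pm_001_s1 cutVB_nil (noExt_VB)

noncomputable def cut_B00pm_001_s3 : Cut := Cut.of [[⟨3, 0, 0, 2845415833⟩]]

noncomputable def xt_B00pm_001_s3 : Ext := strExtY dd false true false .u0 .u0m .s0m .up 0 0 1 rfl rfl gl0 ge vv ndF0q0 ndF0q1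

noncomputable def f_B00pm_001_s3 : ℕ → ℕ → ℕ → ℕ → Bool := onCell 0 536870912 536870912 536870912 1046898278 26843546
    (rowFX 0 false true false .up 0 0 1 (qsf 0 536870912 536870912 536870912 0) ndF0q0 ndF0q1 pcF0 cut_B00pm_001_s3 xt_B00pm_001_s3)

def k0_B00pm_001_s3 : ∃ t, chk3 f_B00pm_001_s3 t 1 2 1 = true :=
  ⟨(a (l 4) (b (l 4) (a (l 4) (c (a (b (l 4) (c (c (l 536870927) (l 536870927)) (a (l 536870927) (l 536870927)))) (b (b (a (l 4) (c (l 535523343) (l 535237135))) (b (a (l 4) (c (l 535997199) (l 535985679))) (c (a (c (a (l 4) (l 536769295)) (l 536534031)) (l 536058895)) (a (c (l 536802063) (l 536801551)) (l 536051983))))) (c (a (b (c (l 536870671) (l 536870671)) (l 536870927)) (b (c (a (l 536534031) (l 536082447)) (a (l 536802063) (l 536080655))) (a (l 536870927) (l 536870415)))) (a (a (l 536870927) (c (l 536870671) (l 536870671))) (b (a (c (l 536801551) (l 536801039)) (b (l 536222479) (l 536766735))) (a (l 536870927)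 (l 536870415))))))) (a (b (l 4) (c (a (l 536870927) (l 536870927)) (a (l 536870927) (l 536870927)))) (b (b (a (l 4) (a (l 4) (b (l 4) (c (l 535484431) (l 535466767))))) (b (a (l 4) (c (l 535974159) (l 535694351))) (c (a (c (l 536801039) (l 536800527)) (l 535776271)) (a (a (l 4) (c (l 536765455) (l 536764687))) (c (l 536039439) (l 536035855)))))) (c (c (a (l 536736527) (b (a (l 536800527) (l 536612623)) (l 536870671))) (a (b (l 536870671) (l 536870927)) (b (a (l 536800271) (l 536342543)) (l 536870671)))) (a (b (c (l 536870671) (l 536870671)) (l 536870927)) (b (c (a (l 536799759) (l 536072463)) (a (l 536530703) (l 536070927))) (c (l 536870671) (l 536870671))))))))))), by decide +kernel⟩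

def k1_B00pm_001_s3 : ∃ t, chk3 f_B00pm_001_s3 t 2 3 1 = true :=
  ⟨(b (b (l 4) (l 2)) (l 2)), by decide +kernel⟩

def k2_B00pm_001_s3 : ∃ t, chk3 f_B00pm_001_s3 t 6 6 1 = true :=
  ⟨(b (b (a (l 4) (a (l 4) (c (c (c (b (l 536870927) (l 536870927)) (l 536870927)) (c (l 536870927) (l 536870927))) (c (c (l 536870927) (l 536870927)) (l 536870927))))) (a (a (l 4) (a (l 4) (b (l 4) (c (l 536870927) (l 536870927))))) (c (c (c (l 536870927) (l 536870927)) (l 536870927)) (c (l 536870927) (l 536870927))))) (c (a (a (l 2) (a (l 2) (b (b (b (l 536870927) (l 2)) (l 2)) (l 2)))) (c (b (c (l 536870927) (l 536870927)) (a (b (l 536870927) (l 2)) (b (l 536870927) (l 527834255)))) (b (c (l 536870927) (l 536870927)) (a (b (l 163846291463) (l 2)) (c (l 529781903) (l 529748879)))))) (a (a (l 2) (b (c (l 536870927) (l 536870927)) (l 2))) (b (c (l 536870927) (a (l 536870927) (l 536870927))) (b (c (l 536870927) (l 536870927)) (a (l 2) (l 525657231))))))),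 by decide +kernel⟩

def k3_B00pm_001_s3 : ∃ t, chk3 f_B00pm_001_s3 t 7 6 1 = true :=
  ⟨(b (c (a (c (c (b (b (l 536870927) (a (l 536870927) (l 536870927))) (a (l 536870927) (l 536870927))) (b (b (l 536870927) (l 536870927)) (a (l 536870927) (l 536870927)))) (c (b (b (l 536870927) (l 536870927)) (l 536870927)) (b (l 536870927) (l 536870927)))) (c (b (a (b (l 536870927) (l 536870927)) (c (l 536870927) (l 536870927))) (a (l 536870927) (b (l 16777216) (l 16777216)))) (b (a (l 536870927) (c (l 536870927) (l 536870927))) (a (l 536870927) (l 536870927))))) (c (c (a (b (l 536870927) (l 536870927)) (b (l 536870927) (l 536870927))) (a (b (l 536870927) (l 536870927)) (b (a (l 536870927) (l 536870927)) (l 536870927)))) (a (c (a (l 536870927) (l 536870927)) (a (l 536870927) (l 536870927))) (c (a (l 536870927) (b (l 536870927) (l 16777216))) (a (l 536870927) (b (l 536870927) (l 16777216))))))) (a (c (b (c (c (l 536870927) (l 536870927))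 (c (l 536870927) (l 536870927))) (c (b (l 536870927) (a (l 16752536) (l 16752536))) (b (l 536870927) (a (l 16752216) (l 16752216))))) (c (b (a (l 536870927) (l 536870927)) (b (l 16777216) (l 16751888))) (b (a (l 536870927) (l 536870927)) (b (l 16777216) (l 16751568))))) (a (b (c (c (l 536870927) (l 16777216)) (c (l 16777216) (l 536870927))) (c (b (l 16777216) (l 16752376)) (b (l 16777216) (l 16751728)))) (b (c (c (l 16777216) (l 16777216)) (c (l 16777216) (l 536870927))) (b (c (l 16777216) (l 16777216)) (l 6)))))), by decide +kernel⟩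

def k4_B00pm_001_s3 : ∃ t, chk3 f_B00pm_001_s3 t 3 7 1 = true :=
  ⟨(b (a (a (l 2) (a (l 2) (a (l 2) (b (b (c (l 16650008) (l 16646704)) (l 2)) (l 2))))) (a (b (b (c (c (a (l 16650832) (l 16650832)) (l 16649184)) (a (l 16646704) (l 16646704))) (a (c (l 16455032) (l 194447318647)) (l 6))) (a (a (l 2) (l 6)) (l 6))) (l 6))) (a (l 2) (l 6))), by decide +kernel⟩

theorem t5_B00pm_001_s3 : ∃ t, chk3 f_B00pm_001_s3 t 3 6 1 = true := ex3_a k2_B00pm_001_s3 k3_B00pm_001_s3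

theorem t6_B00pm_001_s3 : ∃ t, chk3 f_B00pm_001_s3 t 3 3 1 = true := ex3_b t5_B00pm_001_s3 k4_B00pm_001_s3

theorem t7_B00pm_001_s3 : ∃ t, chk3 f_B00pm_001_s3 t 1 3 1 = true := ex3_a k1_B00pm_001_s3 t6_B00pm_001_s3

theorem t8_B00pm_001_s3 : ∃ t, chk3 f_B00pm_001_s3 t 1 1 1 = true := ex3_b k0_B00pm_001_s3 t7_B00pm_001_s3

theorem c_B00pm_001_s3 : CertFX 0 536870912 536870912 536870912 1046898278 26843546 false true false .up 0 0 1
    ndF0q0 ndF0q1 pcF0 cut_B00pm_001_s3 xt_B00pm_001_s3 :=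
  certFX0 (fam := false) (s1 := true) (s2 := false) (a := 0) (b := 0) (c := 1) (cn := .up) (n1 := ndF0q0) (n2 := ndF0q1) (pc := pcF0) (cut := cut_B00pm_001_s3) (xt := xt_B00pm_001_s3) (P1 := 0) (W1 := 536870912) (P2 := 536870912) (W2 := 536870912) (P3 := 1046898278) (W3 := 26843546)
    rfl t8_B00pm_001_s3

theorem s_B00pm_001_s3 {κ x : ℝ} (hκ : κ * h0 = kenE x) (hx : 39 / 40 ≤ x) (hx' : x < 1) :
    AltVB (VFD κ) (DD x) tKF tL pcF [⟨4, 0, 0, 2845415833⟩] 0 0 1 0 0 (sgb true) (sgb false) x :=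
  strip_altVB (d := 2845415833) false rfl hκ (κ0 hκ hx) (x0 hx) hx' (covF00 hx hx') (covF01 hx hx') (x1 hx) (x2 hx') c_B00pm_001_s3 cutVB_nil ((ok hx hx').extB (T := tt) (sideF hx hx') hκ (κ0 hκ hx) rfl rfl (.O 0 true) (.O 1 false) (Or.inl rfl))

noncomputable def cut_B00pm_011_s1 : Cut := Cut.of [[⟨4, 0, 0, 1449551462⟩], [⟨0, 0, 0, 67108864⟩, ⟨1, 1, 0, 67108864⟩, ⟨2, 1, 0, 67108864⟩]]

noncomputable def f_B00pm_011_s1 : ℕ → ℕ → ℕ → ℕ → Bool := onCell 0 536870912 536870912 536870912 1046898278 26843546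
    (rowFX 0 false true false .pnn 0 1 1 (qsf 0 536870912 536870912 536870912 1) ndF0q0 ndF0q1 pcF1 cut_B00pm_011_s1 Ext.none)

def k0_B00pm_011_s1 : ∃ t, chk3 f_B00pm_011_s1 t 1 1 1 = true :=
  ⟨(l 6), by decide +kernel⟩

theorem c_B00pm_011_s1 : CertFX 0 536870912 536870912 536870912 1046898278 26843546 false true false .pnn 0 1 1
    ndF0q0 ndF0q1 pcF1 cut_B00pm_011_s1 Ext.none :=
  certFX0 (fam := false) (s1 := true) (s2 := false) (a := 0) (b := 1) (c := 1) (cn := .pnn) (n1 := ndF0q0) (n2 := ndF0q1) (pc := pcF1) (cut := cut_B00pm_011_s1) (xt := Ext.none) (P1 := 0) (W1 := 536870912) (P2 := 536870912) (W2 := 536870912) (P3 := 1046898278) (W3 := 26843546)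
    rfl k0_B00pm_011_s1

theorem s_B00pm_011_s1 {κ x : ℝ} (hκ : κ * h0 = kenE x) (hx : 39 / 40 ≤ x) (hx' : x < 1)
    (H : CutVB (VFD κ) (DD x) tKF tL pcF (Cut.of [[⟨0, 0, 0, 67108864⟩, ⟨1, 1, 0, 67108864⟩, ⟨2, 1, 0, 67108864⟩]]) 0 1 1 0 0 (sgb true) (sgb false) x) :
    AltVB (VFD κ) (DD x) tKF tL pcF [⟨3, 0, 0, 1449551462⟩] 0 1 1 0 0 (sgb true) (sgb false) x :=
  strip_altVB (d := 1449551462) true rfl hκ (κ0 hκ hx) (x0 hx) hx' (covF00 hx hx') (covF01 hx hx') (x1 hx) (x2 hx') c_B00pm_011_s1 H (noExt_VB)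

noncomputable def cut_B00pm_012_s1 : Cut := Cut.of [[⟨4, 0, 0, 1449551462⟩], [⟨0, 0, 0, 67108864⟩, ⟨1, 1, 0, 67108864⟩, ⟨2, 1, 0, 67108864⟩]]

noncomputable def xt_B00pm_012_s1 : Ext := strExtY dd false true false .u0 .u2 .u0m .pnp 0 1 2 rfl rfl gf1 ge vv ndF0q0 ndF0q2

noncomputable def f_B00pm_012_s1 : ℕ → ℕ → ℕ → ℕ → Bool := onCell 0 536870912 0 536870912 1046898278 26843546
    (rowFX 0 false true false .pnp 0 1 2 (qsf 0 536870912 0 536870912 1) ndF0q0 ndF0q2 pcF1 cut_B00pm_012_s1 xt_B00pm_012_s1)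

def k0_B00pm_012_s1 : ∃ t, chk3 f_B00pm_012_s1 t 2 1 1 = true :=
  ⟨(l 6), by decide +kernel⟩

def k1_B00pm_012_s1 : ∃ t, chk3 f_B00pm_012_s1 t 6 2 1 = true :=
  ⟨(b (b (b (b (a (l 6) (a (l 6) (l 6))) (l 6)) (l 6)) (l 6)) (l 6)), by decide +kernel⟩

def k2_B00pm_012_s1 : ∃ t, chk3 f_B00pm_012_s1 t 7 4 2 = true :=
  ⟨(b (a (a (b (c (l 16777216) (l 16777216)) (l 6)) (c (b (c (l 16777216) (l 16777216)) (l 16777216)) (c (b (l 16777216) (l 16777216)) (b (l 16777216) (l 16777216))))) (c (a (b (a (b (b (l 16777216) (l 16777216)) (l 16777216)) (b (c (l 16777216) (l 16777216)) (b (a (l 16777216) (l 16777216)) (l 16777216)))) (c (l 16777216) (l 16777216))) (b (a (b (c (l 16777216) (l 16777216)) (a (c (l 16777216) (l 16777216)) (b (l 16777216) (l 16777216)))) (c (l 536870927) (l 536870927))) (a (b (a (l 16777216) (c (l 16777216) (l 16777216))) (l 16777216)) (a (b (b (c (l 16777216) (l 16777216)) (c (l 16777216) (l 16777216))) (l 16777216))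 (b (c (l 16777216) (l 16777216)) (c (l 16777216) (l 16777216))))))) (a (b (a (b (c (l 16777216) (l 16777216)) (l 16777216)) (b (c (l 16777216) (l 16777216)) (b (a (l 16777216) (l 16777216)) (l 16777216)))) (c (l 16777216) (l 16777216))) (b (a (a (b (l 536870927) (c (l 16777216) (l 16777216))) (c (b (l 16777216) (l 16777216)) (l 16777216))) (c (l 536870927) (l 536870927))) (a (b (a (l 16777216) (c (l 16777216) (l 16777216))) (l 16777216)) (a (b (c (b (l 16777216) (l 16777216)) (l 16777216)) (l 16777216)) (b (c (l 16777216) (l 16777216)) (c (l 16777216) (l 16777216))))))))) (a (l 6) (b (c (a (c (l 16777216) (l 16777216)) (c (a (l 16777216) (l 16777216)) (a (l 16777216) (l 16777216)))) (a (c (l 16777216) (l 16777216)) (c (c (l 16777216) (l 16777216)) (c (l 16777216) (l 16777216))))) (a (l 6) (c (c (l 16777216) (l 16777216)) (c (l 16777216) (l 16777216))))))), by decide +kernel⟩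

def k3_B00pm_012_s1 : ∃ t, chk3 f_B00pm_012_s1 t 7 4 3 = true :=
  ⟨(b (a (c (b (c (l 16777216) (l 16777216)) (a (l 6) (l 16777216))) (c (a (l 16777216) (l 16777216)) (a (l 16777216) (l 16777216)))) (c (a (b (a (b (c (l 16777216) (l 16777216)) (l 16777216)) (b (c (l 16777216) (l 16777216)) (b (l 16777216) (l 16777216)))) (c (l 16777216) (l 16777216))) (b (a (b (l 536870927) (c (b (l 16777216) (l 16777216)) (l 16777216))) (c (l 536870927) (l 536870927))) (b (a (c (l 16777216) (l 16777216)) (c (a (l 16777216) (l 16777216)) (a (l 16777216) (l 16777216)))) (a (l 16777216) (c (l 16777216) (l 16777216)))))) (a (b (a (b (l 16777216) (l 16777216)) (b (l 16777216) (c (l 16777216) (l 16777216)))) (c (l 16777216) (l 16777216))) (b (a (b (l 536870927) (c (l 16777216) (l 16777216))) (c (l 536870927) (l 16777216))) (c (a (b (l 16777216) (l 16777216)) (b (l 16777216) (l 16777216))) (a (l 16777216) (b (l 16777216) (l 16777216)))))))) (a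 (l 6) (b (c (a (c (l 16777216) (l 16777216)) (c (l 16777216) (l 16777216))) (a (c (l 16777216) (l 16777216)) (c (l 16777216) (l 16777216)))) (a (l 6) (c (c (l 16777216) (l 16777216)) (c (l 16777216) (l 16777216))))))), by decide +kernel⟩

def k4_B00pm_012_s1 : ∃ t, chk3 f_B00pm_012_s1 t 7 5 1 = true :=
  ⟨(l 6), by decide +kernel⟩

def k5_B00pm_012_s1 : ∃ t, chk3 f_B00pm_012_s1 t 3 3 1 = true :=
  ⟨(l 6), by decide +kernel⟩

theorem t6_B00pm_012_s1 : ∃ t, chk3 f_B00pm_012_s1 t 7 4 1 = true := ex3_c k2_B00pm_012_s1 k3_B00pm_012_s1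

theorem t7_B00pm_012_s1 : ∃ t, chk3 f_B00pm_012_s1 t 7 2 1 = true := ex3_b t6_B00pm_012_s1 k4_B00pm_012_s1

theorem t8_B00pm_012_s1 : ∃ t, chk3 f_B00pm_012_s1 t 3 2 1 = true := ex3_a k1_B00pm_012_s1 t7_B00pm_012_s1

theorem t9_B00pm_012_s1 : ∃ t, chk3 f_B00pm_012_s1 t 3 1 1 = true := ex3_b t8_B00pm_012_s1 k5_B00pm_012_s1

theorem t10_B00pm_012_s1 : ∃ t, chk3 f_B00pm_012_s1 t 1 1 1 = true := ex3_a k0_B00pm_012_s1 t9_B00pm_012_s1

theorem c_B00pm_012_s1 : CertFX 0 536870912 0 536870912 1046898278 26843546 false true false .pnp 0 1 2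
    ndF0q0 ndF0q2 pcF1 cut_B00pm_012_s1 xt_B00pm_012_s1 :=
  certFX0 (fam := false) (s1 := true) (s2 := false) (a := 0) (b := 1) (c := 2) (cn := .pnp) (n1 := ndF0q0) (n2 := ndF0q2) (pc := pcF1) (cut := cut_B00pm_012_s1) (xt := xt_B00pm_012_s1) (P1 := 0) (W1 := 536870912) (P2 := 0) (W2 := 536870912) (P3 := 1046898278) (W3 := 26843546)
    rfl t10_B00pm_012_s1

theorem s_B00pm_012_s1 {κ x : ℝ} (hκ : κ * h0 = kenE x) (hx : 39 / 40 ≤ x) (hx' : x < 1)
    (H : CutVB (VFD κ) (DD x) tKF tL pcF (Cut.of [[⟨0, 0, 0, 67108864⟩, ⟨1, 1, 0, 67108864⟩, ⟨2, 1, 0, 67108864⟩]]) 0 1 2 0 0 (sgb true) (sgb false) x) :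
    AltVB (VFD κ) (DD x) tKF tL pcF [⟨3, 0, 0, 1449551462⟩] 0 1 2 0 0 (sgb true) (sgb false) x :=
  strip_altVB (d := 1449551462) true rfl hκ (κ0 hκ hx) (x0 hx) hx' (covF00 hx hx') (covF02 hx hx') (x1 hx) (x2 hx') c_B00pm_012_s1 H ((ok hx hx').extB (T := tt) (sideF hx hx') hκ (κ0 hκ hx) rfl rfl (.O 0 true) (.O 2 false) (Or.inr rfl))

end Pool.Agent.Strip051.G.IE1.Tab.St.C
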