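import Pool.Agent.Strip051.G.IE1.Tab

/-! # Certificates F13 (generated) -/

set_option linter.all false
set_option maxRecDepth 100000

namespace Pool.Agent.Strip051.G.IE1.Tab.C.FA06

open Pool.Agent.Strip051.PB Pool.Agent.Strip051.PB.T
open Pool.Agent.Strip051.G.IE1.Tab

noncomputable def f_pm_022 : ℕ → ℕ → ℕ → ℕ → Bool := onCell 1073741824 536870912 1073741824 536870912 1046898278 26843546
    (rowFX 2 true true false .pp 0 2 2 (qsf 0 536870912 1073741824 536870912 2) ndF0q0 ndF6q2 pcF2 Cut.none Ext.none)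

def k0_pm_022 : ∃ t, chk3 f_pm_022 t 4 1 1 = true :=
  ⟨(l 3), by decide +kernel⟩

def k1_pm_022 : ∃ t, chk3 f_pm_022 t 40 2 1 = true :=
  ⟨(l 3), by decide +kernel⟩

def k2_pm_022 : ∃ t, chk3 f_pm_022 t 82 4 1 = true :=
  ⟨(b (a (l 3) (a (l 3) (b (c (l 16283184) (l 16273784)) (l 3)))) (l 3)), by decide +kernel⟩

def k3_pm_022 : ∃ t, chk3 f_pm_022 t 166 4 1 = true :=
  ⟨(a (b (c (b (l 16182944) (l 16445904)) (b (l 16194064) (l 16402776))) (l 3)) (b (c (b (c (l 16253128) (l 16247976)) (b (l 16456488) (l 16521216))) (b (c (l 16242824) (l 16237680)) (c (l 16467656) (l 16424856)))) (b (c (b (l 16353336) (c (l 16303128) (l 16301760))) (b (l 16389872) (l 16296080))) (b (c (c (l 16304456) (l 16324632)) (l 16325912)) (l 3))))), by decide +kernel⟩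

def k4_pm_022 : ∃ t, chk3 f_pm_022 t 334 4 1 = true :=
  ⟨(a (b (c (b (l 16238392) (l 16433856)) (b (l 16206776) (l 16368816))) (b (c (b (l 16408384) (c (l 16312936) (l 16310536))) (b (l 16403392) (l 16305072))) (c (c (b (l 16316024) (l 16313760)) (b (l 16337752) (l 16348336))) (c (l 16348264) (l 16348552))))) (b (a (c (b (l 16232320) (l 16468776)) (b (l 16221512) (l 16403536))) (c (b (l 16228288) (l 16422216)) (b (l 16196392) (l 16377816)))) (c (b (b (a (l 16414928) (l 16419280)) (c (l 16298264) (l 16316744))) (c (b (l 16281480) (l 16320696)) (b (l 16343664) (l 16334400)))) (b (b (a (l 16410136) (l 16414624)) (a (l 16309656) (l 16312872))) (c (l 16355912) (l 16353992)))))), by decide +kernel⟩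

def k5_pm_022 : ∃ t, chk3 f_pm_022 t 335 4 1 = true :=
  ⟨(a (a (a (b (c (b (l 16225256) (l 16439696)) (b (l 16214256) (l 16374224))) (b (c (b (l 16422536) (l 16322352)) (b (l 16417984) (l 16315224))) (c (c (b (l 16328216) (l 16324712)) (l 16332168)) (l 16362408)))) (a (b (c (b (c (l 16226128) (l 16220600)) (l 16437952)) (b (c (l 16215072) (l 16209544)) (l 16372432))) (b (c (b (l 16424168) (l 16323496)) (b (l 16419664) (l 16316408))) (c (c (b (l 16329616) (l 16325984)) (l 16333272)) (l 16363496)))) (a (a (b (c (b (l 16222400) (l 16479168)) (b (l 16169376) (l 16392656))) (b (c (b (l 16424840) (l 16323968)) (b (l 16420360) (l 16316888))) (c (c (b (l 16330208) (l 16326488)) (l 16354704)) (l 16363952)))) (b (b (b (l 16145152) (c (l 16290248) (b (l 16246296) (l 16315888)))) (c (l 16394992) (b (l 16420424) (l 16551512)))) (b (c (b (l 16425112) (c (l 16324952) (l 16322280))) (b (l 16420640) (l 16317088))) (c (c (b (l 16330432) (l 16326712)) (b (l 16349104) (l 16361944))) (l 16343160)))))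 (b (b (l 16215496) (l 16393248)) (b (b (l 16423296) (c (l 16324456) (l 16317416))) (c (b (l 16335232) (l 16281592)) (l 16364400))))))) (b (b (l 16213192) (l 16390696)) (b (b (l 16425768) (c (l 16326240) (l 16319440))) (c (b (l 16336864) (l 16283488)) (l 16365992))))) (b (b (l 16207056) (l 16383824)) (b (b (l 16432376) (c (l 16330968) (l 16324712))) (c (c (l 16274632) (l 16359584)) (l 16370264))))), by decide +kernel⟩

def k6_pm_022 : ∃ t, chk3 f_pm_022 t 41 5 1 = true :=
  ⟨(a (l 3) (b (a (l 3) (a (b (c (b (a (c (l 16343600) (l 16357408)) (c (l 16346936) (l 16341904))) (a (l 16170928) (a (l 16151784) (l 16111088)))) (b (a (c (l 16343784) (l 16397664)) (c (c (l 16381440) (l 16396152)) (l 16402640))) (c (a (l 16168360) (l 16109320)) (a (l 16052040) (b (l 16225488) (l 16070768)))))) (l 1)) (b (c (b (a (a (a (c (l 16348792) (l 16365912)) (a (c (l 16349400) (l 16366920)) (a (a (c (l 16349632) (l 16367320)) (c (l 16349744) (l 16367504))) (l 16341376)))) (l 16343088)) (l 16326080)) (a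 (a (a (l 16132992) (a (l 16112488) (a (a (l 16154624) (l 16091792)) (l 16175800)))) (l 16176576)) (l 16178640))) (a (b (a (a (c (l 16372312) (l 16405328)) (a (c (l 16373544) (l 16406352)) (c (a (a (l 16374048) (l 16353288)) (l 16395544)) (b (l 16398680) (l 16414024))))) (l 16402296)) (a (a (c (l 16174328) (b (l 16292080) (l 16073128))) (a (c (l 16175032) (b (l 16293208) (l 16073920))) (c (b (l 16168952) (l 16072880)) (b (c (l 16227128) (l 16294784)) (c (l 16070696) (l 16075008)))))) (b (c (l 16275648) (l 16293640)) (l 16078544)))) (b (l 16406160) (b (c (l 16279848) (l 16297872)) (l 16082128))))) (a (l 1) (c (l 15521904) (l 15538248)))))) (l 1))), by decide +kernel⟩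

def k7_pm_022 : ∃ t, chk3 f_pm_022 t 21 2 1 = true :=
  ⟨(b (b (b (c (l 15977440) (l 15941392)) (c (l 16143472) (l 16115672))) (b (b (a (l 16401488) (l 16438808)) (c (a (l 16325912) (l 16530312)) (l 16400976))) (c (a (c (b (a (l 16366208) (l 16417056)) (l 16290680)) (l 16309744)) (b (l 16496016) (l 16379720))) (a (l 16418680) (l 16478936))))) (b (b (b (c (a (c (l 16363008) (a (l 16406000) (l 16454336))) (c (l 16364832) (l 16388312))) (a (l 16299928) (l 16377184))) (c (c (a (l 16123088) (l 16050032)) (a (l 16049808) (b (l 16304320) (l 16115080)))) (a (c (b (l 16169416) (l 16080456)) (l 15997872)) (c (l 16096376) (l 16329448))))) (b (c (a (l 15826736) (l 15643728)) (a (c (l 15819208) (l 15653072)) (c (l 15694656) (l 15811008)))) (c (l 15476984) (a (l 15414728) (c (l 15493952) (l 15469872)))))) (b (c (l 335036739655) (l 331815420471)) (l 1)))), by decide +kernel⟩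

def k8_pm_022 : ∃ t, chk3 f_pm_022 t 11 2 1 = true :=
  ⟨(b (b (b (a (c (l 15844032) (b (l 15750512) (l 15891848))) (c (b (a (l 15610224) (l 15541864)) (l 15692632)) (b (a (l 15580568) (l 15509912)) (l 15602592)))) (c (a (l 16108512) (l 15887592)) (a (l 15968608) (b (l 15800480) (l 15931464))))) (b (b (c (l 16055424) (l 16001840)) (a (a (l 16409424) (l 16283016)) (l 16073576))) (a (c (a (b (l 16373968) (l 16343128)) (l 16221680)) (l 16219360)) (c (l 16043016) (l 16028960))))) (b (a (b (b (c (a (l 16207016) (l 16174832)) (l 16214408)) (c (a (b (l 16253120) (l 16077736)) (l 16162648)) (l 16280640))) (b (c (a (c (l 15910352) (l 15807344)) (b (c (l 16164064) (l 16201552)) (l 15927432))) (a (l 15852424) (l 16107816))) (c (a (l 15484064) (c (l 15680816) (l 15636112))) (a (c (l 15527968) (l 15597696)) (l 15695208))))) (b (b (l 15845288) (a (b (l 16146560) (l 16294192)) (l 16085712))) (b (c (a (l 16001872) (l 16282464)) (l 16173608)) (c (a (l 15638768) (l 15919408)) (l 15870944)))))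 (b (a (c (b (a (l 15205928) (l 15297696)) (l 14875712)) (b (a (c (l 15184248) (l 15176456)) (c (l 15292768) (l 15294984))) (a (l 14783080) (l 14782632)))) (c (b (a (c (l 15403312) (l 15417008)) (l 15517304)) (a (l 15021640) (l 14895432))) (b (l 15403200) (a (l 14947304) (l 15132808))))) (c (c (l 271685545079) (l 272222380759)) (a (l 14514824) (b (a (l 14723472) (l 14852728)) (l 14673032))))))), by decide +kernel⟩

def k9_pm_022 : ∃ t, chk3 f_pm_022 t 5 3 1 = true :=
  ⟨(a (l 1) (b (b (c (l 14335232) (l 293696515223)) (l 1)) (l 1))), by decide +kernel⟩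

def k10_pm_022 : ∃ t, chk3 f_pm_022 t 6 2 1 = true :=
  ⟨(b (b (a (b (c (a (b (l 15526040) (l 15569936)) (l 15543072)) (a (b (l 15493536) (a (l 15544008) (l 15528328))) (l 15490040))) (a (c (b (l 15644392) (l 15748080)) (b (a (l 15642656) (l 15577760)) (l 15722416))) (c (l 15617096) (b (l 15562760) (l 15606264))))) (c (c (l 15584744) (l 15569160)) (c (b (l 15519032) (l 15587464)) (b (l 15503000) (l 15572304))))) (a (b (b (a (l 15858576) (c (l 15705824) (l 15678456))) (a (l 15908968) (l 15637184))) (a (l 15824568) (l 15635872))) (c (b (b (l 15659576) (l 15628832)) (a (l 15496032) (l 15426528))) (b (b (l 15630552) (a (l 15602608) (l 15594096))) (a (l 15463592) (l 15391520)))))) (b (b (a (b (a (l 15746704) (l 15557456)) (a (l 15954640) (l 15760288))) (b (a (l 15386584) (l 15251328)) (a (l 15589472) (l 15437072)))) (a (a (b (l 16220680) (a (l 15958680) (l 16192320))) (b (l 16163488) (l 16373968))) (b (l 15830160) (l 16192184)))) (a (b (a (c (b (a (l 15662672) (l 15798952)) (a (l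 15284688) (l 15420344))) (l 15496760)) (b (l 16031520) (c (l 15640864) (l 15634784)))) (a (c (b (a (l 15001088) (l 15145056)) (a (l 14868448) (l 15000304))) (b (l 15071480) (l 14933248))) (c (b (l 15376584) (l 15227696)) (l 15276904)))) (b (a (l 15905616) (l 16367264)) (a (c (l 15590792) (l 15591696)) (l 15927544)))))), by decide +kernel⟩

def k11_pm_022 : ∃ t, chk3 f_pm_022 t 6 3 1 = true :=
  ⟨(b (a (b (c (b (a (l 14772616) (b (l 15081056) (l 14940856))) (l 14678560)) (b (a (b (l 14795600) (l 14673032)) (l 15010656)) (a (l 14514352) (l 14742600)))) (c (l 14377176) (l 14147064))) (b (c (b (a (l 15162680) (l 15590480)) (a (l 15017424) (l 15309480))) (b (l 15433984) (a (l 15010656) (l 15276544)))) (c (a (l 14678560) (b (l 15017424) (l 14772616))) (a (b (l 14742600) (l 14514352)) (b (l 15010656) (l 14742600)))))) (b (c (l 326982232375) (a (l 1) (l 14126088))) (l 1))), by decide +kernel⟩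

def k12_pm_022 : ∃ t, chk3 f_pm_022 t 7 1 1 = true :=
  ⟨(a (b (b (b (c (c (l 15584744) (l 15569160)) (c (l 15553568) (b (l 15503000) (l 15572304)))) (b (c (l 15641512) (b (l 15630552) (l 15594096))) (c (l 15420960) (l 15385736)))) (b (b (b (c (l 15233688) (l 15193592)) (a (l 15354552) (l 15347992))) (a (l 15658912) (l 15771760))) (b (b (l 16210976) (l 16491632)) (l 16206528)))) (b (a (b (b (l 15927256) (l 15582704)) (b (l 15113824) (c (l 15017424) (l 15010656)))) (b (l 16066728) (b (l 15582704) (l 15176744)))) (b (c (b (l 233031291831) (l 14678560)) (b (a (l 14742600) (l 15010656)) (l 230346401751))) (c (l 14377176) (l 14314832))))) (b (b (b (c (c (l 15584744) (l 15569160)) (c (l 15553568) (b (l 15503000) (l 15572304)))) (b (c (l 15641512) (b (l 15630552) (l 15594096))) (c (l 15420960) (l 15385736)))) (b (b (b (l 15213640) (l 15347992)) (c (l 15863192) (l 15839448))) (b (b (l 16320224) (l 16616568)) (a (l 16670072) (l 16769248))))) (c (b (b (l 16407608) (l 15706264)) (b (b (l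 15383872) (a (l 15017424) (l 15309480))) (a (l 14678560) (l 14846752)))) (b (b (l 16294240) (l 15770208)) (b (b (l 15475928) (l 195450821255)) (a (l 218535241687) (l 172364779575))))))), by decide +kernel⟩

theorem s13_pm_022 : ∃ t, chk3 f_pm_022 t 6 1 1 = true := ex3_b k10_pm_022 k11_pm_022

theorem s14_pm_022 : ∃ t, chk3 f_pm_022 t 3 1 1 = true := ex3_a s13_pm_022 k12_pm_022

theorem s15_pm_022 : ∃ t, chk3 f_pm_022 t 167 4 1 = true := ex3_a k4_pm_022 k5_pm_022

theorem s16_pm_022 : ∃ t, chk3 f_pm_022 t 83 4 1 = true := ex3_a k3_pm_022 s15_pm_022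

theorem s17_pm_022 : ∃ t, chk3 f_pm_022 t 41 4 1 = true := ex3_a k2_pm_022 s16_pm_022

theorem s18_pm_022 : ∃ t, chk3 f_pm_022 t 41 2 1 = true := ex3_b s17_pm_022 k6_pm_022

theorem s19_pm_022 : ∃ t, chk3 f_pm_022 t 20 2 1 = true := ex3_a k1_pm_022 s18_pm_022

theorem s20_pm_022 : ∃ t, chk3 f_pm_022 t 10 2 1 = true := ex3_a s19_pm_022 k7_pm_022

theorem s21_pm_022 : ∃ t, chk3 f_pm_022 t 5 2 1 = true := ex3_a s20_pm_022 k8_pm_022

theorem s22_pm_022 : ∃ t, chk3 f_pm_022 t 5 1 1 = true := ex3_b s21_pm_022 k9_pm_022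

theorem s23_pm_022 : ∃ t, chk3 f_pm_022 t 2 1 1 = true := ex3_a k0_pm_022 s22_pm_022

theorem s24_pm_022 : ∃ t, chk3 f_pm_022 t 1 1 1 = true := ex3_a s23_pm_022 s14_pm_022

theorem c_pm_022 : CertFX 0 536870912 1073741824 536870912 1046898278 26843546 true true false .pp 0 2 2
    ndF0q0 ndF6q2 pcF2 Cut.none Ext.none :=
  certFX2 (fam := true) (s1 := true) (s2 := false) (a := 0) (b := 2) (c := 2) (cn := .pp) (n1 := ndF0q0) (n2 := ndF6q2) (pc := pcF2) (cut := Cut.none) (xt := Ext.none) (P1 := 0) (W1 := 536870912) (P2 := 1073741824) (W2 := 536870912) (P3 := 1046898278) (W3 := 26843546)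
    rfl (fun _ => rfl) s24_pm_022

noncomputable def f_pm_023 : ℕ → ℕ → ℕ → ℕ → Bool := onCell 0 536870912 1073741824 536870912 1046898278 26843546
    (rowFX 0 true true false .up 0 2 3 (qsf 0 536870912 1073741824 536870912 3) ndF0q0 ndF6q2 pcF3 Cut.none Ext.none)

def k0_pm_023 : ∃ t, chk3 f_pm_023 t 1 1 1 = true :=
  ⟨(b (a (b (l 1) (a (l 1) (b (l 1) (a (l 1) (b (l 1) (l 16670072)))))) (b (a (b (l 1) (a (l 1) (b (l 1) (l 15403352)))) (b (c (a (l 15576952) (l 15576952)) (a (l 15503832) (c (l 15553568) (l 15537984)))) (a (b (c (l 15641512) (l 15612016)) (l 15277520)) (c (b (l 15641512) (l 15420960)) (b (b (l 15630552) (l 15594096)) (l 15385736)))))) (b (a (b (a (l 1) (b (l 15213640) (l 15347992))) (a (l 15851320) (l 15830344))) (b (a (b (l 15213640) (l 15347992)) (b (c (l 15233688) (l 15193592)) (l 15264104))) (a (l 15830344) (l 15620632)))) (a (b (c (l 16409984) (a (l 16464992) (l 16464992))) (l 16776784)) (b (a (b (l 16320224) (l 16613856)) (l 16343120)) (a (l 16776784) (l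 16776784))))))) (a (a (a (b (l 1) (a (c (l 14867920) (l 14665280)) (c (l 15149528) (l 15131104)))) (b (l 481603870167) (a (l 15428120) (l 15778896)))) (b (a (l 16161816) (b (l 16669896) (l 16669896))) (a (l 16203752) (b (l 16669896) (l 16669896))))) (b (a (c (l 16777216) (l 16777216)) (c (l 16777216) (a (l 16777216) (l 16777208)))) (a (b (l 16777216) (l 16777192)) (b (a (l 16777216) (a (l 16776472) (l 16775000))) (a (b (l 16776248) (l 16757024)) (b (a (l 16767656) (l 16761768)) (a (l 16749056) (b (a (l 16750240) (l 16773752)) (a (l 16769096) (a (l 16761416) (b (l 16756536) (a (l 16751328) (b (l 16748568) (a (l 16728328) (b (l 16730720) (l 16750392))))))))))))))))), by decide +kernel⟩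

theorem c_pm_023 : CertFX 0 536870912 1073741824 536870912 1046898278 26843546 true true false .up 0 2 3
    ndF0q0 ndF6q2 pcF3 Cut.none Ext.none :=
  certFX0 (fam := true) (s1 := true) (s2 := false) (a := 0) (b := 2) (c := 3) (cn := .up) (n1 := ndF0q0) (n2 := ndF6q2) (pc := pcF3) (cut := Cut.none) (xt := Ext.none) (P1 := 0) (W1 := 536870912) (P2 := 1073741824) (W2 := 536870912) (P3 := 1046898278) (W3 := 26843546)
    rfl k0_pm_023

noncomputable def f_pm_033 : ℕ → ℕ → ℕ → ℕ → Bool := onCell 1610612736 536870912 0 1230186008 1046898278 26843546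
    (rowFX 2 true true false .pnn 0 3 3 (qsf 0 536870912 0 1230186008 3) ndF0q0 ndF6q3 pcF3 Cut.none Ext.none)

def k0_pm_033 : ∃ t, chk3 f_pm_033 t 2 1 1 = true :=
  ⟨(b (l 1) (b (a (l 1) (b (l 1) (a (l 1) (b (l 1) (c (l 14515296) (a (l 1) (l 14439136))))))) (b (a (l 1) (b (a (c (l 14420464) (l 329666956295)) (c (a (l 14720824) (b (l 14840568) (l 15046440))) (a (b (l 14580464) (l 14600168)) (b (a (l 14744248) (l 14876704)) (l 15041152))))) (a (b (a (l 1) (c (l 14760544) (l 14625064))) (c (l 14682672) (a (l 14704248) (l 14967232)))) (c (a (b (l 15003952) (l 15262248)) (b (l 15295792) (l 15546768))) (a (b (l 14955608) (l 15231504)) (l 15347464)))))) (a (b (a (l 1) (c (b (l 14630824) (l 14668168)) (b (l 189544112567) (a (l 14689728) (l 14949128))))) (a (c (b (l 14640472) (l 14706912)) (b (l 162700588071) (a (l 14728472) (l 14992672)))) (a (b (c (l 14972640) (l 14962792)) (l 15099344)) (b (l 14982344) (l 15562040))))) (b (b (a (a (c (l 14960624) (l 14950976)) (c (l 15243824) (l 15223448)))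 (a (l 15519432) (l 15863440))) (a (c (l 15173728) (l 15271656)) (l 16003472))) (a (b (a (l 15530632) (l 15874128)) (l 16046264)) (b (l 16287880) (l 16545624)))))))), by decide +kernel⟩

def k1_pm_033 : ∃ t, chk3 f_pm_033 t 6 1 1 = true :=
  ⟨(b (l 1) (b (a (b (l 1) (b (c (l 14650872) (a (l 14485696) (b (l 14625744) (l 14778304)))) (c (a (l 14765040) (b (l 14970168) (l 15178128))) (a (b (l 14699168) (l 14841992)) (b (l 14963240) (l 15153432)))))) (b (a (b (l 1) (c (l 14697760) (b (l 14588384) (l 14549688)))) (c (b (l 14683712) (a (l 14857656) (l 14879200))) (b (a (l 14582248) (l 14694160)) (a (l 14754800) (l 14915104))))) (a (b (c (b (l 14888616) (l 15059440)) (b (l 14831992) (l 15054720))) (c (b (l 15259216) (l 15470288)) (l 15373072))) (b (c (b (l 15000368) (l 15268160)) (b (l 15143320) (l 15320616))) (b (l 15368680) (l 15793760)))))) (b (a (b (c (a (b (l 15103744) (l 15343312)) (l 15303680)) (a (b (l 15091624) (l 15306288)) (l 15505440))) (a (b (l 15593096) (l 15882360)) (l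 15831648))) (b (a (l 15795688) (l 16128864)) (a (l 16287632) (l 16420696)))) (b (a (b (l 16173480) (l 16496312)) (b (l 16600168) (l 16763640))) (a (b (l 16685528) (l 16767808)) (l 16777176)))))), by decide +kernel⟩

def k2_pm_033 : ∃ t, chk3 f_pm_033 t 7 1 1 = true :=
  ⟨(b (a (b (l 1) (a (a (a (l 1) (l 4)) (l 4)) (l 4))) (l 4)) (a (b (b (b (a (a (c (l 14840560) (b (l 14743888) (l 14876072))) (b (l 4) (c (l 176861405751) (l 15000864)))) (l 4)) (a (c (a (l 15127800) (l 15238464)) (a (l 15109128) (l 15239600))) (a (c (c (l 15441736) (l 15418896)) (l 15392496)) (l 4)))) (a (b (c (a (l 15519504) (l 15654056)) (l 15545312)) (a (l 15914400) (b (l 15958744) (l 16153144)))) (a (b (c (l 15817232) (l 15791560)) (l 16185880)) (b (c (l 15968160) (l 15946560)) (l 16250760))))) (b (a (b (l 16260496) (l 16512816)) (b (a (l 16472888) (b (l 16577432) (l 16718456))) (b (l 16750600) (l 16750928)))) (a (b (l 16775760) (l 16775776)) (b (l 16743256) (l 16739776))))) (a (b (b (l 4) (a (b (a (a (l 349199117431)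 (l 4)) (l 4)) (c (l 16384592) (l 16395712))) (a (c (l 459795074871) (l 452278851751)) (l 4)))) (a (b (b (c (l 16718640) (l 16714400)) (l 16753272)) (l 16729784)) (c (b (b (l 16584384) (l 16760104)) (l 16755336)) (b (b (a (l 16758344) (l 16750904)) (l 16752104)) (l 16739472))))) (b (l 4) (a (b (c (l 797488350663) (l 758833249255)) (c (l 16758792) (l 16740496))) (b (a (c (l 16707312) (l 16704008)) (l 4)) (a (c (l 16727592) (l 16723224)) (b (a (l 16705648) (l 4)) (a (l 16723984) (a (l 16732376) (l 16748480))))))))))), by decide +kernel⟩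

theorem s3_pm_033 : ∃ t, chk3 f_pm_033 t 3 1 1 = true := ex3_a k1_pm_033 k2_pm_033

theorem s4_pm_033 : ∃ t, chk3 f_pm_033 t 1 1 1 = true := ex3_a k0_pm_033 s3_pm_033

theorem c_pm_033 : CertFX 0 536870912 0 1230186008 1046898278 26843546 true true false .pnn 0 3 3
    ndF0q0 ndF6q3 pcF3 Cut.none Ext.none :=
  certFX2 (fam := true) (s1 := true) (s2 := false) (a := 0) (b := 3) (c := 3) (cn := .pnn) (n1 := ndF0q0) (n2 := ndF6q3) (pc := pcF3) (cut := Cut.none) (xt := Ext.none) (P1 := 0) (W1 := 536870912) (P2 := 0) (W2 := 1230186008) (P3 := 1046898278) (W3 := 26843546)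
    rfl (fun _ => rfl) s4_pm_033

noncomputable def f_pm_101 : ℕ → ℕ → ℕ → ℕ → Bool := onCell 536870912 536870912 0 536870912 1046898278 26843546
    (rowFX 2 true true false .npn 1 0 1 (qsf 536870912 536870912 0 536870912 1) ndF0q1 ndF6q0 pcF1 Cut.none Ext.none)

def k0_pm_101 : ∃ t, chk3 f_pm_101 t 2 1 1 = true :=
  ⟨(l 3), by decide +kernel⟩

def k1_pm_101 : ∃ t, chk3 f_pm_101 t 12 2 1 = true :=
  ⟨(b (a (l 3) (a (l 3) (b (b (b (c (b (c (l 192366037991) (c (l 15976552) (b (l 15959136) (b (l 15984056) (a (l 119888343607) (l 15997392)))))) (c (b (b (a (l 95729260807) (l 16019288)) (c (c (l 16036256) (l 174112406823)) (a (b (l 90897397543) (l 16027376)) (l 16006216)))) (c (c (b (b (l 167669998535) (l 16045088)) (l 16041400)) (l 16035016)) (l 16021936))) (b (b (b (c (l 190218485223) (l 15999528)) (l 190755346391)) (l 16002752)) (c (l 16004800) (b (l 185923489607) (l 181091636727)))))) (b (c (b (c (l 15958360) (l 222430594247)) (c (b (l 210082629399) (l 15985136)) (b (l 217061939335)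 (l 212766977463)))) (b (c (b (l 15948224) (c (l 226188724103) (l 229946808151))) (b (b (c (l 15943576) (b (l 242831696887) (l 241757960423))) (c (l 236389258151) (l 15945592))) (c (l 15952720) (l 15953176)))) (c (b (l 224041238759) (l 15969488)) (l 15967496)))) (c (b (c (a (l 116130226567) (l 15983112)) (l 205787656551)) (l 193976530695)) (l 212766984087)))) (c (c (b (b (c (l 154785116599) (l 160690611399)) (c (c (l 16024952) (b (l 16018856) (l 142437001863))) (b (b (l 154248142023) (l 151563788599)) (l 147805741703)))) (c (b (b (b (c (l 135457787447) (l 16022360)) (l 133847095111)) (l 130089010839)) (l 122572919399)) (l 16053240))) (b (b (c (b (l 169280498807) (l 164448673047)) (l 16010176)) (l 16030632)) (l 146732036039))) (c (c (l 168206775079) (l 176796730631)) (l 189144782551)))) (a (l 3) (c (c (b (c (l 156396010599) (l 16131144)) (b (c (l 16198152) (l 116667538951)) (c (b (l 80697330647) (l 63517503079)) (l 16247168)))) (b (c (l 170891295895) (l 179481252647)) (l 16222960)))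 (c (l 167670114647) (l 16170312))))) (b (b (b (c (c (l 70496882791) (l 16280112)) (l 16270520)) (l 3)) (l 3)) (l 3))))) (l 3)), by decide +kernel⟩

def k2_pm_101 : ∃ t, chk3 f_pm_101 t 13 8 1 = true :=
  ⟨(b (b (c (a (b (c (l 15983088) (a (c (l 15979752) (l 15956736)) (l 15984000))) (c (b (b (l 16024144) (c (l 16040200) (l 16032128))) (a (l 16033000) (l 16038072))) (b (a (c (l 16014296) (l 15999512)) (l 16011888)) (c (l 16010296) (l 15978768))))) (b (a (l 15992128) (l 15957384)) (a (c (l 16039280) (l 16021448)) (c (l 16016872) (l 15996288))))) (a (b (c (b (l 15964008) (a (c (l 15985536) (l 15954960)) (l 15965392))) (b (c (b (l 15955144) (l 15922744)) (b (a (c (l 15949592) (l 15947904)) (l 15955648)) (l 15959344))) (c (l 15973160) (l 15974504)))) (c (b (c (l 15988768) (l 15986920)) (l 16005576)) (l 16003008))) (b (a (c (l 15984408) (b (l 15970904) (l 15985856))) (c (b (l 15931912) (l 15961536)) (b (l 15921800) (l 15948760)))) (a (c (l 16011752) (l 16016352)) (c (l 15983832) (l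 15985680)))))) (c (a (c (b (a (b (l 16024720) (c (l 16024928) (l 16020744))) (l 15989592)) (a (b (c (l 16033304) (l 16042960)) (l 16063144)) (l 16055960))) (c (b (a (b (l 16008688) (l 16028200)) (l 16024696)) (l 16069064)) (l 16054104))) (a (b (c (l 16038328) (l 16036968)) (l 16072608)) (c (b (l 16016648) (l 16041056)) (l 16037064)))) (a (c (a (l 16017584) (l 16065528)) (l 16061192)) (a (l 16073008) (l 16044960))))) (a (c (b (c (a (a (l 16126504) (l 16128384)) (l 16132168)) (a (c (l 16141688) (l 16144992)) (l 16147432))) (c (a (c (b (l 16200000) (a (b (l 16237168) (l 16259640)) (l 16249560))) (b (l 16207584) (l 16248904))) (b (l 16207872) (l 16252728))) (a (l 16224880) (l 16229904)))) (b (c (l 16144488) (l 16136288)) (a (l 16214464) (l 16220136)))) (c (a (b (l 16103864) (c (l 16235656) (l 16237072))) (b (l 16123072) (c (l 16214280) (l 16213360)))) (a (l 16190480) (l 16163040))))), by decide +kernel⟩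

def k3_pm_101 : ∃ t, chk3 f_pm_101 t 13 9 1 = true :=
  ⟨(a (b (c (a (c (b (a (c (l 16307208) (l 16304144)) (l 16307392)) (l 190756193719)) (b (l 16300392) (l 16374672))) (c (b (l 16310888) (l 16383896)) (l 16341936))) (a (b (a (l 16290392) (l 16292384)) (l 241758791287)) (b (l 16296680) (l 16371928)))) (c (b (a (c (a (l 91972114423) (l 16447752)) (l 176797569799)) (l 16448968)) (a (c (l 122573833287) (l 144048663095)) (l 16497192))) (a (c (l 182166266375) (l 205788570375)) (b (l 16441008) (l 16490376))))) (b (c (a (b (l 16314768) (l 16387880)) (c (l 16332168) (l 16325432))) (a (l 16341944) (l 16315352))) (a (c (l 16479304) (l 16473064)) (c (l 16457472) (l 16447312))))), by decide +kernel⟩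

def k4_pm_101 : ∃ t, chk3 f_pm_101 t 13 5 1 = true :=
  ⟨(a (a (a (l 3) (b (b (c (c (b (l 131700724919) (l 77476763031)) (l 132774361687)) (c (l 16537120) (l 16555312))) (l 3)) (l 3))) (b (c (b (c (b (l 16543856) (a (l 16586704) (l 16588896))) (b (l 16540976) (l 16585400))) (c (a (l 146733188887) (l 16653296)) (l 16629960))) (b (c (l 16560736) (l 16558120)) (c (l 16649368) (l 16626840)))) (b (c (c (l 16692960) (l 16713400)) (l 180556219575)) (c (l 95193915543) (l 117742493847))))) (b (a (c (b (l 16549320) (l 16646160)) (b (l 16566032) (l 16654296))) (c (b (l 16548848) (l 16593552)) (b (l 16541096) (l 16630136)))) (a (c (b (l 16717440) (l 16774368)) (b (l 16737928) (l 16774296))) (c (b (l 16654256) (l 16757056)) (b (l 16714408) (l 16756528)))))), by decide +kernel⟩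

def k5_pm_101 : ∃ t, chk3 f_pm_101 t 7 4 1 = true :=
  ⟨(a (b (b (a (b (c (b (l 15771008) (c (l 15873824) (l 15826448))) (b (c (l 15707392) (b (l 15638504) (l 15688608))) (c (l 15787160) (l 15762160)))) (c (b (a (l 15939592) (l 15841656)) (l 15933592)) (l 15879128))) (b (c (b (l 15604568) (c (l 15740440) (l 15632968))) (b (c (l 15430152) (l 15314032)) (l 15487032))) (c (b (l 15733208) (l 15789104)) (l 15640136)))) (a (c (b (a (l 16050080) (l 15979128)) (l 15892112)) (a (l 16070496) (l 15976808))) (a (c (b (l 15910488) (l 16000344)) (l 15882264)) (c (l 15905056) (l 15802296))))) (a (b (c (c (l 16220760) (l 16201832)) (l 16173464)) (c (l 16331960) (l 16302360))) (b (a (c (l 16098240) (l 16035664)) (c (l 16034896) (l 15956480))) (a (l 16181096) (l 16096544))))) (b (b (b (a (c (b (l 15721504) (c (l 15828488) (l 15626368))) (b (c (b (l 15281080) (l 15344896)) (b (l 14779584) (l 15096640))) (c (l 15430024) (l 15247256)))) (c (b (a (l 16189568) (a (l 15934280) (l 16020408))) (a (c (l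 16168928) (l 15880232)) (c (b (l 16036920) (l 16057232)) (b (l 16032528) (l 16080416))))) (b (c (a (l 15599200) (b (l 16022832) (a (l 15949944) (l 15905048)))) (a (b (l 14982144) (l 15116808)) (b (a (l 15224192) (c (l 16004160) (l 15674560))) (l 15620328)))) (a (l 15315216) (c (l 15707208) (l 15536096)))))) (a (c (b (l 15744304) (l 15779568)) (l 15522248)) (c (a (b (l 15921192) (l 15907672)) (b (c (l 16102528) (l 16008840)) (l 16036880))) (a (l 15622640) (l 15591600))))) (a (c (l 15650056) (l 15740600)) (c (b (a (l 15927952) (l 16044696)) (l 15998904)) (b (l 15594704) (l 15907120))))) (b (a (b (l 15904824) (l 15944256)) (c (l 16004128) (l 15929616))) (a (a (l 16025408) (l 15966168)) (l 15946160))))), by decide +kernel⟩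

def k6_pm_101 : ∃ t, chk3 f_pm_101 t 7 5 1 = true :=
  ⟨(a (a (b (b (c (l 16310992) (l 16393272)) (a (l 16537816) (l 16436992))) (c (b (l 16506360) (l 16585208)) (b (l 16560936) (l 16601736)))) (b (c (a (l 16312776) (l 16222680)) (a (l 16285552) (l 16190984))) (c (b (l 16369096) (l 16403216)) (b (l 16354968) (l 16393496))))) (a (a (b (c (b (l 16111728) (l 16169312)) (l 16103528)) (c (l 16226288) (l 16231752))) (b (l 16114944) (b (l 16144432) (a (l 16189496) (l 16153024))))) (b (b (l 15939880) (l 15990576)) (c (l 16070056) (l 16049736))))), by decide +kernel⟩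

def k7_pm_101 : ∃ t, chk3 f_pm_101 t 3 3 1 = true :=
  ⟨(a (a (l 3) (a (b (l 3) (l 1)) (a (b (b (c (c (l 16776240) (l 16776224)) (c (l 16755240) (b (l 16775952) (l 16776920)))) (l 3)) (l 1)) (b (c (b (b (l 16755760) (l 16754456)) (c (l 16753352) (l 16753040))) (b (b (l 16755208) (a (l 16775144) (l 16732424))) (c (l 69424026599) (a (l 16773880) (l 16730664))))) (a (l 1) (b (c (l 511134516343) (l 260952668311)) (l 1))))))) (a (b (a (c (b (a (l 16656096) (l 16551888)) (a (l 16611408) (l 16547936))) (b (a (l 16590032) (l 16546032)) (a (c (l 16650936) (l 16649328)) (l 16541984)))) (c (b (l 16397904) (l 16307176)) (b (l 16388056) (a (l 16434360) (l 16328992))))) (b (a (c (a (l 418255630039) (l 16544208)) (a (c (l 16648704) (l 16647064)) (l 16538152))) (c (a (l 16437712) (l 16332864)) (a (l 16428896) (l 16321320)))) (a (l 1) (c (l 397853856503) (l 386579525655))))) (a (b (c (a (b (l 16250152) (l 16237376)) (b (l 16122392) (l 16142296))) (b (a (l 16236464) (l 16148624)) (a (l 16223352)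 (l 16126456)))) (c (a (b (l 16225408) (l 16214128)) (b (l 16123568) (l 16105936))) (b (a (l 16211080) (l 16107680)) (a (l 16199504) (l 16090008))))) (b (a (c (b (a (l 16105128) (l 16073128)) (c (l 16071208) (l 16062816))) (b (l 16069688) (l 16049456))) (b (l 16017400) (c (l 15911016) (a (l 15991584) (l 15961376))))) (c (a (b (l 15980208) (l 78414894551)) (b (l 15868560) (l 15948912))) (a (b (l 16026552) (l 16007320)) (b (a (l 15970192) (l 15934656)) (l 15846704)))))))), by decide +kernel⟩

theorem s8_pm_101 : ∃ t, chk3 f_pm_101 t 7 2 1 = true := ex3_b k5_pm_101 k6_pm_101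

theorem s9_pm_101 : ∃ t, chk3 f_pm_101 t 13 4 1 = true := ex3_b k2_pm_101 k3_pm_101

theorem s10_pm_101 : ∃ t, chk3 f_pm_101 t 13 2 1 = true := ex3_b s9_pm_101 k4_pm_101

theorem s11_pm_101 : ∃ t, chk3 f_pm_101 t 6 2 1 = true := ex3_a k1_pm_101 s10_pm_101

theorem s12_pm_101 : ∃ t, chk3 f_pm_101 t 3 2 1 = true := ex3_a s11_pm_101 s8_pm_101

theorem s13_pm_101 : ∃ t, chk3 f_pm_101 t 3 1 1 = true := ex3_b s12_pm_101 k7_pm_101

theorem s14_pm_101 : ∃ t, chk3 f_pm_101 t 1 1 1 = true := ex3_a k0_pm_101 s13_pm_101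

theorem c_pm_101 : CertFX 536870912 536870912 0 536870912 1046898278 26843546 true true false .npn 1 0 1
    ndF0q1 ndF6q0 pcF1 Cut.none Ext.none :=
  certFX2 (fam := true) (s1 := true) (s2 := false) (a := 1) (b := 0) (c := 1) (cn := .npn) (n1 := ndF0q1) (n2 := ndF6q0) (pc := pcF1) (cut := Cut.none) (xt := Ext.none) (P1 := 536870912) (W1 := 536870912) (P2 := 0) (W2 := 536870912) (P3 := 1046898278) (W3 := 26843546)
    rfl (fun _ => rfl) s14_pm_101

noncomputable def f_pm_102 : ℕ → ℕ → ℕ → ℕ → Bool := onCell 536870912 536870912 1073741824 536870912 1046898278 26843546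
    (rowFX 1 true true false .npp 1 0 2 (qsf 536870912 536870912 0 536870912 2) ndF0q1 ndF6q0 pcF2 Cut.none Ext.none)

def k0_pm_102 : ∃ t, chk3 f_pm_102 t 2 2 1 = true :=
  ⟨(a (b (b (a (c (b (l 16206984) (l 15808272)) (l 15877744)) (a (l 15824848) (l 15957168))) (a (c (l 216456128679) (l 15233720)) (c (l 15292184) (l 15253608)))) (b (b (b (c (l 14885752) (l 14836624)) (l 2)) (l 2)) (l 2))) (b (b (a (b (l 16112472) (l 15767568)) (l 15839384)) (a (l 15230904) (l 15316344))) (b (b (b (l 14926672) (l 15087528)) (l 15454624)) (b (c (l 16419776) (l 16410488)) (l 16776712))))), by decide +kernel⟩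

def k1_pm_102 : ∃ t, chk3 f_pm_102 t 6 4 1 = true :=
  ⟨(b (a (b (l 16000136) (l 15734832)) (a (l 15553392) (b (l 15833408) (l 15688408)))) (a (l 15236072) (b (a (l 15509952) (l 15527384)) (l 15237200)))), by decide +kernel⟩

def k2_pm_102 : ∃ t, chk3 f_pm_102 t 14 4 1 = true :=
  ⟨(b (b (a (l 15901104) (a (l 15981376) (b (l 15964824) (l 15837624)))) (a (l 15805288) (l 15709136))) (b (a (l 15678168) (l 15502064)) (a (l 15414344) (l 15203992)))), by decide +kernel⟩

def k3_pm_102 : ∃ t, chk3 f_pm_102 t 15 4 1 = true :=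
  ⟨(b (a (b (a (c (b (l 15899744) (l 15743928)) (l 15798624)) (c (b (a (l 15817616) (l 15774040)) (l 15629312)) (b (l 15759264) (l 15600680)))) (a (l 15533736) (c (l 15426352) (b (l 15457584) (l 15331704))))) (b (a (c (b (b (a (l 15663016) (c (l 15741904) (l 15732496))) (c (l 15687112) (l 15662880))) (c (l 15558656) (l 15544360))) (b (c (l 15685800) (l 15666296)) (l 15520848))) (c (b (a (b (c (b (a (l 15701224) (l 15670432)) (l 15638816)) (a (l 15692304) (b (l 15672024) (l 15648248)))) (c (l 15621856) (l 15602856))) (b (c (b (l 15661512) (a (l 15621808) (l 15611080))) (a (b (l 15648680) (l 15616872)) (b (l 15640200) (l 15599304)))) (c (a (l 15585080) (b (l 15574992) (l 15553664))) (a (l 15574944) (b (l 15568904) (l 15547464)))))) (a (c (l 15508488) (l 15479040)) (c (b (l 15528144) (l 15462312)) (l 15416064)))) (b (a (c (b (a (l 15680104) (l 15632624)) (l 15582616)) (l 15606768)) (b (c (a (b (c (l 15643272) (l 15640688)) (l 15609928)) (b (a (b (l 15633984) (l 15613856)) (l 15621256))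 (c (l 15590992) (l 15582328)))) (a (l 15550544) (b (c (a (l 15616704) (l 15503288)) (a (l 15612304) (b (l 15611704) (l 15592784)))) (c (l 15575512) (l 15567072))))) (c (a (l 15550616) (l 15534912)) (l 15525016)))) (a (l 15458272) (c (l 15427120) (l 15412432)))))) (a (c (c (l 15095216) (l 15337456)) (l 15316920)) (c (b (c (l 15351272) (l 15327176)) (l 15152192)) (a (l 15154200) (b (l 15284352) (l 15167432))))))) (c (a (b (l 15188944) (l 14983488)) (b (a (l 15115584) (b (l 15110920) (l 14975440))) (a (l 14790456) (l 14695904)))) (a (b (l 15073008) (l 14922088)) (b (a (l 15084728) (b (l 15084560) (l 14944720))) (a (l 14749832) (l 14656488)))))), by decide +kernel⟩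

def k4_pm_102 : ∃ t, chk3 f_pm_102 t 3 5 1 = true :=
  ⟨(a (b (b (b (a (l 14982272) (l 15030528)) (a (l 15140296) (l 15186392))) (a (l 15721296) (l 15754560))) (b (a (l 16427904) (l 16380624)) (a (l 16776728) (l 16770472)))) (b (a (b (b (a (l 15213104) (l 14991792)) (l 15022104)) (a (l 15837208) (l 15556432))) (b (b (a (c (l 14754896) (l 14687280)) (c (l 14274176) (a (l 14504464) (l 14403904)))) (a (l 14800088) (c (l 14604680) (l 14437368)))) (a (a (l 15327400) (l 15173240)) (a (l 15067424) (c (l 14998784) (l 14966248)))))) (b (a (a (l 16351160) (l 16099544)) (a (l 15611152) (a (l 15573248) (c (l 15528000) (l 15406864))))) (a (a (l 16591568) (l 16359632)) (a (l 15974520) (c (l 15716288) (a (l 15893152) (l 15774192)))))))), by decide +kernel⟩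

def k5_pm_102 : ∃ t, chk3 f_pm_102 t 1 3 1 = true :=
  ⟨(a (b (a (l 2) (l 16777216)) (l 2)) (b (a (b (l 16773832) (l 16773832)) (a (b (l 16389920) (a (l 16591904) (l 16360384))) (b (a (b (l 16075496) (l 16073504)) (b (a (l 15887008) (l 15760192)) (l 15833928))) (a (l 16078704) (c (l 15856368) (l 15852496)))))) (a (a (l 2) (l 16770752)) (a (b (l 16474784) (l 16474784)) (b (a (l 16079760) (l 15860320)) (a (l 16079760) (l 15860320))))))), by decide +kernel⟩

theorem s6_pm_102 : ∃ t, chk3 f_pm_102 t 7 4 1 = true := ex3_a k2_pm_102 k3_pm_102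

theorem s7_pm_102 : ∃ t, chk3 f_pm_102 t 3 4 1 = true := ex3_a k1_pm_102 s6_pm_102

theorem s8_pm_102 : ∃ t, chk3 f_pm_102 t 3 2 1 = true := ex3_b s7_pm_102 k4_pm_102

theorem s9_pm_102 : ∃ t, chk3 f_pm_102 t 1 2 1 = true := ex3_a k0_pm_102 s8_pm_102

theorem s10_pm_102 : ∃ t, chk3 f_pm_102 t 1 1 1 = true := ex3_b s9_pm_102 k5_pm_102

theorem c_pm_102 : CertFX 536870912 536870912 0 536870912 1046898278 26843546 true true false .npp 1 0 2
    ndF0q1 ndF6q0 pcF2 Cut.none Ext.none :=
  certFX1 (fam := true) (s1 := true) (s2 := false) (a := 1) (b := 0) (c := 2) (cn := .npp) (n1 := ndF0q1) (n2 := ndF6q0) (pc := pcF2) (cut := Cut.none) (xt := Ext.none) (P1 := 536870912) (W1 := 536870912) (P2 := 0) (W2 := 536870912) (P3 := 1046898278) (W3 := 26843546)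
    rfl (fun _ => rfl) s10_pm_102

noncomputable def f_pm_112 : ℕ → ℕ → ℕ → ℕ → Bool := onCell 536870912 536870912 1073741824 536870912 1046898278 26843546
    (rowFX 1 true true false .dn 1 1 2 (qsf 536870912 536870912 536870912 469762048 2) ndF0q1 ndF6q1 pcF2 Cut.none Ext.none)

def k0_pm_112 : ∃ t, chk3 f_pm_112 t 1 1 1 = true :=
  ⟨(b (b (a (a (b (a (c (b (l 16206984) (l 15808272)) (l 15856768)) (c (l 15849160) (l 15849288))) (a (c (b (l 15448720) (l 15106032)) (l 15233720)) (c (l 15292184) (l 15253608)))) (b (l 1) (a (l 15230904) (l 1)))) (l 1)) (a (b (a (b (a (b (l 14845840) (l 15010744)) (b (l 14876440) (l 15039824))) (a (l 15507144) (l 15652832))) (b (b (l 14926672) (l 15087528)) (a (l 15673936) (l 15696608)))) (b (a (a (b (l 16212744) (l 16575528)) (l 16319704)) (a (l 16411096) (l 16419144))) (a (a (l 16776680) (l 16776696)) (l 16776712)))) (a (b (l 1) (b (l 1) (l 395707084279))) (l 1)))) (a (a (b (a (b (a (b (l 16777024) (a (l 16595024) (l 16728992))) (l 16777088)) (a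 (b (l 16090632) (l 15651992)) (b (a (l 16595024) (l 16728992)) (l 16132576)))) (b (l 16777216) (a (b (l 16777024) (l 16641824)) (l 16777088)))) (a (a (b (c (b (l 15381176) (l 15007344)) (b (l 15345920) (l 14974528))) (b (c (l 14587120) (l 14560976)) (a (l 2) (c (l 14232728) (l 14204728))))) (b (b (l 15693936) (c (l 15381176) (l 15345920))) (c (b (l 15007344) (l 14587120)) (b (l 14974528) (l 14560976))))) (b (a (b (l 16132576) (l 15714912)) (b (l 16641824) (l 16195488))) (a (c (b (l 15381176) (l 15007344)) (b (l 15345920) (l 14974528))) (b (l 15735880) (c (l 15381176) (l 15345920))))))) (b (c (l 16777216) (l 16777216)) (a (b (a (l 16688640) (l 16777088)) (a (b (l 16216464) (l 15735880)) (b (l 16641824) (l 16237432)))) (b (l 16777216) (l 16691088))))) (b (a (b (l 184717264599) (l 16773832)) (a (b (l 1) (l 499322853943)) (l 1))) (a (a (l 16777216) (l 16770752)) (a (b (l 16474784) (l 16474784)) (b (l 458519110919) (l 461740462215))))))), by decide +kernel⟩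

theorem c_pm_112 : CertFX 536870912 536870912 536870912 469762048 1046898278 26843546 true true false .dn 1 1 2
    ndF0q1 ndF6q1 pcF2 Cut.none Ext.none :=
  certFX1 (fam := true) (s1 := true) (s2 := false) (a := 1) (b := 1) (c := 2) (cn := .dn) (n1 := ndF0q1) (n2 := ndF6q1) (pc := pcF2) (cut := Cut.none) (xt := Ext.none) (P1 := 536870912) (W1 := 536870912) (P2 := 536870912) (W2 := 469762048) (P3 := 1046898278) (W3 := 26843546)
    rfl (fun _ => rfl) k0_pm_112

noncomputable def f_pm_113 : ℕ → ℕ → ℕ → ℕ → Bool := onCell 1610612736 536870912 536870912 469762048 1046898278 26843546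
    (rowFX 2 true true false .nn 1 1 3 (qsf 536870912 536870912 536870912 469762048 3) ndF0q1 ndF6q1 pcF3 Cut.none Ext.none)

def k0_pm_113 : ∃ t, chk3 f_pm_113 t 1 1 1 = true :=
  ⟨(a (b (a (b (a (b (a (b (l 15776352) (l 15941672)) (b (l 2) (l 15757032))) (a (l 16272480) (b (l 15914448) (l 16083792)))) (b (l 2) (a (c (l 15762824) (l 15730528)) (b (l 2) (l 15699640))))) (a (b (a (l 16637064) (l 16439312)) (a (l 16776864) (l 16728256))) (b (a (l 16213960) (c (l 15966728) (l 15882776))) (a (l 16596152) (l 16376936))))) (b (l 2) (a (b (a (b (l 4) (l 15734888)) (l 4)) (a (c (l 16142832) (l 16148496)) (a (l 15964176) (l 4)))) (l 4)))) (a (b (a (b (l 16777216) (b (l 16649800) (l 16203696))) (b (a (l 16772440) (l 16703112)) (a (l 16430144) (l 16430144)))) (b (a (b (l 15723360) (l 15417160)) (a (l 15572176) (l 15530240))) (c (b (l 15201816) (a (l 14794776) (l 14794776))) (a (b (l 15162240) (l 14764784)) (b (l 15162240) (l 14764784)))))) (b (a (b (a (l 16529368) (c (l 16323872) (l 16302424)))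 (a (b (l 16630560) (l 16203696)) (b (l 16505024) (l 16176040)))) (a (b (l 4) (c (l 16175128) (l 16016456))) (l 4))) (a (b (c (l 15503744) (b (l 15709848) (l 15399728))) (c (b (l 15201816) (l 14794776)) (b (l 15162240) (l 14764784)))) (b (a (b (l 15496968) (l 15417160)) (c (b (l 15572112) (l 15389440)) (b (l 15516928) (l 15346840)))) (b (a (l 15056312) (a (l 15182144) (l 15181552))) (c (l 14794776) (l 14764784)))))))) (a (b (l 2) (b (a (l 4) (l 4)) (a (a (b (l 4) (a (b (l 15052752) (l 14527424)) (l 4))) (l 4)) (l 4)))) (l 4))), by decide +kernel⟩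

theorem c_pm_113 : CertFX 536870912 536870912 536870912 469762048 1046898278 26843546 true true false .nn 1 1 3
    ndF0q1 ndF6q1 pcF3 Cut.none Ext.none :=
  certFX2 (fam := true) (s1 := true) (s2 := false) (a := 1) (b := 1) (c := 3) (cn := .nn) (n1 := ndF0q1) (n2 := ndF6q1) (pc := pcF3) (cut := Cut.none) (xt := Ext.none) (P1 := 536870912) (W1 := 536870912) (P2 := 536870912) (W2 := 469762048) (P3 := 1046898278) (W3 := 26843546)
    rfl (fun _ => rfl) k0_pm_113

noncomputable def f_pm_123 : ℕ → ℕ → ℕ → ℕ → Bool := onCell 1610612736 536870912 1073741824 536870912 1046898278 26843546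
    (rowFX 2 true true false .npn 1 2 3 (qsf 536870912 536870912 1073741824 536870912 3) ndF0q1 ndF6q2 pcF3 Cut.none Ext.none)

def k0_pm_123 : ∃ t, chk3 f_pm_123 t 2 4 1 = true :=
  ⟨(a (b (a (c (c (l 15584744) (l 15569160)) (c (b (l 15519032) (l 15587464)) (b (a (l 15503000) (l 15503000)) (l 15572304)))) (c (c (b (l 15551088) (l 15617776)) (b (l 15535056) (l 15602616))) (c (b (a (l 15519032) (l 15519032)) (l 15587464)) (b (a (l 15503000) (l 15503000)) (a (l 15572304) (l 15572304)))))) (a (a (l 1) (b (c (l 15641512) (l 15612016)) (l 1))) (c (b (l 15641512) (l 15420960)) (b (b (c (l 15637808) (l 15623288)) (l 15594096)) (c (l 15394544) (l 15376928)))))) (c (b (a (b (l 15543072) (c (l 15617776) (l 15602616))) (a (b (a (l 15543072) (b (l 15526040) (l 15559944))) (l 15610192)) (b (c (l 15551088) (a (l 15535056) (l 15535056))) (c (l 15617776) (l 15602616))))) (a (b (b (l 15659576) (l 15624048)) (l 15420960)) (b (a (l 15641512) (b (l 15659576) (l 15624048))) (a (l 15420960) (l 15420960)))))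 (b (b (a (a (l 15511016) (l 15490040)) (a (c (a (l 15519032) (l 15519032)) (a (l 15503000) (l 15503000))) (a (l 15511016) (l 15511016)))) (a (c (l 15587464) (a (l 15572304) (l 15572304))) (a (c (l 15587464) (c (l 15576096) (l 15568512))) (a (c (l 15587464) (l 15572304)) (c (l 15587464) (l 15572304)))))) (a (b (b (a (l 15630552) (l 15630552)) (a (l 15594096) (l 15594096))) (a (l 15385736) (l 15385736))) (b (c (b (l 15637808) (l 15601584)) (a (l 15604640) (b (l 15623288) (l 15586608)))) (a (l 15385736) (l 15385736))))))), by decide +kernel⟩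

def k1_pm_123 : ∃ t, chk3 f_pm_123 t 2 5 1 = true :=
  ⟨(b (a (b (a (l 1) (b (c (l 15233688) (l 15193592)) (l 1))) (l 1)) (b (a (b (c (l 15233688) (l 15193592)) (c (l 15366312) (l 15329672))) (b (c (l 15233688) (a (l 15193592) (l 15193592))) (c (l 15366312) (l 15245784)))) (a (c (l 15863192) (l 15818480)) (c (l 15863192) (a (l 15839448) (l 15839448)))))) (a (l 1) (a (b (c (l 16451928) (l 16402080)) (l 1)) (b (c (l 16451928) (l 16381112)) (l 16776784))))), by decide +kernel⟩

def k2_pm_123 : ∃ t, chk3 f_pm_123 t 2 3 1 = true :=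
  ⟨(b (a (l 1) (b (a (l 1) (l 16777216)) (l 1))) (l 1)), by decide +kernel⟩

def k3_pm_123 : ∃ t, chk3 f_pm_123 t 6 1 1 = true :=
  ⟨(b (b (a (b (b (a (b (a (c (l 15526040) (l 15493536)) (l 15509792)) (c (a (l 15559944) (l 15559944)) (a (l 15528328) (l 15528328)))) (c (l 15543048) (l 15510992))) (a (c (a (l 15610192) (l 15610192)) (a (l 15579880) (l 15579880))) (c (a (l 15610184) (l 15610168)) (a (c (l 15587448) (l 15572288)) (l 15579848))))) (b (a (c (b (l 15659576) (l 15624048)) (b (a (l 15630552) (l 15630552)) (a (l 15594096) (l 15594096)))) (b (c (l 15659560) (l 15609552)) (c (l 15624032) (a (l 15594080) (l 15594064))))) (c (a (l 15420960) (b (l 15487160) (l 15356496))) (a (c (l 15394544) (l 15376928)) (a (l 15385720) (l 15385696)))))) (b (a (c (b (l 15543024) (l 15610144)) (b (l 15510960) (l 15579824))) (b (a (c (l 15543008) (l 15510944)) (b (c (a (l 15525208) (b (l 15500408) (l 15533448))) (a (l 15492488) (l 15479744))) (l 15544096))) (c (l 15610144) (l 15579824)))) (b (a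 (b (l 15645008) (c (l 15623992) (l 15594032))) (b (l 15645008) (c (l 15624000) (l 15594040)))) (a (c (l 15420904) (l 15385672)) (c (l 15420912) (l 15385680)))))) (b (a (b (b (a (l 15213640) (c (l 15233664) (l 15193568))) (a (l 15347992) (c (l 15366296) (l 15329648)))) (a (c (l 15863192) (l 15839448)) (c (l 15863168) (l 15839424)))) (b (b (a (c (l 15233632) (l 15193528)) (l 15213592)) (a (c (l 15366256) (l 15329608)) (l 15347936))) (a (c (l 15863136) (l 15671616)) (c (l 15800224) (l 15713560))))) (a (b (c (b (l 16326080) (l 16615936)) (b (l 16314360) (l 16611752))) (c (l 16776776) (l 16776768))) (b (c (l 16326048) (a (l 16443960) (l 16381056))) (c (l 16776736) (l 16776720)))))) (b (c (b (a (l 16777208) (l 16777184)) (l 16777208)) (b (a (l 16777208) (l 16777184)) (l 16777208))) (b (l 16777216) (l 1)))), by decide +kernel⟩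

def k4_pm_123 : ∃ t, chk3 f_pm_123 t 28 1 1 = true :=
  ⟨(b (b (b (a (b (c (b (a (l 15495232) (l 15466936)) (a (l 15559392) (l 15553080))) (b (l 15431968) (a (l 15527560) (l 15518456)))) (c (b (l 15593488) (l 15626704)) (l 15579864))) (b (c (a (b (l 15439304) (l 15541184)) (b (l 15414792) (l 15525576))) (a (b (l 15372144) (l 15500040)) (l 15409960))) (a (c (b (l 15593232) (l 15626720)) (l 15579640)) (c (b (l 15589488) (l 15625568)) (b (l 15555488) (l 15595280)))))) (b (a (b (l 15645048) (c (l 15624032) (l 15594080))) (b (a (c (l 15659576) (l 15630544)) (c (l 15658312) (l 15628864))) (c (a (l 15624048) (b (a (l 15658040) (l 15656016)) (l 15588544))) (a (l 15594096) (l 15592152))))) (a (l 15403336) (c (a (l 15420960) (l 15461008)) (l 15384408))))) (b (b (b (a (l 15213632) (c (l 15232472) (l 15192072))) (a (l 15347984) (l 15346496))) (a (l 15851312) (l 15849640))) (b (a (l 16385064) (l 16383128)) (a (l 16776784) (l 16774240))))) (b (b (c (l 16775800) (l 16775744)) (l 16776632))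 (l 16777136))), by decide +kernel⟩

def k5_pm_123 : ∃ t, chk3 f_pm_123 t 29 1 1 = true :=
  ⟨(b (b (b (b (a (c (a (l 15313864) (b (l 15382552) (l 15507912))) (a (l 15378808) (l 15353528))) (a (b (c (l 238066156551) (l 15230112)) (c (l 15511288) (l 15415416))) (l 4))) (a (c (b (a (l 15584016) (l 15582472)) (a (l 15623216) (l 15623320))) (b (a (l 15542992) (l 15531160)) (a (l 15591760) (l 15588784)))) (c (a (b (l 15588752) (l 15628864)) (c (l 15642496) (l 15611856))) (a (b (l 15526008) (l 15588568)) (c (l 15581224) (l 15550592)))))) (a (b (c (b (a (l 15655320) (l 15654192)) (a (c (l 15627048) (l 15611192)) (l 15617360))) (b (l 15623496) (a (l 15587424) (l 15584688)))) (a (b (c (c (l 15490280) (l 15472552)) (l 15445968)) (l 15330280)) (c (b (l 15479376) (c (l 15357224) (l 15337072))) (b (l 15442864) (l 15306840))))) (b (c (b (a (l 15655048) (c (l 15669760) (l 15653072))) (a (l 15617544) (l 15619376))) (b (a (l 15623400) (l 15628040)) (a (l 15584480) (l 15586680)))) (c (a (c (l 15421592)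 (l 15401968)) (c (l 15422960) (l 15403280))) (a (l 15372544) (l 15373752)))))) (b (a (b (b (c (a (l 15226080) (l 15223128)) (l 15181888)) (l 15230792)) (b (l 15673656) (l 15996336))) (b (b (a (c (b (l 15251816) (l 15191904)) (l 15176704)) (c (l 15222480) (l 15177048))) (a (c (l 15352616) (l 15310864)) (c (l 15352584) (l 15309872)))) (a (l 15810256) (c (l 15762184) (l 15752808))))) (b (a (l 16409680) (l 16358328)) (a (l 16752368) (l 16739184))))) (b (b (a (l 16750200) (l 16727496)) (c (l 16749760) (l 16748920))) (b (l 16771728) (l 16761776)))), by decide +kernel⟩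

def k6_pm_123 : ∃ t, chk3 f_pm_123 t 15 2 1 = true :=
  ⟨(a (b (b (b (l 4) (b (l 4) (a (a (c (a (l 15659104) (l 4)) (l 172568042999)) (l 4)) (l 4)))) (a (a (b (c (b (a (l 15671136) (l 15681504)) (c (l 15630880) (l 15615184))) (b (a (l 15635408) (l 15642248)) (l 15570736))) (c (c (l 15426264) (l 15407048)) (l 15378408))) (a (b (b (l 4) (c (b (l 4) (l 15589968)) (l 15596544))) (c (l 15419424) (l 15382704))) (b (l 4) (c (c (l 15429432) (l 15411432)) (l 15384568))))) (b (l 4) (a (a (b (l 4) (c (l 15356416) (l 15319328))) (l 4)) (l 4))))) (b (a (b (b (c (a (l 15226256) (l 15230784)) (a (l 15181440) (l 15187736))) (c (a (l 15356632) (l 15361800)) (a (l 15314296) (l 15320936)))) (a (c (b (l 15688912) (l 16006312)) (l 15692960)) (c (l 15855968) (l 15826352)))) (a (b (b (c (c (a (l 15243312) (l 15243464)) (l 15222760)) (a (l 15191808) (l 15192488))) (c (c (l 15374784) (l 15355200)) (l 15326288))) (c (l 15755592) (l 15832352))) (a (b (b (l 4) (c (l 15362112) (l 15318480))) (c (l 15857984)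 (l 15826416))) (b (l 4) (c (l 15685936) (l 15815592)))))) (a (b (a (l 16277936) (c (l 16334936) (l 16382736))) (l 16745680)) (b (a (c (l 16278368) (l 16368256)) (c (l 16378568) (l 16401472))) (c (a (l 16762296) (l 16756736)) (a (l 16756720) (l 16748784))))))) (b (l 4) (b (a (a (a (b (l 4) (c (l 522607921031) (l 15783552))) (l 4)) (l 4)) (l 4)) (a (b (c (a (l 16215504) (l 665953639575)) (a (l 16253240) (l 589717903703))) (c (a (l 16735488) (l 16719448)) (a (l 16728408) (l 16711920)))) (l 4))))), by decide +kernel⟩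

def k7_pm_123 : ∃ t, chk3 f_pm_123 t 15 3 1 = true :=
  ⟨(a (b (b (a (c (l 16736832) (l 16732048)) (b (c (l 16756808) (l 16748144)) (l 16752704))) (c (l 16742600) (l 16730208))) (c (l 16777216) (l 16777216))) (a (b (b (c (a (l 16748664) (l 16738600)) (a (l 16734320) (l 16725240))) (c (l 16758792) (l 16740496))) (c (l 16777216) (l 16777216))) (a (b (c (b (l 16707312) (l 16727592)) (b (l 1201214942471) (l 16723224))) (c (l 16777216) (l 16777216))) (b (a (c (l 1522263785879) (l 1392878167639)) (b (l 4) (a (l 16717024) (l 4)))) (c (a (l 16776928) (a (l 16777216) (a (l 16777216) (l 16777216)))) (a (l 16776928) (a (l 16777216) (a (l 16777216) (l 16777216))))))))), by decide +kernel⟩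

theorem s8_pm_123 : ∃ t, chk3 f_pm_123 t 15 1 1 = true := ex3_b k6_pm_123 k7_pm_123

theorem s9_pm_123 : ∃ t, chk3 f_pm_123 t 14 1 1 = true := ex3_a k4_pm_123 k5_pm_123

theorem s10_pm_123 : ∃ t, chk3 f_pm_123 t 7 1 1 = true := ex3_a s9_pm_123 s8_pm_123

theorem s11_pm_123 : ∃ t, chk3 f_pm_123 t 3 1 1 = true := ex3_a k3_pm_123 s10_pm_123

theorem s12_pm_123 : ∃ t, chk3 f_pm_123 t 2 2 1 = true := ex3_b k0_pm_123 k1_pm_123

theorem s13_pm_123 : ∃ t, chk3 f_pm_123 t 2 1 1 = true := ex3_b s12_pm_123 k2_pm_123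

theorem s14_pm_123 : ∃ t, chk3 f_pm_123 t 1 1 1 = true := ex3_a s13_pm_123 s11_pm_123

theorem c_pm_123 : CertFX 536870912 536870912 1073741824 536870912 1046898278 26843546 true true false .npn 1 2 3
    ndF0q1 ndF6q2 pcF3 Cut.none Ext.none :=
  certFX2 (fam := true) (s1 := true) (s2 := false) (a := 1) (b := 2) (c := 3) (cn := .npn) (n1 := ndF0q1) (n2 := ndF6q2) (pc := pcF3) (cut := Cut.none) (xt := Ext.none) (P1 := 536870912) (W1 := 536870912) (P2 := 1073741824) (W2 := 536870912) (P3 := 1046898278) (W3 := 26843546)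
    rfl (fun _ => rfl) s14_pm_123

noncomputable def f_pm_133 : ℕ → ℕ → ℕ → ℕ → Bool := onCell 536870912 536870912 0 1230186008 1046898278 26843546
    (rowFX 0 true true false .dn 1 3 3 (qsf 536870912 536870912 0 1230186008 3) ndF0q1 ndF6q3 pcF3 Cut.none Ext.none)

def k0_pm_133 : ∃ t, chk3 f_pm_133 t 1 1 1 = true :=
  ⟨(b (l 2) (b (l 2) (a (b (l 2) (a (b (l 2) (a (l 16757648) (l 2))) (l 2))) (l 2)))), by decide +kernel⟩

theorem c_pm_133 : CertFX 536870912 536870912 0 1230186008 1046898278 26843546 true true false .dn 1 3 3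
    ndF0q1 ndF6q3 pcF3 Cut.none Ext.none :=
  certFX0 (fam := true) (s1 := true) (s2 := false) (a := 1) (b := 3) (c := 3) (cn := .dn) (n1 := ndF0q1) (n2 := ndF6q3) (pc := pcF3) (cut := Cut.none) (xt := Ext.none) (P1 := 536870912) (W1 := 536870912) (P2 := 0) (W2 := 1230186008) (P3 := 1046898278) (W3 := 26843546)
    rfl k0_pm_133

noncomputable def f_pm_202 : ℕ → ℕ → ℕ → ℕ → Bool := onCell 0 536870912 0 536870912 1046898278 26843546
    (rowFX 0 true true false .pp 2 0 2 (qsf 0 536870912 0 536870912 2) ndF0q2 ndF6q0 pcF2 Cut.none Ext.none)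

def k0_pm_202 : ∃ t, chk3 f_pm_202 t 2 8 1 = true :=
  ⟨(a (a (b (b (b (c (l 15959728) (c (l 15941472) (b (l 15912456) (l 15946560)))) (a (l 4) (c (l 16017120) (l 16000320)))) (c (a (l 4) (l 16104648)) (l 16072376))) (a (l 4) (c (l 16157944) (l 16197568)))) (b (b (c (b (l 15932648) (c (l 16003328) (l 16000672))) (b (c (l 15913760) (b (l 15881336) (l 15921784))) (c (l 15992392) (l 15974160)))) (c (c (l 16117856) (l 16099400)) (l 16071056))) (c (a (b (l 16181232) (l 16244280)) (l 16229072)) (a (l 16194712) (l 16205784))))) (b (a (b (c (b (a (l 15867608) (b (l 15791040) (l 15812264))) (c (l 15919672) (l 15895040))) (b (a (c (l 15847288) (l 15770728)) (c (b (l 15763440) (l 15794496)) (b (c (l 15752320) (l 15744928)) (l 15783272)))) (c (l 15906584) (l 15886928)))) (c (c (l 15900536) (l 16048824)) (l 15956024))) (b (c (b (a (a (l 15769384) (l 15769120)) (l 15786808)) (a (b (a (l 15788704) (l 15757200)) (c (l 15819200) (l 15821664))) (b (l 15737632) (c (l 15759256) (l 15761208)))))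 (b (b (c (l 15756152) (c (l 15744856) (l 15737360))) (c (a (l 15743008) (l 15755048)) (a (l 15731088) (l 15743264)))) (a (c (b (l 15766784) (l 15803392)) (l 15766056)) (c (b (l 15748864) (l 15741952)) (l 15722536))))) (c (a (b (l 15905336) (l 16002488)) (b (a (c (l 15833312) (l 15816368)) (b (l 15762976) (l 15789472))) (l 15894472))) (a (l 15911056) (b (a (l 15777080) (l 15731896)) (l 15844160)))))) (a (c (b (l 16180688) (l 16272896)) (b (l 16151208) (l 16257128))) (c (b (a (l 16114672) (l 16026592)) (a (l 16241528) (l 16181616))) (a (l 16115000) (b (l 15991952) (l 16163000))))))), by decide +kernel⟩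

def k1_pm_202 : ∃ t, chk3 f_pm_202 t 2 9 1 = true :=
  ⟨(a (a (l 4) (a (l 4) (b (b (c (l 16313344) (l 16301960)) (l 16368784)) (l 4)))) (b (b (a (c (a (l 16341208) (l 16358160)) (a (l 16330576) (l 16347960))) (c (l 16334352) (l 16323408))) (a (a (l 16379832) (c (l 16416664) (l 16407688))) (a (c (l 16436848) (l 16428392)) (l 16425464)))) (a (c (l 16473816) (l 16424144)) (a (l 16488112) (c (l 16427520) (l 16399800)))))), by decide +kernel⟩

def k2_pm_202 : ∃ t, chk3 f_pm_202 t 2 5 1 = true :=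
  ⟨(a (l 4) (b (a (a (l 4) (b (b (l 16558952) (l 16632648)) (c (l 16749368) (l 16749144)))) (a (b (l 16581064) (b (l 16673192) (l 16723376))) (b (l 16577408) (l 16633712)))) (a (l 4) (b (c (a (l 16745896) (l 16766944)) (a (l 16745112) (l 16766816))) (c (l 16777152) (l 16777152)))))), by decide +kernel⟩

def k3_pm_202 : ∃ t, chk3 f_pm_202 t 12 16 1 = true :=
  ⟨(b (c (b (a (c (l 15850392) (l 15832912)) (c (l 15950944) (b (l 15959016) (l 15909712)))) (c (a (b (l 15798944) (l 15784888)) (b (l 15881456) (l 15857000))) (a (b (l 15794488) (l 15787528)) (b (l 15878280) (l 15860992))))) (b (c (b (a (l 15833416) (l 15942264)) (a (l 15805880) (c (l 15902632) (l 15900984)))) (b (c (a (l 15822760) (l 15932584)) (a (l 15815688) (b (l 15936168) (l 15916728)))) (a (l 15794736) (l 15892416)))) (c (a (l 15777280) (b (l 15874776) (l 15842608))) (a (l 15755088) (l 15835408))))) (c (a (b (c (b (l 15784344) (l 15781064)) (b (l 15774112) (l 15754320))) (a (l 15796664) (b (l 15754320) (l 15752144))))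 (b (c (l 15837336) (l 15820040)) (l 15774320))) (a (b (a (l 15715312) (l 15731192)) (a (l 15743136) (l 15702880))) (c (l 15757760) (l 15738992))))), by decide +kernel⟩

def k4_pm_202 : ∃ t, chk3 f_pm_202 t 13 16 1 = true :=
  ⟨(b (c (b (a (c (l 16058992) (a (l 16030000) (l 16018368))) (a (b (l 16138232) (c (l 16078952) (l 16065032))) (b (a (l 16153032) (l 16122016)) (c (l 16105432) (a (l 16055648) (b (l 16098568) (l 16065336))))))) (a (c (b (a (l 15961744) (l 15983832)) (l 15935168)) (b (c (l 15968000) (l 15971088)) (c (l 15941896) (l 15941416)))) (a (c (b (l 15993464) (l 15969888)) (b (l 16013608) (l 15976200))) (b (c (b (l 16068976) (c (l 16040552) (l 16039144))) (a (l 16044960) (a (l 16063648) (l 16003920)))) (c (l 16008608) (l 16015784)))))) (b (a (c (b (l 16059344) (c (b (l 16017160) (l 15996440)) (b (l 16016472) (l 15999560)))) (b (c (b (l 16063488) (l 16036936)) (b (c (l 16059208) (l 16056392)) (l 16032880))) (c (l 16002768) (l 15993056)))) (c (b (a (l 16116392) (a (l 16130728)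 (l 16098824))) (a (b (l 16071752) (l 16045400)) (b (a (l 16104504) (l 16089480)) (c (l 16081952) (a (l 16084968) (l 16088856)))))) (b (a (c (b (l 16122328) (l 16095344)) (b (c (l 16118280) (l 16115624)) (l 16091656))) (c (b (l 16108464) (a (l 16117960) (l 16087912))) (b (c (l 16104320) (b (l 16103128) (l 16101200))) (a (l 16114400) (l 16084160))))) (a (l 16030912) (c (a (l 16088712) (l 16082392)) (l 16073048)))))) (a (c (b (c (l 15973136) (l 15965800)) (l 15923048)) (l 15923096)) (b (c (a (l 16012232) (a (l 16044080) (c (l 16068216) (l 16061352)))) (a (l 15991744) (l 16033800))) (c (l 15980656) (l 15956040)))))) (c (a (b (c (b (l 15913136) (l 15886720)) (b (l 15862744) (l 15860456))) (c (l 15830144) (l 15793704))) (b (c (b (l 15954848) (l 15875096)) (b (l 15926136) (l 15890640))) (c (l 15841968) (l 15804840)))) (a (c (a (l 15808784) (l 15809200)) (l 15789656)) (c (b (l 15886560) (l 15775720)) (l 15813096))))), by decide +kernel⟩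

def k5_pm_202 : ∃ t, chk3 f_pm_202 t 6 17 1 = true :=
  ⟨(a (a (c (b (c (l 15911688) (l 15882992)) (l 16019336)) (b (l 15859504) (l 16060776))) (b (c (b (a (b (l 15730688) (l 15749528)) (l 15728264)) (a (l 15824784) (b (l 15718064) (l 15755896)))) (b (a (l 15700208) (l 15681488)) (a (l 15789776) (l 15704104)))) (c (c (l 15944064) (l 15927504)) (l 15911056)))) (a (b (c (a (b (l 15740728) (b (l 15689712) (l 15612216))) (l 15685104)) (a (b (l 15693944) (l 15647400)) (l 15639568))) (c (b (a (l 15639792) (c (l 15614504) (l 15590976))) (a (l 15832360) (l 15660968))) (a (l 15750424) (b (l 15568112) (l 15630640))))) (b (b (c (l 15717608) (l 15669328)) (c (l 15580128) (l 15580824))) (c (b (l 15536560) (a (b (l 15503584) (l 15514592)) (l 15446616))) (a (b (l 15510448) (l 15482864)) (l 15449712)))))), by decide +kernel⟩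

def k6_pm_202 : ∃ t, chk3 f_pm_202 t 6 9 1 = true :=
  ⟨(a (b (c (a (l 16211712) (b (l 16129272) (l 16297560))) (a (l 16263008) (l 16013320))) (a (b (c (l 16497200) (l 16490088)) (l 16528088)) (b (l 16399648) (c (l 16516776) (l 16511176))))) (b (a (c (b (l 15851816) (l 16115744)) (b (l 15871312) (l 16098352))) (a (c (l 15537448) (l 15636872)) (b (b (c (l 15427552) (l 15392200)) (l 15496352)) (l 15678680)))) (a (a (c (l 16397328) (l 16367488)) (l 16061888)) (c (l 15954824) (l 15894896))))), by decide +kernel⟩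

def k7_pm_202 : ∃ t, chk3 f_pm_202 t 14 16 1 = true :=
  ⟨(b (c (b (a (c (l 16015112) (a (l 15977728) (l 15958464))) (b (l 15858024) (a (l 15809688) (l 15783960)))) (a (b (c (a (b (l 16029584) (l 16000384)) (l 15941328)) (a (b (l 16023960) (l 16026712)) (l 15939696))) (c (a (l 16011448) (l 15940264)) (a (c (l 16019792) (l 16020072)) (l 15946984)))) (c (b (a (l 15855800) (l 15763832)) (l 15802768)) (b (c (l 15803856) (l 15806672)) (c (l 15809696) (l 15808792)))))) (b (c (a (b (l 15992952) (c (b (l 15980584) (l 15979864)) (b (l 15979864) (l 15983368)))) (b (l 15828720) (c (b (l 15811016) (l 15806720)) (b (l 15809312) (l 15809376))))) (b (a (c (b (l 15985912) (l 15958800)) (b (c (l 15981128) (l 15977968)) (l 15975296))) (c (b (l 15821840) (l 15811864)) (b (c (l 15816192) (l 15770520)) (l 15806296)))) (a (c (l 15976128) (l 15965832)) (c (l 15802688) (l 15791048))))) (a (c (a (b (c (l 16029048) (l 16021888)) (l 16001776)) (b (l 15937688) (l 15928784))) (a (l 15923992) (l 15909552)))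 (c (b (c (l 15808336) (l 15799568)) (l 15787832)) (l 15769184))))) (c (a (b (a (c (b (l 15994768) (c (l 15963848) (l 15958152))) (b (c (l 15994984) (l 15981976)) (l 15933120))) (c (b (l 15950560) (c (l 15946048) (l 15940168))) (b (l 15942712) (l 15914624)))) (a (c (l 15796072) (l 15842664)) (c (l 15879528) (l 15841728)))) (b (c (a (l 15861392) (l 15760848)) (c (l 15717192) (l 15784496))) (a (c (l 15835104) (l 15796192)) (l 15721376)))) (a (a (b (c (a (l 15928736) (l 15929216)) (l 15907512)) (c (l 15813584) (l 15799472))) (b (c (l 15892224) (l 15872472)) (l 15805088))) (a (b (l 15800088) (c (l 15765824) (l 15750992))) (c (l 15687664) (l 15666920)))))), by decide +kernel⟩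

def k8_pm_202 : ∃ t, chk3 f_pm_202 t 14 17 1 = true :=
  ⟨(a (c (b (a (b (l 15742856) (l 15627032)) (c (l 15709208) (b (l 15730328) (l 15622024)))) (a (c (l 15486544) (l 15463280)) (c (b (l 15542560) (l 15436784)) (l 15465944)))) (b (a (b (l 15694672) (l 15585592)) (b (l 15700840) (l 15597536))) (a (l 15437616) (l 15356432)))) (c (b (a (c (l 15693688) (l 15658960)) (b (l 15669736) (l 15587552))) (c (b (l 15511896) (l 15406792)) (l 15435176))) (b (a (l 15608824) (b (l 15618312) (l 15544368))) (a (l 15428232) (l 15390416))))), by decide +kernel⟩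

def k9_pm_202 : ∃ t, chk3 f_pm_202 t 15 8 1 = true :=
  ⟨(b (b (c (a (b (c (l 15706360) (a (l 15712928) (l 15666888))) (c (b (a (l 15686504) (l 15619872)) (l 15637408)) (b (c (l 15651168) (l 15651648)) (c (l 15650040) (l 15646608))))) (b (c (l 15630392) (a (l 15626024) (l 15606704))) (c (b (l 15498984) (l 15540392)) (b (a (l 15577424) (l 15551568)) (a (l 15566880) (l 15537104)))))) (b (a (c (b (l 15688032) (c (l 15661416) (b (l 15661984) (l 15658376)))) (b (c (b (l 15681672) (l 15667592)) (b (c (l 15675272) (l 15671048)) (l 15661088))) (c (l 15652504) (l 15639648)))) (c (b (a (l 15638328) (l 15615680)) (a (c (l 15603808) (l 15604224)) (c (l 15574800) (l 15576648)))) (b (c (a (l 15627008) (b (l 15617888) (l 15598320))) (b (c (l 15623736) (l 15534288)) (l 15606040))) (a (l 15592728) (c (l 15575312) (l 15565832)))))) (a (c (b (c (l 15652576) (l 15642672)) (l 15623552)) (l 15606184)) (c (a (c (l 15574832) (l 15563656)) (b (l 15552544) (l 15519576))) (a (l 15541680) (l 15515304))))))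 (c (a (c (b (a (l 15674656) (l 15598872)) (l 15603328)) (a (l 15623368) (l 15515496))) (b (c (a (l 15537328) (l 15515152)) (a (l 15530016) (l 15493936))) (a (l 15482104) (l 15443168)))) (a (c (a (l 15589456) (l 15525296)) (l 15533680)) (a (c (l 15472024) (l 15450064)) (c (l 15425352) (l 15410400)))))) (a (c (b (a (c (l 15570752) (l 15528448)) (l 15403072)) (a (c (l 15411016) (l 15381128)) (c (l 15360320) (l 15344728)))) (b (a (b (l 15519128) (l 15478832)) (l 15421168)) (a (l 15353800) (l 15319704)))) (c (b (a (l 15305320) (l 15337352)) (a (c (l 15287968) (l 15276624)) (l 15217896))) (a (b (l 15350680) (l 15259584)) (c (l 15241056) (b (l 15287808) (l 15179112))))))), by decide +kernel⟩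

def k10_pm_202 : ∃ t, chk3 f_pm_202 t 7 9 1 = true :=
  ⟨(a (b (a (b (b (c (l 15335600) (l 15297800)) (a (c (l 15332816) (l 15294712)) (l 15221864))) (a (l 15469320) (b (c (l 15230168) (l 15189160)) (l 15303488)))) (b (c (a (l 15268952) (l 15232648)) (a (l 15229296) (l 15191992))) (a (b (l 15109944) (a (l 15127320) (l 15039520))) (a (b (l 15083584) (l 14991328)) (l 15013640))))) (a (c (b (l 15620552) (l 15856984)) (b (l 15589672) (l 15832288))) (b (a (l 15254144) (b (a (l 14989256) (b (l 14901008) (a (l 14906352) (l 14861352)))) (l 15046520))) (c (l 15411712) (l 15374816))))) (b (a (c (c (l 14947280) (l 14996144)) (b (l 15143848) (l 14944032))) (c (b (a (l 15147320) (l 15110872)) (l 14951520)) (a (b (l 15017568) (l 14919264)) (b (c (l 15085296) (l 15073056)) (l 14911984))))) (a (a (b (b (l 14842560) (a (b (a (l 14833608) (l 14789336)) (l 14858984)) (b (l 14771616) (a (l 14761272) (l 14732360))))) (a (l 15044616) (c (l 14926944) (l 14834056)))) (b (l 14767920) (b (c (a (b (l 14714168)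 (l 14740016)) (l 14667952)) (a (b (l 14663952) (l 14690368)) (l 14622000))) (a (l 14826424) (b (c (l 14666328) (l 14620104)) (l 14710336)))))) (a (a (b (l 14748776) (b (l 14625072) (b (c (l 14587176) (l 14547224)) (c (l 14590632) (l 14550616))))) (c (l 14667584) (l 14631128))) (c (l 14661240) (l 14616968)))))), by decide +kernel⟩

def k11_pm_202 : ∃ t, chk3 f_pm_202 t 3 5 1 = true :=
  ⟨(a (b (a (c (b (l 16587336) (l 16641888)) (b (l 16582352) (l 16638216))) (b (b (a (a (l 16592424) (c (l 16530536) (l 16524128))) (a (l 16390864) (l 16302640))) (a (l 16570184) (a (l 16491864) (l 16357904)))) (c (l 16496624) (l 16363776)))) (a (b (c (l 16721400) (a (l 16743320) (l 16705528))) (c (l 16771248) (a (l 16777152) (l 16770032)))) (b (a (c (l 16624512) (l 16620240)) (l 16461384)) (a (c (l 16701232) (l 16699104)) (l 16341288))))) (a (b (b (a (a (b (l 16146696) (l 16254160)) (l 15862856)) (a (l 15646904) (l 15457008))) (a (a (l 16355088) (b (l 16286080) (l 16280672))) (b (a (l 16120960) (l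 15973328)) (a (l 16210040) (l 16101552))))) (c (a (l 16301328) (l 16136016)) (b (l 16099544) (l 15976680)))) (b (a (b (a (b (l 15257936) (l 15516976)) (c (l 14971568) (l 14956736))) (a (b (l 15748512) (l 15945232)) (l 15382024))) (b (b (a (a (l 14747960) (b (c (b (l 14518960) (l 14561496)) (b (a (l 14492696) (l 14450336)) (l 14521120))) (l 14666904))) (b (a (c (l 14468680) (c (l 14432336) (l 14325512))) (l 14429840)) (a (c (l 14520456) (l 14289544)) (c (l 14356360) (b (l 14344552) (a (l 14381248) (l 14319888))))))) (c (l 14834232) (a (l 14955696) (l 14629448)))) (a (c (l 15390920) (l 15244896)) (c (l 15112184) (b (l 14936816) (l 15221992)))))) (a (b (c (l 15779304) (b (l 15934864) (l 15928656))) (l 15924056)) (b (b (a (l 15527744) (c (l 15502816) (l 15481896))) (a (l 15706128) (b (c (l 15670568) (l 15655000)) (l 15736024)))) (c (l 15779184) (l 15772232))))))), by decide +kernel⟩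

def k12_pm_202 : ∃ t, chk3 f_pm_202 t 1 3 1 = true :=
  ⟨(a (l 4) (b (b (a (a (c (b (l 16777216) (l 16777216)) (c (l 16777216) (l 16777216))) (c (a (l 16729216) (l 16591368)) (a (l 16727968) (l 16586528)))) (a (a (b (l 16353488) (l 16433656)) (b (l 16161632) (l 16244960))) (a (c (l 16001184) (l 15980584)) (c (l 15797648) (l 15707312))))) (a (a (l 4) (b (c (l 16662200) (l 16630376)) (c (l 16662200) (l 16659216)))) (a (c (l 16347472) (l 16273392)) (a (c (l 16045520) (l 16026520)) (c (l 15847704) (l 15843064)))))) (b (a (a (l 4) (a (l 4) (b (l 16590024) (l 4)))) (a (c (a (l 16438056) (l 16253288)) (a (l 16429248) (l 16239680))) (c (l 15954576) (l 15952016)))) (a (l 2) (a (a (l 4) (b (l 16246480) (l 2))) (c (l 15954576) (l 15952016))))))), by decide +kernel⟩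

theorem s13_pm_202 : ∃ t, chk3 f_pm_202 t 14 8 1 = true := ex3_b k7_pm_202 k8_pm_202

theorem s14_pm_202 : ∃ t, chk3 f_pm_202 t 7 8 1 = true := ex3_a s13_pm_202 k9_pm_202

theorem s15_pm_202 : ∃ t, chk3 f_pm_202 t 7 4 1 = true := ex3_b s14_pm_202 k10_pm_202

theorem s16_pm_202 : ∃ t, chk3 f_pm_202 t 6 16 1 = true := ex3_a k3_pm_202 k4_pm_202

theorem s17_pm_202 : ∃ t, chk3 f_pm_202 t 6 8 1 = true := ex3_b s16_pm_202 k5_pm_202

theorem s18_pm_202 : ∃ t, chk3 f_pm_202 t 6 4 1 = true := ex3_b s17_pm_202 k6_pm_202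

theorem s19_pm_202 : ∃ t, chk3 f_pm_202 t 3 4 1 = true := ex3_a s18_pm_202 s15_pm_202

theorem s20_pm_202 : ∃ t, chk3 f_pm_202 t 3 2 1 = true := ex3_b s19_pm_202 k11_pm_202

theorem s21_pm_202 : ∃ t, chk3 f_pm_202 t 2 4 1 = true := ex3_b k0_pm_202 k1_pm_202

theorem s22_pm_202 : ∃ t, chk3 f_pm_202 t 2 2 1 = true := ex3_b s21_pm_202 k2_pm_202

theorem s23_pm_202 : ∃ t, chk3 f_pm_202 t 1 2 1 = true := ex3_a s22_pm_202 s20_pm_202

theorem s24_pm_202 : ∃ t, chk3 f_pm_202 t 1 1 1 = true := ex3_b s23_pm_202 k12_pm_202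

theorem c_pm_202 : CertFX 0 536870912 0 536870912 1046898278 26843546 true true false .pp 2 0 2
    ndF0q2 ndF6q0 pcF2 Cut.none Ext.none :=
  certFX0 (fam := true) (s1 := true) (s2 := false) (a := 2) (b := 0) (c := 2) (cn := .pp) (n1 := ndF0q2) (n2 := ndF6q0) (pc := pcF2) (cut := Cut.none) (xt := Ext.none) (P1 := 0) (W1 := 536870912) (P2 := 0) (W2 := 536870912) (P3 := 1046898278) (W3 := 26843546)
    rfl s24_pm_202

noncomputable def f_pm_203 : ℕ → ℕ → ℕ → ℕ → Bool := onCell 0 536870912 1610612736 536870912 1046898278 26843546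
    (rowFX 1 true true false .up 2 0 3 (qsf 0 536870912 0 536870912 3) ndF0q2 ndF6q0 pcF3 Cut.none Ext.none)

def k0_pm_203 : ∃ t, chk3 f_pm_203 t 1 1 1 = true :=
  ⟨(b (a (l 4) (b (a (l 4) (a (b (c (l 16347472) (l 16336304)) (l 4)) (b (c (l 15954576) (l 15952016)) (l 2)))) (l 4))) (l 2)), by decide +kernel⟩

theorem c_pm_203 : CertFX 0 536870912 0 536870912 1046898278 26843546 true true false .up 2 0 3
    ndF0q2 ndF6q0 pcF3 Cut.none Ext.none :=
  certFX1 (fam := true) (s1 := true) (s2 := false) (a := 2) (b := 0) (c := 3) (cn := .up) (n1 := ndF0q2) (n2 := ndF6q0) (pc := pcF3) (cut := Cut.none) (xt := Ext.none) (P1 := 0) (W1 := 536870912) (P2 := 0) (W2 := 536870912) (P3 := 1046898278) (W3 := 26843546)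
    rfl (fun _ => rfl) k0_pm_203

noncomputable def f_pm_213 : ℕ → ℕ → ℕ → ℕ → Bool := onCell 0 536870912 536870912 469762048 1046898278 26843546
    (rowFX 0 true true false .pnn 2 1 3 (qsf 0 536870912 536870912 469762048 3) ndF0q2 ndF6q1 pcF3 Cut.none Ext.none)

def k0_pm_213 : ∃ t, chk3 f_pm_213 t 1 1 1 = true :=
  ⟨(b (a (l 4) (a (l 4) (b (a (l 4) (b (c (l 15828744) (l 15784248)) (a (l 4) (b (l 15850984) (l 4))))) (l 4)))) (l 4)), by decide +kernel⟩

theorem c_pm_213 : CertFX 0 536870912 536870912 469762048 1046898278 26843546 true true false .pnn 2 1 3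
    ndF0q2 ndF6q1 pcF3 Cut.none Ext.none :=
  certFX0 (fam := true) (s1 := true) (s2 := false) (a := 2) (b := 1) (c := 3) (cn := .pnn) (n1 := ndF0q2) (n2 := ndF6q1) (pc := pcF3) (cut := Cut.none) (xt := Ext.none) (P1 := 0) (W1 := 536870912) (P2 := 536870912) (W2 := 469762048) (P3 := 1046898278) (W3 := 26843546)
    rfl k0_pm_213

noncomputable def f_mm_001 : ℕ → ℕ → ℕ → ℕ → Bool := onCell 0 536870912 0 536870912 1046898278 26843546
    (rowFX 0 true false false .up 0 0 1 (qsf 0 536870912 0 536870912 1) ndF0q0 ndF6q0 pcF1 Cut.none Ext.none)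

def k0_mm_001 : ∃ t, chk3 f_mm_001 t 1 1 1 = true :=
  ⟨(l 4), by decide +kernel⟩

theorem c_mm_001 : CertFX 0 536870912 0 536870912 1046898278 26843546 true false false .up 0 0 1
    ndF0q0 ndF6q0 pcF1 Cut.none Ext.none :=
  certFX0 (fam := true) (s1 := false) (s2 := false) (a := 0) (b := 0) (c := 1) (cn := .up) (n1 := ndF0q0) (n2 := ndF6q0) (pc := pcF1) (cut := Cut.none) (xt := Ext.none) (P1 := 0) (W1 := 536870912) (P2 := 0) (W2 := 536870912) (P3 := 1046898278) (W3 := 26843546)
    rfl k0_mm_001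

noncomputable def f_mm_011 : ℕ → ℕ → ℕ → ℕ → Bool := onCell 0 536870912 536870912 469762048 1046898278 26843546
    (rowFX 0 true false false .pnn 0 1 1 (qsf 0 536870912 536870912 469762048 1) ndF0q0 ndF6q1 pcF1 Cut.none Ext.none)

def k0_mm_011 : ∃ t, chk3 f_mm_011 t 1 1 1 = true :=
  ⟨(l 4), by decide +kernel⟩

theorem c_mm_011 : CertFX 0 536870912 536870912 469762048 1046898278 26843546 true false false .pnn 0 1 1
    ndF0q0 ndF6q1 pcF1 Cut.none Ext.none :=
  certFX0 (fam := true) (s1 := false) (s2 := false) (a := 0) (b := 1) (c := 1) (cn := .pnn) (n1 := ndF0q0) (n2 := ndF6q1) (pc := pcF1) (cut := Cut.none) (xt := Ext.none) (P1 := 0) (W1 := 536870912) (P2 := 536870912) (W2 := 469762048) (P3 := 1046898278) (W3 := 26843546)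
    rfl k0_mm_011

noncomputable def f_mm_012 : ℕ → ℕ → ℕ → ℕ → Bool := onCell 0 536870912 536870912 469762048 1046898278 26843546
    (rowFX 0 true false false .pnp 0 1 2 (qsf 0 536870912 536870912 469762048 2) ndF0q0 ndF6q1 pcF2 Cut.none Ext.none)

def k0_mm_012 : ∃ t, chk3 f_mm_012 t 1 1 1 = true :=
  ⟨(l 4), by decide +kernel⟩

theorem c_mm_012 : CertFX 0 536870912 536870912 469762048 1046898278 26843546 true false false .pnp 0 1 2
    ndF0q0 ndF6q1 pcF2 Cut.none Ext.none :=
  certFX0 (fam := true) (s1 := false) (s2 := false) (a := 0) (b := 1) (c := 2) (cn := .pnp) (n1 := ndF0q0) (n2 := ndF6q1) (pc := pcF2) (cut := Cut.none) (xt := Ext.none) (P1 := 0) (W1 := 536870912) (P2 := 536870912) (W2 := 469762048) (P3 := 1046898278) (W3 := 26843546)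
    rfl k0_mm_012

noncomputable def f_mm_022 : ℕ → ℕ → ℕ → ℕ → Bool := onCell 0 536870912 1073741824 536870912 1046898278 26843546
    (rowFX 0 true false false .pp 0 2 2 (qsf 0 536870912 1073741824 536870912 2) ndF0q0 ndF6q2 pcF2 Cut.none Ext.none)

def k0_mm_022 : ∃ t, chk3 f_mm_022 t 1 1 1 = true :=
  ⟨(l 4), by decide +kernel⟩

theorem c_mm_022 : CertFX 0 536870912 1073741824 536870912 1046898278 26843546 true false false .pp 0 2 2
    ndF0q0 ndF6q2 pcF2 Cut.none Ext.none :=
  certFX0 (fam := true) (s1 := false) (s2 := false) (a := 0) (b := 2) (c := 2) (cn := .pp) (n1 := ndF0q0) (n2 := ndF6q2) (pc := pcF2) (cut := Cut.none) (xt := Ext.none) (P1 := 0) (W1 := 536870912) (P2 := 1073741824) (W2 := 536870912) (P3 := 1046898278) (W3 := 26843546)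
    rfl k0_mm_022

noncomputable def f_mm_023 : ℕ → ℕ → ℕ → ℕ → Bool := onCell 0 536870912 1073741824 536870912 1046898278 26843546
    (rowFX 0 true false false .up 0 2 3 (qsf 0 536870912 1073741824 536870912 3) ndF0q0 ndF6q2 pcF3 Cut.none Ext.none)

def k0_mm_023 : ∃ t, chk3 f_mm_023 t 1 1 1 = true :=
  ⟨(l 4), by decide +kernel⟩

theorem c_mm_023 : CertFX 0 536870912 1073741824 536870912 1046898278 26843546 true false false .up 0 2 3
    ndF0q0 ndF6q2 pcF3 Cut.none Ext.none :=
  certFX0 (fam := true) (s1 := false) (s2 := false) (a := 0) (b := 2) (c := 3) (cn := .up) (n1 := ndF0q0) (n2 := ndF6q2) (pc := pcF3) (cut := Cut.none) (xt := Ext.none) (P1 := 0) (W1 := 536870912) (P2 := 1073741824) (W2 := 536870912) (P3 := 1046898278) (W3 := 26843546)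
    rfl k0_mm_023

noncomputable def f_mm_033 : ℕ → ℕ → ℕ → ℕ → Bool := onCell 0 536870912 0 1230186008 1046898278 26843546
    (rowFX 0 true false false .pnn 0 3 3 (qsf 0 536870912 0 1230186008 3) ndF0q0 ndF6q3 pcF3 Cut.none Ext.none)

def k0_mm_033 : ∃ t, chk3 f_mm_033 t 1 1 1 = true :=
  ⟨(l 5), by decide +kernel⟩

theorem c_mm_033 : CertFX 0 536870912 0 1230186008 1046898278 26843546 true false false .pnn 0 3 3
    ndF0q0 ndF6q3 pcF3 Cut.none Ext.none :=
  certFX0 (fam := true) (s1 := false) (s2 := false) (a := 0) (b := 3) (c := 3) (cn := .pnn) (n1 := ndF0q0) (n2 := ndF6q3) (pc := pcF3) (cut := Cut.none) (xt := Ext.none) (P1 := 0) (W1 := 536870912) (P2 := 0) (W2 := 1230186008) (P3 := 1046898278) (W3 := 26843546)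
    rfl k0_mm_033

noncomputable def f_mm_101 : ℕ → ℕ → ℕ → ℕ → Bool := onCell 536870912 536870912 0 536870912 1046898278 26843546
    (rowFX 0 true false false .npn 1 0 1 (qsf 536870912 536870912 0 536870912 1) ndF0q1 ndF6q0 pcF1 Cut.none Ext.none)

def k0_mm_101 : ∃ t, chk3 f_mm_101 t 1 1 1 = true :=
  ⟨(l 4), by decide +kernel⟩

theorem c_mm_101 : CertFX 536870912 536870912 0 536870912 1046898278 26843546 true false false .npn 1 0 1
    ndF0q1 ndF6q0 pcF1 Cut.none Ext.none :=
  certFX0 (fam := true) (s1 := false) (s2 := false) (a := 1) (b := 0) (c := 1) (cn := .npn) (n1 := ndF0q1) (n2 := ndF6q0) (pc := pcF1) (cut := Cut.none) (xt := Ext.none) (P1 := 536870912) (W1 := 536870912) (P2 := 0) (W2 := 536870912) (P3 := 1046898278) (W3 := 26843546)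
    rfl k0_mm_101

noncomputable def f_mm_102 : ℕ → ℕ → ℕ → ℕ → Bool := onCell 536870912 536870912 0 536870912 1046898278 26843546
    (rowFX 0 true false false .npp 1 0 2 (qsf 536870912 536870912 0 536870912 2) ndF0q1 ndF6q0 pcF2 Cut.none Ext.none)

def k0_mm_102 : ∃ t, chk3 f_mm_102 t 1 1 1 = true :=
  ⟨(l 4), by decide +kernel⟩

theorem c_mm_102 : CertFX 536870912 536870912 0 536870912 1046898278 26843546 true false false .npp 1 0 2
    ndF0q1 ndF6q0 pcF2 Cut.none Ext.none :=
  certFX0 (fam := true) (s1 := false) (s2 := false) (a := 1) (b := 0) (c := 2) (cn := .npp) (n1 := ndF0q1) (n2 := ndF6q0) (pc := pcF2) (cut := Cut.none) (xt := Ext.none) (P1 := 536870912) (W1 := 536870912) (P2 := 0) (W2 := 536870912) (P3 := 1046898278) (W3 := 26843546)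
    rfl k0_mm_102

noncomputable def f_mm_112 : ℕ → ℕ → ℕ → ℕ → Bool := onCell 536870912 536870912 536870912 469762048 1046898278 26843546
    (rowFX 0 true false false .dn 1 1 2 (qsf 536870912 536870912 536870912 469762048 2) ndF0q1 ndF6q1 pcF2 Cut.none Ext.none)

def k0_mm_112 : ∃ t, chk3 f_mm_112 t 1 1 1 = true :=
  ⟨(l 4), by decide +kernel⟩

theorem c_mm_112 : CertFX 536870912 536870912 536870912 469762048 1046898278 26843546 true false false .dn 1 1 2
    ndF0q1 ndF6q1 pcF2 Cut.none Ext.none :=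
  certFX0 (fam := true) (s1 := false) (s2 := false) (a := 1) (b := 1) (c := 2) (cn := .dn) (n1 := ndF0q1) (n2 := ndF6q1) (pc := pcF2) (cut := Cut.none) (xt := Ext.none) (P1 := 536870912) (W1 := 536870912) (P2 := 536870912) (W2 := 469762048) (P3 := 1046898278) (W3 := 26843546)
    rfl k0_mm_112

noncomputable def f_mm_113 : ℕ → ℕ → ℕ → ℕ → Bool := onCell 536870912 536870912 536870912 469762048 1046898278 26843546
    (rowFX 0 true false false .nn 1 1 3 (qsf 536870912 536870912 536870912 469762048 3) ndF0q1 ndF6q1 pcF3 Cut.none Ext.none)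

def k0_mm_113 : ∃ t, chk3 f_mm_113 t 1 1 1 = true :=
  ⟨(l 4), by decide +kernel⟩

theorem c_mm_113 : CertFX 536870912 536870912 536870912 469762048 1046898278 26843546 true false false .nn 1 1 3
    ndF0q1 ndF6q1 pcF3 Cut.none Ext.none :=
  certFX0 (fam := true) (s1 := false) (s2 := false) (a := 1) (b := 1) (c := 3) (cn := .nn) (n1 := ndF0q1) (n2 := ndF6q1) (pc := pcF3) (cut := Cut.none) (xt := Ext.none) (P1 := 536870912) (W1 := 536870912) (P2 := 536870912) (W2 := 469762048) (P3 := 1046898278) (W3 := 26843546)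
    rfl k0_mm_113

noncomputable def f_mm_123 : ℕ → ℕ → ℕ → ℕ → Bool := onCell 536870912 536870912 1073741824 536870912 1046898278 26843546
    (rowFX 0 true false false .npn 1 2 3 (qsf 536870912 536870912 1073741824 536870912 3) ndF0q1 ndF6q2 pcF3 Cut.none Ext.none)

def k0_mm_123 : ∃ t, chk3 f_mm_123 t 1 1 1 = true :=
  ⟨(l 4), by decide +kernel⟩

theorem c_mm_123 : CertFX 536870912 536870912 1073741824 536870912 1046898278 26843546 true false false .npn 1 2 3
    ndF0q1 ndF6q2 pcF3 Cut.none Ext.none :=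
  certFX0 (fam := true) (s1 := false) (s2 := false) (a := 1) (b := 2) (c := 3) (cn := .npn) (n1 := ndF0q1) (n2 := ndF6q2) (pc := pcF3) (cut := Cut.none) (xt := Ext.none) (P1 := 536870912) (W1 := 536870912) (P2 := 1073741824) (W2 := 536870912) (P3 := 1046898278) (W3 := 26843546)
    rfl k0_mm_123

noncomputable def f_mm_133 : ℕ → ℕ → ℕ → ℕ → Bool := onCell 536870912 536870912 0 1230186008 1046898278 26843546
    (rowFX 0 true false false .dn 1 3 3 (qsf 536870912 536870912 0 1230186008 3) ndF0q1 ndF6q3 pcF3 Cut.none Ext.none)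

def k0_mm_133 : ∃ t, chk3 f_mm_133 t 1 1 1 = true :=
  ⟨(l 4), by decide +kernel⟩

theorem c_mm_133 : CertFX 536870912 536870912 0 1230186008 1046898278 26843546 true false false .dn 1 3 3
    ndF0q1 ndF6q3 pcF3 Cut.none Ext.none :=
  certFX0 (fam := true) (s1 := false) (s2 := false) (a := 1) (b := 3) (c := 3) (cn := .dn) (n1 := ndF0q1) (n2 := ndF6q3) (pc := pcF3) (cut := Cut.none) (xt := Ext.none) (P1 := 536870912) (W1 := 536870912) (P2 := 0) (W2 := 1230186008) (P3 := 1046898278) (W3 := 26843546)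
    rfl k0_mm_133

noncomputable def f_mm_202 : ℕ → ℕ → ℕ → ℕ → Bool := onCell 0 536870912 0 536870912 1046898278 26843546
    (rowFX 0 true false false .pp 2 0 2 (qsf 0 536870912 0 536870912 2) ndF0q2 ndF6q0 pcF2 Cut.none Ext.none)

def k0_mm_202 : ∃ t, chk3 f_mm_202 t 1 1 1 = true :=
  ⟨(a (b (l 4) (l 4)) (l 4)), by decide +kernel⟩

theorem c_mm_202 : CertFX 0 536870912 0 536870912 1046898278 26843546 true false false .pp 2 0 2
    ndF0q2 ndF6q0 pcF2 Cut.none Ext.none :=
  certFX0 (fam := true) (s1 := false) (s2 := false) (a := 2) (b := 0) (c := 2) (cn := .pp) (n1 := ndF0q2) (n2 := ndF6q0) (pc := pcF2) (cut := Cut.none) (xt := Ext.none) (P1 := 0) (W1 := 536870912) (P2 := 0) (W2 := 536870912) (P3 := 1046898278) (W3 := 26843546)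
    rfl k0_mm_202

noncomputable def f_mm_203 : ℕ → ℕ → ℕ → ℕ → Bool := onCell 0 536870912 1610612736 536870912 1046898278 26843546
    (rowFX 1 true false false .up 2 0 3 (qsf 0 536870912 0 536870912 3) ndF0q2 ndF6q0 pcF3 Cut.none Ext.none)

def k0_mm_203 : ∃ t, chk3 f_mm_203 t 1 1 1 = true :=
  ⟨(l 4), by decide +kernel⟩

theorem c_mm_203 : CertFX 0 536870912 0 536870912 1046898278 26843546 true false false .up 2 0 3
    ndF0q2 ndF6q0 pcF3 Cut.none Ext.none :=
  certFX1 (fam := true) (s1 := false) (s2 := false) (a := 2) (b := 0) (c := 3) (cn := .up) (n1 := ndF0q2) (n2 := ndF6q0) (pc := pcF3) (cut := Cut.none) (xt := Ext.none) (P1 := 0) (W1 := 536870912) (P2 := 0) (W2 := 536870912) (P3 := 1046898278) (W3 := 26843546)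
    rfl (fun _ => rfl) k0_mm_203

noncomputable def f_mm_213 : ℕ → ℕ → ℕ → ℕ → Bool := onCell 0 536870912 536870912 469762048 1046898278 26843546
    (rowFX 0 true false false .pnn 2 1 3 (qsf 0 536870912 536870912 469762048 3) ndF0q2 ndF6q1 pcF3 Cut.none Ext.none)

def k0_mm_213 : ∃ t, chk3 f_mm_213 t 1 1 1 = true :=
  ⟨(l 4), by decide +kernel⟩

theorem c_mm_213 : CertFX 0 536870912 536870912 469762048 1046898278 26843546 true false false .pnn 2 1 3
    ndF0q2 ndF6q1 pcF3 Cut.none Ext.none :=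
  certFX0 (fam := true) (s1 := false) (s2 := false) (a := 2) (b := 1) (c := 3) (cn := .pnn) (n1 := ndF0q2) (n2 := ndF6q1) (pc := pcF3) (cut := Cut.none) (xt := Ext.none) (P1 := 0) (W1 := 536870912) (P2 := 536870912) (W2 := 469762048) (P3 := 1046898278) (W3 := 26843546)
    rfl k0_mm_213

end Pool.Agent.Strip051.G.IE1.Tab.C.FA06

namespace Pool.Agent.Strip051.G.IE1.Tab.C.FA07

open Pool.Agent.Strip051.PB Pool.Agent.Strip051.PB.T
open Pool.Agent.Strip051.G.IE1.Tab

noncomputable def cut_pp_001 : Cut := Cut.of [[⟨3, 0, 0, 1449551462⟩]]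

noncomputable def f_pp_001 : ℕ → ℕ → ℕ → ℕ → Bool := onCell 0 536870912 0 536870912 1046898278 26843546
    (rowFX 0 true true true .up 0 0 1 (qsf 0 536870912 0 536870912 1) ndF0q0 ndF7q0 pcF1 cut_pp_001 Ext.none)

def k0_pp_001 : ∃ t, chk3 f_pp_001 t 1 1 1 = true :=
  ⟨(l 4), by decide +kernel⟩

theorem c_pp_001 : CertFX 0 536870912 0 536870912 1046898278 26843546 true true true .up 0 0 1
    ndF0q0 ndF7q0 pcF1 cut_pp_001 Ext.none :=
  certFX0 (fam := true) (s1 := true) (s2 := true) (a := 0) (b := 0) (c := 1) (cn := .up) (n1 := ndF0q0) (n2 := ndF7q0) (pc := pcF1) (cut := cut_pp_001) (xt := Ext.none) (P1 := 0) (W1 := 536870912) (P2 := 0) (W2 := 536870912) (P3 := 1046898278) (W3 := 26843546)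
    rfl k0_pp_001

noncomputable def cut_pp_011 : Cut := Cut.of [[⟨3, 0, 0, 1449551462⟩]]

noncomputable def f_pp_011 : ℕ → ℕ → ℕ → ℕ → Bool := onCell 0 536870912 536870912 536870912 1046898278 26843546
    (rowFX 0 true true true .pnn 0 1 1 (qsf 0 536870912 536870912 536870912 1) ndF0q0 ndF7q1 pcF1 cut_pp_011 Ext.none)

def k0_pp_011 : ∃ t, chk3 f_pp_011 t 1 1 1 = true :=
  ⟨(l 4), by decide +kernel⟩

theorem c_pp_011 : CertFX 0 536870912 536870912 536870912 1046898278 26843546 true true true .pnn 0 1 1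
    ndF0q0 ndF7q1 pcF1 cut_pp_011 Ext.none :=
  certFX0 (fam := true) (s1 := true) (s2 := true) (a := 0) (b := 1) (c := 1) (cn := .pnn) (n1 := ndF0q0) (n2 := ndF7q1) (pc := pcF1) (cut := cut_pp_011) (xt := Ext.none) (P1 := 0) (W1 := 536870912) (P2 := 536870912) (W2 := 536870912) (P3 := 1046898278) (W3 := 26843546)
    rfl k0_pp_011

noncomputable def cut_pp_012 : Cut := Cut.of [[⟨3, 0, 0, 1449551462⟩]]

noncomputable def f_pp_012 : ℕ → ℕ → ℕ → ℕ → Bool := onCell 0 536870912 536870912 536870912 1046898278 26843546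
    (rowFX 0 true true true .pnp 0 1 2 (qsf 0 536870912 536870912 536870912 2) ndF0q0 ndF7q1 pcF2 cut_pp_012 Ext.none)

def k0_pp_012 : ∃ t, chk3 f_pp_012 t 1 1 1 = true :=
  ⟨(l 4), by decide +kernel⟩

theorem c_pp_012 : CertFX 0 536870912 536870912 536870912 1046898278 26843546 true true true .pnp 0 1 2
    ndF0q0 ndF7q1 pcF2 cut_pp_012 Ext.none :=
  certFX0 (fam := true) (s1 := true) (s2 := true) (a := 0) (b := 1) (c := 2) (cn := .pnp) (n1 := ndF0q0) (n2 := ndF7q1) (pc := pcF2) (cut := cut_pp_012) (xt := Ext.none) (P1 := 0) (W1 := 536870912) (P2 := 536870912) (W2 := 536870912) (P3 := 1046898278) (W3 := 26843546)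
    rfl k0_pp_012

noncomputable def cut_pp_022 : Cut := Cut.of [[⟨3, 0, 0, 1449551462⟩]]

noncomputable def f_pp_022 : ℕ → ℕ → ℕ → ℕ → Bool := onCell 0 536870912 1073741824 536870912 1046898278 26843546
    (rowFX 0 true true true .pp 0 2 2 (qsf 0 536870912 1073741824 536870912 2) ndF0q0 ndF7q2 pcF2 cut_pp_022 Ext.none)

def k0_pp_022 : ∃ t, chk3 f_pp_022 t 1 1 1 = true :=
  ⟨(l 4), by decide +kernel⟩

theorem c_pp_022 : CertFX 0 536870912 1073741824 536870912 1046898278 26843546 true true true .pp 0 2 2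
    ndF0q0 ndF7q2 pcF2 cut_pp_022 Ext.none :=
  certFX0 (fam := true) (s1 := true) (s2 := true) (a := 0) (b := 2) (c := 2) (cn := .pp) (n1 := ndF0q0) (n2 := ndF7q2) (pc := pcF2) (cut := cut_pp_022) (xt := Ext.none) (P1 := 0) (W1 := 536870912) (P2 := 1073741824) (W2 := 536870912) (P3 := 1046898278) (W3 := 26843546)
    rfl k0_pp_022

noncomputable def cut_pp_023 : Cut := Cut.of [[⟨3, 0, 0, 1449551462⟩]]

noncomputable def f_pp_023 : ℕ → ℕ → ℕ → ℕ → Bool := onCell 0 536870912 1073741824 536870912 1046898278 26843546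
    (rowFX 0 true true true .up 0 2 3 (qsf 0 536870912 1073741824 536870912 3) ndF0q0 ndF7q2 pcF3 cut_pp_023 Ext.none)

def k0_pp_023 : ∃ t, chk3 f_pp_023 t 1 1 1 = true :=
  ⟨(l 4), by decide +kernel⟩

theorem c_pp_023 : CertFX 0 536870912 1073741824 536870912 1046898278 26843546 true true true .up 0 2 3
    ndF0q0 ndF7q2 pcF3 cut_pp_023 Ext.none :=
  certFX0 (fam := true) (s1 := true) (s2 := true) (a := 0) (b := 2) (c := 3) (cn := .up) (n1 := ndF0q0) (n2 := ndF7q2) (pc := pcF3) (cut := cut_pp_023) (xt := Ext.none) (P1 := 0) (W1 := 536870912) (P2 := 1073741824) (W2 := 536870912) (P3 := 1046898278) (W3 := 26843546)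
    rfl k0_pp_023

noncomputable def cut_pp_033 : Cut := Cut.of [[⟨3, 0, 0, 1449551462⟩]]

noncomputable def f_pp_033 : ℕ → ℕ → ℕ → ℕ → Bool := onCell 0 536870912 0 1230186008 1046898278 26843546
    (rowFX 0 true true true .pnn 0 3 3 (qsf 0 536870912 0 1230186008 3) ndF0q0 ndF7q3 pcF3 cut_pp_033 Ext.none)

def k0_pp_033 : ∃ t, chk3 f_pp_033 t 1 1 1 = true :=
  ⟨(l 4), by decide +kernel⟩

theorem c_pp_033 : CertFX 0 536870912 0 1230186008 1046898278 26843546 true true true .pnn 0 3 3
    ndF0q0 ndF7q3 pcF3 cut_pp_033 Ext.none :=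
  certFX0 (fam := true) (s1 := true) (s2 := true) (a := 0) (b := 3) (c := 3) (cn := .pnn) (n1 := ndF0q0) (n2 := ndF7q3) (pc := pcF3) (cut := cut_pp_033) (xt := Ext.none) (P1 := 0) (W1 := 536870912) (P2 := 0) (W2 := 1230186008) (P3 := 1046898278) (W3 := 26843546)
    rfl k0_pp_033

noncomputable def cut_pp_101 : Cut := Cut.of [[⟨3, 0, 0, 1449551462⟩]]

noncomputable def f_pp_101 : ℕ → ℕ → ℕ → ℕ → Bool := onCell 536870912 536870912 0 536870912 1046898278 26843546
    (rowFX 0 true true true .npn 1 0 1 (qsf 536870912 536870912 0 536870912 1) ndF0q1 ndF7q0 pcF1 cut_pp_101 Ext.none)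

def k0_pp_101 : ∃ t, chk3 f_pp_101 t 1 1 1 = true :=
  ⟨(l 4), by decide +kernel⟩

theorem c_pp_101 : CertFX 536870912 536870912 0 536870912 1046898278 26843546 true true true .npn 1 0 1
    ndF0q1 ndF7q0 pcF1 cut_pp_101 Ext.none :=
  certFX0 (fam := true) (s1 := true) (s2 := true) (a := 1) (b := 0) (c := 1) (cn := .npn) (n1 := ndF0q1) (n2 := ndF7q0) (pc := pcF1) (cut := cut_pp_101) (xt := Ext.none) (P1 := 536870912) (W1 := 536870912) (P2 := 0) (W2 := 536870912) (P3 := 1046898278) (W3 := 26843546)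
    rfl k0_pp_101

noncomputable def cut_pp_102 : Cut := Cut.of [[⟨3, 0, 0, 1449551462⟩]]

noncomputable def f_pp_102 : ℕ → ℕ → ℕ → ℕ → Bool := onCell 536870912 536870912 0 536870912 1046898278 26843546
    (rowFX 0 true true true .npp 1 0 2 (qsf 536870912 536870912 0 536870912 2) ndF0q1 ndF7q0 pcF2 cut_pp_102 Ext.none)

def k0_pp_102 : ∃ t, chk3 f_pp_102 t 1 1 1 = true :=
  ⟨(l 4), by decide +kernel⟩

theorem c_pp_102 : CertFX 536870912 536870912 0 536870912 1046898278 26843546 true true true .npp 1 0 2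
    ndF0q1 ndF7q0 pcF2 cut_pp_102 Ext.none :=
  certFX0 (fam := true) (s1 := true) (s2 := true) (a := 1) (b := 0) (c := 2) (cn := .npp) (n1 := ndF0q1) (n2 := ndF7q0) (pc := pcF2) (cut := cut_pp_102) (xt := Ext.none) (P1 := 536870912) (W1 := 536870912) (P2 := 0) (W2 := 536870912) (P3 := 1046898278) (W3 := 26843546)
    rfl k0_pp_102

noncomputable def cut_pp_112 : Cut := Cut.of [[⟨3, 0, 0, 1449551462⟩]]

noncomputable def f_pp_112 : ℕ → ℕ → ℕ → ℕ → Bool := onCell 536870912 536870912 536870912 536870912 1046898278 26843546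
    (rowFX 0 true true true .dn 1 1 2 (qsf 536870912 536870912 536870912 536870912 2) ndF0q1 ndF7q1 pcF2 cut_pp_112 Ext.none)

def k0_pp_112 : ∃ t, chk3 f_pp_112 t 1 1 1 = true :=
  ⟨(l 4), by decide +kernel⟩

theorem c_pp_112 : CertFX 536870912 536870912 536870912 536870912 1046898278 26843546 true true true .dn 1 1 2
    ndF0q1 ndF7q1 pcF2 cut_pp_112 Ext.none :=
  certFX0 (fam := true) (s1 := true) (s2 := true) (a := 1) (b := 1) (c := 2) (cn := .dn) (n1 := ndF0q1) (n2 := ndF7q1) (pc := pcF2) (cut := cut_pp_112) (xt := Ext.none) (P1 := 536870912) (W1 := 536870912) (P2 := 536870912) (W2 := 536870912) (P3 := 1046898278) (W3 := 26843546)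
    rfl k0_pp_112

noncomputable def cut_pp_113 : Cut := Cut.of [[⟨3, 0, 0, 1449551462⟩]]

noncomputable def f_pp_113 : ℕ → ℕ → ℕ → ℕ → Bool := onCell 536870912 536870912 536870912 536870912 1046898278 26843546
    (rowFX 0 true true true .nn 1 1 3 (qsf 536870912 536870912 536870912 536870912 3) ndF0q1 ndF7q1 pcF3 cut_pp_113 Ext.none)

def k0_pp_113 : ∃ t, chk3 f_pp_113 t 1 1 1 = true :=
  ⟨(l 4), by decide +kernel⟩

theorem c_pp_113 : CertFX 536870912 536870912 536870912 536870912 1046898278 26843546 true true true .nn 1 1 3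
    ndF0q1 ndF7q1 pcF3 cut_pp_113 Ext.none :=
  certFX0 (fam := true) (s1 := true) (s2 := true) (a := 1) (b := 1) (c := 3) (cn := .nn) (n1 := ndF0q1) (n2 := ndF7q1) (pc := pcF3) (cut := cut_pp_113) (xt := Ext.none) (P1 := 536870912) (W1 := 536870912) (P2 := 536870912) (W2 := 536870912) (P3 := 1046898278) (W3 := 26843546)
    rfl k0_pp_113

noncomputable def cut_pp_123 : Cut := Cut.of [[⟨3, 0, 0, 1449551462⟩]]

noncomputable def f_pp_123 : ℕ → ℕ → ℕ → ℕ → Bool := onCell 536870912 536870912 1073741824 536870912 1046898278 26843546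
    (rowFX 0 true true true .npn 1 2 3 (qsf 536870912 536870912 1073741824 536870912 3) ndF0q1 ndF7q2 pcF3 cut_pp_123 Ext.none)

def k0_pp_123 : ∃ t, chk3 f_pp_123 t 1 1 1 = true :=
  ⟨(l 4), by decide +kernel⟩

theorem c_pp_123 : CertFX 536870912 536870912 1073741824 536870912 1046898278 26843546 true true true .npn 1 2 3
    ndF0q1 ndF7q2 pcF3 cut_pp_123 Ext.none :=
  certFX0 (fam := true) (s1 := true) (s2 := true) (a := 1) (b := 2) (c := 3) (cn := .npn) (n1 := ndF0q1) (n2 := ndF7q2) (pc := pcF3) (cut := cut_pp_123) (xt := Ext.none) (P1 := 536870912) (W1 := 536870912) (P2 := 1073741824) (W2 := 536870912) (P3 := 1046898278) (W3 := 26843546)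
    rfl k0_pp_123

noncomputable def cut_pp_133 : Cut := Cut.of [[⟨3, 0, 0, 1449551462⟩]]

noncomputable def f_pp_133 : ℕ → ℕ → ℕ → ℕ → Bool := onCell 536870912 536870912 0 1230186008 1046898278 26843546
    (rowFX 0 true true true .dn 1 3 3 (qsf 536870912 536870912 0 1230186008 3) ndF0q1 ndF7q3 pcF3 cut_pp_133 Ext.none)

def k0_pp_133 : ∃ t, chk3 f_pp_133 t 1 1 1 = true :=
  ⟨(l 4), by decide +kernel⟩

theorem c_pp_133 : CertFX 536870912 536870912 0 1230186008 1046898278 26843546 true true true .dn 1 3 3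
    ndF0q1 ndF7q3 pcF3 cut_pp_133 Ext.none :=
  certFX0 (fam := true) (s1 := true) (s2 := true) (a := 1) (b := 3) (c := 3) (cn := .dn) (n1 := ndF0q1) (n2 := ndF7q3) (pc := pcF3) (cut := cut_pp_133) (xt := Ext.none) (P1 := 536870912) (W1 := 536870912) (P2 := 0) (W2 := 1230186008) (P3 := 1046898278) (W3 := 26843546)
    rfl k0_pp_133

noncomputable def cut_pp_202 : Cut := Cut.of [[⟨3, 0, 0, 1449551462⟩]]

noncomputable def f_pp_202 : ℕ → ℕ → ℕ → ℕ → Bool := onCell 0 536870912 0 536870912 1046898278 26843546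
    (rowFX 0 true true true .pp 2 0 2 (qsf 0 536870912 0 536870912 2) ndF0q2 ndF7q0 pcF2 cut_pp_202 Ext.none)

def k0_pp_202 : ∃ t, chk3 f_pp_202 t 1 1 1 = true :=
  ⟨(l 4), by decide +kernel⟩

theorem c_pp_202 : CertFX 0 536870912 0 536870912 1046898278 26843546 true true true .pp 2 0 2
    ndF0q2 ndF7q0 pcF2 cut_pp_202 Ext.none :=
  certFX0 (fam := true) (s1 := true) (s2 := true) (a := 2) (b := 0) (c := 2) (cn := .pp) (n1 := ndF0q2) (n2 := ndF7q0) (pc := pcF2) (cut := cut_pp_202) (xt := Ext.none) (P1 := 0) (W1 := 536870912) (P2 := 0) (W2 := 536870912) (P3 := 1046898278) (W3 := 26843546)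
    rfl k0_pp_202

noncomputable def cut_pp_203 : Cut := Cut.of [[⟨3, 0, 0, 1449551462⟩]]

noncomputable def f_pp_203 : ℕ → ℕ → ℕ → ℕ → Bool := onCell 0 536870912 0 536870912 1046898278 26843546
    (rowFX 0 true true true .up 2 0 3 (qsf 0 536870912 0 536870912 3) ndF0q2 ndF7q0 pcF3 cut_pp_203 Ext.none)

def k0_pp_203 : ∃ t, chk3 f_pp_203 t 1 1 1 = true :=
  ⟨(l 4), by decide +kernel⟩

theorem c_pp_203 : CertFX 0 536870912 0 536870912 1046898278 26843546 true true true .up 2 0 3
    ndF0q2 ndF7q0 pcF3 cut_pp_203 Ext.none :=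
  certFX0 (fam := true) (s1 := true) (s2 := true) (a := 2) (b := 0) (c := 3) (cn := .up) (n1 := ndF0q2) (n2 := ndF7q0) (pc := pcF3) (cut := cut_pp_203) (xt := Ext.none) (P1 := 0) (W1 := 536870912) (P2 := 0) (W2 := 536870912) (P3 := 1046898278) (W3 := 26843546)
    rfl k0_pp_203

noncomputable def cut_pp_213 : Cut := Cut.of [[⟨3, 0, 0, 1449551462⟩]]

noncomputable def f_pp_213 : ℕ → ℕ → ℕ → ℕ → Bool := onCell 0 536870912 536870912 536870912 1046898278 26843546
    (rowFX 0 true true true .pnn 2 1 3 (qsf 0 536870912 536870912 536870912 3) ndF0q2 ndF7q1 pcF3 cut_pp_213 Ext.none)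

def k0_pp_213 : ∃ t, chk3 f_pp_213 t 1 1 1 = true :=
  ⟨(l 4), by decide +kernel⟩

theorem c_pp_213 : CertFX 0 536870912 536870912 536870912 1046898278 26843546 true true true .pnn 2 1 3
    ndF0q2 ndF7q1 pcF3 cut_pp_213 Ext.none :=
  certFX0 (fam := true) (s1 := true) (s2 := true) (a := 2) (b := 1) (c := 3) (cn := .pnn) (n1 := ndF0q2) (n2 := ndF7q1) (pc := pcF3) (cut := cut_pp_213) (xt := Ext.none) (P1 := 0) (W1 := 536870912) (P2 := 536870912) (W2 := 536870912) (P3 := 1046898278) (W3 := 26843546)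
    rfl k0_pp_213

noncomputable def cut_pm_001 : Cut := Cut.of [[⟨3, 0, 0, 1449551462⟩]]

noncomputable def f_pm_001 : ℕ → ℕ → ℕ → ℕ → Bool := onCell 0 536870912 536870912 536870912 1046898278 26843546
    (rowFX 1 true true false .up 0 0 1 (qsf 0 536870912 0 536870912 1) ndF0q0 ndF7q0 pcF1 cut_pm_001 Ext.none)

def k0_pm_001 : ∃ t, chk3 f_pm_001 t 1 1 1 = true :=
  ⟨(b (l 6) (b (l 6) (a (l 2) (b (l 6) (a (l 2) (b (l 6) (a (l 2) (c (l 16068264) (l 16049848))))))))), by decide +kernel⟩

theorem c_pm_001 : CertFX 0 536870912 0 536870912 1046898278 26843546 true true false .up 0 0 1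
    ndF0q0 ndF7q0 pcF1 cut_pm_001 Ext.none :=
  certFX1 (fam := true) (s1 := true) (s2 := false) (a := 0) (b := 0) (c := 1) (cn := .up) (n1 := ndF0q0) (n2 := ndF7q0) (pc := pcF1) (cut := cut_pm_001) (xt := Ext.none) (P1 := 0) (W1 := 536870912) (P2 := 0) (W2 := 536870912) (P3 := 1046898278) (W3 := 26843546)
    rfl (fun _ => rfl) k0_pm_001

noncomputable def cut_pm_011 : Cut := Cut.of [[⟨3, 0, 0, 1449551462⟩], [⟨0, 0, 0, 67108864⟩, ⟨1, 1, 0, 67108864⟩, ⟨2, 1, 0, 67108864⟩]]

noncomputable def f_pm_011 : ℕ → ℕ → ℕ → ℕ → Bool := onCell 0 536870912 536870912 536870912 1046898278 26843546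
    (rowFX 1 true true false .pnn 0 1 1 (qsf 0 536870912 536870912 536870912 1) ndF0q0 ndF7q1 pcF1 cut_pm_011 Ext.none)

def k0_pm_011 : ∃ t, chk3 f_pm_011 t 1 1 1 = true :=
  ⟨(b (l 6) (b (l 6) (a (l 6) (b (l 6) (a (l 6) (b (l 6) (a (l 6) (c (l 16068264) (l 16049848))))))))), by decide +kernel⟩

theorem c_pm_011 : CertFX 0 536870912 536870912 536870912 1046898278 26843546 true true false .pnn 0 1 1
    ndF0q0 ndF7q1 pcF1 cut_pm_011 Ext.none :=
  certFX1 (fam := true) (s1 := true) (s2 := false) (a := 0) (b := 1) (c := 1) (cn := .pnn) (n1 := ndF0q0) (n2 := ndF7q1) (pc := pcF1) (cut := cut_pm_011) (xt := Ext.none) (P1 := 0) (W1 := 536870912) (P2 := 536870912) (W2 := 536870912) (P3 := 1046898278) (W3 := 26843546)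
    rfl (fun _ => rfl) k0_pm_011

noncomputable def cut_pm_012 : Cut := Cut.of [[⟨3, 0, 0, 1449551462⟩], [⟨0, 0, 0, 67108864⟩, ⟨1, 1, 0, 67108864⟩, ⟨2, 1, 0, 67108864⟩]]

noncomputable def f_pm_012 : ℕ → ℕ → ℕ → ℕ → Bool := onCell 1073741824 536870912 536870912 536870912 1046898278 26843546
    (rowFX 2 true true false .pnp 0 1 2 (qsf 0 536870912 536870912 536870912 2) ndF0q0 ndF7q1 pcF2 cut_pm_012 Ext.none)

def k0_pm_012 : ∃ t, chk3 f_pm_012 t 4 1 1 = true :=
  ⟨(b (b (a (b (c (a (l 16072744) (l 15761264)) (a (l 16054440) (l 15734872))) (c (a (b (l 16119928) (l 6)) (l 15781240)) (a (l 16076232) (l 15755376)))) (b (c (l 17277175623) (a (l 15469344) (l 2))) (c (a (l 15481480) (l 15172072)) (a (l 15447824) (l 15130376))))) (a (a (l 6) (b (b (c (l 15833704) (l 15809896)) (l 6)) (l 6))) (a (b (c (b (l 15499824) (l 15620944)) (b (l 15467344) (l 15593968))) (b (c (l 15616872) (l 15742616)) (l 6))) (b (c (b (l 15174408) (l 15272072)) (l 15183064)) (c (b (l 15390896) (l 15526936)) (b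 (l 15360192) (l 15501768))))))) (a (l 6) (b (b (b (a (l 6) (b (c (l 15640128) (l 15619240)) (a (l 6) (a (b (l 15640360) (l 6)) (l 15561536))))) (b (a (l 6) (a (l 6) (a (l 6) (c (l 15673512) (l 15654968))))) (l 6))) (l 6)) (l 6)))), by decide +kernel⟩

def k1_pm_012 : ∃ t, chk3 f_pm_012 t 5 2 1 = true :=
  ⟨(a (b (a (a (b (l 2) (l 14935312)) (l 2)) (l 2)) (a (b (a (c (l 14991296) (l 14946824)) (c (l 15150912) (l 15110600))) (a (c (l 15194784) (l 15160056)) (c (l 15339704) (l 15308912)))) (b (c (l 15704232) (l 15721392)) (b (l 15610336) (a (l 15779792) (l 16154368)))))) (b (l 2) (a (b (c (l 16464680) (l 16458904)) (c (l 16293784) (l 16329576))) (b (l 2) (c (l 16255272) (l 16241720)))))), by decide +kernel⟩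

def k2_pm_012 : ∃ t, chk3 f_pm_012 t 10 3 1 = true :=
  ⟨(b (a (b (b (a (c (l 15393792) (l 15367000)) (c (l 15527400) (l 15504488))) (a (c (c (b (a (l 15570368) (l 15470864)) (l 15646616)) (b (l 15512024) (l 15637496))) (c (b (l 15500728) (l 15628376)) (l 15473496))) (b (l 15500568) (a (c (c (l 15638064) (l 15628880)) (l 15615472)) (c (b (l 15790552) (l 15796256)) (l 15804320)))))) (b (a (a (l 6) (c (a (l 15812696) (l 15711528)) (l 15792328))) (c (a (b (l 15786000) (l 15919544)) (c (l 15832888) (l 15934776))) (a (l 15736744) (c (l 16015696) (l 16012744))))) (a (l 6) (c (a (l 15966152) (l 15801936)) (a (l 16027552) (l 15901312)))))) (a (b (b (l 15781424) (a (c (b (l 15924200) (l 15981824)) (l 15893880)) (l 16019136))) (b (c (c (l 15948432) (l 16010352)) (b (l 16085376) (l 16088216))) (c (l 15688136) (l 15738488)))) (b (c (l 16029712) (l 16131856)) (b (c (b (b (l 16021208) (l 15968464)) (l 15869248)) (b (l 15983384) (l 15854608))) (c (l 15623656) (l 15622784)))))) (a (l 6) (b (b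 (c (c (b (l 15528520) (l 15390752)) (l 15258128)) (a (l 15530448) (l 15302368))) (c (a (b (l 15303272) (l 6)) (c (l 15047024) (l 15057104))) (a (l 15154320) (l 15036928)))) (a (l 6) (a (l 6) (b (c (c (b (l 14742344) (l 14644976)) (l 14727264)) (b (l 14775000) (l 14680080))) (l 6))))))), by decide +kernel⟩

def k3_pm_012 : ∃ t, chk3 f_pm_012 t 11 3 1 = true :=
  ⟨(b (a (b (b (c (l 16065672) (l 16051024)) (c (l 15851184) (l 15830648))) (c (b (a (b (l 15779824) (l 15646104)) (l 15507200)) (a (l 15292000) (l 15067568))) (b (a (l 15584984) (l 15475864)) (a (l 15386920) (l 15153848))))) (b (c (l 15795104) (l 15769600)) (b (c (l 15395008) (l 15359112)) (c (a (a (l 15046992) (l 15066592)) (l 15066592)) (a (l 15022864) (l 15022160)))))) (a (b (c (b (a (l 14967896) (l 14860912)) (c (a (l 14807280) (l 14570480)) (l 14566720))) (b (a (l 15057296) (l 14816000)) (a (l 14786928) (l 14539768)))) (c (b (c (a (b (l 14558832) (c (l 14424400) (l 14424216))) (l 14250800)) (b (l 14467160) (l 14310048)))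 (a (c (b (l 14377480) (l 14391368)) (b (c (l 14358640) (l 14353240)) (l 14346184))) (b (c (l 14068952) (l 14044936)) (c (l 14041432) (l 13999608))))) (b (c (b (l 14471392) (l 14220376)) (l 14231944)) (c (b (a (l 14362752) (l 14044352)) (l 14153120)) (b (l 14079552) (a (l 14325216) (l 13960304))))))) (b (c (c (a (b (l 14759824) (l 14435136)) (l 14406152)) (b (l 14717960) (l 14434184))) (a (b (l 14678480) (l 14398384)) (l 14539088))) (c (b (c (l 14071304) (b (l 14206136) (l 14037648))) (a (a (b (l 13906120) (l 13822128)) (l 13855008)) (l 13853368))) (b (c (l 14127648) (l 14100128)) (c (b (l 13885512) (l 13755104)) (b (l 13876336) (l 13717032)))))))), by decide +kernel⟩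

def k4_pm_012 : ∃ t, chk3 f_pm_012 t 3 1 1 = true :=
  ⟨(b (a (a (b (l 2) (b (l 2) (c (l 16255144) (l 16241584)))) (l 2)) (l 2)) (b (a (c (a (b (l 15794880) (b (l 15394720) (l 15066592))) (b (l 15794880) (l 15232640))) (b (a (l 15769368) (l 15769368)) (a (b (l 15358816) (l 15022160)) (c (l 15202552) (l 15182496))))) (a (b (l 2) (c (l 15232640) (l 15192520))) (l 2))) (a (c (b (b (a (a (l 14727536) (l 14727536)) (l 14727536)) (a (c (l 14392448) (l 14433800)) (a (l 14304560) (l 14430384)))) (c (a (b (l 14112864) (l 13867472)) (a (l 13996000) (l 13996000))) (a (b (l 14124336) (l 13835560)) (b (l 13914624) (l 13835560))))) (b (a (c (a (l 14553248) (l 14553248)) (b (l 14664440) (l 14382544))) (a (b (l 14677728) (l 14397600)) (l 14539088))) (a (b (c (l 14127256) (l 14099728)) (c (l 13819208) (b (l 13875936) (l 13726488)))) (c (b (l 14127256) (l 13777264)) (b (l 14099728) (a (l 13811240) (l 13811240))))))) (b (c (a (b (l 14727536) (l 14430384)) (l 14511856)) (a (l 14434232) (l 14539088)))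 (c (b (a (l 14124568) (l 14124568)) (a (l 13853368) (l 13853368))) (b (a (l 14110352) (l 14110352)) (a (c (l 13819208) (b (l 13875936) (l 13726488))) (c (l 13819208) (l 13811240))))))))), by decide +kernel⟩

theorem s5_pm_012 : ∃ t, chk3 f_pm_012 t 5 3 1 = true := ex3_a k2_pm_012 k3_pm_012

theorem s6_pm_012 : ∃ t, chk3 f_pm_012 t 5 1 1 = true := ex3_b k1_pm_012 s5_pm_012

theorem s7_pm_012 : ∃ t, chk3 f_pm_012 t 2 1 1 = true := ex3_a k0_pm_012 s6_pm_012

theorem s8_pm_012 : ∃ t, chk3 f_pm_012 t 1 1 1 = true := ex3_a s7_pm_012 k4_pm_012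

theorem c_pm_012 : CertFX 0 536870912 536870912 536870912 1046898278 26843546 true true false .pnp 0 1 2
    ndF0q0 ndF7q1 pcF2 cut_pm_012 Ext.none :=
  certFX2 (fam := true) (s1 := true) (s2 := false) (a := 0) (b := 1) (c := 2) (cn := .pnp) (n1 := ndF0q0) (n2 := ndF7q1) (pc := pcF2) (cut := cut_pm_012) (xt := Ext.none) (P1 := 0) (W1 := 536870912) (P2 := 536870912) (W2 := 536870912) (P3 := 1046898278) (W3 := 26843546)
    rfl (fun _ => rfl) s8_pm_012

noncomputable def cut_pm_022 : Cut := Cut.of [[⟨3, 0, 0, 1449551462⟩], [⟨0, 0, 0, 67108864⟩, ⟨1, 1, 0, 67108864⟩, ⟨2, 1, 0, 67108864⟩]]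

noncomputable def f_pm_022 : ℕ → ℕ → ℕ → ℕ → Bool := onCell 1073741824 536870912 1073741824 536870912 1046898278 26843546
    (rowFX 2 true true false .pp 0 2 2 (qsf 0 536870912 1073741824 536870912 2) ndF0q0 ndF7q2 pcF2 cut_pm_022 Ext.none)

def k0_pm_022 : ∃ t, chk3 f_pm_022 t 2 1 1 = true :=
  ⟨(a (l 6) (b (a (l 6) (b (a (b (a (b (b (c (c (l 14496352) (l 14470736)) (c (l 14433360) (l 14437608))) (l 6)) (l 6)) (c (b (c (l 14256584) (l 14232944)) (b (l 14600384) (l 14751272))) (b (c (b (l 14082888) (l 14342040)) (b (l 14076128) (l 14337888))) (b (l 14485216) (l 14866752))))) (l 6)) (b (c (b (a (c (l 13934344) (l 13884184)) (l 13923680)) (c (a (l 14489776) (l 14383856)) (b (l 14309416) (l 14587760)))) (b (c (b (l 13809184) (a (l 14100080) (l 13992104))) (b (a (l 13823200) (l 13751192)) (l 14038568))) (c (b (l 14239552) (l 14590136)) (l 14331152)))) (c (b (a (c (l 15018392) (l 15029176)) (l 14847264)) (b (l 15328608) (l 15587056))) (b (a (l 15000160) (l 14890024)) (l 15242096)))))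 (b (a (l 6) (a (l 6) (b (b (l 15787328) (l 16057496)) (l 6)))) (l 6)))) (l 6))), by decide +kernel⟩

def k1_pm_022 : ∃ t, chk3 f_pm_022 t 3 4 1 = true :=
  ⟨(a (b (c (a (b (a (a (l 13879520) (l 13869312)) (l 13869312)) (a (c (l 14251984) (b (l 14128432) (l 14383264))) (c (l 14167560) (l 14179064)))) (b (a (l 13869312) (l 13869312)) (c (l 14160720) (l 14109176)))) (a (b (c (b (l 13751856) (l 13894368)) (b (l 13734688) (l 13906008))) (a (c (b (l 14139504) (l 14382344)) (l 14242648)) (c (l 14181184) (l 14153808)))) (b (c (l 13835584) (b (l 13734688) (l 13899896))) (c (l 14174088) (l 14146584))))) (c (a (b (a (c (l 14762520) (l 14769288)) (c (l 14573496) (l 14598400))) (a (l 15251848) (l 15066016))) (b (c (a (l 14517816) (l 14511640)) (l 14308440)) (a (a (l 14939040) (l 14877928)) (l 14843040)))) (a (b (a (l 14734240) (b (l 14444368) (l 14661392))) (a (l 15215664) (l 15002784))) (c (b (l 14470296) (a (l 14876856) (l 14805416))) (b (a (l 14464464) (l 14457936)) (a (l 14685280) (l 14780336)))))))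 (b (c (b (a (l 13869312) (l 13869312)) (a (c (l 14160720) (l 14172096)) (c (l 14160720) (l 14172096)))) (a (b (c (l 13835584) (b (l 13734688) (l 13899896))) (c (l 14174088) (l 14146584))) (b (c (l 13835584) (l 13827688)) (c (l 14174088) (l 14146584))))) (c (a (b (c (l 14511640) (l 14514072)) (a (l 14837472) (l 14837472))) (b (c (l 14511640) (l 14514072)) (a (l 14837472) (l 14837472)))) (a (b (l 14472520) (c (l 14799688) (l 14774496))) (b (l 14472520) (l 14787088)))))), by decide +kernel⟩

def k2_pm_022 : ∃ t, chk3 f_pm_022 t 3 5 1 = true :=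
  ⟨(a (b (b (a (c (a (l 15768088) (l 15578128)) (a (l 15747024) (l 15550744))) (a (c (l 15410152) (l 15376936)) (c (l 15272744) (b (l 15108888) (l 15349200))))) (a (c (a (b (l 16142400) (l 16231944)) (l 16041656)) (a (l 16042032) (l 15976512))) (c (l 15782744) (l 15572064)))) (a (b (c (a (b (a (l 16083504) (l 16239408)) (a (l 6) (l 16007824))) (b (l 16361096) (l 16122248))) (a (l 15832600) (l 16134248))) (a (a (l 6) (c (b (l 15783088) (l 15467640)) (l 15519880))) (c (b (l 15780536) (l 15531096)) (l 15788152)))) (b (c (l 15948264) (l 15960440)) (a (b (l 16089928) (c (l 15978608) (l 15986408))) (l 16126648))))) (b (a (c (b (a (l 15211056) (l 15206152)) (a (l 15609632) (l 15555776))) (b (a (l 15149472) (l 15165344)) (a (l 15580168) (l 15524128)))) (c (b (l 15185184) (c (l 15559504) (l 15543584))) (b (l 15165344) (l 15498736)))) (a (b (c (l 15940856) (l 15816072)) (c (l 16288592) (l 16280384))) (c (b (a (l 15842616) (l 15839056)) (l 16130320)) (b (a (l 15818416) (l 15814688)) (a (l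 16129944) (l 16089960))))))), by decide +kernel⟩

def k3_pm_022 : ∃ t, chk3 f_pm_022 t 3 3 1 = true :=
  ⟨(b (a (b (b (a (b (c (a (l 15288952) (a (l 15438568) (l 15561928))) (a (c (l 15215592) (l 15235096)) (l 15514560))) (a (l 6) (a (c (l 15214408) (l 15210600)) (c (l 15330376) (l 15323520))))) (c (a (c (l 15403808) (l 15578792)) (l 15732944)) (a (l 15636968) (l 15914464)))) (a (a (l 6) (c (c (l 14968384) (l 14956576)) (c (l 278128477735) (b (l 15041656) (l 14811728))))) (c (a (c (b (l 15295712) (l 15069392)) (b (l 15306040) (l 15067568))) (c (l 15364464) (l 15473000))) (a (c (l 15045952) (l 15183560)) (l 15441992))))) (b (a (c (l 256115915815) (l 309802889063)) (c (a (b (l 14857288) (l 14712928)) (b (l 14968168) (l 14940856))) (a (b (l 14582928) (l 14673032)) (b (l 15105984) (l 14933248))))) (a (l 1) (c (a (l 14571696) (l 14772616)) (c (l 276517310567) (l 297455240823)))))) (b (a (b (c (l 16183584) (l 16261584)) (c (a (l 15647928) (l 16061760)) (l 15697624))) (b (c (l 16418896)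 (l 16411936)) (c (l 16434504) (l 16428544)))) (a (c (b (a (b (l 15406200) (l 15227696)) (l 15604048)) (a (c (l 15014824) (l 15013816)) (l 15099768))) (b (a (l 15292568) (l 15605552)) (a (l 15010656) (l 15276544)))) (c (b (l 16002824) (l 15669752)) (b (l 16069032) (l 15747992)))))) (a (a (l 1) (b (c (l 448852333463) (l 423082405015)) (l 1))) (b (a (c (b (a (l 14772616) (l 14912568)) (l 14678560)) (b (a (l 14742600) (l 15010656)) (l 310340167639))) (c (b (a (l 15309480) (l 15590480)) (a (l 15017424) (l 15309480))) (b (l 15475928) (l 15093376)))) (a (c (l 14377176) (l 14209976)) (c (b (l 14678976) (l 14678560)) (b (l 14681808) (l 14537048))))))), by decide +kernel⟩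

theorem s4_pm_022 : ∃ t, chk3 f_pm_022 t 3 2 1 = true := ex3_b k1_pm_022 k2_pm_022

theorem s5_pm_022 : ∃ t, chk3 f_pm_022 t 3 1 1 = true := ex3_b s4_pm_022 k3_pm_022

theorem s6_pm_022 : ∃ t, chk3 f_pm_022 t 1 1 1 = true := ex3_a k0_pm_022 s5_pm_022

theorem c_pm_022 : CertFX 0 536870912 1073741824 536870912 1046898278 26843546 true true false .pp 0 2 2
    ndF0q0 ndF7q2 pcF2 cut_pm_022 Ext.none :=
  certFX2 (fam := true) (s1 := true) (s2 := false) (a := 0) (b := 2) (c := 2) (cn := .pp) (n1 := ndF0q0) (n2 := ndF7q2) (pc := pcF2) (cut := cut_pm_022) (xt := Ext.none) (P1 := 0) (W1 := 536870912) (P2 := 1073741824) (W2 := 536870912) (P3 := 1046898278) (W3 := 26843546)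
    rfl (fun _ => rfl) s6_pm_022

noncomputable def cut_pm_023 : Cut := Cut.of [[⟨3, 0, 0, 1449551462⟩]]

noncomputable def f_pm_023 : ℕ → ℕ → ℕ → ℕ → Bool := onCell 0 536870912 1073741824 536870912 1046898278 26843546
    (rowFX 0 true true false .up 0 2 3 (qsf 0 536870912 1073741824 536870912 3) ndF0q0 ndF7q2 pcF3 cut_pm_023 Ext.none)

def k0_pm_023 : ∃ t, chk3 f_pm_023 t 1 2 1 = true :=
  ⟨(a (b (l 1) (a (l 1) (b (l 1) (a (l 1) (c (l 15810176) (l 15749472)))))) (a (a (b (l 1) (a (b (l 1) (c (l 15974584) (l 15953736))) (b (c (l 15382184) (l 15262064)) (c (l 15974584) (l 15953736))))) (b (b (l 1) (b (l 1) (c (l 14837472) (l 14787088)))) (b (c (b (l 15206152) (l 15551544)) (b (l 15165344) (l 15519712))) (c (a (l 15974584) (l 15974584)) (b (l 15814688) (l 16086912)))))) (b (b (a (a (l 1) (c (l 13926728) (b (l 1) (l 14157040)))) (c (b (l 13869312) (l 14172216)) (b (c (l 13835584) (l 13827688)) (l 14157040)))) (c (a (b (a (l 14506136) (l 14506136)) (l 14837472)) (b (l 14506136) (l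 14837472))) (a (a (l 14632392) (b (l 14472520) (l 14787088))) (b (l 14472520) (l 14787088))))) (b (a (c (a (l 15382184) (b (l 15206152) (l 15551544))) (a (l 15115264) (b (l 15165344) (l 15519712)))) (c (l 15382184) (b (l 15165344) (l 15519712)))) (a (c (b (l 15839056) (l 16104392)) (a (l 15932768) (l 15932768))) (c (l 15974584) (l 15806936))))))), by decide +kernel⟩

def k1_pm_023 : ∃ t, chk3 f_pm_023 t 1 3 1 = true :=
  ⟨(a (b (a (a (l 1) (b (l 1) (c (l 401610248519) (l 15493456)))) (b (a (c (l 16274424) (l 16310448)) (c (l 16370592) (l 16280544))) (a (c (l 16215920) (l 16201480)) (c (l 16674248) (l 16671720))))) (a (a (c (b (l 504151317991) (l 14870672)) (b (l 463885984759) (l 15010056))) (b (c (l 15480416) (l 15591368)) (c (l 15648192) (l 15591368)))) (a (b (c (l 16211104) (l 16196400)) (l 16203752)) (b (c (l 16671272) (l 16668520)) (l 16669896))))) (b (a (b (c (a (b (l 16351296) (l 16579752)) (b (l 16351296) (l 16579752))) (a (b (l 16340232) (l 16574624)) (b (l 16340232) (l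 16574624)))) (c (a (l 16767656) (l 16767656)) (a (l 16746432) (l 16767408)))) (b (a (c (l 16321584) (b (l 16340232) (l 16574624))) (c (l 16426432) (l 16334528))) (a (c (l 16767648) (l 16767400)) (c (l 16767616) (l 16767360))))) (a (a (b (l 16777216) (l 16777208)) (b (a (l 16777216) (l 16777208)) (l 16777176))) (a (b (c (l 16777176) (l 16777168)) (a (b (l 16777152) (l 16773944)) (b (l 16774328) (l 16757944)))) (b (a (b (l 16777152) (l 16774688)) (b (l 16775040) (a (l 16770608) (c (l 16764384) (l 16764064))))) (b (a (l 16760664) (a (b (l 16755408) (l 16752976)) (b (c (l 16755992) (l 16754488)) (a (l 16757480) (l 16761128))))) (a (b (l 16751584) (a (l 16745256) (a (l 16751552) (l 16756400)))) (b (a (a (l 16755072) (l 16757112)) (c (b (l 16752136) (l 16733384)) (a (l 16746376) (l 16727216)))) (a (c (a (l 16750168) (l 16733384)) (a (l 16742200) (l 16727216))) (b (a (l 16724104) (c (l 16710280) (l 16706760))) (a (c (l 16710280) (l 16706760)) (l 4)))))))))))), by decide +kernel⟩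

theorem s2_pm_023 : ∃ t, chk3 f_pm_023 t 1 1 1 = true := ex3_b k0_pm_023 k1_pm_023

theorem c_pm_023 : CertFX 0 536870912 1073741824 536870912 1046898278 26843546 true true false .up 0 2 3
    ndF0q0 ndF7q2 pcF3 cut_pm_023 Ext.none :=
  certFX0 (fam := true) (s1 := true) (s2 := false) (a := 0) (b := 2) (c := 3) (cn := .up) (n1 := ndF0q0) (n2 := ndF7q2) (pc := pcF3) (cut := cut_pm_023) (xt := Ext.none) (P1 := 0) (W1 := 536870912) (P2 := 1073741824) (W2 := 536870912) (P3 := 1046898278) (W3 := 26843546)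
    rfl s2_pm_023

noncomputable def cut_pm_033 : Cut := Cut.of [[⟨3, 0, 0, 1449551462⟩]]

noncomputable def f_pm_033 : ℕ → ℕ → ℕ → ℕ → Bool := onCell 1610612736 536870912 0 1230186008 1046898278 26843546
    (rowFX 2 true true false .pnn 0 3 3 (qsf 0 536870912 0 1230186008 3) ndF0q0 ndF7q3 pcF3 cut_pm_033 Ext.none)

def k0_pm_033 : ∃ t, chk3 f_pm_033 t 2 1 1 = true :=
  ⟨(b (l 1) (b (b (l 1) (a (l 1) (b (l 1) (c (l 550857689527) (a (l 1) (b (l 1) (l 14536584))))))) (b (a (l 1) (b (a (c (l 14420464) (l 350068050951)) (c (b (l 14745320) (l 14850744)) (b (a (l 14580464) (l 14818968)) (a (l 14767944) (l 15041152))))) (a (c (b (l 14666664) (l 14871416)) (b (l 238936312407) (l 276517717495))) (c (b (l 14975304) (l 15439936)) (b (l 14910240) (l 15425272)))))) (a (b (a (l 1) (c (b (l 14630824) (l 14856912)) (b (l 14487112) (l 327520422439)))) (a (b (c (l 14640472) (l 14434752)) (c (l 14895656) (l 299603217895))) (b (c (l 14982880) (l 14957912)) (c (l 15466760) (l 15468640))))) (b (a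 (b (c (l 14990976) (l 14902304)) (c (l 15404416) (l 15418456))) (c (b (l 15729032) (l 16013392)) (l 15624608))) (a (c (l 15669232) (l 15715384)) (b (l 16287880) (l 16545624)))))))), by decide +kernel⟩

def k1_pm_033 : ∃ t, chk3 f_pm_033 t 6 1 1 = true :=
  ⟨(b (l 1) (b (b (a (l 1) (b (a (l 1) (c (l 14683712) (b (l 14581896) (l 14693392)))) (c (a (l 14697800) (b (l 14847552) (l 14991112))) (a (b (l 14588448) (l 14675560)) (b (l 14827464) (l 14986408)))))) (a (b (c (l 591660543495) (a (l 14485720) (b (l 14625776) (l 14736368)))) (c (b (l 14677312) (l 162164545943)) (b (a (l 14699168) (l 14963240)) (a (l 14883936) (l 15153440))))) (b (c (a (b (l 14888640) (l 15059440)) (b (l 15168144) (l 15352048))) (a (b (l 14790072) (l 15054720)) (l 15031904))) (c (b (l 15438112) (l 15665520)) (b (l 15319344) (l 15612560)))))) (b (b (a (c (b (l 15061952) (l 15484168)) (b (l 15101408) (l 15474952))) (c (l 15992504) (l 15972120))) (a (b (l 15601952) (l 16024160)) (b (l 16321776) (l 16533096)))) (b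 (a (b (l 16278352) (l 16517296)) (b (l 16684136) (l 16763728))) (a (b (l 16685544) (l 16767824)) (c (l 16777176) (l 16777176))))))), by decide +kernel⟩

def k2_pm_033 : ∃ t, chk3 f_pm_033 t 7 2 1 = true :=
  ⟨(b (l 4) (a (b (a (l 1) (l 4)) (b (a (l 1) (a (a (l 1) (c (l 14710200) (l 197798789719))) (l 4))) (a (c (l 14697048) (c (l 14664736) (l 14395064))) (c (a (l 14769208) (c (l 14977816) (l 170419222503))) (a (c (l 14833944) (l 14826056)) (c (l 14977864) (l 14960528))))))) (a (a (b (l 4) (a (a (b (l 4) (c (l 288530883255) (l 15047040))) (l 4)) (l 4))) (l 4)) (l 4)))), by decide +kernel⟩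

def k3_pm_033 : ∃ t, chk3 f_pm_033 t 7 6 1 = true :=
  ⟨(b (b (a (a (c (a (l 14840568) (b (l 14889120) (l 15025480))) (a (b (l 14743888) (l 14876096)) (b (l 14875792) (l 14999880)))) (a (c (b (l 15022760) (l 15162560)) (l 15065936)) (c (l 15250408) (l 15212080)))) (a (a (c (b (l 70561838039) (l 15476952)) (a (l 15324304) (l 15406408))) (a (c (l 15524224) (l 15491176)) (l 4))) (l 4))) (a (a (c (b (l 15116144) (l 15284128)) (b (l 15101168) (l 15247168))) (a (c (l 15438224) (l 15381056)) (c (l 15577048) (l 15539880)))) (a (a (c (b (l 15657816) (l 15839016)) (l 15715536)) (c (a (l 15873456) (l 15943992)) (a (l 15846144) (l 15908120)))) (a (c (l 15795552) (l 516702626343)) (l 4))))) (a (a (b (c (b (l 15460176) (l 15679048)) (l 15397704)) (c (l 15994352) (l 15973784))) (b (c (l 15875040) (l 15845488)) (c (l 16236552) (l 16215168)))) (a (b (a (c (l 16093336) (l 16065872)) (c (b (l 16147392) (l 16309792)) (b (l 16118976) (l 16284248)))) (c (a (l 16421472) (l 16556552)) (l 16314432)))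 (a (c (b (l 16206240) (l 16639864)) (b (l 16230736) (l 16597024))) (a (b (c (l 16424424) (l 16386640)) (c (l 16681232) (l 16671336))) (b (l 4) (a (l 1388582441735) (b (l 4) (l 4))))))))), by decide +kernel⟩

def k4_pm_033 : ∃ t, chk3 f_pm_033 t 7 7 1 = true :=
  ⟨(b (c (a (b (a (l 16391160) (l 16589152)) (l 16723936)) (a (b (l 16715584) (l 16776776)) (a (l 16776856) (a (l 16776896) (a (l 16776928) (a (l 16777216) (a (l 16777216) (l 16777216)))))))) (a (b (a (l 16380992) (l 16580376)) (l 16533808)) (a (b (l 16703480) (l 16776664)) (a (l 16776952) (a (b (l 16746096) (l 16777216)) (a (l 16776928) (a (l 16777216) (a (l 16777216) (l 16861104))))))))) (a (b (a (l 16776632) (l 16749288)) (a (c (l 16775824) (l 16775776)) (c (l 16742392) (l 16741456)))) (a (b (c (l 16751608) (l 16742496)) (a (l 16736008) (c (l 16760104) (l 16752104)))) (a (c (b (l 16770192) (l 16741320)) (b (l 16747928) (l 16729032))) (a (c (b (l 16751064) (l 16727592)) (b (l 16746096) (l 16723224))) (b (a (l 16723984)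 (c (b (l 16749120) (l 16739024)) (l 2350656178343))) (a (l 1127663802519) (l 4)))))))), by decide +kernel⟩

theorem s5_pm_033 : ∃ t, chk3 f_pm_033 t 7 3 1 = true := ex3_b k3_pm_033 k4_pm_033

theorem s6_pm_033 : ∃ t, chk3 f_pm_033 t 7 1 1 = true := ex3_b k2_pm_033 s5_pm_033

theorem s7_pm_033 : ∃ t, chk3 f_pm_033 t 3 1 1 = true := ex3_a k1_pm_033 s6_pm_033

theorem s8_pm_033 : ∃ t, chk3 f_pm_033 t 1 1 1 = true := ex3_a k0_pm_033 s7_pm_033

theorem c_pm_033 : CertFX 0 536870912 0 1230186008 1046898278 26843546 true true false .pnn 0 3 3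
    ndF0q0 ndF7q3 pcF3 cut_pm_033 Ext.none :=
  certFX2 (fam := true) (s1 := true) (s2 := false) (a := 0) (b := 3) (c := 3) (cn := .pnn) (n1 := ndF0q0) (n2 := ndF7q3) (pc := pcF3) (cut := cut_pm_033) (xt := Ext.none) (P1 := 0) (W1 := 536870912) (P2 := 0) (W2 := 1230186008) (P3 := 1046898278) (W3 := 26843546)
    rfl (fun _ => rfl) s8_pm_033

noncomputable def cut_pm_101 : Cut := Cut.of [[⟨3, 0, 0, 1449551462⟩]]

noncomputable def f_pm_101 : ℕ → ℕ → ℕ → ℕ → Bool := onCell 536870912 536870912 0 536870912 1046898278 26843546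
    (rowFX 2 true true false .npn 1 0 1 (qsf 536870912 536870912 0 536870912 1) ndF0q1 ndF7q0 pcF1 cut_pm_101 Ext.none)

def k0_pm_101 : ∃ t, chk3 f_pm_101 t 2 1 1 = true :=
  ⟨(b (a (l 6) (b (b (b (a (l 6) (a (l 6) (l 16777216))) (l 6)) (l 6)) (l 6))) (l 6)), by decide +kernel⟩

def k1_pm_101 : ∃ t, chk3 f_pm_101 t 3 2 1 = true :=
  ⟨(a (b (b (a (c (a (l 16777200) (l 16769192)) (a (l 16777200) (l 16768984))) (c (a (l 16755000) (l 16763024)) (a (l 16754424) (a (l 16744096) (l 16776880))))) (a (a (a (l 6) (b (l 16777192) (l 6))) (c (l 16768720) (l 16768496))) (c (a (l 16753648) (l 16758632)) (a (l 16753032) (l 16716208))))) (b (a (a (l 6) (a (l 6) (b (l 16764216) (l 6)))) (c (a (l 16752416) (l 16758592)) (a (l 16751776) (a (l 16740152) (l 16775392))))) (a (l 6) (a (l 6) (c (l 16758552) (l 16653208)))))) (b (a (b (a (b (c (l 16600664) (l 16512672)) (l 16642608)) (b (c (l 16217112) (l 16037608)) (a (l 16571048) (l 16450424)))) (a (c (l 16677640) (l 16675048)) (c (l 16561456) (l 16556424))))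 (b (a (b (a (b (l 15846640) (l 16043336)) (c (l 15543608) (l 15491056))) (a (l 16300480) (b (c (l 16053376) (l 16037880)) (l 16202752)))) (b (c (a (b (l 15088984) (l 15449808)) (b (l 14806576) (l 15083528))) (a (b (l 15077160) (l 15448728)) (b (c (l 160083681543) (a (l 14878752) (l 14614816))) (a (l 15148680) (l 14960344))))) (a (b (c (l 15734640) (l 15719888)) (c (l 15978784) (l 15963848))) (c (l 15385792) (b (l 15192208) (l 15621632)))))) (a (b (c (l 16427816) (l 16359040)) (c (l 16459176) (l 16451848))) (b (a (c (l 16221080) (l 15958032)) (b (l 15656200) (a (l 16128168) (l 16044744)))) (a (l 16358160) (c (l 16312192) (b (l 16251624) (l 16370472)))))))) (a (c (b (l 16594552) (l 16573976)) (b (a (l 16660424) (l 16524288)) (a (l 16647152) (l 16495416)))) (b (a (c (l 16423064) (l 16413864)) (c (l 16342400) (b (l 16348056) (l 16312448)))) (c (l 16287960) (a (l 16369704) (l 16269800))))))), by decide +kernel⟩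

def k2_pm_101 : ∃ t, chk3 f_pm_101 t 3 3 1 = true :=
  ⟨(b (a (l 6) (a (a (b (c (l 16638560) (l 16634960)) (l 6)) (b (c (l 16476792) (l 16468992)) (c (l 16452952) (l 16444528)))) (b (c (l 16284304) (l 16208584)) (a (c (l 16304656) (l 16292384)) (l 16175856))))) (a (l 6) (a (l 6) (a (b (c (l 16270960) (l 16257808)) (l 6)) (c (b (l 16139504) (l 16098192)) (b (l 16122944) (l 16080552))))))), by decide +kernel⟩

theorem s3_pm_101 : ∃ t, chk3 f_pm_101 t 3 1 1 = true := ex3_b k1_pm_101 k2_pm_101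

theorem s4_pm_101 : ∃ t, chk3 f_pm_101 t 1 1 1 = true := ex3_a k0_pm_101 s3_pm_101

theorem c_pm_101 : CertFX 536870912 536870912 0 536870912 1046898278 26843546 true true false .npn 1 0 1
    ndF0q1 ndF7q0 pcF1 cut_pm_101 Ext.none :=
  certFX2 (fam := true) (s1 := true) (s2 := false) (a := 1) (b := 0) (c := 1) (cn := .npn) (n1 := ndF0q1) (n2 := ndF7q0) (pc := pcF1) (cut := cut_pm_101) (xt := Ext.none) (P1 := 536870912) (W1 := 536870912) (P2 := 0) (W2 := 536870912) (P3 := 1046898278) (W3 := 26843546)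
    rfl (fun _ => rfl) s4_pm_101

noncomputable def cut_pm_102 : Cut := Cut.of [[⟨3, 0, 0, 1449551462⟩]]

noncomputable def f_pm_102 : ℕ → ℕ → ℕ → ℕ → Bool := onCell 536870912 536870912 1073741824 536870912 1046898278 26843546
    (rowFX 1 true true false .npp 1 0 2 (qsf 536870912 536870912 0 536870912 2) ndF0q1 ndF7q0 pcF2 cut_pm_102 Ext.none)

def k0_pm_102 : ∃ t, chk3 f_pm_102 t 2 2 1 = true :=
  ⟨(b (a (b (a (c (b (l 16024808) (l 15756344)) (b (l 16005264) (l 15729824))) (c (l 15717808) (l 15735504))) (c (a (l 15335040) (l 15364672)) (a (l 15297576) (l 15327984)))) (b (a (c (l 15795904) (l 15770416)) (c (l 15744544) (l 15717720))) (a (b (l 15525856) (l 15238224)) (b (l 15551080) (l 15281376))))) (b (a (b (a (l 2) (b (l 14974992) (l 2))) (l 2)) (b (b (a (l 15023160) (l 15074704)) (a (l 15173328) (l 15221728))) (a (l 15738296) (l 15770784)))) (a (l 2) (b (c (l 16441592) (l 16432872)) (c (l 16776744) (l 16776736)))))), by decide +kernel⟩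

def k1_pm_102 : ∃ t, chk3 f_pm_102 t 3 4 1 = true :=
  ⟨(c (a (b (a (l 15688624) (a (l 15643152) (l 15620280))) (a (l 15466528) (b (l 15628208) (l 15400376)))) (a (b (a (b (l 15595776) (l 15644072)) (l 15203904)) (b (a (l 15667144) (l 15289648)) (l 15168952))) (b (a (c (l 14757936) (l 14729552)) (b (l 14091656) (c (l 14291368) (l 14283752)))) (a (b (l 14706360) (l 14762288)) (b (a (l 14490728) (l 14270944)) (l 14342072)))))) (a (b (a (b (l 15692656) (l 15632224)) (a (l 15613696) (b (l 15582184) (l 15606144)))) (a (b (l 15563104) (l 15309584)) (b (a (l 15585592) (l 15613264)) (l 15344352)))) (a (b (a (b (a (l 15646592) (l 15501472)) (l 15468656)) (b (l 15084592) (l 15223768))) (b (a (b (l 15674584) (l 15646816)) (l 15218064)) (a (l 15498464) (l 15125928)))) (b (a (b (c (l 14669696) (l 14607536)) (c (l 14748248) (l 14724536))) (b (c (a (l 14287440) (l 14034160)) (c (l 13984232) (l 14012400))) (c (l 14188680) (l 14121624)))) (a (b (b (l 14797856) (l 14792744)) (l 14695344)) (a (b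 (l 14451048) (l 14384728)) (b (b (l 14222832) (l 14239176)) (l 14190288)))))))), by decide +kernel⟩

def k2_pm_102 : ∃ t, chk3 f_pm_102 t 3 5 1 = true :=
  ⟨(a (b (b (b (a (l 15130520) (a (l 15175624) (l 15216528))) (a (l 15274104) (a (l 15316400) (l 15353504)))) (a (l 15805904) (a (l 15834248) (l 15853592)))) (b (a (l 16455072) (a (l 16464040) (l 16454752))) (a (l 16776768) (a (l 16771840) (l 16734240))))) (b (a (b (b (c (l 15230232) (l 15208432)) (c (l 15349488) (l 15327096))) (a (l 15871624) (l 15489648))) (b (a (b (c (l 14706928) (l 14637832)) (c (l 14841560) (l 14774856))) (b (c (l 14331184) (l 14282664)) (c (l 14479128) (l 14434024)))) (a (c (l 15216816) (l 15158480)) (c (l 14851832) (a (l 14890944) (l 14727512)))))) (a (b (a (l 16302064) (l 15986112)) (l 16149016)) (b (a (c (l 15646584) (l 15599488)) (c (l 15275088) (l 15168312))) (a (l 15821568) (c (l 15521624) (l 15506256))))))), by decide +kernel⟩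

def k3_pm_102 : ∃ t, chk3 f_pm_102 t 1 3 1 = true :=
  ⟨(b (a (a (l 2) (c (l 16777216) (l 16777216))) (a (a (b (l 16777216) (l 16777088)) (b (a (l 16769240) (l 16742488)) (l 16770120))) (a (b (a (l 16544096) (l 16278432)) (c (l 16476264) (l 16468400))) (b (a (c (l 15991920) (l 15955216)) (c (l 15685688) (l 15633568))) (a (c (l 16109080) (l 16076776)) (c (l 15852360) (l 15848328))))))) (a (l 2) (b (a (a (l 2) (l 16770752)) (a (l 16411872) (c (l 15775328) (l 15883552)))) (a (l 2) (a (l 16474784) (c (l 15943104) (l 15988408))))))), by decide +kernel⟩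

theorem s4_pm_102 : ∃ t, chk3 f_pm_102 t 3 2 1 = true := ex3_b k1_pm_102 k2_pm_102

theorem s5_pm_102 : ∃ t, chk3 f_pm_102 t 1 2 1 = true := ex3_a k0_pm_102 s4_pm_102

theorem s6_pm_102 : ∃ t, chk3 f_pm_102 t 1 1 1 = true := ex3_b s5_pm_102 k3_pm_102

theorem c_pm_102 : CertFX 536870912 536870912 0 536870912 1046898278 26843546 true true false .npp 1 0 2
    ndF0q1 ndF7q0 pcF2 cut_pm_102 Ext.none :=
  certFX1 (fam := true) (s1 := true) (s2 := false) (a := 1) (b := 0) (c := 2) (cn := .npp) (n1 := ndF0q1) (n2 := ndF7q0) (pc := pcF2) (cut := cut_pm_102) (xt := Ext.none) (P1 := 536870912) (W1 := 536870912) (P2 := 0) (W2 := 536870912) (P3 := 1046898278) (W3 := 26843546)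
    rfl (fun _ => rfl) s6_pm_102

noncomputable def cut_pm_112 : Cut := Cut.of [[⟨3, 0, 0, 1449551462⟩]]

noncomputable def f_pm_112 : ℕ → ℕ → ℕ → ℕ → Bool := onCell 536870912 536870912 1073741824 536870912 1046898278 26843546
    (rowFX 1 true true false .dn 1 1 2 (qsf 536870912 536870912 536870912 536870912 2) ndF0q1 ndF7q1 pcF2 cut_pm_112 Ext.none)

def k0_pm_112 : ∃ t, chk3 f_pm_112 t 1 1 1 = true :=
  ⟨(b (a (b (a (b (a (c (b (l 16024808) (l 15756344)) (b (l 16005264) (l 15729824))) (c (l 15717808) (l 15735504))) (c (a (l 15335040) (l 15364672)) (a (l 15297576) (l 15327984)))) (b (l 1) (a (b (l 1) (l 15238224)) (l 1)))) (b (a (b (b (c (l 14976248) (l 14929488)) (a (c (l 15115776) (l 15072920)) (l 15128056))) (a (a (l 15733464) (l 15695984)) (l 15707872))) (a (b (b (l 15023160) (l 15173328)) (l 15738296)) (b (l 1) (l 15770784)))) (a (b (a (a (l 16466896) (l 16461680)) (a (l 16425912) (l 16423488))) (a (a (l 16248496) (l 16456440)) (a (l 16644368) (l 16754528)))) (b (c (l 16441592)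 (l 16432872)) (c (l 16776744) (l 16776736)))))) (b (l 1) (a (b (l 1) (b (l 1) (a (l 16776768) (l 1)))) (l 1)))) (a (a (b (a (b (c (l 16031888) (l 15991560)) (c (l 15374120) (a (l 15345784) (l 15636080)))) (b (a (l 16353912) (l 16551256)) (c (l 16031888) (l 15970584)))) (a (b (c (a (l 14772568) (l 15105552)) (a (l 14703696) (l 15022480))) (c (a (b (l 14291776) (l 13998800)) (l 14291024)) (a (b (l 14251544) (l 13773616)) (l 14426344)))) (b (c (l 15520920) (l 15362464)) (c (a (l 14772568) (l 15105552)) (a (l 14703696) (l 15022480)))))) (b (a (b (l 16713224) (b (l 16551256) (l 16353912))) (b (l 16777216) (l 16713224))) (a (b (l 15875408) (a (l 15363904) (l 15650528))) (b (l 16453240) (l 16022208))))) (a (b (a (b (l 16777216) (l 16777088)) (b (l 481606410839) (l 16770120))) (a (b (l 16713224) (l 16400816)) (b (l 16770752) (l 16706992)))) (b (a (b (l 1) (l 512744532599)) (l 1)) (a (b (l 16411872) (l 16474784)) (b (c (l 15775328) (l 15883552)) (a (l 16079760) (l 457982105271)))))))),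 by decide +kernel⟩

theorem c_pm_112 : CertFX 536870912 536870912 536870912 536870912 1046898278 26843546 true true false .dn 1 1 2
    ndF0q1 ndF7q1 pcF2 cut_pm_112 Ext.none :=
  certFX1 (fam := true) (s1 := true) (s2 := false) (a := 1) (b := 1) (c := 2) (cn := .dn) (n1 := ndF0q1) (n2 := ndF7q1) (pc := pcF2) (cut := cut_pm_112) (xt := Ext.none) (P1 := 536870912) (W1 := 536870912) (P2 := 536870912) (W2 := 536870912) (P3 := 1046898278) (W3 := 26843546)
    rfl (fun _ => rfl) k0_pm_112

noncomputable def cut_pm_113 : Cut := Cut.of [[⟨3, 0, 0, 1449551462⟩]]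

noncomputable def f_pm_113 : ℕ → ℕ → ℕ → ℕ → Bool := onCell 1610612736 536870912 536870912 536870912 1046898278 26843546
    (rowFX 2 true true false .nn 1 1 3 (qsf 536870912 536870912 536870912 536870912 3) ndF0q1 ndF7q1 pcF3 cut_pm_113 Ext.none)

def k0_pm_113 : ∃ t, chk3 f_pm_113 t 1 2 1 = true :=
  ⟨(a (b (a (a (b (a (b (l 15578808) (l 15797240)) (b (l 4) (l 15725608))) (a (l 16356344) (c (l 16110800) (l 16118496)))) (b (l 4) (a (b (l 4) (l 15860152)) (l 4)))) (l 4)) (a (a (b (a (l 16578032) (l 16409136)) (a (l 16248360) (l 16244192))) (b (a (b (l 16154144) (l 16258672)) (b (l 4) (l 15984600))) (a (l 16184088) (b (l 16064624) (l 16044832))))) (a (b (l 4) (a (c (l 15858832) (l 15805768)) (l 4))) (l 4)))) (l 4)), by decide +kernel⟩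

def k1_pm_113 : ∃ t, chk3 f_pm_113 t 1 3 1 = true :=
  ⟨(b (a (a (a (b (c (l 15794880) (l 15769368)) (c (l 15232640) (l 15192520))) (b (a (l 15782128) (l 15736072)) (c (l 15232640) (l 15192520)))) (a (a (b (c (l 15735632) (l 15702944)) (l 15086752)) (b (c (l 15589072) (l 15537464)) (c (l 15228832) (l 15188240)))) (a (b (c (l 15425936) (l 15342808)) (c (l 15112600) (b (l 15262424) (l 15015920)))) (b (l 4) (a (b (l 4) (l 14998280)) (l 4)))))) (a (a (l 4) (l 4)) (l 4))) (a (b (a (a (c (l 14511856) (l 14539088)) (c (l 14532824) (l 14539088))) (a (c (b (l 14727536) (l 14430384)) (a (l 14539088) (l 14539088))) (c (a (l 14595736) (b (l 14722160) (l 14430384))) (a (l 14539088) (l 14325128))))) (a (c (c (l 13933080) (b (l 14124336) (l 13835560))) (b (a (l 14110352) (l 14110352)) (a (c (l 13819208) (l 13811240)) (c (l 13819208) (l 13811240))))) (a (c (b (l 14124568) (l 13853368)) (b (a (l 14110352) (l 14110352)) (c (l 13819208) (l 13811240)))) (c (c (l 13996000) (l 13757720)) (b (c (l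 14127256) (l 14099728)) (c (l 13819208) (l 13811240))))))) (a (a (b (a (a (c (l 14464992) (l 14508712)) (l 4)) (l 4)) (b (a (c (l 14124568) (l 14110352)) (l 4)) (c (a (l 13853368) (l 13853368)) (a (l 13819696) (c (l 13819208) (l 13811240)))))) (l 4)) (l 4)))), by decide +kernel⟩

theorem s2_pm_113 : ∃ t, chk3 f_pm_113 t 1 1 1 = true := ex3_b k0_pm_113 k1_pm_113

theorem c_pm_113 : CertFX 536870912 536870912 536870912 536870912 1046898278 26843546 true true false .nn 1 1 3
    ndF0q1 ndF7q1 pcF3 cut_pm_113 Ext.none :=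
  certFX2 (fam := true) (s1 := true) (s2 := false) (a := 1) (b := 1) (c := 3) (cn := .nn) (n1 := ndF0q1) (n2 := ndF7q1) (pc := pcF3) (cut := cut_pm_113) (xt := Ext.none) (P1 := 536870912) (W1 := 536870912) (P2 := 536870912) (W2 := 536870912) (P3 := 1046898278) (W3 := 26843546)
    rfl (fun _ => rfl) s2_pm_113

noncomputable def cut_pm_123 : Cut := Cut.of [[⟨3, 0, 0, 1449551462⟩]]

noncomputable def f_pm_123 : ℕ → ℕ → ℕ → ℕ → Bool := onCell 1610612736 536870912 1073741824 536870912 1046898278 26843546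
    (rowFX 2 true true false .npn 1 2 3 (qsf 536870912 536870912 1073741824 536870912 3) ndF0q1 ndF7q2 pcF3 cut_pm_123 Ext.none)

def k0_pm_123 : ∃ t, chk3 f_pm_123 t 2 2 1 = true :=
  ⟨(a (a (b (b (c (b (l 13869312) (l 14172216)) (b (c (l 13835584) (l 13827688)) (l 14031208))) (a (l 1) (a (l 1) (c (l 14523816) (l 14632392))))) (l 1)) (b (b (c (b (l 13869312) (l 14172216)) (b (c (l 13835584) (l 13827688)) (c (l 14174088) (l 14146584)))) (c (b (l 14506136) (l 14837472)) (b (l 14472520) (l 14787088)))) (a (l 1) (b (c (l 15214416) (b (l 15165344) (l 1))) (l 1))))) (a (b (b (c (b (l 13869312) (l 14172216)) (b (c (l 13835584) (l 13827688)) (c (l 14174088) (l 14146584)))) (c (b (l 14506136) (l 14837472)) (b (l 14472520) (l 14787088)))) (b (c (l 195451273031) (b (l 15165344) (l 15519712))) (b (c (l 15839056) (l 259339965303)) (l 1)))) (b (b (c (c (l 14028784) (b (l 13851648) (l 14172096))) (a (b (l 13836088) (l 14157040)) (b (l 13836088) (l 14157040)))) (c (b (a (l 14506136) (l 14506136))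 (l 14837472)) (a (l 14632392) (l 14422680)))) (b (c (l 15277328) (b (l 15165344) (l 15519712))) (c (l 15974584) (b (l 15814688) (l 16086912))))))), by decide +kernel⟩

def k1_pm_123 : ∃ t, chk3 f_pm_123 t 3 2 1 = true :=
  ⟨(a (b (b (b (a (c (a (l 13869312) (l 13869312)) (a (l 13836088) (c (l 13835584) (l 13827688)))) (l 4)) (a (c (a (l 14172216) (l 14172208)) (a (l 14157040) (l 14157032))) (a (a (c (l 14172216) (l 14157040)) (l 4)) (l 4)))) (a (a (c (b (l 14506136) (l 14837472)) (b (l 14472520) (l 14787088))) (c (b (l 14506128) (l 14837464)) (b (l 14472512) (l 14787080)))) (c (a (c (l 14584912) (l 14686080)) (b (l 4) (l 158607459207))) (a (a (l 14632384) (l 14632392)) (a (l 14632392) (l 4)))))) (a (b (c (a (l 15382184) (l 15256344)) (a (b (l 15165344) (l 15519712)) (b (l 15165328) (l 15519688)))) (c (b (l 15839040) (l 16104376)) (c (l 15916992) (l 15696856)))) (c (a (b (l 15382160) (b (l 15839016) (l 16104344))) (b (a (l 15382168) (l 15382184)) (l 15974560))) (a (b (c (l 15354984)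 (l 15336864)) (b (l 15814640) (l 16086864))) (b (a (l 15345936) (l 15262064)) (l 15890792)))))) (a (b (l 4) (a (a (b (c (l 193505115975) (l 141965435959)) (c (l 15974584) (l 15953736))) (b (l 4) (c (b (l 15839048) (l 16104328)) (c (l 15958896) (l 15948472))))) (b (l 4) (l 4)))) (l 4))), by decide +kernel⟩

def k2_pm_123 : ∃ t, chk3 f_pm_123 t 1 3 1 = true :=
  ⟨(a (b (a (l 1) (b (a (l 1) (c (l 16279640) (b (l 16340232) (l 1)))) (l 1))) (l 1)) (b (a (a (b (c (l 16426432) (b (l 16340216) (l 16574616))) (c (l 16767640) (b (l 16757360) (l 1)))) (c (b (a (l 16468336) (b (l 16351248) (l 16579704))) (a (l 16767600) (l 16767600))) (b (a (b (l 16340176) (l 16574568)) (b (l 16340176) (l 16574568))) (a (l 16767344) (l 16767344))))) (a (a (b (c (b (l 16351112) (l 16579456)) (b (l 16340024) (l 16574288))) (c (b (l 16757704) (l 16776840)) (b (l 16673296) (l 16776832)))) (b (a (c (l 16341272) (l 188675431063)) (a (c (l 16447144) (l 16376144)) (l 4))) (c (a (l 16761616) (b (l 16755216) (l 16769128)))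 (a (l 16760960) (b (l 16754344) (l 16768920)))))) (a (a (b (l 4) (c (c (l 412014577799) (l 424362639383)) (c (l 439931894951) (l 457648634151)))) (l 4)) (l 4)))) (b (a (a (l 1) (c (l 16777152) (l 16777152))) (a (a (b (l 16777128) (l 16776304)) (a (c (l 16765120) (l 16764808)) (c (l 16758992) (l 16758528)))) (a (c (a (l 16766408) (c (l 16764464) (l 16760264))) (a (b (l 16770640) (l 16763520)) (c (l 16758680) (l 16758456)))) (l 4)))) (a (l 1) (a (a (l 1) (b (l 16757544) (l 1))) (a (c (a (l 16757776) (l 16760104)) (a (l 16755664) (l 16752104))) (a (c (l 16726232) (l 16719400)) (l 4)))))))), by decide +kernel⟩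

theorem s3_pm_123 : ∃ t, chk3 f_pm_123 t 1 2 1 = true := ex3_a k0_pm_123 k1_pm_123

theorem s4_pm_123 : ∃ t, chk3 f_pm_123 t 1 1 1 = true := ex3_b s3_pm_123 k2_pm_123

theorem c_pm_123 : CertFX 536870912 536870912 1073741824 536870912 1046898278 26843546 true true false .npn 1 2 3
    ndF0q1 ndF7q2 pcF3 cut_pm_123 Ext.none :=
  certFX2 (fam := true) (s1 := true) (s2 := false) (a := 1) (b := 2) (c := 3) (cn := .npn) (n1 := ndF0q1) (n2 := ndF7q2) (pc := pcF3) (cut := cut_pm_123) (xt := Ext.none) (P1 := 536870912) (W1 := 536870912) (P2 := 1073741824) (W2 := 536870912) (P3 := 1046898278) (W3 := 26843546)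
    rfl (fun _ => rfl) s4_pm_123

noncomputable def cut_pm_133 : Cut := Cut.of [[⟨3, 0, 0, 1449551462⟩]]

noncomputable def f_pm_133 : ℕ → ℕ → ℕ → ℕ → Bool := onCell 536870912 536870912 0 1230186008 1046898278 26843546
    (rowFX 0 true true false .dn 1 3 3 (qsf 536870912 536870912 0 1230186008 3) ndF0q1 ndF7q3 pcF3 cut_pm_133 Ext.none)

def k0_pm_133 : ∃ t, chk3 f_pm_133 t 1 1 1 = true :=
  ⟨(b (l 2) (b (l 2) (a (b (l 2) (l 4)) (l 2)))), by decide +kernel⟩

theorem c_pm_133 : CertFX 536870912 536870912 0 1230186008 1046898278 26843546 true true false .dn 1 3 3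
    ndF0q1 ndF7q3 pcF3 cut_pm_133 Ext.none :=
  certFX0 (fam := true) (s1 := true) (s2 := false) (a := 1) (b := 3) (c := 3) (cn := .dn) (n1 := ndF0q1) (n2 := ndF7q3) (pc := pcF3) (cut := cut_pm_133) (xt := Ext.none) (P1 := 536870912) (W1 := 536870912) (P2 := 0) (W2 := 1230186008) (P3 := 1046898278) (W3 := 26843546)
    rfl k0_pm_133

noncomputable def cut_pm_202 : Cut := Cut.of [[⟨3, 0, 0, 1449551462⟩]]

noncomputable def f_pm_202 : ℕ → ℕ → ℕ → ℕ → Bool := onCell 0 536870912 1073741824 536870912 1046898278 26843546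
    (rowFX 1 true true false .pp 2 0 2 (qsf 0 536870912 0 536870912 2) ndF0q2 ndF7q0 pcF2 cut_pm_202 Ext.none)

def k0_pm_202 : ∃ t, chk3 f_pm_202 t 1 4 1 = true :=
  ⟨(a (b (l 1) (l 4)) (a (b (l 1) (b (a (l 1) (a (b (l 1) (c (l 14675464) (l 14636248))) (c (b (l 14529648) (l 14623824)) (b (l 14495976) (l 14581520))))) (a (a (l 4) (c (l 14852040) (b (l 14718856) (l 14883728)))) (c (a (l 14847032) (l 14758776)) (a (l 14796904) (l 14706288)))))) (b (b (a (l 1) (b (a (l 1) (c (l 13951160) (c (l 13910840) (a (l 13897800) (c (l 13874176) (l 13865416)))))) (c (a (l 14057824) (l 13994392)) (a (c (l 14023240) (a (l 14014808) (l 13987536))) (c (a (l 13981904) (l 13945416)) (a (l 13959608) (l 13929064))))))) (b (a (a (l 1) (a (l 1) (c (l 14188760) (l 14156200)))) (c (a (l 14126096) (l 14052936)) (a (c (l 14101672) (l 14074064)) (c (l 14035312) (l 14013760))))) (a (c (a (l 14372176) (l 14298536)) (a (l 14347112) (l 14266608))) (c (a (l 14202112) (l 14119928)) (a (l 14162888) (c (l 14103720)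 (l 14077344))))))) (a (b (c (b (a (l 14475784) (l 14391520)) (a (l 14554536) (l 14455360))) (b (a (l 14437728) (l 14348512)) (a (l 14508904) (l 14405480)))) (c (l 14356752) (a (l 14597856) (l 14458592)))) (b (c (a (b (l 14285104) (l 14334232)) (b (l 14193128) (l 14227520))) (a (b (l 14236280) (l 14279080)) (b (l 14031664) (c (l 14196976) (l 14171160))))) (c (a (l 14360808) (l 14217888)) (a (l 14296256) (c (l 14178456) (l 14151824))))))))), by decide +kernel⟩

def k1_pm_202 : ∃ t, chk3 f_pm_202 t 1 5 1 = true :=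
  ⟨(a (l 4) (b (a (b (a (b (c (l 15114072) (l 15070872)) (c (l 15296896) (l 15258448))) (b (c (l 15011552) (a (l 15029128) (l 14899240))) (c (l 15187864) (l 15146432)))) (a (l 4) (c (l 15454448) (a (l 15476560) (l 15359040))))) (a (b (b (c (l 14718272) (a (l 14751472) (l 14572736))) (c (l 14886432) (l 14836176))) (c (l 15192824) (a (l 15228840) (l 15067736)))) (b (b (c (l 14161208) (a (l 14370760) (l 14201768))) (c (l 14509776) (a (l 14536536) (l 14363120)))) (c (a (l 14934552) (l 14769528)) (a (l 14883400) (l 14689992)))))) (a (a (l 4) (b (c (l 15699880) (a (l 15766744) (l 15653664))) (c (l 15974752) (a (l 4) (l 15906528))))) (a (b (c (l 15522408) (a (l 15551408) (l 15420616))) (c (l 15761424) (l 15691048))) (b (c (l 15016008) (a (l 15266664) (l 15145672))) (c (l 15494648) (a (l 15519152) (l 15403128)))))))), by decide +kernel⟩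

def k2_pm_202 : ∃ t, chk3 f_pm_202 t 1 3 1 = true :=
  ⟨(a (l 4) (b (a (b (a (l 4) (b (c (l 16237488) (l 16180736)) (l 4))) (l 4)) (b (a (c (b (l 15957344) (l 16159888)) (b (l 15934104) (l 16142560))) (c (a (l 15797776) (l 15632792)) (a (l 15770312) (l 15620480)))) (a (a (l 4) (c (l 16244040) (l 16230096))) (c (a (l 16036872) (l 15842656)) (b (l 15935384) (l 15952016)))))) (a (l 4) (a (l 4) (b (c (l 15954576) (l 15952016)) (c (l 15954576) (l 15952016))))))), by decide +kernel⟩

theorem s3_pm_202 : ∃ t, chk3 f_pm_202 t 1 2 1 = true := ex3_b k0_pm_202 k1_pm_202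

theorem s4_pm_202 : ∃ t, chk3 f_pm_202 t 1 1 1 = true := ex3_b s3_pm_202 k2_pm_202

theorem c_pm_202 : CertFX 0 536870912 0 536870912 1046898278 26843546 true true false .pp 2 0 2
    ndF0q2 ndF7q0 pcF2 cut_pm_202 Ext.none :=
  certFX1 (fam := true) (s1 := true) (s2 := false) (a := 2) (b := 0) (c := 2) (cn := .pp) (n1 := ndF0q2) (n2 := ndF7q0) (pc := pcF2) (cut := cut_pm_202) (xt := Ext.none) (P1 := 0) (W1 := 536870912) (P2 := 0) (W2 := 536870912) (P3 := 1046898278) (W3 := 26843546)
    rfl (fun _ => rfl) s4_pm_202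

noncomputable def cut_pm_203 : Cut := Cut.of [[⟨3, 0, 0, 1449551462⟩]]

noncomputable def f_pm_203 : ℕ → ℕ → ℕ → ℕ → Bool := onCell 0 536870912 1610612736 536870912 1046898278 26843546
    (rowFX 1 true true false .up 2 0 3 (qsf 0 536870912 0 536870912 3) ndF0q2 ndF7q0 pcF3 cut_pm_203 Ext.none)

def k0_pm_203 : ∃ t, chk3 f_pm_203 t 1 1 1 = true :=
  ⟨(b (a (l 4) (l 4)) (l 2)), by decide +kernel⟩

theorem c_pm_203 : CertFX 0 536870912 0 536870912 1046898278 26843546 true true false .up 2 0 3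
    ndF0q2 ndF7q0 pcF3 cut_pm_203 Ext.none :=
  certFX1 (fam := true) (s1 := true) (s2 := false) (a := 2) (b := 0) (c := 3) (cn := .up) (n1 := ndF0q2) (n2 := ndF7q0) (pc := pcF3) (cut := cut_pm_203) (xt := Ext.none) (P1 := 0) (W1 := 536870912) (P2 := 0) (W2 := 536870912) (P3 := 1046898278) (W3 := 26843546)
    rfl (fun _ => rfl) k0_pm_203

noncomputable def cut_pm_213 : Cut := Cut.of [[⟨3, 0, 0, 1449551462⟩]]

noncomputable def f_pm_213 : ℕ → ℕ → ℕ → ℕ → Bool := onCell 0 536870912 536870912 536870912 1046898278 26843546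
    (rowFX 0 true true false .pnn 2 1 3 (qsf 0 536870912 536870912 536870912 3) ndF0q2 ndF7q1 pcF3 cut_pm_213 Ext.none)

def k0_pm_213 : ∃ t, chk3 f_pm_213 t 1 1 1 = true :=
  ⟨(a (l 4) (b (l 4) (l 4))), by decide +kernel⟩

theorem c_pm_213 : CertFX 0 536870912 536870912 536870912 1046898278 26843546 true true false .pnn 2 1 3
    ndF0q2 ndF7q1 pcF3 cut_pm_213 Ext.none :=
  certFX0 (fam := true) (s1 := true) (s2 := false) (a := 2) (b := 1) (c := 3) (cn := .pnn) (n1 := ndF0q2) (n2 := ndF7q1) (pc := pcF3) (cut := cut_pm_213) (xt := Ext.none) (P1 := 0) (W1 := 536870912) (P2 := 536870912) (W2 := 536870912) (P3 := 1046898278) (W3 := 26843546)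
    rfl k0_pm_213

noncomputable def cut_mm_001 : Cut := Cut.of [[⟨3, 0, 0, 1449551462⟩]]

noncomputable def f_mm_001 : ℕ → ℕ → ℕ → ℕ → Bool := onCell 0 536870912 0 536870912 1046898278 26843546
    (rowFX 0 true false false .up 0 0 1 (qsf 0 536870912 0 536870912 1) ndF0q0 ndF7q0 pcF1 cut_mm_001 Ext.none)

def k0_mm_001 : ∃ t, chk3 f_mm_001 t 1 1 1 = true :=
  ⟨(l 4), by decide +kernel⟩

theorem c_mm_001 : CertFX 0 536870912 0 536870912 1046898278 26843546 true false false .up 0 0 1
    ndF0q0 ndF7q0 pcF1 cut_mm_001 Ext.none :=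
  certFX0 (fam := true) (s1 := false) (s2 := false) (a := 0) (b := 0) (c := 1) (cn := .up) (n1 := ndF0q0) (n2 := ndF7q0) (pc := pcF1) (cut := cut_mm_001) (xt := Ext.none) (P1 := 0) (W1 := 536870912) (P2 := 0) (W2 := 536870912) (P3 := 1046898278) (W3 := 26843546)
    rfl k0_mm_001

noncomputable def cut_mm_011 : Cut := Cut.of [[⟨3, 0, 0, 1449551462⟩]]

noncomputable def f_mm_011 : ℕ → ℕ → ℕ → ℕ → Bool := onCell 0 536870912 536870912 536870912 1046898278 26843546
    (rowFX 0 true false false .pnn 0 1 1 (qsf 0 536870912 536870912 536870912 1) ndF0q0 ndF7q1 pcF1 cut_mm_011 Ext.none)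

def k0_mm_011 : ∃ t, chk3 f_mm_011 t 1 1 1 = true :=
  ⟨(l 4), by decide +kernel⟩

theorem c_mm_011 : CertFX 0 536870912 536870912 536870912 1046898278 26843546 true false false .pnn 0 1 1
    ndF0q0 ndF7q1 pcF1 cut_mm_011 Ext.none :=
  certFX0 (fam := true) (s1 := false) (s2 := false) (a := 0) (b := 1) (c := 1) (cn := .pnn) (n1 := ndF0q0) (n2 := ndF7q1) (pc := pcF1) (cut := cut_mm_011) (xt := Ext.none) (P1 := 0) (W1 := 536870912) (P2 := 536870912) (W2 := 536870912) (P3 := 1046898278) (W3 := 26843546)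
    rfl k0_mm_011

noncomputable def cut_mm_012 : Cut := Cut.of [[⟨3, 0, 0, 1449551462⟩]]

noncomputable def f_mm_012 : ℕ → ℕ → ℕ → ℕ → Bool := onCell 0 536870912 536870912 536870912 1046898278 26843546
    (rowFX 0 true false false .pnp 0 1 2 (qsf 0 536870912 536870912 536870912 2) ndF0q0 ndF7q1 pcF2 cut_mm_012 Ext.none)

def k0_mm_012 : ∃ t, chk3 f_mm_012 t 1 1 1 = true :=
  ⟨(l 4), by decide +kernel⟩

theorem c_mm_012 : CertFX 0 536870912 536870912 536870912 1046898278 26843546 true false false .pnp 0 1 2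
    ndF0q0 ndF7q1 pcF2 cut_mm_012 Ext.none :=
  certFX0 (fam := true) (s1 := false) (s2 := false) (a := 0) (b := 1) (c := 2) (cn := .pnp) (n1 := ndF0q0) (n2 := ndF7q1) (pc := pcF2) (cut := cut_mm_012) (xt := Ext.none) (P1 := 0) (W1 := 536870912) (P2 := 536870912) (W2 := 536870912) (P3 := 1046898278) (W3 := 26843546)
    rfl k0_mm_012

noncomputable def cut_mm_022 : Cut := Cut.of [[⟨3, 0, 0, 1449551462⟩]]

noncomputable def f_mm_022 : ℕ → ℕ → ℕ → ℕ → Bool := onCell 0 536870912 1073741824 536870912 1046898278 26843546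
    (rowFX 0 true false false .pp 0 2 2 (qsf 0 536870912 1073741824 536870912 2) ndF0q0 ndF7q2 pcF2 cut_mm_022 Ext.none)

def k0_mm_022 : ∃ t, chk3 f_mm_022 t 1 1 1 = true :=
  ⟨(l 4), by decide +kernel⟩

theorem c_mm_022 : CertFX 0 536870912 1073741824 536870912 1046898278 26843546 true false false .pp 0 2 2
    ndF0q0 ndF7q2 pcF2 cut_mm_022 Ext.none :=
  certFX0 (fam := true) (s1 := false) (s2 := false) (a := 0) (b := 2) (c := 2) (cn := .pp) (n1 := ndF0q0) (n2 := ndF7q2) (pc := pcF2) (cut := cut_mm_022) (xt := Ext.none) (P1 := 0) (W1 := 536870912) (P2 := 1073741824) (W2 := 536870912) (P3 := 1046898278) (W3 := 26843546)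
    rfl k0_mm_022

noncomputable def cut_mm_023 : Cut := Cut.of [[⟨3, 0, 0, 1449551462⟩]]

noncomputable def f_mm_023 : ℕ → ℕ → ℕ → ℕ → Bool := onCell 0 536870912 1073741824 536870912 1046898278 26843546
    (rowFX 0 true false false .up 0 2 3 (qsf 0 536870912 1073741824 536870912 3) ndF0q0 ndF7q2 pcF3 cut_mm_023 Ext.none)

def k0_mm_023 : ∃ t, chk3 f_mm_023 t 1 1 1 = true :=
  ⟨(l 4), by decide +kernel⟩

theorem c_mm_023 : CertFX 0 536870912 1073741824 536870912 1046898278 26843546 true false false .up 0 2 3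
    ndF0q0 ndF7q2 pcF3 cut_mm_023 Ext.none :=
  certFX0 (fam := true) (s1 := false) (s2 := false) (a := 0) (b := 2) (c := 3) (cn := .up) (n1 := ndF0q0) (n2 := ndF7q2) (pc := pcF3) (cut := cut_mm_023) (xt := Ext.none) (P1 := 0) (W1 := 536870912) (P2 := 1073741824) (W2 := 536870912) (P3 := 1046898278) (W3 := 26843546)
    rfl k0_mm_023

noncomputable def cut_mm_033 : Cut := Cut.of [[⟨3, 0, 0, 1449551462⟩]]

noncomputable def f_mm_033 : ℕ → ℕ → ℕ → ℕ → Bool := onCell 0 536870912 0 1230186008 1046898278 26843546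
    (rowFX 0 true false false .pnn 0 3 3 (qsf 0 536870912 0 1230186008 3) ndF0q0 ndF7q3 pcF3 cut_mm_033 Ext.none)

def k0_mm_033 : ∃ t, chk3 f_mm_033 t 1 1 1 = true :=
  ⟨(l 4), by decide +kernel⟩

theorem c_mm_033 : CertFX 0 536870912 0 1230186008 1046898278 26843546 true false false .pnn 0 3 3
    ndF0q0 ndF7q3 pcF3 cut_mm_033 Ext.none :=
  certFX0 (fam := true) (s1 := false) (s2 := false) (a := 0) (b := 3) (c := 3) (cn := .pnn) (n1 := ndF0q0) (n2 := ndF7q3) (pc := pcF3) (cut := cut_mm_033) (xt := Ext.none) (P1 := 0) (W1 := 536870912) (P2 := 0) (W2 := 1230186008) (P3 := 1046898278) (W3 := 26843546)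
    rfl k0_mm_033

noncomputable def cut_mm_101 : Cut := Cut.of [[⟨3, 0, 0, 1449551462⟩]]

noncomputable def f_mm_101 : ℕ → ℕ → ℕ → ℕ → Bool := onCell 536870912 536870912 0 536870912 1046898278 26843546
    (rowFX 0 true false false .npn 1 0 1 (qsf 536870912 536870912 0 536870912 1) ndF0q1 ndF7q0 pcF1 cut_mm_101 Ext.none)

def k0_mm_101 : ∃ t, chk3 f_mm_101 t 1 1 1 = true :=
  ⟨(l 4), by decide +kernel⟩

theorem c_mm_101 : CertFX 536870912 536870912 0 536870912 1046898278 26843546 true false false .npn 1 0 1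
    ndF0q1 ndF7q0 pcF1 cut_mm_101 Ext.none :=
  certFX0 (fam := true) (s1 := false) (s2 := false) (a := 1) (b := 0) (c := 1) (cn := .npn) (n1 := ndF0q1) (n2 := ndF7q0) (pc := pcF1) (cut := cut_mm_101) (xt := Ext.none) (P1 := 536870912) (W1 := 536870912) (P2 := 0) (W2 := 536870912) (P3 := 1046898278) (W3 := 26843546)
    rfl k0_mm_101

noncomputable def cut_mm_102 : Cut := Cut.of [[⟨3, 0, 0, 1449551462⟩]]

noncomputable def f_mm_102 : ℕ → ℕ → ℕ → ℕ → Bool := onCell 536870912 536870912 0 536870912 1046898278 26843546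
    (rowFX 0 true false false .npp 1 0 2 (qsf 536870912 536870912 0 536870912 2) ndF0q1 ndF7q0 pcF2 cut_mm_102 Ext.none)

def k0_mm_102 : ∃ t, chk3 f_mm_102 t 1 1 1 = true :=
  ⟨(l 4), by decide +kernel⟩

theorem c_mm_102 : CertFX 536870912 536870912 0 536870912 1046898278 26843546 true false false .npp 1 0 2
    ndF0q1 ndF7q0 pcF2 cut_mm_102 Ext.none :=
  certFX0 (fam := true) (s1 := false) (s2 := false) (a := 1) (b := 0) (c := 2) (cn := .npp) (n1 := ndF0q1) (n2 := ndF7q0) (pc := pcF2) (cut := cut_mm_102) (xt := Ext.none) (P1 := 536870912) (W1 := 536870912) (P2 := 0) (W2 := 536870912) (P3 := 1046898278) (W3 := 26843546)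
    rfl k0_mm_102

noncomputable def cut_mm_112 : Cut := Cut.of [[⟨3, 0, 0, 1449551462⟩]]

noncomputable def f_mm_112 : ℕ → ℕ → ℕ → ℕ → Bool := onCell 536870912 536870912 536870912 536870912 1046898278 26843546
    (rowFX 0 true false false .dn 1 1 2 (qsf 536870912 536870912 536870912 536870912 2) ndF0q1 ndF7q1 pcF2 cut_mm_112 Ext.none)

def k0_mm_112 : ∃ t, chk3 f_mm_112 t 1 1 1 = true :=
  ⟨(l 4), by decide +kernel⟩

theorem c_mm_112 : CertFX 536870912 536870912 536870912 536870912 1046898278 26843546 true false false .dn 1 1 2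
    ndF0q1 ndF7q1 pcF2 cut_mm_112 Ext.none :=
  certFX0 (fam := true) (s1 := false) (s2 := false) (a := 1) (b := 1) (c := 2) (cn := .dn) (n1 := ndF0q1) (n2 := ndF7q1) (pc := pcF2) (cut := cut_mm_112) (xt := Ext.none) (P1 := 536870912) (W1 := 536870912) (P2 := 536870912) (W2 := 536870912) (P3 := 1046898278) (W3 := 26843546)
    rfl k0_mm_112

noncomputable def cut_mm_113 : Cut := Cut.of [[⟨3, 0, 0, 1449551462⟩]]

noncomputable def f_mm_113 : ℕ → ℕ → ℕ → ℕ → Bool := onCell 536870912 536870912 536870912 536870912 1046898278 26843546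
    (rowFX 0 true false false .nn 1 1 3 (qsf 536870912 536870912 536870912 536870912 3) ndF0q1 ndF7q1 pcF3 cut_mm_113 Ext.none)

def k0_mm_113 : ∃ t, chk3 f_mm_113 t 1 1 1 = true :=
  ⟨(l 4), by decide +kernel⟩

theorem c_mm_113 : CertFX 536870912 536870912 536870912 536870912 1046898278 26843546 true false false .nn 1 1 3
    ndF0q1 ndF7q1 pcF3 cut_mm_113 Ext.none :=
  certFX0 (fam := true) (s1 := false) (s2 := false) (a := 1) (b := 1) (c := 3) (cn := .nn) (n1 := ndF0q1) (n2 := ndF7q1) (pc := pcF3) (cut := cut_mm_113) (xt := Ext.none) (P1 := 536870912) (W1 := 536870912) (P2 := 536870912) (W2 := 536870912) (P3 := 1046898278) (W3 := 26843546)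
    rfl k0_mm_113

noncomputable def cut_mm_123 : Cut := Cut.of [[⟨3, 0, 0, 1449551462⟩]]

noncomputable def f_mm_123 : ℕ → ℕ → ℕ → ℕ → Bool := onCell 536870912 536870912 1073741824 536870912 1046898278 26843546
    (rowFX 0 true false false .npn 1 2 3 (qsf 536870912 536870912 1073741824 536870912 3) ndF0q1 ndF7q2 pcF3 cut_mm_123 Ext.none)

def k0_mm_123 : ∃ t, chk3 f_mm_123 t 1 1 1 = true :=
  ⟨(l 4), by decide +kernel⟩

theorem c_mm_123 : CertFX 536870912 536870912 1073741824 536870912 1046898278 26843546 true false false .npn 1 2 3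
    ndF0q1 ndF7q2 pcF3 cut_mm_123 Ext.none :=
  certFX0 (fam := true) (s1 := false) (s2 := false) (a := 1) (b := 2) (c := 3) (cn := .npn) (n1 := ndF0q1) (n2 := ndF7q2) (pc := pcF3) (cut := cut_mm_123) (xt := Ext.none) (P1 := 536870912) (W1 := 536870912) (P2 := 1073741824) (W2 := 536870912) (P3 := 1046898278) (W3 := 26843546)
    rfl k0_mm_123

noncomputable def cut_mm_133 : Cut := Cut.of [[⟨3, 0, 0, 1449551462⟩]]

noncomputable def f_mm_133 : ℕ → ℕ → ℕ → ℕ → Bool := onCell 536870912 536870912 0 1230186008 1046898278 26843546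
    (rowFX 0 true false false .dn 1 3 3 (qsf 536870912 536870912 0 1230186008 3) ndF0q1 ndF7q3 pcF3 cut_mm_133 Ext.none)

def k0_mm_133 : ∃ t, chk3 f_mm_133 t 1 1 1 = true :=
  ⟨(l 4), by decide +kernel⟩

theorem c_mm_133 : CertFX 536870912 536870912 0 1230186008 1046898278 26843546 true false false .dn 1 3 3
    ndF0q1 ndF7q3 pcF3 cut_mm_133 Ext.none :=
  certFX0 (fam := true) (s1 := false) (s2 := false) (a := 1) (b := 3) (c := 3) (cn := .dn) (n1 := ndF0q1) (n2 := ndF7q3) (pc := pcF3) (cut := cut_mm_133) (xt := Ext.none) (P1 := 536870912) (W1 := 536870912) (P2 := 0) (W2 := 1230186008) (P3 := 1046898278) (W3 := 26843546)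
    rfl k0_mm_133

noncomputable def cut_mm_202 : Cut := Cut.of [[⟨3, 0, 0, 1449551462⟩]]

noncomputable def f_mm_202 : ℕ → ℕ → ℕ → ℕ → Bool := onCell 0 536870912 0 536870912 1046898278 26843546
    (rowFX 0 true false false .pp 2 0 2 (qsf 0 536870912 0 536870912 2) ndF0q2 ndF7q0 pcF2 cut_mm_202 Ext.none)

def k0_mm_202 : ∃ t, chk3 f_mm_202 t 1 1 1 = true :=
  ⟨(l 4), by decide +kernel⟩

theorem c_mm_202 : CertFX 0 536870912 0 536870912 1046898278 26843546 true false false .pp 2 0 2
    ndF0q2 ndF7q0 pcF2 cut_mm_202 Ext.none :=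
  certFX0 (fam := true) (s1 := false) (s2 := false) (a := 2) (b := 0) (c := 2) (cn := .pp) (n1 := ndF0q2) (n2 := ndF7q0) (pc := pcF2) (cut := cut_mm_202) (xt := Ext.none) (P1 := 0) (W1 := 536870912) (P2 := 0) (W2 := 536870912) (P3 := 1046898278) (W3 := 26843546)
    rfl k0_mm_202

noncomputable def cut_mm_203 : Cut := Cut.of [[⟨3, 0, 0, 1449551462⟩]]

noncomputable def f_mm_203 : ℕ → ℕ → ℕ → ℕ → Bool := onCell 0 536870912 0 536870912 1046898278 26843546
    (rowFX 0 true false false .up 2 0 3 (qsf 0 536870912 0 536870912 3) ndF0q2 ndF7q0 pcF3 cut_mm_203 Ext.none)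

def k0_mm_203 : ∃ t, chk3 f_mm_203 t 1 1 1 = true :=
  ⟨(l 4), by decide +kernel⟩

theorem c_mm_203 : CertFX 0 536870912 0 536870912 1046898278 26843546 true false false .up 2 0 3
    ndF0q2 ndF7q0 pcF3 cut_mm_203 Ext.none :=
  certFX0 (fam := true) (s1 := false) (s2 := false) (a := 2) (b := 0) (c := 3) (cn := .up) (n1 := ndF0q2) (n2 := ndF7q0) (pc := pcF3) (cut := cut_mm_203) (xt := Ext.none) (P1 := 0) (W1 := 536870912) (P2 := 0) (W2 := 536870912) (P3 := 1046898278) (W3 := 26843546)
    rfl k0_mm_203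

noncomputable def cut_mm_213 : Cut := Cut.of [[⟨3, 0, 0, 1449551462⟩]]

noncomputable def f_mm_213 : ℕ → ℕ → ℕ → ℕ → Bool := onCell 0 536870912 536870912 536870912 1046898278 26843546
    (rowFX 0 true false false .pnn 2 1 3 (qsf 0 536870912 536870912 536870912 3) ndF0q2 ndF7q1 pcF3 cut_mm_213 Ext.none)

def k0_mm_213 : ∃ t, chk3 f_mm_213 t 1 1 1 = true :=
  ⟨(l 4), by decide +kernel⟩

theorem c_mm_213 : CertFX 0 536870912 536870912 536870912 1046898278 26843546 true false false .pnn 2 1 3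
    ndF0q2 ndF7q1 pcF3 cut_mm_213 Ext.none :=
  certFX0 (fam := true) (s1 := false) (s2 := false) (a := 2) (b := 1) (c := 3) (cn := .pnn) (n1 := ndF0q2) (n2 := ndF7q1) (pc := pcF3) (cut := cut_mm_213) (xt := Ext.none) (P1 := 0) (W1 := 536870912) (P2 := 536870912) (W2 := 536870912) (P3 := 1046898278) (W3 := 26843546)
    rfl k0_mm_213

end Pool.Agent.Strip051.G.IE1.Tab.C.FA07

namespace Pool.Agent.Strip051.G.IE1.Tab.C.FA11

open Pool.Agent.Strip051.PB Pool.Agent.Strip051.PB.T
open Pool.Agent.Strip051.G.IE1.Tab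

noncomputable def f_pp_001 : ℕ → ℕ → ℕ → ℕ → Bool := onCell 67108864 469762048 67108864 469762048 1046898278 26843546
    (rowFX 0 true true true .up 0 0 1 (qsf 67108864 469762048 67108864 469762048 1) ndF1q0 ndF1q0 pcF1 Cut.none Ext.none)

def k0_pp_001 : ∃ t, chk3 f_pp_001 t 1 1 1 = true :=
  ⟨(l 4), by decide +kernel⟩

theorem c_pp_001 : CertFX 67108864 469762048 67108864 469762048 1046898278 26843546 true true true .up 0 0 1
    ndF1q0 ndF1q0 pcF1 Cut.none Ext.none :=
  certFX0 (fam := true) (s1 := true) (s2 := true) (a := 0) (b := 0) (c := 1) (cn := .up) (n1 := ndF1q0) (n2 := ndF1q0) (pc := pcF1) (cut := Cut.none) (xt := Ext.none) (P1 := 67108864) (W1 := 469762048) (P2 := 67108864) (W2 := 469762048) (P3 := 1046898278) (W3 := 26843546)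
    rfl k0_pp_001

noncomputable def f_pp_011 : ℕ → ℕ → ℕ → ℕ → Bool := onCell 67108864 469762048 536870912 536870912 1046898278 26843546
    (rowFX 0 true true true .pnn 0 1 1 (qsf 67108864 469762048 536870912 536870912 1) ndF1q0 ndF1q1 pcF1 Cut.none Ext.none)

def k0_pp_011 : ∃ t, chk3 f_pp_011 t 1 1 1 = true :=
  ⟨(l 4), by decide +kernel⟩

theorem c_pp_011 : CertFX 67108864 469762048 536870912 536870912 1046898278 26843546 true true true .pnn 0 1 1
    ndF1q0 ndF1q1 pcF1 Cut.none Ext.none :=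
  certFX0 (fam := true) (s1 := true) (s2 := true) (a := 0) (b := 1) (c := 1) (cn := .pnn) (n1 := ndF1q0) (n2 := ndF1q1) (pc := pcF1) (cut := Cut.none) (xt := Ext.none) (P1 := 67108864) (W1 := 469762048) (P2 := 536870912) (W2 := 536870912) (P3 := 1046898278) (W3 := 26843546)
    rfl k0_pp_011

noncomputable def f_pp_012 : ℕ → ℕ → ℕ → ℕ → Bool := onCell 67108864 469762048 536870912 536870912 1046898278 26843546
    (rowFX 0 true true true .pnp 0 1 2 (qsf 67108864 469762048 536870912 536870912 2) ndF1q0 ndF1q1 pcF2 Cut.none Ext.none)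

def k0_pp_012 : ∃ t, chk3 f_pp_012 t 1 1 1 = true :=
  ⟨(l 4), by decide +kernel⟩

theorem c_pp_012 : CertFX 67108864 469762048 536870912 536870912 1046898278 26843546 true true true .pnp 0 1 2
    ndF1q0 ndF1q1 pcF2 Cut.none Ext.none :=
  certFX0 (fam := true) (s1 := true) (s2 := true) (a := 0) (b := 1) (c := 2) (cn := .pnp) (n1 := ndF1q0) (n2 := ndF1q1) (pc := pcF2) (cut := Cut.none) (xt := Ext.none) (P1 := 67108864) (W1 := 469762048) (P2 := 536870912) (W2 := 536870912) (P3 := 1046898278) (W3 := 26843546)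
    rfl k0_pp_012

end Pool.Agent.Strip051.G.IE1.Tab.C.FA11

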