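import Pool.Agent.Strip051.G.IE1.Tab

/-! # Certificates F14 (generated) -/

set_option linter.all false
set_option maxRecDepth 100000

namespace Pool.Agent.Strip051.G.IE1.Tab.C.FA11

open Pool.Agent.Strip051.PB Pool.Agent.Strip051.PB.T
open Pool.Agent.Strip051.G.IE1.Tab

noncomputable def f_pp_022_a : ℕ → ℕ → ℕ → ℕ → Bool := onCell 1073741824 536870912 0 420477299 1046898278 26843546
    (rowFX 2 true true true .pp 0 2 2 (qsf 67108864 469762048 0 420477299 2) ndF1q0 ndF1q2a pcF2 Cut.none Ext.none)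

def k0_pp_022_a : ∃ t, chk3 f_pp_022_a t 2 2 1 = true :=
  ⟨(a (l 1) (a (l 1) (a (a (b (l 1) (c (b (l 1) (l 15996368)) (l 16004864))) (b (c (b (l 15658064) (l 15766672)) (l 15697984)) (c (b (l 15908472) (l 16094144)) (l 15927768)))) (b (c (a (l 15776736) (l 15938488)) (a (l 15751504) (l 15917552))) (c (a (l 15850688) (l 16085568)) (b (l 16034760) (l 16015816))))))), by decide +kernel⟩

def k1_pp_022_a : ∃ t, chk3 f_pp_022_a t 4 3 1 = true :=
  ⟨(a (l 1) (b (l 1) (a (l 1) (a (l 1) (a (l 1) (b (l 1) (a (l 1) (b (l 1) (c (c (l 121366050631) (l 16635640)) (l 16634568)))))))))), by decide +kernel⟩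

def k2_pp_022_a : ∃ t, chk3 f_pp_022_a t 10 3 1 = true :=
  ⟨(b (a (l 1) (a (a (l 1) (b (l 1) (b (l 1) (c (l 180421581031) (l 16522512))))) (c (b (c (l 16181800) (l 16275240)) (b (c (l 16395760) (l 16420024)) (a (l 16527152) (l 16547608)))) (b (l 16274576) (b (l 16415912) (l 16511136)))))) (b (b (a (l 1) (c (a (c (a (l 16529960) (l 16625576)) (l 16617512)) (l 16584896)) (a (l 16554456) (l 16626584)))) (a (a (l 1) (c (c (a (l 16561488) (l 16564664)) (l 16541248)) (l 16539960))) (c (a (a (l 16619040) (l 16625280)) (c (l 16617568) (l 16616688))) (a (a (l 16619360) (l 16624464)) (c (l 16615784) (l 16614880)))))) (b (a (a (a (l 1) (c (c (a (l 16566824) (b (l 1) (l 16602496))) (l 16578000)) (l 16555656))) (c (a (c (l 16622192) (l 16619032)) (l 16631792)) (a (l 16617912) (l 16630744)))) (c (a (c (l 16620856) (l 16620112)) (c (l 62511504599) (l 56069055607))) (a (c (l 16619336) (l 16618552)) (b (a (l 16626512) (l 16627032)) (l 4))))) (a (a (c (a (c (b (l 16641624) (l 16667456)) (l 16626488))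 (b (c (l 16647600) (l 16624808)) (c (l 16652056) (l 16651584)))) (a (b (l 16631120) (l 16642992)) (b (l 16602880) (a (l 16670392) (l 16631176))))) (c (c (l 59827233911) (l 72712138855)) (c (l 64659073847) (l 56069136631)))) (a (a (a (c (l 48016109415) (l 74322794183)) (l 4)) (l 4)) (l 4)))))), by decide +kernel⟩

def k3_pp_022_a : ∃ t, chk3 f_pp_022_a t 11 3 1 = true :=
  ⟨(b (a (c (b (a (b (l 16220744) (l 16330360)) (l 16318184)) (a (b (l 16453544) (l 16583528)) (b (l 16500968) (l 16619848)))) (b (a (l 16268152) (l 16308560)) (a (l 16473632) (l 16491856)))) (c (b (a (l 16272328) (l 16424528)) (a (b (l 16531600) (l 16630768)) (l 16594000))) (b (a (l 16326896) (l 16417144)) (a (b (l 16527520) (l 16629448)) (l 16591256))))) (b (b (a (c (a (c (l 16618400) (l 16617720)) (b (l 16635056) (l 16625592))) (a (b (l 16624768) (l 16605792)) (b (l 16633912) (l 16623776)))) (c (a (a (l 51774118039) (l 16666288)) (l 81839007799)) (a (c (l 16596064) (l 16595608)) (l 90965799879)))) (a (c (a (c (l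 16580416) (l 16579320)) (l 65732756231)) (a (a (l 74859531639) (l 16623952)) (l 33520494551))) (l 4))) (l 4))), by decide +kernel⟩

def k4_pp_022_a : ∃ t, chk3 f_pp_022_a t 3 1 1 = true :=
  ⟨(a (b (a (a (c (b (l 16014688) (b (l 16221920) (l 16330112))) (b (l 16081688) (l 16160616))) (b (c (l 16228536) (l 16214648)) (c (b (l 16317192) (l 16412080)) (b (l 16305704) (l 16361160))))) (a (b (c (l 16340072) (l 16330384)) (c (a (l 16454120) (l 16539544)) (a (l 16445816) (l 16533912)))) (b (c (a (l 16599400) (l 16725928)) (a (l 16594784) (l 16724600))) (c (b (a (l 16657600) (l 16758840)) (a (l 16699544) (l 16775632))) (b (a (l 16654496) (l 16758368)) (a (l 16666616) (l 16775592))))))) (b (b (a (a (c (l 16399264) (l 16329424)) (c (a (l 16511848) (l 16556928)) (a (l 16505680) (l 16551584)))) (a (a (c (l 16575328) (l 13656067815)) (b (c (l 16664656) (l 16661728)) (l 4))) (l 4))) (a (b (a (c (a (l 16562288) (l 16585424)) (a (l 16558272) (l 16581616))) (a (c (l 16621312) (l 16618048)) (l 4)))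 (a (a (c (l 16640936) (l 16639056)) (l 4)) (l 4))) (l 4))) (l 4))) (b (a (c (c (b (l 16777152) (a (l 16777208) (l 137136963527))) (b (l 16777152) (a (l 16777208) (l 129620770727)))) (c (b (l 16777144) (a (l 16777208) (l 122104577959))) (b (l 16777144) (a (l 80765517655) (l 113514643287))))) (b (c (a (l 16777216) (b (l 16777216) (l 175254798295))) (a (l 16777216) (b (l 16777216) (l 152169348967)))) (l 4))) (l 4))), by decide +kernel⟩

theorem s5_pp_022_a : ∃ t, chk3 f_pp_022_a t 5 3 1 = true := ex3_a k2_pp_022_a k3_pp_022_a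

theorem s6_pp_022_a : ∃ t, chk3 f_pp_022_a t 2 3 1 = true := ex3_a k1_pp_022_a s5_pp_022_a

theorem s7_pp_022_a : ∃ t, chk3 f_pp_022_a t 2 1 1 = true := ex3_b k0_pp_022_a s6_pp_022_a

theorem s8_pp_022_a : ∃ t, chk3 f_pp_022_a t 1 1 1 = true := ex3_a s7_pp_022_a k4_pp_022_a

theorem c_pp_022_a : CertFX 67108864 469762048 0 420477299 1046898278 26843546 true true true .pp 0 2 2
    ndF1q0 ndF1q2a pcF2 Cut.none Ext.none :=
  certFX2 (fam := true) (s1 := true) (s2 := true) (a := 0) (b := 2) (c := 2) (cn := .pp) (n1 := ndF1q0) (n2 := ndF1q2a) (pc := pcF2) (cut := Cut.none) (xt := Ext.none) (P1 := 67108864) (W1 := 469762048) (P2 := 0) (W2 := 420477299) (P3 := 1046898278) (W3 := 26843546)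
    rfl (fun _ => rfl) s8_pp_022_a

noncomputable def f_pp_022_b : ℕ → ℕ → ℕ → ℕ → Bool := onCell 67108864 469762048 1073741824 536870912 1046898278 26843546
    (rowFX 1 true true true .pp 0 2 2 (qsf 67108864 469762048 1239849684 370763052 2) ndF1q0 ndF1q2b pcF2 Cut.none Ext.none)

def k0_pp_022_b : ∃ t, chk3 f_pp_022_b t 1 1 1 = true :=
  ⟨(b (b (l 1) (a (a (b (l 1) (a (b (a (c (a (l 376914651815) (l 1)) (l 358124299623)) (l 1)) (c (a (a (l 15623864) (l 15800936)) (l 446171372583)) (a (l 15681472) (l 448318839671)))) (l 1))) (l 1)) (l 1))) (a (b (a (a (a (b (c (b (l 15656608) (l 15587152)) (l 15465528)) (c (l 15324480) (l 15477424))) (b (c (b (l 15973936) (l 15901016)) (l 253434445079)) (c (b (l 15828264) (l 15819184)) (l 15799200)))) (b (b (a (l 431676313239) (l 1)) (c (l 316785762375) (l 371009695783))) (b (c (l 232496877031) (l 15932408)) (c (l 16128256) (l 16111400))))) (b (l 1) (a (b (a (c (l 16428472) (l 16379136)) (l 1)) (a (c (l 16481640) (l 16473960)) (c (l 16711664) (l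 16709960)))) (l 1)))) (a (c (a (b (a (l 15508624) (l 15819184)) (l 15659648)) (b (b (l 16128256) (l 16128256)) (l 16128256))) (b (a (l 15597848) (l 15943624)) (a (l 15618816) (l 16111400)))) (b (b (a (c (l 16535592) (l 16572888)) (c (l 476774889767) (l 480532986439))) (a (c (l 16598504) (l 16593864)) (c (l 16777216) (l 16777216)))) (a (c (l 16598504) (l 16593864)) (c (l 16777216) (l 16777216)))))) (b (l 1) (a (b (a (b (l 1) (c (l 550863084631) (l 551936825783))) (l 1)) (a (c (b (l 445636411303) (l 16777216)) (b (l 454226345895) (l 16777216))) (b (l 1) (c (l 479459265127) (l 490196683015))))) (l 1))))), by decide +kernel⟩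

theorem c_pp_022_b : CertFX 67108864 469762048 1239849684 370763052 1046898278 26843546 true true true .pp 0 2 2
    ndF1q0 ndF1q2b pcF2 Cut.none Ext.none :=
  certFX1 (fam := true) (s1 := true) (s2 := true) (a := 0) (b := 2) (c := 2) (cn := .pp) (n1 := ndF1q0) (n2 := ndF1q2b) (pc := pcF2) (cut := Cut.none) (xt := Ext.none) (P1 := 67108864) (W1 := 469762048) (P2 := 1239849684) (W2 := 370763052) (P3 := 1046898278) (W3 := 26843546)
    rfl (fun _ => rfl) k0_pp_022_b

noncomputable def f_pp_023_a : ℕ → ℕ → ℕ → ℕ → Bool := onCell 1610612736 536870912 0 420477299 1046898278 26843546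
    (rowFX 2 true true true .up 0 2 3 (qsf 67108864 469762048 0 420477299 3) ndF1q0 ndF1q2a pcF3 Cut.none Ext.none)

def k0_pp_023_a : ∃ t, chk3 f_pp_023_a t 1 1 1 = true :=
  ⟨(a (b (a (a (a (b (b (c (l 16777216) (l 16777216)) (l 4)) (l 4)) (l 4)) (l 4)) (l 4)) (l 4)) (l 2)), by decide +kernel⟩

theorem c_pp_023_a : CertFX 67108864 469762048 0 420477299 1046898278 26843546 true true true .up 0 2 3
    ndF1q0 ndF1q2a pcF3 Cut.none Ext.none :=
  certFX2 (fam := true) (s1 := true) (s2 := true) (a := 0) (b := 2) (c := 3) (cn := .up) (n1 := ndF1q0) (n2 := ndF1q2a) (pc := pcF3) (cut := Cut.none) (xt := Ext.none) (P1 := 67108864) (W1 := 469762048) (P2 := 0) (W2 := 420477299) (P3 := 1046898278) (W3 := 26843546)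
    rfl (fun _ => rfl) k0_pp_023_a

noncomputable def f_pp_023_b : ℕ → ℕ → ℕ → ℕ → Bool := onCell 67108864 469762048 1610612736 536870912 1046898278 26843546
    (rowFX 1 true true true .up 0 2 3 (qsf 67108864 469762048 1239849684 370763052 3) ndF1q0 ndF1q2b pcF3 Cut.none Ext.none)

def k0_pp_023_b : ∃ t, chk3 f_pp_023_b t 1 1 1 = true :=
  ⟨(b (b (b (a (a (c (a (l 15659648) (l 16128256)) (a (l 15618816) (l 16111400))) (b (a (c (l 16598504) (l 16593864)) (c (l 16777216) (l 16777216))) (l 4))) (a (b (c (a (l 16777216) (l 397854900135)) (a (l 16777216) (l 412887285671))) (l 4)) (a (a (b (l 1) (l 4)) (l 1)) (l 1)))) (l 4)) (l 4)) (l 4)), by decide +kernel⟩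

theorem c_pp_023_b : CertFX 67108864 469762048 1239849684 370763052 1046898278 26843546 true true true .up 0 2 3
    ndF1q0 ndF1q2b pcF3 Cut.none Ext.none :=
  certFX1 (fam := true) (s1 := true) (s2 := true) (a := 0) (b := 2) (c := 3) (cn := .up) (n1 := ndF1q0) (n2 := ndF1q2b) (pc := pcF3) (cut := Cut.none) (xt := Ext.none) (P1 := 67108864) (W1 := 469762048) (P2 := 1239849684) (W2 := 370763052) (P3 := 1046898278) (W3 := 26843546)
    rfl (fun _ => rfl) k0_pp_023_b

noncomputable def f_pp_033 : ℕ → ℕ → ℕ → ℕ → Bool := onCell 67108864 469762048 1610612736 469762048 1046898278 26843546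
    (rowFX 0 true true true .pnn 0 3 3 (qsf 67108864 469762048 1610612736 469762048 3) ndF1q0 ndF1q3 pcF3 Cut.none Ext.none)

def k0_pp_033 : ∃ t, chk3 f_pp_033 t 1 1 1 = true :=
  ⟨(a (b (a (l 4) (l 4)) (l 4)) (l 4)), by decide +kernel⟩

theorem c_pp_033 : CertFX 67108864 469762048 1610612736 469762048 1046898278 26843546 true true true .pnn 0 3 3
    ndF1q0 ndF1q3 pcF3 Cut.none Ext.none :=
  certFX0 (fam := true) (s1 := true) (s2 := true) (a := 0) (b := 3) (c := 3) (cn := .pnn) (n1 := ndF1q0) (n2 := ndF1q3) (pc := pcF3) (cut := Cut.none) (xt := Ext.none) (P1 := 67108864) (W1 := 469762048) (P2 := 1610612736) (W2 := 469762048) (P3 := 1046898278) (W3 := 26843546)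
    rfl k0_pp_033

noncomputable def f_pp_101 : ℕ → ℕ → ℕ → ℕ → Bool := onCell 536870912 536870912 67108864 469762048 1046898278 26843546
    (rowFX 0 true true true .npn 1 0 1 (qsf 536870912 536870912 67108864 469762048 1) ndF1q1 ndF1q0 pcF1 Cut.none Ext.none)

def k0_pp_101 : ∃ t, chk3 f_pp_101 t 1 1 1 = true :=
  ⟨(l 4), by decide +kernel⟩

theorem c_pp_101 : CertFX 536870912 536870912 67108864 469762048 1046898278 26843546 true true true .npn 1 0 1
    ndF1q1 ndF1q0 pcF1 Cut.none Ext.none :=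
  certFX0 (fam := true) (s1 := true) (s2 := true) (a := 1) (b := 0) (c := 1) (cn := .npn) (n1 := ndF1q1) (n2 := ndF1q0) (pc := pcF1) (cut := Cut.none) (xt := Ext.none) (P1 := 536870912) (W1 := 536870912) (P2 := 67108864) (W2 := 469762048) (P3 := 1046898278) (W3 := 26843546)
    rfl k0_pp_101

noncomputable def f_pp_102 : ℕ → ℕ → ℕ → ℕ → Bool := onCell 536870912 536870912 67108864 469762048 1046898278 26843546
    (rowFX 0 true true true .npp 1 0 2 (qsf 536870912 536870912 67108864 469762048 2) ndF1q1 ndF1q0 pcF2 Cut.none Ext.none)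

def k0_pp_102 : ∃ t, chk3 f_pp_102 t 1 1 1 = true :=
  ⟨(l 4), by decide +kernel⟩

theorem c_pp_102 : CertFX 536870912 536870912 67108864 469762048 1046898278 26843546 true true true .npp 1 0 2
    ndF1q1 ndF1q0 pcF2 Cut.none Ext.none :=
  certFX0 (fam := true) (s1 := true) (s2 := true) (a := 1) (b := 0) (c := 2) (cn := .npp) (n1 := ndF1q1) (n2 := ndF1q0) (pc := pcF2) (cut := Cut.none) (xt := Ext.none) (P1 := 536870912) (W1 := 536870912) (P2 := 67108864) (W2 := 469762048) (P3 := 1046898278) (W3 := 26843546)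
    rfl k0_pp_102

noncomputable def f_pp_112 : ℕ → ℕ → ℕ → ℕ → Bool := onCell 536870912 536870912 536870912 536870912 1046898278 26843546
    (rowFX 0 true true true .dn 1 1 2 (qsf 536870912 536870912 536870912 536870912 2) ndF1q1 ndF1q1 pcF2 Cut.none Ext.none)

def k0_pp_112 : ∃ t, chk3 f_pp_112 t 1 1 1 = true :=
  ⟨(l 4), by decide +kernel⟩

theorem c_pp_112 : CertFX 536870912 536870912 536870912 536870912 1046898278 26843546 true true true .dn 1 1 2
    ndF1q1 ndF1q1 pcF2 Cut.none Ext.none :=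
  certFX0 (fam := true) (s1 := true) (s2 := true) (a := 1) (b := 1) (c := 2) (cn := .dn) (n1 := ndF1q1) (n2 := ndF1q1) (pc := pcF2) (cut := Cut.none) (xt := Ext.none) (P1 := 536870912) (W1 := 536870912) (P2 := 536870912) (W2 := 536870912) (P3 := 1046898278) (W3 := 26843546)
    rfl k0_pp_112

noncomputable def f_pp_113 : ℕ → ℕ → ℕ → ℕ → Bool := onCell 536870912 536870912 536870912 536870912 1046898278 26843546
    (rowFX 0 true true true .nn 1 1 3 (qsf 536870912 536870912 536870912 536870912 3) ndF1q1 ndF1q1 pcF3 Cut.none Ext.none)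

def k0_pp_113 : ∃ t, chk3 f_pp_113 t 1 1 1 = true :=
  ⟨(l 4), by decide +kernel⟩

theorem c_pp_113 : CertFX 536870912 536870912 536870912 536870912 1046898278 26843546 true true true .nn 1 1 3
    ndF1q1 ndF1q1 pcF3 Cut.none Ext.none :=
  certFX0 (fam := true) (s1 := true) (s2 := true) (a := 1) (b := 1) (c := 3) (cn := .nn) (n1 := ndF1q1) (n2 := ndF1q1) (pc := pcF3) (cut := Cut.none) (xt := Ext.none) (P1 := 536870912) (W1 := 536870912) (P2 := 536870912) (W2 := 536870912) (P3 := 1046898278) (W3 := 26843546)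
    rfl k0_pp_113

noncomputable def f_pp_123_a : ℕ → ℕ → ℕ → ℕ → Bool := onCell 536870912 536870912 0 420477299 1046898278 26843546
    (rowFX 0 true true true .npn 1 2 3 (qsf 536870912 536870912 0 420477299 3) ndF1q1 ndF1q2a pcF3 Cut.none Ext.none)

def k0_pp_123_a : ∃ t, chk3 f_pp_123_a t 1 1 1 = true :=
  ⟨(l 4), by decide +kernel⟩

theorem c_pp_123_a : CertFX 536870912 536870912 0 420477299 1046898278 26843546 true true true .npn 1 2 3
    ndF1q1 ndF1q2a pcF3 Cut.none Ext.none :=
  certFX0 (fam := true) (s1 := true) (s2 := true) (a := 1) (b := 2) (c := 3) (cn := .npn) (n1 := ndF1q1) (n2 := ndF1q2a) (pc := pcF3) (cut := Cut.none) (xt := Ext.none) (P1 := 536870912) (W1 := 536870912) (P2 := 0) (W2 := 420477299) (P3 := 1046898278) (W3 := 26843546)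
    rfl k0_pp_123_a

noncomputable def f_pp_123_b : ℕ → ℕ → ℕ → ℕ → Bool := onCell 536870912 536870912 1239849684 370763052 1046898278 26843546
    (rowFX 0 true true true .npn 1 2 3 (qsf 536870912 536870912 1239849684 370763052 3) ndF1q1 ndF1q2b pcF3 Cut.none Ext.none)

def k0_pp_123_b : ∃ t, chk3 f_pp_123_b t 1 1 1 = true :=
  ⟨(a (l 4) (l 4)), by decide +kernel⟩

theorem c_pp_123_b : CertFX 536870912 536870912 1239849684 370763052 1046898278 26843546 true true true .npn 1 2 3
    ndF1q1 ndF1q2b pcF3 Cut.none Ext.none :=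
  certFX0 (fam := true) (s1 := true) (s2 := true) (a := 1) (b := 2) (c := 3) (cn := .npn) (n1 := ndF1q1) (n2 := ndF1q2b) (pc := pcF3) (cut := Cut.none) (xt := Ext.none) (P1 := 536870912) (W1 := 536870912) (P2 := 1239849684) (W2 := 370763052) (P3 := 1046898278) (W3 := 26843546)
    rfl k0_pp_123_b

noncomputable def f_pp_133 : ℕ → ℕ → ℕ → ℕ → Bool := onCell 536870912 536870912 1610612736 469762048 1046898278 26843546
    (rowFX 0 true true true .dn 1 3 3 (qsf 536870912 536870912 1610612736 469762048 3) ndF1q1 ndF1q3 pcF3 Cut.none Ext.none)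

def k0_pp_133 : ∃ t, chk3 f_pp_133 t 1 1 1 = true :=
  ⟨(l 4), by decide +kernel⟩

theorem c_pp_133 : CertFX 536870912 536870912 1610612736 469762048 1046898278 26843546 true true true .dn 1 3 3
    ndF1q1 ndF1q3 pcF3 Cut.none Ext.none :=
  certFX0 (fam := true) (s1 := true) (s2 := true) (a := 1) (b := 3) (c := 3) (cn := .dn) (n1 := ndF1q1) (n2 := ndF1q3) (pc := pcF3) (cut := Cut.none) (xt := Ext.none) (P1 := 536870912) (W1 := 536870912) (P2 := 1610612736) (W2 := 469762048) (P3 := 1046898278) (W3 := 26843546)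
    rfl k0_pp_133

noncomputable def f_pp_202_a : ℕ → ℕ → ℕ → ℕ → Bool := onCell 0 420477299 67108864 469762048 1046898278 26843546
    (rowFX 0 true true true .pp 2 0 2 (qsf 0 420477299 67108864 469762048 2) ndF1q2a ndF1q0 pcF2 Cut.none Ext.none)

def k0_pp_202_a : ∃ t, chk3 f_pp_202_a t 1 1 1 = true :=
  ⟨(l 5), by decide +kernel⟩

theorem c_pp_202_a : CertFX 0 420477299 67108864 469762048 1046898278 26843546 true true true .pp 2 0 2
    ndF1q2a ndF1q0 pcF2 Cut.none Ext.none :=
  certFX0 (fam := true) (s1 := true) (s2 := true) (a := 2) (b := 0) (c := 2) (cn := .pp) (n1 := ndF1q2a) (n2 := ndF1q0) (pc := pcF2) (cut := Cut.none) (xt := Ext.none) (P1 := 0) (W1 := 420477299) (P2 := 67108864) (W2 := 469762048) (P3 := 1046898278) (W3 := 26843546)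
    rfl k0_pp_202_a

noncomputable def f_pp_202_b : ℕ → ℕ → ℕ → ℕ → Bool := onCell 1239849684 370763052 67108864 469762048 1046898278 26843546
    (rowFX 0 true true true .pp 2 0 2 (qsf 1239849684 370763052 67108864 469762048 2) ndF1q2b ndF1q0 pcF2 Cut.none Ext.none)

def k0_pp_202_b : ∃ t, chk3 f_pp_202_b t 1 1 1 = true :=
  ⟨(l 5), by decide +kernel⟩

theorem c_pp_202_b : CertFX 1239849684 370763052 67108864 469762048 1046898278 26843546 true true true .pp 2 0 2
    ndF1q2b ndF1q0 pcF2 Cut.none Ext.none :=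
  certFX0 (fam := true) (s1 := true) (s2 := true) (a := 2) (b := 0) (c := 2) (cn := .pp) (n1 := ndF1q2b) (n2 := ndF1q0) (pc := pcF2) (cut := Cut.none) (xt := Ext.none) (P1 := 1239849684) (W1 := 370763052) (P2 := 67108864) (W2 := 469762048) (P3 := 1046898278) (W3 := 26843546)
    rfl k0_pp_202_b

noncomputable def f_pp_203_a : ℕ → ℕ → ℕ → ℕ → Bool := onCell 0 420477299 67108864 469762048 1046898278 26843546
    (rowFX 0 true true true .up 2 0 3 (qsf 0 420477299 67108864 469762048 3) ndF1q2a ndF1q0 pcF3 Cut.none Ext.none)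

def k0_pp_203_a : ∃ t, chk3 f_pp_203_a t 1 1 1 = true :=
  ⟨(l 5), by decide +kernel⟩

theorem c_pp_203_a : CertFX 0 420477299 67108864 469762048 1046898278 26843546 true true true .up 2 0 3
    ndF1q2a ndF1q0 pcF3 Cut.none Ext.none :=
  certFX0 (fam := true) (s1 := true) (s2 := true) (a := 2) (b := 0) (c := 3) (cn := .up) (n1 := ndF1q2a) (n2 := ndF1q0) (pc := pcF3) (cut := Cut.none) (xt := Ext.none) (P1 := 0) (W1 := 420477299) (P2 := 67108864) (W2 := 469762048) (P3 := 1046898278) (W3 := 26843546)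
    rfl k0_pp_203_a

noncomputable def f_pp_203_b : ℕ → ℕ → ℕ → ℕ → Bool := onCell 1239849684 370763052 67108864 469762048 1046898278 26843546
    (rowFX 0 true true true .up 2 0 3 (qsf 1239849684 370763052 67108864 469762048 3) ndF1q2b ndF1q0 pcF3 Cut.none Ext.none)

def k0_pp_203_b : ∃ t, chk3 f_pp_203_b t 1 1 1 = true :=
  ⟨(l 5), by decide +kernel⟩

theorem c_pp_203_b : CertFX 1239849684 370763052 67108864 469762048 1046898278 26843546 true true true .up 2 0 3
    ndF1q2b ndF1q0 pcF3 Cut.none Ext.none :=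
  certFX0 (fam := true) (s1 := true) (s2 := true) (a := 2) (b := 0) (c := 3) (cn := .up) (n1 := ndF1q2b) (n2 := ndF1q0) (pc := pcF3) (cut := Cut.none) (xt := Ext.none) (P1 := 1239849684) (W1 := 370763052) (P2 := 67108864) (W2 := 469762048) (P3 := 1046898278) (W3 := 26843546)
    rfl k0_pp_203_b

noncomputable def f_pp_213_a : ℕ → ℕ → ℕ → ℕ → Bool := onCell 0 420477299 536870912 536870912 1046898278 26843546
    (rowFX 0 true true true .pnn 2 1 3 (qsf 0 420477299 536870912 536870912 3) ndF1q2a ndF1q1 pcF3 Cut.none Ext.none)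

def k0_pp_213_a : ∃ t, chk3 f_pp_213_a t 1 1 1 = true :=
  ⟨(l 4), by decide +kernel⟩

theorem c_pp_213_a : CertFX 0 420477299 536870912 536870912 1046898278 26843546 true true true .pnn 2 1 3
    ndF1q2a ndF1q1 pcF3 Cut.none Ext.none :=
  certFX0 (fam := true) (s1 := true) (s2 := true) (a := 2) (b := 1) (c := 3) (cn := .pnn) (n1 := ndF1q2a) (n2 := ndF1q1) (pc := pcF3) (cut := Cut.none) (xt := Ext.none) (P1 := 0) (W1 := 420477299) (P2 := 536870912) (W2 := 536870912) (P3 := 1046898278) (W3 := 26843546)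
    rfl k0_pp_213_a

noncomputable def f_pp_213_b : ℕ → ℕ → ℕ → ℕ → Bool := onCell 1239849684 370763052 536870912 536870912 1046898278 26843546
    (rowFX 0 true true true .pnn 2 1 3 (qsf 1239849684 370763052 536870912 536870912 3) ndF1q2b ndF1q1 pcF3 Cut.none Ext.none)

def k0_pp_213_b : ∃ t, chk3 f_pp_213_b t 1 1 1 = true :=
  ⟨(l 5), by decide +kernel⟩

theorem c_pp_213_b : CertFX 1239849684 370763052 536870912 536870912 1046898278 26843546 true true true .pnn 2 1 3
    ndF1q2b ndF1q1 pcF3 Cut.none Ext.none :=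
  certFX0 (fam := true) (s1 := true) (s2 := true) (a := 2) (b := 1) (c := 3) (cn := .pnn) (n1 := ndF1q2b) (n2 := ndF1q1) (pc := pcF3) (cut := Cut.none) (xt := Ext.none) (P1 := 1239849684) (W1 := 370763052) (P2 := 536870912) (W2 := 536870912) (P3 := 1046898278) (W3 := 26843546)
    rfl k0_pp_213_b

noncomputable def f_pp_303 : ℕ → ℕ → ℕ → ℕ → Bool := onCell 1610612736 469762048 67108864 469762048 1046898278 26843546
    (rowFX 0 true true true .npn 3 0 3 (qsf 1610612736 469762048 67108864 469762048 3) ndF1q3 ndF1q0 pcF3 Cut.none Ext.none)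

def k0_pp_303 : ∃ t, chk3 f_pp_303 t 1 1 1 = true :=
  ⟨(l 5), by decide +kernel⟩

theorem c_pp_303 : CertFX 1610612736 469762048 67108864 469762048 1046898278 26843546 true true true .npn 3 0 3
    ndF1q3 ndF1q0 pcF3 Cut.none Ext.none :=
  certFX0 (fam := true) (s1 := true) (s2 := true) (a := 3) (b := 0) (c := 3) (cn := .npn) (n1 := ndF1q3) (n2 := ndF1q0) (pc := pcF3) (cut := Cut.none) (xt := Ext.none) (P1 := 1610612736) (W1 := 469762048) (P2 := 67108864) (W2 := 469762048) (P3 := 1046898278) (W3 := 26843546)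
    rfl k0_pp_303

noncomputable def f_pp_313 : ℕ → ℕ → ℕ → ℕ → Bool := onCell 1610612736 469762048 536870912 536870912 1046898278 26843546
    (rowFX 0 true true true .dn 3 1 3 (qsf 1610612736 469762048 536870912 536870912 3) ndF1q3 ndF1q1 pcF3 Cut.none Ext.none)

def k0_pp_313 : ∃ t, chk3 f_pp_313 t 1 1 1 = true :=
  ⟨(l 4), by decide +kernel⟩

theorem c_pp_313 : CertFX 1610612736 469762048 536870912 536870912 1046898278 26843546 true true true .dn 3 1 3
    ndF1q3 ndF1q1 pcF3 Cut.none Ext.none :=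
  certFX0 (fam := true) (s1 := true) (s2 := true) (a := 3) (b := 1) (c := 3) (cn := .dn) (n1 := ndF1q3) (n2 := ndF1q1) (pc := pcF3) (cut := Cut.none) (xt := Ext.none) (P1 := 1610612736) (W1 := 469762048) (P2 := 536870912) (W2 := 536870912) (P3 := 1046898278) (W3 := 26843546)
    rfl k0_pp_313

noncomputable def f_pm_001 : ℕ → ℕ → ℕ → ℕ → Bool := onCell 67108864 469762048 67108864 469762048 1046898278 26843546
    (rowFX 0 true true false .up 0 0 1 (qsf 67108864 469762048 67108864 469762048 1) ndF1q0 ndF1q0 pcF1 Cut.none Ext.none)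

def k0_pm_001 : ∃ t, chk3 f_pm_001 t 1 1 1 = true :=
  ⟨(l 3), by decide +kernel⟩

theorem c_pm_001 : CertFX 67108864 469762048 67108864 469762048 1046898278 26843546 true true false .up 0 0 1
    ndF1q0 ndF1q0 pcF1 Cut.none Ext.none :=
  certFX0 (fam := true) (s1 := true) (s2 := false) (a := 0) (b := 0) (c := 1) (cn := .up) (n1 := ndF1q0) (n2 := ndF1q0) (pc := pcF1) (cut := Cut.none) (xt := Ext.none) (P1 := 67108864) (W1 := 469762048) (P2 := 67108864) (W2 := 469762048) (P3 := 1046898278) (W3 := 26843546)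
    rfl k0_pm_001

noncomputable def f_pm_011 : ℕ → ℕ → ℕ → ℕ → Bool := onCell 67108864 469762048 536870912 536870912 1046898278 26843546
    (rowFX 1 true true false .pnn 0 1 1 (qsf 67108864 469762048 536870912 536870912 1) ndF1q0 ndF1q1 pcF1 Cut.none Ext.none)

def k0_pm_011 : ∃ t, chk3 f_pm_011 t 1 1 1 = true :=
  ⟨(l 3), by decide +kernel⟩

theorem c_pm_011 : CertFX 67108864 469762048 536870912 536870912 1046898278 26843546 true true false .pnn 0 1 1
    ndF1q0 ndF1q1 pcF1 Cut.none Ext.none :=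
  certFX1 (fam := true) (s1 := true) (s2 := false) (a := 0) (b := 1) (c := 1) (cn := .pnn) (n1 := ndF1q0) (n2 := ndF1q1) (pc := pcF1) (cut := Cut.none) (xt := Ext.none) (P1 := 67108864) (W1 := 469762048) (P2 := 536870912) (W2 := 536870912) (P3 := 1046898278) (W3 := 26843546)
    rfl (fun _ => rfl) k0_pm_011

noncomputable def f_pm_012 : ℕ → ℕ → ℕ → ℕ → Bool := onCell 1073741824 536870912 536870912 536870912 1046898278 26843546
    (rowFX 2 true true false .pnp 0 1 2 (qsf 67108864 469762048 536870912 536870912 2) ndF1q0 ndF1q1 pcF2 Cut.none Ext.none)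

def k0_pm_012 : ∃ t, chk3 f_pm_012 t 4 1 1 = true :=
  ⟨(a (l 3) (b (l 3) (b (l 3) (a (b (l 3) (b (l 3) (b (l 3) (b (l 3) (a (l 3) (a (l 3) (a (l 3) (c (l 16452800) (l 16445808))))))))) (a (b (l 3) (b (a (l 3) (a (b (l 3) (c (l 16577272) (l 16573368))) (b (c (l 16658496) (l 16656696)) (c (l 16601072) (l 16597920))))) (b (a (a (l 3) (c (l 16525624) (l 16520504))) (c (c (l 16558728) (l 16556672)) (a (l 16542544) (l 16564568)))) (c (a (a (b (l 16481768) (c (l 16460072) (l 16456720))) (c (l 16493248) (l 16490368))) (a (l 16512528) (c (l 16537440) (l 16535256)))) (a (a (a (l 16459008) (l 16447424)) (c (l 16487480) (l 16484600))) (a (l 16507408) (c (l 16533072) (l 16530888)))))))) (a (a (b (l 3) (b (c (b (l 16690488) (l 16605944)) (b (l 16689728) (l 16603608))) (c (b (l 16589496) (c (b (l 16567896) (l 16557008)) (b (l 16566152) (l 16555184)))) (b (l 16586400) (c (b (l 16564400) (l 16553360)) (a (l 16550056) (l 16565352))))))) (b (b (l 3) (c (l 16644480) (l 16641768))) (a (b (c (l 16597416)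 (l 16596600)) (b (c (l 16606376) (l 16603840)) (b (c (l 16587664) (l 16584816)) (l 16585784)))) (b (c (l 16612536) (l 16633192)) (b (c (l 16619000) (l 16616864)) (l 16605536)))))) (b (a (b (l 3) (c (l 16610544) (l 16606832))) (b (c (l 606831371463) (l 539722496983)) (c (l 16576904) (l 16572208)))) (b (c (a (c (l 16625600) (l 16646312)) (b (l 16632208) (c (l 16651800) (l 16672400)))) (a (a (l 16656672) (l 16637016)) (b (l 16629816) (c (l 16672024) (l 16671648))))) (b (a (c (c (a (l 16632888) (l 16648744)) (l 16619888)) (c (l 16619176) (l 16618472))) (l 16674552)) (l 16602808)))))))))), by decide +kernel⟩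

def k1_pm_012 : ∃ t, chk3 f_pm_012 t 10 2 1 = true :=
  ⟨(a (a (l 3) (b (l 2) (a (b (l 3) (a (l 3) (a (l 3) (c (l 1305837830135) (l 1272551833447))))) (a (a (b (l 3) (c (l 16777216) (l 564955971431))) (b (c (l 2740356907015) (l 2672174301111)) (c (c (l 16777216) (l 16777216)) (c (l 16777216) (l 16777216))))) (b (a (a (c (l 16777216) (l 16777216)) (c (b (l 16777216) (l 16777216)) (b (l 98348040119) (l 16777216)))) (a (a (a (c (l 16777216) (l 16777216)) (a (c (l 16777216) (l 16777216)) (c (b (l 16777216) (l 16777216)) (c (l 16777216) (b (l 16777216) (l 16777216)))))) (l 16777216)) (l 16777216))) (a (a (c (l 16777216) (l 16777216)) (a (c (l 16777216) (l 16777216)) (c (l 16777216) (l 16777216)))) (a (a (a (c (l 16776648) (l 16776632)) (a (c (b (l 16777216) (l 16776120)) (c (l 16776128) (l 16776112))) (a (a (c (l 16775888) (l 16775856)) (c (b (l 16777216) (l 16774920)) (b (l 16777216) (b (l 16776448) (l 16772976))))) (l 16775632)))) (l 16775640)) (l 16775664)))))))) (b (l 2) (b (l 16777216)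 (b (l 16777216) (l 16775720))))), by decide +kernel⟩

def k2_pm_012 : ∃ t, chk3 f_pm_012 t 10 12 1 = true :=
  ⟨(a (a (b (l 3) (a (l 3) (a (l 3) (c (l 16768096) (l 16767856))))) (a (c (a (b (l 16777200) (l 16768096)) (a (l 16772688) (l 16772688))) (a (b (l 16756232) (l 16767856)) (a (l 16772568) (c (l 16772600) (l 16772544))))) (a (a (c (l 16751720) (c (l 16772600) (l 16772544))) (c (b (l 16777200) (a (l 16768512) (l 16769336))) (a (a (l 16772632) (l 16773080)) (c (l 16772880) (l 16772848))))) (b (a (a (c (l 16776896) (l 16776888)) (a (c (l 16776280) (l 16776256)) (c (c (l 16774960) (l 16774928)) (c (l 16774904) (l 16774872))))) (a (a (a (c (l 16772624) (l 16772504)) (l 16768840)) (l 16766840)) (l 16766992))) (a (a (a (c (l 16768864) (l 16768768)) (c (l 16767192) (l 16766976))) (l 16762488)) (l 16735456)))))) (l 16764808)), by decide +kernel⟩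

def k3_pm_012 : ∃ t, chk3 f_pm_012 t 10 13 1 = true :=
  ⟨(b (a (a (a (l 3) (a (c (l 16750816) (l 686288724199)) (c (l 16750816) (l 16729160)))) (a (a (c (l 16750816) (c (l 16750296) (l 16749952))) (c (a (l 16750816) (c (l 16751472) (l 16751168))) (a (l 16750128) (c (l 16750864) (l 16750552))))) (a (a (c (c (l 16752984) (l 16752800)) (c (l 16752616) (a (l 16751336) (l 16752816)))) (a (c (l 16754272) (b (l 16757264) (l 16748112))) (l 16750536))) (a (l 16743600) (c (l 16737360) (l 16736328)))))) (l 16742688)) (a (b (a (a (c (l 835538821911) (l 698099866215)) (c (a (l 16737632) (l 16737624)) (a (l 16736600) (l 16736600)))) (a (a (c (l 16737624) (l 16736600)) (c (a (l 16738024) (c (l 16739928) (l 16739584))) (a (l 16737056) (c (l 16739240) (l 16738904))))) (a (l 16737744) (a (l 16727168) (c (l 16722144) (l 16720784)))))) (a (a (c (a (l 16774976) (l 16774976)) (c (l 16712016) (l 474224675351))) (c (a (l 16774968) (l 16774968)) (c (l 16753952) (l 16732952)))) (a (a (c (a (l 16774968)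 (l 16754328)) (a (l 16774912) (l 16712336))) (a (c (l 16734368) (b (l 16734096) (l 16751504))) (l 16770864))) (a (l 16759488) (a (l 16749232) (c (l 16744376) (l 16701592))))))) (l 16698816))), by decide +kernel⟩

def k4_pm_012 : ∃ t, chk3 f_pm_012 t 10 14 1 = true :=
  ⟨(b (a (a (a (a (c (l 16601776) (l 16555816)) (c (l 16622560) (l 16618544))) (c (a (l 16622560) (c (l 16623632) (l 16600656))) (a (l 16597576) (c (l 16577680) (l 16554696))))) (a (a (b (c (a (l 16673840) (l 16675240)) (a (l 16671152) (l 16672600))) (l 16572040)) (l 16629984)) (a (l 16620656) (a (l 16627192) (c (l 16568840) (b (l 16678472) (l 16600016))))))) (l 16643664)) (a (a (a (c (a (c (l 16545816) (l 16542992)) (b (l 16505168) (c (l 16526600) (l 16523592)))) (a (l 16538760) (b (l 16498200) (c (l 16520592) (l 16517584))))) (a (a (c (b (l 16488648) (l 16499376)) (b (l 16481208) (l 16492608))) (b (c (l 16481088) (l 16473432)) (l 16479048))) (a (b (c (l 16475688) (l 16467880)) (l 16463696)) (l 16418616)))) (a (b (l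 16476792) (c (l 16433272) (l 16424600))) (a (b (l 16496112) (l 16417992)) (a (c (l 16461192) (l 16453248)) (a (a (a (l 16457248) (a (l 16457816) (l 16437384))) (l 16458360)) (l 16457520)))))) (l 16445632))), by decide +kernel⟩

def k5_pm_012 : ∃ t, chk3 f_pm_012 t 10 15 1 = true :=
  ⟨(b (a (a (b (a (a (c (c (l 16595728) (l 16593976)) (c (l 16592224) (l 16590472))) (a (c (l 16566752) (l 16562416)) (l 16545440))) (l 16504840)) (a (a (a (c (l 16641008) (l 16639320)) (l 16619136)) (l 16590872)) (l 16544872))) (a (c (l 16398960) (l 16476360)) (a (c (l 16458480) (l 16451352)) (a (c (l 16437648) (l 16429912)) (a (a (a (l 16425384) (a (l 16424296) (c (l 16425888) (l 16417800)))) (l 16419192)) (l 16412080)))))) (b (a (l 16344152) (l 16293448)) (a (l 16352184) (b (l 16235784) (l 16220472))))) (a (a (a (b (c (l 16644888) (l 16643760)) (l 16636424)) (c (b (l 16592968) (l 16628328)) (b (l 16590416) (l 16627264)))) (a (a (b (l 16561856) (l 16614248)) (b (l 16547240) (l 16606352))) (a (a (l 16526888)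 (b (l 16525264) (c (l 16575560) (l 16573232)))) (a (b (a (l 16512328) (c (l 16497376) (l 16492232))) (a (b (l 16548112) (l 16544336)) (a (l 16518896) (l 16488344)))) (b (a (a (b (a (l 16481816) (a (l 16474848) (c (l 16466272) (l 16460032)))) (a (l 16487080) (l 16457064))) (l 16444712)) (l 16437320)) (c (l 16377056) (l 16433488))))))) (b (l 16197000) (a (l 16333592) (l 16201512))))), by decide +kernel⟩

def k6_pm_012 : ∃ t, chk3 f_pm_012 t 11 1 1 = true :=
  ⟨(b (b (l 2) (b (l 16777216) (c (l 16777064) (l 16777064)))) (b (b (l 16773768) (b (l 16753224) (l 16699080))) (b (a (l 16358712) (l 16391704)) (b (a (c (l 16188424) (l 16216248)) (l 16190680)) (a (b (a (l 16099760) (l 16062536)) (a (l 16079528) (b (l 15997264) (l 15981104)))) (c (l 16026648) (l 16007160))))))), by decide +kernel⟩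

def k7_pm_012 : ∃ t, chk3 f_pm_012 t 3 1 1 = true :=
  ⟨(b (a (b (l 2) (a (b (l 2) (l 16777216)) (l 2))) (l 2)) (b (a (b (a (l 16772632) (l 16772632)) (a (l 16754344) (l 16754344))) (b (l 2) (b (l 2) (l 16758256)))) (b (a (b (l 16599592) (l 16351528)) (b (l 16620560) (l 16414440))) (a (b (a (l 16211640) (l 16211640)) (a (l 16016832) (l 16016832))) (b (l 16211640) (l 16016832)))))), by decide +kernel⟩

theorem s8_pm_012 : ∃ t, chk3 f_pm_012 t 10 7 1 = true := ex3_b k4_pm_012 k5_pm_012

theorem s9_pm_012 : ∃ t, chk3 f_pm_012 t 10 6 1 = true := ex3_b k2_pm_012 k3_pm_012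

theorem s10_pm_012 : ∃ t, chk3 f_pm_012 t 10 3 1 = true := ex3_b s9_pm_012 s8_pm_012

theorem s11_pm_012 : ∃ t, chk3 f_pm_012 t 10 1 1 = true := ex3_b k1_pm_012 s10_pm_012

theorem s12_pm_012 : ∃ t, chk3 f_pm_012 t 5 1 1 = true := ex3_a s11_pm_012 k6_pm_012

theorem s13_pm_012 : ∃ t, chk3 f_pm_012 t 2 1 1 = true := ex3_a k0_pm_012 s12_pm_012

theorem s14_pm_012 : ∃ t, chk3 f_pm_012 t 1 1 1 = true := ex3_a s13_pm_012 k7_pm_012

theorem c_pm_012 : CertFX 67108864 469762048 536870912 536870912 1046898278 26843546 true true false .pnp 0 1 2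
    ndF1q0 ndF1q1 pcF2 Cut.none Ext.none :=
  certFX2 (fam := true) (s1 := true) (s2 := false) (a := 0) (b := 1) (c := 2) (cn := .pnp) (n1 := ndF1q0) (n2 := ndF1q1) (pc := pcF2) (cut := Cut.none) (xt := Ext.none) (P1 := 67108864) (W1 := 469762048) (P2 := 536870912) (W2 := 536870912) (P3 := 1046898278) (W3 := 26843546)
    rfl (fun _ => rfl) s14_pm_012

noncomputable def f_pm_022_a : ℕ → ℕ → ℕ → ℕ → Bool := onCell 1073741824 536870912 0 420477299 1046898278 26843546
    (rowFX 2 true true false .pp 0 2 2 (qsf 67108864 469762048 0 420477299 2) ndF1q0 ndF1q2a pcF2 Cut.none Ext.none)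

def k0_pm_022_a : ∃ t, chk3 f_pm_022_a t 2 2 1 = true :=
  ⟨(a (l 1) (a (l 1) (a (a (b (l 1) (b (l 1) (c (c (l 15795216) (l 15817784)) (l 15801160)))) (b (c (c (b (l 15456480) (l 15492160)) (l 15471704)) (l 15446952)) (c (b (c (l 15560816) (l 15550328)) (l 15661504)) (b (l 15527080) (l 15631632))))) (b (c (a (a (b (l 15415704) (l 15450688)) (l 15531368)) (l 15675968)) (a (a (l 15400104) (l 15498664)) (l 15647208))) (c (a (b (l 15568048) (l 15671176)) (b (l 15752144) (l 15830872))) (a (b (l 15536344) (l 15642280)) (l 15721832))))))), by decide +kernel⟩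

def k1_pm_022_a : ∃ t, chk3 f_pm_022_a t 4 3 1 = true :=
  ⟨(a (l 1) (b (l 1) (a (l 1) (a (l 1) (a (l 1) (b (l 1) (b (l 1) (b (l 1) (c (c (l 15978712) (l 16063208)) (l 16050728)))))))))), by decide +kernel⟩

def k2_pm_022_a : ∃ t, chk3 f_pm_022_a t 10 6 1 = true :=
  ⟨(a (l 1) (b (a (l 1) (c (c (l 15972272) (l 16105720)) (l 16144080))) (c (a (b (l 1) (l 16333392)) (b (l 16100568) (l 16332800))) (a (l 16343296) (l 16129536))))), by decide +kernel⟩

def k3_pm_022_a : ∃ t, chk3 f_pm_022_a t 10 7 1 = true :=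
  ⟨(a (b (a (l 1) (b (l 1) (c (c (l 15923632) (l 16094704)) (l 15978192)))) (b (b (a (l 1) (a (c (a (c (l 15867312) (l 15853232)) (l 15931528)) (c (l 15879120) (l 15784424))) (c (l 16032480) (l 16015032)))) (a (c (c (a (l 1) (c (l 141765298343) (l 15822592))) (l 15726208)) (c (l 15882976) (l 15725544))) (c (a (c (b (l 15834200) (l 15807208)) (l 15808680)) (c (a (a (l 15891160) (l 15921560)) (l 15968448)) (l 15865432))) (a (c (l 15796728) (b (l 15798648) (l 15770816))) (a (c (l 15885264) (l 15790528)) (l 15922656)))))) (a (a (c (c (b (l 15900488) (l 15913576)) (l 15921336)) (c (l 15911008) (l 15900688))) (c (c (a (l 15788296) (l 15722104)) (l 15753104)) (c (l 15719384) (b (l 15753168) (l 15700240))))) (c (a (c (c (l 15741376) (l 15734768)) (l 15724824)) (c (a (a (l 15792064) (l 15817120)) (l 15856760)) (l 15818656))) (a (c (l 15711576) (l 15656376)) (c (l 15701728) (a (l 15767416) (l 15821608)))))))) (b (c (a (b (c (l 16368352) (l 16425584)) (a (l 16310392) (l 16434280))) (b (l 16421072)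 (l 16530768))) (a (b (l 16318632) (l 16199696)) (b (l 16374592) (l 16445736)))) (c (a (b (b (l 16225952) (c (l 15937136) (l 16117912))) (c (a (l 15936712) (b (l 16086752) (l 16014056))) (a (l 15926008) (l 16041624)))) (b (l 16283600) (c (b (l 16144224) (l 16213624)) (l 16057136)))) (a (b (b (l 16213488) (c (l 16088952) (l 15892232))) (c (a (l 15915296) (l 16011528)) (a (l 15904592) (b (l 16060912) (l 15984968))))) (b (l 16255464) (b (c (l 16195576) (a (l 16196968) (l 16347296))) (c (l 16199832) (l 16192936)))))))), by decide +kernel⟩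

def k4_pm_022_a : ∃ t, chk3 f_pm_022_a t 11 3 1 = true :=
  ⟨(c (a (b (b (a (a (l 15890240) (l 15918440)) (l 15807992)) (a (l 16146872) (l 15969432))) (b (b (a (l 16291960) (l 16094568)) (a (l 16365744) (l 16223608))) (b (l 16249808) (a (c (b (l 16448760) (l 16377744)) (l 16338712)) (b (l 16494656) (l 16414616)))))) (b (a (b (a (l 15756968) (l 15829632)) (l 15909264)) (l 15969680)) (b (b (a (l 16007584) (l 16115160)) (l 16042536)) (b (l 16196656) (l 16331568))))) (b (a (b (a (l 15939264) (l 15783112)) (a (l 16131768) (l 15948832))) (a (b (l 15764848) (l 15886728)) (l 15948704))) (a (b (b (a (l 16218320) (l 16077256)) (a (l 16338600) (l 16209936))) (b (a (l 16464760) (l 16321952)) (a (c (l 16273576) (b (l 16381216) (l 16306104))) (b (l 16426200) (c (l 16475632) (l 16369448)))))) (b (a (b (l 15987640) (l 16113584)) (b (l 16098000) (l 16230936))) (b (a (l 16160952) (l 16395280)) (c (l 16348816) (b (l 16358896) (l 16415688)))))))), by decide +kernel⟩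

def k5_pm_022_a : ∃ t, chk3 f_pm_022_a t 3 1 1 = true :=
  ⟨(b (b (a (a (c (a (a (l 15836328) (l 15951616)) (l 16120336)) (a (l 15871088) (l 16103272))) (a (a (l 16313208) (l 16457584)) (a (l 16597088) (l 16725264)))) (a (b (c (l 16777216) (l 16777216)) (l 16777216)) (c (b (l 16777216) (l 16777216)) (b (l 16777216) (l 16777216))))) (a (a (a (b (l 15828704) (l 15888312)) (c (b (l 16174632) (l 16246368)) (l 16116352))) (a (c (l 16323832) (l 16400296)) (b (l 16600112) (a (l 16719792) (l 16775624))))) (a (l 16777208) (l 16777208)))) (a (b (a (a (b (c (l 16085576) (l 16067616)) (a (l 16122976) (l 16256216))) (c (b (l 16347304) (l 16434896)) (b (l 16336136) (l 16448064)))) (a (a (b (l 16513008) (b (l 16645032) (l 16646584))) (b (l 16604576) (b (l 16753304) (l 16774440)))) (b (l 16706880) (l 16777168)))) (a (b (c (a (b (l 16315648) (l 16431264)) (a (l 16445184) (b (l 16641240) (l 16678824)))) (a (b (l 16303704) (l 16402216)) (b (l 16506656) (l 16566632)))) (a (b (c (l 16544544) (l 16457424))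 (c (l 16491736) (l 16404728))) (a (b (c (l 16620344) (l 16575616)) (c (l 16459928) (l 16388968))) (b (c (l 16579792) (l 16574744)) (l 16435088))))) (b (a (b (a (c (l 16678656) (l 16720312)) (l 16742544)) (c (l 16681824) (l 16679352))) (c (l 16723024) (l 16721616))) (b (c (l 16571992) (l 16566664)) (c (l 16439472) (l 16409728)))))) (b (a (c (l 16777184) (l 16777184)) (l 16777184)) (b (a (c (l 16681080) (l 16679672)) (c (l 16723024) (l 16721616))) (a (c (l 16441984) (l 16476856)) (b (l 16569328) (l 16435088))))))), by decide +kernel⟩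

theorem s6_pm_022_a : ∃ t, chk3 f_pm_022_a t 10 3 1 = true := ex3_b k2_pm_022_a k3_pm_022_a

theorem s7_pm_022_a : ∃ t, chk3 f_pm_022_a t 5 3 1 = true := ex3_a s6_pm_022_a k4_pm_022_a

theorem s8_pm_022_a : ∃ t, chk3 f_pm_022_a t 2 3 1 = true := ex3_a k1_pm_022_a s7_pm_022_a

theorem s9_pm_022_a : ∃ t, chk3 f_pm_022_a t 2 1 1 = true := ex3_b k0_pm_022_a s8_pm_022_a

theorem s10_pm_022_a : ∃ t, chk3 f_pm_022_a t 1 1 1 = true := ex3_a s9_pm_022_a k5_pm_022_a

theorem c_pm_022_a : CertFX 67108864 469762048 0 420477299 1046898278 26843546 true true false .pp 0 2 2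
    ndF1q0 ndF1q2a pcF2 Cut.none Ext.none :=
  certFX2 (fam := true) (s1 := true) (s2 := false) (a := 0) (b := 2) (c := 2) (cn := .pp) (n1 := ndF1q0) (n2 := ndF1q2a) (pc := pcF2) (cut := Cut.none) (xt := Ext.none) (P1 := 67108864) (W1 := 469762048) (P2 := 0) (W2 := 420477299) (P3 := 1046898278) (W3 := 26843546)
    rfl (fun _ => rfl) s10_pm_022_a

noncomputable def f_pm_022_b : ℕ → ℕ → ℕ → ℕ → Bool := onCell 67108864 469762048 1073741824 536870912 1046898278 26843546
    (rowFX 1 true true false .pp 0 2 2 (qsf 67108864 469762048 1239849684 370763052 2) ndF1q0 ndF1q2b pcF2 Cut.none Ext.none)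

def k0_pm_022_b : ∃ t, chk3 f_pm_022_b t 1 1 1 = true :=
  ⟨(b (b (l 1) (a (b (l 1) (a (a (b (a (a (c (l 219074325303) (l 265245168967)) (l 1)) (l 1)) (c (a (b (a (b (l 15488648) (l 15423888)) (l 303363035063)) (l 326448154263)) (b (l 1) (l 325375127943))) (a (b (l 315710582119) (l 15472672)) (l 414495577047)))) (l 1)) (l 1))) (l 1))) (a (b (a (a (c (b (a (b (l 15403768) (l 15508624)) (b (l 322153902471) (l 15819184))) (a (l 15508624) (l 15819184))) (b (a (l 15472672) (l 419327503447)) (l 15367160))) (b (b (a (l 395169175063) (l 1)) (a (l 16011960) (l 430602679911))) (b (a (l 16011960) (l 476773583575)) (l 16119824)))) (b (l 1) (a (b (a (l 410202091207) (l 1)) (a (l 16477800) (l 16710816))) (l 1)))) (a (a (b (c (l 15659648) (l 15618816)) (c (l 15659648) (l 15618816))) (b (b (l 16119824) (l 16119824)) (l 16119824))) (b (a (a (l 16477800) (b (l 16710808) (l 16710808))) (b (l 445636376855) (l 479996149687))) (a (l 16533264) (c (l 16777216) (l 16777216)))))) (b (l 1) (a (b (a (b (l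 1) (l 362958126151)) (l 1)) (a (c (l 467111247783) (l 493954793303)) (b (l 1) (l 382285593831)))) (l 1))))), by decide +kernel⟩

theorem c_pm_022_b : CertFX 67108864 469762048 1239849684 370763052 1046898278 26843546 true true false .pp 0 2 2
    ndF1q0 ndF1q2b pcF2 Cut.none Ext.none :=
  certFX1 (fam := true) (s1 := true) (s2 := false) (a := 0) (b := 2) (c := 2) (cn := .pp) (n1 := ndF1q0) (n2 := ndF1q2b) (pc := pcF2) (cut := Cut.none) (xt := Ext.none) (P1 := 67108864) (W1 := 469762048) (P2 := 1239849684) (W2 := 370763052) (P3 := 1046898278) (W3 := 26843546)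
    rfl (fun _ => rfl) k0_pm_022_b

noncomputable def f_pm_023_a : ℕ → ℕ → ℕ → ℕ → Bool := onCell 67108864 469762048 0 420477299 1046898278 26843546
    (rowFX 0 true true false .up 0 2 3 (qsf 67108864 469762048 0 420477299 3) ndF1q0 ndF1q2a pcF3 Cut.none Ext.none)

def k0_pm_023_a : ∃ t, chk3 f_pm_023_a t 1 1 1 = true :=
  ⟨(a (l 1) (a (a (b (l 1) (l 1)) (b (b (c (l 16777216) (l 16777216)) (b (c (l 16777208) (l 16777208)) (l 16777200))) (b (l 107407736695) (l 1)))) (b (b (a (c (l 16777216) (l 16777216)) (c (c (l 16777216) (l 16777216)) (c (l 16777216) (l 16777216)))) (a (c (b (l 16777208) (l 16777200)) (b (l 16777208) (l 16777200))) (c (b (l 16777208) (l 16777200)) (b (l 16777208) (l 16777200))))) (b (a (l 16777184) (b (a (l 16777192) (l 16777192)) (l 16777168))) (b (c (a (l 16723024) (l 16723024)) (a (l 16721616) (l 16721616))) (c (b (l 16571992) (l 16439472)) (b (l 16566664) (l 16430704)))))))), by decide +kernel⟩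

theorem c_pm_023_a : CertFX 67108864 469762048 0 420477299 1046898278 26843546 true true false .up 0 2 3
    ndF1q0 ndF1q2a pcF3 Cut.none Ext.none :=
  certFX0 (fam := true) (s1 := true) (s2 := false) (a := 0) (b := 2) (c := 3) (cn := .up) (n1 := ndF1q0) (n2 := ndF1q2a) (pc := pcF3) (cut := Cut.none) (xt := Ext.none) (P1 := 67108864) (W1 := 469762048) (P2 := 0) (W2 := 420477299) (P3 := 1046898278) (W3 := 26843546)
    rfl k0_pm_023_a

noncomputable def f_pm_023_b : ℕ → ℕ → ℕ → ℕ → Bool := onCell 67108864 469762048 1610612736 536870912 1046898278 26843546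
    (rowFX 1 true true false .up 0 2 3 (qsf 67108864 469762048 1239849684 370763052 3) ndF1q0 ndF1q2b pcF3 Cut.none Ext.none)

def k0_pm_023_b : ∃ t, chk3 f_pm_023_b t 1 1 1 = true :=
  ⟨(b (a (b (b (a (a (c (l 15659648) (l 15618816)) (l 16119824)) (a (l 16543752) (l 16777216))) (a (c (a (l 15659648) (l 16128256)) (a (l 15618816) (l 16111400))) (a (c (l 16598504) (l 16593864)) (l 16777216)))) (b (a (a (l 2) (b (l 16119824) (l 15910112))) (b (a (l 16596184) (l 16777216)) (c (l 16690888) (l 16646704)))) (l 4))) (b (a (b (c (l 455836958647) (b (l 507913437111) (l 16777216))) (c (b (l 16777216) (l 16777216)) (b (l 16777216) (l 16777216)))) (b (a (b (l 1) (c (l 359200157399) (l 417719087399))) (l 1)) (b (a (c (l 16777216) (l 16777216)) (l 1)) (c (l 413424121623) (l 485364823479))))) (b (c (a (b (l 16777216) (l 16777216)) (b (l 439730831319) (l 16777216))) (a (l 16777216) (b (a (l 16777216) (l 511134662583)) (l 16777216)))) (b (b (c (l 16777216) (l 16777216)) (c (l 16777216) (l 16777216)))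 (l 4))))) (l 4)), by decide +kernel⟩

theorem c_pm_023_b : CertFX 67108864 469762048 1239849684 370763052 1046898278 26843546 true true false .up 0 2 3
    ndF1q0 ndF1q2b pcF3 Cut.none Ext.none :=
  certFX1 (fam := true) (s1 := true) (s2 := false) (a := 0) (b := 2) (c := 3) (cn := .up) (n1 := ndF1q0) (n2 := ndF1q2b) (pc := pcF3) (cut := Cut.none) (xt := Ext.none) (P1 := 67108864) (W1 := 469762048) (P2 := 1239849684) (W2 := 370763052) (P3 := 1046898278) (W3 := 26843546)
    rfl (fun _ => rfl) k0_pm_023_b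

noncomputable def f_pm_033 : ℕ → ℕ → ℕ → ℕ → Bool := onCell 67108864 469762048 1610612736 536870912 1046898278 26843546
    (rowFX 1 true true false .pnn 0 3 3 (qsf 67108864 469762048 1610612736 469762048 3) ndF1q0 ndF1q3 pcF3 Cut.none Ext.none)

def k0_pm_033 : ∃ t, chk3 f_pm_033 t 1 1 1 = true :=
  ⟨(b (a (b (a (a (b (c (l 15659648) (l 15618816)) (c (l 15659648) (l 15618816))) (b (l 1) (l 125122658839))) (l 1)) (b (a (c (a (l 15554792) (l 16128256)) (a (b (l 15618816) (l 15618816)) (l 16111400))) (b (l 1) (c (l 16690888) (l 16646704)))) (l 4))) (l 1)) (l 4)), by decide +kernel⟩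

theorem c_pm_033 : CertFX 67108864 469762048 1610612736 469762048 1046898278 26843546 true true false .pnn 0 3 3
    ndF1q0 ndF1q3 pcF3 Cut.none Ext.none :=
  certFX1 (fam := true) (s1 := true) (s2 := false) (a := 0) (b := 3) (c := 3) (cn := .pnn) (n1 := ndF1q0) (n2 := ndF1q3) (pc := pcF3) (cut := Cut.none) (xt := Ext.none) (P1 := 67108864) (W1 := 469762048) (P2 := 1610612736) (W2 := 469762048) (P3 := 1046898278) (W3 := 26843546)
    rfl (fun _ => rfl) k0_pm_033

noncomputable def f_pm_101 : ℕ → ℕ → ℕ → ℕ → Bool := onCell 536870912 536870912 67108864 469762048 1046898278 26843546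
    (rowFX 2 true true false .npn 1 0 1 (qsf 536870912 536870912 67108864 469762048 1) ndF1q1 ndF1q0 pcF1 Cut.none Ext.none)

def k0_pm_101 : ∃ t, chk3 f_pm_101 t 1 1 1 = true :=
  ⟨(l 3), by decide +kernel⟩

theorem c_pm_101 : CertFX 536870912 536870912 67108864 469762048 1046898278 26843546 true true false .npn 1 0 1
    ndF1q1 ndF1q0 pcF1 Cut.none Ext.none :=
  certFX2 (fam := true) (s1 := true) (s2 := false) (a := 1) (b := 0) (c := 1) (cn := .npn) (n1 := ndF1q1) (n2 := ndF1q0) (pc := pcF1) (cut := Cut.none) (xt := Ext.none) (P1 := 536870912) (W1 := 536870912) (P2 := 67108864) (W2 := 469762048) (P3 := 1046898278) (W3 := 26843546)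
    rfl (fun _ => rfl) k0_pm_101

noncomputable def f_pm_102 : ℕ → ℕ → ℕ → ℕ → Bool := onCell 536870912 536870912 1073741824 536870912 1046898278 26843546
    (rowFX 1 true true false .npp 1 0 2 (qsf 536870912 536870912 67108864 469762048 2) ndF1q1 ndF1q0 pcF2 Cut.none Ext.none)

def k0_pm_102 : ∃ t, chk3 f_pm_102 t 1 4 1 = true :=
  ⟨(b (l 3) (a (l 3) (a (l 3) (b (a (l 3) (a (l 3) (a (l 3) (a (l 3) (a (l 3) (b (l 3) (b (l 3) (c (l 16438768) (l 16431336))))))))) (b (a (l 3) (a (b (l 3) (a (b (l 3) (c (l 16658496) (l 16656696))) (c (b (l 16577272) (l 16601072)) (b (l 16573368) (l 16597920))))) (a (b (b (l 3) (c (l 16525624) (l 16520504))) (c (c (l 16558728) (l 16556672)) (b (l 16542544) (l 16564568)))) (c (b (b (a (l 16481768) (c (l 16460072) (l 16456720))) (c (l 16493248) (l 16490368))) (b (l 16512528) (c (l 16537440) (l 16535256)))) (b (b (b (l 16459008) (l 16447424)) (c (l 16487480) (l 16484600))) (b (l 16507408) (c (l 16533072) (l 16530888)))))))) (b (b (a (l 3) (a (c (a (l 16690488)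 (l 16605944)) (a (l 16689728) (l 16603608))) (c (a (l 16589496) (c (a (l 16567896) (l 16557008)) (a (l 16566152) (l 16555184)))) (a (l 16586400) (c (a (l 16564400) (l 16553360)) (b (l 16550056) (l 16565352))))))) (a (a (l 3) (c (l 16644480) (l 16641768))) (b (a (c (l 16597416) (l 16596600)) (a (c (l 16606376) (l 16603840)) (a (c (l 16587664) (l 16584816)) (l 16585784)))) (a (c (l 16612536) (l 16633192)) (a (c (l 16619000) (l 16616864)) (l 16605536)))))) (a (a (b (l 3) (c (l 606831371463) (l 539722496983))) (c (b (l 16610544) (l 16576904)) (b (l 16606832) (l 16572208)))) (a (c (b (c (l 16625600) (l 16646312)) (a (l 16632208) (c (l 16651800) (l 16672400)))) (b (b (l 16656672) (l 16637016)) (a (l 16629816) (c (l 16672024) (l 16671648))))) (a (b (c (c (b (l 16632888) (l 16648744)) (l 16619888)) (c (l 16619176) (l 16618472))) (l 16674552)) (l 16602808)))))))))), by decide +kernel⟩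

def k1_pm_102 : ∃ t, chk3 f_pm_102 t 2 10 1 = true :=
  ⟨(b (b (l 3) (a (l 2) (b (a (l 3) (b (l 3) (b (l 3) (c (l 1305837830135) (l 1272551833447))))) (b (a (b (l 3) (c (l 2740356907015) (l 2672174301111))) (b (c (l 16777216) (l 564955971431)) (c (c (l 16777216) (l 16777216)) (c (l 16777216) (l 16777216))))) (a (b (b (c (l 16777216) (l 16777216)) (c (a (l 16777216) (l 16777216)) (a (l 98348040119) (l 16777216)))) (b (b (b (c (l 16777216) (l 16777216)) (b (c (l 16777216) (l 16777216)) (c (a (l 16777216) (l 16777216)) (c (l 16777216) (a (l 16777216) (l 16777216)))))) (l 16777216)) (l 16777216))) (b (b (c (l 16777216) (l 16777216)) (b (c (l 16777216) (l 16777216)) (c (l 16777216) (l 16777216)))) (b (b (b (c (l 16776648) (l 16776632)) (b (c (a (l 16777216) (l 16776120)) (c (l 16776128) (l 16776112))) (b (b (c (l 16775888) (l 16775856)) (c (a (l 16777216) (l 16774920)) (a (l 16777216) (a (l 16776448) (l 16772976))))) (l 16775632)))) (l 16775640)) (l 16775664)))))))) (a (l 2) (a (l 16777216)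 (a (l 16777216) (l 16775720))))), by decide +kernel⟩

def k2_pm_102 : ∃ t, chk3 f_pm_102 t 12 10 1 = true :=
  ⟨(b (b (a (l 3) (b (l 3) (b (l 3) (c (l 16768096) (l 16767856))))) (b (c (b (a (l 16777200) (l 16768096)) (b (l 16772688) (l 16772688))) (b (a (l 16756232) (l 16767856)) (b (l 16772568) (c (l 16772600) (l 16772544))))) (b (b (c (l 16751720) (c (l 16772600) (l 16772544))) (c (a (l 16777200) (b (l 16768512) (l 16769336))) (b (a (l 16777200) (l 16768328)) (c (l 16772880) (l 16772848))))) (a (b (b (c (l 16776896) (l 16776888)) (b (c (l 16776280) (l 16776256)) (c (c (l 16774960) (l 16774928)) (c (l 16774904) (l 16774872))))) (b (b (b (c (l 16772624) (l 16772504)) (l 16768840)) (l 16766840)) (l 16766992))) (b (b (a (c (l 16772528) (c (l 16772472) (l 16772440))) (l 16762832)) (l 16762488)) (l 16735456)))))) (l 16764808)), by decide +kernel⟩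

def k3_pm_102 : ∃ t, chk3 f_pm_102 t 13 10 1 = true :=
  ⟨(a (b (b (b (l 3) (b (c (l 16750816) (l 686288724199)) (c (l 16750816) (l 16729160)))) (b (b (c (l 16750816) (c (l 16750296) (l 16749952))) (c (b (l 16750816) (c (l 16751472) (l 16751168))) (b (l 16750128) (c (l 16750864) (l 16750552))))) (b (b (c (c (l 16752984) (l 16752800)) (c (l 16752616) (b (l 16751336) (l 16752816)))) (b (c (l 16754272) (a (l 16757264) (l 16748112))) (l 16750536))) (b (l 16743600) (c (l 16737360) (l 16736328)))))) (l 16742688)) (b (a (b (b (c (l 835538821911) (l 698099866215)) (c (b (l 16737632) (l 16737624)) (b (l 16736600) (l 16736600)))) (b (b (c (l 16737624) (l 16736600)) (c (b (l 16738024) (c (l 16739928) (l 16739584))) (b (l 16737056) (c (l 16739240) (l 16738904))))) (b (l 16737744) (b (l 16727168) (c (l 16722144) (l 16720784)))))) (b (b (c (b (l 16774976) (l 16774976)) (c (l 16712016) (l 474224675351))) (c (b (l 16774968) (l 16774968)) (c (l 16753952) (l 16732952)))) (b (b (c (b (l 16774968)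 (l 16754328)) (b (l 16774912) (l 16712336))) (b (c (l 16734368) (a (l 16734096) (l 16751504))) (l 16770864))) (b (l 16759488) (b (l 16749232) (c (l 16744376) (l 16701592))))))) (l 16698816))), by decide +kernel⟩

def k4_pm_102 : ∃ t, chk3 f_pm_102 t 14 10 1 = true :=
  ⟨(a (b (b (b (b (c (l 16601776) (l 16555816)) (c (l 16622560) (l 16618544))) (c (b (l 16622560) (c (l 16623632) (l 16600656))) (b (l 16597576) (c (l 16577680) (l 16554696))))) (b (b (a (c (b (l 16673840) (l 16675240)) (b (l 16671152) (l 16672600))) (l 16572040)) (l 16629984)) (b (l 16620656) (b (l 16627192) (c (l 16568840) (a (l 16678472) (l 16600016))))))) (l 16643664)) (b (b (b (c (b (c (l 16545816) (l 16542992)) (a (l 16505168) (c (l 16526600) (l 16523592)))) (b (l 16538760) (a (l 16498200) (c (l 16520592) (l 16517584))))) (b (b (c (a (l 16488648) (l 16499376)) (a (l 16481208) (l 16492608))) (a (c (l 16481088) (l 16473432)) (l 16479048))) (a (a (c (l 16495928) (l 16488624)) (l 16449808)) (l 16456568)))) (b (a (l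 16476792) (c (l 16433272) (l 16424600))) (b (a (l 16496112) (l 16417992)) (b (c (l 16461192) (l 16453248)) (b (b (b (l 16457248) (b (l 16457816) (l 16437384))) (l 16458360)) (l 16457520)))))) (l 16445632))), by decide +kernel⟩

def k5_pm_102 : ∃ t, chk3 f_pm_102 t 15 10 1 = true :=
  ⟨(a (b (b (a (b (b (c (c (l 16595728) (l 16593976)) (c (l 16592224) (l 16590472))) (b (c (l 16566752) (l 16562416)) (l 16545440))) (l 16504840)) (b (b (b (c (l 16641008) (l 16639320)) (l 16619136)) (l 16590872)) (l 16544872))) (b (c (l 16398960) (l 16476360)) (b (c (l 16458480) (l 16451352)) (b (c (l 16437648) (l 16429912)) (b (b (b (l 16425384) (b (l 16424296) (c (l 16425888) (l 16417800)))) (l 16419192)) (l 16412080)))))) (a (b (l 16344152) (l 16293448)) (b (l 16352184) (a (l 16235784) (l 16220472))))) (b (b (b (a (c (l 16644888) (l 16643760)) (l 16636424)) (c (a (l 16592968) (l 16628328)) (a (l 16590416) (l 16627264)))) (b (b (a (l 16561856) (l 16614248)) (a (l 16547240) (l 16606352))) (b (a (l 16532032)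 (b (l 16600960) (c (l 16575560) (l 16573232)))) (b (a (b (l 16512328) (c (l 16497376) (l 16492232))) (b (a (l 16548112) (l 16544336)) (b (l 16518896) (l 16488344)))) (a (b (b (a (b (l 16481816) (b (l 16474848) (c (l 16466272) (l 16460032)))) (b (l 16487080) (l 16457064))) (l 16444712)) (l 16437320)) (c (l 16377056) (l 16433488))))))) (a (l 16197000) (b (l 16333592) (l 16201512))))), by decide +kernel⟩

def k6_pm_102 : ∃ t, chk3 f_pm_102 t 1 11 1 = true :=
  ⟨(a (a (l 2) (a (l 16777216) (c (l 16777064) (l 16777064)))) (a (a (l 16773768) (a (l 16753224) (l 16699080))) (a (b (l 16358712) (l 16391704)) (a (b (c (l 16188424) (l 16216248)) (l 16190680)) (b (a (b (l 16099760) (l 16062536)) (b (l 16079528) (a (l 15997264) (l 15981104)))) (c (l 16026648) (l 16007160))))))), by decide +kernel⟩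

def k7_pm_102 : ∃ t, chk3 f_pm_102 t 1 3 1 = true :=
  ⟨(a (b (a (l 2) (b (a (l 2) (l 16777216)) (l 2))) (l 2)) (a (b (a (b (l 16772632) (l 16772632)) (b (l 16754344) (l 16754344))) (a (l 2) (a (l 2) (l 16758256)))) (a (b (a (l 16599592) (l 16351528)) (a (l 16620560) (l 16414440))) (b (a (b (l 16211640) (l 16211640)) (b (l 16016832) (l 16016832))) (a (l 16211640) (l 16016832)))))), by decide +kernel⟩

theorem s8_pm_102 : ∃ t, chk3 f_pm_102 t 7 10 1 = true := ex3_a k4_pm_102 k5_pm_102

theorem s9_pm_102 : ∃ t, chk3 f_pm_102 t 6 10 1 = true := ex3_a k2_pm_102 k3_pm_102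

theorem s10_pm_102 : ∃ t, chk3 f_pm_102 t 3 10 1 = true := ex3_a s9_pm_102 s8_pm_102

theorem s11_pm_102 : ∃ t, chk3 f_pm_102 t 1 10 1 = true := ex3_a k1_pm_102 s10_pm_102

theorem s12_pm_102 : ∃ t, chk3 f_pm_102 t 1 5 1 = true := ex3_b s11_pm_102 k6_pm_102

theorem s13_pm_102 : ∃ t, chk3 f_pm_102 t 1 2 1 = true := ex3_b k0_pm_102 s12_pm_102

theorem s14_pm_102 : ∃ t, chk3 f_pm_102 t 1 1 1 = true := ex3_b s13_pm_102 k7_pm_102

theorem c_pm_102 : CertFX 536870912 536870912 67108864 469762048 1046898278 26843546 true true false .npp 1 0 2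
    ndF1q1 ndF1q0 pcF2 Cut.none Ext.none :=
  certFX1 (fam := true) (s1 := true) (s2 := false) (a := 1) (b := 0) (c := 2) (cn := .npp) (n1 := ndF1q1) (n2 := ndF1q0) (pc := pcF2) (cut := Cut.none) (xt := Ext.none) (P1 := 536870912) (W1 := 536870912) (P2 := 67108864) (W2 := 469762048) (P3 := 1046898278) (W3 := 26843546)
    rfl (fun _ => rfl) s14_pm_102

noncomputable def f_pm_112 : ℕ → ℕ → ℕ → ℕ → Bool := onCell 536870912 536870912 1073741824 536870912 1046898278 26843546
    (rowFX 1 true true false .dn 1 1 2 (qsf 536870912 536870912 536870912 536870912 2) ndF1q1 ndF1q1 pcF2 Cut.none Ext.none)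

def k0_pm_112 : ∃ t, chk3 f_pm_112 t 1 1 1 = true :=
  ⟨(a (b (b (l 3) (b (b (b (l 3) (a (b (l 3) (b (l 3) (a (b (b (l 4982329835479) (a (c (l 16777216) (l 16777216)) (c (l 16777216) (l 16777216)))) (b (b (b (c (l 16777216) (l 16777216)) (b (c (l 16777216) (l 16777216)) (c (l 16777216) (c (l 16777216) (l 16777216))))) (l 16777216)) (l 16777216))) (b (a (l 3) (b (l 3) (c (l 16777216) (l 16777216)))) (b (b (b (c (l 16777216) (l 16777216)) (b (c (l 16777216) (l 16777216)) (c (a (l 16777216) (l 16777216)) (a (l 16777216) (l 16777216))))) (l 16777216)) (l 16777216)))))) (a (b (l 3) (b (a (l 3) (l 1)) (b (a (b (l 3202602762199) (c (l 16777216) (l 16777216))) (l 1)) (b (a (b (b (l 16777216) (b (c (l 16777216) (l 16777216)) (c (l 16777216) (a (l 16777216) (l 16777216))))) (l 16777216)) (l 1)) (l 16777216))))) (l 1)))) (a (a (l 16777216) (l 16777216)) (a (l 16777216) (l 294238798183)))) (a (a (l 16777176) (l 16777216)) (a (l 16777216) (l 16777064))))) (b (a (a (b (b (l 16777208) (l 16774192))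 (b (l 16765360) (l 16758944))) (b (l 16777216) (l 16774976))) (b (a (l 16777216) (l 16777216)) (a (l 16777216) (l 16777216)))) (a (b (a (a (l 16610768) (l 16740672)) (a (l 16758944) (l 16765360))) (a (b (l 16373272) (l 16192216)) (a (l 16610768) (l 16740672)))) (a (b (l 16774976) (l 16761352)) (l 16775760))))) (b (b (l 1) (b (l 1) (a (a (l 16773768) (l 1)) (l 1)))) (a (b (a (b (l 16772632) (l 16772632)) (l 194917476727)) (a (b (l 16772632) (l 16772632)) (a (l 16750472) (l 16758256)))) (a (b (l 338261664551) (l 145525013527)) (b (l 1) (l 167535532391)))))), by decide +kernel⟩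

theorem c_pm_112 : CertFX 536870912 536870912 536870912 536870912 1046898278 26843546 true true false .dn 1 1 2
    ndF1q1 ndF1q1 pcF2 Cut.none Ext.none :=
  certFX1 (fam := true) (s1 := true) (s2 := false) (a := 1) (b := 1) (c := 2) (cn := .dn) (n1 := ndF1q1) (n2 := ndF1q1) (pc := pcF2) (cut := Cut.none) (xt := Ext.none) (P1 := 536870912) (W1 := 536870912) (P2 := 536870912) (W2 := 536870912) (P3 := 1046898278) (W3 := 26843546)
    rfl (fun _ => rfl) k0_pm_112

noncomputable def f_pm_113 : ℕ → ℕ → ℕ → ℕ → Bool := onCell 536870912 536870912 536870912 536870912 1046898278 26843546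
    (rowFX 0 true true false .nn 1 1 3 (qsf 536870912 536870912 536870912 536870912 3) ndF1q1 ndF1q1 pcF3 Cut.none Ext.none)

def k0_pm_113 : ∃ t, chk3 f_pm_113 t 1 1 1 = true :=
  ⟨(a (b (a (l 1) (b (l 1) (l 16777216))) (b (a (b (l 1) (l 16754344)) (b (l 16772632) (l 16754344))) (b (a (l 16454600) (l 16517520)) (a (b (l 16211640) (l 16016832)) (b (l 16211640) (l 16016832)))))) (b (a (b (a (l 1) (l 16754344)) (a (l 16772632) (l 16754344))) (a (b (l 16454600) (l 16517520)) (b (a (l 16211640) (l 16016832)) (a (l 16211640) (l 16016832))))) (a (a (b (b (l 16774584) (l 16757056)) (b (l 16521776) (l 16117832))) (b (b (l 16757056) (l 16768528)) (b (l 16474824) (l 16133560)))) (b (a (b (l 16521776) (l 16474824)) (b (l 16117832) (l 16133560))) (a (b (l 16283688) (b (l 15998304) (a (l 15892488) (b (l 15793328) (l 15721888))))) (b (a (l 15998304) (b (l 15892488) (a (l 15793328) (l 15721888)))) (a (b (l 15779352) (b (l 15697816) (a (l 15673736) (l 15691464)))) (b (a (l 15697816) (b (l 15673736)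 (l 15691464))) (a (b (l 15714120) (l 15834440)) (b (l 15834440) (a (l 16197152) (b (l 16439808) (b (l 16775000) (a (l 16762992) (b (l 16775808) (a (l 16769960) (b (l 16776512) (b (l 16777776) (a (l 16771368) (a (l 16775400) (a (l 16777072) (l 16776920)))))))))))))))))))))), by decide +kernel⟩

theorem c_pm_113 : CertFX 536870912 536870912 536870912 536870912 1046898278 26843546 true true false .nn 1 1 3
    ndF1q1 ndF1q1 pcF3 Cut.none Ext.none :=
  certFX0 (fam := true) (s1 := true) (s2 := false) (a := 1) (b := 1) (c := 3) (cn := .nn) (n1 := ndF1q1) (n2 := ndF1q1) (pc := pcF3) (cut := Cut.none) (xt := Ext.none) (P1 := 536870912) (W1 := 536870912) (P2 := 536870912) (W2 := 536870912) (P3 := 1046898278) (W3 := 26843546)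
    rfl k0_pm_113

noncomputable def f_pm_123_a : ℕ → ℕ → ℕ → ℕ → Bool := onCell 1610612736 536870912 0 420477299 1046898278 26843546
    (rowFX 2 true true false .npn 1 2 3 (qsf 536870912 536870912 0 420477299 3) ndF1q1 ndF1q2a pcF3 Cut.none Ext.none)

def k0_pm_123_a : ∃ t, chk3 f_pm_123_a t 1 2 1 = true :=
  ⟨(a (a (l 1) (a (c (a (b (l 16777216) (l 16777208)) (b (l 16777216) (l 16777208))) (a (b (l 16777216) (l 16777208)) (b (l 16777216) (l 16777208)))) (a (c (b (l 16777216) (l 16777208)) (b (l 16777216) (l 16777208))) (c (b (a (l 16777216) (l 16777216)) (l 16777208)) (b (a (l 16777216) (l 16777216)) (l 16777208)))))) (a (b (a (a (c (a (l 16777216) (l 16777216)) (a (l 16777216) (b (l 4) (l 16777216)))) (a (c (l 276723400663) (l 271891562423)) (l 4))) (l 4)) (a (a (c (l 16777208) (l 16777208)) (c (a (l 16777208) (l 16777208)) (a (l 16777208) (l 16777208)))) (a (a (c (l 16777208) (l 16777208)) (b (l 4) (a (l 16777208) (l 16777200)))) (a (c (l 301956333479) (l 287997689687)) (l 4)))))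 (l 4))), by decide +kernel⟩

def k1_pm_123_a : ∃ t, chk3 f_pm_123_a t 1 3 1 = true :=
  ⟨(a (a (b (a (l 1) (l 113313316471)) (b (a (l 1) (c (l 16723024) (l 16721616))) (a (l 240550856743) (c (l 16504904) (l 16497824))))) (b (b (a (a (l 16777192) (l 16777192)) (c (l 16777192) (l 16777192))) (a (l 16777168) (a (l 16777168) (l 16777168)))) (b (a (c (l 16723024) (l 16721616)) (c (l 16723024) (l 16721616))) (a (c (l 16504904) (l 16497824)) (l 16459424))))) (a (a (b (a (c (l 16777184) (l 16777184)) (c (l 16777184) (l 16777184))) (b (a (c (l 16723024) (l 16721616)) (c (l 16723040) (l 16721632))) (a (l 16501368) (l 16480416)))) (b (a (c (l 16777176) (l 16777176)) (c (a (l 16777176) (l 16777184)) (a (l 16777176) (l 16777184)))) (a (b (c (l 16723056) (l 16721656)) (c (l 16504952) (l 16497880))) (b (c (l 16723088) (l 16721728)) (c (l 16505824) (l 16499304)))))) (a (b (b (l 4) (a (a (c (l 16776792) (l 16776776)) (c (l 16772904) (l 16772792))) (l 4))) (a (b (a (l 16659448) (c (l 16720136) (l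 16719944))) (c (l 16337640) (l 16396056))) (a (b (c (l 24393822151) (l 25467563959)) (c (l 16502304) (l 16501136))) (b (a (c (l 16702792) (l 16701488)) (l 4)) (c (a (l 16498544) (l 16395512)) (a (l 16497952) (l 54994891495))))))) (a (b (l 4) (a (b (l 4) (a (b (l 4) (c (l 16453136) (l 16438048))) (c (l 249342317351) (l 265448505255)))) (l 4))) (l 4))))), by decide +kernel⟩

theorem s2_pm_123_a : ∃ t, chk3 f_pm_123_a t 1 1 1 = true := ex3_b k0_pm_123_a k1_pm_123_a

theorem c_pm_123_a : CertFX 536870912 536870912 0 420477299 1046898278 26843546 true true false .npn 1 2 3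
    ndF1q1 ndF1q2a pcF3 Cut.none Ext.none :=
  certFX2 (fam := true) (s1 := true) (s2 := false) (a := 1) (b := 2) (c := 3) (cn := .npn) (n1 := ndF1q1) (n2 := ndF1q2a) (pc := pcF3) (cut := Cut.none) (xt := Ext.none) (P1 := 536870912) (W1 := 536870912) (P2 := 0) (W2 := 420477299) (P3 := 1046898278) (W3 := 26843546)
    rfl (fun _ => rfl) s2_pm_123_a

noncomputable def f_pm_123_b : ℕ → ℕ → ℕ → ℕ → Bool := onCell 1610612736 536870912 1239849684 370763052 1046898278 26843546
    (rowFX 2 true true false .npn 1 2 3 (qsf 536870912 536870912 1239849684 370763052 3) ndF1q1 ndF1q2b pcF3 Cut.none Ext.none)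

def k0_pm_123_b : ∃ t, chk3 f_pm_123_b t 1 1 1 = true :=
  ⟨(a (a (l 1) (b (a (a (c (l 16777216) (l 76269223943)) (b (c (l 16777216) (l 16777216)) (l 1))) (a (c (c (l 16777216) (l 16777216)) (c (l 16777216) (l 16777216))) (a (b (c (l 16777216) (l 16777216)) (l 1)) (l 4)))) (l 1))) (a (l 4) (l 4))), by decide +kernel⟩

theorem c_pm_123_b : CertFX 536870912 536870912 1239849684 370763052 1046898278 26843546 true true false .npn 1 2 3
    ndF1q1 ndF1q2b pcF3 Cut.none Ext.none :=
  certFX2 (fam := true) (s1 := true) (s2 := false) (a := 1) (b := 2) (c := 3) (cn := .npn) (n1 := ndF1q1) (n2 := ndF1q2b) (pc := pcF3) (cut := Cut.none) (xt := Ext.none) (P1 := 536870912) (W1 := 536870912) (P2 := 1239849684) (W2 := 370763052) (P3 := 1046898278) (W3 := 26843546)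
    rfl (fun _ => rfl) k0_pm_123_b

noncomputable def f_pm_133 : ℕ → ℕ → ℕ → ℕ → Bool := onCell 536870912 536870912 1610612736 469762048 1046898278 26843546
    (rowFX 0 true true false .dn 1 3 3 (qsf 536870912 536870912 1610612736 469762048 3) ndF1q1 ndF1q3 pcF3 Cut.none Ext.none)

def k0_pm_133 : ∃ t, chk3 f_pm_133 t 1 1 1 = true :=
  ⟨(l 4), by decide +kernel⟩

theorem c_pm_133 : CertFX 536870912 536870912 1610612736 469762048 1046898278 26843546 true true false .dn 1 3 3
    ndF1q1 ndF1q3 pcF3 Cut.none Ext.none :=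
  certFX0 (fam := true) (s1 := true) (s2 := false) (a := 1) (b := 3) (c := 3) (cn := .dn) (n1 := ndF1q1) (n2 := ndF1q3) (pc := pcF3) (cut := Cut.none) (xt := Ext.none) (P1 := 536870912) (W1 := 536870912) (P2 := 1610612736) (W2 := 469762048) (P3 := 1046898278) (W3 := 26843546)
    rfl k0_pm_133

noncomputable def f_pm_202_a : ℕ → ℕ → ℕ → ℕ → Bool := onCell 0 420477299 1073741824 536870912 1046898278 26843546
    (rowFX 1 true true false .pp 2 0 2 (qsf 0 420477299 67108864 469762048 2) ndF1q2a ndF1q0 pcF2 Cut.none Ext.none)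

def k0_pm_202_a : ∃ t, chk3 f_pm_202_a t 2 2 1 = true :=
  ⟨(b (l 1) (b (l 1) (b (b (a (l 1) (a (l 1) (c (c (l 15795216) (l 15817784)) (l 15801160)))) (a (c (c (a (l 15456480) (l 15492160)) (l 15471704)) (l 15446952)) (c (a (c (l 15560816) (l 15550328)) (l 15661504)) (a (l 15527080) (l 15631632))))) (a (c (b (b (a (l 15415704) (l 15450688)) (l 15531368)) (l 15675968)) (b (b (l 15400104) (l 15498664)) (l 15647208))) (c (b (a (l 15568048) (l 15671176)) (a (l 15752144) (l 15830872))) (b (a (l 15536344) (l 15642280)) (l 15721832))))))), by decide +kernel⟩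

def k1_pm_202_a : ∃ t, chk3 f_pm_202_a t 3 4 1 = true :=
  ⟨(b (l 1) (a (l 1) (b (l 1) (b (l 1) (b (l 1) (a (l 1) (a (l 1) (a (l 1) (c (c (l 15978712) (l 16063208)) (l 16050728)))))))))), by decide +kernel⟩

def k2_pm_202_a : ∃ t, chk3 f_pm_202_a t 6 10 1 = true :=
  ⟨(b (l 1) (a (b (l 1) (c (c (l 15972272) (l 16105720)) (l 16144080))) (c (b (a (l 1) (l 16333392)) (a (l 16100568) (l 16332800))) (b (l 16343296) (l 16108560))))), by decide +kernel⟩

def k3_pm_202_a : ∃ t, chk3 f_pm_202_a t 7 10 1 = true :=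
  ⟨(b (a (a (l 1) (b (l 1) (c (c (l 15923632) (l 16094704)) (l 15978192)))) (a (a (b (l 1) (b (c (a (l 15920000) (c (l 15836048) (l 15865672))) (c (l 15879120) (l 15784424))) (c (l 16032480) (l 16015032)))) (b (c (b (l 1) (c (c (l 141765298343) (l 15822592)) (l 15813352))) (c (l 15882976) (l 15725544))) (c (b (c (a (l 15834200) (l 15807208)) (l 15808680)) (c (b (b (l 15891160) (l 15921560)) (l 15968448)) (l 15865432))) (b (c (l 15796728) (a (l 15798648) (l 15770816))) (b (c (l 15885264) (l 15790528)) (l 15922656)))))) (b (b (c (c (a (l 15900488) (l 15913576)) (l 15921336)) (c (l 15911008) (l 15900688))) (c (c (b (l 15788296) (l 15722104)) (l 15753104)) (c (l 15719384) (a (l 15753168) (l 15700240))))) (c (b (c (c (l 15741376) (l 15734768)) (l 15724824)) (c (b (b (l 15792064) (l 15817120)) (l 15856760)) (l 15818656))) (b (c (l 15711576) (l 15656376)) (c (l 15701728) (b (l 15767416) (l 15821608)))))))) (a (c (b (a (c (l 16368352) (l 16425584)) (b (l 16310392) (l 16434280))) (a (l 16421072)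 (l 16530768))) (b (a (l 16318632) (l 16199696)) (a (l 16374592) (l 16445736)))) (c (b (a (a (l 16225952) (c (l 15937136) (l 16117912))) (c (b (l 15936712) (a (l 16086752) (l 16014056))) (b (l 15926008) (l 16041624)))) (a (l 16283600) (c (a (l 16144224) (l 16213624)) (l 16057136)))) (b (a (a (l 16213488) (c (l 16088952) (l 15892232))) (c (b (l 15915296) (l 16011528)) (b (l 15904592) (a (l 16060912) (l 15984968))))) (a (l 16255464) (a (c (l 16195576) (b (l 16196968) (l 16347296))) (c (l 16199832) (l 16192936)))))))), by decide +kernel⟩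

def k4_pm_202_a : ∃ t, chk3 f_pm_202_a t 3 11 1 = true :=
  ⟨(c (b (a (a (b (b (l 15890240) (l 15918440)) (l 15807992)) (b (l 16146872) (l 15969432))) (a (a (b (l 16291960) (l 16094568)) (b (l 16365744) (l 16223608))) (a (l 16249808) (b (c (a (l 16448760) (l 16377744)) (l 16338712)) (a (l 16494656) (l 16414616)))))) (a (b (a (b (l 15756968) (l 15829632)) (l 15909264)) (l 15969680)) (a (a (b (l 16007584) (l 16115160)) (l 16042536)) (a (l 16196656) (l 16331568))))) (a (b (a (b (l 15939264) (l 15783112)) (b (l 16131768) (l 15948832))) (b (a (l 15764848) (l 15886728)) (l 15948704))) (b (a (a (b (l 16218320) (l 16077256)) (b (l 16338600) (l 16209936))) (a (b (l 16464760) (l 16321952)) (b (c (l 16273576) (a (l 16381216) (l 16306104))) (a (l 16426200) (c (l 16475632) (l 16369448)))))) (a (b (a (l 15987640) (l 16113584)) (a (l 16098000) (l 16230936))) (a (b (l 16160952) (l 16395280)) (c (l 16348816) (a (l 16358896) (l 16415688)))))))), by decide +kernel⟩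

def k5_pm_202_a : ∃ t, chk3 f_pm_202_a t 1 3 1 = true :=
  ⟨(a (a (b (b (c (b (b (l 15836328) (l 15951616)) (l 16120336)) (b (l 15871088) (l 16103272))) (b (b (l 16313208) (l 16457584)) (b (l 16597088) (l 16725264)))) (b (a (c (l 16777216) (l 16777216)) (l 16777216)) (c (a (l 16777216) (l 16777216)) (a (l 16777216) (l 16777216))))) (b (b (b (a (l 15828704) (l 15888312)) (c (a (l 16174632) (l 16246368)) (l 16116352))) (b (c (l 16323832) (l 16400296)) (a (l 16600112) (b (l 16719792) (l 16775624))))) (b (l 16777208) (l 16777208)))) (b (a (b (b (a (c (l 16085576) (l 16067616)) (b (l 16122976) (l 16256216))) (c (a (l 16347304) (l 16434896)) (a (l 16336136) (l 16448064)))) (b (b (a (l 16513008) (a (l 16645032) (l 16646584))) (a (l 16604576) (a (l 16753304) (l 16774440)))) (a (l 16706880) (l 16777168)))) (a (b (c (b (a (l 16315648) (l 16431264)) (b (l 16445184) (a (l 16641240) (l 16678824)))) (b (a (l 16303704) (l 16402216)) (a (l 16506656) (l 16566632)))) (b (a (b (c (l 16678656) (l 16720312))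 (l 16742544)) (c (l 16681824) (l 16679352))) (c (l 16723024) (l 16721616)))) (a (b (b (c (l 16544544) (l 16457424)) (b (c (l 16620344) (l 16575616)) (c (l 16579792) (l 16574744)))) (c (l 16571992) (l 16566664))) (b (b (c (l 16491736) (l 16404728)) (b (c (l 16459928) (l 16388968)) (l 16435088))) (c (l 16439472) (l 16409728)))))) (a (b (c (l 16777184) (l 16777184)) (l 16777184)) (a (b (c (l 16681080) (l 16679672)) (c (l 16723024) (l 16721616))) (b (c (l 16441984) (l 16476856)) (a (l 16569328) (l 16435088))))))), by decide +kernel⟩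

theorem s6_pm_202_a : ∃ t, chk3 f_pm_202_a t 3 10 1 = true := ex3_a k2_pm_202_a k3_pm_202_a

theorem s7_pm_202_a : ∃ t, chk3 f_pm_202_a t 3 5 1 = true := ex3_b s6_pm_202_a k4_pm_202_a

theorem s8_pm_202_a : ∃ t, chk3 f_pm_202_a t 3 2 1 = true := ex3_b k1_pm_202_a s7_pm_202_a

theorem s9_pm_202_a : ∃ t, chk3 f_pm_202_a t 1 2 1 = true := ex3_a k0_pm_202_a s8_pm_202_a

theorem s10_pm_202_a : ∃ t, chk3 f_pm_202_a t 1 1 1 = true := ex3_b s9_pm_202_a k5_pm_202_a

theorem c_pm_202_a : CertFX 0 420477299 67108864 469762048 1046898278 26843546 true true false .pp 2 0 2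
    ndF1q2a ndF1q0 pcF2 Cut.none Ext.none :=
  certFX1 (fam := true) (s1 := true) (s2 := false) (a := 2) (b := 0) (c := 2) (cn := .pp) (n1 := ndF1q2a) (n2 := ndF1q0) (pc := pcF2) (cut := Cut.none) (xt := Ext.none) (P1 := 0) (W1 := 420477299) (P2 := 67108864) (W2 := 469762048) (P3 := 1046898278) (W3 := 26843546)
    rfl (fun _ => rfl) s10_pm_202_a

noncomputable def f_pm_202_b : ℕ → ℕ → ℕ → ℕ → Bool := onCell 1073741824 536870912 67108864 469762048 1046898278 26843546
    (rowFX 2 true true false .pp 2 0 2 (qsf 1239849684 370763052 67108864 469762048 2) ndF1q2b ndF1q0 pcF2 Cut.none Ext.none)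

def k0_pm_202_b : ∃ t, chk3 f_pm_202_b t 1 1 1 = true :=
  ⟨(a (a (l 1) (b (a (l 1) (b (b (a (a (l 1) (b (c (l 227664102647) (l 15502360)) (l 1))) (c (b (a (b (a (l 15488648) (l 15423888)) (l 303363035063)) (l 326448154263)) (a (l 1) (l 325375127943))) (b (a (l 315710582119) (l 15472672)) (l 414495577047)))) (l 1)) (l 1))) (l 1))) (b (a (b (b (c (a (b (a (l 15403768) (l 15508624)) (a (l 322153902471) (l 15819184))) (b (l 15508624) (l 15819184))) (a (b (l 15472672) (l 419327503447)) (l 15367160))) (a (a (b (l 395169175063) (l 1)) (b (l 16011960) (l 430602679911))) (a (b (l 16011960) (l 476773583575)) (l 16119824)))) (a (l 1) (b (a (b (l 410202091207) (l 1)) (b (l 16477800) (l 16710816))) (l 1)))) (b (b (a (c (l 15659648) (l 15618816)) (c (l 15659648) (l 15618816))) (a (a (l 16119824) (l 16119824)) (l 16119824))) (a (b (b (l 16477800) (a (l 16710808) (l 16710808))) (a (l 445636376855) (l 479996149687))) (b (l 16533264) (c (l 16777216) (l 16777216)))))) (a (l 1) (b (a (b (a (l 1) (l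 362958126151)) (l 1)) (b (c (l 467111247783) (l 493954793303)) (a (l 1) (l 382285593831)))) (l 1))))), by decide +kernel⟩

theorem c_pm_202_b : CertFX 1239849684 370763052 67108864 469762048 1046898278 26843546 true true false .pp 2 0 2
    ndF1q2b ndF1q0 pcF2 Cut.none Ext.none :=
  certFX2 (fam := true) (s1 := true) (s2 := false) (a := 2) (b := 0) (c := 2) (cn := .pp) (n1 := ndF1q2b) (n2 := ndF1q0) (pc := pcF2) (cut := Cut.none) (xt := Ext.none) (P1 := 1239849684) (W1 := 370763052) (P2 := 67108864) (W2 := 469762048) (P3 := 1046898278) (W3 := 26843546)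
    rfl (fun _ => rfl) k0_pm_202_b

noncomputable def f_pm_203_a : ℕ → ℕ → ℕ → ℕ → Bool := onCell 0 420477299 67108864 469762048 1046898278 26843546
    (rowFX 0 true true false .up 2 0 3 (qsf 0 420477299 67108864 469762048 3) ndF1q2a ndF1q0 pcF3 Cut.none Ext.none)

def k0_pm_203_a : ∃ t, chk3 f_pm_203_a t 1 1 1 = true :=
  ⟨(b (l 1) (b (b (a (l 1) (l 1)) (a (a (c (l 16777216) (l 16777216)) (a (c (l 16777208) (l 16777208)) (l 16777200))) (a (l 107407736695) (l 1)))) (a (a (b (c (l 16777216) (l 16777216)) (c (c (l 16777216) (l 16777216)) (c (l 16777216) (l 16777216)))) (b (c (a (l 16777208) (l 16777200)) (a (l 16777208) (l 16777200))) (c (a (l 16777208) (l 16777200)) (a (l 16777208) (l 16777200))))) (a (b (l 16777184) (a (b (l 16777192) (l 16777192)) (l 16777168))) (a (c (b (l 16723024) (l 16723024)) (b (l 16721616) (l 16721616))) (c (a (l 16571992) (l 16439472)) (a (l 16566664) (l 16430704)))))))), by decide +kernel⟩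

theorem c_pm_203_a : CertFX 0 420477299 67108864 469762048 1046898278 26843546 true true false .up 2 0 3
    ndF1q2a ndF1q0 pcF3 Cut.none Ext.none :=
  certFX0 (fam := true) (s1 := true) (s2 := false) (a := 2) (b := 0) (c := 3) (cn := .up) (n1 := ndF1q2a) (n2 := ndF1q0) (pc := pcF3) (cut := Cut.none) (xt := Ext.none) (P1 := 0) (W1 := 420477299) (P2 := 67108864) (W2 := 469762048) (P3 := 1046898278) (W3 := 26843546)
    rfl k0_pm_203_a

noncomputable def f_pm_203_b : ℕ → ℕ → ℕ → ℕ → Bool := onCell 1610612736 536870912 67108864 469762048 1046898278 26843546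
    (rowFX 2 true true false .up 2 0 3 (qsf 1239849684 370763052 67108864 469762048 3) ndF1q2b ndF1q0 pcF3 Cut.none Ext.none)

def k0_pm_203_b : ∃ t, chk3 f_pm_203_b t 1 1 1 = true :=
  ⟨(a (b (a (a (b (b (c (l 15659648) (l 15618816)) (l 16119824)) (b (l 16543752) (l 16777216))) (b (c (b (l 15659648) (l 16128256)) (b (l 15618816) (l 16111400))) (b (c (l 16598504) (l 16593864)) (l 16777216)))) (a (b (b (l 2) (a (l 16119824) (l 15910112))) (a (b (l 16596184) (l 16777216)) (c (l 16690888) (l 16646704)))) (l 4))) (a (b (a (c (l 455836958647) (a (l 507913437111) (l 16777216))) (c (a (l 16777216) (l 16777216)) (a (l 16777216) (l 16777216)))) (a (b (a (l 1) (c (l 359200157399) (l 417719087399))) (l 1)) (a (b (c (l 16777216) (l 16777216)) (l 1)) (c (l 413424121623) (l 485364823479))))) (a (c (b (a (l 16777216) (l 16777216)) (a (l 439730831319) (l 16777216))) (b (l 16777216) (a (b (l 16777216) (l 511134662583)) (l 16777216)))) (a (a (c (l 16777216) (l 16777216)) (c (l 16777216) (l 16777216)))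 (l 4))))) (l 4)), by decide +kernel⟩

theorem c_pm_203_b : CertFX 1239849684 370763052 67108864 469762048 1046898278 26843546 true true false .up 2 0 3
    ndF1q2b ndF1q0 pcF3 Cut.none Ext.none :=
  certFX2 (fam := true) (s1 := true) (s2 := false) (a := 2) (b := 0) (c := 3) (cn := .up) (n1 := ndF1q2b) (n2 := ndF1q0) (pc := pcF3) (cut := Cut.none) (xt := Ext.none) (P1 := 1239849684) (W1 := 370763052) (P2 := 67108864) (W2 := 469762048) (P3 := 1046898278) (W3 := 26843546)
    rfl (fun _ => rfl) k0_pm_203_b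

noncomputable def f_pm_213_a : ℕ → ℕ → ℕ → ℕ → Bool := onCell 0 420477299 1610612736 536870912 1046898278 26843546
    (rowFX 1 true true false .pnn 2 1 3 (qsf 0 420477299 536870912 536870912 3) ndF1q2a ndF1q1 pcF3 Cut.none Ext.none)

def k0_pm_213_a : ∃ t, chk3 f_pm_213_a t 2 1 1 = true :=
  ⟨(b (b (l 1) (b (c (b (a (l 16777216) (l 16777208)) (a (l 16777216) (l 16777208))) (b (a (l 16777216) (l 16777208)) (a (l 16777216) (l 16777208)))) (b (c (a (l 16777216) (l 16777208)) (a (l 16777216) (l 16777208))) (c (a (b (l 16777216) (l 16777216)) (l 16777208)) (a (b (l 16777216) (l 16777216)) (l 16777208)))))) (b (a (b (b (c (b (l 16777216) (l 16777216)) (b (l 16777216) (a (l 4) (l 16777216)))) (b (c (l 276723400663) (l 271891562423)) (l 4))) (l 4)) (b (b (c (l 16777208) (l 16777208)) (c (b (l 16777208) (l 16777208)) (b (l 16777208) (l 16777208)))) (b (b (c (l 16777208) (l 16777208)) (a (l 4) (b (l 16777208) (l 16777200)))) (b (c (l 301956333479) (l 287997689687)) (l 4))))) (l 4))), by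 decide +kernel⟩

def k1_pm_213_a : ∃ t, chk3 f_pm_213_a t 3 1 1 = true :=
  ⟨(b (b (a (b (l 1) (l 113313316471)) (a (b (l 1) (c (l 16723024) (l 16721616))) (b (l 240550856743) (c (l 16504904) (l 16497824))))) (a (a (b (b (l 16777192) (l 16777192)) (c (l 16777192) (l 16777192))) (b (l 16777168) (b (l 16777168) (l 16777168)))) (a (b (c (l 16723024) (l 16721616)) (c (l 16723024) (l 16721616))) (b (c (l 16504904) (l 16497824)) (l 16459424))))) (b (b (a (b (c (l 16777184) (l 16777184)) (c (l 16777184) (l 16777184))) (a (b (c (l 16723024) (l 16721616)) (c (l 16723040) (l 16721632))) (b (l 16501368) (l 16480416)))) (a (b (c (l 16777176) (l 16777176)) (c (b (l 16777176) (l 16777184)) (b (l 16777176) (l 16777184)))) (b (a (c (l 16723056) (l 16721656)) (c (l 16504952) (l 16497880))) (a (c (l 16723088) (l 16721728)) (c (l 16505824) (l 16499304)))))) (b (a (a (l 4) (b (b (c (l 16776792) (l 16776776)) (c (l 16772904) (l 16772792))) (l 4))) (b (a (b (l 16659448) (c (l 16720136) (l 16719944)))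 (c (l 16337640) (l 16396056))) (b (a (c (l 24393822151) (l 25467563959)) (c (l 16502304) (l 16501136))) (a (b (c (l 16702792) (l 16701488)) (l 4)) (c (b (l 16498544) (l 16395512)) (b (l 16497952) (l 54994891495))))))) (b (a (l 4) (b (a (l 4) (a (l 4) (b (c (l 16453136) (l 16438048)) (c (l 16474888) (l 16451824))))) (l 4))) (l 4))))), by decide +kernel⟩

theorem s2_pm_213_a : ∃ t, chk3 f_pm_213_a t 1 1 1 = true := ex3_a k0_pm_213_a k1_pm_213_a

theorem c_pm_213_a : CertFX 0 420477299 536870912 536870912 1046898278 26843546 true true false .pnn 2 1 3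
    ndF1q2a ndF1q1 pcF3 Cut.none Ext.none :=
  certFX1 (fam := true) (s1 := true) (s2 := false) (a := 2) (b := 1) (c := 3) (cn := .pnn) (n1 := ndF1q2a) (n2 := ndF1q1) (pc := pcF3) (cut := Cut.none) (xt := Ext.none) (P1 := 0) (W1 := 420477299) (P2 := 536870912) (W2 := 536870912) (P3 := 1046898278) (W3 := 26843546)
    rfl (fun _ => rfl) s2_pm_213_a

noncomputable def f_pm_213_b : ℕ → ℕ → ℕ → ℕ → Bool := onCell 1239849684 370763052 1610612736 536870912 1046898278 26843546
    (rowFX 1 true true false .pnn 2 1 3 (qsf 1239849684 370763052 536870912 536870912 3) ndF1q2b ndF1q1 pcF3 Cut.none Ext.none)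

def k0_pm_213_b : ∃ t, chk3 f_pm_213_b t 1 1 1 = true :=
  ⟨(b (b (l 1) (a (b (a (c (b (l 16777216) (l 16777216)) (b (l 16777216) (l 16777216))) (l 1)) (b (c (c (l 16777216) (l 16777216)) (c (l 16777216) (l 16777216))) (a (b (c (l 16777216) (l 16777216)) (l 4)) (l 4)))) (l 1))) (b (l 4) (l 4))), by decide +kernel⟩

theorem c_pm_213_b : CertFX 1239849684 370763052 536870912 536870912 1046898278 26843546 true true false .pnn 2 1 3
    ndF1q2b ndF1q1 pcF3 Cut.none Ext.none :=
  certFX1 (fam := true) (s1 := true) (s2 := false) (a := 2) (b := 1) (c := 3) (cn := .pnn) (n1 := ndF1q2b) (n2 := ndF1q1) (pc := pcF3) (cut := Cut.none) (xt := Ext.none) (P1 := 1239849684) (W1 := 370763052) (P2 := 536870912) (W2 := 536870912) (P3 := 1046898278) (W3 := 26843546)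
    rfl (fun _ => rfl) k0_pm_213_b

noncomputable def f_pm_303 : ℕ → ℕ → ℕ → ℕ → Bool := onCell 1610612736 536870912 67108864 469762048 1046898278 26843546
    (rowFX 2 true true false .npn 3 0 3 (qsf 1610612736 469762048 67108864 469762048 3) ndF1q3 ndF1q0 pcF3 Cut.none Ext.none)

def k0_pm_303 : ∃ t, chk3 f_pm_303 t 1 1 1 = true :=
  ⟨(a (b (a (b (b (a (c (l 15659648) (l 15618816)) (c (l 15659648) (l 15618816))) (a (l 1) (l 125122658839))) (l 1)) (a (b (c (b (l 15554792) (l 16128256)) (b (a (l 15618816) (l 15618816)) (l 16111400))) (a (l 1) (c (l 16690888) (l 16646704)))) (l 4))) (l 1)) (l 4)), by decide +kernel⟩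

theorem c_pm_303 : CertFX 1610612736 469762048 67108864 469762048 1046898278 26843546 true true false .npn 3 0 3
    ndF1q3 ndF1q0 pcF3 Cut.none Ext.none :=
  certFX2 (fam := true) (s1 := true) (s2 := false) (a := 3) (b := 0) (c := 3) (cn := .npn) (n1 := ndF1q3) (n2 := ndF1q0) (pc := pcF3) (cut := Cut.none) (xt := Ext.none) (P1 := 1610612736) (W1 := 469762048) (P2 := 67108864) (W2 := 469762048) (P3 := 1046898278) (W3 := 26843546)
    rfl (fun _ => rfl) k0_pm_303

noncomputable def f_pm_313 : ℕ → ℕ → ℕ → ℕ → Bool := onCell 1610612736 469762048 536870912 536870912 1046898278 26843546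
    (rowFX 0 true true false .dn 3 1 3 (qsf 1610612736 469762048 536870912 536870912 3) ndF1q3 ndF1q1 pcF3 Cut.none Ext.none)

def k0_pm_313 : ∃ t, chk3 f_pm_313 t 1 1 1 = true :=
  ⟨(l 4), by decide +kernel⟩

theorem c_pm_313 : CertFX 1610612736 469762048 536870912 536870912 1046898278 26843546 true true false .dn 3 1 3
    ndF1q3 ndF1q1 pcF3 Cut.none Ext.none :=
  certFX0 (fam := true) (s1 := true) (s2 := false) (a := 3) (b := 1) (c := 3) (cn := .dn) (n1 := ndF1q3) (n2 := ndF1q1) (pc := pcF3) (cut := Cut.none) (xt := Ext.none) (P1 := 1610612736) (W1 := 469762048) (P2 := 536870912) (W2 := 536870912) (P3 := 1046898278) (W3 := 26843546)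
    rfl k0_pm_313

noncomputable def f_mm_001 : ℕ → ℕ → ℕ → ℕ → Bool := onCell 67108864 469762048 67108864 469762048 1046898278 26843546
    (rowFX 0 true false false .up 0 0 1 (qsf 67108864 469762048 67108864 469762048 1) ndF1q0 ndF1q0 pcF1 Cut.none Ext.none)

def k0_mm_001 : ∃ t, chk3 f_mm_001 t 1 1 1 = true :=
  ⟨(l 4), by decide +kernel⟩

theorem c_mm_001 : CertFX 67108864 469762048 67108864 469762048 1046898278 26843546 true false false .up 0 0 1
    ndF1q0 ndF1q0 pcF1 Cut.none Ext.none :=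
  certFX0 (fam := true) (s1 := false) (s2 := false) (a := 0) (b := 0) (c := 1) (cn := .up) (n1 := ndF1q0) (n2 := ndF1q0) (pc := pcF1) (cut := Cut.none) (xt := Ext.none) (P1 := 67108864) (W1 := 469762048) (P2 := 67108864) (W2 := 469762048) (P3 := 1046898278) (W3 := 26843546)
    rfl k0_mm_001

noncomputable def f_mm_011 : ℕ → ℕ → ℕ → ℕ → Bool := onCell 67108864 469762048 536870912 536870912 1046898278 26843546
    (rowFX 0 true false false .pnn 0 1 1 (qsf 67108864 469762048 536870912 536870912 1) ndF1q0 ndF1q1 pcF1 Cut.none Ext.none)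

def k0_mm_011 : ∃ t, chk3 f_mm_011 t 1 1 1 = true :=
  ⟨(l 4), by decide +kernel⟩

theorem c_mm_011 : CertFX 67108864 469762048 536870912 536870912 1046898278 26843546 true false false .pnn 0 1 1
    ndF1q0 ndF1q1 pcF1 Cut.none Ext.none :=
  certFX0 (fam := true) (s1 := false) (s2 := false) (a := 0) (b := 1) (c := 1) (cn := .pnn) (n1 := ndF1q0) (n2 := ndF1q1) (pc := pcF1) (cut := Cut.none) (xt := Ext.none) (P1 := 67108864) (W1 := 469762048) (P2 := 536870912) (W2 := 536870912) (P3 := 1046898278) (W3 := 26843546)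
    rfl k0_mm_011

noncomputable def f_mm_012 : ℕ → ℕ → ℕ → ℕ → Bool := onCell 67108864 469762048 536870912 536870912 1046898278 26843546
    (rowFX 0 true false false .pnp 0 1 2 (qsf 67108864 469762048 536870912 536870912 2) ndF1q0 ndF1q1 pcF2 Cut.none Ext.none)

def k0_mm_012 : ∃ t, chk3 f_mm_012 t 1 1 1 = true :=
  ⟨(l 4), by decide +kernel⟩

theorem c_mm_012 : CertFX 67108864 469762048 536870912 536870912 1046898278 26843546 true false false .pnp 0 1 2
    ndF1q0 ndF1q1 pcF2 Cut.none Ext.none :=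
  certFX0 (fam := true) (s1 := false) (s2 := false) (a := 0) (b := 1) (c := 2) (cn := .pnp) (n1 := ndF1q0) (n2 := ndF1q1) (pc := pcF2) (cut := Cut.none) (xt := Ext.none) (P1 := 67108864) (W1 := 469762048) (P2 := 536870912) (W2 := 536870912) (P3 := 1046898278) (W3 := 26843546)
    rfl k0_mm_012

noncomputable def f_mm_022_a : ℕ → ℕ → ℕ → ℕ → Bool := onCell 67108864 469762048 0 420477299 1046898278 26843546
    (rowFX 0 true false false .pp 0 2 2 (qsf 67108864 469762048 0 420477299 2) ndF1q0 ndF1q2a pcF2 Cut.none Ext.none)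

def k0_mm_022_a : ∃ t, chk3 f_mm_022_a t 1 1 1 = true :=
  ⟨(l 5), by decide +kernel⟩

theorem c_mm_022_a : CertFX 67108864 469762048 0 420477299 1046898278 26843546 true false false .pp 0 2 2
    ndF1q0 ndF1q2a pcF2 Cut.none Ext.none :=
  certFX0 (fam := true) (s1 := false) (s2 := false) (a := 0) (b := 2) (c := 2) (cn := .pp) (n1 := ndF1q0) (n2 := ndF1q2a) (pc := pcF2) (cut := Cut.none) (xt := Ext.none) (P1 := 67108864) (W1 := 469762048) (P2 := 0) (W2 := 420477299) (P3 := 1046898278) (W3 := 26843546)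
    rfl k0_mm_022_a

noncomputable def f_mm_022_b : ℕ → ℕ → ℕ → ℕ → Bool := onCell 67108864 469762048 1239849684 370763052 1046898278 26843546
    (rowFX 0 true false false .pp 0 2 2 (qsf 67108864 469762048 1239849684 370763052 2) ndF1q0 ndF1q2b pcF2 Cut.none Ext.none)

def k0_mm_022_b : ∃ t, chk3 f_mm_022_b t 1 1 1 = true :=
  ⟨(l 5), by decide +kernel⟩

theorem c_mm_022_b : CertFX 67108864 469762048 1239849684 370763052 1046898278 26843546 true false false .pp 0 2 2
    ndF1q0 ndF1q2b pcF2 Cut.none Ext.none :=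
  certFX0 (fam := true) (s1 := false) (s2 := false) (a := 0) (b := 2) (c := 2) (cn := .pp) (n1 := ndF1q0) (n2 := ndF1q2b) (pc := pcF2) (cut := Cut.none) (xt := Ext.none) (P1 := 67108864) (W1 := 469762048) (P2 := 1239849684) (W2 := 370763052) (P3 := 1046898278) (W3 := 26843546)
    rfl k0_mm_022_b

noncomputable def f_mm_023_a : ℕ → ℕ → ℕ → ℕ → Bool := onCell 67108864 469762048 0 420477299 1046898278 26843546
    (rowFX 0 true false false .up 0 2 3 (qsf 67108864 469762048 0 420477299 3) ndF1q0 ndF1q2a pcF3 Cut.none Ext.none)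

def k0_mm_023_a : ∃ t, chk3 f_mm_023_a t 1 1 1 = true :=
  ⟨(l 5), by decide +kernel⟩

theorem c_mm_023_a : CertFX 67108864 469762048 0 420477299 1046898278 26843546 true false false .up 0 2 3
    ndF1q0 ndF1q2a pcF3 Cut.none Ext.none :=
  certFX0 (fam := true) (s1 := false) (s2 := false) (a := 0) (b := 2) (c := 3) (cn := .up) (n1 := ndF1q0) (n2 := ndF1q2a) (pc := pcF3) (cut := Cut.none) (xt := Ext.none) (P1 := 67108864) (W1 := 469762048) (P2 := 0) (W2 := 420477299) (P3 := 1046898278) (W3 := 26843546)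
    rfl k0_mm_023_a

noncomputable def f_mm_023_b : ℕ → ℕ → ℕ → ℕ → Bool := onCell 67108864 469762048 1239849684 370763052 1046898278 26843546
    (rowFX 0 true false false .up 0 2 3 (qsf 67108864 469762048 1239849684 370763052 3) ndF1q0 ndF1q2b pcF3 Cut.none Ext.none)

def k0_mm_023_b : ∃ t, chk3 f_mm_023_b t 1 1 1 = true :=
  ⟨(l 5), by decide +kernel⟩

theorem c_mm_023_b : CertFX 67108864 469762048 1239849684 370763052 1046898278 26843546 true false false .up 0 2 3
    ndF1q0 ndF1q2b pcF3 Cut.none Ext.none :=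
  certFX0 (fam := true) (s1 := false) (s2 := false) (a := 0) (b := 2) (c := 3) (cn := .up) (n1 := ndF1q0) (n2 := ndF1q2b) (pc := pcF3) (cut := Cut.none) (xt := Ext.none) (P1 := 67108864) (W1 := 469762048) (P2 := 1239849684) (W2 := 370763052) (P3 := 1046898278) (W3 := 26843546)
    rfl k0_mm_023_b

noncomputable def f_mm_033 : ℕ → ℕ → ℕ → ℕ → Bool := onCell 67108864 469762048 1610612736 469762048 1046898278 26843546
    (rowFX 0 true false false .pnn 0 3 3 (qsf 67108864 469762048 1610612736 469762048 3) ndF1q0 ndF1q3 pcF3 Cut.none Ext.none)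

def k0_mm_033 : ∃ t, chk3 f_mm_033 t 1 1 1 = true :=
  ⟨(l 5), by decide +kernel⟩

theorem c_mm_033 : CertFX 67108864 469762048 1610612736 469762048 1046898278 26843546 true false false .pnn 0 3 3
    ndF1q0 ndF1q3 pcF3 Cut.none Ext.none :=
  certFX0 (fam := true) (s1 := false) (s2 := false) (a := 0) (b := 3) (c := 3) (cn := .pnn) (n1 := ndF1q0) (n2 := ndF1q3) (pc := pcF3) (cut := Cut.none) (xt := Ext.none) (P1 := 67108864) (W1 := 469762048) (P2 := 1610612736) (W2 := 469762048) (P3 := 1046898278) (W3 := 26843546)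
    rfl k0_mm_033

noncomputable def f_mm_101 : ℕ → ℕ → ℕ → ℕ → Bool := onCell 536870912 536870912 67108864 469762048 1046898278 26843546
    (rowFX 0 true false false .npn 1 0 1 (qsf 536870912 536870912 67108864 469762048 1) ndF1q1 ndF1q0 pcF1 Cut.none Ext.none)

def k0_mm_101 : ∃ t, chk3 f_mm_101 t 1 1 1 = true :=
  ⟨(l 4), by decide +kernel⟩

theorem c_mm_101 : CertFX 536870912 536870912 67108864 469762048 1046898278 26843546 true false false .npn 1 0 1
    ndF1q1 ndF1q0 pcF1 Cut.none Ext.none :=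
  certFX0 (fam := true) (s1 := false) (s2 := false) (a := 1) (b := 0) (c := 1) (cn := .npn) (n1 := ndF1q1) (n2 := ndF1q0) (pc := pcF1) (cut := Cut.none) (xt := Ext.none) (P1 := 536870912) (W1 := 536870912) (P2 := 67108864) (W2 := 469762048) (P3 := 1046898278) (W3 := 26843546)
    rfl k0_mm_101

noncomputable def f_mm_102 : ℕ → ℕ → ℕ → ℕ → Bool := onCell 536870912 536870912 67108864 469762048 1046898278 26843546
    (rowFX 0 true false false .npp 1 0 2 (qsf 536870912 536870912 67108864 469762048 2) ndF1q1 ndF1q0 pcF2 Cut.none Ext.none)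

def k0_mm_102 : ∃ t, chk3 f_mm_102 t 1 1 1 = true :=
  ⟨(l 4), by decide +kernel⟩

theorem c_mm_102 : CertFX 536870912 536870912 67108864 469762048 1046898278 26843546 true false false .npp 1 0 2
    ndF1q1 ndF1q0 pcF2 Cut.none Ext.none :=
  certFX0 (fam := true) (s1 := false) (s2 := false) (a := 1) (b := 0) (c := 2) (cn := .npp) (n1 := ndF1q1) (n2 := ndF1q0) (pc := pcF2) (cut := Cut.none) (xt := Ext.none) (P1 := 536870912) (W1 := 536870912) (P2 := 67108864) (W2 := 469762048) (P3 := 1046898278) (W3 := 26843546)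
    rfl k0_mm_102

noncomputable def f_mm_112 : ℕ → ℕ → ℕ → ℕ → Bool := onCell 536870912 536870912 536870912 536870912 1046898278 26843546
    (rowFX 0 true false false .dn 1 1 2 (qsf 536870912 536870912 536870912 536870912 2) ndF1q1 ndF1q1 pcF2 Cut.none Ext.none)

def k0_mm_112 : ∃ t, chk3 f_mm_112 t 1 1 1 = true :=
  ⟨(l 4), by decide +kernel⟩

theorem c_mm_112 : CertFX 536870912 536870912 536870912 536870912 1046898278 26843546 true false false .dn 1 1 2
    ndF1q1 ndF1q1 pcF2 Cut.none Ext.none :=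
  certFX0 (fam := true) (s1 := false) (s2 := false) (a := 1) (b := 1) (c := 2) (cn := .dn) (n1 := ndF1q1) (n2 := ndF1q1) (pc := pcF2) (cut := Cut.none) (xt := Ext.none) (P1 := 536870912) (W1 := 536870912) (P2 := 536870912) (W2 := 536870912) (P3 := 1046898278) (W3 := 26843546)
    rfl k0_mm_112

noncomputable def f_mm_113 : ℕ → ℕ → ℕ → ℕ → Bool := onCell 536870912 536870912 536870912 536870912 1046898278 26843546
    (rowFX 0 true false false .nn 1 1 3 (qsf 536870912 536870912 536870912 536870912 3) ndF1q1 ndF1q1 pcF3 Cut.none Ext.none)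

def k0_mm_113 : ∃ t, chk3 f_mm_113 t 1 1 1 = true :=
  ⟨(l 4), by decide +kernel⟩

theorem c_mm_113 : CertFX 536870912 536870912 536870912 536870912 1046898278 26843546 true false false .nn 1 1 3
    ndF1q1 ndF1q1 pcF3 Cut.none Ext.none :=
  certFX0 (fam := true) (s1 := false) (s2 := false) (a := 1) (b := 1) (c := 3) (cn := .nn) (n1 := ndF1q1) (n2 := ndF1q1) (pc := pcF3) (cut := Cut.none) (xt := Ext.none) (P1 := 536870912) (W1 := 536870912) (P2 := 536870912) (W2 := 536870912) (P3 := 1046898278) (W3 := 26843546)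
    rfl k0_mm_113

noncomputable def f_mm_123_a : ℕ → ℕ → ℕ → ℕ → Bool := onCell 536870912 536870912 0 420477299 1046898278 26843546
    (rowFX 0 true false false .npn 1 2 3 (qsf 536870912 536870912 0 420477299 3) ndF1q1 ndF1q2a pcF3 Cut.none Ext.none)

def k0_mm_123_a : ∃ t, chk3 f_mm_123_a t 1 1 1 = true :=
  ⟨(l 4), by decide +kernel⟩

theorem c_mm_123_a : CertFX 536870912 536870912 0 420477299 1046898278 26843546 true false false .npn 1 2 3
    ndF1q1 ndF1q2a pcF3 Cut.none Ext.none :=
  certFX0 (fam := true) (s1 := false) (s2 := false) (a := 1) (b := 2) (c := 3) (cn := .npn) (n1 := ndF1q1) (n2 := ndF1q2a) (pc := pcF3) (cut := Cut.none) (xt := Ext.none) (P1 := 536870912) (W1 := 536870912) (P2 := 0) (W2 := 420477299) (P3 := 1046898278) (W3 := 26843546)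
    rfl k0_mm_123_a

noncomputable def f_mm_123_b : ℕ → ℕ → ℕ → ℕ → Bool := onCell 536870912 536870912 1239849684 370763052 1046898278 26843546
    (rowFX 0 true false false .npn 1 2 3 (qsf 536870912 536870912 1239849684 370763052 3) ndF1q1 ndF1q2b pcF3 Cut.none Ext.none)

def k0_mm_123_b : ∃ t, chk3 f_mm_123_b t 1 1 1 = true :=
  ⟨(l 5), by decide +kernel⟩

theorem c_mm_123_b : CertFX 536870912 536870912 1239849684 370763052 1046898278 26843546 true false false .npn 1 2 3
    ndF1q1 ndF1q2b pcF3 Cut.none Ext.none :=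
  certFX0 (fam := true) (s1 := false) (s2 := false) (a := 1) (b := 2) (c := 3) (cn := .npn) (n1 := ndF1q1) (n2 := ndF1q2b) (pc := pcF3) (cut := Cut.none) (xt := Ext.none) (P1 := 536870912) (W1 := 536870912) (P2 := 1239849684) (W2 := 370763052) (P3 := 1046898278) (W3 := 26843546)
    rfl k0_mm_123_b

noncomputable def f_mm_133 : ℕ → ℕ → ℕ → ℕ → Bool := onCell 536870912 536870912 1610612736 469762048 1046898278 26843546
    (rowFX 0 true false false .dn 1 3 3 (qsf 536870912 536870912 1610612736 469762048 3) ndF1q1 ndF1q3 pcF3 Cut.none Ext.none)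

def k0_mm_133 : ∃ t, chk3 f_mm_133 t 1 1 1 = true :=
  ⟨(l 4), by decide +kernel⟩

theorem c_mm_133 : CertFX 536870912 536870912 1610612736 469762048 1046898278 26843546 true false false .dn 1 3 3
    ndF1q1 ndF1q3 pcF3 Cut.none Ext.none :=
  certFX0 (fam := true) (s1 := false) (s2 := false) (a := 1) (b := 3) (c := 3) (cn := .dn) (n1 := ndF1q1) (n2 := ndF1q3) (pc := pcF3) (cut := Cut.none) (xt := Ext.none) (P1 := 536870912) (W1 := 536870912) (P2 := 1610612736) (W2 := 469762048) (P3 := 1046898278) (W3 := 26843546)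
    rfl k0_mm_133

noncomputable def f_mm_202_a : ℕ → ℕ → ℕ → ℕ → Bool := onCell 0 420477299 1073741824 536870912 1046898278 26843546
    (rowFX 1 true false false .pp 2 0 2 (qsf 0 420477299 67108864 469762048 2) ndF1q2a ndF1q0 pcF2 Cut.none Ext.none)

def k0_mm_202_a : ∃ t, chk3 f_mm_202_a t 2 2 1 = true :=
  ⟨(b (l 1) (b (l 1) (b (b (a (l 1) (c (a (l 1) (l 15996368)) (l 16004864))) (a (c (a (l 15658064) (l 15766672)) (l 15697984)) (c (a (l 15908472) (l 16094144)) (l 15906800)))) (a (c (b (l 15755760) (l 15938488)) (b (l 15751504) (l 15917552))) (c (b (l 15850688) (l 16085568)) (a (l 16034760) (l 16015816))))))), by decide +kernel⟩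

def k1_mm_202_a : ∃ t, chk3 f_mm_202_a t 3 4 1 = true :=
  ⟨(b (l 1) (a (l 1) (b (l 1) (b (l 1) (b (l 1) (a (l 1) (a (l 1) (a (l 1) (c (c (l 16660440) (l 16647784)) (l 16646808)))))))))), by decide +kernel⟩

def k2_mm_202_a : ∃ t, chk3 f_mm_202_a t 3 10 1 = true :=
  ⟨(a (b (l 1) (a (a (l 1) (b (l 1) (c (l 16229720) (l 16316040)))) (c (a (b (l 1) (c (l 16395760) (l 16420024))) (b (c (l 16468744) (l 16534520)) (b (l 16527152) (l 16547608)))) (b (l 16448456) (a (l 16415912) (l 16511136)))))) (a (a (b (l 1) (c (b (c (b (l 16529960) (l 16625576)) (l 16617512)) (l 16584896)) (b (l 16554456) (l 16626584)))) (b (b (l 1) (c (c (b (l 16561488) (l 16564664)) (l 16541248)) (l 16539960))) (c (b (b (l 16619040) (l 16625280)) (c (l 16617568) (l 16616688))) (b (b (l 16619360) (l 16624464)) (c (l 16615784) (l 16614880)))))) (a (b (b (b (l 1) (c (c (b (l 16566824) (a (l 1) (l 16602496))) (l 16578000)) (l 16555656))) (c (b (c (l 16622192) (l 16619032)) (l 16631792)) (b (l 16617912) (l 16630744))))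 (c (b (c (l 16620856) (l 16620112)) (c (l 62511504599) (l 56069055607))) (b (c (l 16619336) (l 16618552)) (a (b (l 16626512) (l 16627032)) (l 4))))) (b (b (c (b (c (a (l 16641624) (l 16667456)) (l 16626488)) (a (c (l 16647600) (l 16624808)) (c (l 16652056) (l 16651584)))) (b (a (l 16631120) (l 16642992)) (a (l 16602880) (b (l 16670392) (l 16631176))))) (c (c (l 59827233911) (l 72712138855)) (c (l 64659073847) (l 56069136631)))) (a (a (b (c (l 16620584) (l 16660968)) (l 4)) (l 4)) (l 4)))))), by decide +kernel⟩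

def k3_mm_202_a : ∃ t, chk3 f_mm_202_a t 3 11 1 = true :=
  ⟨(a (b (c (a (b (a (l 16220744) (l 16330360)) (l 16318184)) (b (a (l 16453544) (l 16583528)) (a (l 16500968) (l 16619848)))) (a (b (l 16268152) (l 16308560)) (b (l 16473632) (l 16491856)))) (c (a (b (l 16272328) (l 16424528)) (b (a (l 16531600) (l 16630768)) (l 16594000))) (a (b (l 16326896) (l 16417144)) (b (a (l 16527520) (l 16629448)) (l 16591256))))) (a (a (b (c (b (c (l 16618400) (l 16617720)) (a (l 16635056) (l 16625592))) (b (a (l 16624768) (l 16605792)) (a (l 16633912) (l 16623776)))) (c (b (b (l 51774118039) (l 16666288)) (l 81839007799)) (b (c (l 16596064) (l 16595608)) (l 90965799879)))) (b (c (b (c (l 16580416) (l 16579320)) (l 65732756231)) (b (b (l 74859531639) (l 16623952)) (l 33520494551))) (l 4))) (l 4))), by decide +kernel⟩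

def k4_mm_202_a : ∃ t, chk3 f_mm_202_a t 1 3 1 = true :=
  ⟨(b (a (b (b (c (a (l 16014688) (a (l 16221920) (l 16330112))) (a (l 16081688) (l 16160616))) (a (c (l 16228536) (l 16214648)) (c (a (l 16317192) (l 16412080)) (a (l 16305704) (l 16361160))))) (b (a (c (l 16340072) (l 16330384)) (c (b (l 16454120) (l 16539544)) (b (l 16445816) (l 16533912)))) (a (c (b (l 16599400) (l 16725928)) (b (l 16594784) (l 16724600))) (c (a (b (l 16657600) (l 16758840)) (b (l 16699544) (l 16775632))) (a (b (l 16654496) (l 16758368)) (b (l 16666616) (l 16775592))))))) (a (a (b (b (c (l 16399264) (l 16329424)) (c (b (l 16511848) (l 16556928)) (b (l 16505680) (l 16551584)))) (b (b (c (l 16575328) (l 13656067815)) (a (c (l 16664656) (l 16661728)) (l 4))) (l 4))) (b (a (b (c (b (l 16562288) (l 16585424)) (b (l 16558272) (l 16581616))) (b (c (l 16621312) (l 16618048)) (l 4))) (b (b (c (l 16640936) (l 16639056)) (l 4)) (l 4))) (l 4))) (l 4))) (a (b (c (c (a (l 16777152) (b (l 16777208) (l 137136963527)))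 (a (l 16777152) (b (l 16777208) (l 129620770727)))) (c (a (l 16777144) (b (l 16777208) (l 122104577959))) (a (l 16777144) (b (l 80765517655) (l 113514643287))))) (a (c (b (l 16777216) (a (l 16777216) (l 175254798295))) (b (l 16777216) (a (l 16777216) (l 152169348967)))) (l 4))) (l 4))), by decide +kernel⟩

theorem s5_mm_202_a : ∃ t, chk3 f_mm_202_a t 3 5 1 = true := ex3_b k2_mm_202_a k3_mm_202_a

theorem s6_mm_202_a : ∃ t, chk3 f_mm_202_a t 3 2 1 = true := ex3_b k1_mm_202_a s5_mm_202_a

theorem s7_mm_202_a : ∃ t, chk3 f_mm_202_a t 1 2 1 = true := ex3_a k0_mm_202_a s6_mm_202_a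

theorem s8_mm_202_a : ∃ t, chk3 f_mm_202_a t 1 1 1 = true := ex3_b s7_mm_202_a k4_mm_202_a

theorem c_mm_202_a : CertFX 0 420477299 67108864 469762048 1046898278 26843546 true false false .pp 2 0 2
    ndF1q2a ndF1q0 pcF2 Cut.none Ext.none :=
  certFX1 (fam := true) (s1 := false) (s2 := false) (a := 2) (b := 0) (c := 2) (cn := .pp) (n1 := ndF1q2a) (n2 := ndF1q0) (pc := pcF2) (cut := Cut.none) (xt := Ext.none) (P1 := 0) (W1 := 420477299) (P2 := 67108864) (W2 := 469762048) (P3 := 1046898278) (W3 := 26843546)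
    rfl (fun _ => rfl) s8_mm_202_a

noncomputable def f_mm_202_b : ℕ → ℕ → ℕ → ℕ → Bool := onCell 1073741824 536870912 67108864 469762048 1046898278 26843546
    (rowFX 2 true false false .pp 2 0 2 (qsf 1239849684 370763052 67108864 469762048 2) ndF1q2b ndF1q0 pcF2 Cut.none Ext.none)

def k0_mm_202_b : ∃ t, chk3 f_mm_202_b t 1 1 1 = true :=
  ⟨(a (a (l 1) (b (b (a (l 1) (b (a (b (c (b (l 376914651815) (l 1)) (l 358124299623)) (l 1)) (c (b (b (l 15623864) (l 15800936)) (l 446171372583)) (b (l 15681472) (l 448318839671)))) (l 1))) (l 1)) (l 1))) (b (a (b (b (b (a (c (a (l 15656608) (l 15587152)) (l 15465528)) (c (l 15324480) (l 15477424))) (a (c (a (l 15973936) (l 15901016)) (l 253434445079)) (c (a (l 15828264) (l 15819184)) (l 15799200)))) (a (a (b (l 431676313239) (l 1)) (c (l 316785762375) (l 371009695783))) (a (c (l 232496877031) (l 15932408)) (c (l 16128256) (l 16111400))))) (a (l 1) (b (a (b (c (l 16428472) (l 16379136)) (l 1)) (b (c (l 16481640) (l 16473960)) (c (l 16711664)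 (l 16709960)))) (l 1)))) (b (c (b (a (b (l 15508624) (l 15819184)) (l 15659648)) (a (a (l 16128256) (l 16128256)) (l 16128256))) (a (b (l 15597848) (l 15943624)) (b (l 15618816) (l 16111400)))) (a (a (b (c (l 16535592) (l 16572888)) (c (l 476774889767) (l 480532986439))) (b (c (l 16598504) (l 16593864)) (c (l 16777216) (l 16777216)))) (b (c (l 16598504) (l 16593864)) (c (l 16777216) (l 16777216)))))) (a (l 1) (b (a (a (l 1) (b (c (l 550863084631) (l 551936825783)) (l 1))) (b (c (a (l 445636411303) (l 16777216)) (a (l 454226345895) (l 16777216))) (a (l 1) (c (l 479459265127) (l 490196683015))))) (l 1))))), by decide +kernel⟩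

theorem c_mm_202_b : CertFX 1239849684 370763052 67108864 469762048 1046898278 26843546 true false false .pp 2 0 2
    ndF1q2b ndF1q0 pcF2 Cut.none Ext.none :=
  certFX2 (fam := true) (s1 := false) (s2 := false) (a := 2) (b := 0) (c := 2) (cn := .pp) (n1 := ndF1q2b) (n2 := ndF1q0) (pc := pcF2) (cut := Cut.none) (xt := Ext.none) (P1 := 1239849684) (W1 := 370763052) (P2 := 67108864) (W2 := 469762048) (P3 := 1046898278) (W3 := 26843546)
    rfl (fun _ => rfl) k0_mm_202_b

noncomputable def f_mm_203_a : ℕ → ℕ → ℕ → ℕ → Bool := onCell 0 420477299 1610612736 536870912 1046898278 26843546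
    (rowFX 1 true false false .up 2 0 3 (qsf 0 420477299 67108864 469762048 3) ndF1q2a ndF1q0 pcF3 Cut.none Ext.none)

def k0_mm_203_a : ∃ t, chk3 f_mm_203_a t 1 1 1 = true :=
  ⟨(b (a (b (b (a (a (b (c (l 16777216) (l 16777216)) (l 4)) (l 4)) (l 4)) (l 4)) (l 4)) (l 4)) (l 2)), by decide +kernel⟩

theorem c_mm_203_a : CertFX 0 420477299 67108864 469762048 1046898278 26843546 true false false .up 2 0 3
    ndF1q2a ndF1q0 pcF3 Cut.none Ext.none :=
  certFX1 (fam := true) (s1 := false) (s2 := false) (a := 2) (b := 0) (c := 3) (cn := .up) (n1 := ndF1q2a) (n2 := ndF1q0) (pc := pcF3) (cut := Cut.none) (xt := Ext.none) (P1 := 0) (W1 := 420477299) (P2 := 67108864) (W2 := 469762048) (P3 := 1046898278) (W3 := 26843546)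
    rfl (fun _ => rfl) k0_mm_203_a

noncomputable def f_mm_203_b : ℕ → ℕ → ℕ → ℕ → Bool := onCell 1610612736 536870912 67108864 469762048 1046898278 26843546
    (rowFX 2 true false false .up 2 0 3 (qsf 1239849684 370763052 67108864 469762048 3) ndF1q2b ndF1q0 pcF3 Cut.none Ext.none)

def k0_mm_203_b : ∃ t, chk3 f_mm_203_b t 1 1 1 = true :=
  ⟨(a (a (a (b (b (c (b (l 15659648) (l 16128256)) (b (l 15618816) (l 16111400))) (a (b (c (l 16598504) (l 16593864)) (c (l 16777216) (l 16777216))) (l 4))) (b (a (c (b (l 16777216) (l 397854900135)) (b (l 16777216) (l 412887285671))) (l 4)) (a (l 1) (b (b (l 4) (l 1)) (l 1))))) (l 4)) (l 4)) (l 4)), by decide +kernel⟩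

theorem c_mm_203_b : CertFX 1239849684 370763052 67108864 469762048 1046898278 26843546 true false false .up 2 0 3
    ndF1q2b ndF1q0 pcF3 Cut.none Ext.none :=
  certFX2 (fam := true) (s1 := false) (s2 := false) (a := 2) (b := 0) (c := 3) (cn := .up) (n1 := ndF1q2b) (n2 := ndF1q0) (pc := pcF3) (cut := Cut.none) (xt := Ext.none) (P1 := 1239849684) (W1 := 370763052) (P2 := 67108864) (W2 := 469762048) (P3 := 1046898278) (W3 := 26843546)
    rfl (fun _ => rfl) k0_mm_203_b

noncomputable def f_mm_213_a : ℕ → ℕ → ℕ → ℕ → Bool := onCell 0 420477299 536870912 536870912 1046898278 26843546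
    (rowFX 0 true false false .pnn 2 1 3 (qsf 0 420477299 536870912 536870912 3) ndF1q2a ndF1q1 pcF3 Cut.none Ext.none)

def k0_mm_213_a : ∃ t, chk3 f_mm_213_a t 1 1 1 = true :=
  ⟨(l 4), by decide +kernel⟩

theorem c_mm_213_a : CertFX 0 420477299 536870912 536870912 1046898278 26843546 true false false .pnn 2 1 3
    ndF1q2a ndF1q1 pcF3 Cut.none Ext.none :=
  certFX0 (fam := true) (s1 := false) (s2 := false) (a := 2) (b := 1) (c := 3) (cn := .pnn) (n1 := ndF1q2a) (n2 := ndF1q1) (pc := pcF3) (cut := Cut.none) (xt := Ext.none) (P1 := 0) (W1 := 420477299) (P2 := 536870912) (W2 := 536870912) (P3 := 1046898278) (W3 := 26843546)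
    rfl k0_mm_213_a

noncomputable def f_mm_213_b : ℕ → ℕ → ℕ → ℕ → Bool := onCell 1239849684 370763052 536870912 536870912 1046898278 26843546
    (rowFX 0 true false false .pnn 2 1 3 (qsf 1239849684 370763052 536870912 536870912 3) ndF1q2b ndF1q1 pcF3 Cut.none Ext.none)

def k0_mm_213_b : ∃ t, chk3 f_mm_213_b t 1 1 1 = true :=
  ⟨(b (l 4) (l 4)), by decide +kernel⟩

theorem c_mm_213_b : CertFX 1239849684 370763052 536870912 536870912 1046898278 26843546 true false false .pnn 2 1 3
    ndF1q2b ndF1q1 pcF3 Cut.none Ext.none :=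
  certFX0 (fam := true) (s1 := false) (s2 := false) (a := 2) (b := 1) (c := 3) (cn := .pnn) (n1 := ndF1q2b) (n2 := ndF1q1) (pc := pcF3) (cut := Cut.none) (xt := Ext.none) (P1 := 1239849684) (W1 := 370763052) (P2 := 536870912) (W2 := 536870912) (P3 := 1046898278) (W3 := 26843546)
    rfl k0_mm_213_b

noncomputable def f_mm_303 : ℕ → ℕ → ℕ → ℕ → Bool := onCell 1610612736 469762048 67108864 469762048 1046898278 26843546
    (rowFX 0 true false false .npn 3 0 3 (qsf 1610612736 469762048 67108864 469762048 3) ndF1q3 ndF1q0 pcF3 Cut.none Ext.none)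

def k0_mm_303 : ∃ t, chk3 f_mm_303 t 1 1 1 = true :=
  ⟨(a (b (b (l 4) (l 4)) (l 4)) (l 4)), by decide +kernel⟩

theorem c_mm_303 : CertFX 1610612736 469762048 67108864 469762048 1046898278 26843546 true false false .npn 3 0 3
    ndF1q3 ndF1q0 pcF3 Cut.none Ext.none :=
  certFX0 (fam := true) (s1 := false) (s2 := false) (a := 3) (b := 0) (c := 3) (cn := .npn) (n1 := ndF1q3) (n2 := ndF1q0) (pc := pcF3) (cut := Cut.none) (xt := Ext.none) (P1 := 1610612736) (W1 := 469762048) (P2 := 67108864) (W2 := 469762048) (P3 := 1046898278) (W3 := 26843546)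
    rfl k0_mm_303

noncomputable def f_mm_313 : ℕ → ℕ → ℕ → ℕ → Bool := onCell 1610612736 469762048 536870912 536870912 1046898278 26843546
    (rowFX 0 true false false .dn 3 1 3 (qsf 1610612736 469762048 536870912 536870912 3) ndF1q3 ndF1q1 pcF3 Cut.none Ext.none)

def k0_mm_313 : ∃ t, chk3 f_mm_313 t 1 1 1 = true :=
  ⟨(l 4), by decide +kernel⟩

theorem c_mm_313 : CertFX 1610612736 469762048 536870912 536870912 1046898278 26843546 true false false .dn 3 1 3
    ndF1q3 ndF1q1 pcF3 Cut.none Ext.none :=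
  certFX0 (fam := true) (s1 := false) (s2 := false) (a := 3) (b := 1) (c := 3) (cn := .dn) (n1 := ndF1q3) (n2 := ndF1q1) (pc := pcF3) (cut := Cut.none) (xt := Ext.none) (P1 := 1610612736) (W1 := 469762048) (P2 := 536870912) (W2 := 536870912) (P3 := 1046898278) (W3 := 26843546)
    rfl k0_mm_313

end Pool.Agent.Strip051.G.IE1.Tab.C.FA11

namespace Pool.Agent.Strip051.G.IE1.Tab.C.FA12

open Pool.Agent.Strip051.PB Pool.Agent.Strip051.PB.T
open Pool.Agent.Strip051.G.IE1.Tab

noncomputable def f_pp_001 : ℕ → ℕ → ℕ → ℕ → Bool := onCell 67108864 469762048 67108864 469762048 1046898278 26843546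
    (rowFX 0 true true true .up 0 0 1 (qsf 67108864 469762048 67108864 469762048 1) ndF1q0 ndF2q0 pcF1 Cut.none Ext.none)

def k0_pp_001 : ∃ t, chk3 f_pp_001 t 1 1 1 = true :=
  ⟨(l 4), by decide +kernel⟩

theorem c_pp_001 : CertFX 67108864 469762048 67108864 469762048 1046898278 26843546 true true true .up 0 0 1
    ndF1q0 ndF2q0 pcF1 Cut.none Ext.none :=
  certFX0 (fam := true) (s1 := true) (s2 := true) (a := 0) (b := 0) (c := 1) (cn := .up) (n1 := ndF1q0) (n2 := ndF2q0) (pc := pcF1) (cut := Cut.none) (xt := Ext.none) (P1 := 67108864) (W1 := 469762048) (P2 := 67108864) (W2 := 469762048) (P3 := 1046898278) (W3 := 26843546)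
    rfl k0_pp_001

noncomputable def f_pp_011 : ℕ → ℕ → ℕ → ℕ → Bool := onCell 67108864 469762048 536870912 536870912 1046898278 26843546
    (rowFX 0 true true true .pnn 0 1 1 (qsf 67108864 469762048 536870912 536870912 1) ndF1q0 ndF2q1 pcF1 Cut.none Ext.none)

def k0_pp_011 : ∃ t, chk3 f_pp_011 t 1 1 1 = true :=
  ⟨(l 4), by decide +kernel⟩

theorem c_pp_011 : CertFX 67108864 469762048 536870912 536870912 1046898278 26843546 true true true .pnn 0 1 1
    ndF1q0 ndF2q1 pcF1 Cut.none Ext.none :=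
  certFX0 (fam := true) (s1 := true) (s2 := true) (a := 0) (b := 1) (c := 1) (cn := .pnn) (n1 := ndF1q0) (n2 := ndF2q1) (pc := pcF1) (cut := Cut.none) (xt := Ext.none) (P1 := 67108864) (W1 := 469762048) (P2 := 536870912) (W2 := 536870912) (P3 := 1046898278) (W3 := 26843546)
    rfl k0_pp_011

noncomputable def f_pp_012 : ℕ → ℕ → ℕ → ℕ → Bool := onCell 67108864 469762048 536870912 536870912 1046898278 26843546
    (rowFX 0 true true true .pnp 0 1 2 (qsf 67108864 469762048 536870912 536870912 2) ndF1q0 ndF2q1 pcF2 Cut.none Ext.none)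

def k0_pp_012 : ∃ t, chk3 f_pp_012 t 1 1 1 = true :=
  ⟨(l 4), by decide +kernel⟩

theorem c_pp_012 : CertFX 67108864 469762048 536870912 536870912 1046898278 26843546 true true true .pnp 0 1 2
    ndF1q0 ndF2q1 pcF2 Cut.none Ext.none :=
  certFX0 (fam := true) (s1 := true) (s2 := true) (a := 0) (b := 1) (c := 2) (cn := .pnp) (n1 := ndF1q0) (n2 := ndF2q1) (pc := pcF2) (cut := Cut.none) (xt := Ext.none) (P1 := 67108864) (W1 := 469762048) (P2 := 536870912) (W2 := 536870912) (P3 := 1046898278) (W3 := 26843546)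
    rfl k0_pp_012

noncomputable def f_pp_022_a : ℕ → ℕ → ℕ → ℕ → Bool := onCell 67108864 469762048 0 420477299 1046898278 26843546
    (rowFX 0 true true true .pp 0 2 2 (qsf 67108864 469762048 0 420477299 2) ndF1q0 ndF2q2a pcF2 Cut.none Ext.none)

def k0_pp_022_a : ∃ t, chk3 f_pp_022_a t 1 1 1 = true :=
  ⟨(a (a (b (a (b (a (a (b (c (l 16137256) (l 16122400)) (c (a (l 16184744) (l 16224824)) (a (l 16172600) (l 16213768)))) (c (l 16259864) (l 16249456))) (c (b (l 16328000) (l 16331272)) (b (l 16318888) (l 16365528)))) (b (a (a (c (a (l 16250440) (l 16203744)) (a (l 16240144) (l 16215416))) (c (l 16321856) (l 16334824))) (c (l 87207055351) (l 16338640))) (a (a (c (l 16313584) (l 16303560)) (a (a (c (l 16354280) (l 16346416)) (l 4)) (l 4))) (l 4)))) (a (b (b (c (l 16346576) (l 16337056)) (l 4)) (l 4)) (l 4))) (b (a (l 4) (l 4)) (l 4))) (l 4)) (l 4)), by decide +kernel⟩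

theorem c_pp_022_a : CertFX 67108864 469762048 0 420477299 1046898278 26843546 true true true .pp 0 2 2
    ndF1q0 ndF2q2a pcF2 Cut.none Ext.none :=
  certFX0 (fam := true) (s1 := true) (s2 := true) (a := 0) (b := 2) (c := 2) (cn := .pp) (n1 := ndF1q0) (n2 := ndF2q2a) (pc := pcF2) (cut := Cut.none) (xt := Ext.none) (P1 := 67108864) (W1 := 469762048) (P2 := 0) (W2 := 420477299) (P3 := 1046898278) (W3 := 26843546)
    rfl k0_pp_022_a

noncomputable def f_pp_022_b : ℕ → ℕ → ℕ → ℕ → Bool := onCell 67108864 469762048 1239849684 370763052 1046898278 26843546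
    (rowFX 0 true true true .pp 0 2 2 (qsf 67108864 469762048 1239849684 370763052 2) ndF1q0 ndF2q2b pcF2 Cut.none Ext.none)

def k0_pp_022_b : ∃ t, chk3 f_pp_022_b t 1 1 1 = true :=
  ⟨(a (b (a (b (a (b (a (c (a (b (l 16036856) (l 15888704)) (l 16055696)) (b (a (l 16019080) (l 16116864)) (l 15911312))) (c (b (l 16232248) (a (l 16061568) (l 16090096))) (b (l 16220232) (a (l 16044656) (l 16073456))))) (b (a (c (l 15635480) (l 15734208)) (c (a (l 15904536) (l 15941400)) (a (l 15882704) (l 15920088)))) (a (c (a (l 15594568) (l 15680952)) (a (l 15563344) (l 15652800))) (l 4)))) (b (a (a (c (b (l 16256112) (l 16095656)) (b (l 16244056) (l 16078656))) (b (c (l 16257592) (l 16245104)) (l 4))) (l 4)) (l 4))) (a (b (b (a (a (c (l 15470368) (l 15435064)) (l 4)) (l 4)) (l 4)) (l 4)) (l 4))) (l 4)) (l 4)) (l 4)), by decide +kernel⟩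

theorem c_pp_022_b : CertFX 67108864 469762048 1239849684 370763052 1046898278 26843546 true true true .pp 0 2 2
    ndF1q0 ndF2q2b pcF2 Cut.none Ext.none :=
  certFX0 (fam := true) (s1 := true) (s2 := true) (a := 0) (b := 2) (c := 2) (cn := .pp) (n1 := ndF1q0) (n2 := ndF2q2b) (pc := pcF2) (cut := Cut.none) (xt := Ext.none) (P1 := 67108864) (W1 := 469762048) (P2 := 1239849684) (W2 := 370763052) (P3 := 1046898278) (W3 := 26843546)
    rfl k0_pp_022_b

noncomputable def f_pp_023_a : ℕ → ℕ → ℕ → ℕ → Bool := onCell 1610612736 536870912 0 420477299 1046898278 26843546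
    (rowFX 2 true true true .up 0 2 3 (qsf 67108864 469762048 0 420477299 3) ndF1q0 ndF2q2a pcF3 Cut.none Ext.none)

def k0_pp_023_a : ∃ t, chk3 f_pp_023_a t 1 1 1 = true :=
  ⟨(l 4), by decide +kernel⟩

theorem c_pp_023_a : CertFX 67108864 469762048 0 420477299 1046898278 26843546 true true true .up 0 2 3
    ndF1q0 ndF2q2a pcF3 Cut.none Ext.none :=
  certFX2 (fam := true) (s1 := true) (s2 := true) (a := 0) (b := 2) (c := 3) (cn := .up) (n1 := ndF1q0) (n2 := ndF2q2a) (pc := pcF3) (cut := Cut.none) (xt := Ext.none) (P1 := 67108864) (W1 := 469762048) (P2 := 0) (W2 := 420477299) (P3 := 1046898278) (W3 := 26843546)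
    rfl (fun _ => rfl) k0_pp_023_a

noncomputable def f_pp_023_b : ℕ → ℕ → ℕ → ℕ → Bool := onCell 1610612736 536870912 1239849684 370763052 1046898278 26843546
    (rowFX 2 true true true .up 0 2 3 (qsf 67108864 469762048 1239849684 370763052 3) ndF1q0 ndF2q2b pcF3 Cut.none Ext.none)

def k0_pp_023_b : ∃ t, chk3 f_pp_023_b t 1 1 1 = true :=
  ⟨(l 4), by decide +kernel⟩

theorem c_pp_023_b : CertFX 67108864 469762048 1239849684 370763052 1046898278 26843546 true true true .up 0 2 3
    ndF1q0 ndF2q2b pcF3 Cut.none Ext.none :=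
  certFX2 (fam := true) (s1 := true) (s2 := true) (a := 0) (b := 2) (c := 3) (cn := .up) (n1 := ndF1q0) (n2 := ndF2q2b) (pc := pcF3) (cut := Cut.none) (xt := Ext.none) (P1 := 67108864) (W1 := 469762048) (P2 := 1239849684) (W2 := 370763052) (P3 := 1046898278) (W3 := 26843546)
    rfl (fun _ => rfl) k0_pp_023_b

noncomputable def f_pp_033 : ℕ → ℕ → ℕ → ℕ → Bool := onCell 67108864 469762048 1610612736 469762048 1046898278 26843546
    (rowFX 0 true true true .pnn 0 3 3 (qsf 67108864 469762048 1610612736 469762048 3) ndF1q0 ndF2q3 pcF3 Cut.none Ext.none)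

def k0_pp_033 : ∃ t, chk3 f_pp_033 t 1 1 1 = true :=
  ⟨(l 4), by decide +kernel⟩

theorem c_pp_033 : CertFX 67108864 469762048 1610612736 469762048 1046898278 26843546 true true true .pnn 0 3 3
    ndF1q0 ndF2q3 pcF3 Cut.none Ext.none :=
  certFX0 (fam := true) (s1 := true) (s2 := true) (a := 0) (b := 3) (c := 3) (cn := .pnn) (n1 := ndF1q0) (n2 := ndF2q3) (pc := pcF3) (cut := Cut.none) (xt := Ext.none) (P1 := 67108864) (W1 := 469762048) (P2 := 1610612736) (W2 := 469762048) (P3 := 1046898278) (W3 := 26843546)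
    rfl k0_pp_033

noncomputable def f_pp_101 : ℕ → ℕ → ℕ → ℕ → Bool := onCell 536870912 536870912 67108864 469762048 1046898278 26843546
    (rowFX 0 true true true .npn 1 0 1 (qsf 536870912 536870912 67108864 469762048 1) ndF1q1 ndF2q0 pcF1 Cut.none Ext.none)

def k0_pp_101 : ∃ t, chk3 f_pp_101 t 1 1 1 = true :=
  ⟨(l 4), by decide +kernel⟩

theorem c_pp_101 : CertFX 536870912 536870912 67108864 469762048 1046898278 26843546 true true true .npn 1 0 1
    ndF1q1 ndF2q0 pcF1 Cut.none Ext.none :=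
  certFX0 (fam := true) (s1 := true) (s2 := true) (a := 1) (b := 0) (c := 1) (cn := .npn) (n1 := ndF1q1) (n2 := ndF2q0) (pc := pcF1) (cut := Cut.none) (xt := Ext.none) (P1 := 536870912) (W1 := 536870912) (P2 := 67108864) (W2 := 469762048) (P3 := 1046898278) (W3 := 26843546)
    rfl k0_pp_101

noncomputable def f_pp_102 : ℕ → ℕ → ℕ → ℕ → Bool := onCell 536870912 536870912 67108864 469762048 1046898278 26843546
    (rowFX 0 true true true .npp 1 0 2 (qsf 536870912 536870912 67108864 469762048 2) ndF1q1 ndF2q0 pcF2 Cut.none Ext.none)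

def k0_pp_102 : ∃ t, chk3 f_pp_102 t 1 1 1 = true :=
  ⟨(l 4), by decide +kernel⟩

theorem c_pp_102 : CertFX 536870912 536870912 67108864 469762048 1046898278 26843546 true true true .npp 1 0 2
    ndF1q1 ndF2q0 pcF2 Cut.none Ext.none :=
  certFX0 (fam := true) (s1 := true) (s2 := true) (a := 1) (b := 0) (c := 2) (cn := .npp) (n1 := ndF1q1) (n2 := ndF2q0) (pc := pcF2) (cut := Cut.none) (xt := Ext.none) (P1 := 536870912) (W1 := 536870912) (P2 := 67108864) (W2 := 469762048) (P3 := 1046898278) (W3 := 26843546)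
    rfl k0_pp_102

noncomputable def f_pp_112 : ℕ → ℕ → ℕ → ℕ → Bool := onCell 536870912 536870912 536870912 536870912 1046898278 26843546
    (rowFX 0 true true true .dn 1 1 2 (qsf 536870912 536870912 536870912 536870912 2) ndF1q1 ndF2q1 pcF2 Cut.none Ext.none)

def k0_pp_112 : ∃ t, chk3 f_pp_112 t 1 1 1 = true :=
  ⟨(l 4), by decide +kernel⟩

theorem c_pp_112 : CertFX 536870912 536870912 536870912 536870912 1046898278 26843546 true true true .dn 1 1 2
    ndF1q1 ndF2q1 pcF2 Cut.none Ext.none :=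
  certFX0 (fam := true) (s1 := true) (s2 := true) (a := 1) (b := 1) (c := 2) (cn := .dn) (n1 := ndF1q1) (n2 := ndF2q1) (pc := pcF2) (cut := Cut.none) (xt := Ext.none) (P1 := 536870912) (W1 := 536870912) (P2 := 536870912) (W2 := 536870912) (P3 := 1046898278) (W3 := 26843546)
    rfl k0_pp_112

noncomputable def f_pp_113 : ℕ → ℕ → ℕ → ℕ → Bool := onCell 536870912 536870912 536870912 536870912 1046898278 26843546
    (rowFX 0 true true true .nn 1 1 3 (qsf 536870912 536870912 536870912 536870912 3) ndF1q1 ndF2q1 pcF3 Cut.none Ext.none)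

def k0_pp_113 : ∃ t, chk3 f_pp_113 t 1 1 1 = true :=
  ⟨(l 4), by decide +kernel⟩

theorem c_pp_113 : CertFX 536870912 536870912 536870912 536870912 1046898278 26843546 true true true .nn 1 1 3
    ndF1q1 ndF2q1 pcF3 Cut.none Ext.none :=
  certFX0 (fam := true) (s1 := true) (s2 := true) (a := 1) (b := 1) (c := 3) (cn := .nn) (n1 := ndF1q1) (n2 := ndF2q1) (pc := pcF3) (cut := Cut.none) (xt := Ext.none) (P1 := 536870912) (W1 := 536870912) (P2 := 536870912) (W2 := 536870912) (P3 := 1046898278) (W3 := 26843546)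
    rfl k0_pp_113

noncomputable def f_pp_123_a : ℕ → ℕ → ℕ → ℕ → Bool := onCell 536870912 536870912 0 420477299 1046898278 26843546
    (rowFX 0 true true true .npn 1 2 3 (qsf 536870912 536870912 0 420477299 3) ndF1q1 ndF2q2a pcF3 Cut.none Ext.none)

def k0_pp_123_a : ∃ t, chk3 f_pp_123_a t 1 1 1 = true :=
  ⟨(l 4), by decide +kernel⟩

theorem c_pp_123_a : CertFX 536870912 536870912 0 420477299 1046898278 26843546 true true true .npn 1 2 3
    ndF1q1 ndF2q2a pcF3 Cut.none Ext.none :=
  certFX0 (fam := true) (s1 := true) (s2 := true) (a := 1) (b := 2) (c := 3) (cn := .npn) (n1 := ndF1q1) (n2 := ndF2q2a) (pc := pcF3) (cut := Cut.none) (xt := Ext.none) (P1 := 536870912) (W1 := 536870912) (P2 := 0) (W2 := 420477299) (P3 := 1046898278) (W3 := 26843546)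
    rfl k0_pp_123_a

noncomputable def f_pp_123_b : ℕ → ℕ → ℕ → ℕ → Bool := onCell 536870912 536870912 1239849684 370763052 1046898278 26843546
    (rowFX 0 true true true .npn 1 2 3 (qsf 536870912 536870912 1239849684 370763052 3) ndF1q1 ndF2q2b pcF3 Cut.none Ext.none)

def k0_pp_123_b : ∃ t, chk3 f_pp_123_b t 1 1 1 = true :=
  ⟨(l 4), by decide +kernel⟩

theorem c_pp_123_b : CertFX 536870912 536870912 1239849684 370763052 1046898278 26843546 true true true .npn 1 2 3
    ndF1q1 ndF2q2b pcF3 Cut.none Ext.none :=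
  certFX0 (fam := true) (s1 := true) (s2 := true) (a := 1) (b := 2) (c := 3) (cn := .npn) (n1 := ndF1q1) (n2 := ndF2q2b) (pc := pcF3) (cut := Cut.none) (xt := Ext.none) (P1 := 536870912) (W1 := 536870912) (P2 := 1239849684) (W2 := 370763052) (P3 := 1046898278) (W3 := 26843546)
    rfl k0_pp_123_b

noncomputable def f_pp_133 : ℕ → ℕ → ℕ → ℕ → Bool := onCell 536870912 536870912 1610612736 469762048 1046898278 26843546
    (rowFX 0 true true true .dn 1 3 3 (qsf 536870912 536870912 1610612736 469762048 3) ndF1q1 ndF2q3 pcF3 Cut.none Ext.none)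

def k0_pp_133 : ∃ t, chk3 f_pp_133 t 1 1 1 = true :=
  ⟨(l 4), by decide +kernel⟩

theorem c_pp_133 : CertFX 536870912 536870912 1610612736 469762048 1046898278 26843546 true true true .dn 1 3 3
    ndF1q1 ndF2q3 pcF3 Cut.none Ext.none :=
  certFX0 (fam := true) (s1 := true) (s2 := true) (a := 1) (b := 3) (c := 3) (cn := .dn) (n1 := ndF1q1) (n2 := ndF2q3) (pc := pcF3) (cut := Cut.none) (xt := Ext.none) (P1 := 536870912) (W1 := 536870912) (P2 := 1610612736) (W2 := 469762048) (P3 := 1046898278) (W3 := 26843546)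
    rfl k0_pp_133

noncomputable def f_pp_202_a : ℕ → ℕ → ℕ → ℕ → Bool := onCell 0 420477299 67108864 469762048 1046898278 26843546
    (rowFX 0 true true true .pp 2 0 2 (qsf 0 420477299 67108864 469762048 2) ndF1q2a ndF2q0 pcF2 Cut.none Ext.none)

def k0_pp_202_a : ∃ t, chk3 f_pp_202_a t 1 1 1 = true :=
  ⟨(l 5), by decide +kernel⟩

theorem c_pp_202_a : CertFX 0 420477299 67108864 469762048 1046898278 26843546 true true true .pp 2 0 2
    ndF1q2a ndF2q0 pcF2 Cut.none Ext.none :=
  certFX0 (fam := true) (s1 := true) (s2 := true) (a := 2) (b := 0) (c := 2) (cn := .pp) (n1 := ndF1q2a) (n2 := ndF2q0) (pc := pcF2) (cut := Cut.none) (xt := Ext.none) (P1 := 0) (W1 := 420477299) (P2 := 67108864) (W2 := 469762048) (P3 := 1046898278) (W3 := 26843546)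
    rfl k0_pp_202_a

noncomputable def f_pp_202_b : ℕ → ℕ → ℕ → ℕ → Bool := onCell 1239849684 370763052 67108864 469762048 1046898278 26843546
    (rowFX 0 true true true .pp 2 0 2 (qsf 1239849684 370763052 67108864 469762048 2) ndF1q2b ndF2q0 pcF2 Cut.none Ext.none)

def k0_pp_202_b : ∃ t, chk3 f_pp_202_b t 1 1 1 = true :=
  ⟨(l 5), by decide +kernel⟩

theorem c_pp_202_b : CertFX 1239849684 370763052 67108864 469762048 1046898278 26843546 true true true .pp 2 0 2
    ndF1q2b ndF2q0 pcF2 Cut.none Ext.none :=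
  certFX0 (fam := true) (s1 := true) (s2 := true) (a := 2) (b := 0) (c := 2) (cn := .pp) (n1 := ndF1q2b) (n2 := ndF2q0) (pc := pcF2) (cut := Cut.none) (xt := Ext.none) (P1 := 1239849684) (W1 := 370763052) (P2 := 67108864) (W2 := 469762048) (P3 := 1046898278) (W3 := 26843546)
    rfl k0_pp_202_b

noncomputable def f_pp_203_a : ℕ → ℕ → ℕ → ℕ → Bool := onCell 0 420477299 67108864 469762048 1046898278 26843546
    (rowFX 0 true true true .up 2 0 3 (qsf 0 420477299 67108864 469762048 3) ndF1q2a ndF2q0 pcF3 Cut.none Ext.none)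

def k0_pp_203_a : ∃ t, chk3 f_pp_203_a t 1 1 1 = true :=
  ⟨(l 5), by decide +kernel⟩

theorem c_pp_203_a : CertFX 0 420477299 67108864 469762048 1046898278 26843546 true true true .up 2 0 3
    ndF1q2a ndF2q0 pcF3 Cut.none Ext.none :=
  certFX0 (fam := true) (s1 := true) (s2 := true) (a := 2) (b := 0) (c := 3) (cn := .up) (n1 := ndF1q2a) (n2 := ndF2q0) (pc := pcF3) (cut := Cut.none) (xt := Ext.none) (P1 := 0) (W1 := 420477299) (P2 := 67108864) (W2 := 469762048) (P3 := 1046898278) (W3 := 26843546)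
    rfl k0_pp_203_a

noncomputable def f_pp_203_b : ℕ → ℕ → ℕ → ℕ → Bool := onCell 1239849684 370763052 67108864 469762048 1046898278 26843546
    (rowFX 0 true true true .up 2 0 3 (qsf 1239849684 370763052 67108864 469762048 3) ndF1q2b ndF2q0 pcF3 Cut.none Ext.none)

def k0_pp_203_b : ∃ t, chk3 f_pp_203_b t 1 1 1 = true :=
  ⟨(l 5), by decide +kernel⟩

theorem c_pp_203_b : CertFX 1239849684 370763052 67108864 469762048 1046898278 26843546 true true true .up 2 0 3
    ndF1q2b ndF2q0 pcF3 Cut.none Ext.none :=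
  certFX0 (fam := true) (s1 := true) (s2 := true) (a := 2) (b := 0) (c := 3) (cn := .up) (n1 := ndF1q2b) (n2 := ndF2q0) (pc := pcF3) (cut := Cut.none) (xt := Ext.none) (P1 := 1239849684) (W1 := 370763052) (P2 := 67108864) (W2 := 469762048) (P3 := 1046898278) (W3 := 26843546)
    rfl k0_pp_203_b

noncomputable def f_pp_213_a : ℕ → ℕ → ℕ → ℕ → Bool := onCell 0 420477299 536870912 536870912 1046898278 26843546
    (rowFX 0 true true true .pnn 2 1 3 (qsf 0 420477299 536870912 536870912 3) ndF1q2a ndF2q1 pcF3 Cut.none Ext.none)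

def k0_pp_213_a : ∃ t, chk3 f_pp_213_a t 1 1 1 = true :=
  ⟨(l 4), by decide +kernel⟩

theorem c_pp_213_a : CertFX 0 420477299 536870912 536870912 1046898278 26843546 true true true .pnn 2 1 3
    ndF1q2a ndF2q1 pcF3 Cut.none Ext.none :=
  certFX0 (fam := true) (s1 := true) (s2 := true) (a := 2) (b := 1) (c := 3) (cn := .pnn) (n1 := ndF1q2a) (n2 := ndF2q1) (pc := pcF3) (cut := Cut.none) (xt := Ext.none) (P1 := 0) (W1 := 420477299) (P2 := 536870912) (W2 := 536870912) (P3 := 1046898278) (W3 := 26843546)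
    rfl k0_pp_213_a

noncomputable def f_pp_213_b : ℕ → ℕ → ℕ → ℕ → Bool := onCell 1239849684 370763052 536870912 536870912 1046898278 26843546
    (rowFX 0 true true true .pnn 2 1 3 (qsf 1239849684 370763052 536870912 536870912 3) ndF1q2b ndF2q1 pcF3 Cut.none Ext.none)

def k0_pp_213_b : ∃ t, chk3 f_pp_213_b t 1 1 1 = true :=
  ⟨(l 4), by decide +kernel⟩

theorem c_pp_213_b : CertFX 1239849684 370763052 536870912 536870912 1046898278 26843546 true true true .pnn 2 1 3
    ndF1q2b ndF2q1 pcF3 Cut.none Ext.none :=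
  certFX0 (fam := true) (s1 := true) (s2 := true) (a := 2) (b := 1) (c := 3) (cn := .pnn) (n1 := ndF1q2b) (n2 := ndF2q1) (pc := pcF3) (cut := Cut.none) (xt := Ext.none) (P1 := 1239849684) (W1 := 370763052) (P2 := 536870912) (W2 := 536870912) (P3 := 1046898278) (W3 := 26843546)
    rfl k0_pp_213_b

noncomputable def f_pp_303 : ℕ → ℕ → ℕ → ℕ → Bool := onCell 1610612736 469762048 67108864 469762048 1046898278 26843546
    (rowFX 0 true true true .npn 3 0 3 (qsf 1610612736 469762048 67108864 469762048 3) ndF1q3 ndF2q0 pcF3 Cut.none Ext.none)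

def k0_pp_303 : ∃ t, chk3 f_pp_303 t 1 1 1 = true :=
  ⟨(l 5), by decide +kernel⟩

theorem c_pp_303 : CertFX 1610612736 469762048 67108864 469762048 1046898278 26843546 true true true .npn 3 0 3
    ndF1q3 ndF2q0 pcF3 Cut.none Ext.none :=
  certFX0 (fam := true) (s1 := true) (s2 := true) (a := 3) (b := 0) (c := 3) (cn := .npn) (n1 := ndF1q3) (n2 := ndF2q0) (pc := pcF3) (cut := Cut.none) (xt := Ext.none) (P1 := 1610612736) (W1 := 469762048) (P2 := 67108864) (W2 := 469762048) (P3 := 1046898278) (W3 := 26843546)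
    rfl k0_pp_303

noncomputable def f_pp_313 : ℕ → ℕ → ℕ → ℕ → Bool := onCell 1610612736 469762048 536870912 536870912 1046898278 26843546
    (rowFX 0 true true true .dn 3 1 3 (qsf 1610612736 469762048 536870912 536870912 3) ndF1q3 ndF2q1 pcF3 Cut.none Ext.none)

def k0_pp_313 : ∃ t, chk3 f_pp_313 t 1 1 1 = true :=
  ⟨(l 4), by decide +kernel⟩

theorem c_pp_313 : CertFX 1610612736 469762048 536870912 536870912 1046898278 26843546 true true true .dn 3 1 3
    ndF1q3 ndF2q1 pcF3 Cut.none Ext.none :=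
  certFX0 (fam := true) (s1 := true) (s2 := true) (a := 3) (b := 1) (c := 3) (cn := .dn) (n1 := ndF1q3) (n2 := ndF2q1) (pc := pcF3) (cut := Cut.none) (xt := Ext.none) (P1 := 1610612736) (W1 := 469762048) (P2 := 536870912) (W2 := 536870912) (P3 := 1046898278) (W3 := 26843546)
    rfl k0_pp_313

noncomputable def f_pm_001 : ℕ → ℕ → ℕ → ℕ → Bool := onCell 67108864 469762048 67108864 469762048 1046898278 26843546
    (rowFX 0 true true false .up 0 0 1 (qsf 67108864 469762048 67108864 469762048 1) ndF1q0 ndF2q0 pcF1 Cut.none Ext.none)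

def k0_pm_001 : ∃ t, chk3 f_pm_001 t 1 1 1 = true :=
  ⟨(l 3), by decide +kernel⟩

theorem c_pm_001 : CertFX 67108864 469762048 67108864 469762048 1046898278 26843546 true true false .up 0 0 1
    ndF1q0 ndF2q0 pcF1 Cut.none Ext.none :=
  certFX0 (fam := true) (s1 := true) (s2 := false) (a := 0) (b := 0) (c := 1) (cn := .up) (n1 := ndF1q0) (n2 := ndF2q0) (pc := pcF1) (cut := Cut.none) (xt := Ext.none) (P1 := 67108864) (W1 := 469762048) (P2 := 67108864) (W2 := 469762048) (P3 := 1046898278) (W3 := 26843546)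
    rfl k0_pm_001

noncomputable def f_pm_011 : ℕ → ℕ → ℕ → ℕ → Bool := onCell 67108864 469762048 536870912 536870912 1046898278 26843546
    (rowFX 1 true true false .pnn 0 1 1 (qsf 67108864 469762048 536870912 536870912 1) ndF1q0 ndF2q1 pcF1 Cut.none Ext.none)

def k0_pm_011 : ∃ t, chk3 f_pm_011 t 1 1 1 = true :=
  ⟨(l 3), by decide +kernel⟩

theorem c_pm_011 : CertFX 67108864 469762048 536870912 536870912 1046898278 26843546 true true false .pnn 0 1 1
    ndF1q0 ndF2q1 pcF1 Cut.none Ext.none :=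
  certFX1 (fam := true) (s1 := true) (s2 := false) (a := 0) (b := 1) (c := 1) (cn := .pnn) (n1 := ndF1q0) (n2 := ndF2q1) (pc := pcF1) (cut := Cut.none) (xt := Ext.none) (P1 := 67108864) (W1 := 469762048) (P2 := 536870912) (W2 := 536870912) (P3 := 1046898278) (W3 := 26843546)
    rfl (fun _ => rfl) k0_pm_011

noncomputable def f_pm_012 : ℕ → ℕ → ℕ → ℕ → Bool := onCell 1073741824 536870912 536870912 536870912 1046898278 26843546
    (rowFX 2 true true false .pnp 0 1 2 (qsf 67108864 469762048 536870912 536870912 2) ndF1q0 ndF2q1 pcF2 Cut.none Ext.none)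

def k0_pm_012 : ∃ t, chk3 f_pm_012 t 4 1 1 = true :=
  ⟨(a (l 3) (b (b (b (a (l 3) (l 2)) (l 3)) (l 3)) (l 3))), by decide +kernel⟩

def k1_pm_012 : ∃ t, chk3 f_pm_012 t 10 2 1 = true :=
  ⟨(a (a (b (b (l 2) (a (a (a (l 16777216) (l 2)) (l 2)) (l 2))) (b (a (a (l 3) (c (l 16777216) (l 16777216))) (a (a (l 16777216) (l 16777216)) (c (l 16777208) (l 16777208)))) (a (l 3) (a (a (l 16777216) (l 16777216)) (a (l 16777216) (l 16777216)))))) (b (l 2) (a (c (a (c (l 16776832) (l 16776824)) (a (l 16775864) (a (l 16774960) (l 16773664)))) (a (l 16776824) (a (l 16775832) (a (l 16774896) (l 16773568))))) (a (b (l 16761104) (a (c (l 16774096) (l 16774016)) (l 16767456))) (a (l 16754312) (l 16747992)))))) (b (l 2) (l 16753024))), by decide +kernel⟩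

def k2_pm_012 : ∃ t, chk3 f_pm_012 t 10 6 1 = true :=
  ⟨(b (a (a (a (l 3) (a (l 3) (c (l 16774240) (l 16774160)))) (a (a (c (l 16774240) (l 16774160)) (c (l 16774240) (l 16774168))) (a (a (c (l 16773960) (l 16773856)) (c (b (l 16774400) (l 16770272)) (l 16771736))) (a (a (c (l 16768216) (l 16767848)) (l 16762328)) (l 16756400))))) (l 16758448)) (a (a (l 3) (a (a (c (l 16759104) (l 16758640)) (c (l 16759104) (l 16758640))) (a (c (a (l 16759104) (l 16759104)) (a (l 16758640) (l 16758640))) (a (a (c (l 16758168) (l 16757568)) (a (c (l 16757256) (l 16756552)) (c (l 16755168) (l 16754240)))) (l 16749472))))) (l 16749320))), by decide +kernel⟩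

def k3_pm_012 : ∃ t, chk3 f_pm_012 t 10 7 1 = true :=
  ⟨(a (a (l 3) (a (b (a (l 3) (c (b (l 16717488) (l 16640472)) (b (l 16715936) (l 16636992)))) (l 3)) (a (b (c (a (l 16674864) (l 16672912)) (a (l 16672224) (l 16670208))) (c (a (l 3556399934231) (b (l 16703376) (l 16518520))) (a (l 3915029698647) (b (l 16702352) (l 16513816))))) (b (a (a (c (l 16671456) (l 16668720)) (c (b (l 16717032) (l 16623192)) (b (l 16715472) (l 16619200)))) (a (a (a (c (l 16669480) (l 16645704)) (a (c (l 16668624) (l 16644824)) (a (a (b (l 16712504) (l 16618888)) (c (l 16666936) (l 16643080))) (l 16665040)))) (l 16665024)) (l 16664912))) (a (c (b (a (l 16690784) (l 16682416)) (a (l 16572912) (b (l 16633976) (l 16527400)))) (b (a (l 16689376) (l 16680744)) (a (l 16568568) (b (l 16631280) (l 16521904))))) (b (a (a (a (c (l 16677200) (l 16675360)) (a (c (l 16675632) (l 16673752)) (c (b (l 16633720) (l 16695312)) (b (l 16630384) (l 16694872))))) (l 16670848)) (l 16664512)) (a (a (a (c (l 16586352) (l 16582408))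 (a (c (l 16587896) (l 16584000)) (c (c (l 16526984) (l 16504072)) (a (a (l 16584664) (l 16563952)) (l 16585328))))) (l 16589608)) (l 16595880)))))))) (b (l 16665520) (b (b (l 16568032) (l 16586040)) (l 16525240)))), by decide +kernel⟩

def k4_pm_012 : ∃ t, chk3 f_pm_012 t 11 1 1 = true :=
  ⟨(b (b (l 2) (l 16772616)) (b (b (l 16771240) (l 16757024)) (b (l 16667808) (b (l 16517472) (a (b (l 16464120) (l 16438616)) (l 16412896)))))), by decide +kernel⟩

def k5_pm_012 : ∃ t, chk3 f_pm_012 t 3 1 1 = true :=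
  ⟨(b (a (b (l 2) (l 16777216)) (l 2)) (b (a (b (l 16774200) (l 16758872)) (b (l 2) (l 16758872))) (b (a (l 16668408) (l 16668408)) (a (b (l 16517464) (l 16412792)) (b (l 16517464) (l 16412792)))))), by decide +kernel⟩

theorem s6_pm_012 : ∃ t, chk3 f_pm_012 t 10 3 1 = true := ex3_b k2_pm_012 k3_pm_012

theorem s7_pm_012 : ∃ t, chk3 f_pm_012 t 10 1 1 = true := ex3_b k1_pm_012 s6_pm_012

theorem s8_pm_012 : ∃ t, chk3 f_pm_012 t 5 1 1 = true := ex3_a s7_pm_012 k4_pm_012

theorem s9_pm_012 : ∃ t, chk3 f_pm_012 t 2 1 1 = true := ex3_a k0_pm_012 s8_pm_012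

theorem s10_pm_012 : ∃ t, chk3 f_pm_012 t 1 1 1 = true := ex3_a s9_pm_012 k5_pm_012

theorem c_pm_012 : CertFX 67108864 469762048 536870912 536870912 1046898278 26843546 true true false .pnp 0 1 2
    ndF1q0 ndF2q1 pcF2 Cut.none Ext.none :=
  certFX2 (fam := true) (s1 := true) (s2 := false) (a := 0) (b := 1) (c := 2) (cn := .pnp) (n1 := ndF1q0) (n2 := ndF2q1) (pc := pcF2) (cut := Cut.none) (xt := Ext.none) (P1 := 67108864) (W1 := 469762048) (P2 := 536870912) (W2 := 536870912) (P3 := 1046898278) (W3 := 26843546)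
    rfl (fun _ => rfl) s10_pm_012

noncomputable def f_pm_022_a : ℕ → ℕ → ℕ → ℕ → Bool := onCell 1073741824 536870912 0 420477299 1046898278 26843546
    (rowFX 2 true true false .pp 0 2 2 (qsf 67108864 469762048 0 420477299 2) ndF1q0 ndF2q2a pcF2 Cut.none Ext.none)

def k0_pm_022_a : ∃ t, chk3 f_pm_022_a t 2 2 1 = true :=
  ⟨(a (l 1) (a (l 1) (a (b (c (a (l 1) (l 15406136)) (l 15462712)) (c (b (a (l 1) (l 15522160)) (a (l 15857328) (l 15680360))) (b (l 15597440) (l 15665072)))) (b (c (l 15395520) (l 15488104)) (c (b (l 15616824) (l 15752840)) (b (l 15586248) (l 15726152))))))), by decide +kernel⟩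

def k1_pm_022_a : ∃ t, chk3 f_pm_022_a t 4 3 1 = true :=
  ⟨(a (l 1) (b (l 1) (b (l 1) (b (l 1) (a (l 1) (a (l 1) (a (l 1) (c (c (l 204579970343) (l 16238144)) (l 16227288))))))))), by decide +kernel⟩

def k2_pm_022_a : ∃ t, chk3 f_pm_022_a t 10 3 1 = true :=
  ⟨(a (b (l 1) (b (b (l 1) (a (l 1) (c (a (c (l 154650659559) (l 16011384)) (c (a (c (l 16071168) (l 16060648)) (l 16110368)) (l 16076704))) (a (l 15998128) (c (l 16068920) (l 16061144)))))) (a (b (a (l 1) (b (l 1) (c (c (l 15945584) (l 15992888)) (l 15979264)))) (c (c (a (c (l 16108184) (l 16097048)) (a (l 15986048) (l 15905640))) (l 15843536)) (c (l 16002344) (l 15930456)))) (c (a (c (b (l 15945888) (l 15875296)) (b (l 15954784) (l 15864200))) (c (b (l 16004184) (l 15900808)) (l 15837720))) (a (b (c (l 15945128) (l 15935480)) (l 15805520)) (c (l 15911560) (l 15838600))))))) (a (b (a (l 1) (b (l 1) (c (c (l 16288272) (l 16464984)) (l 16356952)))) (b (c (c (b (a (l 16171264) (l 16350448)) (l 16095144)) (b (l 16272880) (l 16216144)))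 (b (c (l 16289296) (l 16263768)) (l 16060440))) (c (c (b (l 16124640) (l 15999000)) (l 15855608)) (c (l 15952016) (l 15817736))))) (b (b (a (l 1) (c (b (l 1) (c (l 16280960) (l 16284264))) (l 16094848))) (c (c (a (l 16373424) (l 16330000)) (l 16353936)) (a (l 16441008) (l 16301352)))) (c (b (c (b (l 16405152) (l 16374184)) (l 16272144)) (c (b (l 16282040) (l 16213528)) (l 16108392))) (b (c (l 16290384) (l 16266680)) (b (l 16206264) (l 16176024))))))), by decide +kernel⟩

def k3_pm_022_a : ∃ t, chk3 f_pm_022_a t 11 3 1 = true :=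
  ⟨(b (b (a (a (a (c (b (l 16057872) (l 16181176)) (l 16044040)) (l 15895256)) (c (l 15899488) (l 15877504))) (c (l 15884712) (l 15904960))) (a (c (a (b (l 16064432) (a (l 16458960) (l 16374432))) (c (b (l 16096912) (l 16227856)) (l 16068408))) (a (b (l 16221712) (l 16368440)) (b (l 16076432) (l 16170248)))) (b (c (l 16076712) (l 16059368)) (a (a (c (l 16110696) (l 16094568)) (l 16151472)) (l 16226752))))) (a (b (c (a (b (c (l 16474952) (l 16557816)) (l 16365904)) (b (l 16177472) (l 16374424))) (a (b (l 16430480) (l 16469680)) (l 16174320))) (c (a (c (l 16326888) (l 16366168)) (a (l 16534304) (l 16383344))) (a (l 16257320) (c (l 16520992) (l 16436216))))) (b (a (a (c (b (l 16225800) (l 16321112)) (l 16199640)) (b (l 16266136) (l 16361160))) (c (l 16356400) (l 16306624))) (c (a (c (c (l 16281976) (l 16343832)) (l 16363216)) (l 16587560)) (a (c (l 16424016) (l 16317048)) (l 16545120)))))), by decide +kernel⟩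

def k4_pm_022_a : ∃ t, chk3 f_pm_022_a t 3 1 1 = true :=
  ⟨(b (a (a (a (b (c (l 15840360) (l 15815680)) (b (l 15893608) (l 15997368))) (b (l 15999848) (b (l 16130936) (l 16243240)))) (b (a (l 16216632) (a (l 16557568) (l 16688032))) (a (b (l 16416368) (l 16464368)) (b (l 16677040) (l 16744680))))) (b (a (l 16702456) (l 16702392)) (a (l 16752704) (l 16752704)))) (a (b (a (a (b (l 16144864) (l 16303920)) (b (l 16402720) (l 16566920))) (a (b (l 16528688) (l 16420584)) (l 16466992))) (a (b (a (c (l 16373312) (c (l 16518304) (l 16454184))) (a (b (l 16614520) (l 16503896)) (l 16398760))) (a (c (l 16338416) (l 16311736)) (c (a (l 16299176) (l 16297352)) (b (l 16332664) (l 16262040))))) (b (c (l 16277952) (l 16289280)) (a (c (a (l 16291480) (l 16291480)) (l 16278864)) (l 16285176))))) (b (b (l 16676272) (l 16541336)) (b (l 16394016) (l 16264200))))), by decide +kernel⟩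

theorem s5_pm_022_a : ∃ t, chk3 f_pm_022_a t 5 3 1 = true := ex3_a k2_pm_022_a k3_pm_022_a

theorem s6_pm_022_a : ∃ t, chk3 f_pm_022_a t 2 3 1 = true := ex3_a k1_pm_022_a s5_pm_022_a

theorem s7_pm_022_a : ∃ t, chk3 f_pm_022_a t 2 1 1 = true := ex3_b k0_pm_022_a s6_pm_022_a

theorem s8_pm_022_a : ∃ t, chk3 f_pm_022_a t 1 1 1 = true := ex3_a s7_pm_022_a k4_pm_022_a

theorem c_pm_022_a : CertFX 67108864 469762048 0 420477299 1046898278 26843546 true true false .pp 0 2 2
    ndF1q0 ndF2q2a pcF2 Cut.none Ext.none :=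
  certFX2 (fam := true) (s1 := true) (s2 := false) (a := 0) (b := 2) (c := 2) (cn := .pp) (n1 := ndF1q0) (n2 := ndF2q2a) (pc := pcF2) (cut := Cut.none) (xt := Ext.none) (P1 := 67108864) (W1 := 469762048) (P2 := 0) (W2 := 420477299) (P3 := 1046898278) (W3 := 26843546)
    rfl (fun _ => rfl) s8_pm_022_a

noncomputable def f_pm_022_b : ℕ → ℕ → ℕ → ℕ → Bool := onCell 67108864 469762048 1239849684 370763052 1046898278 26843546
    (rowFX 0 true true false .pp 0 2 2 (qsf 67108864 469762048 1239849684 370763052 2) ndF1q0 ndF2q2b pcF2 Cut.none Ext.none)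

def k0_pm_022_b : ∃ t, chk3 f_pm_022_b t 1 1 1 = true :=
  ⟨(b (b (a (a (c (a (b (a (a (b (l 15380456) (l 15397344)) (l 15560880)) (l 15786864)) (a (l 15504416) (l 15815352))) (b (a (l 15992336) (l 16205360)) (l 15978176))) (a (b (a (b (l 15407112) (l 15445792)) (l 15760864)) (a (l 15468312) (l 15790296))) (b (l 15935640) (l 16107992)))) (a (b (l 16321872) (l 16530680)) (b (l 16733000) (l 16771848)))) (a (b (l 16733000) (l 16771848)) (l 2))) (a (a (a (a (c (l 15445712) (l 15472672)) (c (l 15819184) (l 15794272))) (l 16119824)) (a (l 16512296) (l 16777216))) (l 2))) (a (a (b (a (c (l 15596728) (l 15576872)) (l 16119824)) (a (a (l 15494192) (l 2)) (l 2))) (b (a (b (l 16596184) (l 2)) (l 2)) (l 2))) (l 2))), by decide +kernel⟩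

theorem c_pm_022_b : CertFX 67108864 469762048 1239849684 370763052 1046898278 26843546 true true false .pp 0 2 2
    ndF1q0 ndF2q2b pcF2 Cut.none Ext.none :=
  certFX0 (fam := true) (s1 := true) (s2 := false) (a := 0) (b := 2) (c := 2) (cn := .pp) (n1 := ndF1q0) (n2 := ndF2q2b) (pc := pcF2) (cut := Cut.none) (xt := Ext.none) (P1 := 67108864) (W1 := 469762048) (P2 := 1239849684) (W2 := 370763052) (P3 := 1046898278) (W3 := 26843546)
    rfl k0_pm_022_b

noncomputable def f_pm_023_a : ℕ → ℕ → ℕ → ℕ → Bool := onCell 67108864 469762048 0 420477299 1046898278 26843546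
    (rowFX 0 true true false .up 0 2 3 (qsf 67108864 469762048 0 420477299 3) ndF1q0 ndF2q2a pcF3 Cut.none Ext.none)

def k0_pm_023_a : ∃ t, chk3 f_pm_023_a t 1 1 1 = true :=
  ⟨(a (l 1) (b (a (b (l 16702392) (l 16731736)) (b (l 16702392) (a (l 16752704) (l 16752704)))) (b (a (b (l 16676272) (l 16541336)) (b (l 16676272) (l 16541336))) (a (l 1) (b (l 16394016) (l 16285176)))))), by decide +kernel⟩

theorem c_pm_023_a : CertFX 67108864 469762048 0 420477299 1046898278 26843546 true true false .up 0 2 3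
    ndF1q0 ndF2q2a pcF3 Cut.none Ext.none :=
  certFX0 (fam := true) (s1 := true) (s2 := false) (a := 0) (b := 2) (c := 3) (cn := .up) (n1 := ndF1q0) (n2 := ndF2q2a) (pc := pcF3) (cut := Cut.none) (xt := Ext.none) (P1 := 67108864) (W1 := 469762048) (P2 := 0) (W2 := 420477299) (P3 := 1046898278) (W3 := 26843546)
    rfl k0_pm_023_a

noncomputable def f_pm_023_b : ℕ → ℕ → ℕ → ℕ → Bool := onCell 1610612736 536870912 1239849684 370763052 1046898278 26843546
    (rowFX 2 true true false .up 0 2 3 (qsf 67108864 469762048 1239849684 370763052 3) ndF1q0 ndF2q2b pcF3 Cut.none Ext.none)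

def k0_pm_023_b : ∃ t, chk3 f_pm_023_b t 1 1 1 = true :=
  ⟨(b (b (a (a (a (l 16753056) (l 16753056)) (a (c (l 16753368) (l 16752752)) (c (l 16753368) (l 16752752)))) (l 2)) (a (a (a (b (l 16776568) (l 16689464)) (l 16777216)) (a (l 16777216) (c (l 16777216) (l 16777216)))) (a (a (a (l 16777216) (l 16777208)) (a (c (l 16777216) (l 16777216)) (l 2))) (l 2)))) (a (a (b (a (a (c (l 15957624) (l 15941200)) (a (l 16231584) (l 16377808))) (a (b (l 16733792) (l 16454208)) (l 16722112))) (a (a (b (c (l 15555464) (l 15521848)) (c (l 15103544) (l 14985296))) (b (l 15707648) (c (l 15429920) (l 15409344)))) (b (l 16043824) (a (a (l 15657152) (l 15826016)) (l 15762752))))) (a (b (l 16775288) (a (b (l 16624024) (l 16273776)) (b (l 16753984) (l 16542176)))) (a (b (l 16777216) (l 16720088)) (l 16777192)))) (a (a (a (l 16777216) (c (l 16777216) (l 16777216))) (a (c (l 213372633143) (l 154316832823)) (l 4))) (l 4)))), by decide +kernel⟩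

theorem c_pm_023_b : CertFX 67108864 469762048 1239849684 370763052 1046898278 26843546 true true false .up 0 2 3
    ndF1q0 ndF2q2b pcF3 Cut.none Ext.none :=
  certFX2 (fam := true) (s1 := true) (s2 := false) (a := 0) (b := 2) (c := 3) (cn := .up) (n1 := ndF1q0) (n2 := ndF2q2b) (pc := pcF3) (cut := Cut.none) (xt := Ext.none) (P1 := 67108864) (W1 := 469762048) (P2 := 1239849684) (W2 := 370763052) (P3 := 1046898278) (W3 := 26843546)
    rfl (fun _ => rfl) k0_pm_023_b

noncomputable def f_pm_033 : ℕ → ℕ → ℕ → ℕ → Bool := onCell 67108864 469762048 1610612736 536870912 1046898278 26843546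
    (rowFX 1 true true false .pnn 0 3 3 (qsf 67108864 469762048 1610612736 469762048 3) ndF1q0 ndF2q3 pcF3 Cut.none Ext.none)

def k0_pm_033 : ∃ t, chk3 f_pm_033 t 1 1 1 = true :=
  ⟨(b (a (b (a (a (b (l 245917652359) (c (l 15659648) (l 15618816))) (b (l 1) (l 16119824))) (l 1)) (a (c (b (a (l 15659648) (l 16128256)) (a (l 15512848) (l 16128256))) (b (a (l 15618816) (l 16111400)) (a (b (l 15618816) (l 15618816)) (l 16111400)))) (b (a (c (l 16598504) (l 16593864)) (l 1)) (c (a (l 16598504) (l 16777216)) (a (l 16593864) (l 16777216)))))) (l 1)) (b (a (b (a (b (c (a (l 15659648) (l 16128256)) (a (l 15618816) (l 16111400))) (l 4)) (b (a (c (l 16598504) (l 16593864)) (l 16777216)) (l 4))) (l 4)) (a (b (b (l 16777216) (c (l 16777216) (l 16777216))) (l 4)) (l 1))) (l 4))), by decide +kernel⟩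

theorem c_pm_033 : CertFX 67108864 469762048 1610612736 469762048 1046898278 26843546 true true false .pnn 0 3 3
    ndF1q0 ndF2q3 pcF3 Cut.none Ext.none :=
  certFX1 (fam := true) (s1 := true) (s2 := false) (a := 0) (b := 3) (c := 3) (cn := .pnn) (n1 := ndF1q0) (n2 := ndF2q3) (pc := pcF3) (cut := Cut.none) (xt := Ext.none) (P1 := 67108864) (W1 := 469762048) (P2 := 1610612736) (W2 := 469762048) (P3 := 1046898278) (W3 := 26843546)
    rfl (fun _ => rfl) k0_pm_033

noncomputable def f_pm_101 : ℕ → ℕ → ℕ → ℕ → Bool := onCell 536870912 536870912 67108864 469762048 1046898278 26843546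
    (rowFX 2 true true false .npn 1 0 1 (qsf 536870912 536870912 67108864 469762048 1) ndF1q1 ndF2q0 pcF1 Cut.none Ext.none)

def k0_pm_101 : ∃ t, chk3 f_pm_101 t 1 1 1 = true :=
  ⟨(l 3), by decide +kernel⟩

theorem c_pm_101 : CertFX 536870912 536870912 67108864 469762048 1046898278 26843546 true true false .npn 1 0 1
    ndF1q1 ndF2q0 pcF1 Cut.none Ext.none :=
  certFX2 (fam := true) (s1 := true) (s2 := false) (a := 1) (b := 0) (c := 1) (cn := .npn) (n1 := ndF1q1) (n2 := ndF2q0) (pc := pcF1) (cut := Cut.none) (xt := Ext.none) (P1 := 536870912) (W1 := 536870912) (P2 := 67108864) (W2 := 469762048) (P3 := 1046898278) (W3 := 26843546)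
    rfl (fun _ => rfl) k0_pm_101

noncomputable def f_pm_102 : ℕ → ℕ → ℕ → ℕ → Bool := onCell 536870912 536870912 1073741824 536870912 1046898278 26843546
    (rowFX 1 true true false .npp 1 0 2 (qsf 536870912 536870912 67108864 469762048 2) ndF1q1 ndF2q0 pcF2 Cut.none Ext.none)

def k0_pm_102 : ∃ t, chk3 f_pm_102 t 1 8 1 = true :=
  ⟨(a (l 3) (l 3)), by decide +kernel⟩

def k1_pm_102 : ∃ t, chk3 f_pm_102 t 2 9 1 = true :=
  ⟨(b (l 3) (a (b (l 3) (a (l 2) (a (l 2) (b (l 3) (c (l 16777216) (l 16777216)))))) (a (b (l 3) (b (b (l 3) (l 719574794087)) (c (b (l 16777216) (l 16777208)) (b (l 16777216) (l 16777208))))) (b (l 3) (c (b (b (l 16777216) (l 16777208)) (b (l 16777200) (l 16776736))) (b (b (l 16777216) (l 16777208)) (b (l 16777200) (l 16776720)))))))), by decide +kernel⟩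

def k2_pm_102 : ∃ t, chk3 f_pm_102 t 3 18 1 = true :=
  ⟨(a (l 3) (b (b (l 3) (a (l 3) (a (l 3) (a (l 3) (a (l 3) (b (l 3) (l 16478704))))))) (a (b (l 3) (a (b (l 3) (c (l 16734952) (l 16734008))) (c (b (l 16729440) (l 16723544)) (b (l 16728840) (l 16722904))))) (b (b (a (l 3) (a (c (l 16637952) (l 16635544)) (c (l 16556504) (l 16552040)))) (a (c (l 16674624) (l 16672912)) (c (l 16536488) (l 16554184)))) (c (a (b (l 16665288) (l 16661488)) (a (b (l 16628512) (l 16630264)) (b (l 16582848) (b (l 16594048) (l 16614088))))) (a (b (l 16663416) (l 16659608)) (b (a (l 16626040) (l 16579344)) (a (l 16627928) (b (l 16590936) (l 16611584)))))))))), by decide +kernel⟩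

def k3_pm_102 : ∃ t, chk3 f_pm_102 t 3 19 1 = true :=
  ⟨(a (a (b (b (l 3) (c (b (l 16772688) (l 16772688)) (b (l 16772568) (l 16772568)))) (b (c (b (l 16772680) (l 16772672)) (b (l 16772560) (l 16772552))) (c (b (l 16748080) (c (l 16764992) (l 16764712))) (b (a (l 16777176) (l 16764200)) (c (l 16764440) (l 16764168)))))) (a (b (b (b (l 3) (c (l 16750720) (l 16750016))) (c (l 16750800) (l 16750112))) (b (c (b (l 16750792) (l 16746728)) (b (l 16750104) (l 16745416))) (b (c (l 16738888) (l 16736872)) (l 16724976)))) (b (b (b (c (l 828022478519) (a (l 3) (l 16751480))) (c (l 16694816) (a (l 16736064) (l 16773976)))) (c (a (l 16737608) (l 16774952)) (a (l 16736576) (l 16732952)))) (b (a (c (b (l 16735672) (l 16726848)) (b (l 16734248) (l 16724240))) (b (c (l 16769840) (l 16706800)) (l 16751704))) (l 16719760))))) (b (a (b (c (b (a (l 16727032) (l 16727936)) (a (l 16706384) (l 16731352))) (b (a (l 273434870151) (l 16727544)) (a (l 16704736) (l 16689208)))) (a (c (b (l 16664232) (a (l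 16675568) (l 16644128))) (b (a (l 16686568) (l 16678960)) (a (l 16630976) (l 16640816)))) (b (c (l 16695280) (a (l 16691752) (l 16700704))) (l 16641720)))) (a (b (a (c (b (l 16673768) (l 16689760)) (b (l 16672192) (l 16688752))) (b (c (l 16654808) (l 16652976)) (l 16682656))) (l 16664976)) (b (a (b (c (l 16624600) (l 16622784)) (l 16684456)) (c (l 16663160) (l 16662184))) (l 16640624)))) (a (b (a (a (b (c (l 16660304) (l 16657216)) (l 16642008)) (l 16577216)) (l 16571864)) (a (l 16521440) (l 16506896))) (a (b (l 16579224) (l 16524672)) (b (l 16574568) (a (l 16539392) (l 16538128))))))), by decide +kernel⟩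

def k4_pm_102 : ∃ t, chk3 f_pm_102 t 2 5 1 = true :=
  ⟨(a (a (l 2) (b (b (b (b (c (l 16777208) (l 48419045367)) (l 2)) (l 2)) (l 2)) (l 2))) (b (b (b (a (b (c (b (l 16777200) (l 16776368)) (b (l 16777200) (l 16776344))) (b (c (l 16775848) (l 16775816)) (l 16776704))) (b (c (b (l 16774488) (l 16772232)) (b (l 16774416) (a (l 16774904) (l 16769456)))) (l 16774216))) (b (c (l 16758432) (l 16757944)) (b (l 16730336) (b (l 16723872) (a (l 16725640) (c (l 16718976) (l 16717464))))))) (l 16735456)) (b (l 16764760) (l 16777200)))), by decide +kernel⟩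

def k5_pm_102 : ∃ t, chk3 f_pm_102 t 3 5 1 = true :=
  ⟨(b (a (a (b (b (b (a (a (b (l 16769264) (l 16765424)) (l 16762536)) (l 16748128)) (l 16767768)) (b (l 16744640) (b (l 16711240) (b (a (l 16712312) (l 16688600)) (b (b (b (l 16717016) (a (l 16714136) (a (l 16678024) (l 16743048)))) (l 16729624)) (l 16730808)))))) (a (l 16739896) (l 16767240))) (b (b (b (a (l 16723560) (l 16723056)) (a (l 16744328) (l 16709088))) (b (a (l 16724272) (a (l 16712016) (l 16737888))) (b (a (l 16692976) (b (a (l 16677024) (l 16709952)) (a (l 16686344) (l 16739384)))) (b (a (b (l 16697256) (l 16701056)) (l 16740880)) (a (l 16736248) (l 16675080)))))) (a (l 16702200) (l 16658568)))) (b (b (a (a (b (l 16586672) (l 16613792)) (b (l 16470688) (a (l 16470664) (l 16445904)))) (b (a (l 16492680) (a (l 16505944) (b (l 16515920) (l 16465824)))) (a (b (l 16465656) (l 16431888)) (a (l 16413912) (l 16367752))))) (a (b (a (b (l 16642464) (a (l 16708160) (l 16595888))) (b (a (l 16482616) (l 16414144)) (l 16239600)))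 (b (a (b (l 16636552) (l 16596960)) (l 16333888)) (a (b (l 16546224) (l 16502720)) (b (l 16263536) (l 16220872))))) (b (a (l 16319656) (l 16237584)) (b (a (l 16188528) (l 16105608)) (b (a (l 16107096) (l 16032248)) (a (l 16055768) (l 15966040))))))) (a (a (l 16505768) (l 16240192)) (a (b (l 16018728) (l 16017960)) (b (l 15945240) (l 15910128)))))) (b (a (a (l 16770448) (l 16716808)) (a (a (l 16571448) (l 16342792)) (a (l 16112376) (b (l 15910512) (l 15965744))))) (a (a (l 16772616) (l 16754272)) (a (l 16517416) (a (l 16211480) (l 16016704)))))), by decide +kernel⟩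

def k6_pm_102 : ∃ t, chk3 f_pm_102 t 1 3 1 = true :=
  ⟨(a (b (a (l 2) (l 16777216)) (l 2)) (a (b (a (l 16772632) (l 16754344)) (l 16761352)) (b (a (b (l 16517520) (l 16517520)) (b (b (l 16113632) (c (l 16122144) (l 16105128))) (b (c (l 16122144) (l 16105128)) (l 16113632)))) (a (c (l 16520848) (l 16514184)) (b (l 16113632) (l 16113632)))))), by decide +kernel⟩

theorem s7_pm_102 : ∃ t, chk3 f_pm_102 t 1 5 1 = true := ex3_a k4_pm_102 k5_pm_102

theorem s8_pm_102 : ∃ t, chk3 f_pm_102 t 3 9 1 = true := ex3_b k2_pm_102 k3_pm_102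

theorem s9_pm_102 : ∃ t, chk3 f_pm_102 t 1 9 1 = true := ex3_a k1_pm_102 s8_pm_102

theorem s10_pm_102 : ∃ t, chk3 f_pm_102 t 1 4 1 = true := ex3_b k0_pm_102 s9_pm_102

theorem s11_pm_102 : ∃ t, chk3 f_pm_102 t 1 2 1 = true := ex3_b s10_pm_102 s7_pm_102

theorem s12_pm_102 : ∃ t, chk3 f_pm_102 t 1 1 1 = true := ex3_b s11_pm_102 k6_pm_102

theorem c_pm_102 : CertFX 536870912 536870912 67108864 469762048 1046898278 26843546 true true false .npp 1 0 2
    ndF1q1 ndF2q0 pcF2 Cut.none Ext.none :=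
  certFX1 (fam := true) (s1 := true) (s2 := false) (a := 1) (b := 0) (c := 2) (cn := .npp) (n1 := ndF1q1) (n2 := ndF2q0) (pc := pcF2) (cut := Cut.none) (xt := Ext.none) (P1 := 536870912) (W1 := 536870912) (P2 := 67108864) (W2 := 469762048) (P3 := 1046898278) (W3 := 26843546)
    rfl (fun _ => rfl) s12_pm_102

noncomputable def f_pm_112 : ℕ → ℕ → ℕ → ℕ → Bool := onCell 536870912 536870912 1073741824 536870912 1046898278 26843546
    (rowFX 1 true true false .dn 1 1 2 (qsf 536870912 536870912 536870912 536870912 2) ndF1q1 ndF2q1 pcF2 Cut.none Ext.none)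

def k0_pm_112 : ∃ t, chk3 f_pm_112 t 1 1 1 = true :=
  ⟨(b (b (a (b (l 3) (b (l 3) (a (a (l 3) (b (l 3) (b (l 3) (b (l 877414842375) (a (l 16777216) (l 16777216)))))) (a (a (b (l 1) (b (l 1) (c (l 16777208) (l 16777208)))) (l 1)) (l 1))))) (l 1)) (b (a (a (b (b (b (c (a (l 16777216) (l 16777208)) (a (l 16777216) (l 16777208))) (c (b (l 16776960) (a (l 16777208) (l 16777104))) (b (l 16776952) (a (l 16777208) (l 16777104))))) (b (b (c (c (l 16774656) (l 16774624)) (c (l 16774592) (l 16774560))) (b (c (l 16769536) (l 16769336)) (l 16762584))) (b (l 16750472) (b (l 16741272) (a (l 16740528) (l 16733168)))))) (l 16746560)) (b (a (b (a (b (c (l 16777200) (l 16777200)) (b (c (l 16776744) (l 16776728)) (l 16776840))) (l 1)) (b (l 16761608) (b (l 16735584) (b (l 16728416) (l 16725640))))) (l 1)) (l 16735456))) (l 1)) (a (a (l 16772216) (b (l 16764760) (l 16777200))) (a (a (l 499323681111) (l 1)) (l 1))))) (a (b (a (a (l 16767528) (l 16776288)) (l 16777216)) (a (a (b (l 16733640) (l 16527104))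 (l 16654096)) (l 16768800))) (a (b (a (l 16772632) (l 16754344)) (l 16761352)) (b (a (l 357589017383) (l 1)) (a (c (l 16520848) (l 16514184)) (b (l 16113632) (l 16113632))))))), by decide +kernel⟩

theorem c_pm_112 : CertFX 536870912 536870912 536870912 536870912 1046898278 26843546 true true false .dn 1 1 2
    ndF1q1 ndF2q1 pcF2 Cut.none Ext.none :=
  certFX1 (fam := true) (s1 := true) (s2 := false) (a := 1) (b := 1) (c := 2) (cn := .dn) (n1 := ndF1q1) (n2 := ndF2q1) (pc := pcF2) (cut := Cut.none) (xt := Ext.none) (P1 := 536870912) (W1 := 536870912) (P2 := 536870912) (W2 := 536870912) (P3 := 1046898278) (W3 := 26843546)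
    rfl (fun _ => rfl) k0_pm_112

noncomputable def f_pm_113 : ℕ → ℕ → ℕ → ℕ → Bool := onCell 536870912 536870912 1610612736 536870912 1046898278 26843546
    (rowFX 1 true true false .nn 1 1 3 (qsf 536870912 536870912 536870912 536870912 3) ndF1q1 ndF2q1 pcF3 Cut.none Ext.none)

def k0_pm_113 : ∃ t, chk3 f_pm_113 t 1 1 1 = true :=
  ⟨(a (b (b (a (a (b (a (l 16307008) (l 16413280)) (b (l 226658636695) (l 2))) (b (l 16548080) (l 16172240))) (a (b (l 16733640) (l 16548080)) (l 16730112))) (a (a (l 2) (b (a (l 2) (l 337790915479)) (l 2))) (b (a (l 16340008) (l 16569048)) (a (a (l 2) (l 16200704)) (l 16340008))))) (b (a (l 2) (b (a (l 2) (l 220215983655)) (l 2))) (l 2))) (a (b (b (a (l 16769496) (l 16712920)) (a (b (l 16737912) (l 16573280)) (b (l 16761600) (l 16726120)))) (b (a (b (l 340475494039) (a (l 2) (l 16208864))) (b (a (l 16541392) (l 16635464)) (a (l 16330296) (l 16429320)))) (b (b (a (l 2) (a (l 2) (l 16267736))) (l 2)) (l 2)))) (a (b (b (b (l 16517520) (l 16517520)) (b (l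 16518888) (l 16528416))) (b (b (l 16479456) (b (l 16381912) (l 16295904))) (b (b (a (l 16235288) (l 16171312)) (b (l 16145280) (a (l 2) (l 16081000)))) (b (b (a (l 2) (b (l 16064192) (l 2))) (l 2)) (l 2))))) (b (b (b (l 16113632) (l 16113632)) (l 16114512)) (b (b (l 16124368) (b (l 16107480) (l 16060728))) (b (b (b (l 16011800) (a (l 16046600) (l 15917792))) (b (a (l 16026232) (l 15892808)) (b (c (l 16019736) (l 15885744)) (c (l 16035784) (l 15872216))))) (a (b (b (c (l 16178920) (l 15920152)) (c (b (l 16298952) (l 16471024)) (b (l 15936568) (l 15975648)))) (l 4)) (b (b (c (b (l 15956656) (l 15990656)) (l 15793968)) (a (l 4) (l 4))) (l 4))))))))), by decide +kernel⟩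

theorem c_pm_113 : CertFX 536870912 536870912 536870912 536870912 1046898278 26843546 true true false .nn 1 1 3
    ndF1q1 ndF2q1 pcF3 Cut.none Ext.none :=
  certFX1 (fam := true) (s1 := true) (s2 := false) (a := 1) (b := 1) (c := 3) (cn := .nn) (n1 := ndF1q1) (n2 := ndF2q1) (pc := pcF3) (cut := Cut.none) (xt := Ext.none) (P1 := 536870912) (W1 := 536870912) (P2 := 536870912) (W2 := 536870912) (P3 := 1046898278) (W3 := 26843546)
    rfl (fun _ => rfl) k0_pm_113

noncomputable def f_pm_123_a : ℕ → ℕ → ℕ → ℕ → Bool := onCell 1610612736 536870912 0 420477299 1046898278 26843546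
    (rowFX 2 true true false .npn 1 2 3 (qsf 536870912 536870912 0 420477299 3) ndF1q1 ndF2q2a pcF3 Cut.none Ext.none)

def k0_pm_123_a : ∃ t, chk3 f_pm_123_a t 1 1 1 = true :=
  ⟨(b (a (a (l 1) (a (b (l 16702392) (l 16752704)) (b (a (l 16702392) (l 16702392)) (a (l 16752704) (l 16752704))))) (a (a (a (b (l 16702392) (l 16752704)) (b (l 16702400) (l 16752712))) (a (b (c (l 16703368) (l 16701448)) (l 16710784)) (b (c (l 16703360) (l 16701440)) (l 16668832)))) (a (b (a (a (c (l 16703352) (l 16701432)) (l 4)) (l 4)) (a (a (l 16752704) (c (l 16753064) (l 16752440))) (a (a (l 306787939367) (l 4)) (l 4)))) (l 4)))) (a (b (a (l 110628603527) (a (l 16609208) (l 16609208))) (a (b (l 16394016) (l 16285176)) (b (l 16394016) (l 16285176)))) (a (a (b (a (l 16609208) (l 16609224)) (b (l 16394024) (l 16285184))) (b (a (l 16609256) (l 16588272)) (a (b (l 16394064) (l 16285232)) (b (l 16394128) (l 16286384))))) (a (a (b (a (l 16609192) (l 16504128)) (b (c (l 16398464) (l 16389672)) (a (l 16287056)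 (l 16286728)))) (b (a (c (l 16609808) (l 16606800)) (c (a (l 16605984) (l 16602616)) (a (l 16603552) (l 16600592)))) (a (b (c (l 16397008) (l 16391072)) (l 16246624)) (b (c (l 16390608) (l 16386392)) (c (l 16291104) (l 16285160)))))) (a (b (l 4) (b (a (c (a (l 16382328) (l 16381328)) (a (l 16378464) (l 16376536))) (l 4)) (a (c (a (l 16298648) (l 16316856)) (a (l 16286632) (l 16296280))) (a (c (l 16346696) (l 16317488)) (l 4))))) (l 4)))))), by decide +kernel⟩

theorem c_pm_123_a : CertFX 536870912 536870912 0 420477299 1046898278 26843546 true true false .npn 1 2 3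
    ndF1q1 ndF2q2a pcF3 Cut.none Ext.none :=
  certFX2 (fam := true) (s1 := true) (s2 := false) (a := 1) (b := 2) (c := 3) (cn := .npn) (n1 := ndF1q1) (n2 := ndF2q2a) (pc := pcF3) (cut := Cut.none) (xt := Ext.none) (P1 := 536870912) (W1 := 536870912) (P2 := 0) (W2 := 420477299) (P3 := 1046898278) (W3 := 26843546)
    rfl (fun _ => rfl) k0_pm_123_a

noncomputable def f_pm_123_b : ℕ → ℕ → ℕ → ℕ → Bool := onCell 1610612736 536870912 1239849684 370763052 1046898278 26843546
    (rowFX 2 true true false .npn 1 2 3 (qsf 536870912 536870912 1239849684 370763052 3) ndF1q1 ndF2q2b pcF3 Cut.none Ext.none)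

def k0_pm_123_b : ∃ t, chk3 f_pm_123_b t 1 1 1 = true :=
  ⟨(b (a (a (l 1) (a (b (c (l 16753368) (l 16752752)) (l 1)) (c (b (l 16753368) (l 16777216)) (b (l 16752752) (l 16777216))))) (a (a (a (c (l 16766128) (l 16765840)) (c (l 16766128) (l 16723904))) (a (c (b (l 16753376) (l 16777216)) (b (l 16752752) (l 16777216))) (b (c (a (l 16753368) (l 16753368)) (a (l 16752752) (l 16752752))) (l 4)))) (a (l 4) (l 4)))) (a (l 1) (a (a (l 1) (a (a (l 203172085783) (l 4)) (l 4))) (l 4)))), by decide +kernel⟩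

theorem c_pm_123_b : CertFX 536870912 536870912 1239849684 370763052 1046898278 26843546 true true false .npn 1 2 3
    ndF1q1 ndF2q2b pcF3 Cut.none Ext.none :=
  certFX2 (fam := true) (s1 := true) (s2 := false) (a := 1) (b := 2) (c := 3) (cn := .npn) (n1 := ndF1q1) (n2 := ndF2q2b) (pc := pcF3) (cut := Cut.none) (xt := Ext.none) (P1 := 536870912) (W1 := 536870912) (P2 := 1239849684) (W2 := 370763052) (P3 := 1046898278) (W3 := 26843546)
    rfl (fun _ => rfl) k0_pm_123_b

noncomputable def f_pm_133 : ℕ → ℕ → ℕ → ℕ → Bool := onCell 536870912 536870912 1610612736 469762048 1046898278 26843546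
    (rowFX 0 true true false .dn 1 3 3 (qsf 536870912 536870912 1610612736 469762048 3) ndF1q1 ndF2q3 pcF3 Cut.none Ext.none)

def k0_pm_133 : ∃ t, chk3 f_pm_133 t 1 1 1 = true :=
  ⟨(l 4), by decide +kernel⟩

theorem c_pm_133 : CertFX 536870912 536870912 1610612736 469762048 1046898278 26843546 true true false .dn 1 3 3
    ndF1q1 ndF2q3 pcF3 Cut.none Ext.none :=
  certFX0 (fam := true) (s1 := true) (s2 := false) (a := 1) (b := 3) (c := 3) (cn := .dn) (n1 := ndF1q1) (n2 := ndF2q3) (pc := pcF3) (cut := Cut.none) (xt := Ext.none) (P1 := 536870912) (W1 := 536870912) (P2 := 1610612736) (W2 := 469762048) (P3 := 1046898278) (W3 := 26843546)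
    rfl k0_pm_133

noncomputable def f_pm_202_a : ℕ → ℕ → ℕ → ℕ → Bool := onCell 0 420477299 1073741824 536870912 1046898278 26843546
    (rowFX 1 true true false .pp 2 0 2 (qsf 0 420477299 67108864 469762048 2) ndF1q2a ndF2q0 pcF2 Cut.none Ext.none)

def k0_pm_202_a : ∃ t, chk3 f_pm_202_a t 2 2 1 = true :=
  ⟨(b (l 1) (b (l 1) (b (b (a (l 1) (a (l 1) (c (c (l 15879808) (l 15877608)) (l 15862000)))) (a (b (l 1) (c (a (l 15492792) (l 15527480)) (l 15481024))) (c (a (b (l 15658872) (l 15596216)) (l 15731936)) (a (l 15599496) (l 15704504))))) (a (c (b (b (a (l 15491448) (l 15525256)) (l 15603584)) (l 15745200)) (b (b (l 15477368) (l 15572920)) (l 15718312))) (c (b (a (b (l 15592936) (l 15685616)) (l 15635624)) (a (l 15820624) (l 15899656))) (b (a (l 15609664) (l 15713472)) (l 15834352))))))), by decide +kernel⟩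

def k1_pm_202_a : ∃ t, chk3 f_pm_202_a t 3 2 1 = true :=
  ⟨(b (b (l 1) (a (l 1) (b (l 1) (b (l 1) (b (l 1) (a (l 1) (a (l 1) (a (l 1) (b (l 1) (c (l 614748424023) (l 15748576))))))))))) (b (a (b (l 1) (b (a (l 1) (c (b (l 1) (l 16341952)) (l 16407208))) (a (c (a (l 1) (l 16173944)) (l 16194608)) (c (a (l 16243544) (l 16388760)) (l 16248952))))) (b (a (a (l 1) (b (l 1) (c (l 343629033111) (l 15971240)))) (b (c (a (b (l 1) (l 15771496)) (c (l 15399328) (l 15633152))) (a (l 15709136) (b (l 15688384) (l 15536792)))) (c (a (l 15799536) (l 15653456)) (a (l 15776704) (l 15624704))))) (a (b (c (a (a (l 16384032) (l 16385192)) (l 16258120)) (a (l 16305256) (l 16228952))) (a (c (l 16471192) (l 16426168)) (c (l 16520312) (l 16434008)))) (b (c (a (l 16145784) (l 15922464)) (a (l 16130640) (l 15837768))) (c (a (l 16337424) (l 16201904)) (a (l 16287232) (l 16166768))))))) (a (a (b (c (b (b (l 16060184) (l 15982464)) (l 15873384)) (b (l 16003960) (l 15850312))) (b (c (l 15775216) (l 15835232))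 (l 15978304))) (b (c (b (l 16204192) (l 16032488)) (b (l 16190688) (l 16013544))) (c (l 15805632) (l 15891240)))) (b (b (a (c (a (l 16345392) (l 16439096)) (a (l 16315112) (l 16392368))) (a (l 16456960) (l 16226736))) (a (c (l 16077112) (l 16000384)) (a (l 16290096) (c (l 16609320) (l 16460416))))) (b (a (c (l 16039440) (a (l 16063032) (l 16191944))) (c (l 16252304) (a (l 16344064) (l 16433512)))) (a (c (l 16256816) (l 16222504)) (c (l 16426632) (l 16359296)))))))), by decide +kernel⟩

def k2_pm_202_a : ∃ t, chk3 f_pm_202_a t 1 3 1 = true :=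
  ⟨(b (a (b (b (a (c (b (l 15905088) (l 16025016)) (b (l 15882432) (l 16005488))) (c (l 15901120) (l 16028976))) (a (a (b (l 16120792) (l 16237952)) (l 16196608)) (c (l 16281400) (l 16268528)))) (b (a (a (l 16423232) (b (l 16381024) (l 16505240))) (b (l 16460264) (l 16583112))) (a (b (l 16617688) (l 16730960)) (a (b (l 16669656) (l 16760608)) (l 16745600))))) (a (b (b (c (l 16091632) (l 16077096)) (c (l 16374392) (l 16366112))) (b (b (a (l 16580688) (l 16688168)) (l 16639352)) (l 16771160))) (a (b (b (c (l 16311272) (l 16281656)) (c (l 16419464) (l 16416976))) (b (c (l 16625392) (l 16603288)) (l 16722320))) (c (b (b (l 16487056) (a (l 16610376) (l 16450968))) (l 16483928)) (b (b (a (l 16576504) (l 16490896)) (a (l 16564504) (l 16442608))) (l 16476856)))))) (a (b (a (c (l 16777152) (l 16777152)) (c (l 16777208) (l 16777208))) (c (l 16777208) (l 16777208))) (a (b (b (l 16777184) (l 16777184)) (c (l 16777184) (l 16777184))) (a (b (l 16638432) (l 16722320)) (b (l 16438448) (l 16501368)))))),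 by decide +kernel⟩

theorem s3_pm_202_a : ∃ t, chk3 f_pm_202_a t 1 2 1 = true := ex3_a k0_pm_202_a k1_pm_202_a

theorem s4_pm_202_a : ∃ t, chk3 f_pm_202_a t 1 1 1 = true := ex3_b s3_pm_202_a k2_pm_202_a

theorem c_pm_202_a : CertFX 0 420477299 67108864 469762048 1046898278 26843546 true true false .pp 2 0 2
    ndF1q2a ndF2q0 pcF2 Cut.none Ext.none :=
  certFX1 (fam := true) (s1 := true) (s2 := false) (a := 2) (b := 0) (c := 2) (cn := .pp) (n1 := ndF1q2a) (n2 := ndF2q0) (pc := pcF2) (cut := Cut.none) (xt := Ext.none) (P1 := 0) (W1 := 420477299) (P2 := 67108864) (W2 := 469762048) (P3 := 1046898278) (W3 := 26843546)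
    rfl (fun _ => rfl) s4_pm_202_a

noncomputable def f_pm_202_b : ℕ → ℕ → ℕ → ℕ → Bool := onCell 1073741824 536870912 67108864 469762048 1046898278 26843546
    (rowFX 2 true true false .pp 2 0 2 (qsf 1239849684 370763052 67108864 469762048 2) ndF1q2b ndF2q0 pcF2 Cut.none Ext.none)

def k0_pm_202_b : ∃ t, chk3 f_pm_202_b t 1 1 1 = true :=
  ⟨(a (a (l 1) (b (a (l 1) (b (b (a (a (l 1) (b (c (l 248602228327) (l 15721784)) (l 1))) (c (b (a (a (b (l 199209909927) (l 1)) (l 15582624)) (l 15582624)) (a (l 1) (l 15887912))) (b (a (l 223368981511) (l 15549848)) (l 450466048183)))) (l 1)) (l 1))) (l 1))) (b (a (b (b (a (b (c (a (l 15582624) (l 15583008)) (l 15550632)) (a (c (l 250750209383) (l 15865192)) (c (l 15889976) (l 15866928)))) (a (b (l 15568616) (l 15877568)) (l 15483520))) (a (a (b (l 547103433063) (l 1)) (l 336113140839)) (a (l 393558305559) (l 16191784)))) (a (l 1) (b (a (b (l 16516848) (l 1)) (b (l 16513272) (l 16718128))) (l 1)))) (b (b (a (c (l 15729880) (l 15696776)) (l 15672264))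 (a (c (l 16199288) (l 16184280)) (l 16191784))) (a (b (c (l 16618928) (l 16614816)) (a (l 421477185815) (l 16777216))) (b (c (l 16618928) (l 16614816)) (c (l 16777216) (l 16777216)))))) (b (a (l 1) (a (b (a (l 1) (l 392486026311)) (l 1)) (b (c (l 16777216) (l 16777216)) (a (l 1) (l 438657039591))))) (l 1)))), by decide +kernel⟩

theorem c_pm_202_b : CertFX 1239849684 370763052 67108864 469762048 1046898278 26843546 true true false .pp 2 0 2
    ndF1q2b ndF2q0 pcF2 Cut.none Ext.none :=
  certFX2 (fam := true) (s1 := true) (s2 := false) (a := 2) (b := 0) (c := 2) (cn := .pp) (n1 := ndF1q2b) (n2 := ndF2q0) (pc := pcF2) (cut := Cut.none) (xt := Ext.none) (P1 := 1239849684) (W1 := 370763052) (P2 := 67108864) (W2 := 469762048) (P3 := 1046898278) (W3 := 26843546)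
    rfl (fun _ => rfl) k0_pm_202_b

noncomputable def f_pm_203_a : ℕ → ℕ → ℕ → ℕ → Bool := onCell 0 420477299 1610612736 536870912 1046898278 26843546
    (rowFX 1 true true false .up 2 0 3 (qsf 0 420477299 67108864 469762048 3) ndF1q2a ndF2q0 pcF3 Cut.none Ext.none)

def k0_pm_203_a : ∃ t, chk3 f_pm_203_a t 1 1 1 = true :=
  ⟨(b (b (a (b (c (b (l 16777208) (l 16777208)) (b (l 16777208) (l 16777208))) (c (b (l 16777208) (l 16777208)) (b (l 16777208) (l 16777208)))) (a (b (c (l 16777184) (l 16777184)) (c (l 16777184) (l 16777184))) (b (a (c (l 16723024) (l 16721616)) (c (l 16504904) (l 16497824))) (a (c (l 16723024) (l 16721616)) (c (l 16504904) (l 16497824)))))) (b (a (a (l 4) (b (b (l 16777208) (l 16777208)) (l 2))) (a (c (l 16777184) (l 16777184)) (l 2))) (l 2))) (l 2)), by decide +kernel⟩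

theorem c_pm_203_a : CertFX 0 420477299 67108864 469762048 1046898278 26843546 true true false .up 2 0 3
    ndF1q2a ndF2q0 pcF3 Cut.none Ext.none :=
  certFX1 (fam := true) (s1 := true) (s2 := false) (a := 2) (b := 0) (c := 3) (cn := .up) (n1 := ndF1q2a) (n2 := ndF2q0) (pc := pcF3) (cut := Cut.none) (xt := Ext.none) (P1 := 0) (W1 := 420477299) (P2 := 67108864) (W2 := 469762048) (P3 := 1046898278) (W3 := 26843546)
    rfl (fun _ => rfl) k0_pm_203_a

noncomputable def f_pm_203_b : ℕ → ℕ → ℕ → ℕ → Bool := onCell 1610612736 536870912 67108864 469762048 1046898278 26843546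
    (rowFX 2 true true false .up 2 0 3 (qsf 1239849684 370763052 67108864 469762048 3) ndF1q2b ndF2q0 pcF3 Cut.none Ext.none)

def k0_pm_203_b : ∃ t, chk3 f_pm_203_b t 1 1 1 = true :=
  ⟨(a (b (a (b (a (b (c (l 15729880) (l 15696776)) (l 16191784)) (b (c (l 15729880) (l 15696776)) (c (l 16199288) (l 16184280)))) (a (b (l 16616872) (l 16777216)) (a (b (l 16616872) (l 16777216)) (b (l 16616872) (l 4))))) (b (a (a (b (l 2) (l 16191784)) (l 4)) (l 2)) (l 4))) (a (a (b (c (l 352220872631) (l 411276672951)) (a (l 1) (b (l 574485393127) (l 1)))) (a (b (c (l 16777216) (l 16777216)) (l 4)) (l 4))) (l 4))) (l 4)), by decide +kernel⟩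

theorem c_pm_203_b : CertFX 1239849684 370763052 67108864 469762048 1046898278 26843546 true true false .up 2 0 3
    ndF1q2b ndF2q0 pcF3 Cut.none Ext.none :=
  certFX2 (fam := true) (s1 := true) (s2 := false) (a := 2) (b := 0) (c := 3) (cn := .up) (n1 := ndF1q2b) (n2 := ndF2q0) (pc := pcF3) (cut := Cut.none) (xt := Ext.none) (P1 := 1239849684) (W1 := 370763052) (P2 := 67108864) (W2 := 469762048) (P3 := 1046898278) (W3 := 26843546)
    rfl (fun _ => rfl) k0_pm_203_b

noncomputable def f_pm_213_a : ℕ → ℕ → ℕ → ℕ → Bool := onCell 0 420477299 1610612736 536870912 1046898278 26843546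
    (rowFX 1 true true false .pnn 2 1 3 (qsf 0 420477299 536870912 536870912 3) ndF1q2a ndF2q1 pcF3 Cut.none Ext.none)

def k0_pm_213_a : ∃ t, chk3 f_pm_213_a t 1 1 1 = true :=
  ⟨(b (a (b (l 1) (a (l 4) (b (c (b (l 16777208) (l 16777208)) (b (l 16777208) (l 16777208))) (l 4)))) (b (a (b (l 1) (c (l 16777184) (l 16777184))) (b (a (l 1) (l 380137293863)) (a (c (l 16723024) (l 16721616)) (c (l 16504904) (l 16497824))))) (c (a (b (l 16777184) (b (l 16777184) (l 16777184))) (b (a (l 16723024) (l 16504904)) (a (l 16723024) (l 16504904)))) (a (b (l 16777184) (b (l 16777184) (l 16777184))) (b (a (l 16721616) (l 16497824)) (a (l 16721616) (l 16497824))))))) (b (a (l 4) (b (a (l 4) (b (c (l 16613736) (l 16609488)) (c (l 16613736) (l 240752347159)))) (l 4))) (l 4))), by decide +kernel⟩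

theorem c_pm_213_a : CertFX 0 420477299 536870912 536870912 1046898278 26843546 true true false .pnn 2 1 3
    ndF1q2a ndF2q1 pcF3 Cut.none Ext.none :=
  certFX1 (fam := true) (s1 := true) (s2 := false) (a := 2) (b := 1) (c := 3) (cn := .pnn) (n1 := ndF1q2a) (n2 := ndF2q1) (pc := pcF3) (cut := Cut.none) (xt := Ext.none) (P1 := 0) (W1 := 420477299) (P2 := 536870912) (W2 := 536870912) (P3 := 1046898278) (W3 := 26843546)
    rfl (fun _ => rfl) k0_pm_213_a

noncomputable def f_pm_213_b : ℕ → ℕ → ℕ → ℕ → Bool := onCell 1239849684 370763052 536870912 536870912 1046898278 26843546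
    (rowFX 0 true true false .pnn 2 1 3 (qsf 1239849684 370763052 536870912 536870912 3) ndF1q2b ndF2q1 pcF3 Cut.none Ext.none)

def k0_pm_213_b : ∃ t, chk3 f_pm_213_b t 1 1 1 = true :=
  ⟨(l 4), by decide +kernel⟩

theorem c_pm_213_b : CertFX 1239849684 370763052 536870912 536870912 1046898278 26843546 true true false .pnn 2 1 3
    ndF1q2b ndF2q1 pcF3 Cut.none Ext.none :=
  certFX0 (fam := true) (s1 := true) (s2 := false) (a := 2) (b := 1) (c := 3) (cn := .pnn) (n1 := ndF1q2b) (n2 := ndF2q1) (pc := pcF3) (cut := Cut.none) (xt := Ext.none) (P1 := 1239849684) (W1 := 370763052) (P2 := 536870912) (W2 := 536870912) (P3 := 1046898278) (W3 := 26843546)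
    rfl k0_pm_213_b

noncomputable def f_pm_303 : ℕ → ℕ → ℕ → ℕ → Bool := onCell 1610612736 536870912 67108864 469762048 1046898278 26843546
    (rowFX 2 true true false .npn 3 0 3 (qsf 1610612736 469762048 67108864 469762048 3) ndF1q3 ndF2q0 pcF3 Cut.none Ext.none)

def k0_pm_303 : ∃ t, chk3 f_pm_303 t 1 1 1 = true :=
  ⟨(a (b (a (b (a (b (l 442412556599) (l 1)) (b (c (l 15729880) (l 15696776)) (c (l 16199288) (l 16184280)))) (l 1)) (b (a (a (b (c (l 15729880) (l 15696776)) (l 16191784)) (l 4)) (l 4)) (l 4))) (l 1)) (l 4)), by decide +kernel⟩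

theorem c_pm_303 : CertFX 1610612736 469762048 67108864 469762048 1046898278 26843546 true true false .npn 3 0 3
    ndF1q3 ndF2q0 pcF3 Cut.none Ext.none :=
  certFX2 (fam := true) (s1 := true) (s2 := false) (a := 3) (b := 0) (c := 3) (cn := .npn) (n1 := ndF1q3) (n2 := ndF2q0) (pc := pcF3) (cut := Cut.none) (xt := Ext.none) (P1 := 1610612736) (W1 := 469762048) (P2 := 67108864) (W2 := 469762048) (P3 := 1046898278) (W3 := 26843546)
    rfl (fun _ => rfl) k0_pm_303

noncomputable def f_pm_313 : ℕ → ℕ → ℕ → ℕ → Bool := onCell 1610612736 469762048 536870912 536870912 1046898278 26843546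
    (rowFX 0 true true false .dn 3 1 3 (qsf 1610612736 469762048 536870912 536870912 3) ndF1q3 ndF2q1 pcF3 Cut.none Ext.none)

def k0_pm_313 : ∃ t, chk3 f_pm_313 t 1 1 1 = true :=
  ⟨(l 4), by decide +kernel⟩

theorem c_pm_313 : CertFX 1610612736 469762048 536870912 536870912 1046898278 26843546 true true false .dn 3 1 3
    ndF1q3 ndF2q1 pcF3 Cut.none Ext.none :=
  certFX0 (fam := true) (s1 := true) (s2 := false) (a := 3) (b := 1) (c := 3) (cn := .dn) (n1 := ndF1q3) (n2 := ndF2q1) (pc := pcF3) (cut := Cut.none) (xt := Ext.none) (P1 := 1610612736) (W1 := 469762048) (P2 := 536870912) (W2 := 536870912) (P3 := 1046898278) (W3 := 26843546)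
    rfl k0_pm_313

noncomputable def f_mm_001 : ℕ → ℕ → ℕ → ℕ → Bool := onCell 67108864 469762048 67108864 469762048 1046898278 26843546
    (rowFX 0 true false false .up 0 0 1 (qsf 67108864 469762048 67108864 469762048 1) ndF1q0 ndF2q0 pcF1 Cut.none Ext.none)

def k0_mm_001 : ∃ t, chk3 f_mm_001 t 1 1 1 = true :=
  ⟨(l 4), by decide +kernel⟩

theorem c_mm_001 : CertFX 67108864 469762048 67108864 469762048 1046898278 26843546 true false false .up 0 0 1
    ndF1q0 ndF2q0 pcF1 Cut.none Ext.none :=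
  certFX0 (fam := true) (s1 := false) (s2 := false) (a := 0) (b := 0) (c := 1) (cn := .up) (n1 := ndF1q0) (n2 := ndF2q0) (pc := pcF1) (cut := Cut.none) (xt := Ext.none) (P1 := 67108864) (W1 := 469762048) (P2 := 67108864) (W2 := 469762048) (P3 := 1046898278) (W3 := 26843546)
    rfl k0_mm_001

noncomputable def f_mm_011 : ℕ → ℕ → ℕ → ℕ → Bool := onCell 67108864 469762048 536870912 536870912 1046898278 26843546
    (rowFX 0 true false false .pnn 0 1 1 (qsf 67108864 469762048 536870912 536870912 1) ndF1q0 ndF2q1 pcF1 Cut.none Ext.none)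

def k0_mm_011 : ∃ t, chk3 f_mm_011 t 1 1 1 = true :=
  ⟨(l 4), by decide +kernel⟩

theorem c_mm_011 : CertFX 67108864 469762048 536870912 536870912 1046898278 26843546 true false false .pnn 0 1 1
    ndF1q0 ndF2q1 pcF1 Cut.none Ext.none :=
  certFX0 (fam := true) (s1 := false) (s2 := false) (a := 0) (b := 1) (c := 1) (cn := .pnn) (n1 := ndF1q0) (n2 := ndF2q1) (pc := pcF1) (cut := Cut.none) (xt := Ext.none) (P1 := 67108864) (W1 := 469762048) (P2 := 536870912) (W2 := 536870912) (P3 := 1046898278) (W3 := 26843546)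
    rfl k0_mm_011

noncomputable def f_mm_012 : ℕ → ℕ → ℕ → ℕ → Bool := onCell 67108864 469762048 536870912 536870912 1046898278 26843546
    (rowFX 0 true false false .pnp 0 1 2 (qsf 67108864 469762048 536870912 536870912 2) ndF1q0 ndF2q1 pcF2 Cut.none Ext.none)

def k0_mm_012 : ∃ t, chk3 f_mm_012 t 1 1 1 = true :=
  ⟨(l 4), by decide +kernel⟩

theorem c_mm_012 : CertFX 67108864 469762048 536870912 536870912 1046898278 26843546 true false false .pnp 0 1 2
    ndF1q0 ndF2q1 pcF2 Cut.none Ext.none :=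
  certFX0 (fam := true) (s1 := false) (s2 := false) (a := 0) (b := 1) (c := 2) (cn := .pnp) (n1 := ndF1q0) (n2 := ndF2q1) (pc := pcF2) (cut := Cut.none) (xt := Ext.none) (P1 := 67108864) (W1 := 469762048) (P2 := 536870912) (W2 := 536870912) (P3 := 1046898278) (W3 := 26843546)
    rfl k0_mm_012

noncomputable def f_mm_022_a : ℕ → ℕ → ℕ → ℕ → Bool := onCell 67108864 469762048 0 420477299 1046898278 26843546
    (rowFX 0 true false false .pp 0 2 2 (qsf 67108864 469762048 0 420477299 2) ndF1q0 ndF2q2a pcF2 Cut.none Ext.none)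

def k0_mm_022_a : ∃ t, chk3 f_mm_022_a t 1 1 1 = true :=
  ⟨(l 5), by decide +kernel⟩

theorem c_mm_022_a : CertFX 67108864 469762048 0 420477299 1046898278 26843546 true false false .pp 0 2 2
    ndF1q0 ndF2q2a pcF2 Cut.none Ext.none :=
  certFX0 (fam := true) (s1 := false) (s2 := false) (a := 0) (b := 2) (c := 2) (cn := .pp) (n1 := ndF1q0) (n2 := ndF2q2a) (pc := pcF2) (cut := Cut.none) (xt := Ext.none) (P1 := 67108864) (W1 := 469762048) (P2 := 0) (W2 := 420477299) (P3 := 1046898278) (W3 := 26843546)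
    rfl k0_mm_022_a

noncomputable def f_mm_022_b : ℕ → ℕ → ℕ → ℕ → Bool := onCell 67108864 469762048 1239849684 370763052 1046898278 26843546
    (rowFX 0 true false false .pp 0 2 2 (qsf 67108864 469762048 1239849684 370763052 2) ndF1q0 ndF2q2b pcF2 Cut.none Ext.none)

def k0_mm_022_b : ∃ t, chk3 f_mm_022_b t 1 1 1 = true :=
  ⟨(l 5), by decide +kernel⟩

theorem c_mm_022_b : CertFX 67108864 469762048 1239849684 370763052 1046898278 26843546 true false false .pp 0 2 2
    ndF1q0 ndF2q2b pcF2 Cut.none Ext.none :=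
  certFX0 (fam := true) (s1 := false) (s2 := false) (a := 0) (b := 2) (c := 2) (cn := .pp) (n1 := ndF1q0) (n2 := ndF2q2b) (pc := pcF2) (cut := Cut.none) (xt := Ext.none) (P1 := 67108864) (W1 := 469762048) (P2 := 1239849684) (W2 := 370763052) (P3 := 1046898278) (W3 := 26843546)
    rfl k0_mm_022_b

noncomputable def f_mm_023_a : ℕ → ℕ → ℕ → ℕ → Bool := onCell 67108864 469762048 0 420477299 1046898278 26843546
    (rowFX 0 true false false .up 0 2 3 (qsf 67108864 469762048 0 420477299 3) ndF1q0 ndF2q2a pcF3 Cut.none Ext.none)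

def k0_mm_023_a : ∃ t, chk3 f_mm_023_a t 1 1 1 = true :=
  ⟨(l 5), by decide +kernel⟩

theorem c_mm_023_a : CertFX 67108864 469762048 0 420477299 1046898278 26843546 true false false .up 0 2 3
    ndF1q0 ndF2q2a pcF3 Cut.none Ext.none :=
  certFX0 (fam := true) (s1 := false) (s2 := false) (a := 0) (b := 2) (c := 3) (cn := .up) (n1 := ndF1q0) (n2 := ndF2q2a) (pc := pcF3) (cut := Cut.none) (xt := Ext.none) (P1 := 67108864) (W1 := 469762048) (P2 := 0) (W2 := 420477299) (P3 := 1046898278) (W3 := 26843546)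
    rfl k0_mm_023_a

noncomputable def f_mm_023_b : ℕ → ℕ → ℕ → ℕ → Bool := onCell 67108864 469762048 1239849684 370763052 1046898278 26843546
    (rowFX 0 true false false .up 0 2 3 (qsf 67108864 469762048 1239849684 370763052 3) ndF1q0 ndF2q2b pcF3 Cut.none Ext.none)

def k0_mm_023_b : ∃ t, chk3 f_mm_023_b t 1 1 1 = true :=
  ⟨(l 5), by decide +kernel⟩

theorem c_mm_023_b : CertFX 67108864 469762048 1239849684 370763052 1046898278 26843546 true false false .up 0 2 3
    ndF1q0 ndF2q2b pcF3 Cut.none Ext.none :=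
  certFX0 (fam := true) (s1 := false) (s2 := false) (a := 0) (b := 2) (c := 3) (cn := .up) (n1 := ndF1q0) (n2 := ndF2q2b) (pc := pcF3) (cut := Cut.none) (xt := Ext.none) (P1 := 67108864) (W1 := 469762048) (P2 := 1239849684) (W2 := 370763052) (P3 := 1046898278) (W3 := 26843546)
    rfl k0_mm_023_b

noncomputable def f_mm_033 : ℕ → ℕ → ℕ → ℕ → Bool := onCell 67108864 469762048 1610612736 469762048 1046898278 26843546
    (rowFX 0 true false false .pnn 0 3 3 (qsf 67108864 469762048 1610612736 469762048 3) ndF1q0 ndF2q3 pcF3 Cut.none Ext.none)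

def k0_mm_033 : ∃ t, chk3 f_mm_033 t 1 1 1 = true :=
  ⟨(l 4), by decide +kernel⟩

theorem c_mm_033 : CertFX 67108864 469762048 1610612736 469762048 1046898278 26843546 true false false .pnn 0 3 3
    ndF1q0 ndF2q3 pcF3 Cut.none Ext.none :=
  certFX0 (fam := true) (s1 := false) (s2 := false) (a := 0) (b := 3) (c := 3) (cn := .pnn) (n1 := ndF1q0) (n2 := ndF2q3) (pc := pcF3) (cut := Cut.none) (xt := Ext.none) (P1 := 67108864) (W1 := 469762048) (P2 := 1610612736) (W2 := 469762048) (P3 := 1046898278) (W3 := 26843546)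
    rfl k0_mm_033

noncomputable def f_mm_101 : ℕ → ℕ → ℕ → ℕ → Bool := onCell 536870912 536870912 67108864 469762048 1046898278 26843546
    (rowFX 0 true false false .npn 1 0 1 (qsf 536870912 536870912 67108864 469762048 1) ndF1q1 ndF2q0 pcF1 Cut.none Ext.none)

def k0_mm_101 : ∃ t, chk3 f_mm_101 t 1 1 1 = true :=
  ⟨(l 4), by decide +kernel⟩

theorem c_mm_101 : CertFX 536870912 536870912 67108864 469762048 1046898278 26843546 true false false .npn 1 0 1
    ndF1q1 ndF2q0 pcF1 Cut.none Ext.none :=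
  certFX0 (fam := true) (s1 := false) (s2 := false) (a := 1) (b := 0) (c := 1) (cn := .npn) (n1 := ndF1q1) (n2 := ndF2q0) (pc := pcF1) (cut := Cut.none) (xt := Ext.none) (P1 := 536870912) (W1 := 536870912) (P2 := 67108864) (W2 := 469762048) (P3 := 1046898278) (W3 := 26843546)
    rfl k0_mm_101

noncomputable def f_mm_102 : ℕ → ℕ → ℕ → ℕ → Bool := onCell 536870912 536870912 67108864 469762048 1046898278 26843546
    (rowFX 0 true false false .npp 1 0 2 (qsf 536870912 536870912 67108864 469762048 2) ndF1q1 ndF2q0 pcF2 Cut.none Ext.none)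

def k0_mm_102 : ∃ t, chk3 f_mm_102 t 1 1 1 = true :=
  ⟨(l 4), by decide +kernel⟩

theorem c_mm_102 : CertFX 536870912 536870912 67108864 469762048 1046898278 26843546 true false false .npp 1 0 2
    ndF1q1 ndF2q0 pcF2 Cut.none Ext.none :=
  certFX0 (fam := true) (s1 := false) (s2 := false) (a := 1) (b := 0) (c := 2) (cn := .npp) (n1 := ndF1q1) (n2 := ndF2q0) (pc := pcF2) (cut := Cut.none) (xt := Ext.none) (P1 := 536870912) (W1 := 536870912) (P2 := 67108864) (W2 := 469762048) (P3 := 1046898278) (W3 := 26843546)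
    rfl k0_mm_102

noncomputable def f_mm_112 : ℕ → ℕ → ℕ → ℕ → Bool := onCell 536870912 536870912 536870912 536870912 1046898278 26843546
    (rowFX 0 true false false .dn 1 1 2 (qsf 536870912 536870912 536870912 536870912 2) ndF1q1 ndF2q1 pcF2 Cut.none Ext.none)

def k0_mm_112 : ∃ t, chk3 f_mm_112 t 1 1 1 = true :=
  ⟨(l 4), by decide +kernel⟩

theorem c_mm_112 : CertFX 536870912 536870912 536870912 536870912 1046898278 26843546 true false false .dn 1 1 2
    ndF1q1 ndF2q1 pcF2 Cut.none Ext.none :=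
  certFX0 (fam := true) (s1 := false) (s2 := false) (a := 1) (b := 1) (c := 2) (cn := .dn) (n1 := ndF1q1) (n2 := ndF2q1) (pc := pcF2) (cut := Cut.none) (xt := Ext.none) (P1 := 536870912) (W1 := 536870912) (P2 := 536870912) (W2 := 536870912) (P3 := 1046898278) (W3 := 26843546)
    rfl k0_mm_112

noncomputable def f_mm_113 : ℕ → ℕ → ℕ → ℕ → Bool := onCell 536870912 536870912 536870912 536870912 1046898278 26843546
    (rowFX 0 true false false .nn 1 1 3 (qsf 536870912 536870912 536870912 536870912 3) ndF1q1 ndF2q1 pcF3 Cut.none Ext.none)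

def k0_mm_113 : ∃ t, chk3 f_mm_113 t 1 1 1 = true :=
  ⟨(l 4), by decide +kernel⟩

theorem c_mm_113 : CertFX 536870912 536870912 536870912 536870912 1046898278 26843546 true false false .nn 1 1 3
    ndF1q1 ndF2q1 pcF3 Cut.none Ext.none :=
  certFX0 (fam := true) (s1 := false) (s2 := false) (a := 1) (b := 1) (c := 3) (cn := .nn) (n1 := ndF1q1) (n2 := ndF2q1) (pc := pcF3) (cut := Cut.none) (xt := Ext.none) (P1 := 536870912) (W1 := 536870912) (P2 := 536870912) (W2 := 536870912) (P3 := 1046898278) (W3 := 26843546)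
    rfl k0_mm_113

noncomputable def f_mm_123_a : ℕ → ℕ → ℕ → ℕ → Bool := onCell 536870912 536870912 0 420477299 1046898278 26843546
    (rowFX 0 true false false .npn 1 2 3 (qsf 536870912 536870912 0 420477299 3) ndF1q1 ndF2q2a pcF3 Cut.none Ext.none)

def k0_mm_123_a : ∃ t, chk3 f_mm_123_a t 1 1 1 = true :=
  ⟨(l 4), by decide +kernel⟩

theorem c_mm_123_a : CertFX 536870912 536870912 0 420477299 1046898278 26843546 true false false .npn 1 2 3
    ndF1q1 ndF2q2a pcF3 Cut.none Ext.none :=
  certFX0 (fam := true) (s1 := false) (s2 := false) (a := 1) (b := 2) (c := 3) (cn := .npn) (n1 := ndF1q1) (n2 := ndF2q2a) (pc := pcF3) (cut := Cut.none) (xt := Ext.none) (P1 := 536870912) (W1 := 536870912) (P2 := 0) (W2 := 420477299) (P3 := 1046898278) (W3 := 26843546)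
    rfl k0_mm_123_a

noncomputable def f_mm_123_b : ℕ → ℕ → ℕ → ℕ → Bool := onCell 536870912 536870912 1239849684 370763052 1046898278 26843546
    (rowFX 0 true false false .npn 1 2 3 (qsf 536870912 536870912 1239849684 370763052 3) ndF1q1 ndF2q2b pcF3 Cut.none Ext.none)

def k0_mm_123_b : ∃ t, chk3 f_mm_123_b t 1 1 1 = true :=
  ⟨(l 4), by decide +kernel⟩

theorem c_mm_123_b : CertFX 536870912 536870912 1239849684 370763052 1046898278 26843546 true false false .npn 1 2 3
    ndF1q1 ndF2q2b pcF3 Cut.none Ext.none :=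
  certFX0 (fam := true) (s1 := false) (s2 := false) (a := 1) (b := 2) (c := 3) (cn := .npn) (n1 := ndF1q1) (n2 := ndF2q2b) (pc := pcF3) (cut := Cut.none) (xt := Ext.none) (P1 := 536870912) (W1 := 536870912) (P2 := 1239849684) (W2 := 370763052) (P3 := 1046898278) (W3 := 26843546)
    rfl k0_mm_123_b

noncomputable def f_mm_133 : ℕ → ℕ → ℕ → ℕ → Bool := onCell 536870912 536870912 1610612736 469762048 1046898278 26843546
    (rowFX 0 true false false .dn 1 3 3 (qsf 536870912 536870912 1610612736 469762048 3) ndF1q1 ndF2q3 pcF3 Cut.none Ext.none)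

def k0_mm_133 : ∃ t, chk3 f_mm_133 t 1 1 1 = true :=
  ⟨(l 4), by decide +kernel⟩

theorem c_mm_133 : CertFX 536870912 536870912 1610612736 469762048 1046898278 26843546 true false false .dn 1 3 3
    ndF1q1 ndF2q3 pcF3 Cut.none Ext.none :=
  certFX0 (fam := true) (s1 := false) (s2 := false) (a := 1) (b := 3) (c := 3) (cn := .dn) (n1 := ndF1q1) (n2 := ndF2q3) (pc := pcF3) (cut := Cut.none) (xt := Ext.none) (P1 := 536870912) (W1 := 536870912) (P2 := 1610612736) (W2 := 469762048) (P3 := 1046898278) (W3 := 26843546)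
    rfl k0_mm_133

noncomputable def f_mm_202_a : ℕ → ℕ → ℕ → ℕ → Bool := onCell 0 420477299 67108864 469762048 1046898278 26843546
    (rowFX 0 true false false .pp 2 0 2 (qsf 0 420477299 67108864 469762048 2) ndF1q2a ndF2q0 pcF2 Cut.none Ext.none)

def k0_mm_202_a : ∃ t, chk3 f_mm_202_a t 1 1 1 = true :=
  ⟨(b (a (b (b (b (a (b (a (c (l 15841768) (l 15817824)) (c (b (l 15918928) (l 15965304)) (l 15923448))) (c (l 16024664) (l 16006448))) (a (b (c (b (l 16058776) (l 16086624)) (l 15972296)) (c (l 16165840) (l 16151864))) (b (c (l 16231912) (l 16219656)) (c (a (l 16259488) (l 16293808)) (a (l 16248288) (l 16305848)))))) (a (c (l 16193696) (l 16179752)) (c (l 16135944) (a (l 16301552) (l 16415744))))) (a (b (c (l 16304248) (l 16292744)) (c (l 16382560) (l 16372576))) (b (c (a (l 16393224) (l 16482000)) (a (l 16384384) (l 16475832))) (c (a (l 16441048) (l 16504888)) (a (l 16432792) (l 16477536)))))) (b (a (b (c (l 16435032) (l 16386384)) (c (l 16634992) (b (l 16670872) (l 16763296))))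 (a (a (b (c (l 16523848) (l 16517288)) (l 4)) (l 4)) (l 4))) (a (b (c (l 16777216) (l 16777216)) (l 4)) (l 4)))) (b (a (b (b (a (b (c (l 16409344) (l 16402272)) (a (c (l 16421232) (l 16414824)) (c (l 16512952) (l 16509256)))) (c (b (l 16576048) (l 16515464)) (b (l 16553360) (l 16515048)))) (a (b (c (a (l 16502328) (b (l 16567680) (l 16605960))) (a (l 16497880) (b (l 16565304) (l 16604544)))) (c (l 16581136) (l 16578648))) (b (c (a (l 16525592) (l 16570736)) (a (b (l 16632840) (l 16623272)) (l 16567888))) (l 4)))) (b (a (c (l 16583672) (l 16517664)) (l 4)) (l 4))) (b (a (b (a (c (b (l 16519360) (l 16532752)) (b (l 16517192) (l 16529064))) (b (c (l 16542376) (l 16539720)) (l 4))) (l 4)) (l 4)) (l 4))) (l 4))) (l 4)), by decide +kernel⟩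

theorem c_mm_202_a : CertFX 0 420477299 67108864 469762048 1046898278 26843546 true false false .pp 2 0 2
    ndF1q2a ndF2q0 pcF2 Cut.none Ext.none :=
  certFX0 (fam := true) (s1 := false) (s2 := false) (a := 2) (b := 0) (c := 2) (cn := .pp) (n1 := ndF1q2a) (n2 := ndF2q0) (pc := pcF2) (cut := Cut.none) (xt := Ext.none) (P1 := 0) (W1 := 420477299) (P2 := 67108864) (W2 := 469762048) (P3 := 1046898278) (W3 := 26843546)
    rfl k0_mm_202_a

noncomputable def f_mm_202_b : ℕ → ℕ → ℕ → ℕ → Bool := onCell 1073741824 536870912 67108864 469762048 1046898278 26843546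
    (rowFX 2 true false false .pp 2 0 2 (qsf 1239849684 370763052 67108864 469762048 2) ndF1q2b ndF2q0 pcF2 Cut.none Ext.none)

def k0_mm_202_b : ∃ t, chk3 f_mm_202_b t 1 1 1 = true :=
  ⟨(a (a (l 1) (b (a (l 1) (b (b (a (b (c (a (l 1) (l 373693678231)) (l 361345826647)) (l 1)) (b (c (l 114921596727) (l 15838096)) (c (l 425770576551) (l 439192321463)))) (l 1)) (l 1))) (l 1))) (b (a (b (a (b (c (b (a (l 15780248) (l 15684552)) (a (l 16108072) (l 16000584))) (b (l 15538224) (a (l 16091592) (l 15980984)))) (a (b (l 421475988407) (l 1)) (c (l 254508961239) (l 321080931767)))) (c (a (b (b (l 15593696) (l 15900064)) (l 16108024)) (b (l 15729880) (l 16199288))) (b (b (l 15555808) (l 15829368)) (a (l 16114392) (l 16184280))))) (a (l 1) (b (a (b (a (l 452614966247) (l 16513272)) (l 1)) (c (l 16576984) (l 95059233943))) (l 1)))) (b (a (b (c (b (l 15582624) (l 15887904)) (l 15696776)) (c (l 15989576) (l 16142336))) (b (c (l 15729880) (l 15696776)) (c (l 16199288) (l 16184280)))) (a (a (b (c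 (l 16618928) (l 16614816)) (c (l 598644586791) (l 590054652487))) (b (c (l 16618928) (l 16614816)) (l 4))) (l 4)))) (a (l 1) (a (a (l 1) (l 4)) (l 4))))), by decide +kernel⟩

theorem c_mm_202_b : CertFX 1239849684 370763052 67108864 469762048 1046898278 26843546 true false false .pp 2 0 2
    ndF1q2b ndF2q0 pcF2 Cut.none Ext.none :=
  certFX2 (fam := true) (s1 := false) (s2 := false) (a := 2) (b := 0) (c := 2) (cn := .pp) (n1 := ndF1q2b) (n2 := ndF2q0) (pc := pcF2) (cut := Cut.none) (xt := Ext.none) (P1 := 1239849684) (W1 := 370763052) (P2 := 67108864) (W2 := 469762048) (P3 := 1046898278) (W3 := 26843546)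
    rfl (fun _ => rfl) k0_mm_202_b

noncomputable def f_mm_203_a : ℕ → ℕ → ℕ → ℕ → Bool := onCell 0 420477299 1610612736 536870912 1046898278 26843546
    (rowFX 1 true false false .up 2 0 3 (qsf 0 420477299 67108864 469762048 3) ndF1q2a ndF2q0 pcF3 Cut.none Ext.none)

def k0_mm_203_a : ∃ t, chk3 f_mm_203_a t 1 1 1 = true :=
  ⟨(l 4), by decide +kernel⟩

theorem c_mm_203_a : CertFX 0 420477299 67108864 469762048 1046898278 26843546 true false false .up 2 0 3
    ndF1q2a ndF2q0 pcF3 Cut.none Ext.none :=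
  certFX1 (fam := true) (s1 := false) (s2 := false) (a := 2) (b := 0) (c := 3) (cn := .up) (n1 := ndF1q2a) (n2 := ndF2q0) (pc := pcF3) (cut := Cut.none) (xt := Ext.none) (P1 := 0) (W1 := 420477299) (P2 := 67108864) (W2 := 469762048) (P3 := 1046898278) (W3 := 26843546)
    rfl (fun _ => rfl) k0_mm_203_a

noncomputable def f_mm_203_b : ℕ → ℕ → ℕ → ℕ → Bool := onCell 1610612736 536870912 67108864 469762048 1046898278 26843546
    (rowFX 2 true false false .up 2 0 3 (qsf 1239849684 370763052 67108864 469762048 3) ndF1q2b ndF2q0 pcF3 Cut.none Ext.none)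

def k0_mm_203_b : ∃ t, chk3 f_mm_203_b t 1 1 1 = true :=
  ⟨(a (b (a (b (a (b (c (l 15729880) (l 15696776)) (l 4)) (l 4)) (l 4)) (l 4)) (l 4)) (l 4)), by decide +kernel⟩

theorem c_mm_203_b : CertFX 1239849684 370763052 67108864 469762048 1046898278 26843546 true false false .up 2 0 3
    ndF1q2b ndF2q0 pcF3 Cut.none Ext.none :=
  certFX2 (fam := true) (s1 := false) (s2 := false) (a := 2) (b := 0) (c := 3) (cn := .up) (n1 := ndF1q2b) (n2 := ndF2q0) (pc := pcF3) (cut := Cut.none) (xt := Ext.none) (P1 := 1239849684) (W1 := 370763052) (P2 := 67108864) (W2 := 469762048) (P3 := 1046898278) (W3 := 26843546)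
    rfl (fun _ => rfl) k0_mm_203_b

noncomputable def f_mm_213_a : ℕ → ℕ → ℕ → ℕ → Bool := onCell 0 420477299 536870912 536870912 1046898278 26843546
    (rowFX 0 true false false .pnn 2 1 3 (qsf 0 420477299 536870912 536870912 3) ndF1q2a ndF2q1 pcF3 Cut.none Ext.none)

def k0_mm_213_a : ∃ t, chk3 f_mm_213_a t 1 1 1 = true :=
  ⟨(l 4), by decide +kernel⟩

theorem c_mm_213_a : CertFX 0 420477299 536870912 536870912 1046898278 26843546 true false false .pnn 2 1 3
    ndF1q2a ndF2q1 pcF3 Cut.none Ext.none :=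
  certFX0 (fam := true) (s1 := false) (s2 := false) (a := 2) (b := 1) (c := 3) (cn := .pnn) (n1 := ndF1q2a) (n2 := ndF2q1) (pc := pcF3) (cut := Cut.none) (xt := Ext.none) (P1 := 0) (W1 := 420477299) (P2 := 536870912) (W2 := 536870912) (P3 := 1046898278) (W3 := 26843546)
    rfl k0_mm_213_a

noncomputable def f_mm_213_b : ℕ → ℕ → ℕ → ℕ → Bool := onCell 1239849684 370763052 536870912 536870912 1046898278 26843546
    (rowFX 0 true false false .pnn 2 1 3 (qsf 1239849684 370763052 536870912 536870912 3) ndF1q2b ndF2q1 pcF3 Cut.none Ext.none)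

def k0_mm_213_b : ∃ t, chk3 f_mm_213_b t 1 1 1 = true :=
  ⟨(l 4), by decide +kernel⟩

theorem c_mm_213_b : CertFX 1239849684 370763052 536870912 536870912 1046898278 26843546 true false false .pnn 2 1 3
    ndF1q2b ndF2q1 pcF3 Cut.none Ext.none :=
  certFX0 (fam := true) (s1 := false) (s2 := false) (a := 2) (b := 1) (c := 3) (cn := .pnn) (n1 := ndF1q2b) (n2 := ndF2q1) (pc := pcF3) (cut := Cut.none) (xt := Ext.none) (P1 := 1239849684) (W1 := 370763052) (P2 := 536870912) (W2 := 536870912) (P3 := 1046898278) (W3 := 26843546)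
    rfl k0_mm_213_b

noncomputable def f_mm_303 : ℕ → ℕ → ℕ → ℕ → Bool := onCell 1610612736 469762048 67108864 469762048 1046898278 26843546
    (rowFX 0 true false false .npn 3 0 3 (qsf 1610612736 469762048 67108864 469762048 3) ndF1q3 ndF2q0 pcF3 Cut.none Ext.none)

def k0_mm_303 : ∃ t, chk3 f_mm_303 t 1 1 1 = true :=
  ⟨(a (b (l 4) (l 4)) (l 4)), by decide +kernel⟩

theorem c_mm_303 : CertFX 1610612736 469762048 67108864 469762048 1046898278 26843546 true false false .npn 3 0 3
    ndF1q3 ndF2q0 pcF3 Cut.none Ext.none :=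
  certFX0 (fam := true) (s1 := false) (s2 := false) (a := 3) (b := 0) (c := 3) (cn := .npn) (n1 := ndF1q3) (n2 := ndF2q0) (pc := pcF3) (cut := Cut.none) (xt := Ext.none) (P1 := 1610612736) (W1 := 469762048) (P2 := 67108864) (W2 := 469762048) (P3 := 1046898278) (W3 := 26843546)
    rfl k0_mm_303

noncomputable def f_mm_313 : ℕ → ℕ → ℕ → ℕ → Bool := onCell 1610612736 469762048 536870912 536870912 1046898278 26843546
    (rowFX 0 true false false .dn 3 1 3 (qsf 1610612736 469762048 536870912 536870912 3) ndF1q3 ndF2q1 pcF3 Cut.none Ext.none)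

def k0_mm_313 : ∃ t, chk3 f_mm_313 t 1 1 1 = true :=
  ⟨(l 4), by decide +kernel⟩

theorem c_mm_313 : CertFX 1610612736 469762048 536870912 536870912 1046898278 26843546 true false false .dn 3 1 3
    ndF1q3 ndF2q1 pcF3 Cut.none Ext.none :=
  certFX0 (fam := true) (s1 := false) (s2 := false) (a := 3) (b := 1) (c := 3) (cn := .dn) (n1 := ndF1q3) (n2 := ndF2q1) (pc := pcF3) (cut := Cut.none) (xt := Ext.none) (P1 := 1610612736) (W1 := 469762048) (P2 := 536870912) (W2 := 536870912) (P3 := 1046898278) (W3 := 26843546)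
    rfl k0_mm_313

end Pool.Agent.Strip051.G.IE1.Tab.C.FA12

namespace Pool.Agent.Strip051.G.IE1.Tab.C.FA13

open Pool.Agent.Strip051.PB Pool.Agent.Strip051.PB.T
open Pool.Agent.Strip051.G.IE1.Tab

noncomputable def f_pp_001 : ℕ → ℕ → ℕ → ℕ → Bool := onCell 67108864 469762048 0 536870912 1046898278 26843546
    (rowFX 0 true true true .up 0 0 1 (qsf 67108864 469762048 0 536870912 1) ndF1q0 ndF3q0 pcF1 Cut.none Ext.none)

def k0_pp_001 : ∃ t, chk3 f_pp_001 t 1 1 1 = true :=
  ⟨(l 4), by decide +kernel⟩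

theorem c_pp_001 : CertFX 67108864 469762048 0 536870912 1046898278 26843546 true true true .up 0 0 1
    ndF1q0 ndF3q0 pcF1 Cut.none Ext.none :=
  certFX0 (fam := true) (s1 := true) (s2 := true) (a := 0) (b := 0) (c := 1) (cn := .up) (n1 := ndF1q0) (n2 := ndF3q0) (pc := pcF1) (cut := Cut.none) (xt := Ext.none) (P1 := 67108864) (W1 := 469762048) (P2 := 0) (W2 := 536870912) (P3 := 1046898278) (W3 := 26843546)
    rfl k0_pp_001

noncomputable def f_pp_011 : ℕ → ℕ → ℕ → ℕ → Bool := onCell 67108864 469762048 536870912 536870912 1046898278 26843546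
    (rowFX 0 true true true .pnn 0 1 1 (qsf 67108864 469762048 536870912 536870912 1) ndF1q0 ndF3q1 pcF1 Cut.none Ext.none)

def k0_pp_011 : ∃ t, chk3 f_pp_011 t 1 1 1 = true :=
  ⟨(l 4), by decide +kernel⟩

theorem c_pp_011 : CertFX 67108864 469762048 536870912 536870912 1046898278 26843546 true true true .pnn 0 1 1
    ndF1q0 ndF3q1 pcF1 Cut.none Ext.none :=
  certFX0 (fam := true) (s1 := true) (s2 := true) (a := 0) (b := 1) (c := 1) (cn := .pnn) (n1 := ndF1q0) (n2 := ndF3q1) (pc := pcF1) (cut := Cut.none) (xt := Ext.none) (P1 := 67108864) (W1 := 469762048) (P2 := 536870912) (W2 := 536870912) (P3 := 1046898278) (W3 := 26843546)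
    rfl k0_pp_011

noncomputable def f_pp_012 : ℕ → ℕ → ℕ → ℕ → Bool := onCell 67108864 469762048 536870912 536870912 1046898278 26843546
    (rowFX 0 true true true .pnp 0 1 2 (qsf 67108864 469762048 536870912 536870912 2) ndF1q0 ndF3q1 pcF2 Cut.none Ext.none)

def k0_pp_012 : ∃ t, chk3 f_pp_012 t 1 1 1 = true :=
  ⟨(l 4), by decide +kernel⟩

theorem c_pp_012 : CertFX 67108864 469762048 536870912 536870912 1046898278 26843546 true true true .pnp 0 1 2
    ndF1q0 ndF3q1 pcF2 Cut.none Ext.none :=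
  certFX0 (fam := true) (s1 := true) (s2 := true) (a := 0) (b := 1) (c := 2) (cn := .pnp) (n1 := ndF1q0) (n2 := ndF3q1) (pc := pcF2) (cut := Cut.none) (xt := Ext.none) (P1 := 67108864) (W1 := 469762048) (P2 := 536870912) (W2 := 536870912) (P3 := 1046898278) (W3 := 26843546)
    rfl k0_pp_012

noncomputable def f_pp_022 : ℕ → ℕ → ℕ → ℕ → Bool := onCell 67108864 469762048 1073741824 536870912 1046898278 26843546
    (rowFX 0 true true true .pp 0 2 2 (qsf 67108864 469762048 1073741824 536870912 2) ndF1q0 ndF3q2 pcF2 Cut.none Ext.none)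

def k0_pp_022 : ∃ t, chk3 f_pp_022 t 1 1 1 = true :=
  ⟨(b (l 4) (l 4)), by decide +kernel⟩

theorem c_pp_022 : CertFX 67108864 469762048 1073741824 536870912 1046898278 26843546 true true true .pp 0 2 2
    ndF1q0 ndF3q2 pcF2 Cut.none Ext.none :=
  certFX0 (fam := true) (s1 := true) (s2 := true) (a := 0) (b := 2) (c := 2) (cn := .pp) (n1 := ndF1q0) (n2 := ndF3q2) (pc := pcF2) (cut := Cut.none) (xt := Ext.none) (P1 := 67108864) (W1 := 469762048) (P2 := 1073741824) (W2 := 536870912) (P3 := 1046898278) (W3 := 26843546)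
    rfl k0_pp_022

noncomputable def f_pp_023 : ℕ → ℕ → ℕ → ℕ → Bool := onCell 67108864 469762048 1610612736 536870912 1046898278 26843546
    (rowFX 1 true true true .up 0 2 3 (qsf 67108864 469762048 1073741824 536870912 3) ndF1q0 ndF3q2 pcF3 Cut.none Ext.none)

def k0_pp_023 : ∃ t, chk3 f_pp_023 t 1 1 1 = true :=
  ⟨(l 4), by decide +kernel⟩

theorem c_pp_023 : CertFX 67108864 469762048 1073741824 536870912 1046898278 26843546 true true true .up 0 2 3
    ndF1q0 ndF3q2 pcF3 Cut.none Ext.none :=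
  certFX1 (fam := true) (s1 := true) (s2 := true) (a := 0) (b := 2) (c := 3) (cn := .up) (n1 := ndF1q0) (n2 := ndF3q2) (pc := pcF3) (cut := Cut.none) (xt := Ext.none) (P1 := 67108864) (W1 := 469762048) (P2 := 1073741824) (W2 := 536870912) (P3 := 1046898278) (W3 := 26843546)
    rfl (fun _ => rfl) k0_pp_023

noncomputable def f_pp_033 : ℕ → ℕ → ℕ → ℕ → Bool := onCell 67108864 469762048 1610612736 536870912 1046898278 26843546
    (rowFX 0 true true true .pnn 0 3 3 (qsf 67108864 469762048 1610612736 536870912 3) ndF1q0 ndF3q3 pcF3 Cut.none Ext.none)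

def k0_pp_033 : ∃ t, chk3 f_pp_033 t 1 1 1 = true :=
  ⟨(l 4), by decide +kernel⟩

theorem c_pp_033 : CertFX 67108864 469762048 1610612736 536870912 1046898278 26843546 true true true .pnn 0 3 3
    ndF1q0 ndF3q3 pcF3 Cut.none Ext.none :=
  certFX0 (fam := true) (s1 := true) (s2 := true) (a := 0) (b := 3) (c := 3) (cn := .pnn) (n1 := ndF1q0) (n2 := ndF3q3) (pc := pcF3) (cut := Cut.none) (xt := Ext.none) (P1 := 67108864) (W1 := 469762048) (P2 := 1610612736) (W2 := 536870912) (P3 := 1046898278) (W3 := 26843546)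
    rfl k0_pp_033

noncomputable def f_pp_101 : ℕ → ℕ → ℕ → ℕ → Bool := onCell 536870912 536870912 0 536870912 1046898278 26843546
    (rowFX 0 true true true .npn 1 0 1 (qsf 536870912 536870912 0 536870912 1) ndF1q1 ndF3q0 pcF1 Cut.none Ext.none)

def k0_pp_101 : ∃ t, chk3 f_pp_101 t 1 1 1 = true :=
  ⟨(l 4), by decide +kernel⟩

theorem c_pp_101 : CertFX 536870912 536870912 0 536870912 1046898278 26843546 true true true .npn 1 0 1
    ndF1q1 ndF3q0 pcF1 Cut.none Ext.none :=
  certFX0 (fam := true) (s1 := true) (s2 := true) (a := 1) (b := 0) (c := 1) (cn := .npn) (n1 := ndF1q1) (n2 := ndF3q0) (pc := pcF1) (cut := Cut.none) (xt := Ext.none) (P1 := 536870912) (W1 := 536870912) (P2 := 0) (W2 := 536870912) (P3 := 1046898278) (W3 := 26843546)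
    rfl k0_pp_101

noncomputable def f_pp_102 : ℕ → ℕ → ℕ → ℕ → Bool := onCell 536870912 536870912 0 536870912 1046898278 26843546
    (rowFX 0 true true true .npp 1 0 2 (qsf 536870912 536870912 0 536870912 2) ndF1q1 ndF3q0 pcF2 Cut.none Ext.none)

def k0_pp_102 : ∃ t, chk3 f_pp_102 t 1 1 1 = true :=
  ⟨(l 4), by decide +kernel⟩

theorem c_pp_102 : CertFX 536870912 536870912 0 536870912 1046898278 26843546 true true true .npp 1 0 2
    ndF1q1 ndF3q0 pcF2 Cut.none Ext.none :=
  certFX0 (fam := true) (s1 := true) (s2 := true) (a := 1) (b := 0) (c := 2) (cn := .npp) (n1 := ndF1q1) (n2 := ndF3q0) (pc := pcF2) (cut := Cut.none) (xt := Ext.none) (P1 := 536870912) (W1 := 536870912) (P2 := 0) (W2 := 536870912) (P3 := 1046898278) (W3 := 26843546)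
    rfl k0_pp_102

noncomputable def f_pp_112 : ℕ → ℕ → ℕ → ℕ → Bool := onCell 536870912 536870912 536870912 536870912 1046898278 26843546
    (rowFX 0 true true true .dn 1 1 2 (qsf 536870912 536870912 536870912 536870912 2) ndF1q1 ndF3q1 pcF2 Cut.none Ext.none)

def k0_pp_112 : ∃ t, chk3 f_pp_112 t 1 1 1 = true :=
  ⟨(l 4), by decide +kernel⟩

theorem c_pp_112 : CertFX 536870912 536870912 536870912 536870912 1046898278 26843546 true true true .dn 1 1 2
    ndF1q1 ndF3q1 pcF2 Cut.none Ext.none :=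
  certFX0 (fam := true) (s1 := true) (s2 := true) (a := 1) (b := 1) (c := 2) (cn := .dn) (n1 := ndF1q1) (n2 := ndF3q1) (pc := pcF2) (cut := Cut.none) (xt := Ext.none) (P1 := 536870912) (W1 := 536870912) (P2 := 536870912) (W2 := 536870912) (P3 := 1046898278) (W3 := 26843546)
    rfl k0_pp_112

noncomputable def f_pp_113 : ℕ → ℕ → ℕ → ℕ → Bool := onCell 536870912 536870912 536870912 536870912 1046898278 26843546
    (rowFX 0 true true true .nn 1 1 3 (qsf 536870912 536870912 536870912 536870912 3) ndF1q1 ndF3q1 pcF3 Cut.none Ext.none)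

def k0_pp_113 : ∃ t, chk3 f_pp_113 t 1 1 1 = true :=
  ⟨(l 4), by decide +kernel⟩

theorem c_pp_113 : CertFX 536870912 536870912 536870912 536870912 1046898278 26843546 true true true .nn 1 1 3
    ndF1q1 ndF3q1 pcF3 Cut.none Ext.none :=
  certFX0 (fam := true) (s1 := true) (s2 := true) (a := 1) (b := 1) (c := 3) (cn := .nn) (n1 := ndF1q1) (n2 := ndF3q1) (pc := pcF3) (cut := Cut.none) (xt := Ext.none) (P1 := 536870912) (W1 := 536870912) (P2 := 536870912) (W2 := 536870912) (P3 := 1046898278) (W3 := 26843546)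
    rfl k0_pp_113

noncomputable def f_pp_123 : ℕ → ℕ → ℕ → ℕ → Bool := onCell 536870912 536870912 1073741824 536870912 1046898278 26843546
    (rowFX 0 true true true .npn 1 2 3 (qsf 536870912 536870912 1073741824 536870912 3) ndF1q1 ndF3q2 pcF3 Cut.none Ext.none)

def k0_pp_123 : ∃ t, chk3 f_pp_123 t 1 1 1 = true :=
  ⟨(l 4), by decide +kernel⟩

theorem c_pp_123 : CertFX 536870912 536870912 1073741824 536870912 1046898278 26843546 true true true .npn 1 2 3
    ndF1q1 ndF3q2 pcF3 Cut.none Ext.none :=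
  certFX0 (fam := true) (s1 := true) (s2 := true) (a := 1) (b := 2) (c := 3) (cn := .npn) (n1 := ndF1q1) (n2 := ndF3q2) (pc := pcF3) (cut := Cut.none) (xt := Ext.none) (P1 := 536870912) (W1 := 536870912) (P2 := 1073741824) (W2 := 536870912) (P3 := 1046898278) (W3 := 26843546)
    rfl k0_pp_123

noncomputable def f_pp_133 : ℕ → ℕ → ℕ → ℕ → Bool := onCell 536870912 536870912 1610612736 536870912 1046898278 26843546
    (rowFX 0 true true true .dn 1 3 3 (qsf 536870912 536870912 1610612736 536870912 3) ndF1q1 ndF3q3 pcF3 Cut.none Ext.none)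

def k0_pp_133 : ∃ t, chk3 f_pp_133 t 1 1 1 = true :=
  ⟨(l 4), by decide +kernel⟩

theorem c_pp_133 : CertFX 536870912 536870912 1610612736 536870912 1046898278 26843546 true true true .dn 1 3 3
    ndF1q1 ndF3q3 pcF3 Cut.none Ext.none :=
  certFX0 (fam := true) (s1 := true) (s2 := true) (a := 1) (b := 3) (c := 3) (cn := .dn) (n1 := ndF1q1) (n2 := ndF3q3) (pc := pcF3) (cut := Cut.none) (xt := Ext.none) (P1 := 536870912) (W1 := 536870912) (P2 := 1610612736) (W2 := 536870912) (P3 := 1046898278) (W3 := 26843546)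
    rfl k0_pp_133

noncomputable def f_pp_202_a : ℕ → ℕ → ℕ → ℕ → Bool := onCell 0 420477299 0 536870912 1046898278 26843546
    (rowFX 0 true true true .pp 2 0 2 (qsf 0 420477299 0 536870912 2) ndF1q2a ndF3q0 pcF2 Cut.none Ext.none)

def k0_pp_202_a : ∃ t, chk3 f_pp_202_a t 1 1 1 = true :=
  ⟨(l 5), by decide +kernel⟩

theorem c_pp_202_a : CertFX 0 420477299 0 536870912 1046898278 26843546 true true true .pp 2 0 2
    ndF1q2a ndF3q0 pcF2 Cut.none Ext.none :=
  certFX0 (fam := true) (s1 := true) (s2 := true) (a := 2) (b := 0) (c := 2) (cn := .pp) (n1 := ndF1q2a) (n2 := ndF3q0) (pc := pcF2) (cut := Cut.none) (xt := Ext.none) (P1 := 0) (W1 := 420477299) (P2 := 0) (W2 := 536870912) (P3 := 1046898278) (W3 := 26843546)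
    rfl k0_pp_202_a

noncomputable def f_pp_202_b : ℕ → ℕ → ℕ → ℕ → Bool := onCell 1239849684 370763052 0 536870912 1046898278 26843546
    (rowFX 0 true true true .pp 2 0 2 (qsf 1239849684 370763052 0 536870912 2) ndF1q2b ndF3q0 pcF2 Cut.none Ext.none)

def k0_pp_202_b : ∃ t, chk3 f_pp_202_b t 1 1 1 = true :=
  ⟨(l 5), by decide +kernel⟩

theorem c_pp_202_b : CertFX 1239849684 370763052 0 536870912 1046898278 26843546 true true true .pp 2 0 2
    ndF1q2b ndF3q0 pcF2 Cut.none Ext.none :=
  certFX0 (fam := true) (s1 := true) (s2 := true) (a := 2) (b := 0) (c := 2) (cn := .pp) (n1 := ndF1q2b) (n2 := ndF3q0) (pc := pcF2) (cut := Cut.none) (xt := Ext.none) (P1 := 1239849684) (W1 := 370763052) (P2 := 0) (W2 := 536870912) (P3 := 1046898278) (W3 := 26843546)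
    rfl k0_pp_202_b

noncomputable def f_pp_203_a : ℕ → ℕ → ℕ → ℕ → Bool := onCell 0 420477299 0 536870912 1046898278 26843546
    (rowFX 0 true true true .up 2 0 3 (qsf 0 420477299 0 536870912 3) ndF1q2a ndF3q0 pcF3 Cut.none Ext.none)

def k0_pp_203_a : ∃ t, chk3 f_pp_203_a t 1 1 1 = true :=
  ⟨(l 5), by decide +kernel⟩

theorem c_pp_203_a : CertFX 0 420477299 0 536870912 1046898278 26843546 true true true .up 2 0 3
    ndF1q2a ndF3q0 pcF3 Cut.none Ext.none :=
  certFX0 (fam := true) (s1 := true) (s2 := true) (a := 2) (b := 0) (c := 3) (cn := .up) (n1 := ndF1q2a) (n2 := ndF3q0) (pc := pcF3) (cut := Cut.none) (xt := Ext.none) (P1 := 0) (W1 := 420477299) (P2 := 0) (W2 := 536870912) (P3 := 1046898278) (W3 := 26843546)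
    rfl k0_pp_203_a

noncomputable def f_pp_203_b : ℕ → ℕ → ℕ → ℕ → Bool := onCell 1239849684 370763052 0 536870912 1046898278 26843546
    (rowFX 0 true true true .up 2 0 3 (qsf 1239849684 370763052 0 536870912 3) ndF1q2b ndF3q0 pcF3 Cut.none Ext.none)

def k0_pp_203_b : ∃ t, chk3 f_pp_203_b t 1 1 1 = true :=
  ⟨(l 5), by decide +kernel⟩

theorem c_pp_203_b : CertFX 1239849684 370763052 0 536870912 1046898278 26843546 true true true .up 2 0 3
    ndF1q2b ndF3q0 pcF3 Cut.none Ext.none :=
  certFX0 (fam := true) (s1 := true) (s2 := true) (a := 2) (b := 0) (c := 3) (cn := .up) (n1 := ndF1q2b) (n2 := ndF3q0) (pc := pcF3) (cut := Cut.none) (xt := Ext.none) (P1 := 1239849684) (W1 := 370763052) (P2 := 0) (W2 := 536870912) (P3 := 1046898278) (W3 := 26843546)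
    rfl k0_pp_203_b

noncomputable def f_pp_213_a : ℕ → ℕ → ℕ → ℕ → Bool := onCell 0 420477299 536870912 536870912 1046898278 26843546
    (rowFX 0 true true true .pnn 2 1 3 (qsf 0 420477299 536870912 536870912 3) ndF1q2a ndF3q1 pcF3 Cut.none Ext.none)

def k0_pp_213_a : ∃ t, chk3 f_pp_213_a t 1 1 1 = true :=
  ⟨(l 4), by decide +kernel⟩

theorem c_pp_213_a : CertFX 0 420477299 536870912 536870912 1046898278 26843546 true true true .pnn 2 1 3
    ndF1q2a ndF3q1 pcF3 Cut.none Ext.none :=
  certFX0 (fam := true) (s1 := true) (s2 := true) (a := 2) (b := 1) (c := 3) (cn := .pnn) (n1 := ndF1q2a) (n2 := ndF3q1) (pc := pcF3) (cut := Cut.none) (xt := Ext.none) (P1 := 0) (W1 := 420477299) (P2 := 536870912) (W2 := 536870912) (P3 := 1046898278) (W3 := 26843546)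
    rfl k0_pp_213_a

noncomputable def f_pp_213_b : ℕ → ℕ → ℕ → ℕ → Bool := onCell 1239849684 370763052 536870912 536870912 1046898278 26843546
    (rowFX 0 true true true .pnn 2 1 3 (qsf 1239849684 370763052 536870912 536870912 3) ndF1q2b ndF3q1 pcF3 Cut.none Ext.none)

def k0_pp_213_b : ∃ t, chk3 f_pp_213_b t 1 1 1 = true :=
  ⟨(l 4), by decide +kernel⟩

theorem c_pp_213_b : CertFX 1239849684 370763052 536870912 536870912 1046898278 26843546 true true true .pnn 2 1 3
    ndF1q2b ndF3q1 pcF3 Cut.none Ext.none :=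
  certFX0 (fam := true) (s1 := true) (s2 := true) (a := 2) (b := 1) (c := 3) (cn := .pnn) (n1 := ndF1q2b) (n2 := ndF3q1) (pc := pcF3) (cut := Cut.none) (xt := Ext.none) (P1 := 1239849684) (W1 := 370763052) (P2 := 536870912) (W2 := 536870912) (P3 := 1046898278) (W3 := 26843546)
    rfl k0_pp_213_b

noncomputable def f_pp_303 : ℕ → ℕ → ℕ → ℕ → Bool := onCell 1610612736 469762048 0 536870912 1046898278 26843546
    (rowFX 0 true true true .npn 3 0 3 (qsf 1610612736 469762048 0 536870912 3) ndF1q3 ndF3q0 pcF3 Cut.none Ext.none)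

def k0_pp_303 : ∃ t, chk3 f_pp_303 t 1 1 1 = true :=
  ⟨(l 5), by decide +kernel⟩

theorem c_pp_303 : CertFX 1610612736 469762048 0 536870912 1046898278 26843546 true true true .npn 3 0 3
    ndF1q3 ndF3q0 pcF3 Cut.none Ext.none :=
  certFX0 (fam := true) (s1 := true) (s2 := true) (a := 3) (b := 0) (c := 3) (cn := .npn) (n1 := ndF1q3) (n2 := ndF3q0) (pc := pcF3) (cut := Cut.none) (xt := Ext.none) (P1 := 1610612736) (W1 := 469762048) (P2 := 0) (W2 := 536870912) (P3 := 1046898278) (W3 := 26843546)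
    rfl k0_pp_303

noncomputable def f_pp_313 : ℕ → ℕ → ℕ → ℕ → Bool := onCell 1610612736 469762048 536870912 536870912 1046898278 26843546
    (rowFX 0 true true true .dn 3 1 3 (qsf 1610612736 469762048 536870912 536870912 3) ndF1q3 ndF3q1 pcF3 Cut.none Ext.none)

def k0_pp_313 : ∃ t, chk3 f_pp_313 t 1 1 1 = true :=
  ⟨(l 4), by decide +kernel⟩

theorem c_pp_313 : CertFX 1610612736 469762048 536870912 536870912 1046898278 26843546 true true true .dn 3 1 3
    ndF1q3 ndF3q1 pcF3 Cut.none Ext.none :=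
  certFX0 (fam := true) (s1 := true) (s2 := true) (a := 3) (b := 1) (c := 3) (cn := .dn) (n1 := ndF1q3) (n2 := ndF3q1) (pc := pcF3) (cut := Cut.none) (xt := Ext.none) (P1 := 1610612736) (W1 := 469762048) (P2 := 536870912) (W2 := 536870912) (P3 := 1046898278) (W3 := 26843546)
    rfl k0_pp_313

noncomputable def f_pm_001 : ℕ → ℕ → ℕ → ℕ → Bool := onCell 67108864 469762048 0 536870912 1046898278 26843546
    (rowFX 0 true true false .up 0 0 1 (qsf 67108864 469762048 0 536870912 1) ndF1q0 ndF3q0 pcF1 Cut.none Ext.none)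

def k0_pm_001 : ∃ t, chk3 f_pm_001 t 1 1 1 = true :=
  ⟨(b (l 3) (l 3)), by decide +kernel⟩

theorem c_pm_001 : CertFX 67108864 469762048 0 536870912 1046898278 26843546 true true false .up 0 0 1
    ndF1q0 ndF3q0 pcF1 Cut.none Ext.none :=
  certFX0 (fam := true) (s1 := true) (s2 := false) (a := 0) (b := 0) (c := 1) (cn := .up) (n1 := ndF1q0) (n2 := ndF3q0) (pc := pcF1) (cut := Cut.none) (xt := Ext.none) (P1 := 67108864) (W1 := 469762048) (P2 := 0) (W2 := 536870912) (P3 := 1046898278) (W3 := 26843546)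
    rfl k0_pm_001

noncomputable def f_pm_011 : ℕ → ℕ → ℕ → ℕ → Bool := onCell 67108864 469762048 536870912 536870912 1046898278 26843546
    (rowFX 1 true true false .pnn 0 1 1 (qsf 67108864 469762048 536870912 536870912 1) ndF1q0 ndF3q1 pcF1 Cut.none Ext.none)

def k0_pm_011 : ∃ t, chk3 f_pm_011 t 1 1 1 = true :=
  ⟨(b (l 3) (b (l 3) (a (l 3) (l 3)))), by decide +kernel⟩

theorem c_pm_011 : CertFX 67108864 469762048 536870912 536870912 1046898278 26843546 true true false .pnn 0 1 1
    ndF1q0 ndF3q1 pcF1 Cut.none Ext.none :=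
  certFX1 (fam := true) (s1 := true) (s2 := false) (a := 0) (b := 1) (c := 1) (cn := .pnn) (n1 := ndF1q0) (n2 := ndF3q1) (pc := pcF1) (cut := Cut.none) (xt := Ext.none) (P1 := 67108864) (W1 := 469762048) (P2 := 536870912) (W2 := 536870912) (P3 := 1046898278) (W3 := 26843546)
    rfl (fun _ => rfl) k0_pm_011

end Pool.Agent.Strip051.G.IE1.Tab.C.FA13

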