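import Pool.Agent.Strip051.G.IE1.Tab

/-! # Certificates F15 (generated) -/

set_option linter.all false
set_option maxRecDepth 100000

namespace Pool.Agent.Strip051.G.IE1.Tab.C.FA13

open Pool.Agent.Strip051.PB Pool.Agent.Strip051.PB.T
open Pool.Agent.Strip051.G.IE1.Tab

noncomputable def f_pm_012 : ℕ → ℕ → ℕ → ℕ → Bool := onCell 1073741824 536870912 536870912 536870912 1046898278 26843546
    (rowFX 2 true true false .pnp 0 1 2 (qsf 67108864 469762048 536870912 536870912 2) ndF1q0 ndF3q1 pcF2 Cut.none Ext.none)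

def k0_pm_012 : ∃ t, chk3 f_pm_012 t 4 2 1 = true :=
  ⟨(b (a (a (l 3) (a (a (l 3) (c (l 292224157015) (l 378660369143))) (c (a (a (l 16254424) (l 16281784)) (c (l 16327080) (l 16320792))) (a (a (l 16239848) (l 26943006935)) (c (l 16314904) (l 16288048)))))) (a (a (c (l 16338976) (a (l 16337408) (l 16358264))) (c (l 16257496) (a (l 16356056) (l 16356440)))) (a (b (l 2) (l 16336232)) (l 16307888)))) (a (a (l 3) (a (c (a (l 325509954679) (b (l 16184472) (l 16167520))) (a (l 406577450967) (b (l 16167040) (l 16148472)))) (a (c (b (l 16210632) (l 16233920)) (b (a (l 16222712) (l 16246544)) (l 16218280))) (c (l 16271072) (l 16257072))))) (a (a (a (c (l 16300936) (l 16288568)) (c (l 16311992) (l 16299912))) (c (a (l 16324656) (l 16318576)) (a (l 16312896) (l 16306664)))) (a (l 16297360) (l 16260744))))), by decide +kernel⟩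

def k1_pm_012 : ∃ t, chk3 f_pm_012 t 8 6 1 = true :=
  ⟨(a (a (l 3) (a (a (l 3) (b (l 3) (b (l 3) (a (l 3) (b (l 3) (c (l 15724232) (l 15705312))))))) (b (a (l 3) (c (c (l 16039376) (l 16026480)) (l 16009128))) (c (b (c (l 15671688) (l 15828728)) (c (b (a (l 15604120) (l 15718216)) (a (l 15780080) (l 15850440))) (b (l 15663016) (l 15799536)))) (b (l 15806488) (b (b (l 15620648) (l 15651592)) (l 15732896))))))) (a (b (c (a (a (l 16068872) (l 16102984)) (l 16112184)) (a (a (l 16046400) (l 16080144)) (l 16134032))) (a (b (c (a (l 15930120) (l 15985376)) (a (l 15900464) (l 15956224))) (a (b (c (l 15766448) (l 15728904)) (l 15877752)) (c (l 15890120) (l 15855200)))) (b (c (l 16058728) (l 16031864)) (c (b (l 15918056) (l 16041048)) (l 15843496))))) (b (a (c (l 16196192) (l 16177416)) (c (l 16232504) (l 16217224))) (b (a (c (l 16139040) (l 16117880)) (c (l 16194800) (l 16178352))) (a (c (b (l 16029816) (l 16147136)) (l 15895352)) (c (b (l 16132632) (l 16250152)) (l 16090600))))))), by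 decide +kernel⟩

def k2_pm_012 : ∃ t, chk3 f_pm_012 t 8 14 1 = true :=
  ⟨(b (a (a (l 3) (c (a (a (b (l 3) (c (l 16065016) (l 15923936))) (c (b (l 15907712) (l 16042640)) (c (l 15766776) (l 16013848)))) (c (a (b (l 15969792) (l 16037656)) (l 16045792)) (b (l 15985056) (l 16196184)))) (a (b (l 15714864) (a (l 15936088) (l 15963480))) (b (l 15817224) (l 15990264))))) (a (a (c (b (l 16089656) (l 16283904)) (b (l 16057760) (l 16256112))) (c (b (l 16194712) (l 16261312)) (l 16048248))) (a (a (c (l 16161632) (l 16293336)) (b (l 16295528) (l 16470632))) (b (l 16389928) (l 16540048))))) (a (a (a (l 3) (a (l 3) (b (a (l 3) (c (c (l 16188024) (l 16173040)) (c (l 16197288) (l 16188488)))) (c (c (l 16276776) (c (l 16278776) (l 16284216))) (c (c (l 16224952) (l 16286472)) (l 16280680)))))) (c (a (c (a (b (l 16236504) (l 16352408)) (b (l 16235776) (l 16430224))) (a (b (c (l 16240824) (l 16242640)) (c (l 16357080) (l 16316976))) (b (c (l 16301728) (l 16298840)) (l 16423984)))) (b (c (l 16356864)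 (l 16360936)) (c (a (l 16494840) (l 16547448)) (l 16479512)))) (a (b (a (l 16127784) (l 16264848)) (a (c (l 16353256) (l 16345504)) (l 16364952))) (b (l 16342064) (c (l 16421264) (l 16437896)))))) (a (c (a (b (l 16445296) (b (l 16559376) (l 16465320))) (b (l 16437544) (l 16452736))) (a (b (l 16420432) (b (l 16536520) (l 16506320))) (b (l 16505600) (l 16504688)))) (a (c (l 16461488) (l 16465648)) (c (l 16373968) (l 16351128)))))), by decide +kernel⟩

def k3_pm_012 : ∃ t, chk3 f_pm_012 t 8 60 1 = true :=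
  ⟨(a (a (a (l 3) (a (a (l 3) (c (c (b (c (l 16291184) (l 16297256)) (c (l 16362024) (l 16344688))) (l 125123337063)) (c (c (l 16226768) (c (l 16272136) (l 16334976))) (b (l 16302344) (l 16358856))))) (c (c (b (c (l 16261992) (l 16352672)) (c (l 16352200) (l 16312792))) (a (b (l 16335120) (l 16388120)) (c (l 16395136) (l 16399904)))) (c (c (a (l 105796063095) (l 16360016)) (b (l 16357232) (l 16407776))) (b (l 16351264) (l 16380976)))))) (c (a (c (b (a (c (l 16353784) (l 16425768)) (l 16448800)) (a (l 16431848) (l 16481464))) (a (a (c (l 16432480) (l 16393248)) (l 16471352)) (l 16494672))) (c (a (b (l 16523864) (l 16564536)) (c (l 16527344) (l 16632184))) (l 16552368))) (a (b (c (l 16409440) (l 16423864)) (a (l 16418504) (l 16516960))) (c (l 16472272) (l 16511024))))) (a (c (a (c (a (l 16435064) (l 16390512)) (l 16514904)) (c (b (l 16493080) (l 16410928)) (l 16493096))) (a (a (l 16596392) (l 16549136)) (l 16429216))) (c (c (a (l 16135216) (l 16170248)) (l 16330448)) (a (l 16373336)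 (l 16272632))))), by decide +kernel⟩

def k4_pm_012 : ∃ t, chk3 f_pm_012 t 8 61 1 = true :=
  ⟨(a (b (a (a (l 1) (a (l 1) (a (l 1) (c (c (l 16442232) (l 16461936)) (l 533145612903))))) (c (a (c (a (l 212096844599) (l 16534784)) (c (a (l 16489976) (l 16544080)) (a (l 16534896) (l 16583336)))) (c (a (l 16515248) (l 16486400)) (l 16521184))) (a (a (l 406444128295) (l 16500976)) (a (l 16571400) (l 16648368))))) (a (l 1) (a (a (l 1) (c (c (l 468721054663) (l 469795052887)) (l 559989433111))) (c (c (a (c (l 16358352) (l 16478184)) (l 16406336)) (l 16416360)) (a (l 16586560) (l 16632200)))))) (c (a (a (b (c (l 16430104) (l 16508264)) (a (l 16280240) (l 16254456))) (c (l 16270680) (l 16267552))) (c (a (l 16143144) (l 16025176)) (a (l 16233800) (l 16106768)))) (a (a (a (l 16566240) (l 16509624)) (l 16398920)) (a (l 16255200) (l 16125784))))), by decide +kernel⟩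

def k5_pm_012 : ∃ t, chk3 f_pm_012 t 8 31 1 = true :=
  ⟨(b (a (b (a (l 1) (a (l 1) (a (l 1) (c (c (l 16170672) (l 16467144)) (l 803728826119))))) (l 1)) (c (a (c (b (a (c (l 16089768) (l 16276448)) (l 16119888)) (b (a (l 469257207975) (l 16063496)) (l 484289397127))) (a (b (l 16318424) (l 16115320)) (b (l 16251640) (l 16101880)))) (b (a (l 15900112) (l 15829952)) (c (a (l 15916584) (l 15805504)) (l 15753088)))) (a (b (a (l 16302328) (l 16267472)) (c (l 369936167543) (l 16237352))) (a (c (l 16036456) (l 16165088)) (l 15812704))))) (a (l 1) (a (b (a (l 1) (c (c (l 16074072) (l 528849751175)) (c (l 16139464) (l 16200424)))) (l 1)) (c (c (a (b (l 220148693431) (l 15989832)) (a (l 15775760) (l 15814320))) (b (a (l 15968224) (l 15835328)) (l 15914192))) (b (c (a (l 16012816) (l 15878328)) (a (l 16072320) (l 15936240))) (c (l 366177396567) (b (a (l 16001608) (l 15874048)) (c (l 15910416) (l 323227712007))))))))), by decide +kernel⟩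

def k6_pm_012 : ∃ t, chk3 f_pm_012 t 9 3 1 = true :=
  ⟨(b (a (a (b (a (l 16230064) (l 16268496)) (b (a (l 16225816) (l 16236136)) (b (l 16100232) (l 16366400)))) (b (l 16268064) (b (l 16237296) (b (l 16266760) (l 16462784))))) (b (a (l 16253456) (l 16216120)) (b (a (l 16223248) (l 16185048)) (a (b (l 16250976) (l 16473376)) (b (l 16210016) (l 16421008)))))) (a (b (a (a (b (l 16483424) (a (l 16310640) (l 16317720))) (b (l 16525864) (l 16201632))) (b (l 16300656) (b (l 16327704) (l 16202744)))) (b (c (a (b (c (l 16149712) (l 16171800)) (c (l 15902144) (l 15979656))) (b (l 16002528) (l 15821456))) (a (a (l 16007104) (l 16048784)) (l 15964616))) (c (b (a (c (b (l 15705680) (l 15641096)) (l 15694224)) (b (l 15624928) (l 15518424))) (a (b (c (l 15656808) (l 15661680)) (l 15696768)) (b (l 15480896) (l 15504192)))) (b (a (c (l 15684840) (l 15851688)) (l 15686592)) (a (b (c (l 15702608) (l 15758448)) (c (l 15687712) (b (l 15700440) (a (l 15743176) (l 15639920))))) (b (c (l 15518688) (l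 15572400)) (c (l 15489120) (l 15505568)))))))) (b (b (a (a (l 16250432) (l 16250592)) (b (l 16535064) (l 16253680))) (a (a (l 16164200) (l 16102096)) (l 16025096))) (b (a (c (b (l 15741640) (l 15639800)) (l 15602016)) (c (b (l 15824704) (l 15637272)) (l 15757640))) (c (a (b (a (l 15500888) (l 15459784)) (a (l 15387776) (l 15342864))) (b (l 15411920) (l 15297080))) (a (b (l 15583728) (b (l 15241032) (c (l 15341680) (a (l 15379736) (l 15331696))))) (b (l 15514400) (b (l 15341512) (l 15281160))))))))), by decide +kernel⟩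

def k7_pm_012 : ∃ t, chk3 f_pm_012 t 5 2 1 = true :=
  ⟨(b (a (a (a (l 16208544) (l 2)) (l 2)) (l 2)) (a (a (a (l 16172736) (a (l 16083192) (a (l 16037312) (b (l 16048464) (l 16039048))))) (l 16219256)) (a (l 16575744) (c (l 16777016) (l 16777184))))), by decide +kernel⟩

def k8_pm_012 : ∃ t, chk3 f_pm_012 t 5 3 1 = true :=
  ⟨(a (b (a (a (b (l 16135392) (b (l 16107880) (l 16189432))) (a (b (l 16053984) (b (l 16030792) (l 16151640))) (a (b (l 16013504) (b (l 15993368) (l 16113600))) (b (l 15962344) (b (a (l 16002904) (l 16013104)) (a (l 16123720) (l 16134264))))))) (b (l 16213856) (b (l 16204808) (l 16217408)))) (a (b (a (b (l 16218536) (b (l 16037456) (l 15879848))) (a (b (l 16456800) (l 15890016)) (a (b (l 16500424) (l 15914064)) (b (a (l 16489656) (l 16332952)) (a (l 15936192) (l 15712464)))))) (a (b (c (b (l 15741792) (l 15555624)) (l 15674312)) (b (c (l 15348720) (l 15450120)) (c (l 15251144) (b (l 15294680) (l 15236304))))) (a (b (c (l 15570080) (l 15624368)) (b (c (l 15300184)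 (l 15400712)) (c (l 15219848) (b (l 15257912) (l 15211320))))) (a (b (c (l 15521664) (l 15596360)) (b (c (l 15269992) (l 15369896)) (c (l 15192888) (b (l 15225840) (l 15186048))))) (b (a (c (l 15521848) (l 15553384)) (c (b (l 15597216) (l 15402240)) (l 15521544))) (a (b (l 15034088) (c (l 15144192) (l 15148208))) (b (c (l 15190192) (l 15287824)) (c (l 15108200) (b (l 15139928) (l 15097800)))))))))) (b (b (l 16120240) (l 15668736)) (b (b (c (l 15295712) (l 15344960)) (c (l 15088904) (l 15128144))) (b (c (l 14843216) (l 14930424)) (c (l 14745568) (b (l 14770512) (l 14720352)))))))) (b (b (a (l 16577144) (l 16775984)) (a (b (l 16573448) (l 16469480)) (b (l 16768312) (l 16560552)))) (b (b (a (l 15970016) (l 15910576)) (a (l 15443968) (l 15284280))) (b (a (b (l 14991472) (l 14655592)) (c (l 14647120) (l 14650640))) (a (b (c (l 14298152) (l 14368216)) (c (l 14113568) (b (l 14129608) (l 14047664)))) (b (c (l 14087720) (l 14150768)) (c (l 13826456) (b (l 13864928) (l 13729208))))))))), by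 decide +kernel⟩

def k9_pm_012 : ∃ t, chk3 f_pm_012 t 3 1 1 = true :=
  ⟨(b (a (a (c (l 16777216) (l 16777216)) (l 2)) (l 2)) (b (b (a (c (a (l 16775720) (l 16775720)) (a (l 16775680) (l 16775680))) (l 2)) (a (c (a (b (l 16768144) (l 16499968)) (b (l 16768144) (l 16583848))) (b (l 16767912) (a (l 16473968) (l 16515912)))) (b (l 2) (a (l 16581336) (l 2))))) (a (b (c (a (b (l 15921480) (l 15303192)) (b (l 15921480) (l 15303192))) (b (a (l 15899248) (l 15899248)) (a (l 15264904) (l 15264904)))) (c (a (b (c (l 14641712) (l 14661904)) (b (l 14087456) (l 13826040))) (b (c (l 14641712) (l 14661904)) (a (l 13974584) (l 13974584)))) (b (a (l 14650384) (l 14650384)) (a (b (l 14150488) (c (l 13805880) (l 13807664))) (c (b (l 14157128) (l 13805880)) (l 13896952)))))) (b (b (a (l 15868424) (l 2)) (a (l 15095304) (l 15284048))) (b (c (a (l 14646872) (l 14646872)) (l 14566496)) (c (a (l 13974584) (l 13974584)) (a (l 13728272) (l 13979936)))))))), by decide +kernel⟩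

theorem s10_pm_012 : ∃ t, chk3 f_pm_012 t 5 1 1 = true := ex3_b k7_pm_012 k8_pm_012

theorem s11_pm_012 : ∃ t, chk3 f_pm_012 t 8 30 1 = true := ex3_b k3_pm_012 k4_pm_012

theorem s12_pm_012 : ∃ t, chk3 f_pm_012 t 8 15 1 = true := ex3_b s11_pm_012 k5_pm_012

theorem s13_pm_012 : ∃ t, chk3 f_pm_012 t 8 7 1 = true := ex3_b k2_pm_012 s12_pm_012

theorem s14_pm_012 : ∃ t, chk3 f_pm_012 t 8 3 1 = true := ex3_b k1_pm_012 s13_pm_012

theorem s15_pm_012 : ∃ t, chk3 f_pm_012 t 4 3 1 = true := ex3_a s14_pm_012 k6_pm_012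

theorem s16_pm_012 : ∃ t, chk3 f_pm_012 t 4 1 1 = true := ex3_b k0_pm_012 s15_pm_012

theorem s17_pm_012 : ∃ t, chk3 f_pm_012 t 2 1 1 = true := ex3_a s16_pm_012 s10_pm_012

theorem s18_pm_012 : ∃ t, chk3 f_pm_012 t 1 1 1 = true := ex3_a s17_pm_012 k9_pm_012

theorem c_pm_012 : CertFX 67108864 469762048 536870912 536870912 1046898278 26843546 true true false .pnp 0 1 2
    ndF1q0 ndF3q1 pcF2 Cut.none Ext.none :=
  certFX2 (fam := true) (s1 := true) (s2 := false) (a := 0) (b := 1) (c := 2) (cn := .pnp) (n1 := ndF1q0) (n2 := ndF3q1) (pc := pcF2) (cut := Cut.none) (xt := Ext.none) (P1 := 67108864) (W1 := 469762048) (P2 := 536870912) (W2 := 536870912) (P3 := 1046898278) (W3 := 26843546)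
    rfl (fun _ => rfl) s18_pm_012

noncomputable def f_pm_022 : ℕ → ℕ → ℕ → ℕ → Bool := onCell 1073741824 536870912 1073741824 536870912 1046898278 26843546
    (rowFX 2 true true false .pp 0 2 2 (qsf 67108864 469762048 1073741824 536870912 2) ndF1q0 ndF3q2 pcF2 Cut.none Ext.none)

def k0_pm_022 : ∃ t, chk3 f_pm_022 t 8 16 1 = true :=
  ⟨(a (l 1) (a (l 1) (a (l 1) (a (l 1) (b (b (c (c (c (l 253435927111) (l 16524128)) (l 16518280)) (c (c (l 16534160) (c (l 16550616) (l 16505384))) (l 199748811991))) (l 1)) (l 1)))))), by decide +kernel⟩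

def k1_pm_022 : ∃ t, chk3 f_pm_022 t 18 16 1 = true :=
  ⟨(a (b (c (c (a (c (b (a (l 16426432) (l 16426952)) (l 16480472)) (b (l 16429488) (l 16504024))) (b (l 16184240) (b (l 16382792) (c (l 16503896) (l 16566760))))) (b (a (c (l 16428088) (l 16404496)) (c (l 16350032) (l 16304664))) (c (l 16387384) (l 213170474327)))) (c (c (b (a (l 16357696) (b (l 16313464) (l 16404696))) (l 277058078727)) (b (a (c (a (l 16466808) (l 16408880)) (c (l 16371976) (l 16431560))) (c (l 16232592) (l 16351672))) (a (c (l 16561456) (l 16530960)) (c (l 16453040) (l 16443264))))) (b (a (c (l 16379600) (l 16367280)) (b (l 16298128) (l 16368640))) (a (l 16515056) (l 16425560))))) (a (l 1) (a (l 1) (c (c (b (l 16482312) (l 1)) (l 16470512)) (c (c (l 16542232) (l 345777686887)) (l 16524936)))))) (c (b (b (c (c (l 16054416) (l 16092704)) (c (l 16089040) (l 16063296))) (c (a (b (l 16381176) (l 16455328)) (l 16141168)) (c (l 16130680) (l 16134288)))) (b (c (a (c (l 16405800) (l 16507720)) (l 16290928)) (a (l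 16413560) (l 16272648))) (c (c (c (l 16388952) (l 16415488)) (l 103111897799)) (a (l 16532376) (l 16424752))))) (b (c (c (b (c (l 16013304) (a (l 16225880) (l 16095656))) (a (l 16282528) (l 16191360))) (a (c (b (l 16223256) (l 16354416)) (l 16091288)) (l 16041536))) (b (c (l 16052904) (l 15996488)) (a (l 16302200) (l 16186656)))) (c (c (a (l 16376520) (c (l 16350176) (l 16255552))) (c (a (a (l 16456704) (l 16402640)) (b (l 16326304) (l 16430648))) (a (l 16323096) (l 16329880)))) (a (l 16400960) (l 16263144)))))), by decide +kernel⟩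

def k2_pm_022 : ∃ t, chk3 f_pm_022 t 19 16 1 = true :=
  ⟨(c (c (b (a (a (b (c (a (l 16019152) (l 15954200)) (l 15960816)) (c (l 16081872) (l 16154424))) (b (c (l 15769936) (l 15847816)) (c (l 15999688) (l 16008272)))) (b (c (l 15631872) (l 15666472)) (c (a (l 15817888) (l 15759568)) (l 15618504)))) (a (a (b (l 16140192) (a (l 16425536) (l 16360184))) (c (l 16163408) (l 16183512))) (c (b (l 15764736) (l 16032744)) (a (l 16030512) (l 15886824))))) (a (b (a (c (b (l 15976744) (l 16140800)) (b (l 15927352) (l 16122048))) (c (b (l 15841808) (l 15993600)) (b (l 15747936) (l 15971192)))) (a (c (l 16184888) (l 16202320)) (l 16020936))) (b (c (b (l 15659128) (l 15791120)) (b (c (l 15650712) (l 15651120)) (a (l 15828560) (l 15708016)))) (c (l 15767584) (a (l 15975528) (l 15705560)))))) (a (c (b (c (a (c (b (l 15903112) (l 16107184)) (b (l 15960536) (l 16099192))) (c (b (l 15831000) (l 15961232)) (l 15760368))) (a (l 15782304) (b (l 15812984) (l 15927152)))) (a (c (c (l 16140216) (b (l 16201928)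 (l 16267952))) (b (l 16185936) (a (l 16258632) (l 16270104)))) (c (c (l 16114536) (l 16108776)) (l 16095920)))) (b (b (a (c (l 15935112) (l 15835376)) (c (l 15796312) (l 15716584))) (a (l 16051944) (l 15900048))) (a (l 16115888) (l 16086016)))) (b (b (c (l 15631528) (c (l 15608304) (l 15590152))) (c (c (a (l 15707216) (l 15683960)) (l 15720296)) (l 15607112))) (c (c (c (a (l 15961960) (l 15815056)) (l 15877360)) (l 15803744)) (l 15707560))))), by decide +kernel⟩

def k3_pm_022 : ∃ t, chk3 f_pm_022 t 4 17 1 = true :=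
  ⟨(a (l 1) (b (a (b (a (l 1) (a (l 1) (c (c (l 16435288) (c (l 16553544) (l 16535920))) (c (c (l 16529336) (l 16405640)) (l 16526864))))) (l 1)) (c (a (c (a (c (c (l 16381048) (l 16386368)) (l 16322864)) (b (l 16322752) (c (l 16384896) (l 16417464)))) (a (a (l 16404856) (l 16307384)) (c (l 16290960) (l 16298576)))) (c (a (b (l 16190264) (l 16284832)) (l 16086288)) (c (l 15963448) (a (l 16192512) (l 16031304))))) (c (a (a (c (b (l 16333032) (l 16495064)) (c (a (l 16455312) (l 16358344)) (a (l 16455312) (l 16438768)))) (c (l 16102056) (c (l 16252296) (l 16331624)))) (c (a (l 15957072) (l 15948840)) (l 16104784))) (a (a (l 16380512) (l 16286808)) (l 15973128))))) (a (l 1) (a (a (l 1) (c (c (b (l 16351824) (l 1)) (l 16350216)) (c (c (l 16443824) (l 225518393767)) (l 16486928)))) (c (b (c (c (l 16103840) (l 16204416)) (l 16092224)) (c (c (a (l 16411848) (l 16332392)) (l 16263560)) (l 16212208))) (c (c (a (b (l 16328512) (l 16442944)) (l 16091872)) (c (a (l 16358264) (l 16255512)) (l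 16260368))) (l 16173664))))))), by decide +kernel⟩

def k4_pm_022 : ∃ t, chk3 f_pm_022 t 4 9 1 = true :=
  ⟨(b (b (a (l 1) (a (l 1) (a (l 1) (a (l 1) (a (l 1) (c (c (l 16366600) (l 16368240)) (c (c (l 16361376) (l 16346152)) (l 16358584)))))))) (l 1)) (l 1)), by decide +kernel⟩

def k5_pm_022 : ∃ t, chk3 f_pm_022 t 4 5 1 = true :=
  ⟨(l 1), by decide +kernel⟩

def k6_pm_022 : ∃ t, chk3 f_pm_022 t 40 8 1 = true :=
  ⟨(b (c (c (b (b (c (l 15445152) (l 15436064)) (c (l 15546416) (l 15572768))) (c (a (l 15781000) (l 15663800)) (l 15530200))) (c (b (c (l 15429424) (b (l 15422968) (l 15547200))) (a (l 15729256) (l 15606624))) (b (c (b (l 15422680) (l 15541080)) (l 15470000)) (a (l 15660744) (l 15586192))))) (b (c (b (l 15394992) (l 15492528)) (b (c (l 15369144) (l 15349248)) (l 15446912))) (c (l 15502840) (l 15581104)))) (c (c (b (a (l 15936760) (l 15691560)) (c (b (l 16014232) (l 16067936)) (l 15907256))) (c (b (l 15746424) (l 16023352)) (b (c (l 15622888) (l 15622376)) (a (l 16110912)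 (l 15958400))))) (c (c (c (b (l 15785576) (l 15872488)) (b (l 15801904) (l 16034592))) (b (l 15797368) (l 16031352))) (b (l 15788288) (l 16024864))))), by decide +kernel⟩

def k7_pm_022 : ∃ t, chk3 f_pm_022 t 41 8 1 = true :=
  ⟨(c (b (c (a (b (c (l 15285120) (l 15376280)) (c (l 15591200) (l 15564816))) (b (a (a (c (l 15368792) (l 15354904)) (c (l 15379840) (l 15366032))) (b (l 15329624) (l 15472056))) (a (a (l 15553544) (l 15564544)) (l 15595184)))) (a (c (b (c (l 15363920) (l 15360664)) (l 15534200)) (b (l 15343560) (l 15510080))) (c (b (a (a (l 15153040) (l 15353384)) (l 15382872)) (a (a (l 15512384) (l 15524232)) (l 15556232))) (b (l 15344080) (l 15506464))))) (c (a (b (l 15685448) (l 15830392)) (b (a (l 15640272) (l 15717536)) (a (a (l 15824736) (l 15828536)) (l 15851664)))) (a (c (b (l 15663008) (l 15852984)) (b (c (l 15652864) (l 15643656)) (l 15849752))) (a (c (b (l 15576880) (l 15805304)) (c (b (l 15626968) (l 15804384)) (l 15713712))) (c (l 15529584) (l 15709480)))))) (b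 (a (c (b (l 15205264) (l 15471024)) (b (b (l 15141768) (l 15313112)) (l 15442424))) (b (a (c (l 15146816) (a (l 15205032) (l 15258504))) (c (l 15329064) (l 15162656))) (c (l 15470960) (l 15442296)))) (a (c (l 15676912) (l 15643016)) (b (l 15619304) (l 15758352))))), by decide +kernel⟩

def k8_pm_022 : ∃ t, chk3 f_pm_022 t 20 9 1 = true :=
  ⟨(b (a (a (b (c (c (l 16135552) (l 16267072)) (c (c (l 16202760) (l 16260992)) (l 16257160))) (l 1)) (c (c (b (c (l 16144080) (l 16134376)) (l 212096096039)) (b (c (l 16132776) (l 16125144)) (l 16175488))) (c (c (b (l 15964504) (l 16209448)) (l 16163072)) (l 16158320)))) (c (c (a (b (l 16028936) (c (l 16134184) (l 16124672))) (b (l 15964360) (a (a (l 16082104) (l 16082624)) (l 16100264)))) (a (c (b (l 16024280) (l 16115288)) (b (l 16018656) (l 16108192))) (c (a (l 15939336) (l 16041720)) (a (a (l 15892128) (l 16021312)) (l 16040920))))) (a (c (c (b (l 15977880) (l 16072368)) (l 16056992)) (l 16051088)) (b (l 15961792) (l 16069384))))) (b (a (l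 1) (a (l 1) (a (l 1) (b (c (c (l 16166328) (l 16147024)) (l 16141624)) (l 1))))) (l 1))), by decide +kernel⟩

def k9_pm_022 : ∃ t, chk3 f_pm_022 t 20 5 1 = true :=
  ⟨(l 1), by decide +kernel⟩

def k10_pm_022 : ∃ t, chk3 f_pm_022 t 21 2 1 = true :=
  ⟨(a (b (b (c (b (c (b (b (c (l 15416760) (l 15406072)) (c (l 15573184) (l 15429720))) (c (l 15709736) (l 15597840))) (c (b (a (l 15394752) (l 15501344)) (l 15597176)) (b (l 15449376) (l 15627432)))) (c (b (c (l 15832496) (l 15801928)) (c (l 15948664) (l 15933544))) (c (b (l 15781952) (l 15924432)) (l 15845216)))) (b (b (c (b (l 15365048) (l 15476328)) (c (l 15240840) (l 15201096))) (c (l 15593184) (l 15566200))) (b (l 15741984) (l 15905216)))) (b (c (c (b (l 16057272) (a (l 16133952) (l 16178048))) (c (b (l 16049736) (l 16151496)) (a (l 16018104) (l 16126008)))) (b (l 16036040) (l 16142504))) (b (c (c (c (l 16137192) (l 16234256)) (c (l 16203208) (l 16165304))) (l 16114896)) (a (l 1) (c (c (l 16287968) (l 16185656)) (l 16259416))))))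 (l 1)) (b (b (c (b (c (b (c (b (l 15539392) (l 15700288)) (b (l 15534048) (l 15688016))) (c (l 15854120) (l 15789328))) (b (l 15585504) (l 15789624))) (c (c (l 15945192) (b (l 15965664) (l 16091712))) (c (b (l 15943216) (l 16085528)) (l 16006600)))) (b (b (c (l 15527608) (b (l 15415656) (l 15564576))) (c (l 15743088) (l 15718208))) (l 15842392))) (c (b (c (c (l 16184856) (l 16054000)) (c (b (l 16184624) (l 16252512)) (l 16217904))) (c (b (a (l 16312256) (l 16356960)) (a (l 16341240) (l 16373112))) (c (b (l 16315000) (l 16313880)) (a (l 16278792) (l 16372384))))) (b (c (l 16213456) (l 16207528)) (b (l 16308208) (l 16353664))))) (b (b (b (c (c (l 16252496) (a (l 1) (l 16395904))) (l 16350424)) (l 1)) (l 1)) (l 1)))), by decide +kernel⟩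

def k11_pm_022 : ∃ t, chk3 f_pm_022 t 11 4 1 = true :=
  ⟨(a (b (b (b (c (c (c (a (l 15556696) (l 15808248)) (l 15587936)) (a (l 15712520) (l 15840096))) (b (c (l 15582576) (a (l 15567832) (l 15678680))) (c (l 15802072) (l 15634920)))) (c (c (a (c (l 15981456) (l 15959528)) (l 15948264)) (l 15961568)) (c (l 15896928) (l 15853944)))) (c (c (a (b (c (l 16136488) (l 16112784)) (c (l 16264296) (l 16254760))) (a (b (l 16222032) (l 16353016)) (l 16217744))) (a (l 15999480) (l 16160848))) (a (l 15956608) (l 16142176)))) (c (b (c (a (a (l 16304216) (l 16404624)) (l 16357096)) (a (l 16362480) (l 16522936))) (a (a (c (b (l 16405656) (l 16441312)) (c (l 16430392) (l 16427696))) (c (l 16351960) (l 16477592))) (c (a (l 16413440) (l 16428144)) (l 16477912)))) (b (a (l 16314800) (l 16500024)) (a (b (l 16432032) (l 16467104)) (l 16414568))))) (b (b (c (a (b (c (a (b (l 15848600) (l 15992720)) (l 15888600)) (l 15760664)) (c (l 16113504) (l 16065584))) (b (l 15859752) (l 15992000))) (b (a (a (c (l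 15761232) (b (c (l 15793960) (a (l 15782896) (l 15766184))) (l 15878680))) (b (l 15736144) (l 15853064))) (c (l 15817952) (l 15784544))) (a (c (l 16023200) (l 16002472)) (l 15873344)))) (c (a (a (b (l 16221376) (c (a (b (l 16429000) (l 16510888)) (l 16444000)) (l 16444376))) (l 16228568)) (l 16137392)) (a (l 16164408) (l 16185816)))) (c (b (a (a (c (a (l 16466168) (l 16586288)) (l 16596120)) (l 16545960)) (l 16462064)) (a (c (c (b (l 16499296) (l 16487472)) (l 16502976)) (l 16502272)) (l 16528688))) (b (l 16278592) (a (l 16500856) (l 16527704)))))), by decide +kernel⟩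

def k12_pm_022 : ∃ t, chk3 f_pm_022 t 11 5 1 = true :=
  ⟨(b (a (a (b (b (c (c (a (l 16462152) (l 16481736)) (c (l 16483080) (l 16483208))) (l 16482896)) (b (c (c (l 16399752) (l 16328304)) (l 16464688)) (l 1))) (l 1)) (a (b (c (c (b (l 16438216) (b (l 16361816) (l 16236736))) (b (l 16434392) (l 395706349799))) (l 81636640183)) (l 1)) (b (c (b (l 16350160) (b (l 16313456) (c (l 16204272) (l 16228448)))) (b (l 16392064) (l 16246704))) (c (b (c (l 15862800) (l 15977072)) (l 1)) (l 221758789543))))) (b (b (c (a (a (a (l 16313976) (l 16412872)) (l 16462608)) (l 16494496)) (l 16351848)) (c (a (a (b (l 16234320) (c (l 16141600) (l 16219928))) (l 16244552)) (l 16270384)) (b (l 16363928) (l 16100576)))) (c (b (a (c (a (a (l 173440692567) (l 15979448)) (l 16015976)) (l 15961504)) (l 15989776)) (a (c (a (l 1) (l 15687400)) (l 15423360)) (c (l 15638568) (l 15805760)))) (a (b (l 15970080) (l 15652504)) (l 15761896))))) (a (l 1) (a (l 1) (a (l 1) (b (b (c (l 339869775543) (l 15483920)) (l 1))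 (l 1)))))), by decide +kernel⟩

def k13_pm_022 : ∃ t, chk3 f_pm_022 t 2 3 1 = true :=
  ⟨(l 1), by decide +kernel⟩

def k14_pm_022 : ∃ t, chk3 f_pm_022 t 3 2 1 = true :=
  ⟨(b (a (b (a (b (c (b (c (l 15874800) (l 15850616)) (l 15915248)) (c (b (l 15817752) (l 15888792)) (c (l 15790440) (l 15777296)))) (a (c (a (l 15952280) (l 16059952)) (b (l 15978304) (l 16119968))) (c (l 16038544) (l 15996856)))) (c (b (a (b (l 15859560) (l 15957120)) (l 15903376)) (a (l 16038456) (l 16038456))) (b (a (c (l 15834488) (l 15824736)) (l 15775992)) (l 15996768)))) (a (a (b (c (l 16291160) (l 16280592)) (c (l 16384792) (l 16378760))) (b (c (l 16124392) (l 16107984)) (l 16176312))) (a (b (l 16060376) (a (l 16040408) (l 15990280))) (b (l 16060296) (l 15972536))))) (b (b (a (c (l 15882408) (b (l 15799104) (l 15879216))) (c (l 15903376) (l 15838904))) (a (l 16021456) (l 16021456))) (a (b (l 16060296) (l 15972464)) (b (l 16060296) (l 15972464))))) (a (b (a (b (c (a (b (l 16371280) (l 16373376)) (l 16180736))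 (a (l 16371600) (l 16190992))) (c (a (b (l 16160008) (a (l 15970744) (l 16136960))) (l 16176960)) (a (b (l 16323400) (l 15962464)) (l 16299768)))) (b (a (l 15968656) (l 15873048)) (a (l 16222848) (l 16267160)))) (a (b (a (c (a (b (l 15385744) (l 367786619847)) (b (l 15793432) (l 15377632))) (b (l 15686480) (l 15342360))) (c (a (l 44591316087) (l 15952208)) (b (l 16014192) (l 15676720)))) (a (a (l 1) (b (c (l 379060705767) (l 15156096)) (l 1))) (c (a (b (l 15343568) (l 15172056)) (l 15232328)) (l 188471851495)))) (b (a (c (l 15998816) (l 16046568)) (l 16290600)) (a (c (a (l 15616944) (l 15790072)) (l 15612176)) (c (l 15975640) (l 15954800)))))) (b (b (a (l 15828480) (l 15828440)) (a (a (l 16145880) (l 16106992)) (l 16106936))) (a (b (a (l 16569616) (l 16586312)) (a (l 16219424) (l 16495632))) (b (l 16553144) (l 16731264)))))), by decide +kernel⟩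

def k15_pm_022 : ∃ t, chk3 f_pm_022 t 3 3 1 = true :=
  ⟨(a (b (b (b (a (a (l 1) (a (l 1) (c (l 14954304) (l 15073512)))) (a (c (a (l 15263056) (l 15441792)) (l 15248192)) (c (l 15685424) (l 15653872)))) (a (l 1) (a (a (l 1) (b (l 15078208) (l 1))) (c (a (l 15263056) (l 15441792)) (l 15332080))))) (a (l 1) (a (l 1) (b (c (l 349532549431) (a (l 1) (l 15073512))) (l 1))))) (l 1)) (b (a (b (c (a (b (l 15975432) (l 15685424)) (l 16023184)) (a (b (l 15954584) (l 15653872)) (l 16026736))) (a (b (c (l 66065250279) (l 15332080)) (c (l 418252026167) (a (l 1) (l 15073512)))) (c (b (l 15685424) (l 15189872)) (b (l 15653872) (l 15332080))))) (b (a (l 16257288) (l 16592848)) (c (b (l 16086104) (l 15556424)) (b (l 16068680) (l 124048099767))))) (a (b (a (l 1) (b (c (l 14792856) (l 266317479607)) (l 1))) (l 1)) (b (a (b (c (l 15252792) (l 15332080)) (c (l 14918680) (l 256116932279))) (c (b (l 15685424) (l 15315704)) (b (l 15653872) (l 15332080)))) (a (l 1) (b (c (l 15023544) (l 14858480)) (l 1))))))),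 by decide +kernel⟩

theorem s16_pm_022 : ∃ t, chk3 f_pm_022 t 3 1 1 = true := ex3_b k14_pm_022 k15_pm_022

theorem s17_pm_022 : ∃ t, chk3 f_pm_022 t 11 2 1 = true := ex3_b k11_pm_022 k12_pm_022

theorem s18_pm_022 : ∃ t, chk3 f_pm_022 t 20 8 1 = true := ex3_a k6_pm_022 k7_pm_022

theorem s19_pm_022 : ∃ t, chk3 f_pm_022 t 20 4 1 = true := ex3_b s18_pm_022 k8_pm_022

theorem s20_pm_022 : ∃ t, chk3 f_pm_022 t 20 2 1 = true := ex3_b s19_pm_022 k9_pm_022

theorem s21_pm_022 : ∃ t, chk3 f_pm_022 t 10 2 1 = true := ex3_a s20_pm_022 k10_pm_022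

theorem s22_pm_022 : ∃ t, chk3 f_pm_022 t 5 2 1 = true := ex3_a s21_pm_022 s17_pm_022

theorem s23_pm_022 : ∃ t, chk3 f_pm_022 t 9 16 1 = true := ex3_a k1_pm_022 k2_pm_022

theorem s24_pm_022 : ∃ t, chk3 f_pm_022 t 4 16 1 = true := ex3_a k0_pm_022 s23_pm_022

theorem s25_pm_022 : ∃ t, chk3 f_pm_022 t 4 8 1 = true := ex3_b s24_pm_022 k3_pm_022

theorem s26_pm_022 : ∃ t, chk3 f_pm_022 t 4 4 1 = true := ex3_b s25_pm_022 k4_pm_022

theorem s27_pm_022 : ∃ t, chk3 f_pm_022 t 4 2 1 = true := ex3_b s26_pm_022 k5_pm_022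

theorem s28_pm_022 : ∃ t, chk3 f_pm_022 t 2 2 1 = true := ex3_a s27_pm_022 s22_pm_022

theorem s29_pm_022 : ∃ t, chk3 f_pm_022 t 2 1 1 = true := ex3_b s28_pm_022 k13_pm_022

theorem s30_pm_022 : ∃ t, chk3 f_pm_022 t 1 1 1 = true := ex3_a s29_pm_022 s16_pm_022

theorem c_pm_022 : CertFX 67108864 469762048 1073741824 536870912 1046898278 26843546 true true false .pp 0 2 2
    ndF1q0 ndF3q2 pcF2 Cut.none Ext.none :=
  certFX2 (fam := true) (s1 := true) (s2 := false) (a := 0) (b := 2) (c := 2) (cn := .pp) (n1 := ndF1q0) (n2 := ndF3q2) (pc := pcF2) (cut := Cut.none) (xt := Ext.none) (P1 := 67108864) (W1 := 469762048) (P2 := 1073741824) (W2 := 536870912) (P3 := 1046898278) (W3 := 26843546)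
    rfl (fun _ => rfl) s30_pm_022

noncomputable def f_pm_023 : ℕ → ℕ → ℕ → ℕ → Bool := onCell 1610612736 536870912 1073741824 536870912 1046898278 26843546
    (rowFX 2 true true false .up 0 2 3 (qsf 67108864 469762048 1073741824 536870912 3) ndF1q0 ndF3q2 pcF3 Cut.none Ext.none)

def k0_pm_023 : ∃ t, chk3 f_pm_023 t 1 1 1 = true :=
  ⟨(b (a (b (a (b (a (b (c (l 15903376) (l 15796960)) (c (l 16038456) (l 15996768))) (b (l 2) (l 16021456))) (a (l 16000440) (l 16000440))) (b (l 2) (l 257259920087))) (b (a (b (l 15828440) (l 16106936)) (b (l 15828440) (l 16106936))) (a (b (l 16553112) (l 16776904)) (b (l 16553112) (l 16776904))))) (a (b (l 2) (a (b (l 2) (l 16562960)) (l 2))) (l 2))) (b (a (a (a (b (l 16743376) (b (l 16571880) (l 16257288))) (b (l 16777216) (l 16743376))) (l 16777216)) (a (a (l 16777208) (a (l 16777168) (l 16777176))) (a (a (c (l 16777048) (l 16777040)) (l 2)) (l 2)))) (a (a (a (b (c (a (l 15619336) (l 16107072)) (a (l 15564400) (l 16089656))) (a (b (c (l 15357648)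 (l 15332080)) (c (l 15044512) (l 14942368))) (b (l 52107258759) (a (l 15246384) (l 15422520))))) (b (a (l 16278264) (l 16592848)) (c (a (l 15703224) (l 16107072)) (a (l 15627312) (l 16089656))))) (a (b (l 16743376) (a (l 16299232) (l 16592848))) (b (l 16777216) (l 16680464)))) (a (a (a (l 16777216) (l 16777200)) (a (l 16777184) (l 16777200))) (a (a (a (l 16777216) (c (l 16777208) (l 16777208))) (l 4)) (l 4)))))), by decide +kernel⟩

theorem c_pm_023 : CertFX 67108864 469762048 1073741824 536870912 1046898278 26843546 true true false .up 0 2 3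
    ndF1q0 ndF3q2 pcF3 Cut.none Ext.none :=
  certFX2 (fam := true) (s1 := true) (s2 := false) (a := 0) (b := 2) (c := 3) (cn := .up) (n1 := ndF1q0) (n2 := ndF3q2) (pc := pcF3) (cut := Cut.none) (xt := Ext.none) (P1 := 67108864) (W1 := 469762048) (P2 := 1073741824) (W2 := 536870912) (P3 := 1046898278) (W3 := 26843546)
    rfl (fun _ => rfl) k0_pm_023

noncomputable def f_pm_033 : ℕ → ℕ → ℕ → ℕ → Bool := onCell 67108864 469762048 1610612736 536870912 1046898278 26843546
    (rowFX 1 true true false .pnn 0 3 3 (qsf 67108864 469762048 1610612736 536870912 3) ndF1q0 ndF3q3 pcF3 Cut.none Ext.none)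

def k0_pm_033 : ∃ t, chk3 f_pm_033 t 1 1 1 = true :=
  ⟨(b (a (b (a (a (c (l 132101060327) (l 45127890935)) (l 16119824)) (l 1)) (b (a (a (c (l 15659648) (l 15618816)) (l 16119824)) (l 16542968)) (a (a (c (b (l 15659648) (l 15659648)) (b (l 15618816) (l 15618816))) (b (l 16119824) (l 16119824))) (a (b (l 16596184) (l 16596184)) (l 16777216))))) (l 1)) (b (a (b (b (a (a (c (l 15659648) (l 15618816)) (l 16119824)) (a (l 16596184) (l 16777216))) (a (a (c (l 15659640) (l 15618816)) (l 16035936)) (a (l 16575200) (l 16777208)))) (a (b (b (a (c (l 15659648) (l 15618816)) (l 16119824)) (l 4)) (l 4)) (b (a (b (l 16596176) (l 16491320)) (l 16777208)) (a (l 4) (b (l 16777216) (l 4)))))) (a (b (b (l 16777216) (l 16777200)) (b (l 16777192) (c (l 16777208) (l 16777208)))) (l 1))) (b (a (l 4) (b (c (b (l 174181056407) (l 190287196887)) (b (l 293903269783) (l 281555251895))) (l 4))) (l 4)))), by decide +kernel⟩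

theorem c_pm_033 : CertFX 67108864 469762048 1610612736 536870912 1046898278 26843546 true true false .pnn 0 3 3
    ndF1q0 ndF3q3 pcF3 Cut.none Ext.none :=
  certFX1 (fam := true) (s1 := true) (s2 := false) (a := 0) (b := 3) (c := 3) (cn := .pnn) (n1 := ndF1q0) (n2 := ndF3q3) (pc := pcF3) (cut := Cut.none) (xt := Ext.none) (P1 := 67108864) (W1 := 469762048) (P2 := 1610612736) (W2 := 536870912) (P3 := 1046898278) (W3 := 26843546)
    rfl (fun _ => rfl) k0_pm_033

noncomputable def f_pm_101 : ℕ → ℕ → ℕ → ℕ → Bool := onCell 536870912 536870912 0 536870912 1046898278 26843546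
    (rowFX 2 true true false .npn 1 0 1 (qsf 536870912 536870912 0 536870912 1) ndF1q1 ndF3q0 pcF1 Cut.none Ext.none)

def k0_pm_101 : ∃ t, chk3 f_pm_101 t 1 1 1 = true :=
  ⟨(a (l 3) (b (l 3) (l 3))), by decide +kernel⟩

theorem c_pm_101 : CertFX 536870912 536870912 0 536870912 1046898278 26843546 true true false .npn 1 0 1
    ndF1q1 ndF3q0 pcF1 Cut.none Ext.none :=
  certFX2 (fam := true) (s1 := true) (s2 := false) (a := 1) (b := 0) (c := 1) (cn := .npn) (n1 := ndF1q1) (n2 := ndF3q0) (pc := pcF1) (cut := Cut.none) (xt := Ext.none) (P1 := 536870912) (W1 := 536870912) (P2 := 0) (W2 := 536870912) (P3 := 1046898278) (W3 := 26843546)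
    rfl (fun _ => rfl) k0_pm_101

noncomputable def f_pm_102 : ℕ → ℕ → ℕ → ℕ → Bool := onCell 536870912 536870912 1073741824 536870912 1046898278 26843546
    (rowFX 1 true true false .npp 1 0 2 (qsf 536870912 536870912 0 536870912 2) ndF1q1 ndF3q0 pcF2 Cut.none Ext.none)

def k0_pm_102 : ∃ t, chk3 f_pm_102 t 1 8 1 = true :=
  ⟨(b (a (l 3) (l 3)) (b (a (a (l 3) (l 3)) (l 3)) (b (a (a (c (c (l 16281408) (l 16273464)) (c (l 16266960) (l 37680402263))) (a (c (l 761449508535) (l 446306276423)) (l 3))) (a (l 3) (l 3))) (a (c (a (c (l 16335592) (l 16329416)) (a (l 16360592) (b (l 16368424) (l 16392864)))) (a (c (l 16281696) (a (l 16319336) (l 16324576))) (a (l 332489835719) (b (l 16357784) (l 16382848))))) (a (b (a (l 3) (l 3)) (a (c (l 16400768) (l 16390608)) (a (c (l 16388008) (l 16374824)) (c (l 16364672) (l 16340400))))) (a (l 3) (l 3))))))), by decide +kernel⟩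

def k1_pm_102 : ∃ t, chk3 f_pm_102 t 2 9 1 = true :=
  ⟨(b (b (a (b (c (l 16343424) (a (l 16348376) (l 16386784))) (c (l 16389136) (l 16379056))) (b (c (a (l 16413232) (b (l 16406304) (l 16429696))) (a (l 16361832) (b (l 16396672) (l 16420672)))) (c (l 16432536) (l 16423576)))) (a (a (l 2) (c (l 16386248) (l 16376096))) (c (a (l 16407120) (l 16436144)) (a (l 16397504) (l 16427288))))) (b (a (b (c (l 16366408) (l 16313800)) (l 16350800)) (b (c (l 16359352) (a (l 16385400) (l 16398248))) (l 16386592))) (a (l 16314104) (l 16282840)))), by decide +kernel⟩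

def k2_pm_102 : ∃ t, chk3 f_pm_102 t 3 9 1 = true :=
  ⟨(b (a (b (b (a (c (b (l 16418992) (l 16438016)) (b (l 16409320) (l 16428840))) (c (a (l 16345320) (b (l 16401016) (l 16426320))) (a (b (l 16398944) (l 16418088)) (b (l 16359144) (l 16366192))))) (a (a (l 16452360) (l 16452776)) (c (a (l 16451952) (b (l 16431560) (l 16459272))) (a (l 16440776) (b (a (l 16427080) (l 16449608)) (l 16445168)))))) (a (c (l 16447720) (l 16438816)) (c (a (l 16438616) (b (l 16456840) (l 16438928))) (a (l 16427184) (a (l 16418400) (l 16393208)))))) (b (a (b (a (c (l 16538872) (b (l 16517872) (l 16549504))) (c (l 16628904) (l 323363433031))) (c (b (l 16558896) (l 16621200)) (b (a (l 16582168) (l 16638168)) (l 16617584)))) (b (a (b (l 16616040) (l 16643440)) (b (c (l 16596880) (l 16615328)) (c (l 16700888) (l 16658168)))) (a (c (l 16623128) (l 16578192)) (b (c (l 16679104) (l 16637048)) (l 16648368))))) (a (c (b (l 16575672) (l 16504776)) (a (l 16542256) (l 16529312))) (a (c (l 16536224) (l 16530248))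 (b (c (l 16619816) (l 16617000)) (c (l 16516064) (l 16510384))))))) (a (b (b (a (c (l 16412688) (l 16402888)) (c (a (l 16399024) (l 16408256)) (a (l 16386648) (l 16333416)))) (a (l 16400032) (l 16388256))) (a (l 16352544) (a (l 16331656) (l 16335680)))) (b (a (b (c (a (l 16439256) (l 16416064)) (a (l 16432536) (l 16406520))) (a (l 16389656) (l 16345704))) (b (a (c (l 16403672) (l 16393976)) (c (b (l 16433160) (l 16387544)) (l 16298344))) (a (l 16323472) (l 16317688)))) (a (a (l 16271136) (l 16212808)) (a (l 16175808) (b (l 16211488) (l 16083536))))))), by decide +kernel⟩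

def k3_pm_102 : ∃ t, chk3 f_pm_102 t 1 5 1 = true :=
  ⟨(a (a (b (b (b (l 16210816) (l 2)) (l 2)) (l 2)) (b (b (b (l 16188056) (b (l 16114536) (b (l 16055808) (a (l 16056360) (l 16009512))))) (l 16215928)) (b (c (l 16458456) (l 16515328)) (c (l 16777040) (l 16777192))))) (a (b (b (b (a (l 16224640) (a (l 16196112) (l 16194304))) (b (a (l 16100360) (l 16064152)) (b (a (l 16038312) (l 16000128)) (a (b (l 16033952) (l 16036296)) (b (l 15997008) (l 16000504)))))) (a (l 16195112) (l 16159960))) (b (b (a (l 16458192) (c (l 16433344) (l 16421488))) (c (l 16641184) (l 16491728))) (c (l 16762440) (l 16761544)))) (b (b (a (b (a (l 16182488) (l 15976456)) (b (l 15854184) (b (l 15899392) (b (l 15897280) (l 15901568))))) (b (a (l 15923824) (b (l 15941952) (l 15792512))) (b (a (l 15716456) (l 15639544)) (b (a (l 15619728) (l 15536504)) (b (l 15562520) (a (l 15599056) (l 15522688))))))) (b (a (l 15966864) (a (l 15630576) (a (c (l 15573232) (l 15533376)) (c (l 15541720) (l 15416912))))) (a (c (a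 (l 16231520) (l 15981552)) (a (l 16219016) (l 15956744))) (c (a (l 15728432) (c (l 15646824) (l 15640496))) (a (l 15573112) (l 15615680)))))) (b (a (a (c (l 16256224) (l 16287040)) (b (l 15970448) (l 16306712))) (c (a (b (l 15870856) (l 16099640)) (b (c (l 15756128) (l 15739976)) (l 15787624))) (b (a (l 15883888) (l 15724376)) (l 15927128)))) (c (a (l 16521208) (b (l 16016648) (l 16122144))) (a (l 16515136) (l 16104792))))))), by decide +kernel⟩

def k4_pm_102 : ∃ t, chk3 f_pm_102 t 1 3 1 = true :=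
  ⟨(a (b (b (c (l 16777216) (l 16777216)) (l 2)) (l 2)) (b (a (b (c (l 16761552) (l 16761144)) (b (l 16761352) (l 16761352))) (b (a (b (l 16517520) (l 16517520)) (c (l 16122144) (l 16105128))) (b (a (l 16517520) (l 16113632)) (a (l 16517520) (l 16113632))))) (a (l 16761352) (a (l 16517520) (l 16113632))))), by decide +kernel⟩

theorem s5_pm_102 : ∃ t, chk3 f_pm_102 t 1 9 1 = true := ex3_a k1_pm_102 k2_pm_102

theorem s6_pm_102 : ∃ t, chk3 f_pm_102 t 1 4 1 = true := ex3_b k0_pm_102 s5_pm_102

theorem s7_pm_102 : ∃ t, chk3 f_pm_102 t 1 2 1 = true := ex3_b s6_pm_102 k3_pm_102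

theorem s8_pm_102 : ∃ t, chk3 f_pm_102 t 1 1 1 = true := ex3_b s7_pm_102 k4_pm_102

theorem c_pm_102 : CertFX 536870912 536870912 0 536870912 1046898278 26843546 true true false .npp 1 0 2
    ndF1q1 ndF3q0 pcF2 Cut.none Ext.none :=
  certFX1 (fam := true) (s1 := true) (s2 := false) (a := 1) (b := 0) (c := 2) (cn := .npp) (n1 := ndF1q1) (n2 := ndF3q0) (pc := pcF2) (cut := Cut.none) (xt := Ext.none) (P1 := 536870912) (W1 := 536870912) (P2 := 0) (W2 := 536870912) (P3 := 1046898278) (W3 := 26843546)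
    rfl (fun _ => rfl) s8_pm_102

noncomputable def f_pm_112 : ℕ → ℕ → ℕ → ℕ → Bool := onCell 1073741824 536870912 536870912 536870912 1046898278 26843546
    (rowFX 2 true true false .dn 1 1 2 (qsf 536870912 536870912 536870912 536870912 2) ndF1q1 ndF3q1 pcF2 Cut.none Ext.none)

def k0_pm_112 : ∃ t, chk3 f_pm_112 t 1 1 1 = true :=
  ⟨(b (a (a (a (b (a (l 3) (a (b (l 3) (l 1)) (a (b (c (l 16277584) (l 16242736)) (l 1)) (a (c (l 16314840) (l 16197512)) (c (l 16340064) (l 16307600)))))) (l 1)) (a (b (a (a (c (l 16348544) (l 16337408)) (l 16363568)) (c (a (l 16366720) (l 16367088)) (a (l 16356056) (l 16356440)))) (l 1)) (a (b (b (l 16358104) (l 16336232)) (l 1)) (b (l 16307888) (l 16260744))))) (a (a (a (b (l 16208544) (l 16172736)) (a (b (l 16107304) (l 16083192)) (b (a (l 16054640) (l 16054912)) (a (l 16037312) (l 95057860535))))) (b (l 16218008) (l 16219256))) (a (b (b (l 16568456) (l 16572472)) (l 16575744)) (c (b (l 16777072) (l 16777016)) (l 16776896))))) (a (c (a (l 16776408)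 (b (l 16764000) (l 16777216))) (a (b (l 16775744) (l 16777216)) (b (l 16763656) (l 16777216)))) (b (a (b (l 16659584) (l 16761352)) (b (l 16314568) (l 16659584))) (a (l 16775760) (l 16763832))))) (a (a (l 1) (a (l 1) (b (b (l 634077395175) (l 1)) (l 1)))) (b (a (a (b (c (l 16775720) (l 16775680)) (c (l 412349731175) (l 550862421799))) (b (c (l 16775720) (l 16775680)) (a (b (l 16768032) (l 710850027351)) (b (l 16768032) (l 16581336))))) (b (l 16775704) (b (l 16768032) (a (l 16581336) (l 16581336))))) (a (a (l 1) (a (l 1) (b (b (l 15910368) (l 1)) (l 1)))) (b (b (a (l 15889392) (l 15910368)) (a (l 15074336) (l 15284048))) (b (c (a (l 14646872) (l 14646872)) (l 14650384)) (a (l 1) (b (l 14089384) (l 13824216))))))))), by decide +kernel⟩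

theorem c_pm_112 : CertFX 536870912 536870912 536870912 536870912 1046898278 26843546 true true false .dn 1 1 2
    ndF1q1 ndF3q1 pcF2 Cut.none Ext.none :=
  certFX2 (fam := true) (s1 := true) (s2 := false) (a := 1) (b := 1) (c := 2) (cn := .dn) (n1 := ndF1q1) (n2 := ndF3q1) (pc := pcF2) (cut := Cut.none) (xt := Ext.none) (P1 := 536870912) (W1 := 536870912) (P2 := 536870912) (W2 := 536870912) (P3 := 1046898278) (W3 := 26843546)
    rfl (fun _ => rfl) k0_pm_112

noncomputable def f_pm_113 : ℕ → ℕ → ℕ → ℕ → Bool := onCell 1610612736 536870912 536870912 536870912 1046898278 26843546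
    (rowFX 2 true true false .nn 1 1 3 (qsf 536870912 536870912 536870912 536870912 3) ndF1q1 ndF3q1 pcF3 Cut.none Ext.none)

def k0_pm_113 : ∃ t, chk3 f_pm_113 t 1 1 1 = true :=
  ⟨(b (a (a (b (a (l 16124736) (a (l 15772792) (b (l 2) (l 15841504)))) (a (b (l 16659584) (l 16761352)) (b (l 16314568) (l 16659584)))) (b (a (b (l 2) (a (l 15689168) (l 2))) (l 2)) (a (a (l 16216960) (l 15796424)) (a (b (l 15689168) (l 16019688)) (b (l 2) (l 15841504)))))) (a (b (l 2) (a (b (l 2) (a (c (l 15703120) (l 15675216)) (l 2))) (l 2))) (l 2))) (a (a (b (b (l 16764488) (b (l 16768952) (l 16581344))) (b (b (l 15910368) (a (l 15284048) (l 15284048))) (b (a (c (l 14646872) (l 14650384)) (l 14638568)) (a (c (l 13974584) (b (l 14150488) (l 13810152))) (c (l 13974584) (l 13979936)))))) (b (a (b (l 16661000) (l 16658440)) (a (b (l 16416616) (l 16547136)) (b (l 16214576) (l 16442352)))) (a (b (l 15372112) (b (l 14638568) (c (l 13974584) (l 13979936)))) (b (b (l 15926912) (l 15294928)) (b (l 14641368) (c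 (l 13974584) (l 13979936))))))) (a (b (a (b (a (l 16021072) (a (l 15883808) (l 4))) (a (l 16333016) (b (l 16121768) (l 16138792)))) (a (b (l 4) (b (l 4) (a (l 15991808) (l 4)))) (l 4))) (a (b (a (b (l 15850568) (l 15304296)) (b (l 15687712) (l 15225360))) (b (a (l 14654728) (l 14658600)) (c (l 13984560) (a (l 13984376) (l 13997120))))) (a (b (c (l 15375920) (l 15272472)) (b (c (l 14595480) (l 14586336)) (c (l 13992568) (l 14001560)))) (b (l 4) (b (l 4) (c (l 13924616) (l 194575926167))))))) (a (b (l 4) (l 4)) (l 4))))), by decide +kernel⟩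

theorem c_pm_113 : CertFX 536870912 536870912 536870912 536870912 1046898278 26843546 true true false .nn 1 1 3
    ndF1q1 ndF3q1 pcF3 Cut.none Ext.none :=
  certFX2 (fam := true) (s1 := true) (s2 := false) (a := 1) (b := 1) (c := 3) (cn := .nn) (n1 := ndF1q1) (n2 := ndF3q1) (pc := pcF3) (cut := Cut.none) (xt := Ext.none) (P1 := 536870912) (W1 := 536870912) (P2 := 536870912) (W2 := 536870912) (P3 := 1046898278) (W3 := 26843546)
    rfl (fun _ => rfl) k0_pm_113

noncomputable def f_pm_123 : ℕ → ℕ → ℕ → ℕ → Bool := onCell 1610612736 536870912 1073741824 536870912 1046898278 26843546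
    (rowFX 2 true true false .npn 1 2 3 (qsf 536870912 536870912 1073741824 536870912 3) ndF1q1 ndF3q2 pcF3 Cut.none Ext.none)

def k0_pm_123 : ∃ t, chk3 f_pm_123 t 1 4 1 = true :=
  ⟨(a (a (b (a (b (c (l 15903376) (l 15838904)) (l 148208115799)) (b (l 15846488) (l 16021456))) (a (l 16000440) (l 16000440))) (b (b (c (l 15903376) (l 15838904)) (l 16021456)) (b (l 16060296) (l 15972464)))) (a (b (b (a (b (l 15828664) (l 15931336)) (b (a (l 15843392) (l 15842840)) (l 15944536))) (a (l 16021472) (l 16026696))) (a (l 16000448) (b (l 16061104) (l 15972520)))) (a (a (b (b (b (a (l 15788304) (l 15724976)) (a (l 15940288) (l 15907808))) (a (l 16030704) (b (l 15990424) (l 16057944)))) (b (l 16061536) (a (l 15972400) (l 15972528)))) (b (b (b (a (l 15683712) (c (l 15745496) (l 15581512))) (a (l 15883392) (l 15877040))) (a (b (l 15983344) (l 16061408)) (c (l 16058656) (l 16003832)))) (a (b (l 16066048) (l 15976640)) (b (c (l 16072368) (l 16063112)) (c (l 15981752) (l 15967848)))))) (a (b (a (b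 (c (b (a (l 15763408) (l 15792992)) (a (l 15954368) (l 15981544))) (b (l 15509944) (l 15799000))) (c (l 16092656) (l 16016456))) (b (b (a (c (l 15846816) (l 15551776)) (c (l 15939096) (l 15589776))) (a (l 15937064) (l 16000032))) (c (a (l 16142696) (l 16202056)) (a (l 16047792) (l 16101680))))) (b (a (c (l 16084152) (l 16067800)) (a (l 16100136) (c (l 16158584) (l 16130568)))) (a (c (l 15969648) (l 15956632)) (a (c (l 15961744) (l 15947080)) (c (l 151630544535) (l 15964728)))))) (a (a (b (b (c (b (l 16081328) (l 16199776)) (b (l 15667680) (l 15967632))) (c (l 16281256) (l 16182816))) (b (c (l 16206936) (l 16192432)) (l 4))) (b (b (c (b (l 16296472) (l 16333224)) (b (a (l 15755600) (l 15842040)) (l 16095048))) (c (a (l 16348288) (l 4)) (l 16275440))) (l 4))) (b (b (l 4) (l 4)) (l 4))))))), by decide +kernel⟩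

def k1_pm_123 : ∃ t, chk3 f_pm_123 t 1 5 1 = true :=
  ⟨(a (b (a (b (l 15828440) (l 1)) (b (l 15828440) (l 16106936))) (a (l 1) (b (l 16553112) (l 16776904)))) (a (a (b (b (l 15828456) (l 16106952)) (l 16521016)) (b (b (a (l 15828496) (l 15828496)) (a (l 16106992) (l 16106992))) (a (b (l 16553168) (l 16776952)) (b (l 16553168) (l 16776944))))) (a (a (b (b (a (l 15828464) (l 15829208)) (l 16107328)) (b (l 16469560) (l 16776672))) (b (b (a (l 15834040) (c (l 15843904) (l 15822936))) (a (l 16111920) (l 16112176))) (a (b (l 16556904) (l 16773872)) (b (l 16430152) (c (l 16775488) (l 16775440)))))) (a (b (a (b (c (l 15834576) (l 15813312)) (c (l 16115384) (l 16098984))) (a (b (c (l 15826792) (l 15804920)) (l 4)) (l 4))) (a (b (a (l 16490496) (l 4)) (l 4)) (l 4))) (l 4))))), by decide +kernel⟩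

def k2_pm_123 : ∃ t, chk3 f_pm_123 t 1 3 1 = true :=
  ⟨(b (a (a (l 1) (l 16777216)) (a (a (l 16777208) (a (l 16777168) (l 16777176))) (a (a (c (l 16777048) (l 16777040)) (c (a (l 16776264) (l 16776928)) (a (l 16776240) (l 16776928)))) (l 4)))) (a (l 1) (a (a (l 1) (a (l 1) (l 16777200))) (a (a (a (l 16777216) (c (l 16777208) (l 16777208))) (l 4)) (l 4))))), by decide +kernel⟩

theorem s3_pm_123 : ∃ t, chk3 f_pm_123 t 1 2 1 = true := ex3_b k0_pm_123 k1_pm_123

theorem s4_pm_123 : ∃ t, chk3 f_pm_123 t 1 1 1 = true := ex3_b s3_pm_123 k2_pm_123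

theorem c_pm_123 : CertFX 536870912 536870912 1073741824 536870912 1046898278 26843546 true true false .npn 1 2 3
    ndF1q1 ndF3q2 pcF3 Cut.none Ext.none :=
  certFX2 (fam := true) (s1 := true) (s2 := false) (a := 1) (b := 2) (c := 3) (cn := .npn) (n1 := ndF1q1) (n2 := ndF3q2) (pc := pcF3) (cut := Cut.none) (xt := Ext.none) (P1 := 536870912) (W1 := 536870912) (P2 := 1073741824) (W2 := 536870912) (P3 := 1046898278) (W3 := 26843546)
    rfl (fun _ => rfl) s4_pm_123

noncomputable def f_pm_133 : ℕ → ℕ → ℕ → ℕ → Bool := onCell 536870912 536870912 1610612736 536870912 1046898278 26843546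
    (rowFX 0 true true false .dn 1 3 3 (qsf 536870912 536870912 1610612736 536870912 3) ndF1q1 ndF3q3 pcF3 Cut.none Ext.none)

def k0_pm_133 : ∃ t, chk3 f_pm_133 t 1 1 1 = true :=
  ⟨(a (l 4) (l 2)), by decide +kernel⟩

theorem c_pm_133 : CertFX 536870912 536870912 1610612736 536870912 1046898278 26843546 true true false .dn 1 3 3
    ndF1q1 ndF3q3 pcF3 Cut.none Ext.none :=
  certFX0 (fam := true) (s1 := true) (s2 := false) (a := 1) (b := 3) (c := 3) (cn := .dn) (n1 := ndF1q1) (n2 := ndF3q3) (pc := pcF3) (cut := Cut.none) (xt := Ext.none) (P1 := 536870912) (W1 := 536870912) (P2 := 1610612736) (W2 := 536870912) (P3 := 1046898278) (W3 := 26843546)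
    rfl k0_pm_133

noncomputable def f_pm_202_a : ℕ → ℕ → ℕ → ℕ → Bool := onCell 0 420477299 1073741824 536870912 1046898278 26843546
    (rowFX 1 true true false .pp 2 0 2 (qsf 0 420477299 0 536870912 2) ndF1q2a ndF3q0 pcF2 Cut.none Ext.none)

def k0_pm_202_a : ∃ t, chk3 f_pm_202_a t 2 2 1 = true :=
  ⟨(b (l 1) (b (b (b (a (l 1) (a (l 1) (c (b (l 16455832) (l 16330760)) (b (l 16454448) (a (l 16367424) (b (l 16384144) (l 16311536))))))) (a (a (c (l 16190128) (l 16122480)) (c (l 16168888) (b (l 1) (l 16170248)))) (a (c (c (l 16180424) (l 16145048)) (a (b (l 16462864) (l 16242528)) (c (l 16233856) (l 16224048)))) (c (b (l 16286160) (l 16270672)) (a (b (l 16347464) (l 16371424)) (l 16239744)))))) (a (b (c (a (b (l 16050528) (l 15936424)) (b (l 16103016) (l 15994392))) (a (b (l 16064880) (l 15960736)) (c (l 16068928) (l 16077584)))) (c (a (l 15824560) (l 15878752)) (a (l 15836792) (l 15889304)))) (b (a (c (b (l 16163184) (l 16089760)) (l 16079888)) (c (l 16096440) (l 16205424))) (c (a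 (l 15883360) (l 16070440)) (a (l 15975160) (l 16095408)))))) (b (a (c (b (a (l 15696880) (l 15743048)) (a (l 15589480) (l 15627528))) (b (l 15709992) (l 15583144))) (c (b (a (l 15824024) (l 15855184)) (a (l 15698832) (l 15802984))) (b (a (l 15809472) (l 15922568)) (a (l 15672136) (l 15777640))))) (a (b (c (b (b (a (l 15546104) (l 15578760)) (l 15606792)) (l 15675888)) (a (l 15582088) (l 15615648))) (a (a (b (l 15735376) (l 15836488)) (l 15787944)) (l 15795520))) (b (b (c (a (l 15665536) (l 15764840)) (l 15605968)) (a (l 15742720) (l 15843000))) (c (a (l 15889040) (l 15968120)) (l 15904696))))))), by decide +kernel⟩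

def k1_pm_202_a : ∃ t, chk3 f_pm_202_a t 3 8 1 = true :=
  ⟨(b (l 1) (a (l 1) (b (l 1) (b (l 1) (b (l 1) (a (l 1) (a (l 1) (a (l 1) (b (l 1) (c (c (l 16060816) (l 16074088)) (l 421475624887))))))))))), by decide +kernel⟩

def k2_pm_202_a : ∃ t, chk3 f_pm_202_a t 6 9 1 = true :=
  ⟨(b (l 1) (b (a (l 1) (b (l 1) (c (l 16361144) (a (l 1) (l 16315504))))) (a (c (l 16358600) (b (l 1) (a (l 1) (l 16509616)))) (a (c (l 16331768) (b (l 16444528) (l 16357584))) (c (l 16316984) (c (l 16321368) (l 16289232))))))), by decide +kernel⟩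

def k3_pm_202_a : ∃ t, chk3 f_pm_202_a t 7 18 1 = true :=
  ⟨(b (a (l 1) (b (a (l 1) (c (c (a (l 279204770567) (b (l 16127296) (l 16194232))) (c (l 413422471255) (l 297458316855))) (c (a (l 16038752) (b (l 16113192) (l 16149552))) (a (l 598105990295) (b (l 371009753335) (l 16028872)))))) (a (a (l 1) (c (c (l 302827214135) (l 16092272)) (c (l 16064856) (l 567504434711)))) (c (c (a (l 298532379207) (b (l 16245680) (l 16290512))) (a (b (l 16174528) (l 16255152)) (b (l 16250776) (l 16327848)))) (a (c (b (l 16171496) (l 16263264)) (b (l 16110552) (l 16251760))) (c (l 16128448) (l 16225024))))))) (a (a (l 1) (b (a (l 1) (b (l 1) (c (l 324302270423) (l 550324846375)))) (c (b (c (l 16207392) (l 16265720)) (c (a (l 574484344039) (l 16365768)) (a (l 16322152) (l 16324104)))) (b (c (l 16220416) (l 421475833239)) (a (c (l 16318744) (l 16235944)) (c (l 16312272) (l 16323712))))))) (c (a (b (c (b (l 16139400) (a (l 16271872) (l 16342056))) (a (l 16161680) (b (l 16253936) (l 16349208)))) (c (a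 (b (l 16358168) (l 16393472)) (c (l 16347472) (l 16357336))) (b (a (l 16361488) (l 16396992)) (l 16340184)))) (b (a (c (b (l 16319184) (l 16377496)) (b (l 16310272) (l 16420592))) (c (l 16303080) (l 16372608))) (c (l 16359144) (l 16416488)))) (a (b (c (a (l 579315813879) (b (l 16258168) (l 16363648))) (a (b (l 16172712) (l 16230352)) (b (l 16223296) (l 16376208)))) (c (c (l 16234696) (l 16264304)) (b (l 16296784) (l 16461656)))) (b (c (c (l 16260104) (l 16268136)) (l 16277232)) (a (l 16396024) (l 16362488))))))), by decide +kernel⟩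

def k4_pm_202_a : ∃ t, chk3 f_pm_202_a t 7 19 1 = true :=
  ⟨(b (a (b (a (c (l 1051762509015) (a (l 16295264) (l 16183392))) (b (c (a (l 16382504) (b (c (l 16440752) (l 16448944)) (l 16443272))) (a (l 16331632) (c (l 16426328) (l 16503608)))) (c (l 16333064) (l 16341736)))) (a (c (a (l 16410640) (l 16368432)) (c (l 16313200) (a (l 16420128) (l 16509344)))) (c (l 16404656) (l 16378992)))) (b (c (a (b (c (c (l 16377944) (l 16418808)) (l 16422656)) (l 16510008)) (b (a (c (l 16438552) (l 16433520)) (l 16340736)) (c (l 16197288) (l 16277200)))) (a (b (a (l 16441976) (l 16470952)) (l 16451752)) (b (l 16255256) (l 16111496)))) (a (c (l 16283600) (l 16350792)) (c (l 16161024) (l 16129256))))) (a (a (a (c (l 16351144) (l 16276728)) (c (l 16316040) (l 16279984))) (c (l 16148376) (l 16177344))) (c (a (l 16019584) (l 15898184)) (a (l 16049072) (l 15890312))))), by decide +kernel⟩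

def k5_pm_202_a : ∃ t, chk3 f_pm_202_a t 3 5 1 = true :=
  ⟨(b (a (b (b (b (a (c (l 16333944) (a (l 16397760) (l 16307968))) (c (l 16226264) (a (l 16287632) (l 16309848)))) (a (c (a (l 16286648) (l 16254448)) (a (b (l 16359528) (l 16301168)) (l 16222832))) (c (l 16087648) (l 16113800)))) (a (c (a (l 16291680) (l 16262736)) (c (l 16220200) (l 16252752))) (c (a (l 16247632) (l 16268232)) (l 16128120)))) (a (b (c (l 16198560) (l 16280944)) (c (l 16123304) (l 16244768))) (b (c (l 16346520) (l 16402968)) (c (l 16268792) (l 16326816))))) (b (a (b (c (a (a (l 16117272) (l 16117336)) (l 15885648)) (a (b (l 16231832) (l 16024544)) (l 15749312))) (c (a (l 16101280) (l 15942216)) (a (l 16124120) (l 16006400)))) (b (c (a (l 15607144) (l 15424160)) (a (l 15705032) (l 15414360))) (a (c (l 15854472) (l 15831200)) (c (l 15631120) (l 15601528))))) (a (b (a (c (l 16297728) (l 16333664)) (c (l 16267768) (l 16258056))) (a (b (l 16501504) (l 16472424)) (a (l 16489248) (l 16399928)))) (b (a (l 15859464)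 (c (l 15899424) (l 15876856))) (a (c (l 16349432) (l 16298160)) (l 15954896)))))) (a (b (a (b (c (l 16043008) (l 16069080)) (l 15928216)) (b (l 16255640) (l 16023824))) (b (a (b (c (l 15893640) (l 15870688)) (l 15956088)) (b (l 16011080) (l 16068552))) (a (l 16049112) (l 16157512)))) (b (a (a (b (c (l 16398752) (l 16369896)) (l 16193000)) (b (l 16384560) (l 16347752))) (a (b (l 16459360) (l 16398904)) (b (l 16289856) (l 16466736)))) (a (c (b (l 16091888) (l 16329400)) (b (l 15993648) (l 16317944))) (c (a (l 16395176) (l 16552008)) (a (l 16325408) (l 16424560))))))), by decide +kernel⟩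

def k6_pm_202_a : ∃ t, chk3 f_pm_202_a t 1 3 1 = true :=
  ⟨(b (a (b (b (a (b (a (a (l 15982592) (b (l 15927888) (l 16001248))) (c (l 15987360) (l 15966856))) (a (l 16115224) (c (l 16112216) (l 16094976)))) (c (l 16077536) (l 16102400))) (a (b (l 16236352) (l 16348248)) (a (b (l 16258216) (l 16373600)) (l 16266712)))) (b (a (c (l 16490760) (l 16483336)) (b (l 16506448) (l 16608968))) (a (c (l 16688744) (l 16686440)) (l 16583144)))) (a (b (b (c (l 16222048) (l 16251208)) (l 16351688)) (b (b (l 16602040) (l 16635752)) (a (l 16771392) (l 16777168)))) (b (a (b (c (l 16384032) (l 16376744)) (c (l 16563072) (l 16540088))) (b (a (l 16549696) (l 16463584)) (a (c (l 16605488) (l 16601376)) (l 16382416)))) (a (b (b (l 16668824) (l 16722320)) (l 16722320)) (b (l 16501368) (l 16501368)))))) (a (b (c (a (l 16777160) (l 16777208)) (a (l 16777160) (l 16777208))) (c (b (l 16777208) (l 16777208)) (b (l 16777208) (l 16777208)))) (a (b (c (l 16777184) (l 16777184)) (c (l 16777184) (l 16777184))) (b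 (a (b (l 16722320) (l 16722320)) (b (l 16501368) (l 16501368))) (a (l 16722320) (l 16480392)))))), by decide +kernel⟩

theorem s7_pm_202_a : ∃ t, chk3 f_pm_202_a t 7 9 1 = true := ex3_b k3_pm_202_a k4_pm_202_a

theorem s8_pm_202_a : ∃ t, chk3 f_pm_202_a t 3 9 1 = true := ex3_a k2_pm_202_a s7_pm_202_a

theorem s9_pm_202_a : ∃ t, chk3 f_pm_202_a t 3 4 1 = true := ex3_b k1_pm_202_a s8_pm_202_a

theorem s10_pm_202_a : ∃ t, chk3 f_pm_202_a t 3 2 1 = true := ex3_b s9_pm_202_a k5_pm_202_a

theorem s11_pm_202_a : ∃ t, chk3 f_pm_202_a t 1 2 1 = true := ex3_a k0_pm_202_a s10_pm_202_a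

theorem s12_pm_202_a : ∃ t, chk3 f_pm_202_a t 1 1 1 = true := ex3_b s11_pm_202_a k6_pm_202_a

theorem c_pm_202_a : CertFX 0 420477299 0 536870912 1046898278 26843546 true true false .pp 2 0 2
    ndF1q2a ndF3q0 pcF2 Cut.none Ext.none :=
  certFX1 (fam := true) (s1 := true) (s2 := false) (a := 2) (b := 0) (c := 2) (cn := .pp) (n1 := ndF1q2a) (n2 := ndF3q0) (pc := pcF2) (cut := Cut.none) (xt := Ext.none) (P1 := 0) (W1 := 420477299) (P2 := 0) (W2 := 536870912) (P3 := 1046898278) (W3 := 26843546)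
    rfl (fun _ => rfl) s12_pm_202_a

noncomputable def f_pm_202_b : ℕ → ℕ → ℕ → ℕ → Bool := onCell 1073741824 536870912 0 536870912 1046898278 26843546
    (rowFX 2 true true false .pp 2 0 2 (qsf 1239849684 370763052 0 536870912 2) ndF1q2b ndF3q0 pcF2 Cut.none Ext.none)

def k0_pm_202_b : ∃ t, chk3 f_pm_202_b t 2 1 1 = true :=
  ⟨(a (l 1) (b (b (a (b (a (a (l 1) (a (l 1) (b (b (b (l 308195935271) (l 1)) (l 1)) (l 1)))) (b (b (c (a (l 341481327559) (l 15387592)) (b (l 405368463415) (l 376914548375))) (c (a (l 308195663031) (l 348997166407)) (l 329133319063))) (a (l 1) (c (b (l 308195371991) (l 1)) (l 288868203095))))) (l 1)) (a (b (b (b (c (a (l 15289768) (l 14979928)) (l 14870816)) (c (a (l 15463920) (l 15157872)) (l 15308104))) (c (b (a (l 360808079863) (l 15362704)) (a (l 307121379511) (l 371008420007))) (b (l 383893196935) (l 368324314327)))) (a (l 1) (b (b (c (l 15562408) (l 15724264)) (l 1)) (l 1)))) (b (b (c (a (b (l 14809704) (l 14989736)) (l 14900208)) (b (l 14788736) (l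 14978760))) (c (a (a (b (l 15197472) (a (a (l 15403600) (l 15396448)) (l 15396448))) (l 15294328)) (l 15294328)) (a (a (l 15081728) (l 15268632)) (l 15268632)))) (a (b (b (c (a (a (l 104720790439) (l 15587864)) (l 15587864)) (l 15557072)) (a (l 1) (l 533144157991))) (l 1)) (b (c (b (l 15588992) (l 15783976)) (l 15659440)) (l 444560883367)))))) (l 1)) (l 1))), by decide +kernel⟩

def k1_pm_202_b : ∃ t, chk3 f_pm_202_b t 3 1 1 = true :=
  ⟨(b (a (b (b (a (b (c (b (l 14808792) (l 14988840)) (l 14884312)) (a (c (l 15295080) (l 15269400)) (c (l 15296912) (l 15271296)))) (b (a (l 14895400) (l 14895376)) (a (l 15281064) (l 15280376)))) (a (b (a (c (b (l 15594208) (l 15795344)) (l 15665704)) (l 15684632)) (a (l 221222581399) (l 16031616))) (c (b (l 15681872) (l 16008344)) (b (l 15652400) (l 15988384))))) (a (b (a (b (l 421475987831) (l 1)) (b (l 16288936) (l 413423321287))) (l 1)) (b (a (b (l 16241536) (l 16422496)) (c (l 16351912) (l 16340864))) (a (b (l 314102710151) (l 1)) (b (l 16645560)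 (l 16776536)))))) (b (b (a (b (c (l 14900208) (l 14884312)) (l 15280376)) (b (l 14895376) (l 15280376))) (a (c (l 15825816) (l 15801104)) (l 15691864))) (a (b (c (l 16351912) (l 16340864)) (c (b (l 16667952) (l 16777056)) (b (l 16665112) (l 16777056)))) (b (l 16346384) (c (l 16723032) (l 16721624)))))) (b (a (l 1) (b (a (a (c (l 16672568) (l 488048984391)) (l 340409678199)) (c (l 16777216) (l 16777216))) (a (l 1) (a (l 4) (l 4))))) (l 1))), by decide +kernel⟩

theorem s2_pm_202_b : ∃ t, chk3 f_pm_202_b t 1 1 1 = true := ex3_a k0_pm_202_b k1_pm_202_b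

theorem c_pm_202_b : CertFX 1239849684 370763052 0 536870912 1046898278 26843546 true true false .pp 2 0 2
    ndF1q2b ndF3q0 pcF2 Cut.none Ext.none :=
  certFX2 (fam := true) (s1 := true) (s2 := false) (a := 2) (b := 0) (c := 2) (cn := .pp) (n1 := ndF1q2b) (n2 := ndF3q0) (pc := pcF2) (cut := Cut.none) (xt := Ext.none) (P1 := 1239849684) (W1 := 370763052) (P2 := 0) (W2 := 536870912) (P3 := 1046898278) (W3 := 26843546)
    rfl (fun _ => rfl) s2_pm_202_b

noncomputable def f_pm_203_a : ℕ → ℕ → ℕ → ℕ → Bool := onCell 0 420477299 1610612736 536870912 1046898278 26843546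
    (rowFX 1 true true false .up 2 0 3 (qsf 0 420477299 0 536870912 3) ndF1q2a ndF3q0 pcF3 Cut.none Ext.none)

def k0_pm_203_a : ∃ t, chk3 f_pm_203_a t 1 1 1 = true :=
  ⟨(b (a (b (b (a (l 4) (c (l 16777208) (l 16777208))) (l 4)) (l 4)) (a (b (b (c (l 16777184) (l 16777184)) (b (l 16777184) (l 4))) (l 4)) (b (b (c (l 16613736) (a (l 16721616) (l 16497824))) (c (b (l 16613736) (l 16613736)) (b (l 16609488) (l 16609488)))) (l 2)))) (l 2)), by decide +kernel⟩

theorem c_pm_203_a : CertFX 0 420477299 0 536870912 1046898278 26843546 true true false .up 2 0 3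
    ndF1q2a ndF3q0 pcF3 Cut.none Ext.none :=
  certFX1 (fam := true) (s1 := true) (s2 := false) (a := 2) (b := 0) (c := 3) (cn := .up) (n1 := ndF1q2a) (n2 := ndF3q0) (pc := pcF3) (cut := Cut.none) (xt := Ext.none) (P1 := 0) (W1 := 420477299) (P2 := 0) (W2 := 536870912) (P3 := 1046898278) (W3 := 26843546)
    rfl (fun _ => rfl) k0_pm_203_a

noncomputable def f_pm_203_b : ℕ → ℕ → ℕ → ℕ → Bool := onCell 1239849684 370763052 1610612736 536870912 1046898278 26843546
    (rowFX 1 true true false .up 2 0 3 (qsf 1239849684 370763052 0 536870912 3) ndF1q2b ndF3q0 pcF3 Cut.none Ext.none)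

def k0_pm_203_b : ∃ t, chk3 f_pm_203_b t 1 1 1 = true :=
  ⟨(b (b (a (b (b (a (l 4) (c (l 16716648) (l 16715072))) (l 4)) (l 4)) (b (a (b (l 16001768) (c (l 16470264) (l 16462288))) (b (a (l 15675576) (b (l 15066384) (l 15250424))) (a (l 15996728) (l 15541280)))) (a (l 4) (b (a (l 16249024) (l 15866920)) (a (l 4) (l 16156464)))))) (l 4)) (l 4)), by decide +kernel⟩

theorem c_pm_203_b : CertFX 1239849684 370763052 0 536870912 1046898278 26843546 true true false .up 2 0 3
    ndF1q2b ndF3q0 pcF3 Cut.none Ext.none :=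
  certFX1 (fam := true) (s1 := true) (s2 := false) (a := 2) (b := 0) (c := 3) (cn := .up) (n1 := ndF1q2b) (n2 := ndF3q0) (pc := pcF3) (cut := Cut.none) (xt := Ext.none) (P1 := 1239849684) (W1 := 370763052) (P2 := 0) (W2 := 536870912) (P3 := 1046898278) (W3 := 26843546)
    rfl (fun _ => rfl) k0_pm_203_b

noncomputable def f_pm_213_a : ℕ → ℕ → ℕ → ℕ → Bool := onCell 0 420477299 536870912 536870912 1046898278 26843546
    (rowFX 0 true true false .pnn 2 1 3 (qsf 0 420477299 536870912 536870912 3) ndF1q2a ndF3q1 pcF3 Cut.none Ext.none)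

def k0_pm_213_a : ∃ t, chk3 f_pm_213_a t 1 1 1 = true :=
  ⟨(b (b (a (l 4) (a (l 4) (a (b (b (c (l 16723024) (l 16721616)) (l 4)) (l 4)) (b (c (l 16400040) (b (l 16497824) (l 16497824))) (l 4))))) (l 4)) (l 4)), by decide +kernel⟩

theorem c_pm_213_a : CertFX 0 420477299 536870912 536870912 1046898278 26843546 true true false .pnn 2 1 3
    ndF1q2a ndF3q1 pcF3 Cut.none Ext.none :=
  certFX0 (fam := true) (s1 := true) (s2 := false) (a := 2) (b := 1) (c := 3) (cn := .pnn) (n1 := ndF1q2a) (n2 := ndF3q1) (pc := pcF3) (cut := Cut.none) (xt := Ext.none) (P1 := 0) (W1 := 420477299) (P2 := 536870912) (W2 := 536870912) (P3 := 1046898278) (W3 := 26843546)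
    rfl k0_pm_213_a

noncomputable def f_pm_213_b : ℕ → ℕ → ℕ → ℕ → Bool := onCell 1239849684 370763052 536870912 536870912 1046898278 26843546
    (rowFX 0 true true false .pnn 2 1 3 (qsf 1239849684 370763052 536870912 536870912 3) ndF1q2b ndF3q1 pcF3 Cut.none Ext.none)

def k0_pm_213_b : ∃ t, chk3 f_pm_213_b t 1 1 1 = true :=
  ⟨(l 4), by decide +kernel⟩

theorem c_pm_213_b : CertFX 1239849684 370763052 536870912 536870912 1046898278 26843546 true true false .pnn 2 1 3
    ndF1q2b ndF3q1 pcF3 Cut.none Ext.none :=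
  certFX0 (fam := true) (s1 := true) (s2 := false) (a := 2) (b := 1) (c := 3) (cn := .pnn) (n1 := ndF1q2b) (n2 := ndF3q1) (pc := pcF3) (cut := Cut.none) (xt := Ext.none) (P1 := 1239849684) (W1 := 370763052) (P2 := 536870912) (W2 := 536870912) (P3 := 1046898278) (W3 := 26843546)
    rfl k0_pm_213_b

noncomputable def f_pm_303 : ℕ → ℕ → ℕ → ℕ → Bool := onCell 1610612736 536870912 0 536870912 1046898278 26843546
    (rowFX 2 true true false .npn 3 0 3 (qsf 1610612736 469762048 0 536870912 3) ndF1q3 ndF3q0 pcF3 Cut.none Ext.none)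

def k0_pm_303 : ∃ t, chk3 f_pm_303 t 1 1 1 = true :=
  ⟨(a (b (a (a (b (b (c (l 15087080) (l 14927744)) (l 15670896)) (l 1)) (a (b (b (b (l 14895376) (l 15280376)) (l 15817696)) (l 1)) (b (b (b (l 14895376) (l 15280376)) (l 15649920)) (l 4)))) (b (a (b (c (b (l 14900208) (l 15294328)) (a (l 15074544) (b (l 14884312) (l 4)))) (a (c (l 15825816) (l 15801104)) (l 4))) (l 4)) (l 4))) (l 4)) (l 4)), by decide +kernel⟩

theorem c_pm_303 : CertFX 1610612736 469762048 0 536870912 1046898278 26843546 true true false .npn 3 0 3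
    ndF1q3 ndF3q0 pcF3 Cut.none Ext.none :=
  certFX2 (fam := true) (s1 := true) (s2 := false) (a := 3) (b := 0) (c := 3) (cn := .npn) (n1 := ndF1q3) (n2 := ndF3q0) (pc := pcF3) (cut := Cut.none) (xt := Ext.none) (P1 := 1610612736) (W1 := 469762048) (P2 := 0) (W2 := 536870912) (P3 := 1046898278) (W3 := 26843546)
    rfl (fun _ => rfl) k0_pm_303

noncomputable def f_pm_313 : ℕ → ℕ → ℕ → ℕ → Bool := onCell 1610612736 469762048 536870912 536870912 1046898278 26843546
    (rowFX 0 true true false .dn 3 1 3 (qsf 1610612736 469762048 536870912 536870912 3) ndF1q3 ndF3q1 pcF3 Cut.none Ext.none)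

def k0_pm_313 : ∃ t, chk3 f_pm_313 t 1 1 1 = true :=
  ⟨(l 4), by decide +kernel⟩

theorem c_pm_313 : CertFX 1610612736 469762048 536870912 536870912 1046898278 26843546 true true false .dn 3 1 3
    ndF1q3 ndF3q1 pcF3 Cut.none Ext.none :=
  certFX0 (fam := true) (s1 := true) (s2 := false) (a := 3) (b := 1) (c := 3) (cn := .dn) (n1 := ndF1q3) (n2 := ndF3q1) (pc := pcF3) (cut := Cut.none) (xt := Ext.none) (P1 := 1610612736) (W1 := 469762048) (P2 := 536870912) (W2 := 536870912) (P3 := 1046898278) (W3 := 26843546)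
    rfl k0_pm_313

noncomputable def f_mm_001 : ℕ → ℕ → ℕ → ℕ → Bool := onCell 67108864 469762048 0 536870912 1046898278 26843546
    (rowFX 0 true false false .up 0 0 1 (qsf 67108864 469762048 0 536870912 1) ndF1q0 ndF3q0 pcF1 Cut.none Ext.none)

def k0_mm_001 : ∃ t, chk3 f_mm_001 t 1 1 1 = true :=
  ⟨(l 4), by decide +kernel⟩

theorem c_mm_001 : CertFX 67108864 469762048 0 536870912 1046898278 26843546 true false false .up 0 0 1
    ndF1q0 ndF3q0 pcF1 Cut.none Ext.none :=
  certFX0 (fam := true) (s1 := false) (s2 := false) (a := 0) (b := 0) (c := 1) (cn := .up) (n1 := ndF1q0) (n2 := ndF3q0) (pc := pcF1) (cut := Cut.none) (xt := Ext.none) (P1 := 67108864) (W1 := 469762048) (P2 := 0) (W2 := 536870912) (P3 := 1046898278) (W3 := 26843546)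
    rfl k0_mm_001

noncomputable def f_mm_011 : ℕ → ℕ → ℕ → ℕ → Bool := onCell 67108864 469762048 536870912 536870912 1046898278 26843546
    (rowFX 0 true false false .pnn 0 1 1 (qsf 67108864 469762048 536870912 536870912 1) ndF1q0 ndF3q1 pcF1 Cut.none Ext.none)

def k0_mm_011 : ∃ t, chk3 f_mm_011 t 1 1 1 = true :=
  ⟨(l 4), by decide +kernel⟩

theorem c_mm_011 : CertFX 67108864 469762048 536870912 536870912 1046898278 26843546 true false false .pnn 0 1 1
    ndF1q0 ndF3q1 pcF1 Cut.none Ext.none :=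
  certFX0 (fam := true) (s1 := false) (s2 := false) (a := 0) (b := 1) (c := 1) (cn := .pnn) (n1 := ndF1q0) (n2 := ndF3q1) (pc := pcF1) (cut := Cut.none) (xt := Ext.none) (P1 := 67108864) (W1 := 469762048) (P2 := 536870912) (W2 := 536870912) (P3 := 1046898278) (W3 := 26843546)
    rfl k0_mm_011

noncomputable def f_mm_012 : ℕ → ℕ → ℕ → ℕ → Bool := onCell 67108864 469762048 536870912 536870912 1046898278 26843546
    (rowFX 0 true false false .pnp 0 1 2 (qsf 67108864 469762048 536870912 536870912 2) ndF1q0 ndF3q1 pcF2 Cut.none Ext.none)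

def k0_mm_012 : ∃ t, chk3 f_mm_012 t 1 1 1 = true :=
  ⟨(l 4), by decide +kernel⟩

theorem c_mm_012 : CertFX 67108864 469762048 536870912 536870912 1046898278 26843546 true false false .pnp 0 1 2
    ndF1q0 ndF3q1 pcF2 Cut.none Ext.none :=
  certFX0 (fam := true) (s1 := false) (s2 := false) (a := 0) (b := 1) (c := 2) (cn := .pnp) (n1 := ndF1q0) (n2 := ndF3q1) (pc := pcF2) (cut := Cut.none) (xt := Ext.none) (P1 := 67108864) (W1 := 469762048) (P2 := 536870912) (W2 := 536870912) (P3 := 1046898278) (W3 := 26843546)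
    rfl k0_mm_012

noncomputable def f_mm_022 : ℕ → ℕ → ℕ → ℕ → Bool := onCell 67108864 469762048 1073741824 536870912 1046898278 26843546
    (rowFX 0 true false false .pp 0 2 2 (qsf 67108864 469762048 1073741824 536870912 2) ndF1q0 ndF3q2 pcF2 Cut.none Ext.none)

def k0_mm_022 : ∃ t, chk3 f_mm_022 t 1 1 1 = true :=
  ⟨(l 5), by decide +kernel⟩

theorem c_mm_022 : CertFX 67108864 469762048 1073741824 536870912 1046898278 26843546 true false false .pp 0 2 2
    ndF1q0 ndF3q2 pcF2 Cut.none Ext.none :=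
  certFX0 (fam := true) (s1 := false) (s2 := false) (a := 0) (b := 2) (c := 2) (cn := .pp) (n1 := ndF1q0) (n2 := ndF3q2) (pc := pcF2) (cut := Cut.none) (xt := Ext.none) (P1 := 67108864) (W1 := 469762048) (P2 := 1073741824) (W2 := 536870912) (P3 := 1046898278) (W3 := 26843546)
    rfl k0_mm_022

noncomputable def f_mm_023 : ℕ → ℕ → ℕ → ℕ → Bool := onCell 67108864 469762048 1073741824 536870912 1046898278 26843546
    (rowFX 0 true false false .up 0 2 3 (qsf 67108864 469762048 1073741824 536870912 3) ndF1q0 ndF3q2 pcF3 Cut.none Ext.none)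

def k0_mm_023 : ∃ t, chk3 f_mm_023 t 1 1 1 = true :=
  ⟨(l 5), by decide +kernel⟩

theorem c_mm_023 : CertFX 67108864 469762048 1073741824 536870912 1046898278 26843546 true false false .up 0 2 3
    ndF1q0 ndF3q2 pcF3 Cut.none Ext.none :=
  certFX0 (fam := true) (s1 := false) (s2 := false) (a := 0) (b := 2) (c := 3) (cn := .up) (n1 := ndF1q0) (n2 := ndF3q2) (pc := pcF3) (cut := Cut.none) (xt := Ext.none) (P1 := 67108864) (W1 := 469762048) (P2 := 1073741824) (W2 := 536870912) (P3 := 1046898278) (W3 := 26843546)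
    rfl k0_mm_023

noncomputable def f_mm_033 : ℕ → ℕ → ℕ → ℕ → Bool := onCell 67108864 469762048 1610612736 536870912 1046898278 26843546
    (rowFX 0 true false false .pnn 0 3 3 (qsf 67108864 469762048 1610612736 536870912 3) ndF1q0 ndF3q3 pcF3 Cut.none Ext.none)

def k0_mm_033 : ∃ t, chk3 f_mm_033 t 1 1 1 = true :=
  ⟨(l 4), by decide +kernel⟩

theorem c_mm_033 : CertFX 67108864 469762048 1610612736 536870912 1046898278 26843546 true false false .pnn 0 3 3
    ndF1q0 ndF3q3 pcF3 Cut.none Ext.none :=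
  certFX0 (fam := true) (s1 := false) (s2 := false) (a := 0) (b := 3) (c := 3) (cn := .pnn) (n1 := ndF1q0) (n2 := ndF3q3) (pc := pcF3) (cut := Cut.none) (xt := Ext.none) (P1 := 67108864) (W1 := 469762048) (P2 := 1610612736) (W2 := 536870912) (P3 := 1046898278) (W3 := 26843546)
    rfl k0_mm_033

noncomputable def f_mm_101 : ℕ → ℕ → ℕ → ℕ → Bool := onCell 536870912 536870912 0 536870912 1046898278 26843546
    (rowFX 0 true false false .npn 1 0 1 (qsf 536870912 536870912 0 536870912 1) ndF1q1 ndF3q0 pcF1 Cut.none Ext.none)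

def k0_mm_101 : ∃ t, chk3 f_mm_101 t 1 1 1 = true :=
  ⟨(l 4), by decide +kernel⟩

theorem c_mm_101 : CertFX 536870912 536870912 0 536870912 1046898278 26843546 true false false .npn 1 0 1
    ndF1q1 ndF3q0 pcF1 Cut.none Ext.none :=
  certFX0 (fam := true) (s1 := false) (s2 := false) (a := 1) (b := 0) (c := 1) (cn := .npn) (n1 := ndF1q1) (n2 := ndF3q0) (pc := pcF1) (cut := Cut.none) (xt := Ext.none) (P1 := 536870912) (W1 := 536870912) (P2 := 0) (W2 := 536870912) (P3 := 1046898278) (W3 := 26843546)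
    rfl k0_mm_101

noncomputable def f_mm_102 : ℕ → ℕ → ℕ → ℕ → Bool := onCell 536870912 536870912 0 536870912 1046898278 26843546
    (rowFX 0 true false false .npp 1 0 2 (qsf 536870912 536870912 0 536870912 2) ndF1q1 ndF3q0 pcF2 Cut.none Ext.none)

def k0_mm_102 : ∃ t, chk3 f_mm_102 t 1 1 1 = true :=
  ⟨(l 4), by decide +kernel⟩

theorem c_mm_102 : CertFX 536870912 536870912 0 536870912 1046898278 26843546 true false false .npp 1 0 2
    ndF1q1 ndF3q0 pcF2 Cut.none Ext.none :=
  certFX0 (fam := true) (s1 := false) (s2 := false) (a := 1) (b := 0) (c := 2) (cn := .npp) (n1 := ndF1q1) (n2 := ndF3q0) (pc := pcF2) (cut := Cut.none) (xt := Ext.none) (P1 := 536870912) (W1 := 536870912) (P2 := 0) (W2 := 536870912) (P3 := 1046898278) (W3 := 26843546)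
    rfl k0_mm_102

noncomputable def f_mm_112 : ℕ → ℕ → ℕ → ℕ → Bool := onCell 536870912 536870912 536870912 536870912 1046898278 26843546
    (rowFX 0 true false false .dn 1 1 2 (qsf 536870912 536870912 536870912 536870912 2) ndF1q1 ndF3q1 pcF2 Cut.none Ext.none)

def k0_mm_112 : ∃ t, chk3 f_mm_112 t 1 1 1 = true :=
  ⟨(l 4), by decide +kernel⟩

theorem c_mm_112 : CertFX 536870912 536870912 536870912 536870912 1046898278 26843546 true false false .dn 1 1 2
    ndF1q1 ndF3q1 pcF2 Cut.none Ext.none :=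
  certFX0 (fam := true) (s1 := false) (s2 := false) (a := 1) (b := 1) (c := 2) (cn := .dn) (n1 := ndF1q1) (n2 := ndF3q1) (pc := pcF2) (cut := Cut.none) (xt := Ext.none) (P1 := 536870912) (W1 := 536870912) (P2 := 536870912) (W2 := 536870912) (P3 := 1046898278) (W3 := 26843546)
    rfl k0_mm_112

noncomputable def f_mm_113 : ℕ → ℕ → ℕ → ℕ → Bool := onCell 536870912 536870912 536870912 536870912 1046898278 26843546
    (rowFX 0 true false false .nn 1 1 3 (qsf 536870912 536870912 536870912 536870912 3) ndF1q1 ndF3q1 pcF3 Cut.none Ext.none)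

def k0_mm_113 : ∃ t, chk3 f_mm_113 t 1 1 1 = true :=
  ⟨(l 4), by decide +kernel⟩

theorem c_mm_113 : CertFX 536870912 536870912 536870912 536870912 1046898278 26843546 true false false .nn 1 1 3
    ndF1q1 ndF3q1 pcF3 Cut.none Ext.none :=
  certFX0 (fam := true) (s1 := false) (s2 := false) (a := 1) (b := 1) (c := 3) (cn := .nn) (n1 := ndF1q1) (n2 := ndF3q1) (pc := pcF3) (cut := Cut.none) (xt := Ext.none) (P1 := 536870912) (W1 := 536870912) (P2 := 536870912) (W2 := 536870912) (P3 := 1046898278) (W3 := 26843546)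
    rfl k0_mm_113

noncomputable def f_mm_123 : ℕ → ℕ → ℕ → ℕ → Bool := onCell 536870912 536870912 1073741824 536870912 1046898278 26843546
    (rowFX 0 true false false .npn 1 2 3 (qsf 536870912 536870912 1073741824 536870912 3) ndF1q1 ndF3q2 pcF3 Cut.none Ext.none)

def k0_mm_123 : ∃ t, chk3 f_mm_123 t 1 1 1 = true :=
  ⟨(l 4), by decide +kernel⟩

theorem c_mm_123 : CertFX 536870912 536870912 1073741824 536870912 1046898278 26843546 true false false .npn 1 2 3
    ndF1q1 ndF3q2 pcF3 Cut.none Ext.none :=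
  certFX0 (fam := true) (s1 := false) (s2 := false) (a := 1) (b := 2) (c := 3) (cn := .npn) (n1 := ndF1q1) (n2 := ndF3q2) (pc := pcF3) (cut := Cut.none) (xt := Ext.none) (P1 := 536870912) (W1 := 536870912) (P2 := 1073741824) (W2 := 536870912) (P3 := 1046898278) (W3 := 26843546)
    rfl k0_mm_123

noncomputable def f_mm_133 : ℕ → ℕ → ℕ → ℕ → Bool := onCell 536870912 536870912 1610612736 536870912 1046898278 26843546
    (rowFX 0 true false false .dn 1 3 3 (qsf 536870912 536870912 1610612736 536870912 3) ndF1q1 ndF3q3 pcF3 Cut.none Ext.none)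

def k0_mm_133 : ∃ t, chk3 f_mm_133 t 1 1 1 = true :=
  ⟨(l 4), by decide +kernel⟩

theorem c_mm_133 : CertFX 536870912 536870912 1610612736 536870912 1046898278 26843546 true false false .dn 1 3 3
    ndF1q1 ndF3q3 pcF3 Cut.none Ext.none :=
  certFX0 (fam := true) (s1 := false) (s2 := false) (a := 1) (b := 3) (c := 3) (cn := .dn) (n1 := ndF1q1) (n2 := ndF3q3) (pc := pcF3) (cut := Cut.none) (xt := Ext.none) (P1 := 536870912) (W1 := 536870912) (P2 := 1610612736) (W2 := 536870912) (P3 := 1046898278) (W3 := 26843546)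
    rfl k0_mm_133

noncomputable def f_mm_202_a : ℕ → ℕ → ℕ → ℕ → Bool := onCell 0 420477299 0 536870912 1046898278 26843546
    (rowFX 0 true false false .pp 2 0 2 (qsf 0 420477299 0 536870912 2) ndF1q2a ndF3q0 pcF2 Cut.none Ext.none)

def k0_mm_202_a : ∃ t, chk3 f_mm_202_a t 2 4 1 = true :=
  ⟨(b (a (b (b (c (a (l 15969040) (l 16039256)) (a (l 15984376) (l 16056640))) (c (a (l 15898120) (l 15979552)) (l 15940152))) (c (b (a (l 15894584) (l 15988912)) (a (l 15920088) (l 16027008))) (b (l 15945544) (l 15961848)))) (b (b (a (c (l 16109240) (l 16087864)) (b (a (c (l 16283640) (l 16191888)) (c (b (l 16350024) (l 16312928)) (b (l 16351520) (l 16292184)))) (c (l 16265064) (l 16299784)))) (c (a (l 16096384) (l 16244920)) (a (l 16119672) (l 16272424)))) (a (c (b (l 16112456) (l 16158848)) (l 16045264)) (c (b (l 16259552) (l 16309696)) (b (l 16269488) (l 16305152)))))) (b (a (b (a (c (l 15986168) (l 15988136)) (b (c (l 16075544) (l 16058976)) (l 16128800))) (c (l 16205568) (l 16192584)))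 (b (a (b (l 16205352) (c (l 16254072) (l 16243152))) (c (l 16340648) (l 16353952))) (a (l 16345536) (a (b (l 16389704) (l 16472224)) (b (l 16425824) (l 16544120)))))) (a (c (l 16365960) (l 16356824)) (a (c (l 16394896) (l 16389248)) (b (c (l 16565104) (l 16562408)) (l 4)))))), by decide +kernel⟩

def k1_mm_202_a : ∃ t, chk3 f_mm_202_a t 6 8 1 = true :=
  ⟨(b (a (a (b (b (c (l 16376480) (l 16349856)) (c (b (l 16297904) (l 16363216)) (b (l 16423008) (l 16425168)))) (c (l 16374336) (l 16405416))) (b (b (c (l 16410992) (l 16385032)) (c (b (l 16424976) (l 16449856)) (l 16352752))) (b (c (b (l 16468624) (l 16473808)) (l 16444608)) (l 16425504)))) (b (c (b (a (l 16460392) (l 16526120)) (a (l 16489136) (l 16491960))) (b (a (l 16417128) (b (l 16529296) (l 16551584))) (l 16441072))) (a (b (c (a (l 16506528) (l 16551352)) (l 16445784)) (c (a (l 16542616) (l 16541152)) (l 16449864))) (c (b (l 16524056) (a (l 16513168) (l 16488936))) (b (l 16490792) (l 16403184)))))) (a (c (b (l 16430520) (l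 16474704)) (b (l 16445264) (l 16474904))) (b (a (l 16473480) (b (a (l 16508224) (c (l 16480856) (l 16398016))) (l 16506168))) (c (a (l 16596296) (l 16524400)) (l 16428568))))), by decide +kernel⟩

def k2_mm_202_a : ∃ t, chk3 f_mm_202_a t 7 16 1 = true :=
  ⟨(a (b (c (a (b (a (l 16505360) (l 16554048)) (c (l 16535600) (l 16516248))) (b (c (a (l 16579680) (l 16566320)) (l 16567088)) (c (l 16563992) (l 16544288)))) (a (b (c (b (l 16554968) (l 16534256)) (b (l 16547000) (l 16516880))) (l 16489000)) (b (c (l 16521240) (l 16508848)) (l 16516584)))) (c (a (b (l 16486216) (l 16460960)) (b (l 16479928) (l 16470600))) (a (l 16439840) (l 16409776)))) (b (c (a (b (c (a (b (c (l 16569880) (l 16571416)) (l 16589952)) (b (a (c (b (l 16593400) (l 16594616)) (l 16527528)) (c (l 16602024) (l 16572680))) (c (a (l 16600152) (l 16603056)) (l 16580104)))) (a (l 16558472) (b (a (l 16567184) (l 16566896)) (l 16580816)))) (c (b (l 16540592) (l 16602768)) (l 16575384))) (a (b (c (b (c (l 16615760) (l 16565936))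 (c (l 16571872) (a (l 16559544) (l 16585440)))) (b (l 16567400) (l 16557216))) (c (b (a (c (l 16611048) (l 16592528)) (c (l 16616504) (l 16593008))) (l 16630488)) (b (l 16545968) (l 16619408)))) (b (c (b (c (l 16630904) (l 16577488)) (l 16552520)) (c (l 16554328) (l 16572144))) (c (b (l 16556584) (a (l 16558688) (l 16625312))) (b (l 16606424) (l 16627984)))))) (b (a (a (c (l 16525864) (l 16498696)) (b (c (a (l 16546048) (l 16566648)) (b (l 16544816) (l 16560640))) (c (l 16553912) (l 16616608)))) (b (c (l 16566312) (b (l 16544448) (l 16559416))) (a (c (l 16530112) (l 16613576)) (c (l 16570872) (l 16612200))))) (a (l 16526664) (a (c (l 16551616) (l 16600560)) (b (l 16601280) (c (l 16625712) (l 16613608))))))) (c (a (b (l 16519584) (l 16492440)) (b (c (a (l 16588416) (b (l 16598584) (l 16596640))) (l 16581352)) (c (l 16503464) (l 16524200)))) (a (b (l 16502488) (l 16460504)) (b (a (l 16543008) (l 16572456)) (l 16506520)))))), by decide +kernel⟩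

def k3_mm_202_a : ∃ t, chk3 f_mm_202_a t 7 17 1 = true :=
  ⟨(a (b (a (a (b (c (l 16406056) (l 16426696)) (c (l 16453472) (l 16440376))) (b (l 16409584) (c (b (l 16438192) (l 16441576)) (b (l 16423384) (l 16429696))))) (a (c (a (l 16444808) (l 16448080)) (l 16342288)) (c (l 16453584) (l 16432928)))) (a (c (l 16440528) (l 16453536)) (a (b (b (c (l 16450000) (l 16440344)) (l 4)) (l 4)) (l 4)))) (b (b (a (c (l 16466248) (l 16443248)) (c (l 16442304) (l 16461216))) (a (c (l 16466592) (l 16452136)) (l 4))) (l 4))), by decide +kernel⟩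

def k4_mm_202_a : ∃ t, chk3 f_mm_202_a t 3 9 1 = true :=
  ⟨(a (b (a (b (c (l 16483688) (l 16480856)) (a (b (l 16570032) (c (l 16609976) (l 16609120))) (c (l 16620456) (l 16619920)))) (b (c (a (l 16580104) (l 16523576)) (a (l 16579320) (l 16520728))) (l 4))) (l 4)) (l 4)), by decide +kernel⟩

def k5_mm_202_a : ∃ t, chk3 f_mm_202_a t 1 5 1 = true :=
  ⟨(a (b (b (a (c (b (l 16435768) (l 16460176)) (b (l 16427928) (l 16452544))) (b (a (l 16486472) (l 4)) (l 4))) (a (a (c (l 16382232) (l 16353808)) (l 4)) (l 4))) (l 4)) (l 4)), by decide +kernel⟩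

def k6_mm_202_a : ∃ t, chk3 f_mm_202_a t 1 3 1 = true :=
  ⟨(l 4), by decide +kernel⟩

theorem s7_mm_202_a : ∃ t, chk3 f_mm_202_a t 7 8 1 = true := ex3_b k2_mm_202_a k3_mm_202_a

theorem s8_mm_202_a : ∃ t, chk3 f_mm_202_a t 3 8 1 = true := ex3_a k1_mm_202_a s7_mm_202_a

theorem s9_mm_202_a : ∃ t, chk3 f_mm_202_a t 3 4 1 = true := ex3_b s8_mm_202_a k4_mm_202_a

theorem s10_mm_202_a : ∃ t, chk3 f_mm_202_a t 1 4 1 = true := ex3_a k0_mm_202_a s9_mm_202_a

theorem s11_mm_202_a : ∃ t, chk3 f_mm_202_a t 1 2 1 = true := ex3_b s10_mm_202_a k5_mm_202_a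

theorem s12_mm_202_a : ∃ t, chk3 f_mm_202_a t 1 1 1 = true := ex3_b s11_mm_202_a k6_mm_202_a

theorem c_mm_202_a : CertFX 0 420477299 0 536870912 1046898278 26843546 true false false .pp 2 0 2
    ndF1q2a ndF3q0 pcF2 Cut.none Ext.none :=
  certFX0 (fam := true) (s1 := false) (s2 := false) (a := 2) (b := 0) (c := 2) (cn := .pp) (n1 := ndF1q2a) (n2 := ndF3q0) (pc := pcF2) (cut := Cut.none) (xt := Ext.none) (P1 := 0) (W1 := 420477299) (P2 := 0) (W2 := 536870912) (P3 := 1046898278) (W3 := 26843546)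
    rfl s12_mm_202_a

noncomputable def f_mm_202_b : ℕ → ℕ → ℕ → ℕ → Bool := onCell 1073741824 536870912 0 536870912 1046898278 26843546
    (rowFX 2 true false false .pp 2 0 2 (qsf 1239849684 370763052 0 536870912 2) ndF1q2b ndF3q0 pcF2 Cut.none Ext.none)

def k0_mm_202_b : ∃ t, chk3 f_mm_202_b t 2 1 1 = true :=
  ⟨(a (l 1) (b (b (a (b (a (b (a (l 1) (b (b (l 380136488871) (l 1)) (l 1))) (l 1)) (b (c (b (a (l 15793328) (l 15638976)) (l 283499165447)) (b (a (l 15828176) (l 15644648)) (l 15765512))) (a (l 1) (c (l 362419730375) (l 361345990423))))) (l 1)) (b (a (b (c (b (a (l 15380136) (l 15140952)) (l 15436144)) (b (l 15147320) (l 15483016))) (c (b (l 15554912) (l 294236674999)) (b (l 15716712) (l 15944144)))) (b (c (b (l 14994008) (l 15216896)) (b (l 14979752) (l 15213848))) (c (b (l 15464304) (l 15703592)) (l 15565432)))) (a (b (b (c (l 371009666295) (l 16044912)) (l 1)) (l 1)) (b (c (l 15600835927) (l 15980848)) (a (l 1) (l 439192780295)))))) (l 1)) (l 1))), by decide +kernel⟩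

def k1_mm_202_b : ∃ t, chk3 f_mm_202_b t 3 1 1 = true :=
  ⟨(b (a (b (b (a (b (c (a (l 15050072) (l 14979368)) (a (l 15039392) (l 14966352))) (c (a (l 15496792) (l 15398408)) (a (l 15477744) (l 15376280)))) (b (c (a (l 14908984) (l 14900208)) (l 14826192)) (c (a (l 15305600) (l 15294328)) (l 15274704)))) (a (b (c (a (l 15930280) (l 15806912)) (a (l 15908576) (l 15781496))) (a (c (l 16299064) (l 16287880)) (c (l 16153000) (l 16137528)))) (c (a (b (l 15693808) (l 16021392)) (l 15762896)) (a (b (l 15664736) (l 16001856)) (l 15801104))))) (a (b (a (b (a (l 1) (l 16426792)) (l 1)) (b (c (l 16408120) (l 16399176)) (c (l 16643248) (l 16629888)))) (l 1)) (b (a (c (a (l 16325312) (l 16351912)) (a (l 16315336) (l 16340864))) (c (l 16351912) (l 16340864))) (l 4)))) (b (b (a (c (b (l 14900208) (l 15294328)) (b (l 14884312) (l 15268632))) (c (b (l 14900208) (l 15294328)) (l 14864824))) (a (c (a (l 15804840) (l 15825816)) (b (l 15650744) (l 15985752))) (c (l 15595128) (l 15801104)))) (a (b (a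 (c (l 16351912) (l 16340864)) (l 4)) (l 4)) (l 4)))) (a (l 1) (l 4))), by decide +kernel⟩

theorem s2_mm_202_b : ∃ t, chk3 f_mm_202_b t 1 1 1 = true := ex3_a k0_mm_202_b k1_mm_202_b

theorem c_mm_202_b : CertFX 1239849684 370763052 0 536870912 1046898278 26843546 true false false .pp 2 0 2
    ndF1q2b ndF3q0 pcF2 Cut.none Ext.none :=
  certFX2 (fam := true) (s1 := false) (s2 := false) (a := 2) (b := 0) (c := 2) (cn := .pp) (n1 := ndF1q2b) (n2 := ndF3q0) (pc := pcF2) (cut := Cut.none) (xt := Ext.none) (P1 := 1239849684) (W1 := 370763052) (P2 := 0) (W2 := 536870912) (P3 := 1046898278) (W3 := 26843546)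
    rfl (fun _ => rfl) s2_mm_202_b

noncomputable def f_mm_203_a : ℕ → ℕ → ℕ → ℕ → Bool := onCell 0 420477299 1610612736 536870912 1046898278 26843546
    (rowFX 1 true false false .up 2 0 3 (qsf 0 420477299 0 536870912 3) ndF1q2a ndF3q0 pcF3 Cut.none Ext.none)

def k0_mm_203_a : ∃ t, chk3 f_mm_203_a t 1 1 1 = true :=
  ⟨(l 4), by decide +kernel⟩

theorem c_mm_203_a : CertFX 0 420477299 0 536870912 1046898278 26843546 true false false .up 2 0 3
    ndF1q2a ndF3q0 pcF3 Cut.none Ext.none :=
  certFX1 (fam := true) (s1 := false) (s2 := false) (a := 2) (b := 0) (c := 3) (cn := .up) (n1 := ndF1q2a) (n2 := ndF3q0) (pc := pcF3) (cut := Cut.none) (xt := Ext.none) (P1 := 0) (W1 := 420477299) (P2 := 0) (W2 := 536870912) (P3 := 1046898278) (W3 := 26843546)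
    rfl (fun _ => rfl) k0_mm_203_a

noncomputable def f_mm_203_b : ℕ → ℕ → ℕ → ℕ → Bool := onCell 1239849684 370763052 1610612736 536870912 1046898278 26843546
    (rowFX 1 true false false .up 2 0 3 (qsf 1239849684 370763052 0 536870912 3) ndF1q2b ndF3q0 pcF3 Cut.none Ext.none)

def k0_mm_203_b : ∃ t, chk3 f_mm_203_b t 1 1 1 = true :=
  ⟨(b (b (a (l 4) (b (a (l 4) (b (a (c (l 15684560) (l 15660624)) (c (l 15179024) (l 15148232))) (l 4))) (l 4))) (l 4)) (l 4)), by decide +kernel⟩

theorem c_mm_203_b : CertFX 1239849684 370763052 0 536870912 1046898278 26843546 true false false .up 2 0 3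
    ndF1q2b ndF3q0 pcF3 Cut.none Ext.none :=
  certFX1 (fam := true) (s1 := false) (s2 := false) (a := 2) (b := 0) (c := 3) (cn := .up) (n1 := ndF1q2b) (n2 := ndF3q0) (pc := pcF3) (cut := Cut.none) (xt := Ext.none) (P1 := 1239849684) (W1 := 370763052) (P2 := 0) (W2 := 536870912) (P3 := 1046898278) (W3 := 26843546)
    rfl (fun _ => rfl) k0_mm_203_b

noncomputable def f_mm_213_a : ℕ → ℕ → ℕ → ℕ → Bool := onCell 0 420477299 536870912 536870912 1046898278 26843546
    (rowFX 0 true false false .pnn 2 1 3 (qsf 0 420477299 536870912 536870912 3) ndF1q2a ndF3q1 pcF3 Cut.none Ext.none)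

def k0_mm_213_a : ∃ t, chk3 f_mm_213_a t 1 1 1 = true :=
  ⟨(l 4), by decide +kernel⟩

theorem c_mm_213_a : CertFX 0 420477299 536870912 536870912 1046898278 26843546 true false false .pnn 2 1 3
    ndF1q2a ndF3q1 pcF3 Cut.none Ext.none :=
  certFX0 (fam := true) (s1 := false) (s2 := false) (a := 2) (b := 1) (c := 3) (cn := .pnn) (n1 := ndF1q2a) (n2 := ndF3q1) (pc := pcF3) (cut := Cut.none) (xt := Ext.none) (P1 := 0) (W1 := 420477299) (P2 := 536870912) (W2 := 536870912) (P3 := 1046898278) (W3 := 26843546)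
    rfl k0_mm_213_a

noncomputable def f_mm_213_b : ℕ → ℕ → ℕ → ℕ → Bool := onCell 1239849684 370763052 536870912 536870912 1046898278 26843546
    (rowFX 0 true false false .pnn 2 1 3 (qsf 1239849684 370763052 536870912 536870912 3) ndF1q2b ndF3q1 pcF3 Cut.none Ext.none)

def k0_mm_213_b : ∃ t, chk3 f_mm_213_b t 1 1 1 = true :=
  ⟨(l 4), by decide +kernel⟩

theorem c_mm_213_b : CertFX 1239849684 370763052 536870912 536870912 1046898278 26843546 true false false .pnn 2 1 3
    ndF1q2b ndF3q1 pcF3 Cut.none Ext.none :=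
  certFX0 (fam := true) (s1 := false) (s2 := false) (a := 2) (b := 1) (c := 3) (cn := .pnn) (n1 := ndF1q2b) (n2 := ndF3q1) (pc := pcF3) (cut := Cut.none) (xt := Ext.none) (P1 := 1239849684) (W1 := 370763052) (P2 := 536870912) (W2 := 536870912) (P3 := 1046898278) (W3 := 26843546)
    rfl k0_mm_213_b

noncomputable def f_mm_303 : ℕ → ℕ → ℕ → ℕ → Bool := onCell 1610612736 536870912 0 536870912 1046898278 26843546
    (rowFX 2 true false false .npn 3 0 3 (qsf 1610612736 469762048 0 536870912 3) ndF1q3 ndF3q0 pcF3 Cut.none Ext.none)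

def k0_mm_303 : ∃ t, chk3 f_mm_303 t 1 1 1 = true :=
  ⟨(a (b (b (b (a (a (c (b (l 14900208) (l 15294328)) (b (l 14884312) (l 15268632))) (a (b (l 52843963415) (l 4)) (l 4))) (l 4)) (l 4)) (l 4)) (l 4)) (l 4)), by decide +kernel⟩

theorem c_mm_303 : CertFX 1610612736 469762048 0 536870912 1046898278 26843546 true false false .npn 3 0 3
    ndF1q3 ndF3q0 pcF3 Cut.none Ext.none :=
  certFX2 (fam := true) (s1 := false) (s2 := false) (a := 3) (b := 0) (c := 3) (cn := .npn) (n1 := ndF1q3) (n2 := ndF3q0) (pc := pcF3) (cut := Cut.none) (xt := Ext.none) (P1 := 1610612736) (W1 := 469762048) (P2 := 0) (W2 := 536870912) (P3 := 1046898278) (W3 := 26843546)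
    rfl (fun _ => rfl) k0_mm_303

noncomputable def f_mm_313 : ℕ → ℕ → ℕ → ℕ → Bool := onCell 1610612736 469762048 536870912 536870912 1046898278 26843546
    (rowFX 0 true false false .dn 3 1 3 (qsf 1610612736 469762048 536870912 536870912 3) ndF1q3 ndF3q1 pcF3 Cut.none Ext.none)

def k0_mm_313 : ∃ t, chk3 f_mm_313 t 1 1 1 = true :=
  ⟨(l 4), by decide +kernel⟩

theorem c_mm_313 : CertFX 1610612736 469762048 536870912 536870912 1046898278 26843546 true false false .dn 3 1 3
    ndF1q3 ndF3q1 pcF3 Cut.none Ext.none :=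
  certFX0 (fam := true) (s1 := false) (s2 := false) (a := 3) (b := 1) (c := 3) (cn := .dn) (n1 := ndF1q3) (n2 := ndF3q1) (pc := pcF3) (cut := Cut.none) (xt := Ext.none) (P1 := 1610612736) (W1 := 469762048) (P2 := 536870912) (W2 := 536870912) (P3 := 1046898278) (W3 := 26843546)
    rfl k0_mm_313

end Pool.Agent.Strip051.G.IE1.Tab.C.FA13

namespace Pool.Agent.Strip051.G.IE1.Tab.C.FA14

open Pool.Agent.Strip051.PB Pool.Agent.Strip051.PB.T
open Pool.Agent.Strip051.G.IE1.Tab

noncomputable def f_pp_001 : ℕ → ℕ → ℕ → ℕ → Bool := onCell 67108864 469762048 0 67108864 1046898278 26843546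
    (rowFX 0 true true true .up 0 0 1 (qsf 67108864 469762048 0 67108864 1) ndF1q0 ndF4q0 pcF1 Cut.none Ext.none)

def k0_pp_001 : ∃ t, chk3 f_pp_001 t 1 1 1 = true :=
  ⟨(l 4), by decide +kernel⟩

theorem c_pp_001 : CertFX 67108864 469762048 0 67108864 1046898278 26843546 true true true .up 0 0 1
    ndF1q0 ndF4q0 pcF1 Cut.none Ext.none :=
  certFX0 (fam := true) (s1 := true) (s2 := true) (a := 0) (b := 0) (c := 1) (cn := .up) (n1 := ndF1q0) (n2 := ndF4q0) (pc := pcF1) (cut := Cut.none) (xt := Ext.none) (P1 := 67108864) (W1 := 469762048) (P2 := 0) (W2 := 67108864) (P3 := 1046898278) (W3 := 26843546)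
    rfl k0_pp_001

noncomputable def f_pp_101 : ℕ → ℕ → ℕ → ℕ → Bool := onCell 536870912 536870912 0 67108864 1046898278 26843546
    (rowFX 0 true true true .npn 1 0 1 (qsf 536870912 536870912 0 67108864 1) ndF1q1 ndF4q0 pcF1 Cut.none Ext.none)

def k0_pp_101 : ∃ t, chk3 f_pp_101 t 1 1 1 = true :=
  ⟨(l 4), by decide +kernel⟩

theorem c_pp_101 : CertFX 536870912 536870912 0 67108864 1046898278 26843546 true true true .npn 1 0 1
    ndF1q1 ndF4q0 pcF1 Cut.none Ext.none :=
  certFX0 (fam := true) (s1 := true) (s2 := true) (a := 1) (b := 0) (c := 1) (cn := .npn) (n1 := ndF1q1) (n2 := ndF4q0) (pc := pcF1) (cut := Cut.none) (xt := Ext.none) (P1 := 536870912) (W1 := 536870912) (P2 := 0) (W2 := 67108864) (P3 := 1046898278) (W3 := 26843546)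
    rfl k0_pp_101

noncomputable def f_pp_102 : ℕ → ℕ → ℕ → ℕ → Bool := onCell 536870912 536870912 0 67108864 1046898278 26843546
    (rowFX 0 true true true .npp 1 0 2 (qsf 536870912 536870912 0 67108864 2) ndF1q1 ndF4q0 pcF2 Cut.none Ext.none)

def k0_pp_102 : ∃ t, chk3 f_pp_102 t 1 1 1 = true :=
  ⟨(l 4), by decide +kernel⟩

theorem c_pp_102 : CertFX 536870912 536870912 0 67108864 1046898278 26843546 true true true .npp 1 0 2
    ndF1q1 ndF4q0 pcF2 Cut.none Ext.none :=
  certFX0 (fam := true) (s1 := true) (s2 := true) (a := 1) (b := 0) (c := 2) (cn := .npp) (n1 := ndF1q1) (n2 := ndF4q0) (pc := pcF2) (cut := Cut.none) (xt := Ext.none) (P1 := 536870912) (W1 := 536870912) (P2 := 0) (W2 := 67108864) (P3 := 1046898278) (W3 := 26843546)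
    rfl k0_pp_102

noncomputable def f_pp_202_a : ℕ → ℕ → ℕ → ℕ → Bool := onCell 0 420477299 0 67108864 1046898278 26843546
    (rowFX 0 true true true .pp 2 0 2 (qsf 0 420477299 0 67108864 2) ndF1q2a ndF4q0 pcF2 Cut.none Ext.none)

def k0_pp_202_a : ∃ t, chk3 f_pp_202_a t 1 1 1 = true :=
  ⟨(l 5), by decide +kernel⟩

theorem c_pp_202_a : CertFX 0 420477299 0 67108864 1046898278 26843546 true true true .pp 2 0 2
    ndF1q2a ndF4q0 pcF2 Cut.none Ext.none :=
  certFX0 (fam := true) (s1 := true) (s2 := true) (a := 2) (b := 0) (c := 2) (cn := .pp) (n1 := ndF1q2a) (n2 := ndF4q0) (pc := pcF2) (cut := Cut.none) (xt := Ext.none) (P1 := 0) (W1 := 420477299) (P2 := 0) (W2 := 67108864) (P3 := 1046898278) (W3 := 26843546)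
    rfl k0_pp_202_a

noncomputable def f_pp_202_b : ℕ → ℕ → ℕ → ℕ → Bool := onCell 1239849684 370763052 0 67108864 1046898278 26843546
    (rowFX 0 true true true .pp 2 0 2 (qsf 1239849684 370763052 0 67108864 2) ndF1q2b ndF4q0 pcF2 Cut.none Ext.none)

def k0_pp_202_b : ∃ t, chk3 f_pp_202_b t 1 1 1 = true :=
  ⟨(l 5), by decide +kernel⟩

theorem c_pp_202_b : CertFX 1239849684 370763052 0 67108864 1046898278 26843546 true true true .pp 2 0 2
    ndF1q2b ndF4q0 pcF2 Cut.none Ext.none :=
  certFX0 (fam := true) (s1 := true) (s2 := true) (a := 2) (b := 0) (c := 2) (cn := .pp) (n1 := ndF1q2b) (n2 := ndF4q0) (pc := pcF2) (cut := Cut.none) (xt := Ext.none) (P1 := 1239849684) (W1 := 370763052) (P2 := 0) (W2 := 67108864) (P3 := 1046898278) (W3 := 26843546)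
    rfl k0_pp_202_b

noncomputable def f_pp_203_a : ℕ → ℕ → ℕ → ℕ → Bool := onCell 0 420477299 0 67108864 1046898278 26843546
    (rowFX 0 true true true .up 2 0 3 (qsf 0 420477299 0 67108864 3) ndF1q2a ndF4q0 pcF3 Cut.none Ext.none)

def k0_pp_203_a : ∃ t, chk3 f_pp_203_a t 1 1 1 = true :=
  ⟨(l 1), by decide +kernel⟩

theorem c_pp_203_a : CertFX 0 420477299 0 67108864 1046898278 26843546 true true true .up 2 0 3
    ndF1q2a ndF4q0 pcF3 Cut.none Ext.none :=
  certFX0 (fam := true) (s1 := true) (s2 := true) (a := 2) (b := 0) (c := 3) (cn := .up) (n1 := ndF1q2a) (n2 := ndF4q0) (pc := pcF3) (cut := Cut.none) (xt := Ext.none) (P1 := 0) (W1 := 420477299) (P2 := 0) (W2 := 67108864) (P3 := 1046898278) (W3 := 26843546)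
    rfl k0_pp_203_a

noncomputable def f_pp_203_b : ℕ → ℕ → ℕ → ℕ → Bool := onCell 1239849684 370763052 0 67108864 1046898278 26843546
    (rowFX 0 true true true .up 2 0 3 (qsf 1239849684 370763052 0 67108864 3) ndF1q2b ndF4q0 pcF3 Cut.none Ext.none)

def k0_pp_203_b : ∃ t, chk3 f_pp_203_b t 1 1 1 = true :=
  ⟨(l 5), by decide +kernel⟩

theorem c_pp_203_b : CertFX 1239849684 370763052 0 67108864 1046898278 26843546 true true true .up 2 0 3
    ndF1q2b ndF4q0 pcF3 Cut.none Ext.none :=
  certFX0 (fam := true) (s1 := true) (s2 := true) (a := 2) (b := 0) (c := 3) (cn := .up) (n1 := ndF1q2b) (n2 := ndF4q0) (pc := pcF3) (cut := Cut.none) (xt := Ext.none) (P1 := 1239849684) (W1 := 370763052) (P2 := 0) (W2 := 67108864) (P3 := 1046898278) (W3 := 26843546)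
    rfl k0_pp_203_b

noncomputable def f_pp_303 : ℕ → ℕ → ℕ → ℕ → Bool := onCell 1610612736 469762048 0 67108864 1046898278 26843546
    (rowFX 0 true true true .npn 3 0 3 (qsf 1610612736 469762048 0 67108864 3) ndF1q3 ndF4q0 pcF3 Cut.none Ext.none)

def k0_pp_303 : ∃ t, chk3 f_pp_303 t 1 1 1 = true :=
  ⟨(l 5), by decide +kernel⟩

theorem c_pp_303 : CertFX 1610612736 469762048 0 67108864 1046898278 26843546 true true true .npn 3 0 3
    ndF1q3 ndF4q0 pcF3 Cut.none Ext.none :=
  certFX0 (fam := true) (s1 := true) (s2 := true) (a := 3) (b := 0) (c := 3) (cn := .npn) (n1 := ndF1q3) (n2 := ndF4q0) (pc := pcF3) (cut := Cut.none) (xt := Ext.none) (P1 := 1610612736) (W1 := 469762048) (P2 := 0) (W2 := 67108864) (P3 := 1046898278) (W3 := 26843546)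
    rfl k0_pp_303

noncomputable def f_pm_001 : ℕ → ℕ → ℕ → ℕ → Bool := onCell 67108864 469762048 0 67108864 1046898278 26843546
    (rowFX 0 true true false .up 0 0 1 (qsf 67108864 469762048 0 67108864 1) ndF1q0 ndF4q0 pcF1 Cut.none Ext.none)

def k0_pm_001 : ∃ t, chk3 f_pm_001 t 1 1 1 = true :=
  ⟨(l 3), by decide +kernel⟩

theorem c_pm_001 : CertFX 67108864 469762048 0 67108864 1046898278 26843546 true true false .up 0 0 1
    ndF1q0 ndF4q0 pcF1 Cut.none Ext.none :=
  certFX0 (fam := true) (s1 := true) (s2 := false) (a := 0) (b := 0) (c := 1) (cn := .up) (n1 := ndF1q0) (n2 := ndF4q0) (pc := pcF1) (cut := Cut.none) (xt := Ext.none) (P1 := 67108864) (W1 := 469762048) (P2 := 0) (W2 := 67108864) (P3 := 1046898278) (W3 := 26843546)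
    rfl k0_pm_001

noncomputable def f_pm_101 : ℕ → ℕ → ℕ → ℕ → Bool := onCell 536870912 536870912 0 67108864 1046898278 26843546
    (rowFX 2 true true false .npn 1 0 1 (qsf 536870912 536870912 0 67108864 1) ndF1q1 ndF4q0 pcF1 Cut.none Ext.none)

def k0_pm_101 : ∃ t, chk3 f_pm_101 t 1 1 1 = true :=
  ⟨(l 3), by decide +kernel⟩

theorem c_pm_101 : CertFX 536870912 536870912 0 67108864 1046898278 26843546 true true false .npn 1 0 1
    ndF1q1 ndF4q0 pcF1 Cut.none Ext.none :=
  certFX2 (fam := true) (s1 := true) (s2 := false) (a := 1) (b := 0) (c := 1) (cn := .npn) (n1 := ndF1q1) (n2 := ndF4q0) (pc := pcF1) (cut := Cut.none) (xt := Ext.none) (P1 := 536870912) (W1 := 536870912) (P2 := 0) (W2 := 67108864) (P3 := 1046898278) (W3 := 26843546)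
    rfl (fun _ => rfl) k0_pm_101

noncomputable def f_pm_102 : ℕ → ℕ → ℕ → ℕ → Bool := onCell 536870912 536870912 0 67108864 1046898278 26843546
    (rowFX 0 true true false .npp 1 0 2 (qsf 536870912 536870912 0 67108864 2) ndF1q1 ndF4q0 pcF2 Cut.none Ext.none)

def k0_pm_102 : ∃ t, chk3 f_pm_102 t 1 1 1 = true :=
  ⟨(a (l 1) (a (l 1) (a (l 3) (b (l 3) (a (l 3) (a (l 3) (b (l 3) (c (b (a (l 3) (c (a (l 3) (l 517174117959)) (l 3))) (a (c (b (l 3) (l 593946727607)) (l 3)) (c (b (a (l 16705768) (l 16677104)) (a (l 16707160) (l 16640728))) (a (l 601462910567) (l 260549887303))))) (a (l 3) (a (l 3) (b (l 3) (c (l 285245800487) (l 424295328007))))))))))))), by decide +kernel⟩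

theorem c_pm_102 : CertFX 536870912 536870912 0 67108864 1046898278 26843546 true true false .npp 1 0 2
    ndF1q1 ndF4q0 pcF2 Cut.none Ext.none :=
  certFX0 (fam := true) (s1 := true) (s2 := false) (a := 1) (b := 0) (c := 2) (cn := .npp) (n1 := ndF1q1) (n2 := ndF4q0) (pc := pcF2) (cut := Cut.none) (xt := Ext.none) (P1 := 536870912) (W1 := 536870912) (P2 := 0) (W2 := 67108864) (P3 := 1046898278) (W3 := 26843546)
    rfl k0_pm_102

noncomputable def f_pm_202_a : ℕ → ℕ → ℕ → ℕ → Bool := onCell 0 420477299 0 67108864 1046898278 26843546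
    (rowFX 0 true true false .pp 2 0 2 (qsf 0 420477299 0 67108864 2) ndF1q2a ndF4q0 pcF2 Cut.none Ext.none)

def k0_pm_202_a : ∃ t, chk3 f_pm_202_a t 4 1 1 = true :=
  ⟨(b (b (c (b (a (l 16041184) (l 16095384)) (c (a (b (l 16120088) (l 16046808)) (b (l 16168960) (l 16134680))) (a (b (l 16070208) (l 15972416)) (b (l 16162736) (l 16061952))))) (b (b (a (c (l 16150032) (l 16006936)) (c (l 16250400) (c (l 16239664) (l 16190360)))) (c (a (l 16099168) (l 16112584)) (a (l 16071008) (l 16170080)))) (c (a (l 15997672) (l 16069432)) (l 15905984)))) (c (a (b (c (b (l 15939000) (l 15852608)) (l 15886400)) (c (l 15788600) (l 15828944))) (b (c (b (l 16023936) (l 15934632)) (l 15971480)) (c (l 15866280) (l 15908136)))) (a (l 15869960) (l 15849576)))) (c (b (a (c (l 15727976) (l 15751560)) (c (l 15797064) (l 15822016))) (a (c (b (l 15680352) (c (a (l 15620920) (l 15654216)) (l 15640680))) (l 15643800)) (c (b (l 15740992) (c (l 15702696) (l 15696048))) (l 15702832)))) (b (a (l 15725376) (l 15797904))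 (a (l 15594976) (l 15655792))))), by decide +kernel⟩

def k1_pm_202_a : ∃ t, chk3 f_pm_202_a t 5 1 1 = true :=
  ⟨(b (b (b (a (c (l 16201136) (c (b (l 16404928) (l 16179112)) (b (c (l 16333712) (l 16286024)) (l 16271248)))) (c (a (b (a (l 16411328) (l 16346456)) (l 16389056)) (b (l 16300200) (a (l 16257600) (b (l 16307240) (c (l 16295736) (l 16291616)))))) (a (b (c (a (l 16402480) (l 16315272)) (b (a (l 16384128) (c (l 16345864) (l 16326184))) (l 16283904))) (c (l 16339920) (l 16456104))) (b (b (l 16301808) (c (l 16311016) (c (l 16295792) (l 16342552)))) (c (a (b (l 16329528) (l 16368808)) (b (l 16308296) (l 16269040))) (a (l 16299432) (b (l 16321832) (l 16322392)))))))) (c (a (b (c (l 16246144) (b (l 16271688) (l 16280272))) (c (l 16207888) (l 16159168))) (b (c (l 16232312) (l 16258216)) (b (l 16249040) (l 16235976)))) (a (c (b (l 16218856) (l 16220024)) (l 16264592)) (c (l 16250720) (l 16369696))))) (c (a (b (c (b (l 16156112) (l 16041904)) (l 16062680)) (c (l 15988656) (l 16054296)))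 (b (c (c (l 16157680) (l 16137840)) (l 16168864)) (c (l 16101480) (l 16234272)))) (a (c (l 16051784) (l 16108848)) (c (l 16115320) (l 16155800))))) (b (a (c (c (l 15865896) (l 15851528)) (l 15936264)) (c (c (l 15984968) (l 15953640)) (l 15960568))) (c (a (c (b (l 15861336) (l 15705952)) (l 15821776)) (c (b (l 16028832) (l 15863912)) (l 15925256))) (a (l 15778320) (l 15908344))))), by decide +kernel⟩

def k2_pm_202_a : ∃ t, chk3 f_pm_202_a t 6 2 1 = true :=
  ⟨(b (a (b (c (a (l 16242384) (l 16327888)) (b (c (l 16415840) (c (l 16376728) (l 16315872))) (a (c (l 16251968) (l 16345464)) (c (b (l 16412448) (l 16384688)) (l 16412520))))) (a (c (b (c (a (b (l 16262640) (l 16271736)) (l 16199232)) (a (b (l 16254792) (l 16307384)) (l 16285704))) (a (l 16187120) (b (c (l 16253376) (l 16299728)) (l 16318784)))) (c (b (a (b (l 16309144) (l 16328968)) (l 16309496)) (a (l 16380568) (l 16290696))) (b (a (l 16304160) (l 16292232)) (l 16239520)))) (c (b (l 16238136) (b (l 16263560) (a (c (l 16254408)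 (l 16293616)) (l 16292384)))) (b (l 16266128) (c (a (l 16286344) (l 16310480)) (l 16232920)))))) (c (b (l 16339080) (c (b (l 16338400) (l 16375680)) (b (l 16366544) (a (l 16376320) (l 16464088))))) (b (c (b (l 16494888) (l 16360072)) (b (b (l 16381736) (l 16405488)) (l 16437072))) (c (l 16295376) (l 16322920))))) (a (b (a (c (c (l 16305352) (l 16365848)) (l 16328696)) (c (b (a (c (l 16271192) (l 16262176)) (c (l 16214736) (b (l 16291512) (l 16281888)))) (b (c (l 16267984) (l 16331848)) (l 16314960))) (b (a (l 16237752) (b (l 16244144) (l 16208544))) (l 16197312)))) (c (a (l 16298432) (l 16311064)) (l 16235032))) (b (c (a (b (l 16296584) (a (c (b (l 16282536) (l 16244320)) (l 16259448)) (l 16286688))) (c (l 16379064) (l 16353736))) (a (a (b (l 16261856) (b (l 16210528) (l 16201160))) (l 16266248)) (l 16332600))) (b (a (c (a (l 16276920) (b (l 16247168) (l 16235968))) (a (l 16235048) (b (l 16179256) (l 16172496)))) (c (l 16284384) (l 16219696))) (a (c (l 16246848) (l 16236176)) (a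 (c (a (l 16207640) (l 16199864)) (a (l 16150456) (l 16142168))) (l 16073184))))))), by decide +kernel⟩

def k3_pm_202_a : ∃ t, chk3 f_pm_202_a t 6 3 1 = true :=
  ⟨(a (b (c (a (l 16139472) (l 16264520)) (a (l 16256712) (l 16367248))) (c (c (a (l 16033656) (l 16186168)) (l 16066360)) (l 15994368))) (b (a (c (l 16206280) (l 16244696)) (b (a (c (l 16211592) (l 16214296)) (c (b (a (l 16166752) (l 16161416)) (l 16179760)) (b (a (l 16119416) (l 16113728)) (l 16145344)))) (c (l 16259072) (l 16305240)))) (c (a (c (l 16299664) (l 16386608)) (b (l 16337432) (l 16414400))) (a (l 16364032) (l 16320152))))), by decide +kernel⟩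

def k4_pm_202_a : ∃ t, chk3 f_pm_202_a t 14 2 1 = true :=
  ⟨(b (c (b (a (l 16332184) (b (l 16394464) (l 16508904))) (c (a (l 16366168) (l 16507688)) (b (l 16451976) (l 16447336)))) (a (b (c (b (l 16398808) (l 16441752)) (b (c (l 16388144) (l 16317896)) (l 16460248))) (c (l 16475192) (l 16526024))) (b (c (b (c (l 16391728) (a (l 16389352) (l 16362744))) (l 16476584)) (b (c (a (l 16378912) (b (l 16343768) (l 16373208))) (a (b (l 16260896) (l 16387984)) (b (c (l 16327424) (l 16310816)) (l 16369504)))) (a (l 16452072) (c (l 16449912) (l 16425816))))) (b (a (l 16513192) (c (l 16533544) (l 16457312))) (l 16525904))))) (c (b (c (a (b (l 16484344) (l 16448984)) (l 16474648)) (b (l 16393248) (l 16377512))) (a (l 16220968) (l 16331808))) (a (c (l 16220872) (l 16276112)) (l 16208344)))), by decide +kernel⟩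

def k5_pm_202_a : ∃ t, chk3 f_pm_202_a t 15 2 2 = true :=
  ⟨(c (b (a (b (b (a (l 16398648) (c (l 16401504) (l 16395496))) (l 16519176)) (l 16556528)) (c (b (b (a (l 16395544) (l 16372624)) (a (l 16501504) (l 16470400))) (a (l 16604384) (b (l 16600064) (l 16583368)))) (b (a (b (l 16381256) (l 16504440)) (l 16339184)) (b (a (l 16607432) (l 16514440)) (a (l 16600056) (l 16621488)))))) (b (a (l 16518936) (c (l 16535264) (b (l 16584704) (l 16528224)))) (l 16356672))) (b (b (a (b (a (l 16284264) (c (l 16386560) (l 16371992))) (a (l 16511752) (c (l 16515280) (b (l 16476736) (l 16533384))))) (b (a (l 16347816) (l 16311520)) (a (c (l 16494376) (l 16434072)) (l 16386688)))) (a (b (c (l 16601336) (l 16562088)) (l 16615768)) (b (a (c (l 16557152) (l 16553528)) (l 16422376)) (a (c (l 16630592) (l 16600424)) (c (l 16622384) (l 16580392)))))) (a (l 16282344) (b (a (b (l 16584064) (l 16493424)) (c (l 16480256) (l 16492480))) (a (l 16353168) (l 16258512)))))), by decide +kernel⟩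

def k6_pm_202_a : ∃ t, chk3 f_pm_202_a t 15 2 3 = true :=
  ⟨(b (b (a (c (b (a (c (l 16380192) (l 16301016)) (l 16272288)) (c (a (l 16424632) (b (l 16455896) (l 16495728))) (a (b (l 16444488) (l 16467928)) (l 16365776)))) (b (c (b (l 16273688) (l 16233512)) (c (l 16148736) (l 16152128))) (c (a (l 16369120) (l 16384272)) (l 16306168)))) (c (b (a (l 16290592) (l 16262272)) (c (l 16327184) (l 16258384))) (b (c (b (l 16201984) (l 16256104)) (b (c (l 16177712) (l 16119344)) (l 16217928))) (c (l 16303208) (l 16302128))))) (a (a (c (c (l 16572872) (l 16470768)) (c (l 16437040) (l 16385336))) (c (b (c (l 16527432) (l 16491496)) (l 16526520)) (c (l 16376984) (l 16418544)))) (c (a (c (b (l 16502952) (l 16594552)) (l 16391904)) (l 16297264)) (a (l 16357680) (l 16360576))))) (a (b (c (b (a (l 16518440) (l 16534432)) (l 16435880)) (a (b (c (l 16504160) (l 16511840)) (l 16427592)) (b (c (l 16525048) (l 16541336)) (l 16320560)))) (l 16311864)) (c (b (a (b (l 16454664) (l 16396144)) (b (l 16601544)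 (l 16382696))) (a (l 16321200) (c (l 16335288) (l 16318408)))) (b (a (a (b (l 16565392) (l 16442584)) (l 16414104)) (l 16480512)) (a (b (c (l 16370520) (l 16383936)) (l 16206752)) (c (l 16271720) (l 16293744))))))), by decide +kernel⟩

def k7_pm_202_a : ∃ t, chk3 f_pm_202_a t 7 3 1 = true :=
  ⟨(a (b (a (a (a (b (b (l 16115696) (c (l 16083720) (l 16089048))) (l 16032424)) (b (c (l 16164272) (l 16120992)) (c (b (l 16044032) (l 16162760)) (l 16071376)))) (b (c (l 16173736) (l 16130912)) (c (b (c (l 16087920) (l 16023048)) (c (l 16077152) (l 16021376))) (b (a (l 16040648) (l 16027200)) (a (l 16069712) (l 16002288)))))) (c (a (b (l 16180288) (c (l 16043928) (l 16004616))) (l 16065488)) (b (l 16141368) (a (l 15935624) (l 15997880))))) (a (c (b (l 16028400) (c (l 16238464) (l 16299792))) (l 16027088)) (b (c (a (b (a (l 15992600) (c (l 15946624) (l 15920416))) (l 16013456)) (b (l 15908624) (a (l 15891864) (l 15844728)))) (a (b (a (l 15975864) (l 15916160)) (l 16002592)) (b (l 15889640)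 (a (l 15877008) (l 15828520))))) (c (c (l 15861944) (l 16022712)) (l 15872744))))) (b (c (a (l 16007392) (l 16030400)) (a (l 16074832) (c (l 16077592) (b (a (l 16162248) (c (l 16127720) (b (l 16221456) (l 16129472)))) (l 16001248))))) (a (b (c (l 15868912) (l 15850664)) (c (a (b (a (l 15769528) (l 15757776)) (b (l 15774856) (l 15801232))) (b (l 15751648) (b (l 15696288) (l 15671248)))) (a (b (a (l 15776120) (l 15742664)) (l 15736400)) (b (l 15737072) (l 15650776))))) (c (c (l 15790944) (l 15771408)) (l 15765184))))), by decide +kernel⟩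

theorem s8_pm_202_a : ∃ t, chk3 f_pm_202_a t 15 2 1 = true := ex3_c k5_pm_202_a k6_pm_202_a

theorem s9_pm_202_a : ∃ t, chk3 f_pm_202_a t 7 2 1 = true := ex3_a k4_pm_202_a s8_pm_202_a

theorem s10_pm_202_a : ∃ t, chk3 f_pm_202_a t 7 1 1 = true := ex3_b s9_pm_202_a k7_pm_202_a

theorem s11_pm_202_a : ∃ t, chk3 f_pm_202_a t 6 1 1 = true := ex3_b k2_pm_202_a k3_pm_202_a

theorem s12_pm_202_a : ∃ t, chk3 f_pm_202_a t 3 1 1 = true := ex3_a s11_pm_202_a s10_pm_202_a

theorem s13_pm_202_a : ∃ t, chk3 f_pm_202_a t 2 1 1 = true := ex3_a k0_pm_202_a k1_pm_202_a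

theorem s14_pm_202_a : ∃ t, chk3 f_pm_202_a t 1 1 1 = true := ex3_a s13_pm_202_a s12_pm_202_a

theorem c_pm_202_a : CertFX 0 420477299 0 67108864 1046898278 26843546 true true false .pp 2 0 2
    ndF1q2a ndF4q0 pcF2 Cut.none Ext.none :=
  certFX0 (fam := true) (s1 := true) (s2 := false) (a := 2) (b := 0) (c := 2) (cn := .pp) (n1 := ndF1q2a) (n2 := ndF4q0) (pc := pcF2) (cut := Cut.none) (xt := Ext.none) (P1 := 0) (W1 := 420477299) (P2 := 0) (W2 := 67108864) (P3 := 1046898278) (W3 := 26843546)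
    rfl s14_pm_202_a

noncomputable def f_pm_202_b : ℕ → ℕ → ℕ → ℕ → Bool := onCell 1073741824 536870912 0 67108864 1046898278 26843546
    (rowFX 2 true true false .pp 2 0 2 (qsf 1239849684 370763052 0 67108864 2) ndF1q2b ndF4q0 pcF2 Cut.none Ext.none)

def k0_pm_202_b : ∃ t, chk3 f_pm_202_b t 4 1 1 = true :=
  ⟨(l 1), by decide +kernel⟩

def k1_pm_202_b : ∃ t, chk3 f_pm_202_b t 10 1 1 = true :=
  ⟨(a (b (a (l 1) (a (l 1) (b (b (b (b (c (l 16209640) (l 16102744)) (l 1)) (l 1)) (l 1)) (l 1)))) (l 1)) (b (b (c (b (a (l 383357318231) (l 15611008)) (c (b (a (l 15915280) (l 15766832)) (l 343091798743)) (b (l 376914635703) (l 362955974551)))) (b (c (b (l 15705496) (a (l 15906624) (l 15638136))) (b (a (l 15737600) (l 15565632)) (l 15652216))) (c (l 377451403287) (l 15745056)))) (c (a (c (b (l 332354786615) (l 1)) (l 299605754087)) (b (c (l 384430637495) (l 15746680)) (l 337722949207))) (a (l 285647152103) (l 15688232)))) (b (a (l 1) (c (c (l 321617159879) (l 296384285255)) (l 15962848)))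 (l 1)))), by decide +kernel⟩

def k2_pm_202_b : ∃ t, chk3 f_pm_202_b t 11 1 1 = true :=
  ⟨(a (b (b (c (b (a (l 15329264) (l 15024168)) (c (b (l 15148744) (l 15311424)) (b (l 15228160) (l 15221416)))) (b (c (l 14887824) (b (l 15060056) (l 15096808))) (c (l 15184672) (l 15172000)))) (c (b (c (a (l 15446456) (l 15148288)) (l 15121984)) (a (c (l 15502720) (l 15537096)) (l 15217256))) (a (l 15481688) (l 15168032)))) (c (b (a (c (l 362955595991) (l 15494320)) (c (l 15387400) (l 15403768))) (c (a (b (l 321616891047) (l 1)) (b (l 15378712) (b (l 374766841559) (l 396778631511)))) (l 344702057399))) (b (l 381208882567) (l 371545574887)))) (b (c (a (b (b (l 14856624) (c (l 14985928) (l 14912776))) (c (b (l 14984616) (l 15043520)) (l 15010656))) (b (b (l 14855728) (l 14945488)) (l 15024352))) (b (b (c (l 14789408) (l 14744440)) (c (l 14857720) (l 14837832))) (l 14995152))) (c (b (a (c (a (l 15226912) (l 15225168)) (l 15238880)) (l 15230216)) (c (a (a (b (a (l 15410040) (l 15406560)) (a (c (a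 (l 15529432) (l 15523128)) (l 15515712)) (l 15518248))) (b (l 15408144) (l 15520640))) (b (l 15411280) (l 15526704))) (a (a (l 15440776) (l 15440688)) (l 15443528)))) (a (b (l 15196400) (l 15384640)) (l 15290944))))), by decide +kernel⟩

def k3_pm_202_b : ∃ t, chk3 f_pm_202_b t 3 1 1 = true :=
  ⟨(a (b (a (c (b (c (l 14925520) (l 14871064)) (a (l 15024896) (l 15026840))) (b (c (l 14828616) (l 14788264)) (l 14995120))) (c (b (a (l 14893912) (l 14893672)) (l 15023176)) (b (c (l 14828536) (l 14788256)) (l 14994304)))) (a (c (a (b (l 15234424) (c (l 15475400) (l 15449352))) (b (l 15235624) (l 15461672))) (a (l 15274064) (l 15295056))) (c (a (l 15333888) (l 15331768)) (l 15286672)))) (b (b (c (a (l 14893672) (l 14893672)) (a (c (l 14828616) (l 14788264)) (l 14806968))) (c (l 15024352) (l 14994696))) (a (c (l 15331768) (l 15289320)) (l 15116728)))), by decide +kernel⟩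

theorem s4_pm_202_b : ∃ t, chk3 f_pm_202_b t 5 1 1 = true := ex3_a k1_pm_202_b k2_pm_202_b

theorem s5_pm_202_b : ∃ t, chk3 f_pm_202_b t 2 1 1 = true := ex3_a k0_pm_202_b s4_pm_202_b

theorem s6_pm_202_b : ∃ t, chk3 f_pm_202_b t 1 1 1 = true := ex3_a s5_pm_202_b k3_pm_202_b

theorem c_pm_202_b : CertFX 1239849684 370763052 0 67108864 1046898278 26843546 true true false .pp 2 0 2
    ndF1q2b ndF4q0 pcF2 Cut.none Ext.none :=
  certFX2 (fam := true) (s1 := true) (s2 := false) (a := 2) (b := 0) (c := 2) (cn := .pp) (n1 := ndF1q2b) (n2 := ndF4q0) (pc := pcF2) (cut := Cut.none) (xt := Ext.none) (P1 := 1239849684) (W1 := 370763052) (P2 := 0) (W2 := 67108864) (P3 := 1046898278) (W3 := 26843546)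
    rfl (fun _ => rfl) s6_pm_202_b

noncomputable def f_pm_203_a : ℕ → ℕ → ℕ → ℕ → Bool := onCell 0 420477299 0 67108864 1046898278 26843546
    (rowFX 0 true true false .up 2 0 3 (qsf 0 420477299 0 67108864 3) ndF1q2a ndF4q0 pcF3 Cut.none Ext.none)

def k0_pm_203_a : ∃ t, chk3 f_pm_203_a t 1 1 1 = true :=
  ⟨(l 1), by decide +kernel⟩

theorem c_pm_203_a : CertFX 0 420477299 0 67108864 1046898278 26843546 true true false .up 2 0 3
    ndF1q2a ndF4q0 pcF3 Cut.none Ext.none :=
  certFX0 (fam := true) (s1 := true) (s2 := false) (a := 2) (b := 0) (c := 3) (cn := .up) (n1 := ndF1q2a) (n2 := ndF4q0) (pc := pcF3) (cut := Cut.none) (xt := Ext.none) (P1 := 0) (W1 := 420477299) (P2 := 0) (W2 := 67108864) (P3 := 1046898278) (W3 := 26843546)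
    rfl k0_pm_203_a

noncomputable def f_pm_203_b : ℕ → ℕ → ℕ → ℕ → Bool := onCell 1239849684 370763052 0 67108864 1046898278 26843546
    (rowFX 0 true true false .up 2 0 3 (qsf 1239849684 370763052 0 67108864 3) ndF1q2b ndF4q0 pcF3 Cut.none Ext.none)

def k0_pm_203_b : ∃ t, chk3 f_pm_203_b t 1 1 1 = true :=
  ⟨(a (l 1) (a (l 1) (b (a (l 1) (c (l 14844296) (b (l 14806968) (l 14994696)))) (c (l 15331768) (l 15289320))))), by decide +kernel⟩

theorem c_pm_203_b : CertFX 1239849684 370763052 0 67108864 1046898278 26843546 true true false .up 2 0 3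
    ndF1q2b ndF4q0 pcF3 Cut.none Ext.none :=
  certFX0 (fam := true) (s1 := true) (s2 := false) (a := 2) (b := 0) (c := 3) (cn := .up) (n1 := ndF1q2b) (n2 := ndF4q0) (pc := pcF3) (cut := Cut.none) (xt := Ext.none) (P1 := 1239849684) (W1 := 370763052) (P2 := 0) (W2 := 67108864) (P3 := 1046898278) (W3 := 26843546)
    rfl k0_pm_203_b

noncomputable def f_pm_303 : ℕ → ℕ → ℕ → ℕ → Bool := onCell 1610612736 536870912 0 67108864 1046898278 26843546
    (rowFX 2 true true false .npn 3 0 3 (qsf 1610612736 469762048 0 67108864 3) ndF1q3 ndF4q0 pcF3 Cut.none Ext.none)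

def k0_pm_303 : ∃ t, chk3 f_pm_303 t 1 1 1 = true :=
  ⟨(a (a (c (b (a (l 14844296) (b (l 14893672) (l 15024352))) (a (l 15331768) (l 15331768))) (a (b (b (l 14806968) (l 14994696)) (l 15289320)) (b (a (l 14832920) (l 14686120)) (l 15289320)))) (a (c (b (c (l 14984768) (l 14825952)) (l 15289832)) (b (b (a (l 14806968) (l 14639200)) (l 14847896)) (a (l 15289320) (l 4)))) (l 4))) (l 4)), by decide +kernel⟩

theorem c_pm_303 : CertFX 1610612736 469762048 0 67108864 1046898278 26843546 true true false .npn 3 0 3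
    ndF1q3 ndF4q0 pcF3 Cut.none Ext.none :=
  certFX2 (fam := true) (s1 := true) (s2 := false) (a := 3) (b := 0) (c := 3) (cn := .npn) (n1 := ndF1q3) (n2 := ndF4q0) (pc := pcF3) (cut := Cut.none) (xt := Ext.none) (P1 := 1610612736) (W1 := 469762048) (P2 := 0) (W2 := 67108864) (P3 := 1046898278) (W3 := 26843546)
    rfl (fun _ => rfl) k0_pm_303

noncomputable def f_mm_001 : ℕ → ℕ → ℕ → ℕ → Bool := onCell 67108864 469762048 0 67108864 1046898278 26843546
    (rowFX 0 true false false .up 0 0 1 (qsf 67108864 469762048 0 67108864 1) ndF1q0 ndF4q0 pcF1 Cut.none Ext.none)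

def k0_mm_001 : ∃ t, chk3 f_mm_001 t 1 1 1 = true :=
  ⟨(l 4), by decide +kernel⟩

theorem c_mm_001 : CertFX 67108864 469762048 0 67108864 1046898278 26843546 true false false .up 0 0 1
    ndF1q0 ndF4q0 pcF1 Cut.none Ext.none :=
  certFX0 (fam := true) (s1 := false) (s2 := false) (a := 0) (b := 0) (c := 1) (cn := .up) (n1 := ndF1q0) (n2 := ndF4q0) (pc := pcF1) (cut := Cut.none) (xt := Ext.none) (P1 := 67108864) (W1 := 469762048) (P2 := 0) (W2 := 67108864) (P3 := 1046898278) (W3 := 26843546)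
    rfl k0_mm_001

noncomputable def f_mm_101 : ℕ → ℕ → ℕ → ℕ → Bool := onCell 536870912 536870912 0 67108864 1046898278 26843546
    (rowFX 0 true false false .npn 1 0 1 (qsf 536870912 536870912 0 67108864 1) ndF1q1 ndF4q0 pcF1 Cut.none Ext.none)

def k0_mm_101 : ∃ t, chk3 f_mm_101 t 1 1 1 = true :=
  ⟨(l 4), by decide +kernel⟩

theorem c_mm_101 : CertFX 536870912 536870912 0 67108864 1046898278 26843546 true false false .npn 1 0 1
    ndF1q1 ndF4q0 pcF1 Cut.none Ext.none :=
  certFX0 (fam := true) (s1 := false) (s2 := false) (a := 1) (b := 0) (c := 1) (cn := .npn) (n1 := ndF1q1) (n2 := ndF4q0) (pc := pcF1) (cut := Cut.none) (xt := Ext.none) (P1 := 536870912) (W1 := 536870912) (P2 := 0) (W2 := 67108864) (P3 := 1046898278) (W3 := 26843546)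
    rfl k0_mm_101

noncomputable def f_mm_102 : ℕ → ℕ → ℕ → ℕ → Bool := onCell 536870912 536870912 0 67108864 1046898278 26843546
    (rowFX 0 true false false .npp 1 0 2 (qsf 536870912 536870912 0 67108864 2) ndF1q1 ndF4q0 pcF2 Cut.none Ext.none)

def k0_mm_102 : ∃ t, chk3 f_mm_102 t 1 1 1 = true :=
  ⟨(l 4), by decide +kernel⟩

theorem c_mm_102 : CertFX 536870912 536870912 0 67108864 1046898278 26843546 true false false .npp 1 0 2
    ndF1q1 ndF4q0 pcF2 Cut.none Ext.none :=
  certFX0 (fam := true) (s1 := false) (s2 := false) (a := 1) (b := 0) (c := 2) (cn := .npp) (n1 := ndF1q1) (n2 := ndF4q0) (pc := pcF2) (cut := Cut.none) (xt := Ext.none) (P1 := 536870912) (W1 := 536870912) (P2 := 0) (W2 := 67108864) (P3 := 1046898278) (W3 := 26843546)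
    rfl k0_mm_102

noncomputable def f_mm_202_a : ℕ → ℕ → ℕ → ℕ → Bool := onCell 0 420477299 0 67108864 1046898278 26843546
    (rowFX 0 true false false .pp 2 0 2 (qsf 0 420477299 0 67108864 2) ndF1q2a ndF4q0 pcF2 Cut.none Ext.none)

def k0_mm_202_a : ∃ t, chk3 f_mm_202_a t 2 1 1 = true :=
  ⟨(c (a (b (b (b (a (l 16099152) (l 16164272)) (c (a (l 16092264) (l 16162176)) (a (l 16029768) (l 16101464)))) (b (a (l 15969552) (l 16045344)) (l 15855840))) (b (a (l 15968880) (l 16060960)) (a (l 16020896) (l 16104752)))) (b (b (b (a (l 16269912) (a (l 16367448) (b (l 16405592) (l 16447728)))) (a (c (l 16248856) (l 16191184)) (c (l 16409936) (l 16293592)))) (a (b (l 16156256) (l 16132128)) (b (l 16236304) (l 16273040)))) (b (a (l 16179960) (l 16299128)) (a (l 16190416) (c (l 16408864) (l 16391816)))))) (a (b (a (b (b (c (l 16054288) (l 15876936)) (l 15972288)) (l 15941960)) (b (b (c (l 16121984) (l 15967344)) (l 16046696)) (l 16025008))) (b (l 15918360) (l 15956712))) (b (b (b (a (c (l 16190256)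 (b (l 16177584) (l 16189208))) (a (b (c (l 16345480) (b (l 16288544) (l 16329232))) (l 16303224)) (b (c (l 16390728) (b (l 16364352) (l 16382992))) (c (l 16404296) (l 16372184))))) (a (l 16141064) (c (l 16321568) (l 16321280)))) (a (l 16143664) (l 16294072))) (b (a (l 16151960) (l 16300920)) (a (l 16184904) (l 16337968)))))), by decide +kernel⟩

def k1_mm_202_a : ∃ t, chk3 f_mm_202_a t 6 1 1 = true :=
  ⟨(b (b (a (a (b (c (l 16466816) (c (l 16410848) (b (l 16393008) (l 16417160)))) (c (b (l 16322656) (l 16369792)) (c (b (l 16439440) (l 16434080)) (l 16420384)))) (c (b (l 16511280) (b (l 16517688) (l 16395816))) (b (c (l 16429984) (c (l 16451760) (l 16418744))) (c (l 16499608) (l 16501320))))) (c (b (a (l 16518024) (l 16471360)) (c (l 16424952) (l 16385344))) (b (c (b (l 16523504) (l 16439584)) (b (c (l 16442312) (a (l 16476368) (l 16440296))) (l 16476856))) (c (l 16520720) (l 16524848))))) (a (c (b (a (l 16422960) (b (l 16305480) (l 16491848))) (l 16442216)) (a (l 16424856) (b (a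 (l 16503864) (l 16547016)) (l 16522040)))) (c (a (b (b (l 16523880) (l 16433048)) (b (l 16482344) (l 16544568))) (b (l 16476928) (b (l 16489592) (l 16417168)))) (a (b (a (l 16524368) (l 16505240)) (a (l 16532824) (l 16498040))) (b (l 16472944) (a (l 16467920) (l 16440536))))))) (a (c (b (l 16398104) (b (l 16537136) (l 16470040))) (b (l 16452608) (l 16483656))) (b (b (b (a (l 16477048) (c (l 16306768) (a (l 16473856) (l 16438072)))) (c (l 16361240) (l 16443136))) (c (l 16447064) (l 16521136))) (c (b (l 16384416) (a (l 16539344) (l 16480416))) (a (l 16572720) (l 16501752)))))), by decide +kernel⟩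

def k2_mm_202_a : ∃ t, chk3 f_mm_202_a t 14 2 1 = true :=
  ⟨(b (c (b (a (b (l 16455512) (l 16385128)) (c (l 16439664) (l 16470784))) (b (a (l 16303448) (l 16340824)) (c (l 16330392) (l 16444120)))) (b (c (b (a (l 16491672) (l 16527552)) (a (l 16462280) (l 16494024))) (b (a (c (l 16517752) (a (l 16467808) (l 16497560))) (c (l 16557472) (b (l 16502752) (l 16571240)))) (a (l 16503048) (l 16540096)))) (c (a (l 16432904) (l 16453024)) (a (l 16463376) (l 16488208))))) (c (a (b (l 16341160) (l 16433080)) (b (c (l 16421784) (l 16441816)) (l 16411152))) (a (c (l 16410920) (l 16421544)) (b (l 16436392) (l 16410608))))), by decide +kernel⟩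

def k3_mm_202_a : ∃ t, chk3 f_mm_202_a t 15 2 1 = true :=
  ⟨(b (c (b (a (c (a (l 16409888) (b (l 16492424) (l 16440400))) (b (l 16540120) (l 16421424))) (c (a (l 16473200) (l 16437896)) (b (l 16579760) (b (l 16538144) (l 16431336))))) (a (c (b (l 16398072) (l 16402072)) (l 16365816)) (c (b (a (c (l 16387512) (l 16440240)) (l 16339552)) (a (l 16396480) (c (l 16389680) (l 16480360)))) (b (a (l 16480616) (l 16524344)) (a (l 16518200) (l 16544200)))))) (b (a (c (b (a (l 16563312) (l 16586360)) (b (l 16542832) (l 16533648))) (c (b (a (l 16554464) (b (l 16607560) (l 16590616))) (l 16583720)) (b (a (c (l 16538248) (l 16526816)) (b (b (l 16578336) (l 16548416)) (l 16577480))) (l 16596192)))) (c (b (l 16619904) (b (l 16589824) (c (l 16565664) (l 16612704)))) (b (c (b (l 16608456) (l 16629040)) (b (b (c (l 16584264) (l 16549688)) (l 16527488)) (l 16597608))) (c (a (l 16622360) (l 16645120)) (l 16567872))))) (a (c (l 16518272) (l 16537560)) (c (b (a (l 16571768) (l 16596832)) (a (l 16548160)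 (l 16553240))) (a (l 16557608) (b (l 16622224) (l 16588408))))))) (c (a (b (c (l 16366592) (l 16469440)) (c (l 16467248) (l 16430336))) (a (b (c (l 16403552) (l 16507016)) (l 16450224)) (b (c (c (l 4) (l 16542352)) (l 16436024)) (l 4)))) (a (b (l 16448232) (l 16303424)) (b (c (a (l 16493224) (l 16481304)) (l 16467464)) (c (l 16467816) (l 16490400)))))), by decide +kernel⟩

def k4_mm_202_a : ∃ t, chk3 f_mm_202_a t 7 3 1 = true :=
  ⟨(a (b (a (b (c (a (b (l 16423112) (l 16376808)) (l 16410048)) (a (l 16365496) (l 16397704))) (c (a (l 16377480) (b (l 16384200) (l 4))) (a (l 16422808) (b (l 16405440) (l 16412768))))) (c (b (l 16416688) (a (l 16368664) (l 4))) (b (l 16405864) (a (l 16413400) (l 16419696))))) (a (c (c (l 4) (l 4)) (l 16416888)) (b (c (l 4) (a (b (l 16423920) (l 4)) (l 4))) (l 4)))) (b (c (a (c (l 4) (l 16397104)) (l 4)) (a (b (l 16399864) (l 16434176)) (b (a (l 16443848) (l 4)) (l 4)))) (l 4))), by decide +kernel⟩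

theorem s5_mm_202_a : ∃ t, chk3 f_mm_202_a t 7 2 1 = true := ex3_a k2_mm_202_a k3_mm_202_a

theorem s6_mm_202_a : ∃ t, chk3 f_mm_202_a t 7 1 1 = true := ex3_b s5_mm_202_a k4_mm_202_a

theorem s7_mm_202_a : ∃ t, chk3 f_mm_202_a t 3 1 1 = true := ex3_a k1_mm_202_a s6_mm_202_a

theorem s8_mm_202_a : ∃ t, chk3 f_mm_202_a t 1 1 1 = true := ex3_a k0_mm_202_a s7_mm_202_a

theorem c_mm_202_a : CertFX 0 420477299 0 67108864 1046898278 26843546 true false false .pp 2 0 2
    ndF1q2a ndF4q0 pcF2 Cut.none Ext.none :=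
  certFX0 (fam := true) (s1 := false) (s2 := false) (a := 2) (b := 0) (c := 2) (cn := .pp) (n1 := ndF1q2a) (n2 := ndF4q0) (pc := pcF2) (cut := Cut.none) (xt := Ext.none) (P1 := 0) (W1 := 420477299) (P2 := 0) (W2 := 67108864) (P3 := 1046898278) (W3 := 26843546)
    rfl s8_mm_202_a

noncomputable def f_mm_202_b : ℕ → ℕ → ℕ → ℕ → Bool := onCell 1073741824 536870912 0 67108864 1046898278 26843546
    (rowFX 2 true false false .pp 2 0 2 (qsf 1239849684 370763052 0 67108864 2) ndF1q2b ndF4q0 pcF2 Cut.none Ext.none)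

def k0_mm_202_b : ∃ t, chk3 f_mm_202_b t 2 1 1 = true :=
  ⟨(a (l 1) (a (b (a (b (b (b (a (l 1) (c (l 16235144) (c (l 16215744) (l 16021280)))) (l 1)) (l 1)) (l 1)) (b (c (b (a (l 15980704) (l 15711592)) (c (a (l 16006752) (l 15851656)) (a (l 15965976) (l 15781584)))) (b (c (b (l 15764736) (l 15690752)) (b (l 15473192) (l 15767928))) (c (l 15760760) (l 15852408)))) (c (b (c (l 276519991287) (l 15772792)) (l 310343020903)) (l 281351875527)))) (b (a (l 1) (a (l 1) (c (l 15969752) (l 16110984)))) (l 1))) (b (a (b (c (b (l 15347112) (c (l 15416672) (l 15397504))) (b (c (l 15202688) (b (l 15183360) (l 15231928))) (c (l 15354392) (l 15324464)))) (c (c (b (l 15518208) (l 15595544)) (l 15545160)) (l 15516728))) (b (c (b (l 15086320) (c (l 15243872) (l 15156432))) (b (c (l 14996552) (l 14935440)) (l 15060768))) (c (c (l 15310408) (l 15285280)) (l 15248928)))) (a (c (b (a (l 15911176) (l 15702936)) (c (l 290478802023) (l 15941048))) (b (l 15755560) (l 15833072))) (c (b (l 15550232) (c (l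 15821472) (l 15791512))) (b (l 15490824) (l 15718064))))))), by decide +kernel⟩

def k1_mm_202_b : ∃ t, chk3 f_mm_202_b t 3 1 1 = true :=
  ⟨(a (b (a (c (b (b (l 14983200) (a (l 15124504) (l 15038360))) (a (l 15223128) (l 15126592))) (b (b (c (l 14906296) (l 14854160)) (l 14858336)) (l 15134400))) (c (b (c (l 14930736) (l 14876096)) (a (l 15035432) (l 15024352))) (b (c (l 14833464) (l 14792912)) (l 15000112)))) (a (c (a (b (l 15452944) (l 15693504)) (b (l 15343136) (l 15571104))) (a (l 15509944) (l 15402400))) (c (a (b (l 15241208) (l 15458952)) (l 15331768)) (a (l 15301536) (l 15289320))))) (c (b (a (b (l 14893672) (l 15024352)) (b (l 14893672) (l 15024352))) (a (c (l 15339200) (l 15330144)) (l 15331768))) (a (b (c (l 14916760) (l 14881168)) (l 15289320)) (b (b (l 14806968) (l 14994696)) (l 15289320))))), by decide +kernel⟩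

theorem s2_mm_202_b : ∃ t, chk3 f_mm_202_b t 1 1 1 = true := ex3_a k0_mm_202_b k1_mm_202_b

theorem c_mm_202_b : CertFX 1239849684 370763052 0 67108864 1046898278 26843546 true false false .pp 2 0 2
    ndF1q2b ndF4q0 pcF2 Cut.none Ext.none :=
  certFX2 (fam := true) (s1 := false) (s2 := false) (a := 2) (b := 0) (c := 2) (cn := .pp) (n1 := ndF1q2b) (n2 := ndF4q0) (pc := pcF2) (cut := Cut.none) (xt := Ext.none) (P1 := 1239849684) (W1 := 370763052) (P2 := 0) (W2 := 67108864) (P3 := 1046898278) (W3 := 26843546)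
    rfl (fun _ => rfl) s2_mm_202_b

noncomputable def f_mm_203_a : ℕ → ℕ → ℕ → ℕ → Bool := onCell 0 420477299 0 67108864 1046898278 26843546
    (rowFX 0 true false false .up 2 0 3 (qsf 0 420477299 0 67108864 3) ndF1q2a ndF4q0 pcF3 Cut.none Ext.none)

def k0_mm_203_a : ∃ t, chk3 f_mm_203_a t 1 1 1 = true :=
  ⟨(l 1), by decide +kernel⟩

theorem c_mm_203_a : CertFX 0 420477299 0 67108864 1046898278 26843546 true false false .up 2 0 3
    ndF1q2a ndF4q0 pcF3 Cut.none Ext.none :=
  certFX0 (fam := true) (s1 := false) (s2 := false) (a := 2) (b := 0) (c := 3) (cn := .up) (n1 := ndF1q2a) (n2 := ndF4q0) (pc := pcF3) (cut := Cut.none) (xt := Ext.none) (P1 := 0) (W1 := 420477299) (P2 := 0) (W2 := 67108864) (P3 := 1046898278) (W3 := 26843546)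
    rfl k0_mm_203_a

noncomputable def f_mm_203_b : ℕ → ℕ → ℕ → ℕ → Bool := onCell 1610612736 536870912 0 67108864 1046898278 26843546
    (rowFX 2 true false false .up 2 0 3 (qsf 1239849684 370763052 0 67108864 3) ndF1q2b ndF4q0 pcF3 Cut.none Ext.none)

def k0_mm_203_b : ∃ t, chk3 f_mm_203_b t 1 1 1 = true :=
  ⟨(a (a (b (a (c (b (l 14893672) (l 15024352)) (c (l 14916760) (l 14881168))) (l 2)) (a (c (l 15331768) (l 15289320)) (l 4))) (l 2)) (l 2)), by decide +kernel⟩

theorem c_mm_203_b : CertFX 1239849684 370763052 0 67108864 1046898278 26843546 true false false .up 2 0 3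
    ndF1q2b ndF4q0 pcF3 Cut.none Ext.none :=
  certFX2 (fam := true) (s1 := false) (s2 := false) (a := 2) (b := 0) (c := 3) (cn := .up) (n1 := ndF1q2b) (n2 := ndF4q0) (pc := pcF3) (cut := Cut.none) (xt := Ext.none) (P1 := 1239849684) (W1 := 370763052) (P2 := 0) (W2 := 67108864) (P3 := 1046898278) (W3 := 26843546)
    rfl (fun _ => rfl) k0_mm_203_b

noncomputable def f_mm_303 : ℕ → ℕ → ℕ → ℕ → Bool := onCell 1610612736 536870912 0 67108864 1046898278 26843546
    (rowFX 2 true false false .npn 3 0 3 (qsf 1610612736 469762048 0 67108864 3) ndF1q3 ndF4q0 pcF3 Cut.none Ext.none)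

def k0_mm_303 : ∃ t, chk3 f_mm_303 t 1 1 1 = true :=
  ⟨(a (a (c (a (b (b (l 14893672) (l 15024352)) (l 15331768)) (l 4)) (a (b (c (l 14916760) (l 14881168)) (l 15289320)) (a (b (l 14790976) (l 4)) (l 4)))) (l 4)) (l 4)), by decide +kernel⟩

theorem c_mm_303 : CertFX 1610612736 469762048 0 67108864 1046898278 26843546 true false false .npn 3 0 3
    ndF1q3 ndF4q0 pcF3 Cut.none Ext.none :=
  certFX2 (fam := true) (s1 := false) (s2 := false) (a := 3) (b := 0) (c := 3) (cn := .npn) (n1 := ndF1q3) (n2 := ndF4q0) (pc := pcF3) (cut := Cut.none) (xt := Ext.none) (P1 := 1610612736) (W1 := 469762048) (P2 := 0) (W2 := 67108864) (P3 := 1046898278) (W3 := 26843546)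
    rfl (fun _ => rfl) k0_mm_303

end Pool.Agent.Strip051.G.IE1.Tab.C.FA14

namespace Pool.Agent.Strip051.G.IE1.Tab.C.FA15

open Pool.Agent.Strip051.PB Pool.Agent.Strip051.PB.T
open Pool.Agent.Strip051.G.IE1.Tab

noncomputable def f_pp_001 : ℕ → ℕ → ℕ → ℕ → Bool := onCell 67108864 469762048 0 536870912 1046898278 26843546
    (rowFX 0 true true true .up 0 0 1 (qsf 67108864 469762048 0 536870912 1) ndF1q0 ndF5q0 pcF1 Cut.none Ext.none)

def k0_pp_001 : ∃ t, chk3 f_pp_001 t 1 1 1 = true :=
  ⟨(l 4), by decide +kernel⟩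

theorem c_pp_001 : CertFX 67108864 469762048 0 536870912 1046898278 26843546 true true true .up 0 0 1
    ndF1q0 ndF5q0 pcF1 Cut.none Ext.none :=
  certFX0 (fam := true) (s1 := true) (s2 := true) (a := 0) (b := 0) (c := 1) (cn := .up) (n1 := ndF1q0) (n2 := ndF5q0) (pc := pcF1) (cut := Cut.none) (xt := Ext.none) (P1 := 67108864) (W1 := 469762048) (P2 := 0) (W2 := 536870912) (P3 := 1046898278) (W3 := 26843546)
    rfl k0_pp_001

noncomputable def f_pp_011 : ℕ → ℕ → ℕ → ℕ → Bool := onCell 67108864 469762048 536870912 469762048 1046898278 26843546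
    (rowFX 0 true true true .pnn 0 1 1 (qsf 67108864 469762048 536870912 469762048 1) ndF1q0 ndF5q1 pcF1 Cut.none Ext.none)

def k0_pp_011 : ∃ t, chk3 f_pp_011 t 1 1 1 = true :=
  ⟨(l 4), by decide +kernel⟩

theorem c_pp_011 : CertFX 67108864 469762048 536870912 469762048 1046898278 26843546 true true true .pnn 0 1 1
    ndF1q0 ndF5q1 pcF1 Cut.none Ext.none :=
  certFX0 (fam := true) (s1 := true) (s2 := true) (a := 0) (b := 1) (c := 1) (cn := .pnn) (n1 := ndF1q0) (n2 := ndF5q1) (pc := pcF1) (cut := Cut.none) (xt := Ext.none) (P1 := 67108864) (W1 := 469762048) (P2 := 536870912) (W2 := 469762048) (P3 := 1046898278) (W3 := 26843546)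
    rfl k0_pp_011

noncomputable def f_pp_012 : ℕ → ℕ → ℕ → ℕ → Bool := onCell 67108864 469762048 536870912 469762048 1046898278 26843546
    (rowFX 0 true true true .pnp 0 1 2 (qsf 67108864 469762048 536870912 469762048 2) ndF1q0 ndF5q1 pcF2 Cut.none Ext.none)

def k0_pp_012 : ∃ t, chk3 f_pp_012 t 1 1 1 = true :=
  ⟨(l 4), by decide +kernel⟩

theorem c_pp_012 : CertFX 67108864 469762048 536870912 469762048 1046898278 26843546 true true true .pnp 0 1 2
    ndF1q0 ndF5q1 pcF2 Cut.none Ext.none :=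
  certFX0 (fam := true) (s1 := true) (s2 := true) (a := 0) (b := 1) (c := 2) (cn := .pnp) (n1 := ndF1q0) (n2 := ndF5q1) (pc := pcF2) (cut := Cut.none) (xt := Ext.none) (P1 := 67108864) (W1 := 469762048) (P2 := 536870912) (W2 := 469762048) (P3 := 1046898278) (W3 := 26843546)
    rfl k0_pp_012

noncomputable def f_pp_022 : ℕ → ℕ → ℕ → ℕ → Bool := onCell 67108864 469762048 1073741824 536870912 1046898278 26843546
    (rowFX 0 true true true .pp 0 2 2 (qsf 67108864 469762048 1073741824 536870912 2) ndF1q0 ndF5q2 pcF2 Cut.none Ext.none)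

def k0_pp_022 : ∃ t, chk3 f_pp_022 t 1 1 1 = true :=
  ⟨(l 4), by decide +kernel⟩

theorem c_pp_022 : CertFX 67108864 469762048 1073741824 536870912 1046898278 26843546 true true true .pp 0 2 2
    ndF1q0 ndF5q2 pcF2 Cut.none Ext.none :=
  certFX0 (fam := true) (s1 := true) (s2 := true) (a := 0) (b := 2) (c := 2) (cn := .pp) (n1 := ndF1q0) (n2 := ndF5q2) (pc := pcF2) (cut := Cut.none) (xt := Ext.none) (P1 := 67108864) (W1 := 469762048) (P2 := 1073741824) (W2 := 536870912) (P3 := 1046898278) (W3 := 26843546)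
    rfl k0_pp_022

noncomputable def f_pp_023 : ℕ → ℕ → ℕ → ℕ → Bool := onCell 67108864 469762048 1073741824 536870912 1046898278 26843546
    (rowFX 0 true true true .up 0 2 3 (qsf 67108864 469762048 1073741824 536870912 3) ndF1q0 ndF5q2 pcF3 Cut.none Ext.none)

def k0_pp_023 : ∃ t, chk3 f_pp_023 t 1 1 1 = true :=
  ⟨(l 4), by decide +kernel⟩

theorem c_pp_023 : CertFX 67108864 469762048 1073741824 536870912 1046898278 26843546 true true true .up 0 2 3
    ndF1q0 ndF5q2 pcF3 Cut.none Ext.none :=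
  certFX0 (fam := true) (s1 := true) (s2 := true) (a := 0) (b := 2) (c := 3) (cn := .up) (n1 := ndF1q0) (n2 := ndF5q2) (pc := pcF3) (cut := Cut.none) (xt := Ext.none) (P1 := 67108864) (W1 := 469762048) (P2 := 1073741824) (W2 := 536870912) (P3 := 1046898278) (W3 := 26843546)
    rfl k0_pp_023

noncomputable def f_pp_033 : ℕ → ℕ → ℕ → ℕ → Bool := onCell 67108864 469762048 0 1230186008 1046898278 26843546
    (rowFX 0 true true true .pnn 0 3 3 (qsf 67108864 469762048 0 1230186008 3) ndF1q0 ndF5q3 pcF3 Cut.none Ext.none)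

def k0_pp_033 : ∃ t, chk3 f_pp_033 t 1 1 1 = true :=
  ⟨(b (l 4) (l 4)), by decide +kernel⟩

theorem c_pp_033 : CertFX 67108864 469762048 0 1230186008 1046898278 26843546 true true true .pnn 0 3 3
    ndF1q0 ndF5q3 pcF3 Cut.none Ext.none :=
  certFX0 (fam := true) (s1 := true) (s2 := true) (a := 0) (b := 3) (c := 3) (cn := .pnn) (n1 := ndF1q0) (n2 := ndF5q3) (pc := pcF3) (cut := Cut.none) (xt := Ext.none) (P1 := 67108864) (W1 := 469762048) (P2 := 0) (W2 := 1230186008) (P3 := 1046898278) (W3 := 26843546)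
    rfl k0_pp_033

noncomputable def f_pp_101 : ℕ → ℕ → ℕ → ℕ → Bool := onCell 536870912 536870912 0 536870912 1046898278 26843546
    (rowFX 0 true true true .npn 1 0 1 (qsf 536870912 536870912 0 536870912 1) ndF1q1 ndF5q0 pcF1 Cut.none Ext.none)

def k0_pp_101 : ∃ t, chk3 f_pp_101 t 1 1 1 = true :=
  ⟨(l 4), by decide +kernel⟩

theorem c_pp_101 : CertFX 536870912 536870912 0 536870912 1046898278 26843546 true true true .npn 1 0 1
    ndF1q1 ndF5q0 pcF1 Cut.none Ext.none :=
  certFX0 (fam := true) (s1 := true) (s2 := true) (a := 1) (b := 0) (c := 1) (cn := .npn) (n1 := ndF1q1) (n2 := ndF5q0) (pc := pcF1) (cut := Cut.none) (xt := Ext.none) (P1 := 536870912) (W1 := 536870912) (P2 := 0) (W2 := 536870912) (P3 := 1046898278) (W3 := 26843546)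
    rfl k0_pp_101

noncomputable def f_pp_102 : ℕ → ℕ → ℕ → ℕ → Bool := onCell 536870912 536870912 0 536870912 1046898278 26843546
    (rowFX 0 true true true .npp 1 0 2 (qsf 536870912 536870912 0 536870912 2) ndF1q1 ndF5q0 pcF2 Cut.none Ext.none)

def k0_pp_102 : ∃ t, chk3 f_pp_102 t 1 1 1 = true :=
  ⟨(l 4), by decide +kernel⟩

theorem c_pp_102 : CertFX 536870912 536870912 0 536870912 1046898278 26843546 true true true .npp 1 0 2
    ndF1q1 ndF5q0 pcF2 Cut.none Ext.none :=
  certFX0 (fam := true) (s1 := true) (s2 := true) (a := 1) (b := 0) (c := 2) (cn := .npp) (n1 := ndF1q1) (n2 := ndF5q0) (pc := pcF2) (cut := Cut.none) (xt := Ext.none) (P1 := 536870912) (W1 := 536870912) (P2 := 0) (W2 := 536870912) (P3 := 1046898278) (W3 := 26843546)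
    rfl k0_pp_102

noncomputable def f_pp_112 : ℕ → ℕ → ℕ → ℕ → Bool := onCell 536870912 536870912 536870912 469762048 1046898278 26843546
    (rowFX 0 true true true .dn 1 1 2 (qsf 536870912 536870912 536870912 469762048 2) ndF1q1 ndF5q1 pcF2 Cut.none Ext.none)

def k0_pp_112 : ∃ t, chk3 f_pp_112 t 1 1 1 = true :=
  ⟨(l 4), by decide +kernel⟩

theorem c_pp_112 : CertFX 536870912 536870912 536870912 469762048 1046898278 26843546 true true true .dn 1 1 2
    ndF1q1 ndF5q1 pcF2 Cut.none Ext.none :=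
  certFX0 (fam := true) (s1 := true) (s2 := true) (a := 1) (b := 1) (c := 2) (cn := .dn) (n1 := ndF1q1) (n2 := ndF5q1) (pc := pcF2) (cut := Cut.none) (xt := Ext.none) (P1 := 536870912) (W1 := 536870912) (P2 := 536870912) (W2 := 469762048) (P3 := 1046898278) (W3 := 26843546)
    rfl k0_pp_112

noncomputable def f_pp_113 : ℕ → ℕ → ℕ → ℕ → Bool := onCell 536870912 536870912 536870912 469762048 1046898278 26843546
    (rowFX 0 true true true .nn 1 1 3 (qsf 536870912 536870912 536870912 469762048 3) ndF1q1 ndF5q1 pcF3 Cut.none Ext.none)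

def k0_pp_113 : ∃ t, chk3 f_pp_113 t 1 1 1 = true :=
  ⟨(l 4), by decide +kernel⟩

theorem c_pp_113 : CertFX 536870912 536870912 536870912 469762048 1046898278 26843546 true true true .nn 1 1 3
    ndF1q1 ndF5q1 pcF3 Cut.none Ext.none :=
  certFX0 (fam := true) (s1 := true) (s2 := true) (a := 1) (b := 1) (c := 3) (cn := .nn) (n1 := ndF1q1) (n2 := ndF5q1) (pc := pcF3) (cut := Cut.none) (xt := Ext.none) (P1 := 536870912) (W1 := 536870912) (P2 := 536870912) (W2 := 469762048) (P3 := 1046898278) (W3 := 26843546)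
    rfl k0_pp_113

noncomputable def f_pp_123 : ℕ → ℕ → ℕ → ℕ → Bool := onCell 536870912 536870912 1073741824 536870912 1046898278 26843546
    (rowFX 0 true true true .npn 1 2 3 (qsf 536870912 536870912 1073741824 536870912 3) ndF1q1 ndF5q2 pcF3 Cut.none Ext.none)

def k0_pp_123 : ∃ t, chk3 f_pp_123 t 1 1 1 = true :=
  ⟨(l 4), by decide +kernel⟩

theorem c_pp_123 : CertFX 536870912 536870912 1073741824 536870912 1046898278 26843546 true true true .npn 1 2 3
    ndF1q1 ndF5q2 pcF3 Cut.none Ext.none :=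
  certFX0 (fam := true) (s1 := true) (s2 := true) (a := 1) (b := 2) (c := 3) (cn := .npn) (n1 := ndF1q1) (n2 := ndF5q2) (pc := pcF3) (cut := Cut.none) (xt := Ext.none) (P1 := 536870912) (W1 := 536870912) (P2 := 1073741824) (W2 := 536870912) (P3 := 1046898278) (W3 := 26843546)
    rfl k0_pp_123

noncomputable def f_pp_133 : ℕ → ℕ → ℕ → ℕ → Bool := onCell 536870912 536870912 0 1230186008 1046898278 26843546
    (rowFX 0 true true true .dn 1 3 3 (qsf 536870912 536870912 0 1230186008 3) ndF1q1 ndF5q3 pcF3 Cut.none Ext.none)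

def k0_pp_133 : ∃ t, chk3 f_pp_133 t 1 1 1 = true :=
  ⟨(l 4), by decide +kernel⟩

theorem c_pp_133 : CertFX 536870912 536870912 0 1230186008 1046898278 26843546 true true true .dn 1 3 3
    ndF1q1 ndF5q3 pcF3 Cut.none Ext.none :=
  certFX0 (fam := true) (s1 := true) (s2 := true) (a := 1) (b := 3) (c := 3) (cn := .dn) (n1 := ndF1q1) (n2 := ndF5q3) (pc := pcF3) (cut := Cut.none) (xt := Ext.none) (P1 := 536870912) (W1 := 536870912) (P2 := 0) (W2 := 1230186008) (P3 := 1046898278) (W3 := 26843546)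
    rfl k0_pp_133

noncomputable def f_pp_202_a : ℕ → ℕ → ℕ → ℕ → Bool := onCell 0 420477299 0 536870912 1046898278 26843546
    (rowFX 0 true true true .pp 2 0 2 (qsf 0 420477299 0 536870912 2) ndF1q2a ndF5q0 pcF2 Cut.none Ext.none)

def k0_pp_202_a : ∃ t, chk3 f_pp_202_a t 1 1 1 = true :=
  ⟨(l 5), by decide +kernel⟩

theorem c_pp_202_a : CertFX 0 420477299 0 536870912 1046898278 26843546 true true true .pp 2 0 2
    ndF1q2a ndF5q0 pcF2 Cut.none Ext.none :=
  certFX0 (fam := true) (s1 := true) (s2 := true) (a := 2) (b := 0) (c := 2) (cn := .pp) (n1 := ndF1q2a) (n2 := ndF5q0) (pc := pcF2) (cut := Cut.none) (xt := Ext.none) (P1 := 0) (W1 := 420477299) (P2 := 0) (W2 := 536870912) (P3 := 1046898278) (W3 := 26843546)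
    rfl k0_pp_202_a

noncomputable def f_pp_202_b : ℕ → ℕ → ℕ → ℕ → Bool := onCell 1239849684 370763052 0 536870912 1046898278 26843546
    (rowFX 0 true true true .pp 2 0 2 (qsf 1239849684 370763052 0 536870912 2) ndF1q2b ndF5q0 pcF2 Cut.none Ext.none)

def k0_pp_202_b : ∃ t, chk3 f_pp_202_b t 1 1 1 = true :=
  ⟨(l 5), by decide +kernel⟩

theorem c_pp_202_b : CertFX 1239849684 370763052 0 536870912 1046898278 26843546 true true true .pp 2 0 2
    ndF1q2b ndF5q0 pcF2 Cut.none Ext.none :=
  certFX0 (fam := true) (s1 := true) (s2 := true) (a := 2) (b := 0) (c := 2) (cn := .pp) (n1 := ndF1q2b) (n2 := ndF5q0) (pc := pcF2) (cut := Cut.none) (xt := Ext.none) (P1 := 1239849684) (W1 := 370763052) (P2 := 0) (W2 := 536870912) (P3 := 1046898278) (W3 := 26843546)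
    rfl k0_pp_202_b

noncomputable def f_pp_203_a : ℕ → ℕ → ℕ → ℕ → Bool := onCell 0 420477299 0 536870912 1046898278 26843546
    (rowFX 0 true true true .up 2 0 3 (qsf 0 420477299 0 536870912 3) ndF1q2a ndF5q0 pcF3 Cut.none Ext.none)

def k0_pp_203_a : ∃ t, chk3 f_pp_203_a t 1 1 1 = true :=
  ⟨(l 5), by decide +kernel⟩

theorem c_pp_203_a : CertFX 0 420477299 0 536870912 1046898278 26843546 true true true .up 2 0 3
    ndF1q2a ndF5q0 pcF3 Cut.none Ext.none :=
  certFX0 (fam := true) (s1 := true) (s2 := true) (a := 2) (b := 0) (c := 3) (cn := .up) (n1 := ndF1q2a) (n2 := ndF5q0) (pc := pcF3) (cut := Cut.none) (xt := Ext.none) (P1 := 0) (W1 := 420477299) (P2 := 0) (W2 := 536870912) (P3 := 1046898278) (W3 := 26843546)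
    rfl k0_pp_203_a

noncomputable def f_pp_203_b : ℕ → ℕ → ℕ → ℕ → Bool := onCell 1239849684 370763052 0 536870912 1046898278 26843546
    (rowFX 0 true true true .up 2 0 3 (qsf 1239849684 370763052 0 536870912 3) ndF1q2b ndF5q0 pcF3 Cut.none Ext.none)

def k0_pp_203_b : ∃ t, chk3 f_pp_203_b t 1 1 1 = true :=
  ⟨(l 5), by decide +kernel⟩

theorem c_pp_203_b : CertFX 1239849684 370763052 0 536870912 1046898278 26843546 true true true .up 2 0 3
    ndF1q2b ndF5q0 pcF3 Cut.none Ext.none :=
  certFX0 (fam := true) (s1 := true) (s2 := true) (a := 2) (b := 0) (c := 3) (cn := .up) (n1 := ndF1q2b) (n2 := ndF5q0) (pc := pcF3) (cut := Cut.none) (xt := Ext.none) (P1 := 1239849684) (W1 := 370763052) (P2 := 0) (W2 := 536870912) (P3 := 1046898278) (W3 := 26843546)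
    rfl k0_pp_203_b

noncomputable def f_pp_213_a : ℕ → ℕ → ℕ → ℕ → Bool := onCell 0 420477299 536870912 469762048 1046898278 26843546
    (rowFX 0 true true true .pnn 2 1 3 (qsf 0 420477299 536870912 469762048 3) ndF1q2a ndF5q1 pcF3 Cut.none Ext.none)

def k0_pp_213_a : ∃ t, chk3 f_pp_213_a t 1 1 1 = true :=
  ⟨(l 4), by decide +kernel⟩

theorem c_pp_213_a : CertFX 0 420477299 536870912 469762048 1046898278 26843546 true true true .pnn 2 1 3
    ndF1q2a ndF5q1 pcF3 Cut.none Ext.none :=
  certFX0 (fam := true) (s1 := true) (s2 := true) (a := 2) (b := 1) (c := 3) (cn := .pnn) (n1 := ndF1q2a) (n2 := ndF5q1) (pc := pcF3) (cut := Cut.none) (xt := Ext.none) (P1 := 0) (W1 := 420477299) (P2 := 536870912) (W2 := 469762048) (P3 := 1046898278) (W3 := 26843546)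
    rfl k0_pp_213_a

noncomputable def f_pp_213_b : ℕ → ℕ → ℕ → ℕ → Bool := onCell 1239849684 370763052 536870912 469762048 1046898278 26843546
    (rowFX 0 true true true .pnn 2 1 3 (qsf 1239849684 370763052 536870912 469762048 3) ndF1q2b ndF5q1 pcF3 Cut.none Ext.none)

def k0_pp_213_b : ∃ t, chk3 f_pp_213_b t 1 1 1 = true :=
  ⟨(l 4), by decide +kernel⟩

theorem c_pp_213_b : CertFX 1239849684 370763052 536870912 469762048 1046898278 26843546 true true true .pnn 2 1 3
    ndF1q2b ndF5q1 pcF3 Cut.none Ext.none :=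
  certFX0 (fam := true) (s1 := true) (s2 := true) (a := 2) (b := 1) (c := 3) (cn := .pnn) (n1 := ndF1q2b) (n2 := ndF5q1) (pc := pcF3) (cut := Cut.none) (xt := Ext.none) (P1 := 1239849684) (W1 := 370763052) (P2 := 536870912) (W2 := 469762048) (P3 := 1046898278) (W3 := 26843546)
    rfl k0_pp_213_b

noncomputable def f_pp_303 : ℕ → ℕ → ℕ → ℕ → Bool := onCell 1610612736 469762048 0 536870912 1046898278 26843546
    (rowFX 0 true true true .npn 3 0 3 (qsf 1610612736 469762048 0 536870912 3) ndF1q3 ndF5q0 pcF3 Cut.none Ext.none)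

def k0_pp_303 : ∃ t, chk3 f_pp_303 t 1 1 1 = true :=
  ⟨(l 5), by decide +kernel⟩

theorem c_pp_303 : CertFX 1610612736 469762048 0 536870912 1046898278 26843546 true true true .npn 3 0 3
    ndF1q3 ndF5q0 pcF3 Cut.none Ext.none :=
  certFX0 (fam := true) (s1 := true) (s2 := true) (a := 3) (b := 0) (c := 3) (cn := .npn) (n1 := ndF1q3) (n2 := ndF5q0) (pc := pcF3) (cut := Cut.none) (xt := Ext.none) (P1 := 1610612736) (W1 := 469762048) (P2 := 0) (W2 := 536870912) (P3 := 1046898278) (W3 := 26843546)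
    rfl k0_pp_303

noncomputable def f_pp_313 : ℕ → ℕ → ℕ → ℕ → Bool := onCell 1610612736 469762048 536870912 469762048 1046898278 26843546
    (rowFX 0 true true true .dn 3 1 3 (qsf 1610612736 469762048 536870912 469762048 3) ndF1q3 ndF5q1 pcF3 Cut.none Ext.none)

def k0_pp_313 : ∃ t, chk3 f_pp_313 t 1 1 1 = true :=
  ⟨(l 4), by decide +kernel⟩

theorem c_pp_313 : CertFX 1610612736 469762048 536870912 469762048 1046898278 26843546 true true true .dn 3 1 3
    ndF1q3 ndF5q1 pcF3 Cut.none Ext.none :=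
  certFX0 (fam := true) (s1 := true) (s2 := true) (a := 3) (b := 1) (c := 3) (cn := .dn) (n1 := ndF1q3) (n2 := ndF5q1) (pc := pcF3) (cut := Cut.none) (xt := Ext.none) (P1 := 1610612736) (W1 := 469762048) (P2 := 536870912) (W2 := 469762048) (P3 := 1046898278) (W3 := 26843546)
    rfl k0_pp_313

noncomputable def f_pm_001 : ℕ → ℕ → ℕ → ℕ → Bool := onCell 67108864 469762048 0 536870912 1046898278 26843546
    (rowFX 0 true true false .up 0 0 1 (qsf 67108864 469762048 0 536870912 1) ndF1q0 ndF5q0 pcF1 Cut.none Ext.none)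

def k0_pm_001 : ∃ t, chk3 f_pm_001 t 1 1 1 = true :=
  ⟨(b (l 3) (l 3)), by decide +kernel⟩

theorem c_pm_001 : CertFX 67108864 469762048 0 536870912 1046898278 26843546 true true false .up 0 0 1
    ndF1q0 ndF5q0 pcF1 Cut.none Ext.none :=
  certFX0 (fam := true) (s1 := true) (s2 := false) (a := 0) (b := 0) (c := 1) (cn := .up) (n1 := ndF1q0) (n2 := ndF5q0) (pc := pcF1) (cut := Cut.none) (xt := Ext.none) (P1 := 67108864) (W1 := 469762048) (P2 := 0) (W2 := 536870912) (P3 := 1046898278) (W3 := 26843546)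
    rfl k0_pm_001

noncomputable def f_pm_011 : ℕ → ℕ → ℕ → ℕ → Bool := onCell 67108864 469762048 536870912 536870912 1046898278 26843546
    (rowFX 1 true true false .pnn 0 1 1 (qsf 67108864 469762048 536870912 469762048 1) ndF1q0 ndF5q1 pcF1 Cut.none Ext.none)

def k0_pm_011 : ∃ t, chk3 f_pm_011 t 1 1 1 = true :=
  ⟨(b (l 3) (b (l 3) (a (b (l 3) (l 3)) (l 3)))), by decide +kernel⟩

theorem c_pm_011 : CertFX 67108864 469762048 536870912 469762048 1046898278 26843546 true true false .pnn 0 1 1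
    ndF1q0 ndF5q1 pcF1 Cut.none Ext.none :=
  certFX1 (fam := true) (s1 := true) (s2 := false) (a := 0) (b := 1) (c := 1) (cn := .pnn) (n1 := ndF1q0) (n2 := ndF5q1) (pc := pcF1) (cut := Cut.none) (xt := Ext.none) (P1 := 67108864) (W1 := 469762048) (P2 := 536870912) (W2 := 469762048) (P3 := 1046898278) (W3 := 26843546)
    rfl (fun _ => rfl) k0_pm_011

noncomputable def f_pm_012 : ℕ → ℕ → ℕ → ℕ → Bool := onCell 1073741824 536870912 536870912 469762048 1046898278 26843546
    (rowFX 2 true true false .pnp 0 1 2 (qsf 67108864 469762048 536870912 469762048 2) ndF1q0 ndF5q1 pcF2 Cut.none Ext.none)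

def k0_pm_012 : ∃ t, chk3 f_pm_012 t 1 2 1 = true :=
  ⟨(a (a (a (a (a (l 3) (a (b (l 3) (l 3)) (c (b (c (l 16020640) (l 16012720)) (c (a (l 16001320) (l 16039400)) (l 15995288))) (b (l 15994704) (a (l 15976896) (l 16004192)))))) (a (a (c (b (l 15966392) (b (l 16078704) (l 16073592))) (b (l 16023936) (a (l 16035176) (l 16063992)))) (b (c (l 16134656) (l 16110512)) (c (l 16122976) (l 16097256)))) (a (b (c (l 16174472) (l 16154344)) (c (l 16159912) (l 16139184))) (b (c (l 16203888) (l 16187696)) (c (l 16197320) (l 16180928)))))) (a (b (a (l 16215320) (l 16195704)) (a (l 16209816) (l 16197240))) (a (b (l 16151120) (l 16162408)) (b (l 16064432) (l 16090480))))) (b (l 2) (a (a (a (l 15987424) (a (l 15900560) (a (l 15866944) (a (l 15890376) (l 15912608))))) (c (a (l 16023352) (l 16230264)) (a (l 15994512) (l 16210184)))) (a (c (l 16499480) (l 16554000)) (c (l 16776856) (l 16776864)))))) (l 2)), by decide +kernel⟩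

def k1_pm_012 : ∃ t, chk3 f_pm_012 t 32 3 1 = true :=
  ⟨(b (l 3) (a (l 3) (a (b (l 3) (b (l 3) (c (c (b (l 16250264) (l 16329144)) (c (l 16198432) (l 16238816))) (c (c (b (l 16246752) (l 16323064)) (b (l 16249792) (a (l 16307664) (l 16345184)))) (l 306719799911))))) (b (b (l 3) (c (c (l 15826720) (l 350205200039)) (c (c (l 15763464) (l 15821712)) (l 15811000)))) (c (b (c (b (l 16044760) (l 16098560)) (b (l 16046824) (l 16031056))) (c (b (l 16297696) (l 16339448)) (b (c (l 16315048) (l 16317280)) (c (l 16395728) (l 16396224))))) (b (c (c (a (l 16110976) (l 16140096)) (l 16050456)) (b (l 16038920) (l 16183216))) (c (b (c (l 16318880) (l 16315864)) (c (l 16355504) (l 16394192))) (b (l 16309416) (l 16388096))))))))), by decide +kernel⟩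

def k2_pm_012 : ∃ t, chk3 f_pm_012 t 33 3 1 = true :=
  ⟨(b (c (b (a (c (l 15938064) (l 15938776)) (c (l 16012768) (l 15997912))) (a (b (c (l 368459190967) (a (l 3) (l 15985752))) (c (l 15836264) (a (l 15906656) (l 15976664)))) (b (c (l 16043768) (l 16031464)) (c (a (l 16044688) (l 16099592)) (l 16055072))))) (b (a (l 15924128) (l 15975872)) (b (a (l 15950152) (l 16011216)) (a (l 15927424) (l 15950896))))) (b (c (a (b (c (a (l 15781336) (l 15857560)) (a (b (l 15809360) (l 15755496)) (c (l 15856472) (l 15850712)))) (c (a (l 15892000) (l 15959248)) (a (b (l 15827504) (l 15955496)) (c (l 15957832) (l 15952080))))) (b (c (a (l 15928312) (l 15992416)) (l 15940928)) (c (l 16054688) (l 16031456)))) (b (a (a (b (l 15794472) (l 15739464)) (b (l 15857920) (l 15802632))) (b (l 15945936) (l 15883816))) (a (a (b (l 15813208) (l 15940608)) (l 15764504)) (l 16004352)))) (c (b (a (c (a (l 16031568) (l 16240280)) (a (b (l 16106256) (l 16192016)) (l 16229496))) (c (b (l 16241368) (l 16384464)) (l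 16288848))) (a (c (a (b (l 16388872) (l 16481152)) (b (l 16449984) (l 16529760))) (a (b (l 16383656) (l 16470248)) (b (l 16434256) (l 16509184)))) (a (b (l 16339016) (c (l 16609976) (l 16581944))) (c (l 16450360) (l 16501928))))) (b (a (a (c (l 16172688) (l 16162320)) (l 16185944)) (l 16202240)) (a (b (a (l 16367024) (l 16411168)) (c (l 16461176) (l 16472536))) (b (l 16467464) (a (l 16515184) (l 16606272)))))))), by decide +kernel⟩

def k3_pm_012 : ∃ t, chk3 f_pm_012 t 17 3 1 = true :=
  ⟨(b (a (a (b (l 15985616) (b (l 16027216) (a (l 16047968) (l 16149800)))) (b (l 16098336) (c (b (l 16130664) (l 16207456)) (l 16139336)))) (a (b (c (l 16150800) (l 16129320)) (c (l 16213624) (l 16194096))) (b (l 16177736) (l 16238728)))) (b (a (a (b (c (l 16058464) (l 16022168)) (c (l 16141064) (l 16106120))) (b (c (l 16164744) (l 16137560)) (c (l 16247336) (l 16222536)))) (b (a (l 16253528) (l 16333176)) (a (l 16338576) (l 16435848)))) (b (a (a (c (b (l 16307008) (l 16381000)) (l 16240072)) (b (l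 16385688) (l 16445904))) (c (a (l 16498120) (l 16602816)) (l 16451728))) (b (a (a (c (l 16488384) (l 16544488)) (l 16465936)) (c (l 16366832) (l 16470632))) (a (c (a (l 16458352) (l 16488512)) (l 16389200)) (c (c (l 16308168) (l 16381824)) (l 16336904))))))), by decide +kernel⟩

def k4_pm_012 : ∃ t, chk3 f_pm_012 t 9 3 1 = true :=
  ⟨(b (a (a (b (l 16201416) (l 16260336)) (b (l 16192928) (l 16250608))) (a (b (l 16164280) (l 16222208)) (l 16128488))) (a (b (a (b (l 16301224) (l 16524064)) (b (l 16386160) (l 16492912))) (b (a (b (l 16561488) (l 16430760)) (l 16260736)) (a (c (l 16184040) (l 16117256)) (c (l 16159416) (l 16152392))))) (b (a (b (l 16353648) (l 16380376)) (b (l 16288824) (l 16557176))) (b (a (a (l 16269192) (l 16218672)) (l 16066936)) (a (c (l 16031424) (l 16021224)) (l 15924400)))))), by decide +kernel⟩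

def k5_pm_012 : ∃ t, chk3 f_pm_012 t 5 3 1 = true :=
  ⟨(a (b (a (a (l 15910928) (a (l 15956992) (a (l 15924616) (a (l 15945360) (l 15963408))))) (l 16066912)) (a (b (a (b (l 16196512) (l 16454656)) (a (l 16111760) (a (l 16117728) (a (l 16176944) (b (l 16116128) (l 16358440)))))) (a (b (b (l 16320896) (l 16092208)) (b (l 15917784) (l 15791640))) (a (b (l 16254936) (l 15756224)) (a (b (l 16274728) (l 15754688)) (b (a (l 16258600) (l 16161064)) (a (l 15813904) (c (l 15804384) (l 15789560)))))))) (b (b (l 16317168) (l 16545432)) (b (b (l 16200568) (l 15962296)) (l 15492832))))) (b (a (b (c (l 16557760) (l 16552776)) (a (l 16500448) (l 16659216))) (b (l 16776864) (l 16526352))) (a (b (b (l 16641960) (l 16283848)) (b (l 15786040) (l 15296544))) (b (b (c (l 16518648) (l 16511880)) (a (l 16143680) (l 16143272))) (b (a (l 15632752) (l 15632304)) (l 15130120)))))), by decide +kernel⟩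

def k6_pm_012 : ∃ t, chk3 f_pm_012 t 3 3 1 = true :=
  ⟨(b (a (a (c (l 16653832) (l 16736696)) (c (l 16716744) (l 16736696))) (l 2)) (a (b (c (a (b (l 16518512) (l 16151400)) (b (l 16518512) (l 16151400))) (b (a (l 16511792) (l 16511792)) (a (l 16135144) (l 16135144)))) (c (a (b (l 15646792) (l 15148528)) (b (l 15646792) (l 15148528))) (a (b (l 15617760) (l 15111592)) (b (l 15617760) (l 15111592))))) (b (b (l 2) (l 16122296)) (c (a (l 15399608) (l 15399608)) (a (l 15325080) (l 15325080)))))), by decide +kernel⟩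

theorem s7_pm_012 : ∃ t, chk3 f_pm_012 t 16 3 1 = true := ex3_a k1_pm_012 k2_pm_012

theorem s8_pm_012 : ∃ t, chk3 f_pm_012 t 8 3 1 = true := ex3_a s7_pm_012 k3_pm_012

theorem s9_pm_012 : ∃ t, chk3 f_pm_012 t 4 3 1 = true := ex3_a s8_pm_012 k4_pm_012

theorem s10_pm_012 : ∃ t, chk3 f_pm_012 t 2 3 1 = true := ex3_a s9_pm_012 k5_pm_012

theorem s11_pm_012 : ∃ t, chk3 f_pm_012 t 1 3 1 = true := ex3_a s10_pm_012 k6_pm_012

theorem s12_pm_012 : ∃ t, chk3 f_pm_012 t 1 1 1 = true := ex3_b k0_pm_012 s11_pm_012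

theorem c_pm_012 : CertFX 67108864 469762048 536870912 469762048 1046898278 26843546 true true false .pnp 0 1 2
    ndF1q0 ndF5q1 pcF2 Cut.none Ext.none :=
  certFX2 (fam := true) (s1 := true) (s2 := false) (a := 0) (b := 1) (c := 2) (cn := .pnp) (n1 := ndF1q0) (n2 := ndF5q1) (pc := pcF2) (cut := Cut.none) (xt := Ext.none) (P1 := 67108864) (W1 := 469762048) (P2 := 536870912) (W2 := 469762048) (P3 := 1046898278) (W3 := 26843546)
    rfl (fun _ => rfl) s12_pm_012

end Pool.Agent.Strip051.G.IE1.Tab.C.FA15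

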