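import Pool.Agent.Strip051.G.IE1.AsmH
import Pool.Agent.Strip051.G.IE1.TrF12
import Pool.Agent.Strip051.G.IE1.TrF13
import Pool.Agent.Strip051.G.IE1.TrF14
import Pool.Agent.Strip051.G.IE1.TrF15
import Pool.Agent.Strip051.G.IE1.CubF
import Pool.Agent.Strip051.G.IE1.St1
import Pool.Agent.Strip051.G.IE1.St2
import Pool.Agent.Strip051.G.IE1.St3

/-! # Rows from certificates (generated) -/

set_option linter.all false
set_option maxRecDepth 100000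

namespace Pool.Agent.Strip051.G.IE1.Tab

open Pool.Agent.Strip051.PB Pool.Agent.StripNear Pool.Agent.Strip051.LC

theorem FA06_pp_001 {κ x : ℝ} (hκ : κ * h0 = kenE x) (hx : 39 / 40 ≤ x) (hx' : x < 1) :
    TriA (DD x).cur (farD κ (h0 * x) (tbl tKF x) (tbl tL x)) 0 0 1 0 6 1 1 :=
  (sideF hx hx').farA (Or.inl rfl) (Or.inl rfl) fun y y' F r1 r2 =>
    farXA_cert (s1 := true) (s2 := true) rfl hκ (ka0 hκ hx hx') (xa0 hx) hx' (covF00 hx hx') (covF60 hx hx') (x1 hx) (x2 hx')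
        Pool.Agent.Strip051.G.IE1.Tab.C.FA06.c_pp_001 noCut_VA noExt_VA F r1 r2 r1 r2

theorem FA06_pp_011 {κ x : ℝ} (hκ : κ * h0 = kenE x) (hx : 39 / 40 ≤ x) (hx' : x < 1) :
    TriA (DD x).cur (farD κ (h0 * x) (tbl tKF x) (tbl tL x)) 0 1 1 0 6 1 1 :=
  (sideF hx hx').farA (Or.inl rfl) (Or.inl rfl) fun y y' F r1 r2 =>
    farXA_cert (s1 := true) (s2 := true) rfl hκ (ka0 hκ hx hx') (xa0 hx) hx' (covF00 hx hx') (covF61 hx hx') (x1 hx) (x2 hx')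
        Pool.Agent.Strip051.G.IE1.Tab.C.FA06.c_pp_011 noCut_VA noExt_VA F r1 r2 r1 r2

theorem FA06_pp_012 {κ x : ℝ} (hκ : κ * h0 = kenE x) (hx : 39 / 40 ≤ x) (hx' : x < 1) :
    TriA (DD x).cur (farD κ (h0 * x) (tbl tKF x) (tbl tL x)) 0 1 2 0 6 1 1 :=
  (sideF hx hx').farA (Or.inl rfl) (Or.inl rfl) fun y y' F r1 r2 =>
    farXA_cert (s1 := true) (s2 := true) rfl hκ (ka0 hκ hx hx') (xa0 hx) hx' (covF00 hx hx') (covF61 hx hx') (x1 hx) (x2 hx')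
        Pool.Agent.Strip051.G.IE1.Tab.C.FA06.c_pp_012 noCut_VA noExt_VA F r1 r2 r1 r2

theorem FA06_pp_022 {κ x : ℝ} (hκ : κ * h0 = kenE x) (hx : 39 / 40 ≤ x) (hx' : x < 1) :
    TriA (DD x).cur (farD κ (h0 * x) (tbl tKF x) (tbl tL x)) 0 2 2 0 6 1 1 :=
  (sideF hx hx').farA (Or.inl rfl) (Or.inl rfl) fun y y' F r1 r2 =>
    farXA_cert (s1 := true) (s2 := true) rfl hκ (ka0 hκ hx hx') (xa0 hx) hx' (covF00 hx hx') (covF62 hx hx') (x1 hx) (x2 hx')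
        Pool.Agent.Strip051.G.IE1.Tab.C.FA06.c_pp_022 noCut_VA noExt_VA F r1 r2 r1 r2

theorem FA06_pp_023 {κ x : ℝ} (hκ : κ * h0 = kenE x) (hx : 39 / 40 ≤ x) (hx' : x < 1) :
    TriA (DD x).cur (farD κ (h0 * x) (tbl tKF x) (tbl tL x)) 0 2 3 0 6 1 1 :=
  (sideF hx hx').farA (Or.inl rfl) (Or.inl rfl) fun y y' F r1 r2 =>
    farXA_cert (s1 := true) (s2 := true) rfl hκ (ka0 hκ hx hx') (xa0 hx) hx' (covF00 hx hx') (covF62 hx hx') (x1 hx) (x2 hx')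
        Pool.Agent.Strip051.G.IE1.Tab.C.FA06.c_pp_023 noCut_VA noExt_VA F r1 r2 r1 r2

theorem FA06_pp_033 {κ x : ℝ} (hκ : κ * h0 = kenE x) (hx : 39 / 40 ≤ x) (hx' : x < 1) :
    TriA (DD x).cur (farD κ (h0 * x) (tbl tKF x) (tbl tL x)) 0 3 3 0 6 1 1 :=
  (sideF hx hx').farA (Or.inl rfl) (Or.inl rfl) fun y y' F r1 r2 =>
    farXA_cert (s1 := true) (s2 := true) rfl hκ (ka0 hκ hx hx') (xa0 hx) hx' (covF00 hx hx') (covF63 hx hx') (x1 hx) (x2 hx')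
        Pool.Agent.Strip051.G.IE1.Tab.C.FA06.c_pp_033 noCut_VA noExt_VA F r1 r2 r1 r2

theorem FA06_pp_101 {κ x : ℝ} (hκ : κ * h0 = kenE x) (hx : 39 / 40 ≤ x) (hx' : x < 1) :
    TriA (DD x).cur (farD κ (h0 * x) (tbl tKF x) (tbl tL x)) 1 0 1 0 6 1 1 :=
  (sideF hx hx').farA (Or.inl rfl) (Or.inl rfl) fun y y' F r1 r2 =>
    farXA_cert (s1 := true) (s2 := true) rfl hκ (ka0 hκ hx hx') (xa0 hx) hx' (covF01 hx hx') (covF60 hx hx') (x1 hx) (x2 hx')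
        Pool.Agent.Strip051.G.IE1.Tab.C.FA06.c_pp_101 noCut_VA noExt_VA F r1 r2 r1 r2

theorem FA06_pp_102 {κ x : ℝ} (hκ : κ * h0 = kenE x) (hx : 39 / 40 ≤ x) (hx' : x < 1) :
    TriA (DD x).cur (farD κ (h0 * x) (tbl tKF x) (tbl tL x)) 1 0 2 0 6 1 1 :=
  (sideF hx hx').farA (Or.inl rfl) (Or.inl rfl) fun y y' F r1 r2 =>
    farXA_cert (s1 := true) (s2 := true) rfl hκ (ka0 hκ hx hx') (xa0 hx) hx' (covF01 hx hx') (covF60 hx hx') (x1 hx) (x2 hx')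
        Pool.Agent.Strip051.G.IE1.Tab.C.FA06.c_pp_102 noCut_VA noExt_VA F r1 r2 r1 r2

theorem FA06_pp_112 {κ x : ℝ} (hκ : κ * h0 = kenE x) (hx : 39 / 40 ≤ x) (hx' : x < 1) :
    TriA (DD x).cur (farD κ (h0 * x) (tbl tKF x) (tbl tL x)) 1 1 2 0 6 1 1 :=
  (sideF hx hx').farA (Or.inl rfl) (Or.inl rfl) fun y y' F r1 r2 =>
    farXA_cert (s1 := true) (s2 := true) rfl hκ (ka0 hκ hx hx') (xa0 hx) hx' (covF01 hx hx') (covF61 hx hx') (x1 hx) (x2 hx')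
        Pool.Agent.Strip051.G.IE1.Tab.C.FA06.c_pp_112 noCut_VA noExt_VA F r1 r2 r1 r2

theorem FA06_pp_113 {κ x : ℝ} (hκ : κ * h0 = kenE x) (hx : 39 / 40 ≤ x) (hx' : x < 1) :
    TriA (DD x).cur (farD κ (h0 * x) (tbl tKF x) (tbl tL x)) 1 1 3 0 6 1 1 :=
  (sideF hx hx').farA (Or.inl rfl) (Or.inl rfl) fun y y' F r1 r2 =>
    farXA_cert (s1 := true) (s2 := true) rfl hκ (ka0 hκ hx hx') (xa0 hx) hx' (covF01 hx hx') (covF61 hx hx') (x1 hx) (x2 hx')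
        Pool.Agent.Strip051.G.IE1.Tab.C.FA06.c_pp_113 noCut_VA noExt_VA F r1 r2 r1 r2

theorem FA06_pp_123 {κ x : ℝ} (hκ : κ * h0 = kenE x) (hx : 39 / 40 ≤ x) (hx' : x < 1) :
    TriA (DD x).cur (farD κ (h0 * x) (tbl tKF x) (tbl tL x)) 1 2 3 0 6 1 1 :=
  (sideF hx hx').farA (Or.inl rfl) (Or.inl rfl) fun y y' F r1 r2 =>
    farXA_cert (s1 := true) (s2 := true) rfl hκ (ka0 hκ hx hx') (xa0 hx) hx' (covF01 hx hx') (covF62 hx hx') (x1 hx) (x2 hx')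
        Pool.Agent.Strip051.G.IE1.Tab.C.FA06.c_pp_123 noCut_VA noExt_VA F r1 r2 r1 r2

theorem FA06_pp_133 {κ x : ℝ} (hκ : κ * h0 = kenE x) (hx : 39 / 40 ≤ x) (hx' : x < 1) :
    TriA (DD x).cur (farD κ (h0 * x) (tbl tKF x) (tbl tL x)) 1 3 3 0 6 1 1 :=
  (sideF hx hx').farA (Or.inl rfl) (Or.inl rfl) fun y y' F r1 r2 =>
    farXA_cert (s1 := true) (s2 := true) rfl hκ (ka0 hκ hx hx') (xa0 hx) hx' (covF01 hx hx') (covF63 hx hx') (x1 hx) (x2 hx')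
        Pool.Agent.Strip051.G.IE1.Tab.C.FA06.c_pp_133 noCut_VA noExt_VA F r1 r2 r1 r2

theorem FA06_pp_202 {κ x : ℝ} (hκ : κ * h0 = kenE x) (hx : 39 / 40 ≤ x) (hx' : x < 1) :
    TriA (DD x).cur (farD κ (h0 * x) (tbl tKF x) (tbl tL x)) 2 0 2 0 6 1 1 :=
  (sideF hx hx').farA (Or.inl rfl) (Or.inl rfl) fun y y' F r1 r2 =>
    farXA_cert (s1 := true) (s2 := true) rfl hκ (ka0 hκ hx hx') (xa0 hx) hx' (covF02 hx hx') (covF60 hx hx') (x1 hx) (x2 hx')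
        Pool.Agent.Strip051.G.IE1.Tab.C.FA06.c_pp_202 noCut_VA noExt_VA F r1 r2 r1 r2

theorem FA06_pp_203 {κ x : ℝ} (hκ : κ * h0 = kenE x) (hx : 39 / 40 ≤ x) (hx' : x < 1) :
    TriA (DD x).cur (farD κ (h0 * x) (tbl tKF x) (tbl tL x)) 2 0 3 0 6 1 1 :=
  (sideF hx hx').farA (Or.inl rfl) (Or.inl rfl) fun y y' F r1 r2 =>
    farXA_cert (s1 := true) (s2 := true) rfl hκ (ka0 hκ hx hx') (xa0 hx) hx' (covF02 hx hx') (covF60 hx hx') (x1 hx) (x2 hx')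
        Pool.Agent.Strip051.G.IE1.Tab.C.FA06.c_pp_203 noCut_VA noExt_VA F r1 r2 r1 r2

theorem FA06_pp_213 {κ x : ℝ} (hκ : κ * h0 = kenE x) (hx : 39 / 40 ≤ x) (hx' : x < 1) :
    TriA (DD x).cur (farD κ (h0 * x) (tbl tKF x) (tbl tL x)) 2 1 3 0 6 1 1 :=
  (sideF hx hx').farA (Or.inl rfl) (Or.inl rfl) fun y y' F r1 r2 =>
    farXA_cert (s1 := true) (s2 := true) rfl hκ (ka0 hκ hx hx') (xa0 hx) hx' (covF02 hx hx') (covF61 hx hx') (x1 hx) (x2 hx')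
        Pool.Agent.Strip051.G.IE1.Tab.C.FA06.c_pp_213 noCut_VA noExt_VA F r1 r2 r1 r2

theorem FA06_pp_303 {κ x : ℝ} (hκ : κ * h0 = kenE x) (hx : 39 / 40 ≤ x) (hx' : x < 1) :
    TriA (DD x).cur (farD κ (h0 * x) (tbl tKF x) (tbl tL x)) 3 0 3 0 6 1 1 :=
  triVA_j0

theorem FA06_pp_313 {κ x : ℝ} (hκ : κ * h0 = kenE x) (hx : 39 / 40 ≤ x) (hx' : x < 1) :
    TriA (DD x).cur (farD κ (h0 * x) (tbl tKF x) (tbl tL x)) 3 1 3 0 6 1 1 :=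
  triVA_j0

theorem FA06_pm_001 {κ x : ℝ} (hκ : κ * h0 = kenE x) (hx : 39 / 40 ≤ x) (hx' : x < 1) :
    TriA (DD x).cur (farD κ (h0 * x) (tbl tKF x) (tbl tL x)) 0 0 1 0 6 1 (-1) :=
  (sideF hx hx').farA (Or.inl rfl) (Or.inr rfl) fun y y' F r1 r2 =>
    farXA_cert (s1 := true) (s2 := false) rfl hκ (ka0 hκ hx hx') (xa0 hx) hx' (covF00 hx hx') (covF60 hx hx') (x1 hx) (x2 hx')
        Pool.Agent.Strip051.G.IE1.Tab.C.FA06.c_pm_001 noCut_VA noExt_VA F r1 r2 r1 r2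

theorem FA06_pm_011 {κ x : ℝ} (hκ : κ * h0 = kenE x) (hx : 39 / 40 ≤ x) (hx' : x < 1) :
    TriA (DD x).cur (farD κ (h0 * x) (tbl tKF x) (tbl tL x)) 0 1 1 0 6 1 (-1) :=
  (sideF hx hx').farA (Or.inl rfl) (Or.inr rfl) fun y y' F r1 r2 =>
    farXA_cert (s1 := true) (s2 := false) rfl hκ (ka0 hκ hx hx') (xa0 hx) hx' (covF00 hx hx') (covF61 hx hx') (x1 hx) (x2 hx')
        Pool.Agent.Strip051.G.IE1.Tab.C.FA06.c_pm_011 noCut_VA noExt_VA F r1 r2 r1 r2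

theorem FA06_pm_012 {κ x : ℝ} (hκ : κ * h0 = kenE x) (hx : 39 / 40 ≤ x) (hx' : x < 1) :
    TriA (DD x).cur (farD κ (h0 * x) (tbl tKF x) (tbl tL x)) 0 1 2 0 6 1 (-1) :=
  (sideF hx hx').farA (Or.inl rfl) (Or.inr rfl) fun y y' F r1 r2 =>
    farXA_cert (s1 := true) (s2 := false) rfl hκ (ka0 hκ hx hx') (xa0 hx) hx' (covF00 hx hx') (covF61 hx hx') (x1 hx) (x2 hx')
        Pool.Agent.Strip051.G.IE1.Tab.C.FA06.c_pm_012 noCut_VA noExt_VA F r1 r2 r1 r2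

theorem FA06_pm_022 {κ x : ℝ} (hκ : κ * h0 = kenE x) (hx : 39 / 40 ≤ x) (hx' : x < 1) :
    TriA (DD x).cur (farD κ (h0 * x) (tbl tKF x) (tbl tL x)) 0 2 2 0 6 1 (-1) :=
  (sideF hx hx').farA (Or.inl rfl) (Or.inr rfl) fun y y' F r1 r2 =>
    farXA_cert (s1 := true) (s2 := false) rfl hκ (ka0 hκ hx hx') (xa0 hx) hx' (covF00 hx hx') (covF62 hx hx') (x1 hx) (x2 hx')
        Pool.Agent.Strip051.G.IE1.Tab.C.FA06.c_pm_022 noCut_VA noExt_VA F r1 r2 r1 r2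

theorem FA06_pm_023 {κ x : ℝ} (hκ : κ * h0 = kenE x) (hx : 39 / 40 ≤ x) (hx' : x < 1) :
    TriA (DD x).cur (farD κ (h0 * x) (tbl tKF x) (tbl tL x)) 0 2 3 0 6 1 (-1) :=
  (sideF hx hx').farA (Or.inl rfl) (Or.inr rfl) fun y y' F r1 r2 =>
    farXA_cert (s1 := true) (s2 := false) rfl hκ (ka0 hκ hx hx') (xa0 hx) hx' (covF00 hx hx') (covF62 hx hx') (x1 hx) (x2 hx')
        Pool.Agent.Strip051.G.IE1.Tab.C.FA06.c_pm_023 noCut_VA noExt_VA F r1 r2 r1 r2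

theorem FA06_pm_033 {κ x : ℝ} (hκ : κ * h0 = kenE x) (hx : 39 / 40 ≤ x) (hx' : x < 1) :
    TriA (DD x).cur (farD κ (h0 * x) (tbl tKF x) (tbl tL x)) 0 3 3 0 6 1 (-1) :=
  (sideF hx hx').farA (Or.inl rfl) (Or.inr rfl) fun y y' F r1 r2 =>
    farXA_cert (s1 := true) (s2 := false) rfl hκ (ka0 hκ hx hx') (xa0 hx) hx' (covF00 hx hx') (covF63 hx hx') (x1 hx) (x2 hx')
        Pool.Agent.Strip051.G.IE1.Tab.C.FA06.c_pm_033 noCut_VA noExt_VA F r1 r2 r1 r2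

theorem FA06_pm_101 {κ x : ℝ} (hκ : κ * h0 = kenE x) (hx : 39 / 40 ≤ x) (hx' : x < 1) :
    TriA (DD x).cur (farD κ (h0 * x) (tbl tKF x) (tbl tL x)) 1 0 1 0 6 1 (-1) :=
  (sideF hx hx').farA (Or.inl rfl) (Or.inr rfl) fun y y' F r1 r2 =>
    farXA_cert (s1 := true) (s2 := false) rfl hκ (ka0 hκ hx hx') (xa0 hx) hx' (covF01 hx hx') (covF60 hx hx') (x1 hx) (x2 hx')
        Pool.Agent.Strip051.G.IE1.Tab.C.FA06.c_pm_101 noCut_VA noExt_VA F r1 r2 r1 r2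

theorem FA06_pm_102 {κ x : ℝ} (hκ : κ * h0 = kenE x) (hx : 39 / 40 ≤ x) (hx' : x < 1) :
    TriA (DD x).cur (farD κ (h0 * x) (tbl tKF x) (tbl tL x)) 1 0 2 0 6 1 (-1) :=
  (sideF hx hx').farA (Or.inl rfl) (Or.inr rfl) fun y y' F r1 r2 =>
    farXA_cert (s1 := true) (s2 := false) rfl hκ (ka0 hκ hx hx') (xa0 hx) hx' (covF01 hx hx') (covF60 hx hx') (x1 hx) (x2 hx')
        Pool.Agent.Strip051.G.IE1.Tab.C.FA06.c_pm_102 noCut_VA noExt_VA F r1 r2 r1 r2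

theorem FA06_pm_112 {κ x : ℝ} (hκ : κ * h0 = kenE x) (hx : 39 / 40 ≤ x) (hx' : x < 1) :
    TriA (DD x).cur (farD κ (h0 * x) (tbl tKF x) (tbl tL x)) 1 1 2 0 6 1 (-1) :=
  (sideF hx hx').farA (Or.inl rfl) (Or.inr rfl) fun y y' F r1 r2 =>
    farXA_cert (s1 := true) (s2 := false) rfl hκ (ka0 hκ hx hx') (xa0 hx) hx' (covF01 hx hx') (covF61 hx hx') (x1 hx) (x2 hx')
        Pool.Agent.Strip051.G.IE1.Tab.C.FA06.c_pm_112 noCut_VA noExt_VA F r1 r2 r1 r2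

theorem FA06_pm_113 {κ x : ℝ} (hκ : κ * h0 = kenE x) (hx : 39 / 40 ≤ x) (hx' : x < 1) :
    TriA (DD x).cur (farD κ (h0 * x) (tbl tKF x) (tbl tL x)) 1 1 3 0 6 1 (-1) :=
  (sideF hx hx').farA (Or.inl rfl) (Or.inr rfl) fun y y' F r1 r2 =>
    farXA_cert (s1 := true) (s2 := false) rfl hκ (ka0 hκ hx hx') (xa0 hx) hx' (covF01 hx hx') (covF61 hx hx') (x1 hx) (x2 hx')
        Pool.Agent.Strip051.G.IE1.Tab.C.FA06.c_pm_113 noCut_VA noExt_VA F r1 r2 r1 r2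

theorem FA06_pm_123 {κ x : ℝ} (hκ : κ * h0 = kenE x) (hx : 39 / 40 ≤ x) (hx' : x < 1) :
    TriA (DD x).cur (farD κ (h0 * x) (tbl tKF x) (tbl tL x)) 1 2 3 0 6 1 (-1) :=
  (sideF hx hx').farA (Or.inl rfl) (Or.inr rfl) fun y y' F r1 r2 =>
    farXA_cert (s1 := true) (s2 := false) rfl hκ (ka0 hκ hx hx') (xa0 hx) hx' (covF01 hx hx') (covF62 hx hx') (x1 hx) (x2 hx')
        Pool.Agent.Strip051.G.IE1.Tab.C.FA06.c_pm_123 noCut_VA noExt_VA F r1 r2 r1 r2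

theorem FA06_pm_133 {κ x : ℝ} (hκ : κ * h0 = kenE x) (hx : 39 / 40 ≤ x) (hx' : x < 1) :
    TriA (DD x).cur (farD κ (h0 * x) (tbl tKF x) (tbl tL x)) 1 3 3 0 6 1 (-1) :=
  (sideF hx hx').farA (Or.inl rfl) (Or.inr rfl) fun y y' F r1 r2 =>
    farXA_cert (s1 := true) (s2 := false) rfl hκ (ka0 hκ hx hx') (xa0 hx) hx' (covF01 hx hx') (covF63 hx hx') (x1 hx) (x2 hx')
        Pool.Agent.Strip051.G.IE1.Tab.C.FA06.c_pm_133 noCut_VA noExt_VA F r1 r2 r1 r2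

theorem FA06_pm_202 {κ x : ℝ} (hκ : κ * h0 = kenE x) (hx : 39 / 40 ≤ x) (hx' : x < 1) :
    TriA (DD x).cur (farD κ (h0 * x) (tbl tKF x) (tbl tL x)) 2 0 2 0 6 1 (-1) :=
  (sideF hx hx').farA (Or.inl rfl) (Or.inr rfl) fun y y' F r1 r2 =>
    farXA_cert (s1 := true) (s2 := false) rfl hκ (ka0 hκ hx hx') (xa0 hx) hx' (covF02 hx hx') (covF60 hx hx') (x1 hx) (x2 hx')
        Pool.Agent.Strip051.G.IE1.Tab.C.FA06.c_pm_202 noCut_VA noExt_VA F r1 r2 r1 r2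

theorem FA06_pm_203 {κ x : ℝ} (hκ : κ * h0 = kenE x) (hx : 39 / 40 ≤ x) (hx' : x < 1) :
    TriA (DD x).cur (farD κ (h0 * x) (tbl tKF x) (tbl tL x)) 2 0 3 0 6 1 (-1) :=
  (sideF hx hx').farA (Or.inl rfl) (Or.inr rfl) fun y y' F r1 r2 =>
    farXA_cert (s1 := true) (s2 := false) rfl hκ (ka0 hκ hx hx') (xa0 hx) hx' (covF02 hx hx') (covF60 hx hx') (x1 hx) (x2 hx')
        Pool.Agent.Strip051.G.IE1.Tab.C.FA06.c_pm_203 noCut_VA noExt_VA F r1 r2 r1 r2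

theorem FA06_pm_213 {κ x : ℝ} (hκ : κ * h0 = kenE x) (hx : 39 / 40 ≤ x) (hx' : x < 1) :
    TriA (DD x).cur (farD κ (h0 * x) (tbl tKF x) (tbl tL x)) 2 1 3 0 6 1 (-1) :=
  (sideF hx hx').farA (Or.inl rfl) (Or.inr rfl) fun y y' F r1 r2 =>
    farXA_cert (s1 := true) (s2 := false) rfl hκ (ka0 hκ hx hx') (xa0 hx) hx' (covF02 hx hx') (covF61 hx hx') (x1 hx) (x2 hx')
        Pool.Agent.Strip051.G.IE1.Tab.C.FA06.c_pm_213 noCut_VA noExt_VA F r1 r2 r1 r2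

theorem FA06_pm_303 {κ x : ℝ} (hκ : κ * h0 = kenE x) (hx : 39 / 40 ≤ x) (hx' : x < 1) :
    TriA (DD x).cur (farD κ (h0 * x) (tbl tKF x) (tbl tL x)) 3 0 3 0 6 1 (-1) :=
  triVA_j0

theorem FA06_pm_313 {κ x : ℝ} (hκ : κ * h0 = kenE x) (hx : 39 / 40 ≤ x) (hx' : x < 1) :
    TriA (DD x).cur (farD κ (h0 * x) (tbl tKF x) (tbl tL x)) 3 1 3 0 6 1 (-1) :=
  triVA_j0

theorem FA06_mm_001 {κ x : ℝ} (hκ : κ * h0 = kenE x) (hx : 39 / 40 ≤ x) (hx' : x < 1) :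
    TriA (DD x).cur (farD κ (h0 * x) (tbl tKF x) (tbl tL x)) 0 0 1 0 6 (-1) (-1) :=
  (sideF hx hx').farA (Or.inr rfl) (Or.inr rfl) fun y y' F r1 r2 =>
    farXA_cert (s1 := false) (s2 := false) rfl hκ (ka0 hκ hx hx') (xa0 hx) hx' (covF00 hx hx') (covF60 hx hx') (x1 hx) (x2 hx')
        Pool.Agent.Strip051.G.IE1.Tab.C.FA06.c_mm_001 noCut_VA noExt_VA F r1 r2 r1 r2

theorem FA06_mm_011 {κ x : ℝ} (hκ : κ * h0 = kenE x) (hx : 39 / 40 ≤ x) (hx' : x < 1) :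
    TriA (DD x).cur (farD κ (h0 * x) (tbl tKF x) (tbl tL x)) 0 1 1 0 6 (-1) (-1) :=
  (sideF hx hx').farA (Or.inr rfl) (Or.inr rfl) fun y y' F r1 r2 =>
    farXA_cert (s1 := false) (s2 := false) rfl hκ (ka0 hκ hx hx') (xa0 hx) hx' (covF00 hx hx') (covF61 hx hx') (x1 hx) (x2 hx')
        Pool.Agent.Strip051.G.IE1.Tab.C.FA06.c_mm_011 noCut_VA noExt_VA F r1 r2 r1 r2

theorem FA06_mm_012 {κ x : ℝ} (hκ : κ * h0 = kenE x) (hx : 39 / 40 ≤ x) (hx' : x < 1) :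
    TriA (DD x).cur (farD κ (h0 * x) (tbl tKF x) (tbl tL x)) 0 1 2 0 6 (-1) (-1) :=
  (sideF hx hx').farA (Or.inr rfl) (Or.inr rfl) fun y y' F r1 r2 =>
    farXA_cert (s1 := false) (s2 := false) rfl hκ (ka0 hκ hx hx') (xa0 hx) hx' (covF00 hx hx') (covF61 hx hx') (x1 hx) (x2 hx')
        Pool.Agent.Strip051.G.IE1.Tab.C.FA06.c_mm_012 noCut_VA noExt_VA F r1 r2 r1 r2

theorem FA06_mm_022 {κ x : ℝ} (hκ : κ * h0 = kenE x) (hx : 39 / 40 ≤ x) (hx' : x < 1) :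
    TriA (DD x).cur (farD κ (h0 * x) (tbl tKF x) (tbl tL x)) 0 2 2 0 6 (-1) (-1) :=
  (sideF hx hx').farA (Or.inr rfl) (Or.inr rfl) fun y y' F r1 r2 =>
    farXA_cert (s1 := false) (s2 := false) rfl hκ (ka0 hκ hx hx') (xa0 hx) hx' (covF00 hx hx') (covF62 hx hx') (x1 hx) (x2 hx')
        Pool.Agent.Strip051.G.IE1.Tab.C.FA06.c_mm_022 noCut_VA noExt_VA F r1 r2 r1 r2

theorem FA06_mm_023 {κ x : ℝ} (hκ : κ * h0 = kenE x) (hx : 39 / 40 ≤ x) (hx' : x < 1) :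
    TriA (DD x).cur (farD κ (h0 * x) (tbl tKF x) (tbl tL x)) 0 2 3 0 6 (-1) (-1) :=
  (sideF hx hx').farA (Or.inr rfl) (Or.inr rfl) fun y y' F r1 r2 =>
    farXA_cert (s1 := false) (s2 := false) rfl hκ (ka0 hκ hx hx') (xa0 hx) hx' (covF00 hx hx') (covF62 hx hx') (x1 hx) (x2 hx')
        Pool.Agent.Strip051.G.IE1.Tab.C.FA06.c_mm_023 noCut_VA noExt_VA F r1 r2 r1 r2

theorem FA06_mm_033 {κ x : ℝ} (hκ : κ * h0 = kenE x) (hx : 39 / 40 ≤ x) (hx' : x < 1) :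
    TriA (DD x).cur (farD κ (h0 * x) (tbl tKF x) (tbl tL x)) 0 3 3 0 6 (-1) (-1) :=
  (sideF hx hx').farA (Or.inr rfl) (Or.inr rfl) fun y y' F r1 r2 =>
    farXA_cert (s1 := false) (s2 := false) rfl hκ (ka0 hκ hx hx') (xa0 hx) hx' (covF00 hx hx') (covF63 hx hx') (x1 hx) (x2 hx')
        Pool.Agent.Strip051.G.IE1.Tab.C.FA06.c_mm_033 noCut_VA noExt_VA F r1 r2 r1 r2

theorem FA06_mm_101 {κ x : ℝ} (hκ : κ * h0 = kenE x) (hx : 39 / 40 ≤ x) (hx' : x < 1) :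
    TriA (DD x).cur (farD κ (h0 * x) (tbl tKF x) (tbl tL x)) 1 0 1 0 6 (-1) (-1) :=
  (sideF hx hx').farA (Or.inr rfl) (Or.inr rfl) fun y y' F r1 r2 =>
    farXA_cert (s1 := false) (s2 := false) rfl hκ (ka0 hκ hx hx') (xa0 hx) hx' (covF01 hx hx') (covF60 hx hx') (x1 hx) (x2 hx')
        Pool.Agent.Strip051.G.IE1.Tab.C.FA06.c_mm_101 noCut_VA noExt_VA F r1 r2 r1 r2

theorem FA06_mm_102 {κ x : ℝ} (hκ : κ * h0 = kenE x) (hx : 39 / 40 ≤ x) (hx' : x < 1) :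
    TriA (DD x).cur (farD κ (h0 * x) (tbl tKF x) (tbl tL x)) 1 0 2 0 6 (-1) (-1) :=
  (sideF hx hx').farA (Or.inr rfl) (Or.inr rfl) fun y y' F r1 r2 =>
    farXA_cert (s1 := false) (s2 := false) rfl hκ (ka0 hκ hx hx') (xa0 hx) hx' (covF01 hx hx') (covF60 hx hx') (x1 hx) (x2 hx')
        Pool.Agent.Strip051.G.IE1.Tab.C.FA06.c_mm_102 noCut_VA noExt_VA F r1 r2 r1 r2

theorem FA06_mm_112 {κ x : ℝ} (hκ : κ * h0 = kenE x) (hx : 39 / 40 ≤ x) (hx' : x < 1) :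
    TriA (DD x).cur (farD κ (h0 * x) (tbl tKF x) (tbl tL x)) 1 1 2 0 6 (-1) (-1) :=
  (sideF hx hx').farA (Or.inr rfl) (Or.inr rfl) fun y y' F r1 r2 =>
    farXA_cert (s1 := false) (s2 := false) rfl hκ (ka0 hκ hx hx') (xa0 hx) hx' (covF01 hx hx') (covF61 hx hx') (x1 hx) (x2 hx')
        Pool.Agent.Strip051.G.IE1.Tab.C.FA06.c_mm_112 noCut_VA noExt_VA F r1 r2 r1 r2

theorem FA06_mm_113 {κ x : ℝ} (hκ : κ * h0 = kenE x) (hx : 39 / 40 ≤ x) (hx' : x < 1) :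
    TriA (DD x).cur (farD κ (h0 * x) (tbl tKF x) (tbl tL x)) 1 1 3 0 6 (-1) (-1) :=
  (sideF hx hx').farA (Or.inr rfl) (Or.inr rfl) fun y y' F r1 r2 =>
    farXA_cert (s1 := false) (s2 := false) rfl hκ (ka0 hκ hx hx') (xa0 hx) hx' (covF01 hx hx') (covF61 hx hx') (x1 hx) (x2 hx')
        Pool.Agent.Strip051.G.IE1.Tab.C.FA06.c_mm_113 noCut_VA noExt_VA F r1 r2 r1 r2

theorem FA06_mm_123 {κ x : ℝ} (hκ : κ * h0 = kenE x) (hx : 39 / 40 ≤ x) (hx' : x < 1) :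
    TriA (DD x).cur (farD κ (h0 * x) (tbl tKF x) (tbl tL x)) 1 2 3 0 6 (-1) (-1) :=
  (sideF hx hx').farA (Or.inr rfl) (Or.inr rfl) fun y y' F r1 r2 =>
    farXA_cert (s1 := false) (s2 := false) rfl hκ (ka0 hκ hx hx') (xa0 hx) hx' (covF01 hx hx') (covF62 hx hx') (x1 hx) (x2 hx')
        Pool.Agent.Strip051.G.IE1.Tab.C.FA06.c_mm_123 noCut_VA noExt_VA F r1 r2 r1 r2

theorem FA06_mm_133 {κ x : ℝ} (hκ : κ * h0 = kenE x) (hx : 39 / 40 ≤ x) (hx' : x < 1) :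
    TriA (DD x).cur (farD κ (h0 * x) (tbl tKF x) (tbl tL x)) 1 3 3 0 6 (-1) (-1) :=
  (sideF hx hx').farA (Or.inr rfl) (Or.inr rfl) fun y y' F r1 r2 =>
    farXA_cert (s1 := false) (s2 := false) rfl hκ (ka0 hκ hx hx') (xa0 hx) hx' (covF01 hx hx') (covF63 hx hx') (x1 hx) (x2 hx')
        Pool.Agent.Strip051.G.IE1.Tab.C.FA06.c_mm_133 noCut_VA noExt_VA F r1 r2 r1 r2

theorem FA06_mm_202 {κ x : ℝ} (hκ : κ * h0 = kenE x) (hx : 39 / 40 ≤ x) (hx' : x < 1) :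
    TriA (DD x).cur (farD κ (h0 * x) (tbl tKF x) (tbl tL x)) 2 0 2 0 6 (-1) (-1) :=
  (sideF hx hx').farA (Or.inr rfl) (Or.inr rfl) fun y y' F r1 r2 =>
    farXA_cert (s1 := false) (s2 := false) rfl hκ (ka0 hκ hx hx') (xa0 hx) hx' (covF02 hx hx') (covF60 hx hx') (x1 hx) (x2 hx')
        Pool.Agent.Strip051.G.IE1.Tab.C.FA06.c_mm_202 noCut_VA noExt_VA F r1 r2 r1 r2

theorem FA06_mm_203 {κ x : ℝ} (hκ : κ * h0 = kenE x) (hx : 39 / 40 ≤ x) (hx' : x < 1) :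
    TriA (DD x).cur (farD κ (h0 * x) (tbl tKF x) (tbl tL x)) 2 0 3 0 6 (-1) (-1) :=
  (sideF hx hx').farA (Or.inr rfl) (Or.inr rfl) fun y y' F r1 r2 =>
    farXA_cert (s1 := false) (s2 := false) rfl hκ (ka0 hκ hx hx') (xa0 hx) hx' (covF02 hx hx') (covF60 hx hx') (x1 hx) (x2 hx')
        Pool.Agent.Strip051.G.IE1.Tab.C.FA06.c_mm_203 noCut_VA noExt_VA F r1 r2 r1 r2

theorem FA06_mm_213 {κ x : ℝ} (hκ : κ * h0 = kenE x) (hx : 39 / 40 ≤ x) (hx' : x < 1) :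
    TriA (DD x).cur (farD κ (h0 * x) (tbl tKF x) (tbl tL x)) 2 1 3 0 6 (-1) (-1) :=
  (sideF hx hx').farA (Or.inr rfl) (Or.inr rfl) fun y y' F r1 r2 =>
    farXA_cert (s1 := false) (s2 := false) rfl hκ (ka0 hκ hx hx') (xa0 hx) hx' (covF02 hx hx') (covF61 hx hx') (x1 hx) (x2 hx')
        Pool.Agent.Strip051.G.IE1.Tab.C.FA06.c_mm_213 noCut_VA noExt_VA F r1 r2 r1 r2

theorem FA06_mm_303 {κ x : ℝ} (hκ : κ * h0 = kenE x) (hx : 39 / 40 ≤ x) (hx' : x < 1) :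
    TriA (DD x).cur (farD κ (h0 * x) (tbl tKF x) (tbl tL x)) 3 0 3 0 6 (-1) (-1) :=
  triVA_j0

theorem FA06_mm_313 {κ x : ℝ} (hκ : κ * h0 = kenE x) (hx : 39 / 40 ≤ x) (hx' : x < 1) :
    TriA (DD x).cur (farD κ (h0 * x) (tbl tKF x) (tbl tL x)) 3 1 3 0 6 (-1) (-1) :=
  triVA_j0

theorem FA06 {κ x : ℝ} (hκ : κ * h0 = kenE x) (hx : 39 / 40 ≤ x) (hx' : x < 1) : AllTA (DD x).cur (farD κ (h0 * x) (tbl tKF x) (tbl tL x)) 0 6 where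
  pp := all17 (Q := fun a b c => TriA (DD x).cur (farD κ (h0 * x) (tbl tKF x) (tbl tL x)) a b c 0 6 1 1)
    (FA06_pp_001 hκ hx hx') (FA06_pp_011 hκ hx hx') (FA06_pp_012 hκ hx hx') (FA06_pp_022 hκ hx hx') (FA06_pp_023 hκ hx hx') (FA06_pp_033 hκ hx hx') (FA06_pp_101 hκ hx hx') (FA06_pp_102 hκ hx hx') (FA06_pp_112 hκ hx hx') (FA06_pp_113 hκ hx hx') (FA06_pp_123 hκ hx hx') (FA06_pp_133 hκ hx hx') (FA06_pp_202 hκ hx hx') (FA06_pp_203 hκ hx hx') (FA06_pp_213 hκ hx hx') (FA06_pp_303 hκ hx hx') (FA06_pp_313 hκ hx hx')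
  pm := all17 (Q := fun a b c => TriA (DD x).cur (farD κ (h0 * x) (tbl tKF x) (tbl tL x)) a b c 0 6 1 (-1))
    (FA06_pm_001 hκ hx hx') (FA06_pm_011 hκ hx hx') (FA06_pm_012 hκ hx hx') (FA06_pm_022 hκ hx hx') (FA06_pm_023 hκ hx hx') (FA06_pm_033 hκ hx hx') (FA06_pm_101 hκ hx hx') (FA06_pm_102 hκ hx hx') (FA06_pm_112 hκ hx hx') (FA06_pm_113 hκ hx hx') (FA06_pm_123 hκ hx hx') (FA06_pm_133 hκ hx hx') (FA06_pm_202 hκ hx hx') (FA06_pm_203 hκ hx hx') (FA06_pm_213 hκ hx hx') (FA06_pm_303 hκ hx hx') (FA06_pm_313 hκ hx hx')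
  mm := all17 (Q := fun a b c => TriA (DD x).cur (farD κ (h0 * x) (tbl tKF x) (tbl tL x)) a b c 0 6 (-1) (-1))
    (FA06_mm_001 hκ hx hx') (FA06_mm_011 hκ hx hx') (FA06_mm_012 hκ hx hx') (FA06_mm_022 hκ hx hx') (FA06_mm_023 hκ hx hx') (FA06_mm_033 hκ hx hx') (FA06_mm_101 hκ hx hx') (FA06_mm_102 hκ hx hx') (FA06_mm_112 hκ hx hx') (FA06_mm_113 hκ hx hx') (FA06_mm_123 hκ hx hx') (FA06_mm_133 hκ hx hx') (FA06_mm_202 hκ hx hx') (FA06_mm_203 hκ hx hx') (FA06_mm_213 hκ hx hx') (FA06_mm_303 hκ hx hx') (FA06_mm_313 hκ hx hx')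

theorem FA07_pp_001 {κ x : ℝ} (hκ : κ * h0 = kenE x) (hx : 39 / 40 ≤ x) (hx' : x < 1) :
    TriA (DD x).cur (farD κ (h0 * x) (tbl tKF x) (tbl tL x)) 0 0 1 0 7 1 1 :=
  (sideF hx hx').farA (Or.inl rfl) (Or.inl rfl) fun y y' F r1 r2 =>
    farXA_cert (s1 := true) (s2 := true) rfl hκ (ka0 hκ hx hx') (xa0 hx) hx' (covF00 hx hx') (covF70 hx hx') (x1 hx) (x2 hx')
        Pool.Agent.Strip051.G.IE1.Tab.C.FA07.c_pp_001 (cutVA_cons (Pool.Agent.Strip051.G.IE1.Tab.St.C.s_A07pp_001_s1 hκ hx hx') cutVA_nil) noExt_VA F r1 r2 r1 r2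

theorem FA07_pp_011 {κ x : ℝ} (hκ : κ * h0 = kenE x) (hx : 39 / 40 ≤ x) (hx' : x < 1) :
    TriA (DD x).cur (farD κ (h0 * x) (tbl tKF x) (tbl tL x)) 0 1 1 0 7 1 1 :=
  (sideF hx hx').farA (Or.inl rfl) (Or.inl rfl) fun y y' F r1 r2 =>
    farXA_cert (s1 := true) (s2 := true) rfl hκ (ka0 hκ hx hx') (xa0 hx) hx' (covF00 hx hx') (covF71 hx hx') (x1 hx) (x2 hx')
        Pool.Agent.Strip051.G.IE1.Tab.C.FA07.c_pp_011 (cutVA_cons (Pool.Agent.Strip051.G.IE1.Tab.St.C.s_A07pp_011_s1 hκ hx hx') cutVA_nil) noExt_VA F r1 r2 r1 r2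

theorem FA07_pp_012 {κ x : ℝ} (hκ : κ * h0 = kenE x) (hx : 39 / 40 ≤ x) (hx' : x < 1) :
    TriA (DD x).cur (farD κ (h0 * x) (tbl tKF x) (tbl tL x)) 0 1 2 0 7 1 1 :=
  (sideF hx hx').farA (Or.inl rfl) (Or.inl rfl) fun y y' F r1 r2 =>
    farXA_cert (s1 := true) (s2 := true) rfl hκ (ka0 hκ hx hx') (xa0 hx) hx' (covF00 hx hx') (covF71 hx hx') (x1 hx) (x2 hx')
        Pool.Agent.Strip051.G.IE1.Tab.C.FA07.c_pp_012 (cutVA_cons (Pool.Agent.Strip051.G.IE1.Tab.St.C.s_A07pp_012_s1 hκ hx hx') cutVA_nil) noExt_VA F r1 r2 r1 r2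

theorem FA07_pp_022 {κ x : ℝ} (hκ : κ * h0 = kenE x) (hx : 39 / 40 ≤ x) (hx' : x < 1) :
    TriA (DD x).cur (farD κ (h0 * x) (tbl tKF x) (tbl tL x)) 0 2 2 0 7 1 1 :=
  (sideF hx hx').farA (Or.inl rfl) (Or.inl rfl) fun y y' F r1 r2 =>
    farXA_cert (s1 := true) (s2 := true) rfl hκ (ka0 hκ hx hx') (xa0 hx) hx' (covF00 hx hx') (covF72 hx hx') (x1 hx) (x2 hx')
        Pool.Agent.Strip051.G.IE1.Tab.C.FA07.c_pp_022 (cutVA_cons (Pool.Agent.Strip051.G.IE1.Tab.St.C.s_A07pp_022_s1 hκ hx hx') cutVA_nil) noExt_VA F r1 r2 r1 r2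

theorem FA07_pp_023 {κ x : ℝ} (hκ : κ * h0 = kenE x) (hx : 39 / 40 ≤ x) (hx' : x < 1) :
    TriA (DD x).cur (farD κ (h0 * x) (tbl tKF x) (tbl tL x)) 0 2 3 0 7 1 1 :=
  (sideF hx hx').farA (Or.inl rfl) (Or.inl rfl) fun y y' F r1 r2 =>
    farXA_cert (s1 := true) (s2 := true) rfl hκ (ka0 hκ hx hx') (xa0 hx) hx' (covF00 hx hx') (covF72 hx hx') (x1 hx) (x2 hx')
        Pool.Agent.Strip051.G.IE1.Tab.C.FA07.c_pp_023 (cutVA_cons (Pool.Agent.Strip051.G.IE1.Tab.St.C.s_A07pp_023_s1 hκ hx hx') cutVA_nil) noExt_VA F r1 r2 r1 r2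

theorem FA07_pp_033 {κ x : ℝ} (hκ : κ * h0 = kenE x) (hx : 39 / 40 ≤ x) (hx' : x < 1) :
    TriA (DD x).cur (farD κ (h0 * x) (tbl tKF x) (tbl tL x)) 0 3 3 0 7 1 1 :=
  (sideF hx hx').farA (Or.inl rfl) (Or.inl rfl) fun y y' F r1 r2 =>
    farXA_cert (s1 := true) (s2 := true) rfl hκ (ka0 hκ hx hx') (xa0 hx) hx' (covF00 hx hx') (covF73 hx hx') (x1 hx) (x2 hx')
        Pool.Agent.Strip051.G.IE1.Tab.C.FA07.c_pp_033 (cutVA_cons (Pool.Agent.Strip051.G.IE1.Tab.St.C.s_A07pp_033_s1 hκ hx hx') cutVA_nil) noExt_VA F r1 r2 r1 r2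

theorem FA07_pp_101 {κ x : ℝ} (hκ : κ * h0 = kenE x) (hx : 39 / 40 ≤ x) (hx' : x < 1) :
    TriA (DD x).cur (farD κ (h0 * x) (tbl tKF x) (tbl tL x)) 1 0 1 0 7 1 1 :=
  (sideF hx hx').farA (Or.inl rfl) (Or.inl rfl) fun y y' F r1 r2 =>
    farXA_cert (s1 := true) (s2 := true) rfl hκ (ka0 hκ hx hx') (xa0 hx) hx' (covF01 hx hx') (covF70 hx hx') (x1 hx) (x2 hx')
        Pool.Agent.Strip051.G.IE1.Tab.C.FA07.c_pp_101 (cutVA_cons (Pool.Agent.Strip051.G.IE1.Tab.St.C.s_A07pp_101_s1 hκ hx hx') cutVA_nil) noExt_VA F r1 r2 r1 r2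

theorem FA07_pp_102 {κ x : ℝ} (hκ : κ * h0 = kenE x) (hx : 39 / 40 ≤ x) (hx' : x < 1) :
    TriA (DD x).cur (farD κ (h0 * x) (tbl tKF x) (tbl tL x)) 1 0 2 0 7 1 1 :=
  (sideF hx hx').farA (Or.inl rfl) (Or.inl rfl) fun y y' F r1 r2 =>
    farXA_cert (s1 := true) (s2 := true) rfl hκ (ka0 hκ hx hx') (xa0 hx) hx' (covF01 hx hx') (covF70 hx hx') (x1 hx) (x2 hx')
        Pool.Agent.Strip051.G.IE1.Tab.C.FA07.c_pp_102 (cutVA_cons (Pool.Agent.Strip051.G.IE1.Tab.St.C.s_A07pp_102_s1 hκ hx hx') cutVA_nil) noExt_VA F r1 r2 r1 r2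

theorem FA07_pp_112 {κ x : ℝ} (hκ : κ * h0 = kenE x) (hx : 39 / 40 ≤ x) (hx' : x < 1) :
    TriA (DD x).cur (farD κ (h0 * x) (tbl tKF x) (tbl tL x)) 1 1 2 0 7 1 1 :=
  (sideF hx hx').farA (Or.inl rfl) (Or.inl rfl) fun y y' F r1 r2 =>
    farXA_cert (s1 := true) (s2 := true) rfl hκ (ka0 hκ hx hx') (xa0 hx) hx' (covF01 hx hx') (covF71 hx hx') (x1 hx) (x2 hx')
        Pool.Agent.Strip051.G.IE1.Tab.C.FA07.c_pp_112 (cutVA_cons (Pool.Agent.Strip051.G.IE1.Tab.St.C.s_A07pp_112_s1 hκ hx hx') cutVA_nil) noExt_VA F r1 r2 r1 r2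

theorem FA07_pp_113 {κ x : ℝ} (hκ : κ * h0 = kenE x) (hx : 39 / 40 ≤ x) (hx' : x < 1) :
    TriA (DD x).cur (farD κ (h0 * x) (tbl tKF x) (tbl tL x)) 1 1 3 0 7 1 1 :=
  (sideF hx hx').farA (Or.inl rfl) (Or.inl rfl) fun y y' F r1 r2 =>
    farXA_cert (s1 := true) (s2 := true) rfl hκ (ka0 hκ hx hx') (xa0 hx) hx' (covF01 hx hx') (covF71 hx hx') (x1 hx) (x2 hx')
        Pool.Agent.Strip051.G.IE1.Tab.C.FA07.c_pp_113 (cutVA_cons (Pool.Agent.Strip051.G.IE1.Tab.St.C.s_A07pp_113_s1 hκ hx hx') cutVA_nil) noExt_VA F r1 r2 r1 r2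

theorem FA07_pp_123 {κ x : ℝ} (hκ : κ * h0 = kenE x) (hx : 39 / 40 ≤ x) (hx' : x < 1) :
    TriA (DD x).cur (farD κ (h0 * x) (tbl tKF x) (tbl tL x)) 1 2 3 0 7 1 1 :=
  (sideF hx hx').farA (Or.inl rfl) (Or.inl rfl) fun y y' F r1 r2 =>
    farXA_cert (s1 := true) (s2 := true) rfl hκ (ka0 hκ hx hx') (xa0 hx) hx' (covF01 hx hx') (covF72 hx hx') (x1 hx) (x2 hx')
        Pool.Agent.Strip051.G.IE1.Tab.C.FA07.c_pp_123 (cutVA_cons (Pool.Agent.Strip051.G.IE1.Tab.St.C.s_A07pp_123_s1 hκ hx hx') cutVA_nil) noExt_VA F r1 r2 r1 r2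

theorem FA07_pp_133 {κ x : ℝ} (hκ : κ * h0 = kenE x) (hx : 39 / 40 ≤ x) (hx' : x < 1) :
    TriA (DD x).cur (farD κ (h0 * x) (tbl tKF x) (tbl tL x)) 1 3 3 0 7 1 1 :=
  (sideF hx hx').farA (Or.inl rfl) (Or.inl rfl) fun y y' F r1 r2 =>
    farXA_cert (s1 := true) (s2 := true) rfl hκ (ka0 hκ hx hx') (xa0 hx) hx' (covF01 hx hx') (covF73 hx hx') (x1 hx) (x2 hx')
        Pool.Agent.Strip051.G.IE1.Tab.C.FA07.c_pp_133 (cutVA_cons (Pool.Agent.Strip051.G.IE1.Tab.St.C.s_A07pp_133_s1 hκ hx hx') cutVA_nil) noExt_VA F r1 r2 r1 r2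

theorem FA07_pp_202 {κ x : ℝ} (hκ : κ * h0 = kenE x) (hx : 39 / 40 ≤ x) (hx' : x < 1) :
    TriA (DD x).cur (farD κ (h0 * x) (tbl tKF x) (tbl tL x)) 2 0 2 0 7 1 1 :=
  (sideF hx hx').farA (Or.inl rfl) (Or.inl rfl) fun y y' F r1 r2 =>
    farXA_cert (s1 := true) (s2 := true) rfl hκ (ka0 hκ hx hx') (xa0 hx) hx' (covF02 hx hx') (covF70 hx hx') (x1 hx) (x2 hx')
        Pool.Agent.Strip051.G.IE1.Tab.C.FA07.c_pp_202 (cutVA_cons (Pool.Agent.Strip051.G.IE1.Tab.St.C.s_A07pp_202_s1 hκ hx hx') cutVA_nil) noExt_VA F r1 r2 r1 r2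

theorem FA07_pp_203 {κ x : ℝ} (hκ : κ * h0 = kenE x) (hx : 39 / 40 ≤ x) (hx' : x < 1) :
    TriA (DD x).cur (farD κ (h0 * x) (tbl tKF x) (tbl tL x)) 2 0 3 0 7 1 1 :=
  (sideF hx hx').farA (Or.inl rfl) (Or.inl rfl) fun y y' F r1 r2 =>
    farXA_cert (s1 := true) (s2 := true) rfl hκ (ka0 hκ hx hx') (xa0 hx) hx' (covF02 hx hx') (covF70 hx hx') (x1 hx) (x2 hx')
        Pool.Agent.Strip051.G.IE1.Tab.C.FA07.c_pp_203 (cutVA_cons (Pool.Agent.Strip051.G.IE1.Tab.St.C.s_A07pp_203_s1 hκ hx hx') cutVA_nil) noExt_VA F r1 r2 r1 r2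

theorem FA07_pp_213 {κ x : ℝ} (hκ : κ * h0 = kenE x) (hx : 39 / 40 ≤ x) (hx' : x < 1) :
    TriA (DD x).cur (farD κ (h0 * x) (tbl tKF x) (tbl tL x)) 2 1 3 0 7 1 1 :=
  (sideF hx hx').farA (Or.inl rfl) (Or.inl rfl) fun y y' F r1 r2 =>
    farXA_cert (s1 := true) (s2 := true) rfl hκ (ka0 hκ hx hx') (xa0 hx) hx' (covF02 hx hx') (covF71 hx hx') (x1 hx) (x2 hx')
        Pool.Agent.Strip051.G.IE1.Tab.C.FA07.c_pp_213 (cutVA_cons (Pool.Agent.Strip051.G.IE1.Tab.St.C.s_A07pp_213_s1 hκ hx hx') cutVA_nil) noExt_VA F r1 r2 r1 r2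

theorem FA07_pp_303 {κ x : ℝ} (hκ : κ * h0 = kenE x) (hx : 39 / 40 ≤ x) (hx' : x < 1) :
    TriA (DD x).cur (farD κ (h0 * x) (tbl tKF x) (tbl tL x)) 3 0 3 0 7 1 1 :=
  triVA_j0

theorem FA07_pp_313 {κ x : ℝ} (hκ : κ * h0 = kenE x) (hx : 39 / 40 ≤ x) (hx' : x < 1) :
    TriA (DD x).cur (farD κ (h0 * x) (tbl tKF x) (tbl tL x)) 3 1 3 0 7 1 1 :=
  triVA_j0

theorem FA07_pm_001 {κ x : ℝ} (hκ : κ * h0 = kenE x) (hx : 39 / 40 ≤ x) (hx' : x < 1) :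
    TriA (DD x).cur (farD κ (h0 * x) (tbl tKF x) (tbl tL x)) 0 0 1 0 7 1 (-1) :=
  (sideF hx hx').farA (Or.inl rfl) (Or.inr rfl) fun y y' F r1 r2 =>
    farXA_cert (s1 := true) (s2 := false) rfl hκ (ka0 hκ hx hx') (xa0 hx) hx' (covF00 hx hx') (covF70 hx hx') (x1 hx) (x2 hx')
        Pool.Agent.Strip051.G.IE1.Tab.C.FA07.c_pm_001 (cutVA_cons (Pool.Agent.Strip051.G.IE1.Tab.St.C.s_A07pm_001_s1 hκ hx hx') cutVA_nil) noExt_VA F r1 r2 r1 r2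

theorem FA07_pm_011 {κ x : ℝ} (hκ : κ * h0 = kenE x) (hx : 39 / 40 ≤ x) (hx' : x < 1) :
    TriA (DD x).cur (farD κ (h0 * x) (tbl tKF x) (tbl tL x)) 0 1 1 0 7 1 (-1) :=
  (sideF hx hx').farA (Or.inl rfl) (Or.inr rfl) fun y y' F r1 r2 =>
    farXA_cert (s1 := true) (s2 := false) rfl hκ (ka0 hκ hx hx') (xa0 hx) hx' (covF00 hx hx') (covF71 hx hx') (x1 hx) (x2 hx')
        Pool.Agent.Strip051.G.IE1.Tab.C.FA07.c_pm_011 (cutVA_cons (Pool.Agent.Strip051.G.IE1.Tab.St.C.s_A07pm_011_s1 hκ hx hx' (cutVA_cons (Pool.Agent.Strip051.G.IE1.Tab.qF_A07pm_011_011 hκ hx hx') cutVA_nil)) (cutVA_cons (Pool.Agent.Strip051.G.IE1.Tab.qF_A07pm_011_011 hκ hx hx') cutVA_nil)) noExt_VA F r1 r2 r1 r2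

theorem FA07_pm_012 {κ x : ℝ} (hκ : κ * h0 = kenE x) (hx : 39 / 40 ≤ x) (hx' : x < 1) :
    TriA (DD x).cur (farD κ (h0 * x) (tbl tKF x) (tbl tL x)) 0 1 2 0 7 1 (-1) :=
  (sideF hx hx').farA (Or.inl rfl) (Or.inr rfl) fun y y' F r1 r2 =>
    farXA_cert (s1 := true) (s2 := false) rfl hκ (ka0 hκ hx hx') (xa0 hx) hx' (covF00 hx hx') (covF71 hx hx') (x1 hx) (x2 hx')
        Pool.Agent.Strip051.G.IE1.Tab.C.FA07.c_pm_012 (cutVA_cons (Pool.Agent.Strip051.G.IE1.Tab.St.C.s_A07pm_012_s1 hκ hx hx' (cutVA_cons (Pool.Agent.Strip051.G.IE1.Tab.qF_A07pm_012_011 hκ hx hx') cutVA_nil)) (cutVA_cons (Pool.Agent.Strip051.G.IE1.Tab.qF_A07pm_012_011 hκ hx hx') cutVA_nil)) noExt_VA F r1 r2 r1 r2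

theorem FA07_pm_022 {κ x : ℝ} (hκ : κ * h0 = kenE x) (hx : 39 / 40 ≤ x) (hx' : x < 1) :
    TriA (DD x).cur (farD κ (h0 * x) (tbl tKF x) (tbl tL x)) 0 2 2 0 7 1 (-1) :=
  (sideF hx hx').farA (Or.inl rfl) (Or.inr rfl) fun y y' F r1 r2 =>
    farXA_cert (s1 := true) (s2 := false) rfl hκ (ka0 hκ hx hx') (xa0 hx) hx' (covF00 hx hx') (covF72 hx hx') (x1 hx) (x2 hx')
        Pool.Agent.Strip051.G.IE1.Tab.C.FA07.c_pm_022 (cutVA_cons (Pool.Agent.Strip051.G.IE1.Tab.St.C.s_A07pm_022_s1 hκ hx hx' (cutVA_cons (Pool.Agent.Strip051.G.IE1.Tab.qF_A07pm_022_011 hκ hx hx') cutVA_nil)) (cutVA_cons (Pool.Agent.Strip051.G.IE1.Tab.qF_A07pm_022_011 hκ hx hx') cutVA_nil)) noExt_VA F r1 r2 r1 r2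

theorem FA07_pm_023 {κ x : ℝ} (hκ : κ * h0 = kenE x) (hx : 39 / 40 ≤ x) (hx' : x < 1) :
    TriA (DD x).cur (farD κ (h0 * x) (tbl tKF x) (tbl tL x)) 0 2 3 0 7 1 (-1) :=
  (sideF hx hx').farA (Or.inl rfl) (Or.inr rfl) fun y y' F r1 r2 =>
    farXA_cert (s1 := true) (s2 := false) rfl hκ (ka0 hκ hx hx') (xa0 hx) hx' (covF00 hx hx') (covF72 hx hx') (x1 hx) (x2 hx')
        Pool.Agent.Strip051.G.IE1.Tab.C.FA07.c_pm_023 (cutVA_cons (Pool.Agent.Strip051.G.IE1.Tab.St.C.s_A07pm_023_s1 hκ hx hx') cutVA_nil) noExt_VA F r1 r2 r1 r2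

theorem FA07_pm_033 {κ x : ℝ} (hκ : κ * h0 = kenE x) (hx : 39 / 40 ≤ x) (hx' : x < 1) :
    TriA (DD x).cur (farD κ (h0 * x) (tbl tKF x) (tbl tL x)) 0 3 3 0 7 1 (-1) :=
  (sideF hx hx').farA (Or.inl rfl) (Or.inr rfl) fun y y' F r1 r2 =>
    farXA_cert (s1 := true) (s2 := false) rfl hκ (ka0 hκ hx hx') (xa0 hx) hx' (covF00 hx hx') (covF73 hx hx') (x1 hx) (x2 hx')
        Pool.Agent.Strip051.G.IE1.Tab.C.FA07.c_pm_033 (cutVA_cons (Pool.Agent.Strip051.G.IE1.Tab.St.C.s_A07pm_033_s1 hκ hx hx') cutVA_nil) noExt_VA F r1 r2 r1 r2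

theorem FA07_pm_101 {κ x : ℝ} (hκ : κ * h0 = kenE x) (hx : 39 / 40 ≤ x) (hx' : x < 1) :
    TriA (DD x).cur (farD κ (h0 * x) (tbl tKF x) (tbl tL x)) 1 0 1 0 7 1 (-1) :=
  (sideF hx hx').farA (Or.inl rfl) (Or.inr rfl) fun y y' F r1 r2 =>
    farXA_cert (s1 := true) (s2 := false) rfl hκ (ka0 hκ hx hx') (xa0 hx) hx' (covF01 hx hx') (covF70 hx hx') (x1 hx) (x2 hx')
        Pool.Agent.Strip051.G.IE1.Tab.C.FA07.c_pm_101 (cutVA_cons (Pool.Agent.Strip051.G.IE1.Tab.St.C.s_A07pm_101_s1 hκ hx hx') cutVA_nil) noExt_VA F r1 r2 r1 r2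

theorem FA07_pm_102 {κ x : ℝ} (hκ : κ * h0 = kenE x) (hx : 39 / 40 ≤ x) (hx' : x < 1) :
    TriA (DD x).cur (farD κ (h0 * x) (tbl tKF x) (tbl tL x)) 1 0 2 0 7 1 (-1) :=
  (sideF hx hx').farA (Or.inl rfl) (Or.inr rfl) fun y y' F r1 r2 =>
    farXA_cert (s1 := true) (s2 := false) rfl hκ (ka0 hκ hx hx') (xa0 hx) hx' (covF01 hx hx') (covF70 hx hx') (x1 hx) (x2 hx')
        Pool.Agent.Strip051.G.IE1.Tab.C.FA07.c_pm_102 (cutVA_cons (Pool.Agent.Strip051.G.IE1.Tab.St.C.s_A07pm_102_s1 hκ hx hx') cutVA_nil) noExt_VA F r1 r2 r1 r2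

theorem FA07_pm_112 {κ x : ℝ} (hκ : κ * h0 = kenE x) (hx : 39 / 40 ≤ x) (hx' : x < 1) :
    TriA (DD x).cur (farD κ (h0 * x) (tbl tKF x) (tbl tL x)) 1 1 2 0 7 1 (-1) :=
  (sideF hx hx').farA (Or.inl rfl) (Or.inr rfl) fun y y' F r1 r2 =>
    farXA_cert (s1 := true) (s2 := false) rfl hκ (ka0 hκ hx hx') (xa0 hx) hx' (covF01 hx hx') (covF71 hx hx') (x1 hx) (x2 hx')
        Pool.Agent.Strip051.G.IE1.Tab.C.FA07.c_pm_112 (cutVA_cons (Pool.Agent.Strip051.G.IE1.Tab.St.C.s_A07pm_112_s1 hκ hx hx') cutVA_nil) noExt_VA F r1 r2 r1 r2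

theorem FA07_pm_113 {κ x : ℝ} (hκ : κ * h0 = kenE x) (hx : 39 / 40 ≤ x) (hx' : x < 1) :
    TriA (DD x).cur (farD κ (h0 * x) (tbl tKF x) (tbl tL x)) 1 1 3 0 7 1 (-1) :=
  (sideF hx hx').farA (Or.inl rfl) (Or.inr rfl) fun y y' F r1 r2 =>
    farXA_cert (s1 := true) (s2 := false) rfl hκ (ka0 hκ hx hx') (xa0 hx) hx' (covF01 hx hx') (covF71 hx hx') (x1 hx) (x2 hx')
        Pool.Agent.Strip051.G.IE1.Tab.C.FA07.c_pm_113 (cutVA_cons (Pool.Agent.Strip051.G.IE1.Tab.St.C.s_A07pm_113_s1 hκ hx hx') cutVA_nil) noExt_VA F r1 r2 r1 r2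

theorem FA07_pm_123 {κ x : ℝ} (hκ : κ * h0 = kenE x) (hx : 39 / 40 ≤ x) (hx' : x < 1) :
    TriA (DD x).cur (farD κ (h0 * x) (tbl tKF x) (tbl tL x)) 1 2 3 0 7 1 (-1) :=
  (sideF hx hx').farA (Or.inl rfl) (Or.inr rfl) fun y y' F r1 r2 =>
    farXA_cert (s1 := true) (s2 := false) rfl hκ (ka0 hκ hx hx') (xa0 hx) hx' (covF01 hx hx') (covF72 hx hx') (x1 hx) (x2 hx')
        Pool.Agent.Strip051.G.IE1.Tab.C.FA07.c_pm_123 (cutVA_cons (Pool.Agent.Strip051.G.IE1.Tab.St.C.s_A07pm_123_s1 hκ hx hx') cutVA_nil) noExt_VA F r1 r2 r1 r2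

theorem FA07_pm_133 {κ x : ℝ} (hκ : κ * h0 = kenE x) (hx : 39 / 40 ≤ x) (hx' : x < 1) :
    TriA (DD x).cur (farD κ (h0 * x) (tbl tKF x) (tbl tL x)) 1 3 3 0 7 1 (-1) :=
  (sideF hx hx').farA (Or.inl rfl) (Or.inr rfl) fun y y' F r1 r2 =>
    farXA_cert (s1 := true) (s2 := false) rfl hκ (ka0 hκ hx hx') (xa0 hx) hx' (covF01 hx hx') (covF73 hx hx') (x1 hx) (x2 hx')
        Pool.Agent.Strip051.G.IE1.Tab.C.FA07.c_pm_133 (cutVA_cons (Pool.Agent.Strip051.G.IE1.Tab.St.C.s_A07pm_133_s1 hκ hx hx') cutVA_nil) noExt_VA F r1 r2 r1 r2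

theorem FA07_pm_202 {κ x : ℝ} (hκ : κ * h0 = kenE x) (hx : 39 / 40 ≤ x) (hx' : x < 1) :
    TriA (DD x).cur (farD κ (h0 * x) (tbl tKF x) (tbl tL x)) 2 0 2 0 7 1 (-1) :=
  (sideF hx hx').farA (Or.inl rfl) (Or.inr rfl) fun y y' F r1 r2 =>
    farXA_cert (s1 := true) (s2 := false) rfl hκ (ka0 hκ hx hx') (xa0 hx) hx' (covF02 hx hx') (covF70 hx hx') (x1 hx) (x2 hx')
        Pool.Agent.Strip051.G.IE1.Tab.C.FA07.c_pm_202 (cutVA_cons (Pool.Agent.Strip051.G.IE1.Tab.St.C.s_A07pm_202_s1 hκ hx hx') cutVA_nil) noExt_VA F r1 r2 r1 r2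

theorem FA07_pm_203 {κ x : ℝ} (hκ : κ * h0 = kenE x) (hx : 39 / 40 ≤ x) (hx' : x < 1) :
    TriA (DD x).cur (farD κ (h0 * x) (tbl tKF x) (tbl tL x)) 2 0 3 0 7 1 (-1) :=
  (sideF hx hx').farA (Or.inl rfl) (Or.inr rfl) fun y y' F r1 r2 =>
    farXA_cert (s1 := true) (s2 := false) rfl hκ (ka0 hκ hx hx') (xa0 hx) hx' (covF02 hx hx') (covF70 hx hx') (x1 hx) (x2 hx')
        Pool.Agent.Strip051.G.IE1.Tab.C.FA07.c_pm_203 (cutVA_cons (Pool.Agent.Strip051.G.IE1.Tab.St.C.s_A07pm_203_s1 hκ hx hx') cutVA_nil) noExt_VA F r1 r2 r1 r2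

theorem FA07_pm_213 {κ x : ℝ} (hκ : κ * h0 = kenE x) (hx : 39 / 40 ≤ x) (hx' : x < 1) :
    TriA (DD x).cur (farD κ (h0 * x) (tbl tKF x) (tbl tL x)) 2 1 3 0 7 1 (-1) :=
  (sideF hx hx').farA (Or.inl rfl) (Or.inr rfl) fun y y' F r1 r2 =>
    farXA_cert (s1 := true) (s2 := false) rfl hκ (ka0 hκ hx hx') (xa0 hx) hx' (covF02 hx hx') (covF71 hx hx') (x1 hx) (x2 hx')
        Pool.Agent.Strip051.G.IE1.Tab.C.FA07.c_pm_213 (cutVA_cons (Pool.Agent.Strip051.G.IE1.Tab.St.C.s_A07pm_213_s1 hκ hx hx') cutVA_nil) noExt_VA F r1 r2 r1 r2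

theorem FA07_pm_303 {κ x : ℝ} (hκ : κ * h0 = kenE x) (hx : 39 / 40 ≤ x) (hx' : x < 1) :
    TriA (DD x).cur (farD κ (h0 * x) (tbl tKF x) (tbl tL x)) 3 0 3 0 7 1 (-1) :=
  triVA_j0

theorem FA07_pm_313 {κ x : ℝ} (hκ : κ * h0 = kenE x) (hx : 39 / 40 ≤ x) (hx' : x < 1) :
    TriA (DD x).cur (farD κ (h0 * x) (tbl tKF x) (tbl tL x)) 3 1 3 0 7 1 (-1) :=
  triVA_j0

theorem FA07_mm_001 {κ x : ℝ} (hκ : κ * h0 = kenE x) (hx : 39 / 40 ≤ x) (hx' : x < 1) :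
    TriA (DD x).cur (farD κ (h0 * x) (tbl tKF x) (tbl tL x)) 0 0 1 0 7 (-1) (-1) :=
  (sideF hx hx').farA (Or.inr rfl) (Or.inr rfl) fun y y' F r1 r2 =>
    farXA_cert (s1 := false) (s2 := false) rfl hκ (ka0 hκ hx hx') (xa0 hx) hx' (covF00 hx hx') (covF70 hx hx') (x1 hx) (x2 hx')
        Pool.Agent.Strip051.G.IE1.Tab.C.FA07.c_mm_001 (cutVA_cons (Pool.Agent.Strip051.G.IE1.Tab.St.C.s_A07mm_001_s1 hκ hx hx') cutVA_nil) noExt_VA F r1 r2 r1 r2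

theorem FA07_mm_011 {κ x : ℝ} (hκ : κ * h0 = kenE x) (hx : 39 / 40 ≤ x) (hx' : x < 1) :
    TriA (DD x).cur (farD κ (h0 * x) (tbl tKF x) (tbl tL x)) 0 1 1 0 7 (-1) (-1) :=
  (sideF hx hx').farA (Or.inr rfl) (Or.inr rfl) fun y y' F r1 r2 =>
    farXA_cert (s1 := false) (s2 := false) rfl hκ (ka0 hκ hx hx') (xa0 hx) hx' (covF00 hx hx') (covF71 hx hx') (x1 hx) (x2 hx')
        Pool.Agent.Strip051.G.IE1.Tab.C.FA07.c_mm_011 (cutVA_cons (Pool.Agent.Strip051.G.IE1.Tab.St.C.s_A07mm_011_s1 hκ hx hx') cutVA_nil) noExt_VA F r1 r2 r1 r2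

theorem FA07_mm_012 {κ x : ℝ} (hκ : κ * h0 = kenE x) (hx : 39 / 40 ≤ x) (hx' : x < 1) :
    TriA (DD x).cur (farD κ (h0 * x) (tbl tKF x) (tbl tL x)) 0 1 2 0 7 (-1) (-1) :=
  (sideF hx hx').farA (Or.inr rfl) (Or.inr rfl) fun y y' F r1 r2 =>
    farXA_cert (s1 := false) (s2 := false) rfl hκ (ka0 hκ hx hx') (xa0 hx) hx' (covF00 hx hx') (covF71 hx hx') (x1 hx) (x2 hx')
        Pool.Agent.Strip051.G.IE1.Tab.C.FA07.c_mm_012 (cutVA_cons (Pool.Agent.Strip051.G.IE1.Tab.St.C.s_A07mm_012_s1 hκ hx hx') cutVA_nil) noExt_VA F r1 r2 r1 r2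

theorem FA07_mm_022 {κ x : ℝ} (hκ : κ * h0 = kenE x) (hx : 39 / 40 ≤ x) (hx' : x < 1) :
    TriA (DD x).cur (farD κ (h0 * x) (tbl tKF x) (tbl tL x)) 0 2 2 0 7 (-1) (-1) :=
  (sideF hx hx').farA (Or.inr rfl) (Or.inr rfl) fun y y' F r1 r2 =>
    farXA_cert (s1 := false) (s2 := false) rfl hκ (ka0 hκ hx hx') (xa0 hx) hx' (covF00 hx hx') (covF72 hx hx') (x1 hx) (x2 hx')
        Pool.Agent.Strip051.G.IE1.Tab.C.FA07.c_mm_022 (cutVA_cons (Pool.Agent.Strip051.G.IE1.Tab.St.C.s_A07mm_022_s1 hκ hx hx') cutVA_nil) noExt_VA F r1 r2 r1 r2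

theorem FA07_mm_023 {κ x : ℝ} (hκ : κ * h0 = kenE x) (hx : 39 / 40 ≤ x) (hx' : x < 1) :
    TriA (DD x).cur (farD κ (h0 * x) (tbl tKF x) (tbl tL x)) 0 2 3 0 7 (-1) (-1) :=
  (sideF hx hx').farA (Or.inr rfl) (Or.inr rfl) fun y y' F r1 r2 =>
    farXA_cert (s1 := false) (s2 := false) rfl hκ (ka0 hκ hx hx') (xa0 hx) hx' (covF00 hx hx') (covF72 hx hx') (x1 hx) (x2 hx')
        Pool.Agent.Strip051.G.IE1.Tab.C.FA07.c_mm_023 (cutVA_cons (Pool.Agent.Strip051.G.IE1.Tab.St.C.s_A07mm_023_s1 hκ hx hx') cutVA_nil) noExt_VA F r1 r2 r1 r2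

theorem FA07_mm_033 {κ x : ℝ} (hκ : κ * h0 = kenE x) (hx : 39 / 40 ≤ x) (hx' : x < 1) :
    TriA (DD x).cur (farD κ (h0 * x) (tbl tKF x) (tbl tL x)) 0 3 3 0 7 (-1) (-1) :=
  (sideF hx hx').farA (Or.inr rfl) (Or.inr rfl) fun y y' F r1 r2 =>
    farXA_cert (s1 := false) (s2 := false) rfl hκ (ka0 hκ hx hx') (xa0 hx) hx' (covF00 hx hx') (covF73 hx hx') (x1 hx) (x2 hx')
        Pool.Agent.Strip051.G.IE1.Tab.C.FA07.c_mm_033 (cutVA_cons (Pool.Agent.Strip051.G.IE1.Tab.St.C.s_A07mm_033_s1 hκ hx hx') cutVA_nil) noExt_VA F r1 r2 r1 r2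

theorem FA07_mm_101 {κ x : ℝ} (hκ : κ * h0 = kenE x) (hx : 39 / 40 ≤ x) (hx' : x < 1) :
    TriA (DD x).cur (farD κ (h0 * x) (tbl tKF x) (tbl tL x)) 1 0 1 0 7 (-1) (-1) :=
  (sideF hx hx').farA (Or.inr rfl) (Or.inr rfl) fun y y' F r1 r2 =>
    farXA_cert (s1 := false) (s2 := false) rfl hκ (ka0 hκ hx hx') (xa0 hx) hx' (covF01 hx hx') (covF70 hx hx') (x1 hx) (x2 hx')
        Pool.Agent.Strip051.G.IE1.Tab.C.FA07.c_mm_101 (cutVA_cons (Pool.Agent.Strip051.G.IE1.Tab.St.C.s_A07mm_101_s1 hκ hx hx') cutVA_nil) noExt_VA F r1 r2 r1 r2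

theorem FA07_mm_102 {κ x : ℝ} (hκ : κ * h0 = kenE x) (hx : 39 / 40 ≤ x) (hx' : x < 1) :
    TriA (DD x).cur (farD κ (h0 * x) (tbl tKF x) (tbl tL x)) 1 0 2 0 7 (-1) (-1) :=
  (sideF hx hx').farA (Or.inr rfl) (Or.inr rfl) fun y y' F r1 r2 =>
    farXA_cert (s1 := false) (s2 := false) rfl hκ (ka0 hκ hx hx') (xa0 hx) hx' (covF01 hx hx') (covF70 hx hx') (x1 hx) (x2 hx')
        Pool.Agent.Strip051.G.IE1.Tab.C.FA07.c_mm_102 (cutVA_cons (Pool.Agent.Strip051.G.IE1.Tab.St.C.s_A07mm_102_s1 hκ hx hx') cutVA_nil) noExt_VA F r1 r2 r1 r2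

theorem FA07_mm_112 {κ x : ℝ} (hκ : κ * h0 = kenE x) (hx : 39 / 40 ≤ x) (hx' : x < 1) :
    TriA (DD x).cur (farD κ (h0 * x) (tbl tKF x) (tbl tL x)) 1 1 2 0 7 (-1) (-1) :=
  (sideF hx hx').farA (Or.inr rfl) (Or.inr rfl) fun y y' F r1 r2 =>
    farXA_cert (s1 := false) (s2 := false) rfl hκ (ka0 hκ hx hx') (xa0 hx) hx' (covF01 hx hx') (covF71 hx hx') (x1 hx) (x2 hx')
        Pool.Agent.Strip051.G.IE1.Tab.C.FA07.c_mm_112 (cutVA_cons (Pool.Agent.Strip051.G.IE1.Tab.St.C.s_A07mm_112_s1 hκ hx hx') cutVA_nil) noExt_VA F r1 r2 r1 r2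

theorem FA07_mm_113 {κ x : ℝ} (hκ : κ * h0 = kenE x) (hx : 39 / 40 ≤ x) (hx' : x < 1) :
    TriA (DD x).cur (farD κ (h0 * x) (tbl tKF x) (tbl tL x)) 1 1 3 0 7 (-1) (-1) :=
  (sideF hx hx').farA (Or.inr rfl) (Or.inr rfl) fun y y' F r1 r2 =>
    farXA_cert (s1 := false) (s2 := false) rfl hκ (ka0 hκ hx hx') (xa0 hx) hx' (covF01 hx hx') (covF71 hx hx') (x1 hx) (x2 hx')
        Pool.Agent.Strip051.G.IE1.Tab.C.FA07.c_mm_113 (cutVA_cons (Pool.Agent.Strip051.G.IE1.Tab.St.C.s_A07mm_113_s1 hκ hx hx') cutVA_nil) noExt_VA F r1 r2 r1 r2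

theorem FA07_mm_123 {κ x : ℝ} (hκ : κ * h0 = kenE x) (hx : 39 / 40 ≤ x) (hx' : x < 1) :
    TriA (DD x).cur (farD κ (h0 * x) (tbl tKF x) (tbl tL x)) 1 2 3 0 7 (-1) (-1) :=
  (sideF hx hx').farA (Or.inr rfl) (Or.inr rfl) fun y y' F r1 r2 =>
    farXA_cert (s1 := false) (s2 := false) rfl hκ (ka0 hκ hx hx') (xa0 hx) hx' (covF01 hx hx') (covF72 hx hx') (x1 hx) (x2 hx')
        Pool.Agent.Strip051.G.IE1.Tab.C.FA07.c_mm_123 (cutVA_cons (Pool.Agent.Strip051.G.IE1.Tab.St.C.s_A07mm_123_s1 hκ hx hx') cutVA_nil) noExt_VA F r1 r2 r1 r2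

theorem FA07_mm_133 {κ x : ℝ} (hκ : κ * h0 = kenE x) (hx : 39 / 40 ≤ x) (hx' : x < 1) :
    TriA (DD x).cur (farD κ (h0 * x) (tbl tKF x) (tbl tL x)) 1 3 3 0 7 (-1) (-1) :=
  (sideF hx hx').farA (Or.inr rfl) (Or.inr rfl) fun y y' F r1 r2 =>
    farXA_cert (s1 := false) (s2 := false) rfl hκ (ka0 hκ hx hx') (xa0 hx) hx' (covF01 hx hx') (covF73 hx hx') (x1 hx) (x2 hx')
        Pool.Agent.Strip051.G.IE1.Tab.C.FA07.c_mm_133 (cutVA_cons (Pool.Agent.Strip051.G.IE1.Tab.St.C.s_A07mm_133_s1 hκ hx hx') cutVA_nil) noExt_VA F r1 r2 r1 r2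

theorem FA07_mm_202 {κ x : ℝ} (hκ : κ * h0 = kenE x) (hx : 39 / 40 ≤ x) (hx' : x < 1) :
    TriA (DD x).cur (farD κ (h0 * x) (tbl tKF x) (tbl tL x)) 2 0 2 0 7 (-1) (-1) :=
  (sideF hx hx').farA (Or.inr rfl) (Or.inr rfl) fun y y' F r1 r2 =>
    farXA_cert (s1 := false) (s2 := false) rfl hκ (ka0 hκ hx hx') (xa0 hx) hx' (covF02 hx hx') (covF70 hx hx') (x1 hx) (x2 hx')
        Pool.Agent.Strip051.G.IE1.Tab.C.FA07.c_mm_202 (cutVA_cons (Pool.Agent.Strip051.G.IE1.Tab.St.C.s_A07mm_202_s1 hκ hx hx') cutVA_nil) noExt_VA F r1 r2 r1 r2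

theorem FA07_mm_203 {κ x : ℝ} (hκ : κ * h0 = kenE x) (hx : 39 / 40 ≤ x) (hx' : x < 1) :
    TriA (DD x).cur (farD κ (h0 * x) (tbl tKF x) (tbl tL x)) 2 0 3 0 7 (-1) (-1) :=
  (sideF hx hx').farA (Or.inr rfl) (Or.inr rfl) fun y y' F r1 r2 =>
    farXA_cert (s1 := false) (s2 := false) rfl hκ (ka0 hκ hx hx') (xa0 hx) hx' (covF02 hx hx') (covF70 hx hx') (x1 hx) (x2 hx')
        Pool.Agent.Strip051.G.IE1.Tab.C.FA07.c_mm_203 (cutVA_cons (Pool.Agent.Strip051.G.IE1.Tab.St.C.s_A07mm_203_s1 hκ hx hx') cutVA_nil) noExt_VA F r1 r2 r1 r2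

theorem FA07_mm_213 {κ x : ℝ} (hκ : κ * h0 = kenE x) (hx : 39 / 40 ≤ x) (hx' : x < 1) :
    TriA (DD x).cur (farD κ (h0 * x) (tbl tKF x) (tbl tL x)) 2 1 3 0 7 (-1) (-1) :=
  (sideF hx hx').farA (Or.inr rfl) (Or.inr rfl) fun y y' F r1 r2 =>
    farXA_cert (s1 := false) (s2 := false) rfl hκ (ka0 hκ hx hx') (xa0 hx) hx' (covF02 hx hx') (covF71 hx hx') (x1 hx) (x2 hx')
        Pool.Agent.Strip051.G.IE1.Tab.C.FA07.c_mm_213 (cutVA_cons (Pool.Agent.Strip051.G.IE1.Tab.St.C.s_A07mm_213_s1 hκ hx hx') cutVA_nil) noExt_VA F r1 r2 r1 r2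

theorem FA07_mm_303 {κ x : ℝ} (hκ : κ * h0 = kenE x) (hx : 39 / 40 ≤ x) (hx' : x < 1) :
    TriA (DD x).cur (farD κ (h0 * x) (tbl tKF x) (tbl tL x)) 3 0 3 0 7 (-1) (-1) :=
  triVA_j0

theorem FA07_mm_313 {κ x : ℝ} (hκ : κ * h0 = kenE x) (hx : 39 / 40 ≤ x) (hx' : x < 1) :
    TriA (DD x).cur (farD κ (h0 * x) (tbl tKF x) (tbl tL x)) 3 1 3 0 7 (-1) (-1) :=
  triVA_j0

theorem FA07 {κ x : ℝ} (hκ : κ * h0 = kenE x) (hx : 39 / 40 ≤ x) (hx' : x < 1) : AllTA (DD x).cur (farD κ (h0 * x) (tbl tKF x) (tbl tL x)) 0 7 where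
  pp := all17 (Q := fun a b c => TriA (DD x).cur (farD κ (h0 * x) (tbl tKF x) (tbl tL x)) a b c 0 7 1 1)
    (FA07_pp_001 hκ hx hx') (FA07_pp_011 hκ hx hx') (FA07_pp_012 hκ hx hx') (FA07_pp_022 hκ hx hx') (FA07_pp_023 hκ hx hx') (FA07_pp_033 hκ hx hx') (FA07_pp_101 hκ hx hx') (FA07_pp_102 hκ hx hx') (FA07_pp_112 hκ hx hx') (FA07_pp_113 hκ hx hx') (FA07_pp_123 hκ hx hx') (FA07_pp_133 hκ hx hx') (FA07_pp_202 hκ hx hx') (FA07_pp_203 hκ hx hx') (FA07_pp_213 hκ hx hx') (FA07_pp_303 hκ hx hx') (FA07_pp_313 hκ hx hx')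
  pm := all17 (Q := fun a b c => TriA (DD x).cur (farD κ (h0 * x) (tbl tKF x) (tbl tL x)) a b c 0 7 1 (-1))
    (FA07_pm_001 hκ hx hx') (FA07_pm_011 hκ hx hx') (FA07_pm_012 hκ hx hx') (FA07_pm_022 hκ hx hx') (FA07_pm_023 hκ hx hx') (FA07_pm_033 hκ hx hx') (FA07_pm_101 hκ hx hx') (FA07_pm_102 hκ hx hx') (FA07_pm_112 hκ hx hx') (FA07_pm_113 hκ hx hx') (FA07_pm_123 hκ hx hx') (FA07_pm_133 hκ hx hx') (FA07_pm_202 hκ hx hx') (FA07_pm_203 hκ hx hx') (FA07_pm_213 hκ hx hx') (FA07_pm_303 hκ hx hx') (FA07_pm_313 hκ hx hx')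
  mm := all17 (Q := fun a b c => TriA (DD x).cur (farD κ (h0 * x) (tbl tKF x) (tbl tL x)) a b c 0 7 (-1) (-1))
    (FA07_mm_001 hκ hx hx') (FA07_mm_011 hκ hx hx') (FA07_mm_012 hκ hx hx') (FA07_mm_022 hκ hx hx') (FA07_mm_023 hκ hx hx') (FA07_mm_033 hκ hx hx') (FA07_mm_101 hκ hx hx') (FA07_mm_102 hκ hx hx') (FA07_mm_112 hκ hx hx') (FA07_mm_113 hκ hx hx') (FA07_mm_123 hκ hx hx') (FA07_mm_133 hκ hx hx') (FA07_mm_202 hκ hx hx') (FA07_mm_203 hκ hx hx') (FA07_mm_213 hκ hx hx') (FA07_mm_303 hκ hx hx') (FA07_mm_313 hκ hx hx')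

theorem FA11_pp_001 {κ x : ℝ} (hκ : κ * h0 = kenE x) (hx : 39 / 40 ≤ x) (hx' : x < 1) :
    TriA (DD x).cur (farD κ (h0 * x) (tbl tKF x) (tbl tL x)) 0 0 1 1 1 1 1 :=
  (sideF hx hx').farA (Or.inl rfl) (Or.inl rfl) fun y y' F r1 r2 =>
    farXA_cert (s1 := true) (s2 := true) rfl hκ (ka0 hκ hx hx') (xa0 hx) hx' (covF10 hx hx') (covF10 hx hx') (x1 hx) (x2 hx')
        Pool.Agent.Strip051.G.IE1.Tab.C.FA11.c_pp_001 noCut_VA noExt_VA F r1 r2 r1 r2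

theorem FA11_pp_011 {κ x : ℝ} (hκ : κ * h0 = kenE x) (hx : 39 / 40 ≤ x) (hx' : x < 1) :
    TriA (DD x).cur (farD κ (h0 * x) (tbl tKF x) (tbl tL x)) 0 1 1 1 1 1 1 :=
  (sideF hx hx').farA (Or.inl rfl) (Or.inl rfl) fun y y' F r1 r2 =>
    farXA_cert (s1 := true) (s2 := true) rfl hκ (ka0 hκ hx hx') (xa0 hx) hx' (covF10 hx hx') (covF11 hx hx') (x1 hx) (x2 hx')
        Pool.Agent.Strip051.G.IE1.Tab.C.FA11.c_pp_011 noCut_VA noExt_VA F r1 r2 r1 r2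

theorem FA11_pp_012 {κ x : ℝ} (hκ : κ * h0 = kenE x) (hx : 39 / 40 ≤ x) (hx' : x < 1) :
    TriA (DD x).cur (farD κ (h0 * x) (tbl tKF x) (tbl tL x)) 0 1 2 1 1 1 1 :=
  (sideF hx hx').farA (Or.inl rfl) (Or.inl rfl) fun y y' F r1 r2 =>
    farXA_cert (s1 := true) (s2 := true) rfl hκ (ka0 hκ hx hx') (xa0 hx) hx' (covF10 hx hx') (covF11 hx hx') (x1 hx) (x2 hx')
        Pool.Agent.Strip051.G.IE1.Tab.C.FA11.c_pp_012 noCut_VA noExt_VA F r1 r2 r1 r2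

theorem FA11_pp_022 {κ x : ℝ} (hκ : κ * h0 = kenE x) (hx : 39 / 40 ≤ x) (hx' : x < 1) :
    TriA (DD x).cur (farD κ (h0 * x) (tbl tKF x) (tbl tL x)) 0 2 2 1 1 1 1 :=
  (sideF hx hx').farA (Or.inl rfl) (Or.inl rfl) fun y y' F r1 r2 =>
    (lt_or_ge (h0 * y') 1).elim
      (fun g => farXA_cert (s1 := true) (s2 := true) rfl hκ (ka0 hκ hx hx') (xa0 hx) hx' (covF10 hx hx') (covF12a hx hx') (x1 hx) (x2 hx')
        Pool.Agent.Strip051.G.IE1.Tab.C.FA11.c_pp_022_a noCut_VA noExt_VA F r1 r2 r1 ⟨r2, g⟩)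
      (fun g => farXA_cert (s1 := true) (s2 := true) rfl hκ (ka0 hκ hx hx') (xa0 hx) hx' (covF10 hx hx') (covF12b hx hx') (x1 hx) (x2 hx')
        Pool.Agent.Strip051.G.IE1.Tab.C.FA11.c_pp_022_b noCut_VA noExt_VA F r1 r2 r1 ⟨r2, g⟩)

theorem FA11_pp_023 {κ x : ℝ} (hκ : κ * h0 = kenE x) (hx : 39 / 40 ≤ x) (hx' : x < 1) :
    TriA (DD x).cur (farD κ (h0 * x) (tbl tKF x) (tbl tL x)) 0 2 3 1 1 1 1 :=
  (sideF hx hx').farA (Or.inl rfl) (Or.inl rfl) fun y y' F r1 r2 =>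
    (lt_or_ge (h0 * y') 1).elim
      (fun g => farXA_cert (s1 := true) (s2 := true) rfl hκ (ka0 hκ hx hx') (xa0 hx) hx' (covF10 hx hx') (covF12a hx hx') (x1 hx) (x2 hx')
        Pool.Agent.Strip051.G.IE1.Tab.C.FA11.c_pp_023_a noCut_VA noExt_VA F r1 r2 r1 ⟨r2, g⟩)
      (fun g => farXA_cert (s1 := true) (s2 := true) rfl hκ (ka0 hκ hx hx') (xa0 hx) hx' (covF10 hx hx') (covF12b hx hx') (x1 hx) (x2 hx')
        Pool.Agent.Strip051.G.IE1.Tab.C.FA11.c_pp_023_b noCut_VA noExt_VA F r1 r2 r1 ⟨r2, g⟩)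

theorem FA11_pp_033 {κ x : ℝ} (hκ : κ * h0 = kenE x) (hx : 39 / 40 ≤ x) (hx' : x < 1) :
    TriA (DD x).cur (farD κ (h0 * x) (tbl tKF x) (tbl tL x)) 0 3 3 1 1 1 1 :=
  (sideF hx hx').farA (Or.inl rfl) (Or.inl rfl) fun y y' F r1 r2 =>
    farXA_cert (s1 := true) (s2 := true) rfl hκ (ka0 hκ hx hx') (xa0 hx) hx' (covF10 hx hx') (covF13 hx hx') (x1 hx) (x2 hx')
        Pool.Agent.Strip051.G.IE1.Tab.C.FA11.c_pp_033 noCut_VA noExt_VA F r1 r2 r1 r2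

theorem FA11_pp_101 {κ x : ℝ} (hκ : κ * h0 = kenE x) (hx : 39 / 40 ≤ x) (hx' : x < 1) :
    TriA (DD x).cur (farD κ (h0 * x) (tbl tKF x) (tbl tL x)) 1 0 1 1 1 1 1 :=
  (sideF hx hx').farA (Or.inl rfl) (Or.inl rfl) fun y y' F r1 r2 =>
    farXA_cert (s1 := true) (s2 := true) rfl hκ (ka0 hκ hx hx') (xa0 hx) hx' (covF11 hx hx') (covF10 hx hx') (x1 hx) (x2 hx')
        Pool.Agent.Strip051.G.IE1.Tab.C.FA11.c_pp_101 noCut_VA noExt_VA F r1 r2 r1 r2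

theorem FA11_pp_102 {κ x : ℝ} (hκ : κ * h0 = kenE x) (hx : 39 / 40 ≤ x) (hx' : x < 1) :
    TriA (DD x).cur (farD κ (h0 * x) (tbl tKF x) (tbl tL x)) 1 0 2 1 1 1 1 :=
  (sideF hx hx').farA (Or.inl rfl) (Or.inl rfl) fun y y' F r1 r2 =>
    farXA_cert (s1 := true) (s2 := true) rfl hκ (ka0 hκ hx hx') (xa0 hx) hx' (covF11 hx hx') (covF10 hx hx') (x1 hx) (x2 hx')
        Pool.Agent.Strip051.G.IE1.Tab.C.FA11.c_pp_102 noCut_VA noExt_VA F r1 r2 r1 r2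

theorem FA11_pp_112 {κ x : ℝ} (hκ : κ * h0 = kenE x) (hx : 39 / 40 ≤ x) (hx' : x < 1) :
    TriA (DD x).cur (farD κ (h0 * x) (tbl tKF x) (tbl tL x)) 1 1 2 1 1 1 1 :=
  (sideF hx hx').farA (Or.inl rfl) (Or.inl rfl) fun y y' F r1 r2 =>
    farXA_cert (s1 := true) (s2 := true) rfl hκ (ka0 hκ hx hx') (xa0 hx) hx' (covF11 hx hx') (covF11 hx hx') (x1 hx) (x2 hx')
        Pool.Agent.Strip051.G.IE1.Tab.C.FA11.c_pp_112 noCut_VA noExt_VA F r1 r2 r1 r2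

theorem FA11_pp_113 {κ x : ℝ} (hκ : κ * h0 = kenE x) (hx : 39 / 40 ≤ x) (hx' : x < 1) :
    TriA (DD x).cur (farD κ (h0 * x) (tbl tKF x) (tbl tL x)) 1 1 3 1 1 1 1 :=
  (sideF hx hx').farA (Or.inl rfl) (Or.inl rfl) fun y y' F r1 r2 =>
    farXA_cert (s1 := true) (s2 := true) rfl hκ (ka0 hκ hx hx') (xa0 hx) hx' (covF11 hx hx') (covF11 hx hx') (x1 hx) (x2 hx')
        Pool.Agent.Strip051.G.IE1.Tab.C.FA11.c_pp_113 noCut_VA noExt_VA F r1 r2 r1 r2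

theorem FA11_pp_123 {κ x : ℝ} (hκ : κ * h0 = kenE x) (hx : 39 / 40 ≤ x) (hx' : x < 1) :
    TriA (DD x).cur (farD κ (h0 * x) (tbl tKF x) (tbl tL x)) 1 2 3 1 1 1 1 :=
  (sideF hx hx').farA (Or.inl rfl) (Or.inl rfl) fun y y' F r1 r2 =>
    (lt_or_ge (h0 * y') 1).elim
      (fun g => farXA_cert (s1 := true) (s2 := true) rfl hκ (ka0 hκ hx hx') (xa0 hx) hx' (covF11 hx hx') (covF12a hx hx') (x1 hx) (x2 hx')
        Pool.Agent.Strip051.G.IE1.Tab.C.FA11.c_pp_123_a noCut_VA noExt_VA F r1 r2 r1 ⟨r2, g⟩)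
      (fun g => farXA_cert (s1 := true) (s2 := true) rfl hκ (ka0 hκ hx hx') (xa0 hx) hx' (covF11 hx hx') (covF12b hx hx') (x1 hx) (x2 hx')
        Pool.Agent.Strip051.G.IE1.Tab.C.FA11.c_pp_123_b noCut_VA noExt_VA F r1 r2 r1 ⟨r2, g⟩)

theorem FA11_pp_133 {κ x : ℝ} (hκ : κ * h0 = kenE x) (hx : 39 / 40 ≤ x) (hx' : x < 1) :
    TriA (DD x).cur (farD κ (h0 * x) (tbl tKF x) (tbl tL x)) 1 3 3 1 1 1 1 :=
  (sideF hx hx').farA (Or.inl rfl) (Or.inl rfl) fun y y' F r1 r2 =>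
    farXA_cert (s1 := true) (s2 := true) rfl hκ (ka0 hκ hx hx') (xa0 hx) hx' (covF11 hx hx') (covF13 hx hx') (x1 hx) (x2 hx')
        Pool.Agent.Strip051.G.IE1.Tab.C.FA11.c_pp_133 noCut_VA noExt_VA F r1 r2 r1 r2

theorem FA11_pp_202 {κ x : ℝ} (hκ : κ * h0 = kenE x) (hx : 39 / 40 ≤ x) (hx' : x < 1) :
    TriA (DD x).cur (farD κ (h0 * x) (tbl tKF x) (tbl tL x)) 2 0 2 1 1 1 1 :=
  (sideF hx hx').farA (Or.inl rfl) (Or.inl rfl) fun y y' F r1 r2 =>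
    (lt_or_ge (h0 * y) 1).elim
      (fun h => farXA_cert (s1 := true) (s2 := true) rfl hκ (ka0 hκ hx hx') (xa0 hx) hx' (covF12a hx hx') (covF10 hx hx') (x1 hx) (x2 hx')
        Pool.Agent.Strip051.G.IE1.Tab.C.FA11.c_pp_202_a noCut_VA noExt_VA F r1 r2 ⟨r1, h⟩ r2)
      (fun h => farXA_cert (s1 := true) (s2 := true) rfl hκ (ka0 hκ hx hx') (xa0 hx) hx' (covF12b hx hx') (covF10 hx hx') (x1 hx) (x2 hx')
        Pool.Agent.Strip051.G.IE1.Tab.C.FA11.c_pp_202_b noCut_VA noExt_VA F r1 r2 ⟨r1, h⟩ r2)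

theorem FA11_pp_203 {κ x : ℝ} (hκ : κ * h0 = kenE x) (hx : 39 / 40 ≤ x) (hx' : x < 1) :
    TriA (DD x).cur (farD κ (h0 * x) (tbl tKF x) (tbl tL x)) 2 0 3 1 1 1 1 :=
  (sideF hx hx').farA (Or.inl rfl) (Or.inl rfl) fun y y' F r1 r2 =>
    (lt_or_ge (h0 * y) 1).elim
      (fun h => farXA_cert (s1 := true) (s2 := true) rfl hκ (ka0 hκ hx hx') (xa0 hx) hx' (covF12a hx hx') (covF10 hx hx') (x1 hx) (x2 hx')
        Pool.Agent.Strip051.G.IE1.Tab.C.FA11.c_pp_203_a noCut_VA noExt_VA F r1 r2 ⟨r1, h⟩ r2)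
      (fun h => farXA_cert (s1 := true) (s2 := true) rfl hκ (ka0 hκ hx hx') (xa0 hx) hx' (covF12b hx hx') (covF10 hx hx') (x1 hx) (x2 hx')
        Pool.Agent.Strip051.G.IE1.Tab.C.FA11.c_pp_203_b noCut_VA noExt_VA F r1 r2 ⟨r1, h⟩ r2)

theorem FA11_pp_213 {κ x : ℝ} (hκ : κ * h0 = kenE x) (hx : 39 / 40 ≤ x) (hx' : x < 1) :
    TriA (DD x).cur (farD κ (h0 * x) (tbl tKF x) (tbl tL x)) 2 1 3 1 1 1 1 :=
  (sideF hx hx').farA (Or.inl rfl) (Or.inl rfl) fun y y' F r1 r2 =>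
    (lt_or_ge (h0 * y) 1).elim
      (fun h => farXA_cert (s1 := true) (s2 := true) rfl hκ (ka0 hκ hx hx') (xa0 hx) hx' (covF12a hx hx') (covF11 hx hx') (x1 hx) (x2 hx')
        Pool.Agent.Strip051.G.IE1.Tab.C.FA11.c_pp_213_a noCut_VA noExt_VA F r1 r2 ⟨r1, h⟩ r2)
      (fun h => farXA_cert (s1 := true) (s2 := true) rfl hκ (ka0 hκ hx hx') (xa0 hx) hx' (covF12b hx hx') (covF11 hx hx') (x1 hx) (x2 hx')
        Pool.Agent.Strip051.G.IE1.Tab.C.FA11.c_pp_213_b noCut_VA noExt_VA F r1 r2 ⟨r1, h⟩ r2)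

theorem FA11_pp_303 {κ x : ℝ} (hκ : κ * h0 = kenE x) (hx : 39 / 40 ≤ x) (hx' : x < 1) :
    TriA (DD x).cur (farD κ (h0 * x) (tbl tKF x) (tbl tL x)) 3 0 3 1 1 1 1 :=
  (sideF hx hx').farA (Or.inl rfl) (Or.inl rfl) fun y y' F r1 r2 =>
    farXA_cert (s1 := true) (s2 := true) rfl hκ (ka0 hκ hx hx') (xa0 hx) hx' (covF13 hx hx') (covF10 hx hx') (x1 hx) (x2 hx')
        Pool.Agent.Strip051.G.IE1.Tab.C.FA11.c_pp_303 noCut_VA noExt_VA F r1 r2 r1 r2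

theorem FA11_pp_313 {κ x : ℝ} (hκ : κ * h0 = kenE x) (hx : 39 / 40 ≤ x) (hx' : x < 1) :
    TriA (DD x).cur (farD κ (h0 * x) (tbl tKF x) (tbl tL x)) 3 1 3 1 1 1 1 :=
  (sideF hx hx').farA (Or.inl rfl) (Or.inl rfl) fun y y' F r1 r2 =>
    farXA_cert (s1 := true) (s2 := true) rfl hκ (ka0 hκ hx hx') (xa0 hx) hx' (covF13 hx hx') (covF11 hx hx') (x1 hx) (x2 hx')
        Pool.Agent.Strip051.G.IE1.Tab.C.FA11.c_pp_313 noCut_VA noExt_VA F r1 r2 r1 r2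

theorem FA11_pm_001 {κ x : ℝ} (hκ : κ * h0 = kenE x) (hx : 39 / 40 ≤ x) (hx' : x < 1) :
    TriA (DD x).cur (farD κ (h0 * x) (tbl tKF x) (tbl tL x)) 0 0 1 1 1 1 (-1) :=
  (sideF hx hx').farA (Or.inl rfl) (Or.inr rfl) fun y y' F r1 r2 =>
    farXA_cert (s1 := true) (s2 := false) rfl hκ (ka0 hκ hx hx') (xa0 hx) hx' (covF10 hx hx') (covF10 hx hx') (x1 hx) (x2 hx')
        Pool.Agent.Strip051.G.IE1.Tab.C.FA11.c_pm_001 noCut_VA noExt_VA F r1 r2 r1 r2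

theorem FA11_pm_011 {κ x : ℝ} (hκ : κ * h0 = kenE x) (hx : 39 / 40 ≤ x) (hx' : x < 1) :
    TriA (DD x).cur (farD κ (h0 * x) (tbl tKF x) (tbl tL x)) 0 1 1 1 1 1 (-1) :=
  (sideF hx hx').farA (Or.inl rfl) (Or.inr rfl) fun y y' F r1 r2 =>
    farXA_cert (s1 := true) (s2 := false) rfl hκ (ka0 hκ hx hx') (xa0 hx) hx' (covF10 hx hx') (covF11 hx hx') (x1 hx) (x2 hx')
        Pool.Agent.Strip051.G.IE1.Tab.C.FA11.c_pm_011 noCut_VA noExt_VA F r1 r2 r1 r2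

theorem FA11_pm_012 {κ x : ℝ} (hκ : κ * h0 = kenE x) (hx : 39 / 40 ≤ x) (hx' : x < 1) :
    TriA (DD x).cur (farD κ (h0 * x) (tbl tKF x) (tbl tL x)) 0 1 2 1 1 1 (-1) :=
  (sideF hx hx').farA (Or.inl rfl) (Or.inr rfl) fun y y' F r1 r2 =>
    farXA_cert (s1 := true) (s2 := false) rfl hκ (ka0 hκ hx hx') (xa0 hx) hx' (covF10 hx hx') (covF11 hx hx') (x1 hx) (x2 hx')
        Pool.Agent.Strip051.G.IE1.Tab.C.FA11.c_pm_012 noCut_VA noExt_VA F r1 r2 r1 r2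

theorem FA11_pm_022 {κ x : ℝ} (hκ : κ * h0 = kenE x) (hx : 39 / 40 ≤ x) (hx' : x < 1) :
    TriA (DD x).cur (farD κ (h0 * x) (tbl tKF x) (tbl tL x)) 0 2 2 1 1 1 (-1) :=
  (sideF hx hx').farA (Or.inl rfl) (Or.inr rfl) fun y y' F r1 r2 =>
    (lt_or_ge (h0 * y') 1).elim
      (fun g => farXA_cert (s1 := true) (s2 := false) rfl hκ (ka0 hκ hx hx') (xa0 hx) hx' (covF10 hx hx') (covF12a hx hx') (x1 hx) (x2 hx')
        Pool.Agent.Strip051.G.IE1.Tab.C.FA11.c_pm_022_a noCut_VA noExt_VA F r1 r2 r1 ⟨r2, g⟩)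
      (fun g => farXA_cert (s1 := true) (s2 := false) rfl hκ (ka0 hκ hx hx') (xa0 hx) hx' (covF10 hx hx') (covF12b hx hx') (x1 hx) (x2 hx')
        Pool.Agent.Strip051.G.IE1.Tab.C.FA11.c_pm_022_b noCut_VA noExt_VA F r1 r2 r1 ⟨r2, g⟩)

theorem FA11_pm_023 {κ x : ℝ} (hκ : κ * h0 = kenE x) (hx : 39 / 40 ≤ x) (hx' : x < 1) :
    TriA (DD x).cur (farD κ (h0 * x) (tbl tKF x) (tbl tL x)) 0 2 3 1 1 1 (-1) :=
  (sideF hx hx').farA (Or.inl rfl) (Or.inr rfl) fun y y' F r1 r2 =>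
    (lt_or_ge (h0 * y') 1).elim
      (fun g => farXA_cert (s1 := true) (s2 := false) rfl hκ (ka0 hκ hx hx') (xa0 hx) hx' (covF10 hx hx') (covF12a hx hx') (x1 hx) (x2 hx')
        Pool.Agent.Strip051.G.IE1.Tab.C.FA11.c_pm_023_a noCut_VA noExt_VA F r1 r2 r1 ⟨r2, g⟩)
      (fun g => farXA_cert (s1 := true) (s2 := false) rfl hκ (ka0 hκ hx hx') (xa0 hx) hx' (covF10 hx hx') (covF12b hx hx') (x1 hx) (x2 hx')
        Pool.Agent.Strip051.G.IE1.Tab.C.FA11.c_pm_023_b noCut_VA noExt_VA F r1 r2 r1 ⟨r2, g⟩)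

theorem FA11_pm_033 {κ x : ℝ} (hκ : κ * h0 = kenE x) (hx : 39 / 40 ≤ x) (hx' : x < 1) :
    TriA (DD x).cur (farD κ (h0 * x) (tbl tKF x) (tbl tL x)) 0 3 3 1 1 1 (-1) :=
  (sideF hx hx').farA (Or.inl rfl) (Or.inr rfl) fun y y' F r1 r2 =>
    farXA_cert (s1 := true) (s2 := false) rfl hκ (ka0 hκ hx hx') (xa0 hx) hx' (covF10 hx hx') (covF13 hx hx') (x1 hx) (x2 hx')
        Pool.Agent.Strip051.G.IE1.Tab.C.FA11.c_pm_033 noCut_VA noExt_VA F r1 r2 r1 r2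

theorem FA11_pm_101 {κ x : ℝ} (hκ : κ * h0 = kenE x) (hx : 39 / 40 ≤ x) (hx' : x < 1) :
    TriA (DD x).cur (farD κ (h0 * x) (tbl tKF x) (tbl tL x)) 1 0 1 1 1 1 (-1) :=
  (sideF hx hx').farA (Or.inl rfl) (Or.inr rfl) fun y y' F r1 r2 =>
    farXA_cert (s1 := true) (s2 := false) rfl hκ (ka0 hκ hx hx') (xa0 hx) hx' (covF11 hx hx') (covF10 hx hx') (x1 hx) (x2 hx')
        Pool.Agent.Strip051.G.IE1.Tab.C.FA11.c_pm_101 noCut_VA noExt_VA F r1 r2 r1 r2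

theorem FA11_pm_102 {κ x : ℝ} (hκ : κ * h0 = kenE x) (hx : 39 / 40 ≤ x) (hx' : x < 1) :
    TriA (DD x).cur (farD κ (h0 * x) (tbl tKF x) (tbl tL x)) 1 0 2 1 1 1 (-1) :=
  (sideF hx hx').farA (Or.inl rfl) (Or.inr rfl) fun y y' F r1 r2 =>
    farXA_cert (s1 := true) (s2 := false) rfl hκ (ka0 hκ hx hx') (xa0 hx) hx' (covF11 hx hx') (covF10 hx hx') (x1 hx) (x2 hx')
        Pool.Agent.Strip051.G.IE1.Tab.C.FA11.c_pm_102 noCut_VA noExt_VA F r1 r2 r1 r2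

theorem FA11_pm_112 {κ x : ℝ} (hκ : κ * h0 = kenE x) (hx : 39 / 40 ≤ x) (hx' : x < 1) :
    TriA (DD x).cur (farD κ (h0 * x) (tbl tKF x) (tbl tL x)) 1 1 2 1 1 1 (-1) :=
  (sideF hx hx').farA (Or.inl rfl) (Or.inr rfl) fun y y' F r1 r2 =>
    farXA_cert (s1 := true) (s2 := false) rfl hκ (ka0 hκ hx hx') (xa0 hx) hx' (covF11 hx hx') (covF11 hx hx') (x1 hx) (x2 hx')
        Pool.Agent.Strip051.G.IE1.Tab.C.FA11.c_pm_112 noCut_VA noExt_VA F r1 r2 r1 r2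

theorem FA11_pm_113 {κ x : ℝ} (hκ : κ * h0 = kenE x) (hx : 39 / 40 ≤ x) (hx' : x < 1) :
    TriA (DD x).cur (farD κ (h0 * x) (tbl tKF x) (tbl tL x)) 1 1 3 1 1 1 (-1) :=
  (sideF hx hx').farA (Or.inl rfl) (Or.inr rfl) fun y y' F r1 r2 =>
    farXA_cert (s1 := true) (s2 := false) rfl hκ (ka0 hκ hx hx') (xa0 hx) hx' (covF11 hx hx') (covF11 hx hx') (x1 hx) (x2 hx')
        Pool.Agent.Strip051.G.IE1.Tab.C.FA11.c_pm_113 noCut_VA noExt_VA F r1 r2 r1 r2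

theorem FA11_pm_123 {κ x : ℝ} (hκ : κ * h0 = kenE x) (hx : 39 / 40 ≤ x) (hx' : x < 1) :
    TriA (DD x).cur (farD κ (h0 * x) (tbl tKF x) (tbl tL x)) 1 2 3 1 1 1 (-1) :=
  (sideF hx hx').farA (Or.inl rfl) (Or.inr rfl) fun y y' F r1 r2 =>
    (lt_or_ge (h0 * y') 1).elim
      (fun g => farXA_cert (s1 := true) (s2 := false) rfl hκ (ka0 hκ hx hx') (xa0 hx) hx' (covF11 hx hx') (covF12a hx hx') (x1 hx) (x2 hx')
        Pool.Agent.Strip051.G.IE1.Tab.C.FA11.c_pm_123_a noCut_VA noExt_VA F r1 r2 r1 ⟨r2, g⟩)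
      (fun g => farXA_cert (s1 := true) (s2 := false) rfl hκ (ka0 hκ hx hx') (xa0 hx) hx' (covF11 hx hx') (covF12b hx hx') (x1 hx) (x2 hx')
        Pool.Agent.Strip051.G.IE1.Tab.C.FA11.c_pm_123_b noCut_VA noExt_VA F r1 r2 r1 ⟨r2, g⟩)

theorem FA11_pm_133 {κ x : ℝ} (hκ : κ * h0 = kenE x) (hx : 39 / 40 ≤ x) (hx' : x < 1) :
    TriA (DD x).cur (farD κ (h0 * x) (tbl tKF x) (tbl tL x)) 1 3 3 1 1 1 (-1) :=
  (sideF hx hx').farA (Or.inl rfl) (Or.inr rfl) fun y y' F r1 r2 =>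
    farXA_cert (s1 := true) (s2 := false) rfl hκ (ka0 hκ hx hx') (xa0 hx) hx' (covF11 hx hx') (covF13 hx hx') (x1 hx) (x2 hx')
        Pool.Agent.Strip051.G.IE1.Tab.C.FA11.c_pm_133 noCut_VA noExt_VA F r1 r2 r1 r2

theorem FA11_pm_202 {κ x : ℝ} (hκ : κ * h0 = kenE x) (hx : 39 / 40 ≤ x) (hx' : x < 1) :
    TriA (DD x).cur (farD κ (h0 * x) (tbl tKF x) (tbl tL x)) 2 0 2 1 1 1 (-1) :=
  (sideF hx hx').farA (Or.inl rfl) (Or.inr rfl) fun y y' F r1 r2 =>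
    (lt_or_ge (h0 * y) 1).elim
      (fun h => farXA_cert (s1 := true) (s2 := false) rfl hκ (ka0 hκ hx hx') (xa0 hx) hx' (covF12a hx hx') (covF10 hx hx') (x1 hx) (x2 hx')
        Pool.Agent.Strip051.G.IE1.Tab.C.FA11.c_pm_202_a noCut_VA noExt_VA F r1 r2 ⟨r1, h⟩ r2)
      (fun h => farXA_cert (s1 := true) (s2 := false) rfl hκ (ka0 hκ hx hx') (xa0 hx) hx' (covF12b hx hx') (covF10 hx hx') (x1 hx) (x2 hx')
        Pool.Agent.Strip051.G.IE1.Tab.C.FA11.c_pm_202_b noCut_VA noExt_VA F r1 r2 ⟨r1, h⟩ r2)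

theorem FA11_pm_203 {κ x : ℝ} (hκ : κ * h0 = kenE x) (hx : 39 / 40 ≤ x) (hx' : x < 1) :
    TriA (DD x).cur (farD κ (h0 * x) (tbl tKF x) (tbl tL x)) 2 0 3 1 1 1 (-1) :=
  (sideF hx hx').farA (Or.inl rfl) (Or.inr rfl) fun y y' F r1 r2 =>
    (lt_or_ge (h0 * y) 1).elim
      (fun h => farXA_cert (s1 := true) (s2 := false) rfl hκ (ka0 hκ hx hx') (xa0 hx) hx' (covF12a hx hx') (covF10 hx hx') (x1 hx) (x2 hx')
        Pool.Agent.Strip051.G.IE1.Tab.C.FA11.c_pm_203_a noCut_VA noExt_VA F r1 r2 ⟨r1, h⟩ r2)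
      (fun h => farXA_cert (s1 := true) (s2 := false) rfl hκ (ka0 hκ hx hx') (xa0 hx) hx' (covF12b hx hx') (covF10 hx hx') (x1 hx) (x2 hx')
        Pool.Agent.Strip051.G.IE1.Tab.C.FA11.c_pm_203_b noCut_VA noExt_VA F r1 r2 ⟨r1, h⟩ r2)

theorem FA11_pm_213 {κ x : ℝ} (hκ : κ * h0 = kenE x) (hx : 39 / 40 ≤ x) (hx' : x < 1) :
    TriA (DD x).cur (farD κ (h0 * x) (tbl tKF x) (tbl tL x)) 2 1 3 1 1 1 (-1) :=
  (sideF hx hx').farA (Or.inl rfl) (Or.inr rfl) fun y y' F r1 r2 =>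
    (lt_or_ge (h0 * y) 1).elim
      (fun h => farXA_cert (s1 := true) (s2 := false) rfl hκ (ka0 hκ hx hx') (xa0 hx) hx' (covF12a hx hx') (covF11 hx hx') (x1 hx) (x2 hx')
        Pool.Agent.Strip051.G.IE1.Tab.C.FA11.c_pm_213_a noCut_VA noExt_VA F r1 r2 ⟨r1, h⟩ r2)
      (fun h => farXA_cert (s1 := true) (s2 := false) rfl hκ (ka0 hκ hx hx') (xa0 hx) hx' (covF12b hx hx') (covF11 hx hx') (x1 hx) (x2 hx')
        Pool.Agent.Strip051.G.IE1.Tab.C.FA11.c_pm_213_b noCut_VA noExt_VA F r1 r2 ⟨r1, h⟩ r2)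

theorem FA11_pm_303 {κ x : ℝ} (hκ : κ * h0 = kenE x) (hx : 39 / 40 ≤ x) (hx' : x < 1) :
    TriA (DD x).cur (farD κ (h0 * x) (tbl tKF x) (tbl tL x)) 3 0 3 1 1 1 (-1) :=
  (sideF hx hx').farA (Or.inl rfl) (Or.inr rfl) fun y y' F r1 r2 =>
    farXA_cert (s1 := true) (s2 := false) rfl hκ (ka0 hκ hx hx') (xa0 hx) hx' (covF13 hx hx') (covF10 hx hx') (x1 hx) (x2 hx')
        Pool.Agent.Strip051.G.IE1.Tab.C.FA11.c_pm_303 noCut_VA noExt_VA F r1 r2 r1 r2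

theorem FA11_pm_313 {κ x : ℝ} (hκ : κ * h0 = kenE x) (hx : 39 / 40 ≤ x) (hx' : x < 1) :
    TriA (DD x).cur (farD κ (h0 * x) (tbl tKF x) (tbl tL x)) 3 1 3 1 1 1 (-1) :=
  (sideF hx hx').farA (Or.inl rfl) (Or.inr rfl) fun y y' F r1 r2 =>
    farXA_cert (s1 := true) (s2 := false) rfl hκ (ka0 hκ hx hx') (xa0 hx) hx' (covF13 hx hx') (covF11 hx hx') (x1 hx) (x2 hx')
        Pool.Agent.Strip051.G.IE1.Tab.C.FA11.c_pm_313 noCut_VA noExt_VA F r1 r2 r1 r2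

theorem FA11_mm_001 {κ x : ℝ} (hκ : κ * h0 = kenE x) (hx : 39 / 40 ≤ x) (hx' : x < 1) :
    TriA (DD x).cur (farD κ (h0 * x) (tbl tKF x) (tbl tL x)) 0 0 1 1 1 (-1) (-1) :=
  (sideF hx hx').farA (Or.inr rfl) (Or.inr rfl) fun y y' F r1 r2 =>
    farXA_cert (s1 := false) (s2 := false) rfl hκ (ka0 hκ hx hx') (xa0 hx) hx' (covF10 hx hx') (covF10 hx hx') (x1 hx) (x2 hx')
        Pool.Agent.Strip051.G.IE1.Tab.C.FA11.c_mm_001 noCut_VA noExt_VA F r1 r2 r1 r2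

theorem FA11_mm_011 {κ x : ℝ} (hκ : κ * h0 = kenE x) (hx : 39 / 40 ≤ x) (hx' : x < 1) :
    TriA (DD x).cur (farD κ (h0 * x) (tbl tKF x) (tbl tL x)) 0 1 1 1 1 (-1) (-1) :=
  (sideF hx hx').farA (Or.inr rfl) (Or.inr rfl) fun y y' F r1 r2 =>
    farXA_cert (s1 := false) (s2 := false) rfl hκ (ka0 hκ hx hx') (xa0 hx) hx' (covF10 hx hx') (covF11 hx hx') (x1 hx) (x2 hx')
        Pool.Agent.Strip051.G.IE1.Tab.C.FA11.c_mm_011 noCut_VA noExt_VA F r1 r2 r1 r2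

theorem FA11_mm_012 {κ x : ℝ} (hκ : κ * h0 = kenE x) (hx : 39 / 40 ≤ x) (hx' : x < 1) :
    TriA (DD x).cur (farD κ (h0 * x) (tbl tKF x) (tbl tL x)) 0 1 2 1 1 (-1) (-1) :=
  (sideF hx hx').farA (Or.inr rfl) (Or.inr rfl) fun y y' F r1 r2 =>
    farXA_cert (s1 := false) (s2 := false) rfl hκ (ka0 hκ hx hx') (xa0 hx) hx' (covF10 hx hx') (covF11 hx hx') (x1 hx) (x2 hx')
        Pool.Agent.Strip051.G.IE1.Tab.C.FA11.c_mm_012 noCut_VA noExt_VA F r1 r2 r1 r2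

theorem FA11_mm_022 {κ x : ℝ} (hκ : κ * h0 = kenE x) (hx : 39 / 40 ≤ x) (hx' : x < 1) :
    TriA (DD x).cur (farD κ (h0 * x) (tbl tKF x) (tbl tL x)) 0 2 2 1 1 (-1) (-1) :=
  (sideF hx hx').farA (Or.inr rfl) (Or.inr rfl) fun y y' F r1 r2 =>
    (lt_or_ge (h0 * y') 1).elim
      (fun g => farXA_cert (s1 := false) (s2 := false) rfl hκ (ka0 hκ hx hx') (xa0 hx) hx' (covF10 hx hx') (covF12a hx hx') (x1 hx) (x2 hx')
        Pool.Agent.Strip051.G.IE1.Tab.C.FA11.c_mm_022_a noCut_VA noExt_VA F r1 r2 r1 ⟨r2, g⟩)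
      (fun g => farXA_cert (s1 := false) (s2 := false) rfl hκ (ka0 hκ hx hx') (xa0 hx) hx' (covF10 hx hx') (covF12b hx hx') (x1 hx) (x2 hx')
        Pool.Agent.Strip051.G.IE1.Tab.C.FA11.c_mm_022_b noCut_VA noExt_VA F r1 r2 r1 ⟨r2, g⟩)

theorem FA11_mm_023 {κ x : ℝ} (hκ : κ * h0 = kenE x) (hx : 39 / 40 ≤ x) (hx' : x < 1) :
    TriA (DD x).cur (farD κ (h0 * x) (tbl tKF x) (tbl tL x)) 0 2 3 1 1 (-1) (-1) :=
  (sideF hx hx').farA (Or.inr rfl) (Or.inr rfl) fun y y' F r1 r2 =>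
    (lt_or_ge (h0 * y') 1).elim
      (fun g => farXA_cert (s1 := false) (s2 := false) rfl hκ (ka0 hκ hx hx') (xa0 hx) hx' (covF10 hx hx') (covF12a hx hx') (x1 hx) (x2 hx')
        Pool.Agent.Strip051.G.IE1.Tab.C.FA11.c_mm_023_a noCut_VA noExt_VA F r1 r2 r1 ⟨r2, g⟩)
      (fun g => farXA_cert (s1 := false) (s2 := false) rfl hκ (ka0 hκ hx hx') (xa0 hx) hx' (covF10 hx hx') (covF12b hx hx') (x1 hx) (x2 hx')
        Pool.Agent.Strip051.G.IE1.Tab.C.FA11.c_mm_023_b noCut_VA noExt_VA F r1 r2 r1 ⟨r2, g⟩)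

theorem FA11_mm_033 {κ x : ℝ} (hκ : κ * h0 = kenE x) (hx : 39 / 40 ≤ x) (hx' : x < 1) :
    TriA (DD x).cur (farD κ (h0 * x) (tbl tKF x) (tbl tL x)) 0 3 3 1 1 (-1) (-1) :=
  (sideF hx hx').farA (Or.inr rfl) (Or.inr rfl) fun y y' F r1 r2 =>
    farXA_cert (s1 := false) (s2 := false) rfl hκ (ka0 hκ hx hx') (xa0 hx) hx' (covF10 hx hx') (covF13 hx hx') (x1 hx) (x2 hx')
        Pool.Agent.Strip051.G.IE1.Tab.C.FA11.c_mm_033 noCut_VA noExt_VA F r1 r2 r1 r2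

theorem FA11_mm_101 {κ x : ℝ} (hκ : κ * h0 = kenE x) (hx : 39 / 40 ≤ x) (hx' : x < 1) :
    TriA (DD x).cur (farD κ (h0 * x) (tbl tKF x) (tbl tL x)) 1 0 1 1 1 (-1) (-1) :=
  (sideF hx hx').farA (Or.inr rfl) (Or.inr rfl) fun y y' F r1 r2 =>
    farXA_cert (s1 := false) (s2 := false) rfl hκ (ka0 hκ hx hx') (xa0 hx) hx' (covF11 hx hx') (covF10 hx hx') (x1 hx) (x2 hx')
        Pool.Agent.Strip051.G.IE1.Tab.C.FA11.c_mm_101 noCut_VA noExt_VA F r1 r2 r1 r2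

theorem FA11_mm_102 {κ x : ℝ} (hκ : κ * h0 = kenE x) (hx : 39 / 40 ≤ x) (hx' : x < 1) :
    TriA (DD x).cur (farD κ (h0 * x) (tbl tKF x) (tbl tL x)) 1 0 2 1 1 (-1) (-1) :=
  (sideF hx hx').farA (Or.inr rfl) (Or.inr rfl) fun y y' F r1 r2 =>
    farXA_cert (s1 := false) (s2 := false) rfl hκ (ka0 hκ hx hx') (xa0 hx) hx' (covF11 hx hx') (covF10 hx hx') (x1 hx) (x2 hx')
        Pool.Agent.Strip051.G.IE1.Tab.C.FA11.c_mm_102 noCut_VA noExt_VA F r1 r2 r1 r2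

theorem FA11_mm_112 {κ x : ℝ} (hκ : κ * h0 = kenE x) (hx : 39 / 40 ≤ x) (hx' : x < 1) :
    TriA (DD x).cur (farD κ (h0 * x) (tbl tKF x) (tbl tL x)) 1 1 2 1 1 (-1) (-1) :=
  (sideF hx hx').farA (Or.inr rfl) (Or.inr rfl) fun y y' F r1 r2 =>
    farXA_cert (s1 := false) (s2 := false) rfl hκ (ka0 hκ hx hx') (xa0 hx) hx' (covF11 hx hx') (covF11 hx hx') (x1 hx) (x2 hx')
        Pool.Agent.Strip051.G.IE1.Tab.C.FA11.c_mm_112 noCut_VA noExt_VA F r1 r2 r1 r2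

theorem FA11_mm_113 {κ x : ℝ} (hκ : κ * h0 = kenE x) (hx : 39 / 40 ≤ x) (hx' : x < 1) :
    TriA (DD x).cur (farD κ (h0 * x) (tbl tKF x) (tbl tL x)) 1 1 3 1 1 (-1) (-1) :=
  (sideF hx hx').farA (Or.inr rfl) (Or.inr rfl) fun y y' F r1 r2 =>
    farXA_cert (s1 := false) (s2 := false) rfl hκ (ka0 hκ hx hx') (xa0 hx) hx' (covF11 hx hx') (covF11 hx hx') (x1 hx) (x2 hx')
        Pool.Agent.Strip051.G.IE1.Tab.C.FA11.c_mm_113 noCut_VA noExt_VA F r1 r2 r1 r2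

theorem FA11_mm_123 {κ x : ℝ} (hκ : κ * h0 = kenE x) (hx : 39 / 40 ≤ x) (hx' : x < 1) :
    TriA (DD x).cur (farD κ (h0 * x) (tbl tKF x) (tbl tL x)) 1 2 3 1 1 (-1) (-1) :=
  (sideF hx hx').farA (Or.inr rfl) (Or.inr rfl) fun y y' F r1 r2 =>
    (lt_or_ge (h0 * y') 1).elim
      (fun g => farXA_cert (s1 := false) (s2 := false) rfl hκ (ka0 hκ hx hx') (xa0 hx) hx' (covF11 hx hx') (covF12a hx hx') (x1 hx) (x2 hx')
        Pool.Agent.Strip051.G.IE1.Tab.C.FA11.c_mm_123_a noCut_VA noExt_VA F r1 r2 r1 ⟨r2, g⟩)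
      (fun g => farXA_cert (s1 := false) (s2 := false) rfl hκ (ka0 hκ hx hx') (xa0 hx) hx' (covF11 hx hx') (covF12b hx hx') (x1 hx) (x2 hx')
        Pool.Agent.Strip051.G.IE1.Tab.C.FA11.c_mm_123_b noCut_VA noExt_VA F r1 r2 r1 ⟨r2, g⟩)

theorem FA11_mm_133 {κ x : ℝ} (hκ : κ * h0 = kenE x) (hx : 39 / 40 ≤ x) (hx' : x < 1) :
    TriA (DD x).cur (farD κ (h0 * x) (tbl tKF x) (tbl tL x)) 1 3 3 1 1 (-1) (-1) :=
  (sideF hx hx').farA (Or.inr rfl) (Or.inr rfl) fun y y' F r1 r2 =>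
    farXA_cert (s1 := false) (s2 := false) rfl hκ (ka0 hκ hx hx') (xa0 hx) hx' (covF11 hx hx') (covF13 hx hx') (x1 hx) (x2 hx')
        Pool.Agent.Strip051.G.IE1.Tab.C.FA11.c_mm_133 noCut_VA noExt_VA F r1 r2 r1 r2

theorem FA11_mm_202 {κ x : ℝ} (hκ : κ * h0 = kenE x) (hx : 39 / 40 ≤ x) (hx' : x < 1) :
    TriA (DD x).cur (farD κ (h0 * x) (tbl tKF x) (tbl tL x)) 2 0 2 1 1 (-1) (-1) :=
  (sideF hx hx').farA (Or.inr rfl) (Or.inr rfl) fun y y' F r1 r2 =>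
    (lt_or_ge (h0 * y) 1).elim
      (fun h => farXA_cert (s1 := false) (s2 := false) rfl hκ (ka0 hκ hx hx') (xa0 hx) hx' (covF12a hx hx') (covF10 hx hx') (x1 hx) (x2 hx')
        Pool.Agent.Strip051.G.IE1.Tab.C.FA11.c_mm_202_a noCut_VA noExt_VA F r1 r2 ⟨r1, h⟩ r2)
      (fun h => farXA_cert (s1 := false) (s2 := false) rfl hκ (ka0 hκ hx hx') (xa0 hx) hx' (covF12b hx hx') (covF10 hx hx') (x1 hx) (x2 hx')
        Pool.Agent.Strip051.G.IE1.Tab.C.FA11.c_mm_202_b noCut_VA noExt_VA F r1 r2 ⟨r1, h⟩ r2)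

theorem FA11_mm_203 {κ x : ℝ} (hκ : κ * h0 = kenE x) (hx : 39 / 40 ≤ x) (hx' : x < 1) :
    TriA (DD x).cur (farD κ (h0 * x) (tbl tKF x) (tbl tL x)) 2 0 3 1 1 (-1) (-1) :=
  (sideF hx hx').farA (Or.inr rfl) (Or.inr rfl) fun y y' F r1 r2 =>
    (lt_or_ge (h0 * y) 1).elim
      (fun h => farXA_cert (s1 := false) (s2 := false) rfl hκ (ka0 hκ hx hx') (xa0 hx) hx' (covF12a hx hx') (covF10 hx hx') (x1 hx) (x2 hx')
        Pool.Agent.Strip051.G.IE1.Tab.C.FA11.c_mm_203_a noCut_VA noExt_VA F r1 r2 ⟨r1, h⟩ r2)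
      (fun h => farXA_cert (s1 := false) (s2 := false) rfl hκ (ka0 hκ hx hx') (xa0 hx) hx' (covF12b hx hx') (covF10 hx hx') (x1 hx) (x2 hx')
        Pool.Agent.Strip051.G.IE1.Tab.C.FA11.c_mm_203_b noCut_VA noExt_VA F r1 r2 ⟨r1, h⟩ r2)

theorem FA11_mm_213 {κ x : ℝ} (hκ : κ * h0 = kenE x) (hx : 39 / 40 ≤ x) (hx' : x < 1) :
    TriA (DD x).cur (farD κ (h0 * x) (tbl tKF x) (tbl tL x)) 2 1 3 1 1 (-1) (-1) :=
  (sideF hx hx').farA (Or.inr rfl) (Or.inr rfl) fun y y' F r1 r2 =>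
    (lt_or_ge (h0 * y) 1).elim
      (fun h => farXA_cert (s1 := false) (s2 := false) rfl hκ (ka0 hκ hx hx') (xa0 hx) hx' (covF12a hx hx') (covF11 hx hx') (x1 hx) (x2 hx')
        Pool.Agent.Strip051.G.IE1.Tab.C.FA11.c_mm_213_a noCut_VA noExt_VA F r1 r2 ⟨r1, h⟩ r2)
      (fun h => farXA_cert (s1 := false) (s2 := false) rfl hκ (ka0 hκ hx hx') (xa0 hx) hx' (covF12b hx hx') (covF11 hx hx') (x1 hx) (x2 hx')
        Pool.Agent.Strip051.G.IE1.Tab.C.FA11.c_mm_213_b noCut_VA noExt_VA F r1 r2 ⟨r1, h⟩ r2)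

theorem FA11_mm_303 {κ x : ℝ} (hκ : κ * h0 = kenE x) (hx : 39 / 40 ≤ x) (hx' : x < 1) :
    TriA (DD x).cur (farD κ (h0 * x) (tbl tKF x) (tbl tL x)) 3 0 3 1 1 (-1) (-1) :=
  (sideF hx hx').farA (Or.inr rfl) (Or.inr rfl) fun y y' F r1 r2 =>
    farXA_cert (s1 := false) (s2 := false) rfl hκ (ka0 hκ hx hx') (xa0 hx) hx' (covF13 hx hx') (covF10 hx hx') (x1 hx) (x2 hx')
        Pool.Agent.Strip051.G.IE1.Tab.C.FA11.c_mm_303 noCut_VA noExt_VA F r1 r2 r1 r2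

theorem FA11_mm_313 {κ x : ℝ} (hκ : κ * h0 = kenE x) (hx : 39 / 40 ≤ x) (hx' : x < 1) :
    TriA (DD x).cur (farD κ (h0 * x) (tbl tKF x) (tbl tL x)) 3 1 3 1 1 (-1) (-1) :=
  (sideF hx hx').farA (Or.inr rfl) (Or.inr rfl) fun y y' F r1 r2 =>
    farXA_cert (s1 := false) (s2 := false) rfl hκ (ka0 hκ hx hx') (xa0 hx) hx' (covF13 hx hx') (covF11 hx hx') (x1 hx) (x2 hx')
        Pool.Agent.Strip051.G.IE1.Tab.C.FA11.c_mm_313 noCut_VA noExt_VA F r1 r2 r1 r2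

theorem FA11 {κ x : ℝ} (hκ : κ * h0 = kenE x) (hx : 39 / 40 ≤ x) (hx' : x < 1) : AllTA (DD x).cur (farD κ (h0 * x) (tbl tKF x) (tbl tL x)) 1 1 where
  pp := all17 (Q := fun a b c => TriA (DD x).cur (farD κ (h0 * x) (tbl tKF x) (tbl tL x)) a b c 1 1 1 1)
    (FA11_pp_001 hκ hx hx') (FA11_pp_011 hκ hx hx') (FA11_pp_012 hκ hx hx') (FA11_pp_022 hκ hx hx') (FA11_pp_023 hκ hx hx') (FA11_pp_033 hκ hx hx') (FA11_pp_101 hκ hx hx') (FA11_pp_102 hκ hx hx') (FA11_pp_112 hκ hx hx') (FA11_pp_113 hκ hx hx') (FA11_pp_123 hκ hx hx') (FA11_pp_133 hκ hx hx') (FA11_pp_202 hκ hx hx') (FA11_pp_203 hκ hx hx') (FA11_pp_213 hκ hx hx') (FA11_pp_303 hκ hx hx') (FA11_pp_313 hκ hx hx')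
  pm := all17 (Q := fun a b c => TriA (DD x).cur (farD κ (h0 * x) (tbl tKF x) (tbl tL x)) a b c 1 1 1 (-1))
    (FA11_pm_001 hκ hx hx') (FA11_pm_011 hκ hx hx') (FA11_pm_012 hκ hx hx') (FA11_pm_022 hκ hx hx') (FA11_pm_023 hκ hx hx') (FA11_pm_033 hκ hx hx') (FA11_pm_101 hκ hx hx') (FA11_pm_102 hκ hx hx') (FA11_pm_112 hκ hx hx') (FA11_pm_113 hκ hx hx') (FA11_pm_123 hκ hx hx') (FA11_pm_133 hκ hx hx') (FA11_pm_202 hκ hx hx') (FA11_pm_203 hκ hx hx') (FA11_pm_213 hκ hx hx') (FA11_pm_303 hκ hx hx') (FA11_pm_313 hκ hx hx')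
  mm := all17 (Q := fun a b c => TriA (DD x).cur (farD κ (h0 * x) (tbl tKF x) (tbl tL x)) a b c 1 1 (-1) (-1))
    (FA11_mm_001 hκ hx hx') (FA11_mm_011 hκ hx hx') (FA11_mm_012 hκ hx hx') (FA11_mm_022 hκ hx hx') (FA11_mm_023 hκ hx hx') (FA11_mm_033 hκ hx hx') (FA11_mm_101 hκ hx hx') (FA11_mm_102 hκ hx hx') (FA11_mm_112 hκ hx hx') (FA11_mm_113 hκ hx hx') (FA11_mm_123 hκ hx hx') (FA11_mm_133 hκ hx hx') (FA11_mm_202 hκ hx hx') (FA11_mm_203 hκ hx hx') (FA11_mm_213 hκ hx hx') (FA11_mm_303 hκ hx hx') (FA11_mm_313 hκ hx hx')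

theorem FA12_pp_001 {κ x : ℝ} (hκ : κ * h0 = kenE x) (hx : 39 / 40 ≤ x) (hx' : x < 1) :
    TriA (DD x).cur (farD κ (h0 * x) (tbl tKF x) (tbl tL x)) 0 0 1 1 2 1 1 :=
  (sideF hx hx').farA (Or.inl rfl) (Or.inl rfl) fun y y' F r1 r2 =>
    farXA_cert (s1 := true) (s2 := true) rfl hκ (ka0 hκ hx hx') (xa0 hx) hx' (covF10 hx hx') (covF20 hx hx') (x1 hx) (x2 hx')
        Pool.Agent.Strip051.G.IE1.Tab.C.FA12.c_pp_001 noCut_VA noExt_VA F r1 r2 r1 r2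

theorem FA12_pp_011 {κ x : ℝ} (hκ : κ * h0 = kenE x) (hx : 39 / 40 ≤ x) (hx' : x < 1) :
    TriA (DD x).cur (farD κ (h0 * x) (tbl tKF x) (tbl tL x)) 0 1 1 1 2 1 1 :=
  (sideF hx hx').farA (Or.inl rfl) (Or.inl rfl) fun y y' F r1 r2 =>
    farXA_cert (s1 := true) (s2 := true) rfl hκ (ka0 hκ hx hx') (xa0 hx) hx' (covF10 hx hx') (covF21 hx hx') (x1 hx) (x2 hx')
        Pool.Agent.Strip051.G.IE1.Tab.C.FA12.c_pp_011 noCut_VA noExt_VA F r1 r2 r1 r2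

theorem FA12_pp_012 {κ x : ℝ} (hκ : κ * h0 = kenE x) (hx : 39 / 40 ≤ x) (hx' : x < 1) :
    TriA (DD x).cur (farD κ (h0 * x) (tbl tKF x) (tbl tL x)) 0 1 2 1 2 1 1 :=
  (sideF hx hx').farA (Or.inl rfl) (Or.inl rfl) fun y y' F r1 r2 =>
    farXA_cert (s1 := true) (s2 := true) rfl hκ (ka0 hκ hx hx') (xa0 hx) hx' (covF10 hx hx') (covF21 hx hx') (x1 hx) (x2 hx')
        Pool.Agent.Strip051.G.IE1.Tab.C.FA12.c_pp_012 noCut_VA noExt_VA F r1 r2 r1 r2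

theorem FA12_pp_022 {κ x : ℝ} (hκ : κ * h0 = kenE x) (hx : 39 / 40 ≤ x) (hx' : x < 1) :
    TriA (DD x).cur (farD κ (h0 * x) (tbl tKF x) (tbl tL x)) 0 2 2 1 2 1 1 :=
  (sideF hx hx').farA (Or.inl rfl) (Or.inl rfl) fun y y' F r1 r2 =>
    (lt_or_ge (h0 * y') 1).elim
      (fun g => farXA_cert (s1 := true) (s2 := true) rfl hκ (ka0 hκ hx hx') (xa0 hx) hx' (covF10 hx hx') (covF22a hx hx') (x1 hx) (x2 hx')
        Pool.Agent.Strip051.G.IE1.Tab.C.FA12.c_pp_022_a noCut_VA noExt_VA F r1 r2 r1 ⟨r2, g⟩)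
      (fun g => farXA_cert (s1 := true) (s2 := true) rfl hκ (ka0 hκ hx hx') (xa0 hx) hx' (covF10 hx hx') (covF22b hx hx') (x1 hx) (x2 hx')
        Pool.Agent.Strip051.G.IE1.Tab.C.FA12.c_pp_022_b noCut_VA noExt_VA F r1 r2 r1 ⟨r2, g⟩)

theorem FA12_pp_023 {κ x : ℝ} (hκ : κ * h0 = kenE x) (hx : 39 / 40 ≤ x) (hx' : x < 1) :
    TriA (DD x).cur (farD κ (h0 * x) (tbl tKF x) (tbl tL x)) 0 2 3 1 2 1 1 :=
  (sideF hx hx').farA (Or.inl rfl) (Or.inl rfl) fun y y' F r1 r2 =>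
    (lt_or_ge (h0 * y') 1).elim
      (fun g => farXA_cert (s1 := true) (s2 := true) rfl hκ (ka0 hκ hx hx') (xa0 hx) hx' (covF10 hx hx') (covF22a hx hx') (x1 hx) (x2 hx')
        Pool.Agent.Strip051.G.IE1.Tab.C.FA12.c_pp_023_a noCut_VA noExt_VA F r1 r2 r1 ⟨r2, g⟩)
      (fun g => farXA_cert (s1 := true) (s2 := true) rfl hκ (ka0 hκ hx hx') (xa0 hx) hx' (covF10 hx hx') (covF22b hx hx') (x1 hx) (x2 hx')
        Pool.Agent.Strip051.G.IE1.Tab.C.FA12.c_pp_023_b noCut_VA noExt_VA F r1 r2 r1 ⟨r2, g⟩)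

theorem FA12_pp_033 {κ x : ℝ} (hκ : κ * h0 = kenE x) (hx : 39 / 40 ≤ x) (hx' : x < 1) :
    TriA (DD x).cur (farD κ (h0 * x) (tbl tKF x) (tbl tL x)) 0 3 3 1 2 1 1 :=
  (sideF hx hx').farA (Or.inl rfl) (Or.inl rfl) fun y y' F r1 r2 =>
    farXA_cert (s1 := true) (s2 := true) rfl hκ (ka0 hκ hx hx') (xa0 hx) hx' (covF10 hx hx') (covF23 hx hx') (x1 hx) (x2 hx')
        Pool.Agent.Strip051.G.IE1.Tab.C.FA12.c_pp_033 noCut_VA noExt_VA F r1 r2 r1 r2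

theorem FA12_pp_101 {κ x : ℝ} (hκ : κ * h0 = kenE x) (hx : 39 / 40 ≤ x) (hx' : x < 1) :
    TriA (DD x).cur (farD κ (h0 * x) (tbl tKF x) (tbl tL x)) 1 0 1 1 2 1 1 :=
  (sideF hx hx').farA (Or.inl rfl) (Or.inl rfl) fun y y' F r1 r2 =>
    farXA_cert (s1 := true) (s2 := true) rfl hκ (ka0 hκ hx hx') (xa0 hx) hx' (covF11 hx hx') (covF20 hx hx') (x1 hx) (x2 hx')
        Pool.Agent.Strip051.G.IE1.Tab.C.FA12.c_pp_101 noCut_VA noExt_VA F r1 r2 r1 r2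

theorem FA12_pp_102 {κ x : ℝ} (hκ : κ * h0 = kenE x) (hx : 39 / 40 ≤ x) (hx' : x < 1) :
    TriA (DD x).cur (farD κ (h0 * x) (tbl tKF x) (tbl tL x)) 1 0 2 1 2 1 1 :=
  (sideF hx hx').farA (Or.inl rfl) (Or.inl rfl) fun y y' F r1 r2 =>
    farXA_cert (s1 := true) (s2 := true) rfl hκ (ka0 hκ hx hx') (xa0 hx) hx' (covF11 hx hx') (covF20 hx hx') (x1 hx) (x2 hx')
        Pool.Agent.Strip051.G.IE1.Tab.C.FA12.c_pp_102 noCut_VA noExt_VA F r1 r2 r1 r2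

theorem FA12_pp_112 {κ x : ℝ} (hκ : κ * h0 = kenE x) (hx : 39 / 40 ≤ x) (hx' : x < 1) :
    TriA (DD x).cur (farD κ (h0 * x) (tbl tKF x) (tbl tL x)) 1 1 2 1 2 1 1 :=
  (sideF hx hx').farA (Or.inl rfl) (Or.inl rfl) fun y y' F r1 r2 =>
    farXA_cert (s1 := true) (s2 := true) rfl hκ (ka0 hκ hx hx') (xa0 hx) hx' (covF11 hx hx') (covF21 hx hx') (x1 hx) (x2 hx')
        Pool.Agent.Strip051.G.IE1.Tab.C.FA12.c_pp_112 noCut_VA noExt_VA F r1 r2 r1 r2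

theorem FA12_pp_113 {κ x : ℝ} (hκ : κ * h0 = kenE x) (hx : 39 / 40 ≤ x) (hx' : x < 1) :
    TriA (DD x).cur (farD κ (h0 * x) (tbl tKF x) (tbl tL x)) 1 1 3 1 2 1 1 :=
  (sideF hx hx').farA (Or.inl rfl) (Or.inl rfl) fun y y' F r1 r2 =>
    farXA_cert (s1 := true) (s2 := true) rfl hκ (ka0 hκ hx hx') (xa0 hx) hx' (covF11 hx hx') (covF21 hx hx') (x1 hx) (x2 hx')
        Pool.Agent.Strip051.G.IE1.Tab.C.FA12.c_pp_113 noCut_VA noExt_VA F r1 r2 r1 r2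

theorem FA12_pp_123 {κ x : ℝ} (hκ : κ * h0 = kenE x) (hx : 39 / 40 ≤ x) (hx' : x < 1) :
    TriA (DD x).cur (farD κ (h0 * x) (tbl tKF x) (tbl tL x)) 1 2 3 1 2 1 1 :=
  (sideF hx hx').farA (Or.inl rfl) (Or.inl rfl) fun y y' F r1 r2 =>
    (lt_or_ge (h0 * y') 1).elim
      (fun g => farXA_cert (s1 := true) (s2 := true) rfl hκ (ka0 hκ hx hx') (xa0 hx) hx' (covF11 hx hx') (covF22a hx hx') (x1 hx) (x2 hx')
        Pool.Agent.Strip051.G.IE1.Tab.C.FA12.c_pp_123_a noCut_VA noExt_VA F r1 r2 r1 ⟨r2, g⟩)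
      (fun g => farXA_cert (s1 := true) (s2 := true) rfl hκ (ka0 hκ hx hx') (xa0 hx) hx' (covF11 hx hx') (covF22b hx hx') (x1 hx) (x2 hx')
        Pool.Agent.Strip051.G.IE1.Tab.C.FA12.c_pp_123_b noCut_VA noExt_VA F r1 r2 r1 ⟨r2, g⟩)

theorem FA12_pp_133 {κ x : ℝ} (hκ : κ * h0 = kenE x) (hx : 39 / 40 ≤ x) (hx' : x < 1) :
    TriA (DD x).cur (farD κ (h0 * x) (tbl tKF x) (tbl tL x)) 1 3 3 1 2 1 1 :=
  (sideF hx hx').farA (Or.inl rfl) (Or.inl rfl) fun y y' F r1 r2 =>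
    farXA_cert (s1 := true) (s2 := true) rfl hκ (ka0 hκ hx hx') (xa0 hx) hx' (covF11 hx hx') (covF23 hx hx') (x1 hx) (x2 hx')
        Pool.Agent.Strip051.G.IE1.Tab.C.FA12.c_pp_133 noCut_VA noExt_VA F r1 r2 r1 r2

theorem FA12_pp_202 {κ x : ℝ} (hκ : κ * h0 = kenE x) (hx : 39 / 40 ≤ x) (hx' : x < 1) :
    TriA (DD x).cur (farD κ (h0 * x) (tbl tKF x) (tbl tL x)) 2 0 2 1 2 1 1 :=
  (sideF hx hx').farA (Or.inl rfl) (Or.inl rfl) fun y y' F r1 r2 =>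
    (lt_or_ge (h0 * y) 1).elim
      (fun h => farXA_cert (s1 := true) (s2 := true) rfl hκ (ka0 hκ hx hx') (xa0 hx) hx' (covF12a hx hx') (covF20 hx hx') (x1 hx) (x2 hx')
        Pool.Agent.Strip051.G.IE1.Tab.C.FA12.c_pp_202_a noCut_VA noExt_VA F r1 r2 ⟨r1, h⟩ r2)
      (fun h => farXA_cert (s1 := true) (s2 := true) rfl hκ (ka0 hκ hx hx') (xa0 hx) hx' (covF12b hx hx') (covF20 hx hx') (x1 hx) (x2 hx')
        Pool.Agent.Strip051.G.IE1.Tab.C.FA12.c_pp_202_b noCut_VA noExt_VA F r1 r2 ⟨r1, h⟩ r2)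

theorem FA12_pp_203 {κ x : ℝ} (hκ : κ * h0 = kenE x) (hx : 39 / 40 ≤ x) (hx' : x < 1) :
    TriA (DD x).cur (farD κ (h0 * x) (tbl tKF x) (tbl tL x)) 2 0 3 1 2 1 1 :=
  (sideF hx hx').farA (Or.inl rfl) (Or.inl rfl) fun y y' F r1 r2 =>
    (lt_or_ge (h0 * y) 1).elim
      (fun h => farXA_cert (s1 := true) (s2 := true) rfl hκ (ka0 hκ hx hx') (xa0 hx) hx' (covF12a hx hx') (covF20 hx hx') (x1 hx) (x2 hx')
        Pool.Agent.Strip051.G.IE1.Tab.C.FA12.c_pp_203_a noCut_VA noExt_VA F r1 r2 ⟨r1, h⟩ r2)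
      (fun h => farXA_cert (s1 := true) (s2 := true) rfl hκ (ka0 hκ hx hx') (xa0 hx) hx' (covF12b hx hx') (covF20 hx hx') (x1 hx) (x2 hx')
        Pool.Agent.Strip051.G.IE1.Tab.C.FA12.c_pp_203_b noCut_VA noExt_VA F r1 r2 ⟨r1, h⟩ r2)

theorem FA12_pp_213 {κ x : ℝ} (hκ : κ * h0 = kenE x) (hx : 39 / 40 ≤ x) (hx' : x < 1) :
    TriA (DD x).cur (farD κ (h0 * x) (tbl tKF x) (tbl tL x)) 2 1 3 1 2 1 1 :=
  (sideF hx hx').farA (Or.inl rfl) (Or.inl rfl) fun y y' F r1 r2 =>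
    (lt_or_ge (h0 * y) 1).elim
      (fun h => farXA_cert (s1 := true) (s2 := true) rfl hκ (ka0 hκ hx hx') (xa0 hx) hx' (covF12a hx hx') (covF21 hx hx') (x1 hx) (x2 hx')
        Pool.Agent.Strip051.G.IE1.Tab.C.FA12.c_pp_213_a noCut_VA noExt_VA F r1 r2 ⟨r1, h⟩ r2)
      (fun h => farXA_cert (s1 := true) (s2 := true) rfl hκ (ka0 hκ hx hx') (xa0 hx) hx' (covF12b hx hx') (covF21 hx hx') (x1 hx) (x2 hx')
        Pool.Agent.Strip051.G.IE1.Tab.C.FA12.c_pp_213_b noCut_VA noExt_VA F r1 r2 ⟨r1, h⟩ r2)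

theorem FA12_pp_303 {κ x : ℝ} (hκ : κ * h0 = kenE x) (hx : 39 / 40 ≤ x) (hx' : x < 1) :
    TriA (DD x).cur (farD κ (h0 * x) (tbl tKF x) (tbl tL x)) 3 0 3 1 2 1 1 :=
  (sideF hx hx').farA (Or.inl rfl) (Or.inl rfl) fun y y' F r1 r2 =>
    farXA_cert (s1 := true) (s2 := true) rfl hκ (ka0 hκ hx hx') (xa0 hx) hx' (covF13 hx hx') (covF20 hx hx') (x1 hx) (x2 hx')
        Pool.Agent.Strip051.G.IE1.Tab.C.FA12.c_pp_303 noCut_VA noExt_VA F r1 r2 r1 r2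

theorem FA12_pp_313 {κ x : ℝ} (hκ : κ * h0 = kenE x) (hx : 39 / 40 ≤ x) (hx' : x < 1) :
    TriA (DD x).cur (farD κ (h0 * x) (tbl tKF x) (tbl tL x)) 3 1 3 1 2 1 1 :=
  (sideF hx hx').farA (Or.inl rfl) (Or.inl rfl) fun y y' F r1 r2 =>
    farXA_cert (s1 := true) (s2 := true) rfl hκ (ka0 hκ hx hx') (xa0 hx) hx' (covF13 hx hx') (covF21 hx hx') (x1 hx) (x2 hx')
        Pool.Agent.Strip051.G.IE1.Tab.C.FA12.c_pp_313 noCut_VA noExt_VA F r1 r2 r1 r2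

theorem FA12_pm_001 {κ x : ℝ} (hκ : κ * h0 = kenE x) (hx : 39 / 40 ≤ x) (hx' : x < 1) :
    TriA (DD x).cur (farD κ (h0 * x) (tbl tKF x) (tbl tL x)) 0 0 1 1 2 1 (-1) :=
  (sideF hx hx').farA (Or.inl rfl) (Or.inr rfl) fun y y' F r1 r2 =>
    farXA_cert (s1 := true) (s2 := false) rfl hκ (ka0 hκ hx hx') (xa0 hx) hx' (covF10 hx hx') (covF20 hx hx') (x1 hx) (x2 hx')
        Pool.Agent.Strip051.G.IE1.Tab.C.FA12.c_pm_001 noCut_VA noExt_VA F r1 r2 r1 r2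

theorem FA12_pm_011 {κ x : ℝ} (hκ : κ * h0 = kenE x) (hx : 39 / 40 ≤ x) (hx' : x < 1) :
    TriA (DD x).cur (farD κ (h0 * x) (tbl tKF x) (tbl tL x)) 0 1 1 1 2 1 (-1) :=
  (sideF hx hx').farA (Or.inl rfl) (Or.inr rfl) fun y y' F r1 r2 =>
    farXA_cert (s1 := true) (s2 := false) rfl hκ (ka0 hκ hx hx') (xa0 hx) hx' (covF10 hx hx') (covF21 hx hx') (x1 hx) (x2 hx')
        Pool.Agent.Strip051.G.IE1.Tab.C.FA12.c_pm_011 noCut_VA noExt_VA F r1 r2 r1 r2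

theorem FA12_pm_012 {κ x : ℝ} (hκ : κ * h0 = kenE x) (hx : 39 / 40 ≤ x) (hx' : x < 1) :
    TriA (DD x).cur (farD κ (h0 * x) (tbl tKF x) (tbl tL x)) 0 1 2 1 2 1 (-1) :=
  (sideF hx hx').farA (Or.inl rfl) (Or.inr rfl) fun y y' F r1 r2 =>
    farXA_cert (s1 := true) (s2 := false) rfl hκ (ka0 hκ hx hx') (xa0 hx) hx' (covF10 hx hx') (covF21 hx hx') (x1 hx) (x2 hx')
        Pool.Agent.Strip051.G.IE1.Tab.C.FA12.c_pm_012 noCut_VA noExt_VA F r1 r2 r1 r2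

theorem FA12_pm_022 {κ x : ℝ} (hκ : κ * h0 = kenE x) (hx : 39 / 40 ≤ x) (hx' : x < 1) :
    TriA (DD x).cur (farD κ (h0 * x) (tbl tKF x) (tbl tL x)) 0 2 2 1 2 1 (-1) :=
  (sideF hx hx').farA (Or.inl rfl) (Or.inr rfl) fun y y' F r1 r2 =>
    (lt_or_ge (h0 * y') 1).elim
      (fun g => farXA_cert (s1 := true) (s2 := false) rfl hκ (ka0 hκ hx hx') (xa0 hx) hx' (covF10 hx hx') (covF22a hx hx') (x1 hx) (x2 hx')
        Pool.Agent.Strip051.G.IE1.Tab.C.FA12.c_pm_022_a noCut_VA noExt_VA F r1 r2 r1 ⟨r2, g⟩)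
      (fun g => farXA_cert (s1 := true) (s2 := false) rfl hκ (ka0 hκ hx hx') (xa0 hx) hx' (covF10 hx hx') (covF22b hx hx') (x1 hx) (x2 hx')
        Pool.Agent.Strip051.G.IE1.Tab.C.FA12.c_pm_022_b noCut_VA noExt_VA F r1 r2 r1 ⟨r2, g⟩)

theorem FA12_pm_023 {κ x : ℝ} (hκ : κ * h0 = kenE x) (hx : 39 / 40 ≤ x) (hx' : x < 1) :
    TriA (DD x).cur (farD κ (h0 * x) (tbl tKF x) (tbl tL x)) 0 2 3 1 2 1 (-1) :=
  (sideF hx hx').farA (Or.inl rfl) (Or.inr rfl) fun y y' F r1 r2 =>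
    (lt_or_ge (h0 * y') 1).elim
      (fun g => farXA_cert (s1 := true) (s2 := false) rfl hκ (ka0 hκ hx hx') (xa0 hx) hx' (covF10 hx hx') (covF22a hx hx') (x1 hx) (x2 hx')
        Pool.Agent.Strip051.G.IE1.Tab.C.FA12.c_pm_023_a noCut_VA noExt_VA F r1 r2 r1 ⟨r2, g⟩)
      (fun g => farXA_cert (s1 := true) (s2 := false) rfl hκ (ka0 hκ hx hx') (xa0 hx) hx' (covF10 hx hx') (covF22b hx hx') (x1 hx) (x2 hx')
        Pool.Agent.Strip051.G.IE1.Tab.C.FA12.c_pm_023_b noCut_VA noExt_VA F r1 r2 r1 ⟨r2, g⟩)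

theorem FA12_pm_033 {κ x : ℝ} (hκ : κ * h0 = kenE x) (hx : 39 / 40 ≤ x) (hx' : x < 1) :
    TriA (DD x).cur (farD κ (h0 * x) (tbl tKF x) (tbl tL x)) 0 3 3 1 2 1 (-1) :=
  (sideF hx hx').farA (Or.inl rfl) (Or.inr rfl) fun y y' F r1 r2 =>
    farXA_cert (s1 := true) (s2 := false) rfl hκ (ka0 hκ hx hx') (xa0 hx) hx' (covF10 hx hx') (covF23 hx hx') (x1 hx) (x2 hx')
        Pool.Agent.Strip051.G.IE1.Tab.C.FA12.c_pm_033 noCut_VA noExt_VA F r1 r2 r1 r2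

theorem FA12_pm_101 {κ x : ℝ} (hκ : κ * h0 = kenE x) (hx : 39 / 40 ≤ x) (hx' : x < 1) :
    TriA (DD x).cur (farD κ (h0 * x) (tbl tKF x) (tbl tL x)) 1 0 1 1 2 1 (-1) :=
  (sideF hx hx').farA (Or.inl rfl) (Or.inr rfl) fun y y' F r1 r2 =>
    farXA_cert (s1 := true) (s2 := false) rfl hκ (ka0 hκ hx hx') (xa0 hx) hx' (covF11 hx hx') (covF20 hx hx') (x1 hx) (x2 hx')
        Pool.Agent.Strip051.G.IE1.Tab.C.FA12.c_pm_101 noCut_VA noExt_VA F r1 r2 r1 r2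

theorem FA12_pm_102 {κ x : ℝ} (hκ : κ * h0 = kenE x) (hx : 39 / 40 ≤ x) (hx' : x < 1) :
    TriA (DD x).cur (farD κ (h0 * x) (tbl tKF x) (tbl tL x)) 1 0 2 1 2 1 (-1) :=
  (sideF hx hx').farA (Or.inl rfl) (Or.inr rfl) fun y y' F r1 r2 =>
    farXA_cert (s1 := true) (s2 := false) rfl hκ (ka0 hκ hx hx') (xa0 hx) hx' (covF11 hx hx') (covF20 hx hx') (x1 hx) (x2 hx')
        Pool.Agent.Strip051.G.IE1.Tab.C.FA12.c_pm_102 noCut_VA noExt_VA F r1 r2 r1 r2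

theorem FA12_pm_112 {κ x : ℝ} (hκ : κ * h0 = kenE x) (hx : 39 / 40 ≤ x) (hx' : x < 1) :
    TriA (DD x).cur (farD κ (h0 * x) (tbl tKF x) (tbl tL x)) 1 1 2 1 2 1 (-1) :=
  (sideF hx hx').farA (Or.inl rfl) (Or.inr rfl) fun y y' F r1 r2 =>
    farXA_cert (s1 := true) (s2 := false) rfl hκ (ka0 hκ hx hx') (xa0 hx) hx' (covF11 hx hx') (covF21 hx hx') (x1 hx) (x2 hx')
        Pool.Agent.Strip051.G.IE1.Tab.C.FA12.c_pm_112 noCut_VA noExt_VA F r1 r2 r1 r2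

theorem FA12_pm_113 {κ x : ℝ} (hκ : κ * h0 = kenE x) (hx : 39 / 40 ≤ x) (hx' : x < 1) :
    TriA (DD x).cur (farD κ (h0 * x) (tbl tKF x) (tbl tL x)) 1 1 3 1 2 1 (-1) :=
  (sideF hx hx').farA (Or.inl rfl) (Or.inr rfl) fun y y' F r1 r2 =>
    farXA_cert (s1 := true) (s2 := false) rfl hκ (ka0 hκ hx hx') (xa0 hx) hx' (covF11 hx hx') (covF21 hx hx') (x1 hx) (x2 hx')
        Pool.Agent.Strip051.G.IE1.Tab.C.FA12.c_pm_113 noCut_VA noExt_VA F r1 r2 r1 r2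

theorem FA12_pm_123 {κ x : ℝ} (hκ : κ * h0 = kenE x) (hx : 39 / 40 ≤ x) (hx' : x < 1) :
    TriA (DD x).cur (farD κ (h0 * x) (tbl tKF x) (tbl tL x)) 1 2 3 1 2 1 (-1) :=
  (sideF hx hx').farA (Or.inl rfl) (Or.inr rfl) fun y y' F r1 r2 =>
    (lt_or_ge (h0 * y') 1).elim
      (fun g => farXA_cert (s1 := true) (s2 := false) rfl hκ (ka0 hκ hx hx') (xa0 hx) hx' (covF11 hx hx') (covF22a hx hx') (x1 hx) (x2 hx')
        Pool.Agent.Strip051.G.IE1.Tab.C.FA12.c_pm_123_a noCut_VA noExt_VA F r1 r2 r1 ⟨r2, g⟩)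
      (fun g => farXA_cert (s1 := true) (s2 := false) rfl hκ (ka0 hκ hx hx') (xa0 hx) hx' (covF11 hx hx') (covF22b hx hx') (x1 hx) (x2 hx')
        Pool.Agent.Strip051.G.IE1.Tab.C.FA12.c_pm_123_b noCut_VA noExt_VA F r1 r2 r1 ⟨r2, g⟩)

theorem FA12_pm_133 {κ x : ℝ} (hκ : κ * h0 = kenE x) (hx : 39 / 40 ≤ x) (hx' : x < 1) :
    TriA (DD x).cur (farD κ (h0 * x) (tbl tKF x) (tbl tL x)) 1 3 3 1 2 1 (-1) :=
  (sideF hx hx').farA (Or.inl rfl) (Or.inr rfl) fun y y' F r1 r2 =>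
    farXA_cert (s1 := true) (s2 := false) rfl hκ (ka0 hκ hx hx') (xa0 hx) hx' (covF11 hx hx') (covF23 hx hx') (x1 hx) (x2 hx')
        Pool.Agent.Strip051.G.IE1.Tab.C.FA12.c_pm_133 noCut_VA noExt_VA F r1 r2 r1 r2

theorem FA12_pm_202 {κ x : ℝ} (hκ : κ * h0 = kenE x) (hx : 39 / 40 ≤ x) (hx' : x < 1) :
    TriA (DD x).cur (farD κ (h0 * x) (tbl tKF x) (tbl tL x)) 2 0 2 1 2 1 (-1) :=
  (sideF hx hx').farA (Or.inl rfl) (Or.inr rfl) fun y y' F r1 r2 =>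
    (lt_or_ge (h0 * y) 1).elim
      (fun h => farXA_cert (s1 := true) (s2 := false) rfl hκ (ka0 hκ hx hx') (xa0 hx) hx' (covF12a hx hx') (covF20 hx hx') (x1 hx) (x2 hx')
        Pool.Agent.Strip051.G.IE1.Tab.C.FA12.c_pm_202_a noCut_VA noExt_VA F r1 r2 ⟨r1, h⟩ r2)
      (fun h => farXA_cert (s1 := true) (s2 := false) rfl hκ (ka0 hκ hx hx') (xa0 hx) hx' (covF12b hx hx') (covF20 hx hx') (x1 hx) (x2 hx')
        Pool.Agent.Strip051.G.IE1.Tab.C.FA12.c_pm_202_b noCut_VA noExt_VA F r1 r2 ⟨r1, h⟩ r2)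

theorem FA12_pm_203 {κ x : ℝ} (hκ : κ * h0 = kenE x) (hx : 39 / 40 ≤ x) (hx' : x < 1) :
    TriA (DD x).cur (farD κ (h0 * x) (tbl tKF x) (tbl tL x)) 2 0 3 1 2 1 (-1) :=
  (sideF hx hx').farA (Or.inl rfl) (Or.inr rfl) fun y y' F r1 r2 =>
    (lt_or_ge (h0 * y) 1).elim
      (fun h => farXA_cert (s1 := true) (s2 := false) rfl hκ (ka0 hκ hx hx') (xa0 hx) hx' (covF12a hx hx') (covF20 hx hx') (x1 hx) (x2 hx')
        Pool.Agent.Strip051.G.IE1.Tab.C.FA12.c_pm_203_a noCut_VA noExt_VA F r1 r2 ⟨r1, h⟩ r2)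
      (fun h => farXA_cert (s1 := true) (s2 := false) rfl hκ (ka0 hκ hx hx') (xa0 hx) hx' (covF12b hx hx') (covF20 hx hx') (x1 hx) (x2 hx')
        Pool.Agent.Strip051.G.IE1.Tab.C.FA12.c_pm_203_b noCut_VA noExt_VA F r1 r2 ⟨r1, h⟩ r2)

theorem FA12_pm_213 {κ x : ℝ} (hκ : κ * h0 = kenE x) (hx : 39 / 40 ≤ x) (hx' : x < 1) :
    TriA (DD x).cur (farD κ (h0 * x) (tbl tKF x) (tbl tL x)) 2 1 3 1 2 1 (-1) :=
  (sideF hx hx').farA (Or.inl rfl) (Or.inr rfl) fun y y' F r1 r2 =>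
    (lt_or_ge (h0 * y) 1).elim
      (fun h => farXA_cert (s1 := true) (s2 := false) rfl hκ (ka0 hκ hx hx') (xa0 hx) hx' (covF12a hx hx') (covF21 hx hx') (x1 hx) (x2 hx')
        Pool.Agent.Strip051.G.IE1.Tab.C.FA12.c_pm_213_a noCut_VA noExt_VA F r1 r2 ⟨r1, h⟩ r2)
      (fun h => farXA_cert (s1 := true) (s2 := false) rfl hκ (ka0 hκ hx hx') (xa0 hx) hx' (covF12b hx hx') (covF21 hx hx') (x1 hx) (x2 hx')
        Pool.Agent.Strip051.G.IE1.Tab.C.FA12.c_pm_213_b noCut_VA noExt_VA F r1 r2 ⟨r1, h⟩ r2)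

theorem FA12_pm_303 {κ x : ℝ} (hκ : κ * h0 = kenE x) (hx : 39 / 40 ≤ x) (hx' : x < 1) :
    TriA (DD x).cur (farD κ (h0 * x) (tbl tKF x) (tbl tL x)) 3 0 3 1 2 1 (-1) :=
  (sideF hx hx').farA (Or.inl rfl) (Or.inr rfl) fun y y' F r1 r2 =>
    farXA_cert (s1 := true) (s2 := false) rfl hκ (ka0 hκ hx hx') (xa0 hx) hx' (covF13 hx hx') (covF20 hx hx') (x1 hx) (x2 hx')
        Pool.Agent.Strip051.G.IE1.Tab.C.FA12.c_pm_303 noCut_VA noExt_VA F r1 r2 r1 r2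

theorem FA12_pm_313 {κ x : ℝ} (hκ : κ * h0 = kenE x) (hx : 39 / 40 ≤ x) (hx' : x < 1) :
    TriA (DD x).cur (farD κ (h0 * x) (tbl tKF x) (tbl tL x)) 3 1 3 1 2 1 (-1) :=
  (sideF hx hx').farA (Or.inl rfl) (Or.inr rfl) fun y y' F r1 r2 =>
    farXA_cert (s1 := true) (s2 := false) rfl hκ (ka0 hκ hx hx') (xa0 hx) hx' (covF13 hx hx') (covF21 hx hx') (x1 hx) (x2 hx')
        Pool.Agent.Strip051.G.IE1.Tab.C.FA12.c_pm_313 noCut_VA noExt_VA F r1 r2 r1 r2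

theorem FA12_mm_001 {κ x : ℝ} (hκ : κ * h0 = kenE x) (hx : 39 / 40 ≤ x) (hx' : x < 1) :
    TriA (DD x).cur (farD κ (h0 * x) (tbl tKF x) (tbl tL x)) 0 0 1 1 2 (-1) (-1) :=
  (sideF hx hx').farA (Or.inr rfl) (Or.inr rfl) fun y y' F r1 r2 =>
    farXA_cert (s1 := false) (s2 := false) rfl hκ (ka0 hκ hx hx') (xa0 hx) hx' (covF10 hx hx') (covF20 hx hx') (x1 hx) (x2 hx')
        Pool.Agent.Strip051.G.IE1.Tab.C.FA12.c_mm_001 noCut_VA noExt_VA F r1 r2 r1 r2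

theorem FA12_mm_011 {κ x : ℝ} (hκ : κ * h0 = kenE x) (hx : 39 / 40 ≤ x) (hx' : x < 1) :
    TriA (DD x).cur (farD κ (h0 * x) (tbl tKF x) (tbl tL x)) 0 1 1 1 2 (-1) (-1) :=
  (sideF hx hx').farA (Or.inr rfl) (Or.inr rfl) fun y y' F r1 r2 =>
    farXA_cert (s1 := false) (s2 := false) rfl hκ (ka0 hκ hx hx') (xa0 hx) hx' (covF10 hx hx') (covF21 hx hx') (x1 hx) (x2 hx')
        Pool.Agent.Strip051.G.IE1.Tab.C.FA12.c_mm_011 noCut_VA noExt_VA F r1 r2 r1 r2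

theorem FA12_mm_012 {κ x : ℝ} (hκ : κ * h0 = kenE x) (hx : 39 / 40 ≤ x) (hx' : x < 1) :
    TriA (DD x).cur (farD κ (h0 * x) (tbl tKF x) (tbl tL x)) 0 1 2 1 2 (-1) (-1) :=
  (sideF hx hx').farA (Or.inr rfl) (Or.inr rfl) fun y y' F r1 r2 =>
    farXA_cert (s1 := false) (s2 := false) rfl hκ (ka0 hκ hx hx') (xa0 hx) hx' (covF10 hx hx') (covF21 hx hx') (x1 hx) (x2 hx')
        Pool.Agent.Strip051.G.IE1.Tab.C.FA12.c_mm_012 noCut_VA noExt_VA F r1 r2 r1 r2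

theorem FA12_mm_022 {κ x : ℝ} (hκ : κ * h0 = kenE x) (hx : 39 / 40 ≤ x) (hx' : x < 1) :
    TriA (DD x).cur (farD κ (h0 * x) (tbl tKF x) (tbl tL x)) 0 2 2 1 2 (-1) (-1) :=
  (sideF hx hx').farA (Or.inr rfl) (Or.inr rfl) fun y y' F r1 r2 =>
    (lt_or_ge (h0 * y') 1).elim
      (fun g => farXA_cert (s1 := false) (s2 := false) rfl hκ (ka0 hκ hx hx') (xa0 hx) hx' (covF10 hx hx') (covF22a hx hx') (x1 hx) (x2 hx')
        Pool.Agent.Strip051.G.IE1.Tab.C.FA12.c_mm_022_a noCut_VA noExt_VA F r1 r2 r1 ⟨r2, g⟩)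
      (fun g => farXA_cert (s1 := false) (s2 := false) rfl hκ (ka0 hκ hx hx') (xa0 hx) hx' (covF10 hx hx') (covF22b hx hx') (x1 hx) (x2 hx')
        Pool.Agent.Strip051.G.IE1.Tab.C.FA12.c_mm_022_b noCut_VA noExt_VA F r1 r2 r1 ⟨r2, g⟩)

theorem FA12_mm_023 {κ x : ℝ} (hκ : κ * h0 = kenE x) (hx : 39 / 40 ≤ x) (hx' : x < 1) :
    TriA (DD x).cur (farD κ (h0 * x) (tbl tKF x) (tbl tL x)) 0 2 3 1 2 (-1) (-1) :=
  (sideF hx hx').farA (Or.inr rfl) (Or.inr rfl) fun y y' F r1 r2 =>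
    (lt_or_ge (h0 * y') 1).elim
      (fun g => farXA_cert (s1 := false) (s2 := false) rfl hκ (ka0 hκ hx hx') (xa0 hx) hx' (covF10 hx hx') (covF22a hx hx') (x1 hx) (x2 hx')
        Pool.Agent.Strip051.G.IE1.Tab.C.FA12.c_mm_023_a noCut_VA noExt_VA F r1 r2 r1 ⟨r2, g⟩)
      (fun g => farXA_cert (s1 := false) (s2 := false) rfl hκ (ka0 hκ hx hx') (xa0 hx) hx' (covF10 hx hx') (covF22b hx hx') (x1 hx) (x2 hx')
        Pool.Agent.Strip051.G.IE1.Tab.C.FA12.c_mm_023_b noCut_VA noExt_VA F r1 r2 r1 ⟨r2, g⟩)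

theorem FA12_mm_033 {κ x : ℝ} (hκ : κ * h0 = kenE x) (hx : 39 / 40 ≤ x) (hx' : x < 1) :
    TriA (DD x).cur (farD κ (h0 * x) (tbl tKF x) (tbl tL x)) 0 3 3 1 2 (-1) (-1) :=
  (sideF hx hx').farA (Or.inr rfl) (Or.inr rfl) fun y y' F r1 r2 =>
    farXA_cert (s1 := false) (s2 := false) rfl hκ (ka0 hκ hx hx') (xa0 hx) hx' (covF10 hx hx') (covF23 hx hx') (x1 hx) (x2 hx')
        Pool.Agent.Strip051.G.IE1.Tab.C.FA12.c_mm_033 noCut_VA noExt_VA F r1 r2 r1 r2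

theorem FA12_mm_101 {κ x : ℝ} (hκ : κ * h0 = kenE x) (hx : 39 / 40 ≤ x) (hx' : x < 1) :
    TriA (DD x).cur (farD κ (h0 * x) (tbl tKF x) (tbl tL x)) 1 0 1 1 2 (-1) (-1) :=
  (sideF hx hx').farA (Or.inr rfl) (Or.inr rfl) fun y y' F r1 r2 =>
    farXA_cert (s1 := false) (s2 := false) rfl hκ (ka0 hκ hx hx') (xa0 hx) hx' (covF11 hx hx') (covF20 hx hx') (x1 hx) (x2 hx')
        Pool.Agent.Strip051.G.IE1.Tab.C.FA12.c_mm_101 noCut_VA noExt_VA F r1 r2 r1 r2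

theorem FA12_mm_102 {κ x : ℝ} (hκ : κ * h0 = kenE x) (hx : 39 / 40 ≤ x) (hx' : x < 1) :
    TriA (DD x).cur (farD κ (h0 * x) (tbl tKF x) (tbl tL x)) 1 0 2 1 2 (-1) (-1) :=
  (sideF hx hx').farA (Or.inr rfl) (Or.inr rfl) fun y y' F r1 r2 =>
    farXA_cert (s1 := false) (s2 := false) rfl hκ (ka0 hκ hx hx') (xa0 hx) hx' (covF11 hx hx') (covF20 hx hx') (x1 hx) (x2 hx')
        Pool.Agent.Strip051.G.IE1.Tab.C.FA12.c_mm_102 noCut_VA noExt_VA F r1 r2 r1 r2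

theorem FA12_mm_112 {κ x : ℝ} (hκ : κ * h0 = kenE x) (hx : 39 / 40 ≤ x) (hx' : x < 1) :
    TriA (DD x).cur (farD κ (h0 * x) (tbl tKF x) (tbl tL x)) 1 1 2 1 2 (-1) (-1) :=
  (sideF hx hx').farA (Or.inr rfl) (Or.inr rfl) fun y y' F r1 r2 =>
    farXA_cert (s1 := false) (s2 := false) rfl hκ (ka0 hκ hx hx') (xa0 hx) hx' (covF11 hx hx') (covF21 hx hx') (x1 hx) (x2 hx')
        Pool.Agent.Strip051.G.IE1.Tab.C.FA12.c_mm_112 noCut_VA noExt_VA F r1 r2 r1 r2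

theorem FA12_mm_113 {κ x : ℝ} (hκ : κ * h0 = kenE x) (hx : 39 / 40 ≤ x) (hx' : x < 1) :
    TriA (DD x).cur (farD κ (h0 * x) (tbl tKF x) (tbl tL x)) 1 1 3 1 2 (-1) (-1) :=
  (sideF hx hx').farA (Or.inr rfl) (Or.inr rfl) fun y y' F r1 r2 =>
    farXA_cert (s1 := false) (s2 := false) rfl hκ (ka0 hκ hx hx') (xa0 hx) hx' (covF11 hx hx') (covF21 hx hx') (x1 hx) (x2 hx')
        Pool.Agent.Strip051.G.IE1.Tab.C.FA12.c_mm_113 noCut_VA noExt_VA F r1 r2 r1 r2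

theorem FA12_mm_123 {κ x : ℝ} (hκ : κ * h0 = kenE x) (hx : 39 / 40 ≤ x) (hx' : x < 1) :
    TriA (DD x).cur (farD κ (h0 * x) (tbl tKF x) (tbl tL x)) 1 2 3 1 2 (-1) (-1) :=
  (sideF hx hx').farA (Or.inr rfl) (Or.inr rfl) fun y y' F r1 r2 =>
    (lt_or_ge (h0 * y') 1).elim
      (fun g => farXA_cert (s1 := false) (s2 := false) rfl hκ (ka0 hκ hx hx') (xa0 hx) hx' (covF11 hx hx') (covF22a hx hx') (x1 hx) (x2 hx')
        Pool.Agent.Strip051.G.IE1.Tab.C.FA12.c_mm_123_a noCut_VA noExt_VA F r1 r2 r1 ⟨r2, g⟩)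
      (fun g => farXA_cert (s1 := false) (s2 := false) rfl hκ (ka0 hκ hx hx') (xa0 hx) hx' (covF11 hx hx') (covF22b hx hx') (x1 hx) (x2 hx')
        Pool.Agent.Strip051.G.IE1.Tab.C.FA12.c_mm_123_b noCut_VA noExt_VA F r1 r2 r1 ⟨r2, g⟩)

theorem FA12_mm_133 {κ x : ℝ} (hκ : κ * h0 = kenE x) (hx : 39 / 40 ≤ x) (hx' : x < 1) :
    TriA (DD x).cur (farD κ (h0 * x) (tbl tKF x) (tbl tL x)) 1 3 3 1 2 (-1) (-1) :=
  (sideF hx hx').farA (Or.inr rfl) (Or.inr rfl) fun y y' F r1 r2 =>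
    farXA_cert (s1 := false) (s2 := false) rfl hκ (ka0 hκ hx hx') (xa0 hx) hx' (covF11 hx hx') (covF23 hx hx') (x1 hx) (x2 hx')
        Pool.Agent.Strip051.G.IE1.Tab.C.FA12.c_mm_133 noCut_VA noExt_VA F r1 r2 r1 r2

theorem FA12_mm_202 {κ x : ℝ} (hκ : κ * h0 = kenE x) (hx : 39 / 40 ≤ x) (hx' : x < 1) :
    TriA (DD x).cur (farD κ (h0 * x) (tbl tKF x) (tbl tL x)) 2 0 2 1 2 (-1) (-1) :=
  (sideF hx hx').farA (Or.inr rfl) (Or.inr rfl) fun y y' F r1 r2 =>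
    (lt_or_ge (h0 * y) 1).elim
      (fun h => farXA_cert (s1 := false) (s2 := false) rfl hκ (ka0 hκ hx hx') (xa0 hx) hx' (covF12a hx hx') (covF20 hx hx') (x1 hx) (x2 hx')
        Pool.Agent.Strip051.G.IE1.Tab.C.FA12.c_mm_202_a noCut_VA noExt_VA F r1 r2 ⟨r1, h⟩ r2)
      (fun h => farXA_cert (s1 := false) (s2 := false) rfl hκ (ka0 hκ hx hx') (xa0 hx) hx' (covF12b hx hx') (covF20 hx hx') (x1 hx) (x2 hx')
        Pool.Agent.Strip051.G.IE1.Tab.C.FA12.c_mm_202_b noCut_VA noExt_VA F r1 r2 ⟨r1, h⟩ r2)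

theorem FA12_mm_203 {κ x : ℝ} (hκ : κ * h0 = kenE x) (hx : 39 / 40 ≤ x) (hx' : x < 1) :
    TriA (DD x).cur (farD κ (h0 * x) (tbl tKF x) (tbl tL x)) 2 0 3 1 2 (-1) (-1) :=
  (sideF hx hx').farA (Or.inr rfl) (Or.inr rfl) fun y y' F r1 r2 =>
    (lt_or_ge (h0 * y) 1).elim
      (fun h => farXA_cert (s1 := false) (s2 := false) rfl hκ (ka0 hκ hx hx') (xa0 hx) hx' (covF12a hx hx') (covF20 hx hx') (x1 hx) (x2 hx')
        Pool.Agent.Strip051.G.IE1.Tab.C.FA12.c_mm_203_a noCut_VA noExt_VA F r1 r2 ⟨r1, h⟩ r2)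
      (fun h => farXA_cert (s1 := false) (s2 := false) rfl hκ (ka0 hκ hx hx') (xa0 hx) hx' (covF12b hx hx') (covF20 hx hx') (x1 hx) (x2 hx')
        Pool.Agent.Strip051.G.IE1.Tab.C.FA12.c_mm_203_b noCut_VA noExt_VA F r1 r2 ⟨r1, h⟩ r2)

theorem FA12_mm_213 {κ x : ℝ} (hκ : κ * h0 = kenE x) (hx : 39 / 40 ≤ x) (hx' : x < 1) :
    TriA (DD x).cur (farD κ (h0 * x) (tbl tKF x) (tbl tL x)) 2 1 3 1 2 (-1) (-1) :=
  (sideF hx hx').farA (Or.inr rfl) (Or.inr rfl) fun y y' F r1 r2 =>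
    (lt_or_ge (h0 * y) 1).elim
      (fun h => farXA_cert (s1 := false) (s2 := false) rfl hκ (ka0 hκ hx hx') (xa0 hx) hx' (covF12a hx hx') (covF21 hx hx') (x1 hx) (x2 hx')
        Pool.Agent.Strip051.G.IE1.Tab.C.FA12.c_mm_213_a noCut_VA noExt_VA F r1 r2 ⟨r1, h⟩ r2)
      (fun h => farXA_cert (s1 := false) (s2 := false) rfl hκ (ka0 hκ hx hx') (xa0 hx) hx' (covF12b hx hx') (covF21 hx hx') (x1 hx) (x2 hx')
        Pool.Agent.Strip051.G.IE1.Tab.C.FA12.c_mm_213_b noCut_VA noExt_VA F r1 r2 ⟨r1, h⟩ r2)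

theorem FA12_mm_303 {κ x : ℝ} (hκ : κ * h0 = kenE x) (hx : 39 / 40 ≤ x) (hx' : x < 1) :
    TriA (DD x).cur (farD κ (h0 * x) (tbl tKF x) (tbl tL x)) 3 0 3 1 2 (-1) (-1) :=
  (sideF hx hx').farA (Or.inr rfl) (Or.inr rfl) fun y y' F r1 r2 =>
    farXA_cert (s1 := false) (s2 := false) rfl hκ (ka0 hκ hx hx') (xa0 hx) hx' (covF13 hx hx') (covF20 hx hx') (x1 hx) (x2 hx')
        Pool.Agent.Strip051.G.IE1.Tab.C.FA12.c_mm_303 noCut_VA noExt_VA F r1 r2 r1 r2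

theorem FA12_mm_313 {κ x : ℝ} (hκ : κ * h0 = kenE x) (hx : 39 / 40 ≤ x) (hx' : x < 1) :
    TriA (DD x).cur (farD κ (h0 * x) (tbl tKF x) (tbl tL x)) 3 1 3 1 2 (-1) (-1) :=
  (sideF hx hx').farA (Or.inr rfl) (Or.inr rfl) fun y y' F r1 r2 =>
    farXA_cert (s1 := false) (s2 := false) rfl hκ (ka0 hκ hx hx') (xa0 hx) hx' (covF13 hx hx') (covF21 hx hx') (x1 hx) (x2 hx')
        Pool.Agent.Strip051.G.IE1.Tab.C.FA12.c_mm_313 noCut_VA noExt_VA F r1 r2 r1 r2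

theorem FA12 {κ x : ℝ} (hκ : κ * h0 = kenE x) (hx : 39 / 40 ≤ x) (hx' : x < 1) : AllTA (DD x).cur (farD κ (h0 * x) (tbl tKF x) (tbl tL x)) 1 2 where
  pp := all17 (Q := fun a b c => TriA (DD x).cur (farD κ (h0 * x) (tbl tKF x) (tbl tL x)) a b c 1 2 1 1)
    (FA12_pp_001 hκ hx hx') (FA12_pp_011 hκ hx hx') (FA12_pp_012 hκ hx hx') (FA12_pp_022 hκ hx hx') (FA12_pp_023 hκ hx hx') (FA12_pp_033 hκ hx hx') (FA12_pp_101 hκ hx hx') (FA12_pp_102 hκ hx hx') (FA12_pp_112 hκ hx hx') (FA12_pp_113 hκ hx hx') (FA12_pp_123 hκ hx hx') (FA12_pp_133 hκ hx hx') (FA12_pp_202 hκ hx hx') (FA12_pp_203 hκ hx hx') (FA12_pp_213 hκ hx hx') (FA12_pp_303 hκ hx hx') (FA12_pp_313 hκ hx hx')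
  pm := all17 (Q := fun a b c => TriA (DD x).cur (farD κ (h0 * x) (tbl tKF x) (tbl tL x)) a b c 1 2 1 (-1))
    (FA12_pm_001 hκ hx hx') (FA12_pm_011 hκ hx hx') (FA12_pm_012 hκ hx hx') (FA12_pm_022 hκ hx hx') (FA12_pm_023 hκ hx hx') (FA12_pm_033 hκ hx hx') (FA12_pm_101 hκ hx hx') (FA12_pm_102 hκ hx hx') (FA12_pm_112 hκ hx hx') (FA12_pm_113 hκ hx hx') (FA12_pm_123 hκ hx hx') (FA12_pm_133 hκ hx hx') (FA12_pm_202 hκ hx hx') (FA12_pm_203 hκ hx hx') (FA12_pm_213 hκ hx hx') (FA12_pm_303 hκ hx hx') (FA12_pm_313 hκ hx hx')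
  mm := all17 (Q := fun a b c => TriA (DD x).cur (farD κ (h0 * x) (tbl tKF x) (tbl tL x)) a b c 1 2 (-1) (-1))
    (FA12_mm_001 hκ hx hx') (FA12_mm_011 hκ hx hx') (FA12_mm_012 hκ hx hx') (FA12_mm_022 hκ hx hx') (FA12_mm_023 hκ hx hx') (FA12_mm_033 hκ hx hx') (FA12_mm_101 hκ hx hx') (FA12_mm_102 hκ hx hx') (FA12_mm_112 hκ hx hx') (FA12_mm_113 hκ hx hx') (FA12_mm_123 hκ hx hx') (FA12_mm_133 hκ hx hx') (FA12_mm_202 hκ hx hx') (FA12_mm_203 hκ hx hx') (FA12_mm_213 hκ hx hx') (FA12_mm_303 hκ hx hx') (FA12_mm_313 hκ hx hx')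

theorem FA13_pp_001 {κ x : ℝ} (hκ : κ * h0 = kenE x) (hx : 39 / 40 ≤ x) (hx' : x < 1) :
    TriA (DD x).cur (farD κ (h0 * x) (tbl tKF x) (tbl tL x)) 0 0 1 1 3 1 1 :=
  (sideF hx hx').farA (Or.inl rfl) (Or.inl rfl) fun y y' F r1 r2 =>
    farXA_cert (s1 := true) (s2 := true) rfl hκ (ka0 hκ hx hx') (xa0 hx) hx' (covF10 hx hx') (covF30 hx hx') (x1 hx) (x2 hx')
        Pool.Agent.Strip051.G.IE1.Tab.C.FA13.c_pp_001 noCut_VA noExt_VA F r1 r2 r1 r2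

theorem FA13_pp_011 {κ x : ℝ} (hκ : κ * h0 = kenE x) (hx : 39 / 40 ≤ x) (hx' : x < 1) :
    TriA (DD x).cur (farD κ (h0 * x) (tbl tKF x) (tbl tL x)) 0 1 1 1 3 1 1 :=
  (sideF hx hx').farA (Or.inl rfl) (Or.inl rfl) fun y y' F r1 r2 =>
    farXA_cert (s1 := true) (s2 := true) rfl hκ (ka0 hκ hx hx') (xa0 hx) hx' (covF10 hx hx') (covF31 hx hx') (x1 hx) (x2 hx')
        Pool.Agent.Strip051.G.IE1.Tab.C.FA13.c_pp_011 noCut_VA noExt_VA F r1 r2 r1 r2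

theorem FA13_pp_012 {κ x : ℝ} (hκ : κ * h0 = kenE x) (hx : 39 / 40 ≤ x) (hx' : x < 1) :
    TriA (DD x).cur (farD κ (h0 * x) (tbl tKF x) (tbl tL x)) 0 1 2 1 3 1 1 :=
  (sideF hx hx').farA (Or.inl rfl) (Or.inl rfl) fun y y' F r1 r2 =>
    farXA_cert (s1 := true) (s2 := true) rfl hκ (ka0 hκ hx hx') (xa0 hx) hx' (covF10 hx hx') (covF31 hx hx') (x1 hx) (x2 hx')
        Pool.Agent.Strip051.G.IE1.Tab.C.FA13.c_pp_012 noCut_VA noExt_VA F r1 r2 r1 r2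

theorem FA13_pp_022 {κ x : ℝ} (hκ : κ * h0 = kenE x) (hx : 39 / 40 ≤ x) (hx' : x < 1) :
    TriA (DD x).cur (farD κ (h0 * x) (tbl tKF x) (tbl tL x)) 0 2 2 1 3 1 1 :=
  (sideF hx hx').farA (Or.inl rfl) (Or.inl rfl) fun y y' F r1 r2 =>
    farXA_cert (s1 := true) (s2 := true) rfl hκ (ka0 hκ hx hx') (xa0 hx) hx' (covF10 hx hx') (covF32 hx hx') (x1 hx) (x2 hx')
        Pool.Agent.Strip051.G.IE1.Tab.C.FA13.c_pp_022 noCut_VA noExt_VA F r1 r2 r1 r2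

theorem FA13_pp_023 {κ x : ℝ} (hκ : κ * h0 = kenE x) (hx : 39 / 40 ≤ x) (hx' : x < 1) :
    TriA (DD x).cur (farD κ (h0 * x) (tbl tKF x) (tbl tL x)) 0 2 3 1 3 1 1 :=
  (sideF hx hx').farA (Or.inl rfl) (Or.inl rfl) fun y y' F r1 r2 =>
    farXA_cert (s1 := true) (s2 := true) rfl hκ (ka0 hκ hx hx') (xa0 hx) hx' (covF10 hx hx') (covF32 hx hx') (x1 hx) (x2 hx')
        Pool.Agent.Strip051.G.IE1.Tab.C.FA13.c_pp_023 noCut_VA noExt_VA F r1 r2 r1 r2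

theorem FA13_pp_033 {κ x : ℝ} (hκ : κ * h0 = kenE x) (hx : 39 / 40 ≤ x) (hx' : x < 1) :
    TriA (DD x).cur (farD κ (h0 * x) (tbl tKF x) (tbl tL x)) 0 3 3 1 3 1 1 :=
  (sideF hx hx').farA (Or.inl rfl) (Or.inl rfl) fun y y' F r1 r2 =>
    farXA_cert (s1 := true) (s2 := true) rfl hκ (ka0 hκ hx hx') (xa0 hx) hx' (covF10 hx hx') (covF33 hx hx') (x1 hx) (x2 hx')
        Pool.Agent.Strip051.G.IE1.Tab.C.FA13.c_pp_033 noCut_VA noExt_VA F r1 r2 r1 r2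

theorem FA13_pp_101 {κ x : ℝ} (hκ : κ * h0 = kenE x) (hx : 39 / 40 ≤ x) (hx' : x < 1) :
    TriA (DD x).cur (farD κ (h0 * x) (tbl tKF x) (tbl tL x)) 1 0 1 1 3 1 1 :=
  (sideF hx hx').farA (Or.inl rfl) (Or.inl rfl) fun y y' F r1 r2 =>
    farXA_cert (s1 := true) (s2 := true) rfl hκ (ka0 hκ hx hx') (xa0 hx) hx' (covF11 hx hx') (covF30 hx hx') (x1 hx) (x2 hx')
        Pool.Agent.Strip051.G.IE1.Tab.C.FA13.c_pp_101 noCut_VA noExt_VA F r1 r2 r1 r2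

theorem FA13_pp_102 {κ x : ℝ} (hκ : κ * h0 = kenE x) (hx : 39 / 40 ≤ x) (hx' : x < 1) :
    TriA (DD x).cur (farD κ (h0 * x) (tbl tKF x) (tbl tL x)) 1 0 2 1 3 1 1 :=
  (sideF hx hx').farA (Or.inl rfl) (Or.inl rfl) fun y y' F r1 r2 =>
    farXA_cert (s1 := true) (s2 := true) rfl hκ (ka0 hκ hx hx') (xa0 hx) hx' (covF11 hx hx') (covF30 hx hx') (x1 hx) (x2 hx')
        Pool.Agent.Strip051.G.IE1.Tab.C.FA13.c_pp_102 noCut_VA noExt_VA F r1 r2 r1 r2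

theorem FA13_pp_112 {κ x : ℝ} (hκ : κ * h0 = kenE x) (hx : 39 / 40 ≤ x) (hx' : x < 1) :
    TriA (DD x).cur (farD κ (h0 * x) (tbl tKF x) (tbl tL x)) 1 1 2 1 3 1 1 :=
  (sideF hx hx').farA (Or.inl rfl) (Or.inl rfl) fun y y' F r1 r2 =>
    farXA_cert (s1 := true) (s2 := true) rfl hκ (ka0 hκ hx hx') (xa0 hx) hx' (covF11 hx hx') (covF31 hx hx') (x1 hx) (x2 hx')
        Pool.Agent.Strip051.G.IE1.Tab.C.FA13.c_pp_112 noCut_VA noExt_VA F r1 r2 r1 r2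

theorem FA13_pp_113 {κ x : ℝ} (hκ : κ * h0 = kenE x) (hx : 39 / 40 ≤ x) (hx' : x < 1) :
    TriA (DD x).cur (farD κ (h0 * x) (tbl tKF x) (tbl tL x)) 1 1 3 1 3 1 1 :=
  (sideF hx hx').farA (Or.inl rfl) (Or.inl rfl) fun y y' F r1 r2 =>
    farXA_cert (s1 := true) (s2 := true) rfl hκ (ka0 hκ hx hx') (xa0 hx) hx' (covF11 hx hx') (covF31 hx hx') (x1 hx) (x2 hx')
        Pool.Agent.Strip051.G.IE1.Tab.C.FA13.c_pp_113 noCut_VA noExt_VA F r1 r2 r1 r2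

theorem FA13_pp_123 {κ x : ℝ} (hκ : κ * h0 = kenE x) (hx : 39 / 40 ≤ x) (hx' : x < 1) :
    TriA (DD x).cur (farD κ (h0 * x) (tbl tKF x) (tbl tL x)) 1 2 3 1 3 1 1 :=
  (sideF hx hx').farA (Or.inl rfl) (Or.inl rfl) fun y y' F r1 r2 =>
    farXA_cert (s1 := true) (s2 := true) rfl hκ (ka0 hκ hx hx') (xa0 hx) hx' (covF11 hx hx') (covF32 hx hx') (x1 hx) (x2 hx')
        Pool.Agent.Strip051.G.IE1.Tab.C.FA13.c_pp_123 noCut_VA noExt_VA F r1 r2 r1 r2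

theorem FA13_pp_133 {κ x : ℝ} (hκ : κ * h0 = kenE x) (hx : 39 / 40 ≤ x) (hx' : x < 1) :
    TriA (DD x).cur (farD κ (h0 * x) (tbl tKF x) (tbl tL x)) 1 3 3 1 3 1 1 :=
  (sideF hx hx').farA (Or.inl rfl) (Or.inl rfl) fun y y' F r1 r2 =>
    farXA_cert (s1 := true) (s2 := true) rfl hκ (ka0 hκ hx hx') (xa0 hx) hx' (covF11 hx hx') (covF33 hx hx') (x1 hx) (x2 hx')
        Pool.Agent.Strip051.G.IE1.Tab.C.FA13.c_pp_133 noCut_VA noExt_VA F r1 r2 r1 r2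

theorem FA13_pp_202 {κ x : ℝ} (hκ : κ * h0 = kenE x) (hx : 39 / 40 ≤ x) (hx' : x < 1) :
    TriA (DD x).cur (farD κ (h0 * x) (tbl tKF x) (tbl tL x)) 2 0 2 1 3 1 1 :=
  (sideF hx hx').farA (Or.inl rfl) (Or.inl rfl) fun y y' F r1 r2 =>
    (lt_or_ge (h0 * y) 1).elim
      (fun h => farXA_cert (s1 := true) (s2 := true) rfl hκ (ka0 hκ hx hx') (xa0 hx) hx' (covF12a hx hx') (covF30 hx hx') (x1 hx) (x2 hx')
        Pool.Agent.Strip051.G.IE1.Tab.C.FA13.c_pp_202_a noCut_VA noExt_VA F r1 r2 ⟨r1, h⟩ r2)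
      (fun h => farXA_cert (s1 := true) (s2 := true) rfl hκ (ka0 hκ hx hx') (xa0 hx) hx' (covF12b hx hx') (covF30 hx hx') (x1 hx) (x2 hx')
        Pool.Agent.Strip051.G.IE1.Tab.C.FA13.c_pp_202_b noCut_VA noExt_VA F r1 r2 ⟨r1, h⟩ r2)

theorem FA13_pp_203 {κ x : ℝ} (hκ : κ * h0 = kenE x) (hx : 39 / 40 ≤ x) (hx' : x < 1) :
    TriA (DD x).cur (farD κ (h0 * x) (tbl tKF x) (tbl tL x)) 2 0 3 1 3 1 1 :=
  (sideF hx hx').farA (Or.inl rfl) (Or.inl rfl) fun y y' F r1 r2 =>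
    (lt_or_ge (h0 * y) 1).elim
      (fun h => farXA_cert (s1 := true) (s2 := true) rfl hκ (ka0 hκ hx hx') (xa0 hx) hx' (covF12a hx hx') (covF30 hx hx') (x1 hx) (x2 hx')
        Pool.Agent.Strip051.G.IE1.Tab.C.FA13.c_pp_203_a noCut_VA noExt_VA F r1 r2 ⟨r1, h⟩ r2)
      (fun h => farXA_cert (s1 := true) (s2 := true) rfl hκ (ka0 hκ hx hx') (xa0 hx) hx' (covF12b hx hx') (covF30 hx hx') (x1 hx) (x2 hx')
        Pool.Agent.Strip051.G.IE1.Tab.C.FA13.c_pp_203_b noCut_VA noExt_VA F r1 r2 ⟨r1, h⟩ r2)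

theorem FA13_pp_213 {κ x : ℝ} (hκ : κ * h0 = kenE x) (hx : 39 / 40 ≤ x) (hx' : x < 1) :
    TriA (DD x).cur (farD κ (h0 * x) (tbl tKF x) (tbl tL x)) 2 1 3 1 3 1 1 :=
  (sideF hx hx').farA (Or.inl rfl) (Or.inl rfl) fun y y' F r1 r2 =>
    (lt_or_ge (h0 * y) 1).elim
      (fun h => farXA_cert (s1 := true) (s2 := true) rfl hκ (ka0 hκ hx hx') (xa0 hx) hx' (covF12a hx hx') (covF31 hx hx') (x1 hx) (x2 hx')
        Pool.Agent.Strip051.G.IE1.Tab.C.FA13.c_pp_213_a noCut_VA noExt_VA F r1 r2 ⟨r1, h⟩ r2)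
      (fun h => farXA_cert (s1 := true) (s2 := true) rfl hκ (ka0 hκ hx hx') (xa0 hx) hx' (covF12b hx hx') (covF31 hx hx') (x1 hx) (x2 hx')
        Pool.Agent.Strip051.G.IE1.Tab.C.FA13.c_pp_213_b noCut_VA noExt_VA F r1 r2 ⟨r1, h⟩ r2)

theorem FA13_pp_303 {κ x : ℝ} (hκ : κ * h0 = kenE x) (hx : 39 / 40 ≤ x) (hx' : x < 1) :
    TriA (DD x).cur (farD κ (h0 * x) (tbl tKF x) (tbl tL x)) 3 0 3 1 3 1 1 :=
  (sideF hx hx').farA (Or.inl rfl) (Or.inl rfl) fun y y' F r1 r2 =>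
    farXA_cert (s1 := true) (s2 := true) rfl hκ (ka0 hκ hx hx') (xa0 hx) hx' (covF13 hx hx') (covF30 hx hx') (x1 hx) (x2 hx')
        Pool.Agent.Strip051.G.IE1.Tab.C.FA13.c_pp_303 noCut_VA noExt_VA F r1 r2 r1 r2

theorem FA13_pp_313 {κ x : ℝ} (hκ : κ * h0 = kenE x) (hx : 39 / 40 ≤ x) (hx' : x < 1) :
    TriA (DD x).cur (farD κ (h0 * x) (tbl tKF x) (tbl tL x)) 3 1 3 1 3 1 1 :=
  (sideF hx hx').farA (Or.inl rfl) (Or.inl rfl) fun y y' F r1 r2 =>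
    farXA_cert (s1 := true) (s2 := true) rfl hκ (ka0 hκ hx hx') (xa0 hx) hx' (covF13 hx hx') (covF31 hx hx') (x1 hx) (x2 hx')
        Pool.Agent.Strip051.G.IE1.Tab.C.FA13.c_pp_313 noCut_VA noExt_VA F r1 r2 r1 r2

theorem FA13_pm_001 {κ x : ℝ} (hκ : κ * h0 = kenE x) (hx : 39 / 40 ≤ x) (hx' : x < 1) :
    TriA (DD x).cur (farD κ (h0 * x) (tbl tKF x) (tbl tL x)) 0 0 1 1 3 1 (-1) :=
  (sideF hx hx').farA (Or.inl rfl) (Or.inr rfl) fun y y' F r1 r2 =>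
    farXA_cert (s1 := true) (s2 := false) rfl hκ (ka0 hκ hx hx') (xa0 hx) hx' (covF10 hx hx') (covF30 hx hx') (x1 hx) (x2 hx')
        Pool.Agent.Strip051.G.IE1.Tab.C.FA13.c_pm_001 noCut_VA noExt_VA F r1 r2 r1 r2

theorem FA13_pm_011 {κ x : ℝ} (hκ : κ * h0 = kenE x) (hx : 39 / 40 ≤ x) (hx' : x < 1) :
    TriA (DD x).cur (farD κ (h0 * x) (tbl tKF x) (tbl tL x)) 0 1 1 1 3 1 (-1) :=
  (sideF hx hx').farA (Or.inl rfl) (Or.inr rfl) fun y y' F r1 r2 =>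
    farXA_cert (s1 := true) (s2 := false) rfl hκ (ka0 hκ hx hx') (xa0 hx) hx' (covF10 hx hx') (covF31 hx hx') (x1 hx) (x2 hx')
        Pool.Agent.Strip051.G.IE1.Tab.C.FA13.c_pm_011 noCut_VA noExt_VA F r1 r2 r1 r2

theorem FA13_pm_012 {κ x : ℝ} (hκ : κ * h0 = kenE x) (hx : 39 / 40 ≤ x) (hx' : x < 1) :
    TriA (DD x).cur (farD κ (h0 * x) (tbl tKF x) (tbl tL x)) 0 1 2 1 3 1 (-1) :=
  (sideF hx hx').farA (Or.inl rfl) (Or.inr rfl) fun y y' F r1 r2 =>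
    farXA_cert (s1 := true) (s2 := false) rfl hκ (ka0 hκ hx hx') (xa0 hx) hx' (covF10 hx hx') (covF31 hx hx') (x1 hx) (x2 hx')
        Pool.Agent.Strip051.G.IE1.Tab.C.FA13.c_pm_012 noCut_VA noExt_VA F r1 r2 r1 r2

theorem FA13_pm_022 {κ x : ℝ} (hκ : κ * h0 = kenE x) (hx : 39 / 40 ≤ x) (hx' : x < 1) :
    TriA (DD x).cur (farD κ (h0 * x) (tbl tKF x) (tbl tL x)) 0 2 2 1 3 1 (-1) :=
  (sideF hx hx').farA (Or.inl rfl) (Or.inr rfl) fun y y' F r1 r2 =>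
    farXA_cert (s1 := true) (s2 := false) rfl hκ (ka0 hκ hx hx') (xa0 hx) hx' (covF10 hx hx') (covF32 hx hx') (x1 hx) (x2 hx')
        Pool.Agent.Strip051.G.IE1.Tab.C.FA13.c_pm_022 noCut_VA noExt_VA F r1 r2 r1 r2

theorem FA13_pm_023 {κ x : ℝ} (hκ : κ * h0 = kenE x) (hx : 39 / 40 ≤ x) (hx' : x < 1) :
    TriA (DD x).cur (farD κ (h0 * x) (tbl tKF x) (tbl tL x)) 0 2 3 1 3 1 (-1) :=
  (sideF hx hx').farA (Or.inl rfl) (Or.inr rfl) fun y y' F r1 r2 =>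
    farXA_cert (s1 := true) (s2 := false) rfl hκ (ka0 hκ hx hx') (xa0 hx) hx' (covF10 hx hx') (covF32 hx hx') (x1 hx) (x2 hx')
        Pool.Agent.Strip051.G.IE1.Tab.C.FA13.c_pm_023 noCut_VA noExt_VA F r1 r2 r1 r2

theorem FA13_pm_033 {κ x : ℝ} (hκ : κ * h0 = kenE x) (hx : 39 / 40 ≤ x) (hx' : x < 1) :
    TriA (DD x).cur (farD κ (h0 * x) (tbl tKF x) (tbl tL x)) 0 3 3 1 3 1 (-1) :=
  (sideF hx hx').farA (Or.inl rfl) (Or.inr rfl) fun y y' F r1 r2 =>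
    farXA_cert (s1 := true) (s2 := false) rfl hκ (ka0 hκ hx hx') (xa0 hx) hx' (covF10 hx hx') (covF33 hx hx') (x1 hx) (x2 hx')
        Pool.Agent.Strip051.G.IE1.Tab.C.FA13.c_pm_033 noCut_VA noExt_VA F r1 r2 r1 r2

theorem FA13_pm_101 {κ x : ℝ} (hκ : κ * h0 = kenE x) (hx : 39 / 40 ≤ x) (hx' : x < 1) :
    TriA (DD x).cur (farD κ (h0 * x) (tbl tKF x) (tbl tL x)) 1 0 1 1 3 1 (-1) :=
  (sideF hx hx').farA (Or.inl rfl) (Or.inr rfl) fun y y' F r1 r2 =>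
    farXA_cert (s1 := true) (s2 := false) rfl hκ (ka0 hκ hx hx') (xa0 hx) hx' (covF11 hx hx') (covF30 hx hx') (x1 hx) (x2 hx')
        Pool.Agent.Strip051.G.IE1.Tab.C.FA13.c_pm_101 noCut_VA noExt_VA F r1 r2 r1 r2

theorem FA13_pm_102 {κ x : ℝ} (hκ : κ * h0 = kenE x) (hx : 39 / 40 ≤ x) (hx' : x < 1) :
    TriA (DD x).cur (farD κ (h0 * x) (tbl tKF x) (tbl tL x)) 1 0 2 1 3 1 (-1) :=
  (sideF hx hx').farA (Or.inl rfl) (Or.inr rfl) fun y y' F r1 r2 =>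
    farXA_cert (s1 := true) (s2 := false) rfl hκ (ka0 hκ hx hx') (xa0 hx) hx' (covF11 hx hx') (covF30 hx hx') (x1 hx) (x2 hx')
        Pool.Agent.Strip051.G.IE1.Tab.C.FA13.c_pm_102 noCut_VA noExt_VA F r1 r2 r1 r2

theorem FA13_pm_112 {κ x : ℝ} (hκ : κ * h0 = kenE x) (hx : 39 / 40 ≤ x) (hx' : x < 1) :
    TriA (DD x).cur (farD κ (h0 * x) (tbl tKF x) (tbl tL x)) 1 1 2 1 3 1 (-1) :=
  (sideF hx hx').farA (Or.inl rfl) (Or.inr rfl) fun y y' F r1 r2 =>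
    farXA_cert (s1 := true) (s2 := false) rfl hκ (ka0 hκ hx hx') (xa0 hx) hx' (covF11 hx hx') (covF31 hx hx') (x1 hx) (x2 hx')
        Pool.Agent.Strip051.G.IE1.Tab.C.FA13.c_pm_112 noCut_VA noExt_VA F r1 r2 r1 r2

theorem FA13_pm_113 {κ x : ℝ} (hκ : κ * h0 = kenE x) (hx : 39 / 40 ≤ x) (hx' : x < 1) :
    TriA (DD x).cur (farD κ (h0 * x) (tbl tKF x) (tbl tL x)) 1 1 3 1 3 1 (-1) :=
  (sideF hx hx').farA (Or.inl rfl) (Or.inr rfl) fun y y' F r1 r2 =>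
    farXA_cert (s1 := true) (s2 := false) rfl hκ (ka0 hκ hx hx') (xa0 hx) hx' (covF11 hx hx') (covF31 hx hx') (x1 hx) (x2 hx')
        Pool.Agent.Strip051.G.IE1.Tab.C.FA13.c_pm_113 noCut_VA noExt_VA F r1 r2 r1 r2

theorem FA13_pm_123 {κ x : ℝ} (hκ : κ * h0 = kenE x) (hx : 39 / 40 ≤ x) (hx' : x < 1) :
    TriA (DD x).cur (farD κ (h0 * x) (tbl tKF x) (tbl tL x)) 1 2 3 1 3 1 (-1) :=
  (sideF hx hx').farA (Or.inl rfl) (Or.inr rfl) fun y y' F r1 r2 =>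
    farXA_cert (s1 := true) (s2 := false) rfl hκ (ka0 hκ hx hx') (xa0 hx) hx' (covF11 hx hx') (covF32 hx hx') (x1 hx) (x2 hx')
        Pool.Agent.Strip051.G.IE1.Tab.C.FA13.c_pm_123 noCut_VA noExt_VA F r1 r2 r1 r2

theorem FA13_pm_133 {κ x : ℝ} (hκ : κ * h0 = kenE x) (hx : 39 / 40 ≤ x) (hx' : x < 1) :
    TriA (DD x).cur (farD κ (h0 * x) (tbl tKF x) (tbl tL x)) 1 3 3 1 3 1 (-1) :=
  (sideF hx hx').farA (Or.inl rfl) (Or.inr rfl) fun y y' F r1 r2 =>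
    farXA_cert (s1 := true) (s2 := false) rfl hκ (ka0 hκ hx hx') (xa0 hx) hx' (covF11 hx hx') (covF33 hx hx') (x1 hx) (x2 hx')
        Pool.Agent.Strip051.G.IE1.Tab.C.FA13.c_pm_133 noCut_VA noExt_VA F r1 r2 r1 r2

theorem FA13_pm_202 {κ x : ℝ} (hκ : κ * h0 = kenE x) (hx : 39 / 40 ≤ x) (hx' : x < 1) :
    TriA (DD x).cur (farD κ (h0 * x) (tbl tKF x) (tbl tL x)) 2 0 2 1 3 1 (-1) :=
  (sideF hx hx').farA (Or.inl rfl) (Or.inr rfl) fun y y' F r1 r2 =>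
    (lt_or_ge (h0 * y) 1).elim
      (fun h => farXA_cert (s1 := true) (s2 := false) rfl hκ (ka0 hκ hx hx') (xa0 hx) hx' (covF12a hx hx') (covF30 hx hx') (x1 hx) (x2 hx')
        Pool.Agent.Strip051.G.IE1.Tab.C.FA13.c_pm_202_a noCut_VA noExt_VA F r1 r2 ⟨r1, h⟩ r2)
      (fun h => farXA_cert (s1 := true) (s2 := false) rfl hκ (ka0 hκ hx hx') (xa0 hx) hx' (covF12b hx hx') (covF30 hx hx') (x1 hx) (x2 hx')
        Pool.Agent.Strip051.G.IE1.Tab.C.FA13.c_pm_202_b noCut_VA noExt_VA F r1 r2 ⟨r1, h⟩ r2)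

theorem FA13_pm_203 {κ x : ℝ} (hκ : κ * h0 = kenE x) (hx : 39 / 40 ≤ x) (hx' : x < 1) :
    TriA (DD x).cur (farD κ (h0 * x) (tbl tKF x) (tbl tL x)) 2 0 3 1 3 1 (-1) :=
  (sideF hx hx').farA (Or.inl rfl) (Or.inr rfl) fun y y' F r1 r2 =>
    (lt_or_ge (h0 * y) 1).elim
      (fun h => farXA_cert (s1 := true) (s2 := false) rfl hκ (ka0 hκ hx hx') (xa0 hx) hx' (covF12a hx hx') (covF30 hx hx') (x1 hx) (x2 hx')
        Pool.Agent.Strip051.G.IE1.Tab.C.FA13.c_pm_203_a noCut_VA noExt_VA F r1 r2 ⟨r1, h⟩ r2)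
      (fun h => farXA_cert (s1 := true) (s2 := false) rfl hκ (ka0 hκ hx hx') (xa0 hx) hx' (covF12b hx hx') (covF30 hx hx') (x1 hx) (x2 hx')
        Pool.Agent.Strip051.G.IE1.Tab.C.FA13.c_pm_203_b noCut_VA noExt_VA F r1 r2 ⟨r1, h⟩ r2)

theorem FA13_pm_213 {κ x : ℝ} (hκ : κ * h0 = kenE x) (hx : 39 / 40 ≤ x) (hx' : x < 1) :
    TriA (DD x).cur (farD κ (h0 * x) (tbl tKF x) (tbl tL x)) 2 1 3 1 3 1 (-1) :=
  (sideF hx hx').farA (Or.inl rfl) (Or.inr rfl) fun y y' F r1 r2 =>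
    (lt_or_ge (h0 * y) 1).elim
      (fun h => farXA_cert (s1 := true) (s2 := false) rfl hκ (ka0 hκ hx hx') (xa0 hx) hx' (covF12a hx hx') (covF31 hx hx') (x1 hx) (x2 hx')
        Pool.Agent.Strip051.G.IE1.Tab.C.FA13.c_pm_213_a noCut_VA noExt_VA F r1 r2 ⟨r1, h⟩ r2)
      (fun h => farXA_cert (s1 := true) (s2 := false) rfl hκ (ka0 hκ hx hx') (xa0 hx) hx' (covF12b hx hx') (covF31 hx hx') (x1 hx) (x2 hx')
        Pool.Agent.Strip051.G.IE1.Tab.C.FA13.c_pm_213_b noCut_VA noExt_VA F r1 r2 ⟨r1, h⟩ r2)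

theorem FA13_pm_303 {κ x : ℝ} (hκ : κ * h0 = kenE x) (hx : 39 / 40 ≤ x) (hx' : x < 1) :
    TriA (DD x).cur (farD κ (h0 * x) (tbl tKF x) (tbl tL x)) 3 0 3 1 3 1 (-1) :=
  (sideF hx hx').farA (Or.inl rfl) (Or.inr rfl) fun y y' F r1 r2 =>
    farXA_cert (s1 := true) (s2 := false) rfl hκ (ka0 hκ hx hx') (xa0 hx) hx' (covF13 hx hx') (covF30 hx hx') (x1 hx) (x2 hx')
        Pool.Agent.Strip051.G.IE1.Tab.C.FA13.c_pm_303 noCut_VA noExt_VA F r1 r2 r1 r2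

theorem FA13_pm_313 {κ x : ℝ} (hκ : κ * h0 = kenE x) (hx : 39 / 40 ≤ x) (hx' : x < 1) :
    TriA (DD x).cur (farD κ (h0 * x) (tbl tKF x) (tbl tL x)) 3 1 3 1 3 1 (-1) :=
  (sideF hx hx').farA (Or.inl rfl) (Or.inr rfl) fun y y' F r1 r2 =>
    farXA_cert (s1 := true) (s2 := false) rfl hκ (ka0 hκ hx hx') (xa0 hx) hx' (covF13 hx hx') (covF31 hx hx') (x1 hx) (x2 hx')
        Pool.Agent.Strip051.G.IE1.Tab.C.FA13.c_pm_313 noCut_VA noExt_VA F r1 r2 r1 r2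

theorem FA13_mm_001 {κ x : ℝ} (hκ : κ * h0 = kenE x) (hx : 39 / 40 ≤ x) (hx' : x < 1) :
    TriA (DD x).cur (farD κ (h0 * x) (tbl tKF x) (tbl tL x)) 0 0 1 1 3 (-1) (-1) :=
  (sideF hx hx').farA (Or.inr rfl) (Or.inr rfl) fun y y' F r1 r2 =>
    farXA_cert (s1 := false) (s2 := false) rfl hκ (ka0 hκ hx hx') (xa0 hx) hx' (covF10 hx hx') (covF30 hx hx') (x1 hx) (x2 hx')
        Pool.Agent.Strip051.G.IE1.Tab.C.FA13.c_mm_001 noCut_VA noExt_VA F r1 r2 r1 r2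

theorem FA13_mm_011 {κ x : ℝ} (hκ : κ * h0 = kenE x) (hx : 39 / 40 ≤ x) (hx' : x < 1) :
    TriA (DD x).cur (farD κ (h0 * x) (tbl tKF x) (tbl tL x)) 0 1 1 1 3 (-1) (-1) :=
  (sideF hx hx').farA (Or.inr rfl) (Or.inr rfl) fun y y' F r1 r2 =>
    farXA_cert (s1 := false) (s2 := false) rfl hκ (ka0 hκ hx hx') (xa0 hx) hx' (covF10 hx hx') (covF31 hx hx') (x1 hx) (x2 hx')
        Pool.Agent.Strip051.G.IE1.Tab.C.FA13.c_mm_011 noCut_VA noExt_VA F r1 r2 r1 r2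

theorem FA13_mm_012 {κ x : ℝ} (hκ : κ * h0 = kenE x) (hx : 39 / 40 ≤ x) (hx' : x < 1) :
    TriA (DD x).cur (farD κ (h0 * x) (tbl tKF x) (tbl tL x)) 0 1 2 1 3 (-1) (-1) :=
  (sideF hx hx').farA (Or.inr rfl) (Or.inr rfl) fun y y' F r1 r2 =>
    farXA_cert (s1 := false) (s2 := false) rfl hκ (ka0 hκ hx hx') (xa0 hx) hx' (covF10 hx hx') (covF31 hx hx') (x1 hx) (x2 hx')
        Pool.Agent.Strip051.G.IE1.Tab.C.FA13.c_mm_012 noCut_VA noExt_VA F r1 r2 r1 r2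

theorem FA13_mm_022 {κ x : ℝ} (hκ : κ * h0 = kenE x) (hx : 39 / 40 ≤ x) (hx' : x < 1) :
    TriA (DD x).cur (farD κ (h0 * x) (tbl tKF x) (tbl tL x)) 0 2 2 1 3 (-1) (-1) :=
  (sideF hx hx').farA (Or.inr rfl) (Or.inr rfl) fun y y' F r1 r2 =>
    farXA_cert (s1 := false) (s2 := false) rfl hκ (ka0 hκ hx hx') (xa0 hx) hx' (covF10 hx hx') (covF32 hx hx') (x1 hx) (x2 hx')
        Pool.Agent.Strip051.G.IE1.Tab.C.FA13.c_mm_022 noCut_VA noExt_VA F r1 r2 r1 r2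

theorem FA13_mm_023 {κ x : ℝ} (hκ : κ * h0 = kenE x) (hx : 39 / 40 ≤ x) (hx' : x < 1) :
    TriA (DD x).cur (farD κ (h0 * x) (tbl tKF x) (tbl tL x)) 0 2 3 1 3 (-1) (-1) :=
  (sideF hx hx').farA (Or.inr rfl) (Or.inr rfl) fun y y' F r1 r2 =>
    farXA_cert (s1 := false) (s2 := false) rfl hκ (ka0 hκ hx hx') (xa0 hx) hx' (covF10 hx hx') (covF32 hx hx') (x1 hx) (x2 hx')
        Pool.Agent.Strip051.G.IE1.Tab.C.FA13.c_mm_023 noCut_VA noExt_VA F r1 r2 r1 r2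

theorem FA13_mm_033 {κ x : ℝ} (hκ : κ * h0 = kenE x) (hx : 39 / 40 ≤ x) (hx' : x < 1) :
    TriA (DD x).cur (farD κ (h0 * x) (tbl tKF x) (tbl tL x)) 0 3 3 1 3 (-1) (-1) :=
  (sideF hx hx').farA (Or.inr rfl) (Or.inr rfl) fun y y' F r1 r2 =>
    farXA_cert (s1 := false) (s2 := false) rfl hκ (ka0 hκ hx hx') (xa0 hx) hx' (covF10 hx hx') (covF33 hx hx') (x1 hx) (x2 hx')
        Pool.Agent.Strip051.G.IE1.Tab.C.FA13.c_mm_033 noCut_VA noExt_VA F r1 r2 r1 r2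

theorem FA13_mm_101 {κ x : ℝ} (hκ : κ * h0 = kenE x) (hx : 39 / 40 ≤ x) (hx' : x < 1) :
    TriA (DD x).cur (farD κ (h0 * x) (tbl tKF x) (tbl tL x)) 1 0 1 1 3 (-1) (-1) :=
  (sideF hx hx').farA (Or.inr rfl) (Or.inr rfl) fun y y' F r1 r2 =>
    farXA_cert (s1 := false) (s2 := false) rfl hκ (ka0 hκ hx hx') (xa0 hx) hx' (covF11 hx hx') (covF30 hx hx') (x1 hx) (x2 hx')
        Pool.Agent.Strip051.G.IE1.Tab.C.FA13.c_mm_101 noCut_VA noExt_VA F r1 r2 r1 r2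

theorem FA13_mm_102 {κ x : ℝ} (hκ : κ * h0 = kenE x) (hx : 39 / 40 ≤ x) (hx' : x < 1) :
    TriA (DD x).cur (farD κ (h0 * x) (tbl tKF x) (tbl tL x)) 1 0 2 1 3 (-1) (-1) :=
  (sideF hx hx').farA (Or.inr rfl) (Or.inr rfl) fun y y' F r1 r2 =>
    farXA_cert (s1 := false) (s2 := false) rfl hκ (ka0 hκ hx hx') (xa0 hx) hx' (covF11 hx hx') (covF30 hx hx') (x1 hx) (x2 hx')
        Pool.Agent.Strip051.G.IE1.Tab.C.FA13.c_mm_102 noCut_VA noExt_VA F r1 r2 r1 r2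

theorem FA13_mm_112 {κ x : ℝ} (hκ : κ * h0 = kenE x) (hx : 39 / 40 ≤ x) (hx' : x < 1) :
    TriA (DD x).cur (farD κ (h0 * x) (tbl tKF x) (tbl tL x)) 1 1 2 1 3 (-1) (-1) :=
  (sideF hx hx').farA (Or.inr rfl) (Or.inr rfl) fun y y' F r1 r2 =>
    farXA_cert (s1 := false) (s2 := false) rfl hκ (ka0 hκ hx hx') (xa0 hx) hx' (covF11 hx hx') (covF31 hx hx') (x1 hx) (x2 hx')
        Pool.Agent.Strip051.G.IE1.Tab.C.FA13.c_mm_112 noCut_VA noExt_VA F r1 r2 r1 r2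

theorem FA13_mm_113 {κ x : ℝ} (hκ : κ * h0 = kenE x) (hx : 39 / 40 ≤ x) (hx' : x < 1) :
    TriA (DD x).cur (farD κ (h0 * x) (tbl tKF x) (tbl tL x)) 1 1 3 1 3 (-1) (-1) :=
  (sideF hx hx').farA (Or.inr rfl) (Or.inr rfl) fun y y' F r1 r2 =>
    farXA_cert (s1 := false) (s2 := false) rfl hκ (ka0 hκ hx hx') (xa0 hx) hx' (covF11 hx hx') (covF31 hx hx') (x1 hx) (x2 hx')
        Pool.Agent.Strip051.G.IE1.Tab.C.FA13.c_mm_113 noCut_VA noExt_VA F r1 r2 r1 r2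

theorem FA13_mm_123 {κ x : ℝ} (hκ : κ * h0 = kenE x) (hx : 39 / 40 ≤ x) (hx' : x < 1) :
    TriA (DD x).cur (farD κ (h0 * x) (tbl tKF x) (tbl tL x)) 1 2 3 1 3 (-1) (-1) :=
  (sideF hx hx').farA (Or.inr rfl) (Or.inr rfl) fun y y' F r1 r2 =>
    farXA_cert (s1 := false) (s2 := false) rfl hκ (ka0 hκ hx hx') (xa0 hx) hx' (covF11 hx hx') (covF32 hx hx') (x1 hx) (x2 hx')
        Pool.Agent.Strip051.G.IE1.Tab.C.FA13.c_mm_123 noCut_VA noExt_VA F r1 r2 r1 r2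

theorem FA13_mm_133 {κ x : ℝ} (hκ : κ * h0 = kenE x) (hx : 39 / 40 ≤ x) (hx' : x < 1) :
    TriA (DD x).cur (farD κ (h0 * x) (tbl tKF x) (tbl tL x)) 1 3 3 1 3 (-1) (-1) :=
  (sideF hx hx').farA (Or.inr rfl) (Or.inr rfl) fun y y' F r1 r2 =>
    farXA_cert (s1 := false) (s2 := false) rfl hκ (ka0 hκ hx hx') (xa0 hx) hx' (covF11 hx hx') (covF33 hx hx') (x1 hx) (x2 hx')
        Pool.Agent.Strip051.G.IE1.Tab.C.FA13.c_mm_133 noCut_VA noExt_VA F r1 r2 r1 r2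

theorem FA13_mm_202 {κ x : ℝ} (hκ : κ * h0 = kenE x) (hx : 39 / 40 ≤ x) (hx' : x < 1) :
    TriA (DD x).cur (farD κ (h0 * x) (tbl tKF x) (tbl tL x)) 2 0 2 1 3 (-1) (-1) :=
  (sideF hx hx').farA (Or.inr rfl) (Or.inr rfl) fun y y' F r1 r2 =>
    (lt_or_ge (h0 * y) 1).elim
      (fun h => farXA_cert (s1 := false) (s2 := false) rfl hκ (ka0 hκ hx hx') (xa0 hx) hx' (covF12a hx hx') (covF30 hx hx') (x1 hx) (x2 hx')
        Pool.Agent.Strip051.G.IE1.Tab.C.FA13.c_mm_202_a noCut_VA noExt_VA F r1 r2 ⟨r1, h⟩ r2)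
      (fun h => farXA_cert (s1 := false) (s2 := false) rfl hκ (ka0 hκ hx hx') (xa0 hx) hx' (covF12b hx hx') (covF30 hx hx') (x1 hx) (x2 hx')
        Pool.Agent.Strip051.G.IE1.Tab.C.FA13.c_mm_202_b noCut_VA noExt_VA F r1 r2 ⟨r1, h⟩ r2)

theorem FA13_mm_203 {κ x : ℝ} (hκ : κ * h0 = kenE x) (hx : 39 / 40 ≤ x) (hx' : x < 1) :
    TriA (DD x).cur (farD κ (h0 * x) (tbl tKF x) (tbl tL x)) 2 0 3 1 3 (-1) (-1) :=
  (sideF hx hx').farA (Or.inr rfl) (Or.inr rfl) fun y y' F r1 r2 =>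
    (lt_or_ge (h0 * y) 1).elim
      (fun h => farXA_cert (s1 := false) (s2 := false) rfl hκ (ka0 hκ hx hx') (xa0 hx) hx' (covF12a hx hx') (covF30 hx hx') (x1 hx) (x2 hx')
        Pool.Agent.Strip051.G.IE1.Tab.C.FA13.c_mm_203_a noCut_VA noExt_VA F r1 r2 ⟨r1, h⟩ r2)
      (fun h => farXA_cert (s1 := false) (s2 := false) rfl hκ (ka0 hκ hx hx') (xa0 hx) hx' (covF12b hx hx') (covF30 hx hx') (x1 hx) (x2 hx')
        Pool.Agent.Strip051.G.IE1.Tab.C.FA13.c_mm_203_b noCut_VA noExt_VA F r1 r2 ⟨r1, h⟩ r2)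

theorem FA13_mm_213 {κ x : ℝ} (hκ : κ * h0 = kenE x) (hx : 39 / 40 ≤ x) (hx' : x < 1) :
    TriA (DD x).cur (farD κ (h0 * x) (tbl tKF x) (tbl tL x)) 2 1 3 1 3 (-1) (-1) :=
  (sideF hx hx').farA (Or.inr rfl) (Or.inr rfl) fun y y' F r1 r2 =>
    (lt_or_ge (h0 * y) 1).elim
      (fun h => farXA_cert (s1 := false) (s2 := false) rfl hκ (ka0 hκ hx hx') (xa0 hx) hx' (covF12a hx hx') (covF31 hx hx') (x1 hx) (x2 hx')
        Pool.Agent.Strip051.G.IE1.Tab.C.FA13.c_mm_213_a noCut_VA noExt_VA F r1 r2 ⟨r1, h⟩ r2)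
      (fun h => farXA_cert (s1 := false) (s2 := false) rfl hκ (ka0 hκ hx hx') (xa0 hx) hx' (covF12b hx hx') (covF31 hx hx') (x1 hx) (x2 hx')
        Pool.Agent.Strip051.G.IE1.Tab.C.FA13.c_mm_213_b noCut_VA noExt_VA F r1 r2 ⟨r1, h⟩ r2)

theorem FA13_mm_303 {κ x : ℝ} (hκ : κ * h0 = kenE x) (hx : 39 / 40 ≤ x) (hx' : x < 1) :
    TriA (DD x).cur (farD κ (h0 * x) (tbl tKF x) (tbl tL x)) 3 0 3 1 3 (-1) (-1) :=
  (sideF hx hx').farA (Or.inr rfl) (Or.inr rfl) fun y y' F r1 r2 =>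
    farXA_cert (s1 := false) (s2 := false) rfl hκ (ka0 hκ hx hx') (xa0 hx) hx' (covF13 hx hx') (covF30 hx hx') (x1 hx) (x2 hx')
        Pool.Agent.Strip051.G.IE1.Tab.C.FA13.c_mm_303 noCut_VA noExt_VA F r1 r2 r1 r2

theorem FA13_mm_313 {κ x : ℝ} (hκ : κ * h0 = kenE x) (hx : 39 / 40 ≤ x) (hx' : x < 1) :
    TriA (DD x).cur (farD κ (h0 * x) (tbl tKF x) (tbl tL x)) 3 1 3 1 3 (-1) (-1) :=
  (sideF hx hx').farA (Or.inr rfl) (Or.inr rfl) fun y y' F r1 r2 =>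
    farXA_cert (s1 := false) (s2 := false) rfl hκ (ka0 hκ hx hx') (xa0 hx) hx' (covF13 hx hx') (covF31 hx hx') (x1 hx) (x2 hx')
        Pool.Agent.Strip051.G.IE1.Tab.C.FA13.c_mm_313 noCut_VA noExt_VA F r1 r2 r1 r2

theorem FA13 {κ x : ℝ} (hκ : κ * h0 = kenE x) (hx : 39 / 40 ≤ x) (hx' : x < 1) : AllTA (DD x).cur (farD κ (h0 * x) (tbl tKF x) (tbl tL x)) 1 3 where
  pp := all17 (Q := fun a b c => TriA (DD x).cur (farD κ (h0 * x) (tbl tKF x) (tbl tL x)) a b c 1 3 1 1)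
    (FA13_pp_001 hκ hx hx') (FA13_pp_011 hκ hx hx') (FA13_pp_012 hκ hx hx') (FA13_pp_022 hκ hx hx') (FA13_pp_023 hκ hx hx') (FA13_pp_033 hκ hx hx') (FA13_pp_101 hκ hx hx') (FA13_pp_102 hκ hx hx') (FA13_pp_112 hκ hx hx') (FA13_pp_113 hκ hx hx') (FA13_pp_123 hκ hx hx') (FA13_pp_133 hκ hx hx') (FA13_pp_202 hκ hx hx') (FA13_pp_203 hκ hx hx') (FA13_pp_213 hκ hx hx') (FA13_pp_303 hκ hx hx') (FA13_pp_313 hκ hx hx')
  pm := all17 (Q := fun a b c => TriA (DD x).cur (farD κ (h0 * x) (tbl tKF x) (tbl tL x)) a b c 1 3 1 (-1))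
    (FA13_pm_001 hκ hx hx') (FA13_pm_011 hκ hx hx') (FA13_pm_012 hκ hx hx') (FA13_pm_022 hκ hx hx') (FA13_pm_023 hκ hx hx') (FA13_pm_033 hκ hx hx') (FA13_pm_101 hκ hx hx') (FA13_pm_102 hκ hx hx') (FA13_pm_112 hκ hx hx') (FA13_pm_113 hκ hx hx') (FA13_pm_123 hκ hx hx') (FA13_pm_133 hκ hx hx') (FA13_pm_202 hκ hx hx') (FA13_pm_203 hκ hx hx') (FA13_pm_213 hκ hx hx') (FA13_pm_303 hκ hx hx') (FA13_pm_313 hκ hx hx')
  mm := all17 (Q := fun a b c => TriA (DD x).cur (farD κ (h0 * x) (tbl tKF x) (tbl tL x)) a b c 1 3 (-1) (-1))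
    (FA13_mm_001 hκ hx hx') (FA13_mm_011 hκ hx hx') (FA13_mm_012 hκ hx hx') (FA13_mm_022 hκ hx hx') (FA13_mm_023 hκ hx hx') (FA13_mm_033 hκ hx hx') (FA13_mm_101 hκ hx hx') (FA13_mm_102 hκ hx hx') (FA13_mm_112 hκ hx hx') (FA13_mm_113 hκ hx hx') (FA13_mm_123 hκ hx hx') (FA13_mm_133 hκ hx hx') (FA13_mm_202 hκ hx hx') (FA13_mm_203 hκ hx hx') (FA13_mm_213 hκ hx hx') (FA13_mm_303 hκ hx hx') (FA13_mm_313 hκ hx hx')

theorem FA14_pp_001 {κ x : ℝ} (hκ : κ * h0 = kenE x) (hx : 39 / 40 ≤ x) (hx' : x < 1) :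
    TriA (DD x).cur (farD κ (h0 * x) (tbl tKF x) (tbl tL x)) 0 0 1 1 4 1 1 :=
  (sideF hx hx').farA (Or.inl rfl) (Or.inl rfl) fun y y' F r1 r2 =>
    farXA_cert (s1 := true) (s2 := true) rfl hκ (ka0 hκ hx hx') (xa0 hx) hx' (covF10 hx hx') (covF40 hx hx') (x1 hx) (x2 hx')
        Pool.Agent.Strip051.G.IE1.Tab.C.FA14.c_pp_001 noCut_VA noExt_VA F r1 r2 r1 r2

theorem FA14_pp_011 {κ x : ℝ} (hκ : κ * h0 = kenE x) (hx : 39 / 40 ≤ x) (hx' : x < 1) :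
    TriA (DD x).cur (farD κ (h0 * x) (tbl tKF x) (tbl tL x)) 0 1 1 1 4 1 1 :=
  triVA_k nr4_1

theorem FA14_pp_012 {κ x : ℝ} (hκ : κ * h0 = kenE x) (hx : 39 / 40 ≤ x) (hx' : x < 1) :
    TriA (DD x).cur (farD κ (h0 * x) (tbl tKF x) (tbl tL x)) 0 1 2 1 4 1 1 :=
  triVA_k nr4_1

theorem FA14_pp_022 {κ x : ℝ} (hκ : κ * h0 = kenE x) (hx : 39 / 40 ≤ x) (hx' : x < 1) :
    TriA (DD x).cur (farD κ (h0 * x) (tbl tKF x) (tbl tL x)) 0 2 2 1 4 1 1 :=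
  triVA_k nr4_2

theorem FA14_pp_023 {κ x : ℝ} (hκ : κ * h0 = kenE x) (hx : 39 / 40 ≤ x) (hx' : x < 1) :
    TriA (DD x).cur (farD κ (h0 * x) (tbl tKF x) (tbl tL x)) 0 2 3 1 4 1 1 :=
  triVA_k nr4_2

theorem FA14_pp_033 {κ x : ℝ} (hκ : κ * h0 = kenE x) (hx : 39 / 40 ≤ x) (hx' : x < 1) :
    TriA (DD x).cur (farD κ (h0 * x) (tbl tKF x) (tbl tL x)) 0 3 3 1 4 1 1 :=
  triVA_k nr4_3

theorem FA14_pp_101 {κ x : ℝ} (hκ : κ * h0 = kenE x) (hx : 39 / 40 ≤ x) (hx' : x < 1) :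
    TriA (DD x).cur (farD κ (h0 * x) (tbl tKF x) (tbl tL x)) 1 0 1 1 4 1 1 :=
  (sideF hx hx').farA (Or.inl rfl) (Or.inl rfl) fun y y' F r1 r2 =>
    farXA_cert (s1 := true) (s2 := true) rfl hκ (ka0 hκ hx hx') (xa0 hx) hx' (covF11 hx hx') (covF40 hx hx') (x1 hx) (x2 hx')
        Pool.Agent.Strip051.G.IE1.Tab.C.FA14.c_pp_101 noCut_VA noExt_VA F r1 r2 r1 r2

theorem FA14_pp_102 {κ x : ℝ} (hκ : κ * h0 = kenE x) (hx : 39 / 40 ≤ x) (hx' : x < 1) :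
    TriA (DD x).cur (farD κ (h0 * x) (tbl tKF x) (tbl tL x)) 1 0 2 1 4 1 1 :=
  (sideF hx hx').farA (Or.inl rfl) (Or.inl rfl) fun y y' F r1 r2 =>
    farXA_cert (s1 := true) (s2 := true) rfl hκ (ka0 hκ hx hx') (xa0 hx) hx' (covF11 hx hx') (covF40 hx hx') (x1 hx) (x2 hx')
        Pool.Agent.Strip051.G.IE1.Tab.C.FA14.c_pp_102 noCut_VA noExt_VA F r1 r2 r1 r2

theorem FA14_pp_112 {κ x : ℝ} (hκ : κ * h0 = kenE x) (hx : 39 / 40 ≤ x) (hx' : x < 1) :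
    TriA (DD x).cur (farD κ (h0 * x) (tbl tKF x) (tbl tL x)) 1 1 2 1 4 1 1 :=
  triVA_k nr4_1

theorem FA14_pp_113 {κ x : ℝ} (hκ : κ * h0 = kenE x) (hx : 39 / 40 ≤ x) (hx' : x < 1) :
    TriA (DD x).cur (farD κ (h0 * x) (tbl tKF x) (tbl tL x)) 1 1 3 1 4 1 1 :=
  triVA_k nr4_1

theorem FA14_pp_123 {κ x : ℝ} (hκ : κ * h0 = kenE x) (hx : 39 / 40 ≤ x) (hx' : x < 1) :
    TriA (DD x).cur (farD κ (h0 * x) (tbl tKF x) (tbl tL x)) 1 2 3 1 4 1 1 :=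
  triVA_k nr4_2

theorem FA14_pp_133 {κ x : ℝ} (hκ : κ * h0 = kenE x) (hx : 39 / 40 ≤ x) (hx' : x < 1) :
    TriA (DD x).cur (farD κ (h0 * x) (tbl tKF x) (tbl tL x)) 1 3 3 1 4 1 1 :=
  triVA_k nr4_3

theorem FA14_pp_202 {κ x : ℝ} (hκ : κ * h0 = kenE x) (hx : 39 / 40 ≤ x) (hx' : x < 1) :
    TriA (DD x).cur (farD κ (h0 * x) (tbl tKF x) (tbl tL x)) 2 0 2 1 4 1 1 :=
  (sideF hx hx').farA (Or.inl rfl) (Or.inl rfl) fun y y' F r1 r2 =>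
    (lt_or_ge (h0 * y) 1).elim
      (fun h => farXA_cert (s1 := true) (s2 := true) rfl hκ (ka0 hκ hx hx') (xa0 hx) hx' (covF12a hx hx') (covF40 hx hx') (x1 hx) (x2 hx')
        Pool.Agent.Strip051.G.IE1.Tab.C.FA14.c_pp_202_a noCut_VA noExt_VA F r1 r2 ⟨r1, h⟩ r2)
      (fun h => farXA_cert (s1 := true) (s2 := true) rfl hκ (ka0 hκ hx hx') (xa0 hx) hx' (covF12b hx hx') (covF40 hx hx') (x1 hx) (x2 hx')
        Pool.Agent.Strip051.G.IE1.Tab.C.FA14.c_pp_202_b noCut_VA noExt_VA F r1 r2 ⟨r1, h⟩ r2)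

theorem FA14_pp_203 {κ x : ℝ} (hκ : κ * h0 = kenE x) (hx : 39 / 40 ≤ x) (hx' : x < 1) :
    TriA (DD x).cur (farD κ (h0 * x) (tbl tKF x) (tbl tL x)) 2 0 3 1 4 1 1 :=
  (sideF hx hx').farA (Or.inl rfl) (Or.inl rfl) fun y y' F r1 r2 =>
    (lt_or_ge (h0 * y) 1).elim
      (fun h => farXA_cert (s1 := true) (s2 := true) rfl hκ (ka0 hκ hx hx') (xa0 hx) hx' (covF12a hx hx') (covF40 hx hx') (x1 hx) (x2 hx')
        Pool.Agent.Strip051.G.IE1.Tab.C.FA14.c_pp_203_a noCut_VA noExt_VA F r1 r2 ⟨r1, h⟩ r2)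
      (fun h => farXA_cert (s1 := true) (s2 := true) rfl hκ (ka0 hκ hx hx') (xa0 hx) hx' (covF12b hx hx') (covF40 hx hx') (x1 hx) (x2 hx')
        Pool.Agent.Strip051.G.IE1.Tab.C.FA14.c_pp_203_b noCut_VA noExt_VA F r1 r2 ⟨r1, h⟩ r2)

theorem FA14_pp_213 {κ x : ℝ} (hκ : κ * h0 = kenE x) (hx : 39 / 40 ≤ x) (hx' : x < 1) :
    TriA (DD x).cur (farD κ (h0 * x) (tbl tKF x) (tbl tL x)) 2 1 3 1 4 1 1 :=
  triVA_k nr4_1

theorem FA14_pp_303 {κ x : ℝ} (hκ : κ * h0 = kenE x) (hx : 39 / 40 ≤ x) (hx' : x < 1) :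
    TriA (DD x).cur (farD κ (h0 * x) (tbl tKF x) (tbl tL x)) 3 0 3 1 4 1 1 :=
  (sideF hx hx').farA (Or.inl rfl) (Or.inl rfl) fun y y' F r1 r2 =>
    farXA_cert (s1 := true) (s2 := true) rfl hκ (ka0 hκ hx hx') (xa0 hx) hx' (covF13 hx hx') (covF40 hx hx') (x1 hx) (x2 hx')
        Pool.Agent.Strip051.G.IE1.Tab.C.FA14.c_pp_303 noCut_VA noExt_VA F r1 r2 r1 r2

theorem FA14_pp_313 {κ x : ℝ} (hκ : κ * h0 = kenE x) (hx : 39 / 40 ≤ x) (hx' : x < 1) :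
    TriA (DD x).cur (farD κ (h0 * x) (tbl tKF x) (tbl tL x)) 3 1 3 1 4 1 1 :=
  triVA_k nr4_1

theorem FA14_pm_001 {κ x : ℝ} (hκ : κ * h0 = kenE x) (hx : 39 / 40 ≤ x) (hx' : x < 1) :
    TriA (DD x).cur (farD κ (h0 * x) (tbl tKF x) (tbl tL x)) 0 0 1 1 4 1 (-1) :=
  (sideF hx hx').farA (Or.inl rfl) (Or.inr rfl) fun y y' F r1 r2 =>
    farXA_cert (s1 := true) (s2 := false) rfl hκ (ka0 hκ hx hx') (xa0 hx) hx' (covF10 hx hx') (covF40 hx hx') (x1 hx) (x2 hx')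
        Pool.Agent.Strip051.G.IE1.Tab.C.FA14.c_pm_001 noCut_VA noExt_VA F r1 r2 r1 r2

theorem FA14_pm_011 {κ x : ℝ} (hκ : κ * h0 = kenE x) (hx : 39 / 40 ≤ x) (hx' : x < 1) :
    TriA (DD x).cur (farD κ (h0 * x) (tbl tKF x) (tbl tL x)) 0 1 1 1 4 1 (-1) :=
  triVA_k nr4_1

theorem FA14_pm_012 {κ x : ℝ} (hκ : κ * h0 = kenE x) (hx : 39 / 40 ≤ x) (hx' : x < 1) :
    TriA (DD x).cur (farD κ (h0 * x) (tbl tKF x) (tbl tL x)) 0 1 2 1 4 1 (-1) :=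
  triVA_k nr4_1

theorem FA14_pm_022 {κ x : ℝ} (hκ : κ * h0 = kenE x) (hx : 39 / 40 ≤ x) (hx' : x < 1) :
    TriA (DD x).cur (farD κ (h0 * x) (tbl tKF x) (tbl tL x)) 0 2 2 1 4 1 (-1) :=
  triVA_k nr4_2

theorem FA14_pm_023 {κ x : ℝ} (hκ : κ * h0 = kenE x) (hx : 39 / 40 ≤ x) (hx' : x < 1) :
    TriA (DD x).cur (farD κ (h0 * x) (tbl tKF x) (tbl tL x)) 0 2 3 1 4 1 (-1) :=
  triVA_k nr4_2

theorem FA14_pm_033 {κ x : ℝ} (hκ : κ * h0 = kenE x) (hx : 39 / 40 ≤ x) (hx' : x < 1) :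
    TriA (DD x).cur (farD κ (h0 * x) (tbl tKF x) (tbl tL x)) 0 3 3 1 4 1 (-1) :=
  triVA_k nr4_3

theorem FA14_pm_101 {κ x : ℝ} (hκ : κ * h0 = kenE x) (hx : 39 / 40 ≤ x) (hx' : x < 1) :
    TriA (DD x).cur (farD κ (h0 * x) (tbl tKF x) (tbl tL x)) 1 0 1 1 4 1 (-1) :=
  (sideF hx hx').farA (Or.inl rfl) (Or.inr rfl) fun y y' F r1 r2 =>
    farXA_cert (s1 := true) (s2 := false) rfl hκ (ka0 hκ hx hx') (xa0 hx) hx' (covF11 hx hx') (covF40 hx hx') (x1 hx) (x2 hx')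
        Pool.Agent.Strip051.G.IE1.Tab.C.FA14.c_pm_101 noCut_VA noExt_VA F r1 r2 r1 r2

theorem FA14_pm_102 {κ x : ℝ} (hκ : κ * h0 = kenE x) (hx : 39 / 40 ≤ x) (hx' : x < 1) :
    TriA (DD x).cur (farD κ (h0 * x) (tbl tKF x) (tbl tL x)) 1 0 2 1 4 1 (-1) :=
  (sideF hx hx').farA (Or.inl rfl) (Or.inr rfl) fun y y' F r1 r2 =>
    farXA_cert (s1 := true) (s2 := false) rfl hκ (ka0 hκ hx hx') (xa0 hx) hx' (covF11 hx hx') (covF40 hx hx') (x1 hx) (x2 hx')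
        Pool.Agent.Strip051.G.IE1.Tab.C.FA14.c_pm_102 noCut_VA noExt_VA F r1 r2 r1 r2

theorem FA14_pm_112 {κ x : ℝ} (hκ : κ * h0 = kenE x) (hx : 39 / 40 ≤ x) (hx' : x < 1) :
    TriA (DD x).cur (farD κ (h0 * x) (tbl tKF x) (tbl tL x)) 1 1 2 1 4 1 (-1) :=
  triVA_k nr4_1

theorem FA14_pm_113 {κ x : ℝ} (hκ : κ * h0 = kenE x) (hx : 39 / 40 ≤ x) (hx' : x < 1) :
    TriA (DD x).cur (farD κ (h0 * x) (tbl tKF x) (tbl tL x)) 1 1 3 1 4 1 (-1) :=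
  triVA_k nr4_1

theorem FA14_pm_123 {κ x : ℝ} (hκ : κ * h0 = kenE x) (hx : 39 / 40 ≤ x) (hx' : x < 1) :
    TriA (DD x).cur (farD κ (h0 * x) (tbl tKF x) (tbl tL x)) 1 2 3 1 4 1 (-1) :=
  triVA_k nr4_2

theorem FA14_pm_133 {κ x : ℝ} (hκ : κ * h0 = kenE x) (hx : 39 / 40 ≤ x) (hx' : x < 1) :
    TriA (DD x).cur (farD κ (h0 * x) (tbl tKF x) (tbl tL x)) 1 3 3 1 4 1 (-1) :=
  triVA_k nr4_3

theorem FA14_pm_202 {κ x : ℝ} (hκ : κ * h0 = kenE x) (hx : 39 / 40 ≤ x) (hx' : x < 1) :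
    TriA (DD x).cur (farD κ (h0 * x) (tbl tKF x) (tbl tL x)) 2 0 2 1 4 1 (-1) :=
  (sideF hx hx').farA (Or.inl rfl) (Or.inr rfl) fun y y' F r1 r2 =>
    (lt_or_ge (h0 * y) 1).elim
      (fun h => farXA_cert (s1 := true) (s2 := false) rfl hκ (ka0 hκ hx hx') (xa0 hx) hx' (covF12a hx hx') (covF40 hx hx') (x1 hx) (x2 hx')
        Pool.Agent.Strip051.G.IE1.Tab.C.FA14.c_pm_202_a noCut_VA noExt_VA F r1 r2 ⟨r1, h⟩ r2)
      (fun h => farXA_cert (s1 := true) (s2 := false) rfl hκ (ka0 hκ hx hx') (xa0 hx) hx' (covF12b hx hx') (covF40 hx hx') (x1 hx) (x2 hx')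
        Pool.Agent.Strip051.G.IE1.Tab.C.FA14.c_pm_202_b noCut_VA noExt_VA F r1 r2 ⟨r1, h⟩ r2)

theorem FA14_pm_203 {κ x : ℝ} (hκ : κ * h0 = kenE x) (hx : 39 / 40 ≤ x) (hx' : x < 1) :
    TriA (DD x).cur (farD κ (h0 * x) (tbl tKF x) (tbl tL x)) 2 0 3 1 4 1 (-1) :=
  (sideF hx hx').farA (Or.inl rfl) (Or.inr rfl) fun y y' F r1 r2 =>
    (lt_or_ge (h0 * y) 1).elim
      (fun h => farXA_cert (s1 := true) (s2 := false) rfl hκ (ka0 hκ hx hx') (xa0 hx) hx' (covF12a hx hx') (covF40 hx hx') (x1 hx) (x2 hx')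
        Pool.Agent.Strip051.G.IE1.Tab.C.FA14.c_pm_203_a noCut_VA noExt_VA F r1 r2 ⟨r1, h⟩ r2)
      (fun h => farXA_cert (s1 := true) (s2 := false) rfl hκ (ka0 hκ hx hx') (xa0 hx) hx' (covF12b hx hx') (covF40 hx hx') (x1 hx) (x2 hx')
        Pool.Agent.Strip051.G.IE1.Tab.C.FA14.c_pm_203_b noCut_VA noExt_VA F r1 r2 ⟨r1, h⟩ r2)

theorem FA14_pm_213 {κ x : ℝ} (hκ : κ * h0 = kenE x) (hx : 39 / 40 ≤ x) (hx' : x < 1) :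
    TriA (DD x).cur (farD κ (h0 * x) (tbl tKF x) (tbl tL x)) 2 1 3 1 4 1 (-1) :=
  triVA_k nr4_1

theorem FA14_pm_303 {κ x : ℝ} (hκ : κ * h0 = kenE x) (hx : 39 / 40 ≤ x) (hx' : x < 1) :
    TriA (DD x).cur (farD κ (h0 * x) (tbl tKF x) (tbl tL x)) 3 0 3 1 4 1 (-1) :=
  (sideF hx hx').farA (Or.inl rfl) (Or.inr rfl) fun y y' F r1 r2 =>
    farXA_cert (s1 := true) (s2 := false) rfl hκ (ka0 hκ hx hx') (xa0 hx) hx' (covF13 hx hx') (covF40 hx hx') (x1 hx) (x2 hx')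
        Pool.Agent.Strip051.G.IE1.Tab.C.FA14.c_pm_303 noCut_VA noExt_VA F r1 r2 r1 r2

theorem FA14_pm_313 {κ x : ℝ} (hκ : κ * h0 = kenE x) (hx : 39 / 40 ≤ x) (hx' : x < 1) :
    TriA (DD x).cur (farD κ (h0 * x) (tbl tKF x) (tbl tL x)) 3 1 3 1 4 1 (-1) :=
  triVA_k nr4_1

theorem FA14_mm_001 {κ x : ℝ} (hκ : κ * h0 = kenE x) (hx : 39 / 40 ≤ x) (hx' : x < 1) :
    TriA (DD x).cur (farD κ (h0 * x) (tbl tKF x) (tbl tL x)) 0 0 1 1 4 (-1) (-1) :=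
  (sideF hx hx').farA (Or.inr rfl) (Or.inr rfl) fun y y' F r1 r2 =>
    farXA_cert (s1 := false) (s2 := false) rfl hκ (ka0 hκ hx hx') (xa0 hx) hx' (covF10 hx hx') (covF40 hx hx') (x1 hx) (x2 hx')
        Pool.Agent.Strip051.G.IE1.Tab.C.FA14.c_mm_001 noCut_VA noExt_VA F r1 r2 r1 r2

theorem FA14_mm_011 {κ x : ℝ} (hκ : κ * h0 = kenE x) (hx : 39 / 40 ≤ x) (hx' : x < 1) :
    TriA (DD x).cur (farD κ (h0 * x) (tbl tKF x) (tbl tL x)) 0 1 1 1 4 (-1) (-1) :=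
  triVA_k nr4_1

theorem FA14_mm_012 {κ x : ℝ} (hκ : κ * h0 = kenE x) (hx : 39 / 40 ≤ x) (hx' : x < 1) :
    TriA (DD x).cur (farD κ (h0 * x) (tbl tKF x) (tbl tL x)) 0 1 2 1 4 (-1) (-1) :=
  triVA_k nr4_1

theorem FA14_mm_022 {κ x : ℝ} (hκ : κ * h0 = kenE x) (hx : 39 / 40 ≤ x) (hx' : x < 1) :
    TriA (DD x).cur (farD κ (h0 * x) (tbl tKF x) (tbl tL x)) 0 2 2 1 4 (-1) (-1) :=
  triVA_k nr4_2

theorem FA14_mm_023 {κ x : ℝ} (hκ : κ * h0 = kenE x) (hx : 39 / 40 ≤ x) (hx' : x < 1) :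
    TriA (DD x).cur (farD κ (h0 * x) (tbl tKF x) (tbl tL x)) 0 2 3 1 4 (-1) (-1) :=
  triVA_k nr4_2

theorem FA14_mm_033 {κ x : ℝ} (hκ : κ * h0 = kenE x) (hx : 39 / 40 ≤ x) (hx' : x < 1) :
    TriA (DD x).cur (farD κ (h0 * x) (tbl tKF x) (tbl tL x)) 0 3 3 1 4 (-1) (-1) :=
  triVA_k nr4_3

theorem FA14_mm_101 {κ x : ℝ} (hκ : κ * h0 = kenE x) (hx : 39 / 40 ≤ x) (hx' : x < 1) :
    TriA (DD x).cur (farD κ (h0 * x) (tbl tKF x) (tbl tL x)) 1 0 1 1 4 (-1) (-1) :=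
  (sideF hx hx').farA (Or.inr rfl) (Or.inr rfl) fun y y' F r1 r2 =>
    farXA_cert (s1 := false) (s2 := false) rfl hκ (ka0 hκ hx hx') (xa0 hx) hx' (covF11 hx hx') (covF40 hx hx') (x1 hx) (x2 hx')
        Pool.Agent.Strip051.G.IE1.Tab.C.FA14.c_mm_101 noCut_VA noExt_VA F r1 r2 r1 r2

theorem FA14_mm_102 {κ x : ℝ} (hκ : κ * h0 = kenE x) (hx : 39 / 40 ≤ x) (hx' : x < 1) :
    TriA (DD x).cur (farD κ (h0 * x) (tbl tKF x) (tbl tL x)) 1 0 2 1 4 (-1) (-1) :=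
  (sideF hx hx').farA (Or.inr rfl) (Or.inr rfl) fun y y' F r1 r2 =>
    farXA_cert (s1 := false) (s2 := false) rfl hκ (ka0 hκ hx hx') (xa0 hx) hx' (covF11 hx hx') (covF40 hx hx') (x1 hx) (x2 hx')
        Pool.Agent.Strip051.G.IE1.Tab.C.FA14.c_mm_102 noCut_VA noExt_VA F r1 r2 r1 r2

theorem FA14_mm_112 {κ x : ℝ} (hκ : κ * h0 = kenE x) (hx : 39 / 40 ≤ x) (hx' : x < 1) :
    TriA (DD x).cur (farD κ (h0 * x) (tbl tKF x) (tbl tL x)) 1 1 2 1 4 (-1) (-1) :=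
  triVA_k nr4_1

theorem FA14_mm_113 {κ x : ℝ} (hκ : κ * h0 = kenE x) (hx : 39 / 40 ≤ x) (hx' : x < 1) :
    TriA (DD x).cur (farD κ (h0 * x) (tbl tKF x) (tbl tL x)) 1 1 3 1 4 (-1) (-1) :=
  triVA_k nr4_1

theorem FA14_mm_123 {κ x : ℝ} (hκ : κ * h0 = kenE x) (hx : 39 / 40 ≤ x) (hx' : x < 1) :
    TriA (DD x).cur (farD κ (h0 * x) (tbl tKF x) (tbl tL x)) 1 2 3 1 4 (-1) (-1) :=
  triVA_k nr4_2

theorem FA14_mm_133 {κ x : ℝ} (hκ : κ * h0 = kenE x) (hx : 39 / 40 ≤ x) (hx' : x < 1) :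
    TriA (DD x).cur (farD κ (h0 * x) (tbl tKF x) (tbl tL x)) 1 3 3 1 4 (-1) (-1) :=
  triVA_k nr4_3

theorem FA14_mm_202 {κ x : ℝ} (hκ : κ * h0 = kenE x) (hx : 39 / 40 ≤ x) (hx' : x < 1) :
    TriA (DD x).cur (farD κ (h0 * x) (tbl tKF x) (tbl tL x)) 2 0 2 1 4 (-1) (-1) :=
  (sideF hx hx').farA (Or.inr rfl) (Or.inr rfl) fun y y' F r1 r2 =>
    (lt_or_ge (h0 * y) 1).elim
      (fun h => farXA_cert (s1 := false) (s2 := false) rfl hκ (ka0 hκ hx hx') (xa0 hx) hx' (covF12a hx hx') (covF40 hx hx') (x1 hx) (x2 hx')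
        Pool.Agent.Strip051.G.IE1.Tab.C.FA14.c_mm_202_a noCut_VA noExt_VA F r1 r2 ⟨r1, h⟩ r2)
      (fun h => farXA_cert (s1 := false) (s2 := false) rfl hκ (ka0 hκ hx hx') (xa0 hx) hx' (covF12b hx hx') (covF40 hx hx') (x1 hx) (x2 hx')
        Pool.Agent.Strip051.G.IE1.Tab.C.FA14.c_mm_202_b noCut_VA noExt_VA F r1 r2 ⟨r1, h⟩ r2)

theorem FA14_mm_203 {κ x : ℝ} (hκ : κ * h0 = kenE x) (hx : 39 / 40 ≤ x) (hx' : x < 1) :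
    TriA (DD x).cur (farD κ (h0 * x) (tbl tKF x) (tbl tL x)) 2 0 3 1 4 (-1) (-1) :=
  (sideF hx hx').farA (Or.inr rfl) (Or.inr rfl) fun y y' F r1 r2 =>
    (lt_or_ge (h0 * y) 1).elim
      (fun h => farXA_cert (s1 := false) (s2 := false) rfl hκ (ka0 hκ hx hx') (xa0 hx) hx' (covF12a hx hx') (covF40 hx hx') (x1 hx) (x2 hx')
        Pool.Agent.Strip051.G.IE1.Tab.C.FA14.c_mm_203_a noCut_VA noExt_VA F r1 r2 ⟨r1, h⟩ r2)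
      (fun h => farXA_cert (s1 := false) (s2 := false) rfl hκ (ka0 hκ hx hx') (xa0 hx) hx' (covF12b hx hx') (covF40 hx hx') (x1 hx) (x2 hx')
        Pool.Agent.Strip051.G.IE1.Tab.C.FA14.c_mm_203_b noCut_VA noExt_VA F r1 r2 ⟨r1, h⟩ r2)

theorem FA14_mm_213 {κ x : ℝ} (hκ : κ * h0 = kenE x) (hx : 39 / 40 ≤ x) (hx' : x < 1) :
    TriA (DD x).cur (farD κ (h0 * x) (tbl tKF x) (tbl tL x)) 2 1 3 1 4 (-1) (-1) :=
  triVA_k nr4_1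

theorem FA14_mm_303 {κ x : ℝ} (hκ : κ * h0 = kenE x) (hx : 39 / 40 ≤ x) (hx' : x < 1) :
    TriA (DD x).cur (farD κ (h0 * x) (tbl tKF x) (tbl tL x)) 3 0 3 1 4 (-1) (-1) :=
  (sideF hx hx').farA (Or.inr rfl) (Or.inr rfl) fun y y' F r1 r2 =>
    farXA_cert (s1 := false) (s2 := false) rfl hκ (ka0 hκ hx hx') (xa0 hx) hx' (covF13 hx hx') (covF40 hx hx') (x1 hx) (x2 hx')
        Pool.Agent.Strip051.G.IE1.Tab.C.FA14.c_mm_303 noCut_VA noExt_VA F r1 r2 r1 r2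

theorem FA14_mm_313 {κ x : ℝ} (hκ : κ * h0 = kenE x) (hx : 39 / 40 ≤ x) (hx' : x < 1) :
    TriA (DD x).cur (farD κ (h0 * x) (tbl tKF x) (tbl tL x)) 3 1 3 1 4 (-1) (-1) :=
  triVA_k nr4_1

theorem FA14 {κ x : ℝ} (hκ : κ * h0 = kenE x) (hx : 39 / 40 ≤ x) (hx' : x < 1) : AllTA (DD x).cur (farD κ (h0 * x) (tbl tKF x) (tbl tL x)) 1 4 where
  pp := all17 (Q := fun a b c => TriA (DD x).cur (farD κ (h0 * x) (tbl tKF x) (tbl tL x)) a b c 1 4 1 1)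
    (FA14_pp_001 hκ hx hx') (FA14_pp_011 hκ hx hx') (FA14_pp_012 hκ hx hx') (FA14_pp_022 hκ hx hx') (FA14_pp_023 hκ hx hx') (FA14_pp_033 hκ hx hx') (FA14_pp_101 hκ hx hx') (FA14_pp_102 hκ hx hx') (FA14_pp_112 hκ hx hx') (FA14_pp_113 hκ hx hx') (FA14_pp_123 hκ hx hx') (FA14_pp_133 hκ hx hx') (FA14_pp_202 hκ hx hx') (FA14_pp_203 hκ hx hx') (FA14_pp_213 hκ hx hx') (FA14_pp_303 hκ hx hx') (FA14_pp_313 hκ hx hx')
  pm := all17 (Q := fun a b c => TriA (DD x).cur (farD κ (h0 * x) (tbl tKF x) (tbl tL x)) a b c 1 4 1 (-1))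
    (FA14_pm_001 hκ hx hx') (FA14_pm_011 hκ hx hx') (FA14_pm_012 hκ hx hx') (FA14_pm_022 hκ hx hx') (FA14_pm_023 hκ hx hx') (FA14_pm_033 hκ hx hx') (FA14_pm_101 hκ hx hx') (FA14_pm_102 hκ hx hx') (FA14_pm_112 hκ hx hx') (FA14_pm_113 hκ hx hx') (FA14_pm_123 hκ hx hx') (FA14_pm_133 hκ hx hx') (FA14_pm_202 hκ hx hx') (FA14_pm_203 hκ hx hx') (FA14_pm_213 hκ hx hx') (FA14_pm_303 hκ hx hx') (FA14_pm_313 hκ hx hx')
  mm := all17 (Q := fun a b c => TriA (DD x).cur (farD κ (h0 * x) (tbl tKF x) (tbl tL x)) a b c 1 4 (-1) (-1))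
    (FA14_mm_001 hκ hx hx') (FA14_mm_011 hκ hx hx') (FA14_mm_012 hκ hx hx') (FA14_mm_022 hκ hx hx') (FA14_mm_023 hκ hx hx') (FA14_mm_033 hκ hx hx') (FA14_mm_101 hκ hx hx') (FA14_mm_102 hκ hx hx') (FA14_mm_112 hκ hx hx') (FA14_mm_113 hκ hx hx') (FA14_mm_123 hκ hx hx') (FA14_mm_133 hκ hx hx') (FA14_mm_202 hκ hx hx') (FA14_mm_203 hκ hx hx') (FA14_mm_213 hκ hx hx') (FA14_mm_303 hκ hx hx') (FA14_mm_313 hκ hx hx')

end Pool.Agent.Strip051.G.IE1.Tab
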