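import Pool.Agent.Strip051.G.IE1.Tab

/-! # Certificates F16 (generated) -/

set_option linter.all false
set_option maxRecDepth 100000

namespace Pool.Agent.Strip051.G.IE1.Tab.C.FA15

open Pool.Agent.Strip051.PB Pool.Agent.Strip051.PB.T
open Pool.Agent.Strip051.G.IE1.Tab

noncomputable def f_pm_022 : ℕ → ℕ → ℕ → ℕ → Bool := onCell 67108864 469762048 1073741824 536870912 1046898278 26843546
    (rowFX 1 true true false .pp 0 2 2 (qsf 67108864 469762048 1073741824 536870912 2) ndF1q0 ndF5q2 pcF2 Cut.none Ext.none)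

def k0_pm_022 : ∃ t, chk3 f_pm_022 t 1 4 1 = true :=
  ⟨(a (a (b (l 3) (b (a (a (b (b (l 3) (c (a (c (b (l 15939864) (l 15955392)) (l 15957800)) (c (l 48887127975) (l 15953160))) (a (b (l 15933200) (l 15949392)) (b (l 1) (l 15945552))))) (c (b (a (c (b (l 15974392) (l 15991144)) (l 15992856)) (c (l 15978368) (l 15989184))) (b (c (a (b (l 16004736) (l 16042208)) (l 16010472)) (a (l 16022912) (l 16021800))) (a (l 16072528) (l 16072560)))) (b (c (a (l 15983016) (l 15979088)) (a (l 15973168) (l 15968992))) (b (b (c (l 16001120) (l 15991480)) (l 16014768)) (a (l 16053512) (l 16054480)))))) (a (b (l 1) (b (l 1) (b (b (l 1) (c (l 16035800) (l 16016504))) (c (l 16070424) (l 16052096))))) (l 1))) (l 1)) (b (a (a (c (b (a (c (b (l 16124032) (l 16174840)) (l 16140888)) (c (l 16150176) (l 16142304))) (a (c (l 16259528) (l 16252552)) (l 16235296))) (b (a (c (l 16133360) (l 16125840)) (l 16130592)) (a (l 16243872) (l 16243744)))) (a (c (b (c (b (l 16122840) (l 16173672)) (l 16140328)) (c (l 16256520)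 (l 16250016))) (b (c (l 16132240) (l 16124152)) (l 16240288))) (b (l 1) (l 141766159671)))) (l 1)) (a (a (c (b (a (l 16301728) (l 16341752)) (a (l 16402912) (l 16400376))) (b (a (l 16333320) (l 16332040)) (l 16369136))) (c (b (a (c (l 16340360) (l 16335200)) (l 16290424)) (a (l 16395896) (l 16348032))) (b (l 16239656) (l 16362400)))) (a (a (b (l 16220352) (l 16278480)) (l 1)) (l 1)))))) (l 1)) (l 1)), by decide +kernel⟩

def k1_pm_022 : ∃ t, chk3 f_pm_022 t 16 5 1 = true :=
  ⟨(c (b (b (b (b (a (l 16442136) (l 16440896)) (a (l 16434568) (l 16460184))) (b (a (l 16364624) (l 16397112)) (b (a (l 16279344) (l 16332640)) (b (a (l 16176760) (l 16230360)) (a (b (b (b (l 16130912) (b (l 16116760) (l 16104888))) (l 16096816)) (l 16089408)) (b (b (b (l 16184680) (b (l 16170600) (l 16158784))) (l 16150728)) (l 16143272))))))) (a (b (l 16007376) (l 15863624)) (b (l 16060656) (l 15915400)))) (b (a (b (c (l 15740080) (l 15730168)) (b (a (b (c (l 15606248) (l 15679040)) (l 15703328)) (l 15661312))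 (a (l 15914248) (b (a (l 15689504) (l 15634400)) (l 15746456))))) (b (l 15783872) (b (l 15694608) (a (a (l 15633008) (l 15633672)) (l 15651800))))) (a (b (a (l 16015760) (l 15876664)) (a (l 16123560) (l 16204224))) (b (b (a (b (a (l 15686288) (l 15614032)) (l 15725928)) (b (l 15607416) (c (l 15589056) (l 15576288)))) (a (l 15871416) (c (l 15534936) (l 15649040)))) (l 15792864))))) (b (b (b (b (a (l 16435672) (l 16435024)) (b (l 16477456) (l 16550024))) (b (l 16329072) (b (l 16218040) (b (l 16154672) (a (a (l 16084272) (l 16111296)) (l 16089888)))))) (a (l 15917968) (l 15970144))) (b (b (l 15699184) (a (b (a (l 15705184) (l 15638296)) (a (l 15899104) (l 15697112))) (l 15647872))) (a (b (l 15876104) (l 16225816)) (b (b (a (l 15677448) (l 15575168)) (l 15725168)) (l 15906736)))))), by decide +kernel⟩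

def k2_pm_022 : ∃ t, chk3 f_pm_022 t 17 5 1 = true :=
  ⟨(a (b (b (b (b (c (c (l 16439008) (l 16435728)) (l 16430816)) (c (l 16482664) (l 16521096))) (b (c (l 16413336) (l 16495464)) (b (c (l 16306704) (l 16384152)) (b (c (c (l 16290896) (l 16286240)) (l 16279240)) (c (b (b (b (l 16242968) (b (l 16228944) (a (l 16200976) (l 16233480)))) (l 16209128)) (l 16201624)) (a (l 16195384) (l 16165368))))))) (c (c (b (l 16121808) (l 15975784)) (l 15913496)) (l 15943864))) (b (c (c (b (l 15842912) (l 15723880)) (l 15770920)) (l 15754776)) (c (b (b (l 15621256) (a (b (l 15536384) (c (l 15531240) (l 15517560))) (l 15538448))) (b (a (l 15487544) (a (b (l 15464960) (l 15489856)) (l 15459744))) (l 15482096))) (b (b (l 15596208) (l 15516336)) (b (a (l 15588568) (l 15454200)) (l 15669064)))))) (b (b (b (b (c (l 16390392) (l 16381744)) (l 16478944)) (b (l 16509664) (b (l 16404752) (b (l 16343072) (b (b (b (l 16338808) (b (l 16324608) (l 16312704))) (l 16304512)) (l 16296792)))))) (b (l 16106168) (l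 16059216))) (b (b (l 15920328) (l 15795064)) (b (c (l 15655848) (l 15631328)) (a (b (l 15472432) (b (l 15412904) (l 15345240))) (l 15471504)))))), by decide +kernel⟩

def k3_pm_022 : ∃ t, chk3 f_pm_022 t 9 5 1 = true :=
  ⟨(b (a (b (b (b (c (b (l 16283760) (l 16304960)) (l 16285992)) (l 16389784)) (b (l 16399408) (b (l 16462824) (b (c (l 16423216) (l 16483032)) (b (b (b (l 16480184) (b (l 16466000) (a (l 16433880) (l 16559112)))) (l 16445864)) (l 16437896)))))) (a (b (l 16267192) (l 16174392)) (b (l 16369368) (l 16230704)))) (a (b (b (l 1) (b (l 16469120) (b (l 16587984) (b (l 16674472) (b (c (b (b (l 16707424) (l 16624760)) (l 16673544)) (l 16607656)) (l 16664656)))))) (b (l 16489520) (l 16284320))) (b (l 1) (b (b (l 16711096) (l 16625640)) (l 16481272))))) (b (a (c (b (a (l 16038920) (l 16152456)) (l 15817384)) (l 15802568)) (a (c (b (l 16263624) (l 16125608)) (l 16180936)) (b (l 16326480) (l 16204448)))) (a (c (b (b (l 15858192) (l 15756064)) (l 15606320)) (l 15535256)) (c (b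 (a (l 15961064) (l 16042312)) (l 15771048)) (l 15624568))))), by decide +kernel⟩

def k4_pm_022 : ∃ t, chk3 f_pm_022 t 5 5 1 = true :=
  ⟨(b (b (l 1) (a (a (b (l 541736018807) (a (l 16572848) (l 16624912))) (l 1)) (l 1))) (a (b (a (c (b (l 16421920) (l 16254616)) (l 16276152)) (a (l 16333616) (b (l 1) (l 16511712)))) (a (c (b (c (l 16084824) (l 16161752)) (l 15949288)) (l 15934680)) (a (b (l 16287960) (l 16064504)) (b (l 16264600) (l 16163456))))) (b (l 1) (a (b (l 137471821655) (l 16301488)) (l 1))))), by decide +kernel⟩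

def k5_pm_022 : ∃ t, chk3 f_pm_022 t 3 5 1 = true :=
  ⟨(l 1), by decide +kernel⟩

def k6_pm_022 : ∃ t, chk3 f_pm_022 t 4 6 1 = true :=
  ⟨(b (a (a (b (a (c (b (l 15882648) (l 15720536)) (l 15684040)) (c (b (a (l 16282152) (l 16158488)) (l 15969752)) (l 16033560))) (b (a (c (b (l 15518432) (l 15445016)) (l 15458248)) (c (l 15843704) (l 15821704))) (a (l 15408576) (c (b (l 15663440) (l 15605968)) (l 15615720))))) (b (a (b (c (l 15770672) (l 15923920)) (c (c (l 16141752) (l 16203008)) (l 16263424))) (b (a (l 15650752) (b (b (l 15375600) (l 15405792)) (l 15539920))) (l 15836096))) (a (c (b (l 16116680) (l 15923568)) (b (l 16234184) (l 15946600))) (b (l 16129584) (l 16278496))))) (b (a (b (a (a (b (l 15376136) (a (l 15392728) (l 15295232))) (l 15466608)) (l 15446768)) (a (b (a (l 15530608) (c (l 15326576) (l 15336368))) (l 15627192)) (b (c (l 15327968) (l 15294456)) (a (l 15248320) (l 15253144))))) (c (b (l 15591280) (l 15399600)) (l 15464592))) (a (a (b (l 15860272) (l 16154632)) (b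 (b (l 15208016) (l 15611656)) (l 15908296))) (b (a (a (b (l 15218528) (l 15301192)) (b (l 15228256) (l 15178440))) (l 15232544)) (a (l 15368464) (c (b (l 15092920) (l 15002984)) (l 15128448))))))) (a (a (c (l 15508624) (l 15472672)) (b (a (c (b (l 15752400) (l 15760384)) (l 15756488)) (b (l 15994016) (l 15887792))) (l 15806856))) (b (a (b (a (l 16343712) (l 16182576)) (a (l 16079552) (l 16389224))) (b (c (l 15439360) (l 15624720)) (a (l 16188496) (l 15862024)))) (a (b (a (l 15976608) (l 16146592)) (l 16016368)) (a (b (l 16443144) (l 16181000)) (b (l 16202800) (l 16527144))))))), by decide +kernel⟩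

def k7_pm_022 : ∃ t, chk3 f_pm_022 t 5 6 1 = true :=
  ⟨(b (a (b (a (b (l 15687472) (l 15528296)) (c (a (l 15758280) (l 15725048)) (l 15779504))) (a (b (l 15336280) (l 15153632)) (a (l 15351296) (l 15311272)))) (a (b (c (l 15927480) (l 16099056)) (c (l 15697832) (l 15669792))) (b (a (l 16299800) (l 16464040)) (l 15926912)))) (a (b (a (b (a (b (c (l 15032912) (l 15033048)) (l 15140824)) (l 15016648)) (a (l 15431144) (b (c (l 15005552) (l 14961184)) (l 15099256)))) (b (l 15119024) (a (l 14923432) (l 14985576)))) (a (b (l 15496984) (a (l 16198976) (l 15812112))) (b (a (b (l 14840696) (l 15069256)) (a (l 14832648) (l 14846072))) (a (l 15385872) (a (l 15054432) (l 14887976)))))) (a (b (l 15295608) (b (l 15028096) (a (c (l 14863208) (l 14813496)) (l 14933040)))) (b (l 15633320) (l 15249624))))), by decide +kernel⟩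

def k8_pm_022 : ∃ t, chk3 f_pm_022 t 2 7 1 = true :=
  ⟨(a (a (c (b (a (l 15508624) (l 15819184)) (a (l 15508624) (l 15819184))) (b (a (l 15472672) (l 15794272)) (l 15618816))) (b (b (a (l 16011960) (a (l 16162008) (b (l 16330032) (l 16288544)))) (c (l 16128256) (l 16111400))) (c (l 16128256) (l 16111400)))) (b (a (b (b (a (a (l 16586088) (l 16199800)) (l 15462528)) (a (a (l 16461328) (l 16505616)) (l 15820696))) (a (b (l 16353248) (l 16477800)) (b (a (l 16469272) (l 16179968)) (a (l 16680312) (l 16419368))))) (b (a (b (a (l 15012560) (c (l 14867616) (l 14818016))) (l 15115976)) (b (l 14985544) (a (l 14768424) (l 14891800)))) (a (c (l 15636136) (l 15780264)) (b (a (l 15104304) (l 14866792)) (l 15342912))))) (a (a (l 16477800) (b (b (l 16573216) (l 16710808)) (l 16710808))) (b (a (b (a (l 16575176) (l 16267616)) (a (l 16757968) (l 16546032))) (b (l 15754760) (l 16085488))) (a (l 16772296) (b (a (l 16639536) (l 16361744)) (l 16681944))))))), by decide +kernel⟩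

def k9_pm_022 : ∃ t, chk3 f_pm_022 t 3 3 1 = true :=
  ⟨(b (a (b (a (a (b (l 16496560) (b (l 16503200) (l 16332576))) (l 553546377159)) (l 1)) (a (b (a (l 15998384) (b (l 16506944) (l 16275520))) (a (l 15583384) (l 15944576))) (b (l 517576227415) (a (l 16269712) (l 16704832))))) (l 1)) (a (b (a (b (l 15240216) (a (b (l 14943760) (a (l 14886224) (l 14855568))) (l 15159376))) (b (l 15828672) (l 15532992))) (a (b (a (b (a (l 15210376) (l 14910560)) (l 15447568)) (b (l 14911600) (a (l 14939760) (l 14838960)))) (a (c (l 15809440) (l 15916672)) (b (l 15110880) (l 15551104)))) (b (l 15272976) (a (b (l 14893832) (a (l 15012560) (l 14842816))) (l 15071416))))) (b (a (b (a (l 16686048) (l 1)) (a (l 16219056) (l 16583888))) (l 1)) (a (b (l 15824856) (l 15558984)) (b (a (l 16566144) (l 1)) (a (l 16107640) (l 16506968))))))), by decide +kernel⟩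

theorem s10_pm_022 : ∃ t, chk3 f_pm_022 t 2 6 1 = true := ex3_a k6_pm_022 k7_pm_022

theorem s11_pm_022 : ∃ t, chk3 f_pm_022 t 2 3 1 = true := ex3_b s10_pm_022 k8_pm_022

theorem s12_pm_022 : ∃ t, chk3 f_pm_022 t 1 3 1 = true := ex3_a s11_pm_022 k9_pm_022

theorem s13_pm_022 : ∃ t, chk3 f_pm_022 t 8 5 1 = true := ex3_a k1_pm_022 k2_pm_022

theorem s14_pm_022 : ∃ t, chk3 f_pm_022 t 4 5 1 = true := ex3_a s13_pm_022 k3_pm_022

theorem s15_pm_022 : ∃ t, chk3 f_pm_022 t 2 5 1 = true := ex3_a s14_pm_022 k4_pm_022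

theorem s16_pm_022 : ∃ t, chk3 f_pm_022 t 1 5 1 = true := ex3_a s15_pm_022 k5_pm_022

theorem s17_pm_022 : ∃ t, chk3 f_pm_022 t 1 2 1 = true := ex3_b k0_pm_022 s16_pm_022

theorem s18_pm_022 : ∃ t, chk3 f_pm_022 t 1 1 1 = true := ex3_b s17_pm_022 s12_pm_022

theorem c_pm_022 : CertFX 67108864 469762048 1073741824 536870912 1046898278 26843546 true true false .pp 0 2 2
    ndF1q0 ndF5q2 pcF2 Cut.none Ext.none :=
  certFX1 (fam := true) (s1 := true) (s2 := false) (a := 0) (b := 2) (c := 2) (cn := .pp) (n1 := ndF1q0) (n2 := ndF5q2) (pc := pcF2) (cut := Cut.none) (xt := Ext.none) (P1 := 67108864) (W1 := 469762048) (P2 := 1073741824) (W2 := 536870912) (P3 := 1046898278) (W3 := 26843546)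
    rfl (fun _ => rfl) s18_pm_022

noncomputable def f_pm_023 : ℕ → ℕ → ℕ → ℕ → Bool := onCell 1610612736 536870912 1073741824 536870912 1046898278 26843546
    (rowFX 2 true true false .up 0 2 3 (qsf 67108864 469762048 1073741824 536870912 3) ndF1q0 ndF5q2 pcF3 Cut.none Ext.none)

def k0_pm_023 : ∃ t, chk3 f_pm_023 t 1 1 1 = true :=
  ⟨(b (a (b (a (b (a (l 15941632) (l 15962608)) (a (c (l 15246776) (l 15207024)) (c (l 15246776) (l 15207024)))) (b (l 2) (a (l 229340938791) (l 2)))) (b (a (b (c (a (b (l 14826840) (l 14990696)) (l 14909528)) (l 14630328)) (a (l 15434592) (l 15602360))) (a (b (a (l 14885272) (l 14885272)) (l 15602360)) (b (l 2) (l 15602360)))) (a (b (a (c (l 16390120) (l 16380072)) (l 16259264)) (c (l 16776672) (l 16776656))) (b (a (l 16343152) (l 16343152)) (l 16776664))))) (a (b (l 2) (b (l 2) (b (l 2) (l 16776704)))) (l 2))) (b (a (a (a (b (a (l 16731144) (l 16777152)) (a (l 16110488) (b (l 16706688) (l 16495480)))) (b (l 16777216) (a (l 16731144) (l 16777152))))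 (l 16777216)) (a (a (l 16777208) (a (l 16777152) (l 16777152))) (a (a (l 373762867319) (l 2)) (l 2)))) (a (a (a (b (c (a (l 151965559975) (l 16086104)) (a (l 148207353719) (l 16068680))) (a (b (c (l 15231816) (l 15332080)) (c (l 14792856) (l 381744725687))) (c (b (l 15685424) (l 15105992)) (b (l 15653872) (l 15332080))))) (b (a (l 16194376) (l 16592848)) (c (a (l 15619336) (l 16107072)) (a (l 156797309287) (l 16089656))))) (a (b (l 16743376) (a (l 16299232) (l 16592848))) (l 16755640))) (a (a (l 16777208) (a (l 16777160) (l 16777160))) (a (a (l 16776896) (c (a (l 16774280) (l 16774928)) (l 176328449303))) (b (b (l 2) (l 4)) (l 4))))))), by decide +kernel⟩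

theorem c_pm_023 : CertFX 67108864 469762048 1073741824 536870912 1046898278 26843546 true true false .up 0 2 3
    ndF1q0 ndF5q2 pcF3 Cut.none Ext.none :=
  certFX2 (fam := true) (s1 := true) (s2 := false) (a := 0) (b := 2) (c := 3) (cn := .up) (n1 := ndF1q0) (n2 := ndF5q2) (pc := pcF3) (cut := Cut.none) (xt := Ext.none) (P1 := 67108864) (W1 := 469762048) (P2 := 1073741824) (W2 := 536870912) (P3 := 1046898278) (W3 := 26843546)
    rfl (fun _ => rfl) k0_pm_023

noncomputable def f_pm_033 : ℕ → ℕ → ℕ → ℕ → Bool := onCell 1610612736 536870912 0 1230186008 1046898278 26843546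
    (rowFX 2 true true false .pnn 0 3 3 (qsf 67108864 469762048 0 1230186008 3) ndF1q0 ndF5q3 pcF3 Cut.none Ext.none)

def k0_pm_033 : ∃ t, chk3 f_pm_033 t 1 2 1 = true :=
  ⟨(a (l 1) (a (l 1) (a (l 1) (l 4)))), by decide +kernel⟩

def k1_pm_033 : ∃ t, chk3 f_pm_033 t 1 6 1 = true :=
  ⟨(a (l 1) (a (b (l 1) (a (a (l 1) (a (l 1) (b (l 1) (c (l 15068112) (l 15124064))))) (a (a (b (l 1) (c (l 15259280) (l 15320176))) (b (a (l 1) (l 4)) (c (l 15437464) (l 15485552)))) (a (b (l 4) (c (l 15617832) (l 15641536))) (l 4))))) (l 4))), by decide +kernel⟩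

def k2_pm_033 : ∃ t, chk3 f_pm_033 t 1 7 1 = true :=
  ⟨(a (b (a (l 1) (a (l 1) (b (a (l 1) (b (l 1) (c (l 15028200) (l 141226616263)))) (a (b (l 1) (c (l 15302856) (l 15276952))) (c (b (l 15320552) (l 15640256)) (l 15216264)))))) (a (b (l 1) (b (a (l 1) (a (l 1) (c (l 15196024) (l 15193088)))) (b (a (l 1) (a (l 202430171751) (l 15546680))) (a (a (l 1) (c (l 15091224) (l 15061464))) (c (l 15409568) (l 15502336)))))) (b (a (a (b (l 1) (c (l 15199888) (l 15196272))) (b (c (l 15239936) (l 15259256)) (c (l 15624880) (l 15588656)))) (c (a (l 15549736) (l 16027512)) (a (l 143375402887) (l 15987584)))) (a (c (b (l 39759349735) (l 16024904)) (b (a (l 15602392) (l 15903648)) (l 15986008))) (b (l 16232832) (l 16575528)))))) (a (b (a (b (a (c (b (l 15104880) (l 15334416)) (b (l 15054792) (l 15366456))) (c (b (l 15447224) (l 15743056)) (l 15399112))) (c (a (l 15661584) (l 16060912)) (a (l 15530816) (l 16021864)))) (a (b (c (l 15782624) (l 15717464)) (a (l 16264112) (l 16399648))) (a (b (l 16043160)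 (l 16535240)) (b (l 321819317127) (l 16474352))))) (a (b (a (b (l 16163880) (l 16433032)) (b (l 16435520) (l 16671960))) (a (l 16712512) (l 16774264))) (a (b (b (l 16675096) (l 16772536)) (l 16777168)) (b (l 16774480) (l 16777184))))) (a (a (a (b (b (l 4) (l 340073544567)) (l 16777208)) (b (l 4) (c (l 16777128) (l 16777120)))) (b (l 4) (a (a (l 16777112) (l 350811590983)) (l 4)))) (l 4)))), by decide +kernel⟩

theorem s3_pm_033 : ∃ t, chk3 f_pm_033 t 1 3 1 = true := ex3_b k1_pm_033 k2_pm_033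

theorem s4_pm_033 : ∃ t, chk3 f_pm_033 t 1 1 1 = true := ex3_b k0_pm_033 s3_pm_033

theorem c_pm_033 : CertFX 67108864 469762048 0 1230186008 1046898278 26843546 true true false .pnn 0 3 3
    ndF1q0 ndF5q3 pcF3 Cut.none Ext.none :=
  certFX2 (fam := true) (s1 := true) (s2 := false) (a := 0) (b := 3) (c := 3) (cn := .pnn) (n1 := ndF1q0) (n2 := ndF5q3) (pc := pcF3) (cut := Cut.none) (xt := Ext.none) (P1 := 67108864) (W1 := 469762048) (P2 := 0) (W2 := 1230186008) (P3 := 1046898278) (W3 := 26843546)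
    rfl (fun _ => rfl) s4_pm_033

noncomputable def f_pm_101 : ℕ → ℕ → ℕ → ℕ → Bool := onCell 536870912 536870912 0 536870912 1046898278 26843546
    (rowFX 2 true true false .npn 1 0 1 (qsf 536870912 536870912 0 536870912 1) ndF1q1 ndF5q0 pcF1 Cut.none Ext.none)

def k0_pm_101 : ∃ t, chk3 f_pm_101 t 1 1 1 = true :=
  ⟨(a (l 3) (a (l 3) (b (l 3) (l 3)))), by decide +kernel⟩

theorem c_pm_101 : CertFX 536870912 536870912 0 536870912 1046898278 26843546 true true false .npn 1 0 1
    ndF1q1 ndF5q0 pcF1 Cut.none Ext.none :=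
  certFX2 (fam := true) (s1 := true) (s2 := false) (a := 1) (b := 0) (c := 1) (cn := .npn) (n1 := ndF1q1) (n2 := ndF5q0) (pc := pcF1) (cut := Cut.none) (xt := Ext.none) (P1 := 536870912) (W1 := 536870912) (P2 := 0) (W2 := 536870912) (P3 := 1046898278) (W3 := 26843546)
    rfl (fun _ => rfl) k0_pm_101

noncomputable def f_pm_102 : ℕ → ℕ → ℕ → ℕ → Bool := onCell 536870912 536870912 1073741824 536870912 1046898278 26843546
    (rowFX 1 true true false .npp 1 0 2 (qsf 536870912 536870912 0 536870912 2) ndF1q1 ndF5q0 pcF2 Cut.none Ext.none)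

def k0_pm_102 : ∃ t, chk3 f_pm_102 t 2 2 1 = true :=
  ⟨(b (b (b (b (l 3) (a (a (b (l 3) (c (l 16014376) (l 15994704))) (l 3)) (l 3))) (b (c (a (b (a (l 16082496) (l 16083016)) (l 16146312)) (b (a (l 16083280) (l 16083432)) (b (l 16140928) (l 16155160)))) (a (b (a (l 16058520) (l 16059296)) (l 16125464)) (b (a (l 16059752) (l 16060016)) (l 16111008)))) (a (b (c (l 16179192) (l 16159352)) (c (l 16206048) (l 16189936))) (b (c (l 16181864) (l 16162184)) (c (l 16205592) (l 16189472)))))) (b (b (a (l 16217256) (a (l 16213480) (l 16207480))) (a (l 16195672) (l 16178336))) (a (b (l 16109048) (l 16067456)) (b (b (l 16138544) (l 16098944)) (l 16017320))))) (a (b (b (b (l 15956608) (l 2)) (l 2)) (l 2)) (b (b (b (a (l 15910736) (c (l 15871080) (c (l 15831648) (l 15838696)))) (b (c (l 15803184) (a (l 15776280) (l 15565424))) (a (b (c (l 15796376) (l 15755776)) (a (b (l 15680608) (l 15736248)) (l 15747920))) (c (l 15778328) (l 15740552))))) (c (b (a (l 15975504) (l 15918608)) (l 16150928)) (b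 (l 15782336) (l 16167376)))) (b (c (l 16518824) (l 16523504)) (a (l 2) (l 16776840)))))), by decide +kernel⟩

def k1_pm_102 : ∃ t, chk3 f_pm_102 t 3 8 1 = true :=
  ⟨(a (b (l 3) (b (a (c (b (b (l 16066328) (l 16105056)) (l 16149072)) (b (b (l 16043400) (l 16083384)) (l 16127992))) (c (b (a (l 16023616) (l 15961456)) (a (l 16109448) (l 16057808))) (b (a (l 15967280) (b (l 15880816) (l 15940176))) (a (l 16017608) (a (l 16008720) (l 16004672)))))) (b (a (c (l 16175088) (l 16154752)) (c (a (l 16145232) (l 16106336)) (a (l 16119616) (l 16065536)))) (a (c (l 16197448) (l 16180704)) (c (a (l 16172944) (l 16147072)) (a (l 16152504) (l 16115496))))))) (b (a (l 3) (l 3)) (a (b (b (c (b (l 16117224) (l 16176976)) (a (l 15908152) (l 16116392))) (a (c (l 16161872) (l 16114768)) (l 16284192))) (b (c (a (l 16218736) (l 16396232)) (a (l 16183528) (l 16386960))) (a (b (l 16242144) (l 16261952)) (l 16389080)))) (b (c (a (b (b (l 16469232) (l 16482344)) (l 16454328)) (b (a (b (l 16496320) (l 16522544))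 (b (l 16528576) (c (l 16630328) (l 16583976)))) (a (l 16486640) (c (l 16580704) (l 16544176))))) (a (b (b (l 16459648) (l 16471608)) (l 16439232)) (b (b (a (l 16541224) (l 16584048)) (l 16447296)) (l 16489792)))) (b (a (c (l 16405480) (l 16391232)) (c (c (a (l 16451192) (l 16396184)) (l 16458704)) (b (l 16465568) (l 16437208)))) (a (l 16350816) (c (l 16294792) (l 16385488)))))))), by decide +kernel⟩

def k2_pm_102 : ∃ t, chk3 f_pm_102 t 3 9 1 = true :=
  ⟨(b (a (a (b (l 16193800) (l 16150152)) (b (a (l 16163888) (b (l 16150808) (l 16142400))) (a (l 16113064) (c (l 16114624) (l 16093520))))) (a (b (a (l 16275448) (l 16309984)) (a (l 16233504) (c (l 16154816) (c (l 16127936) (l 16135336))))) (a (b (l 16232000) (c (l 16061416) (c (l 16035176) (l 16053688)))) (b (b (a (l 16287472) (l 16319560)) (l 16193840)) (c (b (l 16086144) (l 15831968)) (b (c (l 16058800) (l 16061328)) (a (l 15837696) (l 15888056)))))))) (b (a (a (l 16079520) (a (l 16034544) (b (l 16050376) (c (l 15995304) (c (l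 15978320) (l 15960912)))))) (a (c (a (l 16092456) (b (l 16044232) (l 15938392))) (a (b (c (l 16020224) (l 16116088)) (c (l 16038312) (l 16045200))) (b (c (l 16018880) (l 16021432)) (l 15737464)))) (c (a (b (l 15947160) (l 15833928)) (c (l 15805744) (b (l 15857528) (l 15716256)))) (a (b (c (l 15908288) (l 15925176)) (l 15584168)) (b (c (l 15673696) (l 15855040)) (c (l 15735416) (l 15696024))))))) (a (c (a (l 15952048) (a (l 15909376) (l 15890800))) (a (c (l 15789016) (l 15901856)) (c (a (l 15877472) (b (l 15910024) (l 15801808))) (a (l 15878648) (l 15767152))))) (a (c (a (l 15928768) (c (l 15776064) (c (l 15767432) (l 15753856)))) (a (c (l 15661704) (l 15832208)) (c (l 15758664) (l 15768488)))) (c (a (c (l 15652712) (c (l 15630232) (b (l 15691976) (l 15566128)))) (c (c (l 15531400) (l 15508672)) (c (l 15507616) (b (l 15577840) (a (l 15472144) (l 15400184)))))) (c (a (c (l 15640984) (l 15639608)) (c (l 15361904) (l 15488192))) (a (l 15607456) (l 15475232)))))))), by decide +kernel⟩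

def k3_pm_102 : ∃ t, chk3 f_pm_102 t 3 10 1 = true :=
  ⟨(c (b (a (b (a (l 15826800) (c (l 15748080) (l 15510120))) (b (a (l 15722416) (c (l 15651672) (a (l 15650816) (l 15613544)))) (a (l 15719560) (c (l 15670392) (a (l 15660728) (l 15643240)))))) (c (a (b (a (l 15785400) (l 15549192)) (b (a (l 15710016) (l 15431488)) (a (l 15730584) (b (l 15434304) (l 15480920))))) (b (a (c (l 15387672) (l 15382080)) (c (l 15071992) (l 15010144))) (b (a (c (l 15252584) (l 15251264)) (c (l 15098184) (l 15077088))) (a (c (l 15260400) (l 15244112)) (l 15095656))))) (a (b (a (c (l 15783920) (l 15774096)) (c (l 15535712) (a (l 15578856) (l 15492600)))) (b (a (l 15739640) (c (l 15432432) (l 15425184))) (a (l 15731080) (c (l 15451280) (l 15439552))))) (b (a (c (l 15384472) (b (l 15446128) (l 15305280))) (a (c (l 15271168) (l 15251080)) (l 15175536))) (a (l 15226808) (l 15063592)))))) (a (a (b (l 15878784) (l 16134552)) (b (c (l 15830624) (l 15846680)) (l 16104152))) (a (b (a (c (l 15885312) (l 15919536))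 (c (l 15615944) (l 15592336))) (a (l 16118824) (l 15817536))) (a (b (l 15355960) (l 15553336)) (b (l 15205024) (l 15387856)))))) (a (a (b (b (c (a (l 15817528) (l 15747264)) (l 15787096)) (b (l 15569408) (c (l 15718496) (l 15723304)))) (b (l 15898224) (l 16138504))) (a (b (b (b (l 15669144) (l 15571072)) (b (l 15572608) (l 15510224))) (l 15973488)) (b (b (c (l 15711952) (l 15724240)) (c (b (l 15647048) (l 15668952)) (l 15598968))) (l 15921048)))) (b (a (b (a (c (l 15661704) (l 15779496)) (c (c (l 15562384) (l 15544840)) (l 15514480))) (b (a (c (l 15751128) (l 15708464)) (l 15401520)) (l 15580432))) (b (a (l 15348928) (l 15183968)) (b (l 15109304) (l 15115544)))) (a (b (l 15725760) (l 15935432)) (a (l 15360632) (l 15252048)))))), by decide +kernel⟩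

def k4_pm_102 : ∃ t, chk3 f_pm_102 t 3 11 1 = true :=
  ⟨(b (a (c (a (l 16508096) (l 16335424)) (a (l 16489248) (l 16348672))) (a (b (l 15910776) (c (l 16391480) (l 16380648))) (c (a (l 15820648) (b (l 15602208) (l 15860984))) (a (l 15901456) (l 15686880))))) (a (c (l 16761168) (l 16760712)) (a (c (l 16520488) (l 16513816)) (c (b (l 16058328) (l 16122144)) (l 16062736))))), by decide +kernel⟩

def k5_pm_102 : ∃ t, chk3 f_pm_102 t 1 3 1 = true :=
  ⟨(a (a (l 2) (b (b (l 16777216) (l 2)) (l 2))) (b (a (c (b (l 16761552) (l 16761552)) (b (l 16761144) (l 16761144))) (b (a (c (l 16520848) (l 16514184)) (b (l 16113632) (l 16113632))) (l 16251656))) (a (l 16761352) (l 16314568)))), by decide +kernel⟩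

theorem s6_pm_102 : ∃ t, chk3 f_pm_102 t 3 5 1 = true := ex3_b k3_pm_102 k4_pm_102

theorem s7_pm_102 : ∃ t, chk3 f_pm_102 t 3 4 1 = true := ex3_b k1_pm_102 k2_pm_102

theorem s8_pm_102 : ∃ t, chk3 f_pm_102 t 3 2 1 = true := ex3_b s7_pm_102 s6_pm_102

theorem s9_pm_102 : ∃ t, chk3 f_pm_102 t 1 2 1 = true := ex3_a k0_pm_102 s8_pm_102

theorem s10_pm_102 : ∃ t, chk3 f_pm_102 t 1 1 1 = true := ex3_b s9_pm_102 k5_pm_102

theorem c_pm_102 : CertFX 536870912 536870912 0 536870912 1046898278 26843546 true true false .npp 1 0 2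
    ndF1q1 ndF5q0 pcF2 Cut.none Ext.none :=
  certFX1 (fam := true) (s1 := true) (s2 := false) (a := 1) (b := 0) (c := 2) (cn := .npp) (n1 := ndF1q1) (n2 := ndF5q0) (pc := pcF2) (cut := Cut.none) (xt := Ext.none) (P1 := 536870912) (W1 := 536870912) (P2 := 0) (W2 := 536870912) (P3 := 1046898278) (W3 := 26843546)
    rfl (fun _ => rfl) s10_pm_102

noncomputable def f_pm_112 : ℕ → ℕ → ℕ → ℕ → Bool := onCell 1073741824 536870912 536870912 469762048 1046898278 26843546
    (rowFX 2 true true false .dn 1 1 2 (qsf 536870912 536870912 536870912 469762048 2) ndF1q1 ndF5q1 pcF2 Cut.none Ext.none)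

def k0_pm_112 : ∃ t, chk3 f_pm_112 t 1 1 1 = true :=
  ⟨(a (a (b (b (a (a (a (l 3) (a (l 3) (c (l 261622013639) (l 15994704)))) (a (c (a (l 16050280) (l 16134656)) (a (l 16044904) (l 16110512))) (a (c (l 16174472) (l 16154344)) (c (l 16203888) (l 16187696))))) (a (a (l 16215320) (l 16195704)) (a (l 16151120) (l 16064432)))) (a (l 1) (a (l 1) (a (l 16162408) (l 16090480))))) (l 1)) (a (b (a (a (b (l 15946464) (l 15987424)) (b (a (l 15852296) (a (c (l 15819608) (l 15781336)) (b (a (l 15601688) (l 15676552)) (l 15813840)))) (a (l 15900560) (a (l 15866944) (b (l 15826672) (l 1)))))) (c (b (a (l 15990416) (l 16202824)) (a (l 16023352) (l 16230264))) (b (a (l 15965320) (l 16194512)) (l 117606448935)))) (l 1)) (b (a (c (b (l 16520920) (l 16457544)) (b (l 16526800) (l 16554000))) (c (b (l 16776840) (l 16776856)) (l 16776856))) (b (b (a (l 991096351191) (l 16776864)) (l 1)) (l 1))))) (b (a (a (c (l 16776304) (l 16776280)) (a (a (l 16774688) (l 16772712)) (l 16765240))) (b (a (l 16694912)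 (l 16447432)) (a (l 16773664) (l 16773712)))) (b (a (a (c (l 16590920) (l 16736696)) (c (l 16716744) (l 16736696))) (b (l 16777216) (l 16694216))) (a (b (c (a (l 1) (b (l 16518512) (l 16151400))) (b (l 165925868007) (l 239476193735))) (l 1)) (b (b (l 16515152) (l 16122296)) (a (a (l 208336154775) (l 15214824)) (b (l 15632304) (l 15129880)))))))), by decide +kernel⟩

theorem c_pm_112 : CertFX 536870912 536870912 536870912 469762048 1046898278 26843546 true true false .dn 1 1 2
    ndF1q1 ndF5q1 pcF2 Cut.none Ext.none :=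
  certFX2 (fam := true) (s1 := true) (s2 := false) (a := 1) (b := 1) (c := 2) (cn := .dn) (n1 := ndF1q1) (n2 := ndF5q1) (pc := pcF2) (cut := Cut.none) (xt := Ext.none) (P1 := 536870912) (W1 := 536870912) (P2 := 536870912) (W2 := 469762048) (P3 := 1046898278) (W3 := 26843546)
    rfl (fun _ => rfl) k0_pm_112

noncomputable def f_pm_113 : ℕ → ℕ → ℕ → ℕ → Bool := onCell 1610612736 536870912 536870912 469762048 1046898278 26843546
    (rowFX 2 true true false .nn 1 1 3 (qsf 536870912 536870912 536870912 469762048 3) ndF1q1 ndF5q1 pcF3 Cut.none Ext.none)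

def k0_pm_113 : ∃ t, chk3 f_pm_113 t 1 1 1 = true :=
  ⟨(b (a (a (a (b (l 15928832) (l 16647224)) (b (b (l 2) (l 15866432)) (b (l 16189616) (l 16535824)))) (b (l 2) (a (a (l 16071160) (l 15892488)) (b (l 2) (a (l 15861648) (l 15704200)))))) (l 2)) (a (a (b (b (l 16762480) (l 16701456)) (b (b (l 16515616) (l 16143272)) (b (l 15632304) (l 15129880)))) (b (a (b (l 16490344) (l 16650432)) (a (l 16328488) (l 16129928))) (a (b (l 16345808) (l 15320984)) (b (a (l 16331384) (l 16239464)) (a (l 15391768) (l 15339928)))))) (a (b (a (a (b (l 15819592) (l 16063544)) (b (l 2) (a (l 15920048) (l 4)))) (a (l 4) (l 2))) (a (b (a (l 16073560) (a (l 15931288) (l 15837496))) (a (l 15366120) (l 15115360))) (a (a (b (l 15745360) (l 15147208)) (b (l 4) (l 14923832))) (l 4)))) (a (b (l 2) (l 4)) (l 4))))), by decide +kernel⟩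

theorem c_pm_113 : CertFX 536870912 536870912 536870912 469762048 1046898278 26843546 true true false .nn 1 1 3
    ndF1q1 ndF5q1 pcF3 Cut.none Ext.none :=
  certFX2 (fam := true) (s1 := true) (s2 := false) (a := 1) (b := 1) (c := 3) (cn := .nn) (n1 := ndF1q1) (n2 := ndF5q1) (pc := pcF3) (cut := Cut.none) (xt := Ext.none) (P1 := 536870912) (W1 := 536870912) (P2 := 536870912) (W2 := 469762048) (P3 := 1046898278) (W3 := 26843546)
    rfl (fun _ => rfl) k0_pm_113

noncomputable def f_pm_123 : ℕ → ℕ → ℕ → ℕ → Bool := onCell 1610612736 536870912 1073741824 536870912 1046898278 26843546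
    (rowFX 2 true true false .npn 1 2 3 (qsf 536870912 536870912 1073741824 536870912 3) ndF1q1 ndF5q2 pcF3 Cut.none Ext.none)

def k0_pm_123 : ∃ t, chk3 f_pm_123 t 2 1 1 = true :=
  ⟨(b (b (a (a (b (l 15983576) (c (l 15246776) (l 15207024))) (b (l 15962608) (c (l 15246776) (l 15207024)))) (b (a (b (l 16247152) (l 15812288)) (l 15857752)) (a (c (l 15246776) (l 15207024)) (l 15017184)))) (b (a (b (c (a (l 1) (l 14909528)) (l 228736227239)) (l 1)) (b (c (b (l 14826840) (l 14990696)) (l 14819072)) (a (l 15602360) (l 15602360)))) (a (l 1) (b (c (l 16348176) (l 16380072)) (l 16776664))))) (a (l 1) (b (l 16777216) (l 1)))), by decide +kernel⟩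

def k1_pm_123 : ∃ t, chk3 f_pm_123 t 6 1 1 = true :=
  ⟨(b (b (b (a (b (l 16249528) (l 15812296)) (b (l 16259760) (l 15817528))) (a (l 15122056) (l 15038600))) (b (b (b (a (l 14801528) (l 14801568)) (a (l 14967504) (l 14967544))) (a (l 15602376) (l 15602416))) (b (a (l 16385104) (l 16385152)) (l 16776704)))) (a (l 16777208) (a (b (l 16777152) (l 1)) (b (l 16777152) (l 16777160))))), by decide +kernel⟩

def k2_pm_123 : ∃ t, chk3 f_pm_123 t 14 1 1 = true :=
  ⟨(a (b (b (b (a (l 15814720) (b (l 16192288) (l 15819408))) (b (l 15414792) (l 15049992))) (b (b (b (l 14802408) (l 14968360)) (l 15603184)) (b (l 16385856) (l 16776040)))) (b (c (l 16776624) (l 16776616)) (l 16776896))) (b (b (b (a (b (l 16168192) (l 15829072)) (b (l 16161624) (l 15842216))) (b (l 15432976) (l 15066168))) (b (b (b (l 14819760) (l 14986376)) (l 15620480)) (b (l 16210944) (a (l 16764616) (l 16756072))))) (b (a (l 16767824) (l 16765040)) (c (l 194045307783) (l 196192673047))))), by decide +kernel⟩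

def k3_pm_123 : ∃ t, chk3 f_pm_123 t 15 1 1 = true :=
  ⟨(b (a (b (b (b (a (c (l 16227392) (l 16112704)) (l 16217824)) (a (l 15866888) (l 15925496))) (a (b (l 15443688) (l 15055624)) (b (l 15479024) (c (l 15059872) (l 15035672))))) (b (a (b (b (l 14811264) (l 14980432)) (l 15575680)) (b (b (l 14794136) (c (l 14982248) (l 14951464))) (c (l 15534560) (l 15601696)))) (a (b (c (l 16274264) (l 16398176)) (l 16761296)) (b (c (l 16268512) (l 16394400)) (c (l 16762976) (l 16760296)))))) (a (b (b (b (l 16384056) (l 15979224)) (a (c (l 15109360) (l 15293712)) (b (c (l 15625352) (l 15589688)) (l 15073280)))) (b (b (c (b (l 14776416) (l 14951000)) (b (l 14769544) (l 14942224))) (c (l 15489576) (l 15576040))) (b (a (l 16152016) (l 72174126471)) (c (l 16725728) (l 16718880))))) (b (a (b (c (b (l 16338304) (a (l 16251416) (l 16271616))) (b (l 16299672) (l 15999984))) (b (c (l 15524264) (l 15608400)) (a (l 15078504) (l 15014464)))) (a (b (c (b (l 16629536) (l 16299264)) (b (l 16360448) (l 16158384)))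 (c (l 15411256) (l 15377536))) (b (a (b (c (l 16603632) (l 16397784)) (l 16241848)) (b (a (l 16522424) (a (l 16512528) (l 4))) (l 4))) (l 4)))) (a (b (b (c (b (l 14755168) (l 14921072)) (b (l 14715512) (l 14882576))) (l 4)) (l 4)) (l 4))))) (a (a (c (b (l 16766408) (l 16766408)) (l 225720599143)) (b (c (l 16762592) (l 16758552)) (l 4))) (a (b (l 4) (l 4)) (l 4)))), by decide +kernel⟩

theorem s4_pm_123 : ∃ t, chk3 f_pm_123 t 7 1 1 = true := ex3_a k2_pm_123 k3_pm_123

theorem s5_pm_123 : ∃ t, chk3 f_pm_123 t 3 1 1 = true := ex3_a k1_pm_123 s4_pm_123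

theorem s6_pm_123 : ∃ t, chk3 f_pm_123 t 1 1 1 = true := ex3_a k0_pm_123 s5_pm_123

theorem c_pm_123 : CertFX 536870912 536870912 1073741824 536870912 1046898278 26843546 true true false .npn 1 2 3
    ndF1q1 ndF5q2 pcF3 Cut.none Ext.none :=
  certFX2 (fam := true) (s1 := true) (s2 := false) (a := 1) (b := 2) (c := 3) (cn := .npn) (n1 := ndF1q1) (n2 := ndF5q2) (pc := pcF3) (cut := Cut.none) (xt := Ext.none) (P1 := 536870912) (W1 := 536870912) (P2 := 1073741824) (W2 := 536870912) (P3 := 1046898278) (W3 := 26843546)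
    rfl (fun _ => rfl) s6_pm_123

noncomputable def f_pm_133 : ℕ → ℕ → ℕ → ℕ → Bool := onCell 536870912 536870912 0 1230186008 1046898278 26843546
    (rowFX 0 true true false .dn 1 3 3 (qsf 536870912 536870912 0 1230186008 3) ndF1q1 ndF5q3 pcF3 Cut.none Ext.none)

def k0_pm_133 : ∃ t, chk3 f_pm_133 t 1 1 1 = true :=
  ⟨(b (l 2) (b (l 2) (l 4))), by decide +kernel⟩

theorem c_pm_133 : CertFX 536870912 536870912 0 1230186008 1046898278 26843546 true true false .dn 1 3 3
    ndF1q1 ndF5q3 pcF3 Cut.none Ext.none :=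
  certFX0 (fam := true) (s1 := true) (s2 := false) (a := 1) (b := 3) (c := 3) (cn := .dn) (n1 := ndF1q1) (n2 := ndF5q3) (pc := pcF3) (cut := Cut.none) (xt := Ext.none) (P1 := 536870912) (W1 := 536870912) (P2 := 0) (W2 := 1230186008) (P3 := 1046898278) (W3 := 26843546)
    rfl k0_pm_133

noncomputable def f_pm_202_a : ℕ → ℕ → ℕ → ℕ → Bool := onCell 0 420477299 0 536870912 1046898278 26843546
    (rowFX 0 true true false .pp 2 0 2 (qsf 0 420477299 0 536870912 2) ndF1q2a ndF5q0 pcF2 Cut.none Ext.none)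

def k0_pm_202_a : ∃ t, chk3 f_pm_202_a t 4 16 1 = true :=
  ⟨(b (c (b (a (c (l 16297368) (b (l 16323248) (l 16278216))) (c (l 16348048) (a (l 16329784) (l 16351704)))) (a (b (c (c (l 16266224) (l 16157848)) (l 16173112)) (c (l 16085888) (l 16122552))) (b (c (c (l 16312168) (l 16225424)) (l 16199744)) (c (l 16150224) (l 16125248))))) (b (c (a (b (l 16338608) (c (l 16294224) (l 16282656))) (b (l 16414528) (b (a (l 16368416) (l 16432768)) (l 16283016)))) (b (a (c (l 16321432) (l 16281904)) (c (l 16398400) (l 16338600))) (a (l 16281600) (c (l 16374048) (l 16386160))))) (c (a (l 16083096) (b (l 16239112) (l 16244432))) (a (l 16210272) (l 16300936))))) (c (a (c (a (b (b (l 16075120) (a (c (l 15987336) (l 15984520)) (l 15913416))) (b (a (c (l 15929976) (l 15955984)) (l 15945616)) (l 15924728))) (b (c (l 16064936) (l 15990016)) (l 15909928))) (b (b (l 16054728) (l 16038328)) (a (l 15990904) (l 16006496)))) (c (b (b (l 16108424) (c (l 16019992) (l 16059840))) (a (l 15968360) (l 16021120)))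 (b (c (l 15959816) (l 16148896)) (l 16072040)))) (a (a (b (l 16095400) (l 16023600)) (l 16055888)) (c (l 16038680) (l 16153792))))), by decide +kernel⟩

def k1_pm_202_a : ∃ t, chk3 f_pm_202_a t 4 17 1 = true :=
  ⟨(c (a (b (a (c (b (l 15905720) (l 15891120)) (b (l 15954776) (l 15923600))) (b (c (a (b (l 15907928) (l 15890248)) (l 15909944)) (a (l 15948888) (l 15959056))) (c (a (l 15876504) (b (l 15880040) (l 15866144))) (a (l 15908752) (l 15905768))))) (c (b (l 15848744) (c (l 15855288) (l 15857256))) (l 15863000))) (b (c (a (b (l 15937392) (l 15894000)) (l 15961760)) (b (l 16012720) (a (l 15926496) (l 15972592)))) (c (a (b (a (b (a (l 15855128) (l 15859384)) (l 15844056)) (c (l 15853696) (l 15871960))) (b (a (l 15833752) (c (l 15809968) (l 15835552))) (l 15798456))) (b (l 15894104) (a (b (l 15847120) (b (l 15829440) (l 15796184))) (l 15855992)))) (a (b (a (l 15860408) (l 15871944)) (l 15817416)) (b (l 15904920) (l 15840152)))))) (a (b (a (l 15942528) (b (l 15963816) (l 15896504)))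 (l 15846256)) (b (c (l 15986656) (l 15976792)) (a (b (l 15850552) (l 15799376)) (l 15857208))))), by decide +kernel⟩

def k2_pm_202_a : ∃ t, chk3 f_pm_202_a t 5 32 1 = true :=
  ⟨(b (a (c (c (l 16377272) (b (l 16382120) (l 16326472))) (c (b (l 16326424) (c (l 16348872) (l 16355632))) (b (c (l 16279520) (l 16234336)) (l 16354352)))) (c (a (b (a (l 16330832) (b (a (l 16282672) (l 16274576)) (l 16285928))) (c (l 16358280) (l 16303440))) (b (a (b (l 16285760) (a (l 16253304) (l 16251328))) (l 16287104)) (a (b (l 16251488) (l 16275264)) (b (l 16230248) (c (a (l 16232904) (l 16213608)) (a (l 16219152) (b (l 16196480) (l 16195416)))))))) (a (b (b (c (a (l 16293296) (l 16255392)) (a (l 16277592) (c (l 16242520) (b (l 16233736) (l 16232912))))) (c (l 16290504) (c (l 16266856) (l 16286768)))) (c (b (l 16326040) (l 16325168)) (l 16305752))) (b (c (b (l 16270264) (a (b (l 16230744) (l 16221952)) (l 16241448))) (b (l 16232920) (a (c (b (l 16223208) (l 16221328)) (l 16224392)) (l 16232920))))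 (c (b (a (b (l 16183864) (l 16242480)) (b (l 16216088) (l 16208800))) (a (l 16275256) (c (l 16175512) (l 16188072)))) (a (b (l 16133208) (l 16275056)) (b (l 16152976) (a (l 16224752) (l 16204544))))))))) (c (b (a (c (c (l 16383536) (l 16318920)) (l 16273992)) (c (b (l 16248984) (c (l 16277328) (l 16239208))) (c (l 16145720) (l 16264320)))) (a (c (l 16260192) (b (l 16300136) (l 16253672))) (c (l 16226560) (b (l 16274512) (l 16301672))))) (a (c (b (l 16294696) (l 16316976)) (l 16377752)) (c (c (b (l 16234232) (l 16334840)) (l 16218040)) (l 16241488))))), by decide +kernel⟩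

def k3_pm_202_a : ∃ t, chk3 f_pm_202_a t 5 33 1 = true :=
  ⟨(c (a (b (c (b (l 16193528) (c (l 16121664) (l 16141616))) (a (l 16179280) (l 16229304))) (c (a (l 16090096) (l 16155392)) (l 16191520))) (b (c (b (l 16331968) (a (l 16277720) (l 16364512))) (a (l 16298624) (l 16352032))) (c (a (l 16239200) (l 16300976)) (l 16257944)))) (c (a (b (l 16253048) (l 16249776)) (a (l 16277488) (l 16336512))) (a (l 16218504) (l 16317192)))), by decide +kernel⟩

def k4_pm_202_a : ∃ t, chk3 f_pm_202_a t 5 17 1 = true :=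
  ⟨(a (c (b (c (a (l 16004064) (l 16062904)) (b (l 16082520) (l 16032968))) (c (b (a (l 15951776) (l 16025240)) (c (a (l 15898552) (l 15967584)) (l 15936136))) (a (l 15927016) (l 15999456)))) (b (c (l 16116144) (l 16108176)) (l 15949240))) (b (c (a (c (l 16139488) (l 16119928)) (c (l 16235200) (l 16196392))) (c (l 16149880) (l 16207760))) (c (c (b (a (l 16115696) (l 16224496)) (a (l 15990616) (l 16115216))) (a (l 16088888) (l 16196672))) (a (l 16077120) (l 16187288))))), by decide +kernel⟩

def k5_pm_202_a : ∃ t, chk3 f_pm_202_a t 2 9 1 = true :=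
  ⟨(b (a (b (a (c (b (b (c (l 15845104) (l 15833112)) (l 15863224)) (l 15932360)) (l 15850240)) (b (a (c (b (l 15799632) (l 15804664)) (l 15778744)) (c (b (a (c (l 15779000) (l 15787296)) (l 15809200)) (a (l 15782008) (b (l 15787488) (a (l 15751248) (l 15777440))))) (b (l 15778136) (a (l 15756288) (l 15756936))))) (a (l 15860776) (a (l 15829072) (c (c (l 15783576) (l 15813104)) (l 15794480)))))) (c (l 16029880) (l 16010864))) (b (a (b (c (a (l 15833648) (l 15899304)) (l 15843552)) (a (b (c (a (b (l 15765336) (l 15796392)) (b (l 15808816) (l 15802792))) (a (l 15767608) (l 15781992))) (c (l 15807472) (l 15803808))) (b (c (l 15850344) (l 15826488)) (c (a (l 15829000) (b (l 15844400) (l 15840992))) (l 15815504))))) (b (c (a (l 15981072) (l 16080296)) (l 16012464)) (a (c (a (l 15890496) (l 15933088)) (l 15889824)) (l 15996256)))) (a (c (a (b (l 15872832) (l 15985624)) (b (l 15884000) (l 15965840))) (a (l 15918184) (l 15904808))) (b (a (b (c (a (l 15869536) (l 15890248)) (l 15860160))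 (l 15892384)) (b (l 15943632) (a (c (l 15915256) (l 15892904)) (l 15936264)))) (a (l 15951800) (c (l 15964384) (l 15943272))))))) (a (c (l 16241272) (l 16227784)) (a (b (a (l 16107832) (b (l 16039744) (l 16111176))) (l 16218552)) (b (c (l 16073208) (l 16054928)) (a (l 16179048) (l 16168608)))))), by decide +kernel⟩

def k6_pm_202_a : ∃ t, chk3 f_pm_202_a t 6 32 1 = true :=
  ⟨(a (b (b (c (l 16333832) (c (l 16329856) (c (l 16239344) (b (l 16291912) (l 16305448))))) (b (c (l 16292448) (c (l 16257352) (l 16279888))) (c (a (c (l 16231784) (l 16133888)) (l 16261280)) (c (a (c (l 16223072) (l 16235808)) (l 16282200)) (a (l 16223344) (l 16281960)))))) (c (a (a (b (b (c (a (l 16195496) (l 16187520)) (a (b (l 16165776) (l 16200760)) (l 16146984))) (c (c (l 16180832) (l 16120608)) (l 16226488))) (c (l 16277008) (l 16303400))) (b (b (c (l 16204176) (l 16205824)) (c (a (b (l 16171200) (c (l 16162712) (l 16169616))) (l 16179104)) (l 16198544))) (b (c (a (l 16194000) (b (l 16164976) (l 16174320)))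 (a (l 16224912) (l 16161200))) (l 16179376)))) (b (c (l 16169976) (l 16244176)) (b (c (l 16195800) (l 16227216)) (a (c (a (l 16183976) (l 16180376)) (a (c (l 16208256) (l 16211176)) (l 16204672))) (l 16213728))))) (a (b (c (a (b (a (c (l 16217232) (l 16217464)) (l 16207440)) (l 16171776)) (b (l 16224680) (a (l 16159704) (l 16208344)))) (a (b (l 16169584) (l 16202152)) (l 16188264))) (b (a (l 16196968) (c (a (l 16213720) (l 16191584)) (l 16170912))) (l 16248960))) (b (c (l 16254864) (l 16229168)) (b (b (l 16149400) (l 16189968)) (a (c (l 16136760) (l 16147392)) (l 16180584))))))) (c (b (a (c (l 16400896) (l 16302400)) (l 16321968)) (c (b (b (l 16355488) (l 16195552)) (l 16254552)) (b (l 16206632) (l 16198632)))) (b (c (b (l 16372664) (b (l 16338448) (l 16290480))) (b (c (l 16325256) (c (l 16343552) (l 16362232))) (l 16242680))) (c (b (l 16240088) (l 16285288)) (l 16266080))))), by decide +kernel⟩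

def k7_pm_202_a : ∃ t, chk3 f_pm_202_a t 6 33 1 = true :=
  ⟨(a (b (a (c (c (b (l 16309504) (l 16322664)) (l 16216704)) (l 16210168)) (c (b (a (c (b (l 16151944) (l 16265928)) (b (a (l 16240568) (c (l 16194904) (l 16202328))) (l 16258032))) (c (b (l 16196072) (a (l 16209496) (l 16197512))) (b (c (l 16215016) (l 16201360)) (a (l 16200704) (l 16188496))))) (c (a (l 16315840) (b (c (l 16235600) (l 16178368)) (l 16279832))) (a (l 16304544) (l 16222768)))) (c (b (a (a (l 16213624) (l 16156176)) (b (l 16162016) (a (l 16150064) (l 16137424)))) (a (l 16258456) (l 16133080))) (b (a (l 16172816) (b (l 16135280) (l 16125920))) (l 16180568))))) (c (b (a (l 16353232) (l 16201896)) (l 16229480)) (c (l 16164032) (l 16241504)))) (b (c (c (b (l 16278128) (a (a (c (b (l 16206872) (a (l 16224880) (l 16207048))) (b (a (l 16205704) (l 16217072)) (a (l 16213824) (l 16195800)))) (l 16226448)) (l 16284488))) (a (b (l 16239488) (a (b (l 16178400) (a (l 16172632) (l 16154192))) (l 16191448))) (l 16198032)))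 (a (a (b (l 16164608) (b (c (l 16127704) (l 16109552)) (a (l 16117048) (c (l 16105472) (l 16090512))))) (l 16168272)) (l 16185896))) (a (c (b (a (b (c (l 16190592) (l 16179384)) (l 16235712)) (a (b (b (l 16165792) (l 16117008)) (l 16168216)) (b (l 16174000) (l 16125736)))) (a (l 16281176) (l 16148000))) (a (c (l 16103672) (l 16177944)) (b (a (b (c (l 16090448) (l 16078104)) (l 16092896)) (b (l 16093832) (c (l 16075880) (l 16065536)))) (l 16101296)))) (c (b (l 16162272) (a (a (b (l 16128808) (l 16133144)) (b (l 16139248) (l 16090472))) (l 16151304))) (a (b (l 16106184) (a (b (l 16035784) (l 16065920)) (b (l 16067112) (l 16043248)))) (l 16114216)))))), by decide +kernel⟩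

def k8_pm_202_a : ∃ t, chk3 f_pm_202_a t 6 17 1 = true :=
  ⟨(a (b (b (c (a (l 16332976) (l 16303344)) (l 16272928)) (c (c (l 16270000) (l 16290560)) (l 16357232))) (c (c (b (a (l 16311224) (l 16398552)) (a (l 16217208) (l 16340240))) (a (l 16282408) (l 16347832))) (a (l 16317784) (l 16344552)))) (b (a (c (c (l 16236592) (b (l 16237024) (l 16339600))) (l 16156648)) (b (a (c (a (l 16208392) (c (l 16184872) (l 16028352))) (l 16005048)) (b (c (a (b (a (l 16090568) (l 16091776)) (l 16009792)) (c (l 16119704) (l 16063488))) (a (b (l 16029920) (l 16037120)) (l 16030808))) (c (c (l 16076104) (c (l 16096520) (l 16034584))) (l 16043736)))) (c (c (l 16273584) (l 16193384)) (l 16222808)))) (c (c (a (c (l 16394744) (l 16385248)) (b (l 16302408) (l 16374880))) (a (l 16421040) (l 16263520))) (a (l 16420504) (l 16258736))))), by decide +kernel⟩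

def k9_pm_202_a : ∃ t, chk3 f_pm_202_a t 7 16 1 = true :=
  ⟨(b (a (c (b (a (a (l 16405128) (l 16475112)) (l 16466056)) (c (b (a (b (l 16478248) (l 16400184)) (l 16470752)) (a (l 16415096) (l 16442272))) (b (a (l 16414384) (l 16507536)) (a (l 16403648) (l 16473808))))) (b (c (b (a (l 16569352) (l 16587480)) (a (c (l 16451752) (l 16459176)) (b (l 16586224) (l 16556120)))) (b (a (c (l 16491024) (b (l 16518016) (l 16587936))) (b (l 16514696) (l 16513344))) (a (l 16436368) (l 16532872)))) (c (b (a (l 16407928) (l 16501712)) (a (l 16428376) (l 16456432))) (a (l 16390744) (l 16461760))))) (c (b (a (l 16457520) (l 16486064)) (c (b (a (l 16511808) (l 16501112)) (a (l 16459776) (l 16471048))) (b (a (l 16528168) (l 16538864)) (a (l 16492272) (l 16504472))))) (b (c (b (a (l 16599576) (l 16629816)) (a (b (l 16610224) (l 16579096)) (l 16501360))) (b (a (c (l 16583896) (b (l 16589352) (l 16624208))) (c (l 16635224) (l 16512880))) (a (l 16556416) (l 16586320)))) (c (a (l 16421608) (b (l 16554912)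 (l 16486272))) (a (l 16480792) (l 16469592)))))) (a (c (b (a (a (c (l 16299864) (l 16305904)) (c (l 16385768) (l 16349968))) (c (l 16356672) (l 16341688))) (a (c (l 16141168) (l 16211608)) (c (l 16286096) (l 16229576)))) (a (c (a (l 16150344) (l 16213704)) (l 16205768)) (c (l 16160472) (l 16246920)))) (c (b (a (c (l 16413048) (l 16376800)) (c (l 16423128) (l 16386488))) (a (l 16184144) (l 16208648))) (a (c (l 16191264) (l 16256384)) (c (l 16175312) (l 16260952)))))), by decide +kernel⟩

def k10_pm_202_a : ∃ t, chk3 f_pm_202_a t 14 17 1 = true :=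
  ⟨(b (a (b (c (a (b (l 16118920) (c (a (b (l 16085160) (l 16078688)) (l 16084456)) (a (b (l 16030256) (l 16026256)) (l 16031152)))) (l 16100992)) (a (b (l 16058104) (a (b (l 16005128) (l 16004776)) (l 16007152))) (l 16043376))) (a (c (b (a (l 16093776) (b (c (l 16055904) (a (l 16011944) (l 15994800))) (l 16052800))) (l 16024464)) (a (l 16089712) (b (b (l 15987152) (l 16013608)) (l 16068616)))) (c (b (a (b (l 16009720) (c (l 16018896) (a (l 15980096) (l 15958072)))) (l 15992696)) (a (l 16029936) (b (c (l 15976248) (a (l 15939160) (l 15921080))) (c (l 15985160) (l 15947336))))) (b (a (b (l 15964856) (l 15954872)) (l 15948656)) (a (l 15994848) (b (l 15916832) (l 15932216))))))) (c (b (l 16041704) (a (b (l 15992792) (a (c (l 15886040) (b (l 15917104) (l 15894632))) (l 15921720))) (l 15957184))) (b (l 16046160) (a (b (l 15948464) (a (b (l 15900288) (l 15878400)) (l 15883192))) (l 15914072))))) (a (c (c (b (a (l 16235584) (l 16100192)) (a (l 16333872) (l 16222800))) (a (l 16217608) (l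 16102768))) (a (l 16209416) (l 16070672))) (b (a (c (b (a (c (l 15950512) (l 15919848)) (c (b (l 15890528) (l 15886296)) (b (l 15856648) (l 15857944)))) (l 15958520)) (b (a (l 15904552) (b (l 15840008) (l 15841040))) (l 15932400))) (c (b (c (l 15865736) (l 15833520)) (a (b (c (a (l 15848024) (l 15820560)) (l 15812872)) (l 15845640)) (b (l 15796464) (c (a (l 15796568) (l 15775904)) (l 15768184))))) (b (l 15816408) (a (b (l 15794984) (l 15818000)) (b (l 15765328) (l 15749320)))))) (c (c (a (l 16065016) (b (l 15861128) (l 15926368))) (l 15756736)) (a (l 16039096) (l 15863120)))))), by decide +kernel⟩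

def k11_pm_202_a : ∃ t, chk3 f_pm_202_a t 15 17 1 = true :=
  ⟨(b (c (a (c (l 16053984) (l 15941728)) (c (l 16047272) (l 15954640))) (a (l 15975984) (l 15967224))) (a (b (c (c (l 15821056) (l 15791152)) (l 15773224)) (a (c (b (a (b (a (l 15737840) (l 15724808)) (a (l 15754976) (l 15715024))) (l 15706888)) (b (a (l 15766072) (a (l 15696312) (l 15664560))) (l 15753736))) (b (a (b (l 15704632) (l 15708944)) (l 15677248)) (a (l 15758416) (b (l 15655536) (l 15678776))))) (c (b (l 15697768) (a (b (l 15649752) (a (l 15640920) (l 15618496))) (l 15627976))) (b (l 15667840) (a (b (l 15620752) (l 15603800)) (l 15597968)))))) (c (c (b (l 15803416) (l 15655000)) (l 15704312)) (l 15683960)))), by decide +kernel⟩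

def k12_pm_202_a : ∃ t, chk3 f_pm_202_a t 3 9 1 = true :=
  ⟨(a (b (a (b (c (b (a (l 16198496) (l 16337360)) (l 16143104)) (a (l 16142816) (l 16282576))) (b (c (l 16108096) (l 16091376)) (a (b (c (l 15976816) (l 15977688)) (a (l 15972328) (l 15990960))) (l 16088368)))) (b (b (c (a (l 16414888) (l 16491480)) (l 16380056)) (c (l 16306584) (l 16322520))) (a (l 16272248) (l 16400808)))) (a (b (a (l 16060360) (b (b (a (l 16024472) (l 16068128)) (a (l 16049656) (l 16059328))) (l 16090184))) (l 16165888)) (b (a (b (l 16092968) (a (l 16095352) (b (l 16127288) (l 16110200)))) (b (l 16314600) (l 16218848))) (a (l 16165896) (b (a (l 16146096) (l 16177896)) (l 16191032)))))) (a (b (b (a (a (c (l 16369216) (l 16428512)) (c (l 16262432) (l 16317864))) (c (b (l 16002064) (l 16237984)) (l 15970088))) (a (b (l 16462848) (l 16476280)) (l 16167344))) (a (b (l 16288952) (b (a (l 16241936) (l 16351968)) (a (b (l 16192624) (l 16203896)) (b (l 16272960) (l 16243008))))) (b (l 16404592) (l 16350856))))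 (b (b (a (b (b (a (c (l 15806568) (l 15782192)) (c (a (l 15662600) (b (l 15585160) (l 15586440))) (a (l 15634272) (b (l 15554744) (l 15555792))))) (l 15599656)) (l 15725248)) (b (c (a (b (l 15552576) (a (l 15542480) (l 15490536))) (l 15502712)) (a (b (l 15521248) (a (l 15510568) (l 15457208))) (l 15470000))) (a (c (l 15584448) (l 15553520)) (b (a (b (l 15410800) (l 15401488)) (l 15382440)) (a (l 15437728) (c (l 15368696) (l 15331864))))))) (a (c (l 16058776) (l 16020216)) (c (l 15680328) (l 15609792)))) (a (b (l 16113952) (l 16356368)) (b (c (l 15945784) (l 15903216)) (l 16047848)))))), by decide +kernel⟩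

def k13_pm_202_a : ∃ t, chk3 f_pm_202_a t 1 5 1 = true :=
  ⟨(a (b (b (a (c (l 16409136) (l 16399872)) (a (l 16373480) (b (l 16244088) (l 16396560)))) (a (c (l 16526984) (l 16520544)) (c (l 16533144) (l 16526872)))) (b (a (l 16641576) (c (l 16685768) (l 16683400))) (c (l 16777088) (a (l 16777080) (l 16777080))))) (a (b (b (a (b (l 16268352) (a (l 16372256) (l 16366008))) (l 16315688)) (a (b (l 16468744) (l 16563528)) (b (l 16458976) (l 16552824)))) (b (a (l 16688632) (b (l 16642976) (l 16728688))) (c (l 16777096) (l 16777088)))) (b (a (b (b (a (l 16275752) (b (a (b (l 16309664) (l 16306456)) (l 16323648)) (a (l 16341208) (l 16380528)))) (l 16317696)) (c (l 16541152) (l 16535224))) (b (a (b (b (l 16538568) (a (b (l 16465800) (l 16441576)) (l 16586064))) (b (a (l 16461672) (b (l 16479456) (l 16516848))) (l 16527224))) (b (l 16245848) (b (a (l 16511864) (l 16564704)) (a (c (l 16601416) (l 16598472)) (c (l 16665632) (l 16560184)))))) (a (l 16570528) (c (l 16661112) (l 16534312)))))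 (a (b (c (l 16589816) (l 16567576)) (c (l 16617488) (a (l 16763776) (l 16678728)))) (b (c (l 16579200) (l 16574784)) (c (l 16505008) (l 16497936))))))), by decide +kernel⟩

def k14_pm_202_a : ∃ t, chk3 f_pm_202_a t 1 3 1 = true :=
  ⟨(a (b (a (b (c (b (l 16777216) (l 16777216)) (b (l 16777216) (l 16777216))) (l 4)) (b (c (l 16777208) (l 16777208)) (c (b (l 16777208) (l 16777208)) (b (l 16777208) (l 16777208))))) (l 2)) (b (a (b (c (l 16777184) (l 16777184)) (c (l 16777184) (l 16777184))) (b (a (c (l 16723024) (l 16721616)) (b (a (l 16569384) (l 16435048)) (l 16501368))) (a (c (l 16723024) (l 16721616)) (c (l 16504904) (l 16497824))))) (b (b (a (c (l 16777184) (l 16777184)) (a (l 16722320) (l 16501368))) (a (l 2) (a (l 16722320) (l 16501368)))) (a (l 2) (a (l 2) (c (l 16504904) (l 16497824))))))), by decide +kernel⟩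

theorem s15_pm_202_a : ∃ t, chk3 f_pm_202_a t 7 17 1 = true := ex3_a k10_pm_202_a k11_pm_202_a

theorem s16_pm_202_a : ∃ t, chk3 f_pm_202_a t 7 8 1 = true := ex3_b k9_pm_202_a s15_pm_202_a

theorem s17_pm_202_a : ∃ t, chk3 f_pm_202_a t 6 16 1 = true := ex3_b k6_pm_202_a k7_pm_202_a

theorem s18_pm_202_a : ∃ t, chk3 f_pm_202_a t 6 8 1 = true := ex3_b s17_pm_202_a k8_pm_202_a

theorem s19_pm_202_a : ∃ t, chk3 f_pm_202_a t 3 8 1 = true := ex3_a s18_pm_202_a s16_pm_202_a

theorem s20_pm_202_a : ∃ t, chk3 f_pm_202_a t 3 4 1 = true := ex3_b s19_pm_202_a k12_pm_202_a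

theorem s21_pm_202_a : ∃ t, chk3 f_pm_202_a t 5 16 1 = true := ex3_b k2_pm_202_a k3_pm_202_a

theorem s22_pm_202_a : ∃ t, chk3 f_pm_202_a t 5 8 1 = true := ex3_b s21_pm_202_a k4_pm_202_a

theorem s23_pm_202_a : ∃ t, chk3 f_pm_202_a t 4 8 1 = true := ex3_b k0_pm_202_a k1_pm_202_a

theorem s24_pm_202_a : ∃ t, chk3 f_pm_202_a t 2 8 1 = true := ex3_a s23_pm_202_a s22_pm_202_a

theorem s25_pm_202_a : ∃ t, chk3 f_pm_202_a t 2 4 1 = true := ex3_b s24_pm_202_a k5_pm_202_a

theorem s26_pm_202_a : ∃ t, chk3 f_pm_202_a t 1 4 1 = true := ex3_a s25_pm_202_a s20_pm_202_a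

theorem s27_pm_202_a : ∃ t, chk3 f_pm_202_a t 1 2 1 = true := ex3_b s26_pm_202_a k13_pm_202_a

theorem s28_pm_202_a : ∃ t, chk3 f_pm_202_a t 1 1 1 = true := ex3_b s27_pm_202_a k14_pm_202_a

theorem c_pm_202_a : CertFX 0 420477299 0 536870912 1046898278 26843546 true true false .pp 2 0 2
    ndF1q2a ndF5q0 pcF2 Cut.none Ext.none :=
  certFX0 (fam := true) (s1 := true) (s2 := false) (a := 2) (b := 0) (c := 2) (cn := .pp) (n1 := ndF1q2a) (n2 := ndF5q0) (pc := pcF2) (cut := Cut.none) (xt := Ext.none) (P1 := 0) (W1 := 420477299) (P2 := 0) (W2 := 536870912) (P3 := 1046898278) (W3 := 26843546)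
    rfl s28_pm_202_a

noncomputable def f_pm_202_b : ℕ → ℕ → ℕ → ℕ → Bool := onCell 1073741824 536870912 0 536870912 1046898278 26843546
    (rowFX 2 true true false .pp 2 0 2 (qsf 1239849684 370763052 0 536870912 2) ndF1q2b ndF5q0 pcF2 Cut.none Ext.none)

def k0_pm_202_b : ∃ t, chk3 f_pm_202_b t 4 1 1 = true :=
  ⟨(l 1), by decide +kernel⟩

def k1_pm_202_b : ∃ t, chk3 f_pm_202_b t 10 4 1 = true :=
  ⟨(b (a (b (a (l 1) (b (b (b (c (l 16304056) (c (l 16372856) (b (l 16311064) (l 1)))) (l 1)) (l 1)) (l 1))) (l 1)) (b (b (c (b (a (c (l 16048816) (l 432749781111)) (c (l 15829592) (l 15835728))) (a (c (b (c (l 16040616) (l 375841670423)) (l 334502632743)) (b (l 390874002231) (l 351145559479))) (c (b (b (l 15914584) (l 15789936)) (l 15810768)) (b (l 15892280) (l 15885552))))) (b (c (b (l 15766792) (a (l 444560978423) (l 15849976))) (b (c (l 15745720) (l 428454394967)) (l 475162263719))) (c (a (l 395168916967) (l 15840768)) (l 15837632)))) (a (b (b (c (c (l 342018806039) (l 319470184663))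 (l 16138056)) (l 1)) (l 1)) (c (c (b (b (a (l 15995592) (l 15841744)) (c (a (l 15993928) (l 15844592)) (l 507911294871))) (a (l 358661530919) (l 15743288))) (b (b (c (l 15851064) (l 15908200)) (l 15951240)) (l 16039520))) (c (l 172903971591) (l 16029080))))) (a (l 1) (a (l 1) (b (b (c (l 352755879687) (l 16092528)) (l 1)) (l 1)))))) (l 1)), by decide +kernel⟩

def k2_pm_202_b : ∃ t, chk3 f_pm_202_b t 11 4 1 = true :=
  ⟨(b (b (a (a (b (c (b (l 15439784) (c (b (l 15515016) (l 15637024)) (b (l 15584312) (l 15581376)))) (b (c (l 15512496) (l 15253512)) (c (l 15572600) (l 15585848)))) (c (b (c (b (l 15625400) (l 15632696)) (l 15633656)) (c (l 15531488) (l 15750088))) (l 15723320))) (b (c (b (l 15236488) (c (b (l 15342128) (l 15365800)) (l 15309824))) (b (c (l 15218424) (l 15206504)) (l 15285400))) (c (b (c (l 15365784) (l 15362400)) (l 15456760)) (l 15447728)))) (c (c (b (b (l 15093168) (l 15212456)) (b (l 15228336) (l 15297528))) (b (b (l 15087536) (l 15171440)) (l 15283328))) (b (b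 (a (c (l 15063688) (l 15049280)) (l 15066384)) (l 15143696)) (l 15304408)))) (a (c (c (b (a (l 287794069927) (l 15624056)) (a (b (l 338260340135) (l 1)) (b (l 15810480) (l 15733512)))) (b (a (l 291015372551) (l 15658712)) (l 402684666903))) (b (l 311953070967) (l 425233217543))) (c (b (c (l 15484536) (l 15517056)) (c (b (l 15669776) (l 15780800)) (l 15724960))) (b (l 15511016) (l 15705192))))) (a (b (b (c (a (l 1) (l 15917736)) (l 354903511751)) (l 1)) (l 1)) (b (c (b (a (l 15927288) (l 15913432)) (l 16105856)) (l 15972864)) (l 415570324375)))), by decide +kernel⟩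

def k3_pm_202_b : ∃ t, chk3 f_pm_202_b t 5 5 1 = true :=
  ⟨(l 1), by decide +kernel⟩

def k4_pm_202_b : ∃ t, chk3 f_pm_202_b t 5 3 1 = true :=
  ⟨(l 1), by decide +kernel⟩

def k5_pm_202_b : ∃ t, chk3 f_pm_202_b t 3 1 1 = true :=
  ⟨(b (a (b (b (b (a (b (c (b (l 15104592) (c (l 15215680) (l 15174760))) (b (c (l 15083336) (l 15069296)) (l 15147168))) (c (a (l 15282448) (l 15261112)) (l 15293896))) (c (b (l 15109520) (l 15225888)) (b (c (l 15088280) (l 15077192)) (l 15243768)))) (a (c (a (b (l 15484720) (l 15696608)) (l 15548496)) (l 15569824)) (c (l 15499528) (l 15497288)))) (a (b (c (a (l 15972912) (l 15915176)) (l 15924824)) (a (l 16236280) (l 16201056))) (c (b (l 15849264) (l 16126856)) (b (l 15824760) (l 16110000))))) (a (b (a (b (l 16429424) (l 1)) (b (l 16418584) (l 16558728))) (l 1)) (b (c (l 282963310631) (l 390337474615)) (a (b (l 326987621351) (l 1)) (b (l 16683520) (l 16776520)))))) (b (b (b (c (a (b (l 15107344) (l 15223200)) (l 15133176)) (a (b (l 15079184) (l 15240976))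 (l 15155776))) (a (c (l 15496128) (l 15493760)) (l 15490848))) (a (c (l 15934200) (l 15955336)) (c (l 15976144) (l 15955336)))) (a (b (c (l 16415480) (l 16406080)) (a (c (l 16731448) (l 16730264)) (c (l 16731448) (l 16730264)))) (b (c (l 16415480) (l 16406080)) (a (l 16730856) (l 4)))))) (a (l 1) (a (b (b (a (c (l 16724992) (l 16671208)) (l 198138886519)) (l 1)) (l 1)) (l 4)))), by decide +kernel⟩

theorem s6_pm_202_b : ∃ t, chk3 f_pm_202_b t 5 4 1 = true := ex3_a k1_pm_202_b k2_pm_202_b

theorem s7_pm_202_b : ∃ t, chk3 f_pm_202_b t 5 2 1 = true := ex3_b s6_pm_202_b k3_pm_202_b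

theorem s8_pm_202_b : ∃ t, chk3 f_pm_202_b t 5 1 1 = true := ex3_b s7_pm_202_b k4_pm_202_b

theorem s9_pm_202_b : ∃ t, chk3 f_pm_202_b t 2 1 1 = true := ex3_a k0_pm_202_b s8_pm_202_b

theorem s10_pm_202_b : ∃ t, chk3 f_pm_202_b t 1 1 1 = true := ex3_a s9_pm_202_b k5_pm_202_b

theorem c_pm_202_b : CertFX 1239849684 370763052 0 536870912 1046898278 26843546 true true false .pp 2 0 2
    ndF1q2b ndF5q0 pcF2 Cut.none Ext.none :=
  certFX2 (fam := true) (s1 := true) (s2 := false) (a := 2) (b := 0) (c := 2) (cn := .pp) (n1 := ndF1q2b) (n2 := ndF5q0) (pc := pcF2) (cut := Cut.none) (xt := Ext.none) (P1 := 1239849684) (W1 := 370763052) (P2 := 0) (W2 := 536870912) (P3 := 1046898278) (W3 := 26843546)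
    rfl (fun _ => rfl) s10_pm_202_b

noncomputable def f_pm_203_a : ℕ → ℕ → ℕ → ℕ → Bool := onCell 0 420477299 1610612736 536870912 1046898278 26843546
    (rowFX 1 true true false .up 2 0 3 (qsf 0 420477299 0 536870912 3) ndF1q2a ndF5q0 pcF3 Cut.none Ext.none)

def k0_pm_203_a : ∃ t, chk3 f_pm_203_a t 1 1 1 = true :=
  ⟨(b (b (b (a (b (c (l 16777208) (l 16777208)) (l 4)) (a (c (l 16777184) (l 16777184)) (c (l 16613736) (a (l 16721616) (l 16497824))))) (a (l 4) (a (l 4) (c (b (l 16613736) (l 16613736)) (b (l 16609488) (l 16609488)))))) (l 4)) (l 2)), by decide +kernel⟩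

theorem c_pm_203_a : CertFX 0 420477299 0 536870912 1046898278 26843546 true true false .up 2 0 3
    ndF1q2a ndF5q0 pcF3 Cut.none Ext.none :=
  certFX1 (fam := true) (s1 := true) (s2 := false) (a := 2) (b := 0) (c := 3) (cn := .up) (n1 := ndF1q2a) (n2 := ndF5q0) (pc := pcF3) (cut := Cut.none) (xt := Ext.none) (P1 := 0) (W1 := 420477299) (P2 := 0) (W2 := 536870912) (P3 := 1046898278) (W3 := 26843546)
    rfl (fun _ => rfl) k0_pm_203_a

noncomputable def f_pm_203_b : ℕ → ℕ → ℕ → ℕ → Bool := onCell 1239849684 370763052 1610612736 536870912 1046898278 26843546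
    (rowFX 1 true true false .up 2 0 3 (qsf 1239849684 370763052 0 536870912 3) ndF1q2b ndF5q0 pcF3 Cut.none Ext.none)

def k0_pm_203_b : ∃ t, chk3 f_pm_203_b t 1 1 1 = true :=
  ⟨(b (b (a (l 4) (b (a (b (l 16186504) (l 4)) (b (a (l 15603560) (c (a (l 15509176) (l 15216800)) (l 15161424))) (a (l 16114536) (l 15464872)))) (l 4))) (l 4)) (l 4)), by decide +kernel⟩

theorem c_pm_203_b : CertFX 1239849684 370763052 0 536870912 1046898278 26843546 true true false .up 2 0 3
    ndF1q2b ndF5q0 pcF3 Cut.none Ext.none :=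
  certFX1 (fam := true) (s1 := true) (s2 := false) (a := 2) (b := 0) (c := 3) (cn := .up) (n1 := ndF1q2b) (n2 := ndF5q0) (pc := pcF3) (cut := Cut.none) (xt := Ext.none) (P1 := 1239849684) (W1 := 370763052) (P2 := 0) (W2 := 536870912) (P3 := 1046898278) (W3 := 26843546)
    rfl (fun _ => rfl) k0_pm_203_b

noncomputable def f_pm_213_a : ℕ → ℕ → ℕ → ℕ → Bool := onCell 0 420477299 536870912 469762048 1046898278 26843546
    (rowFX 0 true true false .pnn 2 1 3 (qsf 0 420477299 536870912 469762048 3) ndF1q2a ndF5q1 pcF3 Cut.none Ext.none)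

def k0_pm_213_a : ∃ t, chk3 f_pm_213_a t 1 1 1 = true :=
  ⟨(b (a (l 4) (b (b (a (l 4) (a (l 4) (c (l 16504904) (b (l 16497824) (l 16497824))))) (l 4)) (l 4))) (l 4)), by decide +kernel⟩

theorem c_pm_213_a : CertFX 0 420477299 536870912 469762048 1046898278 26843546 true true false .pnn 2 1 3
    ndF1q2a ndF5q1 pcF3 Cut.none Ext.none :=
  certFX0 (fam := true) (s1 := true) (s2 := false) (a := 2) (b := 1) (c := 3) (cn := .pnn) (n1 := ndF1q2a) (n2 := ndF5q1) (pc := pcF3) (cut := Cut.none) (xt := Ext.none) (P1 := 0) (W1 := 420477299) (P2 := 536870912) (W2 := 469762048) (P3 := 1046898278) (W3 := 26843546)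
    rfl k0_pm_213_a

noncomputable def f_pm_213_b : ℕ → ℕ → ℕ → ℕ → Bool := onCell 1239849684 370763052 536870912 469762048 1046898278 26843546
    (rowFX 0 true true false .pnn 2 1 3 (qsf 1239849684 370763052 536870912 469762048 3) ndF1q2b ndF5q1 pcF3 Cut.none Ext.none)

def k0_pm_213_b : ∃ t, chk3 f_pm_213_b t 1 1 1 = true :=
  ⟨(l 4), by decide +kernel⟩

theorem c_pm_213_b : CertFX 1239849684 370763052 536870912 469762048 1046898278 26843546 true true false .pnn 2 1 3
    ndF1q2b ndF5q1 pcF3 Cut.none Ext.none :=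
  certFX0 (fam := true) (s1 := true) (s2 := false) (a := 2) (b := 1) (c := 3) (cn := .pnn) (n1 := ndF1q2b) (n2 := ndF5q1) (pc := pcF3) (cut := Cut.none) (xt := Ext.none) (P1 := 1239849684) (W1 := 370763052) (P2 := 536870912) (W2 := 469762048) (P3 := 1046898278) (W3 := 26843546)
    rfl k0_pm_213_b

noncomputable def f_pm_303 : ℕ → ℕ → ℕ → ℕ → Bool := onCell 1610612736 536870912 0 536870912 1046898278 26843546
    (rowFX 2 true true false .npn 3 0 3 (qsf 1610612736 469762048 0 536870912 3) ndF1q3 ndF5q0 pcF3 Cut.none Ext.none)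

def k0_pm_303 : ∃ t, chk3 f_pm_303 t 1 1 1 = true :=
  ⟨(a (b (a (b (a (b (b (c (l 15175120) (l 15155776)) (l 15448904)) (c (l 15976144) (l 15955336))) (b (c (b (l 15049288) (l 15496128)) (b (l 25463941863) (l 15493760))) (l 4))) (l 4)) (l 4)) (l 4)) (l 4)), by decide +kernel⟩

theorem c_pm_303 : CertFX 1610612736 469762048 0 536870912 1046898278 26843546 true true false .npn 3 0 3
    ndF1q3 ndF5q0 pcF3 Cut.none Ext.none :=
  certFX2 (fam := true) (s1 := true) (s2 := false) (a := 3) (b := 0) (c := 3) (cn := .npn) (n1 := ndF1q3) (n2 := ndF5q0) (pc := pcF3) (cut := Cut.none) (xt := Ext.none) (P1 := 1610612736) (W1 := 469762048) (P2 := 0) (W2 := 536870912) (P3 := 1046898278) (W3 := 26843546)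
    rfl (fun _ => rfl) k0_pm_303

noncomputable def f_pm_313 : ℕ → ℕ → ℕ → ℕ → Bool := onCell 1610612736 469762048 536870912 469762048 1046898278 26843546
    (rowFX 0 true true false .dn 3 1 3 (qsf 1610612736 469762048 536870912 469762048 3) ndF1q3 ndF5q1 pcF3 Cut.none Ext.none)

def k0_pm_313 : ∃ t, chk3 f_pm_313 t 1 1 1 = true :=
  ⟨(l 4), by decide +kernel⟩

theorem c_pm_313 : CertFX 1610612736 469762048 536870912 469762048 1046898278 26843546 true true false .dn 3 1 3
    ndF1q3 ndF5q1 pcF3 Cut.none Ext.none :=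
  certFX0 (fam := true) (s1 := true) (s2 := false) (a := 3) (b := 1) (c := 3) (cn := .dn) (n1 := ndF1q3) (n2 := ndF5q1) (pc := pcF3) (cut := Cut.none) (xt := Ext.none) (P1 := 1610612736) (W1 := 469762048) (P2 := 536870912) (W2 := 469762048) (P3 := 1046898278) (W3 := 26843546)
    rfl k0_pm_313

noncomputable def f_mm_001 : ℕ → ℕ → ℕ → ℕ → Bool := onCell 67108864 469762048 0 536870912 1046898278 26843546
    (rowFX 0 true false false .up 0 0 1 (qsf 67108864 469762048 0 536870912 1) ndF1q0 ndF5q0 pcF1 Cut.none Ext.none)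

def k0_mm_001 : ∃ t, chk3 f_mm_001 t 1 1 1 = true :=
  ⟨(l 4), by decide +kernel⟩

theorem c_mm_001 : CertFX 67108864 469762048 0 536870912 1046898278 26843546 true false false .up 0 0 1
    ndF1q0 ndF5q0 pcF1 Cut.none Ext.none :=
  certFX0 (fam := true) (s1 := false) (s2 := false) (a := 0) (b := 0) (c := 1) (cn := .up) (n1 := ndF1q0) (n2 := ndF5q0) (pc := pcF1) (cut := Cut.none) (xt := Ext.none) (P1 := 67108864) (W1 := 469762048) (P2 := 0) (W2 := 536870912) (P3 := 1046898278) (W3 := 26843546)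
    rfl k0_mm_001

noncomputable def f_mm_011 : ℕ → ℕ → ℕ → ℕ → Bool := onCell 67108864 469762048 536870912 469762048 1046898278 26843546
    (rowFX 0 true false false .pnn 0 1 1 (qsf 67108864 469762048 536870912 469762048 1) ndF1q0 ndF5q1 pcF1 Cut.none Ext.none)

def k0_mm_011 : ∃ t, chk3 f_mm_011 t 1 1 1 = true :=
  ⟨(l 4), by decide +kernel⟩

theorem c_mm_011 : CertFX 67108864 469762048 536870912 469762048 1046898278 26843546 true false false .pnn 0 1 1
    ndF1q0 ndF5q1 pcF1 Cut.none Ext.none :=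
  certFX0 (fam := true) (s1 := false) (s2 := false) (a := 0) (b := 1) (c := 1) (cn := .pnn) (n1 := ndF1q0) (n2 := ndF5q1) (pc := pcF1) (cut := Cut.none) (xt := Ext.none) (P1 := 67108864) (W1 := 469762048) (P2 := 536870912) (W2 := 469762048) (P3 := 1046898278) (W3 := 26843546)
    rfl k0_mm_011

noncomputable def f_mm_012 : ℕ → ℕ → ℕ → ℕ → Bool := onCell 67108864 469762048 536870912 469762048 1046898278 26843546
    (rowFX 0 true false false .pnp 0 1 2 (qsf 67108864 469762048 536870912 469762048 2) ndF1q0 ndF5q1 pcF2 Cut.none Ext.none)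

def k0_mm_012 : ∃ t, chk3 f_mm_012 t 1 1 1 = true :=
  ⟨(l 4), by decide +kernel⟩

theorem c_mm_012 : CertFX 67108864 469762048 536870912 469762048 1046898278 26843546 true false false .pnp 0 1 2
    ndF1q0 ndF5q1 pcF2 Cut.none Ext.none :=
  certFX0 (fam := true) (s1 := false) (s2 := false) (a := 0) (b := 1) (c := 2) (cn := .pnp) (n1 := ndF1q0) (n2 := ndF5q1) (pc := pcF2) (cut := Cut.none) (xt := Ext.none) (P1 := 67108864) (W1 := 469762048) (P2 := 536870912) (W2 := 469762048) (P3 := 1046898278) (W3 := 26843546)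
    rfl k0_mm_012

noncomputable def f_mm_022 : ℕ → ℕ → ℕ → ℕ → Bool := onCell 67108864 469762048 1073741824 536870912 1046898278 26843546
    (rowFX 0 true false false .pp 0 2 2 (qsf 67108864 469762048 1073741824 536870912 2) ndF1q0 ndF5q2 pcF2 Cut.none Ext.none)

def k0_mm_022 : ∃ t, chk3 f_mm_022 t 1 1 1 = true :=
  ⟨(l 4), by decide +kernel⟩

theorem c_mm_022 : CertFX 67108864 469762048 1073741824 536870912 1046898278 26843546 true false false .pp 0 2 2
    ndF1q0 ndF5q2 pcF2 Cut.none Ext.none :=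
  certFX0 (fam := true) (s1 := false) (s2 := false) (a := 0) (b := 2) (c := 2) (cn := .pp) (n1 := ndF1q0) (n2 := ndF5q2) (pc := pcF2) (cut := Cut.none) (xt := Ext.none) (P1 := 67108864) (W1 := 469762048) (P2 := 1073741824) (W2 := 536870912) (P3 := 1046898278) (W3 := 26843546)
    rfl k0_mm_022

noncomputable def f_mm_023 : ℕ → ℕ → ℕ → ℕ → Bool := onCell 67108864 469762048 1073741824 536870912 1046898278 26843546
    (rowFX 0 true false false .up 0 2 3 (qsf 67108864 469762048 1073741824 536870912 3) ndF1q0 ndF5q2 pcF3 Cut.none Ext.none)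

def k0_mm_023 : ∃ t, chk3 f_mm_023 t 1 1 1 = true :=
  ⟨(l 4), by decide +kernel⟩

theorem c_mm_023 : CertFX 67108864 469762048 1073741824 536870912 1046898278 26843546 true false false .up 0 2 3
    ndF1q0 ndF5q2 pcF3 Cut.none Ext.none :=
  certFX0 (fam := true) (s1 := false) (s2 := false) (a := 0) (b := 2) (c := 3) (cn := .up) (n1 := ndF1q0) (n2 := ndF5q2) (pc := pcF3) (cut := Cut.none) (xt := Ext.none) (P1 := 67108864) (W1 := 469762048) (P2 := 1073741824) (W2 := 536870912) (P3 := 1046898278) (W3 := 26843546)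
    rfl k0_mm_023

noncomputable def f_mm_033 : ℕ → ℕ → ℕ → ℕ → Bool := onCell 67108864 469762048 0 1230186008 1046898278 26843546
    (rowFX 0 true false false .pnn 0 3 3 (qsf 67108864 469762048 0 1230186008 3) ndF1q0 ndF5q3 pcF3 Cut.none Ext.none)

def k0_mm_033 : ∃ t, chk3 f_mm_033 t 1 1 1 = true :=
  ⟨(l 5), by decide +kernel⟩

theorem c_mm_033 : CertFX 67108864 469762048 0 1230186008 1046898278 26843546 true false false .pnn 0 3 3
    ndF1q0 ndF5q3 pcF3 Cut.none Ext.none :=
  certFX0 (fam := true) (s1 := false) (s2 := false) (a := 0) (b := 3) (c := 3) (cn := .pnn) (n1 := ndF1q0) (n2 := ndF5q3) (pc := pcF3) (cut := Cut.none) (xt := Ext.none) (P1 := 67108864) (W1 := 469762048) (P2 := 0) (W2 := 1230186008) (P3 := 1046898278) (W3 := 26843546)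
    rfl k0_mm_033

noncomputable def f_mm_101 : ℕ → ℕ → ℕ → ℕ → Bool := onCell 536870912 536870912 0 536870912 1046898278 26843546
    (rowFX 0 true false false .npn 1 0 1 (qsf 536870912 536870912 0 536870912 1) ndF1q1 ndF5q0 pcF1 Cut.none Ext.none)

def k0_mm_101 : ∃ t, chk3 f_mm_101 t 1 1 1 = true :=
  ⟨(l 4), by decide +kernel⟩

theorem c_mm_101 : CertFX 536870912 536870912 0 536870912 1046898278 26843546 true false false .npn 1 0 1
    ndF1q1 ndF5q0 pcF1 Cut.none Ext.none :=
  certFX0 (fam := true) (s1 := false) (s2 := false) (a := 1) (b := 0) (c := 1) (cn := .npn) (n1 := ndF1q1) (n2 := ndF5q0) (pc := pcF1) (cut := Cut.none) (xt := Ext.none) (P1 := 536870912) (W1 := 536870912) (P2 := 0) (W2 := 536870912) (P3 := 1046898278) (W3 := 26843546)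
    rfl k0_mm_101

noncomputable def f_mm_102 : ℕ → ℕ → ℕ → ℕ → Bool := onCell 536870912 536870912 0 536870912 1046898278 26843546
    (rowFX 0 true false false .npp 1 0 2 (qsf 536870912 536870912 0 536870912 2) ndF1q1 ndF5q0 pcF2 Cut.none Ext.none)

def k0_mm_102 : ∃ t, chk3 f_mm_102 t 1 1 1 = true :=
  ⟨(l 4), by decide +kernel⟩

theorem c_mm_102 : CertFX 536870912 536870912 0 536870912 1046898278 26843546 true false false .npp 1 0 2
    ndF1q1 ndF5q0 pcF2 Cut.none Ext.none :=
  certFX0 (fam := true) (s1 := false) (s2 := false) (a := 1) (b := 0) (c := 2) (cn := .npp) (n1 := ndF1q1) (n2 := ndF5q0) (pc := pcF2) (cut := Cut.none) (xt := Ext.none) (P1 := 536870912) (W1 := 536870912) (P2 := 0) (W2 := 536870912) (P3 := 1046898278) (W3 := 26843546)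
    rfl k0_mm_102

noncomputable def f_mm_112 : ℕ → ℕ → ℕ → ℕ → Bool := onCell 536870912 536870912 536870912 469762048 1046898278 26843546
    (rowFX 0 true false false .dn 1 1 2 (qsf 536870912 536870912 536870912 469762048 2) ndF1q1 ndF5q1 pcF2 Cut.none Ext.none)

def k0_mm_112 : ∃ t, chk3 f_mm_112 t 1 1 1 = true :=
  ⟨(l 4), by decide +kernel⟩

theorem c_mm_112 : CertFX 536870912 536870912 536870912 469762048 1046898278 26843546 true false false .dn 1 1 2
    ndF1q1 ndF5q1 pcF2 Cut.none Ext.none :=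
  certFX0 (fam := true) (s1 := false) (s2 := false) (a := 1) (b := 1) (c := 2) (cn := .dn) (n1 := ndF1q1) (n2 := ndF5q1) (pc := pcF2) (cut := Cut.none) (xt := Ext.none) (P1 := 536870912) (W1 := 536870912) (P2 := 536870912) (W2 := 469762048) (P3 := 1046898278) (W3 := 26843546)
    rfl k0_mm_112

noncomputable def f_mm_113 : ℕ → ℕ → ℕ → ℕ → Bool := onCell 536870912 536870912 536870912 469762048 1046898278 26843546
    (rowFX 0 true false false .nn 1 1 3 (qsf 536870912 536870912 536870912 469762048 3) ndF1q1 ndF5q1 pcF3 Cut.none Ext.none)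

def k0_mm_113 : ∃ t, chk3 f_mm_113 t 1 1 1 = true :=
  ⟨(l 4), by decide +kernel⟩

theorem c_mm_113 : CertFX 536870912 536870912 536870912 469762048 1046898278 26843546 true false false .nn 1 1 3
    ndF1q1 ndF5q1 pcF3 Cut.none Ext.none :=
  certFX0 (fam := true) (s1 := false) (s2 := false) (a := 1) (b := 1) (c := 3) (cn := .nn) (n1 := ndF1q1) (n2 := ndF5q1) (pc := pcF3) (cut := Cut.none) (xt := Ext.none) (P1 := 536870912) (W1 := 536870912) (P2 := 536870912) (W2 := 469762048) (P3 := 1046898278) (W3 := 26843546)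
    rfl k0_mm_113

noncomputable def f_mm_123 : ℕ → ℕ → ℕ → ℕ → Bool := onCell 536870912 536870912 1073741824 536870912 1046898278 26843546
    (rowFX 0 true false false .npn 1 2 3 (qsf 536870912 536870912 1073741824 536870912 3) ndF1q1 ndF5q2 pcF3 Cut.none Ext.none)

def k0_mm_123 : ∃ t, chk3 f_mm_123 t 1 1 1 = true :=
  ⟨(l 4), by decide +kernel⟩

theorem c_mm_123 : CertFX 536870912 536870912 1073741824 536870912 1046898278 26843546 true false false .npn 1 2 3
    ndF1q1 ndF5q2 pcF3 Cut.none Ext.none :=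
  certFX0 (fam := true) (s1 := false) (s2 := false) (a := 1) (b := 2) (c := 3) (cn := .npn) (n1 := ndF1q1) (n2 := ndF5q2) (pc := pcF3) (cut := Cut.none) (xt := Ext.none) (P1 := 536870912) (W1 := 536870912) (P2 := 1073741824) (W2 := 536870912) (P3 := 1046898278) (W3 := 26843546)
    rfl k0_mm_123

noncomputable def f_mm_133 : ℕ → ℕ → ℕ → ℕ → Bool := onCell 536870912 536870912 0 1230186008 1046898278 26843546
    (rowFX 0 true false false .dn 1 3 3 (qsf 536870912 536870912 0 1230186008 3) ndF1q1 ndF5q3 pcF3 Cut.none Ext.none)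

def k0_mm_133 : ∃ t, chk3 f_mm_133 t 1 1 1 = true :=
  ⟨(l 4), by decide +kernel⟩

theorem c_mm_133 : CertFX 536870912 536870912 0 1230186008 1046898278 26843546 true false false .dn 1 3 3
    ndF1q1 ndF5q3 pcF3 Cut.none Ext.none :=
  certFX0 (fam := true) (s1 := false) (s2 := false) (a := 1) (b := 3) (c := 3) (cn := .dn) (n1 := ndF1q1) (n2 := ndF5q3) (pc := pcF3) (cut := Cut.none) (xt := Ext.none) (P1 := 536870912) (W1 := 536870912) (P2 := 0) (W2 := 1230186008) (P3 := 1046898278) (W3 := 26843546)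
    rfl k0_mm_133

noncomputable def f_mm_202_a : ℕ → ℕ → ℕ → ℕ → Bool := onCell 0 420477299 0 536870912 1046898278 26843546
    (rowFX 0 true false false .pp 2 0 2 (qsf 0 420477299 0 536870912 2) ndF1q2a ndF5q0 pcF2 Cut.none Ext.none)

def k0_mm_202_a : ∃ t, chk3 f_mm_202_a t 2 4 1 = true :=
  ⟨(b (b (a (b (a (c (b (l 16352792) (b (l 16339480) (l 16288376))) (b (c (l 16360376) (b (l 16378512) (l 16348960))) (l 16243784))) (c (b (l 16411944) (b (l 16403176) (l 16375608))) (b (c (l 16420800) (l 16280024)) (l 16352576)))) (c (b (a (l 16242040) (l 16290544)) (l 16153808)) (a (l 16287264) (l 16362216)))) (b (b (a (c (l 16505448) (c (l 16516248) (l 16350296))) (c (a (l 16465736) (l 16383632)) (c (b (l 16259016) (a (l 16464560) (l 16416488))) (b (a (l 16436768) (l 16400032)) (l 16272744))))) (c (a (l 16228120) (l 16292360)) (c (l 16365072) (l 16513408)))) (c (a (b (l 16410328) (l 16393768)) (b (l 16535704) (l 16516536))) (a (l 16465088) (l 16524232))))) (a (c (b (a (l 16252600) (l 16338752))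 (a (l 16308160) (l 16365504))) (b (l 16272360) (l 16300504))) (b (c (a (l 16445728) (l 16416944)) (a (l 16487128) (l 16551008))) (c (a (l 16395000) (l 16448240)) (a (l 16529064) (l 16565912)))))) (b (a (b (a (c (l 16301040) (l 16356408)) (b (c (l 16464816) (l 16460048)) (l 16482328))) (c (l 16493464) (l 16489592))) (b (a (b (c (l 16571152) (l 16569688)) (a (l 16574344) (l 4))) (l 4)) (l 4))) (a (c (b (l 16565760) (l 16563096)) (b (l 16562776) (l 16559432))) (l 4)))), by decide +kernel⟩

def k1_mm_202_a : ∃ t, chk3 f_mm_202_a t 3 4 1 = true :=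
  ⟨(b (a (b (b (a (b (c (l 16363752) (b (c (l 16347368) (l 16297536)) (c (l 16351512) (l 16329080)))) (c (a (b (l 16324408) (l 16412232)) (b (l 16337888) (b (l 16355040) (l 16361016)))) (a (b (c (l 16402904) (l 16379832)) (l 16416088)) (c (l 16314672) (l 16333136))))) (c (b (l 16215024) (c (l 16185680) (l 16133688))) (b (c (b (l 16213520) (l 16220488)) (b (l 16056464) (l 16216952))) (c (l 16257240) (l 16231504))))) (b (b (a (c (a (l 16464488) (a (l 16422936) (l 16373736))) (a (l 16420096) (l 16298920))) (c (l 16314456) (l 16262808))) (a (c (l 16380320) (l 16401648)) (l 4))) (a (c (l 16482232) (l 16420416)) (l 4)))) (a (b (c (l 16385088) (l 16453744)) (l 4)) (l 4))) (b (a (a (b (a (b (b (c (l 16144024) (l 15998608)) (l 4)) (l 4)) (l 4)) (l 4)) (l 4)) (l 4)) (l 4))) (l 4)), by decide +kernel⟩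

def k2_mm_202_a : ∃ t, chk3 f_mm_202_a t 1 5 1 = true :=
  ⟨(a (a (l 4) (l 4)) (l 4)), by decide +kernel⟩

def k3_mm_202_a : ∃ t, chk3 f_mm_202_a t 1 3 1 = true :=
  ⟨(l 4), by decide +kernel⟩

theorem s4_mm_202_a : ∃ t, chk3 f_mm_202_a t 1 4 1 = true := ex3_a k0_mm_202_a k1_mm_202_a

theorem s5_mm_202_a : ∃ t, chk3 f_mm_202_a t 1 2 1 = true := ex3_b s4_mm_202_a k2_mm_202_a

theorem s6_mm_202_a : ∃ t, chk3 f_mm_202_a t 1 1 1 = true := ex3_b s5_mm_202_a k3_mm_202_a

theorem c_mm_202_a : CertFX 0 420477299 0 536870912 1046898278 26843546 true false false .pp 2 0 2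
    ndF1q2a ndF5q0 pcF2 Cut.none Ext.none :=
  certFX0 (fam := true) (s1 := false) (s2 := false) (a := 2) (b := 0) (c := 2) (cn := .pp) (n1 := ndF1q2a) (n2 := ndF5q0) (pc := pcF2) (cut := Cut.none) (xt := Ext.none) (P1 := 0) (W1 := 420477299) (P2 := 0) (W2 := 536870912) (P3 := 1046898278) (W3 := 26843546)
    rfl s6_mm_202_a

noncomputable def f_mm_202_b : ℕ → ℕ → ℕ → ℕ → Bool := onCell 1073741824 536870912 0 536870912 1046898278 26843546
    (rowFX 2 true false false .pp 2 0 2 (qsf 1239849684 370763052 0 536870912 2) ndF1q2b ndF5q0 pcF2 Cut.none Ext.none)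

def k0_mm_202_b : ∃ t, chk3 f_mm_202_b t 2 1 1 = true :=
  ⟨(a (l 1) (b (b (a (b (b (a (b (b (a (l 1) (c (l 16443192) (c (l 16349096) (b (l 16400480) (l 1))))) (l 1)) (l 1)) (b (c (b (l 15918672) (a (c (l 16326800) (l 16308648)) (c (l 16120808) (l 16094144)))) (b (c (b (l 16111624) (l 16030808)) (b (l 15860960) (l 16107560))) (a (c (l 16276312) (l 16342512)) (l 16045984)))) (c (a (b (c (l 16332032) (l 16364688)) (l 1)) (b (l 16121408) (l 16220056))) (a (l 16403720) (l 16238200))))) (b (a (l 1) (b (c (l 70899346199) (l 16409968)) (l 1))) (l 1))) (l 1)) (b (b (a (b (c (b (l 15702912) (c (l 15818472) (l 15787304))) (b (c (l 15675288) (b (l 15669048) (l 15710656))) (l 15585600))) (c (c (l 15666544) (l 15878000)) (l 15934552))) (c (b (b (l 15452800) (c (l 15571544) (l 15536616))) (c (l 15631168) (l 15650224))) (b (b (c (l 15440400) (l 15411288)) (l 15518016)) (l 15680312)))) (a (b (c (l 194915855991) (l 16140488)) (a (b (l 361883279559) (l 1)) (b (l 180420607367) (l 293163745703))))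 (c (b (l 15864664) (l 15963800)) (l 15880504)))) (a (b (c (a (l 1) (l 16398672)) (l 182568722199)) (l 1)) (b (c (b (l 16290792) (l 16477176)) (b (l 16280456) (l 16471968))) (l 416644659335))))) (l 1)) (l 1))), by decide +kernel⟩

def k1_mm_202_b : ∃ t, chk3 f_mm_202_b t 3 1 1 = true :=
  ⟨(b (a (b (b (a (b (c (b (b (l 15271024) (a (l 15426424) (l 15290504))) (a (l 15514016) (l 15368808))) (b (c (b (l 15254320) (l 15322760)) (b (l 15180392) (l 15332504))) (l 15321144))) (c (a (b (l 15717936) (l 15931328)) (b (l 15560888) (l 15763072))) (a (l 15828432) (l 15660664)))) (b (c (b (a (b (l 15087672) (l 15167832)) (l 15107344)) (a (l 15238600) (l 15223200))) (b (c (b (l 15059024) (l 15118608)) (l 15082616)) (l 15249192))) (c (a (a (l 15529864) (l 15496128)) (l 15496128)) (a (l 15511344) (l 15493760))))) (b (a (c (a (l 16209600) (l 16025688)) (a (l 16196512) (l 16006936))) (c (a (l 15800688) (l 15844976)) (a (l 15839576) (l 15820328)))) (a (a (c (l 16522424) (l 16517776)) (c (l 16315064)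 (l 16304088))) (l 4)))) (a (b (a (b (l 585759096055) (l 1)) (l 4)) (l 1)) (l 4))) (b (b (a (c (b (b (c (l 15123704) (l 15099312)) (l 15223200)) (a (l 15496128) (l 4))) (b (b (c (l 15086032) (l 15074912)) (l 15240976)) (l 15493760))) (a (b (c (l 15070264) (l 15155776)) (l 4)) (l 4))) (l 4)) (l 4))) (l 4)), by decide +kernel⟩

theorem s2_mm_202_b : ∃ t, chk3 f_mm_202_b t 1 1 1 = true := ex3_a k0_mm_202_b k1_mm_202_b

theorem c_mm_202_b : CertFX 1239849684 370763052 0 536870912 1046898278 26843546 true false false .pp 2 0 2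
    ndF1q2b ndF5q0 pcF2 Cut.none Ext.none :=
  certFX2 (fam := true) (s1 := false) (s2 := false) (a := 2) (b := 0) (c := 2) (cn := .pp) (n1 := ndF1q2b) (n2 := ndF5q0) (pc := pcF2) (cut := Cut.none) (xt := Ext.none) (P1 := 1239849684) (W1 := 370763052) (P2 := 0) (W2 := 536870912) (P3 := 1046898278) (W3 := 26843546)
    rfl (fun _ => rfl) s2_mm_202_b

noncomputable def f_mm_203_a : ℕ → ℕ → ℕ → ℕ → Bool := onCell 0 420477299 1610612736 536870912 1046898278 26843546
    (rowFX 1 true false false .up 2 0 3 (qsf 0 420477299 0 536870912 3) ndF1q2a ndF5q0 pcF3 Cut.none Ext.none)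

def k0_mm_203_a : ∃ t, chk3 f_mm_203_a t 1 1 1 = true :=
  ⟨(l 4), by decide +kernel⟩

theorem c_mm_203_a : CertFX 0 420477299 0 536870912 1046898278 26843546 true false false .up 2 0 3
    ndF1q2a ndF5q0 pcF3 Cut.none Ext.none :=
  certFX1 (fam := true) (s1 := false) (s2 := false) (a := 2) (b := 0) (c := 3) (cn := .up) (n1 := ndF1q2a) (n2 := ndF5q0) (pc := pcF3) (cut := Cut.none) (xt := Ext.none) (P1 := 0) (W1 := 420477299) (P2 := 0) (W2 := 536870912) (P3 := 1046898278) (W3 := 26843546)
    rfl (fun _ => rfl) k0_mm_203_a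

noncomputable def f_mm_203_b : ℕ → ℕ → ℕ → ℕ → Bool := onCell 1239849684 370763052 1610612736 536870912 1046898278 26843546
    (rowFX 1 true false false .up 2 0 3 (qsf 1239849684 370763052 0 536870912 3) ndF1q2b ndF5q0 pcF3 Cut.none Ext.none)

def k0_mm_203_b : ∃ t, chk3 f_mm_203_b t 1 1 1 = true :=
  ⟨(b (b (l 4) (l 4)) (l 4)), by decide +kernel⟩

theorem c_mm_203_b : CertFX 1239849684 370763052 0 536870912 1046898278 26843546 true false false .up 2 0 3
    ndF1q2b ndF5q0 pcF3 Cut.none Ext.none :=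
  certFX1 (fam := true) (s1 := false) (s2 := false) (a := 2) (b := 0) (c := 3) (cn := .up) (n1 := ndF1q2b) (n2 := ndF5q0) (pc := pcF3) (cut := Cut.none) (xt := Ext.none) (P1 := 1239849684) (W1 := 370763052) (P2 := 0) (W2 := 536870912) (P3 := 1046898278) (W3 := 26843546)
    rfl (fun _ => rfl) k0_mm_203_b

noncomputable def f_mm_213_a : ℕ → ℕ → ℕ → ℕ → Bool := onCell 0 420477299 536870912 469762048 1046898278 26843546
    (rowFX 0 true false false .pnn 2 1 3 (qsf 0 420477299 536870912 469762048 3) ndF1q2a ndF5q1 pcF3 Cut.none Ext.none)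

def k0_mm_213_a : ∃ t, chk3 f_mm_213_a t 1 1 1 = true :=
  ⟨(l 4), by decide +kernel⟩

theorem c_mm_213_a : CertFX 0 420477299 536870912 469762048 1046898278 26843546 true false false .pnn 2 1 3
    ndF1q2a ndF5q1 pcF3 Cut.none Ext.none :=
  certFX0 (fam := true) (s1 := false) (s2 := false) (a := 2) (b := 1) (c := 3) (cn := .pnn) (n1 := ndF1q2a) (n2 := ndF5q1) (pc := pcF3) (cut := Cut.none) (xt := Ext.none) (P1 := 0) (W1 := 420477299) (P2 := 536870912) (W2 := 469762048) (P3 := 1046898278) (W3 := 26843546)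
    rfl k0_mm_213_a

noncomputable def f_mm_213_b : ℕ → ℕ → ℕ → ℕ → Bool := onCell 1239849684 370763052 536870912 469762048 1046898278 26843546
    (rowFX 0 true false false .pnn 2 1 3 (qsf 1239849684 370763052 536870912 469762048 3) ndF1q2b ndF5q1 pcF3 Cut.none Ext.none)

def k0_mm_213_b : ∃ t, chk3 f_mm_213_b t 1 1 1 = true :=
  ⟨(l 4), by decide +kernel⟩

theorem c_mm_213_b : CertFX 1239849684 370763052 536870912 469762048 1046898278 26843546 true false false .pnn 2 1 3
    ndF1q2b ndF5q1 pcF3 Cut.none Ext.none :=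
  certFX0 (fam := true) (s1 := false) (s2 := false) (a := 2) (b := 1) (c := 3) (cn := .pnn) (n1 := ndF1q2b) (n2 := ndF5q1) (pc := pcF3) (cut := Cut.none) (xt := Ext.none) (P1 := 1239849684) (W1 := 370763052) (P2 := 536870912) (W2 := 469762048) (P3 := 1046898278) (W3 := 26843546)
    rfl k0_mm_213_b

noncomputable def f_mm_303 : ℕ → ℕ → ℕ → ℕ → Bool := onCell 1610612736 469762048 0 536870912 1046898278 26843546
    (rowFX 0 true false false .npn 3 0 3 (qsf 1610612736 469762048 0 536870912 3) ndF1q3 ndF5q0 pcF3 Cut.none Ext.none)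

def k0_mm_303 : ∃ t, chk3 f_mm_303 t 1 1 1 = true :=
  ⟨(b (a (l 4) (l 4)) (l 4)), by decide +kernel⟩

theorem c_mm_303 : CertFX 1610612736 469762048 0 536870912 1046898278 26843546 true false false .npn 3 0 3
    ndF1q3 ndF5q0 pcF3 Cut.none Ext.none :=
  certFX0 (fam := true) (s1 := false) (s2 := false) (a := 3) (b := 0) (c := 3) (cn := .npn) (n1 := ndF1q3) (n2 := ndF5q0) (pc := pcF3) (cut := Cut.none) (xt := Ext.none) (P1 := 1610612736) (W1 := 469762048) (P2 := 0) (W2 := 536870912) (P3 := 1046898278) (W3 := 26843546)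
    rfl k0_mm_303

noncomputable def f_mm_313 : ℕ → ℕ → ℕ → ℕ → Bool := onCell 1610612736 469762048 536870912 469762048 1046898278 26843546
    (rowFX 0 true false false .dn 3 1 3 (qsf 1610612736 469762048 536870912 469762048 3) ndF1q3 ndF5q1 pcF3 Cut.none Ext.none)

def k0_mm_313 : ∃ t, chk3 f_mm_313 t 1 1 1 = true :=
  ⟨(l 4), by decide +kernel⟩

theorem c_mm_313 : CertFX 1610612736 469762048 536870912 469762048 1046898278 26843546 true false false .dn 3 1 3
    ndF1q3 ndF5q1 pcF3 Cut.none Ext.none :=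
  certFX0 (fam := true) (s1 := false) (s2 := false) (a := 3) (b := 1) (c := 3) (cn := .dn) (n1 := ndF1q3) (n2 := ndF5q1) (pc := pcF3) (cut := Cut.none) (xt := Ext.none) (P1 := 1610612736) (W1 := 469762048) (P2 := 536870912) (W2 := 469762048) (P3 := 1046898278) (W3 := 26843546)
    rfl k0_mm_313

end Pool.Agent.Strip051.G.IE1.Tab.C.FA15

namespace Pool.Agent.Strip051.G.IE1.Tab.C.FA16

open Pool.Agent.Strip051.PB Pool.Agent.Strip051.PB.T
open Pool.Agent.Strip051.G.IE1.Tab

noncomputable def f_pp_001 : ℕ → ℕ → ℕ → ℕ → Bool := onCell 67108864 469762048 0 536870912 1046898278 26843546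
    (rowFX 0 true true true .up 0 0 1 (qsf 67108864 469762048 0 536870912 1) ndF1q0 ndF6q0 pcF1 Cut.none Ext.none)

def k0_pp_001 : ∃ t, chk3 f_pp_001 t 1 1 1 = true :=
  ⟨(l 4), by decide +kernel⟩

theorem c_pp_001 : CertFX 67108864 469762048 0 536870912 1046898278 26843546 true true true .up 0 0 1
    ndF1q0 ndF6q0 pcF1 Cut.none Ext.none :=
  certFX0 (fam := true) (s1 := true) (s2 := true) (a := 0) (b := 0) (c := 1) (cn := .up) (n1 := ndF1q0) (n2 := ndF6q0) (pc := pcF1) (cut := Cut.none) (xt := Ext.none) (P1 := 67108864) (W1 := 469762048) (P2 := 0) (W2 := 536870912) (P3 := 1046898278) (W3 := 26843546)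
    rfl k0_pp_001

noncomputable def f_pp_011 : ℕ → ℕ → ℕ → ℕ → Bool := onCell 67108864 469762048 536870912 469762048 1046898278 26843546
    (rowFX 0 true true true .pnn 0 1 1 (qsf 67108864 469762048 536870912 469762048 1) ndF1q0 ndF6q1 pcF1 Cut.none Ext.none)

def k0_pp_011 : ∃ t, chk3 f_pp_011 t 1 1 1 = true :=
  ⟨(l 4), by decide +kernel⟩

theorem c_pp_011 : CertFX 67108864 469762048 536870912 469762048 1046898278 26843546 true true true .pnn 0 1 1
    ndF1q0 ndF6q1 pcF1 Cut.none Ext.none :=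
  certFX0 (fam := true) (s1 := true) (s2 := true) (a := 0) (b := 1) (c := 1) (cn := .pnn) (n1 := ndF1q0) (n2 := ndF6q1) (pc := pcF1) (cut := Cut.none) (xt := Ext.none) (P1 := 67108864) (W1 := 469762048) (P2 := 536870912) (W2 := 469762048) (P3 := 1046898278) (W3 := 26843546)
    rfl k0_pp_011

noncomputable def f_pp_012 : ℕ → ℕ → ℕ → ℕ → Bool := onCell 67108864 469762048 536870912 469762048 1046898278 26843546
    (rowFX 0 true true true .pnp 0 1 2 (qsf 67108864 469762048 536870912 469762048 2) ndF1q0 ndF6q1 pcF2 Cut.none Ext.none)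

def k0_pp_012 : ∃ t, chk3 f_pp_012 t 1 1 1 = true :=
  ⟨(l 4), by decide +kernel⟩

theorem c_pp_012 : CertFX 67108864 469762048 536870912 469762048 1046898278 26843546 true true true .pnp 0 1 2
    ndF1q0 ndF6q1 pcF2 Cut.none Ext.none :=
  certFX0 (fam := true) (s1 := true) (s2 := true) (a := 0) (b := 1) (c := 2) (cn := .pnp) (n1 := ndF1q0) (n2 := ndF6q1) (pc := pcF2) (cut := Cut.none) (xt := Ext.none) (P1 := 67108864) (W1 := 469762048) (P2 := 536870912) (W2 := 469762048) (P3 := 1046898278) (W3 := 26843546)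
    rfl k0_pp_012

noncomputable def f_pp_022 : ℕ → ℕ → ℕ → ℕ → Bool := onCell 67108864 469762048 1073741824 536870912 1046898278 26843546
    (rowFX 0 true true true .pp 0 2 2 (qsf 67108864 469762048 1073741824 536870912 2) ndF1q0 ndF6q2 pcF2 Cut.none Ext.none)

def k0_pp_022 : ∃ t, chk3 f_pp_022 t 1 1 1 = true :=
  ⟨(l 4), by decide +kernel⟩

theorem c_pp_022 : CertFX 67108864 469762048 1073741824 536870912 1046898278 26843546 true true true .pp 0 2 2
    ndF1q0 ndF6q2 pcF2 Cut.none Ext.none :=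
  certFX0 (fam := true) (s1 := true) (s2 := true) (a := 0) (b := 2) (c := 2) (cn := .pp) (n1 := ndF1q0) (n2 := ndF6q2) (pc := pcF2) (cut := Cut.none) (xt := Ext.none) (P1 := 67108864) (W1 := 469762048) (P2 := 1073741824) (W2 := 536870912) (P3 := 1046898278) (W3 := 26843546)
    rfl k0_pp_022

noncomputable def f_pp_023 : ℕ → ℕ → ℕ → ℕ → Bool := onCell 67108864 469762048 1073741824 536870912 1046898278 26843546
    (rowFX 0 true true true .up 0 2 3 (qsf 67108864 469762048 1073741824 536870912 3) ndF1q0 ndF6q2 pcF3 Cut.none Ext.none)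

def k0_pp_023 : ∃ t, chk3 f_pp_023 t 1 1 1 = true :=
  ⟨(l 4), by decide +kernel⟩

theorem c_pp_023 : CertFX 67108864 469762048 1073741824 536870912 1046898278 26843546 true true true .up 0 2 3
    ndF1q0 ndF6q2 pcF3 Cut.none Ext.none :=
  certFX0 (fam := true) (s1 := true) (s2 := true) (a := 0) (b := 2) (c := 3) (cn := .up) (n1 := ndF1q0) (n2 := ndF6q2) (pc := pcF3) (cut := Cut.none) (xt := Ext.none) (P1 := 67108864) (W1 := 469762048) (P2 := 1073741824) (W2 := 536870912) (P3 := 1046898278) (W3 := 26843546)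
    rfl k0_pp_023

noncomputable def f_pp_033 : ℕ → ℕ → ℕ → ℕ → Bool := onCell 67108864 469762048 0 1230186008 1046898278 26843546
    (rowFX 0 true true true .pnn 0 3 3 (qsf 67108864 469762048 0 1230186008 3) ndF1q0 ndF6q3 pcF3 Cut.none Ext.none)

def k0_pp_033 : ∃ t, chk3 f_pp_033 t 1 1 1 = true :=
  ⟨(l 4), by decide +kernel⟩

theorem c_pp_033 : CertFX 67108864 469762048 0 1230186008 1046898278 26843546 true true true .pnn 0 3 3
    ndF1q0 ndF6q3 pcF3 Cut.none Ext.none :=
  certFX0 (fam := true) (s1 := true) (s2 := true) (a := 0) (b := 3) (c := 3) (cn := .pnn) (n1 := ndF1q0) (n2 := ndF6q3) (pc := pcF3) (cut := Cut.none) (xt := Ext.none) (P1 := 67108864) (W1 := 469762048) (P2 := 0) (W2 := 1230186008) (P3 := 1046898278) (W3 := 26843546)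
    rfl k0_pp_033

noncomputable def f_pp_101 : ℕ → ℕ → ℕ → ℕ → Bool := onCell 536870912 536870912 0 536870912 1046898278 26843546
    (rowFX 0 true true true .npn 1 0 1 (qsf 536870912 536870912 0 536870912 1) ndF1q1 ndF6q0 pcF1 Cut.none Ext.none)

def k0_pp_101 : ∃ t, chk3 f_pp_101 t 1 1 1 = true :=
  ⟨(l 4), by decide +kernel⟩

theorem c_pp_101 : CertFX 536870912 536870912 0 536870912 1046898278 26843546 true true true .npn 1 0 1
    ndF1q1 ndF6q0 pcF1 Cut.none Ext.none :=
  certFX0 (fam := true) (s1 := true) (s2 := true) (a := 1) (b := 0) (c := 1) (cn := .npn) (n1 := ndF1q1) (n2 := ndF6q0) (pc := pcF1) (cut := Cut.none) (xt := Ext.none) (P1 := 536870912) (W1 := 536870912) (P2 := 0) (W2 := 536870912) (P3 := 1046898278) (W3 := 26843546)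
    rfl k0_pp_101

noncomputable def f_pp_102 : ℕ → ℕ → ℕ → ℕ → Bool := onCell 536870912 536870912 0 536870912 1046898278 26843546
    (rowFX 0 true true true .npp 1 0 2 (qsf 536870912 536870912 0 536870912 2) ndF1q1 ndF6q0 pcF2 Cut.none Ext.none)

def k0_pp_102 : ∃ t, chk3 f_pp_102 t 1 1 1 = true :=
  ⟨(l 4), by decide +kernel⟩

theorem c_pp_102 : CertFX 536870912 536870912 0 536870912 1046898278 26843546 true true true .npp 1 0 2
    ndF1q1 ndF6q0 pcF2 Cut.none Ext.none :=
  certFX0 (fam := true) (s1 := true) (s2 := true) (a := 1) (b := 0) (c := 2) (cn := .npp) (n1 := ndF1q1) (n2 := ndF6q0) (pc := pcF2) (cut := Cut.none) (xt := Ext.none) (P1 := 536870912) (W1 := 536870912) (P2 := 0) (W2 := 536870912) (P3 := 1046898278) (W3 := 26843546)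
    rfl k0_pp_102

noncomputable def f_pp_112 : ℕ → ℕ → ℕ → ℕ → Bool := onCell 536870912 536870912 536870912 469762048 1046898278 26843546
    (rowFX 0 true true true .dn 1 1 2 (qsf 536870912 536870912 536870912 469762048 2) ndF1q1 ndF6q1 pcF2 Cut.none Ext.none)

def k0_pp_112 : ∃ t, chk3 f_pp_112 t 1 1 1 = true :=
  ⟨(l 4), by decide +kernel⟩

theorem c_pp_112 : CertFX 536870912 536870912 536870912 469762048 1046898278 26843546 true true true .dn 1 1 2
    ndF1q1 ndF6q1 pcF2 Cut.none Ext.none :=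
  certFX0 (fam := true) (s1 := true) (s2 := true) (a := 1) (b := 1) (c := 2) (cn := .dn) (n1 := ndF1q1) (n2 := ndF6q1) (pc := pcF2) (cut := Cut.none) (xt := Ext.none) (P1 := 536870912) (W1 := 536870912) (P2 := 536870912) (W2 := 469762048) (P3 := 1046898278) (W3 := 26843546)
    rfl k0_pp_112

noncomputable def f_pp_113 : ℕ → ℕ → ℕ → ℕ → Bool := onCell 536870912 536870912 536870912 469762048 1046898278 26843546
    (rowFX 0 true true true .nn 1 1 3 (qsf 536870912 536870912 536870912 469762048 3) ndF1q1 ndF6q1 pcF3 Cut.none Ext.none)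

def k0_pp_113 : ∃ t, chk3 f_pp_113 t 1 1 1 = true :=
  ⟨(l 4), by decide +kernel⟩

theorem c_pp_113 : CertFX 536870912 536870912 536870912 469762048 1046898278 26843546 true true true .nn 1 1 3
    ndF1q1 ndF6q1 pcF3 Cut.none Ext.none :=
  certFX0 (fam := true) (s1 := true) (s2 := true) (a := 1) (b := 1) (c := 3) (cn := .nn) (n1 := ndF1q1) (n2 := ndF6q1) (pc := pcF3) (cut := Cut.none) (xt := Ext.none) (P1 := 536870912) (W1 := 536870912) (P2 := 536870912) (W2 := 469762048) (P3 := 1046898278) (W3 := 26843546)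
    rfl k0_pp_113

noncomputable def f_pp_123 : ℕ → ℕ → ℕ → ℕ → Bool := onCell 536870912 536870912 1073741824 536870912 1046898278 26843546
    (rowFX 0 true true true .npn 1 2 3 (qsf 536870912 536870912 1073741824 536870912 3) ndF1q1 ndF6q2 pcF3 Cut.none Ext.none)

def k0_pp_123 : ∃ t, chk3 f_pp_123 t 1 1 1 = true :=
  ⟨(l 4), by decide +kernel⟩

theorem c_pp_123 : CertFX 536870912 536870912 1073741824 536870912 1046898278 26843546 true true true .npn 1 2 3
    ndF1q1 ndF6q2 pcF3 Cut.none Ext.none :=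
  certFX0 (fam := true) (s1 := true) (s2 := true) (a := 1) (b := 2) (c := 3) (cn := .npn) (n1 := ndF1q1) (n2 := ndF6q2) (pc := pcF3) (cut := Cut.none) (xt := Ext.none) (P1 := 536870912) (W1 := 536870912) (P2 := 1073741824) (W2 := 536870912) (P3 := 1046898278) (W3 := 26843546)
    rfl k0_pp_123

noncomputable def f_pp_133 : ℕ → ℕ → ℕ → ℕ → Bool := onCell 536870912 536870912 0 1230186008 1046898278 26843546
    (rowFX 0 true true true .dn 1 3 3 (qsf 536870912 536870912 0 1230186008 3) ndF1q1 ndF6q3 pcF3 Cut.none Ext.none)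

def k0_pp_133 : ∃ t, chk3 f_pp_133 t 1 1 1 = true :=
  ⟨(l 4), by decide +kernel⟩

theorem c_pp_133 : CertFX 536870912 536870912 0 1230186008 1046898278 26843546 true true true .dn 1 3 3
    ndF1q1 ndF6q3 pcF3 Cut.none Ext.none :=
  certFX0 (fam := true) (s1 := true) (s2 := true) (a := 1) (b := 3) (c := 3) (cn := .dn) (n1 := ndF1q1) (n2 := ndF6q3) (pc := pcF3) (cut := Cut.none) (xt := Ext.none) (P1 := 536870912) (W1 := 536870912) (P2 := 0) (W2 := 1230186008) (P3 := 1046898278) (W3 := 26843546)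
    rfl k0_pp_133

noncomputable def f_pp_202_a : ℕ → ℕ → ℕ → ℕ → Bool := onCell 0 420477299 0 536870912 1046898278 26843546
    (rowFX 0 true true true .pp 2 0 2 (qsf 0 420477299 0 536870912 2) ndF1q2a ndF6q0 pcF2 Cut.none Ext.none)

def k0_pp_202_a : ∃ t, chk3 f_pp_202_a t 1 1 1 = true :=
  ⟨(l 4), by decide +kernel⟩

theorem c_pp_202_a : CertFX 0 420477299 0 536870912 1046898278 26843546 true true true .pp 2 0 2
    ndF1q2a ndF6q0 pcF2 Cut.none Ext.none :=
  certFX0 (fam := true) (s1 := true) (s2 := true) (a := 2) (b := 0) (c := 2) (cn := .pp) (n1 := ndF1q2a) (n2 := ndF6q0) (pc := pcF2) (cut := Cut.none) (xt := Ext.none) (P1 := 0) (W1 := 420477299) (P2 := 0) (W2 := 536870912) (P3 := 1046898278) (W3 := 26843546)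
    rfl k0_pp_202_a

noncomputable def f_pp_202_b : ℕ → ℕ → ℕ → ℕ → Bool := onCell 1239849684 370763052 0 536870912 1046898278 26843546
    (rowFX 0 true true true .pp 2 0 2 (qsf 1239849684 370763052 0 536870912 2) ndF1q2b ndF6q0 pcF2 Cut.none Ext.none)

def k0_pp_202_b : ∃ t, chk3 f_pp_202_b t 1 1 1 = true :=
  ⟨(l 4), by decide +kernel⟩

theorem c_pp_202_b : CertFX 1239849684 370763052 0 536870912 1046898278 26843546 true true true .pp 2 0 2
    ndF1q2b ndF6q0 pcF2 Cut.none Ext.none :=
  certFX0 (fam := true) (s1 := true) (s2 := true) (a := 2) (b := 0) (c := 2) (cn := .pp) (n1 := ndF1q2b) (n2 := ndF6q0) (pc := pcF2) (cut := Cut.none) (xt := Ext.none) (P1 := 1239849684) (W1 := 370763052) (P2 := 0) (W2 := 536870912) (P3 := 1046898278) (W3 := 26843546)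
    rfl k0_pp_202_b

noncomputable def f_pp_203_a : ℕ → ℕ → ℕ → ℕ → Bool := onCell 0 420477299 0 536870912 1046898278 26843546
    (rowFX 0 true true true .up 2 0 3 (qsf 0 420477299 0 536870912 3) ndF1q2a ndF6q0 pcF3 Cut.none Ext.none)

def k0_pp_203_a : ∃ t, chk3 f_pp_203_a t 1 1 1 = true :=
  ⟨(l 4), by decide +kernel⟩

theorem c_pp_203_a : CertFX 0 420477299 0 536870912 1046898278 26843546 true true true .up 2 0 3
    ndF1q2a ndF6q0 pcF3 Cut.none Ext.none :=
  certFX0 (fam := true) (s1 := true) (s2 := true) (a := 2) (b := 0) (c := 3) (cn := .up) (n1 := ndF1q2a) (n2 := ndF6q0) (pc := pcF3) (cut := Cut.none) (xt := Ext.none) (P1 := 0) (W1 := 420477299) (P2 := 0) (W2 := 536870912) (P3 := 1046898278) (W3 := 26843546)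
    rfl k0_pp_203_a

noncomputable def f_pp_203_b : ℕ → ℕ → ℕ → ℕ → Bool := onCell 1239849684 370763052 0 536870912 1046898278 26843546
    (rowFX 0 true true true .up 2 0 3 (qsf 1239849684 370763052 0 536870912 3) ndF1q2b ndF6q0 pcF3 Cut.none Ext.none)

def k0_pp_203_b : ∃ t, chk3 f_pp_203_b t 1 1 1 = true :=
  ⟨(l 4), by decide +kernel⟩

theorem c_pp_203_b : CertFX 1239849684 370763052 0 536870912 1046898278 26843546 true true true .up 2 0 3
    ndF1q2b ndF6q0 pcF3 Cut.none Ext.none :=
  certFX0 (fam := true) (s1 := true) (s2 := true) (a := 2) (b := 0) (c := 3) (cn := .up) (n1 := ndF1q2b) (n2 := ndF6q0) (pc := pcF3) (cut := Cut.none) (xt := Ext.none) (P1 := 1239849684) (W1 := 370763052) (P2 := 0) (W2 := 536870912) (P3 := 1046898278) (W3 := 26843546)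
    rfl k0_pp_203_b

noncomputable def f_pp_213_a : ℕ → ℕ → ℕ → ℕ → Bool := onCell 0 420477299 536870912 469762048 1046898278 26843546
    (rowFX 0 true true true .pnn 2 1 3 (qsf 0 420477299 536870912 469762048 3) ndF1q2a ndF6q1 pcF3 Cut.none Ext.none)

def k0_pp_213_a : ∃ t, chk3 f_pp_213_a t 1 1 1 = true :=
  ⟨(l 4), by decide +kernel⟩

theorem c_pp_213_a : CertFX 0 420477299 536870912 469762048 1046898278 26843546 true true true .pnn 2 1 3
    ndF1q2a ndF6q1 pcF3 Cut.none Ext.none :=
  certFX0 (fam := true) (s1 := true) (s2 := true) (a := 2) (b := 1) (c := 3) (cn := .pnn) (n1 := ndF1q2a) (n2 := ndF6q1) (pc := pcF3) (cut := Cut.none) (xt := Ext.none) (P1 := 0) (W1 := 420477299) (P2 := 536870912) (W2 := 469762048) (P3 := 1046898278) (W3 := 26843546)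
    rfl k0_pp_213_a

noncomputable def f_pp_213_b : ℕ → ℕ → ℕ → ℕ → Bool := onCell 1239849684 370763052 536870912 469762048 1046898278 26843546
    (rowFX 0 true true true .pnn 2 1 3 (qsf 1239849684 370763052 536870912 469762048 3) ndF1q2b ndF6q1 pcF3 Cut.none Ext.none)

def k0_pp_213_b : ∃ t, chk3 f_pp_213_b t 1 1 1 = true :=
  ⟨(l 4), by decide +kernel⟩

theorem c_pp_213_b : CertFX 1239849684 370763052 536870912 469762048 1046898278 26843546 true true true .pnn 2 1 3
    ndF1q2b ndF6q1 pcF3 Cut.none Ext.none :=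
  certFX0 (fam := true) (s1 := true) (s2 := true) (a := 2) (b := 1) (c := 3) (cn := .pnn) (n1 := ndF1q2b) (n2 := ndF6q1) (pc := pcF3) (cut := Cut.none) (xt := Ext.none) (P1 := 1239849684) (W1 := 370763052) (P2 := 536870912) (W2 := 469762048) (P3 := 1046898278) (W3 := 26843546)
    rfl k0_pp_213_b

noncomputable def f_pp_303 : ℕ → ℕ → ℕ → ℕ → Bool := onCell 1610612736 469762048 0 536870912 1046898278 26843546
    (rowFX 0 true true true .npn 3 0 3 (qsf 1610612736 469762048 0 536870912 3) ndF1q3 ndF6q0 pcF3 Cut.none Ext.none)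

def k0_pp_303 : ∃ t, chk3 f_pp_303 t 1 1 1 = true :=
  ⟨(l 4), by decide +kernel⟩

theorem c_pp_303 : CertFX 1610612736 469762048 0 536870912 1046898278 26843546 true true true .npn 3 0 3
    ndF1q3 ndF6q0 pcF3 Cut.none Ext.none :=
  certFX0 (fam := true) (s1 := true) (s2 := true) (a := 3) (b := 0) (c := 3) (cn := .npn) (n1 := ndF1q3) (n2 := ndF6q0) (pc := pcF3) (cut := Cut.none) (xt := Ext.none) (P1 := 1610612736) (W1 := 469762048) (P2 := 0) (W2 := 536870912) (P3 := 1046898278) (W3 := 26843546)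
    rfl k0_pp_303

noncomputable def f_pp_313 : ℕ → ℕ → ℕ → ℕ → Bool := onCell 1610612736 469762048 536870912 469762048 1046898278 26843546
    (rowFX 0 true true true .dn 3 1 3 (qsf 1610612736 469762048 536870912 469762048 3) ndF1q3 ndF6q1 pcF3 Cut.none Ext.none)

def k0_pp_313 : ∃ t, chk3 f_pp_313 t 1 1 1 = true :=
  ⟨(l 4), by decide +kernel⟩

theorem c_pp_313 : CertFX 1610612736 469762048 536870912 469762048 1046898278 26843546 true true true .dn 3 1 3
    ndF1q3 ndF6q1 pcF3 Cut.none Ext.none :=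
  certFX0 (fam := true) (s1 := true) (s2 := true) (a := 3) (b := 1) (c := 3) (cn := .dn) (n1 := ndF1q3) (n2 := ndF6q1) (pc := pcF3) (cut := Cut.none) (xt := Ext.none) (P1 := 1610612736) (W1 := 469762048) (P2 := 536870912) (W2 := 469762048) (P3 := 1046898278) (W3 := 26843546)
    rfl k0_pp_313

noncomputable def f_pm_001 : ℕ → ℕ → ℕ → ℕ → Bool := onCell 67108864 469762048 536870912 536870912 1046898278 26843546
    (rowFX 1 true true false .up 0 0 1 (qsf 67108864 469762048 0 536870912 1) ndF1q0 ndF6q0 pcF1 Cut.none Ext.none)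

def k0_pm_001 : ∃ t, chk3 f_pm_001 t 1 1 1 = true :=
  ⟨(b (l 3) (b (l 3) (a (l 2) (b (l 3) (a (l 2) (b (b (l 3) (l 157938924391)) (b (l 155254178119) (c (l 15841128) (l 15831016))))))))), by decide +kernel⟩

theorem c_pm_001 : CertFX 67108864 469762048 0 536870912 1046898278 26843546 true true false .up 0 0 1
    ndF1q0 ndF6q0 pcF1 Cut.none Ext.none :=
  certFX1 (fam := true) (s1 := true) (s2 := false) (a := 0) (b := 0) (c := 1) (cn := .up) (n1 := ndF1q0) (n2 := ndF6q0) (pc := pcF1) (cut := Cut.none) (xt := Ext.none) (P1 := 67108864) (W1 := 469762048) (P2 := 0) (W2 := 536870912) (P3 := 1046898278) (W3 := 26843546)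
    rfl (fun _ => rfl) k0_pm_001

noncomputable def f_pm_011 : ℕ → ℕ → ℕ → ℕ → Bool := onCell 67108864 469762048 536870912 536870912 1046898278 26843546
    (rowFX 1 true true false .pnn 0 1 1 (qsf 67108864 469762048 536870912 469762048 1) ndF1q0 ndF6q1 pcF1 Cut.none Ext.none)

def k0_pm_011 : ∃ t, chk3 f_pm_011 t 1 1 1 = true :=
  ⟨(b (l 3) (b (l 3) (b (l 3) (b (a (l 3) (b (l 782387274119) (a (l 909625328503) (l 16020008)))) (a (a (b (l 3) (b (a (l 3) (a (l 3) (c (l 16020224) (l 1676276963991)))) (a (a (b (l 3) (c (a (c (a (l 16518000) (l 16485648)) (a (l 16484656) (l 16457712))) (c (l 16438616) (l 16420336))) (a (c (l 16458480) (a (l 16474608) (l 16450320))) (l 16373840)))) (a (b (l 3) (a (c (l 16388280) (l 16380936)) (c (l 16376696) (l 287392765287)))) (c (l 16361840) (c (l 16359528) (l 16364088))))) (a (c (l 16343152) (c (l 16340720) (b (l 16341960) (l 16344560)))) (c (l 16087736) (a (b (l 16189696) (l 16206616)) (l 16155368))))))) (a (b (l 3) (a (c (l 287928422663) (b (l 15900800)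 (l 15942104))) (c (a (b (l 15749376) (l 15834592)) (b (l 15807320) (l 15794880))) (a (b (l 306718834791) (l 15820336)) (b (l 15803512) (a (l 15772312) (l 15776080))))))) (b (c (l 15887424) (l 15899440)) (c (l 15812880) (l 15783944))))) (a (b (c (l 264306187095) (l 15904104)) (c (l 15823680) (l 15668096))) (b (c (l 15925608) (l 15915680)) (c (l 15841128) (l 15831016))))))))), by decide +kernel⟩

theorem c_pm_011 : CertFX 67108864 469762048 536870912 469762048 1046898278 26843546 true true false .pnn 0 1 1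
    ndF1q0 ndF6q1 pcF1 Cut.none Ext.none :=
  certFX1 (fam := true) (s1 := true) (s2 := false) (a := 0) (b := 1) (c := 1) (cn := .pnn) (n1 := ndF1q0) (n2 := ndF6q1) (pc := pcF1) (cut := Cut.none) (xt := Ext.none) (P1 := 67108864) (W1 := 469762048) (P2 := 536870912) (W2 := 469762048) (P3 := 1046898278) (W3 := 26843546)
    rfl (fun _ => rfl) k0_pm_011

noncomputable def f_pm_012 : ℕ → ℕ → ℕ → ℕ → Bool := onCell 1073741824 536870912 536870912 469762048 1046898278 26843546
    (rowFX 2 true true false .pnp 0 1 2 (qsf 67108864 469762048 536870912 469762048 2) ndF1q0 ndF6q1 pcF2 Cut.none Ext.none)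

def k0_pm_012 : ∃ t, chk3 f_pm_012 t 8 2 1 = true :=
  ⟨(b (a (c (a (c (b (a (l 16063264) (l 16085992)) (a (l 16023264) (l 16052696))) (l 16043200)) (l 15852832)) (a (c (l 16020664) (l 15997784)) (l 15978688))) (c (c (a (l 15993760) (b (l 15896832) (l 15703528))) (l 15930832)) (l 15908264))) (a (a (b (c (c (l 15885400) (a (l 15861448) (l 15975936))) (l 15863408)) (c (c (l 15974920) (a (l 15918800) (l 15977592))) (c (a (c (l 15878904) (l 15915352)) (l 15916448)) (l 15899536)))) (c (c (l 16005904) (l 15977480)) (c (l 15835128) (l 15929920)))) (c (a (c (l 15999952) (l 15969000)) (c (b (l 15856752) (l 15985144)) (l 15971688))) (a (l 15945888) (l 15939304))))), by decide +kernel⟩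

def k1_pm_012 : ∃ t, chk3 f_pm_012 t 8 6 1 = true :=
  ⟨(a (b (a (c (c (l 15946552) (a (l 15902936) (l 15951248))) (c (a (c (l 15893688) (a (l 15849832) (l 15877368))) (l 15899632)) (l 15866896))) (c (l 15864496) (c (l 15855240) (l 15904368)))) (b (c (a (a (b (b (l 15891200) (l 15930808)) (l 16018736)) (b (l 15809896) (l 15959768))) (b (l 16005256) (l 16180232))) (a (a (c (c (b (l 15891104) (l 16003696)) (b (a (l 15865064) (l 15901792)) (l 15931912))) (b (l 15856304) (l 15970936))) (c (b (l 15864064) (l 16080712)) (b (l 15888736) (l 16044016)))) (c (c (l 16016520) (a (l 15823456) (l 16033632))) (l 15879648)))) (c (a (a (l 16043408) (l 16081568)) (b (l 16259352) (l 16460056))) (a (c (a (a (l 16102560) (l 16060152)) (l 16226152)) (c (a (c (a (l 16113816) (l 16164752)) (l 16131720)) (l 16102224)) (l 16164624))) (c (a (l 16232960) (l 16316184)) (b (l 16267536) (l 16368392))))))) (b (c (c (l 16014416) (a (l 15973160) (l 15991912))) (a (l 15949776) (l 15994800))) (c (b (a (l 15899600)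 (c (l 16138056) (l 16120512))) (a (b (l 16399784) (l 16572136)) (l 16267224))) (b (a (l 16066840) (c (l 16032240) (l 16104520))) (a (l 16258328) (c (l 16401936) (l 16474760))))))), by decide +kernel⟩

def k2_pm_012 : ∃ t, chk3 f_pm_012 t 16 14 1 = true :=
  ⟨(c (a (b (a (b (l 16327288) (l 16301720)) (c (l 16446992) (l 16404712))) (a (l 16362944) (c (l 16563584) (l 16542440)))) (b (l 16378040) (l 16494152))) (a (c (b (a (a (b (l 16283288) (l 16365312)) (b (l 16345472) (l 16382960))) (b (l 16405480) (l 16505008))) (a (a (l 16410344) (l 16440664)) (l 16466768))) (b (a (c (a (c (b (l 16279376) (l 16382256)) (b (l 16208912) (a (l 16363704) (l 16391744)))) (b (l 16315760) (l 16295208))) (b (l 16285424) (l 16368400))) (c (b (l 16310344) (c (l 16480440) (l 16432576))) (l 16329760))) (a (a (c (c (l 16406392) (a (l 16392328) (l 16416152))) (c (a (l 16380008) (l 16398704)) (l 16390496))) (c (l 16358480) (l 16375144))) (c (c (l 16483680) (l 16478304)) (l 16470080))))) (b (c (a (l 16461496) (l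 16577400)) (l 16339896)) (c (a (l 16565632) (l 16595160)) (l 16446624))))), by decide +kernel⟩

def k3_pm_012 : ∃ t, chk3 f_pm_012 t 16 15 2 = true :=
  ⟨(a (a (b (b (l 16457432) (c (l 16424240) (b (l 16465656) (l 16477504)))) (c (b (l 16512664) (b (l 16556688) (l 16522664))) (b (l 16451496) (a (b (l 16529384) (l 16532392)) (l 16540168))))) (b (b (l 16559080) (c (l 16568504) (l 16522760))) (a (b (c (l 16673504) (l 16642776)) (b (l 16532112) (c (l 16576392) (l 16620544)))) (c (c (b (l 16608184) (l 16559184)) (l 16480936)) (c (l 16504488) (l 16567736)))))) (b (b (l 16634360) (a (l 16586976) (l 16469936))) (a (c (b (a (l 16561152) (l 16490312)) (l 16326192)) (c (b (l 16552296) (l 16476968)) (l 16426408))) (b (c (l 16450608) (l 16500128)) (c (l 16274904) (l 16419560)))))), by decide +kernel⟩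

def k4_pm_012 : ∃ t, chk3 f_pm_012 t 16 15 3 = true :=
  ⟨(a (c (b (a (b (l 16339800) (a (l 16420656) (l 16439344))) (b (l 16516096) (l 16529784))) (a (a (b (l 16487920) (l 16486376)) (c (l 16544656) (l 16533544))) (a (b (l 16609056) (l 16547448)) (b (l 16647832) (l 16662560))))) (b (a (c (a (b (l 16413976) (b (l 16423008) (l 16449608))) (b (l 16449776) (l 16479656))) (a (a (b (c (l 16394416) (l 16393000)) (c (c (l 16419040) (l 16375248)) (b (l 16401424) (l 16398544)))) (b (l 16346368) (c (l 16399544) (l 16428864)))) (b (l 16430832) (b (l 16402504) (l 16421712))))) (c (b (l 16488472) (l 16481248)) (b (l 16480392) (l 16475904)))) (a (c (a (b (l 16481592) (a (l 16506016) (l 16544136))) (l 16516352)) (c (a (a (b (l 16461816) (l 16481904)) (l 16428736)) (b (l 16522136) (l 16565920))) (a (b (c (l 16383776) (l 16467320)) (a (a (c (l 16450456) (b (l 16481752) (l 16501920))) (l 16485792)) (l 16524576))) (l 16498432)))) (c (a (a (l 16547096) (l 16610872)) (l 16540456)) (b (l 16533208) (l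 16539912)))))) (a (b (c (l 16541112) (l 16425536)) (b (c (l 16598080) (l 16523360)) (a (a (l 16626048) (l 16593424)) (l 16522624)))) (b (c (l 16585080) (l 16607928)) (b (c (l 16526368) (l 16526232)) (l 16407728))))), by decide +kernel⟩

def k5_pm_012 : ∃ t, chk3 f_pm_012 t 17 7 1 = true :=
  ⟨(b (c (b (a (l 16317832) (b (l 16309864) (l 16225960))) (a (l 16429440) (l 16247264))) (a (b (l 16332832) (l 16446672)) (b (b (c (l 16356136) (l 16336880)) (c (l 16222480) (l 16216424))) (c (l 16244640) (l 16242352))))) (c (b (a (b (a (l 16525280) (l 16441944)) (c (l 16429720) (l 16456824))) (b (l 16129064) (c (l 16206560) (l 16297872)))) (a (c (b (l 16340040) (l 16162048)) (a (l 16183080) (l 16242128))) (c (a (l 16103168) (l 16022240)) (l 16086072)))) (b (a (b (l 16436768) (c (l 16485384) (l 16483824))) (b (c (l 16295648) (l 16293944)) (l 16292032))) (a (a (l 16343744) (l 16287160)) (l 16041680))))), by decide +kernel⟩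

def k6_pm_012 : ∃ t, chk3 f_pm_012 t 9 1 2 = true :=
  ⟨(b (b (b (l 2) (a (l 15770392) (l 15482648))) (b (a (c (a (l 15897104) (l 15798904)) (l 15827312)) (a (c (l 15577752) (l 15654552)) (l 15509824))) (a (c (l 15724864) (c (l 15894200) (l 15897464))) (a (c (l 15672176) (c (l 15755872) (l 15739664))) (c (l 15629512) (l 15598752)))))) (b (a (b (c (l 15951920) (c (l 15938008) (l 15936616))) (b (c (l 16088952) (l 16080448)) (l 16271408))) (b (c (a (l 15832640) (l 15705240)) (a (c (l 15822456) (l 15826856)) (c (l 15705856) (l 15725976)))) (b (c (l 15908184) (a (l 15974344) (l 15853824))) (c (l 16283720) (l 16237784))))) (a (b (b (b (l 16328776) (l 16103840)) (a (l 16097872) (l 16015720))) (b (a (l 16073344) (l 16011576)) (a (b (l 16050392) (l 15941144)) (l 15852288)))) (b (b (c (l 16202768) (l 16115552)) (a (l 15991344) (l 16040640))) (b (a (b (l 15910432) (l 15891776)) (l 15664176)) (a (l 15607840) (l 15672264))))))), by decide +kernel⟩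

def k7_pm_012 : ∃ t, chk3 f_pm_012 t 9 1 3 = true :=
  ⟨(b (a (b (l 15708024) (l 15690904)) (b (l 15390424) (b (l 15554184) (l 15652424)))) (b (c (a (b (a (l 15990936) (l 15934600)) (b (a (l 15943856) (l 15849576)) (c (l 16457944) (l 16294544)))) (a (b (b (l 15793520) (l 15816528)) (b (a (l 15831120) (l 15869288)) (c (l 16339288) (l 16251168)))) (b (l 15724608) (b (c (l 15856928) (l 15875336)) (l 16060648))))) (b (a (l 15919560) (l 15737680)) (a (b (l 16063440) (l 16241928)) (b (l 15897392) (a (l 16258208) (l 16208032)))))) (a (b (b (b (c (l 16323328) (c (l 16316232) (l 16318784))) (c (l 16114864) (a (l 16104792) (l 16099440)))) (c (a (l 16087120) (l 16003592)) (a (l 16084648) (l 16000560)))) (b (c (a (l 16127712) (l 16000760)) (a (b (l 16124216) (l 16119824)) (l 15935024))) (a (l 15995584) (l 15875048)))) (b (c (b (c (l 16196936) (b (l 16266736) (l 16165440))) (a (l 15979160) (l 16030320))) (b (a (a (l 16142600) (l 16249088)) (l 16207944)) (a (a (l 15964304) (l 15978672)) (l 16023992))))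 (b (a (c (l 15891808) (a (l 15906264) (l 15867672))) (c (l 15861072) (b (l 15884200) (l 15815144)))) (a (l 15753640) (l 15669600))))))), by decide +kernel⟩

def k8_pm_012 : ∃ t, chk3 f_pm_012 t 5 2 1 = true :=
  ⟨(b (l 2) (c (a (a (a (b (l 15351496) (c (l 15496664) (l 15462952))) (b (l 15370904) (c (a (l 15456104) (l 15511088)) (l 15463688)))) (b (l 15809000) (l 15875648))) (a (l 16384080) (l 16776720))) (a (a (a (l 15374568) (a (l 15339064) (l 15434296))) (l 15691040)) (a (l 16438424) (l 16776704))))), by decide +kernel⟩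

def k9_pm_012 : ∃ t, chk3 f_pm_012 t 10 3 2 = true :=
  ⟨(b (a (a (b (c (l 15579584) (c (l 15586304) (l 15586664))) (b (c (l 15752672) (l 15733552)) (l 16089760))) (b (c (a (l 15539328) (l 15605088)) (b (l 15536632) (a (l 15568320) (l 15602080)))) (a (b (c (l 15697592) (l 15682376)) (l 15903248)) (c (l 15766104) (b (l 15478952) (l 15994488)))))) (b (a (c (l 15812216) (l 15831792)) (l 16051456)) (a (c (l 15897016) (b (l 15785624) (l 16210808))) (b (c (l 16180832) (l 16206528)) (l 16281736))))) (a (b (b (a (l 16325248) (a (l 16375376) (l 16311824))) (a (l 16099640) (a (l 16135296) (l 16117864)))) (a (b (l 15705560) (l 15401944)) (a (b (l 15934336) (l 15591408)) (a (b (l 15942744) (l 15582336)) (a (b (l 15912704) (l 15550904)) (b (b (l 15954368) (l 15825280)) (b (l 15627512) (l 15413624)))))))) (b (b (c (l 16184568) (l 15952352)) (l 15870776)) (b (b (l 15771376) (l 15638504)) (l 15076384))))), by decide +kernel⟩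

def k10_pm_012 : ∃ t, chk3 f_pm_012 t 10 3 3 = true :=
  ⟨(b (a (b (a (l 15552896) (l 15535848)) (a (c (b (c (l 15739160) (l 15723664)) (c (l 16078096) (l 16108088))) (l 15889712)) (c (a (b (l 15658560) (l 15895840)) (b (l 15715760) (c (l 16039928) (l 16033192)))) (l 15632480)))) (b (l 15916584) (b (l 15972240) (c (l 16123712) (l 16323848))))) (a (b (a (b (c (c (l 16366088) (l 16217344)) (l 16221192)) (c (l 16082200) (l 16081736))) (a (b (c (l 16150112) (l 16358320)) (c (l 16132640) (l 16116672))) (b (c (c (l 16377072) (l 16156344)) (l 16192352)) (c (l 16015944) (l 16098344))))) (b (a (c (l 15882624) (b (l 15950168) (l 15798608))) (a (c (l 15924160) (l 15834232)) (a (c (l 15933008) (l 15778832)) (b (l 15967200) (a (l 15805816) (l 15651600)))))) (a (l 15607960) (a (l 15587704) (a (l 15578640) (a (c (l 15552640) (l 15544512)) (b (l 15544984) (l 15408352)))))))) (b (b (c (a (l 16141720) (l 16088408)) (l 16171688)) (a (l 15917408) (l 15807472))) (b (a (l 15581480) (l 15604320)) (c (a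 (l 15418736) (l 15230640)) (l 15121248)))))), by decide +kernel⟩

def k11_pm_012 : ∃ t, chk3 f_pm_012 t 11 3 1 = true :=
  ⟨(b (a (b (c (l 16355376) (l 16475512)) (b (c (a (l 16429936) (l 16692320)) (l 16554616)) (c (l 16115424) (l 16341152)))) (b (l 16776776) (b (l 16419280) (l 16015144)))) (a (b (b (c (a (l 15877240) (l 15816800)) (l 15756552)) (c (l 15559528) (l 15564456))) (c (b (l 15311472) (l 14912176)) (b (l 15319824) (c (l 14962792) (l 14939224))))) (b (a (b (l 15723792) (l 15417640)) (l 15467320)) (c (b (l 15202072) (c (l 14798720) (l 14796064))) (b (l 15162488) (l 14765056)))))), by decide +kernel⟩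

def k12_pm_012 : ∃ t, chk3 f_pm_012 t 3 1 1 = true :=
  ⟨(b (l 2) (b (a (a (b (c (l 16777216) (l 16777216)) (b (a (l 16649800) (l 16649800)) (l 16077864))) (b (l 2) (a (b (l 2) (l 16203696)) (l 2)))) (l 2)) (a (b (a (c (l 15419856) (l 15556728)) (a (l 15404408) (l 15572176))) (c (a (b (l 15201816) (l 14794776)) (b (l 15201816) (l 14794776))) (a (b (l 15162240) (l 14764784)) (b (l 15162240) (l 14764784))))) (b (a (l 15446352) (l 2)) (c (b (l 15201816) (l 14794776)) (a (l 14938312) (l 14938312))))))), by decide +kernel⟩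

theorem s13_pm_012 : ∃ t, chk3 f_pm_012 t 10 3 1 = true := ex3_c k9_pm_012 k10_pm_012

theorem s14_pm_012 : ∃ t, chk3 f_pm_012 t 5 3 1 = true := ex3_a s13_pm_012 k11_pm_012

theorem s15_pm_012 : ∃ t, chk3 f_pm_012 t 5 1 1 = true := ex3_b k8_pm_012 s14_pm_012

theorem s16_pm_012 : ∃ t, chk3 f_pm_012 t 9 1 1 = true := ex3_c k6_pm_012 k7_pm_012

theorem s17_pm_012 : ∃ t, chk3 f_pm_012 t 16 15 1 = true := ex3_c k3_pm_012 k4_pm_012

theorem s18_pm_012 : ∃ t, chk3 f_pm_012 t 16 7 1 = true := ex3_b k2_pm_012 s17_pm_012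

theorem s19_pm_012 : ∃ t, chk3 f_pm_012 t 8 7 1 = true := ex3_a s18_pm_012 k5_pm_012

theorem s20_pm_012 : ∃ t, chk3 f_pm_012 t 8 3 1 = true := ex3_b k1_pm_012 s19_pm_012

theorem s21_pm_012 : ∃ t, chk3 f_pm_012 t 8 1 1 = true := ex3_b k0_pm_012 s20_pm_012

theorem s22_pm_012 : ∃ t, chk3 f_pm_012 t 4 1 1 = true := ex3_a s21_pm_012 s16_pm_012

theorem s23_pm_012 : ∃ t, chk3 f_pm_012 t 2 1 1 = true := ex3_a s22_pm_012 s15_pm_012

theorem s24_pm_012 : ∃ t, chk3 f_pm_012 t 1 1 1 = true := ex3_a s23_pm_012 k12_pm_012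

theorem c_pm_012 : CertFX 67108864 469762048 536870912 469762048 1046898278 26843546 true true false .pnp 0 1 2
    ndF1q0 ndF6q1 pcF2 Cut.none Ext.none :=
  certFX2 (fam := true) (s1 := true) (s2 := false) (a := 0) (b := 1) (c := 2) (cn := .pnp) (n1 := ndF1q0) (n2 := ndF6q1) (pc := pcF2) (cut := Cut.none) (xt := Ext.none) (P1 := 67108864) (W1 := 469762048) (P2 := 536870912) (W2 := 469762048) (P3 := 1046898278) (W3 := 26843546)
    rfl (fun _ => rfl) s24_pm_012

noncomputable def f_pm_022 : ℕ → ℕ → ℕ → ℕ → Bool := onCell 67108864 469762048 1073741824 536870912 1046898278 26843546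
    (rowFX 1 true true false .pp 0 2 2 (qsf 67108864 469762048 1073741824 536870912 2) ndF1q0 ndF6q2 pcF2 Cut.none Ext.none)

def k0_pm_022 : ∃ t, chk3 f_pm_022 t 1 4 1 = true :=
  ⟨(l 3), by decide +kernel⟩

def k1_pm_022 : ∃ t, chk3 f_pm_022 t 4 20 1 = true :=
  ⟨(b (l 3) (b (l 3) (b (b (l 3) (a (a (l 3) (c (l 16399056) (l 16416056))) (c (a (l 16268528) (l 186326006599)) (a (l 16258720) (l 15985968))))) (a (b (c (a (b (a (c (l 16381424) (l 16377448)) (l 16486512)) (a (c (l 16386512) (l 16382640)) (c (l 16505920) (l 16504736)))) (b (a (l 16513712) (l 16409064)) (c (l 16441872) (l 16418936)))) (a (b (a (l 16373256) (l 16504992)) (a (b (l 16376824) (l 16379704)) (l 16461104))) (b (l 16416016) (c (l 16437944) (l 16415000))))) (c (a (b (a (b (b (l 16388752) (b (l 16389824) (b (b (l 16390264) (l 16390456)) (l 16390760)))) (l 16392704)) (b (b (l 16504352) (b (l 16483024) (c (l 16441208) (l 16460984)))) (l 16503152))) (a (l 16397720) (l 16501712))) (b (b (b (a (l 16513416) (l 16409176))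 (b (a (l 16513384) (l 16409192)) (a (c (l 16493000) (l 16491872)) (l 16409200)))) (l 16461768)) (l 16461728))) (a (b (a (b (b (l 16381832) (b (l 16382944) (b (b (l 16383400) (l 16383600)) (l 16383920)))) (l 16385944)) (b (b (l 16501832) (b (l 16501464) (c (l 16459848) (l 16458704)))) (l 16500608))) (a (l 16391152) (l 16499152))) (b (b (b (l 16436936) (b (l 16415960) (b (b (l 16436928) (l 16415952)) (l 16457896)))) (l 16457888)) (l 16457864))))) (b (a (b (c (l 16269112) (l 16259344)) (c (l 16269496) (l 16259760))) (a (b (c (l 16114600) (l 16100336)) (c (b (l 16115136) (l 16115496)) (l 65530325639))) (l 1))) (b (b (b (c (a (l 16269736) (l 16046952)) (l 48350173303)) (b (c (a (l 16269808) (l 16047112)) (a (l 16260088) (l 16030888))) (b (b (c (l 107942870759) (l 16000640)) (c (a (l 16269856) (l 16047208)) (a (l 16260136) (l 16030984)))) (l 15986192)))) (l 15986368)) (l 15986856))))))), by decide +kernel⟩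

def k2_pm_022 : ∃ t, chk3 f_pm_022 t 4 21 1 = true :=
  ⟨(a (a (a (c (l 16469984) (l 16510008)) (c (b (l 16461064) (l 16453512)) (l 16435704))) (a (c (b (l 16510792) (l 16448416)) (b (l 16508768) (l 16445120))) (l 16405672))) (a (l 16271944) (l 16054544))), by decide +kernel⟩

def k3_pm_022 : ∃ t, chk3 f_pm_022 t 4 11 1 = true :=
  ⟨(a (a (b (a (b (l 16174760) (b (c (l 16104688) (l 16181640)) (c (l 16093104) (l 16171808)))) (c (l 16156608) (l 16189888))) (a (c (l 16083168) (l 16181408)) (b (c (b (l 16027512) (l 16102208)) (l 15945240)) (l 16104528)))) (b (c (a (l 16215072) (l 16257576)) (l 16014416)) (b (c (l 15962376) (l 15989528)) (a (c (l 15815104) (l 15927336)) (l 15879400))))) (a (b (b (l 16275648) (l 16223672)) (l 16029120)) (b (l 16081328) (b (l 16087240) (l 16026552))))), by decide +kernel⟩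

def k4_pm_022 : ∃ t, chk3 f_pm_022 t 5 5 1 = true :=
  ⟨(b (b (l 1) (a (a (l 15769936) (l 1)) (l 1))) (a (a (c (l 15850064) (l 15827896)) (a (l 226053587463) (l 240548844935))) (l 231421961047))), by decide +kernel⟩

def k5_pm_022 : ∃ t, chk3 f_pm_022 t 3 5 1 = true :=
  ⟨(l 1), by decide +kernel⟩

def k6_pm_022 : ∃ t, chk3 f_pm_022 t 1 3 1 = true :=
  ⟨(a (b (a (a (b (a (b (a (l 15663168) (c (l 16101464) (l 16132152))) (a (b (l 15463552) (l 15408576)) (b (l 15779808) (l 15620632)))) (b (a (c (l 16218400) (l 16301120)) (b (l 15935856) (l 16237800))) (c (l 15967336) (l 16060704)))) (a (l 15494192) (b (a (l 15764800) (l 15951416)) (l 15806856)))) (b (a (b (b (l 15822136) (a (l 15914672) (l 15734248))) (b (a (l 16209256) (l 15879344)) (l 16323752))) (b (l 15827736) (b (l 15555264) (a (l 15846328) (l 15588944))))) (a (b (l 16295416) (l 16054008)) (b (a (l 16306472) (l 15961096)) (l 16356056))))) (a (b (a (b (l 15798880) (l 15602688)) (b (l 15664368) (l 15492032))) (a (b (b (l 15427432)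 (l 15515904)) (a (l 16230784) (l 15887232))) (b (l 15406400) (a (l 15555096) (l 15230816))))) (b (b (l 15518768) (l 15584456)) (b (a (l 15548208) (l 15614704)) (a (l 15341240) (l 15527656)))))) (a (a (b (l 15555104) (l 15618016)) (b (a (l 16011960) (l 16240080)) (l 16119824))) (b (a (a (b (a (l 16515776) (l 16495240)) (l 16490304)) (b (l 15840008) (a (l 16688520) (l 16453568)))) (b (a (b (l 15342272) (l 15565656)) (l 15330976)) (a (l 16029984) (l 15303368)))) (a (l 16598712) (b (a (l 16574048) (l 16087160)) (a (l 16773360) (l 16616400))))))) (b (a (b (a (l 273834799735) (l 1)) (a (b (l 15535944) (l 15590600)) (l 15428608))) (l 1)) (a (b (a (b (a (l 15504480) (l 15610024)) (a (l 15328960) (l 15478744))) (b (l 15553024) (l 15588480))) (a (b (a (l 15488096) (l 15335064)) (a (l 16122408) (l 15658816))) (b (l 15502760) (a (l 15349136) (l 15419768))))) (b (a (l 304973266167) (l 1)) (a (b (l 15570024) (l 15578368)) (l 15484504)))))), by decide +kernel⟩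

theorem s7_pm_022 : ∃ t, chk3 f_pm_022 t 4 10 1 = true := ex3_b k1_pm_022 k2_pm_022

theorem s8_pm_022 : ∃ t, chk3 f_pm_022 t 4 5 1 = true := ex3_b s7_pm_022 k3_pm_022

theorem s9_pm_022 : ∃ t, chk3 f_pm_022 t 2 5 1 = true := ex3_a s8_pm_022 k4_pm_022

theorem s10_pm_022 : ∃ t, chk3 f_pm_022 t 1 5 1 = true := ex3_a s9_pm_022 k5_pm_022

theorem s11_pm_022 : ∃ t, chk3 f_pm_022 t 1 2 1 = true := ex3_b k0_pm_022 s10_pm_022

theorem s12_pm_022 : ∃ t, chk3 f_pm_022 t 1 1 1 = true := ex3_b s11_pm_022 k6_pm_022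

theorem c_pm_022 : CertFX 67108864 469762048 1073741824 536870912 1046898278 26843546 true true false .pp 0 2 2
    ndF1q0 ndF6q2 pcF2 Cut.none Ext.none :=
  certFX1 (fam := true) (s1 := true) (s2 := false) (a := 0) (b := 2) (c := 2) (cn := .pp) (n1 := ndF1q0) (n2 := ndF6q2) (pc := pcF2) (cut := Cut.none) (xt := Ext.none) (P1 := 67108864) (W1 := 469762048) (P2 := 1073741824) (W2 := 536870912) (P3 := 1046898278) (W3 := 26843546)
    rfl (fun _ => rfl) s12_pm_022

noncomputable def f_pm_023 : ℕ → ℕ → ℕ → ℕ → Bool := onCell 67108864 469762048 1073741824 536870912 1046898278 26843546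
    (rowFX 0 true true false .up 0 2 3 (qsf 67108864 469762048 1073741824 536870912 3) ndF1q0 ndF6q2 pcF3 Cut.none Ext.none)

def k0_pm_023 : ∃ t, chk3 f_pm_023 t 1 1 1 = true :=
  ⟨(b (a (b (l 1) (a (l 1) (b (l 1) (b (l 870837135223) (l 16689936))))) (b (b (a (l 1) (l 15561360)) (a (l 264171009511) (l 110089057767))) (b (b (b (l 15213640) (l 15347992)) (l 15683544)) (b (l 16447976) (l 16776784))))) (a (a (a (b (l 1) (a (l 15494192) (l 15806856))) (b (l 16119824) (l 16119824))) (b (a (l 16596184) (l 16777216)) (a (l 16596184) (l 16777216)))) (b (b (l 16777216) (l 16777208)) (a (l 16777200) (b (a (l 16777192) (b (l 16774984) (a (l 16774136) (l 16751872)))) (a (b (l 16769848) (a (l 16770728) (l 16745848))) (b (a (l 16749544) (l 16732648)) (a (l 16735096) (b (a (l 16747120) (b (l 16763224) (l 16735480))) (a (b (l 16759304) (l 16732664)) (b (c (l 16727904) (l 16717968)) (a (l 16718784) (b (l 16702048) (a (l 16704112) (l 4))))))))))))))), by decide +kernel⟩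

theorem c_pm_023 : CertFX 67108864 469762048 1073741824 536870912 1046898278 26843546 true true false .up 0 2 3
    ndF1q0 ndF6q2 pcF3 Cut.none Ext.none :=
  certFX0 (fam := true) (s1 := true) (s2 := false) (a := 0) (b := 2) (c := 3) (cn := .up) (n1 := ndF1q0) (n2 := ndF6q2) (pc := pcF3) (cut := Cut.none) (xt := Ext.none) (P1 := 67108864) (W1 := 469762048) (P2 := 1073741824) (W2 := 536870912) (P3 := 1046898278) (W3 := 26843546)
    rfl k0_pm_023

noncomputable def f_pm_033 : ℕ → ℕ → ℕ → ℕ → Bool := onCell 1610612736 536870912 0 1230186008 1046898278 26843546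
    (rowFX 2 true true false .pnn 0 3 3 (qsf 67108864 469762048 0 1230186008 3) ndF1q0 ndF6q3 pcF3 Cut.none Ext.none)

def k0_pm_033 : ∃ t, chk3 f_pm_033 t 2 1 1 = true :=
  ⟨(b (l 1) (b (l 1) (b (a (l 1) (a (l 1) (a (b (l 1) (b (l 1) (c (l 15302856) (l 15276952)))) (b (b (l 1) (c (l 15070136) (l 14950968))) (c (b (l 15341528) (l 15640256)) (l 15258208)))))) (a (b (l 1) (a (b (l 1) (a (l 1) (l 342553167991))) (b (a (l 1) (l 350069898359)) (a (l 15083600) (l 15649720))))) (b (a (b (a (l 1) (l 335037474391)) (a (l 328058158567) (l 15604296))) (c (b (l 15676376) (l 16046200)) (b (l 15644808) (l 16027176)))) (a (b (a (l 15618072) (l 15914976)) (a (l 15944072) (l 16202616))) (b (l 16316720) (l 16575528)))))))), by decide +kernel⟩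

def k1_pm_033 : ∃ t, chk3 f_pm_033 t 3 1 1 = true :=
  ⟨(a (b (l 1) (b (b (l 1) (a (b (l 1) (a (l 1) (b (l 1) (c (l 15203768) (l 15176928))))) (a (b (b (l 1) (c (l 15080792) (l 15050072))) (c (l 223369167831) (l 15267656))) (b (c (a (l 14967576) (l 15395352)) (b (l 15166456) (l 15383496))) (c (l 15744896) (l 15708664)))))) (b (c (a (b (a (b (l 15125848) (l 15397336)) (l 15473752)) (a (l 15766440) (l 16081880))) (b (l 16005688) (l 16351832))) (a (b (a (b (l 15096728) (l 15366456)) (l 15566872)) (a (l 15719560) (l 16063800))) (b (l 15923208) (l 16217128)))) (a (b (b (l 16305744) (l 16511576)) (l 16728784)) (b (l 16727400) (l 16777160)))))) (a (b (l 1) (a (b (b (b (l 1) (a (c (l 15150208) (l 15123376)) (c (l 314636532327) (l 15288576)))) (b (c (a (l 15574040) (l 15739632)) (l 15588408)) (c (l 16007016) (l 16008504)))) (b (b (l 16292296) (l 16727488)) (l 16775864))) (b (a (b (b (l 4) (c (l 313764445191) (l 15467176))) (b (c (l 15882608) (l 15858976)) (l 16203032))) (b (l 4) (b (a (l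 15965776) (l 4)) (c (l 16344968) (l 16332848))))) (b (b (a (l 16602368) (l 16688816)) (l 16761008)) (a (l 16755312) (l 16754272)))))) (b (l 4) (a (b (a (b (l 4) (a (b (l 4) (l 16447200)) (l 4))) (l 4)) (b (a (c (l 16542752) (l 16519536)) (c (l 16761512) (l 16757376))) (a (l 16753864) (l 16756880)))) (b (l 4) (a (c (l 800172793191) (l 872650284055)) (a (l 825405651255) (a (l 822183949495) (b (l 4) (l 4)))))))))), by decide +kernel⟩

theorem s2_pm_033 : ∃ t, chk3 f_pm_033 t 1 1 1 = true := ex3_a k0_pm_033 k1_pm_033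

theorem c_pm_033 : CertFX 67108864 469762048 0 1230186008 1046898278 26843546 true true false .pnn 0 3 3
    ndF1q0 ndF6q3 pcF3 Cut.none Ext.none :=
  certFX2 (fam := true) (s1 := true) (s2 := false) (a := 0) (b := 3) (c := 3) (cn := .pnn) (n1 := ndF1q0) (n2 := ndF6q3) (pc := pcF3) (cut := Cut.none) (xt := Ext.none) (P1 := 67108864) (W1 := 469762048) (P2 := 0) (W2 := 1230186008) (P3 := 1046898278) (W3 := 26843546)
    rfl (fun _ => rfl) s2_pm_033

noncomputable def f_pm_101 : ℕ → ℕ → ℕ → ℕ → Bool := onCell 536870912 536870912 0 536870912 1046898278 26843546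
    (rowFX 2 true true false .npn 1 0 1 (qsf 536870912 536870912 0 536870912 1) ndF1q1 ndF6q0 pcF1 Cut.none Ext.none)

def k0_pm_101 : ∃ t, chk3 f_pm_101 t 2 1 1 = true :=
  ⟨(l 3), by decide +kernel⟩

def k1_pm_101 : ∃ t, chk3 f_pm_101 t 3 2 1 = true :=
  ⟨(a (l 3) (b (a (b (b (b (c (a (b (l 15768656) (l 60832695911)) (b (l 15590376) (c (l 15718000) (l 15606800)))) (b (a (c (l 15704704) (l 142436159463)) (c (l 15411416) (l 15292272))) (a (l 15764536) (l 15455208)))) (c (a (b (l 15880696) (l 15925648)) (l 15731832)) (a (l 15871568) (l 15597384)))) (a (c (l 16043216) (l 16009576)) (c (b (l 15839680) (l 15926960)) (l 15787856)))) (a (b (l 16154344) (l 16298352)) (b (c (l 16017744) (l 15942104)) (l 16087840)))) (b (a (b (b (c (b (l 15696848) (c (l 15782920) (l 15568160))) (b (b (l 15003256) (l 14926248)) (l 15260360))) (c (a (l 15676888) (l 15701320)) (l 15417208))) (c (a (l 15790144) (l 15759096)) (l 15614840))) (b (c (b (a (b (l 16168904) (c (l 16122616) (l 15805832))) (b (l 16022960)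 (c (l 16026016) (l 16026128)))) (a (l 15798496) (a (l 15900480) (l 15952544)))) (b (a (b (c (l 15551616) (l 15004960)) (l 15331656)) (c (b (l 15898200) (l 15720304)) (a (l 15398208) (l 15428816)))) (a (l 15464288) (l 15421096)))) (a (c (l 15781440) (l 15628112)) (c (l 15850616) (l 15748992))))) (a (b (a (l 15841536) (l 15773976)) (a (l 15924696) (l 15822744))) (b (a (c (l 15812632) (l 15715672)) (c (l 15846432) (l 15776144))) (a (l 15705296) (c (l 15797952) (l 15730808))))))) (a (a (l 3) (b (l 16207696) (l 16342448))) (a (b (a (l 16036008) (l 15921512)) (a (l 16164408) (l 16047016))) (b (a (l 15770800) (c (l 15785600) (l 15674592))) (a (l 15856368) (c (l 15895000) (l 15876288)))))))), by decide +kernel⟩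

def k2_pm_101 : ∃ t, chk3 f_pm_101 t 3 3 1 = true :=
  ⟨(a (l 3) (a (a (l 3) (b (l 705078189671) (l 3))) (a (b (a (l 16173464) (l 16048264)) (a (l 16165744) (l 117606558247))) (b (a (c (l 15967336) (l 15955048)) (c (l 15891080) (l 15877160))) (a (c (l 15941976) (l 15931120)) (c (l 15862440) (l 15850704))))))), by decide +kernel⟩

theorem s3_pm_101 : ∃ t, chk3 f_pm_101 t 3 1 1 = true := ex3_b k1_pm_101 k2_pm_101

theorem s4_pm_101 : ∃ t, chk3 f_pm_101 t 1 1 1 = true := ex3_a k0_pm_101 s3_pm_101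

theorem c_pm_101 : CertFX 536870912 536870912 0 536870912 1046898278 26843546 true true false .npn 1 0 1
    ndF1q1 ndF6q0 pcF1 Cut.none Ext.none :=
  certFX2 (fam := true) (s1 := true) (s2 := false) (a := 1) (b := 0) (c := 1) (cn := .npn) (n1 := ndF1q1) (n2 := ndF6q0) (pc := pcF1) (cut := Cut.none) (xt := Ext.none) (P1 := 536870912) (W1 := 536870912) (P2 := 0) (W2 := 536870912) (P3 := 1046898278) (W3 := 26843546)
    rfl (fun _ => rfl) s4_pm_101

noncomputable def f_pm_102 : ℕ → ℕ → ℕ → ℕ → Bool := onCell 536870912 536870912 1073741824 536870912 1046898278 26843546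
    (rowFX 1 true true false .npp 1 0 2 (qsf 536870912 536870912 0 536870912 2) ndF1q1 ndF6q0 pcF2 Cut.none Ext.none)

def k0_pm_102 : ∃ t, chk3 f_pm_102 t 1 4 1 = true :=
  ⟨(a (b (b (a (c (b (l 15880848) (l 16059704)) (b (c (l 16108904) (l 16090608)) (l 16015640))) (c (b (a (l 16215472) (l 16278504)) (l 16104040)) (b (c (l 16231152) (l 16219200)) (l 16074600)))) (a (c (b (l 15962360) (l 15867016)) (l 15884808)) (c (b (l 15943160) (a (l 15802344) (l 15751704))) (b (l 15915792) (l 15747744))))) (a (b (c (l 15668040) (l 15660744)) (c (l 99955425351) (l 15379704))) (b (a (c (l 15558904) (l 15527256)) (c (l 15319384) (l 15431880))) (a (c (l 15213376) (l 15172760)) (c (b (l 15186240) (l 15013136)) (l 14975152)))))) (a (b (b (a (c (b (a (l 16330152) (l 16324672)) (l 16126496)) (b (a (l 16315904) (l 16287728)) (l 16107376))) (l 16062792)) (a (a (c (b (l 15928672) (l 15724904)) (l 15801576)) (l 15797112)) (l 15751048))) (b (a (b (a (l 15512008) (l 15507544)) (l 15327896)) (l 15411400))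 (l 15070240))) (b (a (b (a (l 16155088) (b (l 16296904) (l 16143288))) (l 15918480)) (b (a (b (c (l 16288240) (l 16268184)) (l 16021752)) (b (a (c (l 16102144) (l 16189672)) (c (b (a (l 16117112) (l 16107720)) (c (l 16024232) (l 16090048))) (b (a (l 16228248) (c (l 16092168) (l 16079872))) (l 16068880)))) (c (a (l 15960248) (l 15917512)) (l 15901224)))) (a (l 15450600) (c (l 15576008) (l 15535336))))) (a (b (l 15569816) (l 15243136)) (b (a (l 15297384) (b (l 15238552) (l 15037736))) (l 14828984)))))), by decide +kernel⟩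

def k1_pm_102 : ∃ t, chk3 f_pm_102 t 1 5 1 = true :=
  ⟨(b (a (b (a (b (c (l 15194512) (l 15153400)) (l 2)) (a (b (l 14930872) (c (l 14897584) (l 15021312))) (a (b (l 14819944) (a (l 14808256) (l 14975440))) (l 14900896)))) (a (l 2) (a (c (l 15586952) (l 15620408)) (a (l 15609296) (l 15617656))))) (a (b (b (l 14836696) (l 15004080)) (l 15626296)) (b (b (a (l 15031112) (l 14563128)) (a (l 15161240) (l 14674288))) (a (l 15654760) (l 15177960))))) (a (b (a (l 2) (a (c (l 16397296) (l 16387328)) (l 16390656))) (c (l 16776720) (l 16776720))) (a (b (l 16301776) (l 16760848)) (b (a (l 16239024) (l 15802248)) (a (l 16517136) (l 16113208)))))), by decide +kernel⟩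

def k2_pm_102 : ∃ t, chk3 f_pm_102 t 1 3 1 = true :=
  ⟨(a (b (c (l 114454167559) (l 16777216)) (l 2)) (b (a (l 16761352) (a (l 16517520) (l 16113632))) (a (l 16761352) (l 16314568)))), by decide +kernel⟩

theorem s3_pm_102 : ∃ t, chk3 f_pm_102 t 1 2 1 = true := ex3_b k0_pm_102 k1_pm_102

theorem s4_pm_102 : ∃ t, chk3 f_pm_102 t 1 1 1 = true := ex3_b s3_pm_102 k2_pm_102

theorem c_pm_102 : CertFX 536870912 536870912 0 536870912 1046898278 26843546 true true false .npp 1 0 2
    ndF1q1 ndF6q0 pcF2 Cut.none Ext.none :=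
  certFX1 (fam := true) (s1 := true) (s2 := false) (a := 1) (b := 0) (c := 2) (cn := .npp) (n1 := ndF1q1) (n2 := ndF6q0) (pc := pcF2) (cut := Cut.none) (xt := Ext.none) (P1 := 536870912) (W1 := 536870912) (P2 := 0) (W2 := 536870912) (P3 := 1046898278) (W3 := 26843546)
    rfl (fun _ => rfl) s4_pm_102

noncomputable def f_pm_112 : ℕ → ℕ → ℕ → ℕ → Bool := onCell 1073741824 536870912 536870912 469762048 1046898278 26843546
    (rowFX 2 true true false .dn 1 1 2 (qsf 536870912 536870912 536870912 469762048 2) ndF1q1 ndF6q1 pcF2 Cut.none Ext.none)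

def k0_pm_112 : ∃ t, chk3 f_pm_112 t 1 1 1 = true :=
  ⟨(a (a (b (b (a (a (b (b (c (l 15955376) (l 15955608)) (a (l 1) (l 15890616))) (l 1)) (c (c (a (l 15993760) (l 133175366327)) (l 15930832)) (l 15908264))) (a (a (l 162166093095) (c (l 15667128) (l 15638296))) (c (a (l 15515904) (l 15337896)) (l 15348480)))) (b (a (l 1) (a (l 1) (a (b (l 15624728) (l 1)) (l 15493360)))) (l 1))) (l 1)) (a (b (a (b (a (c (l 15153144) (l 15110960)) (c (a (l 15135784) (l 15275104)) (l 15057896))) (b (a (l 15332976) (c (l 15370904) (l 15334376))) (l 1))) (a (b (c (l 15530264) (l 15497208)) (b (l 15639840) (l 15717048))) (b (b (l 15831784) (l 15893560)) (l 218537923575)))) (l 1)) (b (a (b (a (b (l 16205864) (l 16233744)) (c (l 16577896) (l 16572624))) (a (l 16163432) (l 16597504))) (c (l 16818664) (b (l 16776672) (l 16776704)))) (b (b (a (a (l 1) (l 16627656)) (l 16776776)) (l 1)) (l 1))))) (b (a (a (a (l 16777216) (l 16776160)) (a (l 16773024) (l 16765240))) (b (a (l 16694912) (l 16447432)) (l 16772752)))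 (b (a (b (a (l 258268463063) (a (l 16777216) (l 16777216))) (a (b (l 374232139143) (l 16014952)) (a (b (l 16649800) (l 16203696)) (l 16430144)))) (b (l 16777216) (b (l 16649800) (l 16203696)))) (a (b (a (l 1) (a (l 15383432) (l 15572176))) (l 1)) (b (a (l 15425376) (l 15572176)) (c (b (l 15201816) (l 14794776)) (a (l 14938312) (l 14938312)))))))), by decide +kernel⟩

theorem c_pm_112 : CertFX 536870912 536870912 536870912 469762048 1046898278 26843546 true true false .dn 1 1 2
    ndF1q1 ndF6q1 pcF2 Cut.none Ext.none :=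
  certFX2 (fam := true) (s1 := true) (s2 := false) (a := 1) (b := 1) (c := 2) (cn := .dn) (n1 := ndF1q1) (n2 := ndF6q1) (pc := pcF2) (cut := Cut.none) (xt := Ext.none) (P1 := 536870912) (W1 := 536870912) (P2 := 536870912) (W2 := 469762048) (P3 := 1046898278) (W3 := 26843546)
    rfl (fun _ => rfl) k0_pm_112

noncomputable def f_pm_113 : ℕ → ℕ → ℕ → ℕ → Bool := onCell 1610612736 536870912 536870912 469762048 1046898278 26843546
    (rowFX 2 true true false .nn 1 1 3 (qsf 536870912 536870912 536870912 469762048 3) ndF1q1 ndF6q1 pcF3 Cut.none Ext.none)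

def k0_pm_113 : ∃ t, chk3 f_pm_113 t 1 1 1 = true :=
  ⟨(b (a (a (a (b (b (l 15909176) (l 16239104)) (l 16647224)) (b (b (l 2) (l 15866432)) (b (l 16189616) (l 16535824)))) (b (l 2) (a (a (l 16071160) (l 15766656)) (b (l 2) (c (l 15672928) (l 15752376)))))) (l 2)) (b (a (a (b (a (l 16767800) (l 16750424)) (l 16374488)) (a (b (l 16490344) (a (l 16441144) (l 16365816))) (b (a (l 16188088) (l 15995808)) (a (l 16211552) (l 16014536))))) (a (a (a (b (l 108143515783) (l 15779232)) (a (b (l 2) (l 15681376)) (l 4))) (b (l 2) (l 4))) (l 2))) (a (a (b (l 15467712) (b (l 15182144) (c (l 14794776) (l 14764784)))) (a (b (l 15585872) (b (l 15183848) (l 14779080))) (b (a (l 15571432) (l 15481144)) (c (l 14988624) (l 14956632))))) (a (a (b (a (l 15325592) (c (l 15218104) (l 15099056))) (a (b (l 15147576) (l 14803072)) (c (l 14864976) (l 14805640)))) (a (b (l 4) (c (l 150018249287) (l 14630168))) (l 4))) (l 4))))), by decide +kernel⟩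

theorem c_pm_113 : CertFX 536870912 536870912 536870912 469762048 1046898278 26843546 true true false .nn 1 1 3
    ndF1q1 ndF6q1 pcF3 Cut.none Ext.none :=
  certFX2 (fam := true) (s1 := true) (s2 := false) (a := 1) (b := 1) (c := 3) (cn := .nn) (n1 := ndF1q1) (n2 := ndF6q1) (pc := pcF3) (cut := Cut.none) (xt := Ext.none) (P1 := 536870912) (W1 := 536870912) (P2 := 536870912) (W2 := 469762048) (P3 := 1046898278) (W3 := 26843546)
    rfl (fun _ => rfl) k0_pm_113

noncomputable def f_pm_123 : ℕ → ℕ → ℕ → ℕ → Bool := onCell 1610612736 536870912 1073741824 536870912 1046898278 26843546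
    (rowFX 2 true true false .npn 1 2 3 (qsf 536870912 536870912 1073741824 536870912 3) ndF1q1 ndF6q2 pcF3 Cut.none Ext.none)

def k0_pm_123 : ∃ t, chk3 f_pm_123 t 2 1 1 = true :=
  ⟨(b (b (a (b (a (l 15561360) (l 15561360)) (b (l 15626768) (l 15403352))) (b (a (l 15561360) (l 15561360)) (b (l 15626768) (l 15403352)))) (b (a (b (l 15281464) (l 1)) (b (l 15260496) (l 15851320))) (b (l 122439248935) (l 16776784)))) (a (l 1) (l 272763977687))), by decide +kernel⟩

def k1_pm_123 : ∃ t, chk3 f_pm_123 t 3 1 1 = true :=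
  ⟨(a (b (b (b (a (l 15562848) (a (l 15568296) (l 15570600))) (a (l 15512040) (l 15386584))) (b (b (b (l 15213616) (l 15347968)) (l 15851304)) (b (l 16468928) (l 16776776)))) (b (l 16777216) (l 16777184))) (a (b (b (a (b (a (l 15560280) (l 15542312)) (a (l 15512176) (l 15509056))) (b (a (l 15516232) (b (a (l 15396616) (l 15394232)) (l 15574224))) (b (l 15602360) (l 15374456)))) (b (a (b (l 15280064) (l 15849800)) (b (l 15252152) (l 15819864))) (a (l 16458304) (b (l 16435360) (l 16742208))))) (a (l 16777120) (b (l 16777216) (l 16750072)))) (a (b (b (b (b (a (c (l 15507032) (l 15334384)) (c (a (l 15587328) (l 15816944)) (a (l 15367632) (l 15398632)))) (a (a (l 15594544) (l 15624600)) (a (l 15666416) (l 15626728)))) (a (b (b (l 15645008) (l 15583888)) (l 15367408)) (b (a (l 15655768) (l 15688496)) (a (l 15374232) (l 15377864))))) (b (a (b (l 15247496) (l 15815744)) (b (l 15189640) (l 15831816))) (b (a (l 16426328) (l 16445952)) (l 16736608)))) (a (l 16944736) (l 16861104))) (b (a (b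 (b (b (l 4) (c (l 531198428711) (l 510796821575))) (c (b (a (l 15771880) (l 15847632)) (l 15444440)) (b (l 143577043463) (l 15364216)))) (b (c (b (a (l 15274400) (l 15280272)) (l 15846216)) (b (b (l 15128784) (l 15271624)) (l 15788792))) (b (a (l 16455872) (l 16442256)) (l 16752512)))) (b (b (l 4) (l 4)) (b (a (b (c (l 15082944) (l 15198064)) (l 15710376)) (l 4)) (a (b (c (l 16451640) (l 16416536)) (l 16720592)) (a (b (l 16418288) (l 16723584)) (a (l 2493462491367) (l 4))))))) (b (a (l 16776928) (a (l 16777216) (a (l 16860816) (a (l 16776976) (a (l 16777032) (l 16777216)))))) (a (l 16770264) (a (l 16756520) (a (l 16745496) (a (l 16732376) (l 16755616)))))))))), by decide +kernel⟩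

theorem s2_pm_123 : ∃ t, chk3 f_pm_123 t 1 1 1 = true := ex3_a k0_pm_123 k1_pm_123

theorem c_pm_123 : CertFX 536870912 536870912 1073741824 536870912 1046898278 26843546 true true false .npn 1 2 3
    ndF1q1 ndF6q2 pcF3 Cut.none Ext.none :=
  certFX2 (fam := true) (s1 := true) (s2 := false) (a := 1) (b := 2) (c := 3) (cn := .npn) (n1 := ndF1q1) (n2 := ndF6q2) (pc := pcF3) (cut := Cut.none) (xt := Ext.none) (P1 := 536870912) (W1 := 536870912) (P2 := 1073741824) (W2 := 536870912) (P3 := 1046898278) (W3 := 26843546)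
    rfl (fun _ => rfl) s2_pm_123

noncomputable def f_pm_133 : ℕ → ℕ → ℕ → ℕ → Bool := onCell 536870912 536870912 0 1230186008 1046898278 26843546
    (rowFX 0 true true false .dn 1 3 3 (qsf 536870912 536870912 0 1230186008 3) ndF1q1 ndF6q3 pcF3 Cut.none Ext.none)

def k0_pm_133 : ∃ t, chk3 f_pm_133 t 1 1 1 = true :=
  ⟨(b (l 2) (b (l 2) (a (b (l 2) (a (b (l 2) (l 4)) (l 2))) (l 2)))), by decide +kernel⟩

theorem c_pm_133 : CertFX 536870912 536870912 0 1230186008 1046898278 26843546 true true false .dn 1 3 3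
    ndF1q1 ndF6q3 pcF3 Cut.none Ext.none :=
  certFX0 (fam := true) (s1 := true) (s2 := false) (a := 1) (b := 3) (c := 3) (cn := .dn) (n1 := ndF1q1) (n2 := ndF6q3) (pc := pcF3) (cut := Cut.none) (xt := Ext.none) (P1 := 536870912) (W1 := 536870912) (P2 := 0) (W2 := 1230186008) (P3 := 1046898278) (W3 := 26843546)
    rfl k0_pm_133

noncomputable def f_pm_202_a : ℕ → ℕ → ℕ → ℕ → Bool := onCell 0 420477299 0 536870912 1046898278 26843546
    (rowFX 0 true true false .pp 2 0 2 (qsf 0 420477299 0 536870912 2) ndF1q2a ndF6q0 pcF2 Cut.none Ext.none)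

def k0_pm_202_a : ∃ t, chk3 f_pm_202_a t 2 4 1 = true :=
  ⟨(b (b (a (b (c (b (l 15988008) (b (l 16042184) (l 16083696))) (b (c (l 15970312) (b (l 15936736) (l 15981064))) (l 15965800))) (c (b (l 16149288) (l 16210392)) (l 16144760))) (b (b (a (c (l 15915280) (c (l 15895976) (b (l 15856968) (l 15910024)))) (c (a (l 15833672) (l 15748392)) (b (c (l 15775656) (a (l 15771608) (l 15741264))) (c (a (l 15835016) (l 15768928)) (l 15792776))))) (c (c (a (l 16009952) (l 15899248)) (a (l 16007432) (l 15895352))) (c (l 15900792) (l 15923600)))) (c (a (l 16026880) (b (l 16017720) (l 16116856))) (a (l 16118760) (l 16027912))))) (a (c (b (l 16273048) (l 16343648)) (l 16186736)) (b (c (l 16090992) (l 16231512)) (c (l 16293192) (l 16364256))))) (a (b (a (c (l 16273584) (l 16306472)) (c (l 16317904) (l 16331072))) (a (l 16533848) (l 16534120))) (b (b (a (b (l 16453664) (l 16487392)) (l 16411600)) (a (l 16505168) (l 16480872))) (l 16518096)))), by decide +kernel⟩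

def k1_pm_202_a : ∃ t, chk3 f_pm_202_a t 6 8 1 = true :=
  ⟨(b (b (b (a (c (a (l 15785016) (l 15817560)) (c (b (l 15788848) (l 15701816)) (b (c (l 15777880) (l 15770592)) (l 15753088)))) (c (b (l 15930512) (l 15882832)) (c (b (l 15904864) (l 15698536)) (b (c (l 15894904) (l 15846352)) (l 15855952))))) (a (c (b (a (c (l 15769232) (l 15764104)) (l 15774184)) (a (l 15655184) (c (l 15764680) (l 15766688)))) (c (a (l 15736432) (l 15755408)) (a (l 15756696) (l 15733232)))) (c (b (c (l 15847208) (l 15843424)) (c (l 15822688) (l 15825872))) (c (l 15821480) (l 15799832))))) (a (c (b (a (l 15900800) (c (l 15738664) (l 15805432))) (l 15964056)) (a (l 15913600) (b (l 15765816) (l 15865264)))) (c (b (a (c (l 15787792) (l 15770080)) (c (l 15828672) (l 15811360))) (a (l 15787528) (l 15767208))) (a (b (l 15729288) (l 15755304)) (b (l 15770880) (l 15712232)))))) (a (c (b (l 16104976) (l 16272480)) (b (l 16072656) (l 16256432))) (b (c (a (l 15955760) (b (l 15781704) (l 15877408))) (a (l 15918856)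 (l 15646792))) (c (l 16013360) (l 16076152))))), by decide +kernel⟩

def k2_pm_202_a : ∃ t, chk3 f_pm_202_a t 7 16 1 = true :=
  ⟨(a (b (c (b (a (c (l 16046936) (l 16031816)) (c (l 16101712) (b (l 16120440) (l 16054584)))) (c (b (a (l 15961112) (l 16004016)) (a (l 15925440) (l 15960312))) (b (a (l 15959064) (l 16002696)) (a (l 15930464) (l 15966152))))) (b (a (c (b (l 16046432) (b (l 16005304) (l 15983280))) (b (b (l 15942104) (l 15935800)) (l 15986824))) (c (b (l 16105552) (b (l 16060688) (l 16035120))) (b (c (b (l 16111480) (l 16082928)) (c (l 16009408) (l 16090328))) (l 16041160)))) (c (a (l 15933008) (l 15973112)) (l 15888632)))) (c (c (b (a (l 15889376) (l 15912472)) (l 15718152)) (a (l 15765040) (l 15759080))) (a (l 15791368) (l 15806184)))) (b (c (c (b (a (l 16103104) (l 16009032)) (a (b (b (l 16035552) (l 16008936)) (l 15981816)) (b (a (l 15998072) (l 15941392)) (l 15945968)))) (b (a (b (l 16115824) (l 16066400)) (l 15908872)) (a (b (l 16021824) (l 15988336)) (b (l 15944208)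 (l 15952416))))) (b (c (b (a (l 16100632) (l 15988240)) (a (b (l 16071080) (l 16050208)) (b (l 15976128) (l 15971816)))) (b (a (c (b (l 16102648) (l 16085240)) (c (l 15983296) (l 16085128))) (c (l 15978696) (b (l 15975168) (l 15970440)))) (a (l 16011352) (l 15923688)))) (a (c (b (l 16020584) (l 15971144)) (l 15972616)) (c (b (l 15858512) (l 15934504)) (l 15921816))))) (c (a (b (c (b (l 15953584) (l 15918184)) (b (l 15945704) (l 15891904))) (c (l 15842480) (l 15805496))) (b (c (l 15847760) (l 15893784)) (l 15806600))) (a (c (b (l 15885632) (l 15776488)) (l 15811680)) (c (l 15809816) (l 15791120)))))), by decide +kernel⟩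

def k3_pm_202_a : ∃ t, chk3 f_pm_202_a t 7 17 1 = true :=
  ⟨(a (b (a (c (b (l 15645920) (a (l 15765216) (l 15689144))) (b (l 15683048) (l 15697096))) (c (b (l 15714336) (l 15629464)) (l 15626656))) (a (c (l 15863832) (l 15857808)) (c (b (a (l 15648560) (l 15561192)) (l 15690336)) (b (l 15579840) (l 15660808))))) (a (b (c (b (l 15714064) (l 15607816)) (l 15617096)) (c (b (l 15514040) (a (l 15496464) (l 15423528))) (b (l 15476248) (l 15434544)))) (c (b (c (l 15659424) (b (l 15677952) (l 15573944))) (c (l 15450216) (l 15426504))) (b (a (l 15607592) (l 15589064)) (l 15400136))))), by decide +kernel⟩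

def k4_pm_202_a : ∃ t, chk3 f_pm_202_a t 3 9 1 = true :=
  ⟨(a (b (a (b (l 16331040) (a (l 16553576) (l 16529312))) (c (l 16179576) (l 16211320))) (a (b (l 16552272) (l 16609992)) (b (a (l 16599192) (l 16560400)) (l 16638616)))) (a (b (b (c (l 15778736) (l 15779248)) (a (l 16292120) (l 16079584))) (a (b (l 16468008) (c (l 16619216) (l 16615384))) (l 16185816))) (b (b (a (c (l 15496848) (l 15507488)) (b (c (l 15313936) (l 15275584)) (a (l 15366424) (l 15225416)))) (a (l 15804752) (l 15468176))) (a (l 15926208) (b (l 15716288) (l 15953144)))))), by decide +kernel⟩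

def k5_pm_202_a : ∃ t, chk3 f_pm_202_a t 1 5 1 = true :=
  ⟨(a (b (a (b (a (l 4) (l 16579320)) (l 4)) (b (c (l 16656376) (l 16653584)) (a (c (l 16714440) (l 16713064)) (l 16688848)))) (a (l 4) (a (l 4) (b (c (l 16737200) (l 16736168)) (l 16777160))))) (a (b (b (a (l 16644280) (l 16649856)) (c (l 16699688) (l 16697736))) (c (b (l 16756544) (l 16776568)) (b (l 16714112) (l 16776552)))) (b (a (b (a (l 16654608) (c (l 16581064) (l 16534176))) (l 16575184)) (b (a (b (l 16336104) (l 16492216)) (b (l 16166312) (l 16161016))) (a (l 16472112) (l 16354408)))) (a (b (c (l 16647848) (l 16644272)) (c (l 16702056) (l 16699976))) (b (l 16227560) (c (l 16444568) (l 16435536))))))), by decide +kernel⟩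

def k6_pm_202_a : ∃ t, chk3 f_pm_202_a t 1 3 1 = true :=
  ⟨(a (l 4) (b (a (b (c (b (l 16777184) (l 16777184)) (b (l 16777184) (l 16777184))) (b (a (l 4) (l 16777168)) (l 4))) (b (a (c (l 16723024) (l 16721616)) (b (l 16348120) (l 16501368))) (a (c (l 16723024) (l 16679672)) (c (l 16504904) (l 16497824))))) (a (l 4) (b (a (c (l 16723024) (l 16721616)) (c (l 16504904) (l 16497824))) (l 4))))), by decide +kernel⟩

theorem s7_pm_202_a : ∃ t, chk3 f_pm_202_a t 7 8 1 = true := ex3_b k2_pm_202_a k3_pm_202_a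

theorem s8_pm_202_a : ∃ t, chk3 f_pm_202_a t 3 8 1 = true := ex3_a k1_pm_202_a s7_pm_202_a

theorem s9_pm_202_a : ∃ t, chk3 f_pm_202_a t 3 4 1 = true := ex3_b s8_pm_202_a k4_pm_202_a

theorem s10_pm_202_a : ∃ t, chk3 f_pm_202_a t 1 4 1 = true := ex3_a k0_pm_202_a s9_pm_202_a

theorem s11_pm_202_a : ∃ t, chk3 f_pm_202_a t 1 2 1 = true := ex3_b s10_pm_202_a k5_pm_202_a

theorem s12_pm_202_a : ∃ t, chk3 f_pm_202_a t 1 1 1 = true := ex3_b s11_pm_202_a k6_pm_202_a

theorem c_pm_202_a : CertFX 0 420477299 0 536870912 1046898278 26843546 true true false .pp 2 0 2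
    ndF1q2a ndF6q0 pcF2 Cut.none Ext.none :=
  certFX0 (fam := true) (s1 := true) (s2 := false) (a := 2) (b := 0) (c := 2) (cn := .pp) (n1 := ndF1q2a) (n2 := ndF6q0) (pc := pcF2) (cut := Cut.none) (xt := Ext.none) (P1 := 0) (W1 := 420477299) (P2 := 0) (W2 := 536870912) (P3 := 1046898278) (W3 := 26843546)
    rfl s12_pm_202_a

noncomputable def f_pm_202_b : ℕ → ℕ → ℕ → ℕ → Bool := onCell 1073741824 536870912 0 536870912 1046898278 26843546
    (rowFX 2 true true false .pp 2 0 2 (qsf 1239849684 370763052 0 536870912 2) ndF1q2b ndF6q0 pcF2 Cut.none Ext.none)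

def k0_pm_202_b : ∃ t, chk3 f_pm_202_b t 1 1 1 = true :=
  ⟨(a (a (l 1) (b (b (a (b (b (a (b (a (l 1) (b (b (b (l 15872024) (l 1)) (l 1)) (l 1))) (l 1)) (b (c (b (l 16130800) (l 15903096)) (b (c (l 16116352) (l 15938848)) (l 16077712))) (c (l 15974664) (l 16065272)))) (a (l 1) (c (l 15816896) (l 15996888)))) (l 1)) (b (b (a (b (c (b (l 16384128) (l 16364384)) (b (c (l 16375792) (l 16370136)) (l 16357680))) (c (l 16348144) (l 16322088))) (b (c (l 16490424) (b (l 16535680) (l 16541944))) (c (l 16529648) (l 16511472)))) (a (c (l 16230504) (l 16250720)) (c (l 16471944) (l 16457352)))) (a (b (c (l 16168176) (l 16152568)) (l 1)) (l 4)))) (l 1)) (l 1))) (b (a (b (b (a (a (b (b (c (l 16410288) (b (l 16394424) (l 16425840))) (l 4)) (l 4)) (l 4)) (l 4)) (l 4)) (l 4)) (l 4)) (l 4))), by decide +kernel⟩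

theorem c_pm_202_b : CertFX 1239849684 370763052 0 536870912 1046898278 26843546 true true false .pp 2 0 2
    ndF1q2b ndF6q0 pcF2 Cut.none Ext.none :=
  certFX2 (fam := true) (s1 := true) (s2 := false) (a := 2) (b := 0) (c := 2) (cn := .pp) (n1 := ndF1q2b) (n2 := ndF6q0) (pc := pcF2) (cut := Cut.none) (xt := Ext.none) (P1 := 1239849684) (W1 := 370763052) (P2 := 0) (W2 := 536870912) (P3 := 1046898278) (W3 := 26843546)
    rfl (fun _ => rfl) k0_pm_202_b

noncomputable def f_pm_203_a : ℕ → ℕ → ℕ → ℕ → Bool := onCell 0 420477299 1610612736 536870912 1046898278 26843546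
    (rowFX 1 true true false .up 2 0 3 (qsf 0 420477299 0 536870912 3) ndF1q2a ndF6q0 pcF3 Cut.none Ext.none)

def k0_pm_203_a : ∃ t, chk3 f_pm_203_a t 1 1 1 = true :=
  ⟨(b (a (l 4) (a (l 4) (b (b (l 4) (l 4)) (l 2)))) (l 2)), by decide +kernel⟩

theorem c_pm_203_a : CertFX 0 420477299 0 536870912 1046898278 26843546 true true false .up 2 0 3
    ndF1q2a ndF6q0 pcF3 Cut.none Ext.none :=
  certFX1 (fam := true) (s1 := true) (s2 := false) (a := 2) (b := 0) (c := 3) (cn := .up) (n1 := ndF1q2a) (n2 := ndF6q0) (pc := pcF3) (cut := Cut.none) (xt := Ext.none) (P1 := 0) (W1 := 420477299) (P2 := 0) (W2 := 536870912) (P3 := 1046898278) (W3 := 26843546)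
    rfl (fun _ => rfl) k0_pm_203_a

noncomputable def f_pm_203_b : ℕ → ℕ → ℕ → ℕ → Bool := onCell 1239849684 370763052 1610612736 536870912 1046898278 26843546
    (rowFX 1 true true false .up 2 0 3 (qsf 1239849684 370763052 0 536870912 3) ndF1q2b ndF6q0 pcF3 Cut.none Ext.none)

def k0_pm_203_b : ∃ t, chk3 f_pm_203_b t 1 1 1 = true :=
  ⟨(l 4), by decide +kernel⟩

theorem c_pm_203_b : CertFX 1239849684 370763052 0 536870912 1046898278 26843546 true true false .up 2 0 3
    ndF1q2b ndF6q0 pcF3 Cut.none Ext.none :=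
  certFX1 (fam := true) (s1 := true) (s2 := false) (a := 2) (b := 0) (c := 3) (cn := .up) (n1 := ndF1q2b) (n2 := ndF6q0) (pc := pcF3) (cut := Cut.none) (xt := Ext.none) (P1 := 1239849684) (W1 := 370763052) (P2 := 0) (W2 := 536870912) (P3 := 1046898278) (W3 := 26843546)
    rfl (fun _ => rfl) k0_pm_203_b

noncomputable def f_pm_213_a : ℕ → ℕ → ℕ → ℕ → Bool := onCell 0 420477299 536870912 469762048 1046898278 26843546
    (rowFX 0 true true false .pnn 2 1 3 (qsf 0 420477299 536870912 469762048 3) ndF1q2a ndF6q1 pcF3 Cut.none Ext.none)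

def k0_pm_213_a : ∃ t, chk3 f_pm_213_a t 1 1 1 = true :=
  ⟨(l 4), by decide +kernel⟩

theorem c_pm_213_a : CertFX 0 420477299 536870912 469762048 1046898278 26843546 true true false .pnn 2 1 3
    ndF1q2a ndF6q1 pcF3 Cut.none Ext.none :=
  certFX0 (fam := true) (s1 := true) (s2 := false) (a := 2) (b := 1) (c := 3) (cn := .pnn) (n1 := ndF1q2a) (n2 := ndF6q1) (pc := pcF3) (cut := Cut.none) (xt := Ext.none) (P1 := 0) (W1 := 420477299) (P2 := 536870912) (W2 := 469762048) (P3 := 1046898278) (W3 := 26843546)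
    rfl k0_pm_213_a

noncomputable def f_pm_213_b : ℕ → ℕ → ℕ → ℕ → Bool := onCell 1239849684 370763052 536870912 469762048 1046898278 26843546
    (rowFX 0 true true false .pnn 2 1 3 (qsf 1239849684 370763052 536870912 469762048 3) ndF1q2b ndF6q1 pcF3 Cut.none Ext.none)

def k0_pm_213_b : ∃ t, chk3 f_pm_213_b t 1 1 1 = true :=
  ⟨(l 4), by decide +kernel⟩

theorem c_pm_213_b : CertFX 1239849684 370763052 536870912 469762048 1046898278 26843546 true true false .pnn 2 1 3
    ndF1q2b ndF6q1 pcF3 Cut.none Ext.none :=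
  certFX0 (fam := true) (s1 := true) (s2 := false) (a := 2) (b := 1) (c := 3) (cn := .pnn) (n1 := ndF1q2b) (n2 := ndF6q1) (pc := pcF3) (cut := Cut.none) (xt := Ext.none) (P1 := 1239849684) (W1 := 370763052) (P2 := 536870912) (W2 := 469762048) (P3 := 1046898278) (W3 := 26843546)
    rfl k0_pm_213_b

noncomputable def f_pm_303 : ℕ → ℕ → ℕ → ℕ → Bool := onCell 1610612736 469762048 0 536870912 1046898278 26843546
    (rowFX 0 true true false .npn 3 0 3 (qsf 1610612736 469762048 0 536870912 3) ndF1q3 ndF6q0 pcF3 Cut.none Ext.none)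

def k0_pm_303 : ∃ t, chk3 f_pm_303 t 1 1 1 = true :=
  ⟨(l 4), by decide +kernel⟩

theorem c_pm_303 : CertFX 1610612736 469762048 0 536870912 1046898278 26843546 true true false .npn 3 0 3
    ndF1q3 ndF6q0 pcF3 Cut.none Ext.none :=
  certFX0 (fam := true) (s1 := true) (s2 := false) (a := 3) (b := 0) (c := 3) (cn := .npn) (n1 := ndF1q3) (n2 := ndF6q0) (pc := pcF3) (cut := Cut.none) (xt := Ext.none) (P1 := 1610612736) (W1 := 469762048) (P2 := 0) (W2 := 536870912) (P3 := 1046898278) (W3 := 26843546)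
    rfl k0_pm_303

noncomputable def f_pm_313 : ℕ → ℕ → ℕ → ℕ → Bool := onCell 1610612736 469762048 536870912 469762048 1046898278 26843546
    (rowFX 0 true true false .dn 3 1 3 (qsf 1610612736 469762048 536870912 469762048 3) ndF1q3 ndF6q1 pcF3 Cut.none Ext.none)

def k0_pm_313 : ∃ t, chk3 f_pm_313 t 1 1 1 = true :=
  ⟨(l 4), by decide +kernel⟩

theorem c_pm_313 : CertFX 1610612736 469762048 536870912 469762048 1046898278 26843546 true true false .dn 3 1 3
    ndF1q3 ndF6q1 pcF3 Cut.none Ext.none :=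
  certFX0 (fam := true) (s1 := true) (s2 := false) (a := 3) (b := 1) (c := 3) (cn := .dn) (n1 := ndF1q3) (n2 := ndF6q1) (pc := pcF3) (cut := Cut.none) (xt := Ext.none) (P1 := 1610612736) (W1 := 469762048) (P2 := 536870912) (W2 := 469762048) (P3 := 1046898278) (W3 := 26843546)
    rfl k0_pm_313

noncomputable def f_mm_001 : ℕ → ℕ → ℕ → ℕ → Bool := onCell 67108864 469762048 0 536870912 1046898278 26843546
    (rowFX 0 true false false .up 0 0 1 (qsf 67108864 469762048 0 536870912 1) ndF1q0 ndF6q0 pcF1 Cut.none Ext.none)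

def k0_mm_001 : ∃ t, chk3 f_mm_001 t 1 1 1 = true :=
  ⟨(l 4), by decide +kernel⟩

theorem c_mm_001 : CertFX 67108864 469762048 0 536870912 1046898278 26843546 true false false .up 0 0 1
    ndF1q0 ndF6q0 pcF1 Cut.none Ext.none :=
  certFX0 (fam := true) (s1 := false) (s2 := false) (a := 0) (b := 0) (c := 1) (cn := .up) (n1 := ndF1q0) (n2 := ndF6q0) (pc := pcF1) (cut := Cut.none) (xt := Ext.none) (P1 := 67108864) (W1 := 469762048) (P2 := 0) (W2 := 536870912) (P3 := 1046898278) (W3 := 26843546)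
    rfl k0_mm_001

noncomputable def f_mm_011 : ℕ → ℕ → ℕ → ℕ → Bool := onCell 67108864 469762048 536870912 469762048 1046898278 26843546
    (rowFX 0 true false false .pnn 0 1 1 (qsf 67108864 469762048 536870912 469762048 1) ndF1q0 ndF6q1 pcF1 Cut.none Ext.none)

def k0_mm_011 : ∃ t, chk3 f_mm_011 t 1 1 1 = true :=
  ⟨(l 4), by decide +kernel⟩

theorem c_mm_011 : CertFX 67108864 469762048 536870912 469762048 1046898278 26843546 true false false .pnn 0 1 1
    ndF1q0 ndF6q1 pcF1 Cut.none Ext.none :=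
  certFX0 (fam := true) (s1 := false) (s2 := false) (a := 0) (b := 1) (c := 1) (cn := .pnn) (n1 := ndF1q0) (n2 := ndF6q1) (pc := pcF1) (cut := Cut.none) (xt := Ext.none) (P1 := 67108864) (W1 := 469762048) (P2 := 536870912) (W2 := 469762048) (P3 := 1046898278) (W3 := 26843546)
    rfl k0_mm_011

noncomputable def f_mm_012 : ℕ → ℕ → ℕ → ℕ → Bool := onCell 67108864 469762048 536870912 469762048 1046898278 26843546
    (rowFX 0 true false false .pnp 0 1 2 (qsf 67108864 469762048 536870912 469762048 2) ndF1q0 ndF6q1 pcF2 Cut.none Ext.none)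

def k0_mm_012 : ∃ t, chk3 f_mm_012 t 1 1 1 = true :=
  ⟨(l 4), by decide +kernel⟩

theorem c_mm_012 : CertFX 67108864 469762048 536870912 469762048 1046898278 26843546 true false false .pnp 0 1 2
    ndF1q0 ndF6q1 pcF2 Cut.none Ext.none :=
  certFX0 (fam := true) (s1 := false) (s2 := false) (a := 0) (b := 1) (c := 2) (cn := .pnp) (n1 := ndF1q0) (n2 := ndF6q1) (pc := pcF2) (cut := Cut.none) (xt := Ext.none) (P1 := 67108864) (W1 := 469762048) (P2 := 536870912) (W2 := 469762048) (P3 := 1046898278) (W3 := 26843546)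
    rfl k0_mm_012

noncomputable def f_mm_022 : ℕ → ℕ → ℕ → ℕ → Bool := onCell 67108864 469762048 1073741824 536870912 1046898278 26843546
    (rowFX 0 true false false .pp 0 2 2 (qsf 67108864 469762048 1073741824 536870912 2) ndF1q0 ndF6q2 pcF2 Cut.none Ext.none)

def k0_mm_022 : ∃ t, chk3 f_mm_022 t 1 1 1 = true :=
  ⟨(l 4), by decide +kernel⟩

theorem c_mm_022 : CertFX 67108864 469762048 1073741824 536870912 1046898278 26843546 true false false .pp 0 2 2
    ndF1q0 ndF6q2 pcF2 Cut.none Ext.none :=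
  certFX0 (fam := true) (s1 := false) (s2 := false) (a := 0) (b := 2) (c := 2) (cn := .pp) (n1 := ndF1q0) (n2 := ndF6q2) (pc := pcF2) (cut := Cut.none) (xt := Ext.none) (P1 := 67108864) (W1 := 469762048) (P2 := 1073741824) (W2 := 536870912) (P3 := 1046898278) (W3 := 26843546)
    rfl k0_mm_022

noncomputable def f_mm_023 : ℕ → ℕ → ℕ → ℕ → Bool := onCell 67108864 469762048 1073741824 536870912 1046898278 26843546
    (rowFX 0 true false false .up 0 2 3 (qsf 67108864 469762048 1073741824 536870912 3) ndF1q0 ndF6q2 pcF3 Cut.none Ext.none)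

def k0_mm_023 : ∃ t, chk3 f_mm_023 t 1 1 1 = true :=
  ⟨(l 4), by decide +kernel⟩

theorem c_mm_023 : CertFX 67108864 469762048 1073741824 536870912 1046898278 26843546 true false false .up 0 2 3
    ndF1q0 ndF6q2 pcF3 Cut.none Ext.none :=
  certFX0 (fam := true) (s1 := false) (s2 := false) (a := 0) (b := 2) (c := 3) (cn := .up) (n1 := ndF1q0) (n2 := ndF6q2) (pc := pcF3) (cut := Cut.none) (xt := Ext.none) (P1 := 67108864) (W1 := 469762048) (P2 := 1073741824) (W2 := 536870912) (P3 := 1046898278) (W3 := 26843546)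
    rfl k0_mm_023

noncomputable def f_mm_033 : ℕ → ℕ → ℕ → ℕ → Bool := onCell 67108864 469762048 0 1230186008 1046898278 26843546
    (rowFX 0 true false false .pnn 0 3 3 (qsf 67108864 469762048 0 1230186008 3) ndF1q0 ndF6q3 pcF3 Cut.none Ext.none)

def k0_mm_033 : ∃ t, chk3 f_mm_033 t 1 1 1 = true :=
  ⟨(l 4), by decide +kernel⟩

theorem c_mm_033 : CertFX 67108864 469762048 0 1230186008 1046898278 26843546 true false false .pnn 0 3 3
    ndF1q0 ndF6q3 pcF3 Cut.none Ext.none :=
  certFX0 (fam := true) (s1 := false) (s2 := false) (a := 0) (b := 3) (c := 3) (cn := .pnn) (n1 := ndF1q0) (n2 := ndF6q3) (pc := pcF3) (cut := Cut.none) (xt := Ext.none) (P1 := 67108864) (W1 := 469762048) (P2 := 0) (W2 := 1230186008) (P3 := 1046898278) (W3 := 26843546)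
    rfl k0_mm_033

noncomputable def f_mm_101 : ℕ → ℕ → ℕ → ℕ → Bool := onCell 536870912 536870912 0 536870912 1046898278 26843546
    (rowFX 0 true false false .npn 1 0 1 (qsf 536870912 536870912 0 536870912 1) ndF1q1 ndF6q0 pcF1 Cut.none Ext.none)

def k0_mm_101 : ∃ t, chk3 f_mm_101 t 1 1 1 = true :=
  ⟨(l 4), by decide +kernel⟩

theorem c_mm_101 : CertFX 536870912 536870912 0 536870912 1046898278 26843546 true false false .npn 1 0 1
    ndF1q1 ndF6q0 pcF1 Cut.none Ext.none :=
  certFX0 (fam := true) (s1 := false) (s2 := false) (a := 1) (b := 0) (c := 1) (cn := .npn) (n1 := ndF1q1) (n2 := ndF6q0) (pc := pcF1) (cut := Cut.none) (xt := Ext.none) (P1 := 536870912) (W1 := 536870912) (P2 := 0) (W2 := 536870912) (P3 := 1046898278) (W3 := 26843546)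
    rfl k0_mm_101

noncomputable def f_mm_102 : ℕ → ℕ → ℕ → ℕ → Bool := onCell 536870912 536870912 0 536870912 1046898278 26843546
    (rowFX 0 true false false .npp 1 0 2 (qsf 536870912 536870912 0 536870912 2) ndF1q1 ndF6q0 pcF2 Cut.none Ext.none)

def k0_mm_102 : ∃ t, chk3 f_mm_102 t 1 1 1 = true :=
  ⟨(l 4), by decide +kernel⟩

theorem c_mm_102 : CertFX 536870912 536870912 0 536870912 1046898278 26843546 true false false .npp 1 0 2
    ndF1q1 ndF6q0 pcF2 Cut.none Ext.none :=
  certFX0 (fam := true) (s1 := false) (s2 := false) (a := 1) (b := 0) (c := 2) (cn := .npp) (n1 := ndF1q1) (n2 := ndF6q0) (pc := pcF2) (cut := Cut.none) (xt := Ext.none) (P1 := 536870912) (W1 := 536870912) (P2 := 0) (W2 := 536870912) (P3 := 1046898278) (W3 := 26843546)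
    rfl k0_mm_102

noncomputable def f_mm_112 : ℕ → ℕ → ℕ → ℕ → Bool := onCell 536870912 536870912 536870912 469762048 1046898278 26843546
    (rowFX 0 true false false .dn 1 1 2 (qsf 536870912 536870912 536870912 469762048 2) ndF1q1 ndF6q1 pcF2 Cut.none Ext.none)

def k0_mm_112 : ∃ t, chk3 f_mm_112 t 1 1 1 = true :=
  ⟨(l 4), by decide +kernel⟩

theorem c_mm_112 : CertFX 536870912 536870912 536870912 469762048 1046898278 26843546 true false false .dn 1 1 2
    ndF1q1 ndF6q1 pcF2 Cut.none Ext.none :=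
  certFX0 (fam := true) (s1 := false) (s2 := false) (a := 1) (b := 1) (c := 2) (cn := .dn) (n1 := ndF1q1) (n2 := ndF6q1) (pc := pcF2) (cut := Cut.none) (xt := Ext.none) (P1 := 536870912) (W1 := 536870912) (P2 := 536870912) (W2 := 469762048) (P3 := 1046898278) (W3 := 26843546)
    rfl k0_mm_112

noncomputable def f_mm_113 : ℕ → ℕ → ℕ → ℕ → Bool := onCell 536870912 536870912 536870912 469762048 1046898278 26843546
    (rowFX 0 true false false .nn 1 1 3 (qsf 536870912 536870912 536870912 469762048 3) ndF1q1 ndF6q1 pcF3 Cut.none Ext.none)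

def k0_mm_113 : ∃ t, chk3 f_mm_113 t 1 1 1 = true :=
  ⟨(l 4), by decide +kernel⟩

theorem c_mm_113 : CertFX 536870912 536870912 536870912 469762048 1046898278 26843546 true false false .nn 1 1 3
    ndF1q1 ndF6q1 pcF3 Cut.none Ext.none :=
  certFX0 (fam := true) (s1 := false) (s2 := false) (a := 1) (b := 1) (c := 3) (cn := .nn) (n1 := ndF1q1) (n2 := ndF6q1) (pc := pcF3) (cut := Cut.none) (xt := Ext.none) (P1 := 536870912) (W1 := 536870912) (P2 := 536870912) (W2 := 469762048) (P3 := 1046898278) (W3 := 26843546)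
    rfl k0_mm_113

noncomputable def f_mm_123 : ℕ → ℕ → ℕ → ℕ → Bool := onCell 536870912 536870912 1073741824 536870912 1046898278 26843546
    (rowFX 0 true false false .npn 1 2 3 (qsf 536870912 536870912 1073741824 536870912 3) ndF1q1 ndF6q2 pcF3 Cut.none Ext.none)

def k0_mm_123 : ∃ t, chk3 f_mm_123 t 1 1 1 = true :=
  ⟨(l 4), by decide +kernel⟩

theorem c_mm_123 : CertFX 536870912 536870912 1073741824 536870912 1046898278 26843546 true false false .npn 1 2 3
    ndF1q1 ndF6q2 pcF3 Cut.none Ext.none :=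
  certFX0 (fam := true) (s1 := false) (s2 := false) (a := 1) (b := 2) (c := 3) (cn := .npn) (n1 := ndF1q1) (n2 := ndF6q2) (pc := pcF3) (cut := Cut.none) (xt := Ext.none) (P1 := 536870912) (W1 := 536870912) (P2 := 1073741824) (W2 := 536870912) (P3 := 1046898278) (W3 := 26843546)
    rfl k0_mm_123

noncomputable def f_mm_133 : ℕ → ℕ → ℕ → ℕ → Bool := onCell 536870912 536870912 0 1230186008 1046898278 26843546
    (rowFX 0 true false false .dn 1 3 3 (qsf 536870912 536870912 0 1230186008 3) ndF1q1 ndF6q3 pcF3 Cut.none Ext.none)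

def k0_mm_133 : ∃ t, chk3 f_mm_133 t 1 1 1 = true :=
  ⟨(l 4), by decide +kernel⟩

theorem c_mm_133 : CertFX 536870912 536870912 0 1230186008 1046898278 26843546 true false false .dn 1 3 3
    ndF1q1 ndF6q3 pcF3 Cut.none Ext.none :=
  certFX0 (fam := true) (s1 := false) (s2 := false) (a := 1) (b := 3) (c := 3) (cn := .dn) (n1 := ndF1q1) (n2 := ndF6q3) (pc := pcF3) (cut := Cut.none) (xt := Ext.none) (P1 := 536870912) (W1 := 536870912) (P2 := 0) (W2 := 1230186008) (P3 := 1046898278) (W3 := 26843546)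
    rfl k0_mm_133

noncomputable def f_mm_202_a : ℕ → ℕ → ℕ → ℕ → Bool := onCell 0 420477299 0 536870912 1046898278 26843546
    (rowFX 0 true false false .pp 2 0 2 (qsf 0 420477299 0 536870912 2) ndF1q2a ndF6q0 pcF2 Cut.none Ext.none)

def k0_mm_202_a : ∃ t, chk3 f_mm_202_a t 1 1 1 = true :=
  ⟨(l 4), by decide +kernel⟩

theorem c_mm_202_a : CertFX 0 420477299 0 536870912 1046898278 26843546 true false false .pp 2 0 2
    ndF1q2a ndF6q0 pcF2 Cut.none Ext.none :=
  certFX0 (fam := true) (s1 := false) (s2 := false) (a := 2) (b := 0) (c := 2) (cn := .pp) (n1 := ndF1q2a) (n2 := ndF6q0) (pc := pcF2) (cut := Cut.none) (xt := Ext.none) (P1 := 0) (W1 := 420477299) (P2 := 0) (W2 := 536870912) (P3 := 1046898278) (W3 := 26843546)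
    rfl k0_mm_202_a

noncomputable def f_mm_202_b : ℕ → ℕ → ℕ → ℕ → Bool := onCell 1239849684 370763052 0 536870912 1046898278 26843546
    (rowFX 0 true false false .pp 2 0 2 (qsf 1239849684 370763052 0 536870912 2) ndF1q2b ndF6q0 pcF2 Cut.none Ext.none)

def k0_mm_202_b : ∃ t, chk3 f_mm_202_b t 1 1 1 = true :=
  ⟨(l 4), by decide +kernel⟩

theorem c_mm_202_b : CertFX 1239849684 370763052 0 536870912 1046898278 26843546 true false false .pp 2 0 2
    ndF1q2b ndF6q0 pcF2 Cut.none Ext.none :=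
  certFX0 (fam := true) (s1 := false) (s2 := false) (a := 2) (b := 0) (c := 2) (cn := .pp) (n1 := ndF1q2b) (n2 := ndF6q0) (pc := pcF2) (cut := Cut.none) (xt := Ext.none) (P1 := 1239849684) (W1 := 370763052) (P2 := 0) (W2 := 536870912) (P3 := 1046898278) (W3 := 26843546)
    rfl k0_mm_202_b

noncomputable def f_mm_203_a : ℕ → ℕ → ℕ → ℕ → Bool := onCell 0 420477299 0 536870912 1046898278 26843546
    (rowFX 0 true false false .up 2 0 3 (qsf 0 420477299 0 536870912 3) ndF1q2a ndF6q0 pcF3 Cut.none Ext.none)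

def k0_mm_203_a : ∃ t, chk3 f_mm_203_a t 1 1 1 = true :=
  ⟨(l 4), by decide +kernel⟩

theorem c_mm_203_a : CertFX 0 420477299 0 536870912 1046898278 26843546 true false false .up 2 0 3
    ndF1q2a ndF6q0 pcF3 Cut.none Ext.none :=
  certFX0 (fam := true) (s1 := false) (s2 := false) (a := 2) (b := 0) (c := 3) (cn := .up) (n1 := ndF1q2a) (n2 := ndF6q0) (pc := pcF3) (cut := Cut.none) (xt := Ext.none) (P1 := 0) (W1 := 420477299) (P2 := 0) (W2 := 536870912) (P3 := 1046898278) (W3 := 26843546)
    rfl k0_mm_203_a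

noncomputable def f_mm_203_b : ℕ → ℕ → ℕ → ℕ → Bool := onCell 1239849684 370763052 0 536870912 1046898278 26843546
    (rowFX 0 true false false .up 2 0 3 (qsf 1239849684 370763052 0 536870912 3) ndF1q2b ndF6q0 pcF3 Cut.none Ext.none)

def k0_mm_203_b : ∃ t, chk3 f_mm_203_b t 1 1 1 = true :=
  ⟨(l 4), by decide +kernel⟩

theorem c_mm_203_b : CertFX 1239849684 370763052 0 536870912 1046898278 26843546 true false false .up 2 0 3
    ndF1q2b ndF6q0 pcF3 Cut.none Ext.none :=
  certFX0 (fam := true) (s1 := false) (s2 := false) (a := 2) (b := 0) (c := 3) (cn := .up) (n1 := ndF1q2b) (n2 := ndF6q0) (pc := pcF3) (cut := Cut.none) (xt := Ext.none) (P1 := 1239849684) (W1 := 370763052) (P2 := 0) (W2 := 536870912) (P3 := 1046898278) (W3 := 26843546)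
    rfl k0_mm_203_b

noncomputable def f_mm_213_a : ℕ → ℕ → ℕ → ℕ → Bool := onCell 0 420477299 536870912 469762048 1046898278 26843546
    (rowFX 0 true false false .pnn 2 1 3 (qsf 0 420477299 536870912 469762048 3) ndF1q2a ndF6q1 pcF3 Cut.none Ext.none)

def k0_mm_213_a : ∃ t, chk3 f_mm_213_a t 1 1 1 = true :=
  ⟨(l 4), by decide +kernel⟩

theorem c_mm_213_a : CertFX 0 420477299 536870912 469762048 1046898278 26843546 true false false .pnn 2 1 3
    ndF1q2a ndF6q1 pcF3 Cut.none Ext.none :=
  certFX0 (fam := true) (s1 := false) (s2 := false) (a := 2) (b := 1) (c := 3) (cn := .pnn) (n1 := ndF1q2a) (n2 := ndF6q1) (pc := pcF3) (cut := Cut.none) (xt := Ext.none) (P1 := 0) (W1 := 420477299) (P2 := 536870912) (W2 := 469762048) (P3 := 1046898278) (W3 := 26843546)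
    rfl k0_mm_213_a

noncomputable def f_mm_213_b : ℕ → ℕ → ℕ → ℕ → Bool := onCell 1239849684 370763052 536870912 469762048 1046898278 26843546
    (rowFX 0 true false false .pnn 2 1 3 (qsf 1239849684 370763052 536870912 469762048 3) ndF1q2b ndF6q1 pcF3 Cut.none Ext.none)

def k0_mm_213_b : ∃ t, chk3 f_mm_213_b t 1 1 1 = true :=
  ⟨(l 4), by decide +kernel⟩

theorem c_mm_213_b : CertFX 1239849684 370763052 536870912 469762048 1046898278 26843546 true false false .pnn 2 1 3
    ndF1q2b ndF6q1 pcF3 Cut.none Ext.none :=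
  certFX0 (fam := true) (s1 := false) (s2 := false) (a := 2) (b := 1) (c := 3) (cn := .pnn) (n1 := ndF1q2b) (n2 := ndF6q1) (pc := pcF3) (cut := Cut.none) (xt := Ext.none) (P1 := 1239849684) (W1 := 370763052) (P2 := 536870912) (W2 := 469762048) (P3 := 1046898278) (W3 := 26843546)
    rfl k0_mm_213_b

noncomputable def f_mm_303 : ℕ → ℕ → ℕ → ℕ → Bool := onCell 1610612736 469762048 0 536870912 1046898278 26843546
    (rowFX 0 true false false .npn 3 0 3 (qsf 1610612736 469762048 0 536870912 3) ndF1q3 ndF6q0 pcF3 Cut.none Ext.none)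

def k0_mm_303 : ∃ t, chk3 f_mm_303 t 1 1 1 = true :=
  ⟨(l 4), by decide +kernel⟩

theorem c_mm_303 : CertFX 1610612736 469762048 0 536870912 1046898278 26843546 true false false .npn 3 0 3
    ndF1q3 ndF6q0 pcF3 Cut.none Ext.none :=
  certFX0 (fam := true) (s1 := false) (s2 := false) (a := 3) (b := 0) (c := 3) (cn := .npn) (n1 := ndF1q3) (n2 := ndF6q0) (pc := pcF3) (cut := Cut.none) (xt := Ext.none) (P1 := 1610612736) (W1 := 469762048) (P2 := 0) (W2 := 536870912) (P3 := 1046898278) (W3 := 26843546)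
    rfl k0_mm_303

noncomputable def f_mm_313 : ℕ → ℕ → ℕ → ℕ → Bool := onCell 1610612736 469762048 536870912 469762048 1046898278 26843546
    (rowFX 0 true false false .dn 3 1 3 (qsf 1610612736 469762048 536870912 469762048 3) ndF1q3 ndF6q1 pcF3 Cut.none Ext.none)

def k0_mm_313 : ∃ t, chk3 f_mm_313 t 1 1 1 = true :=
  ⟨(l 4), by decide +kernel⟩

theorem c_mm_313 : CertFX 1610612736 469762048 536870912 469762048 1046898278 26843546 true false false .dn 3 1 3
    ndF1q3 ndF6q1 pcF3 Cut.none Ext.none :=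
  certFX0 (fam := true) (s1 := false) (s2 := false) (a := 3) (b := 1) (c := 3) (cn := .dn) (n1 := ndF1q3) (n2 := ndF6q1) (pc := pcF3) (cut := Cut.none) (xt := Ext.none) (P1 := 1610612736) (W1 := 469762048) (P2 := 536870912) (W2 := 469762048) (P3 := 1046898278) (W3 := 26843546)
    rfl k0_mm_313

end Pool.Agent.Strip051.G.IE1.Tab.C.FA16

namespace Pool.Agent.Strip051.G.IE1.Tab.C.FA17

open Pool.Agent.Strip051.PB Pool.Agent.Strip051.PB.T
open Pool.Agent.Strip051.G.IE1.Tab

noncomputable def f_pp_001 : ℕ → ℕ → ℕ → ℕ → Bool := onCell 67108864 469762048 0 536870912 1046898278 26843546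
    (rowFX 0 true true true .up 0 0 1 (qsf 67108864 469762048 0 536870912 1) ndF1q0 ndF7q0 pcF1 Cut.none Ext.none)

def k0_pp_001 : ∃ t, chk3 f_pp_001 t 1 1 1 = true :=
  ⟨(l 4), by decide +kernel⟩

theorem c_pp_001 : CertFX 67108864 469762048 0 536870912 1046898278 26843546 true true true .up 0 0 1
    ndF1q0 ndF7q0 pcF1 Cut.none Ext.none :=
  certFX0 (fam := true) (s1 := true) (s2 := true) (a := 0) (b := 0) (c := 1) (cn := .up) (n1 := ndF1q0) (n2 := ndF7q0) (pc := pcF1) (cut := Cut.none) (xt := Ext.none) (P1 := 67108864) (W1 := 469762048) (P2 := 0) (W2 := 536870912) (P3 := 1046898278) (W3 := 26843546)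
    rfl k0_pp_001

noncomputable def f_pp_011 : ℕ → ℕ → ℕ → ℕ → Bool := onCell 67108864 469762048 536870912 536870912 1046898278 26843546
    (rowFX 0 true true true .pnn 0 1 1 (qsf 67108864 469762048 536870912 536870912 1) ndF1q0 ndF7q1 pcF1 Cut.none Ext.none)

def k0_pp_011 : ∃ t, chk3 f_pp_011 t 1 1 1 = true :=
  ⟨(l 4), by decide +kernel⟩

theorem c_pp_011 : CertFX 67108864 469762048 536870912 536870912 1046898278 26843546 true true true .pnn 0 1 1
    ndF1q0 ndF7q1 pcF1 Cut.none Ext.none :=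
  certFX0 (fam := true) (s1 := true) (s2 := true) (a := 0) (b := 1) (c := 1) (cn := .pnn) (n1 := ndF1q0) (n2 := ndF7q1) (pc := pcF1) (cut := Cut.none) (xt := Ext.none) (P1 := 67108864) (W1 := 469762048) (P2 := 536870912) (W2 := 536870912) (P3 := 1046898278) (W3 := 26843546)
    rfl k0_pp_011

noncomputable def f_pp_012 : ℕ → ℕ → ℕ → ℕ → Bool := onCell 67108864 469762048 536870912 536870912 1046898278 26843546
    (rowFX 0 true true true .pnp 0 1 2 (qsf 67108864 469762048 536870912 536870912 2) ndF1q0 ndF7q1 pcF2 Cut.none Ext.none)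

def k0_pp_012 : ∃ t, chk3 f_pp_012 t 1 1 1 = true :=
  ⟨(l 4), by decide +kernel⟩

theorem c_pp_012 : CertFX 67108864 469762048 536870912 536870912 1046898278 26843546 true true true .pnp 0 1 2
    ndF1q0 ndF7q1 pcF2 Cut.none Ext.none :=
  certFX0 (fam := true) (s1 := true) (s2 := true) (a := 0) (b := 1) (c := 2) (cn := .pnp) (n1 := ndF1q0) (n2 := ndF7q1) (pc := pcF2) (cut := Cut.none) (xt := Ext.none) (P1 := 67108864) (W1 := 469762048) (P2 := 536870912) (W2 := 536870912) (P3 := 1046898278) (W3 := 26843546)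
    rfl k0_pp_012

noncomputable def f_pp_022 : ℕ → ℕ → ℕ → ℕ → Bool := onCell 67108864 469762048 1073741824 536870912 1046898278 26843546
    (rowFX 0 true true true .pp 0 2 2 (qsf 67108864 469762048 1073741824 536870912 2) ndF1q0 ndF7q2 pcF2 Cut.none Ext.none)

def k0_pp_022 : ∃ t, chk3 f_pp_022 t 1 1 1 = true :=
  ⟨(l 4), by decide +kernel⟩

theorem c_pp_022 : CertFX 67108864 469762048 1073741824 536870912 1046898278 26843546 true true true .pp 0 2 2
    ndF1q0 ndF7q2 pcF2 Cut.none Ext.none :=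
  certFX0 (fam := true) (s1 := true) (s2 := true) (a := 0) (b := 2) (c := 2) (cn := .pp) (n1 := ndF1q0) (n2 := ndF7q2) (pc := pcF2) (cut := Cut.none) (xt := Ext.none) (P1 := 67108864) (W1 := 469762048) (P2 := 1073741824) (W2 := 536870912) (P3 := 1046898278) (W3 := 26843546)
    rfl k0_pp_022

noncomputable def f_pp_023 : ℕ → ℕ → ℕ → ℕ → Bool := onCell 67108864 469762048 1073741824 536870912 1046898278 26843546
    (rowFX 0 true true true .up 0 2 3 (qsf 67108864 469762048 1073741824 536870912 3) ndF1q0 ndF7q2 pcF3 Cut.none Ext.none)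

def k0_pp_023 : ∃ t, chk3 f_pp_023 t 1 1 1 = true :=
  ⟨(l 4), by decide +kernel⟩

theorem c_pp_023 : CertFX 67108864 469762048 1073741824 536870912 1046898278 26843546 true true true .up 0 2 3
    ndF1q0 ndF7q2 pcF3 Cut.none Ext.none :=
  certFX0 (fam := true) (s1 := true) (s2 := true) (a := 0) (b := 2) (c := 3) (cn := .up) (n1 := ndF1q0) (n2 := ndF7q2) (pc := pcF3) (cut := Cut.none) (xt := Ext.none) (P1 := 67108864) (W1 := 469762048) (P2 := 1073741824) (W2 := 536870912) (P3 := 1046898278) (W3 := 26843546)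
    rfl k0_pp_023

noncomputable def f_pp_033 : ℕ → ℕ → ℕ → ℕ → Bool := onCell 67108864 469762048 0 1230186008 1046898278 26843546
    (rowFX 0 true true true .pnn 0 3 3 (qsf 67108864 469762048 0 1230186008 3) ndF1q0 ndF7q3 pcF3 Cut.none Ext.none)

def k0_pp_033 : ∃ t, chk3 f_pp_033 t 1 1 1 = true :=
  ⟨(l 4), by decide +kernel⟩

theorem c_pp_033 : CertFX 67108864 469762048 0 1230186008 1046898278 26843546 true true true .pnn 0 3 3
    ndF1q0 ndF7q3 pcF3 Cut.none Ext.none :=
  certFX0 (fam := true) (s1 := true) (s2 := true) (a := 0) (b := 3) (c := 3) (cn := .pnn) (n1 := ndF1q0) (n2 := ndF7q3) (pc := pcF3) (cut := Cut.none) (xt := Ext.none) (P1 := 67108864) (W1 := 469762048) (P2 := 0) (W2 := 1230186008) (P3 := 1046898278) (W3 := 26843546)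
    rfl k0_pp_033

noncomputable def f_pp_101 : ℕ → ℕ → ℕ → ℕ → Bool := onCell 536870912 536870912 0 536870912 1046898278 26843546
    (rowFX 0 true true true .npn 1 0 1 (qsf 536870912 536870912 0 536870912 1) ndF1q1 ndF7q0 pcF1 Cut.none Ext.none)

def k0_pp_101 : ∃ t, chk3 f_pp_101 t 1 1 1 = true :=
  ⟨(l 4), by decide +kernel⟩

theorem c_pp_101 : CertFX 536870912 536870912 0 536870912 1046898278 26843546 true true true .npn 1 0 1
    ndF1q1 ndF7q0 pcF1 Cut.none Ext.none :=
  certFX0 (fam := true) (s1 := true) (s2 := true) (a := 1) (b := 0) (c := 1) (cn := .npn) (n1 := ndF1q1) (n2 := ndF7q0) (pc := pcF1) (cut := Cut.none) (xt := Ext.none) (P1 := 536870912) (W1 := 536870912) (P2 := 0) (W2 := 536870912) (P3 := 1046898278) (W3 := 26843546)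
    rfl k0_pp_101

noncomputable def f_pp_102 : ℕ → ℕ → ℕ → ℕ → Bool := onCell 536870912 536870912 0 536870912 1046898278 26843546
    (rowFX 0 true true true .npp 1 0 2 (qsf 536870912 536870912 0 536870912 2) ndF1q1 ndF7q0 pcF2 Cut.none Ext.none)

def k0_pp_102 : ∃ t, chk3 f_pp_102 t 1 1 1 = true :=
  ⟨(l 4), by decide +kernel⟩

theorem c_pp_102 : CertFX 536870912 536870912 0 536870912 1046898278 26843546 true true true .npp 1 0 2
    ndF1q1 ndF7q0 pcF2 Cut.none Ext.none :=
  certFX0 (fam := true) (s1 := true) (s2 := true) (a := 1) (b := 0) (c := 2) (cn := .npp) (n1 := ndF1q1) (n2 := ndF7q0) (pc := pcF2) (cut := Cut.none) (xt := Ext.none) (P1 := 536870912) (W1 := 536870912) (P2 := 0) (W2 := 536870912) (P3 := 1046898278) (W3 := 26843546)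
    rfl k0_pp_102

noncomputable def f_pp_112 : ℕ → ℕ → ℕ → ℕ → Bool := onCell 536870912 536870912 536870912 536870912 1046898278 26843546
    (rowFX 0 true true true .dn 1 1 2 (qsf 536870912 536870912 536870912 536870912 2) ndF1q1 ndF7q1 pcF2 Cut.none Ext.none)

def k0_pp_112 : ∃ t, chk3 f_pp_112 t 1 1 1 = true :=
  ⟨(l 4), by decide +kernel⟩

theorem c_pp_112 : CertFX 536870912 536870912 536870912 536870912 1046898278 26843546 true true true .dn 1 1 2
    ndF1q1 ndF7q1 pcF2 Cut.none Ext.none :=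
  certFX0 (fam := true) (s1 := true) (s2 := true) (a := 1) (b := 1) (c := 2) (cn := .dn) (n1 := ndF1q1) (n2 := ndF7q1) (pc := pcF2) (cut := Cut.none) (xt := Ext.none) (P1 := 536870912) (W1 := 536870912) (P2 := 536870912) (W2 := 536870912) (P3 := 1046898278) (W3 := 26843546)
    rfl k0_pp_112

noncomputable def f_pp_113 : ℕ → ℕ → ℕ → ℕ → Bool := onCell 536870912 536870912 536870912 536870912 1046898278 26843546
    (rowFX 0 true true true .nn 1 1 3 (qsf 536870912 536870912 536870912 536870912 3) ndF1q1 ndF7q1 pcF3 Cut.none Ext.none)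

def k0_pp_113 : ∃ t, chk3 f_pp_113 t 1 1 1 = true :=
  ⟨(l 4), by decide +kernel⟩

theorem c_pp_113 : CertFX 536870912 536870912 536870912 536870912 1046898278 26843546 true true true .nn 1 1 3
    ndF1q1 ndF7q1 pcF3 Cut.none Ext.none :=
  certFX0 (fam := true) (s1 := true) (s2 := true) (a := 1) (b := 1) (c := 3) (cn := .nn) (n1 := ndF1q1) (n2 := ndF7q1) (pc := pcF3) (cut := Cut.none) (xt := Ext.none) (P1 := 536870912) (W1 := 536870912) (P2 := 536870912) (W2 := 536870912) (P3 := 1046898278) (W3 := 26843546)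
    rfl k0_pp_113

noncomputable def f_pp_123 : ℕ → ℕ → ℕ → ℕ → Bool := onCell 536870912 536870912 1073741824 536870912 1046898278 26843546
    (rowFX 0 true true true .npn 1 2 3 (qsf 536870912 536870912 1073741824 536870912 3) ndF1q1 ndF7q2 pcF3 Cut.none Ext.none)

def k0_pp_123 : ∃ t, chk3 f_pp_123 t 1 1 1 = true :=
  ⟨(l 4), by decide +kernel⟩

theorem c_pp_123 : CertFX 536870912 536870912 1073741824 536870912 1046898278 26843546 true true true .npn 1 2 3
    ndF1q1 ndF7q2 pcF3 Cut.none Ext.none :=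
  certFX0 (fam := true) (s1 := true) (s2 := true) (a := 1) (b := 2) (c := 3) (cn := .npn) (n1 := ndF1q1) (n2 := ndF7q2) (pc := pcF3) (cut := Cut.none) (xt := Ext.none) (P1 := 536870912) (W1 := 536870912) (P2 := 1073741824) (W2 := 536870912) (P3 := 1046898278) (W3 := 26843546)
    rfl k0_pp_123

noncomputable def f_pp_133 : ℕ → ℕ → ℕ → ℕ → Bool := onCell 536870912 536870912 0 1230186008 1046898278 26843546
    (rowFX 0 true true true .dn 1 3 3 (qsf 536870912 536870912 0 1230186008 3) ndF1q1 ndF7q3 pcF3 Cut.none Ext.none)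

def k0_pp_133 : ∃ t, chk3 f_pp_133 t 1 1 1 = true :=
  ⟨(l 4), by decide +kernel⟩

theorem c_pp_133 : CertFX 536870912 536870912 0 1230186008 1046898278 26843546 true true true .dn 1 3 3
    ndF1q1 ndF7q3 pcF3 Cut.none Ext.none :=
  certFX0 (fam := true) (s1 := true) (s2 := true) (a := 1) (b := 3) (c := 3) (cn := .dn) (n1 := ndF1q1) (n2 := ndF7q3) (pc := pcF3) (cut := Cut.none) (xt := Ext.none) (P1 := 536870912) (W1 := 536870912) (P2 := 0) (W2 := 1230186008) (P3 := 1046898278) (W3 := 26843546)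
    rfl k0_pp_133

noncomputable def f_pp_202_a : ℕ → ℕ → ℕ → ℕ → Bool := onCell 0 420477299 0 536870912 1046898278 26843546
    (rowFX 0 true true true .pp 2 0 2 (qsf 0 420477299 0 536870912 2) ndF1q2a ndF7q0 pcF2 Cut.none Ext.none)

def k0_pp_202_a : ∃ t, chk3 f_pp_202_a t 1 1 1 = true :=
  ⟨(l 4), by decide +kernel⟩

theorem c_pp_202_a : CertFX 0 420477299 0 536870912 1046898278 26843546 true true true .pp 2 0 2
    ndF1q2a ndF7q0 pcF2 Cut.none Ext.none :=
  certFX0 (fam := true) (s1 := true) (s2 := true) (a := 2) (b := 0) (c := 2) (cn := .pp) (n1 := ndF1q2a) (n2 := ndF7q0) (pc := pcF2) (cut := Cut.none) (xt := Ext.none) (P1 := 0) (W1 := 420477299) (P2 := 0) (W2 := 536870912) (P3 := 1046898278) (W3 := 26843546)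
    rfl k0_pp_202_a

noncomputable def f_pp_202_b : ℕ → ℕ → ℕ → ℕ → Bool := onCell 1239849684 370763052 0 536870912 1046898278 26843546
    (rowFX 0 true true true .pp 2 0 2 (qsf 1239849684 370763052 0 536870912 2) ndF1q2b ndF7q0 pcF2 Cut.none Ext.none)

def k0_pp_202_b : ∃ t, chk3 f_pp_202_b t 1 1 1 = true :=
  ⟨(l 4), by decide +kernel⟩

theorem c_pp_202_b : CertFX 1239849684 370763052 0 536870912 1046898278 26843546 true true true .pp 2 0 2
    ndF1q2b ndF7q0 pcF2 Cut.none Ext.none :=
  certFX0 (fam := true) (s1 := true) (s2 := true) (a := 2) (b := 0) (c := 2) (cn := .pp) (n1 := ndF1q2b) (n2 := ndF7q0) (pc := pcF2) (cut := Cut.none) (xt := Ext.none) (P1 := 1239849684) (W1 := 370763052) (P2 := 0) (W2 := 536870912) (P3 := 1046898278) (W3 := 26843546)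
    rfl k0_pp_202_b

noncomputable def f_pp_203_a : ℕ → ℕ → ℕ → ℕ → Bool := onCell 0 420477299 0 536870912 1046898278 26843546
    (rowFX 0 true true true .up 2 0 3 (qsf 0 420477299 0 536870912 3) ndF1q2a ndF7q0 pcF3 Cut.none Ext.none)

def k0_pp_203_a : ∃ t, chk3 f_pp_203_a t 1 1 1 = true :=
  ⟨(l 4), by decide +kernel⟩

theorem c_pp_203_a : CertFX 0 420477299 0 536870912 1046898278 26843546 true true true .up 2 0 3
    ndF1q2a ndF7q0 pcF3 Cut.none Ext.none :=
  certFX0 (fam := true) (s1 := true) (s2 := true) (a := 2) (b := 0) (c := 3) (cn := .up) (n1 := ndF1q2a) (n2 := ndF7q0) (pc := pcF3) (cut := Cut.none) (xt := Ext.none) (P1 := 0) (W1 := 420477299) (P2 := 0) (W2 := 536870912) (P3 := 1046898278) (W3 := 26843546)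
    rfl k0_pp_203_a

noncomputable def f_pp_203_b : ℕ → ℕ → ℕ → ℕ → Bool := onCell 1239849684 370763052 0 536870912 1046898278 26843546
    (rowFX 0 true true true .up 2 0 3 (qsf 1239849684 370763052 0 536870912 3) ndF1q2b ndF7q0 pcF3 Cut.none Ext.none)

def k0_pp_203_b : ∃ t, chk3 f_pp_203_b t 1 1 1 = true :=
  ⟨(l 4), by decide +kernel⟩

theorem c_pp_203_b : CertFX 1239849684 370763052 0 536870912 1046898278 26843546 true true true .up 2 0 3
    ndF1q2b ndF7q0 pcF3 Cut.none Ext.none :=
  certFX0 (fam := true) (s1 := true) (s2 := true) (a := 2) (b := 0) (c := 3) (cn := .up) (n1 := ndF1q2b) (n2 := ndF7q0) (pc := pcF3) (cut := Cut.none) (xt := Ext.none) (P1 := 1239849684) (W1 := 370763052) (P2 := 0) (W2 := 536870912) (P3 := 1046898278) (W3 := 26843546)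
    rfl k0_pp_203_b

noncomputable def f_pp_213_a : ℕ → ℕ → ℕ → ℕ → Bool := onCell 0 420477299 536870912 536870912 1046898278 26843546
    (rowFX 0 true true true .pnn 2 1 3 (qsf 0 420477299 536870912 536870912 3) ndF1q2a ndF7q1 pcF3 Cut.none Ext.none)

def k0_pp_213_a : ∃ t, chk3 f_pp_213_a t 1 1 1 = true :=
  ⟨(l 4), by decide +kernel⟩

theorem c_pp_213_a : CertFX 0 420477299 536870912 536870912 1046898278 26843546 true true true .pnn 2 1 3
    ndF1q2a ndF7q1 pcF3 Cut.none Ext.none :=
  certFX0 (fam := true) (s1 := true) (s2 := true) (a := 2) (b := 1) (c := 3) (cn := .pnn) (n1 := ndF1q2a) (n2 := ndF7q1) (pc := pcF3) (cut := Cut.none) (xt := Ext.none) (P1 := 0) (W1 := 420477299) (P2 := 536870912) (W2 := 536870912) (P3 := 1046898278) (W3 := 26843546)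
    rfl k0_pp_213_a

noncomputable def f_pp_213_b : ℕ → ℕ → ℕ → ℕ → Bool := onCell 1239849684 370763052 536870912 536870912 1046898278 26843546
    (rowFX 0 true true true .pnn 2 1 3 (qsf 1239849684 370763052 536870912 536870912 3) ndF1q2b ndF7q1 pcF3 Cut.none Ext.none)

def k0_pp_213_b : ∃ t, chk3 f_pp_213_b t 1 1 1 = true :=
  ⟨(l 4), by decide +kernel⟩

theorem c_pp_213_b : CertFX 1239849684 370763052 536870912 536870912 1046898278 26843546 true true true .pnn 2 1 3
    ndF1q2b ndF7q1 pcF3 Cut.none Ext.none :=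
  certFX0 (fam := true) (s1 := true) (s2 := true) (a := 2) (b := 1) (c := 3) (cn := .pnn) (n1 := ndF1q2b) (n2 := ndF7q1) (pc := pcF3) (cut := Cut.none) (xt := Ext.none) (P1 := 1239849684) (W1 := 370763052) (P2 := 536870912) (W2 := 536870912) (P3 := 1046898278) (W3 := 26843546)
    rfl k0_pp_213_b

noncomputable def f_pp_303 : ℕ → ℕ → ℕ → ℕ → Bool := onCell 1610612736 469762048 0 536870912 1046898278 26843546
    (rowFX 0 true true true .npn 3 0 3 (qsf 1610612736 469762048 0 536870912 3) ndF1q3 ndF7q0 pcF3 Cut.none Ext.none)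

def k0_pp_303 : ∃ t, chk3 f_pp_303 t 1 1 1 = true :=
  ⟨(l 4), by decide +kernel⟩

theorem c_pp_303 : CertFX 1610612736 469762048 0 536870912 1046898278 26843546 true true true .npn 3 0 3
    ndF1q3 ndF7q0 pcF3 Cut.none Ext.none :=
  certFX0 (fam := true) (s1 := true) (s2 := true) (a := 3) (b := 0) (c := 3) (cn := .npn) (n1 := ndF1q3) (n2 := ndF7q0) (pc := pcF3) (cut := Cut.none) (xt := Ext.none) (P1 := 1610612736) (W1 := 469762048) (P2 := 0) (W2 := 536870912) (P3 := 1046898278) (W3 := 26843546)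
    rfl k0_pp_303

noncomputable def f_pp_313 : ℕ → ℕ → ℕ → ℕ → Bool := onCell 1610612736 469762048 536870912 536870912 1046898278 26843546
    (rowFX 0 true true true .dn 3 1 3 (qsf 1610612736 469762048 536870912 536870912 3) ndF1q3 ndF7q1 pcF3 Cut.none Ext.none)

def k0_pp_313 : ∃ t, chk3 f_pp_313 t 1 1 1 = true :=
  ⟨(l 4), by decide +kernel⟩

theorem c_pp_313 : CertFX 1610612736 469762048 536870912 536870912 1046898278 26843546 true true true .dn 3 1 3
    ndF1q3 ndF7q1 pcF3 Cut.none Ext.none :=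
  certFX0 (fam := true) (s1 := true) (s2 := true) (a := 3) (b := 1) (c := 3) (cn := .dn) (n1 := ndF1q3) (n2 := ndF7q1) (pc := pcF3) (cut := Cut.none) (xt := Ext.none) (P1 := 1610612736) (W1 := 469762048) (P2 := 536870912) (W2 := 536870912) (P3 := 1046898278) (W3 := 26843546)
    rfl k0_pp_313

noncomputable def f_pm_001 : ℕ → ℕ → ℕ → ℕ → Bool := onCell 67108864 469762048 536870912 536870912 1046898278 26843546
    (rowFX 1 true true false .up 0 0 1 (qsf 67108864 469762048 0 536870912 1) ndF1q0 ndF7q0 pcF1 Cut.none Ext.none)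

def k0_pm_001 : ∃ t, chk3 f_pm_001 t 1 1 1 = true :=
  ⟨(b (l 3) (b (a (l 3) (b (a (l 3) (l 3)) (a (a (l 3) (b (l 3) (c (l 380809077063) (l 336785659015)))) (c (b (l 474761646519) (a (l 207399845911) (l 16769184))) (b (l 306184179463) (a (l 258939453543) (l 16768976))))))) (a (l 2) (a (a (l 2) (b (b (c (l 16575048) (l 16549368)) (l 2)) (l 2))) (b (b (c (a (l 16598904) (l 16602448)) (a (l 16594280) (l 16597904))) (c (l 152034085607) (l 183709428087))) (b (c (b (l 16218808) (l 16105320)) (l 191225067335)) (a (l 2) (c (l 15835632) (l 15883184))))))))), by decide +kernel⟩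

theorem c_pm_001 : CertFX 67108864 469762048 0 536870912 1046898278 26843546 true true false .up 0 0 1
    ndF1q0 ndF7q0 pcF1 Cut.none Ext.none :=
  certFX1 (fam := true) (s1 := true) (s2 := false) (a := 0) (b := 0) (c := 1) (cn := .up) (n1 := ndF1q0) (n2 := ndF7q0) (pc := pcF1) (cut := Cut.none) (xt := Ext.none) (P1 := 67108864) (W1 := 469762048) (P2 := 0) (W2 := 536870912) (P3 := 1046898278) (W3 := 26843546)
    rfl (fun _ => rfl) k0_pm_001

end Pool.Agent.Strip051.G.IE1.Tab.C.FA17

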