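import Pool.Agent.Strip051.G.IE1.Tab

/-! # Certificates F17 (generated) -/

set_option linter.all false
set_option maxRecDepth 100000

namespace Pool.Agent.Strip051.G.IE1.Tab.C.FA17

open Pool.Agent.Strip051.PB Pool.Agent.Strip051.PB.T
open Pool.Agent.Strip051.G.IE1.Tab

noncomputable def f_pm_011 : ℕ → ℕ → ℕ → ℕ → Bool := onCell 67108864 469762048 536870912 536870912 1046898278 26843546
    (rowFX 1 true true false .pnn 0 1 1 (qsf 67108864 469762048 536870912 536870912 1) ndF1q0 ndF7q1 pcF1 Cut.none Ext.none)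

def k0_pm_011 : ∃ t, chk3 f_pm_011 t 1 2 1 = true :=
  ⟨(l 3), by decide +kernel⟩

def k1_pm_011 : ∃ t, chk3 f_pm_011 t 1 6 1 = true :=
  ⟨(a (l 3) (a (a (l 3) (b (l 1) (b (l 3) (c (l 380809077063) (l 336785659015))))) (l 1))), by decide +kernel⟩

def k2_pm_011 : ∃ t, chk3 f_pm_011 t 4 14 1 = true :=
  ⟨(l 3), by decide +kernel⟩

def k3_pm_011 : ∃ t, chk3 f_pm_011 t 8 15 1 = true :=
  ⟨(b (l 3) (a (b (b (l 3) (c (a (b (l 3) (c (c (a (l 16633184) (l 16654104)) (l 16615408)) (l 16602624))) (c (b (l 16604504) (l 16597512)) (l 248201591223))) (a (l 887078140455) (l 16508672)))) (c (c (a (b (a (c (l 16593512) (b (l 16660432) (l 16630032))) (c (l 16547688) (l 16635064))) (a (c (l 16565000) (l 16579848)) (c (l 16544168) (l 16551808)))) (b (c (l 16506008) (l 16574448)) (c (l 16464048) (l 16528000)))) (a (b (a (l 16630208) (l 16628616)) (a (c (l 16557536) (l 16635128)) (l 16593296))) (b (l 16564680) (l 16529416)))) (a (b (c (b (l 16601792) (l 16591896)) (l 16631704)) (c (l 16548344) (b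 (l 16590928) (l 16554880)))) (b (c (l 16550304) (l 16543272)) (c (l 16523720) (l 16451464)))))) (c (b (a (b (c (l 587504029687) (l 16564472)) (c (l 16477888) (l 234779714503))) (b (c (l 16585480) (l 16574584)) (c (l 16547360) (l 16531200)))) (a (b (c (l 16500400) (l 16468064)) (c (l 16450760) (l 16448248))) (b (l 16490704) (l 16431920)))) (b (a (c (l 266991967239) (l 272897546807)) (l 260012661975)) (b (a (c (b (l 16481592) (l 16466184)) (l 16466784)) (l 16427744)) (a (c (l 16441776) (b (l 16440848) (l 16425976))) (c (l 16423768) (l 16414096)))))))), by decide +kernel⟩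

def k4_pm_011 : ∃ t, chk3 f_pm_011 t 9 15 1 = true :=
  ⟨(b (b (l 3) (b (a (l 3) (c (l 16675280) (l 16675024))) (a (c (l 653002437255) (l 617032097223)) (c (l 16653472) (l 16653200))))) (b (c (a (b (c (l 16600368) (l 16611992)) (c (l 16583112) (l 16568960))) (b (c (l 16624728) (l 16616864)) (c (l 16594352) (l 16561376)))) (a (c (l 16544176) (l 16542776)) (b (l 16595088) (l 16553504)))) (c (a (b (c (l 16534608) (l 16525336)) (l 16469064)) (b (l 16484640) (l 16492904))) (a (b (c (l 16513256) (l 16507168)) (c (l 16462320) (l 16453952))) (b (c (l 16534456) (l 16529496)) (c (l 16487528) (l 16480536))))))), by decide +kernel⟩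

def k5_pm_011 : ∃ t, chk3 f_pm_011 t 5 7 1 = true :=
  ⟨(b (b (l 3) (b (a (l 3) (a (l 3) (c (l 16500440) (l 16493952)))) (a (a (l 3) (c (l 608442014327) (l 411410385047))) (c (l 264307549095) (l 188608753751))))) (b (a (b (a (c (l 16578200) (l 16597344)) (c (l 16510704) (l 16528640))) (c (a (b (l 16598952) (l 16576288)) (b (l 16529120) (l 16506616))) (a (l 16565064) (l 16514928)))) (c (b (l 16455688) (a (l 16573472) (l 16400992))) (a (l 16441008) (l 16307120)))) (a (b (c (a (b (l 16527080) (l 16477464)) (c (l 16427184) (l 16460848))) (a (l 16522776) (l 16454144))) (c (a (l 16401888) (l 16358000)) (a (b (l 16473024) (l 16414296)) (b (l 16406280) (l 16350056))))) (b (c (a (l 16547400) (l 16402896)) (l 16499032)) (c (l 16427592) (a (l 16372392) (l 16427824))))))), by decide +kernel⟩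

def k6_pm_011 : ∃ t, chk3 f_pm_011 t 3 7 1 = true :=
  ⟨(b (a (b (c (a (l 373829320391) (l 16575048)) (a (l 362018141655) (l 16549368))) (a (b (c (l 16428864) (l 16419832)) (a (a (l 16354904) (l 16315320)) (l 16310024))) (c (l 16375808) (l 16365384)))) (a (a (b (l 16553792) (l 16291400)) (b (l 1) (l 16378560))) (l 1))) (a (b (a (c (b (a (l 16282904) (l 16201416)) (a (l 16241736) (l 16112016))) (a (l 16166584) (b (l 16186552) (l 16097704)))) (c (b (l 16201720) (l 16079352)) (l 16123816))) (a (b (c (l 15971080) (l 16154968)) (c (l 16166592) (a (l 16227736) (l 16083016)))) (c (b (l 15971440) (l 15933704)) (b (l 15979520) (a (l 15940568) (l 15889184)))))) (b (c (b (l 16218808) (l 16105320)) (a (l 16138040) (l 16153240))) (c (b (l 16013344) (l 15929608)) (b (l 15998456) (a (l 15902720) (l 15922704))))))), by decide +kernel⟩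

theorem s7_pm_011 : ∃ t, chk3 f_pm_011 t 4 15 1 = true := ex3_a k3_pm_011 k4_pm_011

theorem s8_pm_011 : ∃ t, chk3 f_pm_011 t 4 7 1 = true := ex3_b k2_pm_011 s7_pm_011

theorem s9_pm_011 : ∃ t, chk3 f_pm_011 t 2 7 1 = true := ex3_a s8_pm_011 k5_pm_011

theorem s10_pm_011 : ∃ t, chk3 f_pm_011 t 1 7 1 = true := ex3_a s9_pm_011 k6_pm_011

theorem s11_pm_011 : ∃ t, chk3 f_pm_011 t 1 3 1 = true := ex3_b k1_pm_011 s10_pm_011

theorem s12_pm_011 : ∃ t, chk3 f_pm_011 t 1 1 1 = true := ex3_b k0_pm_011 s11_pm_011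

theorem c_pm_011 : CertFX 67108864 469762048 536870912 536870912 1046898278 26843546 true true false .pnn 0 1 1
    ndF1q0 ndF7q1 pcF1 Cut.none Ext.none :=
  certFX1 (fam := true) (s1 := true) (s2 := false) (a := 0) (b := 1) (c := 1) (cn := .pnn) (n1 := ndF1q0) (n2 := ndF7q1) (pc := pcF1) (cut := Cut.none) (xt := Ext.none) (P1 := 67108864) (W1 := 469762048) (P2 := 536870912) (W2 := 536870912) (P3 := 1046898278) (W3 := 26843546)
    rfl (fun _ => rfl) s12_pm_011

noncomputable def f_pm_012 : ℕ → ℕ → ℕ → ℕ → Bool := onCell 1073741824 536870912 536870912 536870912 1046898278 26843546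
    (rowFX 2 true true false .pnp 0 1 2 (qsf 67108864 469762048 536870912 536870912 2) ndF1q0 ndF7q1 pcF2 Cut.none Ext.none)

def k0_pm_012 : ∃ t, chk3 f_pm_012 t 4 2 1 = true :=
  ⟨(a (b (b (a (a (b (l 16321512) (c (l 16204192) (l 16088312))) (l 16110192)) (l 15798784)) (a (c (a (a (l 16361360) (l 16253912)) (l 16044936)) (a (c (l 16224216) (l 16258160)) (l 16087192))) (c (a (l 15783776) (c (l 15740488) (l 15726504))) (a (l 15907056) (l 15706448))))) (a (c (b (a (b (l 16084200) (l 16418080)) (b (l 16145848) (l 16288360))) (a (c (l 16353232) (l 16291376)) (l 16292256))) (b (c (a (b (l 16279536) (l 16405776)) (l 16150784)) (b (l 16023856) (l 16327120))) (a (a (a (l 16305808) (l 16290432)) (l 16280968)) (b (l 16429032) (l 16476760))))) (c (b (a (b (l 15982040) (l 16140112)) (c (l 15863248) (l 15892504))) (a (l 16165024) (c (l 16292816) (l 16285376)))) (b (a (l 16014600) (l 15813888)) (a (l 16401112) (l 16259592)))))) (b (b (l 15258496) (a (b (l 15420288) (c (a (l 15542912) (l 15351320))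 (l 15414536))) (b (l 15072712) (a (c (l 15171712) (l 15129328)) (l 14976896))))) (a (b (c (c (l 15427096) (l 15476056)) (b (l 15502528) (l 15706352))) (c (a (l 16101184) (l 15849864)) (a (l 16133064) (l 15877448)))) (b (c (b (a (l 15234752) (l 15044192)) (l 15348672)) (b (a (l 15195432) (l 14999552)) (l 15314648))) (c (a (l 15611920) (l 15608288)) (a (l 15697896) (l 15584416))))))), by decide +kernel⟩

def k1_pm_012 : ∃ t, chk3 f_pm_012 t 8 6 1 = true :=
  ⟨(a (a (b (c (b (a (l 16275576) (l 16275064)) (c (b (l 16179864) (c (l 16023600) (l 16188584))) (a (l 16207976) (l 16154624)))) (b (c (l 16275680) (l 16276880)) (c (a (l 16204888) (l 16160064)) (a (l 16205632) (l 16164072))))) (b (c (c (a (c (l 16280640) (l 16281504)) (c (l 16188280) (l 16169576))) (c (a (l 16279528) (l 16192520)) (l 16235560))) (c (a (l 16275400) (l 16202096)) (a (l 16278600) (l 16209080)))) (c (b (c (a (l 16308104) (l 16211552)) (c (a (l 16306200) (l 16213472)) (l 16259968))) (c (a (l 16296520) (l 16206344))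 (a (c (l 16290848) (c (l 16291648) (l 16290520))) (c (l 16207360) (l 16215144))))) (c (a (l 16233280) (l 16223976)) (a (a (l 16318896) (l 16282960)) (l 16233832)))))) (b (c (b (l 16293616) (c (b (l 16149192) (c (l 16085544) (l 16088336))) (l 16131464))) (b (l 16279664) (c (l 16136744) (l 16134320)))) (c (b (c (a (l 16118928) (l 16058032)) (c (l 16097152) (l 16102424))) (c (a (l 16132048) (l 16063920)) (c (l 16085584) (l 16116440)))) (b (c (l 16107224) (l 16105320)) (c (l 16122400) (l 16121728)))))) (b (c (b (a (l 16322888) (l 16306952)) (c (c (a (l 16122704) (l 16104632)) (l 16136656)) (l 16052216))) (a (l 16058440) (l 16054984))) (c (a (c (b (b (l 16001632) (l 15974040)) (l 15965384)) (b (b (l 16007288) (c (l 15980568) (l 15981720))) (c (l 15974680) (l 15891896)))) (c (b (c (b (l 15982936) (l 15883320)) (a (l 15943120) (l 15923904))) (l 15768136)) (b (c (l 15892888) (l 15931736)) (c (l 15830024) (l 15821888))))) (b (a (b (l 15999520) (l 15972600)) (b (l 15964696) (l 15862432)))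 (a (l 15967040) (l 15810016)))))), by decide +kernel⟩

def k2_pm_012 : ∃ t, chk3 f_pm_012 t 32 14 1 = true :=
  ⟨(c (b (c (b (a (l 16270592) (l 16175464)) (a (l 16234600) (l 16149016))) (a (b (c (l 16266344) (a (l 16288848) (l 16237128))) (c (l 16271880) (l 16269768))) (c (l 16175040) (b (l 16182488) (l 16178976))))) (c (a (b (c (l 16215624) (l 16342608)) (b (c (l 16362400) (l 16397592)) (a (l 16453056) (l 16367720)))) (b (c (a (l 16205960) (l 16145432)) (a (l 16230016) (l 16175440))) (c (l 16175432) (a (l 16289144) (l 16223928))))) (a (b (c (l 16342352) (l 16277824)) (c (b (l 16418864) (b (l 16454168) (l 16426256))) (a (l 16488688) (l 16401672)))) (c (b (l 16210824) (b (l 16272408) (l 16304048))) (b (l 16218304) (l 16304744)))))) (a (c (b (c (a (b (l 16290096) (l 16276008)) (b (l 16136520) (a (l 16250560) (l 16227600)))) (b (l 16264488) (l 16270536))) (c (b (a (l 16375688) (l 16217192)) (a (l 16487208) (l 16404032))) (a (b (c (l 16377504) (l 16375376)) (c (l 16442584) (b (l 16457080)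 (l 16468464)))) (c (b (l 16306072) (l 16406408)) (b (l 16310232) (l 16412352)))))) (b (b (l 16270768) (a (l 16295896) (l 16253096))) (c (b (l 16348088) (b (l 16427256) (c (a (a (l 16530112) (l 16490528)) (l 16445584)) (l 16484824)))) (a (b (l 16381224) (l 16430576)) (l 16377472))))) (c (b (c (b (l 16192416) (l 16186320)) (a (l 16211472) (l 16152304))) (c (b (l 16183488) (l 16314568)) (b (c (l 16235080) (l 16243104)) (c (l 16323792) (l 16330912))))) (b (l 16205656) (b (l 16247848) (c (c (a (l 16366944) (l 16312832)) (l 16341248)) (l 16341064))))))), by decide +kernel⟩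

def k3_pm_012 : ∃ t, chk3 f_pm_012 t 32 15 1 = true :=
  ⟨(b (a (b (b (c (c (c (a (l 228739738039) (l 16382344)) (l 16447816)) (c (l 16400424) (a (l 16553216) (l 16473688)))) (c (c (a (l 16554512) (l 16479120)) (a (l 467110611255) (l 16465176))) (c (c (a (a (l 16574704) (l 16495856)) (l 16494936)) (l 16486696)) (l 413960308967)))) (a (l 1) (a (l 1) (c (c (l 483753316247) (l 489658967655)) (c (l 513281442007) (c (l 522945156551) (l 16531616))))))) (l 1)) (b (c (c (b (a (l 16312848) (l 16240384)) (c (a (l 16250400) (l 16259192)) (l 16190768))) (c (b (l 16297632) (l 16354200)) (b (l 16357000) (l 16295128)))) (c (c (l 191158575943) (l 186326767735)) (c (c (a (l 16462024) (l 16327088)) (a (c (l 214781086887) (b (l 16451440) (l 16493472))) (l 215317825751))) (l 16440440)))) (a (l 1) (b (c (c (l 479458125543) (l 16361320)) (c (l 510596901319) (c (c (l 16465696) (l 16466808)) (l 16471344)))) (l 1))))) (l 1)), by decide +kernel⟩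

def k4_pm_012 : ∃ t, chk3 f_pm_012 t 33 7 1 = true :=
  ⟨(b (c (b (c (b (l 16077608) (l 16066080)) (b (l 16008800) (l 16084120))) (c (b (a (c (l 16080104) (l 16112024)) (l 16018656)) (a (c (l 16091728) (l 16136880)) (l 15929888))) (b (l 16098616) (c (a (l 16169536) (l 16075136)) (l 16150424))))) (b (c (a (c (l 16133560) (c (l 16057392) (l 16142136))) (b (l 15979440) (l 15988328))) (l 16102912)) (c (a (c (l 16118416) (b (c (l 16156616) (l 16160592)) (c (l 16219512) (l 16221688)))) (c (l 15992328) (b (l 16080392) (l 16111320)))) (b (l 16116592) (a (l 16164224) (l 16109576)))))) (b (c (c (b (a (b (l 16148904) (l 16182368)) (l 16052080)) (a (b (c (l 16123648) (l 16225064)) (l 475162979767)) (b (l 16102576) (c (l 16111288) (l 16150768))))) (b (a (c (l 16148936) (l 16234672)) (l 16138824)) (a (b (l 16224232) (l 16296520)) (l 181494410823)))) (c (b (a (c (l 16307080) (l 16193224)) (l 16085392)) (c (a (l 458520229687) (b (l 16247424) (l 16266240))) (a (b (l 16379776) (l 16403720)) (l 16275584))))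 (b (a (a (b (l 16329376) (l 16335488)) (l 16286208)) (l 16186992)) (a (c (b (l 16317520) (l 16408976)) (l 351146102343)) (b (l 16255512) (l 16289328)))))) (a (l 1) (b (b (a (l 1) (c (c (l 16161184) (l 16198144)) (c (l 16197088) (l 16284360)))) (l 1)) (l 1))))), by decide +kernel⟩

def k5_pm_012 : ∃ t, chk3 f_pm_012 t 17 14 1 = true :=
  ⟨(c (c (b (a (b (l 15952160) (l 15949640)) (b (l 15804824) (l 15811568))) (a (b (l 15928408) (l 15836384)) (b (c (l 15793832) (l 15819480)) (c (l 15739800) (l 15777944))))) (b (a (b (a (l 16003360) (l 15928384)) (l 15962264)) (l 15720856)) (a (b (l 15965744) (c (l 15956840) (l 15973488))) (b (l 15817464) (l 15793288))))) (a (b (b (l 15955152) (l 15954976)) (a (l 16004640) (l 15920304))) (b (c (a (l 15830400) (c (l 15753032) (l 15737608))) (l 15781160)) (c (c (l 15804360) (b (l 15804552) (l 15794392))) (a (l 15828592) (l 15743120)))))), by decide +kernel⟩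

def k6_pm_012 : ∃ t, chk3 f_pm_012 t 17 15 1 = true :=
  ⟨(c (b (a (b (c (l 15897352) (a (l 15943336) (l 15875528))) (c (a (b (l 15989288) (l 16031680)) (l 15896256)) (a (b (l 16064832) (l 16029704)) (l 15806344)))) (c (b (a (l 15755704) (l 15671536)) (a (l 15779264) (l 15539224))) (b (l 15767672) (a (l 15821320) (l 15695856))))) (a (b (c (a (b (l 232496969159) (l 16128216)) (b (l 15962280) (l 16017080))) (a (b (l 16118016) (l 16142640)) (l 182030929271))) (a (l 1) (c (l 482141901751) (l 534755301767)))) (b (a (c (b (l 15838144) (l 15892616)) (l 15881224)) (c (l 15736600) (l 15737464))) (c (a (c (l 15964864) (l 454224416119)) (a (l 15875424) (l 15809184))) (a (l 15957320) (l 15830048)))))) (b (a (b (c (l 16006416) (l 15975992)) (c (a (b (l 16116096) (l 16151104)) (l 15993296)) (a (l 16141904) (l 15999568)))) (c (b (l 15789656) (a (l 15856616) (l 15729832))) (a (b (l 15826224) (l 15862544)) (b (l 15731744) (l 15651464))))) (a (b (c (b (a (l 16125520) (l 16032888)) (l 376915181639))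 (a (b (l 16190848) (l 16200512)) (l 184715402151))) (c (l 588442402423) (b (c (l 15967712) (l 16145984)) (l 1)))) (b (c (b (l 15795952) (l 15676504)) (a (l 15923368) (l 15776064))) (c (a (l 15951488) (l 15822352)) (b (c (l 351681766743) (l 15867960)) (a (l 623875664375) (l 340944400967)))))))), by decide +kernel⟩

def k7_pm_012 : ∃ t, chk3 f_pm_012 t 18 3 1 = true :=
  ⟨(b (b (c (c (b (l 16407504) (c (l 16117976) (l 16202936))) (l 16055160)) (c (l 16052952) (l 16050752))) (c (b (c (c (l 15947200) (l 15833520)) (c (l 15744832) (l 15953584))) (c (a (l 15737064) (l 15711000)) (c (a (l 15728688) (l 15700600)) (a (l 15676152) (l 15646816))))) (b (a (l 15919400) (l 15966344)) (a (l 15643104) (l 15678000))))) (b (c (b (c (b (l 15626296) (l 15622248)) (a (l 15665888) (l 15562672))) (b (c (l 15615712) (l 15625096)) (c (l 15565952) (l 15549920)))) (c (b (a (c (l 15654688) (b (l 15647616) (l 15633216))) (c (l 15549232) (l 15420816))) (c (l 15613368) (b (a (l 15668856) (l 15553896)) (l 15611448))))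 (b (l 15584520) (a (a (l 15675000) (l 15623824)) (l 15370176))))) (a (c (b (c (b (l 15583416) (l 15555384)) (b (l 15627008) (l 15581832))) (b (c (l 15587296) (l 15583128)) (a (l 15720528) (l 15622472)))) (b (c (b (l 15647056) (l 15468160)) (a (b (l 15657352) (l 15645480)) (l 15561112))) (b (c (b (l 15594920) (l 15604216)) (l 15618088)) (c (l 15659800) (b (l 15608704) (a (l 15729032) (l 15625624))))))) (c (b (b (c (l 15492736) (l 15535528)) (l 15476496)) (b (l 15450264) (l 15490096))) (b (b (c (l 15554888) (l 15522448)) (l 15510888)) (b (c (l 15463912) (l 15476872)) (c (l 15471208) (b (l 15469520) (l 15480704))))))))), by decide +kernel⟩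

def k8_pm_012 : ∃ t, chk3 f_pm_012 t 19 3 1 = true :=
  ⟨(c (b (b (b (l 15923968) (l 16052760)) (b (c (a (a (l 15952888) (l 16002640)) (l 15903648)) (l 16061272)) (c (a (l 15713352) (l 15804208)) (c (a (l 15721376) (l 15788184)) (b (l 15831256) (a (l 15628664) (l 15697552))))))) (b (b (b (c (l 15538352) (a (l 15485208) (l 15539336))) (a (l 15445448) (l 15431976))) (c (a (l 15442800) (l 15373032)) (a (l 15457576) (l 15387248)))) (b (a (b (c (l 15395632) (l 15437448)) (a (l 15406832) (l 15375640))) (b (l 15344368) (l 15327288))) (a (a (l 15378728) (l 15340568)) (l 15300896))))) (b (b (b (l 15999744) (l 16135440)) (b (l 15843648) (l 15528176))) (b (b (b (c (c (a (l 15339936) (l 15519408)) (l 15507504)) (l 15497224)) (c (a (a (l 15383592) (l 15407464)) (c (l 15414024) (l 15377200))) (l 15415152))) (c (c (l 15420320) (b (a (l 15447272) (l 15378664)) (l 15413784))) (a (a (l 15448512) (l 15405072)) (l 15353232)))) (b (b (c (a (l 15455904) (l 15379024)) (a (a (l 15467944) (l 15425680))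 (l 15367744))) (a (l 15423392) (l 15359000))) (a (b (c (l 15369248) (l 15381272)) (c (l 15338472) (a (l 15364648) (l 15321376)))) (b (l 15166520) (l 15157656))))))), by decide +kernel⟩

def k9_pm_012 : ∃ t, chk3 f_pm_012 t 5 2 1 = true :=
  ⟨(b (a (a (a (l 14848920) (l 2)) (l 2)) (l 2)) (a (a (b (b (b (l 14901352) (a (l 14868288) (a (l 14913432) (l 15126528)))) (a (c (l 15047632) (l 15005376)) (c (a (l 15052576) (l 15240680)) (l 15024352)))) (a (c (l 15413584) (l 15384648)) (c (a (l 15398024) (l 15541448)) (a (l 15368760) (l 15516072))))) (b (b (l 15636384) (c (a (l 15536456) (l 15923568)) (l 15564456))) (c (a (l 15770232) (l 16119136)) (a (l 15772488) (l 16110104))))) (a (b (l 16439472) (c (a (l 16408856) (l 16309440)) (a (l 16407832) (l 16299416)))) (b (l 2) (c (l 16171392) (l 16241728)))))), by decide +kernel⟩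

def k10_pm_012 : ∃ t, chk3 f_pm_012 t 10 6 1 = true :=
  ⟨(a (b (a (c (b (l 15812416) (l 16094608)) (l 15856504)) (c (a (l 15862728) (l 15976712)) (a (l 15893008) (l 15988904)))) (b (c (a (c (c (l 16158376) (l 16156952)) (l 16159984)) (c (a (l 16100080) (b (l 16181672) (l 16047112))) (l 16142704))) (a (l 16156664) (l 15929936))) (c (a (c (l 15809432) (c (l 15854856) (l 15848392))) (a (c (l 15867360) (b (l 15953216) (l 15789384))) (c (l 15672400) (c (l 15742904) (l 15827648))))) (a (l 15845648) (l 15674544))))) (b (c (b (l 16220712) (l 16131232)) (b (l 16239776) (l 16124712))) (c (b (a (c (l 15981888) (l 15981088)) (l 15811104)) (c (a (l 15698760) (l 15515272)) (c (l 15488800) (l 15591976)))) (b (l 15819152) (l 15576944))))), by decide +kernel⟩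

def k11_pm_012 : ∃ t, chk3 f_pm_012 t 20 7 1 = true :=
  ⟨(b (b (a (c (c (l 15560248) (b (l 15609576) (l 15457224))) (c (c (b (l 15590920) (l 15448280)) (l 15387384)) (l 15506936))) (c (a (c (l 15588736) (l 15484728)) (c (l 15552480) (c (l 15532192) (l 15523576)))) (c (a (c (l 15277872) (l 15525808)) (b (l 15581720) (c (l 15443680) (l 15438488)))) (l 15519408)))) (c (a (c (l 15328680) (l 15342672)) (a (c (l 15305248) (l 15319136)) (c (l 15259896) (l 15273200)))) (a (c (c (l 15339888) (b (l 15337192) (l 15309960))) (b (l 15308168) (l 15290592))) (a (c (c (l 15317824) (l 15148336)) (l 15102320)) (a (c (c (l 15296960) (l 15207168)) (l 15164624)) (l 15037576)))))) (b (a (c (b (l 15187120) (l 15253152)) (b (c (l 15304664) (l 15291600)) (l 15283504))) (a (c (b (l 15217352) (l 15199848)) (b (c (l 15250248) (l 15234792)) (l 15229224))) (a (c (b (l 15176968) (l 15162488)) (b (c (l 15209144) (l 15191928)) (l 15191016))) (c (a (l 14929032) (b (b (l 15085912) (l 15063336)) (l 15054648))) (a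 (b (c (l 15148160) (l 15129480)) (l 15130680)) (b (c (l 15100216) (l 15080416)) (l 14996056))))))) (a (c (l 15247368) (b (l 15065760) (c (l 15229248) (l 15233912)))) (a (c (l 15208072) (b (l 15223904) (l 15206584))) (a (c (l 15176120) (c (l 15172760) (l 15185312))) (a (c (l 15122704) (c (l 15118200) (l 15130000))) (c (l 15082536) (c (l 14930360) (b (l 15079336) (l 15078760)))))))))), by decide +kernel⟩

def k12_pm_012 : ∃ t, chk3 f_pm_012 t 21 7 1 = true :=
  ⟨(b (c (b (c (l 15233192) (c (l 15288280) (b (l 15343928) (l 15206464)))) (c (l 15005024) (a (l 15113800) (l 14916888)))) (a (c (b (l 15347328) (l 15112320)) (l 15023904)) (b (l 15139432) (l 14885952)))) (b (c (b (c (l 14783440) (l 14816976)) (b (l 14725112) (l 14697720))) (c (b (a (l 14942736) (l 14712208)) (l 14684320)) (b (l 14548128) (a (l 14895944) (l 14577320))))) (c (l 14717712) (c (l 14704200) (l 14563184))))), by decide +kernel⟩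

def k13_pm_012 : ∃ t, chk3 f_pm_012 t 11 3 1 = true :=
  ⟨(a (b (b (c (b (l 16053752) (l 15824832)) (b (l 16038392) (l 15802984))) (c (b (l 15564200) (c (l 15186216) (l 15238200))) (b (l 15535192) (l 15210056)))) (b (c (b (a (l 15002200) (l 14825752)) (c (l 14628216) (l 14635584))) (b (l 14865888) (l 14595648))) (c (b (c (l 14309120) (l 14324048)) (a (l 14240296) (l 13985360))) (b (c (b (l 14412456) (l 14254352)) (l 14305488)) (b (a (l 14236136) (l 13838680)) (c (l 14043184) (l 14030720))))))) (b (b (c (l 15795088) (l 15769584)) (c (l 15107056) (l 15192784))) (c (b (b (l 14727792) (c (l 14434672) (l 14434088))) (b (c (l 14113152) (l 14124624)) (l 13853768))) (b (l 14539368) (b (c (l 14127544) (l 14100024)) (b (c (l 13885416) (l 13876240)) (l 13742912))))))), by decide +kernel⟩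

def k14_pm_012 : ∃ t, chk3 f_pm_012 t 3 1 1 = true :=
  ⟨(b (a (a (b (l 2) (b (l 2) (c (l 16255144) (l 16241584)))) (l 2)) (l 2)) (b (a (c (a (b (l 15794880) (l 15232640)) (b (l 15794880) (l 15232640))) (b (a (l 15769368) (l 15664512)) (a (l 15192520) (l 15129608)))) (b (l 2) (a (l 15023840) (l 2)))) (a (c (c (b (a (l 14594896) (l 14594896)) (a (l 13996000) (l 13996000))) (b (a (l 14591704) (l 14591704)) (a (b (l 14124336) (l 13835560)) (l 13841608)))) (b (a (l 14539088) (l 14539088)) (a (b (l 14110352) (c (l 13819208) (l 13811240))) (b (l 14110352) (c (l 13819208) (l 13811240)))))) (b (c (b (l 14727536) (l 14430384)) (l 14413256)) (c (a (l 13810152) (l 13998896)) (b (l 14110352) (a (l 13819696) (l 13819696)))))))), by decide +kernel⟩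

theorem s15_pm_012 : ∃ t, chk3 f_pm_012 t 10 7 1 = true := ex3_a k11_pm_012 k12_pm_012

theorem s16_pm_012 : ∃ t, chk3 f_pm_012 t 10 3 1 = true := ex3_b k10_pm_012 s15_pm_012

theorem s17_pm_012 : ∃ t, chk3 f_pm_012 t 5 3 1 = true := ex3_a s16_pm_012 k13_pm_012

theorem s18_pm_012 : ∃ t, chk3 f_pm_012 t 5 1 1 = true := ex3_b k9_pm_012 s17_pm_012

theorem s19_pm_012 : ∃ t, chk3 f_pm_012 t 9 3 1 = true := ex3_a k7_pm_012 k8_pm_012

theorem s20_pm_012 : ∃ t, chk3 f_pm_012 t 17 7 1 = true := ex3_b k5_pm_012 k6_pm_012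

theorem s21_pm_012 : ∃ t, chk3 f_pm_012 t 32 7 1 = true := ex3_b k2_pm_012 k3_pm_012

theorem s22_pm_012 : ∃ t, chk3 f_pm_012 t 16 7 1 = true := ex3_a s21_pm_012 k4_pm_012

theorem s23_pm_012 : ∃ t, chk3 f_pm_012 t 8 7 1 = true := ex3_a s22_pm_012 s20_pm_012

theorem s24_pm_012 : ∃ t, chk3 f_pm_012 t 8 3 1 = true := ex3_b k1_pm_012 s23_pm_012

theorem s25_pm_012 : ∃ t, chk3 f_pm_012 t 4 3 1 = true := ex3_a s24_pm_012 s19_pm_012

theorem s26_pm_012 : ∃ t, chk3 f_pm_012 t 4 1 1 = true := ex3_b k0_pm_012 s25_pm_012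

theorem s27_pm_012 : ∃ t, chk3 f_pm_012 t 2 1 1 = true := ex3_a s26_pm_012 s18_pm_012

theorem s28_pm_012 : ∃ t, chk3 f_pm_012 t 1 1 1 = true := ex3_a s27_pm_012 k14_pm_012

theorem c_pm_012 : CertFX 67108864 469762048 536870912 536870912 1046898278 26843546 true true false .pnp 0 1 2
    ndF1q0 ndF7q1 pcF2 Cut.none Ext.none :=
  certFX2 (fam := true) (s1 := true) (s2 := false) (a := 0) (b := 1) (c := 2) (cn := .pnp) (n1 := ndF1q0) (n2 := ndF7q1) (pc := pcF2) (cut := Cut.none) (xt := Ext.none) (P1 := 67108864) (W1 := 469762048) (P2 := 536870912) (W2 := 536870912) (P3 := 1046898278) (W3 := 26843546)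
    rfl (fun _ => rfl) s28_pm_012

noncomputable def f_pm_022 : ℕ → ℕ → ℕ → ℕ → Bool := onCell 67108864 469762048 1073741824 536870912 1046898278 26843546
    (rowFX 1 true true false .pp 0 2 2 (qsf 67108864 469762048 1073741824 536870912 2) ndF1q0 ndF7q2 pcF2 Cut.none Ext.none)

def k0_pm_022 : ∃ t, chk3 f_pm_022 t 16 1 1 = true :=
  ⟨(b (b (a (b (b (l 1) (b (l 1) (b (l 1) (c (l 15715416) (l 15695032))))) (b (c (b (l 15736144) (l 15789776)) (b (c (l 15722592) (b (a (l 15759576) (l 15637456)) (a (l 15801960) (l 15674936)))) (c (a (l 15854608) (l 15731160)) (b (l 15557584) (l 15832744))))) (c (b (b (l 15839848) (l 15805616)) (c (l 15952800) (l 15845144))) (b (c (b (l 15811072) (l 15927704)) (l 15885816)) (l 15910248))))) (b (l 1) (b (c (b (l 15514768) (l 15573560)) (b (b (l 1) (l 15503752)) (c (l 15557808) (b (l 15534976) (l 15579896))))) (c (b (b (l 15616944) (l 15658672)) (c (l 15727448) (l 15748792))) (b (c (b (l 15616416) (l 15673896)) (b (l 15632400) (l 15685160))) (c (l 15756360)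 (l 15777480))))))) (b (b (b (c (a (c (l 15924664) (l 16025272)) (c (l 15860280) (l 15813488))) (a (l 16141832) (l 15873072))) (b (c (a (c (l 16218904) (l 16254328)) (l 15859176)) (l 16126112)) (b (c (a (l 16274488) (l 15989928)) (a (l 16310112) (l 16097392))) (c (b (a (l 16310784) (l 16088968)) (a (c (l 16253656) (l 16335344)) (l 15867256))) (b (l 16221000) (a (l 16332128) (l 16115328))))))) (c (a (b (l 16226480) (l 16224080)) (b (l 16035936) (l 15996088))) (a (b (l 16282976) (l 16218168)) (l 16023336)))) (b (c (a (l 16209160) (l 15964176)) (a (l 16203032) (l 15949352))) (c (a (l 16255840) (l 16091368)) (b (l 15990496) (l 16203792)))))) (b (b (c (b (l 16104768) (l 15983440)) (b (l 16163000) (l 16055048))) (c (b (l 15923592) (l 15735776)) (b (l 15903992) (l 15709112)))) (b (c (b (l 15580080) (l 15512536)) (b (l 15547168) (l 15476760))) (c (l 15508624) (l 15472672))))), by decide +kernel⟩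

def k1_pm_022 : ∃ t, chk3 f_pm_022 t 17 1 1 = true :=
  ⟨(b (b (b (l 1) (b (b (l 1) (c (l 15273840) (a (l 15247392) (l 1)))) (c (b (b (l 15326272) (l 15369440)) (a (l 15526232) (l 15361832))) (b (c (b (l 15301976) (l 15351792)) (a (b (l 15383464) (l 15442544)) (l 15227080))) (a (c (l 15471624) (l 15552712)) (c (l 15348760) (l 15353992))))))) (b (b (b (c (a (c (l 15637088) (l 15660800)) (l 15480704)) (a (c (l 15667800) (l 15693880)) (c (l 15491680) (l 15509376)))) (b (c (a (l 15581904) (l 15591088)) (c (l 15641760) (l 15722296))) (b (c (a (l 15779040) (l 15654048)) (l 15700032)) (c (b (a (l 15855952) (l 15665328)) (c (l 15663632) (a (l 15884840) (l 15675960)))) (b (l 15791496) (a (l 15894216) (l 15699872))))))) (c (a (c (l 15768416) (l 15809280)) (b (l 15626504) (l 15568824))) (a (l 15803024) (l 15604864)))) (b (c (a (l 15611128) (l 15506960)) (l 15563984)) (c (l 15511392) (l 15636936))))) (b (b (c (b (a (l 16146048) (l 15951688)) (l 16286256)) (b (l 15951648) (l 16281200))) (c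 (l 16032064) (l 16088672))) (b (c (l 15685864) (l 15687184)) (c (l 15820056) (l 15795184))))), by decide +kernel⟩

def k2_pm_022 : ∃ t, chk3 f_pm_022 t 9 1 1 = true :=
  ⟨(b (b (a (b (l 1) (b (l 1) (b (l 1) (c (l 15153656) (a (l 15197648) (l 1)))))) (l 1)) (b (b (b (a (c (l 15269264) (c (l 15255016) (a (l 15331472) (l 15166304)))) (l 1)) (b (c (l 15135808) (a (c (l 15364720) (l 15335104)) (l 15030952))) (b (c (l 15035704) (a (c (l 15421296) (l 15439328)) (l 15077296))) (c (b (l 15153680) (a (l 15407088) (l 15082376))) (b (a (c (l 15422544) (l 15441872)) (l 15065216)) (a (c (a (l 15513528) (l 15320416)) (l 15416968)) (a (c (l 15146792) (l 15143272)) (l 1)))))))) (c (a (b (l 15236480) (c (l 15273264) (l 15304552))) (b (l 15006920) (l 14901568))) (a (b (c (l 15386304) (l 15389928)) (l 15290368)) (b (c (l 14991968) (l 14762056)) (c (l 14899408) (l 14907480)))))) (b (c (a (b (l 15033280) (l 15211880)) (b (l 14686152) (c (l 14792064) (l 14808896)))) (a (l 15232712) (b (c (l 14850776)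 (l 14836216)) (l 14797712)))) (c (a (b (l 15262192) (l 15408976)) (b (l 14666712) (l 14995984))) (a (l 15323840) (l 14910968)))))) (b (b (a (b (l 15388312) (l 15811832)) (b (c (b (l 15125280) (l 15298856)) (l 15193072)) (l 15383216))) (b (a (l 16102768) (l 15752128)) (a (l 16402248) (l 16093800)))) (b (a (b (l 16314088) (l 16161336)) (l 16198632)) (b (a (l 16049112) (l 16339640)) (a (l 16012104) (l 16249600)))))), by decide +kernel⟩

def k3_pm_022 : ∃ t, chk3 f_pm_022 t 5 1 1 = true :=
  ⟨(b (b (l 1) (a (a (b (b (l 1) (c (l 14558064) (b (l 14574544) (l 14226856)))) (b (c (l 14331152) (b (c (l 14372616) (l 14367120)) (c (l 14326816) (l 14326000)))) (c (c (l 14454488) (b (l 14378912) (l 14539016))) (c (l 14464280) (l 14436136))))) (b (l 1) (b (c (l 13947832) (b (l 13926856) (c (l 13857480) (l 13836664)))) (c (b (l 13922360) (l 14060144)) (b (c (l 13889456) (l 13879016)) (a (l 14152880) (l 13926640))))))) (b (l 1) (b (l 1) (c (l 258261615511) (a (b (a (l 13627416) (l 1)) (l 13711056))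 (l 1))))))) (b (a (b (c (a (b (c (l 14768032) (l 14768648)) (l 15066280)) (b (c (l 14295912) (l 14265192)) (l 14433392))) (a (l 14686672) (b (c (l 14298176) (l 14265008)) (l 14583480)))) (a (b (l 15359904) (l 15719944)) (b (c (l 14941008) (l 14912952)) (l 15295880)))) (b (c (b (a (l 13973968) (l 13736920)) (a (l 14079832) (l 14010288))) (b (a (c (l 13953768) (l 13944512)) (c (l 13690920) (l 13647192))) (a (l 14264392) (c (l 13994896) (l 13985080))))) (c (b (a (l 14610480) (l 14332752)) (a (l 14935872) (l 14640776))) (b (l 14417376) (l 14769672))))) (b (a (a (b (l 15990968) (l 16235272)) (b (l 15625640) (l 15909808))) (b (c (l 15160504) (l 15118512)) (l 15233704))) (a (b (a (l 16460544) (l 16169800)) (a (l 16562384) (l 16411088))) (c (l 15837312) (l 15794648)))))), by decide +kernel⟩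

def k4_pm_022 : ∃ t, chk3 f_pm_022 t 3 1 1 = true :=
  ⟨(b (l 1) (b (a (a (b (c (l 13338808) (b (l 13338168) (a (c (l 13725944) (l 13705672)) (l 13478560)))) (c (b (b (l 13859400) (l 13958296)) (a (l 14376480) (l 14085520))) (b (a (c (l 14036760) (l 14025032)) (c (l 13761704) (l 13743968))) (a (l 14331000) (c (l 14079184) (l 14063880)))))) (b (l 1) (c (l 13531088) (b (l 13279416) (a (c (l 13798280) (l 13783024)) (l 13545376)))))) (l 1)) (a (b (a (c (b (a (l 14679392) (l 14407744)) (a (l 15046544) (l 14716856))) (b (l 14297880) (l 14856136))) (c (b (a (l 14124512) (l 13868584)) (a (l 14449376) (l 14164448))) (b (a (l 14012096) (l 13582528)) (a (l 14423112) (l 14157368))))) (b (a (c (l 15244544) (l 15204736)) (c (a (l 14753088) (l 14490240)) (l 14600936))) (a (l 15460728) (c (a (l 15137672) (l 14788032)) (l 14943904))))) (b (a (c (l 13683744) (b (l 13473208) (a (l 13873304) (l 13613928)))) (l 1)) (a (c (b (a (l 14205296) (l 13938440)) (a (l 14531056) (l 14247024))) (b (a (l 14189640)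 (l 13913056)) (l 14381072))) (c (l 13751504) (b (l 13542296) (a (l 13953344) (l 13684664))))))))), by decide +kernel⟩

theorem s5_pm_022 : ∃ t, chk3 f_pm_022 t 8 1 1 = true := ex3_a k0_pm_022 k1_pm_022

theorem s6_pm_022 : ∃ t, chk3 f_pm_022 t 4 1 1 = true := ex3_a s5_pm_022 k2_pm_022

theorem s7_pm_022 : ∃ t, chk3 f_pm_022 t 2 1 1 = true := ex3_a s6_pm_022 k3_pm_022

theorem s8_pm_022 : ∃ t, chk3 f_pm_022 t 1 1 1 = true := ex3_a s7_pm_022 k4_pm_022

theorem c_pm_022 : CertFX 67108864 469762048 1073741824 536870912 1046898278 26843546 true true false .pp 0 2 2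
    ndF1q0 ndF7q2 pcF2 Cut.none Ext.none :=
  certFX1 (fam := true) (s1 := true) (s2 := false) (a := 0) (b := 2) (c := 2) (cn := .pp) (n1 := ndF1q0) (n2 := ndF7q2) (pc := pcF2) (cut := Cut.none) (xt := Ext.none) (P1 := 67108864) (W1 := 469762048) (P2 := 1073741824) (W2 := 536870912) (P3 := 1046898278) (W3 := 26843546)
    rfl (fun _ => rfl) s8_pm_022

noncomputable def f_pm_023 : ℕ → ℕ → ℕ → ℕ → Bool := onCell 67108864 469762048 1073741824 536870912 1046898278 26843546
    (rowFX 0 true true false .up 0 2 3 (qsf 67108864 469762048 1073741824 536870912 3) ndF1q0 ndF7q2 pcF3 Cut.none Ext.none)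

def k0_pm_023 : ∃ t, chk3 f_pm_023 t 1 1 1 = true :=
  ⟨(b (a (b (l 1) (a (l 1) (b (l 1) (a (l 1) (l 15964160))))) (a (b (b (l 1) (b (l 1) (c (l 14837472) (l 14745144)))) (b (c (l 15214416) (a (l 15345952) (l 15345952))) (c (l 98815693671) (a (l 15953736) (l 15953736))))) (c (a (b (b (l 120823515063) (l 44589144599)) (b (l 15382184) (l 15974584))) (b (b (l 14031584) (l 14586736)) (b (l 15382184) (l 15974584)))) (b (b (b (c (l 13835584) (l 13827688)) (l 14157040)) (a (l 14632392) (l 14632392))) (b (a (l 15345952) (l 15345952)) (a (l 15953736) (l 15953736))))))) (a (a (b (a (l 1) (b (l 1) (l 430065347431))) (a (c (b (l 15659648) (l 15659648)) (l 267392448503)) (b (l 16119824) (l 16119824)))) (b (b (a (l 366715362071) (l 16443400)) (a (b (l 16603888) (l 16596184)) (l 16767528))) (b (a (l 16596184) (l 16777216)) (a (l 16596184) (l 16777216))))) (b (a (b (b (l 16345760) (l 16577192)) (l 16767528)) (a (b (a (l 16401456) (l 16422432)) (l 16767520)) (b (l 16359512) (l 16767488)))) (a (b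 (l 16777208) (l 16777200)) (b (a (l 16777176) (b (b (l 16777168) (l 16774560)) (a (l 16775424) (l 16756168)))) (a (b (a (l 16777168) (l 16773512)) (a (l 16770600) (l 16745088))) (b (a (l 16751880) (l 16743064)) (a (l 16734880) (b (a (l 16748920) (c (l 16739248) (l 16727912))) (a (c (l 16735176) (l 16723520)) (b (a (l 16736536) (l 16718952)) (a (l 16719040) (b (l 16702048) (a (l 16704112) (b (l 16708592) (l 4)))))))))))))))), by decide +kernel⟩

theorem c_pm_023 : CertFX 67108864 469762048 1073741824 536870912 1046898278 26843546 true true false .up 0 2 3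
    ndF1q0 ndF7q2 pcF3 Cut.none Ext.none :=
  certFX0 (fam := true) (s1 := true) (s2 := false) (a := 0) (b := 2) (c := 3) (cn := .up) (n1 := ndF1q0) (n2 := ndF7q2) (pc := pcF3) (cut := Cut.none) (xt := Ext.none) (P1 := 67108864) (W1 := 469762048) (P2 := 1073741824) (W2 := 536870912) (P3 := 1046898278) (W3 := 26843546)
    rfl k0_pm_023

noncomputable def f_pm_033 : ℕ → ℕ → ℕ → ℕ → Bool := onCell 1610612736 536870912 0 1230186008 1046898278 26843546
    (rowFX 2 true true false .pnn 0 3 3 (qsf 67108864 469762048 0 1230186008 3) ndF1q0 ndF7q3 pcF3 Cut.none Ext.none)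

def k0_pm_033 : ∃ t, chk3 f_pm_033 t 1 2 1 = true :=
  ⟨(b (l 1) (a (l 1) (a (l 1) (a (l 1) (a (b (l 1) (l 4)) (l 4)))))), by decide +kernel⟩

def k1_pm_033 : ∃ t, chk3 f_pm_033 t 1 6 1 = true :=
  ⟨(a (l 1) (a (b (l 1) (a (a (l 1) (a (l 1) (b (l 1) (b (l 1) (l 15263280))))) (b (c (a (l 703867293079) (l 668434494407)) (a (b (l 1) (l 15050072)) (l 524552957719))) (c (b (l 15417968) (l 15701680)) (a (l 15162800) (l 15708672)))))) (b (b (a (a (l 1) (a (c (l 15124296) (l 15096520)) (c (l 15165072) (l 15259528)))) (a (a (c (c (l 15396088) (l 15462504)) (a (l 15391592) (l 15486280))) (l 4)) (l 4))) (a (a (c (b (l 15137632) (l 15327896)) (b (l 15111768) (l 15297480))) (a (c (l 15496984) (l 15456512)) (c (l 15666504) (l 15632320)))) (a (a (c (l 15826304) (l 15797368)) (c (a (l 15930216) (l 15981512)) (a (l 15906296) (l 15946648)))) (l 4)))) (a (a (b (c (l 15646104) (l 15608672)) (c (l 16026896) (l 16007272))) (b (b (c (l 15855128) (l 15826664)) (l 15989448)) (b (l 16151944) (l 16343736))))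 (a (a (b (c (l 16111936) (l 16086616)) (l 16456720)) (b (c (l 16160632) (a (l 16190200) (l 16249584))) (b (l 16507464) (l 16679752)))) (a (b (c (l 16367312) (l 16330568)) (c (l 16674808) (l 16655616))) (a (c (l 1114777982023) (l 1097061201847)) (l 4)))))))), by decide +kernel⟩

def k2_pm_033 : ∃ t, chk3 f_pm_033 t 1 7 1 = true :=
  ⟨(a (b (a (l 1) (a (l 1) (a (b (l 1) (b (l 1) (l 493951304087))) (b (c (l 538511002119) (l 541732133479)) (c (l 15332512) (l 15467920)))))) (a (b (l 1) (a (b (l 1) (c (l 470865158743) (l 537973916823))) (b (a (l 1) (l 509520559223)) (c (l 15484352) (l 15429304))))) (b (a (b (c (l 488582321527) (l 568576022071)) (c (l 15376832) (l 15379488))) (c (l 413421792151) (b (l 15728688) (l 16027176)))) (a (b (a (l 15618072) (l 15914976)) (l 15848280)) (b (l 16316720) (l 16575528)))))) (a (b (b (a (c (b (l 312488946151) (l 15503504)) (b (l 326447584375) (l 15533768))) (c (l 16026680) (l 15965168))) (a (c (l 15933912) (l 15901392)) (b (l 16350064) (l 16565432))))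 (b (a (b (l 16305752) (l 16511592)) (l 16727464)) (l 16557008))) (a (b (b (a (c (l 16421872) (l 16412432)) (b (l 16550288) (l 16690664))) (a (l 16727712) (l 16749232))) (b (l 16777216) (a (l 16776160) (l 16749288)))) (a (b (b (c (l 16723208) (l 16712640)) (l 16748464)) (b (l 16776768) (l 16748464))) (a (b (c (l 16776640) (l 16761280)) (c (l 16776672) (l 16776856))) (a (b (c (l 16766376) (l 16760920)) (c (l 16776480) (l 16776504))) (a (b (c (l 16747176) (l 16745128)) (b (l 16777216) (l 16723984))) (a (b (l 2681905219607) (b (l 16776976) (l 16732376))) (b (c (l 16903136) (l 17007240)) (b (l 16777216) (l 16748480))))))))))), by decide +kernel⟩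

theorem s3_pm_033 : ∃ t, chk3 f_pm_033 t 1 3 1 = true := ex3_b k1_pm_033 k2_pm_033

theorem s4_pm_033 : ∃ t, chk3 f_pm_033 t 1 1 1 = true := ex3_b k0_pm_033 s3_pm_033

theorem c_pm_033 : CertFX 67108864 469762048 0 1230186008 1046898278 26843546 true true false .pnn 0 3 3
    ndF1q0 ndF7q3 pcF3 Cut.none Ext.none :=
  certFX2 (fam := true) (s1 := true) (s2 := false) (a := 0) (b := 3) (c := 3) (cn := .pnn) (n1 := ndF1q0) (n2 := ndF7q3) (pc := pcF3) (cut := Cut.none) (xt := Ext.none) (P1 := 67108864) (W1 := 469762048) (P2 := 0) (W2 := 1230186008) (P3 := 1046898278) (W3 := 26843546)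
    rfl (fun _ => rfl) s4_pm_033

noncomputable def f_pm_101 : ℕ → ℕ → ℕ → ℕ → Bool := onCell 536870912 536870912 0 536870912 1046898278 26843546
    (rowFX 2 true true false .npn 1 0 1 (qsf 536870912 536870912 0 536870912 1) ndF1q1 ndF7q0 pcF1 Cut.none Ext.none)

def k0_pm_101 : ∃ t, chk3 f_pm_101 t 2 1 1 = true :=
  ⟨(a (l 3) (b (a (l 3) (c (b (b (l 202568105991) (l 185388236807)) (b (l 484962205703) (l 3))) (b (b (l 237464715191) (l 329806512055)) (l 444160016391)))) (l 3))), by decide +kernel⟩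

def k1_pm_101 : ∃ t, chk3 f_pm_101 t 3 1 1 = true :=
  ⟨(a (b (a (b (a (c (b (l 16777208) (l 16777216)) (l 16777208)) (c (b (l 16765312) (l 16772456)) (b (l 16765008) (l 16772336)))) (c (b (a (l 16777216) (l 16774328)) (l 220284825223)) (b (a (l 16777216) (l 16774256)) (l 259476401783)))) (a (b (c (b (l 16740872) (l 16755064)) (b (l 16739920) (l 16754488))) (c (l 16764960) (l 16764640))) (a (b (c (l 16728568) (b (l 16715328) (l 16738472))) (c (l 16751880) (l 16751224))) (b (b (c (l 16756736) (l 16756208)) (c (l 16775568) (l 16775544))) (c (l 16769744) (l 16685664)))))) (a (b (a (l 3) (c (l 378124886519) (l 334101471719))) (l 1)) (b (a (c (l 172905957111) (l 227129918375)) (c (c (l 208876478151) (l 170221772439)) (b (l 16776680) (l 16772448)))) (a (l 1) (c (l 455299917287) (l 479995978711)))))) (b (a (b (b (a (b (l 16521304) (l 16654760)) (b (l 16252112) (l 16402936))) (a (l 16635784) (l 16427152))) (a (c (b (l 16626264) (l 16619888)) (b (l 16622344) (l 16615800))) (b (l 16443248)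 (c (l 16428008) (l 16418936))))) (b (b (a (b (l 15935928) (l 16142576)) (c (l 15763056) (l 15654352))) (a (b (l 16335568) (l 16315544)) (b (l 16061136) (l 16249176)))) (b (a (l 16288720) (l 16160848)) (l 16043896)))) (a (c (b (a (l 16589296) (l 16347936)) (a (l 226592470679) (l 16327664))) (b (a (l 16605928) (l 16338424)) (a (l 244846079095) (l 16380536)))) (a (b (a (b (l 16268752) (l 16250712)) (b (l 16190576) (l 16161544))) (c (a (l 16233208) (l 16132792)) (l 16145728))) (b (a (b (l 16119432) (c (l 16091272) (l 16073592))) (l 16037208)) (c (a (l 197063272679) (l 15978624)) (a (l 16037752) (b (l 15969608) (l 15944960))))))))), by decide +kernel⟩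

theorem s2_pm_101 : ∃ t, chk3 f_pm_101 t 1 1 1 = true := ex3_a k0_pm_101 k1_pm_101

theorem c_pm_101 : CertFX 536870912 536870912 0 536870912 1046898278 26843546 true true false .npn 1 0 1
    ndF1q1 ndF7q0 pcF1 Cut.none Ext.none :=
  certFX2 (fam := true) (s1 := true) (s2 := false) (a := 1) (b := 0) (c := 1) (cn := .npn) (n1 := ndF1q1) (n2 := ndF7q0) (pc := pcF1) (cut := Cut.none) (xt := Ext.none) (P1 := 536870912) (W1 := 536870912) (P2 := 0) (W2 := 536870912) (P3 := 1046898278) (W3 := 26843546)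
    rfl (fun _ => rfl) s2_pm_101

noncomputable def f_pm_102 : ℕ → ℕ → ℕ → ℕ → Bool := onCell 536870912 536870912 1073741824 536870912 1046898278 26843546
    (rowFX 1 true true false .npp 1 0 2 (qsf 536870912 536870912 0 536870912 2) ndF1q1 ndF7q0 pcF2 Cut.none Ext.none)

def k0_pm_102 : ∃ t, chk3 f_pm_102 t 1 1 1 = true :=
  ⟨(b (b (a (a (b (a (b (l 16184720) (l 15795088)) (l 15826912)) (a (l 394697218631) (l 15269432))) (b (a (l 15768800) (l 15728384)) (b (l 15473272) (l 15150208)))) (a (b (a (c (l 15838960) (l 15814192)) (c (l 15775864) (a (l 15756240) (l 15737440)))) (a (b (l 15500440) (l 15199848)) (c (l 15381920) (b (l 15490808) (l 15203576))))) (b (a (c (l 15669704) (a (l 15796720) (l 15500688))) (c (l 15088864) (b (l 15068824) (l 15027752)))) (a (b (c (l 15542272) (l 15522736)) (l 15325984)) (b (c (l 15028280) (l 14982192)) (l 14783896)))))) (a (a (b (b (b (l 408655717031) (l 2)) (l 2)) (l 2)) (b (b (b (l 14919768) (l 15077280)) (l 15653856)) (b (l 16409880) (l 16776704))))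 (b (a (b (b (a (l 14979976) (l 15012696)) (a (l 15133640) (l 15163288))) (a (l 15711360) (l 15725720))) (b (b (a (l 15168888) (l 14608656)) (a (l 15295016) (l 14744328))) (a (l 15740352) (l 15233744)))) (a (b (a (l 16419808) (l 16413768)) (l 16697968)) (b (a (l 16265760) (l 15822064)) (a (l 16517176) (l 16106496))))))) (a (b (a (l 2) (c (l 16777216) (l 16777216))) (l 2)) (a (b (c (l 16761552) (l 16761144)) (l 16761352)) (b (a (b (l 16517520) (l 16517520)) (b (l 16105584) (l 16113104))) (a (l 16517520) (b (l 16113632) (l 16113632))))))), by decide +kernel⟩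

theorem c_pm_102 : CertFX 536870912 536870912 0 536870912 1046898278 26843546 true true false .npp 1 0 2
    ndF1q1 ndF7q0 pcF2 Cut.none Ext.none :=
  certFX1 (fam := true) (s1 := true) (s2 := false) (a := 1) (b := 0) (c := 2) (cn := .npp) (n1 := ndF1q1) (n2 := ndF7q0) (pc := pcF2) (cut := Cut.none) (xt := Ext.none) (P1 := 536870912) (W1 := 536870912) (P2 := 0) (W2 := 536870912) (P3 := 1046898278) (W3 := 26843546)
    rfl (fun _ => rfl) k0_pm_102

noncomputable def f_pm_112 : ℕ → ℕ → ℕ → ℕ → Bool := onCell 536870912 536870912 1073741824 536870912 1046898278 26843546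
    (rowFX 1 true true false .dn 1 1 2 (qsf 536870912 536870912 536870912 536870912 2) ndF1q1 ndF7q1 pcF2 Cut.none Ext.none)

def k0_pm_112 : ∃ t, chk3 f_pm_112 t 1 1 1 = true :=
  ⟨(b (b (a (a (b (a (b (l 16184720) (l 15795088)) (l 15826912)) (a (c (l 15266008) (l 15226760)) (l 15269432))) (b (l 1) (b (l 1) (l 15150208)))) (l 1)) (a (b (a (b (a (b (l 14827344) (l 14998312)) (l 14712008)) (a (l 15423776) (l 15637896))) (b (b (l 14919768) (l 15077280)) (l 15653856))) (a (b (a (b (l 16273048) (a (l 16450616) (l 16628336))) (l 16401624)) (a (a (c (l 16255280) (l 16241728)) (l 16456448)) (l 16690272))) (b (l 16409880) (l 16776704)))) (b (l 1) (a (b (l 1) (l 16697968)) (l 1))))) (a (b (a (b (a (b (l 16095568) (l 15757560)) (l 16453240)) (a (b (a (l 15517904) (l 15782128)) (l 15363904)) (l 15959296))) (b (a (l 16713224) (l 16777216)) (a (l 16453240) (l 16713224)))) (a (a (b (c (a (l 14772568) (l 15105552)) (l 14745496)) (c (a (l 14155816) (l 14458792)) (a (b (l 14251544) (l 13983336))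 (l 14426344)))) (b (l 15441696) (c (l 14753056) (l 14871320)))) (a (b (l 16022208) (l 15504608)) (b (l 16453240) (l 16022208))))) (a (b (c (l 16761552) (l 16761144)) (a (b (l 16717680) (l 16457672)) (l 16734944))) (b (a (l 387653788455) (l 1)) (a (l 16517520) (l 434360333703)))))), by decide +kernel⟩

theorem c_pm_112 : CertFX 536870912 536870912 536870912 536870912 1046898278 26843546 true true false .dn 1 1 2
    ndF1q1 ndF7q1 pcF2 Cut.none Ext.none :=
  certFX1 (fam := true) (s1 := true) (s2 := false) (a := 1) (b := 1) (c := 2) (cn := .dn) (n1 := ndF1q1) (n2 := ndF7q1) (pc := pcF2) (cut := Cut.none) (xt := Ext.none) (P1 := 536870912) (W1 := 536870912) (P2 := 536870912) (W2 := 536870912) (P3 := 1046898278) (W3 := 26843546)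
    rfl (fun _ => rfl) k0_pm_112

noncomputable def f_pm_113 : ℕ → ℕ → ℕ → ℕ → Bool := onCell 1610612736 536870912 536870912 536870912 1046898278 26843546
    (rowFX 2 true true false .nn 1 1 3 (qsf 536870912 536870912 536870912 536870912 3) ndF1q1 ndF7q1 pcF3 Cut.none Ext.none)

def k0_pm_113 : ∃ t, chk3 f_pm_113 t 1 1 1 = true :=
  ⟨(b (a (a (b (a (b (l 15932304) (l 16314568)) (a (b (l 15689168) (l 16019688)) (b (l 2) (l 15841504)))) (a (b (l 16529448) (l 16263448)) (b (l 16186632) (l 16137616)))) (b (a (b (l 2) (c (l 15434424) (l 15447480))) (l 2)) (b (a (a (l 15892920) (l 15715496)) (a (a (l 15595104) (l 2)) (l 2))) (a (l 15807416) (c (l 15473048) (l 15298304)))))) (a (b (l 2) (a (b (l 2) (l 4)) (l 2))) (l 2))) (a (a (b (b (a (l 15784280) (l 15797032)) (l 15213976)) (b (c (l 14595736) (l 14539088)) (c (b (l 14124568) (l 13853368)) (b (l 14110352) (a (l 13819696) (l 13819696)))))) (b (a (b (a (l 15748608) (l 15630968)) (l 15038544)) (b (a (l 15454320) (l 15273200)) (a (l 15179776)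 (l 15066792)))) (a (b (l 14301440) (c (l 13998896) (l 13985328))) (b (c (l 14483496) (l 14554464)) (c (l 14000872) (b (l 14113304) (l 13819696))))))) (a (a (a (b (b (a (l 15143152) (l 4)) (l 14903648)) (b (c (l 14566408) (l 14504320)) (c (l 14008952) (l 13996784)))) (b (b (l 4) (a (l 14784424) (l 4))) (b (c (l 14470584) (l 14383560)) (c (l 14013792) (l 13939872))))) (b (l 4) (a (b (c (l 14139768) (l 14209480)) (c (b (l 14073216) (l 13871360)) (b (l 14046328) (l 13841328)))) (a (b (l 4) (b (l 4) (l 132835604439))) (l 4))))) (a (b (l 4) (l 4)) (l 4))))), by decide +kernel⟩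

theorem c_pm_113 : CertFX 536870912 536870912 536870912 536870912 1046898278 26843546 true true false .nn 1 1 3
    ndF1q1 ndF7q1 pcF3 Cut.none Ext.none :=
  certFX2 (fam := true) (s1 := true) (s2 := false) (a := 1) (b := 1) (c := 3) (cn := .nn) (n1 := ndF1q1) (n2 := ndF7q1) (pc := pcF3) (cut := Cut.none) (xt := Ext.none) (P1 := 536870912) (W1 := 536870912) (P2 := 536870912) (W2 := 536870912) (P3 := 1046898278) (W3 := 26843546)
    rfl (fun _ => rfl) k0_pm_113

noncomputable def f_pm_123 : ℕ → ℕ → ℕ → ℕ → Bool := onCell 1610612736 536870912 1073741824 536870912 1046898278 26843546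
    (rowFX 2 true true false .npn 1 2 3 (qsf 536870912 536870912 1073741824 536870912 3) ndF1q1 ndF7q2 pcF3 Cut.none Ext.none)

def k0_pm_123 : ∃ t, chk3 f_pm_123 t 2 1 1 = true :=
  ⟨(b (b (a (b (c (a (l 14031584) (l 13821864)) (b (a (l 13836088) (l 13836088)) (a (l 14157040) (l 14157040)))) (c (a (l 14670616) (l 14691592)) (a (l 14632392) (l 14632392)))) (b (c (b (l 13869312) (l 14172216)) (b (a (l 13836088) (l 13836088)) (l 14157040))) (c (b (l 14506136) (l 14837472)) (a (l 14632392) (l 14632392))))) (a (a (l 1) (a (l 1) (b (l 15322128) (l 1)))) (b (c (l 35463741255) (a (l 15345952) (l 15345952))) (a (c (l 15974584) (l 15953736)) (l 15754448))))) (b (a (l 1) (b (c (l 16468384) (l 16355504)) (l 1))) (l 1))), by decide +kernel⟩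

def k1_pm_123 : ∃ t, chk3 f_pm_123 t 3 1 1 = true :=
  ⟨(a (b (b (a (b (c (b (l 13871504) (l 14172208)) (b (l 13838600) (l 14157032))) (c (l 14691584) (l 14632384))) (c (b (a (l 14037848) (b (l 13882568) (l 14178064))) (a (l 14691552) (l 14691784))) (b (a (l 13963112) (b (l 13852976) (l 14165112))) (a (l 14632352) (l 14632856))))) (b (a (l 15364056) (a (l 15364016) (l 15217224))) (a (l 15964152) (a (l 15964104) (l 15964104))))) (b (b (a (l 16422424) (l 16464320)) (a (l 16767512) (l 16767464))) (b (a (l 1) (l 16777160)) (l 1)))) (a (a (b (b (b (a (c (l 14030704) (l 152163367479)) (l 4)) (c (a (l 14691312) (l 14689864)) (l 14548568))) (b (a (l 15364056) (l 15363840)) (c (l 15974616) (l 15953768)))) (b (b (b (l 16345408) (l 16577080)) (l 16766640)) (b (l 16775944) (l 1)))) (b (b (l 4) (c (b (a (l 15381200) (l 15373296)) (l 174178935591)) (b (a (l 15344864) (l 15334512)) (l 156999021367)))) (b (b (a (l 16455568) (l 16454368)) (a (l 16753208) (l 16745384))) (b (l 16749304) (l 16738840)))))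 (a (b (b (l 4) (a (a (b (l 4) (l 149482864791)) (l 4)) (l 4))) (b (b (a (c (l 16460736) (l 16449504)) (c (l 16443616) (l 16380992))) (c (a (l 16751064) (l 16753592)) (a (l 16748600) (l 16748928)))) (c (a (l 16741600) (l 16760104)) (a (l 16737336) (l 16752104))))) (b (l 4) (b (a (b (l 4) (c (l 16717312) (l 16709808))) (l 4)) (a (c (l 16741320) (l 16729032)) (a (c (l 16727592) (l 16723224)) (a (l 901104180327) (l 4))))))))), by decide +kernel⟩

theorem s2_pm_123 : ∃ t, chk3 f_pm_123 t 1 1 1 = true := ex3_a k0_pm_123 k1_pm_123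

theorem c_pm_123 : CertFX 536870912 536870912 1073741824 536870912 1046898278 26843546 true true false .npn 1 2 3
    ndF1q1 ndF7q2 pcF3 Cut.none Ext.none :=
  certFX2 (fam := true) (s1 := true) (s2 := false) (a := 1) (b := 2) (c := 3) (cn := .npn) (n1 := ndF1q1) (n2 := ndF7q2) (pc := pcF3) (cut := Cut.none) (xt := Ext.none) (P1 := 536870912) (W1 := 536870912) (P2 := 1073741824) (W2 := 536870912) (P3 := 1046898278) (W3 := 26843546)
    rfl (fun _ => rfl) s2_pm_123

noncomputable def f_pm_133 : ℕ → ℕ → ℕ → ℕ → Bool := onCell 536870912 536870912 0 1230186008 1046898278 26843546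
    (rowFX 0 true true false .dn 1 3 3 (qsf 536870912 536870912 0 1230186008 3) ndF1q1 ndF7q3 pcF3 Cut.none Ext.none)

def k0_pm_133 : ∃ t, chk3 f_pm_133 t 1 1 1 = true :=
  ⟨(b (l 2) (b (l 2) (a (b (l 2) (a (b (l 2) (l 4)) (l 2))) (l 2)))), by decide +kernel⟩

theorem c_pm_133 : CertFX 536870912 536870912 0 1230186008 1046898278 26843546 true true false .dn 1 3 3
    ndF1q1 ndF7q3 pcF3 Cut.none Ext.none :=
  certFX0 (fam := true) (s1 := true) (s2 := false) (a := 1) (b := 3) (c := 3) (cn := .dn) (n1 := ndF1q1) (n2 := ndF7q3) (pc := pcF3) (cut := Cut.none) (xt := Ext.none) (P1 := 536870912) (W1 := 536870912) (P2 := 0) (W2 := 1230186008) (P3 := 1046898278) (W3 := 26843546)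
    rfl k0_pm_133

noncomputable def f_pm_202_a : ℕ → ℕ → ℕ → ℕ → Bool := onCell 0 420477299 1073741824 536870912 1046898278 26843546
    (rowFX 1 true true false .pp 2 0 2 (qsf 0 420477299 0 536870912 2) ndF1q2a ndF7q0 pcF2 Cut.none Ext.none)

def k0_pm_202_a : ∃ t, chk3 f_pm_202_a t 1 1 1 = true :=
  ⟨(b (b (a (l 1) (b (b (l 1) (b (l 1) (a (l 1) (a (l 1) (c (l 14447952) (l 14424984)))))) (a (b (l 1) (a (b (l 1) (l 14900600)) (c (l 14873520) (l 14824528)))) (b (a (b (l 1) (c (l 14738792) (l 14700240))) (c (b (l 14550640) (l 14628248)) (b (l 14514656) (l 14584520)))) (a (c (l 14880424) (b (l 14774776) (l 14890096))) (c (l 14723752) (l 14586416))))))) (a (l 4) (b (a (a (l 4) (b (b (l 15095984) (l 15278848)) (c (l 15553472) (l 15521688)))) (b (b (a (c (l 15075464) (l 15031232)) (c (l 14870528) (l 14820712))) (a (c (l 15250344) (l 15210640)) (c (l 15040288) (l 14994728)))) (a (c (l 15520296) (l 15487552)) (c (l 15337232) (l 15299136))))) (a (l 4) (b (a (c (l 15806344) (l 15780944))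 (c (l 15653664) (l 15623464))) (a (c (l 16056496) (l 16037496)) (c (l 15890344) (l 15866024)))))))) (b (a (l 4) (a (l 4) (b (a (b (l 4) (l 4)) (c (l 15955920) (b (l 16078832) (l 16298032)))) (a (l 4) (b (c (l 16485776) (l 16478056)) (l 4)))))) (l 4))), by decide +kernel⟩

theorem c_pm_202_a : CertFX 0 420477299 0 536870912 1046898278 26843546 true true false .pp 2 0 2
    ndF1q2a ndF7q0 pcF2 Cut.none Ext.none :=
  certFX1 (fam := true) (s1 := true) (s2 := false) (a := 2) (b := 0) (c := 2) (cn := .pp) (n1 := ndF1q2a) (n2 := ndF7q0) (pc := pcF2) (cut := Cut.none) (xt := Ext.none) (P1 := 0) (W1 := 420477299) (P2 := 0) (W2 := 536870912) (P3 := 1046898278) (W3 := 26843546)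
    rfl (fun _ => rfl) k0_pm_202_a

noncomputable def f_pm_202_b : ℕ → ℕ → ℕ → ℕ → Bool := onCell 1239849684 370763052 0 536870912 1046898278 26843546
    (rowFX 0 true true false .pp 2 0 2 (qsf 1239849684 370763052 0 536870912 2) ndF1q2b ndF7q0 pcF2 Cut.none Ext.none)

def k0_pm_202_b : ∃ t, chk3 f_pm_202_b t 1 1 1 = true :=
  ⟨(l 4), by decide +kernel⟩

theorem c_pm_202_b : CertFX 1239849684 370763052 0 536870912 1046898278 26843546 true true false .pp 2 0 2
    ndF1q2b ndF7q0 pcF2 Cut.none Ext.none :=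
  certFX0 (fam := true) (s1 := true) (s2 := false) (a := 2) (b := 0) (c := 2) (cn := .pp) (n1 := ndF1q2b) (n2 := ndF7q0) (pc := pcF2) (cut := Cut.none) (xt := Ext.none) (P1 := 1239849684) (W1 := 370763052) (P2 := 0) (W2 := 536870912) (P3 := 1046898278) (W3 := 26843546)
    rfl k0_pm_202_b

noncomputable def f_pm_203_a : ℕ → ℕ → ℕ → ℕ → Bool := onCell 0 420477299 1610612736 536870912 1046898278 26843546
    (rowFX 1 true true false .up 2 0 3 (qsf 0 420477299 0 536870912 3) ndF1q2a ndF7q0 pcF3 Cut.none Ext.none)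

def k0_pm_203_a : ∃ t, chk3 f_pm_203_a t 1 1 1 = true :=
  ⟨(l 4), by decide +kernel⟩

theorem c_pm_203_a : CertFX 0 420477299 0 536870912 1046898278 26843546 true true false .up 2 0 3
    ndF1q2a ndF7q0 pcF3 Cut.none Ext.none :=
  certFX1 (fam := true) (s1 := true) (s2 := false) (a := 2) (b := 0) (c := 3) (cn := .up) (n1 := ndF1q2a) (n2 := ndF7q0) (pc := pcF3) (cut := Cut.none) (xt := Ext.none) (P1 := 0) (W1 := 420477299) (P2 := 0) (W2 := 536870912) (P3 := 1046898278) (W3 := 26843546)
    rfl (fun _ => rfl) k0_pm_203_a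

noncomputable def f_pm_203_b : ℕ → ℕ → ℕ → ℕ → Bool := onCell 1239849684 370763052 0 536870912 1046898278 26843546
    (rowFX 0 true true false .up 2 0 3 (qsf 1239849684 370763052 0 536870912 3) ndF1q2b ndF7q0 pcF3 Cut.none Ext.none)

def k0_pm_203_b : ∃ t, chk3 f_pm_203_b t 1 1 1 = true :=
  ⟨(l 4), by decide +kernel⟩

theorem c_pm_203_b : CertFX 1239849684 370763052 0 536870912 1046898278 26843546 true true false .up 2 0 3
    ndF1q2b ndF7q0 pcF3 Cut.none Ext.none :=
  certFX0 (fam := true) (s1 := true) (s2 := false) (a := 2) (b := 0) (c := 3) (cn := .up) (n1 := ndF1q2b) (n2 := ndF7q0) (pc := pcF3) (cut := Cut.none) (xt := Ext.none) (P1 := 1239849684) (W1 := 370763052) (P2 := 0) (W2 := 536870912) (P3 := 1046898278) (W3 := 26843546)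
    rfl k0_pm_203_b

noncomputable def f_pm_213_a : ℕ → ℕ → ℕ → ℕ → Bool := onCell 0 420477299 536870912 536870912 1046898278 26843546
    (rowFX 0 true true false .pnn 2 1 3 (qsf 0 420477299 536870912 536870912 3) ndF1q2a ndF7q1 pcF3 Cut.none Ext.none)

def k0_pm_213_a : ∃ t, chk3 f_pm_213_a t 1 1 1 = true :=
  ⟨(l 4), by decide +kernel⟩

theorem c_pm_213_a : CertFX 0 420477299 536870912 536870912 1046898278 26843546 true true false .pnn 2 1 3
    ndF1q2a ndF7q1 pcF3 Cut.none Ext.none :=
  certFX0 (fam := true) (s1 := true) (s2 := false) (a := 2) (b := 1) (c := 3) (cn := .pnn) (n1 := ndF1q2a) (n2 := ndF7q1) (pc := pcF3) (cut := Cut.none) (xt := Ext.none) (P1 := 0) (W1 := 420477299) (P2 := 536870912) (W2 := 536870912) (P3 := 1046898278) (W3 := 26843546)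
    rfl k0_pm_213_a

noncomputable def f_pm_213_b : ℕ → ℕ → ℕ → ℕ → Bool := onCell 1239849684 370763052 536870912 536870912 1046898278 26843546
    (rowFX 0 true true false .pnn 2 1 3 (qsf 1239849684 370763052 536870912 536870912 3) ndF1q2b ndF7q1 pcF3 Cut.none Ext.none)

def k0_pm_213_b : ∃ t, chk3 f_pm_213_b t 1 1 1 = true :=
  ⟨(l 4), by decide +kernel⟩

theorem c_pm_213_b : CertFX 1239849684 370763052 536870912 536870912 1046898278 26843546 true true false .pnn 2 1 3
    ndF1q2b ndF7q1 pcF3 Cut.none Ext.none :=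
  certFX0 (fam := true) (s1 := true) (s2 := false) (a := 2) (b := 1) (c := 3) (cn := .pnn) (n1 := ndF1q2b) (n2 := ndF7q1) (pc := pcF3) (cut := Cut.none) (xt := Ext.none) (P1 := 1239849684) (W1 := 370763052) (P2 := 536870912) (W2 := 536870912) (P3 := 1046898278) (W3 := 26843546)
    rfl k0_pm_213_b

noncomputable def f_pm_303 : ℕ → ℕ → ℕ → ℕ → Bool := onCell 1610612736 469762048 0 536870912 1046898278 26843546
    (rowFX 0 true true false .npn 3 0 3 (qsf 1610612736 469762048 0 536870912 3) ndF1q3 ndF7q0 pcF3 Cut.none Ext.none)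

def k0_pm_303 : ∃ t, chk3 f_pm_303 t 1 1 1 = true :=
  ⟨(l 4), by decide +kernel⟩

theorem c_pm_303 : CertFX 1610612736 469762048 0 536870912 1046898278 26843546 true true false .npn 3 0 3
    ndF1q3 ndF7q0 pcF3 Cut.none Ext.none :=
  certFX0 (fam := true) (s1 := true) (s2 := false) (a := 3) (b := 0) (c := 3) (cn := .npn) (n1 := ndF1q3) (n2 := ndF7q0) (pc := pcF3) (cut := Cut.none) (xt := Ext.none) (P1 := 1610612736) (W1 := 469762048) (P2 := 0) (W2 := 536870912) (P3 := 1046898278) (W3 := 26843546)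
    rfl k0_pm_303

noncomputable def f_pm_313 : ℕ → ℕ → ℕ → ℕ → Bool := onCell 1610612736 469762048 536870912 536870912 1046898278 26843546
    (rowFX 0 true true false .dn 3 1 3 (qsf 1610612736 469762048 536870912 536870912 3) ndF1q3 ndF7q1 pcF3 Cut.none Ext.none)

def k0_pm_313 : ∃ t, chk3 f_pm_313 t 1 1 1 = true :=
  ⟨(l 4), by decide +kernel⟩

theorem c_pm_313 : CertFX 1610612736 469762048 536870912 536870912 1046898278 26843546 true true false .dn 3 1 3
    ndF1q3 ndF7q1 pcF3 Cut.none Ext.none :=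
  certFX0 (fam := true) (s1 := true) (s2 := false) (a := 3) (b := 1) (c := 3) (cn := .dn) (n1 := ndF1q3) (n2 := ndF7q1) (pc := pcF3) (cut := Cut.none) (xt := Ext.none) (P1 := 1610612736) (W1 := 469762048) (P2 := 536870912) (W2 := 536870912) (P3 := 1046898278) (W3 := 26843546)
    rfl k0_pm_313

noncomputable def f_mm_001 : ℕ → ℕ → ℕ → ℕ → Bool := onCell 67108864 469762048 0 536870912 1046898278 26843546
    (rowFX 0 true false false .up 0 0 1 (qsf 67108864 469762048 0 536870912 1) ndF1q0 ndF7q0 pcF1 Cut.none Ext.none)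

def k0_mm_001 : ∃ t, chk3 f_mm_001 t 1 1 1 = true :=
  ⟨(l 4), by decide +kernel⟩

theorem c_mm_001 : CertFX 67108864 469762048 0 536870912 1046898278 26843546 true false false .up 0 0 1
    ndF1q0 ndF7q0 pcF1 Cut.none Ext.none :=
  certFX0 (fam := true) (s1 := false) (s2 := false) (a := 0) (b := 0) (c := 1) (cn := .up) (n1 := ndF1q0) (n2 := ndF7q0) (pc := pcF1) (cut := Cut.none) (xt := Ext.none) (P1 := 67108864) (W1 := 469762048) (P2 := 0) (W2 := 536870912) (P3 := 1046898278) (W3 := 26843546)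
    rfl k0_mm_001

noncomputable def f_mm_011 : ℕ → ℕ → ℕ → ℕ → Bool := onCell 67108864 469762048 536870912 536870912 1046898278 26843546
    (rowFX 0 true false false .pnn 0 1 1 (qsf 67108864 469762048 536870912 536870912 1) ndF1q0 ndF7q1 pcF1 Cut.none Ext.none)

def k0_mm_011 : ∃ t, chk3 f_mm_011 t 1 1 1 = true :=
  ⟨(l 4), by decide +kernel⟩

theorem c_mm_011 : CertFX 67108864 469762048 536870912 536870912 1046898278 26843546 true false false .pnn 0 1 1
    ndF1q0 ndF7q1 pcF1 Cut.none Ext.none :=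
  certFX0 (fam := true) (s1 := false) (s2 := false) (a := 0) (b := 1) (c := 1) (cn := .pnn) (n1 := ndF1q0) (n2 := ndF7q1) (pc := pcF1) (cut := Cut.none) (xt := Ext.none) (P1 := 67108864) (W1 := 469762048) (P2 := 536870912) (W2 := 536870912) (P3 := 1046898278) (W3 := 26843546)
    rfl k0_mm_011

noncomputable def f_mm_012 : ℕ → ℕ → ℕ → ℕ → Bool := onCell 67108864 469762048 536870912 536870912 1046898278 26843546
    (rowFX 0 true false false .pnp 0 1 2 (qsf 67108864 469762048 536870912 536870912 2) ndF1q0 ndF7q1 pcF2 Cut.none Ext.none)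

def k0_mm_012 : ∃ t, chk3 f_mm_012 t 1 1 1 = true :=
  ⟨(l 4), by decide +kernel⟩

theorem c_mm_012 : CertFX 67108864 469762048 536870912 536870912 1046898278 26843546 true false false .pnp 0 1 2
    ndF1q0 ndF7q1 pcF2 Cut.none Ext.none :=
  certFX0 (fam := true) (s1 := false) (s2 := false) (a := 0) (b := 1) (c := 2) (cn := .pnp) (n1 := ndF1q0) (n2 := ndF7q1) (pc := pcF2) (cut := Cut.none) (xt := Ext.none) (P1 := 67108864) (W1 := 469762048) (P2 := 536870912) (W2 := 536870912) (P3 := 1046898278) (W3 := 26843546)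
    rfl k0_mm_012

noncomputable def f_mm_022 : ℕ → ℕ → ℕ → ℕ → Bool := onCell 67108864 469762048 1073741824 536870912 1046898278 26843546
    (rowFX 0 true false false .pp 0 2 2 (qsf 67108864 469762048 1073741824 536870912 2) ndF1q0 ndF7q2 pcF2 Cut.none Ext.none)

def k0_mm_022 : ∃ t, chk3 f_mm_022 t 1 1 1 = true :=
  ⟨(l 4), by decide +kernel⟩

theorem c_mm_022 : CertFX 67108864 469762048 1073741824 536870912 1046898278 26843546 true false false .pp 0 2 2
    ndF1q0 ndF7q2 pcF2 Cut.none Ext.none :=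
  certFX0 (fam := true) (s1 := false) (s2 := false) (a := 0) (b := 2) (c := 2) (cn := .pp) (n1 := ndF1q0) (n2 := ndF7q2) (pc := pcF2) (cut := Cut.none) (xt := Ext.none) (P1 := 67108864) (W1 := 469762048) (P2 := 1073741824) (W2 := 536870912) (P3 := 1046898278) (W3 := 26843546)
    rfl k0_mm_022

noncomputable def f_mm_023 : ℕ → ℕ → ℕ → ℕ → Bool := onCell 67108864 469762048 1073741824 536870912 1046898278 26843546
    (rowFX 0 true false false .up 0 2 3 (qsf 67108864 469762048 1073741824 536870912 3) ndF1q0 ndF7q2 pcF3 Cut.none Ext.none)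

def k0_mm_023 : ∃ t, chk3 f_mm_023 t 1 1 1 = true :=
  ⟨(l 4), by decide +kernel⟩

theorem c_mm_023 : CertFX 67108864 469762048 1073741824 536870912 1046898278 26843546 true false false .up 0 2 3
    ndF1q0 ndF7q2 pcF3 Cut.none Ext.none :=
  certFX0 (fam := true) (s1 := false) (s2 := false) (a := 0) (b := 2) (c := 3) (cn := .up) (n1 := ndF1q0) (n2 := ndF7q2) (pc := pcF3) (cut := Cut.none) (xt := Ext.none) (P1 := 67108864) (W1 := 469762048) (P2 := 1073741824) (W2 := 536870912) (P3 := 1046898278) (W3 := 26843546)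
    rfl k0_mm_023

noncomputable def f_mm_033 : ℕ → ℕ → ℕ → ℕ → Bool := onCell 67108864 469762048 0 1230186008 1046898278 26843546
    (rowFX 0 true false false .pnn 0 3 3 (qsf 67108864 469762048 0 1230186008 3) ndF1q0 ndF7q3 pcF3 Cut.none Ext.none)

def k0_mm_033 : ∃ t, chk3 f_mm_033 t 1 1 1 = true :=
  ⟨(l 4), by decide +kernel⟩

theorem c_mm_033 : CertFX 67108864 469762048 0 1230186008 1046898278 26843546 true false false .pnn 0 3 3
    ndF1q0 ndF7q3 pcF3 Cut.none Ext.none :=
  certFX0 (fam := true) (s1 := false) (s2 := false) (a := 0) (b := 3) (c := 3) (cn := .pnn) (n1 := ndF1q0) (n2 := ndF7q3) (pc := pcF3) (cut := Cut.none) (xt := Ext.none) (P1 := 67108864) (W1 := 469762048) (P2 := 0) (W2 := 1230186008) (P3 := 1046898278) (W3 := 26843546)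
    rfl k0_mm_033

noncomputable def f_mm_101 : ℕ → ℕ → ℕ → ℕ → Bool := onCell 536870912 536870912 0 536870912 1046898278 26843546
    (rowFX 0 true false false .npn 1 0 1 (qsf 536870912 536870912 0 536870912 1) ndF1q1 ndF7q0 pcF1 Cut.none Ext.none)

def k0_mm_101 : ∃ t, chk3 f_mm_101 t 1 1 1 = true :=
  ⟨(l 4), by decide +kernel⟩

theorem c_mm_101 : CertFX 536870912 536870912 0 536870912 1046898278 26843546 true false false .npn 1 0 1
    ndF1q1 ndF7q0 pcF1 Cut.none Ext.none :=
  certFX0 (fam := true) (s1 := false) (s2 := false) (a := 1) (b := 0) (c := 1) (cn := .npn) (n1 := ndF1q1) (n2 := ndF7q0) (pc := pcF1) (cut := Cut.none) (xt := Ext.none) (P1 := 536870912) (W1 := 536870912) (P2 := 0) (W2 := 536870912) (P3 := 1046898278) (W3 := 26843546)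
    rfl k0_mm_101

noncomputable def f_mm_102 : ℕ → ℕ → ℕ → ℕ → Bool := onCell 536870912 536870912 0 536870912 1046898278 26843546
    (rowFX 0 true false false .npp 1 0 2 (qsf 536870912 536870912 0 536870912 2) ndF1q1 ndF7q0 pcF2 Cut.none Ext.none)

def k0_mm_102 : ∃ t, chk3 f_mm_102 t 1 1 1 = true :=
  ⟨(l 4), by decide +kernel⟩

theorem c_mm_102 : CertFX 536870912 536870912 0 536870912 1046898278 26843546 true false false .npp 1 0 2
    ndF1q1 ndF7q0 pcF2 Cut.none Ext.none :=
  certFX0 (fam := true) (s1 := false) (s2 := false) (a := 1) (b := 0) (c := 2) (cn := .npp) (n1 := ndF1q1) (n2 := ndF7q0) (pc := pcF2) (cut := Cut.none) (xt := Ext.none) (P1 := 536870912) (W1 := 536870912) (P2 := 0) (W2 := 536870912) (P3 := 1046898278) (W3 := 26843546)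
    rfl k0_mm_102

noncomputable def f_mm_112 : ℕ → ℕ → ℕ → ℕ → Bool := onCell 536870912 536870912 536870912 536870912 1046898278 26843546
    (rowFX 0 true false false .dn 1 1 2 (qsf 536870912 536870912 536870912 536870912 2) ndF1q1 ndF7q1 pcF2 Cut.none Ext.none)

def k0_mm_112 : ∃ t, chk3 f_mm_112 t 1 1 1 = true :=
  ⟨(l 4), by decide +kernel⟩

theorem c_mm_112 : CertFX 536870912 536870912 536870912 536870912 1046898278 26843546 true false false .dn 1 1 2
    ndF1q1 ndF7q1 pcF2 Cut.none Ext.none :=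
  certFX0 (fam := true) (s1 := false) (s2 := false) (a := 1) (b := 1) (c := 2) (cn := .dn) (n1 := ndF1q1) (n2 := ndF7q1) (pc := pcF2) (cut := Cut.none) (xt := Ext.none) (P1 := 536870912) (W1 := 536870912) (P2 := 536870912) (W2 := 536870912) (P3 := 1046898278) (W3 := 26843546)
    rfl k0_mm_112

noncomputable def f_mm_113 : ℕ → ℕ → ℕ → ℕ → Bool := onCell 536870912 536870912 536870912 536870912 1046898278 26843546
    (rowFX 0 true false false .nn 1 1 3 (qsf 536870912 536870912 536870912 536870912 3) ndF1q1 ndF7q1 pcF3 Cut.none Ext.none)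

def k0_mm_113 : ∃ t, chk3 f_mm_113 t 1 1 1 = true :=
  ⟨(l 4), by decide +kernel⟩

theorem c_mm_113 : CertFX 536870912 536870912 536870912 536870912 1046898278 26843546 true false false .nn 1 1 3
    ndF1q1 ndF7q1 pcF3 Cut.none Ext.none :=
  certFX0 (fam := true) (s1 := false) (s2 := false) (a := 1) (b := 1) (c := 3) (cn := .nn) (n1 := ndF1q1) (n2 := ndF7q1) (pc := pcF3) (cut := Cut.none) (xt := Ext.none) (P1 := 536870912) (W1 := 536870912) (P2 := 536870912) (W2 := 536870912) (P3 := 1046898278) (W3 := 26843546)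
    rfl k0_mm_113

noncomputable def f_mm_123 : ℕ → ℕ → ℕ → ℕ → Bool := onCell 536870912 536870912 1073741824 536870912 1046898278 26843546
    (rowFX 0 true false false .npn 1 2 3 (qsf 536870912 536870912 1073741824 536870912 3) ndF1q1 ndF7q2 pcF3 Cut.none Ext.none)

def k0_mm_123 : ∃ t, chk3 f_mm_123 t 1 1 1 = true :=
  ⟨(l 4), by decide +kernel⟩

theorem c_mm_123 : CertFX 536870912 536870912 1073741824 536870912 1046898278 26843546 true false false .npn 1 2 3
    ndF1q1 ndF7q2 pcF3 Cut.none Ext.none :=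
  certFX0 (fam := true) (s1 := false) (s2 := false) (a := 1) (b := 2) (c := 3) (cn := .npn) (n1 := ndF1q1) (n2 := ndF7q2) (pc := pcF3) (cut := Cut.none) (xt := Ext.none) (P1 := 536870912) (W1 := 536870912) (P2 := 1073741824) (W2 := 536870912) (P3 := 1046898278) (W3 := 26843546)
    rfl k0_mm_123

noncomputable def f_mm_133 : ℕ → ℕ → ℕ → ℕ → Bool := onCell 536870912 536870912 0 1230186008 1046898278 26843546
    (rowFX 0 true false false .dn 1 3 3 (qsf 536870912 536870912 0 1230186008 3) ndF1q1 ndF7q3 pcF3 Cut.none Ext.none)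

def k0_mm_133 : ∃ t, chk3 f_mm_133 t 1 1 1 = true :=
  ⟨(l 4), by decide +kernel⟩

theorem c_mm_133 : CertFX 536870912 536870912 0 1230186008 1046898278 26843546 true false false .dn 1 3 3
    ndF1q1 ndF7q3 pcF3 Cut.none Ext.none :=
  certFX0 (fam := true) (s1 := false) (s2 := false) (a := 1) (b := 3) (c := 3) (cn := .dn) (n1 := ndF1q1) (n2 := ndF7q3) (pc := pcF3) (cut := Cut.none) (xt := Ext.none) (P1 := 536870912) (W1 := 536870912) (P2 := 0) (W2 := 1230186008) (P3 := 1046898278) (W3 := 26843546)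
    rfl k0_mm_133

noncomputable def f_mm_202_a : ℕ → ℕ → ℕ → ℕ → Bool := onCell 0 420477299 0 536870912 1046898278 26843546
    (rowFX 0 true false false .pp 2 0 2 (qsf 0 420477299 0 536870912 2) ndF1q2a ndF7q0 pcF2 Cut.none Ext.none)

def k0_mm_202_a : ∃ t, chk3 f_mm_202_a t 1 1 1 = true :=
  ⟨(l 4), by decide +kernel⟩

theorem c_mm_202_a : CertFX 0 420477299 0 536870912 1046898278 26843546 true false false .pp 2 0 2
    ndF1q2a ndF7q0 pcF2 Cut.none Ext.none :=
  certFX0 (fam := true) (s1 := false) (s2 := false) (a := 2) (b := 0) (c := 2) (cn := .pp) (n1 := ndF1q2a) (n2 := ndF7q0) (pc := pcF2) (cut := Cut.none) (xt := Ext.none) (P1 := 0) (W1 := 420477299) (P2 := 0) (W2 := 536870912) (P3 := 1046898278) (W3 := 26843546)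
    rfl k0_mm_202_a

noncomputable def f_mm_202_b : ℕ → ℕ → ℕ → ℕ → Bool := onCell 1239849684 370763052 0 536870912 1046898278 26843546
    (rowFX 0 true false false .pp 2 0 2 (qsf 1239849684 370763052 0 536870912 2) ndF1q2b ndF7q0 pcF2 Cut.none Ext.none)

def k0_mm_202_b : ∃ t, chk3 f_mm_202_b t 1 1 1 = true :=
  ⟨(l 4), by decide +kernel⟩

theorem c_mm_202_b : CertFX 1239849684 370763052 0 536870912 1046898278 26843546 true false false .pp 2 0 2
    ndF1q2b ndF7q0 pcF2 Cut.none Ext.none :=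
  certFX0 (fam := true) (s1 := false) (s2 := false) (a := 2) (b := 0) (c := 2) (cn := .pp) (n1 := ndF1q2b) (n2 := ndF7q0) (pc := pcF2) (cut := Cut.none) (xt := Ext.none) (P1 := 1239849684) (W1 := 370763052) (P2 := 0) (W2 := 536870912) (P3 := 1046898278) (W3 := 26843546)
    rfl k0_mm_202_b

noncomputable def f_mm_203_a : ℕ → ℕ → ℕ → ℕ → Bool := onCell 0 420477299 0 536870912 1046898278 26843546
    (rowFX 0 true false false .up 2 0 3 (qsf 0 420477299 0 536870912 3) ndF1q2a ndF7q0 pcF3 Cut.none Ext.none)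

def k0_mm_203_a : ∃ t, chk3 f_mm_203_a t 1 1 1 = true :=
  ⟨(l 4), by decide +kernel⟩

theorem c_mm_203_a : CertFX 0 420477299 0 536870912 1046898278 26843546 true false false .up 2 0 3
    ndF1q2a ndF7q0 pcF3 Cut.none Ext.none :=
  certFX0 (fam := true) (s1 := false) (s2 := false) (a := 2) (b := 0) (c := 3) (cn := .up) (n1 := ndF1q2a) (n2 := ndF7q0) (pc := pcF3) (cut := Cut.none) (xt := Ext.none) (P1 := 0) (W1 := 420477299) (P2 := 0) (W2 := 536870912) (P3 := 1046898278) (W3 := 26843546)
    rfl k0_mm_203_a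

noncomputable def f_mm_203_b : ℕ → ℕ → ℕ → ℕ → Bool := onCell 1239849684 370763052 0 536870912 1046898278 26843546
    (rowFX 0 true false false .up 2 0 3 (qsf 1239849684 370763052 0 536870912 3) ndF1q2b ndF7q0 pcF3 Cut.none Ext.none)

def k0_mm_203_b : ∃ t, chk3 f_mm_203_b t 1 1 1 = true :=
  ⟨(l 4), by decide +kernel⟩

theorem c_mm_203_b : CertFX 1239849684 370763052 0 536870912 1046898278 26843546 true false false .up 2 0 3
    ndF1q2b ndF7q0 pcF3 Cut.none Ext.none :=
  certFX0 (fam := true) (s1 := false) (s2 := false) (a := 2) (b := 0) (c := 3) (cn := .up) (n1 := ndF1q2b) (n2 := ndF7q0) (pc := pcF3) (cut := Cut.none) (xt := Ext.none) (P1 := 1239849684) (W1 := 370763052) (P2 := 0) (W2 := 536870912) (P3 := 1046898278) (W3 := 26843546)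
    rfl k0_mm_203_b

noncomputable def f_mm_213_a : ℕ → ℕ → ℕ → ℕ → Bool := onCell 0 420477299 536870912 536870912 1046898278 26843546
    (rowFX 0 true false false .pnn 2 1 3 (qsf 0 420477299 536870912 536870912 3) ndF1q2a ndF7q1 pcF3 Cut.none Ext.none)

def k0_mm_213_a : ∃ t, chk3 f_mm_213_a t 1 1 1 = true :=
  ⟨(l 4), by decide +kernel⟩

theorem c_mm_213_a : CertFX 0 420477299 536870912 536870912 1046898278 26843546 true false false .pnn 2 1 3
    ndF1q2a ndF7q1 pcF3 Cut.none Ext.none :=
  certFX0 (fam := true) (s1 := false) (s2 := false) (a := 2) (b := 1) (c := 3) (cn := .pnn) (n1 := ndF1q2a) (n2 := ndF7q1) (pc := pcF3) (cut := Cut.none) (xt := Ext.none) (P1 := 0) (W1 := 420477299) (P2 := 536870912) (W2 := 536870912) (P3 := 1046898278) (W3 := 26843546)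
    rfl k0_mm_213_a

noncomputable def f_mm_213_b : ℕ → ℕ → ℕ → ℕ → Bool := onCell 1239849684 370763052 536870912 536870912 1046898278 26843546
    (rowFX 0 true false false .pnn 2 1 3 (qsf 1239849684 370763052 536870912 536870912 3) ndF1q2b ndF7q1 pcF3 Cut.none Ext.none)

def k0_mm_213_b : ∃ t, chk3 f_mm_213_b t 1 1 1 = true :=
  ⟨(l 4), by decide +kernel⟩

theorem c_mm_213_b : CertFX 1239849684 370763052 536870912 536870912 1046898278 26843546 true false false .pnn 2 1 3
    ndF1q2b ndF7q1 pcF3 Cut.none Ext.none :=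
  certFX0 (fam := true) (s1 := false) (s2 := false) (a := 2) (b := 1) (c := 3) (cn := .pnn) (n1 := ndF1q2b) (n2 := ndF7q1) (pc := pcF3) (cut := Cut.none) (xt := Ext.none) (P1 := 1239849684) (W1 := 370763052) (P2 := 536870912) (W2 := 536870912) (P3 := 1046898278) (W3 := 26843546)
    rfl k0_mm_213_b

noncomputable def f_mm_303 : ℕ → ℕ → ℕ → ℕ → Bool := onCell 1610612736 469762048 0 536870912 1046898278 26843546
    (rowFX 0 true false false .npn 3 0 3 (qsf 1610612736 469762048 0 536870912 3) ndF1q3 ndF7q0 pcF3 Cut.none Ext.none)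

def k0_mm_303 : ∃ t, chk3 f_mm_303 t 1 1 1 = true :=
  ⟨(l 4), by decide +kernel⟩

theorem c_mm_303 : CertFX 1610612736 469762048 0 536870912 1046898278 26843546 true false false .npn 3 0 3
    ndF1q3 ndF7q0 pcF3 Cut.none Ext.none :=
  certFX0 (fam := true) (s1 := false) (s2 := false) (a := 3) (b := 0) (c := 3) (cn := .npn) (n1 := ndF1q3) (n2 := ndF7q0) (pc := pcF3) (cut := Cut.none) (xt := Ext.none) (P1 := 1610612736) (W1 := 469762048) (P2 := 0) (W2 := 536870912) (P3 := 1046898278) (W3 := 26843546)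
    rfl k0_mm_303

noncomputable def f_mm_313 : ℕ → ℕ → ℕ → ℕ → Bool := onCell 1610612736 469762048 536870912 536870912 1046898278 26843546
    (rowFX 0 true false false .dn 3 1 3 (qsf 1610612736 469762048 536870912 536870912 3) ndF1q3 ndF7q1 pcF3 Cut.none Ext.none)

def k0_mm_313 : ∃ t, chk3 f_mm_313 t 1 1 1 = true :=
  ⟨(l 4), by decide +kernel⟩

theorem c_mm_313 : CertFX 1610612736 469762048 536870912 536870912 1046898278 26843546 true false false .dn 3 1 3
    ndF1q3 ndF7q1 pcF3 Cut.none Ext.none :=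
  certFX0 (fam := true) (s1 := false) (s2 := false) (a := 3) (b := 1) (c := 3) (cn := .dn) (n1 := ndF1q3) (n2 := ndF7q1) (pc := pcF3) (cut := Cut.none) (xt := Ext.none) (P1 := 1610612736) (W1 := 469762048) (P2 := 536870912) (W2 := 536870912) (P3 := 1046898278) (W3 := 26843546)
    rfl k0_mm_313

end Pool.Agent.Strip051.G.IE1.Tab.C.FA17

namespace Pool.Agent.Strip051.G.IE1.Tab.C.FA22

open Pool.Agent.Strip051.PB Pool.Agent.Strip051.PB.T
open Pool.Agent.Strip051.G.IE1.Tab

noncomputable def f_pp_001 : ℕ → ℕ → ℕ → ℕ → Bool := onCell 67108864 469762048 67108864 469762048 1046898278 26843546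
    (rowFX 0 true true true .up 0 0 1 (qsf 67108864 469762048 67108864 469762048 1) ndF2q0 ndF2q0 pcF1 Cut.none Ext.none)

def k0_pp_001 : ∃ t, chk3 f_pp_001 t 1 1 1 = true :=
  ⟨(l 4), by decide +kernel⟩

theorem c_pp_001 : CertFX 67108864 469762048 67108864 469762048 1046898278 26843546 true true true .up 0 0 1
    ndF2q0 ndF2q0 pcF1 Cut.none Ext.none :=
  certFX0 (fam := true) (s1 := true) (s2 := true) (a := 0) (b := 0) (c := 1) (cn := .up) (n1 := ndF2q0) (n2 := ndF2q0) (pc := pcF1) (cut := Cut.none) (xt := Ext.none) (P1 := 67108864) (W1 := 469762048) (P2 := 67108864) (W2 := 469762048) (P3 := 1046898278) (W3 := 26843546)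
    rfl k0_pp_001

noncomputable def f_pp_011 : ℕ → ℕ → ℕ → ℕ → Bool := onCell 67108864 469762048 536870912 536870912 1046898278 26843546
    (rowFX 0 true true true .pnn 0 1 1 (qsf 67108864 469762048 536870912 536870912 1) ndF2q0 ndF2q1 pcF1 Cut.none Ext.none)

def k0_pp_011 : ∃ t, chk3 f_pp_011 t 1 1 1 = true :=
  ⟨(l 4), by decide +kernel⟩

theorem c_pp_011 : CertFX 67108864 469762048 536870912 536870912 1046898278 26843546 true true true .pnn 0 1 1
    ndF2q0 ndF2q1 pcF1 Cut.none Ext.none :=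
  certFX0 (fam := true) (s1 := true) (s2 := true) (a := 0) (b := 1) (c := 1) (cn := .pnn) (n1 := ndF2q0) (n2 := ndF2q1) (pc := pcF1) (cut := Cut.none) (xt := Ext.none) (P1 := 67108864) (W1 := 469762048) (P2 := 536870912) (W2 := 536870912) (P3 := 1046898278) (W3 := 26843546)
    rfl k0_pp_011

noncomputable def f_pp_012 : ℕ → ℕ → ℕ → ℕ → Bool := onCell 67108864 469762048 536870912 536870912 1046898278 26843546
    (rowFX 0 true true true .pnp 0 1 2 (qsf 67108864 469762048 536870912 536870912 2) ndF2q0 ndF2q1 pcF2 Cut.none Ext.none)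

def k0_pp_012 : ∃ t, chk3 f_pp_012 t 1 1 1 = true :=
  ⟨(l 4), by decide +kernel⟩

theorem c_pp_012 : CertFX 67108864 469762048 536870912 536870912 1046898278 26843546 true true true .pnp 0 1 2
    ndF2q0 ndF2q1 pcF2 Cut.none Ext.none :=
  certFX0 (fam := true) (s1 := true) (s2 := true) (a := 0) (b := 1) (c := 2) (cn := .pnp) (n1 := ndF2q0) (n2 := ndF2q1) (pc := pcF2) (cut := Cut.none) (xt := Ext.none) (P1 := 67108864) (W1 := 469762048) (P2 := 536870912) (W2 := 536870912) (P3 := 1046898278) (W3 := 26843546)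
    rfl k0_pp_012

noncomputable def f_pp_022_a : ℕ → ℕ → ℕ → ℕ → Bool := onCell 67108864 469762048 0 420477299 1046898278 26843546
    (rowFX 0 true true true .pp 0 2 2 (qsf 67108864 469762048 0 420477299 2) ndF2q0 ndF2q2a pcF2 Cut.none Ext.none)

def k0_pp_022_a : ∃ t, chk3 f_pp_022_a t 1 1 1 = true :=
  ⟨(a (a (b (a (a (b (a (b (c (l 16206336) (l 16196648)) (c (a (l 16306984) (l 16357328)) (a (l 16320184) (l 16350368)))) (c (l 16380176) (l 16373424))) (l 4)) (l 4)) (l 4)) (l 4)) (l 4)) (l 4)), by decide +kernel⟩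

theorem c_pp_022_a : CertFX 67108864 469762048 0 420477299 1046898278 26843546 true true true .pp 0 2 2
    ndF2q0 ndF2q2a pcF2 Cut.none Ext.none :=
  certFX0 (fam := true) (s1 := true) (s2 := true) (a := 0) (b := 2) (c := 2) (cn := .pp) (n1 := ndF2q0) (n2 := ndF2q2a) (pc := pcF2) (cut := Cut.none) (xt := Ext.none) (P1 := 67108864) (W1 := 469762048) (P2 := 0) (W2 := 420477299) (P3 := 1046898278) (W3 := 26843546)
    rfl k0_pp_022_a

noncomputable def f_pp_022_b : ℕ → ℕ → ℕ → ℕ → Bool := onCell 67108864 469762048 1239849684 370763052 1046898278 26843546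
    (rowFX 0 true true true .pp 0 2 2 (qsf 67108864 469762048 1239849684 370763052 2) ndF2q0 ndF2q2b pcF2 Cut.none Ext.none)

def k0_pp_022_b : ∃ t, chk3 f_pp_022_b t 1 1 1 = true :=
  ⟨(a (b (a (a (a (b (a (b (c (b (l 16161880) (l 16012440)) (b (l 16149048) (l 15994576))) (b (c (l 15838560) (l 15815344)) (l 4))) (b (b (c (l 16261112) (l 16250792)) (l 4)) (l 4))) (l 4)) (l 4)) (l 4)) (l 4)) (l 4)) (l 4)), by decide +kernel⟩

theorem c_pp_022_b : CertFX 67108864 469762048 1239849684 370763052 1046898278 26843546 true true true .pp 0 2 2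
    ndF2q0 ndF2q2b pcF2 Cut.none Ext.none :=
  certFX0 (fam := true) (s1 := true) (s2 := true) (a := 0) (b := 2) (c := 2) (cn := .pp) (n1 := ndF2q0) (n2 := ndF2q2b) (pc := pcF2) (cut := Cut.none) (xt := Ext.none) (P1 := 67108864) (W1 := 469762048) (P2 := 1239849684) (W2 := 370763052) (P3 := 1046898278) (W3 := 26843546)
    rfl k0_pp_022_b

noncomputable def f_pp_023_a : ℕ → ℕ → ℕ → ℕ → Bool := onCell 1610612736 536870912 0 420477299 1046898278 26843546
    (rowFX 2 true true true .up 0 2 3 (qsf 67108864 469762048 0 420477299 3) ndF2q0 ndF2q2a pcF3 Cut.none Ext.none)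

def k0_pp_023_a : ∃ t, chk3 f_pp_023_a t 1 1 1 = true :=
  ⟨(l 4), by decide +kernel⟩

theorem c_pp_023_a : CertFX 67108864 469762048 0 420477299 1046898278 26843546 true true true .up 0 2 3
    ndF2q0 ndF2q2a pcF3 Cut.none Ext.none :=
  certFX2 (fam := true) (s1 := true) (s2 := true) (a := 0) (b := 2) (c := 3) (cn := .up) (n1 := ndF2q0) (n2 := ndF2q2a) (pc := pcF3) (cut := Cut.none) (xt := Ext.none) (P1 := 67108864) (W1 := 469762048) (P2 := 0) (W2 := 420477299) (P3 := 1046898278) (W3 := 26843546)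
    rfl (fun _ => rfl) k0_pp_023_a

noncomputable def f_pp_023_b : ℕ → ℕ → ℕ → ℕ → Bool := onCell 67108864 469762048 1610612736 536870912 1046898278 26843546
    (rowFX 1 true true true .up 0 2 3 (qsf 67108864 469762048 1239849684 370763052 3) ndF2q0 ndF2q2b pcF3 Cut.none Ext.none)

def k0_pp_023_b : ∃ t, chk3 f_pp_023_b t 1 1 1 = true :=
  ⟨(l 4), by decide +kernel⟩

theorem c_pp_023_b : CertFX 67108864 469762048 1239849684 370763052 1046898278 26843546 true true true .up 0 2 3
    ndF2q0 ndF2q2b pcF3 Cut.none Ext.none :=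
  certFX1 (fam := true) (s1 := true) (s2 := true) (a := 0) (b := 2) (c := 3) (cn := .up) (n1 := ndF2q0) (n2 := ndF2q2b) (pc := pcF3) (cut := Cut.none) (xt := Ext.none) (P1 := 67108864) (W1 := 469762048) (P2 := 1239849684) (W2 := 370763052) (P3 := 1046898278) (W3 := 26843546)
    rfl (fun _ => rfl) k0_pp_023_b

noncomputable def f_pp_033 : ℕ → ℕ → ℕ → ℕ → Bool := onCell 67108864 469762048 1610612736 469762048 1046898278 26843546
    (rowFX 0 true true true .pnn 0 3 3 (qsf 67108864 469762048 1610612736 469762048 3) ndF2q0 ndF2q3 pcF3 Cut.none Ext.none)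

def k0_pp_033 : ∃ t, chk3 f_pp_033 t 1 1 1 = true :=
  ⟨(l 4), by decide +kernel⟩

theorem c_pp_033 : CertFX 67108864 469762048 1610612736 469762048 1046898278 26843546 true true true .pnn 0 3 3
    ndF2q0 ndF2q3 pcF3 Cut.none Ext.none :=
  certFX0 (fam := true) (s1 := true) (s2 := true) (a := 0) (b := 3) (c := 3) (cn := .pnn) (n1 := ndF2q0) (n2 := ndF2q3) (pc := pcF3) (cut := Cut.none) (xt := Ext.none) (P1 := 67108864) (W1 := 469762048) (P2 := 1610612736) (W2 := 469762048) (P3 := 1046898278) (W3 := 26843546)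
    rfl k0_pp_033

noncomputable def f_pp_101 : ℕ → ℕ → ℕ → ℕ → Bool := onCell 536870912 536870912 67108864 469762048 1046898278 26843546
    (rowFX 0 true true true .npn 1 0 1 (qsf 536870912 536870912 67108864 469762048 1) ndF2q1 ndF2q0 pcF1 Cut.none Ext.none)

def k0_pp_101 : ∃ t, chk3 f_pp_101 t 1 1 1 = true :=
  ⟨(l 4), by decide +kernel⟩

theorem c_pp_101 : CertFX 536870912 536870912 67108864 469762048 1046898278 26843546 true true true .npn 1 0 1
    ndF2q1 ndF2q0 pcF1 Cut.none Ext.none :=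
  certFX0 (fam := true) (s1 := true) (s2 := true) (a := 1) (b := 0) (c := 1) (cn := .npn) (n1 := ndF2q1) (n2 := ndF2q0) (pc := pcF1) (cut := Cut.none) (xt := Ext.none) (P1 := 536870912) (W1 := 536870912) (P2 := 67108864) (W2 := 469762048) (P3 := 1046898278) (W3 := 26843546)
    rfl k0_pp_101

noncomputable def f_pp_102 : ℕ → ℕ → ℕ → ℕ → Bool := onCell 536870912 536870912 67108864 469762048 1046898278 26843546
    (rowFX 0 true true true .npp 1 0 2 (qsf 536870912 536870912 67108864 469762048 2) ndF2q1 ndF2q0 pcF2 Cut.none Ext.none)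

def k0_pp_102 : ∃ t, chk3 f_pp_102 t 1 1 1 = true :=
  ⟨(l 4), by decide +kernel⟩

theorem c_pp_102 : CertFX 536870912 536870912 67108864 469762048 1046898278 26843546 true true true .npp 1 0 2
    ndF2q1 ndF2q0 pcF2 Cut.none Ext.none :=
  certFX0 (fam := true) (s1 := true) (s2 := true) (a := 1) (b := 0) (c := 2) (cn := .npp) (n1 := ndF2q1) (n2 := ndF2q0) (pc := pcF2) (cut := Cut.none) (xt := Ext.none) (P1 := 536870912) (W1 := 536870912) (P2 := 67108864) (W2 := 469762048) (P3 := 1046898278) (W3 := 26843546)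
    rfl k0_pp_102

noncomputable def f_pp_112 : ℕ → ℕ → ℕ → ℕ → Bool := onCell 536870912 536870912 536870912 536870912 1046898278 26843546
    (rowFX 0 true true true .dn 1 1 2 (qsf 536870912 536870912 536870912 536870912 2) ndF2q1 ndF2q1 pcF2 Cut.none Ext.none)

def k0_pp_112 : ∃ t, chk3 f_pp_112 t 1 1 1 = true :=
  ⟨(l 4), by decide +kernel⟩

theorem c_pp_112 : CertFX 536870912 536870912 536870912 536870912 1046898278 26843546 true true true .dn 1 1 2
    ndF2q1 ndF2q1 pcF2 Cut.none Ext.none :=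
  certFX0 (fam := true) (s1 := true) (s2 := true) (a := 1) (b := 1) (c := 2) (cn := .dn) (n1 := ndF2q1) (n2 := ndF2q1) (pc := pcF2) (cut := Cut.none) (xt := Ext.none) (P1 := 536870912) (W1 := 536870912) (P2 := 536870912) (W2 := 536870912) (P3 := 1046898278) (W3 := 26843546)
    rfl k0_pp_112

noncomputable def f_pp_113 : ℕ → ℕ → ℕ → ℕ → Bool := onCell 536870912 536870912 536870912 536870912 1046898278 26843546
    (rowFX 0 true true true .nn 1 1 3 (qsf 536870912 536870912 536870912 536870912 3) ndF2q1 ndF2q1 pcF3 Cut.none Ext.none)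

def k0_pp_113 : ∃ t, chk3 f_pp_113 t 1 1 1 = true :=
  ⟨(l 4), by decide +kernel⟩

theorem c_pp_113 : CertFX 536870912 536870912 536870912 536870912 1046898278 26843546 true true true .nn 1 1 3
    ndF2q1 ndF2q1 pcF3 Cut.none Ext.none :=
  certFX0 (fam := true) (s1 := true) (s2 := true) (a := 1) (b := 1) (c := 3) (cn := .nn) (n1 := ndF2q1) (n2 := ndF2q1) (pc := pcF3) (cut := Cut.none) (xt := Ext.none) (P1 := 536870912) (W1 := 536870912) (P2 := 536870912) (W2 := 536870912) (P3 := 1046898278) (W3 := 26843546)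
    rfl k0_pp_113

noncomputable def f_pp_123_a : ℕ → ℕ → ℕ → ℕ → Bool := onCell 536870912 536870912 0 420477299 1046898278 26843546
    (rowFX 0 true true true .npn 1 2 3 (qsf 536870912 536870912 0 420477299 3) ndF2q1 ndF2q2a pcF3 Cut.none Ext.none)

def k0_pp_123_a : ∃ t, chk3 f_pp_123_a t 1 1 1 = true :=
  ⟨(l 4), by decide +kernel⟩

theorem c_pp_123_a : CertFX 536870912 536870912 0 420477299 1046898278 26843546 true true true .npn 1 2 3
    ndF2q1 ndF2q2a pcF3 Cut.none Ext.none :=
  certFX0 (fam := true) (s1 := true) (s2 := true) (a := 1) (b := 2) (c := 3) (cn := .npn) (n1 := ndF2q1) (n2 := ndF2q2a) (pc := pcF3) (cut := Cut.none) (xt := Ext.none) (P1 := 536870912) (W1 := 536870912) (P2 := 0) (W2 := 420477299) (P3 := 1046898278) (W3 := 26843546)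
    rfl k0_pp_123_a

noncomputable def f_pp_123_b : ℕ → ℕ → ℕ → ℕ → Bool := onCell 536870912 536870912 1239849684 370763052 1046898278 26843546
    (rowFX 0 true true true .npn 1 2 3 (qsf 536870912 536870912 1239849684 370763052 3) ndF2q1 ndF2q2b pcF3 Cut.none Ext.none)

def k0_pp_123_b : ∃ t, chk3 f_pp_123_b t 1 1 1 = true :=
  ⟨(l 4), by decide +kernel⟩

theorem c_pp_123_b : CertFX 536870912 536870912 1239849684 370763052 1046898278 26843546 true true true .npn 1 2 3
    ndF2q1 ndF2q2b pcF3 Cut.none Ext.none :=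
  certFX0 (fam := true) (s1 := true) (s2 := true) (a := 1) (b := 2) (c := 3) (cn := .npn) (n1 := ndF2q1) (n2 := ndF2q2b) (pc := pcF3) (cut := Cut.none) (xt := Ext.none) (P1 := 536870912) (W1 := 536870912) (P2 := 1239849684) (W2 := 370763052) (P3 := 1046898278) (W3 := 26843546)
    rfl k0_pp_123_b

noncomputable def f_pp_133 : ℕ → ℕ → ℕ → ℕ → Bool := onCell 536870912 536870912 1610612736 469762048 1046898278 26843546
    (rowFX 0 true true true .dn 1 3 3 (qsf 536870912 536870912 1610612736 469762048 3) ndF2q1 ndF2q3 pcF3 Cut.none Ext.none)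

def k0_pp_133 : ∃ t, chk3 f_pp_133 t 1 1 1 = true :=
  ⟨(l 4), by decide +kernel⟩

theorem c_pp_133 : CertFX 536870912 536870912 1610612736 469762048 1046898278 26843546 true true true .dn 1 3 3
    ndF2q1 ndF2q3 pcF3 Cut.none Ext.none :=
  certFX0 (fam := true) (s1 := true) (s2 := true) (a := 1) (b := 3) (c := 3) (cn := .dn) (n1 := ndF2q1) (n2 := ndF2q3) (pc := pcF3) (cut := Cut.none) (xt := Ext.none) (P1 := 536870912) (W1 := 536870912) (P2 := 1610612736) (W2 := 469762048) (P3 := 1046898278) (W3 := 26843546)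
    rfl k0_pp_133

noncomputable def f_pp_202_a : ℕ → ℕ → ℕ → ℕ → Bool := onCell 0 420477299 67108864 469762048 1046898278 26843546
    (rowFX 0 true true true .pp 2 0 2 (qsf 0 420477299 67108864 469762048 2) ndF2q2a ndF2q0 pcF2 Cut.none Ext.none)

def k0_pp_202_a : ∃ t, chk3 f_pp_202_a t 1 1 1 = true :=
  ⟨(l 5), by decide +kernel⟩

theorem c_pp_202_a : CertFX 0 420477299 67108864 469762048 1046898278 26843546 true true true .pp 2 0 2
    ndF2q2a ndF2q0 pcF2 Cut.none Ext.none :=
  certFX0 (fam := true) (s1 := true) (s2 := true) (a := 2) (b := 0) (c := 2) (cn := .pp) (n1 := ndF2q2a) (n2 := ndF2q0) (pc := pcF2) (cut := Cut.none) (xt := Ext.none) (P1 := 0) (W1 := 420477299) (P2 := 67108864) (W2 := 469762048) (P3 := 1046898278) (W3 := 26843546)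
    rfl k0_pp_202_a

noncomputable def f_pp_202_b : ℕ → ℕ → ℕ → ℕ → Bool := onCell 1239849684 370763052 67108864 469762048 1046898278 26843546
    (rowFX 0 true true true .pp 2 0 2 (qsf 1239849684 370763052 67108864 469762048 2) ndF2q2b ndF2q0 pcF2 Cut.none Ext.none)

def k0_pp_202_b : ∃ t, chk3 f_pp_202_b t 1 1 1 = true :=
  ⟨(l 5), by decide +kernel⟩

theorem c_pp_202_b : CertFX 1239849684 370763052 67108864 469762048 1046898278 26843546 true true true .pp 2 0 2
    ndF2q2b ndF2q0 pcF2 Cut.none Ext.none :=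
  certFX0 (fam := true) (s1 := true) (s2 := true) (a := 2) (b := 0) (c := 2) (cn := .pp) (n1 := ndF2q2b) (n2 := ndF2q0) (pc := pcF2) (cut := Cut.none) (xt := Ext.none) (P1 := 1239849684) (W1 := 370763052) (P2 := 67108864) (W2 := 469762048) (P3 := 1046898278) (W3 := 26843546)
    rfl k0_pp_202_b

noncomputable def f_pp_203_a : ℕ → ℕ → ℕ → ℕ → Bool := onCell 0 420477299 67108864 469762048 1046898278 26843546
    (rowFX 0 true true true .up 2 0 3 (qsf 0 420477299 67108864 469762048 3) ndF2q2a ndF2q0 pcF3 Cut.none Ext.none)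

def k0_pp_203_a : ∃ t, chk3 f_pp_203_a t 1 1 1 = true :=
  ⟨(l 5), by decide +kernel⟩

theorem c_pp_203_a : CertFX 0 420477299 67108864 469762048 1046898278 26843546 true true true .up 2 0 3
    ndF2q2a ndF2q0 pcF3 Cut.none Ext.none :=
  certFX0 (fam := true) (s1 := true) (s2 := true) (a := 2) (b := 0) (c := 3) (cn := .up) (n1 := ndF2q2a) (n2 := ndF2q0) (pc := pcF3) (cut := Cut.none) (xt := Ext.none) (P1 := 0) (W1 := 420477299) (P2 := 67108864) (W2 := 469762048) (P3 := 1046898278) (W3 := 26843546)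
    rfl k0_pp_203_a

noncomputable def f_pp_203_b : ℕ → ℕ → ℕ → ℕ → Bool := onCell 1239849684 370763052 67108864 469762048 1046898278 26843546
    (rowFX 0 true true true .up 2 0 3 (qsf 1239849684 370763052 67108864 469762048 3) ndF2q2b ndF2q0 pcF3 Cut.none Ext.none)

def k0_pp_203_b : ∃ t, chk3 f_pp_203_b t 1 1 1 = true :=
  ⟨(l 5), by decide +kernel⟩

theorem c_pp_203_b : CertFX 1239849684 370763052 67108864 469762048 1046898278 26843546 true true true .up 2 0 3
    ndF2q2b ndF2q0 pcF3 Cut.none Ext.none :=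
  certFX0 (fam := true) (s1 := true) (s2 := true) (a := 2) (b := 0) (c := 3) (cn := .up) (n1 := ndF2q2b) (n2 := ndF2q0) (pc := pcF3) (cut := Cut.none) (xt := Ext.none) (P1 := 1239849684) (W1 := 370763052) (P2 := 67108864) (W2 := 469762048) (P3 := 1046898278) (W3 := 26843546)
    rfl k0_pp_203_b

noncomputable def f_pp_213_a : ℕ → ℕ → ℕ → ℕ → Bool := onCell 0 420477299 536870912 536870912 1046898278 26843546
    (rowFX 0 true true true .pnn 2 1 3 (qsf 0 420477299 536870912 536870912 3) ndF2q2a ndF2q1 pcF3 Cut.none Ext.none)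

def k0_pp_213_a : ∃ t, chk3 f_pp_213_a t 1 1 1 = true :=
  ⟨(l 4), by decide +kernel⟩

theorem c_pp_213_a : CertFX 0 420477299 536870912 536870912 1046898278 26843546 true true true .pnn 2 1 3
    ndF2q2a ndF2q1 pcF3 Cut.none Ext.none :=
  certFX0 (fam := true) (s1 := true) (s2 := true) (a := 2) (b := 1) (c := 3) (cn := .pnn) (n1 := ndF2q2a) (n2 := ndF2q1) (pc := pcF3) (cut := Cut.none) (xt := Ext.none) (P1 := 0) (W1 := 420477299) (P2 := 536870912) (W2 := 536870912) (P3 := 1046898278) (W3 := 26843546)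
    rfl k0_pp_213_a

noncomputable def f_pp_213_b : ℕ → ℕ → ℕ → ℕ → Bool := onCell 1239849684 370763052 536870912 536870912 1046898278 26843546
    (rowFX 0 true true true .pnn 2 1 3 (qsf 1239849684 370763052 536870912 536870912 3) ndF2q2b ndF2q1 pcF3 Cut.none Ext.none)

def k0_pp_213_b : ∃ t, chk3 f_pp_213_b t 1 1 1 = true :=
  ⟨(l 4), by decide +kernel⟩

theorem c_pp_213_b : CertFX 1239849684 370763052 536870912 536870912 1046898278 26843546 true true true .pnn 2 1 3
    ndF2q2b ndF2q1 pcF3 Cut.none Ext.none :=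
  certFX0 (fam := true) (s1 := true) (s2 := true) (a := 2) (b := 1) (c := 3) (cn := .pnn) (n1 := ndF2q2b) (n2 := ndF2q1) (pc := pcF3) (cut := Cut.none) (xt := Ext.none) (P1 := 1239849684) (W1 := 370763052) (P2 := 536870912) (W2 := 536870912) (P3 := 1046898278) (W3 := 26843546)
    rfl k0_pp_213_b

noncomputable def f_pp_303 : ℕ → ℕ → ℕ → ℕ → Bool := onCell 1610612736 469762048 67108864 469762048 1046898278 26843546
    (rowFX 0 true true true .npn 3 0 3 (qsf 1610612736 469762048 67108864 469762048 3) ndF2q3 ndF2q0 pcF3 Cut.none Ext.none)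

def k0_pp_303 : ∃ t, chk3 f_pp_303 t 1 1 1 = true :=
  ⟨(l 4), by decide +kernel⟩

theorem c_pp_303 : CertFX 1610612736 469762048 67108864 469762048 1046898278 26843546 true true true .npn 3 0 3
    ndF2q3 ndF2q0 pcF3 Cut.none Ext.none :=
  certFX0 (fam := true) (s1 := true) (s2 := true) (a := 3) (b := 0) (c := 3) (cn := .npn) (n1 := ndF2q3) (n2 := ndF2q0) (pc := pcF3) (cut := Cut.none) (xt := Ext.none) (P1 := 1610612736) (W1 := 469762048) (P2 := 67108864) (W2 := 469762048) (P3 := 1046898278) (W3 := 26843546)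
    rfl k0_pp_303

noncomputable def f_pp_313 : ℕ → ℕ → ℕ → ℕ → Bool := onCell 1610612736 469762048 536870912 536870912 1046898278 26843546
    (rowFX 0 true true true .dn 3 1 3 (qsf 1610612736 469762048 536870912 536870912 3) ndF2q3 ndF2q1 pcF3 Cut.none Ext.none)

def k0_pp_313 : ∃ t, chk3 f_pp_313 t 1 1 1 = true :=
  ⟨(l 4), by decide +kernel⟩

theorem c_pp_313 : CertFX 1610612736 469762048 536870912 536870912 1046898278 26843546 true true true .dn 3 1 3
    ndF2q3 ndF2q1 pcF3 Cut.none Ext.none :=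
  certFX0 (fam := true) (s1 := true) (s2 := true) (a := 3) (b := 1) (c := 3) (cn := .dn) (n1 := ndF2q3) (n2 := ndF2q1) (pc := pcF3) (cut := Cut.none) (xt := Ext.none) (P1 := 1610612736) (W1 := 469762048) (P2 := 536870912) (W2 := 536870912) (P3 := 1046898278) (W3 := 26843546)
    rfl k0_pp_313

noncomputable def f_pm_001 : ℕ → ℕ → ℕ → ℕ → Bool := onCell 67108864 469762048 67108864 469762048 1046898278 26843546
    (rowFX 0 true true false .up 0 0 1 (qsf 67108864 469762048 67108864 469762048 1) ndF2q0 ndF2q0 pcF1 Cut.none Ext.none)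

def k0_pm_001 : ∃ t, chk3 f_pm_001 t 1 1 1 = true :=
  ⟨(l 3), by decide +kernel⟩

theorem c_pm_001 : CertFX 67108864 469762048 67108864 469762048 1046898278 26843546 true true false .up 0 0 1
    ndF2q0 ndF2q0 pcF1 Cut.none Ext.none :=
  certFX0 (fam := true) (s1 := true) (s2 := false) (a := 0) (b := 0) (c := 1) (cn := .up) (n1 := ndF2q0) (n2 := ndF2q0) (pc := pcF1) (cut := Cut.none) (xt := Ext.none) (P1 := 67108864) (W1 := 469762048) (P2 := 67108864) (W2 := 469762048) (P3 := 1046898278) (W3 := 26843546)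
    rfl k0_pm_001

noncomputable def f_pm_011 : ℕ → ℕ → ℕ → ℕ → Bool := onCell 67108864 469762048 536870912 536870912 1046898278 26843546
    (rowFX 1 true true false .pnn 0 1 1 (qsf 67108864 469762048 536870912 536870912 1) ndF2q0 ndF2q1 pcF1 Cut.none Ext.none)

def k0_pm_011 : ∃ t, chk3 f_pm_011 t 1 1 1 = true :=
  ⟨(l 3), by decide +kernel⟩

theorem c_pm_011 : CertFX 67108864 469762048 536870912 536870912 1046898278 26843546 true true false .pnn 0 1 1
    ndF2q0 ndF2q1 pcF1 Cut.none Ext.none :=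
  certFX1 (fam := true) (s1 := true) (s2 := false) (a := 0) (b := 1) (c := 1) (cn := .pnn) (n1 := ndF2q0) (n2 := ndF2q1) (pc := pcF1) (cut := Cut.none) (xt := Ext.none) (P1 := 67108864) (W1 := 469762048) (P2 := 536870912) (W2 := 536870912) (P3 := 1046898278) (W3 := 26843546)
    rfl (fun _ => rfl) k0_pm_011

noncomputable def f_pm_012 : ℕ → ℕ → ℕ → ℕ → Bool := onCell 1073741824 536870912 536870912 536870912 1046898278 26843546
    (rowFX 2 true true false .pnp 0 1 2 (qsf 67108864 469762048 536870912 536870912 2) ndF2q0 ndF2q1 pcF2 Cut.none Ext.none)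

def k0_pm_012 : ∃ t, chk3 f_pm_012 t 1 1 1 = true :=
  ⟨(a (a (l 3) (a (a (a (l 3) (a (l 3) (a (b (l 3) (l 3)) (a (b (l 3) (b (l 3) (l 3))) (b (b (l 2) (c (l 16777216) (l 174650818487))) (b (c (b (l 16774240) (l 16759104)) (b (l 16774160) (b (l 16758960) (c (l 16758432) (l 16758192))))) (a (a (a (l 3) (a (b (l 3) (l 3)) (b (l 16647896) (c (b (l 16657152) (l 16621152)) (b (l 16654680) (l 16618832)))))) (b (l 16668832) (b (l 16653584) (l 16643184)))) (b (l 16668688) (b (l 16647992) (l 16648512)))))))))) (b (l 16777216) (b (l 16765256) (b (l 16668464) (b (l 16580048) (l 16618032)))))) (b (l 16777216) (b (l 16765256) (b (l 16668408) (b (l 16517528) (a (l 16370424) (l 16412880)))))))) (b (a (l 16777216) (l 2)) (b (a (l 16765256) (l 16765256)) (b (l 16668408) (a (l 16465584) (l 16465584)))))), by decide +kernel⟩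

theorem c_pm_012 : CertFX 67108864 469762048 536870912 536870912 1046898278 26843546 true true false .pnp 0 1 2
    ndF2q0 ndF2q1 pcF2 Cut.none Ext.none :=
  certFX2 (fam := true) (s1 := true) (s2 := false) (a := 0) (b := 1) (c := 2) (cn := .pnp) (n1 := ndF2q0) (n2 := ndF2q1) (pc := pcF2) (cut := Cut.none) (xt := Ext.none) (P1 := 67108864) (W1 := 469762048) (P2 := 536870912) (W2 := 536870912) (P3 := 1046898278) (W3 := 26843546)
    rfl (fun _ => rfl) k0_pm_012

noncomputable def f_pm_022_a : ℕ → ℕ → ℕ → ℕ → Bool := onCell 1073741824 536870912 0 420477299 1046898278 26843546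
    (rowFX 2 true true false .pp 0 2 2 (qsf 67108864 469762048 0 420477299 2) ndF2q0 ndF2q2a pcF2 Cut.none Ext.none)

def k0_pm_022_a : ∃ t, chk3 f_pm_022_a t 2 1 1 = true :=
  ⟨(b (a (l 1) (a (l 1) (a (b (c (a (l 1) (l 15496912)) (l 15496552)) (b (c (l 97204426599) (l 15658608)) (a (l 224980236615) (l 15739560)))) (b (c (a (l 15496760) (l 15687448)) (l 15414392)) (c (b (l 15686472) (l 15821808)) (b (l 15657808) (l 15796968))))))) (a (a (l 1) (a (l 1) (a (l 1) (a (l 1) (b (l 1) (b (l 1) (c (c (l 362956358503) (l 15876456)) (l 15896616)))))))) (a (a (b (l 1) (a (b (l 1) (c (c (b (a (l 1) (l 15727712)) (a (l 15802968) (l 15605280))) (a (l 15845896) (l 15648504))) (b (l 136933153095) (a (l 15767864) (l 15567432))))) (b (b (l 1) (c (a (c (l 15776880) (l 15755840)) (c (l 15831432) (l 15837616))) (a (l 15737144) (l 15820760)))) (c (a (c (b (l 15671368) (l 15544792)) (l 15593200)) (c (l 15591880) (l 15661768))) (a (b (l 15635120) (l 15505192)) (a (l 15618664) (l 15662912))))))) (b (a (b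 (l 1) (a (l 1) (c (l 16296512) (l 16347344)))) (b (b (l 1) (l 16189832)) (c (l 16387096) (l 16404624)))) (b (b (a (a (c (c (l 16052920) (l 16040760)) (l 16028552)) (l 16145752)) (l 16234168)) (a (c (a (l 15940000) (l 16055400)) (a (l 15920776) (l 16038408))) (l 16173304))) (a (c (a (l 15737960) (b (l 15927264) (l 15795272))) (a (l 15733240) (b (l 15906232) (l 15770168)))) (b (l 15987312) (a (c (l 15927504) (l 15905832)) (l 16066360))))))) (b (a (b (c (l 136933550135) (l 15905080)) (c (l 16063000) (a (l 16348928) (l 16208656)))) (c (b (l 15996216) (l 16203400)) (b (l 15976344) (l 16189552)))) (a (b (c (a (l 16470968) (l 16469568)) (a (l 16384592) (l 16380240))) (a (l 16255984) (l 16443552))) (b (a (l 16325160) (l 16427520)) (c (l 16634536) (l 16445328)))))))), by decide +kernel⟩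

def k1_pm_022_a : ∃ t, chk3 f_pm_022_a t 3 1 1 = true :=
  ⟨(a (b (a (a (b (c (l 15910504) (l 15887656)) (b (l 15966120) (l 16072128))) (b (l 16138424) (l 16154560))) (b (a (l 16390040) (l 16635904)) (a (l 16361520) (l 16669064)))) (b (a (a (l 16111696) (l 16343512)) (a (b (l 16672080) (l 16583232)) (l 16613328))) (a (b (a (l 16508600) (l 16372000)) (a (l 16354544) (l 16211976))) (b (a (l 16401384) (l 16394016)) (l 16285176))))) (b (a (b (l 16702448) (l 16752704)) (b (l 16702392) (l 16752704))) (b (a (l 16609208) (l 16609208)) (b (l 16394016) (l 16285176))))), by decide +kernel⟩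

theorem s2_pm_022_a : ∃ t, chk3 f_pm_022_a t 1 1 1 = true := ex3_a k0_pm_022_a k1_pm_022_a

theorem c_pm_022_a : CertFX 67108864 469762048 0 420477299 1046898278 26843546 true true false .pp 0 2 2
    ndF2q0 ndF2q2a pcF2 Cut.none Ext.none :=
  certFX2 (fam := true) (s1 := true) (s2 := false) (a := 0) (b := 2) (c := 2) (cn := .pp) (n1 := ndF2q0) (n2 := ndF2q2a) (pc := pcF2) (cut := Cut.none) (xt := Ext.none) (P1 := 67108864) (W1 := 469762048) (P2 := 0) (W2 := 420477299) (P3 := 1046898278) (W3 := 26843546)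
    rfl (fun _ => rfl) s2_pm_022_a

noncomputable def f_pm_022_b : ℕ → ℕ → ℕ → ℕ → Bool := onCell 67108864 469762048 1239849684 370763052 1046898278 26843546
    (rowFX 0 true true false .pp 0 2 2 (qsf 67108864 469762048 1239849684 370763052 2) ndF2q0 ndF2q2b pcF2 Cut.none Ext.none)

def k0_pm_022_b : ∃ t, chk3 f_pm_022_b t 1 1 1 = true :=
  ⟨(a (b (a (a (b (b (a (b (a (c (l 15456424) (l 15420776)) (l 15607560)) (c (l 15556624) (l 15522976))) (c (l 15855584) (l 15831384))) (c (a (l 15578416) (l 15884072)) (a (l 15545496) (l 15860816)))) (a (c (l 15582624) (l 15549848)) (l 15876416))) (b (b (c (a (l 16066896) (l 16273904)) (l 16155328)) (a (l 16083960) (l 16291112))) (l 16191784))) (b (a (b (l 16468384) (l 16614288)) (b (l 16733000) (l 16771848))) (a (b (l 16616872) (l 16616872)) (b (l 16777216) (l 2))))) (b (a (a (a (l 15568688) (l 15876416)) (b (l 16191784) (l 16191784))) (a (b (l 16616872) (l 2)) (l 2))) (a (a (a (l 15568688) (l 2)) (l 2)) (l 2)))) (a (b (b (a (b (a (l 16733000)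 (l 16733000)) (l 16771848)) (b (c (l 16733568) (l 16732432)) (l 2))) (l 2)) (l 2)) (l 2))), by decide +kernel⟩

theorem c_pm_022_b : CertFX 67108864 469762048 1239849684 370763052 1046898278 26843546 true true false .pp 0 2 2
    ndF2q0 ndF2q2b pcF2 Cut.none Ext.none :=
  certFX0 (fam := true) (s1 := true) (s2 := false) (a := 0) (b := 2) (c := 2) (cn := .pp) (n1 := ndF2q0) (n2 := ndF2q2b) (pc := pcF2) (cut := Cut.none) (xt := Ext.none) (P1 := 67108864) (W1 := 469762048) (P2 := 1239849684) (W2 := 370763052) (P3 := 1046898278) (W3 := 26843546)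
    rfl k0_pm_022_b

noncomputable def f_pm_023_a : ℕ → ℕ → ℕ → ℕ → Bool := onCell 1610612736 536870912 0 420477299 1046898278 26843546
    (rowFX 2 true true false .up 0 2 3 (qsf 67108864 469762048 0 420477299 3) ndF2q0 ndF2q2a pcF3 Cut.none Ext.none)

def k0_pm_023_a : ∃ t, chk3 f_pm_023_a t 1 1 1 = true :=
  ⟨(a (a (b (a (b (l 16702392) (l 16752704)) (a (l 16735352) (l 16735352))) (b (a (l 16609208) (l 16588232)) (a (l 16294080) (b (l 16394016) (l 16285176))))) (a (b (c (l 16735888) (l 16734816)) (b (l 16525320) (l 2))) (l 2))) (l 2)), by decide +kernel⟩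

theorem c_pm_023_a : CertFX 67108864 469762048 0 420477299 1046898278 26843546 true true false .up 0 2 3
    ndF2q0 ndF2q2a pcF3 Cut.none Ext.none :=
  certFX2 (fam := true) (s1 := true) (s2 := false) (a := 0) (b := 2) (c := 3) (cn := .up) (n1 := ndF2q0) (n2 := ndF2q2a) (pc := pcF3) (cut := Cut.none) (xt := Ext.none) (P1 := 67108864) (W1 := 469762048) (P2 := 0) (W2 := 420477299) (P3 := 1046898278) (W3 := 26843546)
    rfl (fun _ => rfl) k0_pm_023_a

noncomputable def f_pm_023_b : ℕ → ℕ → ℕ → ℕ → Bool := onCell 1610612736 536870912 1239849684 370763052 1046898278 26843546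
    (rowFX 2 true true false .up 0 2 3 (qsf 67108864 469762048 1239849684 370763052 3) ndF2q0 ndF2q2b pcF3 Cut.none Ext.none)

def k0_pm_023_b : ∃ t, chk3 f_pm_023_b t 1 1 1 = true :=
  ⟨(a (a (b (a (b (l 16753056) (b (l 16776632) (l 16698808))) (c (l 16766128) (l 16765840))) (b (a (a (b (l 16365960) (l 16020488)) (l 16424328)) (a (l 16564424) (l 16727768))) (a (a (b (l 15517376) (l 483213577927)) (b (l 15925976) (l 15266968))) (b (l 16180752) (a (l 15799720) (l 16085992)))))) (a (b (c (l 16766128) (l 16765840)) (b (l 16775464) (a (l 16360624) (l 16648280)))) (a (b (c (l 16766128) (l 16765840)) (c (l 16759568) (l 16759112))) (b (l 4) (l 4))))) (a (l 4) (l 4))), by decide +kernel⟩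

theorem c_pm_023_b : CertFX 67108864 469762048 1239849684 370763052 1046898278 26843546 true true false .up 0 2 3
    ndF2q0 ndF2q2b pcF3 Cut.none Ext.none :=
  certFX2 (fam := true) (s1 := true) (s2 := false) (a := 0) (b := 2) (c := 3) (cn := .up) (n1 := ndF2q0) (n2 := ndF2q2b) (pc := pcF3) (cut := Cut.none) (xt := Ext.none) (P1 := 67108864) (W1 := 469762048) (P2 := 1239849684) (W2 := 370763052) (P3 := 1046898278) (W3 := 26843546)
    rfl (fun _ => rfl) k0_pm_023_b

noncomputable def f_pm_033 : ℕ → ℕ → ℕ → ℕ → Bool := onCell 67108864 469762048 1610612736 536870912 1046898278 26843546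
    (rowFX 1 true true false .pnn 0 3 3 (qsf 67108864 469762048 1610612736 469762048 3) ndF2q0 ndF2q3 pcF3 Cut.none Ext.none)

def k0_pm_033 : ∃ t, chk3 f_pm_033 t 1 1 1 = true :=
  ⟨(b (a (b (a (b (a (l 15714208) (l 1)) (a (l 95593821623) (l 16191784))) (l 1)) (a (b (a (c (l 15729880) (l 15696776)) (l 16086928)) (c (a (l 15478216) (l 16199288)) (a (b (l 15696776) (l 15696776)) (l 16037480)))) (b (c (l 16700056) (l 16698048)) (b (l 16547008) (a (l 118346106599) (l 4)))))) (l 1)) (l 4)), by decide +kernel⟩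

theorem c_pm_033 : CertFX 67108864 469762048 1610612736 469762048 1046898278 26843546 true true false .pnn 0 3 3
    ndF2q0 ndF2q3 pcF3 Cut.none Ext.none :=
  certFX1 (fam := true) (s1 := true) (s2 := false) (a := 0) (b := 3) (c := 3) (cn := .pnn) (n1 := ndF2q0) (n2 := ndF2q3) (pc := pcF3) (cut := Cut.none) (xt := Ext.none) (P1 := 67108864) (W1 := 469762048) (P2 := 1610612736) (W2 := 469762048) (P3 := 1046898278) (W3 := 26843546)
    rfl (fun _ => rfl) k0_pm_033

noncomputable def f_pm_101 : ℕ → ℕ → ℕ → ℕ → Bool := onCell 536870912 536870912 67108864 469762048 1046898278 26843546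
    (rowFX 2 true true false .npn 1 0 1 (qsf 536870912 536870912 67108864 469762048 1) ndF2q1 ndF2q0 pcF1 Cut.none Ext.none)

def k0_pm_101 : ∃ t, chk3 f_pm_101 t 1 1 1 = true :=
  ⟨(l 3), by decide +kernel⟩

theorem c_pm_101 : CertFX 536870912 536870912 67108864 469762048 1046898278 26843546 true true false .npn 1 0 1
    ndF2q1 ndF2q0 pcF1 Cut.none Ext.none :=
  certFX2 (fam := true) (s1 := true) (s2 := false) (a := 1) (b := 0) (c := 1) (cn := .npn) (n1 := ndF2q1) (n2 := ndF2q0) (pc := pcF1) (cut := Cut.none) (xt := Ext.none) (P1 := 536870912) (W1 := 536870912) (P2 := 67108864) (W2 := 469762048) (P3 := 1046898278) (W3 := 26843546)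
    rfl (fun _ => rfl) k0_pm_101

noncomputable def f_pm_102 : ℕ → ℕ → ℕ → ℕ → Bool := onCell 536870912 536870912 1073741824 536870912 1046898278 26843546
    (rowFX 1 true true false .npp 1 0 2 (qsf 536870912 536870912 67108864 469762048 2) ndF2q1 ndF2q0 pcF2 Cut.none Ext.none)

def k0_pm_102 : ∃ t, chk3 f_pm_102 t 1 1 1 = true :=
  ⟨(b (b (l 3) (b (b (b (l 3) (b (l 3) (b (a (l 3) (l 3)) (b (a (l 3) (a (l 3) (l 3))) (a (a (l 2) (c (l 16777216) (l 174650818487))) (a (c (a (l 16774240) (l 16759104)) (a (l 16774160) (a (l 16758960) (c (l 16758432) (l 16758192))))) (b (b (b (l 3) (b (a (l 3) (l 3)) (a (l 16647896) (c (a (l 16657152) (l 16621152)) (a (l 16654680) (l 16618832)))))) (a (l 16668832) (a (l 16653584) (l 16643184)))) (a (l 16668688) (a (l 16647992) (l 16648512)))))))))) (a (l 16777216) (a (l 16765256) (a (l 16668464) (a (l 16580048) (l 16618032)))))) (a (l 16777216) (a (l 16765256) (a (l 16668408) (a (l 16517528) (b (l 16370424) (l 16412880)))))))) (a (b (l 16777216) (l 2))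 (a (b (l 16765256) (l 16765256)) (a (l 16668408) (b (l 16465584) (l 16465584)))))), by decide +kernel⟩

theorem c_pm_102 : CertFX 536870912 536870912 67108864 469762048 1046898278 26843546 true true false .npp 1 0 2
    ndF2q1 ndF2q0 pcF2 Cut.none Ext.none :=
  certFX1 (fam := true) (s1 := true) (s2 := false) (a := 1) (b := 0) (c := 2) (cn := .npp) (n1 := ndF2q1) (n2 := ndF2q0) (pc := pcF2) (cut := Cut.none) (xt := Ext.none) (P1 := 536870912) (W1 := 536870912) (P2 := 67108864) (W2 := 469762048) (P3 := 1046898278) (W3 := 26843546)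
    rfl (fun _ => rfl) k0_pm_102

noncomputable def f_pm_112 : ℕ → ℕ → ℕ → ℕ → Bool := onCell 536870912 536870912 1073741824 536870912 1046898278 26843546
    (rowFX 1 true true false .dn 1 1 2 (qsf 536870912 536870912 536870912 536870912 2) ndF2q1 ndF2q1 pcF2 Cut.none Ext.none)

def k0_pm_112 : ∃ t, chk3 f_pm_112 t 1 1 1 = true :=
  ⟨(b (b (l 3) (a (b (b (b (l 3) (b (l 3) (b (l 3) (b (l 3) (c (a (l 16777216) (l 16777216)) (a (l 16777216) (l 198675791799))))))) (l 16777216)) (l 16777216)) (b (l 1) (a (l 392486091815) (l 1))))) (a (b (a (l 16768800) (l 16777216)) (a (a (b (l 16733640) (l 16569048)) (l 16751088)) (l 16768800))) (a (l 279743200295) (a (l 384432694855) (l 476237188951))))), by decide +kernel⟩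

theorem c_pm_112 : CertFX 536870912 536870912 536870912 536870912 1046898278 26843546 true true false .dn 1 1 2
    ndF2q1 ndF2q1 pcF2 Cut.none Ext.none :=
  certFX1 (fam := true) (s1 := true) (s2 := false) (a := 1) (b := 1) (c := 2) (cn := .dn) (n1 := ndF2q1) (n2 := ndF2q1) (pc := pcF2) (cut := Cut.none) (xt := Ext.none) (P1 := 536870912) (W1 := 536870912) (P2 := 536870912) (W2 := 536870912) (P3 := 1046898278) (W3 := 26843546)
    rfl (fun _ => rfl) k0_pm_112

noncomputable def f_pm_113 : ℕ → ℕ → ℕ → ℕ → Bool := onCell 536870912 536870912 536870912 536870912 1046898278 26843546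
    (rowFX 0 true true false .nn 1 1 3 (qsf 536870912 536870912 536870912 536870912 3) ndF2q1 ndF2q1 pcF3 Cut.none Ext.none)

def k0_pm_113 : ∃ t, chk3 f_pm_113 t 1 1 1 = true :=
  ⟨(b (a (l 16777216) (a (l 16765256) (b (l 16569048) (l 16569048)))) (a (b (l 16765256) (a (l 16569048) (l 16569048))) (b (a (l 16771552) (l 16579856)) (a (l 16579856) (b (a (l 16570440) (l 16378456)) (a (l 16378456) (b (l 16286448) (a (l 16257568) (b (l 16290120) (a (l 16323448) (b (l 16496720) (a (l 16612024) (b (l 16774744) (a (l 16767968) (a (l 16775824) (b (l 16772456) (l 16777872))))))))))))))))), by decide +kernel⟩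

theorem c_pm_113 : CertFX 536870912 536870912 536870912 536870912 1046898278 26843546 true true false .nn 1 1 3
    ndF2q1 ndF2q1 pcF3 Cut.none Ext.none :=
  certFX0 (fam := true) (s1 := true) (s2 := false) (a := 1) (b := 1) (c := 3) (cn := .nn) (n1 := ndF2q1) (n2 := ndF2q1) (pc := pcF3) (cut := Cut.none) (xt := Ext.none) (P1 := 536870912) (W1 := 536870912) (P2 := 536870912) (W2 := 536870912) (P3 := 1046898278) (W3 := 26843546)
    rfl k0_pm_113

noncomputable def f_pm_123_a : ℕ → ℕ → ℕ → ℕ → Bool := onCell 1610612736 536870912 0 420477299 1046898278 26843546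
    (rowFX 2 true true false .npn 1 2 3 (qsf 536870912 536870912 0 420477299 3) ndF2q1 ndF2q2a pcF3 Cut.none Ext.none)

def k0_pm_123_a : ∃ t, chk3 f_pm_123_a t 1 1 1 = true :=
  ⟨(a (a (b (l 1) (b (a (l 1) (l 16567264)) (a (l 279205189767) (b (l 16394016) (l 16285176))))) (b (a (c (l 16735888) (l 16734816)) (a (c (l 16735888) (l 16734816)) (c (l 16735888) (l 16734816)))) (a (b (l 16525320) (c (l 16362384) (l 16351600))) (b (a (l 16609208) (l 16609208)) (c (l 16362384) (l 16351600)))))) (a (a (b (a (b (l 4) (l 16752704)) (l 4)) (b (a (l 16609208) (l 16586928)) (a (l 16356992) (c (l 16362384) (l 16351608))))) (b (l 4) (b (l 4) (a (l 4) (l 4))))) (l 4))), by decide +kernel⟩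

theorem c_pm_123_a : CertFX 536870912 536870912 0 420477299 1046898278 26843546 true true false .npn 1 2 3
    ndF2q1 ndF2q2a pcF3 Cut.none Ext.none :=
  certFX2 (fam := true) (s1 := true) (s2 := false) (a := 1) (b := 2) (c := 3) (cn := .npn) (n1 := ndF2q1) (n2 := ndF2q2a) (pc := pcF3) (cut := Cut.none) (xt := Ext.none) (P1 := 536870912) (W1 := 536870912) (P2 := 0) (W2 := 420477299) (P3 := 1046898278) (W3 := 26843546)
    rfl (fun _ => rfl) k0_pm_123_a

noncomputable def f_pm_123_b : ℕ → ℕ → ℕ → ℕ → Bool := onCell 1610612736 536870912 1239849684 370763052 1046898278 26843546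
    (rowFX 2 true true false .npn 1 2 3 (qsf 536870912 536870912 1239849684 370763052 3) ndF2q1 ndF2q2b pcF3 Cut.none Ext.none)

def k0_pm_123_b : ∃ t, chk3 f_pm_123_b t 1 1 1 = true :=
  ⟨(b (a (a (l 1) (a (c (l 16766128) (l 16765840)) (a (c (l 16766128) (l 16765840)) (l 4)))) (l 4)) (a (l 1) (l 4))), by decide +kernel⟩

theorem c_pm_123_b : CertFX 536870912 536870912 1239849684 370763052 1046898278 26843546 true true false .npn 1 2 3
    ndF2q1 ndF2q2b pcF3 Cut.none Ext.none :=
  certFX2 (fam := true) (s1 := true) (s2 := false) (a := 1) (b := 2) (c := 3) (cn := .npn) (n1 := ndF2q1) (n2 := ndF2q2b) (pc := pcF3) (cut := Cut.none) (xt := Ext.none) (P1 := 536870912) (W1 := 536870912) (P2 := 1239849684) (W2 := 370763052) (P3 := 1046898278) (W3 := 26843546)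
    rfl (fun _ => rfl) k0_pm_123_b

noncomputable def f_pm_133 : ℕ → ℕ → ℕ → ℕ → Bool := onCell 536870912 536870912 1610612736 469762048 1046898278 26843546
    (rowFX 0 true true false .dn 1 3 3 (qsf 536870912 536870912 1610612736 469762048 3) ndF2q1 ndF2q3 pcF3 Cut.none Ext.none)

def k0_pm_133 : ∃ t, chk3 f_pm_133 t 1 1 1 = true :=
  ⟨(l 4), by decide +kernel⟩

theorem c_pm_133 : CertFX 536870912 536870912 1610612736 469762048 1046898278 26843546 true true false .dn 1 3 3
    ndF2q1 ndF2q3 pcF3 Cut.none Ext.none :=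
  certFX0 (fam := true) (s1 := true) (s2 := false) (a := 1) (b := 3) (c := 3) (cn := .dn) (n1 := ndF2q1) (n2 := ndF2q3) (pc := pcF3) (cut := Cut.none) (xt := Ext.none) (P1 := 536870912) (W1 := 536870912) (P2 := 1610612736) (W2 := 469762048) (P3 := 1046898278) (W3 := 26843546)
    rfl k0_pm_133

noncomputable def f_pm_202_a : ℕ → ℕ → ℕ → ℕ → Bool := onCell 0 420477299 1073741824 536870912 1046898278 26843546
    (rowFX 1 true true false .pp 2 0 2 (qsf 0 420477299 67108864 469762048 2) ndF2q2a ndF2q0 pcF2 Cut.none Ext.none)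

def k0_pm_202_a : ∃ t, chk3 f_pm_202_a t 1 2 1 = true :=
  ⟨(a (b (l 1) (b (l 1) (b (a (c (b (l 1) (l 15496912)) (l 15475584)) (a (c (l 97204405623) (l 15658608)) (b (l 224980236615) (l 15739560)))) (a (c (b (l 15496760) (l 15687448)) (l 15414392)) (c (a (l 15686472) (l 15821808)) (a (l 15657808) (l 15796968))))))) (b (b (l 1) (b (l 1) (b (l 1) (b (l 1) (a (l 1) (a (l 1) (c (c (l 362956358503) (l 15876456)) (l 15896616)))))))) (b (b (a (l 1) (b (a (l 1) (c (c (a (b (l 1) (l 15727712)) (b (l 15802968) (l 15605280))) (b (l 15845896) (l 15648504))) (a (l 136933153095) (b (l 15767864) (l 15567432))))) (a (a (l 1) (c (b (c (l 15776880) (l 15755840)) (c (l 15831432) (l 15837616))) (b (l 15737144) (l 15820760)))) (c (b (c (a (l 15671368) (l 15544792)) (l 15593200)) (c (l 15591880) (l 15661768))) (b (a (l 15635120) (l 15505192)) (b (l 15618664) (l 15662912))))))) (a (b (a (l 1) (b (l 1) (c (l 16296512) (l 16347344)))) (a (a (l 1) (l 16189832)) (c (l 16387096) (l 16404624)))) (a (a (b (b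 (c (c (l 16052920) (l 16040760)) (l 16028552)) (l 16145752)) (l 16234168)) (b (c (b (l 15940000) (l 16055400)) (b (l 15920776) (l 16038408))) (l 16173304))) (b (c (b (l 15737960) (a (l 15927264) (l 15795272))) (b (l 15733240) (a (l 15906232) (l 15770168)))) (a (l 15987312) (b (c (l 15927504) (l 15905832)) (l 16066360))))))) (a (b (a (c (l 136933550135) (l 15905080)) (c (l 16063000) (b (l 16348928) (l 16208656)))) (c (a (l 15996216) (l 16203400)) (a (l 15976344) (l 16189552)))) (b (a (c (b (l 16470968) (l 16469568)) (b (l 16384592) (l 16380240))) (b (l 16255984) (l 16443552))) (a (b (l 16325160) (l 16427520)) (c (l 16634536) (l 16466304)))))))), by decide +kernel⟩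

def k1_pm_202_a : ∃ t, chk3 f_pm_202_a t 1 3 1 = true :=
  ⟨(b (a (b (b (a (c (l 15910504) (l 15887656)) (a (l 15966120) (l 16072128))) (a (l 16138424) (l 16154560))) (a (b (l 16390040) (l 16635904)) (b (l 16361520) (l 16669064)))) (a (b (b (l 16111696) (l 16343512)) (b (a (l 16672080) (l 16583232)) (l 16613328))) (b (a (b (l 16508600) (l 16372000)) (b (l 16354544) (l 16211976))) (a (b (l 16401384) (l 16394016)) (l 16285176))))) (a (b (a (l 16702448) (l 16752704)) (a (l 16702392) (l 16752704))) (a (b (l 16609208) (l 16609208)) (a (l 16394016) (l 16285176))))), by decide +kernel⟩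

theorem s2_pm_202_a : ∃ t, chk3 f_pm_202_a t 1 1 1 = true := ex3_b k0_pm_202_a k1_pm_202_a

theorem c_pm_202_a : CertFX 0 420477299 67108864 469762048 1046898278 26843546 true true false .pp 2 0 2
    ndF2q2a ndF2q0 pcF2 Cut.none Ext.none :=
  certFX1 (fam := true) (s1 := true) (s2 := false) (a := 2) (b := 0) (c := 2) (cn := .pp) (n1 := ndF2q2a) (n2 := ndF2q0) (pc := pcF2) (cut := Cut.none) (xt := Ext.none) (P1 := 0) (W1 := 420477299) (P2 := 67108864) (W2 := 469762048) (P3 := 1046898278) (W3 := 26843546)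
    rfl (fun _ => rfl) s2_pm_202_a

noncomputable def f_pm_202_b : ℕ → ℕ → ℕ → ℕ → Bool := onCell 1239849684 370763052 67108864 469762048 1046898278 26843546
    (rowFX 0 true true false .pp 2 0 2 (qsf 1239849684 370763052 67108864 469762048 2) ndF2q2b ndF2q0 pcF2 Cut.none Ext.none)

def k0_pm_202_b : ∃ t, chk3 f_pm_202_b t 1 1 1 = true :=
  ⟨(b (a (b (b (a (a (b (a (b (c (l 15456424) (l 15420776)) (l 15607560)) (c (l 15556624) (l 15522976))) (c (l 15855584) (l 15831384))) (c (b (l 15578416) (l 15884072)) (b (l 15545496) (l 15860816)))) (b (c (l 15582624) (l 15549848)) (l 15876416))) (a (a (c (b (l 16066896) (l 16273904)) (l 16155328)) (b (l 16083960) (l 16291112))) (l 16191784))) (a (b (a (l 16468384) (l 16614288)) (a (l 16733000) (l 16771848))) (b (a (l 16616872) (l 16616872)) (a (l 16777216) (l 2))))) (a (b (b (b (l 15568688) (l 15876416)) (a (l 16191784) (l 16191784))) (b (a (l 16616872) (l 2)) (l 2))) (a (b (b (l 15483520) (l 2)) (l 2)) (l 2)))) (b (a (a (b (a (b (l 16733000)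 (l 16733000)) (l 16771848)) (a (c (l 16733568) (l 16732432)) (l 2))) (l 2)) (l 2)) (l 2))), by decide +kernel⟩

theorem c_pm_202_b : CertFX 1239849684 370763052 67108864 469762048 1046898278 26843546 true true false .pp 2 0 2
    ndF2q2b ndF2q0 pcF2 Cut.none Ext.none :=
  certFX0 (fam := true) (s1 := true) (s2 := false) (a := 2) (b := 0) (c := 2) (cn := .pp) (n1 := ndF2q2b) (n2 := ndF2q0) (pc := pcF2) (cut := Cut.none) (xt := Ext.none) (P1 := 1239849684) (W1 := 370763052) (P2 := 67108864) (W2 := 469762048) (P3 := 1046898278) (W3 := 26843546)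
    rfl k0_pm_202_b

noncomputable def f_pm_203_a : ℕ → ℕ → ℕ → ℕ → Bool := onCell 0 420477299 1610612736 536870912 1046898278 26843546
    (rowFX 1 true true false .up 2 0 3 (qsf 0 420477299 67108864 469762048 3) ndF2q2a ndF2q0 pcF3 Cut.none Ext.none)

def k0_pm_203_a : ∃ t, chk3 f_pm_203_a t 1 1 1 = true :=
  ⟨(b (b (a (b (a (l 16702392) (l 16752704)) (b (l 16735352) (l 16735352))) (a (b (l 16609208) (l 16588232)) (b (l 16294080) (a (l 16394016) (l 16285176))))) (b (a (c (l 16735888) (l 16734816)) (a (l 16525320) (l 2))) (l 2))) (l 2)), by decide +kernel⟩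

theorem c_pm_203_a : CertFX 0 420477299 67108864 469762048 1046898278 26843546 true true false .up 2 0 3
    ndF2q2a ndF2q0 pcF3 Cut.none Ext.none :=
  certFX1 (fam := true) (s1 := true) (s2 := false) (a := 2) (b := 0) (c := 3) (cn := .up) (n1 := ndF2q2a) (n2 := ndF2q0) (pc := pcF3) (cut := Cut.none) (xt := Ext.none) (P1 := 0) (W1 := 420477299) (P2 := 67108864) (W2 := 469762048) (P3 := 1046898278) (W3 := 26843546)
    rfl (fun _ => rfl) k0_pm_203_a

noncomputable def f_pm_203_b : ℕ → ℕ → ℕ → ℕ → Bool := onCell 1239849684 370763052 1610612736 536870912 1046898278 26843546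
    (rowFX 1 true true false .up 2 0 3 (qsf 1239849684 370763052 67108864 469762048 3) ndF2q2b ndF2q0 pcF3 Cut.none Ext.none)

def k0_pm_203_b : ∃ t, chk3 f_pm_203_b t 1 1 1 = true :=
  ⟨(b (b (a (b (a (l 16753056) (a (l 16776632) (l 16698808))) (c (l 16766128) (l 16765840))) (a (b (b (a (l 16365960) (l 16020488)) (l 16424328)) (b (l 16564424) (l 16727768))) (b (b (a (l 15517376) (l 483213577927)) (a (l 15925976) (l 15266968))) (a (l 16180752) (b (l 15799720) (l 16085992)))))) (b (a (c (l 16766128) (l 16765840)) (a (l 16775464) (b (l 16360624) (l 16648280)))) (b (a (c (l 16766128) (l 16765840)) (c (l 16759568) (l 16759112))) (a (l 4) (l 4))))) (b (l 4) (l 4))), by decide +kernel⟩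

theorem c_pm_203_b : CertFX 1239849684 370763052 67108864 469762048 1046898278 26843546 true true false .up 2 0 3
    ndF2q2b ndF2q0 pcF3 Cut.none Ext.none :=
  certFX1 (fam := true) (s1 := true) (s2 := false) (a := 2) (b := 0) (c := 3) (cn := .up) (n1 := ndF2q2b) (n2 := ndF2q0) (pc := pcF3) (cut := Cut.none) (xt := Ext.none) (P1 := 1239849684) (W1 := 370763052) (P2 := 67108864) (W2 := 469762048) (P3 := 1046898278) (W3 := 26843546)
    rfl (fun _ => rfl) k0_pm_203_b

noncomputable def f_pm_213_a : ℕ → ℕ → ℕ → ℕ → Bool := onCell 0 420477299 1610612736 536870912 1046898278 26843546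
    (rowFX 1 true true false .pnn 2 1 3 (qsf 0 420477299 536870912 536870912 3) ndF2q2a ndF2q1 pcF3 Cut.none Ext.none)

def k0_pm_213_a : ∃ t, chk3 f_pm_213_a t 1 1 1 = true :=
  ⟨(b (b (a (l 1) (a (b (l 1) (l 16567264)) (b (l 279205189767) (a (l 16394016) (l 16285176))))) (a (b (c (l 16735888) (l 16734816)) (b (c (l 16735888) (l 16734816)) (c (l 16735888) (l 16734816)))) (b (a (l 16525320) (c (l 16362384) (l 16351600))) (a (b (l 16609208) (l 16609208)) (c (l 16362384) (l 16351600)))))) (b (b (a (b (a (l 4) (l 16752704)) (l 4)) (a (b (l 16609208) (l 16586928)) (b (l 16356992) (c (l 16362384) (l 16351608))))) (a (l 4) (a (l 4) (b (l 4) (l 4))))) (l 4))), by decide +kernel⟩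

theorem c_pm_213_a : CertFX 0 420477299 536870912 536870912 1046898278 26843546 true true false .pnn 2 1 3
    ndF2q2a ndF2q1 pcF3 Cut.none Ext.none :=
  certFX1 (fam := true) (s1 := true) (s2 := false) (a := 2) (b := 1) (c := 3) (cn := .pnn) (n1 := ndF2q2a) (n2 := ndF2q1) (pc := pcF3) (cut := Cut.none) (xt := Ext.none) (P1 := 0) (W1 := 420477299) (P2 := 536870912) (W2 := 536870912) (P3 := 1046898278) (W3 := 26843546)
    rfl (fun _ => rfl) k0_pm_213_a

noncomputable def f_pm_213_b : ℕ → ℕ → ℕ → ℕ → Bool := onCell 1239849684 370763052 1610612736 536870912 1046898278 26843546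
    (rowFX 1 true true false .pnn 2 1 3 (qsf 1239849684 370763052 536870912 536870912 3) ndF2q2b ndF2q1 pcF3 Cut.none Ext.none)

def k0_pm_213_b : ∃ t, chk3 f_pm_213_b t 1 1 1 = true :=
  ⟨(a (b (b (l 1) (b (c (l 16766128) (l 16765840)) (b (c (l 16766128) (l 16765840)) (l 4)))) (l 4)) (b (l 1) (l 4))), by decide +kernel⟩

theorem c_pm_213_b : CertFX 1239849684 370763052 536870912 536870912 1046898278 26843546 true true false .pnn 2 1 3
    ndF2q2b ndF2q1 pcF3 Cut.none Ext.none :=
  certFX1 (fam := true) (s1 := true) (s2 := false) (a := 2) (b := 1) (c := 3) (cn := .pnn) (n1 := ndF2q2b) (n2 := ndF2q1) (pc := pcF3) (cut := Cut.none) (xt := Ext.none) (P1 := 1239849684) (W1 := 370763052) (P2 := 536870912) (W2 := 536870912) (P3 := 1046898278) (W3 := 26843546)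
    rfl (fun _ => rfl) k0_pm_213_b

noncomputable def f_pm_303 : ℕ → ℕ → ℕ → ℕ → Bool := onCell 1610612736 536870912 67108864 469762048 1046898278 26843546
    (rowFX 2 true true false .npn 3 0 3 (qsf 1610612736 469762048 67108864 469762048 3) ndF2q3 ndF2q0 pcF3 Cut.none Ext.none)

def k0_pm_303 : ∃ t, chk3 f_pm_303 t 1 1 1 = true :=
  ⟨(a (b (a (b (a (b (l 15714208) (l 1)) (b (l 118142399927) (l 16191784))) (l 1)) (b (a (b (c (l 15729880) (l 15696776)) (l 16086928)) (c (b (l 15478216) (l 16199288)) (b (a (l 15696776) (l 15696776)) (l 16037480)))) (a (c (l 16700056) (l 16698048)) (a (l 16547008) (b (l 118346106599) (l 4)))))) (l 1)) (l 4)), by decide +kernel⟩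

theorem c_pm_303 : CertFX 1610612736 469762048 67108864 469762048 1046898278 26843546 true true false .npn 3 0 3
    ndF2q3 ndF2q0 pcF3 Cut.none Ext.none :=
  certFX2 (fam := true) (s1 := true) (s2 := false) (a := 3) (b := 0) (c := 3) (cn := .npn) (n1 := ndF2q3) (n2 := ndF2q0) (pc := pcF3) (cut := Cut.none) (xt := Ext.none) (P1 := 1610612736) (W1 := 469762048) (P2 := 67108864) (W2 := 469762048) (P3 := 1046898278) (W3 := 26843546)
    rfl (fun _ => rfl) k0_pm_303

noncomputable def f_pm_313 : ℕ → ℕ → ℕ → ℕ → Bool := onCell 1610612736 469762048 536870912 536870912 1046898278 26843546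
    (rowFX 0 true true false .dn 3 1 3 (qsf 1610612736 469762048 536870912 536870912 3) ndF2q3 ndF2q1 pcF3 Cut.none Ext.none)

def k0_pm_313 : ∃ t, chk3 f_pm_313 t 1 1 1 = true :=
  ⟨(l 4), by decide +kernel⟩

theorem c_pm_313 : CertFX 1610612736 469762048 536870912 536870912 1046898278 26843546 true true false .dn 3 1 3
    ndF2q3 ndF2q1 pcF3 Cut.none Ext.none :=
  certFX0 (fam := true) (s1 := true) (s2 := false) (a := 3) (b := 1) (c := 3) (cn := .dn) (n1 := ndF2q3) (n2 := ndF2q1) (pc := pcF3) (cut := Cut.none) (xt := Ext.none) (P1 := 1610612736) (W1 := 469762048) (P2 := 536870912) (W2 := 536870912) (P3 := 1046898278) (W3 := 26843546)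
    rfl k0_pm_313

noncomputable def f_mm_001 : ℕ → ℕ → ℕ → ℕ → Bool := onCell 67108864 469762048 67108864 469762048 1046898278 26843546
    (rowFX 0 true false false .up 0 0 1 (qsf 67108864 469762048 67108864 469762048 1) ndF2q0 ndF2q0 pcF1 Cut.none Ext.none)

def k0_mm_001 : ∃ t, chk3 f_mm_001 t 1 1 1 = true :=
  ⟨(l 4), by decide +kernel⟩

theorem c_mm_001 : CertFX 67108864 469762048 67108864 469762048 1046898278 26843546 true false false .up 0 0 1
    ndF2q0 ndF2q0 pcF1 Cut.none Ext.none :=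
  certFX0 (fam := true) (s1 := false) (s2 := false) (a := 0) (b := 0) (c := 1) (cn := .up) (n1 := ndF2q0) (n2 := ndF2q0) (pc := pcF1) (cut := Cut.none) (xt := Ext.none) (P1 := 67108864) (W1 := 469762048) (P2 := 67108864) (W2 := 469762048) (P3 := 1046898278) (W3 := 26843546)
    rfl k0_mm_001

noncomputable def f_mm_011 : ℕ → ℕ → ℕ → ℕ → Bool := onCell 67108864 469762048 536870912 536870912 1046898278 26843546
    (rowFX 0 true false false .pnn 0 1 1 (qsf 67108864 469762048 536870912 536870912 1) ndF2q0 ndF2q1 pcF1 Cut.none Ext.none)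

def k0_mm_011 : ∃ t, chk3 f_mm_011 t 1 1 1 = true :=
  ⟨(l 4), by decide +kernel⟩

theorem c_mm_011 : CertFX 67108864 469762048 536870912 536870912 1046898278 26843546 true false false .pnn 0 1 1
    ndF2q0 ndF2q1 pcF1 Cut.none Ext.none :=
  certFX0 (fam := true) (s1 := false) (s2 := false) (a := 0) (b := 1) (c := 1) (cn := .pnn) (n1 := ndF2q0) (n2 := ndF2q1) (pc := pcF1) (cut := Cut.none) (xt := Ext.none) (P1 := 67108864) (W1 := 469762048) (P2 := 536870912) (W2 := 536870912) (P3 := 1046898278) (W3 := 26843546)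
    rfl k0_mm_011

noncomputable def f_mm_012 : ℕ → ℕ → ℕ → ℕ → Bool := onCell 67108864 469762048 536870912 536870912 1046898278 26843546
    (rowFX 0 true false false .pnp 0 1 2 (qsf 67108864 469762048 536870912 536870912 2) ndF2q0 ndF2q1 pcF2 Cut.none Ext.none)

def k0_mm_012 : ∃ t, chk3 f_mm_012 t 1 1 1 = true :=
  ⟨(l 4), by decide +kernel⟩

theorem c_mm_012 : CertFX 67108864 469762048 536870912 536870912 1046898278 26843546 true false false .pnp 0 1 2
    ndF2q0 ndF2q1 pcF2 Cut.none Ext.none :=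
  certFX0 (fam := true) (s1 := false) (s2 := false) (a := 0) (b := 1) (c := 2) (cn := .pnp) (n1 := ndF2q0) (n2 := ndF2q1) (pc := pcF2) (cut := Cut.none) (xt := Ext.none) (P1 := 67108864) (W1 := 469762048) (P2 := 536870912) (W2 := 536870912) (P3 := 1046898278) (W3 := 26843546)
    rfl k0_mm_012

noncomputable def f_mm_022_a : ℕ → ℕ → ℕ → ℕ → Bool := onCell 67108864 469762048 0 420477299 1046898278 26843546
    (rowFX 0 true false false .pp 0 2 2 (qsf 67108864 469762048 0 420477299 2) ndF2q0 ndF2q2a pcF2 Cut.none Ext.none)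

def k0_mm_022_a : ∃ t, chk3 f_mm_022_a t 1 1 1 = true :=
  ⟨(l 5), by decide +kernel⟩

theorem c_mm_022_a : CertFX 67108864 469762048 0 420477299 1046898278 26843546 true false false .pp 0 2 2
    ndF2q0 ndF2q2a pcF2 Cut.none Ext.none :=
  certFX0 (fam := true) (s1 := false) (s2 := false) (a := 0) (b := 2) (c := 2) (cn := .pp) (n1 := ndF2q0) (n2 := ndF2q2a) (pc := pcF2) (cut := Cut.none) (xt := Ext.none) (P1 := 67108864) (W1 := 469762048) (P2 := 0) (W2 := 420477299) (P3 := 1046898278) (W3 := 26843546)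
    rfl k0_mm_022_a

noncomputable def f_mm_022_b : ℕ → ℕ → ℕ → ℕ → Bool := onCell 67108864 469762048 1239849684 370763052 1046898278 26843546
    (rowFX 0 true false false .pp 0 2 2 (qsf 67108864 469762048 1239849684 370763052 2) ndF2q0 ndF2q2b pcF2 Cut.none Ext.none)

def k0_mm_022_b : ∃ t, chk3 f_mm_022_b t 1 1 1 = true :=
  ⟨(l 5), by decide +kernel⟩

theorem c_mm_022_b : CertFX 67108864 469762048 1239849684 370763052 1046898278 26843546 true false false .pp 0 2 2
    ndF2q0 ndF2q2b pcF2 Cut.none Ext.none :=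
  certFX0 (fam := true) (s1 := false) (s2 := false) (a := 0) (b := 2) (c := 2) (cn := .pp) (n1 := ndF2q0) (n2 := ndF2q2b) (pc := pcF2) (cut := Cut.none) (xt := Ext.none) (P1 := 67108864) (W1 := 469762048) (P2 := 1239849684) (W2 := 370763052) (P3 := 1046898278) (W3 := 26843546)
    rfl k0_mm_022_b

noncomputable def f_mm_023_a : ℕ → ℕ → ℕ → ℕ → Bool := onCell 67108864 469762048 0 420477299 1046898278 26843546
    (rowFX 0 true false false .up 0 2 3 (qsf 67108864 469762048 0 420477299 3) ndF2q0 ndF2q2a pcF3 Cut.none Ext.none)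

def k0_mm_023_a : ∃ t, chk3 f_mm_023_a t 1 1 1 = true :=
  ⟨(l 5), by decide +kernel⟩

theorem c_mm_023_a : CertFX 67108864 469762048 0 420477299 1046898278 26843546 true false false .up 0 2 3
    ndF2q0 ndF2q2a pcF3 Cut.none Ext.none :=
  certFX0 (fam := true) (s1 := false) (s2 := false) (a := 0) (b := 2) (c := 3) (cn := .up) (n1 := ndF2q0) (n2 := ndF2q2a) (pc := pcF3) (cut := Cut.none) (xt := Ext.none) (P1 := 67108864) (W1 := 469762048) (P2 := 0) (W2 := 420477299) (P3 := 1046898278) (W3 := 26843546)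
    rfl k0_mm_023_a

noncomputable def f_mm_023_b : ℕ → ℕ → ℕ → ℕ → Bool := onCell 67108864 469762048 1239849684 370763052 1046898278 26843546
    (rowFX 0 true false false .up 0 2 3 (qsf 67108864 469762048 1239849684 370763052 3) ndF2q0 ndF2q2b pcF3 Cut.none Ext.none)

def k0_mm_023_b : ∃ t, chk3 f_mm_023_b t 1 1 1 = true :=
  ⟨(l 5), by decide +kernel⟩

theorem c_mm_023_b : CertFX 67108864 469762048 1239849684 370763052 1046898278 26843546 true false false .up 0 2 3
    ndF2q0 ndF2q2b pcF3 Cut.none Ext.none :=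
  certFX0 (fam := true) (s1 := false) (s2 := false) (a := 0) (b := 2) (c := 3) (cn := .up) (n1 := ndF2q0) (n2 := ndF2q2b) (pc := pcF3) (cut := Cut.none) (xt := Ext.none) (P1 := 67108864) (W1 := 469762048) (P2 := 1239849684) (W2 := 370763052) (P3 := 1046898278) (W3 := 26843546)
    rfl k0_mm_023_b

noncomputable def f_mm_033 : ℕ → ℕ → ℕ → ℕ → Bool := onCell 67108864 469762048 1610612736 469762048 1046898278 26843546
    (rowFX 0 true false false .pnn 0 3 3 (qsf 67108864 469762048 1610612736 469762048 3) ndF2q0 ndF2q3 pcF3 Cut.none Ext.none)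

def k0_mm_033 : ∃ t, chk3 f_mm_033 t 1 1 1 = true :=
  ⟨(l 4), by decide +kernel⟩

theorem c_mm_033 : CertFX 67108864 469762048 1610612736 469762048 1046898278 26843546 true false false .pnn 0 3 3
    ndF2q0 ndF2q3 pcF3 Cut.none Ext.none :=
  certFX0 (fam := true) (s1 := false) (s2 := false) (a := 0) (b := 3) (c := 3) (cn := .pnn) (n1 := ndF2q0) (n2 := ndF2q3) (pc := pcF3) (cut := Cut.none) (xt := Ext.none) (P1 := 67108864) (W1 := 469762048) (P2 := 1610612736) (W2 := 469762048) (P3 := 1046898278) (W3 := 26843546)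
    rfl k0_mm_033

noncomputable def f_mm_101 : ℕ → ℕ → ℕ → ℕ → Bool := onCell 536870912 536870912 67108864 469762048 1046898278 26843546
    (rowFX 0 true false false .npn 1 0 1 (qsf 536870912 536870912 67108864 469762048 1) ndF2q1 ndF2q0 pcF1 Cut.none Ext.none)

def k0_mm_101 : ∃ t, chk3 f_mm_101 t 1 1 1 = true :=
  ⟨(l 4), by decide +kernel⟩

theorem c_mm_101 : CertFX 536870912 536870912 67108864 469762048 1046898278 26843546 true false false .npn 1 0 1
    ndF2q1 ndF2q0 pcF1 Cut.none Ext.none :=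
  certFX0 (fam := true) (s1 := false) (s2 := false) (a := 1) (b := 0) (c := 1) (cn := .npn) (n1 := ndF2q1) (n2 := ndF2q0) (pc := pcF1) (cut := Cut.none) (xt := Ext.none) (P1 := 536870912) (W1 := 536870912) (P2 := 67108864) (W2 := 469762048) (P3 := 1046898278) (W3 := 26843546)
    rfl k0_mm_101

noncomputable def f_mm_102 : ℕ → ℕ → ℕ → ℕ → Bool := onCell 536870912 536870912 67108864 469762048 1046898278 26843546
    (rowFX 0 true false false .npp 1 0 2 (qsf 536870912 536870912 67108864 469762048 2) ndF2q1 ndF2q0 pcF2 Cut.none Ext.none)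

def k0_mm_102 : ∃ t, chk3 f_mm_102 t 1 1 1 = true :=
  ⟨(l 4), by decide +kernel⟩

theorem c_mm_102 : CertFX 536870912 536870912 67108864 469762048 1046898278 26843546 true false false .npp 1 0 2
    ndF2q1 ndF2q0 pcF2 Cut.none Ext.none :=
  certFX0 (fam := true) (s1 := false) (s2 := false) (a := 1) (b := 0) (c := 2) (cn := .npp) (n1 := ndF2q1) (n2 := ndF2q0) (pc := pcF2) (cut := Cut.none) (xt := Ext.none) (P1 := 536870912) (W1 := 536870912) (P2 := 67108864) (W2 := 469762048) (P3 := 1046898278) (W3 := 26843546)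
    rfl k0_mm_102

noncomputable def f_mm_112 : ℕ → ℕ → ℕ → ℕ → Bool := onCell 536870912 536870912 536870912 536870912 1046898278 26843546
    (rowFX 0 true false false .dn 1 1 2 (qsf 536870912 536870912 536870912 536870912 2) ndF2q1 ndF2q1 pcF2 Cut.none Ext.none)

def k0_mm_112 : ∃ t, chk3 f_mm_112 t 1 1 1 = true :=
  ⟨(l 4), by decide +kernel⟩

theorem c_mm_112 : CertFX 536870912 536870912 536870912 536870912 1046898278 26843546 true false false .dn 1 1 2
    ndF2q1 ndF2q1 pcF2 Cut.none Ext.none :=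
  certFX0 (fam := true) (s1 := false) (s2 := false) (a := 1) (b := 1) (c := 2) (cn := .dn) (n1 := ndF2q1) (n2 := ndF2q1) (pc := pcF2) (cut := Cut.none) (xt := Ext.none) (P1 := 536870912) (W1 := 536870912) (P2 := 536870912) (W2 := 536870912) (P3 := 1046898278) (W3 := 26843546)
    rfl k0_mm_112

noncomputable def f_mm_113 : ℕ → ℕ → ℕ → ℕ → Bool := onCell 536870912 536870912 536870912 536870912 1046898278 26843546
    (rowFX 0 true false false .nn 1 1 3 (qsf 536870912 536870912 536870912 536870912 3) ndF2q1 ndF2q1 pcF3 Cut.none Ext.none)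

def k0_mm_113 : ∃ t, chk3 f_mm_113 t 1 1 1 = true :=
  ⟨(l 4), by decide +kernel⟩

theorem c_mm_113 : CertFX 536870912 536870912 536870912 536870912 1046898278 26843546 true false false .nn 1 1 3
    ndF2q1 ndF2q1 pcF3 Cut.none Ext.none :=
  certFX0 (fam := true) (s1 := false) (s2 := false) (a := 1) (b := 1) (c := 3) (cn := .nn) (n1 := ndF2q1) (n2 := ndF2q1) (pc := pcF3) (cut := Cut.none) (xt := Ext.none) (P1 := 536870912) (W1 := 536870912) (P2 := 536870912) (W2 := 536870912) (P3 := 1046898278) (W3 := 26843546)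
    rfl k0_mm_113

noncomputable def f_mm_123_a : ℕ → ℕ → ℕ → ℕ → Bool := onCell 536870912 536870912 0 420477299 1046898278 26843546
    (rowFX 0 true false false .npn 1 2 3 (qsf 536870912 536870912 0 420477299 3) ndF2q1 ndF2q2a pcF3 Cut.none Ext.none)

def k0_mm_123_a : ∃ t, chk3 f_mm_123_a t 1 1 1 = true :=
  ⟨(l 4), by decide +kernel⟩

theorem c_mm_123_a : CertFX 536870912 536870912 0 420477299 1046898278 26843546 true false false .npn 1 2 3
    ndF2q1 ndF2q2a pcF3 Cut.none Ext.none :=
  certFX0 (fam := true) (s1 := false) (s2 := false) (a := 1) (b := 2) (c := 3) (cn := .npn) (n1 := ndF2q1) (n2 := ndF2q2a) (pc := pcF3) (cut := Cut.none) (xt := Ext.none) (P1 := 536870912) (W1 := 536870912) (P2 := 0) (W2 := 420477299) (P3 := 1046898278) (W3 := 26843546)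
    rfl k0_mm_123_a

noncomputable def f_mm_123_b : ℕ → ℕ → ℕ → ℕ → Bool := onCell 536870912 536870912 1239849684 370763052 1046898278 26843546
    (rowFX 0 true false false .npn 1 2 3 (qsf 536870912 536870912 1239849684 370763052 3) ndF2q1 ndF2q2b pcF3 Cut.none Ext.none)

def k0_mm_123_b : ∃ t, chk3 f_mm_123_b t 1 1 1 = true :=
  ⟨(l 4), by decide +kernel⟩

theorem c_mm_123_b : CertFX 536870912 536870912 1239849684 370763052 1046898278 26843546 true false false .npn 1 2 3
    ndF2q1 ndF2q2b pcF3 Cut.none Ext.none :=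
  certFX0 (fam := true) (s1 := false) (s2 := false) (a := 1) (b := 2) (c := 3) (cn := .npn) (n1 := ndF2q1) (n2 := ndF2q2b) (pc := pcF3) (cut := Cut.none) (xt := Ext.none) (P1 := 536870912) (W1 := 536870912) (P2 := 1239849684) (W2 := 370763052) (P3 := 1046898278) (W3 := 26843546)
    rfl k0_mm_123_b

noncomputable def f_mm_133 : ℕ → ℕ → ℕ → ℕ → Bool := onCell 536870912 536870912 1610612736 469762048 1046898278 26843546
    (rowFX 0 true false false .dn 1 3 3 (qsf 536870912 536870912 1610612736 469762048 3) ndF2q1 ndF2q3 pcF3 Cut.none Ext.none)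

def k0_mm_133 : ∃ t, chk3 f_mm_133 t 1 1 1 = true :=
  ⟨(l 4), by decide +kernel⟩

theorem c_mm_133 : CertFX 536870912 536870912 1610612736 469762048 1046898278 26843546 true false false .dn 1 3 3
    ndF2q1 ndF2q3 pcF3 Cut.none Ext.none :=
  certFX0 (fam := true) (s1 := false) (s2 := false) (a := 1) (b := 3) (c := 3) (cn := .dn) (n1 := ndF2q1) (n2 := ndF2q3) (pc := pcF3) (cut := Cut.none) (xt := Ext.none) (P1 := 536870912) (W1 := 536870912) (P2 := 1610612736) (W2 := 469762048) (P3 := 1046898278) (W3 := 26843546)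
    rfl k0_mm_133

noncomputable def f_mm_202_a : ℕ → ℕ → ℕ → ℕ → Bool := onCell 0 420477299 67108864 469762048 1046898278 26843546
    (rowFX 0 true false false .pp 2 0 2 (qsf 0 420477299 67108864 469762048 2) ndF2q2a ndF2q0 pcF2 Cut.none Ext.none)

def k0_mm_202_a : ∃ t, chk3 f_mm_202_a t 1 1 1 = true :=
  ⟨(b (b (a (b (b (a (b (a (c (l 16206336) (l 16196648)) (c (b (l 16306984) (l 16357328)) (b (l 16320184) (l 16350368)))) (c (l 16380176) (l 16373424))) (l 4)) (l 4)) (l 4)) (l 4)) (l 4)) (l 4)), by decide +kernel⟩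

theorem c_mm_202_a : CertFX 0 420477299 67108864 469762048 1046898278 26843546 true false false .pp 2 0 2
    ndF2q2a ndF2q0 pcF2 Cut.none Ext.none :=
  certFX0 (fam := true) (s1 := false) (s2 := false) (a := 2) (b := 0) (c := 2) (cn := .pp) (n1 := ndF2q2a) (n2 := ndF2q0) (pc := pcF2) (cut := Cut.none) (xt := Ext.none) (P1 := 0) (W1 := 420477299) (P2 := 67108864) (W2 := 469762048) (P3 := 1046898278) (W3 := 26843546)
    rfl k0_mm_202_a

noncomputable def f_mm_202_b : ℕ → ℕ → ℕ → ℕ → Bool := onCell 1239849684 370763052 67108864 469762048 1046898278 26843546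
    (rowFX 0 true false false .pp 2 0 2 (qsf 1239849684 370763052 67108864 469762048 2) ndF2q2b ndF2q0 pcF2 Cut.none Ext.none)

def k0_mm_202_b : ∃ t, chk3 f_mm_202_b t 1 1 1 = true :=
  ⟨(b (a (b (b (b (a (b (a (c (a (l 16161880) (l 16012440)) (a (l 16149048) (l 15994576))) (a (c (l 15838560) (l 15815344)) (l 4))) (a (a (c (l 16261112) (l 16250792)) (l 4)) (l 4))) (l 4)) (l 4)) (l 4)) (l 4)) (l 4)) (l 4)), by decide +kernel⟩

theorem c_mm_202_b : CertFX 1239849684 370763052 67108864 469762048 1046898278 26843546 true false false .pp 2 0 2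
    ndF2q2b ndF2q0 pcF2 Cut.none Ext.none :=
  certFX0 (fam := true) (s1 := false) (s2 := false) (a := 2) (b := 0) (c := 2) (cn := .pp) (n1 := ndF2q2b) (n2 := ndF2q0) (pc := pcF2) (cut := Cut.none) (xt := Ext.none) (P1 := 1239849684) (W1 := 370763052) (P2 := 67108864) (W2 := 469762048) (P3 := 1046898278) (W3 := 26843546)
    rfl k0_mm_202_b

noncomputable def f_mm_203_a : ℕ → ℕ → ℕ → ℕ → Bool := onCell 0 420477299 1610612736 536870912 1046898278 26843546
    (rowFX 1 true false false .up 2 0 3 (qsf 0 420477299 67108864 469762048 3) ndF2q2a ndF2q0 pcF3 Cut.none Ext.none)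

def k0_mm_203_a : ∃ t, chk3 f_mm_203_a t 1 1 1 = true :=
  ⟨(l 4), by decide +kernel⟩

theorem c_mm_203_a : CertFX 0 420477299 67108864 469762048 1046898278 26843546 true false false .up 2 0 3
    ndF2q2a ndF2q0 pcF3 Cut.none Ext.none :=
  certFX1 (fam := true) (s1 := false) (s2 := false) (a := 2) (b := 0) (c := 3) (cn := .up) (n1 := ndF2q2a) (n2 := ndF2q0) (pc := pcF3) (cut := Cut.none) (xt := Ext.none) (P1 := 0) (W1 := 420477299) (P2 := 67108864) (W2 := 469762048) (P3 := 1046898278) (W3 := 26843546)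
    rfl (fun _ => rfl) k0_mm_203_a

noncomputable def f_mm_203_b : ℕ → ℕ → ℕ → ℕ → Bool := onCell 1239849684 370763052 1610612736 536870912 1046898278 26843546
    (rowFX 1 true false false .up 2 0 3 (qsf 1239849684 370763052 67108864 469762048 3) ndF2q2b ndF2q0 pcF3 Cut.none Ext.none)

def k0_mm_203_b : ∃ t, chk3 f_mm_203_b t 1 1 1 = true :=
  ⟨(l 4), by decide +kernel⟩

theorem c_mm_203_b : CertFX 1239849684 370763052 67108864 469762048 1046898278 26843546 true false false .up 2 0 3
    ndF2q2b ndF2q0 pcF3 Cut.none Ext.none :=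
  certFX1 (fam := true) (s1 := false) (s2 := false) (a := 2) (b := 0) (c := 3) (cn := .up) (n1 := ndF2q2b) (n2 := ndF2q0) (pc := pcF3) (cut := Cut.none) (xt := Ext.none) (P1 := 1239849684) (W1 := 370763052) (P2 := 67108864) (W2 := 469762048) (P3 := 1046898278) (W3 := 26843546)
    rfl (fun _ => rfl) k0_mm_203_b

noncomputable def f_mm_213_a : ℕ → ℕ → ℕ → ℕ → Bool := onCell 0 420477299 536870912 536870912 1046898278 26843546
    (rowFX 0 true false false .pnn 2 1 3 (qsf 0 420477299 536870912 536870912 3) ndF2q2a ndF2q1 pcF3 Cut.none Ext.none)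

def k0_mm_213_a : ∃ t, chk3 f_mm_213_a t 1 1 1 = true :=
  ⟨(l 4), by decide +kernel⟩

theorem c_mm_213_a : CertFX 0 420477299 536870912 536870912 1046898278 26843546 true false false .pnn 2 1 3
    ndF2q2a ndF2q1 pcF3 Cut.none Ext.none :=
  certFX0 (fam := true) (s1 := false) (s2 := false) (a := 2) (b := 1) (c := 3) (cn := .pnn) (n1 := ndF2q2a) (n2 := ndF2q1) (pc := pcF3) (cut := Cut.none) (xt := Ext.none) (P1 := 0) (W1 := 420477299) (P2 := 536870912) (W2 := 536870912) (P3 := 1046898278) (W3 := 26843546)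
    rfl k0_mm_213_a

noncomputable def f_mm_213_b : ℕ → ℕ → ℕ → ℕ → Bool := onCell 1239849684 370763052 536870912 536870912 1046898278 26843546
    (rowFX 0 true false false .pnn 2 1 3 (qsf 1239849684 370763052 536870912 536870912 3) ndF2q2b ndF2q1 pcF3 Cut.none Ext.none)

def k0_mm_213_b : ∃ t, chk3 f_mm_213_b t 1 1 1 = true :=
  ⟨(l 4), by decide +kernel⟩

theorem c_mm_213_b : CertFX 1239849684 370763052 536870912 536870912 1046898278 26843546 true false false .pnn 2 1 3
    ndF2q2b ndF2q1 pcF3 Cut.none Ext.none :=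
  certFX0 (fam := true) (s1 := false) (s2 := false) (a := 2) (b := 1) (c := 3) (cn := .pnn) (n1 := ndF2q2b) (n2 := ndF2q1) (pc := pcF3) (cut := Cut.none) (xt := Ext.none) (P1 := 1239849684) (W1 := 370763052) (P2 := 536870912) (W2 := 536870912) (P3 := 1046898278) (W3 := 26843546)
    rfl k0_mm_213_b

noncomputable def f_mm_303 : ℕ → ℕ → ℕ → ℕ → Bool := onCell 1610612736 469762048 67108864 469762048 1046898278 26843546
    (rowFX 0 true false false .npn 3 0 3 (qsf 1610612736 469762048 67108864 469762048 3) ndF2q3 ndF2q0 pcF3 Cut.none Ext.none)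

def k0_mm_303 : ∃ t, chk3 f_mm_303 t 1 1 1 = true :=
  ⟨(l 4), by decide +kernel⟩

theorem c_mm_303 : CertFX 1610612736 469762048 67108864 469762048 1046898278 26843546 true false false .npn 3 0 3
    ndF2q3 ndF2q0 pcF3 Cut.none Ext.none :=
  certFX0 (fam := true) (s1 := false) (s2 := false) (a := 3) (b := 0) (c := 3) (cn := .npn) (n1 := ndF2q3) (n2 := ndF2q0) (pc := pcF3) (cut := Cut.none) (xt := Ext.none) (P1 := 1610612736) (W1 := 469762048) (P2 := 67108864) (W2 := 469762048) (P3 := 1046898278) (W3 := 26843546)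
    rfl k0_mm_303

noncomputable def f_mm_313 : ℕ → ℕ → ℕ → ℕ → Bool := onCell 1610612736 469762048 536870912 536870912 1046898278 26843546
    (rowFX 0 true false false .dn 3 1 3 (qsf 1610612736 469762048 536870912 536870912 3) ndF2q3 ndF2q1 pcF3 Cut.none Ext.none)

def k0_mm_313 : ∃ t, chk3 f_mm_313 t 1 1 1 = true :=
  ⟨(l 4), by decide +kernel⟩

theorem c_mm_313 : CertFX 1610612736 469762048 536870912 536870912 1046898278 26843546 true false false .dn 3 1 3
    ndF2q3 ndF2q1 pcF3 Cut.none Ext.none :=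
  certFX0 (fam := true) (s1 := false) (s2 := false) (a := 3) (b := 1) (c := 3) (cn := .dn) (n1 := ndF2q3) (n2 := ndF2q1) (pc := pcF3) (cut := Cut.none) (xt := Ext.none) (P1 := 1610612736) (W1 := 469762048) (P2 := 536870912) (W2 := 536870912) (P3 := 1046898278) (W3 := 26843546)
    rfl k0_mm_313

end Pool.Agent.Strip051.G.IE1.Tab.C.FA22

namespace Pool.Agent.Strip051.G.IE1.Tab.C.FA23

open Pool.Agent.Strip051.PB Pool.Agent.Strip051.PB.T
open Pool.Agent.Strip051.G.IE1.Tab

noncomputable def f_pp_001 : ℕ → ℕ → ℕ → ℕ → Bool := onCell 67108864 469762048 0 536870912 1046898278 26843546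
    (rowFX 0 true true true .up 0 0 1 (qsf 67108864 469762048 0 536870912 1) ndF2q0 ndF3q0 pcF1 Cut.none Ext.none)

def k0_pp_001 : ∃ t, chk3 f_pp_001 t 1 1 1 = true :=
  ⟨(l 4), by decide +kernel⟩

theorem c_pp_001 : CertFX 67108864 469762048 0 536870912 1046898278 26843546 true true true .up 0 0 1
    ndF2q0 ndF3q0 pcF1 Cut.none Ext.none :=
  certFX0 (fam := true) (s1 := true) (s2 := true) (a := 0) (b := 0) (c := 1) (cn := .up) (n1 := ndF2q0) (n2 := ndF3q0) (pc := pcF1) (cut := Cut.none) (xt := Ext.none) (P1 := 67108864) (W1 := 469762048) (P2 := 0) (W2 := 536870912) (P3 := 1046898278) (W3 := 26843546)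
    rfl k0_pp_001

noncomputable def f_pp_011 : ℕ → ℕ → ℕ → ℕ → Bool := onCell 67108864 469762048 536870912 536870912 1046898278 26843546
    (rowFX 0 true true true .pnn 0 1 1 (qsf 67108864 469762048 536870912 536870912 1) ndF2q0 ndF3q1 pcF1 Cut.none Ext.none)

def k0_pp_011 : ∃ t, chk3 f_pp_011 t 1 1 1 = true :=
  ⟨(l 4), by decide +kernel⟩

theorem c_pp_011 : CertFX 67108864 469762048 536870912 536870912 1046898278 26843546 true true true .pnn 0 1 1
    ndF2q0 ndF3q1 pcF1 Cut.none Ext.none :=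
  certFX0 (fam := true) (s1 := true) (s2 := true) (a := 0) (b := 1) (c := 1) (cn := .pnn) (n1 := ndF2q0) (n2 := ndF3q1) (pc := pcF1) (cut := Cut.none) (xt := Ext.none) (P1 := 67108864) (W1 := 469762048) (P2 := 536870912) (W2 := 536870912) (P3 := 1046898278) (W3 := 26843546)
    rfl k0_pp_011

noncomputable def f_pp_012 : ℕ → ℕ → ℕ → ℕ → Bool := onCell 67108864 469762048 536870912 536870912 1046898278 26843546
    (rowFX 0 true true true .pnp 0 1 2 (qsf 67108864 469762048 536870912 536870912 2) ndF2q0 ndF3q1 pcF2 Cut.none Ext.none)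

def k0_pp_012 : ∃ t, chk3 f_pp_012 t 1 1 1 = true :=
  ⟨(l 4), by decide +kernel⟩

theorem c_pp_012 : CertFX 67108864 469762048 536870912 536870912 1046898278 26843546 true true true .pnp 0 1 2
    ndF2q0 ndF3q1 pcF2 Cut.none Ext.none :=
  certFX0 (fam := true) (s1 := true) (s2 := true) (a := 0) (b := 1) (c := 2) (cn := .pnp) (n1 := ndF2q0) (n2 := ndF3q1) (pc := pcF2) (cut := Cut.none) (xt := Ext.none) (P1 := 67108864) (W1 := 469762048) (P2 := 536870912) (W2 := 536870912) (P3 := 1046898278) (W3 := 26843546)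
    rfl k0_pp_012

noncomputable def f_pp_022 : ℕ → ℕ → ℕ → ℕ → Bool := onCell 67108864 469762048 1073741824 536870912 1046898278 26843546
    (rowFX 0 true true true .pp 0 2 2 (qsf 67108864 469762048 1073741824 536870912 2) ndF2q0 ndF3q2 pcF2 Cut.none Ext.none)

def k0_pp_022 : ∃ t, chk3 f_pp_022 t 1 1 1 = true :=
  ⟨(b (l 4) (l 4)), by decide +kernel⟩

theorem c_pp_022 : CertFX 67108864 469762048 1073741824 536870912 1046898278 26843546 true true true .pp 0 2 2
    ndF2q0 ndF3q2 pcF2 Cut.none Ext.none :=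
  certFX0 (fam := true) (s1 := true) (s2 := true) (a := 0) (b := 2) (c := 2) (cn := .pp) (n1 := ndF2q0) (n2 := ndF3q2) (pc := pcF2) (cut := Cut.none) (xt := Ext.none) (P1 := 67108864) (W1 := 469762048) (P2 := 1073741824) (W2 := 536870912) (P3 := 1046898278) (W3 := 26843546)
    rfl k0_pp_022

noncomputable def f_pp_023 : ℕ → ℕ → ℕ → ℕ → Bool := onCell 67108864 469762048 1610612736 536870912 1046898278 26843546
    (rowFX 1 true true true .up 0 2 3 (qsf 67108864 469762048 1073741824 536870912 3) ndF2q0 ndF3q2 pcF3 Cut.none Ext.none)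

def k0_pp_023 : ∃ t, chk3 f_pp_023 t 1 1 1 = true :=
  ⟨(l 4), by decide +kernel⟩

theorem c_pp_023 : CertFX 67108864 469762048 1073741824 536870912 1046898278 26843546 true true true .up 0 2 3
    ndF2q0 ndF3q2 pcF3 Cut.none Ext.none :=
  certFX1 (fam := true) (s1 := true) (s2 := true) (a := 0) (b := 2) (c := 3) (cn := .up) (n1 := ndF2q0) (n2 := ndF3q2) (pc := pcF3) (cut := Cut.none) (xt := Ext.none) (P1 := 67108864) (W1 := 469762048) (P2 := 1073741824) (W2 := 536870912) (P3 := 1046898278) (W3 := 26843546)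
    rfl (fun _ => rfl) k0_pp_023

noncomputable def f_pp_033 : ℕ → ℕ → ℕ → ℕ → Bool := onCell 67108864 469762048 1610612736 536870912 1046898278 26843546
    (rowFX 0 true true true .pnn 0 3 3 (qsf 67108864 469762048 1610612736 536870912 3) ndF2q0 ndF3q3 pcF3 Cut.none Ext.none)

def k0_pp_033 : ∃ t, chk3 f_pp_033 t 1 1 1 = true :=
  ⟨(l 4), by decide +kernel⟩

theorem c_pp_033 : CertFX 67108864 469762048 1610612736 536870912 1046898278 26843546 true true true .pnn 0 3 3
    ndF2q0 ndF3q3 pcF3 Cut.none Ext.none :=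
  certFX0 (fam := true) (s1 := true) (s2 := true) (a := 0) (b := 3) (c := 3) (cn := .pnn) (n1 := ndF2q0) (n2 := ndF3q3) (pc := pcF3) (cut := Cut.none) (xt := Ext.none) (P1 := 67108864) (W1 := 469762048) (P2 := 1610612736) (W2 := 536870912) (P3 := 1046898278) (W3 := 26843546)
    rfl k0_pp_033

noncomputable def f_pp_101 : ℕ → ℕ → ℕ → ℕ → Bool := onCell 536870912 536870912 0 536870912 1046898278 26843546
    (rowFX 0 true true true .npn 1 0 1 (qsf 536870912 536870912 0 536870912 1) ndF2q1 ndF3q0 pcF1 Cut.none Ext.none)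

def k0_pp_101 : ∃ t, chk3 f_pp_101 t 1 1 1 = true :=
  ⟨(l 4), by decide +kernel⟩

theorem c_pp_101 : CertFX 536870912 536870912 0 536870912 1046898278 26843546 true true true .npn 1 0 1
    ndF2q1 ndF3q0 pcF1 Cut.none Ext.none :=
  certFX0 (fam := true) (s1 := true) (s2 := true) (a := 1) (b := 0) (c := 1) (cn := .npn) (n1 := ndF2q1) (n2 := ndF3q0) (pc := pcF1) (cut := Cut.none) (xt := Ext.none) (P1 := 536870912) (W1 := 536870912) (P2 := 0) (W2 := 536870912) (P3 := 1046898278) (W3 := 26843546)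
    rfl k0_pp_101

noncomputable def f_pp_102 : ℕ → ℕ → ℕ → ℕ → Bool := onCell 536870912 536870912 0 536870912 1046898278 26843546
    (rowFX 0 true true true .npp 1 0 2 (qsf 536870912 536870912 0 536870912 2) ndF2q1 ndF3q0 pcF2 Cut.none Ext.none)

def k0_pp_102 : ∃ t, chk3 f_pp_102 t 1 1 1 = true :=
  ⟨(l 4), by decide +kernel⟩

theorem c_pp_102 : CertFX 536870912 536870912 0 536870912 1046898278 26843546 true true true .npp 1 0 2
    ndF2q1 ndF3q0 pcF2 Cut.none Ext.none :=
  certFX0 (fam := true) (s1 := true) (s2 := true) (a := 1) (b := 0) (c := 2) (cn := .npp) (n1 := ndF2q1) (n2 := ndF3q0) (pc := pcF2) (cut := Cut.none) (xt := Ext.none) (P1 := 536870912) (W1 := 536870912) (P2 := 0) (W2 := 536870912) (P3 := 1046898278) (W3 := 26843546)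
    rfl k0_pp_102

noncomputable def f_pp_112 : ℕ → ℕ → ℕ → ℕ → Bool := onCell 536870912 536870912 536870912 536870912 1046898278 26843546
    (rowFX 0 true true true .dn 1 1 2 (qsf 536870912 536870912 536870912 536870912 2) ndF2q1 ndF3q1 pcF2 Cut.none Ext.none)

def k0_pp_112 : ∃ t, chk3 f_pp_112 t 1 1 1 = true :=
  ⟨(l 4), by decide +kernel⟩

theorem c_pp_112 : CertFX 536870912 536870912 536870912 536870912 1046898278 26843546 true true true .dn 1 1 2
    ndF2q1 ndF3q1 pcF2 Cut.none Ext.none :=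
  certFX0 (fam := true) (s1 := true) (s2 := true) (a := 1) (b := 1) (c := 2) (cn := .dn) (n1 := ndF2q1) (n2 := ndF3q1) (pc := pcF2) (cut := Cut.none) (xt := Ext.none) (P1 := 536870912) (W1 := 536870912) (P2 := 536870912) (W2 := 536870912) (P3 := 1046898278) (W3 := 26843546)
    rfl k0_pp_112

noncomputable def f_pp_113 : ℕ → ℕ → ℕ → ℕ → Bool := onCell 536870912 536870912 536870912 536870912 1046898278 26843546
    (rowFX 0 true true true .nn 1 1 3 (qsf 536870912 536870912 536870912 536870912 3) ndF2q1 ndF3q1 pcF3 Cut.none Ext.none)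

def k0_pp_113 : ∃ t, chk3 f_pp_113 t 1 1 1 = true :=
  ⟨(l 4), by decide +kernel⟩

theorem c_pp_113 : CertFX 536870912 536870912 536870912 536870912 1046898278 26843546 true true true .nn 1 1 3
    ndF2q1 ndF3q1 pcF3 Cut.none Ext.none :=
  certFX0 (fam := true) (s1 := true) (s2 := true) (a := 1) (b := 1) (c := 3) (cn := .nn) (n1 := ndF2q1) (n2 := ndF3q1) (pc := pcF3) (cut := Cut.none) (xt := Ext.none) (P1 := 536870912) (W1 := 536870912) (P2 := 536870912) (W2 := 536870912) (P3 := 1046898278) (W3 := 26843546)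
    rfl k0_pp_113

noncomputable def f_pp_123 : ℕ → ℕ → ℕ → ℕ → Bool := onCell 536870912 536870912 1073741824 536870912 1046898278 26843546
    (rowFX 0 true true true .npn 1 2 3 (qsf 536870912 536870912 1073741824 536870912 3) ndF2q1 ndF3q2 pcF3 Cut.none Ext.none)

def k0_pp_123 : ∃ t, chk3 f_pp_123 t 1 1 1 = true :=
  ⟨(l 4), by decide +kernel⟩

theorem c_pp_123 : CertFX 536870912 536870912 1073741824 536870912 1046898278 26843546 true true true .npn 1 2 3
    ndF2q1 ndF3q2 pcF3 Cut.none Ext.none :=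
  certFX0 (fam := true) (s1 := true) (s2 := true) (a := 1) (b := 2) (c := 3) (cn := .npn) (n1 := ndF2q1) (n2 := ndF3q2) (pc := pcF3) (cut := Cut.none) (xt := Ext.none) (P1 := 536870912) (W1 := 536870912) (P2 := 1073741824) (W2 := 536870912) (P3 := 1046898278) (W3 := 26843546)
    rfl k0_pp_123

noncomputable def f_pp_133 : ℕ → ℕ → ℕ → ℕ → Bool := onCell 536870912 536870912 1610612736 536870912 1046898278 26843546
    (rowFX 0 true true true .dn 1 3 3 (qsf 536870912 536870912 1610612736 536870912 3) ndF2q1 ndF3q3 pcF3 Cut.none Ext.none)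

def k0_pp_133 : ∃ t, chk3 f_pp_133 t 1 1 1 = true :=
  ⟨(l 4), by decide +kernel⟩

theorem c_pp_133 : CertFX 536870912 536870912 1610612736 536870912 1046898278 26843546 true true true .dn 1 3 3
    ndF2q1 ndF3q3 pcF3 Cut.none Ext.none :=
  certFX0 (fam := true) (s1 := true) (s2 := true) (a := 1) (b := 3) (c := 3) (cn := .dn) (n1 := ndF2q1) (n2 := ndF3q3) (pc := pcF3) (cut := Cut.none) (xt := Ext.none) (P1 := 536870912) (W1 := 536870912) (P2 := 1610612736) (W2 := 536870912) (P3 := 1046898278) (W3 := 26843546)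
    rfl k0_pp_133

noncomputable def f_pp_202_a : ℕ → ℕ → ℕ → ℕ → Bool := onCell 0 420477299 0 536870912 1046898278 26843546
    (rowFX 0 true true true .pp 2 0 2 (qsf 0 420477299 0 536870912 2) ndF2q2a ndF3q0 pcF2 Cut.none Ext.none)

def k0_pp_202_a : ∃ t, chk3 f_pp_202_a t 1 1 1 = true :=
  ⟨(l 5), by decide +kernel⟩

theorem c_pp_202_a : CertFX 0 420477299 0 536870912 1046898278 26843546 true true true .pp 2 0 2
    ndF2q2a ndF3q0 pcF2 Cut.none Ext.none :=
  certFX0 (fam := true) (s1 := true) (s2 := true) (a := 2) (b := 0) (c := 2) (cn := .pp) (n1 := ndF2q2a) (n2 := ndF3q0) (pc := pcF2) (cut := Cut.none) (xt := Ext.none) (P1 := 0) (W1 := 420477299) (P2 := 0) (W2 := 536870912) (P3 := 1046898278) (W3 := 26843546)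
    rfl k0_pp_202_a

noncomputable def f_pp_202_b : ℕ → ℕ → ℕ → ℕ → Bool := onCell 1239849684 370763052 0 536870912 1046898278 26843546
    (rowFX 0 true true true .pp 2 0 2 (qsf 1239849684 370763052 0 536870912 2) ndF2q2b ndF3q0 pcF2 Cut.none Ext.none)

def k0_pp_202_b : ∃ t, chk3 f_pp_202_b t 1 1 1 = true :=
  ⟨(l 5), by decide +kernel⟩

theorem c_pp_202_b : CertFX 1239849684 370763052 0 536870912 1046898278 26843546 true true true .pp 2 0 2
    ndF2q2b ndF3q0 pcF2 Cut.none Ext.none :=
  certFX0 (fam := true) (s1 := true) (s2 := true) (a := 2) (b := 0) (c := 2) (cn := .pp) (n1 := ndF2q2b) (n2 := ndF3q0) (pc := pcF2) (cut := Cut.none) (xt := Ext.none) (P1 := 1239849684) (W1 := 370763052) (P2 := 0) (W2 := 536870912) (P3 := 1046898278) (W3 := 26843546)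
    rfl k0_pp_202_b

noncomputable def f_pp_203_a : ℕ → ℕ → ℕ → ℕ → Bool := onCell 0 420477299 0 536870912 1046898278 26843546
    (rowFX 0 true true true .up 2 0 3 (qsf 0 420477299 0 536870912 3) ndF2q2a ndF3q0 pcF3 Cut.none Ext.none)

def k0_pp_203_a : ∃ t, chk3 f_pp_203_a t 1 1 1 = true :=
  ⟨(l 5), by decide +kernel⟩

theorem c_pp_203_a : CertFX 0 420477299 0 536870912 1046898278 26843546 true true true .up 2 0 3
    ndF2q2a ndF3q0 pcF3 Cut.none Ext.none :=
  certFX0 (fam := true) (s1 := true) (s2 := true) (a := 2) (b := 0) (c := 3) (cn := .up) (n1 := ndF2q2a) (n2 := ndF3q0) (pc := pcF3) (cut := Cut.none) (xt := Ext.none) (P1 := 0) (W1 := 420477299) (P2 := 0) (W2 := 536870912) (P3 := 1046898278) (W3 := 26843546)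
    rfl k0_pp_203_a

noncomputable def f_pp_203_b : ℕ → ℕ → ℕ → ℕ → Bool := onCell 1239849684 370763052 0 536870912 1046898278 26843546
    (rowFX 0 true true true .up 2 0 3 (qsf 1239849684 370763052 0 536870912 3) ndF2q2b ndF3q0 pcF3 Cut.none Ext.none)

def k0_pp_203_b : ∃ t, chk3 f_pp_203_b t 1 1 1 = true :=
  ⟨(l 5), by decide +kernel⟩

theorem c_pp_203_b : CertFX 1239849684 370763052 0 536870912 1046898278 26843546 true true true .up 2 0 3
    ndF2q2b ndF3q0 pcF3 Cut.none Ext.none :=
  certFX0 (fam := true) (s1 := true) (s2 := true) (a := 2) (b := 0) (c := 3) (cn := .up) (n1 := ndF2q2b) (n2 := ndF3q0) (pc := pcF3) (cut := Cut.none) (xt := Ext.none) (P1 := 1239849684) (W1 := 370763052) (P2 := 0) (W2 := 536870912) (P3 := 1046898278) (W3 := 26843546)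
    rfl k0_pp_203_b

noncomputable def f_pp_213_a : ℕ → ℕ → ℕ → ℕ → Bool := onCell 0 420477299 536870912 536870912 1046898278 26843546
    (rowFX 0 true true true .pnn 2 1 3 (qsf 0 420477299 536870912 536870912 3) ndF2q2a ndF3q1 pcF3 Cut.none Ext.none)

def k0_pp_213_a : ∃ t, chk3 f_pp_213_a t 1 1 1 = true :=
  ⟨(l 4), by decide +kernel⟩

theorem c_pp_213_a : CertFX 0 420477299 536870912 536870912 1046898278 26843546 true true true .pnn 2 1 3
    ndF2q2a ndF3q1 pcF3 Cut.none Ext.none :=
  certFX0 (fam := true) (s1 := true) (s2 := true) (a := 2) (b := 1) (c := 3) (cn := .pnn) (n1 := ndF2q2a) (n2 := ndF3q1) (pc := pcF3) (cut := Cut.none) (xt := Ext.none) (P1 := 0) (W1 := 420477299) (P2 := 536870912) (W2 := 536870912) (P3 := 1046898278) (W3 := 26843546)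
    rfl k0_pp_213_a

noncomputable def f_pp_213_b : ℕ → ℕ → ℕ → ℕ → Bool := onCell 1239849684 370763052 536870912 536870912 1046898278 26843546
    (rowFX 0 true true true .pnn 2 1 3 (qsf 1239849684 370763052 536870912 536870912 3) ndF2q2b ndF3q1 pcF3 Cut.none Ext.none)

def k0_pp_213_b : ∃ t, chk3 f_pp_213_b t 1 1 1 = true :=
  ⟨(l 4), by decide +kernel⟩

theorem c_pp_213_b : CertFX 1239849684 370763052 536870912 536870912 1046898278 26843546 true true true .pnn 2 1 3
    ndF2q2b ndF3q1 pcF3 Cut.none Ext.none :=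
  certFX0 (fam := true) (s1 := true) (s2 := true) (a := 2) (b := 1) (c := 3) (cn := .pnn) (n1 := ndF2q2b) (n2 := ndF3q1) (pc := pcF3) (cut := Cut.none) (xt := Ext.none) (P1 := 1239849684) (W1 := 370763052) (P2 := 536870912) (W2 := 536870912) (P3 := 1046898278) (W3 := 26843546)
    rfl k0_pp_213_b

noncomputable def f_pp_303 : ℕ → ℕ → ℕ → ℕ → Bool := onCell 1610612736 469762048 0 536870912 1046898278 26843546
    (rowFX 0 true true true .npn 3 0 3 (qsf 1610612736 469762048 0 536870912 3) ndF2q3 ndF3q0 pcF3 Cut.none Ext.none)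

def k0_pp_303 : ∃ t, chk3 f_pp_303 t 1 1 1 = true :=
  ⟨(l 5), by decide +kernel⟩

theorem c_pp_303 : CertFX 1610612736 469762048 0 536870912 1046898278 26843546 true true true .npn 3 0 3
    ndF2q3 ndF3q0 pcF3 Cut.none Ext.none :=
  certFX0 (fam := true) (s1 := true) (s2 := true) (a := 3) (b := 0) (c := 3) (cn := .npn) (n1 := ndF2q3) (n2 := ndF3q0) (pc := pcF3) (cut := Cut.none) (xt := Ext.none) (P1 := 1610612736) (W1 := 469762048) (P2 := 0) (W2 := 536870912) (P3 := 1046898278) (W3 := 26843546)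
    rfl k0_pp_303

noncomputable def f_pp_313 : ℕ → ℕ → ℕ → ℕ → Bool := onCell 1610612736 469762048 536870912 536870912 1046898278 26843546
    (rowFX 0 true true true .dn 3 1 3 (qsf 1610612736 469762048 536870912 536870912 3) ndF2q3 ndF3q1 pcF3 Cut.none Ext.none)

def k0_pp_313 : ∃ t, chk3 f_pp_313 t 1 1 1 = true :=
  ⟨(l 4), by decide +kernel⟩

theorem c_pp_313 : CertFX 1610612736 469762048 536870912 536870912 1046898278 26843546 true true true .dn 3 1 3
    ndF2q3 ndF3q1 pcF3 Cut.none Ext.none :=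
  certFX0 (fam := true) (s1 := true) (s2 := true) (a := 3) (b := 1) (c := 3) (cn := .dn) (n1 := ndF2q3) (n2 := ndF3q1) (pc := pcF3) (cut := Cut.none) (xt := Ext.none) (P1 := 1610612736) (W1 := 469762048) (P2 := 536870912) (W2 := 536870912) (P3 := 1046898278) (W3 := 26843546)
    rfl k0_pp_313

noncomputable def f_pm_001 : ℕ → ℕ → ℕ → ℕ → Bool := onCell 67108864 469762048 0 536870912 1046898278 26843546
    (rowFX 0 true true false .up 0 0 1 (qsf 67108864 469762048 0 536870912 1) ndF2q0 ndF3q0 pcF1 Cut.none Ext.none)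

def k0_pm_001 : ∃ t, chk3 f_pm_001 t 1 1 1 = true :=
  ⟨(l 3), by decide +kernel⟩

theorem c_pm_001 : CertFX 67108864 469762048 0 536870912 1046898278 26843546 true true false .up 0 0 1
    ndF2q0 ndF3q0 pcF1 Cut.none Ext.none :=
  certFX0 (fam := true) (s1 := true) (s2 := false) (a := 0) (b := 0) (c := 1) (cn := .up) (n1 := ndF2q0) (n2 := ndF3q0) (pc := pcF1) (cut := Cut.none) (xt := Ext.none) (P1 := 67108864) (W1 := 469762048) (P2 := 0) (W2 := 536870912) (P3 := 1046898278) (W3 := 26843546)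
    rfl k0_pm_001

noncomputable def f_pm_011 : ℕ → ℕ → ℕ → ℕ → Bool := onCell 67108864 469762048 536870912 536870912 1046898278 26843546
    (rowFX 1 true true false .pnn 0 1 1 (qsf 67108864 469762048 536870912 536870912 1) ndF2q0 ndF3q1 pcF1 Cut.none Ext.none)

def k0_pm_011 : ∃ t, chk3 f_pm_011 t 1 1 1 = true :=
  ⟨(a (b (l 3) (l 3)) (l 3)), by decide +kernel⟩

theorem c_pm_011 : CertFX 67108864 469762048 536870912 536870912 1046898278 26843546 true true false .pnn 0 1 1
    ndF2q0 ndF3q1 pcF1 Cut.none Ext.none :=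
  certFX1 (fam := true) (s1 := true) (s2 := false) (a := 0) (b := 1) (c := 1) (cn := .pnn) (n1 := ndF2q0) (n2 := ndF3q1) (pc := pcF1) (cut := Cut.none) (xt := Ext.none) (P1 := 67108864) (W1 := 469762048) (P2 := 536870912) (W2 := 536870912) (P3 := 1046898278) (W3 := 26843546)
    rfl (fun _ => rfl) k0_pm_011

noncomputable def f_pm_012 : ℕ → ℕ → ℕ → ℕ → Bool := onCell 1073741824 536870912 536870912 536870912 1046898278 26843546
    (rowFX 2 true true false .pnp 0 1 2 (qsf 67108864 469762048 536870912 536870912 2) ndF2q0 ndF3q1 pcF2 Cut.none Ext.none)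

def k0_pm_012 : ∃ t, chk3 f_pm_012 t 8 2 1 = true :=
  ⟨(l 3), by decide +kernel⟩

def k1_pm_012 : ∃ t, chk3 f_pm_012 t 8 6 1 = true :=
  ⟨(l 3), by decide +kernel⟩

def k2_pm_012 : ∃ t, chk3 f_pm_012 t 8 14 1 = true :=
  ⟨(a (l 3) (a (l 3) (b (l 3) (a (b (l 3) (c (l 16224232) (l 16257696))) (c (c (l 16225120) (l 16283064)) (c (l 16277800) (l 16209616))))))), by decide +kernel⟩

def k3_pm_012 : ∃ t, chk3 f_pm_012 t 8 15 1 = true :=
  ⟨(b (b (a (l 3) (a (a (l 3) (c (c (b (l 16276824) (l 16231240)) (l 16319568)) (l 16208008))) (c (a (c (b (l 16186040) (l 16091136)) (l 16161864)) (c (b (l 16082128) (l 15980104)) (l 16043768))) (a (a (l 16178456) (l 16113768)) (a (l 16061752) (l 16008016)))))) (a (a (l 3) (a (l 3) (a (l 3) (a (l 3) (b (l 3) (c (l 16373328) (l 16460920))))))) (a (c (a (c (l 16112712) (a (l 16327632) (l 16300448))) (c (l 15985248) (b (l 16228408) (l 16056904)))) (a (a (l 16437552) (l 16344992)) (a (l 16251056) (l 16169504)))) (c (a (c (a (l 15985368) (l 15907816)) (a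 (l 16066456) (l 15986872))) (c (l 15684072) (l 15739840))) (a (a (l 16084176) (l 16003056)) (a (l 15932360) (l 15868976))))))) (b (a (a (l 1) (a (l 1) (b (c (c (a (l 1) (l 605085559943)) (l 16362616)) (l 703333425511)) (l 1)))) (a (c (b (a (a (l 16070304) (l 16073432)) (c (l 15831320) (l 16070568))) (a (c (a (l 1) (l 16026928)) (l 650182415751)) (c (l 15909616) (l 15973792)))) (a (c (a (l 556230369543) (l 344166191399)) (l 509522608647)) (b (c (l 16142912) (l 16146136)) (l 16040192)))) (c (a (c (b (l 15801296) (l 15754736)) (l 15866880)) (c (l 15640424) (l 15715272))) (a (c (l 15942360) (l 15963384)) (l 15793288))))) (a (l 1) (a (b (a (l 1) (a (l 1) (c (l 649108441495) (l 758093206711)))) (l 1)) (c (a (c (l 377988353911) (l 591662996023)) (c (l 15660792) (l 15658504))) (b (c (a (l 15829712) (l 15680416)) (a (l 15886720) (l 15735608))) (c (l 535828183591) (a (l 791378986567) (b (l 15681320) (l 15672120)))))))))), by decide +kernel⟩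

def k4_pm_012 : ∃ t, chk3 f_pm_012 t 18 1 1 = true :=
  ⟨(b (l 3) (b (a (a (l 3) (b (l 3) (b (l 3) (b (l 16578672) (l 16684328))))) (b (c (l 16660528) (l 16657488)) (b (c (l 16654568) (l 16651328)) (c (a (l 16529400) (l 16505688)) (a (l 16549872) (l 16439960)))))) (b (a (a (b (c (l 16425784) (l 16420832)) (b (l 16125352) (c (l 16092440) (l 16076744)))) (b (b (l 16474776) (l 16266872)) (c (l 15920728) (b (l 16107720) (l 15959360))))) (b (c (a (l 16248448) (l 16106096)) (a (l 16215304) (l 15986152))) (a (c (l 15940096) (l 15794088)) (l 15853664)))) (a (b (c (b (a (c (l 15915208) (l 15933672)) (l 15816464)) (a (l 15721304) (l 15613824))) (a (b (l 15919024) (l 15775448)) (l 15739936))) (c (b (a (l 15457768) (l 15412872)) (a (b (l 15494752) (l 15536968)) (l 15385536))) (b (a (l 15645352) (l 15513216)) (b (c (l 15462672) (l 15515176)) (c (l 15454904) (a (l 15539192) (l 15399672))))))) (b (c (b (l 15683664) (l 15480824)) (l 15603544)) (c (b (a (l 15306016) (l 15218760)) (a (l 15261008)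 (l 15150016))) (b (l 15359592) (a (b (l 15275144) (l 15266808)) (b (l 15164808) (l 15142824)))))))))), by decide +kernel⟩

def k5_pm_012 : ∃ t, chk3 f_pm_012 t 19 1 1 = true :=
  ⟨(b (b (a (l 3) (c (l 829633331095) (l 919827644311))) (a (c (l 666424719463) (l 765745837879)) (a (c (l 16777192) (l 16777192)) (c (l 16771192) (l 16771040))))) (b (a (a (b (c (l 16764184) (l 16763840)) (b (c (l 16750480) (l 16749744)) (c (b (l 16753408) (l 16467840)) (b (l 16752976) (l 16459984))))) (b (c (l 16771120) (l 16770952)) (b (c (l 16754152) (l 16753520)) (l 16623984)))) (b (c (a (l 16763408) (l 16752576)) (a (l 16763040) (l 16751928))) (b (l 16716896) (l 16635904)))) (b (a (b (a (l 16093576) (l 16057336)) (a (l 15755656) (l 15707488))) (b (l 15909184) (l 15584008))) (a (b (c (a (b (l 15567984) (l 15365344)) (l 15373944)) (a (l 15484472) (l 15398584))) (c (b (a (l 15141224) (l 15048808)) (a (l 15051328) (l 14945232))) (b (a (l 15234656) (l 15139808)) (a (b (l 15079704) (c (l 15025576) (l 15035776)))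 (b (l 14973184) (l 14929200)))))) (b (c (b (l 15340552) (l 15129008)) (l 15108048)) (b (c (a (l 14940072) (l 14851624)) (l 14961856)) (c (l 14809848) (b (l 14830912) (l 14788168))))))))), by decide +kernel⟩

def k6_pm_012 : ∃ t, chk3 f_pm_012 t 5 1 1 = true :=
  ⟨(b (a (a (b (a (a (c (l 16777208) (l 16777208)) (l 2)) (l 2)) (a (a (c (l 16770136) (l 16769952)) (a (l 16772664) (l 16776264))) (a (l 16756760) (a (l 16728968) (a (l 16723032) (l 16721632)))))) (l 16742408)) (l 16771920)) (a (b (a (a (b (l 16757200) (b (l 16744976) (l 16560152))) (a (b (l 16743808) (b (l 16730592) (l 16557368))) (b (a (l 16710528) (a (l 16718736) (l 16732552))) (a (b (l 16703192) (l 16489264)) (b (a (l 16731416) (l 16747616)) (l 16576920)))))) (b (l 16745176) (b (l 16746312) (l 16627176)))) (a (b (a (b (l 15853224) (a (l 15444824) (b (l 15461080) (l 15264488)))) (a (b (l 15837120) (b (l 15451528) (l 15245112))) (b (a (l 15933040) (l 15963760)) (a (l 15392056) (a (l 15438664) (l 15471280)))))) (a (b (a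 (b (l 15176496) (l 14995792)) (c (l 15022320) (l 15037088))) (b (c (l 14761096) (l 14844336)) (c (l 14682952) (b (l 14700784) (l 14658440))))) (a (b (c (l 14999632) (l 15013896)) (b (l 14718976) (c (l 14632736) (l 14641488)))) (b (a (c (l 15006512) (l 15021152)) (c (a (l 15029280) (l 15043952)) (l 14798104))) (a (b (l 14720856) (l 14559136)) (b (a (l 14736728) (l 14641776)) (a (l 14653272) (c (l 14648344) (l 14657944))))))))) (b (b (l 15995288) (l 15416552)) (b (b (l 14868296) (l 14679176)) (b (c (l 14505016) (l 14581296)) (c (l 14399088) (l 14338416))))))) (b (b (l 16769752) (b (l 16768728) (l 16480984))) (b (b (l 15836248) (a (l 15320288) (l 15284088))) (b (c (a (l 14699264) (l 14646928)) (a (l 14704552) (l 14650448))) (a (b (c (l 14176072) (l 14242048)) (c (l 13985936) (b (l 14000472) (l 13914128)))) (c (l 13974760) (b (l 14150576) (l 13810376))))))))), by decide +kernel⟩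

def k7_pm_012 : ∃ t, chk3 f_pm_012 t 3 1 1 = true :=
  ⟨(b (a (l 16777216) (l 2)) (b (a (b (l 16775704) (b (l 16768032) (l 16581336))) (b (l 2) (l 16685864))) (b (a (b (l 15910368) (l 15284048)) (b (l 15910368) (l 15284048))) (b (a (c (l 14646872) (l 14650384)) (l 14638568)) (a (a (b (l 14089384) (l 13824216)) (b (l 14089384) (l 13824216))) (c (l 13974584) (l 13979936))))))), by decide +kernel⟩

theorem s8_pm_012 : ∃ t, chk3 f_pm_012 t 9 1 1 = true := ex3_a k4_pm_012 k5_pm_012

theorem s9_pm_012 : ∃ t, chk3 f_pm_012 t 8 7 1 = true := ex3_b k2_pm_012 k3_pm_012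

theorem s10_pm_012 : ∃ t, chk3 f_pm_012 t 8 3 1 = true := ex3_b k1_pm_012 s9_pm_012

theorem s11_pm_012 : ∃ t, chk3 f_pm_012 t 8 1 1 = true := ex3_b k0_pm_012 s10_pm_012

theorem s12_pm_012 : ∃ t, chk3 f_pm_012 t 4 1 1 = true := ex3_a s11_pm_012 s8_pm_012

theorem s13_pm_012 : ∃ t, chk3 f_pm_012 t 2 1 1 = true := ex3_a s12_pm_012 k6_pm_012

theorem s14_pm_012 : ∃ t, chk3 f_pm_012 t 1 1 1 = true := ex3_a s13_pm_012 k7_pm_012

theorem c_pm_012 : CertFX 67108864 469762048 536870912 536870912 1046898278 26843546 true true false .pnp 0 1 2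
    ndF2q0 ndF3q1 pcF2 Cut.none Ext.none :=
  certFX2 (fam := true) (s1 := true) (s2 := false) (a := 0) (b := 1) (c := 2) (cn := .pnp) (n1 := ndF2q0) (n2 := ndF3q1) (pc := pcF2) (cut := Cut.none) (xt := Ext.none) (P1 := 67108864) (W1 := 469762048) (P2 := 536870912) (W2 := 536870912) (P3 := 1046898278) (W3 := 26843546)
    rfl (fun _ => rfl) s14_pm_012

noncomputable def f_pm_022 : ℕ → ℕ → ℕ → ℕ → Bool := onCell 67108864 469762048 1073741824 536870912 1046898278 26843546
    (rowFX 1 true true false .pp 0 2 2 (qsf 67108864 469762048 1073741824 536870912 2) ndF2q0 ndF3q2 pcF2 Cut.none Ext.none)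

def k0_pm_022 : ∃ t, chk3 f_pm_022 t 16 4 1 = true :=
  ⟨(a (b (a (b (l 1) (b (l 1) (b (l 1) (c (c (c (c (l 511669974903) (l 16159824)) (l 16155224)) (l 16149400)) (l 16095816))))) (l 1)) (b (b (c (c (a (c (b (l 16219752) (l 16254584)) (l 16227376)) (l 344702928247)) (b (l 16035888) (l 15934888))) (c (b (l 16002512) (l 15952776)) (b (a (l 16156224) (l 16009600)) (a (l 16169336) (l 16030360))))) (c (b (c (c (a (l 16258048) (l 16111440)) (l 16146624)) (l 16058472)) (c (l 16048008) (l 16112728))) (c (b (l 16108680) (l 16074744)) (l 15958128)))) (c (b (c (b (l 16114416) (l 16053008)) (l 15897784)) (c (l 15934176) (l 15927912))) (b (c (l 16009600) (l 15994280)) (l 15903032))))) (b (l 1) (b (b (a (b (l 1) (c (l 452613681879) (l 15848344))) (l 1)) (c (c (b (l 15637320) (a (l 15959504) (l 15792720))) (b (l 15790936) (l 15743672))) (c (b (l 15813352) (l 15817928)) (b (a (l 15878616) (l 15712344)) (l 15683424))))) (c (b (c (b (a (l 15945912) (l 15809168)) (l 15833576)) (b (l 15836184) (l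 15787544))) (c (l 15741632) (l 15693824))) (b (c (b (l 15796240) (l 15746312)) (l 15655832)) (l 15652168)))))), by decide +kernel⟩

def k1_pm_022 : ∃ t, chk3 f_pm_022 t 16 5 1 = true :=
  ⟨(b (b (b (c (c (a (b (l 15852904) (l 15771880)) (l 15506656)) (a (l 15792472) (l 15580664))) (a (l 15564712) (l 15550824))) (c (b (c (a (l 15752560) (l 15596208)) (l 15658336)) (c (a (l 15816480) (l 15689744)) (l 15742080))) (b (a (l 15721576) (l 15553344)) (a (l 15788024) (l 15654008))))) (c (b (c (l 15744448) (l 15925616)) (c (l 16025256) (l 16146880))) (b (a (l 15966584) (l 15852920)) (l 15969456)))) (b (c (b (l 16153912) (a (l 16279568) (l 16507664))) (b (l 16295680) (l 16325504))) (b (b (c (a (a (l 16202008) (l 16306416)) (l 16421176)) (l 16130208)) (a (l 16153800) (l 16336624))) (a (l 16005456) (l 16120768))))), by decide +kernel⟩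

def k2_pm_022 : ∃ t, chk3 f_pm_022 t 17 2 1 = true :=
  ⟨(b (b (l 1) (a (b (a (b (l 1) (b (l 1) (c (b (l 567503486423) (l 473551112935)) (l 15502984)))) (l 1)) (c (b (c (b (a (l 15643320) (l 464960880903)) (a (l 15644984) (l 15485176))) (b (l 206189033239) (l 15507896))) (c (b (a (l 15608048) (l 15478376)) (l 15491672)) (l 15420472))) (b (b (c (l 15505144) (a (l 15561224) (l 15401640))) (c (l 15491240) (l 15455264))) (c (l 15419680) (l 15384576))))) (b (l 1) (b (a (b (l 1) (c (l 514889621335) (l 15185752))) (l 1)) (c (c (b (l 223905325527) (l 15180360)) (b (l 15238920) (l 15224640))) (c (b (l 15204672) (l 15180136)) (b (l 280276494487) (l 15138256)))))))) (b (b (b (c (c (a (l 15250216) (b (l 15235248) (l 15184176))) (a (l 15344680) (l 15151576))) (c (a (l 15308240) (l 15105160)) (l 14988632))) (c (b (c (a (l 15395992) (l 15227808)) (l 15267048)) (c (a (l 15462280) (l 15366136)) (a (l 15498656) (l 15319280)))) (b (a (l 15325480) (l 15117608)) (a (l 15473296) (l 15280960))))) (c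 (b (c (a (l 15756336) (l 15631664)) (l 15415872)) (c (l 15780560) (l 15977264))) (b (a (l 15719920) (l 15578032)) (l 15858008)))) (b (c (b (a (l 16249688) (l 16221640)) (l 16306920)) (b (l 16149480) (l 16429592))) (c (b (l 16539392) (l 16467032)) (b (l 16539200) (l 16465224)))))), by decide +kernel⟩

def k3_pm_022 : ∃ t, chk3 f_pm_022 t 9 2 1 = true :=
  ⟨(b (b (l 1) (b (l 1) (a (a (b (l 1) (c (c (b (l 652327681255) (l 509520064119)) (l 588976843111)) (b (l 14844600) (c (l 14918040) (l 448853389703))))) (l 1)) (l 1)))) (b (a (b (b (c (a (c (b (l 207261770711) (c (l 14993424) (l 14971720))) (b (l 14953384) (l 14933408))) (c (b (l 672728222183) (c (l 361343113271) (l 14689640))) (l 613672298711))) (a (c (b (l 14912080) (l 14882288)) (b (l 14829336) (l 14834968))) (b (l 559985052103) (c (l 14628312) (a (l 14665640) (l 14520440)))))) (c (b (c (a (l 15040120) (c (l 14780168) (l 14825200))) (a (l 15004368) (l 14792448))) (c (a (l 15224272) (b (l 14786672) (l 15108056))) (a (l 15166120)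 (l 14998944)))) (b (a (l 14803744) (c (l 14746144) (l 302287221703))) (c (l 14867048) (l 14805672))))) (c (b (c (a (l 15497304) (l 15353016)) (l 15383440)) (b (l 15544072) (l 15705048))) (b (c (l 15345400) (l 15313168)) (l 15525112)))) (a (b (b (l 1) (c (b (c (l 680780867927) (l 14494832)) (c (b (l 310877198551) (l 14861904)) (l 14717080))) (b (c (l 14462152) (l 721582853703)) (c (l 14531200) (b (l 478917586551) (l 14748104)))))) (c (b (c (b (l 15057008) (l 15294088)) (l 15103608)) (c (l 15598528) (l 15549208))) (b (c (l 15016912) (l 301214049479)) (l 15494272)))) (b (l 1) (c (b (b (l 561059096359) (l 133710307303)) (b (l 15137464) (l 15512624))) (b (b (l 624946604023) (c (l 14977504) (l 14708032))) (c (l 15332328) (l 15209592))))))) (b (b (a (c (c (l 15940432) (l 16113112)) (l 15995264)) (c (c (l 15785592) (l 15874968)) (l 15623240))) (a (c (l 16278776) (l 16355320)) (c (b (l 16136504) (a (l 16417864) (l 16301088))) (l 16008432)))) (b (c (a (l 16551488) (a (l 16505512) (l 16303728)))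 (a (l 16550296) (b (l 16419040) (l 16458576)))) (a (l 16468184) (l 16428000)))))), by decide +kernel⟩

def k4_pm_022 : ∃ t, chk3 f_pm_022 t 5 2 1 = true :=
  ⟨(b (l 1) (b (a (a (b (l 1) (a (c (b (c (l 987871658855) (l 14537352)) (c (l 431137177575) (l 15138488))) (b (l 769901404967) (b (l 513814869943) (c (l 15243776) (l 15123312))))) (a (b (l 1) (c (l 583608041159) (l 601861543863))) (l 1)))) (l 1)) (l 1)) (b (a (a (b (c (a (c (l 15484832) (l 15631744)) (c (l 15196128) (l 15418688))) (a (c (l 15592672) (l 15473432)) (c (l 15154720) (b (l 380671430295) (l 15405880))))) (c (a (l 15968048) (l 15918616)) (a (l 15926704) (l 15724088)))) (a (b (l 498245963031) (b (l 321079417911) (a (l 15851304) (l 15659544)))) (c (l 641590566407) (b (l 1) (l 397851585783))))) (l 1)) (a (a (b (a (c (l 16146920) (l 16284368)) (l 15972720)) (l 16251216)) (a (c (l 16063776) (l 15835408)) (b (c (l 15844224) (b (a (l 15816360) (l 15721624)) (l 15827776))) (l 15766088)))) (a (c (l 15407400) (b (b (l 15397040)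 (l 370471606135)) (a (l 15708376) (l 15551144)))) (l 1)))))), by decide +kernel⟩

def k5_pm_022 : ∃ t, chk3 f_pm_022 t 3 2 1 = true :=
  ⟨(l 1), by decide +kernel⟩

def k6_pm_022 : ∃ t, chk3 f_pm_022 t 1 3 1 = true :=
  ⟨(a (b (a (a (b (a (b (c (l 15742632) (l 15889128)) (c (b (l 15680304) (l 15602104)) (l 15622896))) (b (b (a (l 16405728) (l 16390896)) (l 16143776)) (a (l 15910720) (l 16264720)))) (b (a (l 15442864) (b (l 15859624) (l 15885160))) (l 15714208))) (b (b (a (b (l 16366784) (l 16291384)) (b (l 16371120) (l 16289392))) (a (b (l 16332256) (l 16519536)) (l 16202776))) (b (a (l 16293528) (l 16271856)) (a (l 16118144) (l 16450744))))) (b (a (a (b (l 16255000) (l 16143584)) (b (c (l 16099208) (l 16059064)) (l 16082384))) (b (a (c (l 15942632) (b (l 15738768) (l 15931488))) (b (l 302825890407) (c (l 15804184) (l 314637353831)))) (a (l 16038400) (b (l 15729224) (l 15981048))))) (a (b (a (l 16060288) (l 15978600)) (a (l 16290320) (l 15940952))) (b (a (l 16024712) (l 16044448))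 (l 15943448))))) (a (a (a (l 15568688) (l 15876416)) (b (l 16116648) (l 16191784))) (b (a (b (a (l 16628432) (l 16226152)) (l 16485888)) (b (a (l 15923128) (l 15897928)) (a (l 16250800) (l 15947120)))) (a (l 16618720) (b (l 16419536) (l 16699192)))))) (b (a (b (a (b (a (l 395167138791) (l 1)) (a (b (l 308194694151) (l 292625758679)) (l 294772390295))) (l 1)) (a (b (a (b (l 15921096) (l 15998760)) (b (l 241085919143) (l 15735376))) (a (l 16049112) (l 15824168))) (b (b (l 1) (l 502004497031)) (a (b (l 15691144) (l 15870064)) (l 15277792))))) (l 1)) (a (b (a (b (l 16018304) (l 15923616)) (b (a (l 15993016) (l 15591960)) (a (l 16053136) (l 16008656)))) (a (b (l 15881976) (a (l 16362952) (l 16010200))) (b (l 16001944) (l 15916944)))) (b (a (b (a (l 15369592) (l 1)) (a (l 15770240) (l 15480160))) (l 1)) (a (b (a (l 16020312) (l 15883336)) (l 16028824)) (b (l 507910196119) (a (l 15910320) (l 15673520)))))))), by decide +kernel⟩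

theorem s7_pm_022 : ∃ t, chk3 f_pm_022 t 16 2 1 = true := ex3_b k0_pm_022 k1_pm_022

theorem s8_pm_022 : ∃ t, chk3 f_pm_022 t 8 2 1 = true := ex3_a s7_pm_022 k2_pm_022

theorem s9_pm_022 : ∃ t, chk3 f_pm_022 t 4 2 1 = true := ex3_a s8_pm_022 k3_pm_022

theorem s10_pm_022 : ∃ t, chk3 f_pm_022 t 2 2 1 = true := ex3_a s9_pm_022 k4_pm_022

theorem s11_pm_022 : ∃ t, chk3 f_pm_022 t 1 2 1 = true := ex3_a s10_pm_022 k5_pm_022

theorem s12_pm_022 : ∃ t, chk3 f_pm_022 t 1 1 1 = true := ex3_b s11_pm_022 k6_pm_022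

theorem c_pm_022 : CertFX 67108864 469762048 1073741824 536870912 1046898278 26843546 true true false .pp 0 2 2
    ndF2q0 ndF3q2 pcF2 Cut.none Ext.none :=
  certFX1 (fam := true) (s1 := true) (s2 := false) (a := 0) (b := 2) (c := 2) (cn := .pp) (n1 := ndF2q0) (n2 := ndF3q2) (pc := pcF2) (cut := Cut.none) (xt := Ext.none) (P1 := 67108864) (W1 := 469762048) (P2 := 1073741824) (W2 := 536870912) (P3 := 1046898278) (W3 := 26843546)
    rfl (fun _ => rfl) s12_pm_022

noncomputable def f_pm_023 : ℕ → ℕ → ℕ → ℕ → Bool := onCell 67108864 469762048 1610612736 536870912 1046898278 26843546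
    (rowFX 1 true true false .up 0 2 3 (qsf 67108864 469762048 1073741824 536870912 3) ndF2q0 ndF3q2 pcF3 Cut.none Ext.none)

def k0_pm_023 : ∃ t, chk3 f_pm_023 t 1 1 1 = true :=
  ⟨(b (a (b (a (a (a (l 15568688) (l 15876416)) (l 16191784)) (a (l 16616872) (l 16777168))) (a (b (a (l 2) (l 16191784)) (l 2)) (b (l 16657112) (a (l 16616872) (l 16777216))))) (b (a (b (a (b (l 16537096) (l 16732784)) (b (l 15962176) (l 16269424))) (a (l 16777216) (l 16651840))) (b (a (b (l 15977248) (l 15921616)) (b (l 15800232) (l 16027152))) (a (b (l 16014128) (l 16336064)) (b (l 15943448) (l 15938040))))) (b (a (l 16777216) (a (l 16690392) (b (l 16058320) (l 16461480)))) (b (a (l 16777216) (l 16731784)) (l 16777184))))) (b (a (a (l 2) (b (b (l 16699056) (l 244376268615)) (l 2))) (b (c (l 16777216) (l 16777216)) (a (l 4) (l 4)))) (l 4))), by decide +kernel⟩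

theorem c_pm_023 : CertFX 67108864 469762048 1073741824 536870912 1046898278 26843546 true true false .up 0 2 3
    ndF2q0 ndF3q2 pcF3 Cut.none Ext.none :=
  certFX1 (fam := true) (s1 := true) (s2 := false) (a := 0) (b := 2) (c := 3) (cn := .up) (n1 := ndF2q0) (n2 := ndF3q2) (pc := pcF3) (cut := Cut.none) (xt := Ext.none) (P1 := 67108864) (W1 := 469762048) (P2 := 1073741824) (W2 := 536870912) (P3 := 1046898278) (W3 := 26843546)
    rfl (fun _ => rfl) k0_pm_023

noncomputable def f_pm_033 : ℕ → ℕ → ℕ → ℕ → Bool := onCell 67108864 469762048 1610612736 536870912 1046898278 26843546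
    (rowFX 1 true true false .pnn 0 3 3 (qsf 67108864 469762048 1610612736 536870912 3) ndF2q0 ndF3q3 pcF3 Cut.none Ext.none)

def k0_pm_033 : ∃ t, chk3 f_pm_033 t 1 1 1 = true :=
  ⟨(b (a (b (a (a (a (l 15568688) (l 15876416)) (l 16191784)) (l 1)) (a (b (a (c (l 15729880) (l 15696776)) (l 16191784)) (a (c (l 15729880) (l 15696776)) (c (l 16199288) (l 16184280)))) (b (l 16699056) (a (l 16616872) (l 16777216))))) (l 1)) (b (b (a (a (b (a (c (l 15729880) (l 15696776)) (l 16191784)) (b (a (l 15693240) (l 16191784)) (l 4))) (b (l 16699056) (a (l 16564448) (l 16777216)))) (b (l 16777216) (l 16777216))) (a (l 4) (a (l 4) (l 1)))) (l 4))), by decide +kernel⟩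

theorem c_pm_033 : CertFX 67108864 469762048 1610612736 536870912 1046898278 26843546 true true false .pnn 0 3 3
    ndF2q0 ndF3q3 pcF3 Cut.none Ext.none :=
  certFX1 (fam := true) (s1 := true) (s2 := false) (a := 0) (b := 3) (c := 3) (cn := .pnn) (n1 := ndF2q0) (n2 := ndF3q3) (pc := pcF3) (cut := Cut.none) (xt := Ext.none) (P1 := 67108864) (W1 := 469762048) (P2 := 1610612736) (W2 := 536870912) (P3 := 1046898278) (W3 := 26843546)
    rfl (fun _ => rfl) k0_pm_033

noncomputable def f_pm_101 : ℕ → ℕ → ℕ → ℕ → Bool := onCell 536870912 536870912 0 536870912 1046898278 26843546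
    (rowFX 2 true true false .npn 1 0 1 (qsf 536870912 536870912 0 536870912 1) ndF2q1 ndF3q0 pcF1 Cut.none Ext.none)

def k0_pm_101 : ∃ t, chk3 f_pm_101 t 1 1 1 = true :=
  ⟨(a (l 3) (l 3)), by decide +kernel⟩

theorem c_pm_101 : CertFX 536870912 536870912 0 536870912 1046898278 26843546 true true false .npn 1 0 1
    ndF2q1 ndF3q0 pcF1 Cut.none Ext.none :=
  certFX2 (fam := true) (s1 := true) (s2 := false) (a := 1) (b := 0) (c := 1) (cn := .npn) (n1 := ndF2q1) (n2 := ndF3q0) (pc := pcF1) (cut := Cut.none) (xt := Ext.none) (P1 := 536870912) (W1 := 536870912) (P2 := 0) (W2 := 536870912) (P3 := 1046898278) (W3 := 26843546)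
    rfl (fun _ => rfl) k0_pm_101

noncomputable def f_pm_102 : ℕ → ℕ → ℕ → ℕ → Bool := onCell 536870912 536870912 1073741824 536870912 1046898278 26843546
    (rowFX 1 true true false .npp 1 0 2 (qsf 536870912 536870912 0 536870912 2) ndF2q1 ndF3q0 pcF2 Cut.none Ext.none)

def k0_pm_102 : ∃ t, chk3 f_pm_102 t 1 4 1 = true :=
  ⟨(b (l 3) (a (a (a (b (l 3) (l 2)) (l 3)) (l 3)) (l 3))), by decide +kernel⟩

def k1_pm_102 : ∃ t, chk3 f_pm_102 t 2 20 1 = true :=
  ⟨(a (b (b (c (l 16777208) (l 16777208)) (l 2)) (l 2)) (b (c (b (l 2055309623207) (l 16777208)) (b (l 1873310383463) (l 1061024693943))) (b (c (b (l 16776904) (l 16774576)) (b (l 16776896) (a (l 16774056) (l 16776600)))) (b (b (c (l 16770712) (l 16770536)) (c (l 16764408) (l 16764072))) (a (l 16748024) (l 16756216)))))), by decide +kernel⟩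

def k2_pm_102 : ∃ t, chk3 f_pm_102 t 3 20 1 = true :=
  ⟨(b (b (l 3) (a (a (b (l 3) (l 16774200)) (l 3)) (l 3))) (b (b (a (a (l 16774200) (l 16716928)) (l 3)) (a (a (c (l 16774240) (l 16774160)) (c (l 16759104) (l 16758632))) (a (c (l 5719453368663) (l 3984823451959)) (l 3)))) (a (a (b (b (l 16774200) (c (l 16773472) (l 16773376))) (b (a (l 16766224) (b (l 16770640) (l 16764688))) (l 16758216))) (b (c (l 16759104) (b (l 16758632) (l 16758632))) (b (b (c (l 16759800) (l 16759432)) (c (l 16761736) (a (l 16761352) (l 16759880)))) (l 16756024)))) (b (a (c (b (l 16673800) (l 16672256)) (b (l 16671128) (l 16669544))) (a (c (b (l 16673896) (l 16661136)) (b (l 16671920) (l 16658768))) (b (l 11155271191911) (c (l 16611928) (l 16610552))))) (a (b (b (a (l 16716712) (l 16621624)) (c (l 16587264) (l 16605488))) (b (b (b (c (l 16671232) (l 16668480)) (b (c (l 16671976) (l 16669256)) (a (l 16721192) (a (l 16646336) (c (l 16598944) (l 16594328)))))) (l 16672880)) (l 16672848))) (b (c (a (b (l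 16651576) (l 16645216)) (b (l 16683576) (a (l 16722152) (l 16655584)))) (a (b (l 16648920) (l 16642360)) (b (l 16682480) (a (l 16722144) (l 16653776))))) (a (b (b (b (c (l 16641240) (l 16638272)) (b (c (l 16640048) (l 16637040)) (c (a (l 16614344) (l 16664656)) (c (l 16637312) (l 16635800))))) (l 16636080)) (l 16631320)) (b (b (b (c (l 16693024) (l 16692232)) (b (c (l 16694112) (l 16693352)) (c (c (l 16632112) (l 16610768)) (b (b (l 16693824) (l 16694008)) (l 16694296))))) (l 16696320)) (l 16700744))))))))), by decide +kernel⟩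

def k3_pm_102 : ∃ t, chk3 f_pm_102 t 1 21 1 = true :=
  ⟨(a (l 16747776) (a (l 16755992) (a (l 16673760) (a (a (l 16566040) (l 16545736)) (b (l 16637760) (l 16576240)))))), by decide +kernel⟩

def k4_pm_102 : ∃ t, chk3 f_pm_102 t 1 11 1 = true :=
  ⟨(a (l 16771952) (a (l 16768016) (a (l 16670288) (a (l 16519304) (b (l 16406848) (l 16412880)))))), by decide +kernel⟩

def k5_pm_102 : ∃ t, chk3 f_pm_102 t 1 3 1 = true :=
  ⟨(a (b (l 16777216) (l 2)) (b (a (l 16765256) (a (l 16668408) (l 16423640))) (a (l 16765256) (l 16569048)))), by decide +kernel⟩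

theorem s6_pm_102 : ∃ t, chk3 f_pm_102 t 1 20 1 = true := ex3_a k1_pm_102 k2_pm_102

theorem s7_pm_102 : ∃ t, chk3 f_pm_102 t 1 10 1 = true := ex3_b s6_pm_102 k3_pm_102

theorem s8_pm_102 : ∃ t, chk3 f_pm_102 t 1 5 1 = true := ex3_b s7_pm_102 k4_pm_102

theorem s9_pm_102 : ∃ t, chk3 f_pm_102 t 1 2 1 = true := ex3_b k0_pm_102 s8_pm_102

theorem s10_pm_102 : ∃ t, chk3 f_pm_102 t 1 1 1 = true := ex3_b s9_pm_102 k5_pm_102

theorem c_pm_102 : CertFX 536870912 536870912 0 536870912 1046898278 26843546 true true false .npp 1 0 2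
    ndF2q1 ndF3q0 pcF2 Cut.none Ext.none :=
  certFX1 (fam := true) (s1 := true) (s2 := false) (a := 1) (b := 0) (c := 2) (cn := .npp) (n1 := ndF2q1) (n2 := ndF3q0) (pc := pcF2) (cut := Cut.none) (xt := Ext.none) (P1 := 536870912) (W1 := 536870912) (P2 := 0) (W2 := 536870912) (P3 := 1046898278) (W3 := 26843546)
    rfl (fun _ => rfl) s10_pm_102

noncomputable def f_pm_112 : ℕ → ℕ → ℕ → ℕ → Bool := onCell 1073741824 536870912 536870912 536870912 1046898278 26843546
    (rowFX 2 true true false .dn 1 1 2 (qsf 536870912 536870912 536870912 536870912 2) ndF2q1 ndF3q1 pcF2 Cut.none Ext.none)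

def k0_pm_112 : ∃ t, chk3 f_pm_112 t 1 1 1 = true :=
  ⟨(b (a (a (a (l 3) (a (l 3) (b (a (l 3) (c (l 908016484247) (l 1587158187927))) (a (l 1) (a (l 1) (c (l 16771192) (l 16771040))))))) (a (a (a (c (a (b (l 16777208) (l 16770136)) (b (l 16776688) (l 16774688))) (a (b (l 16777208) (l 16769952)) (b (l 16776680) (l 16774624)))) (a (b (c (a (l 16774528) (l 16766632)) (a (l 16774456) (l 16766360))) (l 16756760)) (a (l 16739632) (a (l 16732096) (b (l 16736912) (l 16721632)))))) (l 16742408)) (l 16771920))) (a (b (l 16768800) (l 16777216)) (b (a (l 16751088) (l 16648216)) (l 16768800)))) (a (a (l 1) (a (l 1) (b (b (l 16769752) (l 1)) (l 1)))) (b (b (l 352220859847) (a (l 499859687495) (l 16685864))) (b (a (l 546565202615) (l 398925827639)) (a (l 1) (b (l 14638568) (l 400533164295))))))), by decide +kernel⟩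

theorem c_pm_112 : CertFX 536870912 536870912 536870912 536870912 1046898278 26843546 true true false .dn 1 1 2
    ndF2q1 ndF3q1 pcF2 Cut.none Ext.none :=
  certFX2 (fam := true) (s1 := true) (s2 := false) (a := 1) (b := 1) (c := 2) (cn := .dn) (n1 := ndF2q1) (n2 := ndF3q1) (pc := pcF2) (cut := Cut.none) (xt := Ext.none) (P1 := 536870912) (W1 := 536870912) (P2 := 536870912) (W2 := 536870912) (P3 := 1046898278) (W3 := 26843546)
    rfl (fun _ => rfl) k0_pm_112

noncomputable def f_pm_113 : ℕ → ℕ → ℕ → ℕ → Bool := onCell 1610612736 536870912 536870912 536870912 1046898278 26843546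
    (rowFX 2 true true false .nn 1 1 3 (qsf 536870912 536870912 536870912 536870912 3) ndF2q1 ndF3q1 pcF3 Cut.none Ext.none)

def k0_pm_113 : ∃ t, chk3 f_pm_113 t 1 1 1 = true :=
  ⟨(b (a (a (b (a (l 16467440) (l 16219216)) (a (l 16751088) (l 16648216))) (b (a (b (l 2) (l 16152096)) (l 2)) (a (l 16467440) (l 16261160)))) (a (a (b (l 2) (b (l 2) (l 16152104))) (l 2)) (l 2))) (b (a (a (b (l 16768184) (l 16686760)) (b (l 16649624) (l 16577720))) (a (a (l 16429248) (a (l 16272024) (b (l 2) (l 16229136)))) (a (a (b (l 2) (l 16124320)) (l 2)) (l 2)))) (a (b (a (l 15432920) (l 15609696)) (a (b (l 14638568) (l 13815856)) (b (l 14639640) (l 13752944)))) (a (b (a (l 15584144) (l 15464936)) (b (l 14526208) (a (l 13990720) (l 13977448)))) (a (b (a (l 15433608) (l 15691280)) (a (b (l 14497456) (l 13900528)) (b (l 14515792) (l 13847760)))) (a (b (a (l 16073896) (l 2)) (c (b (l 15042976) (l 14016160)) (a (l 14138488) (l 14311600)))) (l 4))))))), by decide +kernel⟩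

theorem c_pm_113 : CertFX 536870912 536870912 536870912 536870912 1046898278 26843546 true true false .nn 1 1 3
    ndF2q1 ndF3q1 pcF3 Cut.none Ext.none :=
  certFX2 (fam := true) (s1 := true) (s2 := false) (a := 1) (b := 1) (c := 3) (cn := .nn) (n1 := ndF2q1) (n2 := ndF3q1) (pc := pcF3) (cut := Cut.none) (xt := Ext.none) (P1 := 536870912) (W1 := 536870912) (P2 := 536870912) (W2 := 536870912) (P3 := 1046898278) (W3 := 26843546)
    rfl (fun _ => rfl) k0_pm_113

noncomputable def f_pm_123 : ℕ → ℕ → ℕ → ℕ → Bool := onCell 1610612736 536870912 1073741824 536870912 1046898278 26843546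
    (rowFX 2 true true false .npn 1 2 3 (qsf 536870912 536870912 1073741824 536870912 3) ndF2q1 ndF3q2 pcF3 Cut.none Ext.none)

def k0_pm_123 : ∃ t, chk3 f_pm_123 t 1 1 1 = true :=
  ⟨(b (a (a (b (b (b (l 15783576) (l 16021456)) (l 16000440)) (b (l 312490308535) (l 1))) (b (a (b (l 15757520) (l 16000440)) (b (c (l 15947328) (l 15914688)) (l 16000440))) (a (b (l 15970528) (l 16667800)) (b (l 15844696) (l 16667800))))) (a (b (a (b (c (l 15864344) (l 15894760)) (a (l 16000440) (l 16000440))) (a (b (c (l 15951496) (l 15919792)) (c (l 16010400) (l 15990488))) (b (c (b (l 15914008) (l 4)) (l 262225778935)) (l 4)))) (a (b (c (l 15980872) (l 15960192)) (a (l 16667800) (l 16667808))) (a (b (c (l 15980872) (l 15960184)) (a (l 16667808) (l 4))) (l 4)))) (l 4))) (a (a (l 1) (a (l 1) (l 16777216))) (a (a (a (l 16777216) (l 16777216)) (a (a (l 16777216) (l 4)) (l 4))) (l 4)))), by decide +kernel⟩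

theorem c_pm_123 : CertFX 536870912 536870912 1073741824 536870912 1046898278 26843546 true true false .npn 1 2 3
    ndF2q1 ndF3q2 pcF3 Cut.none Ext.none :=
  certFX2 (fam := true) (s1 := true) (s2 := false) (a := 1) (b := 2) (c := 3) (cn := .npn) (n1 := ndF2q1) (n2 := ndF3q2) (pc := pcF3) (cut := Cut.none) (xt := Ext.none) (P1 := 536870912) (W1 := 536870912) (P2 := 1073741824) (W2 := 536870912) (P3 := 1046898278) (W3 := 26843546)
    rfl (fun _ => rfl) k0_pm_123

noncomputable def f_pm_133 : ℕ → ℕ → ℕ → ℕ → Bool := onCell 536870912 536870912 1610612736 536870912 1046898278 26843546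
    (rowFX 0 true true false .dn 1 3 3 (qsf 536870912 536870912 1610612736 536870912 3) ndF2q1 ndF3q3 pcF3 Cut.none Ext.none)

def k0_pm_133 : ∃ t, chk3 f_pm_133 t 1 1 1 = true :=
  ⟨(l 4), by decide +kernel⟩

theorem c_pm_133 : CertFX 536870912 536870912 1610612736 536870912 1046898278 26843546 true true false .dn 1 3 3
    ndF2q1 ndF3q3 pcF3 Cut.none Ext.none :=
  certFX0 (fam := true) (s1 := true) (s2 := false) (a := 1) (b := 3) (c := 3) (cn := .dn) (n1 := ndF2q1) (n2 := ndF3q3) (pc := pcF3) (cut := Cut.none) (xt := Ext.none) (P1 := 536870912) (W1 := 536870912) (P2 := 1610612736) (W2 := 536870912) (P3 := 1046898278) (W3 := 26843546)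
    rfl k0_pm_133

noncomputable def f_pm_202_a : ℕ → ℕ → ℕ → ℕ → Bool := onCell 0 420477299 1073741824 536870912 1046898278 26843546
    (rowFX 1 true true false .pp 2 0 2 (qsf 0 420477299 0 536870912 2) ndF2q2a ndF3q0 pcF2 Cut.none Ext.none)

def k0_pm_202_a : ∃ t, chk3 f_pm_202_a t 2 2 1 = true :=
  ⟨(b (l 1) (b (b (b (a (l 1) (a (l 1) (a (b (l 1) (b (l 1) (l 16234088))) (b (c (l 16353464) (l 16392784)) (c (b (l 16267808) (b (l 16214928) (l 16192152))) (b (l 16237824) (l 16056768))))))) (b (a (l 1) (a (l 192232144487) (c (b (l 16263928) (l 16352928)) (l 16155856)))) (a (a (l 16293512) (l 16249512)) (a (l 16164848) (l 16211600))))) (a (b (a (l 15861752) (c (l 16092592) (l 16074968))) (c (l 15871864) (l 15884136))) (a (b (c (l 16123992) (l 16173408)) (c (l 15989976) (l 15998536))) (b (c (l 16295896) (l 16323944)) (l 16140632))))) (b (a (b (l 15681944) (a (l 15536296) (l 15566632))) (a (b (l 15813984) (l 15656640)) (b (l 15976152) (l 15812008)))) (a (b (a (l 15538768) (l 15566232))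 (l 15743296)) (a (b (l 15651968) (l 15834496)) (b (l 15802104) (l 15962136))))))), by decide +kernel⟩

def k1_pm_202_a : ∃ t, chk3 f_pm_202_a t 6 2 1 = true :=
  ⟨(b (b (l 1) (b (l 1) (b (a (l 1) (a (l 1) (b (l 1) (c (c (l 16271208) (l 16310272)) (c (l 16267240) (l 1325566877159)))))) (b (a (l 1) (c (a (l 413959928951) (c (l 16324680) (l 16334192))) (a (b (l 16325464) (l 16319368)) (c (l 16339480) (l 16349640))))) (a (a (l 1) (c (l 16360328) (l 621192166455))) (c (c (a (l 16402744) (b (l 16396624) (l 16305696))) (a (l 16394592) (l 16256104))) (b (a (l 16392848) (l 16269040)) (a (l 16300600) (l 16255856))))))))) (b (b (b (b (a (c (a (l 16302672) (b (l 16386600) (l 16238168))) (c (l 16177112) (l 16082928))) (c (a (c (l 16169704) (l 16211968)) (l 15963528)) (c (l 16017792) (l 16064312)))) (b (a (c (a (l 16236576) (l 16167832)) (a (l 16211592) (l 16129552))) (c (l 15825312) (l 15947920))) (b (a (c (a (l 16161784) (l 16080432)) (l 15974288)) (c (l 15774888) (l 15856272))) (a (a (l 16089504)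 (l 16023744)) (a (l 15910640) (l 15771584)))))) (a (c (b (l 16121520) (l 16308392)) (l 16075792)) (c (l 15862376) (l 15973728)))) (a (b (c (l 16430352) (l 16390848)) (l 16180568)) (b (l 16023224) (l 16282208)))) (b (a (b (l 16133952) (l 16021152)) (b (l 16389296) (l 16278752))) (a (b (l 15993840) (l 16122808)) (l 16142728))))), by decide +kernel⟩

def k2_pm_202_a : ∃ t, chk3 f_pm_202_a t 7 8 1 = true :=
  ⟨(a (l 1) (a (l 1) (a (l 1) (a (l 1) (b (l 1) (b (l 1) (b (l 1) (b (l 1) (b (l 1) (c (c (c (l 16114912) (l 16111440)) (l 16106008)) (l 430602545447))))))))))), by decide +kernel⟩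

def k3_pm_202_a : ∃ t, chk3 f_pm_202_a t 7 18 1 = true :=
  ⟨(b (a (l 1) (a (a (l 1) (b (l 1) (c (c (c (b (l 247529555335) (l 16181160)) (l 16148712)) (l 16143744)) (c (l 16116456) (l 694742912839))))) (a (c (b (b (l 1) (c (c (l 283499923751) (l 338797611287)) (l 16117136))) (c (b (c (l 291016210999) (l 16177520)) (l 16237344)) (l 320007186695))) (b (c (l 16083096) (l 714070209703)) (c (b (l 16169704) (l 16244824)) (b (l 16066800) (l 16233080))))) (c (b (c (c (b (l 314638459399) (l 319470378359)) (b (c (l 16128928) (l 16127048)) (l 16181792))) (l 283499901943)) (c (b (l 16241256) (l 16313568)) (b (l 16246008) (l 16329392)))) (b (c (b (l 16117096) (l 16138424)) (b (a (l 16094288) (l 16068776)) (c (l 16183288) (l 16186656)))) (c (b (l 16257904) (l 16349192)) (l 16191064))))))) (a (a (l 1) (c (b (a (l 1) (c (l 16100760) (l 16157488))) (c (l 302827437543) (l 308196083575))) (b (c (l 16104864) (l 698500979479)) (c (b (l 16227968) (l 16245448)) (b (l 16164112) (l 16209952)))))) (c (a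 (b (b (c (l 16212800) (l 16166072)) (c (l 347387766791) (l 16134576))) (b (c (a (l 16315656) (l 16388416)) (l 16219480)) (a (c (l 16394848) (l 16388888)) (l 16332736)))) (b (a (c (b (l 16306088) (l 16390336)) (l 16219368)) (b (c (l 16380592) (l 16427352)) (l 16390512))) (c (c (l 16384040) (l 16421408)) (l 16399832)))) (c (a (b (b (l 299606070839) (l 16100216)) (b (l 16276272) (l 16357208))) (b (a (l 16279648) (l 16395640)) (l 16454064))) (a (b (a (l 760241275111) (l 371009973303)) (l 16236368)) (b (l 16285976) (l 16529992))))))), by decide +kernel⟩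

def k4_pm_202_a : ∃ t, chk3 f_pm_202_a t 7 19 1 = true :=
  ⟨(b (a (c (b (a (c (b (l 16215200) (l 16269848)) (b (l 16273872) (l 16308776))) (c (b (l 16277368) (l 16282144)) (b (l 16284480) (l 16339480)))) (a (c (a (l 16368048) (l 16347248)) (c (l 16281592) (l 16287704))) (c (b (l 16407328) (l 16469872)) (l 16419960)))) (b (a (c (b (l 16269632) (l 16268264)) (b (l 16245544) (l 16230808))) (c (c (l 16261536) (l 16269568)) (l 16237680))) (a (c (l 382821476167) (l 184179265271)) (c (l 16462008) (l 16450064))))) (c (b (a (c (c (l 16340088) (l 16374024)) (l 16369480)) (c (l 16298736) (l 16338072))) (a (b (l 16336312) (l 16200080)) (c (l 16216760) (l 16193112)))) (b (c (a (l 16453896) (l 16323576)) (a (l 16486280) (l 16360392))) (a (l 16242560) (l 16175104))))) (a (c (b (a (c (a (l 16395520) (l 16353624)) (l 16300256)) (c (l 16228632) (l 16285664))) (c (a (l 16149520) (l 16071760)) (a (l 16184032) (l 16045296)))) (b (a (a (l 16226440) (l 16265032)) (l 16220288)) (a (l 16136832) (l 16022344))))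 (c (a (c (b (l 16156240) (l 15917160)) (l 15909384)) (c (l 15610400) (l 15842488))) (a (b (l 16111264) (l 15873768)) (l 15612760))))), by decide +kernel⟩

def k5_pm_202_a : ∃ t, chk3 f_pm_202_a t 7 5 1 = true :=
  ⟨(b (b (b (a (a (c (b (c (l 15967712) (l 15939592)) (b (l 15767528) (b (l 15686552) (l 15650176)))) (b (l 15913952) (b (l 15726880) (l 15631856)))) (b (c (l 15816768) (l 15778608)) (b (c (l 15635696) (l 15599608)) (l 15528528)))) (a (b (c (l 15514176) (l 15627656)) (b (c (l 15498768) (l 15463752)) (l 15400600))) (b (c (c (l 15503424) (l 15484840)) (l 15397680)) (l 15294192)))) (a (c (l 15530312) (l 15709464)) (a (l 15534584) (l 15393312)))) (a (b (c (l 16015744) (l 15997064)) (l 16097728)) (b (a (l 15816488) (l 15674928)) (l 15877720)))) (b (a (b (l 16305440) (l 16405232)) (b (l 16278256) (l 16431512))) (a (c (l 16494528) (l 16342496)) (c (l 16612208) (l 16526912))))), by decide +kernel⟩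

def k6_pm_202_a : ∃ t, chk3 f_pm_202_a t 1 3 1 = true :=
  ⟨(b (a (b (a (b (l 15864600) (l 16212448)) (b (a (l 16037656) (l 16145552)) (l 16304768))) (a (b (l 16437504) (l 16649264)) (b (l 16479912) (l 16717896)))) (a (b (b (l 16201016) (l 16471680)) (b (a (l 16711072) (l 16577888)) (l 16612824))) (b (a (b (l 16622048) (l 16484224)) (b (l 16436096) (l 16312840))) (a (b (l 16400472) (l 16394016)) (l 16285176))))) (a (b (a (b (l 16702488) (l 16702392)) (l 16752704)) (a (l 16702392) (l 16752704))) (a (b (l 16588232) (l 16609208)) (b (a (l 16394016) (l 16285176)) (a (l 16394016) (l 16285176)))))), by decide +kernel⟩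

theorem s7_pm_202_a : ∃ t, chk3 f_pm_202_a t 7 9 1 = true := ex3_b k3_pm_202_a k4_pm_202_a

theorem s8_pm_202_a : ∃ t, chk3 f_pm_202_a t 7 4 1 = true := ex3_b k2_pm_202_a s7_pm_202_a

theorem s9_pm_202_a : ∃ t, chk3 f_pm_202_a t 7 2 1 = true := ex3_b s8_pm_202_a k5_pm_202_a

theorem s10_pm_202_a : ∃ t, chk3 f_pm_202_a t 3 2 1 = true := ex3_a k1_pm_202_a s9_pm_202_a

theorem s11_pm_202_a : ∃ t, chk3 f_pm_202_a t 1 2 1 = true := ex3_a k0_pm_202_a s10_pm_202_a

theorem s12_pm_202_a : ∃ t, chk3 f_pm_202_a t 1 1 1 = true := ex3_b s11_pm_202_a k6_pm_202_a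

theorem c_pm_202_a : CertFX 0 420477299 0 536870912 1046898278 26843546 true true false .pp 2 0 2
    ndF2q2a ndF3q0 pcF2 Cut.none Ext.none :=
  certFX1 (fam := true) (s1 := true) (s2 := false) (a := 2) (b := 0) (c := 2) (cn := .pp) (n1 := ndF2q2a) (n2 := ndF3q0) (pc := pcF2) (cut := Cut.none) (xt := Ext.none) (P1 := 0) (W1 := 420477299) (P2 := 0) (W2 := 536870912) (P3 := 1046898278) (W3 := 26843546)
    rfl (fun _ => rfl) s12_pm_202_a

noncomputable def f_pm_202_b : ℕ → ℕ → ℕ → ℕ → Bool := onCell 1073741824 536870912 0 536870912 1046898278 26843546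
    (rowFX 2 true true false .pp 2 0 2 (qsf 1239849684 370763052 0 536870912 2) ndF2q2b ndF3q0 pcF2 Cut.none Ext.none)

def k0_pm_202_b : ∃ t, chk3 f_pm_202_b t 1 1 1 = true :=
  ⟨(a (a (l 1) (b (b (a (b (a (a (l 1) (b (b (b (a (l 1) (l 16224784)) (l 1)) (l 1)) (l 1))) (b (b (a (b (l 15973024) (l 286183861623)) (l 15422688)) (a (a (l 1) (l 15886888)) (c (l 15833424) (l 15848880)))) (a (l 1) (b (l 15865040) (l 1))))) (l 1)) (b (a (b (b (c (l 15148592) (l 15139096)) (c (l 15310752) (l 15310328))) (b (a (l 15501152) (l 15330408)) (a (l 15714232) (l 360270922343)))) (b (c (b (l 14806584) (l 14979416)) (b (l 14785992) (l 14968560))) (c (a (l 15260208) (l 15273400)) (l 15240280)))) (a (b (b (a (l 1) (l 15711056)) (l 1)) (l 1)) (b (a (b (c (l 15542992) (l 15509872)) (l 15751008)) (b (l 15534008) (l 15713952))) (a (l 1) (l 16023768)))))) (l 1)) (l 1))) (b (a (b (b (a (b (c (l 14900200) (b (l 14788272) (l 14978288))) (c (a (l 15287472) (l 15294320)) (l 15264032))) (b (c (l 14900208) (l 14884312))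 (l 15280376))) (a (b (c (a (l 15654792) (l 15674040)) (l 15633696)) (a (a (l 15808328) (l 15958440)) (l 15972344))) (c (b (l 15680264) (l 16002192)) (l 15588520)))) (a (b (b (a (l 16185448) (l 200284881927)) (a (l 1) (l 16421768))) (l 1)) (b (a (b (l 16214176) (l 16417600)) (l 16333736)) (a (b (l 312492184759) (l 1)) (b (l 16650944) (l 16695480)))))) (b (b (b (a (l 14895376) (l 14895376)) (l 15280376)) (a (l 15817696) (l 15817696))) (b (a (l 16113520) (l 16346384)) (a (b (l 16656336) (l 332893280599)) (l 16720784))))) (a (l 1) (b (a (b (a (l 392485533991) (l 279742980183)) (l 1)) (b (a (l 16751792) (l 16756192)) (a (l 473553083655) (l 16651592)))) (l 1))))), by decide +kernel⟩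

theorem c_pm_202_b : CertFX 1239849684 370763052 0 536870912 1046898278 26843546 true true false .pp 2 0 2
    ndF2q2b ndF3q0 pcF2 Cut.none Ext.none :=
  certFX2 (fam := true) (s1 := true) (s2 := false) (a := 2) (b := 0) (c := 2) (cn := .pp) (n1 := ndF2q2b) (n2 := ndF3q0) (pc := pcF2) (cut := Cut.none) (xt := Ext.none) (P1 := 1239849684) (W1 := 370763052) (P2 := 0) (W2 := 536870912) (P3 := 1046898278) (W3 := 26843546)
    rfl (fun _ => rfl) k0_pm_202_b

noncomputable def f_pm_203_a : ℕ → ℕ → ℕ → ℕ → Bool := onCell 0 420477299 1610612736 536870912 1046898278 26843546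
    (rowFX 1 true true false .up 2 0 3 (qsf 0 420477299 0 536870912 3) ndF2q2a ndF3q0 pcF3 Cut.none Ext.none)

def k0_pm_203_a : ∃ t, chk3 f_pm_203_a t 1 1 1 = true :=
  ⟨(b (b (a (b (c (l 16735888) (l 16734816)) (b (l 16735352) (c (l 16735888) (l 16734816)))) (b (a (l 16609208) (c (l 16362384) (l 16351600))) (a (b (l 16609208) (l 16609208)) (c (l 16362384) (l 16351600))))) (a (l 4) (b (b (a (l 16609208) (l 2)) (l 2)) (l 2)))) (l 2)), by decide +kernel⟩

theorem c_pm_203_a : CertFX 0 420477299 0 536870912 1046898278 26843546 true true false .up 2 0 3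
    ndF2q2a ndF3q0 pcF3 Cut.none Ext.none :=
  certFX1 (fam := true) (s1 := true) (s2 := false) (a := 2) (b := 0) (c := 3) (cn := .up) (n1 := ndF2q2a) (n2 := ndF3q0) (pc := pcF3) (cut := Cut.none) (xt := Ext.none) (P1 := 0) (W1 := 420477299) (P2 := 0) (W2 := 536870912) (P3 := 1046898278) (W3 := 26843546)
    rfl (fun _ => rfl) k0_pm_203_a

noncomputable def f_pm_203_b : ℕ → ℕ → ℕ → ℕ → Bool := onCell 1239849684 370763052 1610612736 536870912 1046898278 26843546
    (rowFX 1 true true false .up 2 0 3 (qsf 1239849684 370763052 0 536870912 3) ndF2q2b ndF3q0 pcF3 Cut.none Ext.none)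

def k0_pm_203_b : ∃ t, chk3 f_pm_203_b t 1 1 1 = true :=
  ⟨(b (b (a (b (a (c (l 16753368) (l 16752752)) (b (l 16715864) (l 16770280))) (c (b (l 16766128) (l 16766128)) (b (l 16765840) (l 16765840)))) (b (a (b (l 16148568) (l 16466280)) (b (a (l 15675576) (a (l 15291088) (l 15029080))) (a (l 15996728) (l 15541280)))) (a (b (l 16592104) (l 16733816)) (b (a (l 16249024) (l 15866920)) (l 16186624))))) (b (a (l 4) (b (a (l 16775216) (a (l 16659000) (l 16387880))) (a (l 4) (b (l 16646928) (l 4))))) (l 4))) (l 4)), by decide +kernel⟩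

theorem c_pm_203_b : CertFX 1239849684 370763052 0 536870912 1046898278 26843546 true true false .up 2 0 3
    ndF2q2b ndF3q0 pcF3 Cut.none Ext.none :=
  certFX1 (fam := true) (s1 := true) (s2 := false) (a := 2) (b := 0) (c := 3) (cn := .up) (n1 := ndF2q2b) (n2 := ndF3q0) (pc := pcF3) (cut := Cut.none) (xt := Ext.none) (P1 := 1239849684) (W1 := 370763052) (P2 := 0) (W2 := 536870912) (P3 := 1046898278) (W3 := 26843546)
    rfl (fun _ => rfl) k0_pm_203_b

noncomputable def f_pm_213_a : ℕ → ℕ → ℕ → ℕ → Bool := onCell 0 420477299 1610612736 536870912 1046898278 26843546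
    (rowFX 1 true true false .pnn 2 1 3 (qsf 0 420477299 536870912 536870912 3) ndF2q2a ndF3q1 pcF3 Cut.none Ext.none)

def k0_pm_213_a : ∃ t, chk3 f_pm_213_a t 1 1 1 = true :=
  ⟨(b (b (a (l 1) (b (a (l 1) (l 437045237895)) (a (l 494491013799) (c (l 16362384) (l 16351600))))) (a (l 4) (b (b (a (l 16609208) (l 16356992)) (l 4)) (l 4)))) (l 4)), by decide +kernel⟩

theorem c_pm_213_a : CertFX 0 420477299 536870912 536870912 1046898278 26843546 true true false .pnn 2 1 3
    ndF2q2a ndF3q1 pcF3 Cut.none Ext.none :=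
  certFX1 (fam := true) (s1 := true) (s2 := false) (a := 2) (b := 1) (c := 3) (cn := .pnn) (n1 := ndF2q2a) (n2 := ndF3q1) (pc := pcF3) (cut := Cut.none) (xt := Ext.none) (P1 := 0) (W1 := 420477299) (P2 := 536870912) (W2 := 536870912) (P3 := 1046898278) (W3 := 26843546)
    rfl (fun _ => rfl) k0_pm_213_a

noncomputable def f_pm_213_b : ℕ → ℕ → ℕ → ℕ → Bool := onCell 1239849684 370763052 536870912 536870912 1046898278 26843546
    (rowFX 0 true true false .pnn 2 1 3 (qsf 1239849684 370763052 536870912 536870912 3) ndF2q2b ndF3q1 pcF3 Cut.none Ext.none)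

def k0_pm_213_b : ∃ t, chk3 f_pm_213_b t 1 1 1 = true :=
  ⟨(l 4), by decide +kernel⟩

theorem c_pm_213_b : CertFX 1239849684 370763052 536870912 536870912 1046898278 26843546 true true false .pnn 2 1 3
    ndF2q2b ndF3q1 pcF3 Cut.none Ext.none :=
  certFX0 (fam := true) (s1 := true) (s2 := false) (a := 2) (b := 1) (c := 3) (cn := .pnn) (n1 := ndF2q2b) (n2 := ndF3q1) (pc := pcF3) (cut := Cut.none) (xt := Ext.none) (P1 := 1239849684) (W1 := 370763052) (P2 := 536870912) (W2 := 536870912) (P3 := 1046898278) (W3 := 26843546)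
    rfl k0_pm_213_b

noncomputable def f_pm_303 : ℕ → ℕ → ℕ → ℕ → Bool := onCell 1610612736 536870912 0 536870912 1046898278 26843546
    (rowFX 2 true true false .npn 3 0 3 (qsf 1610612736 469762048 0 536870912 3) ndF2q3 ndF3q0 pcF3 Cut.none Ext.none)

def k0_pm_303 : ∃ t, chk3 f_pm_303 t 1 1 1 = true :=
  ⟨(a (b (a (b (b (a (b (l 14895376) (l 15280376)) (b (c (l 14900208) (l 14884312)) (l 15280376))) (a (l 15817696) (l 127269517239))) (a (l 1) (b (l 16346384) (l 1)))) (a (b (b (c (b (l 14900208) (l 15294328)) (b (l 14884312) (l 15268632))) (c (l 15825816) (l 15801104))) (c (b (l 16351912) (l 16723032)) (b (l 16340864) (l 16721624)))) (a (b (b (c (l 15108048) (l 14885800)) (c (l 15825816) (l 15801104))) (b (l 16346384) (l 4))) (b (b (c (b (l 14900208) (l 15294328)) (b (l 14884312) (l 15268632))) (l 4)) (l 4))))) (a (l 1) (a (l 1) (l 4)))) (a (b (b (a (b (l 4) (l 4)) (l 4)) (l 4)) (l 4)) (l 4))), by decide +kernel⟩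

theorem c_pm_303 : CertFX 1610612736 469762048 0 536870912 1046898278 26843546 true true false .npn 3 0 3
    ndF2q3 ndF3q0 pcF3 Cut.none Ext.none :=
  certFX2 (fam := true) (s1 := true) (s2 := false) (a := 3) (b := 0) (c := 3) (cn := .npn) (n1 := ndF2q3) (n2 := ndF3q0) (pc := pcF3) (cut := Cut.none) (xt := Ext.none) (P1 := 1610612736) (W1 := 469762048) (P2 := 0) (W2 := 536870912) (P3 := 1046898278) (W3 := 26843546)
    rfl (fun _ => rfl) k0_pm_303

noncomputable def f_pm_313 : ℕ → ℕ → ℕ → ℕ → Bool := onCell 1610612736 469762048 536870912 536870912 1046898278 26843546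
    (rowFX 0 true true false .dn 3 1 3 (qsf 1610612736 469762048 536870912 536870912 3) ndF2q3 ndF3q1 pcF3 Cut.none Ext.none)

def k0_pm_313 : ∃ t, chk3 f_pm_313 t 1 1 1 = true :=
  ⟨(l 4), by decide +kernel⟩

theorem c_pm_313 : CertFX 1610612736 469762048 536870912 536870912 1046898278 26843546 true true false .dn 3 1 3
    ndF2q3 ndF3q1 pcF3 Cut.none Ext.none :=
  certFX0 (fam := true) (s1 := true) (s2 := false) (a := 3) (b := 1) (c := 3) (cn := .dn) (n1 := ndF2q3) (n2 := ndF3q1) (pc := pcF3) (cut := Cut.none) (xt := Ext.none) (P1 := 1610612736) (W1 := 469762048) (P2 := 536870912) (W2 := 536870912) (P3 := 1046898278) (W3 := 26843546)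
    rfl k0_pm_313

noncomputable def f_mm_001 : ℕ → ℕ → ℕ → ℕ → Bool := onCell 67108864 469762048 0 536870912 1046898278 26843546
    (rowFX 0 true false false .up 0 0 1 (qsf 67108864 469762048 0 536870912 1) ndF2q0 ndF3q0 pcF1 Cut.none Ext.none)

def k0_mm_001 : ∃ t, chk3 f_mm_001 t 1 1 1 = true :=
  ⟨(l 4), by decide +kernel⟩

theorem c_mm_001 : CertFX 67108864 469762048 0 536870912 1046898278 26843546 true false false .up 0 0 1
    ndF2q0 ndF3q0 pcF1 Cut.none Ext.none :=
  certFX0 (fam := true) (s1 := false) (s2 := false) (a := 0) (b := 0) (c := 1) (cn := .up) (n1 := ndF2q0) (n2 := ndF3q0) (pc := pcF1) (cut := Cut.none) (xt := Ext.none) (P1 := 67108864) (W1 := 469762048) (P2 := 0) (W2 := 536870912) (P3 := 1046898278) (W3 := 26843546)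
    rfl k0_mm_001

noncomputable def f_mm_011 : ℕ → ℕ → ℕ → ℕ → Bool := onCell 67108864 469762048 536870912 536870912 1046898278 26843546
    (rowFX 0 true false false .pnn 0 1 1 (qsf 67108864 469762048 536870912 536870912 1) ndF2q0 ndF3q1 pcF1 Cut.none Ext.none)

def k0_mm_011 : ∃ t, chk3 f_mm_011 t 1 1 1 = true :=
  ⟨(l 4), by decide +kernel⟩

theorem c_mm_011 : CertFX 67108864 469762048 536870912 536870912 1046898278 26843546 true false false .pnn 0 1 1
    ndF2q0 ndF3q1 pcF1 Cut.none Ext.none :=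
  certFX0 (fam := true) (s1 := false) (s2 := false) (a := 0) (b := 1) (c := 1) (cn := .pnn) (n1 := ndF2q0) (n2 := ndF3q1) (pc := pcF1) (cut := Cut.none) (xt := Ext.none) (P1 := 67108864) (W1 := 469762048) (P2 := 536870912) (W2 := 536870912) (P3 := 1046898278) (W3 := 26843546)
    rfl k0_mm_011

noncomputable def f_mm_012 : ℕ → ℕ → ℕ → ℕ → Bool := onCell 67108864 469762048 536870912 536870912 1046898278 26843546
    (rowFX 0 true false false .pnp 0 1 2 (qsf 67108864 469762048 536870912 536870912 2) ndF2q0 ndF3q1 pcF2 Cut.none Ext.none)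

def k0_mm_012 : ∃ t, chk3 f_mm_012 t 1 1 1 = true :=
  ⟨(l 4), by decide +kernel⟩

theorem c_mm_012 : CertFX 67108864 469762048 536870912 536870912 1046898278 26843546 true false false .pnp 0 1 2
    ndF2q0 ndF3q1 pcF2 Cut.none Ext.none :=
  certFX0 (fam := true) (s1 := false) (s2 := false) (a := 0) (b := 1) (c := 2) (cn := .pnp) (n1 := ndF2q0) (n2 := ndF3q1) (pc := pcF2) (cut := Cut.none) (xt := Ext.none) (P1 := 67108864) (W1 := 469762048) (P2 := 536870912) (W2 := 536870912) (P3 := 1046898278) (W3 := 26843546)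
    rfl k0_mm_012

noncomputable def f_mm_022 : ℕ → ℕ → ℕ → ℕ → Bool := onCell 67108864 469762048 1073741824 536870912 1046898278 26843546
    (rowFX 0 true false false .pp 0 2 2 (qsf 67108864 469762048 1073741824 536870912 2) ndF2q0 ndF3q2 pcF2 Cut.none Ext.none)

def k0_mm_022 : ∃ t, chk3 f_mm_022 t 1 1 1 = true :=
  ⟨(l 5), by decide +kernel⟩

theorem c_mm_022 : CertFX 67108864 469762048 1073741824 536870912 1046898278 26843546 true false false .pp 0 2 2
    ndF2q0 ndF3q2 pcF2 Cut.none Ext.none :=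
  certFX0 (fam := true) (s1 := false) (s2 := false) (a := 0) (b := 2) (c := 2) (cn := .pp) (n1 := ndF2q0) (n2 := ndF3q2) (pc := pcF2) (cut := Cut.none) (xt := Ext.none) (P1 := 67108864) (W1 := 469762048) (P2 := 1073741824) (W2 := 536870912) (P3 := 1046898278) (W3 := 26843546)
    rfl k0_mm_022

noncomputable def f_mm_023 : ℕ → ℕ → ℕ → ℕ → Bool := onCell 67108864 469762048 1073741824 536870912 1046898278 26843546
    (rowFX 0 true false false .up 0 2 3 (qsf 67108864 469762048 1073741824 536870912 3) ndF2q0 ndF3q2 pcF3 Cut.none Ext.none)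

def k0_mm_023 : ∃ t, chk3 f_mm_023 t 1 1 1 = true :=
  ⟨(l 5), by decide +kernel⟩

theorem c_mm_023 : CertFX 67108864 469762048 1073741824 536870912 1046898278 26843546 true false false .up 0 2 3
    ndF2q0 ndF3q2 pcF3 Cut.none Ext.none :=
  certFX0 (fam := true) (s1 := false) (s2 := false) (a := 0) (b := 2) (c := 3) (cn := .up) (n1 := ndF2q0) (n2 := ndF3q2) (pc := pcF3) (cut := Cut.none) (xt := Ext.none) (P1 := 67108864) (W1 := 469762048) (P2 := 1073741824) (W2 := 536870912) (P3 := 1046898278) (W3 := 26843546)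
    rfl k0_mm_023

noncomputable def f_mm_033 : ℕ → ℕ → ℕ → ℕ → Bool := onCell 67108864 469762048 1610612736 536870912 1046898278 26843546
    (rowFX 0 true false false .pnn 0 3 3 (qsf 67108864 469762048 1610612736 536870912 3) ndF2q0 ndF3q3 pcF3 Cut.none Ext.none)

def k0_mm_033 : ∃ t, chk3 f_mm_033 t 1 1 1 = true :=
  ⟨(l 4), by decide +kernel⟩

theorem c_mm_033 : CertFX 67108864 469762048 1610612736 536870912 1046898278 26843546 true false false .pnn 0 3 3
    ndF2q0 ndF3q3 pcF3 Cut.none Ext.none :=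
  certFX0 (fam := true) (s1 := false) (s2 := false) (a := 0) (b := 3) (c := 3) (cn := .pnn) (n1 := ndF2q0) (n2 := ndF3q3) (pc := pcF3) (cut := Cut.none) (xt := Ext.none) (P1 := 67108864) (W1 := 469762048) (P2 := 1610612736) (W2 := 536870912) (P3 := 1046898278) (W3 := 26843546)
    rfl k0_mm_033

noncomputable def f_mm_101 : ℕ → ℕ → ℕ → ℕ → Bool := onCell 536870912 536870912 0 536870912 1046898278 26843546
    (rowFX 0 true false false .npn 1 0 1 (qsf 536870912 536870912 0 536870912 1) ndF2q1 ndF3q0 pcF1 Cut.none Ext.none)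

def k0_mm_101 : ∃ t, chk3 f_mm_101 t 1 1 1 = true :=
  ⟨(l 4), by decide +kernel⟩

theorem c_mm_101 : CertFX 536870912 536870912 0 536870912 1046898278 26843546 true false false .npn 1 0 1
    ndF2q1 ndF3q0 pcF1 Cut.none Ext.none :=
  certFX0 (fam := true) (s1 := false) (s2 := false) (a := 1) (b := 0) (c := 1) (cn := .npn) (n1 := ndF2q1) (n2 := ndF3q0) (pc := pcF1) (cut := Cut.none) (xt := Ext.none) (P1 := 536870912) (W1 := 536870912) (P2 := 0) (W2 := 536870912) (P3 := 1046898278) (W3 := 26843546)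
    rfl k0_mm_101

noncomputable def f_mm_102 : ℕ → ℕ → ℕ → ℕ → Bool := onCell 536870912 536870912 0 536870912 1046898278 26843546
    (rowFX 0 true false false .npp 1 0 2 (qsf 536870912 536870912 0 536870912 2) ndF2q1 ndF3q0 pcF2 Cut.none Ext.none)

def k0_mm_102 : ∃ t, chk3 f_mm_102 t 1 1 1 = true :=
  ⟨(l 4), by decide +kernel⟩

theorem c_mm_102 : CertFX 536870912 536870912 0 536870912 1046898278 26843546 true false false .npp 1 0 2
    ndF2q1 ndF3q0 pcF2 Cut.none Ext.none :=
  certFX0 (fam := true) (s1 := false) (s2 := false) (a := 1) (b := 0) (c := 2) (cn := .npp) (n1 := ndF2q1) (n2 := ndF3q0) (pc := pcF2) (cut := Cut.none) (xt := Ext.none) (P1 := 536870912) (W1 := 536870912) (P2 := 0) (W2 := 536870912) (P3 := 1046898278) (W3 := 26843546)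
    rfl k0_mm_102

noncomputable def f_mm_112 : ℕ → ℕ → ℕ → ℕ → Bool := onCell 536870912 536870912 536870912 536870912 1046898278 26843546
    (rowFX 0 true false false .dn 1 1 2 (qsf 536870912 536870912 536870912 536870912 2) ndF2q1 ndF3q1 pcF2 Cut.none Ext.none)

def k0_mm_112 : ∃ t, chk3 f_mm_112 t 1 1 1 = true :=
  ⟨(l 4), by decide +kernel⟩

theorem c_mm_112 : CertFX 536870912 536870912 536870912 536870912 1046898278 26843546 true false false .dn 1 1 2
    ndF2q1 ndF3q1 pcF2 Cut.none Ext.none :=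
  certFX0 (fam := true) (s1 := false) (s2 := false) (a := 1) (b := 1) (c := 2) (cn := .dn) (n1 := ndF2q1) (n2 := ndF3q1) (pc := pcF2) (cut := Cut.none) (xt := Ext.none) (P1 := 536870912) (W1 := 536870912) (P2 := 536870912) (W2 := 536870912) (P3 := 1046898278) (W3 := 26843546)
    rfl k0_mm_112

noncomputable def f_mm_113 : ℕ → ℕ → ℕ → ℕ → Bool := onCell 536870912 536870912 536870912 536870912 1046898278 26843546
    (rowFX 0 true false false .nn 1 1 3 (qsf 536870912 536870912 536870912 536870912 3) ndF2q1 ndF3q1 pcF3 Cut.none Ext.none)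

def k0_mm_113 : ∃ t, chk3 f_mm_113 t 1 1 1 = true :=
  ⟨(l 4), by decide +kernel⟩

theorem c_mm_113 : CertFX 536870912 536870912 536870912 536870912 1046898278 26843546 true false false .nn 1 1 3
    ndF2q1 ndF3q1 pcF3 Cut.none Ext.none :=
  certFX0 (fam := true) (s1 := false) (s2 := false) (a := 1) (b := 1) (c := 3) (cn := .nn) (n1 := ndF2q1) (n2 := ndF3q1) (pc := pcF3) (cut := Cut.none) (xt := Ext.none) (P1 := 536870912) (W1 := 536870912) (P2 := 536870912) (W2 := 536870912) (P3 := 1046898278) (W3 := 26843546)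
    rfl k0_mm_113

noncomputable def f_mm_123 : ℕ → ℕ → ℕ → ℕ → Bool := onCell 536870912 536870912 1073741824 536870912 1046898278 26843546
    (rowFX 0 true false false .npn 1 2 3 (qsf 536870912 536870912 1073741824 536870912 3) ndF2q1 ndF3q2 pcF3 Cut.none Ext.none)

def k0_mm_123 : ∃ t, chk3 f_mm_123 t 1 1 1 = true :=
  ⟨(l 4), by decide +kernel⟩

theorem c_mm_123 : CertFX 536870912 536870912 1073741824 536870912 1046898278 26843546 true false false .npn 1 2 3
    ndF2q1 ndF3q2 pcF3 Cut.none Ext.none :=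
  certFX0 (fam := true) (s1 := false) (s2 := false) (a := 1) (b := 2) (c := 3) (cn := .npn) (n1 := ndF2q1) (n2 := ndF3q2) (pc := pcF3) (cut := Cut.none) (xt := Ext.none) (P1 := 536870912) (W1 := 536870912) (P2 := 1073741824) (W2 := 536870912) (P3 := 1046898278) (W3 := 26843546)
    rfl k0_mm_123

noncomputable def f_mm_133 : ℕ → ℕ → ℕ → ℕ → Bool := onCell 536870912 536870912 1610612736 536870912 1046898278 26843546
    (rowFX 0 true false false .dn 1 3 3 (qsf 536870912 536870912 1610612736 536870912 3) ndF2q1 ndF3q3 pcF3 Cut.none Ext.none)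

def k0_mm_133 : ∃ t, chk3 f_mm_133 t 1 1 1 = true :=
  ⟨(l 4), by decide +kernel⟩

theorem c_mm_133 : CertFX 536870912 536870912 1610612736 536870912 1046898278 26843546 true false false .dn 1 3 3
    ndF2q1 ndF3q3 pcF3 Cut.none Ext.none :=
  certFX0 (fam := true) (s1 := false) (s2 := false) (a := 1) (b := 3) (c := 3) (cn := .dn) (n1 := ndF2q1) (n2 := ndF3q3) (pc := pcF3) (cut := Cut.none) (xt := Ext.none) (P1 := 536870912) (W1 := 536870912) (P2 := 1610612736) (W2 := 536870912) (P3 := 1046898278) (W3 := 26843546)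
    rfl k0_mm_133

noncomputable def f_mm_202_a : ℕ → ℕ → ℕ → ℕ → Bool := onCell 0 420477299 0 536870912 1046898278 26843546
    (rowFX 0 true false false .pp 2 0 2 (qsf 0 420477299 0 536870912 2) ndF2q2a ndF3q0 pcF2 Cut.none Ext.none)

def k0_mm_202_a : ∃ t, chk3 f_mm_202_a t 1 4 1 = true :=
  ⟨(a (b (a (b (b (c (a (l 16141496) (l 16111512)) (a (l 16162216) (l 16175704))) (c (l 16035160) (l 16124408))) (b (a (l 16235448) (c (l 16288888) (l 16300464))) (a (c (l 16325712) (l 16322472)) (c (l 16368040) (l 16366072))))) (b (b (a (c (l 16106976) (l 16214608)) (b (a (c (l 16222784) (b (l 16303688) (l 16309424))) (c (b (l 16339432) (l 16271656)) (b (l 16340608) (l 16271256)))) (c (l 16285880) (l 16321240)))) (a (c (l 16261336) (l 16289808)) (c (l 16306904) (l 16336312)))) (b (a (c (l 16333968) (l 16346688)) (c (l 16362096) (l 16375232))) (l 4)))) (b (l 4) (l 4))) (b (b (b (b (a (a (c (a (l 16339432) (l 16350688)) (a (l 16353624) (l 16364848))) (c (l 16371880) (a (l 16378600) (l 16394016))))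 (a (c (a (l 16394240) (l 16395376)) (a (l 16282504) (l 16388296))) (c (a (c (a (l 16471152) (c (b (l 16532968) (l 16508632)) (l 16419936))) (a (l 16472496) (l 16457392))) (c (a (b (l 16563344) (l 16508248)) (l 16543232)) (a (l 16505936) (l 16538256)))) (a (a (l 16383728) (b (c (l 16493552) (l 16480568)) (l 16441072))) (b (l 16479168) (a (c (l 16524152) (l 16544024)) (c (l 16573624) (l 16593720)))))))) (a (a (a (c (b (l 16235216) (l 16321000)) (b (l 16295480) (l 16360024))) (c (l 16214232) (l 16292344))) (c (l 16325560) (l 16361904))) (a (c (a (l 16343568) (l 16377808)) (a (l 16380336) (l 16394672))) (a (b (b (c (l 16415688) (l 16537816)) (l 4)) (l 4)) (l 4))))) (a (a (b (a (l 16301880) (c (b (l 16247264) (l 16361344)) (b (a (l 16385288) (l 16395864)) (l 16393784)))) (c (l 16360720) (l 16388296))) (b (a (b (l 16324112) (c (l 16235528) (l 89354502519))) (c (l 16397448) (l 16433376))) (l 4))) (l 4))) (l 4)) (l 4))), by decide +kernel⟩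

def k1_mm_202_a : ∃ t, chk3 f_mm_202_a t 1 5 1 = true :=
  ⟨(l 4), by decide +kernel⟩

def k2_mm_202_a : ∃ t, chk3 f_mm_202_a t 1 3 1 = true :=
  ⟨(l 4), by decide +kernel⟩

theorem s3_mm_202_a : ∃ t, chk3 f_mm_202_a t 1 2 1 = true := ex3_b k0_mm_202_a k1_mm_202_a

theorem s4_mm_202_a : ∃ t, chk3 f_mm_202_a t 1 1 1 = true := ex3_b s3_mm_202_a k2_mm_202_a

theorem c_mm_202_a : CertFX 0 420477299 0 536870912 1046898278 26843546 true false false .pp 2 0 2
    ndF2q2a ndF3q0 pcF2 Cut.none Ext.none :=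
  certFX0 (fam := true) (s1 := false) (s2 := false) (a := 2) (b := 0) (c := 2) (cn := .pp) (n1 := ndF2q2a) (n2 := ndF3q0) (pc := pcF2) (cut := Cut.none) (xt := Ext.none) (P1 := 0) (W1 := 420477299) (P2 := 0) (W2 := 536870912) (P3 := 1046898278) (W3 := 26843546)
    rfl s4_mm_202_a

noncomputable def f_mm_202_b : ℕ → ℕ → ℕ → ℕ → Bool := onCell 1073741824 536870912 0 536870912 1046898278 26843546
    (rowFX 2 true false false .pp 2 0 2 (qsf 1239849684 370763052 0 536870912 2) ndF2q2b ndF3q0 pcF2 Cut.none Ext.none)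

def k0_mm_202_b : ∃ t, chk3 f_mm_202_b t 1 1 1 = true :=
  ⟨(a (a (l 1) (b (b (a (b (a (a (l 1) (b (b (c (l 16143376) (l 367251828695)) (l 1)) (l 1))) (b (b (c (a (l 16009984) (l 15895400)) (a (l 15945432) (l 15909232))) (c (a (l 16182040) (l 16106232)) (a (l 16272624) (l 16130336)))) (a (l 1) (c (l 549251165111) (l 421475942855))))) (l 1)) (b (a (b (c (b (l 15620336) (l 15856256)) (b (l 15479416) (l 15873344))) (b (c (l 160019248823) (l 15948768)) (c (a (l 16314648) (l 16246160)) (a (l 16375312) (l 16283696))))) (b (c (b (l 15358184) (l 15590632)) (b (a (l 15403376) (l 15307632)) (l 15599984))) (c (a (l 15802760) (l 15843312)) (b (l 15850352) (l 15956184))))) (a (a (l 1) (a (l 1) (a (l 1) (l 4)))) (l 4)))) (l 1)) (l 1))) (b (b (b (a (a (b (a (c (b (l 15174744) (l 15384248)) (b (l 15167168) (l 15387320))) (c (b (l 14988216) (l 15179776)) (b (l 14974336) (l 15176088)))) (a (b (a (l 15563440) (l 15404264)) (l 4)) (c (l 15279712) (l 15365576)))) (b (c (a (a (l 14812016) (l 14900208))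 (l 14900208)) (a (a (l 14923368) (l 14884312)) (l 14884312))) (l 4))) (l 4)) (l 4)) (l 4)) (l 4))), by decide +kernel⟩

theorem c_mm_202_b : CertFX 1239849684 370763052 0 536870912 1046898278 26843546 true false false .pp 2 0 2
    ndF2q2b ndF3q0 pcF2 Cut.none Ext.none :=
  certFX2 (fam := true) (s1 := false) (s2 := false) (a := 2) (b := 0) (c := 2) (cn := .pp) (n1 := ndF2q2b) (n2 := ndF3q0) (pc := pcF2) (cut := Cut.none) (xt := Ext.none) (P1 := 1239849684) (W1 := 370763052) (P2 := 0) (W2 := 536870912) (P3 := 1046898278) (W3 := 26843546)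
    rfl (fun _ => rfl) k0_mm_202_b

noncomputable def f_mm_203_a : ℕ → ℕ → ℕ → ℕ → Bool := onCell 0 420477299 1610612736 536870912 1046898278 26843546
    (rowFX 1 true false false .up 2 0 3 (qsf 0 420477299 0 536870912 3) ndF2q2a ndF3q0 pcF3 Cut.none Ext.none)

def k0_mm_203_a : ∃ t, chk3 f_mm_203_a t 1 1 1 = true :=
  ⟨(l 4), by decide +kernel⟩

theorem c_mm_203_a : CertFX 0 420477299 0 536870912 1046898278 26843546 true false false .up 2 0 3
    ndF2q2a ndF3q0 pcF3 Cut.none Ext.none :=
  certFX1 (fam := true) (s1 := false) (s2 := false) (a := 2) (b := 0) (c := 3) (cn := .up) (n1 := ndF2q2a) (n2 := ndF3q0) (pc := pcF3) (cut := Cut.none) (xt := Ext.none) (P1 := 0) (W1 := 420477299) (P2 := 0) (W2 := 536870912) (P3 := 1046898278) (W3 := 26843546)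
    rfl (fun _ => rfl) k0_mm_203_a

noncomputable def f_mm_203_b : ℕ → ℕ → ℕ → ℕ → Bool := onCell 1239849684 370763052 1610612736 536870912 1046898278 26843546
    (rowFX 1 true false false .up 2 0 3 (qsf 1239849684 370763052 0 536870912 3) ndF2q2b ndF3q0 pcF3 Cut.none Ext.none)

def k0_mm_203_b : ∃ t, chk3 f_mm_203_b t 1 1 1 = true :=
  ⟨(b (l 4) (l 4)), by decide +kernel⟩

theorem c_mm_203_b : CertFX 1239849684 370763052 0 536870912 1046898278 26843546 true false false .up 2 0 3
    ndF2q2b ndF3q0 pcF3 Cut.none Ext.none :=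
  certFX1 (fam := true) (s1 := false) (s2 := false) (a := 2) (b := 0) (c := 3) (cn := .up) (n1 := ndF2q2b) (n2 := ndF3q0) (pc := pcF3) (cut := Cut.none) (xt := Ext.none) (P1 := 1239849684) (W1 := 370763052) (P2 := 0) (W2 := 536870912) (P3 := 1046898278) (W3 := 26843546)
    rfl (fun _ => rfl) k0_mm_203_b

noncomputable def f_mm_213_a : ℕ → ℕ → ℕ → ℕ → Bool := onCell 0 420477299 536870912 536870912 1046898278 26843546
    (rowFX 0 true false false .pnn 2 1 3 (qsf 0 420477299 536870912 536870912 3) ndF2q2a ndF3q1 pcF3 Cut.none Ext.none)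

def k0_mm_213_a : ∃ t, chk3 f_mm_213_a t 1 1 1 = true :=
  ⟨(l 4), by decide +kernel⟩

theorem c_mm_213_a : CertFX 0 420477299 536870912 536870912 1046898278 26843546 true false false .pnn 2 1 3
    ndF2q2a ndF3q1 pcF3 Cut.none Ext.none :=
  certFX0 (fam := true) (s1 := false) (s2 := false) (a := 2) (b := 1) (c := 3) (cn := .pnn) (n1 := ndF2q2a) (n2 := ndF3q1) (pc := pcF3) (cut := Cut.none) (xt := Ext.none) (P1 := 0) (W1 := 420477299) (P2 := 536870912) (W2 := 536870912) (P3 := 1046898278) (W3 := 26843546)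
    rfl k0_mm_213_a

noncomputable def f_mm_213_b : ℕ → ℕ → ℕ → ℕ → Bool := onCell 1239849684 370763052 536870912 536870912 1046898278 26843546
    (rowFX 0 true false false .pnn 2 1 3 (qsf 1239849684 370763052 536870912 536870912 3) ndF2q2b ndF3q1 pcF3 Cut.none Ext.none)

def k0_mm_213_b : ∃ t, chk3 f_mm_213_b t 1 1 1 = true :=
  ⟨(l 4), by decide +kernel⟩

theorem c_mm_213_b : CertFX 1239849684 370763052 536870912 536870912 1046898278 26843546 true false false .pnn 2 1 3
    ndF2q2b ndF3q1 pcF3 Cut.none Ext.none :=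
  certFX0 (fam := true) (s1 := false) (s2 := false) (a := 2) (b := 1) (c := 3) (cn := .pnn) (n1 := ndF2q2b) (n2 := ndF3q1) (pc := pcF3) (cut := Cut.none) (xt := Ext.none) (P1 := 1239849684) (W1 := 370763052) (P2 := 536870912) (W2 := 536870912) (P3 := 1046898278) (W3 := 26843546)
    rfl k0_mm_213_b

noncomputable def f_mm_303 : ℕ → ℕ → ℕ → ℕ → Bool := onCell 1610612736 469762048 0 536870912 1046898278 26843546
    (rowFX 0 true false false .npn 3 0 3 (qsf 1610612736 469762048 0 536870912 3) ndF2q3 ndF3q0 pcF3 Cut.none Ext.none)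

def k0_mm_303 : ∃ t, chk3 f_mm_303 t 1 1 1 = true :=
  ⟨(b (l 4) (l 4)), by decide +kernel⟩

theorem c_mm_303 : CertFX 1610612736 469762048 0 536870912 1046898278 26843546 true false false .npn 3 0 3
    ndF2q3 ndF3q0 pcF3 Cut.none Ext.none :=
  certFX0 (fam := true) (s1 := false) (s2 := false) (a := 3) (b := 0) (c := 3) (cn := .npn) (n1 := ndF2q3) (n2 := ndF3q0) (pc := pcF3) (cut := Cut.none) (xt := Ext.none) (P1 := 1610612736) (W1 := 469762048) (P2 := 0) (W2 := 536870912) (P3 := 1046898278) (W3 := 26843546)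
    rfl k0_mm_303

noncomputable def f_mm_313 : ℕ → ℕ → ℕ → ℕ → Bool := onCell 1610612736 469762048 536870912 536870912 1046898278 26843546
    (rowFX 0 true false false .dn 3 1 3 (qsf 1610612736 469762048 536870912 536870912 3) ndF2q3 ndF3q1 pcF3 Cut.none Ext.none)

def k0_mm_313 : ∃ t, chk3 f_mm_313 t 1 1 1 = true :=
  ⟨(l 4), by decide +kernel⟩

theorem c_mm_313 : CertFX 1610612736 469762048 536870912 536870912 1046898278 26843546 true false false .dn 3 1 3
    ndF2q3 ndF3q1 pcF3 Cut.none Ext.none :=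
  certFX0 (fam := true) (s1 := false) (s2 := false) (a := 3) (b := 1) (c := 3) (cn := .dn) (n1 := ndF2q3) (n2 := ndF3q1) (pc := pcF3) (cut := Cut.none) (xt := Ext.none) (P1 := 1610612736) (W1 := 469762048) (P2 := 536870912) (W2 := 536870912) (P3 := 1046898278) (W3 := 26843546)
    rfl k0_mm_313

end Pool.Agent.Strip051.G.IE1.Tab.C.FA23

namespace Pool.Agent.Strip051.G.IE1.Tab.C.FA24

open Pool.Agent.Strip051.PB Pool.Agent.Strip051.PB.T
open Pool.Agent.Strip051.G.IE1.Tab

noncomputable def f_pp_001 : ℕ → ℕ → ℕ → ℕ → Bool := onCell 67108864 469762048 0 67108864 1046898278 26843546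
    (rowFX 0 true true true .up 0 0 1 (qsf 67108864 469762048 0 67108864 1) ndF2q0 ndF4q0 pcF1 Cut.none Ext.none)

def k0_pp_001 : ∃ t, chk3 f_pp_001 t 1 1 1 = true :=
  ⟨(l 4), by decide +kernel⟩

theorem c_pp_001 : CertFX 67108864 469762048 0 67108864 1046898278 26843546 true true true .up 0 0 1
    ndF2q0 ndF4q0 pcF1 Cut.none Ext.none :=
  certFX0 (fam := true) (s1 := true) (s2 := true) (a := 0) (b := 0) (c := 1) (cn := .up) (n1 := ndF2q0) (n2 := ndF4q0) (pc := pcF1) (cut := Cut.none) (xt := Ext.none) (P1 := 67108864) (W1 := 469762048) (P2 := 0) (W2 := 67108864) (P3 := 1046898278) (W3 := 26843546)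
    rfl k0_pp_001

noncomputable def f_pp_101 : ℕ → ℕ → ℕ → ℕ → Bool := onCell 536870912 536870912 0 67108864 1046898278 26843546
    (rowFX 0 true true true .npn 1 0 1 (qsf 536870912 536870912 0 67108864 1) ndF2q1 ndF4q0 pcF1 Cut.none Ext.none)

def k0_pp_101 : ∃ t, chk3 f_pp_101 t 1 1 1 = true :=
  ⟨(l 4), by decide +kernel⟩

theorem c_pp_101 : CertFX 536870912 536870912 0 67108864 1046898278 26843546 true true true .npn 1 0 1
    ndF2q1 ndF4q0 pcF1 Cut.none Ext.none :=
  certFX0 (fam := true) (s1 := true) (s2 := true) (a := 1) (b := 0) (c := 1) (cn := .npn) (n1 := ndF2q1) (n2 := ndF4q0) (pc := pcF1) (cut := Cut.none) (xt := Ext.none) (P1 := 536870912) (W1 := 536870912) (P2 := 0) (W2 := 67108864) (P3 := 1046898278) (W3 := 26843546)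
    rfl k0_pp_101

noncomputable def f_pp_102 : ℕ → ℕ → ℕ → ℕ → Bool := onCell 536870912 536870912 0 67108864 1046898278 26843546
    (rowFX 0 true true true .npp 1 0 2 (qsf 536870912 536870912 0 67108864 2) ndF2q1 ndF4q0 pcF2 Cut.none Ext.none)

def k0_pp_102 : ∃ t, chk3 f_pp_102 t 1 1 1 = true :=
  ⟨(l 4), by decide +kernel⟩

theorem c_pp_102 : CertFX 536870912 536870912 0 67108864 1046898278 26843546 true true true .npp 1 0 2
    ndF2q1 ndF4q0 pcF2 Cut.none Ext.none :=
  certFX0 (fam := true) (s1 := true) (s2 := true) (a := 1) (b := 0) (c := 2) (cn := .npp) (n1 := ndF2q1) (n2 := ndF4q0) (pc := pcF2) (cut := Cut.none) (xt := Ext.none) (P1 := 536870912) (W1 := 536870912) (P2 := 0) (W2 := 67108864) (P3 := 1046898278) (W3 := 26843546)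
    rfl k0_pp_102

noncomputable def f_pp_202_a : ℕ → ℕ → ℕ → ℕ → Bool := onCell 0 420477299 0 67108864 1046898278 26843546
    (rowFX 0 true true true .pp 2 0 2 (qsf 0 420477299 0 67108864 2) ndF2q2a ndF4q0 pcF2 Cut.none Ext.none)

def k0_pp_202_a : ∃ t, chk3 f_pp_202_a t 1 1 1 = true :=
  ⟨(l 5), by decide +kernel⟩

theorem c_pp_202_a : CertFX 0 420477299 0 67108864 1046898278 26843546 true true true .pp 2 0 2
    ndF2q2a ndF4q0 pcF2 Cut.none Ext.none :=
  certFX0 (fam := true) (s1 := true) (s2 := true) (a := 2) (b := 0) (c := 2) (cn := .pp) (n1 := ndF2q2a) (n2 := ndF4q0) (pc := pcF2) (cut := Cut.none) (xt := Ext.none) (P1 := 0) (W1 := 420477299) (P2 := 0) (W2 := 67108864) (P3 := 1046898278) (W3 := 26843546)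
    rfl k0_pp_202_a

noncomputable def f_pp_202_b : ℕ → ℕ → ℕ → ℕ → Bool := onCell 1239849684 370763052 0 67108864 1046898278 26843546
    (rowFX 0 true true true .pp 2 0 2 (qsf 1239849684 370763052 0 67108864 2) ndF2q2b ndF4q0 pcF2 Cut.none Ext.none)

def k0_pp_202_b : ∃ t, chk3 f_pp_202_b t 1 1 1 = true :=
  ⟨(l 5), by decide +kernel⟩

theorem c_pp_202_b : CertFX 1239849684 370763052 0 67108864 1046898278 26843546 true true true .pp 2 0 2
    ndF2q2b ndF4q0 pcF2 Cut.none Ext.none :=
  certFX0 (fam := true) (s1 := true) (s2 := true) (a := 2) (b := 0) (c := 2) (cn := .pp) (n1 := ndF2q2b) (n2 := ndF4q0) (pc := pcF2) (cut := Cut.none) (xt := Ext.none) (P1 := 1239849684) (W1 := 370763052) (P2 := 0) (W2 := 67108864) (P3 := 1046898278) (W3 := 26843546)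
    rfl k0_pp_202_b

noncomputable def f_pp_203_a : ℕ → ℕ → ℕ → ℕ → Bool := onCell 0 420477299 0 67108864 1046898278 26843546
    (rowFX 0 true true true .up 2 0 3 (qsf 0 420477299 0 67108864 3) ndF2q2a ndF4q0 pcF3 Cut.none Ext.none)

def k0_pp_203_a : ∃ t, chk3 f_pp_203_a t 1 1 1 = true :=
  ⟨(l 1), by decide +kernel⟩

theorem c_pp_203_a : CertFX 0 420477299 0 67108864 1046898278 26843546 true true true .up 2 0 3
    ndF2q2a ndF4q0 pcF3 Cut.none Ext.none :=
  certFX0 (fam := true) (s1 := true) (s2 := true) (a := 2) (b := 0) (c := 3) (cn := .up) (n1 := ndF2q2a) (n2 := ndF4q0) (pc := pcF3) (cut := Cut.none) (xt := Ext.none) (P1 := 0) (W1 := 420477299) (P2 := 0) (W2 := 67108864) (P3 := 1046898278) (W3 := 26843546)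
    rfl k0_pp_203_a

noncomputable def f_pp_203_b : ℕ → ℕ → ℕ → ℕ → Bool := onCell 1239849684 370763052 0 67108864 1046898278 26843546
    (rowFX 0 true true true .up 2 0 3 (qsf 1239849684 370763052 0 67108864 3) ndF2q2b ndF4q0 pcF3 Cut.none Ext.none)

def k0_pp_203_b : ∃ t, chk3 f_pp_203_b t 1 1 1 = true :=
  ⟨(l 5), by decide +kernel⟩

theorem c_pp_203_b : CertFX 1239849684 370763052 0 67108864 1046898278 26843546 true true true .up 2 0 3
    ndF2q2b ndF4q0 pcF3 Cut.none Ext.none :=
  certFX0 (fam := true) (s1 := true) (s2 := true) (a := 2) (b := 0) (c := 3) (cn := .up) (n1 := ndF2q2b) (n2 := ndF4q0) (pc := pcF3) (cut := Cut.none) (xt := Ext.none) (P1 := 1239849684) (W1 := 370763052) (P2 := 0) (W2 := 67108864) (P3 := 1046898278) (W3 := 26843546)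
    rfl k0_pp_203_b

noncomputable def f_pp_303 : ℕ → ℕ → ℕ → ℕ → Bool := onCell 1610612736 469762048 0 67108864 1046898278 26843546
    (rowFX 0 true true true .npn 3 0 3 (qsf 1610612736 469762048 0 67108864 3) ndF2q3 ndF4q0 pcF3 Cut.none Ext.none)

def k0_pp_303 : ∃ t, chk3 f_pp_303 t 1 1 1 = true :=
  ⟨(l 4), by decide +kernel⟩

theorem c_pp_303 : CertFX 1610612736 469762048 0 67108864 1046898278 26843546 true true true .npn 3 0 3
    ndF2q3 ndF4q0 pcF3 Cut.none Ext.none :=
  certFX0 (fam := true) (s1 := true) (s2 := true) (a := 3) (b := 0) (c := 3) (cn := .npn) (n1 := ndF2q3) (n2 := ndF4q0) (pc := pcF3) (cut := Cut.none) (xt := Ext.none) (P1 := 1610612736) (W1 := 469762048) (P2 := 0) (W2 := 67108864) (P3 := 1046898278) (W3 := 26843546)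
    rfl k0_pp_303

noncomputable def f_pm_001 : ℕ → ℕ → ℕ → ℕ → Bool := onCell 67108864 469762048 0 67108864 1046898278 26843546
    (rowFX 0 true true false .up 0 0 1 (qsf 67108864 469762048 0 67108864 1) ndF2q0 ndF4q0 pcF1 Cut.none Ext.none)

def k0_pm_001 : ∃ t, chk3 f_pm_001 t 1 1 1 = true :=
  ⟨(l 3), by decide +kernel⟩

theorem c_pm_001 : CertFX 67108864 469762048 0 67108864 1046898278 26843546 true true false .up 0 0 1
    ndF2q0 ndF4q0 pcF1 Cut.none Ext.none :=
  certFX0 (fam := true) (s1 := true) (s2 := false) (a := 0) (b := 0) (c := 1) (cn := .up) (n1 := ndF2q0) (n2 := ndF4q0) (pc := pcF1) (cut := Cut.none) (xt := Ext.none) (P1 := 67108864) (W1 := 469762048) (P2 := 0) (W2 := 67108864) (P3 := 1046898278) (W3 := 26843546)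
    rfl k0_pm_001

noncomputable def f_pm_101 : ℕ → ℕ → ℕ → ℕ → Bool := onCell 536870912 536870912 0 67108864 1046898278 26843546
    (rowFX 0 true true false .npn 1 0 1 (qsf 536870912 536870912 0 67108864 1) ndF2q1 ndF4q0 pcF1 Cut.none Ext.none)

def k0_pm_101 : ∃ t, chk3 f_pm_101 t 1 1 1 = true :=
  ⟨(l 3), by decide +kernel⟩

theorem c_pm_101 : CertFX 536870912 536870912 0 67108864 1046898278 26843546 true true false .npn 1 0 1
    ndF2q1 ndF4q0 pcF1 Cut.none Ext.none :=
  certFX0 (fam := true) (s1 := true) (s2 := false) (a := 1) (b := 0) (c := 1) (cn := .npn) (n1 := ndF2q1) (n2 := ndF4q0) (pc := pcF1) (cut := Cut.none) (xt := Ext.none) (P1 := 536870912) (W1 := 536870912) (P2 := 0) (W2 := 67108864) (P3 := 1046898278) (W3 := 26843546)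
    rfl k0_pm_101

noncomputable def f_pm_102 : ℕ → ℕ → ℕ → ℕ → Bool := onCell 536870912 536870912 0 67108864 1046898278 26843546
    (rowFX 0 true true false .npp 1 0 2 (qsf 536870912 536870912 0 67108864 2) ndF2q1 ndF4q0 pcF2 Cut.none Ext.none)

def k0_pm_102 : ∃ t, chk3 f_pm_102 t 1 1 1 = true :=
  ⟨(l 3), by decide +kernel⟩

theorem c_pm_102 : CertFX 536870912 536870912 0 67108864 1046898278 26843546 true true false .npp 1 0 2
    ndF2q1 ndF4q0 pcF2 Cut.none Ext.none :=
  certFX0 (fam := true) (s1 := true) (s2 := false) (a := 1) (b := 0) (c := 2) (cn := .npp) (n1 := ndF2q1) (n2 := ndF4q0) (pc := pcF2) (cut := Cut.none) (xt := Ext.none) (P1 := 536870912) (W1 := 536870912) (P2 := 0) (W2 := 67108864) (P3 := 1046898278) (W3 := 26843546)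
    rfl k0_pm_102

end Pool.Agent.Strip051.G.IE1.Tab.C.FA24

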