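import Pool.Agent.Strip051.G.IE1.Tab

/-! # Certificates F18 (generated) -/

set_option linter.all false
set_option maxRecDepth 100000

namespace Pool.Agent.Strip051.G.IE1.Tab.C.FA24

open Pool.Agent.Strip051.PB Pool.Agent.Strip051.PB.T
open Pool.Agent.Strip051.G.IE1.Tab

noncomputable def f_pm_202_a : ℕ → ℕ → ℕ → ℕ → Bool := onCell 0 420477299 0 67108864 1046898278 26843546
    (rowFX 0 true true false .pp 2 0 2 (qsf 0 420477299 0 67108864 2) ndF2q2a ndF4q0 pcF2 Cut.none Ext.none)

def k0_pm_202_a : ∃ t, chk3 f_pm_202_a t 2 1 1 = true :=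
  ⟨(a (b (b (c (b (a (l 16220688) (l 16300656)) (a (l 15855752) (c (l 16147120) (l 16099944)))) (b (c (b (l 16234936) (l 16069176)) (b (a (l 16214856) (b (l 16320296) (l 16291048))) (l 16126832))) (a (l 16050144) (l 16045248)))) (c (a (l 15727112) (b (l 16013992) (l 15896944))) (l 15712064))) (b (c (a (l 15734632) (l 15797216)) (l 15759040)) (c (a (l 15612592) (l 15667704)) (l 15590376)))) (b (b (a (c (b (l 16442016) (b (l 16283072) (l 16169560))) (b (c (l 16239856) (a (l 16141704) (l 16186920))) (l 16105288))) (c (b (a (b (l 16275808) (l 16319992)) (b (l 16216144) (l 16184256))) (a (l 16235464) (l 16054024))) (b (a (b (c (l 16263776) (b (l 16224224) (l 16268312))) (l 16157728)) (c (b (l 16202552) (l 16108152)) (b (c (b (l 16218640) (l 16185232)) (b (l 16208608) (l 16155744))) (c (l 16200688) (a (l 16212896) (l 16160680)))))) (c (l 16259400) (l 16287240))))) (c (a (b (l 16081704) (l 16063016)) (b (l 16244384) (l 16237320))) (a (l 16109064) (l 16214728)))) (b (a (l 15716808)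 (c (l 16093096) (l 16120784))) (a (c (l 15811520) (l 15764952)) (c (l 15953736) (l 16021432)))))), by decide +kernel⟩

def k1_pm_202_a : ∃ t, chk3 f_pm_202_a t 6 4 1 = true :=
  ⟨(a (c (b (a (l 16186424) (c (l 16132840) (b (l 16185448) (l 16145296)))) (a (b (l 15981248) (l 16036760)) (b (l 16093832) (l 16046248)))) (b (c (a (b (l 16109688) (c (l 16142056) (l 16158336))) (b (c (l 16282744) (l 16311072)) (c (l 16180888) (l 16188256)))) (a (b (c (l 16148800) (l 16115936)) (c (l 16171664) (l 16157472))) (b (c (l 16358688) (l 16359952)) (c (l 16242336) (l 16278448))))) (b (a (c (l 16134816) (a (b (l 16115080) (l 16124000)) (c (l 16095584) (l 16098184)))) (c (c (l 16132544) (l 16138472)) (c (l 16134248) (l 16153136)))) (a (l 16096528) (c (a (l 16063256) (l 16067472)) (a (c (l 16036352) (l 16044344)) (l 16059824))))))) (c (c (b (a (c (l 16165240) (l 16086640)) (b (c (l 16320696) (l 16396440)) (a (l 16229168) (l 16265640)))) (a (l 16079520) (b (c (l 16128096) (l 16058704)) (l 15956480))))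 (c (b (a (l 16097256) (l 16312248)) (a (l 16107320) (b (l 16173920) (l 16127448)))) (b (b (l 16342096) (a (l 16218544) (l 16324224))) (a (b (l 16148760) (l 16105624)) (b (l 16225976) (l 16157960)))))) (b (c (b (l 16318088) (a (l 16116032) (l 16336192))) (b (c (l 16358896) (b (l 16321984) (l 16499432))) (c (l 16353120) (l 16407072)))) (c (a (c (b (l 16184112) (l 16105360)) (l 16029456)) (c (l 16163720) (l 16260032))) (a (c (l 16126336) (l 16208280)) (b (l 16343240) (l 16240280))))))), by decide +kernel⟩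

def k2_pm_202_a : ∃ t, chk3 f_pm_202_a t 6 5 1 = true :=
  ⟨(a (c (b (a (l 16229680) (b (l 15970280) (l 16130328))) (l 16176656)) (a (l 16184464) (b (c (l 16046440) (b (a (l 16046440) (c (l 15981096) (l 15990344))) (l 16064144))) (l 16181704)))) (c (a (b (b (l 16031904) (l 15995720)) (l 15851728)) (b (c (l 16030664) (c (l 16040552) (l 16028768))) (l 15904640))) (a (b (c (a (b (l 15995968) (l 15937240)) (l 15955312)) (a (b (l 15996424) (c (l 15925544) (l 15934280))) (c (l 15971552) (l 15994680)))) (c (l 15955144) (a (l 15995032) (b (c (l 15867280) (l 15874792)) (l 15898416))))) (b (c (c (l 16014320) (l 15971040)) (c (l 16034256) (l 16074272))) (c (a (b (l 15857872) (l 15807512)) (l 15838648)) (a (b (l 15870856) (c (l 15804664) (l 15811168))) (c (l 15844880) (l 15865328)))))))), by decide +kernel⟩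

def k3_pm_202_a : ∃ t, chk3 f_pm_202_a t 6 3 1 = true :=
  ⟨(a (b (c (l 16274144) (a (l 16440320) (l 16296112))) (c (a (l 16246240) (l 16411064)) (l 16179544))) (a (b (c (l 16166216) (l 16154928)) (c (l 16309040) (l 16355112))) (b (b (c (l 15748384) (c (l 15826168) (a (l 15872632) (b (c (l 15737576) (l 15743264)) (l 15760496))))) (l 15942680)) (c (l 16109696) (l 16167432))))), by decide +kernel⟩

def k4_pm_202_a : ∃ t, chk3 f_pm_202_a t 14 2 1 = true :=
  ⟨(b (c (b (a (c (b (l 16347288) (l 16269304)) (c (l 16325096) (l 16297600))) (c (l 16318496) (a (l 16331200) (l 16343280)))) (a (c (b (c (l 16112928) (l 16234176)) (c (l 15966864) (l 16157952))) (c (l 16144104) (l 16215592))) (c (b (b (l 16336520) (l 16214832)) (l 16177296)) (b (l 16322696) (c (l 16375120) (l 16426296)))))) (b (c (a (b (l 16372168) (l 16281376)) (b (l 16339008) (c (l 16499000) (l 16423528)))) (a (b (c (l 16310000) (b (l 16281080) (l 16419344))) (l 16335032)) (b (c (l 16301400) (l 16198648)) (c (l 16419624)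 (l 16411640))))) (c (a (b (l 16398048) (l 16306912)) (b (l 16443008) (l 16461352))) (a (l 16271752) (l 16315872))))) (c (c (a (b (c (a (l 16045208) (l 16082280)) (b (l 16114856) (l 16057296))) (l 15941640)) (b (c (b (l 16190216) (l 16144032)) (l 15950944)) (c (l 16014864) (l 16017464)))) (b (a (b (c (l 16140136) (l 16153792)) (l 15960000)) (l 16045512)) (a (c (l 15907248) (l 15886808)) (c (l 16002032) (l 15993896))))) (c (a (b (l 15919504) (c (l 15876968) (l 15866288))) (b (l 16230168) (l 15911752))) (a (b (l 16176496) (a (l 15876128) (l 15971360))) (c (l 16069960) (l 16068200)))))), by decide +kernel⟩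

def k5_pm_202_a : ∃ t, chk3 f_pm_202_a t 14 3 1 = true :=
  ⟨(b (c (a (b (l 15759424) (a (l 15753952) (l 15660712))) (b (c (l 15841040) (c (l 15803944) (l 15788864))) (l 15654328))) (a (b (c (a (b (l 15725352) (l 15670304)) (l 15721968)) (a (b (l 15741016) (c (l 15666704) (l 15671784))) (c (l 15731312) (l 15750320)))) (a (l 15719872) (c (l 15626432) (b (c (l 15610160) (l 15614920)) (l 15611536))))) (c (b (c (l 15791896) (l 15808592)) (a (l 15460680) (l 15647120))) (b (a (l 15810464) (l 15896968)) (a (b (l 15652896) (c (l 15563624) (l 15568320))) (l 15479288)))))) (c (a (l 15880968) (b (a (l 15610504) (l 15542560)) (l 15658296))) (a (l 15865784) (b (a (l 15584752) (b (c (l 15525136) (l 15527040)) (l 15491512))) (l 15641592))))), by decide +kernel⟩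

def k6_pm_202_a : ∃ t, chk3 f_pm_202_a t 15 2 1 = true :=
  ⟨(b (c (c (b (a (l 16311408) (l 16266568)) (a (b (l 16375384) (c (l 16408656) (l 16468664))) (c (l 16350416) (l 16424040)))) (c (b (a (l 16353360) (l 16334584)) (a (l 16474784) (l 16452512))) (a (b (l 16279576) (l 16455360)) (b (b (l 16308056) (l 16389976)) (l 16366896))))) (b (c (b (a (l 16296112) (l 16164336)) (a (c (l 16404840) (l 16374304)) (c (l 16347160) (l 16299184)))) (b (a (c (l 16200368) (b (l 16161152) (l 16269168))) (c (b (l 16199680) (l 16245808)) (b (c (l 16175400) (b (l 16148312) (l 16168544))) (l 16207560)))) (a (l 16251872) (c (l 16301928) (l 16279728))))) (c (a (b (l 16410832) (l 16590256)) (c (l 16340600) (l 16362360))) (a (l 16330952) (l 16270048))))) (c (a (b (c (b (a (l 16342808) (l 16422312)) (l 16140464)) (b (l 16380536) (l 16347192))) (c (a (b (l 16163112) (l 16053272)) (l 15949904)) (l 16085056))) (b (c (c (l 16461144) (l 16462064)) (l 16409216)) (c (a (l 16226104) (l 16350272)) (l 16193576))))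 (a (b (c (b (l 16469664) (l 16327656)) (l 16258056)) (c (l 16147840) (l 16177544))) (a (b (l 16339656) (b (l 16296696) (l 16224480))) (c (l 16272256) (l 16348360)))))), by decide +kernel⟩

def k7_pm_202_a : ∃ t, chk3 f_pm_202_a t 15 3 1 = true :=
  ⟨(c (b (b (a (c (c (l 15945800) (l 15924456)) (c (l 15908264) (l 15905968))) (c (a (l 16001704) (l 16054736)) (l 15894168))) (c (a (l 15744432) (c (l 15854432) (l 15832456))) (a (c (l 15712920) (l 15711264)) (c (l 15822672) (l 15834760))))) (a (b (l 15563616) (a (l 15471424) (l 15433880))) (b (c (l 15657736) (l 15413064)) (l 15481688)))) (b (a (c (b (l 15943272) (c (l 15721360) (l 15737504))) (b (l 16024832) (l 15568432))) (c (b (l 16077304) (l 15878984)) (b (l 16086976) (l 15956376)))) (a (b (c (c (l 15549088) (l 15552632)) (c (l 15559520) (l 15509048))) (a (l 15448648) (c (l 15415472) (b (l 15448336) (l 15372272))))) (c (b (a (l 15627112) (l 15693464)) (c (l 15475424) (l 15478528))) (b (l 15624976) (c (l 15485392) (l 15498128))))))),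 by decide +kernel⟩

theorem s8_pm_202_a : ∃ t, chk3 f_pm_202_a t 15 1 1 = true := ex3_b k6_pm_202_a k7_pm_202_a

theorem s9_pm_202_a : ∃ t, chk3 f_pm_202_a t 14 1 1 = true := ex3_b k4_pm_202_a k5_pm_202_a

theorem s10_pm_202_a : ∃ t, chk3 f_pm_202_a t 7 1 1 = true := ex3_a s9_pm_202_a s8_pm_202_a

theorem s11_pm_202_a : ∃ t, chk3 f_pm_202_a t 6 2 1 = true := ex3_b k1_pm_202_a k2_pm_202_a

theorem s12_pm_202_a : ∃ t, chk3 f_pm_202_a t 6 1 1 = true := ex3_b s11_pm_202_a k3_pm_202_a

theorem s13_pm_202_a : ∃ t, chk3 f_pm_202_a t 3 1 1 = true := ex3_a s12_pm_202_a s10_pm_202_a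

theorem s14_pm_202_a : ∃ t, chk3 f_pm_202_a t 1 1 1 = true := ex3_a k0_pm_202_a s13_pm_202_a

theorem c_pm_202_a : CertFX 0 420477299 0 67108864 1046898278 26843546 true true false .pp 2 0 2
    ndF2q2a ndF4q0 pcF2 Cut.none Ext.none :=
  certFX0 (fam := true) (s1 := true) (s2 := false) (a := 2) (b := 0) (c := 2) (cn := .pp) (n1 := ndF2q2a) (n2 := ndF4q0) (pc := pcF2) (cut := Cut.none) (xt := Ext.none) (P1 := 0) (W1 := 420477299) (P2 := 0) (W2 := 67108864) (P3 := 1046898278) (W3 := 26843546)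
    rfl s14_pm_202_a

noncomputable def f_pm_202_b : ℕ → ℕ → ℕ → ℕ → Bool := onCell 1073741824 536870912 0 67108864 1046898278 26843546
    (rowFX 2 true true false .pp 2 0 2 (qsf 1239849684 370763052 0 67108864 2) ndF2q2b ndF4q0 pcF2 Cut.none Ext.none)

def k0_pm_202_b : ∃ t, chk3 f_pm_202_b t 1 1 1 = true :=
  ⟨(a (a (l 1) (b (a (a (a (l 1) (b (b (c (l 16245256) (b (a (l 1) (c (l 16331072) (l 16212080))) (l 1))) (l 1)) (l 1))) (b (c (b (l 381746466455) (a (a (b (l 16183496) (l 1)) (l 394631726519)) (c (l 15814368) (l 15759192)))) (a (b (c (l 15896640) (l 519185592231)) (l 361345829255)) (b (c (l 15666952) (l 15619728)) (l 15713368)))) (a (a (l 1) (a (l 1) (c (l 166461676887) (l 16114112)))) (c (b (l 15802928) (l 15837640)) (l 15776504))))) (a (b (c (b (l 15194024) (c (l 15310688) (l 15244800))) (b (c (l 15138648) (l 14975520)) (l 15182760))) (c (b (l 15149536) (l 15363560)) (l 15324720))) (b (c (b (l 14855280) (c (l 14982320) (l 14909104))) (b (c (l 14788496) (l 14743512))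 (l 14835936))) (c (c (l 15012096) (l 15000256)) (l 14984960))))) (b (a (a (l 1) (a (l 1) (c (l 84857287239) (l 15990512)))) (a (c (a (l 304973572423) (l 15370728)) (l 420400448007)) (c (l 15208024) (l 15173888)))) (a (l 1) (a (a (b (l 180956724807) (l 1)) (b (l 15501992) (c (l 15634072) (l 15572592)))) (c (c (l 15423912) (l 15404848)) (l 15348752))))))) (a (b (c (b (a (b (l 14855728) (l 14945488)) (l 14893672)) (a (l 15024344) (l 15024352))) (b (c (b (l 14726032) (l 14857264)) (b (a (l 14743968) (l 14743968)) (l 14837368))) (a (l 14994688) (l 14994696)))) (a (c (b (l 15227488) (c (l 15452288) (l 15433680))) (l 15284720)) (c (l 15331768) (l 15289320)))) (b (b (c (l 14893672) (b (c (l 14788952) (l 14743968)) (l 14838776))) (c (l 15024352) (l 14994696))) (c (l 15331768) (l 15289320))))), by decide +kernel⟩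

theorem c_pm_202_b : CertFX 1239849684 370763052 0 67108864 1046898278 26843546 true true false .pp 2 0 2
    ndF2q2b ndF4q0 pcF2 Cut.none Ext.none :=
  certFX2 (fam := true) (s1 := true) (s2 := false) (a := 2) (b := 0) (c := 2) (cn := .pp) (n1 := ndF2q2b) (n2 := ndF4q0) (pc := pcF2) (cut := Cut.none) (xt := Ext.none) (P1 := 1239849684) (W1 := 370763052) (P2 := 0) (W2 := 67108864) (P3 := 1046898278) (W3 := 26843546)
    rfl (fun _ => rfl) k0_pm_202_b

noncomputable def f_pm_203_a : ℕ → ℕ → ℕ → ℕ → Bool := onCell 0 420477299 0 67108864 1046898278 26843546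
    (rowFX 0 true true false .up 2 0 3 (qsf 0 420477299 0 67108864 3) ndF2q2a ndF4q0 pcF3 Cut.none Ext.none)

def k0_pm_203_a : ∃ t, chk3 f_pm_203_a t 1 1 1 = true :=
  ⟨(l 1), by decide +kernel⟩

theorem c_pm_203_a : CertFX 0 420477299 0 67108864 1046898278 26843546 true true false .up 2 0 3
    ndF2q2a ndF4q0 pcF3 Cut.none Ext.none :=
  certFX0 (fam := true) (s1 := true) (s2 := false) (a := 2) (b := 0) (c := 3) (cn := .up) (n1 := ndF2q2a) (n2 := ndF4q0) (pc := pcF3) (cut := Cut.none) (xt := Ext.none) (P1 := 0) (W1 := 420477299) (P2 := 0) (W2 := 67108864) (P3 := 1046898278) (W3 := 26843546)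
    rfl k0_pm_203_a

noncomputable def f_pm_203_b : ℕ → ℕ → ℕ → ℕ → Bool := onCell 1239849684 370763052 0 67108864 1046898278 26843546
    (rowFX 0 true true false .up 2 0 3 (qsf 1239849684 370763052 0 67108864 3) ndF2q2b ndF4q0 pcF3 Cut.none Ext.none)

def k0_pm_203_b : ∃ t, chk3 f_pm_203_b t 1 1 1 = true :=
  ⟨(a (l 1) (a (l 1) (b (b (c (l 14893672) (l 913783402855)) (l 68212081143)) (c (l 15331768) (l 15289320))))), by decide +kernel⟩

theorem c_pm_203_b : CertFX 1239849684 370763052 0 67108864 1046898278 26843546 true true false .up 2 0 3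
    ndF2q2b ndF4q0 pcF3 Cut.none Ext.none :=
  certFX0 (fam := true) (s1 := true) (s2 := false) (a := 2) (b := 0) (c := 3) (cn := .up) (n1 := ndF2q2b) (n2 := ndF4q0) (pc := pcF3) (cut := Cut.none) (xt := Ext.none) (P1 := 1239849684) (W1 := 370763052) (P2 := 0) (W2 := 67108864) (P3 := 1046898278) (W3 := 26843546)
    rfl k0_pm_203_b

noncomputable def f_pm_303 : ℕ → ℕ → ℕ → ℕ → Bool := onCell 1610612736 536870912 0 67108864 1046898278 26843546
    (rowFX 2 true true false .npn 3 0 3 (qsf 1610612736 469762048 0 67108864 3) ndF2q3 ndF4q0 pcF3 Cut.none Ext.none)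

def k0_pm_303 : ∃ t, chk3 f_pm_303 t 1 1 1 = true :=
  ⟨(a (a (a (b (b (c (l 14893672) (l 14806968)) (l 14989320)) (c (l 15331768) (l 15289320))) (b (c (b (l 14893672) (l 15024352)) (c (l 14874816) (l 14860192))) (c (l 15331768) (l 15289320)))) (c (a (b (b (l 14893672) (l 15024352)) (l 15331768)) (b (a (l 14718464) (b (l 14893672) (l 15024352))) (a (l 15331768) (l 15331768)))) (a (b (c (l 14748992) (l 14776304)) (l 15289320)) (b (c (b (l 14828616) (l 15011816)) (a (l 14881168) (l 14881168))) (a (l 15289320) (l 15289320)))))) (a (a (l 4) (l 4)) (l 4))), by decide +kernel⟩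

theorem c_pm_303 : CertFX 1610612736 469762048 0 67108864 1046898278 26843546 true true false .npn 3 0 3
    ndF2q3 ndF4q0 pcF3 Cut.none Ext.none :=
  certFX2 (fam := true) (s1 := true) (s2 := false) (a := 3) (b := 0) (c := 3) (cn := .npn) (n1 := ndF2q3) (n2 := ndF4q0) (pc := pcF3) (cut := Cut.none) (xt := Ext.none) (P1 := 1610612736) (W1 := 469762048) (P2 := 0) (W2 := 67108864) (P3 := 1046898278) (W3 := 26843546)
    rfl (fun _ => rfl) k0_pm_303

noncomputable def f_mm_001 : ℕ → ℕ → ℕ → ℕ → Bool := onCell 67108864 469762048 0 67108864 1046898278 26843546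
    (rowFX 0 true false false .up 0 0 1 (qsf 67108864 469762048 0 67108864 1) ndF2q0 ndF4q0 pcF1 Cut.none Ext.none)

def k0_mm_001 : ∃ t, chk3 f_mm_001 t 1 1 1 = true :=
  ⟨(l 4), by decide +kernel⟩

theorem c_mm_001 : CertFX 67108864 469762048 0 67108864 1046898278 26843546 true false false .up 0 0 1
    ndF2q0 ndF4q0 pcF1 Cut.none Ext.none :=
  certFX0 (fam := true) (s1 := false) (s2 := false) (a := 0) (b := 0) (c := 1) (cn := .up) (n1 := ndF2q0) (n2 := ndF4q0) (pc := pcF1) (cut := Cut.none) (xt := Ext.none) (P1 := 67108864) (W1 := 469762048) (P2 := 0) (W2 := 67108864) (P3 := 1046898278) (W3 := 26843546)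
    rfl k0_mm_001

noncomputable def f_mm_101 : ℕ → ℕ → ℕ → ℕ → Bool := onCell 536870912 536870912 0 67108864 1046898278 26843546
    (rowFX 0 true false false .npn 1 0 1 (qsf 536870912 536870912 0 67108864 1) ndF2q1 ndF4q0 pcF1 Cut.none Ext.none)

def k0_mm_101 : ∃ t, chk3 f_mm_101 t 1 1 1 = true :=
  ⟨(l 4), by decide +kernel⟩

theorem c_mm_101 : CertFX 536870912 536870912 0 67108864 1046898278 26843546 true false false .npn 1 0 1
    ndF2q1 ndF4q0 pcF1 Cut.none Ext.none :=
  certFX0 (fam := true) (s1 := false) (s2 := false) (a := 1) (b := 0) (c := 1) (cn := .npn) (n1 := ndF2q1) (n2 := ndF4q0) (pc := pcF1) (cut := Cut.none) (xt := Ext.none) (P1 := 536870912) (W1 := 536870912) (P2 := 0) (W2 := 67108864) (P3 := 1046898278) (W3 := 26843546)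
    rfl k0_mm_101

noncomputable def f_mm_102 : ℕ → ℕ → ℕ → ℕ → Bool := onCell 536870912 536870912 0 67108864 1046898278 26843546
    (rowFX 0 true false false .npp 1 0 2 (qsf 536870912 536870912 0 67108864 2) ndF2q1 ndF4q0 pcF2 Cut.none Ext.none)

def k0_mm_102 : ∃ t, chk3 f_mm_102 t 1 1 1 = true :=
  ⟨(l 4), by decide +kernel⟩

theorem c_mm_102 : CertFX 536870912 536870912 0 67108864 1046898278 26843546 true false false .npp 1 0 2
    ndF2q1 ndF4q0 pcF2 Cut.none Ext.none :=
  certFX0 (fam := true) (s1 := false) (s2 := false) (a := 1) (b := 0) (c := 2) (cn := .npp) (n1 := ndF2q1) (n2 := ndF4q0) (pc := pcF2) (cut := Cut.none) (xt := Ext.none) (P1 := 536870912) (W1 := 536870912) (P2 := 0) (W2 := 67108864) (P3 := 1046898278) (W3 := 26843546)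
    rfl k0_mm_102

noncomputable def f_mm_202_a : ℕ → ℕ → ℕ → ℕ → Bool := onCell 0 420477299 0 67108864 1046898278 26843546
    (rowFX 0 true false false .pp 2 0 2 (qsf 0 420477299 0 67108864 2) ndF2q2a ndF4q0 pcF2 Cut.none Ext.none)

def k0_mm_202_a : ∃ t, chk3 f_mm_202_a t 2 2 1 = true :=
  ⟨(a (b (c (b (l 16175656) (a (l 16123632) (c (l 16333832) (l 16254864)))) (b (a (c (l 16211160) (l 16120080)) (b (l 16071840) (l 16136296))) (c (l 16169848) (l 16206000)))) (c (a (l 16174760) (b (l 16253728) (l 16262296))) (a (l 16204008) (l 16259696)))) (b (b (a (c (l 16357072) (c (l 16279432) (b (l 16260008) (l 16287800)))) (c (a (l 16390480) (b (l 16395008) (l 16427424))) (b (a (c (l 16362680) (b (l 16282288) (l 16347016))) (c (l 16379896) (b (l 16358304) (l 16324048)))) (a (l 16358224) (c (l 16315368) (l 16288184)))))) (c (a (c (l 16386712) (l 16289024)) (c (l 16429728) (l 16377296))) (a (l 16262632) (l 16250456)))) (c (a (b (l 16260344) (l 16302672)) (b (l 16259176) (l 16334216)))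 (a (l 16291368) (b (l 16350144) (l 16367848)))))), by decide +kernel⟩

def k1_mm_202_a : ∃ t, chk3 f_mm_202_a t 3 2 1 = true :=
  ⟨(a (b (a (b (c (a (l 16429456) (l 16449184)) (c (a (l 16393928) (l 16347344)) (b (c (l 16380168) (l 16366208)) (l 16310832)))) (b (c (a (c (l 16480144) (l 16323144)) (l 16469256)) (a (c (l 16291424) (l 16357032)) (l 16390944))) (c (c (l 4) (a (l 16335424) (l 16398512))) (a (l 16299168) (a (l 16336160) (l 16387896)))))) (c (b (a (l 16470536) (c (l 16500888) (l 16486216))) (c (l 4) (b (l 16481040) (l 4)))) (b (c (b (l 16437224) (c (l 16424448) (l 16414912))) (b (c (l 16411048) (l 16288320)) (l 16406920))) (c (a (l 16418264) (l 16439600)) (l 16427064))))) (a (c (b (a (l 16374080) (l 4)) (l 4)) (b (a (l 16384920) (b (a (l 16399952) (l 16389592)) (l 16412648))) (l 16409936))) (c (l 4) (b (a (b (l 16426256) (a (l 16407456) (l 4))) (l 16448784)) (l 4))))) (b (b (a (b (c (a (l 16489232) (l 16466256)) (c (a (l 16462944) (l 16484256)) (c (a (l 16432512) (l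 16453944)) (a (l 16348392) (l 16409680))))) (c (a (l 16510896) (l 4)) (c (a (c (l 16501808) (l 16429616)) (c (l 16544352) (l 16516224))) (a (l 16439704) (l 16464312))))) (c (l 4) (a (c (b (a (l 16543000) (b (l 16556576) (l 16583040))) (b (l 121567147495) (l 4))) (b (b (a (l 16432520) (c (l 16534400) (l 16465928))) (c (a (l 16525104) (l 16552840)) (l 16446072))) (c (l 16543624) (l 16495088)))) (c (b (l 16586280) (l 4)) (b (c (b (l 16557936) (l 16594280)) (b (c (l 16559808) (l 16525352)) (l 16546488))) (c (b (l 16569792) (l 4)) (a (l 16578176) (l 16605728)))))))) (c (l 4) (a (c (a (l 16404608) (l 4)) (a (l 16466264) (l 16479920))) (a (c (l 4) (l 16570168)) (l 4))))) (l 4))), by decide +kernel⟩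

def k2_mm_202_a : ∃ t, chk3 f_mm_202_a t 1 3 1 = true :=
  ⟨(a (a (c (b (a (l 16253696) (l 16233664)) (a (l 16302936) (l 4))) (b (a (l 16275984) (l 16307240)) (a (l 16345432) (l 16385760)))) (b (a (c (l 16330592) (l 16349304)) (c (l 4) (l 16376368))) (l 4))) (l 4)), by decide +kernel⟩

theorem s3_mm_202_a : ∃ t, chk3 f_mm_202_a t 1 2 1 = true := ex3_a k0_mm_202_a k1_mm_202_a

theorem s4_mm_202_a : ∃ t, chk3 f_mm_202_a t 1 1 1 = true := ex3_b s3_mm_202_a k2_mm_202_a

theorem c_mm_202_a : CertFX 0 420477299 0 67108864 1046898278 26843546 true false false .pp 2 0 2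
    ndF2q2a ndF4q0 pcF2 Cut.none Ext.none :=
  certFX0 (fam := true) (s1 := false) (s2 := false) (a := 2) (b := 0) (c := 2) (cn := .pp) (n1 := ndF2q2a) (n2 := ndF4q0) (pc := pcF2) (cut := Cut.none) (xt := Ext.none) (P1 := 0) (W1 := 420477299) (P2 := 0) (W2 := 67108864) (P3 := 1046898278) (W3 := 26843546)
    rfl s4_mm_202_a

noncomputable def f_mm_202_b : ℕ → ℕ → ℕ → ℕ → Bool := onCell 1073741824 536870912 0 67108864 1046898278 26843546
    (rowFX 2 true false false .pp 2 0 2 (qsf 1239849684 370763052 0 67108864 2) ndF2q2b ndF4q0 pcF2 Cut.none Ext.none)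

def k0_mm_202_b : ∃ t, chk3 f_mm_202_b t 1 1 1 = true :=
  ⟨(a (a (l 1) (a (b (a (a (l 1) (a (l 1) (b (b (b (b (l 16045680) (l 1)) (l 1)) (l 1)) (l 1)))) (b (c (b (l 15892744) (a (c (l 16201616) (l 16163592)) (l 15906208))) (b (c (l 15757560) (b (l 15780680) (l 15995296))) (c (l 15940952) (l 16056992)))) (c (a (l 496637728551) (b (l 16123664) (l 16206560))) (a (l 16190248) (l 16115400))))) (b (a (l 1) (a (l 1) (c (l 489658547223) (l 16296504)))) (l 1))) (b (a (c (b (b (l 15705264) (c (l 15863848) (l 15787728))) (c (l 15835288) (l 15926344))) (b (b (c (l 15569648) (b (l 15533112) (l 15606864))) (l 15457488)) (l 15823168))) (c (b (b (l 15448128) (c (l 15606104) (l 15524840))) (c (a (l 15737192) (l 15613528)) (l 15534352))) (b (b (c (l 15304704) (b (l 15284632) (l 15335360))) (c (l 15461512) (l 15432272))) (l 15530192)))) (a (c (b (a (l 16069720) (l 16099616)) (a (b (l 16359480) (l 1)) (b (l 16313144) (l 4)))) (b (a (l 16230208) (l 16087120)) (a (l 16300880) (l 16227016)))) (c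 (b (a (l 15918592) (l 15845520)) (l 4)) (b (l 15631144) (l 15893584))))))) (a (a (b (c (b (a (b (l 15250160) (c (l 15392792) (l 15318144))) (b (l 15045592) (c (l 15177432) (l 15106288)))) (a (c (l 15436576) (l 15427992)) (c (l 4) (l 15206064)))) (b (a (b (c (l 15175560) (l 15124664)) (l 15237784)) (c (b (l 14978392) (l 15052296)) (l 14894856))) (a (l 15411848) (l 15193648)))) (a (b (c (l 15652720) (l 15629592)) (l 4)) (c (l 4) (l 70025024087)))) (b (c (b (a (b (l 14874656) (l 4)) (l 4)) (l 4)) (a (b (c (b (l 14808224) (l 14876776)) (l 14807696)) (l 15014424)) (b (l 402883621223) (l 4)))) (l 4))) (l 4))), by decide +kernel⟩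

theorem c_mm_202_b : CertFX 1239849684 370763052 0 67108864 1046898278 26843546 true false false .pp 2 0 2
    ndF2q2b ndF4q0 pcF2 Cut.none Ext.none :=
  certFX2 (fam := true) (s1 := false) (s2 := false) (a := 2) (b := 0) (c := 2) (cn := .pp) (n1 := ndF2q2b) (n2 := ndF4q0) (pc := pcF2) (cut := Cut.none) (xt := Ext.none) (P1 := 1239849684) (W1 := 370763052) (P2 := 0) (W2 := 67108864) (P3 := 1046898278) (W3 := 26843546)
    rfl (fun _ => rfl) k0_mm_202_b

noncomputable def f_mm_203_a : ℕ → ℕ → ℕ → ℕ → Bool := onCell 0 420477299 0 67108864 1046898278 26843546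
    (rowFX 0 true false false .up 2 0 3 (qsf 0 420477299 0 67108864 3) ndF2q2a ndF4q0 pcF3 Cut.none Ext.none)

def k0_mm_203_a : ∃ t, chk3 f_mm_203_a t 1 1 1 = true :=
  ⟨(l 1), by decide +kernel⟩

theorem c_mm_203_a : CertFX 0 420477299 0 67108864 1046898278 26843546 true false false .up 2 0 3
    ndF2q2a ndF4q0 pcF3 Cut.none Ext.none :=
  certFX0 (fam := true) (s1 := false) (s2 := false) (a := 2) (b := 0) (c := 3) (cn := .up) (n1 := ndF2q2a) (n2 := ndF4q0) (pc := pcF3) (cut := Cut.none) (xt := Ext.none) (P1 := 0) (W1 := 420477299) (P2 := 0) (W2 := 67108864) (P3 := 1046898278) (W3 := 26843546)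
    rfl k0_mm_203_a

noncomputable def f_mm_203_b : ℕ → ℕ → ℕ → ℕ → Bool := onCell 1610612736 536870912 0 67108864 1046898278 26843546
    (rowFX 2 true false false .up 2 0 3 (qsf 1239849684 370763052 0 67108864 3) ndF2q2b ndF4q0 pcF3 Cut.none Ext.none)

def k0_mm_203_b : ∃ t, chk3 f_mm_203_b t 1 1 1 = true :=
  ⟨(l 4), by decide +kernel⟩

theorem c_mm_203_b : CertFX 1239849684 370763052 0 67108864 1046898278 26843546 true false false .up 2 0 3
    ndF2q2b ndF4q0 pcF3 Cut.none Ext.none :=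
  certFX2 (fam := true) (s1 := false) (s2 := false) (a := 2) (b := 0) (c := 3) (cn := .up) (n1 := ndF2q2b) (n2 := ndF4q0) (pc := pcF3) (cut := Cut.none) (xt := Ext.none) (P1 := 1239849684) (W1 := 370763052) (P2 := 0) (W2 := 67108864) (P3 := 1046898278) (W3 := 26843546)
    rfl (fun _ => rfl) k0_mm_203_b

noncomputable def f_mm_303 : ℕ → ℕ → ℕ → ℕ → Bool := onCell 1610612736 469762048 0 67108864 1046898278 26843546
    (rowFX 0 true false false .npn 3 0 3 (qsf 1610612736 469762048 0 67108864 3) ndF2q3 ndF4q0 pcF3 Cut.none Ext.none)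

def k0_mm_303 : ∃ t, chk3 f_mm_303 t 1 1 1 = true :=
  ⟨(l 4), by decide +kernel⟩

theorem c_mm_303 : CertFX 1610612736 469762048 0 67108864 1046898278 26843546 true false false .npn 3 0 3
    ndF2q3 ndF4q0 pcF3 Cut.none Ext.none :=
  certFX0 (fam := true) (s1 := false) (s2 := false) (a := 3) (b := 0) (c := 3) (cn := .npn) (n1 := ndF2q3) (n2 := ndF4q0) (pc := pcF3) (cut := Cut.none) (xt := Ext.none) (P1 := 1610612736) (W1 := 469762048) (P2 := 0) (W2 := 67108864) (P3 := 1046898278) (W3 := 26843546)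
    rfl k0_mm_303

end Pool.Agent.Strip051.G.IE1.Tab.C.FA24

namespace Pool.Agent.Strip051.G.IE1.Tab.C.FA25

open Pool.Agent.Strip051.PB Pool.Agent.Strip051.PB.T
open Pool.Agent.Strip051.G.IE1.Tab

noncomputable def f_pp_001 : ℕ → ℕ → ℕ → ℕ → Bool := onCell 67108864 469762048 0 536870912 1046898278 26843546
    (rowFX 0 true true true .up 0 0 1 (qsf 67108864 469762048 0 536870912 1) ndF2q0 ndF5q0 pcF1 Cut.none Ext.none)

def k0_pp_001 : ∃ t, chk3 f_pp_001 t 1 1 1 = true :=
  ⟨(l 4), by decide +kernel⟩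

theorem c_pp_001 : CertFX 67108864 469762048 0 536870912 1046898278 26843546 true true true .up 0 0 1
    ndF2q0 ndF5q0 pcF1 Cut.none Ext.none :=
  certFX0 (fam := true) (s1 := true) (s2 := true) (a := 0) (b := 0) (c := 1) (cn := .up) (n1 := ndF2q0) (n2 := ndF5q0) (pc := pcF1) (cut := Cut.none) (xt := Ext.none) (P1 := 67108864) (W1 := 469762048) (P2 := 0) (W2 := 536870912) (P3 := 1046898278) (W3 := 26843546)
    rfl k0_pp_001

noncomputable def f_pp_011 : ℕ → ℕ → ℕ → ℕ → Bool := onCell 67108864 469762048 536870912 469762048 1046898278 26843546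
    (rowFX 0 true true true .pnn 0 1 1 (qsf 67108864 469762048 536870912 469762048 1) ndF2q0 ndF5q1 pcF1 Cut.none Ext.none)

def k0_pp_011 : ∃ t, chk3 f_pp_011 t 1 1 1 = true :=
  ⟨(l 4), by decide +kernel⟩

theorem c_pp_011 : CertFX 67108864 469762048 536870912 469762048 1046898278 26843546 true true true .pnn 0 1 1
    ndF2q0 ndF5q1 pcF1 Cut.none Ext.none :=
  certFX0 (fam := true) (s1 := true) (s2 := true) (a := 0) (b := 1) (c := 1) (cn := .pnn) (n1 := ndF2q0) (n2 := ndF5q1) (pc := pcF1) (cut := Cut.none) (xt := Ext.none) (P1 := 67108864) (W1 := 469762048) (P2 := 536870912) (W2 := 469762048) (P3 := 1046898278) (W3 := 26843546)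
    rfl k0_pp_011

noncomputable def f_pp_012 : ℕ → ℕ → ℕ → ℕ → Bool := onCell 67108864 469762048 536870912 469762048 1046898278 26843546
    (rowFX 0 true true true .pnp 0 1 2 (qsf 67108864 469762048 536870912 469762048 2) ndF2q0 ndF5q1 pcF2 Cut.none Ext.none)

def k0_pp_012 : ∃ t, chk3 f_pp_012 t 1 1 1 = true :=
  ⟨(l 4), by decide +kernel⟩

theorem c_pp_012 : CertFX 67108864 469762048 536870912 469762048 1046898278 26843546 true true true .pnp 0 1 2
    ndF2q0 ndF5q1 pcF2 Cut.none Ext.none :=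
  certFX0 (fam := true) (s1 := true) (s2 := true) (a := 0) (b := 1) (c := 2) (cn := .pnp) (n1 := ndF2q0) (n2 := ndF5q1) (pc := pcF2) (cut := Cut.none) (xt := Ext.none) (P1 := 67108864) (W1 := 469762048) (P2 := 536870912) (W2 := 469762048) (P3 := 1046898278) (W3 := 26843546)
    rfl k0_pp_012

noncomputable def f_pp_022 : ℕ → ℕ → ℕ → ℕ → Bool := onCell 67108864 469762048 1073741824 536870912 1046898278 26843546
    (rowFX 0 true true true .pp 0 2 2 (qsf 67108864 469762048 1073741824 536870912 2) ndF2q0 ndF5q2 pcF2 Cut.none Ext.none)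

def k0_pp_022 : ∃ t, chk3 f_pp_022 t 1 1 1 = true :=
  ⟨(l 4), by decide +kernel⟩

theorem c_pp_022 : CertFX 67108864 469762048 1073741824 536870912 1046898278 26843546 true true true .pp 0 2 2
    ndF2q0 ndF5q2 pcF2 Cut.none Ext.none :=
  certFX0 (fam := true) (s1 := true) (s2 := true) (a := 0) (b := 2) (c := 2) (cn := .pp) (n1 := ndF2q0) (n2 := ndF5q2) (pc := pcF2) (cut := Cut.none) (xt := Ext.none) (P1 := 67108864) (W1 := 469762048) (P2 := 1073741824) (W2 := 536870912) (P3 := 1046898278) (W3 := 26843546)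
    rfl k0_pp_022

noncomputable def f_pp_023 : ℕ → ℕ → ℕ → ℕ → Bool := onCell 67108864 469762048 1073741824 536870912 1046898278 26843546
    (rowFX 0 true true true .up 0 2 3 (qsf 67108864 469762048 1073741824 536870912 3) ndF2q0 ndF5q2 pcF3 Cut.none Ext.none)

def k0_pp_023 : ∃ t, chk3 f_pp_023 t 1 1 1 = true :=
  ⟨(l 4), by decide +kernel⟩

theorem c_pp_023 : CertFX 67108864 469762048 1073741824 536870912 1046898278 26843546 true true true .up 0 2 3
    ndF2q0 ndF5q2 pcF3 Cut.none Ext.none :=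
  certFX0 (fam := true) (s1 := true) (s2 := true) (a := 0) (b := 2) (c := 3) (cn := .up) (n1 := ndF2q0) (n2 := ndF5q2) (pc := pcF3) (cut := Cut.none) (xt := Ext.none) (P1 := 67108864) (W1 := 469762048) (P2 := 1073741824) (W2 := 536870912) (P3 := 1046898278) (W3 := 26843546)
    rfl k0_pp_023

noncomputable def f_pp_033 : ℕ → ℕ → ℕ → ℕ → Bool := onCell 67108864 469762048 0 1230186008 1046898278 26843546
    (rowFX 0 true true true .pnn 0 3 3 (qsf 67108864 469762048 0 1230186008 3) ndF2q0 ndF5q3 pcF3 Cut.none Ext.none)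

def k0_pp_033 : ∃ t, chk3 f_pp_033 t 1 1 1 = true :=
  ⟨(b (l 4) (l 4)), by decide +kernel⟩

theorem c_pp_033 : CertFX 67108864 469762048 0 1230186008 1046898278 26843546 true true true .pnn 0 3 3
    ndF2q0 ndF5q3 pcF3 Cut.none Ext.none :=
  certFX0 (fam := true) (s1 := true) (s2 := true) (a := 0) (b := 3) (c := 3) (cn := .pnn) (n1 := ndF2q0) (n2 := ndF5q3) (pc := pcF3) (cut := Cut.none) (xt := Ext.none) (P1 := 67108864) (W1 := 469762048) (P2 := 0) (W2 := 1230186008) (P3 := 1046898278) (W3 := 26843546)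
    rfl k0_pp_033

noncomputable def f_pp_101 : ℕ → ℕ → ℕ → ℕ → Bool := onCell 536870912 536870912 0 536870912 1046898278 26843546
    (rowFX 0 true true true .npn 1 0 1 (qsf 536870912 536870912 0 536870912 1) ndF2q1 ndF5q0 pcF1 Cut.none Ext.none)

def k0_pp_101 : ∃ t, chk3 f_pp_101 t 1 1 1 = true :=
  ⟨(l 4), by decide +kernel⟩

theorem c_pp_101 : CertFX 536870912 536870912 0 536870912 1046898278 26843546 true true true .npn 1 0 1
    ndF2q1 ndF5q0 pcF1 Cut.none Ext.none :=
  certFX0 (fam := true) (s1 := true) (s2 := true) (a := 1) (b := 0) (c := 1) (cn := .npn) (n1 := ndF2q1) (n2 := ndF5q0) (pc := pcF1) (cut := Cut.none) (xt := Ext.none) (P1 := 536870912) (W1 := 536870912) (P2 := 0) (W2 := 536870912) (P3 := 1046898278) (W3 := 26843546)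
    rfl k0_pp_101

noncomputable def f_pp_102 : ℕ → ℕ → ℕ → ℕ → Bool := onCell 536870912 536870912 0 536870912 1046898278 26843546
    (rowFX 0 true true true .npp 1 0 2 (qsf 536870912 536870912 0 536870912 2) ndF2q1 ndF5q0 pcF2 Cut.none Ext.none)

def k0_pp_102 : ∃ t, chk3 f_pp_102 t 1 1 1 = true :=
  ⟨(l 4), by decide +kernel⟩

theorem c_pp_102 : CertFX 536870912 536870912 0 536870912 1046898278 26843546 true true true .npp 1 0 2
    ndF2q1 ndF5q0 pcF2 Cut.none Ext.none :=
  certFX0 (fam := true) (s1 := true) (s2 := true) (a := 1) (b := 0) (c := 2) (cn := .npp) (n1 := ndF2q1) (n2 := ndF5q0) (pc := pcF2) (cut := Cut.none) (xt := Ext.none) (P1 := 536870912) (W1 := 536870912) (P2 := 0) (W2 := 536870912) (P3 := 1046898278) (W3 := 26843546)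
    rfl k0_pp_102

noncomputable def f_pp_112 : ℕ → ℕ → ℕ → ℕ → Bool := onCell 536870912 536870912 536870912 469762048 1046898278 26843546
    (rowFX 0 true true true .dn 1 1 2 (qsf 536870912 536870912 536870912 469762048 2) ndF2q1 ndF5q1 pcF2 Cut.none Ext.none)

def k0_pp_112 : ∃ t, chk3 f_pp_112 t 1 1 1 = true :=
  ⟨(l 4), by decide +kernel⟩

theorem c_pp_112 : CertFX 536870912 536870912 536870912 469762048 1046898278 26843546 true true true .dn 1 1 2
    ndF2q1 ndF5q1 pcF2 Cut.none Ext.none :=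
  certFX0 (fam := true) (s1 := true) (s2 := true) (a := 1) (b := 1) (c := 2) (cn := .dn) (n1 := ndF2q1) (n2 := ndF5q1) (pc := pcF2) (cut := Cut.none) (xt := Ext.none) (P1 := 536870912) (W1 := 536870912) (P2 := 536870912) (W2 := 469762048) (P3 := 1046898278) (W3 := 26843546)
    rfl k0_pp_112

noncomputable def f_pp_113 : ℕ → ℕ → ℕ → ℕ → Bool := onCell 536870912 536870912 536870912 469762048 1046898278 26843546
    (rowFX 0 true true true .nn 1 1 3 (qsf 536870912 536870912 536870912 469762048 3) ndF2q1 ndF5q1 pcF3 Cut.none Ext.none)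

def k0_pp_113 : ∃ t, chk3 f_pp_113 t 1 1 1 = true :=
  ⟨(l 4), by decide +kernel⟩

theorem c_pp_113 : CertFX 536870912 536870912 536870912 469762048 1046898278 26843546 true true true .nn 1 1 3
    ndF2q1 ndF5q1 pcF3 Cut.none Ext.none :=
  certFX0 (fam := true) (s1 := true) (s2 := true) (a := 1) (b := 1) (c := 3) (cn := .nn) (n1 := ndF2q1) (n2 := ndF5q1) (pc := pcF3) (cut := Cut.none) (xt := Ext.none) (P1 := 536870912) (W1 := 536870912) (P2 := 536870912) (W2 := 469762048) (P3 := 1046898278) (W3 := 26843546)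
    rfl k0_pp_113

noncomputable def f_pp_123 : ℕ → ℕ → ℕ → ℕ → Bool := onCell 536870912 536870912 1073741824 536870912 1046898278 26843546
    (rowFX 0 true true true .npn 1 2 3 (qsf 536870912 536870912 1073741824 536870912 3) ndF2q1 ndF5q2 pcF3 Cut.none Ext.none)

def k0_pp_123 : ∃ t, chk3 f_pp_123 t 1 1 1 = true :=
  ⟨(l 4), by decide +kernel⟩

theorem c_pp_123 : CertFX 536870912 536870912 1073741824 536870912 1046898278 26843546 true true true .npn 1 2 3
    ndF2q1 ndF5q2 pcF3 Cut.none Ext.none :=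
  certFX0 (fam := true) (s1 := true) (s2 := true) (a := 1) (b := 2) (c := 3) (cn := .npn) (n1 := ndF2q1) (n2 := ndF5q2) (pc := pcF3) (cut := Cut.none) (xt := Ext.none) (P1 := 536870912) (W1 := 536870912) (P2 := 1073741824) (W2 := 536870912) (P3 := 1046898278) (W3 := 26843546)
    rfl k0_pp_123

noncomputable def f_pp_133 : ℕ → ℕ → ℕ → ℕ → Bool := onCell 536870912 536870912 0 1230186008 1046898278 26843546
    (rowFX 0 true true true .dn 1 3 3 (qsf 536870912 536870912 0 1230186008 3) ndF2q1 ndF5q3 pcF3 Cut.none Ext.none)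

def k0_pp_133 : ∃ t, chk3 f_pp_133 t 1 1 1 = true :=
  ⟨(l 4), by decide +kernel⟩

theorem c_pp_133 : CertFX 536870912 536870912 0 1230186008 1046898278 26843546 true true true .dn 1 3 3
    ndF2q1 ndF5q3 pcF3 Cut.none Ext.none :=
  certFX0 (fam := true) (s1 := true) (s2 := true) (a := 1) (b := 3) (c := 3) (cn := .dn) (n1 := ndF2q1) (n2 := ndF5q3) (pc := pcF3) (cut := Cut.none) (xt := Ext.none) (P1 := 536870912) (W1 := 536870912) (P2 := 0) (W2 := 1230186008) (P3 := 1046898278) (W3 := 26843546)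
    rfl k0_pp_133

noncomputable def f_pp_202_a : ℕ → ℕ → ℕ → ℕ → Bool := onCell 0 420477299 0 536870912 1046898278 26843546
    (rowFX 0 true true true .pp 2 0 2 (qsf 0 420477299 0 536870912 2) ndF2q2a ndF5q0 pcF2 Cut.none Ext.none)

def k0_pp_202_a : ∃ t, chk3 f_pp_202_a t 1 1 1 = true :=
  ⟨(l 5), by decide +kernel⟩

theorem c_pp_202_a : CertFX 0 420477299 0 536870912 1046898278 26843546 true true true .pp 2 0 2
    ndF2q2a ndF5q0 pcF2 Cut.none Ext.none :=
  certFX0 (fam := true) (s1 := true) (s2 := true) (a := 2) (b := 0) (c := 2) (cn := .pp) (n1 := ndF2q2a) (n2 := ndF5q0) (pc := pcF2) (cut := Cut.none) (xt := Ext.none) (P1 := 0) (W1 := 420477299) (P2 := 0) (W2 := 536870912) (P3 := 1046898278) (W3 := 26843546)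
    rfl k0_pp_202_a

noncomputable def f_pp_202_b : ℕ → ℕ → ℕ → ℕ → Bool := onCell 1239849684 370763052 0 536870912 1046898278 26843546
    (rowFX 0 true true true .pp 2 0 2 (qsf 1239849684 370763052 0 536870912 2) ndF2q2b ndF5q0 pcF2 Cut.none Ext.none)

def k0_pp_202_b : ∃ t, chk3 f_pp_202_b t 1 1 1 = true :=
  ⟨(l 5), by decide +kernel⟩

theorem c_pp_202_b : CertFX 1239849684 370763052 0 536870912 1046898278 26843546 true true true .pp 2 0 2
    ndF2q2b ndF5q0 pcF2 Cut.none Ext.none :=
  certFX0 (fam := true) (s1 := true) (s2 := true) (a := 2) (b := 0) (c := 2) (cn := .pp) (n1 := ndF2q2b) (n2 := ndF5q0) (pc := pcF2) (cut := Cut.none) (xt := Ext.none) (P1 := 1239849684) (W1 := 370763052) (P2 := 0) (W2 := 536870912) (P3 := 1046898278) (W3 := 26843546)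
    rfl k0_pp_202_b

noncomputable def f_pp_203_a : ℕ → ℕ → ℕ → ℕ → Bool := onCell 0 420477299 0 536870912 1046898278 26843546
    (rowFX 0 true true true .up 2 0 3 (qsf 0 420477299 0 536870912 3) ndF2q2a ndF5q0 pcF3 Cut.none Ext.none)

def k0_pp_203_a : ∃ t, chk3 f_pp_203_a t 1 1 1 = true :=
  ⟨(l 5), by decide +kernel⟩

theorem c_pp_203_a : CertFX 0 420477299 0 536870912 1046898278 26843546 true true true .up 2 0 3
    ndF2q2a ndF5q0 pcF3 Cut.none Ext.none :=
  certFX0 (fam := true) (s1 := true) (s2 := true) (a := 2) (b := 0) (c := 3) (cn := .up) (n1 := ndF2q2a) (n2 := ndF5q0) (pc := pcF3) (cut := Cut.none) (xt := Ext.none) (P1 := 0) (W1 := 420477299) (P2 := 0) (W2 := 536870912) (P3 := 1046898278) (W3 := 26843546)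
    rfl k0_pp_203_a

noncomputable def f_pp_203_b : ℕ → ℕ → ℕ → ℕ → Bool := onCell 1239849684 370763052 0 536870912 1046898278 26843546
    (rowFX 0 true true true .up 2 0 3 (qsf 1239849684 370763052 0 536870912 3) ndF2q2b ndF5q0 pcF3 Cut.none Ext.none)

def k0_pp_203_b : ∃ t, chk3 f_pp_203_b t 1 1 1 = true :=
  ⟨(l 5), by decide +kernel⟩

theorem c_pp_203_b : CertFX 1239849684 370763052 0 536870912 1046898278 26843546 true true true .up 2 0 3
    ndF2q2b ndF5q0 pcF3 Cut.none Ext.none :=
  certFX0 (fam := true) (s1 := true) (s2 := true) (a := 2) (b := 0) (c := 3) (cn := .up) (n1 := ndF2q2b) (n2 := ndF5q0) (pc := pcF3) (cut := Cut.none) (xt := Ext.none) (P1 := 1239849684) (W1 := 370763052) (P2 := 0) (W2 := 536870912) (P3 := 1046898278) (W3 := 26843546)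
    rfl k0_pp_203_b

noncomputable def f_pp_213_a : ℕ → ℕ → ℕ → ℕ → Bool := onCell 0 420477299 536870912 469762048 1046898278 26843546
    (rowFX 0 true true true .pnn 2 1 3 (qsf 0 420477299 536870912 469762048 3) ndF2q2a ndF5q1 pcF3 Cut.none Ext.none)

def k0_pp_213_a : ∃ t, chk3 f_pp_213_a t 1 1 1 = true :=
  ⟨(l 4), by decide +kernel⟩

theorem c_pp_213_a : CertFX 0 420477299 536870912 469762048 1046898278 26843546 true true true .pnn 2 1 3
    ndF2q2a ndF5q1 pcF3 Cut.none Ext.none :=
  certFX0 (fam := true) (s1 := true) (s2 := true) (a := 2) (b := 1) (c := 3) (cn := .pnn) (n1 := ndF2q2a) (n2 := ndF5q1) (pc := pcF3) (cut := Cut.none) (xt := Ext.none) (P1 := 0) (W1 := 420477299) (P2 := 536870912) (W2 := 469762048) (P3 := 1046898278) (W3 := 26843546)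
    rfl k0_pp_213_a

noncomputable def f_pp_213_b : ℕ → ℕ → ℕ → ℕ → Bool := onCell 1239849684 370763052 536870912 469762048 1046898278 26843546
    (rowFX 0 true true true .pnn 2 1 3 (qsf 1239849684 370763052 536870912 469762048 3) ndF2q2b ndF5q1 pcF3 Cut.none Ext.none)

def k0_pp_213_b : ∃ t, chk3 f_pp_213_b t 1 1 1 = true :=
  ⟨(l 4), by decide +kernel⟩

theorem c_pp_213_b : CertFX 1239849684 370763052 536870912 469762048 1046898278 26843546 true true true .pnn 2 1 3
    ndF2q2b ndF5q1 pcF3 Cut.none Ext.none :=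
  certFX0 (fam := true) (s1 := true) (s2 := true) (a := 2) (b := 1) (c := 3) (cn := .pnn) (n1 := ndF2q2b) (n2 := ndF5q1) (pc := pcF3) (cut := Cut.none) (xt := Ext.none) (P1 := 1239849684) (W1 := 370763052) (P2 := 536870912) (W2 := 469762048) (P3 := 1046898278) (W3 := 26843546)
    rfl k0_pp_213_b

noncomputable def f_pp_303 : ℕ → ℕ → ℕ → ℕ → Bool := onCell 1610612736 469762048 0 536870912 1046898278 26843546
    (rowFX 0 true true true .npn 3 0 3 (qsf 1610612736 469762048 0 536870912 3) ndF2q3 ndF5q0 pcF3 Cut.none Ext.none)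

def k0_pp_303 : ∃ t, chk3 f_pp_303 t 1 1 1 = true :=
  ⟨(l 4), by decide +kernel⟩

theorem c_pp_303 : CertFX 1610612736 469762048 0 536870912 1046898278 26843546 true true true .npn 3 0 3
    ndF2q3 ndF5q0 pcF3 Cut.none Ext.none :=
  certFX0 (fam := true) (s1 := true) (s2 := true) (a := 3) (b := 0) (c := 3) (cn := .npn) (n1 := ndF2q3) (n2 := ndF5q0) (pc := pcF3) (cut := Cut.none) (xt := Ext.none) (P1 := 1610612736) (W1 := 469762048) (P2 := 0) (W2 := 536870912) (P3 := 1046898278) (W3 := 26843546)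
    rfl k0_pp_303

noncomputable def f_pp_313 : ℕ → ℕ → ℕ → ℕ → Bool := onCell 1610612736 469762048 536870912 469762048 1046898278 26843546
    (rowFX 0 true true true .dn 3 1 3 (qsf 1610612736 469762048 536870912 469762048 3) ndF2q3 ndF5q1 pcF3 Cut.none Ext.none)

def k0_pp_313 : ∃ t, chk3 f_pp_313 t 1 1 1 = true :=
  ⟨(l 4), by decide +kernel⟩

theorem c_pp_313 : CertFX 1610612736 469762048 536870912 469762048 1046898278 26843546 true true true .dn 3 1 3
    ndF2q3 ndF5q1 pcF3 Cut.none Ext.none :=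
  certFX0 (fam := true) (s1 := true) (s2 := true) (a := 3) (b := 1) (c := 3) (cn := .dn) (n1 := ndF2q3) (n2 := ndF5q1) (pc := pcF3) (cut := Cut.none) (xt := Ext.none) (P1 := 1610612736) (W1 := 469762048) (P2 := 536870912) (W2 := 469762048) (P3 := 1046898278) (W3 := 26843546)
    rfl k0_pp_313

noncomputable def f_pm_001 : ℕ → ℕ → ℕ → ℕ → Bool := onCell 67108864 469762048 0 536870912 1046898278 26843546
    (rowFX 0 true true false .up 0 0 1 (qsf 67108864 469762048 0 536870912 1) ndF2q0 ndF5q0 pcF1 Cut.none Ext.none)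

def k0_pm_001 : ∃ t, chk3 f_pm_001 t 1 1 1 = true :=
  ⟨(l 3), by decide +kernel⟩

theorem c_pm_001 : CertFX 67108864 469762048 0 536870912 1046898278 26843546 true true false .up 0 0 1
    ndF2q0 ndF5q0 pcF1 Cut.none Ext.none :=
  certFX0 (fam := true) (s1 := true) (s2 := false) (a := 0) (b := 0) (c := 1) (cn := .up) (n1 := ndF2q0) (n2 := ndF5q0) (pc := pcF1) (cut := Cut.none) (xt := Ext.none) (P1 := 67108864) (W1 := 469762048) (P2 := 0) (W2 := 536870912) (P3 := 1046898278) (W3 := 26843546)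
    rfl k0_pm_001

noncomputable def f_pm_011 : ℕ → ℕ → ℕ → ℕ → Bool := onCell 67108864 469762048 536870912 536870912 1046898278 26843546
    (rowFX 1 true true false .pnn 0 1 1 (qsf 67108864 469762048 536870912 469762048 1) ndF2q0 ndF5q1 pcF1 Cut.none Ext.none)

def k0_pm_011 : ∃ t, chk3 f_pm_011 t 1 1 1 = true :=
  ⟨(a (b (l 3) (l 3)) (l 3)), by decide +kernel⟩

theorem c_pm_011 : CertFX 67108864 469762048 536870912 469762048 1046898278 26843546 true true false .pnn 0 1 1
    ndF2q0 ndF5q1 pcF1 Cut.none Ext.none :=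
  certFX1 (fam := true) (s1 := true) (s2 := false) (a := 0) (b := 1) (c := 1) (cn := .pnn) (n1 := ndF2q0) (n2 := ndF5q1) (pc := pcF1) (cut := Cut.none) (xt := Ext.none) (P1 := 67108864) (W1 := 469762048) (P2 := 536870912) (W2 := 469762048) (P3 := 1046898278) (W3 := 26843546)
    rfl (fun _ => rfl) k0_pm_011

noncomputable def f_pm_012 : ℕ → ℕ → ℕ → ℕ → Bool := onCell 1073741824 536870912 536870912 469762048 1046898278 26843546
    (rowFX 2 true true false .pnp 0 1 2 (qsf 67108864 469762048 536870912 469762048 2) ndF2q0 ndF5q1 pcF2 Cut.none Ext.none)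

def k0_pm_012 : ∃ t, chk3 f_pm_012 t 4 1 1 = true :=
  ⟨(a (b (l 3) (b (l 3) (a (l 3) (b (l 3) (b (a (l 3) (a (l 3) (a (a (l 3) (l 16403280)) (a (l 16372712) (l 16343344))))) (a (a (l 3) (a (l 3) (b (l 3) (l 16288920)))) (a (c (c (l 16189752) (l 16275232)) (l 16101320)) (c (b (l 16208384) (l 16088728)) (b (l 16198896) (l 16079400)))))))))) (a (b (l 3) (b (a (l 3) (c (b (l 16661680) (l 16724960)) (a (l 16647592) (l 16730504)))) (b (a (b (c (l 639043477767) (l 762523786503)) (c (l 16307712) (a (l 16553912) (l 16427808)))) (b (c (l 16459000) (l 16413256)) (c (a (l 16338088) (l 16264808)) (a (l 16327424) (l 16230992))))) (a (b (c (a (l 16285872) (l 16169736)) (a (l 16275224) (l 16155720))) (c (a (b (l 16104432) (l 15979512)) (l 15845080)) (a (b (l 16091968) (l 15967088)) (l 15872184)))) (a (b (c (l 16060448) (l 16043288)) (l 15744328)) (b (l 15968784) (l 15700688))))))) (b (b (a (l 3) (c (l 16777200) (l 16777200))) (a (c (l 665887827255) (l 761987720535)) (c (a (l 16773104) (l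 16768272)) (a (l 16773000) (l 16768040))))) (b (a (a (c (b (l 16765288) (l 16710152)) (b (l 16764984) (l 16708528))) (c (l 16748456) (l 16517168))) (b (c (l 16757128) (l 16756608)) (l 16726800))) (b (a (b (a (c (l 16551336) (l 16545656)) (l 16564088)) (l 16062424)) (b (l 16571352) (l 16218880))) (a (a (c (l 15603040) (l 15539888)) (b (l 15839768) (l 15589824))) (b (l 15767656) (l 15393112)))))))), by decide +kernel⟩

def k1_pm_012 : ∃ t, chk3 f_pm_012 t 5 1 1 = true :=
  ⟨(a (b (b (l 2) (a (a (a (c (l 16764704) (l 16764384)) (l 16772928)) (a (l 16750984) (a (l 16720240) (a (l 16715560) (l 16721104))))) (l 16734800))) (b (a (a (l 16748624) (a (l 16719920) (a (l 16713256) (b (a (l 16720280) (l 16743904)) (a (l 16685800) (l 16718992)))))) (l 16744520)) (a (a (b (b (l 16535648) (l 16168216)) (b (a (l 15684928) (l 15649800)) (a (l 15310752) (c (l 15257392) (l 15223728))))) (b (a (b (l 16494248) (l 16131808)) (a (b (l 16497688) (l 16167528)) (b (l 16566824) (l 16235008)))) (a (b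 (l 15650912) (l 15242320)) (a (b (l 15706928) (l 15275208)) (b (l 15772256) (a (l 15316896) (l 15346344))))))) (b (l 16232480) (b (l 15746880) (l 15282720)))))) (b (l 16772096) (b (b (l 16774256) (l 16696544)) (b (b (l 16521528) (l 16153264)) (b (l 15646664) (a (l 15172800) (l 15129936))))))), by decide +kernel⟩

def k2_pm_012 : ∃ t, chk3 f_pm_012 t 3 1 1 = true :=
  ⟨(b (l 2) (b (a (l 16737208) (l 2)) (b (a (b (l 16515152) (l 16143272)) (l 16332128)) (a (b (l 15632304) (l 15129880)) (l 15256768))))), by decide +kernel⟩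

theorem s3_pm_012 : ∃ t, chk3 f_pm_012 t 2 1 1 = true := ex3_a k0_pm_012 k1_pm_012

theorem s4_pm_012 : ∃ t, chk3 f_pm_012 t 1 1 1 = true := ex3_a s3_pm_012 k2_pm_012

theorem c_pm_012 : CertFX 67108864 469762048 536870912 469762048 1046898278 26843546 true true false .pnp 0 1 2
    ndF2q0 ndF5q1 pcF2 Cut.none Ext.none :=
  certFX2 (fam := true) (s1 := true) (s2 := false) (a := 0) (b := 1) (c := 2) (cn := .pnp) (n1 := ndF2q0) (n2 := ndF5q1) (pc := pcF2) (cut := Cut.none) (xt := Ext.none) (P1 := 67108864) (W1 := 469762048) (P2 := 536870912) (W2 := 469762048) (P3 := 1046898278) (W3 := 26843546)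
    rfl (fun _ => rfl) s4_pm_012

noncomputable def f_pm_022 : ℕ → ℕ → ℕ → ℕ → Bool := onCell 67108864 469762048 1073741824 536870912 1046898278 26843546
    (rowFX 1 true true false .pp 0 2 2 (qsf 67108864 469762048 1073741824 536870912 2) ndF2q0 ndF5q2 pcF2 Cut.none Ext.none)

def k0_pm_022 : ∃ t, chk3 f_pm_022 t 16 2 1 = true :=
  ⟨(b (b (b (l 1) (b (l 1) (b (l 1) (a (b (l 1) (c (l 16032568) (l 16012136))) (l 1))))) (b (b (b (a (c (b (l 16064768) (c (l 16088568) (l 16078960))) (b (l 16045224) (l 16065536))) (l 1)) (c (a (l 16131016) (l 16152264)) (l 16122448))) (c (b (a (l 16209424) (l 16233560)) (a (l 16298968) (l 16324456))) (b (l 16204664) (l 16297632)))) (a (b (b (c (l 16394384) (l 16385104)) (c (l 16471032) (l 16464392))) (b (c (l 16486888) (l 16524368)) (l 16584224))) (b (b (c (b (l 16396040) (l 16446056)) (l 16415000)) (c (l 16490712) (l 16484768))) (c (l 16492576) (l 16574976)))))) (b (b (b (b (c (l 16466360) (l 16479512)) (c (l 16314248) (l 16307224))) (b (c (l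 16129400) (l 16117416)) (b (c (l 15981576) (l 15965608)) (b (c (l 15912608) (l 15894792)) (c (a (l 15858128) (l 15880480)) (l 15850944)))))) (c (a (l 15739504) (l 15770344)) (l 15733952))) (b (b (c (l 15632400) (l 15608448)) (a (c (b (a (l 15639536) (l 15572920)) (a (l 15849504) (l 15653328))) (b (l 15597816) (l 15738688))) (c (l 15592224) (l 15566272)))) (b (a (c (l 15856048) (l 15971016)) (c (b (a (l 15650376) (l 15551528)) (l 15719024)) (b (l 15593672) (l 15697104)))) (a (c (l 16284512) (l 16430240)) (l 15803248)))))), by decide +kernel⟩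

def k1_pm_022 : ∃ t, chk3 f_pm_022 t 17 2 1 = true :=
  ⟨(b (b (l 1) (a (b (a (b (l 1) (c (l 16172856) (l 16286216))) (l 1)) (b (b (c (b (l 16424040) (l 16467168)) (b (l 16415136) (l 16459608))) (c (l 16524000) (l 16518312))) (c (l 16533792) (l 16616632)))) (b (l 1) (b (b (l 1) (l 16513680)) (l 16532976))))) (b (b (b (b (a (l 16413624) (l 16553872)) (c (l 16336672) (l 16348704))) (b (c (l 16132144) (l 16160264)) (b (c (l 16032040) (l 16014424)) (b (c (l 15973800) (l 15954656)) (c (a (l 15885120) (l 15971152)) (l 15918408)))))) (c (a (l 15804120) (l 15875480)) (l 15817552))) (b (c (a (l 15663112) (l 15742184)) (l 15678160)) (b (c (a (b (l 15572352) (l 15496008)) (l 15604984)) (l 15547048)) (a (c (b (a (l 15567440) (l 15436488)) (l 15646896)) (l 15552640)) (b (l 15446360) (l 15389808))))))), by decide +kernel⟩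

def k2_pm_022 : ∃ t, chk3 f_pm_022 t 9 2 1 = true :=
  ⟨(b (b (l 1) (b (l 1) (b (l 1) (a (b (l 16580704) (l 16692960)) (l 1))))) (b (b (b (a (b (l 16607232) (l 16473168)) (l 1)) (b (a (l 16307976) (l 16400024)) (b (a (l 16168400) (l 16327344)) (b (a (l 16118936) (l 16286760)) (c (a (a (l 16054888) (l 16142288)) (l 16166072)) (a (l 16081104) (l 16256384))))))) (a (c (l 15842784) (l 15991872)) (b (l 16219112) (l 16154792)))) (c (b (a (l 15886416) (l 16060224)) (a (l 15649504) (l 15798232))) (b (a (l 15866080) (l 16064904)) (l 15489520))))), by decide +kernel⟩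

def k3_pm_022 : ∃ t, chk3 f_pm_022 t 5 2 1 = true :=
  ⟨(b (l 1) (b (b (l 1) (a (a (b (l 16247104) (l 16335576)) (l 1)) (l 1))) (b (a (a (c (l 16269256) (l 16256488)) (b (a (l 16431376) (l 1)) (c (l 16431536) (l 16421096)))) (l 1)) (a (a (c (b (l 16133784) (l 15919504)) (l 15798160)) (b (c (l 16211176) (l 16263072)) (l 15939160))) (a (b (c (l 16476824) (l 16642232)) (l 16343432)) (l 1)))))), by decide +kernel⟩

def k4_pm_022 : ∃ t, chk3 f_pm_022 t 3 2 1 = true :=
  ⟨(l 1), by decide +kernel⟩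

def k5_pm_022 : ∃ t, chk3 f_pm_022 t 2 6 1 = true :=
  ⟨(a (b (a (b (a (a (b (l 15933384) (l 15786824)) (b (l 16157568) (l 16120216))) (a (b (l 15803328) (l 16118848)) (b (b (l 15441744) (l 15599672)) (l 15896984)))) (a (a (b (c (l 15568688) (l 15536904)) (l 15484944)) (b (l 15904944) (l 15702560))) (b (a (l 16307512) (l 16277032)) (a (l 16004336) (l 16369736))))) (b (a (b (a (b (l 15348096) (l 15319400)) (l 15391240)) (a (l 15475120) (b (l 15257792) (l 15258352)))) (c (l 15444168) (l 15412456))) (a (b (a (l 15878000) (l 15299888)) (c (l 15901576) (l 16034904))) (b (a (c (l 15231448) (l 15194520)) (l 15190024)) (a (l 15444976) (c (l 15168512) (l 15129424))))))) (a (b (a (b (l 15568688) (l 15568688)) (a (c (l 15850392) (l 15826528)) (b (l 16106336) (l 15958192)))) (c (l 15729880) (l 15696776))) (b (a (b (l 16224952) (l 16093192)) (b (l 15594784) (l 15883440))) (a (b (l 16015104) (l 16091904)) (b (l 16321184) (l 16230472)))))) (b (a (c (b (a (l 15613864) (l 15798120)) (a (l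 15237640) (l 15405816))) (b (l 15531488) (l 15287800))) (b (a (c (l 16116224) (l 16099056)) (c (l 16426552) (l 16503504))) (c (l 15688128) (l 15853488)))) (a (b (a (b (a (b (l 15025272) (l 15112976)) (l 14997920)) (a (l 15404560) (l 15044760))) (c (l 14846528) (l 15011976))) (a (b (l 15602088) (a (l 16196824) (l 15796640))) (b (a (l 15005544) (l 14847960)) (l 15146384)))) (b (c (l 15478256) (l 15444512)) (a (l 14967848) (l 15249624)))))), by decide +kernel⟩

def k6_pm_022 : ∃ t, chk3 f_pm_022 t 2 7 1 = true :=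
  ⟨(a (a (b (c (l 15687936) (l 15696776)) (c (l 15729880) (l 15696776))) (b (b (a (l 16087488) (b (l 16274712) (l 16294488))) (l 16191784)) (l 16191784))) (b (a (b (a (b (l 16377696) (l 16520768)) (l 15598120)) (a (l 16529216) (b (l 16239032) (l 16642080)))) (b (a (b (l 14961984) (l 15241808)) (l 14953608)) (a (l 15834032) (b (l 15012680) (l 15342912))))) (a (a (l 16513272) (l 16701200)) (b (a (b (l 16420000) (l 16663792)) (l 15912024)) (a (l 16772296) (l 16572480)))))), by decide +kernel⟩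

def k7_pm_022 : ∃ t, chk3 f_pm_022 t 3 3 1 = true :=
  ⟨(b (a (a (b (b (a (l 412349780135) (l 1)) (a (l 16332984) (l 16558824))) (b (a (l 15998384) (l 16390208)) (l 15760888))) (b (l 1) (b (l 709239142999) (l 16473640)))) (l 1)) (a (b (a (b (l 15366048) (a (l 14949848) (l 15159376))) (b (l 16059352) (l 15658824))) (a (b (a (l 15150768) (l 14956400)) (a (l 15988888) (l 15359480))) (b (l 15272976) (a (l 14973088) (l 15071416))))) (b (a (b (l 16632648) (l 16419304)) (l 1)) (a (b (l 15971656) (l 15558984)) (b (l 16777096) (l 16304168)))))), by decide +kernel⟩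

theorem s8_pm_022 : ∃ t, chk3 f_pm_022 t 2 3 1 = true := ex3_b k5_pm_022 k6_pm_022

theorem s9_pm_022 : ∃ t, chk3 f_pm_022 t 1 3 1 = true := ex3_a s8_pm_022 k7_pm_022

theorem s10_pm_022 : ∃ t, chk3 f_pm_022 t 8 2 1 = true := ex3_a k0_pm_022 k1_pm_022

theorem s11_pm_022 : ∃ t, chk3 f_pm_022 t 4 2 1 = true := ex3_a s10_pm_022 k2_pm_022

theorem s12_pm_022 : ∃ t, chk3 f_pm_022 t 2 2 1 = true := ex3_a s11_pm_022 k3_pm_022

theorem s13_pm_022 : ∃ t, chk3 f_pm_022 t 1 2 1 = true := ex3_a s12_pm_022 k4_pm_022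

theorem s14_pm_022 : ∃ t, chk3 f_pm_022 t 1 1 1 = true := ex3_b s13_pm_022 s9_pm_022

theorem c_pm_022 : CertFX 67108864 469762048 1073741824 536870912 1046898278 26843546 true true false .pp 0 2 2
    ndF2q0 ndF5q2 pcF2 Cut.none Ext.none :=
  certFX1 (fam := true) (s1 := true) (s2 := false) (a := 0) (b := 2) (c := 2) (cn := .pp) (n1 := ndF2q0) (n2 := ndF5q2) (pc := pcF2) (cut := Cut.none) (xt := Ext.none) (P1 := 67108864) (W1 := 469762048) (P2 := 1073741824) (W2 := 536870912) (P3 := 1046898278) (W3 := 26843546)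
    rfl (fun _ => rfl) s14_pm_022

noncomputable def f_pm_023 : ℕ → ℕ → ℕ → ℕ → Bool := onCell 1610612736 536870912 1073741824 536870912 1046898278 26843546
    (rowFX 2 true true false .up 0 2 3 (qsf 67108864 469762048 1073741824 536870912 3) ndF2q0 ndF5q2 pcF3 Cut.none Ext.none)

def k0_pm_023 : ∃ t, chk3 f_pm_023 t 1 1 1 = true :=
  ⟨(b (a (b (a (b (l 16004552) (l 15226904)) (b (l 2) (l 15226904))) (b (a (b (l 14885272) (l 15602360)) (b (l 14885272) (l 15602360))) (a (b (l 16385096) (l 16776664)) (b (l 16385096) (l 16776664))))) (a (b (l 2) (a (b (l 2) (b (l 2) (l 16776672))) (l 2))) (l 2))) (a (a (b (a (b (l 16746736) (b (l 16613728) (l 16408352))) (l 16757584)) (a (b (a (b (l 16038616) (l 15665064)) (l 16079376)) (a (b (a (l 15312208) (l 15496200)) (c (l 539584921975) (l 586829481079))) (b (l 15748952) (l 15299400)))) (b (l 16436976) (a (b (l 16038616) (l 15748952)) (l 16100352))))) (b (l 16777216) (a (b (l 16746736) (l 16457944)) (l 16757584)))) (a (a (b (l 16777208)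 (l 16777216)) (a (l 16777192) (c (l 16777208) (l 16777208)))) (b (b (l 2) (l 4)) (l 4))))), by decide +kernel⟩

theorem c_pm_023 : CertFX 67108864 469762048 1073741824 536870912 1046898278 26843546 true true false .up 0 2 3
    ndF2q0 ndF5q2 pcF3 Cut.none Ext.none :=
  certFX2 (fam := true) (s1 := true) (s2 := false) (a := 0) (b := 2) (c := 3) (cn := .up) (n1 := ndF2q0) (n2 := ndF5q2) (pc := pcF3) (cut := Cut.none) (xt := Ext.none) (P1 := 67108864) (W1 := 469762048) (P2 := 1073741824) (W2 := 536870912) (P3 := 1046898278) (W3 := 26843546)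
    rfl (fun _ => rfl) k0_pm_023

noncomputable def f_pm_033 : ℕ → ℕ → ℕ → ℕ → Bool := onCell 1610612736 536870912 0 1230186008 1046898278 26843546
    (rowFX 2 true true false .pnn 0 3 3 (qsf 67108864 469762048 0 1230186008 3) ndF2q0 ndF5q3 pcF3 Cut.none Ext.none)

def k0_pm_033 : ∃ t, chk3 f_pm_033 t 1 1 1 = true :=
  ⟨(b (a (l 1) (a (l 1) (a (l 1) (l 4)))) (b (a (l 1) (a (b (l 1) (a (a (l 1) (a (l 1) (b (l 1) (a (l 557838699911) (l 310341394727))))) (a (a (b (l 1) (a (l 15240600) (l 15290248))) (l 4)) (l 4)))) (l 4))) (a (b (a (l 1) (a (l 1) (b (a (l 1) (b (l 1) (c (l 15106712) (l 14986616)))) (a (b (l 1) (l 15244640)) (c (l 15372032) (l 15406488)))))) (a (b (l 1) (a (b (l 1) (a (l 1) (b (l 1) (l 617431280903)))) (a (b (l 1) (l 432748211271)) (b (l 476234683927) (l 15724120))))) (a (b (a (b (l 1) (l 495025131895)) (b (l 15118032) (l 15677864))) (b (a (l 15691792) (l 15987968)) (l 15954992))) (b (a (b (l 15681760) (l 15987416)) (b (l 15990328) (l 16230088))) (a (l 16380784)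 (l 16549248)))))) (a (b (a (b (a (c (l 336648204231) (l 340943123495)) (c (l 15559736) (l 15552208))) (a (c (l 15859080) (l 15793192)) (c (l 16148288) (l 16131944)))) (a (c (b (l 15959040) (l 16390248)) (b (l 15790936) (l 16380192))) (l 4))) (a (b (a (l 16357040) (l 16480712)) (a (l 16719304) (l 16774552))) (a (a (l 16609352) (l 16698032)) (a (l 16774584) (l 4))))) (l 4))))), by decide +kernel⟩

theorem c_pm_033 : CertFX 67108864 469762048 0 1230186008 1046898278 26843546 true true false .pnn 0 3 3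
    ndF2q0 ndF5q3 pcF3 Cut.none Ext.none :=
  certFX2 (fam := true) (s1 := true) (s2 := false) (a := 0) (b := 3) (c := 3) (cn := .pnn) (n1 := ndF2q0) (n2 := ndF5q3) (pc := pcF3) (cut := Cut.none) (xt := Ext.none) (P1 := 67108864) (W1 := 469762048) (P2 := 0) (W2 := 1230186008) (P3 := 1046898278) (W3 := 26843546)
    rfl (fun _ => rfl) k0_pm_033

noncomputable def f_pm_101 : ℕ → ℕ → ℕ → ℕ → Bool := onCell 536870912 536870912 0 536870912 1046898278 26843546
    (rowFX 2 true true false .npn 1 0 1 (qsf 536870912 536870912 0 536870912 1) ndF2q1 ndF5q0 pcF1 Cut.none Ext.none)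

def k0_pm_101 : ∃ t, chk3 f_pm_101 t 1 1 1 = true :=
  ⟨(a (l 3) (l 3)), by decide +kernel⟩

theorem c_pm_101 : CertFX 536870912 536870912 0 536870912 1046898278 26843546 true true false .npn 1 0 1
    ndF2q1 ndF5q0 pcF1 Cut.none Ext.none :=
  certFX2 (fam := true) (s1 := true) (s2 := false) (a := 1) (b := 0) (c := 1) (cn := .npn) (n1 := ndF2q1) (n2 := ndF5q0) (pc := pcF1) (cut := Cut.none) (xt := Ext.none) (P1 := 536870912) (W1 := 536870912) (P2 := 0) (W2 := 536870912) (P3 := 1046898278) (W3 := 26843546)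
    rfl (fun _ => rfl) k0_pm_101

noncomputable def f_pm_102 : ℕ → ℕ → ℕ → ℕ → Bool := onCell 536870912 536870912 1073741824 536870912 1046898278 26843546
    (rowFX 1 true true false .npp 1 0 2 (qsf 536870912 536870912 0 536870912 2) ndF2q1 ndF5q0 pcF2 Cut.none Ext.none)

def k0_pm_102 : ∃ t, chk3 f_pm_102 t 1 2 1 = true :=
  ⟨(b (b (l 3) (a (b (l 3) (a (b (l 3) (c (l 829633331095) (l 786683657559))) (b (l 3) (c (l 1778821103511) (l 1732113333591))))) (a (l 3) (l 3)))) (b (b (b (b (a (c (a (l 16773296) (l 16777208)) (a (l 16773192) (l 16777208))) (a (a (a (l 16777208) (l 16771088)) (l 3)) (l 3))) (a (a (l 2) (c (l 16777088) (l 16777088))) (a (c (b (l 16765400) (l 16765400)) (b (l 16765096) (l 16765096))) (a (b (l 3835573359719) (a (l 16716712) (l 16652624))) (a (c (l 999284291527) (l 16679272)) (c (l 7661852135479) (l 9458759074167))))))) (b (a (b (c (l 16770120) (l 16769936)) (l 16755936)) (a (c (b (l 16765976) (a (l 16769464) (l 16760848))) (b (a (l 16774608) (l 16758632))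 (b (l 16767136) (l 16763920)))) (a (b (c (l 16681200) (l 16678736)) (c (a (l 16717856) (l 16633840)) (a (l 16716320) (l 16630160)))) (b (c (a (l 16688760) (l 16639872)) (a (l 16687208) (l 16659592))) (c (a (l 16666880) (c (l 16701992) (l 16701688))) (a (l 16664672) (c (l 16701384) (l 16701080)))))))) (b (a (l 16737784) (b (a (l 16756664) (a (c (l 16675488) (l 16672872)) (c (a (l 16651112) (l 16695736)) (a (l 16648424) (l 16716584))))) (a (l 16749160) (a (l 16678480) (a (b (c (l 16644976) (l 16642112)) (l 16641992)) (b (c (l 16716704) (l 16716608)) (l 16714296))))))) (b (a (l 16730016) (a (l 16741464) (a (l 16684592) (a (l 16640712) (l 16713608))))) (a (l 16727232) (a (l 16735744) (a (l 16689344) (a (l 16636512) (a (l 16691176) (l 16699648)))))))))) (a (l 16741312) (a (l 16741984) (a (l 16686608) (a (l 16582552) (l 16613520)))))) (a (l 16835856) (a (l 16766008) (a (l 16672200) (b (a (l 16525432) (l 16467168)) (l 16465640))))))), by decide +kernel⟩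

def k1_pm_102 : ∃ t, chk3 f_pm_102 t 1 3 1 = true :=
  ⟨(a (b (l 16777216) (l 2)) (a (b (l 16765256) (l 16765256)) (b (b (l 16401280) (l 16569048)) (l 16569048)))), by decide +kernel⟩

theorem s2_pm_102 : ∃ t, chk3 f_pm_102 t 1 1 1 = true := ex3_b k0_pm_102 k1_pm_102

theorem c_pm_102 : CertFX 536870912 536870912 0 536870912 1046898278 26843546 true true false .npp 1 0 2
    ndF2q1 ndF5q0 pcF2 Cut.none Ext.none :=
  certFX1 (fam := true) (s1 := true) (s2 := false) (a := 1) (b := 0) (c := 2) (cn := .npp) (n1 := ndF2q1) (n2 := ndF5q0) (pc := pcF2) (cut := Cut.none) (xt := Ext.none) (P1 := 536870912) (W1 := 536870912) (P2 := 0) (W2 := 536870912) (P3 := 1046898278) (W3 := 26843546)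
    rfl (fun _ => rfl) s2_pm_102

noncomputable def f_pm_112 : ℕ → ℕ → ℕ → ℕ → Bool := onCell 1073741824 536870912 536870912 469762048 1046898278 26843546
    (rowFX 2 true true false .dn 1 1 2 (qsf 536870912 536870912 536870912 469762048 2) ndF2q1 ndF5q1 pcF2 Cut.none Ext.none)

def k0_pm_112 : ∃ t, chk3 f_pm_112 t 1 1 1 = true :=
  ⟨(b (a (a (a (l 3) (a (l 3) (b (a (l 3) (c (l 16777200) (l 795810463639))) (a (c (l 705616274743) (l 695952598359)) (b (a (l 16777200) (l 16774592)) (l 1)))))) (a (a (a (c (a (l 16788600) (l 16774392)) (a (b (l 16774296) (l 16764384)) (l 16774320))) (a (l 16755680) (a (l 16727152) (a (l 16721544) (b (l 16724840) (l 16721104)))))) (l 16742792)) (l 16772096))) (a (l 16811968) (b (a (l 16747960) (l 16634120)) (l 16771408)))) (a (a (l 1) (a (l 1) (b (l 355978428599) (l 1)))) (b (a (l 16737208) (l 16737208)) (b (a (l 652330575927) (l 16332128)) (a (l 1) (l 15193856)))))), by decide +kernel⟩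

theorem c_pm_112 : CertFX 536870912 536870912 536870912 469762048 1046898278 26843546 true true false .dn 1 1 2
    ndF2q1 ndF5q1 pcF2 Cut.none Ext.none :=
  certFX2 (fam := true) (s1 := true) (s2 := false) (a := 1) (b := 1) (c := 2) (cn := .dn) (n1 := ndF2q1) (n2 := ndF5q1) (pc := pcF2) (cut := Cut.none) (xt := Ext.none) (P1 := 536870912) (W1 := 536870912) (P2 := 536870912) (W2 := 469762048) (P3 := 1046898278) (W3 := 26843546)
    rfl (fun _ => rfl) k0_pm_112

noncomputable def f_pm_113 : ℕ → ℕ → ℕ → ℕ → Bool := onCell 536870912 536870912 536870912 469762048 1046898278 26843546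
    (rowFX 0 true true false .nn 1 1 3 (qsf 536870912 536870912 536870912 469762048 3) ndF2q1 ndF5q1 pcF3 Cut.none Ext.none)

def k0_pm_113 : ∃ t, chk3 f_pm_113 t 1 1 1 = true :=
  ⟨(b (a (l 1) (a (l 317324164135) (b (a (l 16668408) (l 16465584)) (a (l 16668408) (l 16465584))))) (a (b (l 353294288103) (b (a (l 16332128) (l 16332128)) (a (l 15382600) (b (l 15632304) (l 15129880))))) (b (a (l 16744064) (a (l 16630696) (l 16428736))) (a (b (a (l 16334960) (l 16348664)) (l 15393504)) (a (b (l 16237376) (l 15294152)) (b (l 16066984) (a (b (l 15445720) (l 14962528)) (b (l 15429720) (a (l 14982376) (l 15088696)))))))))), by decide +kernel⟩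

theorem c_pm_113 : CertFX 536870912 536870912 536870912 469762048 1046898278 26843546 true true false .nn 1 1 3
    ndF2q1 ndF5q1 pcF3 Cut.none Ext.none :=
  certFX0 (fam := true) (s1 := true) (s2 := false) (a := 1) (b := 1) (c := 3) (cn := .nn) (n1 := ndF2q1) (n2 := ndF5q1) (pc := pcF3) (cut := Cut.none) (xt := Ext.none) (P1 := 536870912) (W1 := 536870912) (P2 := 536870912) (W2 := 469762048) (P3 := 1046898278) (W3 := 26843546)
    rfl k0_pm_113

noncomputable def f_pm_123 : ℕ → ℕ → ℕ → ℕ → Bool := onCell 1610612736 536870912 1073741824 536870912 1046898278 26843546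
    (rowFX 2 true true false .npn 1 2 3 (qsf 536870912 536870912 1073741824 536870912 3) ndF2q1 ndF5q2 pcF3 Cut.none Ext.none)

def k0_pm_123 : ∃ t, chk3 f_pm_123 t 1 1 1 = true :=
  ⟨(b (a (b (a (b (l 16025520) (l 15226904)) (b (l 16004552) (l 15226904))) (b (a (b (l 14885272) (l 1)) (b (l 14885272) (l 15602360))) (a (l 1) (b (l 16385096) (l 16776664))))) (a (b (a (b (l 16026504) (l 15226912)) (a (b (l 16030192) (l 15226944)) (b (l 16032744) (l 15227160)))) (a (b (b (a (l 14885272) (l 14885288)) (l 15602376)) (b (l 16385104) (l 16776672))) (b (a (b (l 14885312) (l 15602400)) (b (l 14885296) (l 15602384))) (a (b (l 16385128) (l 16776696)) (b (l 16385112) (l 16776680)))))) (a (a (b (b (a (l 16028808) (l 15916560)) (c (l 15246256) (l 15207328))) (b (c (b (l 14909568) (l 15617448)) (b (l 14861064) (l 15587336))) (a (b (l 16385096) (l 16776664)) (l 4)))) (b (a (b (c (l 16028168) (l 16000480)) (c (l 15243496) (l 15205496))) (l 4)) (l 4))) (l 4)))) (a (a (l 1) (a (l 1) (l 16777216)))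 (a (a (c (l 16777208) (l 16777208)) (a (l 16777192) (a (l 16777208) (l 16777216)))) (a (a (c (l 16776928) (l 16776920)) (l 4)) (l 4))))), by decide +kernel⟩

theorem c_pm_123 : CertFX 536870912 536870912 1073741824 536870912 1046898278 26843546 true true false .npn 1 2 3
    ndF2q1 ndF5q2 pcF3 Cut.none Ext.none :=
  certFX2 (fam := true) (s1 := true) (s2 := false) (a := 1) (b := 2) (c := 3) (cn := .npn) (n1 := ndF2q1) (n2 := ndF5q2) (pc := pcF3) (cut := Cut.none) (xt := Ext.none) (P1 := 536870912) (W1 := 536870912) (P2 := 1073741824) (W2 := 536870912) (P3 := 1046898278) (W3 := 26843546)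
    rfl (fun _ => rfl) k0_pm_123

noncomputable def f_pm_133 : ℕ → ℕ → ℕ → ℕ → Bool := onCell 536870912 536870912 0 1230186008 1046898278 26843546
    (rowFX 0 true true false .dn 1 3 3 (qsf 536870912 536870912 0 1230186008 3) ndF2q1 ndF5q3 pcF3 Cut.none Ext.none)

def k0_pm_133 : ∃ t, chk3 f_pm_133 t 1 1 1 = true :=
  ⟨(b (l 2) (l 4)), by decide +kernel⟩

theorem c_pm_133 : CertFX 536870912 536870912 0 1230186008 1046898278 26843546 true true false .dn 1 3 3
    ndF2q1 ndF5q3 pcF3 Cut.none Ext.none :=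
  certFX0 (fam := true) (s1 := true) (s2 := false) (a := 1) (b := 3) (c := 3) (cn := .dn) (n1 := ndF2q1) (n2 := ndF5q3) (pc := pcF3) (cut := Cut.none) (xt := Ext.none) (P1 := 536870912) (W1 := 536870912) (P2 := 0) (W2 := 1230186008) (P3 := 1046898278) (W3 := 26843546)
    rfl k0_pm_133

noncomputable def f_pm_202_a : ℕ → ℕ → ℕ → ℕ → Bool := onCell 0 420477299 0 536870912 1046898278 26843546
    (rowFX 0 true true false .pp 2 0 2 (qsf 0 420477299 0 536870912 2) ndF2q2a ndF5q0 pcF2 Cut.none Ext.none)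

def k0_pm_202_a : ∃ t, chk3 f_pm_202_a t 2 4 1 = true :=
  ⟨(b (b (a (b (c (b (a (l 16377864) (l 16434016)) (a (c (l 16215232) (l 16169792)) (b (c (l 16396600) (l 16372832)) (l 16160448)))) (b (c (a (l 16281168) (l 16213176)) (b (a (l 16424816) (l 16317008)) (a (l 16354592) (l 16433528)))) (a (l 16124928) (c (b (l 16350000) (l 16284560)) (l 16345632))))) (c (a (b (l 16039632) (l 15988840)) (b (l 15983248) (l 16054496))) (a (l 16097488) (l 16167032)))) (b (b (a (c (l 16317720) (b (c (l 16350624) (l 16133776)) (c (l 16322264) (l 16385184)))) (c (a (b (l 16195376) (l 16241792)) (b (l 16134224) (a (l 16127608) (l 16074768)))) (b (a (c (l 16168192) (b (l 15981416) (l 16162408))) (c (l 16105288) (b (l 16101912) (l 16054464)))) (a (c (l 16235392) (l 16232504)) (c (b (l 16080432) (l 16099200)) (a (l 16114040) (l 16059208))))))) (c (a (b (l 16355424) (l 16248472)) (c (l 16047288) (c (l 16121288) (l 16123968)))) (a (c (l 16372912) (l 16504600)) (c (l 16119464) (l 16200952))))) (c (b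 (a (a (l 16197528) (l 16248072)) (a (l 16408760) (l 16267872))) (a (l 16152320) (l 16297504))) (a (l 16168080) (b (l 16277488) (l 16458664)))))) (a (c (b (a (l 15886320) (l 15946376)) (a (l 15754096) (l 15680976))) (b (l 15777072) (l 15768928))) (a (b (c (l 15992816) (l 16128080)) (c (l 15819920) (l 15935872))) (b (c (l 16124400) (l 16246512)) (c (l 15996632) (l 16182776)))))) (b (a (b (a (b (b (c (l 15678272) (l 15649248)) (l 15674088)) (l 15734624)) (b (b (c (l 15722896) (l 15695184)) (a (l 15676184) (l 15696224))) (l 15728704))) (l 15852816)) (a (b (b (l 15823248) (a (l 15749120) (l 15804184))) (l 15867776)) (b (b (l 16053168) (l 15967088)) (b (a (l 15875944) (l 15961776)) (l 15958128))))) (a (l 16058064) (l 15906344)))), by decide +kernel⟩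

def k1_pm_202_a : ∃ t, chk3 f_pm_202_a t 6 8 1 = true :=
  ⟨(b (b (a (b (c (a (l 16103272) (l 16119344)) (c (a (l 15959560) (l 16101488)) (b (c (l 16115064) (l 16109280)) (l 16012360)))) (c (a (b (a (b (l 16023032) (l 16043648)) (l 16007320)) (b (l 16005712) (l 16098856))) (b (l 16013968) (b (l 15977224) (l 15976096)))) (a (a (c (l 15892256) (l 16054224)) (b (l 15960880) (l 15969936))) (c (b (l 16021720) (l 15970104)) (l 15965768))))) (c (b (l 16148176) (c (l 16009880) (l 16017480))) (b (c (b (l 16162440) (l 16093920)) (b (c (l 16153680) (l 16147920)) (l 16088656))) (c (l 16011856) (l 15982768))))) (a (b (c (a (l 16128312) (b (a (l 16020904) (l 15957352)) (l 16030696))) (a (l 16157824) (b (a (l 15962896) (l 15897048)) (l 15976464)))) (c (l 16075152) (l 16090792))) (b (c (a (b (l 15949968) (a (l 15920584) (l 15904032))) (l 15932616)) (a (a (l 15804976) (l 15858304)) (l 15867000))) (b (a (c (a (l 15951688) (l 15867840)) (a (l 15868720) (l 15781760))) (c (l 15849944) (l 15762160)))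 (a (l 15748296) (c (l 15792768) (l 15629136))))))) (a (c (b (a (l 16443832) (l 16201360)) (a (l 16323816) (l 16484192))) (b (l 16159160) (l 16369752))) (b (a (c (l 16073216) (l 16066816)) (b (a (l 15653696) (c (l 15637112) (l 15570976))) (l 15826216))) (c (c (l 15992352) (l 16037840)) (l 16008016))))), by decide +kernel⟩

def k2_pm_202_a : ∃ t, chk3 f_pm_202_a t 7 8 1 = true :=
  ⟨(b (b (a (c (b (l 16207392) (c (l 16079360) (l 16025488))) (b (c (b (l 16245816) (l 16172288)) (b (c (l 16237464) (l 16169064)) (l 16167864))) (c (l 16083592) (l 16054256)))) (c (b (a (l 16358712) (l 16460360)) (c (l 16206752) (l 16155760))) (b (b (c (l 16431496) (c (l 16361576) (l 16294080))) (c (l 16290224) (l 16329896))) (c (l 16216016) (l 16229488))))) (a (c (b (l 15863488) (l 15863408)) (l 15642360)) (c (b (l 16026576) (l 16015608)) (l 15800864)))) (a (b (a (a (b (c (l 15681224) (l 15612864)) (c (l 15691200) (l 15642176))) (b (l 15655616) (c (b (l 15588392) (l 15587072)) (l 15441840)))) (c (l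 15517432) (l 15579384))) (a (c (l 15800592) (l 15790040)) (b (c (a (l 15554384) (l 15360480)) (a (l 15513728) (l 15443600))) (c (l 15605560) (l 15573584))))) (b (c (l 15706328) (l 15706440)) (a (b (l 15480072) (a (c (b (l 15403616) (l 15418280)) (l 15237704)) (c (l 15382672) (l 15344392)))) (c (l 15499208) (l 15457752)))))), by decide +kernel⟩

def k3_pm_202_a : ∃ t, chk3 f_pm_202_a t 3 9 1 = true :=
  ⟨(a (b (a (b (b (l 16238504) (l 16287536)) (b (l 16196976) (a (l 16051976) (l 16199712)))) (b (b (l 16167560) (l 16397664)) (l 16402968))) (a (a (l 16167312) (b (l 16052968) (l 16260120))) (b (a (b (l 16315640) (l 16265360)) (l 16404472)) (a (l 16309512) (l 16282160))))) (a (b (b (c (l 15741616) (l 15679736)) (a (l 16290688) (l 16069848))) (b (a (l 16507752) (l 16320616)) (a (b (l 16559488) (a (l 16449032) (l 16515912))) (l 16580976)))) (b (b (a (a (l 15577416) (a (l 15331400) (c (l 15361160) (l 15200128)))) (b (a (b (l 15285664) (l 15256840)) (l 15282480)) (a (l 15320864) (b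 (l 15195776) (l 15195552))))) (a (l 15777296) (l 15446688))) (a (l 15951280) (l 15642776))))), by decide +kernel⟩

def k4_pm_202_a : ∃ t, chk3 f_pm_202_a t 1 5 1 = true :=
  ⟨(a (b (a (b (l 16266288) (l 16461096)) (b (l 16299280) (l 16489720))) (a (b (l 16644568) (l 16702520)) (b (l 16544832) (l 16752832)))) (a (b (b (l 16429224) (l 16521840)) (b (l 16653160) (l 16609320))) (b (a (b (b (a (l 16516456) (b (l 16507480) (l 16578312))) (l 16620000)) (l 16602560)) (b (b (a (b (l 16509824) (l 16468024)) (l 16285936)) (a (b (l 16652448) (l 16627648)) (b (a (l 16541592) (l 16400224)) (a (l 16584160) (l 16504808))))) (a (l 16533528) (l 16439184)))) (a (b (l 16464800) (l 16394112)) (b (l 16360840) (l 16285280)))))), by decide +kernel⟩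

def k5_pm_202_a : ∃ t, chk3 f_pm_202_a t 1 3 1 = true :=
  ⟨(a (b (b (a (l 16702392) (c (l 16753016) (l 16752392))) (a (c (l 16703352) (l 16701432)) (c (l 16753016) (l 16752392)))) (l 2)) (b (a (b (b (l 16609208) (l 16609208)) (c (l 16611360) (l 16607056))) (b (a (l 16394016) (b (l 16285176) (l 16285176))) (a (l 16394016) (l 16285176)))) (a (b (c (l 16611360) (l 16607056)) (l 2)) (b (a (l 16394016) (l 16285176)) (c (l 16362384) (l 16351600)))))), by decide +kernel⟩

theorem s6_pm_202_a : ∃ t, chk3 f_pm_202_a t 3 8 1 = true := ex3_a k1_pm_202_a k2_pm_202_a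

theorem s7_pm_202_a : ∃ t, chk3 f_pm_202_a t 3 4 1 = true := ex3_b s6_pm_202_a k3_pm_202_a

theorem s8_pm_202_a : ∃ t, chk3 f_pm_202_a t 1 4 1 = true := ex3_a k0_pm_202_a s7_pm_202_a

theorem s9_pm_202_a : ∃ t, chk3 f_pm_202_a t 1 2 1 = true := ex3_b s8_pm_202_a k4_pm_202_a

theorem s10_pm_202_a : ∃ t, chk3 f_pm_202_a t 1 1 1 = true := ex3_b s9_pm_202_a k5_pm_202_a

theorem c_pm_202_a : CertFX 0 420477299 0 536870912 1046898278 26843546 true true false .pp 2 0 2
    ndF2q2a ndF5q0 pcF2 Cut.none Ext.none :=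
  certFX0 (fam := true) (s1 := true) (s2 := false) (a := 2) (b := 0) (c := 2) (cn := .pp) (n1 := ndF2q2a) (n2 := ndF5q0) (pc := pcF2) (cut := Cut.none) (xt := Ext.none) (P1 := 0) (W1 := 420477299) (P2 := 0) (W2 := 536870912) (P3 := 1046898278) (W3 := 26843546)
    rfl s10_pm_202_a

noncomputable def f_pm_202_b : ℕ → ℕ → ℕ → ℕ → Bool := onCell 1073741824 536870912 0 536870912 1046898278 26843546
    (rowFX 2 true true false .pp 2 0 2 (qsf 1239849684 370763052 0 536870912 2) ndF2q2b ndF5q0 pcF2 Cut.none Ext.none)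

def k0_pm_202_b : ∃ t, chk3 f_pm_202_b t 2 1 1 = true :=
  ⟨(a (l 1) (b (b (a (b (b (b (b (a (b (a (l 1) (b (c (l 16349976) (l 561599277479)) (l 1))) (l 1)) (c (a (a (l 16324872) (l 16145104)) (l 15884920)) (a (c (b (l 16225256) (a (l 16351704) (l 16168048))) (b (c (l 16206928) (l 16166632)) (l 16190696))) (c (l 15882136) (l 15649720))))) (a (l 1) (a (a (a (l 1) (b (c (l 16302088) (l 16281104)) (l 1))) (c (c (l 16165008) (l 16139792)) (l 16009928))) (c (b (l 15950328) (l 15864856)) (l 15784792))))) (a (l 1) (a (a (l 1) (b (c (l 213169740375) (l 16255200)) (l 1))) (c (b (l 449392388919) (l 289941865239)) (l 15806536))))) (a (l 1) (a (l 1) (b (a (l 1) (c (l 15915632) (l 16156608))) (l 1))))) (l 1)) (b (b (a (b (c (b (l 15395992) (c (l 15341048) (l 15388360))) (b (c (l 15381800) (l 15141768)) (l 15220480))) (c (b (c (l 15478168) (l 15476544)) (l 15313304)) (l 15509128))) (b (c (b (l 15073232) (c (l 15174112) (l 15132440))) (b (c (l 15051128) (l 15036512)) (l 15103728))) (c (c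 (b (l 15169320) (l 15217000)) (l 15211872)) (l 15231208)))) (a (b (c (a (b (l 15799912) (l 15673776)) (l 15538384)) (l 408589686359)) (c (a (b (l 15872904) (l 1)) (b (l 15677200) (l 15519552))) (a (l 16075304) (l 15707944)))) (c (b (a (l 15376960) (l 15390144)) (c (a (l 15558528) (l 15571752)) (l 15564840))) (a (l 15458456) (l 15472128))))) (a (b (a (l 1) (b (b (l 234643812007) (l 1)) (l 1))) (l 1)) (a (b (b (c (a (l 15700672) (l 15716304)) (l 15693544)) (l 15820744)) (l 1)) (b (c (l 15804496) (l 15778536)) (l 16141248)))))) (l 1)) (l 1))), by decide +kernel⟩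

def k1_pm_202_b : ∃ t, chk3 f_pm_202_b t 3 1 1 = true :=
  ⟨(b (a (b (b (b (c (b (a (b (l 15073704) (l 15153280)) (l 15107344)) (a (c (l 15209352) (l 15221392)) (l 15223200))) (b (a (b (l 15042544) (l 15106592)) (l 15079184)) (l 15115144))) (a (c (a (b (l 15402080) (l 15587512)) (l 15496112)) (l 15489168)) (c (l 15496128) (l 15493760)))) (a (b (c (a (l 15819496) (l 15838752)) (l 15803272)) (a (a (l 16093576) (l 16075920)) (l 16089824))) (b (c (l 15844976) (l 15820320)) (a (l 16107552) (l 16113248))))) (a (b (b (a (l 16328896) (l 16295848)) (a (l 1) (l 16431240))) (l 1)) (b (a (b (l 16295024) (l 16487768)) (l 16398136)) (b (a (l 16708120) (l 16667928)) (a (l 1) (l 16695464)))))) (b (b (b (c (b (l 15107344) (l 15223200)) (a (l 15155776) (l 15155776))) (a (l 15490848) (l 15490848))) (a (b (l 15833864) (l 16113256)) (l 15967568))) (a (b (l 16408600) (a (l 350072853015) (l 16721448))) (b (l 16410784) (l 16729304))))) (a (l 1) (b (a (b (a (l 430603368743) (l 295312236631)) (l 1))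 (b (a (l 16751792) (l 16756192)) (a (l 493954178311) (l 16740720)))) (l 1)))), by decide +kernel⟩

theorem s2_pm_202_b : ∃ t, chk3 f_pm_202_b t 1 1 1 = true := ex3_a k0_pm_202_b k1_pm_202_b

theorem c_pm_202_b : CertFX 1239849684 370763052 0 536870912 1046898278 26843546 true true false .pp 2 0 2
    ndF2q2b ndF5q0 pcF2 Cut.none Ext.none :=
  certFX2 (fam := true) (s1 := true) (s2 := false) (a := 2) (b := 0) (c := 2) (cn := .pp) (n1 := ndF2q2b) (n2 := ndF5q0) (pc := pcF2) (cut := Cut.none) (xt := Ext.none) (P1 := 1239849684) (W1 := 370763052) (P2 := 0) (W2 := 536870912) (P3 := 1046898278) (W3 := 26843546)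
    rfl (fun _ => rfl) s2_pm_202_b

noncomputable def f_pm_203_a : ℕ → ℕ → ℕ → ℕ → Bool := onCell 0 420477299 1610612736 536870912 1046898278 26843546
    (rowFX 1 true true false .up 2 0 3 (qsf 0 420477299 0 536870912 3) ndF2q2a ndF5q0 pcF3 Cut.none Ext.none)

def k0_pm_203_a : ∃ t, chk3 f_pm_203_a t 1 1 1 = true :=
  ⟨(b (b (a (b (c (l 16735888) (l 16734816)) (b (l 16735352) (l 4))) (b (a (l 16609208) (c (l 16362384) (l 16351600))) (a (b (l 16609208) (l 16609208)) (c (l 16362384) (l 16351600))))) (a (l 4) (a (l 4) (l 2)))) (l 2)), by decide +kernel⟩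

theorem c_pm_203_a : CertFX 0 420477299 0 536870912 1046898278 26843546 true true false .up 2 0 3
    ndF2q2a ndF5q0 pcF3 Cut.none Ext.none :=
  certFX1 (fam := true) (s1 := true) (s2 := false) (a := 2) (b := 0) (c := 3) (cn := .up) (n1 := ndF2q2a) (n2 := ndF5q0) (pc := pcF3) (cut := Cut.none) (xt := Ext.none) (P1 := 0) (W1 := 420477299) (P2 := 0) (W2 := 536870912) (P3 := 1046898278) (W3 := 26843546)
    rfl (fun _ => rfl) k0_pm_203_a

noncomputable def f_pm_203_b : ℕ → ℕ → ℕ → ℕ → Bool := onCell 1239849684 370763052 1610612736 536870912 1046898278 26843546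
    (rowFX 1 true true false .up 2 0 3 (qsf 1239849684 370763052 0 536870912 3) ndF2q2b ndF5q0 pcF3 Cut.none Ext.none)

def k0_pm_203_b : ∃ t, chk3 f_pm_203_b t 1 1 1 = true :=
  ⟨(b (b (a (b (c (a (l 16753368) (l 16737408)) (a (l 16752752) (l 16736376))) (b (l 341147764487) (l 4))) (b (a (b (l 16333304) (l 16513720)) (a (b (l 15834248) (l 16114536)) (b (a (l 15505592) (b (l 14968344) (l 15298216))) (l 15716536)))) (a (b (l 16620584) (l 16740648)) (b (a (l 16328296) (l 16010984)) (l 16383288))))) (b (a (l 4) (b (a (l 4) (l 16545640)) (l 4))) (l 4))) (l 4)), by decide +kernel⟩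

theorem c_pm_203_b : CertFX 1239849684 370763052 0 536870912 1046898278 26843546 true true false .up 2 0 3
    ndF2q2b ndF5q0 pcF3 Cut.none Ext.none :=
  certFX1 (fam := true) (s1 := true) (s2 := false) (a := 2) (b := 0) (c := 3) (cn := .up) (n1 := ndF2q2b) (n2 := ndF5q0) (pc := pcF3) (cut := Cut.none) (xt := Ext.none) (P1 := 1239849684) (W1 := 370763052) (P2 := 0) (W2 := 536870912) (P3 := 1046898278) (W3 := 26843546)
    rfl (fun _ => rfl) k0_pm_203_b

noncomputable def f_pm_213_a : ℕ → ℕ → ℕ → ℕ → Bool := onCell 0 420477299 1610612736 536870912 1046898278 26843546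
    (rowFX 1 true true false .pnn 2 1 3 (qsf 0 420477299 536870912 469762048 3) ndF2q2a ndF5q1 pcF3 Cut.none Ext.none)

def k0_pm_213_a : ∃ t, chk3 f_pm_213_a t 1 1 1 = true :=
  ⟨(b (b (a (l 1) (b (a (l 1) (l 432213399687)) (a (b (l 1) (l 16609208)) (c (l 16362384) (l 16351600))))) (a (l 4) (b (a (l 4) (b (l 16356992) (l 4))) (l 4)))) (l 4)), by decide +kernel⟩

theorem c_pm_213_a : CertFX 0 420477299 536870912 469762048 1046898278 26843546 true true false .pnn 2 1 3
    ndF2q2a ndF5q1 pcF3 Cut.none Ext.none :=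
  certFX1 (fam := true) (s1 := true) (s2 := false) (a := 2) (b := 1) (c := 3) (cn := .pnn) (n1 := ndF2q2a) (n2 := ndF5q1) (pc := pcF3) (cut := Cut.none) (xt := Ext.none) (P1 := 0) (W1 := 420477299) (P2 := 536870912) (W2 := 469762048) (P3 := 1046898278) (W3 := 26843546)
    rfl (fun _ => rfl) k0_pm_213_a

noncomputable def f_pm_213_b : ℕ → ℕ → ℕ → ℕ → Bool := onCell 1239849684 370763052 536870912 469762048 1046898278 26843546
    (rowFX 0 true true false .pnn 2 1 3 (qsf 1239849684 370763052 536870912 469762048 3) ndF2q2b ndF5q1 pcF3 Cut.none Ext.none)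

def k0_pm_213_b : ∃ t, chk3 f_pm_213_b t 1 1 1 = true :=
  ⟨(l 4), by decide +kernel⟩

theorem c_pm_213_b : CertFX 1239849684 370763052 536870912 469762048 1046898278 26843546 true true false .pnn 2 1 3
    ndF2q2b ndF5q1 pcF3 Cut.none Ext.none :=
  certFX0 (fam := true) (s1 := true) (s2 := false) (a := 2) (b := 1) (c := 3) (cn := .pnn) (n1 := ndF2q2b) (n2 := ndF5q1) (pc := pcF3) (cut := Cut.none) (xt := Ext.none) (P1 := 1239849684) (W1 := 370763052) (P2 := 536870912) (W2 := 469762048) (P3 := 1046898278) (W3 := 26843546)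
    rfl k0_pm_213_b

noncomputable def f_pm_303 : ℕ → ℕ → ℕ → ℕ → Bool := onCell 1610612736 536870912 0 536870912 1046898278 26843546
    (rowFX 2 true true false .npn 3 0 3 (qsf 1610612736 469762048 0 536870912 3) ndF2q3 ndF5q0 pcF3 Cut.none Ext.none)

def k0_pm_303 : ∃ t, chk3 f_pm_303 t 1 1 1 = true :=
  ⟨(a (b (a (b (b (c (b (a (l 15175120) (l 15175120)) (l 15496128)) (b (a (l 15155776) (l 15155776)) (l 15493760))) (a (l 15967568) (l 15967568))) (a (l 1) (a (l 1) (l 16555552)))) (a (b (b (c (b (l 14986376) (l 15496128)) (b (c (l 15162528) (l 15154424)) (l 15493760))) (c (l 15976144) (l 15955336))) (a (l 16555552) (l 4))) (a (b (b (b (c (l 15175120) (l 15113832)) (l 4)) (l 4)) (l 4)) (l 4)))) (a (l 1) (l 4))) (l 4)), by decide +kernel⟩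

theorem c_pm_303 : CertFX 1610612736 469762048 0 536870912 1046898278 26843546 true true false .npn 3 0 3
    ndF2q3 ndF5q0 pcF3 Cut.none Ext.none :=
  certFX2 (fam := true) (s1 := true) (s2 := false) (a := 3) (b := 0) (c := 3) (cn := .npn) (n1 := ndF2q3) (n2 := ndF5q0) (pc := pcF3) (cut := Cut.none) (xt := Ext.none) (P1 := 1610612736) (W1 := 469762048) (P2 := 0) (W2 := 536870912) (P3 := 1046898278) (W3 := 26843546)
    rfl (fun _ => rfl) k0_pm_303

noncomputable def f_pm_313 : ℕ → ℕ → ℕ → ℕ → Bool := onCell 1610612736 469762048 536870912 469762048 1046898278 26843546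
    (rowFX 0 true true false .dn 3 1 3 (qsf 1610612736 469762048 536870912 469762048 3) ndF2q3 ndF5q1 pcF3 Cut.none Ext.none)

def k0_pm_313 : ∃ t, chk3 f_pm_313 t 1 1 1 = true :=
  ⟨(l 4), by decide +kernel⟩

theorem c_pm_313 : CertFX 1610612736 469762048 536870912 469762048 1046898278 26843546 true true false .dn 3 1 3
    ndF2q3 ndF5q1 pcF3 Cut.none Ext.none :=
  certFX0 (fam := true) (s1 := true) (s2 := false) (a := 3) (b := 1) (c := 3) (cn := .dn) (n1 := ndF2q3) (n2 := ndF5q1) (pc := pcF3) (cut := Cut.none) (xt := Ext.none) (P1 := 1610612736) (W1 := 469762048) (P2 := 536870912) (W2 := 469762048) (P3 := 1046898278) (W3 := 26843546)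
    rfl k0_pm_313

noncomputable def f_mm_001 : ℕ → ℕ → ℕ → ℕ → Bool := onCell 67108864 469762048 0 536870912 1046898278 26843546
    (rowFX 0 true false false .up 0 0 1 (qsf 67108864 469762048 0 536870912 1) ndF2q0 ndF5q0 pcF1 Cut.none Ext.none)

def k0_mm_001 : ∃ t, chk3 f_mm_001 t 1 1 1 = true :=
  ⟨(l 4), by decide +kernel⟩

theorem c_mm_001 : CertFX 67108864 469762048 0 536870912 1046898278 26843546 true false false .up 0 0 1
    ndF2q0 ndF5q0 pcF1 Cut.none Ext.none :=
  certFX0 (fam := true) (s1 := false) (s2 := false) (a := 0) (b := 0) (c := 1) (cn := .up) (n1 := ndF2q0) (n2 := ndF5q0) (pc := pcF1) (cut := Cut.none) (xt := Ext.none) (P1 := 67108864) (W1 := 469762048) (P2 := 0) (W2 := 536870912) (P3 := 1046898278) (W3 := 26843546)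
    rfl k0_mm_001

noncomputable def f_mm_011 : ℕ → ℕ → ℕ → ℕ → Bool := onCell 67108864 469762048 536870912 469762048 1046898278 26843546
    (rowFX 0 true false false .pnn 0 1 1 (qsf 67108864 469762048 536870912 469762048 1) ndF2q0 ndF5q1 pcF1 Cut.none Ext.none)

def k0_mm_011 : ∃ t, chk3 f_mm_011 t 1 1 1 = true :=
  ⟨(l 4), by decide +kernel⟩

theorem c_mm_011 : CertFX 67108864 469762048 536870912 469762048 1046898278 26843546 true false false .pnn 0 1 1
    ndF2q0 ndF5q1 pcF1 Cut.none Ext.none :=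
  certFX0 (fam := true) (s1 := false) (s2 := false) (a := 0) (b := 1) (c := 1) (cn := .pnn) (n1 := ndF2q0) (n2 := ndF5q1) (pc := pcF1) (cut := Cut.none) (xt := Ext.none) (P1 := 67108864) (W1 := 469762048) (P2 := 536870912) (W2 := 469762048) (P3 := 1046898278) (W3 := 26843546)
    rfl k0_mm_011

noncomputable def f_mm_012 : ℕ → ℕ → ℕ → ℕ → Bool := onCell 67108864 469762048 536870912 469762048 1046898278 26843546
    (rowFX 0 true false false .pnp 0 1 2 (qsf 67108864 469762048 536870912 469762048 2) ndF2q0 ndF5q1 pcF2 Cut.none Ext.none)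

def k0_mm_012 : ∃ t, chk3 f_mm_012 t 1 1 1 = true :=
  ⟨(l 4), by decide +kernel⟩

theorem c_mm_012 : CertFX 67108864 469762048 536870912 469762048 1046898278 26843546 true false false .pnp 0 1 2
    ndF2q0 ndF5q1 pcF2 Cut.none Ext.none :=
  certFX0 (fam := true) (s1 := false) (s2 := false) (a := 0) (b := 1) (c := 2) (cn := .pnp) (n1 := ndF2q0) (n2 := ndF5q1) (pc := pcF2) (cut := Cut.none) (xt := Ext.none) (P1 := 67108864) (W1 := 469762048) (P2 := 536870912) (W2 := 469762048) (P3 := 1046898278) (W3 := 26843546)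
    rfl k0_mm_012

noncomputable def f_mm_022 : ℕ → ℕ → ℕ → ℕ → Bool := onCell 67108864 469762048 1073741824 536870912 1046898278 26843546
    (rowFX 0 true false false .pp 0 2 2 (qsf 67108864 469762048 1073741824 536870912 2) ndF2q0 ndF5q2 pcF2 Cut.none Ext.none)

def k0_mm_022 : ∃ t, chk3 f_mm_022 t 1 1 1 = true :=
  ⟨(l 4), by decide +kernel⟩

theorem c_mm_022 : CertFX 67108864 469762048 1073741824 536870912 1046898278 26843546 true false false .pp 0 2 2
    ndF2q0 ndF5q2 pcF2 Cut.none Ext.none :=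
  certFX0 (fam := true) (s1 := false) (s2 := false) (a := 0) (b := 2) (c := 2) (cn := .pp) (n1 := ndF2q0) (n2 := ndF5q2) (pc := pcF2) (cut := Cut.none) (xt := Ext.none) (P1 := 67108864) (W1 := 469762048) (P2 := 1073741824) (W2 := 536870912) (P3 := 1046898278) (W3 := 26843546)
    rfl k0_mm_022

noncomputable def f_mm_023 : ℕ → ℕ → ℕ → ℕ → Bool := onCell 67108864 469762048 1073741824 536870912 1046898278 26843546
    (rowFX 0 true false false .up 0 2 3 (qsf 67108864 469762048 1073741824 536870912 3) ndF2q0 ndF5q2 pcF3 Cut.none Ext.none)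

def k0_mm_023 : ∃ t, chk3 f_mm_023 t 1 1 1 = true :=
  ⟨(l 4), by decide +kernel⟩

theorem c_mm_023 : CertFX 67108864 469762048 1073741824 536870912 1046898278 26843546 true false false .up 0 2 3
    ndF2q0 ndF5q2 pcF3 Cut.none Ext.none :=
  certFX0 (fam := true) (s1 := false) (s2 := false) (a := 0) (b := 2) (c := 3) (cn := .up) (n1 := ndF2q0) (n2 := ndF5q2) (pc := pcF3) (cut := Cut.none) (xt := Ext.none) (P1 := 67108864) (W1 := 469762048) (P2 := 1073741824) (W2 := 536870912) (P3 := 1046898278) (W3 := 26843546)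
    rfl k0_mm_023

noncomputable def f_mm_033 : ℕ → ℕ → ℕ → ℕ → Bool := onCell 67108864 469762048 0 1230186008 1046898278 26843546
    (rowFX 0 true false false .pnn 0 3 3 (qsf 67108864 469762048 0 1230186008 3) ndF2q0 ndF5q3 pcF3 Cut.none Ext.none)

def k0_mm_033 : ∃ t, chk3 f_mm_033 t 1 1 1 = true :=
  ⟨(l 5), by decide +kernel⟩

theorem c_mm_033 : CertFX 67108864 469762048 0 1230186008 1046898278 26843546 true false false .pnn 0 3 3
    ndF2q0 ndF5q3 pcF3 Cut.none Ext.none :=
  certFX0 (fam := true) (s1 := false) (s2 := false) (a := 0) (b := 3) (c := 3) (cn := .pnn) (n1 := ndF2q0) (n2 := ndF5q3) (pc := pcF3) (cut := Cut.none) (xt := Ext.none) (P1 := 67108864) (W1 := 469762048) (P2 := 0) (W2 := 1230186008) (P3 := 1046898278) (W3 := 26843546)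
    rfl k0_mm_033

noncomputable def f_mm_101 : ℕ → ℕ → ℕ → ℕ → Bool := onCell 536870912 536870912 0 536870912 1046898278 26843546
    (rowFX 0 true false false .npn 1 0 1 (qsf 536870912 536870912 0 536870912 1) ndF2q1 ndF5q0 pcF1 Cut.none Ext.none)

def k0_mm_101 : ∃ t, chk3 f_mm_101 t 1 1 1 = true :=
  ⟨(l 4), by decide +kernel⟩

theorem c_mm_101 : CertFX 536870912 536870912 0 536870912 1046898278 26843546 true false false .npn 1 0 1
    ndF2q1 ndF5q0 pcF1 Cut.none Ext.none :=
  certFX0 (fam := true) (s1 := false) (s2 := false) (a := 1) (b := 0) (c := 1) (cn := .npn) (n1 := ndF2q1) (n2 := ndF5q0) (pc := pcF1) (cut := Cut.none) (xt := Ext.none) (P1 := 536870912) (W1 := 536870912) (P2 := 0) (W2 := 536870912) (P3 := 1046898278) (W3 := 26843546)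
    rfl k0_mm_101

noncomputable def f_mm_102 : ℕ → ℕ → ℕ → ℕ → Bool := onCell 536870912 536870912 0 536870912 1046898278 26843546
    (rowFX 0 true false false .npp 1 0 2 (qsf 536870912 536870912 0 536870912 2) ndF2q1 ndF5q0 pcF2 Cut.none Ext.none)

def k0_mm_102 : ∃ t, chk3 f_mm_102 t 1 1 1 = true :=
  ⟨(l 4), by decide +kernel⟩

theorem c_mm_102 : CertFX 536870912 536870912 0 536870912 1046898278 26843546 true false false .npp 1 0 2
    ndF2q1 ndF5q0 pcF2 Cut.none Ext.none :=
  certFX0 (fam := true) (s1 := false) (s2 := false) (a := 1) (b := 0) (c := 2) (cn := .npp) (n1 := ndF2q1) (n2 := ndF5q0) (pc := pcF2) (cut := Cut.none) (xt := Ext.none) (P1 := 536870912) (W1 := 536870912) (P2 := 0) (W2 := 536870912) (P3 := 1046898278) (W3 := 26843546)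
    rfl k0_mm_102

noncomputable def f_mm_112 : ℕ → ℕ → ℕ → ℕ → Bool := onCell 536870912 536870912 536870912 469762048 1046898278 26843546
    (rowFX 0 true false false .dn 1 1 2 (qsf 536870912 536870912 536870912 469762048 2) ndF2q1 ndF5q1 pcF2 Cut.none Ext.none)

def k0_mm_112 : ∃ t, chk3 f_mm_112 t 1 1 1 = true :=
  ⟨(l 4), by decide +kernel⟩

theorem c_mm_112 : CertFX 536870912 536870912 536870912 469762048 1046898278 26843546 true false false .dn 1 1 2
    ndF2q1 ndF5q1 pcF2 Cut.none Ext.none :=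
  certFX0 (fam := true) (s1 := false) (s2 := false) (a := 1) (b := 1) (c := 2) (cn := .dn) (n1 := ndF2q1) (n2 := ndF5q1) (pc := pcF2) (cut := Cut.none) (xt := Ext.none) (P1 := 536870912) (W1 := 536870912) (P2 := 536870912) (W2 := 469762048) (P3 := 1046898278) (W3 := 26843546)
    rfl k0_mm_112

noncomputable def f_mm_113 : ℕ → ℕ → ℕ → ℕ → Bool := onCell 536870912 536870912 536870912 469762048 1046898278 26843546
    (rowFX 0 true false false .nn 1 1 3 (qsf 536870912 536870912 536870912 469762048 3) ndF2q1 ndF5q1 pcF3 Cut.none Ext.none)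

def k0_mm_113 : ∃ t, chk3 f_mm_113 t 1 1 1 = true :=
  ⟨(l 4), by decide +kernel⟩

theorem c_mm_113 : CertFX 536870912 536870912 536870912 469762048 1046898278 26843546 true false false .nn 1 1 3
    ndF2q1 ndF5q1 pcF3 Cut.none Ext.none :=
  certFX0 (fam := true) (s1 := false) (s2 := false) (a := 1) (b := 1) (c := 3) (cn := .nn) (n1 := ndF2q1) (n2 := ndF5q1) (pc := pcF3) (cut := Cut.none) (xt := Ext.none) (P1 := 536870912) (W1 := 536870912) (P2 := 536870912) (W2 := 469762048) (P3 := 1046898278) (W3 := 26843546)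
    rfl k0_mm_113

noncomputable def f_mm_123 : ℕ → ℕ → ℕ → ℕ → Bool := onCell 536870912 536870912 1073741824 536870912 1046898278 26843546
    (rowFX 0 true false false .npn 1 2 3 (qsf 536870912 536870912 1073741824 536870912 3) ndF2q1 ndF5q2 pcF3 Cut.none Ext.none)

def k0_mm_123 : ∃ t, chk3 f_mm_123 t 1 1 1 = true :=
  ⟨(l 4), by decide +kernel⟩

theorem c_mm_123 : CertFX 536870912 536870912 1073741824 536870912 1046898278 26843546 true false false .npn 1 2 3
    ndF2q1 ndF5q2 pcF3 Cut.none Ext.none :=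
  certFX0 (fam := true) (s1 := false) (s2 := false) (a := 1) (b := 2) (c := 3) (cn := .npn) (n1 := ndF2q1) (n2 := ndF5q2) (pc := pcF3) (cut := Cut.none) (xt := Ext.none) (P1 := 536870912) (W1 := 536870912) (P2 := 1073741824) (W2 := 536870912) (P3 := 1046898278) (W3 := 26843546)
    rfl k0_mm_123

noncomputable def f_mm_133 : ℕ → ℕ → ℕ → ℕ → Bool := onCell 536870912 536870912 0 1230186008 1046898278 26843546
    (rowFX 0 true false false .dn 1 3 3 (qsf 536870912 536870912 0 1230186008 3) ndF2q1 ndF5q3 pcF3 Cut.none Ext.none)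

def k0_mm_133 : ∃ t, chk3 f_mm_133 t 1 1 1 = true :=
  ⟨(l 4), by decide +kernel⟩

theorem c_mm_133 : CertFX 536870912 536870912 0 1230186008 1046898278 26843546 true false false .dn 1 3 3
    ndF2q1 ndF5q3 pcF3 Cut.none Ext.none :=
  certFX0 (fam := true) (s1 := false) (s2 := false) (a := 1) (b := 3) (c := 3) (cn := .dn) (n1 := ndF2q1) (n2 := ndF5q3) (pc := pcF3) (cut := Cut.none) (xt := Ext.none) (P1 := 536870912) (W1 := 536870912) (P2 := 0) (W2 := 1230186008) (P3 := 1046898278) (W3 := 26843546)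
    rfl k0_mm_133

noncomputable def f_mm_202_a : ℕ → ℕ → ℕ → ℕ → Bool := onCell 0 420477299 0 536870912 1046898278 26843546
    (rowFX 0 true false false .pp 2 0 2 (qsf 0 420477299 0 536870912 2) ndF2q2a ndF5q0 pcF2 Cut.none Ext.none)

def k0_mm_202_a : ∃ t, chk3 f_mm_202_a t 1 1 1 = true :=
  ⟨(b (b (a (b (b (a (a (b (b (c (l 16502240) (c (l 16496040) (l 16469856))) (l 4)) (l 4)) (l 4)) (l 4)) (l 4)) (l 4)) (l 4)) (l 4)) (l 4)), by decide +kernel⟩

theorem c_mm_202_a : CertFX 0 420477299 0 536870912 1046898278 26843546 true false false .pp 2 0 2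
    ndF2q2a ndF5q0 pcF2 Cut.none Ext.none :=
  certFX0 (fam := true) (s1 := false) (s2 := false) (a := 2) (b := 0) (c := 2) (cn := .pp) (n1 := ndF2q2a) (n2 := ndF5q0) (pc := pcF2) (cut := Cut.none) (xt := Ext.none) (P1 := 0) (W1 := 420477299) (P2 := 0) (W2 := 536870912) (P3 := 1046898278) (W3 := 26843546)
    rfl k0_mm_202_a

noncomputable def f_mm_202_b : ℕ → ℕ → ℕ → ℕ → Bool := onCell 1239849684 370763052 0 536870912 1046898278 26843546
    (rowFX 0 true false false .pp 2 0 2 (qsf 1239849684 370763052 0 536870912 2) ndF2q2b ndF5q0 pcF2 Cut.none Ext.none)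

def k0_mm_202_b : ∃ t, chk3 f_mm_202_b t 1 1 1 = true :=
  ⟨(b (a (b (b (a (b (a (a (b (b (c (l 16367232) (c (l 16270728) (b (l 16298824) (l 16375392)))) (l 4)) (l 4)) (l 4)) (l 4)) (l 4)) (l 4)) (l 4)) (l 4)) (l 4)) (l 4)), by decide +kernel⟩

theorem c_mm_202_b : CertFX 1239849684 370763052 0 536870912 1046898278 26843546 true false false .pp 2 0 2
    ndF2q2b ndF5q0 pcF2 Cut.none Ext.none :=
  certFX0 (fam := true) (s1 := false) (s2 := false) (a := 2) (b := 0) (c := 2) (cn := .pp) (n1 := ndF2q2b) (n2 := ndF5q0) (pc := pcF2) (cut := Cut.none) (xt := Ext.none) (P1 := 1239849684) (W1 := 370763052) (P2 := 0) (W2 := 536870912) (P3 := 1046898278) (W3 := 26843546)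
    rfl k0_mm_202_b

noncomputable def f_mm_203_a : ℕ → ℕ → ℕ → ℕ → Bool := onCell 0 420477299 1610612736 536870912 1046898278 26843546
    (rowFX 1 true false false .up 2 0 3 (qsf 0 420477299 0 536870912 3) ndF2q2a ndF5q0 pcF3 Cut.none Ext.none)

def k0_mm_203_a : ∃ t, chk3 f_mm_203_a t 1 1 1 = true :=
  ⟨(l 4), by decide +kernel⟩

theorem c_mm_203_a : CertFX 0 420477299 0 536870912 1046898278 26843546 true false false .up 2 0 3
    ndF2q2a ndF5q0 pcF3 Cut.none Ext.none :=
  certFX1 (fam := true) (s1 := false) (s2 := false) (a := 2) (b := 0) (c := 3) (cn := .up) (n1 := ndF2q2a) (n2 := ndF5q0) (pc := pcF3) (cut := Cut.none) (xt := Ext.none) (P1 := 0) (W1 := 420477299) (P2 := 0) (W2 := 536870912) (P3 := 1046898278) (W3 := 26843546)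
    rfl (fun _ => rfl) k0_mm_203_a

noncomputable def f_mm_203_b : ℕ → ℕ → ℕ → ℕ → Bool := onCell 1239849684 370763052 1610612736 536870912 1046898278 26843546
    (rowFX 1 true false false .up 2 0 3 (qsf 1239849684 370763052 0 536870912 3) ndF2q2b ndF5q0 pcF3 Cut.none Ext.none)

def k0_mm_203_b : ∃ t, chk3 f_mm_203_b t 1 1 1 = true :=
  ⟨(l 4), by decide +kernel⟩

theorem c_mm_203_b : CertFX 1239849684 370763052 0 536870912 1046898278 26843546 true false false .up 2 0 3
    ndF2q2b ndF5q0 pcF3 Cut.none Ext.none :=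
  certFX1 (fam := true) (s1 := false) (s2 := false) (a := 2) (b := 0) (c := 3) (cn := .up) (n1 := ndF2q2b) (n2 := ndF5q0) (pc := pcF3) (cut := Cut.none) (xt := Ext.none) (P1 := 1239849684) (W1 := 370763052) (P2 := 0) (W2 := 536870912) (P3 := 1046898278) (W3 := 26843546)
    rfl (fun _ => rfl) k0_mm_203_b

noncomputable def f_mm_213_a : ℕ → ℕ → ℕ → ℕ → Bool := onCell 0 420477299 536870912 469762048 1046898278 26843546
    (rowFX 0 true false false .pnn 2 1 3 (qsf 0 420477299 536870912 469762048 3) ndF2q2a ndF5q1 pcF3 Cut.none Ext.none)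

def k0_mm_213_a : ∃ t, chk3 f_mm_213_a t 1 1 1 = true :=
  ⟨(l 4), by decide +kernel⟩

theorem c_mm_213_a : CertFX 0 420477299 536870912 469762048 1046898278 26843546 true false false .pnn 2 1 3
    ndF2q2a ndF5q1 pcF3 Cut.none Ext.none :=
  certFX0 (fam := true) (s1 := false) (s2 := false) (a := 2) (b := 1) (c := 3) (cn := .pnn) (n1 := ndF2q2a) (n2 := ndF5q1) (pc := pcF3) (cut := Cut.none) (xt := Ext.none) (P1 := 0) (W1 := 420477299) (P2 := 536870912) (W2 := 469762048) (P3 := 1046898278) (W3 := 26843546)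
    rfl k0_mm_213_a

noncomputable def f_mm_213_b : ℕ → ℕ → ℕ → ℕ → Bool := onCell 1239849684 370763052 536870912 469762048 1046898278 26843546
    (rowFX 0 true false false .pnn 2 1 3 (qsf 1239849684 370763052 536870912 469762048 3) ndF2q2b ndF5q1 pcF3 Cut.none Ext.none)

def k0_mm_213_b : ∃ t, chk3 f_mm_213_b t 1 1 1 = true :=
  ⟨(l 4), by decide +kernel⟩

theorem c_mm_213_b : CertFX 1239849684 370763052 536870912 469762048 1046898278 26843546 true false false .pnn 2 1 3
    ndF2q2b ndF5q1 pcF3 Cut.none Ext.none :=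
  certFX0 (fam := true) (s1 := false) (s2 := false) (a := 2) (b := 1) (c := 3) (cn := .pnn) (n1 := ndF2q2b) (n2 := ndF5q1) (pc := pcF3) (cut := Cut.none) (xt := Ext.none) (P1 := 1239849684) (W1 := 370763052) (P2 := 536870912) (W2 := 469762048) (P3 := 1046898278) (W3 := 26843546)
    rfl k0_mm_213_b

noncomputable def f_mm_303 : ℕ → ℕ → ℕ → ℕ → Bool := onCell 1610612736 469762048 0 536870912 1046898278 26843546
    (rowFX 0 true false false .npn 3 0 3 (qsf 1610612736 469762048 0 536870912 3) ndF2q3 ndF5q0 pcF3 Cut.none Ext.none)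

def k0_mm_303 : ∃ t, chk3 f_mm_303 t 1 1 1 = true :=
  ⟨(l 4), by decide +kernel⟩

theorem c_mm_303 : CertFX 1610612736 469762048 0 536870912 1046898278 26843546 true false false .npn 3 0 3
    ndF2q3 ndF5q0 pcF3 Cut.none Ext.none :=
  certFX0 (fam := true) (s1 := false) (s2 := false) (a := 3) (b := 0) (c := 3) (cn := .npn) (n1 := ndF2q3) (n2 := ndF5q0) (pc := pcF3) (cut := Cut.none) (xt := Ext.none) (P1 := 1610612736) (W1 := 469762048) (P2 := 0) (W2 := 536870912) (P3 := 1046898278) (W3 := 26843546)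
    rfl k0_mm_303

noncomputable def f_mm_313 : ℕ → ℕ → ℕ → ℕ → Bool := onCell 1610612736 469762048 536870912 469762048 1046898278 26843546
    (rowFX 0 true false false .dn 3 1 3 (qsf 1610612736 469762048 536870912 469762048 3) ndF2q3 ndF5q1 pcF3 Cut.none Ext.none)

def k0_mm_313 : ∃ t, chk3 f_mm_313 t 1 1 1 = true :=
  ⟨(l 4), by decide +kernel⟩

theorem c_mm_313 : CertFX 1610612736 469762048 536870912 469762048 1046898278 26843546 true false false .dn 3 1 3
    ndF2q3 ndF5q1 pcF3 Cut.none Ext.none :=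
  certFX0 (fam := true) (s1 := false) (s2 := false) (a := 3) (b := 1) (c := 3) (cn := .dn) (n1 := ndF2q3) (n2 := ndF5q1) (pc := pcF3) (cut := Cut.none) (xt := Ext.none) (P1 := 1610612736) (W1 := 469762048) (P2 := 536870912) (W2 := 469762048) (P3 := 1046898278) (W3 := 26843546)
    rfl k0_mm_313

end Pool.Agent.Strip051.G.IE1.Tab.C.FA25

namespace Pool.Agent.Strip051.G.IE1.Tab.C.FA26

open Pool.Agent.Strip051.PB Pool.Agent.Strip051.PB.T
open Pool.Agent.Strip051.G.IE1.Tab

noncomputable def f_pp_001 : ℕ → ℕ → ℕ → ℕ → Bool := onCell 67108864 469762048 0 536870912 1046898278 26843546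
    (rowFX 0 true true true .up 0 0 1 (qsf 67108864 469762048 0 536870912 1) ndF2q0 ndF6q0 pcF1 Cut.none Ext.none)

def k0_pp_001 : ∃ t, chk3 f_pp_001 t 1 1 1 = true :=
  ⟨(l 4), by decide +kernel⟩

theorem c_pp_001 : CertFX 67108864 469762048 0 536870912 1046898278 26843546 true true true .up 0 0 1
    ndF2q0 ndF6q0 pcF1 Cut.none Ext.none :=
  certFX0 (fam := true) (s1 := true) (s2 := true) (a := 0) (b := 0) (c := 1) (cn := .up) (n1 := ndF2q0) (n2 := ndF6q0) (pc := pcF1) (cut := Cut.none) (xt := Ext.none) (P1 := 67108864) (W1 := 469762048) (P2 := 0) (W2 := 536870912) (P3 := 1046898278) (W3 := 26843546)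
    rfl k0_pp_001

noncomputable def f_pp_011 : ℕ → ℕ → ℕ → ℕ → Bool := onCell 67108864 469762048 536870912 469762048 1046898278 26843546
    (rowFX 0 true true true .pnn 0 1 1 (qsf 67108864 469762048 536870912 469762048 1) ndF2q0 ndF6q1 pcF1 Cut.none Ext.none)

def k0_pp_011 : ∃ t, chk3 f_pp_011 t 1 1 1 = true :=
  ⟨(l 4), by decide +kernel⟩

theorem c_pp_011 : CertFX 67108864 469762048 536870912 469762048 1046898278 26843546 true true true .pnn 0 1 1
    ndF2q0 ndF6q1 pcF1 Cut.none Ext.none :=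
  certFX0 (fam := true) (s1 := true) (s2 := true) (a := 0) (b := 1) (c := 1) (cn := .pnn) (n1 := ndF2q0) (n2 := ndF6q1) (pc := pcF1) (cut := Cut.none) (xt := Ext.none) (P1 := 67108864) (W1 := 469762048) (P2 := 536870912) (W2 := 469762048) (P3 := 1046898278) (W3 := 26843546)
    rfl k0_pp_011

noncomputable def f_pp_012 : ℕ → ℕ → ℕ → ℕ → Bool := onCell 67108864 469762048 536870912 469762048 1046898278 26843546
    (rowFX 0 true true true .pnp 0 1 2 (qsf 67108864 469762048 536870912 469762048 2) ndF2q0 ndF6q1 pcF2 Cut.none Ext.none)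

def k0_pp_012 : ∃ t, chk3 f_pp_012 t 1 1 1 = true :=
  ⟨(l 4), by decide +kernel⟩

theorem c_pp_012 : CertFX 67108864 469762048 536870912 469762048 1046898278 26843546 true true true .pnp 0 1 2
    ndF2q0 ndF6q1 pcF2 Cut.none Ext.none :=
  certFX0 (fam := true) (s1 := true) (s2 := true) (a := 0) (b := 1) (c := 2) (cn := .pnp) (n1 := ndF2q0) (n2 := ndF6q1) (pc := pcF2) (cut := Cut.none) (xt := Ext.none) (P1 := 67108864) (W1 := 469762048) (P2 := 536870912) (W2 := 469762048) (P3 := 1046898278) (W3 := 26843546)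
    rfl k0_pp_012

noncomputable def f_pp_022 : ℕ → ℕ → ℕ → ℕ → Bool := onCell 67108864 469762048 1073741824 536870912 1046898278 26843546
    (rowFX 0 true true true .pp 0 2 2 (qsf 67108864 469762048 1073741824 536870912 2) ndF2q0 ndF6q2 pcF2 Cut.none Ext.none)

def k0_pp_022 : ∃ t, chk3 f_pp_022 t 1 1 1 = true :=
  ⟨(l 4), by decide +kernel⟩

theorem c_pp_022 : CertFX 67108864 469762048 1073741824 536870912 1046898278 26843546 true true true .pp 0 2 2
    ndF2q0 ndF6q2 pcF2 Cut.none Ext.none :=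
  certFX0 (fam := true) (s1 := true) (s2 := true) (a := 0) (b := 2) (c := 2) (cn := .pp) (n1 := ndF2q0) (n2 := ndF6q2) (pc := pcF2) (cut := Cut.none) (xt := Ext.none) (P1 := 67108864) (W1 := 469762048) (P2 := 1073741824) (W2 := 536870912) (P3 := 1046898278) (W3 := 26843546)
    rfl k0_pp_022

noncomputable def f_pp_023 : ℕ → ℕ → ℕ → ℕ → Bool := onCell 67108864 469762048 1073741824 536870912 1046898278 26843546
    (rowFX 0 true true true .up 0 2 3 (qsf 67108864 469762048 1073741824 536870912 3) ndF2q0 ndF6q2 pcF3 Cut.none Ext.none)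

def k0_pp_023 : ∃ t, chk3 f_pp_023 t 1 1 1 = true :=
  ⟨(l 4), by decide +kernel⟩

theorem c_pp_023 : CertFX 67108864 469762048 1073741824 536870912 1046898278 26843546 true true true .up 0 2 3
    ndF2q0 ndF6q2 pcF3 Cut.none Ext.none :=
  certFX0 (fam := true) (s1 := true) (s2 := true) (a := 0) (b := 2) (c := 3) (cn := .up) (n1 := ndF2q0) (n2 := ndF6q2) (pc := pcF3) (cut := Cut.none) (xt := Ext.none) (P1 := 67108864) (W1 := 469762048) (P2 := 1073741824) (W2 := 536870912) (P3 := 1046898278) (W3 := 26843546)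
    rfl k0_pp_023

noncomputable def f_pp_033 : ℕ → ℕ → ℕ → ℕ → Bool := onCell 67108864 469762048 0 1230186008 1046898278 26843546
    (rowFX 0 true true true .pnn 0 3 3 (qsf 67108864 469762048 0 1230186008 3) ndF2q0 ndF6q3 pcF3 Cut.none Ext.none)

def k0_pp_033 : ∃ t, chk3 f_pp_033 t 1 1 1 = true :=
  ⟨(b (l 4) (l 4)), by decide +kernel⟩

theorem c_pp_033 : CertFX 67108864 469762048 0 1230186008 1046898278 26843546 true true true .pnn 0 3 3
    ndF2q0 ndF6q3 pcF3 Cut.none Ext.none :=
  certFX0 (fam := true) (s1 := true) (s2 := true) (a := 0) (b := 3) (c := 3) (cn := .pnn) (n1 := ndF2q0) (n2 := ndF6q3) (pc := pcF3) (cut := Cut.none) (xt := Ext.none) (P1 := 67108864) (W1 := 469762048) (P2 := 0) (W2 := 1230186008) (P3 := 1046898278) (W3 := 26843546)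
    rfl k0_pp_033

noncomputable def f_pp_101 : ℕ → ℕ → ℕ → ℕ → Bool := onCell 536870912 536870912 0 536870912 1046898278 26843546
    (rowFX 0 true true true .npn 1 0 1 (qsf 536870912 536870912 0 536870912 1) ndF2q1 ndF6q0 pcF1 Cut.none Ext.none)

def k0_pp_101 : ∃ t, chk3 f_pp_101 t 1 1 1 = true :=
  ⟨(l 4), by decide +kernel⟩

theorem c_pp_101 : CertFX 536870912 536870912 0 536870912 1046898278 26843546 true true true .npn 1 0 1
    ndF2q1 ndF6q0 pcF1 Cut.none Ext.none :=
  certFX0 (fam := true) (s1 := true) (s2 := true) (a := 1) (b := 0) (c := 1) (cn := .npn) (n1 := ndF2q1) (n2 := ndF6q0) (pc := pcF1) (cut := Cut.none) (xt := Ext.none) (P1 := 536870912) (W1 := 536870912) (P2 := 0) (W2 := 536870912) (P3 := 1046898278) (W3 := 26843546)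
    rfl k0_pp_101

noncomputable def f_pp_102 : ℕ → ℕ → ℕ → ℕ → Bool := onCell 536870912 536870912 0 536870912 1046898278 26843546
    (rowFX 0 true true true .npp 1 0 2 (qsf 536870912 536870912 0 536870912 2) ndF2q1 ndF6q0 pcF2 Cut.none Ext.none)

def k0_pp_102 : ∃ t, chk3 f_pp_102 t 1 1 1 = true :=
  ⟨(l 4), by decide +kernel⟩

theorem c_pp_102 : CertFX 536870912 536870912 0 536870912 1046898278 26843546 true true true .npp 1 0 2
    ndF2q1 ndF6q0 pcF2 Cut.none Ext.none :=
  certFX0 (fam := true) (s1 := true) (s2 := true) (a := 1) (b := 0) (c := 2) (cn := .npp) (n1 := ndF2q1) (n2 := ndF6q0) (pc := pcF2) (cut := Cut.none) (xt := Ext.none) (P1 := 536870912) (W1 := 536870912) (P2 := 0) (W2 := 536870912) (P3 := 1046898278) (W3 := 26843546)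
    rfl k0_pp_102

noncomputable def f_pp_112 : ℕ → ℕ → ℕ → ℕ → Bool := onCell 536870912 536870912 536870912 469762048 1046898278 26843546
    (rowFX 0 true true true .dn 1 1 2 (qsf 536870912 536870912 536870912 469762048 2) ndF2q1 ndF6q1 pcF2 Cut.none Ext.none)

def k0_pp_112 : ∃ t, chk3 f_pp_112 t 1 1 1 = true :=
  ⟨(l 4), by decide +kernel⟩

theorem c_pp_112 : CertFX 536870912 536870912 536870912 469762048 1046898278 26843546 true true true .dn 1 1 2
    ndF2q1 ndF6q1 pcF2 Cut.none Ext.none :=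
  certFX0 (fam := true) (s1 := true) (s2 := true) (a := 1) (b := 1) (c := 2) (cn := .dn) (n1 := ndF2q1) (n2 := ndF6q1) (pc := pcF2) (cut := Cut.none) (xt := Ext.none) (P1 := 536870912) (W1 := 536870912) (P2 := 536870912) (W2 := 469762048) (P3 := 1046898278) (W3 := 26843546)
    rfl k0_pp_112

noncomputable def f_pp_113 : ℕ → ℕ → ℕ → ℕ → Bool := onCell 536870912 536870912 536870912 469762048 1046898278 26843546
    (rowFX 0 true true true .nn 1 1 3 (qsf 536870912 536870912 536870912 469762048 3) ndF2q1 ndF6q1 pcF3 Cut.none Ext.none)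

def k0_pp_113 : ∃ t, chk3 f_pp_113 t 1 1 1 = true :=
  ⟨(l 4), by decide +kernel⟩

theorem c_pp_113 : CertFX 536870912 536870912 536870912 469762048 1046898278 26843546 true true true .nn 1 1 3
    ndF2q1 ndF6q1 pcF3 Cut.none Ext.none :=
  certFX0 (fam := true) (s1 := true) (s2 := true) (a := 1) (b := 1) (c := 3) (cn := .nn) (n1 := ndF2q1) (n2 := ndF6q1) (pc := pcF3) (cut := Cut.none) (xt := Ext.none) (P1 := 536870912) (W1 := 536870912) (P2 := 536870912) (W2 := 469762048) (P3 := 1046898278) (W3 := 26843546)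
    rfl k0_pp_113

noncomputable def f_pp_123 : ℕ → ℕ → ℕ → ℕ → Bool := onCell 536870912 536870912 1073741824 536870912 1046898278 26843546
    (rowFX 0 true true true .npn 1 2 3 (qsf 536870912 536870912 1073741824 536870912 3) ndF2q1 ndF6q2 pcF3 Cut.none Ext.none)

def k0_pp_123 : ∃ t, chk3 f_pp_123 t 1 1 1 = true :=
  ⟨(l 4), by decide +kernel⟩

theorem c_pp_123 : CertFX 536870912 536870912 1073741824 536870912 1046898278 26843546 true true true .npn 1 2 3
    ndF2q1 ndF6q2 pcF3 Cut.none Ext.none :=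
  certFX0 (fam := true) (s1 := true) (s2 := true) (a := 1) (b := 2) (c := 3) (cn := .npn) (n1 := ndF2q1) (n2 := ndF6q2) (pc := pcF3) (cut := Cut.none) (xt := Ext.none) (P1 := 536870912) (W1 := 536870912) (P2 := 1073741824) (W2 := 536870912) (P3 := 1046898278) (W3 := 26843546)
    rfl k0_pp_123

noncomputable def f_pp_133 : ℕ → ℕ → ℕ → ℕ → Bool := onCell 536870912 536870912 0 1230186008 1046898278 26843546
    (rowFX 0 true true true .dn 1 3 3 (qsf 536870912 536870912 0 1230186008 3) ndF2q1 ndF6q3 pcF3 Cut.none Ext.none)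

def k0_pp_133 : ∃ t, chk3 f_pp_133 t 1 1 1 = true :=
  ⟨(l 4), by decide +kernel⟩

theorem c_pp_133 : CertFX 536870912 536870912 0 1230186008 1046898278 26843546 true true true .dn 1 3 3
    ndF2q1 ndF6q3 pcF3 Cut.none Ext.none :=
  certFX0 (fam := true) (s1 := true) (s2 := true) (a := 1) (b := 3) (c := 3) (cn := .dn) (n1 := ndF2q1) (n2 := ndF6q3) (pc := pcF3) (cut := Cut.none) (xt := Ext.none) (P1 := 536870912) (W1 := 536870912) (P2 := 0) (W2 := 1230186008) (P3 := 1046898278) (W3 := 26843546)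
    rfl k0_pp_133

noncomputable def f_pp_202_a : ℕ → ℕ → ℕ → ℕ → Bool := onCell 0 420477299 0 536870912 1046898278 26843546
    (rowFX 0 true true true .pp 2 0 2 (qsf 0 420477299 0 536870912 2) ndF2q2a ndF6q0 pcF2 Cut.none Ext.none)

def k0_pp_202_a : ∃ t, chk3 f_pp_202_a t 1 1 1 = true :=
  ⟨(l 4), by decide +kernel⟩

theorem c_pp_202_a : CertFX 0 420477299 0 536870912 1046898278 26843546 true true true .pp 2 0 2
    ndF2q2a ndF6q0 pcF2 Cut.none Ext.none :=
  certFX0 (fam := true) (s1 := true) (s2 := true) (a := 2) (b := 0) (c := 2) (cn := .pp) (n1 := ndF2q2a) (n2 := ndF6q0) (pc := pcF2) (cut := Cut.none) (xt := Ext.none) (P1 := 0) (W1 := 420477299) (P2 := 0) (W2 := 536870912) (P3 := 1046898278) (W3 := 26843546)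
    rfl k0_pp_202_a

noncomputable def f_pp_202_b : ℕ → ℕ → ℕ → ℕ → Bool := onCell 1239849684 370763052 0 536870912 1046898278 26843546
    (rowFX 0 true true true .pp 2 0 2 (qsf 1239849684 370763052 0 536870912 2) ndF2q2b ndF6q0 pcF2 Cut.none Ext.none)

def k0_pp_202_b : ∃ t, chk3 f_pp_202_b t 1 1 1 = true :=
  ⟨(l 4), by decide +kernel⟩

theorem c_pp_202_b : CertFX 1239849684 370763052 0 536870912 1046898278 26843546 true true true .pp 2 0 2
    ndF2q2b ndF6q0 pcF2 Cut.none Ext.none :=
  certFX0 (fam := true) (s1 := true) (s2 := true) (a := 2) (b := 0) (c := 2) (cn := .pp) (n1 := ndF2q2b) (n2 := ndF6q0) (pc := pcF2) (cut := Cut.none) (xt := Ext.none) (P1 := 1239849684) (W1 := 370763052) (P2 := 0) (W2 := 536870912) (P3 := 1046898278) (W3 := 26843546)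
    rfl k0_pp_202_b

noncomputable def f_pp_203_a : ℕ → ℕ → ℕ → ℕ → Bool := onCell 0 420477299 0 536870912 1046898278 26843546
    (rowFX 0 true true true .up 2 0 3 (qsf 0 420477299 0 536870912 3) ndF2q2a ndF6q0 pcF3 Cut.none Ext.none)

def k0_pp_203_a : ∃ t, chk3 f_pp_203_a t 1 1 1 = true :=
  ⟨(l 4), by decide +kernel⟩

theorem c_pp_203_a : CertFX 0 420477299 0 536870912 1046898278 26843546 true true true .up 2 0 3
    ndF2q2a ndF6q0 pcF3 Cut.none Ext.none :=
  certFX0 (fam := true) (s1 := true) (s2 := true) (a := 2) (b := 0) (c := 3) (cn := .up) (n1 := ndF2q2a) (n2 := ndF6q0) (pc := pcF3) (cut := Cut.none) (xt := Ext.none) (P1 := 0) (W1 := 420477299) (P2 := 0) (W2 := 536870912) (P3 := 1046898278) (W3 := 26843546)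
    rfl k0_pp_203_a

noncomputable def f_pp_203_b : ℕ → ℕ → ℕ → ℕ → Bool := onCell 1239849684 370763052 0 536870912 1046898278 26843546
    (rowFX 0 true true true .up 2 0 3 (qsf 1239849684 370763052 0 536870912 3) ndF2q2b ndF6q0 pcF3 Cut.none Ext.none)

def k0_pp_203_b : ∃ t, chk3 f_pp_203_b t 1 1 1 = true :=
  ⟨(l 4), by decide +kernel⟩

theorem c_pp_203_b : CertFX 1239849684 370763052 0 536870912 1046898278 26843546 true true true .up 2 0 3
    ndF2q2b ndF6q0 pcF3 Cut.none Ext.none :=
  certFX0 (fam := true) (s1 := true) (s2 := true) (a := 2) (b := 0) (c := 3) (cn := .up) (n1 := ndF2q2b) (n2 := ndF6q0) (pc := pcF3) (cut := Cut.none) (xt := Ext.none) (P1 := 1239849684) (W1 := 370763052) (P2 := 0) (W2 := 536870912) (P3 := 1046898278) (W3 := 26843546)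
    rfl k0_pp_203_b

noncomputable def f_pp_213_a : ℕ → ℕ → ℕ → ℕ → Bool := onCell 0 420477299 536870912 469762048 1046898278 26843546
    (rowFX 0 true true true .pnn 2 1 3 (qsf 0 420477299 536870912 469762048 3) ndF2q2a ndF6q1 pcF3 Cut.none Ext.none)

def k0_pp_213_a : ∃ t, chk3 f_pp_213_a t 1 1 1 = true :=
  ⟨(l 4), by decide +kernel⟩

theorem c_pp_213_a : CertFX 0 420477299 536870912 469762048 1046898278 26843546 true true true .pnn 2 1 3
    ndF2q2a ndF6q1 pcF3 Cut.none Ext.none :=
  certFX0 (fam := true) (s1 := true) (s2 := true) (a := 2) (b := 1) (c := 3) (cn := .pnn) (n1 := ndF2q2a) (n2 := ndF6q1) (pc := pcF3) (cut := Cut.none) (xt := Ext.none) (P1 := 0) (W1 := 420477299) (P2 := 536870912) (W2 := 469762048) (P3 := 1046898278) (W3 := 26843546)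
    rfl k0_pp_213_a

noncomputable def f_pp_213_b : ℕ → ℕ → ℕ → ℕ → Bool := onCell 1239849684 370763052 536870912 469762048 1046898278 26843546
    (rowFX 0 true true true .pnn 2 1 3 (qsf 1239849684 370763052 536870912 469762048 3) ndF2q2b ndF6q1 pcF3 Cut.none Ext.none)

def k0_pp_213_b : ∃ t, chk3 f_pp_213_b t 1 1 1 = true :=
  ⟨(l 4), by decide +kernel⟩

theorem c_pp_213_b : CertFX 1239849684 370763052 536870912 469762048 1046898278 26843546 true true true .pnn 2 1 3
    ndF2q2b ndF6q1 pcF3 Cut.none Ext.none :=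
  certFX0 (fam := true) (s1 := true) (s2 := true) (a := 2) (b := 1) (c := 3) (cn := .pnn) (n1 := ndF2q2b) (n2 := ndF6q1) (pc := pcF3) (cut := Cut.none) (xt := Ext.none) (P1 := 1239849684) (W1 := 370763052) (P2 := 536870912) (W2 := 469762048) (P3 := 1046898278) (W3 := 26843546)
    rfl k0_pp_213_b

noncomputable def f_pp_303 : ℕ → ℕ → ℕ → ℕ → Bool := onCell 1610612736 469762048 0 536870912 1046898278 26843546
    (rowFX 0 true true true .npn 3 0 3 (qsf 1610612736 469762048 0 536870912 3) ndF2q3 ndF6q0 pcF3 Cut.none Ext.none)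

def k0_pp_303 : ∃ t, chk3 f_pp_303 t 1 1 1 = true :=
  ⟨(l 4), by decide +kernel⟩

theorem c_pp_303 : CertFX 1610612736 469762048 0 536870912 1046898278 26843546 true true true .npn 3 0 3
    ndF2q3 ndF6q0 pcF3 Cut.none Ext.none :=
  certFX0 (fam := true) (s1 := true) (s2 := true) (a := 3) (b := 0) (c := 3) (cn := .npn) (n1 := ndF2q3) (n2 := ndF6q0) (pc := pcF3) (cut := Cut.none) (xt := Ext.none) (P1 := 1610612736) (W1 := 469762048) (P2 := 0) (W2 := 536870912) (P3 := 1046898278) (W3 := 26843546)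
    rfl k0_pp_303

noncomputable def f_pp_313 : ℕ → ℕ → ℕ → ℕ → Bool := onCell 1610612736 469762048 536870912 469762048 1046898278 26843546
    (rowFX 0 true true true .dn 3 1 3 (qsf 1610612736 469762048 536870912 469762048 3) ndF2q3 ndF6q1 pcF3 Cut.none Ext.none)

def k0_pp_313 : ∃ t, chk3 f_pp_313 t 1 1 1 = true :=
  ⟨(l 4), by decide +kernel⟩

theorem c_pp_313 : CertFX 1610612736 469762048 536870912 469762048 1046898278 26843546 true true true .dn 3 1 3
    ndF2q3 ndF6q1 pcF3 Cut.none Ext.none :=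
  certFX0 (fam := true) (s1 := true) (s2 := true) (a := 3) (b := 1) (c := 3) (cn := .dn) (n1 := ndF2q3) (n2 := ndF6q1) (pc := pcF3) (cut := Cut.none) (xt := Ext.none) (P1 := 1610612736) (W1 := 469762048) (P2 := 536870912) (W2 := 469762048) (P3 := 1046898278) (W3 := 26843546)
    rfl k0_pp_313

noncomputable def f_pm_001 : ℕ → ℕ → ℕ → ℕ → Bool := onCell 67108864 469762048 0 536870912 1046898278 26843546
    (rowFX 0 true true false .up 0 0 1 (qsf 67108864 469762048 0 536870912 1) ndF2q0 ndF6q0 pcF1 Cut.none Ext.none)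

def k0_pm_001 : ∃ t, chk3 f_pm_001 t 1 1 1 = true :=
  ⟨(b (l 3) (l 3)), by decide +kernel⟩

theorem c_pm_001 : CertFX 67108864 469762048 0 536870912 1046898278 26843546 true true false .up 0 0 1
    ndF2q0 ndF6q0 pcF1 Cut.none Ext.none :=
  certFX0 (fam := true) (s1 := true) (s2 := false) (a := 0) (b := 0) (c := 1) (cn := .up) (n1 := ndF2q0) (n2 := ndF6q0) (pc := pcF1) (cut := Cut.none) (xt := Ext.none) (P1 := 67108864) (W1 := 469762048) (P2 := 0) (W2 := 536870912) (P3 := 1046898278) (W3 := 26843546)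
    rfl k0_pm_001

noncomputable def f_pm_011 : ℕ → ℕ → ℕ → ℕ → Bool := onCell 67108864 469762048 536870912 536870912 1046898278 26843546
    (rowFX 1 true true false .pnn 0 1 1 (qsf 67108864 469762048 536870912 469762048 1) ndF2q0 ndF6q1 pcF1 Cut.none Ext.none)

def k0_pm_011 : ∃ t, chk3 f_pm_011 t 1 1 1 = true :=
  ⟨(a (b (l 3) (l 3)) (l 3)), by decide +kernel⟩

theorem c_pm_011 : CertFX 67108864 469762048 536870912 469762048 1046898278 26843546 true true false .pnn 0 1 1
    ndF2q0 ndF6q1 pcF1 Cut.none Ext.none :=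
  certFX1 (fam := true) (s1 := true) (s2 := false) (a := 0) (b := 1) (c := 1) (cn := .pnn) (n1 := ndF2q0) (n2 := ndF6q1) (pc := pcF1) (cut := Cut.none) (xt := Ext.none) (P1 := 67108864) (W1 := 469762048) (P2 := 536870912) (W2 := 469762048) (P3 := 1046898278) (W3 := 26843546)
    rfl (fun _ => rfl) k0_pm_011

noncomputable def f_pm_012 : ℕ → ℕ → ℕ → ℕ → Bool := onCell 1073741824 536870912 536870912 469762048 1046898278 26843546
    (rowFX 2 true true false .pnp 0 1 2 (qsf 67108864 469762048 536870912 469762048 2) ndF2q0 ndF6q1 pcF2 Cut.none Ext.none)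

def k0_pm_012 : ∃ t, chk3 f_pm_012 t 8 1 1 = true :=
  ⟨(b (a (l 3) (l 3)) (b (a (l 3) (a (l 3) (a (l 3) (b (l 3) (a (l 630453420983) (b (l 16512328) (l 16432360))))))) (a (b (l 3) (l 3)) (b (a (l 3) (a (c (b (l 16027600) (l 16084688)) (b (l 16139712) (l 16069280))) (b (c (l 16048928) (l 16031520)) (c (l 15970256) (l 15951008))))) (b (a (a (l 3) (c (b (l 16240000) (l 16197224)) (l 16219776))) (c (a (b (l 16100664) (l 16089488)) (c (l 15996584) (l 15989632))) (a (l 16082152) (l 15976256)))) (a (c (a (c (l 455969491303) (l 16059544)) (c (a (l 16083696) (l 16019360)) (l 16013792))) (a (l 16142736) (l 16072664))) (c (a (c (b (l 15992280) (l 15880176)) (l 15820440)) (c (l 15749696) (l 15846096))) (a (a (l 15973288) (l 15914464)) (a (l 15862440) (l 15813440)))))))))), by decide +kernel⟩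

def k1_pm_012 : ∃ t, chk3 f_pm_012 t 9 1 1 = true :=
  ⟨(b (a (a (c (l 16427448) (l 16461944)) (a (c (l 16598416) (l 16593768)) (c (l 16657624) (l 16654520)))) (a (a (l 16662352) (l 16644616)) (l 16653496))) (a (a (c (b (b (l 16476240) (b (l 16469928) (l 16268536))) (b (b (a (l 15985640) (l 15928960)) (a (l 15867648) (l 15770160))) (b (a (l 15847168) (l 15785656)) (c (l 15682696) (l 15692600))))) (b (b (l 16468424) (b (l 16486704) (l 16301952))) (b (b (a (l 15966288) (l 15907896)) (l 15764328)) (b (a (l 15869152) (l 15762824)) (l 15680456))))) (b (b (c (l 16608344) (l 16603952)) (a (c (l 16349232) (l 16365808)) (l 16354624))) (b (b (l 15882880) (l 15661496)) (c (b (l 15656584) (l 15505664)) (b (l 15630208) (l 15496040)))))) (b (a (b (l 16611760) (b (l 16685840) (l 16320168))) (b (l 16640688) (l 16342296))) (b (a (a (b (l 15866192) (l 15597888)) (l 15718064)) (l 15532216)) (a (c (b (l 15510688) (l 15093272)) (b (l 15480312) (l 15330976))) (b (c (l 15373928) (l 15339624)) (c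 (l 15153488) (l 15134112)))))))), by decide +kernel⟩

def k2_pm_012 : ∃ t, chk3 f_pm_012 t 5 1 1 = true :=
  ⟨(a (a (b (b (l 2) (a (l 16717720) (a (l 16708048) (l 16570624)))) (b (a (b (l 16712320) (b (l 16685160) (l 16248328))) (a (b (l 16685520) (l 16493272)) (b (l 16555816) (a (l 16529352) (b (l 16594712) (l 16353160)))))) (a (b (a (l 15636696) (l 15643040)) (b (b (l 15349376) (l 15228928)) (c (l 15025872) (l 15002920)))) (b (a (l 15676136) (a (l 15718000) (b (l 15898752) (l 15621504)))) (a (b (l 15328552) (l 14844960)) (b (a (l 15373312) (a (l 15409568) (l 15432960))) (a (l 14996248) (c (l 15067824) (l 15046720))))))))) (b (l 16566728) (b (b (l 16571840) (l 16539144)) (b (l 15718784) (b (l 15361184) (l 14773688)))))) (b (l 16738736) (b (b (l 16744104) (b (l 16664368) (l 16220616))) (b (b (l 15742720) (l 15439128)) (b (a (l 15235280) (l 15182216)) (c (l 14822208) (l 14793192))))))), by decide +kernel⟩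

def k3_pm_012 : ∃ t, chk3 f_pm_012 t 3 1 1 = true :=
  ⟨(b (l 2) (b (b (l 16777216) (a (l 16325288) (l 2))) (b (a (l 15488296) (l 15572176)) (a (b (l 15182144) (c (l 14794776) (l 14764784))) (b (l 15182144) (l 14779080)))))), by decide +kernel⟩

theorem s4_pm_012 : ∃ t, chk3 f_pm_012 t 4 1 1 = true := ex3_a k0_pm_012 k1_pm_012

theorem s5_pm_012 : ∃ t, chk3 f_pm_012 t 2 1 1 = true := ex3_a s4_pm_012 k2_pm_012

theorem s6_pm_012 : ∃ t, chk3 f_pm_012 t 1 1 1 = true := ex3_a s5_pm_012 k3_pm_012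

theorem c_pm_012 : CertFX 67108864 469762048 536870912 469762048 1046898278 26843546 true true false .pnp 0 1 2
    ndF2q0 ndF6q1 pcF2 Cut.none Ext.none :=
  certFX2 (fam := true) (s1 := true) (s2 := false) (a := 0) (b := 1) (c := 2) (cn := .pnp) (n1 := ndF2q0) (n2 := ndF6q1) (pc := pcF2) (cut := Cut.none) (xt := Ext.none) (P1 := 67108864) (W1 := 469762048) (P2 := 536870912) (W2 := 469762048) (P3 := 1046898278) (W3 := 26843546)
    rfl (fun _ => rfl) s6_pm_012

noncomputable def f_pm_022 : ℕ → ℕ → ℕ → ℕ → Bool := onCell 67108864 469762048 1073741824 536870912 1046898278 26843546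
    (rowFX 1 true true false .pp 0 2 2 (qsf 67108864 469762048 1073741824 536870912 2) ndF2q0 ndF6q2 pcF2 Cut.none Ext.none)

def k0_pm_022 : ∃ t, chk3 f_pm_022 t 1 2 1 = true :=
  ⟨(b (l 3) (a (b (b (b (l 3) (b (l 3) (a (b (l 3) (b (l 3) (b (b (b (a (a (a (c (l 16464592) (l 16460432)) (l 3)) (l 3)) (l 3)) (b (a (a (c (a (l 16465664) (l 16574456)) (a (l 16461544) (l 16574040))) (c (l 16401472) (l 16395608))) (c (l 15860784) (l 15992504))) (a (a (c (a (b (b (l 16466104) (l 16466296)) (l 16466600)) (a (l 16492624) (l 16558288))) (a (c (l 16463112) (l 16461584)) (l 16489912))) (c (a (l 16433512) (l 16347192)) (a (l 16450288) (l 16339656)))) (c (a (l 16199936) (l 15957624)) (a (l 16188024) (l 15960248)))))) (a (a (a (l 16426760) (l 16553016)) (a (l 16452272) (l 16343496))) (l 16021376))) (a (a (a (l 16431872) (l 16530592)) (a (l 16452256) (l 16343680))) (l 16021984))))) (l 1)))) (a (a (a (a (c (l 16423896) (l 16464736)) (b (c (l 16520432) (l 16540688)) (l 16374952))) (a (b (c (l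 16453376) (l 16449392)) (c (l 16372456) (l 16388192))) (l 16345440))) (a (l 16203952) (l 15987720))) (a (a (l 15733464) (l 1)) (l 1)))) (a (a (a (b (a (b (l 16203536) (a (b (l 16043032) (l 16260376)) (b (l 16087136) (l 16095176)))) (c (l 16126208) (l 16136536))) (a (b (l 16178952) (l 16148512)) (b (c (b (l 16021136) (l 16097104)) (l 15979512)) (l 16184672)))) (b (a (l 16095120) (l 16177096)) (a (b (c (l 15935160) (l 15918272)) (b (l 15761248) (l 16008584))) (l 15899488)))) (b (a (b (l 16211808) (l 16162584)) (l 16019728)) (a (l 15972128) (l 15965440)))) (a (a (l 15806624) (l 352754813223)) (l 376377107287)))) (l 1))), by decide +kernel⟩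

def k1_pm_022 : ∃ t, chk3 f_pm_022 t 1 3 1 = true :=
  ⟨(a (b (a (a (b (a (a (b (l 15802432) (l 15520216)) (b (l 16105104) (l 15674824))) (b (a (b (l 16153016) (l 16441056)) (b (l 15910344) (l 16193928))) (a (l 16090360) (l 16388688)))) (a (l 15568688) (a (l 15826312) (l 15921872)))) (b (b (a (b (l 15769240) (a (l 15866816) (l 15681600))) (l 15776536)) (a (a (l 16313952) (l 15923088)) (b (l 15612808) (l 15610944)))) (a (b (l 16370832) (l 16129536)) (b (l 15969400) (l 16488224))))) (a (b (a (b (l 15791608) (l 15577176)) (b (l 15658088) (l 15612168))) (b (a (b (l 15466880) (l 15598664)) (l 15401280)) (a (l 16041112) (b (l 15349720) (l 15530432))))) (b (l 15551496) (b (l 15560528) (a (l 15341240) (l 15527656)))))) (a (a (b (l 15714208) (l 15714208)) (b (l 16203760) (l 16191784))) (b (a (b (a (l 16559552) (l 15961888)) (a (l 16525784) (l 16553648))) (b (a (l 15482272) (l 15330976)) (a (l 16050960) (l 15534056)))) (a (l 16619400) (b (a (l 16574048) (l 16129104)) (l 16670184))))))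 (b (a (b (l 377987485959) (a (l 15560496) (l 15449584))) (l 1)) (a (b (a (b (l 15535232) (a (l 15328960) (l 15478744))) (l 15563280)) (a (b (a (l 15592952) (l 15335064)) (a (l 16206296) (l 15658816))) (b (l 15502760) (a (l 15349136) (l 15419768))))) (b (l 15406320) (l 15514520))))), by decide +kernel⟩

theorem s2_pm_022 : ∃ t, chk3 f_pm_022 t 1 1 1 = true := ex3_b k0_pm_022 k1_pm_022

theorem c_pm_022 : CertFX 67108864 469762048 1073741824 536870912 1046898278 26843546 true true false .pp 0 2 2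
    ndF2q0 ndF6q2 pcF2 Cut.none Ext.none :=
  certFX1 (fam := true) (s1 := true) (s2 := false) (a := 0) (b := 2) (c := 2) (cn := .pp) (n1 := ndF2q0) (n2 := ndF6q2) (pc := pcF2) (cut := Cut.none) (xt := Ext.none) (P1 := 67108864) (W1 := 469762048) (P2 := 1073741824) (W2 := 536870912) (P3 := 1046898278) (W3 := 26843546)
    rfl (fun _ => rfl) s2_pm_022

noncomputable def f_pm_023 : ℕ → ℕ → ℕ → ℕ → Bool := onCell 1610612736 536870912 1073741824 536870912 1046898278 26843546
    (rowFX 2 true true false .up 0 2 3 (qsf 67108864 469762048 1073741824 536870912 3) ndF2q0 ndF6q2 pcF3 Cut.none Ext.none)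

def k0_pm_023 : ∃ t, chk3 f_pm_023 t 1 1 1 = true :=
  ⟨(b (a (b (a (b (l 15561360) (l 15512056)) (l 15408112)) (b (a (b (l 15281464) (l 15851320)) (l 15405128)) (a (l 16585024) (l 16626968)))) (a (b (l 2) (b (l 2) (l 16627008))) (l 2))) (b (a (a (a (b (l 16746736) (l 16478920)) (l 16757584)) (l 16777216)) (a (l 16777176) (a (l 16764616) (l 2)))) (a (a (a (b (a (l 15823552) (l 16163264)) (a (b (l 15404256) (l 15000760)) (l 507373664503))) (b (l 16478920) (a (l 15823552) (l 16163264)))) (a (b (l 16746736) (l 16478920)) (l 16757584))) (a (l 16777168) (a (a (l 16776304) (l 16765224)) (a (a (l 16759144) (l 16760952)) (a (l 16724104) (l 4)))))))), by decide +kernel⟩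

theorem c_pm_023 : CertFX 67108864 469762048 1073741824 536870912 1046898278 26843546 true true false .up 0 2 3
    ndF2q0 ndF6q2 pcF3 Cut.none Ext.none :=
  certFX2 (fam := true) (s1 := true) (s2 := false) (a := 0) (b := 2) (c := 3) (cn := .up) (n1 := ndF2q0) (n2 := ndF6q2) (pc := pcF3) (cut := Cut.none) (xt := Ext.none) (P1 := 67108864) (W1 := 469762048) (P2 := 1073741824) (W2 := 536870912) (P3 := 1046898278) (W3 := 26843546)
    rfl (fun _ => rfl) k0_pm_023

noncomputable def f_pm_033 : ℕ → ℕ → ℕ → ℕ → Bool := onCell 1610612736 536870912 0 1230186008 1046898278 26843546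
    (rowFX 2 true true false .pnn 0 3 3 (qsf 67108864 469762048 0 1230186008 3) ndF2q0 ndF6q3 pcF3 Cut.none Ext.none)

def k0_pm_033 : ∃ t, chk3 f_pm_033 t 1 1 1 = true :=
  ⟨(a (b (l 1) (b (l 1) (b (a (l 1) (a (l 1) (b (a (l 1) (b (l 1) (l 733395348647))) (a (b (l 1) (l 15328528)) (b (l 15305024) (l 15702496)))))) (a (b (l 1) (a (b (l 1) (a (l 1) (l 668433877927))) (b (a (l 1) (l 15344144)) (a (l 15379760) (l 15724120))))) (b (a (b (a (l 1) (l 15285808)) (a (l 15327176) (l 15677864))) (a (b (l 15681760) (l 15987416)) (l 16001536))) (a (b (l 15599936) (l 16122768)) (l 16454928))))))) (a (b (l 1) (b (b (l 1) (a (b (l 1) (a (l 1) (b (l 1) (l 15141776)))) (a (b (a (l 1) (l 777955604151)) (b (l 15347336) (l 15606928))) (b (c (l 15328992) (l 15282984)) (c (l 15816712) (l 15787088)))))) (b (a (b (a (b (l 665212870967) (l 15445040)) (b (l 15521656) (l 15800232))) (b (l 15633064) (l 16123784))) (a (b (l 15948576) (l 16385168)) (b (l 16218200) (l 16602696)))) (a (b (l 16444432) (l 16733648))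 (l 16745952))))) (a (b (l 1) (b (b (a (b (l 1) (a (l 580924283255) (c (l 15385184) (l 15355168)))) (l 4)) (a (b (a (l 15620768) (l 15608216)) (a (l 16027128) (l 16152096))) (a (b (l 752925728935) (l 16271864)) (l 4)))) (b (a (b (l 16460128) (l 16733280)) (a (l 16439000) (a (l 16731424) (l 16707240)))) (a (l 16776584) (a (l 16767912) (l 16766728)))))) (b (l 4) (b (l 4) (a (b (a (l 933852844935) (l 4)) (a (l 16765912) (l 16760952))) (l 4))))))), by decide +kernel⟩

theorem c_pm_033 : CertFX 67108864 469762048 0 1230186008 1046898278 26843546 true true false .pnn 0 3 3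
    ndF2q0 ndF6q3 pcF3 Cut.none Ext.none :=
  certFX2 (fam := true) (s1 := true) (s2 := false) (a := 0) (b := 3) (c := 3) (cn := .pnn) (n1 := ndF2q0) (n2 := ndF6q3) (pc := pcF3) (cut := Cut.none) (xt := Ext.none) (P1 := 67108864) (W1 := 469762048) (P2 := 0) (W2 := 1230186008) (P3 := 1046898278) (W3 := 26843546)
    rfl (fun _ => rfl) k0_pm_033

noncomputable def f_pm_101 : ℕ → ℕ → ℕ → ℕ → Bool := onCell 536870912 536870912 0 536870912 1046898278 26843546
    (rowFX 2 true true false .npn 1 0 1 (qsf 536870912 536870912 0 536870912 1) ndF2q1 ndF6q0 pcF1 Cut.none Ext.none)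

def k0_pm_101 : ∃ t, chk3 f_pm_101 t 1 1 1 = true :=
  ⟨(a (l 3) (b (l 3) (l 3))), by decide +kernel⟩

theorem c_pm_101 : CertFX 536870912 536870912 0 536870912 1046898278 26843546 true true false .npn 1 0 1
    ndF2q1 ndF6q0 pcF1 Cut.none Ext.none :=
  certFX2 (fam := true) (s1 := true) (s2 := false) (a := 1) (b := 0) (c := 1) (cn := .npn) (n1 := ndF2q1) (n2 := ndF6q0) (pc := pcF1) (cut := Cut.none) (xt := Ext.none) (P1 := 536870912) (W1 := 536870912) (P2 := 0) (W2 := 536870912) (P3 := 1046898278) (W3 := 26843546)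
    rfl (fun _ => rfl) k0_pm_101

noncomputable def f_pm_102 : ℕ → ℕ → ℕ → ℕ → Bool := onCell 536870912 536870912 1073741824 536870912 1046898278 26843546
    (rowFX 1 true true false .npp 1 0 2 (qsf 536870912 536870912 0 536870912 2) ndF2q1 ndF6q0 pcF2 Cut.none Ext.none)

def k0_pm_102 : ∃ t, chk3 f_pm_102 t 1 2 1 = true :=
  ⟨(b (b (a (l 3) (l 3)) (a (b (b (b (l 3) (a (l 16510424) (l 16553728))) (a (c (l 16636976) (l 16633328)) (c (l 16639944) (b (l 16620288) (l 16673808))))) (b (a (l 16665952) (l 16668144)) (l 16657480))) (b (a (b (b (l 3) (a (l 16550784) (a (l 16536720) (l 16531056)))) (c (b (l 16608912) (a (l 16670064) (l 16648176))) (b (a (l 16615392) (l 16595416)) (a (l 16667064) (l 16642816))))) (b (b (a (l 3) (a (l 3) (a (l 3) (b (l 3) (l 16558392))))) (a (c (l 16609408) (l 16608120)) (c (a (l 16586344) (a (l 16571088) (l 16577376))) (a (l 16581296) (a (l 16565816) (l 16572512)))))) (a (c (b (l 16650576) (l 16638832)) (b (l 16647840) (l 16572992))) (b (c (a (l 16610560)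 (b (l 16588240) (l 16592328))) (a (l 16606208) (b (l 16583608) (l 16587848)))) (a (l 16603472) (c (l 16567184) (l 16562008))))))) (a (b (b (a (l 16671024) (l 16639864)) (l 16627248)) (l 16633848)) (b (a (b (l 16627512) (l 16592864)) (b (c (l 16529448) (l 16439712)) (l 16508632))) (a (l 16547048) (b (l 16499888) (a (l 16524904) (l 16481912))))))))) (b (b (a (a (b (l 16723136) (l 2)) (b (l 16713808) (b (l 16692160) (l 16549960)))) (a (b (b (l 16682392) (a (l 16721912) (l 16670576))) (b (l 16615704) (b (l 16531712) (l 16371776)))) (b (a (b (l 16603184) (l 16561528)) (b (a (l 16503328) (l 16432960)) (l 16391440))) (b (a (l 16492144) (l 16293720)) (a (b (l 16424920) (l 16372776)) (b (l 16205912) (b (l 16158368) (l 16129872)))))))) (a (l 16564008) (a (l 16499888) (a (l 16422112) (l 16185208))))) (a (l 16740072) (a (l 16715920) (b (a (l 16578328) (l 16354232)) (l 16568896)))))), by decide +kernel⟩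

def k1_pm_102 : ∃ t, chk3 f_pm_102 t 1 3 1 = true :=
  ⟨(a (l 16777216) (b (a (l 16765256) (b (l 16569048) (b (l 16569048) (l 16569048)))) (a (l 16765256) (l 16569048)))), by decide +kernel⟩

theorem s2_pm_102 : ∃ t, chk3 f_pm_102 t 1 1 1 = true := ex3_b k0_pm_102 k1_pm_102

theorem c_pm_102 : CertFX 536870912 536870912 0 536870912 1046898278 26843546 true true false .npp 1 0 2
    ndF2q1 ndF6q0 pcF2 Cut.none Ext.none :=
  certFX1 (fam := true) (s1 := true) (s2 := false) (a := 1) (b := 0) (c := 2) (cn := .npp) (n1 := ndF2q1) (n2 := ndF6q0) (pc := pcF2) (cut := Cut.none) (xt := Ext.none) (P1 := 536870912) (W1 := 536870912) (P2 := 0) (W2 := 536870912) (P3 := 1046898278) (W3 := 26843546)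
    rfl (fun _ => rfl) s2_pm_102

noncomputable def f_pm_112 : ℕ → ℕ → ℕ → ℕ → Bool := onCell 1073741824 536870912 536870912 469762048 1046898278 26843546
    (rowFX 2 true true false .dn 1 1 2 (qsf 536870912 536870912 536870912 469762048 2) ndF2q1 ndF6q1 pcF2 Cut.none Ext.none)

def k0_pm_112 : ∃ t, chk3 f_pm_112 t 1 1 1 = true :=
  ⟨(b (a (a (a (a (l 3) (l 3)) (a (b (a (c (l 16490368) (l 16482912)) (c (l 16636048) (l 16632376))) (l 1)) (a (a (l 16662352) (l 16644616)) (l 16653496)))) (a (a (a (a (l 16710832) (l 16741328)) (a (l 16709800) (b (l 16569320) (l 16570624)))) (l 16566728)) (l 16738736))) (a (l 16770024) (b (a (l 16747960) (l 16634120)) (l 16771408)))) (a (a (l 1) (a (l 1) (b (b (l 16744104) (l 1)) (l 1)))) (b (b (l 16777216) (a (l 369936520199) (l 16430144))) (b (a (l 15383432) (l 15572176)) (a (l 1) (b (l 15182144) (l 14779080))))))), by decide +kernel⟩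

theorem c_pm_112 : CertFX 536870912 536870912 536870912 469762048 1046898278 26843546 true true false .dn 1 1 2
    ndF2q1 ndF6q1 pcF2 Cut.none Ext.none :=
  certFX2 (fam := true) (s1 := true) (s2 := false) (a := 1) (b := 1) (c := 2) (cn := .dn) (n1 := ndF2q1) (n2 := ndF6q1) (pc := pcF2) (cut := Cut.none) (xt := Ext.none) (P1 := 536870912) (W1 := 536870912) (P2 := 536870912) (W2 := 469762048) (P3 := 1046898278) (W3 := 26843546)
    rfl (fun _ => rfl) k0_pm_112

noncomputable def f_pm_113 : ℕ → ℕ → ℕ → ℕ → Bool := onCell 536870912 536870912 536870912 469762048 1046898278 26843546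
    (rowFX 0 true true false .nn 1 1 3 (qsf 536870912 536870912 536870912 469762048 3) ndF2q1 ndF6q1 pcF3 Cut.none Ext.none)

def k0_pm_113 : ∃ t, chk3 f_pm_113 t 1 1 1 = true :=
  ⟨(b (a (l 1) (a (a (l 16774200) (l 420940243287)) (b (a (l 16668408) (l 16465584)) (l 16569048)))) (a (b (b (l 16777216) (l 362957093495)) (b (a (l 15572176) (l 15509264)) (a (l 374765298263) (c (l 14972416) (l 14938312))))) (b (a (b (l 16765256) (l 16378408)) (b (l 16569048) (l 16073064))) (a (b (l 15541296) (b (l 15193088) (l 14789944))) (a (b (l 15480216) (l 14864392)) (b (a (l 15373504) (l 15332688)) (a (b (l 15002832) (l 14615056)) (b (l 15016328) (a (l 14644808) (l 14783896)))))))))), by decide +kernel⟩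

theorem c_pm_113 : CertFX 536870912 536870912 536870912 469762048 1046898278 26843546 true true false .nn 1 1 3
    ndF2q1 ndF6q1 pcF3 Cut.none Ext.none :=
  certFX0 (fam := true) (s1 := true) (s2 := false) (a := 1) (b := 1) (c := 3) (cn := .nn) (n1 := ndF2q1) (n2 := ndF6q1) (pc := pcF3) (cut := Cut.none) (xt := Ext.none) (P1 := 536870912) (W1 := 536870912) (P2 := 536870912) (W2 := 469762048) (P3 := 1046898278) (W3 := 26843546)
    rfl k0_pm_113

noncomputable def f_pm_123 : ℕ → ℕ → ℕ → ℕ → Bool := onCell 1610612736 536870912 1073741824 536870912 1046898278 26843546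
    (rowFX 2 true true false .npn 1 2 3 (qsf 536870912 536870912 1073741824 536870912 3) ndF2q1 ndF6q2 pcF3 Cut.none Ext.none)

def k0_pm_123 : ∃ t, chk3 f_pm_123 t 1 1 1 = true :=
  ⟨(a (b (b (a (b (l 15561360) (l 15512056)) (l 15491992)) (b (a (l 434359210295) (l 15405128)) (a (l 1) (l 16626968)))) (a (l 1) (l 16777216))) (a (b (b (b (l 15567088) (l 15512328)) (b (l 15572928) (l 16627008))) (a (l 16777208) (l 16777160))) (a (a (b (b (l 15534552) (b (l 15574136) (l 16628224))) (l 16776024)) (b (b (l 15559248) (b (l 15603064) (l 16622456))) (b (l 16749296) (l 16765224)))) (a (b (b (b (l 15616072) (l 15537376)) (b (l 15530696) (l 16610680))) (a (l 16753864) (l 16756880))) (b (a (b (b (l 15666856) (l 15547504)) (b (l 15558240) (l 16591264))) (b (a (b (l 15769848) (l 15553832)) (a (b (l 15844752) (l 15563520)) (b (a (l 15852208) (l 15778064)) (a (l 15575160) (l 15530472))))) (a (b (l 15527464) (l 16557592)) (a (b (l 15500656) (l 16556480)) (b (a (l 15505536) (l 4)) (l 4))))))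 (a (l 16737840) (a (l 16703928) (b (l 4) (l 4))))))))), by decide +kernel⟩

theorem c_pm_123 : CertFX 536870912 536870912 1073741824 536870912 1046898278 26843546 true true false .npn 1 2 3
    ndF2q1 ndF6q2 pcF3 Cut.none Ext.none :=
  certFX2 (fam := true) (s1 := true) (s2 := false) (a := 1) (b := 2) (c := 3) (cn := .npn) (n1 := ndF2q1) (n2 := ndF6q2) (pc := pcF3) (cut := Cut.none) (xt := Ext.none) (P1 := 536870912) (W1 := 536870912) (P2 := 1073741824) (W2 := 536870912) (P3 := 1046898278) (W3 := 26843546)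
    rfl (fun _ => rfl) k0_pm_123

noncomputable def f_pm_133 : ℕ → ℕ → ℕ → ℕ → Bool := onCell 536870912 536870912 0 1230186008 1046898278 26843546
    (rowFX 0 true true false .dn 1 3 3 (qsf 536870912 536870912 0 1230186008 3) ndF2q1 ndF6q3 pcF3 Cut.none Ext.none)

def k0_pm_133 : ∃ t, chk3 f_pm_133 t 1 1 1 = true :=
  ⟨(b (l 2) (b (l 2) (a (l 4) (l 2)))), by decide +kernel⟩

theorem c_pm_133 : CertFX 536870912 536870912 0 1230186008 1046898278 26843546 true true false .dn 1 3 3
    ndF2q1 ndF6q3 pcF3 Cut.none Ext.none :=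
  certFX0 (fam := true) (s1 := true) (s2 := false) (a := 1) (b := 3) (c := 3) (cn := .dn) (n1 := ndF2q1) (n2 := ndF6q3) (pc := pcF3) (cut := Cut.none) (xt := Ext.none) (P1 := 536870912) (W1 := 536870912) (P2 := 0) (W2 := 1230186008) (P3 := 1046898278) (W3 := 26843546)
    rfl k0_pm_133

noncomputable def f_pm_202_a : ℕ → ℕ → ℕ → ℕ → Bool := onCell 0 420477299 0 536870912 1046898278 26843546
    (rowFX 0 true true false .pp 2 0 2 (qsf 0 420477299 0 536870912 2) ndF2q2a ndF6q0 pcF2 Cut.none Ext.none)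

def k0_pm_202_a : ∃ t, chk3 f_pm_202_a t 2 1 1 = true :=
  ⟨(b (b (b (b (b (a (c (b (l 16134528) (c (l 16227352) (l 16207048))) (b (c (l 16035952) (b (l 16078440) (l 16142376))) (l 16134224))) (b (c (a (l 16003416) (a (l 15856944) (l 15777192))) (a (c (l 15985904) (l 15722472)) (b (c (l 15782320) (a (l 15789136) (l 15730144))) (c (l 15787600) (l 15797536))))) (c (a (b (l 16094008) (l 16160296)) (b (l 15880632) (l 15952176))) (c (l 15823680) (l 15994208))))) (a (c (b (l 16310352) (l 16475856)) (l 16396544)) (c (a (b (l 16266144) (l 16381600)) (b (l 16066312) (l 16193168))) (a (l 16292312) (l 16092248))))) (a (b (l 16403336) (l 16631760)) (b (c (a (l 16522448) (l 16350704)) (l 16224312)) (a (l 16691248) (l 16433152))))) (b (a (b (a (l 16579664) (l 16550824)) (l 16606088)) (b (a (l 16577376) (l 16693784)) (a (l 16579968) (l 16622848)))) (a (l 16649616) (l 16659840)))) (b (a (b (l 16647976) (l 16630624)) (b (l 16688912) (l 16687800))) (a (b (l 16694248) (l 16702448)) (b (l 16722472)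 (l 16752760))))) (b (b (a (c (l 16703352) (l 16701432)) (c (l 16753016) (l 16752392))) (a (l 4) (b (l 16752704) (l 4)))) (l 2))), by decide +kernel⟩

def k1_pm_202_a : ∃ t, chk3 f_pm_202_a t 6 1 1 = true :=
  ⟨(b (b (b (b (b (a (b (c (a (l 15747696) (l 15748136)) (b (c (l 15745472) (c (l 15734072) (l 15726504))) (a (c (l 15701064) (l 15688592)) (c (l 15702472) (l 15690008))))) (a (c (b (l 15703688) (l 15736136)) (c (l 15714440) (l 15691928))) (c (b (l 15678560) (a (l 15649280) (l 15640632))) (b (l 15656456) (a (l 15624792) (l 15615928)))))) (c (b (l 15734752) (b (l 15663880) (l 15626728))) (b (c (l 15669288) (b (l 15654720) (l 15674936))) (c (l 15630616) (l 15606504))))) (a (b (c (c (l 15620120) (l 15728448)) (l 15730304)) (c (l 15900416) (l 15850640))) (b (a (c (b (l 15609352) (a (a (l 15600944) (l 15579672)) (l 15571384))) (a (b (l 15562784) (l 15535672)) (l 15534352))) (c (l 15573024) (l 15520376))) (a (b (a (l 15437656) (c (l 15550632) (l 15488528))) (l 15608504)) (b (l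 15345480) (a (c (l 15496432) (l 15437064)) (l 15433992))))))) (a (b (l 15852264) (l 16119328)) (b (a (l 15777352) (b (a (l 15513360) (b (c (l 15436560) (l 15380528)) (l 15439152))) (l 15606264))) (c (l 15927520) (l 15902056))))) (b (a (b (l 16446168) (l 16656800)) (b (l 16062504) (l 16354392))) (a (l 16704168) (b (l 16457672) (l 16584064))))) (b (b (l 16611960) (l 16559712)) (b (l 16481824) (l 16608808)))) (b (b (c (l 16611360) (l 16607056)) (c (l 16611360) (l 16607056))) (b (c (l 16611360) (l 16607056)) (l 2)))), by decide +kernel⟩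

def k2_pm_202_a : ∃ t, chk3 f_pm_202_a t 14 1 1 = true :=
  ⟨(b (b (b (b (b (c (b (l 15746512) (c (l 15653888) (l 15626448))) (b (c (b (l 15746424) (l 15697328)) (b (c (l 15734760) (l 15727024)) (l 15684752))) (c (l 15634392) (l 15609824)))) (c (b (l 15558352) (l 15494336)) (l 15479200))) (b (a (b (a (c (l 15392472) (l 15337056)) (l 15358400)) (a (c (l 15430504) (l 15385080)) (b (c (l 15325392) (l 15275840)) (c (l 15339032) (l 15293504))))) (c (b (l 15407784) (l 15315280)) (l 15308888))) (a (c (l 15567760) (l 15532544)) (b (a (c (l 15069816) (l 15278904)) (b (l 15227592) (c (l 15240696) (l 15197720)))) (c (l 15386056) (l 15348624)))))) (b (b (a (l 15810632) (l 15555640)) (l 15939176)) (a (b (l 16254688) (l 16431064)) (l 16173264)))) (b (b (a (l 16447480) (l 16395936)) (l 16375992)) (b (l 16358352) (l 16379728)))) (b (b (l 16394016) (l 16394016)) (b (c (l 16398928) (l 16389104)) (l 2)))), by decide +kernel⟩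

def k3_pm_202_a : ∃ t, chk3 f_pm_202_a t 15 1 1 = true :=
  ⟨(b (b (b (b (b (c (b (a (l 15809176) (l 15806272)) (b (a (l 15736176) (l 15765056)) (c (l 15717672) (l 15720904)))) (b (c (b (l 15797520) (a (l 15767016) (l 15772856))) (b (a (c (l 15798136) (l 15790720)) (l 15630864)) (l 15690696))) (c (a (l 15700824) (l 15734928)) (l 15690304)))) (c (b (c (l 15676944) (l 15657056)) (l 15570832)) (l 15455336))) (b (c (l 15413184) (l 15359952)) (a (b (l 15225448) (a (b (c (l 15193040) (l 15150472)) (l 15134952)) (c (l 15169744) (l 15126488)))) (c (l 15233984) (l 15189488))))) (b (b (a (a (l 15377976) (b (c (l 15189232) (l 15147688)) (l 15304752))) (b (a (b (l 15089872) (l 15077776)) (l 15080736)) (a (l 15150816) (b (l 15026184) (l 15038832))))) (a (l 15584536) (l 15289088))) (a (l 15959600) (l 15555120)))) (b (b (a (l 16096120) (l 15925216)) (l 16281824)) (b (l 16231216) (l 16243128)))) (b (b (l 16260944) (l 16285176)) (b (l 16285176) (a (l 2) (l 16255416))))), by decide +kernel⟩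

theorem s4_pm_202_a : ∃ t, chk3 f_pm_202_a t 7 1 1 = true := ex3_a k2_pm_202_a k3_pm_202_a

theorem s5_pm_202_a : ∃ t, chk3 f_pm_202_a t 3 1 1 = true := ex3_a k1_pm_202_a s4_pm_202_a

theorem s6_pm_202_a : ∃ t, chk3 f_pm_202_a t 1 1 1 = true := ex3_a k0_pm_202_a s5_pm_202_a

theorem c_pm_202_a : CertFX 0 420477299 0 536870912 1046898278 26843546 true true false .pp 2 0 2
    ndF2q2a ndF6q0 pcF2 Cut.none Ext.none :=
  certFX0 (fam := true) (s1 := true) (s2 := false) (a := 2) (b := 0) (c := 2) (cn := .pp) (n1 := ndF2q2a) (n2 := ndF6q0) (pc := pcF2) (cut := Cut.none) (xt := Ext.none) (P1 := 0) (W1 := 420477299) (P2 := 0) (W2 := 536870912) (P3 := 1046898278) (W3 := 26843546)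
    rfl s6_pm_202_a

noncomputable def f_pm_202_b : ℕ → ℕ → ℕ → ℕ → Bool := onCell 1239849684 370763052 0 536870912 1046898278 26843546
    (rowFX 0 true true false .pp 2 0 2 (qsf 1239849684 370763052 0 536870912 2) ndF2q2b ndF6q0 pcF2 Cut.none Ext.none)

def k0_pm_202_b : ∃ t, chk3 f_pm_202_b t 1 1 1 = true :=
  ⟨(b (a (b (b (a (b (a (b (c (b (l 16210432) (a (b (l 16385392) (l 16437632)) (l 16572072))) (b (b (a (a (l 16168832) (l 16351400)) (l 16571120)) (c (l 16310344) (l 16413480))) (a (l 16345232) (l 16568136)))) (c (a (l 16354160) (b (l 16484472) (l 16436232))) (a (l 16543184) (l 16490280)))) (b (a (c (b (l 16369848) (l 16346624)) (b (c (l 16369168) (l 16368832)) (l 16335688))) (c (l 16132920) (b (l 16179448) (l 16261856)))) (c (l 16313352) (l 16330648)))) (a (a (b (l 16372576) (c (l 16567904) (l 16569096))) (b (c (l 16444312) (l 16458728)) (l 16488112))) (c (l 16367424) (l 16394392)))) (b (c (b (a (l 16073200) (l 16047912)) (a (l 16191928) (l 16069984))) (b (a (b (l 16142192)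 (l 16174840)) (l 15785144)) (l 16106648))) (a (c (l 16253520) (l 16255176)) (l 16134120)))) (a (a (b (b (l 16556536) (l 16590432)) (l 16608352)) (b (c (l 16455864) (l 16448096)) (c (l 16502552) (l 16495608)))) (b (a (l 16224264) (l 16334024)) (a (l 16465104) (l 16465104))))) (a (b (a (b (a (l 16618320) (l 16566632)) (l 16547520)) (c (l 16604096) (l 16599568))) (c (a (l 16672120) (l 16753736)) (a (b (l 16710328) (l 16732496)) (l 16753096)))) (b (c (a (l 16606832) (l 16606832)) (a (l 16602408) (l 16602408))) (l 4)))) (b (a (b (b (c (b (l 15991496) (l 16046008)) (b (l 15810472) (l 16054376))) (c (l 16174752) (l 16173648))) (c (b (l 16339144) (l 16469104)) (b (l 16327560) (l 16461104)))) (b (a (b (c (l 15855616) (l 15951368)) (l 16172408)) (a (l 4) (l 4))) (l 4))) (l 4))) (a (a (b (l 4) (l 2)) (l 4)) (l 2))), by decide +kernel⟩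

theorem c_pm_202_b : CertFX 1239849684 370763052 0 536870912 1046898278 26843546 true true false .pp 2 0 2
    ndF2q2b ndF6q0 pcF2 Cut.none Ext.none :=
  certFX0 (fam := true) (s1 := true) (s2 := false) (a := 2) (b := 0) (c := 2) (cn := .pp) (n1 := ndF2q2b) (n2 := ndF6q0) (pc := pcF2) (cut := Cut.none) (xt := Ext.none) (P1 := 1239849684) (W1 := 370763052) (P2 := 0) (W2 := 536870912) (P3 := 1046898278) (W3 := 26843546)
    rfl k0_pm_202_b

noncomputable def f_pm_203_a : ℕ → ℕ → ℕ → ℕ → Bool := onCell 0 420477299 1610612736 536870912 1046898278 26843546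
    (rowFX 1 true true false .up 2 0 3 (qsf 0 420477299 0 536870912 3) ndF2q2a ndF6q0 pcF3 Cut.none Ext.none)

def k0_pm_203_a : ∃ t, chk3 f_pm_203_a t 1 1 1 = true :=
  ⟨(b (b (a (l 4) (b (a (b (l 16609208) (l 4)) (c (l 16362384) (l 16351600))) (l 4))) (l 4)) (l 2)), by decide +kernel⟩

theorem c_pm_203_a : CertFX 0 420477299 0 536870912 1046898278 26843546 true true false .up 2 0 3
    ndF2q2a ndF6q0 pcF3 Cut.none Ext.none :=
  certFX1 (fam := true) (s1 := true) (s2 := false) (a := 2) (b := 0) (c := 3) (cn := .up) (n1 := ndF2q2a) (n2 := ndF6q0) (pc := pcF3) (cut := Cut.none) (xt := Ext.none) (P1 := 0) (W1 := 420477299) (P2 := 0) (W2 := 536870912) (P3 := 1046898278) (W3 := 26843546)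
    rfl (fun _ => rfl) k0_pm_203_a

noncomputable def f_pm_203_b : ℕ → ℕ → ℕ → ℕ → Bool := onCell 1239849684 370763052 1610612736 536870912 1046898278 26843546
    (rowFX 1 true true false .up 2 0 3 (qsf 1239849684 370763052 0 536870912 3) ndF2q2b ndF6q0 pcF3 Cut.none Ext.none)

def k0_pm_203_b : ∃ t, chk3 f_pm_203_b t 1 1 1 = true :=
  ⟨(b (l 4) (l 4)), by decide +kernel⟩

theorem c_pm_203_b : CertFX 1239849684 370763052 0 536870912 1046898278 26843546 true true false .up 2 0 3
    ndF2q2b ndF6q0 pcF3 Cut.none Ext.none :=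
  certFX1 (fam := true) (s1 := true) (s2 := false) (a := 2) (b := 0) (c := 3) (cn := .up) (n1 := ndF2q2b) (n2 := ndF6q0) (pc := pcF3) (cut := Cut.none) (xt := Ext.none) (P1 := 1239849684) (W1 := 370763052) (P2 := 0) (W2 := 536870912) (P3 := 1046898278) (W3 := 26843546)
    rfl (fun _ => rfl) k0_pm_203_b

noncomputable def f_pm_213_a : ℕ → ℕ → ℕ → ℕ → Bool := onCell 0 420477299 536870912 469762048 1046898278 26843546
    (rowFX 0 true true false .pnn 2 1 3 (qsf 0 420477299 536870912 469762048 3) ndF2q2a ndF6q1 pcF3 Cut.none Ext.none)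

def k0_pm_213_a : ∃ t, chk3 f_pm_213_a t 1 1 1 = true :=
  ⟨(b (l 4) (l 4)), by decide +kernel⟩

theorem c_pm_213_a : CertFX 0 420477299 536870912 469762048 1046898278 26843546 true true false .pnn 2 1 3
    ndF2q2a ndF6q1 pcF3 Cut.none Ext.none :=
  certFX0 (fam := true) (s1 := true) (s2 := false) (a := 2) (b := 1) (c := 3) (cn := .pnn) (n1 := ndF2q2a) (n2 := ndF6q1) (pc := pcF3) (cut := Cut.none) (xt := Ext.none) (P1 := 0) (W1 := 420477299) (P2 := 536870912) (W2 := 469762048) (P3 := 1046898278) (W3 := 26843546)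
    rfl k0_pm_213_a

noncomputable def f_pm_213_b : ℕ → ℕ → ℕ → ℕ → Bool := onCell 1239849684 370763052 536870912 469762048 1046898278 26843546
    (rowFX 0 true true false .pnn 2 1 3 (qsf 1239849684 370763052 536870912 469762048 3) ndF2q2b ndF6q1 pcF3 Cut.none Ext.none)

def k0_pm_213_b : ∃ t, chk3 f_pm_213_b t 1 1 1 = true :=
  ⟨(l 4), by decide +kernel⟩

theorem c_pm_213_b : CertFX 1239849684 370763052 536870912 469762048 1046898278 26843546 true true false .pnn 2 1 3
    ndF2q2b ndF6q1 pcF3 Cut.none Ext.none :=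
  certFX0 (fam := true) (s1 := true) (s2 := false) (a := 2) (b := 1) (c := 3) (cn := .pnn) (n1 := ndF2q2b) (n2 := ndF6q1) (pc := pcF3) (cut := Cut.none) (xt := Ext.none) (P1 := 1239849684) (W1 := 370763052) (P2 := 536870912) (W2 := 469762048) (P3 := 1046898278) (W3 := 26843546)
    rfl k0_pm_213_b

noncomputable def f_pm_303 : ℕ → ℕ → ℕ → ℕ → Bool := onCell 1610612736 536870912 0 536870912 1046898278 26843546
    (rowFX 2 true true false .npn 3 0 3 (qsf 1610612736 469762048 0 536870912 3) ndF2q3 ndF6q0 pcF3 Cut.none Ext.none)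

def k0_pm_303 : ∃ t, chk3 f_pm_303 t 1 1 1 = true :=
  ⟨(a (l 4) (l 4)), by decide +kernel⟩

theorem c_pm_303 : CertFX 1610612736 469762048 0 536870912 1046898278 26843546 true true false .npn 3 0 3
    ndF2q3 ndF6q0 pcF3 Cut.none Ext.none :=
  certFX2 (fam := true) (s1 := true) (s2 := false) (a := 3) (b := 0) (c := 3) (cn := .npn) (n1 := ndF2q3) (n2 := ndF6q0) (pc := pcF3) (cut := Cut.none) (xt := Ext.none) (P1 := 1610612736) (W1 := 469762048) (P2 := 0) (W2 := 536870912) (P3 := 1046898278) (W3 := 26843546)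
    rfl (fun _ => rfl) k0_pm_303

noncomputable def f_pm_313 : ℕ → ℕ → ℕ → ℕ → Bool := onCell 1610612736 469762048 536870912 469762048 1046898278 26843546
    (rowFX 0 true true false .dn 3 1 3 (qsf 1610612736 469762048 536870912 469762048 3) ndF2q3 ndF6q1 pcF3 Cut.none Ext.none)

def k0_pm_313 : ∃ t, chk3 f_pm_313 t 1 1 1 = true :=
  ⟨(l 4), by decide +kernel⟩

theorem c_pm_313 : CertFX 1610612736 469762048 536870912 469762048 1046898278 26843546 true true false .dn 3 1 3
    ndF2q3 ndF6q1 pcF3 Cut.none Ext.none :=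
  certFX0 (fam := true) (s1 := true) (s2 := false) (a := 3) (b := 1) (c := 3) (cn := .dn) (n1 := ndF2q3) (n2 := ndF6q1) (pc := pcF3) (cut := Cut.none) (xt := Ext.none) (P1 := 1610612736) (W1 := 469762048) (P2 := 536870912) (W2 := 469762048) (P3 := 1046898278) (W3 := 26843546)
    rfl k0_pm_313

noncomputable def f_mm_001 : ℕ → ℕ → ℕ → ℕ → Bool := onCell 67108864 469762048 0 536870912 1046898278 26843546
    (rowFX 0 true false false .up 0 0 1 (qsf 67108864 469762048 0 536870912 1) ndF2q0 ndF6q0 pcF1 Cut.none Ext.none)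

def k0_mm_001 : ∃ t, chk3 f_mm_001 t 1 1 1 = true :=
  ⟨(l 4), by decide +kernel⟩

theorem c_mm_001 : CertFX 67108864 469762048 0 536870912 1046898278 26843546 true false false .up 0 0 1
    ndF2q0 ndF6q0 pcF1 Cut.none Ext.none :=
  certFX0 (fam := true) (s1 := false) (s2 := false) (a := 0) (b := 0) (c := 1) (cn := .up) (n1 := ndF2q0) (n2 := ndF6q0) (pc := pcF1) (cut := Cut.none) (xt := Ext.none) (P1 := 67108864) (W1 := 469762048) (P2 := 0) (W2 := 536870912) (P3 := 1046898278) (W3 := 26843546)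
    rfl k0_mm_001

noncomputable def f_mm_011 : ℕ → ℕ → ℕ → ℕ → Bool := onCell 67108864 469762048 536870912 469762048 1046898278 26843546
    (rowFX 0 true false false .pnn 0 1 1 (qsf 67108864 469762048 536870912 469762048 1) ndF2q0 ndF6q1 pcF1 Cut.none Ext.none)

def k0_mm_011 : ∃ t, chk3 f_mm_011 t 1 1 1 = true :=
  ⟨(l 4), by decide +kernel⟩

theorem c_mm_011 : CertFX 67108864 469762048 536870912 469762048 1046898278 26843546 true false false .pnn 0 1 1
    ndF2q0 ndF6q1 pcF1 Cut.none Ext.none :=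
  certFX0 (fam := true) (s1 := false) (s2 := false) (a := 0) (b := 1) (c := 1) (cn := .pnn) (n1 := ndF2q0) (n2 := ndF6q1) (pc := pcF1) (cut := Cut.none) (xt := Ext.none) (P1 := 67108864) (W1 := 469762048) (P2 := 536870912) (W2 := 469762048) (P3 := 1046898278) (W3 := 26843546)
    rfl k0_mm_011

noncomputable def f_mm_012 : ℕ → ℕ → ℕ → ℕ → Bool := onCell 67108864 469762048 536870912 469762048 1046898278 26843546
    (rowFX 0 true false false .pnp 0 1 2 (qsf 67108864 469762048 536870912 469762048 2) ndF2q0 ndF6q1 pcF2 Cut.none Ext.none)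

def k0_mm_012 : ∃ t, chk3 f_mm_012 t 1 1 1 = true :=
  ⟨(l 4), by decide +kernel⟩

theorem c_mm_012 : CertFX 67108864 469762048 536870912 469762048 1046898278 26843546 true false false .pnp 0 1 2
    ndF2q0 ndF6q1 pcF2 Cut.none Ext.none :=
  certFX0 (fam := true) (s1 := false) (s2 := false) (a := 0) (b := 1) (c := 2) (cn := .pnp) (n1 := ndF2q0) (n2 := ndF6q1) (pc := pcF2) (cut := Cut.none) (xt := Ext.none) (P1 := 67108864) (W1 := 469762048) (P2 := 536870912) (W2 := 469762048) (P3 := 1046898278) (W3 := 26843546)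
    rfl k0_mm_012

noncomputable def f_mm_022 : ℕ → ℕ → ℕ → ℕ → Bool := onCell 67108864 469762048 1073741824 536870912 1046898278 26843546
    (rowFX 0 true false false .pp 0 2 2 (qsf 67108864 469762048 1073741824 536870912 2) ndF2q0 ndF6q2 pcF2 Cut.none Ext.none)

def k0_mm_022 : ∃ t, chk3 f_mm_022 t 1 1 1 = true :=
  ⟨(l 4), by decide +kernel⟩

theorem c_mm_022 : CertFX 67108864 469762048 1073741824 536870912 1046898278 26843546 true false false .pp 0 2 2
    ndF2q0 ndF6q2 pcF2 Cut.none Ext.none :=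
  certFX0 (fam := true) (s1 := false) (s2 := false) (a := 0) (b := 2) (c := 2) (cn := .pp) (n1 := ndF2q0) (n2 := ndF6q2) (pc := pcF2) (cut := Cut.none) (xt := Ext.none) (P1 := 67108864) (W1 := 469762048) (P2 := 1073741824) (W2 := 536870912) (P3 := 1046898278) (W3 := 26843546)
    rfl k0_mm_022

noncomputable def f_mm_023 : ℕ → ℕ → ℕ → ℕ → Bool := onCell 67108864 469762048 1073741824 536870912 1046898278 26843546
    (rowFX 0 true false false .up 0 2 3 (qsf 67108864 469762048 1073741824 536870912 3) ndF2q0 ndF6q2 pcF3 Cut.none Ext.none)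

def k0_mm_023 : ∃ t, chk3 f_mm_023 t 1 1 1 = true :=
  ⟨(l 4), by decide +kernel⟩

theorem c_mm_023 : CertFX 67108864 469762048 1073741824 536870912 1046898278 26843546 true false false .up 0 2 3
    ndF2q0 ndF6q2 pcF3 Cut.none Ext.none :=
  certFX0 (fam := true) (s1 := false) (s2 := false) (a := 0) (b := 2) (c := 3) (cn := .up) (n1 := ndF2q0) (n2 := ndF6q2) (pc := pcF3) (cut := Cut.none) (xt := Ext.none) (P1 := 67108864) (W1 := 469762048) (P2 := 1073741824) (W2 := 536870912) (P3 := 1046898278) (W3 := 26843546)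
    rfl k0_mm_023

noncomputable def f_mm_033 : ℕ → ℕ → ℕ → ℕ → Bool := onCell 67108864 469762048 0 1230186008 1046898278 26843546
    (rowFX 0 true false false .pnn 0 3 3 (qsf 67108864 469762048 0 1230186008 3) ndF2q0 ndF6q3 pcF3 Cut.none Ext.none)

def k0_mm_033 : ∃ t, chk3 f_mm_033 t 1 1 1 = true :=
  ⟨(l 5), by decide +kernel⟩

theorem c_mm_033 : CertFX 67108864 469762048 0 1230186008 1046898278 26843546 true false false .pnn 0 3 3
    ndF2q0 ndF6q3 pcF3 Cut.none Ext.none :=
  certFX0 (fam := true) (s1 := false) (s2 := false) (a := 0) (b := 3) (c := 3) (cn := .pnn) (n1 := ndF2q0) (n2 := ndF6q3) (pc := pcF3) (cut := Cut.none) (xt := Ext.none) (P1 := 67108864) (W1 := 469762048) (P2 := 0) (W2 := 1230186008) (P3 := 1046898278) (W3 := 26843546)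
    rfl k0_mm_033

noncomputable def f_mm_101 : ℕ → ℕ → ℕ → ℕ → Bool := onCell 536870912 536870912 0 536870912 1046898278 26843546
    (rowFX 0 true false false .npn 1 0 1 (qsf 536870912 536870912 0 536870912 1) ndF2q1 ndF6q0 pcF1 Cut.none Ext.none)

def k0_mm_101 : ∃ t, chk3 f_mm_101 t 1 1 1 = true :=
  ⟨(l 4), by decide +kernel⟩

theorem c_mm_101 : CertFX 536870912 536870912 0 536870912 1046898278 26843546 true false false .npn 1 0 1
    ndF2q1 ndF6q0 pcF1 Cut.none Ext.none :=
  certFX0 (fam := true) (s1 := false) (s2 := false) (a := 1) (b := 0) (c := 1) (cn := .npn) (n1 := ndF2q1) (n2 := ndF6q0) (pc := pcF1) (cut := Cut.none) (xt := Ext.none) (P1 := 536870912) (W1 := 536870912) (P2 := 0) (W2 := 536870912) (P3 := 1046898278) (W3 := 26843546)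
    rfl k0_mm_101

noncomputable def f_mm_102 : ℕ → ℕ → ℕ → ℕ → Bool := onCell 536870912 536870912 0 536870912 1046898278 26843546
    (rowFX 0 true false false .npp 1 0 2 (qsf 536870912 536870912 0 536870912 2) ndF2q1 ndF6q0 pcF2 Cut.none Ext.none)

def k0_mm_102 : ∃ t, chk3 f_mm_102 t 1 1 1 = true :=
  ⟨(l 4), by decide +kernel⟩

theorem c_mm_102 : CertFX 536870912 536870912 0 536870912 1046898278 26843546 true false false .npp 1 0 2
    ndF2q1 ndF6q0 pcF2 Cut.none Ext.none :=
  certFX0 (fam := true) (s1 := false) (s2 := false) (a := 1) (b := 0) (c := 2) (cn := .npp) (n1 := ndF2q1) (n2 := ndF6q0) (pc := pcF2) (cut := Cut.none) (xt := Ext.none) (P1 := 536870912) (W1 := 536870912) (P2 := 0) (W2 := 536870912) (P3 := 1046898278) (W3 := 26843546)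
    rfl k0_mm_102

noncomputable def f_mm_112 : ℕ → ℕ → ℕ → ℕ → Bool := onCell 536870912 536870912 536870912 469762048 1046898278 26843546
    (rowFX 0 true false false .dn 1 1 2 (qsf 536870912 536870912 536870912 469762048 2) ndF2q1 ndF6q1 pcF2 Cut.none Ext.none)

def k0_mm_112 : ∃ t, chk3 f_mm_112 t 1 1 1 = true :=
  ⟨(l 4), by decide +kernel⟩

theorem c_mm_112 : CertFX 536870912 536870912 536870912 469762048 1046898278 26843546 true false false .dn 1 1 2
    ndF2q1 ndF6q1 pcF2 Cut.none Ext.none :=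
  certFX0 (fam := true) (s1 := false) (s2 := false) (a := 1) (b := 1) (c := 2) (cn := .dn) (n1 := ndF2q1) (n2 := ndF6q1) (pc := pcF2) (cut := Cut.none) (xt := Ext.none) (P1 := 536870912) (W1 := 536870912) (P2 := 536870912) (W2 := 469762048) (P3 := 1046898278) (W3 := 26843546)
    rfl k0_mm_112

noncomputable def f_mm_113 : ℕ → ℕ → ℕ → ℕ → Bool := onCell 536870912 536870912 536870912 469762048 1046898278 26843546
    (rowFX 0 true false false .nn 1 1 3 (qsf 536870912 536870912 536870912 469762048 3) ndF2q1 ndF6q1 pcF3 Cut.none Ext.none)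

def k0_mm_113 : ∃ t, chk3 f_mm_113 t 1 1 1 = true :=
  ⟨(l 4), by decide +kernel⟩

theorem c_mm_113 : CertFX 536870912 536870912 536870912 469762048 1046898278 26843546 true false false .nn 1 1 3
    ndF2q1 ndF6q1 pcF3 Cut.none Ext.none :=
  certFX0 (fam := true) (s1 := false) (s2 := false) (a := 1) (b := 1) (c := 3) (cn := .nn) (n1 := ndF2q1) (n2 := ndF6q1) (pc := pcF3) (cut := Cut.none) (xt := Ext.none) (P1 := 536870912) (W1 := 536870912) (P2 := 536870912) (W2 := 469762048) (P3 := 1046898278) (W3 := 26843546)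
    rfl k0_mm_113

noncomputable def f_mm_123 : ℕ → ℕ → ℕ → ℕ → Bool := onCell 536870912 536870912 1073741824 536870912 1046898278 26843546
    (rowFX 0 true false false .npn 1 2 3 (qsf 536870912 536870912 1073741824 536870912 3) ndF2q1 ndF6q2 pcF3 Cut.none Ext.none)

def k0_mm_123 : ∃ t, chk3 f_mm_123 t 1 1 1 = true :=
  ⟨(l 4), by decide +kernel⟩

theorem c_mm_123 : CertFX 536870912 536870912 1073741824 536870912 1046898278 26843546 true false false .npn 1 2 3
    ndF2q1 ndF6q2 pcF3 Cut.none Ext.none :=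
  certFX0 (fam := true) (s1 := false) (s2 := false) (a := 1) (b := 2) (c := 3) (cn := .npn) (n1 := ndF2q1) (n2 := ndF6q2) (pc := pcF3) (cut := Cut.none) (xt := Ext.none) (P1 := 536870912) (W1 := 536870912) (P2 := 1073741824) (W2 := 536870912) (P3 := 1046898278) (W3 := 26843546)
    rfl k0_mm_123

noncomputable def f_mm_133 : ℕ → ℕ → ℕ → ℕ → Bool := onCell 536870912 536870912 0 1230186008 1046898278 26843546
    (rowFX 0 true false false .dn 1 3 3 (qsf 536870912 536870912 0 1230186008 3) ndF2q1 ndF6q3 pcF3 Cut.none Ext.none)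

def k0_mm_133 : ∃ t, chk3 f_mm_133 t 1 1 1 = true :=
  ⟨(l 4), by decide +kernel⟩

theorem c_mm_133 : CertFX 536870912 536870912 0 1230186008 1046898278 26843546 true false false .dn 1 3 3
    ndF2q1 ndF6q3 pcF3 Cut.none Ext.none :=
  certFX0 (fam := true) (s1 := false) (s2 := false) (a := 1) (b := 3) (c := 3) (cn := .dn) (n1 := ndF2q1) (n2 := ndF6q3) (pc := pcF3) (cut := Cut.none) (xt := Ext.none) (P1 := 536870912) (W1 := 536870912) (P2 := 0) (W2 := 1230186008) (P3 := 1046898278) (W3 := 26843546)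
    rfl k0_mm_133

noncomputable def f_mm_202_a : ℕ → ℕ → ℕ → ℕ → Bool := onCell 0 420477299 0 536870912 1046898278 26843546
    (rowFX 0 true false false .pp 2 0 2 (qsf 0 420477299 0 536870912 2) ndF2q2a ndF6q0 pcF2 Cut.none Ext.none)

def k0_mm_202_a : ∃ t, chk3 f_mm_202_a t 1 1 1 = true :=
  ⟨(l 4), by decide +kernel⟩

theorem c_mm_202_a : CertFX 0 420477299 0 536870912 1046898278 26843546 true false false .pp 2 0 2
    ndF2q2a ndF6q0 pcF2 Cut.none Ext.none :=
  certFX0 (fam := true) (s1 := false) (s2 := false) (a := 2) (b := 0) (c := 2) (cn := .pp) (n1 := ndF2q2a) (n2 := ndF6q0) (pc := pcF2) (cut := Cut.none) (xt := Ext.none) (P1 := 0) (W1 := 420477299) (P2 := 0) (W2 := 536870912) (P3 := 1046898278) (W3 := 26843546)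
    rfl k0_mm_202_a

noncomputable def f_mm_202_b : ℕ → ℕ → ℕ → ℕ → Bool := onCell 1239849684 370763052 0 536870912 1046898278 26843546
    (rowFX 0 true false false .pp 2 0 2 (qsf 1239849684 370763052 0 536870912 2) ndF2q2b ndF6q0 pcF2 Cut.none Ext.none)

def k0_mm_202_b : ∃ t, chk3 f_mm_202_b t 1 1 1 = true :=
  ⟨(l 4), by decide +kernel⟩

theorem c_mm_202_b : CertFX 1239849684 370763052 0 536870912 1046898278 26843546 true false false .pp 2 0 2
    ndF2q2b ndF6q0 pcF2 Cut.none Ext.none :=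
  certFX0 (fam := true) (s1 := false) (s2 := false) (a := 2) (b := 0) (c := 2) (cn := .pp) (n1 := ndF2q2b) (n2 := ndF6q0) (pc := pcF2) (cut := Cut.none) (xt := Ext.none) (P1 := 1239849684) (W1 := 370763052) (P2 := 0) (W2 := 536870912) (P3 := 1046898278) (W3 := 26843546)
    rfl k0_mm_202_b

noncomputable def f_mm_203_a : ℕ → ℕ → ℕ → ℕ → Bool := onCell 0 420477299 0 536870912 1046898278 26843546
    (rowFX 0 true false false .up 2 0 3 (qsf 0 420477299 0 536870912 3) ndF2q2a ndF6q0 pcF3 Cut.none Ext.none)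

def k0_mm_203_a : ∃ t, chk3 f_mm_203_a t 1 1 1 = true :=
  ⟨(l 4), by decide +kernel⟩

theorem c_mm_203_a : CertFX 0 420477299 0 536870912 1046898278 26843546 true false false .up 2 0 3
    ndF2q2a ndF6q0 pcF3 Cut.none Ext.none :=
  certFX0 (fam := true) (s1 := false) (s2 := false) (a := 2) (b := 0) (c := 3) (cn := .up) (n1 := ndF2q2a) (n2 := ndF6q0) (pc := pcF3) (cut := Cut.none) (xt := Ext.none) (P1 := 0) (W1 := 420477299) (P2 := 0) (W2 := 536870912) (P3 := 1046898278) (W3 := 26843546)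
    rfl k0_mm_203_a

noncomputable def f_mm_203_b : ℕ → ℕ → ℕ → ℕ → Bool := onCell 1239849684 370763052 0 536870912 1046898278 26843546
    (rowFX 0 true false false .up 2 0 3 (qsf 1239849684 370763052 0 536870912 3) ndF2q2b ndF6q0 pcF3 Cut.none Ext.none)

def k0_mm_203_b : ∃ t, chk3 f_mm_203_b t 1 1 1 = true :=
  ⟨(l 4), by decide +kernel⟩

theorem c_mm_203_b : CertFX 1239849684 370763052 0 536870912 1046898278 26843546 true false false .up 2 0 3
    ndF2q2b ndF6q0 pcF3 Cut.none Ext.none :=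
  certFX0 (fam := true) (s1 := false) (s2 := false) (a := 2) (b := 0) (c := 3) (cn := .up) (n1 := ndF2q2b) (n2 := ndF6q0) (pc := pcF3) (cut := Cut.none) (xt := Ext.none) (P1 := 1239849684) (W1 := 370763052) (P2 := 0) (W2 := 536870912) (P3 := 1046898278) (W3 := 26843546)
    rfl k0_mm_203_b

noncomputable def f_mm_213_a : ℕ → ℕ → ℕ → ℕ → Bool := onCell 0 420477299 536870912 469762048 1046898278 26843546
    (rowFX 0 true false false .pnn 2 1 3 (qsf 0 420477299 536870912 469762048 3) ndF2q2a ndF6q1 pcF3 Cut.none Ext.none)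

def k0_mm_213_a : ∃ t, chk3 f_mm_213_a t 1 1 1 = true :=
  ⟨(l 4), by decide +kernel⟩

theorem c_mm_213_a : CertFX 0 420477299 536870912 469762048 1046898278 26843546 true false false .pnn 2 1 3
    ndF2q2a ndF6q1 pcF3 Cut.none Ext.none :=
  certFX0 (fam := true) (s1 := false) (s2 := false) (a := 2) (b := 1) (c := 3) (cn := .pnn) (n1 := ndF2q2a) (n2 := ndF6q1) (pc := pcF3) (cut := Cut.none) (xt := Ext.none) (P1 := 0) (W1 := 420477299) (P2 := 536870912) (W2 := 469762048) (P3 := 1046898278) (W3 := 26843546)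
    rfl k0_mm_213_a

noncomputable def f_mm_213_b : ℕ → ℕ → ℕ → ℕ → Bool := onCell 1239849684 370763052 536870912 469762048 1046898278 26843546
    (rowFX 0 true false false .pnn 2 1 3 (qsf 1239849684 370763052 536870912 469762048 3) ndF2q2b ndF6q1 pcF3 Cut.none Ext.none)

def k0_mm_213_b : ∃ t, chk3 f_mm_213_b t 1 1 1 = true :=
  ⟨(l 4), by decide +kernel⟩

theorem c_mm_213_b : CertFX 1239849684 370763052 536870912 469762048 1046898278 26843546 true false false .pnn 2 1 3
    ndF2q2b ndF6q1 pcF3 Cut.none Ext.none :=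
  certFX0 (fam := true) (s1 := false) (s2 := false) (a := 2) (b := 1) (c := 3) (cn := .pnn) (n1 := ndF2q2b) (n2 := ndF6q1) (pc := pcF3) (cut := Cut.none) (xt := Ext.none) (P1 := 1239849684) (W1 := 370763052) (P2 := 536870912) (W2 := 469762048) (P3 := 1046898278) (W3 := 26843546)
    rfl k0_mm_213_b

noncomputable def f_mm_303 : ℕ → ℕ → ℕ → ℕ → Bool := onCell 1610612736 469762048 0 536870912 1046898278 26843546
    (rowFX 0 true false false .npn 3 0 3 (qsf 1610612736 469762048 0 536870912 3) ndF2q3 ndF6q0 pcF3 Cut.none Ext.none)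

def k0_mm_303 : ∃ t, chk3 f_mm_303 t 1 1 1 = true :=
  ⟨(l 4), by decide +kernel⟩

theorem c_mm_303 : CertFX 1610612736 469762048 0 536870912 1046898278 26843546 true false false .npn 3 0 3
    ndF2q3 ndF6q0 pcF3 Cut.none Ext.none :=
  certFX0 (fam := true) (s1 := false) (s2 := false) (a := 3) (b := 0) (c := 3) (cn := .npn) (n1 := ndF2q3) (n2 := ndF6q0) (pc := pcF3) (cut := Cut.none) (xt := Ext.none) (P1 := 1610612736) (W1 := 469762048) (P2 := 0) (W2 := 536870912) (P3 := 1046898278) (W3 := 26843546)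
    rfl k0_mm_303

noncomputable def f_mm_313 : ℕ → ℕ → ℕ → ℕ → Bool := onCell 1610612736 469762048 536870912 469762048 1046898278 26843546
    (rowFX 0 true false false .dn 3 1 3 (qsf 1610612736 469762048 536870912 469762048 3) ndF2q3 ndF6q1 pcF3 Cut.none Ext.none)

def k0_mm_313 : ∃ t, chk3 f_mm_313 t 1 1 1 = true :=
  ⟨(l 4), by decide +kernel⟩

theorem c_mm_313 : CertFX 1610612736 469762048 536870912 469762048 1046898278 26843546 true false false .dn 3 1 3
    ndF2q3 ndF6q1 pcF3 Cut.none Ext.none :=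
  certFX0 (fam := true) (s1 := false) (s2 := false) (a := 3) (b := 1) (c := 3) (cn := .dn) (n1 := ndF2q3) (n2 := ndF6q1) (pc := pcF3) (cut := Cut.none) (xt := Ext.none) (P1 := 1610612736) (W1 := 469762048) (P2 := 536870912) (W2 := 469762048) (P3 := 1046898278) (W3 := 26843546)
    rfl k0_mm_313

end Pool.Agent.Strip051.G.IE1.Tab.C.FA26

namespace Pool.Agent.Strip051.G.IE1.Tab.C.FA27

open Pool.Agent.Strip051.PB Pool.Agent.Strip051.PB.T
open Pool.Agent.Strip051.G.IE1.Tab

noncomputable def f_pp_001 : ℕ → ℕ → ℕ → ℕ → Bool := onCell 67108864 469762048 0 536870912 1046898278 26843546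
    (rowFX 0 true true true .up 0 0 1 (qsf 67108864 469762048 0 536870912 1) ndF2q0 ndF7q0 pcF1 Cut.none Ext.none)

def k0_pp_001 : ∃ t, chk3 f_pp_001 t 1 1 1 = true :=
  ⟨(l 4), by decide +kernel⟩

theorem c_pp_001 : CertFX 67108864 469762048 0 536870912 1046898278 26843546 true true true .up 0 0 1
    ndF2q0 ndF7q0 pcF1 Cut.none Ext.none :=
  certFX0 (fam := true) (s1 := true) (s2 := true) (a := 0) (b := 0) (c := 1) (cn := .up) (n1 := ndF2q0) (n2 := ndF7q0) (pc := pcF1) (cut := Cut.none) (xt := Ext.none) (P1 := 67108864) (W1 := 469762048) (P2 := 0) (W2 := 536870912) (P3 := 1046898278) (W3 := 26843546)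
    rfl k0_pp_001

noncomputable def f_pp_011 : ℕ → ℕ → ℕ → ℕ → Bool := onCell 67108864 469762048 536870912 536870912 1046898278 26843546
    (rowFX 0 true true true .pnn 0 1 1 (qsf 67108864 469762048 536870912 536870912 1) ndF2q0 ndF7q1 pcF1 Cut.none Ext.none)

def k0_pp_011 : ∃ t, chk3 f_pp_011 t 1 1 1 = true :=
  ⟨(l 4), by decide +kernel⟩

theorem c_pp_011 : CertFX 67108864 469762048 536870912 536870912 1046898278 26843546 true true true .pnn 0 1 1
    ndF2q0 ndF7q1 pcF1 Cut.none Ext.none :=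
  certFX0 (fam := true) (s1 := true) (s2 := true) (a := 0) (b := 1) (c := 1) (cn := .pnn) (n1 := ndF2q0) (n2 := ndF7q1) (pc := pcF1) (cut := Cut.none) (xt := Ext.none) (P1 := 67108864) (W1 := 469762048) (P2 := 536870912) (W2 := 536870912) (P3 := 1046898278) (W3 := 26843546)
    rfl k0_pp_011

noncomputable def f_pp_012 : ℕ → ℕ → ℕ → ℕ → Bool := onCell 67108864 469762048 536870912 536870912 1046898278 26843546
    (rowFX 0 true true true .pnp 0 1 2 (qsf 67108864 469762048 536870912 536870912 2) ndF2q0 ndF7q1 pcF2 Cut.none Ext.none)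

def k0_pp_012 : ∃ t, chk3 f_pp_012 t 1 1 1 = true :=
  ⟨(l 4), by decide +kernel⟩

theorem c_pp_012 : CertFX 67108864 469762048 536870912 536870912 1046898278 26843546 true true true .pnp 0 1 2
    ndF2q0 ndF7q1 pcF2 Cut.none Ext.none :=
  certFX0 (fam := true) (s1 := true) (s2 := true) (a := 0) (b := 1) (c := 2) (cn := .pnp) (n1 := ndF2q0) (n2 := ndF7q1) (pc := pcF2) (cut := Cut.none) (xt := Ext.none) (P1 := 67108864) (W1 := 469762048) (P2 := 536870912) (W2 := 536870912) (P3 := 1046898278) (W3 := 26843546)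
    rfl k0_pp_012

noncomputable def f_pp_022 : ℕ → ℕ → ℕ → ℕ → Bool := onCell 67108864 469762048 1073741824 536870912 1046898278 26843546
    (rowFX 0 true true true .pp 0 2 2 (qsf 67108864 469762048 1073741824 536870912 2) ndF2q0 ndF7q2 pcF2 Cut.none Ext.none)

def k0_pp_022 : ∃ t, chk3 f_pp_022 t 1 1 1 = true :=
  ⟨(l 4), by decide +kernel⟩

theorem c_pp_022 : CertFX 67108864 469762048 1073741824 536870912 1046898278 26843546 true true true .pp 0 2 2
    ndF2q0 ndF7q2 pcF2 Cut.none Ext.none :=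
  certFX0 (fam := true) (s1 := true) (s2 := true) (a := 0) (b := 2) (c := 2) (cn := .pp) (n1 := ndF2q0) (n2 := ndF7q2) (pc := pcF2) (cut := Cut.none) (xt := Ext.none) (P1 := 67108864) (W1 := 469762048) (P2 := 1073741824) (W2 := 536870912) (P3 := 1046898278) (W3 := 26843546)
    rfl k0_pp_022

noncomputable def f_pp_023 : ℕ → ℕ → ℕ → ℕ → Bool := onCell 67108864 469762048 1073741824 536870912 1046898278 26843546
    (rowFX 0 true true true .up 0 2 3 (qsf 67108864 469762048 1073741824 536870912 3) ndF2q0 ndF7q2 pcF3 Cut.none Ext.none)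

def k0_pp_023 : ∃ t, chk3 f_pp_023 t 1 1 1 = true :=
  ⟨(l 4), by decide +kernel⟩

theorem c_pp_023 : CertFX 67108864 469762048 1073741824 536870912 1046898278 26843546 true true true .up 0 2 3
    ndF2q0 ndF7q2 pcF3 Cut.none Ext.none :=
  certFX0 (fam := true) (s1 := true) (s2 := true) (a := 0) (b := 2) (c := 3) (cn := .up) (n1 := ndF2q0) (n2 := ndF7q2) (pc := pcF3) (cut := Cut.none) (xt := Ext.none) (P1 := 67108864) (W1 := 469762048) (P2 := 1073741824) (W2 := 536870912) (P3 := 1046898278) (W3 := 26843546)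
    rfl k0_pp_023

noncomputable def f_pp_033 : ℕ → ℕ → ℕ → ℕ → Bool := onCell 67108864 469762048 0 1230186008 1046898278 26843546
    (rowFX 0 true true true .pnn 0 3 3 (qsf 67108864 469762048 0 1230186008 3) ndF2q0 ndF7q3 pcF3 Cut.none Ext.none)

def k0_pp_033 : ∃ t, chk3 f_pp_033 t 1 1 1 = true :=
  ⟨(l 4), by decide +kernel⟩

theorem c_pp_033 : CertFX 67108864 469762048 0 1230186008 1046898278 26843546 true true true .pnn 0 3 3
    ndF2q0 ndF7q3 pcF3 Cut.none Ext.none :=
  certFX0 (fam := true) (s1 := true) (s2 := true) (a := 0) (b := 3) (c := 3) (cn := .pnn) (n1 := ndF2q0) (n2 := ndF7q3) (pc := pcF3) (cut := Cut.none) (xt := Ext.none) (P1 := 67108864) (W1 := 469762048) (P2 := 0) (W2 := 1230186008) (P3 := 1046898278) (W3 := 26843546)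
    rfl k0_pp_033

noncomputable def f_pp_101 : ℕ → ℕ → ℕ → ℕ → Bool := onCell 536870912 536870912 0 536870912 1046898278 26843546
    (rowFX 0 true true true .npn 1 0 1 (qsf 536870912 536870912 0 536870912 1) ndF2q1 ndF7q0 pcF1 Cut.none Ext.none)

def k0_pp_101 : ∃ t, chk3 f_pp_101 t 1 1 1 = true :=
  ⟨(l 4), by decide +kernel⟩

theorem c_pp_101 : CertFX 536870912 536870912 0 536870912 1046898278 26843546 true true true .npn 1 0 1
    ndF2q1 ndF7q0 pcF1 Cut.none Ext.none :=
  certFX0 (fam := true) (s1 := true) (s2 := true) (a := 1) (b := 0) (c := 1) (cn := .npn) (n1 := ndF2q1) (n2 := ndF7q0) (pc := pcF1) (cut := Cut.none) (xt := Ext.none) (P1 := 536870912) (W1 := 536870912) (P2 := 0) (W2 := 536870912) (P3 := 1046898278) (W3 := 26843546)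
    rfl k0_pp_101

noncomputable def f_pp_102 : ℕ → ℕ → ℕ → ℕ → Bool := onCell 536870912 536870912 0 536870912 1046898278 26843546
    (rowFX 0 true true true .npp 1 0 2 (qsf 536870912 536870912 0 536870912 2) ndF2q1 ndF7q0 pcF2 Cut.none Ext.none)

def k0_pp_102 : ∃ t, chk3 f_pp_102 t 1 1 1 = true :=
  ⟨(l 4), by decide +kernel⟩

theorem c_pp_102 : CertFX 536870912 536870912 0 536870912 1046898278 26843546 true true true .npp 1 0 2
    ndF2q1 ndF7q0 pcF2 Cut.none Ext.none :=
  certFX0 (fam := true) (s1 := true) (s2 := true) (a := 1) (b := 0) (c := 2) (cn := .npp) (n1 := ndF2q1) (n2 := ndF7q0) (pc := pcF2) (cut := Cut.none) (xt := Ext.none) (P1 := 536870912) (W1 := 536870912) (P2 := 0) (W2 := 536870912) (P3 := 1046898278) (W3 := 26843546)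
    rfl k0_pp_102

noncomputable def f_pp_112 : ℕ → ℕ → ℕ → ℕ → Bool := onCell 536870912 536870912 536870912 536870912 1046898278 26843546
    (rowFX 0 true true true .dn 1 1 2 (qsf 536870912 536870912 536870912 536870912 2) ndF2q1 ndF7q1 pcF2 Cut.none Ext.none)

def k0_pp_112 : ∃ t, chk3 f_pp_112 t 1 1 1 = true :=
  ⟨(l 4), by decide +kernel⟩

theorem c_pp_112 : CertFX 536870912 536870912 536870912 536870912 1046898278 26843546 true true true .dn 1 1 2
    ndF2q1 ndF7q1 pcF2 Cut.none Ext.none :=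
  certFX0 (fam := true) (s1 := true) (s2 := true) (a := 1) (b := 1) (c := 2) (cn := .dn) (n1 := ndF2q1) (n2 := ndF7q1) (pc := pcF2) (cut := Cut.none) (xt := Ext.none) (P1 := 536870912) (W1 := 536870912) (P2 := 536870912) (W2 := 536870912) (P3 := 1046898278) (W3 := 26843546)
    rfl k0_pp_112

noncomputable def f_pp_113 : ℕ → ℕ → ℕ → ℕ → Bool := onCell 536870912 536870912 536870912 536870912 1046898278 26843546
    (rowFX 0 true true true .nn 1 1 3 (qsf 536870912 536870912 536870912 536870912 3) ndF2q1 ndF7q1 pcF3 Cut.none Ext.none)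

def k0_pp_113 : ∃ t, chk3 f_pp_113 t 1 1 1 = true :=
  ⟨(l 4), by decide +kernel⟩

theorem c_pp_113 : CertFX 536870912 536870912 536870912 536870912 1046898278 26843546 true true true .nn 1 1 3
    ndF2q1 ndF7q1 pcF3 Cut.none Ext.none :=
  certFX0 (fam := true) (s1 := true) (s2 := true) (a := 1) (b := 1) (c := 3) (cn := .nn) (n1 := ndF2q1) (n2 := ndF7q1) (pc := pcF3) (cut := Cut.none) (xt := Ext.none) (P1 := 536870912) (W1 := 536870912) (P2 := 536870912) (W2 := 536870912) (P3 := 1046898278) (W3 := 26843546)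
    rfl k0_pp_113

noncomputable def f_pp_123 : ℕ → ℕ → ℕ → ℕ → Bool := onCell 536870912 536870912 1073741824 536870912 1046898278 26843546
    (rowFX 0 true true true .npn 1 2 3 (qsf 536870912 536870912 1073741824 536870912 3) ndF2q1 ndF7q2 pcF3 Cut.none Ext.none)

def k0_pp_123 : ∃ t, chk3 f_pp_123 t 1 1 1 = true :=
  ⟨(l 4), by decide +kernel⟩

theorem c_pp_123 : CertFX 536870912 536870912 1073741824 536870912 1046898278 26843546 true true true .npn 1 2 3
    ndF2q1 ndF7q2 pcF3 Cut.none Ext.none :=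
  certFX0 (fam := true) (s1 := true) (s2 := true) (a := 1) (b := 2) (c := 3) (cn := .npn) (n1 := ndF2q1) (n2 := ndF7q2) (pc := pcF3) (cut := Cut.none) (xt := Ext.none) (P1 := 536870912) (W1 := 536870912) (P2 := 1073741824) (W2 := 536870912) (P3 := 1046898278) (W3 := 26843546)
    rfl k0_pp_123

noncomputable def f_pp_133 : ℕ → ℕ → ℕ → ℕ → Bool := onCell 536870912 536870912 0 1230186008 1046898278 26843546
    (rowFX 0 true true true .dn 1 3 3 (qsf 536870912 536870912 0 1230186008 3) ndF2q1 ndF7q3 pcF3 Cut.none Ext.none)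

def k0_pp_133 : ∃ t, chk3 f_pp_133 t 1 1 1 = true :=
  ⟨(l 4), by decide +kernel⟩

theorem c_pp_133 : CertFX 536870912 536870912 0 1230186008 1046898278 26843546 true true true .dn 1 3 3
    ndF2q1 ndF7q3 pcF3 Cut.none Ext.none :=
  certFX0 (fam := true) (s1 := true) (s2 := true) (a := 1) (b := 3) (c := 3) (cn := .dn) (n1 := ndF2q1) (n2 := ndF7q3) (pc := pcF3) (cut := Cut.none) (xt := Ext.none) (P1 := 536870912) (W1 := 536870912) (P2 := 0) (W2 := 1230186008) (P3 := 1046898278) (W3 := 26843546)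
    rfl k0_pp_133

noncomputable def f_pp_202_a : ℕ → ℕ → ℕ → ℕ → Bool := onCell 0 420477299 0 536870912 1046898278 26843546
    (rowFX 0 true true true .pp 2 0 2 (qsf 0 420477299 0 536870912 2) ndF2q2a ndF7q0 pcF2 Cut.none Ext.none)

def k0_pp_202_a : ∃ t, chk3 f_pp_202_a t 1 1 1 = true :=
  ⟨(l 4), by decide +kernel⟩

theorem c_pp_202_a : CertFX 0 420477299 0 536870912 1046898278 26843546 true true true .pp 2 0 2
    ndF2q2a ndF7q0 pcF2 Cut.none Ext.none :=
  certFX0 (fam := true) (s1 := true) (s2 := true) (a := 2) (b := 0) (c := 2) (cn := .pp) (n1 := ndF2q2a) (n2 := ndF7q0) (pc := pcF2) (cut := Cut.none) (xt := Ext.none) (P1 := 0) (W1 := 420477299) (P2 := 0) (W2 := 536870912) (P3 := 1046898278) (W3 := 26843546)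
    rfl k0_pp_202_a

noncomputable def f_pp_202_b : ℕ → ℕ → ℕ → ℕ → Bool := onCell 1239849684 370763052 0 536870912 1046898278 26843546
    (rowFX 0 true true true .pp 2 0 2 (qsf 1239849684 370763052 0 536870912 2) ndF2q2b ndF7q0 pcF2 Cut.none Ext.none)

def k0_pp_202_b : ∃ t, chk3 f_pp_202_b t 1 1 1 = true :=
  ⟨(l 4), by decide +kernel⟩

theorem c_pp_202_b : CertFX 1239849684 370763052 0 536870912 1046898278 26843546 true true true .pp 2 0 2
    ndF2q2b ndF7q0 pcF2 Cut.none Ext.none :=
  certFX0 (fam := true) (s1 := true) (s2 := true) (a := 2) (b := 0) (c := 2) (cn := .pp) (n1 := ndF2q2b) (n2 := ndF7q0) (pc := pcF2) (cut := Cut.none) (xt := Ext.none) (P1 := 1239849684) (W1 := 370763052) (P2 := 0) (W2 := 536870912) (P3 := 1046898278) (W3 := 26843546)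
    rfl k0_pp_202_b

noncomputable def f_pp_203_a : ℕ → ℕ → ℕ → ℕ → Bool := onCell 0 420477299 0 536870912 1046898278 26843546
    (rowFX 0 true true true .up 2 0 3 (qsf 0 420477299 0 536870912 3) ndF2q2a ndF7q0 pcF3 Cut.none Ext.none)

def k0_pp_203_a : ∃ t, chk3 f_pp_203_a t 1 1 1 = true :=
  ⟨(l 4), by decide +kernel⟩

theorem c_pp_203_a : CertFX 0 420477299 0 536870912 1046898278 26843546 true true true .up 2 0 3
    ndF2q2a ndF7q0 pcF3 Cut.none Ext.none :=
  certFX0 (fam := true) (s1 := true) (s2 := true) (a := 2) (b := 0) (c := 3) (cn := .up) (n1 := ndF2q2a) (n2 := ndF7q0) (pc := pcF3) (cut := Cut.none) (xt := Ext.none) (P1 := 0) (W1 := 420477299) (P2 := 0) (W2 := 536870912) (P3 := 1046898278) (W3 := 26843546)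
    rfl k0_pp_203_a

noncomputable def f_pp_203_b : ℕ → ℕ → ℕ → ℕ → Bool := onCell 1239849684 370763052 0 536870912 1046898278 26843546
    (rowFX 0 true true true .up 2 0 3 (qsf 1239849684 370763052 0 536870912 3) ndF2q2b ndF7q0 pcF3 Cut.none Ext.none)

def k0_pp_203_b : ∃ t, chk3 f_pp_203_b t 1 1 1 = true :=
  ⟨(l 4), by decide +kernel⟩

theorem c_pp_203_b : CertFX 1239849684 370763052 0 536870912 1046898278 26843546 true true true .up 2 0 3
    ndF2q2b ndF7q0 pcF3 Cut.none Ext.none :=
  certFX0 (fam := true) (s1 := true) (s2 := true) (a := 2) (b := 0) (c := 3) (cn := .up) (n1 := ndF2q2b) (n2 := ndF7q0) (pc := pcF3) (cut := Cut.none) (xt := Ext.none) (P1 := 1239849684) (W1 := 370763052) (P2 := 0) (W2 := 536870912) (P3 := 1046898278) (W3 := 26843546)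
    rfl k0_pp_203_b

noncomputable def f_pp_213_a : ℕ → ℕ → ℕ → ℕ → Bool := onCell 0 420477299 536870912 536870912 1046898278 26843546
    (rowFX 0 true true true .pnn 2 1 3 (qsf 0 420477299 536870912 536870912 3) ndF2q2a ndF7q1 pcF3 Cut.none Ext.none)

def k0_pp_213_a : ∃ t, chk3 f_pp_213_a t 1 1 1 = true :=
  ⟨(l 4), by decide +kernel⟩

theorem c_pp_213_a : CertFX 0 420477299 536870912 536870912 1046898278 26843546 true true true .pnn 2 1 3
    ndF2q2a ndF7q1 pcF3 Cut.none Ext.none :=
  certFX0 (fam := true) (s1 := true) (s2 := true) (a := 2) (b := 1) (c := 3) (cn := .pnn) (n1 := ndF2q2a) (n2 := ndF7q1) (pc := pcF3) (cut := Cut.none) (xt := Ext.none) (P1 := 0) (W1 := 420477299) (P2 := 536870912) (W2 := 536870912) (P3 := 1046898278) (W3 := 26843546)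
    rfl k0_pp_213_a

noncomputable def f_pp_213_b : ℕ → ℕ → ℕ → ℕ → Bool := onCell 1239849684 370763052 536870912 536870912 1046898278 26843546
    (rowFX 0 true true true .pnn 2 1 3 (qsf 1239849684 370763052 536870912 536870912 3) ndF2q2b ndF7q1 pcF3 Cut.none Ext.none)

def k0_pp_213_b : ∃ t, chk3 f_pp_213_b t 1 1 1 = true :=
  ⟨(l 4), by decide +kernel⟩

theorem c_pp_213_b : CertFX 1239849684 370763052 536870912 536870912 1046898278 26843546 true true true .pnn 2 1 3
    ndF2q2b ndF7q1 pcF3 Cut.none Ext.none :=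
  certFX0 (fam := true) (s1 := true) (s2 := true) (a := 2) (b := 1) (c := 3) (cn := .pnn) (n1 := ndF2q2b) (n2 := ndF7q1) (pc := pcF3) (cut := Cut.none) (xt := Ext.none) (P1 := 1239849684) (W1 := 370763052) (P2 := 536870912) (W2 := 536870912) (P3 := 1046898278) (W3 := 26843546)
    rfl k0_pp_213_b

noncomputable def f_pp_303 : ℕ → ℕ → ℕ → ℕ → Bool := onCell 1610612736 469762048 0 536870912 1046898278 26843546
    (rowFX 0 true true true .npn 3 0 3 (qsf 1610612736 469762048 0 536870912 3) ndF2q3 ndF7q0 pcF3 Cut.none Ext.none)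

def k0_pp_303 : ∃ t, chk3 f_pp_303 t 1 1 1 = true :=
  ⟨(l 4), by decide +kernel⟩

theorem c_pp_303 : CertFX 1610612736 469762048 0 536870912 1046898278 26843546 true true true .npn 3 0 3
    ndF2q3 ndF7q0 pcF3 Cut.none Ext.none :=
  certFX0 (fam := true) (s1 := true) (s2 := true) (a := 3) (b := 0) (c := 3) (cn := .npn) (n1 := ndF2q3) (n2 := ndF7q0) (pc := pcF3) (cut := Cut.none) (xt := Ext.none) (P1 := 1610612736) (W1 := 469762048) (P2 := 0) (W2 := 536870912) (P3 := 1046898278) (W3 := 26843546)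
    rfl k0_pp_303

noncomputable def f_pp_313 : ℕ → ℕ → ℕ → ℕ → Bool := onCell 1610612736 469762048 536870912 536870912 1046898278 26843546
    (rowFX 0 true true true .dn 3 1 3 (qsf 1610612736 469762048 536870912 536870912 3) ndF2q3 ndF7q1 pcF3 Cut.none Ext.none)

def k0_pp_313 : ∃ t, chk3 f_pp_313 t 1 1 1 = true :=
  ⟨(l 4), by decide +kernel⟩

theorem c_pp_313 : CertFX 1610612736 469762048 536870912 536870912 1046898278 26843546 true true true .dn 3 1 3
    ndF2q3 ndF7q1 pcF3 Cut.none Ext.none :=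
  certFX0 (fam := true) (s1 := true) (s2 := true) (a := 3) (b := 1) (c := 3) (cn := .dn) (n1 := ndF2q3) (n2 := ndF7q1) (pc := pcF3) (cut := Cut.none) (xt := Ext.none) (P1 := 1610612736) (W1 := 469762048) (P2 := 536870912) (W2 := 536870912) (P3 := 1046898278) (W3 := 26843546)
    rfl k0_pp_313

noncomputable def f_pm_001 : ℕ → ℕ → ℕ → ℕ → Bool := onCell 67108864 469762048 0 536870912 1046898278 26843546
    (rowFX 0 true true false .up 0 0 1 (qsf 67108864 469762048 0 536870912 1) ndF2q0 ndF7q0 pcF1 Cut.none Ext.none)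

def k0_pm_001 : ∃ t, chk3 f_pm_001 t 1 1 1 = true :=
  ⟨(b (l 3) (a (l 3) (l 3))), by decide +kernel⟩

theorem c_pm_001 : CertFX 67108864 469762048 0 536870912 1046898278 26843546 true true false .up 0 0 1
    ndF2q0 ndF7q0 pcF1 Cut.none Ext.none :=
  certFX0 (fam := true) (s1 := true) (s2 := false) (a := 0) (b := 0) (c := 1) (cn := .up) (n1 := ndF2q0) (n2 := ndF7q0) (pc := pcF1) (cut := Cut.none) (xt := Ext.none) (P1 := 67108864) (W1 := 469762048) (P2 := 0) (W2 := 536870912) (P3 := 1046898278) (W3 := 26843546)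
    rfl k0_pm_001

noncomputable def f_pm_011 : ℕ → ℕ → ℕ → ℕ → Bool := onCell 67108864 469762048 536870912 536870912 1046898278 26843546
    (rowFX 1 true true false .pnn 0 1 1 (qsf 67108864 469762048 536870912 536870912 1) ndF2q0 ndF7q1 pcF1 Cut.none Ext.none)

def k0_pm_011 : ∃ t, chk3 f_pm_011 t 1 1 1 = true :=
  ⟨(b (l 3) (b (l 3) (a (l 3) (l 3)))), by decide +kernel⟩

theorem c_pm_011 : CertFX 67108864 469762048 536870912 536870912 1046898278 26843546 true true false .pnn 0 1 1
    ndF2q0 ndF7q1 pcF1 Cut.none Ext.none :=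
  certFX1 (fam := true) (s1 := true) (s2 := false) (a := 0) (b := 1) (c := 1) (cn := .pnn) (n1 := ndF2q0) (n2 := ndF7q1) (pc := pcF1) (cut := Cut.none) (xt := Ext.none) (P1 := 67108864) (W1 := 469762048) (P2 := 536870912) (W2 := 536870912) (P3 := 1046898278) (W3 := 26843546)
    rfl (fun _ => rfl) k0_pm_011

noncomputable def f_pm_012 : ℕ → ℕ → ℕ → ℕ → Bool := onCell 1073741824 536870912 536870912 536870912 1046898278 26843546
    (rowFX 2 true true false .pnp 0 1 2 (qsf 67108864 469762048 536870912 536870912 2) ndF2q0 ndF7q1 pcF2 Cut.none Ext.none)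

def k0_pm_012 : ∃ t, chk3 f_pm_012 t 4 2 1 = true :=
  ⟨(b (a (a (a (l 3) (c (c (l 15823640) (l 15958040)) (l 15939936))) (a (c (b (l 16003448) (l 16105360)) (b (l 16012400) (l 16082800))) (c (a (l 16154680) (l 16197072)) (a (l 16133352) (l 16180632))))) (a (a (c (l 16066824) (l 16157592)) (l 16225624)) (a (l 16214664) (l 16179944)))) (a (a (a (l 3) (a (l 3) (c (b (l 16131904) (l 16488056)) (l 16085032)))) (a (c (b (a (l 16195800) (l 16260640)) (a (l 16535736) (l 16500680))) (b (l 16077704) (l 16378296))) (b (c (l 16324232) (l 16311024)) (c (l 16468304) (l 16465720))))) (a (a (b (c (l 16377936) (l 16369560)) (l 16263776)) (b (c (l 16405912) (l 16398304)) (l 16202888))) (b (a (l 16402488) (l 16395536)) (a (l 16400400) (l 16389064)))))), by decide +kernel⟩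

def k1_pm_012 : ∃ t, chk3 f_pm_012 t 8 6 1 = true :=
  ⟨(a (a (l 3) (a (l 3) (b (l 3) (c (c (b (l 3) (l 16007792)) (l 16015904)) (l 16005208))))) (a (b (c (a (l 16164952) (l 16123888)) (a (l 16154072) (l 16111808))) (c (b (a (l 15932760) (l 15842160)) (a (l 15885760) (l 15774072))) (a (b (l 15915448) (l 15867368)) (b (l 15822496) (l 15753048))))) (b (c (l 16077056) (l 16062608)) (c (b (a (l 15771688) (l 15720816)) (l 15622144)) (b (l 15727680) (l 15595728)))))), by decide +kernel⟩

def k2_pm_012 : ∃ t, chk3 f_pm_012 t 8 14 1 = true :=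
  ⟨(a (a (l 3) (c (b (a (l 3) (c (b (l 15967288) (l 15954728)) (l 15949744))) (a (a (l 3) (a (l 3) (b (l 3) (c (l 16029104) (l 16045712))))) (c (b (a (l 15969576) (l 15906808)) (a (l 15968168) (l 15894440))) (b (l 15950888) (l 15961352))))) (b (l 637431622423) (a (l 606830188439) (l 15953976))))) (a (c (b (a (b (l 15848152) (l 15839360)) (b (l 15732136) (l 15726672))) (a (c (b (l 15825000) (l 15677120)) (a (l 15868864) (l 15808632))) (c (l 15698496) (l 15722888)))) (a (b (l 15826328) (a (l 15864800) (l 15802552))) (b (l 15706400) (l 15714168)))) (c (b (a (l 15616752) (l 15516032)) (c (a (l 15592200) (l 15493928)) (l 15561016))) (b (l 15541600) (l 15548216))))), by decide +kernel⟩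

def k3_pm_012 : ∃ t, chk3 f_pm_012 t 8 15 1 = true :=
  ⟨(b (a (a (b (l 3) (b (l 3) (l 1))) (c (a (c (b (a (l 16179224) (l 16092720)) (a (l 382284274791) (b (l 16137224) (l 16112424)))) (b (c (a (l 16210488) (l 16122832)) (a (l 16230256) (l 16146304))) (a (c (l 16244144) (l 16200360)) (c (l 16141256) (l 16186760))))) (c (b (a (l 16007168) (l 15926864)) (c (a (l 193842223559) (l 15986232)) (a (l 16069528) (l 15997200)))) (b (l 16018096) (l 207800798423)))) (a (b (l 16073800) (c (b (l 16244496) (l 16165696)) (l 582000309319))) (b (l 16044312) (c (b (l 16098808) (l 16127112)) (l 16115992)))))) (a (c (b (a (c (l 15817240) (a (l 15910472) (l 15834744))) (c (l 15673984) (l 15727184))) (c (a (l 15882208) (l 15729360)) (a (l 15925304) (l 15767632)))) (a (b (a (l 15934088) (l 15855832)) (c (l 15965848) (l 15970592))) (b (l 15744736) (l 15804424)))) (c (c (a (b (l 15549056) (l 15582392)) (l 15412360)) (b (l 15542720) (l 15421912))) (b (l 15450760) (a (l 15646720) (l 15506632)))))) (b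 (a (a (l 1) (a (l 1) (c (c (l 613138404007) (l 16045968)) (c (l 679173657607) (l 16182424))))) (a (c (a (c (l 15834136) (l 15988216)) (c (l 15830504) (l 15838280))) (c (a (l 576094128039) (l 15716208)) (a (l 16038096) (l 15880272)))) (c (a (c (l 15680784) (l 15685000)) (l 15537560)) (c (a (l 15706312) (l 15553080)) (a (l 15721656) (l 15566528)))))) (a (l 1) (a (a (l 1) (a (l 1) (c (l 655014029991) (c (l 15892936) (l 780641784503))))) (c (a (c (l 15756944) (l 15786904)) (c (l 15655624) (l 15641752))) (c (l 559450396487) (a (b (l 15774736) (l 15802416)) (b (l 15623776) (l 15655016))))))))), by decide +kernel⟩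

def k4_pm_012 : ∃ t, chk3 f_pm_012 t 9 3 1 = true :=
  ⟨(b (a (a (b (c (l 16030008) (l 16012616)) (c (b (l 15671624) (l 15456312)) (b (l 15644440) (l 15423488)))) (b (c (l 16005816) (l 15987768)) (c (l 15332624) (l 15468672)))) (a (b (a (l 15960256) (l 15967528)) (a (c (l 15470848) (l 15438368)) (l 15432608))) (b (l 15953656) (l 15409472)))) (a (b (a (c (b (l 15371832) (c (l 15350424) (l 15362856))) (b (l 15340496) (l 15346208))) (c (b (l 15205696) (l 14972280)) (l 15170584))) (a (c (a (b (c (l 15346144) (l 15374968)) (b (l 15398560) (l 15507424))) (b (c (l 15252120) (l 15279744)) (l 15327536))) (b (c (l 15347424) (l 15336680)) (b (c (l 15202864) (l 15360584)) (c (l 15422136) (a (l 15433224) (l 15357456)))))) (c (b (c (l 15132248) (l 15158352)) (b (l 15134096) (l 15196408))) (b (l 15019536) (b (c (l 15140816) (l 15149152)) (c (l 15171128) (a (l 15229472) (l 15112376)))))))) (b (a (c (b (a (l 15100520) (l 15029320)) (a (l 15065504) (l 14972400))) (a (l 15057104) (l 14973752)))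 (b (l 14946216) (c (l 14845528) (l 14825160)))) (a (c (b (a (c (l 15013288) (l 15037856)) (l 14938136)) (a (l 15028512) (l 14931064))) (b (a (l 15043528) (l 14947624)) (a (b (l 15031480) (l 15022784)) (l 14823928)))) (c (b (l 14804656) (l 14798240)) (b (l 14810512) (b (l 14800152) (l 14781728)))))))), by decide +kernel⟩

def k5_pm_012 : ∃ t, chk3 f_pm_012 t 5 1 1 = true :=
  ⟨(b (a (a (b (a (l 16109624) (l 2)) (a (b (l 16339480) (l 16396760)) (a (l 16355584) (a (l 16369072) (b (l 16214632) (l 16429720)))))) (b (l 2) (b (l 16369624) (l 16377944)))) (b (l 2) (b (l 16652832) (l 16267184)))) (a (b (a (a (b (l 15962760) (l 15416272)) (a (b (l 15988592) (l 15448816)) (b (a (l 16009984) (l 15959072)) (a (l 15478704) (a (l 15495840) (l 15506192)))))) (b (l 15956640) (l 15422968))) (a (a (b (b (l 14926816) (c (l 14743264) (l 14720144))) (c (b (l 14676920) (l 14671216)) (b (l 14679360) (c (l 14655512) (l 14659840))))) (b (a (c (l 14702376) (l 14822376)) (a (c (l 14896576) (l 14849800))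 (c (a (l 14917232) (l 14931040)) (a (l 14871216) (l 14885536))))) (a (c (b (l 14623152) (l 14618528)) (b (l 14624296) (l 14608240))) (a (c (b (l 14619312) (l 14615552)) (b (l 14620528) (l 14605368))) (c (b (a (l 14625096) (l 14628032)) (l 14621856)) (b (a (l 14626600) (l 14629704)) (a (l 14612384) (l 14448392)))))))) (b (c (l 14833904) (l 14785328)) (b (c (l 14384400) (l 14443520)) (c (l 14375560) (c (l 14353808) (l 14354104))))))) (b (b (l 15766280) (a (l 15278016) (l 15212672))) (b (c (a (l 14668112) (l 14595832)) (l 14322832)) (a (b (c (l 14202128) (l 14190544)) (c (l 13996016) (b (l 13999424) (l 13912440)))) (c (l 13999056) (b (l 14110448) (l 13819888)))))))), by decide +kernel⟩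

def k6_pm_012 : ∃ t, chk3 f_pm_012 t 3 1 1 = true :=
  ⟨(b (a (b (l 2) (b (l 2) (l 16248360))) (l 2)) (b (a (b (l 15782128) (l 15212584)) (b (l 2) (l 15212584))) (b (a (c (l 14553792) (l 14539088)) (l 14362248)) (a (c (b (l 14124568) (l 13853368)) (b (l 14110352) (a (l 13819696) (l 13819696)))) (c (l 13998896) (b (l 14110352) (l 13819696))))))), by decide +kernel⟩

theorem s7_pm_012 : ∃ t, chk3 f_pm_012 t 8 7 1 = true := ex3_b k2_pm_012 k3_pm_012

theorem s8_pm_012 : ∃ t, chk3 f_pm_012 t 8 3 1 = true := ex3_b k1_pm_012 s7_pm_012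

theorem s9_pm_012 : ∃ t, chk3 f_pm_012 t 4 3 1 = true := ex3_a s8_pm_012 k4_pm_012

theorem s10_pm_012 : ∃ t, chk3 f_pm_012 t 4 1 1 = true := ex3_b k0_pm_012 s9_pm_012

theorem s11_pm_012 : ∃ t, chk3 f_pm_012 t 2 1 1 = true := ex3_a s10_pm_012 k5_pm_012

theorem s12_pm_012 : ∃ t, chk3 f_pm_012 t 1 1 1 = true := ex3_a s11_pm_012 k6_pm_012

theorem c_pm_012 : CertFX 67108864 469762048 536870912 536870912 1046898278 26843546 true true false .pnp 0 1 2
    ndF2q0 ndF7q1 pcF2 Cut.none Ext.none :=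
  certFX2 (fam := true) (s1 := true) (s2 := false) (a := 0) (b := 1) (c := 2) (cn := .pnp) (n1 := ndF2q0) (n2 := ndF7q1) (pc := pcF2) (cut := Cut.none) (xt := Ext.none) (P1 := 67108864) (W1 := 469762048) (P2 := 536870912) (W2 := 536870912) (P3 := 1046898278) (W3 := 26843546)
    rfl (fun _ => rfl) s12_pm_012

noncomputable def f_pm_022 : ℕ → ℕ → ℕ → ℕ → Bool := onCell 67108864 469762048 1073741824 536870912 1046898278 26843546
    (rowFX 1 true true false .pp 0 2 2 (qsf 67108864 469762048 1073741824 536870912 2) ndF2q0 ndF7q2 pcF2 Cut.none Ext.none)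

def k0_pm_022 : ∃ t, chk3 f_pm_022 t 4 4 1 = true :=
  ⟨(b (b (l 1) (b (l 1) (b (l 1) (a (a (a (c (l 15519648) (l 15492304)) (l 1)) (l 1)) (l 1))))) (b (a (b (a (c (b (l 15393784) (l 15400560)) (a (c (l 15501552) (b (l 15485728) (l 15400352))) (b (l 1) (l 15242168)))) (l 1)) (c (a (b (l 15410464) (l 15324800)) (l 310877663943)) (a (c (a (b (l 15521680) (l 15558232)) (l 15274416)) (a (b (l 15450112) (l 15570072)) (b (l 15255744) (l 15286960)))) (b (l 1) (l 14922664))))) (l 1)) (a (b (a (c (a (b (l 15581200) (l 15606120)) (l 15336784)) (a (c (b (l 15609168) (l 15637592)) (l 15624576)) (c (l 15337664) (l 15310264)))) (c (l 14991304) (c (l 14964952) (a (l 15066616) (l 14837864))))) (c (a (c (l 15404296) (a (l 15670888) (l 15386368))) (l 15024072)) (a (a (l 15687104) (l 15368056)) (a (a (l 15206712) (l 15064832)) (l 14795416))))) (b (l 1) (c (l 14443272) (a (l 14592232) (l 1))))))), by decide +kernel⟩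

def k1_pm_022 : ∃ t, chk3 f_pm_022 t 4 5 1 = true :=
  ⟨(b (b (b (a (c (a (c (a (l 15761160) (l 15484384)) (a (l 15793488) (l 15515912))) (a (l 15234808) (l 15008392))) (a (a (l 15797768) (l 15525216)) (a (l 15251640) (c (l 15008888) (l 15019592))))) (c (l 14535376) (a (c (l 14697672) (l 14648736)) (l 1)))) (a (b (a (c (a (l 15905456) (l 15637464)) (l 15788592)) (c (l 15041720) (l 15225560))) (a (b (c (a (l 15990864) (l 15728600)) (l 15871608)) (c (b (a (l 16037096) (l 15780000)) (c (l 15705104) (l 15960384))) (b (l 15919264) (l 15949936)))) (c (b (a (l 15455184) (l 15223728)) (b (a (l 15510632) (l 15281520)) (a (l 15546720) (l 15321152)))) (b (l 15363392) (b (l 15416208) (l 15449728)))))) (b (c (l 14649904) (a (l 14618520) (l 14402024))) (c (b (l 14733736) (b (l 14784368) (l 14817880))) (b (a (l 14816872) (l 14489624)) (a (b (l 14978352) (c (l 15007720) (l 15016984))) (b (l 14542672) (l 14577800)))))))) (a (a (c (b (a (l 16049840) (l 15812384)) (l 15720600)) (l 15869000))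 (c (a (l 15349952) (l 15334248)) (l 15334496))) (c (a (c (l 15013680) (l 14880880)) (l 14612968)) (a (c (l 14896232) (l 15032320)) (b (l 14338568) (c (l 14596016) (l 14599456))))))) (a (b (a (c (l 15735888) (l 15869352)) (c (a (l 15602856) (l 15383336)) (l 15483928))) (a (c (l 15969584) (l 15962232)) (c (l 15715024) (l 15692008)))) (b (c (a (c (l 15086448) (l 15100024)) (c (l 14657464) (l 14669424))) (a (l 15086472) (c (l 14679200) (l 14652960)))) (c (a (c (l 15313168) (l 15291792)) (l 14709160)) (a (l 15265680) (l 14853440)))))), by decide +kernel⟩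

def k2_pm_022 : ∃ t, chk3 f_pm_022 t 4 3 1 = true :=
  ⟨(b (a (b (a (c (b (l 16240328) (l 16162160)) (b (l 16282896) (l 16195096))) (b (c (l 16005392) (l 15990832)) (c (l 16248432) (l 16241512)))) (a (c (b (l 15997520) (l 15809752)) (b (l 15981152) (l 15786288))) (c (l 16184472) (l 16201072)))) (b (b (a (l 15588416) (c (l 15076112) (l 15140928))) (a (l 15891664) (l 15483976))) (a (b (l 16146296) (l 16367632)) (b (l 15795232) (l 16058320))))) (a (b (c (a (b (l 15654080) (l 15586544)) (l 15922344)) (a (l 15513128) (l 15946440))) (c (l 15499944) (l 15697568))) (b (a (b (l 16389448) (l 16236824)) (l 16381016)) (b (a (l 16124640) (l 16409000)) (l 16062616))))), by decide +kernel⟩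

def k3_pm_022 : ∃ t, chk3 f_pm_022 t 5 1 1 = true :=
  ⟨(b (b (l 1) (b (b (l 1) (a (a (c (l 14202872) (c (l 14156648) (l 14137272))) (l 1)) (l 1))) (a (b (c (a (l 14232128) (l 13819904)) (a (c (l 14210616) (l 14037080)) (c (l 13768024) (l 13744008)))) (c (a (c (l 14424096) (l 14435248)) (l 13993072)) (a (l 14277416) (c (l 13969512) (l 13855816))))) (b (l 1) (c (l 13604864) (a (l 13565216) (l 1))))))) (b (a (b (c (a (b (l 14737936) (l 15041200)) (b (l 14192064) (l 14616536))) (a (l 14869024) (b (l 14279464) (l 14577680)))) (c (a (l 15555496) (b (l 14935984) (l 15310176))) (a (l 15525632) (l 15093912)))) (b (c (b (l 13869200) (a (l 14289544) (l 14010288))) (b (a (l 13743632) (l 13684664)) (a (l 14264392) (l 13994064)))) (c (b (l 14283000) (l 14837128)) (b (l 14459312) (l 14769672))))) (b (a (a (l 15953704) (b (l 15621688) (l 15906440))) (b (l 15139504) (l 15485360))) (a (c (l 16306816) (l 16173624)) (b (l 15791832) (l 16064320)))))), by decide +kernel⟩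

def k4_pm_022 : ∃ t, chk3 f_pm_022 t 3 1 1 = true :=
  ⟨(b (l 1) (b (a (b (a (c (l 13548528) (b (l 13338168) (a (l 13720992) (l 13478560)))) (l 1)) (a (c (b (l 13939232) (l 14177536)) (b (a (l 14035040) (l 13758016)) (l 14105144))) (c (l 13614976) (b (l 13405240) (l 13684808))))) (l 1)) (a (b (a (c (b (l 14571864) (l 14931232)) (b (l 14549536) (l 14856136))) (c (b (l 14011216) (l 14321120)) (b (l 13927800) (l 14308944)))) (a (b (l 15224640) (l 15565592)) (c (b (l 14661440) (l 15026400)) (l 14768768)))) (b (a (c (l 13683744) (b (l 13473208) (l 13758632))) (l 1)) (a (c (b (l 14085368) (l 14404680)) (b (l 14070744) (l 14381072))) (c (l 13751504) (l 13475424))))))), by decide +kernel⟩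

theorem s5_pm_022 : ∃ t, chk3 f_pm_022 t 4 2 1 = true := ex3_b k0_pm_022 k1_pm_022

theorem s6_pm_022 : ∃ t, chk3 f_pm_022 t 4 1 1 = true := ex3_b s5_pm_022 k2_pm_022

theorem s7_pm_022 : ∃ t, chk3 f_pm_022 t 2 1 1 = true := ex3_a s6_pm_022 k3_pm_022

theorem s8_pm_022 : ∃ t, chk3 f_pm_022 t 1 1 1 = true := ex3_a s7_pm_022 k4_pm_022

theorem c_pm_022 : CertFX 67108864 469762048 1073741824 536870912 1046898278 26843546 true true false .pp 0 2 2
    ndF2q0 ndF7q2 pcF2 Cut.none Ext.none :=
  certFX1 (fam := true) (s1 := true) (s2 := false) (a := 0) (b := 2) (c := 2) (cn := .pp) (n1 := ndF2q0) (n2 := ndF7q2) (pc := pcF2) (cut := Cut.none) (xt := Ext.none) (P1 := 67108864) (W1 := 469762048) (P2 := 1073741824) (W2 := 536870912) (P3 := 1046898278) (W3 := 26843546)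
    rfl (fun _ => rfl) s8_pm_022

noncomputable def f_pm_023 : ℕ → ℕ → ℕ → ℕ → Bool := onCell 67108864 469762048 1073741824 536870912 1046898278 26843546
    (rowFX 0 true true false .up 0 2 3 (qsf 67108864 469762048 1073741824 536870912 3) ndF2q0 ndF7q2 pcF3 Cut.none Ext.none)

def k0_pm_023 : ∃ t, chk3 f_pm_023 t 1 1 1 = true :=
  ⟨(b (a (b (l 1) (a (l 1) (b (l 1) (a (l 1) (l 15964160))))) (c (b (b (l 365636650935) (a (l 14691592) (l 14691592))) (b (l 353828192071) (l 15869728))) (b (b (a (l 1) (l 14018360)) (l 273832926599)) (b (l 278666191927) (l 15848880))))) (a (a (b (b (l 1) (a (l 1) (l 16155128))) (a (c (l 546565544855) (l 502542063863)) (b (l 16191784) (l 16191784)))) (b (b (a (l 16468456) (l 16464376)) (a (l 16620544) (l 16767528))) (b (l 16636136) (l 16699048)))) (b (b (a (l 16464376) (l 16464368)) (l 16767512)) (a (l 16777216) (b (l 16855232) (a (b (l 16776888) (l 16764216)) (b (l 16772800) (a (l 16762888) (b (l 16760792) (a (l 16767208) (b (l 16767000) (a (l 16753272)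 (a (l 16752184) (b (l 16748272) (c (l 16741712) (l 16740152)))))))))))))))), by decide +kernel⟩

theorem c_pm_023 : CertFX 67108864 469762048 1073741824 536870912 1046898278 26843546 true true false .up 0 2 3
    ndF2q0 ndF7q2 pcF3 Cut.none Ext.none :=
  certFX0 (fam := true) (s1 := true) (s2 := false) (a := 0) (b := 2) (c := 3) (cn := .up) (n1 := ndF2q0) (n2 := ndF7q2) (pc := pcF3) (cut := Cut.none) (xt := Ext.none) (P1 := 67108864) (W1 := 469762048) (P2 := 1073741824) (W2 := 536870912) (P3 := 1046898278) (W3 := 26843546)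
    rfl k0_pm_023

noncomputable def f_pm_033 : ℕ → ℕ → ℕ → ℕ → Bool := onCell 1610612736 536870912 0 1230186008 1046898278 26843546
    (rowFX 2 true true false .pnn 0 3 3 (qsf 67108864 469762048 0 1230186008 3) ndF2q0 ndF7q3 pcF3 Cut.none Ext.none)

def k0_pm_033 : ∃ t, chk3 f_pm_033 t 1 2 1 = true :=
  ⟨(b (l 1) (a (l 1) (a (l 1) (a (l 1) (a (l 4) (l 4)))))), by decide +kernel⟩

def k1_pm_033 : ∃ t, chk3 f_pm_033 t 1 6 1 = true :=
  ⟨(a (l 1) (a (b (l 1) (a (b (l 1) (a (l 1) (b (l 1) (l 781177166919)))) (b (a (b (l 1) (l 929353255799)) (c (l 15370936) (l 15324928))) (c (b (l 15541560) (l 15768976)) (a (l 15452224) (l 15787080)))))) (a (b (a (b (l 1) (c (l 912173766679) (l 798894090391))) (c (b (a (l 15173544) (l 15359440)) (a (l 15566024) (l 15741024))) (b (a (l 15147968) (l 15328968)) (a (l 15531032) (l 15711128))))) (a (b (c (l 15713192) (l 15682120)) (l 16067608)) (b (a (l 15933616) (l 16054832)) (b (l 16229768) (l 16403296))))) (a (b (b (a (c (l 654140678007) (l 15506440))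 (l 4)) (a (c (l 15899128) (l 15875000)) (l 4))) (a (b (l 16180376) (l 16377448)) (b (c (l 16307784) (l 16286488)) (c (l 16623440) (l 16611880))))) (a (b (l 4) (b (l 4) (l 16452392))) (l 4)))))), by decide +kernel⟩

def k2_pm_033 : ∃ t, chk3 f_pm_033 t 1 7 1 = true :=
  ⟨(b (a (a (l 1) (a (l 1) (b (b (l 1) (a (l 1) (l 841306401959))) (b (a (l 1) (l 15388912)) (c (l 15539880) (l 15517560)))))) (a (b (a (c (a (l 15134120) (l 15664584)) (b (l 15147648) (l 15600288))) (c (l 16090256) (l 16072376))) (a (c (l 15999912) (l 15979656)) (b (l 16397960) (l 16589696)))) (a (b (a (l 16397000) (l 16633728)) (a (l 16732040) (l 16744360))) (a (a (b (l 16730872) (l 16740960)) (c (l 16759120) (l 16751040))) (a (c (l 16741320) (l 16729032)) (a (l 1592056921031) (l 4))))))) (a (a (b (l 1) (a (b (l 1) (a (l 1) (l 790840445863))) (b (a (l 1) (l 15344144)) (a (l 15379760) (l 15724120))))) (b (a (b (a (l 1) (l 15327752)) (c (l 15516184) (l 15495264))) (b (l 15586608) (l 16083096))) (a (b (l 15662848)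 (l 16143736)) (l 16454928)))) (a (b (a (l 16381528) (l 16732464)) (l 16748608)) (a (a (l 16776160) (l 16750072)) (a (l 16853320) (a (b (l 16730992) (l 16767872)) (a (l 16721840) (a (l 16723984) (a (l 16732376) (l 2831692474823)))))))))), by decide +kernel⟩

theorem s3_pm_033 : ∃ t, chk3 f_pm_033 t 1 3 1 = true := ex3_b k1_pm_033 k2_pm_033

theorem s4_pm_033 : ∃ t, chk3 f_pm_033 t 1 1 1 = true := ex3_b k0_pm_033 s3_pm_033

theorem c_pm_033 : CertFX 67108864 469762048 0 1230186008 1046898278 26843546 true true false .pnn 0 3 3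
    ndF2q0 ndF7q3 pcF3 Cut.none Ext.none :=
  certFX2 (fam := true) (s1 := true) (s2 := false) (a := 0) (b := 3) (c := 3) (cn := .pnn) (n1 := ndF2q0) (n2 := ndF7q3) (pc := pcF3) (cut := Cut.none) (xt := Ext.none) (P1 := 67108864) (W1 := 469762048) (P2 := 0) (W2 := 1230186008) (P3 := 1046898278) (W3 := 26843546)
    rfl (fun _ => rfl) s4_pm_033

noncomputable def f_pm_101 : ℕ → ℕ → ℕ → ℕ → Bool := onCell 536870912 536870912 0 536870912 1046898278 26843546
    (rowFX 2 true true false .npn 1 0 1 (qsf 536870912 536870912 0 536870912 1) ndF2q1 ndF7q0 pcF1 Cut.none Ext.none)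

def k0_pm_101 : ∃ t, chk3 f_pm_101 t 1 1 1 = true :=
  ⟨(a (l 3) (a (l 3) (a (b (b (b (a (l 3) (c (l 16316888) (l 166059453431))) (l 3)) (l 3)) (l 3)) (b (b (a (b (a (l 15842288) (b (l 15839504) (l 15971480))) (c (l 16120744) (l 149952880711))) (b (c (a (l 15780760) (l 15657776)) (a (l 15768672) (b (l 15569408) (l 15717472)))) (c (a (l 15957064) (l 15906216)) (a (l 15955016) (l 15915136))))) (a (c (l 16112584) (l 15975352)) (c (a (l 15915368) (l 15826880)) (a (l 15904800) (b (l 15819792) (l 15814448)))))) (a (l 3) (b (c (l 259474091815) (l 15649496)) (l 3))))))), by decide +kernel⟩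

theorem c_pm_101 : CertFX 536870912 536870912 0 536870912 1046898278 26843546 true true false .npn 1 0 1
    ndF2q1 ndF7q0 pcF1 Cut.none Ext.none :=
  certFX2 (fam := true) (s1 := true) (s2 := false) (a := 1) (b := 0) (c := 1) (cn := .npn) (n1 := ndF2q1) (n2 := ndF7q0) (pc := pcF1) (cut := Cut.none) (xt := Ext.none) (P1 := 536870912) (W1 := 536870912) (P2 := 0) (W2 := 536870912) (P3 := 1046898278) (W3 := 26843546)
    rfl (fun _ => rfl) k0_pm_101

noncomputable def f_pm_102 : ℕ → ℕ → ℕ → ℕ → Bool := onCell 536870912 536870912 1073741824 536870912 1046898278 26843546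
    (rowFX 1 true true false .npp 1 0 2 (qsf 536870912 536870912 0 536870912 2) ndF2q1 ndF7q0 pcF2 Cut.none Ext.none)

def k0_pm_102 : ∃ t, chk3 f_pm_102 t 1 8 1 = true :=
  ⟨(a (b (c (a (b (c (l 15844352) (l 15832616)) (c (l 15918248) (l 15964080))) (b (a (l 15832288) (c (l 15937728) (l 15941632))) (a (l 15963640) (l 15982728)))) (a (b (c (l 15672624) (l 15638272)) (l 15937584)) (b (c (a (l 228335439863) (l 15887216)) (a (b (l 15778528) (l 15823256)) (l 15848608))) (c (l 15913440) (l 15889552))))) (a (c (b (c (l 16078528) (l 16049368)) (a (l 16161632) (l 16119104))) (b (l 16028472) (l 16031056))) (c (b (l 16015352) (a (l 16070592) (l 16016576))) (b (l 15970664) (l 16046192))))) (b (a (c (b (a (b (l 15954824) (l 15993912)) (c (a (l 16030936) (l 16075424)) (l 16037784))) (a (l 15999016) (l 16003416))) (c (a (b (c (l 15937240) (l 15944344)) (l 15935648)) (l 15991032)) (a (l 15923208) (l 15968240)))) (c (a (b (l 16145072) (l 16076256)) (b (l 15763992) (l 15835560))) (a (c (l 15944584)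 (l 15871160)) (b (c (l 15953328) (l 267392962119)) (l 15590184))))) (a (c (b (c (l 15989080) (l 15956104)) (c (a (l 15986024) (l 15952176)) (l 15952080))) (a (l 15960520) (l 15903360))) (c (a (l 15766968) (b (l 15690632) (l 15551176))) (a (l 15942584) (c (l 15595152) (l 15580696))))))), by decide +kernel⟩

def k1_pm_102 : ∃ t, chk3 f_pm_102 t 1 9 1 = true :=
  ⟨(a (b (a (b (l 16179056) (l 16189320)) (a (c (b (l 16095072) (l 16080536)) (l 15976288)) (b (c (l 16005616) (l 16012192)) (c (l 16011056) (l 16003448))))) (a (b (l 16189088) (l 16170544)) (c (a (a (l 16072680) (l 16008680)) (a (l 15968656) (l 15896448))) (a (l 15766368) (b (l 15964512) (l 15885688)))))) (a (a (b (c (c (l 15923128) (l 15931832)) (l 15943456)) (c (c (l 15784904) (l 15791352)) (c (l 15801776) (l 15758312)))) (c (c (a (b (l 15849840) (l 15677112)) (l 15678792)) (l 15697752)) (b (l 15783328) (l 15589928)))) (a (b (c (l 15775176) (l 15774712)) (c (l 15529360) (l 15520840))) (b (c (l 15333008) (a (l 15427480)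 (l 15164240))) (c (l 15038656) (a (l 15155848) (l 14832464))))))), by decide +kernel⟩

def k2_pm_102 : ∃ t, chk3 f_pm_102 t 1 5 1 = true :=
  ⟨(b (a (b (a (b (l 16126272) (l 2)) (a (b (l 15948640) (b (l 15898240) (b (l 15881784) (l 15940336)))) (b (c (l 15807376) (l 15807472)) (b (c (l 15757776) (l 15755400)) (a (b (l 15641648) (l 15611744)) (l 15577952)))))) (a (l 2) (a (l 16170336) (c (l 16088976) (l 16084808))))) (b (a (c (b (a (l 15643504) (c (l 15540528) (l 15447072))) (b (a (l 15611816) (l 15504632)) (a (l 15668600) (l 15581216)))) (a (b (l 15681432) (c (l 15653528) (l 15614224))) (b (l 15419952) (l 15451960)))) (a (b (c (l 15332992) (l 15318056)) (c (l 15404784) (l 15391160))) (b (c (l 14821520) (l 14774144)) (c (b (l 14851152) (l 15020040)) (b (l 14803784) (l 14975432)))))) (a (c (a (l 16008352) (l 15943320)) (a (l 16022536) (l 15885680))) (a (c (l 15891864) (l 15891512)) (c (l 15232408) (a (l 15556008) (l 15301208))))))) (a (a (l 2) (a (l 16681024) (b (a (l 16548048)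 (l 16540344)) (l 16776864)))) (b (a (c (l 16496536) (l 16284584)) (a (c (l 16420904) (l 16412936)) (c (l 16112488) (a (l 16193440) (l 16036152))))) (a (c (l 16765032) (l 16764728)) (c (l 16571304) (a (l 16666656) (l 16461104))))))), by decide +kernel⟩

def k3_pm_102 : ∃ t, chk3 f_pm_102 t 1 3 1 = true :=
  ⟨(a (b (a (l 2) (c (l 16777216) (l 16777216))) (l 2)) (b (a (c (l 16765408) (l 16765096)) (c (b (l 16571720) (l 16571720)) (a (l 16667016) (l 16461592)))) (a (l 16765256) (a (l 16668408) (l 16465584))))), by decide +kernel⟩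

theorem s4_pm_102 : ∃ t, chk3 f_pm_102 t 1 4 1 = true := ex3_b k0_pm_102 k1_pm_102

theorem s5_pm_102 : ∃ t, chk3 f_pm_102 t 1 2 1 = true := ex3_b s4_pm_102 k2_pm_102

theorem s6_pm_102 : ∃ t, chk3 f_pm_102 t 1 1 1 = true := ex3_b s5_pm_102 k3_pm_102

theorem c_pm_102 : CertFX 536870912 536870912 0 536870912 1046898278 26843546 true true false .npp 1 0 2
    ndF2q1 ndF7q0 pcF2 Cut.none Ext.none :=
  certFX1 (fam := true) (s1 := true) (s2 := false) (a := 1) (b := 0) (c := 2) (cn := .npp) (n1 := ndF2q1) (n2 := ndF7q0) (pc := pcF2) (cut := Cut.none) (xt := Ext.none) (P1 := 536870912) (W1 := 536870912) (P2 := 0) (W2 := 536870912) (P3 := 1046898278) (W3 := 26843546)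
    rfl (fun _ => rfl) s6_pm_102

noncomputable def f_pm_112 : ℕ → ℕ → ℕ → ℕ → Bool := onCell 1073741824 536870912 536870912 536870912 1046898278 26843546
    (rowFX 2 true true false .dn 1 1 2 (qsf 536870912 536870912 536870912 536870912 2) ndF2q1 ndF7q1 pcF2 Cut.none Ext.none)

def k0_pm_112 : ∃ t, chk3 f_pm_112 t 1 1 1 = true :=
  ⟨(b (b (a (a (a (a (a (l 3) (b (c (l 15779200) (l 15941880)) (l 1))) (a (c (b (l 16024424) (l 1)) (l 15925624)) (c (a (l 16154680) (l 16197072)) (l 16093968)))) (a (a (c (l 16129744) (l 16220504)) (l 16225624)) (a (l 16214664) (l 16179944)))) (a (a (a (l 16109624) (a (l 16038920) (a (l 16004216) (l 15835560)))) (l 16217008)) (a (c (l 16573704) (l 16572736)) (c (l 16776920) (l 16776912))))) (a (c (l 16768912) (l 16768696)) (b (l 16648216) (l 16751088)))) (a (a (a (l 1) (a (l 1) (b (l 473015698167) (l 1)))) (a (a (b (a (l 16339480) (a (l 16267672) (a (l 16222776) (l 16214632)))) (l 1)) (l 371010273559)) (b (l 16652832) (l 16267184)))) (a (b (a (l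 16644320) (l 16644320)) (l 16248360)) (b (l 16653704) (l 16249272))))) (a (a (l 1) (a (l 1) (b (b (l 15619480) (l 1)) (l 1)))) (b (a (b (l 15782128) (l 15149664)) (b (l 15782128) (l 15212584))) (b (a (l 537436381591) (l 384428171671)) (a (l 1) (c (l 13998896) (l 415565553239))))))), by decide +kernel⟩

theorem c_pm_112 : CertFX 536870912 536870912 536870912 536870912 1046898278 26843546 true true false .dn 1 1 2
    ndF2q1 ndF7q1 pcF2 Cut.none Ext.none :=
  certFX2 (fam := true) (s1 := true) (s2 := false) (a := 1) (b := 1) (c := 2) (cn := .dn) (n1 := ndF2q1) (n2 := ndF7q1) (pc := pcF2) (cut := Cut.none) (xt := Ext.none) (P1 := 536870912) (W1 := 536870912) (P2 := 536870912) (W2 := 536870912) (P3 := 1046898278) (W3 := 26843546)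
    rfl (fun _ => rfl) k0_pm_112

noncomputable def f_pm_113 : ℕ → ℕ → ℕ → ℕ → Bool := onCell 1610612736 536870912 536870912 536870912 1046898278 26843546
    (rowFX 2 true true false .nn 1 1 3 (qsf 536870912 536870912 536870912 536870912 3) ndF2q1 ndF7q1 pcF3 Cut.none Ext.none)

def k0_pm_113 : ∃ t, chk3 f_pm_113 t 1 1 1 = true :=
  ⟨(b (a (a (b (a (l 16467440) (l 16261160)) (b (l 16518768) (l 16223728))) (b (a (b (l 2) (l 16152096)) (l 2)) (a (l 16157976) (b (l 16027528) (l 15866784))))) (a (b (l 2) (a (b (l 2) (l 15679944)) (l 2))) (l 2))) (b (a (a (b (l 15791352) (l 15213472)) (b (l 15667728) (l 15188816))) (a (a (b (l 15457024) (l 15047216)) (a (l 15241904) (l 15495704))) (a (b (l 2) (a (l 15616720) (l 2))) (l 2)))) (a (a (b (c (l 14595736) (l 14539088)) (c (l 13998896) (l 13985328))) (b (a (l 14552360) (l 14561912)) (c (l 13999736) (l 13986248)))) (a (a (b (l 14513560) (l 14011520)) (b (a (l 14428544) (l 14381528)) (l 13964432))) (a (a (b (l 14439896) (l 13886256)) (b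 (l 14944048) (a (l 13859064) (l 13873336)))) (a (b (a (l 14991912) (l 2)) (c (l 14309992) (l 13839832))) (l 4))))))), by decide +kernel⟩

theorem c_pm_113 : CertFX 536870912 536870912 536870912 536870912 1046898278 26843546 true true false .nn 1 1 3
    ndF2q1 ndF7q1 pcF3 Cut.none Ext.none :=
  certFX2 (fam := true) (s1 := true) (s2 := false) (a := 1) (b := 1) (c := 3) (cn := .nn) (n1 := ndF2q1) (n2 := ndF7q1) (pc := pcF3) (cut := Cut.none) (xt := Ext.none) (P1 := 536870912) (W1 := 536870912) (P2 := 536870912) (W2 := 536870912) (P3 := 1046898278) (W3 := 26843546)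
    rfl (fun _ => rfl) k0_pm_113

noncomputable def f_pm_123 : ℕ → ℕ → ℕ → ℕ → Bool := onCell 1610612736 536870912 1073741824 536870912 1046898278 26843546
    (rowFX 2 true true false .npn 1 2 3 (qsf 536870912 536870912 1073741824 536870912 3) ndF2q1 ndF7q2 pcF3 Cut.none Ext.none)

def k0_pm_123 : ∃ t, chk3 f_pm_123 t 1 1 1 = true :=
  ⟨(a (b (b (a (b (c (l 14031584) (l 13997392)) (l 380670254519)) (b (c (l 14031584) (l 14018360)) (c (l 14691592) (l 14632392)))) (a (b (l 15322128) (l 1)) (b (l 15364072) (l 15964160)))) (b (b (l 469794793255) (l 1)) (l 1))) (a (b (a (b (b (l 14013568) (l 14640592)) (l 15466448)) (b (b (l 14040008) (l 14640800)) (l 15676120))) (b (b (l 16464344) (l 16767504)) (l 16777216))) (a (b (b (a (b (l 14030072) (l 14639560)) (b (a (l 14012768) (l 14007480)) (b (l 14472432) (l 14790312)))) (a (l 15674976) (l 15648424))) (b (a (l 16496768) (l 16347104)) (l 16775872))) (a (b (b (b (a (l 14028320) (c (l 14111464) (l 14032176))) (a (l 14624120) (l 14639352)))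 (a (l 15405656) (c (l 15679264) (l 15638016)))) (b (b (l 16424112) (l 16728880)) (l 16777216))) (b (b (a (b (l 4) (l 14662120)) (l 4)) (a (b (l 15331656) (l 15938872)) (a (l 15563696) (a (l 15669408) (l 4))))) (a (b (b (l 16428000) (l 16758584)) (l 16777216)) (a (b (b (l 16423984) (l 16712600)) (l 16777216)) (b (a (l 16578224) (a (l 16586928) (a (l 16585840) (l 1555549077591)))) (a (l 16777216) (b (l 16777216) (l 16777216))))))))))), by decide +kernel⟩

theorem c_pm_123 : CertFX 536870912 536870912 1073741824 536870912 1046898278 26843546 true true false .npn 1 2 3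
    ndF2q1 ndF7q2 pcF3 Cut.none Ext.none :=
  certFX2 (fam := true) (s1 := true) (s2 := false) (a := 1) (b := 2) (c := 3) (cn := .npn) (n1 := ndF2q1) (n2 := ndF7q2) (pc := pcF3) (cut := Cut.none) (xt := Ext.none) (P1 := 536870912) (W1 := 536870912) (P2 := 1073741824) (W2 := 536870912) (P3 := 1046898278) (W3 := 26843546)
    rfl (fun _ => rfl) k0_pm_123

noncomputable def f_pm_133 : ℕ → ℕ → ℕ → ℕ → Bool := onCell 536870912 536870912 0 1230186008 1046898278 26843546
    (rowFX 0 true true false .dn 1 3 3 (qsf 536870912 536870912 0 1230186008 3) ndF2q1 ndF7q3 pcF3 Cut.none Ext.none)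

def k0_pm_133 : ∃ t, chk3 f_pm_133 t 1 1 1 = true :=
  ⟨(b (l 2) (b (l 2) (a (b (l 2) (a (b (l 2) (a (l 16757648) (l 2))) (l 2))) (l 2)))), by decide +kernel⟩

theorem c_pm_133 : CertFX 536870912 536870912 0 1230186008 1046898278 26843546 true true false .dn 1 3 3
    ndF2q1 ndF7q3 pcF3 Cut.none Ext.none :=
  certFX0 (fam := true) (s1 := true) (s2 := false) (a := 1) (b := 3) (c := 3) (cn := .dn) (n1 := ndF2q1) (n2 := ndF7q3) (pc := pcF3) (cut := Cut.none) (xt := Ext.none) (P1 := 536870912) (W1 := 536870912) (P2 := 0) (W2 := 1230186008) (P3 := 1046898278) (W3 := 26843546)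
    rfl k0_pm_133

noncomputable def f_pm_202_a : ℕ → ℕ → ℕ → ℕ → Bool := onCell 0 420477299 1073741824 536870912 1046898278 26843546
    (rowFX 1 true true false .pp 2 0 2 (qsf 0 420477299 0 536870912 2) ndF2q2a ndF7q0 pcF2 Cut.none Ext.none)

def k0_pm_202_a : ∃ t, chk3 f_pm_202_a t 1 1 1 = true :=
  ⟨(b (b (a (l 1) (b (b (l 1) (b (l 1) (a (l 1) (a (l 1) (c (l 14419528) (l 14388280)))))) (a (b (l 1) (c (l 14830760) (a (l 14832720) (l 14728392)))) (b (a (b (l 1) (c (l 14608096) (l 14562872))) (c (b (l 14504496) (l 14556552)) (b (l 14462992) (l 14508584)))) (a (c (l 14666480) (l 14611704)) (c (l 14591128) (l 14534176))))))) (a (a (b (b (b (l 1) (l 15353456)) (c (l 15627208) (l 15597344))) (l 4)) (b (b (b (l 15132304) (l 15309720)) (c (l 15597968) (l 15567344))) (b (c (l 15883160) (l 15859960)) (c (l 16133472) (l 16116800))))) (b (a (b (b (l 14785592) (l 15125032)) (c (l 15442800) (l 15408040))) (b (b (a (l 14748368) (l 14646600)) (a (l 14915936) (l 14811464))) (a (l 14985848)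 (c (l 15168776) (l 15126032))))) (a (b (c (l 15757832) (l 15731120)) (l 15898968)) (a (b (l 15586080) (l 15829504)) (b (l 15516016) (l 15762952))))))) (b (a (b (l 4) (l 4)) (b (a (b (l 16110272) (l 16201880)) (c (l 15966928) (a (l 16100992) (l 16011272)))) (a (b (l 4) (l 4)) (c (b (l 16344104) (l 16362384)) (b (l 16332720) (l 16351600)))))) (a (l 4) (b (a (l 4) (c (l 16362384) (l 16351600))) (l 4))))), by decide +kernel⟩

theorem c_pm_202_a : CertFX 0 420477299 0 536870912 1046898278 26843546 true true false .pp 2 0 2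
    ndF2q2a ndF7q0 pcF2 Cut.none Ext.none :=
  certFX1 (fam := true) (s1 := true) (s2 := false) (a := 2) (b := 0) (c := 2) (cn := .pp) (n1 := ndF2q2a) (n2 := ndF7q0) (pc := pcF2) (cut := Cut.none) (xt := Ext.none) (P1 := 0) (W1 := 420477299) (P2 := 0) (W2 := 536870912) (P3 := 1046898278) (W3 := 26843546)
    rfl (fun _ => rfl) k0_pm_202_a

noncomputable def f_pm_202_b : ℕ → ℕ → ℕ → ℕ → Bool := onCell 1239849684 370763052 0 536870912 1046898278 26843546
    (rowFX 0 true true false .pp 2 0 2 (qsf 1239849684 370763052 0 536870912 2) ndF2q2b ndF7q0 pcF2 Cut.none Ext.none)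

def k0_pm_202_b : ∃ t, chk3 f_pm_202_b t 1 1 1 = true :=
  ⟨(b (a (l 4) (l 4)) (l 4)), by decide +kernel⟩

theorem c_pm_202_b : CertFX 1239849684 370763052 0 536870912 1046898278 26843546 true true false .pp 2 0 2
    ndF2q2b ndF7q0 pcF2 Cut.none Ext.none :=
  certFX0 (fam := true) (s1 := true) (s2 := false) (a := 2) (b := 0) (c := 2) (cn := .pp) (n1 := ndF2q2b) (n2 := ndF7q0) (pc := pcF2) (cut := Cut.none) (xt := Ext.none) (P1 := 1239849684) (W1 := 370763052) (P2 := 0) (W2 := 536870912) (P3 := 1046898278) (W3 := 26843546)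
    rfl k0_pm_202_b

noncomputable def f_pm_203_a : ℕ → ℕ → ℕ → ℕ → Bool := onCell 0 420477299 1610612736 536870912 1046898278 26843546
    (rowFX 1 true true false .up 2 0 3 (qsf 0 420477299 0 536870912 3) ndF2q2a ndF7q0 pcF3 Cut.none Ext.none)

def k0_pm_203_a : ∃ t, chk3 f_pm_203_a t 1 1 1 = true :=
  ⟨(l 4), by decide +kernel⟩

theorem c_pm_203_a : CertFX 0 420477299 0 536870912 1046898278 26843546 true true false .up 2 0 3
    ndF2q2a ndF7q0 pcF3 Cut.none Ext.none :=
  certFX1 (fam := true) (s1 := true) (s2 := false) (a := 2) (b := 0) (c := 3) (cn := .up) (n1 := ndF2q2a) (n2 := ndF7q0) (pc := pcF3) (cut := Cut.none) (xt := Ext.none) (P1 := 0) (W1 := 420477299) (P2 := 0) (W2 := 536870912) (P3 := 1046898278) (W3 := 26843546)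
    rfl (fun _ => rfl) k0_pm_203_a

noncomputable def f_pm_203_b : ℕ → ℕ → ℕ → ℕ → Bool := onCell 1239849684 370763052 1610612736 536870912 1046898278 26843546
    (rowFX 1 true true false .up 2 0 3 (qsf 1239849684 370763052 0 536870912 3) ndF2q2b ndF7q0 pcF3 Cut.none Ext.none)

def k0_pm_203_b : ∃ t, chk3 f_pm_203_b t 1 1 1 = true :=
  ⟨(l 4), by decide +kernel⟩

theorem c_pm_203_b : CertFX 1239849684 370763052 0 536870912 1046898278 26843546 true true false .up 2 0 3
    ndF2q2b ndF7q0 pcF3 Cut.none Ext.none :=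
  certFX1 (fam := true) (s1 := true) (s2 := false) (a := 2) (b := 0) (c := 3) (cn := .up) (n1 := ndF2q2b) (n2 := ndF7q0) (pc := pcF3) (cut := Cut.none) (xt := Ext.none) (P1 := 1239849684) (W1 := 370763052) (P2 := 0) (W2 := 536870912) (P3 := 1046898278) (W3 := 26843546)
    rfl (fun _ => rfl) k0_pm_203_b

noncomputable def f_pm_213_a : ℕ → ℕ → ℕ → ℕ → Bool := onCell 0 420477299 536870912 536870912 1046898278 26843546
    (rowFX 0 true true false .pnn 2 1 3 (qsf 0 420477299 536870912 536870912 3) ndF2q2a ndF7q1 pcF3 Cut.none Ext.none)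

def k0_pm_213_a : ∃ t, chk3 f_pm_213_a t 1 1 1 = true :=
  ⟨(l 4), by decide +kernel⟩

theorem c_pm_213_a : CertFX 0 420477299 536870912 536870912 1046898278 26843546 true true false .pnn 2 1 3
    ndF2q2a ndF7q1 pcF3 Cut.none Ext.none :=
  certFX0 (fam := true) (s1 := true) (s2 := false) (a := 2) (b := 1) (c := 3) (cn := .pnn) (n1 := ndF2q2a) (n2 := ndF7q1) (pc := pcF3) (cut := Cut.none) (xt := Ext.none) (P1 := 0) (W1 := 420477299) (P2 := 536870912) (W2 := 536870912) (P3 := 1046898278) (W3 := 26843546)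
    rfl k0_pm_213_a

noncomputable def f_pm_213_b : ℕ → ℕ → ℕ → ℕ → Bool := onCell 1239849684 370763052 536870912 536870912 1046898278 26843546
    (rowFX 0 true true false .pnn 2 1 3 (qsf 1239849684 370763052 536870912 536870912 3) ndF2q2b ndF7q1 pcF3 Cut.none Ext.none)

def k0_pm_213_b : ∃ t, chk3 f_pm_213_b t 1 1 1 = true :=
  ⟨(l 4), by decide +kernel⟩

theorem c_pm_213_b : CertFX 1239849684 370763052 536870912 536870912 1046898278 26843546 true true false .pnn 2 1 3
    ndF2q2b ndF7q1 pcF3 Cut.none Ext.none :=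
  certFX0 (fam := true) (s1 := true) (s2 := false) (a := 2) (b := 1) (c := 3) (cn := .pnn) (n1 := ndF2q2b) (n2 := ndF7q1) (pc := pcF3) (cut := Cut.none) (xt := Ext.none) (P1 := 1239849684) (W1 := 370763052) (P2 := 536870912) (W2 := 536870912) (P3 := 1046898278) (W3 := 26843546)
    rfl k0_pm_213_b

noncomputable def f_pm_303 : ℕ → ℕ → ℕ → ℕ → Bool := onCell 1610612736 469762048 0 536870912 1046898278 26843546
    (rowFX 0 true true false .npn 3 0 3 (qsf 1610612736 469762048 0 536870912 3) ndF2q3 ndF7q0 pcF3 Cut.none Ext.none)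

def k0_pm_303 : ∃ t, chk3 f_pm_303 t 1 1 1 = true :=
  ⟨(l 4), by decide +kernel⟩

theorem c_pm_303 : CertFX 1610612736 469762048 0 536870912 1046898278 26843546 true true false .npn 3 0 3
    ndF2q3 ndF7q0 pcF3 Cut.none Ext.none :=
  certFX0 (fam := true) (s1 := true) (s2 := false) (a := 3) (b := 0) (c := 3) (cn := .npn) (n1 := ndF2q3) (n2 := ndF7q0) (pc := pcF3) (cut := Cut.none) (xt := Ext.none) (P1 := 1610612736) (W1 := 469762048) (P2 := 0) (W2 := 536870912) (P3 := 1046898278) (W3 := 26843546)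
    rfl k0_pm_303

noncomputable def f_pm_313 : ℕ → ℕ → ℕ → ℕ → Bool := onCell 1610612736 469762048 536870912 536870912 1046898278 26843546
    (rowFX 0 true true false .dn 3 1 3 (qsf 1610612736 469762048 536870912 536870912 3) ndF2q3 ndF7q1 pcF3 Cut.none Ext.none)

def k0_pm_313 : ∃ t, chk3 f_pm_313 t 1 1 1 = true :=
  ⟨(l 4), by decide +kernel⟩

theorem c_pm_313 : CertFX 1610612736 469762048 536870912 536870912 1046898278 26843546 true true false .dn 3 1 3
    ndF2q3 ndF7q1 pcF3 Cut.none Ext.none :=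
  certFX0 (fam := true) (s1 := true) (s2 := false) (a := 3) (b := 1) (c := 3) (cn := .dn) (n1 := ndF2q3) (n2 := ndF7q1) (pc := pcF3) (cut := Cut.none) (xt := Ext.none) (P1 := 1610612736) (W1 := 469762048) (P2 := 536870912) (W2 := 536870912) (P3 := 1046898278) (W3 := 26843546)
    rfl k0_pm_313

noncomputable def f_mm_001 : ℕ → ℕ → ℕ → ℕ → Bool := onCell 67108864 469762048 0 536870912 1046898278 26843546
    (rowFX 0 true false false .up 0 0 1 (qsf 67108864 469762048 0 536870912 1) ndF2q0 ndF7q0 pcF1 Cut.none Ext.none)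

def k0_mm_001 : ∃ t, chk3 f_mm_001 t 1 1 1 = true :=
  ⟨(l 4), by decide +kernel⟩

theorem c_mm_001 : CertFX 67108864 469762048 0 536870912 1046898278 26843546 true false false .up 0 0 1
    ndF2q0 ndF7q0 pcF1 Cut.none Ext.none :=
  certFX0 (fam := true) (s1 := false) (s2 := false) (a := 0) (b := 0) (c := 1) (cn := .up) (n1 := ndF2q0) (n2 := ndF7q0) (pc := pcF1) (cut := Cut.none) (xt := Ext.none) (P1 := 67108864) (W1 := 469762048) (P2 := 0) (W2 := 536870912) (P3 := 1046898278) (W3 := 26843546)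
    rfl k0_mm_001

noncomputable def f_mm_011 : ℕ → ℕ → ℕ → ℕ → Bool := onCell 67108864 469762048 536870912 536870912 1046898278 26843546
    (rowFX 0 true false false .pnn 0 1 1 (qsf 67108864 469762048 536870912 536870912 1) ndF2q0 ndF7q1 pcF1 Cut.none Ext.none)

def k0_mm_011 : ∃ t, chk3 f_mm_011 t 1 1 1 = true :=
  ⟨(l 4), by decide +kernel⟩

theorem c_mm_011 : CertFX 67108864 469762048 536870912 536870912 1046898278 26843546 true false false .pnn 0 1 1
    ndF2q0 ndF7q1 pcF1 Cut.none Ext.none :=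
  certFX0 (fam := true) (s1 := false) (s2 := false) (a := 0) (b := 1) (c := 1) (cn := .pnn) (n1 := ndF2q0) (n2 := ndF7q1) (pc := pcF1) (cut := Cut.none) (xt := Ext.none) (P1 := 67108864) (W1 := 469762048) (P2 := 536870912) (W2 := 536870912) (P3 := 1046898278) (W3 := 26843546)
    rfl k0_mm_011

noncomputable def f_mm_012 : ℕ → ℕ → ℕ → ℕ → Bool := onCell 67108864 469762048 536870912 536870912 1046898278 26843546
    (rowFX 0 true false false .pnp 0 1 2 (qsf 67108864 469762048 536870912 536870912 2) ndF2q0 ndF7q1 pcF2 Cut.none Ext.none)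

def k0_mm_012 : ∃ t, chk3 f_mm_012 t 1 1 1 = true :=
  ⟨(l 4), by decide +kernel⟩

theorem c_mm_012 : CertFX 67108864 469762048 536870912 536870912 1046898278 26843546 true false false .pnp 0 1 2
    ndF2q0 ndF7q1 pcF2 Cut.none Ext.none :=
  certFX0 (fam := true) (s1 := false) (s2 := false) (a := 0) (b := 1) (c := 2) (cn := .pnp) (n1 := ndF2q0) (n2 := ndF7q1) (pc := pcF2) (cut := Cut.none) (xt := Ext.none) (P1 := 67108864) (W1 := 469762048) (P2 := 536870912) (W2 := 536870912) (P3 := 1046898278) (W3 := 26843546)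
    rfl k0_mm_012

noncomputable def f_mm_022 : ℕ → ℕ → ℕ → ℕ → Bool := onCell 67108864 469762048 1073741824 536870912 1046898278 26843546
    (rowFX 0 true false false .pp 0 2 2 (qsf 67108864 469762048 1073741824 536870912 2) ndF2q0 ndF7q2 pcF2 Cut.none Ext.none)

def k0_mm_022 : ∃ t, chk3 f_mm_022 t 1 1 1 = true :=
  ⟨(l 4), by decide +kernel⟩

theorem c_mm_022 : CertFX 67108864 469762048 1073741824 536870912 1046898278 26843546 true false false .pp 0 2 2
    ndF2q0 ndF7q2 pcF2 Cut.none Ext.none :=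
  certFX0 (fam := true) (s1 := false) (s2 := false) (a := 0) (b := 2) (c := 2) (cn := .pp) (n1 := ndF2q0) (n2 := ndF7q2) (pc := pcF2) (cut := Cut.none) (xt := Ext.none) (P1 := 67108864) (W1 := 469762048) (P2 := 1073741824) (W2 := 536870912) (P3 := 1046898278) (W3 := 26843546)
    rfl k0_mm_022

noncomputable def f_mm_023 : ℕ → ℕ → ℕ → ℕ → Bool := onCell 67108864 469762048 1073741824 536870912 1046898278 26843546
    (rowFX 0 true false false .up 0 2 3 (qsf 67108864 469762048 1073741824 536870912 3) ndF2q0 ndF7q2 pcF3 Cut.none Ext.none)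

def k0_mm_023 : ∃ t, chk3 f_mm_023 t 1 1 1 = true :=
  ⟨(l 4), by decide +kernel⟩

theorem c_mm_023 : CertFX 67108864 469762048 1073741824 536870912 1046898278 26843546 true false false .up 0 2 3
    ndF2q0 ndF7q2 pcF3 Cut.none Ext.none :=
  certFX0 (fam := true) (s1 := false) (s2 := false) (a := 0) (b := 2) (c := 3) (cn := .up) (n1 := ndF2q0) (n2 := ndF7q2) (pc := pcF3) (cut := Cut.none) (xt := Ext.none) (P1 := 67108864) (W1 := 469762048) (P2 := 1073741824) (W2 := 536870912) (P3 := 1046898278) (W3 := 26843546)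
    rfl k0_mm_023

noncomputable def f_mm_033 : ℕ → ℕ → ℕ → ℕ → Bool := onCell 67108864 469762048 0 1230186008 1046898278 26843546
    (rowFX 0 true false false .pnn 0 3 3 (qsf 67108864 469762048 0 1230186008 3) ndF2q0 ndF7q3 pcF3 Cut.none Ext.none)

def k0_mm_033 : ∃ t, chk3 f_mm_033 t 1 1 1 = true :=
  ⟨(l 4), by decide +kernel⟩

theorem c_mm_033 : CertFX 67108864 469762048 0 1230186008 1046898278 26843546 true false false .pnn 0 3 3
    ndF2q0 ndF7q3 pcF3 Cut.none Ext.none :=
  certFX0 (fam := true) (s1 := false) (s2 := false) (a := 0) (b := 3) (c := 3) (cn := .pnn) (n1 := ndF2q0) (n2 := ndF7q3) (pc := pcF3) (cut := Cut.none) (xt := Ext.none) (P1 := 67108864) (W1 := 469762048) (P2 := 0) (W2 := 1230186008) (P3 := 1046898278) (W3 := 26843546)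
    rfl k0_mm_033

noncomputable def f_mm_101 : ℕ → ℕ → ℕ → ℕ → Bool := onCell 536870912 536870912 0 536870912 1046898278 26843546
    (rowFX 0 true false false .npn 1 0 1 (qsf 536870912 536870912 0 536870912 1) ndF2q1 ndF7q0 pcF1 Cut.none Ext.none)

def k0_mm_101 : ∃ t, chk3 f_mm_101 t 1 1 1 = true :=
  ⟨(l 4), by decide +kernel⟩

theorem c_mm_101 : CertFX 536870912 536870912 0 536870912 1046898278 26843546 true false false .npn 1 0 1
    ndF2q1 ndF7q0 pcF1 Cut.none Ext.none :=
  certFX0 (fam := true) (s1 := false) (s2 := false) (a := 1) (b := 0) (c := 1) (cn := .npn) (n1 := ndF2q1) (n2 := ndF7q0) (pc := pcF1) (cut := Cut.none) (xt := Ext.none) (P1 := 536870912) (W1 := 536870912) (P2 := 0) (W2 := 536870912) (P3 := 1046898278) (W3 := 26843546)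
    rfl k0_mm_101

noncomputable def f_mm_102 : ℕ → ℕ → ℕ → ℕ → Bool := onCell 536870912 536870912 0 536870912 1046898278 26843546
    (rowFX 0 true false false .npp 1 0 2 (qsf 536870912 536870912 0 536870912 2) ndF2q1 ndF7q0 pcF2 Cut.none Ext.none)

def k0_mm_102 : ∃ t, chk3 f_mm_102 t 1 1 1 = true :=
  ⟨(l 4), by decide +kernel⟩

theorem c_mm_102 : CertFX 536870912 536870912 0 536870912 1046898278 26843546 true false false .npp 1 0 2
    ndF2q1 ndF7q0 pcF2 Cut.none Ext.none :=
  certFX0 (fam := true) (s1 := false) (s2 := false) (a := 1) (b := 0) (c := 2) (cn := .npp) (n1 := ndF2q1) (n2 := ndF7q0) (pc := pcF2) (cut := Cut.none) (xt := Ext.none) (P1 := 536870912) (W1 := 536870912) (P2 := 0) (W2 := 536870912) (P3 := 1046898278) (W3 := 26843546)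
    rfl k0_mm_102

noncomputable def f_mm_112 : ℕ → ℕ → ℕ → ℕ → Bool := onCell 536870912 536870912 536870912 536870912 1046898278 26843546
    (rowFX 0 true false false .dn 1 1 2 (qsf 536870912 536870912 536870912 536870912 2) ndF2q1 ndF7q1 pcF2 Cut.none Ext.none)

def k0_mm_112 : ∃ t, chk3 f_mm_112 t 1 1 1 = true :=
  ⟨(l 4), by decide +kernel⟩

theorem c_mm_112 : CertFX 536870912 536870912 536870912 536870912 1046898278 26843546 true false false .dn 1 1 2
    ndF2q1 ndF7q1 pcF2 Cut.none Ext.none :=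
  certFX0 (fam := true) (s1 := false) (s2 := false) (a := 1) (b := 1) (c := 2) (cn := .dn) (n1 := ndF2q1) (n2 := ndF7q1) (pc := pcF2) (cut := Cut.none) (xt := Ext.none) (P1 := 536870912) (W1 := 536870912) (P2 := 536870912) (W2 := 536870912) (P3 := 1046898278) (W3 := 26843546)
    rfl k0_mm_112

noncomputable def f_mm_113 : ℕ → ℕ → ℕ → ℕ → Bool := onCell 536870912 536870912 536870912 536870912 1046898278 26843546
    (rowFX 0 true false false .nn 1 1 3 (qsf 536870912 536870912 536870912 536870912 3) ndF2q1 ndF7q1 pcF3 Cut.none Ext.none)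

def k0_mm_113 : ∃ t, chk3 f_mm_113 t 1 1 1 = true :=
  ⟨(l 4), by decide +kernel⟩

theorem c_mm_113 : CertFX 536870912 536870912 536870912 536870912 1046898278 26843546 true false false .nn 1 1 3
    ndF2q1 ndF7q1 pcF3 Cut.none Ext.none :=
  certFX0 (fam := true) (s1 := false) (s2 := false) (a := 1) (b := 1) (c := 3) (cn := .nn) (n1 := ndF2q1) (n2 := ndF7q1) (pc := pcF3) (cut := Cut.none) (xt := Ext.none) (P1 := 536870912) (W1 := 536870912) (P2 := 536870912) (W2 := 536870912) (P3 := 1046898278) (W3 := 26843546)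
    rfl k0_mm_113

noncomputable def f_mm_123 : ℕ → ℕ → ℕ → ℕ → Bool := onCell 536870912 536870912 1073741824 536870912 1046898278 26843546
    (rowFX 0 true false false .npn 1 2 3 (qsf 536870912 536870912 1073741824 536870912 3) ndF2q1 ndF7q2 pcF3 Cut.none Ext.none)

def k0_mm_123 : ∃ t, chk3 f_mm_123 t 1 1 1 = true :=
  ⟨(l 4), by decide +kernel⟩

theorem c_mm_123 : CertFX 536870912 536870912 1073741824 536870912 1046898278 26843546 true false false .npn 1 2 3
    ndF2q1 ndF7q2 pcF3 Cut.none Ext.none :=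
  certFX0 (fam := true) (s1 := false) (s2 := false) (a := 1) (b := 2) (c := 3) (cn := .npn) (n1 := ndF2q1) (n2 := ndF7q2) (pc := pcF3) (cut := Cut.none) (xt := Ext.none) (P1 := 536870912) (W1 := 536870912) (P2 := 1073741824) (W2 := 536870912) (P3 := 1046898278) (W3 := 26843546)
    rfl k0_mm_123

noncomputable def f_mm_133 : ℕ → ℕ → ℕ → ℕ → Bool := onCell 536870912 536870912 0 1230186008 1046898278 26843546
    (rowFX 0 true false false .dn 1 3 3 (qsf 536870912 536870912 0 1230186008 3) ndF2q1 ndF7q3 pcF3 Cut.none Ext.none)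

def k0_mm_133 : ∃ t, chk3 f_mm_133 t 1 1 1 = true :=
  ⟨(l 4), by decide +kernel⟩

theorem c_mm_133 : CertFX 536870912 536870912 0 1230186008 1046898278 26843546 true false false .dn 1 3 3
    ndF2q1 ndF7q3 pcF3 Cut.none Ext.none :=
  certFX0 (fam := true) (s1 := false) (s2 := false) (a := 1) (b := 3) (c := 3) (cn := .dn) (n1 := ndF2q1) (n2 := ndF7q3) (pc := pcF3) (cut := Cut.none) (xt := Ext.none) (P1 := 536870912) (W1 := 536870912) (P2 := 0) (W2 := 1230186008) (P3 := 1046898278) (W3 := 26843546)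
    rfl k0_mm_133

noncomputable def f_mm_202_a : ℕ → ℕ → ℕ → ℕ → Bool := onCell 0 420477299 0 536870912 1046898278 26843546
    (rowFX 0 true false false .pp 2 0 2 (qsf 0 420477299 0 536870912 2) ndF2q2a ndF7q0 pcF2 Cut.none Ext.none)

def k0_mm_202_a : ∃ t, chk3 f_mm_202_a t 1 1 1 = true :=
  ⟨(l 4), by decide +kernel⟩

theorem c_mm_202_a : CertFX 0 420477299 0 536870912 1046898278 26843546 true false false .pp 2 0 2
    ndF2q2a ndF7q0 pcF2 Cut.none Ext.none :=
  certFX0 (fam := true) (s1 := false) (s2 := false) (a := 2) (b := 0) (c := 2) (cn := .pp) (n1 := ndF2q2a) (n2 := ndF7q0) (pc := pcF2) (cut := Cut.none) (xt := Ext.none) (P1 := 0) (W1 := 420477299) (P2 := 0) (W2 := 536870912) (P3 := 1046898278) (W3 := 26843546)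
    rfl k0_mm_202_a

noncomputable def f_mm_202_b : ℕ → ℕ → ℕ → ℕ → Bool := onCell 1239849684 370763052 0 536870912 1046898278 26843546
    (rowFX 0 true false false .pp 2 0 2 (qsf 1239849684 370763052 0 536870912 2) ndF2q2b ndF7q0 pcF2 Cut.none Ext.none)

def k0_mm_202_b : ∃ t, chk3 f_mm_202_b t 1 1 1 = true :=
  ⟨(l 4), by decide +kernel⟩

theorem c_mm_202_b : CertFX 1239849684 370763052 0 536870912 1046898278 26843546 true false false .pp 2 0 2
    ndF2q2b ndF7q0 pcF2 Cut.none Ext.none :=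
  certFX0 (fam := true) (s1 := false) (s2 := false) (a := 2) (b := 0) (c := 2) (cn := .pp) (n1 := ndF2q2b) (n2 := ndF7q0) (pc := pcF2) (cut := Cut.none) (xt := Ext.none) (P1 := 1239849684) (W1 := 370763052) (P2 := 0) (W2 := 536870912) (P3 := 1046898278) (W3 := 26843546)
    rfl k0_mm_202_b

noncomputable def f_mm_203_a : ℕ → ℕ → ℕ → ℕ → Bool := onCell 0 420477299 0 536870912 1046898278 26843546
    (rowFX 0 true false false .up 2 0 3 (qsf 0 420477299 0 536870912 3) ndF2q2a ndF7q0 pcF3 Cut.none Ext.none)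

def k0_mm_203_a : ∃ t, chk3 f_mm_203_a t 1 1 1 = true :=
  ⟨(l 4), by decide +kernel⟩

theorem c_mm_203_a : CertFX 0 420477299 0 536870912 1046898278 26843546 true false false .up 2 0 3
    ndF2q2a ndF7q0 pcF3 Cut.none Ext.none :=
  certFX0 (fam := true) (s1 := false) (s2 := false) (a := 2) (b := 0) (c := 3) (cn := .up) (n1 := ndF2q2a) (n2 := ndF7q0) (pc := pcF3) (cut := Cut.none) (xt := Ext.none) (P1 := 0) (W1 := 420477299) (P2 := 0) (W2 := 536870912) (P3 := 1046898278) (W3 := 26843546)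
    rfl k0_mm_203_a

noncomputable def f_mm_203_b : ℕ → ℕ → ℕ → ℕ → Bool := onCell 1239849684 370763052 0 536870912 1046898278 26843546
    (rowFX 0 true false false .up 2 0 3 (qsf 1239849684 370763052 0 536870912 3) ndF2q2b ndF7q0 pcF3 Cut.none Ext.none)

def k0_mm_203_b : ∃ t, chk3 f_mm_203_b t 1 1 1 = true :=
  ⟨(l 4), by decide +kernel⟩

theorem c_mm_203_b : CertFX 1239849684 370763052 0 536870912 1046898278 26843546 true false false .up 2 0 3
    ndF2q2b ndF7q0 pcF3 Cut.none Ext.none :=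
  certFX0 (fam := true) (s1 := false) (s2 := false) (a := 2) (b := 0) (c := 3) (cn := .up) (n1 := ndF2q2b) (n2 := ndF7q0) (pc := pcF3) (cut := Cut.none) (xt := Ext.none) (P1 := 1239849684) (W1 := 370763052) (P2 := 0) (W2 := 536870912) (P3 := 1046898278) (W3 := 26843546)
    rfl k0_mm_203_b

noncomputable def f_mm_213_a : ℕ → ℕ → ℕ → ℕ → Bool := onCell 0 420477299 536870912 536870912 1046898278 26843546
    (rowFX 0 true false false .pnn 2 1 3 (qsf 0 420477299 536870912 536870912 3) ndF2q2a ndF7q1 pcF3 Cut.none Ext.none)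

def k0_mm_213_a : ∃ t, chk3 f_mm_213_a t 1 1 1 = true :=
  ⟨(l 4), by decide +kernel⟩

theorem c_mm_213_a : CertFX 0 420477299 536870912 536870912 1046898278 26843546 true false false .pnn 2 1 3
    ndF2q2a ndF7q1 pcF3 Cut.none Ext.none :=
  certFX0 (fam := true) (s1 := false) (s2 := false) (a := 2) (b := 1) (c := 3) (cn := .pnn) (n1 := ndF2q2a) (n2 := ndF7q1) (pc := pcF3) (cut := Cut.none) (xt := Ext.none) (P1 := 0) (W1 := 420477299) (P2 := 536870912) (W2 := 536870912) (P3 := 1046898278) (W3 := 26843546)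
    rfl k0_mm_213_a

noncomputable def f_mm_213_b : ℕ → ℕ → ℕ → ℕ → Bool := onCell 1239849684 370763052 536870912 536870912 1046898278 26843546
    (rowFX 0 true false false .pnn 2 1 3 (qsf 1239849684 370763052 536870912 536870912 3) ndF2q2b ndF7q1 pcF3 Cut.none Ext.none)

def k0_mm_213_b : ∃ t, chk3 f_mm_213_b t 1 1 1 = true :=
  ⟨(l 4), by decide +kernel⟩

theorem c_mm_213_b : CertFX 1239849684 370763052 536870912 536870912 1046898278 26843546 true false false .pnn 2 1 3
    ndF2q2b ndF7q1 pcF3 Cut.none Ext.none :=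
  certFX0 (fam := true) (s1 := false) (s2 := false) (a := 2) (b := 1) (c := 3) (cn := .pnn) (n1 := ndF2q2b) (n2 := ndF7q1) (pc := pcF3) (cut := Cut.none) (xt := Ext.none) (P1 := 1239849684) (W1 := 370763052) (P2 := 536870912) (W2 := 536870912) (P3 := 1046898278) (W3 := 26843546)
    rfl k0_mm_213_b

noncomputable def f_mm_303 : ℕ → ℕ → ℕ → ℕ → Bool := onCell 1610612736 469762048 0 536870912 1046898278 26843546
    (rowFX 0 true false false .npn 3 0 3 (qsf 1610612736 469762048 0 536870912 3) ndF2q3 ndF7q0 pcF3 Cut.none Ext.none)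

def k0_mm_303 : ∃ t, chk3 f_mm_303 t 1 1 1 = true :=
  ⟨(l 4), by decide +kernel⟩

theorem c_mm_303 : CertFX 1610612736 469762048 0 536870912 1046898278 26843546 true false false .npn 3 0 3
    ndF2q3 ndF7q0 pcF3 Cut.none Ext.none :=
  certFX0 (fam := true) (s1 := false) (s2 := false) (a := 3) (b := 0) (c := 3) (cn := .npn) (n1 := ndF2q3) (n2 := ndF7q0) (pc := pcF3) (cut := Cut.none) (xt := Ext.none) (P1 := 1610612736) (W1 := 469762048) (P2 := 0) (W2 := 536870912) (P3 := 1046898278) (W3 := 26843546)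
    rfl k0_mm_303

noncomputable def f_mm_313 : ℕ → ℕ → ℕ → ℕ → Bool := onCell 1610612736 469762048 536870912 536870912 1046898278 26843546
    (rowFX 0 true false false .dn 3 1 3 (qsf 1610612736 469762048 536870912 536870912 3) ndF2q3 ndF7q1 pcF3 Cut.none Ext.none)

def k0_mm_313 : ∃ t, chk3 f_mm_313 t 1 1 1 = true :=
  ⟨(l 4), by decide +kernel⟩

theorem c_mm_313 : CertFX 1610612736 469762048 536870912 536870912 1046898278 26843546 true false false .dn 3 1 3
    ndF2q3 ndF7q1 pcF3 Cut.none Ext.none :=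
  certFX0 (fam := true) (s1 := false) (s2 := false) (a := 3) (b := 1) (c := 3) (cn := .dn) (n1 := ndF2q3) (n2 := ndF7q1) (pc := pcF3) (cut := Cut.none) (xt := Ext.none) (P1 := 1610612736) (W1 := 469762048) (P2 := 536870912) (W2 := 536870912) (P3 := 1046898278) (W3 := 26843546)
    rfl k0_mm_313

end Pool.Agent.Strip051.G.IE1.Tab.C.FA27

namespace Pool.Agent.Strip051.G.IE1.Tab.C.FA33

open Pool.Agent.Strip051.PB Pool.Agent.Strip051.PB.T
open Pool.Agent.Strip051.G.IE1.Tab

noncomputable def f_pp_001 : ℕ → ℕ → ℕ → ℕ → Bool := onCell 0 536870912 0 536870912 1046898278 26843546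
    (rowFX 0 true true true .up 0 0 1 (qsf 0 536870912 0 536870912 1) ndF3q0 ndF3q0 pcF1 Cut.none Ext.none)

def k0_pp_001 : ∃ t, chk3 f_pp_001 t 1 1 1 = true :=
  ⟨(l 4), by decide +kernel⟩

theorem c_pp_001 : CertFX 0 536870912 0 536870912 1046898278 26843546 true true true .up 0 0 1
    ndF3q0 ndF3q0 pcF1 Cut.none Ext.none :=
  certFX0 (fam := true) (s1 := true) (s2 := true) (a := 0) (b := 0) (c := 1) (cn := .up) (n1 := ndF3q0) (n2 := ndF3q0) (pc := pcF1) (cut := Cut.none) (xt := Ext.none) (P1 := 0) (W1 := 536870912) (P2 := 0) (W2 := 536870912) (P3 := 1046898278) (W3 := 26843546)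
    rfl k0_pp_001

noncomputable def f_pp_011 : ℕ → ℕ → ℕ → ℕ → Bool := onCell 0 536870912 536870912 536870912 1046898278 26843546
    (rowFX 0 true true true .pnn 0 1 1 (qsf 0 536870912 536870912 536870912 1) ndF3q0 ndF3q1 pcF1 Cut.none Ext.none)

def k0_pp_011 : ∃ t, chk3 f_pp_011 t 1 1 1 = true :=
  ⟨(l 4), by decide +kernel⟩

theorem c_pp_011 : CertFX 0 536870912 536870912 536870912 1046898278 26843546 true true true .pnn 0 1 1
    ndF3q0 ndF3q1 pcF1 Cut.none Ext.none :=
  certFX0 (fam := true) (s1 := true) (s2 := true) (a := 0) (b := 1) (c := 1) (cn := .pnn) (n1 := ndF3q0) (n2 := ndF3q1) (pc := pcF1) (cut := Cut.none) (xt := Ext.none) (P1 := 0) (W1 := 536870912) (P2 := 536870912) (W2 := 536870912) (P3 := 1046898278) (W3 := 26843546)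
    rfl k0_pp_011

noncomputable def f_pp_012 : ℕ → ℕ → ℕ → ℕ → Bool := onCell 0 536870912 536870912 536870912 1046898278 26843546
    (rowFX 0 true true true .pnp 0 1 2 (qsf 0 536870912 536870912 536870912 2) ndF3q0 ndF3q1 pcF2 Cut.none Ext.none)

def k0_pp_012 : ∃ t, chk3 f_pp_012 t 1 1 1 = true :=
  ⟨(l 4), by decide +kernel⟩

theorem c_pp_012 : CertFX 0 536870912 536870912 536870912 1046898278 26843546 true true true .pnp 0 1 2
    ndF3q0 ndF3q1 pcF2 Cut.none Ext.none :=
  certFX0 (fam := true) (s1 := true) (s2 := true) (a := 0) (b := 1) (c := 2) (cn := .pnp) (n1 := ndF3q0) (n2 := ndF3q1) (pc := pcF2) (cut := Cut.none) (xt := Ext.none) (P1 := 0) (W1 := 536870912) (P2 := 536870912) (W2 := 536870912) (P3 := 1046898278) (W3 := 26843546)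
    rfl k0_pp_012

noncomputable def cut_pp_022 : Cut := Cut.of [[⟨0, 0, 0, 67108864⟩, ⟨1, 1, 0, 67108864⟩, ⟨2, 1, 0, 67108864⟩]]

noncomputable def f_pp_022 : ℕ → ℕ → ℕ → ℕ → Bool := onCell 0 536870912 1073741824 536870912 1046898278 26843546
    (rowFX 1 true true true .pp 0 2 2 (qsf 0 536870912 1073741824 536870912 2) ndF3q0 ndF3q2 pcF2 cut_pp_022 Ext.none)

def k0_pp_022 : ∃ t, chk3 f_pp_022 t 1 1 1 = true :=
  ⟨(a (b (b (a (b (a (a (b (l 6) (l 4)) (l 4)) (l 4)) (l 4)) (l 4)) (l 4)) (l 4)) (l 4)), by decide +kernel⟩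

theorem c_pp_022 : CertFX 0 536870912 1073741824 536870912 1046898278 26843546 true true true .pp 0 2 2
    ndF3q0 ndF3q2 pcF2 cut_pp_022 Ext.none :=
  certFX1 (fam := true) (s1 := true) (s2 := true) (a := 0) (b := 2) (c := 2) (cn := .pp) (n1 := ndF3q0) (n2 := ndF3q2) (pc := pcF2) (cut := cut_pp_022) (xt := Ext.none) (P1 := 0) (W1 := 536870912) (P2 := 1073741824) (W2 := 536870912) (P3 := 1046898278) (W3 := 26843546)
    rfl (fun _ => rfl) k0_pp_022

noncomputable def f_pp_023 : ℕ → ℕ → ℕ → ℕ → Bool := onCell 1610612736 536870912 1073741824 536870912 1046898278 26843546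
    (rowFX 2 true true true .up 0 2 3 (qsf 0 536870912 1073741824 536870912 3) ndF3q0 ndF3q2 pcF3 Cut.none Ext.none)

def k0_pp_023 : ∃ t, chk3 f_pp_023 t 1 1 1 = true :=
  ⟨(l 4), by decide +kernel⟩

theorem c_pp_023 : CertFX 0 536870912 1073741824 536870912 1046898278 26843546 true true true .up 0 2 3
    ndF3q0 ndF3q2 pcF3 Cut.none Ext.none :=
  certFX2 (fam := true) (s1 := true) (s2 := true) (a := 0) (b := 2) (c := 3) (cn := .up) (n1 := ndF3q0) (n2 := ndF3q2) (pc := pcF3) (cut := Cut.none) (xt := Ext.none) (P1 := 0) (W1 := 536870912) (P2 := 1073741824) (W2 := 536870912) (P3 := 1046898278) (W3 := 26843546)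
    rfl (fun _ => rfl) k0_pp_023

noncomputable def f_pp_033 : ℕ → ℕ → ℕ → ℕ → Bool := onCell 0 536870912 1610612736 536870912 1046898278 26843546
    (rowFX 0 true true true .pnn 0 3 3 (qsf 0 536870912 1610612736 536870912 3) ndF3q0 ndF3q3 pcF3 Cut.none Ext.none)

def k0_pp_033 : ∃ t, chk3 f_pp_033 t 1 1 1 = true :=
  ⟨(l 4), by decide +kernel⟩

theorem c_pp_033 : CertFX 0 536870912 1610612736 536870912 1046898278 26843546 true true true .pnn 0 3 3
    ndF3q0 ndF3q3 pcF3 Cut.none Ext.none :=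
  certFX0 (fam := true) (s1 := true) (s2 := true) (a := 0) (b := 3) (c := 3) (cn := .pnn) (n1 := ndF3q0) (n2 := ndF3q3) (pc := pcF3) (cut := Cut.none) (xt := Ext.none) (P1 := 0) (W1 := 536870912) (P2 := 1610612736) (W2 := 536870912) (P3 := 1046898278) (W3 := 26843546)
    rfl k0_pp_033

noncomputable def f_pp_101 : ℕ → ℕ → ℕ → ℕ → Bool := onCell 536870912 536870912 0 536870912 1046898278 26843546
    (rowFX 0 true true true .npn 1 0 1 (qsf 536870912 536870912 0 536870912 1) ndF3q1 ndF3q0 pcF1 Cut.none Ext.none)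

def k0_pp_101 : ∃ t, chk3 f_pp_101 t 1 1 1 = true :=
  ⟨(l 4), by decide +kernel⟩

theorem c_pp_101 : CertFX 536870912 536870912 0 536870912 1046898278 26843546 true true true .npn 1 0 1
    ndF3q1 ndF3q0 pcF1 Cut.none Ext.none :=
  certFX0 (fam := true) (s1 := true) (s2 := true) (a := 1) (b := 0) (c := 1) (cn := .npn) (n1 := ndF3q1) (n2 := ndF3q0) (pc := pcF1) (cut := Cut.none) (xt := Ext.none) (P1 := 536870912) (W1 := 536870912) (P2 := 0) (W2 := 536870912) (P3 := 1046898278) (W3 := 26843546)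
    rfl k0_pp_101

noncomputable def f_pp_102 : ℕ → ℕ → ℕ → ℕ → Bool := onCell 536870912 536870912 0 536870912 1046898278 26843546
    (rowFX 0 true true true .npp 1 0 2 (qsf 536870912 536870912 0 536870912 2) ndF3q1 ndF3q0 pcF2 Cut.none Ext.none)

def k0_pp_102 : ∃ t, chk3 f_pp_102 t 1 1 1 = true :=
  ⟨(l 4), by decide +kernel⟩

theorem c_pp_102 : CertFX 536870912 536870912 0 536870912 1046898278 26843546 true true true .npp 1 0 2
    ndF3q1 ndF3q0 pcF2 Cut.none Ext.none :=
  certFX0 (fam := true) (s1 := true) (s2 := true) (a := 1) (b := 0) (c := 2) (cn := .npp) (n1 := ndF3q1) (n2 := ndF3q0) (pc := pcF2) (cut := Cut.none) (xt := Ext.none) (P1 := 536870912) (W1 := 536870912) (P2 := 0) (W2 := 536870912) (P3 := 1046898278) (W3 := 26843546)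
    rfl k0_pp_102

noncomputable def f_pp_112 : ℕ → ℕ → ℕ → ℕ → Bool := onCell 536870912 536870912 536870912 536870912 1046898278 26843546
    (rowFX 0 true true true .dn 1 1 2 (qsf 536870912 536870912 536870912 536870912 2) ndF3q1 ndF3q1 pcF2 Cut.none Ext.none)

def k0_pp_112 : ∃ t, chk3 f_pp_112 t 1 1 1 = true :=
  ⟨(l 4), by decide +kernel⟩

theorem c_pp_112 : CertFX 536870912 536870912 536870912 536870912 1046898278 26843546 true true true .dn 1 1 2
    ndF3q1 ndF3q1 pcF2 Cut.none Ext.none :=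
  certFX0 (fam := true) (s1 := true) (s2 := true) (a := 1) (b := 1) (c := 2) (cn := .dn) (n1 := ndF3q1) (n2 := ndF3q1) (pc := pcF2) (cut := Cut.none) (xt := Ext.none) (P1 := 536870912) (W1 := 536870912) (P2 := 536870912) (W2 := 536870912) (P3 := 1046898278) (W3 := 26843546)
    rfl k0_pp_112

noncomputable def f_pp_113 : ℕ → ℕ → ℕ → ℕ → Bool := onCell 536870912 536870912 536870912 536870912 1046898278 26843546
    (rowFX 0 true true true .nn 1 1 3 (qsf 536870912 536870912 536870912 536870912 3) ndF3q1 ndF3q1 pcF3 Cut.none Ext.none)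

def k0_pp_113 : ∃ t, chk3 f_pp_113 t 1 1 1 = true :=
  ⟨(l 4), by decide +kernel⟩

theorem c_pp_113 : CertFX 536870912 536870912 536870912 536870912 1046898278 26843546 true true true .nn 1 1 3
    ndF3q1 ndF3q1 pcF3 Cut.none Ext.none :=
  certFX0 (fam := true) (s1 := true) (s2 := true) (a := 1) (b := 1) (c := 3) (cn := .nn) (n1 := ndF3q1) (n2 := ndF3q1) (pc := pcF3) (cut := Cut.none) (xt := Ext.none) (P1 := 536870912) (W1 := 536870912) (P2 := 536870912) (W2 := 536870912) (P3 := 1046898278) (W3 := 26843546)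
    rfl k0_pp_113

noncomputable def f_pp_123 : ℕ → ℕ → ℕ → ℕ → Bool := onCell 536870912 536870912 1073741824 536870912 1046898278 26843546
    (rowFX 0 true true true .npn 1 2 3 (qsf 536870912 536870912 1073741824 536870912 3) ndF3q1 ndF3q2 pcF3 Cut.none Ext.none)

def k0_pp_123 : ∃ t, chk3 f_pp_123 t 1 1 1 = true :=
  ⟨(l 4), by decide +kernel⟩

theorem c_pp_123 : CertFX 536870912 536870912 1073741824 536870912 1046898278 26843546 true true true .npn 1 2 3
    ndF3q1 ndF3q2 pcF3 Cut.none Ext.none :=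
  certFX0 (fam := true) (s1 := true) (s2 := true) (a := 1) (b := 2) (c := 3) (cn := .npn) (n1 := ndF3q1) (n2 := ndF3q2) (pc := pcF3) (cut := Cut.none) (xt := Ext.none) (P1 := 536870912) (W1 := 536870912) (P2 := 1073741824) (W2 := 536870912) (P3 := 1046898278) (W3 := 26843546)
    rfl k0_pp_123

noncomputable def f_pp_133 : ℕ → ℕ → ℕ → ℕ → Bool := onCell 536870912 536870912 1610612736 536870912 1046898278 26843546
    (rowFX 0 true true true .dn 1 3 3 (qsf 536870912 536870912 1610612736 536870912 3) ndF3q1 ndF3q3 pcF3 Cut.none Ext.none)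

def k0_pp_133 : ∃ t, chk3 f_pp_133 t 1 1 1 = true :=
  ⟨(l 4), by decide +kernel⟩

theorem c_pp_133 : CertFX 536870912 536870912 1610612736 536870912 1046898278 26843546 true true true .dn 1 3 3
    ndF3q1 ndF3q3 pcF3 Cut.none Ext.none :=
  certFX0 (fam := true) (s1 := true) (s2 := true) (a := 1) (b := 3) (c := 3) (cn := .dn) (n1 := ndF3q1) (n2 := ndF3q3) (pc := pcF3) (cut := Cut.none) (xt := Ext.none) (P1 := 536870912) (W1 := 536870912) (P2 := 1610612736) (W2 := 536870912) (P3 := 1046898278) (W3 := 26843546)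
    rfl k0_pp_133

noncomputable def f_pp_202 : ℕ → ℕ → ℕ → ℕ → Bool := onCell 1073741824 536870912 0 536870912 1046898278 26843546
    (rowFX 0 true true true .pp 2 0 2 (qsf 1073741824 536870912 0 536870912 2) ndF3q2 ndF3q0 pcF2 Cut.none Ext.none)

def k0_pp_202 : ∃ t, chk3 f_pp_202 t 1 1 1 = true :=
  ⟨(l 5), by decide +kernel⟩

theorem c_pp_202 : CertFX 1073741824 536870912 0 536870912 1046898278 26843546 true true true .pp 2 0 2
    ndF3q2 ndF3q0 pcF2 Cut.none Ext.none :=
  certFX0 (fam := true) (s1 := true) (s2 := true) (a := 2) (b := 0) (c := 2) (cn := .pp) (n1 := ndF3q2) (n2 := ndF3q0) (pc := pcF2) (cut := Cut.none) (xt := Ext.none) (P1 := 1073741824) (W1 := 536870912) (P2 := 0) (W2 := 536870912) (P3 := 1046898278) (W3 := 26843546)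
    rfl k0_pp_202

noncomputable def f_pp_203 : ℕ → ℕ → ℕ → ℕ → Bool := onCell 1073741824 536870912 0 536870912 1046898278 26843546
    (rowFX 0 true true true .up 2 0 3 (qsf 1073741824 536870912 0 536870912 3) ndF3q2 ndF3q0 pcF3 Cut.none Ext.none)

def k0_pp_203 : ∃ t, chk3 f_pp_203 t 1 1 1 = true :=
  ⟨(l 5), by decide +kernel⟩

theorem c_pp_203 : CertFX 1073741824 536870912 0 536870912 1046898278 26843546 true true true .up 2 0 3
    ndF3q2 ndF3q0 pcF3 Cut.none Ext.none :=
  certFX0 (fam := true) (s1 := true) (s2 := true) (a := 2) (b := 0) (c := 3) (cn := .up) (n1 := ndF3q2) (n2 := ndF3q0) (pc := pcF3) (cut := Cut.none) (xt := Ext.none) (P1 := 1073741824) (W1 := 536870912) (P2 := 0) (W2 := 536870912) (P3 := 1046898278) (W3 := 26843546)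
    rfl k0_pp_203

noncomputable def f_pp_213 : ℕ → ℕ → ℕ → ℕ → Bool := onCell 1073741824 536870912 536870912 536870912 1046898278 26843546
    (rowFX 0 true true true .pnn 2 1 3 (qsf 1073741824 536870912 536870912 536870912 3) ndF3q2 ndF3q1 pcF3 Cut.none Ext.none)

def k0_pp_213 : ∃ t, chk3 f_pp_213 t 1 1 1 = true :=
  ⟨(l 4), by decide +kernel⟩

theorem c_pp_213 : CertFX 1073741824 536870912 536870912 536870912 1046898278 26843546 true true true .pnn 2 1 3
    ndF3q2 ndF3q1 pcF3 Cut.none Ext.none :=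
  certFX0 (fam := true) (s1 := true) (s2 := true) (a := 2) (b := 1) (c := 3) (cn := .pnn) (n1 := ndF3q2) (n2 := ndF3q1) (pc := pcF3) (cut := Cut.none) (xt := Ext.none) (P1 := 1073741824) (W1 := 536870912) (P2 := 536870912) (W2 := 536870912) (P3 := 1046898278) (W3 := 26843546)
    rfl k0_pp_213

noncomputable def f_pp_303 : ℕ → ℕ → ℕ → ℕ → Bool := onCell 1610612736 536870912 0 536870912 1046898278 26843546
    (rowFX 0 true true true .npn 3 0 3 (qsf 1610612736 536870912 0 536870912 3) ndF3q3 ndF3q0 pcF3 Cut.none Ext.none)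

def k0_pp_303 : ∃ t, chk3 f_pp_303 t 1 1 1 = true :=
  ⟨(l 4), by decide +kernel⟩

theorem c_pp_303 : CertFX 1610612736 536870912 0 536870912 1046898278 26843546 true true true .npn 3 0 3
    ndF3q3 ndF3q0 pcF3 Cut.none Ext.none :=
  certFX0 (fam := true) (s1 := true) (s2 := true) (a := 3) (b := 0) (c := 3) (cn := .npn) (n1 := ndF3q3) (n2 := ndF3q0) (pc := pcF3) (cut := Cut.none) (xt := Ext.none) (P1 := 1610612736) (W1 := 536870912) (P2 := 0) (W2 := 536870912) (P3 := 1046898278) (W3 := 26843546)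
    rfl k0_pp_303

noncomputable def f_pp_313 : ℕ → ℕ → ℕ → ℕ → Bool := onCell 1610612736 536870912 536870912 536870912 1046898278 26843546
    (rowFX 0 true true true .dn 3 1 3 (qsf 1610612736 536870912 536870912 536870912 3) ndF3q3 ndF3q1 pcF3 Cut.none Ext.none)

def k0_pp_313 : ∃ t, chk3 f_pp_313 t 1 1 1 = true :=
  ⟨(l 4), by decide +kernel⟩

theorem c_pp_313 : CertFX 1610612736 536870912 536870912 536870912 1046898278 26843546 true true true .dn 3 1 3
    ndF3q3 ndF3q1 pcF3 Cut.none Ext.none :=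
  certFX0 (fam := true) (s1 := true) (s2 := true) (a := 3) (b := 1) (c := 3) (cn := .dn) (n1 := ndF3q3) (n2 := ndF3q1) (pc := pcF3) (cut := Cut.none) (xt := Ext.none) (P1 := 1610612736) (W1 := 536870912) (P2 := 536870912) (W2 := 536870912) (P3 := 1046898278) (W3 := 26843546)
    rfl k0_pp_313

noncomputable def f_pm_001 : ℕ → ℕ → ℕ → ℕ → Bool := onCell 0 536870912 0 536870912 1046898278 26843546
    (rowFX 0 true true false .up 0 0 1 (qsf 0 536870912 0 536870912 1) ndF3q0 ndF3q0 pcF1 Cut.none Ext.none)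

def k0_pm_001 : ∃ t, chk3 f_pm_001 t 1 1 1 = true :=
  ⟨(a (l 3) (l 3)), by decide +kernel⟩

theorem c_pm_001 : CertFX 0 536870912 0 536870912 1046898278 26843546 true true false .up 0 0 1
    ndF3q0 ndF3q0 pcF1 Cut.none Ext.none :=
  certFX0 (fam := true) (s1 := true) (s2 := false) (a := 0) (b := 0) (c := 1) (cn := .up) (n1 := ndF3q0) (n2 := ndF3q0) (pc := pcF1) (cut := Cut.none) (xt := Ext.none) (P1 := 0) (W1 := 536870912) (P2 := 0) (W2 := 536870912) (P3 := 1046898278) (W3 := 26843546)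
    rfl k0_pm_001

noncomputable def cut_pm_011 : Cut := Cut.of [[⟨0, 0, 0, 67108864⟩, ⟨1, 1, 0, 67108864⟩, ⟨2, 1, 0, 67108864⟩]]

noncomputable def f_pm_011 : ℕ → ℕ → ℕ → ℕ → Bool := onCell 0 536870912 536870912 536870912 1046898278 26843546
    (rowFX 1 true true false .pnn 0 1 1 (qsf 0 536870912 536870912 536870912 1) ndF3q0 ndF3q1 pcF1 cut_pm_011 Ext.none)

def k0_pm_011 : ∃ t, chk3 f_pm_011 t 1 1 1 = true :=
  ⟨(b (l 3) (b (l 3) (a (a (b (l 3) (a (b (l 3) (a (b (l 3) (l 6)) (l 3))) (l 3))) (l 3)) (l 3)))), by decide +kernel⟩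

theorem c_pm_011 : CertFX 0 536870912 536870912 536870912 1046898278 26843546 true true false .pnn 0 1 1
    ndF3q0 ndF3q1 pcF1 cut_pm_011 Ext.none :=
  certFX1 (fam := true) (s1 := true) (s2 := false) (a := 0) (b := 1) (c := 1) (cn := .pnn) (n1 := ndF3q0) (n2 := ndF3q1) (pc := pcF1) (cut := cut_pm_011) (xt := Ext.none) (P1 := 0) (W1 := 536870912) (P2 := 536870912) (W2 := 536870912) (P3 := 1046898278) (W3 := 26843546)
    rfl (fun _ => rfl) k0_pm_011

noncomputable def cut_pm_012 : Cut := Cut.of [[⟨0, 0, 0, 67108864⟩, ⟨1, 1, 0, 67108864⟩, ⟨2, 1, 0, 67108864⟩]]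

noncomputable def f_pm_012 : ℕ → ℕ → ℕ → ℕ → Bool := onCell 1073741824 536870912 536870912 536870912 1046898278 26843546
    (rowFX 2 true true false .pnp 0 1 2 (qsf 0 536870912 536870912 536870912 2) ndF3q0 ndF3q1 pcF2 cut_pm_012 Ext.none)

def k0_pm_012 : ∃ t, chk3 f_pm_012 t 1 2 1 = true :=
  ⟨(a (a (l 3) (a (a (a (l 3) (b (l 2) (a (c (l 16777216) (l 16777216)) (a (c (l 16777216) (l 16777216)) (a (c (l 16776104) (l 16776072)) (a (a (a (l 16776280) (a (l 16775800) (c (l 16775360) (l 16775312)))) (l 16775496)) (l 16775528))))))) (b (l 2) (l 16775984))) (b (l 2) (l 16777168)))) (b (l 2) (l 16777216))), by decide +kernel⟩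

def k1_pm_012 : ∃ t, chk3 f_pm_012 t 8 3 1 = true :=
  ⟨(b (l 3) (b (l 3) (b (l 3) (a (b (l 3) (l 6)) (b (b (l 3) (a (l 3) (a (l 3) (c (l 15456296) (l 15573328))))) (a (b (b (l 3) (l 6)) (l 6)) (a (a (b (c (l 15655616) (l 15707712)) (l 6)) (c (b (l 15565400) (l 15618840)) (b (l 15616024) (c (l 15603248) (l 15620344))))) (c (b (l 15445736) (a (l 15537240) (l 15457360))) (b (l 15305112) (c (l 15481216) (b (l 15488392) (l 15487472)))))))))))), by decide +kernel⟩

def k2_pm_012 : ∃ t, chk3 f_pm_012 t 9 3 1 = true :=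
  ⟨(b (a (l 3) (a (l 3) (b (l 3) (b (l 3) (c (l 16499976) (l 16369128)))))) (a (b (a (l 3) (l 3)) (a (a (b (l 3) (b (c (b (l 15367504) (l 15293768)) (l 15394296)) (c (b (l 15286184) (l 15328088)) (b (l 15329248) (c (l 15309120) (l 15322568)))))) (b (c (c (l 15405856) (l 15564424)) (l 15571736)) (c (b (b (l 15215704) (l 15131088)) (b (l 15118584) (l 15157640))) (b (l 15283472) (b (l 15157256) (c (l 15134560) (l 15145784))))))) (b (c (c (b (l 15470256) (l 15199576)) (b (l 15482480) (l 15267088))) (a (l 15432952) (l 15298176))) (c (b (a (l 15042416) (c (l 14877840) (l 14941040))) (a (b (l 14952984) (l 15004328)) (l 14847520))) (b (a (l 15132384) (l 15003520)) (b (a (l 14987248) (l 14850880)) (l 14912592))))))) (b (b (a (l 3) (c (l 15814984) (a (l 15923168) (l 15906120)))) (a (c (a (l 15602640) (l 15540704)) (a (l 15572744) (l 15509104))) (c (a (l 15488920) (l 15440336)) (a (l 15455904) (l 15405976))))) (a (b (c (a (b (l 15291680) (l 15051552)) (b (l 15231280) (l 14986344))) (a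 (b (l 15273560) (l 15087224)) (l 15079872))) (b (a (a (c (l 14829360) (l 14913576)) (c (l 14782264) (l 14865200))) (l 14763824)) (c (l 14704000) (b (l 14717344) (l 14659904))))) (b (b (c (a (l 15182624) (l 15134264)) (a (l 15161576) (l 15111912))) (a (c (l 14941072) (l 14973848)) (l 14904576))) (b (c (l 14675552) (l 14755800)) (c (l 14560352) (l 14503192)))))))), by decide +kernel⟩

def k3_pm_012 : ∃ t, chk3 f_pm_012 t 5 6 1 = true :=
  ⟨(b (a (a (a (c (l 16775728) (l 16775688)) (a (c (l 16775720) (l 16775688)) (a (c (l 16773592) (l 16773432)) (a (a (l 16772616) (b (l 16774664) (l 16764120))) (a (a (a (l 16765848) (l 16762496)) (l 16760712)) (l 16761032)))))) (l 16766952)) (l 16775088)) (a (a (a (a (b (l 16768040) (c (l 16583856) (l 16578832))) (b (l 16768032) (c (l 16583856) (l 16578832)))) (a (c (b (l 16767008) (a (l 16583288) (l 16580480))) (b (a (l 16767920) (l 16766864)) (a (l 16578248) (l 16428544)))) (a (b (a (l 16764728) (a (l 16760704) (l 16757288))) (l 16569264))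 (b (l 16747720) (a (l 16562904) (l 16559576)))))) (l 16484672)) (b (l 16766304) (l 16579632)))), by decide +kernel⟩

def k4_pm_012 : ∃ t, chk3 f_pm_012 t 5 7 1 = true :=
  ⟨(a (a (a (a (b (c (b (l 15922032) (l 15394480)) (b (l 15899824) (c (l 15367744) (l 15349920)))) (b (l 14783600) (b (l 14578376) (l 14376344)))) (b (b (c (l 15921928) (l 15878744)) (a (l 15343984) (l 15323192))) (b (l 14715728) (b (l 14495544) (l 14301144))))) (a (b (b (a (c (l 15918096) (l 15895760)) (l 15899128)) (l 15293016)) (b (c (l 14808936) (l 14817232)) (c (l 14334840) (b (l 14469816) (l 14233176))))) (b (a (b (l 15888096) (l 15256976)) (a (b (l 15882352) (l 15247232)) (b (l 15879688) (l 15243888)))) (b (a (l 14717480) (a (l 14673544) (c (l 14710040) (l 14715368)))) (a (b (l 14333992) (l 14022664)) (a (b (l 14313856) (c (l 14164456) (l 14054096))) (b (c (l 14306896) (l 14376584)) (a (a (a (l 14184544) (l 14209544)) (l 14221504)) (l 14213304))))))))) (b (b (l 15889232) (l 15255856)) (b (c (l 14664720)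 (l 14668720)) (b (c (l 14210576) (l 14277416)) (c (l 14067272) (b (l 14076776) (l 14008064))))))) (b (b (l 15907800) (l 15280464)) (b (c (l 14642216) (l 14645568)) (c (b (l 14093136) (l 13862272)) (b (l 14156360) (a (l 13869912) (l 13810240))))))), by decide +kernel⟩

def k5_pm_012 : ∃ t, chk3 f_pm_012 t 3 3 1 = true :=
  ⟨(b (b (l 16775704) (a (b (l 16768032) (l 16581336)) (l 16685864))) (b (a (b (l 15910368) (l 15284048)) (l 15453888)) (a (b (c (l 14646872) (l 14650384)) (c (l 13974584) (b (l 14150488) (l 13810152)))) (b (l 14638568) (l 13941680))))), by decide +kernel⟩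

theorem s6_pm_012 : ∃ t, chk3 f_pm_012 t 5 3 1 = true := ex3_b k3_pm_012 k4_pm_012

theorem s7_pm_012 : ∃ t, chk3 f_pm_012 t 4 3 1 = true := ex3_a k1_pm_012 k2_pm_012

theorem s8_pm_012 : ∃ t, chk3 f_pm_012 t 2 3 1 = true := ex3_a s7_pm_012 s6_pm_012

theorem s9_pm_012 : ∃ t, chk3 f_pm_012 t 1 3 1 = true := ex3_a s8_pm_012 k5_pm_012

theorem s10_pm_012 : ∃ t, chk3 f_pm_012 t 1 1 1 = true := ex3_b k0_pm_012 s9_pm_012

theorem c_pm_012 : CertFX 0 536870912 536870912 536870912 1046898278 26843546 true true false .pnp 0 1 2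
    ndF3q0 ndF3q1 pcF2 cut_pm_012 Ext.none :=
  certFX2 (fam := true) (s1 := true) (s2 := false) (a := 0) (b := 1) (c := 2) (cn := .pnp) (n1 := ndF3q0) (n2 := ndF3q1) (pc := pcF2) (cut := cut_pm_012) (xt := Ext.none) (P1 := 0) (W1 := 536870912) (P2 := 536870912) (W2 := 536870912) (P3 := 1046898278) (W3 := 26843546)
    rfl (fun _ => rfl) s10_pm_012

end Pool.Agent.Strip051.G.IE1.Tab.C.FA33

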