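import Pool.Agent.Strip051.G.IE1.AsmH
import Pool.Agent.Strip051.G.IE1.TrF15
import Pool.Agent.Strip051.G.IE1.TrF16
import Pool.Agent.Strip051.G.IE1.TrF17
import Pool.Agent.Strip051.G.IE1.TrF18

/-! # Rows from certificates (generated) -/

set_option linter.all false
set_option maxRecDepth 100000

namespace Pool.Agent.Strip051.G.IE1.Tab

open Pool.Agent.Strip051.PB Pool.Agent.StripNear Pool.Agent.Strip051.LC

theorem FA15_pp_001 {κ x : ℝ} (hκ : κ * h0 = kenE x) (hx : 39 / 40 ≤ x) (hx' : x < 1) :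
    TriA (DD x).cur (farD κ (h0 * x) (tbl tKF x) (tbl tL x)) 0 0 1 1 5 1 1 :=
  (sideF hx hx').farA (Or.inl rfl) (Or.inl rfl) fun y y' F r1 r2 =>
    farXA_cert (s1 := true) (s2 := true) rfl hκ (ka0 hκ hx hx') (xa0 hx) hx' (covF10 hx hx') (covF50 hx hx') (x1 hx) (x2 hx')
        Pool.Agent.Strip051.G.IE1.Tab.C.FA15.c_pp_001 noCut_VA noExt_VA F r1 r2 r1 r2

theorem FA15_pp_011 {κ x : ℝ} (hκ : κ * h0 = kenE x) (hx : 39 / 40 ≤ x) (hx' : x < 1) :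
    TriA (DD x).cur (farD κ (h0 * x) (tbl tKF x) (tbl tL x)) 0 1 1 1 5 1 1 :=
  (sideF hx hx').farA (Or.inl rfl) (Or.inl rfl) fun y y' F r1 r2 =>
    farXA_cert (s1 := true) (s2 := true) rfl hκ (ka0 hκ hx hx') (xa0 hx) hx' (covF10 hx hx') (covF51 hx hx') (x1 hx) (x2 hx')
        Pool.Agent.Strip051.G.IE1.Tab.C.FA15.c_pp_011 noCut_VA noExt_VA F r1 r2 r1 r2

theorem FA15_pp_012 {κ x : ℝ} (hκ : κ * h0 = kenE x) (hx : 39 / 40 ≤ x) (hx' : x < 1) :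
    TriA (DD x).cur (farD κ (h0 * x) (tbl tKF x) (tbl tL x)) 0 1 2 1 5 1 1 :=
  (sideF hx hx').farA (Or.inl rfl) (Or.inl rfl) fun y y' F r1 r2 =>
    farXA_cert (s1 := true) (s2 := true) rfl hκ (ka0 hκ hx hx') (xa0 hx) hx' (covF10 hx hx') (covF51 hx hx') (x1 hx) (x2 hx')
        Pool.Agent.Strip051.G.IE1.Tab.C.FA15.c_pp_012 noCut_VA noExt_VA F r1 r2 r1 r2

theorem FA15_pp_022 {κ x : ℝ} (hκ : κ * h0 = kenE x) (hx : 39 / 40 ≤ x) (hx' : x < 1) :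
    TriA (DD x).cur (farD κ (h0 * x) (tbl tKF x) (tbl tL x)) 0 2 2 1 5 1 1 :=
  (sideF hx hx').farA (Or.inl rfl) (Or.inl rfl) fun y y' F r1 r2 =>
    farXA_cert (s1 := true) (s2 := true) rfl hκ (ka0 hκ hx hx') (xa0 hx) hx' (covF10 hx hx') (covF52 hx hx') (x1 hx) (x2 hx')
        Pool.Agent.Strip051.G.IE1.Tab.C.FA15.c_pp_022 noCut_VA noExt_VA F r1 r2 r1 r2

theorem FA15_pp_023 {κ x : ℝ} (hκ : κ * h0 = kenE x) (hx : 39 / 40 ≤ x) (hx' : x < 1) :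
    TriA (DD x).cur (farD κ (h0 * x) (tbl tKF x) (tbl tL x)) 0 2 3 1 5 1 1 :=
  (sideF hx hx').farA (Or.inl rfl) (Or.inl rfl) fun y y' F r1 r2 =>
    farXA_cert (s1 := true) (s2 := true) rfl hκ (ka0 hκ hx hx') (xa0 hx) hx' (covF10 hx hx') (covF52 hx hx') (x1 hx) (x2 hx')
        Pool.Agent.Strip051.G.IE1.Tab.C.FA15.c_pp_023 noCut_VA noExt_VA F r1 r2 r1 r2

theorem FA15_pp_033 {κ x : ℝ} (hκ : κ * h0 = kenE x) (hx : 39 / 40 ≤ x) (hx' : x < 1) :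
    TriA (DD x).cur (farD κ (h0 * x) (tbl tKF x) (tbl tL x)) 0 3 3 1 5 1 1 :=
  (sideF hx hx').farA (Or.inl rfl) (Or.inl rfl) fun y y' F r1 r2 =>
    farXA_cert (s1 := true) (s2 := true) rfl hκ (ka0 hκ hx hx') (xa0 hx) hx' (covF10 hx hx') (covF53 hx hx') (x1 hx) (x2 hx')
        Pool.Agent.Strip051.G.IE1.Tab.C.FA15.c_pp_033 noCut_VA noExt_VA F r1 r2 r1 r2

theorem FA15_pp_101 {κ x : ℝ} (hκ : κ * h0 = kenE x) (hx : 39 / 40 ≤ x) (hx' : x < 1) :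
    TriA (DD x).cur (farD κ (h0 * x) (tbl tKF x) (tbl tL x)) 1 0 1 1 5 1 1 :=
  (sideF hx hx').farA (Or.inl rfl) (Or.inl rfl) fun y y' F r1 r2 =>
    farXA_cert (s1 := true) (s2 := true) rfl hκ (ka0 hκ hx hx') (xa0 hx) hx' (covF11 hx hx') (covF50 hx hx') (x1 hx) (x2 hx')
        Pool.Agent.Strip051.G.IE1.Tab.C.FA15.c_pp_101 noCut_VA noExt_VA F r1 r2 r1 r2

theorem FA15_pp_102 {κ x : ℝ} (hκ : κ * h0 = kenE x) (hx : 39 / 40 ≤ x) (hx' : x < 1) :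
    TriA (DD x).cur (farD κ (h0 * x) (tbl tKF x) (tbl tL x)) 1 0 2 1 5 1 1 :=
  (sideF hx hx').farA (Or.inl rfl) (Or.inl rfl) fun y y' F r1 r2 =>
    farXA_cert (s1 := true) (s2 := true) rfl hκ (ka0 hκ hx hx') (xa0 hx) hx' (covF11 hx hx') (covF50 hx hx') (x1 hx) (x2 hx')
        Pool.Agent.Strip051.G.IE1.Tab.C.FA15.c_pp_102 noCut_VA noExt_VA F r1 r2 r1 r2

theorem FA15_pp_112 {κ x : ℝ} (hκ : κ * h0 = kenE x) (hx : 39 / 40 ≤ x) (hx' : x < 1) :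
    TriA (DD x).cur (farD κ (h0 * x) (tbl tKF x) (tbl tL x)) 1 1 2 1 5 1 1 :=
  (sideF hx hx').farA (Or.inl rfl) (Or.inl rfl) fun y y' F r1 r2 =>
    farXA_cert (s1 := true) (s2 := true) rfl hκ (ka0 hκ hx hx') (xa0 hx) hx' (covF11 hx hx') (covF51 hx hx') (x1 hx) (x2 hx')
        Pool.Agent.Strip051.G.IE1.Tab.C.FA15.c_pp_112 noCut_VA noExt_VA F r1 r2 r1 r2

theorem FA15_pp_113 {κ x : ℝ} (hκ : κ * h0 = kenE x) (hx : 39 / 40 ≤ x) (hx' : x < 1) :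
    TriA (DD x).cur (farD κ (h0 * x) (tbl tKF x) (tbl tL x)) 1 1 3 1 5 1 1 :=
  (sideF hx hx').farA (Or.inl rfl) (Or.inl rfl) fun y y' F r1 r2 =>
    farXA_cert (s1 := true) (s2 := true) rfl hκ (ka0 hκ hx hx') (xa0 hx) hx' (covF11 hx hx') (covF51 hx hx') (x1 hx) (x2 hx')
        Pool.Agent.Strip051.G.IE1.Tab.C.FA15.c_pp_113 noCut_VA noExt_VA F r1 r2 r1 r2

theorem FA15_pp_123 {κ x : ℝ} (hκ : κ * h0 = kenE x) (hx : 39 / 40 ≤ x) (hx' : x < 1) :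
    TriA (DD x).cur (farD κ (h0 * x) (tbl tKF x) (tbl tL x)) 1 2 3 1 5 1 1 :=
  (sideF hx hx').farA (Or.inl rfl) (Or.inl rfl) fun y y' F r1 r2 =>
    farXA_cert (s1 := true) (s2 := true) rfl hκ (ka0 hκ hx hx') (xa0 hx) hx' (covF11 hx hx') (covF52 hx hx') (x1 hx) (x2 hx')
        Pool.Agent.Strip051.G.IE1.Tab.C.FA15.c_pp_123 noCut_VA noExt_VA F r1 r2 r1 r2

theorem FA15_pp_133 {κ x : ℝ} (hκ : κ * h0 = kenE x) (hx : 39 / 40 ≤ x) (hx' : x < 1) :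
    TriA (DD x).cur (farD κ (h0 * x) (tbl tKF x) (tbl tL x)) 1 3 3 1 5 1 1 :=
  (sideF hx hx').farA (Or.inl rfl) (Or.inl rfl) fun y y' F r1 r2 =>
    farXA_cert (s1 := true) (s2 := true) rfl hκ (ka0 hκ hx hx') (xa0 hx) hx' (covF11 hx hx') (covF53 hx hx') (x1 hx) (x2 hx')
        Pool.Agent.Strip051.G.IE1.Tab.C.FA15.c_pp_133 noCut_VA noExt_VA F r1 r2 r1 r2

theorem FA15_pp_202 {κ x : ℝ} (hκ : κ * h0 = kenE x) (hx : 39 / 40 ≤ x) (hx' : x < 1) :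
    TriA (DD x).cur (farD κ (h0 * x) (tbl tKF x) (tbl tL x)) 2 0 2 1 5 1 1 :=
  (sideF hx hx').farA (Or.inl rfl) (Or.inl rfl) fun y y' F r1 r2 =>
    (lt_or_ge (h0 * y) 1).elim
      (fun h => farXA_cert (s1 := true) (s2 := true) rfl hκ (ka0 hκ hx hx') (xa0 hx) hx' (covF12a hx hx') (covF50 hx hx') (x1 hx) (x2 hx')
        Pool.Agent.Strip051.G.IE1.Tab.C.FA15.c_pp_202_a noCut_VA noExt_VA F r1 r2 ⟨r1, h⟩ r2)
      (fun h => farXA_cert (s1 := true) (s2 := true) rfl hκ (ka0 hκ hx hx') (xa0 hx) hx' (covF12b hx hx') (covF50 hx hx') (x1 hx) (x2 hx')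
        Pool.Agent.Strip051.G.IE1.Tab.C.FA15.c_pp_202_b noCut_VA noExt_VA F r1 r2 ⟨r1, h⟩ r2)

theorem FA15_pp_203 {κ x : ℝ} (hκ : κ * h0 = kenE x) (hx : 39 / 40 ≤ x) (hx' : x < 1) :
    TriA (DD x).cur (farD κ (h0 * x) (tbl tKF x) (tbl tL x)) 2 0 3 1 5 1 1 :=
  (sideF hx hx').farA (Or.inl rfl) (Or.inl rfl) fun y y' F r1 r2 =>
    (lt_or_ge (h0 * y) 1).elim
      (fun h => farXA_cert (s1 := true) (s2 := true) rfl hκ (ka0 hκ hx hx') (xa0 hx) hx' (covF12a hx hx') (covF50 hx hx') (x1 hx) (x2 hx')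
        Pool.Agent.Strip051.G.IE1.Tab.C.FA15.c_pp_203_a noCut_VA noExt_VA F r1 r2 ⟨r1, h⟩ r2)
      (fun h => farXA_cert (s1 := true) (s2 := true) rfl hκ (ka0 hκ hx hx') (xa0 hx) hx' (covF12b hx hx') (covF50 hx hx') (x1 hx) (x2 hx')
        Pool.Agent.Strip051.G.IE1.Tab.C.FA15.c_pp_203_b noCut_VA noExt_VA F r1 r2 ⟨r1, h⟩ r2)

theorem FA15_pp_213 {κ x : ℝ} (hκ : κ * h0 = kenE x) (hx : 39 / 40 ≤ x) (hx' : x < 1) :
    TriA (DD x).cur (farD κ (h0 * x) (tbl tKF x) (tbl tL x)) 2 1 3 1 5 1 1 :=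
  (sideF hx hx').farA (Or.inl rfl) (Or.inl rfl) fun y y' F r1 r2 =>
    (lt_or_ge (h0 * y) 1).elim
      (fun h => farXA_cert (s1 := true) (s2 := true) rfl hκ (ka0 hκ hx hx') (xa0 hx) hx' (covF12a hx hx') (covF51 hx hx') (x1 hx) (x2 hx')
        Pool.Agent.Strip051.G.IE1.Tab.C.FA15.c_pp_213_a noCut_VA noExt_VA F r1 r2 ⟨r1, h⟩ r2)
      (fun h => farXA_cert (s1 := true) (s2 := true) rfl hκ (ka0 hκ hx hx') (xa0 hx) hx' (covF12b hx hx') (covF51 hx hx') (x1 hx) (x2 hx')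
        Pool.Agent.Strip051.G.IE1.Tab.C.FA15.c_pp_213_b noCut_VA noExt_VA F r1 r2 ⟨r1, h⟩ r2)

theorem FA15_pp_303 {κ x : ℝ} (hκ : κ * h0 = kenE x) (hx : 39 / 40 ≤ x) (hx' : x < 1) :
    TriA (DD x).cur (farD κ (h0 * x) (tbl tKF x) (tbl tL x)) 3 0 3 1 5 1 1 :=
  (sideF hx hx').farA (Or.inl rfl) (Or.inl rfl) fun y y' F r1 r2 =>
    farXA_cert (s1 := true) (s2 := true) rfl hκ (ka0 hκ hx hx') (xa0 hx) hx' (covF13 hx hx') (covF50 hx hx') (x1 hx) (x2 hx')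
        Pool.Agent.Strip051.G.IE1.Tab.C.FA15.c_pp_303 noCut_VA noExt_VA F r1 r2 r1 r2

theorem FA15_pp_313 {κ x : ℝ} (hκ : κ * h0 = kenE x) (hx : 39 / 40 ≤ x) (hx' : x < 1) :
    TriA (DD x).cur (farD κ (h0 * x) (tbl tKF x) (tbl tL x)) 3 1 3 1 5 1 1 :=
  (sideF hx hx').farA (Or.inl rfl) (Or.inl rfl) fun y y' F r1 r2 =>
    farXA_cert (s1 := true) (s2 := true) rfl hκ (ka0 hκ hx hx') (xa0 hx) hx' (covF13 hx hx') (covF51 hx hx') (x1 hx) (x2 hx')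
        Pool.Agent.Strip051.G.IE1.Tab.C.FA15.c_pp_313 noCut_VA noExt_VA F r1 r2 r1 r2

theorem FA15_pm_001 {κ x : ℝ} (hκ : κ * h0 = kenE x) (hx : 39 / 40 ≤ x) (hx' : x < 1) :
    TriA (DD x).cur (farD κ (h0 * x) (tbl tKF x) (tbl tL x)) 0 0 1 1 5 1 (-1) :=
  (sideF hx hx').farA (Or.inl rfl) (Or.inr rfl) fun y y' F r1 r2 =>
    farXA_cert (s1 := true) (s2 := false) rfl hκ (ka0 hκ hx hx') (xa0 hx) hx' (covF10 hx hx') (covF50 hx hx') (x1 hx) (x2 hx')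
        Pool.Agent.Strip051.G.IE1.Tab.C.FA15.c_pm_001 noCut_VA noExt_VA F r1 r2 r1 r2

theorem FA15_pm_011 {κ x : ℝ} (hκ : κ * h0 = kenE x) (hx : 39 / 40 ≤ x) (hx' : x < 1) :
    TriA (DD x).cur (farD κ (h0 * x) (tbl tKF x) (tbl tL x)) 0 1 1 1 5 1 (-1) :=
  (sideF hx hx').farA (Or.inl rfl) (Or.inr rfl) fun y y' F r1 r2 =>
    farXA_cert (s1 := true) (s2 := false) rfl hκ (ka0 hκ hx hx') (xa0 hx) hx' (covF10 hx hx') (covF51 hx hx') (x1 hx) (x2 hx')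
        Pool.Agent.Strip051.G.IE1.Tab.C.FA15.c_pm_011 noCut_VA noExt_VA F r1 r2 r1 r2

theorem FA15_pm_012 {κ x : ℝ} (hκ : κ * h0 = kenE x) (hx : 39 / 40 ≤ x) (hx' : x < 1) :
    TriA (DD x).cur (farD κ (h0 * x) (tbl tKF x) (tbl tL x)) 0 1 2 1 5 1 (-1) :=
  (sideF hx hx').farA (Or.inl rfl) (Or.inr rfl) fun y y' F r1 r2 =>
    farXA_cert (s1 := true) (s2 := false) rfl hκ (ka0 hκ hx hx') (xa0 hx) hx' (covF10 hx hx') (covF51 hx hx') (x1 hx) (x2 hx')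
        Pool.Agent.Strip051.G.IE1.Tab.C.FA15.c_pm_012 noCut_VA noExt_VA F r1 r2 r1 r2

theorem FA15_pm_022 {κ x : ℝ} (hκ : κ * h0 = kenE x) (hx : 39 / 40 ≤ x) (hx' : x < 1) :
    TriA (DD x).cur (farD κ (h0 * x) (tbl tKF x) (tbl tL x)) 0 2 2 1 5 1 (-1) :=
  (sideF hx hx').farA (Or.inl rfl) (Or.inr rfl) fun y y' F r1 r2 =>
    farXA_cert (s1 := true) (s2 := false) rfl hκ (ka0 hκ hx hx') (xa0 hx) hx' (covF10 hx hx') (covF52 hx hx') (x1 hx) (x2 hx')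
        Pool.Agent.Strip051.G.IE1.Tab.C.FA15.c_pm_022 noCut_VA noExt_VA F r1 r2 r1 r2

theorem FA15_pm_023 {κ x : ℝ} (hκ : κ * h0 = kenE x) (hx : 39 / 40 ≤ x) (hx' : x < 1) :
    TriA (DD x).cur (farD κ (h0 * x) (tbl tKF x) (tbl tL x)) 0 2 3 1 5 1 (-1) :=
  (sideF hx hx').farA (Or.inl rfl) (Or.inr rfl) fun y y' F r1 r2 =>
    farXA_cert (s1 := true) (s2 := false) rfl hκ (ka0 hκ hx hx') (xa0 hx) hx' (covF10 hx hx') (covF52 hx hx') (x1 hx) (x2 hx')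
        Pool.Agent.Strip051.G.IE1.Tab.C.FA15.c_pm_023 noCut_VA noExt_VA F r1 r2 r1 r2

theorem FA15_pm_033 {κ x : ℝ} (hκ : κ * h0 = kenE x) (hx : 39 / 40 ≤ x) (hx' : x < 1) :
    TriA (DD x).cur (farD κ (h0 * x) (tbl tKF x) (tbl tL x)) 0 3 3 1 5 1 (-1) :=
  (sideF hx hx').farA (Or.inl rfl) (Or.inr rfl) fun y y' F r1 r2 =>
    farXA_cert (s1 := true) (s2 := false) rfl hκ (ka0 hκ hx hx') (xa0 hx) hx' (covF10 hx hx') (covF53 hx hx') (x1 hx) (x2 hx')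
        Pool.Agent.Strip051.G.IE1.Tab.C.FA15.c_pm_033 noCut_VA noExt_VA F r1 r2 r1 r2

theorem FA15_pm_101 {κ x : ℝ} (hκ : κ * h0 = kenE x) (hx : 39 / 40 ≤ x) (hx' : x < 1) :
    TriA (DD x).cur (farD κ (h0 * x) (tbl tKF x) (tbl tL x)) 1 0 1 1 5 1 (-1) :=
  (sideF hx hx').farA (Or.inl rfl) (Or.inr rfl) fun y y' F r1 r2 =>
    farXA_cert (s1 := true) (s2 := false) rfl hκ (ka0 hκ hx hx') (xa0 hx) hx' (covF11 hx hx') (covF50 hx hx') (x1 hx) (x2 hx')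
        Pool.Agent.Strip051.G.IE1.Tab.C.FA15.c_pm_101 noCut_VA noExt_VA F r1 r2 r1 r2

theorem FA15_pm_102 {κ x : ℝ} (hκ : κ * h0 = kenE x) (hx : 39 / 40 ≤ x) (hx' : x < 1) :
    TriA (DD x).cur (farD κ (h0 * x) (tbl tKF x) (tbl tL x)) 1 0 2 1 5 1 (-1) :=
  (sideF hx hx').farA (Or.inl rfl) (Or.inr rfl) fun y y' F r1 r2 =>
    farXA_cert (s1 := true) (s2 := false) rfl hκ (ka0 hκ hx hx') (xa0 hx) hx' (covF11 hx hx') (covF50 hx hx') (x1 hx) (x2 hx')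
        Pool.Agent.Strip051.G.IE1.Tab.C.FA15.c_pm_102 noCut_VA noExt_VA F r1 r2 r1 r2

theorem FA15_pm_112 {κ x : ℝ} (hκ : κ * h0 = kenE x) (hx : 39 / 40 ≤ x) (hx' : x < 1) :
    TriA (DD x).cur (farD κ (h0 * x) (tbl tKF x) (tbl tL x)) 1 1 2 1 5 1 (-1) :=
  (sideF hx hx').farA (Or.inl rfl) (Or.inr rfl) fun y y' F r1 r2 =>
    farXA_cert (s1 := true) (s2 := false) rfl hκ (ka0 hκ hx hx') (xa0 hx) hx' (covF11 hx hx') (covF51 hx hx') (x1 hx) (x2 hx')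
        Pool.Agent.Strip051.G.IE1.Tab.C.FA15.c_pm_112 noCut_VA noExt_VA F r1 r2 r1 r2

theorem FA15_pm_113 {κ x : ℝ} (hκ : κ * h0 = kenE x) (hx : 39 / 40 ≤ x) (hx' : x < 1) :
    TriA (DD x).cur (farD κ (h0 * x) (tbl tKF x) (tbl tL x)) 1 1 3 1 5 1 (-1) :=
  (sideF hx hx').farA (Or.inl rfl) (Or.inr rfl) fun y y' F r1 r2 =>
    farXA_cert (s1 := true) (s2 := false) rfl hκ (ka0 hκ hx hx') (xa0 hx) hx' (covF11 hx hx') (covF51 hx hx') (x1 hx) (x2 hx')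
        Pool.Agent.Strip051.G.IE1.Tab.C.FA15.c_pm_113 noCut_VA noExt_VA F r1 r2 r1 r2

theorem FA15_pm_123 {κ x : ℝ} (hκ : κ * h0 = kenE x) (hx : 39 / 40 ≤ x) (hx' : x < 1) :
    TriA (DD x).cur (farD κ (h0 * x) (tbl tKF x) (tbl tL x)) 1 2 3 1 5 1 (-1) :=
  (sideF hx hx').farA (Or.inl rfl) (Or.inr rfl) fun y y' F r1 r2 =>
    farXA_cert (s1 := true) (s2 := false) rfl hκ (ka0 hκ hx hx') (xa0 hx) hx' (covF11 hx hx') (covF52 hx hx') (x1 hx) (x2 hx')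
        Pool.Agent.Strip051.G.IE1.Tab.C.FA15.c_pm_123 noCut_VA noExt_VA F r1 r2 r1 r2

theorem FA15_pm_133 {κ x : ℝ} (hκ : κ * h0 = kenE x) (hx : 39 / 40 ≤ x) (hx' : x < 1) :
    TriA (DD x).cur (farD κ (h0 * x) (tbl tKF x) (tbl tL x)) 1 3 3 1 5 1 (-1) :=
  (sideF hx hx').farA (Or.inl rfl) (Or.inr rfl) fun y y' F r1 r2 =>
    farXA_cert (s1 := true) (s2 := false) rfl hκ (ka0 hκ hx hx') (xa0 hx) hx' (covF11 hx hx') (covF53 hx hx') (x1 hx) (x2 hx')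
        Pool.Agent.Strip051.G.IE1.Tab.C.FA15.c_pm_133 noCut_VA noExt_VA F r1 r2 r1 r2

theorem FA15_pm_202 {κ x : ℝ} (hκ : κ * h0 = kenE x) (hx : 39 / 40 ≤ x) (hx' : x < 1) :
    TriA (DD x).cur (farD κ (h0 * x) (tbl tKF x) (tbl tL x)) 2 0 2 1 5 1 (-1) :=
  (sideF hx hx').farA (Or.inl rfl) (Or.inr rfl) fun y y' F r1 r2 =>
    (lt_or_ge (h0 * y) 1).elim
      (fun h => farXA_cert (s1 := true) (s2 := false) rfl hκ (ka0 hκ hx hx') (xa0 hx) hx' (covF12a hx hx') (covF50 hx hx') (x1 hx) (x2 hx')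
        Pool.Agent.Strip051.G.IE1.Tab.C.FA15.c_pm_202_a noCut_VA noExt_VA F r1 r2 ⟨r1, h⟩ r2)
      (fun h => farXA_cert (s1 := true) (s2 := false) rfl hκ (ka0 hκ hx hx') (xa0 hx) hx' (covF12b hx hx') (covF50 hx hx') (x1 hx) (x2 hx')
        Pool.Agent.Strip051.G.IE1.Tab.C.FA15.c_pm_202_b noCut_VA noExt_VA F r1 r2 ⟨r1, h⟩ r2)

theorem FA15_pm_203 {κ x : ℝ} (hκ : κ * h0 = kenE x) (hx : 39 / 40 ≤ x) (hx' : x < 1) :
    TriA (DD x).cur (farD κ (h0 * x) (tbl tKF x) (tbl tL x)) 2 0 3 1 5 1 (-1) :=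
  (sideF hx hx').farA (Or.inl rfl) (Or.inr rfl) fun y y' F r1 r2 =>
    (lt_or_ge (h0 * y) 1).elim
      (fun h => farXA_cert (s1 := true) (s2 := false) rfl hκ (ka0 hκ hx hx') (xa0 hx) hx' (covF12a hx hx') (covF50 hx hx') (x1 hx) (x2 hx')
        Pool.Agent.Strip051.G.IE1.Tab.C.FA15.c_pm_203_a noCut_VA noExt_VA F r1 r2 ⟨r1, h⟩ r2)
      (fun h => farXA_cert (s1 := true) (s2 := false) rfl hκ (ka0 hκ hx hx') (xa0 hx) hx' (covF12b hx hx') (covF50 hx hx') (x1 hx) (x2 hx')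
        Pool.Agent.Strip051.G.IE1.Tab.C.FA15.c_pm_203_b noCut_VA noExt_VA F r1 r2 ⟨r1, h⟩ r2)

theorem FA15_pm_213 {κ x : ℝ} (hκ : κ * h0 = kenE x) (hx : 39 / 40 ≤ x) (hx' : x < 1) :
    TriA (DD x).cur (farD κ (h0 * x) (tbl tKF x) (tbl tL x)) 2 1 3 1 5 1 (-1) :=
  (sideF hx hx').farA (Or.inl rfl) (Or.inr rfl) fun y y' F r1 r2 =>
    (lt_or_ge (h0 * y) 1).elim
      (fun h => farXA_cert (s1 := true) (s2 := false) rfl hκ (ka0 hκ hx hx') (xa0 hx) hx' (covF12a hx hx') (covF51 hx hx') (x1 hx) (x2 hx')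
        Pool.Agent.Strip051.G.IE1.Tab.C.FA15.c_pm_213_a noCut_VA noExt_VA F r1 r2 ⟨r1, h⟩ r2)
      (fun h => farXA_cert (s1 := true) (s2 := false) rfl hκ (ka0 hκ hx hx') (xa0 hx) hx' (covF12b hx hx') (covF51 hx hx') (x1 hx) (x2 hx')
        Pool.Agent.Strip051.G.IE1.Tab.C.FA15.c_pm_213_b noCut_VA noExt_VA F r1 r2 ⟨r1, h⟩ r2)

theorem FA15_pm_303 {κ x : ℝ} (hκ : κ * h0 = kenE x) (hx : 39 / 40 ≤ x) (hx' : x < 1) :
    TriA (DD x).cur (farD κ (h0 * x) (tbl tKF x) (tbl tL x)) 3 0 3 1 5 1 (-1) :=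
  (sideF hx hx').farA (Or.inl rfl) (Or.inr rfl) fun y y' F r1 r2 =>
    farXA_cert (s1 := true) (s2 := false) rfl hκ (ka0 hκ hx hx') (xa0 hx) hx' (covF13 hx hx') (covF50 hx hx') (x1 hx) (x2 hx')
        Pool.Agent.Strip051.G.IE1.Tab.C.FA15.c_pm_303 noCut_VA noExt_VA F r1 r2 r1 r2

theorem FA15_pm_313 {κ x : ℝ} (hκ : κ * h0 = kenE x) (hx : 39 / 40 ≤ x) (hx' : x < 1) :
    TriA (DD x).cur (farD κ (h0 * x) (tbl tKF x) (tbl tL x)) 3 1 3 1 5 1 (-1) :=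
  (sideF hx hx').farA (Or.inl rfl) (Or.inr rfl) fun y y' F r1 r2 =>
    farXA_cert (s1 := true) (s2 := false) rfl hκ (ka0 hκ hx hx') (xa0 hx) hx' (covF13 hx hx') (covF51 hx hx') (x1 hx) (x2 hx')
        Pool.Agent.Strip051.G.IE1.Tab.C.FA15.c_pm_313 noCut_VA noExt_VA F r1 r2 r1 r2

theorem FA15_mm_001 {κ x : ℝ} (hκ : κ * h0 = kenE x) (hx : 39 / 40 ≤ x) (hx' : x < 1) :
    TriA (DD x).cur (farD κ (h0 * x) (tbl tKF x) (tbl tL x)) 0 0 1 1 5 (-1) (-1) :=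
  (sideF hx hx').farA (Or.inr rfl) (Or.inr rfl) fun y y' F r1 r2 =>
    farXA_cert (s1 := false) (s2 := false) rfl hκ (ka0 hκ hx hx') (xa0 hx) hx' (covF10 hx hx') (covF50 hx hx') (x1 hx) (x2 hx')
        Pool.Agent.Strip051.G.IE1.Tab.C.FA15.c_mm_001 noCut_VA noExt_VA F r1 r2 r1 r2

theorem FA15_mm_011 {κ x : ℝ} (hκ : κ * h0 = kenE x) (hx : 39 / 40 ≤ x) (hx' : x < 1) :
    TriA (DD x).cur (farD κ (h0 * x) (tbl tKF x) (tbl tL x)) 0 1 1 1 5 (-1) (-1) :=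
  (sideF hx hx').farA (Or.inr rfl) (Or.inr rfl) fun y y' F r1 r2 =>
    farXA_cert (s1 := false) (s2 := false) rfl hκ (ka0 hκ hx hx') (xa0 hx) hx' (covF10 hx hx') (covF51 hx hx') (x1 hx) (x2 hx')
        Pool.Agent.Strip051.G.IE1.Tab.C.FA15.c_mm_011 noCut_VA noExt_VA F r1 r2 r1 r2

theorem FA15_mm_012 {κ x : ℝ} (hκ : κ * h0 = kenE x) (hx : 39 / 40 ≤ x) (hx' : x < 1) :
    TriA (DD x).cur (farD κ (h0 * x) (tbl tKF x) (tbl tL x)) 0 1 2 1 5 (-1) (-1) :=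
  (sideF hx hx').farA (Or.inr rfl) (Or.inr rfl) fun y y' F r1 r2 =>
    farXA_cert (s1 := false) (s2 := false) rfl hκ (ka0 hκ hx hx') (xa0 hx) hx' (covF10 hx hx') (covF51 hx hx') (x1 hx) (x2 hx')
        Pool.Agent.Strip051.G.IE1.Tab.C.FA15.c_mm_012 noCut_VA noExt_VA F r1 r2 r1 r2

theorem FA15_mm_022 {κ x : ℝ} (hκ : κ * h0 = kenE x) (hx : 39 / 40 ≤ x) (hx' : x < 1) :
    TriA (DD x).cur (farD κ (h0 * x) (tbl tKF x) (tbl tL x)) 0 2 2 1 5 (-1) (-1) :=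
  (sideF hx hx').farA (Or.inr rfl) (Or.inr rfl) fun y y' F r1 r2 =>
    farXA_cert (s1 := false) (s2 := false) rfl hκ (ka0 hκ hx hx') (xa0 hx) hx' (covF10 hx hx') (covF52 hx hx') (x1 hx) (x2 hx')
        Pool.Agent.Strip051.G.IE1.Tab.C.FA15.c_mm_022 noCut_VA noExt_VA F r1 r2 r1 r2

theorem FA15_mm_023 {κ x : ℝ} (hκ : κ * h0 = kenE x) (hx : 39 / 40 ≤ x) (hx' : x < 1) :
    TriA (DD x).cur (farD κ (h0 * x) (tbl tKF x) (tbl tL x)) 0 2 3 1 5 (-1) (-1) :=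
  (sideF hx hx').farA (Or.inr rfl) (Or.inr rfl) fun y y' F r1 r2 =>
    farXA_cert (s1 := false) (s2 := false) rfl hκ (ka0 hκ hx hx') (xa0 hx) hx' (covF10 hx hx') (covF52 hx hx') (x1 hx) (x2 hx')
        Pool.Agent.Strip051.G.IE1.Tab.C.FA15.c_mm_023 noCut_VA noExt_VA F r1 r2 r1 r2

theorem FA15_mm_033 {κ x : ℝ} (hκ : κ * h0 = kenE x) (hx : 39 / 40 ≤ x) (hx' : x < 1) :
    TriA (DD x).cur (farD κ (h0 * x) (tbl tKF x) (tbl tL x)) 0 3 3 1 5 (-1) (-1) :=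
  (sideF hx hx').farA (Or.inr rfl) (Or.inr rfl) fun y y' F r1 r2 =>
    farXA_cert (s1 := false) (s2 := false) rfl hκ (ka0 hκ hx hx') (xa0 hx) hx' (covF10 hx hx') (covF53 hx hx') (x1 hx) (x2 hx')
        Pool.Agent.Strip051.G.IE1.Tab.C.FA15.c_mm_033 noCut_VA noExt_VA F r1 r2 r1 r2

theorem FA15_mm_101 {κ x : ℝ} (hκ : κ * h0 = kenE x) (hx : 39 / 40 ≤ x) (hx' : x < 1) :
    TriA (DD x).cur (farD κ (h0 * x) (tbl tKF x) (tbl tL x)) 1 0 1 1 5 (-1) (-1) :=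
  (sideF hx hx').farA (Or.inr rfl) (Or.inr rfl) fun y y' F r1 r2 =>
    farXA_cert (s1 := false) (s2 := false) rfl hκ (ka0 hκ hx hx') (xa0 hx) hx' (covF11 hx hx') (covF50 hx hx') (x1 hx) (x2 hx')
        Pool.Agent.Strip051.G.IE1.Tab.C.FA15.c_mm_101 noCut_VA noExt_VA F r1 r2 r1 r2

theorem FA15_mm_102 {κ x : ℝ} (hκ : κ * h0 = kenE x) (hx : 39 / 40 ≤ x) (hx' : x < 1) :
    TriA (DD x).cur (farD κ (h0 * x) (tbl tKF x) (tbl tL x)) 1 0 2 1 5 (-1) (-1) :=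
  (sideF hx hx').farA (Or.inr rfl) (Or.inr rfl) fun y y' F r1 r2 =>
    farXA_cert (s1 := false) (s2 := false) rfl hκ (ka0 hκ hx hx') (xa0 hx) hx' (covF11 hx hx') (covF50 hx hx') (x1 hx) (x2 hx')
        Pool.Agent.Strip051.G.IE1.Tab.C.FA15.c_mm_102 noCut_VA noExt_VA F r1 r2 r1 r2

theorem FA15_mm_112 {κ x : ℝ} (hκ : κ * h0 = kenE x) (hx : 39 / 40 ≤ x) (hx' : x < 1) :
    TriA (DD x).cur (farD κ (h0 * x) (tbl tKF x) (tbl tL x)) 1 1 2 1 5 (-1) (-1) :=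
  (sideF hx hx').farA (Or.inr rfl) (Or.inr rfl) fun y y' F r1 r2 =>
    farXA_cert (s1 := false) (s2 := false) rfl hκ (ka0 hκ hx hx') (xa0 hx) hx' (covF11 hx hx') (covF51 hx hx') (x1 hx) (x2 hx')
        Pool.Agent.Strip051.G.IE1.Tab.C.FA15.c_mm_112 noCut_VA noExt_VA F r1 r2 r1 r2

theorem FA15_mm_113 {κ x : ℝ} (hκ : κ * h0 = kenE x) (hx : 39 / 40 ≤ x) (hx' : x < 1) :
    TriA (DD x).cur (farD κ (h0 * x) (tbl tKF x) (tbl tL x)) 1 1 3 1 5 (-1) (-1) :=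
  (sideF hx hx').farA (Or.inr rfl) (Or.inr rfl) fun y y' F r1 r2 =>
    farXA_cert (s1 := false) (s2 := false) rfl hκ (ka0 hκ hx hx') (xa0 hx) hx' (covF11 hx hx') (covF51 hx hx') (x1 hx) (x2 hx')
        Pool.Agent.Strip051.G.IE1.Tab.C.FA15.c_mm_113 noCut_VA noExt_VA F r1 r2 r1 r2

theorem FA15_mm_123 {κ x : ℝ} (hκ : κ * h0 = kenE x) (hx : 39 / 40 ≤ x) (hx' : x < 1) :
    TriA (DD x).cur (farD κ (h0 * x) (tbl tKF x) (tbl tL x)) 1 2 3 1 5 (-1) (-1) :=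
  (sideF hx hx').farA (Or.inr rfl) (Or.inr rfl) fun y y' F r1 r2 =>
    farXA_cert (s1 := false) (s2 := false) rfl hκ (ka0 hκ hx hx') (xa0 hx) hx' (covF11 hx hx') (covF52 hx hx') (x1 hx) (x2 hx')
        Pool.Agent.Strip051.G.IE1.Tab.C.FA15.c_mm_123 noCut_VA noExt_VA F r1 r2 r1 r2

theorem FA15_mm_133 {κ x : ℝ} (hκ : κ * h0 = kenE x) (hx : 39 / 40 ≤ x) (hx' : x < 1) :
    TriA (DD x).cur (farD κ (h0 * x) (tbl tKF x) (tbl tL x)) 1 3 3 1 5 (-1) (-1) :=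
  (sideF hx hx').farA (Or.inr rfl) (Or.inr rfl) fun y y' F r1 r2 =>
    farXA_cert (s1 := false) (s2 := false) rfl hκ (ka0 hκ hx hx') (xa0 hx) hx' (covF11 hx hx') (covF53 hx hx') (x1 hx) (x2 hx')
        Pool.Agent.Strip051.G.IE1.Tab.C.FA15.c_mm_133 noCut_VA noExt_VA F r1 r2 r1 r2

theorem FA15_mm_202 {κ x : ℝ} (hκ : κ * h0 = kenE x) (hx : 39 / 40 ≤ x) (hx' : x < 1) :
    TriA (DD x).cur (farD κ (h0 * x) (tbl tKF x) (tbl tL x)) 2 0 2 1 5 (-1) (-1) :=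
  (sideF hx hx').farA (Or.inr rfl) (Or.inr rfl) fun y y' F r1 r2 =>
    (lt_or_ge (h0 * y) 1).elim
      (fun h => farXA_cert (s1 := false) (s2 := false) rfl hκ (ka0 hκ hx hx') (xa0 hx) hx' (covF12a hx hx') (covF50 hx hx') (x1 hx) (x2 hx')
        Pool.Agent.Strip051.G.IE1.Tab.C.FA15.c_mm_202_a noCut_VA noExt_VA F r1 r2 ⟨r1, h⟩ r2)
      (fun h => farXA_cert (s1 := false) (s2 := false) rfl hκ (ka0 hκ hx hx') (xa0 hx) hx' (covF12b hx hx') (covF50 hx hx') (x1 hx) (x2 hx')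
        Pool.Agent.Strip051.G.IE1.Tab.C.FA15.c_mm_202_b noCut_VA noExt_VA F r1 r2 ⟨r1, h⟩ r2)

theorem FA15_mm_203 {κ x : ℝ} (hκ : κ * h0 = kenE x) (hx : 39 / 40 ≤ x) (hx' : x < 1) :
    TriA (DD x).cur (farD κ (h0 * x) (tbl tKF x) (tbl tL x)) 2 0 3 1 5 (-1) (-1) :=
  (sideF hx hx').farA (Or.inr rfl) (Or.inr rfl) fun y y' F r1 r2 =>
    (lt_or_ge (h0 * y) 1).elim
      (fun h => farXA_cert (s1 := false) (s2 := false) rfl hκ (ka0 hκ hx hx') (xa0 hx) hx' (covF12a hx hx') (covF50 hx hx') (x1 hx) (x2 hx')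
        Pool.Agent.Strip051.G.IE1.Tab.C.FA15.c_mm_203_a noCut_VA noExt_VA F r1 r2 ⟨r1, h⟩ r2)
      (fun h => farXA_cert (s1 := false) (s2 := false) rfl hκ (ka0 hκ hx hx') (xa0 hx) hx' (covF12b hx hx') (covF50 hx hx') (x1 hx) (x2 hx')
        Pool.Agent.Strip051.G.IE1.Tab.C.FA15.c_mm_203_b noCut_VA noExt_VA F r1 r2 ⟨r1, h⟩ r2)

theorem FA15_mm_213 {κ x : ℝ} (hκ : κ * h0 = kenE x) (hx : 39 / 40 ≤ x) (hx' : x < 1) :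
    TriA (DD x).cur (farD κ (h0 * x) (tbl tKF x) (tbl tL x)) 2 1 3 1 5 (-1) (-1) :=
  (sideF hx hx').farA (Or.inr rfl) (Or.inr rfl) fun y y' F r1 r2 =>
    (lt_or_ge (h0 * y) 1).elim
      (fun h => farXA_cert (s1 := false) (s2 := false) rfl hκ (ka0 hκ hx hx') (xa0 hx) hx' (covF12a hx hx') (covF51 hx hx') (x1 hx) (x2 hx')
        Pool.Agent.Strip051.G.IE1.Tab.C.FA15.c_mm_213_a noCut_VA noExt_VA F r1 r2 ⟨r1, h⟩ r2)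
      (fun h => farXA_cert (s1 := false) (s2 := false) rfl hκ (ka0 hκ hx hx') (xa0 hx) hx' (covF12b hx hx') (covF51 hx hx') (x1 hx) (x2 hx')
        Pool.Agent.Strip051.G.IE1.Tab.C.FA15.c_mm_213_b noCut_VA noExt_VA F r1 r2 ⟨r1, h⟩ r2)

theorem FA15_mm_303 {κ x : ℝ} (hκ : κ * h0 = kenE x) (hx : 39 / 40 ≤ x) (hx' : x < 1) :
    TriA (DD x).cur (farD κ (h0 * x) (tbl tKF x) (tbl tL x)) 3 0 3 1 5 (-1) (-1) :=
  (sideF hx hx').farA (Or.inr rfl) (Or.inr rfl) fun y y' F r1 r2 =>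
    farXA_cert (s1 := false) (s2 := false) rfl hκ (ka0 hκ hx hx') (xa0 hx) hx' (covF13 hx hx') (covF50 hx hx') (x1 hx) (x2 hx')
        Pool.Agent.Strip051.G.IE1.Tab.C.FA15.c_mm_303 noCut_VA noExt_VA F r1 r2 r1 r2

theorem FA15_mm_313 {κ x : ℝ} (hκ : κ * h0 = kenE x) (hx : 39 / 40 ≤ x) (hx' : x < 1) :
    TriA (DD x).cur (farD κ (h0 * x) (tbl tKF x) (tbl tL x)) 3 1 3 1 5 (-1) (-1) :=
  (sideF hx hx').farA (Or.inr rfl) (Or.inr rfl) fun y y' F r1 r2 =>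
    farXA_cert (s1 := false) (s2 := false) rfl hκ (ka0 hκ hx hx') (xa0 hx) hx' (covF13 hx hx') (covF51 hx hx') (x1 hx) (x2 hx')
        Pool.Agent.Strip051.G.IE1.Tab.C.FA15.c_mm_313 noCut_VA noExt_VA F r1 r2 r1 r2

theorem FA15 {κ x : ℝ} (hκ : κ * h0 = kenE x) (hx : 39 / 40 ≤ x) (hx' : x < 1) : AllTA (DD x).cur (farD κ (h0 * x) (tbl tKF x) (tbl tL x)) 1 5 where
  pp := all17 (Q := fun a b c => TriA (DD x).cur (farD κ (h0 * x) (tbl tKF x) (tbl tL x)) a b c 1 5 1 1)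
    (FA15_pp_001 hκ hx hx') (FA15_pp_011 hκ hx hx') (FA15_pp_012 hκ hx hx') (FA15_pp_022 hκ hx hx') (FA15_pp_023 hκ hx hx') (FA15_pp_033 hκ hx hx') (FA15_pp_101 hκ hx hx') (FA15_pp_102 hκ hx hx') (FA15_pp_112 hκ hx hx') (FA15_pp_113 hκ hx hx') (FA15_pp_123 hκ hx hx') (FA15_pp_133 hκ hx hx') (FA15_pp_202 hκ hx hx') (FA15_pp_203 hκ hx hx') (FA15_pp_213 hκ hx hx') (FA15_pp_303 hκ hx hx') (FA15_pp_313 hκ hx hx')
  pm := all17 (Q := fun a b c => TriA (DD x).cur (farD κ (h0 * x) (tbl tKF x) (tbl tL x)) a b c 1 5 1 (-1))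
    (FA15_pm_001 hκ hx hx') (FA15_pm_011 hκ hx hx') (FA15_pm_012 hκ hx hx') (FA15_pm_022 hκ hx hx') (FA15_pm_023 hκ hx hx') (FA15_pm_033 hκ hx hx') (FA15_pm_101 hκ hx hx') (FA15_pm_102 hκ hx hx') (FA15_pm_112 hκ hx hx') (FA15_pm_113 hκ hx hx') (FA15_pm_123 hκ hx hx') (FA15_pm_133 hκ hx hx') (FA15_pm_202 hκ hx hx') (FA15_pm_203 hκ hx hx') (FA15_pm_213 hκ hx hx') (FA15_pm_303 hκ hx hx') (FA15_pm_313 hκ hx hx')
  mm := all17 (Q := fun a b c => TriA (DD x).cur (farD κ (h0 * x) (tbl tKF x) (tbl tL x)) a b c 1 5 (-1) (-1))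
    (FA15_mm_001 hκ hx hx') (FA15_mm_011 hκ hx hx') (FA15_mm_012 hκ hx hx') (FA15_mm_022 hκ hx hx') (FA15_mm_023 hκ hx hx') (FA15_mm_033 hκ hx hx') (FA15_mm_101 hκ hx hx') (FA15_mm_102 hκ hx hx') (FA15_mm_112 hκ hx hx') (FA15_mm_113 hκ hx hx') (FA15_mm_123 hκ hx hx') (FA15_mm_133 hκ hx hx') (FA15_mm_202 hκ hx hx') (FA15_mm_203 hκ hx hx') (FA15_mm_213 hκ hx hx') (FA15_mm_303 hκ hx hx') (FA15_mm_313 hκ hx hx')

theorem FA16_pp_001 {κ x : ℝ} (hκ : κ * h0 = kenE x) (hx : 39 / 40 ≤ x) (hx' : x < 1) :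
    TriA (DD x).cur (farD κ (h0 * x) (tbl tKF x) (tbl tL x)) 0 0 1 1 6 1 1 :=
  (sideF hx hx').farA (Or.inl rfl) (Or.inl rfl) fun y y' F r1 r2 =>
    farXA_cert (s1 := true) (s2 := true) rfl hκ (ka0 hκ hx hx') (xa0 hx) hx' (covF10 hx hx') (covF60 hx hx') (x1 hx) (x2 hx')
        Pool.Agent.Strip051.G.IE1.Tab.C.FA16.c_pp_001 noCut_VA noExt_VA F r1 r2 r1 r2

theorem FA16_pp_011 {κ x : ℝ} (hκ : κ * h0 = kenE x) (hx : 39 / 40 ≤ x) (hx' : x < 1) :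
    TriA (DD x).cur (farD κ (h0 * x) (tbl tKF x) (tbl tL x)) 0 1 1 1 6 1 1 :=
  (sideF hx hx').farA (Or.inl rfl) (Or.inl rfl) fun y y' F r1 r2 =>
    farXA_cert (s1 := true) (s2 := true) rfl hκ (ka0 hκ hx hx') (xa0 hx) hx' (covF10 hx hx') (covF61 hx hx') (x1 hx) (x2 hx')
        Pool.Agent.Strip051.G.IE1.Tab.C.FA16.c_pp_011 noCut_VA noExt_VA F r1 r2 r1 r2

theorem FA16_pp_012 {κ x : ℝ} (hκ : κ * h0 = kenE x) (hx : 39 / 40 ≤ x) (hx' : x < 1) :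
    TriA (DD x).cur (farD κ (h0 * x) (tbl tKF x) (tbl tL x)) 0 1 2 1 6 1 1 :=
  (sideF hx hx').farA (Or.inl rfl) (Or.inl rfl) fun y y' F r1 r2 =>
    farXA_cert (s1 := true) (s2 := true) rfl hκ (ka0 hκ hx hx') (xa0 hx) hx' (covF10 hx hx') (covF61 hx hx') (x1 hx) (x2 hx')
        Pool.Agent.Strip051.G.IE1.Tab.C.FA16.c_pp_012 noCut_VA noExt_VA F r1 r2 r1 r2

theorem FA16_pp_022 {κ x : ℝ} (hκ : κ * h0 = kenE x) (hx : 39 / 40 ≤ x) (hx' : x < 1) :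
    TriA (DD x).cur (farD κ (h0 * x) (tbl tKF x) (tbl tL x)) 0 2 2 1 6 1 1 :=
  (sideF hx hx').farA (Or.inl rfl) (Or.inl rfl) fun y y' F r1 r2 =>
    farXA_cert (s1 := true) (s2 := true) rfl hκ (ka0 hκ hx hx') (xa0 hx) hx' (covF10 hx hx') (covF62 hx hx') (x1 hx) (x2 hx')
        Pool.Agent.Strip051.G.IE1.Tab.C.FA16.c_pp_022 noCut_VA noExt_VA F r1 r2 r1 r2

theorem FA16_pp_023 {κ x : ℝ} (hκ : κ * h0 = kenE x) (hx : 39 / 40 ≤ x) (hx' : x < 1) :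
    TriA (DD x).cur (farD κ (h0 * x) (tbl tKF x) (tbl tL x)) 0 2 3 1 6 1 1 :=
  (sideF hx hx').farA (Or.inl rfl) (Or.inl rfl) fun y y' F r1 r2 =>
    farXA_cert (s1 := true) (s2 := true) rfl hκ (ka0 hκ hx hx') (xa0 hx) hx' (covF10 hx hx') (covF62 hx hx') (x1 hx) (x2 hx')
        Pool.Agent.Strip051.G.IE1.Tab.C.FA16.c_pp_023 noCut_VA noExt_VA F r1 r2 r1 r2

theorem FA16_pp_033 {κ x : ℝ} (hκ : κ * h0 = kenE x) (hx : 39 / 40 ≤ x) (hx' : x < 1) :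
    TriA (DD x).cur (farD κ (h0 * x) (tbl tKF x) (tbl tL x)) 0 3 3 1 6 1 1 :=
  (sideF hx hx').farA (Or.inl rfl) (Or.inl rfl) fun y y' F r1 r2 =>
    farXA_cert (s1 := true) (s2 := true) rfl hκ (ka0 hκ hx hx') (xa0 hx) hx' (covF10 hx hx') (covF63 hx hx') (x1 hx) (x2 hx')
        Pool.Agent.Strip051.G.IE1.Tab.C.FA16.c_pp_033 noCut_VA noExt_VA F r1 r2 r1 r2

theorem FA16_pp_101 {κ x : ℝ} (hκ : κ * h0 = kenE x) (hx : 39 / 40 ≤ x) (hx' : x < 1) :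
    TriA (DD x).cur (farD κ (h0 * x) (tbl tKF x) (tbl tL x)) 1 0 1 1 6 1 1 :=
  (sideF hx hx').farA (Or.inl rfl) (Or.inl rfl) fun y y' F r1 r2 =>
    farXA_cert (s1 := true) (s2 := true) rfl hκ (ka0 hκ hx hx') (xa0 hx) hx' (covF11 hx hx') (covF60 hx hx') (x1 hx) (x2 hx')
        Pool.Agent.Strip051.G.IE1.Tab.C.FA16.c_pp_101 noCut_VA noExt_VA F r1 r2 r1 r2

theorem FA16_pp_102 {κ x : ℝ} (hκ : κ * h0 = kenE x) (hx : 39 / 40 ≤ x) (hx' : x < 1) :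
    TriA (DD x).cur (farD κ (h0 * x) (tbl tKF x) (tbl tL x)) 1 0 2 1 6 1 1 :=
  (sideF hx hx').farA (Or.inl rfl) (Or.inl rfl) fun y y' F r1 r2 =>
    farXA_cert (s1 := true) (s2 := true) rfl hκ (ka0 hκ hx hx') (xa0 hx) hx' (covF11 hx hx') (covF60 hx hx') (x1 hx) (x2 hx')
        Pool.Agent.Strip051.G.IE1.Tab.C.FA16.c_pp_102 noCut_VA noExt_VA F r1 r2 r1 r2

theorem FA16_pp_112 {κ x : ℝ} (hκ : κ * h0 = kenE x) (hx : 39 / 40 ≤ x) (hx' : x < 1) :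
    TriA (DD x).cur (farD κ (h0 * x) (tbl tKF x) (tbl tL x)) 1 1 2 1 6 1 1 :=
  (sideF hx hx').farA (Or.inl rfl) (Or.inl rfl) fun y y' F r1 r2 =>
    farXA_cert (s1 := true) (s2 := true) rfl hκ (ka0 hκ hx hx') (xa0 hx) hx' (covF11 hx hx') (covF61 hx hx') (x1 hx) (x2 hx')
        Pool.Agent.Strip051.G.IE1.Tab.C.FA16.c_pp_112 noCut_VA noExt_VA F r1 r2 r1 r2

theorem FA16_pp_113 {κ x : ℝ} (hκ : κ * h0 = kenE x) (hx : 39 / 40 ≤ x) (hx' : x < 1) :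
    TriA (DD x).cur (farD κ (h0 * x) (tbl tKF x) (tbl tL x)) 1 1 3 1 6 1 1 :=
  (sideF hx hx').farA (Or.inl rfl) (Or.inl rfl) fun y y' F r1 r2 =>
    farXA_cert (s1 := true) (s2 := true) rfl hκ (ka0 hκ hx hx') (xa0 hx) hx' (covF11 hx hx') (covF61 hx hx') (x1 hx) (x2 hx')
        Pool.Agent.Strip051.G.IE1.Tab.C.FA16.c_pp_113 noCut_VA noExt_VA F r1 r2 r1 r2

theorem FA16_pp_123 {κ x : ℝ} (hκ : κ * h0 = kenE x) (hx : 39 / 40 ≤ x) (hx' : x < 1) :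
    TriA (DD x).cur (farD κ (h0 * x) (tbl tKF x) (tbl tL x)) 1 2 3 1 6 1 1 :=
  (sideF hx hx').farA (Or.inl rfl) (Or.inl rfl) fun y y' F r1 r2 =>
    farXA_cert (s1 := true) (s2 := true) rfl hκ (ka0 hκ hx hx') (xa0 hx) hx' (covF11 hx hx') (covF62 hx hx') (x1 hx) (x2 hx')
        Pool.Agent.Strip051.G.IE1.Tab.C.FA16.c_pp_123 noCut_VA noExt_VA F r1 r2 r1 r2

theorem FA16_pp_133 {κ x : ℝ} (hκ : κ * h0 = kenE x) (hx : 39 / 40 ≤ x) (hx' : x < 1) :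
    TriA (DD x).cur (farD κ (h0 * x) (tbl tKF x) (tbl tL x)) 1 3 3 1 6 1 1 :=
  (sideF hx hx').farA (Or.inl rfl) (Or.inl rfl) fun y y' F r1 r2 =>
    farXA_cert (s1 := true) (s2 := true) rfl hκ (ka0 hκ hx hx') (xa0 hx) hx' (covF11 hx hx') (covF63 hx hx') (x1 hx) (x2 hx')
        Pool.Agent.Strip051.G.IE1.Tab.C.FA16.c_pp_133 noCut_VA noExt_VA F r1 r2 r1 r2

theorem FA16_pp_202 {κ x : ℝ} (hκ : κ * h0 = kenE x) (hx : 39 / 40 ≤ x) (hx' : x < 1) :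
    TriA (DD x).cur (farD κ (h0 * x) (tbl tKF x) (tbl tL x)) 2 0 2 1 6 1 1 :=
  (sideF hx hx').farA (Or.inl rfl) (Or.inl rfl) fun y y' F r1 r2 =>
    (lt_or_ge (h0 * y) 1).elim
      (fun h => farXA_cert (s1 := true) (s2 := true) rfl hκ (ka0 hκ hx hx') (xa0 hx) hx' (covF12a hx hx') (covF60 hx hx') (x1 hx) (x2 hx')
        Pool.Agent.Strip051.G.IE1.Tab.C.FA16.c_pp_202_a noCut_VA noExt_VA F r1 r2 ⟨r1, h⟩ r2)
      (fun h => farXA_cert (s1 := true) (s2 := true) rfl hκ (ka0 hκ hx hx') (xa0 hx) hx' (covF12b hx hx') (covF60 hx hx') (x1 hx) (x2 hx')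
        Pool.Agent.Strip051.G.IE1.Tab.C.FA16.c_pp_202_b noCut_VA noExt_VA F r1 r2 ⟨r1, h⟩ r2)

theorem FA16_pp_203 {κ x : ℝ} (hκ : κ * h0 = kenE x) (hx : 39 / 40 ≤ x) (hx' : x < 1) :
    TriA (DD x).cur (farD κ (h0 * x) (tbl tKF x) (tbl tL x)) 2 0 3 1 6 1 1 :=
  (sideF hx hx').farA (Or.inl rfl) (Or.inl rfl) fun y y' F r1 r2 =>
    (lt_or_ge (h0 * y) 1).elim
      (fun h => farXA_cert (s1 := true) (s2 := true) rfl hκ (ka0 hκ hx hx') (xa0 hx) hx' (covF12a hx hx') (covF60 hx hx') (x1 hx) (x2 hx')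
        Pool.Agent.Strip051.G.IE1.Tab.C.FA16.c_pp_203_a noCut_VA noExt_VA F r1 r2 ⟨r1, h⟩ r2)
      (fun h => farXA_cert (s1 := true) (s2 := true) rfl hκ (ka0 hκ hx hx') (xa0 hx) hx' (covF12b hx hx') (covF60 hx hx') (x1 hx) (x2 hx')
        Pool.Agent.Strip051.G.IE1.Tab.C.FA16.c_pp_203_b noCut_VA noExt_VA F r1 r2 ⟨r1, h⟩ r2)

theorem FA16_pp_213 {κ x : ℝ} (hκ : κ * h0 = kenE x) (hx : 39 / 40 ≤ x) (hx' : x < 1) :
    TriA (DD x).cur (farD κ (h0 * x) (tbl tKF x) (tbl tL x)) 2 1 3 1 6 1 1 :=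
  (sideF hx hx').farA (Or.inl rfl) (Or.inl rfl) fun y y' F r1 r2 =>
    (lt_or_ge (h0 * y) 1).elim
      (fun h => farXA_cert (s1 := true) (s2 := true) rfl hκ (ka0 hκ hx hx') (xa0 hx) hx' (covF12a hx hx') (covF61 hx hx') (x1 hx) (x2 hx')
        Pool.Agent.Strip051.G.IE1.Tab.C.FA16.c_pp_213_a noCut_VA noExt_VA F r1 r2 ⟨r1, h⟩ r2)
      (fun h => farXA_cert (s1 := true) (s2 := true) rfl hκ (ka0 hκ hx hx') (xa0 hx) hx' (covF12b hx hx') (covF61 hx hx') (x1 hx) (x2 hx')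
        Pool.Agent.Strip051.G.IE1.Tab.C.FA16.c_pp_213_b noCut_VA noExt_VA F r1 r2 ⟨r1, h⟩ r2)

theorem FA16_pp_303 {κ x : ℝ} (hκ : κ * h0 = kenE x) (hx : 39 / 40 ≤ x) (hx' : x < 1) :
    TriA (DD x).cur (farD κ (h0 * x) (tbl tKF x) (tbl tL x)) 3 0 3 1 6 1 1 :=
  (sideF hx hx').farA (Or.inl rfl) (Or.inl rfl) fun y y' F r1 r2 =>
    farXA_cert (s1 := true) (s2 := true) rfl hκ (ka0 hκ hx hx') (xa0 hx) hx' (covF13 hx hx') (covF60 hx hx') (x1 hx) (x2 hx')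
        Pool.Agent.Strip051.G.IE1.Tab.C.FA16.c_pp_303 noCut_VA noExt_VA F r1 r2 r1 r2

theorem FA16_pp_313 {κ x : ℝ} (hκ : κ * h0 = kenE x) (hx : 39 / 40 ≤ x) (hx' : x < 1) :
    TriA (DD x).cur (farD κ (h0 * x) (tbl tKF x) (tbl tL x)) 3 1 3 1 6 1 1 :=
  (sideF hx hx').farA (Or.inl rfl) (Or.inl rfl) fun y y' F r1 r2 =>
    farXA_cert (s1 := true) (s2 := true) rfl hκ (ka0 hκ hx hx') (xa0 hx) hx' (covF13 hx hx') (covF61 hx hx') (x1 hx) (x2 hx')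
        Pool.Agent.Strip051.G.IE1.Tab.C.FA16.c_pp_313 noCut_VA noExt_VA F r1 r2 r1 r2

theorem FA16_pm_001 {κ x : ℝ} (hκ : κ * h0 = kenE x) (hx : 39 / 40 ≤ x) (hx' : x < 1) :
    TriA (DD x).cur (farD κ (h0 * x) (tbl tKF x) (tbl tL x)) 0 0 1 1 6 1 (-1) :=
  (sideF hx hx').farA (Or.inl rfl) (Or.inr rfl) fun y y' F r1 r2 =>
    farXA_cert (s1 := true) (s2 := false) rfl hκ (ka0 hκ hx hx') (xa0 hx) hx' (covF10 hx hx') (covF60 hx hx') (x1 hx) (x2 hx')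
        Pool.Agent.Strip051.G.IE1.Tab.C.FA16.c_pm_001 noCut_VA noExt_VA F r1 r2 r1 r2

theorem FA16_pm_011 {κ x : ℝ} (hκ : κ * h0 = kenE x) (hx : 39 / 40 ≤ x) (hx' : x < 1) :
    TriA (DD x).cur (farD κ (h0 * x) (tbl tKF x) (tbl tL x)) 0 1 1 1 6 1 (-1) :=
  (sideF hx hx').farA (Or.inl rfl) (Or.inr rfl) fun y y' F r1 r2 =>
    farXA_cert (s1 := true) (s2 := false) rfl hκ (ka0 hκ hx hx') (xa0 hx) hx' (covF10 hx hx') (covF61 hx hx') (x1 hx) (x2 hx')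
        Pool.Agent.Strip051.G.IE1.Tab.C.FA16.c_pm_011 noCut_VA noExt_VA F r1 r2 r1 r2

theorem FA16_pm_012 {κ x : ℝ} (hκ : κ * h0 = kenE x) (hx : 39 / 40 ≤ x) (hx' : x < 1) :
    TriA (DD x).cur (farD κ (h0 * x) (tbl tKF x) (tbl tL x)) 0 1 2 1 6 1 (-1) :=
  (sideF hx hx').farA (Or.inl rfl) (Or.inr rfl) fun y y' F r1 r2 =>
    farXA_cert (s1 := true) (s2 := false) rfl hκ (ka0 hκ hx hx') (xa0 hx) hx' (covF10 hx hx') (covF61 hx hx') (x1 hx) (x2 hx')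
        Pool.Agent.Strip051.G.IE1.Tab.C.FA16.c_pm_012 noCut_VA noExt_VA F r1 r2 r1 r2

theorem FA16_pm_022 {κ x : ℝ} (hκ : κ * h0 = kenE x) (hx : 39 / 40 ≤ x) (hx' : x < 1) :
    TriA (DD x).cur (farD κ (h0 * x) (tbl tKF x) (tbl tL x)) 0 2 2 1 6 1 (-1) :=
  (sideF hx hx').farA (Or.inl rfl) (Or.inr rfl) fun y y' F r1 r2 =>
    farXA_cert (s1 := true) (s2 := false) rfl hκ (ka0 hκ hx hx') (xa0 hx) hx' (covF10 hx hx') (covF62 hx hx') (x1 hx) (x2 hx')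
        Pool.Agent.Strip051.G.IE1.Tab.C.FA16.c_pm_022 noCut_VA noExt_VA F r1 r2 r1 r2

theorem FA16_pm_023 {κ x : ℝ} (hκ : κ * h0 = kenE x) (hx : 39 / 40 ≤ x) (hx' : x < 1) :
    TriA (DD x).cur (farD κ (h0 * x) (tbl tKF x) (tbl tL x)) 0 2 3 1 6 1 (-1) :=
  (sideF hx hx').farA (Or.inl rfl) (Or.inr rfl) fun y y' F r1 r2 =>
    farXA_cert (s1 := true) (s2 := false) rfl hκ (ka0 hκ hx hx') (xa0 hx) hx' (covF10 hx hx') (covF62 hx hx') (x1 hx) (x2 hx')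
        Pool.Agent.Strip051.G.IE1.Tab.C.FA16.c_pm_023 noCut_VA noExt_VA F r1 r2 r1 r2

theorem FA16_pm_033 {κ x : ℝ} (hκ : κ * h0 = kenE x) (hx : 39 / 40 ≤ x) (hx' : x < 1) :
    TriA (DD x).cur (farD κ (h0 * x) (tbl tKF x) (tbl tL x)) 0 3 3 1 6 1 (-1) :=
  (sideF hx hx').farA (Or.inl rfl) (Or.inr rfl) fun y y' F r1 r2 =>
    farXA_cert (s1 := true) (s2 := false) rfl hκ (ka0 hκ hx hx') (xa0 hx) hx' (covF10 hx hx') (covF63 hx hx') (x1 hx) (x2 hx')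
        Pool.Agent.Strip051.G.IE1.Tab.C.FA16.c_pm_033 noCut_VA noExt_VA F r1 r2 r1 r2

theorem FA16_pm_101 {κ x : ℝ} (hκ : κ * h0 = kenE x) (hx : 39 / 40 ≤ x) (hx' : x < 1) :
    TriA (DD x).cur (farD κ (h0 * x) (tbl tKF x) (tbl tL x)) 1 0 1 1 6 1 (-1) :=
  (sideF hx hx').farA (Or.inl rfl) (Or.inr rfl) fun y y' F r1 r2 =>
    farXA_cert (s1 := true) (s2 := false) rfl hκ (ka0 hκ hx hx') (xa0 hx) hx' (covF11 hx hx') (covF60 hx hx') (x1 hx) (x2 hx')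
        Pool.Agent.Strip051.G.IE1.Tab.C.FA16.c_pm_101 noCut_VA noExt_VA F r1 r2 r1 r2

theorem FA16_pm_102 {κ x : ℝ} (hκ : κ * h0 = kenE x) (hx : 39 / 40 ≤ x) (hx' : x < 1) :
    TriA (DD x).cur (farD κ (h0 * x) (tbl tKF x) (tbl tL x)) 1 0 2 1 6 1 (-1) :=
  (sideF hx hx').farA (Or.inl rfl) (Or.inr rfl) fun y y' F r1 r2 =>
    farXA_cert (s1 := true) (s2 := false) rfl hκ (ka0 hκ hx hx') (xa0 hx) hx' (covF11 hx hx') (covF60 hx hx') (x1 hx) (x2 hx')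
        Pool.Agent.Strip051.G.IE1.Tab.C.FA16.c_pm_102 noCut_VA noExt_VA F r1 r2 r1 r2

theorem FA16_pm_112 {κ x : ℝ} (hκ : κ * h0 = kenE x) (hx : 39 / 40 ≤ x) (hx' : x < 1) :
    TriA (DD x).cur (farD κ (h0 * x) (tbl tKF x) (tbl tL x)) 1 1 2 1 6 1 (-1) :=
  (sideF hx hx').farA (Or.inl rfl) (Or.inr rfl) fun y y' F r1 r2 =>
    farXA_cert (s1 := true) (s2 := false) rfl hκ (ka0 hκ hx hx') (xa0 hx) hx' (covF11 hx hx') (covF61 hx hx') (x1 hx) (x2 hx')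
        Pool.Agent.Strip051.G.IE1.Tab.C.FA16.c_pm_112 noCut_VA noExt_VA F r1 r2 r1 r2

theorem FA16_pm_113 {κ x : ℝ} (hκ : κ * h0 = kenE x) (hx : 39 / 40 ≤ x) (hx' : x < 1) :
    TriA (DD x).cur (farD κ (h0 * x) (tbl tKF x) (tbl tL x)) 1 1 3 1 6 1 (-1) :=
  (sideF hx hx').farA (Or.inl rfl) (Or.inr rfl) fun y y' F r1 r2 =>
    farXA_cert (s1 := true) (s2 := false) rfl hκ (ka0 hκ hx hx') (xa0 hx) hx' (covF11 hx hx') (covF61 hx hx') (x1 hx) (x2 hx')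
        Pool.Agent.Strip051.G.IE1.Tab.C.FA16.c_pm_113 noCut_VA noExt_VA F r1 r2 r1 r2

theorem FA16_pm_123 {κ x : ℝ} (hκ : κ * h0 = kenE x) (hx : 39 / 40 ≤ x) (hx' : x < 1) :
    TriA (DD x).cur (farD κ (h0 * x) (tbl tKF x) (tbl tL x)) 1 2 3 1 6 1 (-1) :=
  (sideF hx hx').farA (Or.inl rfl) (Or.inr rfl) fun y y' F r1 r2 =>
    farXA_cert (s1 := true) (s2 := false) rfl hκ (ka0 hκ hx hx') (xa0 hx) hx' (covF11 hx hx') (covF62 hx hx') (x1 hx) (x2 hx')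
        Pool.Agent.Strip051.G.IE1.Tab.C.FA16.c_pm_123 noCut_VA noExt_VA F r1 r2 r1 r2

theorem FA16_pm_133 {κ x : ℝ} (hκ : κ * h0 = kenE x) (hx : 39 / 40 ≤ x) (hx' : x < 1) :
    TriA (DD x).cur (farD κ (h0 * x) (tbl tKF x) (tbl tL x)) 1 3 3 1 6 1 (-1) :=
  (sideF hx hx').farA (Or.inl rfl) (Or.inr rfl) fun y y' F r1 r2 =>
    farXA_cert (s1 := true) (s2 := false) rfl hκ (ka0 hκ hx hx') (xa0 hx) hx' (covF11 hx hx') (covF63 hx hx') (x1 hx) (x2 hx')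
        Pool.Agent.Strip051.G.IE1.Tab.C.FA16.c_pm_133 noCut_VA noExt_VA F r1 r2 r1 r2

theorem FA16_pm_202 {κ x : ℝ} (hκ : κ * h0 = kenE x) (hx : 39 / 40 ≤ x) (hx' : x < 1) :
    TriA (DD x).cur (farD κ (h0 * x) (tbl tKF x) (tbl tL x)) 2 0 2 1 6 1 (-1) :=
  (sideF hx hx').farA (Or.inl rfl) (Or.inr rfl) fun y y' F r1 r2 =>
    (lt_or_ge (h0 * y) 1).elim
      (fun h => farXA_cert (s1 := true) (s2 := false) rfl hκ (ka0 hκ hx hx') (xa0 hx) hx' (covF12a hx hx') (covF60 hx hx') (x1 hx) (x2 hx')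
        Pool.Agent.Strip051.G.IE1.Tab.C.FA16.c_pm_202_a noCut_VA noExt_VA F r1 r2 ⟨r1, h⟩ r2)
      (fun h => farXA_cert (s1 := true) (s2 := false) rfl hκ (ka0 hκ hx hx') (xa0 hx) hx' (covF12b hx hx') (covF60 hx hx') (x1 hx) (x2 hx')
        Pool.Agent.Strip051.G.IE1.Tab.C.FA16.c_pm_202_b noCut_VA noExt_VA F r1 r2 ⟨r1, h⟩ r2)

theorem FA16_pm_203 {κ x : ℝ} (hκ : κ * h0 = kenE x) (hx : 39 / 40 ≤ x) (hx' : x < 1) :
    TriA (DD x).cur (farD κ (h0 * x) (tbl tKF x) (tbl tL x)) 2 0 3 1 6 1 (-1) :=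
  (sideF hx hx').farA (Or.inl rfl) (Or.inr rfl) fun y y' F r1 r2 =>
    (lt_or_ge (h0 * y) 1).elim
      (fun h => farXA_cert (s1 := true) (s2 := false) rfl hκ (ka0 hκ hx hx') (xa0 hx) hx' (covF12a hx hx') (covF60 hx hx') (x1 hx) (x2 hx')
        Pool.Agent.Strip051.G.IE1.Tab.C.FA16.c_pm_203_a noCut_VA noExt_VA F r1 r2 ⟨r1, h⟩ r2)
      (fun h => farXA_cert (s1 := true) (s2 := false) rfl hκ (ka0 hκ hx hx') (xa0 hx) hx' (covF12b hx hx') (covF60 hx hx') (x1 hx) (x2 hx')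
        Pool.Agent.Strip051.G.IE1.Tab.C.FA16.c_pm_203_b noCut_VA noExt_VA F r1 r2 ⟨r1, h⟩ r2)

theorem FA16_pm_213 {κ x : ℝ} (hκ : κ * h0 = kenE x) (hx : 39 / 40 ≤ x) (hx' : x < 1) :
    TriA (DD x).cur (farD κ (h0 * x) (tbl tKF x) (tbl tL x)) 2 1 3 1 6 1 (-1) :=
  (sideF hx hx').farA (Or.inl rfl) (Or.inr rfl) fun y y' F r1 r2 =>
    (lt_or_ge (h0 * y) 1).elim
      (fun h => farXA_cert (s1 := true) (s2 := false) rfl hκ (ka0 hκ hx hx') (xa0 hx) hx' (covF12a hx hx') (covF61 hx hx') (x1 hx) (x2 hx')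
        Pool.Agent.Strip051.G.IE1.Tab.C.FA16.c_pm_213_a noCut_VA noExt_VA F r1 r2 ⟨r1, h⟩ r2)
      (fun h => farXA_cert (s1 := true) (s2 := false) rfl hκ (ka0 hκ hx hx') (xa0 hx) hx' (covF12b hx hx') (covF61 hx hx') (x1 hx) (x2 hx')
        Pool.Agent.Strip051.G.IE1.Tab.C.FA16.c_pm_213_b noCut_VA noExt_VA F r1 r2 ⟨r1, h⟩ r2)

theorem FA16_pm_303 {κ x : ℝ} (hκ : κ * h0 = kenE x) (hx : 39 / 40 ≤ x) (hx' : x < 1) :
    TriA (DD x).cur (farD κ (h0 * x) (tbl tKF x) (tbl tL x)) 3 0 3 1 6 1 (-1) :=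
  (sideF hx hx').farA (Or.inl rfl) (Or.inr rfl) fun y y' F r1 r2 =>
    farXA_cert (s1 := true) (s2 := false) rfl hκ (ka0 hκ hx hx') (xa0 hx) hx' (covF13 hx hx') (covF60 hx hx') (x1 hx) (x2 hx')
        Pool.Agent.Strip051.G.IE1.Tab.C.FA16.c_pm_303 noCut_VA noExt_VA F r1 r2 r1 r2

theorem FA16_pm_313 {κ x : ℝ} (hκ : κ * h0 = kenE x) (hx : 39 / 40 ≤ x) (hx' : x < 1) :
    TriA (DD x).cur (farD κ (h0 * x) (tbl tKF x) (tbl tL x)) 3 1 3 1 6 1 (-1) :=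
  (sideF hx hx').farA (Or.inl rfl) (Or.inr rfl) fun y y' F r1 r2 =>
    farXA_cert (s1 := true) (s2 := false) rfl hκ (ka0 hκ hx hx') (xa0 hx) hx' (covF13 hx hx') (covF61 hx hx') (x1 hx) (x2 hx')
        Pool.Agent.Strip051.G.IE1.Tab.C.FA16.c_pm_313 noCut_VA noExt_VA F r1 r2 r1 r2

theorem FA16_mm_001 {κ x : ℝ} (hκ : κ * h0 = kenE x) (hx : 39 / 40 ≤ x) (hx' : x < 1) :
    TriA (DD x).cur (farD κ (h0 * x) (tbl tKF x) (tbl tL x)) 0 0 1 1 6 (-1) (-1) :=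
  (sideF hx hx').farA (Or.inr rfl) (Or.inr rfl) fun y y' F r1 r2 =>
    farXA_cert (s1 := false) (s2 := false) rfl hκ (ka0 hκ hx hx') (xa0 hx) hx' (covF10 hx hx') (covF60 hx hx') (x1 hx) (x2 hx')
        Pool.Agent.Strip051.G.IE1.Tab.C.FA16.c_mm_001 noCut_VA noExt_VA F r1 r2 r1 r2

theorem FA16_mm_011 {κ x : ℝ} (hκ : κ * h0 = kenE x) (hx : 39 / 40 ≤ x) (hx' : x < 1) :
    TriA (DD x).cur (farD κ (h0 * x) (tbl tKF x) (tbl tL x)) 0 1 1 1 6 (-1) (-1) :=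
  (sideF hx hx').farA (Or.inr rfl) (Or.inr rfl) fun y y' F r1 r2 =>
    farXA_cert (s1 := false) (s2 := false) rfl hκ (ka0 hκ hx hx') (xa0 hx) hx' (covF10 hx hx') (covF61 hx hx') (x1 hx) (x2 hx')
        Pool.Agent.Strip051.G.IE1.Tab.C.FA16.c_mm_011 noCut_VA noExt_VA F r1 r2 r1 r2

theorem FA16_mm_012 {κ x : ℝ} (hκ : κ * h0 = kenE x) (hx : 39 / 40 ≤ x) (hx' : x < 1) :
    TriA (DD x).cur (farD κ (h0 * x) (tbl tKF x) (tbl tL x)) 0 1 2 1 6 (-1) (-1) :=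
  (sideF hx hx').farA (Or.inr rfl) (Or.inr rfl) fun y y' F r1 r2 =>
    farXA_cert (s1 := false) (s2 := false) rfl hκ (ka0 hκ hx hx') (xa0 hx) hx' (covF10 hx hx') (covF61 hx hx') (x1 hx) (x2 hx')
        Pool.Agent.Strip051.G.IE1.Tab.C.FA16.c_mm_012 noCut_VA noExt_VA F r1 r2 r1 r2

theorem FA16_mm_022 {κ x : ℝ} (hκ : κ * h0 = kenE x) (hx : 39 / 40 ≤ x) (hx' : x < 1) :
    TriA (DD x).cur (farD κ (h0 * x) (tbl tKF x) (tbl tL x)) 0 2 2 1 6 (-1) (-1) :=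
  (sideF hx hx').farA (Or.inr rfl) (Or.inr rfl) fun y y' F r1 r2 =>
    farXA_cert (s1 := false) (s2 := false) rfl hκ (ka0 hκ hx hx') (xa0 hx) hx' (covF10 hx hx') (covF62 hx hx') (x1 hx) (x2 hx')
        Pool.Agent.Strip051.G.IE1.Tab.C.FA16.c_mm_022 noCut_VA noExt_VA F r1 r2 r1 r2

theorem FA16_mm_023 {κ x : ℝ} (hκ : κ * h0 = kenE x) (hx : 39 / 40 ≤ x) (hx' : x < 1) :
    TriA (DD x).cur (farD κ (h0 * x) (tbl tKF x) (tbl tL x)) 0 2 3 1 6 (-1) (-1) :=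
  (sideF hx hx').farA (Or.inr rfl) (Or.inr rfl) fun y y' F r1 r2 =>
    farXA_cert (s1 := false) (s2 := false) rfl hκ (ka0 hκ hx hx') (xa0 hx) hx' (covF10 hx hx') (covF62 hx hx') (x1 hx) (x2 hx')
        Pool.Agent.Strip051.G.IE1.Tab.C.FA16.c_mm_023 noCut_VA noExt_VA F r1 r2 r1 r2

theorem FA16_mm_033 {κ x : ℝ} (hκ : κ * h0 = kenE x) (hx : 39 / 40 ≤ x) (hx' : x < 1) :
    TriA (DD x).cur (farD κ (h0 * x) (tbl tKF x) (tbl tL x)) 0 3 3 1 6 (-1) (-1) :=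
  (sideF hx hx').farA (Or.inr rfl) (Or.inr rfl) fun y y' F r1 r2 =>
    farXA_cert (s1 := false) (s2 := false) rfl hκ (ka0 hκ hx hx') (xa0 hx) hx' (covF10 hx hx') (covF63 hx hx') (x1 hx) (x2 hx')
        Pool.Agent.Strip051.G.IE1.Tab.C.FA16.c_mm_033 noCut_VA noExt_VA F r1 r2 r1 r2

theorem FA16_mm_101 {κ x : ℝ} (hκ : κ * h0 = kenE x) (hx : 39 / 40 ≤ x) (hx' : x < 1) :
    TriA (DD x).cur (farD κ (h0 * x) (tbl tKF x) (tbl tL x)) 1 0 1 1 6 (-1) (-1) :=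
  (sideF hx hx').farA (Or.inr rfl) (Or.inr rfl) fun y y' F r1 r2 =>
    farXA_cert (s1 := false) (s2 := false) rfl hκ (ka0 hκ hx hx') (xa0 hx) hx' (covF11 hx hx') (covF60 hx hx') (x1 hx) (x2 hx')
        Pool.Agent.Strip051.G.IE1.Tab.C.FA16.c_mm_101 noCut_VA noExt_VA F r1 r2 r1 r2

theorem FA16_mm_102 {κ x : ℝ} (hκ : κ * h0 = kenE x) (hx : 39 / 40 ≤ x) (hx' : x < 1) :
    TriA (DD x).cur (farD κ (h0 * x) (tbl tKF x) (tbl tL x)) 1 0 2 1 6 (-1) (-1) :=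
  (sideF hx hx').farA (Or.inr rfl) (Or.inr rfl) fun y y' F r1 r2 =>
    farXA_cert (s1 := false) (s2 := false) rfl hκ (ka0 hκ hx hx') (xa0 hx) hx' (covF11 hx hx') (covF60 hx hx') (x1 hx) (x2 hx')
        Pool.Agent.Strip051.G.IE1.Tab.C.FA16.c_mm_102 noCut_VA noExt_VA F r1 r2 r1 r2

theorem FA16_mm_112 {κ x : ℝ} (hκ : κ * h0 = kenE x) (hx : 39 / 40 ≤ x) (hx' : x < 1) :
    TriA (DD x).cur (farD κ (h0 * x) (tbl tKF x) (tbl tL x)) 1 1 2 1 6 (-1) (-1) :=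
  (sideF hx hx').farA (Or.inr rfl) (Or.inr rfl) fun y y' F r1 r2 =>
    farXA_cert (s1 := false) (s2 := false) rfl hκ (ka0 hκ hx hx') (xa0 hx) hx' (covF11 hx hx') (covF61 hx hx') (x1 hx) (x2 hx')
        Pool.Agent.Strip051.G.IE1.Tab.C.FA16.c_mm_112 noCut_VA noExt_VA F r1 r2 r1 r2

theorem FA16_mm_113 {κ x : ℝ} (hκ : κ * h0 = kenE x) (hx : 39 / 40 ≤ x) (hx' : x < 1) :
    TriA (DD x).cur (farD κ (h0 * x) (tbl tKF x) (tbl tL x)) 1 1 3 1 6 (-1) (-1) :=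
  (sideF hx hx').farA (Or.inr rfl) (Or.inr rfl) fun y y' F r1 r2 =>
    farXA_cert (s1 := false) (s2 := false) rfl hκ (ka0 hκ hx hx') (xa0 hx) hx' (covF11 hx hx') (covF61 hx hx') (x1 hx) (x2 hx')
        Pool.Agent.Strip051.G.IE1.Tab.C.FA16.c_mm_113 noCut_VA noExt_VA F r1 r2 r1 r2

theorem FA16_mm_123 {κ x : ℝ} (hκ : κ * h0 = kenE x) (hx : 39 / 40 ≤ x) (hx' : x < 1) :
    TriA (DD x).cur (farD κ (h0 * x) (tbl tKF x) (tbl tL x)) 1 2 3 1 6 (-1) (-1) :=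
  (sideF hx hx').farA (Or.inr rfl) (Or.inr rfl) fun y y' F r1 r2 =>
    farXA_cert (s1 := false) (s2 := false) rfl hκ (ka0 hκ hx hx') (xa0 hx) hx' (covF11 hx hx') (covF62 hx hx') (x1 hx) (x2 hx')
        Pool.Agent.Strip051.G.IE1.Tab.C.FA16.c_mm_123 noCut_VA noExt_VA F r1 r2 r1 r2

theorem FA16_mm_133 {κ x : ℝ} (hκ : κ * h0 = kenE x) (hx : 39 / 40 ≤ x) (hx' : x < 1) :
    TriA (DD x).cur (farD κ (h0 * x) (tbl tKF x) (tbl tL x)) 1 3 3 1 6 (-1) (-1) :=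
  (sideF hx hx').farA (Or.inr rfl) (Or.inr rfl) fun y y' F r1 r2 =>
    farXA_cert (s1 := false) (s2 := false) rfl hκ (ka0 hκ hx hx') (xa0 hx) hx' (covF11 hx hx') (covF63 hx hx') (x1 hx) (x2 hx')
        Pool.Agent.Strip051.G.IE1.Tab.C.FA16.c_mm_133 noCut_VA noExt_VA F r1 r2 r1 r2

theorem FA16_mm_202 {κ x : ℝ} (hκ : κ * h0 = kenE x) (hx : 39 / 40 ≤ x) (hx' : x < 1) :
    TriA (DD x).cur (farD κ (h0 * x) (tbl tKF x) (tbl tL x)) 2 0 2 1 6 (-1) (-1) :=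
  (sideF hx hx').farA (Or.inr rfl) (Or.inr rfl) fun y y' F r1 r2 =>
    (lt_or_ge (h0 * y) 1).elim
      (fun h => farXA_cert (s1 := false) (s2 := false) rfl hκ (ka0 hκ hx hx') (xa0 hx) hx' (covF12a hx hx') (covF60 hx hx') (x1 hx) (x2 hx')
        Pool.Agent.Strip051.G.IE1.Tab.C.FA16.c_mm_202_a noCut_VA noExt_VA F r1 r2 ⟨r1, h⟩ r2)
      (fun h => farXA_cert (s1 := false) (s2 := false) rfl hκ (ka0 hκ hx hx') (xa0 hx) hx' (covF12b hx hx') (covF60 hx hx') (x1 hx) (x2 hx')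
        Pool.Agent.Strip051.G.IE1.Tab.C.FA16.c_mm_202_b noCut_VA noExt_VA F r1 r2 ⟨r1, h⟩ r2)

theorem FA16_mm_203 {κ x : ℝ} (hκ : κ * h0 = kenE x) (hx : 39 / 40 ≤ x) (hx' : x < 1) :
    TriA (DD x).cur (farD κ (h0 * x) (tbl tKF x) (tbl tL x)) 2 0 3 1 6 (-1) (-1) :=
  (sideF hx hx').farA (Or.inr rfl) (Or.inr rfl) fun y y' F r1 r2 =>
    (lt_or_ge (h0 * y) 1).elim
      (fun h => farXA_cert (s1 := false) (s2 := false) rfl hκ (ka0 hκ hx hx') (xa0 hx) hx' (covF12a hx hx') (covF60 hx hx') (x1 hx) (x2 hx')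
        Pool.Agent.Strip051.G.IE1.Tab.C.FA16.c_mm_203_a noCut_VA noExt_VA F r1 r2 ⟨r1, h⟩ r2)
      (fun h => farXA_cert (s1 := false) (s2 := false) rfl hκ (ka0 hκ hx hx') (xa0 hx) hx' (covF12b hx hx') (covF60 hx hx') (x1 hx) (x2 hx')
        Pool.Agent.Strip051.G.IE1.Tab.C.FA16.c_mm_203_b noCut_VA noExt_VA F r1 r2 ⟨r1, h⟩ r2)

theorem FA16_mm_213 {κ x : ℝ} (hκ : κ * h0 = kenE x) (hx : 39 / 40 ≤ x) (hx' : x < 1) :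
    TriA (DD x).cur (farD κ (h0 * x) (tbl tKF x) (tbl tL x)) 2 1 3 1 6 (-1) (-1) :=
  (sideF hx hx').farA (Or.inr rfl) (Or.inr rfl) fun y y' F r1 r2 =>
    (lt_or_ge (h0 * y) 1).elim
      (fun h => farXA_cert (s1 := false) (s2 := false) rfl hκ (ka0 hκ hx hx') (xa0 hx) hx' (covF12a hx hx') (covF61 hx hx') (x1 hx) (x2 hx')
        Pool.Agent.Strip051.G.IE1.Tab.C.FA16.c_mm_213_a noCut_VA noExt_VA F r1 r2 ⟨r1, h⟩ r2)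
      (fun h => farXA_cert (s1 := false) (s2 := false) rfl hκ (ka0 hκ hx hx') (xa0 hx) hx' (covF12b hx hx') (covF61 hx hx') (x1 hx) (x2 hx')
        Pool.Agent.Strip051.G.IE1.Tab.C.FA16.c_mm_213_b noCut_VA noExt_VA F r1 r2 ⟨r1, h⟩ r2)

theorem FA16_mm_303 {κ x : ℝ} (hκ : κ * h0 = kenE x) (hx : 39 / 40 ≤ x) (hx' : x < 1) :
    TriA (DD x).cur (farD κ (h0 * x) (tbl tKF x) (tbl tL x)) 3 0 3 1 6 (-1) (-1) :=
  (sideF hx hx').farA (Or.inr rfl) (Or.inr rfl) fun y y' F r1 r2 =>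
    farXA_cert (s1 := false) (s2 := false) rfl hκ (ka0 hκ hx hx') (xa0 hx) hx' (covF13 hx hx') (covF60 hx hx') (x1 hx) (x2 hx')
        Pool.Agent.Strip051.G.IE1.Tab.C.FA16.c_mm_303 noCut_VA noExt_VA F r1 r2 r1 r2

theorem FA16_mm_313 {κ x : ℝ} (hκ : κ * h0 = kenE x) (hx : 39 / 40 ≤ x) (hx' : x < 1) :
    TriA (DD x).cur (farD κ (h0 * x) (tbl tKF x) (tbl tL x)) 3 1 3 1 6 (-1) (-1) :=
  (sideF hx hx').farA (Or.inr rfl) (Or.inr rfl) fun y y' F r1 r2 =>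
    farXA_cert (s1 := false) (s2 := false) rfl hκ (ka0 hκ hx hx') (xa0 hx) hx' (covF13 hx hx') (covF61 hx hx') (x1 hx) (x2 hx')
        Pool.Agent.Strip051.G.IE1.Tab.C.FA16.c_mm_313 noCut_VA noExt_VA F r1 r2 r1 r2

theorem FA16 {κ x : ℝ} (hκ : κ * h0 = kenE x) (hx : 39 / 40 ≤ x) (hx' : x < 1) : AllTA (DD x).cur (farD κ (h0 * x) (tbl tKF x) (tbl tL x)) 1 6 where
  pp := all17 (Q := fun a b c => TriA (DD x).cur (farD κ (h0 * x) (tbl tKF x) (tbl tL x)) a b c 1 6 1 1)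
    (FA16_pp_001 hκ hx hx') (FA16_pp_011 hκ hx hx') (FA16_pp_012 hκ hx hx') (FA16_pp_022 hκ hx hx') (FA16_pp_023 hκ hx hx') (FA16_pp_033 hκ hx hx') (FA16_pp_101 hκ hx hx') (FA16_pp_102 hκ hx hx') (FA16_pp_112 hκ hx hx') (FA16_pp_113 hκ hx hx') (FA16_pp_123 hκ hx hx') (FA16_pp_133 hκ hx hx') (FA16_pp_202 hκ hx hx') (FA16_pp_203 hκ hx hx') (FA16_pp_213 hκ hx hx') (FA16_pp_303 hκ hx hx') (FA16_pp_313 hκ hx hx')
  pm := all17 (Q := fun a b c => TriA (DD x).cur (farD κ (h0 * x) (tbl tKF x) (tbl tL x)) a b c 1 6 1 (-1))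
    (FA16_pm_001 hκ hx hx') (FA16_pm_011 hκ hx hx') (FA16_pm_012 hκ hx hx') (FA16_pm_022 hκ hx hx') (FA16_pm_023 hκ hx hx') (FA16_pm_033 hκ hx hx') (FA16_pm_101 hκ hx hx') (FA16_pm_102 hκ hx hx') (FA16_pm_112 hκ hx hx') (FA16_pm_113 hκ hx hx') (FA16_pm_123 hκ hx hx') (FA16_pm_133 hκ hx hx') (FA16_pm_202 hκ hx hx') (FA16_pm_203 hκ hx hx') (FA16_pm_213 hκ hx hx') (FA16_pm_303 hκ hx hx') (FA16_pm_313 hκ hx hx')
  mm := all17 (Q := fun a b c => TriA (DD x).cur (farD κ (h0 * x) (tbl tKF x) (tbl tL x)) a b c 1 6 (-1) (-1))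
    (FA16_mm_001 hκ hx hx') (FA16_mm_011 hκ hx hx') (FA16_mm_012 hκ hx hx') (FA16_mm_022 hκ hx hx') (FA16_mm_023 hκ hx hx') (FA16_mm_033 hκ hx hx') (FA16_mm_101 hκ hx hx') (FA16_mm_102 hκ hx hx') (FA16_mm_112 hκ hx hx') (FA16_mm_113 hκ hx hx') (FA16_mm_123 hκ hx hx') (FA16_mm_133 hκ hx hx') (FA16_mm_202 hκ hx hx') (FA16_mm_203 hκ hx hx') (FA16_mm_213 hκ hx hx') (FA16_mm_303 hκ hx hx') (FA16_mm_313 hκ hx hx')

theorem FA17_pp_001 {κ x : ℝ} (hκ : κ * h0 = kenE x) (hx : 39 / 40 ≤ x) (hx' : x < 1) :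
    TriA (DD x).cur (farD κ (h0 * x) (tbl tKF x) (tbl tL x)) 0 0 1 1 7 1 1 :=
  (sideF hx hx').farA (Or.inl rfl) (Or.inl rfl) fun y y' F r1 r2 =>
    farXA_cert (s1 := true) (s2 := true) rfl hκ (ka0 hκ hx hx') (xa0 hx) hx' (covF10 hx hx') (covF70 hx hx') (x1 hx) (x2 hx')
        Pool.Agent.Strip051.G.IE1.Tab.C.FA17.c_pp_001 noCut_VA noExt_VA F r1 r2 r1 r2

theorem FA17_pp_011 {κ x : ℝ} (hκ : κ * h0 = kenE x) (hx : 39 / 40 ≤ x) (hx' : x < 1) :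
    TriA (DD x).cur (farD κ (h0 * x) (tbl tKF x) (tbl tL x)) 0 1 1 1 7 1 1 :=
  (sideF hx hx').farA (Or.inl rfl) (Or.inl rfl) fun y y' F r1 r2 =>
    farXA_cert (s1 := true) (s2 := true) rfl hκ (ka0 hκ hx hx') (xa0 hx) hx' (covF10 hx hx') (covF71 hx hx') (x1 hx) (x2 hx')
        Pool.Agent.Strip051.G.IE1.Tab.C.FA17.c_pp_011 noCut_VA noExt_VA F r1 r2 r1 r2

theorem FA17_pp_012 {κ x : ℝ} (hκ : κ * h0 = kenE x) (hx : 39 / 40 ≤ x) (hx' : x < 1) :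
    TriA (DD x).cur (farD κ (h0 * x) (tbl tKF x) (tbl tL x)) 0 1 2 1 7 1 1 :=
  (sideF hx hx').farA (Or.inl rfl) (Or.inl rfl) fun y y' F r1 r2 =>
    farXA_cert (s1 := true) (s2 := true) rfl hκ (ka0 hκ hx hx') (xa0 hx) hx' (covF10 hx hx') (covF71 hx hx') (x1 hx) (x2 hx')
        Pool.Agent.Strip051.G.IE1.Tab.C.FA17.c_pp_012 noCut_VA noExt_VA F r1 r2 r1 r2

theorem FA17_pp_022 {κ x : ℝ} (hκ : κ * h0 = kenE x) (hx : 39 / 40 ≤ x) (hx' : x < 1) :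
    TriA (DD x).cur (farD κ (h0 * x) (tbl tKF x) (tbl tL x)) 0 2 2 1 7 1 1 :=
  (sideF hx hx').farA (Or.inl rfl) (Or.inl rfl) fun y y' F r1 r2 =>
    farXA_cert (s1 := true) (s2 := true) rfl hκ (ka0 hκ hx hx') (xa0 hx) hx' (covF10 hx hx') (covF72 hx hx') (x1 hx) (x2 hx')
        Pool.Agent.Strip051.G.IE1.Tab.C.FA17.c_pp_022 noCut_VA noExt_VA F r1 r2 r1 r2

theorem FA17_pp_023 {κ x : ℝ} (hκ : κ * h0 = kenE x) (hx : 39 / 40 ≤ x) (hx' : x < 1) :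
    TriA (DD x).cur (farD κ (h0 * x) (tbl tKF x) (tbl tL x)) 0 2 3 1 7 1 1 :=
  (sideF hx hx').farA (Or.inl rfl) (Or.inl rfl) fun y y' F r1 r2 =>
    farXA_cert (s1 := true) (s2 := true) rfl hκ (ka0 hκ hx hx') (xa0 hx) hx' (covF10 hx hx') (covF72 hx hx') (x1 hx) (x2 hx')
        Pool.Agent.Strip051.G.IE1.Tab.C.FA17.c_pp_023 noCut_VA noExt_VA F r1 r2 r1 r2

theorem FA17_pp_033 {κ x : ℝ} (hκ : κ * h0 = kenE x) (hx : 39 / 40 ≤ x) (hx' : x < 1) :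
    TriA (DD x).cur (farD κ (h0 * x) (tbl tKF x) (tbl tL x)) 0 3 3 1 7 1 1 :=
  (sideF hx hx').farA (Or.inl rfl) (Or.inl rfl) fun y y' F r1 r2 =>
    farXA_cert (s1 := true) (s2 := true) rfl hκ (ka0 hκ hx hx') (xa0 hx) hx' (covF10 hx hx') (covF73 hx hx') (x1 hx) (x2 hx')
        Pool.Agent.Strip051.G.IE1.Tab.C.FA17.c_pp_033 noCut_VA noExt_VA F r1 r2 r1 r2

theorem FA17_pp_101 {κ x : ℝ} (hκ : κ * h0 = kenE x) (hx : 39 / 40 ≤ x) (hx' : x < 1) :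
    TriA (DD x).cur (farD κ (h0 * x) (tbl tKF x) (tbl tL x)) 1 0 1 1 7 1 1 :=
  (sideF hx hx').farA (Or.inl rfl) (Or.inl rfl) fun y y' F r1 r2 =>
    farXA_cert (s1 := true) (s2 := true) rfl hκ (ka0 hκ hx hx') (xa0 hx) hx' (covF11 hx hx') (covF70 hx hx') (x1 hx) (x2 hx')
        Pool.Agent.Strip051.G.IE1.Tab.C.FA17.c_pp_101 noCut_VA noExt_VA F r1 r2 r1 r2

theorem FA17_pp_102 {κ x : ℝ} (hκ : κ * h0 = kenE x) (hx : 39 / 40 ≤ x) (hx' : x < 1) :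
    TriA (DD x).cur (farD κ (h0 * x) (tbl tKF x) (tbl tL x)) 1 0 2 1 7 1 1 :=
  (sideF hx hx').farA (Or.inl rfl) (Or.inl rfl) fun y y' F r1 r2 =>
    farXA_cert (s1 := true) (s2 := true) rfl hκ (ka0 hκ hx hx') (xa0 hx) hx' (covF11 hx hx') (covF70 hx hx') (x1 hx) (x2 hx')
        Pool.Agent.Strip051.G.IE1.Tab.C.FA17.c_pp_102 noCut_VA noExt_VA F r1 r2 r1 r2

theorem FA17_pp_112 {κ x : ℝ} (hκ : κ * h0 = kenE x) (hx : 39 / 40 ≤ x) (hx' : x < 1) :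
    TriA (DD x).cur (farD κ (h0 * x) (tbl tKF x) (tbl tL x)) 1 1 2 1 7 1 1 :=
  (sideF hx hx').farA (Or.inl rfl) (Or.inl rfl) fun y y' F r1 r2 =>
    farXA_cert (s1 := true) (s2 := true) rfl hκ (ka0 hκ hx hx') (xa0 hx) hx' (covF11 hx hx') (covF71 hx hx') (x1 hx) (x2 hx')
        Pool.Agent.Strip051.G.IE1.Tab.C.FA17.c_pp_112 noCut_VA noExt_VA F r1 r2 r1 r2

theorem FA17_pp_113 {κ x : ℝ} (hκ : κ * h0 = kenE x) (hx : 39 / 40 ≤ x) (hx' : x < 1) :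
    TriA (DD x).cur (farD κ (h0 * x) (tbl tKF x) (tbl tL x)) 1 1 3 1 7 1 1 :=
  (sideF hx hx').farA (Or.inl rfl) (Or.inl rfl) fun y y' F r1 r2 =>
    farXA_cert (s1 := true) (s2 := true) rfl hκ (ka0 hκ hx hx') (xa0 hx) hx' (covF11 hx hx') (covF71 hx hx') (x1 hx) (x2 hx')
        Pool.Agent.Strip051.G.IE1.Tab.C.FA17.c_pp_113 noCut_VA noExt_VA F r1 r2 r1 r2

theorem FA17_pp_123 {κ x : ℝ} (hκ : κ * h0 = kenE x) (hx : 39 / 40 ≤ x) (hx' : x < 1) :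
    TriA (DD x).cur (farD κ (h0 * x) (tbl tKF x) (tbl tL x)) 1 2 3 1 7 1 1 :=
  (sideF hx hx').farA (Or.inl rfl) (Or.inl rfl) fun y y' F r1 r2 =>
    farXA_cert (s1 := true) (s2 := true) rfl hκ (ka0 hκ hx hx') (xa0 hx) hx' (covF11 hx hx') (covF72 hx hx') (x1 hx) (x2 hx')
        Pool.Agent.Strip051.G.IE1.Tab.C.FA17.c_pp_123 noCut_VA noExt_VA F r1 r2 r1 r2

theorem FA17_pp_133 {κ x : ℝ} (hκ : κ * h0 = kenE x) (hx : 39 / 40 ≤ x) (hx' : x < 1) :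
    TriA (DD x).cur (farD κ (h0 * x) (tbl tKF x) (tbl tL x)) 1 3 3 1 7 1 1 :=
  (sideF hx hx').farA (Or.inl rfl) (Or.inl rfl) fun y y' F r1 r2 =>
    farXA_cert (s1 := true) (s2 := true) rfl hκ (ka0 hκ hx hx') (xa0 hx) hx' (covF11 hx hx') (covF73 hx hx') (x1 hx) (x2 hx')
        Pool.Agent.Strip051.G.IE1.Tab.C.FA17.c_pp_133 noCut_VA noExt_VA F r1 r2 r1 r2

theorem FA17_pp_202 {κ x : ℝ} (hκ : κ * h0 = kenE x) (hx : 39 / 40 ≤ x) (hx' : x < 1) :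
    TriA (DD x).cur (farD κ (h0 * x) (tbl tKF x) (tbl tL x)) 2 0 2 1 7 1 1 :=
  (sideF hx hx').farA (Or.inl rfl) (Or.inl rfl) fun y y' F r1 r2 =>
    (lt_or_ge (h0 * y) 1).elim
      (fun h => farXA_cert (s1 := true) (s2 := true) rfl hκ (ka0 hκ hx hx') (xa0 hx) hx' (covF12a hx hx') (covF70 hx hx') (x1 hx) (x2 hx')
        Pool.Agent.Strip051.G.IE1.Tab.C.FA17.c_pp_202_a noCut_VA noExt_VA F r1 r2 ⟨r1, h⟩ r2)
      (fun h => farXA_cert (s1 := true) (s2 := true) rfl hκ (ka0 hκ hx hx') (xa0 hx) hx' (covF12b hx hx') (covF70 hx hx') (x1 hx) (x2 hx')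
        Pool.Agent.Strip051.G.IE1.Tab.C.FA17.c_pp_202_b noCut_VA noExt_VA F r1 r2 ⟨r1, h⟩ r2)

theorem FA17_pp_203 {κ x : ℝ} (hκ : κ * h0 = kenE x) (hx : 39 / 40 ≤ x) (hx' : x < 1) :
    TriA (DD x).cur (farD κ (h0 * x) (tbl tKF x) (tbl tL x)) 2 0 3 1 7 1 1 :=
  (sideF hx hx').farA (Or.inl rfl) (Or.inl rfl) fun y y' F r1 r2 =>
    (lt_or_ge (h0 * y) 1).elim
      (fun h => farXA_cert (s1 := true) (s2 := true) rfl hκ (ka0 hκ hx hx') (xa0 hx) hx' (covF12a hx hx') (covF70 hx hx') (x1 hx) (x2 hx')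
        Pool.Agent.Strip051.G.IE1.Tab.C.FA17.c_pp_203_a noCut_VA noExt_VA F r1 r2 ⟨r1, h⟩ r2)
      (fun h => farXA_cert (s1 := true) (s2 := true) rfl hκ (ka0 hκ hx hx') (xa0 hx) hx' (covF12b hx hx') (covF70 hx hx') (x1 hx) (x2 hx')
        Pool.Agent.Strip051.G.IE1.Tab.C.FA17.c_pp_203_b noCut_VA noExt_VA F r1 r2 ⟨r1, h⟩ r2)

theorem FA17_pp_213 {κ x : ℝ} (hκ : κ * h0 = kenE x) (hx : 39 / 40 ≤ x) (hx' : x < 1) :
    TriA (DD x).cur (farD κ (h0 * x) (tbl tKF x) (tbl tL x)) 2 1 3 1 7 1 1 :=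
  (sideF hx hx').farA (Or.inl rfl) (Or.inl rfl) fun y y' F r1 r2 =>
    (lt_or_ge (h0 * y) 1).elim
      (fun h => farXA_cert (s1 := true) (s2 := true) rfl hκ (ka0 hκ hx hx') (xa0 hx) hx' (covF12a hx hx') (covF71 hx hx') (x1 hx) (x2 hx')
        Pool.Agent.Strip051.G.IE1.Tab.C.FA17.c_pp_213_a noCut_VA noExt_VA F r1 r2 ⟨r1, h⟩ r2)
      (fun h => farXA_cert (s1 := true) (s2 := true) rfl hκ (ka0 hκ hx hx') (xa0 hx) hx' (covF12b hx hx') (covF71 hx hx') (x1 hx) (x2 hx')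
        Pool.Agent.Strip051.G.IE1.Tab.C.FA17.c_pp_213_b noCut_VA noExt_VA F r1 r2 ⟨r1, h⟩ r2)

theorem FA17_pp_303 {κ x : ℝ} (hκ : κ * h0 = kenE x) (hx : 39 / 40 ≤ x) (hx' : x < 1) :
    TriA (DD x).cur (farD κ (h0 * x) (tbl tKF x) (tbl tL x)) 3 0 3 1 7 1 1 :=
  (sideF hx hx').farA (Or.inl rfl) (Or.inl rfl) fun y y' F r1 r2 =>
    farXA_cert (s1 := true) (s2 := true) rfl hκ (ka0 hκ hx hx') (xa0 hx) hx' (covF13 hx hx') (covF70 hx hx') (x1 hx) (x2 hx')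
        Pool.Agent.Strip051.G.IE1.Tab.C.FA17.c_pp_303 noCut_VA noExt_VA F r1 r2 r1 r2

theorem FA17_pp_313 {κ x : ℝ} (hκ : κ * h0 = kenE x) (hx : 39 / 40 ≤ x) (hx' : x < 1) :
    TriA (DD x).cur (farD κ (h0 * x) (tbl tKF x) (tbl tL x)) 3 1 3 1 7 1 1 :=
  (sideF hx hx').farA (Or.inl rfl) (Or.inl rfl) fun y y' F r1 r2 =>
    farXA_cert (s1 := true) (s2 := true) rfl hκ (ka0 hκ hx hx') (xa0 hx) hx' (covF13 hx hx') (covF71 hx hx') (x1 hx) (x2 hx')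
        Pool.Agent.Strip051.G.IE1.Tab.C.FA17.c_pp_313 noCut_VA noExt_VA F r1 r2 r1 r2

theorem FA17_pm_001 {κ x : ℝ} (hκ : κ * h0 = kenE x) (hx : 39 / 40 ≤ x) (hx' : x < 1) :
    TriA (DD x).cur (farD κ (h0 * x) (tbl tKF x) (tbl tL x)) 0 0 1 1 7 1 (-1) :=
  (sideF hx hx').farA (Or.inl rfl) (Or.inr rfl) fun y y' F r1 r2 =>
    farXA_cert (s1 := true) (s2 := false) rfl hκ (ka0 hκ hx hx') (xa0 hx) hx' (covF10 hx hx') (covF70 hx hx') (x1 hx) (x2 hx')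
        Pool.Agent.Strip051.G.IE1.Tab.C.FA17.c_pm_001 noCut_VA noExt_VA F r1 r2 r1 r2

theorem FA17_pm_011 {κ x : ℝ} (hκ : κ * h0 = kenE x) (hx : 39 / 40 ≤ x) (hx' : x < 1) :
    TriA (DD x).cur (farD κ (h0 * x) (tbl tKF x) (tbl tL x)) 0 1 1 1 7 1 (-1) :=
  (sideF hx hx').farA (Or.inl rfl) (Or.inr rfl) fun y y' F r1 r2 =>
    farXA_cert (s1 := true) (s2 := false) rfl hκ (ka0 hκ hx hx') (xa0 hx) hx' (covF10 hx hx') (covF71 hx hx') (x1 hx) (x2 hx')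
        Pool.Agent.Strip051.G.IE1.Tab.C.FA17.c_pm_011 noCut_VA noExt_VA F r1 r2 r1 r2

theorem FA17_pm_012 {κ x : ℝ} (hκ : κ * h0 = kenE x) (hx : 39 / 40 ≤ x) (hx' : x < 1) :
    TriA (DD x).cur (farD κ (h0 * x) (tbl tKF x) (tbl tL x)) 0 1 2 1 7 1 (-1) :=
  (sideF hx hx').farA (Or.inl rfl) (Or.inr rfl) fun y y' F r1 r2 =>
    farXA_cert (s1 := true) (s2 := false) rfl hκ (ka0 hκ hx hx') (xa0 hx) hx' (covF10 hx hx') (covF71 hx hx') (x1 hx) (x2 hx')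
        Pool.Agent.Strip051.G.IE1.Tab.C.FA17.c_pm_012 noCut_VA noExt_VA F r1 r2 r1 r2

theorem FA17_pm_022 {κ x : ℝ} (hκ : κ * h0 = kenE x) (hx : 39 / 40 ≤ x) (hx' : x < 1) :
    TriA (DD x).cur (farD κ (h0 * x) (tbl tKF x) (tbl tL x)) 0 2 2 1 7 1 (-1) :=
  (sideF hx hx').farA (Or.inl rfl) (Or.inr rfl) fun y y' F r1 r2 =>
    farXA_cert (s1 := true) (s2 := false) rfl hκ (ka0 hκ hx hx') (xa0 hx) hx' (covF10 hx hx') (covF72 hx hx') (x1 hx) (x2 hx')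
        Pool.Agent.Strip051.G.IE1.Tab.C.FA17.c_pm_022 noCut_VA noExt_VA F r1 r2 r1 r2

theorem FA17_pm_023 {κ x : ℝ} (hκ : κ * h0 = kenE x) (hx : 39 / 40 ≤ x) (hx' : x < 1) :
    TriA (DD x).cur (farD κ (h0 * x) (tbl tKF x) (tbl tL x)) 0 2 3 1 7 1 (-1) :=
  (sideF hx hx').farA (Or.inl rfl) (Or.inr rfl) fun y y' F r1 r2 =>
    farXA_cert (s1 := true) (s2 := false) rfl hκ (ka0 hκ hx hx') (xa0 hx) hx' (covF10 hx hx') (covF72 hx hx') (x1 hx) (x2 hx')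
        Pool.Agent.Strip051.G.IE1.Tab.C.FA17.c_pm_023 noCut_VA noExt_VA F r1 r2 r1 r2

theorem FA17_pm_033 {κ x : ℝ} (hκ : κ * h0 = kenE x) (hx : 39 / 40 ≤ x) (hx' : x < 1) :
    TriA (DD x).cur (farD κ (h0 * x) (tbl tKF x) (tbl tL x)) 0 3 3 1 7 1 (-1) :=
  (sideF hx hx').farA (Or.inl rfl) (Or.inr rfl) fun y y' F r1 r2 =>
    farXA_cert (s1 := true) (s2 := false) rfl hκ (ka0 hκ hx hx') (xa0 hx) hx' (covF10 hx hx') (covF73 hx hx') (x1 hx) (x2 hx')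
        Pool.Agent.Strip051.G.IE1.Tab.C.FA17.c_pm_033 noCut_VA noExt_VA F r1 r2 r1 r2

theorem FA17_pm_101 {κ x : ℝ} (hκ : κ * h0 = kenE x) (hx : 39 / 40 ≤ x) (hx' : x < 1) :
    TriA (DD x).cur (farD κ (h0 * x) (tbl tKF x) (tbl tL x)) 1 0 1 1 7 1 (-1) :=
  (sideF hx hx').farA (Or.inl rfl) (Or.inr rfl) fun y y' F r1 r2 =>
    farXA_cert (s1 := true) (s2 := false) rfl hκ (ka0 hκ hx hx') (xa0 hx) hx' (covF11 hx hx') (covF70 hx hx') (x1 hx) (x2 hx')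
        Pool.Agent.Strip051.G.IE1.Tab.C.FA17.c_pm_101 noCut_VA noExt_VA F r1 r2 r1 r2

theorem FA17_pm_102 {κ x : ℝ} (hκ : κ * h0 = kenE x) (hx : 39 / 40 ≤ x) (hx' : x < 1) :
    TriA (DD x).cur (farD κ (h0 * x) (tbl tKF x) (tbl tL x)) 1 0 2 1 7 1 (-1) :=
  (sideF hx hx').farA (Or.inl rfl) (Or.inr rfl) fun y y' F r1 r2 =>
    farXA_cert (s1 := true) (s2 := false) rfl hκ (ka0 hκ hx hx') (xa0 hx) hx' (covF11 hx hx') (covF70 hx hx') (x1 hx) (x2 hx')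
        Pool.Agent.Strip051.G.IE1.Tab.C.FA17.c_pm_102 noCut_VA noExt_VA F r1 r2 r1 r2

theorem FA17_pm_112 {κ x : ℝ} (hκ : κ * h0 = kenE x) (hx : 39 / 40 ≤ x) (hx' : x < 1) :
    TriA (DD x).cur (farD κ (h0 * x) (tbl tKF x) (tbl tL x)) 1 1 2 1 7 1 (-1) :=
  (sideF hx hx').farA (Or.inl rfl) (Or.inr rfl) fun y y' F r1 r2 =>
    farXA_cert (s1 := true) (s2 := false) rfl hκ (ka0 hκ hx hx') (xa0 hx) hx' (covF11 hx hx') (covF71 hx hx') (x1 hx) (x2 hx')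
        Pool.Agent.Strip051.G.IE1.Tab.C.FA17.c_pm_112 noCut_VA noExt_VA F r1 r2 r1 r2

theorem FA17_pm_113 {κ x : ℝ} (hκ : κ * h0 = kenE x) (hx : 39 / 40 ≤ x) (hx' : x < 1) :
    TriA (DD x).cur (farD κ (h0 * x) (tbl tKF x) (tbl tL x)) 1 1 3 1 7 1 (-1) :=
  (sideF hx hx').farA (Or.inl rfl) (Or.inr rfl) fun y y' F r1 r2 =>
    farXA_cert (s1 := true) (s2 := false) rfl hκ (ka0 hκ hx hx') (xa0 hx) hx' (covF11 hx hx') (covF71 hx hx') (x1 hx) (x2 hx')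
        Pool.Agent.Strip051.G.IE1.Tab.C.FA17.c_pm_113 noCut_VA noExt_VA F r1 r2 r1 r2

theorem FA17_pm_123 {κ x : ℝ} (hκ : κ * h0 = kenE x) (hx : 39 / 40 ≤ x) (hx' : x < 1) :
    TriA (DD x).cur (farD κ (h0 * x) (tbl tKF x) (tbl tL x)) 1 2 3 1 7 1 (-1) :=
  (sideF hx hx').farA (Or.inl rfl) (Or.inr rfl) fun y y' F r1 r2 =>
    farXA_cert (s1 := true) (s2 := false) rfl hκ (ka0 hκ hx hx') (xa0 hx) hx' (covF11 hx hx') (covF72 hx hx') (x1 hx) (x2 hx')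
        Pool.Agent.Strip051.G.IE1.Tab.C.FA17.c_pm_123 noCut_VA noExt_VA F r1 r2 r1 r2

theorem FA17_pm_133 {κ x : ℝ} (hκ : κ * h0 = kenE x) (hx : 39 / 40 ≤ x) (hx' : x < 1) :
    TriA (DD x).cur (farD κ (h0 * x) (tbl tKF x) (tbl tL x)) 1 3 3 1 7 1 (-1) :=
  (sideF hx hx').farA (Or.inl rfl) (Or.inr rfl) fun y y' F r1 r2 =>
    farXA_cert (s1 := true) (s2 := false) rfl hκ (ka0 hκ hx hx') (xa0 hx) hx' (covF11 hx hx') (covF73 hx hx') (x1 hx) (x2 hx')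
        Pool.Agent.Strip051.G.IE1.Tab.C.FA17.c_pm_133 noCut_VA noExt_VA F r1 r2 r1 r2

theorem FA17_pm_202 {κ x : ℝ} (hκ : κ * h0 = kenE x) (hx : 39 / 40 ≤ x) (hx' : x < 1) :
    TriA (DD x).cur (farD κ (h0 * x) (tbl tKF x) (tbl tL x)) 2 0 2 1 7 1 (-1) :=
  (sideF hx hx').farA (Or.inl rfl) (Or.inr rfl) fun y y' F r1 r2 =>
    (lt_or_ge (h0 * y) 1).elim
      (fun h => farXA_cert (s1 := true) (s2 := false) rfl hκ (ka0 hκ hx hx') (xa0 hx) hx' (covF12a hx hx') (covF70 hx hx') (x1 hx) (x2 hx')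
        Pool.Agent.Strip051.G.IE1.Tab.C.FA17.c_pm_202_a noCut_VA noExt_VA F r1 r2 ⟨r1, h⟩ r2)
      (fun h => farXA_cert (s1 := true) (s2 := false) rfl hκ (ka0 hκ hx hx') (xa0 hx) hx' (covF12b hx hx') (covF70 hx hx') (x1 hx) (x2 hx')
        Pool.Agent.Strip051.G.IE1.Tab.C.FA17.c_pm_202_b noCut_VA noExt_VA F r1 r2 ⟨r1, h⟩ r2)

theorem FA17_pm_203 {κ x : ℝ} (hκ : κ * h0 = kenE x) (hx : 39 / 40 ≤ x) (hx' : x < 1) :
    TriA (DD x).cur (farD κ (h0 * x) (tbl tKF x) (tbl tL x)) 2 0 3 1 7 1 (-1) :=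
  (sideF hx hx').farA (Or.inl rfl) (Or.inr rfl) fun y y' F r1 r2 =>
    (lt_or_ge (h0 * y) 1).elim
      (fun h => farXA_cert (s1 := true) (s2 := false) rfl hκ (ka0 hκ hx hx') (xa0 hx) hx' (covF12a hx hx') (covF70 hx hx') (x1 hx) (x2 hx')
        Pool.Agent.Strip051.G.IE1.Tab.C.FA17.c_pm_203_a noCut_VA noExt_VA F r1 r2 ⟨r1, h⟩ r2)
      (fun h => farXA_cert (s1 := true) (s2 := false) rfl hκ (ka0 hκ hx hx') (xa0 hx) hx' (covF12b hx hx') (covF70 hx hx') (x1 hx) (x2 hx')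
        Pool.Agent.Strip051.G.IE1.Tab.C.FA17.c_pm_203_b noCut_VA noExt_VA F r1 r2 ⟨r1, h⟩ r2)

theorem FA17_pm_213 {κ x : ℝ} (hκ : κ * h0 = kenE x) (hx : 39 / 40 ≤ x) (hx' : x < 1) :
    TriA (DD x).cur (farD κ (h0 * x) (tbl tKF x) (tbl tL x)) 2 1 3 1 7 1 (-1) :=
  (sideF hx hx').farA (Or.inl rfl) (Or.inr rfl) fun y y' F r1 r2 =>
    (lt_or_ge (h0 * y) 1).elim
      (fun h => farXA_cert (s1 := true) (s2 := false) rfl hκ (ka0 hκ hx hx') (xa0 hx) hx' (covF12a hx hx') (covF71 hx hx') (x1 hx) (x2 hx')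
        Pool.Agent.Strip051.G.IE1.Tab.C.FA17.c_pm_213_a noCut_VA noExt_VA F r1 r2 ⟨r1, h⟩ r2)
      (fun h => farXA_cert (s1 := true) (s2 := false) rfl hκ (ka0 hκ hx hx') (xa0 hx) hx' (covF12b hx hx') (covF71 hx hx') (x1 hx) (x2 hx')
        Pool.Agent.Strip051.G.IE1.Tab.C.FA17.c_pm_213_b noCut_VA noExt_VA F r1 r2 ⟨r1, h⟩ r2)

theorem FA17_pm_303 {κ x : ℝ} (hκ : κ * h0 = kenE x) (hx : 39 / 40 ≤ x) (hx' : x < 1) :
    TriA (DD x).cur (farD κ (h0 * x) (tbl tKF x) (tbl tL x)) 3 0 3 1 7 1 (-1) :=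
  (sideF hx hx').farA (Or.inl rfl) (Or.inr rfl) fun y y' F r1 r2 =>
    farXA_cert (s1 := true) (s2 := false) rfl hκ (ka0 hκ hx hx') (xa0 hx) hx' (covF13 hx hx') (covF70 hx hx') (x1 hx) (x2 hx')
        Pool.Agent.Strip051.G.IE1.Tab.C.FA17.c_pm_303 noCut_VA noExt_VA F r1 r2 r1 r2

theorem FA17_pm_313 {κ x : ℝ} (hκ : κ * h0 = kenE x) (hx : 39 / 40 ≤ x) (hx' : x < 1) :
    TriA (DD x).cur (farD κ (h0 * x) (tbl tKF x) (tbl tL x)) 3 1 3 1 7 1 (-1) :=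
  (sideF hx hx').farA (Or.inl rfl) (Or.inr rfl) fun y y' F r1 r2 =>
    farXA_cert (s1 := true) (s2 := false) rfl hκ (ka0 hκ hx hx') (xa0 hx) hx' (covF13 hx hx') (covF71 hx hx') (x1 hx) (x2 hx')
        Pool.Agent.Strip051.G.IE1.Tab.C.FA17.c_pm_313 noCut_VA noExt_VA F r1 r2 r1 r2

theorem FA17_mm_001 {κ x : ℝ} (hκ : κ * h0 = kenE x) (hx : 39 / 40 ≤ x) (hx' : x < 1) :
    TriA (DD x).cur (farD κ (h0 * x) (tbl tKF x) (tbl tL x)) 0 0 1 1 7 (-1) (-1) :=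
  (sideF hx hx').farA (Or.inr rfl) (Or.inr rfl) fun y y' F r1 r2 =>
    farXA_cert (s1 := false) (s2 := false) rfl hκ (ka0 hκ hx hx') (xa0 hx) hx' (covF10 hx hx') (covF70 hx hx') (x1 hx) (x2 hx')
        Pool.Agent.Strip051.G.IE1.Tab.C.FA17.c_mm_001 noCut_VA noExt_VA F r1 r2 r1 r2

theorem FA17_mm_011 {κ x : ℝ} (hκ : κ * h0 = kenE x) (hx : 39 / 40 ≤ x) (hx' : x < 1) :
    TriA (DD x).cur (farD κ (h0 * x) (tbl tKF x) (tbl tL x)) 0 1 1 1 7 (-1) (-1) :=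
  (sideF hx hx').farA (Or.inr rfl) (Or.inr rfl) fun y y' F r1 r2 =>
    farXA_cert (s1 := false) (s2 := false) rfl hκ (ka0 hκ hx hx') (xa0 hx) hx' (covF10 hx hx') (covF71 hx hx') (x1 hx) (x2 hx')
        Pool.Agent.Strip051.G.IE1.Tab.C.FA17.c_mm_011 noCut_VA noExt_VA F r1 r2 r1 r2

theorem FA17_mm_012 {κ x : ℝ} (hκ : κ * h0 = kenE x) (hx : 39 / 40 ≤ x) (hx' : x < 1) :
    TriA (DD x).cur (farD κ (h0 * x) (tbl tKF x) (tbl tL x)) 0 1 2 1 7 (-1) (-1) :=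
  (sideF hx hx').farA (Or.inr rfl) (Or.inr rfl) fun y y' F r1 r2 =>
    farXA_cert (s1 := false) (s2 := false) rfl hκ (ka0 hκ hx hx') (xa0 hx) hx' (covF10 hx hx') (covF71 hx hx') (x1 hx) (x2 hx')
        Pool.Agent.Strip051.G.IE1.Tab.C.FA17.c_mm_012 noCut_VA noExt_VA F r1 r2 r1 r2

theorem FA17_mm_022 {κ x : ℝ} (hκ : κ * h0 = kenE x) (hx : 39 / 40 ≤ x) (hx' : x < 1) :
    TriA (DD x).cur (farD κ (h0 * x) (tbl tKF x) (tbl tL x)) 0 2 2 1 7 (-1) (-1) :=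
  (sideF hx hx').farA (Or.inr rfl) (Or.inr rfl) fun y y' F r1 r2 =>
    farXA_cert (s1 := false) (s2 := false) rfl hκ (ka0 hκ hx hx') (xa0 hx) hx' (covF10 hx hx') (covF72 hx hx') (x1 hx) (x2 hx')
        Pool.Agent.Strip051.G.IE1.Tab.C.FA17.c_mm_022 noCut_VA noExt_VA F r1 r2 r1 r2

theorem FA17_mm_023 {κ x : ℝ} (hκ : κ * h0 = kenE x) (hx : 39 / 40 ≤ x) (hx' : x < 1) :
    TriA (DD x).cur (farD κ (h0 * x) (tbl tKF x) (tbl tL x)) 0 2 3 1 7 (-1) (-1) :=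
  (sideF hx hx').farA (Or.inr rfl) (Or.inr rfl) fun y y' F r1 r2 =>
    farXA_cert (s1 := false) (s2 := false) rfl hκ (ka0 hκ hx hx') (xa0 hx) hx' (covF10 hx hx') (covF72 hx hx') (x1 hx) (x2 hx')
        Pool.Agent.Strip051.G.IE1.Tab.C.FA17.c_mm_023 noCut_VA noExt_VA F r1 r2 r1 r2

theorem FA17_mm_033 {κ x : ℝ} (hκ : κ * h0 = kenE x) (hx : 39 / 40 ≤ x) (hx' : x < 1) :
    TriA (DD x).cur (farD κ (h0 * x) (tbl tKF x) (tbl tL x)) 0 3 3 1 7 (-1) (-1) :=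
  (sideF hx hx').farA (Or.inr rfl) (Or.inr rfl) fun y y' F r1 r2 =>
    farXA_cert (s1 := false) (s2 := false) rfl hκ (ka0 hκ hx hx') (xa0 hx) hx' (covF10 hx hx') (covF73 hx hx') (x1 hx) (x2 hx')
        Pool.Agent.Strip051.G.IE1.Tab.C.FA17.c_mm_033 noCut_VA noExt_VA F r1 r2 r1 r2

theorem FA17_mm_101 {κ x : ℝ} (hκ : κ * h0 = kenE x) (hx : 39 / 40 ≤ x) (hx' : x < 1) :
    TriA (DD x).cur (farD κ (h0 * x) (tbl tKF x) (tbl tL x)) 1 0 1 1 7 (-1) (-1) :=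
  (sideF hx hx').farA (Or.inr rfl) (Or.inr rfl) fun y y' F r1 r2 =>
    farXA_cert (s1 := false) (s2 := false) rfl hκ (ka0 hκ hx hx') (xa0 hx) hx' (covF11 hx hx') (covF70 hx hx') (x1 hx) (x2 hx')
        Pool.Agent.Strip051.G.IE1.Tab.C.FA17.c_mm_101 noCut_VA noExt_VA F r1 r2 r1 r2

theorem FA17_mm_102 {κ x : ℝ} (hκ : κ * h0 = kenE x) (hx : 39 / 40 ≤ x) (hx' : x < 1) :
    TriA (DD x).cur (farD κ (h0 * x) (tbl tKF x) (tbl tL x)) 1 0 2 1 7 (-1) (-1) :=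
  (sideF hx hx').farA (Or.inr rfl) (Or.inr rfl) fun y y' F r1 r2 =>
    farXA_cert (s1 := false) (s2 := false) rfl hκ (ka0 hκ hx hx') (xa0 hx) hx' (covF11 hx hx') (covF70 hx hx') (x1 hx) (x2 hx')
        Pool.Agent.Strip051.G.IE1.Tab.C.FA17.c_mm_102 noCut_VA noExt_VA F r1 r2 r1 r2

theorem FA17_mm_112 {κ x : ℝ} (hκ : κ * h0 = kenE x) (hx : 39 / 40 ≤ x) (hx' : x < 1) :
    TriA (DD x).cur (farD κ (h0 * x) (tbl tKF x) (tbl tL x)) 1 1 2 1 7 (-1) (-1) :=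
  (sideF hx hx').farA (Or.inr rfl) (Or.inr rfl) fun y y' F r1 r2 =>
    farXA_cert (s1 := false) (s2 := false) rfl hκ (ka0 hκ hx hx') (xa0 hx) hx' (covF11 hx hx') (covF71 hx hx') (x1 hx) (x2 hx')
        Pool.Agent.Strip051.G.IE1.Tab.C.FA17.c_mm_112 noCut_VA noExt_VA F r1 r2 r1 r2

theorem FA17_mm_113 {κ x : ℝ} (hκ : κ * h0 = kenE x) (hx : 39 / 40 ≤ x) (hx' : x < 1) :
    TriA (DD x).cur (farD κ (h0 * x) (tbl tKF x) (tbl tL x)) 1 1 3 1 7 (-1) (-1) :=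
  (sideF hx hx').farA (Or.inr rfl) (Or.inr rfl) fun y y' F r1 r2 =>
    farXA_cert (s1 := false) (s2 := false) rfl hκ (ka0 hκ hx hx') (xa0 hx) hx' (covF11 hx hx') (covF71 hx hx') (x1 hx) (x2 hx')
        Pool.Agent.Strip051.G.IE1.Tab.C.FA17.c_mm_113 noCut_VA noExt_VA F r1 r2 r1 r2

theorem FA17_mm_123 {κ x : ℝ} (hκ : κ * h0 = kenE x) (hx : 39 / 40 ≤ x) (hx' : x < 1) :
    TriA (DD x).cur (farD κ (h0 * x) (tbl tKF x) (tbl tL x)) 1 2 3 1 7 (-1) (-1) :=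
  (sideF hx hx').farA (Or.inr rfl) (Or.inr rfl) fun y y' F r1 r2 =>
    farXA_cert (s1 := false) (s2 := false) rfl hκ (ka0 hκ hx hx') (xa0 hx) hx' (covF11 hx hx') (covF72 hx hx') (x1 hx) (x2 hx')
        Pool.Agent.Strip051.G.IE1.Tab.C.FA17.c_mm_123 noCut_VA noExt_VA F r1 r2 r1 r2

theorem FA17_mm_133 {κ x : ℝ} (hκ : κ * h0 = kenE x) (hx : 39 / 40 ≤ x) (hx' : x < 1) :
    TriA (DD x).cur (farD κ (h0 * x) (tbl tKF x) (tbl tL x)) 1 3 3 1 7 (-1) (-1) :=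
  (sideF hx hx').farA (Or.inr rfl) (Or.inr rfl) fun y y' F r1 r2 =>
    farXA_cert (s1 := false) (s2 := false) rfl hκ (ka0 hκ hx hx') (xa0 hx) hx' (covF11 hx hx') (covF73 hx hx') (x1 hx) (x2 hx')
        Pool.Agent.Strip051.G.IE1.Tab.C.FA17.c_mm_133 noCut_VA noExt_VA F r1 r2 r1 r2

theorem FA17_mm_202 {κ x : ℝ} (hκ : κ * h0 = kenE x) (hx : 39 / 40 ≤ x) (hx' : x < 1) :
    TriA (DD x).cur (farD κ (h0 * x) (tbl tKF x) (tbl tL x)) 2 0 2 1 7 (-1) (-1) :=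
  (sideF hx hx').farA (Or.inr rfl) (Or.inr rfl) fun y y' F r1 r2 =>
    (lt_or_ge (h0 * y) 1).elim
      (fun h => farXA_cert (s1 := false) (s2 := false) rfl hκ (ka0 hκ hx hx') (xa0 hx) hx' (covF12a hx hx') (covF70 hx hx') (x1 hx) (x2 hx')
        Pool.Agent.Strip051.G.IE1.Tab.C.FA17.c_mm_202_a noCut_VA noExt_VA F r1 r2 ⟨r1, h⟩ r2)
      (fun h => farXA_cert (s1 := false) (s2 := false) rfl hκ (ka0 hκ hx hx') (xa0 hx) hx' (covF12b hx hx') (covF70 hx hx') (x1 hx) (x2 hx')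
        Pool.Agent.Strip051.G.IE1.Tab.C.FA17.c_mm_202_b noCut_VA noExt_VA F r1 r2 ⟨r1, h⟩ r2)

theorem FA17_mm_203 {κ x : ℝ} (hκ : κ * h0 = kenE x) (hx : 39 / 40 ≤ x) (hx' : x < 1) :
    TriA (DD x).cur (farD κ (h0 * x) (tbl tKF x) (tbl tL x)) 2 0 3 1 7 (-1) (-1) :=
  (sideF hx hx').farA (Or.inr rfl) (Or.inr rfl) fun y y' F r1 r2 =>
    (lt_or_ge (h0 * y) 1).elim
      (fun h => farXA_cert (s1 := false) (s2 := false) rfl hκ (ka0 hκ hx hx') (xa0 hx) hx' (covF12a hx hx') (covF70 hx hx') (x1 hx) (x2 hx')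
        Pool.Agent.Strip051.G.IE1.Tab.C.FA17.c_mm_203_a noCut_VA noExt_VA F r1 r2 ⟨r1, h⟩ r2)
      (fun h => farXA_cert (s1 := false) (s2 := false) rfl hκ (ka0 hκ hx hx') (xa0 hx) hx' (covF12b hx hx') (covF70 hx hx') (x1 hx) (x2 hx')
        Pool.Agent.Strip051.G.IE1.Tab.C.FA17.c_mm_203_b noCut_VA noExt_VA F r1 r2 ⟨r1, h⟩ r2)

theorem FA17_mm_213 {κ x : ℝ} (hκ : κ * h0 = kenE x) (hx : 39 / 40 ≤ x) (hx' : x < 1) :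
    TriA (DD x).cur (farD κ (h0 * x) (tbl tKF x) (tbl tL x)) 2 1 3 1 7 (-1) (-1) :=
  (sideF hx hx').farA (Or.inr rfl) (Or.inr rfl) fun y y' F r1 r2 =>
    (lt_or_ge (h0 * y) 1).elim
      (fun h => farXA_cert (s1 := false) (s2 := false) rfl hκ (ka0 hκ hx hx') (xa0 hx) hx' (covF12a hx hx') (covF71 hx hx') (x1 hx) (x2 hx')
        Pool.Agent.Strip051.G.IE1.Tab.C.FA17.c_mm_213_a noCut_VA noExt_VA F r1 r2 ⟨r1, h⟩ r2)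
      (fun h => farXA_cert (s1 := false) (s2 := false) rfl hκ (ka0 hκ hx hx') (xa0 hx) hx' (covF12b hx hx') (covF71 hx hx') (x1 hx) (x2 hx')
        Pool.Agent.Strip051.G.IE1.Tab.C.FA17.c_mm_213_b noCut_VA noExt_VA F r1 r2 ⟨r1, h⟩ r2)

theorem FA17_mm_303 {κ x : ℝ} (hκ : κ * h0 = kenE x) (hx : 39 / 40 ≤ x) (hx' : x < 1) :
    TriA (DD x).cur (farD κ (h0 * x) (tbl tKF x) (tbl tL x)) 3 0 3 1 7 (-1) (-1) :=
  (sideF hx hx').farA (Or.inr rfl) (Or.inr rfl) fun y y' F r1 r2 =>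
    farXA_cert (s1 := false) (s2 := false) rfl hκ (ka0 hκ hx hx') (xa0 hx) hx' (covF13 hx hx') (covF70 hx hx') (x1 hx) (x2 hx')
        Pool.Agent.Strip051.G.IE1.Tab.C.FA17.c_mm_303 noCut_VA noExt_VA F r1 r2 r1 r2

theorem FA17_mm_313 {κ x : ℝ} (hκ : κ * h0 = kenE x) (hx : 39 / 40 ≤ x) (hx' : x < 1) :
    TriA (DD x).cur (farD κ (h0 * x) (tbl tKF x) (tbl tL x)) 3 1 3 1 7 (-1) (-1) :=
  (sideF hx hx').farA (Or.inr rfl) (Or.inr rfl) fun y y' F r1 r2 =>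
    farXA_cert (s1 := false) (s2 := false) rfl hκ (ka0 hκ hx hx') (xa0 hx) hx' (covF13 hx hx') (covF71 hx hx') (x1 hx) (x2 hx')
        Pool.Agent.Strip051.G.IE1.Tab.C.FA17.c_mm_313 noCut_VA noExt_VA F r1 r2 r1 r2

theorem FA17 {κ x : ℝ} (hκ : κ * h0 = kenE x) (hx : 39 / 40 ≤ x) (hx' : x < 1) : AllTA (DD x).cur (farD κ (h0 * x) (tbl tKF x) (tbl tL x)) 1 7 where
  pp := all17 (Q := fun a b c => TriA (DD x).cur (farD κ (h0 * x) (tbl tKF x) (tbl tL x)) a b c 1 7 1 1)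
    (FA17_pp_001 hκ hx hx') (FA17_pp_011 hκ hx hx') (FA17_pp_012 hκ hx hx') (FA17_pp_022 hκ hx hx') (FA17_pp_023 hκ hx hx') (FA17_pp_033 hκ hx hx') (FA17_pp_101 hκ hx hx') (FA17_pp_102 hκ hx hx') (FA17_pp_112 hκ hx hx') (FA17_pp_113 hκ hx hx') (FA17_pp_123 hκ hx hx') (FA17_pp_133 hκ hx hx') (FA17_pp_202 hκ hx hx') (FA17_pp_203 hκ hx hx') (FA17_pp_213 hκ hx hx') (FA17_pp_303 hκ hx hx') (FA17_pp_313 hκ hx hx')
  pm := all17 (Q := fun a b c => TriA (DD x).cur (farD κ (h0 * x) (tbl tKF x) (tbl tL x)) a b c 1 7 1 (-1))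
    (FA17_pm_001 hκ hx hx') (FA17_pm_011 hκ hx hx') (FA17_pm_012 hκ hx hx') (FA17_pm_022 hκ hx hx') (FA17_pm_023 hκ hx hx') (FA17_pm_033 hκ hx hx') (FA17_pm_101 hκ hx hx') (FA17_pm_102 hκ hx hx') (FA17_pm_112 hκ hx hx') (FA17_pm_113 hκ hx hx') (FA17_pm_123 hκ hx hx') (FA17_pm_133 hκ hx hx') (FA17_pm_202 hκ hx hx') (FA17_pm_203 hκ hx hx') (FA17_pm_213 hκ hx hx') (FA17_pm_303 hκ hx hx') (FA17_pm_313 hκ hx hx')
  mm := all17 (Q := fun a b c => TriA (DD x).cur (farD κ (h0 * x) (tbl tKF x) (tbl tL x)) a b c 1 7 (-1) (-1))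
    (FA17_mm_001 hκ hx hx') (FA17_mm_011 hκ hx hx') (FA17_mm_012 hκ hx hx') (FA17_mm_022 hκ hx hx') (FA17_mm_023 hκ hx hx') (FA17_mm_033 hκ hx hx') (FA17_mm_101 hκ hx hx') (FA17_mm_102 hκ hx hx') (FA17_mm_112 hκ hx hx') (FA17_mm_113 hκ hx hx') (FA17_mm_123 hκ hx hx') (FA17_mm_133 hκ hx hx') (FA17_mm_202 hκ hx hx') (FA17_mm_203 hκ hx hx') (FA17_mm_213 hκ hx hx') (FA17_mm_303 hκ hx hx') (FA17_mm_313 hκ hx hx')

theorem FA22_pp_001 {κ x : ℝ} (hκ : κ * h0 = kenE x) (hx : 39 / 40 ≤ x) (hx' : x < 1) :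
    TriA (DD x).cur (farD κ (h0 * x) (tbl tKF x) (tbl tL x)) 0 0 1 2 2 1 1 :=
  (sideF hx hx').farA (Or.inl rfl) (Or.inl rfl) fun y y' F r1 r2 =>
    farXA_cert (s1 := true) (s2 := true) rfl hκ (ka0 hκ hx hx') (xa0 hx) hx' (covF20 hx hx') (covF20 hx hx') (x1 hx) (x2 hx')
        Pool.Agent.Strip051.G.IE1.Tab.C.FA22.c_pp_001 noCut_VA noExt_VA F r1 r2 r1 r2

theorem FA22_pp_011 {κ x : ℝ} (hκ : κ * h0 = kenE x) (hx : 39 / 40 ≤ x) (hx' : x < 1) :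
    TriA (DD x).cur (farD κ (h0 * x) (tbl tKF x) (tbl tL x)) 0 1 1 2 2 1 1 :=
  (sideF hx hx').farA (Or.inl rfl) (Or.inl rfl) fun y y' F r1 r2 =>
    farXA_cert (s1 := true) (s2 := true) rfl hκ (ka0 hκ hx hx') (xa0 hx) hx' (covF20 hx hx') (covF21 hx hx') (x1 hx) (x2 hx')
        Pool.Agent.Strip051.G.IE1.Tab.C.FA22.c_pp_011 noCut_VA noExt_VA F r1 r2 r1 r2

theorem FA22_pp_012 {κ x : ℝ} (hκ : κ * h0 = kenE x) (hx : 39 / 40 ≤ x) (hx' : x < 1) :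
    TriA (DD x).cur (farD κ (h0 * x) (tbl tKF x) (tbl tL x)) 0 1 2 2 2 1 1 :=
  (sideF hx hx').farA (Or.inl rfl) (Or.inl rfl) fun y y' F r1 r2 =>
    farXA_cert (s1 := true) (s2 := true) rfl hκ (ka0 hκ hx hx') (xa0 hx) hx' (covF20 hx hx') (covF21 hx hx') (x1 hx) (x2 hx')
        Pool.Agent.Strip051.G.IE1.Tab.C.FA22.c_pp_012 noCut_VA noExt_VA F r1 r2 r1 r2

theorem FA22_pp_022 {κ x : ℝ} (hκ : κ * h0 = kenE x) (hx : 39 / 40 ≤ x) (hx' : x < 1) :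
    TriA (DD x).cur (farD κ (h0 * x) (tbl tKF x) (tbl tL x)) 0 2 2 2 2 1 1 :=
  (sideF hx hx').farA (Or.inl rfl) (Or.inl rfl) fun y y' F r1 r2 =>
    (lt_or_ge (h0 * y') 1).elim
      (fun g => farXA_cert (s1 := true) (s2 := true) rfl hκ (ka0 hκ hx hx') (xa0 hx) hx' (covF20 hx hx') (covF22a hx hx') (x1 hx) (x2 hx')
        Pool.Agent.Strip051.G.IE1.Tab.C.FA22.c_pp_022_a noCut_VA noExt_VA F r1 r2 r1 ⟨r2, g⟩)
      (fun g => farXA_cert (s1 := true) (s2 := true) rfl hκ (ka0 hκ hx hx') (xa0 hx) hx' (covF20 hx hx') (covF22b hx hx') (x1 hx) (x2 hx')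
        Pool.Agent.Strip051.G.IE1.Tab.C.FA22.c_pp_022_b noCut_VA noExt_VA F r1 r2 r1 ⟨r2, g⟩)

theorem FA22_pp_023 {κ x : ℝ} (hκ : κ * h0 = kenE x) (hx : 39 / 40 ≤ x) (hx' : x < 1) :
    TriA (DD x).cur (farD κ (h0 * x) (tbl tKF x) (tbl tL x)) 0 2 3 2 2 1 1 :=
  (sideF hx hx').farA (Or.inl rfl) (Or.inl rfl) fun y y' F r1 r2 =>
    (lt_or_ge (h0 * y') 1).elim
      (fun g => farXA_cert (s1 := true) (s2 := true) rfl hκ (ka0 hκ hx hx') (xa0 hx) hx' (covF20 hx hx') (covF22a hx hx') (x1 hx) (x2 hx')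
        Pool.Agent.Strip051.G.IE1.Tab.C.FA22.c_pp_023_a noCut_VA noExt_VA F r1 r2 r1 ⟨r2, g⟩)
      (fun g => farXA_cert (s1 := true) (s2 := true) rfl hκ (ka0 hκ hx hx') (xa0 hx) hx' (covF20 hx hx') (covF22b hx hx') (x1 hx) (x2 hx')
        Pool.Agent.Strip051.G.IE1.Tab.C.FA22.c_pp_023_b noCut_VA noExt_VA F r1 r2 r1 ⟨r2, g⟩)

theorem FA22_pp_033 {κ x : ℝ} (hκ : κ * h0 = kenE x) (hx : 39 / 40 ≤ x) (hx' : x < 1) :
    TriA (DD x).cur (farD κ (h0 * x) (tbl tKF x) (tbl tL x)) 0 3 3 2 2 1 1 :=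
  (sideF hx hx').farA (Or.inl rfl) (Or.inl rfl) fun y y' F r1 r2 =>
    farXA_cert (s1 := true) (s2 := true) rfl hκ (ka0 hκ hx hx') (xa0 hx) hx' (covF20 hx hx') (covF23 hx hx') (x1 hx) (x2 hx')
        Pool.Agent.Strip051.G.IE1.Tab.C.FA22.c_pp_033 noCut_VA noExt_VA F r1 r2 r1 r2

theorem FA22_pp_101 {κ x : ℝ} (hκ : κ * h0 = kenE x) (hx : 39 / 40 ≤ x) (hx' : x < 1) :
    TriA (DD x).cur (farD κ (h0 * x) (tbl tKF x) (tbl tL x)) 1 0 1 2 2 1 1 :=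
  (sideF hx hx').farA (Or.inl rfl) (Or.inl rfl) fun y y' F r1 r2 =>
    farXA_cert (s1 := true) (s2 := true) rfl hκ (ka0 hκ hx hx') (xa0 hx) hx' (covF21 hx hx') (covF20 hx hx') (x1 hx) (x2 hx')
        Pool.Agent.Strip051.G.IE1.Tab.C.FA22.c_pp_101 noCut_VA noExt_VA F r1 r2 r1 r2

theorem FA22_pp_102 {κ x : ℝ} (hκ : κ * h0 = kenE x) (hx : 39 / 40 ≤ x) (hx' : x < 1) :
    TriA (DD x).cur (farD κ (h0 * x) (tbl tKF x) (tbl tL x)) 1 0 2 2 2 1 1 :=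
  (sideF hx hx').farA (Or.inl rfl) (Or.inl rfl) fun y y' F r1 r2 =>
    farXA_cert (s1 := true) (s2 := true) rfl hκ (ka0 hκ hx hx') (xa0 hx) hx' (covF21 hx hx') (covF20 hx hx') (x1 hx) (x2 hx')
        Pool.Agent.Strip051.G.IE1.Tab.C.FA22.c_pp_102 noCut_VA noExt_VA F r1 r2 r1 r2

theorem FA22_pp_112 {κ x : ℝ} (hκ : κ * h0 = kenE x) (hx : 39 / 40 ≤ x) (hx' : x < 1) :
    TriA (DD x).cur (farD κ (h0 * x) (tbl tKF x) (tbl tL x)) 1 1 2 2 2 1 1 :=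
  (sideF hx hx').farA (Or.inl rfl) (Or.inl rfl) fun y y' F r1 r2 =>
    farXA_cert (s1 := true) (s2 := true) rfl hκ (ka0 hκ hx hx') (xa0 hx) hx' (covF21 hx hx') (covF21 hx hx') (x1 hx) (x2 hx')
        Pool.Agent.Strip051.G.IE1.Tab.C.FA22.c_pp_112 noCut_VA noExt_VA F r1 r2 r1 r2

theorem FA22_pp_113 {κ x : ℝ} (hκ : κ * h0 = kenE x) (hx : 39 / 40 ≤ x) (hx' : x < 1) :
    TriA (DD x).cur (farD κ (h0 * x) (tbl tKF x) (tbl tL x)) 1 1 3 2 2 1 1 :=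
  (sideF hx hx').farA (Or.inl rfl) (Or.inl rfl) fun y y' F r1 r2 =>
    farXA_cert (s1 := true) (s2 := true) rfl hκ (ka0 hκ hx hx') (xa0 hx) hx' (covF21 hx hx') (covF21 hx hx') (x1 hx) (x2 hx')
        Pool.Agent.Strip051.G.IE1.Tab.C.FA22.c_pp_113 noCut_VA noExt_VA F r1 r2 r1 r2

theorem FA22_pp_123 {κ x : ℝ} (hκ : κ * h0 = kenE x) (hx : 39 / 40 ≤ x) (hx' : x < 1) :
    TriA (DD x).cur (farD κ (h0 * x) (tbl tKF x) (tbl tL x)) 1 2 3 2 2 1 1 :=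
  (sideF hx hx').farA (Or.inl rfl) (Or.inl rfl) fun y y' F r1 r2 =>
    (lt_or_ge (h0 * y') 1).elim
      (fun g => farXA_cert (s1 := true) (s2 := true) rfl hκ (ka0 hκ hx hx') (xa0 hx) hx' (covF21 hx hx') (covF22a hx hx') (x1 hx) (x2 hx')
        Pool.Agent.Strip051.G.IE1.Tab.C.FA22.c_pp_123_a noCut_VA noExt_VA F r1 r2 r1 ⟨r2, g⟩)
      (fun g => farXA_cert (s1 := true) (s2 := true) rfl hκ (ka0 hκ hx hx') (xa0 hx) hx' (covF21 hx hx') (covF22b hx hx') (x1 hx) (x2 hx')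
        Pool.Agent.Strip051.G.IE1.Tab.C.FA22.c_pp_123_b noCut_VA noExt_VA F r1 r2 r1 ⟨r2, g⟩)

theorem FA22_pp_133 {κ x : ℝ} (hκ : κ * h0 = kenE x) (hx : 39 / 40 ≤ x) (hx' : x < 1) :
    TriA (DD x).cur (farD κ (h0 * x) (tbl tKF x) (tbl tL x)) 1 3 3 2 2 1 1 :=
  (sideF hx hx').farA (Or.inl rfl) (Or.inl rfl) fun y y' F r1 r2 =>
    farXA_cert (s1 := true) (s2 := true) rfl hκ (ka0 hκ hx hx') (xa0 hx) hx' (covF21 hx hx') (covF23 hx hx') (x1 hx) (x2 hx')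
        Pool.Agent.Strip051.G.IE1.Tab.C.FA22.c_pp_133 noCut_VA noExt_VA F r1 r2 r1 r2

theorem FA22_pp_202 {κ x : ℝ} (hκ : κ * h0 = kenE x) (hx : 39 / 40 ≤ x) (hx' : x < 1) :
    TriA (DD x).cur (farD κ (h0 * x) (tbl tKF x) (tbl tL x)) 2 0 2 2 2 1 1 :=
  (sideF hx hx').farA (Or.inl rfl) (Or.inl rfl) fun y y' F r1 r2 =>
    (lt_or_ge (h0 * y) 1).elim
      (fun h => farXA_cert (s1 := true) (s2 := true) rfl hκ (ka0 hκ hx hx') (xa0 hx) hx' (covF22a hx hx') (covF20 hx hx') (x1 hx) (x2 hx')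
        Pool.Agent.Strip051.G.IE1.Tab.C.FA22.c_pp_202_a noCut_VA noExt_VA F r1 r2 ⟨r1, h⟩ r2)
      (fun h => farXA_cert (s1 := true) (s2 := true) rfl hκ (ka0 hκ hx hx') (xa0 hx) hx' (covF22b hx hx') (covF20 hx hx') (x1 hx) (x2 hx')
        Pool.Agent.Strip051.G.IE1.Tab.C.FA22.c_pp_202_b noCut_VA noExt_VA F r1 r2 ⟨r1, h⟩ r2)

theorem FA22_pp_203 {κ x : ℝ} (hκ : κ * h0 = kenE x) (hx : 39 / 40 ≤ x) (hx' : x < 1) :
    TriA (DD x).cur (farD κ (h0 * x) (tbl tKF x) (tbl tL x)) 2 0 3 2 2 1 1 :=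
  (sideF hx hx').farA (Or.inl rfl) (Or.inl rfl) fun y y' F r1 r2 =>
    (lt_or_ge (h0 * y) 1).elim
      (fun h => farXA_cert (s1 := true) (s2 := true) rfl hκ (ka0 hκ hx hx') (xa0 hx) hx' (covF22a hx hx') (covF20 hx hx') (x1 hx) (x2 hx')
        Pool.Agent.Strip051.G.IE1.Tab.C.FA22.c_pp_203_a noCut_VA noExt_VA F r1 r2 ⟨r1, h⟩ r2)
      (fun h => farXA_cert (s1 := true) (s2 := true) rfl hκ (ka0 hκ hx hx') (xa0 hx) hx' (covF22b hx hx') (covF20 hx hx') (x1 hx) (x2 hx')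
        Pool.Agent.Strip051.G.IE1.Tab.C.FA22.c_pp_203_b noCut_VA noExt_VA F r1 r2 ⟨r1, h⟩ r2)

theorem FA22_pp_213 {κ x : ℝ} (hκ : κ * h0 = kenE x) (hx : 39 / 40 ≤ x) (hx' : x < 1) :
    TriA (DD x).cur (farD κ (h0 * x) (tbl tKF x) (tbl tL x)) 2 1 3 2 2 1 1 :=
  (sideF hx hx').farA (Or.inl rfl) (Or.inl rfl) fun y y' F r1 r2 =>
    (lt_or_ge (h0 * y) 1).elim
      (fun h => farXA_cert (s1 := true) (s2 := true) rfl hκ (ka0 hκ hx hx') (xa0 hx) hx' (covF22a hx hx') (covF21 hx hx') (x1 hx) (x2 hx')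
        Pool.Agent.Strip051.G.IE1.Tab.C.FA22.c_pp_213_a noCut_VA noExt_VA F r1 r2 ⟨r1, h⟩ r2)
      (fun h => farXA_cert (s1 := true) (s2 := true) rfl hκ (ka0 hκ hx hx') (xa0 hx) hx' (covF22b hx hx') (covF21 hx hx') (x1 hx) (x2 hx')
        Pool.Agent.Strip051.G.IE1.Tab.C.FA22.c_pp_213_b noCut_VA noExt_VA F r1 r2 ⟨r1, h⟩ r2)

theorem FA22_pp_303 {κ x : ℝ} (hκ : κ * h0 = kenE x) (hx : 39 / 40 ≤ x) (hx' : x < 1) :
    TriA (DD x).cur (farD κ (h0 * x) (tbl tKF x) (tbl tL x)) 3 0 3 2 2 1 1 :=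
  (sideF hx hx').farA (Or.inl rfl) (Or.inl rfl) fun y y' F r1 r2 =>
    farXA_cert (s1 := true) (s2 := true) rfl hκ (ka0 hκ hx hx') (xa0 hx) hx' (covF23 hx hx') (covF20 hx hx') (x1 hx) (x2 hx')
        Pool.Agent.Strip051.G.IE1.Tab.C.FA22.c_pp_303 noCut_VA noExt_VA F r1 r2 r1 r2

theorem FA22_pp_313 {κ x : ℝ} (hκ : κ * h0 = kenE x) (hx : 39 / 40 ≤ x) (hx' : x < 1) :
    TriA (DD x).cur (farD κ (h0 * x) (tbl tKF x) (tbl tL x)) 3 1 3 2 2 1 1 :=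
  (sideF hx hx').farA (Or.inl rfl) (Or.inl rfl) fun y y' F r1 r2 =>
    farXA_cert (s1 := true) (s2 := true) rfl hκ (ka0 hκ hx hx') (xa0 hx) hx' (covF23 hx hx') (covF21 hx hx') (x1 hx) (x2 hx')
        Pool.Agent.Strip051.G.IE1.Tab.C.FA22.c_pp_313 noCut_VA noExt_VA F r1 r2 r1 r2

theorem FA22_pm_001 {κ x : ℝ} (hκ : κ * h0 = kenE x) (hx : 39 / 40 ≤ x) (hx' : x < 1) :
    TriA (DD x).cur (farD κ (h0 * x) (tbl tKF x) (tbl tL x)) 0 0 1 2 2 1 (-1) :=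
  (sideF hx hx').farA (Or.inl rfl) (Or.inr rfl) fun y y' F r1 r2 =>
    farXA_cert (s1 := true) (s2 := false) rfl hκ (ka0 hκ hx hx') (xa0 hx) hx' (covF20 hx hx') (covF20 hx hx') (x1 hx) (x2 hx')
        Pool.Agent.Strip051.G.IE1.Tab.C.FA22.c_pm_001 noCut_VA noExt_VA F r1 r2 r1 r2

theorem FA22_pm_011 {κ x : ℝ} (hκ : κ * h0 = kenE x) (hx : 39 / 40 ≤ x) (hx' : x < 1) :
    TriA (DD x).cur (farD κ (h0 * x) (tbl tKF x) (tbl tL x)) 0 1 1 2 2 1 (-1) :=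
  (sideF hx hx').farA (Or.inl rfl) (Or.inr rfl) fun y y' F r1 r2 =>
    farXA_cert (s1 := true) (s2 := false) rfl hκ (ka0 hκ hx hx') (xa0 hx) hx' (covF20 hx hx') (covF21 hx hx') (x1 hx) (x2 hx')
        Pool.Agent.Strip051.G.IE1.Tab.C.FA22.c_pm_011 noCut_VA noExt_VA F r1 r2 r1 r2

theorem FA22_pm_012 {κ x : ℝ} (hκ : κ * h0 = kenE x) (hx : 39 / 40 ≤ x) (hx' : x < 1) :
    TriA (DD x).cur (farD κ (h0 * x) (tbl tKF x) (tbl tL x)) 0 1 2 2 2 1 (-1) :=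
  (sideF hx hx').farA (Or.inl rfl) (Or.inr rfl) fun y y' F r1 r2 =>
    farXA_cert (s1 := true) (s2 := false) rfl hκ (ka0 hκ hx hx') (xa0 hx) hx' (covF20 hx hx') (covF21 hx hx') (x1 hx) (x2 hx')
        Pool.Agent.Strip051.G.IE1.Tab.C.FA22.c_pm_012 noCut_VA noExt_VA F r1 r2 r1 r2

theorem FA22_pm_022 {κ x : ℝ} (hκ : κ * h0 = kenE x) (hx : 39 / 40 ≤ x) (hx' : x < 1) :
    TriA (DD x).cur (farD κ (h0 * x) (tbl tKF x) (tbl tL x)) 0 2 2 2 2 1 (-1) :=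
  (sideF hx hx').farA (Or.inl rfl) (Or.inr rfl) fun y y' F r1 r2 =>
    (lt_or_ge (h0 * y') 1).elim
      (fun g => farXA_cert (s1 := true) (s2 := false) rfl hκ (ka0 hκ hx hx') (xa0 hx) hx' (covF20 hx hx') (covF22a hx hx') (x1 hx) (x2 hx')
        Pool.Agent.Strip051.G.IE1.Tab.C.FA22.c_pm_022_a noCut_VA noExt_VA F r1 r2 r1 ⟨r2, g⟩)
      (fun g => farXA_cert (s1 := true) (s2 := false) rfl hκ (ka0 hκ hx hx') (xa0 hx) hx' (covF20 hx hx') (covF22b hx hx') (x1 hx) (x2 hx')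
        Pool.Agent.Strip051.G.IE1.Tab.C.FA22.c_pm_022_b noCut_VA noExt_VA F r1 r2 r1 ⟨r2, g⟩)

theorem FA22_pm_023 {κ x : ℝ} (hκ : κ * h0 = kenE x) (hx : 39 / 40 ≤ x) (hx' : x < 1) :
    TriA (DD x).cur (farD κ (h0 * x) (tbl tKF x) (tbl tL x)) 0 2 3 2 2 1 (-1) :=
  (sideF hx hx').farA (Or.inl rfl) (Or.inr rfl) fun y y' F r1 r2 =>
    (lt_or_ge (h0 * y') 1).elim
      (fun g => farXA_cert (s1 := true) (s2 := false) rfl hκ (ka0 hκ hx hx') (xa0 hx) hx' (covF20 hx hx') (covF22a hx hx') (x1 hx) (x2 hx')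
        Pool.Agent.Strip051.G.IE1.Tab.C.FA22.c_pm_023_a noCut_VA noExt_VA F r1 r2 r1 ⟨r2, g⟩)
      (fun g => farXA_cert (s1 := true) (s2 := false) rfl hκ (ka0 hκ hx hx') (xa0 hx) hx' (covF20 hx hx') (covF22b hx hx') (x1 hx) (x2 hx')
        Pool.Agent.Strip051.G.IE1.Tab.C.FA22.c_pm_023_b noCut_VA noExt_VA F r1 r2 r1 ⟨r2, g⟩)

theorem FA22_pm_033 {κ x : ℝ} (hκ : κ * h0 = kenE x) (hx : 39 / 40 ≤ x) (hx' : x < 1) :
    TriA (DD x).cur (farD κ (h0 * x) (tbl tKF x) (tbl tL x)) 0 3 3 2 2 1 (-1) :=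
  (sideF hx hx').farA (Or.inl rfl) (Or.inr rfl) fun y y' F r1 r2 =>
    farXA_cert (s1 := true) (s2 := false) rfl hκ (ka0 hκ hx hx') (xa0 hx) hx' (covF20 hx hx') (covF23 hx hx') (x1 hx) (x2 hx')
        Pool.Agent.Strip051.G.IE1.Tab.C.FA22.c_pm_033 noCut_VA noExt_VA F r1 r2 r1 r2

theorem FA22_pm_101 {κ x : ℝ} (hκ : κ * h0 = kenE x) (hx : 39 / 40 ≤ x) (hx' : x < 1) :
    TriA (DD x).cur (farD κ (h0 * x) (tbl tKF x) (tbl tL x)) 1 0 1 2 2 1 (-1) :=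
  (sideF hx hx').farA (Or.inl rfl) (Or.inr rfl) fun y y' F r1 r2 =>
    farXA_cert (s1 := true) (s2 := false) rfl hκ (ka0 hκ hx hx') (xa0 hx) hx' (covF21 hx hx') (covF20 hx hx') (x1 hx) (x2 hx')
        Pool.Agent.Strip051.G.IE1.Tab.C.FA22.c_pm_101 noCut_VA noExt_VA F r1 r2 r1 r2

theorem FA22_pm_102 {κ x : ℝ} (hκ : κ * h0 = kenE x) (hx : 39 / 40 ≤ x) (hx' : x < 1) :
    TriA (DD x).cur (farD κ (h0 * x) (tbl tKF x) (tbl tL x)) 1 0 2 2 2 1 (-1) :=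
  (sideF hx hx').farA (Or.inl rfl) (Or.inr rfl) fun y y' F r1 r2 =>
    farXA_cert (s1 := true) (s2 := false) rfl hκ (ka0 hκ hx hx') (xa0 hx) hx' (covF21 hx hx') (covF20 hx hx') (x1 hx) (x2 hx')
        Pool.Agent.Strip051.G.IE1.Tab.C.FA22.c_pm_102 noCut_VA noExt_VA F r1 r2 r1 r2

theorem FA22_pm_112 {κ x : ℝ} (hκ : κ * h0 = kenE x) (hx : 39 / 40 ≤ x) (hx' : x < 1) :
    TriA (DD x).cur (farD κ (h0 * x) (tbl tKF x) (tbl tL x)) 1 1 2 2 2 1 (-1) :=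
  (sideF hx hx').farA (Or.inl rfl) (Or.inr rfl) fun y y' F r1 r2 =>
    farXA_cert (s1 := true) (s2 := false) rfl hκ (ka0 hκ hx hx') (xa0 hx) hx' (covF21 hx hx') (covF21 hx hx') (x1 hx) (x2 hx')
        Pool.Agent.Strip051.G.IE1.Tab.C.FA22.c_pm_112 noCut_VA noExt_VA F r1 r2 r1 r2

theorem FA22_pm_113 {κ x : ℝ} (hκ : κ * h0 = kenE x) (hx : 39 / 40 ≤ x) (hx' : x < 1) :
    TriA (DD x).cur (farD κ (h0 * x) (tbl tKF x) (tbl tL x)) 1 1 3 2 2 1 (-1) :=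
  (sideF hx hx').farA (Or.inl rfl) (Or.inr rfl) fun y y' F r1 r2 =>
    farXA_cert (s1 := true) (s2 := false) rfl hκ (ka0 hκ hx hx') (xa0 hx) hx' (covF21 hx hx') (covF21 hx hx') (x1 hx) (x2 hx')
        Pool.Agent.Strip051.G.IE1.Tab.C.FA22.c_pm_113 noCut_VA noExt_VA F r1 r2 r1 r2

theorem FA22_pm_123 {κ x : ℝ} (hκ : κ * h0 = kenE x) (hx : 39 / 40 ≤ x) (hx' : x < 1) :
    TriA (DD x).cur (farD κ (h0 * x) (tbl tKF x) (tbl tL x)) 1 2 3 2 2 1 (-1) :=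
  (sideF hx hx').farA (Or.inl rfl) (Or.inr rfl) fun y y' F r1 r2 =>
    (lt_or_ge (h0 * y') 1).elim
      (fun g => farXA_cert (s1 := true) (s2 := false) rfl hκ (ka0 hκ hx hx') (xa0 hx) hx' (covF21 hx hx') (covF22a hx hx') (x1 hx) (x2 hx')
        Pool.Agent.Strip051.G.IE1.Tab.C.FA22.c_pm_123_a noCut_VA noExt_VA F r1 r2 r1 ⟨r2, g⟩)
      (fun g => farXA_cert (s1 := true) (s2 := false) rfl hκ (ka0 hκ hx hx') (xa0 hx) hx' (covF21 hx hx') (covF22b hx hx') (x1 hx) (x2 hx')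
        Pool.Agent.Strip051.G.IE1.Tab.C.FA22.c_pm_123_b noCut_VA noExt_VA F r1 r2 r1 ⟨r2, g⟩)

theorem FA22_pm_133 {κ x : ℝ} (hκ : κ * h0 = kenE x) (hx : 39 / 40 ≤ x) (hx' : x < 1) :
    TriA (DD x).cur (farD κ (h0 * x) (tbl tKF x) (tbl tL x)) 1 3 3 2 2 1 (-1) :=
  (sideF hx hx').farA (Or.inl rfl) (Or.inr rfl) fun y y' F r1 r2 =>
    farXA_cert (s1 := true) (s2 := false) rfl hκ (ka0 hκ hx hx') (xa0 hx) hx' (covF21 hx hx') (covF23 hx hx') (x1 hx) (x2 hx')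
        Pool.Agent.Strip051.G.IE1.Tab.C.FA22.c_pm_133 noCut_VA noExt_VA F r1 r2 r1 r2

theorem FA22_pm_202 {κ x : ℝ} (hκ : κ * h0 = kenE x) (hx : 39 / 40 ≤ x) (hx' : x < 1) :
    TriA (DD x).cur (farD κ (h0 * x) (tbl tKF x) (tbl tL x)) 2 0 2 2 2 1 (-1) :=
  (sideF hx hx').farA (Or.inl rfl) (Or.inr rfl) fun y y' F r1 r2 =>
    (lt_or_ge (h0 * y) 1).elim
      (fun h => farXA_cert (s1 := true) (s2 := false) rfl hκ (ka0 hκ hx hx') (xa0 hx) hx' (covF22a hx hx') (covF20 hx hx') (x1 hx) (x2 hx')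
        Pool.Agent.Strip051.G.IE1.Tab.C.FA22.c_pm_202_a noCut_VA noExt_VA F r1 r2 ⟨r1, h⟩ r2)
      (fun h => farXA_cert (s1 := true) (s2 := false) rfl hκ (ka0 hκ hx hx') (xa0 hx) hx' (covF22b hx hx') (covF20 hx hx') (x1 hx) (x2 hx')
        Pool.Agent.Strip051.G.IE1.Tab.C.FA22.c_pm_202_b noCut_VA noExt_VA F r1 r2 ⟨r1, h⟩ r2)

theorem FA22_pm_203 {κ x : ℝ} (hκ : κ * h0 = kenE x) (hx : 39 / 40 ≤ x) (hx' : x < 1) :
    TriA (DD x).cur (farD κ (h0 * x) (tbl tKF x) (tbl tL x)) 2 0 3 2 2 1 (-1) :=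
  (sideF hx hx').farA (Or.inl rfl) (Or.inr rfl) fun y y' F r1 r2 =>
    (lt_or_ge (h0 * y) 1).elim
      (fun h => farXA_cert (s1 := true) (s2 := false) rfl hκ (ka0 hκ hx hx') (xa0 hx) hx' (covF22a hx hx') (covF20 hx hx') (x1 hx) (x2 hx')
        Pool.Agent.Strip051.G.IE1.Tab.C.FA22.c_pm_203_a noCut_VA noExt_VA F r1 r2 ⟨r1, h⟩ r2)
      (fun h => farXA_cert (s1 := true) (s2 := false) rfl hκ (ka0 hκ hx hx') (xa0 hx) hx' (covF22b hx hx') (covF20 hx hx') (x1 hx) (x2 hx')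
        Pool.Agent.Strip051.G.IE1.Tab.C.FA22.c_pm_203_b noCut_VA noExt_VA F r1 r2 ⟨r1, h⟩ r2)

theorem FA22_pm_213 {κ x : ℝ} (hκ : κ * h0 = kenE x) (hx : 39 / 40 ≤ x) (hx' : x < 1) :
    TriA (DD x).cur (farD κ (h0 * x) (tbl tKF x) (tbl tL x)) 2 1 3 2 2 1 (-1) :=
  (sideF hx hx').farA (Or.inl rfl) (Or.inr rfl) fun y y' F r1 r2 =>
    (lt_or_ge (h0 * y) 1).elim
      (fun h => farXA_cert (s1 := true) (s2 := false) rfl hκ (ka0 hκ hx hx') (xa0 hx) hx' (covF22a hx hx') (covF21 hx hx') (x1 hx) (x2 hx')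
        Pool.Agent.Strip051.G.IE1.Tab.C.FA22.c_pm_213_a noCut_VA noExt_VA F r1 r2 ⟨r1, h⟩ r2)
      (fun h => farXA_cert (s1 := true) (s2 := false) rfl hκ (ka0 hκ hx hx') (xa0 hx) hx' (covF22b hx hx') (covF21 hx hx') (x1 hx) (x2 hx')
        Pool.Agent.Strip051.G.IE1.Tab.C.FA22.c_pm_213_b noCut_VA noExt_VA F r1 r2 ⟨r1, h⟩ r2)

theorem FA22_pm_303 {κ x : ℝ} (hκ : κ * h0 = kenE x) (hx : 39 / 40 ≤ x) (hx' : x < 1) :
    TriA (DD x).cur (farD κ (h0 * x) (tbl tKF x) (tbl tL x)) 3 0 3 2 2 1 (-1) :=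
  (sideF hx hx').farA (Or.inl rfl) (Or.inr rfl) fun y y' F r1 r2 =>
    farXA_cert (s1 := true) (s2 := false) rfl hκ (ka0 hκ hx hx') (xa0 hx) hx' (covF23 hx hx') (covF20 hx hx') (x1 hx) (x2 hx')
        Pool.Agent.Strip051.G.IE1.Tab.C.FA22.c_pm_303 noCut_VA noExt_VA F r1 r2 r1 r2

theorem FA22_pm_313 {κ x : ℝ} (hκ : κ * h0 = kenE x) (hx : 39 / 40 ≤ x) (hx' : x < 1) :
    TriA (DD x).cur (farD κ (h0 * x) (tbl tKF x) (tbl tL x)) 3 1 3 2 2 1 (-1) :=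
  (sideF hx hx').farA (Or.inl rfl) (Or.inr rfl) fun y y' F r1 r2 =>
    farXA_cert (s1 := true) (s2 := false) rfl hκ (ka0 hκ hx hx') (xa0 hx) hx' (covF23 hx hx') (covF21 hx hx') (x1 hx) (x2 hx')
        Pool.Agent.Strip051.G.IE1.Tab.C.FA22.c_pm_313 noCut_VA noExt_VA F r1 r2 r1 r2

theorem FA22_mm_001 {κ x : ℝ} (hκ : κ * h0 = kenE x) (hx : 39 / 40 ≤ x) (hx' : x < 1) :
    TriA (DD x).cur (farD κ (h0 * x) (tbl tKF x) (tbl tL x)) 0 0 1 2 2 (-1) (-1) :=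
  (sideF hx hx').farA (Or.inr rfl) (Or.inr rfl) fun y y' F r1 r2 =>
    farXA_cert (s1 := false) (s2 := false) rfl hκ (ka0 hκ hx hx') (xa0 hx) hx' (covF20 hx hx') (covF20 hx hx') (x1 hx) (x2 hx')
        Pool.Agent.Strip051.G.IE1.Tab.C.FA22.c_mm_001 noCut_VA noExt_VA F r1 r2 r1 r2

theorem FA22_mm_011 {κ x : ℝ} (hκ : κ * h0 = kenE x) (hx : 39 / 40 ≤ x) (hx' : x < 1) :
    TriA (DD x).cur (farD κ (h0 * x) (tbl tKF x) (tbl tL x)) 0 1 1 2 2 (-1) (-1) :=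
  (sideF hx hx').farA (Or.inr rfl) (Or.inr rfl) fun y y' F r1 r2 =>
    farXA_cert (s1 := false) (s2 := false) rfl hκ (ka0 hκ hx hx') (xa0 hx) hx' (covF20 hx hx') (covF21 hx hx') (x1 hx) (x2 hx')
        Pool.Agent.Strip051.G.IE1.Tab.C.FA22.c_mm_011 noCut_VA noExt_VA F r1 r2 r1 r2

theorem FA22_mm_012 {κ x : ℝ} (hκ : κ * h0 = kenE x) (hx : 39 / 40 ≤ x) (hx' : x < 1) :
    TriA (DD x).cur (farD κ (h0 * x) (tbl tKF x) (tbl tL x)) 0 1 2 2 2 (-1) (-1) :=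
  (sideF hx hx').farA (Or.inr rfl) (Or.inr rfl) fun y y' F r1 r2 =>
    farXA_cert (s1 := false) (s2 := false) rfl hκ (ka0 hκ hx hx') (xa0 hx) hx' (covF20 hx hx') (covF21 hx hx') (x1 hx) (x2 hx')
        Pool.Agent.Strip051.G.IE1.Tab.C.FA22.c_mm_012 noCut_VA noExt_VA F r1 r2 r1 r2

theorem FA22_mm_022 {κ x : ℝ} (hκ : κ * h0 = kenE x) (hx : 39 / 40 ≤ x) (hx' : x < 1) :
    TriA (DD x).cur (farD κ (h0 * x) (tbl tKF x) (tbl tL x)) 0 2 2 2 2 (-1) (-1) :=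
  (sideF hx hx').farA (Or.inr rfl) (Or.inr rfl) fun y y' F r1 r2 =>
    (lt_or_ge (h0 * y') 1).elim
      (fun g => farXA_cert (s1 := false) (s2 := false) rfl hκ (ka0 hκ hx hx') (xa0 hx) hx' (covF20 hx hx') (covF22a hx hx') (x1 hx) (x2 hx')
        Pool.Agent.Strip051.G.IE1.Tab.C.FA22.c_mm_022_a noCut_VA noExt_VA F r1 r2 r1 ⟨r2, g⟩)
      (fun g => farXA_cert (s1 := false) (s2 := false) rfl hκ (ka0 hκ hx hx') (xa0 hx) hx' (covF20 hx hx') (covF22b hx hx') (x1 hx) (x2 hx')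
        Pool.Agent.Strip051.G.IE1.Tab.C.FA22.c_mm_022_b noCut_VA noExt_VA F r1 r2 r1 ⟨r2, g⟩)

theorem FA22_mm_023 {κ x : ℝ} (hκ : κ * h0 = kenE x) (hx : 39 / 40 ≤ x) (hx' : x < 1) :
    TriA (DD x).cur (farD κ (h0 * x) (tbl tKF x) (tbl tL x)) 0 2 3 2 2 (-1) (-1) :=
  (sideF hx hx').farA (Or.inr rfl) (Or.inr rfl) fun y y' F r1 r2 =>
    (lt_or_ge (h0 * y') 1).elim
      (fun g => farXA_cert (s1 := false) (s2 := false) rfl hκ (ka0 hκ hx hx') (xa0 hx) hx' (covF20 hx hx') (covF22a hx hx') (x1 hx) (x2 hx')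
        Pool.Agent.Strip051.G.IE1.Tab.C.FA22.c_mm_023_a noCut_VA noExt_VA F r1 r2 r1 ⟨r2, g⟩)
      (fun g => farXA_cert (s1 := false) (s2 := false) rfl hκ (ka0 hκ hx hx') (xa0 hx) hx' (covF20 hx hx') (covF22b hx hx') (x1 hx) (x2 hx')
        Pool.Agent.Strip051.G.IE1.Tab.C.FA22.c_mm_023_b noCut_VA noExt_VA F r1 r2 r1 ⟨r2, g⟩)

theorem FA22_mm_033 {κ x : ℝ} (hκ : κ * h0 = kenE x) (hx : 39 / 40 ≤ x) (hx' : x < 1) :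
    TriA (DD x).cur (farD κ (h0 * x) (tbl tKF x) (tbl tL x)) 0 3 3 2 2 (-1) (-1) :=
  (sideF hx hx').farA (Or.inr rfl) (Or.inr rfl) fun y y' F r1 r2 =>
    farXA_cert (s1 := false) (s2 := false) rfl hκ (ka0 hκ hx hx') (xa0 hx) hx' (covF20 hx hx') (covF23 hx hx') (x1 hx) (x2 hx')
        Pool.Agent.Strip051.G.IE1.Tab.C.FA22.c_mm_033 noCut_VA noExt_VA F r1 r2 r1 r2

theorem FA22_mm_101 {κ x : ℝ} (hκ : κ * h0 = kenE x) (hx : 39 / 40 ≤ x) (hx' : x < 1) :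
    TriA (DD x).cur (farD κ (h0 * x) (tbl tKF x) (tbl tL x)) 1 0 1 2 2 (-1) (-1) :=
  (sideF hx hx').farA (Or.inr rfl) (Or.inr rfl) fun y y' F r1 r2 =>
    farXA_cert (s1 := false) (s2 := false) rfl hκ (ka0 hκ hx hx') (xa0 hx) hx' (covF21 hx hx') (covF20 hx hx') (x1 hx) (x2 hx')
        Pool.Agent.Strip051.G.IE1.Tab.C.FA22.c_mm_101 noCut_VA noExt_VA F r1 r2 r1 r2

theorem FA22_mm_102 {κ x : ℝ} (hκ : κ * h0 = kenE x) (hx : 39 / 40 ≤ x) (hx' : x < 1) :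
    TriA (DD x).cur (farD κ (h0 * x) (tbl tKF x) (tbl tL x)) 1 0 2 2 2 (-1) (-1) :=
  (sideF hx hx').farA (Or.inr rfl) (Or.inr rfl) fun y y' F r1 r2 =>
    farXA_cert (s1 := false) (s2 := false) rfl hκ (ka0 hκ hx hx') (xa0 hx) hx' (covF21 hx hx') (covF20 hx hx') (x1 hx) (x2 hx')
        Pool.Agent.Strip051.G.IE1.Tab.C.FA22.c_mm_102 noCut_VA noExt_VA F r1 r2 r1 r2

theorem FA22_mm_112 {κ x : ℝ} (hκ : κ * h0 = kenE x) (hx : 39 / 40 ≤ x) (hx' : x < 1) :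
    TriA (DD x).cur (farD κ (h0 * x) (tbl tKF x) (tbl tL x)) 1 1 2 2 2 (-1) (-1) :=
  (sideF hx hx').farA (Or.inr rfl) (Or.inr rfl) fun y y' F r1 r2 =>
    farXA_cert (s1 := false) (s2 := false) rfl hκ (ka0 hκ hx hx') (xa0 hx) hx' (covF21 hx hx') (covF21 hx hx') (x1 hx) (x2 hx')
        Pool.Agent.Strip051.G.IE1.Tab.C.FA22.c_mm_112 noCut_VA noExt_VA F r1 r2 r1 r2

theorem FA22_mm_113 {κ x : ℝ} (hκ : κ * h0 = kenE x) (hx : 39 / 40 ≤ x) (hx' : x < 1) :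
    TriA (DD x).cur (farD κ (h0 * x) (tbl tKF x) (tbl tL x)) 1 1 3 2 2 (-1) (-1) :=
  (sideF hx hx').farA (Or.inr rfl) (Or.inr rfl) fun y y' F r1 r2 =>
    farXA_cert (s1 := false) (s2 := false) rfl hκ (ka0 hκ hx hx') (xa0 hx) hx' (covF21 hx hx') (covF21 hx hx') (x1 hx) (x2 hx')
        Pool.Agent.Strip051.G.IE1.Tab.C.FA22.c_mm_113 noCut_VA noExt_VA F r1 r2 r1 r2

theorem FA22_mm_123 {κ x : ℝ} (hκ : κ * h0 = kenE x) (hx : 39 / 40 ≤ x) (hx' : x < 1) :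
    TriA (DD x).cur (farD κ (h0 * x) (tbl tKF x) (tbl tL x)) 1 2 3 2 2 (-1) (-1) :=
  (sideF hx hx').farA (Or.inr rfl) (Or.inr rfl) fun y y' F r1 r2 =>
    (lt_or_ge (h0 * y') 1).elim
      (fun g => farXA_cert (s1 := false) (s2 := false) rfl hκ (ka0 hκ hx hx') (xa0 hx) hx' (covF21 hx hx') (covF22a hx hx') (x1 hx) (x2 hx')
        Pool.Agent.Strip051.G.IE1.Tab.C.FA22.c_mm_123_a noCut_VA noExt_VA F r1 r2 r1 ⟨r2, g⟩)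
      (fun g => farXA_cert (s1 := false) (s2 := false) rfl hκ (ka0 hκ hx hx') (xa0 hx) hx' (covF21 hx hx') (covF22b hx hx') (x1 hx) (x2 hx')
        Pool.Agent.Strip051.G.IE1.Tab.C.FA22.c_mm_123_b noCut_VA noExt_VA F r1 r2 r1 ⟨r2, g⟩)

theorem FA22_mm_133 {κ x : ℝ} (hκ : κ * h0 = kenE x) (hx : 39 / 40 ≤ x) (hx' : x < 1) :
    TriA (DD x).cur (farD κ (h0 * x) (tbl tKF x) (tbl tL x)) 1 3 3 2 2 (-1) (-1) :=
  (sideF hx hx').farA (Or.inr rfl) (Or.inr rfl) fun y y' F r1 r2 =>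
    farXA_cert (s1 := false) (s2 := false) rfl hκ (ka0 hκ hx hx') (xa0 hx) hx' (covF21 hx hx') (covF23 hx hx') (x1 hx) (x2 hx')
        Pool.Agent.Strip051.G.IE1.Tab.C.FA22.c_mm_133 noCut_VA noExt_VA F r1 r2 r1 r2

theorem FA22_mm_202 {κ x : ℝ} (hκ : κ * h0 = kenE x) (hx : 39 / 40 ≤ x) (hx' : x < 1) :
    TriA (DD x).cur (farD κ (h0 * x) (tbl tKF x) (tbl tL x)) 2 0 2 2 2 (-1) (-1) :=
  (sideF hx hx').farA (Or.inr rfl) (Or.inr rfl) fun y y' F r1 r2 =>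
    (lt_or_ge (h0 * y) 1).elim
      (fun h => farXA_cert (s1 := false) (s2 := false) rfl hκ (ka0 hκ hx hx') (xa0 hx) hx' (covF22a hx hx') (covF20 hx hx') (x1 hx) (x2 hx')
        Pool.Agent.Strip051.G.IE1.Tab.C.FA22.c_mm_202_a noCut_VA noExt_VA F r1 r2 ⟨r1, h⟩ r2)
      (fun h => farXA_cert (s1 := false) (s2 := false) rfl hκ (ka0 hκ hx hx') (xa0 hx) hx' (covF22b hx hx') (covF20 hx hx') (x1 hx) (x2 hx')
        Pool.Agent.Strip051.G.IE1.Tab.C.FA22.c_mm_202_b noCut_VA noExt_VA F r1 r2 ⟨r1, h⟩ r2)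

theorem FA22_mm_203 {κ x : ℝ} (hκ : κ * h0 = kenE x) (hx : 39 / 40 ≤ x) (hx' : x < 1) :
    TriA (DD x).cur (farD κ (h0 * x) (tbl tKF x) (tbl tL x)) 2 0 3 2 2 (-1) (-1) :=
  (sideF hx hx').farA (Or.inr rfl) (Or.inr rfl) fun y y' F r1 r2 =>
    (lt_or_ge (h0 * y) 1).elim
      (fun h => farXA_cert (s1 := false) (s2 := false) rfl hκ (ka0 hκ hx hx') (xa0 hx) hx' (covF22a hx hx') (covF20 hx hx') (x1 hx) (x2 hx')
        Pool.Agent.Strip051.G.IE1.Tab.C.FA22.c_mm_203_a noCut_VA noExt_VA F r1 r2 ⟨r1, h⟩ r2)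
      (fun h => farXA_cert (s1 := false) (s2 := false) rfl hκ (ka0 hκ hx hx') (xa0 hx) hx' (covF22b hx hx') (covF20 hx hx') (x1 hx) (x2 hx')
        Pool.Agent.Strip051.G.IE1.Tab.C.FA22.c_mm_203_b noCut_VA noExt_VA F r1 r2 ⟨r1, h⟩ r2)

theorem FA22_mm_213 {κ x : ℝ} (hκ : κ * h0 = kenE x) (hx : 39 / 40 ≤ x) (hx' : x < 1) :
    TriA (DD x).cur (farD κ (h0 * x) (tbl tKF x) (tbl tL x)) 2 1 3 2 2 (-1) (-1) :=
  (sideF hx hx').farA (Or.inr rfl) (Or.inr rfl) fun y y' F r1 r2 =>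
    (lt_or_ge (h0 * y) 1).elim
      (fun h => farXA_cert (s1 := false) (s2 := false) rfl hκ (ka0 hκ hx hx') (xa0 hx) hx' (covF22a hx hx') (covF21 hx hx') (x1 hx) (x2 hx')
        Pool.Agent.Strip051.G.IE1.Tab.C.FA22.c_mm_213_a noCut_VA noExt_VA F r1 r2 ⟨r1, h⟩ r2)
      (fun h => farXA_cert (s1 := false) (s2 := false) rfl hκ (ka0 hκ hx hx') (xa0 hx) hx' (covF22b hx hx') (covF21 hx hx') (x1 hx) (x2 hx')
        Pool.Agent.Strip051.G.IE1.Tab.C.FA22.c_mm_213_b noCut_VA noExt_VA F r1 r2 ⟨r1, h⟩ r2)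

theorem FA22_mm_303 {κ x : ℝ} (hκ : κ * h0 = kenE x) (hx : 39 / 40 ≤ x) (hx' : x < 1) :
    TriA (DD x).cur (farD κ (h0 * x) (tbl tKF x) (tbl tL x)) 3 0 3 2 2 (-1) (-1) :=
  (sideF hx hx').farA (Or.inr rfl) (Or.inr rfl) fun y y' F r1 r2 =>
    farXA_cert (s1 := false) (s2 := false) rfl hκ (ka0 hκ hx hx') (xa0 hx) hx' (covF23 hx hx') (covF20 hx hx') (x1 hx) (x2 hx')
        Pool.Agent.Strip051.G.IE1.Tab.C.FA22.c_mm_303 noCut_VA noExt_VA F r1 r2 r1 r2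

theorem FA22_mm_313 {κ x : ℝ} (hκ : κ * h0 = kenE x) (hx : 39 / 40 ≤ x) (hx' : x < 1) :
    TriA (DD x).cur (farD κ (h0 * x) (tbl tKF x) (tbl tL x)) 3 1 3 2 2 (-1) (-1) :=
  (sideF hx hx').farA (Or.inr rfl) (Or.inr rfl) fun y y' F r1 r2 =>
    farXA_cert (s1 := false) (s2 := false) rfl hκ (ka0 hκ hx hx') (xa0 hx) hx' (covF23 hx hx') (covF21 hx hx') (x1 hx) (x2 hx')
        Pool.Agent.Strip051.G.IE1.Tab.C.FA22.c_mm_313 noCut_VA noExt_VA F r1 r2 r1 r2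

theorem FA22 {κ x : ℝ} (hκ : κ * h0 = kenE x) (hx : 39 / 40 ≤ x) (hx' : x < 1) : AllTA (DD x).cur (farD κ (h0 * x) (tbl tKF x) (tbl tL x)) 2 2 where
  pp := all17 (Q := fun a b c => TriA (DD x).cur (farD κ (h0 * x) (tbl tKF x) (tbl tL x)) a b c 2 2 1 1)
    (FA22_pp_001 hκ hx hx') (FA22_pp_011 hκ hx hx') (FA22_pp_012 hκ hx hx') (FA22_pp_022 hκ hx hx') (FA22_pp_023 hκ hx hx') (FA22_pp_033 hκ hx hx') (FA22_pp_101 hκ hx hx') (FA22_pp_102 hκ hx hx') (FA22_pp_112 hκ hx hx') (FA22_pp_113 hκ hx hx') (FA22_pp_123 hκ hx hx') (FA22_pp_133 hκ hx hx') (FA22_pp_202 hκ hx hx') (FA22_pp_203 hκ hx hx') (FA22_pp_213 hκ hx hx') (FA22_pp_303 hκ hx hx') (FA22_pp_313 hκ hx hx')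
  pm := all17 (Q := fun a b c => TriA (DD x).cur (farD κ (h0 * x) (tbl tKF x) (tbl tL x)) a b c 2 2 1 (-1))
    (FA22_pm_001 hκ hx hx') (FA22_pm_011 hκ hx hx') (FA22_pm_012 hκ hx hx') (FA22_pm_022 hκ hx hx') (FA22_pm_023 hκ hx hx') (FA22_pm_033 hκ hx hx') (FA22_pm_101 hκ hx hx') (FA22_pm_102 hκ hx hx') (FA22_pm_112 hκ hx hx') (FA22_pm_113 hκ hx hx') (FA22_pm_123 hκ hx hx') (FA22_pm_133 hκ hx hx') (FA22_pm_202 hκ hx hx') (FA22_pm_203 hκ hx hx') (FA22_pm_213 hκ hx hx') (FA22_pm_303 hκ hx hx') (FA22_pm_313 hκ hx hx')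
  mm := all17 (Q := fun a b c => TriA (DD x).cur (farD κ (h0 * x) (tbl tKF x) (tbl tL x)) a b c 2 2 (-1) (-1))
    (FA22_mm_001 hκ hx hx') (FA22_mm_011 hκ hx hx') (FA22_mm_012 hκ hx hx') (FA22_mm_022 hκ hx hx') (FA22_mm_023 hκ hx hx') (FA22_mm_033 hκ hx hx') (FA22_mm_101 hκ hx hx') (FA22_mm_102 hκ hx hx') (FA22_mm_112 hκ hx hx') (FA22_mm_113 hκ hx hx') (FA22_mm_123 hκ hx hx') (FA22_mm_133 hκ hx hx') (FA22_mm_202 hκ hx hx') (FA22_mm_203 hκ hx hx') (FA22_mm_213 hκ hx hx') (FA22_mm_303 hκ hx hx') (FA22_mm_313 hκ hx hx')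

theorem FA23_pp_001 {κ x : ℝ} (hκ : κ * h0 = kenE x) (hx : 39 / 40 ≤ x) (hx' : x < 1) :
    TriA (DD x).cur (farD κ (h0 * x) (tbl tKF x) (tbl tL x)) 0 0 1 2 3 1 1 :=
  (sideF hx hx').farA (Or.inl rfl) (Or.inl rfl) fun y y' F r1 r2 =>
    farXA_cert (s1 := true) (s2 := true) rfl hκ (ka0 hκ hx hx') (xa0 hx) hx' (covF20 hx hx') (covF30 hx hx') (x1 hx) (x2 hx')
        Pool.Agent.Strip051.G.IE1.Tab.C.FA23.c_pp_001 noCut_VA noExt_VA F r1 r2 r1 r2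

theorem FA23_pp_011 {κ x : ℝ} (hκ : κ * h0 = kenE x) (hx : 39 / 40 ≤ x) (hx' : x < 1) :
    TriA (DD x).cur (farD κ (h0 * x) (tbl tKF x) (tbl tL x)) 0 1 1 2 3 1 1 :=
  (sideF hx hx').farA (Or.inl rfl) (Or.inl rfl) fun y y' F r1 r2 =>
    farXA_cert (s1 := true) (s2 := true) rfl hκ (ka0 hκ hx hx') (xa0 hx) hx' (covF20 hx hx') (covF31 hx hx') (x1 hx) (x2 hx')
        Pool.Agent.Strip051.G.IE1.Tab.C.FA23.c_pp_011 noCut_VA noExt_VA F r1 r2 r1 r2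

theorem FA23_pp_012 {κ x : ℝ} (hκ : κ * h0 = kenE x) (hx : 39 / 40 ≤ x) (hx' : x < 1) :
    TriA (DD x).cur (farD κ (h0 * x) (tbl tKF x) (tbl tL x)) 0 1 2 2 3 1 1 :=
  (sideF hx hx').farA (Or.inl rfl) (Or.inl rfl) fun y y' F r1 r2 =>
    farXA_cert (s1 := true) (s2 := true) rfl hκ (ka0 hκ hx hx') (xa0 hx) hx' (covF20 hx hx') (covF31 hx hx') (x1 hx) (x2 hx')
        Pool.Agent.Strip051.G.IE1.Tab.C.FA23.c_pp_012 noCut_VA noExt_VA F r1 r2 r1 r2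

theorem FA23_pp_022 {κ x : ℝ} (hκ : κ * h0 = kenE x) (hx : 39 / 40 ≤ x) (hx' : x < 1) :
    TriA (DD x).cur (farD κ (h0 * x) (tbl tKF x) (tbl tL x)) 0 2 2 2 3 1 1 :=
  (sideF hx hx').farA (Or.inl rfl) (Or.inl rfl) fun y y' F r1 r2 =>
    farXA_cert (s1 := true) (s2 := true) rfl hκ (ka0 hκ hx hx') (xa0 hx) hx' (covF20 hx hx') (covF32 hx hx') (x1 hx) (x2 hx')
        Pool.Agent.Strip051.G.IE1.Tab.C.FA23.c_pp_022 noCut_VA noExt_VA F r1 r2 r1 r2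

theorem FA23_pp_023 {κ x : ℝ} (hκ : κ * h0 = kenE x) (hx : 39 / 40 ≤ x) (hx' : x < 1) :
    TriA (DD x).cur (farD κ (h0 * x) (tbl tKF x) (tbl tL x)) 0 2 3 2 3 1 1 :=
  (sideF hx hx').farA (Or.inl rfl) (Or.inl rfl) fun y y' F r1 r2 =>
    farXA_cert (s1 := true) (s2 := true) rfl hκ (ka0 hκ hx hx') (xa0 hx) hx' (covF20 hx hx') (covF32 hx hx') (x1 hx) (x2 hx')
        Pool.Agent.Strip051.G.IE1.Tab.C.FA23.c_pp_023 noCut_VA noExt_VA F r1 r2 r1 r2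

theorem FA23_pp_033 {κ x : ℝ} (hκ : κ * h0 = kenE x) (hx : 39 / 40 ≤ x) (hx' : x < 1) :
    TriA (DD x).cur (farD κ (h0 * x) (tbl tKF x) (tbl tL x)) 0 3 3 2 3 1 1 :=
  (sideF hx hx').farA (Or.inl rfl) (Or.inl rfl) fun y y' F r1 r2 =>
    farXA_cert (s1 := true) (s2 := true) rfl hκ (ka0 hκ hx hx') (xa0 hx) hx' (covF20 hx hx') (covF33 hx hx') (x1 hx) (x2 hx')
        Pool.Agent.Strip051.G.IE1.Tab.C.FA23.c_pp_033 noCut_VA noExt_VA F r1 r2 r1 r2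

theorem FA23_pp_101 {κ x : ℝ} (hκ : κ * h0 = kenE x) (hx : 39 / 40 ≤ x) (hx' : x < 1) :
    TriA (DD x).cur (farD κ (h0 * x) (tbl tKF x) (tbl tL x)) 1 0 1 2 3 1 1 :=
  (sideF hx hx').farA (Or.inl rfl) (Or.inl rfl) fun y y' F r1 r2 =>
    farXA_cert (s1 := true) (s2 := true) rfl hκ (ka0 hκ hx hx') (xa0 hx) hx' (covF21 hx hx') (covF30 hx hx') (x1 hx) (x2 hx')
        Pool.Agent.Strip051.G.IE1.Tab.C.FA23.c_pp_101 noCut_VA noExt_VA F r1 r2 r1 r2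

theorem FA23_pp_102 {κ x : ℝ} (hκ : κ * h0 = kenE x) (hx : 39 / 40 ≤ x) (hx' : x < 1) :
    TriA (DD x).cur (farD κ (h0 * x) (tbl tKF x) (tbl tL x)) 1 0 2 2 3 1 1 :=
  (sideF hx hx').farA (Or.inl rfl) (Or.inl rfl) fun y y' F r1 r2 =>
    farXA_cert (s1 := true) (s2 := true) rfl hκ (ka0 hκ hx hx') (xa0 hx) hx' (covF21 hx hx') (covF30 hx hx') (x1 hx) (x2 hx')
        Pool.Agent.Strip051.G.IE1.Tab.C.FA23.c_pp_102 noCut_VA noExt_VA F r1 r2 r1 r2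

theorem FA23_pp_112 {κ x : ℝ} (hκ : κ * h0 = kenE x) (hx : 39 / 40 ≤ x) (hx' : x < 1) :
    TriA (DD x).cur (farD κ (h0 * x) (tbl tKF x) (tbl tL x)) 1 1 2 2 3 1 1 :=
  (sideF hx hx').farA (Or.inl rfl) (Or.inl rfl) fun y y' F r1 r2 =>
    farXA_cert (s1 := true) (s2 := true) rfl hκ (ka0 hκ hx hx') (xa0 hx) hx' (covF21 hx hx') (covF31 hx hx') (x1 hx) (x2 hx')
        Pool.Agent.Strip051.G.IE1.Tab.C.FA23.c_pp_112 noCut_VA noExt_VA F r1 r2 r1 r2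

theorem FA23_pp_113 {κ x : ℝ} (hκ : κ * h0 = kenE x) (hx : 39 / 40 ≤ x) (hx' : x < 1) :
    TriA (DD x).cur (farD κ (h0 * x) (tbl tKF x) (tbl tL x)) 1 1 3 2 3 1 1 :=
  (sideF hx hx').farA (Or.inl rfl) (Or.inl rfl) fun y y' F r1 r2 =>
    farXA_cert (s1 := true) (s2 := true) rfl hκ (ka0 hκ hx hx') (xa0 hx) hx' (covF21 hx hx') (covF31 hx hx') (x1 hx) (x2 hx')
        Pool.Agent.Strip051.G.IE1.Tab.C.FA23.c_pp_113 noCut_VA noExt_VA F r1 r2 r1 r2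

theorem FA23_pp_123 {κ x : ℝ} (hκ : κ * h0 = kenE x) (hx : 39 / 40 ≤ x) (hx' : x < 1) :
    TriA (DD x).cur (farD κ (h0 * x) (tbl tKF x) (tbl tL x)) 1 2 3 2 3 1 1 :=
  (sideF hx hx').farA (Or.inl rfl) (Or.inl rfl) fun y y' F r1 r2 =>
    farXA_cert (s1 := true) (s2 := true) rfl hκ (ka0 hκ hx hx') (xa0 hx) hx' (covF21 hx hx') (covF32 hx hx') (x1 hx) (x2 hx')
        Pool.Agent.Strip051.G.IE1.Tab.C.FA23.c_pp_123 noCut_VA noExt_VA F r1 r2 r1 r2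

theorem FA23_pp_133 {κ x : ℝ} (hκ : κ * h0 = kenE x) (hx : 39 / 40 ≤ x) (hx' : x < 1) :
    TriA (DD x).cur (farD κ (h0 * x) (tbl tKF x) (tbl tL x)) 1 3 3 2 3 1 1 :=
  (sideF hx hx').farA (Or.inl rfl) (Or.inl rfl) fun y y' F r1 r2 =>
    farXA_cert (s1 := true) (s2 := true) rfl hκ (ka0 hκ hx hx') (xa0 hx) hx' (covF21 hx hx') (covF33 hx hx') (x1 hx) (x2 hx')
        Pool.Agent.Strip051.G.IE1.Tab.C.FA23.c_pp_133 noCut_VA noExt_VA F r1 r2 r1 r2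

theorem FA23_pp_202 {κ x : ℝ} (hκ : κ * h0 = kenE x) (hx : 39 / 40 ≤ x) (hx' : x < 1) :
    TriA (DD x).cur (farD κ (h0 * x) (tbl tKF x) (tbl tL x)) 2 0 2 2 3 1 1 :=
  (sideF hx hx').farA (Or.inl rfl) (Or.inl rfl) fun y y' F r1 r2 =>
    (lt_or_ge (h0 * y) 1).elim
      (fun h => farXA_cert (s1 := true) (s2 := true) rfl hκ (ka0 hκ hx hx') (xa0 hx) hx' (covF22a hx hx') (covF30 hx hx') (x1 hx) (x2 hx')
        Pool.Agent.Strip051.G.IE1.Tab.C.FA23.c_pp_202_a noCut_VA noExt_VA F r1 r2 ⟨r1, h⟩ r2)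
      (fun h => farXA_cert (s1 := true) (s2 := true) rfl hκ (ka0 hκ hx hx') (xa0 hx) hx' (covF22b hx hx') (covF30 hx hx') (x1 hx) (x2 hx')
        Pool.Agent.Strip051.G.IE1.Tab.C.FA23.c_pp_202_b noCut_VA noExt_VA F r1 r2 ⟨r1, h⟩ r2)

theorem FA23_pp_203 {κ x : ℝ} (hκ : κ * h0 = kenE x) (hx : 39 / 40 ≤ x) (hx' : x < 1) :
    TriA (DD x).cur (farD κ (h0 * x) (tbl tKF x) (tbl tL x)) 2 0 3 2 3 1 1 :=
  (sideF hx hx').farA (Or.inl rfl) (Or.inl rfl) fun y y' F r1 r2 =>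
    (lt_or_ge (h0 * y) 1).elim
      (fun h => farXA_cert (s1 := true) (s2 := true) rfl hκ (ka0 hκ hx hx') (xa0 hx) hx' (covF22a hx hx') (covF30 hx hx') (x1 hx) (x2 hx')
        Pool.Agent.Strip051.G.IE1.Tab.C.FA23.c_pp_203_a noCut_VA noExt_VA F r1 r2 ⟨r1, h⟩ r2)
      (fun h => farXA_cert (s1 := true) (s2 := true) rfl hκ (ka0 hκ hx hx') (xa0 hx) hx' (covF22b hx hx') (covF30 hx hx') (x1 hx) (x2 hx')
        Pool.Agent.Strip051.G.IE1.Tab.C.FA23.c_pp_203_b noCut_VA noExt_VA F r1 r2 ⟨r1, h⟩ r2)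

theorem FA23_pp_213 {κ x : ℝ} (hκ : κ * h0 = kenE x) (hx : 39 / 40 ≤ x) (hx' : x < 1) :
    TriA (DD x).cur (farD κ (h0 * x) (tbl tKF x) (tbl tL x)) 2 1 3 2 3 1 1 :=
  (sideF hx hx').farA (Or.inl rfl) (Or.inl rfl) fun y y' F r1 r2 =>
    (lt_or_ge (h0 * y) 1).elim
      (fun h => farXA_cert (s1 := true) (s2 := true) rfl hκ (ka0 hκ hx hx') (xa0 hx) hx' (covF22a hx hx') (covF31 hx hx') (x1 hx) (x2 hx')
        Pool.Agent.Strip051.G.IE1.Tab.C.FA23.c_pp_213_a noCut_VA noExt_VA F r1 r2 ⟨r1, h⟩ r2)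
      (fun h => farXA_cert (s1 := true) (s2 := true) rfl hκ (ka0 hκ hx hx') (xa0 hx) hx' (covF22b hx hx') (covF31 hx hx') (x1 hx) (x2 hx')
        Pool.Agent.Strip051.G.IE1.Tab.C.FA23.c_pp_213_b noCut_VA noExt_VA F r1 r2 ⟨r1, h⟩ r2)

theorem FA23_pp_303 {κ x : ℝ} (hκ : κ * h0 = kenE x) (hx : 39 / 40 ≤ x) (hx' : x < 1) :
    TriA (DD x).cur (farD κ (h0 * x) (tbl tKF x) (tbl tL x)) 3 0 3 2 3 1 1 :=
  (sideF hx hx').farA (Or.inl rfl) (Or.inl rfl) fun y y' F r1 r2 =>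
    farXA_cert (s1 := true) (s2 := true) rfl hκ (ka0 hκ hx hx') (xa0 hx) hx' (covF23 hx hx') (covF30 hx hx') (x1 hx) (x2 hx')
        Pool.Agent.Strip051.G.IE1.Tab.C.FA23.c_pp_303 noCut_VA noExt_VA F r1 r2 r1 r2

theorem FA23_pp_313 {κ x : ℝ} (hκ : κ * h0 = kenE x) (hx : 39 / 40 ≤ x) (hx' : x < 1) :
    TriA (DD x).cur (farD κ (h0 * x) (tbl tKF x) (tbl tL x)) 3 1 3 2 3 1 1 :=
  (sideF hx hx').farA (Or.inl rfl) (Or.inl rfl) fun y y' F r1 r2 =>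
    farXA_cert (s1 := true) (s2 := true) rfl hκ (ka0 hκ hx hx') (xa0 hx) hx' (covF23 hx hx') (covF31 hx hx') (x1 hx) (x2 hx')
        Pool.Agent.Strip051.G.IE1.Tab.C.FA23.c_pp_313 noCut_VA noExt_VA F r1 r2 r1 r2

theorem FA23_pm_001 {κ x : ℝ} (hκ : κ * h0 = kenE x) (hx : 39 / 40 ≤ x) (hx' : x < 1) :
    TriA (DD x).cur (farD κ (h0 * x) (tbl tKF x) (tbl tL x)) 0 0 1 2 3 1 (-1) :=
  (sideF hx hx').farA (Or.inl rfl) (Or.inr rfl) fun y y' F r1 r2 =>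
    farXA_cert (s1 := true) (s2 := false) rfl hκ (ka0 hκ hx hx') (xa0 hx) hx' (covF20 hx hx') (covF30 hx hx') (x1 hx) (x2 hx')
        Pool.Agent.Strip051.G.IE1.Tab.C.FA23.c_pm_001 noCut_VA noExt_VA F r1 r2 r1 r2

theorem FA23_pm_011 {κ x : ℝ} (hκ : κ * h0 = kenE x) (hx : 39 / 40 ≤ x) (hx' : x < 1) :
    TriA (DD x).cur (farD κ (h0 * x) (tbl tKF x) (tbl tL x)) 0 1 1 2 3 1 (-1) :=
  (sideF hx hx').farA (Or.inl rfl) (Or.inr rfl) fun y y' F r1 r2 =>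
    farXA_cert (s1 := true) (s2 := false) rfl hκ (ka0 hκ hx hx') (xa0 hx) hx' (covF20 hx hx') (covF31 hx hx') (x1 hx) (x2 hx')
        Pool.Agent.Strip051.G.IE1.Tab.C.FA23.c_pm_011 noCut_VA noExt_VA F r1 r2 r1 r2

theorem FA23_pm_012 {κ x : ℝ} (hκ : κ * h0 = kenE x) (hx : 39 / 40 ≤ x) (hx' : x < 1) :
    TriA (DD x).cur (farD κ (h0 * x) (tbl tKF x) (tbl tL x)) 0 1 2 2 3 1 (-1) :=
  (sideF hx hx').farA (Or.inl rfl) (Or.inr rfl) fun y y' F r1 r2 =>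
    farXA_cert (s1 := true) (s2 := false) rfl hκ (ka0 hκ hx hx') (xa0 hx) hx' (covF20 hx hx') (covF31 hx hx') (x1 hx) (x2 hx')
        Pool.Agent.Strip051.G.IE1.Tab.C.FA23.c_pm_012 noCut_VA noExt_VA F r1 r2 r1 r2

theorem FA23_pm_022 {κ x : ℝ} (hκ : κ * h0 = kenE x) (hx : 39 / 40 ≤ x) (hx' : x < 1) :
    TriA (DD x).cur (farD κ (h0 * x) (tbl tKF x) (tbl tL x)) 0 2 2 2 3 1 (-1) :=
  (sideF hx hx').farA (Or.inl rfl) (Or.inr rfl) fun y y' F r1 r2 =>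
    farXA_cert (s1 := true) (s2 := false) rfl hκ (ka0 hκ hx hx') (xa0 hx) hx' (covF20 hx hx') (covF32 hx hx') (x1 hx) (x2 hx')
        Pool.Agent.Strip051.G.IE1.Tab.C.FA23.c_pm_022 noCut_VA noExt_VA F r1 r2 r1 r2

theorem FA23_pm_023 {κ x : ℝ} (hκ : κ * h0 = kenE x) (hx : 39 / 40 ≤ x) (hx' : x < 1) :
    TriA (DD x).cur (farD κ (h0 * x) (tbl tKF x) (tbl tL x)) 0 2 3 2 3 1 (-1) :=
  (sideF hx hx').farA (Or.inl rfl) (Or.inr rfl) fun y y' F r1 r2 =>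
    farXA_cert (s1 := true) (s2 := false) rfl hκ (ka0 hκ hx hx') (xa0 hx) hx' (covF20 hx hx') (covF32 hx hx') (x1 hx) (x2 hx')
        Pool.Agent.Strip051.G.IE1.Tab.C.FA23.c_pm_023 noCut_VA noExt_VA F r1 r2 r1 r2

theorem FA23_pm_033 {κ x : ℝ} (hκ : κ * h0 = kenE x) (hx : 39 / 40 ≤ x) (hx' : x < 1) :
    TriA (DD x).cur (farD κ (h0 * x) (tbl tKF x) (tbl tL x)) 0 3 3 2 3 1 (-1) :=
  (sideF hx hx').farA (Or.inl rfl) (Or.inr rfl) fun y y' F r1 r2 =>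
    farXA_cert (s1 := true) (s2 := false) rfl hκ (ka0 hκ hx hx') (xa0 hx) hx' (covF20 hx hx') (covF33 hx hx') (x1 hx) (x2 hx')
        Pool.Agent.Strip051.G.IE1.Tab.C.FA23.c_pm_033 noCut_VA noExt_VA F r1 r2 r1 r2

theorem FA23_pm_101 {κ x : ℝ} (hκ : κ * h0 = kenE x) (hx : 39 / 40 ≤ x) (hx' : x < 1) :
    TriA (DD x).cur (farD κ (h0 * x) (tbl tKF x) (tbl tL x)) 1 0 1 2 3 1 (-1) :=
  (sideF hx hx').farA (Or.inl rfl) (Or.inr rfl) fun y y' F r1 r2 =>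
    farXA_cert (s1 := true) (s2 := false) rfl hκ (ka0 hκ hx hx') (xa0 hx) hx' (covF21 hx hx') (covF30 hx hx') (x1 hx) (x2 hx')
        Pool.Agent.Strip051.G.IE1.Tab.C.FA23.c_pm_101 noCut_VA noExt_VA F r1 r2 r1 r2

theorem FA23_pm_102 {κ x : ℝ} (hκ : κ * h0 = kenE x) (hx : 39 / 40 ≤ x) (hx' : x < 1) :
    TriA (DD x).cur (farD κ (h0 * x) (tbl tKF x) (tbl tL x)) 1 0 2 2 3 1 (-1) :=
  (sideF hx hx').farA (Or.inl rfl) (Or.inr rfl) fun y y' F r1 r2 =>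
    farXA_cert (s1 := true) (s2 := false) rfl hκ (ka0 hκ hx hx') (xa0 hx) hx' (covF21 hx hx') (covF30 hx hx') (x1 hx) (x2 hx')
        Pool.Agent.Strip051.G.IE1.Tab.C.FA23.c_pm_102 noCut_VA noExt_VA F r1 r2 r1 r2

theorem FA23_pm_112 {κ x : ℝ} (hκ : κ * h0 = kenE x) (hx : 39 / 40 ≤ x) (hx' : x < 1) :
    TriA (DD x).cur (farD κ (h0 * x) (tbl tKF x) (tbl tL x)) 1 1 2 2 3 1 (-1) :=
  (sideF hx hx').farA (Or.inl rfl) (Or.inr rfl) fun y y' F r1 r2 =>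
    farXA_cert (s1 := true) (s2 := false) rfl hκ (ka0 hκ hx hx') (xa0 hx) hx' (covF21 hx hx') (covF31 hx hx') (x1 hx) (x2 hx')
        Pool.Agent.Strip051.G.IE1.Tab.C.FA23.c_pm_112 noCut_VA noExt_VA F r1 r2 r1 r2

theorem FA23_pm_113 {κ x : ℝ} (hκ : κ * h0 = kenE x) (hx : 39 / 40 ≤ x) (hx' : x < 1) :
    TriA (DD x).cur (farD κ (h0 * x) (tbl tKF x) (tbl tL x)) 1 1 3 2 3 1 (-1) :=
  (sideF hx hx').farA (Or.inl rfl) (Or.inr rfl) fun y y' F r1 r2 =>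
    farXA_cert (s1 := true) (s2 := false) rfl hκ (ka0 hκ hx hx') (xa0 hx) hx' (covF21 hx hx') (covF31 hx hx') (x1 hx) (x2 hx')
        Pool.Agent.Strip051.G.IE1.Tab.C.FA23.c_pm_113 noCut_VA noExt_VA F r1 r2 r1 r2

theorem FA23_pm_123 {κ x : ℝ} (hκ : κ * h0 = kenE x) (hx : 39 / 40 ≤ x) (hx' : x < 1) :
    TriA (DD x).cur (farD κ (h0 * x) (tbl tKF x) (tbl tL x)) 1 2 3 2 3 1 (-1) :=
  (sideF hx hx').farA (Or.inl rfl) (Or.inr rfl) fun y y' F r1 r2 =>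
    farXA_cert (s1 := true) (s2 := false) rfl hκ (ka0 hκ hx hx') (xa0 hx) hx' (covF21 hx hx') (covF32 hx hx') (x1 hx) (x2 hx')
        Pool.Agent.Strip051.G.IE1.Tab.C.FA23.c_pm_123 noCut_VA noExt_VA F r1 r2 r1 r2

theorem FA23_pm_133 {κ x : ℝ} (hκ : κ * h0 = kenE x) (hx : 39 / 40 ≤ x) (hx' : x < 1) :
    TriA (DD x).cur (farD κ (h0 * x) (tbl tKF x) (tbl tL x)) 1 3 3 2 3 1 (-1) :=
  (sideF hx hx').farA (Or.inl rfl) (Or.inr rfl) fun y y' F r1 r2 =>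
    farXA_cert (s1 := true) (s2 := false) rfl hκ (ka0 hκ hx hx') (xa0 hx) hx' (covF21 hx hx') (covF33 hx hx') (x1 hx) (x2 hx')
        Pool.Agent.Strip051.G.IE1.Tab.C.FA23.c_pm_133 noCut_VA noExt_VA F r1 r2 r1 r2

theorem FA23_pm_202 {κ x : ℝ} (hκ : κ * h0 = kenE x) (hx : 39 / 40 ≤ x) (hx' : x < 1) :
    TriA (DD x).cur (farD κ (h0 * x) (tbl tKF x) (tbl tL x)) 2 0 2 2 3 1 (-1) :=
  (sideF hx hx').farA (Or.inl rfl) (Or.inr rfl) fun y y' F r1 r2 =>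
    (lt_or_ge (h0 * y) 1).elim
      (fun h => farXA_cert (s1 := true) (s2 := false) rfl hκ (ka0 hκ hx hx') (xa0 hx) hx' (covF22a hx hx') (covF30 hx hx') (x1 hx) (x2 hx')
        Pool.Agent.Strip051.G.IE1.Tab.C.FA23.c_pm_202_a noCut_VA noExt_VA F r1 r2 ⟨r1, h⟩ r2)
      (fun h => farXA_cert (s1 := true) (s2 := false) rfl hκ (ka0 hκ hx hx') (xa0 hx) hx' (covF22b hx hx') (covF30 hx hx') (x1 hx) (x2 hx')
        Pool.Agent.Strip051.G.IE1.Tab.C.FA23.c_pm_202_b noCut_VA noExt_VA F r1 r2 ⟨r1, h⟩ r2)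

theorem FA23_pm_203 {κ x : ℝ} (hκ : κ * h0 = kenE x) (hx : 39 / 40 ≤ x) (hx' : x < 1) :
    TriA (DD x).cur (farD κ (h0 * x) (tbl tKF x) (tbl tL x)) 2 0 3 2 3 1 (-1) :=
  (sideF hx hx').farA (Or.inl rfl) (Or.inr rfl) fun y y' F r1 r2 =>
    (lt_or_ge (h0 * y) 1).elim
      (fun h => farXA_cert (s1 := true) (s2 := false) rfl hκ (ka0 hκ hx hx') (xa0 hx) hx' (covF22a hx hx') (covF30 hx hx') (x1 hx) (x2 hx')
        Pool.Agent.Strip051.G.IE1.Tab.C.FA23.c_pm_203_a noCut_VA noExt_VA F r1 r2 ⟨r1, h⟩ r2)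
      (fun h => farXA_cert (s1 := true) (s2 := false) rfl hκ (ka0 hκ hx hx') (xa0 hx) hx' (covF22b hx hx') (covF30 hx hx') (x1 hx) (x2 hx')
        Pool.Agent.Strip051.G.IE1.Tab.C.FA23.c_pm_203_b noCut_VA noExt_VA F r1 r2 ⟨r1, h⟩ r2)

theorem FA23_pm_213 {κ x : ℝ} (hκ : κ * h0 = kenE x) (hx : 39 / 40 ≤ x) (hx' : x < 1) :
    TriA (DD x).cur (farD κ (h0 * x) (tbl tKF x) (tbl tL x)) 2 1 3 2 3 1 (-1) :=
  (sideF hx hx').farA (Or.inl rfl) (Or.inr rfl) fun y y' F r1 r2 =>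
    (lt_or_ge (h0 * y) 1).elim
      (fun h => farXA_cert (s1 := true) (s2 := false) rfl hκ (ka0 hκ hx hx') (xa0 hx) hx' (covF22a hx hx') (covF31 hx hx') (x1 hx) (x2 hx')
        Pool.Agent.Strip051.G.IE1.Tab.C.FA23.c_pm_213_a noCut_VA noExt_VA F r1 r2 ⟨r1, h⟩ r2)
      (fun h => farXA_cert (s1 := true) (s2 := false) rfl hκ (ka0 hκ hx hx') (xa0 hx) hx' (covF22b hx hx') (covF31 hx hx') (x1 hx) (x2 hx')
        Pool.Agent.Strip051.G.IE1.Tab.C.FA23.c_pm_213_b noCut_VA noExt_VA F r1 r2 ⟨r1, h⟩ r2)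

theorem FA23_pm_303 {κ x : ℝ} (hκ : κ * h0 = kenE x) (hx : 39 / 40 ≤ x) (hx' : x < 1) :
    TriA (DD x).cur (farD κ (h0 * x) (tbl tKF x) (tbl tL x)) 3 0 3 2 3 1 (-1) :=
  (sideF hx hx').farA (Or.inl rfl) (Or.inr rfl) fun y y' F r1 r2 =>
    farXA_cert (s1 := true) (s2 := false) rfl hκ (ka0 hκ hx hx') (xa0 hx) hx' (covF23 hx hx') (covF30 hx hx') (x1 hx) (x2 hx')
        Pool.Agent.Strip051.G.IE1.Tab.C.FA23.c_pm_303 noCut_VA noExt_VA F r1 r2 r1 r2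

theorem FA23_pm_313 {κ x : ℝ} (hκ : κ * h0 = kenE x) (hx : 39 / 40 ≤ x) (hx' : x < 1) :
    TriA (DD x).cur (farD κ (h0 * x) (tbl tKF x) (tbl tL x)) 3 1 3 2 3 1 (-1) :=
  (sideF hx hx').farA (Or.inl rfl) (Or.inr rfl) fun y y' F r1 r2 =>
    farXA_cert (s1 := true) (s2 := false) rfl hκ (ka0 hκ hx hx') (xa0 hx) hx' (covF23 hx hx') (covF31 hx hx') (x1 hx) (x2 hx')
        Pool.Agent.Strip051.G.IE1.Tab.C.FA23.c_pm_313 noCut_VA noExt_VA F r1 r2 r1 r2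

theorem FA23_mm_001 {κ x : ℝ} (hκ : κ * h0 = kenE x) (hx : 39 / 40 ≤ x) (hx' : x < 1) :
    TriA (DD x).cur (farD κ (h0 * x) (tbl tKF x) (tbl tL x)) 0 0 1 2 3 (-1) (-1) :=
  (sideF hx hx').farA (Or.inr rfl) (Or.inr rfl) fun y y' F r1 r2 =>
    farXA_cert (s1 := false) (s2 := false) rfl hκ (ka0 hκ hx hx') (xa0 hx) hx' (covF20 hx hx') (covF30 hx hx') (x1 hx) (x2 hx')
        Pool.Agent.Strip051.G.IE1.Tab.C.FA23.c_mm_001 noCut_VA noExt_VA F r1 r2 r1 r2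

theorem FA23_mm_011 {κ x : ℝ} (hκ : κ * h0 = kenE x) (hx : 39 / 40 ≤ x) (hx' : x < 1) :
    TriA (DD x).cur (farD κ (h0 * x) (tbl tKF x) (tbl tL x)) 0 1 1 2 3 (-1) (-1) :=
  (sideF hx hx').farA (Or.inr rfl) (Or.inr rfl) fun y y' F r1 r2 =>
    farXA_cert (s1 := false) (s2 := false) rfl hκ (ka0 hκ hx hx') (xa0 hx) hx' (covF20 hx hx') (covF31 hx hx') (x1 hx) (x2 hx')
        Pool.Agent.Strip051.G.IE1.Tab.C.FA23.c_mm_011 noCut_VA noExt_VA F r1 r2 r1 r2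

theorem FA23_mm_012 {κ x : ℝ} (hκ : κ * h0 = kenE x) (hx : 39 / 40 ≤ x) (hx' : x < 1) :
    TriA (DD x).cur (farD κ (h0 * x) (tbl tKF x) (tbl tL x)) 0 1 2 2 3 (-1) (-1) :=
  (sideF hx hx').farA (Or.inr rfl) (Or.inr rfl) fun y y' F r1 r2 =>
    farXA_cert (s1 := false) (s2 := false) rfl hκ (ka0 hκ hx hx') (xa0 hx) hx' (covF20 hx hx') (covF31 hx hx') (x1 hx) (x2 hx')
        Pool.Agent.Strip051.G.IE1.Tab.C.FA23.c_mm_012 noCut_VA noExt_VA F r1 r2 r1 r2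

theorem FA23_mm_022 {κ x : ℝ} (hκ : κ * h0 = kenE x) (hx : 39 / 40 ≤ x) (hx' : x < 1) :
    TriA (DD x).cur (farD κ (h0 * x) (tbl tKF x) (tbl tL x)) 0 2 2 2 3 (-1) (-1) :=
  (sideF hx hx').farA (Or.inr rfl) (Or.inr rfl) fun y y' F r1 r2 =>
    farXA_cert (s1 := false) (s2 := false) rfl hκ (ka0 hκ hx hx') (xa0 hx) hx' (covF20 hx hx') (covF32 hx hx') (x1 hx) (x2 hx')
        Pool.Agent.Strip051.G.IE1.Tab.C.FA23.c_mm_022 noCut_VA noExt_VA F r1 r2 r1 r2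

theorem FA23_mm_023 {κ x : ℝ} (hκ : κ * h0 = kenE x) (hx : 39 / 40 ≤ x) (hx' : x < 1) :
    TriA (DD x).cur (farD κ (h0 * x) (tbl tKF x) (tbl tL x)) 0 2 3 2 3 (-1) (-1) :=
  (sideF hx hx').farA (Or.inr rfl) (Or.inr rfl) fun y y' F r1 r2 =>
    farXA_cert (s1 := false) (s2 := false) rfl hκ (ka0 hκ hx hx') (xa0 hx) hx' (covF20 hx hx') (covF32 hx hx') (x1 hx) (x2 hx')
        Pool.Agent.Strip051.G.IE1.Tab.C.FA23.c_mm_023 noCut_VA noExt_VA F r1 r2 r1 r2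

theorem FA23_mm_033 {κ x : ℝ} (hκ : κ * h0 = kenE x) (hx : 39 / 40 ≤ x) (hx' : x < 1) :
    TriA (DD x).cur (farD κ (h0 * x) (tbl tKF x) (tbl tL x)) 0 3 3 2 3 (-1) (-1) :=
  (sideF hx hx').farA (Or.inr rfl) (Or.inr rfl) fun y y' F r1 r2 =>
    farXA_cert (s1 := false) (s2 := false) rfl hκ (ka0 hκ hx hx') (xa0 hx) hx' (covF20 hx hx') (covF33 hx hx') (x1 hx) (x2 hx')
        Pool.Agent.Strip051.G.IE1.Tab.C.FA23.c_mm_033 noCut_VA noExt_VA F r1 r2 r1 r2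

theorem FA23_mm_101 {κ x : ℝ} (hκ : κ * h0 = kenE x) (hx : 39 / 40 ≤ x) (hx' : x < 1) :
    TriA (DD x).cur (farD κ (h0 * x) (tbl tKF x) (tbl tL x)) 1 0 1 2 3 (-1) (-1) :=
  (sideF hx hx').farA (Or.inr rfl) (Or.inr rfl) fun y y' F r1 r2 =>
    farXA_cert (s1 := false) (s2 := false) rfl hκ (ka0 hκ hx hx') (xa0 hx) hx' (covF21 hx hx') (covF30 hx hx') (x1 hx) (x2 hx')
        Pool.Agent.Strip051.G.IE1.Tab.C.FA23.c_mm_101 noCut_VA noExt_VA F r1 r2 r1 r2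

theorem FA23_mm_102 {κ x : ℝ} (hκ : κ * h0 = kenE x) (hx : 39 / 40 ≤ x) (hx' : x < 1) :
    TriA (DD x).cur (farD κ (h0 * x) (tbl tKF x) (tbl tL x)) 1 0 2 2 3 (-1) (-1) :=
  (sideF hx hx').farA (Or.inr rfl) (Or.inr rfl) fun y y' F r1 r2 =>
    farXA_cert (s1 := false) (s2 := false) rfl hκ (ka0 hκ hx hx') (xa0 hx) hx' (covF21 hx hx') (covF30 hx hx') (x1 hx) (x2 hx')
        Pool.Agent.Strip051.G.IE1.Tab.C.FA23.c_mm_102 noCut_VA noExt_VA F r1 r2 r1 r2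

theorem FA23_mm_112 {κ x : ℝ} (hκ : κ * h0 = kenE x) (hx : 39 / 40 ≤ x) (hx' : x < 1) :
    TriA (DD x).cur (farD κ (h0 * x) (tbl tKF x) (tbl tL x)) 1 1 2 2 3 (-1) (-1) :=
  (sideF hx hx').farA (Or.inr rfl) (Or.inr rfl) fun y y' F r1 r2 =>
    farXA_cert (s1 := false) (s2 := false) rfl hκ (ka0 hκ hx hx') (xa0 hx) hx' (covF21 hx hx') (covF31 hx hx') (x1 hx) (x2 hx')
        Pool.Agent.Strip051.G.IE1.Tab.C.FA23.c_mm_112 noCut_VA noExt_VA F r1 r2 r1 r2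

theorem FA23_mm_113 {κ x : ℝ} (hκ : κ * h0 = kenE x) (hx : 39 / 40 ≤ x) (hx' : x < 1) :
    TriA (DD x).cur (farD κ (h0 * x) (tbl tKF x) (tbl tL x)) 1 1 3 2 3 (-1) (-1) :=
  (sideF hx hx').farA (Or.inr rfl) (Or.inr rfl) fun y y' F r1 r2 =>
    farXA_cert (s1 := false) (s2 := false) rfl hκ (ka0 hκ hx hx') (xa0 hx) hx' (covF21 hx hx') (covF31 hx hx') (x1 hx) (x2 hx')
        Pool.Agent.Strip051.G.IE1.Tab.C.FA23.c_mm_113 noCut_VA noExt_VA F r1 r2 r1 r2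

theorem FA23_mm_123 {κ x : ℝ} (hκ : κ * h0 = kenE x) (hx : 39 / 40 ≤ x) (hx' : x < 1) :
    TriA (DD x).cur (farD κ (h0 * x) (tbl tKF x) (tbl tL x)) 1 2 3 2 3 (-1) (-1) :=
  (sideF hx hx').farA (Or.inr rfl) (Or.inr rfl) fun y y' F r1 r2 =>
    farXA_cert (s1 := false) (s2 := false) rfl hκ (ka0 hκ hx hx') (xa0 hx) hx' (covF21 hx hx') (covF32 hx hx') (x1 hx) (x2 hx')
        Pool.Agent.Strip051.G.IE1.Tab.C.FA23.c_mm_123 noCut_VA noExt_VA F r1 r2 r1 r2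

theorem FA23_mm_133 {κ x : ℝ} (hκ : κ * h0 = kenE x) (hx : 39 / 40 ≤ x) (hx' : x < 1) :
    TriA (DD x).cur (farD κ (h0 * x) (tbl tKF x) (tbl tL x)) 1 3 3 2 3 (-1) (-1) :=
  (sideF hx hx').farA (Or.inr rfl) (Or.inr rfl) fun y y' F r1 r2 =>
    farXA_cert (s1 := false) (s2 := false) rfl hκ (ka0 hκ hx hx') (xa0 hx) hx' (covF21 hx hx') (covF33 hx hx') (x1 hx) (x2 hx')
        Pool.Agent.Strip051.G.IE1.Tab.C.FA23.c_mm_133 noCut_VA noExt_VA F r1 r2 r1 r2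

theorem FA23_mm_202 {κ x : ℝ} (hκ : κ * h0 = kenE x) (hx : 39 / 40 ≤ x) (hx' : x < 1) :
    TriA (DD x).cur (farD κ (h0 * x) (tbl tKF x) (tbl tL x)) 2 0 2 2 3 (-1) (-1) :=
  (sideF hx hx').farA (Or.inr rfl) (Or.inr rfl) fun y y' F r1 r2 =>
    (lt_or_ge (h0 * y) 1).elim
      (fun h => farXA_cert (s1 := false) (s2 := false) rfl hκ (ka0 hκ hx hx') (xa0 hx) hx' (covF22a hx hx') (covF30 hx hx') (x1 hx) (x2 hx')
        Pool.Agent.Strip051.G.IE1.Tab.C.FA23.c_mm_202_a noCut_VA noExt_VA F r1 r2 ⟨r1, h⟩ r2)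
      (fun h => farXA_cert (s1 := false) (s2 := false) rfl hκ (ka0 hκ hx hx') (xa0 hx) hx' (covF22b hx hx') (covF30 hx hx') (x1 hx) (x2 hx')
        Pool.Agent.Strip051.G.IE1.Tab.C.FA23.c_mm_202_b noCut_VA noExt_VA F r1 r2 ⟨r1, h⟩ r2)

theorem FA23_mm_203 {κ x : ℝ} (hκ : κ * h0 = kenE x) (hx : 39 / 40 ≤ x) (hx' : x < 1) :
    TriA (DD x).cur (farD κ (h0 * x) (tbl tKF x) (tbl tL x)) 2 0 3 2 3 (-1) (-1) :=
  (sideF hx hx').farA (Or.inr rfl) (Or.inr rfl) fun y y' F r1 r2 =>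
    (lt_or_ge (h0 * y) 1).elim
      (fun h => farXA_cert (s1 := false) (s2 := false) rfl hκ (ka0 hκ hx hx') (xa0 hx) hx' (covF22a hx hx') (covF30 hx hx') (x1 hx) (x2 hx')
        Pool.Agent.Strip051.G.IE1.Tab.C.FA23.c_mm_203_a noCut_VA noExt_VA F r1 r2 ⟨r1, h⟩ r2)
      (fun h => farXA_cert (s1 := false) (s2 := false) rfl hκ (ka0 hκ hx hx') (xa0 hx) hx' (covF22b hx hx') (covF30 hx hx') (x1 hx) (x2 hx')
        Pool.Agent.Strip051.G.IE1.Tab.C.FA23.c_mm_203_b noCut_VA noExt_VA F r1 r2 ⟨r1, h⟩ r2)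

theorem FA23_mm_213 {κ x : ℝ} (hκ : κ * h0 = kenE x) (hx : 39 / 40 ≤ x) (hx' : x < 1) :
    TriA (DD x).cur (farD κ (h0 * x) (tbl tKF x) (tbl tL x)) 2 1 3 2 3 (-1) (-1) :=
  (sideF hx hx').farA (Or.inr rfl) (Or.inr rfl) fun y y' F r1 r2 =>
    (lt_or_ge (h0 * y) 1).elim
      (fun h => farXA_cert (s1 := false) (s2 := false) rfl hκ (ka0 hκ hx hx') (xa0 hx) hx' (covF22a hx hx') (covF31 hx hx') (x1 hx) (x2 hx')
        Pool.Agent.Strip051.G.IE1.Tab.C.FA23.c_mm_213_a noCut_VA noExt_VA F r1 r2 ⟨r1, h⟩ r2)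
      (fun h => farXA_cert (s1 := false) (s2 := false) rfl hκ (ka0 hκ hx hx') (xa0 hx) hx' (covF22b hx hx') (covF31 hx hx') (x1 hx) (x2 hx')
        Pool.Agent.Strip051.G.IE1.Tab.C.FA23.c_mm_213_b noCut_VA noExt_VA F r1 r2 ⟨r1, h⟩ r2)

theorem FA23_mm_303 {κ x : ℝ} (hκ : κ * h0 = kenE x) (hx : 39 / 40 ≤ x) (hx' : x < 1) :
    TriA (DD x).cur (farD κ (h0 * x) (tbl tKF x) (tbl tL x)) 3 0 3 2 3 (-1) (-1) :=
  (sideF hx hx').farA (Or.inr rfl) (Or.inr rfl) fun y y' F r1 r2 =>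
    farXA_cert (s1 := false) (s2 := false) rfl hκ (ka0 hκ hx hx') (xa0 hx) hx' (covF23 hx hx') (covF30 hx hx') (x1 hx) (x2 hx')
        Pool.Agent.Strip051.G.IE1.Tab.C.FA23.c_mm_303 noCut_VA noExt_VA F r1 r2 r1 r2

theorem FA23_mm_313 {κ x : ℝ} (hκ : κ * h0 = kenE x) (hx : 39 / 40 ≤ x) (hx' : x < 1) :
    TriA (DD x).cur (farD κ (h0 * x) (tbl tKF x) (tbl tL x)) 3 1 3 2 3 (-1) (-1) :=
  (sideF hx hx').farA (Or.inr rfl) (Or.inr rfl) fun y y' F r1 r2 =>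
    farXA_cert (s1 := false) (s2 := false) rfl hκ (ka0 hκ hx hx') (xa0 hx) hx' (covF23 hx hx') (covF31 hx hx') (x1 hx) (x2 hx')
        Pool.Agent.Strip051.G.IE1.Tab.C.FA23.c_mm_313 noCut_VA noExt_VA F r1 r2 r1 r2

theorem FA23 {κ x : ℝ} (hκ : κ * h0 = kenE x) (hx : 39 / 40 ≤ x) (hx' : x < 1) : AllTA (DD x).cur (farD κ (h0 * x) (tbl tKF x) (tbl tL x)) 2 3 where
  pp := all17 (Q := fun a b c => TriA (DD x).cur (farD κ (h0 * x) (tbl tKF x) (tbl tL x)) a b c 2 3 1 1)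
    (FA23_pp_001 hκ hx hx') (FA23_pp_011 hκ hx hx') (FA23_pp_012 hκ hx hx') (FA23_pp_022 hκ hx hx') (FA23_pp_023 hκ hx hx') (FA23_pp_033 hκ hx hx') (FA23_pp_101 hκ hx hx') (FA23_pp_102 hκ hx hx') (FA23_pp_112 hκ hx hx') (FA23_pp_113 hκ hx hx') (FA23_pp_123 hκ hx hx') (FA23_pp_133 hκ hx hx') (FA23_pp_202 hκ hx hx') (FA23_pp_203 hκ hx hx') (FA23_pp_213 hκ hx hx') (FA23_pp_303 hκ hx hx') (FA23_pp_313 hκ hx hx')
  pm := all17 (Q := fun a b c => TriA (DD x).cur (farD κ (h0 * x) (tbl tKF x) (tbl tL x)) a b c 2 3 1 (-1))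
    (FA23_pm_001 hκ hx hx') (FA23_pm_011 hκ hx hx') (FA23_pm_012 hκ hx hx') (FA23_pm_022 hκ hx hx') (FA23_pm_023 hκ hx hx') (FA23_pm_033 hκ hx hx') (FA23_pm_101 hκ hx hx') (FA23_pm_102 hκ hx hx') (FA23_pm_112 hκ hx hx') (FA23_pm_113 hκ hx hx') (FA23_pm_123 hκ hx hx') (FA23_pm_133 hκ hx hx') (FA23_pm_202 hκ hx hx') (FA23_pm_203 hκ hx hx') (FA23_pm_213 hκ hx hx') (FA23_pm_303 hκ hx hx') (FA23_pm_313 hκ hx hx')
  mm := all17 (Q := fun a b c => TriA (DD x).cur (farD κ (h0 * x) (tbl tKF x) (tbl tL x)) a b c 2 3 (-1) (-1))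
    (FA23_mm_001 hκ hx hx') (FA23_mm_011 hκ hx hx') (FA23_mm_012 hκ hx hx') (FA23_mm_022 hκ hx hx') (FA23_mm_023 hκ hx hx') (FA23_mm_033 hκ hx hx') (FA23_mm_101 hκ hx hx') (FA23_mm_102 hκ hx hx') (FA23_mm_112 hκ hx hx') (FA23_mm_113 hκ hx hx') (FA23_mm_123 hκ hx hx') (FA23_mm_133 hκ hx hx') (FA23_mm_202 hκ hx hx') (FA23_mm_203 hκ hx hx') (FA23_mm_213 hκ hx hx') (FA23_mm_303 hκ hx hx') (FA23_mm_313 hκ hx hx')

theorem FA24_pp_001 {κ x : ℝ} (hκ : κ * h0 = kenE x) (hx : 39 / 40 ≤ x) (hx' : x < 1) :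
    TriA (DD x).cur (farD κ (h0 * x) (tbl tKF x) (tbl tL x)) 0 0 1 2 4 1 1 :=
  (sideF hx hx').farA (Or.inl rfl) (Or.inl rfl) fun y y' F r1 r2 =>
    farXA_cert (s1 := true) (s2 := true) rfl hκ (ka0 hκ hx hx') (xa0 hx) hx' (covF20 hx hx') (covF40 hx hx') (x1 hx) (x2 hx')
        Pool.Agent.Strip051.G.IE1.Tab.C.FA24.c_pp_001 noCut_VA noExt_VA F r1 r2 r1 r2

theorem FA24_pp_011 {κ x : ℝ} (hκ : κ * h0 = kenE x) (hx : 39 / 40 ≤ x) (hx' : x < 1) :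
    TriA (DD x).cur (farD κ (h0 * x) (tbl tKF x) (tbl tL x)) 0 1 1 2 4 1 1 :=
  triVA_k nr4_1

theorem FA24_pp_012 {κ x : ℝ} (hκ : κ * h0 = kenE x) (hx : 39 / 40 ≤ x) (hx' : x < 1) :
    TriA (DD x).cur (farD κ (h0 * x) (tbl tKF x) (tbl tL x)) 0 1 2 2 4 1 1 :=
  triVA_k nr4_1

theorem FA24_pp_022 {κ x : ℝ} (hκ : κ * h0 = kenE x) (hx : 39 / 40 ≤ x) (hx' : x < 1) :
    TriA (DD x).cur (farD κ (h0 * x) (tbl tKF x) (tbl tL x)) 0 2 2 2 4 1 1 :=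
  triVA_k nr4_2

theorem FA24_pp_023 {κ x : ℝ} (hκ : κ * h0 = kenE x) (hx : 39 / 40 ≤ x) (hx' : x < 1) :
    TriA (DD x).cur (farD κ (h0 * x) (tbl tKF x) (tbl tL x)) 0 2 3 2 4 1 1 :=
  triVA_k nr4_2

theorem FA24_pp_033 {κ x : ℝ} (hκ : κ * h0 = kenE x) (hx : 39 / 40 ≤ x) (hx' : x < 1) :
    TriA (DD x).cur (farD κ (h0 * x) (tbl tKF x) (tbl tL x)) 0 3 3 2 4 1 1 :=
  triVA_k nr4_3

theorem FA24_pp_101 {κ x : ℝ} (hκ : κ * h0 = kenE x) (hx : 39 / 40 ≤ x) (hx' : x < 1) :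
    TriA (DD x).cur (farD κ (h0 * x) (tbl tKF x) (tbl tL x)) 1 0 1 2 4 1 1 :=
  (sideF hx hx').farA (Or.inl rfl) (Or.inl rfl) fun y y' F r1 r2 =>
    farXA_cert (s1 := true) (s2 := true) rfl hκ (ka0 hκ hx hx') (xa0 hx) hx' (covF21 hx hx') (covF40 hx hx') (x1 hx) (x2 hx')
        Pool.Agent.Strip051.G.IE1.Tab.C.FA24.c_pp_101 noCut_VA noExt_VA F r1 r2 r1 r2

theorem FA24_pp_102 {κ x : ℝ} (hκ : κ * h0 = kenE x) (hx : 39 / 40 ≤ x) (hx' : x < 1) :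
    TriA (DD x).cur (farD κ (h0 * x) (tbl tKF x) (tbl tL x)) 1 0 2 2 4 1 1 :=
  (sideF hx hx').farA (Or.inl rfl) (Or.inl rfl) fun y y' F r1 r2 =>
    farXA_cert (s1 := true) (s2 := true) rfl hκ (ka0 hκ hx hx') (xa0 hx) hx' (covF21 hx hx') (covF40 hx hx') (x1 hx) (x2 hx')
        Pool.Agent.Strip051.G.IE1.Tab.C.FA24.c_pp_102 noCut_VA noExt_VA F r1 r2 r1 r2

theorem FA24_pp_112 {κ x : ℝ} (hκ : κ * h0 = kenE x) (hx : 39 / 40 ≤ x) (hx' : x < 1) :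
    TriA (DD x).cur (farD κ (h0 * x) (tbl tKF x) (tbl tL x)) 1 1 2 2 4 1 1 :=
  triVA_k nr4_1

theorem FA24_pp_113 {κ x : ℝ} (hκ : κ * h0 = kenE x) (hx : 39 / 40 ≤ x) (hx' : x < 1) :
    TriA (DD x).cur (farD κ (h0 * x) (tbl tKF x) (tbl tL x)) 1 1 3 2 4 1 1 :=
  triVA_k nr4_1

theorem FA24_pp_123 {κ x : ℝ} (hκ : κ * h0 = kenE x) (hx : 39 / 40 ≤ x) (hx' : x < 1) :
    TriA (DD x).cur (farD κ (h0 * x) (tbl tKF x) (tbl tL x)) 1 2 3 2 4 1 1 :=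
  triVA_k nr4_2

theorem FA24_pp_133 {κ x : ℝ} (hκ : κ * h0 = kenE x) (hx : 39 / 40 ≤ x) (hx' : x < 1) :
    TriA (DD x).cur (farD κ (h0 * x) (tbl tKF x) (tbl tL x)) 1 3 3 2 4 1 1 :=
  triVA_k nr4_3

theorem FA24_pp_202 {κ x : ℝ} (hκ : κ * h0 = kenE x) (hx : 39 / 40 ≤ x) (hx' : x < 1) :
    TriA (DD x).cur (farD κ (h0 * x) (tbl tKF x) (tbl tL x)) 2 0 2 2 4 1 1 :=
  (sideF hx hx').farA (Or.inl rfl) (Or.inl rfl) fun y y' F r1 r2 =>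
    (lt_or_ge (h0 * y) 1).elim
      (fun h => farXA_cert (s1 := true) (s2 := true) rfl hκ (ka0 hκ hx hx') (xa0 hx) hx' (covF22a hx hx') (covF40 hx hx') (x1 hx) (x2 hx')
        Pool.Agent.Strip051.G.IE1.Tab.C.FA24.c_pp_202_a noCut_VA noExt_VA F r1 r2 ⟨r1, h⟩ r2)
      (fun h => farXA_cert (s1 := true) (s2 := true) rfl hκ (ka0 hκ hx hx') (xa0 hx) hx' (covF22b hx hx') (covF40 hx hx') (x1 hx) (x2 hx')
        Pool.Agent.Strip051.G.IE1.Tab.C.FA24.c_pp_202_b noCut_VA noExt_VA F r1 r2 ⟨r1, h⟩ r2)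

theorem FA24_pp_203 {κ x : ℝ} (hκ : κ * h0 = kenE x) (hx : 39 / 40 ≤ x) (hx' : x < 1) :
    TriA (DD x).cur (farD κ (h0 * x) (tbl tKF x) (tbl tL x)) 2 0 3 2 4 1 1 :=
  (sideF hx hx').farA (Or.inl rfl) (Or.inl rfl) fun y y' F r1 r2 =>
    (lt_or_ge (h0 * y) 1).elim
      (fun h => farXA_cert (s1 := true) (s2 := true) rfl hκ (ka0 hκ hx hx') (xa0 hx) hx' (covF22a hx hx') (covF40 hx hx') (x1 hx) (x2 hx')
        Pool.Agent.Strip051.G.IE1.Tab.C.FA24.c_pp_203_a noCut_VA noExt_VA F r1 r2 ⟨r1, h⟩ r2)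
      (fun h => farXA_cert (s1 := true) (s2 := true) rfl hκ (ka0 hκ hx hx') (xa0 hx) hx' (covF22b hx hx') (covF40 hx hx') (x1 hx) (x2 hx')
        Pool.Agent.Strip051.G.IE1.Tab.C.FA24.c_pp_203_b noCut_VA noExt_VA F r1 r2 ⟨r1, h⟩ r2)

theorem FA24_pp_213 {κ x : ℝ} (hκ : κ * h0 = kenE x) (hx : 39 / 40 ≤ x) (hx' : x < 1) :
    TriA (DD x).cur (farD κ (h0 * x) (tbl tKF x) (tbl tL x)) 2 1 3 2 4 1 1 :=
  triVA_k nr4_1

theorem FA24_pp_303 {κ x : ℝ} (hκ : κ * h0 = kenE x) (hx : 39 / 40 ≤ x) (hx' : x < 1) :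
    TriA (DD x).cur (farD κ (h0 * x) (tbl tKF x) (tbl tL x)) 3 0 3 2 4 1 1 :=
  (sideF hx hx').farA (Or.inl rfl) (Or.inl rfl) fun y y' F r1 r2 =>
    farXA_cert (s1 := true) (s2 := true) rfl hκ (ka0 hκ hx hx') (xa0 hx) hx' (covF23 hx hx') (covF40 hx hx') (x1 hx) (x2 hx')
        Pool.Agent.Strip051.G.IE1.Tab.C.FA24.c_pp_303 noCut_VA noExt_VA F r1 r2 r1 r2

theorem FA24_pp_313 {κ x : ℝ} (hκ : κ * h0 = kenE x) (hx : 39 / 40 ≤ x) (hx' : x < 1) :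
    TriA (DD x).cur (farD κ (h0 * x) (tbl tKF x) (tbl tL x)) 3 1 3 2 4 1 1 :=
  triVA_k nr4_1

theorem FA24_pm_001 {κ x : ℝ} (hκ : κ * h0 = kenE x) (hx : 39 / 40 ≤ x) (hx' : x < 1) :
    TriA (DD x).cur (farD κ (h0 * x) (tbl tKF x) (tbl tL x)) 0 0 1 2 4 1 (-1) :=
  (sideF hx hx').farA (Or.inl rfl) (Or.inr rfl) fun y y' F r1 r2 =>
    farXA_cert (s1 := true) (s2 := false) rfl hκ (ka0 hκ hx hx') (xa0 hx) hx' (covF20 hx hx') (covF40 hx hx') (x1 hx) (x2 hx')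
        Pool.Agent.Strip051.G.IE1.Tab.C.FA24.c_pm_001 noCut_VA noExt_VA F r1 r2 r1 r2

theorem FA24_pm_011 {κ x : ℝ} (hκ : κ * h0 = kenE x) (hx : 39 / 40 ≤ x) (hx' : x < 1) :
    TriA (DD x).cur (farD κ (h0 * x) (tbl tKF x) (tbl tL x)) 0 1 1 2 4 1 (-1) :=
  triVA_k nr4_1

theorem FA24_pm_012 {κ x : ℝ} (hκ : κ * h0 = kenE x) (hx : 39 / 40 ≤ x) (hx' : x < 1) :
    TriA (DD x).cur (farD κ (h0 * x) (tbl tKF x) (tbl tL x)) 0 1 2 2 4 1 (-1) :=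
  triVA_k nr4_1

theorem FA24_pm_022 {κ x : ℝ} (hκ : κ * h0 = kenE x) (hx : 39 / 40 ≤ x) (hx' : x < 1) :
    TriA (DD x).cur (farD κ (h0 * x) (tbl tKF x) (tbl tL x)) 0 2 2 2 4 1 (-1) :=
  triVA_k nr4_2

theorem FA24_pm_023 {κ x : ℝ} (hκ : κ * h0 = kenE x) (hx : 39 / 40 ≤ x) (hx' : x < 1) :
    TriA (DD x).cur (farD κ (h0 * x) (tbl tKF x) (tbl tL x)) 0 2 3 2 4 1 (-1) :=
  triVA_k nr4_2

theorem FA24_pm_033 {κ x : ℝ} (hκ : κ * h0 = kenE x) (hx : 39 / 40 ≤ x) (hx' : x < 1) :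
    TriA (DD x).cur (farD κ (h0 * x) (tbl tKF x) (tbl tL x)) 0 3 3 2 4 1 (-1) :=
  triVA_k nr4_3

theorem FA24_pm_101 {κ x : ℝ} (hκ : κ * h0 = kenE x) (hx : 39 / 40 ≤ x) (hx' : x < 1) :
    TriA (DD x).cur (farD κ (h0 * x) (tbl tKF x) (tbl tL x)) 1 0 1 2 4 1 (-1) :=
  (sideF hx hx').farA (Or.inl rfl) (Or.inr rfl) fun y y' F r1 r2 =>
    farXA_cert (s1 := true) (s2 := false) rfl hκ (ka0 hκ hx hx') (xa0 hx) hx' (covF21 hx hx') (covF40 hx hx') (x1 hx) (x2 hx')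
        Pool.Agent.Strip051.G.IE1.Tab.C.FA24.c_pm_101 noCut_VA noExt_VA F r1 r2 r1 r2

theorem FA24_pm_102 {κ x : ℝ} (hκ : κ * h0 = kenE x) (hx : 39 / 40 ≤ x) (hx' : x < 1) :
    TriA (DD x).cur (farD κ (h0 * x) (tbl tKF x) (tbl tL x)) 1 0 2 2 4 1 (-1) :=
  (sideF hx hx').farA (Or.inl rfl) (Or.inr rfl) fun y y' F r1 r2 =>
    farXA_cert (s1 := true) (s2 := false) rfl hκ (ka0 hκ hx hx') (xa0 hx) hx' (covF21 hx hx') (covF40 hx hx') (x1 hx) (x2 hx')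
        Pool.Agent.Strip051.G.IE1.Tab.C.FA24.c_pm_102 noCut_VA noExt_VA F r1 r2 r1 r2

theorem FA24_pm_112 {κ x : ℝ} (hκ : κ * h0 = kenE x) (hx : 39 / 40 ≤ x) (hx' : x < 1) :
    TriA (DD x).cur (farD κ (h0 * x) (tbl tKF x) (tbl tL x)) 1 1 2 2 4 1 (-1) :=
  triVA_k nr4_1

theorem FA24_pm_113 {κ x : ℝ} (hκ : κ * h0 = kenE x) (hx : 39 / 40 ≤ x) (hx' : x < 1) :
    TriA (DD x).cur (farD κ (h0 * x) (tbl tKF x) (tbl tL x)) 1 1 3 2 4 1 (-1) :=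
  triVA_k nr4_1

theorem FA24_pm_123 {κ x : ℝ} (hκ : κ * h0 = kenE x) (hx : 39 / 40 ≤ x) (hx' : x < 1) :
    TriA (DD x).cur (farD κ (h0 * x) (tbl tKF x) (tbl tL x)) 1 2 3 2 4 1 (-1) :=
  triVA_k nr4_2

theorem FA24_pm_133 {κ x : ℝ} (hκ : κ * h0 = kenE x) (hx : 39 / 40 ≤ x) (hx' : x < 1) :
    TriA (DD x).cur (farD κ (h0 * x) (tbl tKF x) (tbl tL x)) 1 3 3 2 4 1 (-1) :=
  triVA_k nr4_3

theorem FA24_pm_202 {κ x : ℝ} (hκ : κ * h0 = kenE x) (hx : 39 / 40 ≤ x) (hx' : x < 1) :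
    TriA (DD x).cur (farD κ (h0 * x) (tbl tKF x) (tbl tL x)) 2 0 2 2 4 1 (-1) :=
  (sideF hx hx').farA (Or.inl rfl) (Or.inr rfl) fun y y' F r1 r2 =>
    (lt_or_ge (h0 * y) 1).elim
      (fun h => farXA_cert (s1 := true) (s2 := false) rfl hκ (ka0 hκ hx hx') (xa0 hx) hx' (covF22a hx hx') (covF40 hx hx') (x1 hx) (x2 hx')
        Pool.Agent.Strip051.G.IE1.Tab.C.FA24.c_pm_202_a noCut_VA noExt_VA F r1 r2 ⟨r1, h⟩ r2)
      (fun h => farXA_cert (s1 := true) (s2 := false) rfl hκ (ka0 hκ hx hx') (xa0 hx) hx' (covF22b hx hx') (covF40 hx hx') (x1 hx) (x2 hx')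
        Pool.Agent.Strip051.G.IE1.Tab.C.FA24.c_pm_202_b noCut_VA noExt_VA F r1 r2 ⟨r1, h⟩ r2)

theorem FA24_pm_203 {κ x : ℝ} (hκ : κ * h0 = kenE x) (hx : 39 / 40 ≤ x) (hx' : x < 1) :
    TriA (DD x).cur (farD κ (h0 * x) (tbl tKF x) (tbl tL x)) 2 0 3 2 4 1 (-1) :=
  (sideF hx hx').farA (Or.inl rfl) (Or.inr rfl) fun y y' F r1 r2 =>
    (lt_or_ge (h0 * y) 1).elim
      (fun h => farXA_cert (s1 := true) (s2 := false) rfl hκ (ka0 hκ hx hx') (xa0 hx) hx' (covF22a hx hx') (covF40 hx hx') (x1 hx) (x2 hx')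
        Pool.Agent.Strip051.G.IE1.Tab.C.FA24.c_pm_203_a noCut_VA noExt_VA F r1 r2 ⟨r1, h⟩ r2)
      (fun h => farXA_cert (s1 := true) (s2 := false) rfl hκ (ka0 hκ hx hx') (xa0 hx) hx' (covF22b hx hx') (covF40 hx hx') (x1 hx) (x2 hx')
        Pool.Agent.Strip051.G.IE1.Tab.C.FA24.c_pm_203_b noCut_VA noExt_VA F r1 r2 ⟨r1, h⟩ r2)

theorem FA24_pm_213 {κ x : ℝ} (hκ : κ * h0 = kenE x) (hx : 39 / 40 ≤ x) (hx' : x < 1) :
    TriA (DD x).cur (farD κ (h0 * x) (tbl tKF x) (tbl tL x)) 2 1 3 2 4 1 (-1) :=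
  triVA_k nr4_1

theorem FA24_pm_303 {κ x : ℝ} (hκ : κ * h0 = kenE x) (hx : 39 / 40 ≤ x) (hx' : x < 1) :
    TriA (DD x).cur (farD κ (h0 * x) (tbl tKF x) (tbl tL x)) 3 0 3 2 4 1 (-1) :=
  (sideF hx hx').farA (Or.inl rfl) (Or.inr rfl) fun y y' F r1 r2 =>
    farXA_cert (s1 := true) (s2 := false) rfl hκ (ka0 hκ hx hx') (xa0 hx) hx' (covF23 hx hx') (covF40 hx hx') (x1 hx) (x2 hx')
        Pool.Agent.Strip051.G.IE1.Tab.C.FA24.c_pm_303 noCut_VA noExt_VA F r1 r2 r1 r2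

theorem FA24_pm_313 {κ x : ℝ} (hκ : κ * h0 = kenE x) (hx : 39 / 40 ≤ x) (hx' : x < 1) :
    TriA (DD x).cur (farD κ (h0 * x) (tbl tKF x) (tbl tL x)) 3 1 3 2 4 1 (-1) :=
  triVA_k nr4_1

theorem FA24_mm_001 {κ x : ℝ} (hκ : κ * h0 = kenE x) (hx : 39 / 40 ≤ x) (hx' : x < 1) :
    TriA (DD x).cur (farD κ (h0 * x) (tbl tKF x) (tbl tL x)) 0 0 1 2 4 (-1) (-1) :=
  (sideF hx hx').farA (Or.inr rfl) (Or.inr rfl) fun y y' F r1 r2 =>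
    farXA_cert (s1 := false) (s2 := false) rfl hκ (ka0 hκ hx hx') (xa0 hx) hx' (covF20 hx hx') (covF40 hx hx') (x1 hx) (x2 hx')
        Pool.Agent.Strip051.G.IE1.Tab.C.FA24.c_mm_001 noCut_VA noExt_VA F r1 r2 r1 r2

theorem FA24_mm_011 {κ x : ℝ} (hκ : κ * h0 = kenE x) (hx : 39 / 40 ≤ x) (hx' : x < 1) :
    TriA (DD x).cur (farD κ (h0 * x) (tbl tKF x) (tbl tL x)) 0 1 1 2 4 (-1) (-1) :=
  triVA_k nr4_1

theorem FA24_mm_012 {κ x : ℝ} (hκ : κ * h0 = kenE x) (hx : 39 / 40 ≤ x) (hx' : x < 1) :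
    TriA (DD x).cur (farD κ (h0 * x) (tbl tKF x) (tbl tL x)) 0 1 2 2 4 (-1) (-1) :=
  triVA_k nr4_1

theorem FA24_mm_022 {κ x : ℝ} (hκ : κ * h0 = kenE x) (hx : 39 / 40 ≤ x) (hx' : x < 1) :
    TriA (DD x).cur (farD κ (h0 * x) (tbl tKF x) (tbl tL x)) 0 2 2 2 4 (-1) (-1) :=
  triVA_k nr4_2

theorem FA24_mm_023 {κ x : ℝ} (hκ : κ * h0 = kenE x) (hx : 39 / 40 ≤ x) (hx' : x < 1) :
    TriA (DD x).cur (farD κ (h0 * x) (tbl tKF x) (tbl tL x)) 0 2 3 2 4 (-1) (-1) :=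
  triVA_k nr4_2

theorem FA24_mm_033 {κ x : ℝ} (hκ : κ * h0 = kenE x) (hx : 39 / 40 ≤ x) (hx' : x < 1) :
    TriA (DD x).cur (farD κ (h0 * x) (tbl tKF x) (tbl tL x)) 0 3 3 2 4 (-1) (-1) :=
  triVA_k nr4_3

theorem FA24_mm_101 {κ x : ℝ} (hκ : κ * h0 = kenE x) (hx : 39 / 40 ≤ x) (hx' : x < 1) :
    TriA (DD x).cur (farD κ (h0 * x) (tbl tKF x) (tbl tL x)) 1 0 1 2 4 (-1) (-1) :=
  (sideF hx hx').farA (Or.inr rfl) (Or.inr rfl) fun y y' F r1 r2 =>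
    farXA_cert (s1 := false) (s2 := false) rfl hκ (ka0 hκ hx hx') (xa0 hx) hx' (covF21 hx hx') (covF40 hx hx') (x1 hx) (x2 hx')
        Pool.Agent.Strip051.G.IE1.Tab.C.FA24.c_mm_101 noCut_VA noExt_VA F r1 r2 r1 r2

theorem FA24_mm_102 {κ x : ℝ} (hκ : κ * h0 = kenE x) (hx : 39 / 40 ≤ x) (hx' : x < 1) :
    TriA (DD x).cur (farD κ (h0 * x) (tbl tKF x) (tbl tL x)) 1 0 2 2 4 (-1) (-1) :=
  (sideF hx hx').farA (Or.inr rfl) (Or.inr rfl) fun y y' F r1 r2 =>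
    farXA_cert (s1 := false) (s2 := false) rfl hκ (ka0 hκ hx hx') (xa0 hx) hx' (covF21 hx hx') (covF40 hx hx') (x1 hx) (x2 hx')
        Pool.Agent.Strip051.G.IE1.Tab.C.FA24.c_mm_102 noCut_VA noExt_VA F r1 r2 r1 r2

theorem FA24_mm_112 {κ x : ℝ} (hκ : κ * h0 = kenE x) (hx : 39 / 40 ≤ x) (hx' : x < 1) :
    TriA (DD x).cur (farD κ (h0 * x) (tbl tKF x) (tbl tL x)) 1 1 2 2 4 (-1) (-1) :=
  triVA_k nr4_1

theorem FA24_mm_113 {κ x : ℝ} (hκ : κ * h0 = kenE x) (hx : 39 / 40 ≤ x) (hx' : x < 1) :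
    TriA (DD x).cur (farD κ (h0 * x) (tbl tKF x) (tbl tL x)) 1 1 3 2 4 (-1) (-1) :=
  triVA_k nr4_1

theorem FA24_mm_123 {κ x : ℝ} (hκ : κ * h0 = kenE x) (hx : 39 / 40 ≤ x) (hx' : x < 1) :
    TriA (DD x).cur (farD κ (h0 * x) (tbl tKF x) (tbl tL x)) 1 2 3 2 4 (-1) (-1) :=
  triVA_k nr4_2

theorem FA24_mm_133 {κ x : ℝ} (hκ : κ * h0 = kenE x) (hx : 39 / 40 ≤ x) (hx' : x < 1) :
    TriA (DD x).cur (farD κ (h0 * x) (tbl tKF x) (tbl tL x)) 1 3 3 2 4 (-1) (-1) :=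
  triVA_k nr4_3

theorem FA24_mm_202 {κ x : ℝ} (hκ : κ * h0 = kenE x) (hx : 39 / 40 ≤ x) (hx' : x < 1) :
    TriA (DD x).cur (farD κ (h0 * x) (tbl tKF x) (tbl tL x)) 2 0 2 2 4 (-1) (-1) :=
  (sideF hx hx').farA (Or.inr rfl) (Or.inr rfl) fun y y' F r1 r2 =>
    (lt_or_ge (h0 * y) 1).elim
      (fun h => farXA_cert (s1 := false) (s2 := false) rfl hκ (ka0 hκ hx hx') (xa0 hx) hx' (covF22a hx hx') (covF40 hx hx') (x1 hx) (x2 hx')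
        Pool.Agent.Strip051.G.IE1.Tab.C.FA24.c_mm_202_a noCut_VA noExt_VA F r1 r2 ⟨r1, h⟩ r2)
      (fun h => farXA_cert (s1 := false) (s2 := false) rfl hκ (ka0 hκ hx hx') (xa0 hx) hx' (covF22b hx hx') (covF40 hx hx') (x1 hx) (x2 hx')
        Pool.Agent.Strip051.G.IE1.Tab.C.FA24.c_mm_202_b noCut_VA noExt_VA F r1 r2 ⟨r1, h⟩ r2)

theorem FA24_mm_203 {κ x : ℝ} (hκ : κ * h0 = kenE x) (hx : 39 / 40 ≤ x) (hx' : x < 1) :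
    TriA (DD x).cur (farD κ (h0 * x) (tbl tKF x) (tbl tL x)) 2 0 3 2 4 (-1) (-1) :=
  (sideF hx hx').farA (Or.inr rfl) (Or.inr rfl) fun y y' F r1 r2 =>
    (lt_or_ge (h0 * y) 1).elim
      (fun h => farXA_cert (s1 := false) (s2 := false) rfl hκ (ka0 hκ hx hx') (xa0 hx) hx' (covF22a hx hx') (covF40 hx hx') (x1 hx) (x2 hx')
        Pool.Agent.Strip051.G.IE1.Tab.C.FA24.c_mm_203_a noCut_VA noExt_VA F r1 r2 ⟨r1, h⟩ r2)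
      (fun h => farXA_cert (s1 := false) (s2 := false) rfl hκ (ka0 hκ hx hx') (xa0 hx) hx' (covF22b hx hx') (covF40 hx hx') (x1 hx) (x2 hx')
        Pool.Agent.Strip051.G.IE1.Tab.C.FA24.c_mm_203_b noCut_VA noExt_VA F r1 r2 ⟨r1, h⟩ r2)

theorem FA24_mm_213 {κ x : ℝ} (hκ : κ * h0 = kenE x) (hx : 39 / 40 ≤ x) (hx' : x < 1) :
    TriA (DD x).cur (farD κ (h0 * x) (tbl tKF x) (tbl tL x)) 2 1 3 2 4 (-1) (-1) :=
  triVA_k nr4_1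

theorem FA24_mm_303 {κ x : ℝ} (hκ : κ * h0 = kenE x) (hx : 39 / 40 ≤ x) (hx' : x < 1) :
    TriA (DD x).cur (farD κ (h0 * x) (tbl tKF x) (tbl tL x)) 3 0 3 2 4 (-1) (-1) :=
  (sideF hx hx').farA (Or.inr rfl) (Or.inr rfl) fun y y' F r1 r2 =>
    farXA_cert (s1 := false) (s2 := false) rfl hκ (ka0 hκ hx hx') (xa0 hx) hx' (covF23 hx hx') (covF40 hx hx') (x1 hx) (x2 hx')
        Pool.Agent.Strip051.G.IE1.Tab.C.FA24.c_mm_303 noCut_VA noExt_VA F r1 r2 r1 r2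

theorem FA24_mm_313 {κ x : ℝ} (hκ : κ * h0 = kenE x) (hx : 39 / 40 ≤ x) (hx' : x < 1) :
    TriA (DD x).cur (farD κ (h0 * x) (tbl tKF x) (tbl tL x)) 3 1 3 2 4 (-1) (-1) :=
  triVA_k nr4_1

theorem FA24 {κ x : ℝ} (hκ : κ * h0 = kenE x) (hx : 39 / 40 ≤ x) (hx' : x < 1) : AllTA (DD x).cur (farD κ (h0 * x) (tbl tKF x) (tbl tL x)) 2 4 where
  pp := all17 (Q := fun a b c => TriA (DD x).cur (farD κ (h0 * x) (tbl tKF x) (tbl tL x)) a b c 2 4 1 1)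
    (FA24_pp_001 hκ hx hx') (FA24_pp_011 hκ hx hx') (FA24_pp_012 hκ hx hx') (FA24_pp_022 hκ hx hx') (FA24_pp_023 hκ hx hx') (FA24_pp_033 hκ hx hx') (FA24_pp_101 hκ hx hx') (FA24_pp_102 hκ hx hx') (FA24_pp_112 hκ hx hx') (FA24_pp_113 hκ hx hx') (FA24_pp_123 hκ hx hx') (FA24_pp_133 hκ hx hx') (FA24_pp_202 hκ hx hx') (FA24_pp_203 hκ hx hx') (FA24_pp_213 hκ hx hx') (FA24_pp_303 hκ hx hx') (FA24_pp_313 hκ hx hx')
  pm := all17 (Q := fun a b c => TriA (DD x).cur (farD κ (h0 * x) (tbl tKF x) (tbl tL x)) a b c 2 4 1 (-1))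
    (FA24_pm_001 hκ hx hx') (FA24_pm_011 hκ hx hx') (FA24_pm_012 hκ hx hx') (FA24_pm_022 hκ hx hx') (FA24_pm_023 hκ hx hx') (FA24_pm_033 hκ hx hx') (FA24_pm_101 hκ hx hx') (FA24_pm_102 hκ hx hx') (FA24_pm_112 hκ hx hx') (FA24_pm_113 hκ hx hx') (FA24_pm_123 hκ hx hx') (FA24_pm_133 hκ hx hx') (FA24_pm_202 hκ hx hx') (FA24_pm_203 hκ hx hx') (FA24_pm_213 hκ hx hx') (FA24_pm_303 hκ hx hx') (FA24_pm_313 hκ hx hx')
  mm := all17 (Q := fun a b c => TriA (DD x).cur (farD κ (h0 * x) (tbl tKF x) (tbl tL x)) a b c 2 4 (-1) (-1))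
    (FA24_mm_001 hκ hx hx') (FA24_mm_011 hκ hx hx') (FA24_mm_012 hκ hx hx') (FA24_mm_022 hκ hx hx') (FA24_mm_023 hκ hx hx') (FA24_mm_033 hκ hx hx') (FA24_mm_101 hκ hx hx') (FA24_mm_102 hκ hx hx') (FA24_mm_112 hκ hx hx') (FA24_mm_113 hκ hx hx') (FA24_mm_123 hκ hx hx') (FA24_mm_133 hκ hx hx') (FA24_mm_202 hκ hx hx') (FA24_mm_203 hκ hx hx') (FA24_mm_213 hκ hx hx') (FA24_mm_303 hκ hx hx') (FA24_mm_313 hκ hx hx')

end Pool.Agent.Strip051.G.IE1.Tab
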