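import Pool.Agent.Strip051.G.IE1.Tab

/-! # Certificates F19 (generated) -/

set_option linter.all false
set_option maxRecDepth 100000

namespace Pool.Agent.Strip051.G.IE1.Tab.C.FA33

open Pool.Agent.Strip051.PB Pool.Agent.Strip051.PB.T
open Pool.Agent.Strip051.G.IE1.Tab

noncomputable def cut_pm_022 : Cut := Cut.of [[⟨0, 0, 0, 67108864⟩, ⟨1, 1, 0, 67108864⟩, ⟨2, 1, 0, 67108864⟩, ⟨3, 0, 0, 1233125376⟩]]

noncomputable def f_pm_022 : ℕ → ℕ → ℕ → ℕ → Bool := onCell 0 536870912 1073741824 536870912 1046898278 26843546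
    (rowFX 1 true true false .pp 0 2 2 (qsf 0 536870912 1073741824 536870912 2) ndF3q0 ndF3q2 pcF2 cut_pm_022 Ext.none)

def k0_pm_022 : ∃ t, chk3 f_pm_022 t 2 8 1 = true :=
  ⟨(a (a (a (b (l 6) (b (l 6) (b (l 6) (b (l 6) (b (l 6) (c (a (a (c (l 16181352) (l 16181488)) (c (l 16195696) (l 16293664))) (c (a (l 16422256) (c (l 16549840) (l 16564720))) (a (c (l 16473352) (l 16488832)) (c (l 16613656) (l 16644232))))) (a (c (c (a (l 16181192) (l 16295256)) (a (a (l 16149288) (l 16219016)) (c (l 16341960) (a (l 16305216) (l 16388360))))) (a (c (a (c (l 16149152) (a (l 16132904) (l 16168200))) (c (l 16227456) (c (l 16229696) (l 16232968)))) (a (c (a (c (l 16133568) (l 16132112)) (l 16167152)) (l 16111984)) (l 16233848))) (l 16350760))) (c (a (c (l 16453864) (l 16506352)) (l 16660520)) (l 16480808))))))))) (a (b (l 6) (b (l 6) (a (b (l 6) (b (l 6) (c (c (c (l 16566400) (l 16681400)) (l 16630552)) (l 16584536)))) (c (c (b (c (l 16532808) (l 16484776)) (c (l 16543952) (l 16544232)))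 (b (l 16457816) (l 16507552))) (b (c (l 16474104) (l 16428624)) (l 16322672)))))) (b (l 1) (b (a (a (l 6) (l 1)) (l 1)) (c (c (a (b (l 16321344) (l 16257680)) (b (l 16093568) (l 16138024))) (b (l 16157064) (l 16048520))) (b (a (c (l 16310040) (l 16209744)) (l 16106424)) (c (a (l 16330816) (l 16155608)) (a (l 16304440) (l 16116200))))))))) (b (l 1) (b (l 1) (b (l 1) (a (a (c (c (l 540123300775) (l 15830920)) (l 15729232)) (l 1)) (l 1)))))) (l 1)), by decide +kernel⟩

def k1_pm_022 : ∃ t, chk3 f_pm_022 t 16 18 2 = true :=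
  ⟨(a (c (b (a (b (a (l 16161488) (l 16194736)) (l 16202992)) (b (a (l 16238304) (l 16305456)) (a (l 16248512) (l 16309592)))) (a (l 16233560) (c (l 16327768) (l 16335448)))) (a (b (b (a (l 16155776) (l 16193088)) (l 16198200)) (c (l 16250784) (l 16249712))) (b (c (b (l 16295688) (l 16297576)) (b (l 16307744) (l 16310632))) (c (l 16346424) (l 16195904))))) (a (c (b (c (l 16415168) (l 16398352)) (b (l 16344512) (l 16423280))) (b (c (a (l 16422024) (l 16488184)) (c (l 16434464) (l 16415600))) (c (b (l 16393928) (l 16428296)) (b (a (l 16444624) (l 16496976)) (l 16410624))))) (c (b (c (l 16509656) (b (l 16552504) (l 16549584))) (c (c (l 16546560) (l 16498392)) (b (l 16559400) (l 16575608)))) (a (c (b (l 16501104) (l 16496680)) (l 16505688)) (b (l 16675200) (l 16608000)))))), by decide +kernel⟩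

def k2_pm_022 : ∃ t, chk3 f_pm_022 t 16 18 3 = true :=
  ⟨(a (c (b (a (c (b (a (l 16150744) (l 16196536)) (l 16198336)) (a (b (l 16148032) (l 16177136)) (b (c (l 16202800) (l 16210312)) (l 16164224)))) (c (b (a (l 16279456) (l 16365504)) (a (l 16285408) (l 16338536))) (c (b (l 16244344) (a (l 16292968) (l 16367480))) (a (b (l 16290400) (l 16294840)) (l 16374272))))) (a (c (l 16230672) (a (l 16228496) (c (l 16280520) (l 16285072)))) (c (c (l 16289856) (l 16228880)) (a (c (l 16347440) (l 16351200)) (l 16417752))))) (a (a (b (c (c (b (l 16147928) (l 16178008)) (b (a (l 16134696) (c (l 16160832) (l 16162472))) (a (l 16167448) (l 16120680)))) (b (a (c (b (c (l 16128144) (c (l 16127736) (l 16125408))) (l 16139432)) (c (l 16092352) (l 16137848))) (c (c (a (l 16155112) (l 16174448)) (l 16168048)) (l 16168752))) (c (l 16156656) (l 16184200)))) (c (b (c (l 16213736) (l 16190008)) (c (l 16249112) (l 16242360))) (c (l 16227400) (l 16236656)))) (c (b (b (c (b (l 16214648) (l 16212648))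 (a (c (l 16197576) (l 16200600)) (l 16237832))) (c (c (l 16233160) (l 16234264)) (l 16188008))) (c (a (l 16271512) (l 16306152)) (l 16296128))) (b (b (l 16221600) (l 16241256)) (l 16298520)))) (b (b (l 16337592) (l 16339936)) (l 16390960)))) (b (c (c (c (a (l 16420304) (l 16655416)) (l 16448400)) (l 16429872)) (l 16389864)) (c (b (l 16392256) (l 16460088)) (a (l 16440840) (l 16625320))))), by decide +kernel⟩

def k3_pm_022 : ∃ t, chk3 f_pm_022 t 17 18 1 = true :=
  ⟨(c (a (c (a (b (c (l 16572920) (l 16559920)) (c (a (l 16582968) (l 16493224)) (l 16523792))) (b (l 16442328) (l 16394032))) (a (b (l 16559224) (l 16498664)) (b (l 16429296) (l 16348192)))) (b (c (a (l 16233200) (b (l 16205600) (l 16190920))) (b (l 16111560) (l 16218128))) (c (l 16016248) (l 16056880)))) (a (b (a (c (l 16553064) (l 16549576)) (l 16285656)) (a (l 16419400) (l 16330800))) (b (b (a (l 16260664) (l 15995928)) (l 16025360)) (c (l 16107224) (l 16091656))))), by decide +kernel⟩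

def k4_pm_022 : ∃ t, chk3 f_pm_022 t 16 19 1 = true :=
  ⟨(a (a (c (c (b (b (l 16245248) (l 16352984)) (l 16405240)) (b (b (c (l 16305224) (l 16304688)) (l 16309496)) (l 16322168))) (b (c (c (b (l 16307152) (l 16356392)) (b (a (l 16283472) (c (l 16338888) (l 16340760))) (a (l 16356520) (c (l 16401304) (l 16402616))))) (c (b (c (a (l 16222136) (c (l 16345752) (l 16351352))) (a (b (l 16244888) (c (l 16292296) (l 16242080))) (l 16354880))) (a (c (a (l 16346808) (l 16359648)) (a (l 16287016) (l 16368096))) (l 16416056))) (l 16193536))) (c (c (a (l 16497184) (l 16431184)) (c (a (l 16500216) (l 16517448)) (a (l 16457816) (l 16458368)))) (c (a (c (c (l 16496568) (l 16293400)) (l 16299376)) (l 16528840)) (l 16475104))))) (c (c (b (b (c (l 16389736) (l 16398016)) (l 16350160)) (b (l 16385992) (l 16458416))) (b (c (b (l 16409592) (l 16469976)) (a (l 16331944) (b (l 16444704) (l 16526288)))) (c (l 16398064) (a (l 16473456) (l 16367384))))) (c (c (b (b (a (l 16361488) (c (l 16469992)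 (l 16477896))) (l 16306176)) (c (l 16405272) (l 16402064))) (b (c (a (b (l 16408320) (l 16469584)) (l 16514200)) (l 16483472)) (l 16471568))) (b (l 16362576) (l 16400848))))) (c (a (c (b (b (l 16370088) (l 16434312)) (c (l 16370944) (b (l 16471704) (l 16296080)))) (c (b (b (l 16412512) (l 16546448)) (b (l 16445944) (l 16272448))) (a (b (b (l 16509448) (l 16590296)) (l 16345136)) (l 16368808)))) (c (b (c (b (l 16552232) (l 16476280)) (b (l 16506920) (l 16473888))) (c (a (l 16327632) (l 16299568)) (l 16131168))) (b (c (b (l 16538224) (l 16457112)) (l 16495624)) (l 16294464)))) (b (b (l 16377640) (l 16342104)) (a (c (l 16381264) (l 16330528)) (l 16148272))))), by decide +kernel⟩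

def k5_pm_022 : ∃ t, chk3 f_pm_022 t 17 19 1 = true :=
  ⟨(c (a (c (a (c (b (b (a (l 16456928) (l 16429792)) (l 16376368)) (l 16216912)) (b (l 16377880) (l 16198080))) (b (l 16086992) (l 16089704))) (b (b (l 16291576) (l 16278368)) (l 16125296))) (b (c (b (l 16092064) (l 16023656)) (l 15922056)) (c (a (l 15967752) (l 15832416)) (l 15875456)))) (a (b (c (l 16133664) (l 16108976)) (l 15961064)) (b (b (l 16029864) (l 15975400)) (l 15691680)))), by decide +kernel⟩

def k6_pm_022 : ∃ t, chk3 f_pm_022 t 9 9 1 = true :=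
  ⟨(b (a (c (a (b (c (b (l 15830280) (l 15801600)) (b (l 15881608) (l 15886232))) (c (b (l 15792816) (l 15863256)) (b (l 15866080) (l 15818256)))) (b (b (l 1) (l 584682846679)) (b (c (l 15423200) (l 15468472)) (c (l 15387896) (l 15466384))))) (b (a (b (a (l 15772960) (l 15753320)) (c (l 15859600) (l 15645064))) (l 569113505031)) (a (c (l 15551360) (l 15687944)) (c (b (l 15447160) (l 15433832)) (b (l 15421888) (l 15402136)))))) (b (l 1) (a (a (a (c (l 635148496023) (l 15152512)) (l 1)) (l 1)) (l 1)))) (a (c (b (a (c (l 15538240) (l 15725888)) (b (c (l 91835356103) (l 15439384)) (c (l 15432240) (l 15380856)))) (a (c (l 15618312) (l 15585264)) (c (l 15323920) (l 15274304)))) (c (b (a (l 15686320) (l 15134128)) (l 15172344)) (b (a (l 15664992) (l 15180752)) (l 15374120)))) (a (b (c (b (c (l 524552491031) (l 15032632)) (a (l 15139264) (l 14941896))) (b (a (l 15094168) (l 14886544)) (a (l 15061368) (l 14878536)))) (c (a (c (l 15089448) (l 15033112)) (c (b (l 14948816) (l 14915352))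 (l 14880720))) (c (l 14903744) (l 14860008)))) (b (a (b (l 1) (c (l 798893207671) (l 14701616))) (l 1)) (b (a (c (l 14770192) (l 14701312)) (l 14588192)) (c (l 14695712) (l 14611040))))))), by decide +kernel⟩

def k7_pm_022 : ∃ t, chk3 f_pm_022 t 5 9 1 = true :=
  ⟨(a (a (b (l 1) (b (l 1) (l 841304629799))) (l 1)) (l 1)), by decide +kernel⟩

def k8_pm_022 : ∃ t, chk3 f_pm_022 t 3 4 1 = true :=
  ⟨(l 1), by decide +kernel⟩

def k9_pm_022 : ∃ t, chk3 f_pm_022 t 32 5 2 = true :=
  ⟨(a (b (b (b (c (l 16248960) (c (l 16309720) (l 16263376))) (c (b (l 16150504) (b (l 16110280) (l 16162352))) (b (c (l 16146808) (l 16137824)) (b (b (l 16070952) (l 16101424)) (a (l 16177400) (l 16122424)))))) (c (b (l 16170888) (l 15834472)) (c (b (l 16167144) (l 15811696)) (b (b (l 16205800) (l 16211184)) (c (l 15848416) (l 15824664)))))) (b (b (c (c (l 15543960) (l 15434352)) (c (l 15404312) (l 15312560))) (c (b (l 15161104) (l 14896288)) (c (l 14990248) (l 15065912)))) (b (b (b (b (c (b (l 14856328)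 (l 14812256)) (l 14799808)) (c (l 14818448) (l 14794176))) (c (a (l 14780224) (l 14814576)) (l 14775720))) (c (l 14786880) (l 14762072))) (l 14774168)))) (b (b (b (c (l 16096816) (c (l 16052808) (c (l 16175024) (l 16173672)))) (c (b (l 16110784) (b (l 16054416) (l 16101344))) (b (c (l 16089592) (l 15982328)) (c (b (b (l 16056232) (l 16063568)) (l 16089008)) (a (b (l 16069824) (l 16097608)) (l 16044216)))))) (b (c (b (a (l 16198232) (l 16145184)) (l 16107176)) (c (b (l 16060232) (l 16270528)) (b (l 16052648) (l 16281216)))) (c (b (l 16052544) (l 15872856)) (c (c (l 15935544) (l 15942376)) (l 16038624))))) (b (b (c (c (l 15492928) (l 15494176)) (c (l 15586000) (l 15722200))) (c (b (l 15208824) (l 15023128)) (l 15247624))) (b (b (c (c (b (b (l 14988744) (l 14957824)) (l 14921368)) (l 14945208)) (l 14948040)) (c (l 14866440) (l 14865312))) (l 14836736))))), by decide +kernel⟩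

def k10_pm_022 : ∃ t, chk3 f_pm_022 t 32 5 3 = true :=
  ⟨(b (a (b (b (a (c (c (l 16291080) (c (l 16291080) (b (l 16379760) (l 16254616)))) (b (c (c (l 16355512) (l 16372336)) (l 16366784)) (l 16240712))) (c (c (c (l 16289352) (l 16269392)) (c (l 16267680) (l 16276760))) (l 16265320))) (c (c (b (c (l 16135784) (l 16137840)) (b (b (l 16069808) (l 16101192)) (l 16026984))) (a (b (c (l 16149160) (l 16149640)) (c (b (l 16066200) (l 16175720)) (l 16142184))) (l 16103576))) (b (l 16117016) (l 16046544)))) (b (c (b (c (a (l 16333544) (l 16250944)) (a (l 16189792) (l 16235992))) (a (c (l 16286536) (l 16310376)) (l 16415576))) (l 16151488)) (c (a (c (l 15819632) (l 15946792)) (l 16006000)) (l 15883000)))) (b (b (c (c (a (l 16065808) (l 16198936)) (l 16210624)) (l 16200632)) (b (l 16055184) (l 16037264))) (b (b (l 16044624) (l 16237352)) (b (l 16226792) (l 16039912))))) (b (b (c (a (l 15524120) (l 15736120)) (l 15466616)) (c (l 14950056) (l 15156080))) (b (a (c (b (l 14780488) (l 14745784))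 (l 14757816)) (c (l 14914712) (l 14907224))) (l 14788584)))), by decide +kernel⟩

def k11_pm_022 : ∃ t, chk3 f_pm_022 t 33 5 1 = true :=
  ⟨(b (c (c (a (b (b (c (l 16160424) (a (l 16189160) (l 16150712))) (b (c (l 16035816) (l 16027872)) (b (c (l 16018168) (l 15926528)) (l 16047480)))) (b (b (l 16060784) (c (l 16139472) (l 16151392))) (b (l 16183664) (l 16048784)))) (b (c (b (b (l 16161560) (l 16036584)) (a (b (l 15984168) (l 15887528)) (l 15948864))) (b (l 15857280) (l 15952168))) (b (c (l 16090552) (l 16074072)) (l 16130984)))) (b (c (a (b (c (l 16166176) (l 16160896)) (b (l 16019016) (b (l 15933312) (l 16024672)))) (b (l 16067144) (l 15938448))) (b (l 16099176) (l 15772416))) (b (l 15907168) (a (l 16226912) (l 16195640))))) (b (b (c (l 16085608) (l 16032112)) (b (l 15917952) (l 15944064))) (b (a (l 15974920) (l 16034192)) (b (l 16096544) (l 16234752))))) (b (b (a (c (c (c (l 15765368) (l 15926632)) (l 15921296)) (l 15892760)) (c (l 15894032) (l 16043600))) (c (c (l 15359152)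 (l 15520008)) (l 15519704))) (c (b (c (b (l 15221624) (l 15143568)) (l 15201040)) (a (l 14958080) (l 15111400))) (b (l 15192072) (l 15034272))))), by decide +kernel⟩

def k12_pm_022 : ∃ t, chk3 f_pm_022 t 17 5 1 = true :=
  ⟨(b (b (b (c (a (c (l 15742160) (l 15905720)) (c (l 15699640) (l 15681216))) (a (c (l 15890560) (l 15881672)) (l 15661496))) (c (b (c (a (l 15834408) (l 15640392)) (a (l 15808552) (l 15621456))) (a (c (l 15870400) (l 15845544)) (c (l 15725208) (l 15707688)))) (b (a (l 15617920) (l 15600736)) (a (l 15823824) (l 15667944))))) (b (c (a (l 15906216) (l 15694512)) (a (l 15960240) (l 15860280))) (c (a (b (l 16122736) (l 16164760)) (l 16087416)) (a (b (l 16097760) (l 16185568)) (l 16071112))))) (b (b (a (c (b (l 16194352) (l 16107072)) (b (l 16325496) (l 16331536))) (c (l 16069144) (l 16206912))) (a (c (b (l 15979760) (l 15833832)) (l 15856680)) (c (b (l 16301896) (l 16134976)) (l 16135672)))) (c (b (a (b (l 15637720) (l 15536832)) (l 15860592)) (l 15433656)) (a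 (l 15476288) (l 15850136))))), by decide +kernel⟩

def k13_pm_022 : ∃ t, chk3 f_pm_022 t 9 5 1 = true :=
  ⟨(b (b (c (b (a (a (c (l 15263352) (l 15428056)) (c (l 15169456) (l 15129792))) (a (c (a (l 14942248) (b (l 14854392) (l 14783320))) (a (l 14881936) (l 14755624))) (b (l 14678792) (l 14642024)))) (a (b (a (l 15420472) (c (l 15194688) (l 15165880))) (a (l 15541208) (c (l 15362464) (l 15341144)))) (a (a (b (l 14960920) (l 15087544)) (a (b (l 14863712) (l 15088920)) (l 14944712))) (l 14874672)))) (b (a (a (l 15213624) (l 15086280)) (a (a (l 14825328) (l 14683200)) (l 14553424))) (a (b (a (l 15386672) (l 15134480)) (a (l 15510912) (l 15313424))) (a (b (l 14621304) (l 14880056)) (l 14778008))))) (a (c (b (a (l 15754824) (l 15598744)) (a (l 16008960) (l 15905080))) (b (a (l 15730768) (l 15568904)) (a (l 15992656) (l 15884464)))) (a (b (a (c (l 15406216) (l 15432960)) (l 15386704)) (c (l 15761368) (l 15778600))) (b (l 15296000) (l 15719632))))) (b (a (a (b (c (l 16233928) (l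 16224936)) (c (l 16424496) (l 16465528))) (b (c (l 16180224) (l 16167960)) (l 16254960))) (a (l 16089640) (l 16101392))) (a (b (a (c (b (l 16347688) (l 16275520)) (l 16296944)) (b (l 16509568) (l 16503952))) (a (l 16126408) (l 16368792))) (b (l 16501760) (l 16406008))))), by decide +kernel⟩

def k14_pm_022 : ∃ t, chk3 f_pm_022 t 5 5 1 = true :=
  ⟨(b (a (b (b (a (a (c (l 14433392) (b (l 14354640) (l 440262345111))) (l 909487028183)) (l 1)) (a (a (c (l 14720752) (l 14579968)) (b (l 660379334007) (l 374227703175))) (l 1133899391671))) (b (a (c (l 14882896) (a (l 15109144) (l 14883864))) (a (b (l 592197378391) (l 343626714583)) (l 822514704183))) (b (a (l 15421736) (a (l 15095696) (l 14788576))) (a (l 15517360) (a (l 15421184) (l 14959024)))))) (b (l 1) (a (b (l 1) (l 939553324215)) (l 1)))) (a (b (a (b (c (l 15961912) (l 15924864)) (a (l 16347528) (l 16273168))) (b (c (l 15626776) (a (l 15703544) (l 15453776))) (c (l 16102408) (l 16014976)))) (a (l 16273536) (c (l 16302088) (l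 16235712)))) (b (b (a (a (a (l 395167318487) (l 15091448)) (l 14961904)) (l 1)) (a (c (l 15521848) (a (l 15693064) (l 411273694407))) (l 581461136967))) (a (b (c (l 15998848) (a (l 16069928) (l 15769368))) (l 15942552)) (a (b (b (l 329132742535) (l 15758152)) (l 15789640)) (b (l 15527240) (l 15665504))))))), by decide +kernel⟩

def k15_pm_022 : ∃ t, chk3 f_pm_022 t 3 5 1 = true :=
  ⟨(b (l 1) (b (l 1) (a (a (a (l 383355919127) (l 1)) (l 1)) (l 1)))), by decide +kernel⟩

def k16_pm_022 : ∃ t, chk3 f_pm_022 t 2 3 1 = true :=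
  ⟨(a (b (a (a (b (c (b (a (c (l 14811864) (l 14799840)) (l 14989024)) (l 14900208)) (a (c (l 14791528) (l 14781904)) (l 14978416))) (b (c (l 14669520) (a (l 14788272) (l 14978296))) (c (l 14900208) (l 14884312)))) (b (b (c (a (b (l 15247464) (l 15195952)) (l 15394696)) (a (l 15208648) (l 15492696))) (c (l 15294464) (l 15268760))) (b (a (l 15183376) (l 15381280)) (l 15280376)))) (b (a (b (a (l 15699168) (l 16193088)) (l 15671136)) (b (a (l 16509656) (l 16355696)) (l 16315248))) (a (l 15668384) (b (l 16073704) (l 15995880))))) (a (a (b (a (b (l 14801880) (l 14801880)) (l 14970448)) (l 14895376)) (l 15112600)) (a (l 15668312) (l 15995776)))) (b (a (b (a (b (l 16275136) (l 16122808)) (b (l 16246512) (l 16116080))) (a (b (l 16519848) (l 16304248)) (b (b (l 16086624) (l 16199384)) (l 16507696)))) (b (a (b (l 16074336) (l 16084304)) (b (a (l 15990552) (l 15696896)) (l 16044824))) (b (a (l 15969456) (l 16000560)) (a (l 16037000) (l 15894384))))) (a (b (a (l 16235184) (l 16494856))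 (l 16346384)) (b (a (b (l 16392872) (l 16716224)) (b (l 15970624) (l 16335248))) (l 16743104))))), by decide +kernel⟩

def k17_pm_022 : ∃ t, chk3 f_pm_022 t 3 3 1 = true :=
  ⟨(b (a (b (a (b (a (b (l 379598471319) (l 258802846759)) (l 15212240)) (a (b (l 15906608) (l 15990264)) (b (l 15536032) (l 15701360)))) (b (l 1) (l 484287177015))) (a (b (a (l 16044696) (b (l 15906608) (l 15990264))) (l 16016272)) (b (a (b (l 15619920) (l 15785248)) (l 15296128)) (a (l 15862376) (l 15563744))))) (b (l 1) (a (b (l 1) (l 14995936)) (l 1)))) (a (b (a (b (l 15948928) (a (l 15970528) (l 15894280))) (b (a (l 16044696) (l 15925288)) (l 16016272))) (a (b (a (l 16335168) (l 15970528)) (l 16489600)) (b (l 15948928) (l 15926000)))) (a (b (b (a (l 15689576) (l 15296128)) (a (l 15925288) (l 15689576))) (b (l 15848800) (l 16016272))) (b (l 608840744615) (a (b (l 15689576) (l 15925288)) (l 618505746823)))))), by decide +kernel⟩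

theorem s18_pm_022 : ∃ t, chk3 f_pm_022 t 1 3 1 = true := ex3_a k16_pm_022 k17_pm_022

theorem s19_pm_022 : ∃ t, chk3 f_pm_022 t 32 5 1 = true := ex3_c k9_pm_022 k10_pm_022

theorem s20_pm_022 : ∃ t, chk3 f_pm_022 t 16 5 1 = true := ex3_a s19_pm_022 k11_pm_022

theorem s21_pm_022 : ∃ t, chk3 f_pm_022 t 8 5 1 = true := ex3_a s20_pm_022 k12_pm_022

theorem s22_pm_022 : ∃ t, chk3 f_pm_022 t 4 5 1 = true := ex3_a s21_pm_022 k13_pm_022

theorem s23_pm_022 : ∃ t, chk3 f_pm_022 t 2 5 1 = true := ex3_a s22_pm_022 k14_pm_022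

theorem s24_pm_022 : ∃ t, chk3 f_pm_022 t 1 5 1 = true := ex3_a s23_pm_022 k15_pm_022

theorem s25_pm_022 : ∃ t, chk3 f_pm_022 t 8 19 1 = true := ex3_a k4_pm_022 k5_pm_022

theorem s26_pm_022 : ∃ t, chk3 f_pm_022 t 16 18 1 = true := ex3_c k1_pm_022 k2_pm_022

theorem s27_pm_022 : ∃ t, chk3 f_pm_022 t 8 18 1 = true := ex3_a s26_pm_022 k3_pm_022

theorem s28_pm_022 : ∃ t, chk3 f_pm_022 t 8 9 1 = true := ex3_b s27_pm_022 s25_pm_022

theorem s29_pm_022 : ∃ t, chk3 f_pm_022 t 4 9 1 = true := ex3_a s28_pm_022 k6_pm_022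

theorem s30_pm_022 : ∃ t, chk3 f_pm_022 t 2 9 1 = true := ex3_a s29_pm_022 k7_pm_022

theorem s31_pm_022 : ∃ t, chk3 f_pm_022 t 2 4 1 = true := ex3_b k0_pm_022 s30_pm_022

theorem s32_pm_022 : ∃ t, chk3 f_pm_022 t 1 4 1 = true := ex3_a s31_pm_022 k8_pm_022

theorem s33_pm_022 : ∃ t, chk3 f_pm_022 t 1 2 1 = true := ex3_b s32_pm_022 s24_pm_022

theorem s34_pm_022 : ∃ t, chk3 f_pm_022 t 1 1 1 = true := ex3_b s33_pm_022 s18_pm_022

theorem c_pm_022 : CertFX 0 536870912 1073741824 536870912 1046898278 26843546 true true false .pp 0 2 2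
    ndF3q0 ndF3q2 pcF2 cut_pm_022 Ext.none :=
  certFX1 (fam := true) (s1 := true) (s2 := false) (a := 0) (b := 2) (c := 2) (cn := .pp) (n1 := ndF3q0) (n2 := ndF3q2) (pc := pcF2) (cut := cut_pm_022) (xt := Ext.none) (P1 := 0) (W1 := 536870912) (P2 := 1073741824) (W2 := 536870912) (P3 := 1046898278) (W3 := 26843546)
    rfl (fun _ => rfl) s34_pm_022

noncomputable def f_pm_023 : ℕ → ℕ → ℕ → ℕ → Bool := onCell 1610612736 536870912 1073741824 536870912 1046898278 26843546
    (rowFX 2 true true false .up 0 2 3 (qsf 0 536870912 1073741824 536870912 3) ndF3q0 ndF3q2 pcF3 Cut.none Ext.none)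

def k0_pm_023 : ∃ t, chk3 f_pm_023 t 1 1 1 = true :=
  ⟨(a (b (a (b (a (b (l 15757520) (l 16000440)) (c (l 15818072) (l 15722040))) (a (b (l 15949560) (l 16667800)) (b (l 15970528) (l 16667800)))) (a (b (a (b (l 2) (l 16000440)) (l 2)) (b (a (l 15970528) (l 15970528)) (l 16667800))) (b (l 2) (a (b (l 15970528) (l 16667800)) (l 4))))) (a (b (a (b (l 16750392) (l 16515480)) (l 16759800)) (a (b (a (l 15930368) (l 16227456)) (a (b (l 15472648) (a (l 14991920) (l 15174400))) (l 15471656))) (b (a (l 16454632) (l 16635168)) (a (l 15930368) (l 16227456))))) (a (b (l 16777216) (b (l 16750392) (a (l 16454632) (l 16635168)))) (c (a (l 16766280) (l 16777200)) (a (l 16765992) (l 16777200)))))) (a (b (l 4) (l 4)) (l 4))), by decide +kernel⟩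

theorem c_pm_023 : CertFX 0 536870912 1073741824 536870912 1046898278 26843546 true true false .up 0 2 3
    ndF3q0 ndF3q2 pcF3 Cut.none Ext.none :=
  certFX2 (fam := true) (s1 := true) (s2 := false) (a := 0) (b := 2) (c := 3) (cn := .up) (n1 := ndF3q0) (n2 := ndF3q2) (pc := pcF3) (cut := Cut.none) (xt := Ext.none) (P1 := 0) (W1 := 536870912) (P2 := 1073741824) (W2 := 536870912) (P3 := 1046898278) (W3 := 26843546)
    rfl (fun _ => rfl) k0_pm_023

noncomputable def f_pm_033 : ℕ → ℕ → ℕ → ℕ → Bool := onCell 0 536870912 1610612736 536870912 1046898278 26843546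
    (rowFX 1 true true false .pnn 0 3 3 (qsf 0 536870912 1610612736 536870912 3) ndF3q0 ndF3q3 pcF3 Cut.none Ext.none)

def k0_pm_033 : ∃ t, chk3 f_pm_033 t 1 1 1 = true :=
  ⟨(b (a (b (a (a (a (b (l 14895376) (l 14685664)) (l 15280376)) (a (l 15668312) (l 15995776))) (a (l 16325416) (l 1))) (a (b (a (a (c (l 14900208) (l 14758488)) (b (l 15280376) (l 15280376))) (b (l 15817696) (l 15817696))) (a (c (a (l 14900208) (l 15294328)) (a (b (l 14884312) (l 14884312)) (l 15268632))) (c (l 15825816) (l 15780128)))) (b (a (l 16346384) (l 16722328)) (a (c (l 16351912) (l 16340864)) (b (l 16722328) (l 16722328)))))) (b (l 1) (b (l 1) (c (l 16777216) (l 16777216))))) (b (a (b (b (a (a (a (b (l 14895376) (l 14895376)) (l 15280376)) (c (l 15825816) (l 15801104))) (a (l 16346384) (l 16722328))) (a (a (b (c (l 15045128) (l 14885792)) (l 4)) (l 4)) (l 4))) (l 4)) (l 4)) (l 4))), by decide +kernel⟩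

theorem c_pm_033 : CertFX 0 536870912 1610612736 536870912 1046898278 26843546 true true false .pnn 0 3 3
    ndF3q0 ndF3q3 pcF3 Cut.none Ext.none :=
  certFX1 (fam := true) (s1 := true) (s2 := false) (a := 0) (b := 3) (c := 3) (cn := .pnn) (n1 := ndF3q0) (n2 := ndF3q3) (pc := pcF3) (cut := Cut.none) (xt := Ext.none) (P1 := 0) (W1 := 536870912) (P2 := 1610612736) (W2 := 536870912) (P3 := 1046898278) (W3 := 26843546)
    rfl (fun _ => rfl) k0_pm_033

noncomputable def cut_pm_101 : Cut := Cut.of [[⟨0, 1, 0, 67108864⟩, ⟨1, 0, 0, 67108864⟩, ⟨2, 1, 0, 67108864⟩]]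

noncomputable def f_pm_101 : ℕ → ℕ → ℕ → ℕ → Bool := onCell 536870912 536870912 0 536870912 1046898278 26843546
    (rowFX 2 true true false .npn 1 0 1 (qsf 536870912 536870912 0 536870912 1) ndF3q1 ndF3q0 pcF1 cut_pm_101 Ext.none)

def k0_pm_101 : ∃ t, chk3 f_pm_101 t 1 1 1 = true :=
  ⟨(a (l 3) (a (l 3) (b (b (a (l 3) (b (a (l 3) (b (a (l 3) (l 6)) (l 3))) (l 3))) (l 3)) (l 3)))), by decide +kernel⟩

theorem c_pm_101 : CertFX 536870912 536870912 0 536870912 1046898278 26843546 true true false .npn 1 0 1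
    ndF3q1 ndF3q0 pcF1 cut_pm_101 Ext.none :=
  certFX2 (fam := true) (s1 := true) (s2 := false) (a := 1) (b := 0) (c := 1) (cn := .npn) (n1 := ndF3q1) (n2 := ndF3q0) (pc := pcF1) (cut := cut_pm_101) (xt := Ext.none) (P1 := 536870912) (W1 := 536870912) (P2 := 0) (W2 := 536870912) (P3 := 1046898278) (W3 := 26843546)
    rfl (fun _ => rfl) k0_pm_101

noncomputable def cut_pm_102 : Cut := Cut.of [[⟨0, 1, 0, 67108864⟩, ⟨1, 0, 0, 67108864⟩, ⟨2, 1, 0, 67108864⟩]]

noncomputable def f_pm_102 : ℕ → ℕ → ℕ → ℕ → Bool := onCell 536870912 536870912 1073741824 536870912 1046898278 26843546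
    (rowFX 1 true true false .npp 1 0 2 (qsf 536870912 536870912 0 536870912 2) ndF3q1 ndF3q0 pcF2 cut_pm_102 Ext.none)

def k0_pm_102 : ∃ t, chk3 f_pm_102 t 2 1 1 = true :=
  ⟨(b (b (l 3) (b (b (b (l 3) (a (l 2) (b (c (l 16777216) (l 16777216)) (b (c (l 16777216) (l 16777216)) (b (c (l 16776104) (l 16776072)) (b (b (b (l 16776280) (b (l 16775800) (c (l 16775360) (l 16775312)))) (l 16775496)) (l 16775528))))))) (a (l 2) (l 16775984))) (a (l 2) (l 16777168)))) (a (l 2) (l 16777216))), by decide +kernel⟩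

def k1_pm_102 : ∃ t, chk3 f_pm_102 t 3 8 1 = true :=
  ⟨(a (l 3) (a (l 3) (a (l 3) (b (a (l 3) (l 6)) (b (a (l 3) (a (a (l 3) (l 6)) (l 6))) (a (a (l 3) (b (l 3) (c (l 15456296) (l 15573328)))) (a (c (b (c (l 15608320) (l 15610992)) (l 15445736)) (b (c (l 15650664) (l 15705240)) (l 15305112))) (b (a (a (c (l 15634712) (l 15573992)) (l 6)) (l 6)) (c (b (l 15537240) (l 15457360)) (c (l 15481216) (a (l 15488392) (l 15487472)))))))))))), by decide +kernel⟩

def k2_pm_102 : ∃ t, chk3 f_pm_102 t 3 9 1 = true :=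
  ⟨(a (b (l 3) (a (l 3) (a (l 3) (b (l 3) (c (l 16499976) (l 16369128)))))) (b (a (b (l 3) (l 3)) (b (b (a (l 3) (a (c (a (l 15367504) (l 15293768)) (l 15394296)) (c (a (l 15286184) (l 15328088)) (a (l 15329248) (c (l 15309120) (l 15322568)))))) (a (c (c (l 15405856) (l 15564424)) (l 15571736)) (c (a (a (l 15215704) (l 15131088)) (a (l 15118584) (l 15157640))) (a (l 15283472) (a (l 15157256) (c (l 15134560) (l 15145784))))))) (a (c (c (a (l 15470256) (l 15199576)) (a (l 15482480) (l 15267088))) (b (l 15432952) (l 15298176))) (c (a (b (l 15042416) (c (l 14877840) (l 14941040))) (b (a (l 14952984) (l 15004328)) (l 14847520))) (a (b (l 15132384) (l 15003520)) (a (b (l 14987248) (l 14850880)) (l 14912592))))))) (a (a (b (l 3) (c (l 15814984) (b (l 15923168) (l 15906120)))) (b (c (b (l 15602640) (l 15540704)) (b (l 15572744) (l 15509104))) (c (b (l 15488920) (l 15440336)) (b (l 15455904) (l 15405976))))) (b (a (c (b (a (l 15291680) (l 15051552)) (a (l 15231280) (l 14986344))) (b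 (a (l 15273560) (l 15087224)) (l 15079872))) (a (b (a (c (l 14847944) (l 14942640)) (c (l 14623152) (l 14847232))) (l 14763824)) (c (l 14704000) (a (l 14717344) (l 14659904))))) (a (a (c (b (l 15182624) (l 15134264)) (b (l 15161576) (l 15111912))) (b (c (l 14941072) (l 14973848)) (l 14904576))) (a (c (l 14675552) (l 14755800)) (c (l 14560352) (l 14503192)))))))), by decide +kernel⟩

def k3_pm_102 : ∃ t, chk3 f_pm_102 t 6 5 1 = true :=
  ⟨(a (b (b (b (c (l 16775728) (l 16775688)) (b (c (l 16775720) (l 16775688)) (b (c (l 16773592) (l 16773432)) (b (b (l 16772616) (a (l 16774664) (l 16764120))) (b (b (b (l 16765848) (l 16762496)) (l 16760712)) (l 16761032)))))) (l 16766952)) (l 16775088)) (b (b (b (b (a (l 16768040) (c (l 16583856) (l 16578832))) (a (l 16768032) (c (l 16583856) (l 16578832)))) (b (c (a (l 16767008) (b (l 16583288) (l 16580480))) (a (b (l 16767920) (l 16766864)) (b (l 16578248) (l 16428544)))) (b (a (b (l 16764728) (b (l 16760704) (l 16757288))) (l 16569264))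 (a (l 16747720) (b (l 16562904) (l 16559576)))))) (l 16484672)) (a (l 16766304) (l 16579632)))), by decide +kernel⟩

def k4_pm_102 : ∃ t, chk3 f_pm_102 t 7 5 1 = true :=
  ⟨(b (b (b (b (a (c (a (l 15922032) (l 15394480)) (a (l 15899824) (c (l 15367744) (l 15349920)))) (a (l 14783600) (a (l 14578376) (l 14376344)))) (a (a (c (l 15921928) (l 15878744)) (b (l 15343984) (l 15323192))) (a (l 14715728) (a (l 14495544) (l 14301144))))) (b (a (a (b (c (l 15918096) (l 15895760)) (l 15899128)) (l 15293016)) (a (c (l 14808936) (l 14817232)) (c (l 14334840) (a (l 14469816) (l 14233176))))) (a (b (a (l 15888096) (l 15256976)) (b (a (l 15882352) (l 15247232)) (a (l 15879688) (l 15243888)))) (a (b (l 14717480) (b (l 14673544) (c (l 14710040) (l 14715368)))) (b (a (l 14333992) (l 14022664)) (b (a (l 14313856) (c (l 14164456) (l 14054096))) (a (c (l 14306896) (l 14376584)) (a (a (c (l 14188224) (l 14211112)) (l 14190744)) (l 14182696))))))))) (a (a (l 15889232) (l 15255856)) (a (c (l 14664720)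 (l 14668720)) (a (c (l 14210576) (l 14277416)) (c (l 14067272) (a (l 14076776) (l 14008064))))))) (a (a (l 15907800) (l 15280464)) (a (c (l 14642216) (l 14645568)) (c (a (l 14093136) (l 13862272)) (a (l 14156360) (b (l 13869912) (l 13810240))))))), by decide +kernel⟩

def k5_pm_102 : ∃ t, chk3 f_pm_102 t 3 3 1 = true :=
  ⟨(a (a (l 16775704) (b (a (l 16768032) (l 16581336)) (l 16685864))) (a (b (a (l 15910368) (l 15284048)) (l 15453888)) (b (a (c (l 14646872) (l 14650384)) (c (l 13974584) (a (l 14150488) (l 13810152)))) (a (l 14638568) (l 13941680))))), by decide +kernel⟩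

theorem s6_pm_102 : ∃ t, chk3 f_pm_102 t 3 5 1 = true := ex3_a k3_pm_102 k4_pm_102

theorem s7_pm_102 : ∃ t, chk3 f_pm_102 t 3 4 1 = true := ex3_b k1_pm_102 k2_pm_102

theorem s8_pm_102 : ∃ t, chk3 f_pm_102 t 3 2 1 = true := ex3_b s7_pm_102 s6_pm_102

theorem s9_pm_102 : ∃ t, chk3 f_pm_102 t 3 1 1 = true := ex3_b s8_pm_102 k5_pm_102

theorem s10_pm_102 : ∃ t, chk3 f_pm_102 t 1 1 1 = true := ex3_a k0_pm_102 s9_pm_102

theorem c_pm_102 : CertFX 536870912 536870912 0 536870912 1046898278 26843546 true true false .npp 1 0 2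
    ndF3q1 ndF3q0 pcF2 cut_pm_102 Ext.none :=
  certFX1 (fam := true) (s1 := true) (s2 := false) (a := 1) (b := 0) (c := 2) (cn := .npp) (n1 := ndF3q1) (n2 := ndF3q0) (pc := pcF2) (cut := cut_pm_102) (xt := Ext.none) (P1 := 536870912) (W1 := 536870912) (P2 := 0) (W2 := 536870912) (P3 := 1046898278) (W3 := 26843546)
    rfl (fun _ => rfl) s10_pm_102

noncomputable def f_pm_112 : ℕ → ℕ → ℕ → ℕ → Bool := onCell 536870912 536870912 1073741824 536870912 1046898278 26843546
    (rowFX 1 true true false .dn 1 1 2 (qsf 536870912 536870912 536870912 536870912 2) ndF3q1 ndF3q1 pcF2 Cut.none Ext.none)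

def k0_pm_112 : ∃ t, chk3 f_pm_112 t 1 1 1 = true :=
  ⟨(a (b (b (l 3) (a (b (b (b (l 3) (b (l 3) (b (l 3) (b (c (l 16777216) (a (l 16777216) (l 16777216))) (a (a (c (l 16777216) (l 16777216)) (l 16777216)) (a (l 16777216) (l 16777216))))))) (l 16777216)) (l 16777216)) (b (b (a (b (l 3) (b (l 3) (c (b (l 16777216) (b (l 16777216) (l 16777216))) (b (l 16777216) (b (l 16777216) (c (l 16777216) (l 543346917223))))))) (l 1)) (l 16775984)) (l 16777168)))) (a (b (a (l 16750864) (l 16776752)) (a (b (a (l 15950920) (l 16440360)) (a (b (l 14956864) (l 14373360)) (l 15283416))) (b (l 16734776) (a (l 15950920) (l 16440360))))) (b (l 16777216) (l 16758840)))) (b (b (l 1) (b (l 1) (a (a (l 16775088) (l 1)) (l 1)))) (a (a (l 16775704) (a (l 16768032) (l 639445915559))) (a (b (l 578240712247) (l 15453888)) (b (l 1) (a (l 14638568) (l 606691594503))))))), by decide +kernel⟩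

theorem c_pm_112 : CertFX 536870912 536870912 536870912 536870912 1046898278 26843546 true true false .dn 1 1 2
    ndF3q1 ndF3q1 pcF2 Cut.none Ext.none :=
  certFX1 (fam := true) (s1 := true) (s2 := false) (a := 1) (b := 1) (c := 2) (cn := .dn) (n1 := ndF3q1) (n2 := ndF3q1) (pc := pcF2) (cut := Cut.none) (xt := Ext.none) (P1 := 536870912) (W1 := 536870912) (P2 := 536870912) (W2 := 536870912) (P3 := 1046898278) (W3 := 26843546)
    rfl (fun _ => rfl) k0_pm_112

noncomputable def f_pm_113 : ℕ → ℕ → ℕ → ℕ → Bool := onCell 536870912 536870912 536870912 536870912 1046898278 26843546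
    (rowFX 0 true true false .nn 1 1 3 (qsf 536870912 536870912 536870912 536870912 3) ndF3q1 ndF3q1 pcF3 Cut.none Ext.none)

def k0_pm_113 : ∃ t, chk3 f_pm_113 t 1 1 1 = true :=
  ⟨(b (a (l 16777216) (a (l 654479614599) (a (l 643739199431) (a (l 14512744) (b (l 13983624) (l 13983624)))))) (a (b (l 654479614599) (b (l 643739199431) (b (l 14512744) (a (l 13983624) (l 13983624))))) (b (a (l 16693736) (a (l 15582840) (a (l 14600296) (l 13945712)))) (a (b (l 15582840) (b (l 14600296) (l 13945712))) (b (a (l 14581224) (l 13445776)) (a (l 13445776) (a (l 12885512) (b (l 12698760) (a (l 12984440) (b (l 13296408) (a (l 14650792) (b (l 15566048) (a (l 16797024) (b (l 16766504) (a (l 16788024) (b (l 16773816) (l 16783248))))))))))))))))), by decide +kernel⟩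

theorem c_pm_113 : CertFX 536870912 536870912 536870912 536870912 1046898278 26843546 true true false .nn 1 1 3
    ndF3q1 ndF3q1 pcF3 Cut.none Ext.none :=
  certFX0 (fam := true) (s1 := true) (s2 := false) (a := 1) (b := 1) (c := 3) (cn := .nn) (n1 := ndF3q1) (n2 := ndF3q1) (pc := pcF3) (cut := Cut.none) (xt := Ext.none) (P1 := 536870912) (W1 := 536870912) (P2 := 536870912) (W2 := 536870912) (P3 := 1046898278) (W3 := 26843546)
    rfl k0_pm_113

noncomputable def f_pm_123 : ℕ → ℕ → ℕ → ℕ → Bool := onCell 1610612736 536870912 1073741824 536870912 1046898278 26843546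
    (rowFX 2 true true false .npn 1 2 3 (qsf 536870912 536870912 1073741824 536870912 3) ndF3q1 ndF3q2 pcF3 Cut.none Ext.none)

def k0_pm_123 : ∃ t, chk3 f_pm_123 t 1 1 1 = true :=
  ⟨(a (b (a (b (a (b (l 15757520) (l 16000440)) (c (l 15839048) (l 15868840))) (a (l 1) (b (l 15865672) (l 1)))) (a (b (c (b (l 15947328) (l 16010400)) (b (l 15914688) (l 15990480))) (b (a (l 15970528) (l 15970528)) (l 16667800))) (a (b (b (l 4) (l 4)) (b (l 15970528) (l 16667800))) (l 4)))) (a (l 1) (a (l 1) (c (l 16777216) (l 16777216))))) (a (b (l 4) (l 4)) (l 4))), by decide +kernel⟩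

theorem c_pm_123 : CertFX 536870912 536870912 1073741824 536870912 1046898278 26843546 true true false .npn 1 2 3
    ndF3q1 ndF3q2 pcF3 Cut.none Ext.none :=
  certFX2 (fam := true) (s1 := true) (s2 := false) (a := 1) (b := 2) (c := 3) (cn := .npn) (n1 := ndF3q1) (n2 := ndF3q2) (pc := pcF3) (cut := Cut.none) (xt := Ext.none) (P1 := 536870912) (W1 := 536870912) (P2 := 1073741824) (W2 := 536870912) (P3 := 1046898278) (W3 := 26843546)
    rfl (fun _ => rfl) k0_pm_123

noncomputable def f_pm_133 : ℕ → ℕ → ℕ → ℕ → Bool := onCell 536870912 536870912 1610612736 536870912 1046898278 26843546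
    (rowFX 0 true true false .dn 1 3 3 (qsf 536870912 536870912 1610612736 536870912 3) ndF3q1 ndF3q3 pcF3 Cut.none Ext.none)

def k0_pm_133 : ∃ t, chk3 f_pm_133 t 1 1 1 = true :=
  ⟨(l 4), by decide +kernel⟩

theorem c_pm_133 : CertFX 536870912 536870912 1610612736 536870912 1046898278 26843546 true true false .dn 1 3 3
    ndF3q1 ndF3q3 pcF3 Cut.none Ext.none :=
  certFX0 (fam := true) (s1 := true) (s2 := false) (a := 1) (b := 3) (c := 3) (cn := .dn) (n1 := ndF3q1) (n2 := ndF3q3) (pc := pcF3) (cut := Cut.none) (xt := Ext.none) (P1 := 536870912) (W1 := 536870912) (P2 := 1610612736) (W2 := 536870912) (P3 := 1046898278) (W3 := 26843546)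
    rfl k0_pm_133

noncomputable def cut_pm_202 : Cut := Cut.of [[⟨0, 1, 0, 67108864⟩, ⟨1, 0, 0, 67108864⟩, ⟨2, 1, 0, 67108864⟩, ⟨3, 0, 0, 1233125376⟩]]

noncomputable def f_pm_202 : ℕ → ℕ → ℕ → ℕ → Bool := onCell 1073741824 536870912 0 536870912 1046898278 26843546
    (rowFX 2 true true false .pp 2 0 2 (qsf 1073741824 536870912 0 536870912 2) ndF3q2 ndF3q0 pcF2 cut_pm_202 Ext.none)

def k0_pm_202 : ∃ t, chk3 f_pm_202 t 8 2 1 = true :=
  ⟨(b (b (b (a (l 6) (a (l 6) (a (l 6) (a (l 6) (a (l 6) (c (b (b (c (l 16181352) (l 16181488)) (c (l 16195696) (l 16293664))) (c (b (l 16422256) (c (l 16549840) (l 16564720))) (b (c (l 16473352) (l 16488832)) (c (l 16613656) (l 16644232))))) (b (c (c (b (l 16181192) (l 16295256)) (b (b (l 16149288) (l 16219016)) (c (l 16341960) (b (l 16305216) (l 16388360))))) (b (c (b (c (l 16149152) (b (l 16132904) (l 16168200))) (c (l 16227456) (c (l 16229696) (l 16232968)))) (b (c (b (c (l 16133568) (l 16132112)) (l 16167152)) (l 16111984)) (l 16233848)))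 (l 16350760))) (c (b (c (l 16453864) (l 16506352)) (l 16660520)) (l 16480808))))))))) (b (a (l 6) (a (l 6) (b (a (l 6) (a (l 6) (c (c (c (l 16566400) (l 16681400)) (l 16630552)) (l 16584536)))) (c (c (a (c (l 16532808) (l 16484776)) (c (l 16543952) (l 16544232))) (a (l 16457816) (l 16507552))) (a (c (l 16474104) (l 16428624)) (l 16322672)))))) (a (l 1) (a (b (b (l 6) (l 1)) (l 1)) (c (c (a (c (l 16184848) (l 16126488)) (b (l 16257680) (l 16159000))) (a (l 16178040) (l 16069488))) (a (b (c (l 16310040) (l 16209744)) (l 16106424)) (c (l 16006248) (b (l 16304440) (l 16116200))))))))) (a (l 1) (a (l 1) (a (l 1) (b (b (c (c (l 543344589159) (l 15851888)) (l 15750200)) (l 1)) (l 1)))))) (l 1)), by decide +kernel⟩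

def k1_pm_202 : ∃ t, chk3 f_pm_202 t 18 16 2 = true :=
  ⟨(b (c (a (b (a (b (l 16161488) (l 16194736)) (l 16202992)) (a (b (l 16238304) (l 16305456)) (b (l 16248512) (l 16309592)))) (b (l 16233560) (c (l 16327768) (l 16335448)))) (b (a (a (b (l 16155776) (l 16193088)) (l 16198200)) (c (l 16250784) (l 16249712))) (a (c (a (l 16295688) (l 16297576)) (a (l 16307744) (l 16310632))) (c (l 16346424) (l 16195904))))) (b (c (a (c (l 16415168) (l 16398352)) (a (l 16344512) (l 16423280))) (a (c (b (l 16422024) (l 16488184)) (c (l 16434464) (l 16415600))) (c (a (l 16393928) (l 16428296)) (a (b (l 16444624) (l 16496976)) (l 16410624))))) (c (a (c (l 16509656) (a (l 16552504) (l 16549584))) (c (c (l 16546560) (l 16498392)) (a (l 16559400) (l 16575608)))) (b (c (a (l 16501104) (l 16496680)) (l 16505688)) (a (l 16675200) (l 16608000)))))), by decide +kernel⟩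

def k2_pm_202 : ∃ t, chk3 f_pm_202 t 18 16 3 = true :=
  ⟨(b (c (a (b (c (a (b (l 16150744) (l 16196536)) (l 16198336)) (b (a (l 16148032) (l 16177136)) (a (c (l 16202800) (l 16210312)) (l 16164224)))) (c (a (b (l 16279456) (l 16365504)) (b (l 16285408) (l 16338536))) (c (a (l 16244344) (b (l 16292968) (l 16367480))) (b (a (l 16290400) (l 16294840)) (l 16374272))))) (b (c (l 16230672) (b (l 16228496) (c (l 16280520) (l 16285072)))) (c (c (l 16289856) (l 16228880)) (b (c (l 16347440) (l 16351200)) (l 16417752))))) (b (b (a (c (c (a (l 16147928) (l 16178008)) (a (b (l 16134696) (c (l 16160832) (l 16162472))) (b (l 16167448) (l 16120680)))) (a (b (c (a (c (l 16128144) (c (l 16127736) (l 16125408))) (l 16139432)) (c (l 16092352) (l 16137848))) (c (c (b (l 16155112) (l 16174448)) (l 16168048)) (l 16168752))) (c (l 16156656) (l 16184200)))) (c (a (c (l 16213736) (l 16190008)) (c (l 16249112) (l 16242360))) (c (l 16227400) (l 16236656)))) (c (a (a (c (a (l 16214648) (l 16212648))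 (b (c (l 16197576) (l 16200600)) (l 16237832))) (c (c (l 16233160) (l 16234264)) (l 16188008))) (c (b (l 16271512) (l 16306152)) (l 16296128))) (a (a (l 16221600) (l 16241256)) (l 16298520)))) (a (a (l 16337592) (l 16339936)) (l 16390960)))) (a (c (c (c (b (l 16420304) (l 16655416)) (l 16448400)) (l 16429872)) (l 16389864)) (c (a (l 16392256) (l 16460088)) (b (l 16440840) (l 16625320))))), by decide +kernel⟩

def k3_pm_202 : ∃ t, chk3 f_pm_202 t 18 17 1 = true :=
  ⟨(c (b (c (b (a (c (l 16572920) (l 16559920)) (c (b (l 16582968) (l 16493224)) (l 16523792))) (a (l 16442328) (l 16394032))) (b (a (l 16559224) (l 16498664)) (a (l 16429296) (l 16348192)))) (a (c (b (l 16233200) (a (l 16205600) (l 16190920))) (a (l 16111560) (l 16218128))) (c (l 16016248) (l 16056880)))) (b (a (b (c (l 16553064) (l 16549576)) (l 16285656)) (b (l 16419400) (l 16330800))) (a (a (b (l 16260664) (l 15995928)) (l 16025360)) (c (l 16107224) (l 16091656))))), by decide +kernel⟩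

def k4_pm_202 : ∃ t, chk3 f_pm_202 t 19 16 1 = true :=
  ⟨(b (b (c (c (a (a (l 16245248) (l 16352984)) (l 16405240)) (a (a (c (l 16305224) (l 16304688)) (l 16309496)) (l 16322168))) (a (c (c (a (l 16307152) (l 16356392)) (a (b (l 16283472) (c (l 16338888) (l 16340760))) (b (l 16356520) (c (l 16401304) (l 16402616))))) (c (a (c (b (l 16222136) (c (l 16345752) (l 16351352))) (b (a (l 16244888) (c (l 16292296) (l 16242080))) (l 16354880))) (b (c (b (l 16346808) (l 16359648)) (b (l 16287016) (l 16368096))) (l 16416056))) (l 16193536))) (c (c (b (l 16497184) (l 16431184)) (c (b (l 16500216) (l 16517448)) (b (l 16457816) (l 16458368)))) (c (b (c (c (l 16496568) (l 16293400)) (l 16299376)) (l 16528840)) (l 16475104))))) (c (c (a (a (c (l 16389736) (l 16398016)) (l 16350160)) (a (l 16385992) (l 16458416))) (a (c (a (l 16409592) (l 16469976)) (b (l 16331944) (a (l 16444704) (l 16526288)))) (c (l 16398064) (b (l 16473456) (l 16367384))))) (c (c (a (a (b (l 16361488) (c (l 16469992)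 (l 16477896))) (l 16306176)) (c (l 16405272) (l 16402064))) (a (c (b (a (l 16408320) (l 16469584)) (l 16514200)) (l 16483472)) (l 16471568))) (a (l 16362576) (l 16400848))))) (c (b (c (a (a (l 16370088) (l 16434312)) (c (l 16370944) (a (l 16471704) (l 16296080)))) (c (a (a (l 16412512) (l 16546448)) (a (l 16445944) (l 16272448))) (b (a (a (l 16509448) (l 16590296)) (l 16345136)) (l 16368808)))) (c (a (c (a (l 16552232) (l 16476280)) (a (l 16506920) (l 16473888))) (c (b (l 16327632) (l 16299568)) (l 16131168))) (a (c (a (l 16538224) (l 16457112)) (l 16495624)) (l 16294464)))) (a (a (l 16377640) (l 16342104)) (b (c (l 16381264) (l 16330528)) (l 16148272))))), by decide +kernel⟩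

def k5_pm_202 : ∃ t, chk3 f_pm_202 t 19 17 1 = true :=
  ⟨(c (b (c (b (c (a (a (b (l 16456928) (l 16429792)) (l 16376368)) (l 16216912)) (a (l 16377880) (l 16198080))) (a (l 16086992) (l 16089704))) (a (a (l 16291576) (l 16278368)) (l 16125296))) (a (c (a (l 16092064) (l 16023656)) (l 15922056)) (c (b (l 15967752) (l 15832416)) (l 15875456)))) (b (a (c (l 16133664) (l 16108976)) (l 15961064)) (a (a (l 16029864) (l 15975400)) (l 15691680)))), by decide +kernel⟩

def k6_pm_202 : ∃ t, chk3 f_pm_202 t 9 9 1 = true :=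
  ⟨(a (b (b (c (a (c (a (l 15851248) (l 15822568)) (a (l 15881608) (l 15886232))) (c (a (l 15792816) (l 15863256)) (a (l 15866080) (l 15818256)))) (a (a (b (l 15814904) (l 15753320)) (c (l 15859600) (l 15666032))) (c (l 15551360) (l 15687944)))) (c (a (c (l 563744883687) (l 535827561159)) (c (a (l 15444176) (l 15408872)) (a (l 15468472) (l 15466384)))) (a (l 575555955975) (c (a (l 15447160) (l 15433832)) (a (l 15421888) (l 15402136)))))) (a (l 1) (b (c (c (l 602398748311) (l 664675726407)) (l 761849289959)) (l 1)))) (b (c (a (b (c (l 15538240) (l 15725888)) (a (c (l 91835356103) (l 15439384)) (c (l 15432240) (l 15380856)))) (b (c (l 15618312) (l 15585264)) (c (l 15323920) (l 15274304)))) (c (a (b (l 15686320) (l 15134128)) (l 15172344)) (a (b (l 15664992) (l 15180752)) (l 15374120)))) (b (a (c (a (c (l 565891551255) (l 15032632)) (b (l 15139264) (l 14941896))) (a (b (l 15094168) (l 14886544)) (b (l 15061368) (l 14878536)))) (c (b (c (l 15089448) (l 15033112)) (c (a (l 14948816)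 (l 14915352)) (l 14880720))) (c (l 14903744) (l 14860008)))) (b (a (a (l 1) (c (l 799966949495) (l 14701616))) (c (a (l 14770192) (l 14764296)) (a (l 14701312) (l 14675184)))) (a (l 1) (l 760238512727)))))), by decide +kernel⟩

def k7_pm_202 : ∃ t, chk3 f_pm_202 t 9 5 1 = true :=
  ⟨(b (b (a (l 1) (b (l 796744796183) (l 1))) (l 1)) (l 1)), by decide +kernel⟩

def k8_pm_202 : ∃ t, chk3 f_pm_202 t 4 3 1 = true :=
  ⟨(l 1), by decide +kernel⟩

def k9_pm_202 : ∃ t, chk3 f_pm_202 t 5 32 2 = true :=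
  ⟨(b (a (a (a (c (l 16248960) (c (l 16309720) (l 16263376))) (c (a (l 16150504) (a (l 16110280) (l 16162352))) (a (c (l 16146808) (l 16137824)) (a (a (l 16070952) (l 16101424)) (b (l 16177400) (l 16122424)))))) (c (a (l 16170888) (l 15834472)) (c (a (l 16167144) (l 15790720)) (a (a (l 16205800) (l 16211184)) (c (l 15848416) (l 15824664)))))) (a (a (c (c (l 15543960) (l 15434352)) (c (l 15404312) (l 15312560))) (c (a (l 15161104) (l 14896288)) (c (l 14990248) (l 15065912)))) (a (a (a (a (c (a (l 14856328) (l 14812256)) (l 14799808)) (c (l 14818448) (l 14794176))) (c (b (l 14780224) (l 14814576)) (l 14775720))) (c (l 14786880) (l 14762072))) (l 14774168)))) (a (a (a (c (l 16096816) (c (l 16052808) (c (l 16175024) (l 16173672)))) (c (a (l 16110784) (a (l 16054416) (l 16101344))) (a (c (l 16089592) (l 15982328)) (c (a (a (l 16056232) (l 16063568)) (l 16089008)) (b (a (l 16069824) (l 16097608)) (l 16044216)))))) (a (c (a (b (l 16198232) (l 16145184)) (l 16107176)) (c (a (l 16060232)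 (l 16270528)) (a (l 16052648) (l 16281216)))) (c (a (l 16052544) (l 15872856)) (c (c (l 15935544) (l 15942376)) (l 16038624))))) (a (a (c (c (l 15492928) (l 15494176)) (c (l 15586000) (l 15722200))) (c (a (l 15208824) (l 15023128)) (l 15247624))) (a (a (c (c (a (a (l 14988744) (l 14957824)) (l 14921368)) (l 14945208)) (l 14948040)) (c (l 14866440) (l 14865312))) (l 14836736))))), by decide +kernel⟩

def k10_pm_202 : ∃ t, chk3 f_pm_202 t 5 32 3 = true :=
  ⟨(a (b (a (a (b (c (c (l 16291080) (c (l 16291080) (a (l 16379760) (l 16254616)))) (a (c (c (l 16355512) (l 16372336)) (l 16366784)) (l 16240712))) (c (c (c (l 16289352) (l 16269392)) (c (l 16267680) (l 16276760))) (l 16265320))) (c (c (a (c (l 16135784) (l 16137840)) (a (a (l 16069808) (l 16101192)) (l 16026984))) (b (a (c (l 16149160) (l 16149640)) (c (a (l 16066200) (l 16175720)) (l 16142184))) (l 16103576))) (a (l 16117016) (l 16046544)))) (a (c (a (c (b (l 16333544) (l 16250944)) (b (l 16189792) (l 16235992))) (b (c (l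 16286536) (l 16310376)) (l 16415576))) (l 16151488)) (c (b (c (l 15819632) (l 15946792)) (l 16006000)) (l 15883000)))) (a (a (c (c (b (l 16065808) (l 16198936)) (l 16210624)) (l 16200632)) (a (l 16055184) (l 16037264))) (a (a (l 16044624) (l 16237352)) (a (l 16226792) (l 16039912))))) (a (a (c (b (l 15524120) (l 15736120)) (l 15466616)) (c (l 14950056) (l 15156080))) (a (b (c (a (l 14780488) (l 14745784)) (l 14757816)) (c (l 14914712) (l 14907224))) (l 14788584)))), by decide +kernel⟩

def k11_pm_202 : ∃ t, chk3 f_pm_202 t 5 33 1 = true :=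
  ⟨(a (c (c (b (a (a (c (l 16160424) (b (l 16189160) (l 16150712))) (a (c (l 16035816) (l 16027872)) (a (c (l 16018168) (l 15926528)) (l 16047480)))) (a (a (l 16060784) (c (l 16139472) (l 16151392))) (a (l 16183664) (l 16048784)))) (a (c (a (a (l 16161560) (l 16036584)) (a (l 15967984) (c (l 15896448) (l 15968968)))) (a (l 15857280) (l 15952168))) (a (c (l 16090552) (l 16074072)) (l 16130984)))) (a (c (b (a (c (l 16166176) (l 16160896)) (a (l 16019016) (a (l 15933312) (l 16024672)))) (a (l 16067144) (l 15938448))) (a (l 16099176) (l 15772416))) (a (l 15907168) (b (l 16226912) (l 16195640))))) (a (a (c (l 16085608) (l 16032112)) (a (l 15917952) (l 15944064))) (a (b (l 15974920) (l 16034192)) (a (l 16096544) (l 16234752))))) (a (a (b (c (c (c (l 15765368) (l 15926632)) (l 15921296)) (l 15892760)) (c (l 15894032) (l 16043600))) (c (c (l 15359152) (l 15520008)) (l 15519704))) (c (a (c (a (l 15221624) (l 15143568)) (l 15201040)) (b (l 14958080) (l 15111400))) (a (l 15192072) (l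 15034272))))), by decide +kernel⟩

def k12_pm_202 : ∃ t, chk3 f_pm_202 t 5 17 1 = true :=
  ⟨(a (a (a (c (b (c (l 15742160) (l 15905720)) (c (l 15699640) (l 15681216))) (b (c (l 15890560) (l 15881672)) (l 15661496))) (c (a (c (b (l 15834408) (l 15640392)) (b (l 15808552) (l 15621456))) (b (c (l 15870400) (l 15845544)) (c (l 15725208) (l 15707688)))) (a (b (l 15617920) (l 15600736)) (b (l 15823824) (l 15667944))))) (a (c (b (l 15906216) (l 15694512)) (b (l 15960240) (l 15860280))) (c (b (a (l 16122736) (l 16164760)) (l 16087416)) (b (a (l 16097760) (l 16185568)) (l 16071112))))) (a (a (b (c (a (l 16194352) (l 16107072)) (a (l 16325496) (l 16331536))) (c (l 16069144) (l 16206912))) (b (c (a (l 15979760) (l 15833832)) (l 15856680)) (c (a (l 16301896) (l 16134976)) (l 16135672)))) (c (a (b (a (l 15637720) (l 15536832)) (l 15860592)) (l 15433656)) (b (l 15476288) (l 15850136))))), by decide +kernel⟩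

def k13_pm_202 : ∃ t, chk3 f_pm_202 t 5 9 1 = true :=
  ⟨(a (a (c (a (b (b (c (l 15263352) (l 15428056)) (c (l 15169456) (l 15129792))) (b (c (b (l 14942248) (a (l 14854392) (l 14783320))) (b (l 14881936) (l 14755624))) (a (l 14678792) (l 14642024)))) (b (a (b (l 15420472) (c (l 15194688) (l 15165880))) (b (l 15541208) (c (l 15362464) (l 15341144)))) (b (b (a (l 14960920) (l 15087544)) (b (a (l 14863712) (l 15088920)) (l 14944712))) (l 14874672)))) (a (b (b (l 15213624) (l 15086280)) (b (b (l 14825328) (l 14683200)) (l 14553424))) (b (a (b (l 15386672) (l 15134480)) (b (l 15510912) (l 15313424))) (b (a (l 14621304) (l 14880056)) (l 14778008))))) (b (c (a (b (l 15754824) (l 15598744)) (b (l 16008960) (l 15905080))) (a (b (l 15730768) (l 15568904)) (b (l 15992656) (l 15884464)))) (b (a (b (c (l 15406216) (l 15432960)) (l 15386704)) (c (l 15761368) (l 15778600))) (a (l 15296000) (l 15719632))))) (a (b (b (a (c (l 16233928) (l 16224936)) (c (l 16424496) (l 16465528))) (a (c (l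 16180224) (l 16167960)) (l 16254960))) (b (l 16089640) (l 16101392))) (b (a (a (b (a (l 16159072) (l 16338120)) (l 16509568)) (b (l 16273904) (l 16503952))) (b (l 16126408) (l 16368792))) (a (l 16501760) (l 16406008))))), by decide +kernel⟩

def k14_pm_202 : ∃ t, chk3 f_pm_202 t 5 5 1 = true :=
  ⟨(a (b (a (a (b (b (c (l 14433392) (a (l 14354640) (l 14140576))) (l 913245124567)) (l 1)) (b (a (b (l 14463448) (l 665211172215)) (b (l 14807200) (l 374227724151))) (l 1138194358967))) (a (b (c (l 14882896) (b (l 15109144) (l 14883864))) (b (a (l 594881732951) (l 343626714583)) (l 824125316919))) (a (b (l 15421736) (b (l 15095696) (l 14788576))) (b (l 15517360) (b (l 15421184) (l 14959024)))))) (a (l 1) (b (a (l 1) (l 941163936951)) (l 1)))) (b (a (b (a (c (l 15961912) (l 15924864)) (b (l 16347528) (l 16273168))) (a (c (l 15626776) (b (l 15703544) (l 15453776))) (c (l 16102408) (l 16014976)))) (b (l 16273536) (c (l 16302088) (l 16235712)))) (a (a (b (b (c (l 15376312) (l 447243472231))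 (l 14982880)) (l 1)) (b (c (l 15542824) (b (l 15693064) (l 411273715383))) (l 581998007879))) (b (a (c (l 15998848) (b (l 16069928) (l 15769368))) (l 15942552)) (a (b (a (l 329132742535) (l 15758152)) (l 15527240)) (b (l 15789640) (l 15665504))))))), by decide +kernel⟩

def k15_pm_202 : ∃ t, chk3 f_pm_202 t 5 3 1 = true :=
  ⟨(a (l 1) (a (l 1) (b (b (b (l 383355919127) (l 1)) (l 1)) (l 1)))), by decide +kernel⟩

def k16_pm_202 : ∃ t, chk3 f_pm_202 t 3 2 1 = true :=
  ⟨(b (a (b (b (a (c (a (b (c (l 14811864) (l 14799840)) (l 14989024)) (l 14900208)) (b (c (l 14791528) (l 14781904)) (l 14978416))) (a (c (l 14669520) (b (l 14788272) (l 14978296))) (c (l 14900208) (l 14884312)))) (a (a (c (b (a (l 15247464) (l 15195952)) (l 15394696)) (b (l 15208648) (l 15492696))) (c (l 15294464) (l 15268760))) (a (b (l 15183376) (l 15381280)) (l 15280376)))) (a (b (a (b (l 15699168) (l 16193088)) (l 15671136)) (a (b (l 16509656) (l 16355696)) (l 16315248))) (b (l 15668384) (a (l 16073704) (l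 15995880))))) (b (b (a (b (a (l 14801880) (l 14801880)) (l 14970448)) (l 14895376)) (l 15112600)) (b (l 15668312) (l 15995776)))) (a (b (a (b (a (l 16275136) (l 16122808)) (a (l 16246512) (l 16116080))) (b (a (l 16519848) (l 16304248)) (a (a (l 16086624) (l 16199384)) (l 16507696)))) (a (a (b (l 16074336) (b (l 15990552) (l 15696896))) (b (l 16084304) (l 16044824))) (a (b (l 15969456) (l 16000560)) (b (l 16037000) (l 15894384))))) (b (a (b (l 16235184) (l 16494856)) (l 16346384)) (a (b (a (l 16392872) (l 16716224)) (a (l 15970624) (l 16335248))) (l 16743104))))), by decide +kernel⟩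

def k17_pm_202 : ∃ t, chk3 f_pm_202 t 3 3 1 = true :=
  ⟨(a (b (a (b (a (b (a (l 333964443799) (l 258802846759)) (l 15212240)) (b (a (l 15906608) (l 15990264)) (a (l 15536032) (l 15701360)))) (a (l 1) (l 484287177015))) (b (a (b (l 16044696) (a (l 15906608) (l 15990264))) (l 16016272)) (a (b (a (l 15619920) (l 15785248)) (l 15296128)) (b (l 15862376) (l 15563744))))) (a (l 1) (b (a (l 1) (l 14995936)) (l 1)))) (b (a (b (a (l 15948928) (b (l 15970528) (l 15894280))) (a (b (l 16044696) (l 15925288)) (l 16016272))) (b (a (b (l 16335168) (l 15970528)) (l 16489600)) (a (l 15948928) (l 15926000)))) (b (a (a (b (l 15689576) (l 15296128)) (b (l 15925288) (l 15689576))) (a (l 15848800) (l 16016272))) (a (l 608840744615) (b (a (l 15689576) (l 15925288)) (l 618505746823)))))), by decide +kernel⟩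

theorem s18_pm_202 : ∃ t, chk3 f_pm_202 t 3 1 1 = true := ex3_b k16_pm_202 k17_pm_202

theorem s19_pm_202 : ∃ t, chk3 f_pm_202 t 5 32 1 = true := ex3_c k9_pm_202 k10_pm_202

theorem s20_pm_202 : ∃ t, chk3 f_pm_202 t 5 16 1 = true := ex3_b s19_pm_202 k11_pm_202

theorem s21_pm_202 : ∃ t, chk3 f_pm_202 t 5 8 1 = true := ex3_b s20_pm_202 k12_pm_202

theorem s22_pm_202 : ∃ t, chk3 f_pm_202 t 5 4 1 = true := ex3_b s21_pm_202 k13_pm_202

theorem s23_pm_202 : ∃ t, chk3 f_pm_202 t 5 2 1 = true := ex3_b s22_pm_202 k14_pm_202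

theorem s24_pm_202 : ∃ t, chk3 f_pm_202 t 5 1 1 = true := ex3_b s23_pm_202 k15_pm_202

theorem s25_pm_202 : ∃ t, chk3 f_pm_202 t 19 8 1 = true := ex3_b k4_pm_202 k5_pm_202

theorem s26_pm_202 : ∃ t, chk3 f_pm_202 t 18 16 1 = true := ex3_c k1_pm_202 k2_pm_202

theorem s27_pm_202 : ∃ t, chk3 f_pm_202 t 18 8 1 = true := ex3_b s26_pm_202 k3_pm_202

theorem s28_pm_202 : ∃ t, chk3 f_pm_202 t 9 8 1 = true := ex3_a s27_pm_202 s25_pm_202

theorem s29_pm_202 : ∃ t, chk3 f_pm_202 t 9 4 1 = true := ex3_b s28_pm_202 k6_pm_202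

theorem s30_pm_202 : ∃ t, chk3 f_pm_202 t 9 2 1 = true := ex3_b s29_pm_202 k7_pm_202

theorem s31_pm_202 : ∃ t, chk3 f_pm_202 t 4 2 1 = true := ex3_a k0_pm_202 s30_pm_202

theorem s32_pm_202 : ∃ t, chk3 f_pm_202 t 4 1 1 = true := ex3_b s31_pm_202 k8_pm_202

theorem s33_pm_202 : ∃ t, chk3 f_pm_202 t 2 1 1 = true := ex3_a s32_pm_202 s24_pm_202

theorem s34_pm_202 : ∃ t, chk3 f_pm_202 t 1 1 1 = true := ex3_a s33_pm_202 s18_pm_202

theorem c_pm_202 : CertFX 1073741824 536870912 0 536870912 1046898278 26843546 true true false .pp 2 0 2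
    ndF3q2 ndF3q0 pcF2 cut_pm_202 Ext.none :=
  certFX2 (fam := true) (s1 := true) (s2 := false) (a := 2) (b := 0) (c := 2) (cn := .pp) (n1 := ndF3q2) (n2 := ndF3q0) (pc := pcF2) (cut := cut_pm_202) (xt := Ext.none) (P1 := 1073741824) (W1 := 536870912) (P2 := 0) (W2 := 536870912) (P3 := 1046898278) (W3 := 26843546)
    rfl (fun _ => rfl) s34_pm_202

noncomputable def f_pm_203 : ℕ → ℕ → ℕ → ℕ → Bool := onCell 1073741824 536870912 1610612736 536870912 1046898278 26843546
    (rowFX 1 true true false .up 2 0 3 (qsf 1073741824 536870912 0 536870912 3) ndF3q2 ndF3q0 pcF3 Cut.none Ext.none)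

def k0_pm_203 : ∃ t, chk3 f_pm_203 t 1 1 1 = true :=
  ⟨(b (a (b (a (b (a (l 15757520) (l 16000440)) (c (l 15818072) (l 15722040))) (b (a (l 15949560) (l 16667800)) (a (l 15970528) (l 16667800)))) (b (a (a (l 2) (a (l 2) (l 15972464))) (a (b (l 15970528) (l 15970528)) (l 16667800))) (a (l 2) (b (a (l 15970528) (l 16667800)) (l 4))))) (b (a (b (a (l 16750392) (l 16515480)) (l 16759800)) (b (a (b (l 15930368) (l 16227456)) (b (a (l 15472648) (b (l 14991920) (l 15174400))) (l 15471656))) (a (b (l 16454632) (l 16635168)) (b (l 15930368) (l 16227456))))) (b (a (l 16777216) (a (l 16750392) (b (l 16454632) (l 16635168)))) (c (b (l 16766280) (l 16777200)) (b (l 16765992) (l 16777200)))))) (b (a (l 4) (l 4)) (l 4))), by decide +kernel⟩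

theorem c_pm_203 : CertFX 1073741824 536870912 0 536870912 1046898278 26843546 true true false .up 2 0 3
    ndF3q2 ndF3q0 pcF3 Cut.none Ext.none :=
  certFX1 (fam := true) (s1 := true) (s2 := false) (a := 2) (b := 0) (c := 3) (cn := .up) (n1 := ndF3q2) (n2 := ndF3q0) (pc := pcF3) (cut := Cut.none) (xt := Ext.none) (P1 := 1073741824) (W1 := 536870912) (P2 := 0) (W2 := 536870912) (P3 := 1046898278) (W3 := 26843546)
    rfl (fun _ => rfl) k0_pm_203

noncomputable def f_pm_213 : ℕ → ℕ → ℕ → ℕ → Bool := onCell 1073741824 536870912 1610612736 536870912 1046898278 26843546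
    (rowFX 1 true true false .pnn 2 1 3 (qsf 1073741824 536870912 536870912 536870912 3) ndF3q2 ndF3q1 pcF3 Cut.none Ext.none)

def k0_pm_213 : ∃ t, chk3 f_pm_213 t 1 1 1 = true :=
  ⟨(b (a (b (a (b (a (l 15757520) (l 16000440)) (c (l 15839048) (l 15868840))) (b (l 1) (a (l 15865672) (l 1)))) (b (a (c (a (l 15947328) (l 16010400)) (a (l 15914688) (l 15990480))) (a (b (l 15970528) (l 15970528)) (l 16667800))) (a (a (l 4) (l 4)) (b (a (l 15970528) (l 16667800)) (l 4))))) (b (l 1) (b (l 1) (c (l 16777216) (l 16777216))))) (b (a (l 4) (l 4)) (l 4))), by decide +kernel⟩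

theorem c_pm_213 : CertFX 1073741824 536870912 536870912 536870912 1046898278 26843546 true true false .pnn 2 1 3
    ndF3q2 ndF3q1 pcF3 Cut.none Ext.none :=
  certFX1 (fam := true) (s1 := true) (s2 := false) (a := 2) (b := 1) (c := 3) (cn := .pnn) (n1 := ndF3q2) (n2 := ndF3q1) (pc := pcF3) (cut := Cut.none) (xt := Ext.none) (P1 := 1073741824) (W1 := 536870912) (P2 := 536870912) (W2 := 536870912) (P3 := 1046898278) (W3 := 26843546)
    rfl (fun _ => rfl) k0_pm_213

noncomputable def f_pm_303 : ℕ → ℕ → ℕ → ℕ → Bool := onCell 1610612736 536870912 0 536870912 1046898278 26843546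
    (rowFX 2 true true false .npn 3 0 3 (qsf 1610612736 536870912 0 536870912 3) ndF3q3 ndF3q0 pcF3 Cut.none Ext.none)

def k0_pm_303 : ∃ t, chk3 f_pm_303 t 1 1 1 = true :=
  ⟨(a (b (a (b (b (b (a (l 14895376) (l 14685664)) (l 15280376)) (b (l 15668312) (l 15995776))) (b (l 16325416) (l 1))) (b (a (b (b (c (l 14900208) (l 14758488)) (a (l 15280376) (l 15280376))) (a (l 15817696) (l 15817696))) (b (c (b (l 14900208) (l 15294328)) (b (a (l 14884312) (l 14884312)) (l 15268632))) (c (l 15825816) (l 15780128)))) (a (b (l 16346384) (l 16722328)) (b (c (l 16351912) (l 16340864)) (a (l 16722328) (l 16722328)))))) (a (l 1) (a (l 1) (c (l 16777216) (l 16777216))))) (a (b (a (a (b (b (b (a (l 14895376) (l 14895376)) (l 15280376)) (c (l 15825816) (l 15801104))) (b (l 16346384) (l 16722328))) (b (a (b (c (l 15045128) (l 14885792)) (l 4)) (l 4)) (l 4))) (l 4)) (l 4)) (l 4))), by decide +kernel⟩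

theorem c_pm_303 : CertFX 1610612736 536870912 0 536870912 1046898278 26843546 true true false .npn 3 0 3
    ndF3q3 ndF3q0 pcF3 Cut.none Ext.none :=
  certFX2 (fam := true) (s1 := true) (s2 := false) (a := 3) (b := 0) (c := 3) (cn := .npn) (n1 := ndF3q3) (n2 := ndF3q0) (pc := pcF3) (cut := Cut.none) (xt := Ext.none) (P1 := 1610612736) (W1 := 536870912) (P2 := 0) (W2 := 536870912) (P3 := 1046898278) (W3 := 26843546)
    rfl (fun _ => rfl) k0_pm_303

noncomputable def f_pm_313 : ℕ → ℕ → ℕ → ℕ → Bool := onCell 1610612736 536870912 536870912 536870912 1046898278 26843546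
    (rowFX 0 true true false .dn 3 1 3 (qsf 1610612736 536870912 536870912 536870912 3) ndF3q3 ndF3q1 pcF3 Cut.none Ext.none)

def k0_pm_313 : ∃ t, chk3 f_pm_313 t 1 1 1 = true :=
  ⟨(l 4), by decide +kernel⟩

theorem c_pm_313 : CertFX 1610612736 536870912 536870912 536870912 1046898278 26843546 true true false .dn 3 1 3
    ndF3q3 ndF3q1 pcF3 Cut.none Ext.none :=
  certFX0 (fam := true) (s1 := true) (s2 := false) (a := 3) (b := 1) (c := 3) (cn := .dn) (n1 := ndF3q3) (n2 := ndF3q1) (pc := pcF3) (cut := Cut.none) (xt := Ext.none) (P1 := 1610612736) (W1 := 536870912) (P2 := 536870912) (W2 := 536870912) (P3 := 1046898278) (W3 := 26843546)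
    rfl k0_pm_313

noncomputable def f_mm_001 : ℕ → ℕ → ℕ → ℕ → Bool := onCell 0 536870912 0 536870912 1046898278 26843546
    (rowFX 0 true false false .up 0 0 1 (qsf 0 536870912 0 536870912 1) ndF3q0 ndF3q0 pcF1 Cut.none Ext.none)

def k0_mm_001 : ∃ t, chk3 f_mm_001 t 1 1 1 = true :=
  ⟨(l 4), by decide +kernel⟩

theorem c_mm_001 : CertFX 0 536870912 0 536870912 1046898278 26843546 true false false .up 0 0 1
    ndF3q0 ndF3q0 pcF1 Cut.none Ext.none :=
  certFX0 (fam := true) (s1 := false) (s2 := false) (a := 0) (b := 0) (c := 1) (cn := .up) (n1 := ndF3q0) (n2 := ndF3q0) (pc := pcF1) (cut := Cut.none) (xt := Ext.none) (P1 := 0) (W1 := 536870912) (P2 := 0) (W2 := 536870912) (P3 := 1046898278) (W3 := 26843546)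
    rfl k0_mm_001

noncomputable def f_mm_011 : ℕ → ℕ → ℕ → ℕ → Bool := onCell 0 536870912 536870912 536870912 1046898278 26843546
    (rowFX 0 true false false .pnn 0 1 1 (qsf 0 536870912 536870912 536870912 1) ndF3q0 ndF3q1 pcF1 Cut.none Ext.none)

def k0_mm_011 : ∃ t, chk3 f_mm_011 t 1 1 1 = true :=
  ⟨(l 4), by decide +kernel⟩

theorem c_mm_011 : CertFX 0 536870912 536870912 536870912 1046898278 26843546 true false false .pnn 0 1 1
    ndF3q0 ndF3q1 pcF1 Cut.none Ext.none :=
  certFX0 (fam := true) (s1 := false) (s2 := false) (a := 0) (b := 1) (c := 1) (cn := .pnn) (n1 := ndF3q0) (n2 := ndF3q1) (pc := pcF1) (cut := Cut.none) (xt := Ext.none) (P1 := 0) (W1 := 536870912) (P2 := 536870912) (W2 := 536870912) (P3 := 1046898278) (W3 := 26843546)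
    rfl k0_mm_011

noncomputable def f_mm_012 : ℕ → ℕ → ℕ → ℕ → Bool := onCell 0 536870912 536870912 536870912 1046898278 26843546
    (rowFX 0 true false false .pnp 0 1 2 (qsf 0 536870912 536870912 536870912 2) ndF3q0 ndF3q1 pcF2 Cut.none Ext.none)

def k0_mm_012 : ∃ t, chk3 f_mm_012 t 1 1 1 = true :=
  ⟨(l 4), by decide +kernel⟩

theorem c_mm_012 : CertFX 0 536870912 536870912 536870912 1046898278 26843546 true false false .pnp 0 1 2
    ndF3q0 ndF3q1 pcF2 Cut.none Ext.none :=
  certFX0 (fam := true) (s1 := false) (s2 := false) (a := 0) (b := 1) (c := 2) (cn := .pnp) (n1 := ndF3q0) (n2 := ndF3q1) (pc := pcF2) (cut := Cut.none) (xt := Ext.none) (P1 := 0) (W1 := 536870912) (P2 := 536870912) (W2 := 536870912) (P3 := 1046898278) (W3 := 26843546)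
    rfl k0_mm_012

noncomputable def f_mm_022 : ℕ → ℕ → ℕ → ℕ → Bool := onCell 0 536870912 1073741824 536870912 1046898278 26843546
    (rowFX 0 true false false .pp 0 2 2 (qsf 0 536870912 1073741824 536870912 2) ndF3q0 ndF3q2 pcF2 Cut.none Ext.none)

def k0_mm_022 : ∃ t, chk3 f_mm_022 t 1 1 1 = true :=
  ⟨(l 5), by decide +kernel⟩

theorem c_mm_022 : CertFX 0 536870912 1073741824 536870912 1046898278 26843546 true false false .pp 0 2 2
    ndF3q0 ndF3q2 pcF2 Cut.none Ext.none :=
  certFX0 (fam := true) (s1 := false) (s2 := false) (a := 0) (b := 2) (c := 2) (cn := .pp) (n1 := ndF3q0) (n2 := ndF3q2) (pc := pcF2) (cut := Cut.none) (xt := Ext.none) (P1 := 0) (W1 := 536870912) (P2 := 1073741824) (W2 := 536870912) (P3 := 1046898278) (W3 := 26843546)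
    rfl k0_mm_022

noncomputable def f_mm_023 : ℕ → ℕ → ℕ → ℕ → Bool := onCell 0 536870912 1073741824 536870912 1046898278 26843546
    (rowFX 0 true false false .up 0 2 3 (qsf 0 536870912 1073741824 536870912 3) ndF3q0 ndF3q2 pcF3 Cut.none Ext.none)

def k0_mm_023 : ∃ t, chk3 f_mm_023 t 1 1 1 = true :=
  ⟨(l 5), by decide +kernel⟩

theorem c_mm_023 : CertFX 0 536870912 1073741824 536870912 1046898278 26843546 true false false .up 0 2 3
    ndF3q0 ndF3q2 pcF3 Cut.none Ext.none :=
  certFX0 (fam := true) (s1 := false) (s2 := false) (a := 0) (b := 2) (c := 3) (cn := .up) (n1 := ndF3q0) (n2 := ndF3q2) (pc := pcF3) (cut := Cut.none) (xt := Ext.none) (P1 := 0) (W1 := 536870912) (P2 := 1073741824) (W2 := 536870912) (P3 := 1046898278) (W3 := 26843546)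
    rfl k0_mm_023

noncomputable def f_mm_033 : ℕ → ℕ → ℕ → ℕ → Bool := onCell 0 536870912 1610612736 536870912 1046898278 26843546
    (rowFX 0 true false false .pnn 0 3 3 (qsf 0 536870912 1610612736 536870912 3) ndF3q0 ndF3q3 pcF3 Cut.none Ext.none)

def k0_mm_033 : ∃ t, chk3 f_mm_033 t 1 1 1 = true :=
  ⟨(l 4), by decide +kernel⟩

theorem c_mm_033 : CertFX 0 536870912 1610612736 536870912 1046898278 26843546 true false false .pnn 0 3 3
    ndF3q0 ndF3q3 pcF3 Cut.none Ext.none :=
  certFX0 (fam := true) (s1 := false) (s2 := false) (a := 0) (b := 3) (c := 3) (cn := .pnn) (n1 := ndF3q0) (n2 := ndF3q3) (pc := pcF3) (cut := Cut.none) (xt := Ext.none) (P1 := 0) (W1 := 536870912) (P2 := 1610612736) (W2 := 536870912) (P3 := 1046898278) (W3 := 26843546)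
    rfl k0_mm_033

noncomputable def f_mm_101 : ℕ → ℕ → ℕ → ℕ → Bool := onCell 536870912 536870912 0 536870912 1046898278 26843546
    (rowFX 0 true false false .npn 1 0 1 (qsf 536870912 536870912 0 536870912 1) ndF3q1 ndF3q0 pcF1 Cut.none Ext.none)

def k0_mm_101 : ∃ t, chk3 f_mm_101 t 1 1 1 = true :=
  ⟨(l 4), by decide +kernel⟩

theorem c_mm_101 : CertFX 536870912 536870912 0 536870912 1046898278 26843546 true false false .npn 1 0 1
    ndF3q1 ndF3q0 pcF1 Cut.none Ext.none :=
  certFX0 (fam := true) (s1 := false) (s2 := false) (a := 1) (b := 0) (c := 1) (cn := .npn) (n1 := ndF3q1) (n2 := ndF3q0) (pc := pcF1) (cut := Cut.none) (xt := Ext.none) (P1 := 536870912) (W1 := 536870912) (P2 := 0) (W2 := 536870912) (P3 := 1046898278) (W3 := 26843546)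
    rfl k0_mm_101

noncomputable def f_mm_102 : ℕ → ℕ → ℕ → ℕ → Bool := onCell 536870912 536870912 0 536870912 1046898278 26843546
    (rowFX 0 true false false .npp 1 0 2 (qsf 536870912 536870912 0 536870912 2) ndF3q1 ndF3q0 pcF2 Cut.none Ext.none)

def k0_mm_102 : ∃ t, chk3 f_mm_102 t 1 1 1 = true :=
  ⟨(l 4), by decide +kernel⟩

theorem c_mm_102 : CertFX 536870912 536870912 0 536870912 1046898278 26843546 true false false .npp 1 0 2
    ndF3q1 ndF3q0 pcF2 Cut.none Ext.none :=
  certFX0 (fam := true) (s1 := false) (s2 := false) (a := 1) (b := 0) (c := 2) (cn := .npp) (n1 := ndF3q1) (n2 := ndF3q0) (pc := pcF2) (cut := Cut.none) (xt := Ext.none) (P1 := 536870912) (W1 := 536870912) (P2 := 0) (W2 := 536870912) (P3 := 1046898278) (W3 := 26843546)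
    rfl k0_mm_102

noncomputable def f_mm_112 : ℕ → ℕ → ℕ → ℕ → Bool := onCell 536870912 536870912 536870912 536870912 1046898278 26843546
    (rowFX 0 true false false .dn 1 1 2 (qsf 536870912 536870912 536870912 536870912 2) ndF3q1 ndF3q1 pcF2 Cut.none Ext.none)

def k0_mm_112 : ∃ t, chk3 f_mm_112 t 1 1 1 = true :=
  ⟨(l 4), by decide +kernel⟩

theorem c_mm_112 : CertFX 536870912 536870912 536870912 536870912 1046898278 26843546 true false false .dn 1 1 2
    ndF3q1 ndF3q1 pcF2 Cut.none Ext.none :=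
  certFX0 (fam := true) (s1 := false) (s2 := false) (a := 1) (b := 1) (c := 2) (cn := .dn) (n1 := ndF3q1) (n2 := ndF3q1) (pc := pcF2) (cut := Cut.none) (xt := Ext.none) (P1 := 536870912) (W1 := 536870912) (P2 := 536870912) (W2 := 536870912) (P3 := 1046898278) (W3 := 26843546)
    rfl k0_mm_112

noncomputable def f_mm_113 : ℕ → ℕ → ℕ → ℕ → Bool := onCell 536870912 536870912 536870912 536870912 1046898278 26843546
    (rowFX 0 true false false .nn 1 1 3 (qsf 536870912 536870912 536870912 536870912 3) ndF3q1 ndF3q1 pcF3 Cut.none Ext.none)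

def k0_mm_113 : ∃ t, chk3 f_mm_113 t 1 1 1 = true :=
  ⟨(l 4), by decide +kernel⟩

theorem c_mm_113 : CertFX 536870912 536870912 536870912 536870912 1046898278 26843546 true false false .nn 1 1 3
    ndF3q1 ndF3q1 pcF3 Cut.none Ext.none :=
  certFX0 (fam := true) (s1 := false) (s2 := false) (a := 1) (b := 1) (c := 3) (cn := .nn) (n1 := ndF3q1) (n2 := ndF3q1) (pc := pcF3) (cut := Cut.none) (xt := Ext.none) (P1 := 536870912) (W1 := 536870912) (P2 := 536870912) (W2 := 536870912) (P3 := 1046898278) (W3 := 26843546)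
    rfl k0_mm_113

noncomputable def f_mm_123 : ℕ → ℕ → ℕ → ℕ → Bool := onCell 536870912 536870912 1073741824 536870912 1046898278 26843546
    (rowFX 0 true false false .npn 1 2 3 (qsf 536870912 536870912 1073741824 536870912 3) ndF3q1 ndF3q2 pcF3 Cut.none Ext.none)

def k0_mm_123 : ∃ t, chk3 f_mm_123 t 1 1 1 = true :=
  ⟨(l 4), by decide +kernel⟩

theorem c_mm_123 : CertFX 536870912 536870912 1073741824 536870912 1046898278 26843546 true false false .npn 1 2 3
    ndF3q1 ndF3q2 pcF3 Cut.none Ext.none :=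
  certFX0 (fam := true) (s1 := false) (s2 := false) (a := 1) (b := 2) (c := 3) (cn := .npn) (n1 := ndF3q1) (n2 := ndF3q2) (pc := pcF3) (cut := Cut.none) (xt := Ext.none) (P1 := 536870912) (W1 := 536870912) (P2 := 1073741824) (W2 := 536870912) (P3 := 1046898278) (W3 := 26843546)
    rfl k0_mm_123

noncomputable def f_mm_133 : ℕ → ℕ → ℕ → ℕ → Bool := onCell 536870912 536870912 1610612736 536870912 1046898278 26843546
    (rowFX 0 true false false .dn 1 3 3 (qsf 536870912 536870912 1610612736 536870912 3) ndF3q1 ndF3q3 pcF3 Cut.none Ext.none)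

def k0_mm_133 : ∃ t, chk3 f_mm_133 t 1 1 1 = true :=
  ⟨(l 4), by decide +kernel⟩

theorem c_mm_133 : CertFX 536870912 536870912 1610612736 536870912 1046898278 26843546 true false false .dn 1 3 3
    ndF3q1 ndF3q3 pcF3 Cut.none Ext.none :=
  certFX0 (fam := true) (s1 := false) (s2 := false) (a := 1) (b := 3) (c := 3) (cn := .dn) (n1 := ndF3q1) (n2 := ndF3q3) (pc := pcF3) (cut := Cut.none) (xt := Ext.none) (P1 := 536870912) (W1 := 536870912) (P2 := 1610612736) (W2 := 536870912) (P3 := 1046898278) (W3 := 26843546)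
    rfl k0_mm_133

noncomputable def cut_mm_202 : Cut := Cut.of [[⟨0, 1, 0, 67108864⟩, ⟨1, 0, 0, 67108864⟩, ⟨2, 1, 0, 67108864⟩]]

noncomputable def f_mm_202 : ℕ → ℕ → ℕ → ℕ → Bool := onCell 1073741824 536870912 0 536870912 1046898278 26843546
    (rowFX 2 true false false .pp 2 0 2 (qsf 1073741824 536870912 0 536870912 2) ndF3q2 ndF3q0 pcF2 cut_mm_202 Ext.none)

def k0_mm_202 : ∃ t, chk3 f_mm_202 t 1 1 1 = true :=
  ⟨(b (a (a (b (a (b (b (a (l 6) (l 4)) (l 4)) (l 4)) (l 4)) (l 4)) (l 4)) (l 4)) (l 4)), by decide +kernel⟩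

theorem c_mm_202 : CertFX 1073741824 536870912 0 536870912 1046898278 26843546 true false false .pp 2 0 2
    ndF3q2 ndF3q0 pcF2 cut_mm_202 Ext.none :=
  certFX2 (fam := true) (s1 := false) (s2 := false) (a := 2) (b := 0) (c := 2) (cn := .pp) (n1 := ndF3q2) (n2 := ndF3q0) (pc := pcF2) (cut := cut_mm_202) (xt := Ext.none) (P1 := 1073741824) (W1 := 536870912) (P2 := 0) (W2 := 536870912) (P3 := 1046898278) (W3 := 26843546)
    rfl (fun _ => rfl) k0_mm_202

noncomputable def f_mm_203 : ℕ → ℕ → ℕ → ℕ → Bool := onCell 1073741824 536870912 1610612736 536870912 1046898278 26843546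
    (rowFX 1 true false false .up 2 0 3 (qsf 1073741824 536870912 0 536870912 3) ndF3q2 ndF3q0 pcF3 Cut.none Ext.none)

def k0_mm_203 : ∃ t, chk3 f_mm_203 t 1 1 1 = true :=
  ⟨(l 4), by decide +kernel⟩

theorem c_mm_203 : CertFX 1073741824 536870912 0 536870912 1046898278 26843546 true false false .up 2 0 3
    ndF3q2 ndF3q0 pcF3 Cut.none Ext.none :=
  certFX1 (fam := true) (s1 := false) (s2 := false) (a := 2) (b := 0) (c := 3) (cn := .up) (n1 := ndF3q2) (n2 := ndF3q0) (pc := pcF3) (cut := Cut.none) (xt := Ext.none) (P1 := 1073741824) (W1 := 536870912) (P2 := 0) (W2 := 536870912) (P3 := 1046898278) (W3 := 26843546)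
    rfl (fun _ => rfl) k0_mm_203

noncomputable def f_mm_213 : ℕ → ℕ → ℕ → ℕ → Bool := onCell 1073741824 536870912 536870912 536870912 1046898278 26843546
    (rowFX 0 true false false .pnn 2 1 3 (qsf 1073741824 536870912 536870912 536870912 3) ndF3q2 ndF3q1 pcF3 Cut.none Ext.none)

def k0_mm_213 : ∃ t, chk3 f_mm_213 t 1 1 1 = true :=
  ⟨(l 4), by decide +kernel⟩

theorem c_mm_213 : CertFX 1073741824 536870912 536870912 536870912 1046898278 26843546 true false false .pnn 2 1 3
    ndF3q2 ndF3q1 pcF3 Cut.none Ext.none :=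
  certFX0 (fam := true) (s1 := false) (s2 := false) (a := 2) (b := 1) (c := 3) (cn := .pnn) (n1 := ndF3q2) (n2 := ndF3q1) (pc := pcF3) (cut := Cut.none) (xt := Ext.none) (P1 := 1073741824) (W1 := 536870912) (P2 := 536870912) (W2 := 536870912) (P3 := 1046898278) (W3 := 26843546)
    rfl k0_mm_213

noncomputable def f_mm_303 : ℕ → ℕ → ℕ → ℕ → Bool := onCell 1610612736 536870912 0 536870912 1046898278 26843546
    (rowFX 0 true false false .npn 3 0 3 (qsf 1610612736 536870912 0 536870912 3) ndF3q3 ndF3q0 pcF3 Cut.none Ext.none)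

def k0_mm_303 : ∃ t, chk3 f_mm_303 t 1 1 1 = true :=
  ⟨(l 4), by decide +kernel⟩

theorem c_mm_303 : CertFX 1610612736 536870912 0 536870912 1046898278 26843546 true false false .npn 3 0 3
    ndF3q3 ndF3q0 pcF3 Cut.none Ext.none :=
  certFX0 (fam := true) (s1 := false) (s2 := false) (a := 3) (b := 0) (c := 3) (cn := .npn) (n1 := ndF3q3) (n2 := ndF3q0) (pc := pcF3) (cut := Cut.none) (xt := Ext.none) (P1 := 1610612736) (W1 := 536870912) (P2 := 0) (W2 := 536870912) (P3 := 1046898278) (W3 := 26843546)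
    rfl k0_mm_303

noncomputable def f_mm_313 : ℕ → ℕ → ℕ → ℕ → Bool := onCell 1610612736 536870912 536870912 536870912 1046898278 26843546
    (rowFX 0 true false false .dn 3 1 3 (qsf 1610612736 536870912 536870912 536870912 3) ndF3q3 ndF3q1 pcF3 Cut.none Ext.none)

def k0_mm_313 : ∃ t, chk3 f_mm_313 t 1 1 1 = true :=
  ⟨(l 4), by decide +kernel⟩

theorem c_mm_313 : CertFX 1610612736 536870912 536870912 536870912 1046898278 26843546 true false false .dn 3 1 3
    ndF3q3 ndF3q1 pcF3 Cut.none Ext.none :=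
  certFX0 (fam := true) (s1 := false) (s2 := false) (a := 3) (b := 1) (c := 3) (cn := .dn) (n1 := ndF3q3) (n2 := ndF3q1) (pc := pcF3) (cut := Cut.none) (xt := Ext.none) (P1 := 1610612736) (W1 := 536870912) (P2 := 536870912) (W2 := 536870912) (P3 := 1046898278) (W3 := 26843546)
    rfl k0_mm_313

end Pool.Agent.Strip051.G.IE1.Tab.C.FA33

namespace Pool.Agent.Strip051.G.IE1.Tab.C.FA34

open Pool.Agent.Strip051.PB Pool.Agent.Strip051.PB.T
open Pool.Agent.Strip051.G.IE1.Tab

noncomputable def f_pp_001 : ℕ → ℕ → ℕ → ℕ → Bool := onCell 0 536870912 0 67108864 1046898278 26843546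
    (rowFX 0 true true true .up 0 0 1 (qsf 0 536870912 0 67108864 1) ndF3q0 ndF4q0 pcF1 Cut.none Ext.none)

def k0_pp_001 : ∃ t, chk3 f_pp_001 t 1 1 1 = true :=
  ⟨(l 4), by decide +kernel⟩

theorem c_pp_001 : CertFX 0 536870912 0 67108864 1046898278 26843546 true true true .up 0 0 1
    ndF3q0 ndF4q0 pcF1 Cut.none Ext.none :=
  certFX0 (fam := true) (s1 := true) (s2 := true) (a := 0) (b := 0) (c := 1) (cn := .up) (n1 := ndF3q0) (n2 := ndF4q0) (pc := pcF1) (cut := Cut.none) (xt := Ext.none) (P1 := 0) (W1 := 536870912) (P2 := 0) (W2 := 67108864) (P3 := 1046898278) (W3 := 26843546)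
    rfl k0_pp_001

noncomputable def f_pp_101 : ℕ → ℕ → ℕ → ℕ → Bool := onCell 536870912 536870912 0 67108864 1046898278 26843546
    (rowFX 0 true true true .npn 1 0 1 (qsf 536870912 536870912 0 67108864 1) ndF3q1 ndF4q0 pcF1 Cut.none Ext.none)

def k0_pp_101 : ∃ t, chk3 f_pp_101 t 1 1 1 = true :=
  ⟨(l 4), by decide +kernel⟩

theorem c_pp_101 : CertFX 536870912 536870912 0 67108864 1046898278 26843546 true true true .npn 1 0 1
    ndF3q1 ndF4q0 pcF1 Cut.none Ext.none :=
  certFX0 (fam := true) (s1 := true) (s2 := true) (a := 1) (b := 0) (c := 1) (cn := .npn) (n1 := ndF3q1) (n2 := ndF4q0) (pc := pcF1) (cut := Cut.none) (xt := Ext.none) (P1 := 536870912) (W1 := 536870912) (P2 := 0) (W2 := 67108864) (P3 := 1046898278) (W3 := 26843546)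
    rfl k0_pp_101

noncomputable def f_pp_102 : ℕ → ℕ → ℕ → ℕ → Bool := onCell 536870912 536870912 0 67108864 1046898278 26843546
    (rowFX 0 true true true .npp 1 0 2 (qsf 536870912 536870912 0 67108864 2) ndF3q1 ndF4q0 pcF2 Cut.none Ext.none)

def k0_pp_102 : ∃ t, chk3 f_pp_102 t 1 1 1 = true :=
  ⟨(l 4), by decide +kernel⟩

theorem c_pp_102 : CertFX 536870912 536870912 0 67108864 1046898278 26843546 true true true .npp 1 0 2
    ndF3q1 ndF4q0 pcF2 Cut.none Ext.none :=
  certFX0 (fam := true) (s1 := true) (s2 := true) (a := 1) (b := 0) (c := 2) (cn := .npp) (n1 := ndF3q1) (n2 := ndF4q0) (pc := pcF2) (cut := Cut.none) (xt := Ext.none) (P1 := 536870912) (W1 := 536870912) (P2 := 0) (W2 := 67108864) (P3 := 1046898278) (W3 := 26843546)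
    rfl k0_pp_102

noncomputable def f_pp_202 : ℕ → ℕ → ℕ → ℕ → Bool := onCell 1073741824 536870912 0 67108864 1046898278 26843546
    (rowFX 0 true true true .pp 2 0 2 (qsf 1073741824 536870912 0 67108864 2) ndF3q2 ndF4q0 pcF2 Cut.none Ext.none)

def k0_pp_202 : ∃ t, chk3 f_pp_202 t 1 1 1 = true :=
  ⟨(l 5), by decide +kernel⟩

theorem c_pp_202 : CertFX 1073741824 536870912 0 67108864 1046898278 26843546 true true true .pp 2 0 2
    ndF3q2 ndF4q0 pcF2 Cut.none Ext.none :=
  certFX0 (fam := true) (s1 := true) (s2 := true) (a := 2) (b := 0) (c := 2) (cn := .pp) (n1 := ndF3q2) (n2 := ndF4q0) (pc := pcF2) (cut := Cut.none) (xt := Ext.none) (P1 := 1073741824) (W1 := 536870912) (P2 := 0) (W2 := 67108864) (P3 := 1046898278) (W3 := 26843546)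
    rfl k0_pp_202

noncomputable def f_pp_203 : ℕ → ℕ → ℕ → ℕ → Bool := onCell 1073741824 536870912 0 67108864 1046898278 26843546
    (rowFX 0 true true true .up 2 0 3 (qsf 1073741824 536870912 0 67108864 3) ndF3q2 ndF4q0 pcF3 Cut.none Ext.none)

def k0_pp_203 : ∃ t, chk3 f_pp_203 t 1 1 1 = true :=
  ⟨(l 5), by decide +kernel⟩

theorem c_pp_203 : CertFX 1073741824 536870912 0 67108864 1046898278 26843546 true true true .up 2 0 3
    ndF3q2 ndF4q0 pcF3 Cut.none Ext.none :=
  certFX0 (fam := true) (s1 := true) (s2 := true) (a := 2) (b := 0) (c := 3) (cn := .up) (n1 := ndF3q2) (n2 := ndF4q0) (pc := pcF3) (cut := Cut.none) (xt := Ext.none) (P1 := 1073741824) (W1 := 536870912) (P2 := 0) (W2 := 67108864) (P3 := 1046898278) (W3 := 26843546)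
    rfl k0_pp_203

noncomputable def f_pp_303 : ℕ → ℕ → ℕ → ℕ → Bool := onCell 1610612736 536870912 0 67108864 1046898278 26843546
    (rowFX 0 true true true .npn 3 0 3 (qsf 1610612736 536870912 0 67108864 3) ndF3q3 ndF4q0 pcF3 Cut.none Ext.none)

def k0_pp_303 : ∃ t, chk3 f_pp_303 t 1 1 1 = true :=
  ⟨(l 4), by decide +kernel⟩

theorem c_pp_303 : CertFX 1610612736 536870912 0 67108864 1046898278 26843546 true true true .npn 3 0 3
    ndF3q3 ndF4q0 pcF3 Cut.none Ext.none :=
  certFX0 (fam := true) (s1 := true) (s2 := true) (a := 3) (b := 0) (c := 3) (cn := .npn) (n1 := ndF3q3) (n2 := ndF4q0) (pc := pcF3) (cut := Cut.none) (xt := Ext.none) (P1 := 1610612736) (W1 := 536870912) (P2 := 0) (W2 := 67108864) (P3 := 1046898278) (W3 := 26843546)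
    rfl k0_pp_303

noncomputable def f_pm_001 : ℕ → ℕ → ℕ → ℕ → Bool := onCell 0 536870912 0 67108864 1046898278 26843546
    (rowFX 0 true true false .up 0 0 1 (qsf 0 536870912 0 67108864 1) ndF3q0 ndF4q0 pcF1 Cut.none Ext.none)

def k0_pm_001 : ∃ t, chk3 f_pm_001 t 1 1 1 = true :=
  ⟨(l 3), by decide +kernel⟩

theorem c_pm_001 : CertFX 0 536870912 0 67108864 1046898278 26843546 true true false .up 0 0 1
    ndF3q0 ndF4q0 pcF1 Cut.none Ext.none :=
  certFX0 (fam := true) (s1 := true) (s2 := false) (a := 0) (b := 0) (c := 1) (cn := .up) (n1 := ndF3q0) (n2 := ndF4q0) (pc := pcF1) (cut := Cut.none) (xt := Ext.none) (P1 := 0) (W1 := 536870912) (P2 := 0) (W2 := 67108864) (P3 := 1046898278) (W3 := 26843546)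
    rfl k0_pm_001

noncomputable def cut_pm_101 : Cut := Cut.of [[⟨0, 1, 0, 67108864⟩, ⟨1, 0, 0, 67108864⟩, ⟨2, 1, 0, 67108864⟩]]

noncomputable def f_pm_101 : ℕ → ℕ → ℕ → ℕ → Bool := onCell 536870912 536870912 0 67108864 1046898278 26843546
    (rowFX 2 true true false .npn 1 0 1 (qsf 536870912 536870912 0 67108864 1) ndF3q1 ndF4q0 pcF1 cut_pm_101 Ext.none)

def k0_pm_101 : ∃ t, chk3 f_pm_101 t 1 1 1 = true :=
  ⟨(a (l 3) (a (l 3) (a (l 3) (a (l 3) (b (b (l 6) (l 3)) (l 3)))))), by decide +kernel⟩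

theorem c_pm_101 : CertFX 536870912 536870912 0 67108864 1046898278 26843546 true true false .npn 1 0 1
    ndF3q1 ndF4q0 pcF1 cut_pm_101 Ext.none :=
  certFX2 (fam := true) (s1 := true) (s2 := false) (a := 1) (b := 0) (c := 1) (cn := .npn) (n1 := ndF3q1) (n2 := ndF4q0) (pc := pcF1) (cut := cut_pm_101) (xt := Ext.none) (P1 := 536870912) (W1 := 536870912) (P2 := 0) (W2 := 67108864) (P3 := 1046898278) (W3 := 26843546)
    rfl (fun _ => rfl) k0_pm_101

noncomputable def cut_pm_102 : Cut := Cut.of [[⟨0, 1, 0, 67108864⟩, ⟨1, 0, 0, 67108864⟩, ⟨2, 1, 0, 67108864⟩]]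

noncomputable def f_pm_102 : ℕ → ℕ → ℕ → ℕ → Bool := onCell 536870912 536870912 0 67108864 1046898278 26843546
    (rowFX 0 true true false .npp 1 0 2 (qsf 536870912 536870912 0 67108864 2) ndF3q1 ndF4q0 pcF2 cut_pm_102 Ext.none)

def k0_pm_102 : ∃ t, chk3 f_pm_102 t 1 1 1 = true :=
  ⟨(a (l 1) (a (l 1) (a (l 3) (a (l 3) (b (l 6) (b (l 6) (b (l 6) (b (l 6) (a (l 3) (c (a (l 3) (c (l 3) (l 15464176))) (a (c (l 15686944) (l 15718552)) (c (l 15473056) (a (l 15553416) (l 15466024)))))))))))))), by decide +kernel⟩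

theorem c_pm_102 : CertFX 536870912 536870912 0 67108864 1046898278 26843546 true true false .npp 1 0 2
    ndF3q1 ndF4q0 pcF2 cut_pm_102 Ext.none :=
  certFX0 (fam := true) (s1 := true) (s2 := false) (a := 1) (b := 0) (c := 2) (cn := .npp) (n1 := ndF3q1) (n2 := ndF4q0) (pc := pcF2) (cut := cut_pm_102) (xt := Ext.none) (P1 := 536870912) (W1 := 536870912) (P2 := 0) (W2 := 67108864) (P3 := 1046898278) (W3 := 26843546)
    rfl k0_pm_102

noncomputable def cut_pm_202 : Cut := Cut.of [[⟨0, 1, 0, 67108864⟩, ⟨1, 0, 0, 67108864⟩, ⟨2, 1, 0, 67108864⟩, ⟨3, 0, 0, 1233125376⟩]]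

noncomputable def f_pm_202 : ℕ → ℕ → ℕ → ℕ → Bool := onCell 1073741824 536870912 0 67108864 1046898278 26843546
    (rowFX 2 true true false .pp 2 0 2 (qsf 1073741824 536870912 0 67108864 2) ndF3q2 ndF4q0 pcF2 cut_pm_202 Ext.none)

def k0_pm_202 : ∃ t, chk3 f_pm_202 t 8 1 1 = true :=
  ⟨(a (b (l 6) (b (b (l 6) (l 1)) (l 1))) (a (b (b (l 6) (c (c (a (b (l 6) (l 16543232)) (b (l 16530568) (l 16540536))) (b (l 6) (a (l 6) (l 16616984)))) (l 6))) (a (b (c (c (l 16336848) (c (l 16350936) (l 16249664))) (b (l 6) (l 16317480))) (l 1)) (b (c (c (l 16338384) (b (c (l 16560584) (l 16537336)) (l 16389168))) (a (b (l 6) (l 16337088)) (b (l 16496112) (l 16291800)))) (c (c (l 502542883831) (l 15994208)) (l 520259663271))))) (c (c (b (b (b (a (l 6) (c (a (l 6) (l 16367016)) (l 16382416))) (b (a (l 6) (c (l 16469728) (l 16524616))) (l 16494544))) (b (c (l 16565440) (l 16493960)) (a (l 16586384) (l 16622088)))) (b (a (c (l 16399016) (l 16345848)) (a (l 16351128) (l 16373992))) (a (b (l 16229672)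 (l 16015856)) (c (l 15951216) (l 16138792))))) (a (b (b (l 6) (b (l 16560184) (l 16697704))) (b (b (l 16541352) (l 16410256)) (l 16131232))) (b (b (b (c (l 16367776) (b (l 16294216) (l 16374704))) (b (l 16464768) (l 16484880))) (l 16393976)) (b (l 16359192) (l 16085352))))) (a (c (b (b (l 6) (l 16474104)) (b (b (l 16543240) (l 16417320)) (l 16071456))) (b (l 6) (b (l 16326240) (b (l 16212152) (l 16084384))))) (b (b (a (l 6) (b (c (b (c (l 16259440) (b (l 16209536) (l 16264024))) (c (l 16348080) (l 16305400))) (b (c (b (c (l 16192536) (l 16181712)) (l 16226920)) (b (c (l 16165920) (b (l 16121040) (l 16159608))) (l 16193136))) (c (l 16271576) (l 16254840)))) (c (l 16328168) (l 16382576)))) (c (l 16450264) (l 16460432))) (b (b (l 16496368) (l 16359608)) (c (l 16002248) (b (l 16281488) (l 16093944))))))))), by decide +kernel⟩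

def k1_pm_202 : ∃ t, chk3 f_pm_202 t 18 2 1 = true :=
  ⟨(b (c (b (c (a (a (b (l 16339792) (l 16415488)) (l 16351352)) (c (l 16404512) (l 16352696))) (c (a (b (l 16330568) (l 16380880)) (l 16321640)) (b (a (l 16283584) (l 16392608)) (a (l 16353264) (l 16484352))))) (c (a (b (c (l 16542544) (l 16492312)) (l 16520512)) (l 16390488)) (b (a (l 16375296) (l 16502104)) (a (l 16437488) (l 16531408))))) (b (b (b (c (a (c (l 16254704) (a (l 16208232) (l 16246336))) (c (l 16338104) (l 16307288))) (a (c (c (l 16187032) (l 16195544)) (a (c (l 16160552) (c (l 16127656) (l 16099072))) (l 16143640))) (l 16134608))) (a (c (c (l 16278968) (l 16274208)) (c (b (l 16228760) (l 16218872)) (c (l 16202296) (l 16191312)))) (c (l 16371664) (l 16190216)))) (c (a (c (l 16227744) (a (l 16249776) (l 16318440))) (c (l 16437656) (l 16385728))) (a (a (c (l 16255112) (l 16235552)) (l 16201192)) (l 16304616)))) (c (a (a (l 16294864) (l 16263936)) (b (l 16400000) (l 16495968))) (a (a (l 16343776) (l 16328144))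 (l 16383592))))) (c (a (b (c (l 16436824) (l 16445464)) (l 16395672)) (c (b (l 16438232) (l 16441232)) (b (l 16504328) (l 16500976)))) (a (c (l 16423816) (l 16400368)) (c (l 16381528) (a (l 16454408) (l 16516216)))))), by decide +kernel⟩

def k2_pm_202 : ∃ t, chk3 f_pm_202 t 19 2 1 = true :=
  ⟨(b (c (a (b (c (a (b (l 16466448) (l 16499104)) (b (l 16478160) (l 16431936))) (b (a (l 16311424) (l 16474376)) (l 16468296))) (a (b (l 16315160) (l 16281528)) (c (l 16255408) (l 16395912)))) (b (c (b (c (l 16279888) (l 16293496)) (l 16232016)) (l 16249720)) (c (b (l 16177816) (l 16161232)) (c (l 16250968) (l 16277344))))) (b (b (c (a (l 16307776) (l 16435192)) (c (b (l 16219888) (c (l 16286224) (l 16235856))) (a (a (b (l 16273936) (l 16323992)) (l 16237304)) (l 16364216)))) (c (a (b (l 16361000) (l 16404872)) (l 16334400)) (a (c (l 16358040) (l 16369160)) (l 16425176)))) (c (a (l 16375656) (l 16276080)) (a (l 16339584) (l 16338344))))) (c (a (b (c (a (l 16445456) (l 16337664)) (l 16413432))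 (l 16164232)) (c (b (l 16140624) (l 16094416)) (l 16022528))) (c (a (l 16263336) (l 16083760)) (a (l 16325992) (b (l 16265560) (l 16228576)))))), by decide +kernel⟩

def k3_pm_202 : ∃ t, chk3 f_pm_202 t 9 3 1 = true :=
  ⟨(a (c (b (a (c (b (l 16495040) (l 16346408)) (l 16202872)) (c (l 16175776) (l 16127104))) (a (c (b (l 16187176) (l 15952200)) (b (l 16177304) (l 16031800))) (c (l 15829552) (l 15982696)))) (b (b (a (c (l 16466592) (l 16520352)) (l 16350896)) (a (l 16291952) (l 16263832))) (a (a (b (l 16250072) (l 15923896)) (l 15947432)) (c (l 16011040) (l 16059160))))) (c (b (a (c (a (l 16169392) (l 16076056)) (l 15923744)) (c (l 15906176) (l 15931760))) (a (c (a (l 15859128) (l 15778776)) (l 15846472)) (c (b (l 15708848) (l 15569728)) (l 15680632)))) (b (a (a (l 16076936) (l 16079896)) (l 15857024)) (a (a (l 15957912) (l 15899968)) (c (l 15746320) (l 15813984)))))), by decide +kernel⟩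

def k4_pm_202 : ∃ t, chk3 f_pm_202 t 20 1 1 = true :=
  ⟨(b (a (c (b (b (l 15777200) (c (l 15795200) (l 15959240))) (b (c (l 15894376) (l 15964408)) (l 15688392))) (b (b (c (l 15985072) (b (c (l 16235256) (l 16279192)) (l 16222888))) (c (l 16090632) (l 16156136))) (c (l 15958016) (l 15985760)))) (b (c (b (a (l 15890952) (b (l 15958824) (l 15881832))) (a (c (l 15775584) (l 15866520)) (c (l 15807952) (l 15884624)))) (b (a (c (l 16000160) (l 15908016)) (c (b (l 16035112) (l 15977040)) (b (c (l 16081104) (l 16070536)) (l 16044784)))) (a (l 15896224) (l 15934776)))) (c (a (c (l 15748776) (l 15793144)) (c (l 15800544) (l 15832248))) (a (l 15840144) (l 15880552))))) (a (c (b (c (l 15668960) (l 15698560)) (c (l 15422184) (l 15473424))) (b (c (l 15758744) (l 15837112)) (l 15429832))) (c (a (b (c (l 15597600) (l 15620128)) (c (l 15388032) (l 15432032))) (b (l 15624584) (c (l 15518488) (l 15551432)))) (a (b (l 15579152) (l 15460448)) (b (l 15757072) (l 15415352)))))), by decide +kernel⟩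

def k5_pm_202 : ∃ t, chk3 f_pm_202 t 21 1 1 = true :=
  ⟨(b (b (c (a (b (b (l 16172544) (l 15929648)) (a (b (l 15944928) (l 15925528)) (c (l 16045136) (l 16153960)))) (b (a (l 16151520) (l 15960616)) (c (a (l 16345560) (l 16260648)) (l 16101576)))) (b (a (c (b (l 16303936) (l 16099280)) (b (a (l 16249952) (l 16224856)) (l 16223320))) (c (b (l 15994248) (l 15982376)) (b (l 15789592) (a (l 16209816) (l 15960312))))) (a (a (l 15928016) (l 16127280)) (c (l 16144448) (l 16179136))))) (c (a (b (a (l 15927680) (l 15959760)) (l 15940968)) (b (a (l 16151120) (l 16330632)) (a (l 16111048) (l 16307984)))) (a (b (l 15921968) (l 15977216)) (a (l 16010720) (l 16300552))))) (b (a (c (l 15847368) (l 15903384)) (c (b (l 16014576) (l 16033344)) (a (l 16050368) (l 16123400)))) (c (c (a (l 15715488) (l 15957832)) (l 15818200)) (a (l 15743072) (l 16028968))))), by decide +kernel⟩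

def k6_pm_202 : ∃ t, chk3 f_pm_202 t 11 1 1 = true :=
  ⟨(a (a (b (b (b (c (l 15460328) (c (l 15448704) (b (l 15492416) (l 15591816)))) (c (c (l 15728456) (l 15715560)) (l 15574504))) (a (c (c (l 16087088) (l 16137984)) (l 16121216)) (c (l 15743520) (l 15966984)))) (b (c (a (l 16218384) (l 16287248)) (a (l 16269432) (l 16389040))) (c (c (l 16063200) (l 16221488)) (l 16092664)))) (b (b (c (b (l 15014304) (c (l 15373264) (l 15342744))) (b (c (l 15071512) (l 14815320)) (l 15249344))) (c (c (l 15414576) (l 15573976)) (l 15584472))) (b (c (c (l 15835248) (l 15875768)) (l 15863992)) (c (a (l 16212048) (l 16109048)) (l 16098224))))) (b (b (c (a (b (a (c (l 14908040) (l 14874352)) (l 14856344)) (c (a (l 15098600) (l 15017000)) (b (l 14962016) (l 14993176)))) (b (l 14855728) (l 14945888))) (b (c (a (b (l 14778512) (l 14843344)) (l 14788952)) (b (a (l 14732208) (l 14722552)) (l 14775808))) (a (c (l 14935048) (l 14916400)) (l 14839184)))) (c (a (c (b (l 15142280) (l 15294200)) (l 15218424))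 (b (l 14996808) (l 15123720))) (a (l 15208504) (l 15050664)))) (c (c (a (b (l 15613288) (l 15874984)) (l 15559976)) (b (l 15533488) (l 15808072))) (b (l 15498352) (l 15701808))))), by decide +kernel⟩

def k7_pm_202 : ∃ t, chk3 f_pm_202 t 3 1 1 = true :=
  ⟨(a (b (c (a (b (c (a (l 14925520) (l 14925520)) (b (l 14839424) (l 14911872))) (a (l 15024544) (l 15024352))) (b (a (c (l 14925520) (l 14871064)) (l 14893672)) (a (l 15024352) (l 15024352)))) (a (b (b (c (l 14788952) (b (l 14722552) (l 14760472))) (l 14817800)) (l 14994808)) (c (b (b (l 14788952) (l 14857264)) (l 15011816)) (b (a (l 14683408) (l 14788264)) (l 14983248))))) (a (c (a (b (a (l 15280720) (l 15229208)) (a (l 15634088) (l 15494992))) (l 15310928)) (a (b (l 15230696) (l 15512128)) (l 15289456))) (c (l 15331768) (a (l 15289320) (l 15289320))))) (b (b (c (b (l 14855728) (l 14945488)) (a (c (l 14807648) (b (l 14743968) (l 14837368))) (b (l 14764448) (l 14838776)))) (c (l 15024352) (l 14994696))) (c (l 15331768) (l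 15289320)))), by decide +kernel⟩

theorem s8_pm_202 : ∃ t, chk3 f_pm_202 t 10 1 1 = true := ex3_a k4_pm_202 k5_pm_202

theorem s9_pm_202 : ∃ t, chk3 f_pm_202 t 5 1 1 = true := ex3_a s8_pm_202 k6_pm_202

theorem s10_pm_202 : ∃ t, chk3 f_pm_202 t 9 2 1 = true := ex3_a k1_pm_202 k2_pm_202

theorem s11_pm_202 : ∃ t, chk3 f_pm_202 t 9 1 1 = true := ex3_b s10_pm_202 k3_pm_202

theorem s12_pm_202 : ∃ t, chk3 f_pm_202 t 4 1 1 = true := ex3_a k0_pm_202 s11_pm_202

theorem s13_pm_202 : ∃ t, chk3 f_pm_202 t 2 1 1 = true := ex3_a s12_pm_202 s9_pm_202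

theorem s14_pm_202 : ∃ t, chk3 f_pm_202 t 1 1 1 = true := ex3_a s13_pm_202 k7_pm_202

theorem c_pm_202 : CertFX 1073741824 536870912 0 67108864 1046898278 26843546 true true false .pp 2 0 2
    ndF3q2 ndF4q0 pcF2 cut_pm_202 Ext.none :=
  certFX2 (fam := true) (s1 := true) (s2 := false) (a := 2) (b := 0) (c := 2) (cn := .pp) (n1 := ndF3q2) (n2 := ndF4q0) (pc := pcF2) (cut := cut_pm_202) (xt := Ext.none) (P1 := 1073741824) (W1 := 536870912) (P2 := 0) (W2 := 67108864) (P3 := 1046898278) (W3 := 26843546)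
    rfl (fun _ => rfl) s14_pm_202

noncomputable def f_pm_203 : ℕ → ℕ → ℕ → ℕ → Bool := onCell 1073741824 536870912 0 67108864 1046898278 26843546
    (rowFX 0 true true false .up 2 0 3 (qsf 1073741824 536870912 0 67108864 3) ndF3q2 ndF4q0 pcF3 Cut.none Ext.none)

def k0_pm_203 : ∃ t, chk3 f_pm_203 t 1 1 1 = true :=
  ⟨(a (l 1) (a (l 1) (a (b (l 1) (l 15305472)) (b (b (c (l 14893672) (b (l 14764448) (l 14838776))) (l 14989320)) (l 15305472))))), by decide +kernel⟩

theorem c_pm_203 : CertFX 1073741824 536870912 0 67108864 1046898278 26843546 true true false .up 2 0 3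
    ndF3q2 ndF4q0 pcF3 Cut.none Ext.none :=
  certFX0 (fam := true) (s1 := true) (s2 := false) (a := 2) (b := 0) (c := 3) (cn := .up) (n1 := ndF3q2) (n2 := ndF4q0) (pc := pcF3) (cut := Cut.none) (xt := Ext.none) (P1 := 1073741824) (W1 := 536870912) (P2 := 0) (W2 := 67108864) (P3 := 1046898278) (W3 := 26843546)
    rfl k0_pm_203

noncomputable def f_pm_303 : ℕ → ℕ → ℕ → ℕ → Bool := onCell 1610612736 536870912 0 67108864 1046898278 26843546
    (rowFX 2 true true false .npn 3 0 3 (qsf 1610612736 536870912 0 67108864 3) ndF3q3 ndF4q0 pcF3 Cut.none Ext.none)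

def k0_pm_303 : ∃ t, chk3 f_pm_303 t 1 1 1 = true :=
  ⟨(a (a (b (c (b (a (l 14893672) (l 14893672)) (l 15024352)) (a (c (l 14769960) (l 14860192)) (c (l 14686072) (l 14734368)))) (c (l 15331768) (l 15289320))) (a (b (c (b (l 14893672) (l 15024352)) (b (c (l 14828616) (l 14725352)) (l 14994696))) (c (l 15331768) (l 15289320))) (c (b (b (c (l 14925520) (l 14871064)) (l 15024352)) (l 15331768)) (b (a (c (l 14916760) (l 14881168)) (c (l 14895792) (l 14881168))) (l 15289320))))) (a (a (a (c (b (b (l 14893672) (l 15024352)) (l 15331768)) (b (c (l 14832872) (l 14881168)) (l 15289320))) (c (b (b (l 118879082151) (l 4)) (l 4)) (a (b (c (l 14916760) (l 14881160)) (l 15289320)) (l 4)))) (l 4)) (l 4))), by decide +kernel⟩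

theorem c_pm_303 : CertFX 1610612736 536870912 0 67108864 1046898278 26843546 true true false .npn 3 0 3
    ndF3q3 ndF4q0 pcF3 Cut.none Ext.none :=
  certFX2 (fam := true) (s1 := true) (s2 := false) (a := 3) (b := 0) (c := 3) (cn := .npn) (n1 := ndF3q3) (n2 := ndF4q0) (pc := pcF3) (cut := Cut.none) (xt := Ext.none) (P1 := 1610612736) (W1 := 536870912) (P2 := 0) (W2 := 67108864) (P3 := 1046898278) (W3 := 26843546)
    rfl (fun _ => rfl) k0_pm_303

noncomputable def f_mm_001 : ℕ → ℕ → ℕ → ℕ → Bool := onCell 0 536870912 0 67108864 1046898278 26843546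
    (rowFX 0 true false false .up 0 0 1 (qsf 0 536870912 0 67108864 1) ndF3q0 ndF4q0 pcF1 Cut.none Ext.none)

def k0_mm_001 : ∃ t, chk3 f_mm_001 t 1 1 1 = true :=
  ⟨(l 4), by decide +kernel⟩

theorem c_mm_001 : CertFX 0 536870912 0 67108864 1046898278 26843546 true false false .up 0 0 1
    ndF3q0 ndF4q0 pcF1 Cut.none Ext.none :=
  certFX0 (fam := true) (s1 := false) (s2 := false) (a := 0) (b := 0) (c := 1) (cn := .up) (n1 := ndF3q0) (n2 := ndF4q0) (pc := pcF1) (cut := Cut.none) (xt := Ext.none) (P1 := 0) (W1 := 536870912) (P2 := 0) (W2 := 67108864) (P3 := 1046898278) (W3 := 26843546)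
    rfl k0_mm_001

noncomputable def f_mm_101 : ℕ → ℕ → ℕ → ℕ → Bool := onCell 536870912 536870912 0 67108864 1046898278 26843546
    (rowFX 0 true false false .npn 1 0 1 (qsf 536870912 536870912 0 67108864 1) ndF3q1 ndF4q0 pcF1 Cut.none Ext.none)

def k0_mm_101 : ∃ t, chk3 f_mm_101 t 1 1 1 = true :=
  ⟨(l 4), by decide +kernel⟩

theorem c_mm_101 : CertFX 536870912 536870912 0 67108864 1046898278 26843546 true false false .npn 1 0 1
    ndF3q1 ndF4q0 pcF1 Cut.none Ext.none :=
  certFX0 (fam := true) (s1 := false) (s2 := false) (a := 1) (b := 0) (c := 1) (cn := .npn) (n1 := ndF3q1) (n2 := ndF4q0) (pc := pcF1) (cut := Cut.none) (xt := Ext.none) (P1 := 536870912) (W1 := 536870912) (P2 := 0) (W2 := 67108864) (P3 := 1046898278) (W3 := 26843546)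
    rfl k0_mm_101

noncomputable def f_mm_102 : ℕ → ℕ → ℕ → ℕ → Bool := onCell 536870912 536870912 0 67108864 1046898278 26843546
    (rowFX 0 true false false .npp 1 0 2 (qsf 536870912 536870912 0 67108864 2) ndF3q1 ndF4q0 pcF2 Cut.none Ext.none)

def k0_mm_102 : ∃ t, chk3 f_mm_102 t 1 1 1 = true :=
  ⟨(l 4), by decide +kernel⟩

theorem c_mm_102 : CertFX 536870912 536870912 0 67108864 1046898278 26843546 true false false .npp 1 0 2
    ndF3q1 ndF4q0 pcF2 Cut.none Ext.none :=
  certFX0 (fam := true) (s1 := false) (s2 := false) (a := 1) (b := 0) (c := 2) (cn := .npp) (n1 := ndF3q1) (n2 := ndF4q0) (pc := pcF2) (cut := Cut.none) (xt := Ext.none) (P1 := 536870912) (W1 := 536870912) (P2 := 0) (W2 := 67108864) (P3 := 1046898278) (W3 := 26843546)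
    rfl k0_mm_102

noncomputable def cut_mm_202 : Cut := Cut.of [[⟨0, 1, 0, 67108864⟩, ⟨1, 0, 0, 67108864⟩, ⟨2, 1, 0, 67108864⟩]]

noncomputable def f_mm_202 : ℕ → ℕ → ℕ → ℕ → Bool := onCell 1073741824 536870912 0 67108864 1046898278 26843546
    (rowFX 2 true false false .pp 2 0 2 (qsf 1073741824 536870912 0 67108864 2) ndF3q2 ndF4q0 pcF2 cut_mm_202 Ext.none)

def k0_mm_202 : ∃ t, chk3 f_mm_202 t 1 1 1 = true :=
  ⟨(a (a (a (a (b (l 6) (l 4)) (l 4)) (l 4)) (l 4)) (l 4)), by decide +kernel⟩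

theorem c_mm_202 : CertFX 1073741824 536870912 0 67108864 1046898278 26843546 true false false .pp 2 0 2
    ndF3q2 ndF4q0 pcF2 cut_mm_202 Ext.none :=
  certFX2 (fam := true) (s1 := false) (s2 := false) (a := 2) (b := 0) (c := 2) (cn := .pp) (n1 := ndF3q2) (n2 := ndF4q0) (pc := pcF2) (cut := cut_mm_202) (xt := Ext.none) (P1 := 1073741824) (W1 := 536870912) (P2 := 0) (W2 := 67108864) (P3 := 1046898278) (W3 := 26843546)
    rfl (fun _ => rfl) k0_mm_202

noncomputable def f_mm_203 : ℕ → ℕ → ℕ → ℕ → Bool := onCell 1073741824 536870912 1610612736 536870912 1046898278 26843546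
    (rowFX 1 true false false .up 2 0 3 (qsf 1073741824 536870912 0 67108864 3) ndF3q2 ndF4q0 pcF3 Cut.none Ext.none)

def k0_mm_203 : ∃ t, chk3 f_mm_203 t 1 1 1 = true :=
  ⟨(l 4), by decide +kernel⟩

theorem c_mm_203 : CertFX 1073741824 536870912 0 67108864 1046898278 26843546 true false false .up 2 0 3
    ndF3q2 ndF4q0 pcF3 Cut.none Ext.none :=
  certFX1 (fam := true) (s1 := false) (s2 := false) (a := 2) (b := 0) (c := 3) (cn := .up) (n1 := ndF3q2) (n2 := ndF4q0) (pc := pcF3) (cut := Cut.none) (xt := Ext.none) (P1 := 1073741824) (W1 := 536870912) (P2 := 0) (W2 := 67108864) (P3 := 1046898278) (W3 := 26843546)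
    rfl (fun _ => rfl) k0_mm_203

noncomputable def f_mm_303 : ℕ → ℕ → ℕ → ℕ → Bool := onCell 1610612736 536870912 0 67108864 1046898278 26843546
    (rowFX 0 true false false .npn 3 0 3 (qsf 1610612736 536870912 0 67108864 3) ndF3q3 ndF4q0 pcF3 Cut.none Ext.none)

def k0_mm_303 : ∃ t, chk3 f_mm_303 t 1 1 1 = true :=
  ⟨(l 4), by decide +kernel⟩

theorem c_mm_303 : CertFX 1610612736 536870912 0 67108864 1046898278 26843546 true false false .npn 3 0 3
    ndF3q3 ndF4q0 pcF3 Cut.none Ext.none :=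
  certFX0 (fam := true) (s1 := false) (s2 := false) (a := 3) (b := 0) (c := 3) (cn := .npn) (n1 := ndF3q3) (n2 := ndF4q0) (pc := pcF3) (cut := Cut.none) (xt := Ext.none) (P1 := 1610612736) (W1 := 536870912) (P2 := 0) (W2 := 67108864) (P3 := 1046898278) (W3 := 26843546)
    rfl k0_mm_303

end Pool.Agent.Strip051.G.IE1.Tab.C.FA34

namespace Pool.Agent.Strip051.G.IE1.Tab.C.FA35

open Pool.Agent.Strip051.PB Pool.Agent.Strip051.PB.T
open Pool.Agent.Strip051.G.IE1.Tab

noncomputable def f_pp_001 : ℕ → ℕ → ℕ → ℕ → Bool := onCell 0 536870912 0 536870912 1046898278 26843546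
    (rowFX 0 true true true .up 0 0 1 (qsf 0 536870912 0 536870912 1) ndF3q0 ndF5q0 pcF1 Cut.none Ext.none)

def k0_pp_001 : ∃ t, chk3 f_pp_001 t 1 1 1 = true :=
  ⟨(l 4), by decide +kernel⟩

theorem c_pp_001 : CertFX 0 536870912 0 536870912 1046898278 26843546 true true true .up 0 0 1
    ndF3q0 ndF5q0 pcF1 Cut.none Ext.none :=
  certFX0 (fam := true) (s1 := true) (s2 := true) (a := 0) (b := 0) (c := 1) (cn := .up) (n1 := ndF3q0) (n2 := ndF5q0) (pc := pcF1) (cut := Cut.none) (xt := Ext.none) (P1 := 0) (W1 := 536870912) (P2 := 0) (W2 := 536870912) (P3 := 1046898278) (W3 := 26843546)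
    rfl k0_pp_001

noncomputable def f_pp_011 : ℕ → ℕ → ℕ → ℕ → Bool := onCell 0 536870912 536870912 469762048 1046898278 26843546
    (rowFX 0 true true true .pnn 0 1 1 (qsf 0 536870912 536870912 469762048 1) ndF3q0 ndF5q1 pcF1 Cut.none Ext.none)

def k0_pp_011 : ∃ t, chk3 f_pp_011 t 1 1 1 = true :=
  ⟨(l 4), by decide +kernel⟩

theorem c_pp_011 : CertFX 0 536870912 536870912 469762048 1046898278 26843546 true true true .pnn 0 1 1
    ndF3q0 ndF5q1 pcF1 Cut.none Ext.none :=
  certFX0 (fam := true) (s1 := true) (s2 := true) (a := 0) (b := 1) (c := 1) (cn := .pnn) (n1 := ndF3q0) (n2 := ndF5q1) (pc := pcF1) (cut := Cut.none) (xt := Ext.none) (P1 := 0) (W1 := 536870912) (P2 := 536870912) (W2 := 469762048) (P3 := 1046898278) (W3 := 26843546)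
    rfl k0_pp_011

noncomputable def f_pp_012 : ℕ → ℕ → ℕ → ℕ → Bool := onCell 0 536870912 536870912 469762048 1046898278 26843546
    (rowFX 0 true true true .pnp 0 1 2 (qsf 0 536870912 536870912 469762048 2) ndF3q0 ndF5q1 pcF2 Cut.none Ext.none)

def k0_pp_012 : ∃ t, chk3 f_pp_012 t 1 1 1 = true :=
  ⟨(l 4), by decide +kernel⟩

theorem c_pp_012 : CertFX 0 536870912 536870912 469762048 1046898278 26843546 true true true .pnp 0 1 2
    ndF3q0 ndF5q1 pcF2 Cut.none Ext.none :=
  certFX0 (fam := true) (s1 := true) (s2 := true) (a := 0) (b := 1) (c := 2) (cn := .pnp) (n1 := ndF3q0) (n2 := ndF5q1) (pc := pcF2) (cut := Cut.none) (xt := Ext.none) (P1 := 0) (W1 := 536870912) (P2 := 536870912) (W2 := 469762048) (P3 := 1046898278) (W3 := 26843546)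
    rfl k0_pp_012

noncomputable def f_pp_022 : ℕ → ℕ → ℕ → ℕ → Bool := onCell 0 536870912 1073741824 536870912 1046898278 26843546
    (rowFX 0 true true true .pp 0 2 2 (qsf 0 536870912 1073741824 536870912 2) ndF3q0 ndF5q2 pcF2 Cut.none Ext.none)

def k0_pp_022 : ∃ t, chk3 f_pp_022 t 1 1 1 = true :=
  ⟨(l 4), by decide +kernel⟩

theorem c_pp_022 : CertFX 0 536870912 1073741824 536870912 1046898278 26843546 true true true .pp 0 2 2
    ndF3q0 ndF5q2 pcF2 Cut.none Ext.none :=
  certFX0 (fam := true) (s1 := true) (s2 := true) (a := 0) (b := 2) (c := 2) (cn := .pp) (n1 := ndF3q0) (n2 := ndF5q2) (pc := pcF2) (cut := Cut.none) (xt := Ext.none) (P1 := 0) (W1 := 536870912) (P2 := 1073741824) (W2 := 536870912) (P3 := 1046898278) (W3 := 26843546)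
    rfl k0_pp_022

noncomputable def f_pp_023 : ℕ → ℕ → ℕ → ℕ → Bool := onCell 0 536870912 1073741824 536870912 1046898278 26843546
    (rowFX 0 true true true .up 0 2 3 (qsf 0 536870912 1073741824 536870912 3) ndF3q0 ndF5q2 pcF3 Cut.none Ext.none)

def k0_pp_023 : ∃ t, chk3 f_pp_023 t 1 1 1 = true :=
  ⟨(l 4), by decide +kernel⟩

theorem c_pp_023 : CertFX 0 536870912 1073741824 536870912 1046898278 26843546 true true true .up 0 2 3
    ndF3q0 ndF5q2 pcF3 Cut.none Ext.none :=
  certFX0 (fam := true) (s1 := true) (s2 := true) (a := 0) (b := 2) (c := 3) (cn := .up) (n1 := ndF3q0) (n2 := ndF5q2) (pc := pcF3) (cut := Cut.none) (xt := Ext.none) (P1 := 0) (W1 := 536870912) (P2 := 1073741824) (W2 := 536870912) (P3 := 1046898278) (W3 := 26843546)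
    rfl k0_pp_023

noncomputable def f_pp_033 : ℕ → ℕ → ℕ → ℕ → Bool := onCell 0 536870912 0 1230186008 1046898278 26843546
    (rowFX 0 true true true .pnn 0 3 3 (qsf 0 536870912 0 1230186008 3) ndF3q0 ndF5q3 pcF3 Cut.none Ext.none)

def k0_pp_033 : ∃ t, chk3 f_pp_033 t 1 1 1 = true :=
  ⟨(b (l 4) (l 4)), by decide +kernel⟩

theorem c_pp_033 : CertFX 0 536870912 0 1230186008 1046898278 26843546 true true true .pnn 0 3 3
    ndF3q0 ndF5q3 pcF3 Cut.none Ext.none :=
  certFX0 (fam := true) (s1 := true) (s2 := true) (a := 0) (b := 3) (c := 3) (cn := .pnn) (n1 := ndF3q0) (n2 := ndF5q3) (pc := pcF3) (cut := Cut.none) (xt := Ext.none) (P1 := 0) (W1 := 536870912) (P2 := 0) (W2 := 1230186008) (P3 := 1046898278) (W3 := 26843546)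
    rfl k0_pp_033

noncomputable def f_pp_101 : ℕ → ℕ → ℕ → ℕ → Bool := onCell 536870912 536870912 0 536870912 1046898278 26843546
    (rowFX 0 true true true .npn 1 0 1 (qsf 536870912 536870912 0 536870912 1) ndF3q1 ndF5q0 pcF1 Cut.none Ext.none)

def k0_pp_101 : ∃ t, chk3 f_pp_101 t 1 1 1 = true :=
  ⟨(l 4), by decide +kernel⟩

theorem c_pp_101 : CertFX 536870912 536870912 0 536870912 1046898278 26843546 true true true .npn 1 0 1
    ndF3q1 ndF5q0 pcF1 Cut.none Ext.none :=
  certFX0 (fam := true) (s1 := true) (s2 := true) (a := 1) (b := 0) (c := 1) (cn := .npn) (n1 := ndF3q1) (n2 := ndF5q0) (pc := pcF1) (cut := Cut.none) (xt := Ext.none) (P1 := 536870912) (W1 := 536870912) (P2 := 0) (W2 := 536870912) (P3 := 1046898278) (W3 := 26843546)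
    rfl k0_pp_101

noncomputable def f_pp_102 : ℕ → ℕ → ℕ → ℕ → Bool := onCell 536870912 536870912 0 536870912 1046898278 26843546
    (rowFX 0 true true true .npp 1 0 2 (qsf 536870912 536870912 0 536870912 2) ndF3q1 ndF5q0 pcF2 Cut.none Ext.none)

def k0_pp_102 : ∃ t, chk3 f_pp_102 t 1 1 1 = true :=
  ⟨(l 4), by decide +kernel⟩

theorem c_pp_102 : CertFX 536870912 536870912 0 536870912 1046898278 26843546 true true true .npp 1 0 2
    ndF3q1 ndF5q0 pcF2 Cut.none Ext.none :=
  certFX0 (fam := true) (s1 := true) (s2 := true) (a := 1) (b := 0) (c := 2) (cn := .npp) (n1 := ndF3q1) (n2 := ndF5q0) (pc := pcF2) (cut := Cut.none) (xt := Ext.none) (P1 := 536870912) (W1 := 536870912) (P2 := 0) (W2 := 536870912) (P3 := 1046898278) (W3 := 26843546)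
    rfl k0_pp_102

noncomputable def f_pp_112 : ℕ → ℕ → ℕ → ℕ → Bool := onCell 536870912 536870912 536870912 469762048 1046898278 26843546
    (rowFX 0 true true true .dn 1 1 2 (qsf 536870912 536870912 536870912 469762048 2) ndF3q1 ndF5q1 pcF2 Cut.none Ext.none)

def k0_pp_112 : ∃ t, chk3 f_pp_112 t 1 1 1 = true :=
  ⟨(l 4), by decide +kernel⟩

theorem c_pp_112 : CertFX 536870912 536870912 536870912 469762048 1046898278 26843546 true true true .dn 1 1 2
    ndF3q1 ndF5q1 pcF2 Cut.none Ext.none :=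
  certFX0 (fam := true) (s1 := true) (s2 := true) (a := 1) (b := 1) (c := 2) (cn := .dn) (n1 := ndF3q1) (n2 := ndF5q1) (pc := pcF2) (cut := Cut.none) (xt := Ext.none) (P1 := 536870912) (W1 := 536870912) (P2 := 536870912) (W2 := 469762048) (P3 := 1046898278) (W3 := 26843546)
    rfl k0_pp_112

noncomputable def f_pp_113 : ℕ → ℕ → ℕ → ℕ → Bool := onCell 536870912 536870912 536870912 469762048 1046898278 26843546
    (rowFX 0 true true true .nn 1 1 3 (qsf 536870912 536870912 536870912 469762048 3) ndF3q1 ndF5q1 pcF3 Cut.none Ext.none)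

def k0_pp_113 : ∃ t, chk3 f_pp_113 t 1 1 1 = true :=
  ⟨(l 4), by decide +kernel⟩

theorem c_pp_113 : CertFX 536870912 536870912 536870912 469762048 1046898278 26843546 true true true .nn 1 1 3
    ndF3q1 ndF5q1 pcF3 Cut.none Ext.none :=
  certFX0 (fam := true) (s1 := true) (s2 := true) (a := 1) (b := 1) (c := 3) (cn := .nn) (n1 := ndF3q1) (n2 := ndF5q1) (pc := pcF3) (cut := Cut.none) (xt := Ext.none) (P1 := 536870912) (W1 := 536870912) (P2 := 536870912) (W2 := 469762048) (P3 := 1046898278) (W3 := 26843546)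
    rfl k0_pp_113

noncomputable def f_pp_123 : ℕ → ℕ → ℕ → ℕ → Bool := onCell 536870912 536870912 1073741824 536870912 1046898278 26843546
    (rowFX 0 true true true .npn 1 2 3 (qsf 536870912 536870912 1073741824 536870912 3) ndF3q1 ndF5q2 pcF3 Cut.none Ext.none)

def k0_pp_123 : ∃ t, chk3 f_pp_123 t 1 1 1 = true :=
  ⟨(l 4), by decide +kernel⟩

theorem c_pp_123 : CertFX 536870912 536870912 1073741824 536870912 1046898278 26843546 true true true .npn 1 2 3
    ndF3q1 ndF5q2 pcF3 Cut.none Ext.none :=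
  certFX0 (fam := true) (s1 := true) (s2 := true) (a := 1) (b := 2) (c := 3) (cn := .npn) (n1 := ndF3q1) (n2 := ndF5q2) (pc := pcF3) (cut := Cut.none) (xt := Ext.none) (P1 := 536870912) (W1 := 536870912) (P2 := 1073741824) (W2 := 536870912) (P3 := 1046898278) (W3 := 26843546)
    rfl k0_pp_123

noncomputable def f_pp_133 : ℕ → ℕ → ℕ → ℕ → Bool := onCell 536870912 536870912 0 1230186008 1046898278 26843546
    (rowFX 0 true true true .dn 1 3 3 (qsf 536870912 536870912 0 1230186008 3) ndF3q1 ndF5q3 pcF3 Cut.none Ext.none)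

def k0_pp_133 : ∃ t, chk3 f_pp_133 t 1 1 1 = true :=
  ⟨(l 4), by decide +kernel⟩

theorem c_pp_133 : CertFX 536870912 536870912 0 1230186008 1046898278 26843546 true true true .dn 1 3 3
    ndF3q1 ndF5q3 pcF3 Cut.none Ext.none :=
  certFX0 (fam := true) (s1 := true) (s2 := true) (a := 1) (b := 3) (c := 3) (cn := .dn) (n1 := ndF3q1) (n2 := ndF5q3) (pc := pcF3) (cut := Cut.none) (xt := Ext.none) (P1 := 536870912) (W1 := 536870912) (P2 := 0) (W2 := 1230186008) (P3 := 1046898278) (W3 := 26843546)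
    rfl k0_pp_133

noncomputable def f_pp_202 : ℕ → ℕ → ℕ → ℕ → Bool := onCell 1073741824 536870912 0 536870912 1046898278 26843546
    (rowFX 0 true true true .pp 2 0 2 (qsf 1073741824 536870912 0 536870912 2) ndF3q2 ndF5q0 pcF2 Cut.none Ext.none)

def k0_pp_202 : ∃ t, chk3 f_pp_202 t 1 1 1 = true :=
  ⟨(l 5), by decide +kernel⟩

theorem c_pp_202 : CertFX 1073741824 536870912 0 536870912 1046898278 26843546 true true true .pp 2 0 2
    ndF3q2 ndF5q0 pcF2 Cut.none Ext.none :=
  certFX0 (fam := true) (s1 := true) (s2 := true) (a := 2) (b := 0) (c := 2) (cn := .pp) (n1 := ndF3q2) (n2 := ndF5q0) (pc := pcF2) (cut := Cut.none) (xt := Ext.none) (P1 := 1073741824) (W1 := 536870912) (P2 := 0) (W2 := 536870912) (P3 := 1046898278) (W3 := 26843546)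
    rfl k0_pp_202

noncomputable def f_pp_203 : ℕ → ℕ → ℕ → ℕ → Bool := onCell 1073741824 536870912 0 536870912 1046898278 26843546
    (rowFX 0 true true true .up 2 0 3 (qsf 1073741824 536870912 0 536870912 3) ndF3q2 ndF5q0 pcF3 Cut.none Ext.none)

def k0_pp_203 : ∃ t, chk3 f_pp_203 t 1 1 1 = true :=
  ⟨(l 5), by decide +kernel⟩

theorem c_pp_203 : CertFX 1073741824 536870912 0 536870912 1046898278 26843546 true true true .up 2 0 3
    ndF3q2 ndF5q0 pcF3 Cut.none Ext.none :=
  certFX0 (fam := true) (s1 := true) (s2 := true) (a := 2) (b := 0) (c := 3) (cn := .up) (n1 := ndF3q2) (n2 := ndF5q0) (pc := pcF3) (cut := Cut.none) (xt := Ext.none) (P1 := 1073741824) (W1 := 536870912) (P2 := 0) (W2 := 536870912) (P3 := 1046898278) (W3 := 26843546)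
    rfl k0_pp_203

noncomputable def f_pp_213 : ℕ → ℕ → ℕ → ℕ → Bool := onCell 1073741824 536870912 536870912 469762048 1046898278 26843546
    (rowFX 0 true true true .pnn 2 1 3 (qsf 1073741824 536870912 536870912 469762048 3) ndF3q2 ndF5q1 pcF3 Cut.none Ext.none)

def k0_pp_213 : ∃ t, chk3 f_pp_213 t 1 1 1 = true :=
  ⟨(l 4), by decide +kernel⟩

theorem c_pp_213 : CertFX 1073741824 536870912 536870912 469762048 1046898278 26843546 true true true .pnn 2 1 3
    ndF3q2 ndF5q1 pcF3 Cut.none Ext.none :=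
  certFX0 (fam := true) (s1 := true) (s2 := true) (a := 2) (b := 1) (c := 3) (cn := .pnn) (n1 := ndF3q2) (n2 := ndF5q1) (pc := pcF3) (cut := Cut.none) (xt := Ext.none) (P1 := 1073741824) (W1 := 536870912) (P2 := 536870912) (W2 := 469762048) (P3 := 1046898278) (W3 := 26843546)
    rfl k0_pp_213

noncomputable def f_pp_303 : ℕ → ℕ → ℕ → ℕ → Bool := onCell 1610612736 536870912 0 536870912 1046898278 26843546
    (rowFX 0 true true true .npn 3 0 3 (qsf 1610612736 536870912 0 536870912 3) ndF3q3 ndF5q0 pcF3 Cut.none Ext.none)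

def k0_pp_303 : ∃ t, chk3 f_pp_303 t 1 1 1 = true :=
  ⟨(l 4), by decide +kernel⟩

theorem c_pp_303 : CertFX 1610612736 536870912 0 536870912 1046898278 26843546 true true true .npn 3 0 3
    ndF3q3 ndF5q0 pcF3 Cut.none Ext.none :=
  certFX0 (fam := true) (s1 := true) (s2 := true) (a := 3) (b := 0) (c := 3) (cn := .npn) (n1 := ndF3q3) (n2 := ndF5q0) (pc := pcF3) (cut := Cut.none) (xt := Ext.none) (P1 := 1610612736) (W1 := 536870912) (P2 := 0) (W2 := 536870912) (P3 := 1046898278) (W3 := 26843546)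
    rfl k0_pp_303

noncomputable def f_pp_313 : ℕ → ℕ → ℕ → ℕ → Bool := onCell 1610612736 536870912 536870912 469762048 1046898278 26843546
    (rowFX 0 true true true .dn 3 1 3 (qsf 1610612736 536870912 536870912 469762048 3) ndF3q3 ndF5q1 pcF3 Cut.none Ext.none)

def k0_pp_313 : ∃ t, chk3 f_pp_313 t 1 1 1 = true :=
  ⟨(l 4), by decide +kernel⟩

theorem c_pp_313 : CertFX 1610612736 536870912 536870912 469762048 1046898278 26843546 true true true .dn 3 1 3
    ndF3q3 ndF5q1 pcF3 Cut.none Ext.none :=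
  certFX0 (fam := true) (s1 := true) (s2 := true) (a := 3) (b := 1) (c := 3) (cn := .dn) (n1 := ndF3q3) (n2 := ndF5q1) (pc := pcF3) (cut := Cut.none) (xt := Ext.none) (P1 := 1610612736) (W1 := 536870912) (P2 := 536870912) (W2 := 469762048) (P3 := 1046898278) (W3 := 26843546)
    rfl k0_pp_313

noncomputable def f_pm_001 : ℕ → ℕ → ℕ → ℕ → Bool := onCell 0 536870912 0 536870912 1046898278 26843546
    (rowFX 0 true true false .up 0 0 1 (qsf 0 536870912 0 536870912 1) ndF3q0 ndF5q0 pcF1 Cut.none Ext.none)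

def k0_pm_001 : ∃ t, chk3 f_pm_001 t 1 1 1 = true :=
  ⟨(b (l 3) (l 3)), by decide +kernel⟩

theorem c_pm_001 : CertFX 0 536870912 0 536870912 1046898278 26843546 true true false .up 0 0 1
    ndF3q0 ndF5q0 pcF1 Cut.none Ext.none :=
  certFX0 (fam := true) (s1 := true) (s2 := false) (a := 0) (b := 0) (c := 1) (cn := .up) (n1 := ndF3q0) (n2 := ndF5q0) (pc := pcF1) (cut := Cut.none) (xt := Ext.none) (P1 := 0) (W1 := 536870912) (P2 := 0) (W2 := 536870912) (P3 := 1046898278) (W3 := 26843546)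
    rfl k0_pm_001

noncomputable def f_pm_011 : ℕ → ℕ → ℕ → ℕ → Bool := onCell 0 536870912 536870912 536870912 1046898278 26843546
    (rowFX 1 true true false .pnn 0 1 1 (qsf 0 536870912 536870912 469762048 1) ndF3q0 ndF5q1 pcF1 Cut.none Ext.none)

def k0_pm_011 : ∃ t, chk3 f_pm_011 t 1 1 1 = true :=
  ⟨(b (l 3) (b (l 3) (a (a (b (l 3) (a (b (l 3) (a (b (l 3) (l 2)) (l 3))) (l 3))) (l 3)) (l 3)))), by decide +kernel⟩

theorem c_pm_011 : CertFX 0 536870912 536870912 469762048 1046898278 26843546 true true false .pnn 0 1 1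
    ndF3q0 ndF5q1 pcF1 Cut.none Ext.none :=
  certFX1 (fam := true) (s1 := true) (s2 := false) (a := 0) (b := 1) (c := 1) (cn := .pnn) (n1 := ndF3q0) (n2 := ndF5q1) (pc := pcF1) (cut := Cut.none) (xt := Ext.none) (P1 := 0) (W1 := 536870912) (P2 := 536870912) (W2 := 469762048) (P3 := 1046898278) (W3 := 26843546)
    rfl (fun _ => rfl) k0_pm_011

noncomputable def f_pm_012 : ℕ → ℕ → ℕ → ℕ → Bool := onCell 1073741824 536870912 536870912 469762048 1046898278 26843546
    (rowFX 2 true true false .pnp 0 1 2 (qsf 0 536870912 536870912 469762048 2) ndF3q0 ndF5q1 pcF2 Cut.none Ext.none)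

def k0_pm_012 : ∃ t, chk3 f_pm_012 t 2 1 1 = true :=
  ⟨(a (b (l 3) (b (a (l 3) (l 3)) (a (l 3) (a (a (l 3) (b (l 3) (b (l 3) (c (l 850031621223) (l 15477240))))) (b (a (l 3) (c (b (l 16518520) (l 16151408)) (b (l 16511800) (l 16135160)))) (a (a (b (l 3) (a (l 15453408) (l 15424008))) (c (l 15352192) (b (l 15694696) (l 15369136)))) (c (b (l 15678888) (a (l 15347152) (l 15299592))) (b (a (l 15658192) (l 15633440)) (a (l 15315848) (l 15266984)))))))))) (a (b (b (l 2) (a (a (l 3) (a (c (l 16777216) (l 16777216)) (a (c (l 16777216) (l 16777216)) (a (c (l 16776296) (l 16776272)) (a (a (a (l 16776360) (c (l 16775296) (l 16775248))) (l 16775520)) (l 16775552)))))) (l 16776024))) (a (a (a (b (a (l 3) (l 16674296)) (b (b (l 16515152) (l 16143280)) (c (b (l 15650560) (l 15251736)) (b (l 15621640) (a (l 15228864) (l 15205224)))))) (b (c (l 16737720) (l 16736696)) (b (b (l 16515160) (c (l 16151384) (l 16135128))) (b (c (l 15646128) (l 15617080)) (l 15188776))))) (a (b (c (a (l 16737720)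 (l 16737032)) (a (l 16736696) (l 16694040))) (b (a (b (l 16514776) (l 16015472)) (b (a (l 16513656) (l 16510768)) (l 16134824))) (b (l 15622040) (l 15139456)))) (b (a (a (b (l 16777216) (l 16629616)) (c (l 16735392) (l 16629432))) (b (a (c (l 16773184) (l 16773080)) (a (a (a (l 16769376) (l 16765920)) (l 16764072)) (l 16764352))) (l 16684016))) (b (a (l 16317656) (b (l 16496848) (l 16118000))) (a (b (l 15605040) (l 15100648)) (a (b (l 15599864) (l 15090688)) (b (l 15597672) (l 15087464)))))))) (b (l 16731832) (b (l 16294976) (b (l 15608456) (l 15100048)))))) (b (l 16777144) (b (l 16736752) (b (b (l 16513568) (l 16141040)) (b (l 15629328) (l 15126040))))))), by decide +kernel⟩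

def k1_pm_012 : ∃ t, chk3 f_pm_012 t 3 1 1 = true :=
  ⟨(b (l 2) (b (a (l 16737208) (l 2)) (b (a (b (l 16515152) (l 16143272)) (l 16332128)) (a (b (l 15632304) (l 15129880)) (l 15382600))))), by decide +kernel⟩

theorem s2_pm_012 : ∃ t, chk3 f_pm_012 t 1 1 1 = true := ex3_a k0_pm_012 k1_pm_012

theorem c_pm_012 : CertFX 0 536870912 536870912 469762048 1046898278 26843546 true true false .pnp 0 1 2
    ndF3q0 ndF5q1 pcF2 Cut.none Ext.none :=
  certFX2 (fam := true) (s1 := true) (s2 := false) (a := 0) (b := 1) (c := 2) (cn := .pnp) (n1 := ndF3q0) (n2 := ndF5q1) (pc := pcF2) (cut := Cut.none) (xt := Ext.none) (P1 := 0) (W1 := 536870912) (P2 := 536870912) (W2 := 469762048) (P3 := 1046898278) (W3 := 26843546)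
    rfl (fun _ => rfl) s2_pm_012

noncomputable def f_pm_022 : ℕ → ℕ → ℕ → ℕ → Bool := onCell 0 536870912 1073741824 536870912 1046898278 26843546
    (rowFX 1 true true false .pp 0 2 2 (qsf 0 536870912 1073741824 536870912 2) ndF3q0 ndF5q2 pcF2 Cut.none Ext.none)

def k0_pm_022 : ∃ t, chk3 f_pm_022 t 2 8 1 = true :=
  ⟨(a (a (b (l 3) (a (a (l 3) (a (l 3) (b (l 3) (b (l 3) (b (l 3) (c (l 16130568) (l 16148440))))))) (a (b (l 3) (a (b (l 3) (c (b (l 16118104) (l 16142040)) (b (l 16123232) (l 16147976)))) (b (a (b (l 3) (c (l 16101848) (l 16096808))) (b (l 294371543079) (c (l 16104232) (l 16095496)))) (c (b (l 16128904) (c (l 16161456) (l 16170864))) (b (l 16123576) (l 16161448)))))) (b (a (a (l 3) (l 1)) (l 1)) (a (b (c (b (b (l 16089648) (l 16097256)) (l 16116264)) (b (b (l 16076512) (l 16084536)) (l 16104344))) (b (c (c (l 16151608) (l 16153128)) (l 16140656)) (a (c (l 16178400) (l 16168656)) (l 16186168)))) (b (a (b (l 1) (c (l 16133616) (l 16118712))) (l 1)) (c (b (c (l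 16170680) (l 16165904)) (l 16204328)) (b (l 16154136) (l 16190752))))))))) (a (b (l 1) (b (l 1) (b (l 1) (a (c (l 665752145063) (l 16197256)) (l 1))))) (l 1))) (l 1)), by decide +kernel⟩

def k1_pm_022 : ∃ t, chk3 f_pm_022 t 4 36 1 = true :=
  ⟨(a (a (a (b (b (l 3) (a (l 3) (a (l 3) (c (l 16160176) (l 16191496))))) (a (c (b (l 357185723079) (c (l 16240144) (l 16235952))) (b (l 348058873255) (c (l 16240288) (l 16250056)))) (c (b (c (a (l 16172400) (l 16161512)) (l 16186840)) (c (l 16187112) (l 16204568))) (b (l 16209976) (l 16228216))))) (a (b (c (b (l 16147864) (l 59222225367)) (b (l 16174592) (l 16191304))) (c (b (l 16184232) (c (l 16194176) (l 16218120))) (b (l 16212336) (l 16234184)))) (c (b (b (l 16129712) (l 16174112)) (b (c (l 16190992) (l 16209408)) (c (l 16211408) (l 16230208)))) (b (b (l 16169280) (l 16193520)) (b (l 16217120) (l 16217512)))))) (a (a (c (b (b (l 16172608) (c (l 16187056) (l 16202696))) (c (l 16228104) (l 16244456))) (b (b (l 16179504) (l 16202152))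 (b (l 16226184) (l 16263840)))) (c (b (b (c (l 16186072) (l 16195728)) (l 16217504)) (l 16267744)) (b (b (l 16186936) (l 16214856)) (l 16266744)))) (c (b (l 16239424) (l 16311592)) (b (l 16229776) (l 16304240))))) (a (a (b (c (l 16267376) (l 16212000)) (c (l 16326304) (l 16294304))) (b (l 1) (l 16411376))) (l 1))), by decide +kernel⟩

def k2_pm_022 : ∃ t, chk3 f_pm_022 t 4 37 1 = true :=
  ⟨(a (a (c (a (a (b (b (c (l 16255248) (l 16251368)) (c (l 16271288) (l 16267736))) (b (c (a (l 16306616) (l 16273896)) (a (l 16302480) (l 16271136))) (b (c (l 16309504) (l 16306680)) (l 16331432)))) (b (c (b (l 16205248) (a (l 16225072) (l 16219152))) (b (l 16223056) (l 16180800))) (b (c (a (l 16251928) (l 16259560)) (l 16275392)) (l 16273432)))) (b (b (a (c (l 16213680) (l 16238000)) (l 16255184)) (l 16278808)) (c (l 16333984) (l 16358096)))) (a (a (a (b (c (l 16272640) (l 16277704)) (b (c (l 16298840) (l 16304416)) (c (l 16323840) (l 16329864)))) (b (c (l 16252656) (l 16268768)) (b (c (l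 16282096) (l 16298760)) (l 16328296)))) (b (c (b (l 16246712) (l 16267752)) (b (l 16257440) (l 16278864))) (b (c (l 16299976) (l 16311640)) (l 16349176)))) (b (b (c (l 16262576) (l 16263624)) (l 16304696)) (l 16372896)))) (a (c (b (l 16287664) (l 16377080)) (b (l 16338992) (l 16431352))) (b (c (l 16297344) (l 16397728)) (c (a (l 16477616) (l 16506736)) (l 16449488))))) (a (a (b (c (l 16389088) (l 16401664)) (l 16512888)) (b (l 16511448) (l 16615168))) (a (l 506839037799) (l 1)))), by decide +kernel⟩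

def k3_pm_022 : ∃ t, chk3 f_pm_022 t 4 19 1 = true :=
  ⟨(b (a (a (b (c (a (a (c (l 16372088) (l 16370656)) (c (l 16290920) (l 16353576))) (c (l 16323312) (l 16390944))) (a (c (a (l 16356776) (l 16422080)) (a (l 16369304) (l 16435712))) (l 16345200))) (a (c (a (l 16399816) (c (l 16433984) (l 16498352))) (c (l 16394440) (l 16451432))) (c (l 16422360) (l 16561464)))) (a (b (c (a (l 16434152) (l 16411488)) (b (l 16504680) (l 16558552))) (c (a (l 16573656) (l 16603616)) (l 16567072))) (b (a (c (b (l 16545816) (l 16589664)) (l 16569888)) (l 16543976)) (l 16567064)))) (a (b (c (l 16562168) (l 16644520)) (a (l 16587208) (l 16575792))) (a (b (l 16670080) (l 16574288)) (a (b (l 1) (l 16611000)) (l 1))))) (a (a (a (a (c (b (l 16426832) (l 16376552)) (b (l 16410360) (l 16337184))) (b (c (l 16488776) (l 16497080)) (c (l 16446728) (l 16411792)))) (b (c (a (l 16542376) (l 16546616)) (l 16486304)) (c (a (l 16434160) (l 16449888)) (a (l 16399040) (l 16419984))))) (b (a (a (c (l 16543104)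 (l 16523992)) (l 16511680)) (l 16481216)) (a (l 16327384) (l 16337544)))) (a (a (b (l 16445720) (l 16292792)) (l 16256376)) (a (l 16237680) (c (a (l 16300208) (l 16185920)) (c (c (l 16269592) (l 281352427127)) (a (l 16133304) (l 578242195687)))))))), by decide +kernel⟩

def k4_pm_022 : ∃ t, chk3 f_pm_022 t 5 9 1 = true :=
  ⟨(a (b (l 1) (a (a (a (b (l 1) (c (l 644277375943) (c (l 635687286791) (l 16144344)))) (l 1)) (l 1)) (l 1))) (l 1)), by decide +kernel⟩

def k5_pm_022 : ∃ t, chk3 f_pm_022 t 3 4 1 = true :=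
  ⟨(l 1), by decide +kernel⟩

def k6_pm_022 : ∃ t, chk3 f_pm_022 t 8 20 1 = true :=
  ⟨(b (a (b (a (c (a (b (l 16343160) (l 16306736)) (b (l 16346288) (l 16318088))) (a (l 16218144) (b (l 16352432) (l 16302376)))) (c (l 16156512) (l 16290096))) (a (b (a (c (l 16221040) (l 16220992)) (l 16198928)) (c (l 16114104) (l 16145288))) (c (l 16159016) (l 16121032)))) (b (a (l 16239240) (l 16180872)) (a (l 16072832) (l 16012736)))) (b (a (a (a (c (b (a (l 16140448) (l 16096592)) (a (l 16159704) (l 16044504))) (b (l 15996728) (l 15976696))) (c (l 15945712) (l 15985800))) (c (l 15974816) (l 15932488))) (a (l 15889336) (l 15832040))) (a (b (a (a (c (l 16097824) (l 16073992)) (c (a (b (l 15930432) (l 15916320)) (l 15865080)) (l 15771904))) (c (l 15821560) (l 15775552))) (a (b (c (a (l 16126824) (a (l 15916608) (l 15794912))) (a (l 16103488) (l 15810344))) (c (a (b (b (c (b (l 16125368) (l 16072608)) (l 15964784)) (l 16111000)) (l 16131104)) (b (b (b (l 15778440) (a (l 15906024) (c (l 15775592)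 (l 15741456)))) (l 15830920)) (l 15850832))) (c (a (l 16015248) (l 15772448)) (a (l 16041832) (l 15793688))))) (b (c (l 15740248) (l 15692264)) (c (b (a (c (l 15718400) (l 15685568)) (l 15683440)) (l 15672856)) (l 15640296))))) (b (a (l 15742728) (l 15693536)) (b (c (l 15675840) (l 15641240)) (c (a (b (l 15613032) (l 15638544)) (l 15622936)) (l 15603808))))))), by decide +kernel⟩

def k7_pm_022 : ∃ t, chk3 f_pm_022 t 8 21 1 = true :=
  ⟨(a (a (c (b (a (b (l 16104304) (l 16184064)) (c (l 15850080) (l 15891600))) (a (b (l 16029568) (l 15877992)) (a (l 15976408) (l 16123672)))) (b (a (b (l 16106256) (l 16202248)) (l 15881920)) (a (l 15793200) (b (l 16329000) (l 16112736))))) (b (a (b (c (a (l 15682496) (l 15676328)) (l 15683392)) (l 15658904)) (c (b (l 15634312) (a (l 15698128) (l 15611704))) (b (l 15585576) (l 15622000)))) (a (b (l 15894624) (l 16126936)) (c (l 15803464) (l 15934160))))) (a (b (c (l 15590728) (l 15550592)) (a (b (a (l 15603264) (l 15541616)) (l 15788776)) (b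 (l 15508912) (c (l 15578456) (l 15544848))))) (c (l 15542664) (l 15511816)))), by decide +kernel⟩

def k8_pm_022 : ∃ t, chk3 f_pm_022 t 9 10 1 = true :=
  ⟨(a (b (b (a (b (l 16130760) (l 15960992)) (l 15900584)) (b (a (l 15782976) (l 15745152)) (b (c (l 15651480) (l 15625184)) (b (l 15601696) (c (l 15599144) (l 15571576)))))) (a (l 15529552) (l 15541512))) (a (b (b (b (l 16064232) (l 15891216)) (b (l 15718384) (b (l 15602216) (b (l 15587440) (a (l 15573176) (c (b (l 15613504) (l 15598400)) (l 15556152))))))) (c (b (l 15574968) (l 15568760)) (c (b (l 15540808) (l 15540344)) (l 15530232)))) (b (c (a (b (l 15873128) (b (l 15749248) (a (b (l 15634608) (b (l 15627640) (c (l 15555176) (l 15624296)))) (l 15640840)))) (b (l 16012624) (b (l 15764208) (l 15661696)))) (b (c (a (l 15983656) (l 15912016)) (a (l 15862384) (l 15989664))) (b (c (a (l 15729096) (l 15720544)) (l 15605968)) (a (b (c (l 15620448) (l 15604616)) (b (l 15596616) (c (l 15617928) (l 15604896)))) (c (l 15458048) (l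 15637240)))))) (c (c (l 15651864) (a (l 15627984) (l 15653192))) (b (c (a (l 15607400) (l 15632352)) (l 15617408)) (l 15616120)))))), by decide +kernel⟩

def k9_pm_022 : ∃ t, chk3 f_pm_022 t 5 10 1 = true :=
  ⟨(b (a (a (b (a (c (c (l 16045104) (l 16034616)) (c (c (a (l 16018656) (l 16031968)) (l 15781544)) (l 15797920))) (a (c (c (l 16073904) (l 688300119143)) (c (c (l 16062520) (l 16047944)) (l 16039288))) (l 1))) (b (c (c (a (l 15801352) (l 15837664)) (a (l 15780536) (c (l 15832664) (l 15836856)))) (c (a (c (a (l 15764336) (l 15789256)) (l 15790488)) (c (l 15734128) (l 15814864))) (l 15690952))) (c (c (a (l 15712368) (c (l 15777912) (l 15764640))) (a (c (l 15701424) (l 15688264)) (c (l 15700144) (a (l 15743320) (l 15772904))))) (a (c (b (b (l 15700296) (l 15691192)) (l 15693936)) (l 15668576)) (l 15737936))))) (a (b (l 1) (c (c (b (l 1) (c (l 961567014647) (l 935260336247))) (l 15665032)) (l 774199019351))) (l 1))) (l 1)) (a (a (a (c (c (l 15722984) (c (l 15707096) (b (l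 15694272) (l 15713472)))) (c (b (l 15702256) (l 15718112)) (l 15681544))) (c (c (b (l 15781576) (l 15812424)) (b (c (l 15781072) (l 15802952)) (l 15742344))) (l 15767728))) (c (a (c (b (c (l 15878040) (l 15873416)) (l 15915408)) (l 15876664)) (b (l 15967008) (l 16002936))) (b (l 15861440) (l 15929104)))) (a (b (l 1) (c (l 888016302583) (l 15932440))) (l 1)))), by decide +kernel⟩

def k10_pm_022 : ∃ t, chk3 f_pm_022 t 4 11 1 = true :=
  ⟨(a (a (b (a (c (a (b (l 15320504) (c (l 15106544) (l 15108400))) (b (c (l 15647392) (l 15766616)) (c (l 15267880) (l 15358712)))) (a (b (l 15481448) (l 15096904)) (b (l 15785632) (l 15366584)))) (b (a (c (l 15861640) (l 15998088)) (b (l 16136872) (l 16022816))) (c (a (l 15570584) (l 15802792)) (l 15660864)))) (a (b (c (a (b (a (b (c (l 14817296) (l 14791824)) (l 14768112)) (a (l 14834112) (l 14877872))) (l 14754272)) (b (l 15034024) (a (c (l 14836640) (l 14830368)) (l 14932272)))) (a (b (c (l 14804768) (l 14794888)) (l 14742504)) (b (l 15032080)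 (l 14886016)))) (c (a (l 14774168) (l 14837032)) (l 14788816))) (b (c (a (l 15215552) (l 15482040)) (l 15351168)) (c (a (b (l 14992360) (l 14938224)) (b (l 15228360) (l 15093512))) (l 14866440))))) (b (b (a (b (l 15735664) (l 15906728)) (a (b (c (l 15555208) (l 15525248)) (l 15747440)) (b (l 15463160) (l 15509232)))) (a (a (c (l 15951904) (l 16175072)) (l 16176000)) (b (l 15819760) (l 15984824)))) (a (c (b (l 15711576) (l 15540752)) (l 15535136)) (b (a (l 16141960) (l 16272640)) (l 15878160))))) (b (a (b (c (l 15508488) (l 15480048)) (c (a (a (l 15522232) (l 15539568)) (l 15511920)) (a (l 15457920) (l 15486664)))) (a (c (b (l 15568856) (l 15573648)) (l 15543048)) (c (c (l 15667152) (l 15646992)) (l 15638624)))) (b (a (a (l 15766008) (c (b (l 15416664) (l 15604776)) (b (l 15514944) (l 15579056)))) (c (b (l 15597736) (l 15503000)) (l 15522136))) (a (a (a (l 16419768) (l 16231024)) (l 15765176)) (a (c (a (l 15507512) (l 15394032)) (l 15446024)) (l 15394112)))))), by decide +kernel⟩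

def k11_pm_022 : ∃ t, chk3 f_pm_022 t 5 11 1 = true :=
  ⟨(b (a (c (a (b (c (a (l 15748592) (l 15847264)) (l 15796792)) (c (l 15833656) (l 15824512))) (b (c (a (l 15954072) (l 16060720)) (l 15995352)) (l 16052824))) (a (b (l 15775160) (l 15802824)) (l 16006848))) (a (b (c (l 16206384) (l 16210136)) (c (l 16297400) (l 16284504))) (c (b (l 1) (l 16461680)) (l 1052299016423)))) (b (a (c (a (l 15676608) (l 15994040)) (l 15750248)) (a (c (l 16223256) (l 16231152)) (c (l 16429584) (l 16592672)))) (a (c (l 15630904) (l 15646664)) (a (l 16016888) (l 16319528))))), by decide +kernel⟩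

def k12_pm_022 : ∃ t, chk3 f_pm_022 t 3 5 1 = true :=
  ⟨(b (l 1) (a (a (b (l 1) (b (l 1) (l 596496124391))) (l 1)) (l 1))), by decide +kernel⟩

def k13_pm_022 : ∃ t, chk3 f_pm_022 t 2 3 1 = true :=
  ⟨(a (b (a (a (a (b (c (l 14787816) (l 14788272)) (b (l 14759936) (c (l 14808792) (l 14788272)))) (b (c (b (l 14989168) (l 14988840)) (l 14978496)) (c (l 14988840) (l 14978296)))) (b (b (a (b (c (a (l 15180648) (l 15367936)) (l 15267104)) (l 15183872)) (b (l 15716784) (c (l 15482904) (l 15453800)))) (c (l 15294560) (l 15268864))) (c (b (l 15294328) (l 15294328)) (l 15268632)))) (b (a (a (b (c (l 15802912) (l 15997576)) (b (c (l 15670240) (l 15641488)) (l 15574872))) (b (b (l 16021968) (l 16362624)) (b (l 16062968) (l 15838168)))) (b (b (a (l 15729552) (c (l 15199432) (l 15355776))) (a (l 16013152) (l 15644608))) (b (a (l 16487472) (l 16037160)) (l 16224720)))) (b (a (c (l 15680480) (l 15650960)) (b (a (l 16009176) (l 16331112)) (l 16043920))) (a (l 15668312) (l 15995960))))) (a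 (a (a (b (c (l 14808792) (l 14788272)) (c (l 14808792) (l 14788272))) (b (c (l 14988840) (l 14978296)) (l 14970448))) (b (c (l 15294328) (l 15268632)) (l 15280376))) (a (b (l 15668312) (l 15668312)) (l 15890912)))) (b (b (a (b (a (b (l 15356096) (a (c (l 15305608) (l 15270656)) (l 15220816))) (l 15473192)) (a (b (a (l 15564664) (l 15206448)) (l 15727248)) (b (l 15192824) (l 14958928)))) (b (a (l 15658960) (l 15836928)) (a (l 15310792) (l 15608456)))) (a (b (a (b (l 16116568) (l 16486992)) (b (a (l 15415744) (l 15059568)) (l 15587048))) (a (a (l 16220352) (l 16452352)) (l 16029352))) (b (a (b (l 15042088) (l 14983744)) (l 15227024)) (a (a (l 15490632) (l 15095376)) (l 14965064))))) (a (b (a (l 16235224) (b (a (l 16441440) (l 16645568)) (l 16456512))) (l 16346384)) (b (a (b (l 16060832) (l 16634656)) (b (l 15209744) (l 16003136))) (a (l 16666608) (l 16527296)))))), by decide +kernel⟩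

def k14_pm_022 : ∃ t, chk3 f_pm_022 t 3 3 1 = true :=
  ⟨(b (a (b (a (b (l 16485680) (l 16247456)) (l 649645573111)) (a (l 15399608) (b (l 16632480) (l 16247456)))) (b (l 1) (a (l 924523696327) (l 1)))) (a (b (a (b (a (l 14964960) (l 15226904)) (a (l 15251592) (l 14964960))) (l 15609328)) (a (b (a (l 16003056) (l 15251592)) (a (l 16585904) (l 16003056))) (a (a (l 14965440) (l 15054360)) (l 14982472)))) (b (a (l 16477848) (l 970694472871)) (a (l 15609328) (l 16477848))))), by decide +kernel⟩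

theorem s15_pm_022 : ∃ t, chk3 f_pm_022 t 1 3 1 = true := ex3_a k13_pm_022 k14_pm_022

theorem s16_pm_022 : ∃ t, chk3 f_pm_022 t 2 11 1 = true := ex3_a k10_pm_022 k11_pm_022

theorem s17_pm_022 : ∃ t, chk3 f_pm_022 t 8 10 1 = true := ex3_b k6_pm_022 k7_pm_022

theorem s18_pm_022 : ∃ t, chk3 f_pm_022 t 4 10 1 = true := ex3_a s17_pm_022 k8_pm_022

theorem s19_pm_022 : ∃ t, chk3 f_pm_022 t 2 10 1 = true := ex3_a s18_pm_022 k9_pm_022

theorem s20_pm_022 : ∃ t, chk3 f_pm_022 t 2 5 1 = true := ex3_b s19_pm_022 s16_pm_022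

theorem s21_pm_022 : ∃ t, chk3 f_pm_022 t 1 5 1 = true := ex3_a s20_pm_022 k12_pm_022

theorem s22_pm_022 : ∃ t, chk3 f_pm_022 t 4 18 1 = true := ex3_b k1_pm_022 k2_pm_022

theorem s23_pm_022 : ∃ t, chk3 f_pm_022 t 4 9 1 = true := ex3_b s22_pm_022 k3_pm_022

theorem s24_pm_022 : ∃ t, chk3 f_pm_022 t 2 9 1 = true := ex3_a s23_pm_022 k4_pm_022

theorem s25_pm_022 : ∃ t, chk3 f_pm_022 t 2 4 1 = true := ex3_b k0_pm_022 s24_pm_022

theorem s26_pm_022 : ∃ t, chk3 f_pm_022 t 1 4 1 = true := ex3_a s25_pm_022 k5_pm_022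

theorem s27_pm_022 : ∃ t, chk3 f_pm_022 t 1 2 1 = true := ex3_b s26_pm_022 s21_pm_022

theorem s28_pm_022 : ∃ t, chk3 f_pm_022 t 1 1 1 = true := ex3_b s27_pm_022 s15_pm_022

theorem c_pm_022 : CertFX 0 536870912 1073741824 536870912 1046898278 26843546 true true false .pp 0 2 2
    ndF3q0 ndF5q2 pcF2 Cut.none Ext.none :=
  certFX1 (fam := true) (s1 := true) (s2 := false) (a := 0) (b := 2) (c := 2) (cn := .pp) (n1 := ndF3q0) (n2 := ndF5q2) (pc := pcF2) (cut := Cut.none) (xt := Ext.none) (P1 := 0) (W1 := 536870912) (P2 := 1073741824) (W2 := 536870912) (P3 := 1046898278) (W3 := 26843546)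
    rfl (fun _ => rfl) s28_pm_022

noncomputable def f_pm_023 : ℕ → ℕ → ℕ → ℕ → Bool := onCell 1610612736 536870912 1073741824 536870912 1046898278 26843546
    (rowFX 2 true true false .up 0 2 3 (qsf 0 536870912 1073741824 536870912 3) ndF3q0 ndF5q2 pcF3 Cut.none Ext.none)

def k0_pm_023 : ∃ t, chk3 f_pm_023 t 1 1 1 = true :=
  ⟨(a (b (b (a (a (l 15525440) (l 15357664)) (a (b (l 2) (l 15226904)) (l 2))) (a (b (a (l 15251592) (l 15251592)) (b (l 16385096) (l 16776664))) (a (b (l 14999936) (l 16585904)) (b (c (l 15208240) (l 15232040)) (c (l 16588360) (l 16583456)))))) (a (b (a (b (l 16750392) (l 16515480)) (l 16759800)) (a (b (a (l 15888424) (l 16227456)) (a (b (l 15472648) (a (c (l 14997064) (l 14981248)) (l 15174400))) (l 15387776))) (b (l 16515480) (a (l 15909392) (l 16227456))))) (a (b (l 16777216) (b (l 16750392) (l 16410624))) (b (l 16777216) (a (l 16756024) (l 16777184)))))) (a (a (b (b (l 2) (b (l 2) (a (l 16585904) (l 2)))) (c (l 16777216) (a (l 16777216) (l 16777216))))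 (l 4)) (l 4))), by decide +kernel⟩

theorem c_pm_023 : CertFX 0 536870912 1073741824 536870912 1046898278 26843546 true true false .up 0 2 3
    ndF3q0 ndF5q2 pcF3 Cut.none Ext.none :=
  certFX2 (fam := true) (s1 := true) (s2 := false) (a := 0) (b := 2) (c := 3) (cn := .up) (n1 := ndF3q0) (n2 := ndF5q2) (pc := pcF3) (cut := Cut.none) (xt := Ext.none) (P1 := 0) (W1 := 536870912) (P2 := 1073741824) (W2 := 536870912) (P3 := 1046898278) (W3 := 26843546)
    rfl (fun _ => rfl) k0_pm_023

noncomputable def f_pm_033 : ℕ → ℕ → ℕ → ℕ → Bool := onCell 1610612736 536870912 0 1230186008 1046898278 26843546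
    (rowFX 2 true true false .pnn 0 3 3 (qsf 0 536870912 0 1230186008 3) ndF3q0 ndF5q3 pcF3 Cut.none Ext.none)

def k0_pm_033 : ∃ t, chk3 f_pm_033 t 2 1 1 = true :=
  ⟨(b (l 1) (b (b (l 1) (a (l 1) (b (l 1) (a (l 1) (a (l 1) (b (l 1) (a (l 1) (l 1036726683527)))))))) (b (a (l 1) (a (b (a (l 1) (b (l 1) (l 1288519473655))) (a (b (l 1) (a (l 1185439856391) (l 1007735784999))) (b (a (l 1184903018487) (l 976060454871)) (a (l 944922179767) (l 15119240))))) (b (a (b (l 1190809005719) (a (l 1006125060551) (l 913246643831))) (b (c (l 737153005191) (a (l 14592528) (l 14913056))) (a (l 15030240) (l 15224496)))) (a (b (a (l 14975032) (l 15163152)) (l 15414280)) (b (l 15457320) (l 15773952)))))) (a (b (a (l 1) (a (b (l 1) (a (l 1232684983575) (b (l 1135510907031) (l 14785632)))) (b (a (l 1177386776999) (l 1034042391575)) (b (a (l 14824664) (l 14980464)) (l 15094696))))) (a (b (a (l 1) (a (b (l 1) (l 905193311063)) (b (l 1162891335239) (l 14845384)))) (a (b (a (l 1) (l 849895627111)) (a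 (l 862780556695) (c (l 14890960) (l 14873184)))) (b (a (l 14860976) (l 15021088)) (l 15158056)))) (b (a (b (a (l 14813408) (l 14991296)) (l 15117720)) (l 15403728)) (a (l 15444912) (l 15795152))))) (a (b (a (b (a (l 970154992023) (l 15096280)) (l 15385880)) (b (l 15390320) (l 15750448))) (a (l 15638640) (l 16194104))) (b (a (b (l 15754176) (l 16058848)) (l 16130912)) (a (l 16428456) (l 16579352)))))))), by decide +kernel⟩

def k1_pm_033 : ∃ t, chk3 f_pm_033 t 3 1 1 = true :=
  ⟨(a (b (l 1) (a (b (b (l 1) (a (b (a (l 1) (l 1308920063287)) (a (b (l 1217652112647) (c (l 14852552) (l 14828240))) (b (l 919152069351) (l 14764136)))) (b (a (b (l 1) (l 1129605387735)) (c (l 14715624) (b (l 14691272) (l 14860784)))) (a (c (l 15078288) (l 14998744)) (c (l 15268392) (l 15247832)))))) (b (a (b (c (l 15115976) (l 15243440)) (a (l 15875096) (l 16005376))) (b (c (l 15707320) (l 15558608)) (a (l 16148792) (l 16268632)))) (a (b (l 16408080) (l 16726504)) (b (l 16375432) (l 16774872))))) (b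 (a (b (b (l 1) (a (c (l 14697408) (l 877275853607)) (l 4))) (a (b (c (l 14894480) (b (l 14816016) (l 15042944))) (c (l 15468096) (l 15442072))) (l 4))) (l 4)) (b (l 4) (l 4))))) (b (b (a (l 1) (l 4)) (l 4)) (b (l 4) (l 4)))), by decide +kernel⟩

theorem s2_pm_033 : ∃ t, chk3 f_pm_033 t 1 1 1 = true := ex3_a k0_pm_033 k1_pm_033

theorem c_pm_033 : CertFX 0 536870912 0 1230186008 1046898278 26843546 true true false .pnn 0 3 3
    ndF3q0 ndF5q3 pcF3 Cut.none Ext.none :=
  certFX2 (fam := true) (s1 := true) (s2 := false) (a := 0) (b := 3) (c := 3) (cn := .pnn) (n1 := ndF3q0) (n2 := ndF5q3) (pc := pcF3) (cut := Cut.none) (xt := Ext.none) (P1 := 0) (W1 := 536870912) (P2 := 0) (W2 := 1230186008) (P3 := 1046898278) (W3 := 26843546)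
    rfl (fun _ => rfl) s2_pm_033

noncomputable def f_pm_101 : ℕ → ℕ → ℕ → ℕ → Bool := onCell 536870912 536870912 0 536870912 1046898278 26843546
    (rowFX 2 true true false .npn 1 0 1 (qsf 536870912 536870912 0 536870912 1) ndF3q1 ndF5q0 pcF1 Cut.none Ext.none)

def k0_pm_101 : ∃ t, chk3 f_pm_101 t 1 1 1 = true :=
  ⟨(b (l 3) (l 3)), by decide +kernel⟩

theorem c_pm_101 : CertFX 536870912 536870912 0 536870912 1046898278 26843546 true true false .npn 1 0 1
    ndF3q1 ndF5q0 pcF1 Cut.none Ext.none :=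
  certFX2 (fam := true) (s1 := true) (s2 := false) (a := 1) (b := 0) (c := 1) (cn := .npn) (n1 := ndF3q1) (n2 := ndF5q0) (pc := pcF1) (cut := Cut.none) (xt := Ext.none) (P1 := 536870912) (W1 := 536870912) (P2 := 0) (W2 := 536870912) (P3 := 1046898278) (W3 := 26843546)
    rfl (fun _ => rfl) k0_pm_101

noncomputable def f_pm_102 : ℕ → ℕ → ℕ → ℕ → Bool := onCell 536870912 536870912 1073741824 536870912 1046898278 26843546
    (rowFX 1 true true false .npp 1 0 2 (qsf 536870912 536870912 0 536870912 2) ndF3q1 ndF5q0 pcF2 Cut.none Ext.none)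

def k0_pm_102 : ∃ t, chk3 f_pm_102 t 1 4 1 = true :=
  ⟨(a (l 3) (b (l 3) (b (l 3) (a (l 3) (a (l 3) (a (a (l 3) (b (l 3) (b (l 3) (l 14815512)))) (b (l 3) (c (b (l 14333544) (l 14452288)) (c (a (l 14620616) (l 14369200)) (b (l 14526776) (l 14476120))))))))))), by decide +kernel⟩

def k1_pm_102 : ∃ t, chk3 f_pm_102 t 2 20 1 = true :=
  ⟨(b (l 3) (a (l 2) (a (b (l 3) (b (l 3) (a (b (l 3) (l 16777216)) (b (l 16777216) (c (l 16777216) (l 16777216)))))) (b (l 3) (b (b (l 3) (l 16777216)) (b (a (l 16777216) (l 16777216)) (c (l 16777216) (c (l 16777216) (a (l 16777216) (l 16777216)))))))))), by decide +kernel⟩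

def k2_pm_102 : ∃ t, chk3 f_pm_102 t 3 20 1 = true :=
  ⟨(b (b (a (l 3) (a (a (l 3) (l 15253848)) (a (c (l 14892640) (l 14903320)) (c (l 14320792) (a (l 14543560) (l 14302144)))))) (a (a (l 3) (c (l 16519272) (a (l 3) (l 16578832)))) (a (a (l 15910368) (c (l 15345400) (l 15308336))) (a (c (l 14848168) (l 14857608)) (c (a (l 14423016) (l 14254576)) (c (l 14117328) (l 14314992))))))) (a (a (b (b (l 3) (l 16775704)) (b (b (l 16775704) (l 16775704)) (b (b (l 16775704) (l 16775704)) (b (b (b (l 16775704) (b (l 16775400) (l 16774952))) (l 16775032)) (l 16775056))))) (a (b (b (l 16768032) (l 16768032)) (b (c (l 16768152) (l 16767912)) (b (b (l 16768032) (l 16767272)) (b (b (b (l 16766552) (b (l 16765048) (l 16762816))) (l 16761888)) (l 16762080))))) (b (b (l 16581344) (l 16434544)) (b (c (l 16583568) (l 16452712)) (b (b (l 16475744) (c (l 16581296) (l 16555216))) (l 16574624)))))) (a (a (b (b (l 15910368) (l 15805512)) (b (b (l 15909968) (c (l 15919568) (l 15897280))) (b (b (l 15863472)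 (l 15901496)) (l 15897408)))) (b (b (l 15243264) (c (l 15315016) (l 15277072))) (b (b (c (l 15306344) (l 15268144)) (l 15279272)) (b (l 15270760) (l 15264392))))) (a (b (c (b (l 14814216) (l 14767248)) (b (l 14822688) (l 14795928))) (b (l 14748184) (b (l 14723288) (l 14498224)))) (a (b (b (l 14392296) (l 14360504)) (b (l 14324160) (b (l 14299440) (l 14284416)))) (b (l 14199984) (b (l 14143640) (b (l 14119176) (l 13999624))))))))), by decide +kernel⟩

def k3_pm_102 : ∃ t, chk3 f_pm_102 t 1 21 1 = true :=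
  ⟨(a (l 16777216) (a (a (l 16775232) (l 16473016)) (a (a (l 15901112) (l 15269728)) (a (c (l 14672192) (l 14676448)) (c (l 14126128) (l 14115232)))))), by decide +kernel⟩

def k4_pm_102 : ∃ t, chk3 f_pm_102 t 1 11 1 = true :=
  ⟨(a (l 16777160) (a (a (l 16775704) (a (l 16767832) (l 16580784))) (a (a (l 15909560) (l 15282536)) (a (c (l 14644592) (l 14648024)) (c (l 13812336) (a (l 14157248) (b (l 13864624) (l 13810232)))))))), by decide +kernel⟩

def k5_pm_102 : ∃ t, chk3 f_pm_102 t 1 3 1 = true :=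
  ⟨(a (a (l 2) (l 16777216)) (a (a (l 16775704) (b (l 16685864) (l 16685864))) (a (b (a (l 15910368) (l 15284048)) (l 15579720)) (a (b (b (l 14638568) (l 14638568)) (l 14638568)) (b (a (l 14089384) (l 13824216)) (l 13983624)))))), by decide +kernel⟩

theorem s6_pm_102 : ∃ t, chk3 f_pm_102 t 1 20 1 = true := ex3_a k1_pm_102 k2_pm_102

theorem s7_pm_102 : ∃ t, chk3 f_pm_102 t 1 10 1 = true := ex3_b s6_pm_102 k3_pm_102

theorem s8_pm_102 : ∃ t, chk3 f_pm_102 t 1 5 1 = true := ex3_b s7_pm_102 k4_pm_102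

theorem s9_pm_102 : ∃ t, chk3 f_pm_102 t 1 2 1 = true := ex3_b k0_pm_102 s8_pm_102

theorem s10_pm_102 : ∃ t, chk3 f_pm_102 t 1 1 1 = true := ex3_b s9_pm_102 k5_pm_102

theorem c_pm_102 : CertFX 536870912 536870912 0 536870912 1046898278 26843546 true true false .npp 1 0 2
    ndF3q1 ndF5q0 pcF2 Cut.none Ext.none :=
  certFX1 (fam := true) (s1 := true) (s2 := false) (a := 1) (b := 0) (c := 2) (cn := .npp) (n1 := ndF3q1) (n2 := ndF5q0) (pc := pcF2) (cut := Cut.none) (xt := Ext.none) (P1 := 536870912) (W1 := 536870912) (P2 := 0) (W2 := 536870912) (P3 := 1046898278) (W3 := 26843546)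
    rfl (fun _ => rfl) s10_pm_102

noncomputable def f_pm_112 : ℕ → ℕ → ℕ → ℕ → Bool := onCell 1073741824 536870912 536870912 469762048 1046898278 26843546
    (rowFX 2 true true false .dn 1 1 2 (qsf 536870912 536870912 536870912 469762048 2) ndF3q1 ndF5q1 pcF2 Cut.none Ext.none)

def k0_pm_112 : ∃ t, chk3 f_pm_112 t 1 1 1 = true :=
  ⟨(b (a (a (l 3) (a (a (a (l 3) (b (a (l 3) (a (l 3) (a (c (l 16777216) (l 16777216)) (c (l 16777216) (a (b (l 16777216) (l 16777216)) (l 16777216)))))) (b (a (l 3) (a (a (l 16777216) (l 16777216)) (a (l 16777216) (c (l 16777216) (c (l 16777216) (l 16777216)))))) (l 1)))) (l 16776304)) (l 16777144))) (a (b (b (l 16749472) (l 16776464)) (l 16777216)) (b (a (b (a (l 16407136) (l 15885832)) (l 16693160)) (b (b (a (l 14918528) (l 14271544)) (l 15156912)) (l 15736496))) (l 16716448)))) (a (a (l 1) (a (l 1) (b (l 16589952) (l 1)))) (b (l 470332063031) (b (a (l 757557274679) (l 16332128)) (a (l 1) (l 15382600)))))), by decide +kernel⟩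

theorem c_pm_112 : CertFX 536870912 536870912 536870912 469762048 1046898278 26843546 true true false .dn 1 1 2
    ndF3q1 ndF5q1 pcF2 Cut.none Ext.none :=
  certFX2 (fam := true) (s1 := true) (s2 := false) (a := 1) (b := 1) (c := 2) (cn := .dn) (n1 := ndF3q1) (n2 := ndF5q1) (pc := pcF2) (cut := Cut.none) (xt := Ext.none) (P1 := 536870912) (W1 := 536870912) (P2 := 536870912) (W2 := 469762048) (P3 := 1046898278) (W3 := 26843546)
    rfl (fun _ => rfl) k0_pm_112

noncomputable def f_pm_113 : ℕ → ℕ → ℕ → ℕ → Bool := onCell 536870912 536870912 536870912 469762048 1046898278 26843546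
    (rowFX 0 true true false .nn 1 1 3 (qsf 536870912 536870912 536870912 469762048 3) ndF3q1 ndF5q1 pcF3 Cut.none Ext.none)

def k0_pm_113 : ∃ t, chk3 f_pm_113 t 1 1 1 = true :=
  ⟨(a (b (l 1) (b (l 16737208) (b (l 16332128) (l 668434547335)))) (b (a (l 632467907207) (a (l 15600696) (a (l 14638568) (l 13941680)))) (a (b (l 16695872) (b (l 16292648) (l 15343832))) (b (a (l 15584312) (l 14336568)) (a (l 14790200) (b (l 13988264) (l 13257072))))))), by decide +kernel⟩

theorem c_pm_113 : CertFX 536870912 536870912 536870912 469762048 1046898278 26843546 true true false .nn 1 1 3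
    ndF3q1 ndF5q1 pcF3 Cut.none Ext.none :=
  certFX0 (fam := true) (s1 := true) (s2 := false) (a := 1) (b := 1) (c := 3) (cn := .nn) (n1 := ndF3q1) (n2 := ndF5q1) (pc := pcF3) (cut := Cut.none) (xt := Ext.none) (P1 := 536870912) (W1 := 536870912) (P2 := 536870912) (W2 := 469762048) (P3 := 1046898278) (W3 := 26843546)
    rfl k0_pm_113

noncomputable def f_pm_123 : ℕ → ℕ → ℕ → ℕ → Bool := onCell 1610612736 536870912 1073741824 536870912 1046898278 26843546
    (rowFX 2 true true false .npn 1 2 3 (qsf 536870912 536870912 1073741824 536870912 3) ndF3q1 ndF5q2 pcF3 Cut.none Ext.none)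

def k0_pm_123 : ∃ t, chk3 f_pm_123 t 1 1 1 = true :=
  ⟨(a (b (b (a (a (l 15483496) (b (l 16025520) (l 15226904))) (a (b (l 16025520) (l 15226904)) (b (l 16025520) (l 15226904)))) (a (b (a (l 1) (l 15167712)) (l 1)) (a (b (l 14999936) (l 16585904)) (b (b (l 14885272) (l 15602360)) (c (l 16588360) (l 16583456)))))) (a (l 1) (a (l 1) (l 569116721159)))) (a (a (a (b (b (b (l 16025520) (l 15226904)) (b (l 14999936) (l 16585904))) (l 16777216)) (b (l 4) (l 16777216))) (l 4)) (l 4))), by decide +kernel⟩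

theorem c_pm_123 : CertFX 536870912 536870912 1073741824 536870912 1046898278 26843546 true true false .npn 1 2 3
    ndF3q1 ndF5q2 pcF3 Cut.none Ext.none :=
  certFX2 (fam := true) (s1 := true) (s2 := false) (a := 1) (b := 2) (c := 3) (cn := .npn) (n1 := ndF3q1) (n2 := ndF5q2) (pc := pcF3) (cut := Cut.none) (xt := Ext.none) (P1 := 536870912) (W1 := 536870912) (P2 := 1073741824) (W2 := 536870912) (P3 := 1046898278) (W3 := 26843546)
    rfl (fun _ => rfl) k0_pm_123

noncomputable def f_pm_133 : ℕ → ℕ → ℕ → ℕ → Bool := onCell 536870912 536870912 0 1230186008 1046898278 26843546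
    (rowFX 0 true true false .dn 1 3 3 (qsf 536870912 536870912 0 1230186008 3) ndF3q1 ndF5q3 pcF3 Cut.none Ext.none)

def k0_pm_133 : ∃ t, chk3 f_pm_133 t 1 1 1 = true :=
  ⟨(b (l 2) (l 4)), by decide +kernel⟩

theorem c_pm_133 : CertFX 536870912 536870912 0 1230186008 1046898278 26843546 true true false .dn 1 3 3
    ndF3q1 ndF5q3 pcF3 Cut.none Ext.none :=
  certFX0 (fam := true) (s1 := true) (s2 := false) (a := 1) (b := 3) (c := 3) (cn := .dn) (n1 := ndF3q1) (n2 := ndF5q3) (pc := pcF3) (cut := Cut.none) (xt := Ext.none) (P1 := 536870912) (W1 := 536870912) (P2 := 0) (W2 := 1230186008) (P3 := 1046898278) (W3 := 26843546)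
    rfl k0_pm_133

noncomputable def f_pm_202 : ℕ → ℕ → ℕ → ℕ → Bool := onCell 1073741824 536870912 0 536870912 1046898278 26843546
    (rowFX 2 true true false .pp 2 0 2 (qsf 1073741824 536870912 0 536870912 2) ndF3q2 ndF5q0 pcF2 Cut.none Ext.none)

def k0_pm_202 : ∃ t, chk3 f_pm_202 t 16 8 1 = true :=
  ⟨(a (b (a (b (b (c (c (l 16562632) (c (l 16574736) (l 16475808))) (c (b (a (l 16558432) (l 16522792)) (c (l 16578816) (c (l 16611264) (l 16587672)))) (c (b (a (b (l 16551080) (l 16581128)) (l 16501720)) (a (l 16618832) (l 16604936))) (b (a (b (c (l 16558752) (l 16522888)) (l 16542008)) (b (l 16531056) (l 16586344))) (a (l 16633000) (l 16625560)))))) (a (l 1) (b (c (c (l 16690312) (l 16646720)) (c (l 16585144) (l 16679464))) (l 1)))) (l 1)) (c (b (b (c (l 16463120) (b (l 16511904) (l 16447632))) (c (b (l 16622840) (l 16713216)) (c (l 16665800) (b (l 16637928) (l 16665448))))) (b (c (l 462815920967) (l 422013690951)) (l 1))) (b (c (b (b (l 16519480) (c (l 16582440) (l 16565256)))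 (a (l 16546496) (l 16584912))) (b (b (c (l 16488208) (b (l 16599096) (l 16613304))) (c (l 16557160) (l 16643776))) (c (l 16623648) (l 16678992)))) (c (l 365104992135) (l 324302845879))))) (l 1)) (b (c (b (b (c (a (l 16508528) (l 16567920)) (b (l 16572320) (l 16515904))) (c (a (b (l 16649504) (l 16693856)) (l 16519072)) (b (l 16547648) (l 16556528)))) (b (c (a (l 16736168) (l 16733976)) (a (l 16670632) (l 16725952))) (a (c (l 16632592) (l 16565136)) (l 16467944)))) (b (b (c (b (l 16437352) (c (l 16605208) (l 16568888))) (b (c (l 16630496) (l 16529536)) (l 16583528))) (c (a (c (l 16667624) (l 16655584)) (l 16566280)) (a (l 16654056) (l 16694440)))) (c (a (c (l 16482216) (l 16398824)) (b (l 16588032) (l 16475368))) (b (a (l 423624335319) (l 16607464)) (a (l 16530736) (l 16498344)))))) (a (l 1) (a (l 1) (b (c (l 16051992) (l 16119816)) (l 1)))))), by decide +kernel⟩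

def k1_pm_202 : ∃ t, chk3 f_pm_202 t 17 8 1 = true :=
  ⟨(b (c (b (a (b (c (l 16652800) (l 16500992)) (c (l 16548224) (c (l 16658128) (l 16646264)))) (c (b (l 16499000) (a (l 16537280) (l 16341944))) (b (l 16570608) (c (l 16483304) (l 16479360))))) (a (c (b (l 16597320) (l 16468200)) (b (l 16399392) (a (l 16529616) (l 16455760)))) (c (a (b (l 16506840) (l 16441464)) (b (l 16426696) (l 16361728))) (b (l 16382520) (l 16310216))))) (c (b (b (b (l 16545696) (a (l 16664200) (l 16532616))) (a (l 16559808) (l 16430232))) (a (b (l 16487864) (l 16292856)) (l 16110016))) (b (c (b (b (l 16621800) (l 16601448)) (l 16476912)) (b (a (l 16509976) (l 16530192)) (l 16510456))) (a (a (l 16416648) (l 16396216)) (l 16270400))))) (b (a (c (b (l 16323192) (l 16182480)) (b (l 16065720) (l 16106568))) (c (l 15921568) (l 15905184))) (a (a (l 1) (l 538512774903)) (c (l 438117913591) (b (l 15880888) (l 15753544)))))), by decide +kernel⟩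

def k2_pm_202 : ∃ t, chk3 f_pm_202 t 9 8 1 = true :=
  ⟨(b (a (b (c (a (b (c (l 16413592) (l 16351312)) (c (l 16119792) (l 16250808))) (b (l 16117744) (c (l 16076848) (l 16086440)))) (c (b (b (l 16198680) (a (l 16366312) (l 16118712))) (a (l 16311632) (l 16081440))) (b (b (b (l 16069416) (l 16047752)) (l 16049104)) (l 15995072)))) (c (c (a (b (l 16280520) (l 16207624)) (b (l 16063184) (l 16013616))) (a (l 15933064) (b (l 16039688) (l 15940704)))) (a (b (l 16178968) (l 16054672)) (b (l 15974240) (l 15886360))))) (c (b (b (a (c (l 15910704) (l 15887904)) (l 15598216)) (c (a (l 15818520) (l 15534488)) (a (l 15824144) (l 15535784)))) (b (a (c (l 15805024) (l 15781472)) (c (l 15546864) (l 15520432))) (l 15631512))) (b (b (c (a (l 15687496) (l 15569096)) (a (c (l 15738512) (l 15708496)) (b (l 15563024) (l 15539304)))) (c (a (l 15815736) (l 15523600)) (a (l 15782504) (l 15487552)))) (b (a (l 15608736) (l 15407800)) (l 15537248))))) (a (b (c (a (l 16019608) (l 15846192)) (l 15842088))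 (c (a (b (l 15864160) (l 15747680)) (l 15668704)) (a (l 15725216) (l 15585536)))) (c (b (l 15447080) (a (l 15508944) (l 15341888))) (b (l 15477160) (l 15362232))))), by decide +kernel⟩

def k3_pm_202 : ∃ t, chk3 f_pm_202 t 4 9 1 = true :=
  ⟨(a (b (a (l 1) (b (a (l 1) (l 570187421543)) (l 1))) (l 1)) (b (a (b (a (c (l 15530512) (b (l 15554872) (l 15410848))) (c (l 15472560) (l 15396896))) (a (l 15175560) (c (l 15214664) (l 15046264)))) (b (c (l 15276592) (l 15208880)) (a (l 15036664) (l 15030144)))) (a (a (l 1) (l 727489009815)) (b (a (c (l 14910272) (l 352216490183)) (l 14722152)) (a (l 14598328) (l 446168455463)))))), by decide +kernel⟩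

def k4_pm_202 : ∃ t, chk3 f_pm_202 t 4 5 1 = true :=
  ⟨(b (a (l 1) (b (a (l 1) (l 760237544103)) (l 1))) (l 1)), by decide +kernel⟩

def k5_pm_202 : ∃ t, chk3 f_pm_202 t 4 3 1 = true :=
  ⟨(l 1), by decide +kernel⟩

def k6_pm_202 : ∃ t, chk3 f_pm_202 t 10 4 1 = true :=
  ⟨(b (b (a (a (c (b (b (l 15284744) (c (l 15222632) (l 15219192))) (b (c (l 15267616) (l 15237944)) (l 15260392))) (c (b (b (l 15249888) (l 15202824)) (l 15179680)) (b (b (b (l 15241416) (l 15214728)) (l 15163560)) (l 15147576)))) (b (c (a (b (l 15211624) (c (l 15165696) (l 15161104))) (b (l 15363376) (b (l 15300488) (l 15309968)))) (b (a (c (l 15175760) (l 15151736)) (c (l 15330880) (b (l 15327480) (l 15281112)))) (a (c (l 15144000) (l 15104720)) (c (l 15293528) (l 15256776))))) (c (l 15282336) (l 15203104)))) (b (c (a (b (l 15552296) (b (l 15432952) (l 15585912))) (b (l 16121216) (l 16061176))) (a (b (c (l 15590976) (b (l 15744912) (l 15659024))) (a (l 15352744) (l 15709208))) (b (c (l 16152080) (b (l 16180104)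 (l 16256056))) (l 16012512)))) (a (c (l 15590104) (l 15521704)) (c (b (l 16057960) (l 15955064)) (l 15787688))))) (a (a (b (c (l 15216776) (l 15141456)) (l 15119256)) (c (l 15197400) (l 15198096))) (b (a (l 15547528) (l 15716480)) (c (l 15698600) (l 15665088))))) (a (a (b (b (l 14882408) (l 14892904)) (b (l 14752800) (c (l 14635592) (l 14534928)))) (b (b (l 15156528) (l 15069464)) (b (l 14935936) (l 14829640)))) (b (b (c (l 15674704) (l 15647816)) (l 15612080)) (a (l 15060032) (l 15698272))))), by decide +kernel⟩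

def k7_pm_202 : ∃ t, chk3 f_pm_202 t 11 4 1 = true :=
  ⟨(b (a (b (b (c (b (l 15492976) (a (l 16106328) (l 15617600))) (a (b (c (l 16015016) (l 15952768)) (l 16177056)) (b (l 15380072) (l 15586184)))) (c (a (l 16317792) (l 15809152)) (a (l 16436496) (l 15867760)))) (a (b (b (l 16154328) (l 15966312)) (l 15972552)) (b (l 16125880) (b (l 16484840) (l 16310192))))) (b (b (c (b (l 15087128) (l 14988488)) (b (l 14888656) (l 15153048))) (c (l 15254528) (l 15381768))) (b (l 15703512) (l 15979840)))) (a (b (a (l 16055344) (l 16184552)) (l 15901592)) (b (b (a (l 16482472) (l 16306064)) (l 16335480)) (a (l 16416288) (l 16324624))))), by decide +kernel⟩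

def k8_pm_202 : ∃ t, chk3 f_pm_202 t 5 5 1 = true :=
  ⟨(a (b (a (a (b (a (l 608302710359) (b (l 391407169527) (l 14128464))) (l 1)) (b (a (b (l 14542232) (l 14189896)) (b (l 14794904) (l 14454816))) (l 1111887727319))) (c (b (a (l 15097144) (l 15532944)) (a (l 14461160) (l 15034040))) (b (a (l 289939747831) (l 15470664)) (a (b (l 553542879431) (l 14465696)) (b (l 15240560) (l 503077614087)))))) (a (l 1) (b (a (l 1) (l 779565328311)) (l 1)))) (a (b (a (b (l 15797704) (c (l 15669112) (l 15389368))) (b (l 16209488) (c (l 16068544) (l 16021928)))) (b (a (b (l 474623937575) (l 15058712)) (b (l 15586800) (l 432211744071))) (a (l 1) (l 14998336)))) (b (b (l 16316096) (a (l 16170000) (l 16284752))) (b (a (c (l 16025216) (l 15714544)) (l 16053176)) (a (a (l 345238645127) (l 267929429591)) (c (l 15817440) (l 260413417639))))))), by decide +kernel⟩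

def k9_pm_202 : ∃ t, chk3 f_pm_202 t 5 3 1 = true :=
  ⟨(a (l 1) (a (l 1) (b (b (b (l 450464783159) (l 1)) (l 1)) (l 1)))), by decide +kernel⟩

def k10_pm_202 : ∃ t, chk3 f_pm_202 t 3 1 1 = true :=
  ⟨(b (b (a (b (b (c (b (a (l 15107344) (l 15107344)) (a (l 15223312) (l 15223200))) (b (a (l 15058216) (l 15079184)) (l 15241032))) (a (a (b (l 15440168) (l 15712128)) (l 15490976)) (l 15490848))) (a (b (a (l 16187712) (l 15857656)) (a (a (l 16321584) (l 16422768)) (l 16432560))) (b (l 15833944) (l 16016608)))) (b (b (b (c (l 15107344) (l 15079184)) (l 15214624)) (l 15490848)) (l 15715904))) (a (b (a (a (b (l 16218712) (l 16209784)) (b (l 16198184) (l 16082992))) (a (b (l 16590832) (l 16033680)) (b (l 16384768) (l 16482080)))) (a (b (a (l 16123048) (l 16071440)) (a (a (l 15759936) (l 15990384)) (l 16044808))) (a (b (l 15957920) (l 16000536)) (b (l 16026808) (l 15894368))))) (b (a (l 16440536) (l 16410784)) (a (b (l 16325000) (a (l 15970608) (l 16335240))) (l 16741408))))) (a (b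 (a (b (a (b (a (l 15452152) (l 15617472)) (l 15296128)) (b (a (l 15906608) (l 15990264)) (a (l 15619920) (l 15785248)))) (a (l 1) (l 543879848247))) (b (a (b (l 16044696) (a (l 15906608) (l 15990264))) (l 16016272)) (a (b (l 264171280647) (l 15296128)) (b (l 15925288) (l 15668600))))) (a (l 1) (b (a (l 1) (l 15058848)) (l 1)))) (b (a (b (a (l 15948928) (l 15800168)) (a (l 56402807831) (l 16016272))) (b (a (l 16152472) (l 16489600)) (a (l 15948928) (l 15967944)))) (a (b (a (b (l 15689576) (l 15296128)) (b (l 15925288) (l 15689576))) (l 622799388327)) (b (a (l 15911720) (l 16016272)) (a (l 281350814087) (b (l 15925288) (l 15689576)))))))), by decide +kernel⟩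

theorem s11_pm_202 : ∃ t, chk3 f_pm_202 t 5 4 1 = true := ex3_a k6_pm_202 k7_pm_202

theorem s12_pm_202 : ∃ t, chk3 f_pm_202 t 5 2 1 = true := ex3_b s11_pm_202 k8_pm_202

theorem s13_pm_202 : ∃ t, chk3 f_pm_202 t 5 1 1 = true := ex3_b s12_pm_202 k9_pm_202

theorem s14_pm_202 : ∃ t, chk3 f_pm_202 t 8 8 1 = true := ex3_a k0_pm_202 k1_pm_202

theorem s15_pm_202 : ∃ t, chk3 f_pm_202 t 4 8 1 = true := ex3_a s14_pm_202 k2_pm_202

theorem s16_pm_202 : ∃ t, chk3 f_pm_202 t 4 4 1 = true := ex3_b s15_pm_202 k3_pm_202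

theorem s17_pm_202 : ∃ t, chk3 f_pm_202 t 4 2 1 = true := ex3_b s16_pm_202 k4_pm_202

theorem s18_pm_202 : ∃ t, chk3 f_pm_202 t 4 1 1 = true := ex3_b s17_pm_202 k5_pm_202

theorem s19_pm_202 : ∃ t, chk3 f_pm_202 t 2 1 1 = true := ex3_a s18_pm_202 s13_pm_202

theorem s20_pm_202 : ∃ t, chk3 f_pm_202 t 1 1 1 = true := ex3_a s19_pm_202 k10_pm_202

theorem c_pm_202 : CertFX 1073741824 536870912 0 536870912 1046898278 26843546 true true false .pp 2 0 2
    ndF3q2 ndF5q0 pcF2 Cut.none Ext.none :=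
  certFX2 (fam := true) (s1 := true) (s2 := false) (a := 2) (b := 0) (c := 2) (cn := .pp) (n1 := ndF3q2) (n2 := ndF5q0) (pc := pcF2) (cut := Cut.none) (xt := Ext.none) (P1 := 1073741824) (W1 := 536870912) (P2 := 0) (W2 := 536870912) (P3 := 1046898278) (W3 := 26843546)
    rfl (fun _ => rfl) s20_pm_202

noncomputable def f_pm_203 : ℕ → ℕ → ℕ → ℕ → Bool := onCell 1073741824 536870912 1610612736 536870912 1046898278 26843546
    (rowFX 1 true true false .up 2 0 3 (qsf 1073741824 536870912 0 536870912 3) ndF3q2 ndF5q0 pcF3 Cut.none Ext.none)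

def k0_pm_203 : ∃ t, chk3 f_pm_203 t 1 1 1 = true :=
  ⟨(b (a (b (a (b (a (l 15820432) (l 16000440)) (a (l 188540146247) (l 16000440))) (a (b (l 15970528) (l 15970528)) (b (l 16667800) (l 16667800)))) (b (b (a (a (l 2) (l 16000440)) (a (l 15970528) (l 16667800))) (a (l 2) (a (l 15970528) (l 16667800)))) (l 4))) (b (a (b (a (l 16754648) (l 16555552)) (l 16762616)) (b (a (b (l 16064800) (l 16310512)) (b (a (l 15658672) (b (a (l 15276208) (l 15048968)) (l 15421112))) (l 15714040))) (a (l 16555552) (b (l 16064800) (l 16310512))))) (b (a (l 16777216) (b (l 16587800) (l 16706872))) (b (a (l 16777216) (l 16759424)) (l 4))))) (l 4)), by decide +kernel⟩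

theorem c_pm_203 : CertFX 1073741824 536870912 0 536870912 1046898278 26843546 true true false .up 2 0 3
    ndF3q2 ndF5q0 pcF3 Cut.none Ext.none :=
  certFX1 (fam := true) (s1 := true) (s2 := false) (a := 2) (b := 0) (c := 3) (cn := .up) (n1 := ndF3q2) (n2 := ndF5q0) (pc := pcF3) (cut := Cut.none) (xt := Ext.none) (P1 := 1073741824) (W1 := 536870912) (P2 := 0) (W2 := 536870912) (P3 := 1046898278) (W3 := 26843546)
    rfl (fun _ => rfl) k0_pm_203

noncomputable def f_pm_213 : ℕ → ℕ → ℕ → ℕ → Bool := onCell 1073741824 536870912 1610612736 536870912 1046898278 26843546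
    (rowFX 1 true true false .pnn 2 1 3 (qsf 1073741824 536870912 536870912 469762048 3) ndF3q2 ndF5q1 pcF3 Cut.none Ext.none)

def k0_pm_213 : ∃ t, chk3 f_pm_213 t 1 1 1 = true :=
  ⟨(b (a (b (a (b (a (l 15820432) (l 16000440)) (a (l 15715576) (l 16000440))) (a (b (l 1) (l 15907616)) (l 1))) (b (a (c (a (l 15947328) (l 16010400)) (a (l 15914688) (l 15990480))) (a (b (l 15970528) (l 15970528)) (l 590054158567))) (l 4))) (b (l 1) (b (l 1) (b (l 1) (l 4))))) (l 4)), by decide +kernel⟩

theorem c_pm_213 : CertFX 1073741824 536870912 536870912 469762048 1046898278 26843546 true true false .pnn 2 1 3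
    ndF3q2 ndF5q1 pcF3 Cut.none Ext.none :=
  certFX1 (fam := true) (s1 := true) (s2 := false) (a := 2) (b := 1) (c := 3) (cn := .pnn) (n1 := ndF3q2) (n2 := ndF5q1) (pc := pcF3) (cut := Cut.none) (xt := Ext.none) (P1 := 1073741824) (W1 := 536870912) (P2 := 536870912) (W2 := 469762048) (P3 := 1046898278) (W3 := 26843546)
    rfl (fun _ => rfl) k0_pm_213

noncomputable def f_pm_303 : ℕ → ℕ → ℕ → ℕ → Bool := onCell 1610612736 536870912 0 536870912 1046898278 26843546
    (rowFX 2 true true false .npn 3 0 3 (qsf 1610612736 536870912 0 536870912 3) ndF3q3 ndF5q0 pcF3 Cut.none Ext.none)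

def k0_pm_303 : ∃ t, chk3 f_pm_303 t 1 1 1 = true :=
  ⟨(a (b (b (b (a (b (a (b (l 15089808) (l 15214624)) (c (l 15175120) (l 15134800))) (a (l 15490848) (l 15490848))) (a (b (c (l 15091232) (b (l 15079184) (l 15240976))) (l 15490848)) (c (b (b (l 15107344) (l 15223200)) (l 15496128)) (b (c (l 15162528) (l 15154424)) (l 15493760))))) (a (a (l 15967568) (l 15967568)) (a (l 15841736) (a (l 15967568) (l 15757848))))) (a (a (l 1) (l 16555552)) (a (b (l 16410784) (l 16730856)) (a (l 16555552) (b (l 16410784) (l 4)))))) (a (l 1) (a (l 1) (a (l 1) (l 4))))) (a (b (b (l 4) (l 4)) (l 4)) (l 4))), by decide +kernel⟩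

theorem c_pm_303 : CertFX 1610612736 536870912 0 536870912 1046898278 26843546 true true false .npn 3 0 3
    ndF3q3 ndF5q0 pcF3 Cut.none Ext.none :=
  certFX2 (fam := true) (s1 := true) (s2 := false) (a := 3) (b := 0) (c := 3) (cn := .npn) (n1 := ndF3q3) (n2 := ndF5q0) (pc := pcF3) (cut := Cut.none) (xt := Ext.none) (P1 := 1610612736) (W1 := 536870912) (P2 := 0) (W2 := 536870912) (P3 := 1046898278) (W3 := 26843546)
    rfl (fun _ => rfl) k0_pm_303

noncomputable def f_pm_313 : ℕ → ℕ → ℕ → ℕ → Bool := onCell 1610612736 536870912 536870912 469762048 1046898278 26843546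
    (rowFX 0 true true false .dn 3 1 3 (qsf 1610612736 536870912 536870912 469762048 3) ndF3q3 ndF5q1 pcF3 Cut.none Ext.none)

def k0_pm_313 : ∃ t, chk3 f_pm_313 t 1 1 1 = true :=
  ⟨(l 4), by decide +kernel⟩

theorem c_pm_313 : CertFX 1610612736 536870912 536870912 469762048 1046898278 26843546 true true false .dn 3 1 3
    ndF3q3 ndF5q1 pcF3 Cut.none Ext.none :=
  certFX0 (fam := true) (s1 := true) (s2 := false) (a := 3) (b := 1) (c := 3) (cn := .dn) (n1 := ndF3q3) (n2 := ndF5q1) (pc := pcF3) (cut := Cut.none) (xt := Ext.none) (P1 := 1610612736) (W1 := 536870912) (P2 := 536870912) (W2 := 469762048) (P3 := 1046898278) (W3 := 26843546)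
    rfl k0_pm_313

noncomputable def f_mm_001 : ℕ → ℕ → ℕ → ℕ → Bool := onCell 0 536870912 0 536870912 1046898278 26843546
    (rowFX 0 true false false .up 0 0 1 (qsf 0 536870912 0 536870912 1) ndF3q0 ndF5q0 pcF1 Cut.none Ext.none)

def k0_mm_001 : ∃ t, chk3 f_mm_001 t 1 1 1 = true :=
  ⟨(l 4), by decide +kernel⟩

theorem c_mm_001 : CertFX 0 536870912 0 536870912 1046898278 26843546 true false false .up 0 0 1
    ndF3q0 ndF5q0 pcF1 Cut.none Ext.none :=
  certFX0 (fam := true) (s1 := false) (s2 := false) (a := 0) (b := 0) (c := 1) (cn := .up) (n1 := ndF3q0) (n2 := ndF5q0) (pc := pcF1) (cut := Cut.none) (xt := Ext.none) (P1 := 0) (W1 := 536870912) (P2 := 0) (W2 := 536870912) (P3 := 1046898278) (W3 := 26843546)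
    rfl k0_mm_001

noncomputable def f_mm_011 : ℕ → ℕ → ℕ → ℕ → Bool := onCell 0 536870912 536870912 469762048 1046898278 26843546
    (rowFX 0 true false false .pnn 0 1 1 (qsf 0 536870912 536870912 469762048 1) ndF3q0 ndF5q1 pcF1 Cut.none Ext.none)

def k0_mm_011 : ∃ t, chk3 f_mm_011 t 1 1 1 = true :=
  ⟨(l 4), by decide +kernel⟩

theorem c_mm_011 : CertFX 0 536870912 536870912 469762048 1046898278 26843546 true false false .pnn 0 1 1
    ndF3q0 ndF5q1 pcF1 Cut.none Ext.none :=
  certFX0 (fam := true) (s1 := false) (s2 := false) (a := 0) (b := 1) (c := 1) (cn := .pnn) (n1 := ndF3q0) (n2 := ndF5q1) (pc := pcF1) (cut := Cut.none) (xt := Ext.none) (P1 := 0) (W1 := 536870912) (P2 := 536870912) (W2 := 469762048) (P3 := 1046898278) (W3 := 26843546)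
    rfl k0_mm_011

noncomputable def f_mm_012 : ℕ → ℕ → ℕ → ℕ → Bool := onCell 0 536870912 536870912 469762048 1046898278 26843546
    (rowFX 0 true false false .pnp 0 1 2 (qsf 0 536870912 536870912 469762048 2) ndF3q0 ndF5q1 pcF2 Cut.none Ext.none)

def k0_mm_012 : ∃ t, chk3 f_mm_012 t 1 1 1 = true :=
  ⟨(l 4), by decide +kernel⟩

theorem c_mm_012 : CertFX 0 536870912 536870912 469762048 1046898278 26843546 true false false .pnp 0 1 2
    ndF3q0 ndF5q1 pcF2 Cut.none Ext.none :=
  certFX0 (fam := true) (s1 := false) (s2 := false) (a := 0) (b := 1) (c := 2) (cn := .pnp) (n1 := ndF3q0) (n2 := ndF5q1) (pc := pcF2) (cut := Cut.none) (xt := Ext.none) (P1 := 0) (W1 := 536870912) (P2 := 536870912) (W2 := 469762048) (P3 := 1046898278) (W3 := 26843546)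
    rfl k0_mm_012

noncomputable def f_mm_022 : ℕ → ℕ → ℕ → ℕ → Bool := onCell 0 536870912 1073741824 536870912 1046898278 26843546
    (rowFX 0 true false false .pp 0 2 2 (qsf 0 536870912 1073741824 536870912 2) ndF3q0 ndF5q2 pcF2 Cut.none Ext.none)

def k0_mm_022 : ∃ t, chk3 f_mm_022 t 1 1 1 = true :=
  ⟨(l 4), by decide +kernel⟩

theorem c_mm_022 : CertFX 0 536870912 1073741824 536870912 1046898278 26843546 true false false .pp 0 2 2
    ndF3q0 ndF5q2 pcF2 Cut.none Ext.none :=
  certFX0 (fam := true) (s1 := false) (s2 := false) (a := 0) (b := 2) (c := 2) (cn := .pp) (n1 := ndF3q0) (n2 := ndF5q2) (pc := pcF2) (cut := Cut.none) (xt := Ext.none) (P1 := 0) (W1 := 536870912) (P2 := 1073741824) (W2 := 536870912) (P3 := 1046898278) (W3 := 26843546)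
    rfl k0_mm_022

noncomputable def f_mm_023 : ℕ → ℕ → ℕ → ℕ → Bool := onCell 0 536870912 1073741824 536870912 1046898278 26843546
    (rowFX 0 true false false .up 0 2 3 (qsf 0 536870912 1073741824 536870912 3) ndF3q0 ndF5q2 pcF3 Cut.none Ext.none)

def k0_mm_023 : ∃ t, chk3 f_mm_023 t 1 1 1 = true :=
  ⟨(l 4), by decide +kernel⟩

theorem c_mm_023 : CertFX 0 536870912 1073741824 536870912 1046898278 26843546 true false false .up 0 2 3
    ndF3q0 ndF5q2 pcF3 Cut.none Ext.none :=
  certFX0 (fam := true) (s1 := false) (s2 := false) (a := 0) (b := 2) (c := 3) (cn := .up) (n1 := ndF3q0) (n2 := ndF5q2) (pc := pcF3) (cut := Cut.none) (xt := Ext.none) (P1 := 0) (W1 := 536870912) (P2 := 1073741824) (W2 := 536870912) (P3 := 1046898278) (W3 := 26843546)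
    rfl k0_mm_023

noncomputable def f_mm_033 : ℕ → ℕ → ℕ → ℕ → Bool := onCell 0 536870912 0 1230186008 1046898278 26843546
    (rowFX 0 true false false .pnn 0 3 3 (qsf 0 536870912 0 1230186008 3) ndF3q0 ndF5q3 pcF3 Cut.none Ext.none)

def k0_mm_033 : ∃ t, chk3 f_mm_033 t 1 1 1 = true :=
  ⟨(l 5), by decide +kernel⟩

theorem c_mm_033 : CertFX 0 536870912 0 1230186008 1046898278 26843546 true false false .pnn 0 3 3
    ndF3q0 ndF5q3 pcF3 Cut.none Ext.none :=
  certFX0 (fam := true) (s1 := false) (s2 := false) (a := 0) (b := 3) (c := 3) (cn := .pnn) (n1 := ndF3q0) (n2 := ndF5q3) (pc := pcF3) (cut := Cut.none) (xt := Ext.none) (P1 := 0) (W1 := 536870912) (P2 := 0) (W2 := 1230186008) (P3 := 1046898278) (W3 := 26843546)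
    rfl k0_mm_033

noncomputable def f_mm_101 : ℕ → ℕ → ℕ → ℕ → Bool := onCell 536870912 536870912 0 536870912 1046898278 26843546
    (rowFX 0 true false false .npn 1 0 1 (qsf 536870912 536870912 0 536870912 1) ndF3q1 ndF5q0 pcF1 Cut.none Ext.none)

def k0_mm_101 : ∃ t, chk3 f_mm_101 t 1 1 1 = true :=
  ⟨(l 4), by decide +kernel⟩

theorem c_mm_101 : CertFX 536870912 536870912 0 536870912 1046898278 26843546 true false false .npn 1 0 1
    ndF3q1 ndF5q0 pcF1 Cut.none Ext.none :=
  certFX0 (fam := true) (s1 := false) (s2 := false) (a := 1) (b := 0) (c := 1) (cn := .npn) (n1 := ndF3q1) (n2 := ndF5q0) (pc := pcF1) (cut := Cut.none) (xt := Ext.none) (P1 := 536870912) (W1 := 536870912) (P2 := 0) (W2 := 536870912) (P3 := 1046898278) (W3 := 26843546)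
    rfl k0_mm_101

noncomputable def f_mm_102 : ℕ → ℕ → ℕ → ℕ → Bool := onCell 536870912 536870912 0 536870912 1046898278 26843546
    (rowFX 0 true false false .npp 1 0 2 (qsf 536870912 536870912 0 536870912 2) ndF3q1 ndF5q0 pcF2 Cut.none Ext.none)

def k0_mm_102 : ∃ t, chk3 f_mm_102 t 1 1 1 = true :=
  ⟨(l 4), by decide +kernel⟩

theorem c_mm_102 : CertFX 536870912 536870912 0 536870912 1046898278 26843546 true false false .npp 1 0 2
    ndF3q1 ndF5q0 pcF2 Cut.none Ext.none :=
  certFX0 (fam := true) (s1 := false) (s2 := false) (a := 1) (b := 0) (c := 2) (cn := .npp) (n1 := ndF3q1) (n2 := ndF5q0) (pc := pcF2) (cut := Cut.none) (xt := Ext.none) (P1 := 536870912) (W1 := 536870912) (P2 := 0) (W2 := 536870912) (P3 := 1046898278) (W3 := 26843546)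
    rfl k0_mm_102

noncomputable def f_mm_112 : ℕ → ℕ → ℕ → ℕ → Bool := onCell 536870912 536870912 536870912 469762048 1046898278 26843546
    (rowFX 0 true false false .dn 1 1 2 (qsf 536870912 536870912 536870912 469762048 2) ndF3q1 ndF5q1 pcF2 Cut.none Ext.none)

def k0_mm_112 : ∃ t, chk3 f_mm_112 t 1 1 1 = true :=
  ⟨(l 4), by decide +kernel⟩

theorem c_mm_112 : CertFX 536870912 536870912 536870912 469762048 1046898278 26843546 true false false .dn 1 1 2
    ndF3q1 ndF5q1 pcF2 Cut.none Ext.none :=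
  certFX0 (fam := true) (s1 := false) (s2 := false) (a := 1) (b := 1) (c := 2) (cn := .dn) (n1 := ndF3q1) (n2 := ndF5q1) (pc := pcF2) (cut := Cut.none) (xt := Ext.none) (P1 := 536870912) (W1 := 536870912) (P2 := 536870912) (W2 := 469762048) (P3 := 1046898278) (W3 := 26843546)
    rfl k0_mm_112

noncomputable def f_mm_113 : ℕ → ℕ → ℕ → ℕ → Bool := onCell 536870912 536870912 536870912 469762048 1046898278 26843546
    (rowFX 0 true false false .nn 1 1 3 (qsf 536870912 536870912 536870912 469762048 3) ndF3q1 ndF5q1 pcF3 Cut.none Ext.none)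

def k0_mm_113 : ∃ t, chk3 f_mm_113 t 1 1 1 = true :=
  ⟨(l 4), by decide +kernel⟩

theorem c_mm_113 : CertFX 536870912 536870912 536870912 469762048 1046898278 26843546 true false false .nn 1 1 3
    ndF3q1 ndF5q1 pcF3 Cut.none Ext.none :=
  certFX0 (fam := true) (s1 := false) (s2 := false) (a := 1) (b := 1) (c := 3) (cn := .nn) (n1 := ndF3q1) (n2 := ndF5q1) (pc := pcF3) (cut := Cut.none) (xt := Ext.none) (P1 := 536870912) (W1 := 536870912) (P2 := 536870912) (W2 := 469762048) (P3 := 1046898278) (W3 := 26843546)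
    rfl k0_mm_113

noncomputable def f_mm_123 : ℕ → ℕ → ℕ → ℕ → Bool := onCell 536870912 536870912 1073741824 536870912 1046898278 26843546
    (rowFX 0 true false false .npn 1 2 3 (qsf 536870912 536870912 1073741824 536870912 3) ndF3q1 ndF5q2 pcF3 Cut.none Ext.none)

def k0_mm_123 : ∃ t, chk3 f_mm_123 t 1 1 1 = true :=
  ⟨(l 4), by decide +kernel⟩

theorem c_mm_123 : CertFX 536870912 536870912 1073741824 536870912 1046898278 26843546 true false false .npn 1 2 3
    ndF3q1 ndF5q2 pcF3 Cut.none Ext.none :=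
  certFX0 (fam := true) (s1 := false) (s2 := false) (a := 1) (b := 2) (c := 3) (cn := .npn) (n1 := ndF3q1) (n2 := ndF5q2) (pc := pcF3) (cut := Cut.none) (xt := Ext.none) (P1 := 536870912) (W1 := 536870912) (P2 := 1073741824) (W2 := 536870912) (P3 := 1046898278) (W3 := 26843546)
    rfl k0_mm_123

noncomputable def f_mm_133 : ℕ → ℕ → ℕ → ℕ → Bool := onCell 536870912 536870912 0 1230186008 1046898278 26843546
    (rowFX 0 true false false .dn 1 3 3 (qsf 536870912 536870912 0 1230186008 3) ndF3q1 ndF5q3 pcF3 Cut.none Ext.none)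

def k0_mm_133 : ∃ t, chk3 f_mm_133 t 1 1 1 = true :=
  ⟨(l 4), by decide +kernel⟩

theorem c_mm_133 : CertFX 536870912 536870912 0 1230186008 1046898278 26843546 true false false .dn 1 3 3
    ndF3q1 ndF5q3 pcF3 Cut.none Ext.none :=
  certFX0 (fam := true) (s1 := false) (s2 := false) (a := 1) (b := 3) (c := 3) (cn := .dn) (n1 := ndF3q1) (n2 := ndF5q3) (pc := pcF3) (cut := Cut.none) (xt := Ext.none) (P1 := 536870912) (W1 := 536870912) (P2 := 0) (W2 := 1230186008) (P3 := 1046898278) (W3 := 26843546)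
    rfl k0_mm_133

noncomputable def f_mm_202 : ℕ → ℕ → ℕ → ℕ → Bool := onCell 1073741824 536870912 0 536870912 1046898278 26843546
    (rowFX 0 true false false .pp 2 0 2 (qsf 1073741824 536870912 0 536870912 2) ndF3q2 ndF5q0 pcF2 Cut.none Ext.none)

def k0_mm_202 : ∃ t, chk3 f_mm_202 t 1 1 1 = true :=
  ⟨(b (l 4) (l 4)), by decide +kernel⟩

theorem c_mm_202 : CertFX 1073741824 536870912 0 536870912 1046898278 26843546 true false false .pp 2 0 2
    ndF3q2 ndF5q0 pcF2 Cut.none Ext.none :=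
  certFX0 (fam := true) (s1 := false) (s2 := false) (a := 2) (b := 0) (c := 2) (cn := .pp) (n1 := ndF3q2) (n2 := ndF5q0) (pc := pcF2) (cut := Cut.none) (xt := Ext.none) (P1 := 1073741824) (W1 := 536870912) (P2 := 0) (W2 := 536870912) (P3 := 1046898278) (W3 := 26843546)
    rfl k0_mm_202

noncomputable def f_mm_203 : ℕ → ℕ → ℕ → ℕ → Bool := onCell 1073741824 536870912 1610612736 536870912 1046898278 26843546
    (rowFX 1 true false false .up 2 0 3 (qsf 1073741824 536870912 0 536870912 3) ndF3q2 ndF5q0 pcF3 Cut.none Ext.none)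

def k0_mm_203 : ∃ t, chk3 f_mm_203 t 1 1 1 = true :=
  ⟨(l 4), by decide +kernel⟩

theorem c_mm_203 : CertFX 1073741824 536870912 0 536870912 1046898278 26843546 true false false .up 2 0 3
    ndF3q2 ndF5q0 pcF3 Cut.none Ext.none :=
  certFX1 (fam := true) (s1 := false) (s2 := false) (a := 2) (b := 0) (c := 3) (cn := .up) (n1 := ndF3q2) (n2 := ndF5q0) (pc := pcF3) (cut := Cut.none) (xt := Ext.none) (P1 := 1073741824) (W1 := 536870912) (P2 := 0) (W2 := 536870912) (P3 := 1046898278) (W3 := 26843546)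
    rfl (fun _ => rfl) k0_mm_203

noncomputable def f_mm_213 : ℕ → ℕ → ℕ → ℕ → Bool := onCell 1073741824 536870912 536870912 469762048 1046898278 26843546
    (rowFX 0 true false false .pnn 2 1 3 (qsf 1073741824 536870912 536870912 469762048 3) ndF3q2 ndF5q1 pcF3 Cut.none Ext.none)

def k0_mm_213 : ∃ t, chk3 f_mm_213 t 1 1 1 = true :=
  ⟨(l 4), by decide +kernel⟩

theorem c_mm_213 : CertFX 1073741824 536870912 536870912 469762048 1046898278 26843546 true false false .pnn 2 1 3
    ndF3q2 ndF5q1 pcF3 Cut.none Ext.none :=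
  certFX0 (fam := true) (s1 := false) (s2 := false) (a := 2) (b := 1) (c := 3) (cn := .pnn) (n1 := ndF3q2) (n2 := ndF5q1) (pc := pcF3) (cut := Cut.none) (xt := Ext.none) (P1 := 1073741824) (W1 := 536870912) (P2 := 536870912) (W2 := 469762048) (P3 := 1046898278) (W3 := 26843546)
    rfl k0_mm_213

noncomputable def f_mm_303 : ℕ → ℕ → ℕ → ℕ → Bool := onCell 1610612736 536870912 0 536870912 1046898278 26843546
    (rowFX 0 true false false .npn 3 0 3 (qsf 1610612736 536870912 0 536870912 3) ndF3q3 ndF5q0 pcF3 Cut.none Ext.none)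

def k0_mm_303 : ∃ t, chk3 f_mm_303 t 1 1 1 = true :=
  ⟨(l 4), by decide +kernel⟩

theorem c_mm_303 : CertFX 1610612736 536870912 0 536870912 1046898278 26843546 true false false .npn 3 0 3
    ndF3q3 ndF5q0 pcF3 Cut.none Ext.none :=
  certFX0 (fam := true) (s1 := false) (s2 := false) (a := 3) (b := 0) (c := 3) (cn := .npn) (n1 := ndF3q3) (n2 := ndF5q0) (pc := pcF3) (cut := Cut.none) (xt := Ext.none) (P1 := 1610612736) (W1 := 536870912) (P2 := 0) (W2 := 536870912) (P3 := 1046898278) (W3 := 26843546)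
    rfl k0_mm_303

noncomputable def f_mm_313 : ℕ → ℕ → ℕ → ℕ → Bool := onCell 1610612736 536870912 536870912 469762048 1046898278 26843546
    (rowFX 0 true false false .dn 3 1 3 (qsf 1610612736 536870912 536870912 469762048 3) ndF3q3 ndF5q1 pcF3 Cut.none Ext.none)

def k0_mm_313 : ∃ t, chk3 f_mm_313 t 1 1 1 = true :=
  ⟨(l 4), by decide +kernel⟩

theorem c_mm_313 : CertFX 1610612736 536870912 536870912 469762048 1046898278 26843546 true false false .dn 3 1 3
    ndF3q3 ndF5q1 pcF3 Cut.none Ext.none :=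
  certFX0 (fam := true) (s1 := false) (s2 := false) (a := 3) (b := 1) (c := 3) (cn := .dn) (n1 := ndF3q3) (n2 := ndF5q1) (pc := pcF3) (cut := Cut.none) (xt := Ext.none) (P1 := 1610612736) (W1 := 536870912) (P2 := 536870912) (W2 := 469762048) (P3 := 1046898278) (W3 := 26843546)
    rfl k0_mm_313

end Pool.Agent.Strip051.G.IE1.Tab.C.FA35

namespace Pool.Agent.Strip051.G.IE1.Tab.C.FA36

open Pool.Agent.Strip051.PB Pool.Agent.Strip051.PB.T
open Pool.Agent.Strip051.G.IE1.Tab

noncomputable def f_pp_001 : ℕ → ℕ → ℕ → ℕ → Bool := onCell 0 536870912 0 536870912 1046898278 26843546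
    (rowFX 0 true true true .up 0 0 1 (qsf 0 536870912 0 536870912 1) ndF3q0 ndF6q0 pcF1 Cut.none Ext.none)

def k0_pp_001 : ∃ t, chk3 f_pp_001 t 1 1 1 = true :=
  ⟨(l 4), by decide +kernel⟩

theorem c_pp_001 : CertFX 0 536870912 0 536870912 1046898278 26843546 true true true .up 0 0 1
    ndF3q0 ndF6q0 pcF1 Cut.none Ext.none :=
  certFX0 (fam := true) (s1 := true) (s2 := true) (a := 0) (b := 0) (c := 1) (cn := .up) (n1 := ndF3q0) (n2 := ndF6q0) (pc := pcF1) (cut := Cut.none) (xt := Ext.none) (P1 := 0) (W1 := 536870912) (P2 := 0) (W2 := 536870912) (P3 := 1046898278) (W3 := 26843546)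
    rfl k0_pp_001

noncomputable def f_pp_011 : ℕ → ℕ → ℕ → ℕ → Bool := onCell 0 536870912 536870912 469762048 1046898278 26843546
    (rowFX 0 true true true .pnn 0 1 1 (qsf 0 536870912 536870912 469762048 1) ndF3q0 ndF6q1 pcF1 Cut.none Ext.none)

def k0_pp_011 : ∃ t, chk3 f_pp_011 t 1 1 1 = true :=
  ⟨(l 4), by decide +kernel⟩

theorem c_pp_011 : CertFX 0 536870912 536870912 469762048 1046898278 26843546 true true true .pnn 0 1 1
    ndF3q0 ndF6q1 pcF1 Cut.none Ext.none :=
  certFX0 (fam := true) (s1 := true) (s2 := true) (a := 0) (b := 1) (c := 1) (cn := .pnn) (n1 := ndF3q0) (n2 := ndF6q1) (pc := pcF1) (cut := Cut.none) (xt := Ext.none) (P1 := 0) (W1 := 536870912) (P2 := 536870912) (W2 := 469762048) (P3 := 1046898278) (W3 := 26843546)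
    rfl k0_pp_011

noncomputable def f_pp_012 : ℕ → ℕ → ℕ → ℕ → Bool := onCell 0 536870912 536870912 469762048 1046898278 26843546
    (rowFX 0 true true true .pnp 0 1 2 (qsf 0 536870912 536870912 469762048 2) ndF3q0 ndF6q1 pcF2 Cut.none Ext.none)

def k0_pp_012 : ∃ t, chk3 f_pp_012 t 1 1 1 = true :=
  ⟨(l 4), by decide +kernel⟩

theorem c_pp_012 : CertFX 0 536870912 536870912 469762048 1046898278 26843546 true true true .pnp 0 1 2
    ndF3q0 ndF6q1 pcF2 Cut.none Ext.none :=
  certFX0 (fam := true) (s1 := true) (s2 := true) (a := 0) (b := 1) (c := 2) (cn := .pnp) (n1 := ndF3q0) (n2 := ndF6q1) (pc := pcF2) (cut := Cut.none) (xt := Ext.none) (P1 := 0) (W1 := 536870912) (P2 := 536870912) (W2 := 469762048) (P3 := 1046898278) (W3 := 26843546)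
    rfl k0_pp_012

noncomputable def f_pp_022 : ℕ → ℕ → ℕ → ℕ → Bool := onCell 0 536870912 1073741824 536870912 1046898278 26843546
    (rowFX 0 true true true .pp 0 2 2 (qsf 0 536870912 1073741824 536870912 2) ndF3q0 ndF6q2 pcF2 Cut.none Ext.none)

def k0_pp_022 : ∃ t, chk3 f_pp_022 t 1 1 1 = true :=
  ⟨(l 4), by decide +kernel⟩

theorem c_pp_022 : CertFX 0 536870912 1073741824 536870912 1046898278 26843546 true true true .pp 0 2 2
    ndF3q0 ndF6q2 pcF2 Cut.none Ext.none :=
  certFX0 (fam := true) (s1 := true) (s2 := true) (a := 0) (b := 2) (c := 2) (cn := .pp) (n1 := ndF3q0) (n2 := ndF6q2) (pc := pcF2) (cut := Cut.none) (xt := Ext.none) (P1 := 0) (W1 := 536870912) (P2 := 1073741824) (W2 := 536870912) (P3 := 1046898278) (W3 := 26843546)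
    rfl k0_pp_022

noncomputable def f_pp_023 : ℕ → ℕ → ℕ → ℕ → Bool := onCell 0 536870912 1073741824 536870912 1046898278 26843546
    (rowFX 0 true true true .up 0 2 3 (qsf 0 536870912 1073741824 536870912 3) ndF3q0 ndF6q2 pcF3 Cut.none Ext.none)

def k0_pp_023 : ∃ t, chk3 f_pp_023 t 1 1 1 = true :=
  ⟨(l 4), by decide +kernel⟩

theorem c_pp_023 : CertFX 0 536870912 1073741824 536870912 1046898278 26843546 true true true .up 0 2 3
    ndF3q0 ndF6q2 pcF3 Cut.none Ext.none :=
  certFX0 (fam := true) (s1 := true) (s2 := true) (a := 0) (b := 2) (c := 3) (cn := .up) (n1 := ndF3q0) (n2 := ndF6q2) (pc := pcF3) (cut := Cut.none) (xt := Ext.none) (P1 := 0) (W1 := 536870912) (P2 := 1073741824) (W2 := 536870912) (P3 := 1046898278) (W3 := 26843546)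
    rfl k0_pp_023

noncomputable def f_pp_033 : ℕ → ℕ → ℕ → ℕ → Bool := onCell 0 536870912 0 1230186008 1046898278 26843546
    (rowFX 0 true true true .pnn 0 3 3 (qsf 0 536870912 0 1230186008 3) ndF3q0 ndF6q3 pcF3 Cut.none Ext.none)

def k0_pp_033 : ∃ t, chk3 f_pp_033 t 1 1 1 = true :=
  ⟨(b (l 4) (l 4)), by decide +kernel⟩

theorem c_pp_033 : CertFX 0 536870912 0 1230186008 1046898278 26843546 true true true .pnn 0 3 3
    ndF3q0 ndF6q3 pcF3 Cut.none Ext.none :=
  certFX0 (fam := true) (s1 := true) (s2 := true) (a := 0) (b := 3) (c := 3) (cn := .pnn) (n1 := ndF3q0) (n2 := ndF6q3) (pc := pcF3) (cut := Cut.none) (xt := Ext.none) (P1 := 0) (W1 := 536870912) (P2 := 0) (W2 := 1230186008) (P3 := 1046898278) (W3 := 26843546)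
    rfl k0_pp_033

noncomputable def f_pp_101 : ℕ → ℕ → ℕ → ℕ → Bool := onCell 536870912 536870912 0 536870912 1046898278 26843546
    (rowFX 0 true true true .npn 1 0 1 (qsf 536870912 536870912 0 536870912 1) ndF3q1 ndF6q0 pcF1 Cut.none Ext.none)

def k0_pp_101 : ∃ t, chk3 f_pp_101 t 1 1 1 = true :=
  ⟨(l 4), by decide +kernel⟩

theorem c_pp_101 : CertFX 536870912 536870912 0 536870912 1046898278 26843546 true true true .npn 1 0 1
    ndF3q1 ndF6q0 pcF1 Cut.none Ext.none :=
  certFX0 (fam := true) (s1 := true) (s2 := true) (a := 1) (b := 0) (c := 1) (cn := .npn) (n1 := ndF3q1) (n2 := ndF6q0) (pc := pcF1) (cut := Cut.none) (xt := Ext.none) (P1 := 536870912) (W1 := 536870912) (P2 := 0) (W2 := 536870912) (P3 := 1046898278) (W3 := 26843546)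
    rfl k0_pp_101

noncomputable def f_pp_102 : ℕ → ℕ → ℕ → ℕ → Bool := onCell 536870912 536870912 0 536870912 1046898278 26843546
    (rowFX 0 true true true .npp 1 0 2 (qsf 536870912 536870912 0 536870912 2) ndF3q1 ndF6q0 pcF2 Cut.none Ext.none)

def k0_pp_102 : ∃ t, chk3 f_pp_102 t 1 1 1 = true :=
  ⟨(l 4), by decide +kernel⟩

theorem c_pp_102 : CertFX 536870912 536870912 0 536870912 1046898278 26843546 true true true .npp 1 0 2
    ndF3q1 ndF6q0 pcF2 Cut.none Ext.none :=
  certFX0 (fam := true) (s1 := true) (s2 := true) (a := 1) (b := 0) (c := 2) (cn := .npp) (n1 := ndF3q1) (n2 := ndF6q0) (pc := pcF2) (cut := Cut.none) (xt := Ext.none) (P1 := 536870912) (W1 := 536870912) (P2 := 0) (W2 := 536870912) (P3 := 1046898278) (W3 := 26843546)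
    rfl k0_pp_102

noncomputable def f_pp_112 : ℕ → ℕ → ℕ → ℕ → Bool := onCell 536870912 536870912 536870912 469762048 1046898278 26843546
    (rowFX 0 true true true .dn 1 1 2 (qsf 536870912 536870912 536870912 469762048 2) ndF3q1 ndF6q1 pcF2 Cut.none Ext.none)

def k0_pp_112 : ∃ t, chk3 f_pp_112 t 1 1 1 = true :=
  ⟨(l 4), by decide +kernel⟩

theorem c_pp_112 : CertFX 536870912 536870912 536870912 469762048 1046898278 26843546 true true true .dn 1 1 2
    ndF3q1 ndF6q1 pcF2 Cut.none Ext.none :=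
  certFX0 (fam := true) (s1 := true) (s2 := true) (a := 1) (b := 1) (c := 2) (cn := .dn) (n1 := ndF3q1) (n2 := ndF6q1) (pc := pcF2) (cut := Cut.none) (xt := Ext.none) (P1 := 536870912) (W1 := 536870912) (P2 := 536870912) (W2 := 469762048) (P3 := 1046898278) (W3 := 26843546)
    rfl k0_pp_112

noncomputable def f_pp_113 : ℕ → ℕ → ℕ → ℕ → Bool := onCell 536870912 536870912 536870912 469762048 1046898278 26843546
    (rowFX 0 true true true .nn 1 1 3 (qsf 536870912 536870912 536870912 469762048 3) ndF3q1 ndF6q1 pcF3 Cut.none Ext.none)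

def k0_pp_113 : ∃ t, chk3 f_pp_113 t 1 1 1 = true :=
  ⟨(l 4), by decide +kernel⟩

theorem c_pp_113 : CertFX 536870912 536870912 536870912 469762048 1046898278 26843546 true true true .nn 1 1 3
    ndF3q1 ndF6q1 pcF3 Cut.none Ext.none :=
  certFX0 (fam := true) (s1 := true) (s2 := true) (a := 1) (b := 1) (c := 3) (cn := .nn) (n1 := ndF3q1) (n2 := ndF6q1) (pc := pcF3) (cut := Cut.none) (xt := Ext.none) (P1 := 536870912) (W1 := 536870912) (P2 := 536870912) (W2 := 469762048) (P3 := 1046898278) (W3 := 26843546)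
    rfl k0_pp_113

noncomputable def f_pp_123 : ℕ → ℕ → ℕ → ℕ → Bool := onCell 536870912 536870912 1073741824 536870912 1046898278 26843546
    (rowFX 0 true true true .npn 1 2 3 (qsf 536870912 536870912 1073741824 536870912 3) ndF3q1 ndF6q2 pcF3 Cut.none Ext.none)

def k0_pp_123 : ∃ t, chk3 f_pp_123 t 1 1 1 = true :=
  ⟨(l 4), by decide +kernel⟩

theorem c_pp_123 : CertFX 536870912 536870912 1073741824 536870912 1046898278 26843546 true true true .npn 1 2 3
    ndF3q1 ndF6q2 pcF3 Cut.none Ext.none :=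
  certFX0 (fam := true) (s1 := true) (s2 := true) (a := 1) (b := 2) (c := 3) (cn := .npn) (n1 := ndF3q1) (n2 := ndF6q2) (pc := pcF3) (cut := Cut.none) (xt := Ext.none) (P1 := 536870912) (W1 := 536870912) (P2 := 1073741824) (W2 := 536870912) (P3 := 1046898278) (W3 := 26843546)
    rfl k0_pp_123

noncomputable def f_pp_133 : ℕ → ℕ → ℕ → ℕ → Bool := onCell 536870912 536870912 0 1230186008 1046898278 26843546
    (rowFX 0 true true true .dn 1 3 3 (qsf 536870912 536870912 0 1230186008 3) ndF3q1 ndF6q3 pcF3 Cut.none Ext.none)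

def k0_pp_133 : ∃ t, chk3 f_pp_133 t 1 1 1 = true :=
  ⟨(l 4), by decide +kernel⟩

theorem c_pp_133 : CertFX 536870912 536870912 0 1230186008 1046898278 26843546 true true true .dn 1 3 3
    ndF3q1 ndF6q3 pcF3 Cut.none Ext.none :=
  certFX0 (fam := true) (s1 := true) (s2 := true) (a := 1) (b := 3) (c := 3) (cn := .dn) (n1 := ndF3q1) (n2 := ndF6q3) (pc := pcF3) (cut := Cut.none) (xt := Ext.none) (P1 := 536870912) (W1 := 536870912) (P2 := 0) (W2 := 1230186008) (P3 := 1046898278) (W3 := 26843546)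
    rfl k0_pp_133

noncomputable def f_pp_202 : ℕ → ℕ → ℕ → ℕ → Bool := onCell 1073741824 536870912 0 536870912 1046898278 26843546
    (rowFX 0 true true true .pp 2 0 2 (qsf 1073741824 536870912 0 536870912 2) ndF3q2 ndF6q0 pcF2 Cut.none Ext.none)

def k0_pp_202 : ∃ t, chk3 f_pp_202 t 1 1 1 = true :=
  ⟨(l 4), by decide +kernel⟩

theorem c_pp_202 : CertFX 1073741824 536870912 0 536870912 1046898278 26843546 true true true .pp 2 0 2
    ndF3q2 ndF6q0 pcF2 Cut.none Ext.none :=
  certFX0 (fam := true) (s1 := true) (s2 := true) (a := 2) (b := 0) (c := 2) (cn := .pp) (n1 := ndF3q2) (n2 := ndF6q0) (pc := pcF2) (cut := Cut.none) (xt := Ext.none) (P1 := 1073741824) (W1 := 536870912) (P2 := 0) (W2 := 536870912) (P3 := 1046898278) (W3 := 26843546)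
    rfl k0_pp_202

noncomputable def f_pp_203 : ℕ → ℕ → ℕ → ℕ → Bool := onCell 1073741824 536870912 0 536870912 1046898278 26843546
    (rowFX 0 true true true .up 2 0 3 (qsf 1073741824 536870912 0 536870912 3) ndF3q2 ndF6q0 pcF3 Cut.none Ext.none)

def k0_pp_203 : ∃ t, chk3 f_pp_203 t 1 1 1 = true :=
  ⟨(l 4), by decide +kernel⟩

theorem c_pp_203 : CertFX 1073741824 536870912 0 536870912 1046898278 26843546 true true true .up 2 0 3
    ndF3q2 ndF6q0 pcF3 Cut.none Ext.none :=
  certFX0 (fam := true) (s1 := true) (s2 := true) (a := 2) (b := 0) (c := 3) (cn := .up) (n1 := ndF3q2) (n2 := ndF6q0) (pc := pcF3) (cut := Cut.none) (xt := Ext.none) (P1 := 1073741824) (W1 := 536870912) (P2 := 0) (W2 := 536870912) (P3 := 1046898278) (W3 := 26843546)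
    rfl k0_pp_203

noncomputable def f_pp_213 : ℕ → ℕ → ℕ → ℕ → Bool := onCell 1073741824 536870912 536870912 469762048 1046898278 26843546
    (rowFX 0 true true true .pnn 2 1 3 (qsf 1073741824 536870912 536870912 469762048 3) ndF3q2 ndF6q1 pcF3 Cut.none Ext.none)

def k0_pp_213 : ∃ t, chk3 f_pp_213 t 1 1 1 = true :=
  ⟨(l 4), by decide +kernel⟩

theorem c_pp_213 : CertFX 1073741824 536870912 536870912 469762048 1046898278 26843546 true true true .pnn 2 1 3
    ndF3q2 ndF6q1 pcF3 Cut.none Ext.none :=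
  certFX0 (fam := true) (s1 := true) (s2 := true) (a := 2) (b := 1) (c := 3) (cn := .pnn) (n1 := ndF3q2) (n2 := ndF6q1) (pc := pcF3) (cut := Cut.none) (xt := Ext.none) (P1 := 1073741824) (W1 := 536870912) (P2 := 536870912) (W2 := 469762048) (P3 := 1046898278) (W3 := 26843546)
    rfl k0_pp_213

noncomputable def f_pp_303 : ℕ → ℕ → ℕ → ℕ → Bool := onCell 1610612736 536870912 0 536870912 1046898278 26843546
    (rowFX 0 true true true .npn 3 0 3 (qsf 1610612736 536870912 0 536870912 3) ndF3q3 ndF6q0 pcF3 Cut.none Ext.none)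

def k0_pp_303 : ∃ t, chk3 f_pp_303 t 1 1 1 = true :=
  ⟨(l 4), by decide +kernel⟩

theorem c_pp_303 : CertFX 1610612736 536870912 0 536870912 1046898278 26843546 true true true .npn 3 0 3
    ndF3q3 ndF6q0 pcF3 Cut.none Ext.none :=
  certFX0 (fam := true) (s1 := true) (s2 := true) (a := 3) (b := 0) (c := 3) (cn := .npn) (n1 := ndF3q3) (n2 := ndF6q0) (pc := pcF3) (cut := Cut.none) (xt := Ext.none) (P1 := 1610612736) (W1 := 536870912) (P2 := 0) (W2 := 536870912) (P3 := 1046898278) (W3 := 26843546)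
    rfl k0_pp_303

noncomputable def f_pp_313 : ℕ → ℕ → ℕ → ℕ → Bool := onCell 1610612736 536870912 536870912 469762048 1046898278 26843546
    (rowFX 0 true true true .dn 3 1 3 (qsf 1610612736 536870912 536870912 469762048 3) ndF3q3 ndF6q1 pcF3 Cut.none Ext.none)

def k0_pp_313 : ∃ t, chk3 f_pp_313 t 1 1 1 = true :=
  ⟨(l 4), by decide +kernel⟩

theorem c_pp_313 : CertFX 1610612736 536870912 536870912 469762048 1046898278 26843546 true true true .dn 3 1 3
    ndF3q3 ndF6q1 pcF3 Cut.none Ext.none :=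
  certFX0 (fam := true) (s1 := true) (s2 := true) (a := 3) (b := 1) (c := 3) (cn := .dn) (n1 := ndF3q3) (n2 := ndF6q1) (pc := pcF3) (cut := Cut.none) (xt := Ext.none) (P1 := 1610612736) (W1 := 536870912) (P2 := 536870912) (W2 := 469762048) (P3 := 1046898278) (W3 := 26843546)
    rfl k0_pp_313

noncomputable def f_pm_001 : ℕ → ℕ → ℕ → ℕ → Bool := onCell 0 536870912 0 536870912 1046898278 26843546
    (rowFX 0 true true false .up 0 0 1 (qsf 0 536870912 0 536870912 1) ndF3q0 ndF6q0 pcF1 Cut.none Ext.none)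

def k0_pm_001 : ∃ t, chk3 f_pm_001 t 1 1 1 = true :=
  ⟨(l 3), by decide +kernel⟩

theorem c_pm_001 : CertFX 0 536870912 0 536870912 1046898278 26843546 true true false .up 0 0 1
    ndF3q0 ndF6q0 pcF1 Cut.none Ext.none :=
  certFX0 (fam := true) (s1 := true) (s2 := false) (a := 0) (b := 0) (c := 1) (cn := .up) (n1 := ndF3q0) (n2 := ndF6q0) (pc := pcF1) (cut := Cut.none) (xt := Ext.none) (P1 := 0) (W1 := 536870912) (P2 := 0) (W2 := 536870912) (P3 := 1046898278) (W3 := 26843546)
    rfl k0_pm_001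

noncomputable def f_pm_011 : ℕ → ℕ → ℕ → ℕ → Bool := onCell 0 536870912 536870912 536870912 1046898278 26843546
    (rowFX 1 true true false .pnn 0 1 1 (qsf 0 536870912 536870912 469762048 1) ndF3q0 ndF6q1 pcF1 Cut.none Ext.none)

def k0_pm_011 : ∃ t, chk3 f_pm_011 t 1 1 1 = true :=
  ⟨(b (l 3) (a (b (l 3) (a (b (l 3) (a (a (a (b (l 3) (l 2)) (l 3)) (l 3)) (l 3))) (l 3))) (l 3))), by decide +kernel⟩

theorem c_pm_011 : CertFX 0 536870912 536870912 469762048 1046898278 26843546 true true false .pnn 0 1 1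
    ndF3q0 ndF6q1 pcF1 Cut.none Ext.none :=
  certFX1 (fam := true) (s1 := true) (s2 := false) (a := 0) (b := 1) (c := 1) (cn := .pnn) (n1 := ndF3q0) (n2 := ndF6q1) (pc := pcF1) (cut := Cut.none) (xt := Ext.none) (P1 := 0) (W1 := 536870912) (P2 := 536870912) (W2 := 469762048) (P3 := 1046898278) (W3 := 26843546)
    rfl (fun _ => rfl) k0_pm_011

noncomputable def f_pm_012 : ℕ → ℕ → ℕ → ℕ → Bool := onCell 1073741824 536870912 536870912 469762048 1046898278 26843546
    (rowFX 2 true true false .pnp 0 1 2 (qsf 0 536870912 536870912 469762048 2) ndF3q0 ndF6q1 pcF2 Cut.none Ext.none)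

def k0_pm_012 : ∃ t, chk3 f_pm_012 t 2 1 1 = true :=
  ⟨(a (a (b (l 3) (b (l 3) (l 3))) (b (l 3) (a (b (l 3) (b (l 3) (a (l 3) (b (l 3) (c (a (l 15334240) (l 15200072)) (l 15256280)))))) (b (a (l 3) (b (l 3) (c (l 16203912) (b (l 16648176) (l 16196352))))) (b (a (a (l 3) (a (l 1057263684711) (l 15572184))) (c (l 15461808) (a (l 15556744) (l 15556744)))) (a (c (b (a (l 15325680) (l 15276656)) (a (l 15104488) (l 15045304))) (a (b (l 15289528) (l 15083152)) (b (l 15239160) (l 15022352)))) (c (b (a (l 15241160) (l 15219864)) (a (l 14999496) (l 14955272))) (b (a (l 15202680) (l 15180808)) (a (l 14975320) (l 14929888)))))))))) (b (b (l 2) (a (a (a (c (l 16777208) (l 16777208)) (a (a (l 16777216) (l 16776296)) (a (c (l 16772312) (l 16772192)) (a (a (l 16767392) (l 16762096)) (l 16756776))))) (l 16761832)) (l 16775336))) (a (a (a (b (b (a (l 16777216) (l 16777208)) (a (b (l 16649808) (l 16203704)) (c (l 16413600) (b (l 16648200) (l 16196360))))) (b (c (a (l 15589456) (l 15588544))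 (a (l 15537648) (b (l 15709656) (l 15401144)))) (b (a (c (l 15208424) (l 15169040)) (l 15184656)) (c (l 14885592) (l 14858248))))) (b (a (b (c (l 16774216) (l 16774136)) (a (b (l 16648944) (l 16201456)) (l 16423904))) (b (a (l 16761680) (l 16749096)) (a (l 16416264) (a (l 16411824) (l 16409680))))) (b (a (l 15562480) (a (l 15547192) (a (l 15542832) (l 15541056)))) (a (b (l 15166144) (l 14784088)) (c (a (l 14937336) (a (l 14930784) (b (l 15161480) (l 14748248)))) (a (l 14902096) (a (l 14895336) (l 14893624)))))))) (b (b (l 16754792) (l 16415928)) (b (l 15550640) (b (l 15153904) (l 14745736))))) (b (b (l 16774344) (l 16428392)) (b (l 15569424) (c (l 14863568) (l 14934184))))))), by decide +kernel⟩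

def k1_pm_012 : ∃ t, chk3 f_pm_012 t 3 1 1 = true :=
  ⟨(b (l 2) (b (b (l 16777216) (a (l 16430144) (l 2))) (b (a (l 15572176) (l 15572176)) (a (b (l 15182144) (l 14758104)) (l 14784728))))), by decide +kernel⟩

theorem s2_pm_012 : ∃ t, chk3 f_pm_012 t 1 1 1 = true := ex3_a k0_pm_012 k1_pm_012

theorem c_pm_012 : CertFX 0 536870912 536870912 469762048 1046898278 26843546 true true false .pnp 0 1 2
    ndF3q0 ndF6q1 pcF2 Cut.none Ext.none :=
  certFX2 (fam := true) (s1 := true) (s2 := false) (a := 0) (b := 1) (c := 2) (cn := .pnp) (n1 := ndF3q0) (n2 := ndF6q1) (pc := pcF2) (cut := Cut.none) (xt := Ext.none) (P1 := 0) (W1 := 536870912) (P2 := 536870912) (W2 := 469762048) (P3 := 1046898278) (W3 := 26843546)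
    rfl (fun _ => rfl) s2_pm_012

end Pool.Agent.Strip051.G.IE1.Tab.C.FA36

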