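import Pool.Agent.Strip051.G.IE1.AsmH
import Pool.Agent.Strip051.G.IE1.TrF18
import Pool.Agent.Strip051.G.IE1.TrF19
import Pool.Agent.Strip051.G.IE1.CubF

/-! # Rows from certificates (generated) -/

set_option linter.all false
set_option maxRecDepth 100000

namespace Pool.Agent.Strip051.G.IE1.Tab

open Pool.Agent.Strip051.PB Pool.Agent.StripNear Pool.Agent.Strip051.LC

theorem FA25_pp_001 {κ x : ℝ} (hκ : κ * h0 = kenE x) (hx : 39 / 40 ≤ x) (hx' : x < 1) :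
    TriA (DD x).cur (farD κ (h0 * x) (tbl tKF x) (tbl tL x)) 0 0 1 2 5 1 1 :=
  (sideF hx hx').farA (Or.inl rfl) (Or.inl rfl) fun y y' F r1 r2 =>
    farXA_cert (s1 := true) (s2 := true) rfl hκ (ka0 hκ hx hx') (xa0 hx) hx' (covF20 hx hx') (covF50 hx hx') (x1 hx) (x2 hx')
        Pool.Agent.Strip051.G.IE1.Tab.C.FA25.c_pp_001 noCut_VA noExt_VA F r1 r2 r1 r2

theorem FA25_pp_011 {κ x : ℝ} (hκ : κ * h0 = kenE x) (hx : 39 / 40 ≤ x) (hx' : x < 1) :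
    TriA (DD x).cur (farD κ (h0 * x) (tbl tKF x) (tbl tL x)) 0 1 1 2 5 1 1 :=
  (sideF hx hx').farA (Or.inl rfl) (Or.inl rfl) fun y y' F r1 r2 =>
    farXA_cert (s1 := true) (s2 := true) rfl hκ (ka0 hκ hx hx') (xa0 hx) hx' (covF20 hx hx') (covF51 hx hx') (x1 hx) (x2 hx')
        Pool.Agent.Strip051.G.IE1.Tab.C.FA25.c_pp_011 noCut_VA noExt_VA F r1 r2 r1 r2

theorem FA25_pp_012 {κ x : ℝ} (hκ : κ * h0 = kenE x) (hx : 39 / 40 ≤ x) (hx' : x < 1) :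
    TriA (DD x).cur (farD κ (h0 * x) (tbl tKF x) (tbl tL x)) 0 1 2 2 5 1 1 :=
  (sideF hx hx').farA (Or.inl rfl) (Or.inl rfl) fun y y' F r1 r2 =>
    farXA_cert (s1 := true) (s2 := true) rfl hκ (ka0 hκ hx hx') (xa0 hx) hx' (covF20 hx hx') (covF51 hx hx') (x1 hx) (x2 hx')
        Pool.Agent.Strip051.G.IE1.Tab.C.FA25.c_pp_012 noCut_VA noExt_VA F r1 r2 r1 r2

theorem FA25_pp_022 {κ x : ℝ} (hκ : κ * h0 = kenE x) (hx : 39 / 40 ≤ x) (hx' : x < 1) :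
    TriA (DD x).cur (farD κ (h0 * x) (tbl tKF x) (tbl tL x)) 0 2 2 2 5 1 1 :=
  (sideF hx hx').farA (Or.inl rfl) (Or.inl rfl) fun y y' F r1 r2 =>
    farXA_cert (s1 := true) (s2 := true) rfl hκ (ka0 hκ hx hx') (xa0 hx) hx' (covF20 hx hx') (covF52 hx hx') (x1 hx) (x2 hx')
        Pool.Agent.Strip051.G.IE1.Tab.C.FA25.c_pp_022 noCut_VA noExt_VA F r1 r2 r1 r2

theorem FA25_pp_023 {κ x : ℝ} (hκ : κ * h0 = kenE x) (hx : 39 / 40 ≤ x) (hx' : x < 1) :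
    TriA (DD x).cur (farD κ (h0 * x) (tbl tKF x) (tbl tL x)) 0 2 3 2 5 1 1 :=
  (sideF hx hx').farA (Or.inl rfl) (Or.inl rfl) fun y y' F r1 r2 =>
    farXA_cert (s1 := true) (s2 := true) rfl hκ (ka0 hκ hx hx') (xa0 hx) hx' (covF20 hx hx') (covF52 hx hx') (x1 hx) (x2 hx')
        Pool.Agent.Strip051.G.IE1.Tab.C.FA25.c_pp_023 noCut_VA noExt_VA F r1 r2 r1 r2

theorem FA25_pp_033 {κ x : ℝ} (hκ : κ * h0 = kenE x) (hx : 39 / 40 ≤ x) (hx' : x < 1) :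
    TriA (DD x).cur (farD κ (h0 * x) (tbl tKF x) (tbl tL x)) 0 3 3 2 5 1 1 :=
  (sideF hx hx').farA (Or.inl rfl) (Or.inl rfl) fun y y' F r1 r2 =>
    farXA_cert (s1 := true) (s2 := true) rfl hκ (ka0 hκ hx hx') (xa0 hx) hx' (covF20 hx hx') (covF53 hx hx') (x1 hx) (x2 hx')
        Pool.Agent.Strip051.G.IE1.Tab.C.FA25.c_pp_033 noCut_VA noExt_VA F r1 r2 r1 r2

theorem FA25_pp_101 {κ x : ℝ} (hκ : κ * h0 = kenE x) (hx : 39 / 40 ≤ x) (hx' : x < 1) :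
    TriA (DD x).cur (farD κ (h0 * x) (tbl tKF x) (tbl tL x)) 1 0 1 2 5 1 1 :=
  (sideF hx hx').farA (Or.inl rfl) (Or.inl rfl) fun y y' F r1 r2 =>
    farXA_cert (s1 := true) (s2 := true) rfl hκ (ka0 hκ hx hx') (xa0 hx) hx' (covF21 hx hx') (covF50 hx hx') (x1 hx) (x2 hx')
        Pool.Agent.Strip051.G.IE1.Tab.C.FA25.c_pp_101 noCut_VA noExt_VA F r1 r2 r1 r2

theorem FA25_pp_102 {κ x : ℝ} (hκ : κ * h0 = kenE x) (hx : 39 / 40 ≤ x) (hx' : x < 1) :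
    TriA (DD x).cur (farD κ (h0 * x) (tbl tKF x) (tbl tL x)) 1 0 2 2 5 1 1 :=
  (sideF hx hx').farA (Or.inl rfl) (Or.inl rfl) fun y y' F r1 r2 =>
    farXA_cert (s1 := true) (s2 := true) rfl hκ (ka0 hκ hx hx') (xa0 hx) hx' (covF21 hx hx') (covF50 hx hx') (x1 hx) (x2 hx')
        Pool.Agent.Strip051.G.IE1.Tab.C.FA25.c_pp_102 noCut_VA noExt_VA F r1 r2 r1 r2

theorem FA25_pp_112 {κ x : ℝ} (hκ : κ * h0 = kenE x) (hx : 39 / 40 ≤ x) (hx' : x < 1) :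
    TriA (DD x).cur (farD κ (h0 * x) (tbl tKF x) (tbl tL x)) 1 1 2 2 5 1 1 :=
  (sideF hx hx').farA (Or.inl rfl) (Or.inl rfl) fun y y' F r1 r2 =>
    farXA_cert (s1 := true) (s2 := true) rfl hκ (ka0 hκ hx hx') (xa0 hx) hx' (covF21 hx hx') (covF51 hx hx') (x1 hx) (x2 hx')
        Pool.Agent.Strip051.G.IE1.Tab.C.FA25.c_pp_112 noCut_VA noExt_VA F r1 r2 r1 r2

theorem FA25_pp_113 {κ x : ℝ} (hκ : κ * h0 = kenE x) (hx : 39 / 40 ≤ x) (hx' : x < 1) :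
    TriA (DD x).cur (farD κ (h0 * x) (tbl tKF x) (tbl tL x)) 1 1 3 2 5 1 1 :=
  (sideF hx hx').farA (Or.inl rfl) (Or.inl rfl) fun y y' F r1 r2 =>
    farXA_cert (s1 := true) (s2 := true) rfl hκ (ka0 hκ hx hx') (xa0 hx) hx' (covF21 hx hx') (covF51 hx hx') (x1 hx) (x2 hx')
        Pool.Agent.Strip051.G.IE1.Tab.C.FA25.c_pp_113 noCut_VA noExt_VA F r1 r2 r1 r2

theorem FA25_pp_123 {κ x : ℝ} (hκ : κ * h0 = kenE x) (hx : 39 / 40 ≤ x) (hx' : x < 1) :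
    TriA (DD x).cur (farD κ (h0 * x) (tbl tKF x) (tbl tL x)) 1 2 3 2 5 1 1 :=
  (sideF hx hx').farA (Or.inl rfl) (Or.inl rfl) fun y y' F r1 r2 =>
    farXA_cert (s1 := true) (s2 := true) rfl hκ (ka0 hκ hx hx') (xa0 hx) hx' (covF21 hx hx') (covF52 hx hx') (x1 hx) (x2 hx')
        Pool.Agent.Strip051.G.IE1.Tab.C.FA25.c_pp_123 noCut_VA noExt_VA F r1 r2 r1 r2

theorem FA25_pp_133 {κ x : ℝ} (hκ : κ * h0 = kenE x) (hx : 39 / 40 ≤ x) (hx' : x < 1) :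
    TriA (DD x).cur (farD κ (h0 * x) (tbl tKF x) (tbl tL x)) 1 3 3 2 5 1 1 :=
  (sideF hx hx').farA (Or.inl rfl) (Or.inl rfl) fun y y' F r1 r2 =>
    farXA_cert (s1 := true) (s2 := true) rfl hκ (ka0 hκ hx hx') (xa0 hx) hx' (covF21 hx hx') (covF53 hx hx') (x1 hx) (x2 hx')
        Pool.Agent.Strip051.G.IE1.Tab.C.FA25.c_pp_133 noCut_VA noExt_VA F r1 r2 r1 r2

theorem FA25_pp_202 {κ x : ℝ} (hκ : κ * h0 = kenE x) (hx : 39 / 40 ≤ x) (hx' : x < 1) :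
    TriA (DD x).cur (farD κ (h0 * x) (tbl tKF x) (tbl tL x)) 2 0 2 2 5 1 1 :=
  (sideF hx hx').farA (Or.inl rfl) (Or.inl rfl) fun y y' F r1 r2 =>
    (lt_or_ge (h0 * y) 1).elim
      (fun h => farXA_cert (s1 := true) (s2 := true) rfl hκ (ka0 hκ hx hx') (xa0 hx) hx' (covF22a hx hx') (covF50 hx hx') (x1 hx) (x2 hx')
        Pool.Agent.Strip051.G.IE1.Tab.C.FA25.c_pp_202_a noCut_VA noExt_VA F r1 r2 ⟨r1, h⟩ r2)
      (fun h => farXA_cert (s1 := true) (s2 := true) rfl hκ (ka0 hκ hx hx') (xa0 hx) hx' (covF22b hx hx') (covF50 hx hx') (x1 hx) (x2 hx')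
        Pool.Agent.Strip051.G.IE1.Tab.C.FA25.c_pp_202_b noCut_VA noExt_VA F r1 r2 ⟨r1, h⟩ r2)

theorem FA25_pp_203 {κ x : ℝ} (hκ : κ * h0 = kenE x) (hx : 39 / 40 ≤ x) (hx' : x < 1) :
    TriA (DD x).cur (farD κ (h0 * x) (tbl tKF x) (tbl tL x)) 2 0 3 2 5 1 1 :=
  (sideF hx hx').farA (Or.inl rfl) (Or.inl rfl) fun y y' F r1 r2 =>
    (lt_or_ge (h0 * y) 1).elim
      (fun h => farXA_cert (s1 := true) (s2 := true) rfl hκ (ka0 hκ hx hx') (xa0 hx) hx' (covF22a hx hx') (covF50 hx hx') (x1 hx) (x2 hx')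
        Pool.Agent.Strip051.G.IE1.Tab.C.FA25.c_pp_203_a noCut_VA noExt_VA F r1 r2 ⟨r1, h⟩ r2)
      (fun h => farXA_cert (s1 := true) (s2 := true) rfl hκ (ka0 hκ hx hx') (xa0 hx) hx' (covF22b hx hx') (covF50 hx hx') (x1 hx) (x2 hx')
        Pool.Agent.Strip051.G.IE1.Tab.C.FA25.c_pp_203_b noCut_VA noExt_VA F r1 r2 ⟨r1, h⟩ r2)

theorem FA25_pp_213 {κ x : ℝ} (hκ : κ * h0 = kenE x) (hx : 39 / 40 ≤ x) (hx' : x < 1) :
    TriA (DD x).cur (farD κ (h0 * x) (tbl tKF x) (tbl tL x)) 2 1 3 2 5 1 1 :=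
  (sideF hx hx').farA (Or.inl rfl) (Or.inl rfl) fun y y' F r1 r2 =>
    (lt_or_ge (h0 * y) 1).elim
      (fun h => farXA_cert (s1 := true) (s2 := true) rfl hκ (ka0 hκ hx hx') (xa0 hx) hx' (covF22a hx hx') (covF51 hx hx') (x1 hx) (x2 hx')
        Pool.Agent.Strip051.G.IE1.Tab.C.FA25.c_pp_213_a noCut_VA noExt_VA F r1 r2 ⟨r1, h⟩ r2)
      (fun h => farXA_cert (s1 := true) (s2 := true) rfl hκ (ka0 hκ hx hx') (xa0 hx) hx' (covF22b hx hx') (covF51 hx hx') (x1 hx) (x2 hx')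
        Pool.Agent.Strip051.G.IE1.Tab.C.FA25.c_pp_213_b noCut_VA noExt_VA F r1 r2 ⟨r1, h⟩ r2)

theorem FA25_pp_303 {κ x : ℝ} (hκ : κ * h0 = kenE x) (hx : 39 / 40 ≤ x) (hx' : x < 1) :
    TriA (DD x).cur (farD κ (h0 * x) (tbl tKF x) (tbl tL x)) 3 0 3 2 5 1 1 :=
  (sideF hx hx').farA (Or.inl rfl) (Or.inl rfl) fun y y' F r1 r2 =>
    farXA_cert (s1 := true) (s2 := true) rfl hκ (ka0 hκ hx hx') (xa0 hx) hx' (covF23 hx hx') (covF50 hx hx') (x1 hx) (x2 hx')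
        Pool.Agent.Strip051.G.IE1.Tab.C.FA25.c_pp_303 noCut_VA noExt_VA F r1 r2 r1 r2

theorem FA25_pp_313 {κ x : ℝ} (hκ : κ * h0 = kenE x) (hx : 39 / 40 ≤ x) (hx' : x < 1) :
    TriA (DD x).cur (farD κ (h0 * x) (tbl tKF x) (tbl tL x)) 3 1 3 2 5 1 1 :=
  (sideF hx hx').farA (Or.inl rfl) (Or.inl rfl) fun y y' F r1 r2 =>
    farXA_cert (s1 := true) (s2 := true) rfl hκ (ka0 hκ hx hx') (xa0 hx) hx' (covF23 hx hx') (covF51 hx hx') (x1 hx) (x2 hx')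
        Pool.Agent.Strip051.G.IE1.Tab.C.FA25.c_pp_313 noCut_VA noExt_VA F r1 r2 r1 r2

theorem FA25_pm_001 {κ x : ℝ} (hκ : κ * h0 = kenE x) (hx : 39 / 40 ≤ x) (hx' : x < 1) :
    TriA (DD x).cur (farD κ (h0 * x) (tbl tKF x) (tbl tL x)) 0 0 1 2 5 1 (-1) :=
  (sideF hx hx').farA (Or.inl rfl) (Or.inr rfl) fun y y' F r1 r2 =>
    farXA_cert (s1 := true) (s2 := false) rfl hκ (ka0 hκ hx hx') (xa0 hx) hx' (covF20 hx hx') (covF50 hx hx') (x1 hx) (x2 hx')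
        Pool.Agent.Strip051.G.IE1.Tab.C.FA25.c_pm_001 noCut_VA noExt_VA F r1 r2 r1 r2

theorem FA25_pm_011 {κ x : ℝ} (hκ : κ * h0 = kenE x) (hx : 39 / 40 ≤ x) (hx' : x < 1) :
    TriA (DD x).cur (farD κ (h0 * x) (tbl tKF x) (tbl tL x)) 0 1 1 2 5 1 (-1) :=
  (sideF hx hx').farA (Or.inl rfl) (Or.inr rfl) fun y y' F r1 r2 =>
    farXA_cert (s1 := true) (s2 := false) rfl hκ (ka0 hκ hx hx') (xa0 hx) hx' (covF20 hx hx') (covF51 hx hx') (x1 hx) (x2 hx')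
        Pool.Agent.Strip051.G.IE1.Tab.C.FA25.c_pm_011 noCut_VA noExt_VA F r1 r2 r1 r2

theorem FA25_pm_012 {κ x : ℝ} (hκ : κ * h0 = kenE x) (hx : 39 / 40 ≤ x) (hx' : x < 1) :
    TriA (DD x).cur (farD κ (h0 * x) (tbl tKF x) (tbl tL x)) 0 1 2 2 5 1 (-1) :=
  (sideF hx hx').farA (Or.inl rfl) (Or.inr rfl) fun y y' F r1 r2 =>
    farXA_cert (s1 := true) (s2 := false) rfl hκ (ka0 hκ hx hx') (xa0 hx) hx' (covF20 hx hx') (covF51 hx hx') (x1 hx) (x2 hx')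
        Pool.Agent.Strip051.G.IE1.Tab.C.FA25.c_pm_012 noCut_VA noExt_VA F r1 r2 r1 r2

theorem FA25_pm_022 {κ x : ℝ} (hκ : κ * h0 = kenE x) (hx : 39 / 40 ≤ x) (hx' : x < 1) :
    TriA (DD x).cur (farD κ (h0 * x) (tbl tKF x) (tbl tL x)) 0 2 2 2 5 1 (-1) :=
  (sideF hx hx').farA (Or.inl rfl) (Or.inr rfl) fun y y' F r1 r2 =>
    farXA_cert (s1 := true) (s2 := false) rfl hκ (ka0 hκ hx hx') (xa0 hx) hx' (covF20 hx hx') (covF52 hx hx') (x1 hx) (x2 hx')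
        Pool.Agent.Strip051.G.IE1.Tab.C.FA25.c_pm_022 noCut_VA noExt_VA F r1 r2 r1 r2

theorem FA25_pm_023 {κ x : ℝ} (hκ : κ * h0 = kenE x) (hx : 39 / 40 ≤ x) (hx' : x < 1) :
    TriA (DD x).cur (farD κ (h0 * x) (tbl tKF x) (tbl tL x)) 0 2 3 2 5 1 (-1) :=
  (sideF hx hx').farA (Or.inl rfl) (Or.inr rfl) fun y y' F r1 r2 =>
    farXA_cert (s1 := true) (s2 := false) rfl hκ (ka0 hκ hx hx') (xa0 hx) hx' (covF20 hx hx') (covF52 hx hx') (x1 hx) (x2 hx')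
        Pool.Agent.Strip051.G.IE1.Tab.C.FA25.c_pm_023 noCut_VA noExt_VA F r1 r2 r1 r2

theorem FA25_pm_033 {κ x : ℝ} (hκ : κ * h0 = kenE x) (hx : 39 / 40 ≤ x) (hx' : x < 1) :
    TriA (DD x).cur (farD κ (h0 * x) (tbl tKF x) (tbl tL x)) 0 3 3 2 5 1 (-1) :=
  (sideF hx hx').farA (Or.inl rfl) (Or.inr rfl) fun y y' F r1 r2 =>
    farXA_cert (s1 := true) (s2 := false) rfl hκ (ka0 hκ hx hx') (xa0 hx) hx' (covF20 hx hx') (covF53 hx hx') (x1 hx) (x2 hx')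
        Pool.Agent.Strip051.G.IE1.Tab.C.FA25.c_pm_033 noCut_VA noExt_VA F r1 r2 r1 r2

theorem FA25_pm_101 {κ x : ℝ} (hκ : κ * h0 = kenE x) (hx : 39 / 40 ≤ x) (hx' : x < 1) :
    TriA (DD x).cur (farD κ (h0 * x) (tbl tKF x) (tbl tL x)) 1 0 1 2 5 1 (-1) :=
  (sideF hx hx').farA (Or.inl rfl) (Or.inr rfl) fun y y' F r1 r2 =>
    farXA_cert (s1 := true) (s2 := false) rfl hκ (ka0 hκ hx hx') (xa0 hx) hx' (covF21 hx hx') (covF50 hx hx') (x1 hx) (x2 hx')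
        Pool.Agent.Strip051.G.IE1.Tab.C.FA25.c_pm_101 noCut_VA noExt_VA F r1 r2 r1 r2

theorem FA25_pm_102 {κ x : ℝ} (hκ : κ * h0 = kenE x) (hx : 39 / 40 ≤ x) (hx' : x < 1) :
    TriA (DD x).cur (farD κ (h0 * x) (tbl tKF x) (tbl tL x)) 1 0 2 2 5 1 (-1) :=
  (sideF hx hx').farA (Or.inl rfl) (Or.inr rfl) fun y y' F r1 r2 =>
    farXA_cert (s1 := true) (s2 := false) rfl hκ (ka0 hκ hx hx') (xa0 hx) hx' (covF21 hx hx') (covF50 hx hx') (x1 hx) (x2 hx')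
        Pool.Agent.Strip051.G.IE1.Tab.C.FA25.c_pm_102 noCut_VA noExt_VA F r1 r2 r1 r2

theorem FA25_pm_112 {κ x : ℝ} (hκ : κ * h0 = kenE x) (hx : 39 / 40 ≤ x) (hx' : x < 1) :
    TriA (DD x).cur (farD κ (h0 * x) (tbl tKF x) (tbl tL x)) 1 1 2 2 5 1 (-1) :=
  (sideF hx hx').farA (Or.inl rfl) (Or.inr rfl) fun y y' F r1 r2 =>
    farXA_cert (s1 := true) (s2 := false) rfl hκ (ka0 hκ hx hx') (xa0 hx) hx' (covF21 hx hx') (covF51 hx hx') (x1 hx) (x2 hx')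
        Pool.Agent.Strip051.G.IE1.Tab.C.FA25.c_pm_112 noCut_VA noExt_VA F r1 r2 r1 r2

theorem FA25_pm_113 {κ x : ℝ} (hκ : κ * h0 = kenE x) (hx : 39 / 40 ≤ x) (hx' : x < 1) :
    TriA (DD x).cur (farD κ (h0 * x) (tbl tKF x) (tbl tL x)) 1 1 3 2 5 1 (-1) :=
  (sideF hx hx').farA (Or.inl rfl) (Or.inr rfl) fun y y' F r1 r2 =>
    farXA_cert (s1 := true) (s2 := false) rfl hκ (ka0 hκ hx hx') (xa0 hx) hx' (covF21 hx hx') (covF51 hx hx') (x1 hx) (x2 hx')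
        Pool.Agent.Strip051.G.IE1.Tab.C.FA25.c_pm_113 noCut_VA noExt_VA F r1 r2 r1 r2

theorem FA25_pm_123 {κ x : ℝ} (hκ : κ * h0 = kenE x) (hx : 39 / 40 ≤ x) (hx' : x < 1) :
    TriA (DD x).cur (farD κ (h0 * x) (tbl tKF x) (tbl tL x)) 1 2 3 2 5 1 (-1) :=
  (sideF hx hx').farA (Or.inl rfl) (Or.inr rfl) fun y y' F r1 r2 =>
    farXA_cert (s1 := true) (s2 := false) rfl hκ (ka0 hκ hx hx') (xa0 hx) hx' (covF21 hx hx') (covF52 hx hx') (x1 hx) (x2 hx')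
        Pool.Agent.Strip051.G.IE1.Tab.C.FA25.c_pm_123 noCut_VA noExt_VA F r1 r2 r1 r2

theorem FA25_pm_133 {κ x : ℝ} (hκ : κ * h0 = kenE x) (hx : 39 / 40 ≤ x) (hx' : x < 1) :
    TriA (DD x).cur (farD κ (h0 * x) (tbl tKF x) (tbl tL x)) 1 3 3 2 5 1 (-1) :=
  (sideF hx hx').farA (Or.inl rfl) (Or.inr rfl) fun y y' F r1 r2 =>
    farXA_cert (s1 := true) (s2 := false) rfl hκ (ka0 hκ hx hx') (xa0 hx) hx' (covF21 hx hx') (covF53 hx hx') (x1 hx) (x2 hx')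
        Pool.Agent.Strip051.G.IE1.Tab.C.FA25.c_pm_133 noCut_VA noExt_VA F r1 r2 r1 r2

theorem FA25_pm_202 {κ x : ℝ} (hκ : κ * h0 = kenE x) (hx : 39 / 40 ≤ x) (hx' : x < 1) :
    TriA (DD x).cur (farD κ (h0 * x) (tbl tKF x) (tbl tL x)) 2 0 2 2 5 1 (-1) :=
  (sideF hx hx').farA (Or.inl rfl) (Or.inr rfl) fun y y' F r1 r2 =>
    (lt_or_ge (h0 * y) 1).elim
      (fun h => farXA_cert (s1 := true) (s2 := false) rfl hκ (ka0 hκ hx hx') (xa0 hx) hx' (covF22a hx hx') (covF50 hx hx') (x1 hx) (x2 hx')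
        Pool.Agent.Strip051.G.IE1.Tab.C.FA25.c_pm_202_a noCut_VA noExt_VA F r1 r2 ⟨r1, h⟩ r2)
      (fun h => farXA_cert (s1 := true) (s2 := false) rfl hκ (ka0 hκ hx hx') (xa0 hx) hx' (covF22b hx hx') (covF50 hx hx') (x1 hx) (x2 hx')
        Pool.Agent.Strip051.G.IE1.Tab.C.FA25.c_pm_202_b noCut_VA noExt_VA F r1 r2 ⟨r1, h⟩ r2)

theorem FA25_pm_203 {κ x : ℝ} (hκ : κ * h0 = kenE x) (hx : 39 / 40 ≤ x) (hx' : x < 1) :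
    TriA (DD x).cur (farD κ (h0 * x) (tbl tKF x) (tbl tL x)) 2 0 3 2 5 1 (-1) :=
  (sideF hx hx').farA (Or.inl rfl) (Or.inr rfl) fun y y' F r1 r2 =>
    (lt_or_ge (h0 * y) 1).elim
      (fun h => farXA_cert (s1 := true) (s2 := false) rfl hκ (ka0 hκ hx hx') (xa0 hx) hx' (covF22a hx hx') (covF50 hx hx') (x1 hx) (x2 hx')
        Pool.Agent.Strip051.G.IE1.Tab.C.FA25.c_pm_203_a noCut_VA noExt_VA F r1 r2 ⟨r1, h⟩ r2)
      (fun h => farXA_cert (s1 := true) (s2 := false) rfl hκ (ka0 hκ hx hx') (xa0 hx) hx' (covF22b hx hx') (covF50 hx hx') (x1 hx) (x2 hx')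
        Pool.Agent.Strip051.G.IE1.Tab.C.FA25.c_pm_203_b noCut_VA noExt_VA F r1 r2 ⟨r1, h⟩ r2)

theorem FA25_pm_213 {κ x : ℝ} (hκ : κ * h0 = kenE x) (hx : 39 / 40 ≤ x) (hx' : x < 1) :
    TriA (DD x).cur (farD κ (h0 * x) (tbl tKF x) (tbl tL x)) 2 1 3 2 5 1 (-1) :=
  (sideF hx hx').farA (Or.inl rfl) (Or.inr rfl) fun y y' F r1 r2 =>
    (lt_or_ge (h0 * y) 1).elim
      (fun h => farXA_cert (s1 := true) (s2 := false) rfl hκ (ka0 hκ hx hx') (xa0 hx) hx' (covF22a hx hx') (covF51 hx hx') (x1 hx) (x2 hx')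
        Pool.Agent.Strip051.G.IE1.Tab.C.FA25.c_pm_213_a noCut_VA noExt_VA F r1 r2 ⟨r1, h⟩ r2)
      (fun h => farXA_cert (s1 := true) (s2 := false) rfl hκ (ka0 hκ hx hx') (xa0 hx) hx' (covF22b hx hx') (covF51 hx hx') (x1 hx) (x2 hx')
        Pool.Agent.Strip051.G.IE1.Tab.C.FA25.c_pm_213_b noCut_VA noExt_VA F r1 r2 ⟨r1, h⟩ r2)

theorem FA25_pm_303 {κ x : ℝ} (hκ : κ * h0 = kenE x) (hx : 39 / 40 ≤ x) (hx' : x < 1) :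
    TriA (DD x).cur (farD κ (h0 * x) (tbl tKF x) (tbl tL x)) 3 0 3 2 5 1 (-1) :=
  (sideF hx hx').farA (Or.inl rfl) (Or.inr rfl) fun y y' F r1 r2 =>
    farXA_cert (s1 := true) (s2 := false) rfl hκ (ka0 hκ hx hx') (xa0 hx) hx' (covF23 hx hx') (covF50 hx hx') (x1 hx) (x2 hx')
        Pool.Agent.Strip051.G.IE1.Tab.C.FA25.c_pm_303 noCut_VA noExt_VA F r1 r2 r1 r2

theorem FA25_pm_313 {κ x : ℝ} (hκ : κ * h0 = kenE x) (hx : 39 / 40 ≤ x) (hx' : x < 1) :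
    TriA (DD x).cur (farD κ (h0 * x) (tbl tKF x) (tbl tL x)) 3 1 3 2 5 1 (-1) :=
  (sideF hx hx').farA (Or.inl rfl) (Or.inr rfl) fun y y' F r1 r2 =>
    farXA_cert (s1 := true) (s2 := false) rfl hκ (ka0 hκ hx hx') (xa0 hx) hx' (covF23 hx hx') (covF51 hx hx') (x1 hx) (x2 hx')
        Pool.Agent.Strip051.G.IE1.Tab.C.FA25.c_pm_313 noCut_VA noExt_VA F r1 r2 r1 r2

theorem FA25_mm_001 {κ x : ℝ} (hκ : κ * h0 = kenE x) (hx : 39 / 40 ≤ x) (hx' : x < 1) :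
    TriA (DD x).cur (farD κ (h0 * x) (tbl tKF x) (tbl tL x)) 0 0 1 2 5 (-1) (-1) :=
  (sideF hx hx').farA (Or.inr rfl) (Or.inr rfl) fun y y' F r1 r2 =>
    farXA_cert (s1 := false) (s2 := false) rfl hκ (ka0 hκ hx hx') (xa0 hx) hx' (covF20 hx hx') (covF50 hx hx') (x1 hx) (x2 hx')
        Pool.Agent.Strip051.G.IE1.Tab.C.FA25.c_mm_001 noCut_VA noExt_VA F r1 r2 r1 r2

theorem FA25_mm_011 {κ x : ℝ} (hκ : κ * h0 = kenE x) (hx : 39 / 40 ≤ x) (hx' : x < 1) :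
    TriA (DD x).cur (farD κ (h0 * x) (tbl tKF x) (tbl tL x)) 0 1 1 2 5 (-1) (-1) :=
  (sideF hx hx').farA (Or.inr rfl) (Or.inr rfl) fun y y' F r1 r2 =>
    farXA_cert (s1 := false) (s2 := false) rfl hκ (ka0 hκ hx hx') (xa0 hx) hx' (covF20 hx hx') (covF51 hx hx') (x1 hx) (x2 hx')
        Pool.Agent.Strip051.G.IE1.Tab.C.FA25.c_mm_011 noCut_VA noExt_VA F r1 r2 r1 r2

theorem FA25_mm_012 {κ x : ℝ} (hκ : κ * h0 = kenE x) (hx : 39 / 40 ≤ x) (hx' : x < 1) :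
    TriA (DD x).cur (farD κ (h0 * x) (tbl tKF x) (tbl tL x)) 0 1 2 2 5 (-1) (-1) :=
  (sideF hx hx').farA (Or.inr rfl) (Or.inr rfl) fun y y' F r1 r2 =>
    farXA_cert (s1 := false) (s2 := false) rfl hκ (ka0 hκ hx hx') (xa0 hx) hx' (covF20 hx hx') (covF51 hx hx') (x1 hx) (x2 hx')
        Pool.Agent.Strip051.G.IE1.Tab.C.FA25.c_mm_012 noCut_VA noExt_VA F r1 r2 r1 r2

theorem FA25_mm_022 {κ x : ℝ} (hκ : κ * h0 = kenE x) (hx : 39 / 40 ≤ x) (hx' : x < 1) :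
    TriA (DD x).cur (farD κ (h0 * x) (tbl tKF x) (tbl tL x)) 0 2 2 2 5 (-1) (-1) :=
  (sideF hx hx').farA (Or.inr rfl) (Or.inr rfl) fun y y' F r1 r2 =>
    farXA_cert (s1 := false) (s2 := false) rfl hκ (ka0 hκ hx hx') (xa0 hx) hx' (covF20 hx hx') (covF52 hx hx') (x1 hx) (x2 hx')
        Pool.Agent.Strip051.G.IE1.Tab.C.FA25.c_mm_022 noCut_VA noExt_VA F r1 r2 r1 r2

theorem FA25_mm_023 {κ x : ℝ} (hκ : κ * h0 = kenE x) (hx : 39 / 40 ≤ x) (hx' : x < 1) :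
    TriA (DD x).cur (farD κ (h0 * x) (tbl tKF x) (tbl tL x)) 0 2 3 2 5 (-1) (-1) :=
  (sideF hx hx').farA (Or.inr rfl) (Or.inr rfl) fun y y' F r1 r2 =>
    farXA_cert (s1 := false) (s2 := false) rfl hκ (ka0 hκ hx hx') (xa0 hx) hx' (covF20 hx hx') (covF52 hx hx') (x1 hx) (x2 hx')
        Pool.Agent.Strip051.G.IE1.Tab.C.FA25.c_mm_023 noCut_VA noExt_VA F r1 r2 r1 r2

theorem FA25_mm_033 {κ x : ℝ} (hκ : κ * h0 = kenE x) (hx : 39 / 40 ≤ x) (hx' : x < 1) :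
    TriA (DD x).cur (farD κ (h0 * x) (tbl tKF x) (tbl tL x)) 0 3 3 2 5 (-1) (-1) :=
  (sideF hx hx').farA (Or.inr rfl) (Or.inr rfl) fun y y' F r1 r2 =>
    farXA_cert (s1 := false) (s2 := false) rfl hκ (ka0 hκ hx hx') (xa0 hx) hx' (covF20 hx hx') (covF53 hx hx') (x1 hx) (x2 hx')
        Pool.Agent.Strip051.G.IE1.Tab.C.FA25.c_mm_033 noCut_VA noExt_VA F r1 r2 r1 r2

theorem FA25_mm_101 {κ x : ℝ} (hκ : κ * h0 = kenE x) (hx : 39 / 40 ≤ x) (hx' : x < 1) :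
    TriA (DD x).cur (farD κ (h0 * x) (tbl tKF x) (tbl tL x)) 1 0 1 2 5 (-1) (-1) :=
  (sideF hx hx').farA (Or.inr rfl) (Or.inr rfl) fun y y' F r1 r2 =>
    farXA_cert (s1 := false) (s2 := false) rfl hκ (ka0 hκ hx hx') (xa0 hx) hx' (covF21 hx hx') (covF50 hx hx') (x1 hx) (x2 hx')
        Pool.Agent.Strip051.G.IE1.Tab.C.FA25.c_mm_101 noCut_VA noExt_VA F r1 r2 r1 r2

theorem FA25_mm_102 {κ x : ℝ} (hκ : κ * h0 = kenE x) (hx : 39 / 40 ≤ x) (hx' : x < 1) :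
    TriA (DD x).cur (farD κ (h0 * x) (tbl tKF x) (tbl tL x)) 1 0 2 2 5 (-1) (-1) :=
  (sideF hx hx').farA (Or.inr rfl) (Or.inr rfl) fun y y' F r1 r2 =>
    farXA_cert (s1 := false) (s2 := false) rfl hκ (ka0 hκ hx hx') (xa0 hx) hx' (covF21 hx hx') (covF50 hx hx') (x1 hx) (x2 hx')
        Pool.Agent.Strip051.G.IE1.Tab.C.FA25.c_mm_102 noCut_VA noExt_VA F r1 r2 r1 r2

theorem FA25_mm_112 {κ x : ℝ} (hκ : κ * h0 = kenE x) (hx : 39 / 40 ≤ x) (hx' : x < 1) :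
    TriA (DD x).cur (farD κ (h0 * x) (tbl tKF x) (tbl tL x)) 1 1 2 2 5 (-1) (-1) :=
  (sideF hx hx').farA (Or.inr rfl) (Or.inr rfl) fun y y' F r1 r2 =>
    farXA_cert (s1 := false) (s2 := false) rfl hκ (ka0 hκ hx hx') (xa0 hx) hx' (covF21 hx hx') (covF51 hx hx') (x1 hx) (x2 hx')
        Pool.Agent.Strip051.G.IE1.Tab.C.FA25.c_mm_112 noCut_VA noExt_VA F r1 r2 r1 r2

theorem FA25_mm_113 {κ x : ℝ} (hκ : κ * h0 = kenE x) (hx : 39 / 40 ≤ x) (hx' : x < 1) :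
    TriA (DD x).cur (farD κ (h0 * x) (tbl tKF x) (tbl tL x)) 1 1 3 2 5 (-1) (-1) :=
  (sideF hx hx').farA (Or.inr rfl) (Or.inr rfl) fun y y' F r1 r2 =>
    farXA_cert (s1 := false) (s2 := false) rfl hκ (ka0 hκ hx hx') (xa0 hx) hx' (covF21 hx hx') (covF51 hx hx') (x1 hx) (x2 hx')
        Pool.Agent.Strip051.G.IE1.Tab.C.FA25.c_mm_113 noCut_VA noExt_VA F r1 r2 r1 r2

theorem FA25_mm_123 {κ x : ℝ} (hκ : κ * h0 = kenE x) (hx : 39 / 40 ≤ x) (hx' : x < 1) :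
    TriA (DD x).cur (farD κ (h0 * x) (tbl tKF x) (tbl tL x)) 1 2 3 2 5 (-1) (-1) :=
  (sideF hx hx').farA (Or.inr rfl) (Or.inr rfl) fun y y' F r1 r2 =>
    farXA_cert (s1 := false) (s2 := false) rfl hκ (ka0 hκ hx hx') (xa0 hx) hx' (covF21 hx hx') (covF52 hx hx') (x1 hx) (x2 hx')
        Pool.Agent.Strip051.G.IE1.Tab.C.FA25.c_mm_123 noCut_VA noExt_VA F r1 r2 r1 r2

theorem FA25_mm_133 {κ x : ℝ} (hκ : κ * h0 = kenE x) (hx : 39 / 40 ≤ x) (hx' : x < 1) :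
    TriA (DD x).cur (farD κ (h0 * x) (tbl tKF x) (tbl tL x)) 1 3 3 2 5 (-1) (-1) :=
  (sideF hx hx').farA (Or.inr rfl) (Or.inr rfl) fun y y' F r1 r2 =>
    farXA_cert (s1 := false) (s2 := false) rfl hκ (ka0 hκ hx hx') (xa0 hx) hx' (covF21 hx hx') (covF53 hx hx') (x1 hx) (x2 hx')
        Pool.Agent.Strip051.G.IE1.Tab.C.FA25.c_mm_133 noCut_VA noExt_VA F r1 r2 r1 r2

theorem FA25_mm_202 {κ x : ℝ} (hκ : κ * h0 = kenE x) (hx : 39 / 40 ≤ x) (hx' : x < 1) :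
    TriA (DD x).cur (farD κ (h0 * x) (tbl tKF x) (tbl tL x)) 2 0 2 2 5 (-1) (-1) :=
  (sideF hx hx').farA (Or.inr rfl) (Or.inr rfl) fun y y' F r1 r2 =>
    (lt_or_ge (h0 * y) 1).elim
      (fun h => farXA_cert (s1 := false) (s2 := false) rfl hκ (ka0 hκ hx hx') (xa0 hx) hx' (covF22a hx hx') (covF50 hx hx') (x1 hx) (x2 hx')
        Pool.Agent.Strip051.G.IE1.Tab.C.FA25.c_mm_202_a noCut_VA noExt_VA F r1 r2 ⟨r1, h⟩ r2)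
      (fun h => farXA_cert (s1 := false) (s2 := false) rfl hκ (ka0 hκ hx hx') (xa0 hx) hx' (covF22b hx hx') (covF50 hx hx') (x1 hx) (x2 hx')
        Pool.Agent.Strip051.G.IE1.Tab.C.FA25.c_mm_202_b noCut_VA noExt_VA F r1 r2 ⟨r1, h⟩ r2)

theorem FA25_mm_203 {κ x : ℝ} (hκ : κ * h0 = kenE x) (hx : 39 / 40 ≤ x) (hx' : x < 1) :
    TriA (DD x).cur (farD κ (h0 * x) (tbl tKF x) (tbl tL x)) 2 0 3 2 5 (-1) (-1) :=
  (sideF hx hx').farA (Or.inr rfl) (Or.inr rfl) fun y y' F r1 r2 =>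
    (lt_or_ge (h0 * y) 1).elim
      (fun h => farXA_cert (s1 := false) (s2 := false) rfl hκ (ka0 hκ hx hx') (xa0 hx) hx' (covF22a hx hx') (covF50 hx hx') (x1 hx) (x2 hx')
        Pool.Agent.Strip051.G.IE1.Tab.C.FA25.c_mm_203_a noCut_VA noExt_VA F r1 r2 ⟨r1, h⟩ r2)
      (fun h => farXA_cert (s1 := false) (s2 := false) rfl hκ (ka0 hκ hx hx') (xa0 hx) hx' (covF22b hx hx') (covF50 hx hx') (x1 hx) (x2 hx')
        Pool.Agent.Strip051.G.IE1.Tab.C.FA25.c_mm_203_b noCut_VA noExt_VA F r1 r2 ⟨r1, h⟩ r2)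

theorem FA25_mm_213 {κ x : ℝ} (hκ : κ * h0 = kenE x) (hx : 39 / 40 ≤ x) (hx' : x < 1) :
    TriA (DD x).cur (farD κ (h0 * x) (tbl tKF x) (tbl tL x)) 2 1 3 2 5 (-1) (-1) :=
  (sideF hx hx').farA (Or.inr rfl) (Or.inr rfl) fun y y' F r1 r2 =>
    (lt_or_ge (h0 * y) 1).elim
      (fun h => farXA_cert (s1 := false) (s2 := false) rfl hκ (ka0 hκ hx hx') (xa0 hx) hx' (covF22a hx hx') (covF51 hx hx') (x1 hx) (x2 hx')
        Pool.Agent.Strip051.G.IE1.Tab.C.FA25.c_mm_213_a noCut_VA noExt_VA F r1 r2 ⟨r1, h⟩ r2)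
      (fun h => farXA_cert (s1 := false) (s2 := false) rfl hκ (ka0 hκ hx hx') (xa0 hx) hx' (covF22b hx hx') (covF51 hx hx') (x1 hx) (x2 hx')
        Pool.Agent.Strip051.G.IE1.Tab.C.FA25.c_mm_213_b noCut_VA noExt_VA F r1 r2 ⟨r1, h⟩ r2)

theorem FA25_mm_303 {κ x : ℝ} (hκ : κ * h0 = kenE x) (hx : 39 / 40 ≤ x) (hx' : x < 1) :
    TriA (DD x).cur (farD κ (h0 * x) (tbl tKF x) (tbl tL x)) 3 0 3 2 5 (-1) (-1) :=
  (sideF hx hx').farA (Or.inr rfl) (Or.inr rfl) fun y y' F r1 r2 =>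
    farXA_cert (s1 := false) (s2 := false) rfl hκ (ka0 hκ hx hx') (xa0 hx) hx' (covF23 hx hx') (covF50 hx hx') (x1 hx) (x2 hx')
        Pool.Agent.Strip051.G.IE1.Tab.C.FA25.c_mm_303 noCut_VA noExt_VA F r1 r2 r1 r2

theorem FA25_mm_313 {κ x : ℝ} (hκ : κ * h0 = kenE x) (hx : 39 / 40 ≤ x) (hx' : x < 1) :
    TriA (DD x).cur (farD κ (h0 * x) (tbl tKF x) (tbl tL x)) 3 1 3 2 5 (-1) (-1) :=
  (sideF hx hx').farA (Or.inr rfl) (Or.inr rfl) fun y y' F r1 r2 =>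
    farXA_cert (s1 := false) (s2 := false) rfl hκ (ka0 hκ hx hx') (xa0 hx) hx' (covF23 hx hx') (covF51 hx hx') (x1 hx) (x2 hx')
        Pool.Agent.Strip051.G.IE1.Tab.C.FA25.c_mm_313 noCut_VA noExt_VA F r1 r2 r1 r2

theorem FA25 {κ x : ℝ} (hκ : κ * h0 = kenE x) (hx : 39 / 40 ≤ x) (hx' : x < 1) : AllTA (DD x).cur (farD κ (h0 * x) (tbl tKF x) (tbl tL x)) 2 5 where
  pp := all17 (Q := fun a b c => TriA (DD x).cur (farD κ (h0 * x) (tbl tKF x) (tbl tL x)) a b c 2 5 1 1)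
    (FA25_pp_001 hκ hx hx') (FA25_pp_011 hκ hx hx') (FA25_pp_012 hκ hx hx') (FA25_pp_022 hκ hx hx') (FA25_pp_023 hκ hx hx') (FA25_pp_033 hκ hx hx') (FA25_pp_101 hκ hx hx') (FA25_pp_102 hκ hx hx') (FA25_pp_112 hκ hx hx') (FA25_pp_113 hκ hx hx') (FA25_pp_123 hκ hx hx') (FA25_pp_133 hκ hx hx') (FA25_pp_202 hκ hx hx') (FA25_pp_203 hκ hx hx') (FA25_pp_213 hκ hx hx') (FA25_pp_303 hκ hx hx') (FA25_pp_313 hκ hx hx')
  pm := all17 (Q := fun a b c => TriA (DD x).cur (farD κ (h0 * x) (tbl tKF x) (tbl tL x)) a b c 2 5 1 (-1))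
    (FA25_pm_001 hκ hx hx') (FA25_pm_011 hκ hx hx') (FA25_pm_012 hκ hx hx') (FA25_pm_022 hκ hx hx') (FA25_pm_023 hκ hx hx') (FA25_pm_033 hκ hx hx') (FA25_pm_101 hκ hx hx') (FA25_pm_102 hκ hx hx') (FA25_pm_112 hκ hx hx') (FA25_pm_113 hκ hx hx') (FA25_pm_123 hκ hx hx') (FA25_pm_133 hκ hx hx') (FA25_pm_202 hκ hx hx') (FA25_pm_203 hκ hx hx') (FA25_pm_213 hκ hx hx') (FA25_pm_303 hκ hx hx') (FA25_pm_313 hκ hx hx')
  mm := all17 (Q := fun a b c => TriA (DD x).cur (farD κ (h0 * x) (tbl tKF x) (tbl tL x)) a b c 2 5 (-1) (-1))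
    (FA25_mm_001 hκ hx hx') (FA25_mm_011 hκ hx hx') (FA25_mm_012 hκ hx hx') (FA25_mm_022 hκ hx hx') (FA25_mm_023 hκ hx hx') (FA25_mm_033 hκ hx hx') (FA25_mm_101 hκ hx hx') (FA25_mm_102 hκ hx hx') (FA25_mm_112 hκ hx hx') (FA25_mm_113 hκ hx hx') (FA25_mm_123 hκ hx hx') (FA25_mm_133 hκ hx hx') (FA25_mm_202 hκ hx hx') (FA25_mm_203 hκ hx hx') (FA25_mm_213 hκ hx hx') (FA25_mm_303 hκ hx hx') (FA25_mm_313 hκ hx hx')

theorem FA26_pp_001 {κ x : ℝ} (hκ : κ * h0 = kenE x) (hx : 39 / 40 ≤ x) (hx' : x < 1) :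
    TriA (DD x).cur (farD κ (h0 * x) (tbl tKF x) (tbl tL x)) 0 0 1 2 6 1 1 :=
  (sideF hx hx').farA (Or.inl rfl) (Or.inl rfl) fun y y' F r1 r2 =>
    farXA_cert (s1 := true) (s2 := true) rfl hκ (ka0 hκ hx hx') (xa0 hx) hx' (covF20 hx hx') (covF60 hx hx') (x1 hx) (x2 hx')
        Pool.Agent.Strip051.G.IE1.Tab.C.FA26.c_pp_001 noCut_VA noExt_VA F r1 r2 r1 r2

theorem FA26_pp_011 {κ x : ℝ} (hκ : κ * h0 = kenE x) (hx : 39 / 40 ≤ x) (hx' : x < 1) :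
    TriA (DD x).cur (farD κ (h0 * x) (tbl tKF x) (tbl tL x)) 0 1 1 2 6 1 1 :=
  (sideF hx hx').farA (Or.inl rfl) (Or.inl rfl) fun y y' F r1 r2 =>
    farXA_cert (s1 := true) (s2 := true) rfl hκ (ka0 hκ hx hx') (xa0 hx) hx' (covF20 hx hx') (covF61 hx hx') (x1 hx) (x2 hx')
        Pool.Agent.Strip051.G.IE1.Tab.C.FA26.c_pp_011 noCut_VA noExt_VA F r1 r2 r1 r2

theorem FA26_pp_012 {κ x : ℝ} (hκ : κ * h0 = kenE x) (hx : 39 / 40 ≤ x) (hx' : x < 1) :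
    TriA (DD x).cur (farD κ (h0 * x) (tbl tKF x) (tbl tL x)) 0 1 2 2 6 1 1 :=
  (sideF hx hx').farA (Or.inl rfl) (Or.inl rfl) fun y y' F r1 r2 =>
    farXA_cert (s1 := true) (s2 := true) rfl hκ (ka0 hκ hx hx') (xa0 hx) hx' (covF20 hx hx') (covF61 hx hx') (x1 hx) (x2 hx')
        Pool.Agent.Strip051.G.IE1.Tab.C.FA26.c_pp_012 noCut_VA noExt_VA F r1 r2 r1 r2

theorem FA26_pp_022 {κ x : ℝ} (hκ : κ * h0 = kenE x) (hx : 39 / 40 ≤ x) (hx' : x < 1) :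
    TriA (DD x).cur (farD κ (h0 * x) (tbl tKF x) (tbl tL x)) 0 2 2 2 6 1 1 :=
  (sideF hx hx').farA (Or.inl rfl) (Or.inl rfl) fun y y' F r1 r2 =>
    farXA_cert (s1 := true) (s2 := true) rfl hκ (ka0 hκ hx hx') (xa0 hx) hx' (covF20 hx hx') (covF62 hx hx') (x1 hx) (x2 hx')
        Pool.Agent.Strip051.G.IE1.Tab.C.FA26.c_pp_022 noCut_VA noExt_VA F r1 r2 r1 r2

theorem FA26_pp_023 {κ x : ℝ} (hκ : κ * h0 = kenE x) (hx : 39 / 40 ≤ x) (hx' : x < 1) :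
    TriA (DD x).cur (farD κ (h0 * x) (tbl tKF x) (tbl tL x)) 0 2 3 2 6 1 1 :=
  (sideF hx hx').farA (Or.inl rfl) (Or.inl rfl) fun y y' F r1 r2 =>
    farXA_cert (s1 := true) (s2 := true) rfl hκ (ka0 hκ hx hx') (xa0 hx) hx' (covF20 hx hx') (covF62 hx hx') (x1 hx) (x2 hx')
        Pool.Agent.Strip051.G.IE1.Tab.C.FA26.c_pp_023 noCut_VA noExt_VA F r1 r2 r1 r2

theorem FA26_pp_033 {κ x : ℝ} (hκ : κ * h0 = kenE x) (hx : 39 / 40 ≤ x) (hx' : x < 1) :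
    TriA (DD x).cur (farD κ (h0 * x) (tbl tKF x) (tbl tL x)) 0 3 3 2 6 1 1 :=
  (sideF hx hx').farA (Or.inl rfl) (Or.inl rfl) fun y y' F r1 r2 =>
    farXA_cert (s1 := true) (s2 := true) rfl hκ (ka0 hκ hx hx') (xa0 hx) hx' (covF20 hx hx') (covF63 hx hx') (x1 hx) (x2 hx')
        Pool.Agent.Strip051.G.IE1.Tab.C.FA26.c_pp_033 noCut_VA noExt_VA F r1 r2 r1 r2

theorem FA26_pp_101 {κ x : ℝ} (hκ : κ * h0 = kenE x) (hx : 39 / 40 ≤ x) (hx' : x < 1) :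
    TriA (DD x).cur (farD κ (h0 * x) (tbl tKF x) (tbl tL x)) 1 0 1 2 6 1 1 :=
  (sideF hx hx').farA (Or.inl rfl) (Or.inl rfl) fun y y' F r1 r2 =>
    farXA_cert (s1 := true) (s2 := true) rfl hκ (ka0 hκ hx hx') (xa0 hx) hx' (covF21 hx hx') (covF60 hx hx') (x1 hx) (x2 hx')
        Pool.Agent.Strip051.G.IE1.Tab.C.FA26.c_pp_101 noCut_VA noExt_VA F r1 r2 r1 r2

theorem FA26_pp_102 {κ x : ℝ} (hκ : κ * h0 = kenE x) (hx : 39 / 40 ≤ x) (hx' : x < 1) :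
    TriA (DD x).cur (farD κ (h0 * x) (tbl tKF x) (tbl tL x)) 1 0 2 2 6 1 1 :=
  (sideF hx hx').farA (Or.inl rfl) (Or.inl rfl) fun y y' F r1 r2 =>
    farXA_cert (s1 := true) (s2 := true) rfl hκ (ka0 hκ hx hx') (xa0 hx) hx' (covF21 hx hx') (covF60 hx hx') (x1 hx) (x2 hx')
        Pool.Agent.Strip051.G.IE1.Tab.C.FA26.c_pp_102 noCut_VA noExt_VA F r1 r2 r1 r2

theorem FA26_pp_112 {κ x : ℝ} (hκ : κ * h0 = kenE x) (hx : 39 / 40 ≤ x) (hx' : x < 1) :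
    TriA (DD x).cur (farD κ (h0 * x) (tbl tKF x) (tbl tL x)) 1 1 2 2 6 1 1 :=
  (sideF hx hx').farA (Or.inl rfl) (Or.inl rfl) fun y y' F r1 r2 =>
    farXA_cert (s1 := true) (s2 := true) rfl hκ (ka0 hκ hx hx') (xa0 hx) hx' (covF21 hx hx') (covF61 hx hx') (x1 hx) (x2 hx')
        Pool.Agent.Strip051.G.IE1.Tab.C.FA26.c_pp_112 noCut_VA noExt_VA F r1 r2 r1 r2

theorem FA26_pp_113 {κ x : ℝ} (hκ : κ * h0 = kenE x) (hx : 39 / 40 ≤ x) (hx' : x < 1) :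
    TriA (DD x).cur (farD κ (h0 * x) (tbl tKF x) (tbl tL x)) 1 1 3 2 6 1 1 :=
  (sideF hx hx').farA (Or.inl rfl) (Or.inl rfl) fun y y' F r1 r2 =>
    farXA_cert (s1 := true) (s2 := true) rfl hκ (ka0 hκ hx hx') (xa0 hx) hx' (covF21 hx hx') (covF61 hx hx') (x1 hx) (x2 hx')
        Pool.Agent.Strip051.G.IE1.Tab.C.FA26.c_pp_113 noCut_VA noExt_VA F r1 r2 r1 r2

theorem FA26_pp_123 {κ x : ℝ} (hκ : κ * h0 = kenE x) (hx : 39 / 40 ≤ x) (hx' : x < 1) :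
    TriA (DD x).cur (farD κ (h0 * x) (tbl tKF x) (tbl tL x)) 1 2 3 2 6 1 1 :=
  (sideF hx hx').farA (Or.inl rfl) (Or.inl rfl) fun y y' F r1 r2 =>
    farXA_cert (s1 := true) (s2 := true) rfl hκ (ka0 hκ hx hx') (xa0 hx) hx' (covF21 hx hx') (covF62 hx hx') (x1 hx) (x2 hx')
        Pool.Agent.Strip051.G.IE1.Tab.C.FA26.c_pp_123 noCut_VA noExt_VA F r1 r2 r1 r2

theorem FA26_pp_133 {κ x : ℝ} (hκ : κ * h0 = kenE x) (hx : 39 / 40 ≤ x) (hx' : x < 1) :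
    TriA (DD x).cur (farD κ (h0 * x) (tbl tKF x) (tbl tL x)) 1 3 3 2 6 1 1 :=
  (sideF hx hx').farA (Or.inl rfl) (Or.inl rfl) fun y y' F r1 r2 =>
    farXA_cert (s1 := true) (s2 := true) rfl hκ (ka0 hκ hx hx') (xa0 hx) hx' (covF21 hx hx') (covF63 hx hx') (x1 hx) (x2 hx')
        Pool.Agent.Strip051.G.IE1.Tab.C.FA26.c_pp_133 noCut_VA noExt_VA F r1 r2 r1 r2

theorem FA26_pp_202 {κ x : ℝ} (hκ : κ * h0 = kenE x) (hx : 39 / 40 ≤ x) (hx' : x < 1) :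
    TriA (DD x).cur (farD κ (h0 * x) (tbl tKF x) (tbl tL x)) 2 0 2 2 6 1 1 :=
  (sideF hx hx').farA (Or.inl rfl) (Or.inl rfl) fun y y' F r1 r2 =>
    (lt_or_ge (h0 * y) 1).elim
      (fun h => farXA_cert (s1 := true) (s2 := true) rfl hκ (ka0 hκ hx hx') (xa0 hx) hx' (covF22a hx hx') (covF60 hx hx') (x1 hx) (x2 hx')
        Pool.Agent.Strip051.G.IE1.Tab.C.FA26.c_pp_202_a noCut_VA noExt_VA F r1 r2 ⟨r1, h⟩ r2)
      (fun h => farXA_cert (s1 := true) (s2 := true) rfl hκ (ka0 hκ hx hx') (xa0 hx) hx' (covF22b hx hx') (covF60 hx hx') (x1 hx) (x2 hx')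
        Pool.Agent.Strip051.G.IE1.Tab.C.FA26.c_pp_202_b noCut_VA noExt_VA F r1 r2 ⟨r1, h⟩ r2)

theorem FA26_pp_203 {κ x : ℝ} (hκ : κ * h0 = kenE x) (hx : 39 / 40 ≤ x) (hx' : x < 1) :
    TriA (DD x).cur (farD κ (h0 * x) (tbl tKF x) (tbl tL x)) 2 0 3 2 6 1 1 :=
  (sideF hx hx').farA (Or.inl rfl) (Or.inl rfl) fun y y' F r1 r2 =>
    (lt_or_ge (h0 * y) 1).elim
      (fun h => farXA_cert (s1 := true) (s2 := true) rfl hκ (ka0 hκ hx hx') (xa0 hx) hx' (covF22a hx hx') (covF60 hx hx') (x1 hx) (x2 hx')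
        Pool.Agent.Strip051.G.IE1.Tab.C.FA26.c_pp_203_a noCut_VA noExt_VA F r1 r2 ⟨r1, h⟩ r2)
      (fun h => farXA_cert (s1 := true) (s2 := true) rfl hκ (ka0 hκ hx hx') (xa0 hx) hx' (covF22b hx hx') (covF60 hx hx') (x1 hx) (x2 hx')
        Pool.Agent.Strip051.G.IE1.Tab.C.FA26.c_pp_203_b noCut_VA noExt_VA F r1 r2 ⟨r1, h⟩ r2)

theorem FA26_pp_213 {κ x : ℝ} (hκ : κ * h0 = kenE x) (hx : 39 / 40 ≤ x) (hx' : x < 1) :
    TriA (DD x).cur (farD κ (h0 * x) (tbl tKF x) (tbl tL x)) 2 1 3 2 6 1 1 :=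
  (sideF hx hx').farA (Or.inl rfl) (Or.inl rfl) fun y y' F r1 r2 =>
    (lt_or_ge (h0 * y) 1).elim
      (fun h => farXA_cert (s1 := true) (s2 := true) rfl hκ (ka0 hκ hx hx') (xa0 hx) hx' (covF22a hx hx') (covF61 hx hx') (x1 hx) (x2 hx')
        Pool.Agent.Strip051.G.IE1.Tab.C.FA26.c_pp_213_a noCut_VA noExt_VA F r1 r2 ⟨r1, h⟩ r2)
      (fun h => farXA_cert (s1 := true) (s2 := true) rfl hκ (ka0 hκ hx hx') (xa0 hx) hx' (covF22b hx hx') (covF61 hx hx') (x1 hx) (x2 hx')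
        Pool.Agent.Strip051.G.IE1.Tab.C.FA26.c_pp_213_b noCut_VA noExt_VA F r1 r2 ⟨r1, h⟩ r2)

theorem FA26_pp_303 {κ x : ℝ} (hκ : κ * h0 = kenE x) (hx : 39 / 40 ≤ x) (hx' : x < 1) :
    TriA (DD x).cur (farD κ (h0 * x) (tbl tKF x) (tbl tL x)) 3 0 3 2 6 1 1 :=
  (sideF hx hx').farA (Or.inl rfl) (Or.inl rfl) fun y y' F r1 r2 =>
    farXA_cert (s1 := true) (s2 := true) rfl hκ (ka0 hκ hx hx') (xa0 hx) hx' (covF23 hx hx') (covF60 hx hx') (x1 hx) (x2 hx')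
        Pool.Agent.Strip051.G.IE1.Tab.C.FA26.c_pp_303 noCut_VA noExt_VA F r1 r2 r1 r2

theorem FA26_pp_313 {κ x : ℝ} (hκ : κ * h0 = kenE x) (hx : 39 / 40 ≤ x) (hx' : x < 1) :
    TriA (DD x).cur (farD κ (h0 * x) (tbl tKF x) (tbl tL x)) 3 1 3 2 6 1 1 :=
  (sideF hx hx').farA (Or.inl rfl) (Or.inl rfl) fun y y' F r1 r2 =>
    farXA_cert (s1 := true) (s2 := true) rfl hκ (ka0 hκ hx hx') (xa0 hx) hx' (covF23 hx hx') (covF61 hx hx') (x1 hx) (x2 hx')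
        Pool.Agent.Strip051.G.IE1.Tab.C.FA26.c_pp_313 noCut_VA noExt_VA F r1 r2 r1 r2

theorem FA26_pm_001 {κ x : ℝ} (hκ : κ * h0 = kenE x) (hx : 39 / 40 ≤ x) (hx' : x < 1) :
    TriA (DD x).cur (farD κ (h0 * x) (tbl tKF x) (tbl tL x)) 0 0 1 2 6 1 (-1) :=
  (sideF hx hx').farA (Or.inl rfl) (Or.inr rfl) fun y y' F r1 r2 =>
    farXA_cert (s1 := true) (s2 := false) rfl hκ (ka0 hκ hx hx') (xa0 hx) hx' (covF20 hx hx') (covF60 hx hx') (x1 hx) (x2 hx')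
        Pool.Agent.Strip051.G.IE1.Tab.C.FA26.c_pm_001 noCut_VA noExt_VA F r1 r2 r1 r2

theorem FA26_pm_011 {κ x : ℝ} (hκ : κ * h0 = kenE x) (hx : 39 / 40 ≤ x) (hx' : x < 1) :
    TriA (DD x).cur (farD κ (h0 * x) (tbl tKF x) (tbl tL x)) 0 1 1 2 6 1 (-1) :=
  (sideF hx hx').farA (Or.inl rfl) (Or.inr rfl) fun y y' F r1 r2 =>
    farXA_cert (s1 := true) (s2 := false) rfl hκ (ka0 hκ hx hx') (xa0 hx) hx' (covF20 hx hx') (covF61 hx hx') (x1 hx) (x2 hx')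
        Pool.Agent.Strip051.G.IE1.Tab.C.FA26.c_pm_011 noCut_VA noExt_VA F r1 r2 r1 r2

theorem FA26_pm_012 {κ x : ℝ} (hκ : κ * h0 = kenE x) (hx : 39 / 40 ≤ x) (hx' : x < 1) :
    TriA (DD x).cur (farD κ (h0 * x) (tbl tKF x) (tbl tL x)) 0 1 2 2 6 1 (-1) :=
  (sideF hx hx').farA (Or.inl rfl) (Or.inr rfl) fun y y' F r1 r2 =>
    farXA_cert (s1 := true) (s2 := false) rfl hκ (ka0 hκ hx hx') (xa0 hx) hx' (covF20 hx hx') (covF61 hx hx') (x1 hx) (x2 hx')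
        Pool.Agent.Strip051.G.IE1.Tab.C.FA26.c_pm_012 noCut_VA noExt_VA F r1 r2 r1 r2

theorem FA26_pm_022 {κ x : ℝ} (hκ : κ * h0 = kenE x) (hx : 39 / 40 ≤ x) (hx' : x < 1) :
    TriA (DD x).cur (farD κ (h0 * x) (tbl tKF x) (tbl tL x)) 0 2 2 2 6 1 (-1) :=
  (sideF hx hx').farA (Or.inl rfl) (Or.inr rfl) fun y y' F r1 r2 =>
    farXA_cert (s1 := true) (s2 := false) rfl hκ (ka0 hκ hx hx') (xa0 hx) hx' (covF20 hx hx') (covF62 hx hx') (x1 hx) (x2 hx')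
        Pool.Agent.Strip051.G.IE1.Tab.C.FA26.c_pm_022 noCut_VA noExt_VA F r1 r2 r1 r2

theorem FA26_pm_023 {κ x : ℝ} (hκ : κ * h0 = kenE x) (hx : 39 / 40 ≤ x) (hx' : x < 1) :
    TriA (DD x).cur (farD κ (h0 * x) (tbl tKF x) (tbl tL x)) 0 2 3 2 6 1 (-1) :=
  (sideF hx hx').farA (Or.inl rfl) (Or.inr rfl) fun y y' F r1 r2 =>
    farXA_cert (s1 := true) (s2 := false) rfl hκ (ka0 hκ hx hx') (xa0 hx) hx' (covF20 hx hx') (covF62 hx hx') (x1 hx) (x2 hx')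
        Pool.Agent.Strip051.G.IE1.Tab.C.FA26.c_pm_023 noCut_VA noExt_VA F r1 r2 r1 r2

theorem FA26_pm_033 {κ x : ℝ} (hκ : κ * h0 = kenE x) (hx : 39 / 40 ≤ x) (hx' : x < 1) :
    TriA (DD x).cur (farD κ (h0 * x) (tbl tKF x) (tbl tL x)) 0 3 3 2 6 1 (-1) :=
  (sideF hx hx').farA (Or.inl rfl) (Or.inr rfl) fun y y' F r1 r2 =>
    farXA_cert (s1 := true) (s2 := false) rfl hκ (ka0 hκ hx hx') (xa0 hx) hx' (covF20 hx hx') (covF63 hx hx') (x1 hx) (x2 hx')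
        Pool.Agent.Strip051.G.IE1.Tab.C.FA26.c_pm_033 noCut_VA noExt_VA F r1 r2 r1 r2

theorem FA26_pm_101 {κ x : ℝ} (hκ : κ * h0 = kenE x) (hx : 39 / 40 ≤ x) (hx' : x < 1) :
    TriA (DD x).cur (farD κ (h0 * x) (tbl tKF x) (tbl tL x)) 1 0 1 2 6 1 (-1) :=
  (sideF hx hx').farA (Or.inl rfl) (Or.inr rfl) fun y y' F r1 r2 =>
    farXA_cert (s1 := true) (s2 := false) rfl hκ (ka0 hκ hx hx') (xa0 hx) hx' (covF21 hx hx') (covF60 hx hx') (x1 hx) (x2 hx')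
        Pool.Agent.Strip051.G.IE1.Tab.C.FA26.c_pm_101 noCut_VA noExt_VA F r1 r2 r1 r2

theorem FA26_pm_102 {κ x : ℝ} (hκ : κ * h0 = kenE x) (hx : 39 / 40 ≤ x) (hx' : x < 1) :
    TriA (DD x).cur (farD κ (h0 * x) (tbl tKF x) (tbl tL x)) 1 0 2 2 6 1 (-1) :=
  (sideF hx hx').farA (Or.inl rfl) (Or.inr rfl) fun y y' F r1 r2 =>
    farXA_cert (s1 := true) (s2 := false) rfl hκ (ka0 hκ hx hx') (xa0 hx) hx' (covF21 hx hx') (covF60 hx hx') (x1 hx) (x2 hx')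
        Pool.Agent.Strip051.G.IE1.Tab.C.FA26.c_pm_102 noCut_VA noExt_VA F r1 r2 r1 r2

theorem FA26_pm_112 {κ x : ℝ} (hκ : κ * h0 = kenE x) (hx : 39 / 40 ≤ x) (hx' : x < 1) :
    TriA (DD x).cur (farD κ (h0 * x) (tbl tKF x) (tbl tL x)) 1 1 2 2 6 1 (-1) :=
  (sideF hx hx').farA (Or.inl rfl) (Or.inr rfl) fun y y' F r1 r2 =>
    farXA_cert (s1 := true) (s2 := false) rfl hκ (ka0 hκ hx hx') (xa0 hx) hx' (covF21 hx hx') (covF61 hx hx') (x1 hx) (x2 hx')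
        Pool.Agent.Strip051.G.IE1.Tab.C.FA26.c_pm_112 noCut_VA noExt_VA F r1 r2 r1 r2

theorem FA26_pm_113 {κ x : ℝ} (hκ : κ * h0 = kenE x) (hx : 39 / 40 ≤ x) (hx' : x < 1) :
    TriA (DD x).cur (farD κ (h0 * x) (tbl tKF x) (tbl tL x)) 1 1 3 2 6 1 (-1) :=
  (sideF hx hx').farA (Or.inl rfl) (Or.inr rfl) fun y y' F r1 r2 =>
    farXA_cert (s1 := true) (s2 := false) rfl hκ (ka0 hκ hx hx') (xa0 hx) hx' (covF21 hx hx') (covF61 hx hx') (x1 hx) (x2 hx')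
        Pool.Agent.Strip051.G.IE1.Tab.C.FA26.c_pm_113 noCut_VA noExt_VA F r1 r2 r1 r2

theorem FA26_pm_123 {κ x : ℝ} (hκ : κ * h0 = kenE x) (hx : 39 / 40 ≤ x) (hx' : x < 1) :
    TriA (DD x).cur (farD κ (h0 * x) (tbl tKF x) (tbl tL x)) 1 2 3 2 6 1 (-1) :=
  (sideF hx hx').farA (Or.inl rfl) (Or.inr rfl) fun y y' F r1 r2 =>
    farXA_cert (s1 := true) (s2 := false) rfl hκ (ka0 hκ hx hx') (xa0 hx) hx' (covF21 hx hx') (covF62 hx hx') (x1 hx) (x2 hx')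
        Pool.Agent.Strip051.G.IE1.Tab.C.FA26.c_pm_123 noCut_VA noExt_VA F r1 r2 r1 r2

theorem FA26_pm_133 {κ x : ℝ} (hκ : κ * h0 = kenE x) (hx : 39 / 40 ≤ x) (hx' : x < 1) :
    TriA (DD x).cur (farD κ (h0 * x) (tbl tKF x) (tbl tL x)) 1 3 3 2 6 1 (-1) :=
  (sideF hx hx').farA (Or.inl rfl) (Or.inr rfl) fun y y' F r1 r2 =>
    farXA_cert (s1 := true) (s2 := false) rfl hκ (ka0 hκ hx hx') (xa0 hx) hx' (covF21 hx hx') (covF63 hx hx') (x1 hx) (x2 hx')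
        Pool.Agent.Strip051.G.IE1.Tab.C.FA26.c_pm_133 noCut_VA noExt_VA F r1 r2 r1 r2

theorem FA26_pm_202 {κ x : ℝ} (hκ : κ * h0 = kenE x) (hx : 39 / 40 ≤ x) (hx' : x < 1) :
    TriA (DD x).cur (farD κ (h0 * x) (tbl tKF x) (tbl tL x)) 2 0 2 2 6 1 (-1) :=
  (sideF hx hx').farA (Or.inl rfl) (Or.inr rfl) fun y y' F r1 r2 =>
    (lt_or_ge (h0 * y) 1).elim
      (fun h => farXA_cert (s1 := true) (s2 := false) rfl hκ (ka0 hκ hx hx') (xa0 hx) hx' (covF22a hx hx') (covF60 hx hx') (x1 hx) (x2 hx')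
        Pool.Agent.Strip051.G.IE1.Tab.C.FA26.c_pm_202_a noCut_VA noExt_VA F r1 r2 ⟨r1, h⟩ r2)
      (fun h => farXA_cert (s1 := true) (s2 := false) rfl hκ (ka0 hκ hx hx') (xa0 hx) hx' (covF22b hx hx') (covF60 hx hx') (x1 hx) (x2 hx')
        Pool.Agent.Strip051.G.IE1.Tab.C.FA26.c_pm_202_b noCut_VA noExt_VA F r1 r2 ⟨r1, h⟩ r2)

theorem FA26_pm_203 {κ x : ℝ} (hκ : κ * h0 = kenE x) (hx : 39 / 40 ≤ x) (hx' : x < 1) :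
    TriA (DD x).cur (farD κ (h0 * x) (tbl tKF x) (tbl tL x)) 2 0 3 2 6 1 (-1) :=
  (sideF hx hx').farA (Or.inl rfl) (Or.inr rfl) fun y y' F r1 r2 =>
    (lt_or_ge (h0 * y) 1).elim
      (fun h => farXA_cert (s1 := true) (s2 := false) rfl hκ (ka0 hκ hx hx') (xa0 hx) hx' (covF22a hx hx') (covF60 hx hx') (x1 hx) (x2 hx')
        Pool.Agent.Strip051.G.IE1.Tab.C.FA26.c_pm_203_a noCut_VA noExt_VA F r1 r2 ⟨r1, h⟩ r2)
      (fun h => farXA_cert (s1 := true) (s2 := false) rfl hκ (ka0 hκ hx hx') (xa0 hx) hx' (covF22b hx hx') (covF60 hx hx') (x1 hx) (x2 hx')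
        Pool.Agent.Strip051.G.IE1.Tab.C.FA26.c_pm_203_b noCut_VA noExt_VA F r1 r2 ⟨r1, h⟩ r2)

theorem FA26_pm_213 {κ x : ℝ} (hκ : κ * h0 = kenE x) (hx : 39 / 40 ≤ x) (hx' : x < 1) :
    TriA (DD x).cur (farD κ (h0 * x) (tbl tKF x) (tbl tL x)) 2 1 3 2 6 1 (-1) :=
  (sideF hx hx').farA (Or.inl rfl) (Or.inr rfl) fun y y' F r1 r2 =>
    (lt_or_ge (h0 * y) 1).elim
      (fun h => farXA_cert (s1 := true) (s2 := false) rfl hκ (ka0 hκ hx hx') (xa0 hx) hx' (covF22a hx hx') (covF61 hx hx') (x1 hx) (x2 hx')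
        Pool.Agent.Strip051.G.IE1.Tab.C.FA26.c_pm_213_a noCut_VA noExt_VA F r1 r2 ⟨r1, h⟩ r2)
      (fun h => farXA_cert (s1 := true) (s2 := false) rfl hκ (ka0 hκ hx hx') (xa0 hx) hx' (covF22b hx hx') (covF61 hx hx') (x1 hx) (x2 hx')
        Pool.Agent.Strip051.G.IE1.Tab.C.FA26.c_pm_213_b noCut_VA noExt_VA F r1 r2 ⟨r1, h⟩ r2)

theorem FA26_pm_303 {κ x : ℝ} (hκ : κ * h0 = kenE x) (hx : 39 / 40 ≤ x) (hx' : x < 1) :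
    TriA (DD x).cur (farD κ (h0 * x) (tbl tKF x) (tbl tL x)) 3 0 3 2 6 1 (-1) :=
  (sideF hx hx').farA (Or.inl rfl) (Or.inr rfl) fun y y' F r1 r2 =>
    farXA_cert (s1 := true) (s2 := false) rfl hκ (ka0 hκ hx hx') (xa0 hx) hx' (covF23 hx hx') (covF60 hx hx') (x1 hx) (x2 hx')
        Pool.Agent.Strip051.G.IE1.Tab.C.FA26.c_pm_303 noCut_VA noExt_VA F r1 r2 r1 r2

theorem FA26_pm_313 {κ x : ℝ} (hκ : κ * h0 = kenE x) (hx : 39 / 40 ≤ x) (hx' : x < 1) :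
    TriA (DD x).cur (farD κ (h0 * x) (tbl tKF x) (tbl tL x)) 3 1 3 2 6 1 (-1) :=
  (sideF hx hx').farA (Or.inl rfl) (Or.inr rfl) fun y y' F r1 r2 =>
    farXA_cert (s1 := true) (s2 := false) rfl hκ (ka0 hκ hx hx') (xa0 hx) hx' (covF23 hx hx') (covF61 hx hx') (x1 hx) (x2 hx')
        Pool.Agent.Strip051.G.IE1.Tab.C.FA26.c_pm_313 noCut_VA noExt_VA F r1 r2 r1 r2

theorem FA26_mm_001 {κ x : ℝ} (hκ : κ * h0 = kenE x) (hx : 39 / 40 ≤ x) (hx' : x < 1) :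
    TriA (DD x).cur (farD κ (h0 * x) (tbl tKF x) (tbl tL x)) 0 0 1 2 6 (-1) (-1) :=
  (sideF hx hx').farA (Or.inr rfl) (Or.inr rfl) fun y y' F r1 r2 =>
    farXA_cert (s1 := false) (s2 := false) rfl hκ (ka0 hκ hx hx') (xa0 hx) hx' (covF20 hx hx') (covF60 hx hx') (x1 hx) (x2 hx')
        Pool.Agent.Strip051.G.IE1.Tab.C.FA26.c_mm_001 noCut_VA noExt_VA F r1 r2 r1 r2

theorem FA26_mm_011 {κ x : ℝ} (hκ : κ * h0 = kenE x) (hx : 39 / 40 ≤ x) (hx' : x < 1) :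
    TriA (DD x).cur (farD κ (h0 * x) (tbl tKF x) (tbl tL x)) 0 1 1 2 6 (-1) (-1) :=
  (sideF hx hx').farA (Or.inr rfl) (Or.inr rfl) fun y y' F r1 r2 =>
    farXA_cert (s1 := false) (s2 := false) rfl hκ (ka0 hκ hx hx') (xa0 hx) hx' (covF20 hx hx') (covF61 hx hx') (x1 hx) (x2 hx')
        Pool.Agent.Strip051.G.IE1.Tab.C.FA26.c_mm_011 noCut_VA noExt_VA F r1 r2 r1 r2

theorem FA26_mm_012 {κ x : ℝ} (hκ : κ * h0 = kenE x) (hx : 39 / 40 ≤ x) (hx' : x < 1) :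
    TriA (DD x).cur (farD κ (h0 * x) (tbl tKF x) (tbl tL x)) 0 1 2 2 6 (-1) (-1) :=
  (sideF hx hx').farA (Or.inr rfl) (Or.inr rfl) fun y y' F r1 r2 =>
    farXA_cert (s1 := false) (s2 := false) rfl hκ (ka0 hκ hx hx') (xa0 hx) hx' (covF20 hx hx') (covF61 hx hx') (x1 hx) (x2 hx')
        Pool.Agent.Strip051.G.IE1.Tab.C.FA26.c_mm_012 noCut_VA noExt_VA F r1 r2 r1 r2

theorem FA26_mm_022 {κ x : ℝ} (hκ : κ * h0 = kenE x) (hx : 39 / 40 ≤ x) (hx' : x < 1) :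
    TriA (DD x).cur (farD κ (h0 * x) (tbl tKF x) (tbl tL x)) 0 2 2 2 6 (-1) (-1) :=
  (sideF hx hx').farA (Or.inr rfl) (Or.inr rfl) fun y y' F r1 r2 =>
    farXA_cert (s1 := false) (s2 := false) rfl hκ (ka0 hκ hx hx') (xa0 hx) hx' (covF20 hx hx') (covF62 hx hx') (x1 hx) (x2 hx')
        Pool.Agent.Strip051.G.IE1.Tab.C.FA26.c_mm_022 noCut_VA noExt_VA F r1 r2 r1 r2

theorem FA26_mm_023 {κ x : ℝ} (hκ : κ * h0 = kenE x) (hx : 39 / 40 ≤ x) (hx' : x < 1) :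
    TriA (DD x).cur (farD κ (h0 * x) (tbl tKF x) (tbl tL x)) 0 2 3 2 6 (-1) (-1) :=
  (sideF hx hx').farA (Or.inr rfl) (Or.inr rfl) fun y y' F r1 r2 =>
    farXA_cert (s1 := false) (s2 := false) rfl hκ (ka0 hκ hx hx') (xa0 hx) hx' (covF20 hx hx') (covF62 hx hx') (x1 hx) (x2 hx')
        Pool.Agent.Strip051.G.IE1.Tab.C.FA26.c_mm_023 noCut_VA noExt_VA F r1 r2 r1 r2

theorem FA26_mm_033 {κ x : ℝ} (hκ : κ * h0 = kenE x) (hx : 39 / 40 ≤ x) (hx' : x < 1) :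
    TriA (DD x).cur (farD κ (h0 * x) (tbl tKF x) (tbl tL x)) 0 3 3 2 6 (-1) (-1) :=
  (sideF hx hx').farA (Or.inr rfl) (Or.inr rfl) fun y y' F r1 r2 =>
    farXA_cert (s1 := false) (s2 := false) rfl hκ (ka0 hκ hx hx') (xa0 hx) hx' (covF20 hx hx') (covF63 hx hx') (x1 hx) (x2 hx')
        Pool.Agent.Strip051.G.IE1.Tab.C.FA26.c_mm_033 noCut_VA noExt_VA F r1 r2 r1 r2

theorem FA26_mm_101 {κ x : ℝ} (hκ : κ * h0 = kenE x) (hx : 39 / 40 ≤ x) (hx' : x < 1) :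
    TriA (DD x).cur (farD κ (h0 * x) (tbl tKF x) (tbl tL x)) 1 0 1 2 6 (-1) (-1) :=
  (sideF hx hx').farA (Or.inr rfl) (Or.inr rfl) fun y y' F r1 r2 =>
    farXA_cert (s1 := false) (s2 := false) rfl hκ (ka0 hκ hx hx') (xa0 hx) hx' (covF21 hx hx') (covF60 hx hx') (x1 hx) (x2 hx')
        Pool.Agent.Strip051.G.IE1.Tab.C.FA26.c_mm_101 noCut_VA noExt_VA F r1 r2 r1 r2

theorem FA26_mm_102 {κ x : ℝ} (hκ : κ * h0 = kenE x) (hx : 39 / 40 ≤ x) (hx' : x < 1) :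
    TriA (DD x).cur (farD κ (h0 * x) (tbl tKF x) (tbl tL x)) 1 0 2 2 6 (-1) (-1) :=
  (sideF hx hx').farA (Or.inr rfl) (Or.inr rfl) fun y y' F r1 r2 =>
    farXA_cert (s1 := false) (s2 := false) rfl hκ (ka0 hκ hx hx') (xa0 hx) hx' (covF21 hx hx') (covF60 hx hx') (x1 hx) (x2 hx')
        Pool.Agent.Strip051.G.IE1.Tab.C.FA26.c_mm_102 noCut_VA noExt_VA F r1 r2 r1 r2

theorem FA26_mm_112 {κ x : ℝ} (hκ : κ * h0 = kenE x) (hx : 39 / 40 ≤ x) (hx' : x < 1) :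
    TriA (DD x).cur (farD κ (h0 * x) (tbl tKF x) (tbl tL x)) 1 1 2 2 6 (-1) (-1) :=
  (sideF hx hx').farA (Or.inr rfl) (Or.inr rfl) fun y y' F r1 r2 =>
    farXA_cert (s1 := false) (s2 := false) rfl hκ (ka0 hκ hx hx') (xa0 hx) hx' (covF21 hx hx') (covF61 hx hx') (x1 hx) (x2 hx')
        Pool.Agent.Strip051.G.IE1.Tab.C.FA26.c_mm_112 noCut_VA noExt_VA F r1 r2 r1 r2

theorem FA26_mm_113 {κ x : ℝ} (hκ : κ * h0 = kenE x) (hx : 39 / 40 ≤ x) (hx' : x < 1) :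
    TriA (DD x).cur (farD κ (h0 * x) (tbl tKF x) (tbl tL x)) 1 1 3 2 6 (-1) (-1) :=
  (sideF hx hx').farA (Or.inr rfl) (Or.inr rfl) fun y y' F r1 r2 =>
    farXA_cert (s1 := false) (s2 := false) rfl hκ (ka0 hκ hx hx') (xa0 hx) hx' (covF21 hx hx') (covF61 hx hx') (x1 hx) (x2 hx')
        Pool.Agent.Strip051.G.IE1.Tab.C.FA26.c_mm_113 noCut_VA noExt_VA F r1 r2 r1 r2

theorem FA26_mm_123 {κ x : ℝ} (hκ : κ * h0 = kenE x) (hx : 39 / 40 ≤ x) (hx' : x < 1) :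
    TriA (DD x).cur (farD κ (h0 * x) (tbl tKF x) (tbl tL x)) 1 2 3 2 6 (-1) (-1) :=
  (sideF hx hx').farA (Or.inr rfl) (Or.inr rfl) fun y y' F r1 r2 =>
    farXA_cert (s1 := false) (s2 := false) rfl hκ (ka0 hκ hx hx') (xa0 hx) hx' (covF21 hx hx') (covF62 hx hx') (x1 hx) (x2 hx')
        Pool.Agent.Strip051.G.IE1.Tab.C.FA26.c_mm_123 noCut_VA noExt_VA F r1 r2 r1 r2

theorem FA26_mm_133 {κ x : ℝ} (hκ : κ * h0 = kenE x) (hx : 39 / 40 ≤ x) (hx' : x < 1) :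
    TriA (DD x).cur (farD κ (h0 * x) (tbl tKF x) (tbl tL x)) 1 3 3 2 6 (-1) (-1) :=
  (sideF hx hx').farA (Or.inr rfl) (Or.inr rfl) fun y y' F r1 r2 =>
    farXA_cert (s1 := false) (s2 := false) rfl hκ (ka0 hκ hx hx') (xa0 hx) hx' (covF21 hx hx') (covF63 hx hx') (x1 hx) (x2 hx')
        Pool.Agent.Strip051.G.IE1.Tab.C.FA26.c_mm_133 noCut_VA noExt_VA F r1 r2 r1 r2

theorem FA26_mm_202 {κ x : ℝ} (hκ : κ * h0 = kenE x) (hx : 39 / 40 ≤ x) (hx' : x < 1) :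
    TriA (DD x).cur (farD κ (h0 * x) (tbl tKF x) (tbl tL x)) 2 0 2 2 6 (-1) (-1) :=
  (sideF hx hx').farA (Or.inr rfl) (Or.inr rfl) fun y y' F r1 r2 =>
    (lt_or_ge (h0 * y) 1).elim
      (fun h => farXA_cert (s1 := false) (s2 := false) rfl hκ (ka0 hκ hx hx') (xa0 hx) hx' (covF22a hx hx') (covF60 hx hx') (x1 hx) (x2 hx')
        Pool.Agent.Strip051.G.IE1.Tab.C.FA26.c_mm_202_a noCut_VA noExt_VA F r1 r2 ⟨r1, h⟩ r2)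
      (fun h => farXA_cert (s1 := false) (s2 := false) rfl hκ (ka0 hκ hx hx') (xa0 hx) hx' (covF22b hx hx') (covF60 hx hx') (x1 hx) (x2 hx')
        Pool.Agent.Strip051.G.IE1.Tab.C.FA26.c_mm_202_b noCut_VA noExt_VA F r1 r2 ⟨r1, h⟩ r2)

theorem FA26_mm_203 {κ x : ℝ} (hκ : κ * h0 = kenE x) (hx : 39 / 40 ≤ x) (hx' : x < 1) :
    TriA (DD x).cur (farD κ (h0 * x) (tbl tKF x) (tbl tL x)) 2 0 3 2 6 (-1) (-1) :=
  (sideF hx hx').farA (Or.inr rfl) (Or.inr rfl) fun y y' F r1 r2 =>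
    (lt_or_ge (h0 * y) 1).elim
      (fun h => farXA_cert (s1 := false) (s2 := false) rfl hκ (ka0 hκ hx hx') (xa0 hx) hx' (covF22a hx hx') (covF60 hx hx') (x1 hx) (x2 hx')
        Pool.Agent.Strip051.G.IE1.Tab.C.FA26.c_mm_203_a noCut_VA noExt_VA F r1 r2 ⟨r1, h⟩ r2)
      (fun h => farXA_cert (s1 := false) (s2 := false) rfl hκ (ka0 hκ hx hx') (xa0 hx) hx' (covF22b hx hx') (covF60 hx hx') (x1 hx) (x2 hx')
        Pool.Agent.Strip051.G.IE1.Tab.C.FA26.c_mm_203_b noCut_VA noExt_VA F r1 r2 ⟨r1, h⟩ r2)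

theorem FA26_mm_213 {κ x : ℝ} (hκ : κ * h0 = kenE x) (hx : 39 / 40 ≤ x) (hx' : x < 1) :
    TriA (DD x).cur (farD κ (h0 * x) (tbl tKF x) (tbl tL x)) 2 1 3 2 6 (-1) (-1) :=
  (sideF hx hx').farA (Or.inr rfl) (Or.inr rfl) fun y y' F r1 r2 =>
    (lt_or_ge (h0 * y) 1).elim
      (fun h => farXA_cert (s1 := false) (s2 := false) rfl hκ (ka0 hκ hx hx') (xa0 hx) hx' (covF22a hx hx') (covF61 hx hx') (x1 hx) (x2 hx')
        Pool.Agent.Strip051.G.IE1.Tab.C.FA26.c_mm_213_a noCut_VA noExt_VA F r1 r2 ⟨r1, h⟩ r2)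
      (fun h => farXA_cert (s1 := false) (s2 := false) rfl hκ (ka0 hκ hx hx') (xa0 hx) hx' (covF22b hx hx') (covF61 hx hx') (x1 hx) (x2 hx')
        Pool.Agent.Strip051.G.IE1.Tab.C.FA26.c_mm_213_b noCut_VA noExt_VA F r1 r2 ⟨r1, h⟩ r2)

theorem FA26_mm_303 {κ x : ℝ} (hκ : κ * h0 = kenE x) (hx : 39 / 40 ≤ x) (hx' : x < 1) :
    TriA (DD x).cur (farD κ (h0 * x) (tbl tKF x) (tbl tL x)) 3 0 3 2 6 (-1) (-1) :=
  (sideF hx hx').farA (Or.inr rfl) (Or.inr rfl) fun y y' F r1 r2 =>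
    farXA_cert (s1 := false) (s2 := false) rfl hκ (ka0 hκ hx hx') (xa0 hx) hx' (covF23 hx hx') (covF60 hx hx') (x1 hx) (x2 hx')
        Pool.Agent.Strip051.G.IE1.Tab.C.FA26.c_mm_303 noCut_VA noExt_VA F r1 r2 r1 r2

theorem FA26_mm_313 {κ x : ℝ} (hκ : κ * h0 = kenE x) (hx : 39 / 40 ≤ x) (hx' : x < 1) :
    TriA (DD x).cur (farD κ (h0 * x) (tbl tKF x) (tbl tL x)) 3 1 3 2 6 (-1) (-1) :=
  (sideF hx hx').farA (Or.inr rfl) (Or.inr rfl) fun y y' F r1 r2 =>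
    farXA_cert (s1 := false) (s2 := false) rfl hκ (ka0 hκ hx hx') (xa0 hx) hx' (covF23 hx hx') (covF61 hx hx') (x1 hx) (x2 hx')
        Pool.Agent.Strip051.G.IE1.Tab.C.FA26.c_mm_313 noCut_VA noExt_VA F r1 r2 r1 r2

theorem FA26 {κ x : ℝ} (hκ : κ * h0 = kenE x) (hx : 39 / 40 ≤ x) (hx' : x < 1) : AllTA (DD x).cur (farD κ (h0 * x) (tbl tKF x) (tbl tL x)) 2 6 where
  pp := all17 (Q := fun a b c => TriA (DD x).cur (farD κ (h0 * x) (tbl tKF x) (tbl tL x)) a b c 2 6 1 1)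
    (FA26_pp_001 hκ hx hx') (FA26_pp_011 hκ hx hx') (FA26_pp_012 hκ hx hx') (FA26_pp_022 hκ hx hx') (FA26_pp_023 hκ hx hx') (FA26_pp_033 hκ hx hx') (FA26_pp_101 hκ hx hx') (FA26_pp_102 hκ hx hx') (FA26_pp_112 hκ hx hx') (FA26_pp_113 hκ hx hx') (FA26_pp_123 hκ hx hx') (FA26_pp_133 hκ hx hx') (FA26_pp_202 hκ hx hx') (FA26_pp_203 hκ hx hx') (FA26_pp_213 hκ hx hx') (FA26_pp_303 hκ hx hx') (FA26_pp_313 hκ hx hx')
  pm := all17 (Q := fun a b c => TriA (DD x).cur (farD κ (h0 * x) (tbl tKF x) (tbl tL x)) a b c 2 6 1 (-1))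
    (FA26_pm_001 hκ hx hx') (FA26_pm_011 hκ hx hx') (FA26_pm_012 hκ hx hx') (FA26_pm_022 hκ hx hx') (FA26_pm_023 hκ hx hx') (FA26_pm_033 hκ hx hx') (FA26_pm_101 hκ hx hx') (FA26_pm_102 hκ hx hx') (FA26_pm_112 hκ hx hx') (FA26_pm_113 hκ hx hx') (FA26_pm_123 hκ hx hx') (FA26_pm_133 hκ hx hx') (FA26_pm_202 hκ hx hx') (FA26_pm_203 hκ hx hx') (FA26_pm_213 hκ hx hx') (FA26_pm_303 hκ hx hx') (FA26_pm_313 hκ hx hx')
  mm := all17 (Q := fun a b c => TriA (DD x).cur (farD κ (h0 * x) (tbl tKF x) (tbl tL x)) a b c 2 6 (-1) (-1))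
    (FA26_mm_001 hκ hx hx') (FA26_mm_011 hκ hx hx') (FA26_mm_012 hκ hx hx') (FA26_mm_022 hκ hx hx') (FA26_mm_023 hκ hx hx') (FA26_mm_033 hκ hx hx') (FA26_mm_101 hκ hx hx') (FA26_mm_102 hκ hx hx') (FA26_mm_112 hκ hx hx') (FA26_mm_113 hκ hx hx') (FA26_mm_123 hκ hx hx') (FA26_mm_133 hκ hx hx') (FA26_mm_202 hκ hx hx') (FA26_mm_203 hκ hx hx') (FA26_mm_213 hκ hx hx') (FA26_mm_303 hκ hx hx') (FA26_mm_313 hκ hx hx')

theorem FA27_pp_001 {κ x : ℝ} (hκ : κ * h0 = kenE x) (hx : 39 / 40 ≤ x) (hx' : x < 1) :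
    TriA (DD x).cur (farD κ (h0 * x) (tbl tKF x) (tbl tL x)) 0 0 1 2 7 1 1 :=
  (sideF hx hx').farA (Or.inl rfl) (Or.inl rfl) fun y y' F r1 r2 =>
    farXA_cert (s1 := true) (s2 := true) rfl hκ (ka0 hκ hx hx') (xa0 hx) hx' (covF20 hx hx') (covF70 hx hx') (x1 hx) (x2 hx')
        Pool.Agent.Strip051.G.IE1.Tab.C.FA27.c_pp_001 noCut_VA noExt_VA F r1 r2 r1 r2

theorem FA27_pp_011 {κ x : ℝ} (hκ : κ * h0 = kenE x) (hx : 39 / 40 ≤ x) (hx' : x < 1) :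
    TriA (DD x).cur (farD κ (h0 * x) (tbl tKF x) (tbl tL x)) 0 1 1 2 7 1 1 :=
  (sideF hx hx').farA (Or.inl rfl) (Or.inl rfl) fun y y' F r1 r2 =>
    farXA_cert (s1 := true) (s2 := true) rfl hκ (ka0 hκ hx hx') (xa0 hx) hx' (covF20 hx hx') (covF71 hx hx') (x1 hx) (x2 hx')
        Pool.Agent.Strip051.G.IE1.Tab.C.FA27.c_pp_011 noCut_VA noExt_VA F r1 r2 r1 r2

theorem FA27_pp_012 {κ x : ℝ} (hκ : κ * h0 = kenE x) (hx : 39 / 40 ≤ x) (hx' : x < 1) :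
    TriA (DD x).cur (farD κ (h0 * x) (tbl tKF x) (tbl tL x)) 0 1 2 2 7 1 1 :=
  (sideF hx hx').farA (Or.inl rfl) (Or.inl rfl) fun y y' F r1 r2 =>
    farXA_cert (s1 := true) (s2 := true) rfl hκ (ka0 hκ hx hx') (xa0 hx) hx' (covF20 hx hx') (covF71 hx hx') (x1 hx) (x2 hx')
        Pool.Agent.Strip051.G.IE1.Tab.C.FA27.c_pp_012 noCut_VA noExt_VA F r1 r2 r1 r2

theorem FA27_pp_022 {κ x : ℝ} (hκ : κ * h0 = kenE x) (hx : 39 / 40 ≤ x) (hx' : x < 1) :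
    TriA (DD x).cur (farD κ (h0 * x) (tbl tKF x) (tbl tL x)) 0 2 2 2 7 1 1 :=
  (sideF hx hx').farA (Or.inl rfl) (Or.inl rfl) fun y y' F r1 r2 =>
    farXA_cert (s1 := true) (s2 := true) rfl hκ (ka0 hκ hx hx') (xa0 hx) hx' (covF20 hx hx') (covF72 hx hx') (x1 hx) (x2 hx')
        Pool.Agent.Strip051.G.IE1.Tab.C.FA27.c_pp_022 noCut_VA noExt_VA F r1 r2 r1 r2

theorem FA27_pp_023 {κ x : ℝ} (hκ : κ * h0 = kenE x) (hx : 39 / 40 ≤ x) (hx' : x < 1) :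
    TriA (DD x).cur (farD κ (h0 * x) (tbl tKF x) (tbl tL x)) 0 2 3 2 7 1 1 :=
  (sideF hx hx').farA (Or.inl rfl) (Or.inl rfl) fun y y' F r1 r2 =>
    farXA_cert (s1 := true) (s2 := true) rfl hκ (ka0 hκ hx hx') (xa0 hx) hx' (covF20 hx hx') (covF72 hx hx') (x1 hx) (x2 hx')
        Pool.Agent.Strip051.G.IE1.Tab.C.FA27.c_pp_023 noCut_VA noExt_VA F r1 r2 r1 r2

theorem FA27_pp_033 {κ x : ℝ} (hκ : κ * h0 = kenE x) (hx : 39 / 40 ≤ x) (hx' : x < 1) :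
    TriA (DD x).cur (farD κ (h0 * x) (tbl tKF x) (tbl tL x)) 0 3 3 2 7 1 1 :=
  (sideF hx hx').farA (Or.inl rfl) (Or.inl rfl) fun y y' F r1 r2 =>
    farXA_cert (s1 := true) (s2 := true) rfl hκ (ka0 hκ hx hx') (xa0 hx) hx' (covF20 hx hx') (covF73 hx hx') (x1 hx) (x2 hx')
        Pool.Agent.Strip051.G.IE1.Tab.C.FA27.c_pp_033 noCut_VA noExt_VA F r1 r2 r1 r2

theorem FA27_pp_101 {κ x : ℝ} (hκ : κ * h0 = kenE x) (hx : 39 / 40 ≤ x) (hx' : x < 1) :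
    TriA (DD x).cur (farD κ (h0 * x) (tbl tKF x) (tbl tL x)) 1 0 1 2 7 1 1 :=
  (sideF hx hx').farA (Or.inl rfl) (Or.inl rfl) fun y y' F r1 r2 =>
    farXA_cert (s1 := true) (s2 := true) rfl hκ (ka0 hκ hx hx') (xa0 hx) hx' (covF21 hx hx') (covF70 hx hx') (x1 hx) (x2 hx')
        Pool.Agent.Strip051.G.IE1.Tab.C.FA27.c_pp_101 noCut_VA noExt_VA F r1 r2 r1 r2

theorem FA27_pp_102 {κ x : ℝ} (hκ : κ * h0 = kenE x) (hx : 39 / 40 ≤ x) (hx' : x < 1) :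
    TriA (DD x).cur (farD κ (h0 * x) (tbl tKF x) (tbl tL x)) 1 0 2 2 7 1 1 :=
  (sideF hx hx').farA (Or.inl rfl) (Or.inl rfl) fun y y' F r1 r2 =>
    farXA_cert (s1 := true) (s2 := true) rfl hκ (ka0 hκ hx hx') (xa0 hx) hx' (covF21 hx hx') (covF70 hx hx') (x1 hx) (x2 hx')
        Pool.Agent.Strip051.G.IE1.Tab.C.FA27.c_pp_102 noCut_VA noExt_VA F r1 r2 r1 r2

theorem FA27_pp_112 {κ x : ℝ} (hκ : κ * h0 = kenE x) (hx : 39 / 40 ≤ x) (hx' : x < 1) :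
    TriA (DD x).cur (farD κ (h0 * x) (tbl tKF x) (tbl tL x)) 1 1 2 2 7 1 1 :=
  (sideF hx hx').farA (Or.inl rfl) (Or.inl rfl) fun y y' F r1 r2 =>
    farXA_cert (s1 := true) (s2 := true) rfl hκ (ka0 hκ hx hx') (xa0 hx) hx' (covF21 hx hx') (covF71 hx hx') (x1 hx) (x2 hx')
        Pool.Agent.Strip051.G.IE1.Tab.C.FA27.c_pp_112 noCut_VA noExt_VA F r1 r2 r1 r2

theorem FA27_pp_113 {κ x : ℝ} (hκ : κ * h0 = kenE x) (hx : 39 / 40 ≤ x) (hx' : x < 1) :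
    TriA (DD x).cur (farD κ (h0 * x) (tbl tKF x) (tbl tL x)) 1 1 3 2 7 1 1 :=
  (sideF hx hx').farA (Or.inl rfl) (Or.inl rfl) fun y y' F r1 r2 =>
    farXA_cert (s1 := true) (s2 := true) rfl hκ (ka0 hκ hx hx') (xa0 hx) hx' (covF21 hx hx') (covF71 hx hx') (x1 hx) (x2 hx')
        Pool.Agent.Strip051.G.IE1.Tab.C.FA27.c_pp_113 noCut_VA noExt_VA F r1 r2 r1 r2

theorem FA27_pp_123 {κ x : ℝ} (hκ : κ * h0 = kenE x) (hx : 39 / 40 ≤ x) (hx' : x < 1) :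
    TriA (DD x).cur (farD κ (h0 * x) (tbl tKF x) (tbl tL x)) 1 2 3 2 7 1 1 :=
  (sideF hx hx').farA (Or.inl rfl) (Or.inl rfl) fun y y' F r1 r2 =>
    farXA_cert (s1 := true) (s2 := true) rfl hκ (ka0 hκ hx hx') (xa0 hx) hx' (covF21 hx hx') (covF72 hx hx') (x1 hx) (x2 hx')
        Pool.Agent.Strip051.G.IE1.Tab.C.FA27.c_pp_123 noCut_VA noExt_VA F r1 r2 r1 r2

theorem FA27_pp_133 {κ x : ℝ} (hκ : κ * h0 = kenE x) (hx : 39 / 40 ≤ x) (hx' : x < 1) :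
    TriA (DD x).cur (farD κ (h0 * x) (tbl tKF x) (tbl tL x)) 1 3 3 2 7 1 1 :=
  (sideF hx hx').farA (Or.inl rfl) (Or.inl rfl) fun y y' F r1 r2 =>
    farXA_cert (s1 := true) (s2 := true) rfl hκ (ka0 hκ hx hx') (xa0 hx) hx' (covF21 hx hx') (covF73 hx hx') (x1 hx) (x2 hx')
        Pool.Agent.Strip051.G.IE1.Tab.C.FA27.c_pp_133 noCut_VA noExt_VA F r1 r2 r1 r2

theorem FA27_pp_202 {κ x : ℝ} (hκ : κ * h0 = kenE x) (hx : 39 / 40 ≤ x) (hx' : x < 1) :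
    TriA (DD x).cur (farD κ (h0 * x) (tbl tKF x) (tbl tL x)) 2 0 2 2 7 1 1 :=
  (sideF hx hx').farA (Or.inl rfl) (Or.inl rfl) fun y y' F r1 r2 =>
    (lt_or_ge (h0 * y) 1).elim
      (fun h => farXA_cert (s1 := true) (s2 := true) rfl hκ (ka0 hκ hx hx') (xa0 hx) hx' (covF22a hx hx') (covF70 hx hx') (x1 hx) (x2 hx')
        Pool.Agent.Strip051.G.IE1.Tab.C.FA27.c_pp_202_a noCut_VA noExt_VA F r1 r2 ⟨r1, h⟩ r2)
      (fun h => farXA_cert (s1 := true) (s2 := true) rfl hκ (ka0 hκ hx hx') (xa0 hx) hx' (covF22b hx hx') (covF70 hx hx') (x1 hx) (x2 hx')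
        Pool.Agent.Strip051.G.IE1.Tab.C.FA27.c_pp_202_b noCut_VA noExt_VA F r1 r2 ⟨r1, h⟩ r2)

theorem FA27_pp_203 {κ x : ℝ} (hκ : κ * h0 = kenE x) (hx : 39 / 40 ≤ x) (hx' : x < 1) :
    TriA (DD x).cur (farD κ (h0 * x) (tbl tKF x) (tbl tL x)) 2 0 3 2 7 1 1 :=
  (sideF hx hx').farA (Or.inl rfl) (Or.inl rfl) fun y y' F r1 r2 =>
    (lt_or_ge (h0 * y) 1).elim
      (fun h => farXA_cert (s1 := true) (s2 := true) rfl hκ (ka0 hκ hx hx') (xa0 hx) hx' (covF22a hx hx') (covF70 hx hx') (x1 hx) (x2 hx')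
        Pool.Agent.Strip051.G.IE1.Tab.C.FA27.c_pp_203_a noCut_VA noExt_VA F r1 r2 ⟨r1, h⟩ r2)
      (fun h => farXA_cert (s1 := true) (s2 := true) rfl hκ (ka0 hκ hx hx') (xa0 hx) hx' (covF22b hx hx') (covF70 hx hx') (x1 hx) (x2 hx')
        Pool.Agent.Strip051.G.IE1.Tab.C.FA27.c_pp_203_b noCut_VA noExt_VA F r1 r2 ⟨r1, h⟩ r2)

theorem FA27_pp_213 {κ x : ℝ} (hκ : κ * h0 = kenE x) (hx : 39 / 40 ≤ x) (hx' : x < 1) :
    TriA (DD x).cur (farD κ (h0 * x) (tbl tKF x) (tbl tL x)) 2 1 3 2 7 1 1 :=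
  (sideF hx hx').farA (Or.inl rfl) (Or.inl rfl) fun y y' F r1 r2 =>
    (lt_or_ge (h0 * y) 1).elim
      (fun h => farXA_cert (s1 := true) (s2 := true) rfl hκ (ka0 hκ hx hx') (xa0 hx) hx' (covF22a hx hx') (covF71 hx hx') (x1 hx) (x2 hx')
        Pool.Agent.Strip051.G.IE1.Tab.C.FA27.c_pp_213_a noCut_VA noExt_VA F r1 r2 ⟨r1, h⟩ r2)
      (fun h => farXA_cert (s1 := true) (s2 := true) rfl hκ (ka0 hκ hx hx') (xa0 hx) hx' (covF22b hx hx') (covF71 hx hx') (x1 hx) (x2 hx')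
        Pool.Agent.Strip051.G.IE1.Tab.C.FA27.c_pp_213_b noCut_VA noExt_VA F r1 r2 ⟨r1, h⟩ r2)

theorem FA27_pp_303 {κ x : ℝ} (hκ : κ * h0 = kenE x) (hx : 39 / 40 ≤ x) (hx' : x < 1) :
    TriA (DD x).cur (farD κ (h0 * x) (tbl tKF x) (tbl tL x)) 3 0 3 2 7 1 1 :=
  (sideF hx hx').farA (Or.inl rfl) (Or.inl rfl) fun y y' F r1 r2 =>
    farXA_cert (s1 := true) (s2 := true) rfl hκ (ka0 hκ hx hx') (xa0 hx) hx' (covF23 hx hx') (covF70 hx hx') (x1 hx) (x2 hx')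
        Pool.Agent.Strip051.G.IE1.Tab.C.FA27.c_pp_303 noCut_VA noExt_VA F r1 r2 r1 r2

theorem FA27_pp_313 {κ x : ℝ} (hκ : κ * h0 = kenE x) (hx : 39 / 40 ≤ x) (hx' : x < 1) :
    TriA (DD x).cur (farD κ (h0 * x) (tbl tKF x) (tbl tL x)) 3 1 3 2 7 1 1 :=
  (sideF hx hx').farA (Or.inl rfl) (Or.inl rfl) fun y y' F r1 r2 =>
    farXA_cert (s1 := true) (s2 := true) rfl hκ (ka0 hκ hx hx') (xa0 hx) hx' (covF23 hx hx') (covF71 hx hx') (x1 hx) (x2 hx')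
        Pool.Agent.Strip051.G.IE1.Tab.C.FA27.c_pp_313 noCut_VA noExt_VA F r1 r2 r1 r2

theorem FA27_pm_001 {κ x : ℝ} (hκ : κ * h0 = kenE x) (hx : 39 / 40 ≤ x) (hx' : x < 1) :
    TriA (DD x).cur (farD κ (h0 * x) (tbl tKF x) (tbl tL x)) 0 0 1 2 7 1 (-1) :=
  (sideF hx hx').farA (Or.inl rfl) (Or.inr rfl) fun y y' F r1 r2 =>
    farXA_cert (s1 := true) (s2 := false) rfl hκ (ka0 hκ hx hx') (xa0 hx) hx' (covF20 hx hx') (covF70 hx hx') (x1 hx) (x2 hx')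
        Pool.Agent.Strip051.G.IE1.Tab.C.FA27.c_pm_001 noCut_VA noExt_VA F r1 r2 r1 r2

theorem FA27_pm_011 {κ x : ℝ} (hκ : κ * h0 = kenE x) (hx : 39 / 40 ≤ x) (hx' : x < 1) :
    TriA (DD x).cur (farD κ (h0 * x) (tbl tKF x) (tbl tL x)) 0 1 1 2 7 1 (-1) :=
  (sideF hx hx').farA (Or.inl rfl) (Or.inr rfl) fun y y' F r1 r2 =>
    farXA_cert (s1 := true) (s2 := false) rfl hκ (ka0 hκ hx hx') (xa0 hx) hx' (covF20 hx hx') (covF71 hx hx') (x1 hx) (x2 hx')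
        Pool.Agent.Strip051.G.IE1.Tab.C.FA27.c_pm_011 noCut_VA noExt_VA F r1 r2 r1 r2

theorem FA27_pm_012 {κ x : ℝ} (hκ : κ * h0 = kenE x) (hx : 39 / 40 ≤ x) (hx' : x < 1) :
    TriA (DD x).cur (farD κ (h0 * x) (tbl tKF x) (tbl tL x)) 0 1 2 2 7 1 (-1) :=
  (sideF hx hx').farA (Or.inl rfl) (Or.inr rfl) fun y y' F r1 r2 =>
    farXA_cert (s1 := true) (s2 := false) rfl hκ (ka0 hκ hx hx') (xa0 hx) hx' (covF20 hx hx') (covF71 hx hx') (x1 hx) (x2 hx')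
        Pool.Agent.Strip051.G.IE1.Tab.C.FA27.c_pm_012 noCut_VA noExt_VA F r1 r2 r1 r2

theorem FA27_pm_022 {κ x : ℝ} (hκ : κ * h0 = kenE x) (hx : 39 / 40 ≤ x) (hx' : x < 1) :
    TriA (DD x).cur (farD κ (h0 * x) (tbl tKF x) (tbl tL x)) 0 2 2 2 7 1 (-1) :=
  (sideF hx hx').farA (Or.inl rfl) (Or.inr rfl) fun y y' F r1 r2 =>
    farXA_cert (s1 := true) (s2 := false) rfl hκ (ka0 hκ hx hx') (xa0 hx) hx' (covF20 hx hx') (covF72 hx hx') (x1 hx) (x2 hx')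
        Pool.Agent.Strip051.G.IE1.Tab.C.FA27.c_pm_022 noCut_VA noExt_VA F r1 r2 r1 r2

theorem FA27_pm_023 {κ x : ℝ} (hκ : κ * h0 = kenE x) (hx : 39 / 40 ≤ x) (hx' : x < 1) :
    TriA (DD x).cur (farD κ (h0 * x) (tbl tKF x) (tbl tL x)) 0 2 3 2 7 1 (-1) :=
  (sideF hx hx').farA (Or.inl rfl) (Or.inr rfl) fun y y' F r1 r2 =>
    farXA_cert (s1 := true) (s2 := false) rfl hκ (ka0 hκ hx hx') (xa0 hx) hx' (covF20 hx hx') (covF72 hx hx') (x1 hx) (x2 hx')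
        Pool.Agent.Strip051.G.IE1.Tab.C.FA27.c_pm_023 noCut_VA noExt_VA F r1 r2 r1 r2

theorem FA27_pm_033 {κ x : ℝ} (hκ : κ * h0 = kenE x) (hx : 39 / 40 ≤ x) (hx' : x < 1) :
    TriA (DD x).cur (farD κ (h0 * x) (tbl tKF x) (tbl tL x)) 0 3 3 2 7 1 (-1) :=
  (sideF hx hx').farA (Or.inl rfl) (Or.inr rfl) fun y y' F r1 r2 =>
    farXA_cert (s1 := true) (s2 := false) rfl hκ (ka0 hκ hx hx') (xa0 hx) hx' (covF20 hx hx') (covF73 hx hx') (x1 hx) (x2 hx')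
        Pool.Agent.Strip051.G.IE1.Tab.C.FA27.c_pm_033 noCut_VA noExt_VA F r1 r2 r1 r2

theorem FA27_pm_101 {κ x : ℝ} (hκ : κ * h0 = kenE x) (hx : 39 / 40 ≤ x) (hx' : x < 1) :
    TriA (DD x).cur (farD κ (h0 * x) (tbl tKF x) (tbl tL x)) 1 0 1 2 7 1 (-1) :=
  (sideF hx hx').farA (Or.inl rfl) (Or.inr rfl) fun y y' F r1 r2 =>
    farXA_cert (s1 := true) (s2 := false) rfl hκ (ka0 hκ hx hx') (xa0 hx) hx' (covF21 hx hx') (covF70 hx hx') (x1 hx) (x2 hx')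
        Pool.Agent.Strip051.G.IE1.Tab.C.FA27.c_pm_101 noCut_VA noExt_VA F r1 r2 r1 r2

theorem FA27_pm_102 {κ x : ℝ} (hκ : κ * h0 = kenE x) (hx : 39 / 40 ≤ x) (hx' : x < 1) :
    TriA (DD x).cur (farD κ (h0 * x) (tbl tKF x) (tbl tL x)) 1 0 2 2 7 1 (-1) :=
  (sideF hx hx').farA (Or.inl rfl) (Or.inr rfl) fun y y' F r1 r2 =>
    farXA_cert (s1 := true) (s2 := false) rfl hκ (ka0 hκ hx hx') (xa0 hx) hx' (covF21 hx hx') (covF70 hx hx') (x1 hx) (x2 hx')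
        Pool.Agent.Strip051.G.IE1.Tab.C.FA27.c_pm_102 noCut_VA noExt_VA F r1 r2 r1 r2

theorem FA27_pm_112 {κ x : ℝ} (hκ : κ * h0 = kenE x) (hx : 39 / 40 ≤ x) (hx' : x < 1) :
    TriA (DD x).cur (farD κ (h0 * x) (tbl tKF x) (tbl tL x)) 1 1 2 2 7 1 (-1) :=
  (sideF hx hx').farA (Or.inl rfl) (Or.inr rfl) fun y y' F r1 r2 =>
    farXA_cert (s1 := true) (s2 := false) rfl hκ (ka0 hκ hx hx') (xa0 hx) hx' (covF21 hx hx') (covF71 hx hx') (x1 hx) (x2 hx')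
        Pool.Agent.Strip051.G.IE1.Tab.C.FA27.c_pm_112 noCut_VA noExt_VA F r1 r2 r1 r2

theorem FA27_pm_113 {κ x : ℝ} (hκ : κ * h0 = kenE x) (hx : 39 / 40 ≤ x) (hx' : x < 1) :
    TriA (DD x).cur (farD κ (h0 * x) (tbl tKF x) (tbl tL x)) 1 1 3 2 7 1 (-1) :=
  (sideF hx hx').farA (Or.inl rfl) (Or.inr rfl) fun y y' F r1 r2 =>
    farXA_cert (s1 := true) (s2 := false) rfl hκ (ka0 hκ hx hx') (xa0 hx) hx' (covF21 hx hx') (covF71 hx hx') (x1 hx) (x2 hx')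
        Pool.Agent.Strip051.G.IE1.Tab.C.FA27.c_pm_113 noCut_VA noExt_VA F r1 r2 r1 r2

theorem FA27_pm_123 {κ x : ℝ} (hκ : κ * h0 = kenE x) (hx : 39 / 40 ≤ x) (hx' : x < 1) :
    TriA (DD x).cur (farD κ (h0 * x) (tbl tKF x) (tbl tL x)) 1 2 3 2 7 1 (-1) :=
  (sideF hx hx').farA (Or.inl rfl) (Or.inr rfl) fun y y' F r1 r2 =>
    farXA_cert (s1 := true) (s2 := false) rfl hκ (ka0 hκ hx hx') (xa0 hx) hx' (covF21 hx hx') (covF72 hx hx') (x1 hx) (x2 hx')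
        Pool.Agent.Strip051.G.IE1.Tab.C.FA27.c_pm_123 noCut_VA noExt_VA F r1 r2 r1 r2

theorem FA27_pm_133 {κ x : ℝ} (hκ : κ * h0 = kenE x) (hx : 39 / 40 ≤ x) (hx' : x < 1) :
    TriA (DD x).cur (farD κ (h0 * x) (tbl tKF x) (tbl tL x)) 1 3 3 2 7 1 (-1) :=
  (sideF hx hx').farA (Or.inl rfl) (Or.inr rfl) fun y y' F r1 r2 =>
    farXA_cert (s1 := true) (s2 := false) rfl hκ (ka0 hκ hx hx') (xa0 hx) hx' (covF21 hx hx') (covF73 hx hx') (x1 hx) (x2 hx')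
        Pool.Agent.Strip051.G.IE1.Tab.C.FA27.c_pm_133 noCut_VA noExt_VA F r1 r2 r1 r2

theorem FA27_pm_202 {κ x : ℝ} (hκ : κ * h0 = kenE x) (hx : 39 / 40 ≤ x) (hx' : x < 1) :
    TriA (DD x).cur (farD κ (h0 * x) (tbl tKF x) (tbl tL x)) 2 0 2 2 7 1 (-1) :=
  (sideF hx hx').farA (Or.inl rfl) (Or.inr rfl) fun y y' F r1 r2 =>
    (lt_or_ge (h0 * y) 1).elim
      (fun h => farXA_cert (s1 := true) (s2 := false) rfl hκ (ka0 hκ hx hx') (xa0 hx) hx' (covF22a hx hx') (covF70 hx hx') (x1 hx) (x2 hx')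
        Pool.Agent.Strip051.G.IE1.Tab.C.FA27.c_pm_202_a noCut_VA noExt_VA F r1 r2 ⟨r1, h⟩ r2)
      (fun h => farXA_cert (s1 := true) (s2 := false) rfl hκ (ka0 hκ hx hx') (xa0 hx) hx' (covF22b hx hx') (covF70 hx hx') (x1 hx) (x2 hx')
        Pool.Agent.Strip051.G.IE1.Tab.C.FA27.c_pm_202_b noCut_VA noExt_VA F r1 r2 ⟨r1, h⟩ r2)

theorem FA27_pm_203 {κ x : ℝ} (hκ : κ * h0 = kenE x) (hx : 39 / 40 ≤ x) (hx' : x < 1) :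
    TriA (DD x).cur (farD κ (h0 * x) (tbl tKF x) (tbl tL x)) 2 0 3 2 7 1 (-1) :=
  (sideF hx hx').farA (Or.inl rfl) (Or.inr rfl) fun y y' F r1 r2 =>
    (lt_or_ge (h0 * y) 1).elim
      (fun h => farXA_cert (s1 := true) (s2 := false) rfl hκ (ka0 hκ hx hx') (xa0 hx) hx' (covF22a hx hx') (covF70 hx hx') (x1 hx) (x2 hx')
        Pool.Agent.Strip051.G.IE1.Tab.C.FA27.c_pm_203_a noCut_VA noExt_VA F r1 r2 ⟨r1, h⟩ r2)
      (fun h => farXA_cert (s1 := true) (s2 := false) rfl hκ (ka0 hκ hx hx') (xa0 hx) hx' (covF22b hx hx') (covF70 hx hx') (x1 hx) (x2 hx')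
        Pool.Agent.Strip051.G.IE1.Tab.C.FA27.c_pm_203_b noCut_VA noExt_VA F r1 r2 ⟨r1, h⟩ r2)

theorem FA27_pm_213 {κ x : ℝ} (hκ : κ * h0 = kenE x) (hx : 39 / 40 ≤ x) (hx' : x < 1) :
    TriA (DD x).cur (farD κ (h0 * x) (tbl tKF x) (tbl tL x)) 2 1 3 2 7 1 (-1) :=
  (sideF hx hx').farA (Or.inl rfl) (Or.inr rfl) fun y y' F r1 r2 =>
    (lt_or_ge (h0 * y) 1).elim
      (fun h => farXA_cert (s1 := true) (s2 := false) rfl hκ (ka0 hκ hx hx') (xa0 hx) hx' (covF22a hx hx') (covF71 hx hx') (x1 hx) (x2 hx')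
        Pool.Agent.Strip051.G.IE1.Tab.C.FA27.c_pm_213_a noCut_VA noExt_VA F r1 r2 ⟨r1, h⟩ r2)
      (fun h => farXA_cert (s1 := true) (s2 := false) rfl hκ (ka0 hκ hx hx') (xa0 hx) hx' (covF22b hx hx') (covF71 hx hx') (x1 hx) (x2 hx')
        Pool.Agent.Strip051.G.IE1.Tab.C.FA27.c_pm_213_b noCut_VA noExt_VA F r1 r2 ⟨r1, h⟩ r2)

theorem FA27_pm_303 {κ x : ℝ} (hκ : κ * h0 = kenE x) (hx : 39 / 40 ≤ x) (hx' : x < 1) :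
    TriA (DD x).cur (farD κ (h0 * x) (tbl tKF x) (tbl tL x)) 3 0 3 2 7 1 (-1) :=
  (sideF hx hx').farA (Or.inl rfl) (Or.inr rfl) fun y y' F r1 r2 =>
    farXA_cert (s1 := true) (s2 := false) rfl hκ (ka0 hκ hx hx') (xa0 hx) hx' (covF23 hx hx') (covF70 hx hx') (x1 hx) (x2 hx')
        Pool.Agent.Strip051.G.IE1.Tab.C.FA27.c_pm_303 noCut_VA noExt_VA F r1 r2 r1 r2

theorem FA27_pm_313 {κ x : ℝ} (hκ : κ * h0 = kenE x) (hx : 39 / 40 ≤ x) (hx' : x < 1) :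
    TriA (DD x).cur (farD κ (h0 * x) (tbl tKF x) (tbl tL x)) 3 1 3 2 7 1 (-1) :=
  (sideF hx hx').farA (Or.inl rfl) (Or.inr rfl) fun y y' F r1 r2 =>
    farXA_cert (s1 := true) (s2 := false) rfl hκ (ka0 hκ hx hx') (xa0 hx) hx' (covF23 hx hx') (covF71 hx hx') (x1 hx) (x2 hx')
        Pool.Agent.Strip051.G.IE1.Tab.C.FA27.c_pm_313 noCut_VA noExt_VA F r1 r2 r1 r2

theorem FA27_mm_001 {κ x : ℝ} (hκ : κ * h0 = kenE x) (hx : 39 / 40 ≤ x) (hx' : x < 1) :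
    TriA (DD x).cur (farD κ (h0 * x) (tbl tKF x) (tbl tL x)) 0 0 1 2 7 (-1) (-1) :=
  (sideF hx hx').farA (Or.inr rfl) (Or.inr rfl) fun y y' F r1 r2 =>
    farXA_cert (s1 := false) (s2 := false) rfl hκ (ka0 hκ hx hx') (xa0 hx) hx' (covF20 hx hx') (covF70 hx hx') (x1 hx) (x2 hx')
        Pool.Agent.Strip051.G.IE1.Tab.C.FA27.c_mm_001 noCut_VA noExt_VA F r1 r2 r1 r2

theorem FA27_mm_011 {κ x : ℝ} (hκ : κ * h0 = kenE x) (hx : 39 / 40 ≤ x) (hx' : x < 1) :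
    TriA (DD x).cur (farD κ (h0 * x) (tbl tKF x) (tbl tL x)) 0 1 1 2 7 (-1) (-1) :=
  (sideF hx hx').farA (Or.inr rfl) (Or.inr rfl) fun y y' F r1 r2 =>
    farXA_cert (s1 := false) (s2 := false) rfl hκ (ka0 hκ hx hx') (xa0 hx) hx' (covF20 hx hx') (covF71 hx hx') (x1 hx) (x2 hx')
        Pool.Agent.Strip051.G.IE1.Tab.C.FA27.c_mm_011 noCut_VA noExt_VA F r1 r2 r1 r2

theorem FA27_mm_012 {κ x : ℝ} (hκ : κ * h0 = kenE x) (hx : 39 / 40 ≤ x) (hx' : x < 1) :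
    TriA (DD x).cur (farD κ (h0 * x) (tbl tKF x) (tbl tL x)) 0 1 2 2 7 (-1) (-1) :=
  (sideF hx hx').farA (Or.inr rfl) (Or.inr rfl) fun y y' F r1 r2 =>
    farXA_cert (s1 := false) (s2 := false) rfl hκ (ka0 hκ hx hx') (xa0 hx) hx' (covF20 hx hx') (covF71 hx hx') (x1 hx) (x2 hx')
        Pool.Agent.Strip051.G.IE1.Tab.C.FA27.c_mm_012 noCut_VA noExt_VA F r1 r2 r1 r2

theorem FA27_mm_022 {κ x : ℝ} (hκ : κ * h0 = kenE x) (hx : 39 / 40 ≤ x) (hx' : x < 1) :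
    TriA (DD x).cur (farD κ (h0 * x) (tbl tKF x) (tbl tL x)) 0 2 2 2 7 (-1) (-1) :=
  (sideF hx hx').farA (Or.inr rfl) (Or.inr rfl) fun y y' F r1 r2 =>
    farXA_cert (s1 := false) (s2 := false) rfl hκ (ka0 hκ hx hx') (xa0 hx) hx' (covF20 hx hx') (covF72 hx hx') (x1 hx) (x2 hx')
        Pool.Agent.Strip051.G.IE1.Tab.C.FA27.c_mm_022 noCut_VA noExt_VA F r1 r2 r1 r2

theorem FA27_mm_023 {κ x : ℝ} (hκ : κ * h0 = kenE x) (hx : 39 / 40 ≤ x) (hx' : x < 1) :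
    TriA (DD x).cur (farD κ (h0 * x) (tbl tKF x) (tbl tL x)) 0 2 3 2 7 (-1) (-1) :=
  (sideF hx hx').farA (Or.inr rfl) (Or.inr rfl) fun y y' F r1 r2 =>
    farXA_cert (s1 := false) (s2 := false) rfl hκ (ka0 hκ hx hx') (xa0 hx) hx' (covF20 hx hx') (covF72 hx hx') (x1 hx) (x2 hx')
        Pool.Agent.Strip051.G.IE1.Tab.C.FA27.c_mm_023 noCut_VA noExt_VA F r1 r2 r1 r2

theorem FA27_mm_033 {κ x : ℝ} (hκ : κ * h0 = kenE x) (hx : 39 / 40 ≤ x) (hx' : x < 1) :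
    TriA (DD x).cur (farD κ (h0 * x) (tbl tKF x) (tbl tL x)) 0 3 3 2 7 (-1) (-1) :=
  (sideF hx hx').farA (Or.inr rfl) (Or.inr rfl) fun y y' F r1 r2 =>
    farXA_cert (s1 := false) (s2 := false) rfl hκ (ka0 hκ hx hx') (xa0 hx) hx' (covF20 hx hx') (covF73 hx hx') (x1 hx) (x2 hx')
        Pool.Agent.Strip051.G.IE1.Tab.C.FA27.c_mm_033 noCut_VA noExt_VA F r1 r2 r1 r2

theorem FA27_mm_101 {κ x : ℝ} (hκ : κ * h0 = kenE x) (hx : 39 / 40 ≤ x) (hx' : x < 1) :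
    TriA (DD x).cur (farD κ (h0 * x) (tbl tKF x) (tbl tL x)) 1 0 1 2 7 (-1) (-1) :=
  (sideF hx hx').farA (Or.inr rfl) (Or.inr rfl) fun y y' F r1 r2 =>
    farXA_cert (s1 := false) (s2 := false) rfl hκ (ka0 hκ hx hx') (xa0 hx) hx' (covF21 hx hx') (covF70 hx hx') (x1 hx) (x2 hx')
        Pool.Agent.Strip051.G.IE1.Tab.C.FA27.c_mm_101 noCut_VA noExt_VA F r1 r2 r1 r2

theorem FA27_mm_102 {κ x : ℝ} (hκ : κ * h0 = kenE x) (hx : 39 / 40 ≤ x) (hx' : x < 1) :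
    TriA (DD x).cur (farD κ (h0 * x) (tbl tKF x) (tbl tL x)) 1 0 2 2 7 (-1) (-1) :=
  (sideF hx hx').farA (Or.inr rfl) (Or.inr rfl) fun y y' F r1 r2 =>
    farXA_cert (s1 := false) (s2 := false) rfl hκ (ka0 hκ hx hx') (xa0 hx) hx' (covF21 hx hx') (covF70 hx hx') (x1 hx) (x2 hx')
        Pool.Agent.Strip051.G.IE1.Tab.C.FA27.c_mm_102 noCut_VA noExt_VA F r1 r2 r1 r2

theorem FA27_mm_112 {κ x : ℝ} (hκ : κ * h0 = kenE x) (hx : 39 / 40 ≤ x) (hx' : x < 1) :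
    TriA (DD x).cur (farD κ (h0 * x) (tbl tKF x) (tbl tL x)) 1 1 2 2 7 (-1) (-1) :=
  (sideF hx hx').farA (Or.inr rfl) (Or.inr rfl) fun y y' F r1 r2 =>
    farXA_cert (s1 := false) (s2 := false) rfl hκ (ka0 hκ hx hx') (xa0 hx) hx' (covF21 hx hx') (covF71 hx hx') (x1 hx) (x2 hx')
        Pool.Agent.Strip051.G.IE1.Tab.C.FA27.c_mm_112 noCut_VA noExt_VA F r1 r2 r1 r2

theorem FA27_mm_113 {κ x : ℝ} (hκ : κ * h0 = kenE x) (hx : 39 / 40 ≤ x) (hx' : x < 1) :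
    TriA (DD x).cur (farD κ (h0 * x) (tbl tKF x) (tbl tL x)) 1 1 3 2 7 (-1) (-1) :=
  (sideF hx hx').farA (Or.inr rfl) (Or.inr rfl) fun y y' F r1 r2 =>
    farXA_cert (s1 := false) (s2 := false) rfl hκ (ka0 hκ hx hx') (xa0 hx) hx' (covF21 hx hx') (covF71 hx hx') (x1 hx) (x2 hx')
        Pool.Agent.Strip051.G.IE1.Tab.C.FA27.c_mm_113 noCut_VA noExt_VA F r1 r2 r1 r2

theorem FA27_mm_123 {κ x : ℝ} (hκ : κ * h0 = kenE x) (hx : 39 / 40 ≤ x) (hx' : x < 1) :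
    TriA (DD x).cur (farD κ (h0 * x) (tbl tKF x) (tbl tL x)) 1 2 3 2 7 (-1) (-1) :=
  (sideF hx hx').farA (Or.inr rfl) (Or.inr rfl) fun y y' F r1 r2 =>
    farXA_cert (s1 := false) (s2 := false) rfl hκ (ka0 hκ hx hx') (xa0 hx) hx' (covF21 hx hx') (covF72 hx hx') (x1 hx) (x2 hx')
        Pool.Agent.Strip051.G.IE1.Tab.C.FA27.c_mm_123 noCut_VA noExt_VA F r1 r2 r1 r2

theorem FA27_mm_133 {κ x : ℝ} (hκ : κ * h0 = kenE x) (hx : 39 / 40 ≤ x) (hx' : x < 1) :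
    TriA (DD x).cur (farD κ (h0 * x) (tbl tKF x) (tbl tL x)) 1 3 3 2 7 (-1) (-1) :=
  (sideF hx hx').farA (Or.inr rfl) (Or.inr rfl) fun y y' F r1 r2 =>
    farXA_cert (s1 := false) (s2 := false) rfl hκ (ka0 hκ hx hx') (xa0 hx) hx' (covF21 hx hx') (covF73 hx hx') (x1 hx) (x2 hx')
        Pool.Agent.Strip051.G.IE1.Tab.C.FA27.c_mm_133 noCut_VA noExt_VA F r1 r2 r1 r2

theorem FA27_mm_202 {κ x : ℝ} (hκ : κ * h0 = kenE x) (hx : 39 / 40 ≤ x) (hx' : x < 1) :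
    TriA (DD x).cur (farD κ (h0 * x) (tbl tKF x) (tbl tL x)) 2 0 2 2 7 (-1) (-1) :=
  (sideF hx hx').farA (Or.inr rfl) (Or.inr rfl) fun y y' F r1 r2 =>
    (lt_or_ge (h0 * y) 1).elim
      (fun h => farXA_cert (s1 := false) (s2 := false) rfl hκ (ka0 hκ hx hx') (xa0 hx) hx' (covF22a hx hx') (covF70 hx hx') (x1 hx) (x2 hx')
        Pool.Agent.Strip051.G.IE1.Tab.C.FA27.c_mm_202_a noCut_VA noExt_VA F r1 r2 ⟨r1, h⟩ r2)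
      (fun h => farXA_cert (s1 := false) (s2 := false) rfl hκ (ka0 hκ hx hx') (xa0 hx) hx' (covF22b hx hx') (covF70 hx hx') (x1 hx) (x2 hx')
        Pool.Agent.Strip051.G.IE1.Tab.C.FA27.c_mm_202_b noCut_VA noExt_VA F r1 r2 ⟨r1, h⟩ r2)

theorem FA27_mm_203 {κ x : ℝ} (hκ : κ * h0 = kenE x) (hx : 39 / 40 ≤ x) (hx' : x < 1) :
    TriA (DD x).cur (farD κ (h0 * x) (tbl tKF x) (tbl tL x)) 2 0 3 2 7 (-1) (-1) :=
  (sideF hx hx').farA (Or.inr rfl) (Or.inr rfl) fun y y' F r1 r2 =>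
    (lt_or_ge (h0 * y) 1).elim
      (fun h => farXA_cert (s1 := false) (s2 := false) rfl hκ (ka0 hκ hx hx') (xa0 hx) hx' (covF22a hx hx') (covF70 hx hx') (x1 hx) (x2 hx')
        Pool.Agent.Strip051.G.IE1.Tab.C.FA27.c_mm_203_a noCut_VA noExt_VA F r1 r2 ⟨r1, h⟩ r2)
      (fun h => farXA_cert (s1 := false) (s2 := false) rfl hκ (ka0 hκ hx hx') (xa0 hx) hx' (covF22b hx hx') (covF70 hx hx') (x1 hx) (x2 hx')
        Pool.Agent.Strip051.G.IE1.Tab.C.FA27.c_mm_203_b noCut_VA noExt_VA F r1 r2 ⟨r1, h⟩ r2)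

theorem FA27_mm_213 {κ x : ℝ} (hκ : κ * h0 = kenE x) (hx : 39 / 40 ≤ x) (hx' : x < 1) :
    TriA (DD x).cur (farD κ (h0 * x) (tbl tKF x) (tbl tL x)) 2 1 3 2 7 (-1) (-1) :=
  (sideF hx hx').farA (Or.inr rfl) (Or.inr rfl) fun y y' F r1 r2 =>
    (lt_or_ge (h0 * y) 1).elim
      (fun h => farXA_cert (s1 := false) (s2 := false) rfl hκ (ka0 hκ hx hx') (xa0 hx) hx' (covF22a hx hx') (covF71 hx hx') (x1 hx) (x2 hx')
        Pool.Agent.Strip051.G.IE1.Tab.C.FA27.c_mm_213_a noCut_VA noExt_VA F r1 r2 ⟨r1, h⟩ r2)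
      (fun h => farXA_cert (s1 := false) (s2 := false) rfl hκ (ka0 hκ hx hx') (xa0 hx) hx' (covF22b hx hx') (covF71 hx hx') (x1 hx) (x2 hx')
        Pool.Agent.Strip051.G.IE1.Tab.C.FA27.c_mm_213_b noCut_VA noExt_VA F r1 r2 ⟨r1, h⟩ r2)

theorem FA27_mm_303 {κ x : ℝ} (hκ : κ * h0 = kenE x) (hx : 39 / 40 ≤ x) (hx' : x < 1) :
    TriA (DD x).cur (farD κ (h0 * x) (tbl tKF x) (tbl tL x)) 3 0 3 2 7 (-1) (-1) :=
  (sideF hx hx').farA (Or.inr rfl) (Or.inr rfl) fun y y' F r1 r2 =>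
    farXA_cert (s1 := false) (s2 := false) rfl hκ (ka0 hκ hx hx') (xa0 hx) hx' (covF23 hx hx') (covF70 hx hx') (x1 hx) (x2 hx')
        Pool.Agent.Strip051.G.IE1.Tab.C.FA27.c_mm_303 noCut_VA noExt_VA F r1 r2 r1 r2

theorem FA27_mm_313 {κ x : ℝ} (hκ : κ * h0 = kenE x) (hx : 39 / 40 ≤ x) (hx' : x < 1) :
    TriA (DD x).cur (farD κ (h0 * x) (tbl tKF x) (tbl tL x)) 3 1 3 2 7 (-1) (-1) :=
  (sideF hx hx').farA (Or.inr rfl) (Or.inr rfl) fun y y' F r1 r2 =>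
    farXA_cert (s1 := false) (s2 := false) rfl hκ (ka0 hκ hx hx') (xa0 hx) hx' (covF23 hx hx') (covF71 hx hx') (x1 hx) (x2 hx')
        Pool.Agent.Strip051.G.IE1.Tab.C.FA27.c_mm_313 noCut_VA noExt_VA F r1 r2 r1 r2

theorem FA27 {κ x : ℝ} (hκ : κ * h0 = kenE x) (hx : 39 / 40 ≤ x) (hx' : x < 1) : AllTA (DD x).cur (farD κ (h0 * x) (tbl tKF x) (tbl tL x)) 2 7 where
  pp := all17 (Q := fun a b c => TriA (DD x).cur (farD κ (h0 * x) (tbl tKF x) (tbl tL x)) a b c 2 7 1 1)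
    (FA27_pp_001 hκ hx hx') (FA27_pp_011 hκ hx hx') (FA27_pp_012 hκ hx hx') (FA27_pp_022 hκ hx hx') (FA27_pp_023 hκ hx hx') (FA27_pp_033 hκ hx hx') (FA27_pp_101 hκ hx hx') (FA27_pp_102 hκ hx hx') (FA27_pp_112 hκ hx hx') (FA27_pp_113 hκ hx hx') (FA27_pp_123 hκ hx hx') (FA27_pp_133 hκ hx hx') (FA27_pp_202 hκ hx hx') (FA27_pp_203 hκ hx hx') (FA27_pp_213 hκ hx hx') (FA27_pp_303 hκ hx hx') (FA27_pp_313 hκ hx hx')
  pm := all17 (Q := fun a b c => TriA (DD x).cur (farD κ (h0 * x) (tbl tKF x) (tbl tL x)) a b c 2 7 1 (-1))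
    (FA27_pm_001 hκ hx hx') (FA27_pm_011 hκ hx hx') (FA27_pm_012 hκ hx hx') (FA27_pm_022 hκ hx hx') (FA27_pm_023 hκ hx hx') (FA27_pm_033 hκ hx hx') (FA27_pm_101 hκ hx hx') (FA27_pm_102 hκ hx hx') (FA27_pm_112 hκ hx hx') (FA27_pm_113 hκ hx hx') (FA27_pm_123 hκ hx hx') (FA27_pm_133 hκ hx hx') (FA27_pm_202 hκ hx hx') (FA27_pm_203 hκ hx hx') (FA27_pm_213 hκ hx hx') (FA27_pm_303 hκ hx hx') (FA27_pm_313 hκ hx hx')
  mm := all17 (Q := fun a b c => TriA (DD x).cur (farD κ (h0 * x) (tbl tKF x) (tbl tL x)) a b c 2 7 (-1) (-1))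
    (FA27_mm_001 hκ hx hx') (FA27_mm_011 hκ hx hx') (FA27_mm_012 hκ hx hx') (FA27_mm_022 hκ hx hx') (FA27_mm_023 hκ hx hx') (FA27_mm_033 hκ hx hx') (FA27_mm_101 hκ hx hx') (FA27_mm_102 hκ hx hx') (FA27_mm_112 hκ hx hx') (FA27_mm_113 hκ hx hx') (FA27_mm_123 hκ hx hx') (FA27_mm_133 hκ hx hx') (FA27_mm_202 hκ hx hx') (FA27_mm_203 hκ hx hx') (FA27_mm_213 hκ hx hx') (FA27_mm_303 hκ hx hx') (FA27_mm_313 hκ hx hx')

theorem FA33_pp_001 {κ x : ℝ} (hκ : κ * h0 = kenE x) (hx : 39 / 40 ≤ x) (hx' : x < 1) :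
    TriA (DD x).cur (farD κ (h0 * x) (tbl tKF x) (tbl tL x)) 0 0 1 3 3 1 1 :=
  (sideF hx hx').farA (Or.inl rfl) (Or.inl rfl) fun y y' F r1 r2 =>
    farXA_cert (s1 := true) (s2 := true) rfl hκ (ka0 hκ hx hx') (xa0 hx) hx' (covF30 hx hx') (covF30 hx hx') (x1 hx) (x2 hx')
        Pool.Agent.Strip051.G.IE1.Tab.C.FA33.c_pp_001 noCut_VA noExt_VA F r1 r2 r1 r2

theorem FA33_pp_011 {κ x : ℝ} (hκ : κ * h0 = kenE x) (hx : 39 / 40 ≤ x) (hx' : x < 1) :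
    TriA (DD x).cur (farD κ (h0 * x) (tbl tKF x) (tbl tL x)) 0 1 1 3 3 1 1 :=
  (sideF hx hx').farA (Or.inl rfl) (Or.inl rfl) fun y y' F r1 r2 =>
    farXA_cert (s1 := true) (s2 := true) rfl hκ (ka0 hκ hx hx') (xa0 hx) hx' (covF30 hx hx') (covF31 hx hx') (x1 hx) (x2 hx')
        Pool.Agent.Strip051.G.IE1.Tab.C.FA33.c_pp_011 noCut_VA noExt_VA F r1 r2 r1 r2

theorem FA33_pp_012 {κ x : ℝ} (hκ : κ * h0 = kenE x) (hx : 39 / 40 ≤ x) (hx' : x < 1) :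
    TriA (DD x).cur (farD κ (h0 * x) (tbl tKF x) (tbl tL x)) 0 1 2 3 3 1 1 :=
  (sideF hx hx').farA (Or.inl rfl) (Or.inl rfl) fun y y' F r1 r2 =>
    farXA_cert (s1 := true) (s2 := true) rfl hκ (ka0 hκ hx hx') (xa0 hx) hx' (covF30 hx hx') (covF31 hx hx') (x1 hx) (x2 hx')
        Pool.Agent.Strip051.G.IE1.Tab.C.FA33.c_pp_012 noCut_VA noExt_VA F r1 r2 r1 r2

theorem FA33_pp_022 {κ x : ℝ} (hκ : κ * h0 = kenE x) (hx : 39 / 40 ≤ x) (hx' : x < 1) :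
    TriA (DD x).cur (farD κ (h0 * x) (tbl tKF x) (tbl tL x)) 0 2 2 3 3 1 1 :=
  (sideF hx hx').farA (Or.inl rfl) (Or.inl rfl) fun y y' F r1 r2 =>
    farXA_cert (s1 := true) (s2 := true) rfl hκ (ka0 hκ hx hx') (xa0 hx) hx' (covF30 hx hx') (covF32 hx hx') (x1 hx) (x2 hx')
        Pool.Agent.Strip051.G.IE1.Tab.C.FA33.c_pp_022 (cutVA_cons (Pool.Agent.Strip051.G.IE1.Tab.qF_A33pp_022_011 hκ hx hx') cutVA_nil) noExt_VA F r1 r2 r1 r2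

theorem FA33_pp_023 {κ x : ℝ} (hκ : κ * h0 = kenE x) (hx : 39 / 40 ≤ x) (hx' : x < 1) :
    TriA (DD x).cur (farD κ (h0 * x) (tbl tKF x) (tbl tL x)) 0 2 3 3 3 1 1 :=
  (sideF hx hx').farA (Or.inl rfl) (Or.inl rfl) fun y y' F r1 r2 =>
    farXA_cert (s1 := true) (s2 := true) rfl hκ (ka0 hκ hx hx') (xa0 hx) hx' (covF30 hx hx') (covF32 hx hx') (x1 hx) (x2 hx')
        Pool.Agent.Strip051.G.IE1.Tab.C.FA33.c_pp_023 noCut_VA noExt_VA F r1 r2 r1 r2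

theorem FA33_pp_033 {κ x : ℝ} (hκ : κ * h0 = kenE x) (hx : 39 / 40 ≤ x) (hx' : x < 1) :
    TriA (DD x).cur (farD κ (h0 * x) (tbl tKF x) (tbl tL x)) 0 3 3 3 3 1 1 :=
  (sideF hx hx').farA (Or.inl rfl) (Or.inl rfl) fun y y' F r1 r2 =>
    farXA_cert (s1 := true) (s2 := true) rfl hκ (ka0 hκ hx hx') (xa0 hx) hx' (covF30 hx hx') (covF33 hx hx') (x1 hx) (x2 hx')
        Pool.Agent.Strip051.G.IE1.Tab.C.FA33.c_pp_033 noCut_VA noExt_VA F r1 r2 r1 r2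

theorem FA33_pp_101 {κ x : ℝ} (hκ : κ * h0 = kenE x) (hx : 39 / 40 ≤ x) (hx' : x < 1) :
    TriA (DD x).cur (farD κ (h0 * x) (tbl tKF x) (tbl tL x)) 1 0 1 3 3 1 1 :=
  (sideF hx hx').farA (Or.inl rfl) (Or.inl rfl) fun y y' F r1 r2 =>
    farXA_cert (s1 := true) (s2 := true) rfl hκ (ka0 hκ hx hx') (xa0 hx) hx' (covF31 hx hx') (covF30 hx hx') (x1 hx) (x2 hx')
        Pool.Agent.Strip051.G.IE1.Tab.C.FA33.c_pp_101 noCut_VA noExt_VA F r1 r2 r1 r2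

theorem FA33_pp_102 {κ x : ℝ} (hκ : κ * h0 = kenE x) (hx : 39 / 40 ≤ x) (hx' : x < 1) :
    TriA (DD x).cur (farD κ (h0 * x) (tbl tKF x) (tbl tL x)) 1 0 2 3 3 1 1 :=
  (sideF hx hx').farA (Or.inl rfl) (Or.inl rfl) fun y y' F r1 r2 =>
    farXA_cert (s1 := true) (s2 := true) rfl hκ (ka0 hκ hx hx') (xa0 hx) hx' (covF31 hx hx') (covF30 hx hx') (x1 hx) (x2 hx')
        Pool.Agent.Strip051.G.IE1.Tab.C.FA33.c_pp_102 noCut_VA noExt_VA F r1 r2 r1 r2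

theorem FA33_pp_112 {κ x : ℝ} (hκ : κ * h0 = kenE x) (hx : 39 / 40 ≤ x) (hx' : x < 1) :
    TriA (DD x).cur (farD κ (h0 * x) (tbl tKF x) (tbl tL x)) 1 1 2 3 3 1 1 :=
  (sideF hx hx').farA (Or.inl rfl) (Or.inl rfl) fun y y' F r1 r2 =>
    farXA_cert (s1 := true) (s2 := true) rfl hκ (ka0 hκ hx hx') (xa0 hx) hx' (covF31 hx hx') (covF31 hx hx') (x1 hx) (x2 hx')
        Pool.Agent.Strip051.G.IE1.Tab.C.FA33.c_pp_112 noCut_VA noExt_VA F r1 r2 r1 r2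

theorem FA33_pp_113 {κ x : ℝ} (hκ : κ * h0 = kenE x) (hx : 39 / 40 ≤ x) (hx' : x < 1) :
    TriA (DD x).cur (farD κ (h0 * x) (tbl tKF x) (tbl tL x)) 1 1 3 3 3 1 1 :=
  (sideF hx hx').farA (Or.inl rfl) (Or.inl rfl) fun y y' F r1 r2 =>
    farXA_cert (s1 := true) (s2 := true) rfl hκ (ka0 hκ hx hx') (xa0 hx) hx' (covF31 hx hx') (covF31 hx hx') (x1 hx) (x2 hx')
        Pool.Agent.Strip051.G.IE1.Tab.C.FA33.c_pp_113 noCut_VA noExt_VA F r1 r2 r1 r2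

theorem FA33_pp_123 {κ x : ℝ} (hκ : κ * h0 = kenE x) (hx : 39 / 40 ≤ x) (hx' : x < 1) :
    TriA (DD x).cur (farD κ (h0 * x) (tbl tKF x) (tbl tL x)) 1 2 3 3 3 1 1 :=
  (sideF hx hx').farA (Or.inl rfl) (Or.inl rfl) fun y y' F r1 r2 =>
    farXA_cert (s1 := true) (s2 := true) rfl hκ (ka0 hκ hx hx') (xa0 hx) hx' (covF31 hx hx') (covF32 hx hx') (x1 hx) (x2 hx')
        Pool.Agent.Strip051.G.IE1.Tab.C.FA33.c_pp_123 noCut_VA noExt_VA F r1 r2 r1 r2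

theorem FA33_pp_133 {κ x : ℝ} (hκ : κ * h0 = kenE x) (hx : 39 / 40 ≤ x) (hx' : x < 1) :
    TriA (DD x).cur (farD κ (h0 * x) (tbl tKF x) (tbl tL x)) 1 3 3 3 3 1 1 :=
  (sideF hx hx').farA (Or.inl rfl) (Or.inl rfl) fun y y' F r1 r2 =>
    farXA_cert (s1 := true) (s2 := true) rfl hκ (ka0 hκ hx hx') (xa0 hx) hx' (covF31 hx hx') (covF33 hx hx') (x1 hx) (x2 hx')
        Pool.Agent.Strip051.G.IE1.Tab.C.FA33.c_pp_133 noCut_VA noExt_VA F r1 r2 r1 r2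

theorem FA33_pp_202 {κ x : ℝ} (hκ : κ * h0 = kenE x) (hx : 39 / 40 ≤ x) (hx' : x < 1) :
    TriA (DD x).cur (farD κ (h0 * x) (tbl tKF x) (tbl tL x)) 2 0 2 3 3 1 1 :=
  (sideF hx hx').farA (Or.inl rfl) (Or.inl rfl) fun y y' F r1 r2 =>
    farXA_cert (s1 := true) (s2 := true) rfl hκ (ka0 hκ hx hx') (xa0 hx) hx' (covF32 hx hx') (covF30 hx hx') (x1 hx) (x2 hx')
        Pool.Agent.Strip051.G.IE1.Tab.C.FA33.c_pp_202 noCut_VA noExt_VA F r1 r2 r1 r2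

theorem FA33_pp_203 {κ x : ℝ} (hκ : κ * h0 = kenE x) (hx : 39 / 40 ≤ x) (hx' : x < 1) :
    TriA (DD x).cur (farD κ (h0 * x) (tbl tKF x) (tbl tL x)) 2 0 3 3 3 1 1 :=
  (sideF hx hx').farA (Or.inl rfl) (Or.inl rfl) fun y y' F r1 r2 =>
    farXA_cert (s1 := true) (s2 := true) rfl hκ (ka0 hκ hx hx') (xa0 hx) hx' (covF32 hx hx') (covF30 hx hx') (x1 hx) (x2 hx')
        Pool.Agent.Strip051.G.IE1.Tab.C.FA33.c_pp_203 noCut_VA noExt_VA F r1 r2 r1 r2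

theorem FA33_pp_213 {κ x : ℝ} (hκ : κ * h0 = kenE x) (hx : 39 / 40 ≤ x) (hx' : x < 1) :
    TriA (DD x).cur (farD κ (h0 * x) (tbl tKF x) (tbl tL x)) 2 1 3 3 3 1 1 :=
  (sideF hx hx').farA (Or.inl rfl) (Or.inl rfl) fun y y' F r1 r2 =>
    farXA_cert (s1 := true) (s2 := true) rfl hκ (ka0 hκ hx hx') (xa0 hx) hx' (covF32 hx hx') (covF31 hx hx') (x1 hx) (x2 hx')
        Pool.Agent.Strip051.G.IE1.Tab.C.FA33.c_pp_213 noCut_VA noExt_VA F r1 r2 r1 r2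

theorem FA33_pp_303 {κ x : ℝ} (hκ : κ * h0 = kenE x) (hx : 39 / 40 ≤ x) (hx' : x < 1) :
    TriA (DD x).cur (farD κ (h0 * x) (tbl tKF x) (tbl tL x)) 3 0 3 3 3 1 1 :=
  (sideF hx hx').farA (Or.inl rfl) (Or.inl rfl) fun y y' F r1 r2 =>
    farXA_cert (s1 := true) (s2 := true) rfl hκ (ka0 hκ hx hx') (xa0 hx) hx' (covF33 hx hx') (covF30 hx hx') (x1 hx) (x2 hx')
        Pool.Agent.Strip051.G.IE1.Tab.C.FA33.c_pp_303 noCut_VA noExt_VA F r1 r2 r1 r2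

theorem FA33_pp_313 {κ x : ℝ} (hκ : κ * h0 = kenE x) (hx : 39 / 40 ≤ x) (hx' : x < 1) :
    TriA (DD x).cur (farD κ (h0 * x) (tbl tKF x) (tbl tL x)) 3 1 3 3 3 1 1 :=
  (sideF hx hx').farA (Or.inl rfl) (Or.inl rfl) fun y y' F r1 r2 =>
    farXA_cert (s1 := true) (s2 := true) rfl hκ (ka0 hκ hx hx') (xa0 hx) hx' (covF33 hx hx') (covF31 hx hx') (x1 hx) (x2 hx')
        Pool.Agent.Strip051.G.IE1.Tab.C.FA33.c_pp_313 noCut_VA noExt_VA F r1 r2 r1 r2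

theorem FA33_pm_001 {κ x : ℝ} (hκ : κ * h0 = kenE x) (hx : 39 / 40 ≤ x) (hx' : x < 1) :
    TriA (DD x).cur (farD κ (h0 * x) (tbl tKF x) (tbl tL x)) 0 0 1 3 3 1 (-1) :=
  (sideF hx hx').farA (Or.inl rfl) (Or.inr rfl) fun y y' F r1 r2 =>
    farXA_cert (s1 := true) (s2 := false) rfl hκ (ka0 hκ hx hx') (xa0 hx) hx' (covF30 hx hx') (covF30 hx hx') (x1 hx) (x2 hx')
        Pool.Agent.Strip051.G.IE1.Tab.C.FA33.c_pm_001 noCut_VA noExt_VA F r1 r2 r1 r2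

theorem FA33_pm_011 {κ x : ℝ} (hκ : κ * h0 = kenE x) (hx : 39 / 40 ≤ x) (hx' : x < 1) :
    TriA (DD x).cur (farD κ (h0 * x) (tbl tKF x) (tbl tL x)) 0 1 1 3 3 1 (-1) :=
  (sideF hx hx').farA (Or.inl rfl) (Or.inr rfl) fun y y' F r1 r2 =>
    farXA_cert (s1 := true) (s2 := false) rfl hκ (ka0 hκ hx hx') (xa0 hx) hx' (covF30 hx hx') (covF31 hx hx') (x1 hx) (x2 hx')
        Pool.Agent.Strip051.G.IE1.Tab.C.FA33.c_pm_011 (cutVA_cons (Pool.Agent.Strip051.G.IE1.Tab.qF_A33pm_011_011 hκ hx hx') cutVA_nil) noExt_VA F r1 r2 r1 r2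

theorem FA33_pm_012 {κ x : ℝ} (hκ : κ * h0 = kenE x) (hx : 39 / 40 ≤ x) (hx' : x < 1) :
    TriA (DD x).cur (farD κ (h0 * x) (tbl tKF x) (tbl tL x)) 0 1 2 3 3 1 (-1) :=
  (sideF hx hx').farA (Or.inl rfl) (Or.inr rfl) fun y y' F r1 r2 =>
    farXA_cert (s1 := true) (s2 := false) rfl hκ (ka0 hκ hx hx') (xa0 hx) hx' (covF30 hx hx') (covF31 hx hx') (x1 hx) (x2 hx')
        Pool.Agent.Strip051.G.IE1.Tab.C.FA33.c_pm_012 (cutVA_cons (Pool.Agent.Strip051.G.IE1.Tab.qF_A33pm_012_011 hκ hx hx') cutVA_nil) noExt_VA F r1 r2 r1 r2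

theorem FA33_pm_022 {κ x : ℝ} (hκ : κ * h0 = kenE x) (hx : 39 / 40 ≤ x) (hx' : x < 1) :
    TriA (DD x).cur (farD κ (h0 * x) (tbl tKF x) (tbl tL x)) 0 2 2 3 3 1 (-1) :=
  (sideF hx hx').farA (Or.inl rfl) (Or.inr rfl) fun y y' F r1 r2 =>
    farXA_cert (s1 := true) (s2 := false) rfl hκ (ka0 hκ hx hx') (xa0 hx) hx' (covF30 hx hx') (covF32 hx hx') (x1 hx) (x2 hx')
        Pool.Agent.Strip051.G.IE1.Tab.C.FA33.c_pm_022 (cutVA_cons (Pool.Agent.Strip051.G.IE1.Tab.qF_A33pm_022_011 hκ hx hx') cutVA_nil) noExt_VA F r1 r2 r1 r2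

theorem FA33_pm_023 {κ x : ℝ} (hκ : κ * h0 = kenE x) (hx : 39 / 40 ≤ x) (hx' : x < 1) :
    TriA (DD x).cur (farD κ (h0 * x) (tbl tKF x) (tbl tL x)) 0 2 3 3 3 1 (-1) :=
  (sideF hx hx').farA (Or.inl rfl) (Or.inr rfl) fun y y' F r1 r2 =>
    farXA_cert (s1 := true) (s2 := false) rfl hκ (ka0 hκ hx hx') (xa0 hx) hx' (covF30 hx hx') (covF32 hx hx') (x1 hx) (x2 hx')
        Pool.Agent.Strip051.G.IE1.Tab.C.FA33.c_pm_023 noCut_VA noExt_VA F r1 r2 r1 r2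

theorem FA33_pm_033 {κ x : ℝ} (hκ : κ * h0 = kenE x) (hx : 39 / 40 ≤ x) (hx' : x < 1) :
    TriA (DD x).cur (farD κ (h0 * x) (tbl tKF x) (tbl tL x)) 0 3 3 3 3 1 (-1) :=
  (sideF hx hx').farA (Or.inl rfl) (Or.inr rfl) fun y y' F r1 r2 =>
    farXA_cert (s1 := true) (s2 := false) rfl hκ (ka0 hκ hx hx') (xa0 hx) hx' (covF30 hx hx') (covF33 hx hx') (x1 hx) (x2 hx')
        Pool.Agent.Strip051.G.IE1.Tab.C.FA33.c_pm_033 noCut_VA noExt_VA F r1 r2 r1 r2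

theorem FA33_pm_101 {κ x : ℝ} (hκ : κ * h0 = kenE x) (hx : 39 / 40 ≤ x) (hx' : x < 1) :
    TriA (DD x).cur (farD κ (h0 * x) (tbl tKF x) (tbl tL x)) 1 0 1 3 3 1 (-1) :=
  (sideF hx hx').farA (Or.inl rfl) (Or.inr rfl) fun y y' F r1 r2 =>
    farXA_cert (s1 := true) (s2 := false) rfl hκ (ka0 hκ hx hx') (xa0 hx) hx' (covF31 hx hx') (covF30 hx hx') (x1 hx) (x2 hx')
        Pool.Agent.Strip051.G.IE1.Tab.C.FA33.c_pm_101 (cutVA_cons (Pool.Agent.Strip051.G.IE1.Tab.qF_A33pm_101_101 hκ hx hx') cutVA_nil) noExt_VA F r1 r2 r1 r2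

theorem FA33_pm_102 {κ x : ℝ} (hκ : κ * h0 = kenE x) (hx : 39 / 40 ≤ x) (hx' : x < 1) :
    TriA (DD x).cur (farD κ (h0 * x) (tbl tKF x) (tbl tL x)) 1 0 2 3 3 1 (-1) :=
  (sideF hx hx').farA (Or.inl rfl) (Or.inr rfl) fun y y' F r1 r2 =>
    farXA_cert (s1 := true) (s2 := false) rfl hκ (ka0 hκ hx hx') (xa0 hx) hx' (covF31 hx hx') (covF30 hx hx') (x1 hx) (x2 hx')
        Pool.Agent.Strip051.G.IE1.Tab.C.FA33.c_pm_102 (cutVA_cons (Pool.Agent.Strip051.G.IE1.Tab.qF_A33pm_102_101 hκ hx hx') cutVA_nil) noExt_VA F r1 r2 r1 r2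

theorem FA33_pm_112 {κ x : ℝ} (hκ : κ * h0 = kenE x) (hx : 39 / 40 ≤ x) (hx' : x < 1) :
    TriA (DD x).cur (farD κ (h0 * x) (tbl tKF x) (tbl tL x)) 1 1 2 3 3 1 (-1) :=
  (sideF hx hx').farA (Or.inl rfl) (Or.inr rfl) fun y y' F r1 r2 =>
    farXA_cert (s1 := true) (s2 := false) rfl hκ (ka0 hκ hx hx') (xa0 hx) hx' (covF31 hx hx') (covF31 hx hx') (x1 hx) (x2 hx')
        Pool.Agent.Strip051.G.IE1.Tab.C.FA33.c_pm_112 noCut_VA noExt_VA F r1 r2 r1 r2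

theorem FA33_pm_113 {κ x : ℝ} (hκ : κ * h0 = kenE x) (hx : 39 / 40 ≤ x) (hx' : x < 1) :
    TriA (DD x).cur (farD κ (h0 * x) (tbl tKF x) (tbl tL x)) 1 1 3 3 3 1 (-1) :=
  (sideF hx hx').farA (Or.inl rfl) (Or.inr rfl) fun y y' F r1 r2 =>
    farXA_cert (s1 := true) (s2 := false) rfl hκ (ka0 hκ hx hx') (xa0 hx) hx' (covF31 hx hx') (covF31 hx hx') (x1 hx) (x2 hx')
        Pool.Agent.Strip051.G.IE1.Tab.C.FA33.c_pm_113 noCut_VA noExt_VA F r1 r2 r1 r2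

theorem FA33_pm_123 {κ x : ℝ} (hκ : κ * h0 = kenE x) (hx : 39 / 40 ≤ x) (hx' : x < 1) :
    TriA (DD x).cur (farD κ (h0 * x) (tbl tKF x) (tbl tL x)) 1 2 3 3 3 1 (-1) :=
  (sideF hx hx').farA (Or.inl rfl) (Or.inr rfl) fun y y' F r1 r2 =>
    farXA_cert (s1 := true) (s2 := false) rfl hκ (ka0 hκ hx hx') (xa0 hx) hx' (covF31 hx hx') (covF32 hx hx') (x1 hx) (x2 hx')
        Pool.Agent.Strip051.G.IE1.Tab.C.FA33.c_pm_123 noCut_VA noExt_VA F r1 r2 r1 r2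

theorem FA33_pm_133 {κ x : ℝ} (hκ : κ * h0 = kenE x) (hx : 39 / 40 ≤ x) (hx' : x < 1) :
    TriA (DD x).cur (farD κ (h0 * x) (tbl tKF x) (tbl tL x)) 1 3 3 3 3 1 (-1) :=
  (sideF hx hx').farA (Or.inl rfl) (Or.inr rfl) fun y y' F r1 r2 =>
    farXA_cert (s1 := true) (s2 := false) rfl hκ (ka0 hκ hx hx') (xa0 hx) hx' (covF31 hx hx') (covF33 hx hx') (x1 hx) (x2 hx')
        Pool.Agent.Strip051.G.IE1.Tab.C.FA33.c_pm_133 noCut_VA noExt_VA F r1 r2 r1 r2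

theorem FA33_pm_202 {κ x : ℝ} (hκ : κ * h0 = kenE x) (hx : 39 / 40 ≤ x) (hx' : x < 1) :
    TriA (DD x).cur (farD κ (h0 * x) (tbl tKF x) (tbl tL x)) 2 0 2 3 3 1 (-1) :=
  (sideF hx hx').farA (Or.inl rfl) (Or.inr rfl) fun y y' F r1 r2 =>
    farXA_cert (s1 := true) (s2 := false) rfl hκ (ka0 hκ hx hx') (xa0 hx) hx' (covF32 hx hx') (covF30 hx hx') (x1 hx) (x2 hx')
        Pool.Agent.Strip051.G.IE1.Tab.C.FA33.c_pm_202 (cutVA_cons (Pool.Agent.Strip051.G.IE1.Tab.qF_A33pm_202_101 hκ hx hx') cutVA_nil) noExt_VA F r1 r2 r1 r2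

theorem FA33_pm_203 {κ x : ℝ} (hκ : κ * h0 = kenE x) (hx : 39 / 40 ≤ x) (hx' : x < 1) :
    TriA (DD x).cur (farD κ (h0 * x) (tbl tKF x) (tbl tL x)) 2 0 3 3 3 1 (-1) :=
  (sideF hx hx').farA (Or.inl rfl) (Or.inr rfl) fun y y' F r1 r2 =>
    farXA_cert (s1 := true) (s2 := false) rfl hκ (ka0 hκ hx hx') (xa0 hx) hx' (covF32 hx hx') (covF30 hx hx') (x1 hx) (x2 hx')
        Pool.Agent.Strip051.G.IE1.Tab.C.FA33.c_pm_203 noCut_VA noExt_VA F r1 r2 r1 r2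

theorem FA33_pm_213 {κ x : ℝ} (hκ : κ * h0 = kenE x) (hx : 39 / 40 ≤ x) (hx' : x < 1) :
    TriA (DD x).cur (farD κ (h0 * x) (tbl tKF x) (tbl tL x)) 2 1 3 3 3 1 (-1) :=
  (sideF hx hx').farA (Or.inl rfl) (Or.inr rfl) fun y y' F r1 r2 =>
    farXA_cert (s1 := true) (s2 := false) rfl hκ (ka0 hκ hx hx') (xa0 hx) hx' (covF32 hx hx') (covF31 hx hx') (x1 hx) (x2 hx')
        Pool.Agent.Strip051.G.IE1.Tab.C.FA33.c_pm_213 noCut_VA noExt_VA F r1 r2 r1 r2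

theorem FA33_pm_303 {κ x : ℝ} (hκ : κ * h0 = kenE x) (hx : 39 / 40 ≤ x) (hx' : x < 1) :
    TriA (DD x).cur (farD κ (h0 * x) (tbl tKF x) (tbl tL x)) 3 0 3 3 3 1 (-1) :=
  (sideF hx hx').farA (Or.inl rfl) (Or.inr rfl) fun y y' F r1 r2 =>
    farXA_cert (s1 := true) (s2 := false) rfl hκ (ka0 hκ hx hx') (xa0 hx) hx' (covF33 hx hx') (covF30 hx hx') (x1 hx) (x2 hx')
        Pool.Agent.Strip051.G.IE1.Tab.C.FA33.c_pm_303 noCut_VA noExt_VA F r1 r2 r1 r2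

theorem FA33_pm_313 {κ x : ℝ} (hκ : κ * h0 = kenE x) (hx : 39 / 40 ≤ x) (hx' : x < 1) :
    TriA (DD x).cur (farD κ (h0 * x) (tbl tKF x) (tbl tL x)) 3 1 3 3 3 1 (-1) :=
  (sideF hx hx').farA (Or.inl rfl) (Or.inr rfl) fun y y' F r1 r2 =>
    farXA_cert (s1 := true) (s2 := false) rfl hκ (ka0 hκ hx hx') (xa0 hx) hx' (covF33 hx hx') (covF31 hx hx') (x1 hx) (x2 hx')
        Pool.Agent.Strip051.G.IE1.Tab.C.FA33.c_pm_313 noCut_VA noExt_VA F r1 r2 r1 r2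

theorem FA33_mm_001 {κ x : ℝ} (hκ : κ * h0 = kenE x) (hx : 39 / 40 ≤ x) (hx' : x < 1) :
    TriA (DD x).cur (farD κ (h0 * x) (tbl tKF x) (tbl tL x)) 0 0 1 3 3 (-1) (-1) :=
  (sideF hx hx').farA (Or.inr rfl) (Or.inr rfl) fun y y' F r1 r2 =>
    farXA_cert (s1 := false) (s2 := false) rfl hκ (ka0 hκ hx hx') (xa0 hx) hx' (covF30 hx hx') (covF30 hx hx') (x1 hx) (x2 hx')
        Pool.Agent.Strip051.G.IE1.Tab.C.FA33.c_mm_001 noCut_VA noExt_VA F r1 r2 r1 r2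

theorem FA33_mm_011 {κ x : ℝ} (hκ : κ * h0 = kenE x) (hx : 39 / 40 ≤ x) (hx' : x < 1) :
    TriA (DD x).cur (farD κ (h0 * x) (tbl tKF x) (tbl tL x)) 0 1 1 3 3 (-1) (-1) :=
  (sideF hx hx').farA (Or.inr rfl) (Or.inr rfl) fun y y' F r1 r2 =>
    farXA_cert (s1 := false) (s2 := false) rfl hκ (ka0 hκ hx hx') (xa0 hx) hx' (covF30 hx hx') (covF31 hx hx') (x1 hx) (x2 hx')
        Pool.Agent.Strip051.G.IE1.Tab.C.FA33.c_mm_011 noCut_VA noExt_VA F r1 r2 r1 r2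

theorem FA33_mm_012 {κ x : ℝ} (hκ : κ * h0 = kenE x) (hx : 39 / 40 ≤ x) (hx' : x < 1) :
    TriA (DD x).cur (farD κ (h0 * x) (tbl tKF x) (tbl tL x)) 0 1 2 3 3 (-1) (-1) :=
  (sideF hx hx').farA (Or.inr rfl) (Or.inr rfl) fun y y' F r1 r2 =>
    farXA_cert (s1 := false) (s2 := false) rfl hκ (ka0 hκ hx hx') (xa0 hx) hx' (covF30 hx hx') (covF31 hx hx') (x1 hx) (x2 hx')
        Pool.Agent.Strip051.G.IE1.Tab.C.FA33.c_mm_012 noCut_VA noExt_VA F r1 r2 r1 r2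

theorem FA33_mm_022 {κ x : ℝ} (hκ : κ * h0 = kenE x) (hx : 39 / 40 ≤ x) (hx' : x < 1) :
    TriA (DD x).cur (farD κ (h0 * x) (tbl tKF x) (tbl tL x)) 0 2 2 3 3 (-1) (-1) :=
  (sideF hx hx').farA (Or.inr rfl) (Or.inr rfl) fun y y' F r1 r2 =>
    farXA_cert (s1 := false) (s2 := false) rfl hκ (ka0 hκ hx hx') (xa0 hx) hx' (covF30 hx hx') (covF32 hx hx') (x1 hx) (x2 hx')
        Pool.Agent.Strip051.G.IE1.Tab.C.FA33.c_mm_022 noCut_VA noExt_VA F r1 r2 r1 r2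

theorem FA33_mm_023 {κ x : ℝ} (hκ : κ * h0 = kenE x) (hx : 39 / 40 ≤ x) (hx' : x < 1) :
    TriA (DD x).cur (farD κ (h0 * x) (tbl tKF x) (tbl tL x)) 0 2 3 3 3 (-1) (-1) :=
  (sideF hx hx').farA (Or.inr rfl) (Or.inr rfl) fun y y' F r1 r2 =>
    farXA_cert (s1 := false) (s2 := false) rfl hκ (ka0 hκ hx hx') (xa0 hx) hx' (covF30 hx hx') (covF32 hx hx') (x1 hx) (x2 hx')
        Pool.Agent.Strip051.G.IE1.Tab.C.FA33.c_mm_023 noCut_VA noExt_VA F r1 r2 r1 r2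

theorem FA33_mm_033 {κ x : ℝ} (hκ : κ * h0 = kenE x) (hx : 39 / 40 ≤ x) (hx' : x < 1) :
    TriA (DD x).cur (farD κ (h0 * x) (tbl tKF x) (tbl tL x)) 0 3 3 3 3 (-1) (-1) :=
  (sideF hx hx').farA (Or.inr rfl) (Or.inr rfl) fun y y' F r1 r2 =>
    farXA_cert (s1 := false) (s2 := false) rfl hκ (ka0 hκ hx hx') (xa0 hx) hx' (covF30 hx hx') (covF33 hx hx') (x1 hx) (x2 hx')
        Pool.Agent.Strip051.G.IE1.Tab.C.FA33.c_mm_033 noCut_VA noExt_VA F r1 r2 r1 r2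

theorem FA33_mm_101 {κ x : ℝ} (hκ : κ * h0 = kenE x) (hx : 39 / 40 ≤ x) (hx' : x < 1) :
    TriA (DD x).cur (farD κ (h0 * x) (tbl tKF x) (tbl tL x)) 1 0 1 3 3 (-1) (-1) :=
  (sideF hx hx').farA (Or.inr rfl) (Or.inr rfl) fun y y' F r1 r2 =>
    farXA_cert (s1 := false) (s2 := false) rfl hκ (ka0 hκ hx hx') (xa0 hx) hx' (covF31 hx hx') (covF30 hx hx') (x1 hx) (x2 hx')
        Pool.Agent.Strip051.G.IE1.Tab.C.FA33.c_mm_101 noCut_VA noExt_VA F r1 r2 r1 r2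

theorem FA33_mm_102 {κ x : ℝ} (hκ : κ * h0 = kenE x) (hx : 39 / 40 ≤ x) (hx' : x < 1) :
    TriA (DD x).cur (farD κ (h0 * x) (tbl tKF x) (tbl tL x)) 1 0 2 3 3 (-1) (-1) :=
  (sideF hx hx').farA (Or.inr rfl) (Or.inr rfl) fun y y' F r1 r2 =>
    farXA_cert (s1 := false) (s2 := false) rfl hκ (ka0 hκ hx hx') (xa0 hx) hx' (covF31 hx hx') (covF30 hx hx') (x1 hx) (x2 hx')
        Pool.Agent.Strip051.G.IE1.Tab.C.FA33.c_mm_102 noCut_VA noExt_VA F r1 r2 r1 r2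

theorem FA33_mm_112 {κ x : ℝ} (hκ : κ * h0 = kenE x) (hx : 39 / 40 ≤ x) (hx' : x < 1) :
    TriA (DD x).cur (farD κ (h0 * x) (tbl tKF x) (tbl tL x)) 1 1 2 3 3 (-1) (-1) :=
  (sideF hx hx').farA (Or.inr rfl) (Or.inr rfl) fun y y' F r1 r2 =>
    farXA_cert (s1 := false) (s2 := false) rfl hκ (ka0 hκ hx hx') (xa0 hx) hx' (covF31 hx hx') (covF31 hx hx') (x1 hx) (x2 hx')
        Pool.Agent.Strip051.G.IE1.Tab.C.FA33.c_mm_112 noCut_VA noExt_VA F r1 r2 r1 r2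

theorem FA33_mm_113 {κ x : ℝ} (hκ : κ * h0 = kenE x) (hx : 39 / 40 ≤ x) (hx' : x < 1) :
    TriA (DD x).cur (farD κ (h0 * x) (tbl tKF x) (tbl tL x)) 1 1 3 3 3 (-1) (-1) :=
  (sideF hx hx').farA (Or.inr rfl) (Or.inr rfl) fun y y' F r1 r2 =>
    farXA_cert (s1 := false) (s2 := false) rfl hκ (ka0 hκ hx hx') (xa0 hx) hx' (covF31 hx hx') (covF31 hx hx') (x1 hx) (x2 hx')
        Pool.Agent.Strip051.G.IE1.Tab.C.FA33.c_mm_113 noCut_VA noExt_VA F r1 r2 r1 r2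

theorem FA33_mm_123 {κ x : ℝ} (hκ : κ * h0 = kenE x) (hx : 39 / 40 ≤ x) (hx' : x < 1) :
    TriA (DD x).cur (farD κ (h0 * x) (tbl tKF x) (tbl tL x)) 1 2 3 3 3 (-1) (-1) :=
  (sideF hx hx').farA (Or.inr rfl) (Or.inr rfl) fun y y' F r1 r2 =>
    farXA_cert (s1 := false) (s2 := false) rfl hκ (ka0 hκ hx hx') (xa0 hx) hx' (covF31 hx hx') (covF32 hx hx') (x1 hx) (x2 hx')
        Pool.Agent.Strip051.G.IE1.Tab.C.FA33.c_mm_123 noCut_VA noExt_VA F r1 r2 r1 r2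

theorem FA33_mm_133 {κ x : ℝ} (hκ : κ * h0 = kenE x) (hx : 39 / 40 ≤ x) (hx' : x < 1) :
    TriA (DD x).cur (farD κ (h0 * x) (tbl tKF x) (tbl tL x)) 1 3 3 3 3 (-1) (-1) :=
  (sideF hx hx').farA (Or.inr rfl) (Or.inr rfl) fun y y' F r1 r2 =>
    farXA_cert (s1 := false) (s2 := false) rfl hκ (ka0 hκ hx hx') (xa0 hx) hx' (covF31 hx hx') (covF33 hx hx') (x1 hx) (x2 hx')
        Pool.Agent.Strip051.G.IE1.Tab.C.FA33.c_mm_133 noCut_VA noExt_VA F r1 r2 r1 r2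

theorem FA33_mm_202 {κ x : ℝ} (hκ : κ * h0 = kenE x) (hx : 39 / 40 ≤ x) (hx' : x < 1) :
    TriA (DD x).cur (farD κ (h0 * x) (tbl tKF x) (tbl tL x)) 2 0 2 3 3 (-1) (-1) :=
  (sideF hx hx').farA (Or.inr rfl) (Or.inr rfl) fun y y' F r1 r2 =>
    farXA_cert (s1 := false) (s2 := false) rfl hκ (ka0 hκ hx hx') (xa0 hx) hx' (covF32 hx hx') (covF30 hx hx') (x1 hx) (x2 hx')
        Pool.Agent.Strip051.G.IE1.Tab.C.FA33.c_mm_202 (cutVA_cons (Pool.Agent.Strip051.G.IE1.Tab.qF_A33mm_202_101 hκ hx hx') cutVA_nil) noExt_VA F r1 r2 r1 r2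

theorem FA33_mm_203 {κ x : ℝ} (hκ : κ * h0 = kenE x) (hx : 39 / 40 ≤ x) (hx' : x < 1) :
    TriA (DD x).cur (farD κ (h0 * x) (tbl tKF x) (tbl tL x)) 2 0 3 3 3 (-1) (-1) :=
  (sideF hx hx').farA (Or.inr rfl) (Or.inr rfl) fun y y' F r1 r2 =>
    farXA_cert (s1 := false) (s2 := false) rfl hκ (ka0 hκ hx hx') (xa0 hx) hx' (covF32 hx hx') (covF30 hx hx') (x1 hx) (x2 hx')
        Pool.Agent.Strip051.G.IE1.Tab.C.FA33.c_mm_203 noCut_VA noExt_VA F r1 r2 r1 r2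

theorem FA33_mm_213 {κ x : ℝ} (hκ : κ * h0 = kenE x) (hx : 39 / 40 ≤ x) (hx' : x < 1) :
    TriA (DD x).cur (farD κ (h0 * x) (tbl tKF x) (tbl tL x)) 2 1 3 3 3 (-1) (-1) :=
  (sideF hx hx').farA (Or.inr rfl) (Or.inr rfl) fun y y' F r1 r2 =>
    farXA_cert (s1 := false) (s2 := false) rfl hκ (ka0 hκ hx hx') (xa0 hx) hx' (covF32 hx hx') (covF31 hx hx') (x1 hx) (x2 hx')
        Pool.Agent.Strip051.G.IE1.Tab.C.FA33.c_mm_213 noCut_VA noExt_VA F r1 r2 r1 r2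

theorem FA33_mm_303 {κ x : ℝ} (hκ : κ * h0 = kenE x) (hx : 39 / 40 ≤ x) (hx' : x < 1) :
    TriA (DD x).cur (farD κ (h0 * x) (tbl tKF x) (tbl tL x)) 3 0 3 3 3 (-1) (-1) :=
  (sideF hx hx').farA (Or.inr rfl) (Or.inr rfl) fun y y' F r1 r2 =>
    farXA_cert (s1 := false) (s2 := false) rfl hκ (ka0 hκ hx hx') (xa0 hx) hx' (covF33 hx hx') (covF30 hx hx') (x1 hx) (x2 hx')
        Pool.Agent.Strip051.G.IE1.Tab.C.FA33.c_mm_303 noCut_VA noExt_VA F r1 r2 r1 r2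

theorem FA33_mm_313 {κ x : ℝ} (hκ : κ * h0 = kenE x) (hx : 39 / 40 ≤ x) (hx' : x < 1) :
    TriA (DD x).cur (farD κ (h0 * x) (tbl tKF x) (tbl tL x)) 3 1 3 3 3 (-1) (-1) :=
  (sideF hx hx').farA (Or.inr rfl) (Or.inr rfl) fun y y' F r1 r2 =>
    farXA_cert (s1 := false) (s2 := false) rfl hκ (ka0 hκ hx hx') (xa0 hx) hx' (covF33 hx hx') (covF31 hx hx') (x1 hx) (x2 hx')
        Pool.Agent.Strip051.G.IE1.Tab.C.FA33.c_mm_313 noCut_VA noExt_VA F r1 r2 r1 r2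

theorem FA33 {κ x : ℝ} (hκ : κ * h0 = kenE x) (hx : 39 / 40 ≤ x) (hx' : x < 1) : AllTA (DD x).cur (farD κ (h0 * x) (tbl tKF x) (tbl tL x)) 3 3 where
  pp := all17 (Q := fun a b c => TriA (DD x).cur (farD κ (h0 * x) (tbl tKF x) (tbl tL x)) a b c 3 3 1 1)
    (FA33_pp_001 hκ hx hx') (FA33_pp_011 hκ hx hx') (FA33_pp_012 hκ hx hx') (FA33_pp_022 hκ hx hx') (FA33_pp_023 hκ hx hx') (FA33_pp_033 hκ hx hx') (FA33_pp_101 hκ hx hx') (FA33_pp_102 hκ hx hx') (FA33_pp_112 hκ hx hx') (FA33_pp_113 hκ hx hx') (FA33_pp_123 hκ hx hx') (FA33_pp_133 hκ hx hx') (FA33_pp_202 hκ hx hx') (FA33_pp_203 hκ hx hx') (FA33_pp_213 hκ hx hx') (FA33_pp_303 hκ hx hx') (FA33_pp_313 hκ hx hx')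
  pm := all17 (Q := fun a b c => TriA (DD x).cur (farD κ (h0 * x) (tbl tKF x) (tbl tL x)) a b c 3 3 1 (-1))
    (FA33_pm_001 hκ hx hx') (FA33_pm_011 hκ hx hx') (FA33_pm_012 hκ hx hx') (FA33_pm_022 hκ hx hx') (FA33_pm_023 hκ hx hx') (FA33_pm_033 hκ hx hx') (FA33_pm_101 hκ hx hx') (FA33_pm_102 hκ hx hx') (FA33_pm_112 hκ hx hx') (FA33_pm_113 hκ hx hx') (FA33_pm_123 hκ hx hx') (FA33_pm_133 hκ hx hx') (FA33_pm_202 hκ hx hx') (FA33_pm_203 hκ hx hx') (FA33_pm_213 hκ hx hx') (FA33_pm_303 hκ hx hx') (FA33_pm_313 hκ hx hx')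
  mm := all17 (Q := fun a b c => TriA (DD x).cur (farD κ (h0 * x) (tbl tKF x) (tbl tL x)) a b c 3 3 (-1) (-1))
    (FA33_mm_001 hκ hx hx') (FA33_mm_011 hκ hx hx') (FA33_mm_012 hκ hx hx') (FA33_mm_022 hκ hx hx') (FA33_mm_023 hκ hx hx') (FA33_mm_033 hκ hx hx') (FA33_mm_101 hκ hx hx') (FA33_mm_102 hκ hx hx') (FA33_mm_112 hκ hx hx') (FA33_mm_113 hκ hx hx') (FA33_mm_123 hκ hx hx') (FA33_mm_133 hκ hx hx') (FA33_mm_202 hκ hx hx') (FA33_mm_203 hκ hx hx') (FA33_mm_213 hκ hx hx') (FA33_mm_303 hκ hx hx') (FA33_mm_313 hκ hx hx')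

theorem FA34_pp_001 {κ x : ℝ} (hκ : κ * h0 = kenE x) (hx : 39 / 40 ≤ x) (hx' : x < 1) :
    TriA (DD x).cur (farD κ (h0 * x) (tbl tKF x) (tbl tL x)) 0 0 1 3 4 1 1 :=
  (sideF hx hx').farA (Or.inl rfl) (Or.inl rfl) fun y y' F r1 r2 =>
    farXA_cert (s1 := true) (s2 := true) rfl hκ (ka0 hκ hx hx') (xa0 hx) hx' (covF30 hx hx') (covF40 hx hx') (x1 hx) (x2 hx')
        Pool.Agent.Strip051.G.IE1.Tab.C.FA34.c_pp_001 noCut_VA noExt_VA F r1 r2 r1 r2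

theorem FA34_pp_011 {κ x : ℝ} (hκ : κ * h0 = kenE x) (hx : 39 / 40 ≤ x) (hx' : x < 1) :
    TriA (DD x).cur (farD κ (h0 * x) (tbl tKF x) (tbl tL x)) 0 1 1 3 4 1 1 :=
  triVA_k nr4_1

theorem FA34_pp_012 {κ x : ℝ} (hκ : κ * h0 = kenE x) (hx : 39 / 40 ≤ x) (hx' : x < 1) :
    TriA (DD x).cur (farD κ (h0 * x) (tbl tKF x) (tbl tL x)) 0 1 2 3 4 1 1 :=
  triVA_k nr4_1

theorem FA34_pp_022 {κ x : ℝ} (hκ : κ * h0 = kenE x) (hx : 39 / 40 ≤ x) (hx' : x < 1) :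
    TriA (DD x).cur (farD κ (h0 * x) (tbl tKF x) (tbl tL x)) 0 2 2 3 4 1 1 :=
  triVA_k nr4_2

theorem FA34_pp_023 {κ x : ℝ} (hκ : κ * h0 = kenE x) (hx : 39 / 40 ≤ x) (hx' : x < 1) :
    TriA (DD x).cur (farD κ (h0 * x) (tbl tKF x) (tbl tL x)) 0 2 3 3 4 1 1 :=
  triVA_k nr4_2

theorem FA34_pp_033 {κ x : ℝ} (hκ : κ * h0 = kenE x) (hx : 39 / 40 ≤ x) (hx' : x < 1) :
    TriA (DD x).cur (farD κ (h0 * x) (tbl tKF x) (tbl tL x)) 0 3 3 3 4 1 1 :=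
  triVA_k nr4_3

theorem FA34_pp_101 {κ x : ℝ} (hκ : κ * h0 = kenE x) (hx : 39 / 40 ≤ x) (hx' : x < 1) :
    TriA (DD x).cur (farD κ (h0 * x) (tbl tKF x) (tbl tL x)) 1 0 1 3 4 1 1 :=
  (sideF hx hx').farA (Or.inl rfl) (Or.inl rfl) fun y y' F r1 r2 =>
    farXA_cert (s1 := true) (s2 := true) rfl hκ (ka0 hκ hx hx') (xa0 hx) hx' (covF31 hx hx') (covF40 hx hx') (x1 hx) (x2 hx')
        Pool.Agent.Strip051.G.IE1.Tab.C.FA34.c_pp_101 noCut_VA noExt_VA F r1 r2 r1 r2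

theorem FA34_pp_102 {κ x : ℝ} (hκ : κ * h0 = kenE x) (hx : 39 / 40 ≤ x) (hx' : x < 1) :
    TriA (DD x).cur (farD κ (h0 * x) (tbl tKF x) (tbl tL x)) 1 0 2 3 4 1 1 :=
  (sideF hx hx').farA (Or.inl rfl) (Or.inl rfl) fun y y' F r1 r2 =>
    farXA_cert (s1 := true) (s2 := true) rfl hκ (ka0 hκ hx hx') (xa0 hx) hx' (covF31 hx hx') (covF40 hx hx') (x1 hx) (x2 hx')
        Pool.Agent.Strip051.G.IE1.Tab.C.FA34.c_pp_102 noCut_VA noExt_VA F r1 r2 r1 r2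

theorem FA34_pp_112 {κ x : ℝ} (hκ : κ * h0 = kenE x) (hx : 39 / 40 ≤ x) (hx' : x < 1) :
    TriA (DD x).cur (farD κ (h0 * x) (tbl tKF x) (tbl tL x)) 1 1 2 3 4 1 1 :=
  triVA_k nr4_1

theorem FA34_pp_113 {κ x : ℝ} (hκ : κ * h0 = kenE x) (hx : 39 / 40 ≤ x) (hx' : x < 1) :
    TriA (DD x).cur (farD κ (h0 * x) (tbl tKF x) (tbl tL x)) 1 1 3 3 4 1 1 :=
  triVA_k nr4_1

theorem FA34_pp_123 {κ x : ℝ} (hκ : κ * h0 = kenE x) (hx : 39 / 40 ≤ x) (hx' : x < 1) :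
    TriA (DD x).cur (farD κ (h0 * x) (tbl tKF x) (tbl tL x)) 1 2 3 3 4 1 1 :=
  triVA_k nr4_2

theorem FA34_pp_133 {κ x : ℝ} (hκ : κ * h0 = kenE x) (hx : 39 / 40 ≤ x) (hx' : x < 1) :
    TriA (DD x).cur (farD κ (h0 * x) (tbl tKF x) (tbl tL x)) 1 3 3 3 4 1 1 :=
  triVA_k nr4_3

theorem FA34_pp_202 {κ x : ℝ} (hκ : κ * h0 = kenE x) (hx : 39 / 40 ≤ x) (hx' : x < 1) :
    TriA (DD x).cur (farD κ (h0 * x) (tbl tKF x) (tbl tL x)) 2 0 2 3 4 1 1 :=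
  (sideF hx hx').farA (Or.inl rfl) (Or.inl rfl) fun y y' F r1 r2 =>
    farXA_cert (s1 := true) (s2 := true) rfl hκ (ka0 hκ hx hx') (xa0 hx) hx' (covF32 hx hx') (covF40 hx hx') (x1 hx) (x2 hx')
        Pool.Agent.Strip051.G.IE1.Tab.C.FA34.c_pp_202 noCut_VA noExt_VA F r1 r2 r1 r2

theorem FA34_pp_203 {κ x : ℝ} (hκ : κ * h0 = kenE x) (hx : 39 / 40 ≤ x) (hx' : x < 1) :
    TriA (DD x).cur (farD κ (h0 * x) (tbl tKF x) (tbl tL x)) 2 0 3 3 4 1 1 :=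
  (sideF hx hx').farA (Or.inl rfl) (Or.inl rfl) fun y y' F r1 r2 =>
    farXA_cert (s1 := true) (s2 := true) rfl hκ (ka0 hκ hx hx') (xa0 hx) hx' (covF32 hx hx') (covF40 hx hx') (x1 hx) (x2 hx')
        Pool.Agent.Strip051.G.IE1.Tab.C.FA34.c_pp_203 noCut_VA noExt_VA F r1 r2 r1 r2

theorem FA34_pp_213 {κ x : ℝ} (hκ : κ * h0 = kenE x) (hx : 39 / 40 ≤ x) (hx' : x < 1) :
    TriA (DD x).cur (farD κ (h0 * x) (tbl tKF x) (tbl tL x)) 2 1 3 3 4 1 1 :=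
  triVA_k nr4_1

theorem FA34_pp_303 {κ x : ℝ} (hκ : κ * h0 = kenE x) (hx : 39 / 40 ≤ x) (hx' : x < 1) :
    TriA (DD x).cur (farD κ (h0 * x) (tbl tKF x) (tbl tL x)) 3 0 3 3 4 1 1 :=
  (sideF hx hx').farA (Or.inl rfl) (Or.inl rfl) fun y y' F r1 r2 =>
    farXA_cert (s1 := true) (s2 := true) rfl hκ (ka0 hκ hx hx') (xa0 hx) hx' (covF33 hx hx') (covF40 hx hx') (x1 hx) (x2 hx')
        Pool.Agent.Strip051.G.IE1.Tab.C.FA34.c_pp_303 noCut_VA noExt_VA F r1 r2 r1 r2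

theorem FA34_pp_313 {κ x : ℝ} (hκ : κ * h0 = kenE x) (hx : 39 / 40 ≤ x) (hx' : x < 1) :
    TriA (DD x).cur (farD κ (h0 * x) (tbl tKF x) (tbl tL x)) 3 1 3 3 4 1 1 :=
  triVA_k nr4_1

theorem FA34_pm_001 {κ x : ℝ} (hκ : κ * h0 = kenE x) (hx : 39 / 40 ≤ x) (hx' : x < 1) :
    TriA (DD x).cur (farD κ (h0 * x) (tbl tKF x) (tbl tL x)) 0 0 1 3 4 1 (-1) :=
  (sideF hx hx').farA (Or.inl rfl) (Or.inr rfl) fun y y' F r1 r2 =>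
    farXA_cert (s1 := true) (s2 := false) rfl hκ (ka0 hκ hx hx') (xa0 hx) hx' (covF30 hx hx') (covF40 hx hx') (x1 hx) (x2 hx')
        Pool.Agent.Strip051.G.IE1.Tab.C.FA34.c_pm_001 noCut_VA noExt_VA F r1 r2 r1 r2

theorem FA34_pm_011 {κ x : ℝ} (hκ : κ * h0 = kenE x) (hx : 39 / 40 ≤ x) (hx' : x < 1) :
    TriA (DD x).cur (farD κ (h0 * x) (tbl tKF x) (tbl tL x)) 0 1 1 3 4 1 (-1) :=
  triVA_k nr4_1

theorem FA34_pm_012 {κ x : ℝ} (hκ : κ * h0 = kenE x) (hx : 39 / 40 ≤ x) (hx' : x < 1) :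
    TriA (DD x).cur (farD κ (h0 * x) (tbl tKF x) (tbl tL x)) 0 1 2 3 4 1 (-1) :=
  triVA_k nr4_1

theorem FA34_pm_022 {κ x : ℝ} (hκ : κ * h0 = kenE x) (hx : 39 / 40 ≤ x) (hx' : x < 1) :
    TriA (DD x).cur (farD κ (h0 * x) (tbl tKF x) (tbl tL x)) 0 2 2 3 4 1 (-1) :=
  triVA_k nr4_2

theorem FA34_pm_023 {κ x : ℝ} (hκ : κ * h0 = kenE x) (hx : 39 / 40 ≤ x) (hx' : x < 1) :
    TriA (DD x).cur (farD κ (h0 * x) (tbl tKF x) (tbl tL x)) 0 2 3 3 4 1 (-1) :=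
  triVA_k nr4_2

theorem FA34_pm_033 {κ x : ℝ} (hκ : κ * h0 = kenE x) (hx : 39 / 40 ≤ x) (hx' : x < 1) :
    TriA (DD x).cur (farD κ (h0 * x) (tbl tKF x) (tbl tL x)) 0 3 3 3 4 1 (-1) :=
  triVA_k nr4_3

theorem FA34_pm_101 {κ x : ℝ} (hκ : κ * h0 = kenE x) (hx : 39 / 40 ≤ x) (hx' : x < 1) :
    TriA (DD x).cur (farD κ (h0 * x) (tbl tKF x) (tbl tL x)) 1 0 1 3 4 1 (-1) :=
  (sideF hx hx').farA (Or.inl rfl) (Or.inr rfl) fun y y' F r1 r2 =>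
    farXA_cert (s1 := true) (s2 := false) rfl hκ (ka0 hκ hx hx') (xa0 hx) hx' (covF31 hx hx') (covF40 hx hx') (x1 hx) (x2 hx')
        Pool.Agent.Strip051.G.IE1.Tab.C.FA34.c_pm_101 (cutVA_cons (Pool.Agent.Strip051.G.IE1.Tab.qF_A34pm_101_101 hκ hx hx') cutVA_nil) noExt_VA F r1 r2 r1 r2

theorem FA34_pm_102 {κ x : ℝ} (hκ : κ * h0 = kenE x) (hx : 39 / 40 ≤ x) (hx' : x < 1) :
    TriA (DD x).cur (farD κ (h0 * x) (tbl tKF x) (tbl tL x)) 1 0 2 3 4 1 (-1) :=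
  (sideF hx hx').farA (Or.inl rfl) (Or.inr rfl) fun y y' F r1 r2 =>
    farXA_cert (s1 := true) (s2 := false) rfl hκ (ka0 hκ hx hx') (xa0 hx) hx' (covF31 hx hx') (covF40 hx hx') (x1 hx) (x2 hx')
        Pool.Agent.Strip051.G.IE1.Tab.C.FA34.c_pm_102 (cutVA_cons (Pool.Agent.Strip051.G.IE1.Tab.qF_A34pm_102_101 hκ hx hx') cutVA_nil) noExt_VA F r1 r2 r1 r2

theorem FA34_pm_112 {κ x : ℝ} (hκ : κ * h0 = kenE x) (hx : 39 / 40 ≤ x) (hx' : x < 1) :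
    TriA (DD x).cur (farD κ (h0 * x) (tbl tKF x) (tbl tL x)) 1 1 2 3 4 1 (-1) :=
  triVA_k nr4_1

theorem FA34_pm_113 {κ x : ℝ} (hκ : κ * h0 = kenE x) (hx : 39 / 40 ≤ x) (hx' : x < 1) :
    TriA (DD x).cur (farD κ (h0 * x) (tbl tKF x) (tbl tL x)) 1 1 3 3 4 1 (-1) :=
  triVA_k nr4_1

theorem FA34_pm_123 {κ x : ℝ} (hκ : κ * h0 = kenE x) (hx : 39 / 40 ≤ x) (hx' : x < 1) :
    TriA (DD x).cur (farD κ (h0 * x) (tbl tKF x) (tbl tL x)) 1 2 3 3 4 1 (-1) :=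
  triVA_k nr4_2

theorem FA34_pm_133 {κ x : ℝ} (hκ : κ * h0 = kenE x) (hx : 39 / 40 ≤ x) (hx' : x < 1) :
    TriA (DD x).cur (farD κ (h0 * x) (tbl tKF x) (tbl tL x)) 1 3 3 3 4 1 (-1) :=
  triVA_k nr4_3

theorem FA34_pm_202 {κ x : ℝ} (hκ : κ * h0 = kenE x) (hx : 39 / 40 ≤ x) (hx' : x < 1) :
    TriA (DD x).cur (farD κ (h0 * x) (tbl tKF x) (tbl tL x)) 2 0 2 3 4 1 (-1) :=
  (sideF hx hx').farA (Or.inl rfl) (Or.inr rfl) fun y y' F r1 r2 =>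
    farXA_cert (s1 := true) (s2 := false) rfl hκ (ka0 hκ hx hx') (xa0 hx) hx' (covF32 hx hx') (covF40 hx hx') (x1 hx) (x2 hx')
        Pool.Agent.Strip051.G.IE1.Tab.C.FA34.c_pm_202 (cutVA_cons (Pool.Agent.Strip051.G.IE1.Tab.qF_A34pm_202_101 hκ hx hx') cutVA_nil) noExt_VA F r1 r2 r1 r2

theorem FA34_pm_203 {κ x : ℝ} (hκ : κ * h0 = kenE x) (hx : 39 / 40 ≤ x) (hx' : x < 1) :
    TriA (DD x).cur (farD κ (h0 * x) (tbl tKF x) (tbl tL x)) 2 0 3 3 4 1 (-1) :=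
  (sideF hx hx').farA (Or.inl rfl) (Or.inr rfl) fun y y' F r1 r2 =>
    farXA_cert (s1 := true) (s2 := false) rfl hκ (ka0 hκ hx hx') (xa0 hx) hx' (covF32 hx hx') (covF40 hx hx') (x1 hx) (x2 hx')
        Pool.Agent.Strip051.G.IE1.Tab.C.FA34.c_pm_203 noCut_VA noExt_VA F r1 r2 r1 r2

theorem FA34_pm_213 {κ x : ℝ} (hκ : κ * h0 = kenE x) (hx : 39 / 40 ≤ x) (hx' : x < 1) :
    TriA (DD x).cur (farD κ (h0 * x) (tbl tKF x) (tbl tL x)) 2 1 3 3 4 1 (-1) :=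
  triVA_k nr4_1

theorem FA34_pm_303 {κ x : ℝ} (hκ : κ * h0 = kenE x) (hx : 39 / 40 ≤ x) (hx' : x < 1) :
    TriA (DD x).cur (farD κ (h0 * x) (tbl tKF x) (tbl tL x)) 3 0 3 3 4 1 (-1) :=
  (sideF hx hx').farA (Or.inl rfl) (Or.inr rfl) fun y y' F r1 r2 =>
    farXA_cert (s1 := true) (s2 := false) rfl hκ (ka0 hκ hx hx') (xa0 hx) hx' (covF33 hx hx') (covF40 hx hx') (x1 hx) (x2 hx')
        Pool.Agent.Strip051.G.IE1.Tab.C.FA34.c_pm_303 noCut_VA noExt_VA F r1 r2 r1 r2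

theorem FA34_pm_313 {κ x : ℝ} (hκ : κ * h0 = kenE x) (hx : 39 / 40 ≤ x) (hx' : x < 1) :
    TriA (DD x).cur (farD κ (h0 * x) (tbl tKF x) (tbl tL x)) 3 1 3 3 4 1 (-1) :=
  triVA_k nr4_1

theorem FA34_mm_001 {κ x : ℝ} (hκ : κ * h0 = kenE x) (hx : 39 / 40 ≤ x) (hx' : x < 1) :
    TriA (DD x).cur (farD κ (h0 * x) (tbl tKF x) (tbl tL x)) 0 0 1 3 4 (-1) (-1) :=
  (sideF hx hx').farA (Or.inr rfl) (Or.inr rfl) fun y y' F r1 r2 =>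
    farXA_cert (s1 := false) (s2 := false) rfl hκ (ka0 hκ hx hx') (xa0 hx) hx' (covF30 hx hx') (covF40 hx hx') (x1 hx) (x2 hx')
        Pool.Agent.Strip051.G.IE1.Tab.C.FA34.c_mm_001 noCut_VA noExt_VA F r1 r2 r1 r2

theorem FA34_mm_011 {κ x : ℝ} (hκ : κ * h0 = kenE x) (hx : 39 / 40 ≤ x) (hx' : x < 1) :
    TriA (DD x).cur (farD κ (h0 * x) (tbl tKF x) (tbl tL x)) 0 1 1 3 4 (-1) (-1) :=
  triVA_k nr4_1

theorem FA34_mm_012 {κ x : ℝ} (hκ : κ * h0 = kenE x) (hx : 39 / 40 ≤ x) (hx' : x < 1) :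
    TriA (DD x).cur (farD κ (h0 * x) (tbl tKF x) (tbl tL x)) 0 1 2 3 4 (-1) (-1) :=
  triVA_k nr4_1

theorem FA34_mm_022 {κ x : ℝ} (hκ : κ * h0 = kenE x) (hx : 39 / 40 ≤ x) (hx' : x < 1) :
    TriA (DD x).cur (farD κ (h0 * x) (tbl tKF x) (tbl tL x)) 0 2 2 3 4 (-1) (-1) :=
  triVA_k nr4_2

theorem FA34_mm_023 {κ x : ℝ} (hκ : κ * h0 = kenE x) (hx : 39 / 40 ≤ x) (hx' : x < 1) :
    TriA (DD x).cur (farD κ (h0 * x) (tbl tKF x) (tbl tL x)) 0 2 3 3 4 (-1) (-1) :=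
  triVA_k nr4_2

theorem FA34_mm_033 {κ x : ℝ} (hκ : κ * h0 = kenE x) (hx : 39 / 40 ≤ x) (hx' : x < 1) :
    TriA (DD x).cur (farD κ (h0 * x) (tbl tKF x) (tbl tL x)) 0 3 3 3 4 (-1) (-1) :=
  triVA_k nr4_3

theorem FA34_mm_101 {κ x : ℝ} (hκ : κ * h0 = kenE x) (hx : 39 / 40 ≤ x) (hx' : x < 1) :
    TriA (DD x).cur (farD κ (h0 * x) (tbl tKF x) (tbl tL x)) 1 0 1 3 4 (-1) (-1) :=
  (sideF hx hx').farA (Or.inr rfl) (Or.inr rfl) fun y y' F r1 r2 =>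
    farXA_cert (s1 := false) (s2 := false) rfl hκ (ka0 hκ hx hx') (xa0 hx) hx' (covF31 hx hx') (covF40 hx hx') (x1 hx) (x2 hx')
        Pool.Agent.Strip051.G.IE1.Tab.C.FA34.c_mm_101 noCut_VA noExt_VA F r1 r2 r1 r2

theorem FA34_mm_102 {κ x : ℝ} (hκ : κ * h0 = kenE x) (hx : 39 / 40 ≤ x) (hx' : x < 1) :
    TriA (DD x).cur (farD κ (h0 * x) (tbl tKF x) (tbl tL x)) 1 0 2 3 4 (-1) (-1) :=
  (sideF hx hx').farA (Or.inr rfl) (Or.inr rfl) fun y y' F r1 r2 =>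
    farXA_cert (s1 := false) (s2 := false) rfl hκ (ka0 hκ hx hx') (xa0 hx) hx' (covF31 hx hx') (covF40 hx hx') (x1 hx) (x2 hx')
        Pool.Agent.Strip051.G.IE1.Tab.C.FA34.c_mm_102 noCut_VA noExt_VA F r1 r2 r1 r2

theorem FA34_mm_112 {κ x : ℝ} (hκ : κ * h0 = kenE x) (hx : 39 / 40 ≤ x) (hx' : x < 1) :
    TriA (DD x).cur (farD κ (h0 * x) (tbl tKF x) (tbl tL x)) 1 1 2 3 4 (-1) (-1) :=
  triVA_k nr4_1

theorem FA34_mm_113 {κ x : ℝ} (hκ : κ * h0 = kenE x) (hx : 39 / 40 ≤ x) (hx' : x < 1) :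
    TriA (DD x).cur (farD κ (h0 * x) (tbl tKF x) (tbl tL x)) 1 1 3 3 4 (-1) (-1) :=
  triVA_k nr4_1

theorem FA34_mm_123 {κ x : ℝ} (hκ : κ * h0 = kenE x) (hx : 39 / 40 ≤ x) (hx' : x < 1) :
    TriA (DD x).cur (farD κ (h0 * x) (tbl tKF x) (tbl tL x)) 1 2 3 3 4 (-1) (-1) :=
  triVA_k nr4_2

theorem FA34_mm_133 {κ x : ℝ} (hκ : κ * h0 = kenE x) (hx : 39 / 40 ≤ x) (hx' : x < 1) :
    TriA (DD x).cur (farD κ (h0 * x) (tbl tKF x) (tbl tL x)) 1 3 3 3 4 (-1) (-1) :=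
  triVA_k nr4_3

theorem FA34_mm_202 {κ x : ℝ} (hκ : κ * h0 = kenE x) (hx : 39 / 40 ≤ x) (hx' : x < 1) :
    TriA (DD x).cur (farD κ (h0 * x) (tbl tKF x) (tbl tL x)) 2 0 2 3 4 (-1) (-1) :=
  (sideF hx hx').farA (Or.inr rfl) (Or.inr rfl) fun y y' F r1 r2 =>
    farXA_cert (s1 := false) (s2 := false) rfl hκ (ka0 hκ hx hx') (xa0 hx) hx' (covF32 hx hx') (covF40 hx hx') (x1 hx) (x2 hx')
        Pool.Agent.Strip051.G.IE1.Tab.C.FA34.c_mm_202 (cutVA_cons (Pool.Agent.Strip051.G.IE1.Tab.qF_A34mm_202_101 hκ hx hx') cutVA_nil) noExt_VA F r1 r2 r1 r2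

theorem FA34_mm_203 {κ x : ℝ} (hκ : κ * h0 = kenE x) (hx : 39 / 40 ≤ x) (hx' : x < 1) :
    TriA (DD x).cur (farD κ (h0 * x) (tbl tKF x) (tbl tL x)) 2 0 3 3 4 (-1) (-1) :=
  (sideF hx hx').farA (Or.inr rfl) (Or.inr rfl) fun y y' F r1 r2 =>
    farXA_cert (s1 := false) (s2 := false) rfl hκ (ka0 hκ hx hx') (xa0 hx) hx' (covF32 hx hx') (covF40 hx hx') (x1 hx) (x2 hx')
        Pool.Agent.Strip051.G.IE1.Tab.C.FA34.c_mm_203 noCut_VA noExt_VA F r1 r2 r1 r2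

theorem FA34_mm_213 {κ x : ℝ} (hκ : κ * h0 = kenE x) (hx : 39 / 40 ≤ x) (hx' : x < 1) :
    TriA (DD x).cur (farD κ (h0 * x) (tbl tKF x) (tbl tL x)) 2 1 3 3 4 (-1) (-1) :=
  triVA_k nr4_1

theorem FA34_mm_303 {κ x : ℝ} (hκ : κ * h0 = kenE x) (hx : 39 / 40 ≤ x) (hx' : x < 1) :
    TriA (DD x).cur (farD κ (h0 * x) (tbl tKF x) (tbl tL x)) 3 0 3 3 4 (-1) (-1) :=
  (sideF hx hx').farA (Or.inr rfl) (Or.inr rfl) fun y y' F r1 r2 =>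
    farXA_cert (s1 := false) (s2 := false) rfl hκ (ka0 hκ hx hx') (xa0 hx) hx' (covF33 hx hx') (covF40 hx hx') (x1 hx) (x2 hx')
        Pool.Agent.Strip051.G.IE1.Tab.C.FA34.c_mm_303 noCut_VA noExt_VA F r1 r2 r1 r2

theorem FA34_mm_313 {κ x : ℝ} (hκ : κ * h0 = kenE x) (hx : 39 / 40 ≤ x) (hx' : x < 1) :
    TriA (DD x).cur (farD κ (h0 * x) (tbl tKF x) (tbl tL x)) 3 1 3 3 4 (-1) (-1) :=
  triVA_k nr4_1

theorem FA34 {κ x : ℝ} (hκ : κ * h0 = kenE x) (hx : 39 / 40 ≤ x) (hx' : x < 1) : AllTA (DD x).cur (farD κ (h0 * x) (tbl tKF x) (tbl tL x)) 3 4 where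
  pp := all17 (Q := fun a b c => TriA (DD x).cur (farD κ (h0 * x) (tbl tKF x) (tbl tL x)) a b c 3 4 1 1)
    (FA34_pp_001 hκ hx hx') (FA34_pp_011 hκ hx hx') (FA34_pp_012 hκ hx hx') (FA34_pp_022 hκ hx hx') (FA34_pp_023 hκ hx hx') (FA34_pp_033 hκ hx hx') (FA34_pp_101 hκ hx hx') (FA34_pp_102 hκ hx hx') (FA34_pp_112 hκ hx hx') (FA34_pp_113 hκ hx hx') (FA34_pp_123 hκ hx hx') (FA34_pp_133 hκ hx hx') (FA34_pp_202 hκ hx hx') (FA34_pp_203 hκ hx hx') (FA34_pp_213 hκ hx hx') (FA34_pp_303 hκ hx hx') (FA34_pp_313 hκ hx hx')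
  pm := all17 (Q := fun a b c => TriA (DD x).cur (farD κ (h0 * x) (tbl tKF x) (tbl tL x)) a b c 3 4 1 (-1))
    (FA34_pm_001 hκ hx hx') (FA34_pm_011 hκ hx hx') (FA34_pm_012 hκ hx hx') (FA34_pm_022 hκ hx hx') (FA34_pm_023 hκ hx hx') (FA34_pm_033 hκ hx hx') (FA34_pm_101 hκ hx hx') (FA34_pm_102 hκ hx hx') (FA34_pm_112 hκ hx hx') (FA34_pm_113 hκ hx hx') (FA34_pm_123 hκ hx hx') (FA34_pm_133 hκ hx hx') (FA34_pm_202 hκ hx hx') (FA34_pm_203 hκ hx hx') (FA34_pm_213 hκ hx hx') (FA34_pm_303 hκ hx hx') (FA34_pm_313 hκ hx hx')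
  mm := all17 (Q := fun a b c => TriA (DD x).cur (farD κ (h0 * x) (tbl tKF x) (tbl tL x)) a b c 3 4 (-1) (-1))
    (FA34_mm_001 hκ hx hx') (FA34_mm_011 hκ hx hx') (FA34_mm_012 hκ hx hx') (FA34_mm_022 hκ hx hx') (FA34_mm_023 hκ hx hx') (FA34_mm_033 hκ hx hx') (FA34_mm_101 hκ hx hx') (FA34_mm_102 hκ hx hx') (FA34_mm_112 hκ hx hx') (FA34_mm_113 hκ hx hx') (FA34_mm_123 hκ hx hx') (FA34_mm_133 hκ hx hx') (FA34_mm_202 hκ hx hx') (FA34_mm_203 hκ hx hx') (FA34_mm_213 hκ hx hx') (FA34_mm_303 hκ hx hx') (FA34_mm_313 hκ hx hx')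

theorem FA35_pp_001 {κ x : ℝ} (hκ : κ * h0 = kenE x) (hx : 39 / 40 ≤ x) (hx' : x < 1) :
    TriA (DD x).cur (farD κ (h0 * x) (tbl tKF x) (tbl tL x)) 0 0 1 3 5 1 1 :=
  (sideF hx hx').farA (Or.inl rfl) (Or.inl rfl) fun y y' F r1 r2 =>
    farXA_cert (s1 := true) (s2 := true) rfl hκ (ka0 hκ hx hx') (xa0 hx) hx' (covF30 hx hx') (covF50 hx hx') (x1 hx) (x2 hx')
        Pool.Agent.Strip051.G.IE1.Tab.C.FA35.c_pp_001 noCut_VA noExt_VA F r1 r2 r1 r2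

theorem FA35_pp_011 {κ x : ℝ} (hκ : κ * h0 = kenE x) (hx : 39 / 40 ≤ x) (hx' : x < 1) :
    TriA (DD x).cur (farD κ (h0 * x) (tbl tKF x) (tbl tL x)) 0 1 1 3 5 1 1 :=
  (sideF hx hx').farA (Or.inl rfl) (Or.inl rfl) fun y y' F r1 r2 =>
    farXA_cert (s1 := true) (s2 := true) rfl hκ (ka0 hκ hx hx') (xa0 hx) hx' (covF30 hx hx') (covF51 hx hx') (x1 hx) (x2 hx')
        Pool.Agent.Strip051.G.IE1.Tab.C.FA35.c_pp_011 noCut_VA noExt_VA F r1 r2 r1 r2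

theorem FA35_pp_012 {κ x : ℝ} (hκ : κ * h0 = kenE x) (hx : 39 / 40 ≤ x) (hx' : x < 1) :
    TriA (DD x).cur (farD κ (h0 * x) (tbl tKF x) (tbl tL x)) 0 1 2 3 5 1 1 :=
  (sideF hx hx').farA (Or.inl rfl) (Or.inl rfl) fun y y' F r1 r2 =>
    farXA_cert (s1 := true) (s2 := true) rfl hκ (ka0 hκ hx hx') (xa0 hx) hx' (covF30 hx hx') (covF51 hx hx') (x1 hx) (x2 hx')
        Pool.Agent.Strip051.G.IE1.Tab.C.FA35.c_pp_012 noCut_VA noExt_VA F r1 r2 r1 r2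

theorem FA35_pp_022 {κ x : ℝ} (hκ : κ * h0 = kenE x) (hx : 39 / 40 ≤ x) (hx' : x < 1) :
    TriA (DD x).cur (farD κ (h0 * x) (tbl tKF x) (tbl tL x)) 0 2 2 3 5 1 1 :=
  (sideF hx hx').farA (Or.inl rfl) (Or.inl rfl) fun y y' F r1 r2 =>
    farXA_cert (s1 := true) (s2 := true) rfl hκ (ka0 hκ hx hx') (xa0 hx) hx' (covF30 hx hx') (covF52 hx hx') (x1 hx) (x2 hx')
        Pool.Agent.Strip051.G.IE1.Tab.C.FA35.c_pp_022 noCut_VA noExt_VA F r1 r2 r1 r2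

theorem FA35_pp_023 {κ x : ℝ} (hκ : κ * h0 = kenE x) (hx : 39 / 40 ≤ x) (hx' : x < 1) :
    TriA (DD x).cur (farD κ (h0 * x) (tbl tKF x) (tbl tL x)) 0 2 3 3 5 1 1 :=
  (sideF hx hx').farA (Or.inl rfl) (Or.inl rfl) fun y y' F r1 r2 =>
    farXA_cert (s1 := true) (s2 := true) rfl hκ (ka0 hκ hx hx') (xa0 hx) hx' (covF30 hx hx') (covF52 hx hx') (x1 hx) (x2 hx')
        Pool.Agent.Strip051.G.IE1.Tab.C.FA35.c_pp_023 noCut_VA noExt_VA F r1 r2 r1 r2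

theorem FA35_pp_033 {κ x : ℝ} (hκ : κ * h0 = kenE x) (hx : 39 / 40 ≤ x) (hx' : x < 1) :
    TriA (DD x).cur (farD κ (h0 * x) (tbl tKF x) (tbl tL x)) 0 3 3 3 5 1 1 :=
  (sideF hx hx').farA (Or.inl rfl) (Or.inl rfl) fun y y' F r1 r2 =>
    farXA_cert (s1 := true) (s2 := true) rfl hκ (ka0 hκ hx hx') (xa0 hx) hx' (covF30 hx hx') (covF53 hx hx') (x1 hx) (x2 hx')
        Pool.Agent.Strip051.G.IE1.Tab.C.FA35.c_pp_033 noCut_VA noExt_VA F r1 r2 r1 r2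

theorem FA35_pp_101 {κ x : ℝ} (hκ : κ * h0 = kenE x) (hx : 39 / 40 ≤ x) (hx' : x < 1) :
    TriA (DD x).cur (farD κ (h0 * x) (tbl tKF x) (tbl tL x)) 1 0 1 3 5 1 1 :=
  (sideF hx hx').farA (Or.inl rfl) (Or.inl rfl) fun y y' F r1 r2 =>
    farXA_cert (s1 := true) (s2 := true) rfl hκ (ka0 hκ hx hx') (xa0 hx) hx' (covF31 hx hx') (covF50 hx hx') (x1 hx) (x2 hx')
        Pool.Agent.Strip051.G.IE1.Tab.C.FA35.c_pp_101 noCut_VA noExt_VA F r1 r2 r1 r2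

theorem FA35_pp_102 {κ x : ℝ} (hκ : κ * h0 = kenE x) (hx : 39 / 40 ≤ x) (hx' : x < 1) :
    TriA (DD x).cur (farD κ (h0 * x) (tbl tKF x) (tbl tL x)) 1 0 2 3 5 1 1 :=
  (sideF hx hx').farA (Or.inl rfl) (Or.inl rfl) fun y y' F r1 r2 =>
    farXA_cert (s1 := true) (s2 := true) rfl hκ (ka0 hκ hx hx') (xa0 hx) hx' (covF31 hx hx') (covF50 hx hx') (x1 hx) (x2 hx')
        Pool.Agent.Strip051.G.IE1.Tab.C.FA35.c_pp_102 noCut_VA noExt_VA F r1 r2 r1 r2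

theorem FA35_pp_112 {κ x : ℝ} (hκ : κ * h0 = kenE x) (hx : 39 / 40 ≤ x) (hx' : x < 1) :
    TriA (DD x).cur (farD κ (h0 * x) (tbl tKF x) (tbl tL x)) 1 1 2 3 5 1 1 :=
  (sideF hx hx').farA (Or.inl rfl) (Or.inl rfl) fun y y' F r1 r2 =>
    farXA_cert (s1 := true) (s2 := true) rfl hκ (ka0 hκ hx hx') (xa0 hx) hx' (covF31 hx hx') (covF51 hx hx') (x1 hx) (x2 hx')
        Pool.Agent.Strip051.G.IE1.Tab.C.FA35.c_pp_112 noCut_VA noExt_VA F r1 r2 r1 r2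

theorem FA35_pp_113 {κ x : ℝ} (hκ : κ * h0 = kenE x) (hx : 39 / 40 ≤ x) (hx' : x < 1) :
    TriA (DD x).cur (farD κ (h0 * x) (tbl tKF x) (tbl tL x)) 1 1 3 3 5 1 1 :=
  (sideF hx hx').farA (Or.inl rfl) (Or.inl rfl) fun y y' F r1 r2 =>
    farXA_cert (s1 := true) (s2 := true) rfl hκ (ka0 hκ hx hx') (xa0 hx) hx' (covF31 hx hx') (covF51 hx hx') (x1 hx) (x2 hx')
        Pool.Agent.Strip051.G.IE1.Tab.C.FA35.c_pp_113 noCut_VA noExt_VA F r1 r2 r1 r2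

theorem FA35_pp_123 {κ x : ℝ} (hκ : κ * h0 = kenE x) (hx : 39 / 40 ≤ x) (hx' : x < 1) :
    TriA (DD x).cur (farD κ (h0 * x) (tbl tKF x) (tbl tL x)) 1 2 3 3 5 1 1 :=
  (sideF hx hx').farA (Or.inl rfl) (Or.inl rfl) fun y y' F r1 r2 =>
    farXA_cert (s1 := true) (s2 := true) rfl hκ (ka0 hκ hx hx') (xa0 hx) hx' (covF31 hx hx') (covF52 hx hx') (x1 hx) (x2 hx')
        Pool.Agent.Strip051.G.IE1.Tab.C.FA35.c_pp_123 noCut_VA noExt_VA F r1 r2 r1 r2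

theorem FA35_pp_133 {κ x : ℝ} (hκ : κ * h0 = kenE x) (hx : 39 / 40 ≤ x) (hx' : x < 1) :
    TriA (DD x).cur (farD κ (h0 * x) (tbl tKF x) (tbl tL x)) 1 3 3 3 5 1 1 :=
  (sideF hx hx').farA (Or.inl rfl) (Or.inl rfl) fun y y' F r1 r2 =>
    farXA_cert (s1 := true) (s2 := true) rfl hκ (ka0 hκ hx hx') (xa0 hx) hx' (covF31 hx hx') (covF53 hx hx') (x1 hx) (x2 hx')
        Pool.Agent.Strip051.G.IE1.Tab.C.FA35.c_pp_133 noCut_VA noExt_VA F r1 r2 r1 r2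

theorem FA35_pp_202 {κ x : ℝ} (hκ : κ * h0 = kenE x) (hx : 39 / 40 ≤ x) (hx' : x < 1) :
    TriA (DD x).cur (farD κ (h0 * x) (tbl tKF x) (tbl tL x)) 2 0 2 3 5 1 1 :=
  (sideF hx hx').farA (Or.inl rfl) (Or.inl rfl) fun y y' F r1 r2 =>
    farXA_cert (s1 := true) (s2 := true) rfl hκ (ka0 hκ hx hx') (xa0 hx) hx' (covF32 hx hx') (covF50 hx hx') (x1 hx) (x2 hx')
        Pool.Agent.Strip051.G.IE1.Tab.C.FA35.c_pp_202 noCut_VA noExt_VA F r1 r2 r1 r2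

theorem FA35_pp_203 {κ x : ℝ} (hκ : κ * h0 = kenE x) (hx : 39 / 40 ≤ x) (hx' : x < 1) :
    TriA (DD x).cur (farD κ (h0 * x) (tbl tKF x) (tbl tL x)) 2 0 3 3 5 1 1 :=
  (sideF hx hx').farA (Or.inl rfl) (Or.inl rfl) fun y y' F r1 r2 =>
    farXA_cert (s1 := true) (s2 := true) rfl hκ (ka0 hκ hx hx') (xa0 hx) hx' (covF32 hx hx') (covF50 hx hx') (x1 hx) (x2 hx')
        Pool.Agent.Strip051.G.IE1.Tab.C.FA35.c_pp_203 noCut_VA noExt_VA F r1 r2 r1 r2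

theorem FA35_pp_213 {κ x : ℝ} (hκ : κ * h0 = kenE x) (hx : 39 / 40 ≤ x) (hx' : x < 1) :
    TriA (DD x).cur (farD κ (h0 * x) (tbl tKF x) (tbl tL x)) 2 1 3 3 5 1 1 :=
  (sideF hx hx').farA (Or.inl rfl) (Or.inl rfl) fun y y' F r1 r2 =>
    farXA_cert (s1 := true) (s2 := true) rfl hκ (ka0 hκ hx hx') (xa0 hx) hx' (covF32 hx hx') (covF51 hx hx') (x1 hx) (x2 hx')
        Pool.Agent.Strip051.G.IE1.Tab.C.FA35.c_pp_213 noCut_VA noExt_VA F r1 r2 r1 r2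

theorem FA35_pp_303 {κ x : ℝ} (hκ : κ * h0 = kenE x) (hx : 39 / 40 ≤ x) (hx' : x < 1) :
    TriA (DD x).cur (farD κ (h0 * x) (tbl tKF x) (tbl tL x)) 3 0 3 3 5 1 1 :=
  (sideF hx hx').farA (Or.inl rfl) (Or.inl rfl) fun y y' F r1 r2 =>
    farXA_cert (s1 := true) (s2 := true) rfl hκ (ka0 hκ hx hx') (xa0 hx) hx' (covF33 hx hx') (covF50 hx hx') (x1 hx) (x2 hx')
        Pool.Agent.Strip051.G.IE1.Tab.C.FA35.c_pp_303 noCut_VA noExt_VA F r1 r2 r1 r2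

theorem FA35_pp_313 {κ x : ℝ} (hκ : κ * h0 = kenE x) (hx : 39 / 40 ≤ x) (hx' : x < 1) :
    TriA (DD x).cur (farD κ (h0 * x) (tbl tKF x) (tbl tL x)) 3 1 3 3 5 1 1 :=
  (sideF hx hx').farA (Or.inl rfl) (Or.inl rfl) fun y y' F r1 r2 =>
    farXA_cert (s1 := true) (s2 := true) rfl hκ (ka0 hκ hx hx') (xa0 hx) hx' (covF33 hx hx') (covF51 hx hx') (x1 hx) (x2 hx')
        Pool.Agent.Strip051.G.IE1.Tab.C.FA35.c_pp_313 noCut_VA noExt_VA F r1 r2 r1 r2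

theorem FA35_pm_001 {κ x : ℝ} (hκ : κ * h0 = kenE x) (hx : 39 / 40 ≤ x) (hx' : x < 1) :
    TriA (DD x).cur (farD κ (h0 * x) (tbl tKF x) (tbl tL x)) 0 0 1 3 5 1 (-1) :=
  (sideF hx hx').farA (Or.inl rfl) (Or.inr rfl) fun y y' F r1 r2 =>
    farXA_cert (s1 := true) (s2 := false) rfl hκ (ka0 hκ hx hx') (xa0 hx) hx' (covF30 hx hx') (covF50 hx hx') (x1 hx) (x2 hx')
        Pool.Agent.Strip051.G.IE1.Tab.C.FA35.c_pm_001 noCut_VA noExt_VA F r1 r2 r1 r2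

theorem FA35_pm_011 {κ x : ℝ} (hκ : κ * h0 = kenE x) (hx : 39 / 40 ≤ x) (hx' : x < 1) :
    TriA (DD x).cur (farD κ (h0 * x) (tbl tKF x) (tbl tL x)) 0 1 1 3 5 1 (-1) :=
  (sideF hx hx').farA (Or.inl rfl) (Or.inr rfl) fun y y' F r1 r2 =>
    farXA_cert (s1 := true) (s2 := false) rfl hκ (ka0 hκ hx hx') (xa0 hx) hx' (covF30 hx hx') (covF51 hx hx') (x1 hx) (x2 hx')
        Pool.Agent.Strip051.G.IE1.Tab.C.FA35.c_pm_011 noCut_VA noExt_VA F r1 r2 r1 r2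

theorem FA35_pm_012 {κ x : ℝ} (hκ : κ * h0 = kenE x) (hx : 39 / 40 ≤ x) (hx' : x < 1) :
    TriA (DD x).cur (farD κ (h0 * x) (tbl tKF x) (tbl tL x)) 0 1 2 3 5 1 (-1) :=
  (sideF hx hx').farA (Or.inl rfl) (Or.inr rfl) fun y y' F r1 r2 =>
    farXA_cert (s1 := true) (s2 := false) rfl hκ (ka0 hκ hx hx') (xa0 hx) hx' (covF30 hx hx') (covF51 hx hx') (x1 hx) (x2 hx')
        Pool.Agent.Strip051.G.IE1.Tab.C.FA35.c_pm_012 noCut_VA noExt_VA F r1 r2 r1 r2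

theorem FA35_pm_022 {κ x : ℝ} (hκ : κ * h0 = kenE x) (hx : 39 / 40 ≤ x) (hx' : x < 1) :
    TriA (DD x).cur (farD κ (h0 * x) (tbl tKF x) (tbl tL x)) 0 2 2 3 5 1 (-1) :=
  (sideF hx hx').farA (Or.inl rfl) (Or.inr rfl) fun y y' F r1 r2 =>
    farXA_cert (s1 := true) (s2 := false) rfl hκ (ka0 hκ hx hx') (xa0 hx) hx' (covF30 hx hx') (covF52 hx hx') (x1 hx) (x2 hx')
        Pool.Agent.Strip051.G.IE1.Tab.C.FA35.c_pm_022 noCut_VA noExt_VA F r1 r2 r1 r2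

theorem FA35_pm_023 {κ x : ℝ} (hκ : κ * h0 = kenE x) (hx : 39 / 40 ≤ x) (hx' : x < 1) :
    TriA (DD x).cur (farD κ (h0 * x) (tbl tKF x) (tbl tL x)) 0 2 3 3 5 1 (-1) :=
  (sideF hx hx').farA (Or.inl rfl) (Or.inr rfl) fun y y' F r1 r2 =>
    farXA_cert (s1 := true) (s2 := false) rfl hκ (ka0 hκ hx hx') (xa0 hx) hx' (covF30 hx hx') (covF52 hx hx') (x1 hx) (x2 hx')
        Pool.Agent.Strip051.G.IE1.Tab.C.FA35.c_pm_023 noCut_VA noExt_VA F r1 r2 r1 r2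

theorem FA35_pm_033 {κ x : ℝ} (hκ : κ * h0 = kenE x) (hx : 39 / 40 ≤ x) (hx' : x < 1) :
    TriA (DD x).cur (farD κ (h0 * x) (tbl tKF x) (tbl tL x)) 0 3 3 3 5 1 (-1) :=
  (sideF hx hx').farA (Or.inl rfl) (Or.inr rfl) fun y y' F r1 r2 =>
    farXA_cert (s1 := true) (s2 := false) rfl hκ (ka0 hκ hx hx') (xa0 hx) hx' (covF30 hx hx') (covF53 hx hx') (x1 hx) (x2 hx')
        Pool.Agent.Strip051.G.IE1.Tab.C.FA35.c_pm_033 noCut_VA noExt_VA F r1 r2 r1 r2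

theorem FA35_pm_101 {κ x : ℝ} (hκ : κ * h0 = kenE x) (hx : 39 / 40 ≤ x) (hx' : x < 1) :
    TriA (DD x).cur (farD κ (h0 * x) (tbl tKF x) (tbl tL x)) 1 0 1 3 5 1 (-1) :=
  (sideF hx hx').farA (Or.inl rfl) (Or.inr rfl) fun y y' F r1 r2 =>
    farXA_cert (s1 := true) (s2 := false) rfl hκ (ka0 hκ hx hx') (xa0 hx) hx' (covF31 hx hx') (covF50 hx hx') (x1 hx) (x2 hx')
        Pool.Agent.Strip051.G.IE1.Tab.C.FA35.c_pm_101 noCut_VA noExt_VA F r1 r2 r1 r2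

theorem FA35_pm_102 {κ x : ℝ} (hκ : κ * h0 = kenE x) (hx : 39 / 40 ≤ x) (hx' : x < 1) :
    TriA (DD x).cur (farD κ (h0 * x) (tbl tKF x) (tbl tL x)) 1 0 2 3 5 1 (-1) :=
  (sideF hx hx').farA (Or.inl rfl) (Or.inr rfl) fun y y' F r1 r2 =>
    farXA_cert (s1 := true) (s2 := false) rfl hκ (ka0 hκ hx hx') (xa0 hx) hx' (covF31 hx hx') (covF50 hx hx') (x1 hx) (x2 hx')
        Pool.Agent.Strip051.G.IE1.Tab.C.FA35.c_pm_102 noCut_VA noExt_VA F r1 r2 r1 r2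

theorem FA35_pm_112 {κ x : ℝ} (hκ : κ * h0 = kenE x) (hx : 39 / 40 ≤ x) (hx' : x < 1) :
    TriA (DD x).cur (farD κ (h0 * x) (tbl tKF x) (tbl tL x)) 1 1 2 3 5 1 (-1) :=
  (sideF hx hx').farA (Or.inl rfl) (Or.inr rfl) fun y y' F r1 r2 =>
    farXA_cert (s1 := true) (s2 := false) rfl hκ (ka0 hκ hx hx') (xa0 hx) hx' (covF31 hx hx') (covF51 hx hx') (x1 hx) (x2 hx')
        Pool.Agent.Strip051.G.IE1.Tab.C.FA35.c_pm_112 noCut_VA noExt_VA F r1 r2 r1 r2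

theorem FA35_pm_113 {κ x : ℝ} (hκ : κ * h0 = kenE x) (hx : 39 / 40 ≤ x) (hx' : x < 1) :
    TriA (DD x).cur (farD κ (h0 * x) (tbl tKF x) (tbl tL x)) 1 1 3 3 5 1 (-1) :=
  (sideF hx hx').farA (Or.inl rfl) (Or.inr rfl) fun y y' F r1 r2 =>
    farXA_cert (s1 := true) (s2 := false) rfl hκ (ka0 hκ hx hx') (xa0 hx) hx' (covF31 hx hx') (covF51 hx hx') (x1 hx) (x2 hx')
        Pool.Agent.Strip051.G.IE1.Tab.C.FA35.c_pm_113 noCut_VA noExt_VA F r1 r2 r1 r2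

theorem FA35_pm_123 {κ x : ℝ} (hκ : κ * h0 = kenE x) (hx : 39 / 40 ≤ x) (hx' : x < 1) :
    TriA (DD x).cur (farD κ (h0 * x) (tbl tKF x) (tbl tL x)) 1 2 3 3 5 1 (-1) :=
  (sideF hx hx').farA (Or.inl rfl) (Or.inr rfl) fun y y' F r1 r2 =>
    farXA_cert (s1 := true) (s2 := false) rfl hκ (ka0 hκ hx hx') (xa0 hx) hx' (covF31 hx hx') (covF52 hx hx') (x1 hx) (x2 hx')
        Pool.Agent.Strip051.G.IE1.Tab.C.FA35.c_pm_123 noCut_VA noExt_VA F r1 r2 r1 r2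

theorem FA35_pm_133 {κ x : ℝ} (hκ : κ * h0 = kenE x) (hx : 39 / 40 ≤ x) (hx' : x < 1) :
    TriA (DD x).cur (farD κ (h0 * x) (tbl tKF x) (tbl tL x)) 1 3 3 3 5 1 (-1) :=
  (sideF hx hx').farA (Or.inl rfl) (Or.inr rfl) fun y y' F r1 r2 =>
    farXA_cert (s1 := true) (s2 := false) rfl hκ (ka0 hκ hx hx') (xa0 hx) hx' (covF31 hx hx') (covF53 hx hx') (x1 hx) (x2 hx')
        Pool.Agent.Strip051.G.IE1.Tab.C.FA35.c_pm_133 noCut_VA noExt_VA F r1 r2 r1 r2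

theorem FA35_pm_202 {κ x : ℝ} (hκ : κ * h0 = kenE x) (hx : 39 / 40 ≤ x) (hx' : x < 1) :
    TriA (DD x).cur (farD κ (h0 * x) (tbl tKF x) (tbl tL x)) 2 0 2 3 5 1 (-1) :=
  (sideF hx hx').farA (Or.inl rfl) (Or.inr rfl) fun y y' F r1 r2 =>
    farXA_cert (s1 := true) (s2 := false) rfl hκ (ka0 hκ hx hx') (xa0 hx) hx' (covF32 hx hx') (covF50 hx hx') (x1 hx) (x2 hx')
        Pool.Agent.Strip051.G.IE1.Tab.C.FA35.c_pm_202 noCut_VA noExt_VA F r1 r2 r1 r2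

theorem FA35_pm_203 {κ x : ℝ} (hκ : κ * h0 = kenE x) (hx : 39 / 40 ≤ x) (hx' : x < 1) :
    TriA (DD x).cur (farD κ (h0 * x) (tbl tKF x) (tbl tL x)) 2 0 3 3 5 1 (-1) :=
  (sideF hx hx').farA (Or.inl rfl) (Or.inr rfl) fun y y' F r1 r2 =>
    farXA_cert (s1 := true) (s2 := false) rfl hκ (ka0 hκ hx hx') (xa0 hx) hx' (covF32 hx hx') (covF50 hx hx') (x1 hx) (x2 hx')
        Pool.Agent.Strip051.G.IE1.Tab.C.FA35.c_pm_203 noCut_VA noExt_VA F r1 r2 r1 r2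

theorem FA35_pm_213 {κ x : ℝ} (hκ : κ * h0 = kenE x) (hx : 39 / 40 ≤ x) (hx' : x < 1) :
    TriA (DD x).cur (farD κ (h0 * x) (tbl tKF x) (tbl tL x)) 2 1 3 3 5 1 (-1) :=
  (sideF hx hx').farA (Or.inl rfl) (Or.inr rfl) fun y y' F r1 r2 =>
    farXA_cert (s1 := true) (s2 := false) rfl hκ (ka0 hκ hx hx') (xa0 hx) hx' (covF32 hx hx') (covF51 hx hx') (x1 hx) (x2 hx')
        Pool.Agent.Strip051.G.IE1.Tab.C.FA35.c_pm_213 noCut_VA noExt_VA F r1 r2 r1 r2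

theorem FA35_pm_303 {κ x : ℝ} (hκ : κ * h0 = kenE x) (hx : 39 / 40 ≤ x) (hx' : x < 1) :
    TriA (DD x).cur (farD κ (h0 * x) (tbl tKF x) (tbl tL x)) 3 0 3 3 5 1 (-1) :=
  (sideF hx hx').farA (Or.inl rfl) (Or.inr rfl) fun y y' F r1 r2 =>
    farXA_cert (s1 := true) (s2 := false) rfl hκ (ka0 hκ hx hx') (xa0 hx) hx' (covF33 hx hx') (covF50 hx hx') (x1 hx) (x2 hx')
        Pool.Agent.Strip051.G.IE1.Tab.C.FA35.c_pm_303 noCut_VA noExt_VA F r1 r2 r1 r2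

theorem FA35_pm_313 {κ x : ℝ} (hκ : κ * h0 = kenE x) (hx : 39 / 40 ≤ x) (hx' : x < 1) :
    TriA (DD x).cur (farD κ (h0 * x) (tbl tKF x) (tbl tL x)) 3 1 3 3 5 1 (-1) :=
  (sideF hx hx').farA (Or.inl rfl) (Or.inr rfl) fun y y' F r1 r2 =>
    farXA_cert (s1 := true) (s2 := false) rfl hκ (ka0 hκ hx hx') (xa0 hx) hx' (covF33 hx hx') (covF51 hx hx') (x1 hx) (x2 hx')
        Pool.Agent.Strip051.G.IE1.Tab.C.FA35.c_pm_313 noCut_VA noExt_VA F r1 r2 r1 r2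

theorem FA35_mm_001 {κ x : ℝ} (hκ : κ * h0 = kenE x) (hx : 39 / 40 ≤ x) (hx' : x < 1) :
    TriA (DD x).cur (farD κ (h0 * x) (tbl tKF x) (tbl tL x)) 0 0 1 3 5 (-1) (-1) :=
  (sideF hx hx').farA (Or.inr rfl) (Or.inr rfl) fun y y' F r1 r2 =>
    farXA_cert (s1 := false) (s2 := false) rfl hκ (ka0 hκ hx hx') (xa0 hx) hx' (covF30 hx hx') (covF50 hx hx') (x1 hx) (x2 hx')
        Pool.Agent.Strip051.G.IE1.Tab.C.FA35.c_mm_001 noCut_VA noExt_VA F r1 r2 r1 r2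

theorem FA35_mm_011 {κ x : ℝ} (hκ : κ * h0 = kenE x) (hx : 39 / 40 ≤ x) (hx' : x < 1) :
    TriA (DD x).cur (farD κ (h0 * x) (tbl tKF x) (tbl tL x)) 0 1 1 3 5 (-1) (-1) :=
  (sideF hx hx').farA (Or.inr rfl) (Or.inr rfl) fun y y' F r1 r2 =>
    farXA_cert (s1 := false) (s2 := false) rfl hκ (ka0 hκ hx hx') (xa0 hx) hx' (covF30 hx hx') (covF51 hx hx') (x1 hx) (x2 hx')
        Pool.Agent.Strip051.G.IE1.Tab.C.FA35.c_mm_011 noCut_VA noExt_VA F r1 r2 r1 r2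

theorem FA35_mm_012 {κ x : ℝ} (hκ : κ * h0 = kenE x) (hx : 39 / 40 ≤ x) (hx' : x < 1) :
    TriA (DD x).cur (farD κ (h0 * x) (tbl tKF x) (tbl tL x)) 0 1 2 3 5 (-1) (-1) :=
  (sideF hx hx').farA (Or.inr rfl) (Or.inr rfl) fun y y' F r1 r2 =>
    farXA_cert (s1 := false) (s2 := false) rfl hκ (ka0 hκ hx hx') (xa0 hx) hx' (covF30 hx hx') (covF51 hx hx') (x1 hx) (x2 hx')
        Pool.Agent.Strip051.G.IE1.Tab.C.FA35.c_mm_012 noCut_VA noExt_VA F r1 r2 r1 r2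

theorem FA35_mm_022 {κ x : ℝ} (hκ : κ * h0 = kenE x) (hx : 39 / 40 ≤ x) (hx' : x < 1) :
    TriA (DD x).cur (farD κ (h0 * x) (tbl tKF x) (tbl tL x)) 0 2 2 3 5 (-1) (-1) :=
  (sideF hx hx').farA (Or.inr rfl) (Or.inr rfl) fun y y' F r1 r2 =>
    farXA_cert (s1 := false) (s2 := false) rfl hκ (ka0 hκ hx hx') (xa0 hx) hx' (covF30 hx hx') (covF52 hx hx') (x1 hx) (x2 hx')
        Pool.Agent.Strip051.G.IE1.Tab.C.FA35.c_mm_022 noCut_VA noExt_VA F r1 r2 r1 r2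

theorem FA35_mm_023 {κ x : ℝ} (hκ : κ * h0 = kenE x) (hx : 39 / 40 ≤ x) (hx' : x < 1) :
    TriA (DD x).cur (farD κ (h0 * x) (tbl tKF x) (tbl tL x)) 0 2 3 3 5 (-1) (-1) :=
  (sideF hx hx').farA (Or.inr rfl) (Or.inr rfl) fun y y' F r1 r2 =>
    farXA_cert (s1 := false) (s2 := false) rfl hκ (ka0 hκ hx hx') (xa0 hx) hx' (covF30 hx hx') (covF52 hx hx') (x1 hx) (x2 hx')
        Pool.Agent.Strip051.G.IE1.Tab.C.FA35.c_mm_023 noCut_VA noExt_VA F r1 r2 r1 r2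

theorem FA35_mm_033 {κ x : ℝ} (hκ : κ * h0 = kenE x) (hx : 39 / 40 ≤ x) (hx' : x < 1) :
    TriA (DD x).cur (farD κ (h0 * x) (tbl tKF x) (tbl tL x)) 0 3 3 3 5 (-1) (-1) :=
  (sideF hx hx').farA (Or.inr rfl) (Or.inr rfl) fun y y' F r1 r2 =>
    farXA_cert (s1 := false) (s2 := false) rfl hκ (ka0 hκ hx hx') (xa0 hx) hx' (covF30 hx hx') (covF53 hx hx') (x1 hx) (x2 hx')
        Pool.Agent.Strip051.G.IE1.Tab.C.FA35.c_mm_033 noCut_VA noExt_VA F r1 r2 r1 r2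

theorem FA35_mm_101 {κ x : ℝ} (hκ : κ * h0 = kenE x) (hx : 39 / 40 ≤ x) (hx' : x < 1) :
    TriA (DD x).cur (farD κ (h0 * x) (tbl tKF x) (tbl tL x)) 1 0 1 3 5 (-1) (-1) :=
  (sideF hx hx').farA (Or.inr rfl) (Or.inr rfl) fun y y' F r1 r2 =>
    farXA_cert (s1 := false) (s2 := false) rfl hκ (ka0 hκ hx hx') (xa0 hx) hx' (covF31 hx hx') (covF50 hx hx') (x1 hx) (x2 hx')
        Pool.Agent.Strip051.G.IE1.Tab.C.FA35.c_mm_101 noCut_VA noExt_VA F r1 r2 r1 r2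

theorem FA35_mm_102 {κ x : ℝ} (hκ : κ * h0 = kenE x) (hx : 39 / 40 ≤ x) (hx' : x < 1) :
    TriA (DD x).cur (farD κ (h0 * x) (tbl tKF x) (tbl tL x)) 1 0 2 3 5 (-1) (-1) :=
  (sideF hx hx').farA (Or.inr rfl) (Or.inr rfl) fun y y' F r1 r2 =>
    farXA_cert (s1 := false) (s2 := false) rfl hκ (ka0 hκ hx hx') (xa0 hx) hx' (covF31 hx hx') (covF50 hx hx') (x1 hx) (x2 hx')
        Pool.Agent.Strip051.G.IE1.Tab.C.FA35.c_mm_102 noCut_VA noExt_VA F r1 r2 r1 r2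

theorem FA35_mm_112 {κ x : ℝ} (hκ : κ * h0 = kenE x) (hx : 39 / 40 ≤ x) (hx' : x < 1) :
    TriA (DD x).cur (farD κ (h0 * x) (tbl tKF x) (tbl tL x)) 1 1 2 3 5 (-1) (-1) :=
  (sideF hx hx').farA (Or.inr rfl) (Or.inr rfl) fun y y' F r1 r2 =>
    farXA_cert (s1 := false) (s2 := false) rfl hκ (ka0 hκ hx hx') (xa0 hx) hx' (covF31 hx hx') (covF51 hx hx') (x1 hx) (x2 hx')
        Pool.Agent.Strip051.G.IE1.Tab.C.FA35.c_mm_112 noCut_VA noExt_VA F r1 r2 r1 r2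

theorem FA35_mm_113 {κ x : ℝ} (hκ : κ * h0 = kenE x) (hx : 39 / 40 ≤ x) (hx' : x < 1) :
    TriA (DD x).cur (farD κ (h0 * x) (tbl tKF x) (tbl tL x)) 1 1 3 3 5 (-1) (-1) :=
  (sideF hx hx').farA (Or.inr rfl) (Or.inr rfl) fun y y' F r1 r2 =>
    farXA_cert (s1 := false) (s2 := false) rfl hκ (ka0 hκ hx hx') (xa0 hx) hx' (covF31 hx hx') (covF51 hx hx') (x1 hx) (x2 hx')
        Pool.Agent.Strip051.G.IE1.Tab.C.FA35.c_mm_113 noCut_VA noExt_VA F r1 r2 r1 r2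

theorem FA35_mm_123 {κ x : ℝ} (hκ : κ * h0 = kenE x) (hx : 39 / 40 ≤ x) (hx' : x < 1) :
    TriA (DD x).cur (farD κ (h0 * x) (tbl tKF x) (tbl tL x)) 1 2 3 3 5 (-1) (-1) :=
  (sideF hx hx').farA (Or.inr rfl) (Or.inr rfl) fun y y' F r1 r2 =>
    farXA_cert (s1 := false) (s2 := false) rfl hκ (ka0 hκ hx hx') (xa0 hx) hx' (covF31 hx hx') (covF52 hx hx') (x1 hx) (x2 hx')
        Pool.Agent.Strip051.G.IE1.Tab.C.FA35.c_mm_123 noCut_VA noExt_VA F r1 r2 r1 r2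

theorem FA35_mm_133 {κ x : ℝ} (hκ : κ * h0 = kenE x) (hx : 39 / 40 ≤ x) (hx' : x < 1) :
    TriA (DD x).cur (farD κ (h0 * x) (tbl tKF x) (tbl tL x)) 1 3 3 3 5 (-1) (-1) :=
  (sideF hx hx').farA (Or.inr rfl) (Or.inr rfl) fun y y' F r1 r2 =>
    farXA_cert (s1 := false) (s2 := false) rfl hκ (ka0 hκ hx hx') (xa0 hx) hx' (covF31 hx hx') (covF53 hx hx') (x1 hx) (x2 hx')
        Pool.Agent.Strip051.G.IE1.Tab.C.FA35.c_mm_133 noCut_VA noExt_VA F r1 r2 r1 r2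

theorem FA35_mm_202 {κ x : ℝ} (hκ : κ * h0 = kenE x) (hx : 39 / 40 ≤ x) (hx' : x < 1) :
    TriA (DD x).cur (farD κ (h0 * x) (tbl tKF x) (tbl tL x)) 2 0 2 3 5 (-1) (-1) :=
  (sideF hx hx').farA (Or.inr rfl) (Or.inr rfl) fun y y' F r1 r2 =>
    farXA_cert (s1 := false) (s2 := false) rfl hκ (ka0 hκ hx hx') (xa0 hx) hx' (covF32 hx hx') (covF50 hx hx') (x1 hx) (x2 hx')
        Pool.Agent.Strip051.G.IE1.Tab.C.FA35.c_mm_202 noCut_VA noExt_VA F r1 r2 r1 r2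

theorem FA35_mm_203 {κ x : ℝ} (hκ : κ * h0 = kenE x) (hx : 39 / 40 ≤ x) (hx' : x < 1) :
    TriA (DD x).cur (farD κ (h0 * x) (tbl tKF x) (tbl tL x)) 2 0 3 3 5 (-1) (-1) :=
  (sideF hx hx').farA (Or.inr rfl) (Or.inr rfl) fun y y' F r1 r2 =>
    farXA_cert (s1 := false) (s2 := false) rfl hκ (ka0 hκ hx hx') (xa0 hx) hx' (covF32 hx hx') (covF50 hx hx') (x1 hx) (x2 hx')
        Pool.Agent.Strip051.G.IE1.Tab.C.FA35.c_mm_203 noCut_VA noExt_VA F r1 r2 r1 r2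

theorem FA35_mm_213 {κ x : ℝ} (hκ : κ * h0 = kenE x) (hx : 39 / 40 ≤ x) (hx' : x < 1) :
    TriA (DD x).cur (farD κ (h0 * x) (tbl tKF x) (tbl tL x)) 2 1 3 3 5 (-1) (-1) :=
  (sideF hx hx').farA (Or.inr rfl) (Or.inr rfl) fun y y' F r1 r2 =>
    farXA_cert (s1 := false) (s2 := false) rfl hκ (ka0 hκ hx hx') (xa0 hx) hx' (covF32 hx hx') (covF51 hx hx') (x1 hx) (x2 hx')
        Pool.Agent.Strip051.G.IE1.Tab.C.FA35.c_mm_213 noCut_VA noExt_VA F r1 r2 r1 r2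

theorem FA35_mm_303 {κ x : ℝ} (hκ : κ * h0 = kenE x) (hx : 39 / 40 ≤ x) (hx' : x < 1) :
    TriA (DD x).cur (farD κ (h0 * x) (tbl tKF x) (tbl tL x)) 3 0 3 3 5 (-1) (-1) :=
  (sideF hx hx').farA (Or.inr rfl) (Or.inr rfl) fun y y' F r1 r2 =>
    farXA_cert (s1 := false) (s2 := false) rfl hκ (ka0 hκ hx hx') (xa0 hx) hx' (covF33 hx hx') (covF50 hx hx') (x1 hx) (x2 hx')
        Pool.Agent.Strip051.G.IE1.Tab.C.FA35.c_mm_303 noCut_VA noExt_VA F r1 r2 r1 r2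

theorem FA35_mm_313 {κ x : ℝ} (hκ : κ * h0 = kenE x) (hx : 39 / 40 ≤ x) (hx' : x < 1) :
    TriA (DD x).cur (farD κ (h0 * x) (tbl tKF x) (tbl tL x)) 3 1 3 3 5 (-1) (-1) :=
  (sideF hx hx').farA (Or.inr rfl) (Or.inr rfl) fun y y' F r1 r2 =>
    farXA_cert (s1 := false) (s2 := false) rfl hκ (ka0 hκ hx hx') (xa0 hx) hx' (covF33 hx hx') (covF51 hx hx') (x1 hx) (x2 hx')
        Pool.Agent.Strip051.G.IE1.Tab.C.FA35.c_mm_313 noCut_VA noExt_VA F r1 r2 r1 r2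

theorem FA35 {κ x : ℝ} (hκ : κ * h0 = kenE x) (hx : 39 / 40 ≤ x) (hx' : x < 1) : AllTA (DD x).cur (farD κ (h0 * x) (tbl tKF x) (tbl tL x)) 3 5 where
  pp := all17 (Q := fun a b c => TriA (DD x).cur (farD κ (h0 * x) (tbl tKF x) (tbl tL x)) a b c 3 5 1 1)
    (FA35_pp_001 hκ hx hx') (FA35_pp_011 hκ hx hx') (FA35_pp_012 hκ hx hx') (FA35_pp_022 hκ hx hx') (FA35_pp_023 hκ hx hx') (FA35_pp_033 hκ hx hx') (FA35_pp_101 hκ hx hx') (FA35_pp_102 hκ hx hx') (FA35_pp_112 hκ hx hx') (FA35_pp_113 hκ hx hx') (FA35_pp_123 hκ hx hx') (FA35_pp_133 hκ hx hx') (FA35_pp_202 hκ hx hx') (FA35_pp_203 hκ hx hx') (FA35_pp_213 hκ hx hx') (FA35_pp_303 hκ hx hx') (FA35_pp_313 hκ hx hx')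
  pm := all17 (Q := fun a b c => TriA (DD x).cur (farD κ (h0 * x) (tbl tKF x) (tbl tL x)) a b c 3 5 1 (-1))
    (FA35_pm_001 hκ hx hx') (FA35_pm_011 hκ hx hx') (FA35_pm_012 hκ hx hx') (FA35_pm_022 hκ hx hx') (FA35_pm_023 hκ hx hx') (FA35_pm_033 hκ hx hx') (FA35_pm_101 hκ hx hx') (FA35_pm_102 hκ hx hx') (FA35_pm_112 hκ hx hx') (FA35_pm_113 hκ hx hx') (FA35_pm_123 hκ hx hx') (FA35_pm_133 hκ hx hx') (FA35_pm_202 hκ hx hx') (FA35_pm_203 hκ hx hx') (FA35_pm_213 hκ hx hx') (FA35_pm_303 hκ hx hx') (FA35_pm_313 hκ hx hx')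
  mm := all17 (Q := fun a b c => TriA (DD x).cur (farD κ (h0 * x) (tbl tKF x) (tbl tL x)) a b c 3 5 (-1) (-1))
    (FA35_mm_001 hκ hx hx') (FA35_mm_011 hκ hx hx') (FA35_mm_012 hκ hx hx') (FA35_mm_022 hκ hx hx') (FA35_mm_023 hκ hx hx') (FA35_mm_033 hκ hx hx') (FA35_mm_101 hκ hx hx') (FA35_mm_102 hκ hx hx') (FA35_mm_112 hκ hx hx') (FA35_mm_113 hκ hx hx') (FA35_mm_123 hκ hx hx') (FA35_mm_133 hκ hx hx') (FA35_mm_202 hκ hx hx') (FA35_mm_203 hκ hx hx') (FA35_mm_213 hκ hx hx') (FA35_mm_303 hκ hx hx') (FA35_mm_313 hκ hx hx')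

end Pool.Agent.Strip051.G.IE1.Tab
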