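import Pool.Agent.Strip051.G.IE1.Tab

/-! # Certificates F20 (generated) -/

set_option linter.all false
set_option maxRecDepth 100000

namespace Pool.Agent.Strip051.G.IE1.Tab.C.FA36

open Pool.Agent.Strip051.PB Pool.Agent.Strip051.PB.T
open Pool.Agent.Strip051.G.IE1.Tab

noncomputable def f_pm_022 : ℕ → ℕ → ℕ → ℕ → Bool := onCell 0 536870912 1073741824 536870912 1046898278 26843546
    (rowFX 1 true true false .pp 0 2 2 (qsf 0 536870912 1073741824 536870912 2) ndF3q0 ndF6q2 pcF2 Cut.none Ext.none)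

def k0_pm_022 : ∃ t, chk3 f_pm_022 t 1 4 1 = true :=
  ⟨(a (l 3) (l 1)), by decide +kernel⟩

def k1_pm_022 : ∃ t, chk3 f_pm_022 t 2 40 1 = true :=
  ⟨(a (l 3) (l 3)), by decide +kernel⟩

def k2_pm_022 : ∃ t, chk3 f_pm_022 t 4 82 1 = true :=
  ⟨(l 3), by decide +kernel⟩

def k3_pm_022 : ∃ t, chk3 f_pm_022 t 4 166 1 = true :=
  ⟨(a (l 3) (l 3)), by decide +kernel⟩

def k4_pm_022 : ∃ t, chk3 f_pm_022 t 8 167 1 = true :=
  ⟨(a (b (b (l 3) (b (a (a (c (l 16135952) (l 16145256)) (l 3)) (l 3)) (a (c (a (l 16125424) (a (l 16268912) (l 16311536))) (a (l 16092488) (l 16235144))) (c (l 16402088) (l 16457016))))) (b (c (a (b (b (a (l 16117536) (a (l 16261000) (l 16329248))) (b (a (l 16113592) (a (l 16257040) (l 16327192))) (a (b (b (l 16111952) (l 16111296)) (l 16110312)) (c (b (b (l 16279728) (l 16237232)) (l 16299272)) (a (l 16260144) (l 16320008)))))) (a (l 16104408) (a (l 16247816) (l 16340800)))) (b (b (l 16383696) (b (l 16384984) (c (a (l 16404088) (l 16428264)) (l 16400640))))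 (l 16408968))) (a (b (b (c (l 16069360) (l 16102576)) (b (a (l 16101288) (l 16247584)) (b (b (a (l 16120576) (l 16267304)) (a (l 16036008) (l 16245760))) (l 16028536)))) (l 16022560)) (b (b (l 16459704) (b (l 16461048) (c (l 16459784) (l 16465648)))) (l 16464168)))) (a (a (l 15905632) (c (l 16229176) (l 16328672))) (c (l 16434744) (l 16469176))))) (b (l 3) (b (b (b (l 3) (b (c (a (c (l 16418384) (l 16479056)) (l 10300572468727)) (a (l 16486544) (l 16511384))) (c (a (c (a (l 16450400) (l 16473752)) (l 16438000)) (c (a (l 16497928) (l 16519464)) (l 16513312))) (c (a (l 16486120) (l 16512560)) (a (l 16484464) (l 16512064)))))) (a (l 16479776) (l 16514152))) (a (l 16485112) (l 16519576))))), by decide +kernel⟩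

def k5_pm_022 : ∃ t, chk3 f_pm_022 t 9 167 1 = true :=
  ⟨(b (b (a (l 3) (c (l 4310703075751) (l 3052814510391))) (b (a (a (l 3) (l 3)) (c (l 16273640) (l 16285368))) (a (c (a (l 14377570206247) (l 16504432)) (a (l 12648845881847) (l 16501752))) (c (l 16273824) (l 16285560))))) (a (b (b (b (c (a (a (l 16534400) (l 16556424)) (l 16504384)) (a (l 16502168) (l 16501704))) (b (c (a (a (l 16535744) (l 16556840)) (l 16504352)) (a (l 16544992) (l 16501680))) (c (c (a (a (l 16536424) (a (l 16546712) (l 16567944))) (l 16442088)) (a (a (l 16535760) (l 16536080)) (l 16461728))) (c (a (a (l 16535280) (l 16556688)) (l 16481360)) (a (l 16503512) (l 16480024)))))) (a (c (l 16549208) (l 16547672)) (l 16502960))) (a (c (l 16553648) (l 16552288)) (l 16502856))) (b (b (b (c (l 16294928) (l 16285704)) (b (c (l 16295000) (l 16285776)) (b (b (c (l 16295024) (l 16285808)) (c (l 16253096) (l 16285816))) (l 16290448)))) (l 16290552)) (l 16290832)))), by decide +kernel⟩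

def k6_pm_022 : ∃ t, chk3 f_pm_022 t 5 41 1 = true :=
  ⟨(a (b (l 3) (a (b (b (l 3) (c (b (l 16050240) (l 16051136)) (c (l 16038376) (l 16030168)))) (b (b (c (l 16052032) (l 16035656)) (b (c (l 16052704) (l 16036352)) (c (l 16053144) (l 16036816)))) (b (b (b (c (l 16053480) (l 16037160)) (b (c (l 16053648) (l 16037336)) (b (b (c (l 16053720) (l 16037408)) (c (l 16053744) (l 16037432))) (l 16045632)))) (l 16045888)) (l 16046576)))) (b (l 1) (b (l 1) (b (l 1) (l 15788528)))))) (l 1)), by decide +kernel⟩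

def k7_pm_022 : ∃ t, chk3 f_pm_022 t 2 21 1 = true :=
  ⟨(a (a (a (a (a (c (l 15520656) (l 15497784)) (b (c (l 15926800) (l 16042152)) (c (l 15794656) (l 15816624)))) (b (a (b (c (a (l 16238528) (l 16374280)) (l 16346000)) (l 16052552)) (c (b (l 16474608) (c (l 16287960) (l 16371080))) (b (l 16461744) (l 16400560)))) (c (c (l 15889168) (l 15933512)) (l 15968184)))) (b (c (a (l 16412080) (l 16473136)) (l 16349456)) (a (a (b (c (a (l 16365368) (l 16326528)) (l 16348880)) (l 16333192)) (b (l 16321672) (a (l 16240872) (l 16244176)))) (l 16190728)))) (a (a (b (c (l 16475304) (l 16495104)) (l 16296776)) (b (a (l 16494064) (l 16453816)) (l 16343984))) (a (b (l 16351136) (l 16235912)) (l 16238984)))) (a (a (l 16061504) (c (l 15824144) (l 15801168))) (a (l 510595003303) (l 1)))), by decide +kernel⟩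

def k8_pm_022 : ∃ t, chk3 f_pm_022 t 2 11 1 = true :=
  ⟨(a (a (a (b (a (c (a (l 15144048) (l 15237184)) (a (l 15123424) (l 15350032))) (c (b (l 15654384) (l 15550104)) (l 15518496))) (a (b (c (a (l 14804072) (l 14939360)) (a (l 14772304) (l 14934256))) (l 14802304)) (b (l 15048800) (c (l 15042176) (l 15055152))))) (b (a (b (b (l 16164144) (l 16030864)) (l 15827504)) (b (a (c (b (l 16154328) (l 16337560)) (l 16141192)) (b (l 16173736) (c (l 16124160) (l 16156088)))) (a (l 16294832) (l 16190560)))) (a (l 15362232) (b (l 15969056) (l 15904560))))) (a (b (a (b (l 16148856) (a (b (l 15964000) (l 16193864)) (b (l 16034776) (l 16023968)))) (l 16091112)) (a (b (l 16080600) (l 16273512)) (b (b (l 15938560) (l 15985376)) (l 16142352)))) (b (a (l 16118976) (b (l 16215360) (l 16101872))) (b (l 15910248) (a (l 15688944) (l 15786984)))))) (a (a (b (a (l 16122064) (l 16030896)) (b (l 16003984) (l 15881096))) (b (l 15856992) (l 15881368))) (a (l 15634392) (l 15376336)))), by decide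 +kernel⟩

def k9_pm_022 : ∃ t, chk3 f_pm_022 t 3 5 1 = true :=
  ⟨(a (a (b (l 1) (l 501467881959)) (l 1)) (l 1)), by decide +kernel⟩

def k10_pm_022 : ∃ t, chk3 f_pm_022 t 1 3 1 = true :=
  ⟨(a (a (b (a (b (a (c (l 14900336) (l 14884448)) (b (a (b (l 15255712) (l 15183760)) (b (l 15645080) (l 15450368))) (l 15280560))) (a (l 14895376) (l 15280376))) (b (a (b (a (l 15843368) (l 16357736)) (a (l 15617616) (l 15894808))) (b (a (l 16007944) (b (l 15767880) (l 15980168))) (l 16205000))) (a (l 15668416) (b (a (l 15972488) (l 16198896)) (l 15995920))))) (a (a (b (l 14895376) (l 14895376)) (l 15280376)) (l 15712832))) (b (a (b (a (b (a (l 15566288) (l 15686056)) (a (l 16057064) (l 15647976))) (b (l 15758296) (l 15562368))) (a (b (l 16405640) (l 16329992)) (b (b (l 15623568) (l 15878976)) (l 16340720)))) (b (a (b (l 15703424) (l 15595944)) (l 15583448)) (a (b (l 15415576) (l 15555520)) (b (l 15512176) (l 15340488))))) (a (b (a (l 16235208) (l 16509104)) (l 16346384)) (b (a (b (l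 16225584) (l 16675600)) (b (l 15572992) (l 16167912))) (a (l 16666592) (l 16679856)))))) (b (a (b (l 15424320) (a (b (l 15583304) (l 15537648)) (l 15493280))) (l 514352247735)) (a (b (a (b (l 15351008) (a (l 15572896) (l 15340376))) (l 15533936)) (a (b (a (l 16167832) (l 15572896)) (l 16381416)) (b (l 15497816) (l 15434120)))) (b (l 15424320) (l 15496728))))), by decide +kernel⟩

theorem s11_pm_022 : ∃ t, chk3 f_pm_022 t 4 167 1 = true := ex3_a k4_pm_022 k5_pm_022

theorem s12_pm_022 : ∃ t, chk3 f_pm_022 t 4 83 1 = true := ex3_b k3_pm_022 s11_pm_022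

theorem s13_pm_022 : ∃ t, chk3 f_pm_022 t 4 41 1 = true := ex3_b k2_pm_022 s12_pm_022

theorem s14_pm_022 : ∃ t, chk3 f_pm_022 t 2 41 1 = true := ex3_a s13_pm_022 k6_pm_022

theorem s15_pm_022 : ∃ t, chk3 f_pm_022 t 2 20 1 = true := ex3_b k1_pm_022 s14_pm_022

theorem s16_pm_022 : ∃ t, chk3 f_pm_022 t 2 10 1 = true := ex3_b s15_pm_022 k7_pm_022

theorem s17_pm_022 : ∃ t, chk3 f_pm_022 t 2 5 1 = true := ex3_b s16_pm_022 k8_pm_022

theorem s18_pm_022 : ∃ t, chk3 f_pm_022 t 1 5 1 = true := ex3_a s17_pm_022 k9_pm_022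

theorem s19_pm_022 : ∃ t, chk3 f_pm_022 t 1 2 1 = true := ex3_b k0_pm_022 s18_pm_022

theorem s20_pm_022 : ∃ t, chk3 f_pm_022 t 1 1 1 = true := ex3_b s19_pm_022 k10_pm_022

theorem c_pm_022 : CertFX 0 536870912 1073741824 536870912 1046898278 26843546 true true false .pp 0 2 2
    ndF3q0 ndF6q2 pcF2 Cut.none Ext.none :=
  certFX1 (fam := true) (s1 := true) (s2 := false) (a := 0) (b := 2) (c := 2) (cn := .pp) (n1 := ndF3q0) (n2 := ndF6q2) (pc := pcF2) (cut := Cut.none) (xt := Ext.none) (P1 := 0) (W1 := 536870912) (P2 := 1073741824) (W2 := 536870912) (P3 := 1046898278) (W3 := 26843546)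
    rfl (fun _ => rfl) s20_pm_022

noncomputable def f_pm_023 : ℕ → ℕ → ℕ → ℕ → Bool := onCell 1610612736 536870912 1073741824 536870912 1046898278 26843546
    (rowFX 2 true true false .up 0 2 3 (qsf 0 536870912 1073741824 536870912 3) ndF3q0 ndF6q2 pcF3 Cut.none Ext.none)

def k0_pm_023 : ∃ t, chk3 f_pm_023 t 1 1 1 = true :=
  ⟨(b (a (b (a (a (l 15533936) (l 15533936)) (l 15533936)) (a (b (a (l 15572896) (l 15572896)) (a (l 16626968) (l 16626968))) (b (l 15530960) (l 16626968)))) (a (b (l 2) (a (l 426374207351) (l 2))) (l 2))) (a (a (b (a (b (l 16750392) (l 16515480)) (l 16759800)) (a (b (a (l 15930368) (l 16227456)) (a (b (l 15472648) (l 15094968)) (l 15639432))) (b (l 16515480) (a (l 15930368) (l 16227456))))) (b (l 16777216) (a (b (l 16750392) (l 16515480)) (l 16759800)))) (a (a (l 16777208) (a (l 16777160) (l 16777160))) (a (a (l 16776912) (l 16768736)) (l 4))))), by decide +kernel⟩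

theorem c_pm_023 : CertFX 0 536870912 1073741824 536870912 1046898278 26843546 true true false .up 0 2 3
    ndF3q0 ndF6q2 pcF3 Cut.none Ext.none :=
  certFX2 (fam := true) (s1 := true) (s2 := false) (a := 0) (b := 2) (c := 3) (cn := .up) (n1 := ndF3q0) (n2 := ndF6q2) (pc := pcF3) (cut := Cut.none) (xt := Ext.none) (P1 := 0) (W1 := 536870912) (P2 := 1073741824) (W2 := 536870912) (P3 := 1046898278) (W3 := 26843546)
    rfl (fun _ => rfl) k0_pm_023

noncomputable def f_pm_033 : ℕ → ℕ → ℕ → ℕ → Bool := onCell 1610612736 536870912 0 1230186008 1046898278 26843546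
    (rowFX 2 true true false .pnn 0 3 3 (qsf 0 536870912 0 1230186008 3) ndF3q0 ndF6q3 pcF3 Cut.none Ext.none)

def k0_pm_033 : ∃ t, chk3 f_pm_033 t 1 2 1 = true :=
  ⟨(a (l 1) (a (l 1) (a (b (l 1) (a (a (a (l 1) (b (l 1) (l 4))) (l 4)) (l 4))) (l 4)))), by decide +kernel⟩

def k1_pm_033 : ∃ t, chk3 f_pm_033 t 1 6 1 = true :=
  ⟨(a (b (l 1) (a (l 1) (a (l 1) (b (l 1) (a (l 1) (b (l 1) (a (l 1) (l 1252011919239)))))))) (a (b (a (l 1) (a (b (l 1) (a (l 1195640357175) (b (l 1254696384743) (l 14614128)))) (b (a (l 1316436443415) (c (l 1138732212903) (l 1099003681735))) (a (b (l 1089340148311) (l 14950848)) (c (l 15053200) (l 15037296)))))) (a (b (a (l 1405557294919) (b (l 1210135906279) (l 1053369802375))) (a (b (l 1224094623607) (a (l 14716376) (l 14994824))) (b (l 14861664) (l 15300760)))) (a (b (a (b (l 14830680) (l 15029496)) (b (l 14984248) (l 15248016))) (l 15294072)) (b (c (l 15424000) (l 15401504)) (l 15870424))))) (a (a (b (a (b (c (l 575017983047) (b (l 14756208)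 (l 14915208))) (c (l 15248848) (l 15227344))) (l 4)) (a (b (l 15696944) (l 16099472)) (b (l 4) (l 16223336)))) (l 4)) (l 4)))), by decide +kernel⟩

def k2_pm_033 : ∃ t, chk3 f_pm_033 t 1 7 1 = true :=
  ⟨(a (b (a (l 1) (a (b (a (l 1) (b (l 1) (l 1224094460887))) (a (b (l 1) (l 1082360760327)) (b (a (l 1108667348983) (l 696887475767)) (a (l 14876064) (l 15119240))))) (b (a (b (a (l 1) (l 1114036021719)) (a (l 1096856244679) (l 633000027767))) (b (a (l 1096856333271) (l 14876392)) (a (l 15030240) (l 15224496)))) (a (b (a (l 14954056) (l 15163152)) (l 15414280)) (b (l 15457320) (l 15773952)))))) (a (b (a (l 1) (a (b (l 1) (l 1052832837991)) (b (l 1076992029207) (l 14804656)))) (a (b (a (l 1) (l 1100614372007)) (a (l 1104372518455) (l 905194008263))) (b (a (l 14779600) (l 15403728)) (l 15423992)))) (a (b (a (b (l 14764320) (l 15385880)) (b (l 15390320) (l 15750448))) (b (l 15799040) (l 16207888))) (b (a (l 15803104) (l 16172856)) (l 16492824))))) (a (b (a (b (a (b (l 15200128)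 (l 15518344)) (l 15699248)) (l 16014168)) (a (b (l 16019872) (l 16434680)) (b (l 16281976) (l 16625712)))) (a (b (l 16483904) (l 16738904)) (a (l 16743848) (l 16775072)))) (a (b (a (b (l 16418616) (l 16738704)) (l 4)) (a (l 16777048) (l 16768736))) (l 4)))), by decide +kernel⟩

theorem s3_pm_033 : ∃ t, chk3 f_pm_033 t 1 3 1 = true := ex3_b k1_pm_033 k2_pm_033

theorem s4_pm_033 : ∃ t, chk3 f_pm_033 t 1 1 1 = true := ex3_b k0_pm_033 s3_pm_033

theorem c_pm_033 : CertFX 0 536870912 0 1230186008 1046898278 26843546 true true false .pnn 0 3 3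
    ndF3q0 ndF6q3 pcF3 Cut.none Ext.none :=
  certFX2 (fam := true) (s1 := true) (s2 := false) (a := 0) (b := 3) (c := 3) (cn := .pnn) (n1 := ndF3q0) (n2 := ndF6q3) (pc := pcF3) (cut := Cut.none) (xt := Ext.none) (P1 := 0) (W1 := 536870912) (P2 := 0) (W2 := 1230186008) (P3 := 1046898278) (W3 := 26843546)
    rfl (fun _ => rfl) s4_pm_033

noncomputable def f_pm_101 : ℕ → ℕ → ℕ → ℕ → Bool := onCell 536870912 536870912 0 536870912 1046898278 26843546
    (rowFX 2 true true false .npn 1 0 1 (qsf 536870912 536870912 0 536870912 1) ndF3q1 ndF6q0 pcF1 Cut.none Ext.none)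

def k0_pm_101 : ∃ t, chk3 f_pm_101 t 1 1 1 = true :=
  ⟨(a (l 3) (l 3)), by decide +kernel⟩

theorem c_pm_101 : CertFX 536870912 536870912 0 536870912 1046898278 26843546 true true false .npn 1 0 1
    ndF3q1 ndF6q0 pcF1 Cut.none Ext.none :=
  certFX2 (fam := true) (s1 := true) (s2 := false) (a := 1) (b := 0) (c := 1) (cn := .npn) (n1 := ndF3q1) (n2 := ndF6q0) (pc := pcF1) (cut := Cut.none) (xt := Ext.none) (P1 := 536870912) (W1 := 536870912) (P2 := 0) (W2 := 536870912) (P3 := 1046898278) (W3 := 26843546)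
    rfl (fun _ => rfl) k0_pm_101

noncomputable def f_pm_102 : ℕ → ℕ → ℕ → ℕ → Bool := onCell 536870912 536870912 1073741824 536870912 1046898278 26843546
    (rowFX 1 true true false .npp 1 0 2 (qsf 536870912 536870912 0 536870912 2) ndF3q1 ndF6q0 pcF2 Cut.none Ext.none)

def k0_pm_102 : ∃ t, chk3 f_pm_102 t 1 1 1 = true :=
  ⟨(a (b (b (l 3) (b (b (b (c (l 2351662366631) (l 2973358882727)) (a (l 2) (b (c (l 16777216) (l 16777216)) (b (a (l 16777216) (l 16777216)) (b (b (l 16777216) (l 16776656)) (c (a (l 16774816) (l 16776592)) (c (l 16774960) (a (l 16774736) (l 16776576))))))))) (l 16771112)) (l 16776224))) (l 16777216)) (b (b (l 3) (b (b (b (l 3) (a (b (l 3) (a (b (l 16775704) (b (l 16775704) (c (l 16775720) (c (l 16775688) (b (l 16775672) (l 16775672)))))) (b (l 14451658295367) (b (a (l 16768032) (b (l 16581336) (l 16581336))) (b (b (b (l 16685864) (a (l 16768032) (a (l 16627480) (l 16427432)))) (l 16685864)) (l 16685864)))))) (b (l 3) (b (l 3) (a (b (c (l 15385320)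 (a (l 15899248) (l 15265920))) (b (b (b (l 15370208) (c (l 15426928) (a (l 15899248) (l 15265256)))) (l 15621808)) (l 15621760))) (a (b (c (l 14697272) (l 14702296)) (c (a (l 14861968) (l 14539104)) (c (l 14710200) (l 14579096)))) (b (l 3) (c (a (l 14194840) (l 13976328)) (c (a (l 14266968) (l 13959640)) (a (l 14265568) (l 13963736))))))))))) (a (a (l 16775704) (l 16685864)) (a (l 15516824) (a (l 14659944) (c (l 14058240) (l 14066208)))))) (a (a (l 16775704) (l 16685864)) (a (l 15537776) (a (l 14638592) (a (l 14093864) (l 13841120))))))) (a (a (l 16775704) (l 16685864)) (a (a (l 15910368) (l 15284048)) (a (b (l 14638568) (l 14638568)) (b (l 13836824) (l 13983624))))))), by decide +kernel⟩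

theorem c_pm_102 : CertFX 536870912 536870912 0 536870912 1046898278 26843546 true true false .npp 1 0 2
    ndF3q1 ndF6q0 pcF2 Cut.none Ext.none :=
  certFX1 (fam := true) (s1 := true) (s2 := false) (a := 1) (b := 0) (c := 2) (cn := .npp) (n1 := ndF3q1) (n2 := ndF6q0) (pc := pcF2) (cut := Cut.none) (xt := Ext.none) (P1 := 536870912) (W1 := 536870912) (P2 := 0) (W2 := 536870912) (P3 := 1046898278) (W3 := 26843546)
    rfl (fun _ => rfl) k0_pm_102

noncomputable def f_pm_112 : ℕ → ℕ → ℕ → ℕ → Bool := onCell 1073741824 536870912 536870912 469762048 1046898278 26843546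
    (rowFX 2 true true false .dn 1 1 2 (qsf 536870912 536870912 536870912 469762048 2) ndF3q1 ndF6q1 pcF2 Cut.none Ext.none)

def k0_pm_112 : ∃ t, chk3 f_pm_112 t 1 1 1 = true :=
  ⟨(b (a (a (a (l 3) (l 3)) (a (a (a (c (l 1456161685415) (l 1014853795751)) (a (a (l 16777216) (b (l 16777216) (l 16776296))) (a (c (l 16772344) (l 16772216)) (a (c (l 16768592) (b (l 16774016) (l 16764216))) (b (c (l 16770176) (c (l 16770040) (l 16769952))) (l 16756776)))))) (l 16766008)) (l 16775952))) (a (b (l 16757248) (l 16777216)) (b (a (b (a (l 16407136) (l 15885832)) (l 16693160)) (b (b (l 14427584) (l 15156912)) (l 15946216))) (l 16716448)))) (a (a (l 1) (a (l 1) (b (l 631392862919) (l 1)))) (b (b (l 16777216) (l 588979747447)) (b (l 593272998807) (a (l 1) (l 14805696)))))), by decide +kernel⟩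

theorem c_pm_112 : CertFX 536870912 536870912 536870912 469762048 1046898278 26843546 true true false .dn 1 1 2
    ndF3q1 ndF6q1 pcF2 Cut.none Ext.none :=
  certFX2 (fam := true) (s1 := true) (s2 := false) (a := 1) (b := 1) (c := 2) (cn := .dn) (n1 := ndF3q1) (n2 := ndF6q1) (pc := pcF2) (cut := Cut.none) (xt := Ext.none) (P1 := 536870912) (W1 := 536870912) (P2 := 536870912) (W2 := 469762048) (P3 := 1046898278) (W3 := 26843546)
    rfl (fun _ => rfl) k0_pm_112

noncomputable def f_pm_113 : ℕ → ℕ → ℕ → ℕ → Bool := onCell 536870912 536870912 536870912 469762048 1046898278 26843546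
    (rowFX 0 true true false .nn 1 1 3 (qsf 536870912 536870912 536870912 469762048 3) ndF3q1 ndF6q1 pcF3 Cut.none Ext.none)

def k0_pm_113 : ∃ t, chk3 f_pm_113 t 1 1 1 = true :=
  ⟨(a (b (l 1) (b (l 612602425639) (b (l 15572176) (a (l 14952496) (l 14952496))))) (b (a (l 16734776) (a (l 15621664) (a (l 14638568) (l 13983624)))) (a (b (l 16568640) (b (l 15532840) (l 14913744))) (b (a (l 15464240) (l 14218712)) (a (l 14237680) (b (l 13319536) (l 12664776))))))), by decide +kernel⟩

theorem c_pm_113 : CertFX 536870912 536870912 536870912 469762048 1046898278 26843546 true true false .nn 1 1 3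
    ndF3q1 ndF6q1 pcF3 Cut.none Ext.none :=
  certFX0 (fam := true) (s1 := true) (s2 := false) (a := 1) (b := 1) (c := 3) (cn := .nn) (n1 := ndF3q1) (n2 := ndF6q1) (pc := pcF3) (cut := Cut.none) (xt := Ext.none) (P1 := 536870912) (W1 := 536870912) (P2 := 536870912) (W2 := 469762048) (P3 := 1046898278) (W3 := 26843546)
    rfl k0_pm_113

noncomputable def f_pm_123 : ℕ → ℕ → ℕ → ℕ → Bool := onCell 1610612736 536870912 1073741824 536870912 1046898278 26843546
    (rowFX 2 true true false .npn 1 2 3 (qsf 536870912 536870912 1073741824 536870912 3) ndF3q1 ndF6q2 pcF3 Cut.none Ext.none)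

def k0_pm_123 : ∃ t, chk3 f_pm_123 t 1 1 1 = true :=
  ⟨(a (b (b (a (a (l 15533936) (l 15533936)) (l 15533936)) (a (b (l 697425957175) (l 1)) (b (l 15530960) (l 16626968)))) (a (l 1) (l 16777216))) (a (b (b (a (l 15534168) (l 15483752)) (a (b (l 15572912) (l 16626976)) (b (l 15572952) (l 16627016)))) (a (l 16777208) (a (l 16777160) (l 16777160)))) (a (b (b (a (b (l 15426584) (l 15512240)) (b (l 15367912) (l 15529448))) (a (b (l 15573024) (l 16627328)) (b (l 15576472) (l 16630056)))) (a (l 16776912) (l 16768736))) (b (a (a (b (b (l 15428112) (l 15594080)) (b (l 15571384) (l 4))) (l 4)) (l 4)) (l 4))))), by decide +kernel⟩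

theorem c_pm_123 : CertFX 536870912 536870912 1073741824 536870912 1046898278 26843546 true true false .npn 1 2 3
    ndF3q1 ndF6q2 pcF3 Cut.none Ext.none :=
  certFX2 (fam := true) (s1 := true) (s2 := false) (a := 1) (b := 2) (c := 3) (cn := .npn) (n1 := ndF3q1) (n2 := ndF6q2) (pc := pcF3) (cut := Cut.none) (xt := Ext.none) (P1 := 536870912) (W1 := 536870912) (P2 := 1073741824) (W2 := 536870912) (P3 := 1046898278) (W3 := 26843546)
    rfl (fun _ => rfl) k0_pm_123

noncomputable def f_pm_133 : ℕ → ℕ → ℕ → ℕ → Bool := onCell 536870912 536870912 0 1230186008 1046898278 26843546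
    (rowFX 0 true true false .dn 1 3 3 (qsf 536870912 536870912 0 1230186008 3) ndF3q1 ndF6q3 pcF3 Cut.none Ext.none)

def k0_pm_133 : ∃ t, chk3 f_pm_133 t 1 1 1 = true :=
  ⟨(b (l 2) (b (l 2) (l 4))), by decide +kernel⟩

theorem c_pm_133 : CertFX 536870912 536870912 0 1230186008 1046898278 26843546 true true false .dn 1 3 3
    ndF3q1 ndF6q3 pcF3 Cut.none Ext.none :=
  certFX0 (fam := true) (s1 := true) (s2 := false) (a := 1) (b := 3) (c := 3) (cn := .dn) (n1 := ndF3q1) (n2 := ndF6q3) (pc := pcF3) (cut := Cut.none) (xt := Ext.none) (P1 := 536870912) (W1 := 536870912) (P2 := 0) (W2 := 1230186008) (P3 := 1046898278) (W3 := 26843546)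
    rfl k0_pm_133

noncomputable def f_pm_202 : ℕ → ℕ → ℕ → ℕ → Bool := onCell 1073741824 536870912 0 536870912 1046898278 26843546
    (rowFX 2 true true false .pp 2 0 2 (qsf 1073741824 536870912 0 536870912 2) ndF3q2 ndF6q0 pcF2 Cut.none Ext.none)

def k0_pm_202 : ∃ t, chk3 f_pm_202 t 4 16 1 = true :=
  ⟨(a (a (b (c (b (a (b (l 15685912) (l 15591536)) (l 15686480)) (b (a (c (l 15545912) (l 15539616)) (c (l 15642248) (l 15613360))) (c (l 630317074759) (a (l 15488560) (l 15590776))))) (b (c (b (a (l 15632232) (l 15632696)) (a (b (l 15549696) (l 513816280151)) (l 15600920))) (b (a (c (b (l 15619680) (l 15575264)) (b (c (l 15606440) (l 15598312)) (l 15581144))) (c (l 15601216) (l 15591376))) (a (c (l 15455528) (l 15540224)) (l 15565944)))) (c (a (b (l 512742422039) (l 15462816)) (b (l 15579392) (l 15543720))) (a (a (l 15431648) (l 15443880)) (l 15466976))))) (b (c (c (a (l 623874361319) (l 15400120)) (a (l 566965994711) (l 575556185879))) (a (l 560523430759) (c (l 517574078663)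 (a (l 15409720) (l 15436776))))) (a (l 1) (c (l 602399464023) (a (l 571260873351) (l 15164816)))))) (b (c (b (a (l 15670624) (l 15649816)) (c (l 15624312) (b (l 15592096) (l 15589368)))) (b (c (b (l 15621568) (l 15588328)) (b (c (l 15606096) (l 15597256)) (l 15572480))) (c (l 15553912) (l 15520000)))) (c (b (c (l 15600880) (l 15552608)) (a (l 15503920) (l 15527008))) (a (c (l 15409224) (l 15407904)) (l 15444840))))) (b (c (a (b (l 15554960) (a (b (l 15592912) (l 15579872)) (l 15405072))) (b (l 15174504) (c (l 15192504) (l 15179888)))) (a (b (c (b (l 15528584) (l 15521392)) (b (a (l 15577352) (l 15445872)) (l 15506496))) (c (l 15511704) (l 15484728))) (b (c (l 15139784) (b (l 15071200) (l 15124672))) (c (l 15160768) (l 15130184))))) (c (a (a (b (l 15567056) (l 15522280)) (b (l 15498352) (l 15475200))) (b (l 15213448) (l 15216576))) (a (a (l 15464240) (l 15417616)) (l 15140352))))), by decide +kernel⟩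

def k1_pm_202 : ∃ t, chk3 f_pm_202 t 4 17 1 = true :=
  ⟨(a (a (b (a (l 1) (a (l 1) (c (l 602935946087) (l 581460983383)))) (l 1)) (a (a (b (c (l 15287112) (l 537974581319)) (l 1)) (b (c (l 15353312) (b (l 15328088) (l 15225112))) (c (l 15069912) (l 15019256)))) (c (b (l 15320776) (l 391408767351)) (b (b (l 15344312) (l 15273992)) (b (l 14973192) (l 14922280)))))) (c (a (a (b (l 15435664) (l 15185216)) (b (l 15394856) (l 15282928))) (b (l 15183488) (l 14924824))) (a (a (b (l 15335904) (l 15204424)) (l 15158224)) (b (l 15118256) (l 15049392))))), by decide +kernel⟩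

def k2_pm_202 : ∃ t, chk3 f_pm_202 t 4 9 1 = true :=
  ⟨(a (b (b (a (l 1) (a (l 1) (l 759164736759))) (l 1)) (l 1)) (b (a (b (a (c (l 15084776) (b (l 15080800) (l 14968440))) (c (l 15147000) (l 15062056))) (a (l 14789176) (a (l 14910304) (l 14919288)))) (b (c (l 15022408) (l 14947368)) (a (l 14874536) (l 14848888)))) (a (a (l 1) (l 692055150199)) (a (b (l 540657845863) (l 14468784)) (b (l 14699576) (l 566427356583)))))), by decide +kernel⟩

def k3_pm_202 : ∃ t, chk3 f_pm_202 t 4 5 1 = true :=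
  ⟨(a (l 1) (b (a (l 1) (b (l 706550349479) (l 1))) (l 1))), by decide +kernel⟩

def k4_pm_202 : ∃ t, chk3 f_pm_202 t 4 3 1 = true :=
  ⟨(l 1), by decide +kernel⟩

def k5_pm_202 : ∃ t, chk3 f_pm_202 t 5 4 1 = true :=
  ⟨(a (b (a (b (a (b (c (b (l 14831712) (l 14857696)) (b (c (l 14790584) (l 14763072)) (l 14810072))) (c (l 14912408) (l 14843240))) (b (c (b (l 14894688) (l 14902216)) (b (c (l 14855032) (l 14828504)) (l 14855800))) (c (l 14956456) (l 14889440)))) (a (c (l 14912680) (l 14852304)) (c (l 14998848) (l 14941336)))) (b (b (c (b (l 15622480) (a (l 15249120) (l 15765280))) (b (b (l 15388872) (c (l 15563992) (l 15549840))) (a (l 15211912) (l 15741904)))) (c (a (l 15227600) (l 15612080)) (a (l 15168776) (l 15564528)))) (b (l 15150680) (l 15283592)))) (a (a (b (c (l 14827576) (l 14759832)) (b (l 14665136) (c (l 14582072) (l 14479808)))) (b (b (l 14968120) (l 14928208)) (l 14672000))) (b (b (l 15411616) (l 15409024)) (a (l 15192128) (l 15537248))))) (b (a (b (b (c (b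 (l 16559368) (l 16310240)) (b (a (l 16212704) (l 16303984)) (l 16330032))) (c (a (l 16116080) (l 16617960)) (l 16178392))) (a (b (l 15856952) (l 15748384)) (b (l 16350168) (l 16018912)))) (b (b (c (b (l 15989000) (l 16057936)) (b (l 15807016) (l 16037496))) (c (l 16182088) (l 16195064))) (a (l 16343008) (l 16463200)))) (a (b (b (l 15888032) (l 15917440)) (l 15932296)) (b (a (l 15929168) (l 16291480)) (l 16094624))))), by decide +kernel⟩

def k6_pm_202 : ∃ t, chk3 f_pm_202 t 5 5 1 = true :=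
  ⟨(a (a (b (a (b (b (a (l 14353456) (l 380132858375)) (l 804260380567)) (l 1)) (b (b (l 14616672) (l 594344522007)) (l 1003976298727))) (l 1)) (b (b (a (c (l 15045984) (l 14958040)) (l 15409080)) (a (b (l 14521536) (l 14538584)) (b (l 15243656) (l 14980328)))) (b (l 1079139365399) (l 1)))) (a (b (b (l 15667256) (a (l 15358608) (l 15941456))) (b (a (l 479992402359) (b (l 15768200) (l 15578328))) (l 846138002231))) (b (b (l 16164536) (a (l 16144072) (l 16147576))) (b (a (l 15882584) (l 15997264)) (a (l 15454704) (l 15698104)))))), by decide +kernel⟩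

def k7_pm_202 : ∃ t, chk3 f_pm_202 t 5 3 1 = true :=
  ⟨(a (l 1) (b (a (l 1) (b (l 681318672519) (l 1))) (l 1))), by decide +kernel⟩

def k8_pm_202 : ∃ t, chk3 f_pm_202 t 3 1 1 = true :=
  ⟨(b (a (b (b (b (a (b (c (l 15993768) (b (l 15962928) (l 15993456))) (c (l 16049168) (l 16057640))) (b (c (l 15992520) (l 15979304)) (l 16043448))) (a (a (l 16206328) (l 16176896)) (l 16173784))) (a (b (a (l 16486456) (l 16432264)) (a (l 16037440) (l 16497472))) (b (l 16335704) (l 16517024)))) (a (b (a (l 15862544) (b (l 16087304) (l 15958392))) (a (b (l 16042840) (l 218000780759)) (l 15960800))) (b (a (b (l 16453232) (l 16046072)) (b (l 16628208) (l 16404584))) (a (l 15960056) (b (l 15996744) (l 15894320)))))) (b (b (a (b (c (l 15876584) (l 15972336)) (l 16172408)) (b (l 16101840) (l 16172408))) (a (l 16396768) (l 16396768))) (a (b (l 16634328) (a (b (l 16357952) (l 15970568)) (l 16499736))) (b (l 16604624) (l 16732880))))) (a (b (a (b (a (b (l 636222795911) (l 15232736)) (b (l 15805592)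 (l 15461640))) (l 707624868455)) (b (a (b (l 16040056) (l 15899392)) (l 16016272)) (a (b (l 15600472) (l 15290640)) (b (l 15925288) (l 15689576))))) (a (l 1) (b (l 615283189159) (l 1)))) (b (a (b (a (l 15948928) (l 15905024)) (a (l 15785888) (l 16016272))) (b (a (l 16173448) (l 16489600)) (a (l 15948928) (l 15967944)))) (a (b (a (l 353291516295) (b (l 15925288) (l 15689576))) (l 642663612071)) (b (a (l 15974632) (l 16016272)) (a (l 15353928) (l 243770366999))))))), by decide +kernel⟩

theorem s9_pm_202 : ∃ t, chk3 f_pm_202 t 5 2 1 = true := ex3_b k5_pm_202 k6_pm_202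

theorem s10_pm_202 : ∃ t, chk3 f_pm_202 t 5 1 1 = true := ex3_b s9_pm_202 k7_pm_202

theorem s11_pm_202 : ∃ t, chk3 f_pm_202 t 4 8 1 = true := ex3_b k0_pm_202 k1_pm_202

theorem s12_pm_202 : ∃ t, chk3 f_pm_202 t 4 4 1 = true := ex3_b s11_pm_202 k2_pm_202

theorem s13_pm_202 : ∃ t, chk3 f_pm_202 t 4 2 1 = true := ex3_b s12_pm_202 k3_pm_202

theorem s14_pm_202 : ∃ t, chk3 f_pm_202 t 4 1 1 = true := ex3_b s13_pm_202 k4_pm_202

theorem s15_pm_202 : ∃ t, chk3 f_pm_202 t 2 1 1 = true := ex3_a s14_pm_202 s10_pm_202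

theorem s16_pm_202 : ∃ t, chk3 f_pm_202 t 1 1 1 = true := ex3_a s15_pm_202 k8_pm_202

theorem c_pm_202 : CertFX 1073741824 536870912 0 536870912 1046898278 26843546 true true false .pp 2 0 2
    ndF3q2 ndF6q0 pcF2 Cut.none Ext.none :=
  certFX2 (fam := true) (s1 := true) (s2 := false) (a := 2) (b := 0) (c := 2) (cn := .pp) (n1 := ndF3q2) (n2 := ndF6q0) (pc := pcF2) (cut := Cut.none) (xt := Ext.none) (P1 := 1073741824) (W1 := 536870912) (P2 := 0) (W2 := 536870912) (P3 := 1046898278) (W3 := 26843546)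
    rfl (fun _ => rfl) s16_pm_202

noncomputable def f_pm_203 : ℕ → ℕ → ℕ → ℕ → Bool := onCell 1073741824 536870912 1610612736 536870912 1046898278 26843546
    (rowFX 1 true true false .up 2 0 3 (qsf 1073741824 536870912 0 536870912 3) ndF3q2 ndF6q0 pcF3 Cut.none Ext.none)

def k0_pm_203 : ∃ t, chk3 f_pm_203 t 1 1 1 = true :=
  ⟨(b (a (b (b (a (a (l 15925288) (l 16000440)) (a (l 15970528) (l 16667800))) (b (a (l 201425128919) (a (l 15970528) (l 16667800))) (l 4))) (l 4)) (b (a (b (l 16700064) (l 16770576)) (b (a (l 16491960) (b (a (l 16251760) (l 16107864)) (l 16317736))) (b (l 16536032) (l 4)))) (l 4))) (l 4)), by decide +kernel⟩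

theorem c_pm_203 : CertFX 1073741824 536870912 0 536870912 1046898278 26843546 true true false .up 2 0 3
    ndF3q2 ndF6q0 pcF3 Cut.none Ext.none :=
  certFX1 (fam := true) (s1 := true) (s2 := false) (a := 2) (b := 0) (c := 3) (cn := .up) (n1 := ndF3q2) (n2 := ndF6q0) (pc := pcF3) (cut := Cut.none) (xt := Ext.none) (P1 := 1073741824) (W1 := 536870912) (P2 := 0) (W2 := 536870912) (P3 := 1046898278) (W3 := 26843546)
    rfl (fun _ => rfl) k0_pm_203

noncomputable def f_pm_213 : ℕ → ℕ → ℕ → ℕ → Bool := onCell 1073741824 536870912 1610612736 536870912 1046898278 26843546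
    (rowFX 1 true true false .pnn 2 1 3 (qsf 1073741824 536870912 536870912 469762048 3) ndF3q2 ndF6q1 pcF3 Cut.none Ext.none)

def k0_pm_213 : ∃ t, chk3 f_pm_213 t 1 1 1 = true :=
  ⟨(b (a (b (a (b (a (l 15925288) (l 16000440)) (c (l 15839048) (l 15952728))) (b (l 1) (a (l 711922267063) (l 1)))) (l 4)) (b (l 1) (l 4))) (l 4)), by decide +kernel⟩

theorem c_pm_213 : CertFX 1073741824 536870912 536870912 469762048 1046898278 26843546 true true false .pnn 2 1 3
    ndF3q2 ndF6q1 pcF3 Cut.none Ext.none :=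
  certFX1 (fam := true) (s1 := true) (s2 := false) (a := 2) (b := 1) (c := 3) (cn := .pnn) (n1 := ndF3q2) (n2 := ndF6q1) (pc := pcF3) (cut := Cut.none) (xt := Ext.none) (P1 := 1073741824) (W1 := 536870912) (P2 := 536870912) (W2 := 469762048) (P3 := 1046898278) (W3 := 26843546)
    rfl (fun _ => rfl) k0_pm_213

noncomputable def f_pm_303 : ℕ → ℕ → ℕ → ℕ → Bool := onCell 1610612736 536870912 0 536870912 1046898278 26843546
    (rowFX 2 true true false .npn 3 0 3 (qsf 1610612736 536870912 0 536870912 3) ndF3q3 ndF6q0 pcF3 Cut.none Ext.none)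

def k0_pm_303 : ∃ t, chk3 f_pm_303 t 1 1 1 = true :=
  ⟨(a (a (b (b (a (b (b (l 16017960) (l 16172408)) (l 16396768)) (b (c (l 16117416) (l 16098272)) (l 16396768))) (a (l 1) (l 16673864))) (l 1)) (b (l 4) (l 4))) (l 4)), by decide +kernel⟩

theorem c_pm_303 : CertFX 1610612736 536870912 0 536870912 1046898278 26843546 true true false .npn 3 0 3
    ndF3q3 ndF6q0 pcF3 Cut.none Ext.none :=
  certFX2 (fam := true) (s1 := true) (s2 := false) (a := 3) (b := 0) (c := 3) (cn := .npn) (n1 := ndF3q3) (n2 := ndF6q0) (pc := pcF3) (cut := Cut.none) (xt := Ext.none) (P1 := 1610612736) (W1 := 536870912) (P2 := 0) (W2 := 536870912) (P3 := 1046898278) (W3 := 26843546)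
    rfl (fun _ => rfl) k0_pm_303

noncomputable def f_pm_313 : ℕ → ℕ → ℕ → ℕ → Bool := onCell 1610612736 536870912 536870912 469762048 1046898278 26843546
    (rowFX 0 true true false .dn 3 1 3 (qsf 1610612736 536870912 536870912 469762048 3) ndF3q3 ndF6q1 pcF3 Cut.none Ext.none)

def k0_pm_313 : ∃ t, chk3 f_pm_313 t 1 1 1 = true :=
  ⟨(l 4), by decide +kernel⟩

theorem c_pm_313 : CertFX 1610612736 536870912 536870912 469762048 1046898278 26843546 true true false .dn 3 1 3
    ndF3q3 ndF6q1 pcF3 Cut.none Ext.none :=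
  certFX0 (fam := true) (s1 := true) (s2 := false) (a := 3) (b := 1) (c := 3) (cn := .dn) (n1 := ndF3q3) (n2 := ndF6q1) (pc := pcF3) (cut := Cut.none) (xt := Ext.none) (P1 := 1610612736) (W1 := 536870912) (P2 := 536870912) (W2 := 469762048) (P3 := 1046898278) (W3 := 26843546)
    rfl k0_pm_313

noncomputable def f_mm_001 : ℕ → ℕ → ℕ → ℕ → Bool := onCell 0 536870912 0 536870912 1046898278 26843546
    (rowFX 0 true false false .up 0 0 1 (qsf 0 536870912 0 536870912 1) ndF3q0 ndF6q0 pcF1 Cut.none Ext.none)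

def k0_mm_001 : ∃ t, chk3 f_mm_001 t 1 1 1 = true :=
  ⟨(l 4), by decide +kernel⟩

theorem c_mm_001 : CertFX 0 536870912 0 536870912 1046898278 26843546 true false false .up 0 0 1
    ndF3q0 ndF6q0 pcF1 Cut.none Ext.none :=
  certFX0 (fam := true) (s1 := false) (s2 := false) (a := 0) (b := 0) (c := 1) (cn := .up) (n1 := ndF3q0) (n2 := ndF6q0) (pc := pcF1) (cut := Cut.none) (xt := Ext.none) (P1 := 0) (W1 := 536870912) (P2 := 0) (W2 := 536870912) (P3 := 1046898278) (W3 := 26843546)
    rfl k0_mm_001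

noncomputable def f_mm_011 : ℕ → ℕ → ℕ → ℕ → Bool := onCell 0 536870912 536870912 469762048 1046898278 26843546
    (rowFX 0 true false false .pnn 0 1 1 (qsf 0 536870912 536870912 469762048 1) ndF3q0 ndF6q1 pcF1 Cut.none Ext.none)

def k0_mm_011 : ∃ t, chk3 f_mm_011 t 1 1 1 = true :=
  ⟨(l 4), by decide +kernel⟩

theorem c_mm_011 : CertFX 0 536870912 536870912 469762048 1046898278 26843546 true false false .pnn 0 1 1
    ndF3q0 ndF6q1 pcF1 Cut.none Ext.none :=
  certFX0 (fam := true) (s1 := false) (s2 := false) (a := 0) (b := 1) (c := 1) (cn := .pnn) (n1 := ndF3q0) (n2 := ndF6q1) (pc := pcF1) (cut := Cut.none) (xt := Ext.none) (P1 := 0) (W1 := 536870912) (P2 := 536870912) (W2 := 469762048) (P3 := 1046898278) (W3 := 26843546)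
    rfl k0_mm_011

noncomputable def f_mm_012 : ℕ → ℕ → ℕ → ℕ → Bool := onCell 0 536870912 536870912 469762048 1046898278 26843546
    (rowFX 0 true false false .pnp 0 1 2 (qsf 0 536870912 536870912 469762048 2) ndF3q0 ndF6q1 pcF2 Cut.none Ext.none)

def k0_mm_012 : ∃ t, chk3 f_mm_012 t 1 1 1 = true :=
  ⟨(l 4), by decide +kernel⟩

theorem c_mm_012 : CertFX 0 536870912 536870912 469762048 1046898278 26843546 true false false .pnp 0 1 2
    ndF3q0 ndF6q1 pcF2 Cut.none Ext.none :=
  certFX0 (fam := true) (s1 := false) (s2 := false) (a := 0) (b := 1) (c := 2) (cn := .pnp) (n1 := ndF3q0) (n2 := ndF6q1) (pc := pcF2) (cut := Cut.none) (xt := Ext.none) (P1 := 0) (W1 := 536870912) (P2 := 536870912) (W2 := 469762048) (P3 := 1046898278) (W3 := 26843546)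
    rfl k0_mm_012

noncomputable def f_mm_022 : ℕ → ℕ → ℕ → ℕ → Bool := onCell 0 536870912 1073741824 536870912 1046898278 26843546
    (rowFX 0 true false false .pp 0 2 2 (qsf 0 536870912 1073741824 536870912 2) ndF3q0 ndF6q2 pcF2 Cut.none Ext.none)

def k0_mm_022 : ∃ t, chk3 f_mm_022 t 1 1 1 = true :=
  ⟨(l 4), by decide +kernel⟩

theorem c_mm_022 : CertFX 0 536870912 1073741824 536870912 1046898278 26843546 true false false .pp 0 2 2
    ndF3q0 ndF6q2 pcF2 Cut.none Ext.none :=
  certFX0 (fam := true) (s1 := false) (s2 := false) (a := 0) (b := 2) (c := 2) (cn := .pp) (n1 := ndF3q0) (n2 := ndF6q2) (pc := pcF2) (cut := Cut.none) (xt := Ext.none) (P1 := 0) (W1 := 536870912) (P2 := 1073741824) (W2 := 536870912) (P3 := 1046898278) (W3 := 26843546)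
    rfl k0_mm_022

noncomputable def f_mm_023 : ℕ → ℕ → ℕ → ℕ → Bool := onCell 0 536870912 1073741824 536870912 1046898278 26843546
    (rowFX 0 true false false .up 0 2 3 (qsf 0 536870912 1073741824 536870912 3) ndF3q0 ndF6q2 pcF3 Cut.none Ext.none)

def k0_mm_023 : ∃ t, chk3 f_mm_023 t 1 1 1 = true :=
  ⟨(l 4), by decide +kernel⟩

theorem c_mm_023 : CertFX 0 536870912 1073741824 536870912 1046898278 26843546 true false false .up 0 2 3
    ndF3q0 ndF6q2 pcF3 Cut.none Ext.none :=
  certFX0 (fam := true) (s1 := false) (s2 := false) (a := 0) (b := 2) (c := 3) (cn := .up) (n1 := ndF3q0) (n2 := ndF6q2) (pc := pcF3) (cut := Cut.none) (xt := Ext.none) (P1 := 0) (W1 := 536870912) (P2 := 1073741824) (W2 := 536870912) (P3 := 1046898278) (W3 := 26843546)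
    rfl k0_mm_023

noncomputable def f_mm_033 : ℕ → ℕ → ℕ → ℕ → Bool := onCell 0 536870912 0 1230186008 1046898278 26843546
    (rowFX 0 true false false .pnn 0 3 3 (qsf 0 536870912 0 1230186008 3) ndF3q0 ndF6q3 pcF3 Cut.none Ext.none)

def k0_mm_033 : ∃ t, chk3 f_mm_033 t 1 1 1 = true :=
  ⟨(l 5), by decide +kernel⟩

theorem c_mm_033 : CertFX 0 536870912 0 1230186008 1046898278 26843546 true false false .pnn 0 3 3
    ndF3q0 ndF6q3 pcF3 Cut.none Ext.none :=
  certFX0 (fam := true) (s1 := false) (s2 := false) (a := 0) (b := 3) (c := 3) (cn := .pnn) (n1 := ndF3q0) (n2 := ndF6q3) (pc := pcF3) (cut := Cut.none) (xt := Ext.none) (P1 := 0) (W1 := 536870912) (P2 := 0) (W2 := 1230186008) (P3 := 1046898278) (W3 := 26843546)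
    rfl k0_mm_033

noncomputable def f_mm_101 : ℕ → ℕ → ℕ → ℕ → Bool := onCell 536870912 536870912 0 536870912 1046898278 26843546
    (rowFX 0 true false false .npn 1 0 1 (qsf 536870912 536870912 0 536870912 1) ndF3q1 ndF6q0 pcF1 Cut.none Ext.none)

def k0_mm_101 : ∃ t, chk3 f_mm_101 t 1 1 1 = true :=
  ⟨(l 4), by decide +kernel⟩

theorem c_mm_101 : CertFX 536870912 536870912 0 536870912 1046898278 26843546 true false false .npn 1 0 1
    ndF3q1 ndF6q0 pcF1 Cut.none Ext.none :=
  certFX0 (fam := true) (s1 := false) (s2 := false) (a := 1) (b := 0) (c := 1) (cn := .npn) (n1 := ndF3q1) (n2 := ndF6q0) (pc := pcF1) (cut := Cut.none) (xt := Ext.none) (P1 := 536870912) (W1 := 536870912) (P2 := 0) (W2 := 536870912) (P3 := 1046898278) (W3 := 26843546)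
    rfl k0_mm_101

noncomputable def f_mm_102 : ℕ → ℕ → ℕ → ℕ → Bool := onCell 536870912 536870912 0 536870912 1046898278 26843546
    (rowFX 0 true false false .npp 1 0 2 (qsf 536870912 536870912 0 536870912 2) ndF3q1 ndF6q0 pcF2 Cut.none Ext.none)

def k0_mm_102 : ∃ t, chk3 f_mm_102 t 1 1 1 = true :=
  ⟨(l 4), by decide +kernel⟩

theorem c_mm_102 : CertFX 536870912 536870912 0 536870912 1046898278 26843546 true false false .npp 1 0 2
    ndF3q1 ndF6q0 pcF2 Cut.none Ext.none :=
  certFX0 (fam := true) (s1 := false) (s2 := false) (a := 1) (b := 0) (c := 2) (cn := .npp) (n1 := ndF3q1) (n2 := ndF6q0) (pc := pcF2) (cut := Cut.none) (xt := Ext.none) (P1 := 536870912) (W1 := 536870912) (P2 := 0) (W2 := 536870912) (P3 := 1046898278) (W3 := 26843546)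
    rfl k0_mm_102

noncomputable def f_mm_112 : ℕ → ℕ → ℕ → ℕ → Bool := onCell 536870912 536870912 536870912 469762048 1046898278 26843546
    (rowFX 0 true false false .dn 1 1 2 (qsf 536870912 536870912 536870912 469762048 2) ndF3q1 ndF6q1 pcF2 Cut.none Ext.none)

def k0_mm_112 : ∃ t, chk3 f_mm_112 t 1 1 1 = true :=
  ⟨(l 4), by decide +kernel⟩

theorem c_mm_112 : CertFX 536870912 536870912 536870912 469762048 1046898278 26843546 true false false .dn 1 1 2
    ndF3q1 ndF6q1 pcF2 Cut.none Ext.none :=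
  certFX0 (fam := true) (s1 := false) (s2 := false) (a := 1) (b := 1) (c := 2) (cn := .dn) (n1 := ndF3q1) (n2 := ndF6q1) (pc := pcF2) (cut := Cut.none) (xt := Ext.none) (P1 := 536870912) (W1 := 536870912) (P2 := 536870912) (W2 := 469762048) (P3 := 1046898278) (W3 := 26843546)
    rfl k0_mm_112

noncomputable def f_mm_113 : ℕ → ℕ → ℕ → ℕ → Bool := onCell 536870912 536870912 536870912 469762048 1046898278 26843546
    (rowFX 0 true false false .nn 1 1 3 (qsf 536870912 536870912 536870912 469762048 3) ndF3q1 ndF6q1 pcF3 Cut.none Ext.none)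

def k0_mm_113 : ∃ t, chk3 f_mm_113 t 1 1 1 = true :=
  ⟨(l 4), by decide +kernel⟩

theorem c_mm_113 : CertFX 536870912 536870912 536870912 469762048 1046898278 26843546 true false false .nn 1 1 3
    ndF3q1 ndF6q1 pcF3 Cut.none Ext.none :=
  certFX0 (fam := true) (s1 := false) (s2 := false) (a := 1) (b := 1) (c := 3) (cn := .nn) (n1 := ndF3q1) (n2 := ndF6q1) (pc := pcF3) (cut := Cut.none) (xt := Ext.none) (P1 := 536870912) (W1 := 536870912) (P2 := 536870912) (W2 := 469762048) (P3 := 1046898278) (W3 := 26843546)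
    rfl k0_mm_113

noncomputable def f_mm_123 : ℕ → ℕ → ℕ → ℕ → Bool := onCell 536870912 536870912 1073741824 536870912 1046898278 26843546
    (rowFX 0 true false false .npn 1 2 3 (qsf 536870912 536870912 1073741824 536870912 3) ndF3q1 ndF6q2 pcF3 Cut.none Ext.none)

def k0_mm_123 : ∃ t, chk3 f_mm_123 t 1 1 1 = true :=
  ⟨(l 4), by decide +kernel⟩

theorem c_mm_123 : CertFX 536870912 536870912 1073741824 536870912 1046898278 26843546 true false false .npn 1 2 3
    ndF3q1 ndF6q2 pcF3 Cut.none Ext.none :=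
  certFX0 (fam := true) (s1 := false) (s2 := false) (a := 1) (b := 2) (c := 3) (cn := .npn) (n1 := ndF3q1) (n2 := ndF6q2) (pc := pcF3) (cut := Cut.none) (xt := Ext.none) (P1 := 536870912) (W1 := 536870912) (P2 := 1073741824) (W2 := 536870912) (P3 := 1046898278) (W3 := 26843546)
    rfl k0_mm_123

noncomputable def f_mm_133 : ℕ → ℕ → ℕ → ℕ → Bool := onCell 536870912 536870912 0 1230186008 1046898278 26843546
    (rowFX 0 true false false .dn 1 3 3 (qsf 536870912 536870912 0 1230186008 3) ndF3q1 ndF6q3 pcF3 Cut.none Ext.none)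

def k0_mm_133 : ∃ t, chk3 f_mm_133 t 1 1 1 = true :=
  ⟨(l 4), by decide +kernel⟩

theorem c_mm_133 : CertFX 536870912 536870912 0 1230186008 1046898278 26843546 true false false .dn 1 3 3
    ndF3q1 ndF6q3 pcF3 Cut.none Ext.none :=
  certFX0 (fam := true) (s1 := false) (s2 := false) (a := 1) (b := 3) (c := 3) (cn := .dn) (n1 := ndF3q1) (n2 := ndF6q3) (pc := pcF3) (cut := Cut.none) (xt := Ext.none) (P1 := 536870912) (W1 := 536870912) (P2 := 0) (W2 := 1230186008) (P3 := 1046898278) (W3 := 26843546)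
    rfl k0_mm_133

noncomputable def f_mm_202 : ℕ → ℕ → ℕ → ℕ → Bool := onCell 1073741824 536870912 0 536870912 1046898278 26843546
    (rowFX 0 true false false .pp 2 0 2 (qsf 1073741824 536870912 0 536870912 2) ndF3q2 ndF6q0 pcF2 Cut.none Ext.none)

def k0_mm_202 : ∃ t, chk3 f_mm_202 t 1 1 1 = true :=
  ⟨(l 4), by decide +kernel⟩

theorem c_mm_202 : CertFX 1073741824 536870912 0 536870912 1046898278 26843546 true false false .pp 2 0 2
    ndF3q2 ndF6q0 pcF2 Cut.none Ext.none :=
  certFX0 (fam := true) (s1 := false) (s2 := false) (a := 2) (b := 0) (c := 2) (cn := .pp) (n1 := ndF3q2) (n2 := ndF6q0) (pc := pcF2) (cut := Cut.none) (xt := Ext.none) (P1 := 1073741824) (W1 := 536870912) (P2 := 0) (W2 := 536870912) (P3 := 1046898278) (W3 := 26843546)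
    rfl k0_mm_202

noncomputable def f_mm_203 : ℕ → ℕ → ℕ → ℕ → Bool := onCell 1073741824 536870912 0 536870912 1046898278 26843546
    (rowFX 0 true false false .up 2 0 3 (qsf 1073741824 536870912 0 536870912 3) ndF3q2 ndF6q0 pcF3 Cut.none Ext.none)

def k0_mm_203 : ∃ t, chk3 f_mm_203 t 1 1 1 = true :=
  ⟨(l 4), by decide +kernel⟩

theorem c_mm_203 : CertFX 1073741824 536870912 0 536870912 1046898278 26843546 true false false .up 2 0 3
    ndF3q2 ndF6q0 pcF3 Cut.none Ext.none :=
  certFX0 (fam := true) (s1 := false) (s2 := false) (a := 2) (b := 0) (c := 3) (cn := .up) (n1 := ndF3q2) (n2 := ndF6q0) (pc := pcF3) (cut := Cut.none) (xt := Ext.none) (P1 := 1073741824) (W1 := 536870912) (P2 := 0) (W2 := 536870912) (P3 := 1046898278) (W3 := 26843546)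
    rfl k0_mm_203

noncomputable def f_mm_213 : ℕ → ℕ → ℕ → ℕ → Bool := onCell 1073741824 536870912 536870912 469762048 1046898278 26843546
    (rowFX 0 true false false .pnn 2 1 3 (qsf 1073741824 536870912 536870912 469762048 3) ndF3q2 ndF6q1 pcF3 Cut.none Ext.none)

def k0_mm_213 : ∃ t, chk3 f_mm_213 t 1 1 1 = true :=
  ⟨(l 4), by decide +kernel⟩

theorem c_mm_213 : CertFX 1073741824 536870912 536870912 469762048 1046898278 26843546 true false false .pnn 2 1 3
    ndF3q2 ndF6q1 pcF3 Cut.none Ext.none :=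
  certFX0 (fam := true) (s1 := false) (s2 := false) (a := 2) (b := 1) (c := 3) (cn := .pnn) (n1 := ndF3q2) (n2 := ndF6q1) (pc := pcF3) (cut := Cut.none) (xt := Ext.none) (P1 := 1073741824) (W1 := 536870912) (P2 := 536870912) (W2 := 469762048) (P3 := 1046898278) (W3 := 26843546)
    rfl k0_mm_213

noncomputable def f_mm_303 : ℕ → ℕ → ℕ → ℕ → Bool := onCell 1610612736 536870912 0 536870912 1046898278 26843546
    (rowFX 0 true false false .npn 3 0 3 (qsf 1610612736 536870912 0 536870912 3) ndF3q3 ndF6q0 pcF3 Cut.none Ext.none)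

def k0_mm_303 : ∃ t, chk3 f_mm_303 t 1 1 1 = true :=
  ⟨(l 4), by decide +kernel⟩

theorem c_mm_303 : CertFX 1610612736 536870912 0 536870912 1046898278 26843546 true false false .npn 3 0 3
    ndF3q3 ndF6q0 pcF3 Cut.none Ext.none :=
  certFX0 (fam := true) (s1 := false) (s2 := false) (a := 3) (b := 0) (c := 3) (cn := .npn) (n1 := ndF3q3) (n2 := ndF6q0) (pc := pcF3) (cut := Cut.none) (xt := Ext.none) (P1 := 1610612736) (W1 := 536870912) (P2 := 0) (W2 := 536870912) (P3 := 1046898278) (W3 := 26843546)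
    rfl k0_mm_303

noncomputable def f_mm_313 : ℕ → ℕ → ℕ → ℕ → Bool := onCell 1610612736 536870912 536870912 469762048 1046898278 26843546
    (rowFX 0 true false false .dn 3 1 3 (qsf 1610612736 536870912 536870912 469762048 3) ndF3q3 ndF6q1 pcF3 Cut.none Ext.none)

def k0_mm_313 : ∃ t, chk3 f_mm_313 t 1 1 1 = true :=
  ⟨(l 4), by decide +kernel⟩

theorem c_mm_313 : CertFX 1610612736 536870912 536870912 469762048 1046898278 26843546 true false false .dn 3 1 3
    ndF3q3 ndF6q1 pcF3 Cut.none Ext.none :=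
  certFX0 (fam := true) (s1 := false) (s2 := false) (a := 3) (b := 1) (c := 3) (cn := .dn) (n1 := ndF3q3) (n2 := ndF6q1) (pc := pcF3) (cut := Cut.none) (xt := Ext.none) (P1 := 1610612736) (W1 := 536870912) (P2 := 536870912) (W2 := 469762048) (P3 := 1046898278) (W3 := 26843546)
    rfl k0_mm_313

end Pool.Agent.Strip051.G.IE1.Tab.C.FA36

namespace Pool.Agent.Strip051.G.IE1.Tab.C.FA37

open Pool.Agent.Strip051.PB Pool.Agent.Strip051.PB.T
open Pool.Agent.Strip051.G.IE1.Tab

noncomputable def f_pp_001 : ℕ → ℕ → ℕ → ℕ → Bool := onCell 0 536870912 0 536870912 1046898278 26843546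
    (rowFX 0 true true true .up 0 0 1 (qsf 0 536870912 0 536870912 1) ndF3q0 ndF7q0 pcF1 Cut.none Ext.none)

def k0_pp_001 : ∃ t, chk3 f_pp_001 t 1 1 1 = true :=
  ⟨(l 4), by decide +kernel⟩

theorem c_pp_001 : CertFX 0 536870912 0 536870912 1046898278 26843546 true true true .up 0 0 1
    ndF3q0 ndF7q0 pcF1 Cut.none Ext.none :=
  certFX0 (fam := true) (s1 := true) (s2 := true) (a := 0) (b := 0) (c := 1) (cn := .up) (n1 := ndF3q0) (n2 := ndF7q0) (pc := pcF1) (cut := Cut.none) (xt := Ext.none) (P1 := 0) (W1 := 536870912) (P2 := 0) (W2 := 536870912) (P3 := 1046898278) (W3 := 26843546)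
    rfl k0_pp_001

noncomputable def f_pp_011 : ℕ → ℕ → ℕ → ℕ → Bool := onCell 0 536870912 536870912 536870912 1046898278 26843546
    (rowFX 0 true true true .pnn 0 1 1 (qsf 0 536870912 536870912 536870912 1) ndF3q0 ndF7q1 pcF1 Cut.none Ext.none)

def k0_pp_011 : ∃ t, chk3 f_pp_011 t 1 1 1 = true :=
  ⟨(l 4), by decide +kernel⟩

theorem c_pp_011 : CertFX 0 536870912 536870912 536870912 1046898278 26843546 true true true .pnn 0 1 1
    ndF3q0 ndF7q1 pcF1 Cut.none Ext.none :=
  certFX0 (fam := true) (s1 := true) (s2 := true) (a := 0) (b := 1) (c := 1) (cn := .pnn) (n1 := ndF3q0) (n2 := ndF7q1) (pc := pcF1) (cut := Cut.none) (xt := Ext.none) (P1 := 0) (W1 := 536870912) (P2 := 536870912) (W2 := 536870912) (P3 := 1046898278) (W3 := 26843546)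
    rfl k0_pp_011

noncomputable def f_pp_012 : ℕ → ℕ → ℕ → ℕ → Bool := onCell 0 536870912 536870912 536870912 1046898278 26843546
    (rowFX 0 true true true .pnp 0 1 2 (qsf 0 536870912 536870912 536870912 2) ndF3q0 ndF7q1 pcF2 Cut.none Ext.none)

def k0_pp_012 : ∃ t, chk3 f_pp_012 t 1 1 1 = true :=
  ⟨(l 4), by decide +kernel⟩

theorem c_pp_012 : CertFX 0 536870912 536870912 536870912 1046898278 26843546 true true true .pnp 0 1 2
    ndF3q0 ndF7q1 pcF2 Cut.none Ext.none :=
  certFX0 (fam := true) (s1 := true) (s2 := true) (a := 0) (b := 1) (c := 2) (cn := .pnp) (n1 := ndF3q0) (n2 := ndF7q1) (pc := pcF2) (cut := Cut.none) (xt := Ext.none) (P1 := 0) (W1 := 536870912) (P2 := 536870912) (W2 := 536870912) (P3 := 1046898278) (W3 := 26843546)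
    rfl k0_pp_012

noncomputable def f_pp_022 : ℕ → ℕ → ℕ → ℕ → Bool := onCell 0 536870912 1073741824 536870912 1046898278 26843546
    (rowFX 0 true true true .pp 0 2 2 (qsf 0 536870912 1073741824 536870912 2) ndF3q0 ndF7q2 pcF2 Cut.none Ext.none)

def k0_pp_022 : ∃ t, chk3 f_pp_022 t 1 1 1 = true :=
  ⟨(l 4), by decide +kernel⟩

theorem c_pp_022 : CertFX 0 536870912 1073741824 536870912 1046898278 26843546 true true true .pp 0 2 2
    ndF3q0 ndF7q2 pcF2 Cut.none Ext.none :=
  certFX0 (fam := true) (s1 := true) (s2 := true) (a := 0) (b := 2) (c := 2) (cn := .pp) (n1 := ndF3q0) (n2 := ndF7q2) (pc := pcF2) (cut := Cut.none) (xt := Ext.none) (P1 := 0) (W1 := 536870912) (P2 := 1073741824) (W2 := 536870912) (P3 := 1046898278) (W3 := 26843546)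
    rfl k0_pp_022

noncomputable def f_pp_023 : ℕ → ℕ → ℕ → ℕ → Bool := onCell 0 536870912 1073741824 536870912 1046898278 26843546
    (rowFX 0 true true true .up 0 2 3 (qsf 0 536870912 1073741824 536870912 3) ndF3q0 ndF7q2 pcF3 Cut.none Ext.none)

def k0_pp_023 : ∃ t, chk3 f_pp_023 t 1 1 1 = true :=
  ⟨(l 4), by decide +kernel⟩

theorem c_pp_023 : CertFX 0 536870912 1073741824 536870912 1046898278 26843546 true true true .up 0 2 3
    ndF3q0 ndF7q2 pcF3 Cut.none Ext.none :=
  certFX0 (fam := true) (s1 := true) (s2 := true) (a := 0) (b := 2) (c := 3) (cn := .up) (n1 := ndF3q0) (n2 := ndF7q2) (pc := pcF3) (cut := Cut.none) (xt := Ext.none) (P1 := 0) (W1 := 536870912) (P2 := 1073741824) (W2 := 536870912) (P3 := 1046898278) (W3 := 26843546)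
    rfl k0_pp_023

noncomputable def f_pp_033 : ℕ → ℕ → ℕ → ℕ → Bool := onCell 0 536870912 0 1230186008 1046898278 26843546
    (rowFX 0 true true true .pnn 0 3 3 (qsf 0 536870912 0 1230186008 3) ndF3q0 ndF7q3 pcF3 Cut.none Ext.none)

def k0_pp_033 : ∃ t, chk3 f_pp_033 t 1 1 1 = true :=
  ⟨(b (l 4) (l 4)), by decide +kernel⟩

theorem c_pp_033 : CertFX 0 536870912 0 1230186008 1046898278 26843546 true true true .pnn 0 3 3
    ndF3q0 ndF7q3 pcF3 Cut.none Ext.none :=
  certFX0 (fam := true) (s1 := true) (s2 := true) (a := 0) (b := 3) (c := 3) (cn := .pnn) (n1 := ndF3q0) (n2 := ndF7q3) (pc := pcF3) (cut := Cut.none) (xt := Ext.none) (P1 := 0) (W1 := 536870912) (P2 := 0) (W2 := 1230186008) (P3 := 1046898278) (W3 := 26843546)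
    rfl k0_pp_033

noncomputable def f_pp_101 : ℕ → ℕ → ℕ → ℕ → Bool := onCell 536870912 536870912 0 536870912 1046898278 26843546
    (rowFX 0 true true true .npn 1 0 1 (qsf 536870912 536870912 0 536870912 1) ndF3q1 ndF7q0 pcF1 Cut.none Ext.none)

def k0_pp_101 : ∃ t, chk3 f_pp_101 t 1 1 1 = true :=
  ⟨(l 4), by decide +kernel⟩

theorem c_pp_101 : CertFX 536870912 536870912 0 536870912 1046898278 26843546 true true true .npn 1 0 1
    ndF3q1 ndF7q0 pcF1 Cut.none Ext.none :=
  certFX0 (fam := true) (s1 := true) (s2 := true) (a := 1) (b := 0) (c := 1) (cn := .npn) (n1 := ndF3q1) (n2 := ndF7q0) (pc := pcF1) (cut := Cut.none) (xt := Ext.none) (P1 := 536870912) (W1 := 536870912) (P2 := 0) (W2 := 536870912) (P3 := 1046898278) (W3 := 26843546)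
    rfl k0_pp_101

noncomputable def f_pp_102 : ℕ → ℕ → ℕ → ℕ → Bool := onCell 536870912 536870912 0 536870912 1046898278 26843546
    (rowFX 0 true true true .npp 1 0 2 (qsf 536870912 536870912 0 536870912 2) ndF3q1 ndF7q0 pcF2 Cut.none Ext.none)

def k0_pp_102 : ∃ t, chk3 f_pp_102 t 1 1 1 = true :=
  ⟨(l 4), by decide +kernel⟩

theorem c_pp_102 : CertFX 536870912 536870912 0 536870912 1046898278 26843546 true true true .npp 1 0 2
    ndF3q1 ndF7q0 pcF2 Cut.none Ext.none :=
  certFX0 (fam := true) (s1 := true) (s2 := true) (a := 1) (b := 0) (c := 2) (cn := .npp) (n1 := ndF3q1) (n2 := ndF7q0) (pc := pcF2) (cut := Cut.none) (xt := Ext.none) (P1 := 536870912) (W1 := 536870912) (P2 := 0) (W2 := 536870912) (P3 := 1046898278) (W3 := 26843546)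
    rfl k0_pp_102

noncomputable def f_pp_112 : ℕ → ℕ → ℕ → ℕ → Bool := onCell 536870912 536870912 536870912 536870912 1046898278 26843546
    (rowFX 0 true true true .dn 1 1 2 (qsf 536870912 536870912 536870912 536870912 2) ndF3q1 ndF7q1 pcF2 Cut.none Ext.none)

def k0_pp_112 : ∃ t, chk3 f_pp_112 t 1 1 1 = true :=
  ⟨(l 4), by decide +kernel⟩

theorem c_pp_112 : CertFX 536870912 536870912 536870912 536870912 1046898278 26843546 true true true .dn 1 1 2
    ndF3q1 ndF7q1 pcF2 Cut.none Ext.none :=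
  certFX0 (fam := true) (s1 := true) (s2 := true) (a := 1) (b := 1) (c := 2) (cn := .dn) (n1 := ndF3q1) (n2 := ndF7q1) (pc := pcF2) (cut := Cut.none) (xt := Ext.none) (P1 := 536870912) (W1 := 536870912) (P2 := 536870912) (W2 := 536870912) (P3 := 1046898278) (W3 := 26843546)
    rfl k0_pp_112

noncomputable def f_pp_113 : ℕ → ℕ → ℕ → ℕ → Bool := onCell 536870912 536870912 536870912 536870912 1046898278 26843546
    (rowFX 0 true true true .nn 1 1 3 (qsf 536870912 536870912 536870912 536870912 3) ndF3q1 ndF7q1 pcF3 Cut.none Ext.none)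

def k0_pp_113 : ∃ t, chk3 f_pp_113 t 1 1 1 = true :=
  ⟨(l 4), by decide +kernel⟩

theorem c_pp_113 : CertFX 536870912 536870912 536870912 536870912 1046898278 26843546 true true true .nn 1 1 3
    ndF3q1 ndF7q1 pcF3 Cut.none Ext.none :=
  certFX0 (fam := true) (s1 := true) (s2 := true) (a := 1) (b := 1) (c := 3) (cn := .nn) (n1 := ndF3q1) (n2 := ndF7q1) (pc := pcF3) (cut := Cut.none) (xt := Ext.none) (P1 := 536870912) (W1 := 536870912) (P2 := 536870912) (W2 := 536870912) (P3 := 1046898278) (W3 := 26843546)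
    rfl k0_pp_113

noncomputable def f_pp_123 : ℕ → ℕ → ℕ → ℕ → Bool := onCell 536870912 536870912 1073741824 536870912 1046898278 26843546
    (rowFX 0 true true true .npn 1 2 3 (qsf 536870912 536870912 1073741824 536870912 3) ndF3q1 ndF7q2 pcF3 Cut.none Ext.none)

def k0_pp_123 : ∃ t, chk3 f_pp_123 t 1 1 1 = true :=
  ⟨(l 4), by decide +kernel⟩

theorem c_pp_123 : CertFX 536870912 536870912 1073741824 536870912 1046898278 26843546 true true true .npn 1 2 3
    ndF3q1 ndF7q2 pcF3 Cut.none Ext.none :=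
  certFX0 (fam := true) (s1 := true) (s2 := true) (a := 1) (b := 2) (c := 3) (cn := .npn) (n1 := ndF3q1) (n2 := ndF7q2) (pc := pcF3) (cut := Cut.none) (xt := Ext.none) (P1 := 536870912) (W1 := 536870912) (P2 := 1073741824) (W2 := 536870912) (P3 := 1046898278) (W3 := 26843546)
    rfl k0_pp_123

noncomputable def f_pp_133 : ℕ → ℕ → ℕ → ℕ → Bool := onCell 536870912 536870912 0 1230186008 1046898278 26843546
    (rowFX 0 true true true .dn 1 3 3 (qsf 536870912 536870912 0 1230186008 3) ndF3q1 ndF7q3 pcF3 Cut.none Ext.none)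

def k0_pp_133 : ∃ t, chk3 f_pp_133 t 1 1 1 = true :=
  ⟨(l 4), by decide +kernel⟩

theorem c_pp_133 : CertFX 536870912 536870912 0 1230186008 1046898278 26843546 true true true .dn 1 3 3
    ndF3q1 ndF7q3 pcF3 Cut.none Ext.none :=
  certFX0 (fam := true) (s1 := true) (s2 := true) (a := 1) (b := 3) (c := 3) (cn := .dn) (n1 := ndF3q1) (n2 := ndF7q3) (pc := pcF3) (cut := Cut.none) (xt := Ext.none) (P1 := 536870912) (W1 := 536870912) (P2 := 0) (W2 := 1230186008) (P3 := 1046898278) (W3 := 26843546)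
    rfl k0_pp_133

noncomputable def f_pp_202 : ℕ → ℕ → ℕ → ℕ → Bool := onCell 1073741824 536870912 0 536870912 1046898278 26843546
    (rowFX 0 true true true .pp 2 0 2 (qsf 1073741824 536870912 0 536870912 2) ndF3q2 ndF7q0 pcF2 Cut.none Ext.none)

def k0_pp_202 : ∃ t, chk3 f_pp_202 t 1 1 1 = true :=
  ⟨(l 4), by decide +kernel⟩

theorem c_pp_202 : CertFX 1073741824 536870912 0 536870912 1046898278 26843546 true true true .pp 2 0 2
    ndF3q2 ndF7q0 pcF2 Cut.none Ext.none :=
  certFX0 (fam := true) (s1 := true) (s2 := true) (a := 2) (b := 0) (c := 2) (cn := .pp) (n1 := ndF3q2) (n2 := ndF7q0) (pc := pcF2) (cut := Cut.none) (xt := Ext.none) (P1 := 1073741824) (W1 := 536870912) (P2 := 0) (W2 := 536870912) (P3 := 1046898278) (W3 := 26843546)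
    rfl k0_pp_202

noncomputable def f_pp_203 : ℕ → ℕ → ℕ → ℕ → Bool := onCell 1073741824 536870912 0 536870912 1046898278 26843546
    (rowFX 0 true true true .up 2 0 3 (qsf 1073741824 536870912 0 536870912 3) ndF3q2 ndF7q0 pcF3 Cut.none Ext.none)

def k0_pp_203 : ∃ t, chk3 f_pp_203 t 1 1 1 = true :=
  ⟨(l 4), by decide +kernel⟩

theorem c_pp_203 : CertFX 1073741824 536870912 0 536870912 1046898278 26843546 true true true .up 2 0 3
    ndF3q2 ndF7q0 pcF3 Cut.none Ext.none :=
  certFX0 (fam := true) (s1 := true) (s2 := true) (a := 2) (b := 0) (c := 3) (cn := .up) (n1 := ndF3q2) (n2 := ndF7q0) (pc := pcF3) (cut := Cut.none) (xt := Ext.none) (P1 := 1073741824) (W1 := 536870912) (P2 := 0) (W2 := 536870912) (P3 := 1046898278) (W3 := 26843546)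
    rfl k0_pp_203

noncomputable def f_pp_213 : ℕ → ℕ → ℕ → ℕ → Bool := onCell 1073741824 536870912 536870912 536870912 1046898278 26843546
    (rowFX 0 true true true .pnn 2 1 3 (qsf 1073741824 536870912 536870912 536870912 3) ndF3q2 ndF7q1 pcF3 Cut.none Ext.none)

def k0_pp_213 : ∃ t, chk3 f_pp_213 t 1 1 1 = true :=
  ⟨(l 4), by decide +kernel⟩

theorem c_pp_213 : CertFX 1073741824 536870912 536870912 536870912 1046898278 26843546 true true true .pnn 2 1 3
    ndF3q2 ndF7q1 pcF3 Cut.none Ext.none :=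
  certFX0 (fam := true) (s1 := true) (s2 := true) (a := 2) (b := 1) (c := 3) (cn := .pnn) (n1 := ndF3q2) (n2 := ndF7q1) (pc := pcF3) (cut := Cut.none) (xt := Ext.none) (P1 := 1073741824) (W1 := 536870912) (P2 := 536870912) (W2 := 536870912) (P3 := 1046898278) (W3 := 26843546)
    rfl k0_pp_213

noncomputable def f_pp_303 : ℕ → ℕ → ℕ → ℕ → Bool := onCell 1610612736 536870912 0 536870912 1046898278 26843546
    (rowFX 0 true true true .npn 3 0 3 (qsf 1610612736 536870912 0 536870912 3) ndF3q3 ndF7q0 pcF3 Cut.none Ext.none)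

def k0_pp_303 : ∃ t, chk3 f_pp_303 t 1 1 1 = true :=
  ⟨(l 4), by decide +kernel⟩

theorem c_pp_303 : CertFX 1610612736 536870912 0 536870912 1046898278 26843546 true true true .npn 3 0 3
    ndF3q3 ndF7q0 pcF3 Cut.none Ext.none :=
  certFX0 (fam := true) (s1 := true) (s2 := true) (a := 3) (b := 0) (c := 3) (cn := .npn) (n1 := ndF3q3) (n2 := ndF7q0) (pc := pcF3) (cut := Cut.none) (xt := Ext.none) (P1 := 1610612736) (W1 := 536870912) (P2 := 0) (W2 := 536870912) (P3 := 1046898278) (W3 := 26843546)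
    rfl k0_pp_303

noncomputable def f_pp_313 : ℕ → ℕ → ℕ → ℕ → Bool := onCell 1610612736 536870912 536870912 536870912 1046898278 26843546
    (rowFX 0 true true true .dn 3 1 3 (qsf 1610612736 536870912 536870912 536870912 3) ndF3q3 ndF7q1 pcF3 Cut.none Ext.none)

def k0_pp_313 : ∃ t, chk3 f_pp_313 t 1 1 1 = true :=
  ⟨(l 4), by decide +kernel⟩

theorem c_pp_313 : CertFX 1610612736 536870912 536870912 536870912 1046898278 26843546 true true true .dn 3 1 3
    ndF3q3 ndF7q1 pcF3 Cut.none Ext.none :=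
  certFX0 (fam := true) (s1 := true) (s2 := true) (a := 3) (b := 1) (c := 3) (cn := .dn) (n1 := ndF3q3) (n2 := ndF7q1) (pc := pcF3) (cut := Cut.none) (xt := Ext.none) (P1 := 1610612736) (W1 := 536870912) (P2 := 536870912) (W2 := 536870912) (P3 := 1046898278) (W3 := 26843546)
    rfl k0_pp_313

noncomputable def f_pm_001 : ℕ → ℕ → ℕ → ℕ → Bool := onCell 0 536870912 0 536870912 1046898278 26843546
    (rowFX 0 true true false .up 0 0 1 (qsf 0 536870912 0 536870912 1) ndF3q0 ndF7q0 pcF1 Cut.none Ext.none)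

def k0_pm_001 : ∃ t, chk3 f_pm_001 t 1 1 1 = true :=
  ⟨(l 3), by decide +kernel⟩

theorem c_pm_001 : CertFX 0 536870912 0 536870912 1046898278 26843546 true true false .up 0 0 1
    ndF3q0 ndF7q0 pcF1 Cut.none Ext.none :=
  certFX0 (fam := true) (s1 := true) (s2 := false) (a := 0) (b := 0) (c := 1) (cn := .up) (n1 := ndF3q0) (n2 := ndF7q0) (pc := pcF1) (cut := Cut.none) (xt := Ext.none) (P1 := 0) (W1 := 536870912) (P2 := 0) (W2 := 536870912) (P3 := 1046898278) (W3 := 26843546)
    rfl k0_pm_001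

noncomputable def cut_pm_011 : Cut := Cut.of [[⟨0, 0, 0, 67108864⟩, ⟨1, 1, 0, 67108864⟩, ⟨2, 1, 0, 67108864⟩]]

noncomputable def f_pm_011 : ℕ → ℕ → ℕ → ℕ → Bool := onCell 0 536870912 536870912 536870912 1046898278 26843546
    (rowFX 1 true true false .pnn 0 1 1 (qsf 0 536870912 536870912 536870912 1) ndF3q0 ndF7q1 pcF1 cut_pm_011 Ext.none)

def k0_pm_011 : ∃ t, chk3 f_pm_011 t 1 1 1 = true :=
  ⟨(b (l 3) (a (b (l 3) (a (b (l 3) (a (a (a (b (l 3) (l 6)) (l 3)) (l 3)) (l 3))) (l 3))) (l 3))), by decide +kernel⟩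

theorem c_pm_011 : CertFX 0 536870912 536870912 536870912 1046898278 26843546 true true false .pnn 0 1 1
    ndF3q0 ndF7q1 pcF1 cut_pm_011 Ext.none :=
  certFX1 (fam := true) (s1 := true) (s2 := false) (a := 0) (b := 1) (c := 1) (cn := .pnn) (n1 := ndF3q0) (n2 := ndF7q1) (pc := pcF1) (cut := cut_pm_011) (xt := Ext.none) (P1 := 0) (W1 := 536870912) (P2 := 536870912) (W2 := 536870912) (P3 := 1046898278) (W3 := 26843546)
    rfl (fun _ => rfl) k0_pm_011

noncomputable def cut_pm_012 : Cut := Cut.of [[⟨0, 0, 0, 67108864⟩, ⟨1, 1, 0, 67108864⟩, ⟨2, 1, 0, 67108864⟩]]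

noncomputable def f_pm_012 : ℕ → ℕ → ℕ → ℕ → Bool := onCell 1073741824 536870912 536870912 536870912 1046898278 26843546
    (rowFX 2 true true false .pnp 0 1 2 (qsf 0 536870912 536870912 536870912 2) ndF3q0 ndF7q1 pcF2 cut_pm_012 Ext.none)

def k0_pm_012 : ∃ t, chk3 f_pm_012 t 8 1 1 = true :=
  ⟨(b (l 3) (b (l 3) (b (l 3) (b (b (l 3) (a (l 3) (a (l 3) (a (l 3) (c (l 15271968) (l 15299040)))))) (b (a (l 3) (a (a (l 3) (c (b (l 3) (l 15705256)) (c (l 1361132959895) (l 15736128)))) (c (a (a (l 15544312) (l 15456208)) (l 15337072)) (c (a (l 15367080) (l 15347296)) (a (l 15547848) (l 15357904)))))) (a (l 6) (a (a (l 6) (a (l 6) (b (c (l 15721008) (l 15593192)) (l 6)))) (c (a (a (l 15668712) (l 15582304)) (a (l 15502280) (l 15423408))) (a (c (l 15608208) (b (l 15589112) (l 15637624))) (c (l 15442768) (b (l 15423072) (l 15467512)))))))))))), by decide +kernel⟩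

def k1_pm_012 : ∃ t, chk3 f_pm_012 t 9 1 1 = true :=
  ⟨(b (a (l 3) (a (b (l 3) (l 3)) (b (c (l 16777200) (l 16777200)) (c (b (l 16646032) (l 16255152)) (b (l 16642624) (l 16241592)))))) (a (b (a (l 3) (a (l 3) (a (l 3) (b (l 3) (l 15237680))))) (b (b (a (l 3) (c (l 848956660487) (l 14932336))) (a (c (c (l 743193347879) (l 15155032)) (l 15133840)) (c (a (l 14944544) (l 14831888)) (l 14874984)))) (a (b (c (c (a (l 15142968) (l 15002976)) (b (l 15114264) (l 15075792))) (c (a (l 15186168) (l 15042392)) (l 15100512))) (c (a (b (l 15179232) (l 15295168)) (b (l 15022840) (l 15124584))) (c (b (a (l 15186256) (l 15026768)) (a (l 15272136) (l 15097304))) (b (a (l 15194808) (l 15033256)) (a (l 15191832) (l 15098640)))))) (c (b (c (a (l 14871800) (l 14757496)) (a (l 14893984) (l 14778112))) (b (a (l 14878368) (l 14763088)) (l 14906624))) (b (a (l 14896080) (l 14777856)) (b (a (c (l 14879408) (l 14883960)) (c (l 14761816) (l 14764832))) (c (l 14875040) (l 14873520)))))))) (b (a (a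 (b (l 3) (a (l 15215480) (l 15213032))) (b (l 15782128) (l 15212592))) (c (b (l 15796320) (a (l 15234144) (l 15237096))) (b (l 15770856) (a (l 15194072) (l 15197112))))) (b (a (c (b (a (l 14821616) (l 14777584)) (a (l 14736032) (l 14677296))) (a (b (l 14774424) (l 14711800)) (b (l 14729168) (l 14651464)))) (c (a (b (l 14756344) (l 14634512)) (l 14672064)) (a (b (l 14707352) (l 14607544)) (l 14639200)))) (a (c (b (a (c (l 14653416) (l 14672600)) (l 14618032)) (l 14669488)) (b (a (c (l 14683224) (l 14663416)) (l 14617920)) (b (l 14652904) (a (l 14697960) (l 14620312))))) (c (b (l 14547144) (l 14528464)) (b (l 14545192) (b (l 14520592) (l 14505784))))))))), by decide +kernel⟩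

def k2_pm_012 : ∃ t, chk3 f_pm_012 t 5 1 1 = true :=
  ⟨(b (b (a (a (a (a (l 16777208) (l 2)) (l 2)) (l 2)) (l 2)) (a (a (a (c (a (l 16457752) (l 16289464)) (b (l 16642872) (l 16221152))) (a (l 16365776) (a (l 16422664) (b (l 16636248) (l 16232864))))) (l 16382176)) (l 16242584))) (a (a (a (b (a (c (b (l 15796400) (l 15236848)) (b (l 15770944) (l 15196864))) (b (l 15783320) (l 15215016))) (b (c (b (l 14739424) (l 14518712)) (l 14597600)) (c (b (l 14408792) (l 14357840)) (b (l 14402944) (c (l 14334992) (l 14334552)))))) (b (a (b (l 15773112) (l 15197912)) (b (a (l 15760856) (a (l 15758072) (l 15757120))) (a (l 15180584) (a (l 15177576) (l 15176824))))) (b (a (c (l 14586256) (l 14529272)) (a (c (l 14554312) (l 14496320)) (a (c (l 14549056) (l 14490896)) (c (l 14549584) (l 14491440))))) (a (c (b (l 14280000) (l 14211240)) (b (l 14270352) (l 14188368))) (a (c (b (l 14213064) (l 14141888)) (b (l 14201408) (l 14116968))) (a (c (b (l 14195768) (l 14140768)) (b (l 14183600) (b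 (l 14126816) (l 14094752)))) (c (b (b (l 14210864) (l 14167328)) (l 14168512)) (b (b (l 14205240) (l 14164168)) (a (l 14149736) (l 14164320)))))))))) (b (b (l 15764840) (l 15187832)) (b (c (l 14562576) (l 14504824)) (b (c (l 14145320) (l 14131688)) (c (l 14044496) (b (l 14029080) (l 13996256))))))) (b (b (l 15779864) (l 15209280)) (b (c (l 14591272) (l 14534456)) (c (b (l 14119072) (l 13882352)) (b (l 14104672) (a (l 13651056) (l 13819760)))))))), by decide +kernel⟩

def k3_pm_012 : ∃ t, chk3 f_pm_012 t 3 1 1 = true :=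
  ⟨(b (b (l 2) (b (l 2) (l 16248360))) (b (b (l 15782128) (a (l 15212584) (l 15212584))) (b (a (c (l 14595736) (l 14539088)) (l 14550992)) (a (c (l 13789184) (b (l 14110352) (l 13819696))) (c (l 13998896) (l 13985328)))))), by decide +kernel⟩

theorem s4_pm_012 : ∃ t, chk3 f_pm_012 t 4 1 1 = true := ex3_a k0_pm_012 k1_pm_012

theorem s5_pm_012 : ∃ t, chk3 f_pm_012 t 2 1 1 = true := ex3_a s4_pm_012 k2_pm_012

theorem s6_pm_012 : ∃ t, chk3 f_pm_012 t 1 1 1 = true := ex3_a s5_pm_012 k3_pm_012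

theorem c_pm_012 : CertFX 0 536870912 536870912 536870912 1046898278 26843546 true true false .pnp 0 1 2
    ndF3q0 ndF7q1 pcF2 cut_pm_012 Ext.none :=
  certFX2 (fam := true) (s1 := true) (s2 := false) (a := 0) (b := 1) (c := 2) (cn := .pnp) (n1 := ndF3q0) (n2 := ndF7q1) (pc := pcF2) (cut := cut_pm_012) (xt := Ext.none) (P1 := 0) (W1 := 536870912) (P2 := 536870912) (W2 := 536870912) (P3 := 1046898278) (W3 := 26843546)
    rfl (fun _ => rfl) s6_pm_012

noncomputable def cut_pm_022 : Cut := Cut.of [[⟨0, 0, 0, 67108864⟩, ⟨1, 1, 0, 67108864⟩, ⟨2, 1, 0, 67108864⟩]]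

noncomputable def f_pm_022 : ℕ → ℕ → ℕ → ℕ → Bool := onCell 0 536870912 1073741824 536870912 1046898278 26843546
    (rowFX 1 true true false .pp 0 2 2 (qsf 0 536870912 1073741824 536870912 2) ndF3q0 ndF7q2 pcF2 cut_pm_022 Ext.none)

def k0_pm_022 : ∃ t, chk3 f_pm_022 t 2 8 1 = true :=
  ⟨(a (b (a (a (l 6) (a (l 6) (l 1))) (l 1)) (b (a (a (l 6) (a (l 6) (a (l 6) (l 1)))) (l 1)) (b (a (a (l 6) (a (l 6) (a (l 6) (c (l 15548000) (l 15518728))))) (l 1)) (b (a (a (l 6) (a (l 6) (a (l 6) (c (l 15532560) (l 15506352))))) (l 1)) (a (a (c (a (c (a (l 16597936) (l 16389536)) (a (l 16493736) (a (l 16530456) (l 16461208)))) (c (l 16228872) (l 16132864))) (a (a (c (l 16584408) (l 16536208)) (c (l 16475456) (l 16501608))) (c (a (l 16342728) (l 16169032)) (l 16260944)))) (c (a (l 15908696) (l 15601360)) (a (c (l 15824984) (l 15932096)) (c (l 15579736) (a (l 15670696) (l 15497016)))))) (a (a (c (l 15305576) (l 15271096)) (l 1)) (l 1))))))) (l 1)), by decide +kernel⟩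

def k1_pm_022 : ∃ t, chk3 f_pm_022 t 4 18 1 = true :=
  ⟨(a (c (a (b (b (a (c (a (l 16538760) (a (l 16528584) (l 16450048))) (a (c (l 16522552) (l 16545064)) (a (l 16548464) (l 16412432)))) (c (l 16130296) (a (l 16212744) (l 16155928)))) (a (a (c (l 16479208) (l 16481064)) (c (l 16397560) (a (l 16594976) (l 16505200)))) (c (l 16089344) (a (l 16263304) (l 16183544))))) (a (c (a (c (l 16342368) (b (l 16459592) (l 16429728))) (l 16345296)) (a (l 16435160) (l 16469912))) (a (b (c (l 16314936) (l 16312992)) (c (l 16373904) (l 16434040))) (c (b (l 16188504) (l 16233800)) (b (l 16216416) (l 16255528)))))) (b (a (b (l 15697656) (c (l 15905288) (l 15912080))) (b (l 15587064) (l 15579016))) (a (c (l 15796584) (b (l 15919552) (l 15919128))) (c (l 15596048) (l 15583464))))) (a (b (a (a (c (c (l 16460304) (l 16445920)) (c (l 16433008) (l 16440296))) (a (l 16483576) (b (a (l 16456264) (l 16454952)) (l 16474872)))) (b (c (a (l 16327848) (l 16179464)) (l 16265872)) (a (l 16370440) (l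 16131656)))) (a (c (b (l 16341112) (l 16307648)) (b (l 16356312) (l 16322296))) (b (a (l 16387592) (l 16222744)) (a (l 16412160) (l 16250336))))) (b (a (c (b (a (l 16004336) (l 15834528)) (l 15812936)) (b (l 15930952) (l 15946328))) (c (b (l 15576888) (l 15581680)) (b (a (l 15676832) (l 15498352)) (l 15601648)))) (b (c (a (l 15963904) (l 15610256)) (l 15567528)) (a (l 15884008) (l 15437688)))))) (b (a (a (c (b (l 15285256) (l 15268808)) (b (c (l 15259328) (a (l 15326968) (l 15166528))) (c (l 15244832) (l 15244096)))) (b (l 1) (c (l 14966264) (l 14921920)))) (l 1)) (a (c (a (l 15277320) (l 14967560)) (a (c (l 15147784) (b (l 15263832) (l 15301016))) (c (l 14936560) (l 14929712)))) (a (b (l 1) (c (l 14672840) (l 14620696))) (l 1))))), by decide +kernel⟩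

def k2_pm_022 : ∃ t, chk3 f_pm_022 t 4 19 1 = true :=
  ⟨(a (b (a (a (c (a (b (l 16247976) (l 16327056)) (b (c (l 16384280) (l 16513232)) (l 16380440))) (b (c (l 16272080) (l 16286144)) (c (l 16227720) (l 16262320)))) (c (b (a (l 16332728) (c (l 16208784) (l 16292480))) (c (l 16283656) (l 16389576))) (b (a (l 16441440) (l 16274528)) (l 16368912)))) (c (a (b (c (l 15940664) (l 15838240)) (c (l 15964440) (l 16022552))) (b (c (l 15637088) (l 15662464)) (c (l 15664360) (l 15699872)))) (a (b (l 16033104) (l 16040824)) (b (l 15645728) (l 15708952))))) (a (a (a (c (l 16124552) (c (l 16148824) (l 16138544))) (c (a (l 16300176) (l 16433544)) (l 16237376))) (c (b (l 16205080) (l 16368848)) (l 16263024))) (c (a (b (a (l 16130728) (l 15951488)) (l 15982784)) (b (c (l 15686992) (l 15717848)) (c (l 15707104) (l 15730400)))) (a (b (l 16035880) (l 16056744)) (l 15731768))))) (b (a (c (b (l 15140832) (l 14947696)) (b (a (c (l 15333632) (l 15335672)) (c (l 14978752) (l 14983664))) (a (l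 15377432) (l 15043704)))) (c (l 14600288) (b (l 14524296) (l 14414784)))) (a (c (a (c (l 15370232) (l 15398760)) (l 15081960)) (a (l 15410704) (c (l 15096424) (l 15087872)))) (c (l 14675632) (a (c (l 14773592) (l 14778192)) (l 14521760)))))), by decide +kernel⟩

def k3_pm_022 : ∃ t, chk3 f_pm_022 t 5 9 1 = true :=
  ⟨(b (l 1) (b (l 1) (a (c (l 13984096) (l 13725224)) (l 1)))), by decide +kernel⟩

def k4_pm_022 : ∃ t, chk3 f_pm_022 t 3 4 1 = true :=
  ⟨(l 1), by decide +kernel⟩

def k5_pm_022 : ∃ t, chk3 f_pm_022 t 4 20 1 = true :=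
  ⟨(a (b (a (a (a (c (l 15965128) (b (l 16107880) (l 16004416))) (c (l 16052864) (b (l 16286264) (l 16203704)))) (c (a (l 16299976) (l 16373608)) (a (l 16338520) (l 16365520)))) (c (a (b (l 16041552) (l 16175840)) (b (c (l 15738968) (l 15762344)) (l 15815000))) (b (a (l 16094336) (l 15748024)) (l 15878528)))) (a (b (a (c (l 15761656) (a (l 15884040) (l 16081488))) (c (l 16192200) (l 16265872))) (b (a (c (a (l 15783048) (l 15949288)) (a (l 15781368) (l 15975104))) (c (l 16104584) (l 16175192))) (b (a (c (l 15565704) (a (l 15730336) (l 15918416))) (c (l 16104616) (l 16194392))) (a (a (c (a (l 15669224) (l 15732456)) (c (l 15673128) (l 15697616))) (c (a (l 15810048) (l 15902752)) (l 15797824))) (c (l 15979704) (l 16068296)))))) (b (a (a (l 16295744) (l 16159808)) (c (l 15902528) (l 15899184))) (b (a (l 16197440) (c (l 16009368) (l 15991792))) (a (b (l 16303832) (c (l 16416960) (l 16422664))) (b (c (l 16077104) (l 16060064)) (c (l 16121568) (l 16105872)))))))) (b (a (c (b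 (a (l 15267472) (l 15107184)) (a (l 15245216) (l 15122160))) (a (b (l 15431536) (l 15462264)) (b (l 15119008) (l 15134648)))) (c (l 14479680) (a (b (l 14826968) (l 14830848)) (l 14325592)))) (b (a (c (a (l 15557416) (l 15071096)) (l 15320776)) (c (a (l 14742704) (l 14599568)) (a (l 14873792) (l 14613184)))) (b (a (c (a (l 15664304) (l 15316512)) (l 15493224)) (c (a (l 14962552) (l 14658256)) (a (l 14974784) (l 14667600)))) (a (c (b (a (l 15742728) (l 15406312)) (a (l 15793808) (l 15464560))) (b (l 15576608) (l 15631984))) (c (a (b (l 15061448) (l 15127848)) (l 14798096)) (b (l 14936352) (l 15003360)))))))), by decide +kernel⟩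

def k6_pm_022 : ∃ t, chk3 f_pm_022 t 4 21 1 = true :=
  ⟨(a (a (a (a (c (b (l 15684928) (l 15672120)) (c (l 15674488) (l 15677992))) (c (b (l 15835480) (l 15806424)) (l 15741520))) (c (l 15864984) (l 15973552))) (a (c (l 16268080) (l 16327872)) (c (l 16100200) (l 16150528)))) (a (c (a (b (l 15813224) (l 15866520)) (l 15527368)) (l 15597776)) (c (a (l 15165536) (l 14914840)) (l 14873160)))), by decide +kernel⟩

def k7_pm_022 : ∃ t, chk3 f_pm_022 t 5 10 1 = true :=
  ⟨(a (a (b (b (c (l 14262992) (c (l 14217392) (l 14199096))) (b (c (l 14265544) (l 14227752)) (b (c (l 14289760) (a (l 14383272) (l 14118304))) (b (c (l 14361320) (a (l 14485488) (l 14184280))) (c (l 14435248) (l 14271256)))))) (c (a (l 14680208) (l 14417968)) (a (l 14694256) (l 14243128)))) (b (b (l 1) (b (l 1) (b (l 1) (b (l 1) (a (l 14031848) (l 1)))))) (c (l 14063128) (a (l 14138184) (l 13879992))))) (b (l 1) (a (c (l 13594728) (l 13512608)) (l 1)))), by decide +kernel⟩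

def k8_pm_022 : ∃ t, chk3 f_pm_022 t 2 11 1 = true :=
  ⟨(a (a (a (b (a (c (a (l 15634888) (l 15732336)) (c (l 15618448) (l 15707344))) (c (l 15779736) (l 15907040))) (c (a (a (l 15463504) (l 15574264)) (l 15755344)) (a (c (l 15523528) (l 15526136)) (l 15814440)))) (b (a (c (l 16120432) (l 16156168)) (c (l 16261544) (l 16274472))) (a (c (l 16031088) (l 16081720)) (c (l 16318760) (l 16383928))))) (b (a (c (a (l 15992880) (l 15699232)) (l 15621416)) (c (a (l 15388200) (l 15157840)) (l 15267936))) (a (c (l 15972640) (l 15919864)) (c (l 15574864) (l 15547456))))) (a (c (b (a (a (l 14919952) (l 14671776)) (l 14057728)) (a (l 14864712) (l 14537240))) (b (a (l 14531608) (c (l 14302336) (l 14296072))) (a (l 15060304) (l 14588352)))) (c (a (b (l 13846968) (l 14131056)) (l 13630584)) (a (b (c (l 13806424) (l 13786680)) (c (l 14119784) (l 14110704))) (b (l 13416128) (l 13537688)))))), by decide +kernel⟩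

def k9_pm_022 : ∃ t, chk3 f_pm_022 t 3 5 1 = true :=
  ⟨(b (l 1) (a (c (l 13017808) (a (l 13175808) (l 1))) (l 1))), by decide +kernel⟩

def k10_pm_022 : ∃ t, chk3 f_pm_022 t 2 3 1 = true :=
  ⟨(a (b (a (b (a (c (b (a (l 15277616) (l 15552392)) (a (l 15051832) (l 15326512))) (b (a (l 15273872) (l 15561968)) (a (l 15040416) (l 15328552)))) (b (a (l 15722720) (c (l 16134904) (l 16129448))) (c (l 15722864) (l 15756672)))) (a (c (b (a (b (l 14895672) (l 14827312)) (l 15119976)) (a (l 14808792) (l 15000480))) (b (a (l 14847648) (l 15114552)) (l 14851648))) (c (b (l 15557952) (l 15384016)) (b (l 15542512) (l 15361960))))) (b (a (b (a (l 16219024) (l 16201520)) (a (l 16157544) (l 16436136))) (b (c (l 15876480) (l 15857552)) (a (l 16227888) (l 16032720)))) (a (b (a (l 15968208) (l 16229200)) (c (l 15916784) (l 15896984))) (b (l 16334152) (l 16381440))))) (a (c (b (a (l 14669520) (b (l 15302336) (l 15294328))) (a (l 14900208) (l 15294328))) (b (a (l 14884312) (l 15274192)) (a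 (l 14884312) (l 15268632)))) (b (a (c (b (l 15760280) (l 15687360)) (l 15620816)) (b (l 16209656) (l 16067688))) (c (a (l 15680272) (l 16009872)) (l 15615848))))) (b (a (b (a (b (l 15383992) (l 15705808)) (c (b (l 14902288) (l 15243456)) (l 15054720))) (a (b (l 15986008) (l 16225864)) (b (l 15561776) (l 15857480)))) (b (a (c (b (l 14445944) (l 14742496)) (l 14349024)) (c (b (l 14031616) (l 14355048)) (b (l 14016464) (l 14313496)))) (a (b (l 15077712) (l 15430576)) (c (l 14843400) (l 14816656))))) (a (b (a (l 16284744) (l 16191744)) (a (l 16065168) (l 16518456))) (b (a (l 15880576) (l 15524544)) (a (l 16383224) (l 16097232)))))), by decide +kernel⟩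

def k11_pm_022 : ∃ t, chk3 f_pm_022 t 3 3 1 = true :=
  ⟨(b (a (a (a (b (c (l 13909232) (b (l 13705320) (l 14016320))) (c (l 14435280) (l 14510928))) (b (c (l 13636992) (l 13519112)) (c (l 14205608) (l 14152576)))) (b (c (l 13273128) (l 13182112)) (c (l 13790656) (a (l 13836176) (l 13582024))))) (c (l 12766584) (a (l 12884184) (l 1)))) (a (b (a (c (a (l 15202848) (l 14885232)) (l 14999096)) (c (a (l 14540136) (l 14205608)) (a (l 14510928) (l 14194520)))) (a (l 15571312) (c (l 14940368) (l 14999096)))) (a (b (c (l 13790656) (a (l 13878120) (l 13582024))) (c (l 14176048) (l 14274848))) (b (l 13227904) (c (l 13790656) (l 13748624)))))), by decide +kernel⟩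

theorem s12_pm_022 : ∃ t, chk3 f_pm_022 t 1 3 1 = true := ex3_a k10_pm_022 k11_pm_022

theorem s13_pm_022 : ∃ t, chk3 f_pm_022 t 4 10 1 = true := ex3_b k5_pm_022 k6_pm_022

theorem s14_pm_022 : ∃ t, chk3 f_pm_022 t 2 10 1 = true := ex3_a s13_pm_022 k7_pm_022

theorem s15_pm_022 : ∃ t, chk3 f_pm_022 t 2 5 1 = true := ex3_b s14_pm_022 k8_pm_022

theorem s16_pm_022 : ∃ t, chk3 f_pm_022 t 1 5 1 = true := ex3_a s15_pm_022 k9_pm_022

theorem s17_pm_022 : ∃ t, chk3 f_pm_022 t 4 9 1 = true := ex3_b k1_pm_022 k2_pm_022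

theorem s18_pm_022 : ∃ t, chk3 f_pm_022 t 2 9 1 = true := ex3_a s17_pm_022 k3_pm_022

theorem s19_pm_022 : ∃ t, chk3 f_pm_022 t 2 4 1 = true := ex3_b k0_pm_022 s18_pm_022

theorem s20_pm_022 : ∃ t, chk3 f_pm_022 t 1 4 1 = true := ex3_a s19_pm_022 k4_pm_022

theorem s21_pm_022 : ∃ t, chk3 f_pm_022 t 1 2 1 = true := ex3_b s20_pm_022 s16_pm_022

theorem s22_pm_022 : ∃ t, chk3 f_pm_022 t 1 1 1 = true := ex3_b s21_pm_022 s12_pm_022

theorem c_pm_022 : CertFX 0 536870912 1073741824 536870912 1046898278 26843546 true true false .pp 0 2 2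
    ndF3q0 ndF7q2 pcF2 cut_pm_022 Ext.none :=
  certFX1 (fam := true) (s1 := true) (s2 := false) (a := 0) (b := 2) (c := 2) (cn := .pp) (n1 := ndF3q0) (n2 := ndF7q2) (pc := pcF2) (cut := cut_pm_022) (xt := Ext.none) (P1 := 0) (W1 := 536870912) (P2 := 1073741824) (W2 := 536870912) (P3 := 1046898278) (W3 := 26843546)
    rfl (fun _ => rfl) s22_pm_022

noncomputable def f_pm_023 : ℕ → ℕ → ℕ → ℕ → Bool := onCell 1610612736 536870912 1073741824 536870912 1046898278 26843546
    (rowFX 2 true true false .up 0 2 3 (qsf 0 536870912 1073741824 536870912 3) ndF3q0 ndF7q2 pcF3 Cut.none Ext.none)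

def k0_pm_023 : ∃ t, chk3 f_pm_023 t 1 1 1 = true :=
  ⟨(b (a (b (b (a (c (l 14031584) (l 14018360)) (l 2)) (a (l 14640608) (l 14640608))) (a (b (l 15364072) (l 15964160)) (l 15466456))) (a (b (l 2) (l 15676184)) (l 2))) (b (a (a (b (a (l 16470832) (l 16464376)) (a (b (l 16642640) (l 16454632)) (l 16752528))) (b (l 16464376) (l 16767528))) (a (l 16623576) (a (a (l 16624520) (l 2)) (l 2)))) (a (a (b (a (b (l 16227456) (l 15825504)) (l 16515480)) (a (a (b (l 15472648) (l 15094968)) (l 15429712)) (a (l 15930368) (l 16227456)))) (b (l 16759800) (a (l 16515480) (l 16750392)))) (a (l 16777184) (a (l 16758768) (a (l 16804248) (a (l 16729368) (a (l 16703928) (l 4))))))))), by decide +kernel⟩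

theorem c_pm_023 : CertFX 0 536870912 1073741824 536870912 1046898278 26843546 true true false .up 0 2 3
    ndF3q0 ndF7q2 pcF3 Cut.none Ext.none :=
  certFX2 (fam := true) (s1 := true) (s2 := false) (a := 0) (b := 2) (c := 3) (cn := .up) (n1 := ndF3q0) (n2 := ndF7q2) (pc := pcF3) (cut := Cut.none) (xt := Ext.none) (P1 := 0) (W1 := 536870912) (P2 := 1073741824) (W2 := 536870912) (P3 := 1046898278) (W3 := 26843546)
    rfl (fun _ => rfl) k0_pm_023

noncomputable def f_pm_033 : ℕ → ℕ → ℕ → ℕ → Bool := onCell 1610612736 536870912 0 1230186008 1046898278 26843546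
    (rowFX 2 true true false .pnn 0 3 3 (qsf 0 536870912 0 1230186008 3) ndF3q0 ndF7q3 pcF3 Cut.none Ext.none)

def k0_pm_033 : ∃ t, chk3 f_pm_033 t 2 1 1 = true :=
  ⟨(b (l 1) (b (b (l 1) (a (l 1) (a (l 1) (b (l 1) (a (l 1) (b (l 1) (l 1284224105783))))))) (b (a (l 1) (b (a (b (l 1) (a (l 1) (l 1321804966871))) (b (a (l 1330931810439) (c (l 14873160) (l 14804952))) (a (c (l 14823808) (l 14665840)) (l 14877072)))) (a (b (a (l 1) (c (l 14790800) (l 1049611636519))) (a (c (l 14770024) (l 1223557764119)) (l 981429510711))) (b (a (l 14863056) (l 15457320)) (l 15441840))))) (a (b (a (l 1) (b (a (l 1) (l 1233221464599)) (a (l 1197787984231) (l 14762712)))) (a (b (a (l 1) (l 1216041618087)) (a (c (l 14794224) (l 1270265586983)) (b (l 14957968) (l 15158056)))) (b (a (l 14779600) (l 15403728)) (a (l 15444912) (l 15795152))))) (b (a (b (a (l 1027600433239) (l 15390320)) (a (l 15385880) (l 15750448))) (b (l 15866712) (l 16170528))) (a (b (l 15882928) (l 16207888)) (l 16492824))))))),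 by decide +kernel⟩

def k1_pm_033 : ∃ t, chk3 f_pm_033 t 6 1 1 = true :=
  ⟨(b (l 1) (b (b (a (l 1) (b (a (l 1) (b (l 1360459711207) (c (l 14755464) (l 1060348974903)))) (a (b (l 1362607201031) (c (l 14775544) (l 1059275280455))) (b (c (l 14878648) (l 14791752)) (c (l 15062984) (l 15048224)))))) (a (b (a (b (l 1) (l 1362607207367)) (b (c (l 14712288) (l 1304088263383)) (c (l 14831008) (l 802651111687)))) (a (c (l 1254696555703) (b (l 1015788705127) (l 14921904))) (b (c (l 15034560) (l 15018768)) (l 15300752)))) (b (b (a (c (l 14929760) (l 14804624)) (l 15290272)) (c (l 15348312) (l 15076720))) (a (b (l 15413920) (l 15683248)) (l 15870408))))) (b (a (b (b (a (l 15137216) (l 15596096)) (a (l 15518344) (l 15870080))) (b (l 15872176) (l 16190128))) (b (b (l 16046464) (l 16258088)) (l 16443848))) (b (a (l 16483904) (l 16737872)) (a (l 16738904) (l 16777160)))))), by decide +kernel⟩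

def k2_pm_033 : ∃ t, chk3 f_pm_033 t 7 1 1 = true :=
  ⟨(b (b (a (l 1) (l 4)) (a (a (b (l 1) (b (l 1) (a (c (l 1369050072503) (l 1251475081111)) (c (l 1191345580503) (b (l 14672200) (l 14764392)))))) (a (b (l 1) (a (b (l 1) (b (l 1088266493383) (l 14841328))) (b (c (l 900563096487) (l 865129380807)) (c (l 14915520) (l 14898800))))) (b (l 4) (b (l 4) (c (l 1083636429623) (l 994516092503)))))) (l 4))) (a (b (b (b (a (a (c (l 666822909015) (l 729099843815)) (c (l 15028264) (l 15013088))) (c (a (l 15222008) (l 15425712)) (a (l 15201024) (l 15397064)))) (a (c (a (l 15248856) (l 15448368)) (l 15323088)) (a (l 15623936) (c (l 15814408) (l 15788320))))) (a (b (b (l 15675144) (l 15889456)) (l 16159472)) (a (b (l 16007416) (l 16328104)) (b (l 16135848) (l 16436568))))) (b (a (b (l 16501792) (l 16737904)) (b (l 16513288) (l 16759096))) (a (l 16775968) (b (l 16763952) (l 16749560))))) (b (a (b (a (c (l 1134640605927) (b (l 4) (l 15948568))) (l 4)) (a (c (l 16406680) (l 16309208))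 (b (l 4) (l 4)))) (l 4)) (b (a (c (a (l 16755336) (l 16761728)) (a (l 16753272) (l 16757600))) (l 4)) (a (c (l 16743936) (l 16740208)) (a (l 16724104) (l 4))))))), by decide +kernel⟩

theorem s3_pm_033 : ∃ t, chk3 f_pm_033 t 3 1 1 = true := ex3_a k1_pm_033 k2_pm_033

theorem s4_pm_033 : ∃ t, chk3 f_pm_033 t 1 1 1 = true := ex3_a k0_pm_033 s3_pm_033

theorem c_pm_033 : CertFX 0 536870912 0 1230186008 1046898278 26843546 true true false .pnn 0 3 3
    ndF3q0 ndF7q3 pcF3 Cut.none Ext.none :=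
  certFX2 (fam := true) (s1 := true) (s2 := false) (a := 0) (b := 3) (c := 3) (cn := .pnn) (n1 := ndF3q0) (n2 := ndF7q3) (pc := pcF3) (cut := Cut.none) (xt := Ext.none) (P1 := 0) (W1 := 536870912) (P2 := 0) (W2 := 1230186008) (P3 := 1046898278) (W3 := 26843546)
    rfl (fun _ => rfl) s4_pm_033

noncomputable def f_pm_101 : ℕ → ℕ → ℕ → ℕ → Bool := onCell 536870912 536870912 536870912 536870912 1046898278 26843546
    (rowFX 1 true true false .npn 1 0 1 (qsf 536870912 536870912 0 536870912 1) ndF3q1 ndF7q0 pcF1 Cut.none Ext.none)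

def k0_pm_101 : ∃ t, chk3 f_pm_101 t 1 1 1 = true :=
  ⟨(l 3), by decide +kernel⟩

theorem c_pm_101 : CertFX 536870912 536870912 0 536870912 1046898278 26843546 true true false .npn 1 0 1
    ndF3q1 ndF7q0 pcF1 Cut.none Ext.none :=
  certFX1 (fam := true) (s1 := true) (s2 := false) (a := 1) (b := 0) (c := 1) (cn := .npn) (n1 := ndF3q1) (n2 := ndF7q0) (pc := pcF1) (cut := Cut.none) (xt := Ext.none) (P1 := 536870912) (W1 := 536870912) (P2 := 0) (W2 := 536870912) (P3 := 1046898278) (W3 := 26843546)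
    rfl (fun _ => rfl) k0_pm_101

noncomputable def f_pm_102 : ℕ → ℕ → ℕ → ℕ → Bool := onCell 536870912 536870912 1073741824 536870912 1046898278 26843546
    (rowFX 1 true true false .npp 1 0 2 (qsf 536870912 536870912 0 536870912 2) ndF3q1 ndF7q0 pcF2 Cut.none Ext.none)

def k0_pm_102 : ∃ t, chk3 f_pm_102 t 1 2 1 = true :=
  ⟨(b (b (l 3) (b (l 3) (b (l 3) (b (a (l 3) (l 3)) (a (a (l 16777216) (l 16777216)) (a (a (l 3) (l 3)) (a (a (l 3) (l 15284048)) (a (c (l 14646872) (l 14650384)) (c (l 13974584) (l 896736097319)))))))))) (a (a (b (b (b (b (l 16777208) (l 2)) (l 2)) (l 2)) (l 2)) (b (b (b (b (l 16777208) (a (l 16777136) (l 16777152))) (b (b (l 16774240) (l 16765024)) (b (l 16749672) (l 16738968)))) (l 16747112)) (l 16772624))) (b (b (b (a (b (a (l 16775696) (c (l 16687032) (l 16537888))) (a (l 16775696) (c (l 16624120) (l 16433032)))) (a (b (c (l 15573560) (a (l 15899248) (l 15264904))) (c (l 15447680) (a (l 15899208) (l 15264848)))) (c (a (b (l 14646864) (l 14646808))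 (b (l 13974576) (l 13974504))) (b (a (l 14650376) (c (l 13977648) (l 13980832))) (a (l 14650312) (c (l 13977576) (l 13980760))))))) (b (a (a (b (l 16774128) (l 16765040)) (b (c (l 16688384) (l 16602200)) (l 16672024))) (a (b (c (l 15617520) (a (l 15901104) (l 15267248))) (a (l 15919040) (l 15293928))) (a (b (l 14640912) (l 14649832)) (a (l 14096456) (l 13831848))))) (a (a (b (l 16749824) (l 16738856)) (b (l 16681584) (a (l 16733960) (l 16375640)))) (a (a (b (l 15930408) (l 15812584)) (b (l 15306536) (b (l 15313760) (l 15317200)))) (a (b (l 14663704) (c (l 14680936) (l 14685520))) (b (c (l 14002184) (l 14008392)) (c (l 13928272) (b (l 14016904) (l 14020896))))))))) (a (a (l 16746568) (l 16704376)) (a (a (l 15932600) (l 15308872)) (a (l 14666104) (c (l 14004480) (l 14010784)))))) (a (a (l 16771928) (l 16562840)) (a (a (l 15913816) (l 15287952)) (a (l 14642952) (c (l 13979392) (l 13984904)))))))), by decide +kernel⟩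

def k1_pm_102 : ∃ t, chk3 f_pm_102 t 1 3 1 = true :=
  ⟨(b (a (a (l 2) (l 16777216)) (a (a (l 16775704) (l 16685864)) (a (a (l 15910368) (l 15284048)) (a (l 14638568) (c (l 13974584) (l 13979936)))))) (a (l 2) (a (l 16734776) (a (l 15621664) (a (l 14638568) (l 13983624)))))), by decide +kernel⟩

theorem s2_pm_102 : ∃ t, chk3 f_pm_102 t 1 1 1 = true := ex3_b k0_pm_102 k1_pm_102

theorem c_pm_102 : CertFX 536870912 536870912 0 536870912 1046898278 26843546 true true false .npp 1 0 2
    ndF3q1 ndF7q0 pcF2 Cut.none Ext.none :=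
  certFX1 (fam := true) (s1 := true) (s2 := false) (a := 1) (b := 0) (c := 2) (cn := .npp) (n1 := ndF3q1) (n2 := ndF7q0) (pc := pcF2) (cut := Cut.none) (xt := Ext.none) (P1 := 536870912) (W1 := 536870912) (P2 := 0) (W2 := 536870912) (P3 := 1046898278) (W3 := 26843546)
    rfl (fun _ => rfl) s2_pm_102

noncomputable def f_pm_112 : ℕ → ℕ → ℕ → ℕ → Bool := onCell 1073741824 536870912 536870912 536870912 1046898278 26843546
    (rowFX 2 true true false .dn 1 1 2 (qsf 536870912 536870912 536870912 536870912 2) ndF3q1 ndF7q1 pcF2 Cut.none Ext.none)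

def k0_pm_112 : ∃ t, chk3 f_pm_112 t 1 1 1 = true :=
  ⟨(b (a (a (a (l 3) (a (l 3) (a (b (l 3) (l 1)) (b (c (l 16777200) (l 16777200)) (c (l 1357779084263) (l 1286912117751)))))) (a (a (b (a (c (a (l 16777208) (l 16777192)) (l 16776240)) (a (l 16768288) (a (l 16746856) (l 16736888)))) (b (a (c (l 16478496) (l 16600928)) (a (l 16642016) (a (l 16637792) (l 16636248)))) (l 1))) (b (l 16746080) (l 16319264))) (b (l 16772544) (l 16242584)))) (b (a (b (l 16750864) (l 16776752)) (b (a (b (l 15950920) (l 16440360)) (b (l 14487400) (l 15283416))) (a (l 16734776) (l 16074896)))) (a (l 16453240) (b (l 16618576) (l 16248808))))) (a (a (l 1) (a (l 1) (b (l 664139818471) (l 1)))) (b (b (l 15782128) (l 573408055863)) (b (a (l 557837476247) (l 14550992)) (a (l 1) (l 605081016103)))))), by decide +kernel⟩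

theorem c_pm_112 : CertFX 536870912 536870912 536870912 536870912 1046898278 26843546 true true false .dn 1 1 2
    ndF3q1 ndF7q1 pcF2 Cut.none Ext.none :=
  certFX2 (fam := true) (s1 := true) (s2 := false) (a := 1) (b := 1) (c := 2) (cn := .dn) (n1 := ndF3q1) (n2 := ndF7q1) (pc := pcF2) (cut := Cut.none) (xt := Ext.none) (P1 := 536870912) (W1 := 536870912) (P2 := 536870912) (W2 := 536870912) (P3 := 1046898278) (W3 := 26843546)
    rfl (fun _ => rfl) k0_pm_112

noncomputable def f_pm_113 : ℕ → ℕ → ℕ → ℕ → Bool := onCell 536870912 536870912 536870912 536870912 1046898278 26843546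
    (rowFX 0 true true false .nn 1 1 3 (qsf 536870912 536870912 536870912 536870912 3) ndF3q1 ndF7q1 pcF3 Cut.none Ext.none)

def k0_pm_113 : ∃ t, chk3 f_pm_113 t 1 1 1 = true :=
  ⟨(b (a (b (l 1) (l 568041828071)) (a (b (l 16734776) (l 16412312)) (b (a (l 15621664) (a (l 14638568) (l 13983624))) (a (l 15309960) (a (l 14329984) (l 13676960)))))) (a (b (l 613137087415) (b (l 635683758487) (a (l 14000792) (l 14000792)))) (a (b (l 15464864) (b (l 14512200) (l 13962696))) (b (a (l 14417608) (l 13030312)) (a (b (l 13546992) (l 13078120)) (b (a (l 12733240) (l 12228488)) (a (l 12547904) (b (l 12352504) (a (l 12884216) (b (l 13224408) (a (l 14627056) (b (l 15583528) (a (l 16771904) (b (l 16796040) (a (l 16776120) (b (l 16786760) (l 16776848))))))))))))))))), by decide +kernel⟩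

theorem c_pm_113 : CertFX 536870912 536870912 536870912 536870912 1046898278 26843546 true true false .nn 1 1 3
    ndF3q1 ndF7q1 pcF3 Cut.none Ext.none :=
  certFX0 (fam := true) (s1 := true) (s2 := false) (a := 1) (b := 1) (c := 3) (cn := .nn) (n1 := ndF3q1) (n2 := ndF7q1) (pc := pcF3) (cut := Cut.none) (xt := Ext.none) (P1 := 536870912) (W1 := 536870912) (P2 := 536870912) (W2 := 536870912) (P3 := 1046898278) (W3 := 26843546)
    rfl k0_pm_113

noncomputable def f_pm_123 : ℕ → ℕ → ℕ → ℕ → Bool := onCell 1610612736 536870912 1073741824 536870912 1046898278 26843546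
    (rowFX 2 true true false .npn 1 2 3 (qsf 536870912 536870912 1073741824 536870912 3) ndF3q1 ndF7q2 pcF3 Cut.none Ext.none)

def k0_pm_123 : ∃ t, chk3 f_pm_123 t 1 1 1 = true :=
  ⟨(a (b (b (b (a (l 643735787335) (l 14033576)) (a (l 14640608) (l 14640608))) (a (l 746818287623) (l 15424512))) (b (a (l 1) (l 779032479063)) (l 1))) (a (b (b (b (b (l 13843952) (l 14192872)) (l 14640736)) (l 15676184)) (b (l 16623576) (l 16777184))) (a (b (b (b (b (l 13468944) (l 14139568)) (l 14655456)) (a (l 15677048) (l 15698160))) (b (a (l 16624520) (l 16620576)) (l 16758768))) (b (a (b (b (l 14339152) (l 14818880)) (l 15698784)) (a (b (b (l 14604216) (l 15139224)) (l 15679280)) (b (a (b (l 14837552) (l 15489736)) (a (b (l 15004032) (l 15674912)) (b (b (c (l 16638600) (l 14908904)) (l 16272184)) (a (l 15717552) (l 15756272))))) (a (l 15664840) (a (l 15667560) (a (l 15677136) (l 15696552))))))) (a (b (l 16598160) (l 16741336)) (a (b (l 16589136) (l 16729368)) (a (b (l 16574944) (l 16703928))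 (b (a (l 16556296) (l 4)) (l 4))))))))), by decide +kernel⟩

theorem c_pm_123 : CertFX 536870912 536870912 1073741824 536870912 1046898278 26843546 true true false .npn 1 2 3
    ndF3q1 ndF7q2 pcF3 Cut.none Ext.none :=
  certFX2 (fam := true) (s1 := true) (s2 := false) (a := 1) (b := 2) (c := 3) (cn := .npn) (n1 := ndF3q1) (n2 := ndF7q2) (pc := pcF3) (cut := Cut.none) (xt := Ext.none) (P1 := 536870912) (W1 := 536870912) (P2 := 1073741824) (W2 := 536870912) (P3 := 1046898278) (W3 := 26843546)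
    rfl (fun _ => rfl) k0_pm_123

noncomputable def f_pm_133 : ℕ → ℕ → ℕ → ℕ → Bool := onCell 536870912 536870912 0 1230186008 1046898278 26843546
    (rowFX 0 true true false .dn 1 3 3 (qsf 536870912 536870912 0 1230186008 3) ndF3q1 ndF7q3 pcF3 Cut.none Ext.none)

def k0_pm_133 : ∃ t, chk3 f_pm_133 t 1 1 1 = true :=
  ⟨(b (l 2) (b (l 2) (a (b (l 2) (l 4)) (l 2)))), by decide +kernel⟩

theorem c_pm_133 : CertFX 536870912 536870912 0 1230186008 1046898278 26843546 true true false .dn 1 3 3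
    ndF3q1 ndF7q3 pcF3 Cut.none Ext.none :=
  certFX0 (fam := true) (s1 := true) (s2 := false) (a := 1) (b := 3) (c := 3) (cn := .dn) (n1 := ndF3q1) (n2 := ndF7q3) (pc := pcF3) (cut := Cut.none) (xt := Ext.none) (P1 := 536870912) (W1 := 536870912) (P2 := 0) (W2 := 1230186008) (P3 := 1046898278) (W3 := 26843546)
    rfl k0_pm_133

noncomputable def f_pm_202 : ℕ → ℕ → ℕ → ℕ → Bool := onCell 1073741824 536870912 1073741824 536870912 1046898278 26843546
    (rowFX 1 true true false .pp 2 0 2 (qsf 1073741824 536870912 0 536870912 2) ndF3q2 ndF7q0 pcF2 Cut.none Ext.none)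

def k0_pm_202 : ∃ t, chk3 f_pm_202 t 1 4 1 = true :=
  ⟨(a (a (b (b (a (c (a (a (l 14048504) (l 14143376)) (l 14220232)) (a (c (a (a (l 13956984) (l 14006704)) (l 14048488)) (a (b (a (l 13881720) (l 13922176)) (a (l 13936880) (l 13977184))) (b (l 13982336) (l 14037048)))) (c (l 14158368) (a (l 14096072) (l 1))))) (l 1)) (a (c (a (a (l 14154760) (l 14249496)) (c (l 14337448) (l 14305240))) (c (a (a (l 14098576) (l 14167432)) (l 14276440)) (a (a (l 14044784) (l 14124568)) (l 14247504)))) (a (a (b (l 1) (l 14378240)) (l 1)) (l 1)))) (a (b (a (c (b (l 14294480) (l 14321160)) (b (l 13989760) (a (l 14182280) (l 14259896)))) (c (l 14435752) (b (l 14352696) (l 14373856)))) (a (c (l 14293432) (a (l 14145384) (l 14223360))) (c (l 14422600) (l 14338072)))) (b (c (a (l 14457864) (l 14320312)) (a (b (l 14401688) (l 14423072)) (b (l 1) (l 14327960)))) (a (l 14398080) (c (l 14358088) (l 14295672)))))) (b (l 1) (a (b (l 1) (a (l 14177672) (l 1))) (l 1)))) (l 1)), by decide +kernel⟩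

def k1_pm_202 : ∃ t, chk3 f_pm_202 t 1 5 1 = true :=
  ⟨(a (a (b (a (b (b (a (c (l 14309504) (l 14199512)) (l 14401600)) (a (c (l 14465136) (l 14358792)) (l 14559288))) (a (c (l 14834592) (l 14737976)) (c (l 14964240) (l 14892464)))) (b (b (c (l 14408984) (l 14347248)) (c (l 14565000) (l 14507128))) (c (l 14930120) (l 14860496)))) (b (a (a (a (l 14954688) (l 15266024)) (l 15309800)) (c (l 15339392) (l 15301128))) (a (c (l 15522000) (l 15392632)) (c (l 15589632) (l 15557792))))) (b (a (b (b (a (l 14204008) (l 1)) (a (l 14362672) (l 14639728))) (a (l 14728712) (l 15003496))) (b (l 1) (a (l 15445392) (l 1)))) (a (b (a (l 15137160) (l 15407696)) (a (l 15388608) (l 15657688))) (b (a (l 15845328) (l 16059768)) (a (l 16093912) (l 16307104)))))) (b (l 1) (b (l 1) (a (l 16276904) (l 1))))), by decide +kernel⟩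

def k2_pm_202 : ∃ t, chk3 f_pm_202 t 1 3 1 = true :=
  ⟨(b (a (a (b (a (c (a (l 15698872) (l 15829560)) (a (l 15627168) (l 15780992))) (c (l 15794664) (l 15768232))) (a (c (l 15835096) (l 15907040)) (c (l 16002680) (l 15982504)))) (b (a (a (l 15476392) (l 15875600)) (a (l 16253472) (l 16534552))) (a (a (l 15820320) (l 16098624)) (c (l 16660704) (l 16657664))))) (a (b (c (l 16522416) (l 16516112)) (c (l 16768184) (l 16767960))) (b (l 1) (l 462816539255)))) (a (a (a (b (c (l 15947328) (l 15914688)) (c (l 15947328) (l 15914688))) (b (c (l 16010400) (l 15990480)) (l 16000440))) (b (a (c (l 15980872) (l 15960184)) (c (l 16669208) (l 16666400))) (l 4))) (b (c (l 16777216) (l 16777216)) (l 4)))), by decide +kernel⟩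

theorem s3_pm_202 : ∃ t, chk3 f_pm_202 t 1 2 1 = true := ex3_b k0_pm_202 k1_pm_202

theorem s4_pm_202 : ∃ t, chk3 f_pm_202 t 1 1 1 = true := ex3_b s3_pm_202 k2_pm_202

theorem c_pm_202 : CertFX 1073741824 536870912 0 536870912 1046898278 26843546 true true false .pp 2 0 2
    ndF3q2 ndF7q0 pcF2 Cut.none Ext.none :=
  certFX1 (fam := true) (s1 := true) (s2 := false) (a := 2) (b := 0) (c := 2) (cn := .pp) (n1 := ndF3q2) (n2 := ndF7q0) (pc := pcF2) (cut := Cut.none) (xt := Ext.none) (P1 := 1073741824) (W1 := 536870912) (P2 := 0) (W2 := 536870912) (P3 := 1046898278) (W3 := 26843546)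
    rfl (fun _ => rfl) s4_pm_202

noncomputable def f_pm_203 : ℕ → ℕ → ℕ → ℕ → Bool := onCell 1073741824 536870912 1610612736 536870912 1046898278 26843546
    (rowFX 1 true true false .up 2 0 3 (qsf 1073741824 536870912 0 536870912 3) ndF3q2 ndF7q0 pcF3 Cut.none Ext.none)

def k0_pm_203 : ∃ t, chk3 f_pm_203 t 1 1 1 = true :=
  ⟨(b (a (l 4) (l 4)) (l 4)), by decide +kernel⟩

theorem c_pm_203 : CertFX 1073741824 536870912 0 536870912 1046898278 26843546 true true false .up 2 0 3
    ndF3q2 ndF7q0 pcF3 Cut.none Ext.none :=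
  certFX1 (fam := true) (s1 := true) (s2 := false) (a := 2) (b := 0) (c := 3) (cn := .up) (n1 := ndF3q2) (n2 := ndF7q0) (pc := pcF3) (cut := Cut.none) (xt := Ext.none) (P1 := 1073741824) (W1 := 536870912) (P2 := 0) (W2 := 536870912) (P3 := 1046898278) (W3 := 26843546)
    rfl (fun _ => rfl) k0_pm_203

noncomputable def f_pm_213 : ℕ → ℕ → ℕ → ℕ → Bool := onCell 1073741824 536870912 1610612736 536870912 1046898278 26843546
    (rowFX 1 true true false .pnn 2 1 3 (qsf 1073741824 536870912 536870912 536870912 3) ndF3q2 ndF7q1 pcF3 Cut.none Ext.none)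

def k0_pm_213 : ∃ t, chk3 f_pm_213 t 1 1 1 = true :=
  ⟨(b (a (l 4) (l 4)) (l 4)), by decide +kernel⟩

theorem c_pm_213 : CertFX 1073741824 536870912 536870912 536870912 1046898278 26843546 true true false .pnn 2 1 3
    ndF3q2 ndF7q1 pcF3 Cut.none Ext.none :=
  certFX1 (fam := true) (s1 := true) (s2 := false) (a := 2) (b := 1) (c := 3) (cn := .pnn) (n1 := ndF3q2) (n2 := ndF7q1) (pc := pcF3) (cut := Cut.none) (xt := Ext.none) (P1 := 1073741824) (W1 := 536870912) (P2 := 536870912) (W2 := 536870912) (P3 := 1046898278) (W3 := 26843546)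
    rfl (fun _ => rfl) k0_pm_213

noncomputable def f_pm_303 : ℕ → ℕ → ℕ → ℕ → Bool := onCell 1610612736 536870912 0 536870912 1046898278 26843546
    (rowFX 0 true true false .npn 3 0 3 (qsf 1610612736 536870912 0 536870912 3) ndF3q3 ndF7q0 pcF3 Cut.none Ext.none)

def k0_pm_303 : ∃ t, chk3 f_pm_303 t 1 1 1 = true :=
  ⟨(l 4), by decide +kernel⟩

theorem c_pm_303 : CertFX 1610612736 536870912 0 536870912 1046898278 26843546 true true false .npn 3 0 3
    ndF3q3 ndF7q0 pcF3 Cut.none Ext.none :=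
  certFX0 (fam := true) (s1 := true) (s2 := false) (a := 3) (b := 0) (c := 3) (cn := .npn) (n1 := ndF3q3) (n2 := ndF7q0) (pc := pcF3) (cut := Cut.none) (xt := Ext.none) (P1 := 1610612736) (W1 := 536870912) (P2 := 0) (W2 := 536870912) (P3 := 1046898278) (W3 := 26843546)
    rfl k0_pm_303

noncomputable def f_pm_313 : ℕ → ℕ → ℕ → ℕ → Bool := onCell 1610612736 536870912 536870912 536870912 1046898278 26843546
    (rowFX 0 true true false .dn 3 1 3 (qsf 1610612736 536870912 536870912 536870912 3) ndF3q3 ndF7q1 pcF3 Cut.none Ext.none)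

def k0_pm_313 : ∃ t, chk3 f_pm_313 t 1 1 1 = true :=
  ⟨(l 4), by decide +kernel⟩

theorem c_pm_313 : CertFX 1610612736 536870912 536870912 536870912 1046898278 26843546 true true false .dn 3 1 3
    ndF3q3 ndF7q1 pcF3 Cut.none Ext.none :=
  certFX0 (fam := true) (s1 := true) (s2 := false) (a := 3) (b := 1) (c := 3) (cn := .dn) (n1 := ndF3q3) (n2 := ndF7q1) (pc := pcF3) (cut := Cut.none) (xt := Ext.none) (P1 := 1610612736) (W1 := 536870912) (P2 := 536870912) (W2 := 536870912) (P3 := 1046898278) (W3 := 26843546)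
    rfl k0_pm_313

noncomputable def f_mm_001 : ℕ → ℕ → ℕ → ℕ → Bool := onCell 0 536870912 0 536870912 1046898278 26843546
    (rowFX 0 true false false .up 0 0 1 (qsf 0 536870912 0 536870912 1) ndF3q0 ndF7q0 pcF1 Cut.none Ext.none)

def k0_mm_001 : ∃ t, chk3 f_mm_001 t 1 1 1 = true :=
  ⟨(l 4), by decide +kernel⟩

theorem c_mm_001 : CertFX 0 536870912 0 536870912 1046898278 26843546 true false false .up 0 0 1
    ndF3q0 ndF7q0 pcF1 Cut.none Ext.none :=
  certFX0 (fam := true) (s1 := false) (s2 := false) (a := 0) (b := 0) (c := 1) (cn := .up) (n1 := ndF3q0) (n2 := ndF7q0) (pc := pcF1) (cut := Cut.none) (xt := Ext.none) (P1 := 0) (W1 := 536870912) (P2 := 0) (W2 := 536870912) (P3 := 1046898278) (W3 := 26843546)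
    rfl k0_mm_001

noncomputable def f_mm_011 : ℕ → ℕ → ℕ → ℕ → Bool := onCell 0 536870912 536870912 536870912 1046898278 26843546
    (rowFX 0 true false false .pnn 0 1 1 (qsf 0 536870912 536870912 536870912 1) ndF3q0 ndF7q1 pcF1 Cut.none Ext.none)

def k0_mm_011 : ∃ t, chk3 f_mm_011 t 1 1 1 = true :=
  ⟨(l 4), by decide +kernel⟩

theorem c_mm_011 : CertFX 0 536870912 536870912 536870912 1046898278 26843546 true false false .pnn 0 1 1
    ndF3q0 ndF7q1 pcF1 Cut.none Ext.none :=
  certFX0 (fam := true) (s1 := false) (s2 := false) (a := 0) (b := 1) (c := 1) (cn := .pnn) (n1 := ndF3q0) (n2 := ndF7q1) (pc := pcF1) (cut := Cut.none) (xt := Ext.none) (P1 := 0) (W1 := 536870912) (P2 := 536870912) (W2 := 536870912) (P3 := 1046898278) (W3 := 26843546)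
    rfl k0_mm_011

noncomputable def f_mm_012 : ℕ → ℕ → ℕ → ℕ → Bool := onCell 0 536870912 536870912 536870912 1046898278 26843546
    (rowFX 0 true false false .pnp 0 1 2 (qsf 0 536870912 536870912 536870912 2) ndF3q0 ndF7q1 pcF2 Cut.none Ext.none)

def k0_mm_012 : ∃ t, chk3 f_mm_012 t 1 1 1 = true :=
  ⟨(l 4), by decide +kernel⟩

theorem c_mm_012 : CertFX 0 536870912 536870912 536870912 1046898278 26843546 true false false .pnp 0 1 2
    ndF3q0 ndF7q1 pcF2 Cut.none Ext.none :=
  certFX0 (fam := true) (s1 := false) (s2 := false) (a := 0) (b := 1) (c := 2) (cn := .pnp) (n1 := ndF3q0) (n2 := ndF7q1) (pc := pcF2) (cut := Cut.none) (xt := Ext.none) (P1 := 0) (W1 := 536870912) (P2 := 536870912) (W2 := 536870912) (P3 := 1046898278) (W3 := 26843546)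
    rfl k0_mm_012

noncomputable def f_mm_022 : ℕ → ℕ → ℕ → ℕ → Bool := onCell 0 536870912 1073741824 536870912 1046898278 26843546
    (rowFX 0 true false false .pp 0 2 2 (qsf 0 536870912 1073741824 536870912 2) ndF3q0 ndF7q2 pcF2 Cut.none Ext.none)

def k0_mm_022 : ∃ t, chk3 f_mm_022 t 1 1 1 = true :=
  ⟨(l 4), by decide +kernel⟩

theorem c_mm_022 : CertFX 0 536870912 1073741824 536870912 1046898278 26843546 true false false .pp 0 2 2
    ndF3q0 ndF7q2 pcF2 Cut.none Ext.none :=
  certFX0 (fam := true) (s1 := false) (s2 := false) (a := 0) (b := 2) (c := 2) (cn := .pp) (n1 := ndF3q0) (n2 := ndF7q2) (pc := pcF2) (cut := Cut.none) (xt := Ext.none) (P1 := 0) (W1 := 536870912) (P2 := 1073741824) (W2 := 536870912) (P3 := 1046898278) (W3 := 26843546)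
    rfl k0_mm_022

noncomputable def f_mm_023 : ℕ → ℕ → ℕ → ℕ → Bool := onCell 0 536870912 1073741824 536870912 1046898278 26843546
    (rowFX 0 true false false .up 0 2 3 (qsf 0 536870912 1073741824 536870912 3) ndF3q0 ndF7q2 pcF3 Cut.none Ext.none)

def k0_mm_023 : ∃ t, chk3 f_mm_023 t 1 1 1 = true :=
  ⟨(l 4), by decide +kernel⟩

theorem c_mm_023 : CertFX 0 536870912 1073741824 536870912 1046898278 26843546 true false false .up 0 2 3
    ndF3q0 ndF7q2 pcF3 Cut.none Ext.none :=
  certFX0 (fam := true) (s1 := false) (s2 := false) (a := 0) (b := 2) (c := 3) (cn := .up) (n1 := ndF3q0) (n2 := ndF7q2) (pc := pcF3) (cut := Cut.none) (xt := Ext.none) (P1 := 0) (W1 := 536870912) (P2 := 1073741824) (W2 := 536870912) (P3 := 1046898278) (W3 := 26843546)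
    rfl k0_mm_023

noncomputable def f_mm_033 : ℕ → ℕ → ℕ → ℕ → Bool := onCell 0 536870912 0 1230186008 1046898278 26843546
    (rowFX 0 true false false .pnn 0 3 3 (qsf 0 536870912 0 1230186008 3) ndF3q0 ndF7q3 pcF3 Cut.none Ext.none)

def k0_mm_033 : ∃ t, chk3 f_mm_033 t 1 1 1 = true :=
  ⟨(l 5), by decide +kernel⟩

theorem c_mm_033 : CertFX 0 536870912 0 1230186008 1046898278 26843546 true false false .pnn 0 3 3
    ndF3q0 ndF7q3 pcF3 Cut.none Ext.none :=
  certFX0 (fam := true) (s1 := false) (s2 := false) (a := 0) (b := 3) (c := 3) (cn := .pnn) (n1 := ndF3q0) (n2 := ndF7q3) (pc := pcF3) (cut := Cut.none) (xt := Ext.none) (P1 := 0) (W1 := 536870912) (P2 := 0) (W2 := 1230186008) (P3 := 1046898278) (W3 := 26843546)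
    rfl k0_mm_033

noncomputable def f_mm_101 : ℕ → ℕ → ℕ → ℕ → Bool := onCell 536870912 536870912 0 536870912 1046898278 26843546
    (rowFX 0 true false false .npn 1 0 1 (qsf 536870912 536870912 0 536870912 1) ndF3q1 ndF7q0 pcF1 Cut.none Ext.none)

def k0_mm_101 : ∃ t, chk3 f_mm_101 t 1 1 1 = true :=
  ⟨(l 4), by decide +kernel⟩

theorem c_mm_101 : CertFX 536870912 536870912 0 536870912 1046898278 26843546 true false false .npn 1 0 1
    ndF3q1 ndF7q0 pcF1 Cut.none Ext.none :=
  certFX0 (fam := true) (s1 := false) (s2 := false) (a := 1) (b := 0) (c := 1) (cn := .npn) (n1 := ndF3q1) (n2 := ndF7q0) (pc := pcF1) (cut := Cut.none) (xt := Ext.none) (P1 := 536870912) (W1 := 536870912) (P2 := 0) (W2 := 536870912) (P3 := 1046898278) (W3 := 26843546)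
    rfl k0_mm_101

noncomputable def f_mm_102 : ℕ → ℕ → ℕ → ℕ → Bool := onCell 536870912 536870912 0 536870912 1046898278 26843546
    (rowFX 0 true false false .npp 1 0 2 (qsf 536870912 536870912 0 536870912 2) ndF3q1 ndF7q0 pcF2 Cut.none Ext.none)

def k0_mm_102 : ∃ t, chk3 f_mm_102 t 1 1 1 = true :=
  ⟨(l 4), by decide +kernel⟩

theorem c_mm_102 : CertFX 536870912 536870912 0 536870912 1046898278 26843546 true false false .npp 1 0 2
    ndF3q1 ndF7q0 pcF2 Cut.none Ext.none :=
  certFX0 (fam := true) (s1 := false) (s2 := false) (a := 1) (b := 0) (c := 2) (cn := .npp) (n1 := ndF3q1) (n2 := ndF7q0) (pc := pcF2) (cut := Cut.none) (xt := Ext.none) (P1 := 536870912) (W1 := 536870912) (P2 := 0) (W2 := 536870912) (P3 := 1046898278) (W3 := 26843546)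
    rfl k0_mm_102

noncomputable def f_mm_112 : ℕ → ℕ → ℕ → ℕ → Bool := onCell 536870912 536870912 536870912 536870912 1046898278 26843546
    (rowFX 0 true false false .dn 1 1 2 (qsf 536870912 536870912 536870912 536870912 2) ndF3q1 ndF7q1 pcF2 Cut.none Ext.none)

def k0_mm_112 : ∃ t, chk3 f_mm_112 t 1 1 1 = true :=
  ⟨(l 4), by decide +kernel⟩

theorem c_mm_112 : CertFX 536870912 536870912 536870912 536870912 1046898278 26843546 true false false .dn 1 1 2
    ndF3q1 ndF7q1 pcF2 Cut.none Ext.none :=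
  certFX0 (fam := true) (s1 := false) (s2 := false) (a := 1) (b := 1) (c := 2) (cn := .dn) (n1 := ndF3q1) (n2 := ndF7q1) (pc := pcF2) (cut := Cut.none) (xt := Ext.none) (P1 := 536870912) (W1 := 536870912) (P2 := 536870912) (W2 := 536870912) (P3 := 1046898278) (W3 := 26843546)
    rfl k0_mm_112

noncomputable def f_mm_113 : ℕ → ℕ → ℕ → ℕ → Bool := onCell 536870912 536870912 536870912 536870912 1046898278 26843546
    (rowFX 0 true false false .nn 1 1 3 (qsf 536870912 536870912 536870912 536870912 3) ndF3q1 ndF7q1 pcF3 Cut.none Ext.none)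

def k0_mm_113 : ∃ t, chk3 f_mm_113 t 1 1 1 = true :=
  ⟨(l 4), by decide +kernel⟩

theorem c_mm_113 : CertFX 536870912 536870912 536870912 536870912 1046898278 26843546 true false false .nn 1 1 3
    ndF3q1 ndF7q1 pcF3 Cut.none Ext.none :=
  certFX0 (fam := true) (s1 := false) (s2 := false) (a := 1) (b := 1) (c := 3) (cn := .nn) (n1 := ndF3q1) (n2 := ndF7q1) (pc := pcF3) (cut := Cut.none) (xt := Ext.none) (P1 := 536870912) (W1 := 536870912) (P2 := 536870912) (W2 := 536870912) (P3 := 1046898278) (W3 := 26843546)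
    rfl k0_mm_113

noncomputable def f_mm_123 : ℕ → ℕ → ℕ → ℕ → Bool := onCell 536870912 536870912 1073741824 536870912 1046898278 26843546
    (rowFX 0 true false false .npn 1 2 3 (qsf 536870912 536870912 1073741824 536870912 3) ndF3q1 ndF7q2 pcF3 Cut.none Ext.none)

def k0_mm_123 : ∃ t, chk3 f_mm_123 t 1 1 1 = true :=
  ⟨(l 4), by decide +kernel⟩

theorem c_mm_123 : CertFX 536870912 536870912 1073741824 536870912 1046898278 26843546 true false false .npn 1 2 3
    ndF3q1 ndF7q2 pcF3 Cut.none Ext.none :=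
  certFX0 (fam := true) (s1 := false) (s2 := false) (a := 1) (b := 2) (c := 3) (cn := .npn) (n1 := ndF3q1) (n2 := ndF7q2) (pc := pcF3) (cut := Cut.none) (xt := Ext.none) (P1 := 536870912) (W1 := 536870912) (P2 := 1073741824) (W2 := 536870912) (P3 := 1046898278) (W3 := 26843546)
    rfl k0_mm_123

noncomputable def f_mm_133 : ℕ → ℕ → ℕ → ℕ → Bool := onCell 536870912 536870912 0 1230186008 1046898278 26843546
    (rowFX 0 true false false .dn 1 3 3 (qsf 536870912 536870912 0 1230186008 3) ndF3q1 ndF7q3 pcF3 Cut.none Ext.none)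

def k0_mm_133 : ∃ t, chk3 f_mm_133 t 1 1 1 = true :=
  ⟨(l 4), by decide +kernel⟩

theorem c_mm_133 : CertFX 536870912 536870912 0 1230186008 1046898278 26843546 true false false .dn 1 3 3
    ndF3q1 ndF7q3 pcF3 Cut.none Ext.none :=
  certFX0 (fam := true) (s1 := false) (s2 := false) (a := 1) (b := 3) (c := 3) (cn := .dn) (n1 := ndF3q1) (n2 := ndF7q3) (pc := pcF3) (cut := Cut.none) (xt := Ext.none) (P1 := 536870912) (W1 := 536870912) (P2 := 0) (W2 := 1230186008) (P3 := 1046898278) (W3 := 26843546)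
    rfl k0_mm_133

noncomputable def f_mm_202 : ℕ → ℕ → ℕ → ℕ → Bool := onCell 1073741824 536870912 0 536870912 1046898278 26843546
    (rowFX 0 true false false .pp 2 0 2 (qsf 1073741824 536870912 0 536870912 2) ndF3q2 ndF7q0 pcF2 Cut.none Ext.none)

def k0_mm_202 : ∃ t, chk3 f_mm_202 t 1 1 1 = true :=
  ⟨(l 4), by decide +kernel⟩

theorem c_mm_202 : CertFX 1073741824 536870912 0 536870912 1046898278 26843546 true false false .pp 2 0 2
    ndF3q2 ndF7q0 pcF2 Cut.none Ext.none :=
  certFX0 (fam := true) (s1 := false) (s2 := false) (a := 2) (b := 0) (c := 2) (cn := .pp) (n1 := ndF3q2) (n2 := ndF7q0) (pc := pcF2) (cut := Cut.none) (xt := Ext.none) (P1 := 1073741824) (W1 := 536870912) (P2 := 0) (W2 := 536870912) (P3 := 1046898278) (W3 := 26843546)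
    rfl k0_mm_202

noncomputable def f_mm_203 : ℕ → ℕ → ℕ → ℕ → Bool := onCell 1073741824 536870912 0 536870912 1046898278 26843546
    (rowFX 0 true false false .up 2 0 3 (qsf 1073741824 536870912 0 536870912 3) ndF3q2 ndF7q0 pcF3 Cut.none Ext.none)

def k0_mm_203 : ∃ t, chk3 f_mm_203 t 1 1 1 = true :=
  ⟨(l 4), by decide +kernel⟩

theorem c_mm_203 : CertFX 1073741824 536870912 0 536870912 1046898278 26843546 true false false .up 2 0 3
    ndF3q2 ndF7q0 pcF3 Cut.none Ext.none :=
  certFX0 (fam := true) (s1 := false) (s2 := false) (a := 2) (b := 0) (c := 3) (cn := .up) (n1 := ndF3q2) (n2 := ndF7q0) (pc := pcF3) (cut := Cut.none) (xt := Ext.none) (P1 := 1073741824) (W1 := 536870912) (P2 := 0) (W2 := 536870912) (P3 := 1046898278) (W3 := 26843546)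
    rfl k0_mm_203

noncomputable def f_mm_213 : ℕ → ℕ → ℕ → ℕ → Bool := onCell 1073741824 536870912 536870912 536870912 1046898278 26843546
    (rowFX 0 true false false .pnn 2 1 3 (qsf 1073741824 536870912 536870912 536870912 3) ndF3q2 ndF7q1 pcF3 Cut.none Ext.none)

def k0_mm_213 : ∃ t, chk3 f_mm_213 t 1 1 1 = true :=
  ⟨(l 4), by decide +kernel⟩

theorem c_mm_213 : CertFX 1073741824 536870912 536870912 536870912 1046898278 26843546 true false false .pnn 2 1 3
    ndF3q2 ndF7q1 pcF3 Cut.none Ext.none :=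
  certFX0 (fam := true) (s1 := false) (s2 := false) (a := 2) (b := 1) (c := 3) (cn := .pnn) (n1 := ndF3q2) (n2 := ndF7q1) (pc := pcF3) (cut := Cut.none) (xt := Ext.none) (P1 := 1073741824) (W1 := 536870912) (P2 := 536870912) (W2 := 536870912) (P3 := 1046898278) (W3 := 26843546)
    rfl k0_mm_213

noncomputable def f_mm_303 : ℕ → ℕ → ℕ → ℕ → Bool := onCell 1610612736 536870912 0 536870912 1046898278 26843546
    (rowFX 0 true false false .npn 3 0 3 (qsf 1610612736 536870912 0 536870912 3) ndF3q3 ndF7q0 pcF3 Cut.none Ext.none)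

def k0_mm_303 : ∃ t, chk3 f_mm_303 t 1 1 1 = true :=
  ⟨(l 4), by decide +kernel⟩

theorem c_mm_303 : CertFX 1610612736 536870912 0 536870912 1046898278 26843546 true false false .npn 3 0 3
    ndF3q3 ndF7q0 pcF3 Cut.none Ext.none :=
  certFX0 (fam := true) (s1 := false) (s2 := false) (a := 3) (b := 0) (c := 3) (cn := .npn) (n1 := ndF3q3) (n2 := ndF7q0) (pc := pcF3) (cut := Cut.none) (xt := Ext.none) (P1 := 1610612736) (W1 := 536870912) (P2 := 0) (W2 := 536870912) (P3 := 1046898278) (W3 := 26843546)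
    rfl k0_mm_303

noncomputable def f_mm_313 : ℕ → ℕ → ℕ → ℕ → Bool := onCell 1610612736 536870912 536870912 536870912 1046898278 26843546
    (rowFX 0 true false false .dn 3 1 3 (qsf 1610612736 536870912 536870912 536870912 3) ndF3q3 ndF7q1 pcF3 Cut.none Ext.none)

def k0_mm_313 : ∃ t, chk3 f_mm_313 t 1 1 1 = true :=
  ⟨(l 4), by decide +kernel⟩

theorem c_mm_313 : CertFX 1610612736 536870912 536870912 536870912 1046898278 26843546 true false false .dn 3 1 3
    ndF3q3 ndF7q1 pcF3 Cut.none Ext.none :=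
  certFX0 (fam := true) (s1 := false) (s2 := false) (a := 3) (b := 1) (c := 3) (cn := .dn) (n1 := ndF3q3) (n2 := ndF7q1) (pc := pcF3) (cut := Cut.none) (xt := Ext.none) (P1 := 1610612736) (W1 := 536870912) (P2 := 536870912) (W2 := 536870912) (P3 := 1046898278) (W3 := 26843546)
    rfl k0_mm_313

end Pool.Agent.Strip051.G.IE1.Tab.C.FA37

namespace Pool.Agent.Strip051.G.IE1.Tab.C.FA44

open Pool.Agent.Strip051.PB Pool.Agent.Strip051.PB.T
open Pool.Agent.Strip051.G.IE1.Tab

noncomputable def f_pp_001 : ℕ → ℕ → ℕ → ℕ → Bool := onCell 0 67108864 0 67108864 1046898278 26843546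
    (rowFX 0 true true true .up 0 0 1 (qsf 0 67108864 0 67108864 1) ndF4q0 ndF4q0 pcF1 Cut.none Ext.none)

def k0_pp_001 : ∃ t, chk3 f_pp_001 t 1 1 1 = true :=
  ⟨(l 1), by decide +kernel⟩

theorem c_pp_001 : CertFX 0 67108864 0 67108864 1046898278 26843546 true true true .up 0 0 1
    ndF4q0 ndF4q0 pcF1 Cut.none Ext.none :=
  certFX0 (fam := true) (s1 := true) (s2 := true) (a := 0) (b := 0) (c := 1) (cn := .up) (n1 := ndF4q0) (n2 := ndF4q0) (pc := pcF1) (cut := Cut.none) (xt := Ext.none) (P1 := 0) (W1 := 67108864) (P2 := 0) (W2 := 67108864) (P3 := 1046898278) (W3 := 26843546)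
    rfl k0_pp_001

noncomputable def f_pm_001 : ℕ → ℕ → ℕ → ℕ → Bool := onCell 0 67108864 0 67108864 1046898278 26843546
    (rowFX 0 true true false .up 0 0 1 (qsf 0 67108864 0 67108864 1) ndF4q0 ndF4q0 pcF1 Cut.none Ext.none)

def k0_pm_001 : ∃ t, chk3 f_pm_001 t 1 1 1 = true :=
  ⟨(l 1), by decide +kernel⟩

theorem c_pm_001 : CertFX 0 67108864 0 67108864 1046898278 26843546 true true false .up 0 0 1
    ndF4q0 ndF4q0 pcF1 Cut.none Ext.none :=
  certFX0 (fam := true) (s1 := true) (s2 := false) (a := 0) (b := 0) (c := 1) (cn := .up) (n1 := ndF4q0) (n2 := ndF4q0) (pc := pcF1) (cut := Cut.none) (xt := Ext.none) (P1 := 0) (W1 := 67108864) (P2 := 0) (W2 := 67108864) (P3 := 1046898278) (W3 := 26843546)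
    rfl k0_pm_001

noncomputable def f_mm_001 : ℕ → ℕ → ℕ → ℕ → Bool := onCell 0 67108864 0 67108864 1046898278 26843546
    (rowFX 0 true false false .up 0 0 1 (qsf 0 67108864 0 67108864 1) ndF4q0 ndF4q0 pcF1 Cut.none Ext.none)

def k0_mm_001 : ∃ t, chk3 f_mm_001 t 1 1 1 = true :=
  ⟨(l 1), by decide +kernel⟩

theorem c_mm_001 : CertFX 0 67108864 0 67108864 1046898278 26843546 true false false .up 0 0 1
    ndF4q0 ndF4q0 pcF1 Cut.none Ext.none :=
  certFX0 (fam := true) (s1 := false) (s2 := false) (a := 0) (b := 0) (c := 1) (cn := .up) (n1 := ndF4q0) (n2 := ndF4q0) (pc := pcF1) (cut := Cut.none) (xt := Ext.none) (P1 := 0) (W1 := 67108864) (P2 := 0) (W2 := 67108864) (P3 := 1046898278) (W3 := 26843546)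
    rfl k0_mm_001

end Pool.Agent.Strip051.G.IE1.Tab.C.FA44

namespace Pool.Agent.Strip051.G.IE1.Tab.C.FA45

open Pool.Agent.Strip051.PB Pool.Agent.Strip051.PB.T
open Pool.Agent.Strip051.G.IE1.Tab

noncomputable def f_pp_001 : ℕ → ℕ → ℕ → ℕ → Bool := onCell 0 67108864 0 536870912 1046898278 26843546
    (rowFX 0 true true true .up 0 0 1 (qsf 0 67108864 0 536870912 1) ndF4q0 ndF5q0 pcF1 Cut.none Ext.none)

def k0_pp_001 : ∃ t, chk3 f_pp_001 t 1 1 1 = true :=
  ⟨(l 4), by decide +kernel⟩

theorem c_pp_001 : CertFX 0 67108864 0 536870912 1046898278 26843546 true true true .up 0 0 1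
    ndF4q0 ndF5q0 pcF1 Cut.none Ext.none :=
  certFX0 (fam := true) (s1 := true) (s2 := true) (a := 0) (b := 0) (c := 1) (cn := .up) (n1 := ndF4q0) (n2 := ndF5q0) (pc := pcF1) (cut := Cut.none) (xt := Ext.none) (P1 := 0) (W1 := 67108864) (P2 := 0) (W2 := 536870912) (P3 := 1046898278) (W3 := 26843546)
    rfl k0_pp_001

noncomputable def f_pp_011 : ℕ → ℕ → ℕ → ℕ → Bool := onCell 0 67108864 536870912 469762048 1046898278 26843546
    (rowFX 0 true true true .pnn 0 1 1 (qsf 0 67108864 536870912 469762048 1) ndF4q0 ndF5q1 pcF1 Cut.none Ext.none)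

def k0_pp_011 : ∃ t, chk3 f_pp_011 t 1 1 1 = true :=
  ⟨(l 4), by decide +kernel⟩

theorem c_pp_011 : CertFX 0 67108864 536870912 469762048 1046898278 26843546 true true true .pnn 0 1 1
    ndF4q0 ndF5q1 pcF1 Cut.none Ext.none :=
  certFX0 (fam := true) (s1 := true) (s2 := true) (a := 0) (b := 1) (c := 1) (cn := .pnn) (n1 := ndF4q0) (n2 := ndF5q1) (pc := pcF1) (cut := Cut.none) (xt := Ext.none) (P1 := 0) (W1 := 67108864) (P2 := 536870912) (W2 := 469762048) (P3 := 1046898278) (W3 := 26843546)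
    rfl k0_pp_011

noncomputable def f_pp_012 : ℕ → ℕ → ℕ → ℕ → Bool := onCell 0 67108864 536870912 469762048 1046898278 26843546
    (rowFX 0 true true true .pnp 0 1 2 (qsf 0 67108864 536870912 469762048 2) ndF4q0 ndF5q1 pcF2 Cut.none Ext.none)

def k0_pp_012 : ∃ t, chk3 f_pp_012 t 1 1 1 = true :=
  ⟨(l 4), by decide +kernel⟩

theorem c_pp_012 : CertFX 0 67108864 536870912 469762048 1046898278 26843546 true true true .pnp 0 1 2
    ndF4q0 ndF5q1 pcF2 Cut.none Ext.none :=
  certFX0 (fam := true) (s1 := true) (s2 := true) (a := 0) (b := 1) (c := 2) (cn := .pnp) (n1 := ndF4q0) (n2 := ndF5q1) (pc := pcF2) (cut := Cut.none) (xt := Ext.none) (P1 := 0) (W1 := 67108864) (P2 := 536870912) (W2 := 469762048) (P3 := 1046898278) (W3 := 26843546)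
    rfl k0_pp_012

noncomputable def f_pp_022 : ℕ → ℕ → ℕ → ℕ → Bool := onCell 0 67108864 1073741824 536870912 1046898278 26843546
    (rowFX 0 true true true .pp 0 2 2 (qsf 0 67108864 1073741824 536870912 2) ndF4q0 ndF5q2 pcF2 Cut.none Ext.none)

def k0_pp_022 : ∃ t, chk3 f_pp_022 t 1 1 1 = true :=
  ⟨(l 4), by decide +kernel⟩

theorem c_pp_022 : CertFX 0 67108864 1073741824 536870912 1046898278 26843546 true true true .pp 0 2 2
    ndF4q0 ndF5q2 pcF2 Cut.none Ext.none :=
  certFX0 (fam := true) (s1 := true) (s2 := true) (a := 0) (b := 2) (c := 2) (cn := .pp) (n1 := ndF4q0) (n2 := ndF5q2) (pc := pcF2) (cut := Cut.none) (xt := Ext.none) (P1 := 0) (W1 := 67108864) (P2 := 1073741824) (W2 := 536870912) (P3 := 1046898278) (W3 := 26843546)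
    rfl k0_pp_022

noncomputable def f_pp_023 : ℕ → ℕ → ℕ → ℕ → Bool := onCell 0 67108864 1073741824 536870912 1046898278 26843546
    (rowFX 0 true true true .up 0 2 3 (qsf 0 67108864 1073741824 536870912 3) ndF4q0 ndF5q2 pcF3 Cut.none Ext.none)

def k0_pp_023 : ∃ t, chk3 f_pp_023 t 1 1 1 = true :=
  ⟨(l 4), by decide +kernel⟩

theorem c_pp_023 : CertFX 0 67108864 1073741824 536870912 1046898278 26843546 true true true .up 0 2 3
    ndF4q0 ndF5q2 pcF3 Cut.none Ext.none :=
  certFX0 (fam := true) (s1 := true) (s2 := true) (a := 0) (b := 2) (c := 3) (cn := .up) (n1 := ndF4q0) (n2 := ndF5q2) (pc := pcF3) (cut := Cut.none) (xt := Ext.none) (P1 := 0) (W1 := 67108864) (P2 := 1073741824) (W2 := 536870912) (P3 := 1046898278) (W3 := 26843546)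
    rfl k0_pp_023

noncomputable def f_pp_033 : ℕ → ℕ → ℕ → ℕ → Bool := onCell 0 67108864 0 1230186008 1046898278 26843546
    (rowFX 0 true true true .pnn 0 3 3 (qsf 0 67108864 0 1230186008 3) ndF4q0 ndF5q3 pcF3 Cut.none Ext.none)

def k0_pp_033 : ∃ t, chk3 f_pp_033 t 1 1 1 = true :=
  ⟨(b (l 4) (l 4)), by decide +kernel⟩

theorem c_pp_033 : CertFX 0 67108864 0 1230186008 1046898278 26843546 true true true .pnn 0 3 3
    ndF4q0 ndF5q3 pcF3 Cut.none Ext.none :=
  certFX0 (fam := true) (s1 := true) (s2 := true) (a := 0) (b := 3) (c := 3) (cn := .pnn) (n1 := ndF4q0) (n2 := ndF5q3) (pc := pcF3) (cut := Cut.none) (xt := Ext.none) (P1 := 0) (W1 := 67108864) (P2 := 0) (W2 := 1230186008) (P3 := 1046898278) (W3 := 26843546)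
    rfl k0_pp_033

noncomputable def f_pm_001 : ℕ → ℕ → ℕ → ℕ → Bool := onCell 0 67108864 0 536870912 1046898278 26843546
    (rowFX 0 true true false .up 0 0 1 (qsf 0 67108864 0 536870912 1) ndF4q0 ndF5q0 pcF1 Cut.none Ext.none)

def k0_pm_001 : ∃ t, chk3 f_pm_001 t 1 1 1 = true :=
  ⟨(l 3), by decide +kernel⟩

theorem c_pm_001 : CertFX 0 67108864 0 536870912 1046898278 26843546 true true false .up 0 0 1
    ndF4q0 ndF5q0 pcF1 Cut.none Ext.none :=
  certFX0 (fam := true) (s1 := true) (s2 := false) (a := 0) (b := 0) (c := 1) (cn := .up) (n1 := ndF4q0) (n2 := ndF5q0) (pc := pcF1) (cut := Cut.none) (xt := Ext.none) (P1 := 0) (W1 := 67108864) (P2 := 0) (W2 := 536870912) (P3 := 1046898278) (W3 := 26843546)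
    rfl k0_pm_001

noncomputable def f_pm_011 : ℕ → ℕ → ℕ → ℕ → Bool := onCell 0 67108864 536870912 469762048 1046898278 26843546
    (rowFX 0 true true false .pnn 0 1 1 (qsf 0 67108864 536870912 469762048 1) ndF4q0 ndF5q1 pcF1 Cut.none Ext.none)

def k0_pm_011 : ∃ t, chk3 f_pm_011 t 1 1 1 = true :=
  ⟨(l 3), by decide +kernel⟩

theorem c_pm_011 : CertFX 0 67108864 536870912 469762048 1046898278 26843546 true true false .pnn 0 1 1
    ndF4q0 ndF5q1 pcF1 Cut.none Ext.none :=
  certFX0 (fam := true) (s1 := true) (s2 := false) (a := 0) (b := 1) (c := 1) (cn := .pnn) (n1 := ndF4q0) (n2 := ndF5q1) (pc := pcF1) (cut := Cut.none) (xt := Ext.none) (P1 := 0) (W1 := 67108864) (P2 := 536870912) (W2 := 469762048) (P3 := 1046898278) (W3 := 26843546)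
    rfl k0_pm_011

noncomputable def f_pm_012 : ℕ → ℕ → ℕ → ℕ → Bool := onCell 0 67108864 536870912 469762048 1046898278 26843546
    (rowFX 0 true true false .pnp 0 1 2 (qsf 0 67108864 536870912 469762048 2) ndF4q0 ndF5q1 pcF2 Cut.none Ext.none)

def k0_pm_012 : ∃ t, chk3 f_pm_012 t 1 1 1 = true :=
  ⟨(l 3), by decide +kernel⟩

theorem c_pm_012 : CertFX 0 67108864 536870912 469762048 1046898278 26843546 true true false .pnp 0 1 2
    ndF4q0 ndF5q1 pcF2 Cut.none Ext.none :=
  certFX0 (fam := true) (s1 := true) (s2 := false) (a := 0) (b := 1) (c := 2) (cn := .pnp) (n1 := ndF4q0) (n2 := ndF5q1) (pc := pcF2) (cut := Cut.none) (xt := Ext.none) (P1 := 0) (W1 := 67108864) (P2 := 536870912) (W2 := 469762048) (P3 := 1046898278) (W3 := 26843546)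
    rfl k0_pm_012

noncomputable def f_pm_022 : ℕ → ℕ → ℕ → ℕ → Bool := onCell 0 67108864 1073741824 536870912 1046898278 26843546
    (rowFX 1 true true false .pp 0 2 2 (qsf 0 67108864 1073741824 536870912 2) ndF4q0 ndF5q2 pcF2 Cut.none Ext.none)

def k0_pm_022 : ∃ t, chk3 f_pm_022 t 2 8 1 = true :=
  ⟨(b (l 3) (a (b (l 3) (a (c (b (l 3) (b (c (l 16317560) (l 3)) (c (l 16327800) (c (l 16319664) (l 309404312775))))) (l 3)) (c (c (b (a (c (b (l 3) (l 16339896)) (l 3)) (b (l 16241024) (c (l 16310360) (l 16267600)))) (a (c (b (l 16332320) (l 16361864)) (b (l 16307856) (l 16330728))) (c (b (l 16314264) (l 16350720)) (l 16282416)))) (b (l 3) (c (b (l 16142432) (l 16131744)) (a (l 16270528) (l 16143840))))) (c (b (l 3) (c (a (l 300277298615) (l 16205048)) (l 646022191975))) (l 3))))) (b (c (b (l 3) (c (a (c (l 16139632) (l 3)) (l 76401955927)) (c (l 627231529079) (l 3)))) (l 3)) (c (b (c (a (c (b (l 16189816) (l 16195736)) (a (l 16166080) (l 57611508599))) (b (l 16077512) (c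 (l 16059048) (l 16160968)))) (c (a (b (l 16159176) (l 16164160)) (l 16162184)) (l 298129762567))) (c (a (c (b (a (l 16253600) (l 16193512)) (a (l 16285552) (l 16223424))) (a (b (l 16193016) (l 16229448)) (b (l 16164648) (l 16196728)))) (c (b (l 16101896) (l 16213136)) (b (l 16177760) (l 16201456)))) (a (c (a (l 16182144) (l 16192816)) (l 16190328)) (b (l 16204472) (l 16221720))))) (b (c (b (l 584281997111) (c (l 16193800) (l 572470853063))) (l 3)) (c (b (l 319067782695) (c (a (l 16215456) (l 16236488)) (l 16216920))) (b (l 556901556871) (l 332489529927)))))))), by decide +kernel⟩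

def k1_pm_022 : ∃ t, chk3 f_pm_022 t 3 8 1 = true :=
  ⟨(b (a (a (l 3) (l 1)) (l 1)) (b (a (c (b (c (b (l 16116480) (c (l 16130928) (l 16139320))) (b (l 3) (l 516636207047))) (c (b (a (l 16127336) (l 16150560)) (a (l 16144200) (l 16164152))) (b (l 318530848375) (a (l 16171296) (l 16182752))))) (b (l 3) (c (l 316383332711) (l 429663040535)))) (a (b (l 1) (b (l 1) (c (c (l 16187848) (l 16178232)) (c (l 16142936) (l 16099504))))) (l 1))) (a (c (b (c (b (a (l 16157008) (l 16182992)) (a (l 16174048) (l 16228904))) (b (a (l 16190952) (l 16173520)) (c (l 16124176) (a (l 16205976) (l 16203808))))) (c (b (l 16225992) (l 16276040)) (b (a (l 16178456) (l 16240320)) (c (l 16282232) (l 16253408))))) (b (c (a (l 302961596775) (b (l 16165072) (b (l 16171472) (l 16178664)))) (b (l 304035271943) (l 239610755527))) (c (b (c (l 16210728) (l 16149944)) (c (l 16233320) (l 16148192))) (c (b (l 226189033735) (a (l 16193896) (l 16183880))) (b (l 254106293511) (a (l 16159512) (l 16164288)))))))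 (b (a (c (c (l 16250128) (b (l 16197600) (l 16240032))) (c (b (l 16154296) (l 16086936)) (b (l 122036007431) (b (l 16126344) (l 16133712))))) (b (l 1) (c (c (l 16296288) (l 16251976)) (c (l 16197328) (l 648572126119))))) (c (c (b (l 16253512) (l 16327792)) (l 16302656)) (c (b (l 16186608) (l 16258504)) (b (a (c (l 16159872) (l 16138600)) (l 16159528)) (a (l 16114464) (l 16211216))))))))), by decide +kernel⟩

def k2_pm_022 : ∃ t, chk3 f_pm_022 t 2 36 1 = true :=
  ⟨(c (a (b (a (c (b (c (l 16311584) (l 16331568)) (c (l 16363496) (l 16345920))) (c (l 16327712) (b (l 312088685063) (l 16299560)))) (c (a (b (c (l 16392040) (l 16357912)) (l 16330976)) (b (c (l 16374992) (l 16318984)) (l 16367272))) (a (b (l 16196000) (l 16315712)) (b (c (l 16256536) (l 16213592)) (l 16264560))))) (a (c (b (c (l 16382272) (l 16365560)) (l 16327928)) (c (b (l 16349936) (l 16368760)) (b (l 16326800) (l 16349952)))) (c (a (c (l 16459424) (l 16401400)) (l 16418248)) (a (b (l 16335720) (l 16337568))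 (c (l 16321752) (l 16272824)))))) (a (b (c (b (c (l 16282680) (l 16241192)) (l 16296608)) (c (b (a (l 16219104) (l 16221568)) (l 16243336)) (l 16187448))) (c (l 16348032) (c (l 16295016) (l 16274344)))) (b (c (l 16262312) (b (l 16240624) (l 16283952))) (l 16332192)))) (a (b (c (a (a (c (l 16305848) (l 322289213143)) (c (b (l 16272120) (l 16287808)) (b (l 3) (l 16254120)))) (c (a (l 16247208) (l 16219192)) (l 302961719463))) (a (a (l 3) (c (l 589113958711) (l 3))) (c (l 345911443671) (l 358796321943)))) (c (a (a (l 16288168) (b (l 16267184) (c (l 16328600) (l 16290440)))) (c (b (l 16260504) (l 16279848)) (b (l 16248392) (l 16270800)))) (b (a (a (c (l 16266216) (l 16230752)) (l 16240024)) (l 16247072)) (a (a (c (l 16280864) (l 16200152)) (l 16255832)) (l 16266344))))) (b (c (b (a (c (l 16239464) (l 16233496)) (a (l 16244880) (l 16250232))) (a (l 16230120) (l 16257208))) (a (l 354501302247) (b (l 268601926119) (l 16220304)))) (c (a (c (l 16276448) (l 16254912)) (l 16282640))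 (b (a (l 16245320) (l 16232688)) (a (l 16257008) (l 16257176))))))), by decide +kernel⟩

def k3_pm_022 : ∃ t, chk3 f_pm_022 t 2 37 1 = true :=
  ⟨(c (c (a (a (l 16313624) (b (l 16332744) (l 16441784))) (b (a (l 16386976) (l 16424544)) (a (l 16378856) (l 16490808)))) (a (a (b (b (c (l 16397472) (l 16328992)) (l 16381432)) (l 16384784)) (a (b (l 16397048) (l 16484776)) (l 16231904))) (b (l 16375464) (a (l 16462400) (l 16516808))))) (a (b (a (c (a (b (l 16332704) (l 16332424)) (c (b (l 16349328) (l 16384976)) (b (l 16311488) (l 16335280)))) (a (c (a (l 16311408) (l 16311656)) (a (l 16290352) (l 16283000))) (c (l 16297232) (l 16286152)))) (c (b (c (l 16309584) (l 16292520)) (l 16346976)) (b (c (l 16288824) (l 16272344)) (l 16283536)))) (c (a (c (l 16353984) (a (l 16354888) (l 16401704))) (l 16393400)) (a (c (a (b (a (l 16341512) (l 16342912)) (l 16383904)) (l 16317024)) (b (a (a (l 16319088) (l 16313184)) (l 16316680)) (c (l 16276400) (l 16301832)))) (b (l 16343824) (l 16392944)))))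 (b (c (l 16374032) (b (l 16245592) (l 16341240))) (l 16309040)))), by decide +kernel⟩

def k4_pm_022 : ∃ t, chk3 f_pm_022 t 2 19 1 = true :=
  ⟨(b (c (a (b (a (c (l 16526568) (l 16453528)) (c (a (l 16429672) (l 16361984)) (a (l 16515440) (l 16539568)))) (a (c (l 16374680) (l 16459472)) (c (a (l 16280104) (c (l 16364872) (l 16437192))) (a (l 16465392) (l 16507880))))) (b (c (a (b (l 16530800) (l 16363560)) (b (l 16576320) (l 16581176))) (a (l 16418128) (l 16567776))) (a (c (b (l 16442376) (l 16450536)) (l 16504664)) (c (l 16492832) (l 16507792))))) (a (b (a (c (a (l 16489152) (l 16354320)) (a (c (l 16409280) (a (l 16359432) (l 16424040))) (c (l 16459120) (l 16435952)))) (c (l 16427512) (l 16468208))) (a (c (a (l 16510432) (l 16492368)) (a (c (l 16549304) (l 16499536)) (l 16552560))) (c (l 16541336) (l 16569320)))) (b (c (b (l 16537040) (l 16592560)) (l 16488248)) (c (a (l 16540584) (l 16528808)) (l 16571480))))) (a (c (a (b (c (l 16240152) (l 16300016)) (c (l 16218432)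 (a (l 16286128) (l 16181072)))) (b (c (a (l 16189072) (l 16303016)) (a (l 16287632) (l 16363656))) (c (l 16175376) (a (l 16228528) (l 16295944))))) (a (c (b (a (l 16403584) (l 16412208)) (a (l 16318040) (l 16197864))) (b (c (l 16375976) (l 16435920)) (a (l 16287704) (l 16371040)))) (c (b (l 16442128) (b (l 16336032) (l 16308976))) (b (l 16467200) (l 16353392))))) (c (b (c (l 16251384) (a (l 16426176) (l 16388120))) (a (l 16167360) (l 16241624))) (b (c (a (l 16442544) (l 16428728)) (a (l 16476712) (l 16486504))) (c (l 16258464) (a (l 16319456) (l 16375184))))))), by decide +kernel⟩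

def k5_pm_022 : ∃ t, chk3 f_pm_022 t 3 9 1 = true :=
  ⟨(b (b (c (b (a (c (l 16292912) (l 16322168)) (c (a (l 16393656) (l 16421248)) (l 16267904))) (a (c (l 16286768) (l 16363408)) (c (l 16364016) (l 16409384)))) (a (b (c (b (l 16164352) (l 16295672)) (b (a (c (l 16214136) (l 16187768)) (l 16174448)) (a (l 16212488) (l 16240232)))) (c (l 16350936) (l 16185256))) (b (c (l 16318280) (l 16252872)) (c (l 16357528) (l 16338008))))) (c (a (b (c (a (l 16471736) (l 16497520)) (a (l 16474776) (l 16488856))) (c (l 16478200) (a (l 16564344) (l 16596656)))) (c (l 16496032) (b (l 16540680) (l 16648104)))) (a (b (c (l 16444248) (l 16366664)) (c (l 16475536) (l 16447504))) (b (c (l 16419984) (l 16323608)) (c (l 16575040) (b (l 16494168) (l 16518112))))))) (b (c (b (a (c (l 16570552) (a (l 16554840) (l 16577064))) (l 16362392)) (a (l 16456752) (c (l 16387056) (l 16436320)))) (b (b (a (c (l 16604632) (l 16543184)) (l 16471512)) (a (c (l 16607864) (l 16590040)) (l 16531624))) (a (c (l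 16528448) (l 16527088)) (l 16537472)))) (c (a (b (l 16324672) (l 16179392)) (b (l 16226728) (l 16114576))) (b (a (c (l 16396888) (l 16482344)) (l 16401648)) (a (l 16294536) (l 16252048)))))), by decide +kernel⟩

def k6_pm_022 : ∃ t, chk3 f_pm_022 t 2 20 1 = true :=
  ⟨(b (c (a (a (b (c (l 16075512) (l 16148416)) (l 15911048)) (b (c (l 16030728) (l 16131960)) (c (l 15871312) (l 15970056)))) (b (a (l 16081408) (l 16089464)) (a (l 15939600) (l 15925376)))) (a (b (a (c (a (l 16185592) (b (l 16238808) (l 16185784))) (a (c (l 16241440) (l 16279544)) (c (l 16277960) (l 16288896)))) (c (l 16221808) (b (l 16311880) (l 16250656)))) (a (c (l 15967704) (a (b (c (l 16186480) (l 16198184)) (l 16098848)) (l 16132744))) (l 15906352))) (b (c (l 16166560) (l 16240104)) (l 16037344)))) (b (a (c (a (b (l 15666584) (l 15673760)) (c (l 15675080) (l 15789552))) (a (a (c (l 16007816) (b (a (l 16093752) (l 16036296)) (l 16096656))) (c (l 15761376) (l 15825840))) (c (l 15871712) (l 15930648))))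 (c (a (l 15761512) (l 15748272)) (l 15851200))) (a (a (b (c (l 15784064) (c (l 15848408) (a (l 16065704) (l 15970136)))) (c (b (l 15900800) (a (l 16010104) (l 15650952))) (b (c (l 15932368) (l 15830088)) (c (a (l 16085936) (l 15911368)) (a (b (l 15924328) (l 16145072)) (l 15998320)))))) (a (b (c (c (l 15597152) (l 15684768)) (l 15593512)) (c (b (l 15659056) (c (l 15606104) (l 15722272))) (b (l 15801216) (l 15715352)))) (b (c (l 15512168) (l 15748456)) (c (b (c (l 15515600) (l 15609840)) (c (l 15522336) (l 15610856))) (b (l 15684856) (l 15635472)))))) (b (c (a (l 15621176) (l 15611736)) (l 15699448)) (b (c (a (l 15559952) (l 15557376)) (l 15624272)) (c (a (c (l 15424696) (l 15551240)) (l 15524848)) (l 15577920))))))), by decide +kernel⟩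

def k7_pm_022 : ∃ t, chk3 f_pm_022 t 3 20 1 = true :=
  ⟨(b (b (c (a (l 16023512) (l 15953728)) (l 15948504)) (c (a (l 15858552) (l 15787448)) (l 15821056))) (b (c (a (l 15683888) (l 15615720)) (l 15618064)) (b (c (a (l 15553616) (l 15493296)) (l 15625520)) (b (c (a (l 15509592) (l 15462416)) (l 15571712)) (c (a (l 15484184) (l 15446080)) (l 15539664)))))), by decide +kernel⟩

def k8_pm_022 : ∃ t, chk3 f_pm_022 t 1 21 1 = true :=
  ⟨(a (a (c (a (b (b (l 15912736) (l 16123112)) (a (l 15951688) (l 16046008))) (b (c (l 15602808) (l 15690648)) (a (b (l 16203120) (l 16252464)) (c (l 16193424) (l 16289504))))) (a (b (c (b (l 15951568) (l 16199144)) (a (b (l 16165384) (l 16264936)) (l 16154952))) (a (a (l 15821728) (b (l 16092392) (l 15907344))) (b (l 16064200) (l 15876464)))) (b (c (l 15851120) (l 15926120)) (c (l 16195296) (l 16273856))))) (b (c (a (b (a (l 15538808) (l 15533168)) (l 15766320)) (b (l 15494976) (l 15547920))) (a (b (l 15627072) (l 15812392)) (l 15414304)))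 (c (a (b (l 15933216) (l 16159200)) (l 15814288)) (b (l 15829448) (l 16057200))))) (a (b (c (l 15447720) (l 15493664)) (a (b (c (l 15502184) (l 15527488)) (l 15721328)) (b (l 15425112) (l 15237432)))) (c (l 15303136) (l 15463624)))), by decide +kernel⟩

def k9_pm_022 : ∃ t, chk3 f_pm_022 t 1 11 1 = true :=
  ⟨(a (b (b (a (c (a (l 15518696) (a (l 15744784) (b (l 16141928) (l 15928584)))) (a (c (l 15445176) (a (l 15512256) (l 15650112))) (l 15668048))) (c (a (c (l 16021784) (l 16033096)) (l 16218208)) (a (l 16052328) (l 16329656)))) (a (c (a (l 15156232) (c (l 15440448) (l 15453752))) (a (c (l 15130544) (l 14916944)) (l 15384152))) (c (a (l 15565128) (l 15812584)) (l 15641720)))) (a (c (a (b (b (a (l 14843752) (l 14971296)) (l 14856808)) (l 14855728)) (b (a (b (l 15094792) (l 14963464)) (c (l 15154992) (l 15060536))) (c (l 14985736) (l 14912576)))) (a (c (b (a (l 14784536) (l 14862888)) (l 14788952)) (b (a (l 14738336) (l 14808384)) (l 14743968))) (b (c (l 14992144) (l 14974432))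 (l 14839496)))) (c (b (a (l 15254376) (l 15494456)) (a (b (l 15031088) (l 14976944)) (l 15177536))) (b (l 15367600) (l 15092552))))) (b (a (b (b (l 15658584) (c (l 15999320) (l 16118056))) (a (c (l 16082696) (l 16225008)) (l 16165464))) (b (a (b (l 15476128) (l 15696168)) (c (c (l 15391000) (l 15445584)) (l 15467856))) (c (c (a (l 16062848) (l 15838328)) (l 15869624)) (l 15908168)))) (c (a (b (l 15744912) (l 15574008)) (b (a (l 16106232) (l 16095256)) (l 15952032))) (a (l 15578176) (b (l 16412960) (l 16059704)))))), by decide +kernel⟩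

def k10_pm_022 : ∃ t, chk3 f_pm_022 t 1 3 1 = true :=
  ⟨(b (a (c (b (a (a (l 14855728) (c (l 14985048) (l 14911872))) (a (l 14954936) (l 15052048))) (a (c (l 14925520) (a (l 14839424) (l 14911872))) (b (l 15024352) (l 15024352)))) (b (a (a (c (l 14788952) (l 14743968)) (l 14838776)) (l 14994896)) (a (b (c (l 14786680) (l 14788264)) (c (l 14828616) (l 14788264))) (l 14994696)))) (b (b (a (b (c (a (l 15209416) (l 15409528)) (l 15289160)) (l 15208264)) (c (b (l 15775296) (l 15511024)) (l 15398568))) (c (l 15332000) (l 15289552))) (c (b (l 15331768) (l 15331768)) (l 15289320)))) (a (c (a (b (l 14872704) (l 14830760)) (b (l 15024352) (l 15024352))) (b (a (a (c (l 14788952) (l 14743968)) (l 14838776)) (l 14994696)) (a (c (l 14828616) (l 14788264)) (l 14994696)))) (c (b (l 15331768) (l 15331768)) (b (l 15289320) (l 15289320))))), by decide +kernel⟩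

theorem s11_pm_022 : ∃ t, chk3 f_pm_022 t 1 20 1 = true := ex3_a k6_pm_022 k7_pm_022

theorem s12_pm_022 : ∃ t, chk3 f_pm_022 t 1 10 1 = true := ex3_b s11_pm_022 k8_pm_022

theorem s13_pm_022 : ∃ t, chk3 f_pm_022 t 1 5 1 = true := ex3_b s12_pm_022 k9_pm_022

theorem s14_pm_022 : ∃ t, chk3 f_pm_022 t 2 18 1 = true := ex3_b k2_pm_022 k3_pm_022

theorem s15_pm_022 : ∃ t, chk3 f_pm_022 t 2 9 1 = true := ex3_b s14_pm_022 k4_pm_022

theorem s16_pm_022 : ∃ t, chk3 f_pm_022 t 1 9 1 = true := ex3_a s15_pm_022 k5_pm_022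

theorem s17_pm_022 : ∃ t, chk3 f_pm_022 t 1 8 1 = true := ex3_a k0_pm_022 k1_pm_022

theorem s18_pm_022 : ∃ t, chk3 f_pm_022 t 1 4 1 = true := ex3_b s17_pm_022 s16_pm_022

theorem s19_pm_022 : ∃ t, chk3 f_pm_022 t 1 2 1 = true := ex3_b s18_pm_022 s13_pm_022

theorem s20_pm_022 : ∃ t, chk3 f_pm_022 t 1 1 1 = true := ex3_b s19_pm_022 k10_pm_022

theorem c_pm_022 : CertFX 0 67108864 1073741824 536870912 1046898278 26843546 true true false .pp 0 2 2
    ndF4q0 ndF5q2 pcF2 Cut.none Ext.none :=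
  certFX1 (fam := true) (s1 := true) (s2 := false) (a := 0) (b := 2) (c := 2) (cn := .pp) (n1 := ndF4q0) (n2 := ndF5q2) (pc := pcF2) (cut := Cut.none) (xt := Ext.none) (P1 := 0) (W1 := 67108864) (P2 := 1073741824) (W2 := 536870912) (P3 := 1046898278) (W3 := 26843546)
    rfl (fun _ => rfl) s20_pm_022

noncomputable def f_pm_023 : ℕ → ℕ → ℕ → ℕ → Bool := onCell 0 67108864 1610612736 536870912 1046898278 26843546
    (rowFX 1 true true false .up 0 2 3 (qsf 0 67108864 1073741824 536870912 3) ndF4q0 ndF5q2 pcF3 Cut.none Ext.none)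

def k0_pm_023 : ∃ t, chk3 f_pm_023 t 1 1 1 = true :=
  ⟨(b (b (b (a (a (b (c (l 14893672) (a (l 14701536) (l 14838776))) (l 2)) (c (l 15024352) (l 14994696))) (l 15305472)) (a (l 2) (l 15305472))) (l 2)) (l 2)), by decide +kernel⟩

theorem c_pm_023 : CertFX 0 67108864 1073741824 536870912 1046898278 26843546 true true false .up 0 2 3
    ndF4q0 ndF5q2 pcF3 Cut.none Ext.none :=
  certFX1 (fam := true) (s1 := true) (s2 := false) (a := 0) (b := 2) (c := 3) (cn := .up) (n1 := ndF4q0) (n2 := ndF5q2) (pc := pcF3) (cut := Cut.none) (xt := Ext.none) (P1 := 0) (W1 := 67108864) (P2 := 1073741824) (W2 := 536870912) (P3 := 1046898278) (W3 := 26843546)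
    rfl (fun _ => rfl) k0_pm_023

noncomputable def f_pm_033 : ℕ → ℕ → ℕ → ℕ → Bool := onCell 0 67108864 0 1230186008 1046898278 26843546
    (rowFX 0 true true false .pnn 0 3 3 (qsf 0 67108864 0 1230186008 3) ndF4q0 ndF5q3 pcF3 Cut.none Ext.none)

def k0_pm_033 : ∃ t, chk3 f_pm_033 t 1 1 1 = true :=
  ⟨(b (l 4) (b (b (a (b (l 4) (c (l 4) (l 4))) (l 4)) (c (a (b (a (b (c (l 14925488) (l 14871024)) (l 14725888)) (b (l 4) (l 15024344))) (a (c (l 14925520) (l 14871056)) (b (l 15024352) (l 15024352)))) (b (l 4) (c (b (l 15339192) (l 15339192)) (b (l 15330144) (l 15330144))))) (a (b (c (a (a (l 14788920) (l 14857232)) (b (l 4) (l 15011800))) (a (b (a (l 14743928) (l 14837328)) (l 14788240)) (b (l 14983216) (l 14983232)))) (a (c (a (l 14788952) (l 14857264)) (a (l 14702024) (l 14837368))) (b (l 14994696) (l 14994696)))) (a (b (b (l 4) (l 103310633799)) (b (l 15195480) (l 15195480))) (b (l 4) (b (l 15383736) (l 15383736))))))) (b (c (a (b (a (c (l 14925520) (l 14871064)) (l 15024352))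 (a (l 14893672) (l 15024352))) (b (b (l 15331768) (l 15331768)) (b (l 15331768) (l 15331768)))) (a (b (a (b (c (l 14828616) (l 14788264)) (a (l 14764448) (l 14838776))) (b (l 14994696) (l 14994696))) (a (a (c (l 14788952) (l 14743968)) (l 14838776)) (l 14994696))) (b (b (l 15289320) (l 15289320)) (b (l 15289320) (l 15289320))))) (a (c (a (b (l 14893672) (a (l 14855728) (l 14945488))) (l 14898528)) (b (a (a (c (l 14788952) (l 14743968)) (l 14838776)) (l 14994696)) (a (c (a (l 14788952) (l 14857264)) (b (l 14788264) (l 14620488))) (l 14994696)))) (b (c (l 15331768) (l 15289320)) (c (l 15331768) (l 15289320))))))), by decide +kernel⟩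

theorem c_pm_033 : CertFX 0 67108864 0 1230186008 1046898278 26843546 true true false .pnn 0 3 3
    ndF4q0 ndF5q3 pcF3 Cut.none Ext.none :=
  certFX0 (fam := true) (s1 := true) (s2 := false) (a := 0) (b := 3) (c := 3) (cn := .pnn) (n1 := ndF4q0) (n2 := ndF5q3) (pc := pcF3) (cut := Cut.none) (xt := Ext.none) (P1 := 0) (W1 := 67108864) (P2 := 0) (W2 := 1230186008) (P3 := 1046898278) (W3 := 26843546)
    rfl k0_pm_033

noncomputable def f_mm_001 : ℕ → ℕ → ℕ → ℕ → Bool := onCell 0 67108864 0 536870912 1046898278 26843546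
    (rowFX 0 true false false .up 0 0 1 (qsf 0 67108864 0 536870912 1) ndF4q0 ndF5q0 pcF1 Cut.none Ext.none)

def k0_mm_001 : ∃ t, chk3 f_mm_001 t 1 1 1 = true :=
  ⟨(l 4), by decide +kernel⟩

theorem c_mm_001 : CertFX 0 67108864 0 536870912 1046898278 26843546 true false false .up 0 0 1
    ndF4q0 ndF5q0 pcF1 Cut.none Ext.none :=
  certFX0 (fam := true) (s1 := false) (s2 := false) (a := 0) (b := 0) (c := 1) (cn := .up) (n1 := ndF4q0) (n2 := ndF5q0) (pc := pcF1) (cut := Cut.none) (xt := Ext.none) (P1 := 0) (W1 := 67108864) (P2 := 0) (W2 := 536870912) (P3 := 1046898278) (W3 := 26843546)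
    rfl k0_mm_001

noncomputable def f_mm_011 : ℕ → ℕ → ℕ → ℕ → Bool := onCell 0 67108864 536870912 469762048 1046898278 26843546
    (rowFX 0 true false false .pnn 0 1 1 (qsf 0 67108864 536870912 469762048 1) ndF4q0 ndF5q1 pcF1 Cut.none Ext.none)

def k0_mm_011 : ∃ t, chk3 f_mm_011 t 1 1 1 = true :=
  ⟨(l 4), by decide +kernel⟩

theorem c_mm_011 : CertFX 0 67108864 536870912 469762048 1046898278 26843546 true false false .pnn 0 1 1
    ndF4q0 ndF5q1 pcF1 Cut.none Ext.none :=
  certFX0 (fam := true) (s1 := false) (s2 := false) (a := 0) (b := 1) (c := 1) (cn := .pnn) (n1 := ndF4q0) (n2 := ndF5q1) (pc := pcF1) (cut := Cut.none) (xt := Ext.none) (P1 := 0) (W1 := 67108864) (P2 := 536870912) (W2 := 469762048) (P3 := 1046898278) (W3 := 26843546)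
    rfl k0_mm_011

noncomputable def f_mm_012 : ℕ → ℕ → ℕ → ℕ → Bool := onCell 0 67108864 536870912 469762048 1046898278 26843546
    (rowFX 0 true false false .pnp 0 1 2 (qsf 0 67108864 536870912 469762048 2) ndF4q0 ndF5q1 pcF2 Cut.none Ext.none)

def k0_mm_012 : ∃ t, chk3 f_mm_012 t 1 1 1 = true :=
  ⟨(l 4), by decide +kernel⟩

theorem c_mm_012 : CertFX 0 67108864 536870912 469762048 1046898278 26843546 true false false .pnp 0 1 2
    ndF4q0 ndF5q1 pcF2 Cut.none Ext.none :=
  certFX0 (fam := true) (s1 := false) (s2 := false) (a := 0) (b := 1) (c := 2) (cn := .pnp) (n1 := ndF4q0) (n2 := ndF5q1) (pc := pcF2) (cut := Cut.none) (xt := Ext.none) (P1 := 0) (W1 := 67108864) (P2 := 536870912) (W2 := 469762048) (P3 := 1046898278) (W3 := 26843546)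
    rfl k0_mm_012

noncomputable def f_mm_022 : ℕ → ℕ → ℕ → ℕ → Bool := onCell 0 67108864 1073741824 536870912 1046898278 26843546
    (rowFX 0 true false false .pp 0 2 2 (qsf 0 67108864 1073741824 536870912 2) ndF4q0 ndF5q2 pcF2 Cut.none Ext.none)

def k0_mm_022 : ∃ t, chk3 f_mm_022 t 1 1 1 = true :=
  ⟨(l 4), by decide +kernel⟩

theorem c_mm_022 : CertFX 0 67108864 1073741824 536870912 1046898278 26843546 true false false .pp 0 2 2
    ndF4q0 ndF5q2 pcF2 Cut.none Ext.none :=
  certFX0 (fam := true) (s1 := false) (s2 := false) (a := 0) (b := 2) (c := 2) (cn := .pp) (n1 := ndF4q0) (n2 := ndF5q2) (pc := pcF2) (cut := Cut.none) (xt := Ext.none) (P1 := 0) (W1 := 67108864) (P2 := 1073741824) (W2 := 536870912) (P3 := 1046898278) (W3 := 26843546)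
    rfl k0_mm_022

noncomputable def f_mm_023 : ℕ → ℕ → ℕ → ℕ → Bool := onCell 0 67108864 1073741824 536870912 1046898278 26843546
    (rowFX 0 true false false .up 0 2 3 (qsf 0 67108864 1073741824 536870912 3) ndF4q0 ndF5q2 pcF3 Cut.none Ext.none)

def k0_mm_023 : ∃ t, chk3 f_mm_023 t 1 1 1 = true :=
  ⟨(l 4), by decide +kernel⟩

theorem c_mm_023 : CertFX 0 67108864 1073741824 536870912 1046898278 26843546 true false false .up 0 2 3
    ndF4q0 ndF5q2 pcF3 Cut.none Ext.none :=
  certFX0 (fam := true) (s1 := false) (s2 := false) (a := 0) (b := 2) (c := 3) (cn := .up) (n1 := ndF4q0) (n2 := ndF5q2) (pc := pcF3) (cut := Cut.none) (xt := Ext.none) (P1 := 0) (W1 := 67108864) (P2 := 1073741824) (W2 := 536870912) (P3 := 1046898278) (W3 := 26843546)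
    rfl k0_mm_023

noncomputable def f_mm_033 : ℕ → ℕ → ℕ → ℕ → Bool := onCell 0 67108864 0 1230186008 1046898278 26843546
    (rowFX 0 true false false .pnn 0 3 3 (qsf 0 67108864 0 1230186008 3) ndF4q0 ndF5q3 pcF3 Cut.none Ext.none)

def k0_mm_033 : ∃ t, chk3 f_mm_033 t 1 1 1 = true :=
  ⟨(l 5), by decide +kernel⟩

theorem c_mm_033 : CertFX 0 67108864 0 1230186008 1046898278 26843546 true false false .pnn 0 3 3
    ndF4q0 ndF5q3 pcF3 Cut.none Ext.none :=
  certFX0 (fam := true) (s1 := false) (s2 := false) (a := 0) (b := 3) (c := 3) (cn := .pnn) (n1 := ndF4q0) (n2 := ndF5q3) (pc := pcF3) (cut := Cut.none) (xt := Ext.none) (P1 := 0) (W1 := 67108864) (P2 := 0) (W2 := 1230186008) (P3 := 1046898278) (W3 := 26843546)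
    rfl k0_mm_033

end Pool.Agent.Strip051.G.IE1.Tab.C.FA45

namespace Pool.Agent.Strip051.G.IE1.Tab.C.FA46

open Pool.Agent.Strip051.PB Pool.Agent.Strip051.PB.T
open Pool.Agent.Strip051.G.IE1.Tab

noncomputable def f_pp_001 : ℕ → ℕ → ℕ → ℕ → Bool := onCell 0 67108864 0 536870912 1046898278 26843546
    (rowFX 0 true true true .up 0 0 1 (qsf 0 67108864 0 536870912 1) ndF4q0 ndF6q0 pcF1 Cut.none Ext.none)

def k0_pp_001 : ∃ t, chk3 f_pp_001 t 1 1 1 = true :=
  ⟨(l 4), by decide +kernel⟩

theorem c_pp_001 : CertFX 0 67108864 0 536870912 1046898278 26843546 true true true .up 0 0 1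
    ndF4q0 ndF6q0 pcF1 Cut.none Ext.none :=
  certFX0 (fam := true) (s1 := true) (s2 := true) (a := 0) (b := 0) (c := 1) (cn := .up) (n1 := ndF4q0) (n2 := ndF6q0) (pc := pcF1) (cut := Cut.none) (xt := Ext.none) (P1 := 0) (W1 := 67108864) (P2 := 0) (W2 := 536870912) (P3 := 1046898278) (W3 := 26843546)
    rfl k0_pp_001

noncomputable def f_pp_011 : ℕ → ℕ → ℕ → ℕ → Bool := onCell 0 67108864 536870912 469762048 1046898278 26843546
    (rowFX 0 true true true .pnn 0 1 1 (qsf 0 67108864 536870912 469762048 1) ndF4q0 ndF6q1 pcF1 Cut.none Ext.none)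

def k0_pp_011 : ∃ t, chk3 f_pp_011 t 1 1 1 = true :=
  ⟨(l 4), by decide +kernel⟩

theorem c_pp_011 : CertFX 0 67108864 536870912 469762048 1046898278 26843546 true true true .pnn 0 1 1
    ndF4q0 ndF6q1 pcF1 Cut.none Ext.none :=
  certFX0 (fam := true) (s1 := true) (s2 := true) (a := 0) (b := 1) (c := 1) (cn := .pnn) (n1 := ndF4q0) (n2 := ndF6q1) (pc := pcF1) (cut := Cut.none) (xt := Ext.none) (P1 := 0) (W1 := 67108864) (P2 := 536870912) (W2 := 469762048) (P3 := 1046898278) (W3 := 26843546)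
    rfl k0_pp_011

noncomputable def f_pp_012 : ℕ → ℕ → ℕ → ℕ → Bool := onCell 0 67108864 536870912 469762048 1046898278 26843546
    (rowFX 0 true true true .pnp 0 1 2 (qsf 0 67108864 536870912 469762048 2) ndF4q0 ndF6q1 pcF2 Cut.none Ext.none)

def k0_pp_012 : ∃ t, chk3 f_pp_012 t 1 1 1 = true :=
  ⟨(l 4), by decide +kernel⟩

theorem c_pp_012 : CertFX 0 67108864 536870912 469762048 1046898278 26843546 true true true .pnp 0 1 2
    ndF4q0 ndF6q1 pcF2 Cut.none Ext.none :=
  certFX0 (fam := true) (s1 := true) (s2 := true) (a := 0) (b := 1) (c := 2) (cn := .pnp) (n1 := ndF4q0) (n2 := ndF6q1) (pc := pcF2) (cut := Cut.none) (xt := Ext.none) (P1 := 0) (W1 := 67108864) (P2 := 536870912) (W2 := 469762048) (P3 := 1046898278) (W3 := 26843546)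
    rfl k0_pp_012

noncomputable def f_pp_022 : ℕ → ℕ → ℕ → ℕ → Bool := onCell 0 67108864 1073741824 536870912 1046898278 26843546
    (rowFX 0 true true true .pp 0 2 2 (qsf 0 67108864 1073741824 536870912 2) ndF4q0 ndF6q2 pcF2 Cut.none Ext.none)

def k0_pp_022 : ∃ t, chk3 f_pp_022 t 1 1 1 = true :=
  ⟨(l 4), by decide +kernel⟩

theorem c_pp_022 : CertFX 0 67108864 1073741824 536870912 1046898278 26843546 true true true .pp 0 2 2
    ndF4q0 ndF6q2 pcF2 Cut.none Ext.none :=
  certFX0 (fam := true) (s1 := true) (s2 := true) (a := 0) (b := 2) (c := 2) (cn := .pp) (n1 := ndF4q0) (n2 := ndF6q2) (pc := pcF2) (cut := Cut.none) (xt := Ext.none) (P1 := 0) (W1 := 67108864) (P2 := 1073741824) (W2 := 536870912) (P3 := 1046898278) (W3 := 26843546)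
    rfl k0_pp_022

noncomputable def f_pp_023 : ℕ → ℕ → ℕ → ℕ → Bool := onCell 0 67108864 1073741824 536870912 1046898278 26843546
    (rowFX 0 true true true .up 0 2 3 (qsf 0 67108864 1073741824 536870912 3) ndF4q0 ndF6q2 pcF3 Cut.none Ext.none)

def k0_pp_023 : ∃ t, chk3 f_pp_023 t 1 1 1 = true :=
  ⟨(l 4), by decide +kernel⟩

theorem c_pp_023 : CertFX 0 67108864 1073741824 536870912 1046898278 26843546 true true true .up 0 2 3
    ndF4q0 ndF6q2 pcF3 Cut.none Ext.none :=
  certFX0 (fam := true) (s1 := true) (s2 := true) (a := 0) (b := 2) (c := 3) (cn := .up) (n1 := ndF4q0) (n2 := ndF6q2) (pc := pcF3) (cut := Cut.none) (xt := Ext.none) (P1 := 0) (W1 := 67108864) (P2 := 1073741824) (W2 := 536870912) (P3 := 1046898278) (W3 := 26843546)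
    rfl k0_pp_023

noncomputable def f_pp_033 : ℕ → ℕ → ℕ → ℕ → Bool := onCell 0 67108864 0 1230186008 1046898278 26843546
    (rowFX 0 true true true .pnn 0 3 3 (qsf 0 67108864 0 1230186008 3) ndF4q0 ndF6q3 pcF3 Cut.none Ext.none)

def k0_pp_033 : ∃ t, chk3 f_pp_033 t 1 1 1 = true :=
  ⟨(b (l 4) (l 4)), by decide +kernel⟩

theorem c_pp_033 : CertFX 0 67108864 0 1230186008 1046898278 26843546 true true true .pnn 0 3 3
    ndF4q0 ndF6q3 pcF3 Cut.none Ext.none :=
  certFX0 (fam := true) (s1 := true) (s2 := true) (a := 0) (b := 3) (c := 3) (cn := .pnn) (n1 := ndF4q0) (n2 := ndF6q3) (pc := pcF3) (cut := Cut.none) (xt := Ext.none) (P1 := 0) (W1 := 67108864) (P2 := 0) (W2 := 1230186008) (P3 := 1046898278) (W3 := 26843546)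
    rfl k0_pp_033

noncomputable def f_pm_001 : ℕ → ℕ → ℕ → ℕ → Bool := onCell 0 67108864 0 536870912 1046898278 26843546
    (rowFX 0 true true false .up 0 0 1 (qsf 0 67108864 0 536870912 1) ndF4q0 ndF6q0 pcF1 Cut.none Ext.none)

def k0_pm_001 : ∃ t, chk3 f_pm_001 t 1 1 1 = true :=
  ⟨(l 3), by decide +kernel⟩

theorem c_pm_001 : CertFX 0 67108864 0 536870912 1046898278 26843546 true true false .up 0 0 1
    ndF4q0 ndF6q0 pcF1 Cut.none Ext.none :=
  certFX0 (fam := true) (s1 := true) (s2 := false) (a := 0) (b := 0) (c := 1) (cn := .up) (n1 := ndF4q0) (n2 := ndF6q0) (pc := pcF1) (cut := Cut.none) (xt := Ext.none) (P1 := 0) (W1 := 67108864) (P2 := 0) (W2 := 536870912) (P3 := 1046898278) (W3 := 26843546)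
    rfl k0_pm_001

noncomputable def f_pm_011 : ℕ → ℕ → ℕ → ℕ → Bool := onCell 0 67108864 536870912 469762048 1046898278 26843546
    (rowFX 0 true true false .pnn 0 1 1 (qsf 0 67108864 536870912 469762048 1) ndF4q0 ndF6q1 pcF1 Cut.none Ext.none)

def k0_pm_011 : ∃ t, chk3 f_pm_011 t 1 1 1 = true :=
  ⟨(l 3), by decide +kernel⟩

theorem c_pm_011 : CertFX 0 67108864 536870912 469762048 1046898278 26843546 true true false .pnn 0 1 1
    ndF4q0 ndF6q1 pcF1 Cut.none Ext.none :=
  certFX0 (fam := true) (s1 := true) (s2 := false) (a := 0) (b := 1) (c := 1) (cn := .pnn) (n1 := ndF4q0) (n2 := ndF6q1) (pc := pcF1) (cut := Cut.none) (xt := Ext.none) (P1 := 0) (W1 := 67108864) (P2 := 536870912) (W2 := 469762048) (P3 := 1046898278) (W3 := 26843546)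
    rfl k0_pm_011

noncomputable def f_pm_012 : ℕ → ℕ → ℕ → ℕ → Bool := onCell 0 67108864 536870912 469762048 1046898278 26843546
    (rowFX 0 true true false .pnp 0 1 2 (qsf 0 67108864 536870912 469762048 2) ndF4q0 ndF6q1 pcF2 Cut.none Ext.none)

def k0_pm_012 : ∃ t, chk3 f_pm_012 t 1 1 1 = true :=
  ⟨(l 3), by decide +kernel⟩

theorem c_pm_012 : CertFX 0 67108864 536870912 469762048 1046898278 26843546 true true false .pnp 0 1 2
    ndF4q0 ndF6q1 pcF2 Cut.none Ext.none :=
  certFX0 (fam := true) (s1 := true) (s2 := false) (a := 0) (b := 1) (c := 2) (cn := .pnp) (n1 := ndF4q0) (n2 := ndF6q1) (pc := pcF2) (cut := Cut.none) (xt := Ext.none) (P1 := 0) (W1 := 67108864) (P2 := 536870912) (W2 := 469762048) (P3 := 1046898278) (W3 := 26843546)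
    rfl k0_pm_012

noncomputable def f_pm_022 : ℕ → ℕ → ℕ → ℕ → Bool := onCell 0 67108864 1073741824 536870912 1046898278 26843546
    (rowFX 1 true true false .pp 0 2 2 (qsf 0 67108864 1073741824 536870912 2) ndF4q0 ndF6q2 pcF2 Cut.none Ext.none)

def k0_pm_022 : ∃ t, chk3 f_pm_022 t 1 4 1 = true :=
  ⟨(l 3), by decide +kernel⟩

def k1_pm_022 : ∃ t, chk3 f_pm_022 t 1 40 1 = true :=
  ⟨(l 3), by decide +kernel⟩

def k2_pm_022 : ∃ t, chk3 f_pm_022 t 1 82 1 = true :=
  ⟨(l 3), by decide +kernel⟩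

def k3_pm_022 : ∃ t, chk3 f_pm_022 t 1 166 1 = true :=
  ⟨(l 3), by decide +kernel⟩

def k4_pm_022 : ∃ t, chk3 f_pm_022 t 2 334 1 = true :=
  ⟨(b (l 3) (c (l 3) (a (a (c (a (l 16120368) (l 16219160)) (c (a (l 16101744) (l 16210504)) (l 16043544))) (c (a (l 16329512) (l 3)) (l 16321568))) (c (l 3) (l 16471280))))), by decide +kernel⟩

def k5_pm_022 : ∃ t, chk3 f_pm_022 t 2 670 1 = true :=
  ⟨(b (b (a (c (c (l 3) (a (l 16172208) (a (l 16368376) (l 3)))) (a (c (a (l 16106952) (l 16226680)) (a (l 16038808) (l 16192768))) (c (l 16289600) (l 16376552)))) (c (c (a (l 8480579899687) (l 16406176)) (l 3)) (c (l 16440104) (l 16475808)))) (b (a (c (a (c (l 16118792) (l 16147264)) (c (a (l 3) (l 16409208)) (a (l 16364392) (c (l 3) (l 16408344))))) (a (c (a (l 16102928) (l 16222656)) (a (l 16013760) (l 16188688))) (c (l 16265624) (l 16373504)))) (c (c (a (a (l 16468336) (l 16385288)) (l 16428432)) (a (l 16441752) (l 16474392))) (c (l 16483376) (l 16477160)))) (a (c (a (c (a (l 16124984)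 (l 16253944)) (c (l 16192152) (a (l 16110312) (l 16236288)))) (c (a (c (l 16361472) (a (l 16384368) (l 16439256))) (a (l 16421952) (l 16419224))) (a (c (l 16340512) (l 16344304)) (c (l 16434336) (a (l 16385552) (l 16421792)))))) (a (c (a (l 16037336) (c (l 16214136) (l 16187112))) (c (a (l 15976560) (l 16190128)) (a (a (l 15997208) (l 16095616)) (l 16189464)))) (c (a (c (l 16308760) (l 16301064)) (l 16333352)) (a (l 16312320) (l 16370056))))) (c (c (a (a (l 16385296) (c (l 16387608) (l 16417616))) (c (a (l 16387632) (l 16425336)) (l 16439744))) (a (c (l 16411904) (l 16447136)) (l 16454296))) (c (a (l 16475424) (l 16499176)) (l 16478064)))))) (a (c (a (l 16081096) (c (a (l 16386360) (l 16478048)) (a (l 16355104) (l 16417808)))) (a (c (l 16045216) (a (l 16067176) (l 16179160))) (c (l 16341008) (l 16364888)))) (c (c (a (l 16454976) (l 16431424)) (l 16462032)) (l 16480568)))), by decide +kernel⟩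

def k6_pm_022 : ∃ t, chk3 f_pm_022 t 2 671 1 = true :=
  ⟨(a (c (a (l 16065376) (c (a (l 16360208) (l 16477712)) (a (l 16339208) (l 16403824)))) (a (c (l 16029160) (a (l 16050912) (l 16162848))) (c (l 16346880) (l 16349576)))) (c (c (a (l 16417472) (l 16436536)) (l 16424944)) (l 16485568))), by decide +kernel⟩

def k7_pm_022 : ∃ t, chk3 f_pm_022 t 3 167 1 = true :=
  ⟨(c (b (b (a (l 3) (c (a (l 3) (l 3342725560775)) (l 3))) (a (c (b (l 3) (l 3998781581927)) (l 7264030568263)) (c (c (b (l 1450255528567) (l 16484904)) (b (l 16507192) (l 16522568))) (b (l 16531320) (l 16526792))))) (b (a (b (b (c (l 16445440) (l 16499000)) (b (c (l 16467704) (l 16521296)) (b (b (c (l 16489224) (l 16521032)) (c (l 16447496) (l 16520680))) (l 16461488)))) (l 16463456)) (b (b (c (c (l 16543648) (l 16539352)) (l 16543528)) (b (c (c (l 16541568) (l 16537256)) (l 16541408)) (b (b (c (c (l 16540696) (l 16536384)) (l 16540528)) (c (c (a (l 16541216) (l 16537208)) (l 16536040)) (l 16540176))) (c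 (l 16538848) (l 16539648))))) (c (l 16535720) (l 16536480)))) (a (l 16468688) (c (l 16527392) (l 16528040))))) (b (b (l 3) (a (l 3) (c (l 4931326551095) (l 3)))) (b (b (b (a (l 16486248) (l 16529416)) (b (a (l 16487608) (l 16530808)) (c (a (l 16498024) (l 16520520)) (a (l 16495576) (l 16521840))))) (l 16459192)) (l 16443704)))), by decide +kernel⟩

def k8_pm_022 : ∃ t, chk3 f_pm_022 t 1 21 1 = true :=
  ⟨(c (a (a (c (a (b (l 15898544) (l 15686704)) (a (b (c (l 16122808) (l 16085208)) (l 15898384)) (b (l 16192296) (l 15983480)))) (a (b (l 15840224) (l 15665576)) (a (b (l 16056560) (l 15838608)) (c (l 15906552) (l 15834216))))) (b (a (b (c (a (l 16358136) (b (l 16451384) (l 16358072))) (b (a (l 16401112) (l 16469144)) (l 16240064))) (a (l 16110784) (c (l 16296512) (l 16354680)))) (b (l 16392952) (a (c (l 16299728) (l 16441416)) (l 16371592)))) (a (c (l 15923152) (l 15970304)) (c (l 16083992) (l 16201344))))) (a (b (c (l 16419400) (l 16415288)) (a (b (a (l 16284824) (l 16219184))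 (l 16331184)) (b (l 16299016) (a (b (l 16273680) (l 16327328)) (l 16177408))))) (a (b (l 16398552) (l 16259616)) (c (c (l 16220808) (l 16303552)) (l 16311864))))) (a (a (c (a (a (l 15733272) (b (l 15954384) (l 15690640))) (b (a (l 16106096) (l 16174944)) (l 15838488))) (a (a (c (l 15689536) (l 15611152)) (l 15770784)) (l 15830480))) (a (b (b (a (l 16377896) (l 16462992)) (l 16260576)) (l 16033872)) (b (b (l 16446152) (l 16280456)) (l 16234160)))) (a (b (l 16422648) (a (b (l 16290928) (l 16454112)) (l 16199336))) (l 16343920)))), by decide +kernel⟩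

def k9_pm_022 : ∃ t, chk3 f_pm_022 t 1 11 1 = true :=
  ⟨(c (a (a (b (a (c (l 15240464) (l 15149432)) (c (a (l 15387072) (l 15533696)) (a (l 15383208) (l 15445456)))) (a (b (l 14885632) (l 14855728)) (b (a (c (l 15054448) (l 14981168)) (l 15090712)) (l 14946032)))) (b (a (c (l 15387456) (l 15553424)) (b (l 15888400) (l 15678392))) (b (a (l 15194392) (l 15399536)) (a (l 15004584) (l 15150576))))) (a (b (a (b (l 16036792) (l 15930024)) (c (l 16077344) (l 16164920))) (l 15380000)) (b (b (a (b (c (l 16059272) (l 16198728)) (l 16241288)) (b (l 16142592) (c (l 15981280) (l 16131328)))) (a (l 16362608) (l 16117000))) (a (l 15879792) (l 16038696))))) (a (a (b (a (c (a (l 15112896) (l 15229680)) (a (l 15071992) (l 15181064))) (c (l 15375392) (l 15363784))) (a (b (c (l 14819616) (l 14586392)) (l 14764448)) (b (l 14945272) (l 14839344)))) (b (b (l 15792824) (l 15574472)) (b (l 15287520) (l 15071544)))) (b (a (b (l 16200792) (l 15979016)) (b (a (l 16127296) (l 16161192)) (l 16306632)))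 (a (l 15611832) (l 15927488))))), by decide +kernel⟩

def k10_pm_022 : ∃ t, chk3 f_pm_022 t 1 3 1 = true :=
  ⟨(a (b (a (b (c (a (l 14855728) (l 14945488)) (a (l 14764448) (l 14838776))) (c (l 14893672) (l 14576280))) (b (c (l 15024504) (l 14994856)) (c (l 15024352) (l 14994696)))) (a (c (l 14893672) (b (l 14806968) (l 14806968))) (c (l 15024352) (l 14994696)))) (b (c (b (b (a (b (l 15300040) (l 15229312)) (b (l 15704840) (l 15513440))) (l 15331952)) (l 15331768)) (b (b (a (l 15243792) (l 15560184)) (l 15289504)) (l 15289320))) (l 15263528))), by decide +kernel⟩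

theorem s11_pm_022 : ∃ t, chk3 f_pm_022 t 2 335 1 = true := ex3_b k5_pm_022 k6_pm_022

theorem s12_pm_022 : ∃ t, chk3 f_pm_022 t 2 167 1 = true := ex3_b k4_pm_022 s11_pm_022

theorem s13_pm_022 : ∃ t, chk3 f_pm_022 t 1 167 1 = true := ex3_a s12_pm_022 k7_pm_022

theorem s14_pm_022 : ∃ t, chk3 f_pm_022 t 1 83 1 = true := ex3_b k3_pm_022 s13_pm_022

theorem s15_pm_022 : ∃ t, chk3 f_pm_022 t 1 41 1 = true := ex3_b k2_pm_022 s14_pm_022

theorem s16_pm_022 : ∃ t, chk3 f_pm_022 t 1 20 1 = true := ex3_b k1_pm_022 s15_pm_022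

theorem s17_pm_022 : ∃ t, chk3 f_pm_022 t 1 10 1 = true := ex3_b s16_pm_022 k8_pm_022

theorem s18_pm_022 : ∃ t, chk3 f_pm_022 t 1 5 1 = true := ex3_b s17_pm_022 k9_pm_022

theorem s19_pm_022 : ∃ t, chk3 f_pm_022 t 1 2 1 = true := ex3_b k0_pm_022 s18_pm_022

theorem s20_pm_022 : ∃ t, chk3 f_pm_022 t 1 1 1 = true := ex3_b s19_pm_022 k10_pm_022

theorem c_pm_022 : CertFX 0 67108864 1073741824 536870912 1046898278 26843546 true true false .pp 0 2 2
    ndF4q0 ndF6q2 pcF2 Cut.none Ext.none :=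
  certFX1 (fam := true) (s1 := true) (s2 := false) (a := 0) (b := 2) (c := 2) (cn := .pp) (n1 := ndF4q0) (n2 := ndF6q2) (pc := pcF2) (cut := Cut.none) (xt := Ext.none) (P1 := 0) (W1 := 67108864) (P2 := 1073741824) (W2 := 536870912) (P3 := 1046898278) (W3 := 26843546)
    rfl (fun _ => rfl) s20_pm_022

noncomputable def f_pm_023 : ℕ → ℕ → ℕ → ℕ → Bool := onCell 0 67108864 1610612736 536870912 1046898278 26843546
    (rowFX 1 true true false .up 0 2 3 (qsf 0 67108864 1073741824 536870912 3) ndF4q0 ndF6q2 pcF3 Cut.none Ext.none)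

def k0_pm_023 : ∃ t, chk3 f_pm_023 t 1 1 1 = true :=
  ⟨(b (b (b (a (c (l 14949152) (l 114449817591)) (l 15305472)) (a (l 2) (l 15305472))) (l 2)) (l 2)), by decide +kernel⟩

theorem c_pm_023 : CertFX 0 67108864 1073741824 536870912 1046898278 26843546 true true false .up 0 2 3
    ndF4q0 ndF6q2 pcF3 Cut.none Ext.none :=
  certFX1 (fam := true) (s1 := true) (s2 := false) (a := 0) (b := 2) (c := 3) (cn := .up) (n1 := ndF4q0) (n2 := ndF6q2) (pc := pcF3) (cut := Cut.none) (xt := Ext.none) (P1 := 0) (W1 := 67108864) (P2 := 1073741824) (W2 := 536870912) (P3 := 1046898278) (W3 := 26843546)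
    rfl (fun _ => rfl) k0_pm_023

noncomputable def f_pm_033 : ℕ → ℕ → ℕ → ℕ → Bool := onCell 0 67108864 0 1230186008 1046898278 26843546
    (rowFX 0 true true false .pnn 0 3 3 (qsf 0 67108864 0 1230186008 3) ndF4q0 ndF6q3 pcF3 Cut.none Ext.none)

def k0_pm_033 : ∃ t, chk3 f_pm_033 t 1 1 1 = true :=
  ⟨(b (b (l 4) (b (l 4) (l 4))) (b (b (a (b (b (a (c (a (l 14855704) (l 4)) (a (c (l 14788928) (l 14743944)) (b (l 4) (l 14838744)))) (l 4)) (c (a (a (l 14855680) (l 14945448)) (b (l 4) (l 15024328))) (a (a (l 14680504) (l 14838728)) (c (l 15011776) (l 14983200))))) (c (a (b (l 14893600) (l 14872624)) (b (l 15024312) (l 15024296))) (a (b (a (l 14764344) (l 14838688)) (a (l 14638512) (l 14838672))) (b (l 14994640) (l 14994624))))) (b (l 4) (a (c (b (l 160755746695) (l 15228904)) (c (l 179546362983) (l 163977035655))) (b (l 4) (c (l 15445528) (l 15383712)))))) (b (a (c (a (a (l 14855680) (l 14945432)) (b (l 15024296) (l 15024312))) (a (a (c (l 14788896) (l 14743912)) (l 14838712))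 (l 14889776))) (c (b (a (l 15228888) (l 15445520)) (l 15331728)) (b (a (l 15195424) (l 15383712)) (l 15289264)))) (a (a (c (l 14893672) (a (l 14701536) (l 14838768))) (l 14947360)) (b (c (l 15331736) (l 15289280)) (l 15158648))))) (b (a (b (a (c (l 14893672) (a (c (l 14788952) (l 14743968)) (l 14838776))) (c (l 15024352) (l 14994696))) (a (c (l 14893672) (a (c (l 14788952) (l 14743968)) (l 14838776))) (c (l 15024352) (l 14994696)))) (b (c (l 15331768) (l 15289312)) (c (l 15331768) (l 15289320)))) (b (a (a (c (l 14893672) (a (l 14764448) (l 14838776))) (l 14989320)) (c (l 15331768) (l 15289320))) (a (a (c (l 14893672) (l 14744056)) (c (l 15024352) (l 14994696))) (b (l 15305472) (l 15305472))))))), by decide +kernel⟩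

theorem c_pm_033 : CertFX 0 67108864 0 1230186008 1046898278 26843546 true true false .pnn 0 3 3
    ndF4q0 ndF6q3 pcF3 Cut.none Ext.none :=
  certFX0 (fam := true) (s1 := true) (s2 := false) (a := 0) (b := 3) (c := 3) (cn := .pnn) (n1 := ndF4q0) (n2 := ndF6q3) (pc := pcF3) (cut := Cut.none) (xt := Ext.none) (P1 := 0) (W1 := 67108864) (P2 := 0) (W2 := 1230186008) (P3 := 1046898278) (W3 := 26843546)
    rfl k0_pm_033

noncomputable def f_mm_001 : ℕ → ℕ → ℕ → ℕ → Bool := onCell 0 67108864 0 536870912 1046898278 26843546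
    (rowFX 0 true false false .up 0 0 1 (qsf 0 67108864 0 536870912 1) ndF4q0 ndF6q0 pcF1 Cut.none Ext.none)

def k0_mm_001 : ∃ t, chk3 f_mm_001 t 1 1 1 = true :=
  ⟨(l 4), by decide +kernel⟩

theorem c_mm_001 : CertFX 0 67108864 0 536870912 1046898278 26843546 true false false .up 0 0 1
    ndF4q0 ndF6q0 pcF1 Cut.none Ext.none :=
  certFX0 (fam := true) (s1 := false) (s2 := false) (a := 0) (b := 0) (c := 1) (cn := .up) (n1 := ndF4q0) (n2 := ndF6q0) (pc := pcF1) (cut := Cut.none) (xt := Ext.none) (P1 := 0) (W1 := 67108864) (P2 := 0) (W2 := 536870912) (P3 := 1046898278) (W3 := 26843546)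
    rfl k0_mm_001

noncomputable def f_mm_011 : ℕ → ℕ → ℕ → ℕ → Bool := onCell 0 67108864 536870912 469762048 1046898278 26843546
    (rowFX 0 true false false .pnn 0 1 1 (qsf 0 67108864 536870912 469762048 1) ndF4q0 ndF6q1 pcF1 Cut.none Ext.none)

def k0_mm_011 : ∃ t, chk3 f_mm_011 t 1 1 1 = true :=
  ⟨(l 4), by decide +kernel⟩

theorem c_mm_011 : CertFX 0 67108864 536870912 469762048 1046898278 26843546 true false false .pnn 0 1 1
    ndF4q0 ndF6q1 pcF1 Cut.none Ext.none :=
  certFX0 (fam := true) (s1 := false) (s2 := false) (a := 0) (b := 1) (c := 1) (cn := .pnn) (n1 := ndF4q0) (n2 := ndF6q1) (pc := pcF1) (cut := Cut.none) (xt := Ext.none) (P1 := 0) (W1 := 67108864) (P2 := 536870912) (W2 := 469762048) (P3 := 1046898278) (W3 := 26843546)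
    rfl k0_mm_011

noncomputable def f_mm_012 : ℕ → ℕ → ℕ → ℕ → Bool := onCell 0 67108864 536870912 469762048 1046898278 26843546
    (rowFX 0 true false false .pnp 0 1 2 (qsf 0 67108864 536870912 469762048 2) ndF4q0 ndF6q1 pcF2 Cut.none Ext.none)

def k0_mm_012 : ∃ t, chk3 f_mm_012 t 1 1 1 = true :=
  ⟨(l 4), by decide +kernel⟩

theorem c_mm_012 : CertFX 0 67108864 536870912 469762048 1046898278 26843546 true false false .pnp 0 1 2
    ndF4q0 ndF6q1 pcF2 Cut.none Ext.none :=
  certFX0 (fam := true) (s1 := false) (s2 := false) (a := 0) (b := 1) (c := 2) (cn := .pnp) (n1 := ndF4q0) (n2 := ndF6q1) (pc := pcF2) (cut := Cut.none) (xt := Ext.none) (P1 := 0) (W1 := 67108864) (P2 := 536870912) (W2 := 469762048) (P3 := 1046898278) (W3 := 26843546)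
    rfl k0_mm_012

noncomputable def f_mm_022 : ℕ → ℕ → ℕ → ℕ → Bool := onCell 0 67108864 1073741824 536870912 1046898278 26843546
    (rowFX 0 true false false .pp 0 2 2 (qsf 0 67108864 1073741824 536870912 2) ndF4q0 ndF6q2 pcF2 Cut.none Ext.none)

def k0_mm_022 : ∃ t, chk3 f_mm_022 t 1 1 1 = true :=
  ⟨(l 4), by decide +kernel⟩

theorem c_mm_022 : CertFX 0 67108864 1073741824 536870912 1046898278 26843546 true false false .pp 0 2 2
    ndF4q0 ndF6q2 pcF2 Cut.none Ext.none :=
  certFX0 (fam := true) (s1 := false) (s2 := false) (a := 0) (b := 2) (c := 2) (cn := .pp) (n1 := ndF4q0) (n2 := ndF6q2) (pc := pcF2) (cut := Cut.none) (xt := Ext.none) (P1 := 0) (W1 := 67108864) (P2 := 1073741824) (W2 := 536870912) (P3 := 1046898278) (W3 := 26843546)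
    rfl k0_mm_022

noncomputable def f_mm_023 : ℕ → ℕ → ℕ → ℕ → Bool := onCell 0 67108864 1073741824 536870912 1046898278 26843546
    (rowFX 0 true false false .up 0 2 3 (qsf 0 67108864 1073741824 536870912 3) ndF4q0 ndF6q2 pcF3 Cut.none Ext.none)

def k0_mm_023 : ∃ t, chk3 f_mm_023 t 1 1 1 = true :=
  ⟨(l 4), by decide +kernel⟩

theorem c_mm_023 : CertFX 0 67108864 1073741824 536870912 1046898278 26843546 true false false .up 0 2 3
    ndF4q0 ndF6q2 pcF3 Cut.none Ext.none :=
  certFX0 (fam := true) (s1 := false) (s2 := false) (a := 0) (b := 2) (c := 3) (cn := .up) (n1 := ndF4q0) (n2 := ndF6q2) (pc := pcF3) (cut := Cut.none) (xt := Ext.none) (P1 := 0) (W1 := 67108864) (P2 := 1073741824) (W2 := 536870912) (P3 := 1046898278) (W3 := 26843546)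
    rfl k0_mm_023

noncomputable def f_mm_033 : ℕ → ℕ → ℕ → ℕ → Bool := onCell 0 67108864 0 1230186008 1046898278 26843546
    (rowFX 0 true false false .pnn 0 3 3 (qsf 0 67108864 0 1230186008 3) ndF4q0 ndF6q3 pcF3 Cut.none Ext.none)

def k0_mm_033 : ∃ t, chk3 f_mm_033 t 1 1 1 = true :=
  ⟨(l 5), by decide +kernel⟩

theorem c_mm_033 : CertFX 0 67108864 0 1230186008 1046898278 26843546 true false false .pnn 0 3 3
    ndF4q0 ndF6q3 pcF3 Cut.none Ext.none :=
  certFX0 (fam := true) (s1 := false) (s2 := false) (a := 0) (b := 3) (c := 3) (cn := .pnn) (n1 := ndF4q0) (n2 := ndF6q3) (pc := pcF3) (cut := Cut.none) (xt := Ext.none) (P1 := 0) (W1 := 67108864) (P2 := 0) (W2 := 1230186008) (P3 := 1046898278) (W3 := 26843546)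
    rfl k0_mm_033

end Pool.Agent.Strip051.G.IE1.Tab.C.FA46

namespace Pool.Agent.Strip051.G.IE1.Tab.C.FA47

open Pool.Agent.Strip051.PB Pool.Agent.Strip051.PB.T
open Pool.Agent.Strip051.G.IE1.Tab

noncomputable def f_pp_001 : ℕ → ℕ → ℕ → ℕ → Bool := onCell 0 67108864 0 536870912 1046898278 26843546
    (rowFX 0 true true true .up 0 0 1 (qsf 0 67108864 0 536870912 1) ndF4q0 ndF7q0 pcF1 Cut.none Ext.none)

def k0_pp_001 : ∃ t, chk3 f_pp_001 t 1 1 1 = true :=
  ⟨(l 4), by decide +kernel⟩

theorem c_pp_001 : CertFX 0 67108864 0 536870912 1046898278 26843546 true true true .up 0 0 1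
    ndF4q0 ndF7q0 pcF1 Cut.none Ext.none :=
  certFX0 (fam := true) (s1 := true) (s2 := true) (a := 0) (b := 0) (c := 1) (cn := .up) (n1 := ndF4q0) (n2 := ndF7q0) (pc := pcF1) (cut := Cut.none) (xt := Ext.none) (P1 := 0) (W1 := 67108864) (P2 := 0) (W2 := 536870912) (P3 := 1046898278) (W3 := 26843546)
    rfl k0_pp_001

noncomputable def f_pp_011 : ℕ → ℕ → ℕ → ℕ → Bool := onCell 0 67108864 536870912 536870912 1046898278 26843546
    (rowFX 0 true true true .pnn 0 1 1 (qsf 0 67108864 536870912 536870912 1) ndF4q0 ndF7q1 pcF1 Cut.none Ext.none)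

def k0_pp_011 : ∃ t, chk3 f_pp_011 t 1 1 1 = true :=
  ⟨(l 4), by decide +kernel⟩

theorem c_pp_011 : CertFX 0 67108864 536870912 536870912 1046898278 26843546 true true true .pnn 0 1 1
    ndF4q0 ndF7q1 pcF1 Cut.none Ext.none :=
  certFX0 (fam := true) (s1 := true) (s2 := true) (a := 0) (b := 1) (c := 1) (cn := .pnn) (n1 := ndF4q0) (n2 := ndF7q1) (pc := pcF1) (cut := Cut.none) (xt := Ext.none) (P1 := 0) (W1 := 67108864) (P2 := 536870912) (W2 := 536870912) (P3 := 1046898278) (W3 := 26843546)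
    rfl k0_pp_011

noncomputable def f_pp_012 : ℕ → ℕ → ℕ → ℕ → Bool := onCell 0 67108864 536870912 536870912 1046898278 26843546
    (rowFX 0 true true true .pnp 0 1 2 (qsf 0 67108864 536870912 536870912 2) ndF4q0 ndF7q1 pcF2 Cut.none Ext.none)

def k0_pp_012 : ∃ t, chk3 f_pp_012 t 1 1 1 = true :=
  ⟨(l 4), by decide +kernel⟩

theorem c_pp_012 : CertFX 0 67108864 536870912 536870912 1046898278 26843546 true true true .pnp 0 1 2
    ndF4q0 ndF7q1 pcF2 Cut.none Ext.none :=
  certFX0 (fam := true) (s1 := true) (s2 := true) (a := 0) (b := 1) (c := 2) (cn := .pnp) (n1 := ndF4q0) (n2 := ndF7q1) (pc := pcF2) (cut := Cut.none) (xt := Ext.none) (P1 := 0) (W1 := 67108864) (P2 := 536870912) (W2 := 536870912) (P3 := 1046898278) (W3 := 26843546)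
    rfl k0_pp_012

noncomputable def f_pp_022 : ℕ → ℕ → ℕ → ℕ → Bool := onCell 0 67108864 1073741824 536870912 1046898278 26843546
    (rowFX 0 true true true .pp 0 2 2 (qsf 0 67108864 1073741824 536870912 2) ndF4q0 ndF7q2 pcF2 Cut.none Ext.none)

def k0_pp_022 : ∃ t, chk3 f_pp_022 t 1 1 1 = true :=
  ⟨(l 4), by decide +kernel⟩

theorem c_pp_022 : CertFX 0 67108864 1073741824 536870912 1046898278 26843546 true true true .pp 0 2 2
    ndF4q0 ndF7q2 pcF2 Cut.none Ext.none :=
  certFX0 (fam := true) (s1 := true) (s2 := true) (a := 0) (b := 2) (c := 2) (cn := .pp) (n1 := ndF4q0) (n2 := ndF7q2) (pc := pcF2) (cut := Cut.none) (xt := Ext.none) (P1 := 0) (W1 := 67108864) (P2 := 1073741824) (W2 := 536870912) (P3 := 1046898278) (W3 := 26843546)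
    rfl k0_pp_022

noncomputable def f_pp_023 : ℕ → ℕ → ℕ → ℕ → Bool := onCell 0 67108864 1073741824 536870912 1046898278 26843546
    (rowFX 0 true true true .up 0 2 3 (qsf 0 67108864 1073741824 536870912 3) ndF4q0 ndF7q2 pcF3 Cut.none Ext.none)

def k0_pp_023 : ∃ t, chk3 f_pp_023 t 1 1 1 = true :=
  ⟨(l 4), by decide +kernel⟩

theorem c_pp_023 : CertFX 0 67108864 1073741824 536870912 1046898278 26843546 true true true .up 0 2 3
    ndF4q0 ndF7q2 pcF3 Cut.none Ext.none :=
  certFX0 (fam := true) (s1 := true) (s2 := true) (a := 0) (b := 2) (c := 3) (cn := .up) (n1 := ndF4q0) (n2 := ndF7q2) (pc := pcF3) (cut := Cut.none) (xt := Ext.none) (P1 := 0) (W1 := 67108864) (P2 := 1073741824) (W2 := 536870912) (P3 := 1046898278) (W3 := 26843546)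
    rfl k0_pp_023

noncomputable def f_pp_033 : ℕ → ℕ → ℕ → ℕ → Bool := onCell 0 67108864 0 1230186008 1046898278 26843546
    (rowFX 0 true true true .pnn 0 3 3 (qsf 0 67108864 0 1230186008 3) ndF4q0 ndF7q3 pcF3 Cut.none Ext.none)

def k0_pp_033 : ∃ t, chk3 f_pp_033 t 1 1 1 = true :=
  ⟨(l 4), by decide +kernel⟩

theorem c_pp_033 : CertFX 0 67108864 0 1230186008 1046898278 26843546 true true true .pnn 0 3 3
    ndF4q0 ndF7q3 pcF3 Cut.none Ext.none :=
  certFX0 (fam := true) (s1 := true) (s2 := true) (a := 0) (b := 3) (c := 3) (cn := .pnn) (n1 := ndF4q0) (n2 := ndF7q3) (pc := pcF3) (cut := Cut.none) (xt := Ext.none) (P1 := 0) (W1 := 67108864) (P2 := 0) (W2 := 1230186008) (P3 := 1046898278) (W3 := 26843546)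
    rfl k0_pp_033

noncomputable def f_pm_001 : ℕ → ℕ → ℕ → ℕ → Bool := onCell 0 67108864 0 536870912 1046898278 26843546
    (rowFX 0 true true false .up 0 0 1 (qsf 0 67108864 0 536870912 1) ndF4q0 ndF7q0 pcF1 Cut.none Ext.none)

def k0_pm_001 : ∃ t, chk3 f_pm_001 t 1 1 1 = true :=
  ⟨(l 3), by decide +kernel⟩

theorem c_pm_001 : CertFX 0 67108864 0 536870912 1046898278 26843546 true true false .up 0 0 1
    ndF4q0 ndF7q0 pcF1 Cut.none Ext.none :=
  certFX0 (fam := true) (s1 := true) (s2 := false) (a := 0) (b := 0) (c := 1) (cn := .up) (n1 := ndF4q0) (n2 := ndF7q0) (pc := pcF1) (cut := Cut.none) (xt := Ext.none) (P1 := 0) (W1 := 67108864) (P2 := 0) (W2 := 536870912) (P3 := 1046898278) (W3 := 26843546)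
    rfl k0_pm_001

noncomputable def cut_pm_011 : Cut := Cut.of [[⟨0, 0, 0, 67108864⟩, ⟨1, 1, 0, 67108864⟩, ⟨2, 1, 0, 67108864⟩]]

noncomputable def f_pm_011 : ℕ → ℕ → ℕ → ℕ → Bool := onCell 0 67108864 536870912 536870912 1046898278 26843546
    (rowFX 1 true true false .pnn 0 1 1 (qsf 0 67108864 536870912 536870912 1) ndF4q0 ndF7q1 pcF1 cut_pm_011 Ext.none)

def k0_pm_011 : ∃ t, chk3 f_pm_011 t 1 1 1 = true :=
  ⟨(b (l 3) (b (l 3) (a (a (b (l 3) (b (l 3) (l 6))) (l 3)) (l 3)))), by decide +kernel⟩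

theorem c_pm_011 : CertFX 0 67108864 536870912 536870912 1046898278 26843546 true true false .pnn 0 1 1
    ndF4q0 ndF7q1 pcF1 cut_pm_011 Ext.none :=
  certFX1 (fam := true) (s1 := true) (s2 := false) (a := 0) (b := 1) (c := 1) (cn := .pnn) (n1 := ndF4q0) (n2 := ndF7q1) (pc := pcF1) (cut := cut_pm_011) (xt := Ext.none) (P1 := 0) (W1 := 67108864) (P2 := 536870912) (W2 := 536870912) (P3 := 1046898278) (W3 := 26843546)
    rfl (fun _ => rfl) k0_pm_011

noncomputable def cut_pm_012 : Cut := Cut.of [[⟨0, 0, 0, 67108864⟩, ⟨1, 1, 0, 67108864⟩, ⟨2, 1, 0, 67108864⟩]]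

noncomputable def f_pm_012 : ℕ → ℕ → ℕ → ℕ → Bool := onCell 0 67108864 536870912 536870912 1046898278 26843546
    (rowFX 0 true true false .pnp 0 1 2 (qsf 0 67108864 536870912 536870912 2) ndF4q0 ndF7q1 pcF2 cut_pm_012 Ext.none)

def k0_pm_012 : ∃ t, chk3 f_pm_012 t 1 1 1 = true :=
  ⟨(b (l 1) (b (l 1) (b (l 3) (b (l 3) (a (l 6) (a (l 6) (a (l 6) (a (l 6) (a (l 6) (c (b (l 3) (b (l 3) (l 15433344))) (b (c (l 3) (b (l 3) (l 15764952))) (b (c (l 15569368) (l 15459096)) (c (l 15436848) (c (l 15445400) (l 15475152))))))))))))))), by decide +kernel⟩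

theorem c_pm_012 : CertFX 0 67108864 536870912 536870912 1046898278 26843546 true true false .pnp 0 1 2
    ndF4q0 ndF7q1 pcF2 cut_pm_012 Ext.none :=
  certFX0 (fam := true) (s1 := true) (s2 := false) (a := 0) (b := 1) (c := 2) (cn := .pnp) (n1 := ndF4q0) (n2 := ndF7q1) (pc := pcF2) (cut := cut_pm_012) (xt := Ext.none) (P1 := 0) (W1 := 67108864) (P2 := 536870912) (W2 := 536870912) (P3 := 1046898278) (W3 := 26843546)
    rfl k0_pm_012

noncomputable def cut_pm_022 : Cut := Cut.of [[⟨0, 0, 0, 67108864⟩, ⟨1, 1, 0, 67108864⟩, ⟨2, 1, 0, 67108864⟩]]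

noncomputable def f_pm_022 : ℕ → ℕ → ℕ → ℕ → Bool := onCell 0 67108864 1073741824 536870912 1046898278 26843546
    (rowFX 1 true true false .pp 0 2 2 (qsf 0 67108864 1073741824 536870912 2) ndF4q0 ndF7q2 pcF2 cut_pm_022 Ext.none)

def k0_pm_022 : ∃ t, chk3 f_pm_022 t 2 8 1 = true :=
  ⟨(b (l 6) (b (l 6) (b (l 6) (b (l 6) (b (l 6) (b (l 6) (b (l 6) (c (a (a (c (l 16413656) (l 16387904)) (c (l 16211048) (c (l 16330576) (l 16396544)))) (c (a (l 16155480) (l 16038152)) (a (l 16238544) (l 16042736)))) (a (a (c (a (l 16620512) (l 16521112)) (a (c (l 16535584) (c (l 16556336) (l 16564744))) (c (l 16590216) (l 16602912)))) (c (l 16431408) (l 16479672))) (c (l 16042824) (l 16234232))))))))))), by decide +kernel⟩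

def k1_pm_022 : ∃ t, chk3 f_pm_022 t 2 18 1 = true :=
  ⟨(c (b (a (c (a (b (c (l 16392536) (l 16425280)) (l 16353704)) (b (a (l 16257384) (l 16199272)) (a (l 16257536) (l 16213672)))) (a (b (c (l 16453384) (l 16454968)) (l 16363224)) (a (b (l 16223728) (l 16299288)) (b (l 16268056) (l 16326184))))) (c (b (a (c (l 16128632) (l 16186192)) (c (l 16026896) (l 16027416))) (a (l 16158512) (l 16021512))) (b (c (a (l 16227960) (l 16037704)) (l 16076400)) (a (l 16152152) (l 16063512))))) (a (c (a (b (l 16422360) (l 16448744)) (a (a (l 16256256) (l 16106296)) (l 16111288))) (a (b (l 16464800) (l 16401432)) (c (l 16291536) (a (l 16464920) (l 16430928))))) (c (a (c (l 16171760) (l 16135936)) (l 16018032)) (a (c (l 16163448) (l 16312120)) (l 15998808))))) (b (a (c (a (b (a (c (l 16610384) (l 16529024)) (c (l 16502248) (l 16543576))) (a (c (l 16622520) (l 16541176)) (c (l 16531808) (l 16555304)))) (b (a (l 16450760) (l 16420888)) (a (l 16501144) (l 16428520)))) (a (a (c (b (c (l 16522344)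 (l 16545688)) (l 16484552)) (a (b (a (l 16518960) (l 16582240)) (l 16454368)) (l 16536704))) (b (c (l 16552480) (l 16610016)) (c (l 16585272) (l 16616648)))) (b (c (l 16431592) (l 16428784)) (a (l 16493408) (l 16434312))))) (c (b (c (l 16034384) (l 16203320)) (a (l 16292768) (l 16108112))) (b (l 16173872) (l 16129472)))) (a (a (c (a (b (l 16423048) (l 16394760)) (b (c (l 16549720) (l 16547584)) (c (l 16567128) (l 16556648)))) (a (c (a (l 16471376) (l 16512928)) (a (l 16351664) (l 16451664))) (b (l 16426056) (l 16518048)))) (c (b (a (l 16520848) (l 16443488)) (a (l 16517544) (l 16468672))) (b (c (l 16500984) (l 16524432)) (l 16471152)))) (c (b (l 16223880) (l 16208320)) (b (l 16107456) (l 16150536)))))), by decide +kernel⟩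

def k2_pm_022 : ∃ t, chk3 f_pm_022 t 2 19 1 = true :=
  ⟨(c (b (a (b (a (c (l 16529112) (a (l 16456240) (l 16454928))) (c (c (l 16171672) (l 16341832)) (a (l 16476000) (l 16417880)))) (a (c (l 16540416) (a (l 16492752) (l 16533552))) (c (l 16375432) (a (l 16476600) (l 16425688))))) (b (c (a (l 16157480) (l 16120232)) (l 16042360)) (c (a (l 16270120) (l 16164312)) (l 16267056)))) (a (a (c (b (l 16540208) (l 16451176)) (b (l 16258696) (l 16356024))) (c (b (l 16378176) (l 16340688)) (b (a (l 16464216) (l 16433992)) (c (l 16437048) (l 16485672))))) (c (b (l 16003216) (l 16107696)) (b (l 16167456) (a (l 16278984) (l 16185880)))))) (b (a (c (a (b (a (l 16461784) (c (l 16489976) (l 16520072))) (a (l 16423832) (l 16467744))) (b (b (l 16493704) (l 16439760)) (l 16412048))) (a (a (c (b (l 16386032) (l 16363408)) (b (l 16306816) (l 16301336))) (b (l 16461600) (l 16399000))) (b (l 16459976) (l 16553568)))) (b (c (l 16029416) (b (l 16272992) (l 16221256))) (c (l 16160200) (a (l 16403704)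 (l 16245016))))) (a (a (c (a (b (l 16370720) (l 16294968)) (b (l 16405192) (l 16355168))) (a (c (l 16180272) (l 16091560)) (b (l 16349504) (l 16293728)))) (c (b (l 16479176) (l 16475568)) (l 16355424))) (b (c (l 16088872) (l 16263456)) (a (l 16295984) (l 16079088)))))), by decide +kernel⟩

def k3_pm_022 : ∃ t, chk3 f_pm_022 t 3 4 1 = true :=
  ⟨(a (b (b (l 6) (b (l 6) (b (l 6) (b (l 6) (c (c (l 15797872) (a (l 15854416) (l 15703184))) (c (a (l 15911416) (l 15745112)) (l 15885264))))))) (b (b (c (c (b (l 15677600) (l 15681832)) (b (c (l 15546544) (a (l 15857576) (l 15686912))) (a (l 15862584) (l 15676032)))) (c (b (c (a (l 15899072) (l 15722536)) (l 15858624)) (l 15702440)) (b (l 15903336) (l 15916072)))) (c (c (b (l 15741248) (l 15779856)) (b (l 15734344) (l 15752200))) (c (b (l 15870208) (l 15897776)) (l 15949208)))) (b (c (b (c (l 15826296) (l 15794520)) (c (l 15882128) (l 15918184))) (b (l 15783864) (l 15930640))) (c (c (l 15913136) (a (l 16018272) (l 15870816))) (b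 (l 15870216) (c (l 15973600) (l 16016344))))))) (b (b (l 1) (b (a (l 6) (l 1)) (b (a (l 6) (a (l 6) (l 1))) (c (c (l 15515584) (l 15502104)) (c (l 15445912) (a (b (l 6) (l 15475016)) (b (l 15478816) (l 15474848)))))))) (b (c (b (b (c (l 15466368) (l 15473392)) (c (l 15430856) (l 15433392))) (c (b (l 15250568) (l 15406088)) (b (l 15426784) (l 15469168)))) (b (c (b (b (l 15501664) (l 15444352)) (a (l 15569144) (l 15406832))) (b (c (a (l 15633944) (l 15451088)) (a (l 15656568) (l 15485616))) (l 15530968))) (c (b (l 15521112) (l 15556944)) (l 15558256)))) (b (c (c (b (l 15443744) (l 15503672)) (b (l 15514952) (l 15576144))) (b (c (l 15598912) (l 15657584)) (l 15658392))) (c (c (l 15398072) (l 15633624)) (b (l 15688560) (l 15702008))))))), by decide +kernel⟩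

def k4_pm_022 : ∃ t, chk3 f_pm_022 t 2 20 1 = true :=
  ⟨(a (a (b (c (b (c (l 16419736) (l 16271976)) (l 16108104)) (c (a (l 16070296) (b (l 16246888) (l 16186584))) (a (c (l 16017048) (l 15882712)) (l 16023336)))) (b (c (c (l 16215472) (l 16089920)) (c (l 15799168) (a (l 15734696) (l 15975992)))) (b (c (l 15932296) (c (l 15689456) (a (l 15650616) (l 15869056)))) (c (b (l 15942320) (a (l 15874456) (l 15892336))) (b (c (l 15689296) (a (l 15680360) (l 15812040))) (c (a (l 15771592) (a (l 15851376) (l 15890096))) (a (c (l 15709440) (l 15541392)) (l 15775104)))))))) (b (c (c (b (l 16281856) (l 16475872)) (a (l 16326960) (l 16416016))) (c (b (l 16412744) (l 16289464)) (b (l 16364112) (l 16260104)))) (b (c (a (l 16104544) (l 16184072)) (c (l 16143808) (l 16135968))) (b (c (c (l 16205056) (l 16088528)) (c (l 16093448) (l 16026280))) (c (b (c (l 16164648) (l 16075896)) (c (l 16026224) (a (l 16040536) (l 16080848)))) (b (l 15776960) (c (l 15938120) (l 15925248)))))))) (b (c (b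 (a (c (l 16277944) (l 16365992)) (l 16036576)) (c (a (l 16364256) (l 16224336)) (l 16192080))) (b (a (l 16427432) (l 16221264)) (l 16240240))) (b (c (a (l 16287240) (l 16330720)) (a (l 16250840) (l 16409504))) (b (c (a (l 16188432) (l 16437736)) (l 16108728)) (c (b (c (l 16274376) (l 16229640)) (c (l 16110128) (l 16111864))) (b (l 16098944) (a (l 16082592) (l 16277128)))))))), by decide +kernel⟩

def k5_pm_022 : ∃ t, chk3 f_pm_022 t 3 20 1 = true :=
  ⟨(b (b (c (a (c (l 15954048) (l 15960016)) (l 15435976)) (a (c (l 15980496) (l 16046816)) (l 15711072))) (c (a (c (l 15981752) (l 15913048)) (c (l 15648616) (l 15681352))) (a (l 15913816) (l 15547904)))) (b (c (a (c (l 15880720) (l 15967944)) (c (b (l 15665760) (l 15697896)) (l 15721112))) (a (a (l 16241816) (l 16068136)) (l 15773936))) (b (c (a (l 16146784) (c (l 15759240) (l 15817672))) (a (l 16213032) (l 15916128))) (c (a (b (l 16233104) (l 16228800)) (b (l 15885136) (l 15882128))) (a (b (l 16328416) (l 16273256)) (b (l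 15992080) (l 16043176))))))), by decide +kernel⟩

def k6_pm_022 : ∃ t, chk3 f_pm_022 t 1 21 1 = true :=
  ⟨(a (a (c (a (c (l 15899144) (l 15740184)) (c (l 15856816) (a (l 15971432) (l 16005264)))) (a (c (a (l 15732680) (l 15714832)) (a (c (l 15681864) (l 15647336)) (l 15742720))) (c (l 15901464) (l 15882224)))) (c (a (c (l 16121376) (l 16113808)) (b (l 16341696) (l 16256856))) (a (l 15977904) (b (l 16296720) (l 16234216))))) (c (a (l 16132704) (c (l 15971656) (l 16040136))) (a (l 16256424) (l 16018488)))), by decide +kernel⟩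

def k7_pm_022 : ∃ t, chk3 f_pm_022 t 1 11 1 = true :=
  ⟨(a (a (b (c (a (c (l 15769312) (l 15737760)) (c (l 15851968) (l 15740616))) (a (c (a (l 15655032) (l 15730840)) (c (l 15573360) (l 15637056))) (c (l 15815192) (l 15798272)))) (c (a (l 15545112) (c (l 15716696) (l 15656160))) (a (c (l 15454104) (a (l 15428656) (l 15492200))) (c (l 15614176) (l 15606904))))) (b (c (c (a (l 15988512) (l 16101904)) (l 15880216)) (b (l 16032056) (l 16001496))) (c (c (l 15823016) (l 15825168)) (l 15788912)))) (b (c (a (b (l 16347544) (l 16252392)) (c (l 16210768) (l 16218656))) (a (l 16105992) (l 16166008))) (c (a (b (l 16191656) (l 16064496)) (c (l 16412928) (l 16432232))) (c (l 16023512) (l 16042152))))), by decide +kernel⟩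

def k8_pm_022 : ∃ t, chk3 f_pm_022 t 1 3 1 = true :=
  ⟨(b (a (b (c (a (a (b (l 15300256) (l 15074512)) (b (l 15270784) (c (l 15249800) (l 15181624)))) (b (l 15462072) (l 15320080))) (a (c (a (b (l 15245424) (l 15013888)) (l 15244752)) (a (b (l 15208408) (l 14973008)) (l 15231752))) (b (l 15578360) (l 15344952)))) (c (a (b (a (l 14892872) (c (l 15052568) (l 14980728))) (l 14725904)) (b (l 15155496) (l 15035992))) (a (b (c (a (l 14827192) (l 14927456)) (l 14806256)) (c (l 14828616) (l 14788264))) (b (l 15130952) (l 15006816))))) (b (a (c (l 15514760) (l 15584824)) (c (b (l 16100048) (l 15958200)) (b (l 16148872) (l 15915656)))) (c (a (b (l 15449672) (l 15280576)) (l 15444904)) (b (l 15563200) (l 15382656))))) (a (c (b (a (c (l 14925520) (l 14871064)) (l 15024352)) (a (l 14893672) (l 15024352))) (b (a (c (l 14828616) (l 14788264)) (l 14994696)) (a (l 14806968) (l 14994696)))) (c (b (b (l 15339776) (l 15331768)) (l 15331768)) (b (l 15294880) (l 15289320))))), by decide +kernel⟩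

theorem s9_pm_022 : ∃ t, chk3 f_pm_022 t 1 20 1 = true := ex3_a k4_pm_022 k5_pm_022

theorem s10_pm_022 : ∃ t, chk3 f_pm_022 t 1 10 1 = true := ex3_b s9_pm_022 k6_pm_022

theorem s11_pm_022 : ∃ t, chk3 f_pm_022 t 1 5 1 = true := ex3_b s10_pm_022 k7_pm_022

theorem s12_pm_022 : ∃ t, chk3 f_pm_022 t 2 9 1 = true := ex3_b k1_pm_022 k2_pm_022

theorem s13_pm_022 : ∃ t, chk3 f_pm_022 t 2 4 1 = true := ex3_b k0_pm_022 s12_pm_022

theorem s14_pm_022 : ∃ t, chk3 f_pm_022 t 1 4 1 = true := ex3_a s13_pm_022 k3_pm_022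

theorem s15_pm_022 : ∃ t, chk3 f_pm_022 t 1 2 1 = true := ex3_b s14_pm_022 s11_pm_022

theorem s16_pm_022 : ∃ t, chk3 f_pm_022 t 1 1 1 = true := ex3_b s15_pm_022 k8_pm_022

theorem c_pm_022 : CertFX 0 67108864 1073741824 536870912 1046898278 26843546 true true false .pp 0 2 2
    ndF4q0 ndF7q2 pcF2 cut_pm_022 Ext.none :=
  certFX1 (fam := true) (s1 := true) (s2 := false) (a := 0) (b := 2) (c := 2) (cn := .pp) (n1 := ndF4q0) (n2 := ndF7q2) (pc := pcF2) (cut := cut_pm_022) (xt := Ext.none) (P1 := 0) (W1 := 67108864) (P2 := 1073741824) (W2 := 536870912) (P3 := 1046898278) (W3 := 26843546)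
    rfl (fun _ => rfl) s16_pm_022

noncomputable def f_pm_023 : ℕ → ℕ → ℕ → ℕ → Bool := onCell 0 67108864 1073741824 536870912 1046898278 26843546
    (rowFX 0 true true false .up 0 2 3 (qsf 0 67108864 1073741824 536870912 3) ndF4q0 ndF7q2 pcF3 Cut.none Ext.none)

def k0_pm_023 : ∃ t, chk3 f_pm_023 t 1 1 1 = true :=
  ⟨(b (l 1) (b (l 1) (a (b (l 1) (c (l 651790724103) (l 14728064))) (b (l 1109742282727) (l 628169074663))))), by decide +kernel⟩

theorem c_pm_023 : CertFX 0 67108864 1073741824 536870912 1046898278 26843546 true true false .up 0 2 3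
    ndF4q0 ndF7q2 pcF3 Cut.none Ext.none :=
  certFX0 (fam := true) (s1 := true) (s2 := false) (a := 0) (b := 2) (c := 3) (cn := .up) (n1 := ndF4q0) (n2 := ndF7q2) (pc := pcF3) (cut := Cut.none) (xt := Ext.none) (P1 := 0) (W1 := 67108864) (P2 := 1073741824) (W2 := 536870912) (P3 := 1046898278) (W3 := 26843546)
    rfl k0_pm_023

noncomputable def f_pm_033 : ℕ → ℕ → ℕ → ℕ → Bool := onCell 0 67108864 0 1230186008 1046898278 26843546
    (rowFX 0 true true false .pnn 0 3 3 (qsf 0 67108864 0 1230186008 3) ndF4q0 ndF7q3 pcF3 Cut.none Ext.none)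

def k0_pm_033 : ∃ t, chk3 f_pm_033 t 1 2 1 = true :=
  ⟨(b (l 4) (b (l 4) (a (b (a (c (l 4) (c (l 4) (b (l 4) (a (l 14743904) (l 4))))) (l 4)) (c (a (a (b (l 14855248) (l 14855288)) (b (a (l 14938936) (l 14967248)) (l 14944680))) (b (l 4) (c (l 15017840) (l 15005096)))) (a (c (b (a (l 14788000) (l 14856800)) (l 14827248)) (b (a (l 14742504) (l 14836512)) (l 14723536))) (b (c (l 4) (l 177398343767)) (c (l 15006080) (l 14976448)))))) (b (l 4) (a (a (b (l 4) (c (l 4) (l 15075320))) (l 4)) (l 4)))))), by decide +kernel⟩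

def k1_pm_033 : ∃ t, chk3 f_pm_033 t 1 3 1 = true :=
  ⟨(b (b (a (b (c (a (b (a (l 14855712) (l 14945392)) (l 14893648)) (b (a (l 14975224) (l 15050664)) (l 15024336))) (a (b (c (l 14828608) (l 14683360)) (a (l 14764408) (l 14838744))) (b (c (l 15009960) (l 14980832)) (l 14994608)))) (a (c (l 14893624) (c (l 14828560) (l 14788200))) (b (c (l 15024328) (l 14994656)) (l 14926344)))) (a (b (b (c (l 15224496) (l 15188848)) (b (l 15037928) (l 15018960))) (b (c (l 15228888) (l 15195408)) (l 15207736))) (b (b (a (c (l 15391920) (l 15326296)) (l 4)) (c (l 15440976) (l 15377040))) (a (b (l 15304488) (l 15368120)) (b (l 15464376) (l 15466968)))))) (a (c (b (a (l 14662952) (l 15024304)) (a (l 14893664) (l 15024344))) (b (a (c (l 14828584) (l 14536568)) (l 14994640)) (a (c (l 14828616) (l 14788256)) (l 14994680)))) (b (b (l 15200568) (l 15116664)) (c (l 15331736) (l 15289280))))) (b (c (a (b (a (l 14893672) (l 15024352)) (a (l 14893672) (l 15024352))) (b (l 15331768) (l 15331768)))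 (c (a (b (l 14811904) (l 14916760)) (l 15307976)) (a (b (l 14881168) (l 14650480)) (l 15268344)))) (c (a (b (a (l 14893672) (l 15024352)) (a (l 14893672) (l 15024352))) (b (l 15331768) (l 15331768))) (c (a (b (l 14916760) (l 14916760)) (l 15307976)) (a (b (l 14881168) (l 14881168)) (l 15268352)))))), by decide +kernel⟩

theorem s2_pm_033 : ∃ t, chk3 f_pm_033 t 1 1 1 = true := ex3_b k0_pm_033 k1_pm_033

theorem c_pm_033 : CertFX 0 67108864 0 1230186008 1046898278 26843546 true true false .pnn 0 3 3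
    ndF4q0 ndF7q3 pcF3 Cut.none Ext.none :=
  certFX0 (fam := true) (s1 := true) (s2 := false) (a := 0) (b := 3) (c := 3) (cn := .pnn) (n1 := ndF4q0) (n2 := ndF7q3) (pc := pcF3) (cut := Cut.none) (xt := Ext.none) (P1 := 0) (W1 := 67108864) (P2 := 0) (W2 := 1230186008) (P3 := 1046898278) (W3 := 26843546)
    rfl s2_pm_033

noncomputable def f_mm_001 : ℕ → ℕ → ℕ → ℕ → Bool := onCell 0 67108864 0 536870912 1046898278 26843546
    (rowFX 0 true false false .up 0 0 1 (qsf 0 67108864 0 536870912 1) ndF4q0 ndF7q0 pcF1 Cut.none Ext.none)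

def k0_mm_001 : ∃ t, chk3 f_mm_001 t 1 1 1 = true :=
  ⟨(l 4), by decide +kernel⟩

theorem c_mm_001 : CertFX 0 67108864 0 536870912 1046898278 26843546 true false false .up 0 0 1
    ndF4q0 ndF7q0 pcF1 Cut.none Ext.none :=
  certFX0 (fam := true) (s1 := false) (s2 := false) (a := 0) (b := 0) (c := 1) (cn := .up) (n1 := ndF4q0) (n2 := ndF7q0) (pc := pcF1) (cut := Cut.none) (xt := Ext.none) (P1 := 0) (W1 := 67108864) (P2 := 0) (W2 := 536870912) (P3 := 1046898278) (W3 := 26843546)
    rfl k0_mm_001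

noncomputable def f_mm_011 : ℕ → ℕ → ℕ → ℕ → Bool := onCell 0 67108864 536870912 536870912 1046898278 26843546
    (rowFX 0 true false false .pnn 0 1 1 (qsf 0 67108864 536870912 536870912 1) ndF4q0 ndF7q1 pcF1 Cut.none Ext.none)

def k0_mm_011 : ∃ t, chk3 f_mm_011 t 1 1 1 = true :=
  ⟨(l 4), by decide +kernel⟩

theorem c_mm_011 : CertFX 0 67108864 536870912 536870912 1046898278 26843546 true false false .pnn 0 1 1
    ndF4q0 ndF7q1 pcF1 Cut.none Ext.none :=
  certFX0 (fam := true) (s1 := false) (s2 := false) (a := 0) (b := 1) (c := 1) (cn := .pnn) (n1 := ndF4q0) (n2 := ndF7q1) (pc := pcF1) (cut := Cut.none) (xt := Ext.none) (P1 := 0) (W1 := 67108864) (P2 := 536870912) (W2 := 536870912) (P3 := 1046898278) (W3 := 26843546)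
    rfl k0_mm_011

noncomputable def f_mm_012 : ℕ → ℕ → ℕ → ℕ → Bool := onCell 0 67108864 536870912 536870912 1046898278 26843546
    (rowFX 0 true false false .pnp 0 1 2 (qsf 0 67108864 536870912 536870912 2) ndF4q0 ndF7q1 pcF2 Cut.none Ext.none)

def k0_mm_012 : ∃ t, chk3 f_mm_012 t 1 1 1 = true :=
  ⟨(l 4), by decide +kernel⟩

theorem c_mm_012 : CertFX 0 67108864 536870912 536870912 1046898278 26843546 true false false .pnp 0 1 2
    ndF4q0 ndF7q1 pcF2 Cut.none Ext.none :=
  certFX0 (fam := true) (s1 := false) (s2 := false) (a := 0) (b := 1) (c := 2) (cn := .pnp) (n1 := ndF4q0) (n2 := ndF7q1) (pc := pcF2) (cut := Cut.none) (xt := Ext.none) (P1 := 0) (W1 := 67108864) (P2 := 536870912) (W2 := 536870912) (P3 := 1046898278) (W3 := 26843546)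
    rfl k0_mm_012

noncomputable def f_mm_022 : ℕ → ℕ → ℕ → ℕ → Bool := onCell 0 67108864 1073741824 536870912 1046898278 26843546
    (rowFX 0 true false false .pp 0 2 2 (qsf 0 67108864 1073741824 536870912 2) ndF4q0 ndF7q2 pcF2 Cut.none Ext.none)

def k0_mm_022 : ∃ t, chk3 f_mm_022 t 1 1 1 = true :=
  ⟨(l 4), by decide +kernel⟩

theorem c_mm_022 : CertFX 0 67108864 1073741824 536870912 1046898278 26843546 true false false .pp 0 2 2
    ndF4q0 ndF7q2 pcF2 Cut.none Ext.none :=
  certFX0 (fam := true) (s1 := false) (s2 := false) (a := 0) (b := 2) (c := 2) (cn := .pp) (n1 := ndF4q0) (n2 := ndF7q2) (pc := pcF2) (cut := Cut.none) (xt := Ext.none) (P1 := 0) (W1 := 67108864) (P2 := 1073741824) (W2 := 536870912) (P3 := 1046898278) (W3 := 26843546)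
    rfl k0_mm_022

noncomputable def f_mm_023 : ℕ → ℕ → ℕ → ℕ → Bool := onCell 0 67108864 1073741824 536870912 1046898278 26843546
    (rowFX 0 true false false .up 0 2 3 (qsf 0 67108864 1073741824 536870912 3) ndF4q0 ndF7q2 pcF3 Cut.none Ext.none)

def k0_mm_023 : ∃ t, chk3 f_mm_023 t 1 1 1 = true :=
  ⟨(l 4), by decide +kernel⟩

theorem c_mm_023 : CertFX 0 67108864 1073741824 536870912 1046898278 26843546 true false false .up 0 2 3
    ndF4q0 ndF7q2 pcF3 Cut.none Ext.none :=
  certFX0 (fam := true) (s1 := false) (s2 := false) (a := 0) (b := 2) (c := 3) (cn := .up) (n1 := ndF4q0) (n2 := ndF7q2) (pc := pcF3) (cut := Cut.none) (xt := Ext.none) (P1 := 0) (W1 := 67108864) (P2 := 1073741824) (W2 := 536870912) (P3 := 1046898278) (W3 := 26843546)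
    rfl k0_mm_023

noncomputable def f_mm_033 : ℕ → ℕ → ℕ → ℕ → Bool := onCell 0 67108864 0 1230186008 1046898278 26843546
    (rowFX 0 true false false .pnn 0 3 3 (qsf 0 67108864 0 1230186008 3) ndF4q0 ndF7q3 pcF3 Cut.none Ext.none)

def k0_mm_033 : ∃ t, chk3 f_mm_033 t 1 1 1 = true :=
  ⟨(l 4), by decide +kernel⟩

theorem c_mm_033 : CertFX 0 67108864 0 1230186008 1046898278 26843546 true false false .pnn 0 3 3
    ndF4q0 ndF7q3 pcF3 Cut.none Ext.none :=
  certFX0 (fam := true) (s1 := false) (s2 := false) (a := 0) (b := 3) (c := 3) (cn := .pnn) (n1 := ndF4q0) (n2 := ndF7q3) (pc := pcF3) (cut := Cut.none) (xt := Ext.none) (P1 := 0) (W1 := 67108864) (P2 := 0) (W2 := 1230186008) (P3 := 1046898278) (W3 := 26843546)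
    rfl k0_mm_033

end Pool.Agent.Strip051.G.IE1.Tab.C.FA47

namespace Pool.Agent.Strip051.G.IE1.Tab.C.FA55

open Pool.Agent.Strip051.PB Pool.Agent.Strip051.PB.T
open Pool.Agent.Strip051.G.IE1.Tab

noncomputable def f_pp_001 : ℕ → ℕ → ℕ → ℕ → Bool := onCell 0 536870912 0 536870912 1046898278 26843546
    (rowFX 0 true true true .up 0 0 1 (qsf 0 536870912 0 536870912 1) ndF5q0 ndF5q0 pcF1 Cut.none Ext.none)

def k0_pp_001 : ∃ t, chk3 f_pp_001 t 1 1 1 = true :=
  ⟨(l 4), by decide +kernel⟩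

theorem c_pp_001 : CertFX 0 536870912 0 536870912 1046898278 26843546 true true true .up 0 0 1
    ndF5q0 ndF5q0 pcF1 Cut.none Ext.none :=
  certFX0 (fam := true) (s1 := true) (s2 := true) (a := 0) (b := 0) (c := 1) (cn := .up) (n1 := ndF5q0) (n2 := ndF5q0) (pc := pcF1) (cut := Cut.none) (xt := Ext.none) (P1 := 0) (W1 := 536870912) (P2 := 0) (W2 := 536870912) (P3 := 1046898278) (W3 := 26843546)
    rfl k0_pp_001

noncomputable def f_pp_011 : ℕ → ℕ → ℕ → ℕ → Bool := onCell 0 536870912 536870912 469762048 1046898278 26843546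
    (rowFX 0 true true true .pnn 0 1 1 (qsf 0 536870912 536870912 469762048 1) ndF5q0 ndF5q1 pcF1 Cut.none Ext.none)

def k0_pp_011 : ∃ t, chk3 f_pp_011 t 1 1 1 = true :=
  ⟨(l 4), by decide +kernel⟩

theorem c_pp_011 : CertFX 0 536870912 536870912 469762048 1046898278 26843546 true true true .pnn 0 1 1
    ndF5q0 ndF5q1 pcF1 Cut.none Ext.none :=
  certFX0 (fam := true) (s1 := true) (s2 := true) (a := 0) (b := 1) (c := 1) (cn := .pnn) (n1 := ndF5q0) (n2 := ndF5q1) (pc := pcF1) (cut := Cut.none) (xt := Ext.none) (P1 := 0) (W1 := 536870912) (P2 := 536870912) (W2 := 469762048) (P3 := 1046898278) (W3 := 26843546)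
    rfl k0_pp_011

noncomputable def f_pp_012 : ℕ → ℕ → ℕ → ℕ → Bool := onCell 0 536870912 536870912 469762048 1046898278 26843546
    (rowFX 0 true true true .pnp 0 1 2 (qsf 0 536870912 536870912 469762048 2) ndF5q0 ndF5q1 pcF2 Cut.none Ext.none)

def k0_pp_012 : ∃ t, chk3 f_pp_012 t 1 1 1 = true :=
  ⟨(l 4), by decide +kernel⟩

theorem c_pp_012 : CertFX 0 536870912 536870912 469762048 1046898278 26843546 true true true .pnp 0 1 2
    ndF5q0 ndF5q1 pcF2 Cut.none Ext.none :=
  certFX0 (fam := true) (s1 := true) (s2 := true) (a := 0) (b := 1) (c := 2) (cn := .pnp) (n1 := ndF5q0) (n2 := ndF5q1) (pc := pcF2) (cut := Cut.none) (xt := Ext.none) (P1 := 0) (W1 := 536870912) (P2 := 536870912) (W2 := 469762048) (P3 := 1046898278) (W3 := 26843546)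
    rfl k0_pp_012

noncomputable def f_pp_022 : ℕ → ℕ → ℕ → ℕ → Bool := onCell 0 536870912 1073741824 536870912 1046898278 26843546
    (rowFX 0 true true true .pp 0 2 2 (qsf 0 536870912 1073741824 536870912 2) ndF5q0 ndF5q2 pcF2 Cut.none Ext.none)

def k0_pp_022 : ∃ t, chk3 f_pp_022 t 1 1 1 = true :=
  ⟨(l 4), by decide +kernel⟩

theorem c_pp_022 : CertFX 0 536870912 1073741824 536870912 1046898278 26843546 true true true .pp 0 2 2
    ndF5q0 ndF5q2 pcF2 Cut.none Ext.none :=
  certFX0 (fam := true) (s1 := true) (s2 := true) (a := 0) (b := 2) (c := 2) (cn := .pp) (n1 := ndF5q0) (n2 := ndF5q2) (pc := pcF2) (cut := Cut.none) (xt := Ext.none) (P1 := 0) (W1 := 536870912) (P2 := 1073741824) (W2 := 536870912) (P3 := 1046898278) (W3 := 26843546)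
    rfl k0_pp_022

noncomputable def f_pp_023 : ℕ → ℕ → ℕ → ℕ → Bool := onCell 0 536870912 1073741824 536870912 1046898278 26843546
    (rowFX 0 true true true .up 0 2 3 (qsf 0 536870912 1073741824 536870912 3) ndF5q0 ndF5q2 pcF3 Cut.none Ext.none)

def k0_pp_023 : ∃ t, chk3 f_pp_023 t 1 1 1 = true :=
  ⟨(l 4), by decide +kernel⟩

theorem c_pp_023 : CertFX 0 536870912 1073741824 536870912 1046898278 26843546 true true true .up 0 2 3
    ndF5q0 ndF5q2 pcF3 Cut.none Ext.none :=
  certFX0 (fam := true) (s1 := true) (s2 := true) (a := 0) (b := 2) (c := 3) (cn := .up) (n1 := ndF5q0) (n2 := ndF5q2) (pc := pcF3) (cut := Cut.none) (xt := Ext.none) (P1 := 0) (W1 := 536870912) (P2 := 1073741824) (W2 := 536870912) (P3 := 1046898278) (W3 := 26843546)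
    rfl k0_pp_023

noncomputable def f_pp_033 : ℕ → ℕ → ℕ → ℕ → Bool := onCell 0 536870912 0 1230186008 1046898278 26843546
    (rowFX 0 true true true .pnn 0 3 3 (qsf 0 536870912 0 1230186008 3) ndF5q0 ndF5q3 pcF3 Cut.none Ext.none)

def k0_pp_033 : ∃ t, chk3 f_pp_033 t 1 1 1 = true :=
  ⟨(b (l 4) (l 4)), by decide +kernel⟩

theorem c_pp_033 : CertFX 0 536870912 0 1230186008 1046898278 26843546 true true true .pnn 0 3 3
    ndF5q0 ndF5q3 pcF3 Cut.none Ext.none :=
  certFX0 (fam := true) (s1 := true) (s2 := true) (a := 0) (b := 3) (c := 3) (cn := .pnn) (n1 := ndF5q0) (n2 := ndF5q3) (pc := pcF3) (cut := Cut.none) (xt := Ext.none) (P1 := 0) (W1 := 536870912) (P2 := 0) (W2 := 1230186008) (P3 := 1046898278) (W3 := 26843546)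
    rfl k0_pp_033

noncomputable def f_pp_101 : ℕ → ℕ → ℕ → ℕ → Bool := onCell 536870912 469762048 0 536870912 1046898278 26843546
    (rowFX 0 true true true .npn 1 0 1 (qsf 536870912 469762048 0 536870912 1) ndF5q1 ndF5q0 pcF1 Cut.none Ext.none)

def k0_pp_101 : ∃ t, chk3 f_pp_101 t 1 1 1 = true :=
  ⟨(l 4), by decide +kernel⟩

theorem c_pp_101 : CertFX 536870912 469762048 0 536870912 1046898278 26843546 true true true .npn 1 0 1
    ndF5q1 ndF5q0 pcF1 Cut.none Ext.none :=
  certFX0 (fam := true) (s1 := true) (s2 := true) (a := 1) (b := 0) (c := 1) (cn := .npn) (n1 := ndF5q1) (n2 := ndF5q0) (pc := pcF1) (cut := Cut.none) (xt := Ext.none) (P1 := 536870912) (W1 := 469762048) (P2 := 0) (W2 := 536870912) (P3 := 1046898278) (W3 := 26843546)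
    rfl k0_pp_101

noncomputable def f_pp_102 : ℕ → ℕ → ℕ → ℕ → Bool := onCell 536870912 469762048 0 536870912 1046898278 26843546
    (rowFX 0 true true true .npp 1 0 2 (qsf 536870912 469762048 0 536870912 2) ndF5q1 ndF5q0 pcF2 Cut.none Ext.none)

def k0_pp_102 : ∃ t, chk3 f_pp_102 t 1 1 1 = true :=
  ⟨(l 4), by decide +kernel⟩

theorem c_pp_102 : CertFX 536870912 469762048 0 536870912 1046898278 26843546 true true true .npp 1 0 2
    ndF5q1 ndF5q0 pcF2 Cut.none Ext.none :=
  certFX0 (fam := true) (s1 := true) (s2 := true) (a := 1) (b := 0) (c := 2) (cn := .npp) (n1 := ndF5q1) (n2 := ndF5q0) (pc := pcF2) (cut := Cut.none) (xt := Ext.none) (P1 := 536870912) (W1 := 469762048) (P2 := 0) (W2 := 536870912) (P3 := 1046898278) (W3 := 26843546)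
    rfl k0_pp_102

noncomputable def f_pp_112 : ℕ → ℕ → ℕ → ℕ → Bool := onCell 536870912 469762048 536870912 469762048 1046898278 26843546
    (rowFX 0 true true true .dn 1 1 2 (qsf 536870912 469762048 536870912 469762048 2) ndF5q1 ndF5q1 pcF2 Cut.none Ext.none)

def k0_pp_112 : ∃ t, chk3 f_pp_112 t 1 1 1 = true :=
  ⟨(l 4), by decide +kernel⟩

theorem c_pp_112 : CertFX 536870912 469762048 536870912 469762048 1046898278 26843546 true true true .dn 1 1 2
    ndF5q1 ndF5q1 pcF2 Cut.none Ext.none :=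
  certFX0 (fam := true) (s1 := true) (s2 := true) (a := 1) (b := 1) (c := 2) (cn := .dn) (n1 := ndF5q1) (n2 := ndF5q1) (pc := pcF2) (cut := Cut.none) (xt := Ext.none) (P1 := 536870912) (W1 := 469762048) (P2 := 536870912) (W2 := 469762048) (P3 := 1046898278) (W3 := 26843546)
    rfl k0_pp_112

noncomputable def f_pp_113 : ℕ → ℕ → ℕ → ℕ → Bool := onCell 536870912 469762048 536870912 469762048 1046898278 26843546
    (rowFX 0 true true true .nn 1 1 3 (qsf 536870912 469762048 536870912 469762048 3) ndF5q1 ndF5q1 pcF3 Cut.none Ext.none)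

def k0_pp_113 : ∃ t, chk3 f_pp_113 t 1 1 1 = true :=
  ⟨(l 4), by decide +kernel⟩

theorem c_pp_113 : CertFX 536870912 469762048 536870912 469762048 1046898278 26843546 true true true .nn 1 1 3
    ndF5q1 ndF5q1 pcF3 Cut.none Ext.none :=
  certFX0 (fam := true) (s1 := true) (s2 := true) (a := 1) (b := 1) (c := 3) (cn := .nn) (n1 := ndF5q1) (n2 := ndF5q1) (pc := pcF3) (cut := Cut.none) (xt := Ext.none) (P1 := 536870912) (W1 := 469762048) (P2 := 536870912) (W2 := 469762048) (P3 := 1046898278) (W3 := 26843546)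
    rfl k0_pp_113

noncomputable def f_pp_123 : ℕ → ℕ → ℕ → ℕ → Bool := onCell 536870912 469762048 1073741824 536870912 1046898278 26843546
    (rowFX 0 true true true .npn 1 2 3 (qsf 536870912 469762048 1073741824 536870912 3) ndF5q1 ndF5q2 pcF3 Cut.none Ext.none)

def k0_pp_123 : ∃ t, chk3 f_pp_123 t 1 1 1 = true :=
  ⟨(l 4), by decide +kernel⟩

theorem c_pp_123 : CertFX 536870912 469762048 1073741824 536870912 1046898278 26843546 true true true .npn 1 2 3
    ndF5q1 ndF5q2 pcF3 Cut.none Ext.none :=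
  certFX0 (fam := true) (s1 := true) (s2 := true) (a := 1) (b := 2) (c := 3) (cn := .npn) (n1 := ndF5q1) (n2 := ndF5q2) (pc := pcF3) (cut := Cut.none) (xt := Ext.none) (P1 := 536870912) (W1 := 469762048) (P2 := 1073741824) (W2 := 536870912) (P3 := 1046898278) (W3 := 26843546)
    rfl k0_pp_123

noncomputable def f_pp_133 : ℕ → ℕ → ℕ → ℕ → Bool := onCell 536870912 469762048 0 1230186008 1046898278 26843546
    (rowFX 0 true true true .dn 1 3 3 (qsf 536870912 469762048 0 1230186008 3) ndF5q1 ndF5q3 pcF3 Cut.none Ext.none)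

def k0_pp_133 : ∃ t, chk3 f_pp_133 t 1 1 1 = true :=
  ⟨(l 4), by decide +kernel⟩

theorem c_pp_133 : CertFX 536870912 469762048 0 1230186008 1046898278 26843546 true true true .dn 1 3 3
    ndF5q1 ndF5q3 pcF3 Cut.none Ext.none :=
  certFX0 (fam := true) (s1 := true) (s2 := true) (a := 1) (b := 3) (c := 3) (cn := .dn) (n1 := ndF5q1) (n2 := ndF5q3) (pc := pcF3) (cut := Cut.none) (xt := Ext.none) (P1 := 536870912) (W1 := 469762048) (P2 := 0) (W2 := 1230186008) (P3 := 1046898278) (W3 := 26843546)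
    rfl k0_pp_133

noncomputable def f_pp_202 : ℕ → ℕ → ℕ → ℕ → Bool := onCell 1073741824 536870912 0 536870912 1046898278 26843546
    (rowFX 0 true true true .pp 2 0 2 (qsf 1073741824 536870912 0 536870912 2) ndF5q2 ndF5q0 pcF2 Cut.none Ext.none)

def k0_pp_202 : ∃ t, chk3 f_pp_202 t 1 1 1 = true :=
  ⟨(l 4), by decide +kernel⟩

theorem c_pp_202 : CertFX 1073741824 536870912 0 536870912 1046898278 26843546 true true true .pp 2 0 2
    ndF5q2 ndF5q0 pcF2 Cut.none Ext.none :=
  certFX0 (fam := true) (s1 := true) (s2 := true) (a := 2) (b := 0) (c := 2) (cn := .pp) (n1 := ndF5q2) (n2 := ndF5q0) (pc := pcF2) (cut := Cut.none) (xt := Ext.none) (P1 := 1073741824) (W1 := 536870912) (P2 := 0) (W2 := 536870912) (P3 := 1046898278) (W3 := 26843546)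
    rfl k0_pp_202

noncomputable def f_pp_203 : ℕ → ℕ → ℕ → ℕ → Bool := onCell 1073741824 536870912 0 536870912 1046898278 26843546
    (rowFX 0 true true true .up 2 0 3 (qsf 1073741824 536870912 0 536870912 3) ndF5q2 ndF5q0 pcF3 Cut.none Ext.none)

def k0_pp_203 : ∃ t, chk3 f_pp_203 t 1 1 1 = true :=
  ⟨(l 4), by decide +kernel⟩

theorem c_pp_203 : CertFX 1073741824 536870912 0 536870912 1046898278 26843546 true true true .up 2 0 3
    ndF5q2 ndF5q0 pcF3 Cut.none Ext.none :=
  certFX0 (fam := true) (s1 := true) (s2 := true) (a := 2) (b := 0) (c := 3) (cn := .up) (n1 := ndF5q2) (n2 := ndF5q0) (pc := pcF3) (cut := Cut.none) (xt := Ext.none) (P1 := 1073741824) (W1 := 536870912) (P2 := 0) (W2 := 536870912) (P3 := 1046898278) (W3 := 26843546)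
    rfl k0_pp_203

noncomputable def f_pp_213 : ℕ → ℕ → ℕ → ℕ → Bool := onCell 1073741824 536870912 536870912 469762048 1046898278 26843546
    (rowFX 0 true true true .pnn 2 1 3 (qsf 1073741824 536870912 536870912 469762048 3) ndF5q2 ndF5q1 pcF3 Cut.none Ext.none)

def k0_pp_213 : ∃ t, chk3 f_pp_213 t 1 1 1 = true :=
  ⟨(l 4), by decide +kernel⟩

theorem c_pp_213 : CertFX 1073741824 536870912 536870912 469762048 1046898278 26843546 true true true .pnn 2 1 3
    ndF5q2 ndF5q1 pcF3 Cut.none Ext.none :=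
  certFX0 (fam := true) (s1 := true) (s2 := true) (a := 2) (b := 1) (c := 3) (cn := .pnn) (n1 := ndF5q2) (n2 := ndF5q1) (pc := pcF3) (cut := Cut.none) (xt := Ext.none) (P1 := 1073741824) (W1 := 536870912) (P2 := 536870912) (W2 := 469762048) (P3 := 1046898278) (W3 := 26843546)
    rfl k0_pp_213

noncomputable def f_pp_303 : ℕ → ℕ → ℕ → ℕ → Bool := onCell 0 1230186008 0 536870912 1046898278 26843546
    (rowFX 0 true true true .npn 3 0 3 (qsf 0 1230186008 0 536870912 3) ndF5q3 ndF5q0 pcF3 Cut.none Ext.none)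

def k0_pp_303 : ∃ t, chk3 f_pp_303 t 1 1 1 = true :=
  ⟨(l 5), by decide +kernel⟩

theorem c_pp_303 : CertFX 0 1230186008 0 536870912 1046898278 26843546 true true true .npn 3 0 3
    ndF5q3 ndF5q0 pcF3 Cut.none Ext.none :=
  certFX0 (fam := true) (s1 := true) (s2 := true) (a := 3) (b := 0) (c := 3) (cn := .npn) (n1 := ndF5q3) (n2 := ndF5q0) (pc := pcF3) (cut := Cut.none) (xt := Ext.none) (P1 := 0) (W1 := 1230186008) (P2 := 0) (W2 := 536870912) (P3 := 1046898278) (W3 := 26843546)
    rfl k0_pp_303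

noncomputable def f_pp_313 : ℕ → ℕ → ℕ → ℕ → Bool := onCell 0 1230186008 536870912 469762048 1046898278 26843546
    (rowFX 0 true true true .dn 3 1 3 (qsf 0 1230186008 536870912 469762048 3) ndF5q3 ndF5q1 pcF3 Cut.none Ext.none)

def k0_pp_313 : ∃ t, chk3 f_pp_313 t 1 1 1 = true :=
  ⟨(l 4), by decide +kernel⟩

theorem c_pp_313 : CertFX 0 1230186008 536870912 469762048 1046898278 26843546 true true true .dn 3 1 3
    ndF5q3 ndF5q1 pcF3 Cut.none Ext.none :=
  certFX0 (fam := true) (s1 := true) (s2 := true) (a := 3) (b := 1) (c := 3) (cn := .dn) (n1 := ndF5q3) (n2 := ndF5q1) (pc := pcF3) (cut := Cut.none) (xt := Ext.none) (P1 := 0) (W1 := 1230186008) (P2 := 536870912) (W2 := 469762048) (P3 := 1046898278) (W3 := 26843546)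
    rfl k0_pp_313

noncomputable def f_pm_001 : ℕ → ℕ → ℕ → ℕ → Bool := onCell 0 536870912 0 536870912 1046898278 26843546
    (rowFX 0 true true false .up 0 0 1 (qsf 0 536870912 0 536870912 1) ndF5q0 ndF5q0 pcF1 Cut.none Ext.none)

def k0_pm_001 : ∃ t, chk3 f_pm_001 t 1 1 1 = true :=
  ⟨(b (l 3) (l 3)), by decide +kernel⟩

theorem c_pm_001 : CertFX 0 536870912 0 536870912 1046898278 26843546 true true false .up 0 0 1
    ndF5q0 ndF5q0 pcF1 Cut.none Ext.none :=
  certFX0 (fam := true) (s1 := true) (s2 := false) (a := 0) (b := 0) (c := 1) (cn := .up) (n1 := ndF5q0) (n2 := ndF5q0) (pc := pcF1) (cut := Cut.none) (xt := Ext.none) (P1 := 0) (W1 := 536870912) (P2 := 0) (W2 := 536870912) (P3 := 1046898278) (W3 := 26843546)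
    rfl k0_pm_001

noncomputable def f_pm_011 : ℕ → ℕ → ℕ → ℕ → Bool := onCell 0 536870912 536870912 536870912 1046898278 26843546
    (rowFX 1 true true false .pnn 0 1 1 (qsf 0 536870912 536870912 469762048 1) ndF5q0 ndF5q1 pcF1 Cut.none Ext.none)

def k0_pm_011 : ∃ t, chk3 f_pm_011 t 1 1 1 = true :=
  ⟨(a (l 3) (l 3)), by decide +kernel⟩

theorem c_pm_011 : CertFX 0 536870912 536870912 469762048 1046898278 26843546 true true false .pnn 0 1 1
    ndF5q0 ndF5q1 pcF1 Cut.none Ext.none :=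
  certFX1 (fam := true) (s1 := true) (s2 := false) (a := 0) (b := 1) (c := 1) (cn := .pnn) (n1 := ndF5q0) (n2 := ndF5q1) (pc := pcF1) (cut := Cut.none) (xt := Ext.none) (P1 := 0) (W1 := 536870912) (P2 := 536870912) (W2 := 469762048) (P3 := 1046898278) (W3 := 26843546)
    rfl (fun _ => rfl) k0_pm_011

noncomputable def f_pm_012 : ℕ → ℕ → ℕ → ℕ → Bool := onCell 1073741824 536870912 536870912 469762048 1046898278 26843546
    (rowFX 2 true true false .pnp 0 1 2 (qsf 0 536870912 536870912 469762048 2) ndF5q0 ndF5q1 pcF2 Cut.none Ext.none)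

def k0_pm_012 : ∃ t, chk3 f_pm_012 t 1 1 1 = true :=
  ⟨(a (a (a (l 3) (b (l 3) (a (l 3) (b (l 3) (l 3))))) (a (b (a (a (l 3) (a (l 3) (b (l 2) (c (a (l 16777216) (a (l 16777216) (l 16777216))) (a (l 16777216) (a (l 16777216) (c (l 16777216) (l 16777216)))))))) (l 16777216)) (b (a (a (l 3) (a (c (l 16737720) (l 16589896)) (a (c (l 16737720) (l 16610864)) (a (a (l 16737208) (c (l 16737120) (l 16736072))) (a (a (a (l 16736424) (a (l 16652272) (c (l 16736400) (l 16588520)))) (l 16735840)) (l 16735872)))))) (l 16736336)) (a (a (a (b (l 3) (b (l 3) (c (l 15230416) (l 15195832)))) (b (b (l 3) (l 16143272)) (b (l 15611336) (c (l 15195488) (l 15159920))))) (a (b (a (b (l 16515152) (l 16143272)) (b (l 16515152) (l 16143272))) (c (a (l 15412576) (b (l 15646624) (l 15161384))) (a (l 15359392) (b (l 15617592) (l 15124824))))) (a (a (b (b (l 16515152) (l 16143272)) (b (l 15631080) (l 15131264))) (b (b (l 16515152) (l 16142200)) (b (c (l 15642480) (l 15613312)) (l 15122840)))) (b (a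 (a (b (l 16514576) (l 16140032)) (b (b (l 16550736) (l 16473928)) (l 16136224))) (l 16323496)) (a (l 15243496) (b (l 15615920) (l 15108136))))))) (b (l 16325776) (l 15159200))))) (b (l 16777216) (b (l 16737136) (b (b (l 16514592) (l 16142600)) (b (l 15631144) (l 15128136))))))) (b (l 2) (b (l 16737208) (b (a (l 16332128) (l 16332128)) (a (b (l 15632304) (l 15129880)) (l 15382600)))))), by decide +kernel⟩

theorem c_pm_012 : CertFX 0 536870912 536870912 469762048 1046898278 26843546 true true false .pnp 0 1 2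
    ndF5q0 ndF5q1 pcF2 Cut.none Ext.none :=
  certFX2 (fam := true) (s1 := true) (s2 := false) (a := 0) (b := 1) (c := 2) (cn := .pnp) (n1 := ndF5q0) (n2 := ndF5q1) (pc := pcF2) (cut := Cut.none) (xt := Ext.none) (P1 := 0) (W1 := 536870912) (P2 := 536870912) (W2 := 469762048) (P3 := 1046898278) (W3 := 26843546)
    rfl (fun _ => rfl) k0_pm_012

end Pool.Agent.Strip051.G.IE1.Tab.C.FA55

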