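import Pool.Agent.Strip051.G.IE1.AsmH
import Pool.Agent.Strip051.G.IE1.TrF19
import Pool.Agent.Strip051.G.IE1.TrF20
import Pool.Agent.Strip051.G.IE1.CubF

/-! # Rows from certificates (generated) -/

set_option linter.all false
set_option maxRecDepth 100000

namespace Pool.Agent.Strip051.G.IE1.Tab

open Pool.Agent.Strip051.PB Pool.Agent.StripNear Pool.Agent.Strip051.LC

theorem FA36_pp_001 {κ x : ℝ} (hκ : κ * h0 = kenE x) (hx : 39 / 40 ≤ x) (hx' : x < 1) :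
    TriA (DD x).cur (farD κ (h0 * x) (tbl tKF x) (tbl tL x)) 0 0 1 3 6 1 1 :=
  (sideF hx hx').farA (Or.inl rfl) (Or.inl rfl) fun y y' F r1 r2 =>
    farXA_cert (s1 := true) (s2 := true) rfl hκ (ka0 hκ hx hx') (xa0 hx) hx' (covF30 hx hx') (covF60 hx hx') (x1 hx) (x2 hx')
        Pool.Agent.Strip051.G.IE1.Tab.C.FA36.c_pp_001 noCut_VA noExt_VA F r1 r2 r1 r2

theorem FA36_pp_011 {κ x : ℝ} (hκ : κ * h0 = kenE x) (hx : 39 / 40 ≤ x) (hx' : x < 1) :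
    TriA (DD x).cur (farD κ (h0 * x) (tbl tKF x) (tbl tL x)) 0 1 1 3 6 1 1 :=
  (sideF hx hx').farA (Or.inl rfl) (Or.inl rfl) fun y y' F r1 r2 =>
    farXA_cert (s1 := true) (s2 := true) rfl hκ (ka0 hκ hx hx') (xa0 hx) hx' (covF30 hx hx') (covF61 hx hx') (x1 hx) (x2 hx')
        Pool.Agent.Strip051.G.IE1.Tab.C.FA36.c_pp_011 noCut_VA noExt_VA F r1 r2 r1 r2

theorem FA36_pp_012 {κ x : ℝ} (hκ : κ * h0 = kenE x) (hx : 39 / 40 ≤ x) (hx' : x < 1) :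
    TriA (DD x).cur (farD κ (h0 * x) (tbl tKF x) (tbl tL x)) 0 1 2 3 6 1 1 :=
  (sideF hx hx').farA (Or.inl rfl) (Or.inl rfl) fun y y' F r1 r2 =>
    farXA_cert (s1 := true) (s2 := true) rfl hκ (ka0 hκ hx hx') (xa0 hx) hx' (covF30 hx hx') (covF61 hx hx') (x1 hx) (x2 hx')
        Pool.Agent.Strip051.G.IE1.Tab.C.FA36.c_pp_012 noCut_VA noExt_VA F r1 r2 r1 r2

theorem FA36_pp_022 {κ x : ℝ} (hκ : κ * h0 = kenE x) (hx : 39 / 40 ≤ x) (hx' : x < 1) :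
    TriA (DD x).cur (farD κ (h0 * x) (tbl tKF x) (tbl tL x)) 0 2 2 3 6 1 1 :=
  (sideF hx hx').farA (Or.inl rfl) (Or.inl rfl) fun y y' F r1 r2 =>
    farXA_cert (s1 := true) (s2 := true) rfl hκ (ka0 hκ hx hx') (xa0 hx) hx' (covF30 hx hx') (covF62 hx hx') (x1 hx) (x2 hx')
        Pool.Agent.Strip051.G.IE1.Tab.C.FA36.c_pp_022 noCut_VA noExt_VA F r1 r2 r1 r2

theorem FA36_pp_023 {κ x : ℝ} (hκ : κ * h0 = kenE x) (hx : 39 / 40 ≤ x) (hx' : x < 1) :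
    TriA (DD x).cur (farD κ (h0 * x) (tbl tKF x) (tbl tL x)) 0 2 3 3 6 1 1 :=
  (sideF hx hx').farA (Or.inl rfl) (Or.inl rfl) fun y y' F r1 r2 =>
    farXA_cert (s1 := true) (s2 := true) rfl hκ (ka0 hκ hx hx') (xa0 hx) hx' (covF30 hx hx') (covF62 hx hx') (x1 hx) (x2 hx')
        Pool.Agent.Strip051.G.IE1.Tab.C.FA36.c_pp_023 noCut_VA noExt_VA F r1 r2 r1 r2

theorem FA36_pp_033 {κ x : ℝ} (hκ : κ * h0 = kenE x) (hx : 39 / 40 ≤ x) (hx' : x < 1) :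
    TriA (DD x).cur (farD κ (h0 * x) (tbl tKF x) (tbl tL x)) 0 3 3 3 6 1 1 :=
  (sideF hx hx').farA (Or.inl rfl) (Or.inl rfl) fun y y' F r1 r2 =>
    farXA_cert (s1 := true) (s2 := true) rfl hκ (ka0 hκ hx hx') (xa0 hx) hx' (covF30 hx hx') (covF63 hx hx') (x1 hx) (x2 hx')
        Pool.Agent.Strip051.G.IE1.Tab.C.FA36.c_pp_033 noCut_VA noExt_VA F r1 r2 r1 r2

theorem FA36_pp_101 {κ x : ℝ} (hκ : κ * h0 = kenE x) (hx : 39 / 40 ≤ x) (hx' : x < 1) :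
    TriA (DD x).cur (farD κ (h0 * x) (tbl tKF x) (tbl tL x)) 1 0 1 3 6 1 1 :=
  (sideF hx hx').farA (Or.inl rfl) (Or.inl rfl) fun y y' F r1 r2 =>
    farXA_cert (s1 := true) (s2 := true) rfl hκ (ka0 hκ hx hx') (xa0 hx) hx' (covF31 hx hx') (covF60 hx hx') (x1 hx) (x2 hx')
        Pool.Agent.Strip051.G.IE1.Tab.C.FA36.c_pp_101 noCut_VA noExt_VA F r1 r2 r1 r2

theorem FA36_pp_102 {κ x : ℝ} (hκ : κ * h0 = kenE x) (hx : 39 / 40 ≤ x) (hx' : x < 1) :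
    TriA (DD x).cur (farD κ (h0 * x) (tbl tKF x) (tbl tL x)) 1 0 2 3 6 1 1 :=
  (sideF hx hx').farA (Or.inl rfl) (Or.inl rfl) fun y y' F r1 r2 =>
    farXA_cert (s1 := true) (s2 := true) rfl hκ (ka0 hκ hx hx') (xa0 hx) hx' (covF31 hx hx') (covF60 hx hx') (x1 hx) (x2 hx')
        Pool.Agent.Strip051.G.IE1.Tab.C.FA36.c_pp_102 noCut_VA noExt_VA F r1 r2 r1 r2

theorem FA36_pp_112 {κ x : ℝ} (hκ : κ * h0 = kenE x) (hx : 39 / 40 ≤ x) (hx' : x < 1) :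
    TriA (DD x).cur (farD κ (h0 * x) (tbl tKF x) (tbl tL x)) 1 1 2 3 6 1 1 :=
  (sideF hx hx').farA (Or.inl rfl) (Or.inl rfl) fun y y' F r1 r2 =>
    farXA_cert (s1 := true) (s2 := true) rfl hκ (ka0 hκ hx hx') (xa0 hx) hx' (covF31 hx hx') (covF61 hx hx') (x1 hx) (x2 hx')
        Pool.Agent.Strip051.G.IE1.Tab.C.FA36.c_pp_112 noCut_VA noExt_VA F r1 r2 r1 r2

theorem FA36_pp_113 {κ x : ℝ} (hκ : κ * h0 = kenE x) (hx : 39 / 40 ≤ x) (hx' : x < 1) :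
    TriA (DD x).cur (farD κ (h0 * x) (tbl tKF x) (tbl tL x)) 1 1 3 3 6 1 1 :=
  (sideF hx hx').farA (Or.inl rfl) (Or.inl rfl) fun y y' F r1 r2 =>
    farXA_cert (s1 := true) (s2 := true) rfl hκ (ka0 hκ hx hx') (xa0 hx) hx' (covF31 hx hx') (covF61 hx hx') (x1 hx) (x2 hx')
        Pool.Agent.Strip051.G.IE1.Tab.C.FA36.c_pp_113 noCut_VA noExt_VA F r1 r2 r1 r2

theorem FA36_pp_123 {κ x : ℝ} (hκ : κ * h0 = kenE x) (hx : 39 / 40 ≤ x) (hx' : x < 1) :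
    TriA (DD x).cur (farD κ (h0 * x) (tbl tKF x) (tbl tL x)) 1 2 3 3 6 1 1 :=
  (sideF hx hx').farA (Or.inl rfl) (Or.inl rfl) fun y y' F r1 r2 =>
    farXA_cert (s1 := true) (s2 := true) rfl hκ (ka0 hκ hx hx') (xa0 hx) hx' (covF31 hx hx') (covF62 hx hx') (x1 hx) (x2 hx')
        Pool.Agent.Strip051.G.IE1.Tab.C.FA36.c_pp_123 noCut_VA noExt_VA F r1 r2 r1 r2

theorem FA36_pp_133 {κ x : ℝ} (hκ : κ * h0 = kenE x) (hx : 39 / 40 ≤ x) (hx' : x < 1) :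
    TriA (DD x).cur (farD κ (h0 * x) (tbl tKF x) (tbl tL x)) 1 3 3 3 6 1 1 :=
  (sideF hx hx').farA (Or.inl rfl) (Or.inl rfl) fun y y' F r1 r2 =>
    farXA_cert (s1 := true) (s2 := true) rfl hκ (ka0 hκ hx hx') (xa0 hx) hx' (covF31 hx hx') (covF63 hx hx') (x1 hx) (x2 hx')
        Pool.Agent.Strip051.G.IE1.Tab.C.FA36.c_pp_133 noCut_VA noExt_VA F r1 r2 r1 r2

theorem FA36_pp_202 {κ x : ℝ} (hκ : κ * h0 = kenE x) (hx : 39 / 40 ≤ x) (hx' : x < 1) :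
    TriA (DD x).cur (farD κ (h0 * x) (tbl tKF x) (tbl tL x)) 2 0 2 3 6 1 1 :=
  (sideF hx hx').farA (Or.inl rfl) (Or.inl rfl) fun y y' F r1 r2 =>
    farXA_cert (s1 := true) (s2 := true) rfl hκ (ka0 hκ hx hx') (xa0 hx) hx' (covF32 hx hx') (covF60 hx hx') (x1 hx) (x2 hx')
        Pool.Agent.Strip051.G.IE1.Tab.C.FA36.c_pp_202 noCut_VA noExt_VA F r1 r2 r1 r2

theorem FA36_pp_203 {κ x : ℝ} (hκ : κ * h0 = kenE x) (hx : 39 / 40 ≤ x) (hx' : x < 1) :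
    TriA (DD x).cur (farD κ (h0 * x) (tbl tKF x) (tbl tL x)) 2 0 3 3 6 1 1 :=
  (sideF hx hx').farA (Or.inl rfl) (Or.inl rfl) fun y y' F r1 r2 =>
    farXA_cert (s1 := true) (s2 := true) rfl hκ (ka0 hκ hx hx') (xa0 hx) hx' (covF32 hx hx') (covF60 hx hx') (x1 hx) (x2 hx')
        Pool.Agent.Strip051.G.IE1.Tab.C.FA36.c_pp_203 noCut_VA noExt_VA F r1 r2 r1 r2

theorem FA36_pp_213 {κ x : ℝ} (hκ : κ * h0 = kenE x) (hx : 39 / 40 ≤ x) (hx' : x < 1) :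
    TriA (DD x).cur (farD κ (h0 * x) (tbl tKF x) (tbl tL x)) 2 1 3 3 6 1 1 :=
  (sideF hx hx').farA (Or.inl rfl) (Or.inl rfl) fun y y' F r1 r2 =>
    farXA_cert (s1 := true) (s2 := true) rfl hκ (ka0 hκ hx hx') (xa0 hx) hx' (covF32 hx hx') (covF61 hx hx') (x1 hx) (x2 hx')
        Pool.Agent.Strip051.G.IE1.Tab.C.FA36.c_pp_213 noCut_VA noExt_VA F r1 r2 r1 r2

theorem FA36_pp_303 {κ x : ℝ} (hκ : κ * h0 = kenE x) (hx : 39 / 40 ≤ x) (hx' : x < 1) :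
    TriA (DD x).cur (farD κ (h0 * x) (tbl tKF x) (tbl tL x)) 3 0 3 3 6 1 1 :=
  (sideF hx hx').farA (Or.inl rfl) (Or.inl rfl) fun y y' F r1 r2 =>
    farXA_cert (s1 := true) (s2 := true) rfl hκ (ka0 hκ hx hx') (xa0 hx) hx' (covF33 hx hx') (covF60 hx hx') (x1 hx) (x2 hx')
        Pool.Agent.Strip051.G.IE1.Tab.C.FA36.c_pp_303 noCut_VA noExt_VA F r1 r2 r1 r2

theorem FA36_pp_313 {κ x : ℝ} (hκ : κ * h0 = kenE x) (hx : 39 / 40 ≤ x) (hx' : x < 1) :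
    TriA (DD x).cur (farD κ (h0 * x) (tbl tKF x) (tbl tL x)) 3 1 3 3 6 1 1 :=
  (sideF hx hx').farA (Or.inl rfl) (Or.inl rfl) fun y y' F r1 r2 =>
    farXA_cert (s1 := true) (s2 := true) rfl hκ (ka0 hκ hx hx') (xa0 hx) hx' (covF33 hx hx') (covF61 hx hx') (x1 hx) (x2 hx')
        Pool.Agent.Strip051.G.IE1.Tab.C.FA36.c_pp_313 noCut_VA noExt_VA F r1 r2 r1 r2

theorem FA36_pm_001 {κ x : ℝ} (hκ : κ * h0 = kenE x) (hx : 39 / 40 ≤ x) (hx' : x < 1) :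
    TriA (DD x).cur (farD κ (h0 * x) (tbl tKF x) (tbl tL x)) 0 0 1 3 6 1 (-1) :=
  (sideF hx hx').farA (Or.inl rfl) (Or.inr rfl) fun y y' F r1 r2 =>
    farXA_cert (s1 := true) (s2 := false) rfl hκ (ka0 hκ hx hx') (xa0 hx) hx' (covF30 hx hx') (covF60 hx hx') (x1 hx) (x2 hx')
        Pool.Agent.Strip051.G.IE1.Tab.C.FA36.c_pm_001 noCut_VA noExt_VA F r1 r2 r1 r2

theorem FA36_pm_011 {κ x : ℝ} (hκ : κ * h0 = kenE x) (hx : 39 / 40 ≤ x) (hx' : x < 1) :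
    TriA (DD x).cur (farD κ (h0 * x) (tbl tKF x) (tbl tL x)) 0 1 1 3 6 1 (-1) :=
  (sideF hx hx').farA (Or.inl rfl) (Or.inr rfl) fun y y' F r1 r2 =>
    farXA_cert (s1 := true) (s2 := false) rfl hκ (ka0 hκ hx hx') (xa0 hx) hx' (covF30 hx hx') (covF61 hx hx') (x1 hx) (x2 hx')
        Pool.Agent.Strip051.G.IE1.Tab.C.FA36.c_pm_011 noCut_VA noExt_VA F r1 r2 r1 r2

theorem FA36_pm_012 {κ x : ℝ} (hκ : κ * h0 = kenE x) (hx : 39 / 40 ≤ x) (hx' : x < 1) :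
    TriA (DD x).cur (farD κ (h0 * x) (tbl tKF x) (tbl tL x)) 0 1 2 3 6 1 (-1) :=
  (sideF hx hx').farA (Or.inl rfl) (Or.inr rfl) fun y y' F r1 r2 =>
    farXA_cert (s1 := true) (s2 := false) rfl hκ (ka0 hκ hx hx') (xa0 hx) hx' (covF30 hx hx') (covF61 hx hx') (x1 hx) (x2 hx')
        Pool.Agent.Strip051.G.IE1.Tab.C.FA36.c_pm_012 noCut_VA noExt_VA F r1 r2 r1 r2

theorem FA36_pm_022 {κ x : ℝ} (hκ : κ * h0 = kenE x) (hx : 39 / 40 ≤ x) (hx' : x < 1) :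
    TriA (DD x).cur (farD κ (h0 * x) (tbl tKF x) (tbl tL x)) 0 2 2 3 6 1 (-1) :=
  (sideF hx hx').farA (Or.inl rfl) (Or.inr rfl) fun y y' F r1 r2 =>
    farXA_cert (s1 := true) (s2 := false) rfl hκ (ka0 hκ hx hx') (xa0 hx) hx' (covF30 hx hx') (covF62 hx hx') (x1 hx) (x2 hx')
        Pool.Agent.Strip051.G.IE1.Tab.C.FA36.c_pm_022 noCut_VA noExt_VA F r1 r2 r1 r2

theorem FA36_pm_023 {κ x : ℝ} (hκ : κ * h0 = kenE x) (hx : 39 / 40 ≤ x) (hx' : x < 1) :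
    TriA (DD x).cur (farD κ (h0 * x) (tbl tKF x) (tbl tL x)) 0 2 3 3 6 1 (-1) :=
  (sideF hx hx').farA (Or.inl rfl) (Or.inr rfl) fun y y' F r1 r2 =>
    farXA_cert (s1 := true) (s2 := false) rfl hκ (ka0 hκ hx hx') (xa0 hx) hx' (covF30 hx hx') (covF62 hx hx') (x1 hx) (x2 hx')
        Pool.Agent.Strip051.G.IE1.Tab.C.FA36.c_pm_023 noCut_VA noExt_VA F r1 r2 r1 r2

theorem FA36_pm_033 {κ x : ℝ} (hκ : κ * h0 = kenE x) (hx : 39 / 40 ≤ x) (hx' : x < 1) :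
    TriA (DD x).cur (farD κ (h0 * x) (tbl tKF x) (tbl tL x)) 0 3 3 3 6 1 (-1) :=
  (sideF hx hx').farA (Or.inl rfl) (Or.inr rfl) fun y y' F r1 r2 =>
    farXA_cert (s1 := true) (s2 := false) rfl hκ (ka0 hκ hx hx') (xa0 hx) hx' (covF30 hx hx') (covF63 hx hx') (x1 hx) (x2 hx')
        Pool.Agent.Strip051.G.IE1.Tab.C.FA36.c_pm_033 noCut_VA noExt_VA F r1 r2 r1 r2

theorem FA36_pm_101 {κ x : ℝ} (hκ : κ * h0 = kenE x) (hx : 39 / 40 ≤ x) (hx' : x < 1) :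
    TriA (DD x).cur (farD κ (h0 * x) (tbl tKF x) (tbl tL x)) 1 0 1 3 6 1 (-1) :=
  (sideF hx hx').farA (Or.inl rfl) (Or.inr rfl) fun y y' F r1 r2 =>
    farXA_cert (s1 := true) (s2 := false) rfl hκ (ka0 hκ hx hx') (xa0 hx) hx' (covF31 hx hx') (covF60 hx hx') (x1 hx) (x2 hx')
        Pool.Agent.Strip051.G.IE1.Tab.C.FA36.c_pm_101 noCut_VA noExt_VA F r1 r2 r1 r2

theorem FA36_pm_102 {κ x : ℝ} (hκ : κ * h0 = kenE x) (hx : 39 / 40 ≤ x) (hx' : x < 1) :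
    TriA (DD x).cur (farD κ (h0 * x) (tbl tKF x) (tbl tL x)) 1 0 2 3 6 1 (-1) :=
  (sideF hx hx').farA (Or.inl rfl) (Or.inr rfl) fun y y' F r1 r2 =>
    farXA_cert (s1 := true) (s2 := false) rfl hκ (ka0 hκ hx hx') (xa0 hx) hx' (covF31 hx hx') (covF60 hx hx') (x1 hx) (x2 hx')
        Pool.Agent.Strip051.G.IE1.Tab.C.FA36.c_pm_102 noCut_VA noExt_VA F r1 r2 r1 r2

theorem FA36_pm_112 {κ x : ℝ} (hκ : κ * h0 = kenE x) (hx : 39 / 40 ≤ x) (hx' : x < 1) :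
    TriA (DD x).cur (farD κ (h0 * x) (tbl tKF x) (tbl tL x)) 1 1 2 3 6 1 (-1) :=
  (sideF hx hx').farA (Or.inl rfl) (Or.inr rfl) fun y y' F r1 r2 =>
    farXA_cert (s1 := true) (s2 := false) rfl hκ (ka0 hκ hx hx') (xa0 hx) hx' (covF31 hx hx') (covF61 hx hx') (x1 hx) (x2 hx')
        Pool.Agent.Strip051.G.IE1.Tab.C.FA36.c_pm_112 noCut_VA noExt_VA F r1 r2 r1 r2

theorem FA36_pm_113 {κ x : ℝ} (hκ : κ * h0 = kenE x) (hx : 39 / 40 ≤ x) (hx' : x < 1) :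
    TriA (DD x).cur (farD κ (h0 * x) (tbl tKF x) (tbl tL x)) 1 1 3 3 6 1 (-1) :=
  (sideF hx hx').farA (Or.inl rfl) (Or.inr rfl) fun y y' F r1 r2 =>
    farXA_cert (s1 := true) (s2 := false) rfl hκ (ka0 hκ hx hx') (xa0 hx) hx' (covF31 hx hx') (covF61 hx hx') (x1 hx) (x2 hx')
        Pool.Agent.Strip051.G.IE1.Tab.C.FA36.c_pm_113 noCut_VA noExt_VA F r1 r2 r1 r2

theorem FA36_pm_123 {κ x : ℝ} (hκ : κ * h0 = kenE x) (hx : 39 / 40 ≤ x) (hx' : x < 1) :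
    TriA (DD x).cur (farD κ (h0 * x) (tbl tKF x) (tbl tL x)) 1 2 3 3 6 1 (-1) :=
  (sideF hx hx').farA (Or.inl rfl) (Or.inr rfl) fun y y' F r1 r2 =>
    farXA_cert (s1 := true) (s2 := false) rfl hκ (ka0 hκ hx hx') (xa0 hx) hx' (covF31 hx hx') (covF62 hx hx') (x1 hx) (x2 hx')
        Pool.Agent.Strip051.G.IE1.Tab.C.FA36.c_pm_123 noCut_VA noExt_VA F r1 r2 r1 r2

theorem FA36_pm_133 {κ x : ℝ} (hκ : κ * h0 = kenE x) (hx : 39 / 40 ≤ x) (hx' : x < 1) :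
    TriA (DD x).cur (farD κ (h0 * x) (tbl tKF x) (tbl tL x)) 1 3 3 3 6 1 (-1) :=
  (sideF hx hx').farA (Or.inl rfl) (Or.inr rfl) fun y y' F r1 r2 =>
    farXA_cert (s1 := true) (s2 := false) rfl hκ (ka0 hκ hx hx') (xa0 hx) hx' (covF31 hx hx') (covF63 hx hx') (x1 hx) (x2 hx')
        Pool.Agent.Strip051.G.IE1.Tab.C.FA36.c_pm_133 noCut_VA noExt_VA F r1 r2 r1 r2

theorem FA36_pm_202 {κ x : ℝ} (hκ : κ * h0 = kenE x) (hx : 39 / 40 ≤ x) (hx' : x < 1) :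
    TriA (DD x).cur (farD κ (h0 * x) (tbl tKF x) (tbl tL x)) 2 0 2 3 6 1 (-1) :=
  (sideF hx hx').farA (Or.inl rfl) (Or.inr rfl) fun y y' F r1 r2 =>
    farXA_cert (s1 := true) (s2 := false) rfl hκ (ka0 hκ hx hx') (xa0 hx) hx' (covF32 hx hx') (covF60 hx hx') (x1 hx) (x2 hx')
        Pool.Agent.Strip051.G.IE1.Tab.C.FA36.c_pm_202 noCut_VA noExt_VA F r1 r2 r1 r2

theorem FA36_pm_203 {κ x : ℝ} (hκ : κ * h0 = kenE x) (hx : 39 / 40 ≤ x) (hx' : x < 1) :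
    TriA (DD x).cur (farD κ (h0 * x) (tbl tKF x) (tbl tL x)) 2 0 3 3 6 1 (-1) :=
  (sideF hx hx').farA (Or.inl rfl) (Or.inr rfl) fun y y' F r1 r2 =>
    farXA_cert (s1 := true) (s2 := false) rfl hκ (ka0 hκ hx hx') (xa0 hx) hx' (covF32 hx hx') (covF60 hx hx') (x1 hx) (x2 hx')
        Pool.Agent.Strip051.G.IE1.Tab.C.FA36.c_pm_203 noCut_VA noExt_VA F r1 r2 r1 r2

theorem FA36_pm_213 {κ x : ℝ} (hκ : κ * h0 = kenE x) (hx : 39 / 40 ≤ x) (hx' : x < 1) :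
    TriA (DD x).cur (farD κ (h0 * x) (tbl tKF x) (tbl tL x)) 2 1 3 3 6 1 (-1) :=
  (sideF hx hx').farA (Or.inl rfl) (Or.inr rfl) fun y y' F r1 r2 =>
    farXA_cert (s1 := true) (s2 := false) rfl hκ (ka0 hκ hx hx') (xa0 hx) hx' (covF32 hx hx') (covF61 hx hx') (x1 hx) (x2 hx')
        Pool.Agent.Strip051.G.IE1.Tab.C.FA36.c_pm_213 noCut_VA noExt_VA F r1 r2 r1 r2

theorem FA36_pm_303 {κ x : ℝ} (hκ : κ * h0 = kenE x) (hx : 39 / 40 ≤ x) (hx' : x < 1) :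
    TriA (DD x).cur (farD κ (h0 * x) (tbl tKF x) (tbl tL x)) 3 0 3 3 6 1 (-1) :=
  (sideF hx hx').farA (Or.inl rfl) (Or.inr rfl) fun y y' F r1 r2 =>
    farXA_cert (s1 := true) (s2 := false) rfl hκ (ka0 hκ hx hx') (xa0 hx) hx' (covF33 hx hx') (covF60 hx hx') (x1 hx) (x2 hx')
        Pool.Agent.Strip051.G.IE1.Tab.C.FA36.c_pm_303 noCut_VA noExt_VA F r1 r2 r1 r2

theorem FA36_pm_313 {κ x : ℝ} (hκ : κ * h0 = kenE x) (hx : 39 / 40 ≤ x) (hx' : x < 1) :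
    TriA (DD x).cur (farD κ (h0 * x) (tbl tKF x) (tbl tL x)) 3 1 3 3 6 1 (-1) :=
  (sideF hx hx').farA (Or.inl rfl) (Or.inr rfl) fun y y' F r1 r2 =>
    farXA_cert (s1 := true) (s2 := false) rfl hκ (ka0 hκ hx hx') (xa0 hx) hx' (covF33 hx hx') (covF61 hx hx') (x1 hx) (x2 hx')
        Pool.Agent.Strip051.G.IE1.Tab.C.FA36.c_pm_313 noCut_VA noExt_VA F r1 r2 r1 r2

theorem FA36_mm_001 {κ x : ℝ} (hκ : κ * h0 = kenE x) (hx : 39 / 40 ≤ x) (hx' : x < 1) :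
    TriA (DD x).cur (farD κ (h0 * x) (tbl tKF x) (tbl tL x)) 0 0 1 3 6 (-1) (-1) :=
  (sideF hx hx').farA (Or.inr rfl) (Or.inr rfl) fun y y' F r1 r2 =>
    farXA_cert (s1 := false) (s2 := false) rfl hκ (ka0 hκ hx hx') (xa0 hx) hx' (covF30 hx hx') (covF60 hx hx') (x1 hx) (x2 hx')
        Pool.Agent.Strip051.G.IE1.Tab.C.FA36.c_mm_001 noCut_VA noExt_VA F r1 r2 r1 r2

theorem FA36_mm_011 {κ x : ℝ} (hκ : κ * h0 = kenE x) (hx : 39 / 40 ≤ x) (hx' : x < 1) :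
    TriA (DD x).cur (farD κ (h0 * x) (tbl tKF x) (tbl tL x)) 0 1 1 3 6 (-1) (-1) :=
  (sideF hx hx').farA (Or.inr rfl) (Or.inr rfl) fun y y' F r1 r2 =>
    farXA_cert (s1 := false) (s2 := false) rfl hκ (ka0 hκ hx hx') (xa0 hx) hx' (covF30 hx hx') (covF61 hx hx') (x1 hx) (x2 hx')
        Pool.Agent.Strip051.G.IE1.Tab.C.FA36.c_mm_011 noCut_VA noExt_VA F r1 r2 r1 r2

theorem FA36_mm_012 {κ x : ℝ} (hκ : κ * h0 = kenE x) (hx : 39 / 40 ≤ x) (hx' : x < 1) :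
    TriA (DD x).cur (farD κ (h0 * x) (tbl tKF x) (tbl tL x)) 0 1 2 3 6 (-1) (-1) :=
  (sideF hx hx').farA (Or.inr rfl) (Or.inr rfl) fun y y' F r1 r2 =>
    farXA_cert (s1 := false) (s2 := false) rfl hκ (ka0 hκ hx hx') (xa0 hx) hx' (covF30 hx hx') (covF61 hx hx') (x1 hx) (x2 hx')
        Pool.Agent.Strip051.G.IE1.Tab.C.FA36.c_mm_012 noCut_VA noExt_VA F r1 r2 r1 r2

theorem FA36_mm_022 {κ x : ℝ} (hκ : κ * h0 = kenE x) (hx : 39 / 40 ≤ x) (hx' : x < 1) :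
    TriA (DD x).cur (farD κ (h0 * x) (tbl tKF x) (tbl tL x)) 0 2 2 3 6 (-1) (-1) :=
  (sideF hx hx').farA (Or.inr rfl) (Or.inr rfl) fun y y' F r1 r2 =>
    farXA_cert (s1 := false) (s2 := false) rfl hκ (ka0 hκ hx hx') (xa0 hx) hx' (covF30 hx hx') (covF62 hx hx') (x1 hx) (x2 hx')
        Pool.Agent.Strip051.G.IE1.Tab.C.FA36.c_mm_022 noCut_VA noExt_VA F r1 r2 r1 r2

theorem FA36_mm_023 {κ x : ℝ} (hκ : κ * h0 = kenE x) (hx : 39 / 40 ≤ x) (hx' : x < 1) :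
    TriA (DD x).cur (farD κ (h0 * x) (tbl tKF x) (tbl tL x)) 0 2 3 3 6 (-1) (-1) :=
  (sideF hx hx').farA (Or.inr rfl) (Or.inr rfl) fun y y' F r1 r2 =>
    farXA_cert (s1 := false) (s2 := false) rfl hκ (ka0 hκ hx hx') (xa0 hx) hx' (covF30 hx hx') (covF62 hx hx') (x1 hx) (x2 hx')
        Pool.Agent.Strip051.G.IE1.Tab.C.FA36.c_mm_023 noCut_VA noExt_VA F r1 r2 r1 r2

theorem FA36_mm_033 {κ x : ℝ} (hκ : κ * h0 = kenE x) (hx : 39 / 40 ≤ x) (hx' : x < 1) :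
    TriA (DD x).cur (farD κ (h0 * x) (tbl tKF x) (tbl tL x)) 0 3 3 3 6 (-1) (-1) :=
  (sideF hx hx').farA (Or.inr rfl) (Or.inr rfl) fun y y' F r1 r2 =>
    farXA_cert (s1 := false) (s2 := false) rfl hκ (ka0 hκ hx hx') (xa0 hx) hx' (covF30 hx hx') (covF63 hx hx') (x1 hx) (x2 hx')
        Pool.Agent.Strip051.G.IE1.Tab.C.FA36.c_mm_033 noCut_VA noExt_VA F r1 r2 r1 r2

theorem FA36_mm_101 {κ x : ℝ} (hκ : κ * h0 = kenE x) (hx : 39 / 40 ≤ x) (hx' : x < 1) :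
    TriA (DD x).cur (farD κ (h0 * x) (tbl tKF x) (tbl tL x)) 1 0 1 3 6 (-1) (-1) :=
  (sideF hx hx').farA (Or.inr rfl) (Or.inr rfl) fun y y' F r1 r2 =>
    farXA_cert (s1 := false) (s2 := false) rfl hκ (ka0 hκ hx hx') (xa0 hx) hx' (covF31 hx hx') (covF60 hx hx') (x1 hx) (x2 hx')
        Pool.Agent.Strip051.G.IE1.Tab.C.FA36.c_mm_101 noCut_VA noExt_VA F r1 r2 r1 r2

theorem FA36_mm_102 {κ x : ℝ} (hκ : κ * h0 = kenE x) (hx : 39 / 40 ≤ x) (hx' : x < 1) :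
    TriA (DD x).cur (farD κ (h0 * x) (tbl tKF x) (tbl tL x)) 1 0 2 3 6 (-1) (-1) :=
  (sideF hx hx').farA (Or.inr rfl) (Or.inr rfl) fun y y' F r1 r2 =>
    farXA_cert (s1 := false) (s2 := false) rfl hκ (ka0 hκ hx hx') (xa0 hx) hx' (covF31 hx hx') (covF60 hx hx') (x1 hx) (x2 hx')
        Pool.Agent.Strip051.G.IE1.Tab.C.FA36.c_mm_102 noCut_VA noExt_VA F r1 r2 r1 r2

theorem FA36_mm_112 {κ x : ℝ} (hκ : κ * h0 = kenE x) (hx : 39 / 40 ≤ x) (hx' : x < 1) :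
    TriA (DD x).cur (farD κ (h0 * x) (tbl tKF x) (tbl tL x)) 1 1 2 3 6 (-1) (-1) :=
  (sideF hx hx').farA (Or.inr rfl) (Or.inr rfl) fun y y' F r1 r2 =>
    farXA_cert (s1 := false) (s2 := false) rfl hκ (ka0 hκ hx hx') (xa0 hx) hx' (covF31 hx hx') (covF61 hx hx') (x1 hx) (x2 hx')
        Pool.Agent.Strip051.G.IE1.Tab.C.FA36.c_mm_112 noCut_VA noExt_VA F r1 r2 r1 r2

theorem FA36_mm_113 {κ x : ℝ} (hκ : κ * h0 = kenE x) (hx : 39 / 40 ≤ x) (hx' : x < 1) :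
    TriA (DD x).cur (farD κ (h0 * x) (tbl tKF x) (tbl tL x)) 1 1 3 3 6 (-1) (-1) :=
  (sideF hx hx').farA (Or.inr rfl) (Or.inr rfl) fun y y' F r1 r2 =>
    farXA_cert (s1 := false) (s2 := false) rfl hκ (ka0 hκ hx hx') (xa0 hx) hx' (covF31 hx hx') (covF61 hx hx') (x1 hx) (x2 hx')
        Pool.Agent.Strip051.G.IE1.Tab.C.FA36.c_mm_113 noCut_VA noExt_VA F r1 r2 r1 r2

theorem FA36_mm_123 {κ x : ℝ} (hκ : κ * h0 = kenE x) (hx : 39 / 40 ≤ x) (hx' : x < 1) :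
    TriA (DD x).cur (farD κ (h0 * x) (tbl tKF x) (tbl tL x)) 1 2 3 3 6 (-1) (-1) :=
  (sideF hx hx').farA (Or.inr rfl) (Or.inr rfl) fun y y' F r1 r2 =>
    farXA_cert (s1 := false) (s2 := false) rfl hκ (ka0 hκ hx hx') (xa0 hx) hx' (covF31 hx hx') (covF62 hx hx') (x1 hx) (x2 hx')
        Pool.Agent.Strip051.G.IE1.Tab.C.FA36.c_mm_123 noCut_VA noExt_VA F r1 r2 r1 r2

theorem FA36_mm_133 {κ x : ℝ} (hκ : κ * h0 = kenE x) (hx : 39 / 40 ≤ x) (hx' : x < 1) :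
    TriA (DD x).cur (farD κ (h0 * x) (tbl tKF x) (tbl tL x)) 1 3 3 3 6 (-1) (-1) :=
  (sideF hx hx').farA (Or.inr rfl) (Or.inr rfl) fun y y' F r1 r2 =>
    farXA_cert (s1 := false) (s2 := false) rfl hκ (ka0 hκ hx hx') (xa0 hx) hx' (covF31 hx hx') (covF63 hx hx') (x1 hx) (x2 hx')
        Pool.Agent.Strip051.G.IE1.Tab.C.FA36.c_mm_133 noCut_VA noExt_VA F r1 r2 r1 r2

theorem FA36_mm_202 {κ x : ℝ} (hκ : κ * h0 = kenE x) (hx : 39 / 40 ≤ x) (hx' : x < 1) :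
    TriA (DD x).cur (farD κ (h0 * x) (tbl tKF x) (tbl tL x)) 2 0 2 3 6 (-1) (-1) :=
  (sideF hx hx').farA (Or.inr rfl) (Or.inr rfl) fun y y' F r1 r2 =>
    farXA_cert (s1 := false) (s2 := false) rfl hκ (ka0 hκ hx hx') (xa0 hx) hx' (covF32 hx hx') (covF60 hx hx') (x1 hx) (x2 hx')
        Pool.Agent.Strip051.G.IE1.Tab.C.FA36.c_mm_202 noCut_VA noExt_VA F r1 r2 r1 r2

theorem FA36_mm_203 {κ x : ℝ} (hκ : κ * h0 = kenE x) (hx : 39 / 40 ≤ x) (hx' : x < 1) :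
    TriA (DD x).cur (farD κ (h0 * x) (tbl tKF x) (tbl tL x)) 2 0 3 3 6 (-1) (-1) :=
  (sideF hx hx').farA (Or.inr rfl) (Or.inr rfl) fun y y' F r1 r2 =>
    farXA_cert (s1 := false) (s2 := false) rfl hκ (ka0 hκ hx hx') (xa0 hx) hx' (covF32 hx hx') (covF60 hx hx') (x1 hx) (x2 hx')
        Pool.Agent.Strip051.G.IE1.Tab.C.FA36.c_mm_203 noCut_VA noExt_VA F r1 r2 r1 r2

theorem FA36_mm_213 {κ x : ℝ} (hκ : κ * h0 = kenE x) (hx : 39 / 40 ≤ x) (hx' : x < 1) :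
    TriA (DD x).cur (farD κ (h0 * x) (tbl tKF x) (tbl tL x)) 2 1 3 3 6 (-1) (-1) :=
  (sideF hx hx').farA (Or.inr rfl) (Or.inr rfl) fun y y' F r1 r2 =>
    farXA_cert (s1 := false) (s2 := false) rfl hκ (ka0 hκ hx hx') (xa0 hx) hx' (covF32 hx hx') (covF61 hx hx') (x1 hx) (x2 hx')
        Pool.Agent.Strip051.G.IE1.Tab.C.FA36.c_mm_213 noCut_VA noExt_VA F r1 r2 r1 r2

theorem FA36_mm_303 {κ x : ℝ} (hκ : κ * h0 = kenE x) (hx : 39 / 40 ≤ x) (hx' : x < 1) :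
    TriA (DD x).cur (farD κ (h0 * x) (tbl tKF x) (tbl tL x)) 3 0 3 3 6 (-1) (-1) :=
  (sideF hx hx').farA (Or.inr rfl) (Or.inr rfl) fun y y' F r1 r2 =>
    farXA_cert (s1 := false) (s2 := false) rfl hκ (ka0 hκ hx hx') (xa0 hx) hx' (covF33 hx hx') (covF60 hx hx') (x1 hx) (x2 hx')
        Pool.Agent.Strip051.G.IE1.Tab.C.FA36.c_mm_303 noCut_VA noExt_VA F r1 r2 r1 r2

theorem FA36_mm_313 {κ x : ℝ} (hκ : κ * h0 = kenE x) (hx : 39 / 40 ≤ x) (hx' : x < 1) :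
    TriA (DD x).cur (farD κ (h0 * x) (tbl tKF x) (tbl tL x)) 3 1 3 3 6 (-1) (-1) :=
  (sideF hx hx').farA (Or.inr rfl) (Or.inr rfl) fun y y' F r1 r2 =>
    farXA_cert (s1 := false) (s2 := false) rfl hκ (ka0 hκ hx hx') (xa0 hx) hx' (covF33 hx hx') (covF61 hx hx') (x1 hx) (x2 hx')
        Pool.Agent.Strip051.G.IE1.Tab.C.FA36.c_mm_313 noCut_VA noExt_VA F r1 r2 r1 r2

theorem FA36 {κ x : ℝ} (hκ : κ * h0 = kenE x) (hx : 39 / 40 ≤ x) (hx' : x < 1) : AllTA (DD x).cur (farD κ (h0 * x) (tbl tKF x) (tbl tL x)) 3 6 where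
  pp := all17 (Q := fun a b c => TriA (DD x).cur (farD κ (h0 * x) (tbl tKF x) (tbl tL x)) a b c 3 6 1 1)
    (FA36_pp_001 hκ hx hx') (FA36_pp_011 hκ hx hx') (FA36_pp_012 hκ hx hx') (FA36_pp_022 hκ hx hx') (FA36_pp_023 hκ hx hx') (FA36_pp_033 hκ hx hx') (FA36_pp_101 hκ hx hx') (FA36_pp_102 hκ hx hx') (FA36_pp_112 hκ hx hx') (FA36_pp_113 hκ hx hx') (FA36_pp_123 hκ hx hx') (FA36_pp_133 hκ hx hx') (FA36_pp_202 hκ hx hx') (FA36_pp_203 hκ hx hx') (FA36_pp_213 hκ hx hx') (FA36_pp_303 hκ hx hx') (FA36_pp_313 hκ hx hx')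
  pm := all17 (Q := fun a b c => TriA (DD x).cur (farD κ (h0 * x) (tbl tKF x) (tbl tL x)) a b c 3 6 1 (-1))
    (FA36_pm_001 hκ hx hx') (FA36_pm_011 hκ hx hx') (FA36_pm_012 hκ hx hx') (FA36_pm_022 hκ hx hx') (FA36_pm_023 hκ hx hx') (FA36_pm_033 hκ hx hx') (FA36_pm_101 hκ hx hx') (FA36_pm_102 hκ hx hx') (FA36_pm_112 hκ hx hx') (FA36_pm_113 hκ hx hx') (FA36_pm_123 hκ hx hx') (FA36_pm_133 hκ hx hx') (FA36_pm_202 hκ hx hx') (FA36_pm_203 hκ hx hx') (FA36_pm_213 hκ hx hx') (FA36_pm_303 hκ hx hx') (FA36_pm_313 hκ hx hx')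
  mm := all17 (Q := fun a b c => TriA (DD x).cur (farD κ (h0 * x) (tbl tKF x) (tbl tL x)) a b c 3 6 (-1) (-1))
    (FA36_mm_001 hκ hx hx') (FA36_mm_011 hκ hx hx') (FA36_mm_012 hκ hx hx') (FA36_mm_022 hκ hx hx') (FA36_mm_023 hκ hx hx') (FA36_mm_033 hκ hx hx') (FA36_mm_101 hκ hx hx') (FA36_mm_102 hκ hx hx') (FA36_mm_112 hκ hx hx') (FA36_mm_113 hκ hx hx') (FA36_mm_123 hκ hx hx') (FA36_mm_133 hκ hx hx') (FA36_mm_202 hκ hx hx') (FA36_mm_203 hκ hx hx') (FA36_mm_213 hκ hx hx') (FA36_mm_303 hκ hx hx') (FA36_mm_313 hκ hx hx')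

theorem FA37_pp_001 {κ x : ℝ} (hκ : κ * h0 = kenE x) (hx : 39 / 40 ≤ x) (hx' : x < 1) :
    TriA (DD x).cur (farD κ (h0 * x) (tbl tKF x) (tbl tL x)) 0 0 1 3 7 1 1 :=
  (sideF hx hx').farA (Or.inl rfl) (Or.inl rfl) fun y y' F r1 r2 =>
    farXA_cert (s1 := true) (s2 := true) rfl hκ (ka0 hκ hx hx') (xa0 hx) hx' (covF30 hx hx') (covF70 hx hx') (x1 hx) (x2 hx')
        Pool.Agent.Strip051.G.IE1.Tab.C.FA37.c_pp_001 noCut_VA noExt_VA F r1 r2 r1 r2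

theorem FA37_pp_011 {κ x : ℝ} (hκ : κ * h0 = kenE x) (hx : 39 / 40 ≤ x) (hx' : x < 1) :
    TriA (DD x).cur (farD κ (h0 * x) (tbl tKF x) (tbl tL x)) 0 1 1 3 7 1 1 :=
  (sideF hx hx').farA (Or.inl rfl) (Or.inl rfl) fun y y' F r1 r2 =>
    farXA_cert (s1 := true) (s2 := true) rfl hκ (ka0 hκ hx hx') (xa0 hx) hx' (covF30 hx hx') (covF71 hx hx') (x1 hx) (x2 hx')
        Pool.Agent.Strip051.G.IE1.Tab.C.FA37.c_pp_011 noCut_VA noExt_VA F r1 r2 r1 r2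

theorem FA37_pp_012 {κ x : ℝ} (hκ : κ * h0 = kenE x) (hx : 39 / 40 ≤ x) (hx' : x < 1) :
    TriA (DD x).cur (farD κ (h0 * x) (tbl tKF x) (tbl tL x)) 0 1 2 3 7 1 1 :=
  (sideF hx hx').farA (Or.inl rfl) (Or.inl rfl) fun y y' F r1 r2 =>
    farXA_cert (s1 := true) (s2 := true) rfl hκ (ka0 hκ hx hx') (xa0 hx) hx' (covF30 hx hx') (covF71 hx hx') (x1 hx) (x2 hx')
        Pool.Agent.Strip051.G.IE1.Tab.C.FA37.c_pp_012 noCut_VA noExt_VA F r1 r2 r1 r2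

theorem FA37_pp_022 {κ x : ℝ} (hκ : κ * h0 = kenE x) (hx : 39 / 40 ≤ x) (hx' : x < 1) :
    TriA (DD x).cur (farD κ (h0 * x) (tbl tKF x) (tbl tL x)) 0 2 2 3 7 1 1 :=
  (sideF hx hx').farA (Or.inl rfl) (Or.inl rfl) fun y y' F r1 r2 =>
    farXA_cert (s1 := true) (s2 := true) rfl hκ (ka0 hκ hx hx') (xa0 hx) hx' (covF30 hx hx') (covF72 hx hx') (x1 hx) (x2 hx')
        Pool.Agent.Strip051.G.IE1.Tab.C.FA37.c_pp_022 noCut_VA noExt_VA F r1 r2 r1 r2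

theorem FA37_pp_023 {κ x : ℝ} (hκ : κ * h0 = kenE x) (hx : 39 / 40 ≤ x) (hx' : x < 1) :
    TriA (DD x).cur (farD κ (h0 * x) (tbl tKF x) (tbl tL x)) 0 2 3 3 7 1 1 :=
  (sideF hx hx').farA (Or.inl rfl) (Or.inl rfl) fun y y' F r1 r2 =>
    farXA_cert (s1 := true) (s2 := true) rfl hκ (ka0 hκ hx hx') (xa0 hx) hx' (covF30 hx hx') (covF72 hx hx') (x1 hx) (x2 hx')
        Pool.Agent.Strip051.G.IE1.Tab.C.FA37.c_pp_023 noCut_VA noExt_VA F r1 r2 r1 r2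

theorem FA37_pp_033 {κ x : ℝ} (hκ : κ * h0 = kenE x) (hx : 39 / 40 ≤ x) (hx' : x < 1) :
    TriA (DD x).cur (farD κ (h0 * x) (tbl tKF x) (tbl tL x)) 0 3 3 3 7 1 1 :=
  (sideF hx hx').farA (Or.inl rfl) (Or.inl rfl) fun y y' F r1 r2 =>
    farXA_cert (s1 := true) (s2 := true) rfl hκ (ka0 hκ hx hx') (xa0 hx) hx' (covF30 hx hx') (covF73 hx hx') (x1 hx) (x2 hx')
        Pool.Agent.Strip051.G.IE1.Tab.C.FA37.c_pp_033 noCut_VA noExt_VA F r1 r2 r1 r2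

theorem FA37_pp_101 {κ x : ℝ} (hκ : κ * h0 = kenE x) (hx : 39 / 40 ≤ x) (hx' : x < 1) :
    TriA (DD x).cur (farD κ (h0 * x) (tbl tKF x) (tbl tL x)) 1 0 1 3 7 1 1 :=
  (sideF hx hx').farA (Or.inl rfl) (Or.inl rfl) fun y y' F r1 r2 =>
    farXA_cert (s1 := true) (s2 := true) rfl hκ (ka0 hκ hx hx') (xa0 hx) hx' (covF31 hx hx') (covF70 hx hx') (x1 hx) (x2 hx')
        Pool.Agent.Strip051.G.IE1.Tab.C.FA37.c_pp_101 noCut_VA noExt_VA F r1 r2 r1 r2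

theorem FA37_pp_102 {κ x : ℝ} (hκ : κ * h0 = kenE x) (hx : 39 / 40 ≤ x) (hx' : x < 1) :
    TriA (DD x).cur (farD κ (h0 * x) (tbl tKF x) (tbl tL x)) 1 0 2 3 7 1 1 :=
  (sideF hx hx').farA (Or.inl rfl) (Or.inl rfl) fun y y' F r1 r2 =>
    farXA_cert (s1 := true) (s2 := true) rfl hκ (ka0 hκ hx hx') (xa0 hx) hx' (covF31 hx hx') (covF70 hx hx') (x1 hx) (x2 hx')
        Pool.Agent.Strip051.G.IE1.Tab.C.FA37.c_pp_102 noCut_VA noExt_VA F r1 r2 r1 r2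

theorem FA37_pp_112 {κ x : ℝ} (hκ : κ * h0 = kenE x) (hx : 39 / 40 ≤ x) (hx' : x < 1) :
    TriA (DD x).cur (farD κ (h0 * x) (tbl tKF x) (tbl tL x)) 1 1 2 3 7 1 1 :=
  (sideF hx hx').farA (Or.inl rfl) (Or.inl rfl) fun y y' F r1 r2 =>
    farXA_cert (s1 := true) (s2 := true) rfl hκ (ka0 hκ hx hx') (xa0 hx) hx' (covF31 hx hx') (covF71 hx hx') (x1 hx) (x2 hx')
        Pool.Agent.Strip051.G.IE1.Tab.C.FA37.c_pp_112 noCut_VA noExt_VA F r1 r2 r1 r2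

theorem FA37_pp_113 {κ x : ℝ} (hκ : κ * h0 = kenE x) (hx : 39 / 40 ≤ x) (hx' : x < 1) :
    TriA (DD x).cur (farD κ (h0 * x) (tbl tKF x) (tbl tL x)) 1 1 3 3 7 1 1 :=
  (sideF hx hx').farA (Or.inl rfl) (Or.inl rfl) fun y y' F r1 r2 =>
    farXA_cert (s1 := true) (s2 := true) rfl hκ (ka0 hκ hx hx') (xa0 hx) hx' (covF31 hx hx') (covF71 hx hx') (x1 hx) (x2 hx')
        Pool.Agent.Strip051.G.IE1.Tab.C.FA37.c_pp_113 noCut_VA noExt_VA F r1 r2 r1 r2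

theorem FA37_pp_123 {κ x : ℝ} (hκ : κ * h0 = kenE x) (hx : 39 / 40 ≤ x) (hx' : x < 1) :
    TriA (DD x).cur (farD κ (h0 * x) (tbl tKF x) (tbl tL x)) 1 2 3 3 7 1 1 :=
  (sideF hx hx').farA (Or.inl rfl) (Or.inl rfl) fun y y' F r1 r2 =>
    farXA_cert (s1 := true) (s2 := true) rfl hκ (ka0 hκ hx hx') (xa0 hx) hx' (covF31 hx hx') (covF72 hx hx') (x1 hx) (x2 hx')
        Pool.Agent.Strip051.G.IE1.Tab.C.FA37.c_pp_123 noCut_VA noExt_VA F r1 r2 r1 r2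

theorem FA37_pp_133 {κ x : ℝ} (hκ : κ * h0 = kenE x) (hx : 39 / 40 ≤ x) (hx' : x < 1) :
    TriA (DD x).cur (farD κ (h0 * x) (tbl tKF x) (tbl tL x)) 1 3 3 3 7 1 1 :=
  (sideF hx hx').farA (Or.inl rfl) (Or.inl rfl) fun y y' F r1 r2 =>
    farXA_cert (s1 := true) (s2 := true) rfl hκ (ka0 hκ hx hx') (xa0 hx) hx' (covF31 hx hx') (covF73 hx hx') (x1 hx) (x2 hx')
        Pool.Agent.Strip051.G.IE1.Tab.C.FA37.c_pp_133 noCut_VA noExt_VA F r1 r2 r1 r2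

theorem FA37_pp_202 {κ x : ℝ} (hκ : κ * h0 = kenE x) (hx : 39 / 40 ≤ x) (hx' : x < 1) :
    TriA (DD x).cur (farD κ (h0 * x) (tbl tKF x) (tbl tL x)) 2 0 2 3 7 1 1 :=
  (sideF hx hx').farA (Or.inl rfl) (Or.inl rfl) fun y y' F r1 r2 =>
    farXA_cert (s1 := true) (s2 := true) rfl hκ (ka0 hκ hx hx') (xa0 hx) hx' (covF32 hx hx') (covF70 hx hx') (x1 hx) (x2 hx')
        Pool.Agent.Strip051.G.IE1.Tab.C.FA37.c_pp_202 noCut_VA noExt_VA F r1 r2 r1 r2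

theorem FA37_pp_203 {κ x : ℝ} (hκ : κ * h0 = kenE x) (hx : 39 / 40 ≤ x) (hx' : x < 1) :
    TriA (DD x).cur (farD κ (h0 * x) (tbl tKF x) (tbl tL x)) 2 0 3 3 7 1 1 :=
  (sideF hx hx').farA (Or.inl rfl) (Or.inl rfl) fun y y' F r1 r2 =>
    farXA_cert (s1 := true) (s2 := true) rfl hκ (ka0 hκ hx hx') (xa0 hx) hx' (covF32 hx hx') (covF70 hx hx') (x1 hx) (x2 hx')
        Pool.Agent.Strip051.G.IE1.Tab.C.FA37.c_pp_203 noCut_VA noExt_VA F r1 r2 r1 r2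

theorem FA37_pp_213 {κ x : ℝ} (hκ : κ * h0 = kenE x) (hx : 39 / 40 ≤ x) (hx' : x < 1) :
    TriA (DD x).cur (farD κ (h0 * x) (tbl tKF x) (tbl tL x)) 2 1 3 3 7 1 1 :=
  (sideF hx hx').farA (Or.inl rfl) (Or.inl rfl) fun y y' F r1 r2 =>
    farXA_cert (s1 := true) (s2 := true) rfl hκ (ka0 hκ hx hx') (xa0 hx) hx' (covF32 hx hx') (covF71 hx hx') (x1 hx) (x2 hx')
        Pool.Agent.Strip051.G.IE1.Tab.C.FA37.c_pp_213 noCut_VA noExt_VA F r1 r2 r1 r2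

theorem FA37_pp_303 {κ x : ℝ} (hκ : κ * h0 = kenE x) (hx : 39 / 40 ≤ x) (hx' : x < 1) :
    TriA (DD x).cur (farD κ (h0 * x) (tbl tKF x) (tbl tL x)) 3 0 3 3 7 1 1 :=
  (sideF hx hx').farA (Or.inl rfl) (Or.inl rfl) fun y y' F r1 r2 =>
    farXA_cert (s1 := true) (s2 := true) rfl hκ (ka0 hκ hx hx') (xa0 hx) hx' (covF33 hx hx') (covF70 hx hx') (x1 hx) (x2 hx')
        Pool.Agent.Strip051.G.IE1.Tab.C.FA37.c_pp_303 noCut_VA noExt_VA F r1 r2 r1 r2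

theorem FA37_pp_313 {κ x : ℝ} (hκ : κ * h0 = kenE x) (hx : 39 / 40 ≤ x) (hx' : x < 1) :
    TriA (DD x).cur (farD κ (h0 * x) (tbl tKF x) (tbl tL x)) 3 1 3 3 7 1 1 :=
  (sideF hx hx').farA (Or.inl rfl) (Or.inl rfl) fun y y' F r1 r2 =>
    farXA_cert (s1 := true) (s2 := true) rfl hκ (ka0 hκ hx hx') (xa0 hx) hx' (covF33 hx hx') (covF71 hx hx') (x1 hx) (x2 hx')
        Pool.Agent.Strip051.G.IE1.Tab.C.FA37.c_pp_313 noCut_VA noExt_VA F r1 r2 r1 r2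

theorem FA37_pm_001 {κ x : ℝ} (hκ : κ * h0 = kenE x) (hx : 39 / 40 ≤ x) (hx' : x < 1) :
    TriA (DD x).cur (farD κ (h0 * x) (tbl tKF x) (tbl tL x)) 0 0 1 3 7 1 (-1) :=
  (sideF hx hx').farA (Or.inl rfl) (Or.inr rfl) fun y y' F r1 r2 =>
    farXA_cert (s1 := true) (s2 := false) rfl hκ (ka0 hκ hx hx') (xa0 hx) hx' (covF30 hx hx') (covF70 hx hx') (x1 hx) (x2 hx')
        Pool.Agent.Strip051.G.IE1.Tab.C.FA37.c_pm_001 noCut_VA noExt_VA F r1 r2 r1 r2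

theorem FA37_pm_011 {κ x : ℝ} (hκ : κ * h0 = kenE x) (hx : 39 / 40 ≤ x) (hx' : x < 1) :
    TriA (DD x).cur (farD κ (h0 * x) (tbl tKF x) (tbl tL x)) 0 1 1 3 7 1 (-1) :=
  (sideF hx hx').farA (Or.inl rfl) (Or.inr rfl) fun y y' F r1 r2 =>
    farXA_cert (s1 := true) (s2 := false) rfl hκ (ka0 hκ hx hx') (xa0 hx) hx' (covF30 hx hx') (covF71 hx hx') (x1 hx) (x2 hx')
        Pool.Agent.Strip051.G.IE1.Tab.C.FA37.c_pm_011 (cutVA_cons (Pool.Agent.Strip051.G.IE1.Tab.qF_A37pm_011_011 hκ hx hx') cutVA_nil) noExt_VA F r1 r2 r1 r2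

theorem FA37_pm_012 {κ x : ℝ} (hκ : κ * h0 = kenE x) (hx : 39 / 40 ≤ x) (hx' : x < 1) :
    TriA (DD x).cur (farD κ (h0 * x) (tbl tKF x) (tbl tL x)) 0 1 2 3 7 1 (-1) :=
  (sideF hx hx').farA (Or.inl rfl) (Or.inr rfl) fun y y' F r1 r2 =>
    farXA_cert (s1 := true) (s2 := false) rfl hκ (ka0 hκ hx hx') (xa0 hx) hx' (covF30 hx hx') (covF71 hx hx') (x1 hx) (x2 hx')
        Pool.Agent.Strip051.G.IE1.Tab.C.FA37.c_pm_012 (cutVA_cons (Pool.Agent.Strip051.G.IE1.Tab.qF_A37pm_012_011 hκ hx hx') cutVA_nil) noExt_VA F r1 r2 r1 r2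

theorem FA37_pm_022 {κ x : ℝ} (hκ : κ * h0 = kenE x) (hx : 39 / 40 ≤ x) (hx' : x < 1) :
    TriA (DD x).cur (farD κ (h0 * x) (tbl tKF x) (tbl tL x)) 0 2 2 3 7 1 (-1) :=
  (sideF hx hx').farA (Or.inl rfl) (Or.inr rfl) fun y y' F r1 r2 =>
    farXA_cert (s1 := true) (s2 := false) rfl hκ (ka0 hκ hx hx') (xa0 hx) hx' (covF30 hx hx') (covF72 hx hx') (x1 hx) (x2 hx')
        Pool.Agent.Strip051.G.IE1.Tab.C.FA37.c_pm_022 (cutVA_cons (Pool.Agent.Strip051.G.IE1.Tab.qF_A37pm_022_011 hκ hx hx') cutVA_nil) noExt_VA F r1 r2 r1 r2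

theorem FA37_pm_023 {κ x : ℝ} (hκ : κ * h0 = kenE x) (hx : 39 / 40 ≤ x) (hx' : x < 1) :
    TriA (DD x).cur (farD κ (h0 * x) (tbl tKF x) (tbl tL x)) 0 2 3 3 7 1 (-1) :=
  (sideF hx hx').farA (Or.inl rfl) (Or.inr rfl) fun y y' F r1 r2 =>
    farXA_cert (s1 := true) (s2 := false) rfl hκ (ka0 hκ hx hx') (xa0 hx) hx' (covF30 hx hx') (covF72 hx hx') (x1 hx) (x2 hx')
        Pool.Agent.Strip051.G.IE1.Tab.C.FA37.c_pm_023 noCut_VA noExt_VA F r1 r2 r1 r2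

theorem FA37_pm_033 {κ x : ℝ} (hκ : κ * h0 = kenE x) (hx : 39 / 40 ≤ x) (hx' : x < 1) :
    TriA (DD x).cur (farD κ (h0 * x) (tbl tKF x) (tbl tL x)) 0 3 3 3 7 1 (-1) :=
  (sideF hx hx').farA (Or.inl rfl) (Or.inr rfl) fun y y' F r1 r2 =>
    farXA_cert (s1 := true) (s2 := false) rfl hκ (ka0 hκ hx hx') (xa0 hx) hx' (covF30 hx hx') (covF73 hx hx') (x1 hx) (x2 hx')
        Pool.Agent.Strip051.G.IE1.Tab.C.FA37.c_pm_033 noCut_VA noExt_VA F r1 r2 r1 r2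

theorem FA37_pm_101 {κ x : ℝ} (hκ : κ * h0 = kenE x) (hx : 39 / 40 ≤ x) (hx' : x < 1) :
    TriA (DD x).cur (farD κ (h0 * x) (tbl tKF x) (tbl tL x)) 1 0 1 3 7 1 (-1) :=
  (sideF hx hx').farA (Or.inl rfl) (Or.inr rfl) fun y y' F r1 r2 =>
    farXA_cert (s1 := true) (s2 := false) rfl hκ (ka0 hκ hx hx') (xa0 hx) hx' (covF31 hx hx') (covF70 hx hx') (x1 hx) (x2 hx')
        Pool.Agent.Strip051.G.IE1.Tab.C.FA37.c_pm_101 noCut_VA noExt_VA F r1 r2 r1 r2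

theorem FA37_pm_102 {κ x : ℝ} (hκ : κ * h0 = kenE x) (hx : 39 / 40 ≤ x) (hx' : x < 1) :
    TriA (DD x).cur (farD κ (h0 * x) (tbl tKF x) (tbl tL x)) 1 0 2 3 7 1 (-1) :=
  (sideF hx hx').farA (Or.inl rfl) (Or.inr rfl) fun y y' F r1 r2 =>
    farXA_cert (s1 := true) (s2 := false) rfl hκ (ka0 hκ hx hx') (xa0 hx) hx' (covF31 hx hx') (covF70 hx hx') (x1 hx) (x2 hx')
        Pool.Agent.Strip051.G.IE1.Tab.C.FA37.c_pm_102 noCut_VA noExt_VA F r1 r2 r1 r2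

theorem FA37_pm_112 {κ x : ℝ} (hκ : κ * h0 = kenE x) (hx : 39 / 40 ≤ x) (hx' : x < 1) :
    TriA (DD x).cur (farD κ (h0 * x) (tbl tKF x) (tbl tL x)) 1 1 2 3 7 1 (-1) :=
  (sideF hx hx').farA (Or.inl rfl) (Or.inr rfl) fun y y' F r1 r2 =>
    farXA_cert (s1 := true) (s2 := false) rfl hκ (ka0 hκ hx hx') (xa0 hx) hx' (covF31 hx hx') (covF71 hx hx') (x1 hx) (x2 hx')
        Pool.Agent.Strip051.G.IE1.Tab.C.FA37.c_pm_112 noCut_VA noExt_VA F r1 r2 r1 r2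

theorem FA37_pm_113 {κ x : ℝ} (hκ : κ * h0 = kenE x) (hx : 39 / 40 ≤ x) (hx' : x < 1) :
    TriA (DD x).cur (farD κ (h0 * x) (tbl tKF x) (tbl tL x)) 1 1 3 3 7 1 (-1) :=
  (sideF hx hx').farA (Or.inl rfl) (Or.inr rfl) fun y y' F r1 r2 =>
    farXA_cert (s1 := true) (s2 := false) rfl hκ (ka0 hκ hx hx') (xa0 hx) hx' (covF31 hx hx') (covF71 hx hx') (x1 hx) (x2 hx')
        Pool.Agent.Strip051.G.IE1.Tab.C.FA37.c_pm_113 noCut_VA noExt_VA F r1 r2 r1 r2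

theorem FA37_pm_123 {κ x : ℝ} (hκ : κ * h0 = kenE x) (hx : 39 / 40 ≤ x) (hx' : x < 1) :
    TriA (DD x).cur (farD κ (h0 * x) (tbl tKF x) (tbl tL x)) 1 2 3 3 7 1 (-1) :=
  (sideF hx hx').farA (Or.inl rfl) (Or.inr rfl) fun y y' F r1 r2 =>
    farXA_cert (s1 := true) (s2 := false) rfl hκ (ka0 hκ hx hx') (xa0 hx) hx' (covF31 hx hx') (covF72 hx hx') (x1 hx) (x2 hx')
        Pool.Agent.Strip051.G.IE1.Tab.C.FA37.c_pm_123 noCut_VA noExt_VA F r1 r2 r1 r2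

theorem FA37_pm_133 {κ x : ℝ} (hκ : κ * h0 = kenE x) (hx : 39 / 40 ≤ x) (hx' : x < 1) :
    TriA (DD x).cur (farD κ (h0 * x) (tbl tKF x) (tbl tL x)) 1 3 3 3 7 1 (-1) :=
  (sideF hx hx').farA (Or.inl rfl) (Or.inr rfl) fun y y' F r1 r2 =>
    farXA_cert (s1 := true) (s2 := false) rfl hκ (ka0 hκ hx hx') (xa0 hx) hx' (covF31 hx hx') (covF73 hx hx') (x1 hx) (x2 hx')
        Pool.Agent.Strip051.G.IE1.Tab.C.FA37.c_pm_133 noCut_VA noExt_VA F r1 r2 r1 r2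

theorem FA37_pm_202 {κ x : ℝ} (hκ : κ * h0 = kenE x) (hx : 39 / 40 ≤ x) (hx' : x < 1) :
    TriA (DD x).cur (farD κ (h0 * x) (tbl tKF x) (tbl tL x)) 2 0 2 3 7 1 (-1) :=
  (sideF hx hx').farA (Or.inl rfl) (Or.inr rfl) fun y y' F r1 r2 =>
    farXA_cert (s1 := true) (s2 := false) rfl hκ (ka0 hκ hx hx') (xa0 hx) hx' (covF32 hx hx') (covF70 hx hx') (x1 hx) (x2 hx')
        Pool.Agent.Strip051.G.IE1.Tab.C.FA37.c_pm_202 noCut_VA noExt_VA F r1 r2 r1 r2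

theorem FA37_pm_203 {κ x : ℝ} (hκ : κ * h0 = kenE x) (hx : 39 / 40 ≤ x) (hx' : x < 1) :
    TriA (DD x).cur (farD κ (h0 * x) (tbl tKF x) (tbl tL x)) 2 0 3 3 7 1 (-1) :=
  (sideF hx hx').farA (Or.inl rfl) (Or.inr rfl) fun y y' F r1 r2 =>
    farXA_cert (s1 := true) (s2 := false) rfl hκ (ka0 hκ hx hx') (xa0 hx) hx' (covF32 hx hx') (covF70 hx hx') (x1 hx) (x2 hx')
        Pool.Agent.Strip051.G.IE1.Tab.C.FA37.c_pm_203 noCut_VA noExt_VA F r1 r2 r1 r2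

theorem FA37_pm_213 {κ x : ℝ} (hκ : κ * h0 = kenE x) (hx : 39 / 40 ≤ x) (hx' : x < 1) :
    TriA (DD x).cur (farD κ (h0 * x) (tbl tKF x) (tbl tL x)) 2 1 3 3 7 1 (-1) :=
  (sideF hx hx').farA (Or.inl rfl) (Or.inr rfl) fun y y' F r1 r2 =>
    farXA_cert (s1 := true) (s2 := false) rfl hκ (ka0 hκ hx hx') (xa0 hx) hx' (covF32 hx hx') (covF71 hx hx') (x1 hx) (x2 hx')
        Pool.Agent.Strip051.G.IE1.Tab.C.FA37.c_pm_213 noCut_VA noExt_VA F r1 r2 r1 r2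

theorem FA37_pm_303 {κ x : ℝ} (hκ : κ * h0 = kenE x) (hx : 39 / 40 ≤ x) (hx' : x < 1) :
    TriA (DD x).cur (farD κ (h0 * x) (tbl tKF x) (tbl tL x)) 3 0 3 3 7 1 (-1) :=
  (sideF hx hx').farA (Or.inl rfl) (Or.inr rfl) fun y y' F r1 r2 =>
    farXA_cert (s1 := true) (s2 := false) rfl hκ (ka0 hκ hx hx') (xa0 hx) hx' (covF33 hx hx') (covF70 hx hx') (x1 hx) (x2 hx')
        Pool.Agent.Strip051.G.IE1.Tab.C.FA37.c_pm_303 noCut_VA noExt_VA F r1 r2 r1 r2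

theorem FA37_pm_313 {κ x : ℝ} (hκ : κ * h0 = kenE x) (hx : 39 / 40 ≤ x) (hx' : x < 1) :
    TriA (DD x).cur (farD κ (h0 * x) (tbl tKF x) (tbl tL x)) 3 1 3 3 7 1 (-1) :=
  (sideF hx hx').farA (Or.inl rfl) (Or.inr rfl) fun y y' F r1 r2 =>
    farXA_cert (s1 := true) (s2 := false) rfl hκ (ka0 hκ hx hx') (xa0 hx) hx' (covF33 hx hx') (covF71 hx hx') (x1 hx) (x2 hx')
        Pool.Agent.Strip051.G.IE1.Tab.C.FA37.c_pm_313 noCut_VA noExt_VA F r1 r2 r1 r2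

theorem FA37_mm_001 {κ x : ℝ} (hκ : κ * h0 = kenE x) (hx : 39 / 40 ≤ x) (hx' : x < 1) :
    TriA (DD x).cur (farD κ (h0 * x) (tbl tKF x) (tbl tL x)) 0 0 1 3 7 (-1) (-1) :=
  (sideF hx hx').farA (Or.inr rfl) (Or.inr rfl) fun y y' F r1 r2 =>
    farXA_cert (s1 := false) (s2 := false) rfl hκ (ka0 hκ hx hx') (xa0 hx) hx' (covF30 hx hx') (covF70 hx hx') (x1 hx) (x2 hx')
        Pool.Agent.Strip051.G.IE1.Tab.C.FA37.c_mm_001 noCut_VA noExt_VA F r1 r2 r1 r2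

theorem FA37_mm_011 {κ x : ℝ} (hκ : κ * h0 = kenE x) (hx : 39 / 40 ≤ x) (hx' : x < 1) :
    TriA (DD x).cur (farD κ (h0 * x) (tbl tKF x) (tbl tL x)) 0 1 1 3 7 (-1) (-1) :=
  (sideF hx hx').farA (Or.inr rfl) (Or.inr rfl) fun y y' F r1 r2 =>
    farXA_cert (s1 := false) (s2 := false) rfl hκ (ka0 hκ hx hx') (xa0 hx) hx' (covF30 hx hx') (covF71 hx hx') (x1 hx) (x2 hx')
        Pool.Agent.Strip051.G.IE1.Tab.C.FA37.c_mm_011 noCut_VA noExt_VA F r1 r2 r1 r2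

theorem FA37_mm_012 {κ x : ℝ} (hκ : κ * h0 = kenE x) (hx : 39 / 40 ≤ x) (hx' : x < 1) :
    TriA (DD x).cur (farD κ (h0 * x) (tbl tKF x) (tbl tL x)) 0 1 2 3 7 (-1) (-1) :=
  (sideF hx hx').farA (Or.inr rfl) (Or.inr rfl) fun y y' F r1 r2 =>
    farXA_cert (s1 := false) (s2 := false) rfl hκ (ka0 hκ hx hx') (xa0 hx) hx' (covF30 hx hx') (covF71 hx hx') (x1 hx) (x2 hx')
        Pool.Agent.Strip051.G.IE1.Tab.C.FA37.c_mm_012 noCut_VA noExt_VA F r1 r2 r1 r2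

theorem FA37_mm_022 {κ x : ℝ} (hκ : κ * h0 = kenE x) (hx : 39 / 40 ≤ x) (hx' : x < 1) :
    TriA (DD x).cur (farD κ (h0 * x) (tbl tKF x) (tbl tL x)) 0 2 2 3 7 (-1) (-1) :=
  (sideF hx hx').farA (Or.inr rfl) (Or.inr rfl) fun y y' F r1 r2 =>
    farXA_cert (s1 := false) (s2 := false) rfl hκ (ka0 hκ hx hx') (xa0 hx) hx' (covF30 hx hx') (covF72 hx hx') (x1 hx) (x2 hx')
        Pool.Agent.Strip051.G.IE1.Tab.C.FA37.c_mm_022 noCut_VA noExt_VA F r1 r2 r1 r2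

theorem FA37_mm_023 {κ x : ℝ} (hκ : κ * h0 = kenE x) (hx : 39 / 40 ≤ x) (hx' : x < 1) :
    TriA (DD x).cur (farD κ (h0 * x) (tbl tKF x) (tbl tL x)) 0 2 3 3 7 (-1) (-1) :=
  (sideF hx hx').farA (Or.inr rfl) (Or.inr rfl) fun y y' F r1 r2 =>
    farXA_cert (s1 := false) (s2 := false) rfl hκ (ka0 hκ hx hx') (xa0 hx) hx' (covF30 hx hx') (covF72 hx hx') (x1 hx) (x2 hx')
        Pool.Agent.Strip051.G.IE1.Tab.C.FA37.c_mm_023 noCut_VA noExt_VA F r1 r2 r1 r2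

theorem FA37_mm_033 {κ x : ℝ} (hκ : κ * h0 = kenE x) (hx : 39 / 40 ≤ x) (hx' : x < 1) :
    TriA (DD x).cur (farD κ (h0 * x) (tbl tKF x) (tbl tL x)) 0 3 3 3 7 (-1) (-1) :=
  (sideF hx hx').farA (Or.inr rfl) (Or.inr rfl) fun y y' F r1 r2 =>
    farXA_cert (s1 := false) (s2 := false) rfl hκ (ka0 hκ hx hx') (xa0 hx) hx' (covF30 hx hx') (covF73 hx hx') (x1 hx) (x2 hx')
        Pool.Agent.Strip051.G.IE1.Tab.C.FA37.c_mm_033 noCut_VA noExt_VA F r1 r2 r1 r2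

theorem FA37_mm_101 {κ x : ℝ} (hκ : κ * h0 = kenE x) (hx : 39 / 40 ≤ x) (hx' : x < 1) :
    TriA (DD x).cur (farD κ (h0 * x) (tbl tKF x) (tbl tL x)) 1 0 1 3 7 (-1) (-1) :=
  (sideF hx hx').farA (Or.inr rfl) (Or.inr rfl) fun y y' F r1 r2 =>
    farXA_cert (s1 := false) (s2 := false) rfl hκ (ka0 hκ hx hx') (xa0 hx) hx' (covF31 hx hx') (covF70 hx hx') (x1 hx) (x2 hx')
        Pool.Agent.Strip051.G.IE1.Tab.C.FA37.c_mm_101 noCut_VA noExt_VA F r1 r2 r1 r2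

theorem FA37_mm_102 {κ x : ℝ} (hκ : κ * h0 = kenE x) (hx : 39 / 40 ≤ x) (hx' : x < 1) :
    TriA (DD x).cur (farD κ (h0 * x) (tbl tKF x) (tbl tL x)) 1 0 2 3 7 (-1) (-1) :=
  (sideF hx hx').farA (Or.inr rfl) (Or.inr rfl) fun y y' F r1 r2 =>
    farXA_cert (s1 := false) (s2 := false) rfl hκ (ka0 hκ hx hx') (xa0 hx) hx' (covF31 hx hx') (covF70 hx hx') (x1 hx) (x2 hx')
        Pool.Agent.Strip051.G.IE1.Tab.C.FA37.c_mm_102 noCut_VA noExt_VA F r1 r2 r1 r2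

theorem FA37_mm_112 {κ x : ℝ} (hκ : κ * h0 = kenE x) (hx : 39 / 40 ≤ x) (hx' : x < 1) :
    TriA (DD x).cur (farD κ (h0 * x) (tbl tKF x) (tbl tL x)) 1 1 2 3 7 (-1) (-1) :=
  (sideF hx hx').farA (Or.inr rfl) (Or.inr rfl) fun y y' F r1 r2 =>
    farXA_cert (s1 := false) (s2 := false) rfl hκ (ka0 hκ hx hx') (xa0 hx) hx' (covF31 hx hx') (covF71 hx hx') (x1 hx) (x2 hx')
        Pool.Agent.Strip051.G.IE1.Tab.C.FA37.c_mm_112 noCut_VA noExt_VA F r1 r2 r1 r2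

theorem FA37_mm_113 {κ x : ℝ} (hκ : κ * h0 = kenE x) (hx : 39 / 40 ≤ x) (hx' : x < 1) :
    TriA (DD x).cur (farD κ (h0 * x) (tbl tKF x) (tbl tL x)) 1 1 3 3 7 (-1) (-1) :=
  (sideF hx hx').farA (Or.inr rfl) (Or.inr rfl) fun y y' F r1 r2 =>
    farXA_cert (s1 := false) (s2 := false) rfl hκ (ka0 hκ hx hx') (xa0 hx) hx' (covF31 hx hx') (covF71 hx hx') (x1 hx) (x2 hx')
        Pool.Agent.Strip051.G.IE1.Tab.C.FA37.c_mm_113 noCut_VA noExt_VA F r1 r2 r1 r2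

theorem FA37_mm_123 {κ x : ℝ} (hκ : κ * h0 = kenE x) (hx : 39 / 40 ≤ x) (hx' : x < 1) :
    TriA (DD x).cur (farD κ (h0 * x) (tbl tKF x) (tbl tL x)) 1 2 3 3 7 (-1) (-1) :=
  (sideF hx hx').farA (Or.inr rfl) (Or.inr rfl) fun y y' F r1 r2 =>
    farXA_cert (s1 := false) (s2 := false) rfl hκ (ka0 hκ hx hx') (xa0 hx) hx' (covF31 hx hx') (covF72 hx hx') (x1 hx) (x2 hx')
        Pool.Agent.Strip051.G.IE1.Tab.C.FA37.c_mm_123 noCut_VA noExt_VA F r1 r2 r1 r2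

theorem FA37_mm_133 {κ x : ℝ} (hκ : κ * h0 = kenE x) (hx : 39 / 40 ≤ x) (hx' : x < 1) :
    TriA (DD x).cur (farD κ (h0 * x) (tbl tKF x) (tbl tL x)) 1 3 3 3 7 (-1) (-1) :=
  (sideF hx hx').farA (Or.inr rfl) (Or.inr rfl) fun y y' F r1 r2 =>
    farXA_cert (s1 := false) (s2 := false) rfl hκ (ka0 hκ hx hx') (xa0 hx) hx' (covF31 hx hx') (covF73 hx hx') (x1 hx) (x2 hx')
        Pool.Agent.Strip051.G.IE1.Tab.C.FA37.c_mm_133 noCut_VA noExt_VA F r1 r2 r1 r2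

theorem FA37_mm_202 {κ x : ℝ} (hκ : κ * h0 = kenE x) (hx : 39 / 40 ≤ x) (hx' : x < 1) :
    TriA (DD x).cur (farD κ (h0 * x) (tbl tKF x) (tbl tL x)) 2 0 2 3 7 (-1) (-1) :=
  (sideF hx hx').farA (Or.inr rfl) (Or.inr rfl) fun y y' F r1 r2 =>
    farXA_cert (s1 := false) (s2 := false) rfl hκ (ka0 hκ hx hx') (xa0 hx) hx' (covF32 hx hx') (covF70 hx hx') (x1 hx) (x2 hx')
        Pool.Agent.Strip051.G.IE1.Tab.C.FA37.c_mm_202 noCut_VA noExt_VA F r1 r2 r1 r2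

theorem FA37_mm_203 {κ x : ℝ} (hκ : κ * h0 = kenE x) (hx : 39 / 40 ≤ x) (hx' : x < 1) :
    TriA (DD x).cur (farD κ (h0 * x) (tbl tKF x) (tbl tL x)) 2 0 3 3 7 (-1) (-1) :=
  (sideF hx hx').farA (Or.inr rfl) (Or.inr rfl) fun y y' F r1 r2 =>
    farXA_cert (s1 := false) (s2 := false) rfl hκ (ka0 hκ hx hx') (xa0 hx) hx' (covF32 hx hx') (covF70 hx hx') (x1 hx) (x2 hx')
        Pool.Agent.Strip051.G.IE1.Tab.C.FA37.c_mm_203 noCut_VA noExt_VA F r1 r2 r1 r2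

theorem FA37_mm_213 {κ x : ℝ} (hκ : κ * h0 = kenE x) (hx : 39 / 40 ≤ x) (hx' : x < 1) :
    TriA (DD x).cur (farD κ (h0 * x) (tbl tKF x) (tbl tL x)) 2 1 3 3 7 (-1) (-1) :=
  (sideF hx hx').farA (Or.inr rfl) (Or.inr rfl) fun y y' F r1 r2 =>
    farXA_cert (s1 := false) (s2 := false) rfl hκ (ka0 hκ hx hx') (xa0 hx) hx' (covF32 hx hx') (covF71 hx hx') (x1 hx) (x2 hx')
        Pool.Agent.Strip051.G.IE1.Tab.C.FA37.c_mm_213 noCut_VA noExt_VA F r1 r2 r1 r2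

theorem FA37_mm_303 {κ x : ℝ} (hκ : κ * h0 = kenE x) (hx : 39 / 40 ≤ x) (hx' : x < 1) :
    TriA (DD x).cur (farD κ (h0 * x) (tbl tKF x) (tbl tL x)) 3 0 3 3 7 (-1) (-1) :=
  (sideF hx hx').farA (Or.inr rfl) (Or.inr rfl) fun y y' F r1 r2 =>
    farXA_cert (s1 := false) (s2 := false) rfl hκ (ka0 hκ hx hx') (xa0 hx) hx' (covF33 hx hx') (covF70 hx hx') (x1 hx) (x2 hx')
        Pool.Agent.Strip051.G.IE1.Tab.C.FA37.c_mm_303 noCut_VA noExt_VA F r1 r2 r1 r2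

theorem FA37_mm_313 {κ x : ℝ} (hκ : κ * h0 = kenE x) (hx : 39 / 40 ≤ x) (hx' : x < 1) :
    TriA (DD x).cur (farD κ (h0 * x) (tbl tKF x) (tbl tL x)) 3 1 3 3 7 (-1) (-1) :=
  (sideF hx hx').farA (Or.inr rfl) (Or.inr rfl) fun y y' F r1 r2 =>
    farXA_cert (s1 := false) (s2 := false) rfl hκ (ka0 hκ hx hx') (xa0 hx) hx' (covF33 hx hx') (covF71 hx hx') (x1 hx) (x2 hx')
        Pool.Agent.Strip051.G.IE1.Tab.C.FA37.c_mm_313 noCut_VA noExt_VA F r1 r2 r1 r2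

theorem FA37 {κ x : ℝ} (hκ : κ * h0 = kenE x) (hx : 39 / 40 ≤ x) (hx' : x < 1) : AllTA (DD x).cur (farD κ (h0 * x) (tbl tKF x) (tbl tL x)) 3 7 where
  pp := all17 (Q := fun a b c => TriA (DD x).cur (farD κ (h0 * x) (tbl tKF x) (tbl tL x)) a b c 3 7 1 1)
    (FA37_pp_001 hκ hx hx') (FA37_pp_011 hκ hx hx') (FA37_pp_012 hκ hx hx') (FA37_pp_022 hκ hx hx') (FA37_pp_023 hκ hx hx') (FA37_pp_033 hκ hx hx') (FA37_pp_101 hκ hx hx') (FA37_pp_102 hκ hx hx') (FA37_pp_112 hκ hx hx') (FA37_pp_113 hκ hx hx') (FA37_pp_123 hκ hx hx') (FA37_pp_133 hκ hx hx') (FA37_pp_202 hκ hx hx') (FA37_pp_203 hκ hx hx') (FA37_pp_213 hκ hx hx') (FA37_pp_303 hκ hx hx') (FA37_pp_313 hκ hx hx')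
  pm := all17 (Q := fun a b c => TriA (DD x).cur (farD κ (h0 * x) (tbl tKF x) (tbl tL x)) a b c 3 7 1 (-1))
    (FA37_pm_001 hκ hx hx') (FA37_pm_011 hκ hx hx') (FA37_pm_012 hκ hx hx') (FA37_pm_022 hκ hx hx') (FA37_pm_023 hκ hx hx') (FA37_pm_033 hκ hx hx') (FA37_pm_101 hκ hx hx') (FA37_pm_102 hκ hx hx') (FA37_pm_112 hκ hx hx') (FA37_pm_113 hκ hx hx') (FA37_pm_123 hκ hx hx') (FA37_pm_133 hκ hx hx') (FA37_pm_202 hκ hx hx') (FA37_pm_203 hκ hx hx') (FA37_pm_213 hκ hx hx') (FA37_pm_303 hκ hx hx') (FA37_pm_313 hκ hx hx')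
  mm := all17 (Q := fun a b c => TriA (DD x).cur (farD κ (h0 * x) (tbl tKF x) (tbl tL x)) a b c 3 7 (-1) (-1))
    (FA37_mm_001 hκ hx hx') (FA37_mm_011 hκ hx hx') (FA37_mm_012 hκ hx hx') (FA37_mm_022 hκ hx hx') (FA37_mm_023 hκ hx hx') (FA37_mm_033 hκ hx hx') (FA37_mm_101 hκ hx hx') (FA37_mm_102 hκ hx hx') (FA37_mm_112 hκ hx hx') (FA37_mm_113 hκ hx hx') (FA37_mm_123 hκ hx hx') (FA37_mm_133 hκ hx hx') (FA37_mm_202 hκ hx hx') (FA37_mm_203 hκ hx hx') (FA37_mm_213 hκ hx hx') (FA37_mm_303 hκ hx hx') (FA37_mm_313 hκ hx hx')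

theorem FA44_pp_001 {κ x : ℝ} (hκ : κ * h0 = kenE x) (hx : 39 / 40 ≤ x) (hx' : x < 1) :
    TriA (DD x).cur (farD κ (h0 * x) (tbl tKF x) (tbl tL x)) 0 0 1 4 4 1 1 :=
  (sideF hx hx').farA (Or.inl rfl) (Or.inl rfl) fun y y' F r1 r2 =>
    farXA_cert (s1 := true) (s2 := true) rfl hκ (ka0 hκ hx hx') (xa0 hx) hx' (covF40 hx hx') (covF40 hx hx') (x1 hx) (x2 hx')
        Pool.Agent.Strip051.G.IE1.Tab.C.FA44.c_pp_001 noCut_VA noExt_VA F r1 r2 r1 r2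

theorem FA44_pp_011 {κ x : ℝ} (hκ : κ * h0 = kenE x) (hx : 39 / 40 ≤ x) (hx' : x < 1) :
    TriA (DD x).cur (farD κ (h0 * x) (tbl tKF x) (tbl tL x)) 0 1 1 4 4 1 1 :=
  triVA_k nr4_1

theorem FA44_pp_012 {κ x : ℝ} (hκ : κ * h0 = kenE x) (hx : 39 / 40 ≤ x) (hx' : x < 1) :
    TriA (DD x).cur (farD κ (h0 * x) (tbl tKF x) (tbl tL x)) 0 1 2 4 4 1 1 :=
  triVA_k nr4_1

theorem FA44_pp_022 {κ x : ℝ} (hκ : κ * h0 = kenE x) (hx : 39 / 40 ≤ x) (hx' : x < 1) :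
    TriA (DD x).cur (farD κ (h0 * x) (tbl tKF x) (tbl tL x)) 0 2 2 4 4 1 1 :=
  triVA_k nr4_2

theorem FA44_pp_023 {κ x : ℝ} (hκ : κ * h0 = kenE x) (hx : 39 / 40 ≤ x) (hx' : x < 1) :
    TriA (DD x).cur (farD κ (h0 * x) (tbl tKF x) (tbl tL x)) 0 2 3 4 4 1 1 :=
  triVA_k nr4_2

theorem FA44_pp_033 {κ x : ℝ} (hκ : κ * h0 = kenE x) (hx : 39 / 40 ≤ x) (hx' : x < 1) :
    TriA (DD x).cur (farD κ (h0 * x) (tbl tKF x) (tbl tL x)) 0 3 3 4 4 1 1 :=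
  triVA_k nr4_3

theorem FA44_pp_101 {κ x : ℝ} (hκ : κ * h0 = kenE x) (hx : 39 / 40 ≤ x) (hx' : x < 1) :
    TriA (DD x).cur (farD κ (h0 * x) (tbl tKF x) (tbl tL x)) 1 0 1 4 4 1 1 :=
  triVA_j nr4_1

theorem FA44_pp_102 {κ x : ℝ} (hκ : κ * h0 = kenE x) (hx : 39 / 40 ≤ x) (hx' : x < 1) :
    TriA (DD x).cur (farD κ (h0 * x) (tbl tKF x) (tbl tL x)) 1 0 2 4 4 1 1 :=
  triVA_j nr4_1

theorem FA44_pp_112 {κ x : ℝ} (hκ : κ * h0 = kenE x) (hx : 39 / 40 ≤ x) (hx' : x < 1) :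
    TriA (DD x).cur (farD κ (h0 * x) (tbl tKF x) (tbl tL x)) 1 1 2 4 4 1 1 :=
  triVA_j nr4_1

theorem FA44_pp_113 {κ x : ℝ} (hκ : κ * h0 = kenE x) (hx : 39 / 40 ≤ x) (hx' : x < 1) :
    TriA (DD x).cur (farD κ (h0 * x) (tbl tKF x) (tbl tL x)) 1 1 3 4 4 1 1 :=
  triVA_j nr4_1

theorem FA44_pp_123 {κ x : ℝ} (hκ : κ * h0 = kenE x) (hx : 39 / 40 ≤ x) (hx' : x < 1) :
    TriA (DD x).cur (farD κ (h0 * x) (tbl tKF x) (tbl tL x)) 1 2 3 4 4 1 1 :=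
  triVA_j nr4_1

theorem FA44_pp_133 {κ x : ℝ} (hκ : κ * h0 = kenE x) (hx : 39 / 40 ≤ x) (hx' : x < 1) :
    TriA (DD x).cur (farD κ (h0 * x) (tbl tKF x) (tbl tL x)) 1 3 3 4 4 1 1 :=
  triVA_j nr4_1

theorem FA44_pp_202 {κ x : ℝ} (hκ : κ * h0 = kenE x) (hx : 39 / 40 ≤ x) (hx' : x < 1) :
    TriA (DD x).cur (farD κ (h0 * x) (tbl tKF x) (tbl tL x)) 2 0 2 4 4 1 1 :=
  triVA_j nr4_2

theorem FA44_pp_203 {κ x : ℝ} (hκ : κ * h0 = kenE x) (hx : 39 / 40 ≤ x) (hx' : x < 1) :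
    TriA (DD x).cur (farD κ (h0 * x) (tbl tKF x) (tbl tL x)) 2 0 3 4 4 1 1 :=
  triVA_j nr4_2

theorem FA44_pp_213 {κ x : ℝ} (hκ : κ * h0 = kenE x) (hx : 39 / 40 ≤ x) (hx' : x < 1) :
    TriA (DD x).cur (farD κ (h0 * x) (tbl tKF x) (tbl tL x)) 2 1 3 4 4 1 1 :=
  triVA_j nr4_2

theorem FA44_pp_303 {κ x : ℝ} (hκ : κ * h0 = kenE x) (hx : 39 / 40 ≤ x) (hx' : x < 1) :
    TriA (DD x).cur (farD κ (h0 * x) (tbl tKF x) (tbl tL x)) 3 0 3 4 4 1 1 :=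
  triVA_j nr4_3

theorem FA44_pp_313 {κ x : ℝ} (hκ : κ * h0 = kenE x) (hx : 39 / 40 ≤ x) (hx' : x < 1) :
    TriA (DD x).cur (farD κ (h0 * x) (tbl tKF x) (tbl tL x)) 3 1 3 4 4 1 1 :=
  triVA_j nr4_3

theorem FA44_pm_001 {κ x : ℝ} (hκ : κ * h0 = kenE x) (hx : 39 / 40 ≤ x) (hx' : x < 1) :
    TriA (DD x).cur (farD κ (h0 * x) (tbl tKF x) (tbl tL x)) 0 0 1 4 4 1 (-1) :=
  (sideF hx hx').farA (Or.inl rfl) (Or.inr rfl) fun y y' F r1 r2 =>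
    farXA_cert (s1 := true) (s2 := false) rfl hκ (ka0 hκ hx hx') (xa0 hx) hx' (covF40 hx hx') (covF40 hx hx') (x1 hx) (x2 hx')
        Pool.Agent.Strip051.G.IE1.Tab.C.FA44.c_pm_001 noCut_VA noExt_VA F r1 r2 r1 r2

theorem FA44_pm_011 {κ x : ℝ} (hκ : κ * h0 = kenE x) (hx : 39 / 40 ≤ x) (hx' : x < 1) :
    TriA (DD x).cur (farD κ (h0 * x) (tbl tKF x) (tbl tL x)) 0 1 1 4 4 1 (-1) :=
  triVA_k nr4_1

theorem FA44_pm_012 {κ x : ℝ} (hκ : κ * h0 = kenE x) (hx : 39 / 40 ≤ x) (hx' : x < 1) :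
    TriA (DD x).cur (farD κ (h0 * x) (tbl tKF x) (tbl tL x)) 0 1 2 4 4 1 (-1) :=
  triVA_k nr4_1

theorem FA44_pm_022 {κ x : ℝ} (hκ : κ * h0 = kenE x) (hx : 39 / 40 ≤ x) (hx' : x < 1) :
    TriA (DD x).cur (farD κ (h0 * x) (tbl tKF x) (tbl tL x)) 0 2 2 4 4 1 (-1) :=
  triVA_k nr4_2

theorem FA44_pm_023 {κ x : ℝ} (hκ : κ * h0 = kenE x) (hx : 39 / 40 ≤ x) (hx' : x < 1) :
    TriA (DD x).cur (farD κ (h0 * x) (tbl tKF x) (tbl tL x)) 0 2 3 4 4 1 (-1) :=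
  triVA_k nr4_2

theorem FA44_pm_033 {κ x : ℝ} (hκ : κ * h0 = kenE x) (hx : 39 / 40 ≤ x) (hx' : x < 1) :
    TriA (DD x).cur (farD κ (h0 * x) (tbl tKF x) (tbl tL x)) 0 3 3 4 4 1 (-1) :=
  triVA_k nr4_3

theorem FA44_pm_101 {κ x : ℝ} (hκ : κ * h0 = kenE x) (hx : 39 / 40 ≤ x) (hx' : x < 1) :
    TriA (DD x).cur (farD κ (h0 * x) (tbl tKF x) (tbl tL x)) 1 0 1 4 4 1 (-1) :=
  triVA_j nr4_1

theorem FA44_pm_102 {κ x : ℝ} (hκ : κ * h0 = kenE x) (hx : 39 / 40 ≤ x) (hx' : x < 1) :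
    TriA (DD x).cur (farD κ (h0 * x) (tbl tKF x) (tbl tL x)) 1 0 2 4 4 1 (-1) :=
  triVA_j nr4_1

theorem FA44_pm_112 {κ x : ℝ} (hκ : κ * h0 = kenE x) (hx : 39 / 40 ≤ x) (hx' : x < 1) :
    TriA (DD x).cur (farD κ (h0 * x) (tbl tKF x) (tbl tL x)) 1 1 2 4 4 1 (-1) :=
  triVA_j nr4_1

theorem FA44_pm_113 {κ x : ℝ} (hκ : κ * h0 = kenE x) (hx : 39 / 40 ≤ x) (hx' : x < 1) :
    TriA (DD x).cur (farD κ (h0 * x) (tbl tKF x) (tbl tL x)) 1 1 3 4 4 1 (-1) :=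
  triVA_j nr4_1

theorem FA44_pm_123 {κ x : ℝ} (hκ : κ * h0 = kenE x) (hx : 39 / 40 ≤ x) (hx' : x < 1) :
    TriA (DD x).cur (farD κ (h0 * x) (tbl tKF x) (tbl tL x)) 1 2 3 4 4 1 (-1) :=
  triVA_j nr4_1

theorem FA44_pm_133 {κ x : ℝ} (hκ : κ * h0 = kenE x) (hx : 39 / 40 ≤ x) (hx' : x < 1) :
    TriA (DD x).cur (farD κ (h0 * x) (tbl tKF x) (tbl tL x)) 1 3 3 4 4 1 (-1) :=
  triVA_j nr4_1

theorem FA44_pm_202 {κ x : ℝ} (hκ : κ * h0 = kenE x) (hx : 39 / 40 ≤ x) (hx' : x < 1) :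
    TriA (DD x).cur (farD κ (h0 * x) (tbl tKF x) (tbl tL x)) 2 0 2 4 4 1 (-1) :=
  triVA_j nr4_2

theorem FA44_pm_203 {κ x : ℝ} (hκ : κ * h0 = kenE x) (hx : 39 / 40 ≤ x) (hx' : x < 1) :
    TriA (DD x).cur (farD κ (h0 * x) (tbl tKF x) (tbl tL x)) 2 0 3 4 4 1 (-1) :=
  triVA_j nr4_2

theorem FA44_pm_213 {κ x : ℝ} (hκ : κ * h0 = kenE x) (hx : 39 / 40 ≤ x) (hx' : x < 1) :
    TriA (DD x).cur (farD κ (h0 * x) (tbl tKF x) (tbl tL x)) 2 1 3 4 4 1 (-1) :=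
  triVA_j nr4_2

theorem FA44_pm_303 {κ x : ℝ} (hκ : κ * h0 = kenE x) (hx : 39 / 40 ≤ x) (hx' : x < 1) :
    TriA (DD x).cur (farD κ (h0 * x) (tbl tKF x) (tbl tL x)) 3 0 3 4 4 1 (-1) :=
  triVA_j nr4_3

theorem FA44_pm_313 {κ x : ℝ} (hκ : κ * h0 = kenE x) (hx : 39 / 40 ≤ x) (hx' : x < 1) :
    TriA (DD x).cur (farD κ (h0 * x) (tbl tKF x) (tbl tL x)) 3 1 3 4 4 1 (-1) :=
  triVA_j nr4_3

theorem FA44_mm_001 {κ x : ℝ} (hκ : κ * h0 = kenE x) (hx : 39 / 40 ≤ x) (hx' : x < 1) :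
    TriA (DD x).cur (farD κ (h0 * x) (tbl tKF x) (tbl tL x)) 0 0 1 4 4 (-1) (-1) :=
  (sideF hx hx').farA (Or.inr rfl) (Or.inr rfl) fun y y' F r1 r2 =>
    farXA_cert (s1 := false) (s2 := false) rfl hκ (ka0 hκ hx hx') (xa0 hx) hx' (covF40 hx hx') (covF40 hx hx') (x1 hx) (x2 hx')
        Pool.Agent.Strip051.G.IE1.Tab.C.FA44.c_mm_001 noCut_VA noExt_VA F r1 r2 r1 r2

theorem FA44_mm_011 {κ x : ℝ} (hκ : κ * h0 = kenE x) (hx : 39 / 40 ≤ x) (hx' : x < 1) :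
    TriA (DD x).cur (farD κ (h0 * x) (tbl tKF x) (tbl tL x)) 0 1 1 4 4 (-1) (-1) :=
  triVA_k nr4_1

theorem FA44_mm_012 {κ x : ℝ} (hκ : κ * h0 = kenE x) (hx : 39 / 40 ≤ x) (hx' : x < 1) :
    TriA (DD x).cur (farD κ (h0 * x) (tbl tKF x) (tbl tL x)) 0 1 2 4 4 (-1) (-1) :=
  triVA_k nr4_1

theorem FA44_mm_022 {κ x : ℝ} (hκ : κ * h0 = kenE x) (hx : 39 / 40 ≤ x) (hx' : x < 1) :
    TriA (DD x).cur (farD κ (h0 * x) (tbl tKF x) (tbl tL x)) 0 2 2 4 4 (-1) (-1) :=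
  triVA_k nr4_2

theorem FA44_mm_023 {κ x : ℝ} (hκ : κ * h0 = kenE x) (hx : 39 / 40 ≤ x) (hx' : x < 1) :
    TriA (DD x).cur (farD κ (h0 * x) (tbl tKF x) (tbl tL x)) 0 2 3 4 4 (-1) (-1) :=
  triVA_k nr4_2

theorem FA44_mm_033 {κ x : ℝ} (hκ : κ * h0 = kenE x) (hx : 39 / 40 ≤ x) (hx' : x < 1) :
    TriA (DD x).cur (farD κ (h0 * x) (tbl tKF x) (tbl tL x)) 0 3 3 4 4 (-1) (-1) :=
  triVA_k nr4_3

theorem FA44_mm_101 {κ x : ℝ} (hκ : κ * h0 = kenE x) (hx : 39 / 40 ≤ x) (hx' : x < 1) :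
    TriA (DD x).cur (farD κ (h0 * x) (tbl tKF x) (tbl tL x)) 1 0 1 4 4 (-1) (-1) :=
  triVA_j nr4_1

theorem FA44_mm_102 {κ x : ℝ} (hκ : κ * h0 = kenE x) (hx : 39 / 40 ≤ x) (hx' : x < 1) :
    TriA (DD x).cur (farD κ (h0 * x) (tbl tKF x) (tbl tL x)) 1 0 2 4 4 (-1) (-1) :=
  triVA_j nr4_1

theorem FA44_mm_112 {κ x : ℝ} (hκ : κ * h0 = kenE x) (hx : 39 / 40 ≤ x) (hx' : x < 1) :
    TriA (DD x).cur (farD κ (h0 * x) (tbl tKF x) (tbl tL x)) 1 1 2 4 4 (-1) (-1) :=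
  triVA_j nr4_1

theorem FA44_mm_113 {κ x : ℝ} (hκ : κ * h0 = kenE x) (hx : 39 / 40 ≤ x) (hx' : x < 1) :
    TriA (DD x).cur (farD κ (h0 * x) (tbl tKF x) (tbl tL x)) 1 1 3 4 4 (-1) (-1) :=
  triVA_j nr4_1

theorem FA44_mm_123 {κ x : ℝ} (hκ : κ * h0 = kenE x) (hx : 39 / 40 ≤ x) (hx' : x < 1) :
    TriA (DD x).cur (farD κ (h0 * x) (tbl tKF x) (tbl tL x)) 1 2 3 4 4 (-1) (-1) :=
  triVA_j nr4_1

theorem FA44_mm_133 {κ x : ℝ} (hκ : κ * h0 = kenE x) (hx : 39 / 40 ≤ x) (hx' : x < 1) :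
    TriA (DD x).cur (farD κ (h0 * x) (tbl tKF x) (tbl tL x)) 1 3 3 4 4 (-1) (-1) :=
  triVA_j nr4_1

theorem FA44_mm_202 {κ x : ℝ} (hκ : κ * h0 = kenE x) (hx : 39 / 40 ≤ x) (hx' : x < 1) :
    TriA (DD x).cur (farD κ (h0 * x) (tbl tKF x) (tbl tL x)) 2 0 2 4 4 (-1) (-1) :=
  triVA_j nr4_2

theorem FA44_mm_203 {κ x : ℝ} (hκ : κ * h0 = kenE x) (hx : 39 / 40 ≤ x) (hx' : x < 1) :
    TriA (DD x).cur (farD κ (h0 * x) (tbl tKF x) (tbl tL x)) 2 0 3 4 4 (-1) (-1) :=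
  triVA_j nr4_2

theorem FA44_mm_213 {κ x : ℝ} (hκ : κ * h0 = kenE x) (hx : 39 / 40 ≤ x) (hx' : x < 1) :
    TriA (DD x).cur (farD κ (h0 * x) (tbl tKF x) (tbl tL x)) 2 1 3 4 4 (-1) (-1) :=
  triVA_j nr4_2

theorem FA44_mm_303 {κ x : ℝ} (hκ : κ * h0 = kenE x) (hx : 39 / 40 ≤ x) (hx' : x < 1) :
    TriA (DD x).cur (farD κ (h0 * x) (tbl tKF x) (tbl tL x)) 3 0 3 4 4 (-1) (-1) :=
  triVA_j nr4_3

theorem FA44_mm_313 {κ x : ℝ} (hκ : κ * h0 = kenE x) (hx : 39 / 40 ≤ x) (hx' : x < 1) :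
    TriA (DD x).cur (farD κ (h0 * x) (tbl tKF x) (tbl tL x)) 3 1 3 4 4 (-1) (-1) :=
  triVA_j nr4_3

theorem FA44 {κ x : ℝ} (hκ : κ * h0 = kenE x) (hx : 39 / 40 ≤ x) (hx' : x < 1) : AllTA (DD x).cur (farD κ (h0 * x) (tbl tKF x) (tbl tL x)) 4 4 where
  pp := all17 (Q := fun a b c => TriA (DD x).cur (farD κ (h0 * x) (tbl tKF x) (tbl tL x)) a b c 4 4 1 1)
    (FA44_pp_001 hκ hx hx') (FA44_pp_011 hκ hx hx') (FA44_pp_012 hκ hx hx') (FA44_pp_022 hκ hx hx') (FA44_pp_023 hκ hx hx') (FA44_pp_033 hκ hx hx') (FA44_pp_101 hκ hx hx') (FA44_pp_102 hκ hx hx') (FA44_pp_112 hκ hx hx') (FA44_pp_113 hκ hx hx') (FA44_pp_123 hκ hx hx') (FA44_pp_133 hκ hx hx') (FA44_pp_202 hκ hx hx') (FA44_pp_203 hκ hx hx') (FA44_pp_213 hκ hx hx') (FA44_pp_303 hκ hx hx') (FA44_pp_313 hκ hx hx')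
  pm := all17 (Q := fun a b c => TriA (DD x).cur (farD κ (h0 * x) (tbl tKF x) (tbl tL x)) a b c 4 4 1 (-1))
    (FA44_pm_001 hκ hx hx') (FA44_pm_011 hκ hx hx') (FA44_pm_012 hκ hx hx') (FA44_pm_022 hκ hx hx') (FA44_pm_023 hκ hx hx') (FA44_pm_033 hκ hx hx') (FA44_pm_101 hκ hx hx') (FA44_pm_102 hκ hx hx') (FA44_pm_112 hκ hx hx') (FA44_pm_113 hκ hx hx') (FA44_pm_123 hκ hx hx') (FA44_pm_133 hκ hx hx') (FA44_pm_202 hκ hx hx') (FA44_pm_203 hκ hx hx') (FA44_pm_213 hκ hx hx') (FA44_pm_303 hκ hx hx') (FA44_pm_313 hκ hx hx')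
  mm := all17 (Q := fun a b c => TriA (DD x).cur (farD κ (h0 * x) (tbl tKF x) (tbl tL x)) a b c 4 4 (-1) (-1))
    (FA44_mm_001 hκ hx hx') (FA44_mm_011 hκ hx hx') (FA44_mm_012 hκ hx hx') (FA44_mm_022 hκ hx hx') (FA44_mm_023 hκ hx hx') (FA44_mm_033 hκ hx hx') (FA44_mm_101 hκ hx hx') (FA44_mm_102 hκ hx hx') (FA44_mm_112 hκ hx hx') (FA44_mm_113 hκ hx hx') (FA44_mm_123 hκ hx hx') (FA44_mm_133 hκ hx hx') (FA44_mm_202 hκ hx hx') (FA44_mm_203 hκ hx hx') (FA44_mm_213 hκ hx hx') (FA44_mm_303 hκ hx hx') (FA44_mm_313 hκ hx hx')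

theorem FA45_pp_001 {κ x : ℝ} (hκ : κ * h0 = kenE x) (hx : 39 / 40 ≤ x) (hx' : x < 1) :
    TriA (DD x).cur (farD κ (h0 * x) (tbl tKF x) (tbl tL x)) 0 0 1 4 5 1 1 :=
  (sideF hx hx').farA (Or.inl rfl) (Or.inl rfl) fun y y' F r1 r2 =>
    farXA_cert (s1 := true) (s2 := true) rfl hκ (ka0 hκ hx hx') (xa0 hx) hx' (covF40 hx hx') (covF50 hx hx') (x1 hx) (x2 hx')
        Pool.Agent.Strip051.G.IE1.Tab.C.FA45.c_pp_001 noCut_VA noExt_VA F r1 r2 r1 r2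

theorem FA45_pp_011 {κ x : ℝ} (hκ : κ * h0 = kenE x) (hx : 39 / 40 ≤ x) (hx' : x < 1) :
    TriA (DD x).cur (farD κ (h0 * x) (tbl tKF x) (tbl tL x)) 0 1 1 4 5 1 1 :=
  (sideF hx hx').farA (Or.inl rfl) (Or.inl rfl) fun y y' F r1 r2 =>
    farXA_cert (s1 := true) (s2 := true) rfl hκ (ka0 hκ hx hx') (xa0 hx) hx' (covF40 hx hx') (covF51 hx hx') (x1 hx) (x2 hx')
        Pool.Agent.Strip051.G.IE1.Tab.C.FA45.c_pp_011 noCut_VA noExt_VA F r1 r2 r1 r2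

theorem FA45_pp_012 {κ x : ℝ} (hκ : κ * h0 = kenE x) (hx : 39 / 40 ≤ x) (hx' : x < 1) :
    TriA (DD x).cur (farD κ (h0 * x) (tbl tKF x) (tbl tL x)) 0 1 2 4 5 1 1 :=
  (sideF hx hx').farA (Or.inl rfl) (Or.inl rfl) fun y y' F r1 r2 =>
    farXA_cert (s1 := true) (s2 := true) rfl hκ (ka0 hκ hx hx') (xa0 hx) hx' (covF40 hx hx') (covF51 hx hx') (x1 hx) (x2 hx')
        Pool.Agent.Strip051.G.IE1.Tab.C.FA45.c_pp_012 noCut_VA noExt_VA F r1 r2 r1 r2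

theorem FA45_pp_022 {κ x : ℝ} (hκ : κ * h0 = kenE x) (hx : 39 / 40 ≤ x) (hx' : x < 1) :
    TriA (DD x).cur (farD κ (h0 * x) (tbl tKF x) (tbl tL x)) 0 2 2 4 5 1 1 :=
  (sideF hx hx').farA (Or.inl rfl) (Or.inl rfl) fun y y' F r1 r2 =>
    farXA_cert (s1 := true) (s2 := true) rfl hκ (ka0 hκ hx hx') (xa0 hx) hx' (covF40 hx hx') (covF52 hx hx') (x1 hx) (x2 hx')
        Pool.Agent.Strip051.G.IE1.Tab.C.FA45.c_pp_022 noCut_VA noExt_VA F r1 r2 r1 r2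

theorem FA45_pp_023 {κ x : ℝ} (hκ : κ * h0 = kenE x) (hx : 39 / 40 ≤ x) (hx' : x < 1) :
    TriA (DD x).cur (farD κ (h0 * x) (tbl tKF x) (tbl tL x)) 0 2 3 4 5 1 1 :=
  (sideF hx hx').farA (Or.inl rfl) (Or.inl rfl) fun y y' F r1 r2 =>
    farXA_cert (s1 := true) (s2 := true) rfl hκ (ka0 hκ hx hx') (xa0 hx) hx' (covF40 hx hx') (covF52 hx hx') (x1 hx) (x2 hx')
        Pool.Agent.Strip051.G.IE1.Tab.C.FA45.c_pp_023 noCut_VA noExt_VA F r1 r2 r1 r2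

theorem FA45_pp_033 {κ x : ℝ} (hκ : κ * h0 = kenE x) (hx : 39 / 40 ≤ x) (hx' : x < 1) :
    TriA (DD x).cur (farD κ (h0 * x) (tbl tKF x) (tbl tL x)) 0 3 3 4 5 1 1 :=
  (sideF hx hx').farA (Or.inl rfl) (Or.inl rfl) fun y y' F r1 r2 =>
    farXA_cert (s1 := true) (s2 := true) rfl hκ (ka0 hκ hx hx') (xa0 hx) hx' (covF40 hx hx') (covF53 hx hx') (x1 hx) (x2 hx')
        Pool.Agent.Strip051.G.IE1.Tab.C.FA45.c_pp_033 noCut_VA noExt_VA F r1 r2 r1 r2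

theorem FA45_pp_101 {κ x : ℝ} (hκ : κ * h0 = kenE x) (hx : 39 / 40 ≤ x) (hx' : x < 1) :
    TriA (DD x).cur (farD κ (h0 * x) (tbl tKF x) (tbl tL x)) 1 0 1 4 5 1 1 :=
  triVA_j nr4_1

theorem FA45_pp_102 {κ x : ℝ} (hκ : κ * h0 = kenE x) (hx : 39 / 40 ≤ x) (hx' : x < 1) :
    TriA (DD x).cur (farD κ (h0 * x) (tbl tKF x) (tbl tL x)) 1 0 2 4 5 1 1 :=
  triVA_j nr4_1

theorem FA45_pp_112 {κ x : ℝ} (hκ : κ * h0 = kenE x) (hx : 39 / 40 ≤ x) (hx' : x < 1) :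
    TriA (DD x).cur (farD κ (h0 * x) (tbl tKF x) (tbl tL x)) 1 1 2 4 5 1 1 :=
  triVA_j nr4_1

theorem FA45_pp_113 {κ x : ℝ} (hκ : κ * h0 = kenE x) (hx : 39 / 40 ≤ x) (hx' : x < 1) :
    TriA (DD x).cur (farD κ (h0 * x) (tbl tKF x) (tbl tL x)) 1 1 3 4 5 1 1 :=
  triVA_j nr4_1

theorem FA45_pp_123 {κ x : ℝ} (hκ : κ * h0 = kenE x) (hx : 39 / 40 ≤ x) (hx' : x < 1) :
    TriA (DD x).cur (farD κ (h0 * x) (tbl tKF x) (tbl tL x)) 1 2 3 4 5 1 1 :=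
  triVA_j nr4_1

theorem FA45_pp_133 {κ x : ℝ} (hκ : κ * h0 = kenE x) (hx : 39 / 40 ≤ x) (hx' : x < 1) :
    TriA (DD x).cur (farD κ (h0 * x) (tbl tKF x) (tbl tL x)) 1 3 3 4 5 1 1 :=
  triVA_j nr4_1

theorem FA45_pp_202 {κ x : ℝ} (hκ : κ * h0 = kenE x) (hx : 39 / 40 ≤ x) (hx' : x < 1) :
    TriA (DD x).cur (farD κ (h0 * x) (tbl tKF x) (tbl tL x)) 2 0 2 4 5 1 1 :=
  triVA_j nr4_2

theorem FA45_pp_203 {κ x : ℝ} (hκ : κ * h0 = kenE x) (hx : 39 / 40 ≤ x) (hx' : x < 1) :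
    TriA (DD x).cur (farD κ (h0 * x) (tbl tKF x) (tbl tL x)) 2 0 3 4 5 1 1 :=
  triVA_j nr4_2

theorem FA45_pp_213 {κ x : ℝ} (hκ : κ * h0 = kenE x) (hx : 39 / 40 ≤ x) (hx' : x < 1) :
    TriA (DD x).cur (farD κ (h0 * x) (tbl tKF x) (tbl tL x)) 2 1 3 4 5 1 1 :=
  triVA_j nr4_2

theorem FA45_pp_303 {κ x : ℝ} (hκ : κ * h0 = kenE x) (hx : 39 / 40 ≤ x) (hx' : x < 1) :
    TriA (DD x).cur (farD κ (h0 * x) (tbl tKF x) (tbl tL x)) 3 0 3 4 5 1 1 :=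
  triVA_j nr4_3

theorem FA45_pp_313 {κ x : ℝ} (hκ : κ * h0 = kenE x) (hx : 39 / 40 ≤ x) (hx' : x < 1) :
    TriA (DD x).cur (farD κ (h0 * x) (tbl tKF x) (tbl tL x)) 3 1 3 4 5 1 1 :=
  triVA_j nr4_3

theorem FA45_pm_001 {κ x : ℝ} (hκ : κ * h0 = kenE x) (hx : 39 / 40 ≤ x) (hx' : x < 1) :
    TriA (DD x).cur (farD κ (h0 * x) (tbl tKF x) (tbl tL x)) 0 0 1 4 5 1 (-1) :=
  (sideF hx hx').farA (Or.inl rfl) (Or.inr rfl) fun y y' F r1 r2 =>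
    farXA_cert (s1 := true) (s2 := false) rfl hκ (ka0 hκ hx hx') (xa0 hx) hx' (covF40 hx hx') (covF50 hx hx') (x1 hx) (x2 hx')
        Pool.Agent.Strip051.G.IE1.Tab.C.FA45.c_pm_001 noCut_VA noExt_VA F r1 r2 r1 r2

theorem FA45_pm_011 {κ x : ℝ} (hκ : κ * h0 = kenE x) (hx : 39 / 40 ≤ x) (hx' : x < 1) :
    TriA (DD x).cur (farD κ (h0 * x) (tbl tKF x) (tbl tL x)) 0 1 1 4 5 1 (-1) :=
  (sideF hx hx').farA (Or.inl rfl) (Or.inr rfl) fun y y' F r1 r2 =>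
    farXA_cert (s1 := true) (s2 := false) rfl hκ (ka0 hκ hx hx') (xa0 hx) hx' (covF40 hx hx') (covF51 hx hx') (x1 hx) (x2 hx')
        Pool.Agent.Strip051.G.IE1.Tab.C.FA45.c_pm_011 noCut_VA noExt_VA F r1 r2 r1 r2

theorem FA45_pm_012 {κ x : ℝ} (hκ : κ * h0 = kenE x) (hx : 39 / 40 ≤ x) (hx' : x < 1) :
    TriA (DD x).cur (farD κ (h0 * x) (tbl tKF x) (tbl tL x)) 0 1 2 4 5 1 (-1) :=
  (sideF hx hx').farA (Or.inl rfl) (Or.inr rfl) fun y y' F r1 r2 =>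
    farXA_cert (s1 := true) (s2 := false) rfl hκ (ka0 hκ hx hx') (xa0 hx) hx' (covF40 hx hx') (covF51 hx hx') (x1 hx) (x2 hx')
        Pool.Agent.Strip051.G.IE1.Tab.C.FA45.c_pm_012 noCut_VA noExt_VA F r1 r2 r1 r2

theorem FA45_pm_022 {κ x : ℝ} (hκ : κ * h0 = kenE x) (hx : 39 / 40 ≤ x) (hx' : x < 1) :
    TriA (DD x).cur (farD κ (h0 * x) (tbl tKF x) (tbl tL x)) 0 2 2 4 5 1 (-1) :=
  (sideF hx hx').farA (Or.inl rfl) (Or.inr rfl) fun y y' F r1 r2 =>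
    farXA_cert (s1 := true) (s2 := false) rfl hκ (ka0 hκ hx hx') (xa0 hx) hx' (covF40 hx hx') (covF52 hx hx') (x1 hx) (x2 hx')
        Pool.Agent.Strip051.G.IE1.Tab.C.FA45.c_pm_022 noCut_VA noExt_VA F r1 r2 r1 r2

theorem FA45_pm_023 {κ x : ℝ} (hκ : κ * h0 = kenE x) (hx : 39 / 40 ≤ x) (hx' : x < 1) :
    TriA (DD x).cur (farD κ (h0 * x) (tbl tKF x) (tbl tL x)) 0 2 3 4 5 1 (-1) :=
  (sideF hx hx').farA (Or.inl rfl) (Or.inr rfl) fun y y' F r1 r2 =>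
    farXA_cert (s1 := true) (s2 := false) rfl hκ (ka0 hκ hx hx') (xa0 hx) hx' (covF40 hx hx') (covF52 hx hx') (x1 hx) (x2 hx')
        Pool.Agent.Strip051.G.IE1.Tab.C.FA45.c_pm_023 noCut_VA noExt_VA F r1 r2 r1 r2

theorem FA45_pm_033 {κ x : ℝ} (hκ : κ * h0 = kenE x) (hx : 39 / 40 ≤ x) (hx' : x < 1) :
    TriA (DD x).cur (farD κ (h0 * x) (tbl tKF x) (tbl tL x)) 0 3 3 4 5 1 (-1) :=
  (sideF hx hx').farA (Or.inl rfl) (Or.inr rfl) fun y y' F r1 r2 =>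
    farXA_cert (s1 := true) (s2 := false) rfl hκ (ka0 hκ hx hx') (xa0 hx) hx' (covF40 hx hx') (covF53 hx hx') (x1 hx) (x2 hx')
        Pool.Agent.Strip051.G.IE1.Tab.C.FA45.c_pm_033 noCut_VA noExt_VA F r1 r2 r1 r2

theorem FA45_pm_101 {κ x : ℝ} (hκ : κ * h0 = kenE x) (hx : 39 / 40 ≤ x) (hx' : x < 1) :
    TriA (DD x).cur (farD κ (h0 * x) (tbl tKF x) (tbl tL x)) 1 0 1 4 5 1 (-1) :=
  triVA_j nr4_1

theorem FA45_pm_102 {κ x : ℝ} (hκ : κ * h0 = kenE x) (hx : 39 / 40 ≤ x) (hx' : x < 1) :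
    TriA (DD x).cur (farD κ (h0 * x) (tbl tKF x) (tbl tL x)) 1 0 2 4 5 1 (-1) :=
  triVA_j nr4_1

theorem FA45_pm_112 {κ x : ℝ} (hκ : κ * h0 = kenE x) (hx : 39 / 40 ≤ x) (hx' : x < 1) :
    TriA (DD x).cur (farD κ (h0 * x) (tbl tKF x) (tbl tL x)) 1 1 2 4 5 1 (-1) :=
  triVA_j nr4_1

theorem FA45_pm_113 {κ x : ℝ} (hκ : κ * h0 = kenE x) (hx : 39 / 40 ≤ x) (hx' : x < 1) :
    TriA (DD x).cur (farD κ (h0 * x) (tbl tKF x) (tbl tL x)) 1 1 3 4 5 1 (-1) :=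
  triVA_j nr4_1

theorem FA45_pm_123 {κ x : ℝ} (hκ : κ * h0 = kenE x) (hx : 39 / 40 ≤ x) (hx' : x < 1) :
    TriA (DD x).cur (farD κ (h0 * x) (tbl tKF x) (tbl tL x)) 1 2 3 4 5 1 (-1) :=
  triVA_j nr4_1

theorem FA45_pm_133 {κ x : ℝ} (hκ : κ * h0 = kenE x) (hx : 39 / 40 ≤ x) (hx' : x < 1) :
    TriA (DD x).cur (farD κ (h0 * x) (tbl tKF x) (tbl tL x)) 1 3 3 4 5 1 (-1) :=
  triVA_j nr4_1

theorem FA45_pm_202 {κ x : ℝ} (hκ : κ * h0 = kenE x) (hx : 39 / 40 ≤ x) (hx' : x < 1) :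
    TriA (DD x).cur (farD κ (h0 * x) (tbl tKF x) (tbl tL x)) 2 0 2 4 5 1 (-1) :=
  triVA_j nr4_2

theorem FA45_pm_203 {κ x : ℝ} (hκ : κ * h0 = kenE x) (hx : 39 / 40 ≤ x) (hx' : x < 1) :
    TriA (DD x).cur (farD κ (h0 * x) (tbl tKF x) (tbl tL x)) 2 0 3 4 5 1 (-1) :=
  triVA_j nr4_2

theorem FA45_pm_213 {κ x : ℝ} (hκ : κ * h0 = kenE x) (hx : 39 / 40 ≤ x) (hx' : x < 1) :
    TriA (DD x).cur (farD κ (h0 * x) (tbl tKF x) (tbl tL x)) 2 1 3 4 5 1 (-1) :=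
  triVA_j nr4_2

theorem FA45_pm_303 {κ x : ℝ} (hκ : κ * h0 = kenE x) (hx : 39 / 40 ≤ x) (hx' : x < 1) :
    TriA (DD x).cur (farD κ (h0 * x) (tbl tKF x) (tbl tL x)) 3 0 3 4 5 1 (-1) :=
  triVA_j nr4_3

theorem FA45_pm_313 {κ x : ℝ} (hκ : κ * h0 = kenE x) (hx : 39 / 40 ≤ x) (hx' : x < 1) :
    TriA (DD x).cur (farD κ (h0 * x) (tbl tKF x) (tbl tL x)) 3 1 3 4 5 1 (-1) :=
  triVA_j nr4_3

theorem FA45_mm_001 {κ x : ℝ} (hκ : κ * h0 = kenE x) (hx : 39 / 40 ≤ x) (hx' : x < 1) :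
    TriA (DD x).cur (farD κ (h0 * x) (tbl tKF x) (tbl tL x)) 0 0 1 4 5 (-1) (-1) :=
  (sideF hx hx').farA (Or.inr rfl) (Or.inr rfl) fun y y' F r1 r2 =>
    farXA_cert (s1 := false) (s2 := false) rfl hκ (ka0 hκ hx hx') (xa0 hx) hx' (covF40 hx hx') (covF50 hx hx') (x1 hx) (x2 hx')
        Pool.Agent.Strip051.G.IE1.Tab.C.FA45.c_mm_001 noCut_VA noExt_VA F r1 r2 r1 r2

theorem FA45_mm_011 {κ x : ℝ} (hκ : κ * h0 = kenE x) (hx : 39 / 40 ≤ x) (hx' : x < 1) :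
    TriA (DD x).cur (farD κ (h0 * x) (tbl tKF x) (tbl tL x)) 0 1 1 4 5 (-1) (-1) :=
  (sideF hx hx').farA (Or.inr rfl) (Or.inr rfl) fun y y' F r1 r2 =>
    farXA_cert (s1 := false) (s2 := false) rfl hκ (ka0 hκ hx hx') (xa0 hx) hx' (covF40 hx hx') (covF51 hx hx') (x1 hx) (x2 hx')
        Pool.Agent.Strip051.G.IE1.Tab.C.FA45.c_mm_011 noCut_VA noExt_VA F r1 r2 r1 r2

theorem FA45_mm_012 {κ x : ℝ} (hκ : κ * h0 = kenE x) (hx : 39 / 40 ≤ x) (hx' : x < 1) :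
    TriA (DD x).cur (farD κ (h0 * x) (tbl tKF x) (tbl tL x)) 0 1 2 4 5 (-1) (-1) :=
  (sideF hx hx').farA (Or.inr rfl) (Or.inr rfl) fun y y' F r1 r2 =>
    farXA_cert (s1 := false) (s2 := false) rfl hκ (ka0 hκ hx hx') (xa0 hx) hx' (covF40 hx hx') (covF51 hx hx') (x1 hx) (x2 hx')
        Pool.Agent.Strip051.G.IE1.Tab.C.FA45.c_mm_012 noCut_VA noExt_VA F r1 r2 r1 r2

theorem FA45_mm_022 {κ x : ℝ} (hκ : κ * h0 = kenE x) (hx : 39 / 40 ≤ x) (hx' : x < 1) :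
    TriA (DD x).cur (farD κ (h0 * x) (tbl tKF x) (tbl tL x)) 0 2 2 4 5 (-1) (-1) :=
  (sideF hx hx').farA (Or.inr rfl) (Or.inr rfl) fun y y' F r1 r2 =>
    farXA_cert (s1 := false) (s2 := false) rfl hκ (ka0 hκ hx hx') (xa0 hx) hx' (covF40 hx hx') (covF52 hx hx') (x1 hx) (x2 hx')
        Pool.Agent.Strip051.G.IE1.Tab.C.FA45.c_mm_022 noCut_VA noExt_VA F r1 r2 r1 r2

theorem FA45_mm_023 {κ x : ℝ} (hκ : κ * h0 = kenE x) (hx : 39 / 40 ≤ x) (hx' : x < 1) :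
    TriA (DD x).cur (farD κ (h0 * x) (tbl tKF x) (tbl tL x)) 0 2 3 4 5 (-1) (-1) :=
  (sideF hx hx').farA (Or.inr rfl) (Or.inr rfl) fun y y' F r1 r2 =>
    farXA_cert (s1 := false) (s2 := false) rfl hκ (ka0 hκ hx hx') (xa0 hx) hx' (covF40 hx hx') (covF52 hx hx') (x1 hx) (x2 hx')
        Pool.Agent.Strip051.G.IE1.Tab.C.FA45.c_mm_023 noCut_VA noExt_VA F r1 r2 r1 r2

theorem FA45_mm_033 {κ x : ℝ} (hκ : κ * h0 = kenE x) (hx : 39 / 40 ≤ x) (hx' : x < 1) :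
    TriA (DD x).cur (farD κ (h0 * x) (tbl tKF x) (tbl tL x)) 0 3 3 4 5 (-1) (-1) :=
  (sideF hx hx').farA (Or.inr rfl) (Or.inr rfl) fun y y' F r1 r2 =>
    farXA_cert (s1 := false) (s2 := false) rfl hκ (ka0 hκ hx hx') (xa0 hx) hx' (covF40 hx hx') (covF53 hx hx') (x1 hx) (x2 hx')
        Pool.Agent.Strip051.G.IE1.Tab.C.FA45.c_mm_033 noCut_VA noExt_VA F r1 r2 r1 r2

theorem FA45_mm_101 {κ x : ℝ} (hκ : κ * h0 = kenE x) (hx : 39 / 40 ≤ x) (hx' : x < 1) :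
    TriA (DD x).cur (farD κ (h0 * x) (tbl tKF x) (tbl tL x)) 1 0 1 4 5 (-1) (-1) :=
  triVA_j nr4_1

theorem FA45_mm_102 {κ x : ℝ} (hκ : κ * h0 = kenE x) (hx : 39 / 40 ≤ x) (hx' : x < 1) :
    TriA (DD x).cur (farD κ (h0 * x) (tbl tKF x) (tbl tL x)) 1 0 2 4 5 (-1) (-1) :=
  triVA_j nr4_1

theorem FA45_mm_112 {κ x : ℝ} (hκ : κ * h0 = kenE x) (hx : 39 / 40 ≤ x) (hx' : x < 1) :
    TriA (DD x).cur (farD κ (h0 * x) (tbl tKF x) (tbl tL x)) 1 1 2 4 5 (-1) (-1) :=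
  triVA_j nr4_1

theorem FA45_mm_113 {κ x : ℝ} (hκ : κ * h0 = kenE x) (hx : 39 / 40 ≤ x) (hx' : x < 1) :
    TriA (DD x).cur (farD κ (h0 * x) (tbl tKF x) (tbl tL x)) 1 1 3 4 5 (-1) (-1) :=
  triVA_j nr4_1

theorem FA45_mm_123 {κ x : ℝ} (hκ : κ * h0 = kenE x) (hx : 39 / 40 ≤ x) (hx' : x < 1) :
    TriA (DD x).cur (farD κ (h0 * x) (tbl tKF x) (tbl tL x)) 1 2 3 4 5 (-1) (-1) :=
  triVA_j nr4_1

theorem FA45_mm_133 {κ x : ℝ} (hκ : κ * h0 = kenE x) (hx : 39 / 40 ≤ x) (hx' : x < 1) :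
    TriA (DD x).cur (farD κ (h0 * x) (tbl tKF x) (tbl tL x)) 1 3 3 4 5 (-1) (-1) :=
  triVA_j nr4_1

theorem FA45_mm_202 {κ x : ℝ} (hκ : κ * h0 = kenE x) (hx : 39 / 40 ≤ x) (hx' : x < 1) :
    TriA (DD x).cur (farD κ (h0 * x) (tbl tKF x) (tbl tL x)) 2 0 2 4 5 (-1) (-1) :=
  triVA_j nr4_2

theorem FA45_mm_203 {κ x : ℝ} (hκ : κ * h0 = kenE x) (hx : 39 / 40 ≤ x) (hx' : x < 1) :
    TriA (DD x).cur (farD κ (h0 * x) (tbl tKF x) (tbl tL x)) 2 0 3 4 5 (-1) (-1) :=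
  triVA_j nr4_2

theorem FA45_mm_213 {κ x : ℝ} (hκ : κ * h0 = kenE x) (hx : 39 / 40 ≤ x) (hx' : x < 1) :
    TriA (DD x).cur (farD κ (h0 * x) (tbl tKF x) (tbl tL x)) 2 1 3 4 5 (-1) (-1) :=
  triVA_j nr4_2

theorem FA45_mm_303 {κ x : ℝ} (hκ : κ * h0 = kenE x) (hx : 39 / 40 ≤ x) (hx' : x < 1) :
    TriA (DD x).cur (farD κ (h0 * x) (tbl tKF x) (tbl tL x)) 3 0 3 4 5 (-1) (-1) :=
  triVA_j nr4_3

theorem FA45_mm_313 {κ x : ℝ} (hκ : κ * h0 = kenE x) (hx : 39 / 40 ≤ x) (hx' : x < 1) :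
    TriA (DD x).cur (farD κ (h0 * x) (tbl tKF x) (tbl tL x)) 3 1 3 4 5 (-1) (-1) :=
  triVA_j nr4_3

theorem FA45 {κ x : ℝ} (hκ : κ * h0 = kenE x) (hx : 39 / 40 ≤ x) (hx' : x < 1) : AllTA (DD x).cur (farD κ (h0 * x) (tbl tKF x) (tbl tL x)) 4 5 where
  pp := all17 (Q := fun a b c => TriA (DD x).cur (farD κ (h0 * x) (tbl tKF x) (tbl tL x)) a b c 4 5 1 1)
    (FA45_pp_001 hκ hx hx') (FA45_pp_011 hκ hx hx') (FA45_pp_012 hκ hx hx') (FA45_pp_022 hκ hx hx') (FA45_pp_023 hκ hx hx') (FA45_pp_033 hκ hx hx') (FA45_pp_101 hκ hx hx') (FA45_pp_102 hκ hx hx') (FA45_pp_112 hκ hx hx') (FA45_pp_113 hκ hx hx') (FA45_pp_123 hκ hx hx') (FA45_pp_133 hκ hx hx') (FA45_pp_202 hκ hx hx') (FA45_pp_203 hκ hx hx') (FA45_pp_213 hκ hx hx') (FA45_pp_303 hκ hx hx') (FA45_pp_313 hκ hx hx')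
  pm := all17 (Q := fun a b c => TriA (DD x).cur (farD κ (h0 * x) (tbl tKF x) (tbl tL x)) a b c 4 5 1 (-1))
    (FA45_pm_001 hκ hx hx') (FA45_pm_011 hκ hx hx') (FA45_pm_012 hκ hx hx') (FA45_pm_022 hκ hx hx') (FA45_pm_023 hκ hx hx') (FA45_pm_033 hκ hx hx') (FA45_pm_101 hκ hx hx') (FA45_pm_102 hκ hx hx') (FA45_pm_112 hκ hx hx') (FA45_pm_113 hκ hx hx') (FA45_pm_123 hκ hx hx') (FA45_pm_133 hκ hx hx') (FA45_pm_202 hκ hx hx') (FA45_pm_203 hκ hx hx') (FA45_pm_213 hκ hx hx') (FA45_pm_303 hκ hx hx') (FA45_pm_313 hκ hx hx')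
  mm := all17 (Q := fun a b c => TriA (DD x).cur (farD κ (h0 * x) (tbl tKF x) (tbl tL x)) a b c 4 5 (-1) (-1))
    (FA45_mm_001 hκ hx hx') (FA45_mm_011 hκ hx hx') (FA45_mm_012 hκ hx hx') (FA45_mm_022 hκ hx hx') (FA45_mm_023 hκ hx hx') (FA45_mm_033 hκ hx hx') (FA45_mm_101 hκ hx hx') (FA45_mm_102 hκ hx hx') (FA45_mm_112 hκ hx hx') (FA45_mm_113 hκ hx hx') (FA45_mm_123 hκ hx hx') (FA45_mm_133 hκ hx hx') (FA45_mm_202 hκ hx hx') (FA45_mm_203 hκ hx hx') (FA45_mm_213 hκ hx hx') (FA45_mm_303 hκ hx hx') (FA45_mm_313 hκ hx hx')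

theorem FA46_pp_001 {κ x : ℝ} (hκ : κ * h0 = kenE x) (hx : 39 / 40 ≤ x) (hx' : x < 1) :
    TriA (DD x).cur (farD κ (h0 * x) (tbl tKF x) (tbl tL x)) 0 0 1 4 6 1 1 :=
  (sideF hx hx').farA (Or.inl rfl) (Or.inl rfl) fun y y' F r1 r2 =>
    farXA_cert (s1 := true) (s2 := true) rfl hκ (ka0 hκ hx hx') (xa0 hx) hx' (covF40 hx hx') (covF60 hx hx') (x1 hx) (x2 hx')
        Pool.Agent.Strip051.G.IE1.Tab.C.FA46.c_pp_001 noCut_VA noExt_VA F r1 r2 r1 r2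

theorem FA46_pp_011 {κ x : ℝ} (hκ : κ * h0 = kenE x) (hx : 39 / 40 ≤ x) (hx' : x < 1) :
    TriA (DD x).cur (farD κ (h0 * x) (tbl tKF x) (tbl tL x)) 0 1 1 4 6 1 1 :=
  (sideF hx hx').farA (Or.inl rfl) (Or.inl rfl) fun y y' F r1 r2 =>
    farXA_cert (s1 := true) (s2 := true) rfl hκ (ka0 hκ hx hx') (xa0 hx) hx' (covF40 hx hx') (covF61 hx hx') (x1 hx) (x2 hx')
        Pool.Agent.Strip051.G.IE1.Tab.C.FA46.c_pp_011 noCut_VA noExt_VA F r1 r2 r1 r2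

theorem FA46_pp_012 {κ x : ℝ} (hκ : κ * h0 = kenE x) (hx : 39 / 40 ≤ x) (hx' : x < 1) :
    TriA (DD x).cur (farD κ (h0 * x) (tbl tKF x) (tbl tL x)) 0 1 2 4 6 1 1 :=
  (sideF hx hx').farA (Or.inl rfl) (Or.inl rfl) fun y y' F r1 r2 =>
    farXA_cert (s1 := true) (s2 := true) rfl hκ (ka0 hκ hx hx') (xa0 hx) hx' (covF40 hx hx') (covF61 hx hx') (x1 hx) (x2 hx')
        Pool.Agent.Strip051.G.IE1.Tab.C.FA46.c_pp_012 noCut_VA noExt_VA F r1 r2 r1 r2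

theorem FA46_pp_022 {κ x : ℝ} (hκ : κ * h0 = kenE x) (hx : 39 / 40 ≤ x) (hx' : x < 1) :
    TriA (DD x).cur (farD κ (h0 * x) (tbl tKF x) (tbl tL x)) 0 2 2 4 6 1 1 :=
  (sideF hx hx').farA (Or.inl rfl) (Or.inl rfl) fun y y' F r1 r2 =>
    farXA_cert (s1 := true) (s2 := true) rfl hκ (ka0 hκ hx hx') (xa0 hx) hx' (covF40 hx hx') (covF62 hx hx') (x1 hx) (x2 hx')
        Pool.Agent.Strip051.G.IE1.Tab.C.FA46.c_pp_022 noCut_VA noExt_VA F r1 r2 r1 r2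

theorem FA46_pp_023 {κ x : ℝ} (hκ : κ * h0 = kenE x) (hx : 39 / 40 ≤ x) (hx' : x < 1) :
    TriA (DD x).cur (farD κ (h0 * x) (tbl tKF x) (tbl tL x)) 0 2 3 4 6 1 1 :=
  (sideF hx hx').farA (Or.inl rfl) (Or.inl rfl) fun y y' F r1 r2 =>
    farXA_cert (s1 := true) (s2 := true) rfl hκ (ka0 hκ hx hx') (xa0 hx) hx' (covF40 hx hx') (covF62 hx hx') (x1 hx) (x2 hx')
        Pool.Agent.Strip051.G.IE1.Tab.C.FA46.c_pp_023 noCut_VA noExt_VA F r1 r2 r1 r2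

theorem FA46_pp_033 {κ x : ℝ} (hκ : κ * h0 = kenE x) (hx : 39 / 40 ≤ x) (hx' : x < 1) :
    TriA (DD x).cur (farD κ (h0 * x) (tbl tKF x) (tbl tL x)) 0 3 3 4 6 1 1 :=
  (sideF hx hx').farA (Or.inl rfl) (Or.inl rfl) fun y y' F r1 r2 =>
    farXA_cert (s1 := true) (s2 := true) rfl hκ (ka0 hκ hx hx') (xa0 hx) hx' (covF40 hx hx') (covF63 hx hx') (x1 hx) (x2 hx')
        Pool.Agent.Strip051.G.IE1.Tab.C.FA46.c_pp_033 noCut_VA noExt_VA F r1 r2 r1 r2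

theorem FA46_pp_101 {κ x : ℝ} (hκ : κ * h0 = kenE x) (hx : 39 / 40 ≤ x) (hx' : x < 1) :
    TriA (DD x).cur (farD κ (h0 * x) (tbl tKF x) (tbl tL x)) 1 0 1 4 6 1 1 :=
  triVA_j nr4_1

theorem FA46_pp_102 {κ x : ℝ} (hκ : κ * h0 = kenE x) (hx : 39 / 40 ≤ x) (hx' : x < 1) :
    TriA (DD x).cur (farD κ (h0 * x) (tbl tKF x) (tbl tL x)) 1 0 2 4 6 1 1 :=
  triVA_j nr4_1

theorem FA46_pp_112 {κ x : ℝ} (hκ : κ * h0 = kenE x) (hx : 39 / 40 ≤ x) (hx' : x < 1) :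
    TriA (DD x).cur (farD κ (h0 * x) (tbl tKF x) (tbl tL x)) 1 1 2 4 6 1 1 :=
  triVA_j nr4_1

theorem FA46_pp_113 {κ x : ℝ} (hκ : κ * h0 = kenE x) (hx : 39 / 40 ≤ x) (hx' : x < 1) :
    TriA (DD x).cur (farD κ (h0 * x) (tbl tKF x) (tbl tL x)) 1 1 3 4 6 1 1 :=
  triVA_j nr4_1

theorem FA46_pp_123 {κ x : ℝ} (hκ : κ * h0 = kenE x) (hx : 39 / 40 ≤ x) (hx' : x < 1) :
    TriA (DD x).cur (farD κ (h0 * x) (tbl tKF x) (tbl tL x)) 1 2 3 4 6 1 1 :=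
  triVA_j nr4_1

theorem FA46_pp_133 {κ x : ℝ} (hκ : κ * h0 = kenE x) (hx : 39 / 40 ≤ x) (hx' : x < 1) :
    TriA (DD x).cur (farD κ (h0 * x) (tbl tKF x) (tbl tL x)) 1 3 3 4 6 1 1 :=
  triVA_j nr4_1

theorem FA46_pp_202 {κ x : ℝ} (hκ : κ * h0 = kenE x) (hx : 39 / 40 ≤ x) (hx' : x < 1) :
    TriA (DD x).cur (farD κ (h0 * x) (tbl tKF x) (tbl tL x)) 2 0 2 4 6 1 1 :=
  triVA_j nr4_2

theorem FA46_pp_203 {κ x : ℝ} (hκ : κ * h0 = kenE x) (hx : 39 / 40 ≤ x) (hx' : x < 1) :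
    TriA (DD x).cur (farD κ (h0 * x) (tbl tKF x) (tbl tL x)) 2 0 3 4 6 1 1 :=
  triVA_j nr4_2

theorem FA46_pp_213 {κ x : ℝ} (hκ : κ * h0 = kenE x) (hx : 39 / 40 ≤ x) (hx' : x < 1) :
    TriA (DD x).cur (farD κ (h0 * x) (tbl tKF x) (tbl tL x)) 2 1 3 4 6 1 1 :=
  triVA_j nr4_2

theorem FA46_pp_303 {κ x : ℝ} (hκ : κ * h0 = kenE x) (hx : 39 / 40 ≤ x) (hx' : x < 1) :
    TriA (DD x).cur (farD κ (h0 * x) (tbl tKF x) (tbl tL x)) 3 0 3 4 6 1 1 :=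
  triVA_j nr4_3

theorem FA46_pp_313 {κ x : ℝ} (hκ : κ * h0 = kenE x) (hx : 39 / 40 ≤ x) (hx' : x < 1) :
    TriA (DD x).cur (farD κ (h0 * x) (tbl tKF x) (tbl tL x)) 3 1 3 4 6 1 1 :=
  triVA_j nr4_3

theorem FA46_pm_001 {κ x : ℝ} (hκ : κ * h0 = kenE x) (hx : 39 / 40 ≤ x) (hx' : x < 1) :
    TriA (DD x).cur (farD κ (h0 * x) (tbl tKF x) (tbl tL x)) 0 0 1 4 6 1 (-1) :=
  (sideF hx hx').farA (Or.inl rfl) (Or.inr rfl) fun y y' F r1 r2 =>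
    farXA_cert (s1 := true) (s2 := false) rfl hκ (ka0 hκ hx hx') (xa0 hx) hx' (covF40 hx hx') (covF60 hx hx') (x1 hx) (x2 hx')
        Pool.Agent.Strip051.G.IE1.Tab.C.FA46.c_pm_001 noCut_VA noExt_VA F r1 r2 r1 r2

theorem FA46_pm_011 {κ x : ℝ} (hκ : κ * h0 = kenE x) (hx : 39 / 40 ≤ x) (hx' : x < 1) :
    TriA (DD x).cur (farD κ (h0 * x) (tbl tKF x) (tbl tL x)) 0 1 1 4 6 1 (-1) :=
  (sideF hx hx').farA (Or.inl rfl) (Or.inr rfl) fun y y' F r1 r2 =>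
    farXA_cert (s1 := true) (s2 := false) rfl hκ (ka0 hκ hx hx') (xa0 hx) hx' (covF40 hx hx') (covF61 hx hx') (x1 hx) (x2 hx')
        Pool.Agent.Strip051.G.IE1.Tab.C.FA46.c_pm_011 noCut_VA noExt_VA F r1 r2 r1 r2

theorem FA46_pm_012 {κ x : ℝ} (hκ : κ * h0 = kenE x) (hx : 39 / 40 ≤ x) (hx' : x < 1) :
    TriA (DD x).cur (farD κ (h0 * x) (tbl tKF x) (tbl tL x)) 0 1 2 4 6 1 (-1) :=
  (sideF hx hx').farA (Or.inl rfl) (Or.inr rfl) fun y y' F r1 r2 =>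
    farXA_cert (s1 := true) (s2 := false) rfl hκ (ka0 hκ hx hx') (xa0 hx) hx' (covF40 hx hx') (covF61 hx hx') (x1 hx) (x2 hx')
        Pool.Agent.Strip051.G.IE1.Tab.C.FA46.c_pm_012 noCut_VA noExt_VA F r1 r2 r1 r2

theorem FA46_pm_022 {κ x : ℝ} (hκ : κ * h0 = kenE x) (hx : 39 / 40 ≤ x) (hx' : x < 1) :
    TriA (DD x).cur (farD κ (h0 * x) (tbl tKF x) (tbl tL x)) 0 2 2 4 6 1 (-1) :=
  (sideF hx hx').farA (Or.inl rfl) (Or.inr rfl) fun y y' F r1 r2 =>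
    farXA_cert (s1 := true) (s2 := false) rfl hκ (ka0 hκ hx hx') (xa0 hx) hx' (covF40 hx hx') (covF62 hx hx') (x1 hx) (x2 hx')
        Pool.Agent.Strip051.G.IE1.Tab.C.FA46.c_pm_022 noCut_VA noExt_VA F r1 r2 r1 r2

theorem FA46_pm_023 {κ x : ℝ} (hκ : κ * h0 = kenE x) (hx : 39 / 40 ≤ x) (hx' : x < 1) :
    TriA (DD x).cur (farD κ (h0 * x) (tbl tKF x) (tbl tL x)) 0 2 3 4 6 1 (-1) :=
  (sideF hx hx').farA (Or.inl rfl) (Or.inr rfl) fun y y' F r1 r2 =>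
    farXA_cert (s1 := true) (s2 := false) rfl hκ (ka0 hκ hx hx') (xa0 hx) hx' (covF40 hx hx') (covF62 hx hx') (x1 hx) (x2 hx')
        Pool.Agent.Strip051.G.IE1.Tab.C.FA46.c_pm_023 noCut_VA noExt_VA F r1 r2 r1 r2

theorem FA46_pm_033 {κ x : ℝ} (hκ : κ * h0 = kenE x) (hx : 39 / 40 ≤ x) (hx' : x < 1) :
    TriA (DD x).cur (farD κ (h0 * x) (tbl tKF x) (tbl tL x)) 0 3 3 4 6 1 (-1) :=
  (sideF hx hx').farA (Or.inl rfl) (Or.inr rfl) fun y y' F r1 r2 =>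
    farXA_cert (s1 := true) (s2 := false) rfl hκ (ka0 hκ hx hx') (xa0 hx) hx' (covF40 hx hx') (covF63 hx hx') (x1 hx) (x2 hx')
        Pool.Agent.Strip051.G.IE1.Tab.C.FA46.c_pm_033 noCut_VA noExt_VA F r1 r2 r1 r2

theorem FA46_pm_101 {κ x : ℝ} (hκ : κ * h0 = kenE x) (hx : 39 / 40 ≤ x) (hx' : x < 1) :
    TriA (DD x).cur (farD κ (h0 * x) (tbl tKF x) (tbl tL x)) 1 0 1 4 6 1 (-1) :=
  triVA_j nr4_1

theorem FA46_pm_102 {κ x : ℝ} (hκ : κ * h0 = kenE x) (hx : 39 / 40 ≤ x) (hx' : x < 1) :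
    TriA (DD x).cur (farD κ (h0 * x) (tbl tKF x) (tbl tL x)) 1 0 2 4 6 1 (-1) :=
  triVA_j nr4_1

theorem FA46_pm_112 {κ x : ℝ} (hκ : κ * h0 = kenE x) (hx : 39 / 40 ≤ x) (hx' : x < 1) :
    TriA (DD x).cur (farD κ (h0 * x) (tbl tKF x) (tbl tL x)) 1 1 2 4 6 1 (-1) :=
  triVA_j nr4_1

theorem FA46_pm_113 {κ x : ℝ} (hκ : κ * h0 = kenE x) (hx : 39 / 40 ≤ x) (hx' : x < 1) :
    TriA (DD x).cur (farD κ (h0 * x) (tbl tKF x) (tbl tL x)) 1 1 3 4 6 1 (-1) :=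
  triVA_j nr4_1

theorem FA46_pm_123 {κ x : ℝ} (hκ : κ * h0 = kenE x) (hx : 39 / 40 ≤ x) (hx' : x < 1) :
    TriA (DD x).cur (farD κ (h0 * x) (tbl tKF x) (tbl tL x)) 1 2 3 4 6 1 (-1) :=
  triVA_j nr4_1

theorem FA46_pm_133 {κ x : ℝ} (hκ : κ * h0 = kenE x) (hx : 39 / 40 ≤ x) (hx' : x < 1) :
    TriA (DD x).cur (farD κ (h0 * x) (tbl tKF x) (tbl tL x)) 1 3 3 4 6 1 (-1) :=
  triVA_j nr4_1

theorem FA46_pm_202 {κ x : ℝ} (hκ : κ * h0 = kenE x) (hx : 39 / 40 ≤ x) (hx' : x < 1) :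
    TriA (DD x).cur (farD κ (h0 * x) (tbl tKF x) (tbl tL x)) 2 0 2 4 6 1 (-1) :=
  triVA_j nr4_2

theorem FA46_pm_203 {κ x : ℝ} (hκ : κ * h0 = kenE x) (hx : 39 / 40 ≤ x) (hx' : x < 1) :
    TriA (DD x).cur (farD κ (h0 * x) (tbl tKF x) (tbl tL x)) 2 0 3 4 6 1 (-1) :=
  triVA_j nr4_2

theorem FA46_pm_213 {κ x : ℝ} (hκ : κ * h0 = kenE x) (hx : 39 / 40 ≤ x) (hx' : x < 1) :
    TriA (DD x).cur (farD κ (h0 * x) (tbl tKF x) (tbl tL x)) 2 1 3 4 6 1 (-1) :=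
  triVA_j nr4_2

theorem FA46_pm_303 {κ x : ℝ} (hκ : κ * h0 = kenE x) (hx : 39 / 40 ≤ x) (hx' : x < 1) :
    TriA (DD x).cur (farD κ (h0 * x) (tbl tKF x) (tbl tL x)) 3 0 3 4 6 1 (-1) :=
  triVA_j nr4_3

theorem FA46_pm_313 {κ x : ℝ} (hκ : κ * h0 = kenE x) (hx : 39 / 40 ≤ x) (hx' : x < 1) :
    TriA (DD x).cur (farD κ (h0 * x) (tbl tKF x) (tbl tL x)) 3 1 3 4 6 1 (-1) :=
  triVA_j nr4_3

theorem FA46_mm_001 {κ x : ℝ} (hκ : κ * h0 = kenE x) (hx : 39 / 40 ≤ x) (hx' : x < 1) :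
    TriA (DD x).cur (farD κ (h0 * x) (tbl tKF x) (tbl tL x)) 0 0 1 4 6 (-1) (-1) :=
  (sideF hx hx').farA (Or.inr rfl) (Or.inr rfl) fun y y' F r1 r2 =>
    farXA_cert (s1 := false) (s2 := false) rfl hκ (ka0 hκ hx hx') (xa0 hx) hx' (covF40 hx hx') (covF60 hx hx') (x1 hx) (x2 hx')
        Pool.Agent.Strip051.G.IE1.Tab.C.FA46.c_mm_001 noCut_VA noExt_VA F r1 r2 r1 r2

theorem FA46_mm_011 {κ x : ℝ} (hκ : κ * h0 = kenE x) (hx : 39 / 40 ≤ x) (hx' : x < 1) :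
    TriA (DD x).cur (farD κ (h0 * x) (tbl tKF x) (tbl tL x)) 0 1 1 4 6 (-1) (-1) :=
  (sideF hx hx').farA (Or.inr rfl) (Or.inr rfl) fun y y' F r1 r2 =>
    farXA_cert (s1 := false) (s2 := false) rfl hκ (ka0 hκ hx hx') (xa0 hx) hx' (covF40 hx hx') (covF61 hx hx') (x1 hx) (x2 hx')
        Pool.Agent.Strip051.G.IE1.Tab.C.FA46.c_mm_011 noCut_VA noExt_VA F r1 r2 r1 r2

theorem FA46_mm_012 {κ x : ℝ} (hκ : κ * h0 = kenE x) (hx : 39 / 40 ≤ x) (hx' : x < 1) :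
    TriA (DD x).cur (farD κ (h0 * x) (tbl tKF x) (tbl tL x)) 0 1 2 4 6 (-1) (-1) :=
  (sideF hx hx').farA (Or.inr rfl) (Or.inr rfl) fun y y' F r1 r2 =>
    farXA_cert (s1 := false) (s2 := false) rfl hκ (ka0 hκ hx hx') (xa0 hx) hx' (covF40 hx hx') (covF61 hx hx') (x1 hx) (x2 hx')
        Pool.Agent.Strip051.G.IE1.Tab.C.FA46.c_mm_012 noCut_VA noExt_VA F r1 r2 r1 r2

theorem FA46_mm_022 {κ x : ℝ} (hκ : κ * h0 = kenE x) (hx : 39 / 40 ≤ x) (hx' : x < 1) :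
    TriA (DD x).cur (farD κ (h0 * x) (tbl tKF x) (tbl tL x)) 0 2 2 4 6 (-1) (-1) :=
  (sideF hx hx').farA (Or.inr rfl) (Or.inr rfl) fun y y' F r1 r2 =>
    farXA_cert (s1 := false) (s2 := false) rfl hκ (ka0 hκ hx hx') (xa0 hx) hx' (covF40 hx hx') (covF62 hx hx') (x1 hx) (x2 hx')
        Pool.Agent.Strip051.G.IE1.Tab.C.FA46.c_mm_022 noCut_VA noExt_VA F r1 r2 r1 r2

theorem FA46_mm_023 {κ x : ℝ} (hκ : κ * h0 = kenE x) (hx : 39 / 40 ≤ x) (hx' : x < 1) :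
    TriA (DD x).cur (farD κ (h0 * x) (tbl tKF x) (tbl tL x)) 0 2 3 4 6 (-1) (-1) :=
  (sideF hx hx').farA (Or.inr rfl) (Or.inr rfl) fun y y' F r1 r2 =>
    farXA_cert (s1 := false) (s2 := false) rfl hκ (ka0 hκ hx hx') (xa0 hx) hx' (covF40 hx hx') (covF62 hx hx') (x1 hx) (x2 hx')
        Pool.Agent.Strip051.G.IE1.Tab.C.FA46.c_mm_023 noCut_VA noExt_VA F r1 r2 r1 r2

theorem FA46_mm_033 {κ x : ℝ} (hκ : κ * h0 = kenE x) (hx : 39 / 40 ≤ x) (hx' : x < 1) :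
    TriA (DD x).cur (farD κ (h0 * x) (tbl tKF x) (tbl tL x)) 0 3 3 4 6 (-1) (-1) :=
  (sideF hx hx').farA (Or.inr rfl) (Or.inr rfl) fun y y' F r1 r2 =>
    farXA_cert (s1 := false) (s2 := false) rfl hκ (ka0 hκ hx hx') (xa0 hx) hx' (covF40 hx hx') (covF63 hx hx') (x1 hx) (x2 hx')
        Pool.Agent.Strip051.G.IE1.Tab.C.FA46.c_mm_033 noCut_VA noExt_VA F r1 r2 r1 r2

theorem FA46_mm_101 {κ x : ℝ} (hκ : κ * h0 = kenE x) (hx : 39 / 40 ≤ x) (hx' : x < 1) :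
    TriA (DD x).cur (farD κ (h0 * x) (tbl tKF x) (tbl tL x)) 1 0 1 4 6 (-1) (-1) :=
  triVA_j nr4_1

theorem FA46_mm_102 {κ x : ℝ} (hκ : κ * h0 = kenE x) (hx : 39 / 40 ≤ x) (hx' : x < 1) :
    TriA (DD x).cur (farD κ (h0 * x) (tbl tKF x) (tbl tL x)) 1 0 2 4 6 (-1) (-1) :=
  triVA_j nr4_1

theorem FA46_mm_112 {κ x : ℝ} (hκ : κ * h0 = kenE x) (hx : 39 / 40 ≤ x) (hx' : x < 1) :
    TriA (DD x).cur (farD κ (h0 * x) (tbl tKF x) (tbl tL x)) 1 1 2 4 6 (-1) (-1) :=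
  triVA_j nr4_1

theorem FA46_mm_113 {κ x : ℝ} (hκ : κ * h0 = kenE x) (hx : 39 / 40 ≤ x) (hx' : x < 1) :
    TriA (DD x).cur (farD κ (h0 * x) (tbl tKF x) (tbl tL x)) 1 1 3 4 6 (-1) (-1) :=
  triVA_j nr4_1

theorem FA46_mm_123 {κ x : ℝ} (hκ : κ * h0 = kenE x) (hx : 39 / 40 ≤ x) (hx' : x < 1) :
    TriA (DD x).cur (farD κ (h0 * x) (tbl tKF x) (tbl tL x)) 1 2 3 4 6 (-1) (-1) :=
  triVA_j nr4_1

theorem FA46_mm_133 {κ x : ℝ} (hκ : κ * h0 = kenE x) (hx : 39 / 40 ≤ x) (hx' : x < 1) :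
    TriA (DD x).cur (farD κ (h0 * x) (tbl tKF x) (tbl tL x)) 1 3 3 4 6 (-1) (-1) :=
  triVA_j nr4_1

theorem FA46_mm_202 {κ x : ℝ} (hκ : κ * h0 = kenE x) (hx : 39 / 40 ≤ x) (hx' : x < 1) :
    TriA (DD x).cur (farD κ (h0 * x) (tbl tKF x) (tbl tL x)) 2 0 2 4 6 (-1) (-1) :=
  triVA_j nr4_2

theorem FA46_mm_203 {κ x : ℝ} (hκ : κ * h0 = kenE x) (hx : 39 / 40 ≤ x) (hx' : x < 1) :
    TriA (DD x).cur (farD κ (h0 * x) (tbl tKF x) (tbl tL x)) 2 0 3 4 6 (-1) (-1) :=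
  triVA_j nr4_2

theorem FA46_mm_213 {κ x : ℝ} (hκ : κ * h0 = kenE x) (hx : 39 / 40 ≤ x) (hx' : x < 1) :
    TriA (DD x).cur (farD κ (h0 * x) (tbl tKF x) (tbl tL x)) 2 1 3 4 6 (-1) (-1) :=
  triVA_j nr4_2

theorem FA46_mm_303 {κ x : ℝ} (hκ : κ * h0 = kenE x) (hx : 39 / 40 ≤ x) (hx' : x < 1) :
    TriA (DD x).cur (farD κ (h0 * x) (tbl tKF x) (tbl tL x)) 3 0 3 4 6 (-1) (-1) :=
  triVA_j nr4_3

theorem FA46_mm_313 {κ x : ℝ} (hκ : κ * h0 = kenE x) (hx : 39 / 40 ≤ x) (hx' : x < 1) :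
    TriA (DD x).cur (farD κ (h0 * x) (tbl tKF x) (tbl tL x)) 3 1 3 4 6 (-1) (-1) :=
  triVA_j nr4_3

theorem FA46 {κ x : ℝ} (hκ : κ * h0 = kenE x) (hx : 39 / 40 ≤ x) (hx' : x < 1) : AllTA (DD x).cur (farD κ (h0 * x) (tbl tKF x) (tbl tL x)) 4 6 where
  pp := all17 (Q := fun a b c => TriA (DD x).cur (farD κ (h0 * x) (tbl tKF x) (tbl tL x)) a b c 4 6 1 1)
    (FA46_pp_001 hκ hx hx') (FA46_pp_011 hκ hx hx') (FA46_pp_012 hκ hx hx') (FA46_pp_022 hκ hx hx') (FA46_pp_023 hκ hx hx') (FA46_pp_033 hκ hx hx') (FA46_pp_101 hκ hx hx') (FA46_pp_102 hκ hx hx') (FA46_pp_112 hκ hx hx') (FA46_pp_113 hκ hx hx') (FA46_pp_123 hκ hx hx') (FA46_pp_133 hκ hx hx') (FA46_pp_202 hκ hx hx') (FA46_pp_203 hκ hx hx') (FA46_pp_213 hκ hx hx') (FA46_pp_303 hκ hx hx') (FA46_pp_313 hκ hx hx')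
  pm := all17 (Q := fun a b c => TriA (DD x).cur (farD κ (h0 * x) (tbl tKF x) (tbl tL x)) a b c 4 6 1 (-1))
    (FA46_pm_001 hκ hx hx') (FA46_pm_011 hκ hx hx') (FA46_pm_012 hκ hx hx') (FA46_pm_022 hκ hx hx') (FA46_pm_023 hκ hx hx') (FA46_pm_033 hκ hx hx') (FA46_pm_101 hκ hx hx') (FA46_pm_102 hκ hx hx') (FA46_pm_112 hκ hx hx') (FA46_pm_113 hκ hx hx') (FA46_pm_123 hκ hx hx') (FA46_pm_133 hκ hx hx') (FA46_pm_202 hκ hx hx') (FA46_pm_203 hκ hx hx') (FA46_pm_213 hκ hx hx') (FA46_pm_303 hκ hx hx') (FA46_pm_313 hκ hx hx')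
  mm := all17 (Q := fun a b c => TriA (DD x).cur (farD κ (h0 * x) (tbl tKF x) (tbl tL x)) a b c 4 6 (-1) (-1))
    (FA46_mm_001 hκ hx hx') (FA46_mm_011 hκ hx hx') (FA46_mm_012 hκ hx hx') (FA46_mm_022 hκ hx hx') (FA46_mm_023 hκ hx hx') (FA46_mm_033 hκ hx hx') (FA46_mm_101 hκ hx hx') (FA46_mm_102 hκ hx hx') (FA46_mm_112 hκ hx hx') (FA46_mm_113 hκ hx hx') (FA46_mm_123 hκ hx hx') (FA46_mm_133 hκ hx hx') (FA46_mm_202 hκ hx hx') (FA46_mm_203 hκ hx hx') (FA46_mm_213 hκ hx hx') (FA46_mm_303 hκ hx hx') (FA46_mm_313 hκ hx hx')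

theorem FA47_pp_001 {κ x : ℝ} (hκ : κ * h0 = kenE x) (hx : 39 / 40 ≤ x) (hx' : x < 1) :
    TriA (DD x).cur (farD κ (h0 * x) (tbl tKF x) (tbl tL x)) 0 0 1 4 7 1 1 :=
  (sideF hx hx').farA (Or.inl rfl) (Or.inl rfl) fun y y' F r1 r2 =>
    farXA_cert (s1 := true) (s2 := true) rfl hκ (ka0 hκ hx hx') (xa0 hx) hx' (covF40 hx hx') (covF70 hx hx') (x1 hx) (x2 hx')
        Pool.Agent.Strip051.G.IE1.Tab.C.FA47.c_pp_001 noCut_VA noExt_VA F r1 r2 r1 r2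

theorem FA47_pp_011 {κ x : ℝ} (hκ : κ * h0 = kenE x) (hx : 39 / 40 ≤ x) (hx' : x < 1) :
    TriA (DD x).cur (farD κ (h0 * x) (tbl tKF x) (tbl tL x)) 0 1 1 4 7 1 1 :=
  (sideF hx hx').farA (Or.inl rfl) (Or.inl rfl) fun y y' F r1 r2 =>
    farXA_cert (s1 := true) (s2 := true) rfl hκ (ka0 hκ hx hx') (xa0 hx) hx' (covF40 hx hx') (covF71 hx hx') (x1 hx) (x2 hx')
        Pool.Agent.Strip051.G.IE1.Tab.C.FA47.c_pp_011 noCut_VA noExt_VA F r1 r2 r1 r2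

theorem FA47_pp_012 {κ x : ℝ} (hκ : κ * h0 = kenE x) (hx : 39 / 40 ≤ x) (hx' : x < 1) :
    TriA (DD x).cur (farD κ (h0 * x) (tbl tKF x) (tbl tL x)) 0 1 2 4 7 1 1 :=
  (sideF hx hx').farA (Or.inl rfl) (Or.inl rfl) fun y y' F r1 r2 =>
    farXA_cert (s1 := true) (s2 := true) rfl hκ (ka0 hκ hx hx') (xa0 hx) hx' (covF40 hx hx') (covF71 hx hx') (x1 hx) (x2 hx')
        Pool.Agent.Strip051.G.IE1.Tab.C.FA47.c_pp_012 noCut_VA noExt_VA F r1 r2 r1 r2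

theorem FA47_pp_022 {κ x : ℝ} (hκ : κ * h0 = kenE x) (hx : 39 / 40 ≤ x) (hx' : x < 1) :
    TriA (DD x).cur (farD κ (h0 * x) (tbl tKF x) (tbl tL x)) 0 2 2 4 7 1 1 :=
  (sideF hx hx').farA (Or.inl rfl) (Or.inl rfl) fun y y' F r1 r2 =>
    farXA_cert (s1 := true) (s2 := true) rfl hκ (ka0 hκ hx hx') (xa0 hx) hx' (covF40 hx hx') (covF72 hx hx') (x1 hx) (x2 hx')
        Pool.Agent.Strip051.G.IE1.Tab.C.FA47.c_pp_022 noCut_VA noExt_VA F r1 r2 r1 r2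

theorem FA47_pp_023 {κ x : ℝ} (hκ : κ * h0 = kenE x) (hx : 39 / 40 ≤ x) (hx' : x < 1) :
    TriA (DD x).cur (farD κ (h0 * x) (tbl tKF x) (tbl tL x)) 0 2 3 4 7 1 1 :=
  (sideF hx hx').farA (Or.inl rfl) (Or.inl rfl) fun y y' F r1 r2 =>
    farXA_cert (s1 := true) (s2 := true) rfl hκ (ka0 hκ hx hx') (xa0 hx) hx' (covF40 hx hx') (covF72 hx hx') (x1 hx) (x2 hx')
        Pool.Agent.Strip051.G.IE1.Tab.C.FA47.c_pp_023 noCut_VA noExt_VA F r1 r2 r1 r2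

theorem FA47_pp_033 {κ x : ℝ} (hκ : κ * h0 = kenE x) (hx : 39 / 40 ≤ x) (hx' : x < 1) :
    TriA (DD x).cur (farD κ (h0 * x) (tbl tKF x) (tbl tL x)) 0 3 3 4 7 1 1 :=
  (sideF hx hx').farA (Or.inl rfl) (Or.inl rfl) fun y y' F r1 r2 =>
    farXA_cert (s1 := true) (s2 := true) rfl hκ (ka0 hκ hx hx') (xa0 hx) hx' (covF40 hx hx') (covF73 hx hx') (x1 hx) (x2 hx')
        Pool.Agent.Strip051.G.IE1.Tab.C.FA47.c_pp_033 noCut_VA noExt_VA F r1 r2 r1 r2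

theorem FA47_pp_101 {κ x : ℝ} (hκ : κ * h0 = kenE x) (hx : 39 / 40 ≤ x) (hx' : x < 1) :
    TriA (DD x).cur (farD κ (h0 * x) (tbl tKF x) (tbl tL x)) 1 0 1 4 7 1 1 :=
  triVA_j nr4_1

theorem FA47_pp_102 {κ x : ℝ} (hκ : κ * h0 = kenE x) (hx : 39 / 40 ≤ x) (hx' : x < 1) :
    TriA (DD x).cur (farD κ (h0 * x) (tbl tKF x) (tbl tL x)) 1 0 2 4 7 1 1 :=
  triVA_j nr4_1

theorem FA47_pp_112 {κ x : ℝ} (hκ : κ * h0 = kenE x) (hx : 39 / 40 ≤ x) (hx' : x < 1) :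
    TriA (DD x).cur (farD κ (h0 * x) (tbl tKF x) (tbl tL x)) 1 1 2 4 7 1 1 :=
  triVA_j nr4_1

theorem FA47_pp_113 {κ x : ℝ} (hκ : κ * h0 = kenE x) (hx : 39 / 40 ≤ x) (hx' : x < 1) :
    TriA (DD x).cur (farD κ (h0 * x) (tbl tKF x) (tbl tL x)) 1 1 3 4 7 1 1 :=
  triVA_j nr4_1

theorem FA47_pp_123 {κ x : ℝ} (hκ : κ * h0 = kenE x) (hx : 39 / 40 ≤ x) (hx' : x < 1) :
    TriA (DD x).cur (farD κ (h0 * x) (tbl tKF x) (tbl tL x)) 1 2 3 4 7 1 1 :=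
  triVA_j nr4_1

theorem FA47_pp_133 {κ x : ℝ} (hκ : κ * h0 = kenE x) (hx : 39 / 40 ≤ x) (hx' : x < 1) :
    TriA (DD x).cur (farD κ (h0 * x) (tbl tKF x) (tbl tL x)) 1 3 3 4 7 1 1 :=
  triVA_j nr4_1

theorem FA47_pp_202 {κ x : ℝ} (hκ : κ * h0 = kenE x) (hx : 39 / 40 ≤ x) (hx' : x < 1) :
    TriA (DD x).cur (farD κ (h0 * x) (tbl tKF x) (tbl tL x)) 2 0 2 4 7 1 1 :=
  triVA_j nr4_2

theorem FA47_pp_203 {κ x : ℝ} (hκ : κ * h0 = kenE x) (hx : 39 / 40 ≤ x) (hx' : x < 1) :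
    TriA (DD x).cur (farD κ (h0 * x) (tbl tKF x) (tbl tL x)) 2 0 3 4 7 1 1 :=
  triVA_j nr4_2

theorem FA47_pp_213 {κ x : ℝ} (hκ : κ * h0 = kenE x) (hx : 39 / 40 ≤ x) (hx' : x < 1) :
    TriA (DD x).cur (farD κ (h0 * x) (tbl tKF x) (tbl tL x)) 2 1 3 4 7 1 1 :=
  triVA_j nr4_2

theorem FA47_pp_303 {κ x : ℝ} (hκ : κ * h0 = kenE x) (hx : 39 / 40 ≤ x) (hx' : x < 1) :
    TriA (DD x).cur (farD κ (h0 * x) (tbl tKF x) (tbl tL x)) 3 0 3 4 7 1 1 :=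
  triVA_j nr4_3

theorem FA47_pp_313 {κ x : ℝ} (hκ : κ * h0 = kenE x) (hx : 39 / 40 ≤ x) (hx' : x < 1) :
    TriA (DD x).cur (farD κ (h0 * x) (tbl tKF x) (tbl tL x)) 3 1 3 4 7 1 1 :=
  triVA_j nr4_3

theorem FA47_pm_001 {κ x : ℝ} (hκ : κ * h0 = kenE x) (hx : 39 / 40 ≤ x) (hx' : x < 1) :
    TriA (DD x).cur (farD κ (h0 * x) (tbl tKF x) (tbl tL x)) 0 0 1 4 7 1 (-1) :=
  (sideF hx hx').farA (Or.inl rfl) (Or.inr rfl) fun y y' F r1 r2 =>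
    farXA_cert (s1 := true) (s2 := false) rfl hκ (ka0 hκ hx hx') (xa0 hx) hx' (covF40 hx hx') (covF70 hx hx') (x1 hx) (x2 hx')
        Pool.Agent.Strip051.G.IE1.Tab.C.FA47.c_pm_001 noCut_VA noExt_VA F r1 r2 r1 r2

theorem FA47_pm_011 {κ x : ℝ} (hκ : κ * h0 = kenE x) (hx : 39 / 40 ≤ x) (hx' : x < 1) :
    TriA (DD x).cur (farD κ (h0 * x) (tbl tKF x) (tbl tL x)) 0 1 1 4 7 1 (-1) :=
  (sideF hx hx').farA (Or.inl rfl) (Or.inr rfl) fun y y' F r1 r2 =>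
    farXA_cert (s1 := true) (s2 := false) rfl hκ (ka0 hκ hx hx') (xa0 hx) hx' (covF40 hx hx') (covF71 hx hx') (x1 hx) (x2 hx')
        Pool.Agent.Strip051.G.IE1.Tab.C.FA47.c_pm_011 (cutVA_cons (Pool.Agent.Strip051.G.IE1.Tab.qF_A47pm_011_011 hκ hx hx') cutVA_nil) noExt_VA F r1 r2 r1 r2

theorem FA47_pm_012 {κ x : ℝ} (hκ : κ * h0 = kenE x) (hx : 39 / 40 ≤ x) (hx' : x < 1) :
    TriA (DD x).cur (farD κ (h0 * x) (tbl tKF x) (tbl tL x)) 0 1 2 4 7 1 (-1) :=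
  (sideF hx hx').farA (Or.inl rfl) (Or.inr rfl) fun y y' F r1 r2 =>
    farXA_cert (s1 := true) (s2 := false) rfl hκ (ka0 hκ hx hx') (xa0 hx) hx' (covF40 hx hx') (covF71 hx hx') (x1 hx) (x2 hx')
        Pool.Agent.Strip051.G.IE1.Tab.C.FA47.c_pm_012 (cutVA_cons (Pool.Agent.Strip051.G.IE1.Tab.qF_A47pm_012_011 hκ hx hx') cutVA_nil) noExt_VA F r1 r2 r1 r2

theorem FA47_pm_022 {κ x : ℝ} (hκ : κ * h0 = kenE x) (hx : 39 / 40 ≤ x) (hx' : x < 1) :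
    TriA (DD x).cur (farD κ (h0 * x) (tbl tKF x) (tbl tL x)) 0 2 2 4 7 1 (-1) :=
  (sideF hx hx').farA (Or.inl rfl) (Or.inr rfl) fun y y' F r1 r2 =>
    farXA_cert (s1 := true) (s2 := false) rfl hκ (ka0 hκ hx hx') (xa0 hx) hx' (covF40 hx hx') (covF72 hx hx') (x1 hx) (x2 hx')
        Pool.Agent.Strip051.G.IE1.Tab.C.FA47.c_pm_022 (cutVA_cons (Pool.Agent.Strip051.G.IE1.Tab.qF_A47pm_022_011 hκ hx hx') cutVA_nil) noExt_VA F r1 r2 r1 r2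

theorem FA47_pm_023 {κ x : ℝ} (hκ : κ * h0 = kenE x) (hx : 39 / 40 ≤ x) (hx' : x < 1) :
    TriA (DD x).cur (farD κ (h0 * x) (tbl tKF x) (tbl tL x)) 0 2 3 4 7 1 (-1) :=
  (sideF hx hx').farA (Or.inl rfl) (Or.inr rfl) fun y y' F r1 r2 =>
    farXA_cert (s1 := true) (s2 := false) rfl hκ (ka0 hκ hx hx') (xa0 hx) hx' (covF40 hx hx') (covF72 hx hx') (x1 hx) (x2 hx')
        Pool.Agent.Strip051.G.IE1.Tab.C.FA47.c_pm_023 noCut_VA noExt_VA F r1 r2 r1 r2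

theorem FA47_pm_033 {κ x : ℝ} (hκ : κ * h0 = kenE x) (hx : 39 / 40 ≤ x) (hx' : x < 1) :
    TriA (DD x).cur (farD κ (h0 * x) (tbl tKF x) (tbl tL x)) 0 3 3 4 7 1 (-1) :=
  (sideF hx hx').farA (Or.inl rfl) (Or.inr rfl) fun y y' F r1 r2 =>
    farXA_cert (s1 := true) (s2 := false) rfl hκ (ka0 hκ hx hx') (xa0 hx) hx' (covF40 hx hx') (covF73 hx hx') (x1 hx) (x2 hx')
        Pool.Agent.Strip051.G.IE1.Tab.C.FA47.c_pm_033 noCut_VA noExt_VA F r1 r2 r1 r2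

theorem FA47_pm_101 {κ x : ℝ} (hκ : κ * h0 = kenE x) (hx : 39 / 40 ≤ x) (hx' : x < 1) :
    TriA (DD x).cur (farD κ (h0 * x) (tbl tKF x) (tbl tL x)) 1 0 1 4 7 1 (-1) :=
  triVA_j nr4_1

theorem FA47_pm_102 {κ x : ℝ} (hκ : κ * h0 = kenE x) (hx : 39 / 40 ≤ x) (hx' : x < 1) :
    TriA (DD x).cur (farD κ (h0 * x) (tbl tKF x) (tbl tL x)) 1 0 2 4 7 1 (-1) :=
  triVA_j nr4_1

theorem FA47_pm_112 {κ x : ℝ} (hκ : κ * h0 = kenE x) (hx : 39 / 40 ≤ x) (hx' : x < 1) :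
    TriA (DD x).cur (farD κ (h0 * x) (tbl tKF x) (tbl tL x)) 1 1 2 4 7 1 (-1) :=
  triVA_j nr4_1

theorem FA47_pm_113 {κ x : ℝ} (hκ : κ * h0 = kenE x) (hx : 39 / 40 ≤ x) (hx' : x < 1) :
    TriA (DD x).cur (farD κ (h0 * x) (tbl tKF x) (tbl tL x)) 1 1 3 4 7 1 (-1) :=
  triVA_j nr4_1

theorem FA47_pm_123 {κ x : ℝ} (hκ : κ * h0 = kenE x) (hx : 39 / 40 ≤ x) (hx' : x < 1) :
    TriA (DD x).cur (farD κ (h0 * x) (tbl tKF x) (tbl tL x)) 1 2 3 4 7 1 (-1) :=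
  triVA_j nr4_1

theorem FA47_pm_133 {κ x : ℝ} (hκ : κ * h0 = kenE x) (hx : 39 / 40 ≤ x) (hx' : x < 1) :
    TriA (DD x).cur (farD κ (h0 * x) (tbl tKF x) (tbl tL x)) 1 3 3 4 7 1 (-1) :=
  triVA_j nr4_1

theorem FA47_pm_202 {κ x : ℝ} (hκ : κ * h0 = kenE x) (hx : 39 / 40 ≤ x) (hx' : x < 1) :
    TriA (DD x).cur (farD κ (h0 * x) (tbl tKF x) (tbl tL x)) 2 0 2 4 7 1 (-1) :=
  triVA_j nr4_2

theorem FA47_pm_203 {κ x : ℝ} (hκ : κ * h0 = kenE x) (hx : 39 / 40 ≤ x) (hx' : x < 1) :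
    TriA (DD x).cur (farD κ (h0 * x) (tbl tKF x) (tbl tL x)) 2 0 3 4 7 1 (-1) :=
  triVA_j nr4_2

theorem FA47_pm_213 {κ x : ℝ} (hκ : κ * h0 = kenE x) (hx : 39 / 40 ≤ x) (hx' : x < 1) :
    TriA (DD x).cur (farD κ (h0 * x) (tbl tKF x) (tbl tL x)) 2 1 3 4 7 1 (-1) :=
  triVA_j nr4_2

theorem FA47_pm_303 {κ x : ℝ} (hκ : κ * h0 = kenE x) (hx : 39 / 40 ≤ x) (hx' : x < 1) :
    TriA (DD x).cur (farD κ (h0 * x) (tbl tKF x) (tbl tL x)) 3 0 3 4 7 1 (-1) :=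
  triVA_j nr4_3

theorem FA47_pm_313 {κ x : ℝ} (hκ : κ * h0 = kenE x) (hx : 39 / 40 ≤ x) (hx' : x < 1) :
    TriA (DD x).cur (farD κ (h0 * x) (tbl tKF x) (tbl tL x)) 3 1 3 4 7 1 (-1) :=
  triVA_j nr4_3

theorem FA47_mm_001 {κ x : ℝ} (hκ : κ * h0 = kenE x) (hx : 39 / 40 ≤ x) (hx' : x < 1) :
    TriA (DD x).cur (farD κ (h0 * x) (tbl tKF x) (tbl tL x)) 0 0 1 4 7 (-1) (-1) :=
  (sideF hx hx').farA (Or.inr rfl) (Or.inr rfl) fun y y' F r1 r2 =>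
    farXA_cert (s1 := false) (s2 := false) rfl hκ (ka0 hκ hx hx') (xa0 hx) hx' (covF40 hx hx') (covF70 hx hx') (x1 hx) (x2 hx')
        Pool.Agent.Strip051.G.IE1.Tab.C.FA47.c_mm_001 noCut_VA noExt_VA F r1 r2 r1 r2

theorem FA47_mm_011 {κ x : ℝ} (hκ : κ * h0 = kenE x) (hx : 39 / 40 ≤ x) (hx' : x < 1) :
    TriA (DD x).cur (farD κ (h0 * x) (tbl tKF x) (tbl tL x)) 0 1 1 4 7 (-1) (-1) :=
  (sideF hx hx').farA (Or.inr rfl) (Or.inr rfl) fun y y' F r1 r2 =>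
    farXA_cert (s1 := false) (s2 := false) rfl hκ (ka0 hκ hx hx') (xa0 hx) hx' (covF40 hx hx') (covF71 hx hx') (x1 hx) (x2 hx')
        Pool.Agent.Strip051.G.IE1.Tab.C.FA47.c_mm_011 noCut_VA noExt_VA F r1 r2 r1 r2

theorem FA47_mm_012 {κ x : ℝ} (hκ : κ * h0 = kenE x) (hx : 39 / 40 ≤ x) (hx' : x < 1) :
    TriA (DD x).cur (farD κ (h0 * x) (tbl tKF x) (tbl tL x)) 0 1 2 4 7 (-1) (-1) :=
  (sideF hx hx').farA (Or.inr rfl) (Or.inr rfl) fun y y' F r1 r2 =>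
    farXA_cert (s1 := false) (s2 := false) rfl hκ (ka0 hκ hx hx') (xa0 hx) hx' (covF40 hx hx') (covF71 hx hx') (x1 hx) (x2 hx')
        Pool.Agent.Strip051.G.IE1.Tab.C.FA47.c_mm_012 noCut_VA noExt_VA F r1 r2 r1 r2

theorem FA47_mm_022 {κ x : ℝ} (hκ : κ * h0 = kenE x) (hx : 39 / 40 ≤ x) (hx' : x < 1) :
    TriA (DD x).cur (farD κ (h0 * x) (tbl tKF x) (tbl tL x)) 0 2 2 4 7 (-1) (-1) :=
  (sideF hx hx').farA (Or.inr rfl) (Or.inr rfl) fun y y' F r1 r2 =>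
    farXA_cert (s1 := false) (s2 := false) rfl hκ (ka0 hκ hx hx') (xa0 hx) hx' (covF40 hx hx') (covF72 hx hx') (x1 hx) (x2 hx')
        Pool.Agent.Strip051.G.IE1.Tab.C.FA47.c_mm_022 noCut_VA noExt_VA F r1 r2 r1 r2

theorem FA47_mm_023 {κ x : ℝ} (hκ : κ * h0 = kenE x) (hx : 39 / 40 ≤ x) (hx' : x < 1) :
    TriA (DD x).cur (farD κ (h0 * x) (tbl tKF x) (tbl tL x)) 0 2 3 4 7 (-1) (-1) :=
  (sideF hx hx').farA (Or.inr rfl) (Or.inr rfl) fun y y' F r1 r2 =>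
    farXA_cert (s1 := false) (s2 := false) rfl hκ (ka0 hκ hx hx') (xa0 hx) hx' (covF40 hx hx') (covF72 hx hx') (x1 hx) (x2 hx')
        Pool.Agent.Strip051.G.IE1.Tab.C.FA47.c_mm_023 noCut_VA noExt_VA F r1 r2 r1 r2

theorem FA47_mm_033 {κ x : ℝ} (hκ : κ * h0 = kenE x) (hx : 39 / 40 ≤ x) (hx' : x < 1) :
    TriA (DD x).cur (farD κ (h0 * x) (tbl tKF x) (tbl tL x)) 0 3 3 4 7 (-1) (-1) :=
  (sideF hx hx').farA (Or.inr rfl) (Or.inr rfl) fun y y' F r1 r2 =>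
    farXA_cert (s1 := false) (s2 := false) rfl hκ (ka0 hκ hx hx') (xa0 hx) hx' (covF40 hx hx') (covF73 hx hx') (x1 hx) (x2 hx')
        Pool.Agent.Strip051.G.IE1.Tab.C.FA47.c_mm_033 noCut_VA noExt_VA F r1 r2 r1 r2

theorem FA47_mm_101 {κ x : ℝ} (hκ : κ * h0 = kenE x) (hx : 39 / 40 ≤ x) (hx' : x < 1) :
    TriA (DD x).cur (farD κ (h0 * x) (tbl tKF x) (tbl tL x)) 1 0 1 4 7 (-1) (-1) :=
  triVA_j nr4_1

theorem FA47_mm_102 {κ x : ℝ} (hκ : κ * h0 = kenE x) (hx : 39 / 40 ≤ x) (hx' : x < 1) :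
    TriA (DD x).cur (farD κ (h0 * x) (tbl tKF x) (tbl tL x)) 1 0 2 4 7 (-1) (-1) :=
  triVA_j nr4_1

theorem FA47_mm_112 {κ x : ℝ} (hκ : κ * h0 = kenE x) (hx : 39 / 40 ≤ x) (hx' : x < 1) :
    TriA (DD x).cur (farD κ (h0 * x) (tbl tKF x) (tbl tL x)) 1 1 2 4 7 (-1) (-1) :=
  triVA_j nr4_1

theorem FA47_mm_113 {κ x : ℝ} (hκ : κ * h0 = kenE x) (hx : 39 / 40 ≤ x) (hx' : x < 1) :
    TriA (DD x).cur (farD κ (h0 * x) (tbl tKF x) (tbl tL x)) 1 1 3 4 7 (-1) (-1) :=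
  triVA_j nr4_1

theorem FA47_mm_123 {κ x : ℝ} (hκ : κ * h0 = kenE x) (hx : 39 / 40 ≤ x) (hx' : x < 1) :
    TriA (DD x).cur (farD κ (h0 * x) (tbl tKF x) (tbl tL x)) 1 2 3 4 7 (-1) (-1) :=
  triVA_j nr4_1

theorem FA47_mm_133 {κ x : ℝ} (hκ : κ * h0 = kenE x) (hx : 39 / 40 ≤ x) (hx' : x < 1) :
    TriA (DD x).cur (farD κ (h0 * x) (tbl tKF x) (tbl tL x)) 1 3 3 4 7 (-1) (-1) :=
  triVA_j nr4_1

theorem FA47_mm_202 {κ x : ℝ} (hκ : κ * h0 = kenE x) (hx : 39 / 40 ≤ x) (hx' : x < 1) :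
    TriA (DD x).cur (farD κ (h0 * x) (tbl tKF x) (tbl tL x)) 2 0 2 4 7 (-1) (-1) :=
  triVA_j nr4_2

theorem FA47_mm_203 {κ x : ℝ} (hκ : κ * h0 = kenE x) (hx : 39 / 40 ≤ x) (hx' : x < 1) :
    TriA (DD x).cur (farD κ (h0 * x) (tbl tKF x) (tbl tL x)) 2 0 3 4 7 (-1) (-1) :=
  triVA_j nr4_2

theorem FA47_mm_213 {κ x : ℝ} (hκ : κ * h0 = kenE x) (hx : 39 / 40 ≤ x) (hx' : x < 1) :
    TriA (DD x).cur (farD κ (h0 * x) (tbl tKF x) (tbl tL x)) 2 1 3 4 7 (-1) (-1) :=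
  triVA_j nr4_2

theorem FA47_mm_303 {κ x : ℝ} (hκ : κ * h0 = kenE x) (hx : 39 / 40 ≤ x) (hx' : x < 1) :
    TriA (DD x).cur (farD κ (h0 * x) (tbl tKF x) (tbl tL x)) 3 0 3 4 7 (-1) (-1) :=
  triVA_j nr4_3

theorem FA47_mm_313 {κ x : ℝ} (hκ : κ * h0 = kenE x) (hx : 39 / 40 ≤ x) (hx' : x < 1) :
    TriA (DD x).cur (farD κ (h0 * x) (tbl tKF x) (tbl tL x)) 3 1 3 4 7 (-1) (-1) :=
  triVA_j nr4_3

theorem FA47 {κ x : ℝ} (hκ : κ * h0 = kenE x) (hx : 39 / 40 ≤ x) (hx' : x < 1) : AllTA (DD x).cur (farD κ (h0 * x) (tbl tKF x) (tbl tL x)) 4 7 where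
  pp := all17 (Q := fun a b c => TriA (DD x).cur (farD κ (h0 * x) (tbl tKF x) (tbl tL x)) a b c 4 7 1 1)
    (FA47_pp_001 hκ hx hx') (FA47_pp_011 hκ hx hx') (FA47_pp_012 hκ hx hx') (FA47_pp_022 hκ hx hx') (FA47_pp_023 hκ hx hx') (FA47_pp_033 hκ hx hx') (FA47_pp_101 hκ hx hx') (FA47_pp_102 hκ hx hx') (FA47_pp_112 hκ hx hx') (FA47_pp_113 hκ hx hx') (FA47_pp_123 hκ hx hx') (FA47_pp_133 hκ hx hx') (FA47_pp_202 hκ hx hx') (FA47_pp_203 hκ hx hx') (FA47_pp_213 hκ hx hx') (FA47_pp_303 hκ hx hx') (FA47_pp_313 hκ hx hx')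
  pm := all17 (Q := fun a b c => TriA (DD x).cur (farD κ (h0 * x) (tbl tKF x) (tbl tL x)) a b c 4 7 1 (-1))
    (FA47_pm_001 hκ hx hx') (FA47_pm_011 hκ hx hx') (FA47_pm_012 hκ hx hx') (FA47_pm_022 hκ hx hx') (FA47_pm_023 hκ hx hx') (FA47_pm_033 hκ hx hx') (FA47_pm_101 hκ hx hx') (FA47_pm_102 hκ hx hx') (FA47_pm_112 hκ hx hx') (FA47_pm_113 hκ hx hx') (FA47_pm_123 hκ hx hx') (FA47_pm_133 hκ hx hx') (FA47_pm_202 hκ hx hx') (FA47_pm_203 hκ hx hx') (FA47_pm_213 hκ hx hx') (FA47_pm_303 hκ hx hx') (FA47_pm_313 hκ hx hx')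
  mm := all17 (Q := fun a b c => TriA (DD x).cur (farD κ (h0 * x) (tbl tKF x) (tbl tL x)) a b c 4 7 (-1) (-1))
    (FA47_mm_001 hκ hx hx') (FA47_mm_011 hκ hx hx') (FA47_mm_012 hκ hx hx') (FA47_mm_022 hκ hx hx') (FA47_mm_023 hκ hx hx') (FA47_mm_033 hκ hx hx') (FA47_mm_101 hκ hx hx') (FA47_mm_102 hκ hx hx') (FA47_mm_112 hκ hx hx') (FA47_mm_113 hκ hx hx') (FA47_mm_123 hκ hx hx') (FA47_mm_133 hκ hx hx') (FA47_mm_202 hκ hx hx') (FA47_mm_203 hκ hx hx') (FA47_mm_213 hκ hx hx') (FA47_mm_303 hκ hx hx') (FA47_mm_313 hκ hx hx')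

end Pool.Agent.Strip051.G.IE1.Tab
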