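import Pool.Agent.Strip051.G.IE1.Tab

/-! # Certificates F21 (generated) -/

set_option linter.all false
set_option maxRecDepth 100000

namespace Pool.Agent.Strip051.G.IE1.Tab.C.FA55

open Pool.Agent.Strip051.PB Pool.Agent.Strip051.PB.T
open Pool.Agent.Strip051.G.IE1.Tab

noncomputable def f_pm_022 : ℕ → ℕ → ℕ → ℕ → Bool := onCell 0 536870912 1073741824 536870912 1046898278 26843546
    (rowFX 1 true true false .pp 0 2 2 (qsf 0 536870912 1073741824 536870912 2) ndF5q0 ndF5q2 pcF2 Cut.none Ext.none)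

def k0_pm_022 : ∃ t, chk3 f_pm_022 t 4 16 1 = true :=
  ⟨(a (a (b (a (a (l 3) (a (l 3) (b (l 1) (b (l 3) (c (c (l 16374712) (l 16316240)) (c (l 16319368) (l 16350776))))))) (a (a (b (l 1) (b (l 1) (c (c (l 16289864) (l 614212587159)) (c (l 16256240) (l 16341632))))) (l 1)) (l 1))) (a (c (c (b (a (l 16391248) (a (b (l 16435256) (l 16446112)) (b (l 16385864) (l 16403232)))) (a (l 16381720) (a (l 16473344) (l 16415256)))) (a (b (b (l 16361024) (c (l 16441200) (l 16447704))) (l 16399152)) (b (c (a (l 16337960) (l 16349296)) (a (l 16398608) (l 16313416))) (a (l 16461144) (l 16408224))))) (c (a (a (b (l 16440488) (l 16416792)) (b (b (l 16388880) (l 16374160)) (a (l 16488600) (l 16475648)))) (b (c (l 16263160) (l 16321184)) (a (l 16448784) (l 16437120)))) (a (a (c (b (l 16444736) (a (l 16502304) (l 16493936))) (b (l 239074420023) (a (l 16462208) (l 16491424)))) (c (b (l 16429024) (l 16473960)) (l 16379096))) (b (l 16404736) (l 16446840))))) (a (c (b (c (b (a (l 16310288) (l 16239056))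 (l 16251536)) (b (a (l 16271840) (l 16277880)) (l 16190872))) (c (b (l 16299224) (l 16353296)) (l 16371432))) (a (b (b (l 16353368) (l 16393264)) (l 16387096)) (b (b (l 16352720) (l 16390384)) (l 16424944)))) (b (b (l 1) (c (l 16245824) (l 16382496))) (c (l 16283864) (l 16439560)))))) (b (l 1) (b (l 1) (a (b (l 1) (c (l 16193184) (l 16274528))) (l 1))))) (l 1)), by decide +kernel⟩

def k1_pm_022 : ∃ t, chk3 f_pm_022 t 4 17 1 = true :=
  ⟨(b (a (b (a (c (a (a (l 16425248) (a (c (l 16537784) (l 16494264)) (c (l 16500136) (l 16480248)))) (a (l 16270896) (l 16408640))) (a (a (c (a (l 16559872) (l 16510272)) (a (c (l 16563984) (l 16503696)) (l 16547944))) (c (l 16432856) (l 16541208))) (l 16404704))) (a (c (a (l 16331976) (l 16366416)) (l 16478328)) (l 1))) (a (a (c (a (c (l 16578912) (l 16610280)) (a (b (l 16578088) (l 16612608)) (l 16552480))) (a (c (a (l 16619760) (l 16612192)) (a (c (l 16624600) (l 16627704)) (l 16608896))) (c (l 16575456) (l 16600880)))) (c (c (l 16370112)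 (l 16487624)) (l 16578440))) (c (a (c (l 16462872) (l 16473088)) (c (l 16471776) (l 16467696))) (a (l 16510920) (l 16501600))))) (l 1)) (a (a (c (a (a (b (c (l 16642480) (l 16667448)) (l 16627120)) (c (b (l 16654832) (l 16644624)) (l 16572600))) (c (a (l 16390696) (l 16378856)) (l 16530520))) (a (a (a (b (c (l 16676512) (c (l 16682064) (l 16685640))) (c (l 16605240) (l 16598464))) (c (l 16665584) (l 16667144))) (c (l 16674104) (l 16685096))) (c (a (l 16673768) (l 16682232)) (l 16509200)))) (c (c (a (b (l 16531384) (l 16636856)) (b (l 16554032) (l 16671576))) (a (l 16627512) (b (l 16603368) (l 16693816)))) (a (b (l 16458616) (l 16524312)) (b (l 16560056) (l 16481432))))) (b (l 1) (a (a (c (c (l 16472568) (l 16552784)) (l 16676864)) (l 1)) (l 1))))), by decide +kernel⟩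

def k2_pm_022 : ∃ t, chk3 f_pm_022 t 5 8 1 = true :=
  ⟨(l 1), by decide +kernel⟩

def k3_pm_022 : ∃ t, chk3 f_pm_022 t 2 18 1 = true :=
  ⟨(a (a (a (c (a (b (a (l 16433856) (c (a (l 16444960) (l 16476672)) (l 16396408))) (a (l 16193824) (c (l 16196808) (l 16208144)))) (b (a (l 16375536) (l 16470216)) (a (l 16220592) (l 16182528)))) (a (b (a (c (a (l 16433648) (l 16443432)) (a (c (l 16426528) (l 16358960)) (l 16421320))) (c (l 16480544) (l 16454056))) (a (c (l 16175528) (a (l 16116920) (l 16171088))) (l 16091768))) (b (a (l 16485928) (c (l 16502816) (l 16408576))) (a (l 16200056) (c (l 16212208) (l 16136976)))))) (c (c (a (b (l 16601080) (l 16296904)) (b (l 16605208) (l 16281464))) (b (a (l 16553312) (c (l 16585504) (l 16584488))) (a (l 16247216) (c (l 16255992) (l 16258408))))) (b (c (a (c (l 16534440) (l 16440120)) (b (l 16663752) (l 16501192))) (a (l 16388104) (l 16584528))) (c (a (c (l 16057536) (l 16135352)) (a (l 16069280) (l 16261992))) (a (l 16142608) (l 16248944))))))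 (a (c (a (b (c (c (l 16637584) (l 16638752)) (c (l 16644656) (l 16643560))) (c (l 102574366759) (c (l 16301288) (l 16290880)))) (a (c (b (l 16499432) (l 16166240)) (l 16336536)) (b (l 1) (l 16340600)))) (b (a (l 16616416) (l 16692864)) (l 16092032))) (a (b (l 1) (c (l 685616415671) (l 16368760))) (l 1)))) (l 1)), by decide +kernel⟩

def k4_pm_022 : ∃ t, chk3 f_pm_022 t 2 19 1 = true :=
  ⟨(a (a (a (a (b (c (a (l 15838288) (c (l 15709848) (l 15884760))) (a (c (l 15689352) (a (b (l 15953544) (l 15808184)) (l 15889168))) (c (l 15919816) (l 15888104)))) (c (a (l 15620264) (c (l 15607096) (l 15609520))) (a (c (l 15591672) (a (l 15573728) (l 15574520))) (l 15565808)))) (c (b (a (c (l 15754904) (l 15963992)) (b (l 16072472) (l 15903000))) (a (c (l 15662920) (l 15637928)) (l 15645512))) (b (c (b (a (l 15991032) (l 15995088)) (a (l 15831088) (l 15797840))) (b (c (l 15861344) (l 15970872)) (a (l 15797336) (l 15807056)))) (c (a (l 15581968) (l 15347400)) (a (l 15358168) (l 15553280))))))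 (a (c (c (b (l 15985416) (l 15638024)) (a (l 15530864) (b (l 15926464) (l 15565488)))) (b (c (b (c (l 15939480) (l 15996728)) (l 15587704)) (c (l 15686072) (l 15897792))) (c (c (l 15350904) (l 15570336)) (l 15555944)))) (c (c (b (l 15757872) (l 15581208)) (b (c (l 15924488) (l 15761992)) (c (l 15566760) (a (l 15565832) (l 15560344))))) (c (b (b (l 15830280) (l 15862352)) (l 15396400)) (l 15720232))))) (a (c (b (c (a (b (l 15937752) (l 15862936)) (c (l 146597172279) (l 15968104))) (a (c (l 15847504) (l 15939000)) (l 15960104))) (c (a (c (l 15584248) (l 15586216)) (l 15587064)) (l 15568704))) (b (a (l 15925904) (l 15944096)) (l 15545472))) (c (b (a (l 364029969671) (l 703869430231)) (a (l 15598896) (l 15664024))) (b (l 431138805223) (l 15599216))))) (a (a (b (l 1) (c (a (l 15763504) (l 1)) (l 15565464))) (l 1)) (l 1))), by decide +kernel⟩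

def k5_pm_022 : ∃ t, chk3 f_pm_022 t 3 4 1 = true :=
  ⟨(l 1), by decide +kernel⟩

def k6_pm_022 : ∃ t, chk3 f_pm_022 t 4 40 1 = true :=
  ⟨(a (a (c (a (a (l 15303928) (a (l 15281224) (c (l 15284552) (l 15297632)))) (a (c (l 15340840) (l 15312304)) (l 15141568))) (a (a (c (l 15269544) (a (l 15123600) (l 15246448))) (a (l 15257160) (c (l 15264040) (l 15209512)))) (c (a (a (l 15256792) (l 15237600)) (c (l 15230872) (l 15203600))) (a (a (l 15215792) (l 15208840)) (l 15223216))))) (c (c (a (l 15292896) (c (l 15239568) (l 15219304))) (a (c (l 15240568) (l 15213088)) (c (l 15215400) (a (l 15212984) (l 15196080))))) (c (a (c (c (l 15209584) (l 15233640)) (l 15229224)) (l 15185424)) (l 15175448)))) (a (c (c (a (c (l 15225280) (l 15217560)) (l 15208680)) (l 15191048)) (l 15160504)) (c (c (l 15243304) (l 15222352)) (l 15190928)))), by decide +kernel⟩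

def k7_pm_022 : ∃ t, chk3 f_pm_022 t 4 41 1 = true :=
  ⟨(a (a (a (a (b (c (l 15151664) (c (l 15072712) (a (l 15122104) (l 15035240)))) (b (c (l 15203376) (c (l 15167656) (l 15143720))) (b (c (l 15302048) (c (l 15268472) (l 15245960))) (c (l 15378536) (c (l 15283704) (a (l 15267568) (l 15255840))))))) (b (c (a (l 15045176) (l 15048880)) (c (l 15023544) (l 14893400))) (b (c (a (l 14987592) (l 14952200)) (c (l 14958472) (b (l 14895504) (l 14914008)))) (a (c (b (l 15069544) (a (l 15136304) (l 15010752))) (b (c (l 15057440) (l 15010216)) (c (l 15139592) (l 15093928)))) (c (l 14995280) (c (l 14975552) (l 14921216))))))) (c (c (b (l 15099312) (l 15012520)) (b (l 15053648) (l 14966976))) (b (c (a (l 14990296) (l 14991424)) (l 14968328)) (c (b (b (l 14893504) (l 14888704)) (l 14898568)) (b (l 14882952) (l 14886552)))))) (a (c (c (b (l 15069744) (l 15002248)) (b (c (l 15012768) (l 14992872)) (c (l 14946032) (l 14929408)))) (c (a (b (l 15013416) (l 14875888)) (b (l 15024976) (l 14910608)))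 (l 14919336))) (c (c (b (l 14933248) (c (l 14980072) (l 14966464))) (c (b (l 15003584) (l 14954088)) (l 14958488))) (l 14930208)))) (a (c (c (a (a (b (l 15019280) (l 14982528)) (l 14995232)) (l 15004576)) (l 14975984)) (b (l 14953256) (l 14931424))) (c (b (c (l 15056856) (l 15033584)) (c (l 15067736) (l 15044792))) (b (l 14998672) (l 15010376))))), by decide +kernel⟩

def k8_pm_022 : ∃ t, chk3 f_pm_022 t 4 21 1 = true :=
  ⟨(a (a (c (a (a (b (l 15562800) (l 16026008)) (b (c (l 15419160) (l 15417544)) (c (l 15850280) (l 15940248)))) (b (c (a (l 15169984) (l 15107008)) (a (l 15204480) (l 15037808))) (c (l 15454272) (a (l 15771232) (l 15484976))))) (a (a (b (a (l 15664720) (c (l 15595104) (l 15496920))) (c (a (l 16306872) (l 16160400)) (a (b (l 16067752) (l 16419704)) (l 16012816)))) (b (c (l 15151376) (l 15332152)) (c (l 15758072) (l 15853176)))) (b (b (a (c (l 14920992) (l 14991152)) (l 14929312)) (a (l 15253992) (c (l 15048328) (l 15005344)))) (c (l 15342232) (l 15527856)))))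 (a (b (c (c (l 15025904) (c (l 14981712) (l 14986192))) (c (l 14964088) (l 14920248))) (c (c (a (l 15293728) (l 15136768)) (b (a (l 15099544) (l 15049024)) (a (l 15360072) (l 15161912)))) (b (l 15029928) (l 15218584)))) (c (c (b (l 15021624) (l 15091368)) (b (l 15020392) (l 15053560))) (l 14985920)))) (a (c (b (c (a (l 15038272) (l 15063072)) (l 15026048)) (l 15123376)) (l 14910928)) (c (b (l 15134560) (l 15243768)) (l 15147112)))), by decide +kernel⟩

def k9_pm_022 : ∃ t, chk3 f_pm_022 t 5 10 1 = true :=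
  ⟨(b (a (b (a (c (c (l 467107936183) (l 15350640)) (l 15275128)) (l 1)) (a (c (b (l 15056328) (l 15221384)) (b (l 15135840) (l 15177288))) (b (l 1) (c (a (l 15378496) (l 1)) (l 912710902391))))) (l 1)) (a (a (c (b (l 15314880) (l 15442344)) (l 15339952)) (c (b (a (l 15469000) (l 15637552)) (a (l 15611664) (l 15756032))) (b (l 668434781735) (l 15654520)))) (a (l 903048059479) (l 1)))), by decide +kernel⟩

def k10_pm_022 : ∃ t, chk3 f_pm_022 t 2 11 1 = true :=
  ⟨(a (b (a (a (a (c (b (a (b (l 16215688) (l 15921288)) (c (l 16264376) (l 16325840))) (a (l 15488280) (c (l 15762792) (l 15731720)))) (a (b (c (l 15909936) (a (l 15920408) (l 16130576))) (c (l 15476792) (l 15466224))) (b (c (l 16319600) (l 16338088)) (l 15629592)))) (c (b (c (a (l 16371736) (l 16146176)) (a (l 16359160) (l 16089352))) (c (a (l 15933856) (l 16156600)) (b (l 16226168) (l 15926400)))) (b (c (l 15976760) (l 16100976)) (l 15903776)))) (b (a (c (b (l 15327520) (c (l 15896752) (l 15868088))) (l 15646968)) (c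 (c (a (l 15260952) (l 15221848)) (l 15290440)) (b (l 15138888) (l 15338408)))) (c (a (b (l 16092848) (l 16347888)) (l 15620904)) (a (l 16181880) (l 15740936))))) (a (b (c (l 15216416) (l 15178664)) (a (c (b (l 15317192) (l 15520696)) (l 15287168)) (l 15331528))) (c (b (l 15357176) (l 15475424)) (l 15382176)))) (a (a (a (c (b (a (b (l 15132608) (l 15074776)) (c (l 15307624) (l 15268208))) (l 14940096)) (b (a (c (l 15091360) (l 15077424)) (l 15221920)) (a (l 15042544) (l 15107320)))) (c (b (c (l 15357720) (l 15585520)) (a (l 15216776) (l 15373264))) (b (l 15614216) (l 15338832)))) (c (a (b (a (l 15918568) (l 16220896)) (l 15749616)) (b (l 16294840) (l 16249720))) (a (l 15796848) (l 16216960)))) (a (a (b (c (l 15867360) (l 15848680)) (l 16241344)) (b (c (b (l 15436880) (l 15502480)) (l 15464840)) (l 15749032))) (b (c (l 15465536) (l 15434480)) (a (l 15269760) (l 15317272)))))) (b (a (a (c (b (l 15572536) (l 15704872)) (l 15567184)) (a (b (l 15639440) (l 15888064)) (l 15961336)))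 (a (l 16145240) (l 1138198532151))) (a (a (c (b (l 15697312) (l 15502472)) (l 15570784)) (l 15837888)) (a (l 16110704) (l 16477200))))), by decide +kernel⟩

def k11_pm_022 : ∃ t, chk3 f_pm_022 t 3 5 1 = true :=
  ⟨(b (l 1) (a (b (l 1) (a (l 598106405863) (l 1))) (l 1))), by decide +kernel⟩

def k12_pm_022 : ∃ t, chk3 f_pm_022 t 1 3 1 = true :=
  ⟨(a (a (b (a (a (c (b (a (a (l 15073704) (l 15153280)) (l 15223392)) (a (b (l 15107344) (l 15107344)) (l 15223200))) (b (a (c (l 15086032) (l 15074912)) (l 15241176)) (c (l 15162528) (l 15154424)))) (b (b (c (a (l 15464040) (l 15603808)) (a (l 15475568) (l 15800888))) (l 15491080)) (b (l 15365016) (l 15490848)))) (b (a (b (a (l 16103320) (l 16156616)) (a (l 15788296) (b (l 16216560) (l 15991840)))) (b (b (a (l 15647792) (l 15298992)) (l 15727376)) (a (l 16489272) (l 16163528)))) (b (a (l 15834080) (l 16249400)) (l 15967696)))) (a (a (a (c (l 15107344) (b (l 15079184) (l 15079184))) (c (l 15223200) (l 15240976))) (b (l 15490848) (l 15490848)))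 (a (l 15833864) (l 16113256)))) (b (b (a (b (a (b (l 15298024) (l 15227208)) (l 15436400)) (a (b (l 15358512) (l 15678072)) (l 15153848))) (a (l 15488264) (l 15812976))) (a (b (a (l 16238840) (b (l 15232288) (l 15558456))) (a (l 16436320) (l 16150376))) (b (a (l 15028624) (l 15227000)) (a (l 15203048) (l 14965048))))) (a (b (a (l 16315768) (l 16403632)) (l 16410784)) (b (a (b (l 16051976) (l 16627232)) (b (l 15251672) (l 16003128))) (a (l 16683592) (l 16653120)))))) (b (a (b (a (b (l 16548592) (l 16247456)) (l 708164502519)) (a (l 15441552) (b (l 16716368) (l 16247456)))) (b (l 1) (a (l 933650501831) (l 1)))) (a (b (a (b (a (l 14964960) (l 15226904)) (a (l 15251592) (l 14964960))) (l 15609328)) (a (b (a (l 16003056) (l 15251592)) (a (l 16585904) (l 16003056))) (b (l 15087328) (a (l 15251592) (l 14964960))))) (b (a (l 16477848) (l 977136923815)) (a (l 15609328) (l 16477848)))))), by decide +kernel⟩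

theorem s13_pm_022 : ∃ t, chk3 f_pm_022 t 4 20 1 = true := ex3_b k6_pm_022 k7_pm_022

theorem s14_pm_022 : ∃ t, chk3 f_pm_022 t 4 10 1 = true := ex3_b s13_pm_022 k8_pm_022

theorem s15_pm_022 : ∃ t, chk3 f_pm_022 t 2 10 1 = true := ex3_a s14_pm_022 k9_pm_022

theorem s16_pm_022 : ∃ t, chk3 f_pm_022 t 2 5 1 = true := ex3_b s15_pm_022 k10_pm_022

theorem s17_pm_022 : ∃ t, chk3 f_pm_022 t 1 5 1 = true := ex3_a s16_pm_022 k11_pm_022

theorem s18_pm_022 : ∃ t, chk3 f_pm_022 t 2 9 1 = true := ex3_b k3_pm_022 k4_pm_022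

theorem s19_pm_022 : ∃ t, chk3 f_pm_022 t 4 8 1 = true := ex3_b k0_pm_022 k1_pm_022

theorem s20_pm_022 : ∃ t, chk3 f_pm_022 t 2 8 1 = true := ex3_a s19_pm_022 k2_pm_022

theorem s21_pm_022 : ∃ t, chk3 f_pm_022 t 2 4 1 = true := ex3_b s20_pm_022 s18_pm_022

theorem s22_pm_022 : ∃ t, chk3 f_pm_022 t 1 4 1 = true := ex3_a s21_pm_022 k5_pm_022

theorem s23_pm_022 : ∃ t, chk3 f_pm_022 t 1 2 1 = true := ex3_b s22_pm_022 s17_pm_022

theorem s24_pm_022 : ∃ t, chk3 f_pm_022 t 1 1 1 = true := ex3_b s23_pm_022 k12_pm_022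

theorem c_pm_022 : CertFX 0 536870912 1073741824 536870912 1046898278 26843546 true true false .pp 0 2 2
    ndF5q0 ndF5q2 pcF2 Cut.none Ext.none :=
  certFX1 (fam := true) (s1 := true) (s2 := false) (a := 0) (b := 2) (c := 2) (cn := .pp) (n1 := ndF5q0) (n2 := ndF5q2) (pc := pcF2) (cut := Cut.none) (xt := Ext.none) (P1 := 0) (W1 := 536870912) (P2 := 1073741824) (W2 := 536870912) (P3 := 1046898278) (W3 := 26843546)
    rfl (fun _ => rfl) s24_pm_022

noncomputable def f_pm_023 : ℕ → ℕ → ℕ → ℕ → Bool := onCell 1610612736 536870912 1073741824 536870912 1046898278 26843546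
    (rowFX 2 true true false .up 0 2 3 (qsf 0 536870912 1073741824 536870912 3) ndF5q0 ndF5q2 pcF3 Cut.none Ext.none)

def k0_pm_023 : ∃ t, chk3 f_pm_023 t 1 1 1 = true :=
  ⟨(a (b (b (a (a (l 15525440) (l 15441552)) (a (l 147737324999) (l 2))) (a (b (a (l 15251592) (l 15251592)) (a (l 16585904) (l 16585904))) (b (a (l 15104792) (c (l 15250184) (l 15232040))) (a (l 16585904) (c (l 16588360) (l 16583456)))))) (a (b (a (l 16610160) (l 16762616)) (a (b (a (l 16064800) (l 16310512)) (a (b (l 15658672) (a (b (l 15276208) (l 14923144)) (l 15421112))) (l 15714040))) (b (l 16555552) (a (l 16064800) (l 16310512))))) (a (b (l 16777216) (b (l 16754648) (l 16555552))) (b (l 16777216) (l 16762616))))) (a (a (a (b (b (l 2) (b (l 2) (l 16585904))) (l 16777216)) (l 4)) (l 4)) (l 4))), by decide +kernel⟩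

theorem c_pm_023 : CertFX 0 536870912 1073741824 536870912 1046898278 26843546 true true false .up 0 2 3
    ndF5q0 ndF5q2 pcF3 Cut.none Ext.none :=
  certFX2 (fam := true) (s1 := true) (s2 := false) (a := 0) (b := 2) (c := 3) (cn := .up) (n1 := ndF5q0) (n2 := ndF5q2) (pc := pcF3) (cut := Cut.none) (xt := Ext.none) (P1 := 0) (W1 := 536870912) (P2 := 1073741824) (W2 := 536870912) (P3 := 1046898278) (W3 := 26843546)
    rfl (fun _ => rfl) k0_pm_023

noncomputable def f_pm_033 : ℕ → ℕ → ℕ → ℕ → Bool := onCell 0 536870912 0 1230186008 1046898278 26843546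
    (rowFX 0 true true false .pnn 0 3 3 (qsf 0 536870912 0 1230186008 3) ndF5q0 ndF5q3 pcF3 Cut.none Ext.none)

def k0_pm_033 : ∃ t, chk3 f_pm_033 t 1 1 1 = true :=
  ⟨(b (l 4) (b (a (a (a (b (l 4) (b (a (l 4) (l 4)) (a (c (a (b (l 15107344) (l 15107344)) (b (l 15223200) (l 15223200))) (c (a (l 15086032) (l 15245024)) (a (l 15074912) (l 15241792)))) (b (l 4) (c (l 15496128) (l 15493760)))))) (l 4)) (l 4)) (l 4)) (a (b (a (a (c (a (b (a (l 15107344) (l 15223200)) (a (l 15107344) (l 15223200))) (b (b (l 15496120) (l 15496128)) (l 15496128))) (b (a (c (l 15057672) (l 15154424)) (b (l 15493760) (l 15493760))) (a (a (l 15016272) (l 15240976)) (l 15493760)))) (a (b (b (l 4) (a (l 15754248) (l 15891168))) (c (l 15844976) (l 15799352))) (b (l 4) (c (b (l 16121768) (l 16121768)) (b (l 16104736) (l 16104744)))))) (a (a (a (b (l 4) (b (l 4) (l 16266096))) (l 4)) (l 4)) (l 4))) (b (a (c (a (a (l 15112208) (l 15496128)) (a (l 15844976) (l 16121768))) (a (a (l 14946056) (l 15493760)) (a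 (l 15820328) (l 16104744)))) (a (c (c (l 16417824) (l 16329240)) (c (b (l 16408424) (l 16408432)) (b (l 16403728) (l 16403736)))) (a (a (b (l 4) (l 16639368)) (l 4)) (l 4)))) (a (a (a (c (l 15154152) (l 15071888)) (l 15490848)) (a (l 15833864) (l 16113256))) (a (b (a (l 16315664) (l 16504328)) (a (l 16315664) (l 16504328))) (c (c (l 16731744) (l 16731152)) (c (l 20635704103) (a (l 16681720) (l 16777072)))))))) (b (l 4) (a (a (a (b (l 4) (c (l 132841995767) (l 124788931927))) (l 4)) (l 4)) (l 4)))))), by decide +kernel⟩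

theorem c_pm_033 : CertFX 0 536870912 0 1230186008 1046898278 26843546 true true false .pnn 0 3 3
    ndF5q0 ndF5q3 pcF3 Cut.none Ext.none :=
  certFX0 (fam := true) (s1 := true) (s2 := false) (a := 0) (b := 3) (c := 3) (cn := .pnn) (n1 := ndF5q0) (n2 := ndF5q3) (pc := pcF3) (cut := Cut.none) (xt := Ext.none) (P1 := 0) (W1 := 536870912) (P2 := 0) (W2 := 1230186008) (P3 := 1046898278) (W3 := 26843546)
    rfl k0_pm_033

noncomputable def f_pm_101 : ℕ → ℕ → ℕ → ℕ → Bool := onCell 536870912 536870912 0 536870912 1046898278 26843546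
    (rowFX 2 true true false .npn 1 0 1 (qsf 536870912 469762048 0 536870912 1) ndF5q1 ndF5q0 pcF1 Cut.none Ext.none)

def k0_pm_101 : ∃ t, chk3 f_pm_101 t 1 1 1 = true :=
  ⟨(b (l 3) (l 3)), by decide +kernel⟩

theorem c_pm_101 : CertFX 536870912 469762048 0 536870912 1046898278 26843546 true true false .npn 1 0 1
    ndF5q1 ndF5q0 pcF1 Cut.none Ext.none :=
  certFX2 (fam := true) (s1 := true) (s2 := false) (a := 1) (b := 0) (c := 1) (cn := .npn) (n1 := ndF5q1) (n2 := ndF5q0) (pc := pcF1) (cut := Cut.none) (xt := Ext.none) (P1 := 536870912) (W1 := 469762048) (P2 := 0) (W2 := 536870912) (P3 := 1046898278) (W3 := 26843546)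
    rfl (fun _ => rfl) k0_pm_101

noncomputable def f_pm_102 : ℕ → ℕ → ℕ → ℕ → Bool := onCell 536870912 469762048 1073741824 536870912 1046898278 26843546
    (rowFX 1 true true false .npp 1 0 2 (qsf 536870912 469762048 0 536870912 2) ndF5q1 ndF5q0 pcF2 Cut.none Ext.none)

def k0_pm_102 : ∃ t, chk3 f_pm_102 t 1 1 1 = true :=
  ⟨(b (b (b (l 3) (a (l 3) (b (l 3) (a (l 3) (l 3))))) (b (a (a (l 2) (b (b (l 3) (b (l 3) (c (b (l 16777216) (b (l 16777216) (l 16777216))) (b (l 16777216) (b (l 16777216) (c (l 16777216) (l 16777216))))))) (l 16777216))) (a (b (b (l 3) (b (c (l 16737720) (l 16589896)) (b (c (l 16737720) (l 16610864)) (b (b (l 16737208) (c (l 16737120) (l 16736072))) (b (b (b (l 16736424) (b (l 16652272) (c (l 16736400) (l 16588520)))) (l 16735840)) (l 16735872)))))) (l 16736336)) (b (b (b (a (l 3) (a (l 3) (c (l 15230416) (l 15195832)))) (a (a (l 3) (l 16143272)) (a (l 15611336) (c (l 15195488) (l 15159920))))) (b (a (b (a (l 16515152) (l 16143272)) (a (l 16515152) (l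 16143272))) (c (b (l 15412576) (a (l 15646624) (l 15161384))) (b (l 15359392) (a (l 15617592) (l 15124824))))) (b (b (a (a (l 16515152) (l 16143272)) (a (l 15631080) (l 15131264))) (a (a (l 16515152) (l 16142200)) (a (c (l 15642480) (l 15613312)) (l 15122840)))) (a (b (a (b (l 16514576) (a (l 16550736) (l 16473928))) (b (l 16140032) (l 16136224))) (l 16323496)) (b (l 15243496) (a (l 15615920) (l 15108136))))))) (a (l 16325776) (l 15159200))))) (a (l 16777216) (a (l 16737136) (a (a (l 16514592) (l 16142600)) (a (l 15631144) (l 15128136))))))) (a (l 2) (a (l 16737208) (a (b (l 16332128) (l 16332128)) (b (a (l 15632304) (l 15129880)) (l 15382600)))))), by decide +kernel⟩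

theorem c_pm_102 : CertFX 536870912 469762048 0 536870912 1046898278 26843546 true true false .npp 1 0 2
    ndF5q1 ndF5q0 pcF2 Cut.none Ext.none :=
  certFX1 (fam := true) (s1 := true) (s2 := false) (a := 1) (b := 0) (c := 2) (cn := .npp) (n1 := ndF5q1) (n2 := ndF5q0) (pc := pcF2) (cut := Cut.none) (xt := Ext.none) (P1 := 536870912) (W1 := 469762048) (P2 := 0) (W2 := 536870912) (P3 := 1046898278) (W3 := 26843546)
    rfl (fun _ => rfl) k0_pm_102

noncomputable def f_pm_112 : ℕ → ℕ → ℕ → ℕ → Bool := onCell 536870912 469762048 1073741824 536870912 1046898278 26843546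
    (rowFX 1 true true false .dn 1 1 2 (qsf 536870912 469762048 536870912 469762048 2) ndF5q1 ndF5q1 pcF2 Cut.none Ext.none)

def k0_pm_112 : ∃ t, chk3 f_pm_112 t 1 1 1 = true :=
  ⟨(a (b (b (l 3) (b (b (b (l 3) (b (l 3) (a (b (l 3) (a (b (l 16777216) (c (l 16777216) (l 16777216))) (b (l 3) (l 16777216)))) (a (b (l 3) (b (l 16777216) (c (l 16777216) (l 16777216)))) (l 1))))) (l 16777216)) (l 16777216))) (b (a (a (l 16636624) (l 16761136)) (l 16777216)) (a (b (a (b (l 16183936) (l 15678504)) (l 16530568)) (a (b (l 15091024) (a (l 2) (l 14754304))) (a (l 15573856) (l 16043168)))) (a (l 16569952) (l 16745560))))) (b (b (l 1) (b (l 1) (a (l 16737136) (l 1)))) (a (l 16737200) (a (l 626560557191) (b (l 1) (l 15382600)))))), by decide +kernel⟩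

theorem c_pm_112 : CertFX 536870912 469762048 536870912 469762048 1046898278 26843546 true true false .dn 1 1 2
    ndF5q1 ndF5q1 pcF2 Cut.none Ext.none :=
  certFX1 (fam := true) (s1 := true) (s2 := false) (a := 1) (b := 1) (c := 2) (cn := .dn) (n1 := ndF5q1) (n2 := ndF5q1) (pc := pcF2) (cut := Cut.none) (xt := Ext.none) (P1 := 536870912) (W1 := 469762048) (P2 := 536870912) (W2 := 469762048) (P3 := 1046898278) (W3 := 26843546)
    rfl (fun _ => rfl) k0_pm_112

noncomputable def f_pm_113 : ℕ → ℕ → ℕ → ℕ → Bool := onCell 536870912 469762048 536870912 469762048 1046898278 26843546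
    (rowFX 0 true true false .nn 1 1 3 (qsf 536870912 469762048 536870912 469762048 3) ndF5q1 ndF5q1 pcF3 Cut.none Ext.none)

def k0_pm_113 : ∃ t, chk3 f_pm_113 t 1 1 1 = true :=
  ⟨(b (a (l 1) (a (l 16737208) (a (l 16332128) (l 15382600)))) (a (b (l 16737208) (b (l 16332128) (l 15382600))) (b (a (l 16698072) (l 15738632)) (a (l 15738632) (b (l 15450768) (l 14559504)))))), by decide +kernel⟩

theorem c_pm_113 : CertFX 536870912 469762048 536870912 469762048 1046898278 26843546 true true false .nn 1 1 3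
    ndF5q1 ndF5q1 pcF3 Cut.none Ext.none :=
  certFX0 (fam := true) (s1 := true) (s2 := false) (a := 1) (b := 1) (c := 3) (cn := .nn) (n1 := ndF5q1) (n2 := ndF5q1) (pc := pcF3) (cut := Cut.none) (xt := Ext.none) (P1 := 536870912) (W1 := 469762048) (P2 := 536870912) (W2 := 469762048) (P3 := 1046898278) (W3 := 26843546)
    rfl k0_pm_113

noncomputable def f_pm_123 : ℕ → ℕ → ℕ → ℕ → Bool := onCell 1610612736 536870912 1073741824 536870912 1046898278 26843546
    (rowFX 2 true true false .npn 1 2 3 (qsf 536870912 469762048 1073741824 536870912 3) ndF5q1 ndF5q2 pcF3 Cut.none Ext.none)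

def k0_pm_123 : ∃ t, chk3 f_pm_123 t 1 1 1 = true :=
  ⟨(a (b (b (a (a (l 15462520) (l 15441552)) (a (b (l 16025520) (l 15226904)) (a (l 15609328) (l 15525440)))) (a (b (a (l 1) (l 15167712)) (l 1)) (b (a (l 15104792) (b (l 14885272) (l 15602360))) (a (l 16585904) (c (l 16588360) (l 16583456)))))) (a (l 1) (a (l 1) (l 583612235735)))) (a (a (a (b (b (l 4) (b (l 6936603509511) (l 16585904))) (l 16777216)) (l 4)) (l 4)) (l 4))), by decide +kernel⟩

theorem c_pm_123 : CertFX 536870912 469762048 1073741824 536870912 1046898278 26843546 true true false .npn 1 2 3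
    ndF5q1 ndF5q2 pcF3 Cut.none Ext.none :=
  certFX2 (fam := true) (s1 := true) (s2 := false) (a := 1) (b := 2) (c := 3) (cn := .npn) (n1 := ndF5q1) (n2 := ndF5q2) (pc := pcF3) (cut := Cut.none) (xt := Ext.none) (P1 := 536870912) (W1 := 469762048) (P2 := 1073741824) (W2 := 536870912) (P3 := 1046898278) (W3 := 26843546)
    rfl (fun _ => rfl) k0_pm_123

noncomputable def f_pm_133 : ℕ → ℕ → ℕ → ℕ → Bool := onCell 536870912 469762048 0 1230186008 1046898278 26843546
    (rowFX 0 true true false .dn 1 3 3 (qsf 536870912 469762048 0 1230186008 3) ndF5q1 ndF5q3 pcF3 Cut.none Ext.none)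

def k0_pm_133 : ∃ t, chk3 f_pm_133 t 1 1 1 = true :=
  ⟨(b (l 2) (l 4)), by decide +kernel⟩

theorem c_pm_133 : CertFX 536870912 469762048 0 1230186008 1046898278 26843546 true true false .dn 1 3 3
    ndF5q1 ndF5q3 pcF3 Cut.none Ext.none :=
  certFX0 (fam := true) (s1 := true) (s2 := false) (a := 1) (b := 3) (c := 3) (cn := .dn) (n1 := ndF5q1) (n2 := ndF5q3) (pc := pcF3) (cut := Cut.none) (xt := Ext.none) (P1 := 536870912) (W1 := 469762048) (P2 := 0) (W2 := 1230186008) (P3 := 1046898278) (W3 := 26843546)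
    rfl k0_pm_133

noncomputable def f_pm_202 : ℕ → ℕ → ℕ → ℕ → Bool := onCell 1073741824 536870912 0 536870912 1046898278 26843546
    (rowFX 2 true true false .pp 2 0 2 (qsf 1073741824 536870912 0 536870912 2) ndF5q2 ndF5q0 pcF2 Cut.none Ext.none)

def k0_pm_202 : ∃ t, chk3 f_pm_202 t 16 4 1 = true :=
  ⟨(b (b (a (b (a (l 3) (a (l 3) (b (l 3) (b (l 3) (c (c (l 16374712) (l 16316240)) (c (l 16319368) (l 16350776))))))) (b (b (a (l 1) (a (l 1) (c (c (l 16289864) (l 622802521751)) (c (l 16298184) (l 16341632))))) (l 1)) (l 1))) (b (c (c (a (b (l 16370280) (b (a (l 16435256) (l 16446112)) (a (l 16385864) (l 16403232)))) (b (l 16381720) (b (l 16473344) (l 16415256)))) (b (a (a (l 16361024) (c (l 16441200) (l 16447704))) (l 16399152)) (a (c (b (l 16337960) (l 16349296)) (b (l 16398608) (l 16313416))) (b (l 16461144) (l 16408224))))) (c (b (b (a (l 16440488) (l 16416792)) (a (a (l 16388880) (l 16374160)) (b (l 16488600) (l 16475648)))) (a (c (l 16263160) (l 16321184)) (b (l 16448784)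 (l 16437120)))) (b (b (c (a (l 16444736) (b (l 16502304) (l 16493936))) (a (l 239074420023) (b (l 16462208) (l 16491424)))) (c (a (l 16429024) (l 16473960)) (l 16379096))) (a (l 16404736) (l 16446840))))) (b (c (a (c (a (b (l 16310288) (l 16239056)) (l 16251536)) (a (b (l 16271840) (l 16277880)) (l 16190872))) (c (a (l 16299224) (l 16353296)) (l 16371432))) (b (a (a (l 16353368) (l 16393264)) (l 16387096)) (a (a (l 16352720) (l 16390384)) (l 16424944)))) (a (a (l 1) (c (l 16245824) (l 16382496))) (c (l 16283864) (l 16439560)))))) (a (l 1) (a (l 1) (a (l 1) (b (c (l 16235128) (l 16337440)) (l 1)))))) (l 1)), by decide +kernel⟩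

def k1_pm_202 : ∃ t, chk3 f_pm_202 t 17 4 1 = true :=
  ⟨(a (b (a (b (c (b (b (l 16425248) (b (c (l 16537784) (l 16494264)) (c (l 16500136) (l 16480248)))) (b (l 16270896) (l 16408640))) (b (b (c (b (l 16559872) (l 16510272)) (b (c (l 16563984) (l 16503696)) (l 16547944))) (c (l 16432856) (l 16541208))) (l 16404704))) (b (c (a (l 16218920) (l 58551331959)) (l 16478328)) (l 1))) (b (b (c (b (c (l 16578912) (l 16610280)) (b (a (l 16578088) (l 16612608)) (l 16552480))) (b (c (b (l 16619760) (l 16612192)) (b (c (l 16624600) (l 16627704)) (l 16608896))) (c (l 16575456) (l 16600880)))) (c (c (l 16370112) (l 16487624)) (l 16578440))) (c (b (c (l 16462872) (l 16473088)) (c (l 16471776) (l 16467696))) (b (l 16510920) (l 16501600))))) (l 1)) (b (b (c (b (b (a (c (l 16642480) (l 16667448)) (l 16627120)) (c (a (l 16654832) (l 16644624)) (l 16572600))) (c (b (l 16390696) (l 16378856)) (l 16530520))) (b (b (b (a (c (l 16676512) (c (l 16682064) (l 16685640))) (c (l 16605240) (l 16598464)))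 (c (l 16665584) (l 16667144))) (c (l 16674104) (l 16685096))) (c (b (l 16673768) (l 16682232)) (l 16509200)))) (c (c (b (a (l 16531384) (l 16636856)) (a (l 16554032) (l 16671576))) (b (l 16627512) (c (l 16645208) (l 16647264)))) (b (a (l 16458616) (l 16524312)) (c (l 16425944) (l 16641704))))) (a (l 1) (b (b (c (c (l 16493536) (l 16594728)) (l 16676864)) (l 1)) (l 1))))), by decide +kernel⟩

def k2_pm_202 : ∃ t, chk3 f_pm_202 t 18 4 1 = true :=
  ⟨(b (b (c (b (a (b (l 16433856) (c (b (l 16444960) (l 16476672)) (l 16396408))) (b (l 16193824) (c (l 16196808) (l 16208144)))) (a (b (l 16375536) (l 16470216)) (b (l 16220592) (l 16182528)))) (b (a (b (c (b (l 16433648) (l 16443432)) (b (c (l 16426528) (l 16358960)) (l 16421320))) (c (l 16480544) (l 16454056))) (b (c (l 16175528) (b (l 16116920) (l 16171088))) (l 16091768))) (a (b (l 16485928) (c (l 16502816) (l 16408576))) (b (l 16200056) (c (l 16212208) (l 16136976)))))) (c (c (b (a (l 16601080) (l 16296904)) (a (l 16605208) (l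 16281464))) (a (b (l 16553312) (c (l 16585504) (l 16584488))) (b (l 16247216) (c (l 16255992) (l 16258408))))) (a (c (b (c (l 16534440) (l 16440120)) (a (l 16663752) (l 16501192))) (b (l 16388104) (l 16584528))) (c (b (c (l 16057536) (l 16135352)) (b (l 16069280) (l 16261992))) (b (l 16142608) (l 16248944)))))) (b (c (b (a (c (l 16405312) (c (l 16644656) (l 16643560))) (c (l 102574366759) (c (l 16301288) (l 16290880)))) (b (c (a (l 16541368) (l 16166240)) (l 16352264)) (a (l 1) (l 16340600)))) (a (b (l 16616416) (l 16692864)) (l 16133968))) (a (l 1) (c (b (l 16193432) (l 1)) (l 703870100295))))), by decide +kernel⟩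

def k3_pm_202 : ∃ t, chk3 f_pm_202 t 19 4 1 = true :=
  ⟨(b (b (b (a (c (b (l 15838288) (c (l 15709848) (l 15884760))) (b (c (l 15689352) (b (a (l 15953544) (l 15808184)) (l 15889168))) (c (l 15919816) (l 15888104)))) (c (b (l 15620264) (c (l 15607096) (l 15609520))) (b (c (l 15591672) (b (l 15573728) (l 15574520))) (l 15565808)))) (c (a (b (c (l 15754904) (l 15963992)) (a (l 16072472) (l 15903000))) (b (c (l 15662920) (l 15637928)) (l 15645512))) (a (c (a (b (l 15991032) (l 15995088)) (b (l 15831088) (l 15797840))) (a (c (l 15861344) (l 15970872)) (b (l 15797336) (l 15807056)))) (c (b (l 15581968) (l 15347400)) (b (l 15358168) (l 15553280)))))) (b (c (c (a (l 15985416) (l 15638024)) (b (l 15530864) (a (l 15926464) (l 15565488)))) (a (c (a (c (l 15939480) (l 15996728)) (l 15587704)) (c (l 15686072) (l 15897792))) (c (c (l 15350904) (l 15570336)) (l 15555944)))) (c (c (a (l 15757872) (l 15581208)) (a (c (l 15924488) (l 15761992)) (c (l 15566760) (b (l 15565832) (l 15560344)))))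 (c (a (a (l 15830280) (l 15862352)) (l 15396400)) (l 15720232))))) (b (c (a (c (b (a (l 15937752) (l 15862936)) (c (l 146597172279) (l 15968104))) (b (c (l 15847504) (l 15939000)) (l 15960104))) (c (b (c (l 15584248) (l 15586216)) (l 15587064)) (l 15568704))) (a (b (l 15925904) (l 15944096)) (l 15545472))) (c (a (b (l 364029969671) (l 707090655703)) (b (l 15598896) (l 15664024))) (a (l 439191931815) (l 15599216))))), by decide +kernel⟩

def k4_pm_202 : ∃ t, chk3 f_pm_202 t 4 5 1 = true :=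
  ⟨(a (l 1) (a (l 1) (a (l 1) (b (b (c (l 733396765431) (l 15775184)) (l 1)) (l 1))))), by decide +kernel⟩

def k5_pm_202 : ∃ t, chk3 f_pm_202 t 4 3 1 = true :=
  ⟨(l 1), by decide +kernel⟩

def k6_pm_202 : ∃ t, chk3 f_pm_202 t 40 4 1 = true :=
  ⟨(b (b (c (b (b (l 15303928) (b (l 15281224) (c (l 15284552) (l 15297632)))) (b (c (l 15340840) (l 15312304)) (l 15141568))) (b (b (c (l 15269544) (b (l 15123600) (l 15246448))) (a (l 15338688) (c (l 15178712) (l 15133224)))) (c (b (b (l 15256792) (l 15237600)) (c (l 15230872) (l 15203600))) (b (b (l 15215792) (l 15208840)) (l 15223216))))) (c (c (b (l 15292896) (c (l 15239568) (l 15219304))) (b (c (l 15240568) (l 15213088)) (c (l 15215400) (b (l 15212984) (l 15196080))))) (c (b (c (c (l 15209584) (l 15233640)) (l 15229224)) (l 15185424)) (l 15175448)))) (b (c (c (b (c (l 15225280) (l 15217560)) (l 15208680)) (l 15191048)) (l 15160504)) (c (c (l 15243304) (l 15222352)) (l 15190928)))), by decide +kernel⟩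

def k7_pm_202 : ∃ t, chk3 f_pm_202 t 41 4 1 = true :=
  ⟨(b (b (b (b (a (c (l 15151664) (c (l 15072712) (b (l 15122104) (l 15035240)))) (a (c (l 15203376) (c (l 15167656) (l 15143720))) (a (c (l 15302048) (c (l 15268472) (l 15245960))) (c (l 15378536) (c (l 15283704) (b (l 15267568) (l 15255840))))))) (a (c (b (l 15045176) (l 15048880)) (c (l 15023544) (l 14893400))) (a (c (b (l 14987592) (l 14952200)) (c (l 14958472) (a (l 14895504) (l 14914008)))) (b (c (a (l 15069544) (b (l 15136304) (l 15010752))) (a (c (l 15057440) (l 15010216)) (c (l 15139592) (l 15093928)))) (c (l 14995280) (c (l 14975552) (l 14921216))))))) (c (c (a (l 15099312) (l 15012520)) (a (l 15053648) (l 14966976))) (a (c (b (l 14990296) (l 14991424)) (l 14968328)) (c (a (a (l 14893504) (l 14888704)) (l 14898568)) (a (l 14882952) (l 14886552)))))) (b (c (c (a (l 15069744) (l 15002248)) (a (c (l 15012768) (l 14992872)) (c (l 14946032) (l 14929408)))) (c (a (c (l 15012944) (l 15000352)) (c (l 14942720) (l 14902960)))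 (l 14919336))) (c (c (a (l 14933248) (c (l 14980072) (l 14966464))) (c (a (l 15003584) (l 14954088)) (l 14958488))) (l 14930208)))) (b (c (c (b (b (a (l 15019280) (l 14982528)) (l 14995232)) (l 15004576)) (l 14975984)) (a (l 14953256) (l 14931424))) (c (a (c (l 15056856) (l 15033584)) (c (l 15067736) (l 15044792))) (a (l 14998672) (l 15010376))))), by decide +kernel⟩

def k8_pm_202 : ∃ t, chk3 f_pm_202 t 21 4 1 = true :=
  ⟨(b (b (c (b (b (a (l 15562800) (l 16026008)) (a (c (l 15419160) (l 15417544)) (c (l 15850280) (l 15940248)))) (a (c (b (l 15169984) (l 15107008)) (b (l 15204480) (l 15037808))) (c (l 15454272) (b (l 15771232) (l 15484976))))) (b (b (a (b (l 15664720) (c (l 15595104) (l 15496920))) (c (b (l 16306872) (l 16160400)) (b (a (l 16067752) (l 16419704)) (l 16012816)))) (a (c (l 15151376) (l 15332152)) (c (l 15758072) (l 15853176)))) (a (a (b (c (l 14920992) (l 14991152)) (l 14929312)) (b (l 15253992) (c (l 15048328) (l 15005344)))) (c (l 15342232) (l 15527856)))))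 (b (a (c (c (l 15025896) (c (l 14981712) (l 14986192))) (c (l 14964088) (l 14920248))) (c (c (b (l 15293728) (l 15136768)) (a (b (l 15099544) (l 15049024)) (b (l 15360072) (l 15161912)))) (a (l 15029928) (l 15218584)))) (c (c (a (l 15021624) (l 15091368)) (a (l 15020392) (l 15053560))) (l 14985920)))) (b (c (a (c (b (l 15038272) (l 15063072)) (l 15026048)) (l 15123376)) (l 14910928)) (c (a (l 15134560) (l 15243768)) (l 15147112)))), by decide +kernel⟩

def k9_pm_202 : ∃ t, chk3 f_pm_202 t 10 5 1 = true :=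
  ⟨(a (b (a (b (c (c (l 475697870775) (l 15350640)) (l 15317072)) (l 1)) (b (c (a (l 15119240) (l 15221384)) (a (l 15135840) (l 15177288))) (a (l 1) (c (b (l 15378496) (l 1)) (l 913247773303))))) (l 1)) (b (b (c (a (l 15314880) (l 15442344)) (l 15339952)) (c (a (b (l 15469000) (l 15637552)) (b (l 15611664) (l 15756032))) (a (l 646423074343) (l 15654520)))) (b (l 900363809783) (l 1)))), by decide +kernel⟩

def k10_pm_202 : ∃ t, chk3 f_pm_202 t 11 2 1 = true :=
  ⟨(b (a (b (b (b (c (a (b (a (l 16215688) (l 15921288)) (c (l 16264376) (l 16325840))) (b (l 15488280) (c (l 15762792) (l 15731720)))) (b (a (c (l 15909936) (b (l 15920408) (l 16130576))) (c (l 15476792) (l 15466224))) (a (c (l 16319600) (l 16338088)) (l 15629592)))) (c (a (c (b (l 16371736) (l 16146176)) (b (l 16359160) (l 16089352))) (c (b (l 15933856) (l 16156600)) (a (l 16226168) (l 15926400)))) (a (c (l 15976760) (l 16100976)) (l 15903776)))) (a (b (c (a (l 15327520) (c (l 15896752) (l 15868088))) (l 15646968)) (c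 (c (b (l 15260952) (l 15221848)) (l 15290440)) (a (l 15138888) (l 15338408)))) (c (b (a (l 16092848) (l 16347888)) (l 15620904)) (b (l 16181880) (l 15740936))))) (b (a (c (l 15216416) (l 15178664)) (b (c (a (l 15317192) (l 15520696)) (l 15287168)) (l 15331528))) (c (a (l 15357176) (l 15475424)) (l 15382176)))) (b (b (b (c (a (b (a (l 15132608) (l 15074776)) (c (l 15307624) (l 15268208))) (l 14940096)) (a (b (c (l 15091360) (l 15077424)) (l 15221920)) (b (l 15042544) (l 15107320)))) (c (a (c (l 15357720) (l 15585520)) (b (l 15216776) (l 15373264))) (a (l 15614216) (l 15338832)))) (c (b (a (b (l 15918568) (l 16220896)) (l 15749616)) (a (l 16294840) (l 16249720))) (b (l 15796848) (l 16216960)))) (b (b (a (c (l 15867360) (l 15848680)) (l 16241344)) (a (c (a (l 15436880) (l 15502480)) (l 15464840)) (l 15749032))) (a (c (l 15465536) (l 15434480)) (b (l 15269760) (l 15317272)))))) (b (b (a (c (a (l 15572536) (l 15704872)) (l 15567184)) (c (a (l 15697312) (l 15502472)) (l 15570784)))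 (a (b (a (l 15639440) (l 15888064)) (l 15961336)) (l 15837888))) (a (b (l 16166208) (l 1158062845015)) (b (l 16110704) (l 16477200))))), by decide +kernel⟩

def k11_pm_202 : ∃ t, chk3 f_pm_202 t 5 3 1 = true :=
  ⟨(a (l 1) (b (a (l 1) (b (l 598106405863) (l 1))) (l 1))), by decide +kernel⟩

def k12_pm_202 : ∃ t, chk3 f_pm_202 t 3 1 1 = true :=
  ⟨(b (b (a (b (b (c (a (b (b (l 15073704) (l 15153280)) (l 15223392)) (b (a (l 15107344) (l 15107344)) (l 15223200))) (a (b (c (l 15086032) (l 15074912)) (l 15241176)) (c (l 15162528) (l 15154424)))) (a (a (c (b (l 15464040) (l 15603808)) (b (l 15475568) (l 15800888))) (l 15491080)) (a (l 15365016) (l 15490848)))) (a (b (a (b (l 16103320) (l 16156616)) (b (l 15788296) (a (l 16216560) (l 15991840)))) (a (a (b (l 15647792) (l 15298992)) (l 15727376)) (b (l 16489272) (l 16163528)))) (a (b (l 15834080) (l 16249400)) (l 15967696)))) (b (b (b (c (l 15107344) (a (l 15079184) (l 15079184))) (c (l 15223200) (l 15240976))) (a (l 15490848) (l 15490848)))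 (b (l 15833864) (l 16113256)))) (a (a (b (a (b (a (l 15298024) (l 15227208)) (l 15436400)) (b (a (l 15358512) (l 15678072)) (l 15153848))) (b (l 15488264) (l 15812976))) (b (a (b (l 16238840) (a (l 15232288) (l 15558456))) (b (l 16436320) (l 16150376))) (a (b (l 15028624) (l 15227000)) (b (l 15203048) (l 14965048))))) (b (a (b (l 16315768) (l 16403632)) (l 16410784)) (a (b (a (l 16051976) (l 16627232)) (a (l 15251672) (l 16003128))) (b (l 16683592) (l 16653120)))))) (a (b (a (b (a (l 16548592) (l 16247456)) (l 708164502519)) (b (l 15441552) (a (l 16716368) (l 16247456)))) (a (l 1) (b (l 933650501831) (l 1)))) (b (a (b (a (b (l 14964960) (l 15226904)) (b (l 15251592) (l 14964960))) (l 15609328)) (b (a (b (l 16003056) (l 15251592)) (b (l 16585904) (l 16003056))) (a (l 15087328) (b (l 15251592) (l 14964960))))) (a (b (l 16477848) (l 977136923815)) (b (l 15609328) (l 16477848)))))), by decide +kernel⟩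

theorem s13_pm_202 : ∃ t, chk3 f_pm_202 t 20 4 1 = true := ex3_a k6_pm_202 k7_pm_202

theorem s14_pm_202 : ∃ t, chk3 f_pm_202 t 10 4 1 = true := ex3_a s13_pm_202 k8_pm_202

theorem s15_pm_202 : ∃ t, chk3 f_pm_202 t 10 2 1 = true := ex3_b s14_pm_202 k9_pm_202

theorem s16_pm_202 : ∃ t, chk3 f_pm_202 t 5 2 1 = true := ex3_a s15_pm_202 k10_pm_202

theorem s17_pm_202 : ∃ t, chk3 f_pm_202 t 5 1 1 = true := ex3_b s16_pm_202 k11_pm_202

theorem s18_pm_202 : ∃ t, chk3 f_pm_202 t 9 4 1 = true := ex3_a k2_pm_202 k3_pm_202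

theorem s19_pm_202 : ∃ t, chk3 f_pm_202 t 8 4 1 = true := ex3_a k0_pm_202 k1_pm_202

theorem s20_pm_202 : ∃ t, chk3 f_pm_202 t 4 4 1 = true := ex3_a s19_pm_202 s18_pm_202

theorem s21_pm_202 : ∃ t, chk3 f_pm_202 t 4 2 1 = true := ex3_b s20_pm_202 k4_pm_202

theorem s22_pm_202 : ∃ t, chk3 f_pm_202 t 4 1 1 = true := ex3_b s21_pm_202 k5_pm_202

theorem s23_pm_202 : ∃ t, chk3 f_pm_202 t 2 1 1 = true := ex3_a s22_pm_202 s17_pm_202

theorem s24_pm_202 : ∃ t, chk3 f_pm_202 t 1 1 1 = true := ex3_a s23_pm_202 k12_pm_202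

theorem c_pm_202 : CertFX 1073741824 536870912 0 536870912 1046898278 26843546 true true false .pp 2 0 2
    ndF5q2 ndF5q0 pcF2 Cut.none Ext.none :=
  certFX2 (fam := true) (s1 := true) (s2 := false) (a := 2) (b := 0) (c := 2) (cn := .pp) (n1 := ndF5q2) (n2 := ndF5q0) (pc := pcF2) (cut := Cut.none) (xt := Ext.none) (P1 := 1073741824) (W1 := 536870912) (P2 := 0) (W2 := 536870912) (P3 := 1046898278) (W3 := 26843546)
    rfl (fun _ => rfl) s24_pm_202

noncomputable def f_pm_203 : ℕ → ℕ → ℕ → ℕ → Bool := onCell 1073741824 536870912 1610612736 536870912 1046898278 26843546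
    (rowFX 1 true true false .up 2 0 3 (qsf 1073741824 536870912 0 536870912 3) ndF5q2 ndF5q0 pcF3 Cut.none Ext.none)

def k0_pm_203 : ∃ t, chk3 f_pm_203 t 1 1 1 = true :=
  ⟨(b (a (a (b (b (l 15525440) (l 15441552)) (b (l 147737324999) (l 2))) (b (a (b (l 15251592) (l 15251592)) (b (l 16585904) (l 16585904))) (a (b (l 15104792) (c (l 15250184) (l 15232040))) (b (l 16585904) (c (l 16588360) (l 16583456)))))) (b (a (b (l 16610160) (l 16762616)) (b (a (b (l 16064800) (l 16310512)) (b (a (l 15658672) (b (a (l 15276208) (l 14923144)) (l 15421112))) (l 15714040))) (a (l 16555552) (b (l 16064800) (l 16310512))))) (b (a (l 16777216) (a (l 16754648) (l 16555552))) (a (l 16777216) (l 16762616))))) (b (b (b (a (a (l 2) (a (l 2) (l 16585904))) (l 16777216)) (l 4)) (l 4)) (l 4))), by decide +kernel⟩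

theorem c_pm_203 : CertFX 1073741824 536870912 0 536870912 1046898278 26843546 true true false .up 2 0 3
    ndF5q2 ndF5q0 pcF3 Cut.none Ext.none :=
  certFX1 (fam := true) (s1 := true) (s2 := false) (a := 2) (b := 0) (c := 3) (cn := .up) (n1 := ndF5q2) (n2 := ndF5q0) (pc := pcF3) (cut := Cut.none) (xt := Ext.none) (P1 := 1073741824) (W1 := 536870912) (P2 := 0) (W2 := 536870912) (P3 := 1046898278) (W3 := 26843546)
    rfl (fun _ => rfl) k0_pm_203

noncomputable def f_pm_213 : ℕ → ℕ → ℕ → ℕ → Bool := onCell 1073741824 536870912 1610612736 536870912 1046898278 26843546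
    (rowFX 1 true true false .pnn 2 1 3 (qsf 1073741824 536870912 536870912 469762048 3) ndF5q2 ndF5q1 pcF3 Cut.none Ext.none)

def k0_pm_213 : ∃ t, chk3 f_pm_213 t 1 1 1 = true :=
  ⟨(b (a (a (b (b (l 15462520) (l 15441552)) (b (a (l 16025520) (l 15226904)) (b (l 15609328) (l 15525440)))) (b (a (b (l 1) (l 15167712)) (l 1)) (a (b (l 15104792) (a (l 14885272) (l 15602360))) (b (l 16585904) (c (l 16588360) (l 16583456)))))) (b (l 1) (b (l 1) (l 583612235735)))) (b (b (b (a (a (l 4) (a (l 6936603509511) (l 16585904))) (l 16777216)) (l 4)) (l 4)) (l 4))), by decide +kernel⟩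

theorem c_pm_213 : CertFX 1073741824 536870912 536870912 469762048 1046898278 26843546 true true false .pnn 2 1 3
    ndF5q2 ndF5q1 pcF3 Cut.none Ext.none :=
  certFX1 (fam := true) (s1 := true) (s2 := false) (a := 2) (b := 1) (c := 3) (cn := .pnn) (n1 := ndF5q2) (n2 := ndF5q1) (pc := pcF3) (cut := Cut.none) (xt := Ext.none) (P1 := 1073741824) (W1 := 536870912) (P2 := 536870912) (W2 := 469762048) (P3 := 1046898278) (W3 := 26843546)
    rfl (fun _ => rfl) k0_pm_213

noncomputable def f_pm_303 : ℕ → ℕ → ℕ → ℕ → Bool := onCell 0 1230186008 0 536870912 1046898278 26843546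
    (rowFX 0 true true false .npn 3 0 3 (qsf 0 1230186008 0 536870912 3) ndF5q3 ndF5q0 pcF3 Cut.none Ext.none)

def k0_pm_303 : ∃ t, chk3 f_pm_303 t 1 1 1 = true :=
  ⟨(a (l 4) (a (b (b (b (a (l 4) (a (b (l 4) (l 4)) (b (c (b (a (l 15107344) (l 15107344)) (a (l 15223200) (l 15223200))) (c (b (l 15086032) (l 15245024)) (b (l 15074912) (l 15241792)))) (a (l 4) (c (l 15496128) (l 15493760)))))) (l 4)) (l 4)) (l 4)) (b (a (b (b (c (b (a (b (l 15107344) (l 15223200)) (b (l 15107344) (l 15223200))) (a (a (l 15496120) (l 15496128)) (l 15496128))) (a (b (c (l 15057672) (l 15154424)) (a (l 15493760) (l 15493760))) (b (b (l 15016272) (l 15240976)) (l 15493760)))) (b (a (a (l 4) (b (l 15754248) (l 15891168))) (c (l 15844976) (l 15799352))) (a (l 4) (c (a (l 16121768) (l 16121768)) (a (l 16104736) (l 16104744)))))) (b (a (l 4) (a (l 4) (a (l 4) (b (l 16315664) (l 4))))) (l 4))) (a (b (c (b (b (l 15112208) (l 15496128)) (b (l 15844976) (l 16121768))) (b (b (l 14946056) (l 15493760)) (b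 (l 15820328) (l 16104744)))) (b (c (c (l 16417824) (l 16329240)) (c (a (l 16408424) (l 16408432)) (a (l 16403728) (l 16403736)))) (a (l 4) (c (l 144652794791) (b (l 16682320) (l 4)))))) (b (b (b (c (l 15154152) (l 15071888)) (l 15490848)) (b (l 15833864) (l 16113256))) (b (a (b (l 16315664) (l 16504328)) (b (l 16315664) (l 16504328))) (c (c (l 16731744) (l 16731152)) (c (l 20635704103) (b (l 16681720) (l 16777072)))))))) (a (l 4) (b (a (l 4) (a (l 4) (b (c (l 16777200) (l 125862673751)) (l 4)))) (l 4)))))), by decide +kernel⟩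

theorem c_pm_303 : CertFX 0 1230186008 0 536870912 1046898278 26843546 true true false .npn 3 0 3
    ndF5q3 ndF5q0 pcF3 Cut.none Ext.none :=
  certFX0 (fam := true) (s1 := true) (s2 := false) (a := 3) (b := 0) (c := 3) (cn := .npn) (n1 := ndF5q3) (n2 := ndF5q0) (pc := pcF3) (cut := Cut.none) (xt := Ext.none) (P1 := 0) (W1 := 1230186008) (P2 := 0) (W2 := 536870912) (P3 := 1046898278) (W3 := 26843546)
    rfl k0_pm_303

noncomputable def f_pm_313 : ℕ → ℕ → ℕ → ℕ → Bool := onCell 0 1230186008 536870912 469762048 1046898278 26843546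
    (rowFX 0 true true false .dn 3 1 3 (qsf 0 1230186008 536870912 469762048 3) ndF5q3 ndF5q1 pcF3 Cut.none Ext.none)

def k0_pm_313 : ∃ t, chk3 f_pm_313 t 1 1 1 = true :=
  ⟨(a (l 2) (l 4)), by decide +kernel⟩

theorem c_pm_313 : CertFX 0 1230186008 536870912 469762048 1046898278 26843546 true true false .dn 3 1 3
    ndF5q3 ndF5q1 pcF3 Cut.none Ext.none :=
  certFX0 (fam := true) (s1 := true) (s2 := false) (a := 3) (b := 1) (c := 3) (cn := .dn) (n1 := ndF5q3) (n2 := ndF5q1) (pc := pcF3) (cut := Cut.none) (xt := Ext.none) (P1 := 0) (W1 := 1230186008) (P2 := 536870912) (W2 := 469762048) (P3 := 1046898278) (W3 := 26843546)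
    rfl k0_pm_313

noncomputable def f_mm_001 : ℕ → ℕ → ℕ → ℕ → Bool := onCell 0 536870912 0 536870912 1046898278 26843546
    (rowFX 0 true false false .up 0 0 1 (qsf 0 536870912 0 536870912 1) ndF5q0 ndF5q0 pcF1 Cut.none Ext.none)

def k0_mm_001 : ∃ t, chk3 f_mm_001 t 1 1 1 = true :=
  ⟨(l 4), by decide +kernel⟩

theorem c_mm_001 : CertFX 0 536870912 0 536870912 1046898278 26843546 true false false .up 0 0 1
    ndF5q0 ndF5q0 pcF1 Cut.none Ext.none :=
  certFX0 (fam := true) (s1 := false) (s2 := false) (a := 0) (b := 0) (c := 1) (cn := .up) (n1 := ndF5q0) (n2 := ndF5q0) (pc := pcF1) (cut := Cut.none) (xt := Ext.none) (P1 := 0) (W1 := 536870912) (P2 := 0) (W2 := 536870912) (P3 := 1046898278) (W3 := 26843546)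
    rfl k0_mm_001

noncomputable def f_mm_011 : ℕ → ℕ → ℕ → ℕ → Bool := onCell 0 536870912 536870912 469762048 1046898278 26843546
    (rowFX 0 true false false .pnn 0 1 1 (qsf 0 536870912 536870912 469762048 1) ndF5q0 ndF5q1 pcF1 Cut.none Ext.none)

def k0_mm_011 : ∃ t, chk3 f_mm_011 t 1 1 1 = true :=
  ⟨(l 4), by decide +kernel⟩

theorem c_mm_011 : CertFX 0 536870912 536870912 469762048 1046898278 26843546 true false false .pnn 0 1 1
    ndF5q0 ndF5q1 pcF1 Cut.none Ext.none :=
  certFX0 (fam := true) (s1 := false) (s2 := false) (a := 0) (b := 1) (c := 1) (cn := .pnn) (n1 := ndF5q0) (n2 := ndF5q1) (pc := pcF1) (cut := Cut.none) (xt := Ext.none) (P1 := 0) (W1 := 536870912) (P2 := 536870912) (W2 := 469762048) (P3 := 1046898278) (W3 := 26843546)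
    rfl k0_mm_011

noncomputable def f_mm_012 : ℕ → ℕ → ℕ → ℕ → Bool := onCell 0 536870912 536870912 469762048 1046898278 26843546
    (rowFX 0 true false false .pnp 0 1 2 (qsf 0 536870912 536870912 469762048 2) ndF5q0 ndF5q1 pcF2 Cut.none Ext.none)

def k0_mm_012 : ∃ t, chk3 f_mm_012 t 1 1 1 = true :=
  ⟨(l 4), by decide +kernel⟩

theorem c_mm_012 : CertFX 0 536870912 536870912 469762048 1046898278 26843546 true false false .pnp 0 1 2
    ndF5q0 ndF5q1 pcF2 Cut.none Ext.none :=
  certFX0 (fam := true) (s1 := false) (s2 := false) (a := 0) (b := 1) (c := 2) (cn := .pnp) (n1 := ndF5q0) (n2 := ndF5q1) (pc := pcF2) (cut := Cut.none) (xt := Ext.none) (P1 := 0) (W1 := 536870912) (P2 := 536870912) (W2 := 469762048) (P3 := 1046898278) (W3 := 26843546)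
    rfl k0_mm_012

noncomputable def f_mm_022 : ℕ → ℕ → ℕ → ℕ → Bool := onCell 0 536870912 1073741824 536870912 1046898278 26843546
    (rowFX 0 true false false .pp 0 2 2 (qsf 0 536870912 1073741824 536870912 2) ndF5q0 ndF5q2 pcF2 Cut.none Ext.none)

def k0_mm_022 : ∃ t, chk3 f_mm_022 t 1 1 1 = true :=
  ⟨(l 4), by decide +kernel⟩

theorem c_mm_022 : CertFX 0 536870912 1073741824 536870912 1046898278 26843546 true false false .pp 0 2 2
    ndF5q0 ndF5q2 pcF2 Cut.none Ext.none :=
  certFX0 (fam := true) (s1 := false) (s2 := false) (a := 0) (b := 2) (c := 2) (cn := .pp) (n1 := ndF5q0) (n2 := ndF5q2) (pc := pcF2) (cut := Cut.none) (xt := Ext.none) (P1 := 0) (W1 := 536870912) (P2 := 1073741824) (W2 := 536870912) (P3 := 1046898278) (W3 := 26843546)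
    rfl k0_mm_022

noncomputable def f_mm_023 : ℕ → ℕ → ℕ → ℕ → Bool := onCell 0 536870912 1073741824 536870912 1046898278 26843546
    (rowFX 0 true false false .up 0 2 3 (qsf 0 536870912 1073741824 536870912 3) ndF5q0 ndF5q2 pcF3 Cut.none Ext.none)

def k0_mm_023 : ∃ t, chk3 f_mm_023 t 1 1 1 = true :=
  ⟨(l 4), by decide +kernel⟩

theorem c_mm_023 : CertFX 0 536870912 1073741824 536870912 1046898278 26843546 true false false .up 0 2 3
    ndF5q0 ndF5q2 pcF3 Cut.none Ext.none :=
  certFX0 (fam := true) (s1 := false) (s2 := false) (a := 0) (b := 2) (c := 3) (cn := .up) (n1 := ndF5q0) (n2 := ndF5q2) (pc := pcF3) (cut := Cut.none) (xt := Ext.none) (P1 := 0) (W1 := 536870912) (P2 := 1073741824) (W2 := 536870912) (P3 := 1046898278) (W3 := 26843546)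
    rfl k0_mm_023

noncomputable def f_mm_033 : ℕ → ℕ → ℕ → ℕ → Bool := onCell 0 536870912 0 1230186008 1046898278 26843546
    (rowFX 0 true false false .pnn 0 3 3 (qsf 0 536870912 0 1230186008 3) ndF5q0 ndF5q3 pcF3 Cut.none Ext.none)

def k0_mm_033 : ∃ t, chk3 f_mm_033 t 1 1 1 = true :=
  ⟨(l 5), by decide +kernel⟩

theorem c_mm_033 : CertFX 0 536870912 0 1230186008 1046898278 26843546 true false false .pnn 0 3 3
    ndF5q0 ndF5q3 pcF3 Cut.none Ext.none :=
  certFX0 (fam := true) (s1 := false) (s2 := false) (a := 0) (b := 3) (c := 3) (cn := .pnn) (n1 := ndF5q0) (n2 := ndF5q3) (pc := pcF3) (cut := Cut.none) (xt := Ext.none) (P1 := 0) (W1 := 536870912) (P2 := 0) (W2 := 1230186008) (P3 := 1046898278) (W3 := 26843546)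
    rfl k0_mm_033

noncomputable def f_mm_101 : ℕ → ℕ → ℕ → ℕ → Bool := onCell 536870912 469762048 0 536870912 1046898278 26843546
    (rowFX 0 true false false .npn 1 0 1 (qsf 536870912 469762048 0 536870912 1) ndF5q1 ndF5q0 pcF1 Cut.none Ext.none)

def k0_mm_101 : ∃ t, chk3 f_mm_101 t 1 1 1 = true :=
  ⟨(l 4), by decide +kernel⟩

theorem c_mm_101 : CertFX 536870912 469762048 0 536870912 1046898278 26843546 true false false .npn 1 0 1
    ndF5q1 ndF5q0 pcF1 Cut.none Ext.none :=
  certFX0 (fam := true) (s1 := false) (s2 := false) (a := 1) (b := 0) (c := 1) (cn := .npn) (n1 := ndF5q1) (n2 := ndF5q0) (pc := pcF1) (cut := Cut.none) (xt := Ext.none) (P1 := 536870912) (W1 := 469762048) (P2 := 0) (W2 := 536870912) (P3 := 1046898278) (W3 := 26843546)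
    rfl k0_mm_101

noncomputable def f_mm_102 : ℕ → ℕ → ℕ → ℕ → Bool := onCell 536870912 469762048 0 536870912 1046898278 26843546
    (rowFX 0 true false false .npp 1 0 2 (qsf 536870912 469762048 0 536870912 2) ndF5q1 ndF5q0 pcF2 Cut.none Ext.none)

def k0_mm_102 : ∃ t, chk3 f_mm_102 t 1 1 1 = true :=
  ⟨(l 4), by decide +kernel⟩

theorem c_mm_102 : CertFX 536870912 469762048 0 536870912 1046898278 26843546 true false false .npp 1 0 2
    ndF5q1 ndF5q0 pcF2 Cut.none Ext.none :=
  certFX0 (fam := true) (s1 := false) (s2 := false) (a := 1) (b := 0) (c := 2) (cn := .npp) (n1 := ndF5q1) (n2 := ndF5q0) (pc := pcF2) (cut := Cut.none) (xt := Ext.none) (P1 := 536870912) (W1 := 469762048) (P2 := 0) (W2 := 536870912) (P3 := 1046898278) (W3 := 26843546)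
    rfl k0_mm_102

noncomputable def f_mm_112 : ℕ → ℕ → ℕ → ℕ → Bool := onCell 536870912 469762048 536870912 469762048 1046898278 26843546
    (rowFX 0 true false false .dn 1 1 2 (qsf 536870912 469762048 536870912 469762048 2) ndF5q1 ndF5q1 pcF2 Cut.none Ext.none)

def k0_mm_112 : ∃ t, chk3 f_mm_112 t 1 1 1 = true :=
  ⟨(l 4), by decide +kernel⟩

theorem c_mm_112 : CertFX 536870912 469762048 536870912 469762048 1046898278 26843546 true false false .dn 1 1 2
    ndF5q1 ndF5q1 pcF2 Cut.none Ext.none :=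
  certFX0 (fam := true) (s1 := false) (s2 := false) (a := 1) (b := 1) (c := 2) (cn := .dn) (n1 := ndF5q1) (n2 := ndF5q1) (pc := pcF2) (cut := Cut.none) (xt := Ext.none) (P1 := 536870912) (W1 := 469762048) (P2 := 536870912) (W2 := 469762048) (P3 := 1046898278) (W3 := 26843546)
    rfl k0_mm_112

noncomputable def f_mm_113 : ℕ → ℕ → ℕ → ℕ → Bool := onCell 536870912 469762048 536870912 469762048 1046898278 26843546
    (rowFX 0 true false false .nn 1 1 3 (qsf 536870912 469762048 536870912 469762048 3) ndF5q1 ndF5q1 pcF3 Cut.none Ext.none)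

def k0_mm_113 : ∃ t, chk3 f_mm_113 t 1 1 1 = true :=
  ⟨(l 4), by decide +kernel⟩

theorem c_mm_113 : CertFX 536870912 469762048 536870912 469762048 1046898278 26843546 true false false .nn 1 1 3
    ndF5q1 ndF5q1 pcF3 Cut.none Ext.none :=
  certFX0 (fam := true) (s1 := false) (s2 := false) (a := 1) (b := 1) (c := 3) (cn := .nn) (n1 := ndF5q1) (n2 := ndF5q1) (pc := pcF3) (cut := Cut.none) (xt := Ext.none) (P1 := 536870912) (W1 := 469762048) (P2 := 536870912) (W2 := 469762048) (P3 := 1046898278) (W3 := 26843546)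
    rfl k0_mm_113

noncomputable def f_mm_123 : ℕ → ℕ → ℕ → ℕ → Bool := onCell 536870912 469762048 1073741824 536870912 1046898278 26843546
    (rowFX 0 true false false .npn 1 2 3 (qsf 536870912 469762048 1073741824 536870912 3) ndF5q1 ndF5q2 pcF3 Cut.none Ext.none)

def k0_mm_123 : ∃ t, chk3 f_mm_123 t 1 1 1 = true :=
  ⟨(l 4), by decide +kernel⟩

theorem c_mm_123 : CertFX 536870912 469762048 1073741824 536870912 1046898278 26843546 true false false .npn 1 2 3
    ndF5q1 ndF5q2 pcF3 Cut.none Ext.none :=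
  certFX0 (fam := true) (s1 := false) (s2 := false) (a := 1) (b := 2) (c := 3) (cn := .npn) (n1 := ndF5q1) (n2 := ndF5q2) (pc := pcF3) (cut := Cut.none) (xt := Ext.none) (P1 := 536870912) (W1 := 469762048) (P2 := 1073741824) (W2 := 536870912) (P3 := 1046898278) (W3 := 26843546)
    rfl k0_mm_123

noncomputable def f_mm_133 : ℕ → ℕ → ℕ → ℕ → Bool := onCell 536870912 469762048 0 1230186008 1046898278 26843546
    (rowFX 0 true false false .dn 1 3 3 (qsf 536870912 469762048 0 1230186008 3) ndF5q1 ndF5q3 pcF3 Cut.none Ext.none)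

def k0_mm_133 : ∃ t, chk3 f_mm_133 t 1 1 1 = true :=
  ⟨(l 4), by decide +kernel⟩

theorem c_mm_133 : CertFX 536870912 469762048 0 1230186008 1046898278 26843546 true false false .dn 1 3 3
    ndF5q1 ndF5q3 pcF3 Cut.none Ext.none :=
  certFX0 (fam := true) (s1 := false) (s2 := false) (a := 1) (b := 3) (c := 3) (cn := .dn) (n1 := ndF5q1) (n2 := ndF5q3) (pc := pcF3) (cut := Cut.none) (xt := Ext.none) (P1 := 536870912) (W1 := 469762048) (P2 := 0) (W2 := 1230186008) (P3 := 1046898278) (W3 := 26843546)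
    rfl k0_mm_133

noncomputable def f_mm_202 : ℕ → ℕ → ℕ → ℕ → Bool := onCell 1073741824 536870912 0 536870912 1046898278 26843546
    (rowFX 0 true false false .pp 2 0 2 (qsf 1073741824 536870912 0 536870912 2) ndF5q2 ndF5q0 pcF2 Cut.none Ext.none)

def k0_mm_202 : ∃ t, chk3 f_mm_202 t 1 1 1 = true :=
  ⟨(l 4), by decide +kernel⟩

theorem c_mm_202 : CertFX 1073741824 536870912 0 536870912 1046898278 26843546 true false false .pp 2 0 2
    ndF5q2 ndF5q0 pcF2 Cut.none Ext.none :=
  certFX0 (fam := true) (s1 := false) (s2 := false) (a := 2) (b := 0) (c := 2) (cn := .pp) (n1 := ndF5q2) (n2 := ndF5q0) (pc := pcF2) (cut := Cut.none) (xt := Ext.none) (P1 := 1073741824) (W1 := 536870912) (P2 := 0) (W2 := 536870912) (P3 := 1046898278) (W3 := 26843546)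
    rfl k0_mm_202

noncomputable def f_mm_203 : ℕ → ℕ → ℕ → ℕ → Bool := onCell 1073741824 536870912 0 536870912 1046898278 26843546
    (rowFX 0 true false false .up 2 0 3 (qsf 1073741824 536870912 0 536870912 3) ndF5q2 ndF5q0 pcF3 Cut.none Ext.none)

def k0_mm_203 : ∃ t, chk3 f_mm_203 t 1 1 1 = true :=
  ⟨(l 4), by decide +kernel⟩

theorem c_mm_203 : CertFX 1073741824 536870912 0 536870912 1046898278 26843546 true false false .up 2 0 3
    ndF5q2 ndF5q0 pcF3 Cut.none Ext.none :=
  certFX0 (fam := true) (s1 := false) (s2 := false) (a := 2) (b := 0) (c := 3) (cn := .up) (n1 := ndF5q2) (n2 := ndF5q0) (pc := pcF3) (cut := Cut.none) (xt := Ext.none) (P1 := 1073741824) (W1 := 536870912) (P2 := 0) (W2 := 536870912) (P3 := 1046898278) (W3 := 26843546)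
    rfl k0_mm_203

noncomputable def f_mm_213 : ℕ → ℕ → ℕ → ℕ → Bool := onCell 1073741824 536870912 536870912 469762048 1046898278 26843546
    (rowFX 0 true false false .pnn 2 1 3 (qsf 1073741824 536870912 536870912 469762048 3) ndF5q2 ndF5q1 pcF3 Cut.none Ext.none)

def k0_mm_213 : ∃ t, chk3 f_mm_213 t 1 1 1 = true :=
  ⟨(l 4), by decide +kernel⟩

theorem c_mm_213 : CertFX 1073741824 536870912 536870912 469762048 1046898278 26843546 true false false .pnn 2 1 3
    ndF5q2 ndF5q1 pcF3 Cut.none Ext.none :=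
  certFX0 (fam := true) (s1 := false) (s2 := false) (a := 2) (b := 1) (c := 3) (cn := .pnn) (n1 := ndF5q2) (n2 := ndF5q1) (pc := pcF3) (cut := Cut.none) (xt := Ext.none) (P1 := 1073741824) (W1 := 536870912) (P2 := 536870912) (W2 := 469762048) (P3 := 1046898278) (W3 := 26843546)
    rfl k0_mm_213

noncomputable def f_mm_303 : ℕ → ℕ → ℕ → ℕ → Bool := onCell 0 1230186008 0 536870912 1046898278 26843546
    (rowFX 0 true false false .npn 3 0 3 (qsf 0 1230186008 0 536870912 3) ndF5q3 ndF5q0 pcF3 Cut.none Ext.none)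

def k0_mm_303 : ∃ t, chk3 f_mm_303 t 1 1 1 = true :=
  ⟨(a (l 4) (l 4)), by decide +kernel⟩

theorem c_mm_303 : CertFX 0 1230186008 0 536870912 1046898278 26843546 true false false .npn 3 0 3
    ndF5q3 ndF5q0 pcF3 Cut.none Ext.none :=
  certFX0 (fam := true) (s1 := false) (s2 := false) (a := 3) (b := 0) (c := 3) (cn := .npn) (n1 := ndF5q3) (n2 := ndF5q0) (pc := pcF3) (cut := Cut.none) (xt := Ext.none) (P1 := 0) (W1 := 1230186008) (P2 := 0) (W2 := 536870912) (P3 := 1046898278) (W3 := 26843546)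
    rfl k0_mm_303

noncomputable def f_mm_313 : ℕ → ℕ → ℕ → ℕ → Bool := onCell 0 1230186008 536870912 469762048 1046898278 26843546
    (rowFX 0 true false false .dn 3 1 3 (qsf 0 1230186008 536870912 469762048 3) ndF5q3 ndF5q1 pcF3 Cut.none Ext.none)

def k0_mm_313 : ∃ t, chk3 f_mm_313 t 1 1 1 = true :=
  ⟨(l 4), by decide +kernel⟩

theorem c_mm_313 : CertFX 0 1230186008 536870912 469762048 1046898278 26843546 true false false .dn 3 1 3
    ndF5q3 ndF5q1 pcF3 Cut.none Ext.none :=
  certFX0 (fam := true) (s1 := false) (s2 := false) (a := 3) (b := 1) (c := 3) (cn := .dn) (n1 := ndF5q3) (n2 := ndF5q1) (pc := pcF3) (cut := Cut.none) (xt := Ext.none) (P1 := 0) (W1 := 1230186008) (P2 := 536870912) (W2 := 469762048) (P3 := 1046898278) (W3 := 26843546)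
    rfl k0_mm_313

end Pool.Agent.Strip051.G.IE1.Tab.C.FA55

namespace Pool.Agent.Strip051.G.IE1.Tab.C.FA56

open Pool.Agent.Strip051.PB Pool.Agent.Strip051.PB.T
open Pool.Agent.Strip051.G.IE1.Tab

noncomputable def f_pp_001 : ℕ → ℕ → ℕ → ℕ → Bool := onCell 0 536870912 0 536870912 1046898278 26843546
    (rowFX 0 true true true .up 0 0 1 (qsf 0 536870912 0 536870912 1) ndF5q0 ndF6q0 pcF1 Cut.none Ext.none)

def k0_pp_001 : ∃ t, chk3 f_pp_001 t 1 1 1 = true :=
  ⟨(l 4), by decide +kernel⟩

theorem c_pp_001 : CertFX 0 536870912 0 536870912 1046898278 26843546 true true true .up 0 0 1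
    ndF5q0 ndF6q0 pcF1 Cut.none Ext.none :=
  certFX0 (fam := true) (s1 := true) (s2 := true) (a := 0) (b := 0) (c := 1) (cn := .up) (n1 := ndF5q0) (n2 := ndF6q0) (pc := pcF1) (cut := Cut.none) (xt := Ext.none) (P1 := 0) (W1 := 536870912) (P2 := 0) (W2 := 536870912) (P3 := 1046898278) (W3 := 26843546)
    rfl k0_pp_001

noncomputable def f_pp_011 : ℕ → ℕ → ℕ → ℕ → Bool := onCell 0 536870912 536870912 469762048 1046898278 26843546
    (rowFX 0 true true true .pnn 0 1 1 (qsf 0 536870912 536870912 469762048 1) ndF5q0 ndF6q1 pcF1 Cut.none Ext.none)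

def k0_pp_011 : ∃ t, chk3 f_pp_011 t 1 1 1 = true :=
  ⟨(l 4), by decide +kernel⟩

theorem c_pp_011 : CertFX 0 536870912 536870912 469762048 1046898278 26843546 true true true .pnn 0 1 1
    ndF5q0 ndF6q1 pcF1 Cut.none Ext.none :=
  certFX0 (fam := true) (s1 := true) (s2 := true) (a := 0) (b := 1) (c := 1) (cn := .pnn) (n1 := ndF5q0) (n2 := ndF6q1) (pc := pcF1) (cut := Cut.none) (xt := Ext.none) (P1 := 0) (W1 := 536870912) (P2 := 536870912) (W2 := 469762048) (P3 := 1046898278) (W3 := 26843546)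
    rfl k0_pp_011

noncomputable def f_pp_012 : ℕ → ℕ → ℕ → ℕ → Bool := onCell 0 536870912 536870912 469762048 1046898278 26843546
    (rowFX 0 true true true .pnp 0 1 2 (qsf 0 536870912 536870912 469762048 2) ndF5q0 ndF6q1 pcF2 Cut.none Ext.none)

def k0_pp_012 : ∃ t, chk3 f_pp_012 t 1 1 1 = true :=
  ⟨(l 4), by decide +kernel⟩

theorem c_pp_012 : CertFX 0 536870912 536870912 469762048 1046898278 26843546 true true true .pnp 0 1 2
    ndF5q0 ndF6q1 pcF2 Cut.none Ext.none :=
  certFX0 (fam := true) (s1 := true) (s2 := true) (a := 0) (b := 1) (c := 2) (cn := .pnp) (n1 := ndF5q0) (n2 := ndF6q1) (pc := pcF2) (cut := Cut.none) (xt := Ext.none) (P1 := 0) (W1 := 536870912) (P2 := 536870912) (W2 := 469762048) (P3 := 1046898278) (W3 := 26843546)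
    rfl k0_pp_012

noncomputable def f_pp_022 : ℕ → ℕ → ℕ → ℕ → Bool := onCell 0 536870912 1073741824 536870912 1046898278 26843546
    (rowFX 0 true true true .pp 0 2 2 (qsf 0 536870912 1073741824 536870912 2) ndF5q0 ndF6q2 pcF2 Cut.none Ext.none)

def k0_pp_022 : ∃ t, chk3 f_pp_022 t 1 1 1 = true :=
  ⟨(l 4), by decide +kernel⟩

theorem c_pp_022 : CertFX 0 536870912 1073741824 536870912 1046898278 26843546 true true true .pp 0 2 2
    ndF5q0 ndF6q2 pcF2 Cut.none Ext.none :=
  certFX0 (fam := true) (s1 := true) (s2 := true) (a := 0) (b := 2) (c := 2) (cn := .pp) (n1 := ndF5q0) (n2 := ndF6q2) (pc := pcF2) (cut := Cut.none) (xt := Ext.none) (P1 := 0) (W1 := 536870912) (P2 := 1073741824) (W2 := 536870912) (P3 := 1046898278) (W3 := 26843546)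
    rfl k0_pp_022

noncomputable def f_pp_023 : ℕ → ℕ → ℕ → ℕ → Bool := onCell 0 536870912 1073741824 536870912 1046898278 26843546
    (rowFX 0 true true true .up 0 2 3 (qsf 0 536870912 1073741824 536870912 3) ndF5q0 ndF6q2 pcF3 Cut.none Ext.none)

def k0_pp_023 : ∃ t, chk3 f_pp_023 t 1 1 1 = true :=
  ⟨(l 4), by decide +kernel⟩

theorem c_pp_023 : CertFX 0 536870912 1073741824 536870912 1046898278 26843546 true true true .up 0 2 3
    ndF5q0 ndF6q2 pcF3 Cut.none Ext.none :=
  certFX0 (fam := true) (s1 := true) (s2 := true) (a := 0) (b := 2) (c := 3) (cn := .up) (n1 := ndF5q0) (n2 := ndF6q2) (pc := pcF3) (cut := Cut.none) (xt := Ext.none) (P1 := 0) (W1 := 536870912) (P2 := 1073741824) (W2 := 536870912) (P3 := 1046898278) (W3 := 26843546)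
    rfl k0_pp_023

noncomputable def f_pp_033 : ℕ → ℕ → ℕ → ℕ → Bool := onCell 0 536870912 0 1230186008 1046898278 26843546
    (rowFX 0 true true true .pnn 0 3 3 (qsf 0 536870912 0 1230186008 3) ndF5q0 ndF6q3 pcF3 Cut.none Ext.none)

def k0_pp_033 : ∃ t, chk3 f_pp_033 t 1 1 1 = true :=
  ⟨(b (l 4) (l 4)), by decide +kernel⟩

theorem c_pp_033 : CertFX 0 536870912 0 1230186008 1046898278 26843546 true true true .pnn 0 3 3
    ndF5q0 ndF6q3 pcF3 Cut.none Ext.none :=
  certFX0 (fam := true) (s1 := true) (s2 := true) (a := 0) (b := 3) (c := 3) (cn := .pnn) (n1 := ndF5q0) (n2 := ndF6q3) (pc := pcF3) (cut := Cut.none) (xt := Ext.none) (P1 := 0) (W1 := 536870912) (P2 := 0) (W2 := 1230186008) (P3 := 1046898278) (W3 := 26843546)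
    rfl k0_pp_033

noncomputable def f_pp_101 : ℕ → ℕ → ℕ → ℕ → Bool := onCell 536870912 469762048 0 536870912 1046898278 26843546
    (rowFX 0 true true true .npn 1 0 1 (qsf 536870912 469762048 0 536870912 1) ndF5q1 ndF6q0 pcF1 Cut.none Ext.none)

def k0_pp_101 : ∃ t, chk3 f_pp_101 t 1 1 1 = true :=
  ⟨(l 4), by decide +kernel⟩

theorem c_pp_101 : CertFX 536870912 469762048 0 536870912 1046898278 26843546 true true true .npn 1 0 1
    ndF5q1 ndF6q0 pcF1 Cut.none Ext.none :=
  certFX0 (fam := true) (s1 := true) (s2 := true) (a := 1) (b := 0) (c := 1) (cn := .npn) (n1 := ndF5q1) (n2 := ndF6q0) (pc := pcF1) (cut := Cut.none) (xt := Ext.none) (P1 := 536870912) (W1 := 469762048) (P2 := 0) (W2 := 536870912) (P3 := 1046898278) (W3 := 26843546)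
    rfl k0_pp_101

noncomputable def f_pp_102 : ℕ → ℕ → ℕ → ℕ → Bool := onCell 536870912 469762048 0 536870912 1046898278 26843546
    (rowFX 0 true true true .npp 1 0 2 (qsf 536870912 469762048 0 536870912 2) ndF5q1 ndF6q0 pcF2 Cut.none Ext.none)

def k0_pp_102 : ∃ t, chk3 f_pp_102 t 1 1 1 = true :=
  ⟨(l 4), by decide +kernel⟩

theorem c_pp_102 : CertFX 536870912 469762048 0 536870912 1046898278 26843546 true true true .npp 1 0 2
    ndF5q1 ndF6q0 pcF2 Cut.none Ext.none :=
  certFX0 (fam := true) (s1 := true) (s2 := true) (a := 1) (b := 0) (c := 2) (cn := .npp) (n1 := ndF5q1) (n2 := ndF6q0) (pc := pcF2) (cut := Cut.none) (xt := Ext.none) (P1 := 536870912) (W1 := 469762048) (P2 := 0) (W2 := 536870912) (P3 := 1046898278) (W3 := 26843546)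
    rfl k0_pp_102

noncomputable def f_pp_112 : ℕ → ℕ → ℕ → ℕ → Bool := onCell 536870912 469762048 536870912 469762048 1046898278 26843546
    (rowFX 0 true true true .dn 1 1 2 (qsf 536870912 469762048 536870912 469762048 2) ndF5q1 ndF6q1 pcF2 Cut.none Ext.none)

def k0_pp_112 : ∃ t, chk3 f_pp_112 t 1 1 1 = true :=
  ⟨(l 4), by decide +kernel⟩

theorem c_pp_112 : CertFX 536870912 469762048 536870912 469762048 1046898278 26843546 true true true .dn 1 1 2
    ndF5q1 ndF6q1 pcF2 Cut.none Ext.none :=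
  certFX0 (fam := true) (s1 := true) (s2 := true) (a := 1) (b := 1) (c := 2) (cn := .dn) (n1 := ndF5q1) (n2 := ndF6q1) (pc := pcF2) (cut := Cut.none) (xt := Ext.none) (P1 := 536870912) (W1 := 469762048) (P2 := 536870912) (W2 := 469762048) (P3 := 1046898278) (W3 := 26843546)
    rfl k0_pp_112

noncomputable def f_pp_113 : ℕ → ℕ → ℕ → ℕ → Bool := onCell 536870912 469762048 536870912 469762048 1046898278 26843546
    (rowFX 0 true true true .nn 1 1 3 (qsf 536870912 469762048 536870912 469762048 3) ndF5q1 ndF6q1 pcF3 Cut.none Ext.none)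

def k0_pp_113 : ∃ t, chk3 f_pp_113 t 1 1 1 = true :=
  ⟨(l 4), by decide +kernel⟩

theorem c_pp_113 : CertFX 536870912 469762048 536870912 469762048 1046898278 26843546 true true true .nn 1 1 3
    ndF5q1 ndF6q1 pcF3 Cut.none Ext.none :=
  certFX0 (fam := true) (s1 := true) (s2 := true) (a := 1) (b := 1) (c := 3) (cn := .nn) (n1 := ndF5q1) (n2 := ndF6q1) (pc := pcF3) (cut := Cut.none) (xt := Ext.none) (P1 := 536870912) (W1 := 469762048) (P2 := 536870912) (W2 := 469762048) (P3 := 1046898278) (W3 := 26843546)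
    rfl k0_pp_113

noncomputable def f_pp_123 : ℕ → ℕ → ℕ → ℕ → Bool := onCell 536870912 469762048 1073741824 536870912 1046898278 26843546
    (rowFX 0 true true true .npn 1 2 3 (qsf 536870912 469762048 1073741824 536870912 3) ndF5q1 ndF6q2 pcF3 Cut.none Ext.none)

def k0_pp_123 : ∃ t, chk3 f_pp_123 t 1 1 1 = true :=
  ⟨(l 4), by decide +kernel⟩

theorem c_pp_123 : CertFX 536870912 469762048 1073741824 536870912 1046898278 26843546 true true true .npn 1 2 3
    ndF5q1 ndF6q2 pcF3 Cut.none Ext.none :=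
  certFX0 (fam := true) (s1 := true) (s2 := true) (a := 1) (b := 2) (c := 3) (cn := .npn) (n1 := ndF5q1) (n2 := ndF6q2) (pc := pcF3) (cut := Cut.none) (xt := Ext.none) (P1 := 536870912) (W1 := 469762048) (P2 := 1073741824) (W2 := 536870912) (P3 := 1046898278) (W3 := 26843546)
    rfl k0_pp_123

noncomputable def f_pp_133 : ℕ → ℕ → ℕ → ℕ → Bool := onCell 536870912 469762048 0 1230186008 1046898278 26843546
    (rowFX 0 true true true .dn 1 3 3 (qsf 536870912 469762048 0 1230186008 3) ndF5q1 ndF6q3 pcF3 Cut.none Ext.none)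

def k0_pp_133 : ∃ t, chk3 f_pp_133 t 1 1 1 = true :=
  ⟨(l 4), by decide +kernel⟩

theorem c_pp_133 : CertFX 536870912 469762048 0 1230186008 1046898278 26843546 true true true .dn 1 3 3
    ndF5q1 ndF6q3 pcF3 Cut.none Ext.none :=
  certFX0 (fam := true) (s1 := true) (s2 := true) (a := 1) (b := 3) (c := 3) (cn := .dn) (n1 := ndF5q1) (n2 := ndF6q3) (pc := pcF3) (cut := Cut.none) (xt := Ext.none) (P1 := 536870912) (W1 := 469762048) (P2 := 0) (W2 := 1230186008) (P3 := 1046898278) (W3 := 26843546)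
    rfl k0_pp_133

noncomputable def f_pp_202 : ℕ → ℕ → ℕ → ℕ → Bool := onCell 1073741824 536870912 0 536870912 1046898278 26843546
    (rowFX 0 true true true .pp 2 0 2 (qsf 1073741824 536870912 0 536870912 2) ndF5q2 ndF6q0 pcF2 Cut.none Ext.none)

def k0_pp_202 : ∃ t, chk3 f_pp_202 t 1 1 1 = true :=
  ⟨(l 4), by decide +kernel⟩

theorem c_pp_202 : CertFX 1073741824 536870912 0 536870912 1046898278 26843546 true true true .pp 2 0 2
    ndF5q2 ndF6q0 pcF2 Cut.none Ext.none :=
  certFX0 (fam := true) (s1 := true) (s2 := true) (a := 2) (b := 0) (c := 2) (cn := .pp) (n1 := ndF5q2) (n2 := ndF6q0) (pc := pcF2) (cut := Cut.none) (xt := Ext.none) (P1 := 1073741824) (W1 := 536870912) (P2 := 0) (W2 := 536870912) (P3 := 1046898278) (W3 := 26843546)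
    rfl k0_pp_202

noncomputable def f_pp_203 : ℕ → ℕ → ℕ → ℕ → Bool := onCell 1073741824 536870912 0 536870912 1046898278 26843546
    (rowFX 0 true true true .up 2 0 3 (qsf 1073741824 536870912 0 536870912 3) ndF5q2 ndF6q0 pcF3 Cut.none Ext.none)

def k0_pp_203 : ∃ t, chk3 f_pp_203 t 1 1 1 = true :=
  ⟨(l 4), by decide +kernel⟩

theorem c_pp_203 : CertFX 1073741824 536870912 0 536870912 1046898278 26843546 true true true .up 2 0 3
    ndF5q2 ndF6q0 pcF3 Cut.none Ext.none :=
  certFX0 (fam := true) (s1 := true) (s2 := true) (a := 2) (b := 0) (c := 3) (cn := .up) (n1 := ndF5q2) (n2 := ndF6q0) (pc := pcF3) (cut := Cut.none) (xt := Ext.none) (P1 := 1073741824) (W1 := 536870912) (P2 := 0) (W2 := 536870912) (P3 := 1046898278) (W3 := 26843546)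
    rfl k0_pp_203

noncomputable def f_pp_213 : ℕ → ℕ → ℕ → ℕ → Bool := onCell 1073741824 536870912 536870912 469762048 1046898278 26843546
    (rowFX 0 true true true .pnn 2 1 3 (qsf 1073741824 536870912 536870912 469762048 3) ndF5q2 ndF6q1 pcF3 Cut.none Ext.none)

def k0_pp_213 : ∃ t, chk3 f_pp_213 t 1 1 1 = true :=
  ⟨(l 4), by decide +kernel⟩

theorem c_pp_213 : CertFX 1073741824 536870912 536870912 469762048 1046898278 26843546 true true true .pnn 2 1 3
    ndF5q2 ndF6q1 pcF3 Cut.none Ext.none :=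
  certFX0 (fam := true) (s1 := true) (s2 := true) (a := 2) (b := 1) (c := 3) (cn := .pnn) (n1 := ndF5q2) (n2 := ndF6q1) (pc := pcF3) (cut := Cut.none) (xt := Ext.none) (P1 := 1073741824) (W1 := 536870912) (P2 := 536870912) (W2 := 469762048) (P3 := 1046898278) (W3 := 26843546)
    rfl k0_pp_213

noncomputable def f_pp_303 : ℕ → ℕ → ℕ → ℕ → Bool := onCell 0 1230186008 0 536870912 1046898278 26843546
    (rowFX 0 true true true .npn 3 0 3 (qsf 0 1230186008 0 536870912 3) ndF5q3 ndF6q0 pcF3 Cut.none Ext.none)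

def k0_pp_303 : ∃ t, chk3 f_pp_303 t 1 1 1 = true :=
  ⟨(l 5), by decide +kernel⟩

theorem c_pp_303 : CertFX 0 1230186008 0 536870912 1046898278 26843546 true true true .npn 3 0 3
    ndF5q3 ndF6q0 pcF3 Cut.none Ext.none :=
  certFX0 (fam := true) (s1 := true) (s2 := true) (a := 3) (b := 0) (c := 3) (cn := .npn) (n1 := ndF5q3) (n2 := ndF6q0) (pc := pcF3) (cut := Cut.none) (xt := Ext.none) (P1 := 0) (W1 := 1230186008) (P2 := 0) (W2 := 536870912) (P3 := 1046898278) (W3 := 26843546)
    rfl k0_pp_303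

noncomputable def f_pp_313 : ℕ → ℕ → ℕ → ℕ → Bool := onCell 0 1230186008 536870912 469762048 1046898278 26843546
    (rowFX 0 true true true .dn 3 1 3 (qsf 0 1230186008 536870912 469762048 3) ndF5q3 ndF6q1 pcF3 Cut.none Ext.none)

def k0_pp_313 : ∃ t, chk3 f_pp_313 t 1 1 1 = true :=
  ⟨(l 4), by decide +kernel⟩

theorem c_pp_313 : CertFX 0 1230186008 536870912 469762048 1046898278 26843546 true true true .dn 3 1 3
    ndF5q3 ndF6q1 pcF3 Cut.none Ext.none :=
  certFX0 (fam := true) (s1 := true) (s2 := true) (a := 3) (b := 1) (c := 3) (cn := .dn) (n1 := ndF5q3) (n2 := ndF6q1) (pc := pcF3) (cut := Cut.none) (xt := Ext.none) (P1 := 0) (W1 := 1230186008) (P2 := 536870912) (W2 := 469762048) (P3 := 1046898278) (W3 := 26843546)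
    rfl k0_pp_313

noncomputable def f_pm_001 : ℕ → ℕ → ℕ → ℕ → Bool := onCell 0 536870912 0 536870912 1046898278 26843546
    (rowFX 0 true true false .up 0 0 1 (qsf 0 536870912 0 536870912 1) ndF5q0 ndF6q0 pcF1 Cut.none Ext.none)

def k0_pm_001 : ∃ t, chk3 f_pm_001 t 1 1 1 = true :=
  ⟨(l 3), by decide +kernel⟩

theorem c_pm_001 : CertFX 0 536870912 0 536870912 1046898278 26843546 true true false .up 0 0 1
    ndF5q0 ndF6q0 pcF1 Cut.none Ext.none :=
  certFX0 (fam := true) (s1 := true) (s2 := false) (a := 0) (b := 0) (c := 1) (cn := .up) (n1 := ndF5q0) (n2 := ndF6q0) (pc := pcF1) (cut := Cut.none) (xt := Ext.none) (P1 := 0) (W1 := 536870912) (P2 := 0) (W2 := 536870912) (P3 := 1046898278) (W3 := 26843546)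
    rfl k0_pm_001

noncomputable def f_pm_011 : ℕ → ℕ → ℕ → ℕ → Bool := onCell 0 536870912 536870912 536870912 1046898278 26843546
    (rowFX 1 true true false .pnn 0 1 1 (qsf 0 536870912 536870912 469762048 1) ndF5q0 ndF6q1 pcF1 Cut.none Ext.none)

def k0_pm_011 : ∃ t, chk3 f_pm_011 t 1 1 1 = true :=
  ⟨(b (l 3) (l 3)), by decide +kernel⟩

theorem c_pm_011 : CertFX 0 536870912 536870912 469762048 1046898278 26843546 true true false .pnn 0 1 1
    ndF5q0 ndF6q1 pcF1 Cut.none Ext.none :=
  certFX1 (fam := true) (s1 := true) (s2 := false) (a := 0) (b := 1) (c := 1) (cn := .pnn) (n1 := ndF5q0) (n2 := ndF6q1) (pc := pcF1) (cut := Cut.none) (xt := Ext.none) (P1 := 0) (W1 := 536870912) (P2 := 536870912) (W2 := 469762048) (P3 := 1046898278) (W3 := 26843546)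
    rfl (fun _ => rfl) k0_pm_011

noncomputable def f_pm_012 : ℕ → ℕ → ℕ → ℕ → Bool := onCell 1073741824 536870912 536870912 469762048 1046898278 26843546
    (rowFX 2 true true false .pnp 0 1 2 (qsf 0 536870912 536870912 469762048 2) ndF5q0 ndF6q1 pcF2 Cut.none Ext.none)

def k0_pm_012 : ∃ t, chk3 f_pm_012 t 1 1 1 = true :=
  ⟨(a (a (a (l 3) (b (l 3) (a (l 3) (a (l 3) (a (l 3) (b (l 3) (b (l 3) (b (l 3) (l 14842608))))))))) (b (a (a (a (l 3) (a (c (l 16777216) (l 16777216)) (b (l 2) (a (l 16777216) (c (a (l 16775112) (l 16772032)) (a (l 16775056) (b (c (l 16774168) (l 16774128)) (l 16769432)))))))) (l 16774080)) (l 16776880)) (a (a (a (a (b (l 3) (b (l 15572176) (c (b (l 15203832) (l 14876672)) (l 14859376)))) (b (b (l 16777216) (b (l 16649800) (l 16203696))) (b (c (l 15587632) (l 15556736)) (c (b (l 15201816) (l 14841744)) (b (l 15162240) (l 14813112)))))) (a (b (a (b (l 16777216) (l 16388200)) (b (l 16777216) (b (l 16649800) (l 16203696)))) (b (a (l 15572184) (c (l 15586888)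 (l 15555968))) (c (a (b (l 15201744) (l 14818704)) (b (l 15199712) (l 14803344))) (a (l 14951112) (b (l 15160064) (l 14773584)))))) (a (b (b (c (l 16776336) (l 16776312)) (c (b (l 16650648) (l 16209448)) (a (l 16425368) (l 16424072)))) (b (a (b (l 15722112) (l 15413088)) (l 15565264)) (b (l 15171168) (l 14770088)))) (b (a (b (a (l 16775232) (l 16770800)) (l 16424160)) (b (l 16764224) (l 16420312))) (b (l 15390264) (c (b (l 15181696) (l 14771912)) (a (l 14918088) (l 14913200)))))))) (b (b (l 16767008) (l 16422960)) (b (l 15560472) (b (l 15166144) (l 14759744))))) (b (b (l 16776168) (l 16429392)) (b (l 15570856) (b (l 15180272) (l 14776760))))))) (b (l 2) (b (b (l 16777216) (a (l 16430144) (l 2))) (b (a (l 15572176) (l 15572176)) (a (b (l 15182144) (l 14779080)) (l 14931528)))))), by decide +kernel⟩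

theorem c_pm_012 : CertFX 0 536870912 536870912 469762048 1046898278 26843546 true true false .pnp 0 1 2
    ndF5q0 ndF6q1 pcF2 Cut.none Ext.none :=
  certFX2 (fam := true) (s1 := true) (s2 := false) (a := 0) (b := 1) (c := 2) (cn := .pnp) (n1 := ndF5q0) (n2 := ndF6q1) (pc := pcF2) (cut := Cut.none) (xt := Ext.none) (P1 := 0) (W1 := 536870912) (P2 := 536870912) (W2 := 469762048) (P3 := 1046898278) (W3 := 26843546)
    rfl (fun _ => rfl) k0_pm_012

noncomputable def f_pm_022 : ℕ → ℕ → ℕ → ℕ → Bool := onCell 0 536870912 1073741824 536870912 1046898278 26843546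
    (rowFX 1 true true false .pp 0 2 2 (qsf 0 536870912 1073741824 536870912 2) ndF5q0 ndF6q2 pcF2 Cut.none Ext.none)

def k0_pm_022 : ∃ t, chk3 f_pm_022 t 1 4 1 = true :=
  ⟨(a (a (l 3) (l 3)) (l 1)), by decide +kernel⟩

def k1_pm_022 : ∃ t, chk3 f_pm_022 t 2 40 1 = true :=
  ⟨(a (l 3) (a (b (l 3) (a (b (l 3) (c (l 1222084462951) (l 1072833949847))) (l 1))) (l 1))), by decide +kernel⟩

def k2_pm_022 : ∃ t, chk3 f_pm_022 t 4 82 1 = true :=
  ⟨(b (a (l 3) (a (l 3) (c (a (l 2727470801159) (l 16129472)) (l 1360597197863)))) (b (a (l 3) (a (a (l 3) (c (l 4558200868871) (l 16367784))) (c (l 16185800) (l 16173032)))) (a (b (l 3) (a (l 3) (a (l 3) (c (c (c (a (l 1852908704391) (a (l 1423411976391) (l 992304647863))) (a (l 1855056141175) (l 16503776))) (l 1375630408391)) (l 16489664))))) (a (c (a (c (a (a (b (l 3) (l 16520704)) (b (l 16526784) (l 16523144))) (l 16478968)) (a (a (l 16525240) (l 16522832)) (l 16477040))) (l 16333368)) (a (c (a (l 16521504) (l 16475112)) (l 16474904))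 (l 16368240))) (c (l 16187064) (l 16174360)))))), by decide +kernel⟩

def k3_pm_022 : ∃ t, chk3 f_pm_022 t 4 332 1 = true :=
  ⟨(a (a (a (l 3) (a (l 3) (a (l 3) (c (c (l 1903374477399) (l 1900690028935)) (l 1869014593575))))) (c (c (a (c (b (l 1670372569991) (l 16486344)) (l 1212421610567)) (c (a (l 16490664) (c (a (l 16495128) (l 16496576)) (l 16490968))) (a (b (l 16476784) (l 16465816)) (l 16487184)))) (a (c (a (l 16441800) (l 16447640)) (l 1225306414487)) (c (l 16475400) (l 16474616)))) (c (a (l 16426944) (l 16473448)) (l 16427760)))) (a (c (a (c (a (c (a (l 16504448) (l 16512760)) (l 16507632)) (l 16478848)) (a (l 16485648) (l 16476944))) (c (l 16377472) (l 16373960))) (a (c (a (l 16505280) (l 16475048)) (l 16486704)) (l 16368688))) (c (c (l 16191496) (l 16185168)) (l 16175680)))), by decide +kernel⟩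

def k4_pm_022 : ∃ t, chk3 f_pm_022 t 4 333 1 = true :=
  ⟨(a (a (a (a (c (c (a (l 2285089416663) (l 1997326781559)) (c (l 16321848) (l 2049939952951))) (c (a (l 2241066047591) (c (l 1976925657639) (l 16369728))) (a (c (l 16339584) (l 1920017300231)) (l 1931291619447)))) (a (b (l 3) (c (c (c (l 16283512) (a (l 16390352) (l 16340768))) (c (l 16332352) (l 16388152))) (c (l 16352888) (l 16372936)))) (c (c (b (l 2347366413559) (b (l 16338776) (l 16292872))) (c (l 16367584) (l 1397104992199))) (c (l 1396031198599) (l 16324696))))) (c (c (a (c (b (l 1516827222743) (l 16385048)) (a (l 16360576) (c (l 16419824) (l 16434320)))) (c (b (l 16451312) (l 16440512)) (l 16443248))) (c (a (a (l 1112026597319) (l 16416536)) (l 16418480)) (l 16392888))) (c (c (l 16372728) (l 16360304)) (l 16353912)))) (c (c (a (c (b (l 16475456) (l 16464608)) (l 16444816)) (c (a (l 16437368) (c (b (l 16479928) (l 16469008)) (b (l 16474512) (l 16463568)))) (a (b (l 16454872) (l 16443960)) (l 16465160)))) (a (c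 (l 16381984) (l 16411128)) (c (l 16453328) (l 16452408)))) (c (a (l 16404888) (l 16451024)) (l 16426208)))) (a (c (a (c (a (c (b (l 16493736) (l 16482736)) (l 16487456)) (b (l 16478048) (l 16476056))) (a (b (l 16491848) (l 16480672)) (b (l 16476152) (l 16474152)))) (c (l 16377856) (l 16374368))) (a (c (a (l 16484656) (l 16472528)) (l 16433088)) (c (l 16370880) (l 16367392)))) (c (c (l 16192736) (l 16186440)) (c (l 16180144) (l 16173848))))), by decide +kernel⟩

def k5_pm_022 : ∃ t, chk3 f_pm_022 t 16 334 1 = true :=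
  ⟨(c (a (a (b (c (l 16318464) (a (l 16390808) (l 16410200))) (c (c (l 16293104) (l 16301944)) (b (l 16275968) (a (l 16364304) (l 16419008))))) (c (a (b (c (l 16364256) (l 16322368)) (c (b (l 16377872) (l 16386928)) (b (l 16357064) (l 16345216)))) (b (a (b (l 16301584) (l 16283448)) (l 16338384)) (b (a (l 16310120) (l 16330680)) (a (c (l 16331200) (l 16347480)) (l 16327728))))) (a (b (l 16337496) (b (l 16372320) (l 16360560))) (b (c (l 16358544) (l 16366168)) (c (l 16318512) (b (l 16365216) (l 16367680))))))) (c (c (a (b (l 16353488) (b (l 16366536) (l 16340288))) (b (l 16429736) (b (l 16442648) (l 16395344)))) (b (a (a (l 16386568) (l 16419944)) (l 16427072)) (a (a (l 16355000) (b (l 16411912) (l 16406560))) (l 16416320)))) (b (c (a (l 16393696) (l 16402304)) (l 16376728)) (c (a (b (l 16385672) (l 16380328)) (l 16391552)) (l 16365992))))) (a (c (a (b (a (l 16386192) (c (l 16495640) (l 16502472))) (a (l 16322736) (c (l 16442736) (l 16453752)))) (b (a (l 16371280) (l 16344872))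 (a (c (l 16416112) (l 16432120)) (b (l 16343960) (l 16346488))))) (a (b (c (a (l 16411720) (l 16503672)) (l 16303000)) (c (a (l 16348040) (l 16493808)) (b (l 16328504) (l 16275616)))) (b (l 16314592) (b (l 16340976) (l 16325872))))) (b (c (l 16352096) (l 16337544)) (c (b (l 16344016) (l 16338632)) (l 16326672))))), by decide +kernel⟩

def k6_pm_022 : ∃ t, chk3 f_pm_022 t 17 334 1 = true :=
  ⟨(c (c (b (a (c (l 16453784) (l 16428560)) (c (a (l 16452520) (c (l 16437152) (l 16452664))) (a (l 16433080) (l 16448720)))) (a (b (l 16391712) (c (l 16440296) (l 16415072))) (b (c (a (l 16444392) (c (l 16449976) (l 16444504))) (a (l 16424936) (l 16440528))) (c (a (l 16438984) (c (a (l 16443384) (l 16444744)) (l 16439072))) (a (l 16419520) (l 16435072)))))) (b (a (c (l 16407648) (l 16394800)) (c (l 16436848) (l 16435824))) (a (b (c (l 16399536) (l 16386664)) (c (l 16394144) (l 16381248))) (b (l 16428184) (c (l 16423160) (l 16422048)))))) (b (c (a (l 16388424) (l 16434280)) (l 16409400))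 (b (a (l 16377944) (l 16424856)) (c (a (l 16374752) (l 16420384)) (l 16395440))))), by decide +kernel⟩

def k7_pm_022 : ∃ t, chk3 f_pm_022 t 32 335 2 = true :=
  ⟨(b (b (b (a (c (l 16305448) (l 16257424)) (a (c (c (l 16393704) (l 16352056)) (l 16367456)) (a (c (l 16325464) (l 16378808)) (c (l 16326552) (l 16331368))))) (a (b (c (l 16301536) (a (l 16352400) (l 16407080))) (b (b (c (l 16320872) (l 16272768)) (c (l 16278280) (c (l 16333256) (l 16255056)))) (a (l 16340728) (l 16374352)))) (b (c (a (c (l 16376120) (l 16355464)) (c (a (l 16341512) (l 16317840)) (l 16346616))) (a (l 16370904) (c (l 16363656) (l 16371288)))) (b (b (c (a (c (l 16398504) (l 16377864)) (a (l 16351304) (l 16326480))) (a (l 16393312) (c (l 16364256) (l 16371888)))) (c (a (a (l 16405024) (c (c (l 16390016) (l 16388312)) (l 16372856))) (c (a (c (l 16318440) (l 16346576)) (l 16317960)) (l 16347576))) (a (c (l 16364800) (l 16441872)) (c (l 16364616) (a (l 16392200) (l 16355896)))))) (c (a (a (l 16447816) (l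 16394368)) (l 16319248)) (a (l 16436688) (l 16367224))))))) (a (c (l 16313384) (l 16286144)) (a (c (l 16344080) (l 16441848)) (c (l 16323760) (l 16371792))))) (a (a (l 16319128) (l 16331720)) (c (a (l 16357640) (l 16356504)) (c (l 16331120) (l 16334880))))), by decide +kernel⟩

def k8_pm_022 : ∃ t, chk3 f_pm_022 t 33 335 2 = true :=
  ⟨(b (b (a (c (b (c (l 16336344) (a (l 16369360) (l 16402560))) (b (c (l 16313392) (a (l 16367376) (l 16400560))) (b (b (c (l 16354520) (a (l 16366552) (l 16399728))) (c (c (l 16372384) (a (l 16354144) (a (l 16394304) (l 16416496)))) (a (l 16366224) (c (l 16383168) (l 16397616))))) (a (l 16357032) (l 16375952))))) (b (c (l 16376328) (l 16357832)) (b (c (l 16374336) (l 16355832)) (b (b (l 16304920) (c (a (l 16348104) (l 16379816)) (l 16354664))) (l 16361760))))) (c (b (c (l 16412296) (l 16409616)) (b (c (c (l 16437344) (l 16426448)) (l 16407608)) (b (b (c (l 16430424) (l 16406768)) (c (a (a (c (a (l 16430440) (l 16436352)) (l 16424432)) (l 16431344))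 (l 16432072)) (l 16406440))) (l 16417296)))) (b (l 16372992) (b (l 16370984) (b (b (l 16370144) (l 16369816)) (l 16369312)))))) (a (c (a (l 16354080) (l 16372968)) (l 16358768)) (c (l 16414288) (l 16366296)))) (a (c (a (l 16347408) (l 16365016)) (l 16330488)) (c (l 16406280) (l 16358280)))), by decide +kernel⟩

def k9_pm_022 : ∃ t, chk3 f_pm_022 t 16 335 3 = true :=
  ⟨(a (b (b (b (a (c (a (l 16372240) (c (l 16492248) (l 16482200))) (c (a (l 16376424) (l 16480216)) (l 16288392))) (c (a (l 16422624) (l 16348648)) (l 16351288))) (b (a (c (a (l 16368216) (c (l 16488232) (l 16478152))) (c (a (l 16372360) (l 16476144)) (l 16263320))) (c (a (l 16426120) (l 16350176)) (l 16353784))) (b (b (a (c (a (l 16366544) (l 16354240)) (a (c (l 16370672) (l 16352328)) (l 16477624))) (c (a (l 16448544) (l 16350792)) (l 16375792))) (a (a (c (l 16365872) (c (l 16349024) (l 16288736))) (c (c (l 16443952) (l 16475792)) (l 16414032))) (c (a (c (l 16454192) (l 16449376)) (l 16309224)) (l 16313360))))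 (a (c (a (l 16364864) (l 16457416)) (a (c (l 16368976) (l 16350624)) (l 16475920))) (c (l 16293200) (l 16377056)))))) (a (c (a (l 16358848) (l 16451384)) (a (c (l 16362888) (l 16344496)) (l 16469800))) (c (l 16298208) (l 16382160)))) (a (c (a (l 16342808) (l 16435296)) (a (c (l 16346680) (l 16328176)) (l 16453496))) (c (l 16311192) (l 16395392)))) (b (b (b (c (l 16334608) (l 16319888)) (b (c (l 16332592) (l 16317856)) (b (b (c (l 16331752) (l 16317008)) (c (a (l 16322704) (l 16336336)) (l 16316672))) (l 16325320)))) (l 16322296)) (l 16314584))), by decide +kernel⟩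

def k10_pm_022 : ∃ t, chk3 f_pm_022 t 17 335 1 = true :=
  ⟨(c (b (a (b (b (c (c (l 16436256) (l 16411032)) (c (l 16390096) (l 16377184))) (b (c (c (l 16434240) (l 16409016)) (c (l 16388080) (l 16375160))) (b (b (c (c (l 16433440) (l 16408216)) (c (l 16387280) (l 16374360))) (b (b (b (c (l 16421272) (l 16382560)) (b (c (l 16421288) (l 16382576)) (c (b (l 16421320) (l 16400368)) (a (l 16374696) (l 16386360))))) (c (l 16421296) (l 16382584))) (c (l 16421168) (l 16382456)))) (c (l 16420752) (l 16382040))))) (c (l 16417744) (l 16379024))) (b (b (c (c (a (l 16434928) (c (a (l 16439320) (l 16440712)) (l 16435032))) (a (l 16415456) (l 16431016))) (c (l 16419112) (l 16417976))) (b (b (c (a (c (l 16433240) (l 16413768)) (c (a (l 16433272) (l 16437952)) (l 16429520))) (l 16417128)) (c (a (c (l 16432712) (l 16413240)) (c (a (l 16433024) (l 16438264)) (l 16429448))) (l 16416816))) (a (b (b (c (c (l 16432608) (l 16413136)) (l 16404984)) (c (l 16424344) (l 16405528))) (c (l 16424304) (l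 16405496))) (c (c (a (l 16433704) (l 16439032)) (l 16430200)) (l 16428528))))) (c (a (l 16421296) (l 16400992)) (l 16414592)))) (a (c (l 16409720) (l 16370968)) (c (a (l 16413280) (l 16403400)) (l 16406464)))) (c (b (b (b (a (l 16370664) (l 16416272)) (b (a (l 16368616) (l 16414768)) (b (b (a (l 16367816) (l 16414600)) (a (c (l 16369080) (l 16367760)) (l 16415312))) (l 16391312)))) (l 16388248)) (l 16380064)) (b (b (b (l 16391352) (b (l 16347864) (b (b (l 16389264) (a (l 16365768) (l 16413032))) (l 16388848)))) (l 16385736)) (l 16377456)))), by decide +kernel⟩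

def k11_pm_022 : ∃ t, chk3 f_pm_022 t 9 167 1 = true :=
  ⟨(b (a (b (c (a (c (a (c (l 16471768) (l 16470888)) (c (l 16473336) (l 16472360))) (a (l 16469528) (l 16470904))) (c (l 16378136) (l 16374664))) (a (c (a (l 16467720) (l 16468968)) (l 16465960)) (l 16369464))) (c (a (b (c (a (c (l 16463568) (l 16462624)) (l 16470312)) (a (l 16461192) (l 16468352))) (c (a (c (l 16458104) (l 16457128)) (a (l 16474536) (l 16462408))) (a (l 16455640) (b (l 16466832) (l 16465664))))) (b (c (l 16378384) (l 16374928)) (c (a (l 16412968) (l 16345328)) (l 16376120)))) (a (b (c (l 16462712) (l 16460768)) (c (a (l 16453656) (l 16464040)) (l 16456904))) (b (l 16369744) (c (l 16372688) (l 16369248)))))) (b (c (c (a (l 16245272) (l 16141968)) (l 16188456)) (c (l 16182200) (l 16175936))) (a (b (c (l 16243752) (l 16232776)) (l 16241512)) (l 16137096)))) (c (a (a (b (b (b (b (a (c (l 16454208) (l 16452240)) (a (l 16470648) (l 16462016))) (a (c (c (l 16453808) (l 16452808)) (l 16451280)) (l 16466792)))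 (a (c (b (b (l 16453160) (l 16453664)) (l 16454392)) (l 16451992)) (a (l 16471448) (l 16466128)))) (a (l 16450840) (l 16467944))) (a (l 16442632) (l 16462024))) (a (c (l 16417840) (l 16415016)) (l 16349264))) (a (l 16253000) (l 16151680))) (a (a (b (b (b (c (a (l 16449896) (l 16463360)) (l 16454784)) (l 16435864)) (l 16455480)) (l 16448192)) (l 16376432)) (l 16190904)))), by decide +kernel⟩

def k12_pm_022 : ∃ t, chk3 f_pm_022 t 5 41 1 = true :=
  ⟨(a (a (b (b (c (c (l 15968704) (l 15959152)) (l 15944832)) (c (c (l 15973032) (l 15963552)) (c (l 15954072) (l 15944584)))) (b (b (c (c (l 15976256) (l 15966832)) (l 15952680)) (c (b (l 15973632) (c (l 15980608) (l 15971240))) (c (l 15877320) (l 15951832)))) (a (b (b (c (l 16033888) (l 16016824)) (l 16032352)) (l 16040104)) (b (l 15919488) (l 15929912))))) (b (l 1) (b (l 1) (b (l 1) (c (l 15730560) (l 15748008)))))) (l 1)), by decide +kernel⟩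

def k13_pm_022 : ∃ t, chk3 f_pm_022 t 8 21 1 = true :=
  ⟨(a (a (c (a (b (a (l 16059664) (b (b (l 16258528) (l 16217696)) (l 16074368))) (c (l 15890432) (l 15834696))) (a (b (c (a (l 16277200) (l 16272168)) (l 16238456)) (c (l 15964664) (l 16062472))) (c (b (l 16303896) (l 16152800)) (b (l 16324616) (l 16126792))))) (c (a (a (l 15809816) (b (a (l 16192352) (l 16246328)) (l 15949752))) (b (l 16189400) (l 16008208))) (a (a (c (l 15789032) (l 15747088)) (b (l 16208152) (l 15939664))) (l 16068096)))) (c (b (a (b (a (c (b (a (l 16359384) (l 16329224)) (l 16390560)) (c (b (l 16286496) (l 16423520)) (l 16322792))) (c (a (b (l 16334592) (l 16301440)) (b (l 16369488) (b (l 16339432) (l 16321184)))) (l 16271848))) (c (l 16269896) (l 16301728))) (b (c (a (l 16295536) (l 16360120)) (l 16310912)) (a (c (a (l 16275936) (l 16276520)) (l 16254024)) (b (l 16273856) (l 16186968))))) (a (c (a (l 16182232) (b (l 16328464) (l 16213944))) (a (l 16129752) (l 16285912))) (b (l 16167232) (l 16167192))))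 (b (a (b (c (a (l 16289280) (l 16291672)) (l 16273144)) (l 16321944)) (b (l 16273440) (a (l 16234032) (l 16219728)))) (a (l 16202952) (l 16268944))))) (a (b (c (b (c (l 16341048) (l 16281168)) (c (l 16278776) (l 16239616))) (l 16241552)) (a (b (c (a (c (l 16201112) (l 16216960)) (c (l 16180312) (l 16177368))) (l 16153928)) (c (l 16173928) (l 16300408))) (c (b (c (l 16197344) (l 16161824)) (c (a (l 16185160) (l 16142672)) (l 16002584))) (b (l 16150176) (l 16137728))))) (c (c (b (a (c (l 16332384) (l 16312752)) (c (l 16231896) (l 16329088))) (a (l 16159576) (l 16168408))) (b (l 16315408) (l 16149112))) (l 16161616)))), by decide +kernel⟩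

def k14_pm_022 : ∃ t, chk3 f_pm_022 t 9 21 1 = true :=
  ⟨(a (a (c (b (a (l 16266784) (l 16373456)) (l 16193360)) (l 16163488)) (b (c (a (l 16353904) (l 16345824)) (l 16346040)) (l 16230616))) (a (b (l 16254616) (l 16225488)) (l 16157840))), by decide +kernel⟩

def k15_pm_022 : ∃ t, chk3 f_pm_022 t 5 21 1 = true :=
  ⟨(a (a (l 16003168) (l 15783680)) (a (l 15545952) (l 1))), by decide +kernel⟩

def k16_pm_022 : ∃ t, chk3 f_pm_022 t 2 11 1 = true :=
  ⟨(a (a (c (a (a (b (a (c (l 15423184) (l 15297536)) (c (a (b (l 15787776) (l 15500264)) (l 15619032)) (a (l 15607016) (l 15669896)))) (a (c (l 15094904) (l 15089312)) (b (c (a (l 15246592) (l 15311472)) (l 15239128)) (l 15153824)))) (b (a (c (b (l 15872792) (l 15666728)) (l 15562192)) (b (c (l 16035744) (l 16157048)) (l 15873464))) (b (a (l 15398728) (l 15595240)) (a (l 15208928) (l 15346304))))) (b (a (b (a (l 16216944) (l 16091616)) (a (l 16027008) (l 16234360))) (b (a (b (c (a (l 16127840) (l 16066472)) (l 16086592)) (l 16159096))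 (b (l 16043808) (a (l 16050720) (l 15994136)))) (a (l 16273816) (l 16106288)))) (a (b (l 15816544) (l 15675872)) (a (l 15994224) (l 16246224))))) (a (a (b (a (c (a (l 15378192) (l 15488752)) (a (l 15347136) (l 15471664))) (c (l 15524040) (l 15643224))) (a (b (c (l 15082272) (l 15068176)) (l 15042544)) (b (l 15213088) (l 15107160)))) (b (a (l 15712448) (b (l 16237720) (l 15934576))) (b (l 15533792) (l 15317824)))) (b (a (b (l 16254120) (l 16259424)) (b (b (l 16043152) (l 16024920)) (l 16221960))) (a (l 15830352) (l 16203912))))) (a (b (a (b (c (l 16031040) (l 16016336)) (c (a (b (l 15971760) (l 16076128)) (l 15929592)) (a (l 16018232) (l 15911984)))) (l 15981832)) (a (b (l 15941856) (l 16342488)) (b (b (l 15831936) (l 15881408)) (l 16084456)))) (a (b (l 16026400) (b (l 15789112) (l 15770536))) (b (l 16005160) (l 15784416))))) (a (b (a (l 15904424) (l 15819632)) (a (l 15849512) (l 15840968))) (a (l 15621272) (l 15442136)))), by decide +kernel⟩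

def k17_pm_022 : ∃ t, chk3 f_pm_022 t 3 5 1 = true :=
  ⟨(b (l 1) (a (c (l 602399313047) (l 476234572423)) (l 1))), by decide +kernel⟩

def k18_pm_022 : ∃ t, chk3 f_pm_022 t 1 3 1 = true :=
  ⟨(a (a (b (a (a (a (c (b (a (l 15073704) (l 15153280)) (l 15107344)) (a (b (l 15042544) (l 15042544)) (l 15106592))) (c (b (l 15223352) (l 15223200)) (l 15241056))) (b (b (a (b (c (l 15475680) (l 15487584)) (l 15405928)) (b (l 15828704) (l 15529168))) (l 15491024)) (l 15490848))) (b (a (b (a (l 16002136) (l 16427216)) (a (l 15797440) (l 16069432))) (b (a (l 16075464) (l 15633600)) (l 16399776))) (a (l 15833976) (b (l 16220216) (l 16113400))))) (a (a (a (c (l 15107344) (l 15079184)) (l 14983936)) (l 15490848)) (a (l 15833864) (l 16113256)))) (b (a (b (a (b (b (l 15671536) (l 15615960)) (b (l 15719288) (l 15969904))) (b (l 15721520) (l 15529224))) (a (b (l 16424192) (l 16410496)) (b (l 15594256) (l 16315000)))) (b (a (l 15444568) (l 15583424)) (a (b (l 15404040) (l 15629200)) (b (l 15512160)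 (l 15340472))))) (a (b (a (l 16315744) (l 16557024)) (l 16410784)) (b (a (b (l 16216736) (l 16668208)) (b (l 15572976) (l 16167904))) (l 16722320))))) (b (a (b (l 15424320) (a (l 15387136) (l 15493280))) (l 559449404343)) (a (b (a (b (l 15497816) (l 15287320)) (l 15533936)) (a (b (a (l 16167832) (l 15572896)) (l 16381416)) (b (l 15497816) (l 15518000)))) (b (l 15424320) (l 15496728))))), by decide +kernel⟩

theorem s19_pm_022 : ∃ t, chk3 f_pm_022 t 4 21 1 = true := ex3_a k13_pm_022 k14_pm_022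

theorem s20_pm_022 : ∃ t, chk3 f_pm_022 t 2 21 1 = true := ex3_a s19_pm_022 k15_pm_022

theorem s21_pm_022 : ∃ t, chk3 f_pm_022 t 16 335 2 = true := ex3_a k7_pm_022 k8_pm_022

theorem s22_pm_022 : ∃ t, chk3 f_pm_022 t 16 335 1 = true := ex3_c s21_pm_022 k9_pm_022

theorem s23_pm_022 : ∃ t, chk3 f_pm_022 t 8 335 1 = true := ex3_a s22_pm_022 k10_pm_022

theorem s24_pm_022 : ∃ t, chk3 f_pm_022 t 8 334 1 = true := ex3_a k5_pm_022 k6_pm_022

theorem s25_pm_022 : ∃ t, chk3 f_pm_022 t 8 167 1 = true := ex3_b s24_pm_022 s23_pm_022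

theorem s26_pm_022 : ∃ t, chk3 f_pm_022 t 4 167 1 = true := ex3_a s25_pm_022 k11_pm_022

theorem s27_pm_022 : ∃ t, chk3 f_pm_022 t 4 166 1 = true := ex3_b k3_pm_022 k4_pm_022

theorem s28_pm_022 : ∃ t, chk3 f_pm_022 t 4 83 1 = true := ex3_b s27_pm_022 s26_pm_022

theorem s29_pm_022 : ∃ t, chk3 f_pm_022 t 4 41 1 = true := ex3_b k2_pm_022 s28_pm_022

theorem s30_pm_022 : ∃ t, chk3 f_pm_022 t 2 41 1 = true := ex3_a s29_pm_022 k12_pm_022

theorem s31_pm_022 : ∃ t, chk3 f_pm_022 t 2 20 1 = true := ex3_b k1_pm_022 s30_pm_022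

theorem s32_pm_022 : ∃ t, chk3 f_pm_022 t 2 10 1 = true := ex3_b s31_pm_022 s20_pm_022

theorem s33_pm_022 : ∃ t, chk3 f_pm_022 t 2 5 1 = true := ex3_b s32_pm_022 k16_pm_022

theorem s34_pm_022 : ∃ t, chk3 f_pm_022 t 1 5 1 = true := ex3_a s33_pm_022 k17_pm_022

theorem s35_pm_022 : ∃ t, chk3 f_pm_022 t 1 2 1 = true := ex3_b k0_pm_022 s34_pm_022

theorem s36_pm_022 : ∃ t, chk3 f_pm_022 t 1 1 1 = true := ex3_b s35_pm_022 k18_pm_022

theorem c_pm_022 : CertFX 0 536870912 1073741824 536870912 1046898278 26843546 true true false .pp 0 2 2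
    ndF5q0 ndF6q2 pcF2 Cut.none Ext.none :=
  certFX1 (fam := true) (s1 := true) (s2 := false) (a := 0) (b := 2) (c := 2) (cn := .pp) (n1 := ndF5q0) (n2 := ndF6q2) (pc := pcF2) (cut := Cut.none) (xt := Ext.none) (P1 := 0) (W1 := 536870912) (P2 := 1073741824) (W2 := 536870912) (P3 := 1046898278) (W3 := 26843546)
    rfl (fun _ => rfl) s36_pm_022

noncomputable def f_pm_023 : ℕ → ℕ → ℕ → ℕ → Bool := onCell 1610612736 536870912 1073741824 536870912 1046898278 26843546
    (rowFX 2 true true false .up 0 2 3 (qsf 0 536870912 1073741824 536870912 3) ndF5q0 ndF6q2 pcF3 Cut.none Ext.none)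

def k0_pm_023 : ∃ t, chk3 f_pm_023 t 1 1 1 = true :=
  ⟨(b (a (b (a (a (l 15533936) (l 15533936)) (l 15533936)) (a (b (a (l 15572896) (l 15572896)) (a (l 16626968) (l 16626968))) (b (l 15572896) (l 16626968)))) (a (b (l 2) (a (l 453217752951) (l 2))) (l 2))) (a (a (b (a (l 16610160) (l 16762616)) (a (b (l 16168264) (a (b (l 15658672) (a (b (l 15276208) (l 15153832)) (l 15421112))) (l 15797920))) (b (l 16555552) (a (l 16064800) (l 16310512))))) (b (l 16777216) (a (l 16610160) (l 16762616)))) (a (a (l 16777208) (a (l 16777160) (l 16777168))) (a (a (l 16776928) (l 16768736)) (l 4))))), by decide +kernel⟩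

theorem c_pm_023 : CertFX 0 536870912 1073741824 536870912 1046898278 26843546 true true false .up 0 2 3
    ndF5q0 ndF6q2 pcF3 Cut.none Ext.none :=
  certFX2 (fam := true) (s1 := true) (s2 := false) (a := 0) (b := 2) (c := 3) (cn := .up) (n1 := ndF5q0) (n2 := ndF6q2) (pc := pcF3) (cut := Cut.none) (xt := Ext.none) (P1 := 0) (W1 := 536870912) (P2 := 1073741824) (W2 := 536870912) (P3 := 1046898278) (W3 := 26843546)
    rfl (fun _ => rfl) k0_pm_023

noncomputable def f_pm_033 : ℕ → ℕ → ℕ → ℕ → Bool := onCell 0 536870912 0 1230186008 1046898278 26843546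
    (rowFX 0 true true false .pnn 0 3 3 (qsf 0 536870912 0 1230186008 3) ndF5q0 ndF6q3 pcF3 Cut.none Ext.none)

def k0_pm_033 : ∃ t, chk3 f_pm_033 t 1 2 1 = true :=
  ⟨(b (l 4) (a (l 4) (l 2))), by decide +kernel⟩

def k1_pm_033 : ∃ t, chk3 f_pm_033 t 1 6 1 = true :=
  ⟨(a (a (b (a (b (l 4) (a (c (a (b (l 15107288) (l 15107288)) (l 15076344)) (a (b (l 15079120) (l 15079112)) (l 15240904))) (a (c (l 187599685399) (l 15413912)) (l 4)))) (l 4)) (b (a (a (a (c (l 15107304) (a (l 15042496) (l 15106544))) (c (l 15223160) (l 15240928))) (c (b (l 15496088) (l 15496104)) (b (l 15493712) (l 15493728)))) (a (b (l 4) (c (l 15844960) (l 15820304))) (l 4))) (a (a (a (c (l 15107344) (l 15079184)) (c (l 15223192) (l 15240968))) (b (l 15469848) (l 15490832))) (c (a (l 127471024199) (b (l 16121616) (l 16121744))) (a (b (l 15820312) (l 15820296)) (b (l 16104560) (l 16104712))))))) (b (l 4) (a (b (l 4) (a (b (l 4) (c (l 16320760) (l 16308744))) (l 4))) (l 4)))) (l 4)), by decide +kernel⟩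

def k2_pm_033 : ∃ t, chk3 f_pm_033 t 1 7 1 = true :=
  ⟨(a (a (b (a (a (a (c (l 15023456) (a (l 15042544) (l 15106592))) (a (l 15181816) (l 15239864))) (b (a (l 15405544) (l 15585896)) (l 15490848))) (a (b (b (l 15833848) (l 15833864)) (l 15833864)) (b (b (l 16113224) (l 16113224)) (b (l 16113240) (l 16113256))))) (b (a (a (a (c (l 15107344) (l 15079184)) (l 15214624)) (l 15490848)) (l 15967568)) (a (a (a (l 15089808) (l 15214624)) (l 15490848)) (l 15736880)))) (a (a (b (b (b (l 16315640) (l 16315632)) (b (l 16315632) (l 16315648))) (l 16252744)) (b (b (b (c (l 16506032) (l 16498648)) (c (l 16507808) (l 16500808))) (b (l 16504296) (l 16504288))) (b (b (l 16504312) (l 16504320)) (l 16504328)))) (a (b (b (b (l 4) (l 4)) (b (c (l 16684168) (l 16681672)) (l 16683496))) (b (b (l 16683488) (l 16683504)) (l 16683520))) (b (b (l 4) (b (l 4) (c (l 16775784) (l 16775744)))) (b (b (l 16777056) (l 16777040)) (b (l 16777064) (l 16777080))))))) (b (a (a (b (l 4) (a (l 4) (l 4))) (l 4))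 (l 2)) (a (b (a (b (a (l 191360954007) (c (l 16771496) (l 16771176))) (a (l 16777184) (l 16776528))) (a (b (l 4) (c (l 16771520) (l 16771152))) (l 4))) (a (c (b (l 16777176) (l 16777200)) (b (l 16777176) (l 16777200))) (b (a (l 16775480) (c (l 16771688) (l 16771336))) (a (l 16777176) (l 16775960))))) (b (l 4) (a (b (l 4) (a (c (l 16771976) (l 16771704)) (l 4))) (l 4)))))), by decide +kernel⟩

theorem s3_pm_033 : ∃ t, chk3 f_pm_033 t 1 3 1 = true := ex3_b k1_pm_033 k2_pm_033

theorem s4_pm_033 : ∃ t, chk3 f_pm_033 t 1 1 1 = true := ex3_b k0_pm_033 s3_pm_033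

theorem c_pm_033 : CertFX 0 536870912 0 1230186008 1046898278 26843546 true true false .pnn 0 3 3
    ndF5q0 ndF6q3 pcF3 Cut.none Ext.none :=
  certFX0 (fam := true) (s1 := true) (s2 := false) (a := 0) (b := 3) (c := 3) (cn := .pnn) (n1 := ndF5q0) (n2 := ndF6q3) (pc := pcF3) (cut := Cut.none) (xt := Ext.none) (P1 := 0) (W1 := 536870912) (P2 := 0) (W2 := 1230186008) (P3 := 1046898278) (W3 := 26843546)
    rfl s4_pm_033

noncomputable def f_pm_101 : ℕ → ℕ → ℕ → ℕ → Bool := onCell 536870912 536870912 0 536870912 1046898278 26843546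
    (rowFX 2 true true false .npn 1 0 1 (qsf 536870912 469762048 0 536870912 1) ndF5q1 ndF6q0 pcF1 Cut.none Ext.none)

def k0_pm_101 : ∃ t, chk3 f_pm_101 t 1 1 1 = true :=
  ⟨(a (l 3) (l 3)), by decide +kernel⟩

theorem c_pm_101 : CertFX 536870912 469762048 0 536870912 1046898278 26843546 true true false .npn 1 0 1
    ndF5q1 ndF6q0 pcF1 Cut.none Ext.none :=
  certFX2 (fam := true) (s1 := true) (s2 := false) (a := 1) (b := 0) (c := 1) (cn := .npn) (n1 := ndF5q1) (n2 := ndF6q0) (pc := pcF1) (cut := Cut.none) (xt := Ext.none) (P1 := 536870912) (W1 := 469762048) (P2 := 0) (W2 := 536870912) (P3 := 1046898278) (W3 := 26843546)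
    rfl (fun _ => rfl) k0_pm_101

noncomputable def f_pm_102 : ℕ → ℕ → ℕ → ℕ → Bool := onCell 536870912 469762048 1073741824 536870912 1046898278 26843546
    (rowFX 1 true true false .npp 1 0 2 (qsf 536870912 469762048 0 536870912 2) ndF5q1 ndF6q0 pcF2 Cut.none Ext.none)

def k0_pm_102 : ∃ t, chk3 f_pm_102 t 1 1 1 = true :=
  ⟨(b (b (l 3) (b (b (b (l 3) (a (a (l 2) (b (l 3) (b (l 16777216) (b (l 16777216) (c (l 16777216) (c (l 16777216) (l 16777216))))))) (b (l 3) (b (a (l 16716232) (l 3)) (b (a (a (l 16777216) (l 16694216)) (a (a (l 16515152) (l 16143272)) (c (l 15400176) (l 15199832)))) (b (b (b (a (l 16737208) (a (l 16332128) (l 15382832))) (a (a (l 16777216) (l 16694216)) (a (a (l 16515152) (l 16143272)) (c (l 15399800) (l 15136528))))) (a (l 16737208) (a (l 16332128) (l 15382760)))) (a (l 16737208) (a (l 16332128) (l 15382704))))))))) (a (l 16775648) (a (l 16737208) (a (l 16332128) (l 15382624))))) (a (l 16776992) (a (l 16737208) (a (l 16332128) (l 15382600)))))) (a (l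 2) (a (l 16737208) (a (l 16332128) (b (l 15382600) (l 15382600)))))), by decide +kernel⟩

theorem c_pm_102 : CertFX 536870912 469762048 0 536870912 1046898278 26843546 true true false .npp 1 0 2
    ndF5q1 ndF6q0 pcF2 Cut.none Ext.none :=
  certFX1 (fam := true) (s1 := true) (s2 := false) (a := 1) (b := 0) (c := 2) (cn := .npp) (n1 := ndF5q1) (n2 := ndF6q0) (pc := pcF2) (cut := Cut.none) (xt := Ext.none) (P1 := 536870912) (W1 := 469762048) (P2 := 0) (W2 := 536870912) (P3 := 1046898278) (W3 := 26843546)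
    rfl (fun _ => rfl) k0_pm_102

noncomputable def f_pm_112 : ℕ → ℕ → ℕ → ℕ → Bool := onCell 536870912 469762048 1073741824 536870912 1046898278 26843546
    (rowFX 1 true true false .dn 1 1 2 (qsf 536870912 469762048 536870912 469762048 2) ndF5q1 ndF6q1 pcF2 Cut.none Ext.none)

def k0_pm_112 : ∃ t, chk3 f_pm_112 t 1 1 1 = true :=
  ⟨(b (b (l 3) (a (b (b (b (l 3) (b (c (l 16777216) (l 7331676946391)) (b (c (l 16777216) (l 16777216)) (b (b (l 16777216) (l 16776424)) (c (a (l 16775040) (l 16777216)) (c (l 150894299127) (a (l 16774968) (l 16777216)))))))) (l 16775648)) (l 16776992)) (b (l 1) (a (l 16737208) (l 1))))) (a (b (a (b (l 16731240) (a (l 16119104) (l 16668720))) (l 16777216)) (a (b (a (a (l 14999864) (l 15280392)) (l 16038568)) (a (a (l 14223056) (l 14713816)) (c (l 15114584) (l 15203720)))) (b (l 16674368) (a (l 15952952) (l 16564344))))) (a (l 16737176) (a (l 16332128) (l 592735748743))))), by decide +kernel⟩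

theorem c_pm_112 : CertFX 536870912 469762048 536870912 469762048 1046898278 26843546 true true false .dn 1 1 2
    ndF5q1 ndF6q1 pcF2 Cut.none Ext.none :=
  certFX1 (fam := true) (s1 := true) (s2 := false) (a := 1) (b := 1) (c := 2) (cn := .dn) (n1 := ndF5q1) (n2 := ndF6q1) (pc := pcF2) (cut := Cut.none) (xt := Ext.none) (P1 := 536870912) (W1 := 469762048) (P2 := 536870912) (W2 := 469762048) (P3 := 1046898278) (W3 := 26843546)
    rfl (fun _ => rfl) k0_pm_112

noncomputable def f_pm_113 : ℕ → ℕ → ℕ → ℕ → Bool := onCell 536870912 469762048 536870912 469762048 1046898278 26843546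
    (rowFX 0 true true false .nn 1 1 3 (qsf 536870912 469762048 536870912 469762048 3) ndF5q1 ndF6q1 pcF3 Cut.none Ext.none)

def k0_pm_113 : ∃ t, chk3 f_pm_113 t 1 1 1 = true :=
  ⟨(b (a (l 1) (a (l 16737208) (a (l 16332128) (l 15382600)))) (a (b (l 596496298279) (b (l 15572176) (l 618504692311))) (b (a (l 16570584) (a (l 16171768) (l 15225440))) (a (b (l 15534432) (l 14915192)) (b (l 14719920) (l 14137648)))))), by decide +kernel⟩

theorem c_pm_113 : CertFX 536870912 469762048 536870912 469762048 1046898278 26843546 true true false .nn 1 1 3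
    ndF5q1 ndF6q1 pcF3 Cut.none Ext.none :=
  certFX0 (fam := true) (s1 := true) (s2 := false) (a := 1) (b := 1) (c := 3) (cn := .nn) (n1 := ndF5q1) (n2 := ndF6q1) (pc := pcF3) (cut := Cut.none) (xt := Ext.none) (P1 := 536870912) (W1 := 469762048) (P2 := 536870912) (W2 := 469762048) (P3 := 1046898278) (W3 := 26843546)
    rfl k0_pm_113

noncomputable def f_pm_123 : ℕ → ℕ → ℕ → ℕ → Bool := onCell 1610612736 536870912 1073741824 536870912 1046898278 26843546
    (rowFX 2 true true false .npn 1 2 3 (qsf 536870912 469762048 1073741824 536870912 3) ndF5q1 ndF6q2 pcF3 Cut.none Ext.none)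

def k0_pm_123 : ∃ t, chk3 f_pm_123 t 1 1 1 = true :=
  ⟨(a (b (b (a (a (l 15533936) (l 15533936)) (l 15533936)) (a (b (l 768292917559) (l 1)) (b (l 15572896) (l 16626968)))) (a (l 1) (l 16777216))) (a (b (b (a (l 15529216) (b (l 15459008) (l 15509424))) (a (b (l 15572912) (l 16626976)) (b (l 15572952) (l 16627016)))) (a (l 16777208) (a (l 16777160) (l 16777168)))) (a (b (b (b (a (l 15335528) (l 15308232)) (a (l 15513824) (l 15563872))) (b (a (l 15573240) (l 15584488)) (a (l 16627248) (l 16628816)))) (a (l 16776928) (l 16768736))) (b (a (a (b (b (l 15396696) (l 15676208)) (l 4)) (l 4)) (l 4)) (l 4))))), by decide +kernel⟩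

theorem c_pm_123 : CertFX 536870912 469762048 1073741824 536870912 1046898278 26843546 true true false .npn 1 2 3
    ndF5q1 ndF6q2 pcF3 Cut.none Ext.none :=
  certFX2 (fam := true) (s1 := true) (s2 := false) (a := 1) (b := 2) (c := 3) (cn := .npn) (n1 := ndF5q1) (n2 := ndF6q2) (pc := pcF3) (cut := Cut.none) (xt := Ext.none) (P1 := 536870912) (W1 := 469762048) (P2 := 1073741824) (W2 := 536870912) (P3 := 1046898278) (W3 := 26843546)
    rfl (fun _ => rfl) k0_pm_123

noncomputable def f_pm_133 : ℕ → ℕ → ℕ → ℕ → Bool := onCell 536870912 469762048 0 1230186008 1046898278 26843546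
    (rowFX 0 true true false .dn 1 3 3 (qsf 536870912 469762048 0 1230186008 3) ndF5q1 ndF6q3 pcF3 Cut.none Ext.none)

def k0_pm_133 : ∃ t, chk3 f_pm_133 t 1 1 1 = true :=
  ⟨(b (l 2) (b (l 2) (l 4))), by decide +kernel⟩

theorem c_pm_133 : CertFX 536870912 469762048 0 1230186008 1046898278 26843546 true true false .dn 1 3 3
    ndF5q1 ndF6q3 pcF3 Cut.none Ext.none :=
  certFX0 (fam := true) (s1 := true) (s2 := false) (a := 1) (b := 3) (c := 3) (cn := .dn) (n1 := ndF5q1) (n2 := ndF6q3) (pc := pcF3) (cut := Cut.none) (xt := Ext.none) (P1 := 536870912) (W1 := 469762048) (P2 := 0) (W2 := 1230186008) (P3 := 1046898278) (W3 := 26843546)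
    rfl k0_pm_133

noncomputable def f_pm_202 : ℕ → ℕ → ℕ → ℕ → Bool := onCell 1073741824 536870912 0 536870912 1046898278 26843546
    (rowFX 2 true true false .pp 2 0 2 (qsf 1073741824 536870912 0 536870912 2) ndF5q2 ndF6q0 pcF2 Cut.none Ext.none)

def k0_pm_202 : ∃ t, chk3 f_pm_202 t 4 2 1 = true :=
  ⟨(b (b (b (a (b (c (a (b (l 16340152) (a (l 16582576) (l 16121592))) (b (l 15582592) (l 15663408))) (a (b (c (l 16075104) (a (b (l 16502584) (l 16549224)) (l 15947536))) (a (l 16496816) (l 16151456))) (b (c (l 15554920) (l 15305680)) (l 15636752)))) (c (a (a (l 414497393111) (l 16376040)) (l 441875812743)) (a (a (l 16684728) (l 16338200)) (l 15758176)))) (b (c (b (l 14524064) (a (l 14966584) (l 14248112))) (b (c (l 14224688) (a (l 14820984) (l 14085944))) (a (l 14921800) (l 14184584)))) (c (a (l 15105912) (l 14377088)) (a (l 15038520) (l 14292576))))) (a (a (a (l 1) (c (l 145524755015) (l 174515681415))) (c (a (l 16004856) (l 15867960)) (a (l 15975408) (l 15829608)))) (a (c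 (l 15337296) (l 15286104)) (c (l 14592112) (l 14522584))))) (a (b (a (l 1) (a (l 1) (b (l 16110352) (l 1)))) (l 1)) (a (b (b (l 15562048) (l 15741744)) (a (l 1) (l 15874584))) (b (l 14874072) (l 15236392))))) (a (l 1) (b (a (l 1) (b (l 683467520871) (l 1))) (l 1)))), by decide +kernel⟩

def k1_pm_202 : ∃ t, chk3 f_pm_202 t 5 2 1 = true :=
  ⟨(b (a (b (b (a (b (a (c (l 13712704) (b (l 13425168) (l 13666976))) (c (b (l 13867256) (l 13775440)) (b (c (l 13807408) (l 13725472)) (l 13699560)))) (a (c (l 13864096) (l 13767592)) (c (l 13831616) (l 13735240)))) (b (c (b (l 14998400) (l 14778984)) (b (c (l 14961152) (l 14684584)) (l 14729432))) (c (a (l 14199480) (l 14839064)) (a (l 14113736) (l 14771112))))) (a (a (l 14025560) (l 13981656)) (b (a (l 14116936) (l 14450552)) (l 14335880)))) (a (a (b (l 14322280) (l 14664560)) (b (l 14263944) (l 14591328))) (b (l 14534504) (l 14837400)))) (b (b (a (b (c (b (l 16427792) (l 16018392)) (b (a (c (l 16070376) (l 16060360)) (l 16342352)) (a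 (l 15860184) (l 16564984)))) (c (a (l 15577456) (l 16277168)) (a (l 15530120) (l 16250184)))) (b (c (l 16056864) (b (c (l 15988792) (l 15982312)) (l 15946048))) (c (l 16283680) (l 16300144)))) (a (b (c (l 15451184) (l 15384328)) (a (l 14762872) (l 15374144))) (c (l 16163960) (a (l 16124448) (l 16543360))))) (a (b (b (a (l 14718792) (l 15036560)) (l 14921080)) (l 15129208)) (b (b (l 15704360) (l 15205480)) (l 15041008))))) (a (a (b (a (l 641590886967) (l 517573414487)) (l 1)) (b (b (l 15194560) (l 15580120)) (l 1035654593527))) (a (b (l 15625272) (b (l 16183704) (l 16297344))) (b (l 15552856) (l 16057728))))), by decide +kernel⟩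

def k2_pm_202 : ∃ t, chk3 f_pm_202 t 2 3 1 = true :=
  ⟨(a (l 1) (a (l 1) (a (l 1) (b (b (l 784937483351) (l 1)) (l 1))))), by decide +kernel⟩

def k3_pm_202 : ∃ t, chk3 f_pm_202 t 3 1 1 = true :=
  ⟨(b (a (b (b (b (b (c (l 15907608) (b (l 15877120) (l 15991144))) (c (l 16046112) (l 16054480))) (a (a (b (l 16192568) (l 16437440)) (l 16172640)) (l 16172408))) (a (b (a (b (l 16472272) (l 16049728)) (l 16317680)) (a (a (l 15265744) (l 15591248)) (l 16182152))) (b (l 16334160) (a (l 16600992) (l 16465288))))) (a (b (a (b (l 15118496) (l 15325584)) (b (l 15242440) (l 15053936))) (l 78413883271)) (b (a (b (l 16124672) (l 15288920)) (b (l 16679464) (l 16072560))) (a (b (l 14994600) (l 15226952)) (b (l 15277816) (l 14965000)))))) (b (b (b (a (b (l 15836760) (l 16042264)) (l 16017960)) (a (l 16172408) (l 16172408))) (a (l 16396768) (l 16396768))) (a (b (a (l 16676608) (l 16604720)) (a (b (l 16025848) (l 15251632)) (b (l 16605224) (l 16003088)))) (b (l 16604624) (a (l 16661472) (l 16755816))))))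 (a (b (a (b (a (l 16653456) (l 16247456)) (l 886942516215)) (b (l 15546408) (a (l 16716368) (l 16247456)))) (a (l 1) (b (l 961567789255) (l 1)))) (b (a (b (a (l 15087328) (b (l 15251592) (l 14964960))) (l 15609328)) (b (a (b (l 16003056) (l 15251592)) (l 16043192)) (a (l 15192184) (l 15039304)))) (a (b (l 16477848) (l 1096322266279)) (b (l 15609328) (l 16477848)))))), by decide +kernel⟩

theorem s4_pm_202 : ∃ t, chk3 f_pm_202 t 2 2 1 = true := ex3_a k0_pm_202 k1_pm_202

theorem s5_pm_202 : ∃ t, chk3 f_pm_202 t 2 1 1 = true := ex3_b s4_pm_202 k2_pm_202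

theorem s6_pm_202 : ∃ t, chk3 f_pm_202 t 1 1 1 = true := ex3_a s5_pm_202 k3_pm_202

theorem c_pm_202 : CertFX 1073741824 536870912 0 536870912 1046898278 26843546 true true false .pp 2 0 2
    ndF5q2 ndF6q0 pcF2 Cut.none Ext.none :=
  certFX2 (fam := true) (s1 := true) (s2 := false) (a := 2) (b := 0) (c := 2) (cn := .pp) (n1 := ndF5q2) (n2 := ndF6q0) (pc := pcF2) (cut := Cut.none) (xt := Ext.none) (P1 := 1073741824) (W1 := 536870912) (P2 := 0) (W2 := 536870912) (P3 := 1046898278) (W3 := 26843546)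
    rfl (fun _ => rfl) s6_pm_202

noncomputable def f_pm_203 : ℕ → ℕ → ℕ → ℕ → Bool := onCell 1073741824 536870912 1610612736 536870912 1046898278 26843546
    (rowFX 1 true true false .up 2 0 3 (qsf 1073741824 536870912 0 536870912 3) ndF5q2 ndF6q0 pcF3 Cut.none Ext.none)

def k0_pm_203 : ∃ t, chk3 f_pm_203 t 1 1 1 = true :=
  ⟨(b (a (a (b (b (l 15609328) (l 15588352)) (b (l 15378640) (l 2))) (b (a (b (l 15251592) (l 15251592)) (b (l 16585904) (l 16585904))) (b (a (l 15083824) (l 16585904)) (a (l 4) (l 4))))) (b (a (b (l 16700064) (l 16770576)) (b (a (l 16491960) (b (a (l 16251760) (l 16107864)) (l 16317736))) (b (l 16536032) (l 16633384)))) (b (a (l 16777216) (l 16700064)) (l 4)))) (b (l 4) (l 4))), by decide +kernel⟩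

theorem c_pm_203 : CertFX 1073741824 536870912 0 536870912 1046898278 26843546 true true false .up 2 0 3
    ndF5q2 ndF6q0 pcF3 Cut.none Ext.none :=
  certFX1 (fam := true) (s1 := true) (s2 := false) (a := 2) (b := 0) (c := 3) (cn := .up) (n1 := ndF5q2) (n2 := ndF6q0) (pc := pcF3) (cut := Cut.none) (xt := Ext.none) (P1 := 1073741824) (W1 := 536870912) (P2 := 0) (W2 := 536870912) (P3 := 1046898278) (W3 := 26843546)
    rfl (fun _ => rfl) k0_pm_203

noncomputable def f_pm_213 : ℕ → ℕ → ℕ → ℕ → Bool := onCell 1073741824 536870912 1610612736 536870912 1046898278 26843546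
    (rowFX 1 true true false .pnn 2 1 3 (qsf 1073741824 536870912 536870912 469762048 3) ndF5q2 ndF6q1 pcF3 Cut.none Ext.none)

def k0_pm_213 : ∃ t, chk3 f_pm_213 t 1 1 1 = true :=
  ⟨(b (a (a (b (b (l 15588352) (l 15567384)) (b (a (l 16025520) (l 15226904)) (b (l 15546408) (l 4)))) (b (a (b (l 1) (l 15251592)) (l 1)) (b (a (l 15083824) (l 16460080)) (a (l 4) (l 4))))) (b (l 1) (b (l 1) (l 4)))) (b (l 4) (l 4))), by decide +kernel⟩

theorem c_pm_213 : CertFX 1073741824 536870912 536870912 469762048 1046898278 26843546 true true false .pnn 2 1 3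
    ndF5q2 ndF6q1 pcF3 Cut.none Ext.none :=
  certFX1 (fam := true) (s1 := true) (s2 := false) (a := 2) (b := 1) (c := 3) (cn := .pnn) (n1 := ndF5q2) (n2 := ndF6q1) (pc := pcF3) (cut := Cut.none) (xt := Ext.none) (P1 := 1073741824) (W1 := 536870912) (P2 := 536870912) (W2 := 469762048) (P3 := 1046898278) (W3 := 26843546)
    rfl (fun _ => rfl) k0_pm_213

noncomputable def f_pm_303 : ℕ → ℕ → ℕ → ℕ → Bool := onCell 0 1230186008 0 536870912 1046898278 26843546
    (rowFX 0 true true false .npn 3 0 3 (qsf 0 1230186008 0 536870912 3) ndF5q3 ndF6q0 pcF3 Cut.none Ext.none)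

def k0_pm_303 : ∃ t, chk3 f_pm_303 t 1 1 1 = true :=
  ⟨(a (l 4) (a (l 4) (b (a (a (l 4) (a (l 4) (b (b (b (c (l 16023392) (l 16014280)) (l 4)) (l 4)) (l 4)))) (a (b (b (b (c (l 16023392) (l 16014280)) (c (l 16174752) (l 16173648))) (c (l 16400696) (l 93112706407))) (l 4)) (b (b (b (c (l 16023392) (l 16014280)) (l 16172408)) (c (b (l 16339144) (l 16469104)) (b (l 16327560) (l 16461104)))) (b (c (l 16606832) (l 16602408)) (l 4))))) (l 4)))), by decide +kernel⟩

theorem c_pm_303 : CertFX 0 1230186008 0 536870912 1046898278 26843546 true true false .npn 3 0 3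
    ndF5q3 ndF6q0 pcF3 Cut.none Ext.none :=
  certFX0 (fam := true) (s1 := true) (s2 := false) (a := 3) (b := 0) (c := 3) (cn := .npn) (n1 := ndF5q3) (n2 := ndF6q0) (pc := pcF3) (cut := Cut.none) (xt := Ext.none) (P1 := 0) (W1 := 1230186008) (P2 := 0) (W2 := 536870912) (P3 := 1046898278) (W3 := 26843546)
    rfl k0_pm_303

noncomputable def f_pm_313 : ℕ → ℕ → ℕ → ℕ → Bool := onCell 0 1230186008 536870912 469762048 1046898278 26843546
    (rowFX 0 true true false .dn 3 1 3 (qsf 0 1230186008 536870912 469762048 3) ndF5q3 ndF6q1 pcF3 Cut.none Ext.none)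

def k0_pm_313 : ∃ t, chk3 f_pm_313 t 1 1 1 = true :=
  ⟨(a (l 2) (l 4)), by decide +kernel⟩

theorem c_pm_313 : CertFX 0 1230186008 536870912 469762048 1046898278 26843546 true true false .dn 3 1 3
    ndF5q3 ndF6q1 pcF3 Cut.none Ext.none :=
  certFX0 (fam := true) (s1 := true) (s2 := false) (a := 3) (b := 1) (c := 3) (cn := .dn) (n1 := ndF5q3) (n2 := ndF6q1) (pc := pcF3) (cut := Cut.none) (xt := Ext.none) (P1 := 0) (W1 := 1230186008) (P2 := 536870912) (W2 := 469762048) (P3 := 1046898278) (W3 := 26843546)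
    rfl k0_pm_313

noncomputable def f_mm_001 : ℕ → ℕ → ℕ → ℕ → Bool := onCell 0 536870912 0 536870912 1046898278 26843546
    (rowFX 0 true false false .up 0 0 1 (qsf 0 536870912 0 536870912 1) ndF5q0 ndF6q0 pcF1 Cut.none Ext.none)

def k0_mm_001 : ∃ t, chk3 f_mm_001 t 1 1 1 = true :=
  ⟨(l 4), by decide +kernel⟩

theorem c_mm_001 : CertFX 0 536870912 0 536870912 1046898278 26843546 true false false .up 0 0 1
    ndF5q0 ndF6q0 pcF1 Cut.none Ext.none :=
  certFX0 (fam := true) (s1 := false) (s2 := false) (a := 0) (b := 0) (c := 1) (cn := .up) (n1 := ndF5q0) (n2 := ndF6q0) (pc := pcF1) (cut := Cut.none) (xt := Ext.none) (P1 := 0) (W1 := 536870912) (P2 := 0) (W2 := 536870912) (P3 := 1046898278) (W3 := 26843546)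
    rfl k0_mm_001

noncomputable def f_mm_011 : ℕ → ℕ → ℕ → ℕ → Bool := onCell 0 536870912 536870912 469762048 1046898278 26843546
    (rowFX 0 true false false .pnn 0 1 1 (qsf 0 536870912 536870912 469762048 1) ndF5q0 ndF6q1 pcF1 Cut.none Ext.none)

def k0_mm_011 : ∃ t, chk3 f_mm_011 t 1 1 1 = true :=
  ⟨(l 4), by decide +kernel⟩

theorem c_mm_011 : CertFX 0 536870912 536870912 469762048 1046898278 26843546 true false false .pnn 0 1 1
    ndF5q0 ndF6q1 pcF1 Cut.none Ext.none :=
  certFX0 (fam := true) (s1 := false) (s2 := false) (a := 0) (b := 1) (c := 1) (cn := .pnn) (n1 := ndF5q0) (n2 := ndF6q1) (pc := pcF1) (cut := Cut.none) (xt := Ext.none) (P1 := 0) (W1 := 536870912) (P2 := 536870912) (W2 := 469762048) (P3 := 1046898278) (W3 := 26843546)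
    rfl k0_mm_011

noncomputable def f_mm_012 : ℕ → ℕ → ℕ → ℕ → Bool := onCell 0 536870912 536870912 469762048 1046898278 26843546
    (rowFX 0 true false false .pnp 0 1 2 (qsf 0 536870912 536870912 469762048 2) ndF5q0 ndF6q1 pcF2 Cut.none Ext.none)

def k0_mm_012 : ∃ t, chk3 f_mm_012 t 1 1 1 = true :=
  ⟨(l 4), by decide +kernel⟩

theorem c_mm_012 : CertFX 0 536870912 536870912 469762048 1046898278 26843546 true false false .pnp 0 1 2
    ndF5q0 ndF6q1 pcF2 Cut.none Ext.none :=
  certFX0 (fam := true) (s1 := false) (s2 := false) (a := 0) (b := 1) (c := 2) (cn := .pnp) (n1 := ndF5q0) (n2 := ndF6q1) (pc := pcF2) (cut := Cut.none) (xt := Ext.none) (P1 := 0) (W1 := 536870912) (P2 := 536870912) (W2 := 469762048) (P3 := 1046898278) (W3 := 26843546)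
    rfl k0_mm_012

noncomputable def f_mm_022 : ℕ → ℕ → ℕ → ℕ → Bool := onCell 0 536870912 1073741824 536870912 1046898278 26843546
    (rowFX 0 true false false .pp 0 2 2 (qsf 0 536870912 1073741824 536870912 2) ndF5q0 ndF6q2 pcF2 Cut.none Ext.none)

def k0_mm_022 : ∃ t, chk3 f_mm_022 t 1 1 1 = true :=
  ⟨(l 4), by decide +kernel⟩

theorem c_mm_022 : CertFX 0 536870912 1073741824 536870912 1046898278 26843546 true false false .pp 0 2 2
    ndF5q0 ndF6q2 pcF2 Cut.none Ext.none :=
  certFX0 (fam := true) (s1 := false) (s2 := false) (a := 0) (b := 2) (c := 2) (cn := .pp) (n1 := ndF5q0) (n2 := ndF6q2) (pc := pcF2) (cut := Cut.none) (xt := Ext.none) (P1 := 0) (W1 := 536870912) (P2 := 1073741824) (W2 := 536870912) (P3 := 1046898278) (W3 := 26843546)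
    rfl k0_mm_022

noncomputable def f_mm_023 : ℕ → ℕ → ℕ → ℕ → Bool := onCell 0 536870912 1073741824 536870912 1046898278 26843546
    (rowFX 0 true false false .up 0 2 3 (qsf 0 536870912 1073741824 536870912 3) ndF5q0 ndF6q2 pcF3 Cut.none Ext.none)

def k0_mm_023 : ∃ t, chk3 f_mm_023 t 1 1 1 = true :=
  ⟨(l 4), by decide +kernel⟩

theorem c_mm_023 : CertFX 0 536870912 1073741824 536870912 1046898278 26843546 true false false .up 0 2 3
    ndF5q0 ndF6q2 pcF3 Cut.none Ext.none :=
  certFX0 (fam := true) (s1 := false) (s2 := false) (a := 0) (b := 2) (c := 3) (cn := .up) (n1 := ndF5q0) (n2 := ndF6q2) (pc := pcF3) (cut := Cut.none) (xt := Ext.none) (P1 := 0) (W1 := 536870912) (P2 := 1073741824) (W2 := 536870912) (P3 := 1046898278) (W3 := 26843546)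
    rfl k0_mm_023

noncomputable def f_mm_033 : ℕ → ℕ → ℕ → ℕ → Bool := onCell 0 536870912 0 1230186008 1046898278 26843546
    (rowFX 0 true false false .pnn 0 3 3 (qsf 0 536870912 0 1230186008 3) ndF5q0 ndF6q3 pcF3 Cut.none Ext.none)

def k0_mm_033 : ∃ t, chk3 f_mm_033 t 1 1 1 = true :=
  ⟨(l 5), by decide +kernel⟩

theorem c_mm_033 : CertFX 0 536870912 0 1230186008 1046898278 26843546 true false false .pnn 0 3 3
    ndF5q0 ndF6q3 pcF3 Cut.none Ext.none :=
  certFX0 (fam := true) (s1 := false) (s2 := false) (a := 0) (b := 3) (c := 3) (cn := .pnn) (n1 := ndF5q0) (n2 := ndF6q3) (pc := pcF3) (cut := Cut.none) (xt := Ext.none) (P1 := 0) (W1 := 536870912) (P2 := 0) (W2 := 1230186008) (P3 := 1046898278) (W3 := 26843546)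
    rfl k0_mm_033

noncomputable def f_mm_101 : ℕ → ℕ → ℕ → ℕ → Bool := onCell 536870912 469762048 0 536870912 1046898278 26843546
    (rowFX 0 true false false .npn 1 0 1 (qsf 536870912 469762048 0 536870912 1) ndF5q1 ndF6q0 pcF1 Cut.none Ext.none)

def k0_mm_101 : ∃ t, chk3 f_mm_101 t 1 1 1 = true :=
  ⟨(l 4), by decide +kernel⟩

theorem c_mm_101 : CertFX 536870912 469762048 0 536870912 1046898278 26843546 true false false .npn 1 0 1
    ndF5q1 ndF6q0 pcF1 Cut.none Ext.none :=
  certFX0 (fam := true) (s1 := false) (s2 := false) (a := 1) (b := 0) (c := 1) (cn := .npn) (n1 := ndF5q1) (n2 := ndF6q0) (pc := pcF1) (cut := Cut.none) (xt := Ext.none) (P1 := 536870912) (W1 := 469762048) (P2 := 0) (W2 := 536870912) (P3 := 1046898278) (W3 := 26843546)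
    rfl k0_mm_101

noncomputable def f_mm_102 : ℕ → ℕ → ℕ → ℕ → Bool := onCell 536870912 469762048 0 536870912 1046898278 26843546
    (rowFX 0 true false false .npp 1 0 2 (qsf 536870912 469762048 0 536870912 2) ndF5q1 ndF6q0 pcF2 Cut.none Ext.none)

def k0_mm_102 : ∃ t, chk3 f_mm_102 t 1 1 1 = true :=
  ⟨(l 4), by decide +kernel⟩

theorem c_mm_102 : CertFX 536870912 469762048 0 536870912 1046898278 26843546 true false false .npp 1 0 2
    ndF5q1 ndF6q0 pcF2 Cut.none Ext.none :=
  certFX0 (fam := true) (s1 := false) (s2 := false) (a := 1) (b := 0) (c := 2) (cn := .npp) (n1 := ndF5q1) (n2 := ndF6q0) (pc := pcF2) (cut := Cut.none) (xt := Ext.none) (P1 := 536870912) (W1 := 469762048) (P2 := 0) (W2 := 536870912) (P3 := 1046898278) (W3 := 26843546)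
    rfl k0_mm_102

noncomputable def f_mm_112 : ℕ → ℕ → ℕ → ℕ → Bool := onCell 536870912 469762048 536870912 469762048 1046898278 26843546
    (rowFX 0 true false false .dn 1 1 2 (qsf 536870912 469762048 536870912 469762048 2) ndF5q1 ndF6q1 pcF2 Cut.none Ext.none)

def k0_mm_112 : ∃ t, chk3 f_mm_112 t 1 1 1 = true :=
  ⟨(l 4), by decide +kernel⟩

theorem c_mm_112 : CertFX 536870912 469762048 536870912 469762048 1046898278 26843546 true false false .dn 1 1 2
    ndF5q1 ndF6q1 pcF2 Cut.none Ext.none :=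
  certFX0 (fam := true) (s1 := false) (s2 := false) (a := 1) (b := 1) (c := 2) (cn := .dn) (n1 := ndF5q1) (n2 := ndF6q1) (pc := pcF2) (cut := Cut.none) (xt := Ext.none) (P1 := 536870912) (W1 := 469762048) (P2 := 536870912) (W2 := 469762048) (P3 := 1046898278) (W3 := 26843546)
    rfl k0_mm_112

noncomputable def f_mm_113 : ℕ → ℕ → ℕ → ℕ → Bool := onCell 536870912 469762048 536870912 469762048 1046898278 26843546
    (rowFX 0 true false false .nn 1 1 3 (qsf 536870912 469762048 536870912 469762048 3) ndF5q1 ndF6q1 pcF3 Cut.none Ext.none)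

def k0_mm_113 : ∃ t, chk3 f_mm_113 t 1 1 1 = true :=
  ⟨(l 4), by decide +kernel⟩

theorem c_mm_113 : CertFX 536870912 469762048 536870912 469762048 1046898278 26843546 true false false .nn 1 1 3
    ndF5q1 ndF6q1 pcF3 Cut.none Ext.none :=
  certFX0 (fam := true) (s1 := false) (s2 := false) (a := 1) (b := 1) (c := 3) (cn := .nn) (n1 := ndF5q1) (n2 := ndF6q1) (pc := pcF3) (cut := Cut.none) (xt := Ext.none) (P1 := 536870912) (W1 := 469762048) (P2 := 536870912) (W2 := 469762048) (P3 := 1046898278) (W3 := 26843546)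
    rfl k0_mm_113

noncomputable def f_mm_123 : ℕ → ℕ → ℕ → ℕ → Bool := onCell 536870912 469762048 1073741824 536870912 1046898278 26843546
    (rowFX 0 true false false .npn 1 2 3 (qsf 536870912 469762048 1073741824 536870912 3) ndF5q1 ndF6q2 pcF3 Cut.none Ext.none)

def k0_mm_123 : ∃ t, chk3 f_mm_123 t 1 1 1 = true :=
  ⟨(l 4), by decide +kernel⟩

theorem c_mm_123 : CertFX 536870912 469762048 1073741824 536870912 1046898278 26843546 true false false .npn 1 2 3
    ndF5q1 ndF6q2 pcF3 Cut.none Ext.none :=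
  certFX0 (fam := true) (s1 := false) (s2 := false) (a := 1) (b := 2) (c := 3) (cn := .npn) (n1 := ndF5q1) (n2 := ndF6q2) (pc := pcF3) (cut := Cut.none) (xt := Ext.none) (P1 := 536870912) (W1 := 469762048) (P2 := 1073741824) (W2 := 536870912) (P3 := 1046898278) (W3 := 26843546)
    rfl k0_mm_123

noncomputable def f_mm_133 : ℕ → ℕ → ℕ → ℕ → Bool := onCell 536870912 469762048 0 1230186008 1046898278 26843546
    (rowFX 0 true false false .dn 1 3 3 (qsf 536870912 469762048 0 1230186008 3) ndF5q1 ndF6q3 pcF3 Cut.none Ext.none)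

def k0_mm_133 : ∃ t, chk3 f_mm_133 t 1 1 1 = true :=
  ⟨(l 4), by decide +kernel⟩

theorem c_mm_133 : CertFX 536870912 469762048 0 1230186008 1046898278 26843546 true false false .dn 1 3 3
    ndF5q1 ndF6q3 pcF3 Cut.none Ext.none :=
  certFX0 (fam := true) (s1 := false) (s2 := false) (a := 1) (b := 3) (c := 3) (cn := .dn) (n1 := ndF5q1) (n2 := ndF6q3) (pc := pcF3) (cut := Cut.none) (xt := Ext.none) (P1 := 536870912) (W1 := 469762048) (P2 := 0) (W2 := 1230186008) (P3 := 1046898278) (W3 := 26843546)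
    rfl k0_mm_133

noncomputable def f_mm_202 : ℕ → ℕ → ℕ → ℕ → Bool := onCell 1073741824 536870912 0 536870912 1046898278 26843546
    (rowFX 0 true false false .pp 2 0 2 (qsf 1073741824 536870912 0 536870912 2) ndF5q2 ndF6q0 pcF2 Cut.none Ext.none)

def k0_mm_202 : ∃ t, chk3 f_mm_202 t 1 1 1 = true :=
  ⟨(l 4), by decide +kernel⟩

theorem c_mm_202 : CertFX 1073741824 536870912 0 536870912 1046898278 26843546 true false false .pp 2 0 2
    ndF5q2 ndF6q0 pcF2 Cut.none Ext.none :=
  certFX0 (fam := true) (s1 := false) (s2 := false) (a := 2) (b := 0) (c := 2) (cn := .pp) (n1 := ndF5q2) (n2 := ndF6q0) (pc := pcF2) (cut := Cut.none) (xt := Ext.none) (P1 := 1073741824) (W1 := 536870912) (P2 := 0) (W2 := 536870912) (P3 := 1046898278) (W3 := 26843546)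
    rfl k0_mm_202

noncomputable def f_mm_203 : ℕ → ℕ → ℕ → ℕ → Bool := onCell 1073741824 536870912 0 536870912 1046898278 26843546
    (rowFX 0 true false false .up 2 0 3 (qsf 1073741824 536870912 0 536870912 3) ndF5q2 ndF6q0 pcF3 Cut.none Ext.none)

def k0_mm_203 : ∃ t, chk3 f_mm_203 t 1 1 1 = true :=
  ⟨(l 4), by decide +kernel⟩

theorem c_mm_203 : CertFX 1073741824 536870912 0 536870912 1046898278 26843546 true false false .up 2 0 3
    ndF5q2 ndF6q0 pcF3 Cut.none Ext.none :=
  certFX0 (fam := true) (s1 := false) (s2 := false) (a := 2) (b := 0) (c := 3) (cn := .up) (n1 := ndF5q2) (n2 := ndF6q0) (pc := pcF3) (cut := Cut.none) (xt := Ext.none) (P1 := 1073741824) (W1 := 536870912) (P2 := 0) (W2 := 536870912) (P3 := 1046898278) (W3 := 26843546)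
    rfl k0_mm_203

noncomputable def f_mm_213 : ℕ → ℕ → ℕ → ℕ → Bool := onCell 1073741824 536870912 536870912 469762048 1046898278 26843546
    (rowFX 0 true false false .pnn 2 1 3 (qsf 1073741824 536870912 536870912 469762048 3) ndF5q2 ndF6q1 pcF3 Cut.none Ext.none)

def k0_mm_213 : ∃ t, chk3 f_mm_213 t 1 1 1 = true :=
  ⟨(l 4), by decide +kernel⟩

theorem c_mm_213 : CertFX 1073741824 536870912 536870912 469762048 1046898278 26843546 true false false .pnn 2 1 3
    ndF5q2 ndF6q1 pcF3 Cut.none Ext.none :=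
  certFX0 (fam := true) (s1 := false) (s2 := false) (a := 2) (b := 1) (c := 3) (cn := .pnn) (n1 := ndF5q2) (n2 := ndF6q1) (pc := pcF3) (cut := Cut.none) (xt := Ext.none) (P1 := 1073741824) (W1 := 536870912) (P2 := 536870912) (W2 := 469762048) (P3 := 1046898278) (W3 := 26843546)
    rfl k0_mm_213

noncomputable def f_mm_303 : ℕ → ℕ → ℕ → ℕ → Bool := onCell 0 1230186008 0 536870912 1046898278 26843546
    (rowFX 0 true false false .npn 3 0 3 (qsf 0 1230186008 0 536870912 3) ndF5q3 ndF6q0 pcF3 Cut.none Ext.none)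

def k0_mm_303 : ∃ t, chk3 f_mm_303 t 1 1 1 = true :=
  ⟨(a (l 4) (l 4)), by decide +kernel⟩

theorem c_mm_303 : CertFX 0 1230186008 0 536870912 1046898278 26843546 true false false .npn 3 0 3
    ndF5q3 ndF6q0 pcF3 Cut.none Ext.none :=
  certFX0 (fam := true) (s1 := false) (s2 := false) (a := 3) (b := 0) (c := 3) (cn := .npn) (n1 := ndF5q3) (n2 := ndF6q0) (pc := pcF3) (cut := Cut.none) (xt := Ext.none) (P1 := 0) (W1 := 1230186008) (P2 := 0) (W2 := 536870912) (P3 := 1046898278) (W3 := 26843546)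
    rfl k0_mm_303

noncomputable def f_mm_313 : ℕ → ℕ → ℕ → ℕ → Bool := onCell 0 1230186008 536870912 469762048 1046898278 26843546
    (rowFX 0 true false false .dn 3 1 3 (qsf 0 1230186008 536870912 469762048 3) ndF5q3 ndF6q1 pcF3 Cut.none Ext.none)

def k0_mm_313 : ∃ t, chk3 f_mm_313 t 1 1 1 = true :=
  ⟨(l 4), by decide +kernel⟩

theorem c_mm_313 : CertFX 0 1230186008 536870912 469762048 1046898278 26843546 true false false .dn 3 1 3
    ndF5q3 ndF6q1 pcF3 Cut.none Ext.none :=
  certFX0 (fam := true) (s1 := false) (s2 := false) (a := 3) (b := 1) (c := 3) (cn := .dn) (n1 := ndF5q3) (n2 := ndF6q1) (pc := pcF3) (cut := Cut.none) (xt := Ext.none) (P1 := 0) (W1 := 1230186008) (P2 := 536870912) (W2 := 469762048) (P3 := 1046898278) (W3 := 26843546)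
    rfl k0_mm_313

end Pool.Agent.Strip051.G.IE1.Tab.C.FA56

namespace Pool.Agent.Strip051.G.IE1.Tab.C.FA57

open Pool.Agent.Strip051.PB Pool.Agent.Strip051.PB.T
open Pool.Agent.Strip051.G.IE1.Tab

noncomputable def f_pp_001 : ℕ → ℕ → ℕ → ℕ → Bool := onCell 0 536870912 0 536870912 1046898278 26843546
    (rowFX 0 true true true .up 0 0 1 (qsf 0 536870912 0 536870912 1) ndF5q0 ndF7q0 pcF1 Cut.none Ext.none)

def k0_pp_001 : ∃ t, chk3 f_pp_001 t 1 1 1 = true :=
  ⟨(l 4), by decide +kernel⟩

theorem c_pp_001 : CertFX 0 536870912 0 536870912 1046898278 26843546 true true true .up 0 0 1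
    ndF5q0 ndF7q0 pcF1 Cut.none Ext.none :=
  certFX0 (fam := true) (s1 := true) (s2 := true) (a := 0) (b := 0) (c := 1) (cn := .up) (n1 := ndF5q0) (n2 := ndF7q0) (pc := pcF1) (cut := Cut.none) (xt := Ext.none) (P1 := 0) (W1 := 536870912) (P2 := 0) (W2 := 536870912) (P3 := 1046898278) (W3 := 26843546)
    rfl k0_pp_001

noncomputable def f_pp_011 : ℕ → ℕ → ℕ → ℕ → Bool := onCell 0 536870912 536870912 536870912 1046898278 26843546
    (rowFX 0 true true true .pnn 0 1 1 (qsf 0 536870912 536870912 536870912 1) ndF5q0 ndF7q1 pcF1 Cut.none Ext.none)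

def k0_pp_011 : ∃ t, chk3 f_pp_011 t 1 1 1 = true :=
  ⟨(l 4), by decide +kernel⟩

theorem c_pp_011 : CertFX 0 536870912 536870912 536870912 1046898278 26843546 true true true .pnn 0 1 1
    ndF5q0 ndF7q1 pcF1 Cut.none Ext.none :=
  certFX0 (fam := true) (s1 := true) (s2 := true) (a := 0) (b := 1) (c := 1) (cn := .pnn) (n1 := ndF5q0) (n2 := ndF7q1) (pc := pcF1) (cut := Cut.none) (xt := Ext.none) (P1 := 0) (W1 := 536870912) (P2 := 536870912) (W2 := 536870912) (P3 := 1046898278) (W3 := 26843546)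
    rfl k0_pp_011

noncomputable def f_pp_012 : ℕ → ℕ → ℕ → ℕ → Bool := onCell 0 536870912 536870912 536870912 1046898278 26843546
    (rowFX 0 true true true .pnp 0 1 2 (qsf 0 536870912 536870912 536870912 2) ndF5q0 ndF7q1 pcF2 Cut.none Ext.none)

def k0_pp_012 : ∃ t, chk3 f_pp_012 t 1 1 1 = true :=
  ⟨(l 4), by decide +kernel⟩

theorem c_pp_012 : CertFX 0 536870912 536870912 536870912 1046898278 26843546 true true true .pnp 0 1 2
    ndF5q0 ndF7q1 pcF2 Cut.none Ext.none :=
  certFX0 (fam := true) (s1 := true) (s2 := true) (a := 0) (b := 1) (c := 2) (cn := .pnp) (n1 := ndF5q0) (n2 := ndF7q1) (pc := pcF2) (cut := Cut.none) (xt := Ext.none) (P1 := 0) (W1 := 536870912) (P2 := 536870912) (W2 := 536870912) (P3 := 1046898278) (W3 := 26843546)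
    rfl k0_pp_012

noncomputable def f_pp_022 : ℕ → ℕ → ℕ → ℕ → Bool := onCell 0 536870912 1073741824 536870912 1046898278 26843546
    (rowFX 0 true true true .pp 0 2 2 (qsf 0 536870912 1073741824 536870912 2) ndF5q0 ndF7q2 pcF2 Cut.none Ext.none)

def k0_pp_022 : ∃ t, chk3 f_pp_022 t 1 1 1 = true :=
  ⟨(l 4), by decide +kernel⟩

theorem c_pp_022 : CertFX 0 536870912 1073741824 536870912 1046898278 26843546 true true true .pp 0 2 2
    ndF5q0 ndF7q2 pcF2 Cut.none Ext.none :=
  certFX0 (fam := true) (s1 := true) (s2 := true) (a := 0) (b := 2) (c := 2) (cn := .pp) (n1 := ndF5q0) (n2 := ndF7q2) (pc := pcF2) (cut := Cut.none) (xt := Ext.none) (P1 := 0) (W1 := 536870912) (P2 := 1073741824) (W2 := 536870912) (P3 := 1046898278) (W3 := 26843546)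
    rfl k0_pp_022

noncomputable def f_pp_023 : ℕ → ℕ → ℕ → ℕ → Bool := onCell 0 536870912 1073741824 536870912 1046898278 26843546
    (rowFX 0 true true true .up 0 2 3 (qsf 0 536870912 1073741824 536870912 3) ndF5q0 ndF7q2 pcF3 Cut.none Ext.none)

def k0_pp_023 : ∃ t, chk3 f_pp_023 t 1 1 1 = true :=
  ⟨(l 4), by decide +kernel⟩

theorem c_pp_023 : CertFX 0 536870912 1073741824 536870912 1046898278 26843546 true true true .up 0 2 3
    ndF5q0 ndF7q2 pcF3 Cut.none Ext.none :=
  certFX0 (fam := true) (s1 := true) (s2 := true) (a := 0) (b := 2) (c := 3) (cn := .up) (n1 := ndF5q0) (n2 := ndF7q2) (pc := pcF3) (cut := Cut.none) (xt := Ext.none) (P1 := 0) (W1 := 536870912) (P2 := 1073741824) (W2 := 536870912) (P3 := 1046898278) (W3 := 26843546)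
    rfl k0_pp_023

noncomputable def f_pp_033 : ℕ → ℕ → ℕ → ℕ → Bool := onCell 0 536870912 0 1230186008 1046898278 26843546
    (rowFX 0 true true true .pnn 0 3 3 (qsf 0 536870912 0 1230186008 3) ndF5q0 ndF7q3 pcF3 Cut.none Ext.none)

def k0_pp_033 : ∃ t, chk3 f_pp_033 t 1 1 1 = true :=
  ⟨(l 4), by decide +kernel⟩

theorem c_pp_033 : CertFX 0 536870912 0 1230186008 1046898278 26843546 true true true .pnn 0 3 3
    ndF5q0 ndF7q3 pcF3 Cut.none Ext.none :=
  certFX0 (fam := true) (s1 := true) (s2 := true) (a := 0) (b := 3) (c := 3) (cn := .pnn) (n1 := ndF5q0) (n2 := ndF7q3) (pc := pcF3) (cut := Cut.none) (xt := Ext.none) (P1 := 0) (W1 := 536870912) (P2 := 0) (W2 := 1230186008) (P3 := 1046898278) (W3 := 26843546)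
    rfl k0_pp_033

noncomputable def f_pp_101 : ℕ → ℕ → ℕ → ℕ → Bool := onCell 536870912 469762048 0 536870912 1046898278 26843546
    (rowFX 0 true true true .npn 1 0 1 (qsf 536870912 469762048 0 536870912 1) ndF5q1 ndF7q0 pcF1 Cut.none Ext.none)

def k0_pp_101 : ∃ t, chk3 f_pp_101 t 1 1 1 = true :=
  ⟨(l 4), by decide +kernel⟩

theorem c_pp_101 : CertFX 536870912 469762048 0 536870912 1046898278 26843546 true true true .npn 1 0 1
    ndF5q1 ndF7q0 pcF1 Cut.none Ext.none :=
  certFX0 (fam := true) (s1 := true) (s2 := true) (a := 1) (b := 0) (c := 1) (cn := .npn) (n1 := ndF5q1) (n2 := ndF7q0) (pc := pcF1) (cut := Cut.none) (xt := Ext.none) (P1 := 536870912) (W1 := 469762048) (P2 := 0) (W2 := 536870912) (P3 := 1046898278) (W3 := 26843546)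
    rfl k0_pp_101

noncomputable def f_pp_102 : ℕ → ℕ → ℕ → ℕ → Bool := onCell 536870912 469762048 0 536870912 1046898278 26843546
    (rowFX 0 true true true .npp 1 0 2 (qsf 536870912 469762048 0 536870912 2) ndF5q1 ndF7q0 pcF2 Cut.none Ext.none)

def k0_pp_102 : ∃ t, chk3 f_pp_102 t 1 1 1 = true :=
  ⟨(l 4), by decide +kernel⟩

theorem c_pp_102 : CertFX 536870912 469762048 0 536870912 1046898278 26843546 true true true .npp 1 0 2
    ndF5q1 ndF7q0 pcF2 Cut.none Ext.none :=
  certFX0 (fam := true) (s1 := true) (s2 := true) (a := 1) (b := 0) (c := 2) (cn := .npp) (n1 := ndF5q1) (n2 := ndF7q0) (pc := pcF2) (cut := Cut.none) (xt := Ext.none) (P1 := 536870912) (W1 := 469762048) (P2 := 0) (W2 := 536870912) (P3 := 1046898278) (W3 := 26843546)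
    rfl k0_pp_102

noncomputable def f_pp_112 : ℕ → ℕ → ℕ → ℕ → Bool := onCell 536870912 469762048 536870912 536870912 1046898278 26843546
    (rowFX 0 true true true .dn 1 1 2 (qsf 536870912 469762048 536870912 536870912 2) ndF5q1 ndF7q1 pcF2 Cut.none Ext.none)

def k0_pp_112 : ∃ t, chk3 f_pp_112 t 1 1 1 = true :=
  ⟨(l 4), by decide +kernel⟩

theorem c_pp_112 : CertFX 536870912 469762048 536870912 536870912 1046898278 26843546 true true true .dn 1 1 2
    ndF5q1 ndF7q1 pcF2 Cut.none Ext.none :=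
  certFX0 (fam := true) (s1 := true) (s2 := true) (a := 1) (b := 1) (c := 2) (cn := .dn) (n1 := ndF5q1) (n2 := ndF7q1) (pc := pcF2) (cut := Cut.none) (xt := Ext.none) (P1 := 536870912) (W1 := 469762048) (P2 := 536870912) (W2 := 536870912) (P3 := 1046898278) (W3 := 26843546)
    rfl k0_pp_112

noncomputable def f_pp_113 : ℕ → ℕ → ℕ → ℕ → Bool := onCell 536870912 469762048 536870912 536870912 1046898278 26843546
    (rowFX 0 true true true .nn 1 1 3 (qsf 536870912 469762048 536870912 536870912 3) ndF5q1 ndF7q1 pcF3 Cut.none Ext.none)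

def k0_pp_113 : ∃ t, chk3 f_pp_113 t 1 1 1 = true :=
  ⟨(l 4), by decide +kernel⟩

theorem c_pp_113 : CertFX 536870912 469762048 536870912 536870912 1046898278 26843546 true true true .nn 1 1 3
    ndF5q1 ndF7q1 pcF3 Cut.none Ext.none :=
  certFX0 (fam := true) (s1 := true) (s2 := true) (a := 1) (b := 1) (c := 3) (cn := .nn) (n1 := ndF5q1) (n2 := ndF7q1) (pc := pcF3) (cut := Cut.none) (xt := Ext.none) (P1 := 536870912) (W1 := 469762048) (P2 := 536870912) (W2 := 536870912) (P3 := 1046898278) (W3 := 26843546)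
    rfl k0_pp_113

noncomputable def f_pp_123 : ℕ → ℕ → ℕ → ℕ → Bool := onCell 536870912 469762048 1073741824 536870912 1046898278 26843546
    (rowFX 0 true true true .npn 1 2 3 (qsf 536870912 469762048 1073741824 536870912 3) ndF5q1 ndF7q2 pcF3 Cut.none Ext.none)

def k0_pp_123 : ∃ t, chk3 f_pp_123 t 1 1 1 = true :=
  ⟨(l 4), by decide +kernel⟩

theorem c_pp_123 : CertFX 536870912 469762048 1073741824 536870912 1046898278 26843546 true true true .npn 1 2 3
    ndF5q1 ndF7q2 pcF3 Cut.none Ext.none :=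
  certFX0 (fam := true) (s1 := true) (s2 := true) (a := 1) (b := 2) (c := 3) (cn := .npn) (n1 := ndF5q1) (n2 := ndF7q2) (pc := pcF3) (cut := Cut.none) (xt := Ext.none) (P1 := 536870912) (W1 := 469762048) (P2 := 1073741824) (W2 := 536870912) (P3 := 1046898278) (W3 := 26843546)
    rfl k0_pp_123

noncomputable def f_pp_133 : ℕ → ℕ → ℕ → ℕ → Bool := onCell 536870912 469762048 0 1230186008 1046898278 26843546
    (rowFX 0 true true true .dn 1 3 3 (qsf 536870912 469762048 0 1230186008 3) ndF5q1 ndF7q3 pcF3 Cut.none Ext.none)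

def k0_pp_133 : ∃ t, chk3 f_pp_133 t 1 1 1 = true :=
  ⟨(l 4), by decide +kernel⟩

theorem c_pp_133 : CertFX 536870912 469762048 0 1230186008 1046898278 26843546 true true true .dn 1 3 3
    ndF5q1 ndF7q3 pcF3 Cut.none Ext.none :=
  certFX0 (fam := true) (s1 := true) (s2 := true) (a := 1) (b := 3) (c := 3) (cn := .dn) (n1 := ndF5q1) (n2 := ndF7q3) (pc := pcF3) (cut := Cut.none) (xt := Ext.none) (P1 := 536870912) (W1 := 469762048) (P2 := 0) (W2 := 1230186008) (P3 := 1046898278) (W3 := 26843546)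
    rfl k0_pp_133

noncomputable def f_pp_202 : ℕ → ℕ → ℕ → ℕ → Bool := onCell 1073741824 536870912 0 536870912 1046898278 26843546
    (rowFX 0 true true true .pp 2 0 2 (qsf 1073741824 536870912 0 536870912 2) ndF5q2 ndF7q0 pcF2 Cut.none Ext.none)

def k0_pp_202 : ∃ t, chk3 f_pp_202 t 1 1 1 = true :=
  ⟨(l 4), by decide +kernel⟩

theorem c_pp_202 : CertFX 1073741824 536870912 0 536870912 1046898278 26843546 true true true .pp 2 0 2
    ndF5q2 ndF7q0 pcF2 Cut.none Ext.none :=
  certFX0 (fam := true) (s1 := true) (s2 := true) (a := 2) (b := 0) (c := 2) (cn := .pp) (n1 := ndF5q2) (n2 := ndF7q0) (pc := pcF2) (cut := Cut.none) (xt := Ext.none) (P1 := 1073741824) (W1 := 536870912) (P2 := 0) (W2 := 536870912) (P3 := 1046898278) (W3 := 26843546)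
    rfl k0_pp_202

noncomputable def f_pp_203 : ℕ → ℕ → ℕ → ℕ → Bool := onCell 1073741824 536870912 0 536870912 1046898278 26843546
    (rowFX 0 true true true .up 2 0 3 (qsf 1073741824 536870912 0 536870912 3) ndF5q2 ndF7q0 pcF3 Cut.none Ext.none)

def k0_pp_203 : ∃ t, chk3 f_pp_203 t 1 1 1 = true :=
  ⟨(l 4), by decide +kernel⟩

theorem c_pp_203 : CertFX 1073741824 536870912 0 536870912 1046898278 26843546 true true true .up 2 0 3
    ndF5q2 ndF7q0 pcF3 Cut.none Ext.none :=
  certFX0 (fam := true) (s1 := true) (s2 := true) (a := 2) (b := 0) (c := 3) (cn := .up) (n1 := ndF5q2) (n2 := ndF7q0) (pc := pcF3) (cut := Cut.none) (xt := Ext.none) (P1 := 1073741824) (W1 := 536870912) (P2 := 0) (W2 := 536870912) (P3 := 1046898278) (W3 := 26843546)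
    rfl k0_pp_203

noncomputable def f_pp_213 : ℕ → ℕ → ℕ → ℕ → Bool := onCell 1073741824 536870912 536870912 536870912 1046898278 26843546
    (rowFX 0 true true true .pnn 2 1 3 (qsf 1073741824 536870912 536870912 536870912 3) ndF5q2 ndF7q1 pcF3 Cut.none Ext.none)

def k0_pp_213 : ∃ t, chk3 f_pp_213 t 1 1 1 = true :=
  ⟨(l 4), by decide +kernel⟩

theorem c_pp_213 : CertFX 1073741824 536870912 536870912 536870912 1046898278 26843546 true true true .pnn 2 1 3
    ndF5q2 ndF7q1 pcF3 Cut.none Ext.none :=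
  certFX0 (fam := true) (s1 := true) (s2 := true) (a := 2) (b := 1) (c := 3) (cn := .pnn) (n1 := ndF5q2) (n2 := ndF7q1) (pc := pcF3) (cut := Cut.none) (xt := Ext.none) (P1 := 1073741824) (W1 := 536870912) (P2 := 536870912) (W2 := 536870912) (P3 := 1046898278) (W3 := 26843546)
    rfl k0_pp_213

noncomputable def f_pp_303 : ℕ → ℕ → ℕ → ℕ → Bool := onCell 0 1230186008 0 536870912 1046898278 26843546
    (rowFX 0 true true true .npn 3 0 3 (qsf 0 1230186008 0 536870912 3) ndF5q3 ndF7q0 pcF3 Cut.none Ext.none)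

def k0_pp_303 : ∃ t, chk3 f_pp_303 t 1 1 1 = true :=
  ⟨(l 4), by decide +kernel⟩

theorem c_pp_303 : CertFX 0 1230186008 0 536870912 1046898278 26843546 true true true .npn 3 0 3
    ndF5q3 ndF7q0 pcF3 Cut.none Ext.none :=
  certFX0 (fam := true) (s1 := true) (s2 := true) (a := 3) (b := 0) (c := 3) (cn := .npn) (n1 := ndF5q3) (n2 := ndF7q0) (pc := pcF3) (cut := Cut.none) (xt := Ext.none) (P1 := 0) (W1 := 1230186008) (P2 := 0) (W2 := 536870912) (P3 := 1046898278) (W3 := 26843546)
    rfl k0_pp_303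

noncomputable def f_pp_313 : ℕ → ℕ → ℕ → ℕ → Bool := onCell 0 1230186008 536870912 536870912 1046898278 26843546
    (rowFX 0 true true true .dn 3 1 3 (qsf 0 1230186008 536870912 536870912 3) ndF5q3 ndF7q1 pcF3 Cut.none Ext.none)

def k0_pp_313 : ∃ t, chk3 f_pp_313 t 1 1 1 = true :=
  ⟨(l 4), by decide +kernel⟩

theorem c_pp_313 : CertFX 0 1230186008 536870912 536870912 1046898278 26843546 true true true .dn 3 1 3
    ndF5q3 ndF7q1 pcF3 Cut.none Ext.none :=
  certFX0 (fam := true) (s1 := true) (s2 := true) (a := 3) (b := 1) (c := 3) (cn := .dn) (n1 := ndF5q3) (n2 := ndF7q1) (pc := pcF3) (cut := Cut.none) (xt := Ext.none) (P1 := 0) (W1 := 1230186008) (P2 := 536870912) (W2 := 536870912) (P3 := 1046898278) (W3 := 26843546)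
    rfl k0_pp_313

noncomputable def f_pm_001 : ℕ → ℕ → ℕ → ℕ → Bool := onCell 0 536870912 0 536870912 1046898278 26843546
    (rowFX 0 true true false .up 0 0 1 (qsf 0 536870912 0 536870912 1) ndF5q0 ndF7q0 pcF1 Cut.none Ext.none)

def k0_pm_001 : ∃ t, chk3 f_pm_001 t 1 1 1 = true :=
  ⟨(l 3), by decide +kernel⟩

theorem c_pm_001 : CertFX 0 536870912 0 536870912 1046898278 26843546 true true false .up 0 0 1
    ndF5q0 ndF7q0 pcF1 Cut.none Ext.none :=
  certFX0 (fam := true) (s1 := true) (s2 := false) (a := 0) (b := 0) (c := 1) (cn := .up) (n1 := ndF5q0) (n2 := ndF7q0) (pc := pcF1) (cut := Cut.none) (xt := Ext.none) (P1 := 0) (W1 := 536870912) (P2 := 0) (W2 := 536870912) (P3 := 1046898278) (W3 := 26843546)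
    rfl k0_pm_001

noncomputable def f_pm_011 : ℕ → ℕ → ℕ → ℕ → Bool := onCell 0 536870912 536870912 536870912 1046898278 26843546
    (rowFX 1 true true false .pnn 0 1 1 (qsf 0 536870912 536870912 536870912 1) ndF5q0 ndF7q1 pcF1 Cut.none Ext.none)

def k0_pm_011 : ∃ t, chk3 f_pm_011 t 1 1 1 = true :=
  ⟨(b (l 3) (l 3)), by decide +kernel⟩

theorem c_pm_011 : CertFX 0 536870912 536870912 536870912 1046898278 26843546 true true false .pnn 0 1 1
    ndF5q0 ndF7q1 pcF1 Cut.none Ext.none :=
  certFX1 (fam := true) (s1 := true) (s2 := false) (a := 0) (b := 1) (c := 1) (cn := .pnn) (n1 := ndF5q0) (n2 := ndF7q1) (pc := pcF1) (cut := Cut.none) (xt := Ext.none) (P1 := 0) (W1 := 536870912) (P2 := 536870912) (W2 := 536870912) (P3 := 1046898278) (W3 := 26843546)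
    rfl (fun _ => rfl) k0_pm_011

noncomputable def f_pm_012 : ℕ → ℕ → ℕ → ℕ → Bool := onCell 1073741824 536870912 536870912 536870912 1046898278 26843546
    (rowFX 2 true true false .pnp 0 1 2 (qsf 0 536870912 536870912 536870912 2) ndF5q0 ndF7q1 pcF2 Cut.none Ext.none)

def k0_pm_012 : ∃ t, chk3 f_pm_012 t 4 1 1 = true :=
  ⟨(a (b (l 3) (l 3)) (b (a (l 3) (l 3)) (a (l 3) (b (a (l 3) (a (l 3) (b (l 3) (l 15212584)))) (b (a (l 3) (a (l 3) (c (l 14658296) (l 14603416)))) (a (l 3) (b (c (a (l 14460976) (l 14415288)) (a (l 14456400) (l 14409480))) (c (l 14355576) (a (l 14361776) (l 14311464)))))))))), by decide +kernel⟩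

def k1_pm_012 : ∃ t, chk3 f_pm_012 t 5 1 1 = true :=
  ⟨(b (b (a (a (a (a (l 16777216) (l 2)) (l 2)) (l 2)) (l 2)) (a (a (a (c (a (l 16457400) (l 16457400)) (b (l 16642624) (l 16241584))) (a (c (b (l 16645736) (l 16254504)) (a (l 16449088) (l 16427384))) (a (l 16449336) (b (l 16639272) (l 16239000))))) (l 16447688)) (l 16410664))) (a (a (a (b (c (a (l 15520928) (l 15520928)) (a (l 15446352) (l 15341496))) (b (c (a (l 14636144) (b (l 14727584) (l 14472640))) (a (l 14580648) (l 14562952))) (c (a (b (l 14370344) (l 14283288)) (b (l 14325856) (l 14235304))) (a (c (l 14140816) (l 14281984)) (b (l 14317560) (c (l 14209736) (l 14207480))))))) (a (b (c (a (l 15520408) (l 15328584)) (a (l 15424848) (b (l 15767056) (l 15187872)))) (b (a (c (l 14604888) (l 14548496)) (c (l 14593800) (l 14537064))) (c (l 14234592) (b (l 14263600) (l 14153632))))) (b (a (l 15326048) (b (l 15767800) (l 15024472))) (b (a (c (l 14579408) (l 14522224)) (c (a (l 14570712) (l 14566856)) (l 14511768))) (a (c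 (l 14181712) (b (l 14211304) (l 14097088))) (c (a (l 14158304) (l 14144184)) (a (b (l 14187520) (l 14072664)) (b (l 14173120) (l 14058000))))))))) (b (b (l 15770976) (l 15197016)) (b (c (l 14575232) (l 14517896)) (c (b (l 14144768) (l 14003064)) (b (l 14131136) (l 13974064)))))) (b (b (l 15780720) (l 15210608)) (b (c (l 14593152) (l 14536408)) (c (b (l 14121448) (l 13879560)) (b (l 14107128) (a (l 13858136) (l 13819752)))))))), by decide +kernel⟩

def k2_pm_012 : ∃ t, chk3 f_pm_012 t 3 1 1 = true :=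
  ⟨(b (b (l 2) (b (l 2) (l 16248360))) (b (b (l 15782128) (a (l 15212584) (l 15212584))) (b (a (c (l 14595736) (l 14539088)) (l 14550992)) (a (c (l 13998896) (b (l 14110352) (l 13819696))) (c (l 13998896) (l 13985328)))))), by decide +kernel⟩

theorem s3_pm_012 : ∃ t, chk3 f_pm_012 t 2 1 1 = true := ex3_a k0_pm_012 k1_pm_012

theorem s4_pm_012 : ∃ t, chk3 f_pm_012 t 1 1 1 = true := ex3_a s3_pm_012 k2_pm_012

theorem c_pm_012 : CertFX 0 536870912 536870912 536870912 1046898278 26843546 true true false .pnp 0 1 2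
    ndF5q0 ndF7q1 pcF2 Cut.none Ext.none :=
  certFX2 (fam := true) (s1 := true) (s2 := false) (a := 0) (b := 1) (c := 2) (cn := .pnp) (n1 := ndF5q0) (n2 := ndF7q1) (pc := pcF2) (cut := Cut.none) (xt := Ext.none) (P1 := 0) (W1 := 536870912) (P2 := 536870912) (W2 := 536870912) (P3 := 1046898278) (W3 := 26843546)
    rfl (fun _ => rfl) s4_pm_012

noncomputable def f_pm_022 : ℕ → ℕ → ℕ → ℕ → Bool := onCell 0 536870912 1073741824 536870912 1046898278 26843546
    (rowFX 1 true true false .pp 0 2 2 (qsf 0 536870912 1073741824 536870912 2) ndF5q0 ndF7q2 pcF2 Cut.none Ext.none)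

def k0_pm_022 : ∃ t, chk3 f_pm_022 t 2 8 1 = true :=
  ⟨(l 3), by decide +kernel⟩

def k1_pm_022 : ∃ t, chk3 f_pm_022 t 8 9 1 = true :=
  ⟨(b (b (l 3) (a (b (a (a (c (l 16060232) (c (l 16081096) (a (l 16095560) (l 16041992)))) (l 3)) (l 3)) (c (a (c (a (l 16065928) (l 15918936)) (a (l 16065024) (l 15957416))) (c (l 15787176) (l 15788336))) (a (a (c (l 16055608) (a (l 16071024) (l 16015896))) (c (l 15950968) (l 15918960))) (l 15743984)))) (l 3))) (c (a (b (a (b (a (c (l 16076984) (l 16058632)) (c (l 15822384) (l 15954968))) (a (c (l 16117800) (l 16098168)) (c (l 15982728) (l 15992992)))) (b (c (a (l 15865432) (l 15749976)) (l 15801304)) (c (l 15853984) (l 15843616)))) (a (a (l 16190464) (b (c (l 16046752) (l 16055440)) (l 16043112))) (b (c (a (l 15987608) (l 15873136)) (l 15901112)) (l 15893376)))) (b (b (c (a (l 15504232) (l 15184480)) (a (l 15494656) (l 15194976))) (c (l 15203152) (a (l 15553112) (l 15265360)))) (b (c (a (l 15636968) (l 15315224)) (a (l 15622464) (l 15332576)))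 (c (a (l 15710200) (l 15392776)) (a (l 15684400) (l 15403496)))))) (b (a (a (b (a (c (a (l 16076152) (l 16017448)) (c (l 15955224) (l 16010224))) (c (l 15948544) (l 15917056))) (a (c (a (l 16116456) (l 16055104)) (a (c (l 16107048) (l 16100856)) (l 16049304))) (c (l 15987160) (l 15956752)))) (b (l 15702672) (l 15786752))) (b (a (l 15481072) (l 15209952)) (c (l 15409760) (l 15396840)))) (a (a (a (c (l 16006896) (a (l 16092872) (l 16173888))) (b (c (l 16050552) (l 16021560)) (l 16117856))) (b (c (l 15856064) (l 15832744)) (l 15914256))) (b (c (l 15472680) (l 15457472)) (c (l 15532632) (l 15518288))))))), by decide +kernel⟩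

def k2_pm_022 : ∃ t, chk3 f_pm_022 t 9 9 1 = true :=
  ⟨(b (l 3) (b (b (l 3) (a (c (l 14852240) (c (l 14856640) (l 14862288))) (c (l 14378800) (l 14332352)))) (c (c (a (b (l 14900488) (l 14962896)) (l 14462688)) (a (b (l 14910640) (l 14733312)) (l 14438408))) (a (b (c (l 14929256) (l 14917504)) (c (l 14997976) (l 14981848))) (b (c (l 14392224) (l 14381616)) (c (l 14452256) (l 14448872))))))), by decide +kernel⟩

def k3_pm_022 : ∃ t, chk3 f_pm_022 t 5 9 1 = true :=
  ⟨(a (b (l 1) (b (l 1) (c (l 1319655894439) (b (l 1) (l 13800976))))) (l 1)), by decide +kernel⟩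

def k4_pm_022 : ∃ t, chk3 f_pm_022 t 4 40 1 = true :=
  ⟨(a (a (a (c (a (l 16302368) (c (l 16205056) (l 16215480))) (a (a (b (l 16229352) (l 16316160)) (b (l 16178000) (l 16220504))) (c (l 16213048) (l 16187728)))) (c (a (l 16076800) (l 16000520)) (l 15953848))) (c (c (a (l 15794544) (l 15499568)) (l 15499312)) (l 15612432))) (c (a (b (c (l 14971584) (a (l 15196048) (l 14904184))) (a (l 15248688) (l 14966872))) (b (l 14532640) (l 14592648))) (a (b (b (l 14868360) (l 15069904)) (l 15108384)) (b (c (l 14519896) (l 14522152)) (l 14596840))))), by decide +kernel⟩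

def k5_pm_022 : ∃ t, chk3 f_pm_022 t 4 41 1 = true :=
  ⟨(a (a (b (a (c (a (l 16386128) (l 16156472)) (a (c (l 16375192) (l 16262896)) (l 16256664))) (c (l 16062536) (l 16048392))) (a (b (c (a (l 16401072) (l 16216040)) (a (c (l 16390816) (l 16362856)) (l 16274984))) (b (c (a (l 16423696) (l 16195648)) (a (c (l 16414136) (a (l 16436984) (l 16379112))) (l 16276288))) (b (b (b (c (a (l 16434712) (l 16288232)) (a (c (l 16425472) (l 16419152)) (l 16306248))) (c (a (c (l 16459424) (l 16363664)) (c (l 16205048) (a (l 16341704) (l 16307272)))) (a (a (l 16475448) (b (l 16388064) (l 16405664))) (c (l 16257800) (l 16298568))))) (c (a (l 16472848) (l 16325208)) (a (c (l 16464512) (l 16458800)) (l 16322752)))) (c (a (l 16477104) (l 16330120)) (a (c (l 16468912) (l 16463296)) (l 16327832)))))) (b (c (l 16125440) (l 16070832)) (b (c (l 16126624) (l 16094072)) (c (b (a (b (b (l 16222040) (l 16182056)) (l 16226736)) (l 16044648)) (l 16168480)) (a (c (l 16187792) (l 16167776)) (l 16041632)))))))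 (b (c (a (l 15830120) (l 15549864)) (l 15656264)) (c (b (a (l 15846768) (l 15577640)) (b (a (l 15868456) (l 15594000)) (a (l 15781752) (l 15606688)))) (b (l 15670992) (b (l 15689688) (a (l 15833768) (l 15570216))))))) (b (a (c (a (l 15289464) (l 15017560)) (l 15154392)) (c (l 14636368) (l 14650560))) (c (a (b (l 15120592) (b (l 15203144) (a (l 15343552) (l 15081128)))) (b (l 14660064) (b (l 14679816) (l 14696112)))) (a (b (l 15172144) (b (l 15189056) (l 15202240))) (b (l 14671736) (b (l 14690040) (l 14703688))))))), by decide +kernel⟩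

def k6_pm_022 : ∃ t, chk3 f_pm_022 t 4 21 1 = true :=
  ⟨(a (a (a (c (a (b (l 16420816) (l 16276816)) (b (l 16193392) (l 16198624))) (a (c (b (l 16326008) (l 16283544)) (a (b (l 16400464) (l 16214672)) (l 16297040))) (c (l 16352352) (l 16459736)))) (c (c (l 16299792) (l 16254224)) (l 16152896))) (c (a (l 15973088) (l 15772208)) (l 15650656))) (a (c (a (l 15373064) (l 15234536)) (l 15353584)) (c (a (l 14985176) (l 14755416)) (l 14853688)))), by decide +kernel⟩

def k7_pm_022 : ∃ t, chk3 f_pm_022 t 5 10 1 = true :=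
  ⟨(a (a (b (b (c (b (l 14128472) (l 14177184)) (b (l 14067016) (c (l 14129728) (l 14110912)))) (b (c (l 14213808) (l 14174440)) (b (c (l 14228952) (l 14197760)) (c (b (l 14241496) (l 14252624)) (b (l 14215192) (l 14229872)))))) (c (l 14417904) (c (l 14413120) (l 14408368)))) (b (b (l 1) (b (l 1) (b (l 1) (b (l 1) (l 13822552))))) (c (l 13989912) (l 13781320)))) (b (l 1) (c (l 13417512) (l 13330344)))), by decide +kernel⟩

def k8_pm_022 : ∃ t, chk3 f_pm_022 t 2 11 1 = true :=
  ⟨(a (a (a (c (b (a (a (l 16041592) (c (l 16142608) (l 16117720))) (c (l 16183792) (l 16213784))) (a (a (l 15763144) (l 15702528)) (l 15779992))) (a (a (c (b (l 15980480) (l 15758792)) (b (a (l 15992744) (l 16071552)) (l 15630184))) (c (l 15775696) (l 15901264))) (b (l 16176424) (l 16035232)))) (c (b (a (l 16244016) (l 16044848)) (a (l 16260816) (l 16347048))) (b (a (l 16315440) (l 16067120)) (a (l 16343272) (l 16336688))))) (a (b (c (l 15624680) (l 15663424)) (c (l 15886696) (l 15913256))) (c (b (l 15016120)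 (l 15492256)) (b (l 15151040) (l 15461960))))) (a (c (a (b (l 14689320) (l 15012928)) (b (l 14269120) (l 14581360))) (a (b (l 14701640) (l 14996744)) (b (c (l 14261088) (l 14254168)) (l 14547256)))) (c (a (l 13741592) (l 13633416)) (a (b (l 13790992) (l 13998600)) (b (l 13422136) (l 13705440)))))), by decide +kernel⟩

def k9_pm_022 : ∃ t, chk3 f_pm_022 t 3 2 1 = true :=
  ⟨(b (l 1) (b (l 1) (a (c (l 13020272) (a (l 13178520) (l 1))) (l 1)))), by decide +kernel⟩

def k10_pm_022 : ∃ t, chk3 f_pm_022 t 2 3 1 = true :=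
  ⟨(a (b (a (a (b (a (c (a (l 15318440) (c (l 15550552) (l 15515824))) (c (a (l 15305376) (l 15498376)) (b (l 15375960) (l 15329328)))) (c (b (l 15786704) (l 15560856)) (l 15453160))) (c (a (b (a (l 15110848) (l 15221464)) (l 15107344)) (b (l 15354336) (l 15234840))) (a (b (c (l 15060960) (l 15134840)) (l 14890440)) (b (l 15377232) (l 15253096))))) (b (c (a (l 15816152) (l 16030200)) (a (l 15971104) (l 16221760))) (c (b (l 15654856) (l 15480944)) (b (l 15767632) (l 15587096))))) (b (a (c (b (l 16242496) (l 16452840)) (b (l 16234888) (l 16452656))) (b (l 15791640) (l 16064488))) (a (c (l 16067256) (l 16139824)) (b (l 16296880) (l 16498608))))) (a (a (c (b (a (l 15044432) (l 15223200)) (a (l 15107344) (l 15223200))) (b (c (l 15015728) (l 15154424)) (l 15029944))) (b (c (b (l 15504128) (l 15496128)) (l 15499328)) (c (l 15496128) (l 15493760)))) (b (a (c (l 15707920) (l 15874288)) (b (l 16327032) (l 16185160))) (a (l 15770952) (l 16117432))))) (b (a (a (b (b (l 15327392) (l 15655160))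 (b (l 15941344) (l 16187248))) (b (c (b (l 14866112) (l 15210888)) (l 15019128)) (l 15661336))) (a (b (c (b (l 14431976) (l 14729848)) (l 14586912)) (l 15179472)) (b (c (l 13954064) (b (l 14016448) (l 14313472))) (c (l 14885320) (l 14816640))))) (a (b (b (l 16257016) (l 16479064)) (a (l 16355408) (l 16608184))) (b (a (l 15872384) (l 15524528)) (a (l 16377736) (l 16097224)))))), by decide +kernel⟩

def k11_pm_022 : ∃ t, chk3 f_pm_022 t 3 3 1 = true :=
  ⟨(b (a (a (b (c (l 13769680) (a (b (l 13705320) (l 14016320)) (l 13582024))) (c (b (l 14205608) (l 14540136)) (b (l 14194520) (l 14510928)))) (b (c (l 13273128) (l 13182112)) (c (l 13790656) (a (l 13878120) (l 13582024))))) (c (l 12766584) (a (l 12926120) (l 1)))) (a (b (a (c (b (l 14885232) (l 15202848)) (l 14999096)) (c (a (l 14540136) (l 14205608)) (b (l 14194520) (l 14510928)))) (a (l 15676168) (c (l 15066192) (l 14999096)))) (b (a (c (l 13790656) (l 13622792)) (l 13227904)) (a (c (l 14364792) (l 14379712)) (c (l 13790656)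 (l 13748624)))))), by decide +kernel⟩

theorem s12_pm_022 : ∃ t, chk3 f_pm_022 t 1 3 1 = true := ex3_a k10_pm_022 k11_pm_022

theorem s13_pm_022 : ∃ t, chk3 f_pm_022 t 4 20 1 = true := ex3_b k4_pm_022 k5_pm_022

theorem s14_pm_022 : ∃ t, chk3 f_pm_022 t 4 10 1 = true := ex3_b s13_pm_022 k6_pm_022

theorem s15_pm_022 : ∃ t, chk3 f_pm_022 t 2 10 1 = true := ex3_a s14_pm_022 k7_pm_022

theorem s16_pm_022 : ∃ t, chk3 f_pm_022 t 2 5 1 = true := ex3_b s15_pm_022 k8_pm_022

theorem s17_pm_022 : ∃ t, chk3 f_pm_022 t 4 9 1 = true := ex3_a k1_pm_022 k2_pm_022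

theorem s18_pm_022 : ∃ t, chk3 f_pm_022 t 2 9 1 = true := ex3_a s17_pm_022 k3_pm_022

theorem s19_pm_022 : ∃ t, chk3 f_pm_022 t 2 4 1 = true := ex3_b k0_pm_022 s18_pm_022

theorem s20_pm_022 : ∃ t, chk3 f_pm_022 t 2 2 1 = true := ex3_b s19_pm_022 s16_pm_022

theorem s21_pm_022 : ∃ t, chk3 f_pm_022 t 1 2 1 = true := ex3_a s20_pm_022 k9_pm_022

theorem s22_pm_022 : ∃ t, chk3 f_pm_022 t 1 1 1 = true := ex3_b s21_pm_022 s12_pm_022

theorem c_pm_022 : CertFX 0 536870912 1073741824 536870912 1046898278 26843546 true true false .pp 0 2 2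
    ndF5q0 ndF7q2 pcF2 Cut.none Ext.none :=
  certFX1 (fam := true) (s1 := true) (s2 := false) (a := 0) (b := 2) (c := 2) (cn := .pp) (n1 := ndF5q0) (n2 := ndF7q2) (pc := pcF2) (cut := Cut.none) (xt := Ext.none) (P1 := 0) (W1 := 536870912) (P2 := 1073741824) (W2 := 536870912) (P3 := 1046898278) (W3 := 26843546)
    rfl (fun _ => rfl) s22_pm_022

noncomputable def f_pm_023 : ℕ → ℕ → ℕ → ℕ → Bool := onCell 1610612736 536870912 1073741824 536870912 1046898278 26843546
    (rowFX 2 true true false .up 0 2 3 (qsf 0 536870912 1073741824 536870912 3) ndF5q0 ndF7q2 pcF3 Cut.none Ext.none)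

def k0_pm_023 : ∃ t, chk3 f_pm_023 t 1 1 1 = true :=
  ⟨(b (a (b (b (a (l 14033576) (l 2)) (a (l 14640608) (l 14640608))) (a (b (l 15364072) (l 15964160)) (l 15529368))) (a (b (l 2) (l 15676184)) (l 2))) (b (a (a (b (l 16467392) (a (l 16559568) (l 16756776))) (l 16392872)) (a (l 16623592) (a (a (l 16624848) (l 2)) (l 2)))) (a (a (b (a (b (l 16310512) (l 15959936)) (l 16555552)) (a (a (b (l 15658672) (c (a (l 15249928) (l 15426168)) (l 15330808))) (b (l 15967568) (l 15658672))) (a (l 16064800) (l 16310512)))) (b (l 16762616) (l 16505304))) (a (l 16777184) (a (l 16769056) (a (l 16742752) (a (l 16724104) (a (l 16703928) (l 4))))))))), by decide +kernel⟩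

theorem c_pm_023 : CertFX 0 536870912 1073741824 536870912 1046898278 26843546 true true false .up 0 2 3
    ndF5q0 ndF7q2 pcF3 Cut.none Ext.none :=
  certFX2 (fam := true) (s1 := true) (s2 := false) (a := 0) (b := 2) (c := 3) (cn := .up) (n1 := ndF5q0) (n2 := ndF7q2) (pc := pcF3) (cut := Cut.none) (xt := Ext.none) (P1 := 0) (W1 := 536870912) (P2 := 1073741824) (W2 := 536870912) (P3 := 1046898278) (W3 := 26843546)
    rfl (fun _ => rfl) k0_pm_023

noncomputable def f_pm_033 : ℕ → ℕ → ℕ → ℕ → Bool := onCell 1610612736 536870912 0 1230186008 1046898278 26843546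
    (rowFX 2 true true false .pnn 0 3 3 (qsf 0 536870912 0 1230186008 3) ndF5q0 ndF7q3 pcF3 Cut.none Ext.none)

def k0_pm_033 : ∃ t, chk3 f_pm_033 t 2 1 1 = true :=
  ⟨(b (l 1) (b (b (l 1) (a (l 1) (b (l 1) (a (l 1) (a (l 1) (b (l 1) (a (l 1) (c (l 14887984) (b (l 14790824) (l 14933912)))))))))) (b (a (l 1) (b (a (a (l 1) (b (l 1) (l 1206914312839))) (a (b (c (l 14618744) (l 1162891143959)) (c (a (l 14916424) (l 14956160)) (a (b (l 14812152) (l 15004784)) (b (l 15038584) (l 15182032))))) (b (c (a (l 14947648) (l 15192352)) (a (b (l 14922704) (l 15074680)) (l 15027568))) (c (l 15406976) (l 15368144))))) (a (b (a (l 1) (c (a (l 14832024) (l 14939896)) (a (l 1108667603639) (b (l 14973416) (l 15130656))))) (a (b (a (l 1) (l 14717416)) (a (l 14801872) (c (l 15118680) (l 15096288)))) (c (l 15277688) (b (l 15148088) (l 15348952))))) (b (a (c (l 15316528) (l 15201432)) (l 15646024)) (l 15754120))))) (a (b (a (l 1) (b (a (l 1) (b (l 1112425538871) (a (l 14882784) (c (l 15101160) (l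 15078912))))) (b (a (l 1145174640231) (a (l 920226320775) (l 15232208))) (a (a (l 14884680) (l 695814326679)) (l 15295456))))) (a (b (a (l 1) (b (l 812314583879) (c (l 14931616) (a (l 14906160) (l 15100336))))) (a (b (a (l 1) (l 14684584)) (c (a (l 14967936) (l 15162008)) (a (l 14957600) (l 15141496)))) (b (c (l 15130120) (l 15197152)) (l 15415552)))) (b (a (a (b (l 64454106535) (l 15250464)) (l 15267904)) (l 15598168)) (a (l 15633216) (l 15944184))))) (b (a (b (a (a (c (l 15116696) (l 14992792)) (l 15172184)) (l 15585848)) (a (l 15583632) (l 15903616))) (b (l 16022256) (l 16262336))) (a (b (l 15992720) (l 16294088)) (l 16536456))))))), by decide +kernel⟩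

def k1_pm_033 : ∃ t, chk3 f_pm_033 t 6 1 1 = true :=
  ⟨(b (l 1) (b (b (a (l 1) (a (b (l 1) (b (l 1307846721255) (a (l 1233758694695) (c (l 15062344) (b (l 14994856) (l 15099512)))))) (b (b (a (l 1) (l 14777528)) (a (l 14776416) (c (l 15025424) (l 953512252679)))) (b (a (c (l 15037248) (b (l 14972496) (l 15074560))) (c (l 15211320) (l 15196360))) (c (l 15310832) (l 15302496)))))) (a (b (a (b (l 1) (l 1237516009559)) (b (a (l 1) (c (l 14876456) (l 1217652713255))) (c (a (l 14945560) (l 15146192)) (a (b (l 14865416) (l 15012232)) (l 15124832))))) (a (c (b (l 1227316497127) (a (l 15106728) (l 15273112))) (b (a (l 14694888) (b (l 14924888) (l 15036576))) (a (b (l 14943568) (l 15155792)) (l 15264720)))) (b (c (a (l 15202936) (l 15345960)) (l 15267568)) (l 15514000)))) (a (b (a (b (c (l 15099128) (l 1030821802119)) (l 15269608)) (c (l 15403544) (l 15363984))) (l 15719968)) (b (c (l 15613592) (l 15606312)) (l 16013328))))) (b (b (a (a (c (l 15586680) (l 15557656)) (l 15851000)) (l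 16241536)) (a (l 16166208) (l 16548056))) (b (a (l 16528784) (l 16744072)) (l 16755912))))), by decide +kernel⟩

def k2_pm_033 : ∃ t, chk3 f_pm_033 t 7 1 1 = true :=
  ⟨(b (b (a (l 1) (l 4)) (a (b (a (l 1) (l 4)) (a (b (l 1) (a (c (l 14671784) (l 14673320)) (a (b (l 1) (b (l 14948872) (l 15058312))) (l 4)))) (l 4))) (l 4))) (a (b (b (a (b (a (b (c (l 15027776) (l 924521227879)) (c (l 15202072) (l 15186048))) (c (b (l 15203408) (l 15337760)) (l 15269440))) (c (l 15533128) (l 15538128))) (a (b (a (l 15390704) (l 4)) (l 15796136)) (l 4))) (a (b (a (l 15856528) (l 16003904)) (l 16252280)) (c (b (l 16174640) (l 16447480)) (l 16045528)))) (b (a (b (l 16543688) (l 16744624)) (b (l 16598544) (l 16766376))) (a (l 16776264) (b (l 16761320) (l 16764288))))) (b (b (l 4) (b (l 4) (l 4))) (a (b (c (l 16753200) (l 1221079824487)) (c (l 16737680) (l 16735472))) (a (b (l 4) (l 16724104)) (l 4)))))), by decide +kernel⟩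

theorem s3_pm_033 : ∃ t, chk3 f_pm_033 t 3 1 1 = true := ex3_a k1_pm_033 k2_pm_033

theorem s4_pm_033 : ∃ t, chk3 f_pm_033 t 1 1 1 = true := ex3_a k0_pm_033 s3_pm_033

theorem c_pm_033 : CertFX 0 536870912 0 1230186008 1046898278 26843546 true true false .pnn 0 3 3
    ndF5q0 ndF7q3 pcF3 Cut.none Ext.none :=
  certFX2 (fam := true) (s1 := true) (s2 := false) (a := 0) (b := 3) (c := 3) (cn := .pnn) (n1 := ndF5q0) (n2 := ndF7q3) (pc := pcF3) (cut := Cut.none) (xt := Ext.none) (P1 := 0) (W1 := 536870912) (P2 := 0) (W2 := 1230186008) (P3 := 1046898278) (W3 := 26843546)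
    rfl (fun _ => rfl) s4_pm_033

noncomputable def f_pm_101 : ℕ → ℕ → ℕ → ℕ → Bool := onCell 536870912 469762048 536870912 536870912 1046898278 26843546
    (rowFX 1 true true false .npn 1 0 1 (qsf 536870912 469762048 0 536870912 1) ndF5q1 ndF7q0 pcF1 Cut.none Ext.none)

def k0_pm_101 : ∃ t, chk3 f_pm_101 t 1 1 1 = true :=
  ⟨(l 3), by decide +kernel⟩

theorem c_pm_101 : CertFX 536870912 469762048 0 536870912 1046898278 26843546 true true false .npn 1 0 1
    ndF5q1 ndF7q0 pcF1 Cut.none Ext.none :=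
  certFX1 (fam := true) (s1 := true) (s2 := false) (a := 1) (b := 0) (c := 1) (cn := .npn) (n1 := ndF5q1) (n2 := ndF7q0) (pc := pcF1) (cut := Cut.none) (xt := Ext.none) (P1 := 536870912) (W1 := 469762048) (P2 := 0) (W2 := 536870912) (P3 := 1046898278) (W3 := 26843546)
    rfl (fun _ => rfl) k0_pm_101

noncomputable def f_pm_102 : ℕ → ℕ → ℕ → ℕ → Bool := onCell 536870912 469762048 1073741824 536870912 1046898278 26843546
    (rowFX 1 true true false .npp 1 0 2 (qsf 536870912 469762048 0 536870912 2) ndF5q1 ndF7q0 pcF2 Cut.none Ext.none)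

def k0_pm_102 : ∃ t, chk3 f_pm_102 t 1 1 1 = true :=
  ⟨(b (a (b (l 3) (a (l 2) (b (b (c (b (l 16777208) (b (l 16775400) (l 16740376))) (b (l 16777208) (b (l 16775360) (l 16739416)))) (l 16753600)) (l 16773720)))) (b (l 3) (b (b (b (a (b (l 785609506103) (c (l 16737712) (l 16736688))) (a (b (a (l 16515152) (l 16143272)) (a (l 16515144) (l 16143264))) (c (b (l 15399608) (l 15399600)) (b (l 15367016) (l 15304096))))) (b (a (b (l 16569576) (c (l 16739808) (l 16738864))) (a (b (a (l 16515392) (l 16143664)) (l 16336704)) (b (c (l 15400536) (l 15367976)) (l 15285008)))) (a (b (l 16745504) (l 16562416)) (a (b (l 16346144) (a (l 16535568) (l 16166552))) (b (l 15275744) (b (l 15325056) (a (l 15660608) (l 15161560)))))))) (a (l 16748480) (a (l 16349800) (l 15237344)))) (a (l 16738808) (a (l 16334808) (l 15344168)))))) (a (l 2) (a (b (l 16737208) (l 2)) (a (b (l 16332128) (l 16332128)) (b (l 15277744) (l 15382600)))))), by decide +kernel⟩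

theorem c_pm_102 : CertFX 536870912 469762048 0 536870912 1046898278 26843546 true true false .npp 1 0 2
    ndF5q1 ndF7q0 pcF2 Cut.none Ext.none :=
  certFX1 (fam := true) (s1 := true) (s2 := false) (a := 1) (b := 0) (c := 2) (cn := .npp) (n1 := ndF5q1) (n2 := ndF7q0) (pc := pcF2) (cut := Cut.none) (xt := Ext.none) (P1 := 536870912) (W1 := 469762048) (P2 := 0) (W2 := 536870912) (P3 := 1046898278) (W3 := 26843546)
    rfl (fun _ => rfl) k0_pm_102

noncomputable def f_pm_112 : ℕ → ℕ → ℕ → ℕ → Bool := onCell 536870912 469762048 1073741824 536870912 1046898278 26843546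
    (rowFX 1 true true false .dn 1 1 2 (qsf 536870912 469762048 536870912 536870912 2) ndF5q1 ndF7q1 pcF2 Cut.none Ext.none)

def k0_pm_112 : ∃ t, chk3 f_pm_112 t 1 1 1 = true :=
  ⟨(a (b (b (l 3) (b (b (b (c (b (l 16777216) (l 16776672)) (b (l 16777216) (l 16776664))) (b (c (a (l 16772224) (l 16775400)) (a (l 16772088) (l 16775360))) (b (l 172905677991) (a (l 16761696) (l 16749000))))) (a (l 16719208) (l 16753600))) (a (l 16337552) (l 16774464)))) (b (a (a (l 15546336) (l 16162736)) (b (l 16700416) (l 16475808))) (a (b (a (l 14792472) (l 15396256)) (a (l 14192536) (l 14754536))) (a (l 15582608) (l 16048408))))) (b (b (l 1) (b (l 1) (a (l 16738808) (l 1)))) (a (b (l 16731872) (l 16276960)) (a (b (l 16332128) (l 16311328)) (b (l 1) (l 15382600)))))), by decide +kernel⟩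

theorem c_pm_112 : CertFX 536870912 469762048 536870912 536870912 1046898278 26843546 true true false .dn 1 1 2
    ndF5q1 ndF7q1 pcF2 Cut.none Ext.none :=
  certFX1 (fam := true) (s1 := true) (s2 := false) (a := 1) (b := 1) (c := 2) (cn := .dn) (n1 := ndF5q1) (n2 := ndF7q1) (pc := pcF2) (cut := Cut.none) (xt := Ext.none) (P1 := 536870912) (W1 := 469762048) (P2 := 536870912) (W2 := 536870912) (P3 := 1046898278) (W3 := 26843546)
    rfl (fun _ => rfl) k0_pm_112

noncomputable def f_pm_113 : ℕ → ℕ → ℕ → ℕ → Bool := onCell 536870912 469762048 536870912 536870912 1046898278 26843546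
    (rowFX 0 true true false .nn 1 1 3 (qsf 536870912 469762048 536870912 536870912 3) ndF5q1 ndF7q1 pcF3 Cut.none Ext.none)

def k0_pm_113 : ∃ t, chk3 f_pm_113 t 1 1 1 = true :=
  ⟨(b (a (l 1) (a (b (l 1) (l 16414312)) (b (a (l 16332128) (l 15382600)) (a (l 16016192) (l 15071312))))) (a (b (l 620653280183) (b (l 14550992) (a (l 14000792) (l 14000792)))) (a (b (l 15466552) (l 14287760)) (b (a (l 15088304) (l 14185072)) (b (l 13739600) (a (l 13616040) (l 12891408))))))), by decide +kernel⟩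

theorem c_pm_113 : CertFX 536870912 469762048 536870912 536870912 1046898278 26843546 true true false .nn 1 1 3
    ndF5q1 ndF7q1 pcF3 Cut.none Ext.none :=
  certFX0 (fam := true) (s1 := true) (s2 := false) (a := 1) (b := 1) (c := 3) (cn := .nn) (n1 := ndF5q1) (n2 := ndF7q1) (pc := pcF3) (cut := Cut.none) (xt := Ext.none) (P1 := 536870912) (W1 := 469762048) (P2 := 536870912) (W2 := 536870912) (P3 := 1046898278) (W3 := 26843546)
    rfl k0_pm_113

noncomputable def f_pm_123 : ℕ → ℕ → ℕ → ℕ → Bool := onCell 1610612736 536870912 1073741824 536870912 1046898278 26843546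
    (rowFX 2 true true false .npn 1 2 3 (qsf 536870912 469762048 1073741824 536870912 3) ndF5q1 ndF7q2 pcF3 Cut.none Ext.none)

def k0_pm_123 : ∃ t, chk3 f_pm_123 t 1 1 1 = true :=
  ⟨(a (b (b (b (a (l 14033576) (l 14033576)) (l 671654246887)) (a (l 733396514823) (l 15487432))) (b (a (l 1) (l 768295060823)) (l 1))) (a (b (b (b (a (l 14023256) (l 13931520)) (l 14637984)) (l 15676184)) (b (l 16623592) (l 16777184))) (a (b (b (b (b (l 13375920) (l 14092424)) (l 14680544)) (a (l 15677096) (l 15704200))) (b (a (l 16624848) (l 16619560)) (l 16769056))) (b (a (b (b (l 14362416) (l 14916904)) (l 15734360)) (a (b (b (l 14610736) (l 15283096)) (l 15784440)) (b (a (b (l 14836784) (l 15633528)) (a (b (l 14995616) (l 15805976)) (b (b (l 2) (l 16350408)) (l 15690240)))) (a (l 15751960) (a (l 15804552) (b (l 15482208) (l 15964056))))))) (a (b (b (l 16458848) (l 16731720)) (l 16742752)) (a (b (l 16595704) (l 16724104)) (a (b (l 16574944) (l 16703928)) (b (a (l 16556296) (l 4)) (l 4))))))))),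 by decide +kernel⟩

theorem c_pm_123 : CertFX 536870912 469762048 1073741824 536870912 1046898278 26843546 true true false .npn 1 2 3
    ndF5q1 ndF7q2 pcF3 Cut.none Ext.none :=
  certFX2 (fam := true) (s1 := true) (s2 := false) (a := 1) (b := 2) (c := 3) (cn := .npn) (n1 := ndF5q1) (n2 := ndF7q2) (pc := pcF3) (cut := Cut.none) (xt := Ext.none) (P1 := 536870912) (W1 := 469762048) (P2 := 1073741824) (W2 := 536870912) (P3 := 1046898278) (W3 := 26843546)
    rfl (fun _ => rfl) k0_pm_123

noncomputable def f_pm_133 : ℕ → ℕ → ℕ → ℕ → Bool := onCell 536870912 469762048 0 1230186008 1046898278 26843546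
    (rowFX 0 true true false .dn 1 3 3 (qsf 536870912 469762048 0 1230186008 3) ndF5q1 ndF7q3 pcF3 Cut.none Ext.none)

def k0_pm_133 : ∃ t, chk3 f_pm_133 t 1 1 1 = true :=
  ⟨(b (l 2) (b (l 2) (a (b (l 2) (l 4)) (l 2)))), by decide +kernel⟩

theorem c_pm_133 : CertFX 536870912 469762048 0 1230186008 1046898278 26843546 true true false .dn 1 3 3
    ndF5q1 ndF7q3 pcF3 Cut.none Ext.none :=
  certFX0 (fam := true) (s1 := true) (s2 := false) (a := 1) (b := 3) (c := 3) (cn := .dn) (n1 := ndF5q1) (n2 := ndF7q3) (pc := pcF3) (cut := Cut.none) (xt := Ext.none) (P1 := 536870912) (W1 := 469762048) (P2 := 0) (W2 := 1230186008) (P3 := 1046898278) (W3 := 26843546)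
    rfl k0_pm_133

noncomputable def f_pm_202 : ℕ → ℕ → ℕ → ℕ → Bool := onCell 1073741824 536870912 1073741824 536870912 1046898278 26843546
    (rowFX 1 true true false .pp 2 0 2 (qsf 1073741824 536870912 0 536870912 2) ndF5q2 ndF7q0 pcF2 Cut.none Ext.none)

def k0_pm_202 : ∃ t, chk3 f_pm_202 t 1 1 1 = true :=
  ⟨(b (b (a (a (b (a (c (a (l 15060128) (l 14622056)) (a (b (l 14993456) (l 15020520)) (b (l 14547568) (l 14594944)))) (a (a (b (l 1) (l 14312176)) (l 1)) (l 1))) (a (b (a (c (l 15096144) (l 15051832)) (c (l 14654576) (l 14599976))) (a (l 14846696) (l 14403944))) (b (c (l 14054864) (a (l 14182624) (l 13801120))) (a (l 13996888) (l 13625600))))) (a (b (l 1) (a (b (l 1) (a (l 13371232) (l 1))) (l 1))) (l 1))) (l 1)) (a (a (b (a (b (b (l 14454928) (l 14592536)) (c (l 15088752) (l 15042096))) (b (b (l 13651192) (l 13789824)) (l 14234800))) (b (a (c (l 15637536) (l 15606144)) (l 14801840)) (a (l 15897800) (l 15075224)))) (b (a (b (a (a (l 13293336) (l 13458256)) (b (l 1)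 (l 14161216))) (a (a (l 13823560) (l 13986792)) (l 14617328))) (b (l 1) (a (l 15393840) (l 1)))) (a (b (a (l 14443024) (l 15148056)) (a (l 14714112) (l 15417456))) (b (a (l 15918144) (l 16296328)) (a (l 16185816) (l 16562344)))))) (b (l 1) (b (l 1) (a (l 16521336) (l 1)))))) (a (a (b (b (a (l 15822808) (l 15137480)) (a (l 16022288) (l 15223208))) (b (a (l 16025520) (l 15226904)) (a (l 16025520) (l 15226904)))) (b (a (b (a (l 14785688) (l 15495672)) (a (l 14881216) (l 15598048))) (b (a (l 16229056) (l 16654848)) (a (l 16380512) (l 16771808)))) (a (b (a (l 14885272) (l 15602360)) (l 15062856)) (b (a (l 16385096) (l 16776664)) (l 16355216))))) (b (b (a (c (l 16636272) (l 16632784)) (l 1)) (a (l 16771624) (l 16770280))) (c (b (l 16777216) (l 16777216)) (b (l 16777216) (l 16777216)))))), by decide +kernel⟩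

theorem c_pm_202 : CertFX 1073741824 536870912 0 536870912 1046898278 26843546 true true false .pp 2 0 2
    ndF5q2 ndF7q0 pcF2 Cut.none Ext.none :=
  certFX1 (fam := true) (s1 := true) (s2 := false) (a := 2) (b := 0) (c := 2) (cn := .pp) (n1 := ndF5q2) (n2 := ndF7q0) (pc := pcF2) (cut := Cut.none) (xt := Ext.none) (P1 := 1073741824) (W1 := 536870912) (P2 := 0) (W2 := 536870912) (P3 := 1046898278) (W3 := 26843546)
    rfl (fun _ => rfl) k0_pm_202

noncomputable def f_pm_203 : ℕ → ℕ → ℕ → ℕ → Bool := onCell 1073741824 536870912 1610612736 536870912 1046898278 26843546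
    (rowFX 1 true true false .up 2 0 3 (qsf 1073741824 536870912 0 536870912 3) ndF5q2 ndF7q0 pcF3 Cut.none Ext.none)

def k0_pm_203 : ∃ t, chk3 f_pm_203 t 1 1 1 = true :=
  ⟨(b (a (a (a (b (b (l 16025520) (l 16025520)) (l 2)) (b (b (l 15226904) (l 15226904)) (l 4))) (b (a (b (l 15083824) (b (l 15251592) (l 4))) (b (a (l 16385096) (l 16776664)) (a (l 16385096) (l 4)))) (l 4))) (b (a (b (l 16777216) (l 4)) (l 4)) (l 4))) (l 4)), by decide +kernel⟩

theorem c_pm_203 : CertFX 1073741824 536870912 0 536870912 1046898278 26843546 true true false .up 2 0 3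
    ndF5q2 ndF7q0 pcF3 Cut.none Ext.none :=
  certFX1 (fam := true) (s1 := true) (s2 := false) (a := 2) (b := 0) (c := 3) (cn := .up) (n1 := ndF5q2) (n2 := ndF7q0) (pc := pcF3) (cut := Cut.none) (xt := Ext.none) (P1 := 1073741824) (W1 := 536870912) (P2 := 0) (W2 := 536870912) (P3 := 1046898278) (W3 := 26843546)
    rfl (fun _ => rfl) k0_pm_203

noncomputable def f_pm_213 : ℕ → ℕ → ℕ → ℕ → Bool := onCell 1073741824 536870912 1610612736 536870912 1046898278 26843546
    (rowFX 1 true true false .pnn 2 1 3 (qsf 1073741824 536870912 536870912 536870912 3) ndF5q2 ndF7q1 pcF3 Cut.none Ext.none)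

def k0_pm_213 : ∃ t, chk3 f_pm_213 t 1 1 1 = true :=
  ⟨(b (a (a (b (b (a (l 16025520) (l 15226904)) (a (l 16025520) (l 15226904))) (b (a (b (l 16013656) (l 4)) (l 4)) (l 4))) (b (a (b (l 1) (b (l 1) (l 4))) (l 1)) (l 4))) (b (l 1) (l 4))) (l 4)), by decide +kernel⟩

theorem c_pm_213 : CertFX 1073741824 536870912 536870912 536870912 1046898278 26843546 true true false .pnn 2 1 3
    ndF5q2 ndF7q1 pcF3 Cut.none Ext.none :=
  certFX1 (fam := true) (s1 := true) (s2 := false) (a := 2) (b := 1) (c := 3) (cn := .pnn) (n1 := ndF5q2) (n2 := ndF7q1) (pc := pcF3) (cut := Cut.none) (xt := Ext.none) (P1 := 1073741824) (W1 := 536870912) (P2 := 536870912) (W2 := 536870912) (P3 := 1046898278) (W3 := 26843546)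
    rfl (fun _ => rfl) k0_pm_213

noncomputable def f_pm_303 : ℕ → ℕ → ℕ → ℕ → Bool := onCell 0 1230186008 1610612736 536870912 1046898278 26843546
    (rowFX 1 true true false .npn 3 0 3 (qsf 0 1230186008 0 536870912 3) ndF5q3 ndF7q0 pcF3 Cut.none Ext.none)

def k0_pm_303 : ∃ t, chk3 f_pm_303 t 1 1 1 = true :=
  ⟨(a (l 4) (a (l 4) (l 4))), by decide +kernel⟩

theorem c_pm_303 : CertFX 0 1230186008 0 536870912 1046898278 26843546 true true false .npn 3 0 3
    ndF5q3 ndF7q0 pcF3 Cut.none Ext.none :=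
  certFX1 (fam := true) (s1 := true) (s2 := false) (a := 3) (b := 0) (c := 3) (cn := .npn) (n1 := ndF5q3) (n2 := ndF7q0) (pc := pcF3) (cut := Cut.none) (xt := Ext.none) (P1 := 0) (W1 := 1230186008) (P2 := 0) (W2 := 536870912) (P3 := 1046898278) (W3 := 26843546)
    rfl (fun _ => rfl) k0_pm_303

noncomputable def f_pm_313 : ℕ → ℕ → ℕ → ℕ → Bool := onCell 0 1230186008 536870912 536870912 1046898278 26843546
    (rowFX 0 true true false .dn 3 1 3 (qsf 0 1230186008 536870912 536870912 3) ndF5q3 ndF7q1 pcF3 Cut.none Ext.none)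

def k0_pm_313 : ∃ t, chk3 f_pm_313 t 1 1 1 = true :=
  ⟨(l 4), by decide +kernel⟩

theorem c_pm_313 : CertFX 0 1230186008 536870912 536870912 1046898278 26843546 true true false .dn 3 1 3
    ndF5q3 ndF7q1 pcF3 Cut.none Ext.none :=
  certFX0 (fam := true) (s1 := true) (s2 := false) (a := 3) (b := 1) (c := 3) (cn := .dn) (n1 := ndF5q3) (n2 := ndF7q1) (pc := pcF3) (cut := Cut.none) (xt := Ext.none) (P1 := 0) (W1 := 1230186008) (P2 := 536870912) (W2 := 536870912) (P3 := 1046898278) (W3 := 26843546)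
    rfl k0_pm_313

noncomputable def f_mm_001 : ℕ → ℕ → ℕ → ℕ → Bool := onCell 0 536870912 0 536870912 1046898278 26843546
    (rowFX 0 true false false .up 0 0 1 (qsf 0 536870912 0 536870912 1) ndF5q0 ndF7q0 pcF1 Cut.none Ext.none)

def k0_mm_001 : ∃ t, chk3 f_mm_001 t 1 1 1 = true :=
  ⟨(l 4), by decide +kernel⟩

theorem c_mm_001 : CertFX 0 536870912 0 536870912 1046898278 26843546 true false false .up 0 0 1
    ndF5q0 ndF7q0 pcF1 Cut.none Ext.none :=
  certFX0 (fam := true) (s1 := false) (s2 := false) (a := 0) (b := 0) (c := 1) (cn := .up) (n1 := ndF5q0) (n2 := ndF7q0) (pc := pcF1) (cut := Cut.none) (xt := Ext.none) (P1 := 0) (W1 := 536870912) (P2 := 0) (W2 := 536870912) (P3 := 1046898278) (W3 := 26843546)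
    rfl k0_mm_001

noncomputable def f_mm_011 : ℕ → ℕ → ℕ → ℕ → Bool := onCell 0 536870912 536870912 536870912 1046898278 26843546
    (rowFX 0 true false false .pnn 0 1 1 (qsf 0 536870912 536870912 536870912 1) ndF5q0 ndF7q1 pcF1 Cut.none Ext.none)

def k0_mm_011 : ∃ t, chk3 f_mm_011 t 1 1 1 = true :=
  ⟨(l 4), by decide +kernel⟩

theorem c_mm_011 : CertFX 0 536870912 536870912 536870912 1046898278 26843546 true false false .pnn 0 1 1
    ndF5q0 ndF7q1 pcF1 Cut.none Ext.none :=
  certFX0 (fam := true) (s1 := false) (s2 := false) (a := 0) (b := 1) (c := 1) (cn := .pnn) (n1 := ndF5q0) (n2 := ndF7q1) (pc := pcF1) (cut := Cut.none) (xt := Ext.none) (P1 := 0) (W1 := 536870912) (P2 := 536870912) (W2 := 536870912) (P3 := 1046898278) (W3 := 26843546)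
    rfl k0_mm_011

noncomputable def f_mm_012 : ℕ → ℕ → ℕ → ℕ → Bool := onCell 0 536870912 536870912 536870912 1046898278 26843546
    (rowFX 0 true false false .pnp 0 1 2 (qsf 0 536870912 536870912 536870912 2) ndF5q0 ndF7q1 pcF2 Cut.none Ext.none)

def k0_mm_012 : ∃ t, chk3 f_mm_012 t 1 1 1 = true :=
  ⟨(l 4), by decide +kernel⟩

theorem c_mm_012 : CertFX 0 536870912 536870912 536870912 1046898278 26843546 true false false .pnp 0 1 2
    ndF5q0 ndF7q1 pcF2 Cut.none Ext.none :=
  certFX0 (fam := true) (s1 := false) (s2 := false) (a := 0) (b := 1) (c := 2) (cn := .pnp) (n1 := ndF5q0) (n2 := ndF7q1) (pc := pcF2) (cut := Cut.none) (xt := Ext.none) (P1 := 0) (W1 := 536870912) (P2 := 536870912) (W2 := 536870912) (P3 := 1046898278) (W3 := 26843546)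
    rfl k0_mm_012

noncomputable def f_mm_022 : ℕ → ℕ → ℕ → ℕ → Bool := onCell 0 536870912 1073741824 536870912 1046898278 26843546
    (rowFX 0 true false false .pp 0 2 2 (qsf 0 536870912 1073741824 536870912 2) ndF5q0 ndF7q2 pcF2 Cut.none Ext.none)

def k0_mm_022 : ∃ t, chk3 f_mm_022 t 1 1 1 = true :=
  ⟨(l 4), by decide +kernel⟩

theorem c_mm_022 : CertFX 0 536870912 1073741824 536870912 1046898278 26843546 true false false .pp 0 2 2
    ndF5q0 ndF7q2 pcF2 Cut.none Ext.none :=
  certFX0 (fam := true) (s1 := false) (s2 := false) (a := 0) (b := 2) (c := 2) (cn := .pp) (n1 := ndF5q0) (n2 := ndF7q2) (pc := pcF2) (cut := Cut.none) (xt := Ext.none) (P1 := 0) (W1 := 536870912) (P2 := 1073741824) (W2 := 536870912) (P3 := 1046898278) (W3 := 26843546)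
    rfl k0_mm_022

noncomputable def f_mm_023 : ℕ → ℕ → ℕ → ℕ → Bool := onCell 0 536870912 1073741824 536870912 1046898278 26843546
    (rowFX 0 true false false .up 0 2 3 (qsf 0 536870912 1073741824 536870912 3) ndF5q0 ndF7q2 pcF3 Cut.none Ext.none)

def k0_mm_023 : ∃ t, chk3 f_mm_023 t 1 1 1 = true :=
  ⟨(l 4), by decide +kernel⟩

theorem c_mm_023 : CertFX 0 536870912 1073741824 536870912 1046898278 26843546 true false false .up 0 2 3
    ndF5q0 ndF7q2 pcF3 Cut.none Ext.none :=
  certFX0 (fam := true) (s1 := false) (s2 := false) (a := 0) (b := 2) (c := 3) (cn := .up) (n1 := ndF5q0) (n2 := ndF7q2) (pc := pcF3) (cut := Cut.none) (xt := Ext.none) (P1 := 0) (W1 := 536870912) (P2 := 1073741824) (W2 := 536870912) (P3 := 1046898278) (W3 := 26843546)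
    rfl k0_mm_023

noncomputable def f_mm_033 : ℕ → ℕ → ℕ → ℕ → Bool := onCell 0 536870912 0 1230186008 1046898278 26843546
    (rowFX 0 true false false .pnn 0 3 3 (qsf 0 536870912 0 1230186008 3) ndF5q0 ndF7q3 pcF3 Cut.none Ext.none)

def k0_mm_033 : ∃ t, chk3 f_mm_033 t 1 1 1 = true :=
  ⟨(l 4), by decide +kernel⟩

theorem c_mm_033 : CertFX 0 536870912 0 1230186008 1046898278 26843546 true false false .pnn 0 3 3
    ndF5q0 ndF7q3 pcF3 Cut.none Ext.none :=
  certFX0 (fam := true) (s1 := false) (s2 := false) (a := 0) (b := 3) (c := 3) (cn := .pnn) (n1 := ndF5q0) (n2 := ndF7q3) (pc := pcF3) (cut := Cut.none) (xt := Ext.none) (P1 := 0) (W1 := 536870912) (P2 := 0) (W2 := 1230186008) (P3 := 1046898278) (W3 := 26843546)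
    rfl k0_mm_033

noncomputable def f_mm_101 : ℕ → ℕ → ℕ → ℕ → Bool := onCell 536870912 469762048 0 536870912 1046898278 26843546
    (rowFX 0 true false false .npn 1 0 1 (qsf 536870912 469762048 0 536870912 1) ndF5q1 ndF7q0 pcF1 Cut.none Ext.none)

def k0_mm_101 : ∃ t, chk3 f_mm_101 t 1 1 1 = true :=
  ⟨(l 4), by decide +kernel⟩

theorem c_mm_101 : CertFX 536870912 469762048 0 536870912 1046898278 26843546 true false false .npn 1 0 1
    ndF5q1 ndF7q0 pcF1 Cut.none Ext.none :=
  certFX0 (fam := true) (s1 := false) (s2 := false) (a := 1) (b := 0) (c := 1) (cn := .npn) (n1 := ndF5q1) (n2 := ndF7q0) (pc := pcF1) (cut := Cut.none) (xt := Ext.none) (P1 := 536870912) (W1 := 469762048) (P2 := 0) (W2 := 536870912) (P3 := 1046898278) (W3 := 26843546)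
    rfl k0_mm_101

noncomputable def f_mm_102 : ℕ → ℕ → ℕ → ℕ → Bool := onCell 536870912 469762048 0 536870912 1046898278 26843546
    (rowFX 0 true false false .npp 1 0 2 (qsf 536870912 469762048 0 536870912 2) ndF5q1 ndF7q0 pcF2 Cut.none Ext.none)

def k0_mm_102 : ∃ t, chk3 f_mm_102 t 1 1 1 = true :=
  ⟨(l 4), by decide +kernel⟩

theorem c_mm_102 : CertFX 536870912 469762048 0 536870912 1046898278 26843546 true false false .npp 1 0 2
    ndF5q1 ndF7q0 pcF2 Cut.none Ext.none :=
  certFX0 (fam := true) (s1 := false) (s2 := false) (a := 1) (b := 0) (c := 2) (cn := .npp) (n1 := ndF5q1) (n2 := ndF7q0) (pc := pcF2) (cut := Cut.none) (xt := Ext.none) (P1 := 536870912) (W1 := 469762048) (P2 := 0) (W2 := 536870912) (P3 := 1046898278) (W3 := 26843546)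
    rfl k0_mm_102

noncomputable def f_mm_112 : ℕ → ℕ → ℕ → ℕ → Bool := onCell 536870912 469762048 536870912 536870912 1046898278 26843546
    (rowFX 0 true false false .dn 1 1 2 (qsf 536870912 469762048 536870912 536870912 2) ndF5q1 ndF7q1 pcF2 Cut.none Ext.none)

def k0_mm_112 : ∃ t, chk3 f_mm_112 t 1 1 1 = true :=
  ⟨(l 4), by decide +kernel⟩

theorem c_mm_112 : CertFX 536870912 469762048 536870912 536870912 1046898278 26843546 true false false .dn 1 1 2
    ndF5q1 ndF7q1 pcF2 Cut.none Ext.none :=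
  certFX0 (fam := true) (s1 := false) (s2 := false) (a := 1) (b := 1) (c := 2) (cn := .dn) (n1 := ndF5q1) (n2 := ndF7q1) (pc := pcF2) (cut := Cut.none) (xt := Ext.none) (P1 := 536870912) (W1 := 469762048) (P2 := 536870912) (W2 := 536870912) (P3 := 1046898278) (W3 := 26843546)
    rfl k0_mm_112

noncomputable def f_mm_113 : ℕ → ℕ → ℕ → ℕ → Bool := onCell 536870912 469762048 536870912 536870912 1046898278 26843546
    (rowFX 0 true false false .nn 1 1 3 (qsf 536870912 469762048 536870912 536870912 3) ndF5q1 ndF7q1 pcF3 Cut.none Ext.none)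

def k0_mm_113 : ∃ t, chk3 f_mm_113 t 1 1 1 = true :=
  ⟨(l 4), by decide +kernel⟩

theorem c_mm_113 : CertFX 536870912 469762048 536870912 536870912 1046898278 26843546 true false false .nn 1 1 3
    ndF5q1 ndF7q1 pcF3 Cut.none Ext.none :=
  certFX0 (fam := true) (s1 := false) (s2 := false) (a := 1) (b := 1) (c := 3) (cn := .nn) (n1 := ndF5q1) (n2 := ndF7q1) (pc := pcF3) (cut := Cut.none) (xt := Ext.none) (P1 := 536870912) (W1 := 469762048) (P2 := 536870912) (W2 := 536870912) (P3 := 1046898278) (W3 := 26843546)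
    rfl k0_mm_113

noncomputable def f_mm_123 : ℕ → ℕ → ℕ → ℕ → Bool := onCell 536870912 469762048 1073741824 536870912 1046898278 26843546
    (rowFX 0 true false false .npn 1 2 3 (qsf 536870912 469762048 1073741824 536870912 3) ndF5q1 ndF7q2 pcF3 Cut.none Ext.none)

def k0_mm_123 : ∃ t, chk3 f_mm_123 t 1 1 1 = true :=
  ⟨(l 4), by decide +kernel⟩

theorem c_mm_123 : CertFX 536870912 469762048 1073741824 536870912 1046898278 26843546 true false false .npn 1 2 3
    ndF5q1 ndF7q2 pcF3 Cut.none Ext.none :=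
  certFX0 (fam := true) (s1 := false) (s2 := false) (a := 1) (b := 2) (c := 3) (cn := .npn) (n1 := ndF5q1) (n2 := ndF7q2) (pc := pcF3) (cut := Cut.none) (xt := Ext.none) (P1 := 536870912) (W1 := 469762048) (P2 := 1073741824) (W2 := 536870912) (P3 := 1046898278) (W3 := 26843546)
    rfl k0_mm_123

noncomputable def f_mm_133 : ℕ → ℕ → ℕ → ℕ → Bool := onCell 536870912 469762048 0 1230186008 1046898278 26843546
    (rowFX 0 true false false .dn 1 3 3 (qsf 536870912 469762048 0 1230186008 3) ndF5q1 ndF7q3 pcF3 Cut.none Ext.none)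

def k0_mm_133 : ∃ t, chk3 f_mm_133 t 1 1 1 = true :=
  ⟨(l 4), by decide +kernel⟩

theorem c_mm_133 : CertFX 536870912 469762048 0 1230186008 1046898278 26843546 true false false .dn 1 3 3
    ndF5q1 ndF7q3 pcF3 Cut.none Ext.none :=
  certFX0 (fam := true) (s1 := false) (s2 := false) (a := 1) (b := 3) (c := 3) (cn := .dn) (n1 := ndF5q1) (n2 := ndF7q3) (pc := pcF3) (cut := Cut.none) (xt := Ext.none) (P1 := 536870912) (W1 := 469762048) (P2 := 0) (W2 := 1230186008) (P3 := 1046898278) (W3 := 26843546)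
    rfl k0_mm_133

noncomputable def f_mm_202 : ℕ → ℕ → ℕ → ℕ → Bool := onCell 1073741824 536870912 0 536870912 1046898278 26843546
    (rowFX 0 true false false .pp 2 0 2 (qsf 1073741824 536870912 0 536870912 2) ndF5q2 ndF7q0 pcF2 Cut.none Ext.none)

def k0_mm_202 : ∃ t, chk3 f_mm_202 t 1 1 1 = true :=
  ⟨(l 4), by decide +kernel⟩

theorem c_mm_202 : CertFX 1073741824 536870912 0 536870912 1046898278 26843546 true false false .pp 2 0 2
    ndF5q2 ndF7q0 pcF2 Cut.none Ext.none :=
  certFX0 (fam := true) (s1 := false) (s2 := false) (a := 2) (b := 0) (c := 2) (cn := .pp) (n1 := ndF5q2) (n2 := ndF7q0) (pc := pcF2) (cut := Cut.none) (xt := Ext.none) (P1 := 1073741824) (W1 := 536870912) (P2 := 0) (W2 := 536870912) (P3 := 1046898278) (W3 := 26843546)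
    rfl k0_mm_202

noncomputable def f_mm_203 : ℕ → ℕ → ℕ → ℕ → Bool := onCell 1073741824 536870912 0 536870912 1046898278 26843546
    (rowFX 0 true false false .up 2 0 3 (qsf 1073741824 536870912 0 536870912 3) ndF5q2 ndF7q0 pcF3 Cut.none Ext.none)

def k0_mm_203 : ∃ t, chk3 f_mm_203 t 1 1 1 = true :=
  ⟨(l 4), by decide +kernel⟩

theorem c_mm_203 : CertFX 1073741824 536870912 0 536870912 1046898278 26843546 true false false .up 2 0 3
    ndF5q2 ndF7q0 pcF3 Cut.none Ext.none :=
  certFX0 (fam := true) (s1 := false) (s2 := false) (a := 2) (b := 0) (c := 3) (cn := .up) (n1 := ndF5q2) (n2 := ndF7q0) (pc := pcF3) (cut := Cut.none) (xt := Ext.none) (P1 := 1073741824) (W1 := 536870912) (P2 := 0) (W2 := 536870912) (P3 := 1046898278) (W3 := 26843546)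
    rfl k0_mm_203

noncomputable def f_mm_213 : ℕ → ℕ → ℕ → ℕ → Bool := onCell 1073741824 536870912 536870912 536870912 1046898278 26843546
    (rowFX 0 true false false .pnn 2 1 3 (qsf 1073741824 536870912 536870912 536870912 3) ndF5q2 ndF7q1 pcF3 Cut.none Ext.none)

def k0_mm_213 : ∃ t, chk3 f_mm_213 t 1 1 1 = true :=
  ⟨(l 4), by decide +kernel⟩

theorem c_mm_213 : CertFX 1073741824 536870912 536870912 536870912 1046898278 26843546 true false false .pnn 2 1 3
    ndF5q2 ndF7q1 pcF3 Cut.none Ext.none :=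
  certFX0 (fam := true) (s1 := false) (s2 := false) (a := 2) (b := 1) (c := 3) (cn := .pnn) (n1 := ndF5q2) (n2 := ndF7q1) (pc := pcF3) (cut := Cut.none) (xt := Ext.none) (P1 := 1073741824) (W1 := 536870912) (P2 := 536870912) (W2 := 536870912) (P3 := 1046898278) (W3 := 26843546)
    rfl k0_mm_213

noncomputable def f_mm_303 : ℕ → ℕ → ℕ → ℕ → Bool := onCell 0 1230186008 0 536870912 1046898278 26843546
    (rowFX 0 true false false .npn 3 0 3 (qsf 0 1230186008 0 536870912 3) ndF5q3 ndF7q0 pcF3 Cut.none Ext.none)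

def k0_mm_303 : ∃ t, chk3 f_mm_303 t 1 1 1 = true :=
  ⟨(l 4), by decide +kernel⟩

theorem c_mm_303 : CertFX 0 1230186008 0 536870912 1046898278 26843546 true false false .npn 3 0 3
    ndF5q3 ndF7q0 pcF3 Cut.none Ext.none :=
  certFX0 (fam := true) (s1 := false) (s2 := false) (a := 3) (b := 0) (c := 3) (cn := .npn) (n1 := ndF5q3) (n2 := ndF7q0) (pc := pcF3) (cut := Cut.none) (xt := Ext.none) (P1 := 0) (W1 := 1230186008) (P2 := 0) (W2 := 536870912) (P3 := 1046898278) (W3 := 26843546)
    rfl k0_mm_303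

noncomputable def f_mm_313 : ℕ → ℕ → ℕ → ℕ → Bool := onCell 0 1230186008 536870912 536870912 1046898278 26843546
    (rowFX 0 true false false .dn 3 1 3 (qsf 0 1230186008 536870912 536870912 3) ndF5q3 ndF7q1 pcF3 Cut.none Ext.none)

def k0_mm_313 : ∃ t, chk3 f_mm_313 t 1 1 1 = true :=
  ⟨(l 4), by decide +kernel⟩

theorem c_mm_313 : CertFX 0 1230186008 536870912 536870912 1046898278 26843546 true false false .dn 3 1 3
    ndF5q3 ndF7q1 pcF3 Cut.none Ext.none :=
  certFX0 (fam := true) (s1 := false) (s2 := false) (a := 3) (b := 1) (c := 3) (cn := .dn) (n1 := ndF5q3) (n2 := ndF7q1) (pc := pcF3) (cut := Cut.none) (xt := Ext.none) (P1 := 0) (W1 := 1230186008) (P2 := 536870912) (W2 := 536870912) (P3 := 1046898278) (W3 := 26843546)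
    rfl k0_mm_313

end Pool.Agent.Strip051.G.IE1.Tab.C.FA57

namespace Pool.Agent.Strip051.G.IE1.Tab.C.FA66

open Pool.Agent.Strip051.PB Pool.Agent.Strip051.PB.T
open Pool.Agent.Strip051.G.IE1.Tab

noncomputable def f_pp_001 : ℕ → ℕ → ℕ → ℕ → Bool := onCell 0 536870912 0 536870912 1046898278 26843546
    (rowFX 0 true true true .up 0 0 1 (qsf 0 536870912 0 536870912 1) ndF6q0 ndF6q0 pcF1 Cut.none Ext.none)

def k0_pp_001 : ∃ t, chk3 f_pp_001 t 1 1 1 = true :=
  ⟨(l 4), by decide +kernel⟩

theorem c_pp_001 : CertFX 0 536870912 0 536870912 1046898278 26843546 true true true .up 0 0 1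
    ndF6q0 ndF6q0 pcF1 Cut.none Ext.none :=
  certFX0 (fam := true) (s1 := true) (s2 := true) (a := 0) (b := 0) (c := 1) (cn := .up) (n1 := ndF6q0) (n2 := ndF6q0) (pc := pcF1) (cut := Cut.none) (xt := Ext.none) (P1 := 0) (W1 := 536870912) (P2 := 0) (W2 := 536870912) (P3 := 1046898278) (W3 := 26843546)
    rfl k0_pp_001

noncomputable def f_pp_011 : ℕ → ℕ → ℕ → ℕ → Bool := onCell 0 536870912 536870912 469762048 1046898278 26843546
    (rowFX 0 true true true .pnn 0 1 1 (qsf 0 536870912 536870912 469762048 1) ndF6q0 ndF6q1 pcF1 Cut.none Ext.none)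

def k0_pp_011 : ∃ t, chk3 f_pp_011 t 1 1 1 = true :=
  ⟨(l 4), by decide +kernel⟩

theorem c_pp_011 : CertFX 0 536870912 536870912 469762048 1046898278 26843546 true true true .pnn 0 1 1
    ndF6q0 ndF6q1 pcF1 Cut.none Ext.none :=
  certFX0 (fam := true) (s1 := true) (s2 := true) (a := 0) (b := 1) (c := 1) (cn := .pnn) (n1 := ndF6q0) (n2 := ndF6q1) (pc := pcF1) (cut := Cut.none) (xt := Ext.none) (P1 := 0) (W1 := 536870912) (P2 := 536870912) (W2 := 469762048) (P3 := 1046898278) (W3 := 26843546)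
    rfl k0_pp_011

noncomputable def f_pp_012 : ℕ → ℕ → ℕ → ℕ → Bool := onCell 0 536870912 536870912 469762048 1046898278 26843546
    (rowFX 0 true true true .pnp 0 1 2 (qsf 0 536870912 536870912 469762048 2) ndF6q0 ndF6q1 pcF2 Cut.none Ext.none)

def k0_pp_012 : ∃ t, chk3 f_pp_012 t 1 1 1 = true :=
  ⟨(l 4), by decide +kernel⟩

theorem c_pp_012 : CertFX 0 536870912 536870912 469762048 1046898278 26843546 true true true .pnp 0 1 2
    ndF6q0 ndF6q1 pcF2 Cut.none Ext.none :=
  certFX0 (fam := true) (s1 := true) (s2 := true) (a := 0) (b := 1) (c := 2) (cn := .pnp) (n1 := ndF6q0) (n2 := ndF6q1) (pc := pcF2) (cut := Cut.none) (xt := Ext.none) (P1 := 0) (W1 := 536870912) (P2 := 536870912) (W2 := 469762048) (P3 := 1046898278) (W3 := 26843546)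
    rfl k0_pp_012

noncomputable def f_pp_022 : ℕ → ℕ → ℕ → ℕ → Bool := onCell 0 536870912 1073741824 536870912 1046898278 26843546
    (rowFX 0 true true true .pp 0 2 2 (qsf 0 536870912 1073741824 536870912 2) ndF6q0 ndF6q2 pcF2 Cut.none Ext.none)

def k0_pp_022 : ∃ t, chk3 f_pp_022 t 1 1 1 = true :=
  ⟨(l 4), by decide +kernel⟩

theorem c_pp_022 : CertFX 0 536870912 1073741824 536870912 1046898278 26843546 true true true .pp 0 2 2
    ndF6q0 ndF6q2 pcF2 Cut.none Ext.none :=
  certFX0 (fam := true) (s1 := true) (s2 := true) (a := 0) (b := 2) (c := 2) (cn := .pp) (n1 := ndF6q0) (n2 := ndF6q2) (pc := pcF2) (cut := Cut.none) (xt := Ext.none) (P1 := 0) (W1 := 536870912) (P2 := 1073741824) (W2 := 536870912) (P3 := 1046898278) (W3 := 26843546)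
    rfl k0_pp_022

noncomputable def f_pp_023 : ℕ → ℕ → ℕ → ℕ → Bool := onCell 0 536870912 1073741824 536870912 1046898278 26843546
    (rowFX 0 true true true .up 0 2 3 (qsf 0 536870912 1073741824 536870912 3) ndF6q0 ndF6q2 pcF3 Cut.none Ext.none)

def k0_pp_023 : ∃ t, chk3 f_pp_023 t 1 1 1 = true :=
  ⟨(l 4), by decide +kernel⟩

theorem c_pp_023 : CertFX 0 536870912 1073741824 536870912 1046898278 26843546 true true true .up 0 2 3
    ndF6q0 ndF6q2 pcF3 Cut.none Ext.none :=
  certFX0 (fam := true) (s1 := true) (s2 := true) (a := 0) (b := 2) (c := 3) (cn := .up) (n1 := ndF6q0) (n2 := ndF6q2) (pc := pcF3) (cut := Cut.none) (xt := Ext.none) (P1 := 0) (W1 := 536870912) (P2 := 1073741824) (W2 := 536870912) (P3 := 1046898278) (W3 := 26843546)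
    rfl k0_pp_023

noncomputable def f_pp_033 : ℕ → ℕ → ℕ → ℕ → Bool := onCell 0 536870912 0 1230186008 1046898278 26843546
    (rowFX 0 true true true .pnn 0 3 3 (qsf 0 536870912 0 1230186008 3) ndF6q0 ndF6q3 pcF3 Cut.none Ext.none)

def k0_pp_033 : ∃ t, chk3 f_pp_033 t 1 1 1 = true :=
  ⟨(l 4), by decide +kernel⟩

theorem c_pp_033 : CertFX 0 536870912 0 1230186008 1046898278 26843546 true true true .pnn 0 3 3
    ndF6q0 ndF6q3 pcF3 Cut.none Ext.none :=
  certFX0 (fam := true) (s1 := true) (s2 := true) (a := 0) (b := 3) (c := 3) (cn := .pnn) (n1 := ndF6q0) (n2 := ndF6q3) (pc := pcF3) (cut := Cut.none) (xt := Ext.none) (P1 := 0) (W1 := 536870912) (P2 := 0) (W2 := 1230186008) (P3 := 1046898278) (W3 := 26843546)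
    rfl k0_pp_033

noncomputable def f_pp_101 : ℕ → ℕ → ℕ → ℕ → Bool := onCell 536870912 469762048 0 536870912 1046898278 26843546
    (rowFX 0 true true true .npn 1 0 1 (qsf 536870912 469762048 0 536870912 1) ndF6q1 ndF6q0 pcF1 Cut.none Ext.none)

def k0_pp_101 : ∃ t, chk3 f_pp_101 t 1 1 1 = true :=
  ⟨(l 4), by decide +kernel⟩

theorem c_pp_101 : CertFX 536870912 469762048 0 536870912 1046898278 26843546 true true true .npn 1 0 1
    ndF6q1 ndF6q0 pcF1 Cut.none Ext.none :=
  certFX0 (fam := true) (s1 := true) (s2 := true) (a := 1) (b := 0) (c := 1) (cn := .npn) (n1 := ndF6q1) (n2 := ndF6q0) (pc := pcF1) (cut := Cut.none) (xt := Ext.none) (P1 := 536870912) (W1 := 469762048) (P2 := 0) (W2 := 536870912) (P3 := 1046898278) (W3 := 26843546)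
    rfl k0_pp_101

noncomputable def f_pp_102 : ℕ → ℕ → ℕ → ℕ → Bool := onCell 536870912 469762048 0 536870912 1046898278 26843546
    (rowFX 0 true true true .npp 1 0 2 (qsf 536870912 469762048 0 536870912 2) ndF6q1 ndF6q0 pcF2 Cut.none Ext.none)

def k0_pp_102 : ∃ t, chk3 f_pp_102 t 1 1 1 = true :=
  ⟨(l 4), by decide +kernel⟩

theorem c_pp_102 : CertFX 536870912 469762048 0 536870912 1046898278 26843546 true true true .npp 1 0 2
    ndF6q1 ndF6q0 pcF2 Cut.none Ext.none :=
  certFX0 (fam := true) (s1 := true) (s2 := true) (a := 1) (b := 0) (c := 2) (cn := .npp) (n1 := ndF6q1) (n2 := ndF6q0) (pc := pcF2) (cut := Cut.none) (xt := Ext.none) (P1 := 536870912) (W1 := 469762048) (P2 := 0) (W2 := 536870912) (P3 := 1046898278) (W3 := 26843546)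
    rfl k0_pp_102

noncomputable def f_pp_112 : ℕ → ℕ → ℕ → ℕ → Bool := onCell 536870912 469762048 536870912 469762048 1046898278 26843546
    (rowFX 0 true true true .dn 1 1 2 (qsf 536870912 469762048 536870912 469762048 2) ndF6q1 ndF6q1 pcF2 Cut.none Ext.none)

def k0_pp_112 : ∃ t, chk3 f_pp_112 t 1 1 1 = true :=
  ⟨(l 4), by decide +kernel⟩

theorem c_pp_112 : CertFX 536870912 469762048 536870912 469762048 1046898278 26843546 true true true .dn 1 1 2
    ndF6q1 ndF6q1 pcF2 Cut.none Ext.none :=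
  certFX0 (fam := true) (s1 := true) (s2 := true) (a := 1) (b := 1) (c := 2) (cn := .dn) (n1 := ndF6q1) (n2 := ndF6q1) (pc := pcF2) (cut := Cut.none) (xt := Ext.none) (P1 := 536870912) (W1 := 469762048) (P2 := 536870912) (W2 := 469762048) (P3 := 1046898278) (W3 := 26843546)
    rfl k0_pp_112

noncomputable def f_pp_113 : ℕ → ℕ → ℕ → ℕ → Bool := onCell 536870912 469762048 536870912 469762048 1046898278 26843546
    (rowFX 0 true true true .nn 1 1 3 (qsf 536870912 469762048 536870912 469762048 3) ndF6q1 ndF6q1 pcF3 Cut.none Ext.none)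

def k0_pp_113 : ∃ t, chk3 f_pp_113 t 1 1 1 = true :=
  ⟨(l 4), by decide +kernel⟩

theorem c_pp_113 : CertFX 536870912 469762048 536870912 469762048 1046898278 26843546 true true true .nn 1 1 3
    ndF6q1 ndF6q1 pcF3 Cut.none Ext.none :=
  certFX0 (fam := true) (s1 := true) (s2 := true) (a := 1) (b := 1) (c := 3) (cn := .nn) (n1 := ndF6q1) (n2 := ndF6q1) (pc := pcF3) (cut := Cut.none) (xt := Ext.none) (P1 := 536870912) (W1 := 469762048) (P2 := 536870912) (W2 := 469762048) (P3 := 1046898278) (W3 := 26843546)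
    rfl k0_pp_113

noncomputable def f_pp_123 : ℕ → ℕ → ℕ → ℕ → Bool := onCell 536870912 469762048 1073741824 536870912 1046898278 26843546
    (rowFX 0 true true true .npn 1 2 3 (qsf 536870912 469762048 1073741824 536870912 3) ndF6q1 ndF6q2 pcF3 Cut.none Ext.none)

def k0_pp_123 : ∃ t, chk3 f_pp_123 t 1 1 1 = true :=
  ⟨(l 4), by decide +kernel⟩

theorem c_pp_123 : CertFX 536870912 469762048 1073741824 536870912 1046898278 26843546 true true true .npn 1 2 3
    ndF6q1 ndF6q2 pcF3 Cut.none Ext.none :=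
  certFX0 (fam := true) (s1 := true) (s2 := true) (a := 1) (b := 2) (c := 3) (cn := .npn) (n1 := ndF6q1) (n2 := ndF6q2) (pc := pcF3) (cut := Cut.none) (xt := Ext.none) (P1 := 536870912) (W1 := 469762048) (P2 := 1073741824) (W2 := 536870912) (P3 := 1046898278) (W3 := 26843546)
    rfl k0_pp_123

noncomputable def f_pp_133 : ℕ → ℕ → ℕ → ℕ → Bool := onCell 536870912 469762048 0 1230186008 1046898278 26843546
    (rowFX 0 true true true .dn 1 3 3 (qsf 536870912 469762048 0 1230186008 3) ndF6q1 ndF6q3 pcF3 Cut.none Ext.none)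

def k0_pp_133 : ∃ t, chk3 f_pp_133 t 1 1 1 = true :=
  ⟨(l 4), by decide +kernel⟩

theorem c_pp_133 : CertFX 536870912 469762048 0 1230186008 1046898278 26843546 true true true .dn 1 3 3
    ndF6q1 ndF6q3 pcF3 Cut.none Ext.none :=
  certFX0 (fam := true) (s1 := true) (s2 := true) (a := 1) (b := 3) (c := 3) (cn := .dn) (n1 := ndF6q1) (n2 := ndF6q3) (pc := pcF3) (cut := Cut.none) (xt := Ext.none) (P1 := 536870912) (W1 := 469762048) (P2 := 0) (W2 := 1230186008) (P3 := 1046898278) (W3 := 26843546)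
    rfl k0_pp_133

noncomputable def f_pp_202 : ℕ → ℕ → ℕ → ℕ → Bool := onCell 1073741824 536870912 0 536870912 1046898278 26843546
    (rowFX 0 true true true .pp 2 0 2 (qsf 1073741824 536870912 0 536870912 2) ndF6q2 ndF6q0 pcF2 Cut.none Ext.none)

def k0_pp_202 : ∃ t, chk3 f_pp_202 t 1 1 1 = true :=
  ⟨(l 4), by decide +kernel⟩

theorem c_pp_202 : CertFX 1073741824 536870912 0 536870912 1046898278 26843546 true true true .pp 2 0 2
    ndF6q2 ndF6q0 pcF2 Cut.none Ext.none :=
  certFX0 (fam := true) (s1 := true) (s2 := true) (a := 2) (b := 0) (c := 2) (cn := .pp) (n1 := ndF6q2) (n2 := ndF6q0) (pc := pcF2) (cut := Cut.none) (xt := Ext.none) (P1 := 1073741824) (W1 := 536870912) (P2 := 0) (W2 := 536870912) (P3 := 1046898278) (W3 := 26843546)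
    rfl k0_pp_202

noncomputable def f_pp_203 : ℕ → ℕ → ℕ → ℕ → Bool := onCell 1073741824 536870912 0 536870912 1046898278 26843546
    (rowFX 0 true true true .up 2 0 3 (qsf 1073741824 536870912 0 536870912 3) ndF6q2 ndF6q0 pcF3 Cut.none Ext.none)

def k0_pp_203 : ∃ t, chk3 f_pp_203 t 1 1 1 = true :=
  ⟨(l 4), by decide +kernel⟩

theorem c_pp_203 : CertFX 1073741824 536870912 0 536870912 1046898278 26843546 true true true .up 2 0 3
    ndF6q2 ndF6q0 pcF3 Cut.none Ext.none :=
  certFX0 (fam := true) (s1 := true) (s2 := true) (a := 2) (b := 0) (c := 3) (cn := .up) (n1 := ndF6q2) (n2 := ndF6q0) (pc := pcF3) (cut := Cut.none) (xt := Ext.none) (P1 := 1073741824) (W1 := 536870912) (P2 := 0) (W2 := 536870912) (P3 := 1046898278) (W3 := 26843546)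
    rfl k0_pp_203

noncomputable def f_pp_213 : ℕ → ℕ → ℕ → ℕ → Bool := onCell 1073741824 536870912 536870912 469762048 1046898278 26843546
    (rowFX 0 true true true .pnn 2 1 3 (qsf 1073741824 536870912 536870912 469762048 3) ndF6q2 ndF6q1 pcF3 Cut.none Ext.none)

def k0_pp_213 : ∃ t, chk3 f_pp_213 t 1 1 1 = true :=
  ⟨(l 4), by decide +kernel⟩

theorem c_pp_213 : CertFX 1073741824 536870912 536870912 469762048 1046898278 26843546 true true true .pnn 2 1 3
    ndF6q2 ndF6q1 pcF3 Cut.none Ext.none :=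
  certFX0 (fam := true) (s1 := true) (s2 := true) (a := 2) (b := 1) (c := 3) (cn := .pnn) (n1 := ndF6q2) (n2 := ndF6q1) (pc := pcF3) (cut := Cut.none) (xt := Ext.none) (P1 := 1073741824) (W1 := 536870912) (P2 := 536870912) (W2 := 469762048) (P3 := 1046898278) (W3 := 26843546)
    rfl k0_pp_213

noncomputable def f_pp_303 : ℕ → ℕ → ℕ → ℕ → Bool := onCell 0 1230186008 0 536870912 1046898278 26843546
    (rowFX 0 true true true .npn 3 0 3 (qsf 0 1230186008 0 536870912 3) ndF6q3 ndF6q0 pcF3 Cut.none Ext.none)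

def k0_pp_303 : ∃ t, chk3 f_pp_303 t 1 1 1 = true :=
  ⟨(l 4), by decide +kernel⟩

theorem c_pp_303 : CertFX 0 1230186008 0 536870912 1046898278 26843546 true true true .npn 3 0 3
    ndF6q3 ndF6q0 pcF3 Cut.none Ext.none :=
  certFX0 (fam := true) (s1 := true) (s2 := true) (a := 3) (b := 0) (c := 3) (cn := .npn) (n1 := ndF6q3) (n2 := ndF6q0) (pc := pcF3) (cut := Cut.none) (xt := Ext.none) (P1 := 0) (W1 := 1230186008) (P2 := 0) (W2 := 536870912) (P3 := 1046898278) (W3 := 26843546)
    rfl k0_pp_303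

noncomputable def f_pp_313 : ℕ → ℕ → ℕ → ℕ → Bool := onCell 0 1230186008 536870912 469762048 1046898278 26843546
    (rowFX 0 true true true .dn 3 1 3 (qsf 0 1230186008 536870912 469762048 3) ndF6q3 ndF6q1 pcF3 Cut.none Ext.none)

def k0_pp_313 : ∃ t, chk3 f_pp_313 t 1 1 1 = true :=
  ⟨(l 4), by decide +kernel⟩

theorem c_pp_313 : CertFX 0 1230186008 536870912 469762048 1046898278 26843546 true true true .dn 3 1 3
    ndF6q3 ndF6q1 pcF3 Cut.none Ext.none :=
  certFX0 (fam := true) (s1 := true) (s2 := true) (a := 3) (b := 1) (c := 3) (cn := .dn) (n1 := ndF6q3) (n2 := ndF6q1) (pc := pcF3) (cut := Cut.none) (xt := Ext.none) (P1 := 0) (W1 := 1230186008) (P2 := 536870912) (W2 := 469762048) (P3 := 1046898278) (W3 := 26843546)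
    rfl k0_pp_313

noncomputable def f_pm_001 : ℕ → ℕ → ℕ → ℕ → Bool := onCell 0 536870912 0 536870912 1046898278 26843546
    (rowFX 0 true true false .up 0 0 1 (qsf 0 536870912 0 536870912 1) ndF6q0 ndF6q0 pcF1 Cut.none Ext.none)

def k0_pm_001 : ∃ t, chk3 f_pm_001 t 1 1 1 = true :=
  ⟨(l 3), by decide +kernel⟩

theorem c_pm_001 : CertFX 0 536870912 0 536870912 1046898278 26843546 true true false .up 0 0 1
    ndF6q0 ndF6q0 pcF1 Cut.none Ext.none :=
  certFX0 (fam := true) (s1 := true) (s2 := false) (a := 0) (b := 0) (c := 1) (cn := .up) (n1 := ndF6q0) (n2 := ndF6q0) (pc := pcF1) (cut := Cut.none) (xt := Ext.none) (P1 := 0) (W1 := 536870912) (P2 := 0) (W2 := 536870912) (P3 := 1046898278) (W3 := 26843546)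
    rfl k0_pm_001

noncomputable def f_pm_011 : ℕ → ℕ → ℕ → ℕ → Bool := onCell 0 536870912 536870912 536870912 1046898278 26843546
    (rowFX 1 true true false .pnn 0 1 1 (qsf 0 536870912 536870912 469762048 1) ndF6q0 ndF6q1 pcF1 Cut.none Ext.none)

def k0_pm_011 : ∃ t, chk3 f_pm_011 t 1 1 1 = true :=
  ⟨(l 3), by decide +kernel⟩

theorem c_pm_011 : CertFX 0 536870912 536870912 469762048 1046898278 26843546 true true false .pnn 0 1 1
    ndF6q0 ndF6q1 pcF1 Cut.none Ext.none :=
  certFX1 (fam := true) (s1 := true) (s2 := false) (a := 0) (b := 1) (c := 1) (cn := .pnn) (n1 := ndF6q0) (n2 := ndF6q1) (pc := pcF1) (cut := Cut.none) (xt := Ext.none) (P1 := 0) (W1 := 536870912) (P2 := 536870912) (W2 := 469762048) (P3 := 1046898278) (W3 := 26843546)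
    rfl (fun _ => rfl) k0_pm_011

noncomputable def f_pm_012 : ℕ → ℕ → ℕ → ℕ → Bool := onCell 1073741824 536870912 536870912 469762048 1046898278 26843546
    (rowFX 2 true true false .pnp 0 1 2 (qsf 0 536870912 536870912 469762048 2) ndF6q0 ndF6q1 pcF2 Cut.none Ext.none)

def k0_pm_012 : ∃ t, chk3 f_pm_012 t 1 1 1 = true :=
  ⟨(a (a (l 3) (a (a (a (l 3) (a (l 3) (a (l 3) (a (b (l 3) (l 3)) (b (l 16777216) (b (b (l 16777216) (b (l 16649800) (l 16203696))) (b (b (l 15723360) (l 15417160)) (c (b (l 15201816) (l 14795208)) (b (l 15162240) (l 14765224)))))))))) (b (l 16777216) (b (b (l 16777216) (l 16430144)) (b (l 15572176) (b (l 15182144) (l 14779112)))))) (b (l 16777216) (b (l 16399464) (b (l 15572176) (b (l 15182144) (l 14779080))))))) (b (l 2) (b (b (l 16777216) (l 16430144)) (b (l 15572176) (b (l 15182144) (l 14779080)))))), by decide +kernel⟩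

theorem c_pm_012 : CertFX 0 536870912 536870912 469762048 1046898278 26843546 true true false .pnp 0 1 2
    ndF6q0 ndF6q1 pcF2 Cut.none Ext.none :=
  certFX2 (fam := true) (s1 := true) (s2 := false) (a := 0) (b := 1) (c := 2) (cn := .pnp) (n1 := ndF6q0) (n2 := ndF6q1) (pc := pcF2) (cut := Cut.none) (xt := Ext.none) (P1 := 0) (W1 := 536870912) (P2 := 536870912) (W2 := 469762048) (P3 := 1046898278) (W3 := 26843546)
    rfl (fun _ => rfl) k0_pm_012

end Pool.Agent.Strip051.G.IE1.Tab.C.FA66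

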