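import Pool.Agent.Strip051.G.IE1.Tab

/-! # Certificates F22 (generated) -/

set_option linter.all false
set_option maxRecDepth 100000

namespace Pool.Agent.Strip051.G.IE1.Tab.C.FA66

open Pool.Agent.Strip051.PB Pool.Agent.Strip051.PB.T
open Pool.Agent.Strip051.G.IE1.Tab

noncomputable def f_pm_022 : ℕ → ℕ → ℕ → ℕ → Bool := onCell 0 536870912 1073741824 536870912 1046898278 26843546
    (rowFX 1 true true false .pp 0 2 2 (qsf 0 536870912 1073741824 536870912 2) ndF6q0 ndF6q2 pcF2 Cut.none Ext.none)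

def k0_pm_022 : ∃ t, chk3 f_pm_022 t 2 8 1 = true :=
  ⟨(a (l 3) (l 1)), by decide +kernel⟩

def k1_pm_022 : ∃ t, chk3 f_pm_022 t 8 36 1 = true :=
  ⟨(b (a (l 3) (l 3)) (a (a (a (b (l 3) (c (c (l 16150248) (l 330341911847)) (c (a (l 16136168) (c (l 16115760) (l 16115768))) (a (c (a (l 16132616) (l 16122664)) (c (l 16061240) (l 16121232))) (c (l 16112520) (l 16103240)))))) (c (a (b (l 3) (c (l 16085000) (l 16106504))) (c (l 16077688) (l 345374190135))) (c (a (c (l 16092352) (l 16085632)) (l 16070104)) (l 16057128)))) (c (c (a (a (l 16081504) (l 270749105079)) (l 16049040)) (a (c (l 323362421735) (l 16057016)) (l 16012960))) (c (b (l 15993960) (l 16028160)) (l 15993816)))) (c (a (c (l 15967344) (l 388323470311)) (c (c (l 15862912) (l 15851328)) (l 15838888))) (a (c (l 15918112) (l 15907976)) (c (l 15827048) (l 15815264)))))), by decide +kernel⟩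

def k2_pm_022 : ∃ t, chk3 f_pm_022 t 8 37 1 = true :=
  ⟨(a (c (a (b (a (c (l 16182336) (a (l 16179128) (c (l 16166344) (l 16161048)))) (c (a (a (l 16155712) (l 16144544)) (l 16141368)) (a (l 16152192) (l 16150560)))) (a (b (c (l 16188584) (a (l 16170416) (l 16138864))) (l 16139504)) (c (a (b (a (l 16190240) (l 16182000)) (l 16161496)) (b (l 16176816) (l 16171464))) (a (b (l 16187528) (l 16162544)) (b (l 16186280) (l 16180720)))))) (b (c (a (a (l 16142952) (l 16138376)) (l 16108320)) (a (c (l 16132808) (l 16118928)) (l 16073576))) (a (b (c (l 16172136) (l 16158968)) (a (l 16170592) (l 16155912))) (l 16121728)))) (a (c (b (a (a (l 16164824) (c (l 16117776) (a (l 16161392) (l 16162728)))) (a (l 16110944) (l 16135408))) (a (a (b (l 16156128) (l 16111712)) (b (c (l 16176456) (l 16176784)) (l 16133512))) (b (a (l 16167648) (l 16171744)) (l 16160216)))) (b (a (a (c (a (l 16158048) (l 16159648)) (a (c (l 16154184) (l 16151640)) (l 16156384))) (c (l 16157032) (l 16148136)))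 (l 16123888)) (c (a (a (b (l 16148424) (l 16103600)) (l 16069496)) (l 16152112)) (a (a (b (a (l 16137048) (l 16150728)) (l 16098232)) (l 16144584)) (l 16145392))))) (b (c (b (l 16059504) (l 16089656)) (l 16056648)) (c (b (l 16105936) (l 16104568)) (l 16090960))))) (c (b (c (a (l 16025992) (b (l 15906472) (l 15932664))) (a (b (l 15984560) (l 16013576)) (l 15898888))) (a (l 16037720) (l 15908304))) (b (c (b (l 15922968) (l 15950416)) (b (l 15912480) (l 15940304))) (c (l 15957856) (l 15947864))))), by decide +kernel⟩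

def k3_pm_022 : ∃ t, chk3 f_pm_022 t 9 18 1 = true :=
  ⟨(a (b (b (a (b (l 3) (c (l 15699208) (l 15671744))) (l 1)) (c (c (l 15688152) (l 15695376)) (c (l 15681632) (l 15646912)))) (b (a (c (b (l 15798912) (l 15821320)) (b (l 15774296) (l 15797344))) (b (c (l 15701824) (l 15674368)) (l 15705456))) (c (l 15776512) (l 15751376)))) (b (l 1) (b (l 1) (c (l 15586112) (l 15555416))))), by decide +kernel⟩

def k4_pm_022 : ∃ t, chk3 f_pm_022 t 5 18 1 = true :=
  ⟨(l 1), by decide +kernel⟩

def k5_pm_022 : ∃ t, chk3 f_pm_022 t 2 19 1 = true :=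
  ⟨(a (a (b (a (a (c (a (b (c (l 16072896) (l 16058064)) (l 15960040)) (b (c (a (l 16090256) (l 16119616)) (a (l 16090256) (l 16127968))) (c (l 16003168) (l 15875664)))) (a (c (b (a (l 16036752) (c (l 16057864) (l 16057344))) (a (l 15929008) (l 15950672))) (a (b (c (l 16027960) (l 15938248)) (c (l 15919232) (l 15912744))) (b (l 16050320) (l 15941472)))) (c (b (l 16036360) (l 15993280)) (b (l 16080632) (l 15973488))))) (c (b (a (c (a (l 16149488) (l 16158240)) (l 16135800)) (l 16113104)) (a (c (l 16077112) (l 16063008)) (l 16085280))) (b (c (l 16087888) (l 16073168)) (l 16027544)))) (c (b (a (l 16030680) (l 15924240)) (a (l 16019200) (l 15917112))) (b (c (l 15951944) (l 15941888)) (l 15937808)))) (a (a (c (a (b (l 15884072) (l 15837808)) (c (a (l 15885008) (l 15916304)) (a (l 15881944) (l 15921240)))) (a (c (a (l 15824240) (b (l 15873552) (l 15826592))) (a (c (l 15813536) (l 15785464)) (l 15835944))) (c (l 15889672) (l 15868896)))) (c (b (a (l 15993192) (l 16043432)) (a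 (l 15946432) (l 15995544))) (b (l 15973624) (l 15924640)))) (c (a (b (l 16027680) (l 16027496)) (b (l 15938792) (l 15977096))) (b (l 15952608) (a (l 15991736) (l 15953216)))))) (b (a (c (b (l 15774208) (l 15772792)) (b (l 15749024) (l 15747592))) (b (c (l 15587072) (l 15556408)) (l 15576920))) (a (c (b (l 15800480) (l 15838616)) (b (l 15776072) (l 15815296))) (b (l 15611856) (l 15649296))))) (b (l 1) (a (b (l 1) (l 635148605319)) (l 1)))), by decide +kernel⟩

def k6_pm_022 : ∃ t, chk3 f_pm_022 t 3 4 1 = true :=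
  ⟨(l 1), by decide +kernel⟩

def k7_pm_022 : ∃ t, chk3 f_pm_022 t 4 10 1 = true :=
  ⟨(b (a (b (a (a (c (a (b (l 15783736) (l 15649576)) (b (c (l 15779400) (l 15712024)) (c (l 15684672) (l 15678256)))) (a (b (c (a (l 15751672) (l 15770056)) (a (c (l 15740360) (l 15732856)) (l 15758560))) (c (l 15624784) (a (l 15599256) (l 15618336)))) (b (c (l 15806272) (l 15784768)) (l 15656776)))) (c (b (a (l 15812352) (l 15916112)) (l 15648400)) (b (l 15850024) (l 15707016)))) (a (c (l 15805640) (l 15850688)) (c (b (l 15959416) (l 15869400)) (l 15879808)))) (a (a (b (c (a (l 15557896) (a (l 15509784) (l 15531000))) (a (c (a (l 15545224) (l 15495904)) (a (l 15527920) (l 15480856))) (l 15492984))) (b (c (a (l 15545248) (a (l 15412168) (l 15395312))) (a (c (l 15518592) (l 15500728)) (l 15379480))) (c (a (b (l 15555264) (l 15565040)) (b (a (l 15403800) (l 15337088)) (a (l 15415040) (l 15326272)))) (a (b (c (l 15528848) (l 15511144)) (c (l 15538856) (l 15458392))) (b (l 15341832) (l 15339720))))))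 (b (c (l 15570872) (l 15541784)) (b (c (l 15454992) (l 15401640)) (c (b (l 15381176) (l 15335872)) (b (l 15326040) (l 15279648)))))) (b (c (l 15694296) (l 15655712)) (b (c (l 15557480) (l 15515440)) (b (l 15464560) (c (l 15440416) (l 15395416))))))) (b (a (c (l 15794960) (l 15770440)) (l 15600088)) (b (a (a (l 15721344) (l 15637080)) (l 15508048)) (b (a (l 15576064) (l 15441056)) (a (b (l 15550872) (a (l 15535344) (l 15508928))) (b (l 15406352) (l 15386656))))))) (a (a (a (c (a (l 15901000) (a (l 15801968) (l 15714240))) (a (b (c (l 15748032) (l 15733328)) (a (l 16182640) (l 16091128))) (l 15590720))) (c (b (a (l 15439824) (l 15359168)) (l 15722224)) (b (l 15362456) (l 15677856)))) (a (b (l 15333856) (l 15334680)) (l 15383208))) (a (a (l 15464464) (l 15517848)) (l 15489512)))), by decide +kernel⟩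

def k8_pm_022 : ∃ t, chk3 f_pm_022 t 4 11 1 = true :=
  ⟨(a (a (b (a (c (a (l 16481560) (l 16323440)) (a (c (l 16483560) (l 16422088)) (l 16428272))) (c (b (l 16133984) (l 16543184)) (l 16208368))) (a (c (a (l 15993576) (l 16053288)) (a (l 15853696) (l 16054376))) (c (l 16232640) (l 16247344)))) (b (a (b (l 15748096) (l 16184200)) (b (l 15466096) (l 15813112))) (a (l 16541552) (l 16335048)))) (b (a (a (l 15327128) (l 15491560)) (l 15608952)) (a (a (l 15996448) (l 15692376)) (l 15563424)))), by decide +kernel⟩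

def k9_pm_022 : ∃ t, chk3 f_pm_022 t 5 5 1 = true :=
  ⟨(a (b (b (b (b (l 15386616) (l 15344128)) (b (l 15279336) (b (l 15217128) (b (l 15185888) (l 15168424))))) (l 15299536)) (b (l 15587216) (l 15677160))) (b (b (l 1) (l 15018400)) (b (l 15333352) (l 15547664)))), by decide +kernel⟩

def k10_pm_022 : ∃ t, chk3 f_pm_022 t 3 5 1 = true :=
  ⟨(b (l 1) (b (l 1) (l 548711913383))), by decide +kernel⟩

def k11_pm_022 : ∃ t, chk3 f_pm_022 t 1 3 1 = true :=
  ⟨(a (a (b (a (a (c (b (a (l 15991496) (l 16046160)) (a (l 15991496) (l 16046008))) (b (a (a (l 15961000) (l 15991144)) (l 16054528)) (a (l 15978248) (l 16054376)))) (b (b (l 16240568) (l 16172592)) (b (l 16172408) (l 16172408)))) (b (b (a (l 16365384) (l 15732232)) (a (b (l 16495216) (l 16376120)) (l 16095104))) (b (a (l 16334192) (l 16571912)) (l 16396864)))) (a (a (c (a (l 15991496) (l 16046008)) (l 16014280)) (l 16172408)) (l 16375792))) (b (b (a (b (a (l 15493896) (l 15610728)) (b (l 15488016) (a (l 15821064) (l 15386128))))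 (l 15342104)) (a (b (a (l 16289360) (l 15610208)) (a (l 16653808) (l 16237304))) (b (b (l 15467992) (l 15500840)) (a (l 15599120) (l 15340416))))) (b (a (l 16645264) (b (a (l 16190624) (l 15572936)) (l 16391560))) (a (l 16604624) (l 16713728))))) (b (b (l 481603273223) (a (b (l 84319313143) (l 15350584)) (b (l 1) (l 15316392)))) (a (b (a (b (l 15497816) (l 15518000)) (l 15533936)) (a (b (l 15886192) (l 16381416)) (b (l 15497816) (l 15518000)))) (b (l 15424320) (l 15496728))))), by decide +kernel⟩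

theorem s12_pm_022 : ∃ t, chk3 f_pm_022 t 4 5 1 = true := ex3_b k7_pm_022 k8_pm_022

theorem s13_pm_022 : ∃ t, chk3 f_pm_022 t 2 5 1 = true := ex3_a s12_pm_022 k9_pm_022

theorem s14_pm_022 : ∃ t, chk3 f_pm_022 t 1 5 1 = true := ex3_a s13_pm_022 k10_pm_022

theorem s15_pm_022 : ∃ t, chk3 f_pm_022 t 8 18 1 = true := ex3_b k1_pm_022 k2_pm_022

theorem s16_pm_022 : ∃ t, chk3 f_pm_022 t 4 18 1 = true := ex3_a s15_pm_022 k3_pm_022

theorem s17_pm_022 : ∃ t, chk3 f_pm_022 t 2 18 1 = true := ex3_a s16_pm_022 k4_pm_022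

theorem s18_pm_022 : ∃ t, chk3 f_pm_022 t 2 9 1 = true := ex3_b s17_pm_022 k5_pm_022

theorem s19_pm_022 : ∃ t, chk3 f_pm_022 t 2 4 1 = true := ex3_b k0_pm_022 s18_pm_022

theorem s20_pm_022 : ∃ t, chk3 f_pm_022 t 1 4 1 = true := ex3_a s19_pm_022 k6_pm_022

theorem s21_pm_022 : ∃ t, chk3 f_pm_022 t 1 2 1 = true := ex3_b s20_pm_022 s14_pm_022

theorem s22_pm_022 : ∃ t, chk3 f_pm_022 t 1 1 1 = true := ex3_b s21_pm_022 k11_pm_022

theorem c_pm_022 : CertFX 0 536870912 1073741824 536870912 1046898278 26843546 true true false .pp 0 2 2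
    ndF6q0 ndF6q2 pcF2 Cut.none Ext.none :=
  certFX1 (fam := true) (s1 := true) (s2 := false) (a := 0) (b := 2) (c := 2) (cn := .pp) (n1 := ndF6q0) (n2 := ndF6q2) (pc := pcF2) (cut := Cut.none) (xt := Ext.none) (P1 := 0) (W1 := 536870912) (P2 := 1073741824) (W2 := 536870912) (P3 := 1046898278) (W3 := 26843546)
    rfl (fun _ => rfl) s22_pm_022

noncomputable def f_pm_023 : ℕ → ℕ → ℕ → ℕ → Bool := onCell 1610612736 536870912 1073741824 536870912 1046898278 26843546
    (rowFX 2 true true false .up 0 2 3 (qsf 0 536870912 1073741824 536870912 3) ndF6q0 ndF6q2 pcF3 Cut.none Ext.none)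

def k0_pm_023 : ∃ t, chk3 f_pm_023 t 1 1 1 = true :=
  ⟨(b (a (b (a (l 15533936) (l 15533936)) (a (b (l 15572896) (l 16626968)) (b (l 15572896) (l 16626968)))) (a (b (l 2) (a (l 572939966327) (l 2))) (l 2))) (a (a (b (l 16714184) (a (b (l 16491960) (a (b (l 16251760) (l 16107864)) (l 16317736))) (l 16563528))) (a (l 16723280) (l 16773560))) (a (a (l 16777208) (l 16777184)) (a (a (l 16776928) (l 4)) (l 4))))), by decide +kernel⟩

theorem c_pm_023 : CertFX 0 536870912 1073741824 536870912 1046898278 26843546 true true false .up 0 2 3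
    ndF6q0 ndF6q2 pcF3 Cut.none Ext.none :=
  certFX2 (fam := true) (s1 := true) (s2 := false) (a := 0) (b := 2) (c := 3) (cn := .up) (n1 := ndF6q0) (n2 := ndF6q2) (pc := pcF3) (cut := Cut.none) (xt := Ext.none) (P1 := 0) (W1 := 536870912) (P2 := 1073741824) (W2 := 536870912) (P3 := 1046898278) (W3 := 26843546)
    rfl (fun _ => rfl) k0_pm_023

noncomputable def f_pm_033 : ℕ → ℕ → ℕ → ℕ → Bool := onCell 0 536870912 0 1230186008 1046898278 26843546
    (rowFX 0 true true false .pnn 0 3 3 (qsf 0 536870912 0 1230186008 3) ndF6q0 ndF6q3 pcF3 Cut.none Ext.none)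

def k0_pm_033 : ∃ t, chk3 f_pm_033 t 1 1 1 = true :=
  ⟨(b (l 4) (b (a (a (b (l 4) (b (l 4) (a (a (c (l 16023384) (l 16014280)) (l 4)) (l 4)))) (l 4)) (l 4)) (a (b (b (a (a (a (c (l 16023392) (l 16014280)) (c (l 16174752) (l 16173648))) (c (l 16400680) (l 124787916183))) (l 4)) (a (a (a (c (l 16023392) (l 16014280)) (l 16172408)) (c (l 16400696) (l 16390912))) (a (c (l 16606816) (l 16602392)) (l 4)))) (a (a (b (a (l 16017960) (l 16172408)) (a (l 16017960) (l 16172408))) (b (a (l 16334024) (l 16465104)) (l 16396768))) (c (b (a (l 16606832) (l 16756000)) (a (l 16606832) (l 16756024))) (b (a (l 16602408) (l 16755448)) (a (l 16602408) (b (l 16755464) (l 16755472))))))) (b (l 4) (a (b (l 4) (a (c (l 16777200) (l 16777192)) (b (l 4) (a (l 16777184) (l 4))))) (l 4)))))), by decide +kernel⟩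

theorem c_pm_033 : CertFX 0 536870912 0 1230186008 1046898278 26843546 true true false .pnn 0 3 3
    ndF6q0 ndF6q3 pcF3 Cut.none Ext.none :=
  certFX0 (fam := true) (s1 := true) (s2 := false) (a := 0) (b := 3) (c := 3) (cn := .pnn) (n1 := ndF6q0) (n2 := ndF6q3) (pc := pcF3) (cut := Cut.none) (xt := Ext.none) (P1 := 0) (W1 := 536870912) (P2 := 0) (W2 := 1230186008) (P3 := 1046898278) (W3 := 26843546)
    rfl k0_pm_033

noncomputable def f_pm_101 : ℕ → ℕ → ℕ → ℕ → Bool := onCell 536870912 536870912 0 536870912 1046898278 26843546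
    (rowFX 2 true true false .npn 1 0 1 (qsf 536870912 469762048 0 536870912 1) ndF6q1 ndF6q0 pcF1 Cut.none Ext.none)

def k0_pm_101 : ∃ t, chk3 f_pm_101 t 1 1 1 = true :=
  ⟨(l 3), by decide +kernel⟩

theorem c_pm_101 : CertFX 536870912 469762048 0 536870912 1046898278 26843546 true true false .npn 1 0 1
    ndF6q1 ndF6q0 pcF1 Cut.none Ext.none :=
  certFX2 (fam := true) (s1 := true) (s2 := false) (a := 1) (b := 0) (c := 1) (cn := .npn) (n1 := ndF6q1) (n2 := ndF6q0) (pc := pcF1) (cut := Cut.none) (xt := Ext.none) (P1 := 536870912) (W1 := 469762048) (P2 := 0) (W2 := 536870912) (P3 := 1046898278) (W3 := 26843546)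
    rfl (fun _ => rfl) k0_pm_101

noncomputable def f_pm_102 : ℕ → ℕ → ℕ → ℕ → Bool := onCell 536870912 469762048 1073741824 536870912 1046898278 26843546
    (rowFX 1 true true false .npp 1 0 2 (qsf 536870912 469762048 0 536870912 2) ndF6q1 ndF6q0 pcF2 Cut.none Ext.none)

def k0_pm_102 : ∃ t, chk3 f_pm_102 t 1 1 1 = true :=
  ⟨(b (b (l 3) (b (b (b (l 3) (b (l 3) (b (l 3) (b (a (l 3) (l 3)) (a (l 16777216) (a (a (l 16777216) (a (l 16649800) (l 16203696))) (a (a (l 15723360) (l 15417160)) (c (a (l 15201816) (l 14795208)) (a (l 15162240) (l 14765224)))))))))) (a (l 16777216) (a (a (l 16777216) (l 16430144)) (a (l 15572176) (a (l 15182144) (l 14779112)))))) (a (l 16777216) (a (l 16399464) (a (l 15572176) (a (l 15182144) (l 14779080))))))) (a (l 2) (a (a (l 16777216) (l 16430144)) (a (l 15572176) (a (l 15182144) (l 14779080)))))), by decide +kernel⟩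

theorem c_pm_102 : CertFX 536870912 469762048 0 536870912 1046898278 26843546 true true false .npp 1 0 2
    ndF6q1 ndF6q0 pcF2 Cut.none Ext.none :=
  certFX1 (fam := true) (s1 := true) (s2 := false) (a := 1) (b := 0) (c := 2) (cn := .npp) (n1 := ndF6q1) (n2 := ndF6q0) (pc := pcF2) (cut := Cut.none) (xt := Ext.none) (P1 := 536870912) (W1 := 469762048) (P2 := 0) (W2 := 536870912) (P3 := 1046898278) (W3 := 26843546)
    rfl (fun _ => rfl) k0_pm_102

noncomputable def f_pm_112 : ℕ → ℕ → ℕ → ℕ → Bool := onCell 536870912 469762048 1073741824 536870912 1046898278 26843546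
    (rowFX 1 true true false .dn 1 1 2 (qsf 536870912 469762048 536870912 469762048 2) ndF6q1 ndF6q1 pcF2 Cut.none Ext.none)

def k0_pm_112 : ∃ t, chk3 f_pm_112 t 1 1 1 = true :=
  ⟨(b (b (l 3) (a (b (b (b (l 3) (b (l 3) (b (l 3) (b (l 3) (l 16777216))))) (l 16777216)) (l 16777216)) (b (l 1) (a (l 578779558183) (l 1))))) (a (b (a (b (l 16731240) (a (l 16119104) (l 16668720))) (l 16777216)) (a (b (a (c (l 15122272) (l 15316448)) (l 16038568)) (a (b (l 14738152) (l 14318600)) (b (l 15412728) (l 15016848)))) (b (l 16674368) (l 16170032)))) (a (a (l 16777184) (l 16430144)) (a (l 15572176) (l 593808630359))))), by decide +kernel⟩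

theorem c_pm_112 : CertFX 536870912 469762048 536870912 469762048 1046898278 26843546 true true false .dn 1 1 2
    ndF6q1 ndF6q1 pcF2 Cut.none Ext.none :=
  certFX1 (fam := true) (s1 := true) (s2 := false) (a := 1) (b := 1) (c := 2) (cn := .dn) (n1 := ndF6q1) (n2 := ndF6q1) (pc := pcF2) (cut := Cut.none) (xt := Ext.none) (P1 := 536870912) (W1 := 469762048) (P2 := 536870912) (W2 := 469762048) (P3 := 1046898278) (W3 := 26843546)
    rfl (fun _ => rfl) k0_pm_112

noncomputable def f_pm_113 : ℕ → ℕ → ℕ → ℕ → Bool := onCell 536870912 469762048 536870912 469762048 1046898278 26843546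
    (rowFX 0 true true false .nn 1 1 3 (qsf 536870912 469762048 536870912 469762048 3) ndF6q1 ndF6q1 pcF3 Cut.none Ext.none)

def k0_pm_113 : ∃ t, chk3 f_pm_113 t 1 1 1 = true :=
  ⟨(b (a (l 1) (a (l 16609176) (a (l 15572176) (l 14910552)))) (a (b (l 16609176) (b (l 15572176) (l 14910552))) (b (a (l 16444816) (a (l 15412992) (l 14795480))) (a (b (l 15412992) (l 14795480)) (c (b (l 14220600) (l 13696376)) (l 13777632)))))), by decide +kernel⟩

theorem c_pm_113 : CertFX 536870912 469762048 536870912 469762048 1046898278 26843546 true true false .nn 1 1 3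
    ndF6q1 ndF6q1 pcF3 Cut.none Ext.none :=
  certFX0 (fam := true) (s1 := true) (s2 := false) (a := 1) (b := 1) (c := 3) (cn := .nn) (n1 := ndF6q1) (n2 := ndF6q1) (pc := pcF3) (cut := Cut.none) (xt := Ext.none) (P1 := 536870912) (W1 := 469762048) (P2 := 536870912) (W2 := 469762048) (P3 := 1046898278) (W3 := 26843546)
    rfl k0_pm_113

noncomputable def f_pm_123 : ℕ → ℕ → ℕ → ℕ → Bool := onCell 1610612736 536870912 1073741824 536870912 1046898278 26843546
    (rowFX 2 true true false .npn 1 2 3 (qsf 536870912 469762048 1073741824 536870912 3) ndF6q1 ndF6q2 pcF3 Cut.none Ext.none)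

def k0_pm_123 : ∃ t, chk3 f_pm_123 t 1 1 1 = true :=
  ⟨(a (b (b (a (l 15533936) (l 15533936)) (a (b (l 15572896) (l 1)) (b (l 15572896) (l 16626968)))) (a (l 1) (a (l 1) (l 16777216)))) (a (b (b (a (l 15513856) (b (a (l 15351104) (l 15152920)) (l 15500712))) (a (b (l 15572912) (l 16626976)) (b (l 15572944) (l 16627000)))) (a (l 16777208) (l 16777184))) (a (b (b (b (a (l 15043584) (c (l 15218512) (l 14977112))) (a (l 15515464) (l 15645672))) (b (a (l 15573080) (l 15616320)) (a (l 16627040) (l 4)))) (a (l 16776928) (l 4))) (b (a (a (b (a (b (l 15219712) (l 4)) (l 4)) (l 4)) (l 4)) (l 4)) (l 4))))), by decide +kernel⟩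

theorem c_pm_123 : CertFX 536870912 469762048 1073741824 536870912 1046898278 26843546 true true false .npn 1 2 3
    ndF6q1 ndF6q2 pcF3 Cut.none Ext.none :=
  certFX2 (fam := true) (s1 := true) (s2 := false) (a := 1) (b := 2) (c := 3) (cn := .npn) (n1 := ndF6q1) (n2 := ndF6q2) (pc := pcF3) (cut := Cut.none) (xt := Ext.none) (P1 := 536870912) (W1 := 469762048) (P2 := 1073741824) (W2 := 536870912) (P3 := 1046898278) (W3 := 26843546)
    rfl (fun _ => rfl) k0_pm_123

noncomputable def f_pm_133 : ℕ → ℕ → ℕ → ℕ → Bool := onCell 536870912 469762048 0 1230186008 1046898278 26843546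
    (rowFX 0 true true false .dn 1 3 3 (qsf 536870912 469762048 0 1230186008 3) ndF6q1 ndF6q3 pcF3 Cut.none Ext.none)

def k0_pm_133 : ∃ t, chk3 f_pm_133 t 1 1 1 = true :=
  ⟨(b (l 2) (l 4)), by decide +kernel⟩

theorem c_pm_133 : CertFX 536870912 469762048 0 1230186008 1046898278 26843546 true true false .dn 1 3 3
    ndF6q1 ndF6q3 pcF3 Cut.none Ext.none :=
  certFX0 (fam := true) (s1 := true) (s2 := false) (a := 1) (b := 3) (c := 3) (cn := .dn) (n1 := ndF6q1) (n2 := ndF6q3) (pc := pcF3) (cut := Cut.none) (xt := Ext.none) (P1 := 536870912) (W1 := 469762048) (P2 := 0) (W2 := 1230186008) (P3 := 1046898278) (W3 := 26843546)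
    rfl k0_pm_133

noncomputable def f_pm_202 : ℕ → ℕ → ℕ → ℕ → Bool := onCell 1073741824 536870912 0 536870912 1046898278 26843546
    (rowFX 2 true true false .pp 2 0 2 (qsf 1073741824 536870912 0 536870912 2) ndF6q2 ndF6q0 pcF2 Cut.none Ext.none)

def k0_pm_202 : ∃ t, chk3 f_pm_202 t 8 2 1 = true :=
  ⟨(b (l 3) (l 1)), by decide +kernel⟩

def k1_pm_202 : ∃ t, chk3 f_pm_202 t 36 8 1 = true :=
  ⟨(a (b (l 3) (l 3)) (b (b (b (a (l 3) (c (c (l 16150248) (l 330341911847)) (c (b (l 16136168) (c (l 16115760) (l 16115768))) (b (c (b (l 16132616) (l 16122664)) (c (l 16061240) (l 16121232))) (c (l 16112520) (l 16103240)))))) (c (b (a (l 3) (c (l 16085000) (l 16106504))) (c (l 16077688) (l 345374190135))) (c (b (c (l 16092352) (l 16085632)) (l 16070104)) (l 16057128)))) (c (c (b (b (l 16081504) (l 270749104423)) (l 16049040)) (b (c (l 323362421735) (l 16057016)) (l 16012952))) (c (a (l 15993960) (l 16028160)) (l 15993816)))) (c (b (c (l 15967344) (l 388323470311)) (c (c (l 15862912)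 (l 15851328)) (l 15838888))) (b (c (l 15918112) (l 15907976)) (c (l 15827048) (l 15815264)))))), by decide +kernel⟩

def k2_pm_202 : ∃ t, chk3 f_pm_202 t 37 8 1 = true :=
  ⟨(b (c (b (a (b (c (l 16182336) (b (l 16179128) (c (l 16166344) (l 16161048)))) (c (b (b (l 16155712) (l 16144544)) (l 16141368)) (b (l 16152192) (l 16150560)))) (b (a (c (l 16188584) (b (l 16170416) (l 16138864))) (l 16139504)) (c (b (a (b (l 16190240) (l 16182000)) (l 16161496)) (a (l 16176816) (l 16171464))) (b (a (l 16187528) (l 16162544)) (a (l 16186280) (l 16180720)))))) (a (c (b (b (l 16142952) (l 16138376)) (l 16108320)) (b (c (l 16132808) (l 16118928)) (l 16073576))) (b (a (c (l 16172136) (l 16158968)) (b (l 16170592) (l 16155912))) (l 16121728)))) (b (c (a (b (b (l 16164824) (c (l 16117776) (b (l 16161392) (l 16162728)))) (b (l 16110944) (l 16135408))) (b (b (a (l 16156128) (l 16111712)) (a (c (l 16176456) (l 16176784)) (l 16133512))) (a (b (l 16167648) (l 16171744)) (l 16160216)))) (a (b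 (b (c (b (l 16158048) (l 16159648)) (b (c (l 16154184) (l 16151640)) (l 16156384))) (c (l 16157032) (l 16148136))) (l 16123888)) (c (b (b (a (l 16148424) (l 16103600)) (l 16069496)) (l 16152112)) (b (b (a (b (l 16137048) (l 16150728)) (l 16098232)) (l 16144584)) (l 16145392))))) (a (c (a (l 16059504) (l 16089656)) (l 16056648)) (c (a (l 16105936) (l 16104568)) (l 16090960))))) (c (a (c (b (l 16025992) (a (l 15906472) (l 15932664))) (b (a (l 15984560) (l 16013576)) (l 15898888))) (b (l 16037720) (l 15908304))) (a (c (a (l 15922968) (l 15950416)) (a (l 15912480) (l 15940304))) (c (l 15957856) (l 15947864))))), by decide +kernel⟩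

def k3_pm_202 : ∃ t, chk3 f_pm_202 t 18 9 1 = true :=
  ⟨(b (a (a (a (l 3) (b (c (l 15699208) (l 15671744)) (l 1))) (c (c (l 15688152) (l 15695376)) (c (l 15681632) (l 15667880)))) (a (a (c (b (l 15798912) (l 15701824)) (c (l 15730800) (l 15717744))) (b (c (l 15821320) (l 15797344)) (l 15705456))) (c (l 15776512) (l 15751376)))) (a (l 1) (a (l 1) (c (l 15586112) (l 15555416))))), by decide +kernel⟩

def k4_pm_202 : ∃ t, chk3 f_pm_202 t 18 5 1 = true :=
  ⟨(l 1), by decide +kernel⟩

def k5_pm_202 : ∃ t, chk3 f_pm_202 t 19 2 1 = true :=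
  ⟨(b (b (a (b (b (c (b (a (c (l 16072896) (l 16058064)) (l 15960040)) (a (c (b (l 16090256) (l 16119616)) (b (l 16090256) (l 16127968))) (c (l 16003168) (l 15875664)))) (b (c (a (b (l 16036752) (c (l 16057864) (l 16057344))) (b (l 15929008) (l 15950672))) (b (a (c (l 16027960) (l 15938248)) (c (l 15919232) (l 15912744))) (a (l 16050320) (l 15941472)))) (c (a (l 16036360) (l 15993280)) (a (l 16080632) (l 15973488))))) (c (a (b (c (b (l 16149488) (l 16158240)) (l 16135800)) (l 16113104)) (b (c (l 16077112) (l 16063008)) (l 16085280))) (a (c (l 16087888) (l 16073168)) (l 16027544)))) (c (a (b (l 16030680) (l 15924240)) (b (l 16019200) (l 15917112))) (a (c (l 15951936) (l 15941888)) (l 15937808)))) (b (b (c (b (a (l 15884072) (l 15837808)) (c (b (l 15885008) (l 15916304)) (b (l 15881944) (l 15921240)))) (b (c (b (l 15824240) (a (l 15873552) (l 15826592))) (b (c (l 15813536) (l 15785464)) (l 15835944))) (c (l 15889672) (l 15868896)))) (c (a (b (l 15993192) (l 16043432)) (b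 (l 15946432) (l 15995544))) (a (l 15973624) (l 15924640)))) (c (b (a (l 16027680) (l 16027496)) (a (l 15938792) (l 15977096))) (a (l 15952608) (b (l 15991736) (l 15953216)))))) (a (b (c (a (l 15774208) (l 15772792)) (a (l 15749024) (l 15747592))) (a (c (l 15587072) (l 15556408)) (l 15576920))) (b (c (a (l 15800480) (l 15838616)) (a (l 15776072) (l 15815296))) (a (l 15611856) (l 15649296))))) (a (l 1) (b (a (l 1) (l 635685476231)) (l 1)))), by decide +kernel⟩

def k6_pm_202 : ∃ t, chk3 f_pm_202 t 4 3 1 = true :=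
  ⟨(l 1), by decide +kernel⟩

def k7_pm_202 : ∃ t, chk3 f_pm_202 t 10 4 1 = true :=
  ⟨(a (b (a (b (b (c (b (a (l 15783736) (l 15649576)) (a (c (l 15779400) (l 15712024)) (c (l 15684672) (l 15678256)))) (b (a (c (b (l 15751672) (l 15770056)) (b (c (l 15740360) (l 15732856)) (l 15758560))) (c (l 15624784) (b (l 15599256) (l 15618336)))) (a (c (l 15806272) (l 15784768)) (l 15656776)))) (c (a (b (l 15812352) (l 15916112)) (l 15648400)) (a (l 15850024) (l 15707016)))) (b (c (l 15805640) (l 15850688)) (c (a (l 15959416) (l 15869400)) (l 15879808)))) (b (b (a (c (b (l 15557896) (b (l 15509784) (l 15531000))) (b (c (b (l 15545224) (l 15495904)) (b (l 15527920) (l 15480856))) (l 15492984))) (a (c (b (l 15545248) (b (l 15412168) (l 15395312))) (b (c (l 15518592) (l 15500728)) (l 15379480))) (c (b (a (l 15555264) (l 15565040)) (a (b (l 15403800) (l 15337088)) (b (l 15415040) (l 15326272)))) (b (a (c (l 15528848) (l 15511144)) (c (l 15538856) (l 15458392))) (a (l 15341832) (l 15339720))))))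 (a (c (l 15570872) (l 15541784)) (a (c (l 15454992) (l 15401640)) (c (a (l 15381176) (l 15335872)) (a (l 15326040) (l 15279648)))))) (a (c (l 15694296) (l 15655712)) (a (c (l 15557480) (l 15515440)) (a (l 15464560) (c (l 15440416) (l 15395416))))))) (a (b (c (l 15794960) (l 15770440)) (l 15600088)) (a (b (b (l 15721344) (l 15637080)) (l 15508048)) (a (b (l 15576064) (l 15441056)) (b (a (l 15550872) (b (l 15535344) (l 15508928))) (a (l 15406352) (l 15386656))))))) (b (b (b (c (b (l 15901000) (b (l 15801968) (l 15714240))) (b (a (c (l 15748032) (l 15733328)) (b (l 16182640) (l 16091128))) (l 15590720))) (c (a (b (l 15439824) (l 15359168)) (l 15722224)) (a (l 15362456) (l 15677856)))) (b (a (l 15333856) (l 15334680)) (l 15383208))) (b (b (l 15464464) (l 15517848)) (l 15489512)))), by decide +kernel⟩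

def k8_pm_202 : ∃ t, chk3 f_pm_202 t 11 4 1 = true :=
  ⟨(b (b (a (b (c (b (l 16481560) (l 16323440)) (b (c (l 16483560) (l 16422088)) (l 16428272))) (c (a (l 16133984) (l 16543184)) (l 16208368))) (b (c (b (l 15993576) (l 16053288)) (b (l 15853696) (l 16054376))) (c (l 16232640) (l 16247344)))) (a (b (a (l 15748096) (l 16184200)) (a (l 15466096) (l 15813112))) (b (l 16541552) (l 16335048)))) (a (b (b (l 15327128) (l 15491560)) (l 15608952)) (b (b (l 15996448) (l 15692376)) (l 15563424)))), by decide +kernel⟩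

def k9_pm_202 : ∃ t, chk3 f_pm_202 t 5 5 1 = true :=
  ⟨(b (a (a (a (a (l 15386616) (l 15344128)) (a (l 15279336) (a (l 15217128) (a (l 15185888) (l 15168424))))) (l 15299536)) (a (l 15587216) (l 15677160))) (a (a (l 1) (l 15018400)) (a (l 15333352) (l 15547664)))), by decide +kernel⟩

def k10_pm_202 : ∃ t, chk3 f_pm_202 t 5 3 1 = true :=
  ⟨(a (l 1) (a (l 1) (l 548711913383))), by decide +kernel⟩

def k11_pm_202 : ∃ t, chk3 f_pm_202 t 3 1 1 = true :=
  ⟨(b (b (a (b (b (c (a (b (l 15991496) (l 16046160)) (b (l 15991496) (l 16046008))) (a (b (b (l 15961000) (l 15991144)) (l 16054528)) (b (l 15978248) (l 16054376)))) (a (a (l 16240568) (l 16172592)) (a (l 16172408) (l 16172408)))) (a (a (b (l 16365384) (l 15732232)) (b (a (l 16495216) (l 16376120)) (l 16095104))) (a (b (l 16334192) (l 16571912)) (l 16396864)))) (b (b (c (b (l 15991496) (l 16046008)) (l 16014280)) (l 16172408)) (l 16375792))) (a (a (b (a (b (l 15493896) (l 15610728)) (a (l 15488016) (b (l 15821064) (l 15386128))))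 (l 15342104)) (b (a (b (l 16289360) (l 15610208)) (b (l 16653808) (l 16237304))) (a (a (l 15467992) (l 15500840)) (b (l 15599120) (l 15340416))))) (a (b (l 16645264) (a (b (l 16190624) (l 15572936)) (l 16391560))) (b (l 16604624) (l 16713728))))) (a (a (l 325910708743) (b (a (l 84319313143) (l 15350584)) (a (l 1) (l 15316392)))) (b (a (b (a (l 15497816) (l 15518000)) (l 15533936)) (b (a (l 15886192) (l 16381416)) (a (l 15497816) (l 15518000)))) (a (l 15424320) (l 15496728))))), by decide +kernel⟩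

theorem s12_pm_202 : ∃ t, chk3 f_pm_202 t 5 4 1 = true := ex3_a k7_pm_202 k8_pm_202

theorem s13_pm_202 : ∃ t, chk3 f_pm_202 t 5 2 1 = true := ex3_b s12_pm_202 k9_pm_202

theorem s14_pm_202 : ∃ t, chk3 f_pm_202 t 5 1 1 = true := ex3_b s13_pm_202 k10_pm_202

theorem s15_pm_202 : ∃ t, chk3 f_pm_202 t 18 8 1 = true := ex3_a k1_pm_202 k2_pm_202

theorem s16_pm_202 : ∃ t, chk3 f_pm_202 t 18 4 1 = true := ex3_b s15_pm_202 k3_pm_202

theorem s17_pm_202 : ∃ t, chk3 f_pm_202 t 18 2 1 = true := ex3_b s16_pm_202 k4_pm_202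

theorem s18_pm_202 : ∃ t, chk3 f_pm_202 t 9 2 1 = true := ex3_a s17_pm_202 k5_pm_202

theorem s19_pm_202 : ∃ t, chk3 f_pm_202 t 4 2 1 = true := ex3_a k0_pm_202 s18_pm_202

theorem s20_pm_202 : ∃ t, chk3 f_pm_202 t 4 1 1 = true := ex3_b s19_pm_202 k6_pm_202

theorem s21_pm_202 : ∃ t, chk3 f_pm_202 t 2 1 1 = true := ex3_a s20_pm_202 s14_pm_202

theorem s22_pm_202 : ∃ t, chk3 f_pm_202 t 1 1 1 = true := ex3_a s21_pm_202 k11_pm_202

theorem c_pm_202 : CertFX 1073741824 536870912 0 536870912 1046898278 26843546 true true false .pp 2 0 2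
    ndF6q2 ndF6q0 pcF2 Cut.none Ext.none :=
  certFX2 (fam := true) (s1 := true) (s2 := false) (a := 2) (b := 0) (c := 2) (cn := .pp) (n1 := ndF6q2) (n2 := ndF6q0) (pc := pcF2) (cut := Cut.none) (xt := Ext.none) (P1 := 1073741824) (W1 := 536870912) (P2 := 0) (W2 := 536870912) (P3 := 1046898278) (W3 := 26843546)
    rfl (fun _ => rfl) s22_pm_202

noncomputable def f_pm_203 : ℕ → ℕ → ℕ → ℕ → Bool := onCell 1073741824 536870912 1610612736 536870912 1046898278 26843546
    (rowFX 1 true true false .up 2 0 3 (qsf 1073741824 536870912 0 536870912 3) ndF6q2 ndF6q0 pcF3 Cut.none Ext.none)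

def k0_pm_203 : ∃ t, chk3 f_pm_203 t 1 1 1 = true :=
  ⟨(a (b (a (b (l 15533936) (l 15533936)) (b (a (l 15572896) (l 16626968)) (a (l 15572896) (l 16626968)))) (b (a (l 2) (b (l 572939966327) (l 2))) (l 2))) (b (b (a (l 16714184) (b (a (l 16491960) (b (a (l 16251760) (l 16107864)) (l 16317736))) (l 16563528))) (b (l 16723280) (l 16773560))) (b (b (l 16777208) (l 16777184)) (b (b (l 16776928) (l 4)) (l 4))))), by decide +kernel⟩

theorem c_pm_203 : CertFX 1073741824 536870912 0 536870912 1046898278 26843546 true true false .up 2 0 3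
    ndF6q2 ndF6q0 pcF3 Cut.none Ext.none :=
  certFX1 (fam := true) (s1 := true) (s2 := false) (a := 2) (b := 0) (c := 3) (cn := .up) (n1 := ndF6q2) (n2 := ndF6q0) (pc := pcF3) (cut := Cut.none) (xt := Ext.none) (P1 := 1073741824) (W1 := 536870912) (P2 := 0) (W2 := 536870912) (P3 := 1046898278) (W3 := 26843546)
    rfl (fun _ => rfl) k0_pm_203

noncomputable def f_pm_213 : ℕ → ℕ → ℕ → ℕ → Bool := onCell 1073741824 536870912 1610612736 536870912 1046898278 26843546
    (rowFX 1 true true false .pnn 2 1 3 (qsf 1073741824 536870912 536870912 469762048 3) ndF6q2 ndF6q1 pcF3 Cut.none Ext.none)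

def k0_pm_213 : ∃ t, chk3 f_pm_213 t 1 1 1 = true :=
  ⟨(b (a (a (b (l 15533936) (l 15533936)) (b (a (l 15572896) (l 1)) (a (l 15572896) (l 16626968)))) (b (l 1) (b (l 1) (l 16777216)))) (b (a (a (b (l 15513856) (a (l 15213680) (l 15500712))) (b (a (l 15572912) (l 16626976)) (a (l 15572944) (l 16627000)))) (b (l 16777208) (l 16777184))) (b (a (a (a (b (l 15043584) (c (l 15218512) (l 14977112))) (b (l 15515464) (l 15645672))) (a (b (l 15573080) (l 15616320)) (b (l 16627040) (l 4)))) (b (l 16776928) (l 4))) (a (b (a (a (a (b (l 14812288) (l 4)) (l 4)) (l 4)) (l 4)) (l 4)) (l 4))))), by decide +kernel⟩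

theorem c_pm_213 : CertFX 1073741824 536870912 536870912 469762048 1046898278 26843546 true true false .pnn 2 1 3
    ndF6q2 ndF6q1 pcF3 Cut.none Ext.none :=
  certFX1 (fam := true) (s1 := true) (s2 := false) (a := 2) (b := 1) (c := 3) (cn := .pnn) (n1 := ndF6q2) (n2 := ndF6q1) (pc := pcF3) (cut := Cut.none) (xt := Ext.none) (P1 := 1073741824) (W1 := 536870912) (P2 := 536870912) (W2 := 469762048) (P3 := 1046898278) (W3 := 26843546)
    rfl (fun _ => rfl) k0_pm_213

noncomputable def f_pm_303 : ℕ → ℕ → ℕ → ℕ → Bool := onCell 0 1230186008 0 536870912 1046898278 26843546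
    (rowFX 0 true true false .npn 3 0 3 (qsf 0 1230186008 0 536870912 3) ndF6q3 ndF6q0 pcF3 Cut.none Ext.none)

def k0_pm_303 : ∃ t, chk3 f_pm_303 t 1 1 1 = true :=
  ⟨(a (l 4) (a (b (b (a (l 4) (a (l 4) (b (b (c (l 16023384) (l 16014280)) (l 4)) (l 4)))) (l 4)) (l 4)) (b (a (a (b (b (b (c (l 16023392) (l 16014280)) (c (l 16174752) (l 16173648))) (c (l 16400680) (l 124787916183))) (l 4)) (b (b (b (c (l 16023392) (l 16014280)) (l 16172408)) (c (l 16400696) (l 16390912))) (b (c (l 16606816) (l 16602392)) (l 4)))) (b (b (a (b (l 16017960) (l 16172408)) (b (l 16017960) (l 16172408))) (a (b (l 16334024) (l 16465104)) (l 16396768))) (c (a (b (l 16606832) (l 16756000)) (b (l 16606832) (l 16756024))) (a (b (l 16602408) (l 16755448)) (b (l 16602408) (a (l 16755464) (l 16755472))))))) (a (l 4) (b (a (l 4) (b (c (l 16777200) (l 16777192)) (a (l 4) (b (l 16777184) (l 4))))) (l 4)))))), by decide +kernel⟩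

theorem c_pm_303 : CertFX 0 1230186008 0 536870912 1046898278 26843546 true true false .npn 3 0 3
    ndF6q3 ndF6q0 pcF3 Cut.none Ext.none :=
  certFX0 (fam := true) (s1 := true) (s2 := false) (a := 3) (b := 0) (c := 3) (cn := .npn) (n1 := ndF6q3) (n2 := ndF6q0) (pc := pcF3) (cut := Cut.none) (xt := Ext.none) (P1 := 0) (W1 := 1230186008) (P2 := 0) (W2 := 536870912) (P3 := 1046898278) (W3 := 26843546)
    rfl k0_pm_303

noncomputable def f_pm_313 : ℕ → ℕ → ℕ → ℕ → Bool := onCell 0 1230186008 536870912 469762048 1046898278 26843546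
    (rowFX 0 true true false .dn 3 1 3 (qsf 0 1230186008 536870912 469762048 3) ndF6q3 ndF6q1 pcF3 Cut.none Ext.none)

def k0_pm_313 : ∃ t, chk3 f_pm_313 t 1 1 1 = true :=
  ⟨(a (l 2) (l 4)), by decide +kernel⟩

theorem c_pm_313 : CertFX 0 1230186008 536870912 469762048 1046898278 26843546 true true false .dn 3 1 3
    ndF6q3 ndF6q1 pcF3 Cut.none Ext.none :=
  certFX0 (fam := true) (s1 := true) (s2 := false) (a := 3) (b := 1) (c := 3) (cn := .dn) (n1 := ndF6q3) (n2 := ndF6q1) (pc := pcF3) (cut := Cut.none) (xt := Ext.none) (P1 := 0) (W1 := 1230186008) (P2 := 536870912) (W2 := 469762048) (P3 := 1046898278) (W3 := 26843546)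
    rfl k0_pm_313

noncomputable def f_mm_001 : ℕ → ℕ → ℕ → ℕ → Bool := onCell 0 536870912 0 536870912 1046898278 26843546
    (rowFX 0 true false false .up 0 0 1 (qsf 0 536870912 0 536870912 1) ndF6q0 ndF6q0 pcF1 Cut.none Ext.none)

def k0_mm_001 : ∃ t, chk3 f_mm_001 t 1 1 1 = true :=
  ⟨(l 4), by decide +kernel⟩

theorem c_mm_001 : CertFX 0 536870912 0 536870912 1046898278 26843546 true false false .up 0 0 1
    ndF6q0 ndF6q0 pcF1 Cut.none Ext.none :=
  certFX0 (fam := true) (s1 := false) (s2 := false) (a := 0) (b := 0) (c := 1) (cn := .up) (n1 := ndF6q0) (n2 := ndF6q0) (pc := pcF1) (cut := Cut.none) (xt := Ext.none) (P1 := 0) (W1 := 536870912) (P2 := 0) (W2 := 536870912) (P3 := 1046898278) (W3 := 26843546)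
    rfl k0_mm_001

noncomputable def f_mm_011 : ℕ → ℕ → ℕ → ℕ → Bool := onCell 0 536870912 536870912 469762048 1046898278 26843546
    (rowFX 0 true false false .pnn 0 1 1 (qsf 0 536870912 536870912 469762048 1) ndF6q0 ndF6q1 pcF1 Cut.none Ext.none)

def k0_mm_011 : ∃ t, chk3 f_mm_011 t 1 1 1 = true :=
  ⟨(l 4), by decide +kernel⟩

theorem c_mm_011 : CertFX 0 536870912 536870912 469762048 1046898278 26843546 true false false .pnn 0 1 1
    ndF6q0 ndF6q1 pcF1 Cut.none Ext.none :=
  certFX0 (fam := true) (s1 := false) (s2 := false) (a := 0) (b := 1) (c := 1) (cn := .pnn) (n1 := ndF6q0) (n2 := ndF6q1) (pc := pcF1) (cut := Cut.none) (xt := Ext.none) (P1 := 0) (W1 := 536870912) (P2 := 536870912) (W2 := 469762048) (P3 := 1046898278) (W3 := 26843546)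
    rfl k0_mm_011

noncomputable def f_mm_012 : ℕ → ℕ → ℕ → ℕ → Bool := onCell 0 536870912 536870912 469762048 1046898278 26843546
    (rowFX 0 true false false .pnp 0 1 2 (qsf 0 536870912 536870912 469762048 2) ndF6q0 ndF6q1 pcF2 Cut.none Ext.none)

def k0_mm_012 : ∃ t, chk3 f_mm_012 t 1 1 1 = true :=
  ⟨(l 4), by decide +kernel⟩

theorem c_mm_012 : CertFX 0 536870912 536870912 469762048 1046898278 26843546 true false false .pnp 0 1 2
    ndF6q0 ndF6q1 pcF2 Cut.none Ext.none :=
  certFX0 (fam := true) (s1 := false) (s2 := false) (a := 0) (b := 1) (c := 2) (cn := .pnp) (n1 := ndF6q0) (n2 := ndF6q1) (pc := pcF2) (cut := Cut.none) (xt := Ext.none) (P1 := 0) (W1 := 536870912) (P2 := 536870912) (W2 := 469762048) (P3 := 1046898278) (W3 := 26843546)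
    rfl k0_mm_012

noncomputable def f_mm_022 : ℕ → ℕ → ℕ → ℕ → Bool := onCell 0 536870912 1073741824 536870912 1046898278 26843546
    (rowFX 0 true false false .pp 0 2 2 (qsf 0 536870912 1073741824 536870912 2) ndF6q0 ndF6q2 pcF2 Cut.none Ext.none)

def k0_mm_022 : ∃ t, chk3 f_mm_022 t 1 1 1 = true :=
  ⟨(l 4), by decide +kernel⟩

theorem c_mm_022 : CertFX 0 536870912 1073741824 536870912 1046898278 26843546 true false false .pp 0 2 2
    ndF6q0 ndF6q2 pcF2 Cut.none Ext.none :=
  certFX0 (fam := true) (s1 := false) (s2 := false) (a := 0) (b := 2) (c := 2) (cn := .pp) (n1 := ndF6q0) (n2 := ndF6q2) (pc := pcF2) (cut := Cut.none) (xt := Ext.none) (P1 := 0) (W1 := 536870912) (P2 := 1073741824) (W2 := 536870912) (P3 := 1046898278) (W3 := 26843546)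
    rfl k0_mm_022

noncomputable def f_mm_023 : ℕ → ℕ → ℕ → ℕ → Bool := onCell 0 536870912 1073741824 536870912 1046898278 26843546
    (rowFX 0 true false false .up 0 2 3 (qsf 0 536870912 1073741824 536870912 3) ndF6q0 ndF6q2 pcF3 Cut.none Ext.none)

def k0_mm_023 : ∃ t, chk3 f_mm_023 t 1 1 1 = true :=
  ⟨(l 4), by decide +kernel⟩

theorem c_mm_023 : CertFX 0 536870912 1073741824 536870912 1046898278 26843546 true false false .up 0 2 3
    ndF6q0 ndF6q2 pcF3 Cut.none Ext.none :=
  certFX0 (fam := true) (s1 := false) (s2 := false) (a := 0) (b := 2) (c := 3) (cn := .up) (n1 := ndF6q0) (n2 := ndF6q2) (pc := pcF3) (cut := Cut.none) (xt := Ext.none) (P1 := 0) (W1 := 536870912) (P2 := 1073741824) (W2 := 536870912) (P3 := 1046898278) (W3 := 26843546)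
    rfl k0_mm_023

noncomputable def f_mm_033 : ℕ → ℕ → ℕ → ℕ → Bool := onCell 0 536870912 0 1230186008 1046898278 26843546
    (rowFX 0 true false false .pnn 0 3 3 (qsf 0 536870912 0 1230186008 3) ndF6q0 ndF6q3 pcF3 Cut.none Ext.none)

def k0_mm_033 : ∃ t, chk3 f_mm_033 t 1 1 1 = true :=
  ⟨(l 4), by decide +kernel⟩

theorem c_mm_033 : CertFX 0 536870912 0 1230186008 1046898278 26843546 true false false .pnn 0 3 3
    ndF6q0 ndF6q3 pcF3 Cut.none Ext.none :=
  certFX0 (fam := true) (s1 := false) (s2 := false) (a := 0) (b := 3) (c := 3) (cn := .pnn) (n1 := ndF6q0) (n2 := ndF6q3) (pc := pcF3) (cut := Cut.none) (xt := Ext.none) (P1 := 0) (W1 := 536870912) (P2 := 0) (W2 := 1230186008) (P3 := 1046898278) (W3 := 26843546)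
    rfl k0_mm_033

noncomputable def f_mm_101 : ℕ → ℕ → ℕ → ℕ → Bool := onCell 536870912 469762048 0 536870912 1046898278 26843546
    (rowFX 0 true false false .npn 1 0 1 (qsf 536870912 469762048 0 536870912 1) ndF6q1 ndF6q0 pcF1 Cut.none Ext.none)

def k0_mm_101 : ∃ t, chk3 f_mm_101 t 1 1 1 = true :=
  ⟨(l 4), by decide +kernel⟩

theorem c_mm_101 : CertFX 536870912 469762048 0 536870912 1046898278 26843546 true false false .npn 1 0 1
    ndF6q1 ndF6q0 pcF1 Cut.none Ext.none :=
  certFX0 (fam := true) (s1 := false) (s2 := false) (a := 1) (b := 0) (c := 1) (cn := .npn) (n1 := ndF6q1) (n2 := ndF6q0) (pc := pcF1) (cut := Cut.none) (xt := Ext.none) (P1 := 536870912) (W1 := 469762048) (P2 := 0) (W2 := 536870912) (P3 := 1046898278) (W3 := 26843546)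
    rfl k0_mm_101

noncomputable def f_mm_102 : ℕ → ℕ → ℕ → ℕ → Bool := onCell 536870912 469762048 0 536870912 1046898278 26843546
    (rowFX 0 true false false .npp 1 0 2 (qsf 536870912 469762048 0 536870912 2) ndF6q1 ndF6q0 pcF2 Cut.none Ext.none)

def k0_mm_102 : ∃ t, chk3 f_mm_102 t 1 1 1 = true :=
  ⟨(l 4), by decide +kernel⟩

theorem c_mm_102 : CertFX 536870912 469762048 0 536870912 1046898278 26843546 true false false .npp 1 0 2
    ndF6q1 ndF6q0 pcF2 Cut.none Ext.none :=
  certFX0 (fam := true) (s1 := false) (s2 := false) (a := 1) (b := 0) (c := 2) (cn := .npp) (n1 := ndF6q1) (n2 := ndF6q0) (pc := pcF2) (cut := Cut.none) (xt := Ext.none) (P1 := 536870912) (W1 := 469762048) (P2 := 0) (W2 := 536870912) (P3 := 1046898278) (W3 := 26843546)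
    rfl k0_mm_102

noncomputable def f_mm_112 : ℕ → ℕ → ℕ → ℕ → Bool := onCell 536870912 469762048 536870912 469762048 1046898278 26843546
    (rowFX 0 true false false .dn 1 1 2 (qsf 536870912 469762048 536870912 469762048 2) ndF6q1 ndF6q1 pcF2 Cut.none Ext.none)

def k0_mm_112 : ∃ t, chk3 f_mm_112 t 1 1 1 = true :=
  ⟨(l 4), by decide +kernel⟩

theorem c_mm_112 : CertFX 536870912 469762048 536870912 469762048 1046898278 26843546 true false false .dn 1 1 2
    ndF6q1 ndF6q1 pcF2 Cut.none Ext.none :=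
  certFX0 (fam := true) (s1 := false) (s2 := false) (a := 1) (b := 1) (c := 2) (cn := .dn) (n1 := ndF6q1) (n2 := ndF6q1) (pc := pcF2) (cut := Cut.none) (xt := Ext.none) (P1 := 536870912) (W1 := 469762048) (P2 := 536870912) (W2 := 469762048) (P3 := 1046898278) (W3 := 26843546)
    rfl k0_mm_112

noncomputable def f_mm_113 : ℕ → ℕ → ℕ → ℕ → Bool := onCell 536870912 469762048 536870912 469762048 1046898278 26843546
    (rowFX 0 true false false .nn 1 1 3 (qsf 536870912 469762048 536870912 469762048 3) ndF6q1 ndF6q1 pcF3 Cut.none Ext.none)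

def k0_mm_113 : ∃ t, chk3 f_mm_113 t 1 1 1 = true :=
  ⟨(l 4), by decide +kernel⟩

theorem c_mm_113 : CertFX 536870912 469762048 536870912 469762048 1046898278 26843546 true false false .nn 1 1 3
    ndF6q1 ndF6q1 pcF3 Cut.none Ext.none :=
  certFX0 (fam := true) (s1 := false) (s2 := false) (a := 1) (b := 1) (c := 3) (cn := .nn) (n1 := ndF6q1) (n2 := ndF6q1) (pc := pcF3) (cut := Cut.none) (xt := Ext.none) (P1 := 536870912) (W1 := 469762048) (P2 := 536870912) (W2 := 469762048) (P3 := 1046898278) (W3 := 26843546)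
    rfl k0_mm_113

noncomputable def f_mm_123 : ℕ → ℕ → ℕ → ℕ → Bool := onCell 536870912 469762048 1073741824 536870912 1046898278 26843546
    (rowFX 0 true false false .npn 1 2 3 (qsf 536870912 469762048 1073741824 536870912 3) ndF6q1 ndF6q2 pcF3 Cut.none Ext.none)

def k0_mm_123 : ∃ t, chk3 f_mm_123 t 1 1 1 = true :=
  ⟨(l 4), by decide +kernel⟩

theorem c_mm_123 : CertFX 536870912 469762048 1073741824 536870912 1046898278 26843546 true false false .npn 1 2 3
    ndF6q1 ndF6q2 pcF3 Cut.none Ext.none :=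
  certFX0 (fam := true) (s1 := false) (s2 := false) (a := 1) (b := 2) (c := 3) (cn := .npn) (n1 := ndF6q1) (n2 := ndF6q2) (pc := pcF3) (cut := Cut.none) (xt := Ext.none) (P1 := 536870912) (W1 := 469762048) (P2 := 1073741824) (W2 := 536870912) (P3 := 1046898278) (W3 := 26843546)
    rfl k0_mm_123

noncomputable def f_mm_133 : ℕ → ℕ → ℕ → ℕ → Bool := onCell 536870912 469762048 0 1230186008 1046898278 26843546
    (rowFX 0 true false false .dn 1 3 3 (qsf 536870912 469762048 0 1230186008 3) ndF6q1 ndF6q3 pcF3 Cut.none Ext.none)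

def k0_mm_133 : ∃ t, chk3 f_mm_133 t 1 1 1 = true :=
  ⟨(l 4), by decide +kernel⟩

theorem c_mm_133 : CertFX 536870912 469762048 0 1230186008 1046898278 26843546 true false false .dn 1 3 3
    ndF6q1 ndF6q3 pcF3 Cut.none Ext.none :=
  certFX0 (fam := true) (s1 := false) (s2 := false) (a := 1) (b := 3) (c := 3) (cn := .dn) (n1 := ndF6q1) (n2 := ndF6q3) (pc := pcF3) (cut := Cut.none) (xt := Ext.none) (P1 := 536870912) (W1 := 469762048) (P2 := 0) (W2 := 1230186008) (P3 := 1046898278) (W3 := 26843546)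
    rfl k0_mm_133

noncomputable def f_mm_202 : ℕ → ℕ → ℕ → ℕ → Bool := onCell 1073741824 536870912 0 536870912 1046898278 26843546
    (rowFX 0 true false false .pp 2 0 2 (qsf 1073741824 536870912 0 536870912 2) ndF6q2 ndF6q0 pcF2 Cut.none Ext.none)

def k0_mm_202 : ∃ t, chk3 f_mm_202 t 1 1 1 = true :=
  ⟨(l 4), by decide +kernel⟩

theorem c_mm_202 : CertFX 1073741824 536870912 0 536870912 1046898278 26843546 true false false .pp 2 0 2
    ndF6q2 ndF6q0 pcF2 Cut.none Ext.none :=
  certFX0 (fam := true) (s1 := false) (s2 := false) (a := 2) (b := 0) (c := 2) (cn := .pp) (n1 := ndF6q2) (n2 := ndF6q0) (pc := pcF2) (cut := Cut.none) (xt := Ext.none) (P1 := 1073741824) (W1 := 536870912) (P2 := 0) (W2 := 536870912) (P3 := 1046898278) (W3 := 26843546)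
    rfl k0_mm_202

noncomputable def f_mm_203 : ℕ → ℕ → ℕ → ℕ → Bool := onCell 1073741824 536870912 0 536870912 1046898278 26843546
    (rowFX 0 true false false .up 2 0 3 (qsf 1073741824 536870912 0 536870912 3) ndF6q2 ndF6q0 pcF3 Cut.none Ext.none)

def k0_mm_203 : ∃ t, chk3 f_mm_203 t 1 1 1 = true :=
  ⟨(l 4), by decide +kernel⟩

theorem c_mm_203 : CertFX 1073741824 536870912 0 536870912 1046898278 26843546 true false false .up 2 0 3
    ndF6q2 ndF6q0 pcF3 Cut.none Ext.none :=
  certFX0 (fam := true) (s1 := false) (s2 := false) (a := 2) (b := 0) (c := 3) (cn := .up) (n1 := ndF6q2) (n2 := ndF6q0) (pc := pcF3) (cut := Cut.none) (xt := Ext.none) (P1 := 1073741824) (W1 := 536870912) (P2 := 0) (W2 := 536870912) (P3 := 1046898278) (W3 := 26843546)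
    rfl k0_mm_203

noncomputable def f_mm_213 : ℕ → ℕ → ℕ → ℕ → Bool := onCell 1073741824 536870912 536870912 469762048 1046898278 26843546
    (rowFX 0 true false false .pnn 2 1 3 (qsf 1073741824 536870912 536870912 469762048 3) ndF6q2 ndF6q1 pcF3 Cut.none Ext.none)

def k0_mm_213 : ∃ t, chk3 f_mm_213 t 1 1 1 = true :=
  ⟨(l 4), by decide +kernel⟩

theorem c_mm_213 : CertFX 1073741824 536870912 536870912 469762048 1046898278 26843546 true false false .pnn 2 1 3
    ndF6q2 ndF6q1 pcF3 Cut.none Ext.none :=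
  certFX0 (fam := true) (s1 := false) (s2 := false) (a := 2) (b := 1) (c := 3) (cn := .pnn) (n1 := ndF6q2) (n2 := ndF6q1) (pc := pcF3) (cut := Cut.none) (xt := Ext.none) (P1 := 1073741824) (W1 := 536870912) (P2 := 536870912) (W2 := 469762048) (P3 := 1046898278) (W3 := 26843546)
    rfl k0_mm_213

noncomputable def f_mm_303 : ℕ → ℕ → ℕ → ℕ → Bool := onCell 0 1230186008 0 536870912 1046898278 26843546
    (rowFX 0 true false false .npn 3 0 3 (qsf 0 1230186008 0 536870912 3) ndF6q3 ndF6q0 pcF3 Cut.none Ext.none)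

def k0_mm_303 : ∃ t, chk3 f_mm_303 t 1 1 1 = true :=
  ⟨(l 4), by decide +kernel⟩

theorem c_mm_303 : CertFX 0 1230186008 0 536870912 1046898278 26843546 true false false .npn 3 0 3
    ndF6q3 ndF6q0 pcF3 Cut.none Ext.none :=
  certFX0 (fam := true) (s1 := false) (s2 := false) (a := 3) (b := 0) (c := 3) (cn := .npn) (n1 := ndF6q3) (n2 := ndF6q0) (pc := pcF3) (cut := Cut.none) (xt := Ext.none) (P1 := 0) (W1 := 1230186008) (P2 := 0) (W2 := 536870912) (P3 := 1046898278) (W3 := 26843546)
    rfl k0_mm_303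

noncomputable def f_mm_313 : ℕ → ℕ → ℕ → ℕ → Bool := onCell 0 1230186008 536870912 469762048 1046898278 26843546
    (rowFX 0 true false false .dn 3 1 3 (qsf 0 1230186008 536870912 469762048 3) ndF6q3 ndF6q1 pcF3 Cut.none Ext.none)

def k0_mm_313 : ∃ t, chk3 f_mm_313 t 1 1 1 = true :=
  ⟨(l 4), by decide +kernel⟩

theorem c_mm_313 : CertFX 0 1230186008 536870912 469762048 1046898278 26843546 true false false .dn 3 1 3
    ndF6q3 ndF6q1 pcF3 Cut.none Ext.none :=
  certFX0 (fam := true) (s1 := false) (s2 := false) (a := 3) (b := 1) (c := 3) (cn := .dn) (n1 := ndF6q3) (n2 := ndF6q1) (pc := pcF3) (cut := Cut.none) (xt := Ext.none) (P1 := 0) (W1 := 1230186008) (P2 := 536870912) (W2 := 469762048) (P3 := 1046898278) (W3 := 26843546)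
    rfl k0_mm_313

end Pool.Agent.Strip051.G.IE1.Tab.C.FA66

namespace Pool.Agent.Strip051.G.IE1.Tab.C.FA67

open Pool.Agent.Strip051.PB Pool.Agent.Strip051.PB.T
open Pool.Agent.Strip051.G.IE1.Tab

noncomputable def f_pp_001 : ℕ → ℕ → ℕ → ℕ → Bool := onCell 0 536870912 0 536870912 1046898278 26843546
    (rowFX 0 true true true .up 0 0 1 (qsf 0 536870912 0 536870912 1) ndF6q0 ndF7q0 pcF1 Cut.none Ext.none)

def k0_pp_001 : ∃ t, chk3 f_pp_001 t 1 1 1 = true :=
  ⟨(l 4), by decide +kernel⟩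

theorem c_pp_001 : CertFX 0 536870912 0 536870912 1046898278 26843546 true true true .up 0 0 1
    ndF6q0 ndF7q0 pcF1 Cut.none Ext.none :=
  certFX0 (fam := true) (s1 := true) (s2 := true) (a := 0) (b := 0) (c := 1) (cn := .up) (n1 := ndF6q0) (n2 := ndF7q0) (pc := pcF1) (cut := Cut.none) (xt := Ext.none) (P1 := 0) (W1 := 536870912) (P2 := 0) (W2 := 536870912) (P3 := 1046898278) (W3 := 26843546)
    rfl k0_pp_001

noncomputable def f_pp_011 : ℕ → ℕ → ℕ → ℕ → Bool := onCell 0 536870912 536870912 536870912 1046898278 26843546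
    (rowFX 0 true true true .pnn 0 1 1 (qsf 0 536870912 536870912 536870912 1) ndF6q0 ndF7q1 pcF1 Cut.none Ext.none)

def k0_pp_011 : ∃ t, chk3 f_pp_011 t 1 1 1 = true :=
  ⟨(l 4), by decide +kernel⟩

theorem c_pp_011 : CertFX 0 536870912 536870912 536870912 1046898278 26843546 true true true .pnn 0 1 1
    ndF6q0 ndF7q1 pcF1 Cut.none Ext.none :=
  certFX0 (fam := true) (s1 := true) (s2 := true) (a := 0) (b := 1) (c := 1) (cn := .pnn) (n1 := ndF6q0) (n2 := ndF7q1) (pc := pcF1) (cut := Cut.none) (xt := Ext.none) (P1 := 0) (W1 := 536870912) (P2 := 536870912) (W2 := 536870912) (P3 := 1046898278) (W3 := 26843546)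
    rfl k0_pp_011

noncomputable def f_pp_012 : ℕ → ℕ → ℕ → ℕ → Bool := onCell 0 536870912 536870912 536870912 1046898278 26843546
    (rowFX 0 true true true .pnp 0 1 2 (qsf 0 536870912 536870912 536870912 2) ndF6q0 ndF7q1 pcF2 Cut.none Ext.none)

def k0_pp_012 : ∃ t, chk3 f_pp_012 t 1 1 1 = true :=
  ⟨(l 4), by decide +kernel⟩

theorem c_pp_012 : CertFX 0 536870912 536870912 536870912 1046898278 26843546 true true true .pnp 0 1 2
    ndF6q0 ndF7q1 pcF2 Cut.none Ext.none :=
  certFX0 (fam := true) (s1 := true) (s2 := true) (a := 0) (b := 1) (c := 2) (cn := .pnp) (n1 := ndF6q0) (n2 := ndF7q1) (pc := pcF2) (cut := Cut.none) (xt := Ext.none) (P1 := 0) (W1 := 536870912) (P2 := 536870912) (W2 := 536870912) (P3 := 1046898278) (W3 := 26843546)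
    rfl k0_pp_012

noncomputable def f_pp_022 : ℕ → ℕ → ℕ → ℕ → Bool := onCell 0 536870912 1073741824 536870912 1046898278 26843546
    (rowFX 0 true true true .pp 0 2 2 (qsf 0 536870912 1073741824 536870912 2) ndF6q0 ndF7q2 pcF2 Cut.none Ext.none)

def k0_pp_022 : ∃ t, chk3 f_pp_022 t 1 1 1 = true :=
  ⟨(l 4), by decide +kernel⟩

theorem c_pp_022 : CertFX 0 536870912 1073741824 536870912 1046898278 26843546 true true true .pp 0 2 2
    ndF6q0 ndF7q2 pcF2 Cut.none Ext.none :=
  certFX0 (fam := true) (s1 := true) (s2 := true) (a := 0) (b := 2) (c := 2) (cn := .pp) (n1 := ndF6q0) (n2 := ndF7q2) (pc := pcF2) (cut := Cut.none) (xt := Ext.none) (P1 := 0) (W1 := 536870912) (P2 := 1073741824) (W2 := 536870912) (P3 := 1046898278) (W3 := 26843546)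
    rfl k0_pp_022

noncomputable def f_pp_023 : ℕ → ℕ → ℕ → ℕ → Bool := onCell 0 536870912 1073741824 536870912 1046898278 26843546
    (rowFX 0 true true true .up 0 2 3 (qsf 0 536870912 1073741824 536870912 3) ndF6q0 ndF7q2 pcF3 Cut.none Ext.none)

def k0_pp_023 : ∃ t, chk3 f_pp_023 t 1 1 1 = true :=
  ⟨(l 4), by decide +kernel⟩

theorem c_pp_023 : CertFX 0 536870912 1073741824 536870912 1046898278 26843546 true true true .up 0 2 3
    ndF6q0 ndF7q2 pcF3 Cut.none Ext.none :=
  certFX0 (fam := true) (s1 := true) (s2 := true) (a := 0) (b := 2) (c := 3) (cn := .up) (n1 := ndF6q0) (n2 := ndF7q2) (pc := pcF3) (cut := Cut.none) (xt := Ext.none) (P1 := 0) (W1 := 536870912) (P2 := 1073741824) (W2 := 536870912) (P3 := 1046898278) (W3 := 26843546)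
    rfl k0_pp_023

noncomputable def f_pp_033 : ℕ → ℕ → ℕ → ℕ → Bool := onCell 0 536870912 0 1230186008 1046898278 26843546
    (rowFX 0 true true true .pnn 0 3 3 (qsf 0 536870912 0 1230186008 3) ndF6q0 ndF7q3 pcF3 Cut.none Ext.none)

def k0_pp_033 : ∃ t, chk3 f_pp_033 t 1 1 1 = true :=
  ⟨(l 4), by decide +kernel⟩

theorem c_pp_033 : CertFX 0 536870912 0 1230186008 1046898278 26843546 true true true .pnn 0 3 3
    ndF6q0 ndF7q3 pcF3 Cut.none Ext.none :=
  certFX0 (fam := true) (s1 := true) (s2 := true) (a := 0) (b := 3) (c := 3) (cn := .pnn) (n1 := ndF6q0) (n2 := ndF7q3) (pc := pcF3) (cut := Cut.none) (xt := Ext.none) (P1 := 0) (W1 := 536870912) (P2 := 0) (W2 := 1230186008) (P3 := 1046898278) (W3 := 26843546)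
    rfl k0_pp_033

noncomputable def f_pp_101 : ℕ → ℕ → ℕ → ℕ → Bool := onCell 536870912 469762048 0 536870912 1046898278 26843546
    (rowFX 0 true true true .npn 1 0 1 (qsf 536870912 469762048 0 536870912 1) ndF6q1 ndF7q0 pcF1 Cut.none Ext.none)

def k0_pp_101 : ∃ t, chk3 f_pp_101 t 1 1 1 = true :=
  ⟨(l 4), by decide +kernel⟩

theorem c_pp_101 : CertFX 536870912 469762048 0 536870912 1046898278 26843546 true true true .npn 1 0 1
    ndF6q1 ndF7q0 pcF1 Cut.none Ext.none :=
  certFX0 (fam := true) (s1 := true) (s2 := true) (a := 1) (b := 0) (c := 1) (cn := .npn) (n1 := ndF6q1) (n2 := ndF7q0) (pc := pcF1) (cut := Cut.none) (xt := Ext.none) (P1 := 536870912) (W1 := 469762048) (P2 := 0) (W2 := 536870912) (P3 := 1046898278) (W3 := 26843546)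
    rfl k0_pp_101

noncomputable def f_pp_102 : ℕ → ℕ → ℕ → ℕ → Bool := onCell 536870912 469762048 0 536870912 1046898278 26843546
    (rowFX 0 true true true .npp 1 0 2 (qsf 536870912 469762048 0 536870912 2) ndF6q1 ndF7q0 pcF2 Cut.none Ext.none)

def k0_pp_102 : ∃ t, chk3 f_pp_102 t 1 1 1 = true :=
  ⟨(l 4), by decide +kernel⟩

theorem c_pp_102 : CertFX 536870912 469762048 0 536870912 1046898278 26843546 true true true .npp 1 0 2
    ndF6q1 ndF7q0 pcF2 Cut.none Ext.none :=
  certFX0 (fam := true) (s1 := true) (s2 := true) (a := 1) (b := 0) (c := 2) (cn := .npp) (n1 := ndF6q1) (n2 := ndF7q0) (pc := pcF2) (cut := Cut.none) (xt := Ext.none) (P1 := 536870912) (W1 := 469762048) (P2 := 0) (W2 := 536870912) (P3 := 1046898278) (W3 := 26843546)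
    rfl k0_pp_102

noncomputable def f_pp_112 : ℕ → ℕ → ℕ → ℕ → Bool := onCell 536870912 469762048 536870912 536870912 1046898278 26843546
    (rowFX 0 true true true .dn 1 1 2 (qsf 536870912 469762048 536870912 536870912 2) ndF6q1 ndF7q1 pcF2 Cut.none Ext.none)

def k0_pp_112 : ∃ t, chk3 f_pp_112 t 1 1 1 = true :=
  ⟨(l 4), by decide +kernel⟩

theorem c_pp_112 : CertFX 536870912 469762048 536870912 536870912 1046898278 26843546 true true true .dn 1 1 2
    ndF6q1 ndF7q1 pcF2 Cut.none Ext.none :=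
  certFX0 (fam := true) (s1 := true) (s2 := true) (a := 1) (b := 1) (c := 2) (cn := .dn) (n1 := ndF6q1) (n2 := ndF7q1) (pc := pcF2) (cut := Cut.none) (xt := Ext.none) (P1 := 536870912) (W1 := 469762048) (P2 := 536870912) (W2 := 536870912) (P3 := 1046898278) (W3 := 26843546)
    rfl k0_pp_112

noncomputable def f_pp_113 : ℕ → ℕ → ℕ → ℕ → Bool := onCell 536870912 469762048 536870912 536870912 1046898278 26843546
    (rowFX 0 true true true .nn 1 1 3 (qsf 536870912 469762048 536870912 536870912 3) ndF6q1 ndF7q1 pcF3 Cut.none Ext.none)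

def k0_pp_113 : ∃ t, chk3 f_pp_113 t 1 1 1 = true :=
  ⟨(l 4), by decide +kernel⟩

theorem c_pp_113 : CertFX 536870912 469762048 536870912 536870912 1046898278 26843546 true true true .nn 1 1 3
    ndF6q1 ndF7q1 pcF3 Cut.none Ext.none :=
  certFX0 (fam := true) (s1 := true) (s2 := true) (a := 1) (b := 1) (c := 3) (cn := .nn) (n1 := ndF6q1) (n2 := ndF7q1) (pc := pcF3) (cut := Cut.none) (xt := Ext.none) (P1 := 536870912) (W1 := 469762048) (P2 := 536870912) (W2 := 536870912) (P3 := 1046898278) (W3 := 26843546)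
    rfl k0_pp_113

noncomputable def f_pp_123 : ℕ → ℕ → ℕ → ℕ → Bool := onCell 536870912 469762048 1073741824 536870912 1046898278 26843546
    (rowFX 0 true true true .npn 1 2 3 (qsf 536870912 469762048 1073741824 536870912 3) ndF6q1 ndF7q2 pcF3 Cut.none Ext.none)

def k0_pp_123 : ∃ t, chk3 f_pp_123 t 1 1 1 = true :=
  ⟨(l 4), by decide +kernel⟩

theorem c_pp_123 : CertFX 536870912 469762048 1073741824 536870912 1046898278 26843546 true true true .npn 1 2 3
    ndF6q1 ndF7q2 pcF3 Cut.none Ext.none :=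
  certFX0 (fam := true) (s1 := true) (s2 := true) (a := 1) (b := 2) (c := 3) (cn := .npn) (n1 := ndF6q1) (n2 := ndF7q2) (pc := pcF3) (cut := Cut.none) (xt := Ext.none) (P1 := 536870912) (W1 := 469762048) (P2 := 1073741824) (W2 := 536870912) (P3 := 1046898278) (W3 := 26843546)
    rfl k0_pp_123

noncomputable def f_pp_133 : ℕ → ℕ → ℕ → ℕ → Bool := onCell 536870912 469762048 0 1230186008 1046898278 26843546
    (rowFX 0 true true true .dn 1 3 3 (qsf 536870912 469762048 0 1230186008 3) ndF6q1 ndF7q3 pcF3 Cut.none Ext.none)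

def k0_pp_133 : ∃ t, chk3 f_pp_133 t 1 1 1 = true :=
  ⟨(l 4), by decide +kernel⟩

theorem c_pp_133 : CertFX 536870912 469762048 0 1230186008 1046898278 26843546 true true true .dn 1 3 3
    ndF6q1 ndF7q3 pcF3 Cut.none Ext.none :=
  certFX0 (fam := true) (s1 := true) (s2 := true) (a := 1) (b := 3) (c := 3) (cn := .dn) (n1 := ndF6q1) (n2 := ndF7q3) (pc := pcF3) (cut := Cut.none) (xt := Ext.none) (P1 := 536870912) (W1 := 469762048) (P2 := 0) (W2 := 1230186008) (P3 := 1046898278) (W3 := 26843546)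
    rfl k0_pp_133

noncomputable def f_pp_202 : ℕ → ℕ → ℕ → ℕ → Bool := onCell 1073741824 536870912 0 536870912 1046898278 26843546
    (rowFX 0 true true true .pp 2 0 2 (qsf 1073741824 536870912 0 536870912 2) ndF6q2 ndF7q0 pcF2 Cut.none Ext.none)

def k0_pp_202 : ∃ t, chk3 f_pp_202 t 1 1 1 = true :=
  ⟨(l 4), by decide +kernel⟩

theorem c_pp_202 : CertFX 1073741824 536870912 0 536870912 1046898278 26843546 true true true .pp 2 0 2
    ndF6q2 ndF7q0 pcF2 Cut.none Ext.none :=
  certFX0 (fam := true) (s1 := true) (s2 := true) (a := 2) (b := 0) (c := 2) (cn := .pp) (n1 := ndF6q2) (n2 := ndF7q0) (pc := pcF2) (cut := Cut.none) (xt := Ext.none) (P1 := 1073741824) (W1 := 536870912) (P2 := 0) (W2 := 536870912) (P3 := 1046898278) (W3 := 26843546)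
    rfl k0_pp_202

noncomputable def f_pp_203 : ℕ → ℕ → ℕ → ℕ → Bool := onCell 1073741824 536870912 0 536870912 1046898278 26843546
    (rowFX 0 true true true .up 2 0 3 (qsf 1073741824 536870912 0 536870912 3) ndF6q2 ndF7q0 pcF3 Cut.none Ext.none)

def k0_pp_203 : ∃ t, chk3 f_pp_203 t 1 1 1 = true :=
  ⟨(l 4), by decide +kernel⟩

theorem c_pp_203 : CertFX 1073741824 536870912 0 536870912 1046898278 26843546 true true true .up 2 0 3
    ndF6q2 ndF7q0 pcF3 Cut.none Ext.none :=
  certFX0 (fam := true) (s1 := true) (s2 := true) (a := 2) (b := 0) (c := 3) (cn := .up) (n1 := ndF6q2) (n2 := ndF7q0) (pc := pcF3) (cut := Cut.none) (xt := Ext.none) (P1 := 1073741824) (W1 := 536870912) (P2 := 0) (W2 := 536870912) (P3 := 1046898278) (W3 := 26843546)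
    rfl k0_pp_203

noncomputable def f_pp_213 : ℕ → ℕ → ℕ → ℕ → Bool := onCell 1073741824 536870912 536870912 536870912 1046898278 26843546
    (rowFX 0 true true true .pnn 2 1 3 (qsf 1073741824 536870912 536870912 536870912 3) ndF6q2 ndF7q1 pcF3 Cut.none Ext.none)

def k0_pp_213 : ∃ t, chk3 f_pp_213 t 1 1 1 = true :=
  ⟨(l 4), by decide +kernel⟩

theorem c_pp_213 : CertFX 1073741824 536870912 536870912 536870912 1046898278 26843546 true true true .pnn 2 1 3
    ndF6q2 ndF7q1 pcF3 Cut.none Ext.none :=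
  certFX0 (fam := true) (s1 := true) (s2 := true) (a := 2) (b := 1) (c := 3) (cn := .pnn) (n1 := ndF6q2) (n2 := ndF7q1) (pc := pcF3) (cut := Cut.none) (xt := Ext.none) (P1 := 1073741824) (W1 := 536870912) (P2 := 536870912) (W2 := 536870912) (P3 := 1046898278) (W3 := 26843546)
    rfl k0_pp_213

noncomputable def f_pp_303 : ℕ → ℕ → ℕ → ℕ → Bool := onCell 0 1230186008 0 536870912 1046898278 26843546
    (rowFX 0 true true true .npn 3 0 3 (qsf 0 1230186008 0 536870912 3) ndF6q3 ndF7q0 pcF3 Cut.none Ext.none)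

def k0_pp_303 : ∃ t, chk3 f_pp_303 t 1 1 1 = true :=
  ⟨(l 4), by decide +kernel⟩

theorem c_pp_303 : CertFX 0 1230186008 0 536870912 1046898278 26843546 true true true .npn 3 0 3
    ndF6q3 ndF7q0 pcF3 Cut.none Ext.none :=
  certFX0 (fam := true) (s1 := true) (s2 := true) (a := 3) (b := 0) (c := 3) (cn := .npn) (n1 := ndF6q3) (n2 := ndF7q0) (pc := pcF3) (cut := Cut.none) (xt := Ext.none) (P1 := 0) (W1 := 1230186008) (P2 := 0) (W2 := 536870912) (P3 := 1046898278) (W3 := 26843546)
    rfl k0_pp_303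

noncomputable def f_pp_313 : ℕ → ℕ → ℕ → ℕ → Bool := onCell 0 1230186008 536870912 536870912 1046898278 26843546
    (rowFX 0 true true true .dn 3 1 3 (qsf 0 1230186008 536870912 536870912 3) ndF6q3 ndF7q1 pcF3 Cut.none Ext.none)

def k0_pp_313 : ∃ t, chk3 f_pp_313 t 1 1 1 = true :=
  ⟨(l 4), by decide +kernel⟩

theorem c_pp_313 : CertFX 0 1230186008 536870912 536870912 1046898278 26843546 true true true .dn 3 1 3
    ndF6q3 ndF7q1 pcF3 Cut.none Ext.none :=
  certFX0 (fam := true) (s1 := true) (s2 := true) (a := 3) (b := 1) (c := 3) (cn := .dn) (n1 := ndF6q3) (n2 := ndF7q1) (pc := pcF3) (cut := Cut.none) (xt := Ext.none) (P1 := 0) (W1 := 1230186008) (P2 := 536870912) (W2 := 536870912) (P3 := 1046898278) (W3 := 26843546)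
    rfl k0_pp_313

noncomputable def f_pm_001 : ℕ → ℕ → ℕ → ℕ → Bool := onCell 0 536870912 0 536870912 1046898278 26843546
    (rowFX 0 true true false .up 0 0 1 (qsf 0 536870912 0 536870912 1) ndF6q0 ndF7q0 pcF1 Cut.none Ext.none)

def k0_pm_001 : ∃ t, chk3 f_pm_001 t 1 1 1 = true :=
  ⟨(l 3), by decide +kernel⟩

theorem c_pm_001 : CertFX 0 536870912 0 536870912 1046898278 26843546 true true false .up 0 0 1
    ndF6q0 ndF7q0 pcF1 Cut.none Ext.none :=
  certFX0 (fam := true) (s1 := true) (s2 := false) (a := 0) (b := 0) (c := 1) (cn := .up) (n1 := ndF6q0) (n2 := ndF7q0) (pc := pcF1) (cut := Cut.none) (xt := Ext.none) (P1 := 0) (W1 := 536870912) (P2 := 0) (W2 := 536870912) (P3 := 1046898278) (W3 := 26843546)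
    rfl k0_pm_001

noncomputable def f_pm_011 : ℕ → ℕ → ℕ → ℕ → Bool := onCell 0 536870912 536870912 536870912 1046898278 26843546
    (rowFX 1 true true false .pnn 0 1 1 (qsf 0 536870912 536870912 536870912 1) ndF6q0 ndF7q1 pcF1 Cut.none Ext.none)

def k0_pm_011 : ∃ t, chk3 f_pm_011 t 1 1 1 = true :=
  ⟨(l 3), by decide +kernel⟩

theorem c_pm_011 : CertFX 0 536870912 536870912 536870912 1046898278 26843546 true true false .pnn 0 1 1
    ndF6q0 ndF7q1 pcF1 Cut.none Ext.none :=
  certFX1 (fam := true) (s1 := true) (s2 := false) (a := 0) (b := 1) (c := 1) (cn := .pnn) (n1 := ndF6q0) (n2 := ndF7q1) (pc := pcF1) (cut := Cut.none) (xt := Ext.none) (P1 := 0) (W1 := 536870912) (P2 := 536870912) (W2 := 536870912) (P3 := 1046898278) (W3 := 26843546)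
    rfl (fun _ => rfl) k0_pm_011

noncomputable def f_pm_012 : ℕ → ℕ → ℕ → ℕ → Bool := onCell 1073741824 536870912 536870912 536870912 1046898278 26843546
    (rowFX 2 true true false .pnp 0 1 2 (qsf 0 536870912 536870912 536870912 2) ndF6q0 ndF7q1 pcF2 Cut.none Ext.none)

def k0_pm_012 : ∃ t, chk3 f_pm_012 t 1 1 1 = true :=
  ⟨(a (a (l 3) (b (a (a (a (l 3) (b (l 2) (a (l 3) (c (a (l 16457400) (a (l 16457400) (b (l 16646024) (l 16255144)))) (a (l 16449088) (a (l 16449088) (b (l 16537760) (l 16241584)))))))) (b (l 2) (l 16453240))) (b (l 2) (l 16453240))) (a (a (a (l 3) (a (l 3) (a (l 3) (a (b (b (l 15782128) (l 15212584)) (l 3)) (b (c (b (l 15794880) (l 15232640)) (b (l 15769368) (l 15192520))) (b (c (l 14595928) (l 14539280)) (b (c (l 14169896) (l 14157048)) (c (l 13982048) (c (l 13950848) (l 13944848)))))))))) (b (l 15504608) (b (l 14551008) (b (l 13998280) (l 13873664))))) (b (l 15483632) (b (l 14550992) (c (l 14009016) (l 13828008))))))) (b (b (l 2) (l 16453240))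 (b (b (l 15782128) (l 15212584)) (b (a (l 14550992) (l 14550992)) (a (c (l 13998896) (l 13985328)) (l 14000792)))))), by decide +kernel⟩

theorem c_pm_012 : CertFX 0 536870912 536870912 536870912 1046898278 26843546 true true false .pnp 0 1 2
    ndF6q0 ndF7q1 pcF2 Cut.none Ext.none :=
  certFX2 (fam := true) (s1 := true) (s2 := false) (a := 0) (b := 1) (c := 2) (cn := .pnp) (n1 := ndF6q0) (n2 := ndF7q1) (pc := pcF2) (cut := Cut.none) (xt := Ext.none) (P1 := 0) (W1 := 536870912) (P2 := 536870912) (W2 := 536870912) (P3 := 1046898278) (W3 := 26843546)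
    rfl (fun _ => rfl) k0_pm_012

noncomputable def f_pm_022 : ℕ → ℕ → ℕ → ℕ → Bool := onCell 0 536870912 1073741824 536870912 1046898278 26843546
    (rowFX 1 true true false .pp 0 2 2 (qsf 0 536870912 1073741824 536870912 2) ndF6q0 ndF7q2 pcF2 Cut.none Ext.none)

def k0_pm_022 : ∃ t, chk3 f_pm_022 t 1 4 1 = true :=
  ⟨(l 3), by decide +kernel⟩

def k1_pm_022 : ∃ t, chk3 f_pm_022 t 2 5 1 = true :=
  ⟨(b (b (b (l 3) (b (l 3) (b (l 3) (a (a (a (b (l 3) (c (c (a (a (l 15893984) (l 15739992)) (a (l 15701320) (l 15600992))) (a (a (l 15877952) (a (l 15798120) (l 15759176))) (l 15539968))) (b (b (b (a (c (l 15701112) (l 15790912)) (l 15576360)) (a (c (a (l 15860304) (l 15759176)) (a (a (l 15852400) (l 15821840)) (l 15737848))) (l 15578984))) (a (a (l 15753032) (l 15754704)) (l 15582928))) (a (a (l 15760448) (l 15762296)) (l 15590800))))) (b (l 3) (b (b (b (c (l 15276888) (l 15233392)) (c (a (l 15393960) (l 15171024)) (l 15172888))) (c (l 15282328) (l 15239544))) (l 15146792))))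 (b (l 3) (c (a (c (l 14860440) (l 14864560)) (c (l 14424032) (l 14437848))) (c (a (l 14848936) (l 14446688)) (a (a (l 14924600) (l 14722688)) (l 14421704)))))) (a (b (l 3) (c (l 13915904) (a (c (l 14038544) (a (l 14125912) (l 13921520))) (l 13679112)))) (l 1)))))) (a (a (a (a (c (a (l 16038720) (l 15941848)) (a (c (l 16022456) (l 15990544)) (l 15923432))) (c (l 15803456) (l 15760944))) (c (l 15467568) (l 15424320))) (a (c (l 15007232) (l 14989992)) (c (l 14618200) (l 14584576)))) (a (c (l 14009152) (a (l 14220560) (l 13835112))) (c (l 13418560) (l 13331480))))) (a (a (a (a (c (a (l 16392040) (l 16082680)) (a (c (l 16384360) (l 16211368)) (l 16200864))) (c (b (l 16084352) (l 16317808)) (l 16175584))) (c (b (l 15784496) (l 16060248)) (l 15809448))) (a (c (l 15505152) (l 15473720)) (b (c (l 14901640) (l 14881408)) (l 15225832)))) (a (c (a (b (l 14537360) (l 14826808)) (b (l 14147704) (l 14461568))) (a (l 14691072) (b (l 14136288) (l 14423504)))) (c (a (l 13950176) (l 13637056))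 (a (b (l 13749352) (l 14056888)) (l 13582088)))))), by decide +kernel⟩

def k2_pm_022 : ∃ t, chk3 f_pm_022 t 3 5 1 = true :=
  ⟨(b (l 1) (a (c (l 13023616) (l 12758352)) (l 1))), by decide +kernel⟩

def k3_pm_022 : ∃ t, chk3 f_pm_022 t 1 3 1 = true :=
  ⟨(a (a (b (a (a (b (a (c (a (l 16304272) (l 16390160)) (a (l 16301664) (l 16382040))) (c (l 16493240) (l 16518120))) (c (a (l 15899192) (l 16122504)) (a (a (l 15982064) (l 16029600)) (l 16133928)))) (b (b (l 16183560) (l 16506880)) (c (l 16350744) (l 16356744)))) (b (a (b (l 15945280) (l 16194816)) (l 15714768)) (a (l 16510448) (l 16243200)))) (a (a (c (a (l 15928584) (l 16046008)) (b (l 15825536) (l 15993312))) (b (l 16177856) (l 16172408))) (b (a (l 16386824) (l 16606768)) (l 16400168)))) (b (b (a (c (a (l 15346040) (l 14977496)) (l 15100696)) (c (a (l 14574320) (l 14205664)) (a (l 14546304) (l 14194576)))) (a (b (l 15625792) (l 15915616)) (c (a (l 15230272) (l 14885272)) (l 15013808)))) (a (b (l 16232136) (l 16665984))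 (b (l 15687176) (l 16233480))))) (b (a (b (a (c (l 13790656) (b (l 13582024) (l 13878120))) (l 13018184)) (a (c (b (l 14205608) (l 14540136)) (b (l 14194520) (l 14510928))) (c (l 13790656) (l 13748624)))) (b (l 1) (c (l 13023616) (l 12926120)))) (a (b (a (c (l 15066192) (l 14999096)) (c (l 14364792) (l 14379712))) (a (l 15676168) (c (l 15066192) (l 14999096)))) (b (a (c (l 13790656) (l 13748624)) (l 13227904)) (a (c (l 14385760) (l 14379712)) (l 13612352)))))), by decide +kernel⟩

theorem s4_pm_022 : ∃ t, chk3 f_pm_022 t 1 5 1 = true := ex3_a k1_pm_022 k2_pm_022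

theorem s5_pm_022 : ∃ t, chk3 f_pm_022 t 1 2 1 = true := ex3_b k0_pm_022 s4_pm_022

theorem s6_pm_022 : ∃ t, chk3 f_pm_022 t 1 1 1 = true := ex3_b s5_pm_022 k3_pm_022

theorem c_pm_022 : CertFX 0 536870912 1073741824 536870912 1046898278 26843546 true true false .pp 0 2 2
    ndF6q0 ndF7q2 pcF2 Cut.none Ext.none :=
  certFX1 (fam := true) (s1 := true) (s2 := false) (a := 0) (b := 2) (c := 2) (cn := .pp) (n1 := ndF6q0) (n2 := ndF7q2) (pc := pcF2) (cut := Cut.none) (xt := Ext.none) (P1 := 0) (W1 := 536870912) (P2 := 1073741824) (W2 := 536870912) (P3 := 1046898278) (W3 := 26843546)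
    rfl (fun _ => rfl) s6_pm_022

noncomputable def f_pm_023 : ℕ → ℕ → ℕ → ℕ → Bool := onCell 1610612736 536870912 1073741824 536870912 1046898278 26843546
    (rowFX 2 true true false .up 0 2 3 (qsf 0 536870912 1073741824 536870912 3) ndF6q0 ndF7q2 pcF3 Cut.none Ext.none)

def k0_pm_023 : ∃ t, chk3 f_pm_023 t 1 1 1 = true :=
  ⟨(b (a (b (b (a (l 14033576) (l 2)) (l 14493808)) (a (l 15424512) (l 15676168))) (a (b (l 2) (l 15676200)) (l 2))) (b (a (a (b (l 16465752) (l 16703144)) (l 16623560)) (a (l 16623600) (a (a (l 16624616) (l 2)) (l 2)))) (a (a (b (a (l 16491960) (l 16673864)) (a (b (l 16317736) (a (l 16107864) (l 16251760))) (l 16491960))) (l 16714184)) (a (l 16777160) (a (a (l 16776640) (l 16759512)) (a (l 16760208) (a (l 16724104) (l 4)))))))), by decide +kernel⟩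

theorem c_pm_023 : CertFX 0 536870912 1073741824 536870912 1046898278 26843546 true true false .up 0 2 3
    ndF6q0 ndF7q2 pcF3 Cut.none Ext.none :=
  certFX2 (fam := true) (s1 := true) (s2 := false) (a := 0) (b := 2) (c := 3) (cn := .up) (n1 := ndF6q0) (n2 := ndF7q2) (pc := pcF3) (cut := Cut.none) (xt := Ext.none) (P1 := 0) (W1 := 536870912) (P2 := 1073741824) (W2 := 536870912) (P3 := 1046898278) (W3 := 26843546)
    rfl (fun _ => rfl) k0_pm_023

noncomputable def f_pm_033 : ℕ → ℕ → ℕ → ℕ → Bool := onCell 0 536870912 0 1230186008 1046898278 26843546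
    (rowFX 0 true true false .pnn 0 3 3 (qsf 0 536870912 0 1230186008 3) ndF6q0 ndF7q3 pcF3 Cut.none Ext.none)

def k0_pm_033 : ∃ t, chk3 f_pm_033 t 1 1 1 = true :=
  ⟨(b (l 4) (b (a (a (b (a (b (l 4) (l 4)) (l 4)) (a (c (a (b (l 16023368) (l 16023384)) (b (l 16174736) (l 16174744))) (a (b (l 16014264) (l 16014280)) (b (l 16173624) (l 16173632)))) (b (l 4) (c (a (l 16339120) (l 16468624)) (a (l 16327528) (l 16460528)))))) (b (l 4) (a (b (l 4) (l 4)) (l 4)))) (l 4)) (a (b (b (a (a (a (c (l 16023392) (l 16014280)) (l 16172408)) (c (a (l 16339136) (l 16469072)) (a (l 16327544) (l 16461072)))) (a (c (a (l 16562024) (l 16647760)) (a (l 16556432) (l 16643984))) (a (b (l 4) (l 16730408)) (l 4)))) (a (a (a (l 16017960) (l 16172408)) (b (l 16396760) (l 16396768))) (a (c (l 16606808) (l 16602376)) (c (b (l 16751288) (l 16756160)) (b (l 16750144) (l 16755632)))))) (a (a (b (a (c (l 16023392) (l 16014280)) (l 16172408)) (a (c (l 16023392) (l 16014280)) (l 16172408))) (b (l 16396768)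 (l 16396768))) (b (c (a (l 16606832) (l 16755992)) (a (l 16581440) (l 16755440))) (l 16673864)))) (b (a (a (b (l 4) (b (l 4) (a (l 16771520) (l 4)))) (l 4)) (l 2)) (a (b (a (b (a (l 16776624) (l 16771368)) (a (l 16777168) (l 16775648))) (b (l 4) (a (l 16771376) (b (l 4) (l 16767232))))) (a (b (a (l 16777168) (l 16777160)) (l 16777184)) (b (a (l 16775240) (l 16771552)) (a (l 16777160) (l 16775560))))) (b (l 4) (a (b (a (b (l 4) (l 16767712)) (l 4)) (a (b (l 16770528) (l 16774808)) (b (l 16757128) (l 16768272)))) (b (l 4) (a (b (l 4) (a (l 16757528) (l 4))) (l 4)))))))))), by decide +kernel⟩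

theorem c_pm_033 : CertFX 0 536870912 0 1230186008 1046898278 26843546 true true false .pnn 0 3 3
    ndF6q0 ndF7q3 pcF3 Cut.none Ext.none :=
  certFX0 (fam := true) (s1 := true) (s2 := false) (a := 0) (b := 3) (c := 3) (cn := .pnn) (n1 := ndF6q0) (n2 := ndF7q3) (pc := pcF3) (cut := Cut.none) (xt := Ext.none) (P1 := 0) (W1 := 536870912) (P2 := 0) (W2 := 1230186008) (P3 := 1046898278) (W3 := 26843546)
    rfl k0_pm_033

noncomputable def f_pm_101 : ℕ → ℕ → ℕ → ℕ → Bool := onCell 536870912 469762048 536870912 536870912 1046898278 26843546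
    (rowFX 1 true true false .npn 1 0 1 (qsf 536870912 469762048 0 536870912 1) ndF6q1 ndF7q0 pcF1 Cut.none Ext.none)

def k0_pm_101 : ∃ t, chk3 f_pm_101 t 1 1 1 = true :=
  ⟨(l 3), by decide +kernel⟩

theorem c_pm_101 : CertFX 536870912 469762048 0 536870912 1046898278 26843546 true true false .npn 1 0 1
    ndF6q1 ndF7q0 pcF1 Cut.none Ext.none :=
  certFX1 (fam := true) (s1 := true) (s2 := false) (a := 1) (b := 0) (c := 1) (cn := .npn) (n1 := ndF6q1) (n2 := ndF7q0) (pc := pcF1) (cut := Cut.none) (xt := Ext.none) (P1 := 536870912) (W1 := 469762048) (P2 := 0) (W2 := 536870912) (P3 := 1046898278) (W3 := 26843546)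
    rfl (fun _ => rfl) k0_pm_101

noncomputable def f_pm_102 : ℕ → ℕ → ℕ → ℕ → Bool := onCell 536870912 469762048 1073741824 536870912 1046898278 26843546
    (rowFX 1 true true false .npp 1 0 2 (qsf 536870912 469762048 0 536870912 2) ndF6q1 ndF7q0 pcF2 Cut.none Ext.none)

def k0_pm_102 : ∃ t, chk3 f_pm_102 t 1 1 1 = true :=
  ⟨(a (b (b (l 3) (a (l 2) (b (b (b (l 3) (c (b (l 16777216) (b (l 16777216) (b (l 16775560) (l 16773464)))) (b (l 16777216) (b (l 16777216) (b (l 16775512) (c (l 16773392) (l 16773344))))))) (l 16773704)) (l 16776864)))) (l 2)) (b (b (l 3) (b (b (b (b (a (l 3) (a (l 3) (c (l 14972416) (l 14938312)))) (a (a (l 3) (a (l 16649800) (l 16203696))) (a (c (l 15587624) (l 15556728)) (c (l 14951440) (l 14938304))))) (b (a (a (b (l 16777216) (l 16777216)) (b (l 16346256) (c (l 16434592) (l 16425688)))) (a (b (l 15572176) (c (l 15588024) (l 15557136))) (c (c (l 14980480) (l 14867544)) (b (l 14938416) (l 14772816))))) (a (b (a (c (l 16776696) (l 16776680)) (c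 (l 16288960) (b (l 16425792) (l 16426904)))) (a (b (b (l 16775880) (l 16772440)) (l 16765616)) (a (l 16655872) (l 16212288)))) (b (a (c (l 15423656) (b (l 15558440) (l 15562480))) (c (l 14983448) (l 14949696))) (a (l 15438824) (c (a (l 15220952) (l 14818520)) (l 14855528))))))) (a (a (l 16767176) (l 16437584)) (a (l 15584504) (c (l 14990648) (l 14957152))))) (a (a (l 16775888) (l 16431160)) (a (l 15574000) (c (l 14975232) (l 14941224)))))) (a (a (l 16777216) (b (l 16430144) (l 2))) (a (b (l 15572176) (l 15572176)) (b (c (l 14972416) (l 14938312)) (l 14952496)))))), by decide +kernel⟩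

theorem c_pm_102 : CertFX 536870912 469762048 0 536870912 1046898278 26843546 true true false .npp 1 0 2
    ndF6q1 ndF7q0 pcF2 Cut.none Ext.none :=
  certFX1 (fam := true) (s1 := true) (s2 := false) (a := 1) (b := 0) (c := 2) (cn := .npp) (n1 := ndF6q1) (n2 := ndF7q0) (pc := pcF2) (cut := Cut.none) (xt := Ext.none) (P1 := 536870912) (W1 := 469762048) (P2 := 0) (W2 := 536870912) (P3 := 1046898278) (W3 := 26843546)
    rfl (fun _ => rfl) k0_pm_102

noncomputable def f_pm_112 : ℕ → ℕ → ℕ → ℕ → Bool := onCell 536870912 469762048 1073741824 536870912 1046898278 26843546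
    (rowFX 1 true true false .dn 1 1 2 (qsf 536870912 469762048 536870912 536870912 2) ndF6q1 ndF7q1 pcF2 Cut.none Ext.none)

def k0_pm_112 : ∃ t, chk3 f_pm_112 t 1 1 1 = true :=
  ⟨(a (b (b (l 3) (b (b (b (l 3) (b (a (l 3) (b (l 16777216) (l 16777216))) (c (b (l 16773360) (b (l 178811260103) (a (l 16764992) (l 16773464)))) (b (l 16710352) (b (a (l 16766784) (l 16775512)) (a (a (l 16751760) (l 16776776)) (l 253973456007))))))) (a (l 16720872) (l 16773704))) (a (l 16547704) (l 16776512)))) (b (a (a (l 15693136) (l 16162736)) (b (l 16700416) (l 16475808))) (a (b (a (l 14792472) (l 15396256)) (a (l 14276416) (l 14754536))) (a (l 15582608) (l 16048408))))) (b (b (l 1) (b (l 1) (a (l 612065556135) (l 1)))) (a (b (a (l 16769912) (l 16430144)) (a (l 16410848) (l 16297376))) (a (b (l 15572176) (l 15551376)) (b (l 1) (l 14952496)))))), by decide +kernel⟩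

theorem c_pm_112 : CertFX 536870912 469762048 536870912 536870912 1046898278 26843546 true true false .dn 1 1 2
    ndF6q1 ndF7q1 pcF2 Cut.none Ext.none :=
  certFX1 (fam := true) (s1 := true) (s2 := false) (a := 1) (b := 1) (c := 2) (cn := .dn) (n1 := ndF6q1) (n2 := ndF7q1) (pc := pcF2) (cut := Cut.none) (xt := Ext.none) (P1 := 536870912) (W1 := 469762048) (P2 := 536870912) (W2 := 536870912) (P3 := 1046898278) (W3 := 26843546)
    rfl (fun _ => rfl) k0_pm_112

noncomputable def f_pm_113 : ℕ → ℕ → ℕ → ℕ → Bool := onCell 536870912 469762048 536870912 536870912 1046898278 26843546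
    (rowFX 0 true true false .nn 1 1 3 (qsf 536870912 469762048 536870912 536870912 3) ndF6q1 ndF7q1 pcF3 Cut.none Ext.none)

def k0_pm_113 : ∃ t, chk3 f_pm_113 t 1 1 1 = true :=
  ⟨(b (a (l 1) (a (b (l 1) (l 16288400)) (b (a (l 15572176) (l 14952496)) (a (l 15258080) (l 14641464))))) (a (b (l 15420720) (b (l 14550992) (l 13791080))) (a (b (l 15344144) (b (l 14393912) (l 13846160))) (b (a (l 14351032) (l 13761280)) (a (l 13247248) (b (l 12932232) (b (l 12629296) (l 12438928)))))))), by decide +kernel⟩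

theorem c_pm_113 : CertFX 536870912 469762048 536870912 536870912 1046898278 26843546 true true false .nn 1 1 3
    ndF6q1 ndF7q1 pcF3 Cut.none Ext.none :=
  certFX0 (fam := true) (s1 := true) (s2 := false) (a := 1) (b := 1) (c := 3) (cn := .nn) (n1 := ndF6q1) (n2 := ndF7q1) (pc := pcF3) (cut := Cut.none) (xt := Ext.none) (P1 := 536870912) (W1 := 469762048) (P2 := 536870912) (W2 := 536870912) (P3 := 1046898278) (W3 := 26843546)
    rfl k0_pm_113

noncomputable def f_pm_123 : ℕ → ℕ → ℕ → ℕ → Bool := onCell 1610612736 536870912 1073741824 536870912 1046898278 26843546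
    (rowFX 2 true true false .npn 1 2 3 (qsf 536870912 469762048 1073741824 536870912 3) ndF6q1 ndF7q2 pcF3 Cut.none Ext.none)

def k0_pm_123 : ∃ t, chk3 f_pm_123 t 1 1 1 = true :=
  ⟨(a (b (b (b (a (l 14033576) (l 14033576)) (l 605082295735)) (a (l 660918941703) (l 15676168))) (b (a (l 1) (l 16623560)) (l 1))) (a (b (b (b (a (l 13990040) (l 13689816)) (l 14629440)) (l 15676200)) (b (l 16623600) (l 16777160))) (a (b (b (b (b (l 13067712) (l 13966656)) (a (l 14646752) (l 14810184))) (a (l 15677424) (l 15729688))) (b (a (l 16624616) (l 16637360)) (a (l 16776640) (l 16759512)))) (b (a (b (b (c (l 14587424) (l 14215584)) (l 15190240)) (b (l 15612136) (l 15989120))) (b (a (b (l 14624144) (l 15679056)) (a (b (l 14821504) (l 16049424)) (a (b (l 14958128) (l 16253656)) (b (c (l 15620496) (l 14530736)) (a (l 16315760) (l 16394896)))))) (a (l 16093360) (a (l 16184512) (a (l 16202816) (b (l 16342136) (l 4))))))) (b (a (l 16450872) (a (l 16582160) (a (l 16557096) (l 4)))) (a (l 16760208)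 (a (l 16724104) (l 4)))))))), by decide +kernel⟩

theorem c_pm_123 : CertFX 536870912 469762048 1073741824 536870912 1046898278 26843546 true true false .npn 1 2 3
    ndF6q1 ndF7q2 pcF3 Cut.none Ext.none :=
  certFX2 (fam := true) (s1 := true) (s2 := false) (a := 1) (b := 2) (c := 3) (cn := .npn) (n1 := ndF6q1) (n2 := ndF7q2) (pc := pcF3) (cut := Cut.none) (xt := Ext.none) (P1 := 536870912) (W1 := 469762048) (P2 := 1073741824) (W2 := 536870912) (P3 := 1046898278) (W3 := 26843546)
    rfl (fun _ => rfl) k0_pm_123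

noncomputable def f_pm_133 : ℕ → ℕ → ℕ → ℕ → Bool := onCell 536870912 469762048 0 1230186008 1046898278 26843546
    (rowFX 0 true true false .dn 1 3 3 (qsf 536870912 469762048 0 1230186008 3) ndF6q1 ndF7q3 pcF3 Cut.none Ext.none)

def k0_pm_133 : ∃ t, chk3 f_pm_133 t 1 1 1 = true :=
  ⟨(b (l 2) (b (l 2) (l 4))), by decide +kernel⟩

theorem c_pm_133 : CertFX 536870912 469762048 0 1230186008 1046898278 26843546 true true false .dn 1 3 3
    ndF6q1 ndF7q3 pcF3 Cut.none Ext.none :=
  certFX0 (fam := true) (s1 := true) (s2 := false) (a := 1) (b := 3) (c := 3) (cn := .dn) (n1 := ndF6q1) (n2 := ndF7q3) (pc := pcF3) (cut := Cut.none) (xt := Ext.none) (P1 := 536870912) (W1 := 469762048) (P2 := 0) (W2 := 1230186008) (P3 := 1046898278) (W3 := 26843546)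
    rfl k0_pm_133

noncomputable def f_pm_202 : ℕ → ℕ → ℕ → ℕ → Bool := onCell 1073741824 536870912 1073741824 536870912 1046898278 26843546
    (rowFX 1 true true false .pp 2 0 2 (qsf 1073741824 536870912 0 536870912 2) ndF6q2 ndF7q0 pcF2 Cut.none Ext.none)

def k0_pm_202 : ∃ t, chk3 f_pm_202 t 1 1 1 = true :=
  ⟨(b (b (a (a (b (b (a (a (c (b (l 15089440) (l 14895072)) (b (c (l 15054696) (l 14989128)) (l 14841920))) (b (l 1) (c (l 14970960) (l 383355176119)))) (l 1)) (a (c (b (c (l 14743440) (l 14715792)) (a (l 14508912) (l 14557680))) (a (b (l 14643856) (l 14448904)) (b (l 14708104) (l 14499952)))) (a (c (l 14680288) (l 14627848)) (l 1)))) (a (b (c (a (l 14223304) (l 14270376)) (a (l 14092528) (a (l 14185592) (l 14218776)))) (a (c (l 13863688) (b (l 13872896) (l 13694552))) (l 13875568))) (b (a (a (l 14286976) (l 14253408)) (l 14048912)) (a (l 13915928) (l 13701616))))) (a (b (l 1) (a (b (l 1) (a (l 13518784) (l 1))) (l 1))) (l 1))) (l 1)) (a (b (a (a (b (b (a (c (l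 13614584) (l 13527048)) (l 13632880)) (a (a (c (l 13757800) (l 13672368)) (l 13743712)) (l 13800536))) (a (c (l 14397312) (l 14330360)) (l 14433224))) (b (b (a (l 13674768) (l 13462616)) (a (l 13841664) (l 13628736))) (a (l 14471072) (l 14254544)))) (a (b (b (a (l 13352176) (l 1)) (a (l 13517912) (l 14098608))) (a (l 14077136) (l 14717512))) (b (l 1) (a (l 15342712) (l 1))))) (a (a (b (l 15174288) (l 15560824)) (b (a (l 15242720) (l 15021616)) (l 15511520))) (a (b (a (l 14902232) (l 15474752)) (a (l 15280936) (l 15850792))) (b (a (l 15990296) (l 16405760)) (a (l 16468424) (l 16776264)))))) (b (l 1) (b (l 1) (a (l 16776712) (l 1)))))) (a (a (b (a (l 15561360) (b (l 15512056) (l 15512056))) (a (l 15561360) (l 15512056))) (a (b (a (b (l 15281464) (l 15281464)) (l 15851320)) (a (l 15281464) (l 15851320))) (b (a (l 16385064) (l 16776784)) (l 16605992)))) (b (c (l 16777216) (l 16777216)) (a (l 16777216) (l 16777216))))), by decide +kernel⟩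

theorem c_pm_202 : CertFX 1073741824 536870912 0 536870912 1046898278 26843546 true true false .pp 2 0 2
    ndF6q2 ndF7q0 pcF2 Cut.none Ext.none :=
  certFX1 (fam := true) (s1 := true) (s2 := false) (a := 2) (b := 0) (c := 2) (cn := .pp) (n1 := ndF6q2) (n2 := ndF7q0) (pc := pcF2) (cut := Cut.none) (xt := Ext.none) (P1 := 1073741824) (W1 := 536870912) (P2 := 0) (W2 := 536870912) (P3 := 1046898278) (W3 := 26843546)
    rfl (fun _ => rfl) k0_pm_202

noncomputable def f_pm_203 : ℕ → ℕ → ℕ → ℕ → Bool := onCell 1073741824 536870912 1610612736 536870912 1046898278 26843546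
    (rowFX 1 true true false .up 2 0 3 (qsf 1073741824 536870912 0 536870912 3) ndF6q2 ndF7q0 pcF3 Cut.none Ext.none)

def k0_pm_203 : ∃ t, chk3 f_pm_203 t 1 1 1 = true :=
  ⟨(a (b (a (b (l 15533936) (l 15533936)) (b (a (l 15572896) (l 16626968)) (a (l 15426096) (b (l 16626968) (l 16626968))))) (b (a (l 2) (b (a (l 2) (l 16626968)) (l 2))) (l 2))) (b (b (a (l 16777216) (b (l 16777216) (l 16777216))) (c (a (l 16777216) (l 16777216)) (a (l 16777216) (l 16777216)))) (b (b (c (l 16777208) (l 16777208)) (c (l 16777184) (l 16777184))) (l 4)))), by decide +kernel⟩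

theorem c_pm_203 : CertFX 1073741824 536870912 0 536870912 1046898278 26843546 true true false .up 2 0 3
    ndF6q2 ndF7q0 pcF3 Cut.none Ext.none :=
  certFX1 (fam := true) (s1 := true) (s2 := false) (a := 2) (b := 0) (c := 3) (cn := .up) (n1 := ndF6q2) (n2 := ndF7q0) (pc := pcF3) (cut := Cut.none) (xt := Ext.none) (P1 := 1073741824) (W1 := 536870912) (P2 := 0) (W2 := 536870912) (P3 := 1046898278) (W3 := 26843546)
    rfl (fun _ => rfl) k0_pm_203

noncomputable def f_pm_213 : ℕ → ℕ → ℕ → ℕ → Bool := onCell 1073741824 536870912 1610612736 536870912 1046898278 26843546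
    (rowFX 1 true true false .pnn 2 1 3 (qsf 1073741824 536870912 536870912 536870912 3) ndF6q2 ndF7q1 pcF3 Cut.none Ext.none)

def k0_pm_213 : ∃ t, chk3 f_pm_213 t 1 1 1 = true :=
  ⟨(a (b (a (b (l 15533936) (a (l 15402304) (l 15491504))) (b (a (l 15572896) (l 1)) (a (l 15426096) (l 587369528343)))) (b (a (b (a (l 15051200) (l 15398904)) (a (l 14841904) (l 15365720))) (b (a (l 15564896) (l 16626968)) (a (l 15588184) (b (l 16629312) (l 16648144))))) (b (b (a (a (l 14772552) (l 15485888)) (a (l 15714904) (l 16699616))) (a (a (b (l 14826936) (l 14948992)) (l 15706960)) (l 4))) (a (a (b (b (l 15142736) (l 4)) (l 4)) (l 4)) (l 4))))) (b (b (l 1) (c (l 613140135943) (l 658237292471))) (b (b (c (l 16777208) (l 16777208)) (c (l 16777184) (l 16777184))) (l 4)))), by decide +kernel⟩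

theorem c_pm_213 : CertFX 1073741824 536870912 536870912 536870912 1046898278 26843546 true true false .pnn 2 1 3
    ndF6q2 ndF7q1 pcF3 Cut.none Ext.none :=
  certFX1 (fam := true) (s1 := true) (s2 := false) (a := 2) (b := 1) (c := 3) (cn := .pnn) (n1 := ndF6q2) (n2 := ndF7q1) (pc := pcF3) (cut := Cut.none) (xt := Ext.none) (P1 := 1073741824) (W1 := 536870912) (P2 := 536870912) (W2 := 536870912) (P3 := 1046898278) (W3 := 26843546)
    rfl (fun _ => rfl) k0_pm_213

noncomputable def f_pm_303 : ℕ → ℕ → ℕ → ℕ → Bool := onCell 0 1230186008 1610612736 536870912 1046898278 26843546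
    (rowFX 1 true true false .npn 3 0 3 (qsf 0 1230186008 0 536870912 3) ndF6q3 ndF7q0 pcF3 Cut.none Ext.none)

def k0_pm_303 : ∃ t, chk3 f_pm_303 t 1 1 1 = true :=
  ⟨(a (l 4) (b (a (b (l 1) (l 4)) (b (c (l 16777216) (a (l 1) (l 16777216))) (c (l 16777216) (l 16777216)))) (b (a (l 4) (l 4)) (l 4)))), by decide +kernel⟩

theorem c_pm_303 : CertFX 0 1230186008 0 536870912 1046898278 26843546 true true false .npn 3 0 3
    ndF6q3 ndF7q0 pcF3 Cut.none Ext.none :=
  certFX1 (fam := true) (s1 := true) (s2 := false) (a := 3) (b := 0) (c := 3) (cn := .npn) (n1 := ndF6q3) (n2 := ndF7q0) (pc := pcF3) (cut := Cut.none) (xt := Ext.none) (P1 := 0) (W1 := 1230186008) (P2 := 0) (W2 := 536870912) (P3 := 1046898278) (W3 := 26843546)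
    rfl (fun _ => rfl) k0_pm_303

noncomputable def f_pm_313 : ℕ → ℕ → ℕ → ℕ → Bool := onCell 0 1230186008 536870912 536870912 1046898278 26843546
    (rowFX 0 true true false .dn 3 1 3 (qsf 0 1230186008 536870912 536870912 3) ndF6q3 ndF7q1 pcF3 Cut.none Ext.none)

def k0_pm_313 : ∃ t, chk3 f_pm_313 t 1 1 1 = true :=
  ⟨(a (l 2) (l 4)), by decide +kernel⟩

theorem c_pm_313 : CertFX 0 1230186008 536870912 536870912 1046898278 26843546 true true false .dn 3 1 3
    ndF6q3 ndF7q1 pcF3 Cut.none Ext.none :=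
  certFX0 (fam := true) (s1 := true) (s2 := false) (a := 3) (b := 1) (c := 3) (cn := .dn) (n1 := ndF6q3) (n2 := ndF7q1) (pc := pcF3) (cut := Cut.none) (xt := Ext.none) (P1 := 0) (W1 := 1230186008) (P2 := 536870912) (W2 := 536870912) (P3 := 1046898278) (W3 := 26843546)
    rfl k0_pm_313

noncomputable def f_mm_001 : ℕ → ℕ → ℕ → ℕ → Bool := onCell 0 536870912 0 536870912 1046898278 26843546
    (rowFX 0 true false false .up 0 0 1 (qsf 0 536870912 0 536870912 1) ndF6q0 ndF7q0 pcF1 Cut.none Ext.none)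

def k0_mm_001 : ∃ t, chk3 f_mm_001 t 1 1 1 = true :=
  ⟨(l 4), by decide +kernel⟩

theorem c_mm_001 : CertFX 0 536870912 0 536870912 1046898278 26843546 true false false .up 0 0 1
    ndF6q0 ndF7q0 pcF1 Cut.none Ext.none :=
  certFX0 (fam := true) (s1 := false) (s2 := false) (a := 0) (b := 0) (c := 1) (cn := .up) (n1 := ndF6q0) (n2 := ndF7q0) (pc := pcF1) (cut := Cut.none) (xt := Ext.none) (P1 := 0) (W1 := 536870912) (P2 := 0) (W2 := 536870912) (P3 := 1046898278) (W3 := 26843546)
    rfl k0_mm_001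

noncomputable def f_mm_011 : ℕ → ℕ → ℕ → ℕ → Bool := onCell 0 536870912 536870912 536870912 1046898278 26843546
    (rowFX 0 true false false .pnn 0 1 1 (qsf 0 536870912 536870912 536870912 1) ndF6q0 ndF7q1 pcF1 Cut.none Ext.none)

def k0_mm_011 : ∃ t, chk3 f_mm_011 t 1 1 1 = true :=
  ⟨(l 4), by decide +kernel⟩

theorem c_mm_011 : CertFX 0 536870912 536870912 536870912 1046898278 26843546 true false false .pnn 0 1 1
    ndF6q0 ndF7q1 pcF1 Cut.none Ext.none :=
  certFX0 (fam := true) (s1 := false) (s2 := false) (a := 0) (b := 1) (c := 1) (cn := .pnn) (n1 := ndF6q0) (n2 := ndF7q1) (pc := pcF1) (cut := Cut.none) (xt := Ext.none) (P1 := 0) (W1 := 536870912) (P2 := 536870912) (W2 := 536870912) (P3 := 1046898278) (W3 := 26843546)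
    rfl k0_mm_011

noncomputable def f_mm_012 : ℕ → ℕ → ℕ → ℕ → Bool := onCell 0 536870912 536870912 536870912 1046898278 26843546
    (rowFX 0 true false false .pnp 0 1 2 (qsf 0 536870912 536870912 536870912 2) ndF6q0 ndF7q1 pcF2 Cut.none Ext.none)

def k0_mm_012 : ∃ t, chk3 f_mm_012 t 1 1 1 = true :=
  ⟨(l 4), by decide +kernel⟩

theorem c_mm_012 : CertFX 0 536870912 536870912 536870912 1046898278 26843546 true false false .pnp 0 1 2
    ndF6q0 ndF7q1 pcF2 Cut.none Ext.none :=
  certFX0 (fam := true) (s1 := false) (s2 := false) (a := 0) (b := 1) (c := 2) (cn := .pnp) (n1 := ndF6q0) (n2 := ndF7q1) (pc := pcF2) (cut := Cut.none) (xt := Ext.none) (P1 := 0) (W1 := 536870912) (P2 := 536870912) (W2 := 536870912) (P3 := 1046898278) (W3 := 26843546)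
    rfl k0_mm_012

noncomputable def f_mm_022 : ℕ → ℕ → ℕ → ℕ → Bool := onCell 0 536870912 1073741824 536870912 1046898278 26843546
    (rowFX 0 true false false .pp 0 2 2 (qsf 0 536870912 1073741824 536870912 2) ndF6q0 ndF7q2 pcF2 Cut.none Ext.none)

def k0_mm_022 : ∃ t, chk3 f_mm_022 t 1 1 1 = true :=
  ⟨(l 4), by decide +kernel⟩

theorem c_mm_022 : CertFX 0 536870912 1073741824 536870912 1046898278 26843546 true false false .pp 0 2 2
    ndF6q0 ndF7q2 pcF2 Cut.none Ext.none :=
  certFX0 (fam := true) (s1 := false) (s2 := false) (a := 0) (b := 2) (c := 2) (cn := .pp) (n1 := ndF6q0) (n2 := ndF7q2) (pc := pcF2) (cut := Cut.none) (xt := Ext.none) (P1 := 0) (W1 := 536870912) (P2 := 1073741824) (W2 := 536870912) (P3 := 1046898278) (W3 := 26843546)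
    rfl k0_mm_022

noncomputable def f_mm_023 : ℕ → ℕ → ℕ → ℕ → Bool := onCell 0 536870912 1073741824 536870912 1046898278 26843546
    (rowFX 0 true false false .up 0 2 3 (qsf 0 536870912 1073741824 536870912 3) ndF6q0 ndF7q2 pcF3 Cut.none Ext.none)

def k0_mm_023 : ∃ t, chk3 f_mm_023 t 1 1 1 = true :=
  ⟨(l 4), by decide +kernel⟩

theorem c_mm_023 : CertFX 0 536870912 1073741824 536870912 1046898278 26843546 true false false .up 0 2 3
    ndF6q0 ndF7q2 pcF3 Cut.none Ext.none :=
  certFX0 (fam := true) (s1 := false) (s2 := false) (a := 0) (b := 2) (c := 3) (cn := .up) (n1 := ndF6q0) (n2 := ndF7q2) (pc := pcF3) (cut := Cut.none) (xt := Ext.none) (P1 := 0) (W1 := 536870912) (P2 := 1073741824) (W2 := 536870912) (P3 := 1046898278) (W3 := 26843546)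
    rfl k0_mm_023

noncomputable def f_mm_033 : ℕ → ℕ → ℕ → ℕ → Bool := onCell 0 536870912 0 1230186008 1046898278 26843546
    (rowFX 0 true false false .pnn 0 3 3 (qsf 0 536870912 0 1230186008 3) ndF6q0 ndF7q3 pcF3 Cut.none Ext.none)

def k0_mm_033 : ∃ t, chk3 f_mm_033 t 1 1 1 = true :=
  ⟨(l 4), by decide +kernel⟩

theorem c_mm_033 : CertFX 0 536870912 0 1230186008 1046898278 26843546 true false false .pnn 0 3 3
    ndF6q0 ndF7q3 pcF3 Cut.none Ext.none :=
  certFX0 (fam := true) (s1 := false) (s2 := false) (a := 0) (b := 3) (c := 3) (cn := .pnn) (n1 := ndF6q0) (n2 := ndF7q3) (pc := pcF3) (cut := Cut.none) (xt := Ext.none) (P1 := 0) (W1 := 536870912) (P2 := 0) (W2 := 1230186008) (P3 := 1046898278) (W3 := 26843546)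
    rfl k0_mm_033

noncomputable def f_mm_101 : ℕ → ℕ → ℕ → ℕ → Bool := onCell 536870912 469762048 0 536870912 1046898278 26843546
    (rowFX 0 true false false .npn 1 0 1 (qsf 536870912 469762048 0 536870912 1) ndF6q1 ndF7q0 pcF1 Cut.none Ext.none)

def k0_mm_101 : ∃ t, chk3 f_mm_101 t 1 1 1 = true :=
  ⟨(l 4), by decide +kernel⟩

theorem c_mm_101 : CertFX 536870912 469762048 0 536870912 1046898278 26843546 true false false .npn 1 0 1
    ndF6q1 ndF7q0 pcF1 Cut.none Ext.none :=
  certFX0 (fam := true) (s1 := false) (s2 := false) (a := 1) (b := 0) (c := 1) (cn := .npn) (n1 := ndF6q1) (n2 := ndF7q0) (pc := pcF1) (cut := Cut.none) (xt := Ext.none) (P1 := 536870912) (W1 := 469762048) (P2 := 0) (W2 := 536870912) (P3 := 1046898278) (W3 := 26843546)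
    rfl k0_mm_101

noncomputable def f_mm_102 : ℕ → ℕ → ℕ → ℕ → Bool := onCell 536870912 469762048 0 536870912 1046898278 26843546
    (rowFX 0 true false false .npp 1 0 2 (qsf 536870912 469762048 0 536870912 2) ndF6q1 ndF7q0 pcF2 Cut.none Ext.none)

def k0_mm_102 : ∃ t, chk3 f_mm_102 t 1 1 1 = true :=
  ⟨(l 4), by decide +kernel⟩

theorem c_mm_102 : CertFX 536870912 469762048 0 536870912 1046898278 26843546 true false false .npp 1 0 2
    ndF6q1 ndF7q0 pcF2 Cut.none Ext.none :=
  certFX0 (fam := true) (s1 := false) (s2 := false) (a := 1) (b := 0) (c := 2) (cn := .npp) (n1 := ndF6q1) (n2 := ndF7q0) (pc := pcF2) (cut := Cut.none) (xt := Ext.none) (P1 := 536870912) (W1 := 469762048) (P2 := 0) (W2 := 536870912) (P3 := 1046898278) (W3 := 26843546)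
    rfl k0_mm_102

noncomputable def f_mm_112 : ℕ → ℕ → ℕ → ℕ → Bool := onCell 536870912 469762048 536870912 536870912 1046898278 26843546
    (rowFX 0 true false false .dn 1 1 2 (qsf 536870912 469762048 536870912 536870912 2) ndF6q1 ndF7q1 pcF2 Cut.none Ext.none)

def k0_mm_112 : ∃ t, chk3 f_mm_112 t 1 1 1 = true :=
  ⟨(l 4), by decide +kernel⟩

theorem c_mm_112 : CertFX 536870912 469762048 536870912 536870912 1046898278 26843546 true false false .dn 1 1 2
    ndF6q1 ndF7q1 pcF2 Cut.none Ext.none :=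
  certFX0 (fam := true) (s1 := false) (s2 := false) (a := 1) (b := 1) (c := 2) (cn := .dn) (n1 := ndF6q1) (n2 := ndF7q1) (pc := pcF2) (cut := Cut.none) (xt := Ext.none) (P1 := 536870912) (W1 := 469762048) (P2 := 536870912) (W2 := 536870912) (P3 := 1046898278) (W3 := 26843546)
    rfl k0_mm_112

noncomputable def f_mm_113 : ℕ → ℕ → ℕ → ℕ → Bool := onCell 536870912 469762048 536870912 536870912 1046898278 26843546
    (rowFX 0 true false false .nn 1 1 3 (qsf 536870912 469762048 536870912 536870912 3) ndF6q1 ndF7q1 pcF3 Cut.none Ext.none)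

def k0_mm_113 : ∃ t, chk3 f_mm_113 t 1 1 1 = true :=
  ⟨(l 4), by decide +kernel⟩

theorem c_mm_113 : CertFX 536870912 469762048 536870912 536870912 1046898278 26843546 true false false .nn 1 1 3
    ndF6q1 ndF7q1 pcF3 Cut.none Ext.none :=
  certFX0 (fam := true) (s1 := false) (s2 := false) (a := 1) (b := 1) (c := 3) (cn := .nn) (n1 := ndF6q1) (n2 := ndF7q1) (pc := pcF3) (cut := Cut.none) (xt := Ext.none) (P1 := 536870912) (W1 := 469762048) (P2 := 536870912) (W2 := 536870912) (P3 := 1046898278) (W3 := 26843546)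
    rfl k0_mm_113

noncomputable def f_mm_123 : ℕ → ℕ → ℕ → ℕ → Bool := onCell 536870912 469762048 1073741824 536870912 1046898278 26843546
    (rowFX 0 true false false .npn 1 2 3 (qsf 536870912 469762048 1073741824 536870912 3) ndF6q1 ndF7q2 pcF3 Cut.none Ext.none)

def k0_mm_123 : ∃ t, chk3 f_mm_123 t 1 1 1 = true :=
  ⟨(l 4), by decide +kernel⟩

theorem c_mm_123 : CertFX 536870912 469762048 1073741824 536870912 1046898278 26843546 true false false .npn 1 2 3
    ndF6q1 ndF7q2 pcF3 Cut.none Ext.none :=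
  certFX0 (fam := true) (s1 := false) (s2 := false) (a := 1) (b := 2) (c := 3) (cn := .npn) (n1 := ndF6q1) (n2 := ndF7q2) (pc := pcF3) (cut := Cut.none) (xt := Ext.none) (P1 := 536870912) (W1 := 469762048) (P2 := 1073741824) (W2 := 536870912) (P3 := 1046898278) (W3 := 26843546)
    rfl k0_mm_123

noncomputable def f_mm_133 : ℕ → ℕ → ℕ → ℕ → Bool := onCell 536870912 469762048 0 1230186008 1046898278 26843546
    (rowFX 0 true false false .dn 1 3 3 (qsf 536870912 469762048 0 1230186008 3) ndF6q1 ndF7q3 pcF3 Cut.none Ext.none)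

def k0_mm_133 : ∃ t, chk3 f_mm_133 t 1 1 1 = true :=
  ⟨(l 4), by decide +kernel⟩

theorem c_mm_133 : CertFX 536870912 469762048 0 1230186008 1046898278 26843546 true false false .dn 1 3 3
    ndF6q1 ndF7q3 pcF3 Cut.none Ext.none :=
  certFX0 (fam := true) (s1 := false) (s2 := false) (a := 1) (b := 3) (c := 3) (cn := .dn) (n1 := ndF6q1) (n2 := ndF7q3) (pc := pcF3) (cut := Cut.none) (xt := Ext.none) (P1 := 536870912) (W1 := 469762048) (P2 := 0) (W2 := 1230186008) (P3 := 1046898278) (W3 := 26843546)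
    rfl k0_mm_133

noncomputable def f_mm_202 : ℕ → ℕ → ℕ → ℕ → Bool := onCell 1073741824 536870912 0 536870912 1046898278 26843546
    (rowFX 0 true false false .pp 2 0 2 (qsf 1073741824 536870912 0 536870912 2) ndF6q2 ndF7q0 pcF2 Cut.none Ext.none)

def k0_mm_202 : ∃ t, chk3 f_mm_202 t 1 1 1 = true :=
  ⟨(l 4), by decide +kernel⟩

theorem c_mm_202 : CertFX 1073741824 536870912 0 536870912 1046898278 26843546 true false false .pp 2 0 2
    ndF6q2 ndF7q0 pcF2 Cut.none Ext.none :=
  certFX0 (fam := true) (s1 := false) (s2 := false) (a := 2) (b := 0) (c := 2) (cn := .pp) (n1 := ndF6q2) (n2 := ndF7q0) (pc := pcF2) (cut := Cut.none) (xt := Ext.none) (P1 := 1073741824) (W1 := 536870912) (P2 := 0) (W2 := 536870912) (P3 := 1046898278) (W3 := 26843546)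
    rfl k0_mm_202

noncomputable def f_mm_203 : ℕ → ℕ → ℕ → ℕ → Bool := onCell 1073741824 536870912 0 536870912 1046898278 26843546
    (rowFX 0 true false false .up 2 0 3 (qsf 1073741824 536870912 0 536870912 3) ndF6q2 ndF7q0 pcF3 Cut.none Ext.none)

def k0_mm_203 : ∃ t, chk3 f_mm_203 t 1 1 1 = true :=
  ⟨(l 4), by decide +kernel⟩

theorem c_mm_203 : CertFX 1073741824 536870912 0 536870912 1046898278 26843546 true false false .up 2 0 3
    ndF6q2 ndF7q0 pcF3 Cut.none Ext.none :=
  certFX0 (fam := true) (s1 := false) (s2 := false) (a := 2) (b := 0) (c := 3) (cn := .up) (n1 := ndF6q2) (n2 := ndF7q0) (pc := pcF3) (cut := Cut.none) (xt := Ext.none) (P1 := 1073741824) (W1 := 536870912) (P2 := 0) (W2 := 536870912) (P3 := 1046898278) (W3 := 26843546)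
    rfl k0_mm_203

noncomputable def f_mm_213 : ℕ → ℕ → ℕ → ℕ → Bool := onCell 1073741824 536870912 536870912 536870912 1046898278 26843546
    (rowFX 0 true false false .pnn 2 1 3 (qsf 1073741824 536870912 536870912 536870912 3) ndF6q2 ndF7q1 pcF3 Cut.none Ext.none)

def k0_mm_213 : ∃ t, chk3 f_mm_213 t 1 1 1 = true :=
  ⟨(l 4), by decide +kernel⟩

theorem c_mm_213 : CertFX 1073741824 536870912 536870912 536870912 1046898278 26843546 true false false .pnn 2 1 3
    ndF6q2 ndF7q1 pcF3 Cut.none Ext.none :=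
  certFX0 (fam := true) (s1 := false) (s2 := false) (a := 2) (b := 1) (c := 3) (cn := .pnn) (n1 := ndF6q2) (n2 := ndF7q1) (pc := pcF3) (cut := Cut.none) (xt := Ext.none) (P1 := 1073741824) (W1 := 536870912) (P2 := 536870912) (W2 := 536870912) (P3 := 1046898278) (W3 := 26843546)
    rfl k0_mm_213

noncomputable def f_mm_303 : ℕ → ℕ → ℕ → ℕ → Bool := onCell 0 1230186008 0 536870912 1046898278 26843546
    (rowFX 0 true false false .npn 3 0 3 (qsf 0 1230186008 0 536870912 3) ndF6q3 ndF7q0 pcF3 Cut.none Ext.none)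

def k0_mm_303 : ∃ t, chk3 f_mm_303 t 1 1 1 = true :=
  ⟨(l 4), by decide +kernel⟩

theorem c_mm_303 : CertFX 0 1230186008 0 536870912 1046898278 26843546 true false false .npn 3 0 3
    ndF6q3 ndF7q0 pcF3 Cut.none Ext.none :=
  certFX0 (fam := true) (s1 := false) (s2 := false) (a := 3) (b := 0) (c := 3) (cn := .npn) (n1 := ndF6q3) (n2 := ndF7q0) (pc := pcF3) (cut := Cut.none) (xt := Ext.none) (P1 := 0) (W1 := 1230186008) (P2 := 0) (W2 := 536870912) (P3 := 1046898278) (W3 := 26843546)
    rfl k0_mm_303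

noncomputable def f_mm_313 : ℕ → ℕ → ℕ → ℕ → Bool := onCell 0 1230186008 536870912 536870912 1046898278 26843546
    (rowFX 0 true false false .dn 3 1 3 (qsf 0 1230186008 536870912 536870912 3) ndF6q3 ndF7q1 pcF3 Cut.none Ext.none)

def k0_mm_313 : ∃ t, chk3 f_mm_313 t 1 1 1 = true :=
  ⟨(l 4), by decide +kernel⟩

theorem c_mm_313 : CertFX 0 1230186008 536870912 536870912 1046898278 26843546 true false false .dn 3 1 3
    ndF6q3 ndF7q1 pcF3 Cut.none Ext.none :=
  certFX0 (fam := true) (s1 := false) (s2 := false) (a := 3) (b := 1) (c := 3) (cn := .dn) (n1 := ndF6q3) (n2 := ndF7q1) (pc := pcF3) (cut := Cut.none) (xt := Ext.none) (P1 := 0) (W1 := 1230186008) (P2 := 536870912) (W2 := 536870912) (P3 := 1046898278) (W3 := 26843546)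
    rfl k0_mm_313

end Pool.Agent.Strip051.G.IE1.Tab.C.FA67

namespace Pool.Agent.Strip051.G.IE1.Tab.C.FA77

open Pool.Agent.Strip051.PB Pool.Agent.Strip051.PB.T
open Pool.Agent.Strip051.G.IE1.Tab

noncomputable def f_pp_001 : ℕ → ℕ → ℕ → ℕ → Bool := onCell 0 536870912 0 536870912 1046898278 26843546
    (rowFX 0 true true true .up 0 0 1 (qsf 0 536870912 0 536870912 1) ndF7q0 ndF7q0 pcF1 Cut.none Ext.none)

def k0_pp_001 : ∃ t, chk3 f_pp_001 t 1 1 1 = true :=
  ⟨(l 4), by decide +kernel⟩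

theorem c_pp_001 : CertFX 0 536870912 0 536870912 1046898278 26843546 true true true .up 0 0 1
    ndF7q0 ndF7q0 pcF1 Cut.none Ext.none :=
  certFX0 (fam := true) (s1 := true) (s2 := true) (a := 0) (b := 0) (c := 1) (cn := .up) (n1 := ndF7q0) (n2 := ndF7q0) (pc := pcF1) (cut := Cut.none) (xt := Ext.none) (P1 := 0) (W1 := 536870912) (P2 := 0) (W2 := 536870912) (P3 := 1046898278) (W3 := 26843546)
    rfl k0_pp_001

noncomputable def f_pp_011 : ℕ → ℕ → ℕ → ℕ → Bool := onCell 0 536870912 536870912 536870912 1046898278 26843546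
    (rowFX 0 true true true .pnn 0 1 1 (qsf 0 536870912 536870912 536870912 1) ndF7q0 ndF7q1 pcF1 Cut.none Ext.none)

def k0_pp_011 : ∃ t, chk3 f_pp_011 t 1 1 1 = true :=
  ⟨(l 4), by decide +kernel⟩

theorem c_pp_011 : CertFX 0 536870912 536870912 536870912 1046898278 26843546 true true true .pnn 0 1 1
    ndF7q0 ndF7q1 pcF1 Cut.none Ext.none :=
  certFX0 (fam := true) (s1 := true) (s2 := true) (a := 0) (b := 1) (c := 1) (cn := .pnn) (n1 := ndF7q0) (n2 := ndF7q1) (pc := pcF1) (cut := Cut.none) (xt := Ext.none) (P1 := 0) (W1 := 536870912) (P2 := 536870912) (W2 := 536870912) (P3 := 1046898278) (W3 := 26843546)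
    rfl k0_pp_011

noncomputable def f_pp_012 : ℕ → ℕ → ℕ → ℕ → Bool := onCell 0 536870912 536870912 536870912 1046898278 26843546
    (rowFX 0 true true true .pnp 0 1 2 (qsf 0 536870912 536870912 536870912 2) ndF7q0 ndF7q1 pcF2 Cut.none Ext.none)

def k0_pp_012 : ∃ t, chk3 f_pp_012 t 1 1 1 = true :=
  ⟨(l 4), by decide +kernel⟩

theorem c_pp_012 : CertFX 0 536870912 536870912 536870912 1046898278 26843546 true true true .pnp 0 1 2
    ndF7q0 ndF7q1 pcF2 Cut.none Ext.none :=
  certFX0 (fam := true) (s1 := true) (s2 := true) (a := 0) (b := 1) (c := 2) (cn := .pnp) (n1 := ndF7q0) (n2 := ndF7q1) (pc := pcF2) (cut := Cut.none) (xt := Ext.none) (P1 := 0) (W1 := 536870912) (P2 := 536870912) (W2 := 536870912) (P3 := 1046898278) (W3 := 26843546)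
    rfl k0_pp_012

noncomputable def f_pp_022 : ℕ → ℕ → ℕ → ℕ → Bool := onCell 0 536870912 1073741824 536870912 1046898278 26843546
    (rowFX 0 true true true .pp 0 2 2 (qsf 0 536870912 1073741824 536870912 2) ndF7q0 ndF7q2 pcF2 Cut.none Ext.none)

def k0_pp_022 : ∃ t, chk3 f_pp_022 t 1 1 1 = true :=
  ⟨(l 4), by decide +kernel⟩

theorem c_pp_022 : CertFX 0 536870912 1073741824 536870912 1046898278 26843546 true true true .pp 0 2 2
    ndF7q0 ndF7q2 pcF2 Cut.none Ext.none :=
  certFX0 (fam := true) (s1 := true) (s2 := true) (a := 0) (b := 2) (c := 2) (cn := .pp) (n1 := ndF7q0) (n2 := ndF7q2) (pc := pcF2) (cut := Cut.none) (xt := Ext.none) (P1 := 0) (W1 := 536870912) (P2 := 1073741824) (W2 := 536870912) (P3 := 1046898278) (W3 := 26843546)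
    rfl k0_pp_022

noncomputable def f_pp_023 : ℕ → ℕ → ℕ → ℕ → Bool := onCell 0 536870912 1073741824 536870912 1046898278 26843546
    (rowFX 0 true true true .up 0 2 3 (qsf 0 536870912 1073741824 536870912 3) ndF7q0 ndF7q2 pcF3 Cut.none Ext.none)

def k0_pp_023 : ∃ t, chk3 f_pp_023 t 1 1 1 = true :=
  ⟨(l 4), by decide +kernel⟩

theorem c_pp_023 : CertFX 0 536870912 1073741824 536870912 1046898278 26843546 true true true .up 0 2 3
    ndF7q0 ndF7q2 pcF3 Cut.none Ext.none :=
  certFX0 (fam := true) (s1 := true) (s2 := true) (a := 0) (b := 2) (c := 3) (cn := .up) (n1 := ndF7q0) (n2 := ndF7q2) (pc := pcF3) (cut := Cut.none) (xt := Ext.none) (P1 := 0) (W1 := 536870912) (P2 := 1073741824) (W2 := 536870912) (P3 := 1046898278) (W3 := 26843546)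
    rfl k0_pp_023

noncomputable def f_pp_033 : ℕ → ℕ → ℕ → ℕ → Bool := onCell 0 536870912 0 1230186008 1046898278 26843546
    (rowFX 0 true true true .pnn 0 3 3 (qsf 0 536870912 0 1230186008 3) ndF7q0 ndF7q3 pcF3 Cut.none Ext.none)

def k0_pp_033 : ∃ t, chk3 f_pp_033 t 1 1 1 = true :=
  ⟨(l 4), by decide +kernel⟩

theorem c_pp_033 : CertFX 0 536870912 0 1230186008 1046898278 26843546 true true true .pnn 0 3 3
    ndF7q0 ndF7q3 pcF3 Cut.none Ext.none :=
  certFX0 (fam := true) (s1 := true) (s2 := true) (a := 0) (b := 3) (c := 3) (cn := .pnn) (n1 := ndF7q0) (n2 := ndF7q3) (pc := pcF3) (cut := Cut.none) (xt := Ext.none) (P1 := 0) (W1 := 536870912) (P2 := 0) (W2 := 1230186008) (P3 := 1046898278) (W3 := 26843546)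
    rfl k0_pp_033

noncomputable def f_pp_101 : ℕ → ℕ → ℕ → ℕ → Bool := onCell 536870912 536870912 0 536870912 1046898278 26843546
    (rowFX 0 true true true .npn 1 0 1 (qsf 536870912 536870912 0 536870912 1) ndF7q1 ndF7q0 pcF1 Cut.none Ext.none)

def k0_pp_101 : ∃ t, chk3 f_pp_101 t 1 1 1 = true :=
  ⟨(l 4), by decide +kernel⟩

theorem c_pp_101 : CertFX 536870912 536870912 0 536870912 1046898278 26843546 true true true .npn 1 0 1
    ndF7q1 ndF7q0 pcF1 Cut.none Ext.none :=
  certFX0 (fam := true) (s1 := true) (s2 := true) (a := 1) (b := 0) (c := 1) (cn := .npn) (n1 := ndF7q1) (n2 := ndF7q0) (pc := pcF1) (cut := Cut.none) (xt := Ext.none) (P1 := 536870912) (W1 := 536870912) (P2 := 0) (W2 := 536870912) (P3 := 1046898278) (W3 := 26843546)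
    rfl k0_pp_101

noncomputable def f_pp_102 : ℕ → ℕ → ℕ → ℕ → Bool := onCell 536870912 536870912 0 536870912 1046898278 26843546
    (rowFX 0 true true true .npp 1 0 2 (qsf 536870912 536870912 0 536870912 2) ndF7q1 ndF7q0 pcF2 Cut.none Ext.none)

def k0_pp_102 : ∃ t, chk3 f_pp_102 t 1 1 1 = true :=
  ⟨(l 4), by decide +kernel⟩

theorem c_pp_102 : CertFX 536870912 536870912 0 536870912 1046898278 26843546 true true true .npp 1 0 2
    ndF7q1 ndF7q0 pcF2 Cut.none Ext.none :=
  certFX0 (fam := true) (s1 := true) (s2 := true) (a := 1) (b := 0) (c := 2) (cn := .npp) (n1 := ndF7q1) (n2 := ndF7q0) (pc := pcF2) (cut := Cut.none) (xt := Ext.none) (P1 := 536870912) (W1 := 536870912) (P2 := 0) (W2 := 536870912) (P3 := 1046898278) (W3 := 26843546)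
    rfl k0_pp_102

noncomputable def f_pp_112 : ℕ → ℕ → ℕ → ℕ → Bool := onCell 536870912 536870912 536870912 536870912 1046898278 26843546
    (rowFX 0 true true true .dn 1 1 2 (qsf 536870912 536870912 536870912 536870912 2) ndF7q1 ndF7q1 pcF2 Cut.none Ext.none)

def k0_pp_112 : ∃ t, chk3 f_pp_112 t 1 1 1 = true :=
  ⟨(l 4), by decide +kernel⟩

theorem c_pp_112 : CertFX 536870912 536870912 536870912 536870912 1046898278 26843546 true true true .dn 1 1 2
    ndF7q1 ndF7q1 pcF2 Cut.none Ext.none :=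
  certFX0 (fam := true) (s1 := true) (s2 := true) (a := 1) (b := 1) (c := 2) (cn := .dn) (n1 := ndF7q1) (n2 := ndF7q1) (pc := pcF2) (cut := Cut.none) (xt := Ext.none) (P1 := 536870912) (W1 := 536870912) (P2 := 536870912) (W2 := 536870912) (P3 := 1046898278) (W3 := 26843546)
    rfl k0_pp_112

noncomputable def f_pp_113 : ℕ → ℕ → ℕ → ℕ → Bool := onCell 536870912 536870912 536870912 536870912 1046898278 26843546
    (rowFX 0 true true true .nn 1 1 3 (qsf 536870912 536870912 536870912 536870912 3) ndF7q1 ndF7q1 pcF3 Cut.none Ext.none)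

def k0_pp_113 : ∃ t, chk3 f_pp_113 t 1 1 1 = true :=
  ⟨(l 4), by decide +kernel⟩

theorem c_pp_113 : CertFX 536870912 536870912 536870912 536870912 1046898278 26843546 true true true .nn 1 1 3
    ndF7q1 ndF7q1 pcF3 Cut.none Ext.none :=
  certFX0 (fam := true) (s1 := true) (s2 := true) (a := 1) (b := 1) (c := 3) (cn := .nn) (n1 := ndF7q1) (n2 := ndF7q1) (pc := pcF3) (cut := Cut.none) (xt := Ext.none) (P1 := 536870912) (W1 := 536870912) (P2 := 536870912) (W2 := 536870912) (P3 := 1046898278) (W3 := 26843546)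
    rfl k0_pp_113

noncomputable def f_pp_123 : ℕ → ℕ → ℕ → ℕ → Bool := onCell 536870912 536870912 1073741824 536870912 1046898278 26843546
    (rowFX 0 true true true .npn 1 2 3 (qsf 536870912 536870912 1073741824 536870912 3) ndF7q1 ndF7q2 pcF3 Cut.none Ext.none)

def k0_pp_123 : ∃ t, chk3 f_pp_123 t 1 1 1 = true :=
  ⟨(l 4), by decide +kernel⟩

theorem c_pp_123 : CertFX 536870912 536870912 1073741824 536870912 1046898278 26843546 true true true .npn 1 2 3
    ndF7q1 ndF7q2 pcF3 Cut.none Ext.none :=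
  certFX0 (fam := true) (s1 := true) (s2 := true) (a := 1) (b := 2) (c := 3) (cn := .npn) (n1 := ndF7q1) (n2 := ndF7q2) (pc := pcF3) (cut := Cut.none) (xt := Ext.none) (P1 := 536870912) (W1 := 536870912) (P2 := 1073741824) (W2 := 536870912) (P3 := 1046898278) (W3 := 26843546)
    rfl k0_pp_123

noncomputable def f_pp_133 : ℕ → ℕ → ℕ → ℕ → Bool := onCell 536870912 536870912 0 1230186008 1046898278 26843546
    (rowFX 0 true true true .dn 1 3 3 (qsf 536870912 536870912 0 1230186008 3) ndF7q1 ndF7q3 pcF3 Cut.none Ext.none)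

def k0_pp_133 : ∃ t, chk3 f_pp_133 t 1 1 1 = true :=
  ⟨(l 4), by decide +kernel⟩

theorem c_pp_133 : CertFX 536870912 536870912 0 1230186008 1046898278 26843546 true true true .dn 1 3 3
    ndF7q1 ndF7q3 pcF3 Cut.none Ext.none :=
  certFX0 (fam := true) (s1 := true) (s2 := true) (a := 1) (b := 3) (c := 3) (cn := .dn) (n1 := ndF7q1) (n2 := ndF7q3) (pc := pcF3) (cut := Cut.none) (xt := Ext.none) (P1 := 536870912) (W1 := 536870912) (P2 := 0) (W2 := 1230186008) (P3 := 1046898278) (W3 := 26843546)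
    rfl k0_pp_133

noncomputable def f_pp_202 : ℕ → ℕ → ℕ → ℕ → Bool := onCell 1073741824 536870912 0 536870912 1046898278 26843546
    (rowFX 0 true true true .pp 2 0 2 (qsf 1073741824 536870912 0 536870912 2) ndF7q2 ndF7q0 pcF2 Cut.none Ext.none)

def k0_pp_202 : ∃ t, chk3 f_pp_202 t 1 1 1 = true :=
  ⟨(l 4), by decide +kernel⟩

theorem c_pp_202 : CertFX 1073741824 536870912 0 536870912 1046898278 26843546 true true true .pp 2 0 2
    ndF7q2 ndF7q0 pcF2 Cut.none Ext.none :=
  certFX0 (fam := true) (s1 := true) (s2 := true) (a := 2) (b := 0) (c := 2) (cn := .pp) (n1 := ndF7q2) (n2 := ndF7q0) (pc := pcF2) (cut := Cut.none) (xt := Ext.none) (P1 := 1073741824) (W1 := 536870912) (P2 := 0) (W2 := 536870912) (P3 := 1046898278) (W3 := 26843546)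
    rfl k0_pp_202

noncomputable def f_pp_203 : ℕ → ℕ → ℕ → ℕ → Bool := onCell 1073741824 536870912 0 536870912 1046898278 26843546
    (rowFX 0 true true true .up 2 0 3 (qsf 1073741824 536870912 0 536870912 3) ndF7q2 ndF7q0 pcF3 Cut.none Ext.none)

def k0_pp_203 : ∃ t, chk3 f_pp_203 t 1 1 1 = true :=
  ⟨(l 4), by decide +kernel⟩

theorem c_pp_203 : CertFX 1073741824 536870912 0 536870912 1046898278 26843546 true true true .up 2 0 3
    ndF7q2 ndF7q0 pcF3 Cut.none Ext.none :=
  certFX0 (fam := true) (s1 := true) (s2 := true) (a := 2) (b := 0) (c := 3) (cn := .up) (n1 := ndF7q2) (n2 := ndF7q0) (pc := pcF3) (cut := Cut.none) (xt := Ext.none) (P1 := 1073741824) (W1 := 536870912) (P2 := 0) (W2 := 536870912) (P3 := 1046898278) (W3 := 26843546)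
    rfl k0_pp_203

noncomputable def f_pp_213 : ℕ → ℕ → ℕ → ℕ → Bool := onCell 1073741824 536870912 536870912 536870912 1046898278 26843546
    (rowFX 0 true true true .pnn 2 1 3 (qsf 1073741824 536870912 536870912 536870912 3) ndF7q2 ndF7q1 pcF3 Cut.none Ext.none)

def k0_pp_213 : ∃ t, chk3 f_pp_213 t 1 1 1 = true :=
  ⟨(l 4), by decide +kernel⟩

theorem c_pp_213 : CertFX 1073741824 536870912 536870912 536870912 1046898278 26843546 true true true .pnn 2 1 3
    ndF7q2 ndF7q1 pcF3 Cut.none Ext.none :=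
  certFX0 (fam := true) (s1 := true) (s2 := true) (a := 2) (b := 1) (c := 3) (cn := .pnn) (n1 := ndF7q2) (n2 := ndF7q1) (pc := pcF3) (cut := Cut.none) (xt := Ext.none) (P1 := 1073741824) (W1 := 536870912) (P2 := 536870912) (W2 := 536870912) (P3 := 1046898278) (W3 := 26843546)
    rfl k0_pp_213

noncomputable def f_pp_303 : ℕ → ℕ → ℕ → ℕ → Bool := onCell 0 1230186008 0 536870912 1046898278 26843546
    (rowFX 0 true true true .npn 3 0 3 (qsf 0 1230186008 0 536870912 3) ndF7q3 ndF7q0 pcF3 Cut.none Ext.none)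

def k0_pp_303 : ∃ t, chk3 f_pp_303 t 1 1 1 = true :=
  ⟨(l 4), by decide +kernel⟩

theorem c_pp_303 : CertFX 0 1230186008 0 536870912 1046898278 26843546 true true true .npn 3 0 3
    ndF7q3 ndF7q0 pcF3 Cut.none Ext.none :=
  certFX0 (fam := true) (s1 := true) (s2 := true) (a := 3) (b := 0) (c := 3) (cn := .npn) (n1 := ndF7q3) (n2 := ndF7q0) (pc := pcF3) (cut := Cut.none) (xt := Ext.none) (P1 := 0) (W1 := 1230186008) (P2 := 0) (W2 := 536870912) (P3 := 1046898278) (W3 := 26843546)
    rfl k0_pp_303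

noncomputable def f_pp_313 : ℕ → ℕ → ℕ → ℕ → Bool := onCell 0 1230186008 536870912 536870912 1046898278 26843546
    (rowFX 0 true true true .dn 3 1 3 (qsf 0 1230186008 536870912 536870912 3) ndF7q3 ndF7q1 pcF3 Cut.none Ext.none)

def k0_pp_313 : ∃ t, chk3 f_pp_313 t 1 1 1 = true :=
  ⟨(l 4), by decide +kernel⟩

theorem c_pp_313 : CertFX 0 1230186008 536870912 536870912 1046898278 26843546 true true true .dn 3 1 3
    ndF7q3 ndF7q1 pcF3 Cut.none Ext.none :=
  certFX0 (fam := true) (s1 := true) (s2 := true) (a := 3) (b := 1) (c := 3) (cn := .dn) (n1 := ndF7q3) (n2 := ndF7q1) (pc := pcF3) (cut := Cut.none) (xt := Ext.none) (P1 := 0) (W1 := 1230186008) (P2 := 536870912) (W2 := 536870912) (P3 := 1046898278) (W3 := 26843546)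
    rfl k0_pp_313

noncomputable def f_pm_001 : ℕ → ℕ → ℕ → ℕ → Bool := onCell 0 536870912 0 536870912 1046898278 26843546
    (rowFX 0 true true false .up 0 0 1 (qsf 0 536870912 0 536870912 1) ndF7q0 ndF7q0 pcF1 Cut.none Ext.none)

def k0_pm_001 : ∃ t, chk3 f_pm_001 t 1 1 1 = true :=
  ⟨(l 3), by decide +kernel⟩

theorem c_pm_001 : CertFX 0 536870912 0 536870912 1046898278 26843546 true true false .up 0 0 1
    ndF7q0 ndF7q0 pcF1 Cut.none Ext.none :=
  certFX0 (fam := true) (s1 := true) (s2 := false) (a := 0) (b := 0) (c := 1) (cn := .up) (n1 := ndF7q0) (n2 := ndF7q0) (pc := pcF1) (cut := Cut.none) (xt := Ext.none) (P1 := 0) (W1 := 536870912) (P2 := 0) (W2 := 536870912) (P3 := 1046898278) (W3 := 26843546)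
    rfl k0_pm_001

noncomputable def f_pm_011 : ℕ → ℕ → ℕ → ℕ → Bool := onCell 0 536870912 536870912 536870912 1046898278 26843546
    (rowFX 1 true true false .pnn 0 1 1 (qsf 0 536870912 536870912 536870912 1) ndF7q0 ndF7q1 pcF1 Cut.none Ext.none)

def k0_pm_011 : ∃ t, chk3 f_pm_011 t 1 1 1 = true :=
  ⟨(l 3), by decide +kernel⟩

theorem c_pm_011 : CertFX 0 536870912 536870912 536870912 1046898278 26843546 true true false .pnn 0 1 1
    ndF7q0 ndF7q1 pcF1 Cut.none Ext.none :=
  certFX1 (fam := true) (s1 := true) (s2 := false) (a := 0) (b := 1) (c := 1) (cn := .pnn) (n1 := ndF7q0) (n2 := ndF7q1) (pc := pcF1) (cut := Cut.none) (xt := Ext.none) (P1 := 0) (W1 := 536870912) (P2 := 536870912) (W2 := 536870912) (P3 := 1046898278) (W3 := 26843546)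
    rfl (fun _ => rfl) k0_pm_011

noncomputable def f_pm_012 : ℕ → ℕ → ℕ → ℕ → Bool := onCell 1073741824 536870912 536870912 536870912 1046898278 26843546
    (rowFX 2 true true false .pnp 0 1 2 (qsf 0 536870912 536870912 536870912 2) ndF7q0 ndF7q1 pcF2 Cut.none Ext.none)

def k0_pm_012 : ∃ t, chk3 f_pm_012 t 1 2 1 = true :=
  ⟨(a (a (l 3) (a (a (a (l 3) (b (l 2) (a (l 3) (a (b (l 3) (a (l 16248360) (l 16248360))) (a (b (l 16644320) (c (l 16255144) (l 16241584))) (c (b (l 16646024) (l 16255144)) (b (l 16537760) (l 16178664)))))))) (b (l 2) (l 16285472))) (b (l 2) (l 16222560)))) (b (l 2) (a (b (l 2) (l 16248360)) (l 2)))), by decide +kernel⟩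

def k1_pm_012 : ∃ t, chk3 f_pm_012 t 1 3 1 = true :=
  ⟨(b (a (a (l 3) (b (a (a (a (l 3) (a (a (l 3) (l 15782128)) (a (c (l 15794880) (l 15769368)) (c (a (l 15795336) (l 15565320)) (a (l 15769832) (c (l 15776896) (b (l 15888952) (l 15635448)))))))) (l 15783048)) (l 15782224)) (a (a (a (c (l 1081959067367) (a (l 3) (l 15192520))) (a (c (l 15232640) (a (l 15192520) (l 15192520))) (a (c (l 15233480) (l 15193392)) (a (c (l 15235552) (l 15027760)) (l 15219736))))) (l 15218824)) (l 15213424)))) (a (b (l 15782128) (l 15212584)) (l 15315864))) (b (a (a (l 3) (a (a (a (c (c (l 14594888) (l 14591696)) (a (l 14539080) (l 14539080))) (a (c (a (l 14595736) (l 14596608)) (a (l 14539080) (l 14539976))) (a (c (c (l 14599624) (l 14596504)) (a (l 14541600) (l 14545136))) (c (l 14611168) (l 14555016))))) (c (l 14609904) (l 14553728))) (l 14343464))) (a (c (l 14595736) (l 14539088)) (l 14550992))) (a (a (b (l 3) (a (l 3) (a (l 3) (a (l 3) (a (l 3) (c (l 13853368) (l 13819696))))))) (a (a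 (a (a (c (b (l 14124560) (l 13853360)) (b (l 14110352) (l 13777744))) (c (b (l 14124560) (l 13853296)) (b (l 14110344) (c (l 13819136) (l 13811160))))) (a (c (c (l 14001056) (a (l 13989624) (l 13994544))) (c (a (l 13985800) (l 13990800)) (a (l 13975216) (l 13959320)))) (c (a (l 14018160) (a (l 14027136) (l 14031680))) (a (l 13963248) (a (l 14014456) (b (l 14139968) (l 13857920))))))) (c (l 14023824) (l 13990080))) (c (l 14002872) (l 13989432)))) (a (c (l 13998896) (l 13985328)) (l 13812048))))), by decide +kernel⟩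

theorem s2_pm_012 : ∃ t, chk3 f_pm_012 t 1 1 1 = true := ex3_b k0_pm_012 k1_pm_012

theorem c_pm_012 : CertFX 0 536870912 536870912 536870912 1046898278 26843546 true true false .pnp 0 1 2
    ndF7q0 ndF7q1 pcF2 Cut.none Ext.none :=
  certFX2 (fam := true) (s1 := true) (s2 := false) (a := 0) (b := 1) (c := 2) (cn := .pnp) (n1 := ndF7q0) (n2 := ndF7q1) (pc := pcF2) (cut := Cut.none) (xt := Ext.none) (P1 := 0) (W1 := 536870912) (P2 := 536870912) (W2 := 536870912) (P3 := 1046898278) (W3 := 26843546)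
    rfl (fun _ => rfl) s2_pm_012

noncomputable def f_pm_022 : ℕ → ℕ → ℕ → ℕ → Bool := onCell 1073741824 536870912 1073741824 536870912 1046898278 26843546
    (rowFX 2 true true false .pp 0 2 2 (qsf 0 536870912 1073741824 536870912 2) ndF7q0 ndF7q2 pcF2 Cut.none Ext.none)

def k0_pm_022 : ∃ t, chk3 f_pm_022 t 4 2 1 = true :=
  ⟨(a (l 3) (a (b (l 3) (l 1)) (b (b (a (l 3) (c (c (l 14028760) (b (l 13851624) (l 14172080))) (c (b (l 847880555591) (l 14174072)) (b (a (l 3) (l 13827688)) (l 14146568))))) (b (a (a (l 3) (c (l 14506104) (l 14472488))) (c (a (l 14506120) (l 14504624)) (a (l 14472512) (l 14470976)))) (a (a (b (l 3) (l 1)) (c (l 14837448) (l 14787064))) (c (a (l 14837448) (l 14830608)) (a (l 14787064) (l 14654224)))))) (a (l 1) (a (l 1) (a (l 1) (b (b (l 15155648) (l 1)) (l 1)))))))), by decide +kernel⟩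

def k1_pm_022 : ∃ t, chk3 f_pm_022 t 5 2 1 = true :=
  ⟨(a (b (a (a (a (b (c (b (l 13869304) (l 14170760)) (b (c (l 13835568) (l 13827680)) (c (l 14172608) (l 14145080)))) (b (c (l 14501888) (l 14468168)) (l 14795912))) (b (c (c (l 14027728) (l 13915488)) (c (b (l 13835608) (l 14175040)) (b (l 13827720) (l 14147552)))) (c (l 14687664) (l 14628360)))) (b (a (c (l 14045048) (b (l 13847024) (l 14173808))) (c (a (l 14069280) (a (l 14076616) (l 14079632))) (a (b (l 13870472) (l 14200232)) (a (b (l 13878648) (l 14207160)) (b (l 13882248) (l 14209768)))))) (a (c (l 14716640) (l 14658104)) (c (a (l 14746800) (a (l 14751632) (b (l 14563776) (l 14894776)))) (a (l 14689072) (a (l 14694040) (l 14624520))))))) (b (c (l 14067472) (b (l 13870736) (l 14196328))) (c (l 14730960) (l 14672832)))) (a (b (a (c (l 15358392) (l 15174752)) (a (c (l 15409208) (l 15373664)) (a (b (l 15255208) (l 1)) (a (c (l 15397344) (b (l 15217064) (l 1))) (b (c (l 15225048) (l 15184728)) (l 15455840))))))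 (l 1)) (b (c (l 15338280) (l 15300912)) (l 531533247559)))) (b (b (c (l 14037424) (b (l 13841728) (l 14163464))) (c (l 14697544) (l 14638512))) (b (c (l 15372824) (l 15336344)) (a (l 15833120) (l 15964056))))), by decide +kernel⟩

def k2_pm_022 : ∃ t, chk3 f_pm_022 t 3 2 1 = true :=
  ⟨(b (b (a (c (l 14031584) (l 13871560)) (c (l 14031584) (l 14018360))) (a (c (l 14691592) (l 14632392)) (l 14640608))) (a (b (c (l 15382184) (l 15345952)) (c (l 15974584) (l 15953736))) (b (l 15364072) (l 15964160)))), by decide +kernel⟩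

def k3_pm_022 : ∃ t, chk3 f_pm_022 t 1 3 1 = true :=
  ⟨(a (a (l 1) (a (l 1) (b (b (a (l 1) (l 16464192)) (l 1)) (l 1)))) (b (a (b (c (l 16468384) (l 16460360)) (c (l 429530063063) (l 493417701095))) (b (l 16359520) (l 16767528))) (a (c (l 452078862343) (l 502007857159)) (c (l 16777216) (l 16777216))))), by decide +kernel⟩

theorem s4_pm_022 : ∃ t, chk3 f_pm_022 t 2 2 1 = true := ex3_a k0_pm_022 k1_pm_022

theorem s5_pm_022 : ∃ t, chk3 f_pm_022 t 1 2 1 = true := ex3_a s4_pm_022 k2_pm_022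

theorem s6_pm_022 : ∃ t, chk3 f_pm_022 t 1 1 1 = true := ex3_b s5_pm_022 k3_pm_022

theorem c_pm_022 : CertFX 0 536870912 1073741824 536870912 1046898278 26843546 true true false .pp 0 2 2
    ndF7q0 ndF7q2 pcF2 Cut.none Ext.none :=
  certFX2 (fam := true) (s1 := true) (s2 := false) (a := 0) (b := 2) (c := 2) (cn := .pp) (n1 := ndF7q0) (n2 := ndF7q2) (pc := pcF2) (cut := Cut.none) (xt := Ext.none) (P1 := 0) (W1 := 536870912) (P2 := 1073741824) (W2 := 536870912) (P3 := 1046898278) (W3 := 26843546)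
    rfl (fun _ => rfl) s6_pm_022

noncomputable def f_pm_023 : ℕ → ℕ → ℕ → ℕ → Bool := onCell 1610612736 536870912 1073741824 536870912 1046898278 26843546
    (rowFX 2 true true false .up 0 2 3 (qsf 0 536870912 1073741824 536870912 3) ndF7q0 ndF7q2 pcF3 Cut.none Ext.none)

def k0_pm_023 : ∃ t, chk3 f_pm_023 t 1 1 1 = true :=
  ⟨(b (a (b (a (b (l 14033576) (l 14640608)) (b (l 2) (l 14640608))) (a (b (l 15364072) (l 15964160)) (l 15550344))) (a (b (l 2) (l 15550384)) (l 2))) (b (a (a (b (l 16464376) (l 16767528)) (l 16581616)) (a (b (l 16464416) (l 16767568)) (a (a (l 16624104) (l 2)) (l 2)))) (a (a (l 16777216) (l 16777216)) (a (c (a (l 16777208) (l 16777168)) (a (l 16777208) (l 16777168))) (a (c (l 16766424) (l 16766144)) (a (l 16760208) (l 4))))))), by decide +kernel⟩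

theorem c_pm_023 : CertFX 0 536870912 1073741824 536870912 1046898278 26843546 true true false .up 0 2 3
    ndF7q0 ndF7q2 pcF3 Cut.none Ext.none :=
  certFX2 (fam := true) (s1 := true) (s2 := false) (a := 0) (b := 2) (c := 3) (cn := .up) (n1 := ndF7q0) (n2 := ndF7q2) (pc := pcF3) (cut := Cut.none) (xt := Ext.none) (P1 := 0) (W1 := 536870912) (P2 := 1073741824) (W2 := 536870912) (P3 := 1046898278) (W3 := 26843546)
    rfl (fun _ => rfl) k0_pm_023

noncomputable def f_pm_033 : ℕ → ℕ → ℕ → ℕ → Bool := onCell 1610612736 536870912 0 1230186008 1046898278 26843546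
    (rowFX 2 true true false .pnn 0 3 3 (qsf 0 536870912 0 1230186008 3) ndF7q0 ndF7q3 pcF3 Cut.none Ext.none)

def k0_pm_033 : ∃ t, chk3 f_pm_033 t 1 1 1 = true :=
  ⟨(a (b (l 1) (b (a (l 1) (c (l 16777216) (l 16777216))) (b (a (l 1) (c (l 16777216) (l 16777216))) (a (l 16777216) (a (l 16777216) (l 16777216)))))) (b (l 4) (b (l 4) (a (a (c (l 16777208) (l 16777208)) (c (l 16777184) (l 16777184))) (a (c (l 167201902503) (l 183844900503)) (l 4)))))), by decide +kernel⟩

theorem c_pm_033 : CertFX 0 536870912 0 1230186008 1046898278 26843546 true true false .pnn 0 3 3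
    ndF7q0 ndF7q3 pcF3 Cut.none Ext.none :=
  certFX2 (fam := true) (s1 := true) (s2 := false) (a := 0) (b := 3) (c := 3) (cn := .pnn) (n1 := ndF7q0) (n2 := ndF7q3) (pc := pcF3) (cut := Cut.none) (xt := Ext.none) (P1 := 0) (W1 := 536870912) (P2 := 0) (W2 := 1230186008) (P3 := 1046898278) (W3 := 26843546)
    rfl (fun _ => rfl) k0_pm_033

noncomputable def f_pm_101 : ℕ → ℕ → ℕ → ℕ → Bool := onCell 536870912 536870912 536870912 536870912 1046898278 26843546
    (rowFX 1 true true false .npn 1 0 1 (qsf 536870912 536870912 0 536870912 1) ndF7q1 ndF7q0 pcF1 Cut.none Ext.none)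

def k0_pm_101 : ∃ t, chk3 f_pm_101 t 1 1 1 = true :=
  ⟨(l 3), by decide +kernel⟩

theorem c_pm_101 : CertFX 536870912 536870912 0 536870912 1046898278 26843546 true true false .npn 1 0 1
    ndF7q1 ndF7q0 pcF1 Cut.none Ext.none :=
  certFX1 (fam := true) (s1 := true) (s2 := false) (a := 1) (b := 0) (c := 1) (cn := .npn) (n1 := ndF7q1) (n2 := ndF7q0) (pc := pcF1) (cut := Cut.none) (xt := Ext.none) (P1 := 536870912) (W1 := 536870912) (P2 := 0) (W2 := 536870912) (P3 := 1046898278) (W3 := 26843546)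
    rfl (fun _ => rfl) k0_pm_101

noncomputable def f_pm_102 : ℕ → ℕ → ℕ → ℕ → Bool := onCell 536870912 536870912 1073741824 536870912 1046898278 26843546
    (rowFX 1 true true false .npp 1 0 2 (qsf 536870912 536870912 0 536870912 2) ndF7q1 ndF7q0 pcF2 Cut.none Ext.none)

def k0_pm_102 : ∃ t, chk3 f_pm_102 t 2 1 1 = true :=
  ⟨(a (b (b (l 3) (b (b (b (l 3) (l 2)) (l 2)) (l 2))) (l 2)) (b (b (l 3) (b (b (b (l 3) (b (l 3) (b (a (l 3) (b (l 16248360) (l 16248360))) (b (a (l 16644320) (c (l 16255144) (l 16241584))) (c (a (l 16646024) (l 16255144)) (a (l 16537760) (l 16178664))))))) (l 16285472)) (l 16222560))) (b (a (l 2) (l 16248360)) (l 2)))), by decide +kernel⟩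

def k1_pm_102 : ∃ t, chk3 f_pm_102 t 3 1 1 = true :=
  ⟨(a (b (b (l 3) (a (b (b (b (l 3) (b (b (l 3) (l 15782128)) (b (c (l 15794880) (l 15769368)) (c (b (l 15795336) (l 15565320)) (b (l 15769832) (c (l 15776896) (a (l 15888952) (l 15635448)))))))) (l 15783048)) (l 15782224)) (b (b (b (c (l 1081959067367) (b (l 3) (l 15192520))) (b (c (l 15232640) (b (l 15192520) (l 15192520))) (b (c (l 15233480) (l 15193392)) (b (c (l 15235552) (l 15027760)) (l 15219736))))) (l 15218824)) (l 15213424)))) (b (a (l 15782128) (l 15212584)) (l 15315864))) (a (b (b (l 3) (b (b (b (c (c (l 14594888) (l 14591696)) (b (l 14539080) (l 14539080))) (b (c (b (l 14595736) (l 14596608)) (b (l 14539080) (l 14539976))) (b (c (c (l 14599624) (l 14596504)) (b (l 14541600) (l 14545136))) (c (l 14611168) (l 14555016))))) (c (l 14609904) (l 14553728))) (l 14343464))) (b (c (l 14595736) (l 14539088)) (l 14550992))) (b (b (a (l 3) (b (l 3) (b (l 3) (b (l 3) (b (l 3) (c (l 13853368) (l 13819696))))))) (b (b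 (b (a (c (b (l 14124560) (l 14124560)) (b (l 14110352) (l 14110344))) (c (b (l 13853360) (l 13853296)) (b (l 13777744) (c (l 13819136) (l 13811160))))) (b (c (c (l 14001056) (b (l 13989624) (l 13994544))) (c (b (l 13985800) (l 13990800)) (b (l 13975216) (l 13959320)))) (c (b (l 14018160) (b (l 14027136) (l 14031680))) (b (l 13963248) (b (l 14014456) (a (l 14139968) (l 13857920))))))) (c (l 14023824) (l 13990080))) (c (l 14002872) (l 13989432)))) (b (c (l 13998896) (l 13985328)) (l 13812048))))), by decide +kernel⟩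

theorem s2_pm_102 : ∃ t, chk3 f_pm_102 t 1 1 1 = true := ex3_a k0_pm_102 k1_pm_102

theorem c_pm_102 : CertFX 536870912 536870912 0 536870912 1046898278 26843546 true true false .npp 1 0 2
    ndF7q1 ndF7q0 pcF2 Cut.none Ext.none :=
  certFX1 (fam := true) (s1 := true) (s2 := false) (a := 1) (b := 0) (c := 2) (cn := .npp) (n1 := ndF7q1) (n2 := ndF7q0) (pc := pcF2) (cut := Cut.none) (xt := Ext.none) (P1 := 536870912) (W1 := 536870912) (P2 := 0) (W2 := 536870912) (P3 := 1046898278) (W3 := 26843546)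
    rfl (fun _ => rfl) s2_pm_102

noncomputable def f_pm_112 : ℕ → ℕ → ℕ → ℕ → Bool := onCell 536870912 536870912 1073741824 536870912 1046898278 26843546
    (rowFX 1 true true false .dn 1 1 2 (qsf 536870912 536870912 536870912 536870912 2) ndF7q1 ndF7q1 pcF2 Cut.none Ext.none)

def k0_pm_112 : ∃ t, chk3 f_pm_112 t 1 1 1 = true :=
  ⟨(a (b (b (l 3) (b (b (b (l 3) (b (l 3) (a (b (l 3) (b (c (l 16768392) (l 16768160)) (a (c (l 16755512) (l 16754952)) (l 16777216)))) (a (b (l 3) (b (l 16644320) (c (l 16646024) (l 16537760)))) (l 1))))) (a (l 16727024) (l 16285472))) (a (a (l 16453240) (l 16713224)) (l 16222560)))) (a (b (a (b (l 16022208) (l 15504608)) (l 16243312)) (a (b (l 14825936) (l 14316368)) (b (l 15504608) (l 14825936)))) (b (a (l 16436728) (l 16186808)) (a (l 15636376) (l 15720904))))) (b (b (l 1) (b (l 1) (a (l 581998575303) (l 1)))) (a (b (a (l 15782128) (l 15212584)) (a (l 15577544) (l 15172424))) (a (b (l 530457059735) (l 14550992)) (b (l 1) (l 13812048)))))),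 by decide +kernel⟩

theorem c_pm_112 : CertFX 536870912 536870912 536870912 536870912 1046898278 26843546 true true false .dn 1 1 2
    ndF7q1 ndF7q1 pcF2 Cut.none Ext.none :=
  certFX1 (fam := true) (s1 := true) (s2 := false) (a := 1) (b := 1) (c := 2) (cn := .dn) (n1 := ndF7q1) (n2 := ndF7q1) (pc := pcF2) (cut := Cut.none) (xt := Ext.none) (P1 := 536870912) (W1 := 536870912) (P2 := 536870912) (W2 := 536870912) (P3 := 1046898278) (W3 := 26843546)
    rfl (fun _ => rfl) k0_pm_112

noncomputable def f_pm_113 : ℕ → ℕ → ℕ → ℕ → Bool := onCell 536870912 536870912 536870912 536870912 1046898278 26843546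
    (rowFX 0 true true false .nn 1 1 3 (qsf 536870912 536870912 536870912 536870912 3) ndF7q1 ndF7q1 pcF3 Cut.none Ext.none)

def k0_pm_113 : ∃ t, chk3 f_pm_113 t 1 1 1 = true :=
  ⟨(b (a (b (l 1) (a (l 1) (l 16131992))) (a (b (l 15504608) (l 15188824)) (b (a (l 14550992) (l 14000792)) (a (l 14239904) (l 13693200))))) (a (b (a (l 15504608) (l 15188824)) (a (b (l 14550992) (l 14000792)) (b (l 14239904) (l 13693200)))) (b (a (l 14273832) (a (l 13362288) (l 12848008))) (a (b (l 13362288) (l 12848008)) (b (a (l 12546536) (l 12006432)) (a (l 12006432) (a (l 12149768) (b (l 12232360) (a (l 12771160) (b (l 13186576) (a (l 14608016) (b (l 15568632) (a (l 16800496) (b (l 16783888) (a (l 16788728) (b (l 16780680) (l 16783184))))))))))))))))), by decide +kernel⟩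

theorem c_pm_113 : CertFX 536870912 536870912 536870912 536870912 1046898278 26843546 true true false .nn 1 1 3
    ndF7q1 ndF7q1 pcF3 Cut.none Ext.none :=
  certFX0 (fam := true) (s1 := true) (s2 := false) (a := 1) (b := 1) (c := 3) (cn := .nn) (n1 := ndF7q1) (n2 := ndF7q1) (pc := pcF3) (cut := Cut.none) (xt := Ext.none) (P1 := 536870912) (W1 := 536870912) (P2 := 536870912) (W2 := 536870912) (P3 := 1046898278) (W3 := 26843546)
    rfl k0_pm_113

noncomputable def f_pm_123 : ℕ → ℕ → ℕ → ℕ → Bool := onCell 1610612736 536870912 1073741824 536870912 1046898278 26843546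
    (rowFX 2 true true false .npn 1 2 3 (qsf 536870912 536870912 1073741824 536870912 3) ndF7q1 ndF7q2 pcF3 Cut.none Ext.none)

def k0_pm_123 : ∃ t, chk3 f_pm_123 t 1 1 1 = true :=
  ⟨(a (b (b (a (b (l 14033576) (l 14640608)) (b (a (l 13983064) (l 13793168)) (l 14599096))) (a (b (l 15364072) (l 1)) (l 15550344))) (b (a (l 1) (l 16581616)) (l 1))) (a (b (b (b (a (l 13526648) (l 13330464)) (l 14493976)) (b (l 15354480) (l 15968840))) (b (b (l 16464416) (l 16767568)) (c (l 758095283111) (l 733399221159)))) (a (b (b (b (a (l 13301424) (l 13540104)) (l 14756120)) (a (l 15808320) (l 15996296))) (b (a (l 16628504) (l 16671016)) (c (l 16766424) (l 16766144)))) (b (a (b (b (c (l 14638408) (l 14243152)) (l 15383184)) (a (l 16170376) (l 16331568))) (a (b (b (l 14627184) (l 15958648)) (l 16557112)) (b (a (b (l 14803056) (l 16395296)) (a (b (l 14922064) (l 16630472)) (b (c (l 15528920) (l 14507312)) (l 16728592)))) (a (l 16744072) (a (l 16702824) (l 16646912)))))) (b (a (c (l 16744672)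 (l 16745640)) (a (l 16740184) (l 4))) (a (l 16760208) (l 4))))))), by decide +kernel⟩

theorem c_pm_123 : CertFX 536870912 536870912 1073741824 536870912 1046898278 26843546 true true false .npn 1 2 3
    ndF7q1 ndF7q2 pcF3 Cut.none Ext.none :=
  certFX2 (fam := true) (s1 := true) (s2 := false) (a := 1) (b := 2) (c := 3) (cn := .npn) (n1 := ndF7q1) (n2 := ndF7q2) (pc := pcF3) (cut := Cut.none) (xt := Ext.none) (P1 := 536870912) (W1 := 536870912) (P2 := 1073741824) (W2 := 536870912) (P3 := 1046898278) (W3 := 26843546)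
    rfl (fun _ => rfl) k0_pm_123

noncomputable def f_pm_133 : ℕ → ℕ → ℕ → ℕ → Bool := onCell 536870912 536870912 0 1230186008 1046898278 26843546
    (rowFX 0 true true false .dn 1 3 3 (qsf 536870912 536870912 0 1230186008 3) ndF7q1 ndF7q3 pcF3 Cut.none Ext.none)

def k0_pm_133 : ∃ t, chk3 f_pm_133 t 1 1 1 = true :=
  ⟨(b (l 2) (b (l 2) (l 4))), by decide +kernel⟩

theorem c_pm_133 : CertFX 536870912 536870912 0 1230186008 1046898278 26843546 true true false .dn 1 3 3
    ndF7q1 ndF7q3 pcF3 Cut.none Ext.none :=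
  certFX0 (fam := true) (s1 := true) (s2 := false) (a := 1) (b := 3) (c := 3) (cn := .dn) (n1 := ndF7q1) (n2 := ndF7q3) (pc := pcF3) (cut := Cut.none) (xt := Ext.none) (P1 := 536870912) (W1 := 536870912) (P2 := 0) (W2 := 1230186008) (P3 := 1046898278) (W3 := 26843546)
    rfl k0_pm_133

noncomputable def f_pm_202 : ℕ → ℕ → ℕ → ℕ → Bool := onCell 1073741824 536870912 1073741824 536870912 1046898278 26843546
    (rowFX 1 true true false .pp 2 0 2 (qsf 1073741824 536870912 0 536870912 2) ndF7q2 ndF7q0 pcF2 Cut.none Ext.none)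

def k0_pm_202 : ∃ t, chk3 f_pm_202 t 2 4 1 = true :=
  ⟨(b (l 3) (b (a (l 3) (l 1)) (a (a (b (l 3) (c (c (l 14028760) (a (l 13851624) (l 14172080))) (c (a (l 847880555591) (l 14174072)) (a (b (l 3) (l 13827688)) (l 14146568))))) (a (b (b (l 3) (c (l 14506104) (l 14472488))) (c (b (l 14506120) (l 14504624)) (b (l 14472512) (l 14470976)))) (b (b (a (l 3) (l 1)) (c (l 14837448) (l 14787064))) (c (b (l 14837448) (l 14830608)) (b (l 14787064) (l 14633248)))))) (b (l 1) (a (a (b (l 1) (b (l 1) (l 15155648))) (l 1)) (l 1)))))), by decide +kernel⟩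

def k1_pm_202 : ∃ t, chk3 f_pm_202 t 2 5 1 = true :=
  ⟨(b (a (b (b (b (a (c (a (l 13869304) (l 14170760)) (a (c (l 13835568) (l 13827680)) (c (l 14172608) (l 14145080)))) (a (c (l 14501888) (l 14468168)) (l 14795912))) (a (c (c (l 14027728) (l 13915488)) (c (a (l 13835608) (l 14175040)) (a (l 13827720) (l 14147552)))) (c (l 14687664) (l 14628360)))) (a (b (c (l 14045048) (a (l 13847024) (l 14173808))) (c (b (l 14069280) (b (l 14076616) (l 14079632))) (b (a (l 13870472) (l 14200232)) (b (a (l 13878648) (l 14207160)) (a (l 13882248) (l 14209768)))))) (b (c (l 14716640) (l 14658104)) (c (b (l 14746800) (b (l 14751632) (a (l 14563776) (l 14894776)))) (b (l 14689072) (b (l 14694040) (l 14624520))))))) (a (c (l 14067472) (a (l 13870736) (l 14196328))) (c (l 14730960) (l 14672832)))) (a (b (b (c (l 15358392) (l 15153784)) (b (c (l 15409208) (l 15373664)) (b (a (l 15255208) (l 1)) (b (c (l 15397344) (a (l 15217064) (l 1))) (a (c (l 15225048) (l 15184728)) (l 15455840))))))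 (c (l 15338280) (l 15300912))) (b (l 1) (l 532606989383)))) (a (a (c (l 14037424) (a (l 13841728) (l 14163464))) (c (l 14697544) (l 14638512))) (a (c (l 15372824) (l 15336344)) (b (l 15812152) (l 15964056))))), by decide +kernel⟩

def k2_pm_202 : ∃ t, chk3 f_pm_202 t 2 3 1 = true :=
  ⟨(a (a (b (c (l 14031584) (l 13871560)) (c (l 14031584) (l 14018360))) (b (c (l 14691592) (l 14632392)) (l 14640608))) (b (a (c (l 15382184) (l 15345952)) (c (l 15974584) (l 15953736))) (a (l 15364072) (l 15964160)))), by decide +kernel⟩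

def k3_pm_202 : ∃ t, chk3 f_pm_202 t 3 1 1 = true :=
  ⟨(b (b (l 1) (b (l 1) (a (a (b (l 1) (l 16464192)) (l 1)) (l 1)))) (a (b (a (c (l 16468384) (l 16460360)) (c (l 429530063063) (l 493417701095))) (a (l 16359520) (l 16767528))) (b (c (l 452078862343) (l 502007857159)) (c (l 16777216) (l 16777216))))), by decide +kernel⟩

theorem s4_pm_202 : ∃ t, chk3 f_pm_202 t 2 2 1 = true := ex3_b k0_pm_202 k1_pm_202

theorem s5_pm_202 : ∃ t, chk3 f_pm_202 t 2 1 1 = true := ex3_b s4_pm_202 k2_pm_202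

theorem s6_pm_202 : ∃ t, chk3 f_pm_202 t 1 1 1 = true := ex3_a s5_pm_202 k3_pm_202

theorem c_pm_202 : CertFX 1073741824 536870912 0 536870912 1046898278 26843546 true true false .pp 2 0 2
    ndF7q2 ndF7q0 pcF2 Cut.none Ext.none :=
  certFX1 (fam := true) (s1 := true) (s2 := false) (a := 2) (b := 0) (c := 2) (cn := .pp) (n1 := ndF7q2) (n2 := ndF7q0) (pc := pcF2) (cut := Cut.none) (xt := Ext.none) (P1 := 1073741824) (W1 := 536870912) (P2 := 0) (W2 := 536870912) (P3 := 1046898278) (W3 := 26843546)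
    rfl (fun _ => rfl) s6_pm_202

noncomputable def f_pm_203 : ℕ → ℕ → ℕ → ℕ → Bool := onCell 1073741824 536870912 1610612736 536870912 1046898278 26843546
    (rowFX 1 true true false .up 2 0 3 (qsf 1073741824 536870912 0 536870912 3) ndF7q2 ndF7q0 pcF3 Cut.none Ext.none)

def k0_pm_203 : ∃ t, chk3 f_pm_203 t 1 1 1 = true :=
  ⟨(a (b (a (b (a (l 14033576) (l 14640608)) (a (l 2) (l 14640608))) (b (a (l 15364072) (l 15964160)) (l 15550344))) (b (a (l 2) (l 15550384)) (l 2))) (a (b (b (a (l 16464376) (l 16767528)) (l 16581616)) (b (a (l 16464416) (l 16767568)) (b (b (l 16624104) (l 2)) (l 2)))) (b (b (l 16777216) (l 16777216)) (b (c (b (l 16777208) (l 16777168)) (b (l 16777208) (l 16777168))) (b (c (l 16766424) (l 16766144)) (b (l 16760208) (l 4))))))), by decide +kernel⟩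

theorem c_pm_203 : CertFX 1073741824 536870912 0 536870912 1046898278 26843546 true true false .up 2 0 3
    ndF7q2 ndF7q0 pcF3 Cut.none Ext.none :=
  certFX1 (fam := true) (s1 := true) (s2 := false) (a := 2) (b := 0) (c := 3) (cn := .up) (n1 := ndF7q2) (n2 := ndF7q0) (pc := pcF3) (cut := Cut.none) (xt := Ext.none) (P1 := 1073741824) (W1 := 536870912) (P2 := 0) (W2 := 536870912) (P3 := 1046898278) (W3 := 26843546)
    rfl (fun _ => rfl) k0_pm_203

noncomputable def f_pm_213 : ℕ → ℕ → ℕ → ℕ → Bool := onCell 1073741824 536870912 1610612736 536870912 1046898278 26843546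
    (rowFX 1 true true false .pnn 2 1 3 (qsf 1073741824 536870912 536870912 536870912 3) ndF7q2 ndF7q1 pcF3 Cut.none Ext.none)

def k0_pm_213 : ∃ t, chk3 f_pm_213 t 1 1 1 = true :=
  ⟨(b (a (a (b (a (l 14033576) (l 14640608)) (a (b (l 13983064) (l 13793168)) (l 14599096))) (b (a (l 15364072) (l 1)) (l 15550344))) (a (b (l 1) (l 16581616)) (l 1))) (b (a (a (a (a (l 13035568) (l 13732720)) (l 14493976)) (a (l 15354480) (l 15968840))) (a (a (l 16464416) (l 16767568)) (c (l 758095283111) (l 733399221159)))) (b (a (a (a (b (l 13301424) (l 13540104)) (l 14756120)) (b (l 15808320) (l 15996296))) (a (b (l 16628504) (l 16671016)) (c (l 16766424) (l 16766144)))) (a (b (a (a (c (l 14638408) (l 14243152)) (l 15383184)) (b (l 16170376) (l 16331568))) (b (a (a (l 14627184) (l 15958648)) (l 16557112)) (a (b (a (l 14803056) (l 16395296)) (b (a (l 14922064) (l 16630472)) (a (c (l 15528920) (l 14507312)) (l 16728592)))) (b (l 16744072) (b (l 16702824) (l 16646912)))))) (a (b (c (l 16744672)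 (l 16745640)) (b (l 16740184) (l 4))) (b (l 16760208) (l 4))))))), by decide +kernel⟩

theorem c_pm_213 : CertFX 1073741824 536870912 536870912 536870912 1046898278 26843546 true true false .pnn 2 1 3
    ndF7q2 ndF7q1 pcF3 Cut.none Ext.none :=
  certFX1 (fam := true) (s1 := true) (s2 := false) (a := 2) (b := 1) (c := 3) (cn := .pnn) (n1 := ndF7q2) (n2 := ndF7q1) (pc := pcF3) (cut := Cut.none) (xt := Ext.none) (P1 := 1073741824) (W1 := 536870912) (P2 := 536870912) (W2 := 536870912) (P3 := 1046898278) (W3 := 26843546)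
    rfl (fun _ => rfl) k0_pm_213

noncomputable def f_pm_303 : ℕ → ℕ → ℕ → ℕ → Bool := onCell 0 1230186008 1610612736 536870912 1046898278 26843546
    (rowFX 1 true true false .npn 3 0 3 (qsf 0 1230186008 0 536870912 3) ndF7q3 ndF7q0 pcF3 Cut.none Ext.none)

def k0_pm_303 : ∃ t, chk3 f_pm_303 t 1 1 1 = true :=
  ⟨(b (a (l 1) (a (b (l 1) (c (l 16777216) (l 16777216))) (a (b (l 1) (c (l 16777216) (l 16777216))) (b (l 16777216) (b (l 16777216) (l 16777216)))))) (a (l 4) (a (l 4) (b (b (c (l 16777208) (l 16777208)) (c (l 16777184) (l 16777184))) (b (c (l 167201902503) (l 183844900503)) (l 4)))))), by decide +kernel⟩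

theorem c_pm_303 : CertFX 0 1230186008 0 536870912 1046898278 26843546 true true false .npn 3 0 3
    ndF7q3 ndF7q0 pcF3 Cut.none Ext.none :=
  certFX1 (fam := true) (s1 := true) (s2 := false) (a := 3) (b := 0) (c := 3) (cn := .npn) (n1 := ndF7q3) (n2 := ndF7q0) (pc := pcF3) (cut := Cut.none) (xt := Ext.none) (P1 := 0) (W1 := 1230186008) (P2 := 0) (W2 := 536870912) (P3 := 1046898278) (W3 := 26843546)
    rfl (fun _ => rfl) k0_pm_303

noncomputable def f_pm_313 : ℕ → ℕ → ℕ → ℕ → Bool := onCell 0 1230186008 536870912 536870912 1046898278 26843546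
    (rowFX 0 true true false .dn 3 1 3 (qsf 0 1230186008 536870912 536870912 3) ndF7q3 ndF7q1 pcF3 Cut.none Ext.none)

def k0_pm_313 : ∃ t, chk3 f_pm_313 t 1 1 1 = true :=
  ⟨(a (l 2) (a (l 2) (l 4))), by decide +kernel⟩

theorem c_pm_313 : CertFX 0 1230186008 536870912 536870912 1046898278 26843546 true true false .dn 3 1 3
    ndF7q3 ndF7q1 pcF3 Cut.none Ext.none :=
  certFX0 (fam := true) (s1 := true) (s2 := false) (a := 3) (b := 1) (c := 3) (cn := .dn) (n1 := ndF7q3) (n2 := ndF7q1) (pc := pcF3) (cut := Cut.none) (xt := Ext.none) (P1 := 0) (W1 := 1230186008) (P2 := 536870912) (W2 := 536870912) (P3 := 1046898278) (W3 := 26843546)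
    rfl k0_pm_313

noncomputable def f_mm_001 : ℕ → ℕ → ℕ → ℕ → Bool := onCell 0 536870912 0 536870912 1046898278 26843546
    (rowFX 0 true false false .up 0 0 1 (qsf 0 536870912 0 536870912 1) ndF7q0 ndF7q0 pcF1 Cut.none Ext.none)

def k0_mm_001 : ∃ t, chk3 f_mm_001 t 1 1 1 = true :=
  ⟨(l 4), by decide +kernel⟩

theorem c_mm_001 : CertFX 0 536870912 0 536870912 1046898278 26843546 true false false .up 0 0 1
    ndF7q0 ndF7q0 pcF1 Cut.none Ext.none :=
  certFX0 (fam := true) (s1 := false) (s2 := false) (a := 0) (b := 0) (c := 1) (cn := .up) (n1 := ndF7q0) (n2 := ndF7q0) (pc := pcF1) (cut := Cut.none) (xt := Ext.none) (P1 := 0) (W1 := 536870912) (P2 := 0) (W2 := 536870912) (P3 := 1046898278) (W3 := 26843546)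
    rfl k0_mm_001

noncomputable def f_mm_011 : ℕ → ℕ → ℕ → ℕ → Bool := onCell 0 536870912 536870912 536870912 1046898278 26843546
    (rowFX 0 true false false .pnn 0 1 1 (qsf 0 536870912 536870912 536870912 1) ndF7q0 ndF7q1 pcF1 Cut.none Ext.none)

def k0_mm_011 : ∃ t, chk3 f_mm_011 t 1 1 1 = true :=
  ⟨(l 4), by decide +kernel⟩

theorem c_mm_011 : CertFX 0 536870912 536870912 536870912 1046898278 26843546 true false false .pnn 0 1 1
    ndF7q0 ndF7q1 pcF1 Cut.none Ext.none :=
  certFX0 (fam := true) (s1 := false) (s2 := false) (a := 0) (b := 1) (c := 1) (cn := .pnn) (n1 := ndF7q0) (n2 := ndF7q1) (pc := pcF1) (cut := Cut.none) (xt := Ext.none) (P1 := 0) (W1 := 536870912) (P2 := 536870912) (W2 := 536870912) (P3 := 1046898278) (W3 := 26843546)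
    rfl k0_mm_011

noncomputable def f_mm_012 : ℕ → ℕ → ℕ → ℕ → Bool := onCell 0 536870912 536870912 536870912 1046898278 26843546
    (rowFX 0 true false false .pnp 0 1 2 (qsf 0 536870912 536870912 536870912 2) ndF7q0 ndF7q1 pcF2 Cut.none Ext.none)

def k0_mm_012 : ∃ t, chk3 f_mm_012 t 1 1 1 = true :=
  ⟨(l 4), by decide +kernel⟩

theorem c_mm_012 : CertFX 0 536870912 536870912 536870912 1046898278 26843546 true false false .pnp 0 1 2
    ndF7q0 ndF7q1 pcF2 Cut.none Ext.none :=
  certFX0 (fam := true) (s1 := false) (s2 := false) (a := 0) (b := 1) (c := 2) (cn := .pnp) (n1 := ndF7q0) (n2 := ndF7q1) (pc := pcF2) (cut := Cut.none) (xt := Ext.none) (P1 := 0) (W1 := 536870912) (P2 := 536870912) (W2 := 536870912) (P3 := 1046898278) (W3 := 26843546)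
    rfl k0_mm_012

noncomputable def f_mm_022 : ℕ → ℕ → ℕ → ℕ → Bool := onCell 0 536870912 1073741824 536870912 1046898278 26843546
    (rowFX 0 true false false .pp 0 2 2 (qsf 0 536870912 1073741824 536870912 2) ndF7q0 ndF7q2 pcF2 Cut.none Ext.none)

def k0_mm_022 : ∃ t, chk3 f_mm_022 t 1 1 1 = true :=
  ⟨(l 4), by decide +kernel⟩

theorem c_mm_022 : CertFX 0 536870912 1073741824 536870912 1046898278 26843546 true false false .pp 0 2 2
    ndF7q0 ndF7q2 pcF2 Cut.none Ext.none :=
  certFX0 (fam := true) (s1 := false) (s2 := false) (a := 0) (b := 2) (c := 2) (cn := .pp) (n1 := ndF7q0) (n2 := ndF7q2) (pc := pcF2) (cut := Cut.none) (xt := Ext.none) (P1 := 0) (W1 := 536870912) (P2 := 1073741824) (W2 := 536870912) (P3 := 1046898278) (W3 := 26843546)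
    rfl k0_mm_022

noncomputable def f_mm_023 : ℕ → ℕ → ℕ → ℕ → Bool := onCell 0 536870912 1073741824 536870912 1046898278 26843546
    (rowFX 0 true false false .up 0 2 3 (qsf 0 536870912 1073741824 536870912 3) ndF7q0 ndF7q2 pcF3 Cut.none Ext.none)

def k0_mm_023 : ∃ t, chk3 f_mm_023 t 1 1 1 = true :=
  ⟨(l 4), by decide +kernel⟩

theorem c_mm_023 : CertFX 0 536870912 1073741824 536870912 1046898278 26843546 true false false .up 0 2 3
    ndF7q0 ndF7q2 pcF3 Cut.none Ext.none :=
  certFX0 (fam := true) (s1 := false) (s2 := false) (a := 0) (b := 2) (c := 3) (cn := .up) (n1 := ndF7q0) (n2 := ndF7q2) (pc := pcF3) (cut := Cut.none) (xt := Ext.none) (P1 := 0) (W1 := 536870912) (P2 := 1073741824) (W2 := 536870912) (P3 := 1046898278) (W3 := 26843546)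
    rfl k0_mm_023

noncomputable def f_mm_033 : ℕ → ℕ → ℕ → ℕ → Bool := onCell 0 536870912 0 1230186008 1046898278 26843546
    (rowFX 0 true false false .pnn 0 3 3 (qsf 0 536870912 0 1230186008 3) ndF7q0 ndF7q3 pcF3 Cut.none Ext.none)

def k0_mm_033 : ∃ t, chk3 f_mm_033 t 1 1 1 = true :=
  ⟨(l 4), by decide +kernel⟩

theorem c_mm_033 : CertFX 0 536870912 0 1230186008 1046898278 26843546 true false false .pnn 0 3 3
    ndF7q0 ndF7q3 pcF3 Cut.none Ext.none :=
  certFX0 (fam := true) (s1 := false) (s2 := false) (a := 0) (b := 3) (c := 3) (cn := .pnn) (n1 := ndF7q0) (n2 := ndF7q3) (pc := pcF3) (cut := Cut.none) (xt := Ext.none) (P1 := 0) (W1 := 536870912) (P2 := 0) (W2 := 1230186008) (P3 := 1046898278) (W3 := 26843546)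
    rfl k0_mm_033

noncomputable def f_mm_101 : ℕ → ℕ → ℕ → ℕ → Bool := onCell 536870912 536870912 0 536870912 1046898278 26843546
    (rowFX 0 true false false .npn 1 0 1 (qsf 536870912 536870912 0 536870912 1) ndF7q1 ndF7q0 pcF1 Cut.none Ext.none)

def k0_mm_101 : ∃ t, chk3 f_mm_101 t 1 1 1 = true :=
  ⟨(l 4), by decide +kernel⟩

theorem c_mm_101 : CertFX 536870912 536870912 0 536870912 1046898278 26843546 true false false .npn 1 0 1
    ndF7q1 ndF7q0 pcF1 Cut.none Ext.none :=
  certFX0 (fam := true) (s1 := false) (s2 := false) (a := 1) (b := 0) (c := 1) (cn := .npn) (n1 := ndF7q1) (n2 := ndF7q0) (pc := pcF1) (cut := Cut.none) (xt := Ext.none) (P1 := 536870912) (W1 := 536870912) (P2 := 0) (W2 := 536870912) (P3 := 1046898278) (W3 := 26843546)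
    rfl k0_mm_101

noncomputable def f_mm_102 : ℕ → ℕ → ℕ → ℕ → Bool := onCell 536870912 536870912 0 536870912 1046898278 26843546
    (rowFX 0 true false false .npp 1 0 2 (qsf 536870912 536870912 0 536870912 2) ndF7q1 ndF7q0 pcF2 Cut.none Ext.none)

def k0_mm_102 : ∃ t, chk3 f_mm_102 t 1 1 1 = true :=
  ⟨(l 4), by decide +kernel⟩

theorem c_mm_102 : CertFX 536870912 536870912 0 536870912 1046898278 26843546 true false false .npp 1 0 2
    ndF7q1 ndF7q0 pcF2 Cut.none Ext.none :=
  certFX0 (fam := true) (s1 := false) (s2 := false) (a := 1) (b := 0) (c := 2) (cn := .npp) (n1 := ndF7q1) (n2 := ndF7q0) (pc := pcF2) (cut := Cut.none) (xt := Ext.none) (P1 := 536870912) (W1 := 536870912) (P2 := 0) (W2 := 536870912) (P3 := 1046898278) (W3 := 26843546)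
    rfl k0_mm_102

noncomputable def f_mm_112 : ℕ → ℕ → ℕ → ℕ → Bool := onCell 536870912 536870912 536870912 536870912 1046898278 26843546
    (rowFX 0 true false false .dn 1 1 2 (qsf 536870912 536870912 536870912 536870912 2) ndF7q1 ndF7q1 pcF2 Cut.none Ext.none)

def k0_mm_112 : ∃ t, chk3 f_mm_112 t 1 1 1 = true :=
  ⟨(l 4), by decide +kernel⟩

theorem c_mm_112 : CertFX 536870912 536870912 536870912 536870912 1046898278 26843546 true false false .dn 1 1 2
    ndF7q1 ndF7q1 pcF2 Cut.none Ext.none :=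
  certFX0 (fam := true) (s1 := false) (s2 := false) (a := 1) (b := 1) (c := 2) (cn := .dn) (n1 := ndF7q1) (n2 := ndF7q1) (pc := pcF2) (cut := Cut.none) (xt := Ext.none) (P1 := 536870912) (W1 := 536870912) (P2 := 536870912) (W2 := 536870912) (P3 := 1046898278) (W3 := 26843546)
    rfl k0_mm_112

noncomputable def f_mm_113 : ℕ → ℕ → ℕ → ℕ → Bool := onCell 536870912 536870912 536870912 536870912 1046898278 26843546
    (rowFX 0 true false false .nn 1 1 3 (qsf 536870912 536870912 536870912 536870912 3) ndF7q1 ndF7q1 pcF3 Cut.none Ext.none)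

def k0_mm_113 : ∃ t, chk3 f_mm_113 t 1 1 1 = true :=
  ⟨(l 4), by decide +kernel⟩

theorem c_mm_113 : CertFX 536870912 536870912 536870912 536870912 1046898278 26843546 true false false .nn 1 1 3
    ndF7q1 ndF7q1 pcF3 Cut.none Ext.none :=
  certFX0 (fam := true) (s1 := false) (s2 := false) (a := 1) (b := 1) (c := 3) (cn := .nn) (n1 := ndF7q1) (n2 := ndF7q1) (pc := pcF3) (cut := Cut.none) (xt := Ext.none) (P1 := 536870912) (W1 := 536870912) (P2 := 536870912) (W2 := 536870912) (P3 := 1046898278) (W3 := 26843546)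
    rfl k0_mm_113

noncomputable def f_mm_123 : ℕ → ℕ → ℕ → ℕ → Bool := onCell 536870912 536870912 1073741824 536870912 1046898278 26843546
    (rowFX 0 true false false .npn 1 2 3 (qsf 536870912 536870912 1073741824 536870912 3) ndF7q1 ndF7q2 pcF3 Cut.none Ext.none)

def k0_mm_123 : ∃ t, chk3 f_mm_123 t 1 1 1 = true :=
  ⟨(l 4), by decide +kernel⟩

theorem c_mm_123 : CertFX 536870912 536870912 1073741824 536870912 1046898278 26843546 true false false .npn 1 2 3
    ndF7q1 ndF7q2 pcF3 Cut.none Ext.none :=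
  certFX0 (fam := true) (s1 := false) (s2 := false) (a := 1) (b := 2) (c := 3) (cn := .npn) (n1 := ndF7q1) (n2 := ndF7q2) (pc := pcF3) (cut := Cut.none) (xt := Ext.none) (P1 := 536870912) (W1 := 536870912) (P2 := 1073741824) (W2 := 536870912) (P3 := 1046898278) (W3 := 26843546)
    rfl k0_mm_123

noncomputable def f_mm_133 : ℕ → ℕ → ℕ → ℕ → Bool := onCell 536870912 536870912 0 1230186008 1046898278 26843546
    (rowFX 0 true false false .dn 1 3 3 (qsf 536870912 536870912 0 1230186008 3) ndF7q1 ndF7q3 pcF3 Cut.none Ext.none)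

def k0_mm_133 : ∃ t, chk3 f_mm_133 t 1 1 1 = true :=
  ⟨(l 4), by decide +kernel⟩

theorem c_mm_133 : CertFX 536870912 536870912 0 1230186008 1046898278 26843546 true false false .dn 1 3 3
    ndF7q1 ndF7q3 pcF3 Cut.none Ext.none :=
  certFX0 (fam := true) (s1 := false) (s2 := false) (a := 1) (b := 3) (c := 3) (cn := .dn) (n1 := ndF7q1) (n2 := ndF7q3) (pc := pcF3) (cut := Cut.none) (xt := Ext.none) (P1 := 536870912) (W1 := 536870912) (P2 := 0) (W2 := 1230186008) (P3 := 1046898278) (W3 := 26843546)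
    rfl k0_mm_133

noncomputable def f_mm_202 : ℕ → ℕ → ℕ → ℕ → Bool := onCell 1073741824 536870912 0 536870912 1046898278 26843546
    (rowFX 0 true false false .pp 2 0 2 (qsf 1073741824 536870912 0 536870912 2) ndF7q2 ndF7q0 pcF2 Cut.none Ext.none)

def k0_mm_202 : ∃ t, chk3 f_mm_202 t 1 1 1 = true :=
  ⟨(l 4), by decide +kernel⟩

theorem c_mm_202 : CertFX 1073741824 536870912 0 536870912 1046898278 26843546 true false false .pp 2 0 2
    ndF7q2 ndF7q0 pcF2 Cut.none Ext.none :=
  certFX0 (fam := true) (s1 := false) (s2 := false) (a := 2) (b := 0) (c := 2) (cn := .pp) (n1 := ndF7q2) (n2 := ndF7q0) (pc := pcF2) (cut := Cut.none) (xt := Ext.none) (P1 := 1073741824) (W1 := 536870912) (P2 := 0) (W2 := 536870912) (P3 := 1046898278) (W3 := 26843546)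
    rfl k0_mm_202

noncomputable def f_mm_203 : ℕ → ℕ → ℕ → ℕ → Bool := onCell 1073741824 536870912 0 536870912 1046898278 26843546
    (rowFX 0 true false false .up 2 0 3 (qsf 1073741824 536870912 0 536870912 3) ndF7q2 ndF7q0 pcF3 Cut.none Ext.none)

def k0_mm_203 : ∃ t, chk3 f_mm_203 t 1 1 1 = true :=
  ⟨(l 4), by decide +kernel⟩

theorem c_mm_203 : CertFX 1073741824 536870912 0 536870912 1046898278 26843546 true false false .up 2 0 3
    ndF7q2 ndF7q0 pcF3 Cut.none Ext.none :=
  certFX0 (fam := true) (s1 := false) (s2 := false) (a := 2) (b := 0) (c := 3) (cn := .up) (n1 := ndF7q2) (n2 := ndF7q0) (pc := pcF3) (cut := Cut.none) (xt := Ext.none) (P1 := 1073741824) (W1 := 536870912) (P2 := 0) (W2 := 536870912) (P3 := 1046898278) (W3 := 26843546)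
    rfl k0_mm_203

noncomputable def f_mm_213 : ℕ → ℕ → ℕ → ℕ → Bool := onCell 1073741824 536870912 536870912 536870912 1046898278 26843546
    (rowFX 0 true false false .pnn 2 1 3 (qsf 1073741824 536870912 536870912 536870912 3) ndF7q2 ndF7q1 pcF3 Cut.none Ext.none)

def k0_mm_213 : ∃ t, chk3 f_mm_213 t 1 1 1 = true :=
  ⟨(l 4), by decide +kernel⟩

theorem c_mm_213 : CertFX 1073741824 536870912 536870912 536870912 1046898278 26843546 true false false .pnn 2 1 3
    ndF7q2 ndF7q1 pcF3 Cut.none Ext.none :=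
  certFX0 (fam := true) (s1 := false) (s2 := false) (a := 2) (b := 1) (c := 3) (cn := .pnn) (n1 := ndF7q2) (n2 := ndF7q1) (pc := pcF3) (cut := Cut.none) (xt := Ext.none) (P1 := 1073741824) (W1 := 536870912) (P2 := 536870912) (W2 := 536870912) (P3 := 1046898278) (W3 := 26843546)
    rfl k0_mm_213

noncomputable def f_mm_303 : ℕ → ℕ → ℕ → ℕ → Bool := onCell 0 1230186008 0 536870912 1046898278 26843546
    (rowFX 0 true false false .npn 3 0 3 (qsf 0 1230186008 0 536870912 3) ndF7q3 ndF7q0 pcF3 Cut.none Ext.none)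

def k0_mm_303 : ∃ t, chk3 f_mm_303 t 1 1 1 = true :=
  ⟨(l 4), by decide +kernel⟩

theorem c_mm_303 : CertFX 0 1230186008 0 536870912 1046898278 26843546 true false false .npn 3 0 3
    ndF7q3 ndF7q0 pcF3 Cut.none Ext.none :=
  certFX0 (fam := true) (s1 := false) (s2 := false) (a := 3) (b := 0) (c := 3) (cn := .npn) (n1 := ndF7q3) (n2 := ndF7q0) (pc := pcF3) (cut := Cut.none) (xt := Ext.none) (P1 := 0) (W1 := 1230186008) (P2 := 0) (W2 := 536870912) (P3 := 1046898278) (W3 := 26843546)
    rfl k0_mm_303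

noncomputable def f_mm_313 : ℕ → ℕ → ℕ → ℕ → Bool := onCell 0 1230186008 536870912 536870912 1046898278 26843546
    (rowFX 0 true false false .dn 3 1 3 (qsf 0 1230186008 536870912 536870912 3) ndF7q3 ndF7q1 pcF3 Cut.none Ext.none)

def k0_mm_313 : ∃ t, chk3 f_mm_313 t 1 1 1 = true :=
  ⟨(l 4), by decide +kernel⟩

theorem c_mm_313 : CertFX 0 1230186008 536870912 536870912 1046898278 26843546 true false false .dn 3 1 3
    ndF7q3 ndF7q1 pcF3 Cut.none Ext.none :=
  certFX0 (fam := true) (s1 := false) (s2 := false) (a := 3) (b := 1) (c := 3) (cn := .dn) (n1 := ndF7q3) (n2 := ndF7q1) (pc := pcF3) (cut := Cut.none) (xt := Ext.none) (P1 := 0) (W1 := 1230186008) (P2 := 536870912) (W2 := 536870912) (P3 := 1046898278) (W3 := 26843546)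
    rfl k0_mm_313

end Pool.Agent.Strip051.G.IE1.Tab.C.FA77

namespace Pool.Agent.Strip051.G.IE1.Tab.C.FB00

open Pool.Agent.Strip051.PB Pool.Agent.Strip051.PB.T
open Pool.Agent.Strip051.G.IE1.Tab

noncomputable def cut_pp_001 : Cut := Cut.of [[⟨3, 0, 0, 1449551462⟩], [⟨4, 0, 0, 2845415833⟩]]

noncomputable def f_pp_001 : ℕ → ℕ → ℕ → ℕ → Bool := onCell 0 536870912 536870912 536870912 1046898278 26843546
    (rowFX 0 false true true .up 0 0 1 (qsf 0 536870912 536870912 536870912 0) ndF0q0 ndF0q1 pcF0 cut_pp_001 Ext.none)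

def k0_pp_001 : ∃ t, chk3 f_pp_001 t 1 1 1 = true :=
  ⟨(l 6), by decide +kernel⟩

theorem c_pp_001 : CertFX 0 536870912 536870912 536870912 1046898278 26843546 false true true .up 0 0 1
    ndF0q0 ndF0q1 pcF0 cut_pp_001 Ext.none :=
  certFX0 (fam := false) (s1 := true) (s2 := true) (a := 0) (b := 0) (c := 1) (cn := .up) (n1 := ndF0q0) (n2 := ndF0q1) (pc := pcF0) (cut := cut_pp_001) (xt := Ext.none) (P1 := 0) (W1 := 536870912) (P2 := 536870912) (W2 := 536870912) (P3 := 1046898278) (W3 := 26843546)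
    rfl k0_pp_001

noncomputable def cut_pp_011 : Cut := Cut.of [[⟨3, 0, 0, 1449551462⟩], [⟨4, 0, 0, 2845415833⟩], [⟨0, 0, 0, 67108864⟩, ⟨1, 1, 0, 67108864⟩, ⟨2, 1, 0, 67108864⟩, ⟨3, 0, 0, 1233125376⟩]]

noncomputable def f_pp_011 : ℕ → ℕ → ℕ → ℕ → Bool := onCell 0 536870912 536870912 536870912 1046898278 26843546
    (rowFX 0 false true true .pnn 0 1 1 (qsf 0 536870912 536870912 536870912 1) ndF0q0 ndF0q1 pcF1 cut_pp_011 Ext.none)

def k0_pp_011 : ∃ t, chk3 f_pp_011 t 1 1 1 = true :=
  ⟨(l 6), by decide +kernel⟩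

theorem c_pp_011 : CertFX 0 536870912 536870912 536870912 1046898278 26843546 false true true .pnn 0 1 1
    ndF0q0 ndF0q1 pcF1 cut_pp_011 Ext.none :=
  certFX0 (fam := false) (s1 := true) (s2 := true) (a := 0) (b := 1) (c := 1) (cn := .pnn) (n1 := ndF0q0) (n2 := ndF0q1) (pc := pcF1) (cut := cut_pp_011) (xt := Ext.none) (P1 := 0) (W1 := 536870912) (P2 := 536870912) (W2 := 536870912) (P3 := 1046898278) (W3 := 26843546)
    rfl k0_pp_011

noncomputable def cut_pp_012 : Cut := Cut.of [[⟨3, 0, 0, 1449551462⟩], [⟨4, 0, 0, 2845415833⟩], [⟨0, 0, 0, 67108864⟩, ⟨1, 1, 0, 67108864⟩, ⟨2, 1, 0, 67108864⟩, ⟨3, 0, 0, 1233125376⟩]]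

noncomputable def f_pp_012 : ℕ → ℕ → ℕ → ℕ → Bool := onCell 536870912 536870912 0 536870912 1046898278 26843546
    (rowFX 2 false true true .pnp 0 1 2 (qsf 0 536870912 0 536870912 1) ndF0q0 ndF0q2 pcF1 cut_pp_012 Ext.none)

def k0_pp_012 : ∃ t, chk3 f_pp_012 t 2 1 1 = true :=
  ⟨(l 6), by decide +kernel⟩

def k1_pp_012 : ∃ t, chk3 f_pp_012 t 3 8 1 = true :=
  ⟨(a (a (b (c (c (a (l 16777200) (l 16768752)) (a (l 16771960) (l 16768640))) (c (a (l 16777200) (l 16768528)) (a (l 16777200) (l 16768416)))) (l 6)) (c (a (c (b (l 16753376) (l 16752536)) (b (l 16753064) (l 16752216))) (a (c (l 16741520) (l 16741056)) (c (b (l 16774968) (l 16755096)) (b (l 16774936) (l 16776048))))) (a (c (b (l 16752752) (l 16751888)) (l 16752000)) (a (c (l 16740584) (l 16740120)) (c (l 16733528) (l 16775448)))))) (b (a (a (c (c (l 16622720) (l 16642216)) (a (l 16678648) (l 16602216))) (c (a (c (l 16557552) (l 16554680)) (c (l 16533688) (l 16530592))) (a (l 16529400) (c (l 16527496) (l 16524392)))))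 (a (c (a (l 16578656) (l 16633952)) (a (l 16574200) (l 16631560))) (c (l 16618808) (l 16596728)))) (a (a (c (c (l 16572264) (l 16612624)) (c (l 16632016) (l 16651400))) (c (a (c (l 16542288) (l 16539224)) (c (l 16521664) (l 16518424))) (a (c (l 16536152) (l 16533080)) (c (l 16515184) (l 16511944))))) (a (c (a (l 16563528) (l 16615720)) (a (l 16558704) (l 16612872))) (c (l 16611048) (a (l 16675704) (l 16629280))))))), by decide +kernel⟩

def k2_pp_012 : ∃ t, chk3 f_pp_012 t 3 9 1 = true :=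
  ⟨(b (a (a (l 6) (a (l 6) (a (b (c (l 16739808) (l 16738832)) (l 6)) (c (c (l 16735216) (l 16756184)) (c (l 16777160) (l 16777160)))))) (a (a (c (c (c (l 16606176) (l 16605336)) (l 16562120)) (c (l 16602368) (l 16621648))) (c (a (c (b (l 16531400) (l 16525304)) (l 16525696)) (c (l 16517696) (l 16514440))) (a (c (l 16522456) (l 16519216)) (c (l 16511176) (l 16507912))))) (a (c (a (c (l 16558048) (l 16555584)) (l 16585264)) (c (a (l 16553112) (l 16603960)) (l 16533632))) (c (a (l 16664488) (l 16637256)) (a (l 16663600) (l 16635800)))))) (a (l 6) (a (a (c (c (c (a (l 16684184) (l 16596336)) (l 16554968)) (c (l 16575040) (l 16595112))) (c (a (l 16681440) (l 16591000)) (l 16591960))) (c (a (b (c (l 16520680) (l 16517336)) (c (a (l 16529000) (l 16505336)) (l 16493728))) (c (l 16501408) (l 16519224))) (a (c (a (l 16526096) (l 16499432)) (l 16510840)) (c (l 16516072) (l 16512912))))) (a (c (c (a (l 16559920) (l 16606432)) (a (l 16557520) (l 16604952))) (c (a (l 16555128) (l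 16603472)) (a (l 16552728) (l 16601992)))) (c (a (l 16640936) (l 16635680)) (a (l 16619088) (l 16634280))))))), by decide +kernel⟩

def k3_pp_012 : ∃ t, chk3 f_pp_012 t 3 5 1 = true :=
  ⟨(a (l 6) (a (a (l 6) (b (b (a (b (c (c (a (l 16523080) (l 16510416)) (a (l 16519752) (l 16506984))) (c (l 16511384) (l 16508024))) (l 6)) (c (c (b (l 16531064) (l 16539832)) (b (l 16528064) (l 16536984))) (c (l 16529712) (l 16526792)))) (l 6)) (l 6))) (a (b (a (b (c (c (l 16549648) (l 16568424)) (c (l 16566232) (l 16564032))) (b (c (c (l 16584248) (l 16582288)) (a (l 16569584) (l 16589648))) (l 6))) (c (b (c (l 16615032) (l 16613720)) (c (b (l 16627296) (l 16638832)) (b (l 16626192) (l 16637920)))) (b (c (l 16612408) (l 16611104)) (c (b (l 16625096) (l 16637000)) (l 16609192))))) (l 6)) (a (b (c (b (l 16626944) (c (l 16664856) (l 16664840))) (b (l 16626352) (c (l 16664816) (l 16664800)))) (b (b (c (a (l 16667232) (l 16650872)) (a (l 16667192) (l 16649824))) (l 6)) (l 6))) (b (c (b (l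 16626272) (c (l 16609392) (l 16608336))) (b (l 16624648) (c (l 16607280) (l 16606224)))) (b (c (c (l 16583920) (l 16582488)) (c (l 16581048) (l 16579616))) (a (l 6) (b (c (l 16537816) (l 16533680)) (l 6))))))))), by decide +kernel⟩

def k4_pp_012 : ∃ t, chk3 f_pp_012 t 3 3 1 = true :=
  ⟨(l 6), by decide +kernel⟩

theorem s5_pp_012 : ∃ t, chk3 f_pp_012 t 3 4 1 = true := ex3_b k1_pp_012 k2_pp_012

theorem s6_pp_012 : ∃ t, chk3 f_pp_012 t 3 2 1 = true := ex3_b s5_pp_012 k3_pp_012

theorem s7_pp_012 : ∃ t, chk3 f_pp_012 t 3 1 1 = true := ex3_b s6_pp_012 k4_pp_012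

theorem s8_pp_012 : ∃ t, chk3 f_pp_012 t 1 1 1 = true := ex3_a k0_pp_012 s7_pp_012

theorem c_pp_012 : CertFX 0 536870912 0 536870912 1046898278 26843546 false true true .pnp 0 1 2
    ndF0q0 ndF0q2 pcF1 cut_pp_012 Ext.none :=
  certFX2 (fam := false) (s1 := true) (s2 := true) (a := 0) (b := 1) (c := 2) (cn := .pnp) (n1 := ndF0q0) (n2 := ndF0q2) (pc := pcF1) (cut := cut_pp_012) (xt := Ext.none) (P1 := 0) (W1 := 536870912) (P2 := 0) (W2 := 536870912) (P3 := 1046898278) (W3 := 26843546)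
    rfl (fun _ => rfl) s8_pp_012

noncomputable def cut_pp_022 : Cut := Cut.of [[⟨3, 0, 0, 1449551462⟩], [⟨4, 0, 0, 2845415833⟩], [⟨0, 0, 0, 67108864⟩, ⟨1, 1, 0, 67108864⟩, ⟨2, 1, 0, 67108864⟩, ⟨3, 0, 0, 1233125376⟩]]

noncomputable def f_pp_022 : ℕ → ℕ → ℕ → ℕ → Bool := onCell 1073741824 536870912 0 536870912 1046898278 26843546
    (rowFX 2 false true true .pp 0 2 2 (qsf 0 536870912 0 536870912 2) ndF0q0 ndF0q2 pcF2 cut_pp_022 Ext.none)

def k0_pp_022 : ∃ t, chk3 f_pp_022 t 4 4 1 = true :=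
  ⟨(a (b (c (a (c (b (l 16414200) (l 16472696)) (b (l 16411152) (l 16470424))) (b (l 16469352) (l 16474368))) (a (b (c (l 16408104) (l 16405056)) (c (l 16468160) (l 16465888))) (c (l 16419712) (a (l 16483008) (l 16563504))))) (c (a (b (a (l 16527784) (l 16552616)) (a (l 16593104) (l 16621584))) (b (l 16452848) (a (l 16577368) (l 16497592)))) (a (b (c (l 16537648) (l 16515320)) (c (l 16616816) (l 16595528))) (c (b (l 16557272) (l 16515864)) (b (l 16536016) (l 16493936)))))) (c (a (b (a (b (l 16447016) (l 16444856)) (c (b (l 16373032) (l 16383264)) (l 16376848))) (a (b (l 16432728) (l 16412280)) (c (b (l 16385920) (l 16378000)) (l 16385992)))) (b (c (a (c (l 16382016) (l 16398648)) (l 16352024)) (a (l 16410264) (c (l 16421080) (l 16435920)))) (c (a (b (l 16399736) (l 16398512)) (b (l 16415632) (l 16419072))) (a (l 16360408) (c (l 16439040) (l 16456136)))))) (a (b (a (b (l 16443296) (l 16441080)) (b (l 16367368) (l 16378520))) (a (b (l 16428584) (l 16407504)) (b (l 16382984)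 (l 16381904)))) (b (c (l 16341096) (l 16426536)) (c (b (l 16447200) (l 16431968)) (l 16429128)))))), by decide +kernel⟩

def k1_pp_022 : ∃ t, chk3 f_pp_022 t 4 5 1 = true :=
  ⟨(a (b (a (c (b (b (l 16608808) (l 16551432)) (a (l 16524000) (l 16498432))) (b (a (l 16583512) (l 16550752)) (a (l 16519680) (l 16494024)))) (c (b (l 16403000) (a (l 16451376) (l 16395496))) (b (l 16357472) (a (l 16446264) (l 16389432))))) (a (c (b (a (c (l 16432344) (l 16428704)) (l 16408672)) (a (c (l 16323360) (l 16318072)) (l 16302656))) (b (a (l 16381304) (l 16401456)) (a (c (l 16312784) (l 16307496)) (l 16292248)))) (c (b (a (l 16370432) (l 16331952)) (a (l 16276528) (c (l 16264336) (l 16264040)))) (b (a (l 16362816) (l 16323936)) (a (l 16266088) (l 16256520)))))) (c (a (b (a (b (l 16382368) (l 16352792)) (c (b (l 16366224) (l 16342480)) (l 16304504))) (b (a (c (l 16311960) (l 16320056)) (c (l 16228192) (l 16337456))) (a (c (l 16243216) (l 16277640)) (c (l 16235032) (a (l 16289176) (l 16310336))))))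 (b (c (a (b (l 16386816) (l 16373888)) (l 16362624)) (a (b (l 16416616) (l 16359552)) (b (l 16447600) (l 16440864)))) (b (c (l 16268688) (a (c (l 16371216) (l 16383456)) (l 16436656))) (a (c (l 16335616) (l 16288768)) (l 16438480))))) (a (b (a (b (l 16380080) (l 16348296)) (b (l 16375104) (l 16361928))) (b (a (l 16314320) (l 16342160)) (a (l 16275920) (c (l 16316080) (l 16313704))))) (b (c (a (l 16380976) (b (l 16474072) (c (l 16458976) (l 16473648)))) (a (l 16422144) (l 16378848))) (c (a (b (l 16360000) (a (l 16356240) (l 16322320))) (b (a (l 16414952) (l 16466072)) (l 16393808))) (a (b (l 16403600) (l 16387760)) (b (c (l 16468440) (l 16474176)) (c (l 16378056) (l 16335856))))))))), by decide +kernel⟩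

def k2_pp_022 : ∃ t, chk3 f_pp_022 t 4 3 1 = true :=
  ⟨(b (a (b (b (a (a (l 6) (a (l 6) (c (l 16178520) (l 16164680)))) (c (a (b (l 16200280) (l 16147424)) (c (l 16168816) (l 16199752))) (a (b (l 16187600) (l 16135728)) (l 16189600)))) (b (a (l 6) (c (a (l 6) (c (l 16126120) (l 16141968))) (l 16111392))) (l 6))) (l 6)) (a (a (b (c (b (c (c (l 16193160) (l 16209288)) (l 16163816)) (c (l 16052376) (b (l 16176784) (l 16122048)))) (c (b (l 16233640) (l 16134280)) (l 16199032))) (l 6)) (b (c (b (c (l 16234664) (a (l 16240864) (l 16267640))) (c (l 16205824) (l 16214744))) (c (b (c (l 16273752) (l 16280752)) (c (l 16098536) (a (l 16214720) (l 16247808)))) (b (l 16281320) (b (l 16253728) (l 16169280))))) (b (b (c (l 16207624) (c (l 16148544) (a (l 16197040) (l 16241304)))) (l 6)) (l 6)))) (b (c (b (c (l 16324256) (l 16285776)) (l 16283296)) (c (a (b (b (l 16264904) (l 16314440)) (l 16324224)) (l 16384720)) (c (a (b (a (l 16335368) (l 16370192)) (l 16202280)) (l 136397894839))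 (a (b (l 16320480) (a (l 16304424) (l 16354176))) (b (l 206728029143) (l 1)))))) (a (b (c (l 606696583991) (c (l 16363712) (l 136397580855))) (l 1)) (l 1))))) (l 6)), by decide +kernel⟩

def k3_pp_022 : ∃ t, chk3 f_pp_022 t 5 1 1 = true :=
  ⟨(b (a (a (b (a (c (b (b (c (l 16391224) (l 16367728)) (c (l 16437216) (l 16391016))) (c (b (l 16459200) (l 16473920)) (b (l 16409416) (l 16425464)))) (a (b (c (l 16462728) (l 16473664)) (c (b (l 16476296) (l 16473752)) (l 16466448))) (b (c (c (l 16463312) (l 16443440)) (l 16373672)) (c (b (l 16443640) (l 16436088)) (b (l 16430664) (l 16420240)))))) (c (b (c (l 16097872) (l 16094824)) (b (l 16152528) (l 16173016))) (b (c (l 16014264) (b (l 16034712) (l 16016240))) (c (l 16077848) (b (c (l 16134880) (l 16098912)) (a (l 16285280) (l 16185744))))))) (a (c (b (b (a (l 16478744) (l 16438432)) (l 16401424)) (b (l 16405264) (l 16415064))) (b (c (b (a (l 16478216) (l 16433352)) (l 16374200)) (b (a (l 16465472) (c (l 16425800) (l 16418056)))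 (a (l 16474168) (c (l 16430192) (l 16425480))))) (c (b (l 16467008) (l 16477144)) (b (a (l 16428096) (l 16434384)) (l 16370872))))) (b (c (b (l 16191448) (l 16207928)) (c (l 16175040) (b (l 16105632) (l 16202352)))) (l 1)))) (b (b (l 1) (l 1)) (l 1))) (l 1)) (b (l 1) (l 1))), by decide +kernel⟩

def k4_pp_022 : ∃ t, chk3 f_pp_022 t 3 1 1 = true :=
  ⟨(l 1), by decide +kernel⟩

theorem s5_pp_022 : ∃ t, chk3 f_pp_022 t 4 2 1 = true := ex3_b k0_pp_022 k1_pp_022

theorem s6_pp_022 : ∃ t, chk3 f_pp_022 t 4 1 1 = true := ex3_b s5_pp_022 k2_pp_022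

theorem s7_pp_022 : ∃ t, chk3 f_pp_022 t 2 1 1 = true := ex3_a s6_pp_022 k3_pp_022

theorem s8_pp_022 : ∃ t, chk3 f_pp_022 t 1 1 1 = true := ex3_a s7_pp_022 k4_pp_022

theorem c_pp_022 : CertFX 0 536870912 0 536870912 1046898278 26843546 false true true .pp 0 2 2
    ndF0q0 ndF0q2 pcF2 cut_pp_022 Ext.none :=
  certFX2 (fam := false) (s1 := true) (s2 := true) (a := 0) (b := 2) (c := 2) (cn := .pp) (n1 := ndF0q0) (n2 := ndF0q2) (pc := pcF2) (cut := cut_pp_022) (xt := Ext.none) (P1 := 0) (W1 := 536870912) (P2 := 0) (W2 := 536870912) (P3 := 1046898278) (W3 := 26843546)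
    rfl (fun _ => rfl) s8_pp_022

noncomputable def cut_pp_101 : Cut := Cut.of [[⟨3, 0, 0, 1449551462⟩], [⟨4, 0, 0, 2845415833⟩]]

noncomputable def f_pp_101 : ℕ → ℕ → ℕ → ℕ → Bool := onCell 536870912 536870912 536870912 536870912 1046898278 26843546
    (rowFX 0 false true true .npn 1 0 1 (qsf 536870912 536870912 536870912 536870912 0) ndF0q1 ndF0q1 pcF0 cut_pp_101 Ext.none)

def k0_pp_101 : ∃ t, chk3 f_pp_101 t 1 1 1 = true :=
  ⟨(l 3), by decide +kernel⟩

theorem c_pp_101 : CertFX 536870912 536870912 536870912 536870912 1046898278 26843546 false true true .npn 1 0 1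
    ndF0q1 ndF0q1 pcF0 cut_pp_101 Ext.none :=
  certFX0 (fam := false) (s1 := true) (s2 := true) (a := 1) (b := 0) (c := 1) (cn := .npn) (n1 := ndF0q1) (n2 := ndF0q1) (pc := pcF0) (cut := cut_pp_101) (xt := Ext.none) (P1 := 536870912) (W1 := 536870912) (P2 := 536870912) (W2 := 536870912) (P3 := 1046898278) (W3 := 26843546)
    rfl k0_pp_101

noncomputable def cut_pp_102 : Cut := Cut.of [[⟨3, 0, 0, 1449551462⟩], [⟨4, 0, 0, 2845415833⟩]]

noncomputable def f_pp_102 : ℕ → ℕ → ℕ → ℕ → Bool := onCell 536870912 536870912 0 536870912 1046898278 26843546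
    (rowFX 0 false true true .npp 1 0 2 (qsf 536870912 536870912 0 536870912 0) ndF0q1 ndF0q2 pcF0 cut_pp_102 Ext.none)

def k0_pp_102 : ∃ t, chk3 f_pp_102 t 1 1 1 = true :=
  ⟨(a (l 6) (l 3)), by decide +kernel⟩

theorem c_pp_102 : CertFX 536870912 536870912 0 536870912 1046898278 26843546 false true true .npp 1 0 2
    ndF0q1 ndF0q2 pcF0 cut_pp_102 Ext.none :=
  certFX0 (fam := false) (s1 := true) (s2 := true) (a := 1) (b := 0) (c := 2) (cn := .npp) (n1 := ndF0q1) (n2 := ndF0q2) (pc := pcF0) (cut := cut_pp_102) (xt := Ext.none) (P1 := 536870912) (W1 := 536870912) (P2 := 0) (W2 := 536870912) (P3 := 1046898278) (W3 := 26843546)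
    rfl k0_pp_102

noncomputable def cut_pp_112 : Cut := Cut.of [[⟨3, 0, 0, 1449551462⟩], [⟨4, 0, 0, 2845415833⟩]]

noncomputable def f_pp_112 : ℕ → ℕ → ℕ → ℕ → Bool := onCell 536870912 536870912 0 536870912 1046898278 26843546
    (rowFX 0 false true true .dn 1 1 2 (qsf 536870912 536870912 0 536870912 1) ndF0q1 ndF0q2 pcF1 cut_pp_112 Ext.none)

def k0_pp_112 : ∃ t, chk3 f_pp_112 t 1 1 1 = true :=
  ⟨(a (l 6) (l 1)), by decide +kernel⟩

theorem c_pp_112 : CertFX 536870912 536870912 0 536870912 1046898278 26843546 false true true .dn 1 1 2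
    ndF0q1 ndF0q2 pcF1 cut_pp_112 Ext.none :=
  certFX0 (fam := false) (s1 := true) (s2 := true) (a := 1) (b := 1) (c := 2) (cn := .dn) (n1 := ndF0q1) (n2 := ndF0q2) (pc := pcF1) (cut := cut_pp_112) (xt := Ext.none) (P1 := 536870912) (W1 := 536870912) (P2 := 0) (W2 := 536870912) (P3 := 1046898278) (W3 := 26843546)
    rfl k0_pp_112

noncomputable def cut_pp_202 : Cut := Cut.of [[⟨3, 0, 0, 1449551462⟩], [⟨4, 0, 0, 2845415833⟩]]

noncomputable def f_pp_202 : ℕ → ℕ → ℕ → ℕ → Bool := onCell 0 536870912 0 536870912 1046898278 26843546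
    (rowFX 0 false true true .pp 2 0 2 (qsf 0 536870912 0 536870912 0) ndF0q2 ndF0q2 pcF0 cut_pp_202 Ext.none)

def k0_pp_202 : ∃ t, chk3 f_pp_202 t 1 1 1 = true :=
  ⟨(l 3), by decide +kernel⟩

theorem c_pp_202 : CertFX 0 536870912 0 536870912 1046898278 26843546 false true true .pp 2 0 2
    ndF0q2 ndF0q2 pcF0 cut_pp_202 Ext.none :=
  certFX0 (fam := false) (s1 := true) (s2 := true) (a := 2) (b := 0) (c := 2) (cn := .pp) (n1 := ndF0q2) (n2 := ndF0q2) (pc := pcF0) (cut := cut_pp_202) (xt := Ext.none) (P1 := 0) (W1 := 536870912) (P2 := 0) (W2 := 536870912) (P3 := 1046898278) (W3 := 26843546)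
    rfl k0_pp_202

noncomputable def cut_pm_001 : Cut := Cut.of [[⟨3, 0, 0, 1449551462⟩], [⟨4, 0, 0, 2845415833⟩]]

noncomputable def f_pm_001 : ℕ → ℕ → ℕ → ℕ → Bool := onCell 0 536870912 536870912 536870912 1046898278 26843546
    (rowFX 0 false true false .up 0 0 1 (qsf 0 536870912 536870912 536870912 0) ndF0q0 ndF0q1 pcF0 cut_pm_001 Ext.none)

def k0_pm_001 : ∃ t, chk3 f_pm_001 t 1 1 1 = true :=
  ⟨(b (l 14) (a (b (l 14) (l 2)) (b (b (l 14) (a (l 14) (a (a (l 14) (a (l 14) (b (l 14) (b (l 14) (c (l 16752376) (l 16751728)))))) (a (b (l 14) (b (c (l 16777216) (l 16777216)) (c (l 16752376) (l 16751728)))) (b (c (c (l 16777216) (l 16777216)) (c (l 16777216) (c (l 16777216) (l 16777216)))) (c (b (l 16777216) (l 16752376)) (b (l 16777216) (l 16751728)))))))) (b (b (a (l 14) (a (c (c (a (b (l 16650832) (l 16540472)) (l 16532536)) (b (l 16649184) (l 16537376))) (a (b (l 16646704) (l 194447318647)) (b (l 16646704) (l 16532736)))) (c (a (b (l 16650008) (l 16538920)) (l 16510376))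 (a (l 16484656) (l 16505624))))) (a (l 2) (a (c (c (b (l 16426784) (l 16309856)) (l 16299744)) (a (l 165455791655) (l 162771437095))) (c (c (l 16368008) (l 16362664)) (a (l 16333664) (l 16354640)))))) (a (l 2) (b (a (a (l 2) (b (c (l 16172304) (l 191225293703)) (l 2))) (c (b (l 16172304) (l 39290580135)) (c (l 131095447415) (a (l 255649481383) (l 16076976))))) (a (l 2) (a (b (b (c (l 15936120) (l 244375145911)) (l 2)) (l 2)) (c (b (c (l 15905712) (l 15908248)) (c (l 15803536) (l 60228097463))) (b (c (l 15902536) (l 191224819047)) (c (b (l 15820656) (l 15766296)) (c (l 198740725175) (l 300209341431))))))))))))), by decide +kernel⟩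

theorem c_pm_001 : CertFX 0 536870912 536870912 536870912 1046898278 26843546 false true false .up 0 0 1
    ndF0q0 ndF0q1 pcF0 cut_pm_001 Ext.none :=
  certFX0 (fam := false) (s1 := true) (s2 := false) (a := 0) (b := 0) (c := 1) (cn := .up) (n1 := ndF0q0) (n2 := ndF0q1) (pc := pcF0) (cut := cut_pm_001) (xt := Ext.none) (P1 := 0) (W1 := 536870912) (P2 := 536870912) (W2 := 536870912) (P3 := 1046898278) (W3 := 26843546)
    rfl k0_pm_001

noncomputable def cut_pm_011 : Cut := Cut.of [[⟨3, 0, 0, 1449551462⟩], [⟨4, 0, 0, 2845415833⟩], [⟨0, 0, 0, 67108864⟩, ⟨1, 1, 0, 67108864⟩, ⟨2, 1, 0, 67108864⟩]]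

noncomputable def f_pm_011 : ℕ → ℕ → ℕ → ℕ → Bool := onCell 0 536870912 536870912 536870912 1046898278 26843546
    (rowFX 0 false true false .pnn 0 1 1 (qsf 0 536870912 536870912 536870912 1) ndF0q0 ndF0q1 pcF1 cut_pm_011 Ext.none)

def k0_pm_011 : ∃ t, chk3 f_pm_011 t 1 2 1 = true :=
  ⟨(l 14), by decide +kernel⟩

def k1_pm_011 : ∃ t, chk3 f_pm_011 t 2 3 1 = true :=
  ⟨(b (l 14) (a (l 14) (b (l 14) (a (l 14) (b (l 14) (b (l 14) (a (l 14) (a (b (l 14) (b (a (l 14) (c (c (l 15785776) (l 15773288)) (c (l 15766552) (c (l 15766664) (l 15763040))))) (c (c (b (l 15752104) (l 15745448)) (a (l 15710504) (l 15738592))) (c (a (b (l 15700224) (l 15693096)) (a (l 15738144) (l 15754888))) (c (a (l 15688456) (l 15738944)) (b (l 15696128) (a (l 15678280) (l 15729256)))))))) (c (b (c (l 15797696) (b (l 15830752) (l 15801512))) (c (l 15787456) (b (l 15781616) (l 15767968)))) (b (c (b (l 15835112) (l 15804256)) (l 15814488)) (c (b (l 15775016) (l 15755088)) (b (l 15773160) (c (l 15747600)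 (l 15745632)))))))))))))), by decide +kernel⟩

def k2_pm_011 : ∃ t, chk3 f_pm_011 t 6 6 1 = true :=
  ⟨(l 14), by decide +kernel⟩

def k3_pm_011 : ∃ t, chk3 f_pm_011 t 6 14 1 = true :=
  ⟨(a (l 14) (b (l 14) (a (b (l 14) (c (l 16306800) (l 16294576))) (c (b (l 16424496) (l 16306800)) (b (l 16394360) (l 16294576)))))), by decide +kernel⟩

def k4_pm_011 : ∃ t, chk3 f_pm_011 t 6 30 1 = true :=
  ⟨(a (a (a (l 14) (b (l 14) (b (l 14) (c (l 15994200) (l 15973544))))) (b (a (l 14) (c (l 16172304) (l 16156592))) (c (c (b (l 16064432) (l 15998752)) (l 16021856)) (c (l 16012112) (l 16002368))))) (c (c (b (l 16176232) (l 16037656)) (a (l 15947792) (l 16073616))) (a (b (l 16156592) (c (l 16012112) (l 16002368))) (b (l 16135616) (c (l 16012112) (l 16002368)))))), by decide +kernel⟩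

def k5_pm_011 : ∃ t, chk3 f_pm_011 t 6 31 1 = true :=
  ⟨(c (a (b (a (c (b (l 15938120) (l 15872232)) (b (l 15939112) (l 15879384))) (c (b (l 15938120) (l 15872232)) (b (l 15939112) (l 15879384)))) (c (a (b (b (l 15828056) (l 15807968)) (b (l 15793952) (l 15780992))) (b (a (l 15818672) (l 15818672)) (b (l 15793952) (l 15780992)))) (a (b (b (c (l 15827784) (l 15832104)) (l 15801512)) (b (l 15781616) (l 15767968))) (b (a (l 15817560) (l 15817560)) (c (l 15777752) (l 15771672)))))) (b (c (b (l 15938120) (a (l 15872232) (l 15872232))) (b (l 15939112) (a (c (l 15878568) (l 15881560)) (l 15879384)))) (c (a (b (l 15818672) (l 15787456)) (l 15803536)) (a (b (l 15817560) (l 15774848)) (b (l 15817560) (l 15774848)))))) (a (b (a (c (l 15902536) (l 15891408)) (c (l 15902536) (l 15891408))) (c (b (a (c (b (l 15836656) (l 15802568)) (b (l 15836016) (l 15805696))) (a (b (l 15835112) (l 15804256)) (b (l 15835112) (l 15804256)))) (a (b (l 15775016) (c (l 15758200) (l 15751872))) (c (l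 15766576) (l 15763784)))) (b (a (a (l 15814488) (l 15814488)) (a (l 15814488) (l 15814488))) (b (a (l 15752184) (l 15773160)) (a (c (l 15747600) (l 15745632)) (c (l 15747600) (l 15745632))))))) (b (b (a (l 15922656) (l 15922656)) (c (a (l 15877704) (l 15877704)) (a (l 15865800) (l 15865800)))) (c (b (a (c (l 15819824) (l 15820448)) (l 15820656)) (a (c (l 15766576) (l 15763784)) (c (l 15766576) (l 15763784)))) (b (a (l 15814488) (l 15814488)) (a (b (l 15773160) (c (l 15747600) (l 15745632))) (c (l 15762272) (l 15760832)))))))), by decide +kernel⟩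

def k6_pm_011 : ∃ t, chk3 f_pm_011 t 7 3 1 = true :=
  ⟨(b (a (a (l 14) (l 1)) (l 1)) (b (b (a (a (c (c (b (l 16650832) (l 16540472)) (l 16551136)) (b (l 16646704) (l 16532736))) (a (c (l 163778586007) (l 16484656)) (l 1))) (l 1)) (a (c (c (b (l 16426784) (l 16309856)) (l 16362664)) (a (c (l 16357312) (l 16351960)) (l 16249776))) (a (c (l 16365336) (l 16291720)) (l 1)))) (b (c (a (c (b (l 16176232) (l 16037656)) (b (l 16168376) (l 16021856))) (c (b (l 16176232) (l 16037656)) (l 16094592))) (a (c (b (l 16160520) (l 16012112)) (b (l 16152664) (a (l 16002368) (l 16002368)))) (c (b (l 16160520) (l 16012112)) (b (l 16152664) (l 16002368))))) (c (a (b (c (b (l 15938120) (l 15872232)) (b (l 15939112) (a (l 15879384) (l 15879384)))) (c (a (l 15803536) (l 15803536)) (b (l 15796584) (a (l 15774848) (l 15774848))))) (c (b (l 15905712) (l 15803536)) (b (c (l 15908912) (l 15908232)) (b (l 15817560) (l 15774848))))) (a (b (b (c (l 15928072) (l 15917248)) (c (a (l 15877704) (l 15877704))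 (a (l 15865800) (l 15865800)))) (c (b (a (l 15820656) (l 15820656)) (a (l 15766296) (l 15766296))) (b (a (l 15814488) (l 15814488)) (a (c (l 15762272) (l 15760832)) (c (l 15762272) (l 15760832)))))) (b (a (b (l 15922656) (a (l 15872736) (l 15872736))) (c (l 15902536) (l 15891408))) (c (b (c (l 15819824) (l 15820448)) (c (l 15766576) (l 15763784))) (a (b (l 15814488) (c (l 15762272) (l 15760832))) (c (l 15772008) (l 15726528)))))))))), by decide +kernel⟩

theorem s7_pm_011 : ∃ t, chk3 f_pm_011 t 6 15 1 = true := ex3_b k4_pm_011 k5_pm_011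

theorem s8_pm_011 : ∃ t, chk3 f_pm_011 t 6 7 1 = true := ex3_b k3_pm_011 s7_pm_011

theorem s9_pm_011 : ∃ t, chk3 f_pm_011 t 6 3 1 = true := ex3_b k2_pm_011 s8_pm_011

theorem s10_pm_011 : ∃ t, chk3 f_pm_011 t 3 3 1 = true := ex3_a s9_pm_011 k6_pm_011

theorem s11_pm_011 : ∃ t, chk3 f_pm_011 t 1 3 1 = true := ex3_a k1_pm_011 s10_pm_011

theorem s12_pm_011 : ∃ t, chk3 f_pm_011 t 1 1 1 = true := ex3_b k0_pm_011 s11_pm_011

theorem c_pm_011 : CertFX 0 536870912 536870912 536870912 1046898278 26843546 false true false .pnn 0 1 1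
    ndF0q0 ndF0q1 pcF1 cut_pm_011 Ext.none :=
  certFX0 (fam := false) (s1 := true) (s2 := false) (a := 0) (b := 1) (c := 1) (cn := .pnn) (n1 := ndF0q0) (n2 := ndF0q1) (pc := pcF1) (cut := cut_pm_011) (xt := Ext.none) (P1 := 0) (W1 := 536870912) (P2 := 536870912) (W2 := 536870912) (P3 := 1046898278) (W3 := 26843546)
    rfl s12_pm_011

end Pool.Agent.Strip051.G.IE1.Tab.C.FB00

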