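import Pool.Agent.Strip051.G.IE1.StF

/-! # Strips St4 (generated) -/

set_option linter.all false
set_option maxRecDepth 100000

namespace Pool.Agent.Strip051.G.IE1.Tab.St.C

open Pool.Agent.Strip051.PB Pool.Agent.Strip051.PB.T
open Pool.Agent.StripNear Pool.Agent.Strip051.LC
open Pool.Agent.Strip051.G.IE1.Tab Pool.Agent.Strip051.G.IE1.Tab.St

noncomputable def cut_B00pm_012_s3 : Cut := Cut.of [[⟨3, 0, 0, 2845415833⟩], [⟨0, 0, 0, 67108864⟩, ⟨1, 1, 0, 67108864⟩, ⟨2, 1, 0, 67108864⟩]]

noncomputable def f_B00pm_012_s3 : ℕ → ℕ → ℕ → ℕ → Bool := onCell 536870912 536870912 0 536870912 1046898278 26843546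
    (rowFX 2 false true false .pnp 0 1 2 (qsf 0 536870912 0 536870912 1) ndF0q0 ndF0q2 pcF1 cut_B00pm_012_s3 Ext.none)

def k0_B00pm_012_s3 : ∃ t, chk3 f_B00pm_012_s3 t 2 1 1 = true :=
  ⟨(b (l 6) (b (l 6) (l 6))), by decide +kernel⟩

def k1_B00pm_012_s3 : ∃ t, chk3 f_B00pm_012_s3 t 3 2 1 = true :=
  ⟨(l 6), by decide +kernel⟩

def k2_B00pm_012_s3 : ∃ t, chk3 f_B00pm_012_s3 t 6 6 1 = true :=
  ⟨(l 6), by decide +kernel⟩

def k3_B00pm_012_s3 : ∃ t, chk3 f_B00pm_012_s3 t 12 7 1 = true :=
  ⟨(b (l 6) (b (l 6) (a (a (l 6) (a (l 6) (a (l 6) (b (l 6) (b (l 6) (c (c (l 15738528) (l 15724728)) (c (l 15711864) (c (l 15705384) (l 15703496))))))))) (c (c (b (a (l 6) (b (l 6) (l 15696344))) (b (l 15679928) (b (l 15628464) (b (l 15602384) (a (l 15642768) (l 15526728)))))) (b (a (l 6) (b (l 6) (l 15611280))) (b (c (l 15670152) (l 15497600)) (b (l 15528976) (b (l 15502496) (a (l 15627528) (c (l 15513632) (l 15505128)))))))) (b (a (l 6) (b (l 6) (c (c (l 15613840) (l 15696576)) (l 15602528))))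 (b (c (c (a (l 15721904) (l 15604032)) (a (l 15639064) (b (l 15627856) (l 15579632)))) (a (c (l 15722368) (l 15716592)) (c (b (l 15625656) (l 15579472)) (l 15595968)))) (c (a (b (l 15657728) (a (l 15650816) (c (l 15513352) (l 15588816)))) (b (l 15538336) (b (l 15509840) (b (l 15496152) (b (l 15489280) (l 15485168)))))) (c (b (a (l 15652944) (c (l 15531720) (l 15531624))) (a (l 15526640) (b (l 15497840) (b (l 15483304) (b (l 15476352) (b (l 15472872) (l 15470824))))))) (a (b (l 15650288) (c (l 15606456) (l 15521200))) (b (l 15528584) (b (l 15410912) (b (l 15476792) (c (l 15468448) (l 15380776)))))))))))))), by decide +kernel⟩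

def k4_B00pm_012_s3 : ∃ t, chk3 f_B00pm_012_s3 t 13 14 1 = true :=
  ⟨(l 6), by decide +kernel⟩

def k5_B00pm_012_s3 : ∃ t, chk3 f_B00pm_012_s3 t 26 30 1 = true :=
  ⟨(a (l 6) (a (l 6) (b (l 6) (b (l 6) (c (c (l 15603592) (c (l 15605496) (l 15601688))) (c (l 15589752) (l 15573840))))))), by decide +kernel⟩

def k6_B00pm_012_s3 : ∃ t, chk3 f_B00pm_012_s3 t 26 31 1 = true :=
  ⟨(c (c (b (b (a (l 15663576) (l 15542208)) (l 15517600)) (b (l 15441240) (b (l 15387728) (b (l 15360616) (a (l 15406144) (l 15281048)))))) (b (a (b (c (l 15667536) (l 15669704)) (l 15491472)) (b (c (l 15544824) (l 15546104)) (c (l 15449880) (l 15450280)))) (b (a (l 15488264) (l 15362400)) (b (l 15284536) (b (l 15340896) (b (l 15327016) (a (l 15382048) (c (l 15259336) (l 15248968))))))))) (b (c (b (a (l 15579680) (c (l 15542448) (l 15534136))) (c (a (l 15492672) (b (l 15475040) (l 15426456))) (a (l 15574496) (l 15363856)))) (a (c (l 15525760) (l 15434160)) (c (l 15314904) (b (l 15517496) (l 15430400)))))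 (c (a (b (c (l 15481480) (b (l 15504736) (l 15455816))) (b (l 15414272) (b (l 15385232) (b (l 15371280) (b (l 15364272) (c (l 15364800) (l 15355344))))))) (b (c (l 15270360) (b (l 15293048) (l 15327312))) (b (l 15201632) (b (l 15255944) (b (l 15241728) (b (l 15234584) (c (l 15235736) (c (l 15227704) (l 15222512))))))))) (b (a (c (b (l 15501624) (l 15370840)) (l 15470664)) (c (b (l 15372912) (c (l 15326808) (l 15324928))) (l 15340680))) (b (c (a (c (l 15406496) (l 15405928)) (c (l 15276584) (l 15191680))) (a (l 15318312) (c (l 15273680) (l 15269168)))) (c (b (a (l 15371840) (l 15241160)) (b (l 15124368) (b (l 15201104) (b (l 15197520) (a (l 15260640) (a (l 15246592) (l 15179936))))))) (b (a (c (l 15367944) (l 15365576)) (c (l 15236568) (l 15233736))) (b (c (l 15117248) (a (l 15348232) (l 15216112))) (c (b (l 15193592) (b (l 15189984) (b (l 15188184) (a (l 15336552) (a (l 15238024) (l 15170960)))))) (a (c (l 15337688) (l 15252088)) (c (a (l 15239216) (l 15088224)) (c (l 15203800)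 (l 15119192))))))))))))), by decide +kernel⟩

def k7_B00pm_012_s3 : ∃ t, chk3 f_B00pm_012_s3 t 27 30 1 = true :=
  ⟨(c (a (b (l 6) (b (a (l 6) (c (l 15658464) (l 15650816))) (a (a (c (l 15556920) (c (l 15558320) (l 15554192))) (c (l 15530760) (c (a (l 15534496) (l 15529304)) (l 15527584)))) (c (l 15571744) (c (l 15573400) (l 15569424)))))) (c (b (b (l 6) (c (l 15842144) (l 15835944))) (c (b (l 15765904) (l 15681776)) (b (l 15767400) (l 15560968)))) (b (b (l 6) (a (l 6) (l 15861936))) (c (b (l 15677504) (a (l 15647968) (l 15726264))) (a (b (l 15717600) (l 15644584)) (l 15757944)))))) (a (b (l 6) (b (a (l 6) (c (l 15635648) (l 15620480))) (a (c (a (l 15541760) (a (l 15517512) (l 15512248))) (a (l 15525176) (a (l 15500608) (l 15495288)))) (c (l 15557232) (l 15457096))))) (a (b (l 6) (c (b (a (l 15688520) (l 15725736)) (c (l 15637048) (l 15629520))) (c (a (l 15556152) (l 15678760)) (b (l 15689496) (l 15614448))))) (b (b (l 6) (c (l 15849968) (l 15754112))) (c (b (l 15782600)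 (l 15713120)) (c (l 15654016) (l 15647336))))))), by decide +kernel⟩

def k8_B00pm_012_s3 : ∃ t, chk3 f_B00pm_012_s3 t 27 62 1 = true :=
  ⟨(c (b (a (a (c (l 15450872) (a (l 15465040) (a (l 15440880) (b (l 15460424) (l 15412720))))) (c (l 15481848) (c (l 15483912) (l 15484816)))) (c (c (l 15599840) (l 15600488)) (c (a (l 15563136) (l 15645744)) (a (b (l 15587616) (l 15543736)) (l 15647928))))) (a (a (c (l 15363456) (a (l 15370680) (a (l 15346264) (l 15341632)))) (c (l 15397592) (l 15392088))) (c (c (l 15525152) (l 15520800)) (c (l 15350720) (a (l 15475968) (l 15563664)))))) (a (a (c (b (a (l 15458160) (a (l 15433672) (c (l 15432888) (l 15423824)))) (c (a (l 15369672) (a (l 15345000) (c (l 15340880) (l 15340632)))) (a (l 15366144) (a (l 15341312) (l 15336616))))) (a (l 15312464) (a (l 15371392) (b (l 15410224) (l 15322608))))) (c (b (c (l 15480792) (l 15472104)) (c (b (l 15415136) (l 15367744)) (l 15388088))) (b (l 15375184) (l 15290792)))) (c (b (a (c (l 15561272) (l 15553216))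 (l 15557920)) (c (a (b (l 15499240) (l 15454288)) (b (l 15586480) (l 15543784))) (a (b (l 15494512) (l 15453928)) (l 15563120)))) (a (a (c (l 15400240) (l 15391744)) (l 15439336)) (b (l 15626640) (l 15467848)))))), by decide +kernel⟩

def k9_B00pm_012_s3 : ∃ t, chk3 f_B00pm_012_s3 t 27 63 2 = true :=
  ⟨(a (a (b (c (l 15285528) (a (l 15281360) (a (l 15256688) (l 15252360)))) (b (c (l 15146944) (a (l 15222696) (l 15111888))) (b (c (l 15119240) (a (l 15194576) (l 15083736))) (b (c (l 15105272) (a (l 15180400) (l 15069544))) (c (c (a (l 15199136) (l 15088768)) (l 15091064)) (a (l 15088464) (a (l 15063440) (b (l 15144352) (l 15056464))))))))) (b (c (l 15322904) (l 15306008)) (b (l 15260256) (b (l 15233592) (b (l 15220152) (c (l 15223216) (l 15202072))))))) (b (c (l 15455640) (a (c (l 15398040) (l 15391344)) (l 15487064))) (b (c (l 15408792) (l 15306248)) (b (c (l 15385056) (l 15366040)) (b (c (l 15373080) (l 15353880)) (c (c (l 15412864) (l 15361344)) (c (l 15351808) (l 15258432)))))))),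 by decide +kernel⟩

def k10_B00pm_012_s3 : ∃ t, chk3 f_B00pm_012_s3 t 27 126 3 = true :=
  ⟨(a (a (c (c (a (l 15272344) (a (l 15247416) (l 15243056))) (a (b (l 15294688) (l 15244616)) (a (b (l 15269656) (l 15219456)) (b (l 15265192) (l 15215144))))) (a (c (b (l 15290096) (l 15242048)) (l 15257072)) (a (c (b (l 15264888) (l 15216712)) (l 15231632)) (c (b (l 15260408) (c (l 15214064) (l 15211808))) (l 15227200))))) (c (c (l 15297352) (b (l 15319096) (l 15270704))) (c (b (l 15314736) (c (l 15269952) (l 15267912))) (l 15282792)))) (c (c (a (b (l 15408112) (l 15365336)) (l 15480536)) (b (a (c (l 15409184) (l 15409504)) (l 15501288)) (a (l 15362928) (l 15457736)))) (a (c (b (l 15405144) (c (l 15362712) (l 15361032))) (l 15291280)) (c (b (l 15498328) (l 15372960)) (l 15470240))))), by decide +kernel⟩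

def k11_B00pm_012_s3 : ∃ t, chk3 f_B00pm_012_s3 t 54 254 3 = true :=
  ⟨(a (c (a (l 15202672) (a (l 15177464) (l 15173320))) (c (a (c (l 15193016) (l 15191704)) (a (c (l 15167592) (l 15166192)) (c (l 15163424) (b (l 15174712) (l 15148936))))) (a (l 15186848) (a (l 15161208) (c (l 15159744) (l 15154848)))))) (c (l 15230312) (c (c (l 15220984) (l 15219800)) (l 15131248)))), by decide +kernel⟩

def k12_B00pm_012_s3 : ∃ t, chk3 f_B00pm_012_s3 t 54 255 3 = true :=
  ⟨(a (b (c (a (l 15172768) (a (l 15147456) (l 15143432))) (c (a (l 15157112) (a (l 15131536) (l 15127480))) (a (c (l 15152080) (l 15148960)) (a (c (l 15126376) (l 15123168)) (c (l 15090856) (l 15119088)))))) (b (c (a (l 15158376) (a (l 15133016) (l 15129048))) (a (c (l 15141856) (l 15132896)) (a (c (l 15116232) (l 15107104)) (c (l 15112240) (c (l 15104192) (c (l 15101568) (l 15099936))))))) (b (c (a (l 15151152) (a (l 15125768) (l 15121832))) (a (c (l 15134552) (l 15124184)) (a (c (l 15108904) (l 15098360)) (c (l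 15104936) (c (l 15096488) (l 15091888)))))) (c (a (c (l 15152400) (l 15141512)) (a (c (l 15127088) (l 15116032)) (c (l 15039304) (b (l 15112568) (l 15026640))))) (a (b (l 15125592) (c (l 15129104) (b (l 15118072) (b (l 15117088) (c (l 15119368) (c (l 15115200) (l 15112712))))))) (a (b (l 15099848) (b (l 15097872) (c (l 15102504) (c (l 15094032) (c (l 15090776) (l 15087160)))))) (b (c (l 15101280) (l 15090264)) (c (c (l 15018056) (l 15075432)) (b (l 15088264) (b (l 15087280) (b (l 15086792) (c (l 15089368) (c (l 15085128) (a (a (c (l 15076328) (l 15075064)) (l 15078776)) (l 15087968))))))))))))))) (c (b (l 15201688) (b (l 15187936) (b (l 15181032) (c (l 15182504) (l 15171920))))) (c (b (l 15186432) (b (l 15171832) (b (l 15164848) (b (l 15161352) (c (l 15162088) (l 15156792)))))) (b (c (l 15181608) (l 15178616)) (c (b (l 15164128) (b (l 15156752) (b (l 15153240) (b (l 15151480) (l 15150736))))) (b (l 15161480) (a (c (l 15127120) (b (l 15126896) (l 15037808))) (c (l 15176496)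 (b (l 15176336) (l 15171280)))))))))), by decide +kernel⟩

def k13_B00pm_012_s3 : ∃ t, chk3 f_B00pm_012_s3 t 55 127 3 = true :=
  ⟨(b (c (a (c (l 15328304) (l 15320288)) (l 15421504)) (c (a (c (l 15316304) (b (l 15327120) (l 15303480))) (c (l 15414016) (l 15413576))) (a (a (l 15287048) (l 15335840)) (l 15410016)))) (c (b (a (l 15298008) (l 15396560)) (b (a (l 15285224) (l 15384672)) (b (a (l 15278808) (l 15378704)) (c (l 15246216) (a (l 15270368) (l 15370912)))))) (c (b (a (l 15283880) (l 15383568)) (b (l 15194456) (b (l 15230136) (b (l 15226992) (a (c (l 15261208) (l 15256296)) (l 15360512)))))) (c (b (a (l 15195728) (l 15379872)) (b (l 15229552) (b (l 15222904) (b (l 15219744) (b (l 15218168) (a (l 15250664) (l 15352688))))))) (b (a (l 15277000) (l 15377632)) (b (a (l 15260848) (l 15362392)) (c (a (l 15251576) (l 15353512)) (a (c (l 15249600) (l 15248832)) (l 15351744))))))))), by decide +kernel⟩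

def k14_B00pm_012_s3 : ∃ t, chk3 f_B00pm_012_s3 t 7 6 1 = true :=
  ⟨(l 6), by decide +kernel⟩

def k15_B00pm_012_s3 : ∃ t, chk3 f_B00pm_012_s3 t 14 14 1 = true :=
  ⟨(a (a (l 6) (b (l 6) (b (l 6) (b (l 6) (c (c (a (l 16220520) (l 16281320)) (a (l 16213752) (c (l 16276960) (l 16274048)))) (a (c (l 16123088) (l 16116320)) (c (a (l 16258168) (l 16281304)) (a (l 16252176) (l 16275664))))))))) (b (l 6) (c (b (a (l 6) (b (l 6) (c (a (b (l 6) (l 16508104)) (a (l 16551808) (l 16527992))) (a (c (l 16519072) (l 16517968)) (c (l 16475328) (l 16474536)))))) (a (c (a (b (l 16383848) (l 16325184)) (b (a (l 16415240) (l 16436608)) (l 16369896))) (a (b (l 16379544) (l 16320056)) (b (l 16422232) (l 16365456)))) (c (a (b (a (l 16458328) (l 16479760)) (a (l 16403480) (l 16422984))) (b (a (l 16498600) (l 16515064)) (l 16448960))) (a (b (a (l 16455192) (l 16476960)) (l 16367056)) (b (c (l 16504952) (l 16503760)) (l 16445744)))))) (b (b (l 6) (a (l 6) (c (a (l 16432416) (c (l 16557624) (l 16556832)))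 (c (l 16450984) (l 16450032))))) (b (c (a (a (l 16291352) (l 16376656)) (a (l 16379064) (l 16501984))) (a (a (l 16370936) (l 16414952)) (a (l 16459984) (l 16499608)))) (c (a (a (l 16314928) (l 16361024)) (a (l 16321336) (l 16442520))) (a (a (l 16309800) (l 16356584)) (a (l 16401440) (l 16439304))))))))), by decide +kernel⟩

def k16_B00pm_012_s3 : ∃ t, chk3 f_B00pm_012_s3 t 28 30 1 = true :=
  ⟨(c (c (a (b (b (l 15963120) (l 15981760)) (b (c (l 15916016) (l 15918704)) (c (l 15840184) (l 15846448)))) (b (b (a (l 16153560) (l 16217896)) (a (l 16094296) (l 16162224))) (a (b (l 16033320) (l 15967736)) (b (c (l 16105528) (l 16109664)) (l 15958984))))) (a (b (a (b (l 6) (l 15934344)) (b (l 16073176) (l 16008904))) (c (b (l 15913872) (b (l 15867656) (l 15830848))) (b (l 15824432) (l 15762024)))) (b (a (b (l 16145864) (l 16085632)) (b (c (l 16212864) (l 16209520)) (l 16154600))) (a (c (b (l 16033880) (l 15974024)) (l 16001232)) (c (b (l 16106288) (l 16050008)) (l 15992040)))))) (a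 (b (c (b (a (l 6) (l 16064360)) (a (l 15923496) (l 15999208))) (b (a (l 6) (l 15971656)) (a (l 15912656) (l 15989512)))) (c (a (b (l 15860320) (l 15795128)) (b (l 15940216) (l 15879288))) (a (c (l 15692840) (l 15728704)) (c (l 15817720) (l 15812264))))) (b (a (c (b (l 16054280) (l 16077104)) (b (l 16046576) (l 16068576))) (c (b (a (l 16192248) (l 16216832)) (l 16063224)) (b (a (l 16185368) (l 16210312)) (a (l 16126456) (l 16152896))))) (a (c (b (l 16022280) (l 15965600)) (c (l 15902840) (l 15898000))) (c (b (l 16012160) (a (l 16028704) (l 16057496))) (a (l 15962888) (l 16075320))))))), by decide +kernel⟩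

def k17_B00pm_012_s3 : ∃ t, chk3 f_B00pm_012_s3 t 28 62 1 = true :=
  ⟨(c (a (c (b (l 15768208) (l 15699496)) (b (c (l 15689768) (b (l 15797040) (l 15674736))) (a (l 15653224) (l 15744808)))) (c (a (b (l 15899408) (l 15836272)) (b (l 15975680) (l 15911408))) (b (a (c (l 15906352) (l 15910512)) (c (l 15983472) (l 15904320))) (a (l 15753704) (l 15829952))))) (a (a (c (b (l 15644296) (c (l 15571696) (l 15654304))) (b (l 15714328) (l 15643944))) (c (b (l 15732816) (c (l 15748200) (l 15747608))) (b (l 15804160) (l 15738280)))) (c (a (b (l 15907352) (c (l 15758120) (l 15842104))) (b (a (l 15972880) (l 15999952)) (c (l 15835208) (l 15919744)))) (a (b (l 15896144) (l 15833808)) (a (b (l 15962616) (l 15899400)) (l 15957664)))))), by decide +kernel⟩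

def k18_B00pm_012_s3 : ∃ t, chk3 f_B00pm_012_s3 t 28 63 2 = true :=
  ⟨(b (a (c (l 15640656) (c (l 15630696) (l 15541904))) (c (a (l 15779952) (l 15854712)) (a (l 15770144) (l 15846008)))) (c (a (b (l 15662960) (a (b (l 15530712) (c (l 15521936) (l 15513592))) (b (l 15628280) (b (l 15617624) (a (l 15546608) (l 15613056)))))) (b (a (l 15739544) (c (l 15819208) (l 15812976))) (a (b (l 15718472) (b (l 15710456) (c (c (a (l 15683792) (l 15686960)) (l 15702888)) (l 15697784)))) (c (a (b (l 15701936) (c (a (a (l 15718864) (a (l 15727368) (b (l 15777296) (l 15770744)))) (b (l 15785592) (l 15779144))) (l 15750344))) (b (l 15813624) (c (b (l 15805496) (l 15757312)) (l 15799576)))) (b (l 15793296) (b (l 15783360) (l 15777304))))))) (a (b (l 15584352) (b (l 15563144) (b (l 15552344) (c (l 15550208) (l 15458336))))) (a (b (l 15725944) (b (l 15704552) (b (l 15693760) (l 15687840)))) (b (l 15803624) (b (l 15783720) (b (l 15773672) (c (l 15770864) (l 15764456))))))))), by decide +kernel⟩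

def k19_B00pm_012_s3 : ∃ t, chk3 f_B00pm_012_s3 t 28 63 3 = true :=
  ⟨(a (c (b (c (a (l 15575576) (l 15672664)) (b (a (l 15595896) (l 15692616)) (l 15436080))) (b (a (l 15520384) (l 15620336)) (b (a (l 15497208) (l 15597744)) (b (l 15452288) (b (l 15446752) (b (l 15443968) (a (l 15476752) (l 15577080)))))))) (b (c (b (l 15558208) (a (l 15554488) (l 15654160))) (a (l 15567432) (l 15666680))) (b (c (a (l 15430408) (c (l 15614696) (l 15614992))) (a (l 15510760) (l 15612544))) (c (b (l 15451944) (b (l 15524040) (b (l 15518448) (b (l 15515632) (a (l 15463976) (c (l 15567000) (l 15563208))))))) (b (a (l 15482392) (l 15500896)) (b (a (l 15467120) (l 15569536)) (c (a (l 15377624) (l 15563320)) (a (c (l 15457536) (l 15456008)) (c (l 15559744) (l 15558456)))))))))) (c (a (b (c (l 15766808) (b (l 15788176) (l 15748312))) (b (l 15713712) (b (l 15690632) (b (l 15679680) (b (l 15674168) (c (l 15674560) (l 15667632))))))) (b (c (l 15843496) (b (l 15864704) (l 15825624))) (b (l 15792520)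 (b (l 15770952) (b (l 15760752) (b (l 15755624) (b (l 15753056) (l 15751904)))))))) (b (a (c (b (l 15787328) (l 15749568)) (l 15762880)) (c (a (l 15832424) (l 15859656)) (l 15841232))) (b (a (c (l 15709744) (l 15707624)) (c (l 15705512) (l 15787840))) (b (a (c (l 15680896) (l 15679360)) (c (l 15762072) (l 15761112))) (a (c (c (l 15586368) (l 15665856)) (c (l 15661688) (l 15575712))) (b (c (l 15751056) (l 15746648)) (b (l 15743184) (a (b (l 15725480) (b (l 15724024) (c (l 15726584) (a (l 15711952) (l 15729208))))) (c (l 15759472) (l 15752320))))))))))), by decide +kernel⟩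

def k20_B00pm_012_s3 : ∃ t, chk3 f_B00pm_012_s3 t 29 30 1 = true :=
  ⟨(c (a (b (b (c (a (l 16264520) (l 16311136)) (a (l 16258536) (l 16305864))) (c (a (l 16211656) (l 16257504)) (a (l 16204784) (l 16251320)))) (c (a (b (c (l 16156064) (l 16160584)) (l 16092136)) (b (c (l 16199640) (l 16204480)) (l 16135272))) (b (a (l 16155728) (l 16200120)) (c (a (l 16099824) (l 16143440)) (l 16121616))))) (c (b (b (a (l 16352000) (l 16388856)) (a (l 16297064) (l 16336456))) (a (b (c (l 16240408) (l 16245552)) (l 16178912)) (b (c (l 16282304) (l 16287752)) (c (l 16219552) (l 16228648))))) (b (b (a (l 16347352) (l 16384760)) (a (l 16291472) (l 16331448))) (b (a (l 16241648) (l 16284304)) (c (a (l 16187552) (l 16232776)) (l 16210856)))))) (a (b (c (a (b (l 16252552) (l 16198048)) (b (l 16216704) (l 16245280))) (a (b (l 16246576) (l 16191312)) (b (l 16295320) (l 16239232)))) (c (a (b (l 16148296) (l 16093728)) (l 16081872)) (a (a (l 16101152) (l 16125304)) (l 16158584)))) (c (b (a (b (l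 16342704) (l 16286016)) (b (l 16380664) (l 16326576))) (a (l 16209272) (l 16253912))) (b (a (l 16225440) (l 16349168)) (a (l 16202720) (l 16247984)))))), by decide +kernel⟩

def k21_B00pm_012_s3 : ∃ t, chk3 f_B00pm_012_s3 t 29 31 2 = true :=
  ⟨(b (a (c (b (a (l 16023032) (l 16068336)) (a (l 15959272) (l 16007408))) (b (c (l 16054096) (l 15975456)) (a (l 15962400) (l 16011232)))) (c (a (b (l 16114736) (l 16056616)) (b (l 16162232) (l 16106896))) (b (c (a (l 16124056) (l 16172048)) (l 16069920)) (c (l 16083072) (l 16088304))))) (b (a (c (b (l 15942392) (l 15919016)) (a (l 15897432) (l 15949176))) (a (l 16006048) (a (l 16046144) (c (l 16079080) (l 16073552))))) (a (c (a (b (l 15869008) (b (l 15850528) (b (l 15841200) (c (c (l 15798008) (l 15836904)) (l 15832536))))) (b (l 15922216) (b (l 15904848) (b (l 15896072) (c (c (l 15811072) (l 15892104)) (l 15888040)))))) (b (l 15884136) (b (l 15865944) (b (l 15856752) (b (l 15852136) (c (l 15852664) (l 15846800))))))) (b (a (l 15971368)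 (c (l 16040312) (l 16031000))) (b (a (l 15955032) (l 16025512)) (b (a (c (l 15952280) (l 15941704)) (l 16021168)) (c (a (c (l 15908648) (l 15945304)) (c (l 16026544) (l 16021616))) (b (a (l 15937712) (l 16014232)) (a (l 15935936) (c (l 16015696) (l 16010944))))))))))), by decide +kernel⟩

def k22_B00pm_012_s3 : ∃ t, chk3 f_B00pm_012_s3 t 29 31 3 = true :=
  ⟨(b (a (c (b (a (l 16034656) (l 16081280)) (a (c (l 15968184) (l 15969192)) (l 15933208))) (a (l 15993800) (l 16042544))) (c (b (l 16069384) (c (l 16009680) (l 16095448))) (a (l 16092392) (l 16143328)))) (b (c (a (c (l 15921464) (a (l 15897904) (l 15950560))) (c (a (l 16001120) (l 16058392)) (a (l 16004280) (l 16061944)))) (a (a (l 15895952) (l 15949160)) (a (l 16003424) (a (l 16044904) (l 15993064))))) (a (c (c (a (a (a (l 15736592) (l 15834056)) (l 15770656)) (a (l 15882080) (l 15909872))) (b (l 15871768) (a (l 15820712) (l 15876984)))) (c (b (l 15871920) (a (l 15813736) (l 15870464))) (b (l 15870936) (a (c (l 15810080)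 (l 15809624)) (l 15784328))))) (b (c (a (l 15957456) (l 16023064)) (a (l 15958064) (c (a (l 16001840) (l 16042120)) (a (l 16001728) (l 16042272))))) (a (b (c (l 15939368) (l 15933016)) (c (b (l 15931128) (b (l 15927080) (b (l 15925072) (l 15924456)))) (c (l 15922696) (c (l 15917984) (l 15917040))))) (b (c (l 16011296) (c (l 16004880) (c (l 16004480) (l 16004440)))) (c (b (l 16006832) (b (l 16004640) (b (l 16003536) (a (l 15981368) (l 16025544))))) (c (a (l 15977920) (b (l 16021864) (b (l 16019720) (b (l 16018648) (b (l 16018112) (l 16018072)))))) (c (c (a (l 15974072) (a (l 16007456) (l 16029832))) (a (l 15972800) (b (l 16018280) (l 15973768)))) (a (b (l 15974472) (l 15969792)) (b (a (l 16007944) (l 15946488)) (c (a (l 16003112) (l 16025624)) (b (l 16014864) (c (l 16012464) (c (l 16012160) (l 16012176)))))))))))))))), by decide +kernel⟩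

def k23_B00pm_012_s3 : ∃ t, chk3 f_B00pm_012_s3 t 30 28 2 = true :=
  ⟨(a (l 6) (b (l 6) (a (b (l 6) (b (l 6) (c (a (l 16459688) (c (l 16484640) (l 16441968))) (c (a (c (l 16548248) (l 16595256)) (c (l 16557136) (c (l 16487232) (l 16492432)))) (l 16502488))))) (c (a (b (l 6) (c (l 16352344) (l 16393224))) (b (c (l 16298680) (c (l 16391136) (l 16327112))) (c (l 16312944) (l 16353864)))) (c (a (b (l 6) (l 16434664)) (b (l 16378136) (l 16395344))) (a (c (b (l 6) (a (l 16468704) (l 16454560))) (l 16445448)) (c (b (l 16387536) (l 16426832)) (b (c (l 16443024) (l 16406056)) (a (l 16450664) (l 16436280)))))))))), by decide +kernel⟩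

def k24_B00pm_012_s3 : ∃ t, chk3 f_B00pm_012_s3 t 60 29 2 = true :=
  ⟨(c (b (a (c (a (b (c (a (l 6) (l 16561304)) (l 16551344)) (c (a (l 16499624) (l 16511472)) (l 16585152))) (b (c (l 16574008) (b (l 6) (l 16558568))) (c (l 16535024) (l 16520424)))) (b (b (l 6) (l 16546936)) (l 16507992))) (b (a (c (l 16547128) (c (b (l 16561632) (l 16572336)) (l 16578480))) (c (l 16509176) (c (l 16540824) (b (l 16544984) (l 16568560))))) (c (l 16576552) (a (c (l 16534920) (l 16613760)) (c (l 16564624) (l 16549824)))))) (a (c (c (a (b (a (l 16529504) (l 16542128)) (a (l 16473448) (l 16486864))) (l 16456312)) (a (l 16419328) (b (l 16467816) (l 16497072)))) (b (l 16538192) (l 16482456))) (b (c (a (l 16508968) (l 16545464)) (a (c (l 16483304) (l 16561752)) (c (l 16514752) (l 16499192)))) (c (c (l 16486416) (l 16465080)) (a (c (l 16429672) (l 16507728)) (c (l 16546792) (l 16446560))))))) (b (a (b (b (l 6) (l 16588504)) (c (l 16507456) (l 16590800))) (b (c (l 16570432) (l 16570376)) (c (l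 16537120) (l 16536808)))) (a (b (a (l 16528928) (l 16544720)) (l 16438488)) (b (l 16485064) (l 16431136))))), by decide +kernel⟩

def k25_B00pm_012_s3 : ∃ t, chk3 f_B00pm_012_s3 t 61 29 2 = true :=
  ⟨(b (a (c (b (a (c (l 16470624) (b (l 16501464) (l 16524432))) (b (l 16441528) (l 16463632))) (a (c (l 16520008) (l 16563880)) (c (l 16479936) (b (l 16510664) (l 16537048))))) (c (c (b (a (a (l 16547520) (l 16533520)) (l 16505944)) (a (l 16565128) (l 16557144))) (b (a (l 16544936) (b (l 16552368) (l 16575736))) (a (l 16560096) (a (l 16573536) (l 16567568))))) (b (a (l 16544768) (l 16527296)) (l 16567864)))) (c (b (b (c (l 16361112) (l 16403120)) (c (l 16382128) (l 16424888))) (a (b (l 16448408) (l 16473952)) (c (l 16398016) (l 16441944)))) (b (c (a (l 16477024) (l 16457688)) (a (c (a (l 16554200) (l 16539704)) (l 16509400)) (c (l 16469336) (a (l 16535912) (c (l 16475600) (l 16483816)))))) (a (c (b (a (l 16524512) (l 16504160)) (a (l 16551352) (l 16530768))) (c (a (l 16564128)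 (l 16549328)) (l 16561424))) (c (b (l 16473352) (l 16499624)) (c (b (l 16506848) (l 16533712)) (a (l 16545704) (l 16530664)))))))) (c (a (c (b (l 16469256) (l 16553784)) (b (l 16560224) (a (l 16491136) (l 16530712)))) (b (a (c (l 16491056) (b (l 16522848) (l 16550264))) (b (l 16458320) (a (l 16495552) (l 16474240)))) (b (c (l 16510448) (l 16557096)) (b (l 16470552) (l 16484024))))) (a (b (c (a (c (l 16515480) (l 16593952)) (c (l 16547944) (a (l 16524456) (l 16538216)))) (l 16518144)) (c (a (c (l 16463856) (l 16541936)) (c (l 16498096) (a (l 16557288) (l 16487952)))) (l 16466432))) (a (c (b (l 16575664) (c (l 16538248) (l 16516312))) (a (b (l 16540680) (l 16490512)) (c (b (l 16555440) (l 16506176)) (l 16523480)))) (b (c (b (a (l 16537176) (l 16516080)) (l 16554416)) (c (l 16575488) (a (l 16558864) (l 16573080)))) (c (l 16569456) (a (c (l 16524832) (l 16509936)) (b (l 16547480) (l 16567888))))))))), by decide +kernel⟩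

def k26_B00pm_012_s3 : ∃ t, chk3 f_B00pm_012_s3 t 30 14 3 = true :=
  ⟨(b (b (l 6) (b (a (l 6) (a (l 6) (c (c (l 16415872) (l 16498704)) (l 16497120)))) (a (l 6) (c (a (c (l 16491336) (l 16490760)) (c (l 16456328) (l 16539424))) (a (l 16489896) (l 16538240)))))) (c (a (b (a (c (b (l 16557424) (l 16590256)) (l 16531488)) (b (l 16570296) (l 16536344))) (a (c (l 16423048) (l 16505792)) (c (l 16456800) (l 16455904)))) (a (b (c (b (l 16535800) (l 16567784)) (b (l 16535520) (l 16567712))) (c (a (l 16482864) (l 16500592)) (l 16491040))) (b (b (c (a (l 16509064) (l 16490840)) (l 16499488)) (b (l 16580216) (l 16565832))) (b (c (l 16552528) (l 16552336)) (c (a (l 16577312) (l 16513800)) (l 16503264)))))) (a (b (a (l 16530952) (l 16560720)) (a (l 16420184) (l 16454560))) (b (a (c (l 16561896) (l 16561792)) (c (l 16525296) (l 16524960))) (a (c (l 16490400) (l 16489760)) (b (l 16552040) (l 16502424))))))), by decide +kernel⟩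

def k27_B00pm_012_s3 : ∃ t, chk3 f_B00pm_012_s3 t 60 30 1 = true :=
  ⟨(c (b (c (b (a (c (a (c (l 16339416) (l 16417040)) (l 16376384)) (l 16424648)) (c (l 16422400) (a (c (l 16457880) (l 16451648)) (c (l 16492928) (l 16391896))))) (a (c (a (c (l 16331152) (l 16366520)) (l 16338160)) (l 16374464)) (c (l 16376616) (a (l 16365552) (c (l 16446752) (l 16428816)))))) (a (b (l 16421984) (l 16371240)) (b (l 16459040) (l 16410800)))) (c (a (c (a (c (b (a (l 16309440) (l 16325336)) (l 16256568)) (b (l 16315720) (l 16255152))) (b (c (l 16356104) (b (l 16358720) (l 16329616))) (c (l 16296248) (l 16282912)))) (b (l 16329712) (l 16189352))) (c (b (b (l 16343832) (l 16399424)) (b (l 16287776) (l 16262968))) (b (a (c (l 16325152) (l 16361024)) (c (l 16405928) (l 16388144))) (a (c (a (l 16300928) (l 16318640)) (l 16309272)) (c (l 16356984) (b (a (l 16344560) (l 16364912)) (l 16331176))))))) (a (c (b (l 16327952) (l 16277688)) (l 16302240)) (b (l 16368864) (c (b (l 16339016) (a (l 16299160)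 (l 16329496))) (l 16327896)))))) (b (c (a (b (l 16418432) (l 16366944)) (b (l 16456024) (l 16407064))) (a (l 16388792) (l 16344304))) (c (a (l 16298248) (b (l 16364480) (l 16324152))) (a (l 16292936) (l 16256656))))), by decide +kernel⟩

def k28_B00pm_012_s3 : ∃ t, chk3 f_B00pm_012_s3 t 61 30 2 = true :=
  ⟨(a (b (c (b (c (l 16504416) (l 16459496)) (a (l 16417824) (a (l 16451352) (l 16476240)))) (c (b (a (c (l 16410208) (l 16487888)) (c (l 16530152) (c (l 16430944) (l 16425048)))) (a (c (l 16364304) (l 16441600)) (c (l 16489056) (a (l 16459824) (l 16437048))))) (b (l 16412696) (a (l 16440360) (l 16464024))))) (c (c (b (a (b (l 16495712) (l 16473312)) (l 16455880)) (a (l 16444176) (l 16420304))) (b (a (l 16359224) (l 16415424)) (b (l 16362024) (l 16343464)))) (c (b (a (c (a (l 16400904) (l 16421400)) (l 16405800)) (a (l 16388032) (l 16466920))) (a (c (b (l 16391024) (c (l 16374648) (l 16371728))) (l 16377272)) (c (l 16352080) (a (l 16407296) (l 16432296))))) (a (b (l 16404352)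 (l 16375904)) (l 16425168))))) (c (b (b (a (l 16505120) (l 16489720)) (c (a (l 16540944) (l 16585448)) (a (l 16494304) (l 16552912)))) (a (b (c (b (l 16525744) (l 16508128)) (l 16475712)) (c (c (l 16483112) (l 16472376)) (l 16446240))) (b (c (b (l 16582816) (l 14)) (l 16536648)) (l 14)))) (b (b (a (c (l 16479064) (c (a (l 16439736) (a (l 16451512) (l 16462176))) (l 16527880))) (c (a (l 16516176) (l 16544200)) (c (l 16495808) (a (c (l 16467120) (l 16547936)) (l 16488472))))) (c (a (l 16446920) (l 16505680)) (a (c (a (l 16488040) (l 16511344)) (l 16494192)) (c (l 16553696) (a (l 16522632) (l 16546424)))))) (b (c (l 16457688) (a (c (a (l 16466648) (l 16491032)) (l 16473024)) (c (l 16534976) (a (l 16502712) (l 16527408))))) (a (a (c (l 16386704) (l 16443040)) (l 14)) (l 14)))))), by decide +kernel⟩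

def k29_B00pm_012_s3 : ∃ t, chk3 f_B00pm_012_s3 t 61 30 3 = true :=
  ⟨(c (b (a (b (a (l 16484952) (l 16504584)) (a (l 16437872) (l 16461784))) (b (a (l 16484672) (l 16513536)) (a (l 16492584) (l 16528272)))) (a (a (b (l 16401440) (l 16372648)) (l 16422440)) (b (l 16447792) (l 16384160)))) (a (b (b (l 16492256) (l 16447200)) (a (l 16383488) (l 16418800))) (b (b (c (l 16456632) (l 16539608)) (l 16508072)) (l 16392104)))), by decide +kernel⟩

def k30_B00pm_012_s3 : ∃ t, chk3 f_B00pm_012_s3 t 30 31 2 = true :=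
  ⟨(a (c (b (a (c (a (b (a (l 16190296) (l 16205456)) (c (a (l 16140632) (l 16161512)) (l 16146040))) (b (c (l 16242392) (a (l 16214808) (l 16234016))) (c (l 16204592) (a (l 16171464) (l 16196488))))) (b (l 16212192) (a (l 16146656) (l 16179544)))) (c (b (b (l 16241184) (l 16308288)) (a (l 16255656) (b (l 16325216) (l 16225928)))) (b (a (c (a (l 16245576) (l 16269024)) (l 16255928)) (c (l 16314064) (l 16298728))) (a (c (l 16223696) (l 16217920)) (c (l 16282424) (l 16263704)))))) (a (c (a (a (b (l 16108784) (b (l 16010224) (b (l 16002680) (b (l 16040496) (a (l 15990416) (l 14)))))) (b (l 16132432) (a (b (l 16027536) (b (l 16019608) (l 14))) (b (l 16123880) (l 14))))) (b (c (l 16183104) (l 16162608)) (b (c (l 16165496) (l 16149168)) (l 14)))) (b (l 16133304) (b (l 16119136) (b (l 16111976) (b (l 16108352) (a (l 16085592) (l 14))))))) (a (b (b (c (l 16237936) (l 16228392)) (l 14)) (l 14)) (l 14)))) (a (b (b (c (l 16136528) (l 16226824)) (c (l 16166416) (l 16172216))) (b (l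 16130488) (b (l 16112976) (b (l 16105720) (b (l 16102040) (b (l 16100192) (c (l 16101624) (l 16097440)))))))) (b (b (c (b (l 16292752) (l 16269352)) (b (l 16299584) (l 16278296))) (c (l 16240288) (l 16246592))) (b (l 16211840) (l 14))))) (b (b (a (c (b (c (a (l 16417368) (l 16391544)) (l 16407720)) (c (a (l 16400536) (l 14)) (l 16306296))) (c (a (c (a (l 16327896) (l 16353520)) (l 16340504)) (c (l 16399688) (a (l 16371680) (l 14)))) (a (l 16345088) (l 16384040)))) (l 14)) (l 14)) (l 14))), by decide +kernel⟩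

def k31_B00pm_012_s3 : ∃ t, chk3 f_B00pm_012_s3 t 30 31 3 = true :=
  ⟨(b (c (a (a (b (l 16227048) (c (l 16178048) (l 16180496))) (b (l 16289104) (c (l 16252920) (l 16255864)))) (a (b (l 16366112) (l 14)) (l 14))) (a (a (l 16199336) (l 16267752)) (a (l 16347520) (l 14)))) (a (b (c (c (a (l 16130936) (l 16213096)) (a (l 16134968) (l 16217672))) (c (l 16094912) (l 16092392))) (c (a (b (l 16106144) (b (l 16097384) (b (l 16093632) (b (l 16091744) (b (l 16090800) (c (l 16092664) (l 16088544))))))) (l 14)) (b (a (c (l 16022328) (l 16106792)) (l 14)) (b (a (c (l 16091832) (c (l 16091856) (l 16092096))) (l 14)) (a (a (a (c (b (l 16054920) (b (l 16052896) (b (l 16051872) (b (l 16051368) (l 16051320))))) (c (b (l 16051960) (c (l 16050488) (l 16049080))) (b (l 15968584) (c (l 16047792) (b (l 16048336) (c (l 16045992) (b (l 16046256) (l 16045152)))))))) (l 14)) (l 14)) (l 14)))))) (l 14))), by decide +kernel⟩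

def k32_B00pm_012_s3 : ∃ t, chk3 f_B00pm_012_s3 t 124 28 2 = true :=
  ⟨(c (b (l 6) (a (b (b (l 6) (c (l 16330832) (l 16370696))) (c (c (l 16346680) (l 16283128)) (b (l 16304664) (l 16323152)))) (c (c (a (b (l 16283088) (l 16316264)) (b (a (c (l 16264432) (l 16273008)) (c (l 16261792) (l 16265136))) (a (c (l 16297104) (l 16306000)) (c (l 16294432) (l 16297944))))) (b (b (l 16284672) (l 16300864)) (l 16284464))) (b (b (l 16230232) (l 16246960)) (b (l 16264320) (l 16282328)))))) (b (l 6) (c (a (b (b (l 6) (l 16327232)) (l 16376384)) (b (b (l 16269976) (l 16287424)) (b (l 16305512) (l 16324248)))) (a (b (l 16358848) (l 16397504)) (b (b (l 16394152) (l 16328456)) (b (l 16347272) (l 16366744))))))), by decide +kernel⟩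

def k33_B00pm_012_s3 : ∃ t, chk3 f_B00pm_012_s3 t 125 28 4 = true :=
  ⟨(b (b (l 6) (a (l 6) (a (a (l 6) (l 16243520)) (a (l 16245512) (l 16247496))))) (a (c (c (b (l 16266864) (l 16299816)) (a (b (a (c (l 16268736) (l 16272728)) (c (l 16266016) (l 16269992))) (a (c (l 16293832) (l 16305960)) (c (l 16299032) (l 16295248)))) (b (l 16269200) (l 16302416)))) (a (b (c (b (l 16274600) (c (l 16285856) (l 16295528))) (l 16302336)) (c (b (l 16286632) (l 16283128)) (l 16336688))) (c (b (a (c (l 16268912) (a (l 16274768) (l 16271336))) (l 16270616)) (a (c (l 16302200) (a (l 16308280) (l 16304784))) (l 16304040))) (b (c (a (l 16282152) (a (l 16274952) (l 16272456))) (l 16287072)) (c (a (l 16315960) (a (l 16308592) (l 16306056))) (l 16321128)))))) (b (c (l 16275288) (c (l 16275760) (a (c (l 16273904) (a (a (l 16275512) (l 16273960)) (l 16275112))) (l 16278200)))) (c (b (l 16300088) (a (l 16315256) (l 16276848))) (a (c (l 16307256) (c (l 16307608) (a (a (l 16309296) (l 16307720)) (l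 16308952)))) (b (l 16303136) (l 16298856))))))), by decide +kernel⟩

def k34_B00pm_012_s3 : ∃ t, chk3 f_B00pm_012_s3 t 125 28 5 = true :=
  ⟨(c (b (b (l 6) (a (l 6) (a (c (a (l 6) (c (l 16245128) (l 16250584))) (l 16269704)) (c (l 16252512) (a (c (l 16250984) (l 16259568)) (c (l 16248304) (l 16251656))))))) (a (b (b (l 16230040) (l 16288936)) (b (l 16264592) (l 16282832))) (a (c (b (c (a (l 16281952) (a (l 16281712) (l 16275856))) (b (l 16278896) (l 16295400))) (b (a (l 16312312) (c (l 16301672) (l 16307528))) (a (l 16330080) (c (l 16319296) (l 16325272))))) (b (l 16301968) (l 16336792))) (b (c (b (l 16249664) (l 16287048)) (a (c (b (l 16274496) (l 16291000)) (l 16291640)) (c (l 16280024) (a (l 16284336) (l 16281808))))) (c (b (l 16304112) (c (l 16278552) (a (l 16321000) (l 16321600)))) (a (c (a (l 16318448) (b (l 16306024) (l 16323672))) (l 16326208)) (b (c (l 16305432) (l 16309080)) (c (l 16301048) (a (l 16327144) (c (l 16238600) (l 16324352))))))))))) (b (b (l 6) (a (l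 6) (b (l 6) (l 16297208)))) (a (b (b (l 16270384) (l 16288064)) (b (l 16306392) (l 16325368))) (b (b (l 16229864) (l 16247048)) (b (l 16264880) (b (l 16278600) (a (l 16382544) (l 16276208)))))))), by decide +kernel⟩

def k35_B00pm_012_s3 : ∃ t, chk3 f_B00pm_012_s3 t 63 56 2 = true :=
  ⟨(a (b (l 6) (c (a (c (l 16252376) (l 16252704)) (a (c (l 16260336) (l 16259128)) (b (l 16259088) (c (l 16274864) (l 16230488))))) (a (c (l 16253192) (a (c (a (c (l 16252600) (l 16259232)) (l 16253392)) (l 16269176)) (c (l 16255624) (a (l 16237296) (l 16257032))))) (c (a (l 16259288) (b (l 16256280) (l 16229056))) (b (l 16254112) (l 16269208)))))) (c (b (a (c (l 16249328) (l 16246704)) (b (l 6) (l 16262288))) (a (b (c (l 16226648) (l 16224136)) (l 16267504)) (b (l 16271056) (l 16280312)))) (b (b (l 6) (a (a (l 6) (l 16211544)) (l 16257248))) (a (c (b (l 16221632) (l 16274320)) (b (l 16261512) (l 16188440))) (c (l 16272000) (l 16269552)))))), by decide +kernel⟩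

def k36_B00pm_012_s3 : ∃ t, chk3 f_B00pm_012_s3 t 126 57 2 = true :=
  ⟨(c (b (a (c (b (l 16275608) (c (l 16270216) (l 16270472))) (b (l 16276152) (a (l 16290472) (l 16272944)))) (a (b (c (l 16262032) (c (l 16239952) (l 16239872))) (c (l 16253440) (l 16273480))) (c (l 16281216) (b (l 16284408) (l 16294416))))) (a (c (b (a (l 16263792) (l 16264184)) (c (l 16275808) (l 16318128))) (b (a (l 16285696) (l 16264944)) (l 16308440))) (c (c (l 16312280) (l 16300792)) (b (c (l 16263192) (l 16262720)) (c (l 16274064) (l 16294608)))))) (a (c (b (b (l 16276848) (a (l 16291296) (l 16273808))) (b (a (l 16286664) (l 16265928)) (l 16309528))) (b (a (c (a (c (a (l 16284952) (l 16283384)) (l 16291528)) (c (l 16284560) (l 16286024))) (c (l 16296824) (l 16306768))) (c (l 16287328) (a (c (l 16287640) (l 16292344)) (l 16299312)))) (a (c (c (a (b (a (l 16310600) (l 16308896)) (c (l 16323136) (l 16325504))) (l 16315088)) (a (b (l 16317280) (l 16331984)) (b (c (l 16309464) (l 16311056)) (l 16323024))))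 (b (b (l 16323472) (l 16310416)) (c (l 16314896) (l 16346240)))) (c (l 16314136) (a (c (a (l 16316248) (l 16314968)) (b (l 16315040) (l 16326296))) (l 16314264)))))) (a (b (b (c (l 16240392) (l 16283136)) (c (l 16294928) (l 16295848))) (c (l 16310912) (l 16311992))) (b (c (b (l 16241120) (l 16293144)) (l 16288208)) (c (b (l 16261672) (l 16272704)) (l 16309456)))))), by decide +kernel⟩

def k37_B00pm_012_s3 : ∃ t, chk3 f_B00pm_012_s3 t 127 57 2 = true :=
  ⟨(c (c (b (a (l 16283280) (c (b (a (l 16291240) (c (l 16251744) (l 16292208))) (a (c (l 16281656) (l 16301160)) (a (b (l 16258800) (l 14)) (l 14)))) (l 16295824))) (a (c (b (a (l 16309152) (c (b (l 16308352) (l 16272824)) (l 16310384))) (b (a (l 16317424) (a (l 16298528) (l 14))) (a (c (l 16282480) (l 16322720)) (l 14)))) (l 16293344)) (a (b (a (b (c (l 16288992) (l 16307936)) (l 14)) (l 14)) (l 14)) (l 14)))) (b (a (b (l 16286376) (l 16296448)) (b (l 16288912) (l 16299264))) (a (b (l 16307064) (l 16318224)) (b (l 16310160)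 (l 14))))) (b (c (a (b (l 16283984) (l 16294112)) (b (l 16286544) (l 16296952))) (a (c (l 16287400) (l 16286624)) (l 16289392))) (c (a (b (l 16304784) (l 16316008)) (b (l 16307904) (l 14))) (a (c (l 16308832) (l 16308128)) (c (l 16311984) (l 16310872)))))), by decide +kernel⟩

def k38_B00pm_012_s3 : ∃ t, chk3 f_B00pm_012_s3 t 124 58 2 = true :=
  ⟨(c (b (a (c (c (l 16299872) (l 16320936)) (b (l 16342288) (l 16363344))) (c (a (l 16300240) (c (a (c (l 16291032) (l 16342200)) (b (l 16322968) (l 16342552))) (l 16268888))) (b (l 16300984) (l 16321568)))) (a (c (l 16356168) (l 16400104)) (c (a (l 16324392) (a (b (l 16339008) (l 16362416)) (c (b (l 16365352) (l 16387056)) (l 16307456)))) (b (l 16345384) (l 16390000))))) (b (a (c (b (l 16384920) (l 16406728)) (l 16449880)) (c (b (l 16343632) (l 16364968)) (b (l 16386872) (l 16408960)))) (a (c (l 16444640) (b (l 16476496) (a (l 16513680) (l 16492512)))) (c (b (l 16389544) (l 16413952)) (b (l 16434312) (l 16459488)))))), by decide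 +kernel⟩

def k39_B00pm_012_s3 : ∃ t, chk3 f_B00pm_012_s3 t 125 58 4 = true :=
  ⟨(b (a (c (a (c (l 16333712) (a (c (b (l 16325432) (l 16345136)) (l 16342408)) (b (l 16326440) (l 16346216)))) (b (l 16328696) (l 16305464))) (a (c (b (l 16301248) (l 16321312)) (l 16332352)) (c (a (c (b (l 16244920) (l 16348488)) (b (l 16333656) (a (l 16355064) (l 16351232)))) (b (l 16330760) (l 16349272))) (c (a (l 16310960) (b (l 16334672) (a (l 16354728) (l 16330248)))) (b (l 16348312) (l 16367496)))))) (c (b (a (l 16290312) (l 16332528)) (l 16304632)) (a (c (b (l 16291168) (l 16348624)) (b (c (l 16291600) (a (a (l 16336288) (l 16334512)) (l 16334672))) (a (c (l 16349640) (a (l 16353456) (l 16350272))) (l 16348808)))) (b (l 16333688) (l 16346792))))) (a (c (a (c (l 16374128) (a (b (c (l 16367784) (l 16375136)) (l 16391688)) (b (l 16346600) (l 16385104)))) (l 16373976)) (a (b (c (a (l 16391344) (l 16337704)) (l 16406952)) (c (l 16404424) (l 16426424))) (c (a (c (l 16376000) (a (l 16383400)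 (l 16378088))) (l 16374712)) (a (l 16396368) (c (a (l 16380568) (l 16376208)) (l 16387600)))))) (c (l 16370904) (c (l 16372016) (a (c (l 16373624) (a (a (l 16378080) (l 16374728)) (l 16373480))) (l 16371720)))))), by decide +kernel⟩

def k40_B00pm_012_s3 : ∃ t, chk3 f_B00pm_012_s3 t 125 58 5 = true :=
  ⟨(a (b (c (b (l 16301736) (b (l 16316608) (l 16348576))) (b (l 16345000) (b (l 16360424) (l 16371800)))) (c (b (a (l 16356240) (l 16330056)) (l 16361896)) (b (a (l 16401008) (l 16374792)) (l 16407376)))) (c (b (a (c (b (a (l 16348344) (c (a (b (l 16290912) (l 16299032)) (l 16251456)) (a (l 16345056) (l 16318680)))) (a (l 16365048) (c (l 16329656) (l 16356824)))) (b (l 16321632) (l 16379680))) (a (a (c (b (c (l 16335240) (l 16336352)) (l 16349128)) (b (l 16348448) (l 16361912))) (c (l 16341512) (c (b (l 16337928) (l 16351064)) (l 16353512)))) (c (l 16340648) (c (b (l 16334728) (l 16347864)) (b (a (l 16340224) (l 16335856)) (a (l 16353448) (l 16349048))))))) (a (c (a (l 16348032)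 (c (a (l 16334040) (l 16373656)) (l 16339632))) (l 16321128)) (c (b (l 16364328) (l 16381296)) (a (c (a (l 16381328) (l 16333936)) (l 16388864)) (c (l 16372696) (a (l 16378400) (l 16332032))))))) (b (b (a (l 16354136) (l 16286424)) (b (l 16310416) (l 16318736))) (b (l 16331624) (l 16349352))))), by decide +kernel⟩

def k41_B00pm_012_s3 : ∃ t, chk3 f_B00pm_012_s3 t 63 58 2 = true :=
  ⟨(c (b (b (a (a (c (l 16329232) (l 16330272)) (c (c (a (l 16328168) (c (l 16310288) (l 16329680))) (l 16328104)) (a (l 16285168) (l 16327272)))) (b (a (c (c (a (c (l 16311272) (l 16328664)) (l 14)) (l 16307664)) (l 16326952)) (l 14)) (l 14))) (a (a (c (l 16300288) (l 16301440)) (c (c (a (c (l 16342728) (l 16341048)) (a (b (l 16318904) (l 14)) (l 14))) (l 16299424)) (a (l 16319400) (l 16340664)))) (l 14))) (a (c (a (c (b (a (l 16359016) (c (l 16358256) (l 16357088))) (a (l 16376912) (c (l 16379960) (l 16375496)))) (l 16367056)) (a (b (c (c (l 16342664) (l 16358696)) (l 16356880)) (l 14)) (l 14)))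 (a (b (l 16359696) (l 16376712)) (a (c (l 16365160) (l 16365416)) (l 14)))) (l 14))) (a (a (c (b (b (l 16331472) (l 16344704)) (b (l 16361152) (l 16378312))) (b (a (c (a (c (b (l 16325872) (a (l 16350824) (l 16347440))) (b (l 16343696) (l 16357096))) (c (l 16339456) (b (l 16334472) (l 16347800)))) (b (l 16311064) (c (l 16319200) (l 16371848)))) (c (l 16337872) (c (b (l 16332056) (l 16345480)) (a (b (l 16337896) (l 16351392)) (l 16338264))))) (a (c (a (c (a (l 16333936) (l 16372480)) (l 16382352)) (c (l 16371216) (a (l 16331824) (l 16371400)))) (b (l 16341480) (l 16359008))) (c (l 16369824) (a (c (l 16371560) (a (l 16379200) (l 16373664))) (l 16370192)))))) (b (c (b (a (l 16327888) (l 16305256)) (a (l 16341264) (l 16318736))) (b (l 16327920) (l 16341464))) (a (c (l 16366504) (l 16368080)) (l 14)))) (a (a (b (b (c (l 16326880) (l 16283536)) (l 14)) (l 14)) (l 14)) (l 14)))), by decide +kernel⟩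

def k42_B00pm_012_s3 : ∃ t, chk3 f_B00pm_012_s3 t 62 59 2 = true :=
  ⟨(a (c (a (b (b (l 16415832) (l 16430160)) (a (b (l 16477424) (l 16498848)) (l 16459904))) (c (a (b (l 16369024) (l 16491384)) (c (b (a (l 16422320) (l 16413640)) (a (l 16458856) (l 16366344))) (l 16371296))) (b (b (l 16390824) (l 16410672)) (l 16439792)))) (a (b (c (b (l 16484160) (a (l 16522264) (l 16498640))) (b (c (l 16518840) (a (l 16552832) (l 16531448))) (a (l 16569376) (c (l 16533904) (l 16557608))))) (c (a (l 16559104) (b (l 16520576) (l 16541536))) (l 16574368))) (b (c (b (l 16436496) (l 16457072)) (a (b (l 16496504) (l 16518576)) (l 16479616))) (c (a (l 16501904) (l 16472608)) (a (c (b (l 16527360) (l 16548632)) (b (l 16551416) (l 16573056))) (b (l 16510136) (a (l 16538728) (l 16523944)))))))) (c (c (a (c (b (l 16408776) (b (l 16437416) (l 16460232))) (a (b (a (l 16375744) (l 16411040)) (a (l 16454504) (l 16447816))) (b (l 16408712) (l 16445776)))) (b (c (b (l 16397160) (a (l 16416472) (l 14)))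 (l 16405944)) (l 14))) (b (a (a (c (l 16346928) (l 16453344)) (c (a (c (l 16410448) (l 16415760)) (l 16409248)) (c (a (l 16425792) (l 16413624)) (l 16429936)))) (c (l 16406816) (a (c (l 16408424) (a (l 16369848) (l 16408416))) (l 16406784)))) (a (a (l 16395944) (c (a (l 16409024) (l 16446384)) (c (l 16415568) (l 16467704)))) (l 14)))) (b (a (c (l 16389432) (l 16436000)) (c (a (c (a (l 16425296) (c (l 16368304) (l 16416848))) (l 16440928)) (b (c (l 16398896) (a (l 16368616) (c (l 16398928) (l 16403056)))) (l 14))) (b (l 16367720) (l 16386744)))) (a (c (l 16428336) (a (l 16491184) (l 16461472))) (l 14))))), by decide +kernel⟩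

def k43_B00pm_012_s3 : ∃ t, chk3 f_B00pm_012_s3 t 63 59 2 = true :=
  ⟨(b (b (a (a (a (a (c (c (c (l 16396960) (l 16394544)) (l 16395824)) (c (l 16397576) (c (c (l 16401160) (l 16409016)) (l 16426256)))) (l 14)) (l 14)) (l 14)) (l 14)) (l 14)) (l 14)), by decide +kernel⟩

def k44_B00pm_012_s3 : ∃ t, chk3 f_B00pm_012_s3 t 62 28 3 = true :=
  ⟨(c (a (b (l 6) (c (c (a (b (c (l 16382744) (l 16387744)) (c (l 16464224) (l 16427504))) (b (l 16434096) (l 16388968))) (a (l 16408952) (b (c (l 16363968) (l 16452888)) (c (l 16403232) (l 16408488))))) (b (l 16462992) (l 16419008)))) (a (b (l 6) (c (b (l 16320472) (l 16358600)) (c (b (l 16388312) (c (l 16383744) (l 16472912))) (l 16454576)))) (c (b (b (l 6) (l 16329096)) (b (l 16279752) (b (l 16391168) (l 16325888)))) (b (c (l 16342736) (l 16294552)) (c (b (l 16394992) (l 16348872)) (b (l 16410592) (a (l 16458024) (l 16442024)))))))) (b (c (a (l 6) (l 16370536)) (l 16303112)) (c (a (l 16397856) (b (l 16424456) (l 16463488))) (a (l 16480600)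 (l 16358584))))), by decide +kernel⟩

def k45_B00pm_012_s3 : ∃ t, chk3 f_B00pm_012_s3 t 63 28 6 = true :=
  ⟨(a (c (b (b (l 6) (a (a (l 16298888) (a (l 16283648) (l 16232432))) (a (c (l 16261456) (l 16270600)) (l 16264272)))) (a (a (b (l 16332672) (b (l 16358768) (l 16373264))) (b (a (l 16317000) (b (l 16257016) (c (l 16284192) (l 16324600)))) (c (c (a (l 16330016) (l 16318208)) (l 16333640)) (l 16349800)))) (a (b (a (c (b (l 16285016) (l 16298752)) (l 16304584)) (c (l 16290136) (c (l 16291760) (l 16297672)))) (c (c (l 16312688) (l 16293496)) (c (a (l 16323200) (l 16313936)) (l 16327048)))) (b (c (l 16288888) (l 16289640)) (c (l 16310288) (l 16311152)))))) (b (a (l 16229040) (b (l 6) (c (a (l 16288376) (l 16271552)) (l 16298016)))) (a (b (l 16279880) (b (l 16304744) (l 16402744))) (a (b (l 16329344) (l 16353800)) (c (b (a (l 16300360) (l 16291728)) (c (l 16314688) (l 16321024))) (l 16324592)))))) (b (a (a (b (l 6) (c (l 16265384) (c (l 16265896) (l 16270744)))) (b (l 16242736)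 (l 16265672))) (b (c (l 16248152) (l 16245712)) (l 16265976))) (c (b (a (l 16286184) (l 16287056)) (a (c (l 16307712) (l 16307584)) (l 16309208))) (a (c (l 16296784) (a (b (l 16292288) (l 16314192)) (l 16295840))) (b (l 16284840) (l 16307104)))))), by decide +kernel⟩

def k46_B00pm_012_s3 : ∃ t, chk3 f_B00pm_012_s3 t 63 28 7 = true :=
  ⟨(c (a (b (b (l 6) (a (l 16355864) (l 16241368))) (a (c (b (l 16390040) (a (l 16434248) (l 16413336))) (l 16326216)) (c (b (l 16347536) (l 16372256)) (b (l 16363336) (l 16388592))))) (a (b (b (l 16176416) (c (l 16193344) (l 16292144))) (c (a (l 16317752) (l 16299032)) (l 16241576))) (b (b (l 16245328) (l 16264560)) (c (l 16294632) (a (l 16296480) (l 16293760)))))) (a (b (l 16330864) (b (l 16379720) (l 16409488))) (a (b (l 16230848) (c (l 16340832) (l 16345592))) (b (c (a (l 16263504) (l 16252912)) (a (l 16274320) (l 16257104))) (c (a (l 16305488) (l 16293792)) (a (l 16317112) (c (l 16296496) (l 16299656)))))))), by decide +kernel⟩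

def k47_B00pm_012_s3 : ∃ t, chk3 f_B00pm_012_s3 t 62 29 3 = true :=
  ⟨(b (c (a (b (c (a (c (a (l 16517200) (c (l 16540504) (l 16464888))) (l 16556016)) (c (l 16431000) (a (l 16456104) (l 16482832)))) (l 16462184)) (c (c (a (a (l 16526848) (l 16511560)) (l 16480896)) (a (l 16523864) (a (l 16507552) (c (l 16487224) (l 16495848))))) (a (l 16523600) (l 16503568)))) (b (c (a (b (l 16388856) (l 16410472)) (b (c (l 16331752) (l 16353832)) (l 16359104))) (a (c (a (l 16436520) (b (l 16493560) (l 16431336))) (l 16516440)) (c (b (l 16459936) (l 16476808)) (a (c (l 16411872) (l 16498392)) (l 16391624))))) (c (a (a (l 16477688) (l 16429544)) (l 16386104)) (a (c (a (c (l 16482680) (l 16569352)) (l 16462256)) (l 16477120)) (c (l 16420736) (c (l 16436200) (l 16441920))))))) (b (a (l 16461072) (c (a (l 16515752) (l 16489648)) (l 16416952))) (a (c (l 16513080) (l 16512664)) (a (l 16476312) (l 16526816))))) (c (a (c (b (a (c (a (l 16576704) (c (l 16561912) (l 16570808))) (l 16578936)) (a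 (b (c (l 16531640) (l 16547336)) (c (l 16554280) (l 16570256))) (c (l 16515008) (l 16536792)))) (c (a (a (a (l 16529280) (l 16538464)) (l 16556040)) (a (l 16582256) (b (l 16546352) (l 16568120)))) (a (l 16540736) (a (l 16567272) (l 16579696))))) (b (a (l 16578936) (l 16552168)) (a (l 16540504) (l 16573832)))) (b (a (c (c (l 16471328) (a (l 16509696) (l 16480416))) (c (a (l 16525568) (l 16502296)) (l 16518792))) (c (l 16424296) (c (l 16460024) (a (l 16490728) (l 16467136))))) (a (c (a (c (a (l 16535048) (l 16520216)) (b (l 16541224) (l 16563120))) (c (l 16497888) (l 16522368))) (c (a (l 16568552) (l 16544936)) (l 16561856))) (l 14)))) (c (a (b (l 16564568) (l 16557048)) (a (l 16540000) (l 16504896))) (a (b (l 16564472) (l 16556856)) (l 16522120))))), by decide +kernel⟩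

def k48_B00pm_012_s3 : ∃ t, chk3 f_B00pm_012_s3 t 63 29 3 = true :=
  ⟨(c (a (c (a (b (b (c (a (l 16297680) (c (a (l 16354320) (b (l 16335416) (l 16348968))) (l 16358128))) (l 16305432)) (c (c (a (l 16408936) (a (l 16386848) (a (l 16376240) (l 16371744)))) (l 16321768)) (l 16338976))) (a (b (l 16379656) (l 14)) (l 14))) (b (a (c (b (c (l 16336688) (a (b (l 16333216) (l 16346832)) (l 16336440))) (c (l 16369088) (a (a (l 16373688) (l 14)) (l 14)))) (b (c (a (l 16347520) (l 16317152)) (l 16267688)) (a (l 16385944) (l 14)))) (b (c (l 16334496) (b (l 16328624) (l 16342368))) (l 14))) (l 14))) (b (c (a (b (l 16327800) (l 16362056)) (a (b (l 16367960) (l 16401456)) (b (c (a (l 16341696) (l 16335248)) (l 16261848)) (l 14)))) (b (l 16321200) (l 16355664))) (a (b (l 16412312) (l 14)) (l 14)))) (a (b (b (a (a (c (l 16333048) (c (l 16334080) (l 16341496))) (l 14)) (l 14)) (l 14)) (l 14)) (l 14))) (b (b (c (a (c (a (c (l 16365352) (l 16454752)) (l 16398400)) (a (l 16456216) (l 16331384)))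 (a (a (l 16365624) (l 14)) (l 14))) (a (l 16437704) (a (l 16296520) (l 14)))) (a (c (c (a (c (l 16400816) (l 16490424)) (l 16433072)) (a (l 16492016) (l 16366624))) (l 16473448)) (l 14))) (a (a (a (a (b (l 16460944) (l 14)) (l 14)) (l 14)) (l 14)) (l 14)))), by decide +kernel⟩

def k49_B00pm_012_s3 : ∃ t, chk3 f_B00pm_012_s3 t 31 15 1 = true :=
  ⟨(b (a (c (b (a (a (b (c (c (l 16491640) (b (l 16529136) (l 16550784))) (l 16480528)) (c (c (c (l 16520080) (l 16538776)) (l 16575496)) (c (l 16565224) (c (l 16529464) (l 16505416))))) (b (c (c (a (l 16449096) (b (a (l 16458336) (c (l 16482096) (l 16495944))) (l 14))) (l 16480848)) (c (a (b (l 16533680) (l 16555704)) (b (l 16504024) (l 14))) (b (a (l 16582952) (c (l 16540872) (l 16565640))) (l 16590768)))) (l 14))) (l 14)) (l 14)) (a (b (c (c (a (b (c (a (l 16499704) (l 16522928)) (l 16590080)) (c (a (l 16558032) (l 16498248)) (l 16564680))) (b (c (l 16564768) (a (l 16534488) (l 16558016))) (l 14))) (b (l 16523384) (l 16498504)))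 (b (l 16522688) (l 16497488))) (l 14)) (l 14))) (l 14)) (l 14)), by decide +kernel⟩

theorem t50_B00pm_012_s3 : ∃ t, chk3 f_B00pm_012_s3 t 31 29 3 = true := ex3_a k47_B00pm_012_s3 k48_B00pm_012_s3

theorem t51_B00pm_012_s3 : ∃ t, chk3 f_B00pm_012_s3 t 63 28 3 = true := ex3_c k45_B00pm_012_s3 k46_B00pm_012_s3

theorem t52_B00pm_012_s3 : ∃ t, chk3 f_B00pm_012_s3 t 31 28 3 = true := ex3_a k44_B00pm_012_s3 t51_B00pm_012_s3

theorem t53_B00pm_012_s3 : ∃ t, chk3 f_B00pm_012_s3 t 31 14 3 = true := ex3_b t52_B00pm_012_s3 t50_B00pm_012_s3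

theorem t54_B00pm_012_s3 : ∃ t, chk3 f_B00pm_012_s3 t 31 59 2 = true := ex3_a k42_B00pm_012_s3 k43_B00pm_012_s3

theorem t55_B00pm_012_s3 : ∃ t, chk3 f_B00pm_012_s3 t 125 58 2 = true := ex3_c k39_B00pm_012_s3 k40_B00pm_012_s3

theorem t56_B00pm_012_s3 : ∃ t, chk3 f_B00pm_012_s3 t 62 58 2 = true := ex3_a k38_B00pm_012_s3 t55_B00pm_012_s3

theorem t57_B00pm_012_s3 : ∃ t, chk3 f_B00pm_012_s3 t 31 58 2 = true := ex3_a t56_B00pm_012_s3 k41_B00pm_012_s3

theorem t58_B00pm_012_s3 : ∃ t, chk3 f_B00pm_012_s3 t 31 29 2 = true := ex3_b t57_B00pm_012_s3 t54_B00pm_012_s3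

theorem t59_B00pm_012_s3 : ∃ t, chk3 f_B00pm_012_s3 t 63 57 2 = true := ex3_a k36_B00pm_012_s3 k37_B00pm_012_s3

theorem t60_B00pm_012_s3 : ∃ t, chk3 f_B00pm_012_s3 t 63 28 2 = true := ex3_b k35_B00pm_012_s3 t59_B00pm_012_s3

theorem t61_B00pm_012_s3 : ∃ t, chk3 f_B00pm_012_s3 t 125 28 2 = true := ex3_c k33_B00pm_012_s3 k34_B00pm_012_s3

theorem t62_B00pm_012_s3 : ∃ t, chk3 f_B00pm_012_s3 t 62 28 2 = true := ex3_a k32_B00pm_012_s3 t61_B00pm_012_s3

theorem t63_B00pm_012_s3 : ∃ t, chk3 f_B00pm_012_s3 t 31 28 2 = true := ex3_a t62_B00pm_012_s3 t60_B00pm_012_s3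

theorem t64_B00pm_012_s3 : ∃ t, chk3 f_B00pm_012_s3 t 31 14 2 = true := ex3_b t63_B00pm_012_s3 t58_B00pm_012_s3

theorem t65_B00pm_012_s3 : ∃ t, chk3 f_B00pm_012_s3 t 31 14 1 = true := ex3_c t64_B00pm_012_s3 t53_B00pm_012_s3

theorem t66_B00pm_012_s3 : ∃ t, chk3 f_B00pm_012_s3 t 31 7 1 = true := ex3_b t65_B00pm_012_s3 k49_B00pm_012_s3

theorem t67_B00pm_012_s3 : ∃ t, chk3 f_B00pm_012_s3 t 30 31 1 = true := ex3_c k30_B00pm_012_s3 k31_B00pm_012_s3

theorem t68_B00pm_012_s3 : ∃ t, chk3 f_B00pm_012_s3 t 61 30 1 = true := ex3_c k28_B00pm_012_s3 k29_B00pm_012_s3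

theorem t69_B00pm_012_s3 : ∃ t, chk3 f_B00pm_012_s3 t 30 30 1 = true := ex3_a k27_B00pm_012_s3 t68_B00pm_012_s3

theorem t70_B00pm_012_s3 : ∃ t, chk3 f_B00pm_012_s3 t 30 15 1 = true := ex3_b t69_B00pm_012_s3 t67_B00pm_012_s3

theorem t71_B00pm_012_s3 : ∃ t, chk3 f_B00pm_012_s3 t 30 29 2 = true := ex3_a k24_B00pm_012_s3 k25_B00pm_012_s3

theorem t72_B00pm_012_s3 : ∃ t, chk3 f_B00pm_012_s3 t 30 14 2 = true := ex3_b k23_B00pm_012_s3 t71_B00pm_012_s3

theorem t73_B00pm_012_s3 : ∃ t, chk3 f_B00pm_012_s3 t 30 14 1 = true := ex3_c t72_B00pm_012_s3 k26_B00pm_012_s3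

theorem t74_B00pm_012_s3 : ∃ t, chk3 f_B00pm_012_s3 t 30 7 1 = true := ex3_b t73_B00pm_012_s3 t70_B00pm_012_s3

theorem t75_B00pm_012_s3 : ∃ t, chk3 f_B00pm_012_s3 t 15 7 1 = true := ex3_a t74_B00pm_012_s3 t66_B00pm_012_s3

theorem t76_B00pm_012_s3 : ∃ t, chk3 f_B00pm_012_s3 t 29 31 1 = true := ex3_c k21_B00pm_012_s3 k22_B00pm_012_s3

theorem t77_B00pm_012_s3 : ∃ t, chk3 f_B00pm_012_s3 t 29 15 1 = true := ex3_b k20_B00pm_012_s3 t76_B00pm_012_s3

theorem t78_B00pm_012_s3 : ∃ t, chk3 f_B00pm_012_s3 t 28 63 1 = true := ex3_c k18_B00pm_012_s3 k19_B00pm_012_s3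

theorem t79_B00pm_012_s3 : ∃ t, chk3 f_B00pm_012_s3 t 28 31 1 = true := ex3_b k17_B00pm_012_s3 t78_B00pm_012_s3

theorem t80_B00pm_012_s3 : ∃ t, chk3 f_B00pm_012_s3 t 28 15 1 = true := ex3_b k16_B00pm_012_s3 t79_B00pm_012_s3

theorem t81_B00pm_012_s3 : ∃ t, chk3 f_B00pm_012_s3 t 14 15 1 = true := ex3_a t80_B00pm_012_s3 t77_B00pm_012_s3

theorem t82_B00pm_012_s3 : ∃ t, chk3 f_B00pm_012_s3 t 14 7 1 = true := ex3_b k15_B00pm_012_s3 t81_B00pm_012_s3

theorem t83_B00pm_012_s3 : ∃ t, chk3 f_B00pm_012_s3 t 7 7 1 = true := ex3_a t82_B00pm_012_s3 t75_B00pm_012_s3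

theorem t84_B00pm_012_s3 : ∃ t, chk3 f_B00pm_012_s3 t 7 3 1 = true := ex3_b k14_B00pm_012_s3 t83_B00pm_012_s3

theorem t85_B00pm_012_s3 : ∃ t, chk3 f_B00pm_012_s3 t 54 127 3 = true := ex3_b k11_B00pm_012_s3 k12_B00pm_012_s3

theorem t86_B00pm_012_s3 : ∃ t, chk3 f_B00pm_012_s3 t 27 127 3 = true := ex3_a t85_B00pm_012_s3 k13_B00pm_012_s3

theorem t87_B00pm_012_s3 : ∃ t, chk3 f_B00pm_012_s3 t 27 63 3 = true := ex3_b k10_B00pm_012_s3 t86_B00pm_012_s3

theorem t88_B00pm_012_s3 : ∃ t, chk3 f_B00pm_012_s3 t 27 63 1 = true := ex3_c k9_B00pm_012_s3 t87_B00pm_012_s3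

theorem t89_B00pm_012_s3 : ∃ t, chk3 f_B00pm_012_s3 t 27 31 1 = true := ex3_b k8_B00pm_012_s3 t88_B00pm_012_s3

theorem t90_B00pm_012_s3 : ∃ t, chk3 f_B00pm_012_s3 t 27 15 1 = true := ex3_b k7_B00pm_012_s3 t89_B00pm_012_s3

theorem t91_B00pm_012_s3 : ∃ t, chk3 f_B00pm_012_s3 t 26 15 1 = true := ex3_b k5_B00pm_012_s3 k6_B00pm_012_s3

theorem t92_B00pm_012_s3 : ∃ t, chk3 f_B00pm_012_s3 t 13 15 1 = true := ex3_a t91_B00pm_012_s3 t90_B00pm_012_s3

theorem t93_B00pm_012_s3 : ∃ t, chk3 f_B00pm_012_s3 t 13 7 1 = true := ex3_b k4_B00pm_012_s3 t92_B00pm_012_s3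

theorem t94_B00pm_012_s3 : ∃ t, chk3 f_B00pm_012_s3 t 6 7 1 = true := ex3_a k3_B00pm_012_s3 t93_B00pm_012_s3

theorem t95_B00pm_012_s3 : ∃ t, chk3 f_B00pm_012_s3 t 6 3 1 = true := ex3_b k2_B00pm_012_s3 t94_B00pm_012_s3

theorem t96_B00pm_012_s3 : ∃ t, chk3 f_B00pm_012_s3 t 3 3 1 = true := ex3_a t95_B00pm_012_s3 t84_B00pm_012_s3

theorem t97_B00pm_012_s3 : ∃ t, chk3 f_B00pm_012_s3 t 3 1 1 = true := ex3_b k1_B00pm_012_s3 t96_B00pm_012_s3

theorem t98_B00pm_012_s3 : ∃ t, chk3 f_B00pm_012_s3 t 1 1 1 = true := ex3_a k0_B00pm_012_s3 t97_B00pm_012_s3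

theorem c_B00pm_012_s3 : CertFX 0 536870912 0 536870912 1046898278 26843546 false true false .pnp 0 1 2
    ndF0q0 ndF0q2 pcF1 cut_B00pm_012_s3 Ext.none :=
  certFX2 (fam := false) (s1 := true) (s2 := false) (a := 0) (b := 1) (c := 2) (cn := .pnp) (n1 := ndF0q0) (n2 := ndF0q2) (pc := pcF1) (cut := cut_B00pm_012_s3) (xt := Ext.none) (P1 := 0) (W1 := 536870912) (P2 := 0) (W2 := 536870912) (P3 := 1046898278) (W3 := 26843546)
    rfl (fun _ => rfl) t98_B00pm_012_s3

theorem s_B00pm_012_s3 {κ x : ℝ} (hκ : κ * h0 = kenE x) (hx : 39 / 40 ≤ x) (hx' : x < 1)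
    (H : CutVB (VFD κ) (DD x) tKF tL pcF (Cut.of [[⟨0, 0, 0, 67108864⟩, ⟨1, 1, 0, 67108864⟩, ⟨2, 1, 0, 67108864⟩]]) 0 1 2 0 0 (sgb true) (sgb false) x) :
    AltVB (VFD κ) (DD x) tKF tL pcF [⟨4, 0, 0, 2845415833⟩] 0 1 2 0 0 (sgb true) (sgb false) x :=
  strip_altVB (d := 2845415833) false rfl hκ (κ0 hκ hx) (x0 hx) hx' (covF00 hx hx') (covF02 hx hx') (x1 hx) (x2 hx') c_B00pm_012_s3 H (noExt_VB)

noncomputable def cut_B00pm_022_s1 : Cut := Cut.of [[⟨4, 0, 0, 1449551462⟩], [⟨0, 0, 0, 67108864⟩, ⟨1, 1, 0, 67108864⟩, ⟨2, 1, 0, 67108864⟩]]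

noncomputable def f_B00pm_022_s1 : ℕ → ℕ → ℕ → ℕ → Bool := onCell 0 536870912 0 536870912 1046898278 26843546
    (rowFX 0 false true false .pp 0 2 2 (qsf 0 536870912 0 536870912 2) ndF0q0 ndF0q2 pcF2 cut_B00pm_022_s1 Ext.none)

def k0_B00pm_022_s1 : ∃ t, chk3 f_B00pm_022_s1 t 1 1 1 = true :=
  ⟨(a (l 6) (l 1)), by decide +kernel⟩

theorem c_B00pm_022_s1 : CertFX 0 536870912 0 536870912 1046898278 26843546 false true false .pp 0 2 2
    ndF0q0 ndF0q2 pcF2 cut_B00pm_022_s1 Ext.none :=
  certFX0 (fam := false) (s1 := true) (s2 := false) (a := 0) (b := 2) (c := 2) (cn := .pp) (n1 := ndF0q0) (n2 := ndF0q2) (pc := pcF2) (cut := cut_B00pm_022_s1) (xt := Ext.none) (P1 := 0) (W1 := 536870912) (P2 := 0) (W2 := 536870912) (P3 := 1046898278) (W3 := 26843546)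
    rfl k0_B00pm_022_s1

theorem s_B00pm_022_s1 {κ x : ℝ} (hκ : κ * h0 = kenE x) (hx : 39 / 40 ≤ x) (hx' : x < 1)
    (H : CutVB (VFD κ) (DD x) tKF tL pcF (Cut.of [[⟨0, 0, 0, 67108864⟩, ⟨1, 1, 0, 67108864⟩, ⟨2, 1, 0, 67108864⟩]]) 0 2 2 0 0 (sgb true) (sgb false) x) :
    AltVB (VFD κ) (DD x) tKF tL pcF [⟨3, 0, 0, 1449551462⟩] 0 2 2 0 0 (sgb true) (sgb false) x :=
  strip_altVB (d := 1449551462) true rfl hκ (κ0 hκ hx) (x0 hx) hx' (covF00 hx hx') (covF02 hx hx') (x1 hx) (x2 hx') c_B00pm_022_s1 H (noExt_VB)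

noncomputable def cut_B00pm_022_s3 : Cut := Cut.of [[⟨3, 0, 0, 2845415833⟩], [⟨0, 0, 0, 67108864⟩, ⟨1, 1, 0, 67108864⟩, ⟨2, 1, 0, 67108864⟩]]

noncomputable def f_B00pm_022_s3 : ℕ → ℕ → ℕ → ℕ → Bool := onCell 0 536870912 0 536870912 1046898278 26843546
    (rowFX 0 false true false .pp 0 2 2 (qsf 0 536870912 0 536870912 2) ndF0q0 ndF0q2 pcF2 cut_B00pm_022_s3 Ext.none)

def k0_B00pm_022_s3 : ∃ t, chk3 f_B00pm_022_s3 t 1 2 1 = true :=
  ⟨(l 6), by decide +kernel⟩

def k1_B00pm_022_s3 : ∃ t, chk3 f_B00pm_022_s3 t 8 12 1 = true :=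
  ⟨(l 6), by decide +kernel⟩

def k2_B00pm_022_s3 : ∃ t, chk3 f_B00pm_022_s3 t 16 26 2 = true :=
  ⟨(a (a (b (b (l 6) (c (l 16470152) (l 16549512))) (c (b (c (l 16475848) (l 16544080)) (a (c (l 16464216) (l 16531400)) (c (b (l 16485968) (l 16490384)) (b (l 16465992) (l 16467896))))) (b (l 16543608) (a (l 16530776) (b (l 16548672) (l 16549368)))))) (b (l 6) (c (b (a (c (b (l 16506080) (l 16510224)) (a (l 16564760) (l 16577544))) (l 16486672)) (c (l 16491184) (l 16512400))) (b (a (l 16485896) (l 16591296)) (l 16505856))))) (b (l 6) (b (l 6) (a (c (c (l 16505840) (l 16443992)) (c (c (l 16457080) (l 16463104)) (l 16455248))) (l 6))))), by decide +kernel⟩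

def k3_B00pm_022_s3 : ∃ t, chk3 f_B00pm_022_s3 t 32 27 2 = true :=
  ⟨(c (a (b (b (a (c (b (a (l 16542416) (l 16471232)) (a (l 16460816) (l 16477016))) (b (l 16529312) (a (l 16523328) (l 16536384)))) (c (l 16501144) (l 16475912))) (c (b (a (l 16475880) (l 16514376)) (l 16503280)) (a (b (c (l 16452344) (l 16531192)) (l 16540528)) (l 16493088)))) (c (b (l 16516296) (l 16534112)) (b (c (l 16494472) (b (l 16475872) (l 16486616))) (c (l 16512664) (a (l 16476288) (l 16516672)))))) (c (b (l 16486080) (a (l 16496632) (b (l 16546744) (l 16460088)))) (b (b (l 16512344) (l 16510344)) (b (l 16507192) (l 16502392))))) (b (a (b (a (b (l 16528112) (l 16528392)) (l 16553792)) (l 16505176)) (c (b (l 16514096) (l 16525352)) (l 16518400))) (c (b (a (l 16472272) (c (l 16526608) (l 16532536))) (a (c (l 16506328) (l 16564088)) (c (l 16523744) (a (l 16527568) (l 16517720))))) (b (l 16501392) (a (l 16563624) (l 16540648)))))), by decide +kernel⟩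

def k4_B00pm_022_s3 : ∃ t, chk3 f_B00pm_022_s3 t 33 27 2 = true :=
  ⟨(a (c (b (c (b (l 16418360) (l 16415424)) (b (l 16440144) (l 16435104))) (b (c (c (l 16408720) (l 16416744)) (c (l 16425808) (l 16435616))) (c (a (l 16469112) (c (l 16477344) (l 16481960))) (a (l 16530296) (c (l 16445664) (l 16494384)))))) (c (b (b (c (l 16455784) (l 16463576)) (c (l 16452080) (l 16459584))) (c (b (l 16446552) (l 16440736)) (b (l 16456752) (l 16451888)))) (b (b (l 16458896) (l 16461072)) (c (a (b (l 16572280) (l 16483344)) (b (l 16439544) (l 16436296))) (b (l 16463720) (l 16464288)))))) (c (b (c (b (l 16344400) (a (l 16445728) (l 16406304))) (b (l 16437152) (l 16349320))) (a (c (b (l 16444808) (l 16445072)) (b (l 16450976) (l 16416856))) (c (b (l 16406072) (l 16384968)) (b (l 16376248) (c (l 16405952) (l 16364096)))))) (b (c (a (b (l 16474600) (l 16469512)) (l 16368520)) (c (b (l 16368160) (l 16365112)) (l 16363304))) (c (a (b (l 16463088) (l 16373272)) (b (l 16411184) (a (l 16419512)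 (l 16372272)))) (c (b (l 16359760) (l 16352800)) (b (a (l 16474888) (l 16414656)) (a (l 16468720) (l 16408232)))))))), by decide +kernel⟩

def k5_B00pm_022_s3 : ∃ t, chk3 f_B00pm_022_s3 t 16 13 3 = true :=
  ⟨(b (b (a (a (a (c (l 16542912) (l 16463168)) (l 6)) (l 6)) (l 6)) (a (b (c (a (l 16543216) (c (l 16505120) (l 16505384))) (a (c (l 16547296) (l 16472128)) (a (c (l 16508696) (l 16590296)) (l 16556504)))) (c (a (a (l 16529832) (l 16465248)) (l 16515256)) (a (a (l 16449680) (c (l 16471408) (l 16481952))) (l 16497040)))) (c (c (a (l 16439128) (l 6)) (l 16297968)) (l 16459264)))) (a (c (b (a (b (a (l 16443720) (l 16553392)) (l 16462616)) (c (l 16522976) (l 16518600))) (a (l 16475064) (c (l 16538104) (l 16527688)))) (a (b (a (b (c (l 16526960) (a (l 16522560) (l 16455384))) (c (l 16530624) (l 16451464))) (c (l 16479624) (l 16490152))) (c (l 16478992) (a (c (l 16544800) (l 16465168)) (l 16506824)))) (c (b (l 16505592) (c (l 16517696) (l 16512048))) (l 16505272)))) (c (a (c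 (b (l 16445816) (c (l 16458136) (l 16447848))) (b (l 16429560) (c (l 16438752) (l 16431568)))) (c (b (c (l 16355568) (l 16432448)) (c (b (l 16356736) (a (l 16466968) (c (l 16325224) (l 16409736)))) (a (l 16457280) (l 16410248)))) (b (l 16426704) (l 16429872)))) (b (l 16380232) (c (l 16386408) (l 16469248)))))), by decide +kernel⟩

def k6_B00pm_022_s3 : ∃ t, chk3 f_B00pm_022_s3 t 34 13 2 = true :=
  ⟨(b (l 6) (c (b (b (a (c (l 16295688) (a (l 16368416) (l 6))) (l 6)) (a (c (a (l 16367752) (c (l 16329176) (l 16326008))) (a (l 16323248) (l 16317392))) (a (c (a (l 16294328) (l 16271144)) (l 16268528)) (l 6)))) (a (c (b (a (l 16367016) (c (b (l 16328120) (a (l 16337624) (l 16276288))) (a (l 16336288) (l 16313384)))) (a (b (l 16366440) (a (l 16376000) (l 16335520))) (c (a (c (l 16297192) (l 16295744)) (b (l 16319384) (l 16321744))) (a (l 16335288) (l 16313416))))) (b (a (c (l 16365320) (l 16361640)) (l 16315840)) (a (c (b (l 16364752) (l 16364336)) (l 16360656)) (l 16311864))))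 (c (b (a (c (b (l 16286544) (l 16287936)) (l 16278440)) (c (l 16245840) (l 16234400))) (a (c (l 16291648) (l 16280680)) (l 16244752))) (b (a (c (l 16270312) (l 16262832)) (c (a (l 16234784) (l 16211536)) (l 16210056))) (c (a (b (l 16269832) (l 16270768)) (a (l 16237200) (l 16215336))) (a (a (l 16273600) (l 16248896)) (a (l 16223640) (l 16197808)))))))) (b (b (a (a (a (c (l 16382328) (l 16381904)) (l 6)) (l 6)) (l 6)) (c (a (c (l 16252448) (l 16248848)) (a (c (l 16254856) (l 16247512)) (l 6))) (a (a (c (l 16361144) (l 16361712)) (l 16254048)) (l 16150088)))) (a (a (c (b (l 16315392) (c (l 16355016) (l 16351016))) (c (b (l 16353784) (l 16346896)) (b (l 16354752) (l 16262272)))) (c (b (c (l 16306048) (l 16298560)) (c (l 16304328) (l 16295024))) (c (b (l 16294456) (c (l 16288096) (l 16287312))) (l 16213424)))) (c (c (a (b (l 16252536) (l 16250192)) (b (c (l 16200032) (l 16197200)) (c (a (l 16211072) (l 16185872)) (b (l 16195152) (l 16194912))))) (a (b (l 16243624) (l 16241104))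 (l 16197176))) (b (l 16144024) (c (l 16219952) (l 16225432)))))))), by decide +kernel⟩

def k7_B00pm_022_s3 : ∃ t, chk3 f_B00pm_022_s3 t 35 13 2 = true :=
  ⟨(b (l 6) (c (b (l 6) (c (b (a (a (c (l 16205088) (l 16191944)) (c (l 16162568) (l 16145168))) (l 6)) (a (a (c (l 16209360) (l 16196128)) (c (b (l 16165272) (l 16167216)) (l 16148712))) (a (c (l 16118128) (a (c (l 16115624) (l 16065816)) (c (l 16050408) (l 16089096)))) (c (a (c (l 16084912) (l 16035016)) (c (l 16019640) (l 16058264))) (l 16064992))))) (a (c (a (b (l 16175232) (l 16179272)) (b (c (l 16131728) (l 16126288)) (c (a (l 16146392) (l 16081232)) (l 16129696)))) (a (b (a (l 16170656) (l 16065272)) (c (l 16166024) (l 16160624))) (l 16125112))) (b (l 6) (l 16078456))))) (b (l 6) (c (a (b (c (l 16139896) (l 16140552)) (c (l 16141752) (l 16141112))) (b (l 6) (l 16074912))) (b (a (l 16143896) (l 6)) (a (c (l 16141384) (l 16142568)) (l 16071240))))))), by decide +kernel⟩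

def k8_B00pm_022_s3 : ∃ t, chk3 f_B00pm_022_s3 t 17 13 3 = true :=
  ⟨(a (b (l 6) (c (b (c (b (a (l 16347008) (l 6)) (a (c (l 16341864) (l 16348024)) (c (l 16248680) (l 16258304)))) (b (l 16307072) (l 16219856))) (c (a (b (c (l 16252960) (l 16343416)) (c (l 16245800) (l 16255896))) (b (c (l 16240504) (l 16250776)) (c (l 16232696) (l 16243304)))) (a (l 16262824) (c (b (l 16259240) (l 16252432)) (l 16176480))))) (b (l 16303776) (l 16218720)))) (b (l 6) (b (l 6) (c (c (a (b (l 16153096) (c (l 16145016) (l 16150304))) (b (l 6) (l 16069520))) (a (c (b (l 16165200) (l 16156344)) (b (l 16172960) (l 16165320))) (b (l 6) (l 16072360)))) (c (a (c (l 16174592) (l 16176528)) (c (b (l 6) (l 16079280)) (l 16004864))) (l 16049152)))))), by decide +kernel⟩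

def k9_B00pm_022_s3 : ∃ t, chk3 f_B00pm_022_s3 t 9 6 1 = true :=
  ⟨(a (b (l 6) (b (l 6) (l 6))) (l 6)), by decide +kernel⟩

def k10_B00pm_022_s3 : ∃ t, chk3 f_B00pm_022_s3 t 5 6 1 = true :=
  ⟨(l 1), by decide +kernel⟩

def k11_B00pm_022_s3 : ∃ t, chk3 f_B00pm_022_s3 t 32 28 2 = true :=
  ⟨(c (a (c (b (b (l 16546624) (b (l 16544496) (a (l 16556872) (l 16566656)))) (b (b (a (l 16559920) (a (l 16574312) (l 16577952))) (l 14)) (l 14))) (b (b (c (l 16532080) (b (l 16511272) (l 16521248))) (b (l 16549024) (l 16559008))) (b (b (l 16558424) (l 14)) (l 14)))) (b (a (c (b (l 16534264) (b (l 16532672) (l 16542896))) (b (l 16516384) (l 16512200))) (b (c (b (l 16458368) (l 16457976)) (l 16478880)) (c (b (l 16499976) (l 16458568)) (c (l 16511632) (l 16480584))))) (b (b (c (c (l 16472096) (a (l 16535600) (l 16546040))) (a (l 16551312) (c (l 16510304) (l 16477528)))) (l 14)) (l 14)))) (b (b (c (a (c (a (l 16522656) (l 16562952)) (l 16523136)) (c (l 16518752) (b (l 16534032) (l 16532224))))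 (a (l 16572696) (c (a (l 16534552) (c (l 16524304) (l 16531504))) (l 16548584)))) (c (a (c (a (c (l 16503632) (l 16494328)) (l 16540472)) (a (b (l 16566336) (l 16489728)) (b (l 16518600) (l 16572160)))) (a (c (l 16532256) (l 16548560)) (l 16542584))) (a (b (l 16495800) (l 16501392)) (c (a (l 16549552) (c (l 16519528) (l 16568152))) (b (l 16550920) (a (l 16629520) (l 16533608))))))) (c (b (b (b (a (a (c (l 16513120) (l 16495656)) (l 16566280)) (a (l 16536784) (l 16496936))) (l 14)) (l 14)) (l 14)) (b (b (b (a (c (l 16506568) (l 16588272)) (c (a (l 16560064) (l 16518416)) (a (l 16550000) (l 16532784)))) (l 14)) (l 14)) (l 14))))), by decide +kernel⟩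

def k12_B00pm_022_s3 : ∃ t, chk3 f_B00pm_022_s3 t 66 28 2 = true :=
  ⟨(c (b (c (b (c (l 16409200) (a (l 16513328) (l 16482616))) (a (l 16469888) (a (l 16489352) (b (l 16452512) (c (l 16472128) (l 16455056)))))) (b (a (c (l 16437424) (l 16531584)) (c (a (l 16495640) (l 16476864)) (l 16448856))) (a (c (l 16499168) (b (l 16444544) (l 16485224))) (a (c (l 16496264) (l 16478608)) (a (l 16483296) (l 16472952)))))) (b (b (b (c (a (l 16512808) (a (l 16490032) (c (l 16472392) (c (l 16475752) (l 16477280))))) (a (c (l 16520512) (l 16484504)) (a (l 16498040) (l 16478624)))) (l 14)) (l 14)) (l 14))) (a (c (b (b (c (l 16542624) (l 16469664)) (c (l 16495648) (l 16463848))) (b (b (a (l 16507912) (a (l 16491696) (l 16522056))) (l 14)) (l 14))) (b (b (c (l 16480776) (l 16488944)) (c (l 16474552) (b (l 16484728) (l 16483040)))) (b (c (l 16467552) (b (l 16480128) (l 14))) (l 14)))) (b (c (b (l 16500520) (b (l 16412968) (c (l 16449760) (l 16497224)))) (b (c (l 16429760) (c (l 16436704) (l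 16438240))) (c (l 16422688) (b (l 16432688) (l 16428672))))) (b (b (c (c (a (l 16501616) (l 16479720)) (l 16453032)) (c (l 16501808) (l 16424600))) (l 14)) (l 14))))), by decide +kernel⟩

def k13_B00pm_022_s3 : ∃ t, chk3 f_B00pm_022_s3 t 67 28 2 = true :=
  ⟨(c (b (c (b (a (b (l 16403496) (a (l 16455560) (l 16436008))) (b (c (l 16405752) (l 16405792)) (a (l 16415752) (l 16395904)))) (a (b (a (a (l 16460760) (l 16440792)) (l 16436096)) (a (c (a (b (l 16439280) (l 16439408)) (l 16430240)) (l 16456936)) (c (c (l 16436560) (l 16436128)) (l 16436288)))) (b (c (a (l 16416128) (l 16397656)) (l 16405728)) (c (a (c (l 16418392) (l 16416872)) (l 16400624)) (a (l 16415936) (c (l 16397328) (l 16395928))))))) (b (a (b (l 16446912) (l 16446800)) (c (l 16384816) (b (l 16405600) (l 16405512)))) (a (b (l 16405024) (c (l 16446976) (l 16447344))) (a (l 16415936) (c (l 16395232) (l 16394736)))))) (b (b (b (b (a (c (c (a (l 16455696) (l 16437128)) (l 16446696)) (l 16447264)) (c (c (l 16411328)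 (a (l 16416296) (l 16398112))) (c (l 16405600) (l 16405096)))) (l 14)) (l 14)) (l 14)) (l 14))) (b (c (b (a (c (l 16408304) (l 16370704)) (c (b (l 16361840) (l 16403248)) (l 16359656))) (a (a (c (l 16437680) (l 16420400)) (c (l 16437168) (a (l 16444064) (l 16431440)))) (c (a (l 16415320) (l 16391384)) (l 16398840)))) (c (b (b (l 16347096) (l 16364920)) (a (l 16410352) (l 16353552))) (b (a (l 16462768) (l 16399864)) (a (l 16454680) (l 16308616))))) (b (b (c (a (c (l 16447920) (a (l 16459632) (l 16436192))) (c (l 16381808) (l 16398168))) (c (a (l 16406152) (l 16392680)) (a (l 16449080) (l 16345832)))) (l 14)) (l 14)))), by decide +kernel⟩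

def k14_B00pm_022_s3 : ∃ t, chk3 f_B00pm_022_s3 t 16 29 2 = true :=
  ⟨(l 14), by decide +kernel⟩

def k15_B00pm_022_s3 : ∃ t, chk3 f_B00pm_022_s3 t 16 14 3 = true :=
  ⟨(a (b (c (c (a (b (l 16493168) (b (l 16507912) (l 14))) (b (b (l 16544864) (l 16549248)) (b (a (l 16554448) (a (l 16545672) (l 16565152))) (l 14)))) (b (a (l 16493128) (a (l 16545936) (l 16514664))) (b (a (l 16507904) (a (l 16561032) (l 16520384))) (l 14)))) (a (c (b (a (l 16560960) (l 16514656)) (a (l 16580880) (c (l 16531080) (l 16537000)))) (b (a (c (l 16562888) (l 16483272)) (l 16525240)) (b (a (c (l 16577584) (l 16497984)) (l 16540176)) (l 14)))) (c (b (c (a (l 16551328) (l 16501456)) (l 16520488)) (c (a (l 16560224) (l 16508760)) (a (l 16552056) (l 16588192)))) (b (l 16517992) (l 16525896))))) (l 14)) (a (c (b (c (a (b (b (l 16566456) (c (l 16488984) (l 16566208))) (b (b (c (l 16488520) (l 16568568)) (l 14)) (l 14))) (b (c (b (l 16521840) (c (l 16434680) (l 16520032))) (l 16428328)) (b (b (c (l 16430336)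 (l 16429832)) (l 14)) (l 14)))) (b (c (b (l 16443120) (l 16445888)) (l 16437192)) (b (b (a (l 16469400) (l 16420248)) (l 14)) (l 14)))) (l 14)) (b (b (c (l 16516904) (l 16516368)) (c (l 16438016) (l 16521320))) (l 14))) (c (b (c (b (c (b (a (c (l 16380408) (l 16463952)) (c (l 16317584) (l 16318592))) (a (b (l 16374584) (l 16371016)) (c (l 16308624) (l 16393784)))) (a (b (l 16375920) (c (a (l 16473392) (l 16440160)) (l 16456312))) (b (l 16363216) (l 16317584)))) (b (b (c (a (l 16450504) (c (l 16386592) (l 16386944))) (a (c (l 16369048) (l 16454488)) (l 16396240))) (l 14)) (l 14))) (b (b (l 16431952) (l 16348584)) (b (a (l 16371400) (b (b (l 16364816) (l 14)) (l 14))) (l 14)))) (l 14)) (b (b (l 16430752) (c (l 16433488) (l 16432056))) (l 14))))), by decide +kernel⟩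

def k16_B00pm_022_s3 : ∃ t, chk3 f_B00pm_022_s3 t 34 28 4 = true :=
  ⟨(b (a (c (b (a (c (b (a (l 16334336) (l 16316248)) (a (l 16377760) (l 16360832))) (b (l 16365720) (c (l 16366792) (l 16365656)))) (c (b (l 16333072) (l 16336424)) (a (b (l 16336008) (l 16338248)) (l 16317200)))) (a (c (b (l 16372544) (l 16376376)) (b (a (l 16376672) (l 16359168)) (l 16376328))) (c (a (l 16350248) (b (l 16331640) (l 16335168))) (a (b (l 16341664) (l 16345312)) (l 16323896))))) (b (a (c (a (l 16375056) (b (l 16353120) (l 16352760))) (l 16359776)) (c (b (l 16317632) (l 16318872)) (b (l 16309888) (l 16309904)))) (a (c (a (b (l 16374616) (c (l 16376056) (l 16374600))) (b (c (l 16355136) (l 16351848)) (c (l 16357936) (l 16353616)))) (a (l 16371512) (b (l 16346584) (l 16347056)))) (c (b (l 16321144) (l 16324448)) (b (a (l 16322088) (l 16298968)) (l 16312984)))))) (c (b (a (c (l 16302816) (l 16285904)) (l 16260520)) (a (c (a (l 16314432) (l 16293576)) (l 16292208)) (b (l 16254280) (l 16257264))))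 (b (a (c (l 16274128) (a (l 16274192) (c (l 16254504) (l 16247896)))) (c (a (l 16242424) (l 16220328)) (c (l 16219704) (l 16210312)))) (c (a (l 16280216) (a (l 16248184) (b (l 16224368) (l 16227200)))) (a (c (l 16271176) (l 16264536)) (a (l 16233152) (l 16207800))))))) (a (b (b (b (c (a (l 16376608) (c (a (l 16354920) (l 16316928)) (a (l 16348128) (l 16328352)))) (a (c (a (l 16376920) (l 16358248)) (a (l 16371400) (l 16348064))) (l 16321224))) (l 14)) (l 14)) (l 14)) (b (b (b (c (a (c (l 16308184) (l 16296376)) (l 16259576)) (c (a (l 16284336) (a (l 16252008) (l 16229400))) (a (l 16271760) (c (l 16228896) (l 16219384))))) (l 14)) (l 14)) (l 14)))), by decide +kernel⟩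

def k17_B00pm_022_s3 : ∃ t, chk3 f_B00pm_022_s3 t 34 28 5 = true :=
  ⟨(b (a (c (b (c (a (l 16353840) (l 16302640)) (a (l 16347864) (l 16293080))) (a (c (l 16352816) (l 16346504)) (a (c (l 16314656) (l 16306016)) (c (b (l 16289152) (l 16290368)) (l 16277400))))) (c (a (b (a (l 16356536) (l 16326392)) (a (l 16352792) (l 16323704))) (b (c (l 16285128) (l 16283016)) (c (l 16283208) (l 16280792)))) (a (b (l 16296656) (c (a (l 16346048) (l 16316352)) (l 16289544))) (b (l 16286920) (l 16282800))))) (c (a (c (b (a (b (l 16263008) (l 16262736)) (l 16235896)) (a (b (l 16263776) (l 16266208)) (l 16239720))) (b (a (l 16250560) (c (l 16225376) (l 16224536))) (c (a (l 16252448) (b (l 16225912) (l 16228552))) (a (b (l 16245968) (l 16246104)) (l 16141112))))) (c (b (a (c (l 16213248) (l 16206072)) (l 16188616)) (c (a (l 16218728) (l 16194984)) (a (l 16211008) (l 16191896)))) (b (l 16195784) (l 16199168)))) (b (c (l 16176016) (l 16221760)) (c (a (l 16236624) (l 16198632)) (a (l 16239704)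 (l 16199344)))))) (a (b (b (b (c (a (c (l 16352304) (l 16345768)) (c (a (l 16315072) (l 16292144)) (a (l 16305040) (l 16277248)))) (c (a (l 16336976) (c (l 16281952) (l 16279504))) (a (c (l 16329648) (l 16327920)) (l 16281272)))) (l 14)) (l 14)) (l 14)) (b (b (b (c (c (a (l 16255928) (c (a (l 16222416) (l 16177496)) (a (l 16214664) (l 16195368)))) (a (c (l 16243200) (l 16237928)) (l 16202712))) (a (l 16237952) (l 16200744))) (l 14)) (l 14)) (l 14)))), by decide +kernel⟩

def k18_B00pm_022_s3 : ∃ t, chk3 f_B00pm_022_s3 t 34 29 2 = true :=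
  ⟨(l 14), by decide +kernel⟩

def k19_B00pm_022_s3 : ∃ t, chk3 f_B00pm_022_s3 t 35 56 4 = true :=
  ⟨(c (a (b (a (c (l 16214080) (a (l 16212304) (l 16189776))) (c (a (l 16140208) (l 16159184)) (l 16152680))) (a (c (l 16219248) (a (l 16217536) (c (l 16178056) (l 16169904)))) (a (c (c (l 16190256) (l 16162648)) (l 16170120)) (c (c (l 16147208) (l 16117496)) (l 16144120))))) (a (c (b (l 16121568) (b (l 16124424) (l 16126472))) (b (a (c (l 16119128) (b (l 16068352) (l 16091152))) (c (a (l 16058512) (l 16047872)) (l 16092256))) (a (c (l 16123048) (a (b (l 16077088) (l 16100136)) (b (l 16066344) (l 16089320)))) (c (a (b (l 16061224) (l 16084136)) (b (l 16050464) (l 16073304))) (l 16095840))))) (c (b (a (c (l 16087880) (a (l 16042856) (l 16032208))) (c (a (l 16027224) (l 16016560)) (l 16060896))) (a (c (l 16091264) (a (b (l 16045368) (l 16068144)) (b (l 16034600) (l 16057304)))) (c (a (b (l 16029528) (l 16052168)) (b (l 16018752) (l 16041312))) (l 16063936)))) (b (l 16067752)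 (l 16070928))))) (a (c (a (b (a (l 16196544) (l 16171160)) (a (l 16201656) (l 16175936))) (b (a (c (l 16150424) (b (l 16099600) (l 16101696))) (c (b (l 16083968) (l 16106904)) (l 16123680))) (a (c (l 16154888) (b (a (l 16108872) (l 16098152)) (a (l 16111216) (l 16100424)))) (c (a (b (l 16092976) (l 16116160)) (b (l 16082240) (l 16105352))) (l 16127800))))) (a (b (c (a (l 16181776) (l 16137328)) (a (l 16132088) (l 16155160))) (c (a (l 16186784) (a (l 16146984) (l 16136240))) (a (b (l 16135744) (l 16159304)) (l 16159816)))) (b (l 16130672) (l 16134928)))) (b (c (l 16082576) (l 16080728)) (c (b (l 16085120) (l 16086952)) (l 16094664))))), by decide +kernel⟩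

def k20_B00pm_022_s3 : ∃ t, chk3 f_B00pm_022_s3 t 35 57 4 = true :=
  ⟨(a (c (b (b (a (c (l 16223408) (a (l 16200776) (c (l 16161080) (l 16152888)))) (b (b (c (a (l 16147744) (l 16145240)) (l 16159752)) (l 14)) (l 14))) (l 14)) (l 14)) (b (b (b (b (a (c (l 16191688) (c (a (l 16189784) (a (l 16128872) (l 16118040))) (a (l 16160976) (l 16162632)))) (c (a (c (l 16157584) (a (l 16112744) (l 16101896))) (c (a (l 16096624) (l 16085768)) (l 16130304))) (l 16137504))) (l 14)) (l 14)) (l 14)) (l 14))) (c (a (b (b (b (c (l 16128072) (a (c (l 16125712) (a (l 16101768) (l 16090888))) (c (a (l 16085664) (l 16074768)) (l 16098288)))) (l 14)) (l 14)) (l 14)) (a (b (b (b (c (c (l 16093592) (a (l 16069568) (l 16058664))) (l 16081680)) (l 14)) (l 14)) (l 14)) (b (c (c (a (c (l 16077688) (b (l 16051712) (l 14))) (b (c (l 16033168) (l 16062944)) (l 1))) (l 16067392)) (l 16044992)) (l 1)))) (b (a (b (c (l 16105960) (l 16104216)) (l 14)) (b (l 16070784) (l 16093664))) (a (l 14) (b (l 16095680)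 (l 1)))))), by decide +kernel⟩

def k21_B00pm_022_s3 : ∃ t, chk3 f_B00pm_022_s3 t 35 28 5 = true :=
  ⟨(b (c (b (a (c (l 16145664) (l 16144032)) (l 16077952)) (a (c (l 16150192) (l 16148560)) (b (l 16080512) (l 16082344)))) (b (a (a (l 16160536) (l 16124832)) (l 16074256)) (a (c (l 16146928) (l 16145424)) (l 16077728)))) (b (b (c (a (c (l 16153872) (l 16152248)) (c (l 16085208) (l 16083368))) (a (l 16149816) (l 16080608))) (a (l 14) (a (l 14) (c (l 16068912) (l 16065128))))) (a (l 14) (a (l 14) (a (l 14) (l 1)))))), by decide +kernel⟩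

def k22_B00pm_022_s3 : ∃ t, chk3 f_B00pm_022_s3 t 35 29 2 = true :=
  ⟨(a (l 14) (a (l 14) (l 1))), by decide +kernel⟩

def k23_B00pm_022_s3 : ∃ t, chk3 f_B00pm_022_s3 t 17 14 3 = true :=
  ⟨(a (b (c (b (c (a (b (c (l 16238248) (a (l 16358448) (l 16308368))) (c (l 16230432) (a (l 16350688) (l 16299216)))) (b (c (l 16226896) (l 16234568)) (c (a (l 16244112) (l 16201400)) (l 16145848)))) (a (c (b (l 16257928) (c (l 16250080) (l 16255152))) (b (l 16346560) (l 16258920))) (c (b (a (l 16269248) (l 16219264)) (l 16236664)) (b (l 16169568) (a (l 16270920) (l 16221088)))))) (b (b (c (a (c (l 16225928) (l 16235040)) (c (l 16222048) (l 16225384))) (a (c (a (l 16356632) (l 16304680)) (l 16256328)) (c (l 16230816) (l 16240080)))) (l 14)) (l 14))) (c (b (a (l 16345216) (c (b (l 16257728) (l 16169768)) (l 16257736))) (b (b (a (l 16344792) (a (l 16274800) (l 16143240))) (l 14)) (l 14))) (b (l 16299752) (b (l 16297976) (l 14))))) (l 14)) (c (a (b (b (c (b (c (l 16143512) (l 16145552))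 (c (l 16144736) (l 16145008))) (b (c (l 16150256) (l 16156944)) (c (l 16146576) (l 16150640)))) (b (b (c (l 16146920) (l 16147496)) (l 14)) (l 14))) (l 14)) (b (b (c (b (l 16070776) (l 16074040)) (b (l 16070048) (l 16070904))) (c (b (l 16077952) (l 16082304)) (b (l 16074280) (l 16078640)))) (a (l 14) (l 1)))) (b (b (c (a (c (b (l 16081112) (a (l 16180632) (l 16132344))) (b (l 16170104) (l 16080248))) (b (c (l 16072416) (l 15993736)) (c (l 16070056) (l 16072480)))) (a (l 16166800) (c (b (l 16083176) (a (l 16098600) (l 16052272))) (b (l 16082192) (l 16079720))))) (b (c (a (c (l 16151680) (a (l 16180416) (l 16132464))) (l 16071840)) (b (a (l 16080664) (c (l 16072256) (l 16075352))) (a (l 14) (c (l 16071600) (l 15989656))))) (a (l 14) (a (l 14) (l 16055312))))) (a (l 14) (a (l 14) (l 1)))))), by decide +kernel⟩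

def k24_B00pm_022_s3 : ∃ t, chk3 f_B00pm_022_s3 t 8 15 1 = true :=
  ⟨(a (l 14) (a (l 14) (l 1))), by decide +kernel⟩

def k25_B00pm_022_s3 : ∃ t, chk3 f_B00pm_022_s3 t 9 7 1 = true :=
  ⟨(b (c (a (b (a (b (b (c (b (a (c (l 16018016) (l 16014040)) (l 6)) (a (c (l 16024344) (l 16015128)) (l 1))) (a (c (l 16010448) (l 16006328)) (c (l 15955104) (l 15929528)))) (a (c (c (a (a (l 16025504) (l 16029568)) (l 16004040)) (a (l 16023560) (l 15999816))) (c (a (l 16030040) (l 15995600)) (l 16008720))) (l 1))) (b (b (a (a (a (c (c (l 16048824) (l 16044936)) (l 16039016)) (l 1)) (l 1)) (l 1)) (l 1)) (l 1))) (l 1)) (l 1)) (l 1)) (b (a (a (a (c (b (c (l 16003376) (l 15999256)) (b (l 16026344) (l 1))) (b (c (l 15995944) (c (l 15911880) (b (l 15997000) (l 15994176)))) (c (l 16000808) (l 15996920)))) (a (b (c (l 68751391927) (l 15938232)) (l 1)) (l 1))) (l 1)) (l 1)) (l 1))) (l 1)), by decide +kernel⟩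

def k26_B00pm_022_s3 : ∃ t, chk3 f_B00pm_022_s3 t 5 7 1 = true :=
  ⟨(l 1), by decide +kernel⟩

def k27_B00pm_022_s3 : ∃ t, chk3 f_B00pm_022_s3 t 3 3 1 = true :=
  ⟨(l 1), by decide +kernel⟩

theorem t28_B00pm_022_s3 : ∃ t, chk3 f_B00pm_022_s3 t 35 28 4 = true := ex3_b k19_B00pm_022_s3 k20_B00pm_022_s3

theorem t29_B00pm_022_s3 : ∃ t, chk3 f_B00pm_022_s3 t 35 28 2 = true := ex3_c t28_B00pm_022_s3 k21_B00pm_022_s3

theorem t30_B00pm_022_s3 : ∃ t, chk3 f_B00pm_022_s3 t 35 14 2 = true := ex3_b t29_B00pm_022_s3 k22_B00pm_022_s3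

theorem t31_B00pm_022_s3 : ∃ t, chk3 f_B00pm_022_s3 t 34 28 2 = true := ex3_c k16_B00pm_022_s3 k17_B00pm_022_s3

theorem t32_B00pm_022_s3 : ∃ t, chk3 f_B00pm_022_s3 t 34 14 2 = true := ex3_b t31_B00pm_022_s3 k18_B00pm_022_s3

theorem t33_B00pm_022_s3 : ∃ t, chk3 f_B00pm_022_s3 t 17 14 2 = true := ex3_a t32_B00pm_022_s3 t30_B00pm_022_s3

theorem t34_B00pm_022_s3 : ∃ t, chk3 f_B00pm_022_s3 t 17 14 1 = true := ex3_c t33_B00pm_022_s3 k23_B00pm_022_s3

theorem t35_B00pm_022_s3 : ∃ t, chk3 f_B00pm_022_s3 t 33 28 2 = true := ex3_a k12_B00pm_022_s3 k13_B00pm_022_s3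

theorem t36_B00pm_022_s3 : ∃ t, chk3 f_B00pm_022_s3 t 16 28 2 = true := ex3_a k11_B00pm_022_s3 t35_B00pm_022_s3

theorem t37_B00pm_022_s3 : ∃ t, chk3 f_B00pm_022_s3 t 16 14 2 = true := ex3_b t36_B00pm_022_s3 k14_B00pm_022_s3

theorem t38_B00pm_022_s3 : ∃ t, chk3 f_B00pm_022_s3 t 16 14 1 = true := ex3_c t37_B00pm_022_s3 k15_B00pm_022_s3

theorem t39_B00pm_022_s3 : ∃ t, chk3 f_B00pm_022_s3 t 8 14 1 = true := ex3_a t38_B00pm_022_s3 t34_B00pm_022_s3

theorem t40_B00pm_022_s3 : ∃ t, chk3 f_B00pm_022_s3 t 8 7 1 = true := ex3_b t39_B00pm_022_s3 k24_B00pm_022_s3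

theorem t41_B00pm_022_s3 : ∃ t, chk3 f_B00pm_022_s3 t 4 7 1 = true := ex3_a t40_B00pm_022_s3 k25_B00pm_022_s3

theorem t42_B00pm_022_s3 : ∃ t, chk3 f_B00pm_022_s3 t 2 7 1 = true := ex3_a t41_B00pm_022_s3 k26_B00pm_022_s3

theorem t43_B00pm_022_s3 : ∃ t, chk3 f_B00pm_022_s3 t 17 13 2 = true := ex3_a k6_B00pm_022_s3 k7_B00pm_022_s3

theorem t44_B00pm_022_s3 : ∃ t, chk3 f_B00pm_022_s3 t 17 13 1 = true := ex3_c t43_B00pm_022_s3 k8_B00pm_022_s3

theorem t45_B00pm_022_s3 : ∃ t, chk3 f_B00pm_022_s3 t 16 27 2 = true := ex3_a k3_B00pm_022_s3 k4_B00pm_022_s3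

theorem t46_B00pm_022_s3 : ∃ t, chk3 f_B00pm_022_s3 t 16 13 2 = true := ex3_b k2_B00pm_022_s3 t45_B00pm_022_s3

theorem t47_B00pm_022_s3 : ∃ t, chk3 f_B00pm_022_s3 t 16 13 1 = true := ex3_c t46_B00pm_022_s3 k5_B00pm_022_s3

theorem t48_B00pm_022_s3 : ∃ t, chk3 f_B00pm_022_s3 t 8 13 1 = true := ex3_a t47_B00pm_022_s3 t44_B00pm_022_s3

theorem t49_B00pm_022_s3 : ∃ t, chk3 f_B00pm_022_s3 t 8 6 1 = true := ex3_b k1_B00pm_022_s3 t48_B00pm_022_s3

theorem t50_B00pm_022_s3 : ∃ t, chk3 f_B00pm_022_s3 t 4 6 1 = true := ex3_a t49_B00pm_022_s3 k9_B00pm_022_s3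

theorem t51_B00pm_022_s3 : ∃ t, chk3 f_B00pm_022_s3 t 2 6 1 = true := ex3_a t50_B00pm_022_s3 k10_B00pm_022_s3

theorem t52_B00pm_022_s3 : ∃ t, chk3 f_B00pm_022_s3 t 2 3 1 = true := ex3_b t51_B00pm_022_s3 t42_B00pm_022_s3

theorem t53_B00pm_022_s3 : ∃ t, chk3 f_B00pm_022_s3 t 1 3 1 = true := ex3_a t52_B00pm_022_s3 k27_B00pm_022_s3

theorem t54_B00pm_022_s3 : ∃ t, chk3 f_B00pm_022_s3 t 1 1 1 = true := ex3_b k0_B00pm_022_s3 t53_B00pm_022_s3

theorem c_B00pm_022_s3 : CertFX 0 536870912 0 536870912 1046898278 26843546 false true false .pp 0 2 2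
    ndF0q0 ndF0q2 pcF2 cut_B00pm_022_s3 Ext.none :=
  certFX0 (fam := false) (s1 := true) (s2 := false) (a := 0) (b := 2) (c := 2) (cn := .pp) (n1 := ndF0q0) (n2 := ndF0q2) (pc := pcF2) (cut := cut_B00pm_022_s3) (xt := Ext.none) (P1 := 0) (W1 := 536870912) (P2 := 0) (W2 := 536870912) (P3 := 1046898278) (W3 := 26843546)
    rfl t54_B00pm_022_s3

theorem s_B00pm_022_s3 {κ x : ℝ} (hκ : κ * h0 = kenE x) (hx : 39 / 40 ≤ x) (hx' : x < 1)
    (H : CutVB (VFD κ) (DD x) tKF tL pcF (Cut.of [[⟨0, 0, 0, 67108864⟩, ⟨1, 1, 0, 67108864⟩, ⟨2, 1, 0, 67108864⟩]]) 0 2 2 0 0 (sgb true) (sgb false) x) :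
    AltVB (VFD κ) (DD x) tKF tL pcF [⟨4, 0, 0, 2845415833⟩] 0 2 2 0 0 (sgb true) (sgb false) x :=
  strip_altVB (d := 2845415833) false rfl hκ (κ0 hκ hx) (x0 hx) hx' (covF00 hx hx') (covF02 hx hx') (x1 hx) (x2 hx') c_B00pm_022_s3 H (noExt_VB)

end Pool.Agent.Strip051.G.IE1.Tab.St.C
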