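import Pool.Agent.Strip051.G.IE1.StF

/-! # Strips St5 (generated) -/

set_option linter.all false
set_option maxRecDepth 100000

namespace Pool.Agent.Strip051.G.IE1.Tab.St.C

open Pool.Agent.Strip051.PB Pool.Agent.Strip051.PB.T
open Pool.Agent.StripNear Pool.Agent.Strip051.LC
open Pool.Agent.Strip051.G.IE1.Tab Pool.Agent.Strip051.G.IE1.Tab.St

noncomputable def cut_B00pm_101_s1 : Cut := Cut.of [[⟨4, 0, 0, 1449551462⟩], [⟨0, 1, 0, 67108864⟩, ⟨1, 0, 0, 67108864⟩, ⟨2, 1, 0, 67108864⟩, ⟨3, 0, 0, 1317011456⟩]]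

noncomputable def f_B00pm_101_s1 : ℕ → ℕ → ℕ → ℕ → Bool := onCell 0 536870912 536870912 536870912 1046898278 26843546
    (rowFX 2 false true false .npn 1 0 1 (qsf 536870912 536870912 536870912 536870912 0) ndF0q1 ndF0q1 pcF0 cut_B00pm_101_s1 Ext.none)

def k0_B00pm_101_s1 : ∃ t, chk3 f_B00pm_101_s1 t 2 2 1 = true :=
  ⟨(l 6), by decide +kernel⟩

def k1_B00pm_101_s1 : ∃ t, chk3 f_B00pm_101_s1 t 4 6 1 = true :=
  ⟨(l 6), by decide +kernel⟩

def k2_B00pm_101_s1 : ∃ t, chk3 f_B00pm_101_s1 t 8 14 1 = true :=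
  ⟨(l 6), by decide +kernel⟩

def k3_B00pm_101_s1 : ∃ t, chk3 f_B00pm_101_s1 t 32 60 2 = true :=
  ⟨(a (c (b (l 15004680) (l 14961736)) (a (l 14626200) (c (l 14783712) (a (l 14636664) (a (l 14673288) (c (l 14725048) (l 14655864))))))) (c (b (a (a (l 15010848) (c (l 15092168) (l 15150464))) (l 6)) (a (a (l 15033920) (c (c (l 15153208) (l 15091128)) (a (l 14988208) (l 14989872)))) (c (a (l 15127664) (l 15116520)) (l 14980744)))) (a (a (c (a (b (l 14846760) (l 14831296)) (l 14842904)) (l 14699408)) (l 14775880)) (c (l 14846040) (a (l 14715320) (l 14734000)))))), by decide +kernel⟩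

def k4_B00pm_101_s1 : ∃ t, chk3 f_B00pm_101_s1 t 64 61 2 = true :=
  ⟨(c (b (b (l 15039992) (b (l 15100176) (a (l 15149112) (l 15153168)))) (b (a (b (l 15217576) (l 15296248)) (l 15234104)) (a (l 14) (a (l 14) (l 15363056))))) (b (a (b (l 14644264) (l 14683952)) (c (l 14825152) (a (l 14626744) (b (l 14659360) (b (l 14669032) (a (c (l 14725336) (l 14627984)) (c (b (l 14736600) (l 14744528)) (l 14636976)))))))) (a (b (l 14755656) (l 14)) (c (l 14957424) (a (l 14714872) (a (c (l 14793480) (a (l 14677568) (c (l 14713632) (l 14654816)))) (c (a (l 14802888) (c (l 14835192) (l 14776656))) (l 14685248)))))))), by decide +kernel⟩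

def k5_B00pm_101_s1 : ∃ t, chk3 f_B00pm_101_s1 t 65 61 2 = true :=
  ⟨(c (a (b (b (a (l 15087464) (c (l 15178376) (l 15022168))) (a (c (l 15231632) (b (l 15047384) (c (l 15121224) (a (l 15028952) (l 15037344))))) (c (c (l 15279560) (a (l 15196872) (a (l 15200472) (a (l 15200608) (l 15199040))))) (a (b (l 15055624) (c (a (l 15129440) (l 15130336)) (l 15037104))) (l 15063144))))) (a (c (l 15386664) (c (l 15233872) (a (l 15130928) (c (l 15158608) (a (l 15107736) (l 15108032)))))) (c (c (l 15423320) (a (l 15329856) (a (c (l 15351344) (l 15303440)) (c (b (l 15299496) (l 15404000)) (l 15297184))))) (a (c (a (l 15233288) (c (l 15257024) (l 15205912))) (c (a (l 15157832) (l 15151496)) (l 15099632))) (c (l 15220936) (l 15112864)))))) (b (b (l 15086856) (c (a (c (a (a (a (l 15282992) (l 15282272)) (l 15278768)) (l 15268584)) (l 15185320)) (l 15204976)) (l 15040536))) (c (c (a (a (a (c (l 15439424) (b (l 15341864) (l 15448184))) (c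 (b (l 15382840) (l 15490648)) (l 15382664))) (l 15392480)) (l 15362584)) (l 15281744)) (l 15130536)))) (a (b (c (a (b (l 14850544) (b (l 14871672) (b (l 14886072) (a (c (l 14946512) (a (l 14850712) (l 14852240))) (c (l 14950456) (l 14848952)))))) (l 14861760)) (l 14678008)) (c (a (a (c (l 15027232) (a (c (l 14947560) (l 14892728)) (l 14918944))) (c (a (c (l 15056432) (l 15001760)) (l 15024840)) (l 14912536))) (l 14954760)) (l 14737024))) (c (b (l 14851360) (l 14927960)) (b (b (l 14693896) (b (l 14695448) (a (c (l 14735680) (l 14645568)) (c (l 14738304) (l 14666488))))) (a (c (l 14779696) (a (l 14675936) (l 14678688))) (c (a (l 14774520) (l 14777136)) (l 14694608))))))), by decide +kernel⟩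

def k6_B00pm_101_s1 : ∃ t, chk3 f_B00pm_101_s1 t 32 31 2 = true :=
  ⟨(b (b (b (a (l 14) (a (l 14) (a (l 14) (c (c (l 15475200) (l 15254768)) (c (l 15030344) (c (a (l 14865848) (l 14863856)) (l 14768944))))))) (l 14)) (l 14)) (l 14)), by decide +kernel⟩

def k7_B00pm_101_s1 : ∃ t, chk3 f_B00pm_101_s1 t 64 15 6 = true :=
  ⟨(b (b (a (c (l 14421208) (a (l 14248592) (l 14317224))) (c (a (a (l 14496656) (l 14520480)) (l 14539912)) (a (l 14364272) (l 14394080)))) (a (b (c (l 14356136) (a (l 14114896) (c (l 14239576) (a (l 14122464) (b (l 14177248) (l 14141832)))))) (c (l 14405448) (a (l 14101192) (c (l 14237384) (a (l 14090016) (a (l 14117888) (l 14132216))))))) (c (a (b (b (l 14445640) (a (l 14430424) (c (l 14505520) (l 14402560)))) (b (a (l 14447208) (c (l 14526936) (l 14410800))) (l 14))) (b (b (l 14477200) (c (l 14523544) (l 14416856))) (a (b (l 14479808) (l 14517488)) (l 14499896)))) (a (b (a (a (c (l 14280816) (l 14175728))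 (l 14237472)) (l 14248320)) (c (a (a (l 14275640) (l 14285480)) (l 14294088)) (l 14154056))) (a (b (l 14262464) (l 14241000)) (b (c (l 14324680) (l 14232520)) (c (l 14314168) (l 14198440)))))))) (l 14)), by decide +kernel⟩

def k8_B00pm_101_s1 : ∃ t, chk3 f_B00pm_101_s1 t 64 15 7 = true :=
  ⟨(b (b (a (c (a (l 14107328) (c (l 14210336) (l 14135176))) (a (c (l 13997808) (a (l 13905344) (l 13942360))) (l 14029904))) (c (a (l 14221056) (l 14275232)) (l 14132056))) (a (c (a (b (c (l 13957304) (l 13851528)) (c (l 13892320) (l 13752464))) (b (b (l 14009992) (a (c (l 13998040) (l 13882112)) (c (l 14027944) (l 13910816)))) (a (c (a (l 13948072) (l 13967264)) (l 13816976)) (c (l 13987584) (l 13847448))))) (a (b (b (c (l 13784424) (l 13683480)) (c (a (l 13679648) (b (l 13747336) (l 13708272))) (a (a (l 13549160) (l 13576200)) (l 13611224)))) (c (a (l 13583672) (c (l 13671072) (l 13598136))) (a (c (l 13474800) (a (l 13387168) (l 13415808)))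 (l 13492736)))) (b (c (b (l 13863552) (l 13788104)) (l 13728424)) (c (a (l 13676536) (l 13721768)) (l 13574648))))) (c (b (b (l 14099920) (a (c (l 14061792) (l 13962816)) (l 14078104))) (a (c (a (l 14008960) (l 14033528)) (l 13902680)) (l 14031376))) (b (l 13900000) (l 13777992))))) (l 14)), by decide +kernel⟩

def k9_B00pm_101_s1 : ∃ t, chk3 f_B00pm_101_s1 t 65 15 3 = true :=
  ⟨(b (b (c (a (c (a (l 14555736) (l 14577496)) (l 14455912)) (l 14589904)) (l 14273216)) (c (b (b (a (c (l 14504496) (l 14355152)) (l 14509672)) (a (c (a (l 14482864) (c (l 14542816) (l 14458472))) (c (a (b (l 14345264) (l 14336064)) (l 14385464)) (l 14287728))) (c (l 14637144) (l 14426488)))) (a (c (a (l 14505568) (c (l 14568696) (a (l 14459976) (l 14476608)))) (c (a (a (l 14326768) (l 14345240)) (l 14381248)) (l 14268688))) (c (b (l 14556512) (l 14579968)) (l 14413488)))) (b (c (b (l 14279832) (l 14234712)) (l 14108392)) (c (a (l 14134640) (l 14253152))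 (l 14011024))))) (a (l 14) (a (b (l 14) (l 14)) (b (b (c (l 14569760) (l 14175992)) (l 14)) (l 14))))), by decide +kernel⟩

def k10_B00pm_101_s1 : ∃ t, chk3 f_B00pm_101_s1 t 33 30 2 = true :=
  ⟨(b (b (l 6) (a (c (a (l 15033672) (c (l 15078688) (l 14978144))) (a (c (l 14852808) (l 14760736)) (l 14863120))) (c (c (l 15107400) (l 15043392)) (l 14950168)))) (c (a (b (b (a (l 15059312) (c (l 15103408) (l 14987488))) (a (c (l 15170792) (b (l 15002800) (c (l 15059416) (l 14977616)))) (c (a (l 15140376) (a (l 15126896) (c (l 15153384) (l 15088264)))) (b (l 15000664) (a (c (l 15121392) (l 14973392)) (l 15014896)))))) (a (c (l 15264360) (c (l 15127424) (a (l 15046176) (c (l 15048456) (l 15005368))))) (c (c (l 15249880) (a (l 15178512) (a (l 15161096) (c (l 15171120) (l 15138280))))) (a (c (a (l 15098688) (c (l 15109520) (l 15072416))) (c (l 15039416) (l 15006808))) (l 15063392))))) (b (b (l 15081592) (a (c (a (a (c (l 15146640) (l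 15092024)) (l 15122304)) (l 15131160)) (l 15034488)) (l 15110128))) (c (a (c (a (a (c (l 15236472) (l 15200928)) (b (l 15186936) (l 15246040))) (l 15217080)) (l 15160792)) (l 15201000)) (l 15092360)))) (a (c (a (b (b (l 14852488) (b (l 14860864) (a (c (l 14899560) (l 14823176)) (c (l 14901240) (l 14841984))))) (a (c (l 14952568) (a (l 15031840) (l 14866912))) (c (a (c (l 14964440) (l 14925784)) (l 14949264)) (l 14880112)))) (b (l 14894632) (l 14938976))) (b (l 14770864) (l 14795864))) (b (l 14925488) (c (l 14992168) (l 14893264)))))), by decide +kernel⟩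

def k11_B00pm_101_s1 : ∃ t, chk3 f_B00pm_101_s1 t 33 31 2 = true :=
  ⟨(b (c (a (b (b (a (c (l 15403424) (c (l 15252448) (a (l 15164984) (l 15135840)))) (c (c (l 15369920) (a (l 15296904) (a (l 15272184) (c (l 15279568) (l 15242760))))) (a (c (a (l 15210728) (c (l 15219400) (l 15177176))) (l 15122184)) (l 15157728)))) (b (a (l 14) (a (l 14) (a (l 14) (c (c (l 15413888) (l 15327528)) (l 15217896))))) (l 14))) (l 14)) (a (b (c (c (a (a (c (l 15391624) (a (l 15520704) (l 15347208))) (b (l 15317624) (l 15407600))) (l 15350872)) (l 15290648)) (l 15192592)) (l 14)) (b (c (l 15309264) (l 15194840)) (b (l 15531832) (l 14))))) (b (a (c (b (a (a (c (l 15058912) (a (l 14959912) (l 14957984))) (c (a (l 15044944) (l 15043400)) (l 14964200))) (l 15015696)) (a (l 14) (l 15090064))) (l 14886912)) (c (l 15072824) (l 14951464))) (a (l 14) (a (l 14) (b (l 15103280) (l 14)))))) (l 14)), by decide +kernel⟩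

def k12_B00pm_101_s1 : ∃ t, chk3 f_B00pm_101_s1 t 33 15 3 = true :=
  ⟨(b (b (c (a (l 14710584) (l 14845392)) (l 14618128)) (c (b (b (l 14698424) (a (c (l 14666616) (l 14556008)) (c (l 14793992) (l 14691528)))) (a (c (l 14670992) (a (l 14502464) (l 14578984))) (c (a (l 14764048) (l 14816064)) (l 14672960)))) (b (a (l 14387072) (l 14546136)) (a (l 14322488) (l 14487792))))) (b (c (a (b (c (l 14730744) (a (l 14536320) (l 14605176))) (l 14)) (c (b (a (l 14806008) (l 14848360)) (a (l 14) (l 14932656))) (l 14716032))) (a (b (l 14307744) (l 14)) (l 14483736))) (l 14))), by decide +kernel⟩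

def k13_B00pm_101_s1 : ∃ t, chk3 f_B00pm_101_s1 t 17 30 2 = true :=
  ⟨(b (l 6) (a (b (c (l 15187144) (a (l 15020288) (l 15099152))) (c (a (b (l 15171256) (l 15198880)) (l 15399760)) (a (c (l 15063280) (a (l 14960080) (l 14998016))) (c (a (l 15114528) (l 15143656)) (l 15045664))))) (b (l 6) (c (a (c (l 15311448) (a (l 15240336) (l 15263592))) (b (l 6) (a (l 15314232) (l 15331760)))) (a (l 15141632) (l 15190272)))))), by decide +kernel⟩

def k14_B00pm_101_s1 : ∃ t, chk3 f_B00pm_101_s1 t 34 31 2 = true :=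
  ⟨(b (c (b (a (c (b (l 15279896) (l 15327704)) (l 15207496)) (c (l 15310112) (l 15236032))) (a (b (c (l 15389392) (l 15280552)) (c (l 15469320) (l 15345672))) (c (b (l 15363568) (l 15416136)) (l 15299736)))) (b (a (c (l 15114072) (a (l 15000168) (l 15028080))) (c (a (l 15148360) (l 15168320)) (l 15063272))) (a (c (b (l 15176600) (l 15230240)) (b (l 15067776) (a (l 14) (l 15120248)))) (c (b (a (l 15191832) (l 15201736)) (a (l 15229256) (l 15230272))) (l 15111544))))) (a (l 14) (a (l 14) (a (l 14) (b (b (b (c (l 15399440) (l 15208552)) (l 14)) (l 14)) (l 14)))))), by decide +kernel⟩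

def k15_B00pm_101_s1 : ∃ t, chk3 f_B00pm_101_s1 t 35 31 2 = true :=
  ⟨(b (c (a (c (b (l 15331344) (l 15376264)) (b (c (l 15287120) (l 15253864)) (b (l 15291528) (l 15315096)))) (c (a (b (l 15351664) (l 15377456)) (c (b (l 15378208) (l 15395552)) (l 15353856))) (b (l 15294536) (l 15309008)))) (b (a (l 15150640) (l 15187992)) (a (c (l 15222272) (l 15135040)) (l 15199352)))) (c (a (b (c (b (b (l 15426472) (c (l 15474824) (l 15430280))) (l 15502088)) (b (c (a (l 15380688) (l 15371432)) (l 15331088)) (c (a (l 15441664) (l 15505752)) (a (b (l 15375544) (l 14)) (l 15374216))))) (b (c (l 15579952) (a (l 14) (l 15463384))) (l 14))) (b (c (c (b (a (l 15441016) (b (l 15425320) (l 15441512))) (a (l 15491000) (l 15474464))) (a (b (l 15403168) (l 15448736)) (l 15497856))) (b (l 15338280) (b (l 15364504) (l 15387096)))) (a (c (b (l 15530536) (b (l 15582424) (l 14))) (l 15555192)) (c (c (b (l 15527200) (a (l 15596480) (l 15580120))) (l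 15513336)) (l 15447480))))) (b (b (a (l 15216880) (l 15221120)) (c (a (c (l 15332152) (l 15281032)) (l 15288944)) (a (b (l 15195512) (l 15218568)) (l 15204616)))) (b (c (a (l 15372936) (l 15337944)) (a (l 15268016) (l 15249080))) (a (l 14) (c (l 15400800) (l 15309496))))))), by decide +kernel⟩

def k16_B00pm_101_s1 : ∃ t, chk3 f_B00pm_101_s1 t 17 15 3 = true :=
  ⟨(b (b (l 6) (a (b (l 14823176) (c (l 14789264) (l 14680448))) (b (l 6) (a (l 14909528) (l 14986776))))) (b (a (a (c (b (l 14841976) (l 14897736)) (l 14610176)) (c (l 14925392) (l 14713640))) (c (b (l 15008784) (l 15021816)) (l 14843608))) (a (a (l 14) (b (c (b (l 14999920) (l 14)) (l 14785960)) (l 14))) (a (b (c (b (l 15030064) (l 15063888)) (l 14847704)) (b (a (l 14) (b (b (l 15292104) (l 14)) (l 14))) (l 14))) (b (c (l 15074720) (l 14906056)) (c (b (c (b (l 15146688) (l 15172192)) (b (l 15065216) (c (l 15104552) (l 15061632)))) (b (c (l 15201888) (l 15111848))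 (l 15190576))) (b (l 14948192) (c (b (l 15021040) (l 14970280)) (b (l 14937352) (l 14964144)))))))))), by decide +kernel⟩

def k17_B00pm_101_s1 : ∃ t, chk3 f_B00pm_101_s1 t 9 14 1 = true :=
  ⟨(l 6), by decide +kernel⟩

def k18_B00pm_101_s1 : ∃ t, chk3 f_B00pm_101_s1 t 18 30 1 = true :=
  ⟨(l 6), by decide +kernel⟩

def k19_B00pm_101_s1 : ∃ t, chk3 f_B00pm_101_s1 t 18 31 2 = true :=
  ⟨(b (b (a (c (a (l 15345992) (l 15366328)) (l 15242592)) (l 6)) (c (a (a (l 15348496) (l 15356152)) (a (l 15368560) (c (l 15403592) (l 15363920)))) (a (a (l 15223232) (l 15248320)) (a (l 15275152) (c (l 15324520) (l 15283472)))))) (c (a (b (c (b (a (l 15401968) (l 15393408)) (a (l 15433776) (l 15416368))) (b (a (l 15331752) (l 15332704)) (a (l 15358848) (l 15351160)))) (a (c (a (l 15510072) (l 15489696)) (l 15420744)) (b (l 15414696) (l 15452464)))) (b (b (c (b (l 15394424) (a (l 15395248) (l 15399144))) (l 15345672)) (c (a (l 15408664) (l 15408336))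 (a (l 15351408) (b (l 15353984) (l 15359920))))) (b (a (l 15403232) (l 15400024)) (a (l 15432352) (l 15506104))))) (b (a (b (l 15239280) (c (a (l 15283688) (l 15285784)) (c (l 15317032) (l 15201384)))) (b (l 15360448) (a (c (l 15294104) (l 15240224)) (c (b (l 15305848) (l 15309352)) (l 15344040))))) (a (b (c (l 15315672) (a (l 15244176) (l 15247112))) (a (l 15328616) (l 15316056))) (b (c (l 15317168) (a (l 15256328) (l 15270376))) (a (l 15312896) (l 15316920))))))), by decide +kernel⟩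

def k20_B00pm_101_s1 : ∃ t, chk3 f_B00pm_101_s1 t 18 31 3 = true :=
  ⟨(b (b (a (l 15056712) (l 6)) (a (c (l 15111840) (l 14978440)) (c (l 15194056) (l 15089040)))) (b (a (c (b (l 15115944) (l 15208016)) (l 14985376)) (c (b (l 15184272) (c (l 15203792) (l 15157936))) (l 15079760))) (a (c (b (c (b (a (l 15157928) (l 15173328)) (l 15181576)) (b (l 15101688) (c (l 15127576) (l 15090448)))) (b (c (l 15201016) (a (l 15121664) (l 15137552))) (a (l 15185216) (l 15190528)))) (b (l 15007272) (a (c (b (l 15043776) (l 15067760)) (l 14979992)) (c (b (l 15070088) (l 15088624)) (l 15014224))))) (c (b (c (b (c (l 15216680) (l 15191936)) (a (l 15203072) (l 15222544))) (b (l 15156832) (c (l 15171248) (l 15059136)))) (c (l 15230040) (b (c (l 15182000) (l 15154936)) (l 15181720)))) (b (l 15083888) (a (c (b (l 15098672) (l 15112872)) (l 15049360)) (c (b (l 15129160) (l 15139840)) (l 15085384)))))))), by decide +kernel⟩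

def k21_B00pm_101_s1 : ∃ t, chk3 f_B00pm_101_s1 t 19 30 1 = true :=
  ⟨(l 6), by decide +kernel⟩

def k22_B00pm_101_s1 : ∃ t, chk3 f_B00pm_101_s1 t 38 62 1 = true :=
  ⟨(b (l 6) (a (l 6) (l 6))), by decide +kernel⟩

def k23_B00pm_101_s1 : ∃ t, chk3 f_B00pm_101_s1 t 38 63 1 = true :=
  ⟨(c (b (a (c (b (c (b (a (l 15406200) (l 15411864)) (a (l 15405352) (a (l 15409360) (c (l 15420960) (l 15400352))))) (l 15367104)) (c (a (l 15411856) (a (l 15414672) (l 15415320))) (a (b (l 15362768) (l 15366928)) (b (a (l 15367984) (l 15369992)) (l 15372104))))) (b (c (l 15327936) (l 15292432)) (c (a (l 15319512) (a (l 15326368) (b (l 15329536) (l 15329840)))) (c (a (l 15286936) (a (l 15295336) (l 15299104))) (l 15272464))))) (c (c (b (b (l 6) (c (l 15416000) (l 15396368))) (c (l 15419528) (l 15398672))) (b (l 15370344) (b (l 15450288) (l 15368368)))) (b (l 15319752) (c (b (l 15327880) (l 15327096)) (l 15373576))))) (c (a (a (c (l 15434160)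 (l 15386064)) (c (a (l 15434360) (l 15517264)) (a (l 15388352) (l 15388536)))) (c (b (l 15418248) (l 15430600)) (l 15380760))) (a (b (c (a (l 15329928) (l 15336064)) (a (l 15283424) (a (l 15290664) (l 15293696)))) (a (l 15323736) (c (l 15351584) (l 15306224)))) (b (c (l 15332560) (l 15291144)) (l 15323296))))) (b (c (a (c (b (l 15257232) (l 15244976)) (l 15211608)) (c (l 15263600) (l 15228056))) (a (l 15145928) (l 15167936))) (a (c (b (c (a (b (l 15233896) (l 15239160)) (b (c (l 15256136) (l 15236488)) (a (l 15248048) (l 15251968)))) (a (l 15107400) (a (l 15118920) (b (l 15211976) (l 15123064))))) (c (a (l 15251744) (l 15260840)) (b (a (l 15200000) (l 15128464)) (l 15214760)))) (b (l 15140816) (c (a (l 15072456) (a (l 15084312) (b (l 15171008) (l 15177936)))) (a (l 15112992) (a (l 15126960) (l 15133576)))))) (c (b (c (b (l 15248120) (l 15250696)) (b (l 15213888) (l 15207720))) (c (l 15259040) (b (l 15213912) (l 15220200))))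 (b (l 15157512) (c (b (l 15172280) (l 15177616)) (l 15135936))))))), by decide +kernel⟩

def k24_B00pm_101_s1 : ∃ t, chk3 f_B00pm_101_s1 t 39 31 1 = true :=
  ⟨(b (l 6) (c (a (c (b (a (b (l 6) (b (l 6) (l 15383992))) (l 6)) (c (b (l 15406936) (l 15415688)) (b (l 15366832) (l 15375520)))) (b (b (l 6) (c (b (l 6) (l 15323712)) (l 15289936))) (b (c (l 15326728) (l 15288008)) (l 15315152)))) (b (l 6) (c (c (b (l 15397992) (c (l 15413120) (l 15394240))) (b (l 15360304) (l 15365864))) (b (c (l 15322608) (l 15286248)) (l 15309096))))) (b (a (c (c (l 15268008) (l 15235192)) (l 15179152)) (l 6)) (c (b (c (b (c (l 15257976) (l 15241576)) (l 15249368)) (a (l 15128352) (l 15215568))) (c (l 15253560) (b (c (l 15222752) (l 15204048)) (l 15217192)))) (b (l 15167520) (c (a (l 15091672) (l 15177984)) (b (l 15144192) (l 15141488)))))))), by decide +kernel⟩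

def k25_B00pm_101_s1 : ∃ t, chk3 f_B00pm_101_s1 t 5 3 1 = true :=
  ⟨(b (l 6) (b (l 6) (a (b (l 6) (a (a (a (b (l 6) (b (l 6) (b (l 6) (b (l 6) (c (c (c (l 15395280) (l 15359664)) (l 15306192)) (c (l 15234968) (l 15081800))))))) (l 6)) (l 6)) (l 6))) (l 6)))), by decide +kernel⟩

def k26_B00pm_101_s1 : ∃ t, chk3 f_B00pm_101_s1 t 3 1 1 = true :=
  ⟨(l 6), by decide +kernel⟩

theorem t27_B00pm_101_s1 : ∃ t, chk3 f_B00pm_101_s1 t 38 31 1 = true := ex3_b k22_B00pm_101_s1 k23_B00pm_101_s1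

theorem t28_B00pm_101_s1 : ∃ t, chk3 f_B00pm_101_s1 t 19 31 1 = true := ex3_a t27_B00pm_101_s1 k24_B00pm_101_s1

theorem t29_B00pm_101_s1 : ∃ t, chk3 f_B00pm_101_s1 t 19 15 1 = true := ex3_b k21_B00pm_101_s1 t28_B00pm_101_s1

theorem t30_B00pm_101_s1 : ∃ t, chk3 f_B00pm_101_s1 t 18 31 1 = true := ex3_c k19_B00pm_101_s1 k20_B00pm_101_s1

theorem t31_B00pm_101_s1 : ∃ t, chk3 f_B00pm_101_s1 t 18 15 1 = true := ex3_b k18_B00pm_101_s1 t30_B00pm_101_s1

theorem t32_B00pm_101_s1 : ∃ t, chk3 f_B00pm_101_s1 t 9 15 1 = true := ex3_a t31_B00pm_101_s1 t29_B00pm_101_s1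

theorem t33_B00pm_101_s1 : ∃ t, chk3 f_B00pm_101_s1 t 9 7 1 = true := ex3_b k17_B00pm_101_s1 t32_B00pm_101_s1

theorem t34_B00pm_101_s1 : ∃ t, chk3 f_B00pm_101_s1 t 17 31 2 = true := ex3_a k14_B00pm_101_s1 k15_B00pm_101_s1

theorem t35_B00pm_101_s1 : ∃ t, chk3 f_B00pm_101_s1 t 17 15 2 = true := ex3_b k13_B00pm_101_s1 t34_B00pm_101_s1

theorem t36_B00pm_101_s1 : ∃ t, chk3 f_B00pm_101_s1 t 17 15 1 = true := ex3_c t35_B00pm_101_s1 k16_B00pm_101_s1

theorem t37_B00pm_101_s1 : ∃ t, chk3 f_B00pm_101_s1 t 33 15 2 = true := ex3_b k10_B00pm_101_s1 k11_B00pm_101_s1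

theorem t38_B00pm_101_s1 : ∃ t, chk3 f_B00pm_101_s1 t 33 15 1 = true := ex3_c t37_B00pm_101_s1 k12_B00pm_101_s1

theorem t39_B00pm_101_s1 : ∃ t, chk3 f_B00pm_101_s1 t 64 15 3 = true := ex3_c k7_B00pm_101_s1 k8_B00pm_101_s1

theorem t40_B00pm_101_s1 : ∃ t, chk3 f_B00pm_101_s1 t 32 15 3 = true := ex3_a t39_B00pm_101_s1 k9_B00pm_101_s1

theorem t41_B00pm_101_s1 : ∃ t, chk3 f_B00pm_101_s1 t 32 61 2 = true := ex3_a k4_B00pm_101_s1 k5_B00pm_101_s1

theorem t42_B00pm_101_s1 : ∃ t, chk3 f_B00pm_101_s1 t 32 30 2 = true := ex3_b k3_B00pm_101_s1 t41_B00pm_101_s1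

theorem t43_B00pm_101_s1 : ∃ t, chk3 f_B00pm_101_s1 t 32 15 2 = true := ex3_b t42_B00pm_101_s1 k6_B00pm_101_s1

theorem t44_B00pm_101_s1 : ∃ t, chk3 f_B00pm_101_s1 t 32 15 1 = true := ex3_c t43_B00pm_101_s1 t40_B00pm_101_s1

theorem t45_B00pm_101_s1 : ∃ t, chk3 f_B00pm_101_s1 t 16 15 1 = true := ex3_a t44_B00pm_101_s1 t38_B00pm_101_s1

theorem t46_B00pm_101_s1 : ∃ t, chk3 f_B00pm_101_s1 t 8 15 1 = true := ex3_a t45_B00pm_101_s1 t36_B00pm_101_s1

theorem t47_B00pm_101_s1 : ∃ t, chk3 f_B00pm_101_s1 t 8 7 1 = true := ex3_b k2_B00pm_101_s1 t46_B00pm_101_s1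

theorem t48_B00pm_101_s1 : ∃ t, chk3 f_B00pm_101_s1 t 4 7 1 = true := ex3_a t47_B00pm_101_s1 t33_B00pm_101_s1

theorem t49_B00pm_101_s1 : ∃ t, chk3 f_B00pm_101_s1 t 4 3 1 = true := ex3_b k1_B00pm_101_s1 t48_B00pm_101_s1

theorem t50_B00pm_101_s1 : ∃ t, chk3 f_B00pm_101_s1 t 2 3 1 = true := ex3_a t49_B00pm_101_s1 k25_B00pm_101_s1

theorem t51_B00pm_101_s1 : ∃ t, chk3 f_B00pm_101_s1 t 2 1 1 = true := ex3_b k0_B00pm_101_s1 t50_B00pm_101_s1

theorem t52_B00pm_101_s1 : ∃ t, chk3 f_B00pm_101_s1 t 1 1 1 = true := ex3_a t51_B00pm_101_s1 k26_B00pm_101_s1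

theorem c_B00pm_101_s1 : CertFX 536870912 536870912 536870912 536870912 1046898278 26843546 false true false .npn 1 0 1
    ndF0q1 ndF0q1 pcF0 cut_B00pm_101_s1 Ext.none :=
  certFX2 (fam := false) (s1 := true) (s2 := false) (a := 1) (b := 0) (c := 1) (cn := .npn) (n1 := ndF0q1) (n2 := ndF0q1) (pc := pcF0) (cut := cut_B00pm_101_s1) (xt := Ext.none) (P1 := 536870912) (W1 := 536870912) (P2 := 536870912) (W2 := 536870912) (P3 := 1046898278) (W3 := 26843546)
    rfl (fun _ => rfl) t52_B00pm_101_s1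

theorem s_B00pm_101_s1 {κ x : ℝ} (hκ : κ * h0 = kenE x) (hx : 39 / 40 ≤ x) (hx' : x < 1)
    (H : CutVB (VFD κ) (DD x) tKF tL pcF (Cut.of [[⟨0, 1, 0, 67108864⟩, ⟨1, 0, 0, 67108864⟩, ⟨2, 1, 0, 67108864⟩, ⟨3, 0, 0, 1317011456⟩]]) 1 0 1 0 0 (sgb true) (sgb false) x) :
    AltVB (VFD κ) (DD x) tKF tL pcF [⟨3, 0, 0, 1449551462⟩] 1 0 1 0 0 (sgb true) (sgb false) x :=
  strip_altVB (d := 1449551462) true rfl hκ (κ0 hκ hx) (x0 hx) hx' (covF01 hx hx') (covF01 hx hx') (x1 hx) (x2 hx') c_B00pm_101_s1 H (noExt_VB)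

noncomputable def cut_B00pm_101_s3 : Cut := Cut.of [[⟨3, 0, 0, 2845415833⟩], [⟨0, 1, 0, 67108864⟩, ⟨1, 0, 0, 67108864⟩, ⟨2, 1, 0, 67108864⟩, ⟨3, 0, 0, 1317011456⟩]]

noncomputable def xt_B00pm_101_s3 : Ext := strExtY dd false true false .u0 .u0m .s0m .npn 1 0 1 rfl rfl gl0 ge vv ndF0q1 ndF0q1

noncomputable def f_B00pm_101_s3 : ℕ → ℕ → ℕ → ℕ → Bool := onCell 536870912 536870912 0 536870912 1046898278 26843546
    (rowFX 1 false true false .npn 1 0 1 (qsf 536870912 536870912 536870912 536870912 0) ndF0q1 ndF0q1 pcF0 cut_B00pm_101_s3 xt_B00pm_101_s3)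

def k0_B00pm_101_s3 : ∃ t, chk3 f_B00pm_101_s3 t 4 8 2 = true :=
  ⟨(c (b (a (a (l 4) (b (l 4) (b (l 4) (c (l 532303631) (l 532366351))))) (b (a (c (b (l 532099599) (a (l 532084495) (l 532332303))) (b (a (l 532105999) (l 532084239)) (a (a (l 532294159) (l 532283919)) (l 532268047)))) (b (l 532051983) (b (l 532267535) (l 532271887)))) (a (c (b (l 532234255) (l 532262415)) (b (l 532179471) (l 532325647))) (b (c (l 532189199) (l 532133903)) (c (l 532217103) (l 532281103)))))) (a (a (l 4) (a (b (l 4) (l 533227023)) (l 532949007))) (a (c (b (l 532641039) (l 533179919)) (b (l 532712207) (l 533195791))) (b (c (l 532598799) (l 532670735)) (c (b (l 533013007) (l 533280015)) (l 532889871)))))) (b (a (a (l 4) (b (l 4) (b (l 4) (c (l 532433167) (l 532496911))))) (b (a (b (c (a (l 532101135) (l 532079631)) (a (a (l 4) (c (l 532090127) (b (l 532011535) (l 532152335)))) (b (l 531996175) (l 532139791)))) (c (a (a (l 532214543) (l 532204047))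 (l 532187919)) (a (a (c (l 532167439) (l 532121359)) (l 532155663)) (l 532139279)))) (b (c (l 532044815) (l 532031503)) (c (l 532153615) (l 532104719)))) (a (c (b (l 532173071) (l 532392975)) (l 532334351)) (c (b (l 532127503) (l 532348943)) (l 532290063))))) (a (a (l 4) (b (a (l 4) (l 532796943)) (l 533219343))) (a (c (b (l 532765455) (l 533197327)) (b (l 532786191) (l 533173519))) (b (c (l 532724495) (l 532745231)) (c (l 533159951) (l 533135887))))))), by decide +kernel⟩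

def k1_B00pm_101_s3 : ∃ t, chk3 f_B00pm_101_s3 t 4 8 6 = true :=
  ⟨(b (a (a (l 4) (a (l 4) (a (l 4) (b (l 4) (b (l 4) (l 532517647)))))) (b (b (a (c (a (a (l 4) (b (l 532007951) (a (c (l 532132111) (l 532101135)) (l 532106255)))) (b (a (l 531996943) (l 531985679)) (l 532092431))) (b (a (a (l 4) (c (l 532004367) (a (l 4) (c (l 531998735) (b (l 531959823) (l 532029711)))))) (a (l 531988751) (l 531977487))) (a (a (l 4) (a (c (l 532062223) (b (l 4) (l 532011279))) (l 532047631))) (c (l 532042767) (l 532018447))))) (b (l 531951119) (c (l 532057615) (l 531998735)))) (a (c (a (a (b (l 4) (l 532118287)) (l 532099855)) (l 532083215)) (a (a (b (l 4) (l 532174095)) (l 532112399)) (l 532095759))) (c (l 532048143) (l 532060687)))) (a (c (a (l 532392463) (l 532371471)) (a (l 532408591) (l 532387599))) (c (l 532337935) (l 532354319))))) (a (a (l 4) (b (a (l 4) (l 532793871)) (l 533172751))) (a (c (a (l 532970767) (l 532952079)) (a (l 532945935)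 (l 532926991))) (c (l 532921871) (l 532896527))))), by decide +kernel⟩

def k2_B00pm_101_s3 : ∃ t, chk3 f_B00pm_101_s3 t 8 8 7 = true :=
  ⟨(a (l 4) (a (b (l 4) (b (l 4) (l 533134095))) (a (b (l 4) (c (l 532943631) (l 532919055))) (b (b (l 4) (b (l 4) (l 532476687))) (c (l 532934927) (l 532910095)))))), by decide +kernel⟩

def k3_B00pm_101_s3 : ∃ t, chk3 f_B00pm_101_s3 t 9 16 7 = true :=
  ⟨(b (c (a (b (b (a (a (l 4) (a (l 4) (a (b (l 4) (c (b (l 532011791) (l 532013839)) (c (l 531985167) (l 531973135)))) (b (c (l 531956495) (c (l 531954703) (b (l 531934223) (l 531969551)))) (l 531990287))))) (a (c (l 531972367) (b (l 531945487) (l 531970831))) (l 531949839))) (a (a (l 4) (a (a (l 4) (b (l 4) (l 532024335))) (l 532012047))) (c (l 531990031) (l 531994895)))) (a (a (a (l 4) (b (l 4) (l 532199951))) (l 532141583)) (l 532125199))) (b (b (b (l 531905807) (l 531942415)) (l 531962639)) (l 532090383))) (a (b (c (b (a (a (l 4) (a (l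 4) (a (b (l 4) (c (l 531958799) (l 531960847))) (b (b (c (l 531932943) (l 531930895)) (a (c (l 531958799) (l 531944463)) (l 531949071))) (l 531959823))))) (b (a (l 531931663) (l 531920399)) (l 531947023))) (a (a (l 4) (a (c (l 532028175) (l 532030991)) (l 532022543))) (l 532008463))) (a (a (l 4) (a (b (l 4) (c (l 532026895) (l 532019215))) (a (b (b (l 4) (c (l 531967247) (l 531964943))) (l 532019215)) (b (b (c (b (b (l 531920399) (a (l 531930127) (l 531928847))) (a (l 531935247) (l 531933711))) (b (c (b (l 531648271) (l 531921935)) (b (c (l 531914767) (l 531913487)) (l 531922447))) (l 531935759))) (l 531962383)) (l 532016399))))) (b (b (a (c (l 531923983) (l 531919375)) (l 531909903)) (l 531949839)) (l 532003855)))) (b (a (a (l 4) (l 532097807)) (l 532081167)) (a (a (a (l 4) (l 532177423)) (l 532169487)) (l 532153103)))) (b (b (b (b (l 531880207) (l 531901455)) (l 531908623)) (l 531969039)) (l 532082447)))) (a (c (a (l 532394767)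 (l 532373775)) (a (a (l 532371727) (l 532361487)) (l 532345615))) (c (l 532340495) (l 532311823)))), by decide +kernel⟩

def k4_B00pm_101_s3 : ∃ t, chk3 f_B00pm_101_s3 t 9 17 7 = true :=
  ⟨(a (b (c (a (l 532732943) (l 532713231)) (a (l 532706831) (l 532686863))) (a (l 532831247) (c (l 533093135) (l 533069327)))) (c (l 532602895) (b (l 532655119) (l 533039887)))), by decide +kernel⟩

def k5_B00pm_101_s3 : ∃ t, chk3 f_B00pm_101_s3 t 8 9 1 = true :=
  ⟨(c (b (a (a (l 4) (b (l 4) (l 534073359))) (c (l 533859855) (l 533820687))) (c (c (l 534632207) (l 534617359)) (c (l 534602767) (l 534588175)))) (b (c (a (b (l 4) (l 534024975)) (b (l 533574927) (l 533999119))) (a (b (l 4) (l 533988623)) (b (l 533532943) (l 533962767)))) (c (c (l 534573327) (l 534558735)) (c (b (l 534398223) (l 534694159)) (b (l 534382607) (l 534680335)))))), by decide +kernel⟩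

def k6_B00pm_101_s3 : ∃ t, chk3 f_B00pm_101_s3 t 9 9 2 = true :=
  ⟨(c (b (b (c (a (l 533638671) (a (l 533613839) (l 16583160))) (a (l 533617423) (l 533583631))) (a (a (l 534052111) (l 534037775)) (a (c (l 16659368) (l 16658592)) (l 16608080)))) (a (a (b (l 534455567) (c (l 534750991) (l 534737167))) (c (b (l 534450703) (l 16687968)) (b (l 534434831) (l 16687384)))) (b (a (b (l 16662624) (l 16663792)) (b (l 16635784) (l 16638488))) (a (c (l 16665504) (l 16664768)) (c (l 16642224) (l 16641344)))))) (c (b (b (a (l 533596175) (l 533562127)) (a (l 534017295) (a (l 16657824) (l 16627592)))) (a (a (b (l 534431759) (l 534723087)) (b (l 534418959) (l 16686792))) (b (a (l 534405647) (l 16635592)) (a (l 16664040) (l 16640456))))) (b (b (a (l 533574927) (l 533540623)) (a (l 533998863) (a (l 16657048) (l 16626624)))) (a (a (b (l 534415887) (l 534709263)) (b (l 534403087) (l 16686208))) (b (a (l 534389775) (l 16634672)) (a (l 16663304)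 (l 16639568))))))), by decide +kernel⟩

def k7_B00pm_101_s3 : ∃ t, chk3 f_B00pm_101_s3 t 9 9 3 = true :=
  ⟨(c (c (b (a (a (l 533768975) (l 533753359)) (b (l 533519375) (l 533949455))) (a (a (b (l 534400271) (l 534695439)) (b (l 534387215) (l 16685624))) (b (a (l 534373903) (l 16549872)) (a (l 16662576) (l 16638688))))) (b (a (a (l 533749263) (l 533733391)) (b (l 533497871) (l 533930767))) (a (a (a (l 534534159) (l 534259471)) (c (l 534522383) (l 534514959))) (b (a (l 534357775) (l 534343695)) (a (l 16661840) (l 16637800)))))) (c (b (b (a (a (l 533519887) (l 533503247)) (l 533476367)) (a (a (l 533950991) (l 533935887)) (a (l 533920527) (l 16623720)))) (b (a (a (l 534368527) (l 534355471)) (a (l 534341903) (l 534327567))) (a (a (l 534667535) (l 534655759)) (a (l 16661104) (l 16636912))))) (b (b (a (a (l 533498639) (l 533481999)) (l 533455119)) (a (a (l 533932559) (l 533917455)) (a (l 533901839) (l 16622752)))) (a (a (b (l 534352911)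 (l 534653711)) (b (l 534339599) (l 534641935))) (b (a (l 534326031) (l 534311695)) (a (l 16660376) (l 16636032))))))), by decide +kernel⟩

def k8_B00pm_101_s3 : ∃ t, chk3 f_B00pm_101_s3 t 5 16 2 = true :=
  ⟨(b (b (a (a (c (l 532002319) (c (l 531994895) (l 531981583))) (a (c (l 16506464) (c (l 16506056) (l 531941391))) (l 6))) (l 6)) (a (c (b (a (c (l 532244751) (l 532209935)) (a (b (l 532164623) (c (l 532245519) (l 532193551))) (l 6))) (c (a (l 532277519) (a (l 531970575) (l 6))) (a (l 16574952) (l 16474168)))) (c (a (l 531835919) (a (b (l 532106767) (l 16494120)) (l 6))) (b (l 532026383) (a (l 531998479) (b (l 531936527) (l 531934479)))))) (l 6))) (a (c (b (c (a (l 532140047) (a (a (l 532107023) (l 6)) (l 6))) (b (a (l 532078607) (a (l 532038415) (l 6))) (a (l 532067599) (a (a (l 532034063) (l 6)) (l 6))))) (a (c (c (l 532150543) (l 16554152)) (l 532232207)) (a (a (b (c (l 532075023) (l 16494336)) (l 16493640)) (l 6)) (l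 6)))) (c (a (b (l 531809039) (l 16497024)) (a (a (b (l 532044303) (l 16499176)) (l 6)) (l 6))) (a (l 532241423) (a (l 16488896) (l 6))))) (l 6))), by decide +kernel⟩

def k9_B00pm_101_s3 : ∃ t, chk3 f_B00pm_101_s3 t 5 16 3 = true :=
  ⟨(b (b (c (b (a (a (l 531900431) (c (l 16476952) (l 531841551))) (l 6)) (a (c (b (a (l 532012815) (l 531958287)) (l 531988495)) (a (l 531679759) (b (l 531897359) (l 531870223)))) (l 6))) (b (a (a (c (b (l 531854607) (l 531891471)) (b (c (l 531838991) (b (l 531820815) (l 531833359))) (l 531857423))) (a (c (b (l 531813647) (l 531850511)) (b (c (l 531797775) (l 531787023)) (l 531816207))) (l 6))) (l 6)) (a (c (a (l 531911951) (l 531856143)) (l 531621647)) (l 6)))) (a (c (b (c (a (l 531969807) (l 531914511)) (a (l 531956751) (l 531901199))) (a (l 532032271) (c (l 531950351) (l 16467096)))) (a (a (l 532046351) (l 532020239)) (c (l 531985935) (l 531977999)))) (l 6))) (a (c (a (c (l 532289807) (l 532306447))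 (a (c (l 532251151) (l 532267791)) (l 6))) (a (c (l 532292367) (l 532263439)) (c (l 532239887) (l 532210447)))) (l 6))), by decide +kernel⟩

def k10_B00pm_101_s3 : ∃ t, chk3 f_B00pm_101_s3 t 5 17 1 = true :=
  ⟨(a (c (a (c (b (c (a (l 16578072) (l 16448368)) (a (l 16581416) (l 16536376))) (c (b (a (l 16582208) (l 16540344)) (c (b (l 16564896) (a (l 16587424) (l 16548808))) (b (l 16503472) (l 16568056)))) (b (c (b (l 16562928) (l 16481256)) (l 533031183)) (l 16524520)))) (b (c (b (l 16498168) (l 532809231)) (b (l 532604943) (l 16478968))) (c (a (l 16584664) (l 16544240)) (l 533094671)))) (l 6)) (a (b (c (c (l 532689679) (l 532663055)) (a (l 532634895) (l 532611343))) (c (c (l 533070351) (l 533046031)) (a (l 533020687) (l 532998671)))) (l 6))) (l 6)), by decide +kernel⟩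

def k11_B00pm_101_s3 : ∃ t, chk3 f_B00pm_101_s3 t 5 9 1 = true :=
  ⟨(a (a (a (b (c (c (b (c (l 16590208) (l 16588984)) (c (l 16598624) (l 16597448))) (b (b (l 16585968) (l 16588856)) (l 16595696))) (b (c (b (l 16583504) (l 16586424)) (b (l 16581032) (l 16583992))) (c (l 16593352) (c (l 16591592) (l 16590424))))) (l 6)) (l 6)) (l 6)) (l 6)), by decide +kernel⟩

def k12_B00pm_101_s3 : ∃ t, chk3 f_B00pm_101_s3 t 8 5 1 = true :=
  ⟨(c (c (a (b (b (c (l 535213327) (l 535202575)) (c (b (l 535670799) (l 535991823)) (b (l 535662863) (l 535986191)))) (b (c (l 536225807) (l 536223247)) (b (l 536869903) (l 536870927)))) (c (b (b (b (l 535050767) (a (l 535350799) (l 535343119))) (b (l 535658511) (l 535982863))) (b (l 536221711) (l 536870415))) (b (b (b (l 535038991) (a (l 535340815) (l 535332879))) (l 535543823)) (b (l 536219151) (l 536870415))))) (b (c (b (a (l 535191567) (b (l 535026959) (l 535326991))) (a (l 535816207) (l 535536911)))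 (b (a (l 535180815) (b (l 535014927) (l 535317007))) (a (l 535809295) (l 535798287)))) (b (c (b (l 536313871) (l 536394767)) (b (l 536310287) (l 536393487))) (a (b (l 536869647) (l 536870927)) (b (l 536869647) (l 536870927)))))) (c (b (c (b (a (l 535169807) (l 535153167)) (a (l 535802383) (l 535791375))) (b (a (l 535159055) (l 535142159)) (a (l 535795727) (l 535784463)))) (b (c (b (l 536306703) (l 536392207)) (b (l 536303119) (l 536659215))) (a (c (l 536870415) (l 536870415)) (b (l 536869647) (l 536870927))))) (c (b (b (a (l 535148047) (b (l 534979087) (l 535286799))) (a (l 535788815) (l 535777551))) (b (b (l 536299535) (l 536657935)) (l 536601871))) (b (b (a (l 535137295) (b (l 534967311) (l 535276815))) (a (l 535513615) (l 535770895))) (b (b (l 536295951) (l 536656399)) (l 536870415)))))), by decide +kernel⟩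

def k13_B00pm_101_s3 : ∃ t, chk3 f_B00pm_101_s3 t 9 5 1 = true :=
  ⟨(b (c (b (a (c (a (b (c (l 16709240) (l 16708792)) (a (l 535331855) (c (l 16708192) (l 16707744)))) (b (c (l 16690160) (l 16689592)) (c (l 16695904) (l 16695368)))) (a (c (b (l 535012623) (b (l 16710248) (l 16712640))) (b (l 535000591) (l 535304719))) (b (c (l 16689024) (l 16688448)) (c (l 16694832) (l 16694304))))) (a (c (b (c (l 16670392) (l 16669696)) (c (b (l 16676536) (l 16681896)) (l 16657440))) (b (c (l 16668992) (l 16668296)) (c (l 16677768) (l 16677128)))) (l 6))) (a (c (b (a (c (l 16718848) (l 16718464)) (c (l 16705688) (l 16705216))) (a (c (l 16729504) (l 16729192)) (c (l 16719688) (l 16719312)))) (a (b (c (l 16718080) (l 16717696)) (c (l 16728880) (l 16728560))) (b (c (l 16704752) (l 16704280)) (c (l 16718936) (l 16718560))))) (l 6))) (a (b (c (c (a (c (l 535142671) (l 535137039)) (b (l 16687880) (l 16693768))) (a (c (l 535131407) (l 535126031))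 (l 534850575))) (c (a (c (l 535120399) (l 535115023)) (l 534839567)) (a (c (l 535109391) (l 535103759)) (l 534828303)))) (c (c (a (b (l 16717312) (l 16728248)) (b (l 16703816) (l 16718176))) (a (l 535507215) (l 535500815))) (a (c (l 535768591) (l 535761679)) (c (l 535762191) (l 535755279))))) (a (b (c (b (c (l 16667592) (l 16666888)) (c (l 16676480) (l 16675840))) (c (a (l 535100431) (l 535095311)) (l 534818319))) (l 6)) (l 6)))) (b (a (a (c (c (b (c (l 16744376) (l 16744160)) (c (l 16763768) (l 16763680))) (b (c (l 16743944) (l 16743728)) (l 16721600))) (c (b (c (l 16743512) (l 16743296)) (l 16679488)) (b (l 536021263) (l 16679304)))) (l 6)) (l 6)) (l 6))), by decide +kernel⟩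

def k14_B00pm_101_s3 : ∃ t, chk3 f_B00pm_101_s3 t 5 5 1 = true :=
  ⟨(b (l 6) (l 6)), by decide +kernel⟩

def k15_B00pm_101_s3 : ∃ t, chk3 f_B00pm_101_s3 t 3 2 1 = true :=
  ⟨(b (l 6) (l 6)), by decide +kernel⟩

def k16_B00pm_101_s3 : ∃ t, chk3 f_B00pm_101_s3 t 1 3 1 = true :=
  ⟨(a (b (a (a (b (c (a (b (c (a (l 536870927) (l 536870927)) (a (l 536870927) (l 536870927))) (c (a (l 16777216) (l 16777216)) (a (l 16777216) (l 16777216)))) (a (b (c (l 16777216) (l 16777216)) (l 6)) (l 6))) (a (c (b (a (l 536870927) (l 536870927)) (a (l 536870927) (l 16777216))) (b (c (l 536870927) (l 536870927)) (c (l 536870927) (l 536870927)))) (a (b (c (l 536870927) (l 536870927)) (l 6)) (l 6)))) (a (a (b (c (b (l 16777216) (l 6)) (c (l 16777216) (l 16777216))) (l 6)) (l 6)) (l 6))) (l 6)) (l 6)) (a (a (l 6) (l 6)) (l 6))) (l 6)), by decide +kernel⟩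

theorem t17_B00pm_101_s3 : ∃ t, chk3 f_B00pm_101_s3 t 4 5 1 = true := ex3_a k12_B00pm_101_s3 k13_B00pm_101_s3

theorem t18_B00pm_101_s3 : ∃ t, chk3 f_B00pm_101_s3 t 2 5 1 = true := ex3_a t17_B00pm_101_s3 k14_B00pm_101_s3

theorem t19_B00pm_101_s3 : ∃ t, chk3 f_B00pm_101_s3 t 5 16 1 = true := ex3_c k8_B00pm_101_s3 k9_B00pm_101_s3

theorem t20_B00pm_101_s3 : ∃ t, chk3 f_B00pm_101_s3 t 5 8 1 = true := ex3_b t19_B00pm_101_s3 k10_B00pm_101_s3

theorem t21_B00pm_101_s3 : ∃ t, chk3 f_B00pm_101_s3 t 5 4 1 = true := ex3_b t20_B00pm_101_s3 k11_B00pm_101_s3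

theorem t22_B00pm_101_s3 : ∃ t, chk3 f_B00pm_101_s3 t 9 9 1 = true := ex3_c k6_B00pm_101_s3 k7_B00pm_101_s3

theorem t23_B00pm_101_s3 : ∃ t, chk3 f_B00pm_101_s3 t 4 9 1 = true := ex3_a k5_B00pm_101_s3 t22_B00pm_101_s3

theorem t24_B00pm_101_s3 : ∃ t, chk3 f_B00pm_101_s3 t 9 8 7 = true := ex3_b k3_B00pm_101_s3 k4_B00pm_101_s3

theorem t25_B00pm_101_s3 : ∃ t, chk3 f_B00pm_101_s3 t 4 8 7 = true := ex3_a k2_B00pm_101_s3 t24_B00pm_101_s3

theorem t26_B00pm_101_s3 : ∃ t, chk3 f_B00pm_101_s3 t 4 8 3 = true := ex3_c k1_B00pm_101_s3 t25_B00pm_101_s3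

theorem t27_B00pm_101_s3 : ∃ t, chk3 f_B00pm_101_s3 t 4 8 1 = true := ex3_c k0_B00pm_101_s3 t26_B00pm_101_s3

theorem t28_B00pm_101_s3 : ∃ t, chk3 f_B00pm_101_s3 t 4 4 1 = true := ex3_b t27_B00pm_101_s3 t23_B00pm_101_s3

theorem t29_B00pm_101_s3 : ∃ t, chk3 f_B00pm_101_s3 t 2 4 1 = true := ex3_a t28_B00pm_101_s3 t21_B00pm_101_s3

theorem t30_B00pm_101_s3 : ∃ t, chk3 f_B00pm_101_s3 t 2 2 1 = true := ex3_b t29_B00pm_101_s3 t18_B00pm_101_s3

theorem t31_B00pm_101_s3 : ∃ t, chk3 f_B00pm_101_s3 t 1 2 1 = true := ex3_a t30_B00pm_101_s3 k15_B00pm_101_s3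

theorem t32_B00pm_101_s3 : ∃ t, chk3 f_B00pm_101_s3 t 1 1 1 = true := ex3_b t31_B00pm_101_s3 k16_B00pm_101_s3

theorem c_B00pm_101_s3 : CertFX 536870912 536870912 536870912 536870912 1046898278 26843546 false true false .npn 1 0 1
    ndF0q1 ndF0q1 pcF0 cut_B00pm_101_s3 xt_B00pm_101_s3 :=
  certFX1 (fam := false) (s1 := true) (s2 := false) (a := 1) (b := 0) (c := 1) (cn := .npn) (n1 := ndF0q1) (n2 := ndF0q1) (pc := pcF0) (cut := cut_B00pm_101_s3) (xt := xt_B00pm_101_s3) (P1 := 536870912) (W1 := 536870912) (P2 := 536870912) (W2 := 536870912) (P3 := 1046898278) (W3 := 26843546)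
    rfl (fun _ => rfl) t32_B00pm_101_s3

theorem s_B00pm_101_s3 {κ x : ℝ} (hκ : κ * h0 = kenE x) (hx : 39 / 40 ≤ x) (hx' : x < 1)
    (H : CutVB (VFD κ) (DD x) tKF tL pcF (Cut.of [[⟨0, 1, 0, 67108864⟩, ⟨1, 0, 0, 67108864⟩, ⟨2, 1, 0, 67108864⟩, ⟨3, 0, 0, 1317011456⟩]]) 1 0 1 0 0 (sgb true) (sgb false) x) :
    AltVB (VFD κ) (DD x) tKF tL pcF [⟨4, 0, 0, 2845415833⟩] 1 0 1 0 0 (sgb true) (sgb false) x :=
  strip_altVB (d := 2845415833) false rfl hκ (κ0 hκ hx) (x0 hx) hx' (covF01 hx hx') (covF01 hx hx') (x1 hx) (x2 hx') c_B00pm_101_s3 H ((ok hx hx').extB (T := tt) (sideF hx hx') hκ (κ0 hκ hx) rfl rfl (.O 1 true) (.O 1 false) (Or.inl rfl))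

noncomputable def cut_B00pm_102_s3 : Cut := Cut.of [[⟨3, 0, 0, 2845415833⟩], [⟨0, 1, 0, 67108864⟩, ⟨1, 0, 0, 67108864⟩, ⟨2, 1, 0, 67108864⟩, ⟨3, 0, 0, 1317011456⟩]]

noncomputable def f_B00pm_102_s3 : ℕ → ℕ → ℕ → ℕ → Bool := onCell 536870912 536870912 0 536870912 1046898278 26843546
    (rowFX 0 false true false .npp 1 0 2 (qsf 536870912 536870912 0 536870912 0) ndF0q1 ndF0q2 pcF0 cut_B00pm_102_s3 Ext.none)

def k0_B00pm_102_s3 : ∃ t, chk3 f_B00pm_102_s3 t 1 1 1 = true :=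
  ⟨(l 6), by decide +kernel⟩

theorem c_B00pm_102_s3 : CertFX 536870912 536870912 0 536870912 1046898278 26843546 false true false .npp 1 0 2
    ndF0q1 ndF0q2 pcF0 cut_B00pm_102_s3 Ext.none :=
  certFX0 (fam := false) (s1 := true) (s2 := false) (a := 1) (b := 0) (c := 2) (cn := .npp) (n1 := ndF0q1) (n2 := ndF0q2) (pc := pcF0) (cut := cut_B00pm_102_s3) (xt := Ext.none) (P1 := 536870912) (W1 := 536870912) (P2 := 0) (W2 := 536870912) (P3 := 1046898278) (W3 := 26843546)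
    rfl k0_B00pm_102_s3

theorem s_B00pm_102_s3 {κ x : ℝ} (hκ : κ * h0 = kenE x) (hx : 39 / 40 ≤ x) (hx' : x < 1)
    (H : CutVB (VFD κ) (DD x) tKF tL pcF (Cut.of [[⟨0, 1, 0, 67108864⟩, ⟨1, 0, 0, 67108864⟩, ⟨2, 1, 0, 67108864⟩, ⟨3, 0, 0, 1317011456⟩]]) 1 0 2 0 0 (sgb true) (sgb false) x) :
    AltVB (VFD κ) (DD x) tKF tL pcF [⟨4, 0, 0, 2845415833⟩] 1 0 2 0 0 (sgb true) (sgb false) x :=
  strip_altVB (d := 2845415833) false rfl hκ (κ0 hκ hx) (x0 hx) hx' (covF01 hx hx') (covF02 hx hx') (x1 hx) (x2 hx') c_B00pm_102_s3 H (noExt_VB)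

noncomputable def cut_B00pm_112_s1 : Cut := Cut.of [[⟨4, 0, 0, 1449551462⟩]]

noncomputable def xt_B00pm_112_s1 : Ext := strExtY dd false true false .u0 .u2 .u0m .dn 1 1 2 rfl rfl gf1 ge vv ndF0q1 ndF0q2

noncomputable def f_B00pm_112_s1 : ℕ → ℕ → ℕ → ℕ → Bool := onCell 536870912 536870912 0 536870912 1046898278 26843546
    (rowFX 2 false true false .dn 1 1 2 (qsf 536870912 536870912 0 536870912 1) ndF0q1 ndF0q2 pcF1 cut_B00pm_112_s1 xt_B00pm_112_s1)

def k0_B00pm_112_s1 : ∃ t, chk3 f_B00pm_112_s1 t 8 8 1 = true :=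
  ⟨(c (a (b (l 3) (c (c (l 536870927) (l 536870927)) (c (l 536870927) (l 536870927)))) (c (c (b (c (l 536870927) (b (l 536870927) (l 536870927))) (l 536870927)) (b (b (b (l 3) (l 536870927)) (l 536870927)) (l 536870927))) (b (a (b (l 3) (l 536870927)) (b (b (l 3) (l 536870927)) (l 536870927))) (c (l 536870927) (l 536870927))))) (a (b (l 3) (c (c (l 536870927) (l 536870927)) (c (l 536870927) (l 536870927)))) (c (b (a (b (l 3) (l 536870927)) (b (b (l 3) (l 536870927)) (l 536870927))) (c (l 536870927) (l 536870927))) (b (b (b (l 3) (l 536870927)) (a (l 536870927) (l 536870927))) (c (l 536870927) (l 536870927)))))), by decide +kernel⟩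

def k1_B00pm_112_s1 : ∃ t, chk3 f_B00pm_112_s1 t 8 9 1 = true :=
  ⟨(b (c (c (c (a (l 536870927) (l 536870927)) (a (l 536870927) (l 536870927))) (a (c (l 536870927) (l 536870927)) (c (l 536870927) (l 536870927)))) (c (a (c (a (l 536870927) (l 536870927)) (l 536870927)) (c (l 536870927) (l 536870927))) (a (c (l 536870927) (l 536870927)) (c (l 536870927) (l 536870927))))) (c (c (a (b (c (l 536870927) (l 536870927)) (c (c (l 536870927) (l 536870927)) (c (l 536870927) (l 536870927)))) (a (c (l 536870927) (l 536870927)) (b (l 536870927) (a (l 536870927) (b (l 536870927) (c (l 16777216) (l 16777216))))))) (a (c (b (l 536870927) (c (l 536870927) (l 536870927))) (b (l 536870927) (a (l 536870927) (l 536870927)))) (a (c (l 536870927) (l 536870927)) (b (l 536870927) (a (l 536870927) (b (l 536870927) (c (l 16777216) (l 16777216)))))))) (a (c (c (b (l 536870927) (a (l 536870927) (l 536870927))) (b (l 536870927) (a (l 536870927) (l 536870927))))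 (c (b (l 536870927) (a (l 536870927) (l 536870927))) (b (l 536870927) (a (l 536870927) (l 536870927))))) (c (a (c (l 536870927) (l 536870927)) (b (l 536870927) (a (l 536870927) (b (l 536870927) (c (l 16777216) (l 16777216)))))) (a (c (l 536870927) (l 536870927)) (b (l 536870927) (a (l 536870927) (c (l 16777216) (l 16777216))))))))), by decide +kernel⟩

def k2_B00pm_112_s1 : ∃ t, chk3 f_B00pm_112_s1 t 9 8 4 = true :=
  ⟨(c (a (a (b (c (b (l 536870927) (l 536870927)) (b (l 536870927) (l 536870927))) (l 536870927)) (b (c (l 536870927) (b (l 536870927) (l 536870927))) (c (l 536870927) (l 536870927)))) (a (b (b (c (l 536870927) (l 536870927)) (l 536870927)) (c (l 536870927) (l 536870927))) (b (b (l 536870927) (l 536870927)) (c (l 536870927) (l 536870927))))) (a (a (b (b (c (c (l 536870927) (l 536870927)) (c (l 536870927) (l 536870927))) (a (l 536870927) (l 536870927))) (l 536870927)) (b (c (b (l 536870927) (l 536870927)) (b (c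 (l 536870927) (l 536870927)) (l 536870927))) (a (l 536870927) (l 536870927)))) (a (b (b (b (l 536870927) (l 536870927)) (l 536870927)) (c (l 536870927) (l 536870927))) (b (b (l 536870927) (l 536870927)) (c (l 536870927) (l 536870927)))))), by decide +kernel⟩

def k3_B00pm_112_s1 : ∃ t, chk3 f_B00pm_112_s1 t 9 8 5 = true :=
  ⟨(c (a (a (a (b (b (b (b (l 3) (l 536870927)) (l 536870927)) (l 536870927)) (l 536870927)) (b (b (c (c (l 536870927) (l 536870927)) (c (l 536870927) (l 536870927))) (l 536870927)) (l 536870927))) (b (c (b (c (l 536870927) (l 536870927)) (l 536870927)) (b (c (l 536870927) (l 536870927)) (l 536870927))) (a (l 536870927) (l 536870927)))) (a (b (b (b (l 536870927) (l 536870927)) (l 536870927)) (c (l 536870927) (l 536870927))) (b (b (l 536870927) (l 536870927)) (c (l 536870927) (l 536870927))))) (a (a (a (b (b (b (b (l 3) (l 536870927)) (l 536870927)) (l 536870927)) (l 536870927)) (b (b (b (c (c (l 536870927)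 (l 536870927)) (c (l 536870927) (l 536870927))) (a (l 536870927) (l 536870927))) (l 536870927)) (l 536870927))) (b (c (b (c (b (l 536870927) (l 536870927)) (b (l 536870927) (l 536870927))) (l 536870927)) (b (c (b (l 536870927) (l 536870927)) (a (l 536870927) (l 536870927))) (l 536870927))) (a (l 536870927) (l 536870927)))) (a (b (b (b (l 536870927) (l 536870927)) (l 536870927)) (c (l 536870927) (l 536870927))) (b (b (l 536870927) (l 536870927)) (c (l 536870927) (l 16777216)))))), by decide +kernel⟩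

def k4_B00pm_112_s1 : ∃ t, chk3 f_B00pm_112_s1 t 9 8 3 = true :=
  ⟨(c (a (c (a (a (b (b (b (b (l 3) (l 536870927)) (l 536870927)) (l 536870927)) (l 536870927)) (b (b (c (c (b (l 536870927) (l 536870927)) (l 536870927)) (c (l 536870927) (l 536870927))) (l 536870927)) (l 536870927))) (b (a (b (b (c (l 536870927) (l 536870927)) (l 536870927)) (l 536870927)) (b (b (l 536870927) (l 536870927)) (l 536870927))) (l 536870927))) (a (a (b (b (c (l 536870927) (l 536870927)) (l 536870927)) (l 536870927)) (b (b (c (c (l 536870927) (l 536870927)) (l 536870927)) (l 536870927)) (l 536870927))) (b (c (b (c (l 536870927) (l 536870927)) (l 536870927)) (b (c (l 536870927) (l 536870927)) (l 536870927))) (l 536870927)))) (c (b (b (b (l 536870927) (l 536870927)) (a (l 536870927) (l 536870927))) (a (l 536870927) (l 536870927))) (b (a (b (l 536870927) (l 536870927)) (b (l 536870927) (l 536870927))) (a (l 536870927) (l 536870927))))) (a (c (a (b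 (b (c (c (l 536870927) (l 536870927)) (l 536870927)) (a (l 536870927) (l 536870927))) (l 536870927)) (b (c (b (l 536870927) (l 536870927)) (b (l 536870927) (l 536870927))) (l 536870927))) (a (b (c (b (l 536870927) (l 536870927)) (l 536870927)) (l 536870927)) (b (c (l 536870927) (l 536870927)) (l 536870927)))) (c (b (a (b (l 536870927) (l 536870927)) (l 536870927)) (a (l 536870927) (l 536870927))) (b (a (b (l 536870927) (l 536870927)) (l 536870927)) (a (l 536870927) (l 536870927)))))), by decide +kernel⟩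

def k5_B00pm_112_s1 : ∃ t, chk3 f_B00pm_112_s1 t 9 9 2 = true :=
  ⟨(a (c (b (a (c (l 536870927) (l 536870927)) (c (l 536870927) (l 536870927))) (a (a (b (l 536870927) (c (b (l 16777216) (l 16777216)) (b (l 16777216) (l 16777216)))) (b (c (l 16777216) (l 16777216)) (b (c (l 16777216) (l 16777216)) (l 16777216)))) (a (b (b (l 16777216) (c (l 16777216) (l 16777216))) (l 16777216)) (b (b (c (l 16777216) (l 16777216)) (c (l 16777216) (l 16777216))) (l 16777216))))) (b (a (c (l 536870927) (l 536870927)) (c (l 536870927) (l 536870927))) (a (a (b (l 536870927) (c (b (l 16777216) (l 16777216)) (b (l 16777216) (l 16777216)))) (b (c (l 16777216) (l 16777216)) (b (c (l 16777216) (a (l 16777216) (l 16777216))) (l 16777216)))) (a (b (b (l 536870927) (c (l 16777216) (l 16777216))) (l 16777216)) (b (b (c (l 16777216) (l 16777216)) (c (l 16777216) (l 16777216))) (l 16777216)))))) (b (c (a (b (c (l 536870927) (l 536870927)) (c (b (l 16777216)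 (a (l 16777216) (l 16777216))) (b (l 16777216) (a (l 16777216) (l 16777216))))) (b (a (c (l 16777216) (l 16777216)) (b (l 16777216) (c (l 16777216) (l 16777216)))) (b (a (c (l 16777216) (l 16777216)) (l 16777216)) (l 16777216)))) (a (b (c (l 536870927) (l 536870927)) (c (b (l 16777216) (a (l 16777216) (l 16777216))) (b (l 16777216) (a (l 16777216) (l 16777216))))) (b (c (a (l 16777216) (b (l 16777216) (l 16777216))) (c (l 16777216) (l 16777216))) (b (a (c (l 16777216) (l 16777216)) (l 16777216)) (l 16777216))))) (c (a (a (b (c (l 16777216) (l 16777216)) (l 16777216)) (b (l 16777216) (l 16777216))) (c (l 16777216) (l 16777216))) (a (a (b (c (l 16777216) (l 16777216)) (l 16777216)) (c (l 16777216) (l 16777216))) (c (l 16777216) (l 16777216)))))), by decide +kernel⟩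

def k6_B00pm_112_s1 : ∃ t, chk3 f_B00pm_112_s1 t 9 9 3 = true :=
  ⟨(a (c (b (a (c (l 536870927) (l 536870927)) (c (l 536870927) (l 536870927))) (a (a (b (l 536870927) (c (b (l 16777216) (l 16777216)) (b (l 16777216) (l 16777216)))) (b (c (l 16777216) (l 16777216)) (b (c (l 16777216) (l 16777216)) (l 16777216)))) (b (a (b (l 536870927) (c (l 16777216) (l 16777216))) (c (b (l 16777216) (l 16777216)) (b (l 16777216) (l 16777216)))) (c (l 16777216) (l 16777216))))) (b (a (c (l 536870927) (l 536870927)) (c (l 536870927) (l 536870927))) (a (a (b (l 536870927) (c (b (l 16777216) (l 16777216)) (b (l 16777216) (l 16777216)))) (b (c (l 16777216) (l 16777216)) (b (c (l 16777216) (l 16777216)) (l 16777216)))) (b (c (b (l 16777216) (a (l 16777216) (l 16777216))) (b (l 16777216) (l 16777216))) (c (l 16777216) (l 16777216)))))) (c (b (c (a (b (l 536870927) (b (l 16777216) (a (l 16777216) (l 16777216)))) (b (a (l 16777216) (l 16777216))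 (b (a (l 16777216) (l 16777216)) (l 16777216)))) (a (b (l 16777216) (a (l 16777216) (l 16777216))) (b (b (l 16777216) (l 16777216)) (b (l 16777216) (l 16777216))))) (a (a (b (c (l 16777216) (l 16777216)) (l 16777216)) (b (l 16777216) (l 16777216))) (c (l 16777216) (l 16777216)))) (b (c (b (a (l 16777216) (l 16777216)) (a (b (l 16777216) (l 16777216)) (b (l 16777216) (l 16777216)))) (b (a (l 16777216) (l 16777216)) (a (b (l 16777216) (l 16777216)) (l 16777216)))) (a (b (c (l 16777216) (l 16777216)) (l 16777216)) (c (l 16777216) (l 16777216)))))), by decide +kernel⟩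

def k7_B00pm_112_s1 : ∃ t, chk3 f_B00pm_112_s1 t 16 10 2 = true :=
  ⟨(b (c (a (c (b (l 536870927) (l 536870927)) (b (l 536870927) (l 536870927))) (b (c (l 536870927) (l 536870927)) (c (a (b (l 16777216) (b (l 16777216) (l 16777216))) (b (l 16777216) (l 16777216))) (a (b (l 16777216) (b (l 16777216) (l 16777216))) (b (b (l 16777216) (l 16777216)) (l 16777216)))))) (a (c (c (l 536870927) (l 536870927)) (c (l 536870927) (l 536870927))) (b (c (l 536870927) (l 536870927)) (c (a (b (l 16777216) (a (l 16777216) (l 16777216))) (b (b (l 16777216) (l 16777216)) (l 16777216))) (a (b (l 16777216) (a (l 16777216) (l 16777216))) (b (b (l 16777216) (l 16777216)) (l 16777216))))))) (b (c (b (a (c (a (l 16777216) (c (l 16777216) (l 16777216))) (a (c (l 16777216) (l 16777216)) (b (a (l 16777216) (l 16777216)) (l 16777216)))) (a (c (l 16777216) (l 16777216)) (l 16777216))) (a (a (c (c (l 16777216) (l 16777216)) (b (a (l 16777216) (l 16777216))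 (l 16777216))) (l 16777216)) (l 16777216))) (b (a (b (a (c (l 16777216) (l 16777216)) (c (a (l 16777216) (l 16777216)) (a (l 16777216) (l 16777216)))) (a (c (l 16777216) (l 16777216)) (a (c (l 16777216) (l 16777216)) (l 16777216)))) (a (c (l 16777216) (l 16777216)) (l 16777216))) (a (a (c (b (a (l 16777216) (l 16777216)) (l 16777216)) (b (a (l 16777216) (l 16777216)) (l 16777216))) (l 16777216)) (l 16777216)))) (c (c (l 16777216) (a (l 16777216) (l 16777216))) (c (a (l 16777216) (l 16777216)) (a (l 16777216) (l 16777216)))))), by decide +kernel⟩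

def k8_B00pm_112_s1 : ∃ t, chk3 f_B00pm_112_s1 t 17 10 2 = true :=
  ⟨(b (c (a (a (b (c (l 16777216) (l 16777216)) (b (c (b (l 16777216) (l 16777216)) (b (l 16777216) (l 16777216))) (l 16777216))) (b (b (l 536870927) (c (l 16777216) (b (l 16777216) (l 16777216)))) (l 16777216))) (b (c (b (a (l 16777216) (l 16777216)) (l 16777216)) (b (a (l 16777216) (l 16777216)) (l 16777216))) (l 16777216))) (a (b (b (c (l 536870927) (l 536870927)) (a (c (l 16777216) (l 16777216)) (c (b (l 16777216) (l 16777216)) (b (l 16777216) (l 16777216))))) (a (b (c (b (l 16777216) (l 16777216)) (b (l 16777216) (l 16777216))) (l 16777216)) (l 16777216))) (b (c (b (a (l 16777216) (l 16777216)) (l 16777216)) (a (b (l 16777216) (l 16777216)) (l 16777216))) (l 16777216)))) (c (c (a (l 16777216) (l 16777216)) (a (l 16777216) (l 16777216))) (c (a (l 16777216) (l 16777216)) (a (l 16777216) (l 16777216))))), by decide +kernel⟩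

def k9_B00pm_112_s1 : ∃ t, chk3 f_B00pm_112_s1 t 16 10 3 = true :=
  ⟨(b (c (a (c (c (l 536870927) (l 536870927)) (c (l 536870927) (l 536870927))) (b (c (l 536870927) (l 536870927)) (c (a (b (l 16777216) (b (l 16777216) (l 16777216))) (b (b (l 16777216) (l 16777216)) (l 16777216))) (a (b (l 16777216) (c (l 16777216) (l 16777216))) (b (l 16777216) (l 16777216)))))) (a (c (c (l 536870927) (l 536870927)) (c (l 536870927) (l 536870927))) (b (c (l 536870927) (l 536870927)) (c (a (b (l 16777216) (l 16777216)) (b (l 16777216) (l 16777216))) (a (b (l 16777216) (l 16777216)) (b (l 16777216) (l 16777216))))))) (c (b (b (a (c (a (c (l 16777216) (l 16777216)) (c (b (l 16777216) (l 16777216)) (l 16777216))) (a (c (l 16777216) (l 16777216)) (c (l 16777216) (l 16777216)))) (a (c (l 16777216) (l 16777216)) (l 16777216))) (a (a (c (b (a (l 16777216) (l 16777216)) (l 16777216)) (c (l 16777216) (l 16777216))) (l 16777216)) (c (l 16777216) (l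 16777216)))) (c (a (l 16777216) (l 16777216)) (a (l 16777216) (l 16777216)))) (b (b (a (c (a (l 16777216) (c (l 16777216) (l 16777216))) (a (l 16777216) (l 16777216))) (c (a (l 16777216) (l 16777216)) (l 16777216))) (a (a (c (c (l 16777216) (l 16777216)) (l 16777216)) (l 16777216)) (l 16777216))) (c (a (l 16777216) (l 16777216)) (l 16777216))))), by decide +kernel⟩

def k10_B00pm_112_s1 : ∃ t, chk3 f_B00pm_112_s1 t 17 10 3 = true :=
  ⟨(b (c (a (a (b (c (l 16777216) (l 16777216)) (b (c (b (l 16777216) (l 16777216)) (l 16777216)) (l 16777216))) (b (b (l 536870927) (c (c (l 16777216) (l 16777216)) (l 16777216))) (l 16777216))) (b (c (a (b (l 16777216) (l 16777216)) (l 16777216)) (a (b (l 16777216) (l 16777216)) (l 16777216))) (l 16777216))) (a (a (b (c (l 16777216) (l 16777216)) (c (b (l 16777216) (l 16777216)) (l 16777216))) (b (b (l 536870927) (c (l 16777216) (l 16777216))) (l 16777216))) (b (c (a (b (l 16777216) (l 16777216))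 (l 16777216)) (a (b (l 16777216) (l 16777216)) (l 16777216))) (l 16777216)))) (c (c (a (l 16777216) (l 16777216)) (a (l 16777216) (l 16777216))) (c (a (l 16777216) (l 16777216)) (a (l 16777216) (l 16777216))))), by decide +kernel⟩

def k11_B00pm_112_s1 : ∃ t, chk3 f_B00pm_112_s1 t 9 10 1 = true :=
  ⟨(c (c (c (a (b (c (l 16777216) (l 16777216)) (c (l 16777216) (l 16777216))) (b (l 16777216) (l 16777216))) (a (b (a (l 16777216) (l 16777216)) (c (l 16777216) (l 16777216))) (b (l 16777216) (l 16777216)))) (c (a (b (a (l 16777216) (l 16777216)) (c (l 16777216) (l 16777216))) (b (c (l 16777216) (l 16777216)) (l 16777216))) (a (b (a (l 16777216) (l 16777216)) (c (l 16777216) (l 16777216))) (b (c (l 16777216) (l 16777216)) (l 16777216))))) (c (a (b (c (a (l 16777216) (l 16777216)) (a (l 16777216) (l 16777216))) (c (a (l 16777216) (l 16777216)) (a (l 16777216) (l 16777216)))) (c (b (l 16777216) (l 16777216)) (b (l 16777216) (l 16777216))))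 (a (b (c (a (l 16777216) (l 16777216)) (a (l 16777216) (l 16777216))) (c (a (l 16777216) (l 16777216)) (a (l 16777216) (l 16777216)))) (c (b (l 16777216) (l 16777216)) (b (l 16777216) (l 16777216)))))), by decide +kernel⟩

def k12_B00pm_112_s1 : ∃ t, chk3 f_B00pm_112_s1 t 4 11 1 = true :=
  ⟨(c (a (c (a (b (c (b (a (l 16777216) (l 16777216)) (l 16777216)) (b (a (l 16777216) (l 16777216)) (a (l 16777216) (l 16777216)))) (c (b (a (l 16777216) (l 16777216)) (a (l 16777216) (l 6))) (b (a (l 16777216) (l 16777216)) (a (l 16777216) (l 6))))) (b (c (b (l 16777216) (l 16777216)) (b (l 16777216) (a (l 16777216) (l 6)))) (l 6))) (a (b (c (b (a (l 16777216) (l 16777216)) (a (l 16777216) (l 16777216))) (b (a (l 16777216) (l 16777216)) (a (l 16777216) (l 16777216)))) (c (b (a (l 16777216) (l 16777216)) (a (l 16777216) (l 6))) (a (b (l 16777216) (l 16777216)) (b (l 16777216) (l 6))))) (b (c (a (l 16777216) (b (l 16777216) (l 6))) (a (l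 16777216) (l 16777216))) (l 6)))) (a (l 6) (l 6))) (a (c (a (b (c (b (a (l 16777216) (l 16777216)) (a (l 16777216) (l 16777216))) (b (a (l 16777216) (l 16777216)) (a (l 16777216) (l 16777216)))) (c (a (b (l 16777216) (l 16777216)) (l 16777216)) (b (l 16777216) (l 16777216)))) (b (c (a (l 16777216) (l 16777216)) (a (l 16777216) (l 16777216))) (l 6))) (a (b (c (b (a (l 16777216) (l 16777216)) (l 16777216)) (b (l 16777216) (l 16777216))) (c (a (l 16777216) (l 16777216)) (a (l 16777216) (l 16777216)))) (b (c (a (l 16777216) (l 16777216)) (a (l 16777216) (l 16777216))) (l 6)))) (a (l 6) (l 6)))), by decide +kernel⟩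

def k13_B00pm_112_s1 : ∃ t, chk3 f_B00pm_112_s1 t 5 4 2 = true :=
  ⟨(a (b (c (a (b (c (b (c (l 536870927) (l 536870927)) (c (l 536870927) (l 536870927))) (b (c (l 536870927) (l 536870927)) (c (l 536870927) (l 536870927)))) (a (c (b (l 536870927) (a (l 16777216) (l 16777216))) (b (l 536870927) (a (l 16777216) (l 16777216)))) (b (c (l 16777216) (l 16777216)) (a (b (c (l 16777216) (l 16777216)) (c (l 16777216) (l 16777216))) (b (c (l 16777216) (l 16777216)) (l 16777216)))))) (l 1)) (a (b (c (b (l 536870927) (c (l 536870927) (l 536870927))) (b (l 536870927) (l 536870927))) (a (c (b (l 536870927) (a (l 16777216) (l 16777216))) (c (l 16777216) (l 16777216))) (b (c (l 16777216) (l 16777216)) (c (b (a (l 16777216) (l 16777216)) (a (l 16777216) (l 16777216))) (b (a (l 16777216) (l 16777216)) (l 38151389191)))))) (l 1))) (a (b (c (a (b (c (b (a (l 16777216) (l 16777216)) (l 16777216)) (b (a (l 16777216) (l 16777216)) (l 16777216)))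 (c (l 16777216) (l 16777216))) (c (l 16777216) (l 16777216))) (a (b (c (b (a (l 16777216) (l 16777216)) (l 16777216)) (b (a (l 16777216) (l 16777216)) (l 16777216))) (c (l 16777216) (l 16777216))) (c (l 16777216) (l 16777216)))) (c (c (c (l 16777216) (l 16777216)) (c (l 16777216) (l 16777216))) (c (c (l 16777216) (l 16777216)) (c (l 16777216) (l 16777216))))) (l 1))) (l 1)), by decide +kernel⟩

def k14_B00pm_112_s1 : ∃ t, chk3 f_B00pm_112_s1 t 5 4 3 = true :=
  ⟨(a (b (a (b (c (c (b (l 536870927) (l 536870927)) (b (l 536870927) (l 536870927))) (c (b (l 536870927) (l 536870927)) (l 536870927))) (b (c (a (c (l 16777216) (l 16777216)) (c (l 16777216) (l 16777216))) (a (l 536870927) (c (l 16777216) (l 16777216)))) (c (a (c (l 16777216) (l 16777216)) (c (b (l 16777216) (l 16777216)) (b (l 16777216) (l 16777216)))) (a (c (l 16777216) (l 16777216)) (c (l 16777216) (l 16777216)))))) (l 1)) (a (c (b (a (b (c (b (a (l 16777216) (l 16777216))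 (l 16777216)) (b (l 16777216) (l 16777216))) (l 16777216)) (c (l 16777216) (l 16777216))) (c (l 16777216) (l 16777216))) (b (a (b (c (b (l 16777216) (l 16777216)) (l 16777216)) (l 16777216)) (c (l 16777216) (l 16777216))) (c (l 16777216) (l 16777216)))) (l 1))) (l 1)), by decide +kernel⟩

def k15_B00pm_112_s1 : ∃ t, chk3 f_B00pm_112_s1 t 5 5 1 = true :=
  ⟨(b (b (a (a (c (c (c (l 16777216) (l 16777216)) (c (l 16777216) (l 16777216))) (c (c (l 16777216) (l 16777216)) (c (l 16777216) (l 16777216)))) (l 1)) (l 1)) (l 6)) (l 6)), by decide +kernel⟩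

def k16_B00pm_112_s1 : ∃ t, chk3 f_B00pm_112_s1 t 2 3 1 = true :=
  ⟨(b (b (l 6) (l 6)) (l 6)), by decide +kernel⟩

def k17_B00pm_112_s1 : ∃ t, chk3 f_B00pm_112_s1 t 3 1 1 = true :=
  ⟨(l 1), by decide +kernel⟩

theorem t18_B00pm_112_s1 : ∃ t, chk3 f_B00pm_112_s1 t 5 4 1 = true := ex3_c k13_B00pm_112_s1 k14_B00pm_112_s1

theorem t19_B00pm_112_s1 : ∃ t, chk3 f_B00pm_112_s1 t 5 2 1 = true := ex3_b t18_B00pm_112_s1 k15_B00pm_112_s1

theorem t20_B00pm_112_s1 : ∃ t, chk3 f_B00pm_112_s1 t 8 10 3 = true := ex3_a k9_B00pm_112_s1 k10_B00pm_112_s1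

theorem t21_B00pm_112_s1 : ∃ t, chk3 f_B00pm_112_s1 t 8 10 2 = true := ex3_a k7_B00pm_112_s1 k8_B00pm_112_s1

theorem t22_B00pm_112_s1 : ∃ t, chk3 f_B00pm_112_s1 t 8 10 1 = true := ex3_c t21_B00pm_112_s1 t20_B00pm_112_s1

theorem t23_B00pm_112_s1 : ∃ t, chk3 f_B00pm_112_s1 t 4 10 1 = true := ex3_a t22_B00pm_112_s1 k11_B00pm_112_s1

theorem t24_B00pm_112_s1 : ∃ t, chk3 f_B00pm_112_s1 t 4 5 1 = true := ex3_b t23_B00pm_112_s1 k12_B00pm_112_s1

theorem t25_B00pm_112_s1 : ∃ t, chk3 f_B00pm_112_s1 t 9 9 1 = true := ex3_c k5_B00pm_112_s1 k6_B00pm_112_s1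

theorem t26_B00pm_112_s1 : ∃ t, chk3 f_B00pm_112_s1 t 9 8 2 = true := ex3_c k2_B00pm_112_s1 k3_B00pm_112_s1

theorem t27_B00pm_112_s1 : ∃ t, chk3 f_B00pm_112_s1 t 9 8 1 = true := ex3_c t26_B00pm_112_s1 k4_B00pm_112_s1

theorem t28_B00pm_112_s1 : ∃ t, chk3 f_B00pm_112_s1 t 9 4 1 = true := ex3_b t27_B00pm_112_s1 t25_B00pm_112_s1

theorem t29_B00pm_112_s1 : ∃ t, chk3 f_B00pm_112_s1 t 8 4 1 = true := ex3_b k0_B00pm_112_s1 k1_B00pm_112_s1

theorem t30_B00pm_112_s1 : ∃ t, chk3 f_B00pm_112_s1 t 4 4 1 = true := ex3_a t29_B00pm_112_s1 t28_B00pm_112_s1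

theorem t31_B00pm_112_s1 : ∃ t, chk3 f_B00pm_112_s1 t 4 2 1 = true := ex3_b t30_B00pm_112_s1 t24_B00pm_112_s1

theorem t32_B00pm_112_s1 : ∃ t, chk3 f_B00pm_112_s1 t 2 2 1 = true := ex3_a t31_B00pm_112_s1 t19_B00pm_112_s1

theorem t33_B00pm_112_s1 : ∃ t, chk3 f_B00pm_112_s1 t 2 1 1 = true := ex3_b t32_B00pm_112_s1 k16_B00pm_112_s1

theorem t34_B00pm_112_s1 : ∃ t, chk3 f_B00pm_112_s1 t 1 1 1 = true := ex3_a t33_B00pm_112_s1 k17_B00pm_112_s1

theorem c_B00pm_112_s1 : CertFX 536870912 536870912 0 536870912 1046898278 26843546 false true false .dn 1 1 2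
    ndF0q1 ndF0q2 pcF1 cut_B00pm_112_s1 xt_B00pm_112_s1 :=
  certFX2 (fam := false) (s1 := true) (s2 := false) (a := 1) (b := 1) (c := 2) (cn := .dn) (n1 := ndF0q1) (n2 := ndF0q2) (pc := pcF1) (cut := cut_B00pm_112_s1) (xt := xt_B00pm_112_s1) (P1 := 536870912) (W1 := 536870912) (P2 := 0) (W2 := 536870912) (P3 := 1046898278) (W3 := 26843546)
    rfl (fun _ => rfl) t34_B00pm_112_s1

theorem s_B00pm_112_s1 {κ x : ℝ} (hκ : κ * h0 = kenE x) (hx : 39 / 40 ≤ x) (hx' : x < 1) :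
    AltVB (VFD κ) (DD x) tKF tL pcF [⟨3, 0, 0, 1449551462⟩] 1 1 2 0 0 (sgb true) (sgb false) x :=
  strip_altVB (d := 1449551462) true rfl hκ (κ0 hκ hx) (x0 hx) hx' (covF01 hx hx') (covF02 hx hx') (x1 hx) (x2 hx') c_B00pm_112_s1 cutVB_nil ((ok hx hx').extB (T := tt) (sideF hx hx') hκ (κ0 hκ hx) rfl rfl (.O 1 true) (.O 2 false) (Or.inr rfl))

noncomputable def cut_B00pm_112_s3 : Cut := Cut.of [[⟨3, 0, 0, 2845415833⟩]]

noncomputable def f_B00pm_112_s3 : ℕ → ℕ → ℕ → ℕ → Bool := onCell 536870912 536870912 0 536870912 1046898278 26843546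
    (rowFX 0 false true false .dn 1 1 2 (qsf 536870912 536870912 0 536870912 1) ndF0q1 ndF0q2 pcF1 cut_B00pm_112_s3 Ext.none)

def k0_B00pm_112_s3 : ∃ t, chk3 f_B00pm_112_s3 t 1 1 1 = true :=
  ⟨(l 6), by decide +kernel⟩

theorem c_B00pm_112_s3 : CertFX 536870912 536870912 0 536870912 1046898278 26843546 false true false .dn 1 1 2
    ndF0q1 ndF0q2 pcF1 cut_B00pm_112_s3 Ext.none :=
  certFX0 (fam := false) (s1 := true) (s2 := false) (a := 1) (b := 1) (c := 2) (cn := .dn) (n1 := ndF0q1) (n2 := ndF0q2) (pc := pcF1) (cut := cut_B00pm_112_s3) (xt := Ext.none) (P1 := 536870912) (W1 := 536870912) (P2 := 0) (W2 := 536870912) (P3 := 1046898278) (W3 := 26843546)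
    rfl k0_B00pm_112_s3

theorem s_B00pm_112_s3 {κ x : ℝ} (hκ : κ * h0 = kenE x) (hx : 39 / 40 ≤ x) (hx' : x < 1) :
    AltVB (VFD κ) (DD x) tKF tL pcF [⟨4, 0, 0, 2845415833⟩] 1 1 2 0 0 (sgb true) (sgb false) x :=
  strip_altVB (d := 2845415833) false rfl hκ (κ0 hκ hx) (x0 hx) hx' (covF01 hx hx') (covF02 hx hx') (x1 hx) (x2 hx') c_B00pm_112_s3 cutVB_nil (noExt_VB)

noncomputable def cut_B00pm_202_s1 : Cut := Cut.of [[⟨4, 0, 0, 1449551462⟩], [⟨0, 1, 0, 67108864⟩, ⟨1, 0, 0, 67108864⟩, ⟨2, 1, 0, 67108864⟩, ⟨3, 0, 0, 1317011456⟩]]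

noncomputable def f_B00pm_202_s1 : ℕ → ℕ → ℕ → ℕ → Bool := onCell 0 536870912 0 536870912 1046898278 26843546
    (rowFX 0 false true false .pp 2 0 2 (qsf 0 536870912 0 536870912 0) ndF0q2 ndF0q2 pcF0 cut_B00pm_202_s1 Ext.none)

def k0_B00pm_202_s1 : ∃ t, chk3 f_B00pm_202_s1 t 1 1 1 = true :=
  ⟨(a (l 3) (b (l 3) (a (l 3) (b (l 3) (b (l 3) (a (l 3) (l 14))))))), by decide +kernel⟩

theorem c_B00pm_202_s1 : CertFX 0 536870912 0 536870912 1046898278 26843546 false true false .pp 2 0 2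
    ndF0q2 ndF0q2 pcF0 cut_B00pm_202_s1 Ext.none :=
  certFX0 (fam := false) (s1 := true) (s2 := false) (a := 2) (b := 0) (c := 2) (cn := .pp) (n1 := ndF0q2) (n2 := ndF0q2) (pc := pcF0) (cut := cut_B00pm_202_s1) (xt := Ext.none) (P1 := 0) (W1 := 536870912) (P2 := 0) (W2 := 536870912) (P3 := 1046898278) (W3 := 26843546)
    rfl k0_B00pm_202_s1

theorem s_B00pm_202_s1 {κ x : ℝ} (hκ : κ * h0 = kenE x) (hx : 39 / 40 ≤ x) (hx' : x < 1)
    (H : CutVB (VFD κ) (DD x) tKF tL pcF (Cut.of [[⟨0, 1, 0, 67108864⟩, ⟨1, 0, 0, 67108864⟩, ⟨2, 1, 0, 67108864⟩, ⟨3, 0, 0, 1317011456⟩]]) 2 0 2 0 0 (sgb true) (sgb false) x) :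
    AltVB (VFD κ) (DD x) tKF tL pcF [⟨3, 0, 0, 1449551462⟩] 2 0 2 0 0 (sgb true) (sgb false) x :=
  strip_altVB (d := 1449551462) true rfl hκ (κ0 hκ hx) (x0 hx) hx' (covF02 hx hx') (covF02 hx hx') (x1 hx) (x2 hx') c_B00pm_202_s1 H (noExt_VB)

noncomputable def cut_B00pm_202_s3 : Cut := Cut.of [[⟨3, 0, 0, 2845415833⟩], [⟨0, 1, 0, 67108864⟩, ⟨1, 0, 0, 67108864⟩, ⟨2, 1, 0, 67108864⟩, ⟨3, 0, 0, 1317011456⟩]]

noncomputable def f_B00pm_202_s3 : ℕ → ℕ → ℕ → ℕ → Bool := onCell 0 536870912 0 536870912 1046898278 26843546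
    (rowFX 0 false true false .pp 2 0 2 (qsf 0 536870912 0 536870912 0) ndF0q2 ndF0q2 pcF0 cut_B00pm_202_s3 Ext.none)

def k0_B00pm_202_s3 : ∃ t, chk3 f_B00pm_202_s3 t 1 1 1 = true :=
  ⟨(l 6), by decide +kernel⟩

theorem c_B00pm_202_s3 : CertFX 0 536870912 0 536870912 1046898278 26843546 false true false .pp 2 0 2
    ndF0q2 ndF0q2 pcF0 cut_B00pm_202_s3 Ext.none :=
  certFX0 (fam := false) (s1 := true) (s2 := false) (a := 2) (b := 0) (c := 2) (cn := .pp) (n1 := ndF0q2) (n2 := ndF0q2) (pc := pcF0) (cut := cut_B00pm_202_s3) (xt := Ext.none) (P1 := 0) (W1 := 536870912) (P2 := 0) (W2 := 536870912) (P3 := 1046898278) (W3 := 26843546)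
    rfl k0_B00pm_202_s3

theorem s_B00pm_202_s3 {κ x : ℝ} (hκ : κ * h0 = kenE x) (hx : 39 / 40 ≤ x) (hx' : x < 1)
    (H : CutVB (VFD κ) (DD x) tKF tL pcF (Cut.of [[⟨0, 1, 0, 67108864⟩, ⟨1, 0, 0, 67108864⟩, ⟨2, 1, 0, 67108864⟩, ⟨3, 0, 0, 1317011456⟩]]) 2 0 2 0 0 (sgb true) (sgb false) x) :
    AltVB (VFD κ) (DD x) tKF tL pcF [⟨4, 0, 0, 2845415833⟩] 2 0 2 0 0 (sgb true) (sgb false) x :=
  strip_altVB (d := 2845415833) false rfl hκ (κ0 hκ hx) (x0 hx) hx' (covF02 hx hx') (covF02 hx hx') (x1 hx) (x2 hx') c_B00pm_202_s3 H (noExt_VB)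

noncomputable def cut_B00mm_001_s1 : Cut := Cut.of [[⟨4, 0, 0, 1449551462⟩]]

noncomputable def f_B00mm_001_s1 : ℕ → ℕ → ℕ → ℕ → Bool := onCell 0 536870912 536870912 536870912 1046898278 26843546
    (rowFX 0 false false false .up 0 0 1 (qsf 0 536870912 536870912 536870912 0) ndF0q0 ndF0q1 pcF0 cut_B00mm_001_s1 Ext.none)

def k0_B00mm_001_s1 : ∃ t, chk3 f_B00mm_001_s1 t 1 1 1 = true :=
  ⟨(b (l 3) (l 5)), by decide +kernel⟩

theorem c_B00mm_001_s1 : CertFX 0 536870912 536870912 536870912 1046898278 26843546 false false false .up 0 0 1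
    ndF0q0 ndF0q1 pcF0 cut_B00mm_001_s1 Ext.none :=
  certFX0 (fam := false) (s1 := false) (s2 := false) (a := 0) (b := 0) (c := 1) (cn := .up) (n1 := ndF0q0) (n2 := ndF0q1) (pc := pcF0) (cut := cut_B00mm_001_s1) (xt := Ext.none) (P1 := 0) (W1 := 536870912) (P2 := 536870912) (W2 := 536870912) (P3 := 1046898278) (W3 := 26843546)
    rfl k0_B00mm_001_s1

theorem s_B00mm_001_s1 {κ x : ℝ} (hκ : κ * h0 = kenE x) (hx : 39 / 40 ≤ x) (hx' : x < 1) :
    AltVB (VFD κ) (DD x) tKF tL pcF [⟨3, 0, 0, 1449551462⟩] 0 0 1 0 0 (sgb false) (sgb false) x :=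
  strip_altVB (d := 1449551462) true rfl hκ (κ0 hκ hx) (x0 hx) hx' (covF00 hx hx') (covF01 hx hx') (x1 hx) (x2 hx') c_B00mm_001_s1 cutVB_nil (noExt_VB)

noncomputable def cut_B00mm_001_s3 : Cut := Cut.of [[⟨3, 0, 0, 2845415833⟩]]

noncomputable def f_B00mm_001_s3 : ℕ → ℕ → ℕ → ℕ → Bool := onCell 0 536870912 536870912 536870912 1046898278 26843546
    (rowFX 0 false false false .up 0 0 1 (qsf 0 536870912 536870912 536870912 0) ndF0q0 ndF0q1 pcF0 cut_B00mm_001_s3 Ext.none)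

def k0_B00mm_001_s3 : ∃ t, chk3 f_B00mm_001_s3 t 1 1 1 = true :=
  ⟨(l 6), by decide +kernel⟩

theorem c_B00mm_001_s3 : CertFX 0 536870912 536870912 536870912 1046898278 26843546 false false false .up 0 0 1
    ndF0q0 ndF0q1 pcF0 cut_B00mm_001_s3 Ext.none :=
  certFX0 (fam := false) (s1 := false) (s2 := false) (a := 0) (b := 0) (c := 1) (cn := .up) (n1 := ndF0q0) (n2 := ndF0q1) (pc := pcF0) (cut := cut_B00mm_001_s3) (xt := Ext.none) (P1 := 0) (W1 := 536870912) (P2 := 536870912) (W2 := 536870912) (P3 := 1046898278) (W3 := 26843546)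
    rfl k0_B00mm_001_s3

theorem s_B00mm_001_s3 {κ x : ℝ} (hκ : κ * h0 = kenE x) (hx : 39 / 40 ≤ x) (hx' : x < 1) :
    AltVB (VFD κ) (DD x) tKF tL pcF [⟨4, 0, 0, 2845415833⟩] 0 0 1 0 0 (sgb false) (sgb false) x :=
  strip_altVB (d := 2845415833) false rfl hκ (κ0 hκ hx) (x0 hx) hx' (covF00 hx hx') (covF01 hx hx') (x1 hx) (x2 hx') c_B00mm_001_s3 cutVB_nil (noExt_VB)

noncomputable def cut_B00mm_011_s1 : Cut := Cut.of [[⟨4, 0, 0, 1449551462⟩]]

noncomputable def f_B00mm_011_s1 : ℕ → ℕ → ℕ → ℕ → Bool := onCell 0 536870912 536870912 536870912 1046898278 26843546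
    (rowFX 0 false false false .pnn 0 1 1 (qsf 0 536870912 536870912 536870912 1) ndF0q0 ndF0q1 pcF1 cut_B00mm_011_s1 Ext.none)

def k0_B00mm_011_s1 : ∃ t, chk3 f_B00mm_011_s1 t 1 1 1 = true :=
  ⟨(b (l 3) (l 5)), by decide +kernel⟩

theorem c_B00mm_011_s1 : CertFX 0 536870912 536870912 536870912 1046898278 26843546 false false false .pnn 0 1 1
    ndF0q0 ndF0q1 pcF1 cut_B00mm_011_s1 Ext.none :=
  certFX0 (fam := false) (s1 := false) (s2 := false) (a := 0) (b := 1) (c := 1) (cn := .pnn) (n1 := ndF0q0) (n2 := ndF0q1) (pc := pcF1) (cut := cut_B00mm_011_s1) (xt := Ext.none) (P1 := 0) (W1 := 536870912) (P2 := 536870912) (W2 := 536870912) (P3 := 1046898278) (W3 := 26843546)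
    rfl k0_B00mm_011_s1

theorem s_B00mm_011_s1 {κ x : ℝ} (hκ : κ * h0 = kenE x) (hx : 39 / 40 ≤ x) (hx' : x < 1) :
    AltVB (VFD κ) (DD x) tKF tL pcF [⟨3, 0, 0, 1449551462⟩] 0 1 1 0 0 (sgb false) (sgb false) x :=
  strip_altVB (d := 1449551462) true rfl hκ (κ0 hκ hx) (x0 hx) hx' (covF00 hx hx') (covF01 hx hx') (x1 hx) (x2 hx') c_B00mm_011_s1 cutVB_nil (noExt_VB)

noncomputable def cut_B00mm_011_s3 : Cut := Cut.of [[⟨3, 0, 0, 2845415833⟩]]

noncomputable def f_B00mm_011_s3 : ℕ → ℕ → ℕ → ℕ → Bool := onCell 0 536870912 536870912 536870912 1046898278 26843546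
    (rowFX 0 false false false .pnn 0 1 1 (qsf 0 536870912 536870912 536870912 1) ndF0q0 ndF0q1 pcF1 cut_B00mm_011_s3 Ext.none)

def k0_B00mm_011_s3 : ∃ t, chk3 f_B00mm_011_s3 t 1 1 1 = true :=
  ⟨(l 6), by decide +kernel⟩

theorem c_B00mm_011_s3 : CertFX 0 536870912 536870912 536870912 1046898278 26843546 false false false .pnn 0 1 1
    ndF0q0 ndF0q1 pcF1 cut_B00mm_011_s3 Ext.none :=
  certFX0 (fam := false) (s1 := false) (s2 := false) (a := 0) (b := 1) (c := 1) (cn := .pnn) (n1 := ndF0q0) (n2 := ndF0q1) (pc := pcF1) (cut := cut_B00mm_011_s3) (xt := Ext.none) (P1 := 0) (W1 := 536870912) (P2 := 536870912) (W2 := 536870912) (P3 := 1046898278) (W3 := 26843546)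
    rfl k0_B00mm_011_s3

theorem s_B00mm_011_s3 {κ x : ℝ} (hκ : κ * h0 = kenE x) (hx : 39 / 40 ≤ x) (hx' : x < 1) :
    AltVB (VFD κ) (DD x) tKF tL pcF [⟨4, 0, 0, 2845415833⟩] 0 1 1 0 0 (sgb false) (sgb false) x :=
  strip_altVB (d := 2845415833) false rfl hκ (κ0 hκ hx) (x0 hx) hx' (covF00 hx hx') (covF01 hx hx') (x1 hx) (x2 hx') c_B00mm_011_s3 cutVB_nil (noExt_VB)

noncomputable def cut_B00mm_012_s1 : Cut := Cut.of [[⟨4, 0, 0, 1449551462⟩]]

noncomputable def f_B00mm_012_s1 : ℕ → ℕ → ℕ → ℕ → Bool := onCell 0 536870912 0 536870912 1046898278 26843546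
    (rowFX 0 false false false .pnp 0 1 2 (qsf 0 536870912 0 536870912 1) ndF0q0 ndF0q2 pcF1 cut_B00mm_012_s1 Ext.none)

def k0_B00mm_012_s1 : ∃ t, chk3 f_B00mm_012_s1 t 1 1 1 = true :=
  ⟨(l 5), by decide +kernel⟩

theorem c_B00mm_012_s1 : CertFX 0 536870912 0 536870912 1046898278 26843546 false false false .pnp 0 1 2
    ndF0q0 ndF0q2 pcF1 cut_B00mm_012_s1 Ext.none :=
  certFX0 (fam := false) (s1 := false) (s2 := false) (a := 0) (b := 1) (c := 2) (cn := .pnp) (n1 := ndF0q0) (n2 := ndF0q2) (pc := pcF1) (cut := cut_B00mm_012_s1) (xt := Ext.none) (P1 := 0) (W1 := 536870912) (P2 := 0) (W2 := 536870912) (P3 := 1046898278) (W3 := 26843546)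
    rfl k0_B00mm_012_s1

theorem s_B00mm_012_s1 {κ x : ℝ} (hκ : κ * h0 = kenE x) (hx : 39 / 40 ≤ x) (hx' : x < 1) :
    AltVB (VFD κ) (DD x) tKF tL pcF [⟨3, 0, 0, 1449551462⟩] 0 1 2 0 0 (sgb false) (sgb false) x :=
  strip_altVB (d := 1449551462) true rfl hκ (κ0 hκ hx) (x0 hx) hx' (covF00 hx hx') (covF02 hx hx') (x1 hx) (x2 hx') c_B00mm_012_s1 cutVB_nil (noExt_VB)

noncomputable def cut_B00mm_012_s3 : Cut := Cut.of [[⟨3, 0, 0, 2845415833⟩]]

noncomputable def f_B00mm_012_s3 : ℕ → ℕ → ℕ → ℕ → Bool := onCell 0 536870912 0 536870912 1046898278 26843546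
    (rowFX 0 false false false .pnp 0 1 2 (qsf 0 536870912 0 536870912 1) ndF0q0 ndF0q2 pcF1 cut_B00mm_012_s3 Ext.none)

def k0_B00mm_012_s3 : ∃ t, chk3 f_B00mm_012_s3 t 1 1 1 = true :=
  ⟨(l 5), by decide +kernel⟩

theorem c_B00mm_012_s3 : CertFX 0 536870912 0 536870912 1046898278 26843546 false false false .pnp 0 1 2
    ndF0q0 ndF0q2 pcF1 cut_B00mm_012_s3 Ext.none :=
  certFX0 (fam := false) (s1 := false) (s2 := false) (a := 0) (b := 1) (c := 2) (cn := .pnp) (n1 := ndF0q0) (n2 := ndF0q2) (pc := pcF1) (cut := cut_B00mm_012_s3) (xt := Ext.none) (P1 := 0) (W1 := 536870912) (P2 := 0) (W2 := 536870912) (P3 := 1046898278) (W3 := 26843546)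
    rfl k0_B00mm_012_s3

theorem s_B00mm_012_s3 {κ x : ℝ} (hκ : κ * h0 = kenE x) (hx : 39 / 40 ≤ x) (hx' : x < 1) :
    AltVB (VFD κ) (DD x) tKF tL pcF [⟨4, 0, 0, 2845415833⟩] 0 1 2 0 0 (sgb false) (sgb false) x :=
  strip_altVB (d := 2845415833) false rfl hκ (κ0 hκ hx) (x0 hx) hx' (covF00 hx hx') (covF02 hx hx') (x1 hx) (x2 hx') c_B00mm_012_s3 cutVB_nil (noExt_VB)

noncomputable def cut_B00mm_022_s1 : Cut := Cut.of [[⟨4, 0, 0, 1449551462⟩]]

noncomputable def f_B00mm_022_s1 : ℕ → ℕ → ℕ → ℕ → Bool := onCell 0 536870912 0 536870912 1046898278 26843546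
    (rowFX 0 false false false .pp 0 2 2 (qsf 0 536870912 0 536870912 2) ndF0q0 ndF0q2 pcF2 cut_B00mm_022_s1 Ext.none)

def k0_B00mm_022_s1 : ∃ t, chk3 f_B00mm_022_s1 t 1 1 1 = true :=
  ⟨(l 5), by decide +kernel⟩

theorem c_B00mm_022_s1 : CertFX 0 536870912 0 536870912 1046898278 26843546 false false false .pp 0 2 2
    ndF0q0 ndF0q2 pcF2 cut_B00mm_022_s1 Ext.none :=
  certFX0 (fam := false) (s1 := false) (s2 := false) (a := 0) (b := 2) (c := 2) (cn := .pp) (n1 := ndF0q0) (n2 := ndF0q2) (pc := pcF2) (cut := cut_B00mm_022_s1) (xt := Ext.none) (P1 := 0) (W1 := 536870912) (P2 := 0) (W2 := 536870912) (P3 := 1046898278) (W3 := 26843546)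
    rfl k0_B00mm_022_s1

theorem s_B00mm_022_s1 {κ x : ℝ} (hκ : κ * h0 = kenE x) (hx : 39 / 40 ≤ x) (hx' : x < 1) :
    AltVB (VFD κ) (DD x) tKF tL pcF [⟨3, 0, 0, 1449551462⟩] 0 2 2 0 0 (sgb false) (sgb false) x :=
  strip_altVB (d := 1449551462) true rfl hκ (κ0 hκ hx) (x0 hx) hx' (covF00 hx hx') (covF02 hx hx') (x1 hx) (x2 hx') c_B00mm_022_s1 cutVB_nil (noExt_VB)

noncomputable def cut_B00mm_022_s3 : Cut := Cut.of [[⟨3, 0, 0, 2845415833⟩]]

noncomputable def f_B00mm_022_s3 : ℕ → ℕ → ℕ → ℕ → Bool := onCell 0 536870912 0 536870912 1046898278 26843546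
    (rowFX 0 false false false .pp 0 2 2 (qsf 0 536870912 0 536870912 2) ndF0q0 ndF0q2 pcF2 cut_B00mm_022_s3 Ext.none)

def k0_B00mm_022_s3 : ∃ t, chk3 f_B00mm_022_s3 t 1 1 1 = true :=
  ⟨(l 5), by decide +kernel⟩

theorem c_B00mm_022_s3 : CertFX 0 536870912 0 536870912 1046898278 26843546 false false false .pp 0 2 2
    ndF0q0 ndF0q2 pcF2 cut_B00mm_022_s3 Ext.none :=
  certFX0 (fam := false) (s1 := false) (s2 := false) (a := 0) (b := 2) (c := 2) (cn := .pp) (n1 := ndF0q0) (n2 := ndF0q2) (pc := pcF2) (cut := cut_B00mm_022_s3) (xt := Ext.none) (P1 := 0) (W1 := 536870912) (P2 := 0) (W2 := 536870912) (P3 := 1046898278) (W3 := 26843546)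
    rfl k0_B00mm_022_s3

theorem s_B00mm_022_s3 {κ x : ℝ} (hκ : κ * h0 = kenE x) (hx : 39 / 40 ≤ x) (hx' : x < 1) :
    AltVB (VFD κ) (DD x) tKF tL pcF [⟨4, 0, 0, 2845415833⟩] 0 2 2 0 0 (sgb false) (sgb false) x :=
  strip_altVB (d := 2845415833) false rfl hκ (κ0 hκ hx) (x0 hx) hx' (covF00 hx hx') (covF02 hx hx') (x1 hx) (x2 hx') c_B00mm_022_s3 cutVB_nil (noExt_VB)

noncomputable def cut_B00mm_101_s1 : Cut := Cut.of [[⟨4, 0, 0, 1449551462⟩]]

noncomputable def f_B00mm_101_s1 : ℕ → ℕ → ℕ → ℕ → Bool := onCell 536870912 536870912 536870912 536870912 1046898278 26843546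
    (rowFX 0 false false false .npn 1 0 1 (qsf 536870912 536870912 536870912 536870912 0) ndF0q1 ndF0q1 pcF0 cut_B00mm_101_s1 Ext.none)

def k0_B00mm_101_s1 : ∃ t, chk3 f_B00mm_101_s1 t 1 1 1 = true :=
  ⟨(l 3), by decide +kernel⟩

theorem c_B00mm_101_s1 : CertFX 536870912 536870912 536870912 536870912 1046898278 26843546 false false false .npn 1 0 1
    ndF0q1 ndF0q1 pcF0 cut_B00mm_101_s1 Ext.none :=
  certFX0 (fam := false) (s1 := false) (s2 := false) (a := 1) (b := 0) (c := 1) (cn := .npn) (n1 := ndF0q1) (n2 := ndF0q1) (pc := pcF0) (cut := cut_B00mm_101_s1) (xt := Ext.none) (P1 := 536870912) (W1 := 536870912) (P2 := 536870912) (W2 := 536870912) (P3 := 1046898278) (W3 := 26843546)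
    rfl k0_B00mm_101_s1

theorem s_B00mm_101_s1 {κ x : ℝ} (hκ : κ * h0 = kenE x) (hx : 39 / 40 ≤ x) (hx' : x < 1) :
    AltVB (VFD κ) (DD x) tKF tL pcF [⟨3, 0, 0, 1449551462⟩] 1 0 1 0 0 (sgb false) (sgb false) x :=
  strip_altVB (d := 1449551462) true rfl hκ (κ0 hκ hx) (x0 hx) hx' (covF01 hx hx') (covF01 hx hx') (x1 hx) (x2 hx') c_B00mm_101_s1 cutVB_nil (noExt_VB)

noncomputable def cut_B00mm_101_s3 : Cut := Cut.of [[⟨3, 0, 0, 2845415833⟩]]

noncomputable def f_B00mm_101_s3 : ℕ → ℕ → ℕ → ℕ → Bool := onCell 536870912 536870912 536870912 536870912 1046898278 26843546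
    (rowFX 0 false false false .npn 1 0 1 (qsf 536870912 536870912 536870912 536870912 0) ndF0q1 ndF0q1 pcF0 cut_B00mm_101_s3 Ext.none)

def k0_B00mm_101_s3 : ∃ t, chk3 f_B00mm_101_s3 t 1 1 1 = true :=
  ⟨(l 3), by decide +kernel⟩

theorem c_B00mm_101_s3 : CertFX 536870912 536870912 536870912 536870912 1046898278 26843546 false false false .npn 1 0 1
    ndF0q1 ndF0q1 pcF0 cut_B00mm_101_s3 Ext.none :=
  certFX0 (fam := false) (s1 := false) (s2 := false) (a := 1) (b := 0) (c := 1) (cn := .npn) (n1 := ndF0q1) (n2 := ndF0q1) (pc := pcF0) (cut := cut_B00mm_101_s3) (xt := Ext.none) (P1 := 536870912) (W1 := 536870912) (P2 := 536870912) (W2 := 536870912) (P3 := 1046898278) (W3 := 26843546)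
    rfl k0_B00mm_101_s3

theorem s_B00mm_101_s3 {κ x : ℝ} (hκ : κ * h0 = kenE x) (hx : 39 / 40 ≤ x) (hx' : x < 1) :
    AltVB (VFD κ) (DD x) tKF tL pcF [⟨4, 0, 0, 2845415833⟩] 1 0 1 0 0 (sgb false) (sgb false) x :=
  strip_altVB (d := 2845415833) false rfl hκ (κ0 hκ hx) (x0 hx) hx' (covF01 hx hx') (covF01 hx hx') (x1 hx) (x2 hx') c_B00mm_101_s3 cutVB_nil (noExt_VB)

noncomputable def cut_B00mm_102_s1 : Cut := Cut.of [[⟨4, 0, 0, 1449551462⟩]]

noncomputable def f_B00mm_102_s1 : ℕ → ℕ → ℕ → ℕ → Bool := onCell 536870912 536870912 0 536870912 1046898278 26843546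
    (rowFX 0 false false false .npp 1 0 2 (qsf 536870912 536870912 0 536870912 0) ndF0q1 ndF0q2 pcF0 cut_B00mm_102_s1 Ext.none)

def k0_B00mm_102_s1 : ∃ t, chk3 f_B00mm_102_s1 t 1 1 1 = true :=
  ⟨(a (l 5) (l 3)), by decide +kernel⟩

theorem c_B00mm_102_s1 : CertFX 536870912 536870912 0 536870912 1046898278 26843546 false false false .npp 1 0 2
    ndF0q1 ndF0q2 pcF0 cut_B00mm_102_s1 Ext.none :=
  certFX0 (fam := false) (s1 := false) (s2 := false) (a := 1) (b := 0) (c := 2) (cn := .npp) (n1 := ndF0q1) (n2 := ndF0q2) (pc := pcF0) (cut := cut_B00mm_102_s1) (xt := Ext.none) (P1 := 536870912) (W1 := 536870912) (P2 := 0) (W2 := 536870912) (P3 := 1046898278) (W3 := 26843546)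
    rfl k0_B00mm_102_s1

theorem s_B00mm_102_s1 {κ x : ℝ} (hκ : κ * h0 = kenE x) (hx : 39 / 40 ≤ x) (hx' : x < 1) :
    AltVB (VFD κ) (DD x) tKF tL pcF [⟨3, 0, 0, 1449551462⟩] 1 0 2 0 0 (sgb false) (sgb false) x :=
  strip_altVB (d := 1449551462) true rfl hκ (κ0 hκ hx) (x0 hx) hx' (covF01 hx hx') (covF02 hx hx') (x1 hx) (x2 hx') c_B00mm_102_s1 cutVB_nil (noExt_VB)

noncomputable def cut_B00mm_102_s3 : Cut := Cut.of [[⟨3, 0, 0, 2845415833⟩]]

noncomputable def f_B00mm_102_s3 : ℕ → ℕ → ℕ → ℕ → Bool := onCell 536870912 536870912 0 536870912 1046898278 26843546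
    (rowFX 0 false false false .npp 1 0 2 (qsf 536870912 536870912 0 536870912 0) ndF0q1 ndF0q2 pcF0 cut_B00mm_102_s3 Ext.none)

def k0_B00mm_102_s3 : ∃ t, chk3 f_B00mm_102_s3 t 1 1 1 = true :=
  ⟨(l 6), by decide +kernel⟩

theorem c_B00mm_102_s3 : CertFX 536870912 536870912 0 536870912 1046898278 26843546 false false false .npp 1 0 2
    ndF0q1 ndF0q2 pcF0 cut_B00mm_102_s3 Ext.none :=
  certFX0 (fam := false) (s1 := false) (s2 := false) (a := 1) (b := 0) (c := 2) (cn := .npp) (n1 := ndF0q1) (n2 := ndF0q2) (pc := pcF0) (cut := cut_B00mm_102_s3) (xt := Ext.none) (P1 := 536870912) (W1 := 536870912) (P2 := 0) (W2 := 536870912) (P3 := 1046898278) (W3 := 26843546)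
    rfl k0_B00mm_102_s3

theorem s_B00mm_102_s3 {κ x : ℝ} (hκ : κ * h0 = kenE x) (hx : 39 / 40 ≤ x) (hx' : x < 1) :
    AltVB (VFD κ) (DD x) tKF tL pcF [⟨4, 0, 0, 2845415833⟩] 1 0 2 0 0 (sgb false) (sgb false) x :=
  strip_altVB (d := 2845415833) false rfl hκ (κ0 hκ hx) (x0 hx) hx' (covF01 hx hx') (covF02 hx hx') (x1 hx) (x2 hx') c_B00mm_102_s3 cutVB_nil (noExt_VB)

noncomputable def cut_B00mm_112_s1 : Cut := Cut.of [[⟨4, 0, 0, 1449551462⟩]]

noncomputable def f_B00mm_112_s1 : ℕ → ℕ → ℕ → ℕ → Bool := onCell 536870912 536870912 0 536870912 1046898278 26843546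
    (rowFX 0 false false false .dn 1 1 2 (qsf 536870912 536870912 0 536870912 1) ndF0q1 ndF0q2 pcF1 cut_B00mm_112_s1 Ext.none)

def k0_B00mm_112_s1 : ∃ t, chk3 f_B00mm_112_s1 t 1 1 1 = true :=
  ⟨(a (l 5) (l 1)), by decide +kernel⟩

theorem c_B00mm_112_s1 : CertFX 536870912 536870912 0 536870912 1046898278 26843546 false false false .dn 1 1 2
    ndF0q1 ndF0q2 pcF1 cut_B00mm_112_s1 Ext.none :=
  certFX0 (fam := false) (s1 := false) (s2 := false) (a := 1) (b := 1) (c := 2) (cn := .dn) (n1 := ndF0q1) (n2 := ndF0q2) (pc := pcF1) (cut := cut_B00mm_112_s1) (xt := Ext.none) (P1 := 536870912) (W1 := 536870912) (P2 := 0) (W2 := 536870912) (P3 := 1046898278) (W3 := 26843546)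
    rfl k0_B00mm_112_s1

theorem s_B00mm_112_s1 {κ x : ℝ} (hκ : κ * h0 = kenE x) (hx : 39 / 40 ≤ x) (hx' : x < 1) :
    AltVB (VFD κ) (DD x) tKF tL pcF [⟨3, 0, 0, 1449551462⟩] 1 1 2 0 0 (sgb false) (sgb false) x :=
  strip_altVB (d := 1449551462) true rfl hκ (κ0 hκ hx) (x0 hx) hx' (covF01 hx hx') (covF02 hx hx') (x1 hx) (x2 hx') c_B00mm_112_s1 cutVB_nil (noExt_VB)

noncomputable def cut_B00mm_112_s3 : Cut := Cut.of [[⟨3, 0, 0, 2845415833⟩]]

noncomputable def f_B00mm_112_s3 : ℕ → ℕ → ℕ → ℕ → Bool := onCell 536870912 536870912 0 536870912 1046898278 26843546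
    (rowFX 0 false false false .dn 1 1 2 (qsf 536870912 536870912 0 536870912 1) ndF0q1 ndF0q2 pcF1 cut_B00mm_112_s3 Ext.none)

def k0_B00mm_112_s3 : ∃ t, chk3 f_B00mm_112_s3 t 1 1 1 = true :=
  ⟨(l 6), by decide +kernel⟩

theorem c_B00mm_112_s3 : CertFX 536870912 536870912 0 536870912 1046898278 26843546 false false false .dn 1 1 2
    ndF0q1 ndF0q2 pcF1 cut_B00mm_112_s3 Ext.none :=
  certFX0 (fam := false) (s1 := false) (s2 := false) (a := 1) (b := 1) (c := 2) (cn := .dn) (n1 := ndF0q1) (n2 := ndF0q2) (pc := pcF1) (cut := cut_B00mm_112_s3) (xt := Ext.none) (P1 := 536870912) (W1 := 536870912) (P2 := 0) (W2 := 536870912) (P3 := 1046898278) (W3 := 26843546)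
    rfl k0_B00mm_112_s3

theorem s_B00mm_112_s3 {κ x : ℝ} (hκ : κ * h0 = kenE x) (hx : 39 / 40 ≤ x) (hx' : x < 1) :
    AltVB (VFD κ) (DD x) tKF tL pcF [⟨4, 0, 0, 2845415833⟩] 1 1 2 0 0 (sgb false) (sgb false) x :=
  strip_altVB (d := 2845415833) false rfl hκ (κ0 hκ hx) (x0 hx) hx' (covF01 hx hx') (covF02 hx hx') (x1 hx) (x2 hx') c_B00mm_112_s3 cutVB_nil (noExt_VB)

noncomputable def cut_B00mm_202_s1 : Cut := Cut.of [[⟨4, 0, 0, 1449551462⟩]]

noncomputable def f_B00mm_202_s1 : ℕ → ℕ → ℕ → ℕ → Bool := onCell 0 536870912 0 536870912 1046898278 26843546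
    (rowFX 0 false false false .pp 2 0 2 (qsf 0 536870912 0 536870912 0) ndF0q2 ndF0q2 pcF0 cut_B00mm_202_s1 Ext.none)

def k0_B00mm_202_s1 : ∃ t, chk3 f_B00mm_202_s1 t 1 1 1 = true :=
  ⟨(l 3), by decide +kernel⟩

theorem c_B00mm_202_s1 : CertFX 0 536870912 0 536870912 1046898278 26843546 false false false .pp 2 0 2
    ndF0q2 ndF0q2 pcF0 cut_B00mm_202_s1 Ext.none :=
  certFX0 (fam := false) (s1 := false) (s2 := false) (a := 2) (b := 0) (c := 2) (cn := .pp) (n1 := ndF0q2) (n2 := ndF0q2) (pc := pcF0) (cut := cut_B00mm_202_s1) (xt := Ext.none) (P1 := 0) (W1 := 536870912) (P2 := 0) (W2 := 536870912) (P3 := 1046898278) (W3 := 26843546)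
    rfl k0_B00mm_202_s1

theorem s_B00mm_202_s1 {κ x : ℝ} (hκ : κ * h0 = kenE x) (hx : 39 / 40 ≤ x) (hx' : x < 1) :
    AltVB (VFD κ) (DD x) tKF tL pcF [⟨3, 0, 0, 1449551462⟩] 2 0 2 0 0 (sgb false) (sgb false) x :=
  strip_altVB (d := 1449551462) true rfl hκ (κ0 hκ hx) (x0 hx) hx' (covF02 hx hx') (covF02 hx hx') (x1 hx) (x2 hx') c_B00mm_202_s1 cutVB_nil (noExt_VB)

noncomputable def cut_B00mm_202_s3 : Cut := Cut.of [[⟨3, 0, 0, 2845415833⟩]]

noncomputable def f_B00mm_202_s3 : ℕ → ℕ → ℕ → ℕ → Bool := onCell 0 536870912 0 536870912 1046898278 26843546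
    (rowFX 0 false false false .pp 2 0 2 (qsf 0 536870912 0 536870912 0) ndF0q2 ndF0q2 pcF0 cut_B00mm_202_s3 Ext.none)

def k0_B00mm_202_s3 : ∃ t, chk3 f_B00mm_202_s3 t 1 1 1 = true :=
  ⟨(l 3), by decide +kernel⟩

theorem c_B00mm_202_s3 : CertFX 0 536870912 0 536870912 1046898278 26843546 false false false .pp 2 0 2
    ndF0q2 ndF0q2 pcF0 cut_B00mm_202_s3 Ext.none :=
  certFX0 (fam := false) (s1 := false) (s2 := false) (a := 2) (b := 0) (c := 2) (cn := .pp) (n1 := ndF0q2) (n2 := ndF0q2) (pc := pcF0) (cut := cut_B00mm_202_s3) (xt := Ext.none) (P1 := 0) (W1 := 536870912) (P2 := 0) (W2 := 536870912) (P3 := 1046898278) (W3 := 26843546)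
    rfl k0_B00mm_202_s3

theorem s_B00mm_202_s3 {κ x : ℝ} (hκ : κ * h0 = kenE x) (hx : 39 / 40 ≤ x) (hx' : x < 1) :
    AltVB (VFD κ) (DD x) tKF tL pcF [⟨4, 0, 0, 2845415833⟩] 2 0 2 0 0 (sgb false) (sgb false) x :=
  strip_altVB (d := 2845415833) false rfl hκ (κ0 hκ hx) (x0 hx) hx' (covF02 hx hx') (covF02 hx hx') (x1 hx) (x2 hx') c_B00mm_202_s3 cutVB_nil (noExt_VB)

noncomputable def cut_B07pp_001_s1 : Cut := Cut.of [[⟨4, 0, 0, 1449551462⟩]]

noncomputable def f_B07pp_001_s1 : ℕ → ℕ → ℕ → ℕ → Bool := onCell 0 536870912 536870912 536870912 1046898278 26843546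
    (rowFX 0 false true true .up 0 0 1 (qsf 0 536870912 536870912 536870912 0) ndF0q0 ndF7q1 pcF0 cut_B07pp_001_s1 Ext.none)

def k0_B07pp_001_s1 : ∃ t, chk3 f_B07pp_001_s1 t 1 1 1 = true :=
  ⟨(b (l 3) (a (a (l 2) (l 3)) (l 3))), by decide +kernel⟩

theorem c_B07pp_001_s1 : CertFX 0 536870912 536870912 536870912 1046898278 26843546 false true true .up 0 0 1
    ndF0q0 ndF7q1 pcF0 cut_B07pp_001_s1 Ext.none :=
  certFX0 (fam := false) (s1 := true) (s2 := true) (a := 0) (b := 0) (c := 1) (cn := .up) (n1 := ndF0q0) (n2 := ndF7q1) (pc := pcF0) (cut := cut_B07pp_001_s1) (xt := Ext.none) (P1 := 0) (W1 := 536870912) (P2 := 536870912) (W2 := 536870912) (P3 := 1046898278) (W3 := 26843546)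
    rfl k0_B07pp_001_s1

theorem s_B07pp_001_s1 {κ x : ℝ} (hκ : κ * h0 = kenE x) (hx : 39 / 40 ≤ x) (hx' : x < 1) :
    AltVB (VFD κ) (DD x) tKF tL pcF [⟨3, 0, 0, 1449551462⟩] 0 0 1 0 7 (sgb true) (sgb true) x :=
  strip_altVB (d := 1449551462) true rfl hκ (κ0 hκ hx) (x0 hx) hx' (covF00 hx hx') (covF71 hx hx') (x1 hx) (x2 hx') c_B07pp_001_s1 cutVB_nil (noExt_VB)

noncomputable def cut_B07pp_011_s1 : Cut := Cut.of [[⟨4, 0, 0, 1449551462⟩], [⟨0, 0, 0, 67108864⟩, ⟨1, 1, 0, 67108864⟩, ⟨2, 1, 0, 67108864⟩]]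

noncomputable def f_B07pp_011_s1 : ℕ → ℕ → ℕ → ℕ → Bool := onCell 0 536870912 536870912 536870912 1046898278 26843546
    (rowFX 0 false true true .pnn 0 1 1 (qsf 0 536870912 536870912 536870912 1) ndF0q0 ndF7q1 pcF1 cut_B07pp_011_s1 Ext.none)

def k0_B07pp_011_s1 : ∃ t, chk3 f_B07pp_011_s1 t 1 1 1 = true :=
  ⟨(b (l 3) (a (a (b (l 3) (a (b (l 3) (a (a (b (l 3) (l 14)) (l 3)) (l 3))) (l 3))) (l 3)) (l 3))), by decide +kernel⟩

theorem c_B07pp_011_s1 : CertFX 0 536870912 536870912 536870912 1046898278 26843546 false true true .pnn 0 1 1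
    ndF0q0 ndF7q1 pcF1 cut_B07pp_011_s1 Ext.none :=
  certFX0 (fam := false) (s1 := true) (s2 := true) (a := 0) (b := 1) (c := 1) (cn := .pnn) (n1 := ndF0q0) (n2 := ndF7q1) (pc := pcF1) (cut := cut_B07pp_011_s1) (xt := Ext.none) (P1 := 0) (W1 := 536870912) (P2 := 536870912) (W2 := 536870912) (P3 := 1046898278) (W3 := 26843546)
    rfl k0_B07pp_011_s1

theorem s_B07pp_011_s1 {κ x : ℝ} (hκ : κ * h0 = kenE x) (hx : 39 / 40 ≤ x) (hx' : x < 1)
    (H : CutVB (VFD κ) (DD x) tKF tL pcF (Cut.of [[⟨0, 0, 0, 67108864⟩, ⟨1, 1, 0, 67108864⟩, ⟨2, 1, 0, 67108864⟩]]) 0 1 1 0 7 (sgb true) (sgb true) x) :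
    AltVB (VFD κ) (DD x) tKF tL pcF [⟨3, 0, 0, 1449551462⟩] 0 1 1 0 7 (sgb true) (sgb true) x :=
  strip_altVB (d := 1449551462) true rfl hκ (κ0 hκ hx) (x0 hx) hx' (covF00 hx hx') (covF71 hx hx') (x1 hx) (x2 hx') c_B07pp_011_s1 H (noExt_VB)

noncomputable def cut_B07pp_012_s1 : Cut := Cut.of [[⟨4, 0, 0, 1449551462⟩], [⟨0, 0, 0, 67108864⟩, ⟨1, 1, 0, 67108864⟩, ⟨2, 1, 0, 67108864⟩]]

noncomputable def f_B07pp_012_s1 : ℕ → ℕ → ℕ → ℕ → Bool := onCell 0 536870912 536870912 536870912 1046898278 26843546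
    (rowFX 1 false true true .pnp 0 1 2 (qsf 0 536870912 1073741824 536870912 1) ndF0q0 ndF7q2 pcF1 cut_B07pp_012_s1 Ext.none)

def k0_B07pp_012_s1 : ∃ t, chk3 f_B07pp_012_s1 t 1 1 1 = true :=
  ⟨(b (l 3) (a (b (l 3) (b (l 3) (a (a (a (b (l 3) (l 14)) (l 3)) (l 3)) (l 3)))) (l 3))), by decide +kernel⟩

theorem c_B07pp_012_s1 : CertFX 0 536870912 1073741824 536870912 1046898278 26843546 false true true .pnp 0 1 2
    ndF0q0 ndF7q2 pcF1 cut_B07pp_012_s1 Ext.none :=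
  certFX1 (fam := false) (s1 := true) (s2 := true) (a := 0) (b := 1) (c := 2) (cn := .pnp) (n1 := ndF0q0) (n2 := ndF7q2) (pc := pcF1) (cut := cut_B07pp_012_s1) (xt := Ext.none) (P1 := 0) (W1 := 536870912) (P2 := 1073741824) (W2 := 536870912) (P3 := 1046898278) (W3 := 26843546)
    rfl (fun _ => rfl) k0_B07pp_012_s1

theorem s_B07pp_012_s1 {κ x : ℝ} (hκ : κ * h0 = kenE x) (hx : 39 / 40 ≤ x) (hx' : x < 1)
    (H : CutVB (VFD κ) (DD x) tKF tL pcF (Cut.of [[⟨0, 0, 0, 67108864⟩, ⟨1, 1, 0, 67108864⟩, ⟨2, 1, 0, 67108864⟩]]) 0 1 2 0 7 (sgb true) (sgb true) x) :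
    AltVB (VFD κ) (DD x) tKF tL pcF [⟨3, 0, 0, 1449551462⟩] 0 1 2 0 7 (sgb true) (sgb true) x :=
  strip_altVB (d := 1449551462) true rfl hκ (κ0 hκ hx) (x0 hx) hx' (covF00 hx hx') (covF72 hx hx') (x1 hx) (x2 hx') c_B07pp_012_s1 H (noExt_VB)

noncomputable def cut_B07pp_033_s1 : Cut := Cut.of [[⟨4, 0, 0, 1449551462⟩]]

noncomputable def f_B07pp_033_s1 : ℕ → ℕ → ℕ → ℕ → Bool := onCell 0 536870912 0 1230186008 1046898278 26843546
    (rowFX 0 false true true .pnn 0 3 3 (qsf 0 536870912 0 1230186008 3) ndF0q0 ndF7q3 pcF3 cut_B07pp_033_s1 Ext.none)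

def k0_B07pp_033_s1 : ∃ t, chk3 f_B07pp_033_s1 t 1 1 1 = true :=
  ⟨(b (a (l 6) (l 6)) (b (a (l 6) (b (a (l 6) (a (l 6) (l 1))) (a (l 6) (l 1)))) (a (a (l 6) (b (l 6) (b (a (l 6) (l 1)) (l 1)))) (l 1)))), by decide +kernel⟩

theorem c_B07pp_033_s1 : CertFX 0 536870912 0 1230186008 1046898278 26843546 false true true .pnn 0 3 3
    ndF0q0 ndF7q3 pcF3 cut_B07pp_033_s1 Ext.none :=
  certFX0 (fam := false) (s1 := true) (s2 := true) (a := 0) (b := 3) (c := 3) (cn := .pnn) (n1 := ndF0q0) (n2 := ndF7q3) (pc := pcF3) (cut := cut_B07pp_033_s1) (xt := Ext.none) (P1 := 0) (W1 := 536870912) (P2 := 0) (W2 := 1230186008) (P3 := 1046898278) (W3 := 26843546)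
    rfl k0_B07pp_033_s1

theorem s_B07pp_033_s1 {κ x : ℝ} (hκ : κ * h0 = kenE x) (hx : 39 / 40 ≤ x) (hx' : x < 1) :
    AltVB (VFD κ) (DD x) tKF tL pcF [⟨3, 0, 0, 1449551462⟩] 0 3 3 0 7 (sgb true) (sgb true) x :=
  strip_altVB (d := 1449551462) true rfl hκ (κ0 hκ hx) (x0 hx) hx' (covF00 hx hx') (covF73 hx hx') (x1 hx) (x2 hx') c_B07pp_033_s1 cutVB_nil (noExt_VB)

noncomputable def cut_B07pp_101_s1 : Cut := Cut.of [[⟨4, 0, 0, 1449551462⟩]]

noncomputable def f_B07pp_101_s1 : ℕ → ℕ → ℕ → ℕ → Bool := onCell 536870912 536870912 536870912 536870912 1046898278 26843546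
    (rowFX 0 false true true .npn 1 0 1 (qsf 536870912 536870912 536870912 536870912 0) ndF0q1 ndF7q1 pcF0 cut_B07pp_101_s1 Ext.none)

def k0_B07pp_101_s1 : ∃ t, chk3 f_B07pp_101_s1 t 1 1 1 = true :=
  ⟨(a (l 3) (l 5)), by decide +kernel⟩

theorem c_B07pp_101_s1 : CertFX 536870912 536870912 536870912 536870912 1046898278 26843546 false true true .npn 1 0 1
    ndF0q1 ndF7q1 pcF0 cut_B07pp_101_s1 Ext.none :=
  certFX0 (fam := false) (s1 := true) (s2 := true) (a := 1) (b := 0) (c := 1) (cn := .npn) (n1 := ndF0q1) (n2 := ndF7q1) (pc := pcF0) (cut := cut_B07pp_101_s1) (xt := Ext.none) (P1 := 536870912) (W1 := 536870912) (P2 := 536870912) (W2 := 536870912) (P3 := 1046898278) (W3 := 26843546)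
    rfl k0_B07pp_101_s1

theorem s_B07pp_101_s1 {κ x : ℝ} (hκ : κ * h0 = kenE x) (hx : 39 / 40 ≤ x) (hx' : x < 1) :
    AltVB (VFD κ) (DD x) tKF tL pcF [⟨3, 0, 0, 1449551462⟩] 1 0 1 0 7 (sgb true) (sgb true) x :=
  strip_altVB (d := 1449551462) true rfl hκ (κ0 hκ hx) (x0 hx) hx' (covF01 hx hx') (covF71 hx hx') (x1 hx) (x2 hx') c_B07pp_101_s1 cutVB_nil (noExt_VB)

noncomputable def cut_B07pp_102_s1 : Cut := Cut.of [[⟨4, 0, 0, 1449551462⟩]]

noncomputable def f_B07pp_102_s1 : ℕ → ℕ → ℕ → ℕ → Bool := onCell 536870912 536870912 1073741824 536870912 1046898278 26843546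
    (rowFX 0 false true true .npp 1 0 2 (qsf 536870912 536870912 1073741824 536870912 0) ndF0q1 ndF7q2 pcF0 cut_B07pp_102_s1 Ext.none)

def k0_B07pp_102_s1 : ∃ t, chk3 f_B07pp_102_s1 t 1 1 1 = true :=
  ⟨(a (l 3) (b (l 5) (l 3))), by decide +kernel⟩

theorem c_B07pp_102_s1 : CertFX 536870912 536870912 1073741824 536870912 1046898278 26843546 false true true .npp 1 0 2
    ndF0q1 ndF7q2 pcF0 cut_B07pp_102_s1 Ext.none :=
  certFX0 (fam := false) (s1 := true) (s2 := true) (a := 1) (b := 0) (c := 2) (cn := .npp) (n1 := ndF0q1) (n2 := ndF7q2) (pc := pcF0) (cut := cut_B07pp_102_s1) (xt := Ext.none) (P1 := 536870912) (W1 := 536870912) (P2 := 1073741824) (W2 := 536870912) (P3 := 1046898278) (W3 := 26843546)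
    rfl k0_B07pp_102_s1

theorem s_B07pp_102_s1 {κ x : ℝ} (hκ : κ * h0 = kenE x) (hx : 39 / 40 ≤ x) (hx' : x < 1) :
    AltVB (VFD κ) (DD x) tKF tL pcF [⟨3, 0, 0, 1449551462⟩] 1 0 2 0 7 (sgb true) (sgb true) x :=
  strip_altVB (d := 1449551462) true rfl hκ (κ0 hκ hx) (x0 hx) hx' (covF01 hx hx') (covF72 hx hx') (x1 hx) (x2 hx') c_B07pp_102_s1 cutVB_nil (noExt_VB)

noncomputable def cut_B07pp_112_s1 : Cut := Cut.of [[⟨4, 0, 0, 1449551462⟩]]

noncomputable def f_B07pp_112_s1 : ℕ → ℕ → ℕ → ℕ → Bool := onCell 536870912 536870912 1073741824 536870912 1046898278 26843546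
    (rowFX 0 false true true .dn 1 1 2 (qsf 536870912 536870912 1073741824 536870912 1) ndF0q1 ndF7q2 pcF1 cut_B07pp_112_s1 Ext.none)

def k0_B07pp_112_s1 : ∃ t, chk3 f_B07pp_112_s1 t 1 1 1 = true :=
  ⟨(a (l 3) (b (l 5) (l 3))), by decide +kernel⟩

theorem c_B07pp_112_s1 : CertFX 536870912 536870912 1073741824 536870912 1046898278 26843546 false true true .dn 1 1 2
    ndF0q1 ndF7q2 pcF1 cut_B07pp_112_s1 Ext.none :=
  certFX0 (fam := false) (s1 := true) (s2 := true) (a := 1) (b := 1) (c := 2) (cn := .dn) (n1 := ndF0q1) (n2 := ndF7q2) (pc := pcF1) (cut := cut_B07pp_112_s1) (xt := Ext.none) (P1 := 536870912) (W1 := 536870912) (P2 := 1073741824) (W2 := 536870912) (P3 := 1046898278) (W3 := 26843546)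
    rfl k0_B07pp_112_s1

theorem s_B07pp_112_s1 {κ x : ℝ} (hκ : κ * h0 = kenE x) (hx : 39 / 40 ≤ x) (hx' : x < 1) :
    AltVB (VFD κ) (DD x) tKF tL pcF [⟨3, 0, 0, 1449551462⟩] 1 1 2 0 7 (sgb true) (sgb true) x :=
  strip_altVB (d := 1449551462) true rfl hκ (κ0 hκ hx) (x0 hx) hx' (covF01 hx hx') (covF72 hx hx') (x1 hx) (x2 hx') c_B07pp_112_s1 cutVB_nil (noExt_VB)

noncomputable def cut_B07pp_113_s1 : Cut := Cut.of [[⟨4, 0, 0, 1449551462⟩], [⟨0, 1, 0, 67108864⟩, ⟨1, 1, 0, 67108864⟩, ⟨2, 2, 0, 67108864⟩, ⟨3, 0, 0, 1233125376⟩]]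

noncomputable def f_B07pp_113_s1 : ℕ → ℕ → ℕ → ℕ → Bool := onCell 536870912 536870912 0 1230186008 1046898278 26843546
    (rowFX 0 false true true .nn 1 1 3 (qsf 536870912 536870912 0 1230186008 1) ndF0q1 ndF7q3 pcF1 cut_B07pp_113_s1 Ext.none)

def k0_B07pp_113_s1 : ∃ t, chk3 f_B07pp_113_s1 t 1 1 1 = true :=
  ⟨(b (a (l 2) (a (l 2) (b (a (l 2) (a (l 2) (l 14))) (a (b (b (l 2) (l 3)) (l 3)) (l 3))))) (a (b (a (l 2) (b (l 2) (a (l 2) (l 3)))) (b (a (l 2) (l 3)) (l 3))) (b (a (b (a (l 2) (l 3)) (l 3)) (l 3)) (l 3)))), by decide +kernel⟩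

theorem c_B07pp_113_s1 : CertFX 536870912 536870912 0 1230186008 1046898278 26843546 false true true .nn 1 1 3
    ndF0q1 ndF7q3 pcF1 cut_B07pp_113_s1 Ext.none :=
  certFX0 (fam := false) (s1 := true) (s2 := true) (a := 1) (b := 1) (c := 3) (cn := .nn) (n1 := ndF0q1) (n2 := ndF7q3) (pc := pcF1) (cut := cut_B07pp_113_s1) (xt := Ext.none) (P1 := 536870912) (W1 := 536870912) (P2 := 0) (W2 := 1230186008) (P3 := 1046898278) (W3 := 26843546)
    rfl k0_B07pp_113_s1

theorem s_B07pp_113_s1 {κ x : ℝ} (hκ : κ * h0 = kenE x) (hx : 39 / 40 ≤ x) (hx' : x < 1)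
    (H : CutVB (VFD κ) (DD x) tKF tL pcF (Cut.of [[⟨0, 1, 0, 67108864⟩, ⟨1, 1, 0, 67108864⟩, ⟨2, 2, 0, 67108864⟩, ⟨3, 0, 0, 1233125376⟩]]) 1 1 3 0 7 (sgb true) (sgb true) x) :
    AltVB (VFD κ) (DD x) tKF tL pcF [⟨3, 0, 0, 1449551462⟩] 1 1 3 0 7 (sgb true) (sgb true) x :=
  strip_altVB (d := 1449551462) true rfl hκ (κ0 hκ hx) (x0 hx) hx' (covF01 hx hx') (covF73 hx hx') (x1 hx) (x2 hx') c_B07pp_113_s1 H (noExt_VB)

noncomputable def cut_B07pp_133_s1 : Cut := Cut.of [[⟨4, 0, 0, 1449551462⟩]]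

noncomputable def f_B07pp_133_s1 : ℕ → ℕ → ℕ → ℕ → Bool := onCell 536870912 536870912 0 1230186008 1046898278 26843546
    (rowFX 0 false true true .dn 1 3 3 (qsf 536870912 536870912 0 1230186008 3) ndF0q1 ndF7q3 pcF3 cut_B07pp_133_s1 Ext.none)

def k0_B07pp_133_s1 : ∃ t, chk3 f_B07pp_133_s1 t 1 1 1 = true :=
  ⟨(b (a (b (a (l 6) (l 1)) (l 1)) (l 1)) (l 1)), by decide +kernel⟩

theorem c_B07pp_133_s1 : CertFX 536870912 536870912 0 1230186008 1046898278 26843546 false true true .dn 1 3 3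
    ndF0q1 ndF7q3 pcF3 cut_B07pp_133_s1 Ext.none :=
  certFX0 (fam := false) (s1 := true) (s2 := true) (a := 1) (b := 3) (c := 3) (cn := .dn) (n1 := ndF0q1) (n2 := ndF7q3) (pc := pcF3) (cut := cut_B07pp_133_s1) (xt := Ext.none) (P1 := 536870912) (W1 := 536870912) (P2 := 0) (W2 := 1230186008) (P3 := 1046898278) (W3 := 26843546)
    rfl k0_B07pp_133_s1

theorem s_B07pp_133_s1 {κ x : ℝ} (hκ : κ * h0 = kenE x) (hx : 39 / 40 ≤ x) (hx' : x < 1) :
    AltVB (VFD κ) (DD x) tKF tL pcF [⟨3, 0, 0, 1449551462⟩] 1 3 3 0 7 (sgb true) (sgb true) x :=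
  strip_altVB (d := 1449551462) true rfl hκ (κ0 hκ hx) (x0 hx) hx' (covF01 hx hx') (covF73 hx hx') (x1 hx) (x2 hx') c_B07pp_133_s1 cutVB_nil (noExt_VB)

noncomputable def cut_B07pp_202_s1 : Cut := Cut.of [[⟨4, 0, 0, 1449551462⟩]]

noncomputable def f_B07pp_202_s1 : ℕ → ℕ → ℕ → ℕ → Bool := onCell 0 536870912 1073741824 536870912 1046898278 26843546
    (rowFX 0 false true true .pp 2 0 2 (qsf 0 536870912 1073741824 536870912 0) ndF0q2 ndF7q2 pcF0 cut_B07pp_202_s1 Ext.none)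

def k0_B07pp_202_s1 : ∃ t, chk3 f_B07pp_202_s1 t 1 1 1 = true :=
  ⟨(l 5), by decide +kernel⟩

theorem c_B07pp_202_s1 : CertFX 0 536870912 1073741824 536870912 1046898278 26843546 false true true .pp 2 0 2
    ndF0q2 ndF7q2 pcF0 cut_B07pp_202_s1 Ext.none :=
  certFX0 (fam := false) (s1 := true) (s2 := true) (a := 2) (b := 0) (c := 2) (cn := .pp) (n1 := ndF0q2) (n2 := ndF7q2) (pc := pcF0) (cut := cut_B07pp_202_s1) (xt := Ext.none) (P1 := 0) (W1 := 536870912) (P2 := 1073741824) (W2 := 536870912) (P3 := 1046898278) (W3 := 26843546)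
    rfl k0_B07pp_202_s1

theorem s_B07pp_202_s1 {κ x : ℝ} (hκ : κ * h0 = kenE x) (hx : 39 / 40 ≤ x) (hx' : x < 1) :
    AltVB (VFD κ) (DD x) tKF tL pcF [⟨3, 0, 0, 1449551462⟩] 2 0 2 0 7 (sgb true) (sgb true) x :=
  strip_altVB (d := 1449551462) true rfl hκ (κ0 hκ hx) (x0 hx) hx' (covF02 hx hx') (covF72 hx hx') (x1 hx) (x2 hx') c_B07pp_202_s1 cutVB_nil (noExt_VB)

noncomputable def cut_B07pp_203_s1 : Cut := Cut.of [[⟨4, 0, 0, 1449551462⟩]]

noncomputable def f_B07pp_203_s1 : ℕ → ℕ → ℕ → ℕ → Bool := onCell 0 536870912 0 1230186008 1046898278 26843546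
    (rowFX 0 false true true .up 2 0 3 (qsf 0 536870912 0 1230186008 0) ndF0q2 ndF7q3 pcF0 cut_B07pp_203_s1 Ext.none)

def k0_B07pp_203_s1 : ∃ t, chk3 f_B07pp_203_s1 t 1 1 1 = true :=
  ⟨(b (l 2) (a (l 5) (b (l 2) (l 3)))), by decide +kernel⟩

theorem c_B07pp_203_s1 : CertFX 0 536870912 0 1230186008 1046898278 26843546 false true true .up 2 0 3
    ndF0q2 ndF7q3 pcF0 cut_B07pp_203_s1 Ext.none :=
  certFX0 (fam := false) (s1 := true) (s2 := true) (a := 2) (b := 0) (c := 3) (cn := .up) (n1 := ndF0q2) (n2 := ndF7q3) (pc := pcF0) (cut := cut_B07pp_203_s1) (xt := Ext.none) (P1 := 0) (W1 := 536870912) (P2 := 0) (W2 := 1230186008) (P3 := 1046898278) (W3 := 26843546)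
    rfl k0_B07pp_203_s1

theorem s_B07pp_203_s1 {κ x : ℝ} (hκ : κ * h0 = kenE x) (hx : 39 / 40 ≤ x) (hx' : x < 1) :
    AltVB (VFD κ) (DD x) tKF tL pcF [⟨3, 0, 0, 1449551462⟩] 2 0 3 0 7 (sgb true) (sgb true) x :=
  strip_altVB (d := 1449551462) true rfl hκ (κ0 hκ hx) (x0 hx) hx' (covF02 hx hx') (covF73 hx hx') (x1 hx) (x2 hx') c_B07pp_203_s1 cutVB_nil (noExt_VB)

noncomputable def cut_B07pp_213_s1 : Cut := Cut.of [[⟨4, 0, 0, 1449551462⟩], [⟨0, 1, 0, 67108864⟩, ⟨1, 1, 0, 67108864⟩, ⟨2, 2, 0, 67108864⟩, ⟨3, 0, 0, 1233125376⟩]]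

noncomputable def f_B07pp_213_s1 : ℕ → ℕ → ℕ → ℕ → Bool := onCell 0 536870912 0 1230186008 1046898278 26843546
    (rowFX 0 false true true .pnn 2 1 3 (qsf 0 536870912 0 1230186008 1) ndF0q2 ndF7q3 pcF1 cut_B07pp_213_s1 Ext.none)

def k0_B07pp_213_s1 : ∃ t, chk3 f_B07pp_213_s1 t 1 1 1 = true :=
  ⟨(a (b (l 3) (l 5)) (b (b (a (l 3) (a (l 3) (b (l 14) (l 3)))) (l 3)) (b (l 3) (l 3)))), by decide +kernel⟩

theorem c_B07pp_213_s1 : CertFX 0 536870912 0 1230186008 1046898278 26843546 false true true .pnn 2 1 3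
    ndF0q2 ndF7q3 pcF1 cut_B07pp_213_s1 Ext.none :=
  certFX0 (fam := false) (s1 := true) (s2 := true) (a := 2) (b := 1) (c := 3) (cn := .pnn) (n1 := ndF0q2) (n2 := ndF7q3) (pc := pcF1) (cut := cut_B07pp_213_s1) (xt := Ext.none) (P1 := 0) (W1 := 536870912) (P2 := 0) (W2 := 1230186008) (P3 := 1046898278) (W3 := 26843546)
    rfl k0_B07pp_213_s1

theorem s_B07pp_213_s1 {κ x : ℝ} (hκ : κ * h0 = kenE x) (hx : 39 / 40 ≤ x) (hx' : x < 1)
    (H : CutVB (VFD κ) (DD x) tKF tL pcF (Cut.of [[⟨0, 1, 0, 67108864⟩, ⟨1, 1, 0, 67108864⟩, ⟨2, 2, 0, 67108864⟩, ⟨3, 0, 0, 1233125376⟩]]) 2 1 3 0 7 (sgb true) (sgb true) x) :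
    AltVB (VFD κ) (DD x) tKF tL pcF [⟨3, 0, 0, 1449551462⟩] 2 1 3 0 7 (sgb true) (sgb true) x :=
  strip_altVB (d := 1449551462) true rfl hκ (κ0 hκ hx) (x0 hx) hx' (covF02 hx hx') (covF73 hx hx') (x1 hx) (x2 hx') c_B07pp_213_s1 H (noExt_VB)

noncomputable def cut_B07pm_001_s1 : Cut := Cut.of [[⟨4, 0, 0, 1449551462⟩]]

noncomputable def f_B07pm_001_s1 : ℕ → ℕ → ℕ → ℕ → Bool := onCell 0 536870912 536870912 536870912 1046898278 26843546
    (rowFX 0 false true false .up 0 0 1 (qsf 0 536870912 536870912 536870912 0) ndF0q0 ndF7q1 pcF0 cut_B07pm_001_s1 Ext.none)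

def k0_B07pm_001_s1 : ∃ t, chk3 f_B07pm_001_s1 t 1 1 1 = true :=
  ⟨(l 4), by decide +kernel⟩

theorem c_B07pm_001_s1 : CertFX 0 536870912 536870912 536870912 1046898278 26843546 false true false .up 0 0 1
    ndF0q0 ndF7q1 pcF0 cut_B07pm_001_s1 Ext.none :=
  certFX0 (fam := false) (s1 := true) (s2 := false) (a := 0) (b := 0) (c := 1) (cn := .up) (n1 := ndF0q0) (n2 := ndF7q1) (pc := pcF0) (cut := cut_B07pm_001_s1) (xt := Ext.none) (P1 := 0) (W1 := 536870912) (P2 := 536870912) (W2 := 536870912) (P3 := 1046898278) (W3 := 26843546)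
    rfl k0_B07pm_001_s1

theorem s_B07pm_001_s1 {κ x : ℝ} (hκ : κ * h0 = kenE x) (hx : 39 / 40 ≤ x) (hx' : x < 1) :
    AltVB (VFD κ) (DD x) tKF tL pcF [⟨3, 0, 0, 1449551462⟩] 0 0 1 0 7 (sgb true) (sgb false) x :=
  strip_altVB (d := 1449551462) true rfl hκ (κ0 hκ hx) (x0 hx) hx' (covF00 hx hx') (covF71 hx hx') (x1 hx) (x2 hx') c_B07pm_001_s1 cutVB_nil (noExt_VB)

noncomputable def cut_B07pm_011_s1 : Cut := Cut.of [[⟨4, 0, 0, 1449551462⟩]]

noncomputable def f_B07pm_011_s1 : ℕ → ℕ → ℕ → ℕ → Bool := onCell 0 536870912 536870912 536870912 1046898278 26843546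
    (rowFX 0 false true false .pnn 0 1 1 (qsf 0 536870912 536870912 536870912 1) ndF0q0 ndF7q1 pcF1 cut_B07pm_011_s1 Ext.none)

def k0_B07pm_011_s1 : ∃ t, chk3 f_B07pm_011_s1 t 1 1 1 = true :=
  ⟨(l 4), by decide +kernel⟩

theorem c_B07pm_011_s1 : CertFX 0 536870912 536870912 536870912 1046898278 26843546 false true false .pnn 0 1 1
    ndF0q0 ndF7q1 pcF1 cut_B07pm_011_s1 Ext.none :=
  certFX0 (fam := false) (s1 := true) (s2 := false) (a := 0) (b := 1) (c := 1) (cn := .pnn) (n1 := ndF0q0) (n2 := ndF7q1) (pc := pcF1) (cut := cut_B07pm_011_s1) (xt := Ext.none) (P1 := 0) (W1 := 536870912) (P2 := 536870912) (W2 := 536870912) (P3 := 1046898278) (W3 := 26843546)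
    rfl k0_B07pm_011_s1

theorem s_B07pm_011_s1 {κ x : ℝ} (hκ : κ * h0 = kenE x) (hx : 39 / 40 ≤ x) (hx' : x < 1) :
    AltVB (VFD κ) (DD x) tKF tL pcF [⟨3, 0, 0, 1449551462⟩] 0 1 1 0 7 (sgb true) (sgb false) x :=
  strip_altVB (d := 1449551462) true rfl hκ (κ0 hκ hx) (x0 hx) hx' (covF00 hx hx') (covF71 hx hx') (x1 hx) (x2 hx') c_B07pm_011_s1 cutVB_nil (noExt_VB)

noncomputable def cut_B07pm_012_s1 : Cut := Cut.of [[⟨4, 0, 0, 1449551462⟩]]

noncomputable def f_B07pm_012_s1 : ℕ → ℕ → ℕ → ℕ → Bool := onCell 0 536870912 1073741824 536870912 1046898278 26843546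
    (rowFX 0 false true false .pnp 0 1 2 (qsf 0 536870912 1073741824 536870912 1) ndF0q0 ndF7q2 pcF1 cut_B07pm_012_s1 Ext.none)

def k0_B07pm_012_s1 : ∃ t, chk3 f_B07pm_012_s1 t 1 1 1 = true :=
  ⟨(l 4), by decide +kernel⟩

theorem c_B07pm_012_s1 : CertFX 0 536870912 1073741824 536870912 1046898278 26843546 false true false .pnp 0 1 2
    ndF0q0 ndF7q2 pcF1 cut_B07pm_012_s1 Ext.none :=
  certFX0 (fam := false) (s1 := true) (s2 := false) (a := 0) (b := 1) (c := 2) (cn := .pnp) (n1 := ndF0q0) (n2 := ndF7q2) (pc := pcF1) (cut := cut_B07pm_012_s1) (xt := Ext.none) (P1 := 0) (W1 := 536870912) (P2 := 1073741824) (W2 := 536870912) (P3 := 1046898278) (W3 := 26843546)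
    rfl k0_B07pm_012_s1

theorem s_B07pm_012_s1 {κ x : ℝ} (hκ : κ * h0 = kenE x) (hx : 39 / 40 ≤ x) (hx' : x < 1) :
    AltVB (VFD κ) (DD x) tKF tL pcF [⟨3, 0, 0, 1449551462⟩] 0 1 2 0 7 (sgb true) (sgb false) x :=
  strip_altVB (d := 1449551462) true rfl hκ (κ0 hκ hx) (x0 hx) hx' (covF00 hx hx') (covF72 hx hx') (x1 hx) (x2 hx') c_B07pm_012_s1 cutVB_nil (noExt_VB)

noncomputable def cut_B07pm_022_s1 : Cut := Cut.of [[⟨4, 0, 0, 1449551462⟩]]

noncomputable def f_B07pm_022_s1 : ℕ → ℕ → ℕ → ℕ → Bool := onCell 0 536870912 1073741824 536870912 1046898278 26843546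
    (rowFX 0 false true false .pp 0 2 2 (qsf 0 536870912 1073741824 536870912 2) ndF0q0 ndF7q2 pcF2 cut_B07pm_022_s1 Ext.none)

def k0_B07pm_022_s1 : ∃ t, chk3 f_B07pm_022_s1 t 1 1 1 = true :=
  ⟨(l 4), by decide +kernel⟩

theorem c_B07pm_022_s1 : CertFX 0 536870912 1073741824 536870912 1046898278 26843546 false true false .pp 0 2 2
    ndF0q0 ndF7q2 pcF2 cut_B07pm_022_s1 Ext.none :=
  certFX0 (fam := false) (s1 := true) (s2 := false) (a := 0) (b := 2) (c := 2) (cn := .pp) (n1 := ndF0q0) (n2 := ndF7q2) (pc := pcF2) (cut := cut_B07pm_022_s1) (xt := Ext.none) (P1 := 0) (W1 := 536870912) (P2 := 1073741824) (W2 := 536870912) (P3 := 1046898278) (W3 := 26843546)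
    rfl k0_B07pm_022_s1

theorem s_B07pm_022_s1 {κ x : ℝ} (hκ : κ * h0 = kenE x) (hx : 39 / 40 ≤ x) (hx' : x < 1) :
    AltVB (VFD κ) (DD x) tKF tL pcF [⟨3, 0, 0, 1449551462⟩] 0 2 2 0 7 (sgb true) (sgb false) x :=
  strip_altVB (d := 1449551462) true rfl hκ (κ0 hκ hx) (x0 hx) hx' (covF00 hx hx') (covF72 hx hx') (x1 hx) (x2 hx') c_B07pm_022_s1 cutVB_nil (noExt_VB)

noncomputable def cut_B07pm_023_s1 : Cut := Cut.of [[⟨4, 0, 0, 1449551462⟩]]

noncomputable def f_B07pm_023_s1 : ℕ → ℕ → ℕ → ℕ → Bool := onCell 0 536870912 0 1230186008 1046898278 26843546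
    (rowFX 0 false true false .up 0 2 3 (qsf 0 536870912 0 1230186008 2) ndF0q0 ndF7q3 pcF2 cut_B07pm_023_s1 Ext.none)

def k0_B07pm_023_s1 : ∃ t, chk3 f_B07pm_023_s1 t 1 1 1 = true :=
  ⟨(l 6), by decide +kernel⟩

theorem c_B07pm_023_s1 : CertFX 0 536870912 0 1230186008 1046898278 26843546 false true false .up 0 2 3
    ndF0q0 ndF7q3 pcF2 cut_B07pm_023_s1 Ext.none :=
  certFX0 (fam := false) (s1 := true) (s2 := false) (a := 0) (b := 2) (c := 3) (cn := .up) (n1 := ndF0q0) (n2 := ndF7q3) (pc := pcF2) (cut := cut_B07pm_023_s1) (xt := Ext.none) (P1 := 0) (W1 := 536870912) (P2 := 0) (W2 := 1230186008) (P3 := 1046898278) (W3 := 26843546)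
    rfl k0_B07pm_023_s1

theorem s_B07pm_023_s1 {κ x : ℝ} (hκ : κ * h0 = kenE x) (hx : 39 / 40 ≤ x) (hx' : x < 1) :
    AltVB (VFD κ) (DD x) tKF tL pcF [⟨3, 0, 0, 1449551462⟩] 0 2 3 0 7 (sgb true) (sgb false) x :=
  strip_altVB (d := 1449551462) true rfl hκ (κ0 hκ hx) (x0 hx) hx' (covF00 hx hx') (covF73 hx hx') (x1 hx) (x2 hx') c_B07pm_023_s1 cutVB_nil (noExt_VB)

noncomputable def cut_B07pm_033_s1 : Cut := Cut.of [[⟨4, 0, 0, 1449551462⟩]]

noncomputable def f_B07pm_033_s1 : ℕ → ℕ → ℕ → ℕ → Bool := onCell 0 536870912 0 1230186008 1046898278 26843546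
    (rowFX 0 false true false .pnn 0 3 3 (qsf 0 536870912 0 1230186008 3) ndF0q0 ndF7q3 pcF3 cut_B07pm_033_s1 Ext.none)

def k0_B07pm_033_s1 : ∃ t, chk3 f_B07pm_033_s1 t 1 1 1 = true :=
  ⟨(l 6), by decide +kernel⟩

theorem c_B07pm_033_s1 : CertFX 0 536870912 0 1230186008 1046898278 26843546 false true false .pnn 0 3 3
    ndF0q0 ndF7q3 pcF3 cut_B07pm_033_s1 Ext.none :=
  certFX0 (fam := false) (s1 := true) (s2 := false) (a := 0) (b := 3) (c := 3) (cn := .pnn) (n1 := ndF0q0) (n2 := ndF7q3) (pc := pcF3) (cut := cut_B07pm_033_s1) (xt := Ext.none) (P1 := 0) (W1 := 536870912) (P2 := 0) (W2 := 1230186008) (P3 := 1046898278) (W3 := 26843546)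
    rfl k0_B07pm_033_s1

theorem s_B07pm_033_s1 {κ x : ℝ} (hκ : κ * h0 = kenE x) (hx : 39 / 40 ≤ x) (hx' : x < 1) :
    AltVB (VFD κ) (DD x) tKF tL pcF [⟨3, 0, 0, 1449551462⟩] 0 3 3 0 7 (sgb true) (sgb false) x :=
  strip_altVB (d := 1449551462) true rfl hκ (κ0 hκ hx) (x0 hx) hx' (covF00 hx hx') (covF73 hx hx') (x1 hx) (x2 hx') c_B07pm_033_s1 cutVB_nil (noExt_VB)

noncomputable def cut_B07pm_101_s1 : Cut := Cut.of [[⟨4, 0, 0, 1449551462⟩]]

noncomputable def f_B07pm_101_s1 : ℕ → ℕ → ℕ → ℕ → Bool := onCell 536870912 536870912 536870912 536870912 1046898278 26843546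
    (rowFX 0 false true false .npn 1 0 1 (qsf 536870912 536870912 536870912 536870912 0) ndF0q1 ndF7q1 pcF0 cut_B07pm_101_s1 Ext.none)

def k0_B07pm_101_s1 : ∃ t, chk3 f_B07pm_101_s1 t 1 1 1 = true :=
  ⟨(l 4), by decide +kernel⟩

theorem c_B07pm_101_s1 : CertFX 536870912 536870912 536870912 536870912 1046898278 26843546 false true false .npn 1 0 1
    ndF0q1 ndF7q1 pcF0 cut_B07pm_101_s1 Ext.none :=
  certFX0 (fam := false) (s1 := true) (s2 := false) (a := 1) (b := 0) (c := 1) (cn := .npn) (n1 := ndF0q1) (n2 := ndF7q1) (pc := pcF0) (cut := cut_B07pm_101_s1) (xt := Ext.none) (P1 := 536870912) (W1 := 536870912) (P2 := 536870912) (W2 := 536870912) (P3 := 1046898278) (W3 := 26843546)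
    rfl k0_B07pm_101_s1

theorem s_B07pm_101_s1 {κ x : ℝ} (hκ : κ * h0 = kenE x) (hx : 39 / 40 ≤ x) (hx' : x < 1) :
    AltVB (VFD κ) (DD x) tKF tL pcF [⟨3, 0, 0, 1449551462⟩] 1 0 1 0 7 (sgb true) (sgb false) x :=
  strip_altVB (d := 1449551462) true rfl hκ (κ0 hκ hx) (x0 hx) hx' (covF01 hx hx') (covF71 hx hx') (x1 hx) (x2 hx') c_B07pm_101_s1 cutVB_nil (noExt_VB)

noncomputable def cut_B07pm_102_s1 : Cut := Cut.of [[⟨4, 0, 0, 1449551462⟩]]

noncomputable def f_B07pm_102_s1 : ℕ → ℕ → ℕ → ℕ → Bool := onCell 536870912 536870912 1073741824 536870912 1046898278 26843546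
    (rowFX 0 false true false .npp 1 0 2 (qsf 536870912 536870912 1073741824 536870912 0) ndF0q1 ndF7q2 pcF0 cut_B07pm_102_s1 Ext.none)

def k0_B07pm_102_s1 : ∃ t, chk3 f_B07pm_102_s1 t 1 1 1 = true :=
  ⟨(l 6), by decide +kernel⟩

theorem c_B07pm_102_s1 : CertFX 536870912 536870912 1073741824 536870912 1046898278 26843546 false true false .npp 1 0 2
    ndF0q1 ndF7q2 pcF0 cut_B07pm_102_s1 Ext.none :=
  certFX0 (fam := false) (s1 := true) (s2 := false) (a := 1) (b := 0) (c := 2) (cn := .npp) (n1 := ndF0q1) (n2 := ndF7q2) (pc := pcF0) (cut := cut_B07pm_102_s1) (xt := Ext.none) (P1 := 536870912) (W1 := 536870912) (P2 := 1073741824) (W2 := 536870912) (P3 := 1046898278) (W3 := 26843546)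
    rfl k0_B07pm_102_s1

theorem s_B07pm_102_s1 {κ x : ℝ} (hκ : κ * h0 = kenE x) (hx : 39 / 40 ≤ x) (hx' : x < 1) :
    AltVB (VFD κ) (DD x) tKF tL pcF [⟨3, 0, 0, 1449551462⟩] 1 0 2 0 7 (sgb true) (sgb false) x :=
  strip_altVB (d := 1449551462) true rfl hκ (κ0 hκ hx) (x0 hx) hx' (covF01 hx hx') (covF72 hx hx') (x1 hx) (x2 hx') c_B07pm_102_s1 cutVB_nil (noExt_VB)

noncomputable def cut_B07pm_112_s1 : Cut := Cut.of [[⟨4, 0, 0, 1449551462⟩]]

noncomputable def f_B07pm_112_s1 : ℕ → ℕ → ℕ → ℕ → Bool := onCell 536870912 536870912 1073741824 536870912 1046898278 26843546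
    (rowFX 0 false true false .dn 1 1 2 (qsf 536870912 536870912 1073741824 536870912 1) ndF0q1 ndF7q2 pcF1 cut_B07pm_112_s1 Ext.none)

def k0_B07pm_112_s1 : ∃ t, chk3 f_B07pm_112_s1 t 1 1 1 = true :=
  ⟨(l 6), by decide +kernel⟩

theorem c_B07pm_112_s1 : CertFX 536870912 536870912 1073741824 536870912 1046898278 26843546 false true false .dn 1 1 2
    ndF0q1 ndF7q2 pcF1 cut_B07pm_112_s1 Ext.none :=
  certFX0 (fam := false) (s1 := true) (s2 := false) (a := 1) (b := 1) (c := 2) (cn := .dn) (n1 := ndF0q1) (n2 := ndF7q2) (pc := pcF1) (cut := cut_B07pm_112_s1) (xt := Ext.none) (P1 := 536870912) (W1 := 536870912) (P2 := 1073741824) (W2 := 536870912) (P3 := 1046898278) (W3 := 26843546)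
    rfl k0_B07pm_112_s1

theorem s_B07pm_112_s1 {κ x : ℝ} (hκ : κ * h0 = kenE x) (hx : 39 / 40 ≤ x) (hx' : x < 1) :
    AltVB (VFD κ) (DD x) tKF tL pcF [⟨3, 0, 0, 1449551462⟩] 1 1 2 0 7 (sgb true) (sgb false) x :=
  strip_altVB (d := 1449551462) true rfl hκ (κ0 hκ hx) (x0 hx) hx' (covF01 hx hx') (covF72 hx hx') (x1 hx) (x2 hx') c_B07pm_112_s1 cutVB_nil (noExt_VB)

noncomputable def cut_B07pm_113_s1 : Cut := Cut.of [[⟨4, 0, 0, 1449551462⟩], [⟨0, 1, 0, 67108864⟩, ⟨1, 1, 0, 67108864⟩, ⟨2, 2, 0, 67108864⟩, ⟨3, 0, 0, 1233125376⟩]]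

noncomputable def f_B07pm_113_s1 : ℕ → ℕ → ℕ → ℕ → Bool := onCell 536870912 536870912 0 1230186008 1046898278 26843546
    (rowFX 0 false true false .nn 1 1 3 (qsf 536870912 536870912 0 1230186008 1) ndF0q1 ndF7q3 pcF1 cut_B07pm_113_s1 Ext.none)

def k0_B07pm_113_s1 : ∃ t, chk3 f_B07pm_113_s1 t 1 1 1 = true :=
  ⟨(b (a (l 2) (a (l 2) (b (a (l 2) (b (a (l 2) (a (l 2) (a (l 2) (b (l 14) (b (l 14) (c (l 16590504) (c (l 16590408) (a (l 16111592) (b (l 14) (l 15807736)))))))))) (a (l 2) (a (b (l 2) (c (l 16419768) (l 15668248))) (b (c (b (a (l 16592672) (l 16546352)) (a (l 16554080) (b (l 16513152) (l 16491136)))) (b (a (c (l 16608744) (l 15692816)) (c (l 16460872) (a (l 15562232) (l 15529112)))) (a (b (c (l 16549424) (l 15428496)) (l 15798088)) (c (a (l 16220408) (l 16113080)) (a (l 15370664) (l 15362944)))))) (b (a (c (l 16506928) (l 15623464)) (c (b (l 16469896) (l 16447192)) (a (l 15576824) (l 15545144)))) (c (l 16266560)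 (l 15488624)))))))) (b (a (l 6) (a (l 6) (b (a (l 6) (b (c (l 15988976) (l 15441024)) (l 6))) (l 6)))) (l 6))))) (b (l 6) (l 6))), by decide +kernel⟩

theorem c_B07pm_113_s1 : CertFX 536870912 536870912 0 1230186008 1046898278 26843546 false true false .nn 1 1 3
    ndF0q1 ndF7q3 pcF1 cut_B07pm_113_s1 Ext.none :=
  certFX0 (fam := false) (s1 := true) (s2 := false) (a := 1) (b := 1) (c := 3) (cn := .nn) (n1 := ndF0q1) (n2 := ndF7q3) (pc := pcF1) (cut := cut_B07pm_113_s1) (xt := Ext.none) (P1 := 536870912) (W1 := 536870912) (P2 := 0) (W2 := 1230186008) (P3 := 1046898278) (W3 := 26843546)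
    rfl k0_B07pm_113_s1

theorem s_B07pm_113_s1 {κ x : ℝ} (hκ : κ * h0 = kenE x) (hx : 39 / 40 ≤ x) (hx' : x < 1)
    (H : CutVB (VFD κ) (DD x) tKF tL pcF (Cut.of [[⟨0, 1, 0, 67108864⟩, ⟨1, 1, 0, 67108864⟩, ⟨2, 2, 0, 67108864⟩, ⟨3, 0, 0, 1233125376⟩]]) 1 1 3 0 7 (sgb true) (sgb false) x) :
    AltVB (VFD κ) (DD x) tKF tL pcF [⟨3, 0, 0, 1449551462⟩] 1 1 3 0 7 (sgb true) (sgb false) x :=
  strip_altVB (d := 1449551462) true rfl hκ (κ0 hκ hx) (x0 hx) hx' (covF01 hx hx') (covF73 hx hx') (x1 hx) (x2 hx') c_B07pm_113_s1 H (noExt_VB)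

noncomputable def cut_B07pm_123_s1 : Cut := Cut.of [[⟨4, 0, 0, 1449551462⟩], [⟨0, 1, 0, 67108864⟩, ⟨1, 1, 0, 67108864⟩, ⟨2, 2, 0, 67108864⟩, ⟨3, 0, 0, 1233125376⟩]]

noncomputable def f_B07pm_123_s1 : ℕ → ℕ → ℕ → ℕ → Bool := onCell 1073741824 536870912 0 1230186008 1046898278 26843546
    (rowFX 2 false true false .npn 1 2 3 (qsf 536870912 536870912 0 1230186008 2) ndF0q1 ndF7q3 pcF2 cut_B07pm_123_s1 Ext.none)

def k0_B07pm_123_s1 : ∃ t, chk3 f_B07pm_123_s1 t 16 8 1 = true :=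
  ⟨(a (b (l 14) (c (b (a (a (l 14) (b (l 14) (l 16163024))) (c (a (l 16308440) (l 16351608)) (a (l 16320624) (l 16372368)))) (b (a (a (l 16132896) (l 16174296)) (c (a (l 16220624) (l 16288288)) (a (l 16230600) (l 16303152)))) (a (a (b (l 16068096) (l 16044368)) (c (l 16128504) (l 16131920))) (a (b (l 16122488) (l 16224112)) (l 16309424))))) (a (a (b (l 14) (c (b (l 16129072) (b (l 16065800) (l 16043888))) (b (l 15964624) (b (l 16067336) (l 15959328))))) (b (a (l 14) (c (l 16302776) (l 16315144))) (c (b (l 16182120) (l 15971784)) (b (l 16186232) (l 16138480))))) (b (c (a (l 16337424) (l 16387856)) (l 16201216)) (c (b (l 16193120) (l 16191888)) (b (l 16190104) (l 16186904))))))) (b (b (l 14) (c (a (a (l 14) (b (l 14) (l 16365456))) (c (l 16534616) (l 16560144))) (c (a (b (l 14) (l 16541512)) (l 16653472)) (a (l 16570016) (l 16653392))))) (c (b (a (c (l 16359864) (l 16379592)) (c (l 16503400) (l 16513816))) (b (a (c (l 16333760)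 (l 16428496)) (l 16409152)) (l 16437696))) (b (a (c (l 16388512) (l 16471376)) (c (l 16430920) (l 16513136))) (b (a (c (l 16428488) (l 16424488)) (l 16395552)) (l 16503144)))))), by decide +kernel⟩

def k1_B07pm_123_s1 : ∃ t, chk3 f_B07pm_123_s1 t 17 8 1 = true :=
  ⟨(a (b (a (c (b (c (l 16608192) (l 16752568)) (c (l 16713768) (l 16700376))) (b (l 16650376) (l 16672632))) (c (c (l 16672520) (l 16618720)) (b (l 16574384) (l 16572584)))) (b (c (a (c (l 16665368) (l 16632856)) (b (l 16538200) (l 16579448))) (a (l 16582184) (l 16465360))) (l 16475840))) (b (c (c (a (b (l 16541016) (l 16490128)) (b (l 16388672) (b (l 16329336) (l 16292576)))) (b (l 16375864) (a (l 16483664) (l 16301976)))) (b (a (l 16527088) (l 16374472)) (a (l 16349376) (b (l 16312136) (l 16240480))))) (b (a (c (c (l 16373864) (l 16452616)) (l 16238976)) (l 16271936)) (l 16247744)))), by decide +kernel⟩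

def k2_B07pm_123_s1 : ∃ t, chk3 f_B07pm_123_s1 t 8 9 1 = true :=
  ⟨(a (b (c (a (b (a (l 16145976) (l 16323568)) (a (l 16010320) (l 16430144))) (b (l 16342952) (l 16442024))) (a (a (b (l 16065200) (l 16105752)) (l 16150576)) (b (l 16388152) (l 16227528)))) (b (a (c (a (l 16309352) (l 16417320)) (l 15972168)) (c (l 16324592) (l 16067264))) (l 6))) (b (a (c (l 16385496) (l 16029488)) (b (l 16150464) (l 6))) (l 6))), by decide +kernel⟩

def k3_B07pm_123_s1 : ∃ t, chk3 f_B07pm_123_s1 t 8 5 1 = true :=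
  ⟨(l 6), by decide +kernel⟩

def k4_B07pm_123_s1 : ∃ t, chk3 f_B07pm_123_s1 t 9 2 1 = true :=
  ⟨(b (b (b (a (a (b (c (c (l 16136304) (l 16127848)) (c (l 16119328) (l 16110784))) (a (c (b (l 16137664) (l 16120456)) (b (l 16120304) (l 16083328))) (b (c (l 15965120) (l 15943048)) (l 15953160)))) (b (c (b (l 15802224) (a (l 15822640) (l 15654224))) (b (l 15776400) (a (l 15797152) (l 15624120)))) (a (a (c (l 15855944) (l 15830272)) (l 15761408)) (l 15653360)))) (b (b (c (a (a (l 15516120) (l 15352328)) (a (l 15208016) (l 6))) (a (a (l 15483064) (l 15314736)) (a (l 15166048) (l 6)))) (a (a (c (l 15503408) (l 15468840)) (l 15341640)) (l 6))) (l 15310136))) (a (c (l 15664552) (a (l 15926496) (l 15668520))) (l 6))) (l 6)) (l 6)), by decide +kernel⟩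

def k5_B07pm_123_s1 : ∃ t, chk3 f_B07pm_123_s1 t 5 2 1 = true :=
  ⟨(b (b (l 6) (l 6)) (l 6)), by decide +kernel⟩

def k6_B07pm_123_s1 : ∃ t, chk3 f_B07pm_123_s1 t 3 2 1 = true :=
  ⟨(l 6), by decide +kernel⟩

def k7_B07pm_123_s1 : ∃ t, chk3 f_B07pm_123_s1 t 1 3 1 = true :=
  ⟨(l 6), by decide +kernel⟩

theorem t8_B07pm_123_s1 : ∃ t, chk3 f_B07pm_123_s1 t 8 8 1 = true := ex3_a k0_B07pm_123_s1 k1_B07pm_123_s1

theorem t9_B07pm_123_s1 : ∃ t, chk3 f_B07pm_123_s1 t 8 4 1 = true := ex3_b t8_B07pm_123_s1 k2_B07pm_123_s1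

theorem t10_B07pm_123_s1 : ∃ t, chk3 f_B07pm_123_s1 t 8 2 1 = true := ex3_b t9_B07pm_123_s1 k3_B07pm_123_s1

theorem t11_B07pm_123_s1 : ∃ t, chk3 f_B07pm_123_s1 t 4 2 1 = true := ex3_a t10_B07pm_123_s1 k4_B07pm_123_s1

theorem t12_B07pm_123_s1 : ∃ t, chk3 f_B07pm_123_s1 t 2 2 1 = true := ex3_a t11_B07pm_123_s1 k5_B07pm_123_s1

theorem t13_B07pm_123_s1 : ∃ t, chk3 f_B07pm_123_s1 t 1 2 1 = true := ex3_a t12_B07pm_123_s1 k6_B07pm_123_s1

theorem t14_B07pm_123_s1 : ∃ t, chk3 f_B07pm_123_s1 t 1 1 1 = true := ex3_b t13_B07pm_123_s1 k7_B07pm_123_s1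

theorem c_B07pm_123_s1 : CertFX 536870912 536870912 0 1230186008 1046898278 26843546 false true false .npn 1 2 3
    ndF0q1 ndF7q3 pcF2 cut_B07pm_123_s1 Ext.none :=
  certFX2 (fam := false) (s1 := true) (s2 := false) (a := 1) (b := 2) (c := 3) (cn := .npn) (n1 := ndF0q1) (n2 := ndF7q3) (pc := pcF2) (cut := cut_B07pm_123_s1) (xt := Ext.none) (P1 := 536870912) (W1 := 536870912) (P2 := 0) (W2 := 1230186008) (P3 := 1046898278) (W3 := 26843546)
    rfl (fun _ => rfl) t14_B07pm_123_s1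

theorem s_B07pm_123_s1 {κ x : ℝ} (hκ : κ * h0 = kenE x) (hx : 39 / 40 ≤ x) (hx' : x < 1)
    (H : CutVB (VFD κ) (DD x) tKF tL pcF (Cut.of [[⟨0, 1, 0, 67108864⟩, ⟨1, 1, 0, 67108864⟩, ⟨2, 2, 0, 67108864⟩, ⟨3, 0, 0, 1233125376⟩]]) 1 2 3 0 7 (sgb true) (sgb false) x) :
    AltVB (VFD κ) (DD x) tKF tL pcF [⟨3, 0, 0, 1449551462⟩] 1 2 3 0 7 (sgb true) (sgb false) x :=
  strip_altVB (d := 1449551462) true rfl hκ (κ0 hκ hx) (x0 hx) hx' (covF01 hx hx') (covF73 hx hx') (x1 hx) (x2 hx') c_B07pm_123_s1 H (noExt_VB)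

noncomputable def cut_B07pm_133_s1 : Cut := Cut.of [[⟨4, 0, 0, 1449551462⟩]]

noncomputable def f_B07pm_133_s1 : ℕ → ℕ → ℕ → ℕ → Bool := onCell 536870912 536870912 0 1230186008 1046898278 26843546
    (rowFX 0 false true false .dn 1 3 3 (qsf 536870912 536870912 0 1230186008 3) ndF0q1 ndF7q3 pcF3 cut_B07pm_133_s1 Ext.none)

def k0_B07pm_133_s1 : ∃ t, chk3 f_B07pm_133_s1 t 1 1 1 = true :=
  ⟨(b (a (l 6) (l 1)) (l 1)), by decide +kernel⟩

theorem c_B07pm_133_s1 : CertFX 536870912 536870912 0 1230186008 1046898278 26843546 false true false .dn 1 3 3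
    ndF0q1 ndF7q3 pcF3 cut_B07pm_133_s1 Ext.none :=
  certFX0 (fam := false) (s1 := true) (s2 := false) (a := 1) (b := 3) (c := 3) (cn := .dn) (n1 := ndF0q1) (n2 := ndF7q3) (pc := pcF3) (cut := cut_B07pm_133_s1) (xt := Ext.none) (P1 := 536870912) (W1 := 536870912) (P2 := 0) (W2 := 1230186008) (P3 := 1046898278) (W3 := 26843546)
    rfl k0_B07pm_133_s1

theorem s_B07pm_133_s1 {κ x : ℝ} (hκ : κ * h0 = kenE x) (hx : 39 / 40 ≤ x) (hx' : x < 1) :
    AltVB (VFD κ) (DD x) tKF tL pcF [⟨3, 0, 0, 1449551462⟩] 1 3 3 0 7 (sgb true) (sgb false) x :=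
  strip_altVB (d := 1449551462) true rfl hκ (κ0 hκ hx) (x0 hx) hx' (covF01 hx hx') (covF73 hx hx') (x1 hx) (x2 hx') c_B07pm_133_s1 cutVB_nil (noExt_VB)

noncomputable def cut_B07pm_202_s1 : Cut := Cut.of [[⟨4, 0, 0, 1449551462⟩]]

noncomputable def f_B07pm_202_s1 : ℕ → ℕ → ℕ → ℕ → Bool := onCell 0 536870912 1073741824 536870912 1046898278 26843546
    (rowFX 0 false true false .pp 2 0 2 (qsf 0 536870912 1073741824 536870912 0) ndF0q2 ndF7q2 pcF0 cut_B07pm_202_s1 Ext.none)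

def k0_B07pm_202_s1 : ∃ t, chk3 f_B07pm_202_s1 t 1 1 1 = true :=
  ⟨(a (b (l 6) (b (l 6) (l 6))) (l 6)), by decide +kernel⟩

theorem c_B07pm_202_s1 : CertFX 0 536870912 1073741824 536870912 1046898278 26843546 false true false .pp 2 0 2
    ndF0q2 ndF7q2 pcF0 cut_B07pm_202_s1 Ext.none :=
  certFX0 (fam := false) (s1 := true) (s2 := false) (a := 2) (b := 0) (c := 2) (cn := .pp) (n1 := ndF0q2) (n2 := ndF7q2) (pc := pcF0) (cut := cut_B07pm_202_s1) (xt := Ext.none) (P1 := 0) (W1 := 536870912) (P2 := 1073741824) (W2 := 536870912) (P3 := 1046898278) (W3 := 26843546)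
    rfl k0_B07pm_202_s1

theorem s_B07pm_202_s1 {κ x : ℝ} (hκ : κ * h0 = kenE x) (hx : 39 / 40 ≤ x) (hx' : x < 1) :
    AltVB (VFD κ) (DD x) tKF tL pcF [⟨3, 0, 0, 1449551462⟩] 2 0 2 0 7 (sgb true) (sgb false) x :=
  strip_altVB (d := 1449551462) true rfl hκ (κ0 hκ hx) (x0 hx) hx' (covF02 hx hx') (covF72 hx hx') (x1 hx) (x2 hx') c_B07pm_202_s1 cutVB_nil (noExt_VB)

noncomputable def cut_B07pm_203_s1 : Cut := Cut.of [[⟨4, 0, 0, 1449551462⟩]]

noncomputable def f_B07pm_203_s1 : ℕ → ℕ → ℕ → ℕ → Bool := onCell 0 536870912 0 1230186008 1046898278 26843546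
    (rowFX 0 false true false .up 2 0 3 (qsf 0 536870912 0 1230186008 0) ndF0q2 ndF7q3 pcF0 cut_B07pm_203_s1 Ext.none)

def k0_B07pm_203_s1 : ∃ t, chk3 f_B07pm_203_s1 t 1 1 1 = true :=
  ⟨(b (l 2) (a (b (l 2) (b (b (l 2) (b (a (l 2) (l 2)) (a (c (a (c (c (l 16777216) (l 16777216)) (c (l 16777216) (l 16777216))) (l 228270800903)) (a (c (c (l 148813905927) (l 154182615047)) (a (b (l 16777216) (l 16777216)) (l 16777216))) (c (l 16777216) (l 16777216)))) (l 6)))) (a (a (b (c (a (b (c (l 16777216) (l 16777216)) (l 16777216)) (b (l 16777216) (l 16777216))) (a (b (c (l 16777216) (l 16777216)) (l 16777216)) (b (l 16777216) (l 16777216)))) (c (b (l 16777216) (l 16777216)) (b (l 16777216) (l 16777216)))) (b (b (c (l 16777216) (l 16777216)) (l 6)) (l 6))) (l 6)))) (b (l 2) (l 6)))), by decide +kernel⟩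

theorem c_B07pm_203_s1 : CertFX 0 536870912 0 1230186008 1046898278 26843546 false true false .up 2 0 3
    ndF0q2 ndF7q3 pcF0 cut_B07pm_203_s1 Ext.none :=
  certFX0 (fam := false) (s1 := true) (s2 := false) (a := 2) (b := 0) (c := 3) (cn := .up) (n1 := ndF0q2) (n2 := ndF7q3) (pc := pcF0) (cut := cut_B07pm_203_s1) (xt := Ext.none) (P1 := 0) (W1 := 536870912) (P2 := 0) (W2 := 1230186008) (P3 := 1046898278) (W3 := 26843546)
    rfl k0_B07pm_203_s1

theorem s_B07pm_203_s1 {κ x : ℝ} (hκ : κ * h0 = kenE x) (hx : 39 / 40 ≤ x) (hx' : x < 1) :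
    AltVB (VFD κ) (DD x) tKF tL pcF [⟨3, 0, 0, 1449551462⟩] 2 0 3 0 7 (sgb true) (sgb false) x :=
  strip_altVB (d := 1449551462) true rfl hκ (κ0 hκ hx) (x0 hx) hx' (covF02 hx hx') (covF73 hx hx') (x1 hx) (x2 hx') c_B07pm_203_s1 cutVB_nil (noExt_VB)

noncomputable def cut_B07pm_213_s1 : Cut := Cut.of [[⟨4, 0, 0, 1449551462⟩], [⟨0, 1, 0, 67108864⟩, ⟨1, 1, 0, 67108864⟩, ⟨2, 2, 0, 67108864⟩, ⟨3, 0, 0, 1233125376⟩]]

noncomputable def xt_B07pm_213_s1 : Ext := strExtY dd false true false .u2 .s2m .u0m .pnn 2 1 3 rfl rfl gf1 ge vv ndF0q2 ndF7q3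

noncomputable def f_B07pm_213_s1 : ℕ → ℕ → ℕ → ℕ → Bool := onCell 0 536870912 0 1230186008 1046898278 26843546
    (rowFX 0 false true false .pnn 2 1 3 (qsf 0 536870912 0 1230186008 1) ndF0q2 ndF7q3 pcF1 cut_B07pm_213_s1 xt_B07pm_213_s1)

def k0_B07pm_213_s1 : ∃ t, chk3 f_B07pm_213_s1 t 2 2 1 = true :=
  ⟨(b (l 3) (a (l 3) (a (b (l 3) (b (l 3) (b (l 3) (b (l 3) (l 536870927))))) (b (l 3) (c (b (c (l 536573199) (l 536569359)) (c (l 536824591) (l 536824079))) (b (c (l 536565263) (l 536561423)) (c (l 536823311) (l 536822799)))))))), by decide +kernel⟩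

def k1_B07pm_213_s1 : ∃ t, chk3 f_B07pm_213_s1 t 6 4 1 = true :=
  ⟨(a (l 3) (b (l 3) (b (l 3) (a (l 3) (c (a (l 527168783) (l 526796303)) (a (l 525478927) (l 524915983))))))), by decide +kernel⟩

def k2_B07pm_213_s1 : ∃ t, chk3 f_B07pm_213_s1 t 14 4 1 = true :=
  ⟨(a (b (l 3) (b (b (l 3) (c (c (a (l 527561999) (l 527259663)) (a (l 526298639) (l 525789199))) (c (a (l 525035279) (l 524318735)) (a (l 523771919) (l 522848527))))) (c (a (b (l 526594831) (l 526457359)) (b (c (a (l 526950671) (l 526764559)) (l 525488399)) (c (l 526524431) (l 16551344)))) (a (l 524240143) (b (c (l 524201743) (l 522915087)) (l 523745295)))))) (b (l 14) (c (a (a (b (b (c (l 527453775) (l 525471311)) (c (l 526566735) (l 524820815))) (b (c (l 16673536) (l 16659112)) (l 16592096))) (b (b (l 14) (c (l 526382927) (l 524457039))) (b (c (l 16638848) (l 16618496)) (l 16550488)))) (b (l 14) (b (a (l 16588120) (l 16545848)) (l 16481184)))) (a (b (b (a (c (l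 523488847) (l 521506383)) (l 14)) (c (c (l 523089999) (l 522163023)) (l 520772431))) (b (c (l 520512591) (l 520930127)) (c (l 16537032) (l 16514000)))) (b (l 14) (b (c (l 16519792) (l 16488040)) (l 16407816))))))), by decide +kernel⟩

def k3_B07pm_213_s1 : ∃ t, chk3 f_B07pm_213_s1 t 15 4 1 = true :=
  ⟨(b (a (l 14) (a (l 14) (a (l 14) (a (l 14) (b (l 14) (b (l 14) (c (l 16579776) (c (l 16571456) (l 15944232))))))))) (a (a (b (l 14) (c (b (l 16481128) (l 16381904)) (b (l 16375368) (l 16270456)))) (b (b (l 14) (b (l 14) (c (l 16492768) (l 16330968)))) (c (b (l 16485824) (l 16286352)) (b (l 16236192) (l 16124656))))) (b (a (b (a (l 14) (c (c (l 16569128) (l 16572696)) (l 16290232))) (c (c (l 16451264) (l 16409632)) (l 16180488))) (c (b (c (l 16545384) (a (l 16546440) (l 16532616))) (c (l 16497256) (l 16375392))) (b (c (a (l 16337504) (l 16406704)) (a (l 16010824) (l 15742496))) (c (a (l 16123760) (l 16059032)) (l 15731280)))))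 (c (a (b (c (l 16394448) (l 16255616)) (a (l 16206280) (l 16154392))) (b (a (b (l 16368680) (l 16256376)) (b (l 16454824) (l 16302376))) (a (l 16110824) (l 16097608)))) (a (b (l 16042072) (a (l 15986512) (l 15867616))) (b (a (l 15836512) (l 15650560)) (l 15646872))))))), by decide +kernel⟩

def k4_B07pm_213_s1 : ∃ t, chk3 f_B07pm_213_s1 t 6 5 1 = true :=
  ⟨(a (b (b (a (l 3) (b (l 3) (c (l 530605391) (l 530204751)))) (a (a (l 3) (c (l 536008207) (l 535985679))) (c (l 535904015) (l 535878671)))) (b (c (c (a (l 536390671) (l 536252175)) (l 536311823)) (c (l 536304655) (l 536297487))) (b (c (c (l 536589839) (l 536586255)) (l 536580879)) (c (a (l 536818959) (l 16771520)) (a (l 536817679) (l 16687488)))))) (b (a (a (b (b (l 3) (c (l 531266127) (l 530888271))) (c (a (l 532755343) (l 531158863)) (a (l 532712079) (l 530854991)))) (c (b (c (b (l 527897871) (l 528682703)) (l 526159823)) (b (l 531013199) (l 532581519))) (b (c (l 525793999)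 (b (l 525998351) (l 527700431))) (b (l 530656079) (l 532546703))))) (c (b (c (b (l 527319055) (a (l 528404431) (l 16636288))) (b (l 526588943) (a (l 528035791) (l 16626632)))) (b (a (l 530685519) (l 16591408)) (a (l 530819151) (l 16562032)))) (b (b (c (l 525858575) (l 525128463)) (c (l 525324751) (b (l 525477647) (l 16541512)))) (b (a (l 530224719) (l 16574248)) (a (l 530478927) (l 16553488)))))) (a (b (c (b (a (l 16746696) (l 16684976)) (l 16716648)) (a (c (l 16745640) (l 531165327)) (c (l 16684640) (l 16684160)))) (c (b (a (l 16747968) (l 16690384)) (l 16726456)) (b (a (l 16747344) (l 16689800)) (l 16726224)))) (b (b (b (c (l 16499696) (l 16499240)) (c (l 16580440) (l 16579784))) (c (l 16584792) (l 16584616))) (b (c (l 16589248) (l 16588144)) (l 16590664)))))), by decide +kernel⟩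

def k5_B07pm_213_s1 : ∃ t, chk3 f_B07pm_213_s1 t 7 5 1 = true :=
  ⟨(b (a (b (b (c (a (a (l 526482959) (c (l 16580552) (l 16562528))) (a (l 16495376) (l 16397728))) (a (a (l 524794127) (l 523552015)) (c (l 16398984) (l 16366360)))) (c (a (a (l 16571264) (l 16503560)) (a (l 16423032) (l 16319848))) (a (c (l 16512240) (l 16494800)) (a (l 16365568) (l 16240312))))) (a (c (c (b (l 16502008) (l 16468368)) (b (l 16486192) (l 16457080))) (c (b (l 16470376) (l 16445792)) (b (l 16454560) (l 16434504)))) (c (b (a (l 16373208) (l 16265616)) (l 16285128)) (b (a (l 16321744) (l 16195520)) (l 16237808))))) (a (b (c (b (a (l 16288768) (l 16265560)) (a (l 16204888) (l 16090336))) (b (a (l 16177152) (l 16029672)) (a (l 16097072) (l 15952264)))) (c (b (l 16093088) (l 16054152)) (l 15975496))) (b (c (a (l 15834992) (l 15872248)) (a (l 15801248) (c (l 15634128) (l 15480432)))) (a (c (l 15866752) (l 15740040)) (l 6))))) (a (b (a (b (a (c (b (l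 16480720) (l 16473208)) (b (l 16471504) (l 16469400))) (c (l 16403968) (l 16387480))) (c (l 16434792) (l 16430256))) (c (l 16256392) (l 16229872))) (a (c (l 16438432) (l 16433920)) (l 6))) (b (l 6) (l 6)))), by decide +kernel⟩

def k6_B07pm_213_s1 : ∃ t, chk3 f_B07pm_213_s1 t 2 6 1 = true :=
  ⟨(a (b (b (l 3) (a (l 3) (c (c (l 536870927) (l 536870927)) (c (l 536870927) (l 536870927))))) (b (a (a (l 3) (c (l 536870927) (l 536870927))) (c (c (l 536870927) (l 536870927)) (c (l 536870927) (l 536870927)))) (a (a (c (c (l 536870927) (l 536870927)) (c (l 536870927) (l 536870927))) (c (l 536870927) (l 536870927))) (a (c (l 536870927) (l 536870927)) (c (b (l 536870927) (a (l 536870927) (l 16777216))) (b (l 536870927) (b (l 536870927) (l 16777216)))))))) (b (a (c (b (l 536870927) (c (l 536870927) (l 536870927))) (b (l 536870927) (c (l 536870927) (l 536870927)))) (b (c (c (l 536870927) (l 536870927)) (c (l 536870927) (l 536870927)))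 (c (a (b (l 536870927) (c (l 16777216) (l 16777216))) (b (l 16777216) (l 16777216))) (a (b (l 536870927) (c (l 16777216) (l 16777216))) (b (l 16777216) (l 16777216)))))) (a (b (a (c (c (l 536870927) (l 536870927)) (c (l 536870927) (l 536870927))) (c (b (l 536870927) (c (l 16777216) (l 16777216))) (b (l 536870927) (c (l 16777216) (l 16777216))))) (c (b (c (l 16777216) (l 16777216)) (c (l 16777216) (l 16777216))) (c (b (a (l 16777216) (l 16777216)) (l 16777216)) (b (a (l 16777216) (l 16777216)) (l 16777216))))) (b (c (a (b (c (l 16777216) (l 16777216)) (c (l 16777216) (l 16777216))) (l 16777216)) (a (b (c (l 16777216) (l 16777216)) (c (l 16777216) (l 16777216))) (l 16777216))) (c (c (l 16777216) (l 16777216)) (c (l 16777216) (l 16777216))))))), by decide +kernel⟩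

def k7_B07pm_213_s1 : ∃ t, chk3 f_B07pm_213_s1 t 3 6 1 = true :=
  ⟨(a (b (c (a (b (a (b (l 16777216) (l 16777216)) (b (l 16776112) (l 16777216))) (a (b (l 16777216) (l 16777216)) (l 16777216))) (b (l 16662544) (l 16662232))) (a (b (a (b (l 16777216) (l 16777216)) (b (l 16776080) (l 16777216))) (a (b (l 16777216) (l 16777216)) (l 16777216))) (b (l 16660176) (l 16659256)))) (a (b (c (l 16777216) (l 16777216)) (l 6)) (l 6))) (b (l 6) (l 6))), by decide +kernel⟩

def k8_B07pm_213_s1 : ∃ t, chk3 f_B07pm_213_s1 t 1 7 1 = true :=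
  ⟨(a (b (a (b (a (a (c (c (c (l 536870927) (l 536870927)) (b (l 536870927) (l 536870927))) (c (b (l 536870927) (l 536870927)) (b (l 536870927) (l 536870927)))) (c (b (c (l 536870927) (l 536870927)) (a (l 536870927) (b (l 16777216) (l 16777216)))) (b (c (l 536870927) (l 536870927)) (a (l 536870927) (b (l 536870927) (l 16777216)))))) (c (b (a (c (l 16777216) (b (l 16777216) (l 16777216))) (c (l 16777216) (l 16777216))) (a (c (l 16777216) (l 16777216)) (l 16777216))) (b (a (a (l 536870927) (b (l 16777216) (l 16777216))) (c (l 16777216) (l 16777216))) (a (c (l 16777216) (l 16777216)) (l 16777216))))) (a (c (b (a (c (l 536870927) (l 536870927)) (c (l 16777216) (l 16777216))) (c (c (l 16777216) (l 16777216)) (c (l 16777216) (l 16777216)))) (b (a (c (l 536870927) (l 536870927)) (c (l 16777216) (l 16777216))) (a (b (a (l 536870927) (l 16777216)) (l 1)) (c (l 16777216) (l 16777216))))) (c (c (l 16777216) (l 16777216)) (c (l 16777216)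 (l 16777216))))) (a (b (c (c (l 16777216) (l 16777216)) (c (l 16777216) (l 16777216))) (c (l 16777216) (l 16777216))) (l 6))) (a (l 1) (l 6))) (l 6)), by decide +kernel⟩

theorem t9_B07pm_213_s1 : ∃ t, chk3 f_B07pm_213_s1 t 1 6 1 = true := ex3_a k6_B07pm_213_s1 k7_B07pm_213_s1

theorem t10_B07pm_213_s1 : ∃ t, chk3 f_B07pm_213_s1 t 1 3 1 = true := ex3_b t9_B07pm_213_s1 k8_B07pm_213_s1

theorem t11_B07pm_213_s1 : ∃ t, chk3 f_B07pm_213_s1 t 3 5 1 = true := ex3_a k4_B07pm_213_s1 k5_B07pm_213_s1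

theorem t12_B07pm_213_s1 : ∃ t, chk3 f_B07pm_213_s1 t 7 4 1 = true := ex3_a k2_B07pm_213_s1 k3_B07pm_213_s1

theorem t13_B07pm_213_s1 : ∃ t, chk3 f_B07pm_213_s1 t 3 4 1 = true := ex3_a k1_B07pm_213_s1 t12_B07pm_213_s1

theorem t14_B07pm_213_s1 : ∃ t, chk3 f_B07pm_213_s1 t 3 2 1 = true := ex3_b t13_B07pm_213_s1 t11_B07pm_213_s1

theorem t15_B07pm_213_s1 : ∃ t, chk3 f_B07pm_213_s1 t 1 2 1 = true := ex3_a k0_B07pm_213_s1 t14_B07pm_213_s1

theorem t16_B07pm_213_s1 : ∃ t, chk3 f_B07pm_213_s1 t 1 1 1 = true := ex3_b t15_B07pm_213_s1 t10_B07pm_213_s1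

theorem c_B07pm_213_s1 : CertFX 0 536870912 0 1230186008 1046898278 26843546 false true false .pnn 2 1 3
    ndF0q2 ndF7q3 pcF1 cut_B07pm_213_s1 xt_B07pm_213_s1 :=
  certFX0 (fam := false) (s1 := true) (s2 := false) (a := 2) (b := 1) (c := 3) (cn := .pnn) (n1 := ndF0q2) (n2 := ndF7q3) (pc := pcF1) (cut := cut_B07pm_213_s1) (xt := xt_B07pm_213_s1) (P1 := 0) (W1 := 536870912) (P2 := 0) (W2 := 1230186008) (P3 := 1046898278) (W3 := 26843546)
    rfl t16_B07pm_213_s1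

theorem s_B07pm_213_s1 {κ x : ℝ} (hκ : κ * h0 = kenE x) (hx : 39 / 40 ≤ x) (hx' : x < 1)
    (H : CutVB (VFD κ) (DD x) tKF tL pcF (Cut.of [[⟨0, 1, 0, 67108864⟩, ⟨1, 1, 0, 67108864⟩, ⟨2, 2, 0, 67108864⟩, ⟨3, 0, 0, 1233125376⟩]]) 2 1 3 0 7 (sgb true) (sgb false) x) :
    AltVB (VFD κ) (DD x) tKF tL pcF [⟨3, 0, 0, 1449551462⟩] 2 1 3 0 7 (sgb true) (sgb false) x :=
  strip_altVB (d := 1449551462) true rfl hκ (κ0 hκ hx) (x0 hx) hx' (covF02 hx hx') (covF73 hx hx') (x1 hx) (x2 hx') c_B07pm_213_s1 H ((ok hx hx').extB (T := tt) (sideF hx hx') hκ (κ0 hκ hx) rfl rfl (.O 2 true) (.N 3 false) (Or.inr rfl))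

noncomputable def cut_B07mm_001_s1 : Cut := Cut.of [[⟨4, 0, 0, 1449551462⟩]]

noncomputable def f_B07mm_001_s1 : ℕ → ℕ → ℕ → ℕ → Bool := onCell 0 536870912 536870912 536870912 1046898278 26843546
    (rowFX 0 false false false .up 0 0 1 (qsf 0 536870912 536870912 536870912 0) ndF0q0 ndF7q1 pcF0 cut_B07mm_001_s1 Ext.none)

def k0_B07mm_001_s1 : ∃ t, chk3 f_B07mm_001_s1 t 1 1 1 = true :=
  ⟨(a (l 5) (l 3)), by decide +kernel⟩

theorem c_B07mm_001_s1 : CertFX 0 536870912 536870912 536870912 1046898278 26843546 false false false .up 0 0 1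
    ndF0q0 ndF7q1 pcF0 cut_B07mm_001_s1 Ext.none :=
  certFX0 (fam := false) (s1 := false) (s2 := false) (a := 0) (b := 0) (c := 1) (cn := .up) (n1 := ndF0q0) (n2 := ndF7q1) (pc := pcF0) (cut := cut_B07mm_001_s1) (xt := Ext.none) (P1 := 0) (W1 := 536870912) (P2 := 536870912) (W2 := 536870912) (P3 := 1046898278) (W3 := 26843546)
    rfl k0_B07mm_001_s1

theorem s_B07mm_001_s1 {κ x : ℝ} (hκ : κ * h0 = kenE x) (hx : 39 / 40 ≤ x) (hx' : x < 1) :
    AltVB (VFD κ) (DD x) tKF tL pcF [⟨3, 0, 0, 1449551462⟩] 0 0 1 0 7 (sgb false) (sgb false) x :=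
  strip_altVB (d := 1449551462) true rfl hκ (κ0 hκ hx) (x0 hx) hx' (covF00 hx hx') (covF71 hx hx') (x1 hx) (x2 hx') c_B07mm_001_s1 cutVB_nil (noExt_VB)

noncomputable def cut_B07mm_011_s1 : Cut := Cut.of [[⟨4, 0, 0, 1449551462⟩]]

noncomputable def f_B07mm_011_s1 : ℕ → ℕ → ℕ → ℕ → Bool := onCell 0 536870912 536870912 536870912 1046898278 26843546
    (rowFX 0 false false false .pnn 0 1 1 (qsf 0 536870912 536870912 536870912 1) ndF0q0 ndF7q1 pcF1 cut_B07mm_011_s1 Ext.none)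

def k0_B07mm_011_s1 : ∃ t, chk3 f_B07mm_011_s1 t 1 1 1 = true :=
  ⟨(a (l 5) (l 3)), by decide +kernel⟩

theorem c_B07mm_011_s1 : CertFX 0 536870912 536870912 536870912 1046898278 26843546 false false false .pnn 0 1 1
    ndF0q0 ndF7q1 pcF1 cut_B07mm_011_s1 Ext.none :=
  certFX0 (fam := false) (s1 := false) (s2 := false) (a := 0) (b := 1) (c := 1) (cn := .pnn) (n1 := ndF0q0) (n2 := ndF7q1) (pc := pcF1) (cut := cut_B07mm_011_s1) (xt := Ext.none) (P1 := 0) (W1 := 536870912) (P2 := 536870912) (W2 := 536870912) (P3 := 1046898278) (W3 := 26843546)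
    rfl k0_B07mm_011_s1

theorem s_B07mm_011_s1 {κ x : ℝ} (hκ : κ * h0 = kenE x) (hx : 39 / 40 ≤ x) (hx' : x < 1) :
    AltVB (VFD κ) (DD x) tKF tL pcF [⟨3, 0, 0, 1449551462⟩] 0 1 1 0 7 (sgb false) (sgb false) x :=
  strip_altVB (d := 1449551462) true rfl hκ (κ0 hκ hx) (x0 hx) hx' (covF00 hx hx') (covF71 hx hx') (x1 hx) (x2 hx') c_B07mm_011_s1 cutVB_nil (noExt_VB)

noncomputable def cut_B07mm_012_s1 : Cut := Cut.of [[⟨4, 0, 0, 1449551462⟩]]

noncomputable def f_B07mm_012_s1 : ℕ → ℕ → ℕ → ℕ → Bool := onCell 0 536870912 1073741824 536870912 1046898278 26843546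
    (rowFX 0 false false false .pnp 0 1 2 (qsf 0 536870912 1073741824 536870912 1) ndF0q0 ndF7q2 pcF1 cut_B07mm_012_s1 Ext.none)

def k0_B07mm_012_s1 : ∃ t, chk3 f_B07mm_012_s1 t 1 1 1 = true :=
  ⟨(l 5), by decide +kernel⟩

theorem c_B07mm_012_s1 : CertFX 0 536870912 1073741824 536870912 1046898278 26843546 false false false .pnp 0 1 2
    ndF0q0 ndF7q2 pcF1 cut_B07mm_012_s1 Ext.none :=
  certFX0 (fam := false) (s1 := false) (s2 := false) (a := 0) (b := 1) (c := 2) (cn := .pnp) (n1 := ndF0q0) (n2 := ndF7q2) (pc := pcF1) (cut := cut_B07mm_012_s1) (xt := Ext.none) (P1 := 0) (W1 := 536870912) (P2 := 1073741824) (W2 := 536870912) (P3 := 1046898278) (W3 := 26843546)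
    rfl k0_B07mm_012_s1

theorem s_B07mm_012_s1 {κ x : ℝ} (hκ : κ * h0 = kenE x) (hx : 39 / 40 ≤ x) (hx' : x < 1) :
    AltVB (VFD κ) (DD x) tKF tL pcF [⟨3, 0, 0, 1449551462⟩] 0 1 2 0 7 (sgb false) (sgb false) x :=
  strip_altVB (d := 1449551462) true rfl hκ (κ0 hκ hx) (x0 hx) hx' (covF00 hx hx') (covF72 hx hx') (x1 hx) (x2 hx') c_B07mm_012_s1 cutVB_nil (noExt_VB)

noncomputable def cut_B07mm_022_s1 : Cut := Cut.of [[⟨4, 0, 0, 1449551462⟩]]

noncomputable def f_B07mm_022_s1 : ℕ → ℕ → ℕ → ℕ → Bool := onCell 0 536870912 1073741824 536870912 1046898278 26843546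
    (rowFX 0 false false false .pp 0 2 2 (qsf 0 536870912 1073741824 536870912 2) ndF0q0 ndF7q2 pcF2 cut_B07mm_022_s1 Ext.none)

def k0_B07mm_022_s1 : ∃ t, chk3 f_B07mm_022_s1 t 1 1 1 = true :=
  ⟨(l 5), by decide +kernel⟩

theorem c_B07mm_022_s1 : CertFX 0 536870912 1073741824 536870912 1046898278 26843546 false false false .pp 0 2 2
    ndF0q0 ndF7q2 pcF2 cut_B07mm_022_s1 Ext.none :=
  certFX0 (fam := false) (s1 := false) (s2 := false) (a := 0) (b := 2) (c := 2) (cn := .pp) (n1 := ndF0q0) (n2 := ndF7q2) (pc := pcF2) (cut := cut_B07mm_022_s1) (xt := Ext.none) (P1 := 0) (W1 := 536870912) (P2 := 1073741824) (W2 := 536870912) (P3 := 1046898278) (W3 := 26843546)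
    rfl k0_B07mm_022_s1

theorem s_B07mm_022_s1 {κ x : ℝ} (hκ : κ * h0 = kenE x) (hx : 39 / 40 ≤ x) (hx' : x < 1) :
    AltVB (VFD κ) (DD x) tKF tL pcF [⟨3, 0, 0, 1449551462⟩] 0 2 2 0 7 (sgb false) (sgb false) x :=
  strip_altVB (d := 1449551462) true rfl hκ (κ0 hκ hx) (x0 hx) hx' (covF00 hx hx') (covF72 hx hx') (x1 hx) (x2 hx') c_B07mm_022_s1 cutVB_nil (noExt_VB)

noncomputable def cut_B07mm_023_s1 : Cut := Cut.of [[⟨4, 0, 0, 1449551462⟩]]

noncomputable def f_B07mm_023_s1 : ℕ → ℕ → ℕ → ℕ → Bool := onCell 0 536870912 0 1230186008 1046898278 26843546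
    (rowFX 0 false false false .up 0 2 3 (qsf 0 536870912 0 1230186008 2) ndF0q0 ndF7q3 pcF2 cut_B07mm_023_s1 Ext.none)

def k0_B07mm_023_s1 : ∃ t, chk3 f_B07mm_023_s1 t 1 1 1 = true :=
  ⟨(l 5), by decide +kernel⟩

theorem c_B07mm_023_s1 : CertFX 0 536870912 0 1230186008 1046898278 26843546 false false false .up 0 2 3
    ndF0q0 ndF7q3 pcF2 cut_B07mm_023_s1 Ext.none :=
  certFX0 (fam := false) (s1 := false) (s2 := false) (a := 0) (b := 2) (c := 3) (cn := .up) (n1 := ndF0q0) (n2 := ndF7q3) (pc := pcF2) (cut := cut_B07mm_023_s1) (xt := Ext.none) (P1 := 0) (W1 := 536870912) (P2 := 0) (W2 := 1230186008) (P3 := 1046898278) (W3 := 26843546)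
    rfl k0_B07mm_023_s1

theorem s_B07mm_023_s1 {κ x : ℝ} (hκ : κ * h0 = kenE x) (hx : 39 / 40 ≤ x) (hx' : x < 1) :
    AltVB (VFD κ) (DD x) tKF tL pcF [⟨3, 0, 0, 1449551462⟩] 0 2 3 0 7 (sgb false) (sgb false) x :=
  strip_altVB (d := 1449551462) true rfl hκ (κ0 hκ hx) (x0 hx) hx' (covF00 hx hx') (covF73 hx hx') (x1 hx) (x2 hx') c_B07mm_023_s1 cutVB_nil (noExt_VB)

noncomputable def cut_B07mm_033_s1 : Cut := Cut.of [[⟨4, 0, 0, 1449551462⟩]]

noncomputable def f_B07mm_033_s1 : ℕ → ℕ → ℕ → ℕ → Bool := onCell 0 536870912 0 1230186008 1046898278 26843546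
    (rowFX 0 false false false .pnn 0 3 3 (qsf 0 536870912 0 1230186008 3) ndF0q0 ndF7q3 pcF3 cut_B07mm_033_s1 Ext.none)

def k0_B07mm_033_s1 : ∃ t, chk3 f_B07mm_033_s1 t 1 1 1 = true :=
  ⟨(l 5), by decide +kernel⟩

theorem c_B07mm_033_s1 : CertFX 0 536870912 0 1230186008 1046898278 26843546 false false false .pnn 0 3 3
    ndF0q0 ndF7q3 pcF3 cut_B07mm_033_s1 Ext.none :=
  certFX0 (fam := false) (s1 := false) (s2 := false) (a := 0) (b := 3) (c := 3) (cn := .pnn) (n1 := ndF0q0) (n2 := ndF7q3) (pc := pcF3) (cut := cut_B07mm_033_s1) (xt := Ext.none) (P1 := 0) (W1 := 536870912) (P2 := 0) (W2 := 1230186008) (P3 := 1046898278) (W3 := 26843546)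
    rfl k0_B07mm_033_s1

theorem s_B07mm_033_s1 {κ x : ℝ} (hκ : κ * h0 = kenE x) (hx : 39 / 40 ≤ x) (hx' : x < 1) :
    AltVB (VFD κ) (DD x) tKF tL pcF [⟨3, 0, 0, 1449551462⟩] 0 3 3 0 7 (sgb false) (sgb false) x :=
  strip_altVB (d := 1449551462) true rfl hκ (κ0 hκ hx) (x0 hx) hx' (covF00 hx hx') (covF73 hx hx') (x1 hx) (x2 hx') c_B07mm_033_s1 cutVB_nil (noExt_VB)

noncomputable def cut_B07mm_101_s1 : Cut := Cut.of [[⟨4, 0, 0, 1449551462⟩], [⟨0, 1, 0, 67108864⟩, ⟨1, 0, 0, 67108864⟩, ⟨2, 1, 0, 67108864⟩]]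

noncomputable def f_B07mm_101_s1 : ℕ → ℕ → ℕ → ℕ → Bool := onCell 536870912 536870912 536870912 536870912 1046898278 26843546
    (rowFX 0 false false false .npn 1 0 1 (qsf 536870912 536870912 536870912 536870912 0) ndF0q1 ndF7q1 pcF0 cut_B07mm_101_s1 Ext.none)

def k0_B07mm_101_s1 : ∃ t, chk3 f_B07mm_101_s1 t 1 1 1 = true :=
  ⟨(a (l 3) (b (a (b (l 1) (a (l 3) (l 1))) (l 1)) (a (l 3) (b (a (a (l 3) (l 1)) (l 1)) (a (l 3) (b (a (a (l 3) (l 1)) (l 1)) (a (l 3) (b (b (l 1) (l 14)) (l 14))))))))), by decide +kernel⟩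

theorem c_B07mm_101_s1 : CertFX 536870912 536870912 536870912 536870912 1046898278 26843546 false false false .npn 1 0 1
    ndF0q1 ndF7q1 pcF0 cut_B07mm_101_s1 Ext.none :=
  certFX0 (fam := false) (s1 := false) (s2 := false) (a := 1) (b := 0) (c := 1) (cn := .npn) (n1 := ndF0q1) (n2 := ndF7q1) (pc := pcF0) (cut := cut_B07mm_101_s1) (xt := Ext.none) (P1 := 536870912) (W1 := 536870912) (P2 := 536870912) (W2 := 536870912) (P3 := 1046898278) (W3 := 26843546)
    rfl k0_B07mm_101_s1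

theorem s_B07mm_101_s1 {κ x : ℝ} (hκ : κ * h0 = kenE x) (hx : 39 / 40 ≤ x) (hx' : x < 1)
    (H : CutVB (VFD κ) (DD x) tKF tL pcF (Cut.of [[⟨0, 1, 0, 67108864⟩, ⟨1, 0, 0, 67108864⟩, ⟨2, 1, 0, 67108864⟩]]) 1 0 1 0 7 (sgb false) (sgb false) x) :
    AltVB (VFD κ) (DD x) tKF tL pcF [⟨3, 0, 0, 1449551462⟩] 1 0 1 0 7 (sgb false) (sgb false) x :=
  strip_altVB (d := 1449551462) true rfl hκ (κ0 hκ hx) (x0 hx) hx' (covF01 hx hx') (covF71 hx hx') (x1 hx) (x2 hx') c_B07mm_101_s1 H (noExt_VB)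

noncomputable def cut_B07mm_102_s1 : Cut := Cut.of [[⟨4, 0, 0, 1449551462⟩], [⟨0, 1, 0, 67108864⟩, ⟨1, 0, 0, 67108864⟩, ⟨2, 1, 0, 67108864⟩]]

noncomputable def f_B07mm_102_s1 : ℕ → ℕ → ℕ → ℕ → Bool := onCell 536870912 536870912 1073741824 536870912 1046898278 26843546
    (rowFX 0 false false false .npp 1 0 2 (qsf 536870912 536870912 1073741824 536870912 0) ndF0q1 ndF7q2 pcF0 cut_B07mm_102_s1 Ext.none)

def k0_B07mm_102_s1 : ∃ t, chk3 f_B07mm_102_s1 t 1 1 1 = true :=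
  ⟨(a (l 3) (b (a (l 3) (b (a (l 3) (b (b (a (l 3) (a (l 3) (l 14))) (l 3)) (l 3))) (l 3))) (l 3))), by decide +kernel⟩

theorem c_B07mm_102_s1 : CertFX 536870912 536870912 1073741824 536870912 1046898278 26843546 false false false .npp 1 0 2
    ndF0q1 ndF7q2 pcF0 cut_B07mm_102_s1 Ext.none :=
  certFX0 (fam := false) (s1 := false) (s2 := false) (a := 1) (b := 0) (c := 2) (cn := .npp) (n1 := ndF0q1) (n2 := ndF7q2) (pc := pcF0) (cut := cut_B07mm_102_s1) (xt := Ext.none) (P1 := 536870912) (W1 := 536870912) (P2 := 1073741824) (W2 := 536870912) (P3 := 1046898278) (W3 := 26843546)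
    rfl k0_B07mm_102_s1

theorem s_B07mm_102_s1 {κ x : ℝ} (hκ : κ * h0 = kenE x) (hx : 39 / 40 ≤ x) (hx' : x < 1)
    (H : CutVB (VFD κ) (DD x) tKF tL pcF (Cut.of [[⟨0, 1, 0, 67108864⟩, ⟨1, 0, 0, 67108864⟩, ⟨2, 1, 0, 67108864⟩]]) 1 0 2 0 7 (sgb false) (sgb false) x) :
    AltVB (VFD κ) (DD x) tKF tL pcF [⟨3, 0, 0, 1449551462⟩] 1 0 2 0 7 (sgb false) (sgb false) x :=
  strip_altVB (d := 1449551462) true rfl hκ (κ0 hκ hx) (x0 hx) hx' (covF01 hx hx') (covF72 hx hx') (x1 hx) (x2 hx') c_B07mm_102_s1 H (noExt_VB)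

noncomputable def cut_B07mm_112_s1 : Cut := Cut.of [[⟨4, 0, 0, 1449551462⟩]]

noncomputable def f_B07mm_112_s1 : ℕ → ℕ → ℕ → ℕ → Bool := onCell 536870912 536870912 1073741824 536870912 1046898278 26843546
    (rowFX 0 false false false .dn 1 1 2 (qsf 536870912 536870912 1073741824 536870912 1) ndF0q1 ndF7q2 pcF1 cut_B07mm_112_s1 Ext.none)

def k0_B07mm_112_s1 : ∃ t, chk3 f_B07mm_112_s1 t 1 1 1 = true :=
  ⟨(a (l 3) (b (a (l 3) (l 1)) (l 3))), by decide +kernel⟩

theorem c_B07mm_112_s1 : CertFX 536870912 536870912 1073741824 536870912 1046898278 26843546 false false false .dn 1 1 2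
    ndF0q1 ndF7q2 pcF1 cut_B07mm_112_s1 Ext.none :=
  certFX0 (fam := false) (s1 := false) (s2 := false) (a := 1) (b := 1) (c := 2) (cn := .dn) (n1 := ndF0q1) (n2 := ndF7q2) (pc := pcF1) (cut := cut_B07mm_112_s1) (xt := Ext.none) (P1 := 536870912) (W1 := 536870912) (P2 := 1073741824) (W2 := 536870912) (P3 := 1046898278) (W3 := 26843546)
    rfl k0_B07mm_112_s1

theorem s_B07mm_112_s1 {κ x : ℝ} (hκ : κ * h0 = kenE x) (hx : 39 / 40 ≤ x) (hx' : x < 1) :
    AltVB (VFD κ) (DD x) tKF tL pcF [⟨3, 0, 0, 1449551462⟩] 1 1 2 0 7 (sgb false) (sgb false) x :=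
  strip_altVB (d := 1449551462) true rfl hκ (κ0 hκ hx) (x0 hx) hx' (covF01 hx hx') (covF72 hx hx') (x1 hx) (x2 hx') c_B07mm_112_s1 cutVB_nil (noExt_VB)

noncomputable def cut_B07mm_113_s1 : Cut := Cut.of [[⟨4, 0, 0, 1449551462⟩]]

noncomputable def f_B07mm_113_s1 : ℕ → ℕ → ℕ → ℕ → Bool := onCell 536870912 536870912 0 1230186008 1046898278 26843546
    (rowFX 0 false false false .nn 1 1 3 (qsf 536870912 536870912 0 1230186008 1) ndF0q1 ndF7q3 pcF1 cut_B07mm_113_s1 Ext.none)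

def k0_B07mm_113_s1 : ∃ t, chk3 f_B07mm_113_s1 t 1 1 1 = true :=
  ⟨(b (l 5) (a (l 5) (b (a (l 5) (l 3)) (l 3)))), by decide +kernel⟩

theorem c_B07mm_113_s1 : CertFX 536870912 536870912 0 1230186008 1046898278 26843546 false false false .nn 1 1 3
    ndF0q1 ndF7q3 pcF1 cut_B07mm_113_s1 Ext.none :=
  certFX0 (fam := false) (s1 := false) (s2 := false) (a := 1) (b := 1) (c := 3) (cn := .nn) (n1 := ndF0q1) (n2 := ndF7q3) (pc := pcF1) (cut := cut_B07mm_113_s1) (xt := Ext.none) (P1 := 536870912) (W1 := 536870912) (P2 := 0) (W2 := 1230186008) (P3 := 1046898278) (W3 := 26843546)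
    rfl k0_B07mm_113_s1

theorem s_B07mm_113_s1 {κ x : ℝ} (hκ : κ * h0 = kenE x) (hx : 39 / 40 ≤ x) (hx' : x < 1) :
    AltVB (VFD κ) (DD x) tKF tL pcF [⟨3, 0, 0, 1449551462⟩] 1 1 3 0 7 (sgb false) (sgb false) x :=
  strip_altVB (d := 1449551462) true rfl hκ (κ0 hκ hx) (x0 hx) hx' (covF01 hx hx') (covF73 hx hx') (x1 hx) (x2 hx') c_B07mm_113_s1 cutVB_nil (noExt_VB)

noncomputable def cut_B07mm_123_s1 : Cut := Cut.of [[⟨4, 0, 0, 1449551462⟩]]

noncomputable def f_B07mm_123_s1 : ℕ → ℕ → ℕ → ℕ → Bool := onCell 536870912 536870912 0 1230186008 1046898278 26843546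
    (rowFX 0 false false false .npn 1 2 3 (qsf 536870912 536870912 0 1230186008 2) ndF0q1 ndF7q3 pcF2 cut_B07mm_123_s1 Ext.none)

def k0_B07mm_123_s1 : ∃ t, chk3 f_B07mm_123_s1 t 1 1 1 = true :=
  ⟨(a (l 5) (b (l 5) (a (b (l 5) (l 1)) (l 3)))), by decide +kernel⟩

theorem c_B07mm_123_s1 : CertFX 536870912 536870912 0 1230186008 1046898278 26843546 false false false .npn 1 2 3
    ndF0q1 ndF7q3 pcF2 cut_B07mm_123_s1 Ext.none :=
  certFX0 (fam := false) (s1 := false) (s2 := false) (a := 1) (b := 2) (c := 3) (cn := .npn) (n1 := ndF0q1) (n2 := ndF7q3) (pc := pcF2) (cut := cut_B07mm_123_s1) (xt := Ext.none) (P1 := 536870912) (W1 := 536870912) (P2 := 0) (W2 := 1230186008) (P3 := 1046898278) (W3 := 26843546)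
    rfl k0_B07mm_123_s1

theorem s_B07mm_123_s1 {κ x : ℝ} (hκ : κ * h0 = kenE x) (hx : 39 / 40 ≤ x) (hx' : x < 1) :
    AltVB (VFD κ) (DD x) tKF tL pcF [⟨3, 0, 0, 1449551462⟩] 1 2 3 0 7 (sgb false) (sgb false) x :=
  strip_altVB (d := 1449551462) true rfl hκ (κ0 hκ hx) (x0 hx) hx' (covF01 hx hx') (covF73 hx hx') (x1 hx) (x2 hx') c_B07mm_123_s1 cutVB_nil (noExt_VB)

noncomputable def cut_B07mm_133_s1 : Cut := Cut.of [[⟨4, 0, 0, 1449551462⟩]]

noncomputable def f_B07mm_133_s1 : ℕ → ℕ → ℕ → ℕ → Bool := onCell 536870912 536870912 0 1230186008 1046898278 26843546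
    (rowFX 0 false false false .dn 1 3 3 (qsf 536870912 536870912 0 1230186008 3) ndF0q1 ndF7q3 pcF3 cut_B07mm_133_s1 Ext.none)

def k0_B07mm_133_s1 : ∃ t, chk3 f_B07mm_133_s1 t 1 1 1 = true :=
  ⟨(b (l 5) (l 1)), by decide +kernel⟩

theorem c_B07mm_133_s1 : CertFX 536870912 536870912 0 1230186008 1046898278 26843546 false false false .dn 1 3 3
    ndF0q1 ndF7q3 pcF3 cut_B07mm_133_s1 Ext.none :=
  certFX0 (fam := false) (s1 := false) (s2 := false) (a := 1) (b := 3) (c := 3) (cn := .dn) (n1 := ndF0q1) (n2 := ndF7q3) (pc := pcF3) (cut := cut_B07mm_133_s1) (xt := Ext.none) (P1 := 536870912) (W1 := 536870912) (P2 := 0) (W2 := 1230186008) (P3 := 1046898278) (W3 := 26843546)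
    rfl k0_B07mm_133_s1

theorem s_B07mm_133_s1 {κ x : ℝ} (hκ : κ * h0 = kenE x) (hx : 39 / 40 ≤ x) (hx' : x < 1) :
    AltVB (VFD κ) (DD x) tKF tL pcF [⟨3, 0, 0, 1449551462⟩] 1 3 3 0 7 (sgb false) (sgb false) x :=
  strip_altVB (d := 1449551462) true rfl hκ (κ0 hκ hx) (x0 hx) hx' (covF01 hx hx') (covF73 hx hx') (x1 hx) (x2 hx') c_B07mm_133_s1 cutVB_nil (noExt_VB)

end Pool.Agent.Strip051.G.IE1.Tab.St.C
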