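import Pool.Agent.Strip051.G.IE1.Tab

/-! # Certificates F24 (generated) -/

set_option linter.all false
set_option maxRecDepth 100000

namespace Pool.Agent.Strip051.G.IE1.Tab.C.FB00

open Pool.Agent.Strip051.PB Pool.Agent.Strip051.PB.T
open Pool.Agent.Strip051.G.IE1.Tab

noncomputable def cut_pm_022 : Cut := Cut.of [[⟨3, 0, 0, 1449551462⟩], [⟨4, 0, 0, 2845415833⟩], [⟨0, 0, 0, 67108864⟩, ⟨1, 1, 0, 67108864⟩, ⟨2, 1, 0, 67108864⟩]]

noncomputable def f_pm_022 : ℕ → ℕ → ℕ → ℕ → Bool := onCell 0 536870912 0 536870912 1046898278 26843546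
    (rowFX 0 false true false .pp 0 2 2 (qsf 0 536870912 0 536870912 2) ndF0q0 ndF0q2 pcF2 cut_pm_022 Ext.none)

def k0_pm_022 : ∃ t, chk3 f_pm_022 t 8 4 1 = true :=
  ⟨(a (b (a (c (b (a (l 16150032) (a (l 16294656) (a (l 16366504) (b (l 16411368) (l 16376016))))) (a (b (l 16144896) (l 16158280)) (a (b (l 16288280) (l 16297952)) (b (a (l 16359144) (l 16381904)) (b (a (l 16359440) (l 16368584)) (l 16363416)))))) (a (b (c (l 16143208) (l 16148984)) (c (l 16145544) (l 16046472))) (b (c (a (l 16296568) (a (l 16378448) (l 16401304))) (a (l 16316840) (l 16297024))) (a (c (l 16295040) (l 16294288)) (b (c (a (l 16370888) (l 16400648)) (l 16407000)) (a (c (l 16351088) (l 16395704)) (l 16383672))))))) (c (b (c (l 16378744) (l 16400504)) (c (b (l 16353240) (l 16336976)) (b (l 16374568) (l 16358024)))) (c (b (l 16429136) (c (l 16366200) (l 16399096))) (b (l 16439512) (l 16403968))))) (c (a (b (a (l 16201232) (b (l 16254216) (l 16325304))) (a (b (l 16253200) (l 16288632)) (b (l 16350296) (l 16348328))))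 (c (b (l 16332224) (l 16333112)) (b (l 16353144) (l 16353944)))) (a (b (a (c (l 16195456) (l 16201936)) (c (a (l 16331008) (l 16374808)) (a (l 16351704) (l 16395080)))) (a (c (l 16265112) (l 16167688)) (c (l 16357360) (l 16376984)))) (c (b (l 16380936) (l 16381648)) (l 16389080))))) (b (c (c (a (b (l 16360720) (l 16329592)) (b (l 16363064) (l 16334560))) (a (b (l 16393824) (l 16341184)) (l 16364448))) (c (b (l 16392456) (l 16362400)) (b (l 16390640) (l 16360080)))) (c (b (a (c (b (l 16316944) (l 16326736)) (l 16312232)) (c (b (l 16254488) (l 16331488)) (l 16339520))) (c (a (l 16341936) (l 16359040)) (a (l 16374552) (l 16374848)))) (b (b (a (l 16364400) (l 16327656)) (l 16362576)) (c (l 16381024) (l 16378856)))))), by decide +kernel⟩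

def k1_pm_022 : ∃ t, chk3 f_pm_022 t 9 4 1 = true :=
  ⟨(b (a (c (a (b (c (l 16356528) (l 16354952)) (c (l 16314432) (l 16333448))) (b (l 16455328) (l 16450296))) (a (b (l 16350504) (a (l 16323344) (l 16331720))) (b (l 16451776) (l 16446520)))) (c (b (l 16379760) (a (l 16571480) (l 16451880))) (b (a (l 16577952) (l 16471720)) (b (l 16407984) (l 16400136))))) (a (b (c (a (b (a (l 16310128) (l 16326656)) (a (l 16322976) (l 16345248))) (b (l 16448944) (l 16399952))) (a (b (a (l 16301544) (l 16319400)) (l 16328048)) (b (l 16445056) (l 16459000)))) (c (a (c (a (l 16368536) (l 16411360)) (l 16366136)) (l 16423032)) (a (l 16299384) (l 16503112)))) (b (c (a (b (l 16565592) (l 16554040)) (l 16424000)) (a (b (l 16564936) (l 16511352)) (l 16335040))) (c (a (l 16465568) (b (l 16387552) (l 16325728))) (a (l 16423016) (b (l 16340416) (l 16321216))))))), by decide +kernel⟩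

def k2_pm_022 : ∃ t, chk3 f_pm_022 t 4 5 1 = true :=
  ⟨(a (b (a (c (b (a (a (b (l 16295216) (l 16334040)) (l 16342336)) (l 16311320)) (a (l 16342904) (l 16327752))) (a (b (a (c (l 16274120) (a (l 16285664) (l 16353008))) (l 16284920)) (c (l 16348480) (l 16301376))) (c (b (l 16388096) (l 16383696)) (l 16403464)))) (c (a (c (b (l 16365880) (l 16396432)) (b (l 16398752) (l 16429352))) (b (c (l 16358928) (l 16414536)) (c (a (l 16436512) (l 16470400)) (l 16469400)))) (b (a (l 16414720) (l 16410808)) (a (l 16445816) (l 16466768))))) (b (a (c (a (l 16356200) (l 16293456)) (a (c (l 16361776) (l 16335656)) (c (l 16433664) (l 16443440)))) (c (a (c (l 16441400) (l 16468952)) (c (a (l 16481704) (l 16545280)) (l 16505160))) (a (l 16486064) (l 16461968)))) (a (c (a (l 16389296) (c (l 16406552) (l 16448336))) (a (c (l 16374304) (a (l 16383336) (l 16429576))) (c (l 16392896) (l 16486976)))) (c (a (c (a (l 16473184) (b (l 16504384) (l 16532176))) (a (l 16503896) (l 16426368))) (c (b (l 16457768) (l 16318896))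 (l 16366216))) (a (b (l 16527944) (l 16425400)) (l 16433816)))))) (b (a (c (a (b (a (l 16398032) (l 16500464)) (l 16490456)) (b (l 16516352) (l 16323840))) (b (l 16332480) (l 16318768))) (c (b (l 16136104) (l 15972216)) (b (c (l 16219952) (l 16259352)) (c (l 16118272) (l 16139048))))) (c (a (a (b (c (l 16379736) (l 16433616)) (c (l 16241368) (l 16215072))) (b (c (l 16286184) (l 16295480)) (c (l 16162496) (l 16128224)))) (b (a (l 16129536) (l 15975872)) (c (l 15840064) (l 15812152)))) (a (b (c (l 16214176) (l 16317304)) (c (a (l 16325136) (l 16158616)) (l 16221432))) (b (c (l 15862720) (l 15968216)) (c (a (l 15997128) (l 15826704)) (a (l 16000552) (l 15822448)))))))), by decide +kernel⟩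

def k3_pm_022 : ∃ t, chk3 f_pm_022 t 5 2 1 = true :=
  ⟨(a (a (b (b (c (b (c (l 16356152) (l 16352312)) (c (l 16307048) (l 16302544))) (b (c (l 16348464) (l 16344624)) (c (l 16298048) (l 16293552)))) (b (c (c (l 16256504) (l 16251320)) (c (l 16246144) (l 16240960))) (c (b (a (l 16268360) (l 16145840)) (a (l 16211456) (l 16100072))) (b (a (l 16216904) (l 16132432)) (a (l 16201560) (l 16085568)))))) (b (c (b (l 16033784) (l 15918552)) (b (c (l 16043640) (l 16037360)) (l 70361389143))) (c (b (l 15778256) (l 719974717847)) (b (l 15526152) (l 615284774103))))) (b (b (l 1) (l 1)) (l 1))) (l 1)), by decide +kernel⟩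

def k4_pm_022 : ∃ t, chk3 f_pm_022 t 3 2 1 = true :=
  ⟨(l 1), by decide +kernel⟩

def k5_pm_022 : ∃ t, chk3 f_pm_022 t 16 12 1 = true :=
  ⟨(c (b (a (b (l 16427992) (l 16438208)) (c (b (l 16449960) (a (l 16488584) (b (l 16513912) (l 16494680)))) (a (l 16460560) (b (l 16507688) (l 16482168))))) (a (c (b (l 16474264) (c (l 16450184) (l 16534328))) (b (l 16494336) (l 16534648))) (c (b (a (b (l 16518528) (l 16524976)) (b (a (l 16546632) (l 16557472)) (l 16439992))) (a (b (a (l 16561136) (c (l 16543176) (l 16569568))) (a (c (l 16519704) (l 16576456)) (l 16477864))) (c (l 16452888) (l 16442544)))) (a (b (l 16536736) (a (l 16528560) (l 16493088))) (b (c (l 16473416) (l 16455560)) (l 16413320)))))) (a (a (b (c (l 16428648) (l 16332672)) (c (l 16479792) (c (l 16504680) (l 16460856)))) (b (c (l 16422880) (l 16464096)) (c (l 16432024) (l 16432032)))) (b (c (a (l 16447848) (b (l 16538152) (l 16535416))) (l 16463552)) (c (a (b (l 16482680) (c (a (l 16567352) (l 16512240)) (a (l 16550496) (l 16498032))))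 (b (c (l 16438896) (l 16514488)) (l 16427944))) (b (a (l 16557792) (l 16514072)) (a (l 16462432) (l 16462336))))))), by decide +kernel⟩

def k6_pm_022 : ∃ t, chk3 f_pm_022 t 17 12 1 = true :=
  ⟨(c (b (a (c (a (b (l 16468680) (l 16413232)) (c (l 16423320) (l 16375272))) (a (b (l 16475592) (l 16440224)) (c (l 16364472) (l 16466248)))) (c (a (b (l 16384120) (l 16299160)) (c (l 16223208) (l 16305568))) (b (l 16366936) (l 16242272)))) (a (c (b (c (l 16330288) (l 16286056)) (a (c (l 16412184) (l 16375976)) (c (l 16324120) (l 16316888)))) (c (b (c (l 16326648) (l 16321176)) (a (l 16349704) (l 16232112))) (a (l 16369600) (l 16285480)))) (c (b (c (a (l 16296728) (l 16188432)) (a (l 16289888) (l 16204328))) (c (a (l 16209072) (a (l 16078016) (l 16094760))) (a (c (l 16198336) (l 16214520)) (l 16134752)))) (b (c (l 16214976) (l 16268568)) (c (l 16079880) (a (l 16238760) (l 16157528))))))) (b (a (a (b (l 16543448) (l 16459912)) (l 16422608)) (c (l 16367232) (l 16363576))) (c (a (l 16322712) (c (b (l 16274136)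 (l 16186968)) (l 16243376))) (l 16123280)))), by decide +kernel⟩

def k7_pm_022 : ∃ t, chk3 f_pm_022 t 8 52 1 = true :=
  ⟨(a (c (a (c (b (a (l 16554008) (c (a (l 16580360) (l 16499136)) (l 16557872))) (a (l 16533072) (a (c (l 16565136) (l 16570920)) (c (l 16520576) (l 16562896))))) (a (l 16550592) (b (l 16558552) (a (l 16570520) (l 16585424))))) (c (a (b (b (a (l 16486600) (l 16496360)) (l 16460200)) (c (l 16492272) (l 16490184))) (c (l 16379544) (b (l 16439344) (l 16452152)))) (a (b (l 16474064) (l 16494544)) (c (b (l 16444968) (l 16435624)) (l 16427920))))) (a (c (a (l 16550440) (a (l 16534640) (b (l 16541832) (l 16527488)))) (a (c (l 16554688) (l 16521584)) (c (a (l 16578024) (l 16485248)) (l 16472728)))) (c (a (c (l 16455288) (l 16418608)) (c (l 16430984) (l 16421696))) (l 16372464)))) (c (a (c (c (b (a (l 16363776) (l 16275768)) (a (l 16355584) (l 16268072))) (a (b (l 16367744) (l 16358032)) (b (l 16265632) (l 16256152)))) (c (a (b (l 16346016) (l 16358160)) (b (l 16223088) (l 16191016)))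 (a (c (l 16296944) (l 16353336)) (l 16170704)))) (c (c (a (b (l 16098400) (a (l 16199296) (l 16150408))) (b (a (c (l 16115104) (l 16103856)) (c (l 16068888) (l 16064536))) (a (c (l 16107976) (l 16095328)) (l 16061448)))) (a (b (c (l 16106736) (l 16163208)) (a (l 16181784) (l 16133728))) (b (l 16084848) (l 16076344)))) (c (b (l 16068288) (l 16078656)) (b (a (l 16186464) (l 16101520)) (l 16091616))))) (c (a (b (l 16312528) (l 16308216)) (c (b (l 16136112) (l 16063280)) (l 16136496))) (l 16084656)))), by decide +kernel⟩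

def k8_pm_022 : ∃ t, chk3 f_pm_022 t 8 53 1 = true :=
  ⟨(a (a (a (b (c (c (c (l 16496816) (l 16544080)) (l 16543608)) (c (l 16543216) (c (l 16547296) (l 16514072)))) (l 14)) (a (b (c (c (c (a (l 16542816) (l 16565448)) (a (l 16564760) (l 16577544))) (l 16548808)) (c (l 16533280) (c (l 16550640) (l 16590296)))) (l 14)) (c (c (c (l 16517168) (l 16517768)) (l 16572952)) (c (l 16535448) (l 16558624))))) (c (c (a (c (l 16465936) (b (l 16488768) (l 16464960))) (c (b (l 16434216) (l 16409952)) (l 16403128))) (c (a (a (l 16542760) (l 16477760)) (b (l 16413672) (l 16389760))) (a (l 16516408) (c (l 16455880) (l 16446232))))) (c (c (a (l 16502040) (l 16432632)) (l 16360880)) (l 16459264)))) (c (a (c (a (c (b (l 16331408) (l 16307904)) (b (l 16352624) (l 16327224))) (c (b (l 16265496) (l 16221248)) (b (l 16209720) (a (l 16273504) (l 16222736))))) (c (a (b (l 16331920) (l 16325664)) (c (a (l 16266744) (l 16170296)) (a (l 16263248) (l 16214896)))) (a (c (a (l 16375896) (l 16320232)) (a (l 16371840) (l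 16323160))) (b (l 16255072) (l 16248184))))) (c (c (a (b (a (l 16195984) (l 16147656)) (a (c (l 16198272) (l 16188728)) (c (l 16154480) (l 16138888)))) (a (c (l 16107944) (b (l 16093176) (l 16093240))) (c (b (l 16063736) (l 16064504)) (l 16057640)))) (a (c (a (l 16178472) (b (l 16129720) (l 16126376))) (a (l 16168368) (l 16125968))) (b (l 16073480) (l 16071984)))) (c (a (b (l 16153104) (l 16147976)) (l 16074816)) (a (b (l 16166976) (l 16159320)) (l 16081208))))) (c (a (c (a (l 16347952) (c (l 16264400) (l 16269552))) (l 16307536)) (c (a (b (l 16182920) (l 16177008)) (l 16092256)) (a (l 16186000) (l 16104776)))) (a (l 16304480) (l 16147856))))), by decide +kernel⟩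

def k9_pm_022 : ∃ t, chk3 f_pm_022 t 16 27 1 = true :=
  ⟨(b (b (a (l 14) (c (c (a (c (l 16481280) (l 16482088)) (c (l 16386336) (l 16437152))) (c (a (a (l 14) (l 16499472)) (a (l 16474600) (l 16423744))) (a (l 16521816) (c (l 16410104) (l 16448576))))) (c (c (a (l 16507080) (l 16435440)) (l 16364648)) (l 16462936)))) (l 14)) (l 14)), by decide +kernel⟩

def k10_pm_022 : ∃ t, chk3 f_pm_022 t 17 54 1 = true :=
  ⟨(c (a (c (a (c (b (l 16295688) (a (l 16367752) (c (l 16329176) (l 16326008)))) (b (a (l 16368416) (l 16319816)) (a (l 16344224) (l 16317392)))) (c (b (a (l 16284408) (l 16238048)) (a (a (l 16294328) (l 16271144)) (c (l 16242424) (l 16232752)))) (b (a (l 16270688) (l 16219952)) (a (l 16268528) (c (l 16223472) (l 16212000)))))) (a (c (a (b (l 16368520) (l 16362336)) (c (l 16270192) (l 16307240))) (c (a (l 16365392) (l 16284552)) (a (b (l 16365688) (l 16361712)) (l 16312984)))) (c (a (c (b (l 16258368) (l 16254856)) (b (l 16252968) (l 16247512))) (c (b (l 16205304) (l 16202376)) (l 16203864)))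 (b (l 16220672) (l 16213008))))) (c (a (c (a (b (c (l 16198496) (l 16187328)) (c (l 16201248) (l 16188432))) (c (l 16163128) (l 16140752))) (a (c (b (l 16173776) (l 16173144)) (b (l 16163040) (a (l 16171080) (l 16127104)))) (c (b (l 16125296) (l 16126768)) (l 16121640)))) (c (a (c (l 16111384) (b (l 16094896) (l 16096976))) (c (b (l 16065664) (a (l 16055704) (l 16035288))) (l 16059896))) (b (l 16072032) (l 16073640)))) (c (a (b (l 16143848) (l 16141368)) (b (l 16070872) (l 16070672))) (a (b (l 16153008) (l 16148488)) (b (l 16072440) (l 16070264)))))) (c (a (c (a (c (b (l 16347064) (l 16341864)) (l 16347968)) (b (l 16258736) (c (l 16248680) (l 16258304)))) (b (l 16307072) (l 16261800))) (c (a (b (l 16168840) (l 16160864)) (b (l 16080784) (l 16074176))) (a (c (l 16176528) (l 16181808)) (c (l 16085904) (l 16093048))))) (a (l 16303776) (c (a (l 16183312) (l 16097552)) (l 16139040))))), by decide +kernel⟩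

def k11_pm_022 : ∃ t, chk3 f_pm_022 t 17 55 1 = true :=
  ⟨(a (b (b (a (l 14) (c (c (c (a (c (l 16286544) (l 16277960)) (l 16239152)) (a (l 16266880) (c (l 16222640) (l 16209992)))) (c (a (c (l 16253112) (l 16244224)) (l 16200368)) (l 16228904))) (c (c (l 16185480) (l 16260120)) (l 16261568)))) (l 14)) (l 14)) (a (b (c (c (c (a (c (l 16205088) (l 16191944)) (c (l 16162568) (l 16145168))) (a (c (l 16175232) (a (l 16170656) (l 16128192))) (c (a (l 16139312) (l 16097720)) (l 16123448)))) (c (a (l 16157928) (l 16121984)) (l 16143896))) (c (c (l 16153096) (c (l 16165200) (l 16172960))) (l 16174664))) (a (l 14) (b (c (c (c (c (l 16165272) (l 16147776)) (c (a (l 16141952) (l 16100136)) (l 16125952))) (c (l 16123448) (l 16122312))) (c (c (l 16126488) (l 16139016)) (l 16151968))) (l 14)))) (c (c (c (a (c (b (l 16115112) (l 16118128)) (b (a (l 16088056) (l 16067392)) (a (c (l 16115624) (l 16086784)) (c (l 16071376) (l 16089096))))) (c (b (a (l 16057824) (l 16037112)) (a (c (l 16084912) (l 16055984))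 (c (l 16040608) (l 16058264)))) (l 16053296))) (b (l 16075840) (l 16078456))) (c (b (l 16072296) (l 16074912)) (b (l 16069784) (l 16071240)))) (c (c (b (l 16070400) (l 16069520)) (b (l 16078176) (l 16072360))) (c (c (b (l 16086904) (l 16079280)) (l 16046808)) (l 16088072)))))), by decide +kernel⟩

def k12_pm_022 : ∃ t, chk3 f_pm_022 t 36 12 1 = true :=
  ⟨(c (b (c (a (l 16127496) (b (l 16192840) (l 16127128))) (b (l 16182888) (a (l 16217904) (l 16136872)))) (c (a (b (l 16132624) (c (l 16064720) (l 16065368))) (b (l 16061568) (l 15953576))) (b (a (l 16147304) (l 16067016)) (a (l 15971080) (l 15994232))))) (b (c (b (l 16257128) (l 16170984)) (l 16225056)) (a (c (b (l 16164688) (l 16008424)) (l 16130968)) (c (c (l 15955960) (l 16007128)) (l 16047840))))), by decide +kernel⟩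

def k13_pm_022 : ∃ t, chk3 f_pm_022 t 36 13 1 = true :=
  ⟨(c (b (c (b (a (b (c (l 16018512) (l 16016752)) (l 16011312)) (b (l 15949448) (l 15943176))) (a (c (l 16012664) (l 16008696)) (b (l 15941728) (l 15951144)))) (b (a (b (l 16021160) (l 16010920)) (b (l 15943152) (l 15935080))) (a (c (l 16005840) (l 16005256)) (c (l 15934288) (l 15929880))))) (c (a (b (c (b (l 16013072) (l 16013840)) (l 16009440)) (c (b (l 16015008) (l 16016576)) (b (l 16011032) (l 16012600)))) (b (b (c (l 15942264) (l 15937672)) (a (l 15940880) (l 15917400))) (b (a (a (l 15972304) (l 15952152)) (l 15917168)) (a (c (l 15944256) (l 15939800)) (l 1))))) (b (a (c (l 16005312) (l 16001736)) (c (l 15932888) (l 15928288))) (a (b (l 16004840) (l 16016896)) (a (b (l 15953328) (l 15954096)) (l 124049001655)))))) (b (c (b (c (a (l 16026144) (l 15939368)) (a (l 16037480) (l 15947192))) (c (a (l 16009016) (l 15927312)) (a (c (l 16016312) (l 16021072)) (l 15928664)))) (b (a (l 16037040) (l 15910312)) (c (a (l 16026856) (l 15851576))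 (l 15984376)))) (c (b (a (c (l 16000440) (l 16004176)) (c (l 15923688) (l 15920312))) (a (c (l 15999464) (l 15997208)) (c (l 15923816) (l 15919208)))) (b (c (a (c (l 16010304) (l 16014376)) (b (l 15922840) (l 15917760))) (a (l 16015304) (c (l 15924000) (l 15926032)))) (c (a (b (l 15959088) (l 15996792)) (l 15915000)) (a (c (b (l 16006976) (l 15999456)) (l 16006328)) (c (l 15914000) (l 15851648)))))))), by decide +kernel⟩

def k14_pm_022 : ∃ t, chk3 f_pm_022 t 37 6 1 = true :=
  ⟨(b (c (b (c (b (l 16065872) (l 16000768)) (b (l 16067632) (l 15998688))) (c (b (l 15934808) (l 15784128)) (b (l 15928816) (l 15858816)))) (b (c (b (l 16077696) (l 15943840)) (l 16046184)) (c (c (l 15788320) (b (l 15933288) (l 15855888))) (c (b (l 15939192) (l 15859704)) (l 15901752))))) (b (c (b (c (b (b (l 15825344) (l 15814696)) (l 15832984)) (b (l 15809208) (l 15801096))) (c (b (c (l 15811544) (l 15806064)) (a (l 15851352) (l 15760256))) (c (l 15799104) (l 15793624)))) (c (b (b (l 15802056) (l 15791712)) (c (l 15788136)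 (l 15783064))) (b (c (a (l 15846240) (l 15743168)) (l 15735960)) (c (l 15781176) (a (l 15831176) (l 15726760)))))) (a (b (c (c (b (l 15849456) (l 15847920)) (l 200821449687)) (c (l 15827840) (c (l 15820168) (l 15818624)))) (l 1)) (l 1)))), by decide +kernel⟩

def k15_pm_022 : ∃ t, chk3 f_pm_022 t 19 6 1 = true :=
  ⟨(a (b (c (b (c (l 15868472) (l 15858984)) (c (b (l 15765416) (l 15694280)) (b (l 15753864) (l 15681752)))) (c (b (l 15812808) (l 15685584)) (b (l 15666688) (c (l 15701224) (l 15657744))))) (a (a (b (c (b (c (l 297457899575) (l 15692648)) (l 1)) (c (l 386578312727) (l 483214997559))) (l 1)) (l 1)) (l 1))) (b (b (c (c (l 15706584) (l 15694192)) (c (l 15681800) (l 15672408))) (l 1)) (l 1))), by decide +kernel⟩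

def k16_pm_022 : ∃ t, chk3 f_pm_022 t 5 6 1 = true :=
  ⟨(l 1), by decide +kernel⟩

def k17_pm_022 : ∃ t, chk3 f_pm_022 t 2 7 1 = true :=
  ⟨(a (b (a (b (b (b (b (a (l 14) (a (l 14) (a (l 14) (a (l 14) (c (a (l 14) (a (l 14) (c (c (l 16034840) (l 16051696)) (l 16045864)))) (c (l 16051296) (c (l 16053560) (l 16060464)))))))) (l 14)) (l 14)) (l 14)) (l 14)) (a (a (b (b (b (c (a (c (c (b (l 16018016) (l 16024344)) (l 16024728)) (c (l 16010448) (l 16006328))) (a (a (c (l 15974520) (l 15965752)) (l 1)) (l 1))) (c (a (l 16000152) (l 15922624)) (a (c (l 15994880) (c (l 15995096) (l 15997000))) (l 15913424)))) (a (l 14) (l 1))) (l 14)) (l 1)) (l 1)) (l 1))) (l 14)) (l 1)), by decide +kernel⟩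

def k18_pm_022 : ∃ t, chk3 f_pm_022 t 3 3 1 = true :=
  ⟨(l 1), by decide +kernel⟩

theorem s19_pm_022 : ∃ t, chk3 f_pm_022 t 36 6 1 = true := ex3_b k12_pm_022 k13_pm_022

theorem s20_pm_022 : ∃ t, chk3 f_pm_022 t 18 6 1 = true := ex3_a s19_pm_022 k14_pm_022

theorem s21_pm_022 : ∃ t, chk3 f_pm_022 t 9 6 1 = true := ex3_a s20_pm_022 k15_pm_022

theorem s22_pm_022 : ∃ t, chk3 f_pm_022 t 17 27 1 = true := ex3_b k10_pm_022 k11_pm_022

theorem s23_pm_022 : ∃ t, chk3 f_pm_022 t 8 27 1 = true := ex3_a k9_pm_022 s22_pm_022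

theorem s24_pm_022 : ∃ t, chk3 f_pm_022 t 8 26 1 = true := ex3_b k7_pm_022 k8_pm_022

theorem s25_pm_022 : ∃ t, chk3 f_pm_022 t 8 13 1 = true := ex3_b s24_pm_022 s23_pm_022

theorem s26_pm_022 : ∃ t, chk3 f_pm_022 t 8 12 1 = true := ex3_a k5_pm_022 k6_pm_022

theorem s27_pm_022 : ∃ t, chk3 f_pm_022 t 8 6 1 = true := ex3_b s26_pm_022 s25_pm_022

theorem s28_pm_022 : ∃ t, chk3 f_pm_022 t 4 6 1 = true := ex3_a s27_pm_022 s21_pm_022

theorem s29_pm_022 : ∃ t, chk3 f_pm_022 t 2 6 1 = true := ex3_a s28_pm_022 k16_pm_022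

theorem s30_pm_022 : ∃ t, chk3 f_pm_022 t 2 3 1 = true := ex3_b s29_pm_022 k17_pm_022

theorem s31_pm_022 : ∃ t, chk3 f_pm_022 t 1 3 1 = true := ex3_a s30_pm_022 k18_pm_022

theorem s32_pm_022 : ∃ t, chk3 f_pm_022 t 4 4 1 = true := ex3_a k0_pm_022 k1_pm_022

theorem s33_pm_022 : ∃ t, chk3 f_pm_022 t 4 2 1 = true := ex3_b s32_pm_022 k2_pm_022

theorem s34_pm_022 : ∃ t, chk3 f_pm_022 t 2 2 1 = true := ex3_a s33_pm_022 k3_pm_022

theorem s35_pm_022 : ∃ t, chk3 f_pm_022 t 1 2 1 = true := ex3_a s34_pm_022 k4_pm_022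

theorem s36_pm_022 : ∃ t, chk3 f_pm_022 t 1 1 1 = true := ex3_b s35_pm_022 s31_pm_022

theorem c_pm_022 : CertFX 0 536870912 0 536870912 1046898278 26843546 false true false .pp 0 2 2
    ndF0q0 ndF0q2 pcF2 cut_pm_022 Ext.none :=
  certFX0 (fam := false) (s1 := true) (s2 := false) (a := 0) (b := 2) (c := 2) (cn := .pp) (n1 := ndF0q0) (n2 := ndF0q2) (pc := pcF2) (cut := cut_pm_022) (xt := Ext.none) (P1 := 0) (W1 := 536870912) (P2 := 0) (W2 := 536870912) (P3 := 1046898278) (W3 := 26843546)
    rfl s36_pm_022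

end Pool.Agent.Strip051.G.IE1.Tab.C.FB00

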