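import Pool.Agent.Strip051.G.IE1.Tab

/-! # Certificates F25 (generated) -/

set_option linter.all false
set_option maxRecDepth 100000

namespace Pool.Agent.Strip051.G.IE1.Tab.C.FB00

open Pool.Agent.Strip051.PB Pool.Agent.Strip051.PB.T
open Pool.Agent.Strip051.G.IE1.Tab

noncomputable def cut_pm_101 : Cut := Cut.of [[⟨3, 0, 0, 1449551462⟩], [⟨4, 0, 0, 2845415833⟩], [⟨0, 1, 0, 67108864⟩, ⟨1, 0, 0, 67108864⟩, ⟨2, 1, 0, 67108864⟩, ⟨3, 0, 0, 1317011456⟩]]

noncomputable def f_pm_101 : ℕ → ℕ → ℕ → ℕ → Bool := onCell 0 536870912 536870912 536870912 1046898278 26843546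
    (rowFX 2 false true false .npn 1 0 1 (qsf 536870912 536870912 536870912 536870912 0) ndF0q1 ndF0q1 pcF0 cut_pm_101 Ext.none)

def k0_pm_101 : ∃ t, chk3 f_pm_101 t 8 4 1 = true :=
  ⟨(l 14), by decide +kernel⟩

def k1_pm_101 : ∃ t, chk3 f_pm_101 t 16 10 2 = true :=
  ⟨(b (l 14) (a (a (c (b (l 16519560) (l 16466472)) (c (l 16471440) (a (l 16484040) (b (l 14) (a (l 16470032) (a (c (l 16476512) (l 16475960)) (c (l 16480032) (l 16477752)))))))) (b (l 14) (c (a (a (c (l 16487888) (l 16466528)) (c (c (l 16496304) (a (l 16494088) (l 16455576))) (a (c (l 16493536) (l 16491592)) (l 16493568)))) (c (c (a (a (a (l 16501096) (l 16501992)) (l 16502184)) (l 16502320)) (l 16498888)) (l 16493984))) (a (c (a (a (c (l 16485224) (l 16484000)) (c (l 16487856) (l 16484904))) (l 16486856)) (l 16480056)) (c (l 16487552) (a (c (l 16482528) (l 16480008)) (c (l 16442344) (l 16484528)))))))) (b (l 14) (a (c (a (c (l 16501152) (c (l 16496440) (l 16493528))) (c (c (l 16503584) (a (l 16500304) (a (l 16500952) (l 16502560)))) (a (c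 (l 16476936) (l 16497672)) (l 16503264)))) (c (a (a (c (l 16490056) (l 16425744)) (c (l 16472144) (l 16494440))) (l 16503728)) (l 16500680))) (c (c (a (c (a (a (l 16504880) (l 16506960)) (l 16511824)) (l 16510432)) (l 16522864)) (l 16520080)) (l 16483720)))))), by decide +kernel⟩

def k2_pm_101 : ∃ t, chk3 f_pm_101 t 16 11 4 = true :=
  ⟨(b (a (a (b (l 16411480) (l 16354512)) (a (c (c (l 16413336) (a (l 16408192) (a (l 16415680) (a (l 16377280) (b (l 16447192) (l 16394264)))))) (a (b (l 16414112) (l 16359816)) (a (c (b (l 16441864) (l 16367368)) (l 16370552)) (l 16372728)))) (c (c (a (a (b (a (l 16450408) (l 16451352)) (a (l 16397896) (l 16398896))) (l 16424976)) (l 16424624)) (l 16420568)) (l 16414272)))) (a (c (c (l 16423760) (a (l 16419984) (a (l 16419808) (a (b (l 16447760) (l 16392656)) (b (l 16449424) (l 16394384)))))) (c (a (l 16415960) (a (a (l 16415960) (b (l 16444864) (l 16389496))) (l 16400680))) (a (b (l 16440056) (l 16384672)) (b (l 16447928) (l 16392968))))) (c (a (c (a (a (c (l 16424608) (l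 16360856)) (b (l 16454168) (l 16399488))) (l 16432408)) (l 16430984)) (l 16424640)) (l 16400784)))) (a (a (b (l 16295496) (c (l 16234584) (l 16234064))) (a (a (c (l 16295888) (c (l 16295520) (b (l 16324384) (l 16266080)))) (c (c (l 16308224) (a (l 16304944) (b (a (l 16337888) (l 16339440)) (a (l 16280960) (l 16282624))))) (c (a (b (l 16311920) (l 16254472)) (l 16305992)) (b (l 16329704) (l 16271752))))) (c (c (a (a (a (c (l 16315856) (a (l 16293728) (l 16315232))) (b (l 16344552) (l 16288240))) (l 16315944)) (l 16314896)) (l 16309984)) (l 16301744)))) (a (c (c (b (l 16340976) (l 16282992)) (a (l 16307624) (a (l 16306144) (b (a (l 16335576) (l 16316392)) (c (l 16256784) (l 16214080)))))) (c (a (l 16302328) (a (a (l 16301280) (b (l 16332144) (l 16272720))) (l 16265792))) (a (b (l 16327288) (l 16267840)) (b (l 16336040) (l 16256072))))) (c (c (a (a (c (a (l 16290032) (b (l 16342176) (l 16283392))) (a (b (l 16339528) (l 16280568)) (l 16313840))) (l 16320280)) (l 16313848)) (l 16265576)) (l 16270648))))), by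 decide +kernel⟩

def k3_pm_101 : ∃ t, chk3 f_pm_101 t 16 11 5 = true :=
  ⟨(a (a (a (b (l 16308936) (l 16251288)) (c (b (l 16392424) (l 16276400)) (a (b (l 16387000) (l 16269736)) (b (a (b (l 16401312) (l 16366480)) (c (b (l 16426624) (l 16371296)) (l 16395920))) (c (b (l 16269496) (l 16230832)) (a (l 16257272) (l 16280344))))))) (a (c (a (b (a (c (l 16405080) (b (l 16431072) (l 16376240))) (c (b (l 16435384) (l 16381040)) (l 16404312))) (a (c (l 16291896) (b (l 16319440) (l 16260576))) (b (l 16280368) (l 16221712)))) (b (l 16406264) (l 16292456))) (b (l 16397928) (l 16281968))) (c (b (l 16406040) (l 16290952)) (c (c (b (l 16359312) (l 16263712)) (a (l 16256048) (b (l 16358960) (l 16283800)))) (b (a (a (l 16395992) (l 16376152)) (l 16401792)) (a (l 16216296) (l 16284968))))))) (a (b (c (a (a (c (l 16408128) (a (l 16383896) (l 16407224))) (c (a (l 16346696) (l 16412568)) (l 16413016))) (l 16423840)) (l 16420640)) (c (a (a (c (l 16292448) (a (l 16267400) (l 16291048))) (a (b (l 16282984) (l 16223128)) (l 16298848)))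 (l 16311048)) (l 16307672))) (b (c (l 16447680) (l 16452416)) (b (l 16371040) (l 16315736))))), by decide +kernel⟩

def k4_pm_101 : ∃ t, chk3 f_pm_101 t 16 10 3 = true :=
  ⟨(b (l 14) (b (b (l 14) (b (l 14) (a (a (a (a (c (l 16486888) (c (l 16486376) (c (a (l 16484176) (a (l 16486592) (l 16487672))) (a (c (l 16462752) (c (l 16483488) (l 16483360))) (l 16486016))))) (a (c (l 16492936) (c (c (l 16492224) (l 16490512)) (c (l 16488776) (l 16488968)))) (l 14))) (l 14)) (l 14)) (l 14)))) (a (a (c (a (c (l 16456768) (c (l 16456536) (a (l 16452032) (a (l 16458568) (l 16441208))))) (c (a (a (l 16467544) (c (l 16471768) (l 16470192))) (l 16472584)) (a (c (a (l 16445272) (l 16467264)) (l 16463784)) (c (l 16467752) (a (l 16464560) (l 16466264)))))) (a (c (a (c (l 16451872) (l 16451600)) (c (a (l 16458008) (l 16459912)) (a (l 16456096) (l 16457048)))) (a (c (a (l 16449336) (c (l 16452880) (l 16451928))) (a (a (a (l 16426640) (c (l 16448688) (l 16448304))) (c (l 16449648) (l 16449096))) (c (l 16451328) (l 16451400))))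 (c (a (l 16454144) (l 16456832)) (l 16455840)))) (c (a (c (l 16419200) (l 16460664)) (l 16466560)) (l 16443704)))) (c (a (c (a (l 16473368) (c (l 16475832) (l 16453928))) (c (a (a (l 16468904) (l 16471080)) (l 16476104)) (l 16474400))) (c (c (l 16483032) (l 16484696)) (l 16487376))) (c (c (l 16482632) (l 16483032)) (l 16482128)))) (c (c (a (l 16504304) (c (l 16529816) (l 16530296))) (a (c (l 16506568) (l 16507016)) (l 16529584))) (c (l 16517072) (l 16494464)))))), by decide +kernel⟩

def k5_pm_101 : ∃ t, chk3 f_pm_101 t 32 11 3 = true :=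
  ⟨(a (c (a (b (c (l 16371248) (c (l 16370952) (a (l 16365640) (a (l 16373368) (b (l 16406544) (l 16348912)))))) (a (l 16244032) (c (l 16256784) (b (l 16223976) (l 16203840))))) (b (c (a (a (l 16384024) (c (l 16389024) (l 16303136))) (c (l 16349648) (l 16387528))) (a (c (a (b (l 16411080) (l 16353944)) (l 16383304)) (l 16379064)) (c (l 16383368) (a (l 16379496) (l 16360320))))) (c (a (a (l 16266072) (c (l 16272176) (l 16269568))) (l 16230264)) (a (b (l 16229664) (l 16209904)) (c (l 16264200) (l 16218744)))))) (a (c (a (b (c (l 16365432) (l 16302176)) (l 16243088)) (b (c (a (b (l 16401880) (l 16343728)) (l 16374704)) (a (l 16370232) (l 16371072))) (c (a (l 16252120) (l 16254368)) (a (l 16248968) (l 16249648))))) (b (a (c (a (l 16362408) (a (l 16365400) (l 16303736))) (a (a (a (l 16318424) (b (l 16370232) (l 16331856))) (c (l 16362720) (l 16362016))) (b (l 16394144) (l 16335016)))) (c (a (l 16304848) (l 16370800)) (l 16369712))) (a (c (a (l 16239640) (b (l 16275464) (l 16212200))) (a (c (l 16238816) (a (l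 16237328) (l 16239032))) (l 16241856))) (c (l 16247808) (l 16248096))))) (c (b (a (c (a (l 16374904) (l 16355112)) (l 16333152)) (l 16360872)) (a (c (l 16255048) (l 16254264)) (l 16262216))) (b (b (l 16408872) (l 16351072)) (l 16259984))))) (c (b (a (c (a (l 16389776) (c (l 16371200) (a (l 16368288) (l 16392264)))) (c (a (b (l 16414680) (l 16357152)) (l 16392528)) (l 16390704))) (c (b (l 16408680) (l 16373440)) (l 16405808))) (a (c (a (l 16271736) (c (l 16274040) (l 16251512))) (c (a (l 16203584) (l 16274496)) (l 16272544))) (c (c (l 16241416) (l 16286160)) (l 16290648)))) (b (c (c (l 16337552) (l 16338056)) (l 16399816)) (c (b (l 16314696) (l 16254640)) (l 16283640))))), by decide +kernel⟩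

def k6_pm_101 : ∃ t, chk3 f_pm_101 t 33 11 3 = true :=
  ⟨(b (c (c (a (l 16425320) (c (a (l 16448112) (l 16462992)) (l 16393104))) (a (c (l 16365320) (l 16365888)) (l 16455088))) (c (b (l 16466648) (l 16414408)) (b (l 16464688) (l 16412120)))) (c (c (a (l 16313832) (b (l 16377792) (l 16323416))) (a (b (l 16346520) (l 16289272)) (l 16349952))) (c (l 16332000) (l 16329192)))), by decide +kernel⟩

def k7_pm_101 : ∃ t, chk3 f_pm_101 t 17 5 1 = true :=
  ⟨(b (a (a (a (b (l 14) (b (l 14) (c (c (l 16538008) (c (l 16543616) (l 16546776))) (c (l 16546304) (l 16543296))))) (l 14)) (l 14)) (l 14)) (c (a (c (b (c (b (l 16466808) (a (l 16444216) (l 16476568))) (b (l 16513264) (l 16444808))) (c (b (a (l 16392376) (l 16428352)) (a (l 16338672) (l 16378400))) (b (l 16374648) (l 16323680)))) (b (c (a (l 16478832) (c (a (l 16500600) (l 16514784)) (a (l 16502136) (l 16514736)))) (a (c (a (l 16474728) (l 16489288)) (a (l 16476232) (l 16489176))) (l 16507552))) (c (a (l 16357424) (c (a (l 16405208) (l 16422792)) (a (l 16407280)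 (l 16422728)))) (a (c (l 16319512) (l 16341392)) (l 16413808))))) (c (b (c (a (b (l 16550960) (l 16507976)) (a (c (l 16549824) (l 16509472)) (c (a (l 16560192) (l 16545448)) (l 16563224)))) (a (c (a (l 16525648) (l 16518456)) (a (l 16506248) (l 16539440))) (l 16556616))) (c (a (b (l 16463448) (l 16417312)) (c (a (l 16465928) (b (l 16482744) (a (l 16458144) (l 16466408)))) (a (b (l 16489800) (l 16446664)) (l 16482856)))) (a (c (a (l 16435976) (l 16390296)) (a (l 16417136) (l 16453232))) (l 16432576)))) (b (c (b (l 16564648) (l 16523504)) (b (l 16563272) (l 16521856))) (c (b (l 16480880) (l 16436720)) (l 16372656))))) (a (c (b (c (b (l 16517272) (l 16470504)) (b (l 16515616) (l 16468544))) (c (l 16354792) (l 16394304))) (b (b (c (l 16513952) (l 16512288)) (l 16465616)) (b (l 16416400) (l 16365408)))) (b (c (b (a (l 16550256) (l 16571984)) (a (l 16507136) (l 16531472))) (b (a (l 16547368) (l 16569368)) (l 16474176))) (c (b (l 16476088) (l 16431216)) (b (l 16472248) (l 16426808))))))), by decide +kernel⟩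

def k8_pm_101 : ∃ t, chk3 f_pm_101 t 9 2 1 = true :=
  ⟨(b (l 14) (b (l 14) (b (b (a (a (a (c (c (c (l 16598136) (l 16596960)) (l 16595200)) (c (l 16592856) (l 16590504))) (l 14)) (l 14)) (l 14)) (a (c (c (a (c (l 16551344) (l 16570976)) (c (l 16614232) (l 16613168))) (a (a (l 16557808) (l 16580048)) (c (l 16612096) (l 16611032)))) (a (c (a (l 16554976) (l 16577504)) (a (l 16552144) (l 16574960))) (c (c (l 16609960) (l 16608888)) (c (l 16607824) (l 16606752))))) (a (a (b (l 14) (c (c (l 16635848) (l 16634008)) (c (l 16632160) (l 16630312)))) (l 14)) (l 14)))) (a (c (c (a (c (b (l 16493576) (a (l 16483752) (l 16511040))) (b (l 16533936) (l 16495568))) (b (c (l 16582776) (l 16581496)) (c (l 16550176) (l 16548688)))) (a (c (b (l 16532352) (l 16493736)) (b (l 16530768) (l 16491896))) (b (c (l 16580224) (l 16578952)) (l 16525488)))) (a (c (b (a (l 16515744) (l 16541000)) (l 16447208)) (b (a (l 16512416) (l 16537992)) (l 16464512))) (c (b (l 16535096) (l 16543480)) (b (c (l 16575128) (l 16573848)) (l 16519528)))))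 (c (c (a (b (a (l 16615032) (l 16632032)) (a (l 16586480) (l 16605584))) (c (b (l 16653992) (l 16630296)) (b (l 16653184) (l 16629336)))) (a (b (a (l 16612912) (l 16630136)) (a (l 16583984) (l 16603336))) (c (b (l 16652376) (l 16628368)) (b (l 16651568) (l 16627408))))) (c (a (b (a (l 16610792) (l 16628240)) (a (l 16581488) (l 16601096))) (b (c (l 16650760) (l 16649952)) (c (l 16626440) (l 16625480)))) (a (b (a (c (l 16609200) (l 16608144)) (l 16626336)) (a (l 16579000) (l 16598848))) (b (c (l 16649144) (l 16648336)) (c (l 16624512) (l 16623552)))))))))), by decide +kernel⟩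

def k9_pm_101 : ∃ t, chk3 f_pm_101 t 5 2 1 = true :=
  ⟨(b (l 4) (b (l 14) (a (b (l 14) (b (a (a (a (c (c (l 16673720) (l 16672368)) (c (l 16671016) (l 16669664))) (l 14)) (l 14)) (l 14)) (a (c (c (a (c (l 16660264) (l 16659496)) (c (a (l 16681000) (l 16694008)) (l 16666016))) (a (c (l 16658728) (l 16657960)) (c (l 16686400) (l 16685808)))) (c (a (c (l 16657192) (l 16656432)) (c (l 16685224) (l 16684632))) (a (c (l 16655664) (l 16654896)) (c (l 16684048) (l 16683456))))) (b (l 14) (a (a (c (c (l 16702672) (l 16701696)) (c (l 16700720) (l 16699744))) (l 14)) (l 14)))))) (l 14)))), by decide +kernel⟩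

def k10_pm_101 : ∃ t, chk3 f_pm_101 t 32 24 1 = true :=
  ⟨(c (a (c (b (c (l 16171232) (l 16170640)) (c (l 16105536) (l 16104880))) (c (b (l 16170048) (l 16104224)) (a (l 16121440) (a (l 16143792) (c (b (l 16169024) (l 16125912)) (a (l 16111968) (l 16156216))))))) (c (a (c (c (b (l 16213752) (l 16151848)) (a (l 16175008) (a (l 16186016) (b (a (l 16221952) (l 16223744)) (a (l 16160776) (l 16173184)))))) (a (c (l 16174704) (b (l 16205648) (l 16142992))) (c (a (a (l 16183856) (b (l 16217336) (l 16155728))) (b (l 16217992) (l 16156352))) (b (l 16211688) (l 16149424))))) (a (c (c (a (b (a (c (l 16229520) (l 16228304)) (l 16208912)) (a (c (l 16169048) (l 16167696)) (l 16183792))) (l 16195576)) (l 16192392)) (l 16181968)) (b (l 16217968) (l 16166320)))) (a (c (a (c (a (l 16170336) (b (l 16205920) (l 16143224))) (a (b (l 16199576) (l 16136328)) (l 16168264))) (l 16170224)) (l 16157432)) (c (l 16167352) (a (b (l 16188616) (l 16123520)) (c (b (l 16191696) (l 16126640)) (l 16159504))))))) (a (c (a (a (l 16113064)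 (c (l 16128296) (b (l 16139488) (l 16093744)))) (c (a (a (l 16139376) (c (l 16146664) (l 16143408))) (l 16062328)) (a (b (l 16166928) (l 16100616)) (c (l 16136208) (l 16089880))))) (a (c (a (l 16069952) (c (a (l 16122640) (l 16125104)) (a (l 16118712) (l 16119224)))) (a (c (a (l 16107768) (b (l 16146624) (l 16078632))) (a (c (l 16106736) (a (l 16084000) (l 16106920))) (l 16110192))) (c (l 16096128) (l 16117456)))) (c (a (c (l 16125456) (l 16124472)) (l 16133736)) (l 16131288)))) (c (a (c (a (l 16144952) (c (l 16147160) (l 16124248))) (c (a (l 16096464) (l 16147744)) (l 16145640))) (c (c (l 16115888) (l 16161344)) (l 16166976))) (c (b (l 16192392) (l 16127864)) (l 16158872))))), by decide +kernel⟩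

def k11_pm_101 : ∃ t, chk3 f_pm_101 t 33 24 1 = true :=
  ⟨(c (c (c (a (c (b (l 16222904) (l 16160608)) (a (b (l 16218400) (l 16155880)) (a (l 16184080) (a (b (l 16215144) (l 16151608)) (c (b (l 16216576) (l 16153048)) (l 16185032)))))) (a (a (c (c (a (b (l 16220776) (l 16157576)) (b (l 16185768) (a (l 16158072) (l 16160152)))) (a (b (l 16219456) (l 16156112)) (l 16192256))) (l 16192592)) (b (l 16233296) (l 16171152))) (b (l 16249936) (l 16189264)))) (a (c (a (l 16180296) (a (a (l 16178136) (b (l 16211136) (l 16147296))) (b (l 16217264) (l 16153888)))) (a (b (l 16206224) (l 16142344)) (b (l 16194944) (l 16131568)))) (b (l 16246912) (l 16186184)))) (a (c (a (a (c (l 16168216) (b (l 16197768) (l 16133088))) (c (b (l 16204048) (l 16139776)) (l 16174560))) (l 16189928)) (l 16186368)) (b (l 16258432) (l 16199024)))) (c (c (a (l 16194120) (b (l 16267064) (l 16208648))) (a (b (l 16229952) (l 16168448)) (l 16237064))) (b (l 16244824) (l 16184440)))), by decide +kernel⟩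

def k12_pm_101 : ∃ t, chk3 f_pm_101 t 32 50 1 = true :=
  ⟨(c (a (c (c (l 16037392) (l 16036672)) (a (l 16018816) (a (l 16044032) (c (l 16061096) (c (l 16059440) (l 16013832)))))) (c (a (a (c (l 16079184) (c (l 16078648) (l 16078008))) (c (c (l 16095944) (a (l 16091456) (a (l 16097328) (l 16099384)))) (a (c (l 16090120) (l 16085424)) (l 16088408)))) (c (c (a (a (a (c (l 16106320) (l 16104832)) (l 16106624)) (l 16105752)) (l 16103392)) (l 16096832)) (l 16084832))) (a (c (a (a (c (l 16073672) (l 16070720)) (l 16074456)) (l 16073040)) (l 16058440)) (c (l 16069120) (a (l 16055992) (c (l 16059176) (l 16059760))))))) (a (c (a (c (l 16017696) (a (l 16008536) (l 16024536))) (c (a (a (l 16038624) (l 16044448)) (l 16046040)) (a (l 16031832) (l 16032440)))) (a (c (a (l 16007576) (c (l 16020496) (l 15932104))) (a (c (a (l 16002896) (l 16008096)) (a (c (l 16001704) (l 16000880)) (l 16005480))) (c (l 16013168) (l 16013584)))) (c (a (l 15980720) (l 16031576)) (l 16028976)))) (c (a (c (c (l 16047136) (l 16000952)) (l 15981024))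 (c (l 16060232) (l 16068672))) (c (l 16060928) (l 16059736))))), by decide +kernel⟩

def k13_pm_101 : ∃ t, chk3 f_pm_101 t 64 51 2 = true :=
  ⟨(c (b (b (l 15993368) (l 15975952)) (l 15948368)) (a (b (l 15963680) (l 15928240)) (c (b (l 15999304) (l 15965592)) (a (l 15954792) (a (c (l 15989304) (b (b (l 16012176) (a (l 15993528) (l 15996520))) (l 15926152))) (c (a (b (l 16009464) (l 15976112)) (b (a (l 15969704) (l 16012192)) (l 15978416))) (b (l 16004272) (l 15970704)))))))), by decide +kernel⟩

def k14_pm_101 : ∃ t, chk3 f_pm_101 t 65 51 2 = true :=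
  ⟨(c (a (a (b (c (l 16027352) (a (l 16022208) (a (l 16028856) (c (l 16033456) (c (l 16033168) (l 16032040)))))) (c (l 15994768) (c (l 15994168) (a (l 15989184) (l 15997864))))) (c (c (b (l 16045192) (l 16013256)) (a (b (l 16040440) (l 16008296)) (b (b (l 16057296) (b (l 16044872) (a (l 16036152) (c (l 16040064) (l 16037016))))) (a (l 16014768) (c (l 16018832) (l 16015688)))))) (a (c (c (b (l 16040008) (l 16007840)) (b (a (l 16037720) (l 16040096)) (a (l 16005456) (l 16007888)))) (b (c (a (l 16015152) (l 16036224)) (l 16032240)) (l 16001528))) (b (b (l 16047144) (l 16029656)) (l 16004720))))) (c (c (a (a (b (b (l 16065304) (b (l 16052992) (a (c (l 16045728) (l 16023128)) (c (l 16048000) (l 16044048))))) (a (c (l 16024704) (l 16023032)) (l 15983024))) (b (l 16055704) (l 16023880))) (b (l 16053120) (l 16021008))) (b (l 16045920) (l 16013808))) (b (l 16033024) (l 16000344)))) (a (c (a (a (c (b (l 16021512) (l 15988656)) (a (b (b (l 16028312) (l 16010904)) (l 15985032)) (b (l 16019456) (l 15986488)))) (c (a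 (b (c (l 16027840) (l 16025328)) (l 15993600)) (b (l 16026904) (l 15994200))) (l 16004608))) (b (l 16020584) (l 15987576))) (b (l 16004896) (l 15971368))) (c (b (l 16016136) (l 15982720)) (a (c (l 15990160) (b (a (l 15997648) (b (l 16009088) (l 15969480))) (a (l 15963408) (l 15964304)))) (c (a (b (l 16003928) (l 15969648)) (b (a (l 16004904) (l 16006984)) (l 15971864))) (b (l 16006232) (l 15972048))))))), by decide +kernel⟩

def k15_pm_101 : ∃ t, chk3 f_pm_101 t 64 51 3 = true :=
  ⟨(a (c (c (l 15906224) (a (l 15938368) (c (l 15956496) (a (l 15951608) (b (b (l 15983456) (a (l 15965160) (l 15967416))) (a (l 15937160) (l 15939536))))))) (a (a (c (l 15933056) (c (b (l 15946936) (l 15910648)) (c (a (b (l 15944480) (l 15908064)) (b (b (l 15957672) (l 15918960)) (l 15910904))) (a (b (b (l 15954048) (c (l 15936560) (a (l 15935488) (l 15936608)))) (c (l 15907392) (l 15906928))) (b (l 15945760) (l 15909432)))))) (c (b (b (l 15966656) (c (l 15949568) (l 15927736))) (l 15899360)) (c (a (b (c (l 15953272) (l 15950840))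 (l 15915752)) (c (b (l 15954616) (l 15918744)) (b (l 15950960) (l 15914928)))) (c (b (b (l 15960312) (l 15942552)) (l 15913632)) (b (l 15949928) (l 15913840)))))) (b (c (a (b (l 15972064) (c (a (l 15956192) (l 15959264)) (l 15931544))) (c (l 15967136) (b (l 15970528) (l 15952688)))) (c (a (c (l 15954560) (l 15953904)) (l 15959272)) (l 15957856))) (c (a (c (a (l 15927800) (l 15931016)) (l 15924008)) (c (l 15931904) (l 15924280))) (c (a (l 15897872) (l 15923696)) (l 15922208)))))) (c (a (c (b (a (l 15984456) (b (l 16001024) (c (l 15986120) (a (l 15982024) (l 15982656))))) (a (l 15950008) (c (l 15959080) (l 15933888)))) (c (a (b (b (l 15991648) (a (l 15973768) (l 15975208))) (a (l 15946168) (l 15947712))) (l 15967376)) (l 15959472))) (c (b (b (l 16002600) (b (l 15989112) (l 15980752))) (l 15957928)) (c (l 15965208) (b (b (l 15984936) (a (l 15965120) (l 15967200))) (a (l 15937488) (l 15939760)))))) (c (a (c (a (b (l 15966064) (l 15930824)) (b (c (l 15967200) (l 15965896)) (l 15931808))) (b (b (l 15976528) (a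 (l 15955432) (l 15961232))) (l 15930504))) (b (l 15934528) (l 15941720))) (b (b (l 15984624) (l 15945664)) (l 15938984))))), by decide +kernel⟩

def k16_pm_101 : ∃ t, chk3 f_pm_101 t 65 51 3 = true :=
  ⟨(c (a (c (b (a (l 15989720) (b (l 16002248) (c (l 15963088) (a (l 15978824) (l 15983456))))) (a (l 15955504) (c (l 15957576) (a (l 15952120) (l 15956984))))) (c (a (a (b (a (l 15978520) (l 15979360)) (l 15944584)) (b (l 15982744) (l 15948152))) (l 15977832)) (l 15975704))) (c (a (b (c (c (l 15933696) (l 15998128)) (l 16001760)) (l 15923712)) (l 15998056)) (l 15979808))) (c (a (b (c (l 15994744) (l 15997520)) (l 15961936)) (b (l 15999280) (l 15987016))) (b (l 16005952) (l 15972536)))), by decide +kernel⟩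

def k17_pm_101 : ∃ t, chk3 f_pm_101 t 33 50 2 = true :=
  ⟨(a (c (a (c (l 16094960) (c (l 16083312) (l 16076096))) (c (c (l 16093312) (a (l 16087056) (a (l 16085712) (c (l 16087168) (l 16087616))))) (a (c (a (l 16080232) (l 16081088)) (l 16080512)) (l 16090536)))) (c (a (a (c (l 16069464) (l 16066016)) (c (l 16073120) (l 16076400))) (l 16093664)) (l 16089992))) (c (c (c (a (a (a (c (l 16092040) (l 16090416)) (b (l 16090576) (l 16078248))) (l 16104160)) (l 16123816)) (l 16115744)) (l 16123216)) (l 16137424))), by decide +kernel⟩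

def k18_pm_101 : ∃ t, chk3 f_pm_101 t 33 51 2 = true :=
  ⟨(a (c (c (a (b (l 16044048) (l 16011160)) (c (b (l 16042896) (l 16009720)) (a (b (l 16036312) (l 16002352)) (b (a (l 16034800) (l 16036912)) (a (c (l 16002312) (a (l 15998424) (l 15998944))) (c (a (l 16001552) (l 15981760)) (l 16003024))))))) (a (b (c (l 16031536) (a (l 16024800) (a (l 16023112) (c (l 16024000) (l 16021456))))) (c (l 15998080) (a (l 15991000) (c (l 15990040) (l 15986800))))) (a (a (c (b (l 16029040) (l 15994472)) (b (c (l 16025240) (l 16026408)) (c (l 15990496) (l 15991712)))) (b (l 16031392) (c (c (l 15995616) (l 15994528)) (l 15997832)))) (b (l 16039944) (c (c (l 16002400) (l 16004952)) (l 16009112)))))) (c (a (a (c (b (l 16016776) (l 15982616)) (b (b (l 16022984) (a (l 15960304) (l 16005808))) (a (l 15976336) (l 15979872)))) (c (b (a (c (l 16017864) (l 16017520)) (l 16023120)) (a (c (l 15983176) (l 15982816)) (l 15988336))) (l 15955376))) (b (l 16043280) (l 16010120))) (b (l 16038440) (l 16006424)))) (c (b (c (a (c (a (a (l 16019968)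 (l 16044336)) (l 16054192)) (l 16052688)) (l 16077768)) (l 16074600)) (c (a (c (a (a (c (l 15987048) (a (c (l 16005144) (l 16004232)) (l 15985760))) (c (a (c (b (l 16016592) (l 15998240)) (l 16008160)) (l 16010952)) (l 16012000))) (l 16021624)) (l 16020160)) (b (l 16053408) (l 16036160))) (l 16001312))) (b (l 16089864) (c (l 16054128) (l 16064520))))), by decide +kernel⟩

def k19_pm_101 : ∃ t, chk3 f_pm_101 t 33 25 3 = true :=
  ⟨(b (c (c (a (l 16099008) (l 16148072)) (a (l 16104664) (l 16147384))) (l 16121816)) (c (a (c (b (l 16048136) (l 16016536)) (a (b (l 16042768) (l 16009816)) (b (l 16067984) (l 16035944)))) (b (l 16100384) (c (a (l 16037952) (c (l 16084616) (l 16084232))) (l 16070376)))) (a (b (l 16051096) (l 16019624)) (b (l 16094024) (l 16063544))))), by decide +kernel⟩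

def k20_pm_101 : ∃ t, chk3 f_pm_101 t 64 13 2 = true :=
  ⟨(b (c (b (l 15892824) (l 15816480)) (a (b (l 15871552) (l 15793584)) (c (l 15873320) (a (l 15862328) (a (a (l 15874960) (c (l 15880288) (b (l 15915704) (l 15841040)))) (c (b (a (l 15922200) (l 15924616)) (a (l 15848040) (l 15850616))) (l 15878848))))))) (a (b (l 15713592) (b (b (l 15661536) (l 15632344)) (l 15550360))) (c (b (l 15759624) (b (l 15696808) (l 15618008))) (b (c (l 15758088) (a (l 15745824) (a (c (l 15762968) (l 15719152)) (c (a (l 15770928) (l 15773664)) (l 15764048))))) (a (b (l 15682480) (l 15595648)) (c (b (l 15706776) (l 15627864)) (a (c (l 15637592) (b (l 15697856) (l 15614824))) (b (c (a (l 15708296) (l 15711160)) (l 15700912)) (c (a (l 15629024) (l 15633008)) (l 15620408)))))))))), by decide +kernel⟩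

def k21_pm_101 : ∃ t, chk3 f_pm_101 t 65 13 4 = true :=
  ⟨(a (b (a (c (l 15947376) (a (l 15899520) (a (l 15907088) (c (l 15912336) (b (l 15884536) (l 15875216)))))) (c (c (l 15925760) (a (l 15920312) (a (b (c (l 15963648) (l 15962848)) (l 15892104)) (c (b (l 15967432) (l 15896728)) (l 15928392))))) (a (a (c (l 15917312) (b (a (l 15949456) (l 15949720)) (l 15877256))) (c (b (c (l 15958128) (l 15955824)) (c (l 15886720) (l 15884216))) (l 15912792))) (b (l 15952384) (l 15880392))))) (a (b (c (l 15793800) (c (l 15793048) (a (l 15786952) (l 15797544)))) (b (c (l 15732872) (c (l 15731944) (l 15668000))) (c (l 15662864) (c (l 15660232) (l 15595128))))) (a (c (b (l 15810608) (l 15737184)) (b (c (a (l 15807000) (c (l 15812472) (l 15809760))) (l 15801848)) (c (b (a (l 15746624) (l 15750552)) (l 15678472)) (b (l 15741072) (l 15670048))))) (c (b (c (l 15822032) (a (l 15818256) (c (l 15823216) (l 15819272)))) (c (l 15728824) (b (a (l 15758568) (c (l 15763808) (l 15759584))) (a (l 15690440) (l 15693288))))) (b (l 15805544)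 (b (l 15744960) (l 15674720))))))) (b (c (c (a (a (a (b (c (l 15973664) (b (l 15989176) (l 15954664))) (c (l 15903456) (l 15901512))) (a (c (b (l 15976232) (l 15906208)) (l 15936736)) (l 15980664))) (l 15937272)) (l 15933840)) (l 15925920)) (l 15952848)) (b (c (c (a (a (a (c (l 15830456) (l 15828352)) (l 15830632)) (l 15829032)) (l 15824944)) (l 15816184)) (l 15799232)) (c (c (a (a (b (a (c (l 15771528) (l 15769256)) (l 15771656)) (a (l 15703312) (l 15704952))) (l 15736168)) (l 15731584)) (l 15721640)) (l 15702440))))), by decide +kernel⟩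

def k22_pm_101 : ∃ t, chk3 f_pm_101 t 65 13 5 = true :=
  ⟨(a (b (c (a (a (c (b (l 15935488) (l 15862344)) (b (a (l 15931640) (l 15933152)) (a (l 15858192) (l 15859784)))) (a (c (c (a (l 15905248) (l 15906944)) (l 15902992)) (l 15895664)) (l 15899696))) (l 15897128)) (l 15879176)) (c (a (c (b (a (l 15786288) (a (l 15792264) (l 15792864))) (a (b (l 15724648) (l 15650248)) (b (a (l 15730928) (l 15731520)) (l 15657720)))) (b (a (a (l 15781816) (l 15783488)) (l 15782112)) (a (b (a (l 15719848) (l 15721576)) (a (l 15644016) (l 15646496))) (l 15682480)))) (b (l 15784128) (l 15685176))) (b (l 15764056) (l 15598608)))) (b (c (l 15891248) (a (c (l 15878608) (a (l 15870000) (b (l 15867104) (l 15833056)))) (c (a (b (l 15914672) (l 15839056)) (b (l 15854032) (l 15841416))) (l 15795352)))) (c (b (l 15777040) (l 15677288)) (b (a (c (l 15762904) (a (l 15753256) (l 15754040))) (c (a (l 15760440) (l 15762896)) (l 15763288))) (a (b (b (l 15708528) (l 15640072)) (l 15618808)) (c (b (a (l 15696648) (l 15699176)) (l 15622848))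 (l 15660848))))))), by decide +kernel⟩

def k23_pm_101 : ∃ t, chk3 f_pm_101 t 64 13 6 = true :=
  ⟨(c (b (a (l 15830912) (c (a (b (l 15836544) (l 15802608)) (b (l 15865544) (l 15832080))) (a (a (l 15856000) (a (b (l 15899648) (l 15823752)) (l 15862208))) (l 15860000)))) (a (b (l 15710928) (b (l 15642944) (l 15537616))) (a (b (a (l 15739024) (c (l 15750088) (l 15723816))) (b (a (l 15674504) (c (l 15686184) (l 15680488))) (a (l 15581560) (c (l 15598280) (l 15591000))))) (b (l 15727184) (b (l 15683992) (l 15599232)))))) (c (a (b (l 15830216) (b (l 15710144) (b (l 15641904) (l 15533800)))) (a (a (b (a (b (l 15890504) (l 15813920)) (l 15790736)) (b (a (l 15734288) (l 15736064)) (b (a (l 15669368) (l 15671216)) (l 15574408)))) (b (l 15852752) (b (l 15734936) (l 15602776)))) (b (l 15850208) (b (l 15731840) (l 15622312))))) (a (a (b (l 15819616) (b (l 15698336) (b (l 15628856) (l 15512760)))) (a (b (l 15834904) (b (l 15715304) (l 15489160))) (b (a (l 15779208) (b (l 15883472) (l 15806344))) (b (a (l 15723312) (l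 15726136)) (b (a (l 15657736) (l 15660688)) (l 15556448)))))) (b (a (l 15843728) (a (b (l 15881040) (l 15803400)) (b (l 15883384) (l 15805824)))) (a (b (l 15724856) (l 15474072)) (b (a (l 15722656) (l 15725176)) (b (a (l 15656800) (l 15659400)) (a (l 15567128) (l 15572568))))))))), by decide +kernel⟩

def k24_pm_101 : ∃ t, chk3 f_pm_101 t 128 13 7 = true :=
  ⟨(b (c (a (c (l 15819152) (a (l 15813616) (b (l 15841856) (l 15784168)))) (c (a (a (l 15831856) (b (l 15874464) (l 15796672))) (l 15836232)) (a (b (l 15846040) (l 15788608)) (b (l 15867208) (l 15788704))))) (a (c (a (l 15750096) (a (c (l 15778384) (l 15817504)) (a (l 15736088) (l 15798728)))) (c (a (a (l 15810184) (a (l 15812984) (l 15772040))) (b (l 15856032) (l 15776792))) (a (b (a (a (l 15806752) (l 15808384)) (l 15851616)) (a (a (l 15768976) (l 15770728)) (l 15772080))) (l 15816416)))) (c (a (c (l 15758800) (l 15820952)) (l 15827088)) (l 15825488)))) (c (a (b (c (l 15697816) (l 15654960)) (b (b (l 15644448) (l 15611504)) (l 15508368))) (b (a (c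 (a (l 15711896) (l 15715768)) (l 15707064)) (c (l 15716632) (l 15707064))) (a (b (c (a (l 15645328) (l 15649632)) (l 15640112)) (c (l 15537016) (l 15528120))) (c (b (l 15650568) (l 15546392)) (b (l 15640344) (l 15534160)))))) (a (b (c (a (l 15690960) (a (l 15697120) (c (l 15700704) (l 15695920)))) (a (c (a (l 15687816) (l 15691208)) (a (a (l 15686072) (l 15687928)) (l 15689360))) (c (l 15694376) (l 15694632)))) (c (a (b (l 15620288) (l 15494704)) (b (a (b (l 15644272) (l 15612880)) (c (l 15632904) (l 15627784))) (a (l 15506776) (l 15512632)))) (a (b (c (a (l 15616648) (b (l 15638096) (l 15604784))) (a (c (l 15615704) (b (l 15633088) (l 15597456))) (l 15619264))) (c (l 15491192) (a (l 15485296) (l 15492000)))) (b (c (l 15625544) (l 15625760)) (l 15503088))))) (b (c (a (l 15637664) (l 15706336)) (l 15704632)) (c (b (a (c (l 15633032) (l 15632080)) (l 15639488)) (l 15462984)) (b (l 15637360) (l 15524728))))))), by decide +kernel⟩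

def k25_pm_101 : ∃ t, chk3 f_pm_101 t 129 13 7 = true :=
  ⟨(b (c (a (c (a (l 15834880) (b (l 15833120) (l 15776048))) (b (c (l 15872704) (l 15874160)) (l 15732696))) (c (l 15823232) (l 15849184))) (b (l 15840720) (l 15784240))) (c (b (a (c (a (l 15714952) (l 15715848)) (l 15714376)) (l 15727800)) (a (b (c (a (l 15648704) (l 15649584)) (l 15647984)) (c (a (l 15549584) (l 15554816)) (l 15549040))) (b (l 15662096) (l 15571528)))) (b (l 15724672) (b (l 15658712) (l 15560632))))), by decide +kernel⟩

def k26_pm_101 : ∃ t, chk3 f_pm_101 t 65 13 3 = true :=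
  ⟨(c (b (a (c (a (c (l 15866304) (l 15856792)) (c (b (l 15902080) (l 15825760)) (a (b (l 15896304) (l 15819536)) (l 15862984)))) (c (a (a (b (l 15888440) (l 15811208)) (b (l 15892160) (l 15815144))) (l 15864536)) (l 15862096))) (c (c (a (b (l 15887152) (l 15832104)) (l 15884776)) (l 15882512)) (l 15890688))) (a (c (b (a (l 15744448) (c (l 15746408) (a (l 15739712) (l 15745504)))) (a (b (l 15679920) (l 15598960)) (c (b (l 15681880) (l 15603312)) (b (l 15636488) (l 15598672))))) (b (a (c (a (l 15730904) (l 15735064)) (l 15736136)) (l 15750440)) (a (c (b (a (l 15665472) (l 15669800)) (a (l 15582056) (l 15587912))) (l 15628504)) (l 15645200)))) (b (c (c (l 15719472) (l 15767176)) (l 15776408)) (c (b (c (l 15697576) (l 15703608)) (l 15622440)) (l 15673072))))) (b (c (a (c (l 15867368) (l 15807680)) (c (l 15875768) (l 15895992))) (l 15880120)) (b (c (a (l 15752208) (l 15782448)) (l 15764848)) (c (b (a (l 15687744) (l 15719496)) (a (l 15603000) (l 15637720))) (b (l 15700856) (l 15614880)))))), by decide +kernel⟩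

def k27_pm_101 : ∃ t, chk3 f_pm_101 t 66 13 4 = true :=
  ⟨(b (c (c (b (l 15959384) (l 15887104)) (a (l 15917432) (a (l 15911480) (c (a (l 15910968) (b (a (l 15946968) (l 15948080)) (a (l 15873224) (l 15874368)))) (a (b (a (l 15943960) (l 15944344)) (l 15870520)) (b (l 15948408) (l 15874760))))))) (c (a (l 15907736) (a (c (b (l 15941856) (l 15867912)) (a (l 15900752) (b (l 15939992) (l 15865816)))) (b (l 15928232) (l 15875680)))) (c (a (l 15900528) (a (a (b (l 15936064) (l 15861656)) (l 15904832)) (l 15916680))) (a (a (l 15897680) (a (l 15894896) (b (l 15932320) (l 15857696)))) (l 15911816))))) (a (b (c (l 15811496) (c (l 15795016) (a (l 15786504) (c (l 15784608) (l 15780520))))) (c (l 15800304) (a (l 15694240) (b (b (l 15738608) (l 15713184)) (l 15654312))))) (c (b (c (l 15807080) (a (l 15798736) (a (c (l 15797904) (l 15793712)) (c (l 15797560) (l 15798200))))) (c (l 15732440) (a (l 15701984) (b (a (l 15734176) (c (l 15735744) (l 15736376))) (a (l 15664200) (l 15666664)))))) (b (a (c (a (l 15789320) (c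 (l 15790080) (l 15788712))) (c (l 15725072) (l 15790216))) (l 15781632)) (a (c (b (a (l 15727136) (c (l 15727888) (l 15726392))) (l 15657008)) (b (c (l 15725624) (l 15727952)) (l 15655000))) (b (l 15741000) (l 15669728))))))), by decide +kernel⟩

def k28_pm_101 : ∃ t, chk3 f_pm_101 t 66 13 5 = true :=
  ⟨(b (c (a (a (c (b (l 15928296) (l 15853600)) (a (b (c (l 15922216) (l 15920160)) (l 15783488)) (b (l 15925320) (l 15850304)))) (c (a (c (b (l 15928768) (l 15853944)) (l 15827832)) (l 15896752)) (l 15898776))) (l 15919432)) (l 15789600)) (b (c (a (a (c (l 15775936) (a (l 15768192) (l 15772320))) (c (a (l 15713616) (l 15782328)) (l 15784704))) (l 15807584)) (l 15803432)) (c (a (a (c (b (l 15713056) (l 15639624)) (b (a (l 15704800) (l 15709096)) (l 15633136))) (c (b (a (l 15713560) (l 15719632)) (l 15643856)) (l 15684712))) (l 15709408)) (l 15703976)))), by decide +kernel⟩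

def k29_pm_101 : ∃ t, chk3 f_pm_101 t 66 13 3 = true :=
  ⟨(b (c (c (l 15926736) (c (a (l 15919448) (l 15927960)) (a (l 15901880) (l 15948344)))) (b (l 15966304) (l 15894624))) (c (b (c (l 15816208) (a (l 15809808) (l 15840224))) (c (l 15716624) (b (a (l 15748368) (l 15780336)) (l 15685192)))) (b (l 15820104) (l 15613072)))), by decide +kernel⟩

def k30_pm_101 : ∃ t, chk3 f_pm_101 t 67 13 1 = true :=
  ⟨(c (b (c (c (a (a (c (c (a (b (l 15953464) (l 15880152)) (b (a (b (l 15950872) (l 15914888)) (l 15956352)) (a (b (l 15899184) (l 15861792)) (l 15883152)))) (a (b (a (l 15950256) (l 15952080)) (a (l 15876680) (l 15878616))) (l 15920744))) (l 15942520)) (b (l 15970464) (l 15898384))) (b (l 15993336) (l 15922976))) (b (l 15990072) (l 15919640))) (b (l 15944256) (l 15917296))) (c (b (c (a (c (a (a (c (l 15803944) (a (l 15800208) (l 15802248))) (c (a (l 15804176) (l 15807072)) (l 15808464))) (l 15819840)) (l 15818240)) (l 15849848)) (l 15846432)) (a (c (c (a (b (a (c (l 15742520) (l 15740032)) (c (l 15744560)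 (l 15747192))) (a (l 15673016) (l 15677352))) (l 15724680)) (l 15722488)) (l 15733136)) (b (l 15798272) (l 15729704)))) (b (l 15866640) (b (l 15808344) (l 15736312))))) (b (c (c (c (a (l 15971368) (l 15958944)) (a (l 15953976) (l 16000464))) (l 15984984)) (l 15977320)) (c (b (c (a (l 15867336) (l 15897856)) (l 15880824)) (c (b (a (l 15808960) (l 15841048)) (l 15749768)) (l 15784528))) (b (l 15872152) (l 15773424))))), by decide +kernel⟩

def k31_pm_101 : ∃ t, chk3 f_pm_101 t 17 24 2 = true :=
  ⟨(a (c (c (b (a (l 16241072) (l 16305664)) (a (c (l 16223040) (l 16227576)) (c (l 16270728) (l 16275208)))) (b (a (l 16291008) (l 16334448)) (a (l 16234248) (l 16281720)))) (c (a (l 16228600) (c (a (l 16302792) (l 16324024)) (a (l 16305432) (l 16323944)))) (a (b (l 16303640) (l 16248352)) (l 16313168)))) (c (c (a (b (l 16327560) (c (l 16317808) (l 16322232))) (c (a (b (l 16399320) (l 16352664)) (b (c (l 16397856) (l 16419264)) (c (l 16332160) (l 16374600)))) (a (b (l 16401960) (l 16355640)) (l 16396576)))) (a (a (c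 (l 16339704) (l 16279520)) (b (l 16363592) (l 16294648))) (b (l 16409352) (l 16363704)))) (c (b (l 16390960) (l 16343536)) (l 16322432)))), by decide +kernel⟩

def k32_pm_101 : ∃ t, chk3 f_pm_101 t 17 25 2 = true :=
  ⟨(a (b (c (c (a (b (l 16180800) (l 16150336)) (b (l 16231576) (l 16203256))) (a (l 16175392) (l 16227056))) (c (a (l 16184880) (c (l 16233216) (l 16234688))) (a (l 16191024) (l 16233224)))) (c (b (c (a (l 16119312) (l 16174408)) (l 16157512)) (a (b (c (b (l 16099360) (l 16092224)) (l 16106264)) (l 16085464)) (c (b (l 16151504) (l 16138320)) (b (l 16162352) (l 16149392))))) (b (c (a (l 16140160) (l 16191712)) (l 16105616)) (a (c (l 16110896) (a (c (l 16104664) (l 16108008)) (c (l 16131072) (l 16130824)))) (c (a (c (l 16150376) (b (l 16159848) (l 16146088))) (b (l 16182944) (l 16148784))) (l 16163152)))))) (c (a (c (b (c (l 16266200) (l 16271120)) (b (l 16228928) (b (l 16208664) (b (l 16198320) (l 16191544))))) (b (c (a (l 16263208) (l 16287104)) (l 16276488)) (b (c (l 16235736) (l 16237448))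 (b (l 16216024) (a (c (l 16189880) (l 16193544)) (c (c (l 16216144) (l 16217064)) (l 16216328))))))) (b (c (c (a (l 16304296) (a (l 16322696) (c (l 16333752) (l 16333816)))) (a (l 16307608) (l 16328032))) (l 16316368)) (a (c (b (a (l 16262520) (l 16280208)) (b (l 16249424) (c (l 16234880) (c (l 16217528) (l 16239456))))) (l 16233776)) (c (c (b (c (l 16291944) (l 16292536)) (b (l 16273840) (a (c (l 16254376) (l 16256288)) (b (l 16271000) (a (l 16241232) (l 16267880)))))) (l 16278136)) (l 16275696))))) (b (c (l 16294360) (l 16291232)) (b (l 16254696) (a (b (l 16214400) (l 16201536)) (l 16248296)))))), by decide +kernel⟩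

def k33_pm_101 : ∃ t, chk3 f_pm_101 t 17 12 3 = true :=
  ⟨(b (c (a (c (l 16292648) (l 16289552)) (b (l 16384712) (l 16336520))) (a (l 16242984) (l 16292176))) (a (b (c (l 16208664) (l 16200992)) (c (b (l 16165432) (a (l 16115368) (l 16157136))) (b (l 16157184) (l 16128000)))) (b (c (l 16286552) (l 16280304)) (b (l 16244672) (a (l 16195488) (l 16238088)))))), by decide +kernel⟩

def k34_pm_101 : ∃ t, chk3 f_pm_101 t 34 13 2 = true :=
  ⟨(b (c (c (b (a (c (l 16035984) (l 16042040)) (c (l 16096736) (l 16102752))) (a (b (l 15989264) (l 15955176)) (b (l 16053488) (l 16021808)))) (b (a (l 16050968) (l 16111504)) (a (l 15985160) (l 16050392)))) (c (a (b (l 16062424) (l 15997656)) (c (a (l 16074192) (b (l 16133424) (l 16074136))) (a (b (l 16108872) (l 16047720)) (l 16103472)))) (a (a (b (l 16015320) (l 15992232)) (b (l 16062768) (l 16020696))) (l 16088536)))) (c (b (c (a (l 15902624) (l 15972952)) (a (l 15916768) (l 15986896))) (b (c (a (l 15846336) (l 15920440)) (l 15856296)) (a (l 15786992) (l 15863072)))) (b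 (a (c (l 15930336) (a (l 15924648) (l 15955184))) (c (c (l 15932832) (l 15997856)) (l 15995760))) (a (c (l 15798752) (b (a (l 15869360) (l 15901496)) (l 15814056))) (c (b (a (l 15929424) (l 15961536)) (l 15835976)) (l 15909624)))))), by decide +kernel⟩

def k35_pm_101 : ∃ t, chk3 f_pm_101 t 35 13 2 = true :=
  ⟨(b (c (a (c (b (c (l 16157112) (l 16163080)) (c (l 16099432) (l 16105960))) (c (a (l 16124856) (b (c (l 16181880) (l 16182856)) (l 16084560))) (a (b (l 16157816) (l 16100392)) (l 16154136)))) (c (a (c (b (l 16202072) (l 16148024)) (b (c (l 16205912) (l 16206928)) (c (l 16152232) (l 16153336)))) (c (c (a (l 16217624) (b (a (l 16233816) (l 16240272)) (a (l 16182352) (l 16189336)))) (a (b (l 16224992) (l 16172832)) (l 16211216))) (l 16204072))) (b (l 16216336) (l 16163448)))) (c (b (l 16169456) (l 16135464)) (b (l 16186632) (l 16131312)))) (c (b (a (c (l 16042944) (c (a (l 16036112) (l 16068792)) (a (l 16040736) (l 16068824)))) (c (a (c (l 16091880) (l 16054736)) (c (a (l 16117256) (c (l 16132464) (l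 16132560))) (l 16124576))) (l 16108512))) (a (c (b (l 15994264) (l 15932760)) (b (c (a (l 15987000) (l 16021472)) (l 15985232)) (c (l 15941296) (l 15942816)))) (c (a (b (c (l 16045920) (l 16050944)) (l 15988248)) (c (b (a (l 16072704) (l 16088608)) (l 16021936)) (l 16050520))) (l 15948592)))) (b (a (l 16050352) (l 16102000)) (a (b (l 16001752) (l 15935824)) (l 16023816))))), by decide +kernel⟩

def k36_pm_101 : ∃ t, chk3 f_pm_101 t 17 13 3 = true :=
  ⟨(b (a (c (c (b (l 16091864) (l 16029368)) (l 16013784)) (b (l 16080936) (l 16017432))) (c (b (l 16180936) (l 16125088)) (b (l 16173344) (l 16116784)))) (a (b (c (l 15878544) (l 15951448)) (c (b (l 15908888) (l 15836128)) (l 15711320))) (b (c (l 16067064) (l 16058016)) (c (b (l 16018984) (l 15949752)) (l 15888288))))), by decide +kernel⟩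

def k37_pm_101 : ∃ t, chk3 f_pm_101 t 18 12 1 = true :=
  ⟨(c (a (b (c (c (b (a (l 16442840) (l 16472976)) (a (l 16400440) (l 16433528))) (b (l 16434840) (l 16414600))) (b (c (l 16453720) (l 16451624)) (a (l 16394256) (l 16427888)))) (b (c (c (a (l 16356480) (l 16392624)) (l 16371888)) (a (l 16349576) (l 16386320))) (c (a (c (b (l 16322544) (a (l 16288232) (l 16309176))) (l 16306552)) (l 16369784)) (a (l 16280984) (l 16343216))))) (b (c (b (c (l 16495432) (l 16514696)) (c (b (l 16490360) (l 16472544)) (l 16479456))) (b (c (l 16512984) (l 16511272)) (c (l 16477520) (l 16475576)))) (c (a (b (l 16437208) (l 16408336)) (b (l 16461152) (l 16425000))) (b (l 16439664) (l 16401416))))) (b (a (c (b (l 16406544) (l 16406344)) (b (l 16444296) (l 16401616))) (c (b (l 16508704) (l 16472672)) (b (l 16505288) (l 16468792)))) (a (b (c (l 16362648) (l 16357368)) (a (c (l 16295824) (l 16289688)) (l 16334816))) (c (b (l 16435312) (l 16396568)) (b (l 16430952) (l 16391720)))))), by decide +kernel⟩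

def k38_pm_101 : ∃ t, chk3 f_pm_101 t 18 13 1 = true :=
  ⟨(c (b (a (c (a (b (c (a (l 16252824) (l 16275144)) (l 16261112)) (c (l 16235344) (l 16210672))) (b (b (b (l 16322040) (l 16310360)) (l 16293368)) (l 16258608))) (b (a (l 16256072) (l 16300440)) (a (l 16205136) (l 16251832)))) (b (a (b (c (b (l 16361760) (l 16351808)) (l 16352304)) (l 16349912)) (b (c (b (l 16401272) (l 16392944)) (l 16392088)) (l 16396272))) (c (a (l 16303912) (l 16348384)) (l 16320320)))) (a (b (c (a (c (l 16163296) (l 16159256)) (l 16210848)) (a (l 16153216) (l 16203440))) (c (a (b (c (l 16121208) (l 16116760)) (l 16060472)) (b (l 16171232) (l 16114232))) (b (a (l 16110120) (l 16163056)) (l 16074840)))) (b (c (a (l 16259696) (l 16328768)) (l 16256392)) (b (c (b (l 16256640) (a (l 16214384) (l 16265728))) (l 16220216)) (c (a (l 16167408) (l 16219920)) (l 16182872)))))) (b (a (b (a (c (l 16249352) (l 16242624)) (b (l 16302200) (l 16277560))) (a (l 16194096) (l 16241664))) (b (b (a (l 16344080) (l 16384632)) (l 16343368)) (c (l 16314424)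 (l 16308528)))) (a (b (a (l 16141168) (l 16192336)) (a (b (l 16096848) (l 16028328)) (b (l 16150792) (l 16084112)))) (b (c (l 16270912) (l 16264464)) (b (c (l 16234024) (l 16226872)) (l 16166576)))))), by decide +kernel⟩

def k39_pm_101 : ∃ t, chk3 f_pm_101 t 19 12 1 = true :=
  ⟨(c (b (c (a (b (a (c (l 16557608) (l 16556168)) (l 16578168)) (a (c (l 16527040) (l 16525400)) (l 16528792))) (c (b (l 16605744) (l 16559320)) (b (l 16604616) (l 16579000)))) (a (b (a (l 16554008) (l 16575568)) (a (l 16522936) (l 16546792))) (b (c (l 16603496) (l 16602368)) (c (l 16577712) (l 16576416))))) (c (a (b (c (a (l 16495352) (l 16521152)) (l 16485576)) (a (l 16482432) (l 16489768))) (b (c (a (l 16543168) (l 16564552)) (l 16552448)) (c (a (l 16514784) (l 16538224)) (l 16524912)))) (a (b (a (l 16490736) (l 16516952)) (l 16429792)) (b (c (l 16550984) (l 16549520)) (l 16522448))))) (b (c (a (b (a (l 16551128) (l 16572968)) (a (l 16519656) (l 16543816))) (b (l 16579712) (l 16574480))) (a (b (a (l 16548248) (l 16570368)) (a (l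 16516376) (l 16540840))) (b (l 16577464) (l 16571904)))) (c (a (b (a (l 16487032) (l 16513592)) (l 16467792)) (b (l 16547320) (l 16519160))) (a (b (a (l 16483336) (l 16510240)) (l 16463856)) (b (l 16544392) (l 16515872)))))), by decide +kernel⟩

def k40_pm_101 : ∃ t, chk3 f_pm_101 t 19 13 1 = true :=
  ⟨(b (a (c (b (a (b (b (l 16438136) (c (a (l 16422568) (l 16441296)) (l 16427464))) (c (a (l 16408696) (l 16428408)) (l 16413880))) (b (c (l 16465256) (l 16461176)) (l 16447912))) (a (c (a (l 16381184) (l 16402208)) (l 16386664)) (c (l 16425168) (l 16420568)))) (b (a (b (b (l 16429328) (l 16399728)) (l 16406848)) (b (l 16455064) (l 16439352))) (a (c (l 16381624) (l 16376584)) (l 16413664)))) (c (b (b (c (a (l 16491592) (l 16517040)) (l 16500552)) (c (b (a (l 16481208) (l 16506664)) (l 16486400)) (l 16487304))) (c (c (l 16468680) (l 16466656)) (l 16463624))) (b (b (l 16474224) (c (l 16483568) (l 16479824))) (c (l 16459576) (l 16455528))))) (c (b (a (a (c (a (l 16343368) (a (l 16360968) (l 16371416))) (l 16349264))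 (c (l 16390984) (l 16385936))) (c (c (l 16438048) (l 16435824)) (l 16432488))) (a (a (b (c (a (l 16311392) (b (l 16343072) (l 16328184))) (l 16296376)) (c (a (l 16258832) (l 16283832)) (l 16261648))) (b (c (b (l 16369048) (l 16354616)) (l 16356144)) (c (l 16310776) (l 16301688)))) (b (c (b (l 16417248) (l 16382696)) (l 16405400)) (c (c (l 16362832) (l 16358680)) (l 16352464))))) (b (a (a (c (l 16343744) (l 16338224)) (l 16378360)) (l 16383872)) (a (a (b (c (l 16311176) (l 16305008)) (l 16247088)) (b (l 16347648) (l 16288048))) (b (l 16397872) (l 16340032)))))), by decide +kernel⟩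

def k41_pm_101 : ∃ t, chk3 f_pm_101 t 64 14 2 = true :=
  ⟨(b (c (b (b (l 15478848) (l 15372168)) (l 15221736)) (a (b (l 15359488) (l 15121504)) (a (b (l 15416600) (l 15184952)) (c (l 15555552) (b (a (c (l 15441336) (l 15433576)) (c (a (l 15454608) (l 15460408)) (l 15442536))) (a (l 15200992) (c (l 15226384) (l 15204072)))))))) (c (b (l 15051208) (b (l 14959784) (l 14925816))) (a (b (l 14904552) (l 14728976)) (c (b (l 15020440) (l 14864872)) (a (l 14848696) (b (a (l 14982792) (l 15060672)) (a (l 14799264) (l 14815384)))))))), by decide +kernel⟩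

def k42_pm_101 : ∃ t, chk3 f_pm_101 t 65 14 2 = true :=
  ⟨(b (a (c (c (c (b (l 15537456) (l 15354656)) (a (l 15603896) (a (l 15609432) (b (a (l 15552480) (c (l 15561096) (l 15554224))) (a (l 15364240) (l 15369568)))))) (a (b (c (l 15509568) (l 15545384)) (l 15304144)) (b (a (c (a (l 15530896) (l 15537200)) (l 15521088)) (l 15531592)) (a (c (l 15337136) (l 15317096)) (l 15332152))))) (c (a (b (a (c (l 15489264) (a (l 15477680) (l 15482040))) (c (l 15542592) (l 15483992))) (a (c (l 15275392) (l 15257840)) (l 15275456))) (b (l 15495320) (l 15279888))) (b (l 15457776) (l 15225752)))) (c (b (c (a (a (c (b (a (l 15621272) (l 15624288)) (l 15548384)) (l 15558760)) (l 15567352)) (l 15566000)) (l 15531280)) (c (a (c (a (a (l 15393016) (l 15396776)) (l 15397424)) (l 15371880)) (l 15384968)) (l 15334848))) (c (b (l 15496936) (l 15285456)) (b (a (b (c (l 15529272) (l 15516424)) (l 15407768)) (c (b (a (l 15530576) (l 15535176)) (l 15423320)) (l 15474256))) (a (l 15236168) (c (l 15255816) (l 15246248))))))) (c (c (c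 (a (b (l 15204672) (l 15111384)) (a (a (b (l 15245792) (l 15150880)) (l 15190944)) (l 15189616))) (a (a (l 15141992) (a (l 15129096) (b (l 15208000) (l 15101104)))) (l 15254552))) (a (a (b (l 15129352) (l 15003208)) (b (a (c (l 15168712) (l 15138832)) (l 15159104)) (a (c (l 15049248) (l 15006032)) (l 15032400)))) (b (l 15161904) (l 15033368)))) (a (c (a (b (a (c (l 15085472) (l 15057928)) (l 15081392)) (a (l 14917352) (l 14928192))) (l 15001552)) (l 14913344)) (c (l 15050096) (b (a (l 15023952) (c (l 15049808) (l 15031640))) (a (l 14844128) (l 14863568))))))), by decide +kernel⟩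

def k43_pm_101 : ∃ t, chk3 f_pm_101 t 64 14 3 = true :=
  ⟨(a (a (b (c (b (l 15310440) (l 15037824)) (c (b (l 15287824) (l 14990896)) (c (a (b (l 15266056) (l 14955296)) (b (a (l 15279600) (l 15286296)) (l 14974576))) (a (b (c (l 15216976) (a (l 15124296) (l 15257768))) (c (l 14941920) (l 14849064))) (b (l 15271424) (l 14955312)))))) (c (l 14772560) (c (b (l 14693192) (l 14401264)) (c (a (l 14476800) (b (l 14661688) (l 14347400))) (b (a (c (l 14616648) (l 14601928)) (l 14631032)) (c (l 14298680) (l 14276136))))))) (c (c (b (l 15099632) (l 14734280)) (b (a (l 15193456) (b (c (l 15357592) (l 15347992)) (l 15078400))) (b (l 14798600) (l 14546712)))) (b (c (a (b (c (l 15321760) (l 15307880)) (c (l 15033328) (l 15011040))) (c (b (l 15332952) (l 15046760)) (b (l 15315600) (l 15020848)))) (c (b (l 15218016) (l 14998056)) (b (l 15296232) (l 14984632)))) (c (b (a (l 14728720) (l 14809664)) (a (l 14443232) (l 14465032))) (c (b (l 14690240) (l 14382760)) (l 14502600)))))) (c (b (c (a (b (a (l 15387248) (c (l 15409264)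 (l 15397312))) (a (l 15131552) (c (l 15159704) (l 15139784)))) (b (l 15413080) (l 15161664))) (c (a (b (a (l 15373168) (l 15380064)) (l 15109504)) (l 15251504)) (a (l 15219408) (b (l 15204328) (l 15100304))))) (c (a (a (l 14815296) (b (l 14907792) (l 14693240))) (b (l 14923000) (l 14710736))) (a (b (l 14832304) (l 14586080)) (b (l 14851960) (l 14610072))))) (b (c (b (a (c (l 15342936) (l 15335176)) (l 15367496)) (a (c (l 15059512) (l 15044056)) (l 15084944))) (b (l 15345664) (l 15046160))) (a (c (b (l 14767528) (l 14490768)) (l 14566528)) (c (l 14497944) (l 14613488)))))), by decide +kernel⟩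

def k44_pm_101 : ∃ t, chk3 f_pm_101 t 65 14 3 = true :=
  ⟨(c (b (a (c (b (a (l 15420040) (c (l 15434984) (a (l 15420080) (l 15431792)))) (a (l 15170888) (c (l 15192032) (l 15176408)))) (a (c (b (l 15211256) (l 15139216)) (l 15261512)) (a (l 15203456) (l 15073096)))) (b (c (b (a (l 15513880) (l 15538224)) (l 15407352)) (l 15470648)) (c (l 15226352) (l 15219536)))) (a (c (b (a (l 14934672) (c (l 14963152) (l 14938008))) (a (l 14724728) (l 14744712))) (b (a (l 14879344) (l 14916304)) (l 14663856))) (b (l 14985640) (l 14771376)))) (b (b (c (b (a (l 15483888) (l 15534424)) (l 15375616)) (l 15428992)) (c (l 15171768) (l 15146928))) (b (l 14819488) (l 14615560)))), by decide +kernel⟩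

def k45_pm_101 : ∃ t, chk3 f_pm_101 t 33 14 2 = true :=
  ⟨(b (a (c (a (b (c (b (l 15606504) (l 15520064)) (b (a (l 15578944) (l 15575232)) (l 15463808))) (c (l 15384672) (c (l 15349288) (l 15326664)))) (b (c (a (l 15578008) (c (l 15560576) (b (a (l 15587368) (l 15589816)) (a (l 15508104) (l 15532800))))) (a (b (c (l 15578664) (l 15575192)) (c (a (l 15492720) (l 15495272)) (l 15489000))) (b (l 15590976) (l 15509632)))) (c (c (l 15394160) (a (l 15372240) (a (l 15372592) (l 15377864)))) (a (c (l 15352448) (l 15342192)) (l 15368728))))) (b (a (c (c (a (b (l 15556704) (l 15457424)) (b (l 15562280) (l 15468656))) (a (b (a (l 15545160) (l 15550640)) (l 15446520)) (l 15515952))) (l 15509120)) (b (l 15597112) (l 15508368))) (c (a (a (c (l 15301944) (l 15285728)) (c (l 15314488) (l 15310616))) (l 15354200)) (l 15323424)))) (c (b (a (c (a (c (a (b (l 15597680) (l 15627272)) (c (l 15579136) (l 15564704))) (l 15563232)) (l 15581056)) (l 15580648)) (l 15615976)) (a (c (a (c (a (l 15394696) (l 15401632)) (l 15394856))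 (l 15420120)) (l 15408648)) (b (l 15501080) (l 15417160)))) (b (b (l 15655544) (l 15574104)) (b (l 15484632) (l 15388128))))) (a (c (a (b (c (l 15230048) (l 15165336)) (c (l 15122368) (l 15034144))) (a (c (l 15185296) (b (c (l 15184072) (l 15165800)) (c (l 15056720) (l 15027896)))) (c (c (l 15179760) (b (l 15216376) (l 15098576))) (b (l 15197592) (l 15064872))))) (c (a (b (a (c (l 15115176) (l 15090152)) (l 15123432)) (a (l 14949712) (l 14969520))) (l 15084368)) (b (l 15119824) (l 14946080)))) (a (a (c (c (c (b (l 15268400) (l 15138568)) (l 15168712)) (l 15152352)) (l 15181896)) (b (l 15247760) (l 15106456))) (b (c (l 15299808) (l 15277976)) (l 15168768))))), by decide +kernel⟩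

def k46_pm_101 : ∃ t, chk3 f_pm_101 t 33 14 3 = true :=
  ⟨(b (b (c (a (c (b (l 15591056) (l 15490968)) (b (l 15553128) (a (l 15468584) (l 15516928)))) (c (a (l 15605688) (l 15641008)) (l 15614512))) (a (b (l 15582632) (l 15472000)) (l 15594576))) (c (a (c (l 15320528) (l 15311704)) (c (b (l 15484184) (l 15379056)) (l 15413384))) (a (l 15278312) (l 15378856)))) (c (b (a (c (l 15101984) (l 15077880)) (c (l 15224376) (l 15193184))) (a (l 14979224) (l 15013840))) (b (l 15080720) (l 14842912)))), by decide +kernel⟩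

def k47_pm_101 : ∃ t, chk3 f_pm_101 t 17 14 1 = true :=
  ⟨(b (c (a (a (b (c (l 15675584) (c (l 15690088) (l 15568176))) (c (b (l 15566240) (l 15490256)) (c (b (l 15574424) (l 15492072)) (b (l 15573840) (l 15487072))))) (c (b (l 15691896) (b (l 15648560) (l 15578728))) (a (c (b (l 15748232) (l 15597112)) (l 15516432)) (b (l 15777608) (l 15624976))))) (c (a (c (b (l 15829216) (l 15693712)) (b (a (l 15818056) (l 15852424)) (l 15693272))) (c (b (a (c (l 15886080) (l 15888744)) (c (l 15922904) (l 15920208))) (a (l 15753784) (l 15789160))) (b (l 15897616) (l 15758984)))) (b (a (l 15822848) (l 15881232)) (l 15702392)))) (a (b (c (l 15710784) (l 15685456)) (a (b (l 15535760) (l 15436720)) (l 15553160))) (b (c (l 15829496) (l 15807064)) (l 15649280)))) (c (a (b (c (a (l 15376528) (b (l 15507992) (l 15438928))) (a (c (l 15364664) (l 15350344)) (a (l 15427696) (l 15468280)))) (c (a (l 15252680) (l 15348416)) (a (c (l 15217712) (l 15187944)) (l 15295448)))) (b (c (a (c (l 15541928) (b (l 15590008) (l 15521608))) (c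 (a (l 15625000) (l 15660880)) (l 15622968))) (a (l 15520896) (l 15585424))) (c (a (c (l 15445960) (l 15425976)) (c (a (l 15507320) (l 15542152)) (l 15494544))) (a (l 15373696) (l 15441160))))) (a (b (a (l 15275064) (l 15362272)) (a (l 15072312) (l 15167816))) (b (a (l 15439712) (l 15510288)) (a (l 15255088) (l 15334344)))))), by decide +kernel⟩

def k48_pm_101 : ∃ t, chk3 f_pm_101 t 8 30 1 = true :=
  ⟨(b (a (a (a (b (c (c (l 14962736) (a (l 14642832) (c (l 14795600) (a (l 14662416) (a (l 14699096) (l 14715376)))))) (c (a (c (l 14462424) (l 14341032)) (a (c (l 14547688) (l 14419352)) (c (l 14579464) (l 14447392)))) (a (c (a (l 14183584) (c (l 14279352) (l 14212200))) (a (c (l 14086952) (l 14022440)) (l 14118824))) (c (l 14318416) (l 14214224))))) (l 6)) (c (c (b (a (a (l 15010848) (c (l 15092168) (l 15087552))) (c (l 15122512) (l 14982512))) (b (a (a (l 6) (c (l 15110080) (l 14983040))) (l 15045136)) (l 6))) (a (c (a (a (c (l 14865712) (l 14803416)) (l 14842904)) (l 14845096)) (l 14702976)) (c (l 14846040)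 (a (l 14715320) (l 14734000))))) (c (a (c (a (l 14555736) (l 14577496)) (l 14455912)) (l 14589904)) (l 14273216)))) (c (a (c (a (c (l 15088624) (l 14967864)) (c (c (l 15099344) (l 15046064)) (a (l 14971648) (l 14989200)))) (a (c (a (l 14852240) (l 14869680)) (l 14781424)) (l 14880912))) (c (c (b (l 15117024) (l 15107400)) (l 15052384)) (l 14970728))) (c (a (l 14710584) (l 14845392)) (l 14618128)))) (c (a (c (l 15255488) (a (l 15077944) (l 15167712))) (c (a (l 15334720) (l 15463688)) (l 15274728))) (a (c (l 15003776) (l 14871136)) (l 15118800)))) (b (a (b (a (l 6) (a (l 6) (c (c (l 15081592) (l 14929968)) (l 14666728)))) (l 6)) (a (c (c (l 15187144) (a (l 15020288) (l 15099152))) (l 14823176)) (c (a (l 15222688) (l 15279512)) (l 15000600)))) (a (l 6) (a (a (l 6) (a (l 6) (c (c (l 15244592) (l 15101816)) (l 14845816)))) (c (c (a (c (l 15311448) (a (l 15240336) (l 15263592))) (c (a (l 15345856) (c (l 15380272) (l 15350048))) (l 15291984))) (a (l 15141632) (l 15190272))) (a (l 14909528) (l 14986776))))))), by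 decide +kernel⟩

def k49_pm_101 : ∃ t, chk3 f_pm_101 t 8 31 1 = true :=
  ⟨(b (b (b (a (l 6) (a (l 6) (c (c (a (l 6) (c (a (l 6) (l 15363472)) (l 15295640))) (l 15165944)) (l 14931480)))) (l 6)) (l 6)) (l 6)), by decide +kernel⟩

def k50_pm_101 : ∃ t, chk3 f_pm_101 t 9 14 1 = true :=
  ⟨(a (c (b (a (c (b (a (l 16001912) (l 16015624)) (a (l 15826312) (l 15883672))) (b (l 16072352) (l 15822992))) (b (c (a (l 16091696) (b (l 16157104) (l 16093488))) (l 16179624)) (c (a (l 15940512) (l 16017672)) (l 15940392)))) (a (b (c (a (l 15694680) (l 15752504)) (l 15677784)) (a (b (l 15569656) (l 15505256)) (l 15594600))) (b (c (a (l 15809920) (l 15866800)) (l 15798512)) (b (l 15716560) (l 15648768))))) (b (a (b (a (l 15908024) (l 15966488)) (a (l 15744272) (l 15806168))) (b (c (l 16062024) (l 16044040)) (c (l 15912120) (l 15883856)))) (a (b (l 15609256) (a (l 15406304) (l 15474312))) (b (l 15738688) (l 15575584))))) (b (c (a (a (b (a (c (l 16196984) (l 16148952)) (c (b (l 16222664) (l 16160400)) (l 16175432))) (c (a (l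 16038400) (a (l 16059080) (l 16071240))) (l 16026304))) (b (c (b (l 16250128) (l 16188256)) (l 16203760)) (c (c (l 16099296) (l 16087352)) (l 16069440)))) (b (c (c (b (l 16304088) (l 16243832)) (l 16224928)) (l 16193392)) (c (c (b (l 16182312) (l 16119744)) (l 16140064)) (l 16123784)))) (a (b (a (c (l 16145896) (l 16129600)) (l 16180720)) (a (l 16050992) (l 16033616))) (b (c (l 16242216) (l 16228128)) (c (l 16102080) (l 16080376))))) (c (a (b (a (c (a (l 15909088) (b (l 15968872) (l 15903976))) (l 15887168)) (c (c (l 15972624) (l 15956136)) (l 15931400))) (a (c (b (l 15825296) (l 15760168)) (l 15745728)) (c (b (l 15866568) (l 15800824)) (l 15790456)))) (b (c (c (b (l 16056280) (l 15992056)) (l 16009200)) (l 15986992)) (c (b (c (l 15927208) (l 15909264)) (l 15851768)) (l 15846680)))) (a (b (a (l 15833936) (l 15881928)) (a (l 15675648) (l 15725944))) (b (c (l 15957392) (l 15927784)) (c (l 15808576) (l 15770472))))))), by decide +kernel⟩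

def k51_pm_101 : ∃ t, chk3 f_pm_101 t 18 15 1 = true :=
  ⟨(a (b (c (b (a (l 15410096) (l 15669976)) (b (l 15350136) (c (a (l 15356424) (l 15386520)) (l 15404824)))) (b (a (l 15232104) (l 15298928)) (b (l 15144624) (a (l 15055760) (l 15117840))))) (b (b (c (c (a (l 15345992) (l 15366328)) (l 15242592)) (l 15056712)) (a (l 6) (c (c (l 15356152) (l 15248320)) (l 15070976)))) (l 6))) (b (b (c (a (b (l 15547280) (l 15475176)) (b (l 15604056) (l 15525640))) (b (l 15444832) (a (l 15318296) (l 15383360)))) (b (c (a (l 15412568) (a (l 15442648) (l 15464136))) (l 15307848)) (c (a (b (l 15374824) (l 15361592)) (c (b (l 15454176) (l 15439768)) (l 15360432))) (a (l 15175432) (b (l 15239600) (l 15217376)))))) (b (c (c (b (a (l 15499016) (c (l 15432896) (l 15394624))) (a (l 15368560) (c (l 15403592) (l 15363920)))) (b (a (l 15295552) (l 15330592)) (a (l 15275152) (c (l 15324520) (l 15283472))))) (c (a (l 15180120) (l 15223336)) (a (l 15072464) (l 15126984)))) (b (b (a (l 6) (b (c (c (l 15375176) (l 15289184)) (l 15152672))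 (l 6))) (l 6)) (l 6))))), by decide +kernel⟩

def k52_pm_101 : ∃ t, chk3 f_pm_101 t 38 30 1 = true :=
  ⟨(b (c (a (c (b (l 15689080) (l 15612664)) (l 15590328)) (b (l 15702856) (l 15621616))) (a (l 15500024) (l 15552336))) (b (c (a (a (b (l 15507360) (l 15468664)) (l 15513752)) (l 15540016)) (a (l 15357184) (l 15410064))) (a (c (b (a (c (l 15499080) (l 15398312)) (a (b (l 15458400) (l 15446568)) (c (b (l 15506784) (l 15493704)) (l 15425704)))) (a (c (l 15461912) (l 15379536)) (c (a (l 15473040) (c (l 15498128) (l 15459728))) (l 15397536)))) (a (b (l 15278568) (l 15255544)) (b (a (l 15299392) (l 15313472)) (l 15279344)))) (c (b (c (b (l 15524232) (l 15510712)) (l 15447216)) (c (c (a (l 15503992) (l 15515344)) (l 15473576)) (l 15418352))) (b (l 15341680) (l 15307920)))))), by decide +kernel⟩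

def k53_pm_101 : ∃ t, chk3 f_pm_101 t 38 31 1 = true :=
  ⟨(b (b (c (a (c (a (c (l 15450072) (l 15415408)) (a (c (l 15458952) (l 15425960)) (c (b (l 15475440) (l 15451944)) (l 15431240)))) (a (l 15356696) (a (l 15369704) (l 15376400)))) (c (b (c (a (b (l 15485536) (l 15471656)) (b (l 15492936) (l 15475472))) (a (l 15446800) (l 15454328))) (c (a (l 15452696) (l 15453872)) (l 15426128))) (b (l 15394056) (l 15374912)))) (a (a (l 15226616) (l 15249280)) (c (l 15307280) (l 15229584)))) (c (a (c (a (c (l 15415392) (l 15379736)) (a (c (l 15421888) (l 15388080)) (c (l 15424752) (l 15392000)))) (a (c (l 15344336) (l 15307248)) (c (b (l 15367784) (l 15347896)) (l 15322280)))) (c (c (b (l 15430984) (l 15415800)) (l 15392720)) (c (l 15362080) (l 15329728)))) (a (c (l 15252936) (l 15163832)) (c (l 15273120) (l 15191000))))) (b (a (b (c (c (c (b (a (l 15406200) (l 15411864)) (a (l 6) (a (l 15409360) (c (l 15420960) (l 15400352))))) (l 15367104)) (a (l 15305264) (l 15316712))) (c (l 15256856) (l 15148536))) (l 6)) (c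 (c (c (b (b (l 15409328) (c (l 15416000) (l 15396368))) (c (l 15419528) (l 15398672))) (b (l 15370344) (b (l 15387376) (l 15368368)))) (b (l 15319752) (c (b (l 15327880) (l 15327096)) (l 15310664)))) (c (c (l 15263600) (l 15228056)) (l 15167936)))) (l 6))), by decide +kernel⟩

def k54_pm_101 : ∃ t, chk3 f_pm_101 t 39 30 1 = true :=
  ⟨(b (c (c (c (b (l 15789704) (l 15711344)) (l 15726320)) (l 15690392)) (c (l 15642496) (l 15594592))) (b (c (c (l 15618432) (l 15562264)) (l 15478016)) (b (c (b (a (l 15522272) (l 15556048)) (c (a (l 15539584) (l 15570024)) (l 15493560))) (c (l 15440480) (l 15380016))) (c (c (a (l 15518920) (l 15548904)) (l 15470832)) (l 15376072))))), by decide +kernel⟩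

def k55_pm_101 : ∃ t, chk3 f_pm_101 t 39 62 1 = true :=
  ⟨(c (c (c (b (b (c (l 15520416) (l 15511096)) (a (a (b (l 15466936) (l 15450224)) (l 15470264)) (l 15490312))) (a (b (a (l 15431088) (b (l 15443096) (l 15427712))) (a (l 15413832) (l 15413144))) (b (l 15453504) (a (b (l 15422600) (l 15411152)) (l 15428560))))) (b (b (l 15490144) (a (a (l 15434280) (l 15447280)) (l 15470208))) (a (b (a (l 15404504) (l 15410864)) (l 15382560)) (b (l 15431448) (a (l 15388664) (l 15401728)))))) (b (a (b (l 15422976) (l 15394584)) (l 15444480)) (a (b (c (a (l 15377968) (l 15385912)) (l 15352120)) (c (l 15355048) (l 15327944))) (b (l 15393800) (c (l 15371112) (l 15347184)))))) (a (b (l 15302336) (c (l 15287144) (l 15210632))) (c (l 15285168) (l 15281504)))), by decide +kernel⟩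

def k56_pm_101 : ∃ t, chk3 f_pm_101 t 39 63 1 = true :=
  ⟨(b (a (c (c (c (b (b (l 15404912) (c (b (l 15409832) (l 15408920)) (l 15391248))) (c (l 15410792) (l 15391328))) (b (l 15367960) (c (l 15372048) (l 15352736)))) (b (l 15321464) (c (b (l 15326144) (l 15323712)) (l 15289936)))) (c (c (l 15268008) (l 15235192)) (l 15179152))) (c (c (b (c (b (a (l 15402832) (l 15408688)) (a (c (l 15405656) (l 15388408)) (c (b (a (l 15405520) (l 15409464)) (a (l 15403200) (l 15404704))) (b (l 15392104) (l 15387144))))) (a (l 15367184) (l 15372608))) (c (b (c (l 15403784) (b (l 15385416) (l 15385056))) (l 15395280)) (b (c (l 15367536) (l 15350080)) (l 15357960)))) (b (c (l 15340672) (l 15314272)) (b (l 15310320) (c (l 15321688) (l 15287504))))) (c (b (l 15271312) (l 15248776)) (l 15194232)))) (b (c (c (c (a (l 15406936) (l 15397992)) (l 15363456)) (c (l 15324608) (a (l 15288008) (l 15286248)))) (c (c (b (c (l 15257976) (l 15241576)) (l 15249368)) (b (l 15219136) (b (l 15213792) (l 15211696)))) (l 15167520))) (a (l 6)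 (c (c (c (c (l 15413120) (l 15394240)) (l 15365864)) (l 15309096)) (c (c (l 15252488) (b (l 15214312) (l 15216800))) (c (l 15177984) (l 15144896))))))), by decide +kernel⟩

def k57_pm_101 : ∃ t, chk3 f_pm_101 t 10 6 4 = true :=
  ⟨(b (a (b (a (c (b (l 16618440) (a (l 16608688) (l 16626776))) (b (l 16638504) (l 16616744))) (c (b (a (l 16662928) (l 16677792)) (a (l 16644184) (l 16660984))) (b (l 16669728) (l 16651832)))) (a (b (c (a (l 16585280) (l 16605360)) (l 16594192)) (c (a (l 16561016) (l 16583144)) (l 16570800))) (c (b (a (l 16624752) (l 16643552)) (a (l 16604608) (l 16625472))) (b (l 16633280) (l 16614048))))) (b (a (c (b (l 16698952) (l 16685064)) (b (l 16698432) (l 16684456))) (b (c (l 16724656) (l 16724312)) (c (l 16714664) (l 16714248)))) (b (a (c (l 16670664) (l 16669960)) (c (l 16704296) (l 16703824))) (a (c (l 16655728) (l 16654928)) (l 16672304))))) (b (a (b (a (a (b (l 16541504) (b (l 16531472) (l 16525552))) (b (l 16565304) (b (l 16556512) (l 16550936)))) (b (c (l 16600360) (l 16599200))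 (b (l 16571248) (a (l 16574936) (l 16598672))))) (a (c (l 16523064) (l 16521400)) (a (c (l 16562160) (l 16560752)) (c (b (l 16592688) (l 16582552)) (l 16586640))))) (b (a (c (l 16640232) (l 16639336)) (l 16661120)) (a (b (a (l 16616456) (l 16639720)) (l 16619640)) (b (l 16673208) (l 16667520))))) (a (b (a (c (l 16497160) (l 16495320)) (a (l 16539104) (l 16566816))) (a (b (b (l 16479584) (l 16446208)) (l 16362624)) (a (b (l 16498032) (l 16472584)) (b (l 16506592) (l 16502992))))) (b (a (c (l 16607608) (l 16606496)) (l 16658360)) (a (b (l 16549384) (l 16546912)) (b (l 16625120) (l 16603056))))))), by decide +kernel⟩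

def k58_pm_101 : ∃ t, chk3 f_pm_101 t 10 6 5 = true :=
  ⟨(b (a (b (c (a (b (l 16637600) (l 16615704)) (b (l 16669024) (l 16651016))) (a (b (l 16636696) (l 16614656)) (b (l 16668328) (l 16650200)))) (b (a (c (l 16593000) (l 16591800)) (c (l 16632344) (l 16631408))) (a (l 16526840) (c (l 16612984) (l 16611920))))) (b (b (a (c (l 16697920) (l 16697408)) (c (l 16723968) (l 16723616))) (c (a (l 16683856) (l 16713840)) (l 16656744))) (b (c (l 16644704) (l 16665088)) (a (l 16653736) (l 16692176))))) (b (a (b (a (b (l 16550552) (a (l 16525648) (l 16550296))) (a (l 16558504) (l 16603432))) (a (l 16518896) (a (l 16558632) (l 16584776)))) (b (a (l 16637992) (l 16680848)) (a (b (l 16626272) (l 16617576)) (l 16648576)))) (a (b (a (l 16492568) (l 16550096)) (a (b (l 16469168) (l 16418304)) (b (l 16530456) (l 16481664)))) (b (a (l 16604832) (l 16656808)) (a (b (l 16588704) (l 16541744)) (l 16621720)))))), by decide +kernel⟩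

def k59_pm_101 : ∃ t, chk3 f_pm_101 t 10 6 3 = true :=
  ⟨(b (a (b (c (a (b (c (l 16635792) (l 16634888)) (l 16613088)) (b (c (l 16667624) (l 16666928)) (l 16628000))) (c (a (l 16601688) (l 16614968)) (a (l 16579736) (l 16635176)))) (c (b (a (l 16590016) (l 16630000)) (a (l 16566088) (l 16610328))) (b (a (l 16587632) (l 16628128)) (a (l 16563400) (l 16608200))))) (b (c (b (a (c (l 16696896) (l 16696384)) (c (l 16723272) (l 16722928))) (c (l 16677208) (l 16676704))) (b (a (l 16674640) (c (l 16722584) (l 16722240))) (a (l 16681136) (l 16711992)))) (c (b (a (l 16667520) (l 16702144)) (a (l 16652144) (l 16691080))) (b (a (l 16666120) (l 16701192)) (l 16628680))))) (b (a (b (a (b (l 16525192) (c (l 16534936) (l 16531848))) (c (b (l 16595144) (l 16584016)) (l 16565424))) (a (l 16492928) (c (l 16569480) (l 16566832)))) (b (c (l 16616304) (l 16635760)) (a (c (l 16620704) (l 16618712)) (c (l 16668160) (l 16666768))))) (a (a (b (l 16487056) (b (l 16462880) (l 16407448))) (b (l 16545704) (b (l 16525376) (l 16472368))))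 (b (c (l 16587312) (l 16606400)) (a (b (l 16584768) (l 16534000)) (b (l 16641344) (l 16592768))))))), by decide +kernel⟩

def k60_pm_101 : ∃ t, chk3 f_pm_101 t 11 6 1 = true :=
  ⟨(b (b (b (b (l 14) (a (a (c (c (l 16745816) (l 16745408)) (c (l 16744992) (l 16744584))) (l 14)) (l 14))) (a (a (c (c (a (l 16734792) (l 16747400)) (a (l 16734240) (l 16747008))) (c (c (l 16740360) (l 16740120)) (c (l 16739888) (l 16739656)))) (c (c (c (l 16764920) (l 16764840)) (c (l 16764760) (l 16764680))) (c (l 16748832) (c (l 16764440) (l 16764360))))) (a (b (l 14) (c (c (l 16777152) (l 16777152)) (c (l 16777152) (l 16777144)))) (l 14)))) (c (a (c (b (a (l 16713856) (l 16741584)) (a (l 16728232) (l 16760136))) (b (a (l 16734272) (l 16741392)) (a (l 16727592) (l 16759912)))) (c (c (b (l 16777176) (l 16777176)) (b (l 16777176) (l 16777176))) (c (b (l 16777176) (l 16777176)) (b (l 16777176) (l 16777168))))) (a (c (b (a (l 16733720) (l 16762168)) (l 16701768)) (b (a (l 16733168) (l 16761976)) (l 16701336))) (c (c (b (l 16777176)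 (l 16777168)) (b (l 16777176) (l 16777168))) (c (b (l 16777176) (l 16777168)) (b (l 16777176) (l 16777168))))))) (a (b (c (b (c (a (l 16721392) (l 16757632)) (l 16697464)) (a (c (l 16693256) (l 16713408)) (c (l 16754888) (l 16754600)))) (b (c (l 16717944) (l 16717456)) (a (c (l 16712584) (l 16711760)) (l 16733192)))) (c (b (c (l 16687976) (l 16708328)) (a (c (l 16614536) (l 16675216)) (b (l 16746824) (l 16704552)))) (b (c (l 16707704) (l 16707088)) (a (b (l 16695064) (l 16648616)) (l 16713040))))) (b (c (c (a (b (l 16777112) (l 16777096)) (l 16777216)) (b (l 16777168) (l 16777160))) (b (c (l 16777168) (l 16777160)) (c (l 16777160) (l 16777152)))) (c (b (a (l 16777080) (l 16777216)) (a (b (l 16773536) (l 16731088)) (l 16752376))) (b (a (l 16777080) (l 16777216)) (a (l 16751576) (l 16751728))))))), by decide +kernel⟩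

def k61_pm_101 : ∃ t, chk3 f_pm_101 t 5 14 1 = true :=
  ⟨(a (b (a (c (c (c (b (a (b (l 16369752) (l 16310296)) (a (l 16388056) (l 16419032))) (a (b (l 16249336) (l 16187120)) (a (l 16267224) (l 16298904)))) (b (a (l 16333832) (l 16398288)) (a (l 16208752) (l 16275160)))) (b (a (l 16324552) (l 16390304)) (a (l 16194648) (l 16263216)))) (b (a (c (l 16312176) (l 16299800)) (l 16374344)) (a (l 16166440) (l 16239336)))) (c (b (c (a (c (l 16463536) (l 16459096)) (l 16518608)) (l 16377480)) (c (a (c (l 16344360) (l 16337808)) (l 16400272)) (l 16317336))) (b (a (l 16439112) (l 16500968)) (l 16278832)))) (c (a (b (c (a (c (a (l 16074808) (l 16108264)) (l 16078944)) (c (a (l 16141360) (l 16173672)) (l 16147024))) (a (l 16060008) (l 16131240))) (c (a (c (b (l 15994448) (l 15928568)) (l 15945352)) (c (a (l 16011544) (l 16044384)) (l 16014808))) (a (l 15921368) (l 15995072)))) (b (c (a (c (l 16220152) (l 16211600)) (l 16277320)) (a (l 16198768) (l 16263960))) (c (a (c (l 16070920) (l 16081304)) (l 16150488)) (a (l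 16065416) (l 16134008))))) (a (b (a (l 16022152) (l 16099664)) (a (l 15873400) (l 15955616))) (b (a (l 16173104) (l 16243912)) (c (l 16081072) (l 16062296)))))) (a (b (b (c (c (a (l 16572752) (l 16623336)) (l 16552480)) (a (l 16559952) (l 16615824))) (c (a (l 16453096) (l 16508272)) (l 16343008))) (a (c (b (l 16331992) (l 16207240)) (l 16247272)) (c (b (l 16391200) (l 16270744)) (l 16315960)))) (b (c (a (c (l 16511416) (l 16550976)) (l 16531352)) (b (l 16604680) (l 16532640))) (c (c (a (l 16262968) (l 16368008)) (l 16320624)) (b (l 16415232) (l 16294472)))))), by decide +kernel⟩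

def k62_pm_101 : ∃ t, chk3 f_pm_101 t 10 30 2 = true :=
  ⟨(b (a (c (a (c (b (l 15855440) (l 15775656)) (l 15795560)) (c (b (l 15922048) (l 15841944)) (l 15865760))) (a (l 15765896) (l 15841664))) (b (c (a (l 15980656) (l 16046360)) (l 15991872)) (c (a (l 15900344) (l 15967208)) (l 15909968)))) (a (b (c (a (c (l 15695016) (l 15672096)) (c (l 15760840) (l 15742392))) (a (l 15637728) (l 15714728))) (b (b (c (a (l 15632968) (l 15700808)) (l 15622936)) (a (c (a (l 15601816) (l 15634784)) (l 15568632)) (c (a (l 15668768) (l 15702952)) (l 15646088)))) (a (c (c (c (l 15615400) (l 15603488)) (l 15584352)) (l 15546080)) (c (c (a (l 15658000) (l 15691144)) (l 15654680)) (l 15624120))))) (b (c (a (l 15818960) (l 15887008)) (l 15826952)) (c (a (a (b (a (l 15735368) (l 15752312)) (l 15715480)) (b (l 15777944) (l 15749856))) (b (l 15830000) (a (l 15784696) (l 15819896)))) (a (c (l 15723216) (l 15707392)) (l 15791536)))))), by decide +kernel⟩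

def k63_pm_101 : ∃ t, chk3 f_pm_101 t 20 62 2 = true :=
  ⟨(c (a (b (c (b (c (l 15577600) (l 15571632)) (c (l 15537400) (l 15530504))) (b (l 15555576) (l 15519280))) (c (b (c (l 15500744) (l 15491864)) (c (l 15469616) (l 15457624))) (b (l 15479792) (l 15441696)))) (b (c (a (b (c (l 15624952) (l 15621128)) (l 15582248)) (c (b (l 15657440) (l 15616680)) (l 15633088))) (a (l 15587984) (l 15623640))) (c (a (b (l 15543960) (l 15510888)) (b (l 15576928) (l 15543760))) (a (l 15513656) (l 15549408))))) (a (b (l 15501224) (c (b (l 15463192) (l 15423048)) (l 15421912))) (a (b (l 15560272) (l 15470048)) (b (l 15599752) (l 15510032))))), by decide +kernel⟩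

def k64_pm_101 : ∃ t, chk3 f_pm_101 t 20 63 2 = true :=
  ⟨(c (b (a (b (c (b (l 15442968) (c (a (b (l 15425544) (l 15420112)) (b (l 15453744) (l 15448064))) (a (l 15407824) (l 15437848)))) (l 15409856)) (c (a (a (b (c (l 15407856) (l 15390712)) (a (l 15392432) (l 15395232))) (c (l 15417016) (l 15400760))) (c (l 15437984) (l 15423200))) (a (b (c (l 15381144) (l 15365344)) (a (l 15358816) (l 15371392))) (b (l 15405800) (l 15395968))))) (c (a (b (b (l 15489656) (c (b (l 15484528) (l 15478672)) (l 15470296))) (c (l 15468376) (l 15455352))) (b (b (l 15522432) (c (b (l 15516576) (l 15510552)) (l 15503816))) (c (l 15500168) (l 15488704)))) (b (l 15479312) (a (b (l 15440688) (l 15430760)) (b (l 15476440) (l 15466504)))))) (a (a (b (a (c (b (l 15392400) (l 15393320)) (l 15356856)) (c (b (l 15397864) (a (l 15391384) (l 15394112))) (l 15361528))) (c (b (a (l 15395200) (l 15391688)) (l 15395280)) (l 15358640))) (b (c (l 15415088) (l 15383448)) (c (a (b (l 15397016) (a (l 15390608) (l 15393288))) (l 15407264)) (a (l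 15361552) (l 15375512))))) (a (c (b (l 15445952) (c (l 15437544) (l 15423136))) (l 15409456)) (c (b (l 15478336) (a (l 15454696) (l 15470360))) (l 15445152))))) (a (b (b (c (l 15385344) (l 15364496)) (b (l 15348536) (c (a (a (l 15324392) (l 15338848)) (l 15366328)) (a (l 15300624) (l 15339064))))) (b (c (a (l 15324936) (l 15351808)) (a (b (l 15312488) (l 15287288)) (l 15321384))) (a (c (l 15323016) (l 15287384)) (c (l 15336152) (l 15303464))))) (b (a (b (l 15435312) (c (l 15411248) (l 15389800))) (b (l 15475624) (c (l 15450208) (l 15431968)))) (b (c (l 15409680) (a (l 15363440) (l 15405728))) (a (l 15358160) (l 15399024)))))), by decide +kernel⟩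

def k65_pm_101 : ∃ t, chk3 f_pm_101 t 21 31 2 = true :=
  ⟨(a (b (c (b (c (c (b (l 15705824) (l 15665056)) (b (l 15704928) (l 15663480))) (b (l 15696360) (l 15660192))) (c (c (a (l 15595696) (l 15628808)) (l 15607288)) (l 15581376))) (b (l 15657368) (c (l 15594792) (l 15585416)))) (c (b (c (b (b (l 15571688) (c (a (l 15545320) (l 15578560)) (l 15554056))) (c (a (l 15531960) (l 15565264)) (a (l 15521792) (l 15556296)))) (b (l 15550536) (a (l 15507048) (l 15543440)))) (c (a (b (l 15510656) (l 15494616)) (c (l 15541312) (l 15531656))) (a (l 15480400) (l 15517096)))) (b (b (l 15534616) (c (b (l 15514528) (l 15501000)) (l 15491184))) (b (c (l 15486992) (l 15467464)) (l 15459032))))) (b (c (b (c (c (a (l 15735912) (l 15770296)) (l 15752560)) (l 15748552)) (c (a (l 15661704) (l 15697184)) (l 15675848))) (b (l 15735496) (l 15669240))) (c (b (c (b (c (a (l 15619568) (l 15655056)) (l 15632192)) (c (l 15617688) (l 15610304))) (b (l 15624904) (a (l 15580904) (l 15619248)))) (c (a (l 15571936) (l 15608680)) (l 15574352)))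 (b (c (b (l 15616976) (l 15587208)) (l 15597048)) (b (c (l 15567256) (l 15552432)) (l 15542584)))))), by decide +kernel⟩

def k66_pm_101 : ∃ t, chk3 f_pm_101 t 10 15 3 = true :=
  ⟨(b (a (b (a (l 15706560) (l 15793472)) (b (a (l 15568976) (l 15659400)) (a (c (l 15511752) (l 15461768)) (c (l 15599288) (l 15559296))))) (b (c (l 15928048) (l 15905336)) (b (l 15788096) (a (c (l 15683624) (l 15651968)) (l 15754712))))) (b (a (a (c (l 15414320) (l 15358024)) (c (l 15505160) (l 15460624))) (c (a (l 15592760) (l 15679808)) (l 15605448))) (a (b (c (a (b (l 15329840) (c (l 15304584) (l 15281608))) (c (l 15413984) (l 15395904))) (a (l 15255544) (l 15361920))) (b (c (a (a (c (b (l 15259104) (l 15252808)) (b (l 15232416) (l 15217920))) (c (l 15310560) (l 15263384))) (c (a (l 15335624) (l 15381448)) (l 15337800))) (a (a (l 15184168) (l 15227184)) (l 15309424))) (a (c (c (a (l 15251744) (l 15270768)) (b (a (l 15216376) (l 15242480)) (l 15226144))) (a (c (l 15181656) (l 15150728)) (c (l 15206680) (l 15178688)))) (c (b (c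 (l 15342912) (l 15316784)) (l 15319616)) (c (l 15285192) (l 15262808)))))) (c (b (a (l 15495976) (l 15586480)) (a (c (b (l 15447736) (l 15426976)) (l 15419600)) (c (l 15527696) (l 15515488)))) (b (l 15513240) (a (b (l 15413064) (l 15380168)) (l 15500552))))))), by decide +kernel⟩

def k67_pm_101 : ∃ t, chk3 f_pm_101 t 11 15 1 = true :=
  ⟨(c (a (a (b (b (c (l 16072840) (l 16058032)) (b (l 15947280) (c (b (l 15900072) (c (l 15877536) (l 15868840))) (l 15868208)))) (b (c (b (c (c (l 15822800) (l 15824008)) (l 15822496)) (c (l 15751576) (l 15751648))) (b (l 15814432) (l 15750384))) (c (b (c (b (c (l 15709776) (l 15706568)) (c (l 15690928) (l 15685416))) (b (l 15702088) (l 15678056))) (c (a (l 15646456) (l 15685072)) (l 15653968))) (b (c (l 15683256) (l 15682328)) (b (c (l 15650264) (l 15639392)) (l 15628848)))))) (b (b (l 16133392) (b (l 16018672) (c (b (l 15970576) (l 15944696)) (l 15944712)))) (b (c (b (c (l 15894896) (l 15897232)) (c (l 15825624) (l 15828744))) (l 15819800)) (c (b (c (b (l 15783984) (l 15764952))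 (l 15748400)) (c (l 15744200) (l 15735976))) (b (l 15768000) (l 15660920)))))) (b (b (c (l 16176128) (l 16168264)) (b (l 16059664) (a (a (c (b (l 16010976) (l 15985792)) (l 15988320)) (l 15994200)) (l 15994200)))) (b (c (a (a (b (a (l 15937176) (l 15938120)) (l 15829800)) (l 15905712)) (l 15905712)) (b (l 15938984) (l 15837312))) (c (a (a (b (a (a (c (l 15796840) (l 15814384)) (l 15818672)) (l 15818672)) (c (l 15790168) (l 15783688))) (b (l 15818672) (l 15787456))) (b (l 15818672) (l 15787456))) (a (a (b (l 15817016) (l 15774288)) (l 15797936)) (l 15797936)))))) (a (b (b (l 16074600) (b (l 15954280) (a (l 15840672) (l 15925256)))) (b (c (l 15809968) (l 15792968)) (c (b (l 15722944) (a (l 15617144) (l 15711648))) (a (l 15572616) (l 15735376))))) (a (b (b (l 16156352) (b (l 16040888) (l 15973280))) (b (l 15898840) (c (b (l 15820376) (l 15765992)) (l 15792264)))) (b (l 16081376) (b (l 15899120) (l 15711816)))))), by decide +kernel⟩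

def k68_pm_101 : ∃ t, chk3 f_pm_101 t 3 2 1 = true :=
  ⟨(l 14), by decide +kernel⟩

def k69_pm_101 : ∃ t, chk3 f_pm_101 t 3 6 1 = true :=
  ⟨(a (a (a (b (b (l 14) (c (c (c (l 16777216) (l 16777216)) (c (l 16777216) (l 16777216))) (c (c (l 16777216) (l 16777216)) (c (l 16777216) (b (l 16777216) (l 16777216)))))) (c (b (c (l 16777216) (c (l 16777216) (l 16777216))) (b (c (l 16777216) (l 16777216)) (l 16752376))) (b (c (c (l 16777216) (l 16777216)) (c (l 16777216) (l 16777216))) (b (c (l 16777216) (l 16777216)) (l 16751728))))) (b (b (l 14) (b (l 14) (c (c (l 16777216) (l 16777216)) (c (l 16777216) (c (l 16777216) (l 16777216)))))) (c (b (c (l 16777216) (l 16777216)) (b (l 16777216) (l 16752376))) (b (c (c (l 16777216) (l 16777216)) (c (l 16777216) (l 16777216))) (b (c (l 16777216) (l 16777216)) (c (l 16751888) (l 16751568))))))) (b (l 14) (c (b (c (a (l 16777216) (l 249678528519)) (a (l 16777216) (l 254510366727))) (b (c (l 16777216) (l 16777216)) (a (l 16741888) (l 16752376)))) (c (b (a (c (l 16777216)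 (l 16777216)) (l 287796363271)) (b (l 16777216) (a (l 16751888) (l 16751888)))) (b (a (c (l 16777216) (l 16777216)) (l 209413209959)) (b (a (l 16777216) (l 16777216)) (a (l 16751568) (l 16751568)))))))) (b (l 1) (b (l 1) (b (l 1) (a (a (a (c (l 16752376) (l 16751728)) (l 1)) (l 1)) (l 1)))))), by decide +kernel⟩

def k70_pm_101 : ∃ t, chk3 f_pm_101 t 3 14 1 = true :=
  ⟨(a (a (b (c (a (l 16510376) (b (l 16650008) (l 16538920))) (a (l 16484656) (b (l 16646704) (l 16532736)))) (c (a (l 16302424) (l 16365336)) (b (l 16415336) (l 16294576)))) (c (b (c (l 16532536) (l 16509192)) (c (l 16368008) (l 16362664))) (b (c (b (l 16647528) (l 16534280)) (b (l 16645880) (l 16531184))) (c (l 16357312) (l 16351960))))) (a (c (b (a (b (l 16650008) (l 16538920)) (l 202970163895)) (c (l 16368008) (l 16362664))) (b (a (b (l 16646704) (l 16532736)) (l 190622106375)) (c (l 16357312) (l 16351960)))) (a (b (l 1) (c (l 286721556519) (l 16354640))) (l 1)))), by decide +kernel⟩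

def k71_pm_101 : ∃ t, chk3 f_pm_101 t 3 15 1 = true :=
  ⟨(a (b (a (c (b (l 16172304) (a (b (l 16059776) (l 15994200)) (l 16023368))) (b (l 16156592) (a (l 16007240) (l 16007240)))) (c (b (l 16172304) (l 16023368)) (a (l 16081376) (l 16081376)))) (b (a (c (c (a (l 15905712) (l 15905712)) (l 15908248)) (l 15899120)) (c (a (c (l 15905712) (l 15908248)) (l 15908056)) (a (l 15899120) (l 15899120)))) (a (c (a (b (l 15819832) (l 15781240)) (a (l 15802904) (l 15802904))) (c (l 15774152) (l 15792576))) (c (a (c (l 15803536) (l 15797936)) (l 15802904)) (c (b (l 15820656) (l 15766296)) (b (l 15814488) (l 15762472))))))) (b (c (a (b (l 16172304) (l 16023368)) (c (l 90763051383) (l 16094592))) (a (a (l 16081376) (l 16081376)) (c (l 124585887607) (a (l 16076976) (l 16014064))))) (c (a (b (c (l 15821832) (a (l 15908248) (l 15908248))) (c (l 15803536) (b (l 15817560) (l 15774848)))) (b (c (l 15905712) (a (l 15908248) (l 15908248))) (c (l 15803536) (b (l 15817560) (l 15774848))))) (c (a (b (l 15902536) (a (l 15795120)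 (l 15795120))) (b (a (l 15902536) (l 15902536)) (b (l 15820656) (a (l 15766296) (l 15766296))))) (a (b (l 15891408) (a (l 15792576) (l 15792576))) (c (b (l 15894192) (a (l 15792976) (l 15792976))) (b (l 15888624) (a (l 15789440) (l 15768472))))))))), by decide +kernel⟩

theorem s72_pm_101 : ∃ t, chk3 f_pm_101 t 3 7 1 = true := ex3_b k70_pm_101 k71_pm_101

theorem s73_pm_101 : ∃ t, chk3 f_pm_101 t 3 3 1 = true := ex3_b k69_pm_101 s72_pm_101

theorem s74_pm_101 : ∃ t, chk3 f_pm_101 t 3 1 1 = true := ex3_b k68_pm_101 s73_pm_101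

theorem s75_pm_101 : ∃ t, chk3 f_pm_101 t 20 31 2 = true := ex3_b k63_pm_101 k64_pm_101

theorem s76_pm_101 : ∃ t, chk3 f_pm_101 t 10 31 2 = true := ex3_a s75_pm_101 k65_pm_101

theorem s77_pm_101 : ∃ t, chk3 f_pm_101 t 10 15 2 = true := ex3_b k62_pm_101 s76_pm_101

theorem s78_pm_101 : ∃ t, chk3 f_pm_101 t 10 15 1 = true := ex3_c s77_pm_101 k66_pm_101

theorem s79_pm_101 : ∃ t, chk3 f_pm_101 t 5 15 1 = true := ex3_a s78_pm_101 k67_pm_101

theorem s80_pm_101 : ∃ t, chk3 f_pm_101 t 5 7 1 = true := ex3_b k61_pm_101 s79_pm_101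

theorem s81_pm_101 : ∃ t, chk3 f_pm_101 t 10 6 2 = true := ex3_c k57_pm_101 k58_pm_101

theorem s82_pm_101 : ∃ t, chk3 f_pm_101 t 10 6 1 = true := ex3_c s81_pm_101 k59_pm_101

theorem s83_pm_101 : ∃ t, chk3 f_pm_101 t 5 6 1 = true := ex3_a s82_pm_101 k60_pm_101

theorem s84_pm_101 : ∃ t, chk3 f_pm_101 t 5 3 1 = true := ex3_b s83_pm_101 s80_pm_101

theorem s85_pm_101 : ∃ t, chk3 f_pm_101 t 39 31 1 = true := ex3_b k55_pm_101 k56_pm_101

theorem s86_pm_101 : ∃ t, chk3 f_pm_101 t 39 15 1 = true := ex3_b k54_pm_101 s85_pm_101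

theorem s87_pm_101 : ∃ t, chk3 f_pm_101 t 38 15 1 = true := ex3_b k52_pm_101 k53_pm_101

theorem s88_pm_101 : ∃ t, chk3 f_pm_101 t 19 15 1 = true := ex3_a s87_pm_101 s86_pm_101

theorem s89_pm_101 : ∃ t, chk3 f_pm_101 t 9 15 1 = true := ex3_a k51_pm_101 s88_pm_101

theorem s90_pm_101 : ∃ t, chk3 f_pm_101 t 9 7 1 = true := ex3_b k50_pm_101 s89_pm_101

theorem s91_pm_101 : ∃ t, chk3 f_pm_101 t 8 15 1 = true := ex3_b k48_pm_101 k49_pm_101

theorem s92_pm_101 : ∃ t, chk3 f_pm_101 t 33 14 1 = true := ex3_c k45_pm_101 k46_pm_101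

theorem s93_pm_101 : ∃ t, chk3 f_pm_101 t 32 14 3 = true := ex3_a k43_pm_101 k44_pm_101

theorem s94_pm_101 : ∃ t, chk3 f_pm_101 t 32 14 2 = true := ex3_a k41_pm_101 k42_pm_101

theorem s95_pm_101 : ∃ t, chk3 f_pm_101 t 32 14 1 = true := ex3_c s94_pm_101 s93_pm_101

theorem s96_pm_101 : ∃ t, chk3 f_pm_101 t 16 14 1 = true := ex3_a s95_pm_101 s92_pm_101

theorem s97_pm_101 : ∃ t, chk3 f_pm_101 t 8 14 1 = true := ex3_a s96_pm_101 k47_pm_101

theorem s98_pm_101 : ∃ t, chk3 f_pm_101 t 8 7 1 = true := ex3_b s97_pm_101 s91_pm_101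

theorem s99_pm_101 : ∃ t, chk3 f_pm_101 t 4 7 1 = true := ex3_a s98_pm_101 s90_pm_101

theorem s100_pm_101 : ∃ t, chk3 f_pm_101 t 19 6 1 = true := ex3_b k39_pm_101 k40_pm_101

theorem s101_pm_101 : ∃ t, chk3 f_pm_101 t 18 6 1 = true := ex3_b k37_pm_101 k38_pm_101

theorem s102_pm_101 : ∃ t, chk3 f_pm_101 t 9 6 1 = true := ex3_a s101_pm_101 s100_pm_101

theorem s103_pm_101 : ∃ t, chk3 f_pm_101 t 17 13 2 = true := ex3_a k34_pm_101 k35_pm_101

theorem s104_pm_101 : ∃ t, chk3 f_pm_101 t 17 13 1 = true := ex3_c s103_pm_101 k36_pm_101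

theorem s105_pm_101 : ∃ t, chk3 f_pm_101 t 17 12 2 = true := ex3_b k31_pm_101 k32_pm_101

theorem s106_pm_101 : ∃ t, chk3 f_pm_101 t 17 12 1 = true := ex3_c s105_pm_101 k33_pm_101

theorem s107_pm_101 : ∃ t, chk3 f_pm_101 t 17 6 1 = true := ex3_b s106_pm_101 s104_pm_101

theorem s108_pm_101 : ∃ t, chk3 f_pm_101 t 66 13 2 = true := ex3_c k27_pm_101 k28_pm_101

theorem s109_pm_101 : ∃ t, chk3 f_pm_101 t 66 13 1 = true := ex3_c s108_pm_101 k29_pm_101

theorem s110_pm_101 : ∃ t, chk3 f_pm_101 t 33 13 1 = true := ex3_a s109_pm_101 k30_pm_101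

theorem s111_pm_101 : ∃ t, chk3 f_pm_101 t 64 13 7 = true := ex3_a k24_pm_101 k25_pm_101

theorem s112_pm_101 : ∃ t, chk3 f_pm_101 t 64 13 3 = true := ex3_c k23_pm_101 s111_pm_101

theorem s113_pm_101 : ∃ t, chk3 f_pm_101 t 32 13 3 = true := ex3_a s112_pm_101 k26_pm_101

theorem s114_pm_101 : ∃ t, chk3 f_pm_101 t 65 13 2 = true := ex3_c k21_pm_101 k22_pm_101

theorem s115_pm_101 : ∃ t, chk3 f_pm_101 t 32 13 2 = true := ex3_a k20_pm_101 s114_pm_101

theorem s116_pm_101 : ∃ t, chk3 f_pm_101 t 32 13 1 = true := ex3_c s115_pm_101 s113_pm_101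

theorem s117_pm_101 : ∃ t, chk3 f_pm_101 t 16 13 1 = true := ex3_a s116_pm_101 s110_pm_101

theorem s118_pm_101 : ∃ t, chk3 f_pm_101 t 33 25 2 = true := ex3_b k17_pm_101 k18_pm_101

theorem s119_pm_101 : ∃ t, chk3 f_pm_101 t 33 25 1 = true := ex3_c s118_pm_101 k19_pm_101

theorem s120_pm_101 : ∃ t, chk3 f_pm_101 t 32 51 3 = true := ex3_a k15_pm_101 k16_pm_101

theorem s121_pm_101 : ∃ t, chk3 f_pm_101 t 32 51 2 = true := ex3_a k13_pm_101 k14_pm_101

theorem s122_pm_101 : ∃ t, chk3 f_pm_101 t 32 51 1 = true := ex3_c s121_pm_101 s120_pm_101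

theorem s123_pm_101 : ∃ t, chk3 f_pm_101 t 32 25 1 = true := ex3_b k12_pm_101 s122_pm_101

theorem s124_pm_101 : ∃ t, chk3 f_pm_101 t 16 25 1 = true := ex3_a s123_pm_101 s119_pm_101

theorem s125_pm_101 : ∃ t, chk3 f_pm_101 t 16 24 1 = true := ex3_a k10_pm_101 k11_pm_101

theorem s126_pm_101 : ∃ t, chk3 f_pm_101 t 16 12 1 = true := ex3_b s125_pm_101 s124_pm_101

theorem s127_pm_101 : ∃ t, chk3 f_pm_101 t 16 6 1 = true := ex3_b s126_pm_101 s117_pm_101

theorem s128_pm_101 : ∃ t, chk3 f_pm_101 t 8 6 1 = true := ex3_a s127_pm_101 s107_pm_101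

theorem s129_pm_101 : ∃ t, chk3 f_pm_101 t 4 6 1 = true := ex3_a s128_pm_101 s102_pm_101

theorem s130_pm_101 : ∃ t, chk3 f_pm_101 t 4 3 1 = true := ex3_b s129_pm_101 s99_pm_101

theorem s131_pm_101 : ∃ t, chk3 f_pm_101 t 2 3 1 = true := ex3_a s130_pm_101 s84_pm_101

theorem s132_pm_101 : ∃ t, chk3 f_pm_101 t 16 11 3 = true := ex3_a k5_pm_101 k6_pm_101

theorem s133_pm_101 : ∃ t, chk3 f_pm_101 t 16 5 3 = true := ex3_b k4_pm_101 s132_pm_101

theorem s134_pm_101 : ∃ t, chk3 f_pm_101 t 16 11 2 = true := ex3_c k2_pm_101 k3_pm_101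

theorem s135_pm_101 : ∃ t, chk3 f_pm_101 t 16 5 2 = true := ex3_b k1_pm_101 s134_pm_101

theorem s136_pm_101 : ∃ t, chk3 f_pm_101 t 16 5 1 = true := ex3_c s135_pm_101 s133_pm_101

theorem s137_pm_101 : ∃ t, chk3 f_pm_101 t 8 5 1 = true := ex3_a s136_pm_101 k7_pm_101

theorem s138_pm_101 : ∃ t, chk3 f_pm_101 t 8 2 1 = true := ex3_b k0_pm_101 s137_pm_101

theorem s139_pm_101 : ∃ t, chk3 f_pm_101 t 4 2 1 = true := ex3_a s138_pm_101 k8_pm_101

theorem s140_pm_101 : ∃ t, chk3 f_pm_101 t 2 2 1 = true := ex3_a s139_pm_101 k9_pm_101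

theorem s141_pm_101 : ∃ t, chk3 f_pm_101 t 2 1 1 = true := ex3_b s140_pm_101 s131_pm_101

theorem s142_pm_101 : ∃ t, chk3 f_pm_101 t 1 1 1 = true := ex3_a s141_pm_101 s74_pm_101

theorem c_pm_101 : CertFX 536870912 536870912 536870912 536870912 1046898278 26843546 false true false .npn 1 0 1
    ndF0q1 ndF0q1 pcF0 cut_pm_101 Ext.none :=
  certFX2 (fam := false) (s1 := true) (s2 := false) (a := 1) (b := 0) (c := 1) (cn := .npn) (n1 := ndF0q1) (n2 := ndF0q1) (pc := pcF0) (cut := cut_pm_101) (xt := Ext.none) (P1 := 536870912) (W1 := 536870912) (P2 := 536870912) (W2 := 536870912) (P3 := 1046898278) (W3 := 26843546)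
    rfl (fun _ => rfl) s142_pm_101

end Pool.Agent.Strip051.G.IE1.Tab.C.FB00

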