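import Pool.Agent.Strip051.G.IE1.Tab

/-! # Certificates F26 (generated) -/

set_option linter.all false
set_option maxRecDepth 100000

namespace Pool.Agent.Strip051.G.IE1.Tab.C.FB00

open Pool.Agent.Strip051.PB Pool.Agent.Strip051.PB.T
open Pool.Agent.Strip051.G.IE1.Tab

noncomputable def cut_pm_102 : Cut := Cut.of [[⟨3, 0, 0, 1449551462⟩], [⟨4, 0, 0, 2845415833⟩], [⟨0, 1, 0, 67108864⟩, ⟨1, 0, 0, 67108864⟩, ⟨2, 1, 0, 67108864⟩, ⟨3, 0, 0, 1317011456⟩]]

noncomputable def f_pm_102 : ℕ → ℕ → ℕ → ℕ → Bool := onCell 0 536870912 0 536870912 1046898278 26843546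
    (rowFX 2 false true false .npp 1 0 2 (qsf 536870912 536870912 0 536870912 0) ndF0q1 ndF0q2 pcF0 cut_pm_102 Ext.none)

def k0_pm_102 : ∃ t, chk3 f_pm_102 t 2 2 1 = true :=
  ⟨(l 6), by decide +kernel⟩

def k1_pm_102 : ∃ t, chk3 f_pm_102 t 4 3 1 = true :=
  ⟨(b (l 3) (a (l 6) (a (l 6) (b (l 6) (l 6))))), by decide +kernel⟩

def k2_pm_102 : ∃ t, chk3 f_pm_102 t 5 6 1 = true :=
  ⟨(l 6), by decide +kernel⟩

def k3_pm_102 : ∃ t, chk3 f_pm_102 t 10 14 1 = true :=
  ⟨(l 6), by decide +kernel⟩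

def k4_pm_102 : ∃ t, chk3 f_pm_102 t 20 15 1 = true :=
  ⟨(b (l 6) (b (b (l 6) (b (l 6) (a (l 6) (a (l 6) (a (l 6) (c (c (l 15568528) (l 15529872)) (l 15477600))))))) (a (b (l 6) (a (a (l 6) (b (l 6) (c (c (l 15399584) (l 15330640)) (c (l 15264024) (l 15196824))))) (c (c (a (c (b (l 15454960) (b (l 15422440) (l 15401288))) (l 15400680)) (b (a (l 15434632) (a (l 15433888) (l 15435128))) (a (b (l 15404536) (l 15387656)) (l 15402792)))) (b (l 15373160) (l 15333104))) (c (b (l 15310456) (b (l 15276376) (l 15256696))) (c (l 15247192) (l 15219312)))))) (c (c (b (a (a (b (l 6) (c (a (l 15487696) (l 15490176)) (l 15459872))) (a (b (l 6) (l 15481952)) (l 15502680))) (c (a (l 15525912) (l 15539128)) (l 15507256))) (a (c (a (l 15443840) (l 15458376)) (l 15421952)) (c (a (l 15473456) (l 15488264)) (l 15455248)))) (b (a (a (l 15438576) (l 15447184)) (l 15472288)) (b (l 15410736) (l 15383824)))) (c (b (a (c (l 15407840) (l 15387328)) (l 15432880)) (a (b (l 15335472) (l 15307704)) (l 15368368)))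 (b (a (l 15350992) (l 15391504)) (c (l 15307536) (l 15284768)))))))), by decide +kernel⟩

def k5_pm_102 : ∃ t, chk3 f_pm_102 t 21 15 1 = true :=
  ⟨(b (a (l 6) (b (l 6) (b (l 6) (c (c (c (l 15807816) (l 15805232)) (l 15789512)) (l 15750160))))) (c (c (b (a (b (c (a (l 6) (l 15701672)) (l 15677528)) (c (a (l 15613376) (l 15640456)) (l 15610096))) (a (b (l 15724744) (l 15663672)) (b (l 15754416) (l 15695856)))) (b (a (c (a (l 15560096) (l 15590032)) (l 15554120)) (c (l 15638448) (l 15622832))) (a (c (a (l 15511456) (l 15544104)) (l 15506560)) (a (l 15569992) (l 15606960))))) (b (a (b (l 15662488) (l 15590824)) (b (l 15727952) (l 15661800))) (a (b (l 15525888) (b (l 15486672) (l 15462944))) (b (l 15602200) (b (l 15566832) (l 15545520)))))) (b (c (a (l 15599136) (l 15677440)) (l 15604536)) (c (b (a (l 15495472) (l 15581920)) (a (l 15435184) (l 15526256))) (b (l 15511248) (a (l 15336576) (l 15500880))))))), by decide +kernel⟩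

def k6_pm_102 : ∃ t, chk3 f_pm_102 t 11 7 1 = true :=
  ⟨(a (b (l 6) (b (c (b (a (b (l 6) (c (l 15979928) (l 15959712))) (c (b (l 16085848) (l 16035064)) (l 16047840))) (c (a (c (b (l 15927576) (l 15863504)) (l 15893864)) (c (l 15850112) (l 15957112))) (a (l 15882728) (l 15951344)))) (b (a (l 15957856) (l 16028872)) (a (l 15854352) (l 15933696)))) (c (c (b (a (c (b (l 15802632) (l 15750064)) (l 15773424)) (c (l 15824376) (l 15844880))) (b (a (l 15702472) (l 15778080)) (a (c (l 15670288) (l 15658496)) (l 15743824)))) (b (a (b (l 15798928) (l 15737464)) (l 15845920)) (b (l 15723552) (b (l 15692984) (l 15674720))))) (b (c (l 15738120) (l 15784752)) (b (c (l 15715440) (l 15705336)) (c (l 15581528) (l 15652464))))))) (b (b (l 6) (a (b (l 6) (c (a (a (l 6) (l 16198992)) (l 16198992)) (l 16183752))) (c (b (l 16306536) (l 16198992)) (b (l 16294312) (l 16183968))))) (b (b (c (c (b (l 16117992) (l 16069416)) (l 16084808)) (l 16071400)) (c (c (a (c (l 15907680) (l 15995552)) (l 15992968))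 (l 15992656)) (l 15980520))) (a (c (b (c (b (l 15910200) (l 15861200)) (l 15891312)) (c (b (l 15822920) (l 15769640)) (a (l 15795920) (l 15796464)))) (c (b (l 15892272) (l 15790720)) (l 15694928))) (c (b (c (l 15887744) (l 15891568)) (l 15802400)) (b (l 15886904) (l 15791176))))))), by decide +kernel⟩

def k7_pm_102 : ∃ t, chk3 f_pm_102 t 3 2 1 = true :=
  ⟨(a (l 6) (a (l 6) (a (l 6) (b (l 6) (b (l 6) (b (l 6) (b (l 6) (c (c (c (a (l 16777216) (l 16777216)) (a (l 16777216) (l 16777216))) (c (a (l 16777216) (l 16777216)) (c (l 16777216) (l 16777216)))) (c (c (c (l 16777216) (l 16777216)) (l 16777216)) (c (l 16777216) (l 16777216))))))))))), by decide +kernel⟩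

def k8_pm_102 : ∃ t, chk3 f_pm_102 t 6 6 1 = true :=
  ⟨(b (l 6) (a (a (l 6) (a (l 6) (l 6))) (a (b (l 6) (b (a (l 6) (b (l 6) (c (l 16610696) (l 16606368)))) (c (c (l 16557016) (l 16554136)) (c (l 16530288) (l 16527408))))) (b (b (l 6) (c (c (b (l 16714536) (l 16681240)) (b (l 16713712) (l 16679984))) (c (b (l 16712896) (l 16678736)) (c (l 16695128) (l 16694608))))) (c (c (b (l 16629480) (l 16557016)) (b (l 16627544) (l 16554136))) (c (b (l 16625616) (l 16551256)) (b (l 16623688) (l 16548376)))))))), by decide +kernel⟩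

def k9_pm_102 : ∃ t, chk3 f_pm_102 t 28 6 1 = true :=
  ⟨(b (a (l 6) (a (l 6) (b (l 6) (b (l 6) (c (c (l 16777216) (l 16777216)) (c (l 16777216) (l 16777216))))))) (c (b (c (b (b (b (l 16777216) (l 16770528)) (c (l 16746992) (l 16746792))) (c (l 16698232) (l 16697720))) (b (b (b (l 16777216) (l 16770440)) (a (l 16746496) (l 16746496))) (c (l 16676224) (l 16675712)))) (c (b (l 16629480) (l 16557016)) (b (a (l 16627544) (l 16627544)) (a (l 16554136) (l 16554136))))) (b (c (b (b (b (l 16777216) (l 16770352)) (a (l 16746104) (l 16746104))) (c (l 16675192) (l 16695648))) (b (b (l 16752776) (c (l 16745800) (l 16745608))) (c (l 16695128) (l 16694608)))) (c (b (a (l 16625616) (l 16625616)) (a (l 16551256) (l 16551256))) (b (a (l 16623688) (l 16623688)) (a (l 16548376) (l 16548376))))))), by decide +kernel⟩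

def k10_pm_102 : ∃ t, chk3 f_pm_102 t 29 6 1 = true :=
  ⟨(b (b (l 6) (a (b (a (l 6) (a (l 6) (b (l 6) (c (c (l 16777216) (l 16777216)) (c (l 16777216) (l 16777216)))))) (c (c (c (l 16777216) (l 16777216)) (c (l 16777216) (l 16777216))) (c (c (l 16777216) (l 16777216)) (c (l 16777216) (l 16777216))))) (c (c (c (b (l 16777216) (l 16777216)) (b (c (l 16777216) (l 16777216)) (l 16777216))) (c (b (c (l 16777216) (l 16777216)) (l 16777216)) (b (l 16777216) (l 16777216)))) (c (c (b (l 16777216) (l 16777216)) (b (l 16777216) (l 16777216))) (c (l 16777216) (l 16777216)))))) (b (c (c (b (b (c (l 16752920) (a (l 16773872) (l 16773872))) (c (l 16746992) (l 16746792))) (c (l 16698232) (l 16676744))) (b (b (c (a (l 16773848) (l 16773848)) (a (l 16773824) (l 16773824))) (c (l 16746592) (l 16746400))) (c (l 16676224) (l 16675712)))) (c (b (c (b (a (l 16773808) (l 16773808)) (l 16746200)) (b (l 16773784) (l 16746000))) (c (l 16675192) (l 16674672))) (b (c (b (l 16773760) (l 16745800)) (l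 16717792)) (c (l 16674160) (l 16694608))))) (c (c (b (c (l 16629960) (l 16628992)) (a (l 16557016) (l 16557016))) (b (c (l 16628032) (l 16627064)) (a (l 16554136) (l 16554136)))) (c (b (a (l 16625616) (l 16625616)) (a (l 16551256) (l 16551256))) (b (c (l 16624168) (l 16623200)) (a (l 16548376) (l 16527408))))))), by decide +kernel⟩

def k11_pm_102 : ∃ t, chk3 f_pm_102 t 15 24 1 = true :=
  ⟨(b (a (a (l 6) (a (l 6) (c (c (c (l 16777216) (l 16777216)) (c (l 16777216) (l 16777216))) (c (c (l 16777216) (l 16777216)) (l 16777216))))) (c (c (c (a (l 16777216) (l 16777216)) (a (l 16777216) (l 16777216))) (c (a (l 16777216) (l 16777216)) (c (l 16777216) (l 16777216)))) (c (c (c (l 16777216) (l 16777216)) (l 16777216)) (c (l 16777216) (l 16777216))))) (c (c (a (c (c (l 16777216) (a (l 16777216) (l 16777216))) (c (a (l 16777216) (l 16777216)) (a (l 16777216) (l 16777216)))) (c (c (l 16777216) (l 16777216)) (c (l 16777216) (l 16777216)))) (a (c (c (a (l 16777216) (l 16777216)) (a (l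 16777216) (l 16777216))) (c (l 16777216) (l 16777216))) (c (c (l 16777216) (l 16777216)) (c (l 16777216) (l 16777216))))) (c (a (c (c (l 16777216) (l 16777216)) (c (l 16777216) (l 16777216))) (c (c (l 16777216) (l 16777216)) (c (l 16777216) (l 16777216)))) (a (c (l 16777216) (l 16777216)) (c (l 16777216) (l 16777216)))))), by decide +kernel⟩

def k12_pm_102 : ∃ t, chk3 f_pm_102 t 15 25 1 = true :=
  ⟨(c (c (c (a (b (c (l 16777216) (l 16777216)) (c (l 16777216) (l 16777216))) (b (c (l 16777216) (l 16777216)) (c (l 16777216) (l 16777216)))) (a (b (a (l 16777216) (l 16777216)) (c (l 16777216) (l 16777216))) (b (c (l 16777216) (l 16777216)) (c (l 16777216) (l 16777216))))) (c (a (b (c (l 16777216) (l 16777216)) (c (l 16777216) (l 16777216))) (b (c (l 16777216) (l 16777216)) (c (l 16777216) (l 16777216)))) (a (b (c (l 16777216) (l 16777216)) (c (l 16777216) (l 16777216))) (b (c (l 16777216) (l 16777216)) (c (l 16777216) (l 16777216)))))) (c (c (a (b (c (l 16777216) (l 16777216))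 (c (l 16777216) (l 16777216))) (b (c (l 16777216) (l 16777216)) (a (l 16777216) (l 16777216)))) (a (b (l 16777216) (l 16777216)) (b (c (l 16777216) (l 16777216)) (a (l 16777216) (l 16777216))))) (c (a (b (l 16777216) (l 16777216)) (b (l 16777216) (l 16777216))) (a (b (l 16777216) (l 16777216)) (b (l 16777216) (l 16777216)))))), by decide +kernel⟩

def k13_pm_102 : ∃ t, chk3 f_pm_102 t 15 13 1 = true :=
  ⟨(b (c (c (b (a (c (b (l 16773888) (l 16746992)) (b (l 16773872) (l 16746792))) (c (b (l 16773888) (l 16746992)) (b (l 16773872) (l 16746792)))) (a (c (l 16698232) (l 16697720)) (a (l 16677008) (b (l 16714536) (l 16681240))))) (b (a (c (b (l 16773848) (l 16746592)) (b (l 16773824) (l 16746400))) (c (b (l 16773848) (l 16746592)) (b (l 16752856) (l 16746400)))) (a (c (l 16676224) (l 16675712)) (a (c (l 16697200) (l 16696680)) (c (l 16676224) (l 16675712)))))) (b (c (a (c (b (l 16773808) (l 16746200)) (b (l 16773784) (l 16746000))) (c (b (l 16763320) (l 16746200)) (b (l 16763296)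 (l 16746000)))) (a (c (b (l 16773760) (l 16745800)) (l 16717792)) (c (b (l 16752792) (l 16745800)) (b (l 16752768) (l 16745608))))) (a (c (c (l 16675192) (l 16674672)) (c (l 16674160) (l 16673640))) (c (a (c (l 16696160) (l 16695648)) (b (l 16712896) (c (l 16679048) (l 16678416)))) (a (c (l 16695128) (l 16694608)) (b (l 16691104) (c (l 16677792) (l 16656192)))))))) (c (a (c (b (a (l 16629480) (l 16629480)) (l 16557016)) (b (a (l 16627544) (b (l 16645296) (l 16609608))) (a (l 16554136) (l 16554136)))) (c (b (a (l 16629480) (l 16629480)) (l 16557016)) (b (a (b (l 16645296) (l 16609608)) (c (l 16628032) (l 16627064))) (c (l 16554856) (l 16553416))))) (a (c (b (a (l 16604648) (b (l 16643592) (l 16607448))) (a (l 16551256) (l 16551256))) (b (a (l 16602712) (b (l 16641888) (l 16605288))) (a (l 16548376) (l 16548376)))) (c (a (b (b (c (l 16644016) (l 16643168)) (l 16607448)) (l 16551256)) (b (c (l 16626096) (l 16625136)) (c (l 16551976) (l 16550536)))) (a (b (b (c (l 16642320) (l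 16641464)) (l 16605288)) (l 16548376)) (b (c (l 16603192) (b (l 16641464) (l 16604744))) (c (l 16549096) (l 16547664)))))))), by decide +kernel⟩

def k14_pm_102 : ∃ t, chk3 f_pm_102 t 6 7 1 = true :=
  ⟨(b (a (a (b (b (l 6) (c (l 16396864) (l 16386984))) (c (b (l 16306536) (l 16198992)) (b (l 16294312) (l 16183968)))) (b (c (b (c (l 16480376) (l 16476496)) (c (l 16399336) (l 16394400))) (b (c (l 16472616) (l 16468736)) (c (l 16389456) (l 16384520)))) (c (b (l 16264592) (l 16198992)) (b (c (l 16297368) (l 16291256)) (l 16183968))))) (a (b (c (b (c (l 16480376) (l 16476496)) (c (l 16399336) (l 16394400))) (b (c (l 16472616) (l 16468736)) (c (l 16389456) (l 16384520)))) (c (b (l 16306536) (l 16198992)) (b (l 16294312) (l 16183968)))) (b (c (b (c (l 16480376) (l 16476496)) (c (l 16399336) (l 16394400))) (b (c (l 16472616) (l 16468736)) (c (l 16389456) (l 16384520)))) (c (b (l 16306536) (l 16198992)) (c (l 16243080) (l 16215304)))))) (a (c (c (b (a (l 15940384) (l 16045240)) (b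 (l 15887744) (l 15807104))) (b (l 15960280) (b (l 15891568) (l 15796464)))) (b (a (l 16026520) (l 16026520)) (b (l 15886904) (c (l 15791016) (l 15788352))))) (c (b (c (b (l 16098872) (l 15992968)) (b (l 16084920) (l 15992768))) (a (b (l 15891648) (l 15802400)) (b (l 15891648) (l 15802400)))) (b (a (b (l 16071520) (l 15980656)) (l 15984576)) (b (c (l 15892544) (l 15883352)) (c (l 15791016) (a (l 15788352) (l 15788352)))))))), by decide +kernel⟩

def k15_pm_102 : ∃ t, chk3 f_pm_102 t 7 14 1 = true :=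
  ⟨(a (c (b (b (a (c (l 16480376) (l 16455528)) (c (l 16480376) (l 16476496))) (c (l 16399336) (a (l 16394400) (l 16394400)))) (c (b (l 16309592) (l 16202744)) (b (l 16303480) (l 16195232)))) (b (a (b (c (a (l 16472616) (l 16472616)) (a (l 16468736) (l 16468736))) (c (l 16389456) (l 16384520))) (c (b (l 16472616) (l 16389456)) (b (l 16468736) (l 16384520)))) (c (a (l 16201136) (b (l 16297368) (l 16187728))) (a (l 16173360) (b (l 16291256) (l 16180216)))))) (c (b (c (a (b (l 16480376) (l 16399336)) (b (l 16480376) (l 16399336))) (a (b (l 16476496) (l 16394400)) (b (c (l 16477464) (l 16475528)) (l 16394400)))) (c (b (l 16309592) (l 16202744)) (a (b (l 16303480) (l 16195232)) (b (l 16303480) (l 16195232))))) (b (c (a (b (l 16472616) (l 16389456)) (b (c (l 16473584) (l 16471648)) (c (l 16390696) (l 16388224)))) (a (b (l 16468736) (l 16384520)) (b (a (l 16468736) (c (l 16469704) (l 16467768))) (c (l 16364784) (a (l 16383280) (l 16383280)))))) (c (a (b (l 16297368) (l 16187728))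 (b (c (l 16298896) (l 16295840)) (l 16187728))) (a (b (l 16291256) (l 16180216)) (b (c (l 16292784) (a (l 16289728) (l 16289728))) (c (l 16182096) (l 16178336)))))))), by decide +kernel⟩

def k16_pm_102 : ∃ t, chk3 f_pm_102 t 7 15 1 = true :=
  ⟨(c (b (a (c (b (l 16098872) (l 15992968)) (b (l 16084920) (l 15992768))) (c (b (l 16098872) (l 15992968)) (b (l 16084920) (l 15992768)))) (a (c (a (l 15849384) (l 15849384)) (b (l 15891568) (l 15796464))) (c (l 15828416) (b (l 15891568) (l 15796464))))) (a (b (a (c (l 16031272) (l 16021768)) (c (l 16031272) (l 16021768))) (c (b (l 15892544) (a (l 15791016) (l 15791016))) (b (l 15883352) (a (l 15788352) (l 15788352))))) (b (c (a (l 16031272) (b (l 16075984) (l 15985696))) (a (b (l 16067056) (l 15975608)) (b (a (l 16067056) (l 16067056)) (l 15975608)))) (c (b (a (l 15892544) (l 15892544)) (a (l 15791016) (l 15791016))) (b (a (l 15883352) (l 15883352)) (a (l 15704472) (c (l 15788336) (l 15786320)))))))), by decide +kernel⟩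

theorem s17_pm_102 : ∃ t, chk3 f_pm_102 t 7 7 1 = true := ex3_b k15_pm_102 k16_pm_102

theorem s18_pm_102 : ∃ t, chk3 f_pm_102 t 3 7 1 = true := ex3_a k14_pm_102 s17_pm_102

theorem s19_pm_102 : ∃ t, chk3 f_pm_102 t 15 12 1 = true := ex3_b k11_pm_102 k12_pm_102

theorem s20_pm_102 : ∃ t, chk3 f_pm_102 t 15 6 1 = true := ex3_b s19_pm_102 k13_pm_102

theorem s21_pm_102 : ∃ t, chk3 f_pm_102 t 14 6 1 = true := ex3_a k9_pm_102 k10_pm_102

theorem s22_pm_102 : ∃ t, chk3 f_pm_102 t 7 6 1 = true := ex3_a s21_pm_102 s20_pm_102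

theorem s23_pm_102 : ∃ t, chk3 f_pm_102 t 3 6 1 = true := ex3_a k8_pm_102 s22_pm_102

theorem s24_pm_102 : ∃ t, chk3 f_pm_102 t 3 3 1 = true := ex3_b s23_pm_102 s18_pm_102

theorem s25_pm_102 : ∃ t, chk3 f_pm_102 t 3 1 1 = true := ex3_b k7_pm_102 s24_pm_102

theorem s26_pm_102 : ∃ t, chk3 f_pm_102 t 10 15 1 = true := ex3_a k4_pm_102 k5_pm_102

theorem s27_pm_102 : ∃ t, chk3 f_pm_102 t 10 7 1 = true := ex3_b k3_pm_102 s26_pm_102

theorem s28_pm_102 : ∃ t, chk3 f_pm_102 t 5 7 1 = true := ex3_a s27_pm_102 k6_pm_102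

theorem s29_pm_102 : ∃ t, chk3 f_pm_102 t 5 3 1 = true := ex3_b k2_pm_102 s28_pm_102

theorem s30_pm_102 : ∃ t, chk3 f_pm_102 t 2 3 1 = true := ex3_a k1_pm_102 s29_pm_102

theorem s31_pm_102 : ∃ t, chk3 f_pm_102 t 2 1 1 = true := ex3_b k0_pm_102 s30_pm_102

theorem s32_pm_102 : ∃ t, chk3 f_pm_102 t 1 1 1 = true := ex3_a s31_pm_102 s25_pm_102

theorem c_pm_102 : CertFX 536870912 536870912 0 536870912 1046898278 26843546 false true false .npp 1 0 2
    ndF0q1 ndF0q2 pcF0 cut_pm_102 Ext.none :=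
  certFX2 (fam := false) (s1 := true) (s2 := false) (a := 1) (b := 0) (c := 2) (cn := .npp) (n1 := ndF0q1) (n2 := ndF0q2) (pc := pcF0) (cut := cut_pm_102) (xt := Ext.none) (P1 := 536870912) (W1 := 536870912) (P2 := 0) (W2 := 536870912) (P3 := 1046898278) (W3 := 26843546)
    rfl (fun _ => rfl) s32_pm_102

noncomputable def cut_pm_112 : Cut := Cut.of [[⟨3, 0, 0, 1449551462⟩], [⟨4, 0, 0, 2845415833⟩]]

noncomputable def f_pm_112 : ℕ → ℕ → ℕ → ℕ → Bool := onCell 536870912 536870912 0 536870912 1046898278 26843546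
    (rowFX 0 false true false .dn 1 1 2 (qsf 536870912 536870912 0 536870912 1) ndF0q1 ndF0q2 pcF1 cut_pm_112 Ext.none)

def k0_pm_112 : ∃ t, chk3 f_pm_112 t 8 2 1 = true :=
  ⟨(a (b (a (b (l 6) (b (l 6) (b (l 6) (c (c (l 16777216) (l 16777216)) (c (l 16777216) (l 16777216)))))) (l 6)) (c (b (c (b (c (l 16777216) (l 16777216)) (c (l 16777216) (l 16777216))) (c (b (l 16777216) (l 16777216)) (b (l 16777216) (l 16777216)))) (c (b (c (b (l 16777216) (l 16777216)) (b (l 16777216) (l 16777216))) (c (b (l 16777216) (l 16777216)) (b (l 16777216) (l 16777216)))) (b (c (b (l 16777216) (l 16777216)) (c (l 16777216) (l 16777216))) (c (b (l 16777216) (l 16777216)) (c (l 16777216) (l 16777216)))))) (b (c (c (b (l 16777216) (l 16777216)) (b (l 16777216) (l 16777216))) (c (b (l 16777216) (l 16777216)) (l 16777216))) (c (b (c (l 16777216) (l 16777216)) (c (c (l 16777216) (l 16777216)) (l 16777216))) (c (b (l 16777216) (l 16777216)) (b (l 16777216) (l 16777216))))))) (b (l 6) (b (b (a (b (l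 6) (c (c (l 16777216) (l 16777216)) (c (l 16777216) (l 16777216)))) (l 6)) (c (c (c (c (l 16777216) (l 16777216)) (c (l 16777216) (l 16777216))) (c (c (l 16777216) (l 16777216)) (a (l 16777216) (l 16777216)))) (c (c (a (l 16777216) (l 16777216)) (l 16777216)) (c (l 16777216) (l 16777216))))) (c (c (b (c (b (l 16777216) (l 16777216)) (b (l 16777216) (l 16777216))) (c (b (l 16777216) (a (l 16777216) (l 16777216))) (c (l 16777216) (l 16777216)))) (b (c (b (l 16777216) (l 16777216)) (c (l 16777216) (l 16777216))) (c (b (l 16777216) (l 16777216)) (c (l 16777216) (l 16777216))))) (c (b (c (c (l 16777216) (l 16777216)) (a (l 16777216) (l 16777216))) (c (a (l 16777216) (l 16777216)) (a (l 16777216) (l 16777216)))) (b (c (l 16777216) (l 16777216)) (c (a (l 16777216) (l 16777216)) (l 16777216)))))))), by decide +kernel⟩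

def k1_pm_112 : ∃ t, chk3 f_pm_112 t 9 2 1 = true :=
  ⟨(b (l 6) (a (b (a (b (l 6) (b (l 6) (c (c (l 16777216) (l 16777216)) (c (l 16777216) (l 16777216))))) (l 6)) (c (c (b (c (b (l 16777216) (l 16777216)) (b (l 16777216) (l 16777216))) (c (b (l 16777216) (l 16777216)) (a (l 16777216) (l 16777216)))) (b (c (a (l 16777216) (l 16777216)) (a (l 16777216) (l 16777216))) (c (a (l 16777216) (l 16777216)) (a (l 16777216) (l 16777216))))) (c (b (c (a (l 16777216) (l 16777216)) (a (l 16777216) (l 16777216))) (c (a (l 16777216) (l 16777216)) (a (l 16777216) (l 16777216)))) (b (c (l 16777216) (l 16777216)) (c (l 16777216) (l 16777216)))))) (b (l 6) (b (b (l 6) (a (c (c (c (l 16777216) (l 16777216)) (c (l 16777216) (l 16777216))) (c (c (l 16777216) (l 16777216)) (l 16777216))) (l 6))) (c (c (c (b (l 16777216) (l 16777216)) (b (a (l 16777216) (l 16777216)) (a (l 16777216) (l 16777216)))) (c (b (a (l 16777216) (l 16777216)) (a (l 16777216) (l 16777216))) (b (a (l 16777216) (l 16777216))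 (a (l 16777216) (l 16777216))))) (c (c (b (a (l 16777216) (l 16777216)) (l 44593840135)) (b (l 16777216) (l 16777216))) (c (a (l 16777216) (l 16777216)) (l 16777216)))))))), by decide +kernel⟩

def k2_pm_112 : ∃ t, chk3 f_pm_112 t 5 2 1 = true :=
  ⟨(b (l 6) (b (l 6) (b (l 6) (b (l 6) (l 1))))), by decide +kernel⟩

def k3_pm_112 : ∃ t, chk3 f_pm_112 t 4 24 1 = true :=
  ⟨(c (a (c (c (a (b (l 16777216) (c (l 16777216) (l 16777216))) (b (a (l 16777216) (l 16777216)) (a (l 16777216) (l 16777216)))) (a (b (a (l 16777216) (l 16777216)) (a (l 16777216) (l 16777216))) (b (a (l 16777216) (l 16777216)) (a (l 16777216) (l 16777216))))) (c (a (b (a (l 16777216) (l 16777216)) (a (l 16777216) (l 16777216))) (c (b (l 16777216) (l 16777216)) (b (l 16777216) (l 16777216)))) (a (b (a (l 16777216) (l 16777216)) (a (l 16777216) (l 16777216))) (c (b (l 16777216) (l 16777216)) (b (l 16777216) (l 16777216)))))) (c (a (c (b (a (l 16777216) (l 16777216)) (a (l 16777216) (l 16777216))) (b (a (l 16777216)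 (l 16777216)) (a (l 16777216) (l 16777216)))) (c (b (l 8086618119) (c (l 16777216) (l 16777216))) (b (a (l 16777216) (l 16777216)) (a (l 16777216) (l 16777216))))) (a (c (b (a (l 16777216) (l 16777216)) (a (l 16777216) (l 16777216))) (c (a (l 16777216) (l 16777216)) (a (l 16777216) (l 16777216)))) (c (b (a (l 16777216) (l 16777216)) (a (l 16777216) (l 16777216))) (b (a (l 16777216) (l 16777216)) (a (l 16777216) (l 36003905543))))))) (a (c (a (c (b (l 16777216) (a (l 16777216) (l 16777216))) (b (l 16777216) (l 16777216))) (c (b (l 16777216) (a (l 16777216) (l 16777216))) (b (l 16777216) (l 16777216)))) (a (c (b (l 16777216) (l 16777216)) (l 16777216)) (c (b (l 16777216) (l 16777216)) (b (l 16777216) (l 16777216))))) (c (a (c (b (l 16777216) (a (l 16777216) (l 16777216))) (b (l 16777216) (l 16777216))) (c (b (a (l 16777216) (l 16777216)) (a (l 16777216) (l 16777216))) (b (l 50499420167) (l 50499420167)))) (a (c (b (l 16777216) (l 16777216)) (b (l 16777216) (l 16777216))) (c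 (b (l 16777216) (l 57478742023)) (b (l 16777216) (l 16777216))))))), by decide +kernel⟩

def k4_pm_112 : ∃ t, chk3 f_pm_112 t 8 25 1 = true :=
  ⟨(c (a (c (b (c (a (l 16777216) (l 16777216)) (a (l 16777216) (l 16777216))) (a (c (b (l 16777216) (l 16777216)) (b (l 16777216) (a (l 16777216) (l 16777216)))) (c (l 16777216) (l 16777216)))) (b (c (a (l 16777216) (l 16777216)) (a (l 16777216) (l 16777216))) (a (b (c (l 16777216) (l 16777216)) (c (a (l 16777216) (l 16777216)) (a (l 16777216) (l 16777216)))) (c (a (l 16777216) (l 16777216)) (a (l 16777216) (l 16777216)))))) (c (c (c (l 16777216) (l 16777216)) (b (a (l 16777216) (l 16777216)) (l 16777216))) (c (c (b (l 16777216) (l 16777216)) (b (l 16777216) (l 16777216))) (c (l 16777216) (l 16777216))))) (a (c (b (c (a (l 16777216) (l 16777216)) (a (l 16777216) (l 16777216))) (a (c (b (l 16777216) (a (l 16777216) (l 16777216))) (b (l 16777216) (l 16777216))) (a (c (l 16777216) (l 16777216)) (l 16777216)))) (b (c (l 16777216) (l 16777216))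 (a (c (b (l 16777216) (l 16777216)) (l 16777216)) (c (l 16777216) (l 16777216))))) (c (c (c (l 16777216) (l 16777216)) (c (l 16777216) (l 16777216))) (c (b (l 16777216) (l 16777216)) (b (l 16777216) (l 16777216)))))), by decide +kernel⟩

def k5_pm_112 : ∃ t, chk3 f_pm_112 t 9 25 1 = true :=
  ⟨(a (c (c (c (b (a (l 16777216) (l 16777216)) (l 16777216)) (b (a (l 16777216) (l 16777216)) (l 16777216))) (c (a (b (l 16777216) (l 16777216)) (b (l 16777216) (l 16777216))) (a (b (l 16777216) (l 16777216)) (b (l 16777216) (l 16777216))))) (c (c (a (l 16777216) (b (l 16777216) (l 16777216))) (c (l 16777216) (l 16777216))) (c (a (l 16777216) (l 16777216)) (b (l 16777216) (l 16777216))))) (a (c (c (c (b (l 16777216) (l 16777216)) (b (l 16777216) (l 16777216))) (c (b (l 16777216) (l 16777216)) (b (l 16777216) (l 16777216)))) (c (c (b (l 16777216) (l 16777216)) (b (l 16777216) (l 16777216))) (c (b (l 16777216) (l 16777216)) (l 62847451143)))) (l 1))), by decide +kernel⟩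

def k6_pm_112 : ∃ t, chk3 f_pm_112 t 5 12 1 = true :=
  ⟨(l 1), by decide +kernel⟩

def k7_pm_112 : ∃ t, chk3 f_pm_112 t 8 26 1 = true :=
  ⟨(c (a (b (c (a (c (l 16760504) (l 16718456)) (b (c (l 16752920) (b (l 16777216) (l 16770512))) (l 16746896))) (a (c (b (l 16773848) (l 16746592)) (l 16728720)) (b (b (a (l 16777216) (l 16777216)) (l 16749472)) (l 16725528)))) (c (c (l 16698232) (l 16676744)) (c (a (l 16697200) (l 16697200)) (a (l 16696680) (l 16696680))))) (b (c (a (b (b (l 16777216) (l 16749560)) (c (l 16746992) (l 16746792))) (b (l 16752912) (c (l 16746992) (l 16746792)))) (c (a (b (l 16752880) (l 16746592)) (b (l 16773848) (l 16746592))) (a (b (l 16752856) (l 16725424)) (b (l 16773824) (l 16746400))))) (c (a (l 16666520) (c (l 16698232) (l 16697720))) (a (c (l 16697200) (l 16696680)) (c (l 16697200) (l 16675712)))))) (a (b (c (a (c (l 16718128) (l 16718016)) (b (b (a (l 16777216) (l 16777216)) (l 16749384)) (l 16725128))) (a (c (l 16738880) (l 16738768)) (b (c (b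 (l 16777216) (l 16770288)) (l 16752768)) (l 16745704)))) (c (c (a (l 16696160) (l 16696160)) (a (l 16674672) (l 16695648))) (c (a (l 16674160) (l 16695128)) (a (l 16694608) (l 16694608))))) (b (c (a (b (c (l 16752832) (l 16752808)) (c (l 16725224) (l 16725032))) (b (c (l 16773808) (l 16773784)) (c (l 16746200) (l 16746000)))) (a (b (b (l 16777216) (l 16749296)) (c (l 16745800) (l 16745608))) (b (l 16752776) (c (l 16745800) (l 16745608))))) (c (a (c (l 16696160) (l 16695648)) (c (l 16675192) (l 16653704))) (a (c (l 16695128) (l 16694608)) (c (l 16658424) (l 16652664))))))), by decide +kernel⟩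

def k8_pm_112 : ∃ t, chk3 f_pm_112 t 8 27 1 = true :=
  ⟨(c (c (a (c (l 16552280) (b (l 16628992) (l 16556296))) (c (l 16573248) (l 16530104))) (a (c (b (l 16628032) (l 16554856)) (b (l 16606096) (l 16553416))) (c (b (l 16628032) (l 16554856)) (b (l 16627064) (l 16553416))))) (c (a (c (b (a (l 16626096) (l 16626096)) (l 16551976)) (b (a (l 16625136) (l 16625136)) (l 16529568))) (c (b (l 16626096) (l 16551976)) (b (l 16625136) (l 16550536)))) (a (c (b (l 16582224) (l 16528128)) (b (l 16581256) (l 16547664))) (c (b (l 16624168) (l 16549096)) (a (l 16522904) (l 16522904)))))), by decide +kernel⟩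

def k9_pm_112 : ∃ t, chk3 f_pm_112 t 9 13 1 = true :=
  ⟨(a (b (c (b (c (c (b (l 16773888) (l 16746992)) (b (l 16773872) (l 16746792))) (c (a (l 16739312) (l 16739312)) (a (l 16739208) (l 16739208)))) (b (c (a (l 16714536) (l 16714536)) (a (c (l 16713920) (l 16713512)) (l 16713712))) (c (a (l 16681240) (l 16681240)) (a (l 16679984) (l 16659016))))) (c (b (c (a (l 16739096) (l 16739096)) (a (l 16738984) (l 16738984))) (a (b (c (l 16713096) (l 16712688)) (l 16657760)) (b (l 16712896) (c (l 16679048) (l 16678416))))) (b (c (a (l 16738880) (l 16717904)) (a (l 16738768) (l 16738768))) (a (b (c (l 16712280) (l 16711872)) (c (l 16677792) (l 16677168))) (b (l 16691104) (c (l 16677792) (l 16677168))))))) (b (c (c (l 16608504) (c (l 16628032) (l 16627064))) (c (a (l 16583672) (l 39761623031)) (a (c (l 16624168) (l 16623200)) (l 57478358279)))) (a (c (c (l 16557016) (l 16554136)) (c (l 16530288) (c (l 16549096) (l 16547664)))) (l 1)))) (a (b (b (c (c (b (l 16773880) (l 16746896)) (c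 (l 18823941559) (l 29561358919))) (c (b (l 44593810359) (l 16725128)) (b (l 82711645015) (l 112776350167)))) (l 1)) (l 1)) (l 1))), by decide +kernel⟩

def k10_pm_112 : ∃ t, chk3 f_pm_112 t 5 13 1 = true :=
  ⟨(l 1), by decide +kernel⟩

def k11_pm_112 : ∃ t, chk3 f_pm_112 t 2 7 1 = true :=
  ⟨(a (a (b (c (b (c (a (b (l 16480376) (l 16399336)) (b (l 16480376) (l 16399336))) (a (b (c (l 16477464) (l 16475528)) (l 16394400)) (b (l 16476496) (l 16394400)))) (c (b (l 16330568) (l 16202744)) (a (b (l 16303480) (l 16195232)) (b (l 16303480) (l 16195232))))) (b (c (a (b (c (l 16473584) (l 16471648)) (c (l 16390696) (l 16388224))) (b (c (l 16473584) (l 16471648)) (c (l 16390696) (l 16388224)))) (a (b (c (l 16469704) (l 16467768)) (c (l 16385752) (l 16383280))) (b (c (l 16469704) (l 16425824)) (c (l 16385752) (l 16341344))))) (c (a (b (c (l 16298896) (l 16295840)) (l 16187728)) (b (c (l 16298896) (l 16295840)) (l 16187728))) (a (b (c (l 16292784) (l 16289728)) (c (l 16182096) (l 16178336)))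 (b (c (l 16292784) (l 16289728)) (c (l 16182096) (l 16178336))))))) (a (c (b (c (l 16045240) (l 16044168)) (b (l 15849704) (l 15802400))) (b (c (b (l 16075984) (l 15985696)) (b (l 16046080) (l 15975608))) (c (b (l 15892544) (l 15791016)) (b (l 15883352) (c (l 15788336) (l 15786320)))))) (a (b (b (c (l 16088264) (c (l 16075984) (l 16067056))) (l 1)) (l 1)) (l 1)))) (a (a (b (b (c (c (l 16440264) (b (l 16476496) (l 16394400))) (c (b (l 16472616) (l 16389456)) (b (c (l 16469704) (l 16467768)) (c (l 16385752) (l 16383280))))) (l 1)) (l 1)) (l 1)) (l 1))) (l 1)), by decide +kernel⟩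

def k12_pm_112 : ∃ t, chk3 f_pm_112 t 3 1 1 = true :=
  ⟨(l 1), by decide +kernel⟩

theorem s13_pm_112 : ∃ t, chk3 f_pm_112 t 8 13 1 = true := ex3_b k7_pm_112 k8_pm_112

theorem s14_pm_112 : ∃ t, chk3 f_pm_112 t 4 13 1 = true := ex3_a s13_pm_112 k9_pm_112

theorem s15_pm_112 : ∃ t, chk3 f_pm_112 t 2 13 1 = true := ex3_a s14_pm_112 k10_pm_112

theorem s16_pm_112 : ∃ t, chk3 f_pm_112 t 4 25 1 = true := ex3_a k4_pm_112 k5_pm_112

theorem s17_pm_112 : ∃ t, chk3 f_pm_112 t 4 12 1 = true := ex3_b k3_pm_112 s16_pm_112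

theorem s18_pm_112 : ∃ t, chk3 f_pm_112 t 2 12 1 = true := ex3_a s17_pm_112 k6_pm_112

theorem s19_pm_112 : ∃ t, chk3 f_pm_112 t 2 6 1 = true := ex3_b s18_pm_112 s15_pm_112

theorem s20_pm_112 : ∃ t, chk3 f_pm_112 t 2 3 1 = true := ex3_b s19_pm_112 k11_pm_112

theorem s21_pm_112 : ∃ t, chk3 f_pm_112 t 4 2 1 = true := ex3_a k0_pm_112 k1_pm_112

theorem s22_pm_112 : ∃ t, chk3 f_pm_112 t 2 2 1 = true := ex3_a s21_pm_112 k2_pm_112

theorem s23_pm_112 : ∃ t, chk3 f_pm_112 t 2 1 1 = true := ex3_b s22_pm_112 s20_pm_112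

theorem s24_pm_112 : ∃ t, chk3 f_pm_112 t 1 1 1 = true := ex3_a s23_pm_112 k12_pm_112

theorem c_pm_112 : CertFX 536870912 536870912 0 536870912 1046898278 26843546 false true false .dn 1 1 2
    ndF0q1 ndF0q2 pcF1 cut_pm_112 Ext.none :=
  certFX0 (fam := false) (s1 := true) (s2 := false) (a := 1) (b := 1) (c := 2) (cn := .dn) (n1 := ndF0q1) (n2 := ndF0q2) (pc := pcF1) (cut := cut_pm_112) (xt := Ext.none) (P1 := 536870912) (W1 := 536870912) (P2 := 0) (W2 := 536870912) (P3 := 1046898278) (W3 := 26843546)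
    rfl s24_pm_112

noncomputable def cut_pm_202 : Cut := Cut.of [[⟨3, 0, 0, 1449551462⟩], [⟨4, 0, 0, 2845415833⟩], [⟨0, 1, 0, 67108864⟩, ⟨1, 0, 0, 67108864⟩, ⟨2, 1, 0, 67108864⟩, ⟨3, 0, 0, 1317011456⟩]]

noncomputable def f_pm_202 : ℕ → ℕ → ℕ → ℕ → Bool := onCell 0 536870912 0 536870912 1046898278 26843546
    (rowFX 0 false true false .pp 2 0 2 (qsf 0 536870912 0 536870912 0) ndF0q2 ndF0q2 pcF0 cut_pm_202 Ext.none)

def k0_pm_202 : ∃ t, chk3 f_pm_202 t 1 1 1 = true :=
  ⟨(l 6), by decide +kernel⟩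

theorem c_pm_202 : CertFX 0 536870912 0 536870912 1046898278 26843546 false true false .pp 2 0 2
    ndF0q2 ndF0q2 pcF0 cut_pm_202 Ext.none :=
  certFX0 (fam := false) (s1 := true) (s2 := false) (a := 2) (b := 0) (c := 2) (cn := .pp) (n1 := ndF0q2) (n2 := ndF0q2) (pc := pcF0) (cut := cut_pm_202) (xt := Ext.none) (P1 := 0) (W1 := 536870912) (P2 := 0) (W2 := 536870912) (P3 := 1046898278) (W3 := 26843546)
    rfl k0_pm_202

noncomputable def cut_mm_001 : Cut := Cut.of [[⟨3, 0, 0, 1449551462⟩], [⟨4, 0, 0, 2845415833⟩]]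

noncomputable def f_mm_001 : ℕ → ℕ → ℕ → ℕ → Bool := onCell 0 536870912 536870912 536870912 1046898278 26843546
    (rowFX 0 false false false .up 0 0 1 (qsf 0 536870912 536870912 536870912 0) ndF0q0 ndF0q1 pcF0 cut_mm_001 Ext.none)

def k0_mm_001 : ∃ t, chk3 f_mm_001 t 1 1 1 = true :=
  ⟨(l 6), by decide +kernel⟩

theorem c_mm_001 : CertFX 0 536870912 536870912 536870912 1046898278 26843546 false false false .up 0 0 1
    ndF0q0 ndF0q1 pcF0 cut_mm_001 Ext.none :=
  certFX0 (fam := false) (s1 := false) (s2 := false) (a := 0) (b := 0) (c := 1) (cn := .up) (n1 := ndF0q0) (n2 := ndF0q1) (pc := pcF0) (cut := cut_mm_001) (xt := Ext.none) (P1 := 0) (W1 := 536870912) (P2 := 536870912) (W2 := 536870912) (P3 := 1046898278) (W3 := 26843546)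
    rfl k0_mm_001

noncomputable def cut_mm_011 : Cut := Cut.of [[⟨3, 0, 0, 1449551462⟩], [⟨4, 0, 0, 2845415833⟩]]

noncomputable def f_mm_011 : ℕ → ℕ → ℕ → ℕ → Bool := onCell 0 536870912 536870912 536870912 1046898278 26843546
    (rowFX 0 false false false .pnn 0 1 1 (qsf 0 536870912 536870912 536870912 1) ndF0q0 ndF0q1 pcF1 cut_mm_011 Ext.none)

def k0_mm_011 : ∃ t, chk3 f_mm_011 t 1 1 1 = true :=
  ⟨(l 6), by decide +kernel⟩

theorem c_mm_011 : CertFX 0 536870912 536870912 536870912 1046898278 26843546 false false false .pnn 0 1 1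
    ndF0q0 ndF0q1 pcF1 cut_mm_011 Ext.none :=
  certFX0 (fam := false) (s1 := false) (s2 := false) (a := 0) (b := 1) (c := 1) (cn := .pnn) (n1 := ndF0q0) (n2 := ndF0q1) (pc := pcF1) (cut := cut_mm_011) (xt := Ext.none) (P1 := 0) (W1 := 536870912) (P2 := 536870912) (W2 := 536870912) (P3 := 1046898278) (W3 := 26843546)
    rfl k0_mm_011

noncomputable def cut_mm_012 : Cut := Cut.of [[⟨3, 0, 0, 1449551462⟩], [⟨4, 0, 0, 2845415833⟩]]

noncomputable def f_mm_012 : ℕ → ℕ → ℕ → ℕ → Bool := onCell 0 536870912 0 536870912 1046898278 26843546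
    (rowFX 0 false false false .pnp 0 1 2 (qsf 0 536870912 0 536870912 1) ndF0q0 ndF0q2 pcF1 cut_mm_012 Ext.none)

def k0_mm_012 : ∃ t, chk3 f_mm_012 t 1 1 1 = true :=
  ⟨(l 5), by decide +kernel⟩

theorem c_mm_012 : CertFX 0 536870912 0 536870912 1046898278 26843546 false false false .pnp 0 1 2
    ndF0q0 ndF0q2 pcF1 cut_mm_012 Ext.none :=
  certFX0 (fam := false) (s1 := false) (s2 := false) (a := 0) (b := 1) (c := 2) (cn := .pnp) (n1 := ndF0q0) (n2 := ndF0q2) (pc := pcF1) (cut := cut_mm_012) (xt := Ext.none) (P1 := 0) (W1 := 536870912) (P2 := 0) (W2 := 536870912) (P3 := 1046898278) (W3 := 26843546)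
    rfl k0_mm_012

noncomputable def cut_mm_022 : Cut := Cut.of [[⟨3, 0, 0, 1449551462⟩], [⟨4, 0, 0, 2845415833⟩]]

noncomputable def f_mm_022 : ℕ → ℕ → ℕ → ℕ → Bool := onCell 0 536870912 0 536870912 1046898278 26843546
    (rowFX 0 false false false .pp 0 2 2 (qsf 0 536870912 0 536870912 2) ndF0q0 ndF0q2 pcF2 cut_mm_022 Ext.none)

def k0_mm_022 : ∃ t, chk3 f_mm_022 t 1 1 1 = true :=
  ⟨(l 5), by decide +kernel⟩

theorem c_mm_022 : CertFX 0 536870912 0 536870912 1046898278 26843546 false false false .pp 0 2 2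
    ndF0q0 ndF0q2 pcF2 cut_mm_022 Ext.none :=
  certFX0 (fam := false) (s1 := false) (s2 := false) (a := 0) (b := 2) (c := 2) (cn := .pp) (n1 := ndF0q0) (n2 := ndF0q2) (pc := pcF2) (cut := cut_mm_022) (xt := Ext.none) (P1 := 0) (W1 := 536870912) (P2 := 0) (W2 := 536870912) (P3 := 1046898278) (W3 := 26843546)
    rfl k0_mm_022

noncomputable def cut_mm_101 : Cut := Cut.of [[⟨3, 0, 0, 1449551462⟩], [⟨4, 0, 0, 2845415833⟩]]

noncomputable def f_mm_101 : ℕ → ℕ → ℕ → ℕ → Bool := onCell 536870912 536870912 536870912 536870912 1046898278 26843546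
    (rowFX 0 false false false .npn 1 0 1 (qsf 536870912 536870912 536870912 536870912 0) ndF0q1 ndF0q1 pcF0 cut_mm_101 Ext.none)

def k0_mm_101 : ∃ t, chk3 f_mm_101 t 1 1 1 = true :=
  ⟨(l 3), by decide +kernel⟩

theorem c_mm_101 : CertFX 536870912 536870912 536870912 536870912 1046898278 26843546 false false false .npn 1 0 1
    ndF0q1 ndF0q1 pcF0 cut_mm_101 Ext.none :=
  certFX0 (fam := false) (s1 := false) (s2 := false) (a := 1) (b := 0) (c := 1) (cn := .npn) (n1 := ndF0q1) (n2 := ndF0q1) (pc := pcF0) (cut := cut_mm_101) (xt := Ext.none) (P1 := 536870912) (W1 := 536870912) (P2 := 536870912) (W2 := 536870912) (P3 := 1046898278) (W3 := 26843546)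
    rfl k0_mm_101

noncomputable def cut_mm_102 : Cut := Cut.of [[⟨3, 0, 0, 1449551462⟩], [⟨4, 0, 0, 2845415833⟩]]

noncomputable def f_mm_102 : ℕ → ℕ → ℕ → ℕ → Bool := onCell 536870912 536870912 0 536870912 1046898278 26843546
    (rowFX 0 false false false .npp 1 0 2 (qsf 536870912 536870912 0 536870912 0) ndF0q1 ndF0q2 pcF0 cut_mm_102 Ext.none)

def k0_mm_102 : ∃ t, chk3 f_mm_102 t 1 1 1 = true :=
  ⟨(a (l 5) (l 3)), by decide +kernel⟩

theorem c_mm_102 : CertFX 536870912 536870912 0 536870912 1046898278 26843546 false false false .npp 1 0 2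
    ndF0q1 ndF0q2 pcF0 cut_mm_102 Ext.none :=
  certFX0 (fam := false) (s1 := false) (s2 := false) (a := 1) (b := 0) (c := 2) (cn := .npp) (n1 := ndF0q1) (n2 := ndF0q2) (pc := pcF0) (cut := cut_mm_102) (xt := Ext.none) (P1 := 536870912) (W1 := 536870912) (P2 := 0) (W2 := 536870912) (P3 := 1046898278) (W3 := 26843546)
    rfl k0_mm_102

noncomputable def cut_mm_112 : Cut := Cut.of [[⟨3, 0, 0, 1449551462⟩], [⟨4, 0, 0, 2845415833⟩]]

noncomputable def f_mm_112 : ℕ → ℕ → ℕ → ℕ → Bool := onCell 536870912 536870912 0 536870912 1046898278 26843546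
    (rowFX 2 false false false .dn 1 1 2 (qsf 536870912 536870912 0 536870912 1) ndF0q1 ndF0q2 pcF1 cut_mm_112 Ext.none)

def k0_mm_112 : ∃ t, chk3 f_mm_112 t 1 1 1 = true :=
  ⟨(l 5), by decide +kernel⟩

theorem c_mm_112 : CertFX 536870912 536870912 0 536870912 1046898278 26843546 false false false .dn 1 1 2
    ndF0q1 ndF0q2 pcF1 cut_mm_112 Ext.none :=
  certFX2 (fam := false) (s1 := false) (s2 := false) (a := 1) (b := 1) (c := 2) (cn := .dn) (n1 := ndF0q1) (n2 := ndF0q2) (pc := pcF1) (cut := cut_mm_112) (xt := Ext.none) (P1 := 536870912) (W1 := 536870912) (P2 := 0) (W2 := 536870912) (P3 := 1046898278) (W3 := 26843546)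
    rfl (fun _ => rfl) k0_mm_112

noncomputable def cut_mm_202 : Cut := Cut.of [[⟨3, 0, 0, 1449551462⟩], [⟨4, 0, 0, 2845415833⟩]]

noncomputable def f_mm_202 : ℕ → ℕ → ℕ → ℕ → Bool := onCell 0 536870912 0 536870912 1046898278 26843546
    (rowFX 0 false false false .pp 2 0 2 (qsf 0 536870912 0 536870912 0) ndF0q2 ndF0q2 pcF0 cut_mm_202 Ext.none)

def k0_mm_202 : ∃ t, chk3 f_mm_202 t 1 1 1 = true :=
  ⟨(l 3), by decide +kernel⟩

theorem c_mm_202 : CertFX 0 536870912 0 536870912 1046898278 26843546 false false false .pp 2 0 2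
    ndF0q2 ndF0q2 pcF0 cut_mm_202 Ext.none :=
  certFX0 (fam := false) (s1 := false) (s2 := false) (a := 2) (b := 0) (c := 2) (cn := .pp) (n1 := ndF0q2) (n2 := ndF0q2) (pc := pcF0) (cut := cut_mm_202) (xt := Ext.none) (P1 := 0) (W1 := 536870912) (P2 := 0) (W2 := 536870912) (P3 := 1046898278) (W3 := 26843546)
    rfl k0_mm_202

end Pool.Agent.Strip051.G.IE1.Tab.C.FB00

namespace Pool.Agent.Strip051.G.IE1.Tab.C.FB01

open Pool.Agent.Strip051.PB Pool.Agent.Strip051.PB.T
open Pool.Agent.Strip051.G.IE1.Tab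

noncomputable def f_pp_001 : ℕ → ℕ → ℕ → ℕ → Bool := onCell 0 536870912 536870912 536870912 1046898278 26843546
    (rowFX 0 false true true .up 0 0 1 (qsf 0 536870912 536870912 536870912 0) ndF0q0 ndF1q1 pcF0 Cut.none Ext.none)

def k0_pp_001 : ∃ t, chk3 f_pp_001 t 1 1 1 = true :=
  ⟨(l 3), by decide +kernel⟩

theorem c_pp_001 : CertFX 0 536870912 536870912 536870912 1046898278 26843546 false true true .up 0 0 1
    ndF0q0 ndF1q1 pcF0 Cut.none Ext.none :=
  certFX0 (fam := false) (s1 := true) (s2 := true) (a := 0) (b := 0) (c := 1) (cn := .up) (n1 := ndF0q0) (n2 := ndF1q1) (pc := pcF0) (cut := Cut.none) (xt := Ext.none) (P1 := 0) (W1 := 536870912) (P2 := 536870912) (W2 := 536870912) (P3 := 1046898278) (W3 := 26843546)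
    rfl k0_pp_001

noncomputable def f_pp_011 : ℕ → ℕ → ℕ → ℕ → Bool := onCell 0 536870912 536870912 536870912 1046898278 26843546
    (rowFX 0 false true true .pnn 0 1 1 (qsf 0 536870912 536870912 536870912 1) ndF0q0 ndF1q1 pcF1 Cut.none Ext.none)

def k0_pp_011 : ∃ t, chk3 f_pp_011 t 1 1 1 = true :=
  ⟨(l 3), by decide +kernel⟩

theorem c_pp_011 : CertFX 0 536870912 536870912 536870912 1046898278 26843546 false true true .pnn 0 1 1
    ndF0q0 ndF1q1 pcF1 Cut.none Ext.none :=
  certFX0 (fam := false) (s1 := true) (s2 := true) (a := 0) (b := 1) (c := 1) (cn := .pnn) (n1 := ndF0q0) (n2 := ndF1q1) (pc := pcF1) (cut := Cut.none) (xt := Ext.none) (P1 := 0) (W1 := 536870912) (P2 := 536870912) (W2 := 536870912) (P3 := 1046898278) (W3 := 26843546)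
    rfl k0_pp_011

end Pool.Agent.Strip051.G.IE1.Tab.C.FB01

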