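import Pool.Agent.Strip051.G.IE1.Tab

/-! # Certificates F28 (generated) -/

set_option linter.all false
set_option maxRecDepth 100000

namespace Pool.Agent.Strip051.G.IE1.Tab.C.FB01

open Pool.Agent.Strip051.PB Pool.Agent.Strip051.PB.T
open Pool.Agent.Strip051.G.IE1.Tab

noncomputable def f_pp_012_b : ℕ → ℕ → ℕ → ℕ → Bool := onCell 536870912 536870912 1239849684 370763052 1046898278 26843546
    (rowFX 2 false true true .pnp 0 1 2 (qsf 0 536870912 1239849684 370763052 1) ndF0q0 ndF1q2b pcF1 Cut.none Ext.none)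

def k0_pp_012_b : ∃ t, chk3 f_pp_012_b t 4 1 1 = true :=
  ⟨(l 2), by decide +kernel⟩

def k1_pp_012_b : ∃ t, chk3 f_pp_012_b t 10 8 1 = true :=
  ⟨(a (l 3) (a (l 3) (a (b (b (a (b (b (a (l 3) (a (l 3) (c (b (c (c (c (l 221358587911) (l 220821716999)) (c (l 220284846087) (l 219211104263))) (c (c (l 218674233351) (l 16777216)) (c (l 16777216) (l 16777216)))) (c (c (l 279877517319) (l 278266904583)) (c (l 275582550023) (l 272898195463)))) (c (c (c (l 16777216) (l 16777216)) (c (l 16777216) (l 16777216))) (c (l 16777216) (l 16777216)))))) (l 3)) (l 3)) (c (c (c (b (a (b (l 16777216) (l 16777216)) (l 16777216)) (l 16777216)) (b (a (b (l 16777216) (l 16777216)) (l 16777216)) (l 16777216))) (a (b (c (b (l 16777216) (l 16777216)) (b (l 16777216) (l 16777216))) (l 280951259143)) (c (l 16777216) (l 16777216)))) (c (c (b (c (l 16777216) (l 16777216)) (l 16777216)) (b (b (l 16777216) (l 16777216)) (l 16777216))) (c (b (a (l 16777216) (l 16777216)) (l 16777216)) (b (a (l 16777216) (l 16777216)) (l 16777216))))))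 (a (l 3) (a (l 3) (c (c (l 16777216) (l 16777216)) (c (l 16777216) (l 16777216)))))) (l 3)) (c (c (b (b (c (l 16777216) (l 16777216)) (c (l 16777216) (l 16777216))) (c (b (l 16777216) (l 16777216)) (b (l 16777216) (l 16777216)))) (b (b (c (l 16777216) (l 16777216)) (c (l 16777216) (l 16777216))) (c (l 16777216) (l 16777216)))) (c (b (b (c (l 16777216) (l 16777216)) (c (l 16777216) (l 16777216))) (c (l 16777216) (l 16777216))) (b (b (c (l 16777216) (l 16777216)) (c (l 16777216) (l 16777216))) (c (l 16777216) (l 16777216)))))))), by decide +kernel⟩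

def k2_pp_012_b : ∃ t, chk3 f_pp_012_b t 11 8 1 = true :=
  ⟨(c (a (c (c (a (b (a (l 16777216) (l 16777216)) (a (l 16777216) (l 16777216))) (b (l 16777216) (l 16777216))) (a (b (a (l 16777216) (l 16777216)) (a (l 16777216) (l 16777216))) (b (l 16777216) (l 16777216)))) (a (c (b (a (l 16777216) (l 16777216)) (l 16777216)) (b (a (l 16777216) (l 16777216)) (l 16777216))) (c (b (l 16777216) (l 16777216)) (b (l 16777216) (l 16777216))))) (c (c (a (l 16777216) (l 16777216)) (a (l 16777216) (l 16777216))) (c (a (l 16777216) (l 16777216)) (a (l 16777216) (l 16777216))))) (a (c (a (b (c (a (l 16777216) (l 16777216)) (a (l 16777216) (l 16777216))) (c (l 16777216) (l 16777216))) (c (b (l 16777216) (l 16777216)) (b (l 16777216) (l 16777216)))) (a (b (c (a (l 16777216) (l 16777216)) (a (l 16777216) (l 16777216))) (c (l 16777216) (l 16777216))) (b (c (l 16777216) (l 16777216)) (c (l 16777216) (l 16777216))))) (c (c (a (l 16777216) (l 16777216)) (a (l 16777216) (l 16777216))) (c (b (l 16777216) (l 16777216))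 (b (l 16777216) (l 16777216)))))), by decide +kernel⟩

def k3_pp_012_b : ∃ t, chk3 f_pp_012_b t 5 9 1 = true :=
  ⟨(a (l 2) (a (b (a (a (l 2) (b (c (c (l 16777216) (l 16777216)) (c (l 16777216) (l 16777216))) (l 2))) (c (c (c (l 16777216) (l 16777216)) (c (l 16777216) (l 16777216))) (c (c (l 16777216) (l 16777216)) (l 16777216)))) (l 2)) (a (c (c (c (l 16777216) (l 16777216)) (c (l 16777216) (l 16777216))) (c (b (l 16777216) (l 16777216)) (b (l 16777216) (l 16777216)))) (c (c (c (l 16777216) (l 16777216)) (c (l 16777216) (l 16777216))) (c (b (l 16777216) (l 16777216)) (l 16777216)))))), by decide +kernel⟩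

def k4_pp_012_b : ∃ t, chk3 f_pp_012_b t 5 5 1 = true :=
  ⟨(b (b (a (l 2) (a (l 2) (a (l 2) (b (c (l 153108873223) (l 16777216)) (l 2))))) (l 2)) (l 2)), by decide +kernel⟩

def k5_pp_012_b : ∃ t, chk3 f_pp_012_b t 5 3 1 = true :=
  ⟨(l 2), by decide +kernel⟩

def k6_pp_012_b : ∃ t, chk3 f_pp_012_b t 3 4 1 = true :=
  ⟨(a (a (c (a (c (b (a (l 16777216) (l 16777200)) (a (l 16777216) (l 16777200))) (b (a (l 16777216) (l 16777200)) (c (l 16777208) (l 16777208)))) (c (b (a (l 16773544) (l 16765800)) (l 16770640)) (b (a (l 16773496) (l 16765648)) (l 16770552)))) (a (c (b (a (l 16777216) (l 16777200)) (c (l 16777208) (l 16777208))) (b (a (l 16777216) (l 16777200)) (c (l 16777208) (l 16777208)))) (c (b (a (l 16773448) (l 16765496)) (l 16770472)) (b (a (l 16773400) (l 16765352)) (l 16770384))))) (a (c (b (c (a (l 16756240) (l 16747104)) (a (l 16755960) (l 16746704))) (a (l 16757808) (l 16747392))) (c (b (a (l 16755688) (l 16746312)) (l 16752024)) (b (a (l 16755416) (l 16745920)) (l 16751704)))) (c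 (a (b (l 16738520) (l 16738208)) (b (b (l 16734504) (l 16776280)) (l 16776008))) (a (b (l 16737520) (l 16737200)) (b (l 16734400) (l 16775976)))))) (a (a (c (b (c (l 16556936) (l 16597096)) (l 16616472)) (b (c (l 16616288) (l 16635480)) (l 16633808))) (b (c (b (a (l 16514264) (b (l 16418888) (l 16436328))) (l 16472448)) (b (a (l 16507432) (b (l 16452712) (l 16427480))) (l 16464536))) (c (c (l 16470968) (l 16466968)) (l 16439992)))) (a (b (c (b (a (b (l 16475656) (l 16406392)) (l 16479848)) (a (l 16364904) (l 16340880))) (b (a (l 16392208) (l 16473064)) (a (l 16354224) (l 16329832)))) (c (a (l 16355256) (l 16285888)) (a (l 16344296) (l 16273128)))) (b (b (c (l 16478008) (l 16453400)) (c (l 16396144) (l 16387472))) (b (a (b (l 16235760) (l 16220672)) (l 16217704)) (c (l 16197976) (l 16183000))))))), by decide +kernel⟩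

def k7_pp_012_b : ∃ t, chk3 f_pp_012_b t 3 5 1 = true :=
  ⟨(a (a (b (c (a (c (a (l 16777216) (l 16777200)) (c (l 16777208) (l 16777208))) (c (l 16771472) (l 16771400))) (a (c (l 16777208) (l 16777208)) (c (l 16771328) (l 16771248)))) (a (l 2) (c (c (l 16772400) (l 16772336)) (c (l 16772272) (l 16772208))))) (a (c (c (b (l 16754920) (l 16757264)) (l 16733384)) (c (l 16754056) (b (l 16754040) (l 16756480)))) (c (a (b (l 16738576) (l 16740320)) (b (l 16775608) (l 16691200))) (a (c (l 16739048) (l 16738560)) (b (l 16775568) (a (l 16754088) (l 16749696))))))) (a (a (c (b (l 16634592) (l 16631368)) (b (l 16630888) (l 16627576))) (c (b (l 16463800) (l 16457904)) (l 16410560))) (c (a (b (l 16313480) (l 16305976)) (l 16179856)) (a (b (l 16301440) (l 16293736)) (l 16143368))))), by decide +kernel⟩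

def k8_pp_012_b : ∃ t, chk3 f_pp_012_b t 3 3 1 = true :=
  ⟨(b (a (a (l 2) (c (a (c (l 16761360) (l 16761152)) (a (l 16746192) (b (l 16773416) (l 16771648)))) (a (c (l 16760944) (l 16760744)) (a (c (l 16745592) (l 16745192)) (c (l 16772736) (a (l 16757048) (l 16747600))))))) (a (a (c (b (l 16565920) (l 16561752)) (a (c (l 16672088) (l 16670744)) (l 16573384))) (c (l 16447360) (l 16438792))) (c (a (l 16292368) (l 16160960)) (a (l 16279776) (l 16144952))))) (a (l 2) (a (a (l 2) (b (a (l 16475128) (l 16388392)) (l 2))) (c (a (l 16270656) (l 16136664)) (a (l 16257496) (l 16120024)))))), by decide +kernel⟩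

theorem s9_pp_012_b : ∃ t, chk3 f_pp_012_b t 3 2 1 = true := ex3_b k6_pp_012_b k7_pp_012_b

theorem s10_pp_012_b : ∃ t, chk3 f_pp_012_b t 3 1 1 = true := ex3_b s9_pp_012_b k8_pp_012_b

theorem s11_pp_012_b : ∃ t, chk3 f_pp_012_b t 5 8 1 = true := ex3_a k1_pp_012_b k2_pp_012_b

theorem s12_pp_012_b : ∃ t, chk3 f_pp_012_b t 5 4 1 = true := ex3_b s11_pp_012_b k3_pp_012_b

theorem s13_pp_012_b : ∃ t, chk3 f_pp_012_b t 5 2 1 = true := ex3_b s12_pp_012_b k4_pp_012_b

theorem s14_pp_012_b : ∃ t, chk3 f_pp_012_b t 5 1 1 = true := ex3_b s13_pp_012_b k5_pp_012_b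

theorem s15_pp_012_b : ∃ t, chk3 f_pp_012_b t 2 1 1 = true := ex3_a k0_pp_012_b s14_pp_012_b

theorem s16_pp_012_b : ∃ t, chk3 f_pp_012_b t 1 1 1 = true := ex3_a s15_pp_012_b s10_pp_012_b

theorem c_pp_012_b : CertFX 0 536870912 1239849684 370763052 1046898278 26843546 false true true .pnp 0 1 2
    ndF0q0 ndF1q2b pcF1 Cut.none Ext.none :=
  certFX2 (fam := false) (s1 := true) (s2 := true) (a := 0) (b := 1) (c := 2) (cn := .pnp) (n1 := ndF0q0) (n2 := ndF1q2b) (pc := pcF1) (cut := Cut.none) (xt := Ext.none) (P1 := 0) (W1 := 536870912) (P2 := 1239849684) (W2 := 370763052) (P3 := 1046898278) (W3 := 26843546)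
    rfl (fun _ => rfl) s16_pp_012_b

noncomputable def f_pp_022_a : ℕ → ℕ → ℕ → ℕ → Bool := onCell 1073741824 536870912 0 420477299 1046898278 26843546
    (rowFX 2 false true true .pp 0 2 2 (qsf 0 536870912 0 420477299 2) ndF0q0 ndF1q2a pcF2 Cut.none Ext.none)

def k0_pp_022_a : ∃ t, chk3 f_pp_022_a t 4 2 1 = true :=
  ⟨(a (b (a (c (b (l 16577760) (l 16628520)) (b (l 16576008) (l 16607024))) (c (a (l 16600256) (l 16535528)) (a (l 16578976) (l 16533888)))) (a (c (a (l 16366680) (l 16358464)) (a (l 16361200) (l 16332528))) (a (c (l 16397624) (l 16392728)) (c (l 16403024) (l 16397832))))) (a (b (a (c (l 16461160) (l 16457944)) (c (b (l 16428096) (l 16432680)) (l 16428128))) (c (a (b (l 16421064) (l 16293344)) (b (l 16351608) (c (l 16360800) (l 16398992)))) (a (l 16372624) (l 16410792)))) (b (c (a (c (l 16452736) (l 16471464)) (c (l 16475024) (l 16396888))) (a (l 16475664) (l 16363312))) (c (a (b (c (l 16444416) (l 16472688)) (c (l 16419344) (l 16446784))) (b (c (l 16480400) (l 16461416)) (l 16366080)))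 (a (b (l 16481536) (l 16460864)) (b (l 16341144) (c (l 16347024) (l 16481584)))))))), by decide +kernel⟩

def k1_pp_022_a : ∃ t, chk3 f_pp_022_a t 4 6 1 = true :=
  ⟨(a (a (b (c (a (l 16293056) (l 16295080)) (a (l 16281536) (l 16284344))) (c (a (b (l 16160488) (l 16054208)) (b (l 16166584) (l 16068192))) (a (b (l 16145208) (l 16035992)) (b (l 16152136) (l 16050976))))) (c (b (a (l 16285752) (b (l 16310800) (l 16258040))) (a (b (l 16173600) (a (l 16083688) (l 16066496))) (c (b (l 16202704) (a (l 16129944) (l 16148912))) (l 16160064)))) (b (a (l 16275536) (l 16277992)) (a (b (l 16160096) (l 16082144)) (l 16172296))))) (a (c (b (a (c (l 16298664) (l 16314024)) (c (l 16302808) (l 16310424))) (a (c (b (l 16232896) (l 16136576)) (a (l 16198576) (l 16094992))) (c (l 16157472) (b (l 16281304) (l 16197288))))) (b (a (l 16308800) (l 16334248)) (a (b (l 16257008) (l 16188576)) (c (a (l 16263736) (l 16214592)) (l 16305784))))) (a (c (b (c (l 16383656) (a (l 16369128) (l 16416552))) (l 16325688)) (b (c (b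 (l 16440216) (l 16416464)) (l 16436552)) (c (b (l 16324384) (l 16364992)) (b (l 16406424) (l 16273160))))) (c (l 16354672) (b (c (a (l 16473392) (l 16515312)) (a (l 16451304) (l 16399776))) (c (l 16486504) (b (l 16431360) (l 16487584)))))))), by decide +kernel⟩

def k2_pp_022_a : ∃ t, chk3 f_pp_022_a t 32 14 1 = true :=
  ⟨(b (c (a (b (l 15962536) (b (a (c (c (b (l 15939504) (l 15938936)) (l 15913192)) (l 15905088)) (b (l 15937304) (c (c (l 15942672) (l 15937288)) (c (l 15931904) (l 15905552))))) (c (c (a (l 15949136) (l 15950152)) (l 15923240)) (c (l 15938864) (l 15933544))))) (b (l 15973176) (a (c (c (c (b (l 15950800) (l 15953168)) (b (l 15927176) (a (l 15950032) (l 15951072)))) (a (b (l 15921760) (l 15946056)) (b (l 15924488) (l 15926240)))) (c (b (b (l 15940680) (l 15915744)) (l 15920512)) (l 15913960))) (b (b (l 15949280) (b (l 15945624) (c (c (a (c (l 15972488) (l 15948880)) (l 15952888)) (l 15946392)) (l 15917560)))) (c (a (l 15930224) (l 15952792)) (l 15920968)))))) (b (l 15947320) (c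 (c (a (a (l 15922368) (b (l 15922872) (l 15928992))) (b (l 15931392) (l 15932912))) (a (a (l 15916968) (b (l 15917520) (l 15923896))) (l 15927232))) (a (c (a (l 15890656) (l 15915288)) (a (a (l 15905336) (l 15907032)) (l 15910096))) (c (b (l 15920912) (l 15923048)) (l 15916920)))))) (c (a (c (c (b (l 15948336) (l 15977256)) (b (l 15943128) (l 15993216))) (c (b (l 15958888) (l 15988208)) (a (l 15970960) (a (l 15966600) (l 15964144))))) (c (a (c (b (l 15944576) (l 15965264)) (a (l 15971576) (b (l 15939248) (l 15959008)))) (c (b (l 15943752) (l 15961496)) (l 15969424))) (a (c (a (l 15966840) (l 15965576)) (l 15962088)) (c (l 15965416) (l 15961616))))) (c (a (a (c (l 15965856) (l 15960792)) (c (l 15939816) (l 15956608))) (c (a (l 15958232) (l 15958200)) (l 15955208))) (a (c (a (l 15956072) (l 15953008)) (a (c (l 15952800) (l 15950736)) (l 15949208))) (c (a (l 15951480) (l 15951320)) (l 15947048)))))), by decide +kernel⟩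

def k3_pp_022_a : ∃ t, chk3 f_pp_022_a t 32 15 1 = true :=
  ⟨(c (c (a (b (b (c (l 16030352) (l 16025568)) (a (l 16074280) (l 16060336))) (c (b (a (l 16128856) (l 16116104)) (c (a (l 16193496) (b (l 16157400) (l 16178328))) (a (l 16194416) (l 16174080)))) (b (l 16118632) (l 16183120)))) (b (a (b (c (l 16013536) (a (l 16009736) (l 16007360))) (c (l 16055152) (l 16051248))) (c (b (l 16012696) (c (l 16051072) (l 16053160))) (l 16030608))) (c (a (b (c (l 16100128) (l 16103680)) (c (l 16137344) (a (l 16156632) (l 16140392)))) (b (c (b (l 16076592) (l 16089272)) (l 16092664)) (c (l 16111720) (l 16125544)))) (a (b (l 16102216) (a (l 16160544) (l 16131320))) (b (l 16098088) (c (l 16136040) (l 16147216))))))) (a (b (a (b (l 16025504) (l 16065320)) (c (l 16034088) (b (l 16009272) (l 16049392)))) (c (b (l 16114480) (l 16179080)) (a (l 16150568) (b (l 16104496) (l 16167128))))) (b (a (c (b (l 16005720) (l 16048376)) (l 16024848)) (c (l 16028496) (l 16026856))) (c (a (b (l 16100136) (l 16156888)) (l 16124344))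 (a (l 16128152) (l 16125168)))))) (a (c (b (a (c (l 16038128) (l 16033608)) (c (b (l 16005432) (l 16046152)) (b (l 16002440) (l 16044024)))) (a (b (l 16110400) (l 16178920)) (c (b (l 16101952) (l 16165336)) (l 16112136)))) (b (a (c (l 16029832) (a (l 16029248) (l 16023928))) (c (l 16022424) (l 16020696))) (a (c (b (l 16105448) (l 16174896)) (a (b (l 16104728) (l 16175992)) (l 16136968))) (c (l 16134560) (l 16135264))))) (c (b (c (a (l 16023048) (l 16026120)) (l 16024888)) (c (b (l 16099544) (l 16156808)) (l 16130792))) (b (c (b (l 15999784) (l 16046928)) (l 16020272)) (c (b (l 16102080) (l 16162416)) (l 16130336)))))), by decide +kernel⟩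

def k4_pp_022_a : ∃ t, chk3 f_pp_022_a t 33 14 1 = true :=
  ⟨(c (b (b (c (l 15973888) (l 15985168)) (b (b (c (l 15950760) (l 15961720)) (a (a (c (l 15934880) (l 15924536)) (l 15956680)) (l 15952832))) (c (a (c (c (a (l 15959208) (l 15963600)) (l 15937976)) (a (l 15952912) (l 15936432))) (c (a (b (l 15950616) (l 15953776)) (l 15991960)) (l 15978048))) (a (a (c (l 15926968) (l 15943016)) (l 15929072)) (c (l 15973288) (l 15968520)))))) (c (a (a (b (c (l 15945016) (l 15940592)) (a (l 15961544) (l 15965896))) (c (b (l 15952112) (l 15976008)) (b (l 15947952) (l 15994008)))) (c (b (a (l 15966032) (l 15980400)) (c (a (l 15984072) (l 15984816)) (l 16011512))) (b (l 15991416) (l 16013560)))) (a (c (a (b (l 15936352) (l 15980024)) (l 15978184)) (b (l 15958120) (l 15983304))) (c (l 15999080) (l 15996048))))) (b (b (c (l 15975480) (l 15965784)) (c (a (c (l 15942168) (b (l 15938016) (l 15935528))) (c (a (l 15954752) (l 15971560)) (l 15958936))) (a (l 15929552) (l 15951608)))) (c (a (c (l 15968512) (a (l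 15959576) (l 15968256))) (c (a (l 15985312) (l 16000184)) (l 15988320))) (a (l 15958016) (l 15981248))))), by decide +kernel⟩

def k5_pp_022_a : ∃ t, chk3 f_pp_022_a t 33 15 1 = true :=
  ⟨(c (c (b (a (c (c (b (l 15996456) (a (l 16041752) (l 16013784))) (b (l 16021216) (a (l 16052904) (l 16044720)))) (a (l 16035296) (b (l 16024584) (l 16056760)))) (c (b (c (a (l 15993608) (l 16011504)) (l 16001816)) (c (l 16023248) (l 16036688))) (b (l 16034280) (c (l 16048280) (l 16056872))))) (a (a (c (b (l 16072272) (l 16100872)) (b (l 16092456) (c (l 16120784) (l 16131440)))) (c (b (l 16060400) (l 16084520)) (b (c (l 16079144) (l 16091696)) (c (l 16103640) (l 16118496))))) (c (b (a (l 16048832) (l 16041720)) (a (l 16073024) (l 16066728))) (b (a (l 16075544) (l 16067960)) (a (l 16098216) (l 16087592)))))) (b (a (c (a (l 16033864) (l 16041080)) (l 16037120)) (c (b (l 16038208) (l 16067320)) (l 16053296))) (c (a (b (l 16098528) (a (l 16144128) (l 16132704))) (b (l 16092472) (a (l 16125072) (l 16114568)))) (a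 (l 16124992) (b (l 16106352) (l 16139968)))))) (c (b (a (c (l 16037080) (l 16035976)) (c (l 16010304) (l 16049032))) (a (c (l 16128328) (b (l 16104048) (l 16155576))) (c (b (l 16107384) (l 16150424)) (l 16126808)))) (b (a (l 16030416) (l 16042552)) (a (l 16126000) (l 16121088))))), by decide +kernel⟩

def k6_pp_022_a : ∃ t, chk3 f_pp_022_a t 17 14 2 = true :=
  ⟨(a (c (c (b (b (a (l 16030128) (l 16031920)) (a (b (l 15995128) (a (l 15988984) (c (l 15999904) (l 16007048)))) (b (l 16036944) (a (c (l 16004488) (l 16017728)) (l 16017232))))) (c (a (b (a (b (l 15990320) (l 15987504)) (l 15992680)) (l 15987880)) (b (l 16000640) (l 15993776))) (a (b (a (l 15995848) (l 16001848)) (l 15998632)) (b (l 16033376) (l 16004072))))) (b (b (l 16044808) (b (l 16032064) (a (l 16016856) (a (l 16024552) (a (l 16036408) (l 16059152)))))) (a (b (c (l 16024480) (l 16024944)) (c (l 16027896) (l 16037008))) (a (b (b (l 16024952) (l 16041312)) (l 16040272)) (b (l 16051432) (l 16044800)))))) (b (b (l 16038368) (b (l 16027416)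 (a (c (l 16012376) (a (l 15997736) (l 16017976))) (c (a (l 16042760) (l 16063320)) (l 16048784))))) (a (c (l 16030264) (a (l 16019320) (l 16035200))) (c (a (c (l 16052392) (l 16054200)) (c (b (l 16066352) (l 16061296)) (l 16067552))) (l 16059520))))) (c (b (a (b (c (l 16071200) (l 16087344)) (a (b (l 16058064) (c (l 16045600) (a (l 16065552) (l 16070400)))) (l 16066512))) (b (l 16098544) (l 16085016))) (a (c (b (a (l 16017688) (l 16050552)) (l 16037536)) (b (a (c (l 16053936) (l 16066128)) (c (l 16062680) (l 16072904))) (a (l 16048904) (l 16055640)))) (c (a (b (c (l 16041464) (l 16046696)) (l 16057504)) (b (c (a (l 16056176) (l 16066544)) (l 16064416)) (c (l 16073816) (l 16076016)))) (b (b (l 16089456) (l 16082008)) (l 16073936))))) (b (b (a (l 16095488) (l 16122512)) (a (a (l 16078912) (l 16090600)) (l 16092664))) (a (c (b (a (l 16075712) (l 16088168)) (l 16071024)) (b (l 16092248) (l 16085768))) (c (b (a (l 16098256) (l 16108840)) (l 16085896)) (b (b (l 16125128) (l 16116096)) (l 16103216))))))),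 by decide +kernel⟩

def k7_pp_022_a : ∃ t, chk3 f_pp_022_a t 17 14 3 = true :=
  ⟨(a (b (b (l 16025408) (a (c (l 15999464) (l 15990312)) (c (l 16040400) (l 16031968)))) (c (a (l 16020856) (l 16053416)) (a (l 16011968) (l 16045128)))) (b (a (b (l 16084048) (c (l 16081968) (l 16074272))) (l 16121760)) (c (a (b (l 16088248) (l 16090168)) (c (b (l 16127368) (l 16116064)) (l 16124960))) (a (l 16081392) (l 16078016))))), by decide +kernel⟩

def k8_pp_022_a : ∃ t, chk3 f_pp_022_a t 17 15 2 = true :=
  ⟨(a (c (b (a (c (b (l 15994968) (l 16001800)) (b (c (l 16012856) (l 16043928)) (l 16045992))) (c (b (l 15999176) (l 16027520)) (b (l 16041032) (l 16043456)))) (a (c (b (l 16038856) (a (l 16063576) (l 16063432))) (b (l 16058440) (l 16079968))) (b (c (l 16043632) (l 16057936)) (c (a (l 16066960) (l 16074432)) (l 16080456))))) (b (a (c (b (c (l 16050192) (l 16058344)) (l 16067712)) (a (l 16066168) (l 16051672))) (c (c (a (l 16057512) (l 16057680)) (b (l 16066032) (l 16070632))) (b (l 16071712) (l 16080616))))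 (a (c (b (a (l 16085560) (l 16080528)) (l 16101464)) (b (c (l 16099456) (l 16105440)) (a (l 16129032) (l 16119208)))) (c (b (a (l 16072896) (l 16069704)) (a (l 16091248) (l 16089488))) (b (l 16090104) (l 16105960)))))) (c (b (a (c (b (l 16037984) (l 16045168)) (a (c (l 16021976) (l 16049864)) (b (l 16051552) (l 16056120)))) (c (a (c (l 16061552) (l 16063224)) (a (l 16033960) (l 16085880))) (b (l 16069928) (l 16076432)))) (a (c (b (l 16063704) (l 16092496)) (b (a (l 16062776) (l 16072256)) (a (l 16089832) (l 16100432)))) (c (a (c (l 16099632) (l 16100264)) (c (l 16114856) (l 16113848))) (l 16104608)))) (b (a (c (b (l 16064320) (l 16062488)) (b (l 16081696) (l 16077464))) (c (b (l 16077304) (l 16077144)) (b (l 16088256) (l 16082608)))) (a (b (c (l 16072672) (l 16081016)) (c (l 16095584) (l 16096744))) (b (l 16090424) (l 16110848)))))), by decide +kernel⟩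

def k9_pp_022_a : ∃ t, chk3 f_pp_022_a t 17 15 3 = true :=
  ⟨(a (c (b (a (l 16064912) (c (l 16078336) (l 16078544))) (a (c (b (l 16109680) (l 16137448)) (l 16123224)) (c (b (l 16102768) (l 16055152)) (b (l 16108224) (l 16128280))))) (b (a (l 16056584) (l 16072560)) (a (l 16117568) (l 16117072)))) (c (b (a (c (b (l 16091080) (l 16092288)) (l 16093928)) (c (b (l 16103472) (l 16094880)) (b (l 16112968) (l 16105792)))) (a (b (c (l 16093136) (l 16105688)) (c (l 16102936) (a (l 16116272) (l 16109080)))) (b (c (l 16092768) (l 16101744)) (l 16109536)))) (b (a (l 16090512) (c (l 16111856) (l 16108680))) (a (c (b (l 16107488) (l 16122712)) (l 16112984)) (b (c (l 16112632) (l 16111656)) (c (a (l 16113728) (l 16111752)) (a (l 16118352) (l 16117704)))))))), by decide +kernel⟩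

def k10_pp_022_a : ∃ t, chk3 f_pp_022_a t 9 14 1 = true :=
  ⟨(a (b (c (a (c (b (l 16137248) (a (l 16115448) (l 16156072))) (b (a (l 16149600) (l 16172952)) (c (l 16151104) (l 16120944)))) (b (l 16190600) (l 16183880))) (a (c (b (l 16180960) (a (l 16159584) (l 16194472))) (l 16179512)) (c (a (b (l 16226616) (l 16229200)) (l 16209768)) (a (l 16235464) (b (l 16281424) (l 16288200)))))) (c (a (c (b (a (b (c (l 16118272) (l 16123864)) (l 16118072)) (b (b (l 16171752) (l 16177288)) (l 16175984))) (a (c (l 16112592) (l 16113296)) (l 16172224))) (b (a (c (l 16131840) (b (l 16151536) (l 16140688))) (b (l 16117784) (l 16178304))) (a (c (l 16117120) (l 16126776)) (l 16170128)))) (b (c (a (b (l 16238424) (l 16246104)) (b (l 16307008) (l 16318024))) (a (b (l 16234992) (l 16241344)) (l 16264864))) (c (a (l 16238648) (l 16307312)) (l 16247056)))) (a (c (a (b (c (b (l 16166984) (l 16158104)) (l 16169848)) (c (l 16139808) (l 16152712))) (b (c (l 16132728) (l 16144768)) (c (l 16174152) (l 16184712)))) (a (b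 (l 16167712) (l 16154680)) (b (l 16169168) (l 16193576)))) (c (b (a (b (l 16179992) (l 16244336)) (l 16303432)) (l 16224088)) (b (a (c (b (l 16256832) (l 16254848)) (l 16261864)) (b (l 16306752) (l 16229272))) (a (c (l 16236048) (l 16243072)) (l 16298168))))))) (a (b (c (l 16365984) (c (l 16362472) (a (l 16230672) (l 16395544)))) (b (b (c (l 16408360) (l 16404296)) (l 1)) (l 1))) (l 1))), by decide +kernel⟩

def k11_pp_022_a : ∃ t, chk3 f_pp_022_a t 9 15 1 = true :=
  ⟨(a (b (a (c (c (a (c (l 16118128) (l 16115456)) (c (l 16173936) (l 16170776))) (a (c (l 16114248) (l 16115464)) (l 16166320))) (c (a (c (l 16120824) (b (l 16135864) (l 16120976))) (c (l 16163368) (l 16165808))) (a (c (b (l 16142672) (l 16130416)) (l 16139248)) (c (b (l 16173824) (l 16162560)) (b (l 16181192) (l 16166784)))))) (a (c (c (l 16188392) (l 16224944)) (c (l 16219576) (c (l 16217456) (b (l 16222520) (l 16212216))))) (l 1))) (a (a (c (c (c (l 16142880) (l 16139400)) (l 16134176)) (c (b (l 16121688) (l 16135288)) (b (c (l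 16124168) (l 16129816)) (c (l 16131352) (l 16132864))))) (b (c (c (l 16180200) (l 16173920)) (c (l 16167640) (l 16164336))) (l 1))) (l 1))) (l 1)), by decide +kernel⟩

def k12_pp_022_a : ∃ t, chk3 f_pp_022_a t 5 1 1 = true :=
  ⟨(a (b (a (a (b (c (b (a (l 16443152) (l 16402328)) (l 16273976)) (c (a (l 16407720) (b (l 16380800) (l 16340200))) (a (l 16397680) (l 16296576)))) (c (b (l 16373704) (l 16402504)) (b (c (a (l 16403000) (l 16359080)) (a (l 16393816) (l 16281224))) (c (a (l 16424352) (l 16368608)) (a (l 16410736) (b (l 16335256) (l 16366312))))))) (c (b (l 16124904) (l 16214536)) (b (c (l 16087432) (a (l 16232720) (l 16082968))) (b (c (l 16287424) (l 346850861719)) (l 16139472))))) (b (l 1) (l 1))) (b (a (a (c (l 16374992) (b (a (c (l 16451992) (l 16425016)) (l 1)) (l 1))) (l 1)) (l 1)) (l 1))) (l 1)), by decide +kernel⟩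

def k13_pp_022_a : ∃ t, chk3 f_pp_022_a t 3 1 1 = true :=
  ⟨(l 1), by decide +kernel⟩

theorem s14_pp_022_a : ∃ t, chk3 f_pp_022_a t 9 7 1 = true := ex3_b k10_pp_022_a k11_pp_022_a

theorem s15_pp_022_a : ∃ t, chk3 f_pp_022_a t 17 15 1 = true := ex3_c k8_pp_022_a k9_pp_022_a

theorem s16_pp_022_a : ∃ t, chk3 f_pp_022_a t 17 14 1 = true := ex3_c k6_pp_022_a k7_pp_022_a

theorem s17_pp_022_a : ∃ t, chk3 f_pp_022_a t 17 7 1 = true := ex3_b s16_pp_022_a s15_pp_022_a

theorem s18_pp_022_a : ∃ t, chk3 f_pp_022_a t 33 7 1 = true := ex3_b k4_pp_022_a k5_pp_022_a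

theorem s19_pp_022_a : ∃ t, chk3 f_pp_022_a t 32 7 1 = true := ex3_b k2_pp_022_a k3_pp_022_a

theorem s20_pp_022_a : ∃ t, chk3 f_pp_022_a t 16 7 1 = true := ex3_a s19_pp_022_a s18_pp_022_a

theorem s21_pp_022_a : ∃ t, chk3 f_pp_022_a t 8 7 1 = true := ex3_a s20_pp_022_a s17_pp_022_a

theorem s22_pp_022_a : ∃ t, chk3 f_pp_022_a t 4 7 1 = true := ex3_a s21_pp_022_a s14_pp_022_a

theorem s23_pp_022_a : ∃ t, chk3 f_pp_022_a t 4 3 1 = true := ex3_b k1_pp_022_a s22_pp_022_a

theorem s24_pp_022_a : ∃ t, chk3 f_pp_022_a t 4 1 1 = true := ex3_b k0_pp_022_a s23_pp_022_a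

theorem s25_pp_022_a : ∃ t, chk3 f_pp_022_a t 2 1 1 = true := ex3_a s24_pp_022_a k12_pp_022_a

theorem s26_pp_022_a : ∃ t, chk3 f_pp_022_a t 1 1 1 = true := ex3_a s25_pp_022_a k13_pp_022_a

theorem c_pp_022_a : CertFX 0 536870912 0 420477299 1046898278 26843546 false true true .pp 0 2 2
    ndF0q0 ndF1q2a pcF2 Cut.none Ext.none :=
  certFX2 (fam := false) (s1 := true) (s2 := true) (a := 0) (b := 2) (c := 2) (cn := .pp) (n1 := ndF0q0) (n2 := ndF1q2a) (pc := pcF2) (cut := Cut.none) (xt := Ext.none) (P1 := 0) (W1 := 536870912) (P2 := 0) (W2 := 420477299) (P3 := 1046898278) (W3 := 26843546)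
    rfl (fun _ => rfl) s26_pp_022_a

noncomputable def f_pp_022_b : ℕ → ℕ → ℕ → ℕ → Bool := onCell 0 536870912 1073741824 536870912 1046898278 26843546
    (rowFX 1 false true true .pp 0 2 2 (qsf 0 536870912 1239849684 370763052 2) ndF0q0 ndF1q2b pcF2 Cut.none Ext.none)

def k0_pp_022_b : ∃ t, chk3 f_pp_022_b t 2 4 1 = true :=
  ⟨(a (a (b (l 1) (b (a (l 1) (a (l 1) (b (l 1) (c (l 200285108615) (l 16335696))))) (a (a (l 1) (c (l 191158186583) (l 216391191367))) (c (a (c (l 16191488) (l 16204104)) (l 83247478903)) (l 16243040))))) (b (a (a (l 1) (b (l 1) (l 165925661303))) (b (c (l 291016578151) (l 204580352487)) (b (l 224981720423) (l 16419112)))) (a (b (c (b (l 258267370199) (l 290479667223)) (l 266320377399)) (a (c (l 16357472) (l 16353184)) (l 16114480))) (b (b (l 16403816) (l 16145976)) (l 15868288))))) (b (b (a (a (a (l 207801945639) (l 221223346663)) (c (l 16286424) (l 16276272))) (a (c (l 16062192) (l 16045016)) (c (l 15894928) (l 15872144)))) (a (a (c (l 16318512) (l 16289440)) (l 16082296))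 (a (l 15868496) (l 15645352)))) (a (b (c (a (l 16119000) (l 15905536)) (l 15762952)) (a (l 15788080) (l 15588336))) (b (a (l 15696512) (l 15546960)) (a (l 15406056) (l 15269848)))))), by decide +kernel⟩

def k1_pp_022_b : ∃ t, chk3 f_pp_022_b t 2 5 1 = true :=
  ⟨(b (a (b (a (b (a (c (a (l 16412728) (c (l 16437696) (l 16357656))) (a (c (l 16358096) (l 233571388439)) (c (l 16293448) (l 16389096)))) (c (a (c (l 16324840) (l 16297704)) (l 16090384)) (l 16142384))) (a (c (a (l 16223848) (l 16218680)) (a (c (l 16208456) (l 16119416)) (l 16216288))) (c (a (l 16172112) (l 16270224)) (l 16303568)))) (b (a (c (l 15943640) (l 16007400)) (l 15758048)) (a (a (l 16073344) (l 16057568)) (l 15873648)))) (a (a (c (a (l 15667704) (b (l 15996352) (l 15687360))) (a (c (l 15661448) (b (l 15933592) (l 15598760))) (c (l 15706856) (l 15877248)))) (c (b (b (l 16008248) (l 15932408)) (l 15659168)) (b (l 16195464) (l 15874736)))) (a (a (l 15970520) (l 16309360)) (l 16248472)))) (b (b (a (l 15449360) (a (l 15189056) (l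 15063280))) (a (l 15579336) (l 15271928))) (a (b (l 15933016) (l 16267776)) (a (l 15878336) (l 15772208))))) (a (b (a (a (c (a (l 15124064) (l 15226632)) (a (l 14852656) (l 15230584))) (c (a (l 15362448) (l 15500240)) (l 15427664))) (a (l 15567712) (l 16018104))) (a (c (a (c (l 14869288) (l 14858784)) (l 15128952)) (a (a (l 14774976) (l 14914544)) (l 15131520))) (a (l 15428480) (l 15779224)))) (b (a (l 16298584) (a (l 16539448) (l 16449688))) (a (l 16204024) (l 16586200))))), by decide +kernel⟩

def k2_pp_022_b : ∃ t, chk3 f_pp_022_b t 3 2 1 = true :=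
  ⟨(a (c (b (b (a (l 15671224) (l 15809304)) (b (l 15543640) (l 15267544))) (b (b (b (l 15063112) (l 15214240)) (l 15769432)) (b (l 16444128) (l 16776752)))) (b (b (a (b (l 15868240) (l 15683568)) (b (l 15887872) (l 15689416))) (b (a (l 15514496) (l 15508824)) (l 15123472))) (b (b (b (l 15018592) (l 15173648)) (l 15575488)) (b (b (l 16269584) (l 16596472)) (l 16776744))))) (b (b (a (c (l 15824328) (b (l 15911896) (l 15696600))) (c (l 15842288) (b (l 15940576) (l 15705192)))) (b (c (l 15529944) (a (l 15501816) (l 15493416))) (a (l 15232168) (l 2)))) (b (b (b (c (l 15037296) (l 14992104)) (l 2)) (l 2)) (l 2)))), by decide +kernel⟩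

def k3_pp_022_b : ∃ t, chk3 f_pp_022_b t 1 3 1 = true :=
  ⟨(a (b (a (a (c (b (a (l 14867920) (l 15149528)) (a (l 14867920) (l 15149528))) (a (b (l 14854024) (l 14854024)) (l 15131104))) (c (b (l 15648192) (l 15648192)) (l 15360680))) (a (b (l 16203752) (l 16203752)) (b (l 16669896) (l 16669896)))) (a (a (b (c (l 14933584) (l 14842280)) (c (l 15017472) (l 15010056))) (b (l 15372992) (l 15519792))) (a (b (l 16203752) (l 2)) (l 2)))) (a (a (b (l 16777216) (l 2)) (l 2)) (l 2))), by decide +kernel⟩

theorem s4_pp_022_b : ∃ t, chk3 f_pp_022_b t 2 2 1 = true := ex3_b k0_pp_022_b k1_pp_022_b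

theorem s5_pp_022_b : ∃ t, chk3 f_pp_022_b t 1 2 1 = true := ex3_a s4_pp_022_b k2_pp_022_b

theorem s6_pp_022_b : ∃ t, chk3 f_pp_022_b t 1 1 1 = true := ex3_b s5_pp_022_b k3_pp_022_b

theorem c_pp_022_b : CertFX 0 536870912 1239849684 370763052 1046898278 26843546 false true true .pp 0 2 2
    ndF0q0 ndF1q2b pcF2 Cut.none Ext.none :=
  certFX1 (fam := false) (s1 := true) (s2 := true) (a := 0) (b := 2) (c := 2) (cn := .pp) (n1 := ndF0q0) (n2 := ndF1q2b) (pc := pcF2) (cut := Cut.none) (xt := Ext.none) (P1 := 0) (W1 := 536870912) (P2 := 1239849684) (W2 := 370763052) (P3 := 1046898278) (W3 := 26843546)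
    rfl (fun _ => rfl) s6_pp_022_b

noncomputable def f_pp_023 : ℕ → ℕ → ℕ → ℕ → Bool := onCell 0 536870912 1073741824 536870912 1046898278 26843546
    (rowFX 1 false true true .up 0 2 3 (qsf 0 536870912 1610612736 469762048 2) ndF0q0 ndF1q3 pcF2 Cut.none Ext.none)

def k0_pp_023 : ∃ t, chk3 f_pp_023 t 1 1 1 = true :=
  ⟨(b (b (a (l 1) (b (a (l 1) (a (c (l 15824328) (l 286720162855)) (c (l 15842288) (b (l 15940576) (l 15705192))))) (a (a (l 1) (b (l 1) (l 15243472))) (a (b (l 186861735815) (l 15232168)) (c (l 15377800) (b (l 15493416) (l 15198592))))))) (a (b (l 1) (a (l 1) (b (l 1) (a (l 1) (l 16565232))))) (b (b (a (a (l 1) (b (l 15035744) (l 15189272))) (b (c (l 15037296) (l 14992104)) (a (l 15177320) (l 15162904)))) (a (a (l 15759504) (l 15753320)) (a (l 15745600) (l 15673344)))) (b (a (a (b (l 16277568) (l 16599312)) (l 16417832)) (a (l 16431008) (l 16328296))) (a (c (l 16776752) (l 16776744)) (c (l 16776744) (l 16776736))))))) (a (b (a (a (l 1) (c (l 259876314487) (l 15465536))) (a (l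 293700293063) (b (l 16669896) (l 16669896)))) (a (a (b (c (l 14933584) (l 14884224)) (c (l 15017472) (l 15010056))) (b (l 15372992) (l 15498824))) (a (b (l 16203752) (l 16203752)) (b (l 16669896) (l 16669896))))) (b (c (a (l 16777216) (l 16777208)) (a (l 16777216) (l 16777208))) (c (a (l 16777208) (l 16768664)) (a (l 16777208) (l 16810296)))))), by decide +kernel⟩

theorem c_pp_023 : CertFX 0 536870912 1610612736 469762048 1046898278 26843546 false true true .up 0 2 3
    ndF0q0 ndF1q3 pcF2 Cut.none Ext.none :=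
  certFX1 (fam := false) (s1 := true) (s2 := true) (a := 0) (b := 2) (c := 3) (cn := .up) (n1 := ndF0q0) (n2 := ndF1q3) (pc := pcF2) (cut := Cut.none) (xt := Ext.none) (P1 := 0) (W1 := 536870912) (P2 := 1610612736) (W2 := 469762048) (P3 := 1046898278) (W3 := 26843546)
    rfl (fun _ => rfl) k0_pp_023

noncomputable def f_pp_033 : ℕ → ℕ → ℕ → ℕ → Bool := onCell 0 536870912 1610612736 536870912 1046898278 26843546
    (rowFX 1 false true true .pnn 0 3 3 (qsf 0 536870912 1610612736 469762048 3) ndF0q0 ndF1q3 pcF3 Cut.none Ext.none)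

def k0_pp_033 : ∃ t, chk3 f_pp_033 t 1 1 1 = true :=
  ⟨(a (b (b (a (a (b (c (l 15017472) (l 14968112)) (c (l 14954552) (a (l 14854024) (l 15131104)))) (b (c (l 15648192) (l 15591368)) (c (l 15648192) (l 15591368)))) (b (a (l 16203752) (l 16669896)) (a (l 16203752) (l 16669888)))) (b (a (a (c (a (l 14867920) (l 15149528)) (c (l 15010984) (l 14998360))) (c (l 15648192) (l 15591368))) (c (a (l 16211096) (l 16666784)) (a (l 16196392) (l 16663400)))) (l 4))) (a (l 4) (b (l 4) (l 2)))) (b (a (b (b (l 16771864) (l 16767512)) (b (c (l 16759448) (l 16759360)) (l 4))) (b (b (l 16759240) (a (l 16742216) (l 2))) (l 2))) (l 2))), by decide +kernel⟩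

theorem c_pp_033 : CertFX 0 536870912 1610612736 469762048 1046898278 26843546 false true true .pnn 0 3 3
    ndF0q0 ndF1q3 pcF3 Cut.none Ext.none :=
  certFX1 (fam := false) (s1 := true) (s2 := true) (a := 0) (b := 3) (c := 3) (cn := .pnn) (n1 := ndF0q0) (n2 := ndF1q3) (pc := pcF3) (cut := Cut.none) (xt := Ext.none) (P1 := 0) (W1 := 536870912) (P2 := 1610612736) (W2 := 469762048) (P3 := 1046898278) (W3 := 26843546)
    rfl (fun _ => rfl) k0_pp_033

noncomputable def f_pp_101 : ℕ → ℕ → ℕ → ℕ → Bool := onCell 536870912 536870912 536870912 536870912 1046898278 26843546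
    (rowFX 0 false true true .npn 1 0 1 (qsf 536870912 536870912 536870912 536870912 0) ndF0q1 ndF1q1 pcF0 Cut.none Ext.none)

def k0_pp_101 : ∃ t, chk3 f_pp_101 t 1 1 1 = true :=
  ⟨(l 3), by decide +kernel⟩

theorem c_pp_101 : CertFX 536870912 536870912 536870912 536870912 1046898278 26843546 false true true .npn 1 0 1
    ndF0q1 ndF1q1 pcF0 Cut.none Ext.none :=
  certFX0 (fam := false) (s1 := true) (s2 := true) (a := 1) (b := 0) (c := 1) (cn := .npn) (n1 := ndF0q1) (n2 := ndF1q1) (pc := pcF0) (cut := Cut.none) (xt := Ext.none) (P1 := 536870912) (W1 := 536870912) (P2 := 536870912) (W2 := 536870912) (P3 := 1046898278) (W3 := 26843546)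
    rfl k0_pp_101

noncomputable def f_pp_102_a : ℕ → ℕ → ℕ → ℕ → Bool := onCell 0 536870912 0 420477299 1046898278 26843546
    (rowFX 2 false true true .npp 1 0 2 (qsf 536870912 536870912 0 420477299 0) ndF0q1 ndF1q2a pcF0 Cut.none Ext.none)

def k0_pp_102_a : ∃ t, chk3 f_pp_102_a t 1 1 1 = true :=
  ⟨(a (l 3) (l 3)), by decide +kernel⟩

theorem c_pp_102_a : CertFX 536870912 536870912 0 420477299 1046898278 26843546 false true true .npp 1 0 2
    ndF0q1 ndF1q2a pcF0 Cut.none Ext.none :=
  certFX2 (fam := false) (s1 := true) (s2 := true) (a := 1) (b := 0) (c := 2) (cn := .npp) (n1 := ndF0q1) (n2 := ndF1q2a) (pc := pcF0) (cut := Cut.none) (xt := Ext.none) (P1 := 536870912) (W1 := 536870912) (P2 := 0) (W2 := 420477299) (P3 := 1046898278) (W3 := 26843546)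
    rfl (fun _ => rfl) k0_pp_102_a

noncomputable def f_pp_102_b : ℕ → ℕ → ℕ → ℕ → Bool := onCell 536870912 536870912 0 536870912 1046898278 26843546
    (rowFX 1 false true true .npp 1 0 2 (qsf 536870912 536870912 1239849684 370763052 0) ndF0q1 ndF1q2b pcF0 Cut.none Ext.none)

def k0_pp_102_b : ∃ t, chk3 f_pp_102_b t 1 1 1 = true :=
  ⟨(l 3), by decide +kernel⟩

theorem c_pp_102_b : CertFX 536870912 536870912 1239849684 370763052 1046898278 26843546 false true true .npp 1 0 2
    ndF0q1 ndF1q2b pcF0 Cut.none Ext.none :=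
  certFX1 (fam := false) (s1 := true) (s2 := true) (a := 1) (b := 0) (c := 2) (cn := .npp) (n1 := ndF0q1) (n2 := ndF1q2b) (pc := pcF0) (cut := Cut.none) (xt := Ext.none) (P1 := 536870912) (W1 := 536870912) (P2 := 1239849684) (W2 := 370763052) (P3 := 1046898278) (W3 := 26843546)
    rfl (fun _ => rfl) k0_pp_102_b

noncomputable def f_pp_112_a : ℕ → ℕ → ℕ → ℕ → Bool := onCell 536870912 536870912 0 420477299 1046898278 26843546
    (rowFX 0 false true true .dn 1 1 2 (qsf 536870912 536870912 0 420477299 1) ndF0q1 ndF1q2a pcF1 Cut.none Ext.none)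

def k0_pp_112_a : ∃ t, chk3 f_pp_112_a t 1 1 1 = true :=
  ⟨(a (b (l 3) (l 3)) (l 1)), by decide +kernel⟩

theorem c_pp_112_a : CertFX 536870912 536870912 0 420477299 1046898278 26843546 false true true .dn 1 1 2
    ndF0q1 ndF1q2a pcF1 Cut.none Ext.none :=
  certFX0 (fam := false) (s1 := true) (s2 := true) (a := 1) (b := 1) (c := 2) (cn := .dn) (n1 := ndF0q1) (n2 := ndF1q2a) (pc := pcF1) (cut := Cut.none) (xt := Ext.none) (P1 := 536870912) (W1 := 536870912) (P2 := 0) (W2 := 420477299) (P3 := 1046898278) (W3 := 26843546)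
    rfl k0_pp_112_a

noncomputable def f_pp_112_b : ℕ → ℕ → ℕ → ℕ → Bool := onCell 536870912 536870912 536870912 536870912 1046898278 26843546
    (rowFX 1 false true true .dn 1 1 2 (qsf 536870912 536870912 1239849684 370763052 1) ndF0q1 ndF1q2b pcF1 Cut.none Ext.none)

def k0_pp_112_b : ∃ t, chk3 f_pp_112_b t 2 2 1 = true :=
  ⟨(b (l 3) (a (b (a (a (a (b (l 3) (b (l 3) (b (l 3) (c (c (c (l 16777216) (l 16777216)) (l 16777216)) (c (l 16777216) (l 16777216)))))) (l 3)) (l 3)) (l 3)) (a (c (c (b (a (a (b (c (l 16777216) (l 16777216)) (l 16777216)) (b (l 16777216) (l 16777216))) (a (l 16777216) (l 16777216))) (a (c (l 16777216) (l 16777216)) (c (l 16777216) (l 16777216)))) (b (a (a (b (l 16777216) (l 16777216)) (b (l 16777216) (l 16777216))) (l 45264928775)) (a (b (l 16777216) (l 16777216)) (l 16777216)))) (c (b (a (a (b (l 16777216) (l 16777216)) (b (l 16777216) (l 16777216))) (l 94120181767)) (a (l 16777216) (l 16777216))) (b (a (a (b (l 16777216) (l 16777216)) (l 159081562119)) (l 143512305511))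 (a (l 16777216) (l 16777216))))) (b (l 3) (c (a (c (l 16777216) (l 16777216)) (l 16777216)) (a (l 172503334839) (l 16777216)))))) (l 3))), by decide +kernel⟩

def k1_pp_112_b : ∃ t, chk3 f_pp_112_b t 2 3 1 = true :=
  ⟨(a (b (b (b (c (a (c (c (l 16777208) (l 16777208)) (l 16777208)) (c (a (l 16777216) (l 16777216)) (l 16777216))) (a (c (l 16777208) (l 16777208)) (c (l 16777216) (l 16777216)))) (c (c (a (l 16772904) (l 16774496)) (a (l 16772848) (l 16774456))) (a (c (l 16772792) (l 16772736)) (l 16774408)))) (c (b (c (l 16741752) (l 16762536)) (c (b (l 16750624) (l 16769584)) (b (l 16750280) (l 16769488)))) (a (b (l 16738992) (b (l 16746456) (c (l 16771208) (l 16771136)))) (b (l 16764472) (b (l 16752944) (l 16736112)))))) (a (b (b (c (l 16601840) (b (l 16669192) (l 16567120))) (c (l 16433264) (l 16298504))) (c (l 16188736) (l 16152472))) (b (b (c (l 16617264) (l 16550200)) (c (l 16421032) (b (l 16460200) (l 16361528)))) (a (c (l 16172392) (l 16156680)) (l 2))))) (a (b (b (c (b (l 16777216) (l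 16776184)) (b (l 253570842711) (l 16776160))) (c (b (l 16769840) (l 16775376)) (b (l 16769648) (b (l 16760400) (l 16763424))))) (b (b (c (l 16612408) (l 16608128)) (l 2)) (l 2))) (b (b (c (l 251960233575) (l 257328931063)) (b (l 103179856247) (l 2))) (l 2)))), by decide +kernel⟩

def k2_pp_112_b : ∃ t, chk3 f_pp_112_b t 3 1 1 = true :=
  ⟨(b (l 3) (b (b (l 3) (l 2)) (l 2))), by decide +kernel⟩

theorem s3_pp_112_b : ∃ t, chk3 f_pp_112_b t 2 1 1 = true := ex3_b k0_pp_112_b k1_pp_112_b

theorem s4_pp_112_b : ∃ t, chk3 f_pp_112_b t 1 1 1 = true := ex3_a s3_pp_112_b k2_pp_112_b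

theorem c_pp_112_b : CertFX 536870912 536870912 1239849684 370763052 1046898278 26843546 false true true .dn 1 1 2
    ndF0q1 ndF1q2b pcF1 Cut.none Ext.none :=
  certFX1 (fam := false) (s1 := true) (s2 := true) (a := 1) (b := 1) (c := 2) (cn := .dn) (n1 := ndF0q1) (n2 := ndF1q2b) (pc := pcF1) (cut := Cut.none) (xt := Ext.none) (P1 := 536870912) (W1 := 536870912) (P2 := 1239849684) (W2 := 370763052) (P3 := 1046898278) (W3 := 26843546)
    rfl (fun _ => rfl) s4_pp_112_b

noncomputable def f_pp_113 : ℕ → ℕ → ℕ → ℕ → Bool := onCell 536870912 536870912 1610612736 469762048 1046898278 26843546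
    (rowFX 2 false true true .nn 1 1 3 (qsf 536870912 536870912 1610612736 469762048 1) ndF0q1 ndF1q3 pcF1 Cut.none Ext.none)

def k0_pp_113 : ∃ t, chk3 f_pp_113 t 2 1 1 = true :=
  ⟨(b (a (l 3) (l 3)) (l 3)), by decide +kernel⟩

def k1_pp_113 : ∃ t, chk3 f_pp_113 t 3 2 1 = true :=
  ⟨(a (b (a (a (l 3) (b (c (l 262160772471) (l 213842390375)) (l 3))) (a (c (b (l 16773368) (l 228337893399)) (b (l 16773272) (l 160692158103))) (c (a (l 16767224) (b (l 16763480) (l 16759416))) (a (l 16745992) (b (l 16763128) (l 16758952)))))) (a (l 3) (a (b (l 3) (l 3)) (b (a (l 188609447703) (c (l 16755032) (l 16754456))) (a (l 3) (b (l 16752352) (l 3))))))) (a (c (b (a (b (l 16613944) (l 16609296)) (b (l 16314872) (l 16412048))) (a (b (l 16604040) (l 77476807431)) (b (l 16400096) (l 16390120)))) (b (a (a (l 16617800) (l 16555512)) (b (a (l 16457536) (l 16360912)) (l 16297704))) (a (b (l 16599536) (a (l 16648640) (l 16540072))) (b (l 16390304) (l 16359096))))) (a (b (a (b (l 16281680) (c (l 16270728) (l 16257576)))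 (c (l 16202272) (l 16187344))) (a (b (c (l 16255904) (l 16242360)) (l 16231928)) (c (b (l 16170424) (l 16147280)) (b (l 16154792) (l 16131456))))) (b (c (l 16101480) (b (l 16095560) (l 16073224))) (a (c (b (l 16098368) (l 15884016)) (b (l 16080752) (l 16055048))) (c (l 15914544) (b (l 16016352) (a (l 16001688) (l 15972120))))))))), by decide +kernel⟩

def k2_pp_113 : ∃ t, chk3 f_pp_113 t 6 3 1 = true :=
  ⟨(b (a (l 3) (l 3)) (a (l 2) (l 3))), by decide +kernel⟩

def k3_pp_113 : ∃ t, chk3 f_pp_113 t 7 6 1 = true :=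
  ⟨(a (a (b (b (a (l 229411210295) (l 16538040)) (a (l 3) (b (l 16533856) (l 16499936)))) (l 3)) (b (a (b (l 16430168) (l 16424400)) (c (l 16327544) (l 16315864))) (b (a (b (l 16393368) (l 16325392)) (b (l 16312928) (l 16287360))) (a (l 258938180871) (a (l 16184240) (l 16177120)))))) (a (b (a (c (l 16220584) (l 16206128)) (c (l 16120648) (l 16104752))) (a (b (l 16197936) (b (l 16173264) (l 16113632))) (c (b (l 16098968) (l 16012840)) (b (l 16083024) (l 16058272))))) (a (c (b (l 16023024) (a (l 16031168) (l 15993216))) (b (l 16027376) (l 15997696))) (c (b (l 15977776) (l 15944328)) (b (a (l 15975144) (l 15876496)) (a (l 15942616) (l 15887696))))))), by decide +kernel⟩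

def k4_pp_113 : ∃ t, chk3 f_pp_113 t 7 7 1 = true :=
  ⟨(a (b (a (l 3) (b (a (l 3) (c (l 264306539847) (l 242294728967))) (l 3))) (l 3)) (a (b (a (b (a (l 15991680) (l 15976320)) (a (b (l 15862960) (l 3)) (c (l 15854800) (l 15752720)))) (b (a (l 15963784) (c (l 15977560) (l 15941264))) (c (a (l 15835976) (l 15828296)) (l 15743080)))) (a (a (l 3) (b (b (l 3) (l 3)) (l 3))) (a (b (c (b (l 15736112) (l 393155306455)) (l 285243542567)) (l 3)) (b (c (b (l 15728704) (l 15670232)) (l 129014099463)) (b (c (a (l 404429528759) (l 375438555255)) (l 336783011335)) (l 3)))))) (b (a (c (b (a (l 15967688) (l 15950144)) (a (l 15826880) (l 15825416))) (b (l 15892672) (l 15771064))) (c (b (l 15915312) (a (l 15827904) (l 15834720))) (b (a (l 15913352) (l 15883984)) (a (l 15792272) (c (l 15808840) (l 15794128)))))) (a (b (c (a (c (l 15728440) (l 15669024)) (c (l 15715680) (l 15668184))) (a (l 15565768) (l 15584752))) (c (a (b (c (a (l 15678304) (l 15676296)) (l 15578576)) (c (b (l 203103076071) (a (l 405503477415)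 (l 204713694903))) (b (l 15541848) (l 277190959127)))) (c (b (l 15666840) (l 15664272)) (b (l 15583208) (l 15541456)))) (a (b (l 15415656) (l 305107944103)) (b (l 15444600) (l 15344176))))) (c (b (a (l 15690208) (l 15699152)) (a (b (l 15621248) (a (l 15601344) (l 15599296))) (l 15609720))) (b (a (l 15598696) (c (l 15635272) (l 15595928))) (a (c (b (l 15504648) (l 15430408)) (l 15364816)) (c (l 15477288) (a (l 15385632) (l 15399016)))))))))), by decide +kernel⟩

theorem s5_pp_113 : ∃ t, chk3 f_pp_113 t 7 3 1 = true := ex3_b k3_pp_113 k4_pp_113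

theorem s6_pp_113 : ∃ t, chk3 f_pp_113 t 3 3 1 = true := ex3_a k2_pp_113 s5_pp_113

theorem s7_pp_113 : ∃ t, chk3 f_pp_113 t 3 1 1 = true := ex3_b k1_pp_113 s6_pp_113

theorem s8_pp_113 : ∃ t, chk3 f_pp_113 t 1 1 1 = true := ex3_a k0_pp_113 s7_pp_113

theorem c_pp_113 : CertFX 536870912 536870912 1610612736 469762048 1046898278 26843546 false true true .nn 1 1 3
    ndF0q1 ndF1q3 pcF1 Cut.none Ext.none :=
  certFX2 (fam := false) (s1 := true) (s2 := true) (a := 1) (b := 1) (c := 3) (cn := .nn) (n1 := ndF0q1) (n2 := ndF1q3) (pc := pcF1) (cut := Cut.none) (xt := Ext.none) (P1 := 536870912) (W1 := 536870912) (P2 := 1610612736) (W2 := 469762048) (P3 := 1046898278) (W3 := 26843546)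
    rfl (fun _ => rfl) s8_pp_113

noncomputable def f_pp_123 : ℕ → ℕ → ℕ → ℕ → Bool := onCell 536870912 536870912 1073741824 536870912 1046898278 26843546
    (rowFX 1 false true true .npn 1 2 3 (qsf 536870912 536870912 1610612736 469762048 2) ndF0q1 ndF1q3 pcF2 Cut.none Ext.none)

def k0_pp_123 : ∃ t, chk3 f_pp_123 t 2 1 1 = true :=
  ⟨(b (b (a (b (c (a (l 15863392) (l 15845976)) (a (b (l 15974264) (l 15715312)) (b (l 16013408) (l 15727072)))) (a (c (l 15365000) (b (l 15483512) (l 15182344))) (c (l 15350096) (b (l 15471992) (l 15163424))))) (b (a (b (l 15920888) (l 15753776)) (b (l 16119072) (l 15769216))) (a (b (l 15475376) (l 15162280)) (b (l 15460264) (l 15137496))))) (b (a (a (b (b (l 14988440) (l 15145856)) (l 15599384)) (b (b (l 14966816) (l 15126000)) (l 15481664))) (b (b (a (l 14941864) (l 14913224)) (a (l 15103096) (l 15077408))) (a (l 15676560) (l 15685936)))) (b (a (c (l 16431824) (a (l 16383088) (l 16420712))) (a (l 16357936) (l 16273320))) (a (c (l 16776744) (l 16776728)) (a (l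 16770648) (l 16765936)))))) (b (a (c (b (l 16771928) (l 16767904)) (b (l 16771792) (l 16767568))) (b (a (l 16767800) (l 16742216)) (a (l 16742216) (l 2)))) (a (b (l 16759240) (a (l 16742216) (l 2))) (l 2)))), by decide +kernel⟩

def k1_pp_123 : ∃ t, chk3 f_pp_123 t 6 2 1 = true :=
  ⟨(b (b (a (b (l 16094424) (l 15787008)) (a (b (b (a (l 16332736) (a (l 16348432) (c (l 16359824) (b (l 16408120) (l 16292400))))) (l 16116920)) (l 15802744)) (b (b (c (b (l 16355304) (a (l 16292984) (l 16245488))) (b (c (l 16345136) (a (l 16374680) (l 16299496))) (c (l 16254376) (l 16244288)))) (c (a (l 16137240) (l 16114920)) (a (l 16119248) (l 16087696)))) (c (b (c (l 15935568) (l 15922512)) (c (a (l 15731872) (l 15748464)) (l 15727192))) (b (a (l 15905384) (l 15904960)) (a (l 15699008) (l 15712128))))))) (b (a (l 15443392) (a (l 15432496) (a (l 15426992) (c (b (l 15547936) (l 15362792)) (b (l 15515720) (l 15327120)))))) (a (l 15114264) (a (l 15091560) (l 15081672))))) (b (b (b (a (l 14885344) (a (l 14858192) (l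 2))) (a (l 15052728) (l 2))) (a (l 118746413639) (l 2))) (b (a (a (l 16289456) (l 2)) (l 2)) (l 2)))), by decide +kernel⟩

def k2_pp_123 : ∃ t, chk3 f_pp_123 t 7 2 1 = true :=
  ⟨(b (b (b (b (b (a (c (a (l 16152176) (c (l 16008336) (l 15935920))) (a (c (l 16108248) (b (l 16084608) (l 16066832))) (c (a (l 15918232) (l 15807336)) (c (l 15800520) (l 15696680))))) (b (a (a (a (c (l 15894880) (l 538579398167)) (l 2)) (l 2)) (l 2)) (l 2))) (a (c (a (c (l 16138944) (l 16106288)) (c (l 423689875175) (l 15984632))) (a (c (l 16070328) (l 16035432)) (c (l 15903152) (l 15823256)))) (l 2))) (a (c (a (c (l 16073376) (l 16036976)) (c (l 401678249319) (l 16003720))) (a (c (l 16001816) (l 15971568)) (c (l 303967442487) (l 15883944)))) (l 2))) (a (a (c (b (c (l 15966864) (l 15932936)) (c (l 15849048) (l 15819168))) (b (l 15888952) (l 15776904))) (a (b (c (l 380740209447) (l 15938200)) (l 2)) (l 2))) (l 2))) (a (a (b (b (c (l 15700008) (l 15640240)) (l 2)) (l 2)) (l 2)) (l 2))) (l 2)), by decide +kernel⟩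

def k3_pp_123 : ∃ t, chk3 f_pp_123 t 3 3 1 = true :=
  ⟨(l 2), by decide +kernel⟩

theorem s4_pp_123 : ∃ t, chk3 f_pp_123 t 3 2 1 = true := ex3_a k1_pp_123 k2_pp_123

theorem s5_pp_123 : ∃ t, chk3 f_pp_123 t 3 1 1 = true := ex3_b s4_pp_123 k3_pp_123

theorem s6_pp_123 : ∃ t, chk3 f_pp_123 t 1 1 1 = true := ex3_a k0_pp_123 s5_pp_123

theorem c_pp_123 : CertFX 536870912 536870912 1610612736 469762048 1046898278 26843546 false true true .npn 1 2 3
    ndF0q1 ndF1q3 pcF2 Cut.none Ext.none :=
  certFX1 (fam := false) (s1 := true) (s2 := true) (a := 1) (b := 2) (c := 3) (cn := .npn) (n1 := ndF0q1) (n2 := ndF1q3) (pc := pcF2) (cut := Cut.none) (xt := Ext.none) (P1 := 536870912) (W1 := 536870912) (P2 := 1610612736) (W2 := 469762048) (P3 := 1046898278) (W3 := 26843546)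
    rfl (fun _ => rfl) s6_pp_123

noncomputable def f_pp_133 : ℕ → ℕ → ℕ → ℕ → Bool := onCell 536870912 536870912 1610612736 469762048 1046898278 26843546
    (rowFX 0 false true true .dn 1 3 3 (qsf 536870912 536870912 1610612736 469762048 3) ndF0q1 ndF1q3 pcF3 Cut.none Ext.none)

def k0_pp_133 : ∃ t, chk3 f_pp_133 t 1 1 1 = true :=
  ⟨(l 1), by decide +kernel⟩

theorem c_pp_133 : CertFX 536870912 536870912 1610612736 469762048 1046898278 26843546 false true true .dn 1 3 3
    ndF0q1 ndF1q3 pcF3 Cut.none Ext.none :=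
  certFX0 (fam := false) (s1 := true) (s2 := true) (a := 1) (b := 3) (c := 3) (cn := .dn) (n1 := ndF0q1) (n2 := ndF1q3) (pc := pcF3) (cut := Cut.none) (xt := Ext.none) (P1 := 536870912) (W1 := 536870912) (P2 := 1610612736) (W2 := 469762048) (P3 := 1046898278) (W3 := 26843546)
    rfl k0_pp_133

noncomputable def f_pp_202_a : ℕ → ℕ → ℕ → ℕ → Bool := onCell 0 536870912 0 420477299 1046898278 26843546
    (rowFX 0 false true true .pp 2 0 2 (qsf 0 536870912 0 420477299 0) ndF0q2 ndF1q2a pcF0 Cut.none Ext.none)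

def k0_pp_202_a : ∃ t, chk3 f_pp_202_a t 1 1 1 = true :=
  ⟨(l 3), by decide +kernel⟩

theorem c_pp_202_a : CertFX 0 536870912 0 420477299 1046898278 26843546 false true true .pp 2 0 2
    ndF0q2 ndF1q2a pcF0 Cut.none Ext.none :=
  certFX0 (fam := false) (s1 := true) (s2 := true) (a := 2) (b := 0) (c := 2) (cn := .pp) (n1 := ndF0q2) (n2 := ndF1q2a) (pc := pcF0) (cut := Cut.none) (xt := Ext.none) (P1 := 0) (W1 := 536870912) (P2 := 0) (W2 := 420477299) (P3 := 1046898278) (W3 := 26843546)
    rfl k0_pp_202_a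

noncomputable def f_pp_202_b : ℕ → ℕ → ℕ → ℕ → Bool := onCell 0 536870912 1239849684 370763052 1046898278 26843546
    (rowFX 0 false true true .pp 2 0 2 (qsf 0 536870912 1239849684 370763052 0) ndF0q2 ndF1q2b pcF0 Cut.none Ext.none)

def k0_pp_202_b : ∃ t, chk3 f_pp_202_b t 1 1 1 = true :=
  ⟨(l 3), by decide +kernel⟩

theorem c_pp_202_b : CertFX 0 536870912 1239849684 370763052 1046898278 26843546 false true true .pp 2 0 2
    ndF0q2 ndF1q2b pcF0 Cut.none Ext.none :=
  certFX0 (fam := false) (s1 := true) (s2 := true) (a := 2) (b := 0) (c := 2) (cn := .pp) (n1 := ndF0q2) (n2 := ndF1q2b) (pc := pcF0) (cut := Cut.none) (xt := Ext.none) (P1 := 0) (W1 := 536870912) (P2 := 1239849684) (W2 := 370763052) (P3 := 1046898278) (W3 := 26843546)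
    rfl k0_pp_202_b

noncomputable def f_pp_203 : ℕ → ℕ → ℕ → ℕ → Bool := onCell 0 536870912 1610612736 469762048 1046898278 26843546
    (rowFX 0 false true true .up 2 0 3 (qsf 0 536870912 1610612736 469762048 0) ndF0q2 ndF1q3 pcF0 Cut.none Ext.none)

def k0_pp_203 : ∃ t, chk3 f_pp_203 t 1 1 1 = true :=
  ⟨(l 3), by decide +kernel⟩

theorem c_pp_203 : CertFX 0 536870912 1610612736 469762048 1046898278 26843546 false true true .up 2 0 3
    ndF0q2 ndF1q3 pcF0 Cut.none Ext.none :=
  certFX0 (fam := false) (s1 := true) (s2 := true) (a := 2) (b := 0) (c := 3) (cn := .up) (n1 := ndF0q2) (n2 := ndF1q3) (pc := pcF0) (cut := Cut.none) (xt := Ext.none) (P1 := 0) (W1 := 536870912) (P2 := 1610612736) (W2 := 469762048) (P3 := 1046898278) (W3 := 26843546)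
    rfl k0_pp_203

noncomputable def f_pp_213 : ℕ → ℕ → ℕ → ℕ → Bool := onCell 0 536870912 1610612736 469762048 1046898278 26843546
    (rowFX 0 false true true .pnn 2 1 3 (qsf 0 536870912 1610612736 469762048 1) ndF0q2 ndF1q3 pcF1 Cut.none Ext.none)

def k0_pp_213 : ∃ t, chk3 f_pp_213 t 1 1 1 = true :=
  ⟨(l 3), by decide +kernel⟩

theorem c_pp_213 : CertFX 0 536870912 1610612736 469762048 1046898278 26843546 false true true .pnn 2 1 3
    ndF0q2 ndF1q3 pcF1 Cut.none Ext.none :=
  certFX0 (fam := false) (s1 := true) (s2 := true) (a := 2) (b := 1) (c := 3) (cn := .pnn) (n1 := ndF0q2) (n2 := ndF1q3) (pc := pcF1) (cut := Cut.none) (xt := Ext.none) (P1 := 0) (W1 := 536870912) (P2 := 1610612736) (W2 := 469762048) (P3 := 1046898278) (W3 := 26843546)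
    rfl k0_pp_213

noncomputable def f_pm_001 : ℕ → ℕ → ℕ → ℕ → Bool := onCell 0 536870912 0 536870912 1046898278 26843546
    (rowFX 1 false true false .up 0 0 1 (qsf 0 536870912 536870912 536870912 0) ndF0q0 ndF1q1 pcF0 Cut.none Ext.none)

def k0_pm_001 : ∃ t, chk3 f_pm_001 t 1 1 1 = true :=
  ⟨(a (l 4) (b (l 4) (a (l 4) (b (l 4) (a (l 4) (b (a (l 4) (b (l 4) (c (l 16457936) (l 16451272)))) (c (a (b (l 162905814231) (l 16318712)) (b (l 16318712) (l 16122144))) (a (b (l 172569456359) (l 16306800)) (b (l 16306800) (l 16105128)))))))))), by decide +kernel⟩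

theorem c_pm_001 : CertFX 0 536870912 536870912 536870912 1046898278 26843546 false true false .up 0 0 1
    ndF0q0 ndF1q1 pcF0 Cut.none Ext.none :=
  certFX1 (fam := false) (s1 := true) (s2 := false) (a := 0) (b := 0) (c := 1) (cn := .up) (n1 := ndF0q0) (n2 := ndF1q1) (pc := pcF0) (cut := Cut.none) (xt := Ext.none) (P1 := 0) (W1 := 536870912) (P2 := 536870912) (W2 := 536870912) (P3 := 1046898278) (W3 := 26843546)
    rfl (fun _ => rfl) k0_pm_001

noncomputable def f_pm_011 : ℕ → ℕ → ℕ → ℕ → Bool := onCell 536870912 536870912 536870912 536870912 1046898278 26843546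
    (rowFX 2 false true false .pnn 0 1 1 (qsf 0 536870912 536870912 536870912 1) ndF0q0 ndF1q1 pcF1 Cut.none Ext.none)

def k0_pm_011 : ∃ t, chk3 f_pm_011 t 1 1 1 = true :=
  ⟨(a (b (l 4) (b (l 4) (b (l 4) (b (a (a (a (c (l 16218888) (l 16204384)) (c (l 38888268199) (l 16204384))) (l 4)) (l 4)) (a (c (a (c (l 16031456) (l 16021704)) (c (a (l 16031456) (l 16031456)) (l 16021704))) (a (a (l 16007080) (l 16007080)) (c (l 16011952) (l 16002208)))) (a (a (l 4) (l 4)) (l 4))))))) (l 4)), by decide +kernel⟩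

theorem c_pm_011 : CertFX 0 536870912 536870912 536870912 1046898278 26843546 false true false .pnn 0 1 1
    ndF0q0 ndF1q1 pcF1 Cut.none Ext.none :=
  certFX2 (fam := false) (s1 := true) (s2 := false) (a := 0) (b := 1) (c := 1) (cn := .pnn) (n1 := ndF0q0) (n2 := ndF1q1) (pc := pcF1) (cut := Cut.none) (xt := Ext.none) (P1 := 0) (W1 := 536870912) (P2 := 536870912) (W2 := 536870912) (P3 := 1046898278) (W3 := 26843546)
    rfl (fun _ => rfl) k0_pm_011

noncomputable def f_pm_012_a : ℕ → ℕ → ℕ → ℕ → Bool := onCell 536870912 536870912 0 420477299 1046898278 26843546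
    (rowFX 2 false true false .pnp 0 1 2 (qsf 0 536870912 0 420477299 1) ndF0q0 ndF1q2a pcF1 Cut.none Ext.none)

def k0_pm_012_a : ∃ t, chk3 f_pm_012_a t 2 2 1 = true :=
  ⟨(a (l 2) (b (a (a (a (l 2) (c (c (l 30702305271) (l 34997272567)) (c (l 16777216) (l 16777216)))) (c (c (b (l 16777216) (l 16777216)) (b (l 16777216) (l 16777216))) (c (b (l 16777216) (l 16777216)) (l 16777216)))) (c (a (c (b (l 16777216) (l 16777216)) (b (l 16777216) (l 16777216))) (c (l 16777216) (l 16777216))) (c (a (l 16777216) (l 16777216)) (a (l 16777216) (l 16777216))))) (a (c (c (a (b (l 16777208) (l 16777200)) (b (l 16777208) (l 16777200))) (a (c (l 16777208) (l 16777208)) (c (l 16777208) (l 16777208)))) (c (a (c (l 16777208) (l 16777208)) (c (l 16777208) (l 16777208))) (a (l 16777208) (l 16777208)))) (c (a (c (l 16777208) (l 16777208)) (b (c (l 16777208) (l 16777208)) (c (l 16777200) (l 16777200)))) (a (c (l 16777208) (l 16777208)) (c (b (l 16777208) (l 16777200)) (l 16777208))))))), by decide +kernel⟩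

def k1_pm_012_a : ∃ t, chk3 f_pm_012_a t 2 6 1 = true :=
  ⟨(a (a (l 2) (a (l 2) (b (c (c (l 16777192) (l 16777192)) (c (l 16777192) (l 16777192))) (a (b (l 2) (c (l 16777168) (l 16777168))) (c (b (c (l 16777176) (l 16777176)) (l 16777168)) (b (c (l 16777176) (l 16777176)) (l 16777168))))))) (a (c (b (a (c (b (l 16777192) (l 16777184)) (b (l 16777192) (l 16777184))) (c (b (l 16777192) (a (l 16777184) (l 16777184))) (b (l 16777192) (a (l 16777184) (l 16777184))))) (a (a (c (l 16777176) (l 16777168)) (l 16777176)) (c (l 16777176) (l 16777168)))) (b (a (c (b (l 16777192) (l 16777184)) (l 16777192)) (c (b (l 16777192) (a (l 16777184) (l 16777184))) (b (l 16777192) (l 16777184)))) (a (c (b (l 16777176) (l 16777168)) (b (l 16777176) (l 16777168))) (c (l 16777168) (l 16777168))))) (c (b (a (b (c (l 16777192) (l 16777192)) (l 16777184)) (c (l 16777192) (l 16777192))) (c (l 16777176) (a (l 16777168) (l 16777168)))) (b (a (b (a (l 16777192) (l 16777192)) (l 16777184)) (c (l 16777192) (l 16777192))) (c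 (l 16777168) (l 16777168)))))), by decide +kernel⟩

def k2_pm_012_a : ∃ t, chk3 f_pm_012_a t 2 7 1 = true :=
  ⟨(a (b (a (l 2) (a (a (l 2) (b (l 2) (c (l 16660464) (l 16657976)))) (c (b (c (l 16763776) (l 16763600)) (c (l 16682064) (l 16680816))) (b (c (l 16742456) (l 16742280)) (c (l 16679576) (l 16678328)))))) (b (a (l 2) (c (c (l 16510408) (a (l 16570656) (l 16570656))) (c (a (l 16567992) (l 16567992)) (a (l 16565328) (l 16565328))))) (c (a (c (l 16441672) (l 207868866471)) (c (l 16399728) (a (l 16437280) (l 16437280)))) (a (a (l 2) (c (l 16432896) (l 16428512))) (c (a (l 16432896) (l 16432896)) (a (l 16428512) (l 16428512))))))) (b (c (a (c (b (a (l 16763776) (l 16763776)) (a (l 16682064) (l 16682064))) (b (a (l 16763600) (l 16763600)) (a (l 16680816) (l 16680816)))) (c (b (a (l 16763776) (l 16763776)) (l 16661088)) (b (a (l 16763600) (l 16763600)) (l 16659848)))) (a (c (b (a (l 16742456) (l 16763424)) (a (l 16679576) (l 16679576))) (b (a (l 16763248) (l 16763248)) (a (l 16678328) (l 16678328))))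 (c (b (a (l 16763424) (l 16763424)) (l 16637632)) (b (a (l 16763248) (l 16763248)) (l 16657360))))) (c (a (c (b (a (l 16573320) (l 16573320)) (a (l 16441672) (l 16441672))) (b (a (l 16570656) (l 16570656)) (a (l 16437280) (l 16437280)))) (c (b (l 16573320) (a (l 16441672) (l 16441672))) (b (l 16570656) (a (l 16437280) (l 16437280))))) (a (c (b (a (l 16567992) (l 16567992)) (a (l 16432896) (l 16432896))) (b (a (l 16565328) (l 16565328)) (a (l 16428512) (l 16428512)))) (c (b (l 16526048) (a (l 16432896) (l 16432896))) (b (l 16523384) (a (l 16428512) (l 16428512)))))))), by decide +kernel⟩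

def k3_pm_012_a : ∃ t, chk3 f_pm_012_a t 6 2 1 = true :=
  ⟨(a (b (c (a (c (l 16777208) (l 16777208)) (c (l 16770296) (l 16770200))) (a (c (l 16777208) (l 16777208)) (l 16770064))) (c (a (b (l 16777208) (b (l 16777200) (a (l 16777200) (l 16777192)))) (b (l 16770864) (b (c (l 16771224) (l 16771144)) (l 16771392)))) (a (b (l 16777208) (c (l 16777200) (l 16777200))) (b (l 16770704) (c (l 16771152) (l 16771072)))))) (a (b (c (l 16757384) (l 16756872)) (c (b (c (l 16759232) (l 16758992)) (c (l 16760256) (l 16760032))) (b (l 16758640) (l 16759704)))) (b (a (c (l 16747768) (l 16747008)) (c (l 16748488) (l 16769264))) (c (a (b (b (l 16749848) (l 16751928)) (l 16758768)) (b (b (l 16749424) (l 16769000)) (l 16673160))) (a (b (l 16750432) (l 16758288)) (b (b (l 16770216) (l 16768784)) (l 16714032))))))), by decide +kernel⟩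

def k4_pm_012_a : ∃ t, chk3 f_pm_012_a t 6 6 1 = true :=
  ⟨(a (c (a (c (l 16777176) (l 16777176)) (c (l 16771968) (l 16771904))) (c (a (l 16777176) (l 16771832)) (a (l 16777176) (l 16771768)))) (a (c (c (l 16762032) (l 16761840)) (c (l 16761640) (l 16761448))) (a (c (b (a (l 16755560) (l 16773512)) (a (l 16757616) (l 16715136))) (b (l 16746704) (a (l 16757112) (l 16735584)))) (c (b (c (l 16629328) (l 16649184)) (c (a (l 16667088) (l 16585928)) (b (l 16636312) (l 16593288)))) (b (l 16626552) (c (l 16560856) (l 16601112))))))), by decide +kernel⟩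

def k5_pm_012_a : ∃ t, chk3 f_pm_012_a t 12 7 1 = true :=
  ⟨(b (c (a (b (c (l 16763776) (l 16763600)) (c (l 16682056) (l 16680808))) (b (c (l 16739288) (l 16760024)) (c (l 16678600) (l 16677296)))) (a (b (c (l 16763424) (l 16763248)) (l 16637000)) (c (b (l 16759792) (l 16675992)) (b (l 16759552) (l 16674688))))) (c (a (b (c (l 16573320) (l 16570656)) (c (l 16441664) (l 16437280))) (b (c (l 16569920) (l 16567192)) (c (l 16438320) (l 16433872)))) (c (a (b (l 16567984) (l 16432888)) (b (l 16564472) (l 16429432))) (a (b (l 16565320) (l 16428504)) (b (l 16561744) (l 16424984)))))), by decide +kernel⟩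

def k6_pm_012_a : ∃ t, chk3 f_pm_012_a t 13 7 1 = true :=
  ⟨(b (a (c (b (c (l 16711440) (l 16732080)) (c (l 16671880) (l 16670472))) (c (b (l 16752728) (l 16669056)) (l 16605640))) (a (c (b (a (b (l 16759232) (l 16715944)) (b (l 16726040) (l 16718432))) (a (l 16626160) (c (l 16624128) (l 16623328)))) (b (a (l 16707184) (l 16711200)) (a (l 16644224) (b (l 16735184) (l 16638032))))) (c (b (a (b (l 16644088) (c (l 16656896) (l 16676624))) (b (c (l 16585104) (l 16582600)) (l 16611680))) (a (c (l 16658648) (l 16658560)) (l 16606824))) (b (a (c (l 16627936) (l 16647560)) (b (l 16578848) (l 16607544))) (c (l 16570288) (l 16632792)))))) (a (c (b (c (l 16563264) (l 16560432)) (a (l 16368288) (b (a (l 16464912) (l 16453088)) (a (l 16388032) (l 16353608))))) (b (c (l 16557600) (l 16554776)) (b (c (l 16434960) (l 16451792)) (a (l 16385392) (a (l 16377832) (l 16342392)))))) (b (a (c (a (c (b (l 16587704) (l 16512192)) (l 16439592)) (b (l 16608936) (l 16516720))) (a (c (l 16478480) (l 16517360)) (c (l 16537624)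 (l 16555840)))) (c (c (l 16506752) (l 16504912)) (c (l 16503064) (l 16522192)))) (a (c (a (b (l 16412112) (l 16299288)) (b (l 16415392) (l 16305808))) (a (c (l 16305088) (l 16320432)) (c (l 16352120) (l 16346624)))) (c (c (b (l 16474608) (l 16372952)) (l 16251304)) (c (b (l 16467128) (l 16362680)) (b (l 16463384) (l 16357552)))))))), by decide +kernel⟩

def k7_pm_012_a : ∃ t, chk3 f_pm_012_a t 7 2 1 = true :=
  ⟨(a (b (a (c (a (l 16732000) (b (l 16674056) (l 16682896))) (a (l 16730824) (b (l 16671376) (l 16680448)))) (b (a (c (l 16622280) (l 16618256)) (c (l 16618368) (l 16614424))) (b (a (l 16614520) (c (l 16641520) (l 16638232))) (a (c (l 16588024) (l 16563240)) (c (l 16619608) (l 16615800)))))) (a (b (a (c (b (b (l 16735896) (l 16721568)) (l 16692424)) (b (l 16727656) (l 16690224))) (c (l 16586456) (l 16603560))) (a (c (l 16591720) (l 16608968)) (c (a (l 16546416) (l 16490088)) (l 16429016)))) (a (c (b (l 16508408) (b (l 16469744) (l 16430592))) (b (l 16523544) (l 16422824))) (c (b (l 16530616)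 (l 16429264)) (b (l 16524608) (l 16420808)))))) (b (a (b (a (l 16659240) (c (l 16709920) (l 16709160))) (a (b (c (l 16690872) (l 16689688)) (l 16627152)) (c (l 16567832) (l 16654904)))) (b (a (b (l 16622736) (c (l 16629928) (l 16626128))) (b (c (l 16539464) (l 16534184)) (l 16511952))) (a (l 16515960) (l 16507744)))) (a (a (c (b (l 16522528) (l 16356016)) (b (l 16519576) (l 16394056))) (c (b (l 16498752) (l 16305688)) (l 16266224))) (b (a (c (l 16460600) (l 16479272)) (c (l 16437608) (l 16381296))) (c (a (l 16240288) (l 16246456)) (a (l 16310264) (c (l 16249832) (l 16256832)))))))), by decide +kernel⟩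

def k8_pm_012_a : ∃ t, chk3 f_pm_012_a t 14 6 1 = true :=
  ⟨(a (b (c (a (b (l 16574408) (l 16472272)) (a (b (l 16470064) (l 16437592)) (b (l 16424576) (l 16406344)))) (a (l 16444336) (a (l 16406920) (l 16407144)))) (c (a (b (a (l 16537496) (l 16471504)) (a (c (l 16523912) (l 16520616)) (l 16474312))) (c (a (l 16432792) (l 16397064)) (a (l 16428392) (l 16392280)))) (a (b (a (l 16531272) (l 16463608)) (a (l 16515680) (l 16466576))) (c (l 16406080) (l 16401496))))) (c (b (a (c (l 16391760) (l 16386920)) (b (l 16366064) (l 16331752))) (b (a (l 16359248) (l 16303648)) (a (c (l 16350456) (l 16345216)) (c (l 16285176) (l 16279264))))) (b (a (l 16379656) (l 16317896)) (a (c (l 16346008) (l 16340824)) (c (l 16284528) (l 16278736)))))), by decide +kernel⟩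

def k9_pm_012_a : ∃ t, chk3 f_pm_012_a t 14 7 1 = true :=
  ⟨(b (a (b (c (a (c (b (l 16511384) (l 16542552)) (b (l 16507992) (l 16539664))) (c (b (l 16418992) (l 16443832)) (b (l 16414520) (l 16439784)))) (a (c (l 16499744) (l 16517576)) (c (b (l 16410056) (l 16435728)) (l 16418672)))) (c (a (c (l 16551928) (l 16550232)) (a (l 16510536) (l 16459640))) (a (c (l 16548536) (l 16567816)) (c (l 16459928) (l 16498880))))) (c (b (a (c (b (l 16346488) (l 16366888)) (b (l 16341232) (l 16361984))) (c (b (l 16273896) (l 16290408)) (b (l 16267872) (l 16284672)))) (a (c (l 16362512) (l 16400512)) (c (a (l 16365184) (l 16322888)) (a (l 16360560) (l 16317792))))) (b (a (c (l 16346576) (l 16341496)) (c (l 16270440) (l 16264560))) (a (c (l 16417544) (l 16413608)) (c (l 16334552) (l 16329696)))))) (a (b (c (a (c (l 16581992) (l 16560672)) (a (l 16556072) (l 16521672))) (a (a (l 16560544) (l 16595880)) (c (l 16505888) (l 16504664)))) (c (a (c (l 16411816) (l 16409024)) (a (l 16486592) (b (l 16636896) (l 16575904))))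 (a (c (l 16385264) (l 16403448)) (c (a (l 16526384) (l 16552744)) (a (l 16524952) (l 16552136)))))) (c (b (a (c (l 16440408) (l 16459048)) (c (a (l 16459952) (l 16373064)) (a (l 16456848) (l 16411360)))) (a (b (l 16531144) (a (l 16589096) (l 16621632))) (c (b (l 16462560) (l 16510208)) (b (l 16502488) (l 16530224))))) (a (b (c (l 16477696) (l 16496336)) (c (l 16524544) (l 16545240))) (b (c (l 16368048) (l 16427592)) (c (b (l 16521448) (l 16529256)) (l 16471680))))))), by decide +kernel⟩

def k10_pm_012_a : ∃ t, chk3 f_pm_012_a t 15 6 1 = true :=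
  ⟨(a (c (b (a (a (l 16270432) (l 16239216)) (b (l 16247952) (l 16053528))) (a (c (a (b (l 16256568) (l 16227512)) (b (l 16211800) (l 16176568))) (l 16202432)) (a (c (l 16092928) (l 16122816)) (b (l 16112544) (c (l 16042312) (l 16089264)))))) (a (b (l 16291136) (c (l 16216960) (l 16210520))) (b (l 16236464) (b (l 16160056) (l 16118896))))) (c (b (a (a (l 16145760) (c (l 16089016) (l 16109272))) (c (l 16079496) (l 16076664))) (a (a (b (l 16049216) (c (l 15968816) (l 16020504))) (c (b (l 15981352) (a (l 15923752) (l 15910880))) (b (l 16005744) (l 15946712)))) (a (c (l 15897440) (b (l 15969264) (l 15907528))) (b (l 15967984) (l 15912288))))) (a (b (c (l 16164816) (l 16170184)) (c (b (l 16072408) (l 15978920)) (l 16054096))) (b (c (a (l 16092536) (l 16067400)) (l 15924960)) (c (a (l 15872984) (l 15930680)) (a (l 15982536) (c (l 15933584) (l 15939400)))))))), by decide +kernel⟩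

def k11_pm_012_a : ∃ t, chk3 f_pm_012_a t 30 7 1 = true :=
  ⟨(b (c (a (c (b (a (c (b (l 16209712) (l 16222976)) (l 16220888)) (b (l 16134088) (l 16103048))) (a (c (a (l 16289048) (l 16259056)) (l 16278472)) (c (l 16202864) (b (l 16207800) (l 16244288))))) (b (b (l 16189024) (l 16202096)) (a (l 16274280) (l 16230088)))) (b (c (b (a (l 16086608) (l 16009920)) (a (l 16094488) (l 16014560))) (b (a (l 16121192) (l 16060808)) (a (l 16131352) (l 16068464)))) (c (a (b (l 16121048) (l 16154176)) (b (l 16038232) (l 16068600))) (a (c (b (l 16159272) (l 16194776)) (l 16182544)) (c (l 16101816) (l 16125592)))))) (a (b (c (l 16188888) (l 16182152)) (c (l 16246592) (l 16240768))) (b (c (b (l 16097048) (l 16106800)) (l 16094360)) (c (l 16111832) (l 16146936))))) (c (a (b (c (a (c (a (c (l 16356640) (l 16381240)) (l 16283776)) (l 16368440)) (c (l 16223760) (b (l 16287624) (l 16317216)))) (a (l 16365296) (l 16318704))) (a (c (c (a (b (l 16463888) (l 16510048)) (l 16359152)) (l 16446216)) (l 16423448)) (c (c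 (b (l 16367968) (l 16414008)) (b (l 16354440) (l 16381176))) (b (l 16403904) (l 16473728))))) (b (c (a (b (l 16173280) (l 16200056)) (b (l 16044520) (l 16094536))) (a (c (b (l 16237288) (l 16266576)) (l 16269408)) (c (b (l 16160160) (l 16213088)) (b (l 16186160) (l 16240664))))) (c (b (a (l 16237896) (l 16198128)) (a (l 16309312) (l 16248384))) (a (c (b (l 16265088) (l 16360208)) (l 16332600)) (c (l 16189352) (b (l 16306968) (l 16341056))))))) (a (b (c (l 16253888) (l 16333312)) (c (b (l 16424952) (l 16432416)) (l 16353280))) (b (c (a (l 16265440) (l 16219536)) (l 16154144)) (b (c (l 16250792) (l 16330416)) (c (l 16348024) (l 16407728))))))), by decide +kernel⟩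

def k12_pm_012_a : ∃ t, chk3 f_pm_012_a t 31 14 1 = true :=
  ⟨(c (a (b (c (a (b (l 15868048) (c (l 15918024) (l 15946392))) (b (c (l 15852040) (l 15879104)) (c (l 15853208) (a (l 15886400) (l 15870152))))) (b (a (l 15986824) (l 15907760)) (a (l 15991504) (c (l 15897008) (l 15922896))))) (a (c (a (b (l 15974160) (l 16003520)) (c (b (l 15917248) (l 15947880)) (l 15963136))) (b (l 16016168) (l 16050544))) (c (c (b (l 15877136) (l 15932016)) (a (b (l 15909624) (l 15944080)) (l 15913920))) (c (a (l 15955208) (l 15923528)) (l 15968968))))) (b (c (b (a (l 15849384) (l 15885920)) (a (l 15876984) (l 15894720))) (a (a (b (l 15867064) (l 15873536)) (l 15868480)) (l 15880568))) (c (a (c (l 15924232) (l 15921048)) (l 15942896)) (a (a (c (l 15915848) (l 15921784)) (l 15919760)) (l 15933864))))) (a (b (c (b (l 15903624) (a (l 16029672) (l 15963624))) (l 16000120)) (c (a (c (l 16074592) (l 16080200)) (c (l 16002720) (l 16027344))) (l 16053824))) (c (a (b (b (l 15890656) (l 15899400)) (c (l 15934872) (l 15959032)))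 (b (l 15874256) (l 15928632))) (a (b (l 15925568) (l 15983992)) (b (c (l 15878088) (l 15885104)) (c (l 15934024) (l 15942456))))))), by decide +kernel⟩

def k13_pm_012_a : ∃ t, chk3 f_pm_012_a t 31 15 1 = true :=
  ⟨(a (c (b (a (c (a (b (l 16044744) (l 16096912)) (c (b (l 15989720) (l 16039912)) (l 16048440))) (b (l 16095824) (l 16151312))) (c (c (b (l 15974144) (l 16024416)) (a (b (l 15986984) (l 16038056)) (l 15999736))) (c (a (l 16044104) (b (l 15985344) (l 16037352))) (l 16060536)))) (a (c (a (a (l 16098272) (l 16077280)) (b (l 16054344) (l 16102136))) (b (l 16215408) (l 16246760))) (c (a (c (b (l 16080752) (l 16148456)) (b (l 16097744) (l 16166664))) (b (l 16085296) (l 16154040))) (c (a (l 16125888) (b (l 16098088) (l 16147208))) (b (l 16150744) (l 16223040)))))) (c (b (a (c (l 16085232) (l 16176200)) (c (l 16098096) (l 16125776))) (a (c (b (l 16265080) (l 16320128)) (l 16312152)) (c (l 16144864) (b (l 16221376) (l 16297400))))) (b (l 16151560) (b (l 16249216) (l 16326648))))) (c (b (c (a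 (b (l 15984528) (l 16036432)) (b (l 16006992) (l 16060728))) (a (a (c (l 16003704) (l 16011136)) (l 16009320)) (l 15957744))) (a (c (b (l 16097096) (l 16166688)) (a (c (l 16126480) (b (l 16099664) (l 16170976))) (b (l 16098120) (l 16169024)))) (b (c (l 16121488) (l 16114888)) (c (a (l 16181368) (l 16186240)) (l 16177568))))) (c (a (b (a (l 16054824) (c (l 16012336) (l 16033256))) (a (b (l 16147048) (l 16220928)) (b (l 16074824) (c (l 16174464) (l 16198752))))) (b (a (l 15974536) (l 16024800)) (b (a (l 16108088) (l 16114944)) (a (c (l 16172680) (l 16176504)) (l 16174768))))) (a (b (l 16061360) (c (b (l 16175832) (l 16251424)) (l 16222600))) (b (c (a (l 16031696) (l 16021112)) (a (l 16051688) (l 16028016))) (a (c (b (l 16125360) (l 16194240)) (l 16181848)) (c (l 16120896) (b (l 16120312) (l 16160552))))))))), by decide +kernel⟩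

theorem s14_pm_012_a : ∃ t, chk3 f_pm_012_a t 31 7 1 = true := ex3_b k12_pm_012_a k13_pm_012_a

theorem s15_pm_012_a : ∃ t, chk3 f_pm_012_a t 15 7 1 = true := ex3_a k11_pm_012_a s14_pm_012_a

theorem s16_pm_012_a : ∃ t, chk3 f_pm_012_a t 15 3 1 = true := ex3_b k10_pm_012_a s15_pm_012_a

theorem s17_pm_012_a : ∃ t, chk3 f_pm_012_a t 14 3 1 = true := ex3_b k8_pm_012_a k9_pm_012_a

theorem s18_pm_012_a : ∃ t, chk3 f_pm_012_a t 7 3 1 = true := ex3_a s17_pm_012_a s16_pm_012_a

theorem s19_pm_012_a : ∃ t, chk3 f_pm_012_a t 7 1 1 = true := ex3_b k7_pm_012_a s18_pm_012_a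

theorem s20_pm_012_a : ∃ t, chk3 f_pm_012_a t 6 7 1 = true := ex3_a k5_pm_012_a k6_pm_012_a

theorem s21_pm_012_a : ∃ t, chk3 f_pm_012_a t 6 3 1 = true := ex3_b k4_pm_012_a s20_pm_012_a

theorem s22_pm_012_a : ∃ t, chk3 f_pm_012_a t 6 1 1 = true := ex3_b k3_pm_012_a s21_pm_012_a

theorem s23_pm_012_a : ∃ t, chk3 f_pm_012_a t 3 1 1 = true := ex3_a s22_pm_012_a s19_pm_012_a

theorem s24_pm_012_a : ∃ t, chk3 f_pm_012_a t 2 3 1 = true := ex3_b k1_pm_012_a k2_pm_012_a

theorem s25_pm_012_a : ∃ t, chk3 f_pm_012_a t 2 1 1 = true := ex3_b k0_pm_012_a s24_pm_012_a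

theorem s26_pm_012_a : ∃ t, chk3 f_pm_012_a t 1 1 1 = true := ex3_a s25_pm_012_a s23_pm_012_a

theorem c_pm_012_a : CertFX 0 536870912 0 420477299 1046898278 26843546 false true false .pnp 0 1 2
    ndF0q0 ndF1q2a pcF1 Cut.none Ext.none :=
  certFX2 (fam := false) (s1 := true) (s2 := false) (a := 0) (b := 1) (c := 2) (cn := .pnp) (n1 := ndF0q0) (n2 := ndF1q2a) (pc := pcF1) (cut := Cut.none) (xt := Ext.none) (P1 := 0) (W1 := 536870912) (P2 := 0) (W2 := 420477299) (P3 := 1046898278) (W3 := 26843546)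
    rfl (fun _ => rfl) s26_pm_012_a

noncomputable def f_pm_012_b : ℕ → ℕ → ℕ → ℕ → Bool := onCell 0 536870912 536870912 536870912 1046898278 26843546
    (rowFX 1 false true false .pnp 0 1 2 (qsf 0 536870912 1239849684 370763052 1) ndF0q0 ndF1q2b pcF1 Cut.none Ext.none)

def k0_pm_012_b : ∃ t, chk3 f_pm_012_b t 1 2 1 = true :=
  ⟨(a (l 1) (b (l 1) (a (l 1) (a (b (l 1) (a (b (l 1) (c (l 263100299767) (l 356515838423))) (c (c (l 308197456919) (l 350610258951)) (a (l 393023060759) (l 432214638583))))) (b (b (a (l 1) (a (l 1) (c (b (l 1) (l 178274697207)) (l 262026559479)))) (a (a (l 1) (c (l 198138920951) (l 289406975991))) (c (c (l 223371853751) (l 267932139527)) (c (l 306049974199) (l 337725357911))))) (c (c (a (l 253973495735) (l 16777216)) (a (l 306586845111) (l 16777216))) (a (c (l 351147130807) (l 388728094567)) (c (l 16777216) (l 16777216))))))))), by decide +kernel⟩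

def k1_pm_012_b : ∃ t, chk3 f_pm_012_b t 2 3 1 = true :=
  ⟨(b (l 1) (a (l 1) (b (a (l 1) (a (b (l 1) (a (l 1) (l 495565066311))) (b (a (l 1) (c (l 412350123351) (l 400002088183))) (c (a (l 612602708967) (l 16585120)) (a (l 530461459367) (l 16580128)))))) (a (b (a (l 1) (b (l 1) (l 693670049335))) (a (b (l 1) (l 245919341591)) (b (l 16479280) (l 16521160)))) (a (b (c (l 315176294503) (l 437045988695)) (c (l 16566632) (l 16500016))) (b (c (l 16476712) (l 16427592)) (c (l 16400256) (a (l 16409376) (l 16372184))))))))), by decide +kernel⟩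

def k2_pm_012_b : ∃ t, chk3 f_pm_012_b t 3 3 1 = true :=
  ⟨(b (a (b (a (l 1) (a (b (l 1) (c (l 319471733767) (l 405907950455))) (b (c (l 278132685287) (l 368863869383)) (c (l 358126423255) (l 393023031815))))) (a (b (a (l 1) (c (l 340409672519) (l 422550921207))) (b (c (a (l 1) (l 408592266167)) (l 411276611079)) (c (a (l 388191138695) (l 467111161319)) (l 453152516375)))) (c (b (a (l 397317972407) (l 16756040)) (b (l 16745800) (l 16771440))) (b (a (l 426309000567) (l 16755496)) (b (l 16744984) (l 16771288)))))) (a (b (c (b (a (l 324303583303) (l 16777208)) (a (l 16769736) (l 16769624))) (b (a (l 374232578119) (l 16777208)) (l 16769488))) (c (b (l 16755608) (l 16758672)) (b (l 16755048) (b (l 16744168) (l 16772056))))) (b (c (b (l 16777208) (l 16769432)) (b (l 16777208) (l 16769232))) (c (b (l 16754936) (l 16758656)) (b (l 16754360) (b (l 16743184) (l 16772984))))))) (a (b (a (b (c (a (l 432214340967) (l 16693144)) (a (l 436509304007) (l 16690960))) (c (a (l 16582152) (l 16577776)) (l 16574800)))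 (c (b (l 16689424) (l 16570072)) (b (l 16687144) (l 16564688)))) (c (a (b (l 16472568) (l 16372832)) (b (l 16458200) (l 16354712))) (b (a (l 16464656) (l 16449912)) (a (c (l 16364952) (l 16359704)) (l 16343744))))) (b (a (b (l 16640424) (l 16555112)) (c (l 16567264) (l 16520952))) (c (a (b (l 16440584) (l 16332560)) (l 16320240)) (a (b (l 16431840) (l 16321016)) (b (l 16410224) (l 16293888))))))), by decide +kernel⟩

theorem s3_pm_012_b : ∃ t, chk3 f_pm_012_b t 1 3 1 = true := ex3_a k1_pm_012_b k2_pm_012_b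

theorem s4_pm_012_b : ∃ t, chk3 f_pm_012_b t 1 1 1 = true := ex3_b k0_pm_012_b s3_pm_012_b

theorem c_pm_012_b : CertFX 0 536870912 1239849684 370763052 1046898278 26843546 false true false .pnp 0 1 2
    ndF0q0 ndF1q2b pcF1 Cut.none Ext.none :=
  certFX1 (fam := false) (s1 := true) (s2 := false) (a := 0) (b := 1) (c := 2) (cn := .pnp) (n1 := ndF0q0) (n2 := ndF1q2b) (pc := pcF1) (cut := Cut.none) (xt := Ext.none) (P1 := 0) (W1 := 536870912) (P2 := 1239849684) (W2 := 370763052) (P3 := 1046898278) (W3 := 26843546)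
    rfl (fun _ => rfl) s4_pm_012_b

noncomputable def f_pm_022_a : ℕ → ℕ → ℕ → ℕ → Bool := onCell 1073741824 536870912 0 420477299 1046898278 26843546
    (rowFX 2 false true false .pp 0 2 2 (qsf 0 536870912 0 420477299 2) ndF0q0 ndF1q2a pcF2 Cut.none Ext.none)

def k0_pm_022_a : ∃ t, chk3 f_pm_022_a t 4 2 1 = true :=
  ⟨(a (b (a (b (a (b (c (l 16141504) (l 16128304)) (l 16059392)) (c (l 16222216) (l 16130376))) (c (l 16019024) (l 15903656))) (c (b (l 16280488) (l 16136000)) (a (l 16124864) (l 16415184)))) (b (a (c (l 15898072) (l 15699976)) (c (a (l 16109336) (l 16270320)) (l 16131928))) (a (c (a (l 15731080) (l 15873144)) (c (l 15753344) (l 15794520))) (c (a (l 15998136) (l 16067264)) (a (l 16048112) (l 16225568)))))) (a (b (a (c (l 16386120) (l 16510848)) (c (b (l 16401320) (l 16495144)) (l 16454832))) (c (a (c (a (l 16242528) (l 16306600)) (l 16302520)) (b (l 16453992) (c (a (l 16468600) (l 16496992)) (l 16469976)))) (a (l 16342360) (l 16489408)))) (b (b (c (a (l 16396632) (c (l 16382976)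 (l 16418088))) (l 16437680)) (c (a (l 16464976) (l 16324152)) (l 16480088))) (c (a (b (l 16479936) (c (l 16506704) (l 16507552))) (b (l 16352104) (c (l 16425384) (l 16442560)))) (a (b (l 16509080) (l 16494768)) (b (l 16467576) (c (l 16362016) (l 16482104)))))))), by decide +kernel⟩

def k1_pm_022_a : ∃ t, chk3 f_pm_022_a t 8 6 1 = true :=
  ⟨(a (c (b (a (l 15658512) (c (l 15821320) (l 15815128))) (a (b (l 15627720) (l 15645384)) (c (b (l 15804208) (l 15805400)) (b (l 15798552) (l 15800256))))) (b (c (a (l 15640472) (l 15820000)) (a (l 15636864) (l 15821840))) (c (a (l 15608344) (c (l 15802472) (l 15810224))) (a (c (l 15604624) (l 15606016)) (l 15812448))))) (c (a (b (c (l 15992224) (l 16003160)) (c (b (l 15979048) (a (l 15933712) (l 15993592))) (b (l 15992920) (a (l 15943056) (l 16034008))))) (b (c (b (l 16174832) (l 16119544)) (l 16123976)) (c (b (a (l 16104944) (l 16194040)) (c (a (l 16099432) (l 16193480)) (a (l 16095936) (l 16192504)))) (b (l 16168592) (c (l 16113712) (l 16167280)))))) (b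 (a (l 15889808) (l 16193424)) (a (c (b (l 16009456) (l 15965336)) (l 16006192)) (l 16172728))))), by decide +kernel⟩

def k2_pm_022_a : ∃ t, chk3 f_pm_022_a t 16 14 2 = true :=
  ⟨(b (a (b (c (l 15635536) (l 15622312)) (c (l 15667624) (l 15654840))) (c (b (a (l 15768544) (l 15854240)) (a (l 15801984) (l 15880856))) (b (l 15806704) (a (l 15792344) (l 15880472))))) (c (a (b (l 15720792) (a (l 15735232) (l 15826480))) (a (b (l 15852320) (l 15903592)) (c (b (l 15925760) (c (a (l 15960232) (l 16003616)) (l 15972872))) (l 15943632)))) (a (b (l 15708736) (l 15769624)) (a (b (l 15843408) (l 15895432)) (l 15946480))))), by decide +kernel⟩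

def k3_pm_022_a : ∃ t, chk3 f_pm_022_a t 16 15 2 = true :=
  ⟨(b (a (a (c (b (l 15803584) (l 15886352)) (b (l 15792640) (l 15865872))) (c (b (l 15888072) (c (a (l 15935720) (l 15971472)) (l 15948088))) (b (l 15878240) (l 15941312)))) (a (c (c (b (a (l 15943512) (l 15980928)) (c (a (b (l 15993776) (l 16035584)) (l 16060480)) (a (l 16004360) (l 16048416)))) (b (l 15954600) (l 16016672))) (l 15958664)) (c (c (b (c (a (l 16028312) (l 16072496)) (a (l 16013984) (l 16058096))) (a (l 16098384) (l 16142504))) (b (a (l 16004344) (l 16043024)) (c (a (l 16078976) (l 16121576)) (a (l 16066648) (l 16111584))))) (c (b (l 16021560) (l 16085160)) (l 16057672))))) (a (c (a (b (b (l 15931096) (l 15966832)) (c (b (l 16009168) (a (l 16030568) (c (l 16079880) (l 16065368)))) (l 16021504))) (b (c (a (c (l 16009656) (l 16002168)) (b (l 16026424) (l 16072088))) (l 16015632)) (c (b (c (l 16100984) (a (l 16062136) (l 16109176))) (a (l 16120216) (l 16166360))) (b (l 16074200) (c (l 16041088) (l 16112960)))))) (b (l 15974512)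 (a (l 16015728) (l 16085192)))) (c (a (b (c (a (b (l 16072272) (l 16115968)) (l 16138528)) (c (a (l 16073312) (l 16118256)) (l 16087016))) (c (b (l 16185536) (l 16233752)) (c (l 16105608) (b (l 16152808) (l 16200568))))) (b (c (b (l 16183296) (l 16226616)) (a (l 16115104) (l 16201888))) (c (l 16250312) (a (l 16250704) (l 16295432))))) (c (a (b (l 16079816) (b (l 16139464) (c (l 16189728) (l 16179088)))) (a (b (c (l 16141048) (l 16133392)) (b (l 16203856) (l 16251856))) (b (l 16165880) (l 16258064)))) (a (l 16012584) (b (l 16160048) (a (l 16218848) (l 16176960)))))))), by decide +kernel⟩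

def k4_pm_022_a : ∃ t, chk3 f_pm_022_a t 17 14 2 = true :=
  ⟨(a (c (b (a (b (l 15930384) (c (a (l 15932568) (l 15972560)) (l 15951456))) (b (c (c (l 15994536) (l 16007488)) (l 16006816)) (c (a (l 16021392) (l 16068648)) (l 15974992)))) (a (c (b (c (a (l 15985936) (l 16029248)) (a (l 15973648) (l 16021264))) (c (l 16068976) (a (l 16033816) (l 16081952)))) (b (l 15994168) (c (l 15947024) (l 16045432)))) (c (b (l 16057408) (l 16118968)) (b (l 16002760) (a (l 16121784) (l 16171888)))))) (b (b (l 15922288) (a (l 15962440) (l 16050528))) (c (a (l 16022688) (b (l 16084768) (l 16059464))) (a (l 16033936) (l 16128624))))) (a (c (b (b (c (l 16106008) (l 16099320)) (c (l 16141744) (l 16132424))) (c (b (l 16196000) (l 16253280)) (b (l 16188440) (l 16250976)))) (b (c (b (l 16105072) (l 16137456)) (l 16136648)) (c (b (l 16189392) (l 16231832)) (b (l 16197864) (l 16195560))))) (c (b (b (c (l 16205048) (l 16202584)) (c (l 16237760) (l 16239040))) (c (b (l 16287808) (l 16341136)) (l 16259840))) (b (c (b (l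 16206896) (l 16243088)) (l 16125072)) (c (b (l 16258152) (l 16344080)) (b (l 16299992) (l 16301336))))))), by decide +kernel⟩

def k5_pm_022_a : ∃ t, chk3 f_pm_022_a t 17 15 2 = true :=
  ⟨(a (b (c (a (c (b (a (l 16109432) (l 16156872)) (a (l 16186112) (l 16230488))) (b (b (l 16076760) (l 16091432)) (a (l 16166080) (l 16218408)))) (c (b (l 16206328) (l 16275728)) (b (l 16152856) (l 16270776)))) (a (c (b (c (l 16109568) (l 16105680)) (c (l 16160800) (l 16157264))) (b (l 16115632) (l 16181680))) (c (b (a (l 16182136) (l 16237072)) (a (l 16259344) (l 16315656))) (b (l 16156456) (c (l 16267872) (l 16274144)))))) (c (a (b (c (a (l 16265904) (l 16307168)) (l 16191720)) (c (a (l 16349104) (l 16387304)) (l 16300288))) (b (c (l 16348408) (l 16284208)) (c (l 16380456) (l 16386488)))) (a (a (c (b (l 16238160) (l 16331848)) (b (l 16151952) (l 16240920))) (c (b (l 16289520) (l 16383648)) (b (l 16288712) (l 16297712)))) (b (c (l 16308752) (c (l 16332856) (l 16275072))) (c (a (l 16433952) (l 16462312)) (c (l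 16403224) (l 16392016))))))) (b (c (a (b (c (l 16313440) (l 16317264)) (c (l 16356992) (l 16343952))) (c (b (l 16375128) (l 16432616)) (b (l 16413608) (l 16433152)))) (a (c (b (l 16301696) (l 16377760)) (b (c (l 16286016) (l 16311160)) (c (l 16367136) (l 16348664)))) (b (c (l 16346928) (l 16415624)) (c (l 16415584) (l 16448216))))) (c (a (b (c (l 16401384) (l 16393544)) (c (l 16490464) (l 16465592))) (b (l 16443392) (l 16490544))) (a (c (b (l 16391328) (l 16468528)) (b (c (l 16407104) (l 16434184)) (c (l 16490048) (l 16500952)))) (c (b (l 16462856) (l 16534032)) (b (l 16522888) (l 16554424))))))), by decide +kernel⟩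

def k6_pm_022_a : ∃ t, chk3 f_pm_022_a t 8 7 6 = true :=
  ⟨(a (b (a (b (l 15627408) (l 15624184)) (b (a (b (l 15762464) (l 15797496)) (c (l 15875272) (l 15888920))) (a (c (l 15867304) (l 15876648)) (c (l 15958272) (l 15973936))))) (a (b (a (l 15817592) (l 15797552)) (b (l 15905120) (a (l 16007592) (l 16081904)))) (c (b (a (l 15980464) (l 16070184)) (a (l 16079144) (l 16109504))) (b (a (l 15991592) (l 16088024)) (a (l 16071232) (b (l 16193464) (l 16254112))))))) (b (a (b (b (l 16005560) (l 15987760)) (c (l 15972704) (l 16107040))) (b (l 16182720) (c (l 16109480) (l 16271248)))) (a (c (b (a (l 16147488) (a (l 16242560) (l 16253976))) (a (b (l 16233408) (c (l 16275328) (l 16285512))) (b (c (l 16279600) (l 16365528)) (a (c (l 16408472) (l 16432504)) (l 16404040))))) (b (l 16184672) (a (l 16271120) (b (l 16380912) (l 16386800))))) (b (a (c (b (l 16326688) (l 16339336)) (l 16335840)) (b (c (l 16377784) (l 16406848)) (c (l 16434360) (l 16420640)))) (b (c (a (l 16384544) (l 16517232)) (a (l 16389896)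 (a (l 16484480) (l 16572240)))) (a (c (l 16496920) (a (l 16460240) (l 16508584))) (l 16538216))))))), by decide +kernel⟩

def k7_pm_022_a : ∃ t, chk3 f_pm_022_a t 8 7 7 = true :=
  ⟨(a (b (a (b (c (l 15624760) (l 15627424)) (c (l 15602168) (l 15627240))) (b (a (l 15789304) (l 15891528)) (a (l 15887288) (l 15978120)))) (a (b (c (a (l 15810760) (l 15845856)) (a (l 15813120) (l 15914016))) (c (a (l 15963904) (c (l 16047160) (l 16054488))) (a (b (l 15928344) (l 16006840)) (l 16058776)))) (b (c (l 15987488) (l 16048832)) (c (a (l 16064952) (l 16243936)) (l 16196280))))) (b (b (l 16035248) (l 16080872)) (a (b (l 16223648) (b (l 16334224) (l 16375776))) (b (b (l 16359392) (l 16344832)) (b (c (a (l 16467760) (l 16429528)) (l 16446072)) (a (c (l 16450640) (l 16531952)) (c (b (l 16520928) (l 16529568)) (b (l 16553168) (l 16497464))))))))), by decide +kernel⟩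

def k8_pm_022_a : ∃ t, chk3 f_pm_022_a t 9 6 1 = true :=
  ⟨(a (c (a (b (c (b (l 16299240) (l 16206896)) (l 16342512)) (c (b (a (l 16286992) (l 16337560)) (c (l 16276168) (a (l 16294640) (l 16394416)))) (b (l 16247424) (a (l 16254024) (l 16338456))))) (a (b (c (b (l 16453216) (l 16451896)) (l 16418264)) (b (c (l 16416816) (l 16377616)) (c (a (l 16389984) (l 16482400)) (a (l 16420344) (l 16467272))))) (b (c (l 16497384) (l 16471152)) (c (b (l 16507304) (l 16509120)) (b (l 16484736) (l 16500400)))))) (a (b (l 16338776) (c (l 16322832) (l 16317888))) (b (a (l 16426584) (l 16436760)) (b (a (l 16400912) (l 16461200)) (c (a (l 16367280) (c (l 16485176) (l 16452384))) (l 16376392)))))) (c (b (a (c (l 16517232) (b (l 16515568) (l 16529040))) (l 281353187159)) (a (c (l 16482248) (l 24192070663)) (l 16409808))) (a (b (c (b (l 16495224) (l 16443904)) (l 16492912)) (c (b (a (l 16505880) (l 16531984)) (l 21507723351)) (b (l 16403592) (a (l 16488960) (l 16423896))))) (b (c (a (l 16394112) (l 16421184)) (b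 (l 16409944) (l 16315736))) (c (l 448320088839) (b (a (l 16462888) (l 16419968)) (l 16391128))))))), by decide +kernel⟩

def k9_pm_022_a : ∃ t, chk3 f_pm_022_a t 18 14 1 = true :=
  ⟨(c (a (c (b (a (b (l 16262856) (l 16251256)) (b (c (l 16390808) (l 16403296)) (l 16339568))) (b (c (l 16310680) (a (l 16394608) (l 16436008))) (a (l 16309064) (l 16407584)))) (c (b (b (l 16208792) (l 16264200)) (b (l 16297184) (l 16372976))) (b (b (l 16278568) (l 16274168)) (b (l 16328896) (l 16410216))))) (c (b (c (a (b (l 16399472) (l 16421096)) (l 16456744)) (b (a (l 16477584) (l 16510456)) (l 16434416))) (a (c (a (l 16450416) (l 16522672)) (l 16462176)) (l 16491336))) (b (b (a (l 16445568) (l 16507800)) (l 16409504)) (a (l 16482608) (l 16551696))))) (a (b (c (b (l 16283320) (c (l 16279552) (l 16354176))) (l 16334136)) (c (a (c (l 16282592) (l 16332848)) (b (c (l 16444200) (l 16430712)) (c (l 16527880) (l 16452960)))) (b (l 16378816) (a (l 16418896) (l 16419864))))) (b (c (a (b (a (l 16426888) (l 16457400)) (a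 (l 16423200) (l 16472128))) (b (l 16495352) (l 16529392))) (a (a (l 16411152) (l 16418368)) (b (l 16476872) (l 16441376)))) (c (a (b (a (l 16488040) (l 16547648)) (l 16546584)) (l 16572912)) (a (a (b (l 16481488) (a (l 16510744) (l 16529160))) (b (l 16487624) (l 16508184))) (b (c (l 16575232) (l 16548288)) (l 16495168))))))), by decide +kernel⟩

def k10_pm_022_a : ∃ t, chk3 f_pm_022_a t 18 15 1 = true :=
  ⟨(b (a (c (c (c (b (l 16407720) (l 16442344)) (a (l 16403384) (b (l 16513096) (l 16514888)))) (c (b (l 16429920) (l 16490104)) (l 16417112))) (c (a (c (l 16419032) (b (l 16412288) (l 16511424))) (b (l 16542216) (l 16561928))) (b (c (a (l 16444664) (l 16490128)) (l 16374224)) (a (c (l 16458016) (l 16514064)) (c (l 16524944) (l 71973653687)))))) (a (c (c (a (c (a (l 16529768) (l 16510896)) (l 211560091671)) (l 220686833703)) (l 254509720663)) (c (l 16459840) (b (c (l 16523576) (a (l 16500424) (l 16553344))) (l 339335287799)))) (l 1))) (a (b (c (c (c (l 16477816) (a (l 16537320) (l 208338830663)))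 (c (l 16448744) (l 16507592))) (c (l 16467496) (a (c (l 41908929703) (c (l 16513072) (l 16517192))) (a (l 306049371463) (l 1))))) (a (c (c (c (l 16557600) (l 16504232)) (c (l 16496656) (l 16553672))) (c (l 16552784) (b (c (l 16566384) (l 16466624)) (l 323766082871)))) (l 1))) (l 1))), by decide +kernel⟩

def k11_pm_022_a : ∃ t, chk3 f_pm_022_a t 19 7 1 = true :=
  ⟨(a (b (c (b (b (l 16535760) (l 16494104)) (l 285648117143)) (b (c (l 16502192) (a (b (l 16486232) (l 16543304)) (l 16459944))) (c (l 16440128) (l 16376664)))) (l 1)) (l 1)), by decide +kernel⟩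

def k12_pm_022_a : ∃ t, chk3 f_pm_022_a t 5 1 1 = true :=
  ⟨(a (b (a (a (b (c (b (l 16338272) (l 16381728)) (c (b (l 16411560) (l 16408816)) (l 16426432))) (c (b (l 16373952) (l 16361776)) (b (c (l 16390664) (l 16389368)) (c (l 16352544) (a (l 16401032) (l 16287512)))))) (c (b (l 16166392) (l 16174288)) (b (a (c (l 16276200) (l 16251232)) (l 15911640)) (b (l 15991600) (l 16076168))))) (b (l 1) (l 1))) (b (b (a (a (c (l 16349616) (a (c (l 16369680) (l 16332600)) (l 1))) (l 1)) (l 1)) (l 1)) (l 1))) (l 1)), by decide +kernel⟩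

def k13_pm_022_a : ∃ t, chk3 f_pm_022_a t 3 1 1 = true :=
  ⟨(l 1), by decide +kernel⟩

theorem s14_pm_022_a : ∃ t, chk3 f_pm_022_a t 18 7 1 = true := ex3_b k9_pm_022_a k10_pm_022_a

theorem s15_pm_022_a : ∃ t, chk3 f_pm_022_a t 9 7 1 = true := ex3_a s14_pm_022_a k11_pm_022_a

theorem s16_pm_022_a : ∃ t, chk3 f_pm_022_a t 9 3 1 = true := ex3_b k8_pm_022_a s15_pm_022_a

theorem s17_pm_022_a : ∃ t, chk3 f_pm_022_a t 8 7 3 = true := ex3_c k6_pm_022_a k7_pm_022_a

theorem s18_pm_022_a : ∃ t, chk3 f_pm_022_a t 17 7 2 = true := ex3_b k4_pm_022_a k5_pm_022_a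

theorem s19_pm_022_a : ∃ t, chk3 f_pm_022_a t 16 7 2 = true := ex3_b k2_pm_022_a k3_pm_022_a

theorem s20_pm_022_a : ∃ t, chk3 f_pm_022_a t 8 7 2 = true := ex3_a s19_pm_022_a s18_pm_022_a

theorem s21_pm_022_a : ∃ t, chk3 f_pm_022_a t 8 7 1 = true := ex3_c s20_pm_022_a s17_pm_022_a

theorem s22_pm_022_a : ∃ t, chk3 f_pm_022_a t 8 3 1 = true := ex3_b k1_pm_022_a s21_pm_022_a

theorem s23_pm_022_a : ∃ t, chk3 f_pm_022_a t 4 3 1 = true := ex3_a s22_pm_022_a s16_pm_022_a

theorem s24_pm_022_a : ∃ t, chk3 f_pm_022_a t 4 1 1 = true := ex3_b k0_pm_022_a s23_pm_022_a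

theorem s25_pm_022_a : ∃ t, chk3 f_pm_022_a t 2 1 1 = true := ex3_a s24_pm_022_a k12_pm_022_a

theorem s26_pm_022_a : ∃ t, chk3 f_pm_022_a t 1 1 1 = true := ex3_a s25_pm_022_a k13_pm_022_a

theorem c_pm_022_a : CertFX 0 536870912 0 420477299 1046898278 26843546 false true false .pp 0 2 2
    ndF0q0 ndF1q2a pcF2 Cut.none Ext.none :=
  certFX2 (fam := false) (s1 := true) (s2 := false) (a := 0) (b := 2) (c := 2) (cn := .pp) (n1 := ndF0q0) (n2 := ndF1q2a) (pc := pcF2) (cut := Cut.none) (xt := Ext.none) (P1 := 0) (W1 := 536870912) (P2 := 0) (W2 := 420477299) (P3 := 1046898278) (W3 := 26843546)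
    rfl (fun _ => rfl) s26_pm_022_a

noncomputable def f_pm_022_b : ℕ → ℕ → ℕ → ℕ → Bool := onCell 0 536870912 1073741824 536870912 1046898278 26843546
    (rowFX 1 false true false .pp 0 2 2 (qsf 0 536870912 1239849684 370763052 2) ndF0q0 ndF1q2b pcF2 Cut.none Ext.none)

def k0_pm_022_b : ∃ t, chk3 f_pm_022_b t 1 4 1 = true :=
  ⟨(a (a (b (a (l 1) (a (b (l 1) (c (l 343629895127) (l 281352899719))) (a (b (l 1) (l 174515925255)) (b (l 390337773975) (l 119754751927))))) (a (a (a (l 1) (b (l 1) (c (l 361883031959) (l 339334479127)))) (b (a (l 1) (c (b (l 1) (l 350608886871)) (l 303364345335))) (c (a (c (l 16183536) (l 16174040)) (l 16215000)) (l 16232928)))) (a (b (c (a (b (l 16360304) (l 16368952)) (l 149282768503)) (b (l 16376144) (l 16365032))) (c (l 16171264) (l 16264712))) (b (b (l 16346304) (a (l 16397872) (l 16286728))) (l 15896176))))) (b (a (b (a (c (l 16132656) (l 16205344)) (c (l 15976616) (l 15958384))) (c (a (l 16210184) (l 15990520)) (a (l 16199816) (l 15973088)))) (a (c (b (l 15755424)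 (l 15786480)) (b (l 15730280) (l 15762256))) (c (b (l 15591728) (l 15630224)) (b (a (l 15574624) (l 15547784)) (l 15537656))))) (a (b (c (b (l 16095808) (l 16009280)) (b (l 16082408) (l 15952224))) (a (l 15844880) (l 15696904))) (b (a (b (l 15802840) (l 15748368)) (b (l 15656208) (c (l 15631600) (l 15602040)))) (a (l 15526376) (a (l 15413000) (l 15397240))))))) (b (a (c (a (b (l 15594520) (l 15621800)) (b (l 15623896) (l 15630960))) (a (b (c (l 15571480) (l 15556128)) (c (l 15599288) (l 15584280))) (b (c (l 15601424) (l 15586448)) (l 15601192)))) (c (a (b (l 15659728) (l 15642120)) (b (l 15702424) (l 15655392))) (a (b (l 15630704) (l 15612640)) (c (l 15655200) (l 15577992))))) (a (a (b (c (l 15634336) (b (l 15625160) (l 15585664))) (c (l 15412968) (l 15377528))) (b (c (l 15624992) (b (l 15619128) (l 15572528))) (c (l 15400800) (l 15365048)))) (a (b (c (l 15613648) (l 15583424)) (c (l 15381408) (l 15345152))) (b (c (l 15600168) (l 15569592)) (l 2)))))), by decide +kernel⟩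

def k1_pm_022_b : ∃ t, chk3 f_pm_022_b t 1 5 1 = true :=
  ⟨(a (a (b (a (b (a (b (c (l 279205215271) (c (a (l 16330144) (l 16398216)) (l 248066651095))) (c (a (l 16189088) (b (l 16327600) (l 16176712))) (c (a (l 16191888) (l 16222240)) (l 194916155191)))) (b (c (a (l 16317968) (l 16328376)) (l 16363072)) (c (a (l 16158312) (l 16349600)) (l 16402440)))) (a (c (a (l 15743640) (l 15633120)) (a (c (l 15736688) (l 15681232)) (l 15656064))) (c (b (a (l 15960768) (l 16163088)) (l 15617624)) (l 15878608)))) (b (a (b (c (l 16140904) (l 16145584)) (a (l 16176048) (l 16181944))) (b (l 15896616) (l 15999424))) (a (c (l 15978800) (l 16128880)) (l 16202088)))) (a (b (a (c (a (l 15224456) (l 15321832)) (a (c (l 15205488) (l 15204936)) (l 15329000))) (c (a (l 15389256) (l 15584248)) (l 15517496))) (a (c (l 15022880) (a (l 14939088) (l 15070360))) (c (l 15287784) (l 15274312)))) (b (a (c (l 15776136) (l 15764144)) (l 16082056)) (a (l 15551192) (l 15883992))))) (b (b (a (b (l 15593088) (l 15709088)) (b (a (l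 15339544) (l 15219464)) (a (l 15467888) (l 15354144)))) (a (a (l 16144816) (l 16071904)) (a (l 15933528) (l 15835584)))) (b (a (l 16259688) (a (l 16480760) (l 16383672))) (a (l 16281952) (l 16688784))))) (a (b (b (b (a (a (l 15211352) (l 15210624)) (l 15196728)) (a (l 15345696) (l 15337048))) (a (l 15795664) (l 15656376))) (b (a (l 16357392) (b (l 16311208) (l 2))) (c (l 16722856) (l 16721448)))) (b (b (b (a (l 15173280) (l 2)) (l 2)) (l 2)) (l 2)))), by decide +kernel⟩

def k2_pm_022_b : ∃ t, chk3 f_pm_022_b t 1 3 1 = true :=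
  ⟨(a (b (a (a (b (c (a (l 14958616) (l 15188160)) (a (b (l 14973840) (l 14918816)) (l 15214784))) (c (a (l 14871640) (l 15152808)) (a (l 14857904) (l 15134528)))) (b (a (c (l 15510528) (l 15489304)) (l 15839872)) (c (l 15608856) (l 15594096)))) (b (a (l 16249024) (l 16632976)) (a (l 16205536) (l 16670872)))) (a (a (c (b (a (l 14867920) (l 15149528)) (l 15017472)) (b (l 14884224) (l 15010056))) (c (b (l 15648192) (l 15648192)) (l 15423592))) (b (a (l 16203752) (l 2)) (l 2)))) (a (a (b (b (l 16724096) (l 2)) (l 2)) (l 2)) (l 2))), by decide +kernel⟩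

theorem s3_pm_022_b : ∃ t, chk3 f_pm_022_b t 1 2 1 = true := ex3_b k0_pm_022_b k1_pm_022_b

theorem s4_pm_022_b : ∃ t, chk3 f_pm_022_b t 1 1 1 = true := ex3_b s3_pm_022_b k2_pm_022_b

theorem c_pm_022_b : CertFX 0 536870912 1239849684 370763052 1046898278 26843546 false true false .pp 0 2 2
    ndF0q0 ndF1q2b pcF2 Cut.none Ext.none :=
  certFX1 (fam := false) (s1 := true) (s2 := false) (a := 0) (b := 2) (c := 2) (cn := .pp) (n1 := ndF0q0) (n2 := ndF1q2b) (pc := pcF2) (cut := Cut.none) (xt := Ext.none) (P1 := 0) (W1 := 536870912) (P2 := 1239849684) (W2 := 370763052) (P3 := 1046898278) (W3 := 26843546)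
    rfl (fun _ => rfl) s4_pm_022_b

noncomputable def f_pm_023 : ℕ → ℕ → ℕ → ℕ → Bool := onCell 0 536870912 1073741824 536870912 1046898278 26843546
    (rowFX 1 false true false .up 0 2 3 (qsf 0 536870912 1610612736 469762048 2) ndF0q0 ndF1q3 pcF2 Cut.none Ext.none)

def k0_pm_023 : ∃ t, chk3 f_pm_023 t 1 1 1 = true :=
  ⟨(b (b (a (l 1) (b (a (l 1) (c (a (l 259339775543) (l 237864926135)) (a (l 250749790839) (c (l 15655200) (l 15640912))))) (a (a (l 1) (b (l 1) (l 292625045895))) (c (b (a (l 15613648) (l 15600168)) (l 100425201303)) (b (a (l 15583424) (l 15548624)) (a (l 15345152) (l 15321552))))))) (a (a (l 1) (b (l 1) (b (l 1) (a (l 1) (l 16709760))))) (b (b (a (a (l 1) (b (l 15196728) (l 15337048))) (b (a (l 15173280) (c (l 15166400) (l 15124560))) (a (l 15314840) (l 15288752)))) (a (a (l 15816640) (l 15656376)) (a (l 15770984) (l 15606680)))) (b (a (a (l 16357392) (b (l 16311208) (l 16595288))) (a (b (l 16313832) (l 16611552)) (c (l 16463136) (l 16413032)))) (a (c (l 16722856) (l 16721448))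 (a (l 16771304) (l 16776776))))))) (a (b (a (a (l 1) (b (l 1) (c (l 15608856) (l 15594096)))) (b (a (l 16249024) (l 16632976)) (a (l 16205536) (l 16670872)))) (a (a (c (b (l 376912911847) (l 15017472)) (b (l 14821312) (l 15010056))) (c (b (l 15648192) (l 15648192)) (l 15381648))) (b (a (l 16203752) (l 16669896)) (a (l 16203752) (l 16669896))))) (a (b (b (a (l 16724096) (l 16743880)) (l 16775040)) (c (l 16777208) (l 16777208))) (b (c (b (l 16768752) (l 16776584)) (b (l 16789504) (l 16776568))) (b (l 16771864) (l 16767512)))))), by decide +kernel⟩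

theorem c_pm_023 : CertFX 0 536870912 1610612736 469762048 1046898278 26843546 false true false .up 0 2 3
    ndF0q0 ndF1q3 pcF2 Cut.none Ext.none :=
  certFX1 (fam := false) (s1 := true) (s2 := false) (a := 0) (b := 2) (c := 3) (cn := .up) (n1 := ndF0q0) (n2 := ndF1q3) (pc := pcF2) (cut := Cut.none) (xt := Ext.none) (P1 := 0) (W1 := 536870912) (P2 := 1610612736) (W2 := 469762048) (P3 := 1046898278) (W3 := 26843546)
    rfl (fun _ => rfl) k0_pm_023

noncomputable def f_pm_033 : ℕ → ℕ → ℕ → ℕ → Bool := onCell 0 536870912 1610612736 536870912 1046898278 26843546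
    (rowFX 1 false true false .pnn 0 3 3 (qsf 0 536870912 1610612736 469762048 3) ndF0q0 ndF1q3 pcF3 Cut.none Ext.none)

def k0_pm_033 : ∃ t, chk3 f_pm_033 t 1 1 1 = true :=
  ⟨(a (b (b (a (b (a (c (l 15017472) (l 15010056)) (c (l 15648192) (l 15591368))) (b (a (a (l 27610973063) (l 15134176)) (l 15561736)) (l 4))) (b (a (l 16203752) (l 16669896)) (c (l 16365672) (a (l 16196408) (l 16668528))))) (a (l 4) (b (a (l 4) (b (l 16670432) (l 4))) (l 4)))) (a (l 4) (b (l 4) (l 2)))) (b (a (b (b (l 16771864) (l 16767512)) (b (b (l 16764072) (l 285313447687)) (a (l 4) (l 2)))) (b (b (l 16759240) (a (l 16742216) (l 2))) (l 2))) (l 2))), by decide +kernel⟩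

theorem c_pm_033 : CertFX 0 536870912 1610612736 469762048 1046898278 26843546 false true false .pnn 0 3 3
    ndF0q0 ndF1q3 pcF3 Cut.none Ext.none :=
  certFX1 (fam := false) (s1 := true) (s2 := false) (a := 0) (b := 3) (c := 3) (cn := .pnn) (n1 := ndF0q0) (n2 := ndF1q3) (pc := pcF3) (cut := Cut.none) (xt := Ext.none) (P1 := 0) (W1 := 536870912) (P2 := 1610612736) (W2 := 469762048) (P3 := 1046898278) (W3 := 26843546)
    rfl (fun _ => rfl) k0_pm_033

noncomputable def f_pm_101 : ℕ → ℕ → ℕ → ℕ → Bool := onCell 0 536870912 536870912 536870912 1046898278 26843546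
    (rowFX 2 false true false .npn 1 0 1 (qsf 536870912 536870912 536870912 536870912 0) ndF0q1 ndF1q1 pcF0 Cut.none Ext.none)

def k0_pm_101 : ∃ t, chk3 f_pm_101 t 4 2 1 = true :=
  ⟨(b (l 4) (b (l 4) (a (a (a (c (a (c (l 16698576) (c (l 16698456) (l 16698240))) (a (c (b (l 16757576) (l 16667744)) (l 16646888)) (c (l 16717176) (l 16693824)))) (a (a (c (l 16694312) (c (a (l 16692152) (l 16696128)) (a (b (l 16744656) (l 16640752)) (l 16695568)))) (a (c (l 16700728) (l 68416995703)) (c (l 16620224) (l 16702960)))) (c (b (l 16611112) (l 16666664)) (l 16711048)))) (c (c (a (a (l 16721408) (a (l 16725192) (l 16643864))) (l 16649576)) (b (a (l 16765528) (l 16771320)) (l 16692704))) (c (b (l 16767000) (l 16693984)) (l 16727736)))) (a (c (c (l 16746608) (a (l 16744872) (l 16753200))) (b (l 112440748071) (l 16725832))) (c (c (b (l 4) (l 16749944)) (l 16761104)) (l 101703267063)))) (b (l 4) (a (c (a (l 16765176) (l 16773568)) (a (l 16764856) (l 16773480))) (c (l 150558771079) (l 122641375831))))))), by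 decide +kernel⟩

def k1_pm_101 : ∃ t, chk3 f_pm_101 t 4 6 1 = true :=
  ⟨(a (a (a (b (c (a (c (l 16483232) (l 16482464)) (c (a (b (l 16562816) (l 16456784)) (l 16517552)) (a (l 16502136) (l 16507392)))) (a (c (a (l 16473248) (c (l 16488560) (l 16485096))) (a (c (l 16471496) (l 16386432)) (l 16482744))) (c (l 16501840) (l 16503120)))) (c (a (b (l 16311040) (l 16155432)) (c (b (l 16350392) (l 16209584)) (b (l 16340712) (l 16196112)))) (a (a (c (l 16217552) (b (l 16297376) (b (l 16202944) (l 16066312)))) (c (b (l 16317232) (l 16164648)) (l 16128816))) (c (b (l 16335864) (l 16188912)) (l 16265016))))) (c (b (a (c (b (l 16578288) (l 16471624)) (l 16523424)) (c (l 16544496) (l 16551384))) (c (a (b (l 16361192) (l 16220056)) (l 16316856)) (b (l 16380888) (l 16242976)))) (b (l 16394064) (b (l 16389072) (l 16252424))))) (b (b (c (a (l 16633912) (l 16673632)) (l 16653568)) (c (a (l 16542584) (l 16574336)) (l 16569304))) (c (b (a (l 16449224) (l 16516072)) (a (l 16325680) (l 16407808))) (b (l 16485104)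 (l 16368088))))) (a (c (b (c (l 16688840) (l 16687872)) (b (l 16597864) (l 16446816))) (b (b (l 16718168) (l 16656192)) (b (l 16596120) (l 16505304)))) (b (c (b (l 16757904) (l 16719464)) (b (l 16757400) (l 16718744))) (b (l 16632072) (a (l 16593632) (l 16633240)))))), by decide +kernel⟩

def k2_pm_101 : ∃ t, chk3 f_pm_101 t 16 14 1 = true :=
  ⟨(a (c (a (b (b (l 15895520) (l 15485712)) (c (l 15499024) (l 15380928))) (b (b (c (l 15994648) (l 15960968)) (c (a (l 15805888) (l 15834184)) (a (l 15742464) (l 15765784)))) (c (a (l 15523376) (l 15615232)) (a (l 15464776) (l 15492176))))) (a (c (b (b (l 15853008) (a (l 15580176) (a (l 15627600) (l 15651824)))) (a (l 15219440) (c (l 15324960) (l 15259072)))) (b (b (l 15824776) (a (a (l 15503856) (l 15496496)) (l 15578856))) (a (c (l 15122472) (a (l 15034712) (l 15078336))) (l 15169232)))) (c (b (b (l 15934704) (l 15705000)) (l 15354064)) (b (l 15784432) (l 15284648))))) (c (b (b (a (l 16017536) (l 16062408)) (a (c (a (l 15844744) (l 15861264)) (l 15818688))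 (l 15671352))) (a (c (a (l 15625120) (l 15642320)) (l 15553784)) (l 15564728))) (b (b (l 16026624) (l 15740152)) (l 15505904)))), by decide +kernel⟩

def k3_pm_101 : ∃ t, chk3 f_pm_101 t 16 15 1 = true :=
  ⟨(a (c (b (a (c (l 15524704) (a (l 15196264) (l 15250576))) (c (a (a (l 15543848) (l 15550768)) (l 15545096)) (a (l 15286320) (l 15303176)))) (a (b (c (l 16425640) (l 15771976)) (c (l 16429968) (l 16317104))) (a (c (b (l 16067840) (l 16341032)) (b (l 15595176) (l 16411952))) (c (b (l 15927688) (l 16400912)) (b (l 15527656) (l 16143664)))))) (a (b (c (a (l 14878608) (a (l 14944536) (l 14981640))) (a (c (l 14635424) (a (l 14430912) (l 14503104))) (l 14675528))) (c (a (b (l 15110664) (l 16426128)) (b (l 15103648) (b (l 15657640) (l 16311216)))) (a (b (c (l 14546968) (l 14171272)) (a (b (l 14568352) (l 16057824)) (c (l 15554344) (l 14855336)))) (b (l 14516920) (c (l 15300544) (l 14792928)))))) (b (c (a (l 15026392) (l 15095328)) (l 14848976)) (c (b (l 15135872) (a (l 15695568) (l 15610784))) (b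 (l 14732184) (l 14919624)))))) (c (b (c (a (a (l 15531992) (l 15531072)) (l 15560512)) (b (l 15428272) (l 15397968))) (c (a (b (l 15792960) (l 16233808)) (b (l 15712728) (l 16024800))) (a (b (l 15495064) (l 15899392)) (l 15604856)))) (b (c (l 15258336) (l 15103728)) (b (l 15142352) (a (l 15363256) (l 15416640)))))), by decide +kernel⟩

def k4_pm_101 : ∃ t, chk3 f_pm_101 t 17 7 1 = true :=
  ⟨(b (b (c (c (a (l 16063392) (a (l 16149696) (l 16197768))) (a (b (l 16142440) (l 15992792)) (l 16156880))) (a (l 16032832) (l 16125840))) (c (a (c (l 15805648) (l 15768576)) (c (a (l 15904336) (b (l 16016200) (l 15896672))) (l 15890008))) (a (l 15686072) (l 15817680)))) (c (b (a (c (l 15643848) (l 15552768)) (a (l 15679472) (l 15723880))) (a (b (l 15621304) (c (l 15856768) (l 15699192))) (c (b (l 15714616) (l 15786144)) (l 15630528)))) (b (a (l 15390880) (l 15534760)) (a (b (l 15330000) (l 15467808)) (l 15463328))))), by decide +kernel⟩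

def k5_pm_101 : ∃ t, chk3 f_pm_101 t 9 7 1 = true :=
  ⟨(b (c (a (b (l 16262536) (a (b (l 16058480) (l 15932696)) (l 16072728))) (b (l 16404760) (a (l 16137192) (l 16182128)))) (a (b (l 16248896) (a (l 15919160) (l 16006056))) (b (l 16379160) (l 16088192)))) (a (a (b (c (l 15777152) (l 15642112)) (c (l 15680336) (l 15534136))) (b (b (l 15839456) (l 15731808)) (l 15653728))) (b (a (b (l 15913976) (l 15791288)) (l 15905392)) (a (a (l 15676240) (l 15680000)) (b (l 15726512) (l 15654736)))))), by decide +kernel⟩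

def k6_pm_101 : ∃ t, chk3 f_pm_101 t 5 1 1 = true :=
  ⟨(b (l 4) (a (b (b (c (a (b (l 16773352) (l 16752560)) (b (l 153243109415) (l 16764184))) (a (b (l 108682728503) (l 16752312)) (b (l 129620737351) (l 16763840)))) (c (b (l 16702208) (a (l 16682320) (l 16722296))) (b (l 16721976) (a (l 16682144) (l 16721304))))) (b (b (c (a (l 16484616) (l 16549920)) (l 16503920)) (a (c (b (l 16306376) (l 16187024)) (l 16209176)) (c (l 16321592) (l 16299416)))) (a (b (c (l 16009696) (l 15957520)) (c (a (l 15761888) (l 15805624)) (l 15712360))) (b (c (b (l 16155120) (l 16042608)) (l 16067088)) (c (l 15879560) (l 15834472)))))) (a (b (b (b (l 4) (c (l 16767768) (l 103850907191))) (c (l 16748392) (b (l 16746696) (l 16748320)))) (b (c (l 16285056) (l 16422232)) (b (b (l 16222000) (l 16116912)) (c (l 15976744) (l 15950056))))) (b (b (l 4) (c (b (l 16750816) (l 16758488)) (b (l 16750128) (l 16758008)))) (b (c (l 16520816) (l 16514152)) (c (b (l 16218832) (l 16026504)) (l 15979232))))))), by decide +kernel⟩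

def k7_pm_101 : ∃ t, chk3 f_pm_101 t 3 1 1 = true :=
  ⟨(b (l 4) (b (a (b (l 4) (b (a (c (l 128010087591) (a (l 16750128) (l 4))) (l 4)) (b (a (c (l 16737632) (l 16736600)) (l 4)) (a (c (l 16774976) (l 16774920)) (c (l 125862565751) (l 154853591607)))))) (l 4)) (b (a (a (c (b (l 16622568) (l 16419088)) (b (l 16618552) (l 16409792))) (c (a (l 16478904) (l 16311128)) (c (l 16390024) (l 16323776)))) (a (b (a (c (l 16622568) (l 16597584)) (l 4)) (c (l 16356176) (l 39224168103))) (a (a (c (l 639445857495) (l 675953045223)) (l 1)) (l 1)))) (a (a (c (b (l 16218888) (l 16026576)) (b (l 16204384) (l 16007080))) (c (b (l 16218888) (l 16026576)) (b (l 16204384) (l 16007080)))) (c (a (b (l 16218888) (l 16026576)) (b (a (l 16218888) (l 16218888)) (l 16026576))) (a (b (l 16204384) (l 16007080)) (b (l 60161751703) (l 16007080)))))))), by decide +kernel⟩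

theorem s8_pm_101 : ∃ t, chk3 f_pm_101 t 16 7 1 = true := ex3_b k2_pm_101 k3_pm_101

theorem s9_pm_101 : ∃ t, chk3 f_pm_101 t 8 7 1 = true := ex3_a s8_pm_101 k4_pm_101

theorem s10_pm_101 : ∃ t, chk3 f_pm_101 t 4 7 1 = true := ex3_a s9_pm_101 k5_pm_101

theorem s11_pm_101 : ∃ t, chk3 f_pm_101 t 4 3 1 = true := ex3_b k1_pm_101 s10_pm_101

theorem s12_pm_101 : ∃ t, chk3 f_pm_101 t 4 1 1 = true := ex3_b k0_pm_101 s11_pm_101

theorem s13_pm_101 : ∃ t, chk3 f_pm_101 t 2 1 1 = true := ex3_a s12_pm_101 k6_pm_101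

theorem s14_pm_101 : ∃ t, chk3 f_pm_101 t 1 1 1 = true := ex3_a s13_pm_101 k7_pm_101

theorem c_pm_101 : CertFX 536870912 536870912 536870912 536870912 1046898278 26843546 false true false .npn 1 0 1
    ndF0q1 ndF1q1 pcF0 Cut.none Ext.none :=
  certFX2 (fam := false) (s1 := true) (s2 := false) (a := 1) (b := 0) (c := 1) (cn := .npn) (n1 := ndF0q1) (n2 := ndF1q1) (pc := pcF0) (cut := Cut.none) (xt := Ext.none) (P1 := 536870912) (W1 := 536870912) (P2 := 536870912) (W2 := 536870912) (P3 := 1046898278) (W3 := 26843546)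
    rfl (fun _ => rfl) s14_pm_101

end Pool.Agent.Strip051.G.IE1.Tab.C.FB01

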