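import Pool.Agent.Strip051.G.IE1.Tab

/-! # Certificates F29 (generated) -/

set_option linter.all false
set_option maxRecDepth 100000

namespace Pool.Agent.Strip051.G.IE1.Tab.C.FB01

open Pool.Agent.Strip051.PB Pool.Agent.Strip051.PB.T
open Pool.Agent.Strip051.G.IE1.Tab

noncomputable def f_pm_102_a : ℕ → ℕ → ℕ → ℕ → Bool := onCell 536870912 536870912 0 420477299 1046898278 26843546
    (rowFX 0 false true false .npp 1 0 2 (qsf 536870912 536870912 0 420477299 0) ndF0q1 ndF1q2a pcF0 Cut.none Ext.none)

def k0_pm_102_a : ∃ t, chk3 f_pm_102_a t 4 2 1 = true :=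
  ⟨(l 2), by decide +kernel⟩

def k1_pm_102_a : ∃ t, chk3 f_pm_102_a t 20 4 1 = true :=
  ⟨(a (l 2) (a (l 2) (b (a (l 2) (c (c (c (b (l 16777216) (l 16777216)) (b (l 16777216) (l 16777216))) (b (c (l 16777216) (l 16777216)) (c (l 16777216) (l 16777216)))) (c (c (b (l 16777216) (l 16777216)) (b (l 16777216) (l 16777216))) (c (b (l 16777216) (l 16777216)) (b (l 16777216) (l 16777216)))))) (c (c (c (b (l 16777216) (l 16777216)) (b (l 16777216) (l 16777216))) (c (b (l 16777216) (l 16777216)) (b (l 16777216) (l 16777216)))) (c (c (b (l 16777216) (l 16777216)) (b (l 16777216) (l 16777216))) (c (b (l 16777216) (l 16777216)) (l 16777216))))))), by decide +kernel⟩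

def k2_pm_102_a : ∃ t, chk3 f_pm_102_a t 42 8 1 = true :=
  ⟨(c (c (c (b (a (c (l 16777216) (l 16777216)) (c (a (l 16777216) (l 16777216)) (c (l 16777216) (l 16777216)))) (a (l 16777216) (c (l 16777216) (l 16777216)))) (b (a (c (l 16777216) (b (l 16777216) (l 16777216))) (a (c (l 16777216) (l 16777216)) (b (c (l 16777216) (l 16777216)) (l 16777216)))) (a (c (l 16777216) (l 16777216)) (c (l 16777216) (l 16777216))))) (c (b (a (c (b (l 16777216) (l 16777216)) (l 16777216)) (a (c (l 16777216) (l 16777216)) (c (l 16777216) (l 16777216)))) (a (c (l 16777216) (l 16777216)) (c (l 16777216) (l 16777216)))) (b (a (c (l 16777216) (l 16777216)) (a (c (l 16777216) (l 16777216)) (c (l 16777216) (l 16777216)))) (a (c (l 16777216) (l 16777216)) (c (l 16777216) (l 16777216)))))) (c (c (b (a (c (l 16777216) (l 16777216)) (a (a (l 16777216) (l 16777216)) (c (l 16777216) (l 16777216)))) (a (c (l 16777216) (l 16777216)) (c (l 16777216) (l 16777216)))) (b (a (c (l 16777216) (l 16777216)) (c (b (l 16777216) (l 16777216)) (b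 (l 16777216) (l 16777216)))) (a (l 16777216) (c (l 16777216) (l 16777216))))) (c (b (a (c (l 16777216) (l 16777216)) (c (l 16777216) (l 16777216))) (a (l 16777216) (l 16777216))) (b (a (c (l 16777216) (l 16777216)) (c (l 16777216) (l 16777216))) (a (l 16777216) (l 16777216)))))), by decide +kernel⟩

def k3_pm_102_a : ∃ t, chk3 f_pm_102_a t 172 16 1 = true :=
  ⟨(c (c (c (c (c (l 16777216) (l 16777216)) (c (l 16810770439) (l 16777216))) (c (c (l 16777216) (l 16777216)) (c (l 16777216) (l 16777216)))) (c (b (c (l 9294577671) (l 16777216)) (l 16777216)) (b (c (l 16777216) (l 16777216)) (l 16777216)))) (c (c (b (c (l 16777216) (l 16777216)) (l 16777216)) (c (l 16777216) (l 16777216))) (c (c (l 16777216) (l 16777216)) (c (l 16777216) (l 16777216))))), by decide +kernel⟩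

def k4_pm_102_a : ∃ t, chk3 f_pm_102_a t 173 16 1 = true :=
  ⟨(b (b (b (a (b (a (a (c (c (c (l 16777216) (l 16777216)) (c (l 16777216) (l 16777216))) (c (c (l 16777216) (l 16777216)) (c (l 16777216) (l 16777216)))) (l 3)) (l 3)) (c (c (c (c (l 16777216) (l 16777216)) (c (l 16777216) (l 16777216))) (c (c (l 16777216) (l 16777216)) (c (l 16777216) (l 16777216)))) (c (c (c (l 16777216) (l 16777216)) (l 16777216)) (c (a (l 16777216) (l 16777216)) (a (l 16777216) (l 245517778631)))))) (l 3)) (a (c (c (c (c (l 16777216) (l 16777216)) (c (l 16777216) (l 16777216))) (c (c (l 16777216) (l 16777216)) (l 4999610375))) (c (c (l 16777216) (l 16777216)) (c (l 16777216) (l 16777216)))) (c (c (c (c (a (l 16777216) (l 16777216)) (a (l 16777216) (l 16777216))) (c (a (l 16777216) (l 16777216)) (a (l 16777216) (l 16777216)))) (c (c (a (l 16777216) (l 16777216)) (a (l 16777216) (l 16777216))) (c (l 16777216) (l 16777216)))) (a (c (c (l 16777216) (l 16777216)) (c (l 16777216) (l 16777216))) (b (l 3) (c (c (l 16777216) (l 16777216))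 (c (l 16777216) (l 16777216)))))))) (c (c (c (c (l 16777216) (l 16777216)) (c (l 16777216) (l 16777216))) (c (c (l 16777216) (l 16777216)) (c (l 16777216) (l 16777216)))) (c (c (c (l 16777216) (l 16777216)) (c (l 16777216) (l 16777216))) (c (l 16777216) (l 16777216))))) (c (c (c (c (l 16777216) (l 16777216)) (c (l 16777216) (l 16777216))) (c (c (l 16777216) (l 16777216)) (c (l 16777216) (l 16777216)))) (c (c (c (l 16777216) (l 16777216)) (l 16777216)) (c (l 16777216) (l 16777216))))), by decide +kernel⟩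

def k5_pm_102_a : ∃ t, chk3 f_pm_102_a t 87 32 1 = true :=
  ⟨(a (b (a (c (a (c (c (l 297594257415) (l 295983644679)) (c (l 293836161031) (l 291151806471))) (l 3)) (c (c (l 287930580999) (l 284172484615)) (c (l 280414388231) (l 276119420935)))) (l 3)) (a (c (c (a (c (l 16777216) (l 16777216)) (c (c (l 16777216) (l 16777216)) (c (l 16777216) (l 16777216)))) (c (a (l 16777216) (c (l 16777216) (l 16777216))) (c (l 16777216) (l 16777216)))) (c (c (c (l 16777216) (l 16777216)) (b (l 16777216) (l 16777216))) (c (c (l 16777216) (l 16777216)) (b (b (a (l 16777216) (l 262160776903)) (l 16777216)) (l 16777216))))) (b (a (a (b (l 3) (c (c (c (l 16777216) (l 16777216)) (c (l 16777216) (l 16777216))) (c (c (l 16777216) (l 16777216)) (c (l 16777216) (l 16777216))))) (l 3)) (l 3)) (c (c (c (c (l 16777216) (l 16777216)) (c (l 16777216) (l 16777216))) (c (c (l 16777216) (l 16777216)) (c (l 16777216) (l 16777216)))) (c (c (c (l 16777216) (l 16777216)) (l 16777216)) (c (l 16777216) (l 16777216))))))) (a (a (b (l 3) (b (l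 3) (b (l 3) (c (c (c (c (l 16777216) (l 16777216)) (c (l 16777216) (l 16777216))) (c (c (l 16777216) (l 16777216)) (l 16777216))) (c (c (l 16777216) (l 16777216)) (c (l 16777216) (l 16777216))))))) (l 3)) (l 3))), by decide +kernel⟩

def k6_pm_102_a : ∃ t, chk3 f_pm_102_a t 87 33 1 = true :=
  ⟨(a (c (c (c (c (l 16777216) (l 16777216)) (c (l 16777216) (l 16777216))) (c (c (l 16777216) (l 16777216)) (c (l 16777216) (l 16777216)))) (c (c (c (l 16777216) (l 16777216)) (c (l 16777216) (l 16777216))) (c (l 16777216) (l 16777216)))) (a (c (c (c (c (l 16777216) (l 16777216)) (c (l 16777216) (l 16777216))) (c (c (l 16777216) (l 16777216)) (c (l 16777216) (l 16777216)))) (c (c (c (l 16777216) (l 16777216)) (l 16777216)) (c (l 16777216) (l 16777216)))) (c (c (a (c (c (l 16777216) (l 16777216)) (c (l 16777216) (l 16777216))) (b (b (a (c (l 16777216) (l 16777216)) (l 3)) (c (l 16777216) (l 16777216))) (c (l 16777216) (l 16777216)))) (c (b (b (c (l 16777216) (l 16777216)) (c (l 16777216) (l 16777216))) (l 16777216))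 (c (c (l 16777216) (l 16777216)) (a (l 16777216) (c (l 16777216) (l 16777216)))))) (c (b (c (b (b (l 282025000967) (c (l 16777216) (l 16777216))) (l 16777216)) (b (b (l 278803775495) (l 16777216)) (l 16777216))) (c (l 16777216) (l 16777216))) (c (b (b (b (l 275045679111) (l 16777216)) (l 16777216)) (l 16777216)) (b (b (b (l 270213840903) (a (l 16777216) (l 16777216))) (l 16777216)) (l 16777216))))))), by decide +kernel⟩

def k7_pm_102_a : ∃ t, chk3 f_pm_102_a t 43 17 1 = true :=
  ⟨(c (c (c (a (c (l 16777216) (l 16777216)) (c (b (l 16777216) (l 16777216)) (b (l 16777216) (l 16777216)))) (a (c (l 16777216) (l 16777216)) (c (b (l 16777216) (l 16777216)) (b (l 16777216) (l 16777216))))) (c (a (c (l 16777216) (l 16777216)) (c (b (l 16777216) (l 16777216)) (b (l 16777216) (l 16777216)))) (a (c (l 16777216) (l 16777216)) (c (b (l 16777216) (l 16777216)) (b (l 16777216) (l 16777216)))))) (c (c (a (c (l 16777216) (l 16777216)) (c (b (l 16777216) (l 16777216)) (b (l 16777216) (l 16777216)))) (a (c (l 16777216) (l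 16777216)) (c (l 16777216) (l 16777216)))) (c (a (c (l 16777216) (l 16777216)) (c (l 16777216) (l 16777216))) (a (l 16777216) (c (l 16777216) (l 16777216)))))), by decide +kernel⟩

def k8_pm_102_a : ∃ t, chk3 f_pm_102_a t 21 9 1 = true :=
  ⟨(c (c (a (c (c (b (l 16777216) (l 16777216)) (b (l 16777216) (l 16777216))) (c (b (l 16777216) (l 16777216)) (b (l 16777216) (l 16777216)))) (c (b (a (l 16777216) (c (l 16777216) (l 16777216))) (a (l 16777216) (l 16777216))) (a (c (l 16777216) (l 16777216)) (b (c (l 16777216) (l 16777216)) (l 16777216))))) (a (c (c (b (l 16777216) (l 16777216)) (b (l 16777216) (l 16777216))) (b (a (l 16777216) (l 16777216)) (a (l 16777216) (l 16777216)))) (c (b (a (c (l 16777216) (l 16777216)) (c (l 16777216) (l 16777216))) (a (l 16777216) (l 16777216))) (b (a (c (l 16777216) (l 16777216)) (c (l 16777216) (l 16777216))) (a (l 16777216) (l 16777216)))))) (c (a (c (c (b (l 16777216) (l 16777216)) (b (l 16777216) (l 16777216))) (b (a (l 16777216) (l 16777216)) (c (l 16777216) (l 16777216))))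 (c (b (a (l 16777216) (c (l 16777216) (l 16777216))) (a (l 16777216) (l 16777216))) (b (a (l 16777216) (c (l 16777216) (l 16777216))) (a (l 16777216) (l 16777216))))) (a (c (b (a (l 16777216) (l 16777216)) (l 16777216)) (b (l 16777216) (l 16777216))) (c (b (a (l 16777216) (l 16777216)) (a (l 16777216) (l 16777216))) (b (a (l 16777216) (l 16777216)) (l 16777216)))))), by decide +kernel⟩

def k9_pm_102_a : ∃ t, chk3 f_pm_102_a t 20 5 1 = true :=
  ⟨(b (a (l 2) (c (a (c (l 16777208) (l 16777208)) (b (b (c (c (l 16777216) (l 16777216)) (c (l 16777216) (l 16777216))) (l 16777208)) (l 16777208))) (a (c (l 16777208) (l 16777208)) (b (b (c (c (l 16777216) (l 16777216)) (c (l 16777216) (l 16777216))) (l 16777208)) (c (l 16777208) (l 16777208)))))) (c (c (a (l 16777200) (l 16777200)) (a (l 16777200) (l 16777200))) (c (c (l 16777200) (l 16777200)) (l 16777200)))), by decide +kernel⟩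

def k10_pm_102_a : ∃ t, chk3 f_pm_102_a t 21 5 1 = true :=
  ⟨(b (b (c (c (a (c (a (b (l 16777216) (l 16777208)) (b (l 16777216) (l 16777208))) (a (b (l 16777216) (l 16777208)) (b (l 16777216) (l 16777208)))) (c (a (l 16777216) (l 16777216)) (a (l 16777216) (l 16777216)))) (a (c (a (b (l 16777216) (l 16777208)) (b (l 16777216) (l 16777208))) (a (b (l 16777216) (l 16777208)) (b (l 16777216) (l 16777208)))) (c (a (l 16777216) (l 16777216)) (a (l 16777216) (l 16777216))))) (c (a (c (a (b (l 16777216) (l 16777208)) (b (l 16777216) (l 16777208))) (a (b (l 16777216) (l 16777208)) (b (l 16777216) (l 16777208)))) (c (a (l 16777216) (l 16777216)) (a (l 16777216) (l 16777216)))) (a (c (a (b (l 16777216) (l 16777208)) (l 16777216)) (a (l 16777216) (l 16777216))) (c (a (l 16777216) (l 16777216)) (l 16777216))))) (a (c (c (l 16777208) (l 16777208)) (c (l 16777208) (l 16777208))) (b (c (c (c (a (l 16777208) (l 16777208)) (a (l 16777208) (l 16777208))) (a (c (l 16777208) (l 16777208)) (c (l 16777208) (l 16777208))))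 (c (c (a (l 16777208) (l 16777208)) (a (l 16777208) (l 16777208))) (c (a (l 16777208) (l 16777208)) (l 16777208)))) (a (c (l 16777208) (l 16777208)) (a (c (l 16777208) (l 16777208)) (c (c (l 16777208) (l 16777208)) (c (l 16777208) (l 16777208)))))))) (c (c (a (l 16777200) (l 16777200)) (a (l 16777200) (l 16777200))) (c (a (l 16777200) (l 16777200)) (c (l 16777200) (l 16777200))))), by decide +kernel⟩

def k11_pm_102_a : ∃ t, chk3 f_pm_102_a t 88 16 1 = true :=
  ⟨(b (l 3) (b (b (l 3) (a (a (c (c (c (c (l 16777216) (b (l 16777216) (l 16777216))) (c (b (l 16777216) (l 16777216)) (b (l 16777216) (l 16777216)))) (c (c (l 16777216) (l 16777216)) (c (l 16777216) (l 16777216)))) (c (c (c (l 16777216) (l 16777216)) (c (l 16777216) (l 16777216))) (c (b (l 258939551751) (l 16777216)) (b (l 255181455367) (l 16777216))))) (l 3)) (l 3))) (a (c (c (c (c (c (l 16777216) (l 16777216)) (c (l 16777216) (l 16777216))) (c (c (l 16777216) (l 16777216)) (c (l 16777216) (l 16777216)))) (c (c (c (l 16777216) (l 16777216)) (c (l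 16777216) (l 16777216))) (c (a (l 16777216) (l 16777216)) (l 16777216)))) (c (c (c (l 16777216) (l 16777216)) (c (l 16777216) (l 16777216))) (c (c (l 16777216) (l 16777216)) (c (l 16777216) (c (l 16777216) (l 16777216)))))) (a (c (b (a (c (c (l 16777216) (l 16777216)) (c (l 16777216) (l 281488130055))) (l 3)) (c (c (c (l 16777216) (l 16777216)) (c (l 16777216) (l 16777216))) (c (c (l 16777216) (l 16777216)) (c (l 16777216) (l 16777216))))) (c (b (c (l 280414388231) (l 277730033671)) (c (c (l 16777216) (l 16777216)) (l 16777216))) (b (c (l 274508808199) (l 271287582727)) (c (l 16777216) (l 16777216))))) (a (b (l 3) (c (c (c (c (l 16777216) (l 16777216)) (c (l 16777216) (l 16777216))) (c (c (l 16777216) (l 16777216)) (l 16777216))) (c (c (l 16777216) (l 16777216)) (c (l 258939551751) (l 255181455367))))) (l 3)))))), by decide +kernel⟩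

def k12_pm_102_a : ∃ t, chk3 f_pm_102_a t 88 17 1 = true :=
  ⟨(c (c (b (c (a (c (l 16777216) (l 16777216)) (c (b (l 16777216) (l 16777216)) (b (l 16777216) (l 16777216)))) (a (c (l 16777216) (l 16777216)) (c (b (l 16777216) (l 16777216)) (l 6073352199)))) (c (c (l 16777216) (l 16777216)) (c (l 16777216) (l 16777216)))) (c (a (b (c (l 16777216) (l 16777216)) (l 16777216)) (b (c (l 16777216) (l 16777216)) (l 16777216))) (a (c (l 16777216) (l 16777216)) (b (c (l 16777216) (l 16777216)) (l 16777216))))) (c (c (a (c (l 16777216) (l 16777216)) (c (l 10905190407) (l 16777216))) (c (b (l 16777216) (l 16777216)) (b (l 16777216) (l 16777216)))) (c (c (l 15737028599) (l 16777216)) (c (l 16777216) (l 28085059431))))), by decide +kernel⟩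

def k13_pm_102_a : ∃ t, chk3 f_pm_102_a t 89 16 1 = true :=
  ⟨(l 3), by decide +kernel⟩

def k14_pm_102_a : ∃ t, chk3 f_pm_102_a t 89 68 1 = true :=
  ⟨(a (b (b (l 3) (a (a (c (c (c (c (l 16777216) (l 16777216)) (c (l 16777216) (l 16777216))) (c (c (l 16777216) (l 16777216)) (l 16777216))) (c (c (l 16777216) (l 16777216)) (c (l 16777216) (l 16777216)))) (l 3)) (l 3))) (c (c (c (c (a (l 16777216) (a (l 16777216) (l 16777216))) (a (l 16777216) (a (l 16777216) (l 16777216)))) (a (c (l 16777216) (l 16777216)) (a (c (l 16777216) (l 16777216)) (c (l 16777216) (l 16777216))))) (c (a (c (l 16777216) (l 16777216)) (c (b (l 16777216) (l 16777216)) (l 16777216))) (a (c (l 16777216) (l 16777216)) (c (l 16777216) (l 16777216))))) (c (c (c (l 16777216) (l 16777216)) (c (l 16777216) (l 16777216))) (c (a (l 16777216) (b (l 270750711815) (l 16777216))) (a (l 16777216) (b (l 266992615431) (l 16777216))))))) (l 3)), by decide +kernel⟩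

def k15_pm_102_a : ∃ t, chk3 f_pm_102_a t 89 69 1 = true :=
  ⟨(a (c (c (c (c (l 16810770439) (l 14126415879)) (c (l 16777216) (l 16777216))) (c (c (l 16777216) (l 16777216)) (c (l 16777216) (l 16777216)))) (c (c (c (l 16777216) (l 16777216)) (l 16777216)) (c (l 16777216) (l 16777216)))) (a (c (c (a (c (c (l 16777216) (l 16777216)) (c (l 16777216) (l 16777216))) (c (b (c (l 16777216) (l 16777216)) (c (l 16777216) (l 16777216))) (b (c (l 16777216) (l 16777216)) (c (l 16777216) (l 16777216))))) (c (b (c (b (l 16777216) (l 16777216)) (b (l 16777216) (l 16777216))) (c (l 16777216) (l 16777216))) (b (c (l 16777216) (l 16777216)) (l 16777216)))) (c (c (c (l 16777216) (l 16777216)) (l 16777216)) (c (l 16777216) (b (b (l 251960229575) (l 16777216)) (l 16777216))))) (b (l 3) (c (c (a (c (c (l 16777216) (l 16777216)) (c (l 16777216) (l 16777216))) (b (l 3) (c (c (l 16777216) (l 16777216)) (c (l 16777216) (l 16777216))))) (c (c (b (l 16777216) (l 16777216)) (b (l 16777216) (l 16777216))) (c (l 16777216) (l 16777216))))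 (c (c (c (l 16777216) (l 16777216)) (l 16777216)) (c (l 16777216) (l 16777216))))))), by decide +kernel⟩

def k16_pm_102_a : ∃ t, chk3 f_pm_102_a t 89 35 1 = true :=
  ⟨(c (c (c (a (c (l 16777216) (l 16777216)) (a (c (l 16777216) (l 16777216)) (c (l 16777216) (l 16777216)))) (a (c (l 16777216) (l 16777216)) (c (b (l 16777216) (l 16777216)) (b (l 16777216) (l 16777216))))) (c (c (a (l 16777216) (b (l 16777216) (l 16777216))) (a (l 16777216) (l 16777216))) (c (a (l 16777216) (l 16777216)) (a (l 16777216) (l 16777216))))) (c (c (c (a (l 16777216) (l 16777216)) (l 16777216)) (c (l 16777216) (l 16777216))) (c (c (l 16777216) (l 16777216)) (l 16777216)))), by decide +kernel⟩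

def k17_pm_102_a : ∃ t, chk3 f_pm_102_a t 45 16 1 = true :=
  ⟨(l 3), by decide +kernel⟩

def k18_pm_102_a : ∃ t, chk3 f_pm_102_a t 180 17 1 = true :=
  ⟨(b (a (a (b (l 3) (b (l 3) (c (c (c (c (l 16777216) (l 16777216)) (c (l 16777216) (l 16777216))) (c (c (l 16777216) (l 16777216)) (l 16777216))) (c (c (l 16777216) (l 16777216)) (c (l 270213840903) (l 266455744519)))))) (l 3)) (l 3)) (a (c (c (c (a (c (l 16777216) (l 16777216)) (c (l 16777216) (l 16777216))) (c (l 2852126727) (l 16777216))) (c (c (l 16777216) (l 16777216)) (c (l 16777216) (l 16777216)))) (c (c (l 16777216) (l 16777216)) (c (l 16777216) (l 16777216)))) (b (b (a (c (c (c (c (l 16777216) (l 16777216)) (c (l 16777216) (l 16777216))) (c (c (l 16777216) (l 16777216)) (c (l 16777216) (l 16777216)))) (c (c (l 16777216) (l 16777216)) (c (l 16777216) (l 252497100487)))) (l 3)) (c (c (c (c (c (l 16777216) (l 16777216)) (c (l 16777216) (l 16777216))) (c (c (l 16777216) (l 16777216)) (c (l 16777216) (l 16777216)))) (c (c (a (l 16777216) (l 16777216))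 (l 16777216)) (c (l 16777216) (l 16777216)))) (c (c (l 16777216) (l 16777216)) (c (l 16777216) (l 16777216))))) (c (c (c (c (l 16777216) (l 16777216)) (c (l 16777216) (l 16777216))) (c (c (l 16777216) (l 16777216)) (c (l 16777216) (l 16777216)))) (c (c (l 16777216) (l 16777216)) (c (l 16777216) (l 16777216))))))), by decide +kernel⟩

def k19_pm_102_a : ∃ t, chk3 f_pm_102_a t 181 17 1 = true :=
  ⟨(b (l 3) (b (a (b (l 3) (a (b (l 3) (c (c (c (c (l 16777216) (l 16777216)) (c (l 16777216) (l 16777216))) (c (c (l 16777216) (l 16777216)) (c (l 16777216) (l 16777216)))) (c (c (l 16777216) (l 16777216)) (c (l 16777216) (l 16777216))))) (l 3))) (l 3)) (a (c (c (c (c (l 16777216) (l 16777216)) (c (l 16777216) (l 16777216))) (c (c (l 16777216) (l 16777216)) (c (l 16777216) (l 16777216)))) (c (c (l 16777216) (l 16777216)) (c (l 16777216) (l 16777216)))) (c (c (c (c (b (b (l 16777216) (a (l 16777216) (l 16777216))) (l 16777216)) (b (b (l 16777216) (a (l 16777216) (l 16777216))) (l 16777216))) (b (c (b (l 16777216)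 (a (l 16777216) (l 16777216))) (b (l 16777216) (a (l 16777216) (l 16777216)))) (c (l 16777216) (l 16777216)))) (c (b (c (b (l 16777216) (a (l 16777216) (l 16777216))) (b (l 16777216) (l 16777216))) (c (l 16777216) (l 16777216))) (b (c (l 16777216) (l 16777216)) (c (l 16777216) (l 16777216))))) (c (c (c (l 16777216) (l 16777216)) (l 16777216)) (c (l 16777216) (b (l 235854101879) (l 16777216)))))))), by decide +kernel⟩

def k20_pm_102_a : ∃ t, chk3 f_pm_102_a t 91 17 1 = true :=
  ⟨(a (a (b (l 3) (b (l 3) (b (l 3) (c (c (a (c (c (b (l 16777216) (l 16777216)) (b (l 16777216) (l 16777216))) (c (b (l 16777216) (l 16777216)) (b (l 16777216) (l 16777216)))) (b (l 3) (c (c (b (l 16777216) (l 16777216)) (b (l 16777216) (l 16777216))) (c (b (l 16777216) (l 16777216)) (l 16777216))))) (c (c (b (l 16777216) (a (l 16777216) (l 16777216))) (b (l 16777216) (l 16777216))) (c (l 16777216) (l 16777216)))) (c (c (c (l 16777216) (l 16777216)) (l 16777216)) (c (l 16777216) (l 16777216))))))) (l 3)) (l 3)), by decide +kernel⟩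

def k21_pm_102_a : ∃ t, chk3 f_pm_102_a t 44 9 2 = true :=
  ⟨(c (c (b (a (c (l 16777216) (l 16777216)) (c (l 16777216) (b (l 16777216) (l 16777216)))) (a (l 16777216) (l 16777216))) (b (a (c (l 16777216) (l 16777216)) (b (a (l 16777216) (l 16777216)) (l 16777216))) (a (l 16777216) (c (l 16777216) (l 16777216))))) (c (b (a (c (l 16777216) (l 16777216)) (b (a (l 16777216) (l 16777216)) (l 16777216))) (a (l 16777216) (c (l 16777216) (l 16777216)))) (b (a (c (l 16777216) (l 16777216)) (c (l 16777216) (l 16777216))) (a (l 16777216) (l 16777216))))), by decide +kernel⟩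

def k22_pm_102_a : ∃ t, chk3 f_pm_102_a t 90 9 2 = true :=
  ⟨(c (b (c (b (c (a (l 16777216) (b (l 16777216) (l 16777216))) (a (l 16777216) (b (l 16777216) (l 16777216)))) (c (l 16777216) (l 16777216))) (b (c (a (l 16777216) (b (l 16777216) (l 16777216))) (a (l 16777216) (l 16777216))) (c (l 16777216) (l 16777216)))) (c (c (l 16777216) (l 16777216)) (c (l 16777216) (l 16777216)))) (c (b (a (c (l 16777216) (l 16777216)) (b (c (l 16777216) (l 16777216)) (l 16777216))) (c (l 16777216) (l 16777216))) (b (a (c (l 16777216) (l 16777216)) (b (c (l 16777216) (l 16777216)) (l 16777216))) (c (l 16777216) (l 16777216))))), by decide +kernel⟩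

def k23_pm_102_a : ∃ t, chk3 f_pm_102_a t 91 9 2 = true :=
  ⟨(b (b (a (c (c (a (b (c (l 22179479559) (l 16777216)) (l 16777216)) (c (c (l 16777216) (l 16777216)) (c (l 16777216) (l 16777216)))) (c (c (a (l 16777216) (l 16777216)) (l 16777216)) (c (l 16777216) (l 16777216)))) (c (c (c (l 16777216) (l 16777216)) (c (l 16777216) (l 16777216))) (c (a (l 16777216) (l 16777216)) (l 16777216)))) (b (a (c (b (c (c (l 16777216) (l 16777216)) (c (l 16777216) (l 16777216))) (a (c (c (l 16777216) (l 16777216)) (c (l 16777216) (l 16777216))) (c (c (b (l 16777216) (l 16777216)) (b (l 16777216) (l 16777216))) (c (b (l 16777216) (l 16777216)) (b (l 16777216) (l 16777216)))))) (c (b (c (l 16777216) (l 16777216)) (c (a (l 16777216) (b (l 16777216) (l 16777216))) (a (l 16777216) (l 16777216)))) (b (l 16777216) (c (l 16777216) (l 16777216))))) (a (b (l 3) (b (l 3) (c (c (c (l 16777216) (l 16777216)) (c (l 16777216) (l 16777216))) (c (c (l 16777216) (l 16777216)) (l 16777216))))) (l 3))) (c (c (c (c (l 16777216) (l 16777216))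 (c (l 16777216) (l 16777216))) (c (c (l 16777216) (l 16777216)) (c (l 16777216) (l 16777216)))) (c (c (c (l 16777216) (l 16777216)) (a (l 16777216) (l 16777216))) (c (l 16777216) (l 16777216)))))) (c (c (c (a (l 16777216) (l 16777216)) (a (l 16777216) (l 16777216))) (c (a (l 16777216) (l 16777216)) (a (l 16777216) (l 16777216)))) (c (c (a (l 16777216) (l 16777216)) (a (l 16777216) (l 16777216))) (c (a (l 16777216) (l 16777216)) (l 16777216))))) (c (c (c (l 16777216) (l 16777216)) (b (c (l 16777216) (l 16777216)) (l 16777216))) (c (b (c (l 16777216) (l 16777216)) (l 16777216)) (c (l 16777216) (l 16777216))))), by decide +kernel⟩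

def k24_pm_102_a : ∃ t, chk3 f_pm_102_a t 22 9 3 = true :=
  ⟨(a (c (c (b (a (c (l 16777216) (l 16777216)) (c (l 16777216) (l 16777216))) (a (l 16777216) (l 16777216))) (b (a (c (l 16777216) (l 16777216)) (c (l 16777216) (l 16777216))) (a (l 16777216) (l 16777216)))) (c (b (a (l 16777216) (c (l 16777216) (l 16777216))) (a (l 16777216) (l 16777216))) (b (a (l 16777216) (l 16777216)) (a (l 16777216) (l 16777216))))) (b (a (c (c (c (b (l 16777216) (l 16777216)) (b (l 16777216) (l 16777216))) (c (l 16777216) (l 16777216))) (c (c (l 16777216) (l 16777216)) (c (l 16777216) (l 16777216)))) (b (c (a (c (c (l 16777216) (l 16777216)) (l 16777216)) (c (b (b (l 279340646407) (c (l 16777216) (l 16777216))) (c (l 16777216) (l 16777216))) (b (b (l 275582550023) (a (l 16777216) (l 266455744503))) (l 16777216)))) (c (b (a (l 16777216) (b (l 271824453639) (a (l 16777216) (l 262160777175)))) (l 16777216)) (b (a (l 16777216) (b (l 267529486343) (a (l 16777216) (l 257865809927)))) (l 16777216)))) (c (c (c (l 16777216) (l 16777216))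 (c (l 16777216) (l 16777216))) (c (l 16777216) (l 16777216))))) (c (c (a (c (l 16777216) (l 16777216)) (c (l 16777216) (l 16777216))) (a (l 16777216) (c (l 16777216) (l 16777216)))) (c (a (l 16777216) (l 16777216)) (a (l 16777216) (l 16777216)))))), by decide +kernel⟩

def k25_pm_102_a : ∃ t, chk3 f_pm_102_a t 23 8 1 = true :=
  ⟨(l 3), by decide +kernel⟩

def k26_pm_102_a : ∃ t, chk3 f_pm_102_a t 184 9 2 = true :=
  ⟨(b (b (b (l 3) (a (b (a (b (l 3) (c (c (c (b (l 16777216) (l 16777216)) (b (l 16777216) (l 16777216))) (c (b (l 16777216) (l 16777216)) (b (l 16777216) (l 16777216)))) (c (c (l 16777216) (l 16777216)) (c (l 16777216) (l 16777216))))) (l 3)) (c (c (c (c (l 16777216) (l 16777216)) (c (l 16777216) (l 16777216))) (c (c (l 16777216) (l 16777216)) (c (l 16777216) (l 16777216)))) (c (c (c (l 16777216) (l 16777216)) (l 16777216)) (c (l 16777216) (l 16777216))))) (b (l 3) (b (l 3) (c (c (a (c (b (l 16777216) (l 16777216)) (b (l 16777216) (l 16777216))) (c (l 16777216) (l 16777216))) (c (a (b (l 16777216)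 (l 16777216)) (l 16777216)) (a (b (l 16777216) (l 16777216)) (l 16777216)))) (c (c (a (l 16777216) (l 16777216)) (l 16777216)) (c (l 16777216) (l 16777216)))))))) (c (c (c (b (c (l 15737028615) (l 14126415879)) (l 16777216)) (b (c (l 13052674039) (l 16777216)) (l 16777216))) (c (b (a (l 16777216) (l 6610223095)) (l 16777216)) (c (l 13589544951) (l 13052674039)))) (c (a (c (l 16777216) (l 16777216)) (c (l 10905190391) (l 16777216))) (c (l 10905190391) (l 16777216))))) (c (c (c (l 16777216) (l 16777216)) (c (l 16777216) (l 16777216))) (c (c (l 16777216) (l 16777216)) (b (l 16777216) (l 16777216))))), by decide +kernel⟩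

def k27_pm_102_a : ∃ t, chk3 f_pm_102_a t 185 9 2 = true :=
  ⟨(b (a (b (l 3) (c (c (b (b (c (b (l 16777216) (a (l 16777216) (l 16777216))) (b (l 16777216) (a (l 16777216) (l 16777216)))) (c (l 16777216) (l 16777216))) (c (l 16777216) (l 16777216))) (b (b (c (b (l 16777216) (a (l 16777216) (l 16777216))) (b (l 16777216) (a (l 16777216) (l 16777216)))) (c (l 16777216) (l 16777216))) (c (l 16777216) (l 16777216)))) (c (a (c (l 16777216) (l 16777216)) (b (b (c (l 16777216) (l 16777216)) (c (l 16777216) (l 16777216))) (c (l 16777216) (l 16777216)))) (c (c (l 16777216) (l 16777216)) (a (l 16777216) (l 16777216)))))) (b (l 3) (b (b (l 3) (c (b (a (b (l 3) (c (c (l 16777216) (l 16777216)) (c (l 16777216) (l 16777216)))) (l 3)) (c (c (a (l 16777216) (b (l 16777216) (l 16777216))) (a (l 16777216) (b (l 16777216) (l 16777216)))) (c (a (l 16777216) (b (l 16777216) (l 16777216))) (a (l 16777216) (b (l 16777216) (l 16777216)))))) (c (c (b (l 16777216) (a (l 16777216) (l 16777216))) (b (l 16777216) (l 16777216))) (c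 (l 16777216) (l 16777216))))) (c (c (c (b (l 16777216) (l 16777216)) (b (l 16777216) (l 16777216))) (c (l 16777216) (l 16777216))) (c (c (l 16777216) (l 16777216)) (c (l 16777216) (l 16777216))))))) (c (c (b (c (l 16777216) (l 16777216)) (l 16777216)) (b (c (l 16777216) (l 16777216)) (l 16777216))) (c (b (c (l 16777216) (l 16777216)) (l 16777216)) (b (c (l 16777216) (l 16777216)) (l 16777216))))), by decide +kernel⟩

def k28_pm_102_a : ∃ t, chk3 f_pm_102_a t 93 18 2 = true :=
  ⟨(b (l 3) (b (l 3) (a (a (c (a (c (c (l 16777216) (l 16777216)) (c (l 16777216) (l 16777216))) (b (b (l 3) (c (c (a (l 16777216) (l 16777216)) (a (l 16777216) (l 16777216))) (c (a (l 16777216) (l 16777216)) (l 16777216)))) (c (c (l 16777216) (l 16777216)) (c (l 16777216) (l 16777216))))) (c (c (b (a (l 16777216) (b (l 3) (l 16777216))) (l 16777216)) (b (a (l 16777216) (l 16777216)) (l 16777216))) (c (b (l 16777216) (l 16777216)) (l 16777216)))) (c (c (b (c (l 16777216) (l 16777216)) (c (a (l 16777216) (b (l 16777216) (l 16777216)))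 (a (l 16777216) (b (l 16777216) (l 16777216))))) (b (c (l 16777216) (l 16777216)) (c (a (l 16777216) (b (l 16777216) (l 16777216))) (a (l 16777216) (b (l 16777216) (l 16777216)))))) (c (b (c (l 16777216) (l 16777216)) (c (a (l 16777216) (b (l 16777216) (l 16777216))) (a (l 16777216) (l 16777216)))) (b (l 16777216) (c (l 16777216) (l 16777216)))))) (a (b (l 3) (a (c (c (c (l 16777216) (l 16777216)) (c (l 16777216) (l 16777216))) (c (c (l 16777216) (l 16777216)) (c (l 16777216) (l 16777216)))) (l 3))) (l 3))))), by decide +kernel⟩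

def k29_pm_102_a : ∃ t, chk3 f_pm_102_a t 93 19 2 = true :=
  ⟨(a (c (c (b (c (c (l 16777216) (l 16777216)) (c (l 16777216) (l 16777216))) (c (l 16777216) (l 16777216))) (b (c (c (l 16777216) (l 16777216)) (a (l 16777216) (l 16777216))) (c (l 16777216) (l 16777216)))) (c (b (c (b (l 16777216) (l 16777216)) (b (l 16777216) (l 16777216))) (l 16777216)) (b (c (l 16777216) (l 16777216)) (l 16777216)))) (c (c (b (b (a (c (c (l 16777216) (l 16777216)) (c (l 16777216) (l 16777216))) (b (a (b (l 3) (c (l 16777216) (l 16777216))) (l 3)) (c (c (l 16777216) (l 16777216)) (c (l 16777216) (l 16777216))))) (c (l 16777216) (l 16777216))) (c (l 16777216) (l 16777216))) (c (b (b (a (c (l 16777216) (l 16777216)) (b (c (l 16777216) (l 16777216)) (c (l 16777216) (l 16777216)))) (l 16777216)) (l 16777216)) (b (b (c (a (l 16777216) (b (l 16777216) (l 16777216))) (a (l 16777216) (b (l 16777216) (l 16777216)))) (l 16777216)) (l 16777216)))) (a (c (b (c (l 2315255799) (l 16777216)) (l 16777216)) (b (c (l 16777216) (l 16777216))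 (l 16777216))) (c (c (a (c (l 6073352167) (l 5536481255)) (c (l 16777216) (l 16777216))) (c (l 16777216) (l 16777216))) (c (c (l 16777216) (l 16777216)) (l 16777216)))))), by decide +kernel⟩

def k30_pm_102_a : ∃ t, chk3 f_pm_102_a t 47 18 2 = true :=
  ⟨(l 3), by decide +kernel⟩

def k31_pm_102_a : ∃ t, chk3 f_pm_102_a t 94 19 2 = true :=
  ⟨(a (b (b (b (l 3) (a (a (b (l 3) (c (c (c (l 16777216) (l 16777216)) (c (l 16777216) (l 16777216))) (c (c (l 16777216) (l 16777216)) (c (l 16777216) (l 16777216))))) (l 3)) (l 3))) (c (c (c (a (l 16777216) (b (b (l 16777216) (a (l 16777216) (l 16777216))) (l 16777216))) (a (l 16777216) (b (b (l 16777216) (a (l 16777216) (l 16777216))) (l 16777216)))) (a (c (l 16777216) (l 16777216)) (b (c (b (l 16777216) (a (l 16777216) (l 16777216))) (b (l 16777216) (a (l 16777216) (l 16777216)))) (c (l 16777216) (l 16777216))))) (c (c (a (l 16777216) (b (a (l 16777216) (l 16777216)) (l 16777216))) (a (l 16777216) (b (b (l 16777216) (l 16777216)) (l 16777216)))) (c (a (l 16777216)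 (b (l 16777216) (l 16777216))) (a (l 16777216) (l 16777216)))))) (c (b (c (c (l 16777216) (l 16777216)) (c (l 16777216) (l 16777216))) (c (l 16777216) (l 16777216))) (c (c (l 16777216) (l 16777216)) (c (l 16777216) (l 16777216))))) (b (a (b (l 3) (b (l 3) (c (c (c (a (b (l 16777216) (l 16777216)) (l 16777216)) (a (b (l 16777216) (l 16777216)) (l 16777216))) (c (a (b (l 16777216) (l 16777216)) (l 16777216)) (a (b (l 16777216) (l 16777216)) (l 16777216)))) (c (c (a (l 16777216) (l 16777216)) (a (l 16777216) (l 16777216))) (c (l 16777216) (l 16777216)))))) (l 3)) (c (c (c (c (l 16777216) (l 16777216)) (c (l 16777216) (l 16777216))) (c (c (l 16777216) (l 16777216)) (a (l 16777216) (l 16777216)))) (c (a (c (l 16777216) (l 16777216)) (c (l 16777216) (l 16777216))) (c (l 16777216) (l 16777216)))))), by decide +kernel⟩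

def k32_pm_102_a : ∃ t, chk3 f_pm_102_a t 95 19 2 = true :=
  ⟨(b (l 3) (b (b (l 3) (a (c (c (a (c (a (l 16777216) (l 16777216)) (a (l 16777216) (l 16777216))) (c (l 16777216) (l 16777216))) (a (c (a (l 16777216) (l 16777216)) (a (l 16777216) (l 16777216))) (c (l 16777216) (l 16777216)))) (c (a (c (a (l 16777216) (l 16777216)) (l 16777216)) (c (l 16777216) (l 16777216))) (a (c (l 16777216) (l 16777216)) (l 16777216)))) (l 3))) (c (c (c (a (l 16777216) (a (b (l 16777216) (l 16777216)) (l 16777216))) (a (l 16777216) (a (b (l 16777216) (l 16777216)) (l 16777216)))) (c (a (l 16777216) (a (b (l 16777216) (l 16777216)) (l 16777216))) (a (l 16777216) (a (b (l 16777216) (l 16777216)) (l 16777216))))) (c (c (a (l 16777216) (a (b (l 16777216) (l 16777216)) (l 16777216))) (a (l 16777216) (a (b (l 16777216) (l 16777216)) (l 16777216)))) (c (a (l 16777216) (a (b (l 16777216) (l 16777216)) (l 16777216))) (a (l 16777216) (a (l 16777216) (l 16777216)))))))), by decide +kernel⟩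

def k33_pm_102_a : ∃ t, chk3 f_pm_102_a t 46 9 3 = true :=
  ⟨(b (b (a (b (l 3) (a (b (a (c (c (l 16777216) (l 16777216)) (c (l 253033971671) (l 248202132855))) (l 3)) (c (c (c (l 16777216) (l 16777216)) (c (l 16777216) (l 16777216))) (c (l 16777216) (a (l 16777216) (l 239075327351))))) (l 3))) (l 3)) (a (a (c (c (c (l 16777216) (l 16777216)) (l 16777216)) (c (l 16777216) (l 16777216))) (a (c (c (c (l 16777216) (l 16777216)) (l 16777216)) (c (l 16777216) (l 16777216))) (b (b (l 3) (c (c (c (l 16777216) (l 16777216)) (l 16777216)) (c (l 16777216) (l 16777216)))) (c (c (l 16777216) (l 16777216)) (c (l 16777216) (l 16777216)))))) (b (l 3) (a (c (c (c (a (l 16777216) (l 16777216)) (l 16777216)) (c (l 16777216) (l 16777216))) (c (b (a (l 16777216) (l 267529486295)) (l 16777216)) (b (a (l 16777216) (l 262697648135)) (l 16777216)))) (a (b (l 3) (c (c (l 16777216) (l 16777216)) (c (l 16777216) (l 254107712231)))) (l 3)))))) (c (c (c (c (a (l 16777216) (b (l 16777216) (l 16777216))) (a (l 16777216) (l 3925868503)))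 (a (b (l 16777216) (l 16777216)) (a (l 16777216) (l 16777216)))) (c (a (l 16777216) (b (l 16777216) (l 16777216))) (a (l 16777216) (l 7683964887)))) (c (a (c (l 16777216) (l 16777216)) (c (l 16777216) (l 13052673975))) (a (l 16777216) (a (l 16777216) (a (l 16777216) (c (l 16777216) (l 15200157367)))))))), by decide +kernel⟩

def k34_pm_102_a : ∃ t, chk3 f_pm_102_a t 47 9 3 = true :=
  ⟨(b (l 3) (b (a (a (b (a (b (l 3) (c (c (l 16777216) (l 16777216)) (c (l 16777216) (l 16777216)))) (l 3)) (c (c (c (l 16777216) (l 16777216)) (c (l 16777216) (l 16777216))) (c (l 16777216) (l 16777216)))) (a (b (l 3) (b (l 3) (c (c (c (l 16777216) (l 16777216)) (l 16777216)) (c (l 16777216) (l 16777216))))) (l 3))) (l 3)) (a (c (c (c (a (l 16777216) (l 16777216)) (l 16777216)) (c (l 16777216) (l 16777216))) (c (c (l 16777216) (l 16777216)) (l 16777216))) (b (b (l 3) (a (c (c (a (l 16777216) (l 16777216)) (l 16777216)) (c (l 16777216) (a (l 16777216) (l 16777216)))) (l 3))) (c (a (c (c (l 16777216) (l 16777216)) (l 16777216))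 (c (c (l 16777216) (a (l 16777216) (l 16777216))) (b (a (l 16777216) (l 3)) (l 16777216)))) (c (a (l 16777216) (b (l 255718326279) (l 16777216))) (a (l 16777216) (b (l 250349617159) (l 16777216))))))))), by decide +kernel⟩

def k35_pm_102_a : ∃ t, chk3 f_pm_102_a t 22 10 1 = true :=
  ⟨(c (c (a (b (c (a (l 16777216) (l 16777216)) (a (l 16777216) (l 16777216))) (a (b (l 16777208) (c (l 16777208) (l 16777208))) (c (l 16777208) (l 16777208)))) (c (b (a (l 16777216) (l 16777216)) (a (l 16777208) (l 16777208))) (b (a (l 16777216) (l 16777216)) (a (l 16777208) (l 16777208))))) (a (b (c (a (l 16777216) (l 16777216)) (a (l 16777216) (l 16777216))) (a (b (l 16777208) (c (l 16777208) (l 16777208))) (c (l 16777208) (l 16777208)))) (c (b (a (l 16777216) (l 16777216)) (a (l 16777208) (l 16777208))) (b (a (l 16777216) (l 16777216)) (a (l 16777208) (l 16777208)))))) (c (a (b (c (a (l 16777216) (l 16777216)) (a (l 16777216) (l 16777216))) (c (a (b (l 16777208) (l 16777208)) (l 16777208)) (a (l 16777208) (l 16777208))))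 (c (b (a (l 16777216) (l 16777216)) (a (l 16777208) (l 16777208))) (b (a (l 16777216) (l 16777216)) (c (l 16777208) (l 16777208))))) (a (b (c (l 16777216) (l 16777216)) (c (a (l 16777208) (l 16777208)) (l 16777208))) (c (b (a (l 16777216) (l 16777216)) (l 16777208)) (b (l 16777216) (l 16777208)))))), by decide +kernel⟩

def k36_pm_102_a : ∃ t, chk3 f_pm_102_a t 23 10 2 = true :=
  ⟨(c (a (c (c (b (a (l 16777216) (l 16777216)) (l 16777208)) (b (a (l 16777216) (l 16777216)) (l 16777208))) (c (b (a (l 16777216) (l 16777216)) (l 16777208)) (b (a (l 16777216) (l 16777216)) (l 16777208)))) (c (b (a (b (c (l 16777216) (l 16777216)) (l 16777208)) (b (a (c (l 16777216) (l 16777216)) (c (b (l 16777216) (l 16777216)) (b (l 16777216) (l 16777216)))) (c (l 16777208) (l 16777208)))) (a (l 16777208) (b (l 16777208) (l 16777208)))) (b (a (b (c (l 16777216) (l 16777216)) (l 16777208)) (b (a (c (l 16777216) (l 16777216)) (c (b (l 16777216) (l 16777216)) (b (l 16777216) (l 16777216)))) (c (l 16777208) (l 16777208)))) (a (l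 16777208) (b (l 16777208) (l 16777208)))))) (a (c (c (b (a (l 16777216) (l 16777216)) (l 16777208)) (b (a (l 16777216) (l 16777216)) (l 16777208))) (b (a (c (l 16777216) (l 16777216)) (c (l 16777216) (l 16777216))) (a (l 16777208) (l 16777208)))) (c (b (a (b (c (l 16777216) (l 16777216)) (l 16777208)) (b (a (c (l 16777216) (l 16777216)) (c (l 8757706711) (l 16777216))) (c (l 16777208) (l 16777208)))) (a (b (l 16777208) (l 16777208)) (b (l 16777208) (l 16777208)))) (b (a (b (c (l 16777216) (l 16777216)) (l 16777208)) (b (c (a (l 16777216) (l 16777216)) (a (l 16777216) (l 16777216))) (c (l 16777208) (l 16777208)))) (a (l 16777208) (b (l 16777208) (l 16777208))))))), by decide +kernel⟩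

def k37_pm_102_a : ∃ t, chk3 f_pm_102_a t 23 10 3 = true :=
  ⟨(c (a (c (b (a (c (l 16777216) (l 16777216)) (c (l 16777216) (l 16777216))) (a (l 16777208) (l 16777208))) (b (a (l 16777216) (c (l 16777216) (l 16777216))) (a (l 16777208) (l 16777208)))) (c (b (a (c (l 16777216) (l 16777216)) (b (c (l 11442061271) (l 16777216)) (c (l 16777208) (l 16777208)))) (a (l 16777208) (c (l 16777208) (l 16777208)))) (b (a (c (l 16777216) (l 16777216)) (b (c (l 16777216) (l 16777216)) (l 16777208))) (a (l 16777208) (l 16777208))))) (a (c (b (a (l 16777216) (l 16777216)) (a (l 16777208) (l 16777208))) (b (a (l 16777216) (l 16777216)) (l 16777208))) (c (c (b (a (l 16777216) (l 16777216)) (l 16777208)) (b (a (l 16777216) (l 16777216)) (l 16777208))) (b (a (l 16777216) (b (l 16777216) (l 16777208))) (a (l 16777208) (l 16777208)))))), by decide +kernel⟩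

def k38_pm_102_a : ∃ t, chk3 f_pm_102_a t 11 22 1 = true :=
  ⟨(c (b (a (a (a (l 16777208) (c (c (l 16777208) (l 16777208)) (c (l 16777208) (l 16777208)))) (c (c (l 16777208) (a (l 16777208) (l 16777208))) (a (c (l 16777208) (l 16777208)) (l 16777208)))) (c (a (c (l 16777208) (l 16777208)) (c (l 16777208) (l 16777208))) (a (c (l 16777208) (l 16777208)) (c (l 16777208) (l 16777208))))) (a (a (l 16777208) (a (a (l 16777208) (c (l 16777208) (l 16777208))) (c (c (l 16777208) (l 16777208)) (c (l 16777208) (l 16777208))))) (c (a (c (l 16777208) (l 16777208)) (c (l 16777208) (l 16777208))) (a (c (l 16777208) (l 16777208)) (c (l 16777208) (l 16777208)))))) (a (a (a (l 16777208) (b (a (c (l 16777208) (l 16777208)) (c (l 16777208) (l 16777208))) (l 16777208))) (b (c (c (l 16777208) (l 16777208)) (c (l 16777208) (l 16777208))) (c (c (a (l 16777208) (l 16777208)) (a (l 16777208) (l 16777208))) (c (l 16777208) (l 16777208))))) (c (a (c (a (l 16777208) (l 16777208)) (a (l 16777208) (l 16777208))) (c (a (l 16777208)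 (l 16777208)) (a (l 16777208) (l 16777208)))) (a (c (l 16777208) (l 16777208)) (c (l 16777208) (l 16777208)))))), by decide +kernel⟩

def k39_pm_102_a : ∃ t, chk3 f_pm_102_a t 11 23 1 = true :=
  ⟨(c (a (a (l 16777200) (a (l 16777200) (b (c (l 16777200) (l 16777200)) (l 16777200)))) (b (c (a (a (c (l 16777200) (l 16777200)) (l 16777200)) (a (l 16777200) (l 16777200))) (a (a (c (l 16777200) (l 16777200)) (a (l 16777200) (l 16777200))) (a (l 16777200) (l 16777200)))) (a (a (l 16777200) (b (c (l 16777200) (l 16777200)) (l 16777200))) (c (c (l 16777200) (l 16777200)) (c (l 16777200) (l 16777200)))))) (a (b (a (l 16777200) (a (l 16777200) (a (l 16777200) (c (l 16777200) (l 16777200))))) (c (l 16777200) (l 16777200))) (c (a (b (a (c (l 16777200) (l 16777200)) (l 16777200)) (c (l 16777200) (l 16777200))) (c (a (l 16777200) (l 16777200)) (a (l 16777200) (l 16777200)))) (a (c (a (l 16777200) (l 16777200)) (a (l 16777200) (l 16777200))) (c (l 16777200) (l 16777200)))))), by decide +kernel⟩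

def k40_pm_102_a : ∃ t, chk3 f_pm_102_a t 4 3 1 = true :=
  ⟨(a (a (l 2) (a (l 2) (b (l 2) (b (l 2) (b (l 2) (c (l 16439472) (l 185857140679))))))) (a (b (l 2) (b (a (l 2) (b (l 2) (c (l 16681440) (l 16657976)))) (c (c (l 16380840) (a (l 16419248) (l 16461192))) (c (b (l 16567992) (l 16432896)) (b (l 16565328) (l 16428512)))))) (b (a (b (l 2) (c (l 16777176) (l 16777168))) (c (b (l 135392133031) (l 16777176)) (b (l 99421781927) (l 16777168)))) (b (c (b (c (l 16742808) (b (l 16776728) (l 16750432))) (c (l 16682064) (l 16680816))) (b (c (b (l 16776720) (l 16750088)) (b (l 16776712) (l 16749744))) (a (l 16678952) (l 16637008)))) (c (b (l 16571992) (l 16439472)) (b (l 16524720) (l 16346816))))))), by decide +kernel⟩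

def k41_pm_102_a : ∃ t, chk3 f_pm_102_a t 5 3 1 = true :=
  ⟨(b (a (c (a (b (c (l 16777192) (l 16777192)) (c (l 16777176) (l 16777168))) (b (c (l 16777192) (l 16777192)) (c (l 16777176) (l 16777168)))) (c (a (b (l 16777192) (l 16777168)) (b (l 16777192) (l 16777168))) (a (b (l 16777192) (l 16777168)) (b (l 16777192) (l 16777168))))) (a (c (b (c (l 16777192) (l 16777192)) (c (l 16777176) (l 16777168))) (b (c (l 16777192) (l 16777192)) (c (l 16777168) (l 16777168)))) (c (b (a (c (l 16777192) (l 16777192)) (b (b (c (c (l 16777200) (l 16777200)) (a (l 16777200) (c (l 16777200) (l 16777200)))) (l 16777192)) (l 16777184))) (c (l 16777176) (l 16777168))) (b (a (c (l 16777192) (l 16777192)) (b (b (c (a (l 16777200) (c (l 16777200) (l 16777200))) (c (l 16777192) (l 16777192))) (l 16777192)) (l 16777184))) (c (l 16777168) (l 16777168)))))) (b (a (c (b (a (c (l 16763776) (l 16763600)) (c (l 16763776) (l 16763600))) (a (c (l 16682064) (l 16680816)) (c (l 16682064) (l 16680816)))) (b (a (c (l 16763424) (l 16763248))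 (c (l 16763424) (l 16763248))) (a (c (l 16658600) (l 16657360)) (c (l 16679576) (l 16678328))))) (c (b (a (b (l 16776728) (l 16750608)) (b (l 16776728) (l 16750608))) (a (l 16681440) (l 16681440))) (b (a (b (l 16776712) (l 16749912)) (b (l 16776712) (l 16749912))) (a (l 16678952) (l 16657976))))) (a (c (a (b (l 16571992) (l 16439472)) (b (c (l 16573320) (l 16570656)) (l 16439472))) (a (b (l 16566664) (l 16409728)) (b (c (l 16567992) (l 16565328)) (l 16430704)))) (c (b (a (l 16571992) (l 16571992)) (a (l 16439472) (b (l 16475752) (l 16403600)))) (b (a (l 16566664) (l 16566664)) (a (l 16430704) (b (l 16467920) (l 16393896)))))))), by decide +kernel⟩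

def k42_pm_102_a : ∃ t, chk3 f_pm_102_a t 12 4 1 = true :=
  ⟨(a (l 3) (l 3)), by decide +kernel⟩

def k43_pm_102_a : ∃ t, chk3 f_pm_102_a t 48 20 2 = true :=
  ⟨(a (a (c (c (a (b (c (l 16777216) (l 16777216)) (l 16777208)) (c (c (l 16777216) (l 16777216)) (c (l 16777216) (l 16777216)))) (c (a (c (l 10905190359) (l 9831448535)) (c (l 16777216) (l 16777216))) (c (c (l 16777216) (l 16777216)) (c (l 16777216) (l 16777216))))) (c (c (c (c (l 16777216) (l 16777216)) (c (l 16777216) (l 16777216))) (c (c (l 16777216) (l 16777216)) (c (l 16777216) (l 16777216)))) (c (b (b (a (l 16777216) (l 16777216)) (l 16777216)) (l 16777208)) (c (l 16777216) (l 16777216))))) (b (b (l 3) (c (c (a (c (l 16777216) (l 16777216)) (c (l 16777216) (l 16777216))) (a (c (l 16777216) (l 16777216)) (c (l 16777216) (l 16777216)))) (c (a (c (l 16777216) (l 16777216)) (c (l 16777216) (l 16777216))) (a (c (l 16777216) (l 16777216)) (c (l 16777216) (l 16777216)))))) (c (c (c (l 16777208) (l 16777208)) (c (l 16777208) (l 16777208))) (c (c (l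 16777208) (l 16777208)) (c (l 16777208) (l 16777208)))))) (b (l 3) (a (c (c (c (l 16777208) (a (l 16777208) (l 16777208))) (c (a (l 16777208) (l 16777208)) (c (l 16777208) (l 16777208)))) (c (c (c (l 16777208) (l 16777208)) (a (l 16777208) (l 16777208))) (c (a (l 16777208) (l 16777208)) (l 16777208)))) (b (b (l 3) (c (c (a (l 16777208) (l 3)) (l 16777208)) (c (l 16777208) (l 16777208)))) (c (c (c (l 16777208) (l 16777208)) (c (l 16777208) (l 16777208))) (c (c (l 16777208) (l 16777208)) (c (l 16777208) (l 16777208)))))))), by decide +kernel⟩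

def k44_pm_102_a : ∃ t, chk3 f_pm_102_a t 48 21 2 = true :=
  ⟨(c (c (a (c (l 16777208) (l 16777208)) (b (c (l 16777208) (l 16777208)) (l 16777208))) (a (c (l 16777208) (l 16777208)) (b (c (l 16777208) (l 16777208)) (l 16777208)))) (c (c (a (l 16777208) (b (l 16777208) (l 16777208))) (a (l 16777208) (b (l 16777208) (l 16777208)))) (a (c (l 16777208) (l 16777208)) (b (c (l 16777208) (l 16777208)) (l 16777208))))), by decide +kernel⟩

def k45_pm_102_a : ∃ t, chk3 f_pm_102_a t 48 11 2 = true :=
  ⟨(c (c (b (a (l 16777208) (l 16777208)) (l 16777200)) (b (a (l 16777208) (l 16777208)) (a (l 16777200) (l 16777200)))) (c (b (a (l 16777208) (b (l 16777208) (l 16777208))) (a (l 16777200) (l 16777200))) (b (a (l 16777208) (l 16777208)) (a (l 16777200) (l 16777200))))), by decide +kernel⟩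

def k46_pm_102_a : ∃ t, chk3 f_pm_102_a t 48 5 3 = true :=
  ⟨(b (b (a (b (a (c (c (b (c (l 16777216) (l 16777216)) (l 10905190359)) (c (l 16777216) (l 16777216))) (a (c (l 16777216) (l 16777216)) (c (c (l 16777216) (l 16777216)) (b (l 235854101223) (l 16777216))))) (b (l 3) (c (c (c (l 16777216) (l 16777216)) (c (l 16777216) (l 16777216))) (c (l 16777216) (a (l 16777216) (l 16777216)))))) (c (c (c (l 16777208) (l 16777208)) (c (l 16777208) (l 16777208))) (c (c (l 16777208) (l 16777208)) (l 16777208)))) (b (l 3) (a (c (c (c (l 16777208) (l 16777208)) (a (l 16777208) (l 16777208))) (c (l 16777208) (l 16777208))) (b (a (c (c (l 264845131767) (l 260013293559)) (c (l 254644584439) (l 249275875319))) (l 3)) (c (c (c (l 16777208) (l 16777208)) (c (l 16777208) (l 16777208))) (c (l 16777208) (l 16777208))))))) (c (c (a (c (l 16777208) (l 16777208)) (b (c (l 16777208) (l 16777208)) (l 16777208))) (a (c (l 16777208) (l 16777208)) (b (c (l 16777208) (l 16777208)) (l 16777208)))) (c (a (c (l 16777208) (l 16777208))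 (c (l 16777208) (l 16777208))) (a (l 16777208) (a (l 16777208) (l 16777208)))))) (c (c (b (a (l 16777208) (l 16777208)) (a (l 16777200) (l 16777200))) (b (a (l 16777208) (l 16777208)) (a (l 16777200) (l 16777200)))) (c (b (a (l 16777208) (l 16777208)) (l 16777200)) (b (a (l 16777208) (l 16777208)) (l 16777200))))), by decide +kernel⟩

def k47_pm_102_a : ∃ t, chk3 f_pm_102_a t 98 5 1 = true :=
  ⟨(b (a (b (a (b (l 3) (b (l 3) (c (c (c (l 16777208) (l 16777208)) (c (l 16777208) (l 16777208))) (c (c (l 16777208) (l 16777208)) (c (l 244980908023) (l 239612198903)))))) (l 3)) (c (c (c (b (a (l 13589544951) (l 16777208)) (l 16777208)) (b (c (l 16777208) (l 16777208)) (l 16777208))) (c (b (c (l 16777208) (l 16777208)) (l 16777208)) (c (l 5536481271) (l 6073352183)))) (c (c (c (l 16777208) (l 16777208)) (b (l 16777208) (l 16777208))) (c (b (l 16777208) (l 16777208)) (b (l 16777208) (l 16777208)))))) (b (l 3) (b (b (a (c (c (c (l 16777208) (l 16777208)) (c (l 16777208) (l 16777208))) (c (c (l 16777208) (l 16777208))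 (c (l 16777208) (l 16777208)))) (l 3)) (c (c (c (l 16777208) (c (l 16777208) (l 16777208))) (c (c (l 16777208) (l 16777208)) (c (l 16777208) (l 16777208)))) (c (c (l 16777208) (l 16777208)) (c (l 16777208) (l 16777208))))) (c (c (c (l 16777208) (l 16777208)) (c (l 16777208) (l 16777208))) (c (c (l 16777208) (l 16777208)) (c (l 16777208) (l 16777208))))))) (c (c (b (c (b (l 16777208) (l 16777208)) (b (l 16777208) (l 16777208))) (c (l 16777200) (l 16777200))) (b (c (b (l 16777208) (l 16777208)) (b (l 16777208) (l 16777208))) (c (l 16777200) (l 16777200)))) (c (b (c (b (l 16777208) (l 16777208)) (b (l 16777208) (l 16777208))) (c (l 16777200) (l 16777200))) (c (b (b (l 16777208) (l 16777208)) (l 16777200)) (b (l 16777208) (l 16777200)))))), by decide +kernel⟩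

def k48_pm_102_a : ∃ t, chk3 f_pm_102_a t 99 5 1 = true :=
  ⟨(b (b (l 3) (a (b (a (b (l 3) (c (c (c (l 16777208) (l 16777208)) (c (l 16777208) (l 16777208))) (c (c (l 16777208) (l 16777208)) (c (l 16777208) (l 16777208))))) (l 3)) (c (c (c (l 8757706743) (c (l 16777208) (l 16777208))) (c (c (l 16777208) (l 16777208)) (c (l 16777208) (l 16777208)))) (c (c (c (l 16777208) (l 16777208)) (l 9294577655)) (c (l 16777208) (l 16777208))))) (b (l 3) (b (a (c (c (c (l 16777208) (l 16777208)) (c (l 16777208) (l 16777208))) (c (c (l 16777208) (l 16777208)) (c (l 16777208) (l 16777208)))) (l 3)) (c (c (c (l 16777208) (l 16777208)) (c (l 16777208) (l 16777208))) (c (c (l 16777208) (l 16777208)) (c (l 16777208) (l 16777208)))))))) (c (c (b (c (c (l 16777208) (l 16777208)) (c (l 16777208) (l 16777208))) (c (l 16777200) (l 16777200))) (b (c (b (c (l 16777208) (l 16777208)) (l 16777208)) (b (a (l 16777208) (l 16777208)) (l 16777208))) (c (l 16777200) (l 16777200)))) (c (b (c (c (l 16777208) (l 16777208)) (c (l 16777208)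 (l 16777208))) (c (l 16777200) (l 16777200))) (b (c (c (l 16777208) (l 16777208)) (c (l 16777208) (l 16777208))) (c (l 16777200) (l 16777200)))))), by decide +kernel⟩

def k49_pm_102_a : ∃ t, chk3 f_pm_102_a t 25 10 1 = true :=
  ⟨(a (a (a (b (l 3) (b (l 3) (b (l 3) (c (c (c (a (l 16777208) (l 16777208)) (l 16777208)) (c (a (l 16777208) (l 16777208)) (a (l 16777208) (l 16777208)))) (c (c (l 16777208) (l 16777208)) (c (l 16777208) (l 16777208))))))) (l 3)) (l 3)) (l 3)), by decide +kernel⟩

def k50_pm_102_a : ∃ t, chk3 f_pm_102_a t 50 11 1 = true :=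
  ⟨(c (b (a (c (c (b (c (l 16777208) (l 16777208)) (l 16777208)) (b (c (l 16777208) (l 16777208)) (l 16777208))) (c (a (b (l 16777208) (l 16777208)) (c (l 16777208) (l 16777208))) (a (b (l 16777208) (l 16777208)) (c (l 16777208) (l 16777208))))) (b (a (b (l 3) (c (c (l 16777208) (l 16777208)) (c (l 16777208) (l 16777208)))) (l 3)) (c (c (a (l 16777208) (l 16777208)) (a (l 16777208) (l 16777208))) (c (a (l 16777208) (l 16777208)) (a (l 16777208) (l 16777208)))))) (c (c (a (l 16777200) (b (l 16777200) (l 16777200))) (a (l 16777200) (b (l 16777200) (l 16777200)))) (c (a (b (l 16777200) (l 16777200)) (b (l 16777200) (l 16777200))) (a (b (l 16777200) (l 16777200)) (b (l 16777200) (l 16777200)))))) (b (a (c (c (a (b (l 16777208) (l 16777208)) (c (l 16777208) (l 16777208))) (a (b (l 16777208) (l 16777208)) (c (l 16777208) (l 16777208)))) (c (a (b (l 16777208) (l 16777208)) (c (l 16777208) (l 16777208))) (b (a (l 16777208) (l 16777208)) (a (l 16777208) (l 16777208))))) (b (a (b (l 3) (c (c (l 16777208) (l 16777208))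 (c (l 16777208) (l 16777208)))) (l 3)) (c (c (a (l 16777208) (l 16777208)) (a (l 16777208) (l 16777208))) (c (a (l 27011317703) (l 16777208)) (a (l 31306284999) (l 16777208)))))) (c (c (a (b (l 16777200) (l 16777200)) (b (l 16777200) (l 16777200))) (a (b (l 16777200) (l 16777200)) (c (l 16777200) (l 16777200)))) (c (a (b (l 16777200) (l 16777200)) (c (l 16777200) (l 16777200))) (a (l 16777200) (c (l 16777200) (l 16777200))))))), by decide +kernel⟩

def k51_pm_102_a : ∃ t, chk3 f_pm_102_a t 51 11 1 = true :=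
  ⟨(a (b (a (b (l 3) (b (l 3) (c (c (c (l 16777208) (l 16777208)) (c (l 16777208) (l 16777208))) (c (c (l 16777200) (l 16777200)) (c (l 16777200) (l 16777200)))))) (l 3)) (c (c (c (b (l 8757706727) (l 16777200)) (c (l 14663286759) (l 12515803111))) (c (b (a (l 16777200) (l 16777200)) (l 16777200)) (b (a (l 16777200) (l 16777200)) (l 16777200)))) (c (c (b (a (l 16777200) (l 16777200)) (l 16777200)) (b (a (l 16777200) (l 16777200)) (l 16777200))) (c (b (a (l 32380026855) (l 16777200)) (a (l 16777200) (l 16777200))) (a (c (l 16777200) (l 16777200)) (c (l 18958254007) (l 21105737655))))))) (b (l 3) (b (b (l 3) (c (a (c (c (l 16777200) (l 16777200)) (c (l 16777200) (l 16777200))) (a (a (c (l 16777200) (l 16777200)) (l 3)) (l 3))) (c (a (c (l 16777200) (l 16777200)) (c (l 243907166183) (l 242296553447))) (a (c (l 16777200) (l 16777200)) (c (l 240685940711) (l 238538457063)))))) (c (c (c (l 16777200) (l 16777200)) (c (l 5536481255) (a (l 16777200) (l 16777200)))) (c (c (a (l 16777200) (l 16777200)) (a (l 16777200)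 (l 16777200))) (c (a (l 16777200) (l 8757706711)) (c (l 17884512183) (l 20031995543)))))))), by decide +kernel⟩

def k52_pm_102_a : ∃ t, chk3 f_pm_102_a t 13 2 1 = true :=
  ⟨(b (l 3) (a (b (l 3) (b (l 3) (b (l 3) (a (a (a (b (a (a (c (c (l 16777200) (l 16777200)) (c (c (l 16777200) (l 16777200)) (c (l 16777200) (l 16777200)))) (l 3)) (l 3)) (c (c (c (l 16777200) (l 16777200)) (c (l 16777200) (l 16777200))) (c (c (l 16777200) (l 16777200)) (c (l 16777200) (l 16777200))))) (a (a (b (l 3) (c (c (l 16777200) (l 16777200)) (c (c (l 16777200) (l 16777200)) (c (l 16777200) (l 16777200))))) (l 3)) (l 3))) (l 3)) (l 3))))) (l 3))), by decide +kernel⟩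

def k53_pm_102_a : ∃ t, chk3 f_pm_102_a t 24 6 1 = true :=
  ⟨(c (b (a (a (b (c (c (l 16777192) (l 16777192)) (c (l 16777192) (l 16777192))) (l 16777184)) (a (b (c (l 16777192) (l 16777192)) (l 16777184)) (c (b (l 16777192) (l 16777184)) (b (l 16777192) (l 16777184))))) (c (b (c (l 16777192) (l 16777192)) (c (l 16777184) (a (l 16777184) (l 16777184)))) (b (c (l 16777192) (l 16777192)) (c (a (l 16777184) (l 16777184)) (a (l 16777184) (l 16777184)))))) (c (l 16777176) (l 16777168))) (b (a (a (b (c (c (l 16777192) (l 16777192)) (c (l 16777192) (l 16777192))) (l 16777184)) (a (b (c (l 16777192) (l 16777192)) (l 16777184)) (c (b (l 16777192) (l 16777184)) (b (l 16777192) (l 16777184))))) (c (b (c (l 16777192) (l 16777192)) (c (a (l 16777184) (l 16777184)) (a (l 16777184) (l 16777184)))) (b (c (l 16777192) (l 16777192)) (c (a (l 16777184) (l 16777184)) (a (l 16777184) (l 16777184)))))) (c (l 16777168) (l 16777168)))), by decide +kernel⟩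

def k54_pm_102_a : ∃ t, chk3 f_pm_102_a t 50 6 1 = true :=
  ⟨(c (b (c (b (c (a (l 16777192) (l 16777192)) (a (l 16777192) (l 16777192))) (c (l 16777184) (l 16777184))) (b (c (a (l 16777192) (l 16777192)) (a (l 16777192) (l 16777192))) (c (a (l 16777184) (l 16777184)) (a (l 16777184) (l 16777184))))) (b (c (c (l 16777176) (a (l 16777176) (l 16777176))) (c (a (l 16777176) (l 16777176)) (a (l 16777176) (l 16777176)))) (l 16777168))) (b (c (b (c (a (l 16777192) (l 16777192)) (a (l 16777192) (l 16777192))) (c (a (l 16777184) (l 16777184)) (a (l 16777184) (l 16777184)))) (b (c (a (l 16777192) (l 16777192)) (a (l 16777192) (l 16777192))) (c (a (l 16777184) (l 16777184)) (l 16777184)))) (b (b (c (c (l 16777176) (l 16777176)) (c (l 16777176) (l 16777176))) (a (l 16777176) (c (l 16777176) (l 16777176)))) (l 16777168)))), by decide +kernel⟩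

def k55_pm_102_a : ∃ t, chk3 f_pm_102_a t 51 6 1 = true :=
  ⟨(b (c (c (b (c (a (l 16777192) (l 16777192)) (a (l 16777192) (b (l 16777200) (l 16777192)))) (c (l 16777184) (a (l 16777184) (l 16777184)))) (b (c (a (l 16777192) (b (l 16777200) (l 16777192))) (a (l 16777192) (b (l 16777200) (l 16777192)))) (c (a (l 16777184) (l 16777184)) (a (l 16777184) (l 16777184))))) (c (b (c (a (l 16777192) (b (l 16777200) (l 16777192))) (a (l 16777192) (b (l 16777200) (l 16777192)))) (c (a (l 16777184) (l 16777184)) (a (l 16777184) (l 16777184)))) (b (c (a (b (l 16777192) (l 16777192)) (b (l 16777192) (l 16777192))) (a (b (l 16777192) (l 16777192)) (c (l 16777192) (l 16777192)))) (c (a (l 16777184) (l 16777184)) (a (l 16777184) (l 16777184)))))) (b (c (c (c (l 16777176) (l 16777176)) (a (b (l 16777176) (l 16777176)) (l 16777176))) (c (a (b (l 16777176) (l 16777176)) (l 16777176)) (c (a (l 16777176) (l 16777176)) (l 16777176)))) (c (a (l 16777168) (c (l 16777168) (l 16777168))) (a (l 16777168) (b (c (l 16777168) (l 16777168))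 (l 16777160)))))), by decide +kernel⟩

def k56_pm_102_a : ∃ t, chk3 f_pm_102_a t 52 6 1 = true :=
  ⟨(b (c (b (a (c (c (b (l 16777200) (l 16777192)) (b (l 16777200) (l 16777192))) (c (b (l 16777200) (l 16777192)) (b (l 16777200) (l 16777192)))) (b (a (c (b (c (l 227801038823) (l 227264167911)) (l 16777192)) (b (a (l 16777200) (l 3)) (c (l 16777192) (l 16777192)))) (c (c (l 227801038823) (l 226727296999)) (c (l 226727296999) (l 226727296999)))) (c (c (l 16777192) (l 16777192)) (c (l 16777192) (l 16777192))))) (c (c (a (l 16777184) (l 16777184)) (a (l 16777184) (l 16777184))) (c (a (l 16777184) (l 16777184)) (a (l 16777184) (l 16777184))))) (b (a (c (c (b (l 7147093991) (l 16777192)) (b (a (l 16777200) (l 16777200)) (l 16777192))) (c (b (a (l 16777192) (l 9831448535)) (l 16777192)) (b (c (l 19495124951) (l 23253221335)) (l 16777192)))) (b (a (c (b (c (l 226727296999) (a (l 16777200) (l 3))) (c (l 16777192) (l 16777192))) (c (c (l 16777192) (l 16777192)) (b (l 16777200) (l 7147093975)))) (b (l 3) (c (c (l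 221895458775) (a (l 16777192) (l 3))) (c (l 16777192) (l 16777192))))) (c (c (l 16777192) (a (l 16777192) (l 16777192))) (c (a (l 16777192) (l 16777192)) (c (l 23790092231) (l 27548188471)))))) (c (c (a (l 16777184) (l 16777184)) (a (l 16777184) (l 16777184))) (c (a (l 16777184) (b (l 16777192) (l 16777184))) (a (l 16777184) (b (l 16777192) (l 16777184))))))) (c (c (b (c (l 16777176) (l 16777176)) (c (l 16777168) (l 16777168))) (b (c (l 16777176) (l 16777176)) (c (l 16777168) (l 16777168)))) (c (b (c (l 16777176) (a (l 16777176) (l 16777176))) (c (l 16777168) (a (l 16777168) (l 16777168)))) (b (c (a (l 16777176) (l 16777176)) (a (l 16777176) (l 16777176))) (c (a (l 16777168) (l 16777168)) (a (l 16777168) (l 16777168))))))), by decide +kernel⟩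

def k57_pm_102_a : ∃ t, chk3 f_pm_102_a t 53 6 1 = true :=
  ⟨(b (a (b (b (l 3) (a (c (b (a (c (l 211158040535) (l 16777192)) (l 3)) (c (l 16777192) (l 16777192))) (c (a (c (l 16777192) (l 16777192)) (b (l 3) (l 16777192))) (c (b (l 16777192) (l 16777192)) (c (l 16777192) (l 16777192))))) (a (b (l 3) (c (c (l 205252460503) (l 16777192)) (c (l 16777192) (c (l 16777192) (l 16777192))))) (l 3)))) (c (c (c (l 25400704967) (l 20031995847)) (c (l 17347641287) (b (l 16777192) (l 16777184)))) (c (c (b (l 16777192) (l 16777184)) (c (l 16777184) (l 24326963127))) (c (b (a (l 16777192) (l 23253221303)) (l 16777184)) (b (a (l 16777192) (b (l 21642608263) (l 16777184))) (l 16777184)))))) (b (l 3) (c (b (b (c (c (l 210084298711) (l 209547427799)) (c (l 210084298711) (l 210621169623))) (a (c (l 16777192) (l 16777184)) (c (l 201494364119) (c (l 201494364119) (l 202031235015))))) (c (a (l 16777184) (l 16777184)) (c (l 16777184) (l 16777184)))) (b (a (c (a (c (l 16777192) (l 16777192)) (b (l 3) (l 16777184))) (c (b (l 16777192)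 (l 16777184)) (c (l 16777192) (l 16777192)))) (a (b (l 3) (c (l 16777184) (c (l 16777184) (l 16777184)))) (l 3))) (c (c (l 16777184) (l 25937575879)) (c (a (l 16777184) (l 30232543159)) (c (l 38822477719) (a (l 16777184) (l 39896219255))))))))) (c (c (b (c (a (l 16777176) (l 16777176)) (a (l 16777176) (l 16777176))) (c (l 16777168) (l 16777168))) (b (c (a (l 16777176) (l 16777176)) (a (l 16777176) (l 16777176))) (c (l 16777168) (l 16777168)))) (c (b (c (a (l 16777176) (l 16777176)) (a (l 16777176) (l 16777176))) (c (l 16777168) (l 16777168))) (b (c (a (l 16777176) (b (l 16777176) (l 16777176))) (a (l 16777176) (b (l 16777176) (l 16777176)))) (c (l 16777168) (a (l 16777168) (l 16777168))))))), by decide +kernel⟩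

def k58_pm_102_a : ∃ t, chk3 f_pm_102_a t 27 12 1 = true :=
  ⟨(a (a (b (l 3) (b (l 3) (a (c (b (c (l 198273138631) (a (l 192904429511) (l 3))) (c (l 16777184) (l 16777184))) (c (a (c (l 16777184) (l 16777184)) (b (l 3) (l 16777184))) (c (l 8220835783) (c (l 16777184) (l 9294577271))))) (a (b (l 3) (c (c (l 189683204039) (l 189683204039)) (c (l 16777184) (c (l 16777184) (c (l 16777184) (l 16777184)))))) (l 3))))) (l 3)) (l 3)), by decide +kernel⟩

def k59_pm_102_a : ∃ t, chk3 f_pm_102_a t 54 13 1 = true :=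
  ⟨(c (b (a (c (c (l 16777176) (l 16777176)) (c (l 16777176) (l 16777176))) (b (a (b (c (l 192367558599) (l 191293816775)) (c (l 16777176) (l 16777176))) (b (l 3) (c (l 188609462199) (l 188609462199)))) (c (a (l 16777176) (l 16777176)) (a (l 16777176) (l 16777176))))) (c (c (l 16777168) (l 16777168)) (c (l 16777168) (a (l 16777168) (l 16777168))))) (b (a (c (c (b (l 16777176) (l 16777176)) (b (l 16777176) (l 16777176))) (c (b (a (l 16777176) (l 36138123191)) (l 16777176)) (b (a (b (l 16777184) (l 16777176)) (b (c (l 16777184) (l 35601251303)) (l 16777176))) (l 16777176)))) (b (a (c (b (c (l 192367558599) (l 192904429511)) (l 24863834039)) (c (l 13589544887) (c (l 16777176) (b (l 16777184) (l 38285606679))))) (b (l 3) (c (c (l 188609462199) (l 189683204023)) (c (l 16777176) (c (l 16777176) (l 16777176)))))) (c (c (l 16777176) (l 16777176)) (c (a (l 16777176) (l 41506832311)) (a (b (l 16777176) (l 16777176)) (b (c (l 16777176) (l 40433090151)) (l 16777176))))))) (c (c (a (l 16777168) (l 16777168)) (a (l 16777168)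 (l 16777168))) (c (a (l 16777168) (b (l 16777168) (l 16777160))) (a (l 16777168) (b (a (l 16777168) (l 16777168)) (l 16777160))))))), by decide +kernel⟩

def k60_pm_102_a : ∃ t, chk3 f_pm_102_a t 55 26 1 = true :=
  ⟨(b (l 3) (a (a (c (c (b (l 182703882167) (l 16777176)) (b (l 185388236727) (l 16777176))) (c (b (c (l 185925107639) (l 186461978551)) (l 31306284983)) (c (l 17884512183) (c (l 18421383063) (c (l 18958253959) (l 19495124583)))))) (b (l 3) (b (l 3) (a (c (c (l 16775768) (l 16775752)) (c (l 16754760) (c (l 16754744) (c (l 18958241239) (a (l 16777168) (l 16753256)))))) (l 3))))) (l 3))), by decide +kernel⟩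

def k61_pm_102_a : ∃ t, chk3 f_pm_102_a t 55 27 1 = true :=
  ⟨(c (a (c (a (b (l 16777168) (l 16777160)) (b (a (l 16775768) (l 16764536)) (l 16749168))) (a (b (l 16777168) (l 16777160)) (c (l 47949243495) (l 45801759751)))) (b (a (b (a (c (l 166597688791) (l 174113881543)) (l 3)) (c (l 16723792) (l 16723368))) (a (c (c (l 183240648871) (l 184851260919)) (l 182166905335)) (l 3))) (a (c (l 16723792) (l 16744336)) (c (b (c (l 16718432) (l 16718040)) (a (l 16724928) (b (a (l 16714928) (l 16710080)) (l 16716216)))) (b (l 16696496) (a (l 16724240) (b (l 16711960) (l 16715424)))))))) (a (c (a (c (l 16777168) (l 16777168)) (b (c (l 16749016) (a (l 16754752) (l 16764160))) (c (l 16749008) (l 16748960)))) (a (c (b (l 16777168) (l 16777160)) (b (b (l 16777168) (l 16777168)) (l 16777160))) (b (a (b (c (l 16754744) (a (l 16777168) (c (l 16753264) (l 16753256)))) (c (l 16775712) (l 16754736))) (c (l 16743104) (b (c (l 16743048) (l 35601211463)) (l 16743024)))) (c (l 16748912) (a (l 16775704) (l 16763992)))))) (b (a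 (c (b (c (l 180019461303) (l 180556304279)) (l 37211770327)) (c (l 22716255063) (c (l 22179383831) (c (l 22716254583) (a (l 31306216967) (l 13589449271)))))) (a (b (l 3) (c (c (l 16723704) (l 16723360)) (c (l 16723016) (c (l 16722760) (l 10368195831))))) (l 3))) (c (b (c (l 16709472) (l 16688208)) (a (l 16743912) (a (l 16723560) (b (c (l 16711336) (l 16710912)) (l 16714632))))) (a (c (l 16722624) (c (l 16722464) (l 16722360))) (b (c (l 41506681687) (c (l 43117293831) (a (l 65665899751) (b (l 23253069575) (l 63518388295))))) (a (c (l 16723048) (l 16722704)) (c (b (l 16701320) (l 16714032)) (b (a (l 16712288) (b (c (l 16706096) (l 16705872)) (l 16707880))) (a (l 16714392) (l 16712536))))))))))), by decide +kernel⟩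

def k62_pm_102_a : ∃ t, chk3 f_pm_102_a t 12 7 1 = true :=
  ⟨(b (c (b (a (c (l 16742808) (b (l 16776728) (l 16750432))) (b (c (l 16776728) (l 16776728)) (l 16750608))) (a (c (l 16682064) (l 16680816)) (l 16660464))) (b (b (a (c (l 16776720) (l 16776712)) (c (l 16776720) (l 16776712))) (a (c (l 16750088) (l 16749744)) (l 16749912))) (a (c (l 16679576) (l 16678328)) (l 16637008)))) (c (a (b (l 16530048) (b (l 16475752) (l 16403600))) (b (l 16571992) (l 16439472))) (a (b (l 16545688) (b (l 16467920) (l 16393896))) (b (l 16566664) (l 16430704))))), by decide +kernel⟩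

def k63_pm_102_a : ∃ t, chk3 f_pm_102_a t 26 14 1 = true :=
  ⟨(a (b (c (b (a (l 16776728) (c (l 16776728) (l 16776728))) (l 16750608)) (b (a (l 16776712) (c (l 16776720) (l 16776712))) (l 16749912))) (c (l 16681440) (l 16678952))) (b (a (c (b (c (l 16776728) (l 16776728)) (l 16750608)) (b (c (l 16776720) (l 16776712)) (l 16749912))) (c (c (b (l 16776728) (l 16750776)) (b (l 16776728) (l 16750432))) (c (b (l 16776720) (l 16750088)) (b (l 16776712) (l 16749744))))) (c (l 16681440) (l 16678952)))), by decide +kernel⟩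

def k64_pm_102_a : ∃ t, chk3 f_pm_102_a t 54 14 1 = true :=
  ⟨(c (b (c (b (c (l 16776736) (l 16776728)) (c (l 16750864) (l 16750688))) (b (c (l 16776728) (l 16776720)) (c (l 16750520) (l 16750344)))) (b (c (a (l 16706400) (l 16706408)) (a (l 16705480) (l 16705480))) (a (l 16656424) (a (l 16656424) (a (l 16656424) (c (l 16657200) (l 16655624))))))) (b (c (b (c (l 16776720) (l 16776720)) (a (l 16750088) (l 16750088))) (b (c (l 16776712) (l 16755736)) (a (l 16749744) (l 16749744)))) (b (c (a (l 16704552) (l 16704552)) (a (l 16703624) (l 16703632))) (a (l 16653280) (a (l 16653280) (a (l 16653280) (c (l 16654056) (l 16631512)))))))), by decide +kernel⟩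

def k65_pm_102_a : ∃ t, chk3 f_pm_102_a t 55 28 1 = true :=
  ⟨(c (a (b (c (a (l 16776728) (l 16748872)) (a (l 16776728) (l 16748776))) (a (c (l 16750776) (l 16750432)) (c (b (l 16738136) (l 16724232)) (b (l 16737944) (l 16724224))))) (b (c (a (b (l 16744840) (b (l 16724864) (l 16725560))) (b (a (l 16707600) (l 16724296)) (b (l 16732992) (l 16736160)))) (a (b (l 16744416) (a (l 16750696) (l 16719920))) (b (a (l 16727936) (l 16723616)) (l 16734120)))) (b (c (a (l 16719872) (l 16731400)) (a (l 16719392) (l 16730792))) (c (l 16704672) (l 16704008))))) (a (b (c (a (l 16776720) (c (l 16748696) (l 16748648))) (a (c (l 16776712) (l 16776712)) (c (l 16748600) (b (l 16748864) (l 16748240))))) (a (c (l 16750088) (l 16749744)) (c (b (l 16737760) (a (l 16740480) (l 16740944))) (b (a (l 16762024) (l 16731880)) (a (l 16740088) (l 16740664)))))) (b (c (a (b (l 16743992) (b (l 16724048) (a (l 16749824) (l 16741048)))) (b (a (b (l 16725080) (l 16728512)) (l 16722936)) (c (l 16733720) (l 16733448)))) (a (b (c (l 16743680)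 (l 16722496)) (a (b (l 16750352) (l 16749472)) (b (l 16738520) (l 16740592)))) (b (a (c (l 16705856) (b (l 16724248) (l 16727744))) (c (l 16722424) (l 16722088))) (c (l 16733176) (b (l 16731160) (l 16734456)))))) (c (a (b (l 16718904) (l 16730120)) (b (l 16730192) (l 16719648))) (a (b (a (l 16721656) (l 16736192)) (l 16729552)) (b (l 16708616) (l 16718912))))))), by decide +kernel⟩

def k66_pm_102_a : ∃ t, chk3 f_pm_102_a t 55 29 1 = true :=
  ⟨(c (a (b (a (c (b (l 16718008) (l 16694600)) (b (l 16717216) (l 16693464))) (c (l 16711576) (l 16710936))) (a (c (l 16657160) (l 16655560)) (c (b (l 16675192) (l 16649272)) (b (l 16674152) (l 16647880))))) (b (c (a (l 16710464) (b (l 16709632) (l 16699904))) (a (l 16688880) (b (l 16708776) (l 16699032)))) (c (b (l 16690120) (l 16676552)) (b (l 16689560) (l 16676368))))) (a (b (a (c (b (l 16716424) (l 16692336)) (b (l 16715632) (l 16691200))) (c (l 16689320) (l 16688672))) (a (c (l 16653960) (l 16652360)) (c (b (l 16673104) (l 16646480)) (b (l 16672064) (l 16645088)))))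 (b (c (a (l 16688272) (b (l 16707920) (l 16698160))) (a (l 16666688) (b (l 16707072) (l 16697288)))) (b (c (l 16689008) (l 16688456)) (c (l 16676184) (l 16676000)))))), by decide +kernel⟩

def k67_pm_102_a : ∃ t, chk3 f_pm_102_a t 13 15 1 = true :=
  ⟨(a (b (c (l 16571992) (l 16566664)) (c (a (l 16439472) (b (l 16475752) (l 16403520))) (c (l 16369928) (l 16365536)))) (a (b (c (b (l 16601752) (a (l 16541640) (a (l 16541496) (l 16539672)))) (b (l 16597200) (a (l 16535520) (l 16512280)))) (c (a (b (l 16454120) (b (l 16398080) (l 16376808))) (b (l 16426560) (l 16384512))) (b (a (l 16466968) (l 16457168)) (a (l 16385416) (l 16366912))))) (b (a (c (b (a (l 16601008) (l 16604648)) (l 16536696)) (b (a (l 16595856) (l 16598696)) (l 16526144))) (c (b (c (b (l 16648344) (l 16617696)) (l 16630904)) (l 16564632)) (b (c (l 16628640) (b (l 16643800) (l 16608904))) (l 16554368)))) (c (a (c (l 16381016) (l 16413072)) (b (l 16487744) (l 16400976))) (a (l 16398232) (l 16424656)))))), by decide +kernel⟩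

def k68_pm_102_a : ∃ t, chk3 f_pm_102_a t 7 2 1 = true :=
  ⟨(l 3), by decide +kernel⟩

def k69_pm_102_a : ∃ t, chk3 f_pm_102_a t 14 6 1 = true :=
  ⟨(a (b (l 3) (a (b (l 3) (a (b (l 3) (a (b (b (l 3) (a (c (c (c (a (l 16703448) (l 16701640)) (l 16702352)) (l 29695506071)) (c (c (l 16700896) (l 16700408)) (c (a (l 31842990839) (l 16698688)) (a (b (c (l 16698984) (a (l 16699968) (c (l 16697304) (b (l 3) (l 3388832855))))) (c (l 16700776) (a (b (l 16700240) (l 16701152)) (l 16699920)))) (c (l 16698320) (c (l 16698136) (l 16677040))))))) (l 3))) (c (c (c (a (l 16711760) (b (l 16708736) (l 16715160))) (l 38822326567)) (a (l 16710704) (l 16710904))) (c (c (l 16709992) (l 39896064375)) (c (a (l 16709224) (l 36137970055)) (a (b (c (l 16705512) (a (l 16705320) (b (l 16703592) (l 16707032)))) (l 16712024)) (b (c (l 16705784) (a (b (l 16682792) (l 56002201959)) (l 7146941223))) (c (l 16712528) (a (l 16712120) (b (l 55465338599) (l 16714136)))))))))) (a (b (l 3) (b (l 3) (c (c (c (l 50096635095) (l 16715648)) (l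 16715088)) (c (l 16714336) (c (l 16713768) (c (l 16703000) (a (b (l 15200021159) (l 54391604439)) (c (l 16713656) (l 6073215063))))))))) (l 3)))) (l 3))) (l 3))) (l 3)), by decide +kernel⟩

def k70_pm_102_a : ∃ t, chk3 f_pm_102_a t 56 56 2 = true :=
  ⟨(a (b (c (a (c (l 16712624) (l 16722768)) (a (c (b (l 16721992) (l 16726720)) (l 16724128)) (c (b (a (l 16723360) (l 16723912)) (a (l 16728360) (l 16729856))) (l 33453647047)))) (a (l 16722264) (a (l 16723656) (b (l 16722728) (l 16728416))))) (c (a (b (l 16729880) (l 16732520)) (b (a (l 16730712) (c (l 16733496) (l 16733256))) (c (a (l 16733584) (l 16736872)) (l 16735024)))) (a (b (l 16729304) (l 16731976)) (b (l 16731528) (c (l 16734792) (l 16734560)))))) (b (b (l 3) (a (a (c (c (a (l 28084958455) (l 38285507095)) (l 16731032)) (l 16730672)) (l 3)) (l 3))) (b (a (c (c (a (c (l 55465385991) (l 16736976)) (c (a (b (l 16737680) (l 16740824)) (l 40969877431)) (l 16728776))) (l 59223479207)) (l 46875447687)) (l 3)) (c (a (c (b (a (l 16740544) (c (a (l 16743256)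 (b (l 76940243783) (l 82845830423))) (l 16743984))) (a (l 16740592) (l 16745808))) (b (l 16742128) (l 16742240))) (c (c (a (b (a (a (b (l 3) (b (l 16746312) (l 72645284055))) (l 3)) (l 3)) (a (c (l 79624607207) (l 16746648)) (l 50096706903))) (l 3)) (b (l 35601183191) (l 49022960167))) (b (l 30769344839) (l 43117380007)))) (a (c (l 16742016) (l 16741864)) (c (l 32916825863) (l 149417813575))))))), by decide +kernel⟩

def k71_pm_102_a : ∃ t, chk3 f_pm_102_a t 56 57 2 = true :=
  ⟨(a (c (a (b (a (l 16727584) (l 16727448)) (l 16719960)) (b (c (l 16732064) (l 16731792)) (l 16727112))) (a (b (l 16726944) (l 16719208)) (b (l 16731392) (l 16726472)))) (c (a (c (b (a (l 16737720) (b (l 16742472) (l 16740192))) (l 16734928)) (b (l 16739344) (l 16734680))) (b (c (a (b (c (a (l 16745112) (b (c (l 79087737575) (l 16747208)) (l 16746248))) (l 16745832)) (l 16743688)) (b (c (a (b (l 49559837047) (c (l 79087738647) (l 16747752))) (l 45264871079)) (l 57612897591)) (c (a (l 16746248) (b (l 76940256055) (l 16747336))) (l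 16746936)))) (a (l 16744632) (l 67276568567))) (c (a (l 16740304) (l 16738464)) (l 16741848)))) (a (c (l 16736808) (l 16736592)) (b (c (l 57076013143) (l 16745480)) (l 16731104))))), by decide +kernel⟩

def k72_pm_102_a : ∃ t, chk3 f_pm_102_a t 57 28 2 = true :=
  ⟨(b (l 3) (a (a (b (a (b (l 3) (c (c (c (b (l 45801743431) (a (l 76403386119) (l 49022969015))) (l 58149770487)) (l 16748872)) (l 16748752))) (l 3)) (c (c (c (a (b (a (l 16747288) (b (l 75866516135) (l 16748320))) (l 16745888)) (b (b (l 46338616103) (a (l 80698351735) (l 49022970679))) (a (l 16748240) (b (l 80161481639) (l 16749208))))) (a (l 90898886263) (l 74255894727))) (a (l 16746784) (l 68350314567))) (c (l 16737168) (l 16747552)))) (b (l 3) (a (c (c (c (b (l 3) (b (l 46875488583) (l 66202838311))) (l 52781064759)) (l 49022968295)) (l 135459184951)) (l 3)))) (l 3))), by decide +kernel⟩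

def k73_pm_102_a : ∃ t, chk3 f_pm_102_a t 28 29 2 = true :=
  ⟨(a (a (c (b (a (l 16711248) (l 16719800)) (l 16704800)) (b (a (l 16710392) (l 16719032)) (l 16704056))) (c (b (a (l 16706784) (c (l 16735240) (l 16734984))) (l 16721976)) (b (c (l 16710072) (l 16730752)) (l 16721248)))) (a (c (b (b (a (c (a (l 16742544) (l 16745712)) (l 16743984)) (c (c (b (a (a (l 16749080) (l 88751415175)) (b (l 47412360839) (l 65665968887))) (a (l 16747664) (b (l 87677674007) (l 16749976)))) (a (l 16743360) (l 75866510455))) (a (l 16748528) (l 69960930311)))) (a (l 16739624) (c (a (l 16744400) (l 16747304)) (l 16745720)))) (b (a (l 16735160) (l 16741472)) (l 16733952))) (b (a (b (l 16743760) (l 16739208)) (b (c (l 16728336) (l 16728248)) (l 16745512))) (b (l 16737912) (l 16733392)))) (a (b (c (b (c (c (b (l 3) (a (l 64055360055) (l 3))) (l 49022977383)) (l 45264881031)) (c (c (b (a (l 93046381975) (l 64592231863)) (a (l 16749000) (l 91972641223))) (b (l 71571544759) (l 16744888))) (b (l 64055351895) (l 16750064)))) (b (l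 133848557623) (c (l 16750504) (l 78014010663)))) (c (b (c (b (l 16748184) (l 16746104)) (l 16747016)) (l 16742888)) (b (l 16746816) (l 16742512)))) (b (b (l 3) (c (c (c (b (l 3) (l 61370996935)) (l 51707330375)) (l 124184903447)) (l 130627354951))) (c (b (c (b (a (c (l 91435771111) (l 16751672)) (l 64592230455)) (a (l 16749832) (l 88214546295))) (b (l 65665966647) (l 16750744))) (c (b (l 16748944) (l 16746928)) (l 16747808))) (b (c (l 38822434983) (l 75866527943)) (l 16747616))))))), by decide +kernel⟩

def k74_pm_102_a : ∃ t, chk3 f_pm_102_a t 56 56 3 = true :=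
  ⟨(a (c (a (b (c (l 16721760) (l 16721416)) (b (l 16728728) (l 16731440))) (b (a (l 54391610167) (c (l 16725008) (l 16703752))) (b (a (l 16729648) (l 16732432)) (c (l 16734336) (l 16734104))))) (b (a (c (a (l 16721232) (l 16721264)) (a (l 16720888) (b (l 16697272) (l 16723440)))) (c (a (l 16712072) (b (l 16721640) (l 16727472))) (a (b (c (l 16719752) (a (l 16719128) (b (l 53854741303) (l 16721464)))) (c (l 16724712) (l 16724568))) (b (c (l 21642486215) (c (a (l 31843034951) (l 16721744)) (a (b (l 13052552791) (l 53317872967)) (b (l 3) (l 12515690711))))) (c (l 16727272) (a (l 16726352) (b (a (l 16726408) (l 44191080391)) (l 16729160)))))))) (a (c (b (l 16728296) (l 16731032)) (b (l 16728008) (l 16730760))) (c (b (l 16730640) (l 16712904)) (b (a (l 16728976) (l 16710872)) (a (l 16731848) (b (l 16735384) (l 16735392)))))))) (b (b (l 3) (a (a (c (l 16730184) (c (l 16729824) (c (l 16708672) (a (b (l 12515699111) (l 48486056551)) (c (l 16730056) (l 16709032)))))) (l 3)) (l 3))) (b (a (c (c (l 16737232) (l 16737048))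 (c (l 32916802359) (a (c (l 16735696) (a (l 16734680) (b (l 46875451751) (l 16737840)))) (c (l 16738176) (a (b (l 16715336) (l 45264848359)) (l 16717608)))))) (l 3)) (c (a (c (l 16741704) (l 16741552)) (c (l 149417813719) (l 31843083815))) (c (a (b (l 16720408) (l 16741472)) (b (l 16745360) (l 16746744))) (a (b (c (l 54391651239) (a (l 16739304) (b (l 47949205991) (c (l 16743752) (l 16743720))))) (c (l 16741352) (l 16720304))) (a (b (a (c (l 16745000) (c (l 16744960) (l 17884442455))) (l 3)) (c (l 16746296) (a (l 41506764487) (l 16746824)))) (l 3)))))))), by decide +kernel⟩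

def k75_pm_102_a : ∃ t, chk3 f_pm_102_a t 56 57 3 = true :=
  ⟨(a (c (a (b (c (l 16726472) (l 16726152)) (l 16718448)) (b (l 16730856) (l 16725840))) (a (b (c (l 16725832) (l 16704544)) (c (l 16717880) (l 16717496))) (c (l 16706960) (b (l 16730184) (l 16725040))))) (c (a (c (l 16736368) (l 16736152)) (b (c (l 16745368) (l 16724280)) (l 16741256))) (a (c (b (l 16738400) (l 16733448)) (b (c (l 16738256) (l 16717184)) (l 16733200))) (b (c (b (l 30232471847) (l 16744560)) (b (c (l 29158730199) (a (l 51170437863) (l 60834120215))) (a (l 16742672) (l 47412343863)))) (c (l 16741000) (l 16740832)))))), by decide +kernel⟩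

def k76_pm_102_a : ∃ t, chk3 f_pm_102_a t 57 28 3 = true :=
  ⟨(b (l 3) (a (b (b (l 3) (a (c (l 137069793431) (c (l 16748760) (l 50633576247))) (l 3))) (c (a (a (l 16746384) (l 59760379399)) (l 139754155703)) (a (c (l 16726288) (b (l 30232476551) (l 16746592))) (c (l 137069800983) (l 133848570823))))) (l 3))), by decide +kernel⟩

def k77_pm_102_a : ∃ t, chk3 f_pm_102_a t 28 29 3 = true :=
  ⟨(a (a (c (b (c (l 16714144) (l 16713736)) (l 16703320)) (b (c (l 16713328) (l 16712920)) (l 16702584))) (c (b (c (l 16730464) (l 16709208)) (l 16720528)) (b (c (l 16708920) (b (l 16732088) (l 16727104))) (l 16719800)))) (a (c (b (a (l 16720152) (b (c (l 16738648) (l 110763112567)) (l 16745232))) (a (l 16731768) (l 16738408))) (c (b (a (l 16740848) (l 78550845623)) (l 16734760)) (b (a (l 16719696) (b (l 41506763911) (l 16744880))) (l 16734504)))) (b (a (c (b (l 154249673111) (a (l 16749520) (l 118279314711))) (b (a (l 132774832759) (l 3)) (c (l 106468147895) (l 77477118487)))) (b (l 3) (c (l 152102191287) (l 160692125751))))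 (c (a (b (l 16746552) (l 16742128)) (b (b (l 141364764823) (l 101636312487)) (l 16747360))) (a (b (l 16746288) (l 16741752)) (b (c (l 73182173095) (l 100025699063)) (l 16726136))))))), by decide +kernel⟩

def k78_pm_102_a : ∃ t, chk3 f_pm_102_a t 29 14 1 = true :=
  ⟨(b (l 3) (a (a (b (l 3) (a (b (b (l 3) (c (c (c (l 61907873591) (l 16747832)) (l 144049128183)) (c (l 153175933527) (l 161228997047)))) (c (c (c (c (a (l 97878218231) (l 84993305431)) (l 81235218615)) (l 74255896647)) (c (l 102710054839) (l 108078763815))) (c (c (l 110763118231) (l 110226247495)) (c (l 107005022199) (l 100562571111))))) (a (b (l 3) (c (c (c (l 62981620391) (l 120426804615)) (l 141901644247)) (c (l 151028449575) (l 158544621207)))) (l 3)))) (l 3)) (l 3))), by decide +kernel⟩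

def k79_pm_102_a : ∃ t, chk3 f_pm_102_a t 28 15 1 = true :=
  ⟨(c (b (a (b (a (c (a (l 16662840) (l 16683808)) (l 16672144)) (c (l 16710744) (l 16710384))) (a (c (b (l 16624728) (l 16589232)) (l 16603040)) (c (a (l 16639816) (l 16663024)) (l 16648512)))) (b (c (a (l 16727168) (b (a (l 16738704) (l 16743824)) (l 16737224))) (a (l 16726520) (a (l 16736080) (l 16741392)))) (c (a (l 16700072) (l 16730832)) (a (l 16699016) (l 16730280))))) (a (b (a (l 16527544) (c (b (l 16595040) (l 16554264)) (l 16568624))) (c (l 16445104) (l 16455568))) (b (a (a (c (l 16610720) (l 16605536)) (c (l 16615400) (l 16632024))) (c (a (l 16642464) (l 16691896)) (l 16674712))) (a (c (l 16535488) (l 16526672)) (c (b (a (l 16598344) (l 16626776)) (a (l 16551264) (l 16579368))) (b (l 16606320) (l 16556704))))))) (b (c (a (b (a (l 16671072) (l 16710024)) (a (l 16598944) (l 16645736))) (b (a (l 16725880) (a (l 16735552) (l 16720000))) (a (l 16697968) (l 16708760)))) (a (b (a (a (l 16658728) (l 16681528)) (l 16709664)) (a (l 16594856)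 (b (l 16663104) (l 16622520)))) (a (b (l 16725240) (l 16696912)) (b (a (l 16735024) (l 16719576)) (a (l 16726168) (l 16732040)))))) (a (a (l 16444592) (b (c (l 16562400) (l 16556184)) (l 16462816))) (b (a (c (l 16550920) (b (l 16632376) (l 16585336))) (c (l 16671888) (a (l 16653280) (l 16685336)))) (a (l 16513448) (c (b (l 16600240) (l 16548304)) (b (l 16552216) (l 16539904)))))))), by decide +kernel⟩

def k80_pm_102_a : ∃ t, chk3 f_pm_102_a t 116 15 1 = true :=
  ⟨(b (b (c (c (b (a (c (l 16742944) (l 16748056)) (c (b (l 75866514679) (l 94656992695)) (l 75866509863))) (a (l 16744240) (c (l 16747840) (l 16747704)))) (b (a (l 16747864) (c (l 100562571655) (l 106468151527))) (c (l 16745848) (l 16724720)))) (c (c (a (l 16724656) (b (l 109689376839) (l 16747304))) (a (l 16724496) (b (a (l 16729272) (l 116668708359)) (l 16747168)))) (c (a (l 16724344) (b (a (l 16739672) (l 115058095479)) (l 16747040))) (a (l 16745160) (b (a (l 16750064) (l 111836864295)) (l 16746904)))))) (c (c (b (a (l 16740416) (l 16744080))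 (l 16738640)) (c (l 16740128) (l 16718920))) (c (a (l 16737496) (b (l 16743336) (l 16739536))) (a (l 16736992) (b (l 16742960) (l 16739064)))))) (c (b (c (b (l 16734816) (l 16716312)) (l 16731872)) (c (b (l 16651560) (a (l 16609288) (l 16641032))) (a (l 16585656) (l 16618776)))) (b (c (a (l 16720112) (l 16733976)) (a (l 16719488) (l 16691544))) (c (a (l 16601024) (l 16614560)) (b (l 16640576) (a (l 16588632) (l 16624360))))))), by decide +kernel⟩

def k81_pm_102_a : ∃ t, chk3 f_pm_102_a t 117 15 1 = true :=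
  ⟨(a (b (c (b (c (b (c (l 52244201079) (l 104857550375)) (c (b (l 76940255079) (l 95193862519)) (l 78013991895))) (b (l 133311687607) (c (l 113984342647) (l 119353051911)))) (c (b (c (l 16746840) (l 16746696)) (l 16743304)) (b (c (l 16746552) (l 16746408)) (l 16742912)))) (b (b (a (c (l 147270341223) (b (l 3) (l 153712801399))) (l 3)) (c (c (l 122037403687) (a (l 100025699303) (l 131164220439))) (a (c (l 96267602727) (l 88751409751)) (c (l 132237962103) (l 131701091031))))) (c (b (c (l 16746264) (l 16746120)) (l 16742520)) (b (c (l 16745976) (l 16745832)) (c (l 16742224) (l 16742024)))))) (c (b (c (l 16738320) (l 16737808)) (c (b (l 16721040) (l 16674312)) (b (l 16720160) (l 16670600)))) (b (c (b (l 16739000) (l 16735608)) (b (l 16738512) (l 16735088))) (c (b (l 16719280) (l 16666880)) (b (l 16718408) (l 16642200)))))) (b (b (l 3) (c (c (b (c (l 100025696839) (l 87677665655)) (c (l 16745120) (l 16744960))) (b (c (l 111836856487) (l 115594959863)) (c (l 16744800) (l 16744640)))) (c (c (b (a (l 99488825847)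 (l 125258636663)) (l 16744480)) (b (a (l 99488825623) (l 127406120103)) (l 78550851991))) (c (b (a (l 96267600247) (l 127942990823)) (a (l 16743792) (l 16744480))) (b (a (l 89288277831) (l 127942990631)) (l 61370982503)))))) (c (b (c (b (l 16741824) (l 16737864)) (b (l 16741400) (l 16737344))) (c (b (l 16731416) (l 16707864)) (b (l 16730856) (l 16706720)))) (b (c (b (c (l 16741088) (l 16740872)) (l 16736832)) (b (c (l 16740664) (l 16740456)) (c (l 16736440) (l 16736184)))) (c (b (l 16730296) (l 16705584)) (b (l 16729744) (l 16704448))))))), by decide +kernel⟩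

def k82_pm_102_a : ∃ t, chk3 f_pm_102_a t 118 15 1 = true :=
  ⟨(a (b (b (l 3) (b (l 3) (c (c (c (l 102173175239) (l 103783787719)) (c (l 108615633207) (a (l 94120112247) (l 120963664199)))) (c (a (c (l 97878208359) (l 98951950087)) (c (l 123111147607) (l 124184889191))) (c (a (b (l 118279307207) (l 16743992)) (l 124184888935)) (a (b (l 116131823319) (l 16743840)) (l 123648017783))))))) (c (b (c (b (c (l 68887170583) (l 16741968)) (l 16736888)) (b (c (l 69424040423) (a (l 16741728) (l 16741608))) (c (l 16736512) (l 16736264)))) (c (b (l 16729512) (l 16719512)) (b (l 16728880) (l 16718840)))) (b (c (b (c (a (l 16741536) (l 82845814167)) (a (l 16741344) (l 81772072311))) (c (l 16736016) (l 16735768))) (b (c (a (l 16741152) (l 76403362823)) (a (l 16740968) (l 65665944231))) (c (l 16735520) (l 16735272)))) (c (b (l 16728248) (l 16718168)) (b (c (l 16727776) (l 16727464)) (c (l 16717664) (l 16717320))))))) (b (l 3) (c (b (c (b (c (l 102710038103) (l 108078746583)) (c (l 16736888) (l 16731416))) (c (b (a (l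 87677652967) (l 120426786535)) (a (l 16736304) (l 16736720))) (b (a (l 95193845399) (l 122037398983)) (a (l 16736064) (l 82845801351))))) (c (b (c (l 16729296) (l 16728992)) (c (l 16719320) (l 16718936))) (b (c (l 16728688) (l 16728384)) (l 16710496)))) (b (c (c (b (a (b (l 117742432903) (l 16740312)) (l 122574269591)) (a (l 16735832) (b (l 90362001911) (l 16734512)))) (b (a (b (l 117742432615) (l 16740136)) (l 123111140199)) (a (l 16735600) (b (l 89825130599) (l 16734272))))) (c (b (a (b (l 116131819575) (l 16739952)) (l 122037398071)) (a (l 16735368) (b (l 85530163223) (l 16734040)))) (b (a (b (l 113984335623) (l 16739768)) (l 120426785047)) (a (l 16735128) (b (l 76940228231) (l 16733800)))))) (c (b (c (l 16728072) (l 16727768)) (c (l 16717784) (l 16717400))) (b (c (l 16727464) (l 16727160)) (c (l 16717016) (l 16716632)))))))), by decide +kernel⟩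

def k83_pm_102_a : ∃ t, chk3 f_pm_102_a t 119 30 1 = true :=
  ⟨(l 3), by decide +kernel⟩

def k84_pm_102_a : ∃ t, chk3 f_pm_102_a t 238 31 1 = true :=
  ⟨(b (b (l 3) (b (a (c (c (l 115594944039) (c (l 118279298535) (l 119353037703))) (c (c (l 119353037335) (l 118279295143)) (c (l 116131811127) (l 115058068935)))) (l 3)) (c (c (c (l 104857511095) (l 108615607063)) (a (c (l 16735824) (l 87677641863)) (c (l 119889904327) (l 119889903911)))) (c (a (c (l 91972608551) (l 91972608615)) (c (l 119889903511) (l 118279290375))) (a (c (l 87677640711) (l 76940222023)) (c (l 117205548151) (l 116668676823))))))) (c (c (b (a (c (l 16730272) (l 16729984)) (c (l 51707275079) (b (l 16733376) (l 16728936)))) (c (l 16720600) (l 16720232))) (b (a (c (l 16729704) (l 16729416)) (c (b (l 82308927063) (l 16728648)) (b (l 89825118951) (l 16728360)))) (c (l 16709376) (b (l 16722392) (l 16716512))))) (c (b (c (a (l 16729136) (b (l 94120085431) (l 16728072))) (a (l 16728848) (b (l 93583214695) (l 16727792)))) (c (b (l 16722048) (l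 16716120)) (b (l 16721704) (l 16715728)))) (b (c (a (l 16728568) (b (l 89825117831) (l 16727504))) (a (l 16728280) (b (l 78550828199) (l 16727216)))) (c (b (l 16721360) (l 16715336)) (b (l 16721016) (l 16714944))))))), by decide +kernel⟩

def k85_pm_102_a : ∃ t, chk3 f_pm_102_a t 239 31 1 = true :=
  ⟨(b (l 3) (b (b (a (c (c (c (l 117205547383) (l 118816157879)) (c (l 119889899255) (l 120426769719))) (c (c (l 119889898375) (l 119353027015)) (c (l 118279284743) (l 118279284311)))) (l 3)) (c (c (a (c (l 48486065159) (l 73182115607)) (c (l 118279281943) (l 119353023287))) (c (a (l 84456403911) (l 120426764631)) (a (a (l 16729696) (l 96267565863)) (l 120426764135)))) (c (c (a (a (l 16729424) (l 100025662231)) (l 120426763655)) (a (a (l 16729160) (l 101099403383)) (l 119889892263))) (a (c (a (l 16728888) (l 98415048135)) (l 80161433991)) (c (l 119353020855) (l 119353020375)))))) (a (c (c (c (l 16722960) (b (l 16725520) (l 16719632))) (c (b (l 16725208) (l 16719264)) (b (l 16724896) (l 16718896)))) (c (c (b (l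 16724584) (l 16718536)) (b (l 16724272) (l 16718168))) (c (b (l 16723960) (l 16717808)) (l 16699616)))) (c (c (b (c (a (l 16727456) (l 58686606119)) (a (l 16727168) (l 71571508103))) (c (l 16722224) (l 16721888))) (b (c (a (l 16726872) (l 90361980295)) (a (l 87140751111) (b (l 117742405079) (l 84993276279)))) (c (l 16721552) (l 16715968)))) (c (b (c (a (l 89825105735) (b (l 117205534215) (l 87677630839))) (a (l 87677621175) (l 104857493079))) (c (l 16720872) (l 16720536))) (c (b (a (l 16725712) (l 100562525047)) (l 16720192)) (b (a (l 16725416) (l 94656944295)) (l 16719856)))))))), by decide +kernel⟩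

def k86_pm_102_a : ∃ t, chk3 f_pm_102_a t 15 3 1 = true :=
  ⟨(a (a (b (l 3) (b (l 3) (b (l 3) (a (b (l 3) (a (b (l 3) (a (c (c (c (b (l 121500497575) (a (l 46875435959) (b (l 118816135399) (l 60297201111)))) (b (l 122037367943) (a (b (l 69424013975) (l 16721224)) (b (l 120426748503) (l 72108361911))))) (c (b (l 122037367383) (a (b (l 81772044951) (l 16720888)) (b (l 120426747879) (a (l 16720816) (l 87140746583))))) (b (l 122037366823) (b (a (l 86603883111) (l 120426747255)) (c (l 88214484967) (l 90898838295)))))) (c (c (b (l 122037366263) (a (b (l 89825108631) (l 16720216)) (b (l 119889875735) (l 91435714711)))) (b (l 121500494791) (b (a (l 95193811719) (l 118816130503)) (a (l 16719872) (l 98951901479))))) (b (c (l 120963623319) (l 120426751847)) (c (b (l 102173129751) (l 83919513767)) (b (l 94656936199) (l 72108352871)))))) (b (l 3) (c (a (c (c (l 121500486231) (l 121500485591)) (c (l 121500484935) (l 122037355207))) (l 3)) (c (c (l 122037353079) (l 122037352439)) (c (l 121500480871) (l 122037351127)))))))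 (l 3))) (l 3))))) (l 3)) (l 3)), by decide +kernel⟩

theorem s87_pm_102_a : ∃ t, chk3 f_pm_102_a t 119 31 1 = true := ex3_a k84_pm_102_a k85_pm_102_a

theorem s88_pm_102_a : ∃ t, chk3 f_pm_102_a t 119 15 1 = true := ex3_b k83_pm_102_a s87_pm_102_a

theorem s89_pm_102_a : ∃ t, chk3 f_pm_102_a t 59 15 1 = true := ex3_a k82_pm_102_a s88_pm_102_a

theorem s90_pm_102_a : ∃ t, chk3 f_pm_102_a t 58 15 1 = true := ex3_a k80_pm_102_a k81_pm_102_a

theorem s91_pm_102_a : ∃ t, chk3 f_pm_102_a t 29 15 1 = true := ex3_a s90_pm_102_a s89_pm_102_a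

theorem s92_pm_102_a : ∃ t, chk3 f_pm_102_a t 14 15 1 = true := ex3_a k79_pm_102_a s91_pm_102_a

theorem s93_pm_102_a : ∃ t, chk3 f_pm_102_a t 56 28 3 = true := ex3_b k74_pm_102_a k75_pm_102_a

theorem s94_pm_102_a : ∃ t, chk3 f_pm_102_a t 28 28 3 = true := ex3_a s93_pm_102_a k76_pm_102_a

theorem s95_pm_102_a : ∃ t, chk3 f_pm_102_a t 28 14 3 = true := ex3_b s94_pm_102_a k77_pm_102_a

theorem s96_pm_102_a : ∃ t, chk3 f_pm_102_a t 56 28 2 = true := ex3_b k70_pm_102_a k71_pm_102_a

theorem s97_pm_102_a : ∃ t, chk3 f_pm_102_a t 28 28 2 = true := ex3_a s96_pm_102_a k72_pm_102_a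

theorem s98_pm_102_a : ∃ t, chk3 f_pm_102_a t 28 14 2 = true := ex3_b s97_pm_102_a k73_pm_102_a

theorem s99_pm_102_a : ∃ t, chk3 f_pm_102_a t 28 14 1 = true := ex3_c s98_pm_102_a s95_pm_102_a

theorem s100_pm_102_a : ∃ t, chk3 f_pm_102_a t 14 14 1 = true := ex3_a s99_pm_102_a k78_pm_102_a

theorem s101_pm_102_a : ∃ t, chk3 f_pm_102_a t 14 7 1 = true := ex3_b s100_pm_102_a s92_pm_102_a

theorem s102_pm_102_a : ∃ t, chk3 f_pm_102_a t 14 3 1 = true := ex3_b k69_pm_102_a s101_pm_102_a

theorem s103_pm_102_a : ∃ t, chk3 f_pm_102_a t 7 3 1 = true := ex3_a s102_pm_102_a k86_pm_102_a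

theorem s104_pm_102_a : ∃ t, chk3 f_pm_102_a t 7 1 1 = true := ex3_b k68_pm_102_a s103_pm_102_a

theorem s105_pm_102_a : ∃ t, chk3 f_pm_102_a t 55 14 1 = true := ex3_b k65_pm_102_a k66_pm_102_a

theorem s106_pm_102_a : ∃ t, chk3 f_pm_102_a t 27 14 1 = true := ex3_a k64_pm_102_a s105_pm_102_a

theorem s107_pm_102_a : ∃ t, chk3 f_pm_102_a t 13 14 1 = true := ex3_a k63_pm_102_a s106_pm_102_a

theorem s108_pm_102_a : ∃ t, chk3 f_pm_102_a t 13 7 1 = true := ex3_b s107_pm_102_a k67_pm_102_a

theorem s109_pm_102_a : ∃ t, chk3 f_pm_102_a t 6 7 1 = true := ex3_a k62_pm_102_a s108_pm_102_a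

theorem s110_pm_102_a : ∃ t, chk3 f_pm_102_a t 55 13 1 = true := ex3_b k60_pm_102_a k61_pm_102_a

theorem s111_pm_102_a : ∃ t, chk3 f_pm_102_a t 27 13 1 = true := ex3_a k59_pm_102_a s110_pm_102_a

theorem s112_pm_102_a : ∃ t, chk3 f_pm_102_a t 27 6 1 = true := ex3_b k58_pm_102_a s111_pm_102_a

theorem s113_pm_102_a : ∃ t, chk3 f_pm_102_a t 26 6 1 = true := ex3_a k56_pm_102_a k57_pm_102_a

theorem s114_pm_102_a : ∃ t, chk3 f_pm_102_a t 13 6 1 = true := ex3_a s113_pm_102_a s112_pm_102_a

theorem s115_pm_102_a : ∃ t, chk3 f_pm_102_a t 25 6 1 = true := ex3_a k54_pm_102_a k55_pm_102_a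

theorem s116_pm_102_a : ∃ t, chk3 f_pm_102_a t 12 6 1 = true := ex3_a k53_pm_102_a s115_pm_102_a

theorem s117_pm_102_a : ∃ t, chk3 f_pm_102_a t 6 6 1 = true := ex3_a s116_pm_102_a s114_pm_102_a

theorem s118_pm_102_a : ∃ t, chk3 f_pm_102_a t 6 3 1 = true := ex3_b s117_pm_102_a s109_pm_102_a

theorem s119_pm_102_a : ∃ t, chk3 f_pm_102_a t 25 11 1 = true := ex3_a k50_pm_102_a k51_pm_102_a

theorem s120_pm_102_a : ∃ t, chk3 f_pm_102_a t 25 5 1 = true := ex3_b k49_pm_102_a s119_pm_102_a

theorem s121_pm_102_a : ∃ t, chk3 f_pm_102_a t 49 5 1 = true := ex3_a k47_pm_102_a k48_pm_102_a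

theorem s122_pm_102_a : ∃ t, chk3 f_pm_102_a t 48 10 2 = true := ex3_b k43_pm_102_a k44_pm_102_a

theorem s123_pm_102_a : ∃ t, chk3 f_pm_102_a t 48 5 2 = true := ex3_b s122_pm_102_a k45_pm_102_a

theorem s124_pm_102_a : ∃ t, chk3 f_pm_102_a t 48 5 1 = true := ex3_c s123_pm_102_a k46_pm_102_a

theorem s125_pm_102_a : ∃ t, chk3 f_pm_102_a t 24 5 1 = true := ex3_a s124_pm_102_a s121_pm_102_a

theorem s126_pm_102_a : ∃ t, chk3 f_pm_102_a t 12 5 1 = true := ex3_a s125_pm_102_a s120_pm_102_a

theorem s127_pm_102_a : ∃ t, chk3 f_pm_102_a t 12 2 1 = true := ex3_b k42_pm_102_a s126_pm_102_a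

theorem s128_pm_102_a : ∃ t, chk3 f_pm_102_a t 6 2 1 = true := ex3_a s127_pm_102_a k52_pm_102_a

theorem s129_pm_102_a : ∃ t, chk3 f_pm_102_a t 6 1 1 = true := ex3_b s128_pm_102_a s118_pm_102_a

theorem s130_pm_102_a : ∃ t, chk3 f_pm_102_a t 3 1 1 = true := ex3_a s129_pm_102_a s104_pm_102_a

theorem s131_pm_102_a : ∃ t, chk3 f_pm_102_a t 2 3 1 = true := ex3_a k40_pm_102_a k41_pm_102_a

theorem s132_pm_102_a : ∃ t, chk3 f_pm_102_a t 11 11 1 = true := ex3_b k38_pm_102_a k39_pm_102_a

theorem s133_pm_102_a : ∃ t, chk3 f_pm_102_a t 23 10 1 = true := ex3_c k36_pm_102_a k37_pm_102_a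

theorem s134_pm_102_a : ∃ t, chk3 f_pm_102_a t 11 10 1 = true := ex3_a k35_pm_102_a s133_pm_102_a

theorem s135_pm_102_a : ∃ t, chk3 f_pm_102_a t 11 5 1 = true := ex3_b s134_pm_102_a s132_pm_102_a

theorem s136_pm_102_a : ∃ t, chk3 f_pm_102_a t 23 9 3 = true := ex3_a k33_pm_102_a k34_pm_102_a

theorem s137_pm_102_a : ∃ t, chk3 f_pm_102_a t 47 19 2 = true := ex3_a k31_pm_102_a k32_pm_102_a

theorem s138_pm_102_a : ∃ t, chk3 f_pm_102_a t 47 9 2 = true := ex3_b k30_pm_102_a s137_pm_102_a

theorem s139_pm_102_a : ∃ t, chk3 f_pm_102_a t 93 9 2 = true := ex3_b k28_pm_102_a k29_pm_102_a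

theorem s140_pm_102_a : ∃ t, chk3 f_pm_102_a t 92 9 2 = true := ex3_a k26_pm_102_a k27_pm_102_a

theorem s141_pm_102_a : ∃ t, chk3 f_pm_102_a t 46 9 2 = true := ex3_a s140_pm_102_a s139_pm_102_a

theorem s142_pm_102_a : ∃ t, chk3 f_pm_102_a t 23 9 2 = true := ex3_a s141_pm_102_a s138_pm_102_a

theorem s143_pm_102_a : ∃ t, chk3 f_pm_102_a t 23 9 1 = true := ex3_c s142_pm_102_a s136_pm_102_a

theorem s144_pm_102_a : ∃ t, chk3 f_pm_102_a t 23 4 1 = true := ex3_b k25_pm_102_a s143_pm_102_a

theorem s145_pm_102_a : ∃ t, chk3 f_pm_102_a t 45 9 2 = true := ex3_a k22_pm_102_a k23_pm_102_a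

theorem s146_pm_102_a : ∃ t, chk3 f_pm_102_a t 22 9 2 = true := ex3_a k21_pm_102_a s145_pm_102_a

theorem s147_pm_102_a : ∃ t, chk3 f_pm_102_a t 22 9 1 = true := ex3_c s146_pm_102_a k24_pm_102_a

theorem s148_pm_102_a : ∃ t, chk3 f_pm_102_a t 90 17 1 = true := ex3_a k18_pm_102_a k19_pm_102_a

theorem s149_pm_102_a : ∃ t, chk3 f_pm_102_a t 45 17 1 = true := ex3_a s148_pm_102_a k20_pm_102_a

theorem s150_pm_102_a : ∃ t, chk3 f_pm_102_a t 45 8 1 = true := ex3_b k17_pm_102_a s149_pm_102_a

theorem s151_pm_102_a : ∃ t, chk3 f_pm_102_a t 89 34 1 = true := ex3_b k14_pm_102_a k15_pm_102_a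

theorem s152_pm_102_a : ∃ t, chk3 f_pm_102_a t 89 17 1 = true := ex3_b s151_pm_102_a k16_pm_102_a

theorem s153_pm_102_a : ∃ t, chk3 f_pm_102_a t 89 8 1 = true := ex3_b k13_pm_102_a s152_pm_102_a

theorem s154_pm_102_a : ∃ t, chk3 f_pm_102_a t 88 8 1 = true := ex3_b k11_pm_102_a k12_pm_102_a

theorem s155_pm_102_a : ∃ t, chk3 f_pm_102_a t 44 8 1 = true := ex3_a s154_pm_102_a s153_pm_102_a

theorem s156_pm_102_a : ∃ t, chk3 f_pm_102_a t 22 8 1 = true := ex3_a s155_pm_102_a s150_pm_102_a

theorem s157_pm_102_a : ∃ t, chk3 f_pm_102_a t 22 4 1 = true := ex3_b s156_pm_102_a s147_pm_102_a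

theorem s158_pm_102_a : ∃ t, chk3 f_pm_102_a t 11 4 1 = true := ex3_a s157_pm_102_a s144_pm_102_a

theorem s159_pm_102_a : ∃ t, chk3 f_pm_102_a t 11 2 1 = true := ex3_b s158_pm_102_a s135_pm_102_a

theorem s160_pm_102_a : ∃ t, chk3 f_pm_102_a t 10 5 1 = true := ex3_a k9_pm_102_a k10_pm_102_a

theorem s161_pm_102_a : ∃ t, chk3 f_pm_102_a t 87 16 1 = true := ex3_b k5_pm_102_a k6_pm_102_a

theorem s162_pm_102_a : ∃ t, chk3 f_pm_102_a t 86 16 1 = true := ex3_a k3_pm_102_a k4_pm_102_a

theorem s163_pm_102_a : ∃ t, chk3 f_pm_102_a t 43 16 1 = true := ex3_a s162_pm_102_a s161_pm_102_a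

theorem s164_pm_102_a : ∃ t, chk3 f_pm_102_a t 43 8 1 = true := ex3_b s163_pm_102_a k7_pm_102_a

theorem s165_pm_102_a : ∃ t, chk3 f_pm_102_a t 21 8 1 = true := ex3_a k2_pm_102_a s164_pm_102_a

theorem s166_pm_102_a : ∃ t, chk3 f_pm_102_a t 21 4 1 = true := ex3_b s165_pm_102_a k8_pm_102_a

theorem s167_pm_102_a : ∃ t, chk3 f_pm_102_a t 10 4 1 = true := ex3_a k1_pm_102_a s166_pm_102_a

theorem s168_pm_102_a : ∃ t, chk3 f_pm_102_a t 10 2 1 = true := ex3_b s167_pm_102_a s160_pm_102_a

theorem s169_pm_102_a : ∃ t, chk3 f_pm_102_a t 5 2 1 = true := ex3_a s168_pm_102_a s159_pm_102_a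

theorem s170_pm_102_a : ∃ t, chk3 f_pm_102_a t 2 2 1 = true := ex3_a k0_pm_102_a s169_pm_102_a

theorem s171_pm_102_a : ∃ t, chk3 f_pm_102_a t 2 1 1 = true := ex3_b s170_pm_102_a s131_pm_102_a

theorem s172_pm_102_a : ∃ t, chk3 f_pm_102_a t 1 1 1 = true := ex3_a s171_pm_102_a s130_pm_102_a

theorem c_pm_102_a : CertFX 536870912 536870912 0 420477299 1046898278 26843546 false true false .npp 1 0 2
    ndF0q1 ndF1q2a pcF0 Cut.none Ext.none :=
  certFX0 (fam := false) (s1 := true) (s2 := false) (a := 1) (b := 0) (c := 2) (cn := .npp) (n1 := ndF0q1) (n2 := ndF1q2a) (pc := pcF0) (cut := Cut.none) (xt := Ext.none) (P1 := 536870912) (W1 := 536870912) (P2 := 0) (W2 := 420477299) (P3 := 1046898278) (W3 := 26843546)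
    rfl s172_pm_102_a

noncomputable def f_pm_102_b : ℕ → ℕ → ℕ → ℕ → Bool := onCell 0 536870912 1239849684 370763052 1046898278 26843546
    (rowFX 2 false true false .npp 1 0 2 (qsf 536870912 536870912 1239849684 370763052 0) ndF0q1 ndF1q2b pcF0 Cut.none Ext.none)

def k0_pm_102_b : ∃ t, chk3 f_pm_102_b t 2 1 1 = true :=
  ⟨(l 3), by decide +kernel⟩

def k1_pm_102_b : ∃ t, chk3 f_pm_102_b t 6 2 1 = true :=
  ⟨(l 3), by decide +kernel⟩

def k2_pm_102_b : ∃ t, chk3 f_pm_102_b t 14 2 1 = true :=
  ⟨(l 3), by decide +kernel⟩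

def k3_pm_102_b : ∃ t, chk3 f_pm_102_b t 30 2 1 = true :=
  ⟨(l 3), by decide +kernel⟩

def k4_pm_102_b : ∃ t, chk3 f_pm_102_b t 62 4 1 = true :=
  ⟨(a (l 3) (b (b (b (a (a (l 3) (a (l 3) (b (b (b (c (c (c (c (l 16777216) (l 16777216)) (c (l 16777216) (l 16777216))) (c (c (l 16777216) (l 16777216)) (c (l 16777216) (l 16777216)))) (c (c (l 16777216) (l 16777216)) (c (l 16777216) (l 16777216)))) (l 3)) (l 3)) (l 3)))) (b (c (c (c (b (b (c (l 16777216) (l 16777216)) (l 16777216)) (a (l 235317231623) (l 16777216))) (b (b (c (l 16777216) (l 16777216)) (l 16777216)) (a (l 228874780679) (l 16777216)))) (c (b (b (c (l 16777216) (l 16777216)) (l 16777216)) (a (l 221358587911) (l 16777216))) (b (c (b (l 16777216) (l 16777216)) (l 16777216)) (a (l 212231782407) (l 16777216))))) (c (c (b (c (l 16777216) (l 16777216)) (a (l 202031235079) (l 16777216))) (b (c (l 16777216) (l 16777216)) (a (l 190220075015) (l 16777216)))) (c (a (b (l 16777216) (l 177335173127)) (l 16777216)) (a (b (l 16777216) (l 162839658183)) (l 16777216)))))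 (a (l 3) (b (c (c (c (l 16777216) (l 16777216)) (c (l 16777216) (l 16777216))) (c (l 188609462279) (l 162302787431))) (l 3))))) (l 3)) (l 3)) (l 3))), by decide +kernel⟩

def k5_pm_102_b : ∃ t, chk3 f_pm_102_b t 63 4 1 = true :=
  ⟨(b (a (b (b (c (c (a (b (c (c (l 16777216) (l 16777216)) (c (l 16777216) (l 16777216))) (c (l 16777216) (l 16777216))) (c (c (l 16777216) (l 16777216)) (c (l 16777216) (l 16777216)))) (a (b (c (c (l 16777216) (l 16777216)) (c (l 16777216) (l 16777216))) (c (l 16777216) (l 16777216))) (c (c (l 16777216) (l 16777216)) (c (l 16777216) (l 16777216))))) (c (b (c (b (c (l 16777216) (l 16777216)) (l 16777216)) (c (l 16777216) (l 16777216))) (a (c (l 16777216) (l 16777216)) (l 16777216))) (c (b (c (l 16777216) (l 16777216)) (a (l 16777216) (l 16777216))) (c (l 16777216) (l 16777216))))) (b (c (a (c (l 270213840903) (l 265918873607)) (c (c (l 16777216) (l 16777216)) (c (l 16777216) (l 16777216)))) (a (c (l 257865809927) (l 247665262599)) (c (c (l 16777216) (l 16777216)) (l 16777216))))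 (a (l 3) (c (c (l 262697648135) (l 257328939015)) (c (l 249275875335) (l 238001586183)))))) (l 3)) (b (c (c (b (c (c (l 16777216) (l 16777216)) (b (c (l 16777216) (l 16777216)) (l 16777216))) (c (l 16777216) (l 16777216))) (b (c (b (c (l 16777216) (l 16777216)) (l 16777216)) (b (c (l 16777216) (l 16777216)) (l 16777216))) (c (l 16777216) (l 16777216)))) (c (b (c (c (l 16777216) (l 16777216)) (c (l 16777216) (l 16777216))) (c (l 16777216) (l 16777216))) (c (b (a (l 16777216) (l 16777216)) (l 16777216)) (c (l 16777216) (l 16777216))))) (b (c (c (c (a (l 271287582727) (l 193978171399)) (l 241759682567)) (c (l 239612198919) (l 235854102535))) (c (a (l 254107713543) (l 155323465735)) (a (l 241759682567) (l 127406178311)))) (l 3)))) (l 3)), by decide +kernel⟩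

def k6_pm_102_b : ∃ t, chk3 f_pm_102_b t 31 5 1 = true :=
  ⟨(l 3), by decide +kernel⟩

def k7_pm_102_b : ∃ t, chk3 f_pm_102_b t 3 3 1 = true :=
  ⟨(a (l 3) (l 3)), by decide +kernel⟩

theorem s8_pm_102_b : ∃ t, chk3 f_pm_102_b t 31 4 1 = true := ex3_a k4_pm_102_b k5_pm_102_b

theorem s9_pm_102_b : ∃ t, chk3 f_pm_102_b t 31 2 1 = true := ex3_b s8_pm_102_b k6_pm_102_b

theorem s10_pm_102_b : ∃ t, chk3 f_pm_102_b t 15 2 1 = true := ex3_a k3_pm_102_b s9_pm_102_b

theorem s11_pm_102_b : ∃ t, chk3 f_pm_102_b t 7 2 1 = true := ex3_a k2_pm_102_b s10_pm_102_b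

theorem s12_pm_102_b : ∃ t, chk3 f_pm_102_b t 3 2 1 = true := ex3_a k1_pm_102_b s11_pm_102_b

theorem s13_pm_102_b : ∃ t, chk3 f_pm_102_b t 3 1 1 = true := ex3_b s12_pm_102_b k7_pm_102_b

theorem s14_pm_102_b : ∃ t, chk3 f_pm_102_b t 1 1 1 = true := ex3_a k0_pm_102_b s13_pm_102_b

theorem c_pm_102_b : CertFX 536870912 536870912 1239849684 370763052 1046898278 26843546 false true false .npp 1 0 2
    ndF0q1 ndF1q2b pcF0 Cut.none Ext.none :=
  certFX2 (fam := false) (s1 := true) (s2 := false) (a := 1) (b := 0) (c := 2) (cn := .npp) (n1 := ndF0q1) (n2 := ndF1q2b) (pc := pcF0) (cut := Cut.none) (xt := Ext.none) (P1 := 536870912) (W1 := 536870912) (P2 := 1239849684) (W2 := 370763052) (P3 := 1046898278) (W3 := 26843546)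
    rfl (fun _ => rfl) s14_pm_102_b

end Pool.Agent.Strip051.G.IE1.Tab.C.FB01

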