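import Pool.Agent.Strip051.G.IE1.Tab

/-! # Certificates F30 (generated) -/

set_option linter.all false
set_option maxRecDepth 100000

namespace Pool.Agent.Strip051.G.IE1.Tab.C.FB01

open Pool.Agent.Strip051.PB Pool.Agent.Strip051.PB.T
open Pool.Agent.Strip051.G.IE1.Tab

noncomputable def f_pm_112_a : ℕ → ℕ → ℕ → ℕ → Bool := onCell 536870912 536870912 0 420477299 1046898278 26843546
    (rowFX 2 false true false .dn 1 1 2 (qsf 536870912 536870912 0 420477299 1) ndF0q1 ndF1q2a pcF1 Cut.none Ext.none)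

def k0_pm_112_a : ∃ t, chk3 f_pm_112_a t 16 4 2 = true :=
  ⟨(a (c (b (c (a (b (c (l 16777216) (l 16777216)) (l 16777216)) (b (l 16777216) (l 16777216))) (a (b (c (l 16777216) (l 16777216)) (l 16777216)) (c (l 16777216) (l 16777216)))) (b (c (a (l 16777216) (l 16777216)) (a (l 16777216) (l 16777216))) (c (a (b (l 16777216) (l 16777216)) (b (l 16777216) (l 16777216))) (a (b (l 16777216) (l 16777216)) (b (l 16777216) (l 16777216)))))) (b (c (a (b (c (l 16777216) (l 16777216)) (l 16777216)) (c (l 16777216) (l 16777216))) (a (b (c (l 16777216) (l 16777216)) (l 16777216)) (c (l 16777216) (l 16777216)))) (b (c (a (l 16777216) (l 16777216)) (a (l 16777216) (l 16777216))) (a (b (c (l 16777216) (l 16777216)) (c (l 16777216) (l 16777216))) (c (b (l 16777216) (l 16777216)) (b (l 16777216) (l 16777216))))))) (a (b (c (c (b (l 16777216) (l 16777216)) (b (l 16777216) (l 16777216))) (c (b (l 16777216) (l 16777216)) (b (l 16777216) (l 16777216)))) (b (c (c (l 16777216) (l 16777216)) (c (l 16777216) (l 16777216)))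 (b (c (c (l 16777216) (l 16777216)) (c (l 16777216) (l 16777216))) (l 16777216)))) (b (c (c (b (l 16777216) (l 16777216)) (b (l 16777216) (l 16777216))) (c (b (l 16777216) (l 16777216)) (b (l 16777216) (l 16777216)))) (b (b (c (l 16777216) (l 16777216)) (c (c (l 16777216) (l 16777216)) (a (l 16777216) (l 16777216)))) (l 16777216))))), by decide +kernel⟩

def k1_pm_112_a : ∃ t, chk3 f_pm_112_a t 17 4 2 = true :=
  ⟨(b (a (c (c (a (l 16777216) (l 16777216)) (a (l 16777216) (l 16777216))) (c (a (l 16777216) (l 16777216)) (a (l 16777216) (l 16777216)))) (b (c (c (l 16777216) (l 16777216)) (c (l 16777216) (l 16777216))) (a (c (c (l 16777216) (l 16777216)) (c (l 16777216) (l 16777216))) (b (c (l 16777216) (l 16777216)) (b (c (l 16777216) (l 16777216)) (l 16777216)))))) (b (b (a (c (a (c (l 16777216) (l 16777216)) (c (l 16777216) (l 16777216))) (a (c (l 16777216) (l 16777216)) (c (l 16777216) (l 16777216)))) (a (c (l 16777216) (l 16777216)) (l 16777216))) (a (a (a (c (l 16777216) (l 16777216)) (l 16777216))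 (l 16777216)) (l 16777216))) (c (l 16777216) (l 16777216)))), by decide +kernel⟩

def k2_pm_112_a : ∃ t, chk3 f_pm_112_a t 8 5 2 = true :=
  ⟨(a (c (b (a (l 16777208) (l 16777208)) (l 16777200)) (b (a (l 16777208) (l 16777208)) (a (l 16777200) (l 16777200)))) (c (b (l 16777208) (a (l 16777200) (l 16777200))) (b (a (l 16777208) (l 16777208)) (a (l 16777200) (l 16777200))))), by decide +kernel⟩

def k3_pm_112_a : ∃ t, chk3 f_pm_112_a t 9 2 2 = true :=
  ⟨(b (a (b (a (c (b (a (l 16777216) (c (l 16777216) (l 16777216))) (a (b (c (l 16777216) (l 16777216)) (l 16777216)) (l 16777216))) (b (a (l 16777216) (c (l 16777216) (l 16777216))) (a (c (l 16777216) (l 16777216)) (a (l 16777216) (l 16777216))))) (b (b (c (a (l 16777216) (l 16777216)) (a (l 16777216) (l 16777216))) (a (c (l 16777216) (l 16777216)) (l 16777216))) (c (l 16777216) (l 16777216)))) (c (a (l 16777216) (l 16777216)) (a (l 16777216) (l 16777216)))) (a (b (c (a (l 16777216) (l 16777216)) (c (l 16777216) (l 16777216))) (c (l 16777216) (l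 16777216))) (c (b (l 16777216) (l 16777216)) (b (l 16777216) (l 16777216))))) (c (a (b (a (l 16777208) (l 16777208)) (l 16777200)) (b (l 16777208) (l 16777200))) (a (b (a (l 16777208) (l 16777208)) (c (l 16777200) (l 16777200))) (b (l 16777208) (l 16777200))))), by decide +kernel⟩

def k4_pm_112_a : ∃ t, chk3 f_pm_112_a t 8 4 3 = true :=
  ⟨(a (b (c (a (c (a (b (c (l 16777216) (l 16777216)) (l 16777216)) (c (l 16777216) (l 16777216))) (a (b (c (l 16777216) (l 16777216)) (l 16777216)) (b (l 16777216) (l 16777216)))) (c (a (b (l 16777216) (l 16777216)) (b (l 16777216) (l 16777216))) (a (b (l 16777216) (l 16777216)) (l 16777216)))) (a (c (a (c (l 16777216) (l 16777216)) (b (l 16777216) (l 16777216))) (a (b (l 16777216) (l 16777216)) (b (l 16777216) (l 16777216)))) (c (a (b (l 16777216) (l 16777216)) (l 16777216)) (a (l 16777216) (l 16777216))))) (c (a (b (c (a (l 16777216) (l 16777216)) (a (l 16777216) (l 16777216))) (c (a (b (l 16777216) (l 16777216)) (b (l 16777216) (l 16777216))) (a (b (l 16777216)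 (l 16777216)) (b (l 16777216) (l 16777216))))) (b (a (c (l 16777216) (l 16777216)) (c (l 16777216) (l 16777216))) (a (c (l 16777216) (l 16777216)) (l 16777216)))) (a (b (c (l 16777216) (l 16777216)) (c (a (l 16777216) (l 16777216)) (a (l 16777216) (l 16777216)))) (c (b (a (l 16777216) (l 16777216)) (a (l 16777216) (l 16777216))) (b (l 16777216) (l 16777216)))))) (b (c (a (c (a (l 16777216) (l 16777216)) (a (l 16777216) (l 16777216))) (b (c (l 16777216) (l 16777216)) (a (c (l 16777216) (l 16777216)) (c (l 16777216) (l 16777216))))) (a (c (a (l 16777216) (l 16777216)) (a (l 16777216) (l 16777216))) (b (c (l 16777216) (l 16777216)) (c (a (l 16777216) (l 16777216)) (l 16777216))))) (b (a (c (c (a (b (l 16777216) (l 16777216)) (l 16777216)) (a (l 16777216) (l 16777216))) (c (a (l 16777216) (l 16777216)) (a (l 16777216) (l 16777216)))) (a (c (l 16777216) (l 16777216)) (l 16777216))) (c (l 16777216) (l 16777216))))), by decide +kernel⟩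

def k5_pm_112_a : ∃ t, chk3 f_pm_112_a t 8 5 3 = true :=
  ⟨(a (c (b (a (l 16777208) (l 16777208)) (a (l 16777200) (l 16777200))) (b (a (l 16777208) (l 16777208)) (l 16777200))) (c (b (l 16777208) (a (l 16777200) (l 16777200))) (b (l 16777208) (l 16777200)))), by decide +kernel⟩

def k6_pm_112_a : ∃ t, chk3 f_pm_112_a t 9 2 3 = true :=
  ⟨(b (b (a (b (a (c (a (l 16777216) (c (l 16777216) (l 16777216))) (a (l 16777216) (l 16777216))) (c (a (c (l 16777216) (l 16777216)) (b (l 16777216) (l 16777216))) (a (l 16777216) (l 16777216)))) (a (c (a (c (l 16777216) (l 16777216)) (l 16777216)) (a (b (l 16777216) (l 16777216)) (l 16777216))) (c (l 16777216) (l 16777216)))) (a (c (a (l 16777216) (l 16777216)) (a (l 16777216) (l 16777216))) (c (l 16777216) (l 16777216)))) (a (c (a (l 16777216) (l 16777216)) (a (l 16777216) (l 16777216))) (c (l 16777216) (l 16777216)))) (c (a (b (a (l 16777208) (l 16777208)) (l 16777200)) (c (l 16777208) (l 16777208))) (a (b (l 16777208) (l 16777200)) (c (l 16777208) (l 16777208))))),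 by decide +kernel⟩

def k7_pm_112_a : ∃ t, chk3 f_pm_112_a t 5 2 1 = true :=
  ⟨(a (a (c (b (c (b (a (l 16777216) (l 16777216)) (l 16777216)) (b (c (l 16777216) (l 16777216)) (l 16777216))) (c (b (l 16777208) (l 16777200)) (c (l 16777208) (l 16777208)))) (b (c (b (l 16777216) (l 16777216)) (b (l 16777216) (l 16777216))) (c (c (l 16777208) (l 16777208)) (l 16777208)))) (b (l 1) (l 1))) (l 1)), by decide +kernel⟩

def k8_pm_112_a : ∃ t, chk3 f_pm_112_a t 2 6 1 = true :=
  ⟨(b (a (a (c (a (c (l 16777192) (l 16777192)) (c (l 16777192) (l 16777192))) (a (c (l 16777192) (l 16777192)) (c (l 16777192) (l 16777192)))) (c (c (a (l 16777192) (l 16777192)) (a (l 16777192) (l 16777192))) (c (a (l 16777192) (l 16777192)) (a (l 16777192) (l 16777192))))) (a (a (a (a (c (l 16777192) (l 16777192)) (l 1)) (l 1)) (l 1)) (l 1))) (a (a (c (a (c (l 16777176) (l 16777168)) (c (b (l 16777176) (l 16777168)) (b (l 16777176) (l 16777168)))) (a (c (l 16777168) (l 16777168)) (c (b (l 16777176) (l 16777168)) (b (l 16777176)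 (l 16777168))))) (c (a (b (c (l 16777176) (l 16777176)) (b (a (l 16777168) (l 16777168)) (l 16777160))) (a (b (a (l 16777176) (l 16777176)) (l 16777168)) (c (l 204044500823) (l 238404239239)))) (a (c (b (l 16777176) (a (l 16777168) (l 16777168))) (b (l 16777176) (a (l 16777168) (l 16777168)))) (b (c (l 31708938135) (l 16777176)) (c (l 16777168) (l 16777168)))))) (l 1))), by decide +kernel⟩

def k9_pm_112_a : ∃ t, chk3 f_pm_112_a t 2 7 1 = true :=
  ⟨(a (a (b (c (b (a (c (b (l 16776728) (l 16750776)) (b (l 16776728) (l 16750432))) (c (l 16763776) (l 16763600))) (c (a (l 16682064) (l 16682064)) (a (l 16680816) (l 16680816)))) (b (a (c (b (l 16776720) (l 16750088)) (b (l 16776712) (l 16749744))) (c (l 16742456) (l 16721304))) (c (a (l 16679576) (l 16679576)) (a (l 16678328) (l 16678328))))) (c (c (b (l 16552352) (l 16441672)) (b (a (l 16570656) (l 16570656)) (a (l 16437280) (l 16437280)))) (c (b (a (l 16567992) (l 16567992)) (a (l 16432896) (l 16432896))) (b (a (l 16565328) (l 16565328)) (a (l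 16428512) (l 16428512)))))) (a (b (c (b (c (l 16763776) (l 16763600)) (c (l 16682064) (l 16680816))) (b (c (l 16742456) (l 16742280)) (c (l 16679576) (l 16678328)))) (c (a (b (l 16571992) (l 16439472)) (b (l 16571992) (l 1))) (c (b (l 16567992) (l 16432896)) (b (l 16565328) (l 16428512))))) (a (b (c (b (c (l 16763776) (l 16763600)) (l 16660464)) (b (c (l 16763424) (l 16763248)) (l 16657976))) (l 1)) (l 1)))) (l 1)), by decide +kernel⟩

def k10_pm_112_a : ∃ t, chk3 f_pm_112_a t 3 1 1 = true :=
  ⟨(l 1), by decide +kernel⟩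

theorem s11_pm_112_a : ∃ t, chk3 f_pm_112_a t 2 3 1 = true := ex3_b k8_pm_112_a k9_pm_112_a

theorem s12_pm_112_a : ∃ t, chk3 f_pm_112_a t 8 2 3 = true := ex3_b k4_pm_112_a k5_pm_112_a

theorem s13_pm_112_a : ∃ t, chk3 f_pm_112_a t 4 2 3 = true := ex3_a s12_pm_112_a k6_pm_112_a

theorem s14_pm_112_a : ∃ t, chk3 f_pm_112_a t 8 4 2 = true := ex3_a k0_pm_112_a k1_pm_112_a

theorem s15_pm_112_a : ∃ t, chk3 f_pm_112_a t 8 2 2 = true := ex3_b s14_pm_112_a k2_pm_112_a

theorem s16_pm_112_a : ∃ t, chk3 f_pm_112_a t 4 2 2 = true := ex3_a s15_pm_112_a k3_pm_112_a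

theorem s17_pm_112_a : ∃ t, chk3 f_pm_112_a t 4 2 1 = true := ex3_c s16_pm_112_a s13_pm_112_a

theorem s18_pm_112_a : ∃ t, chk3 f_pm_112_a t 2 2 1 = true := ex3_a s17_pm_112_a k7_pm_112_a

theorem s19_pm_112_a : ∃ t, chk3 f_pm_112_a t 2 1 1 = true := ex3_b s18_pm_112_a s11_pm_112_a

theorem s20_pm_112_a : ∃ t, chk3 f_pm_112_a t 1 1 1 = true := ex3_a s19_pm_112_a k10_pm_112_a

theorem c_pm_112_a : CertFX 536870912 536870912 0 420477299 1046898278 26843546 false true false .dn 1 1 2
    ndF0q1 ndF1q2a pcF1 Cut.none Ext.none :=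
  certFX2 (fam := false) (s1 := true) (s2 := false) (a := 1) (b := 1) (c := 2) (cn := .dn) (n1 := ndF0q1) (n2 := ndF1q2a) (pc := pcF1) (cut := Cut.none) (xt := Ext.none) (P1 := 536870912) (W1 := 536870912) (P2 := 0) (W2 := 420477299) (P3 := 1046898278) (W3 := 26843546)
    rfl (fun _ => rfl) s20_pm_112_a

noncomputable def f_pm_112_b : ℕ → ℕ → ℕ → ℕ → Bool := onCell 536870912 536870912 536870912 536870912 1046898278 26843546
    (rowFX 1 false true false .dn 1 1 2 (qsf 536870912 536870912 1239849684 370763052 1) ndF0q1 ndF1q2b pcF1 Cut.none Ext.none)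

def k0_pm_112_b : ∃ t, chk3 f_pm_112_b t 2 32 1 = true :=
  ⟨(a (l 1) (a (a (a (b (l 1) (a (l 1) (a (l 1) (b (l 1) (a (l 1) (c (c (l 172905988087) (l 158410473463)) (c (l 151968022519) (l 153578635223)))))))) (c (b (c (c (a (l 144451829767) (l 199212662775)) (c (l 162705440775) (l 158947344391))) (c (c (l 155189248007) (l 151968022535)) (c (l 148209926151) (l 144451829767)))) (a (c (c (l 200823275511) (l 196528308215)) (c (l 191159599063) (l 184717148119))) (c (c (l 16777216) (l 16777216)) (c (l 16777216) (l 16777216))))) (c (b (c (c (l 140693733383) (l 136935636999)) (a (l 109555220407) (l 163779182551))) (a (c (l 177737826263) (l 169684762583)) (c (l 16777216) (l 16777216)))) (c (c (l 151968022535) (l 147136184247)) (b (l 115460800439) (l 168611020727)))))) (c (c (a (b (c (l 16777216) (l 16777216)) (l 16777216)) (c (l 16777216) (l 16777216))) (a (b (c (l 16777216) (l 16777216)) (l 16777216)) (c (l 16777216) (l 16777216)))) (c (a (b (c (l 16777216) (l 16777216)) (l 16777216)) (c (l 16777216)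 (l 16777216))) (c (c (l 16777216) (l 16777216)) (a (l 16777216) (l 16777216)))))) (a (a (c (c (c (l 306184192007) (l 310479159303)) (b (l 338396446727) (l 203104976903))) (c (b (l 348060123143) (l 181630140423)) (b (l 358260670471) (l 154786594823)))) (l 3)) (l 3)))), by decide +kernel⟩

def k1_pm_112_b : ∃ t, chk3 f_pm_112_b t 2 33 1 = true :=
  ⟨(a (b (l 1) (b (l 1) (a (l 1) (a (l 1) (a (l 1) (a (l 1) (c (c (l 151431151575) (l 141230604247)) (c (l 141230604247) (l 151431151543))))))))) (a (c (a (c (c (a (b (l 170758504455) (l 222298111991)) (l 16777216)) (a (b (l 164852924423) (l 220150628343)) (b (l 16777216) (l 16777216)))) (a (c (c (l 187938373639) (l 185790889991)) (c (l 183106535431) (l 180422180871))) (a (c (l 16777216) (l 16777216)) (l 16777216)))) (c (a (l 16777216) (l 16777216)) (l 16777216))) (a (c (c (a (b (l 147673055191) (l 207265726423)) (l 16777216)) (a (b (l 142304346039) (l 200823275479)) (l 16777216))) (c (c (l 181495922615) (l 177200955319)) (a (l 156799860663) (l 16777216))))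 (c (l 16777216) (l 16777216)))) (a (c (c (a (b (l 177335173127) (l 16777216)) (l 403894697991)) (a (b (l 154786594823) (l 16777216)) (l 450065596423))) (c (a (l 102710116359) (l 488183431175)) (a (l 16777216) (l 518785073159)))) (l 3)))), by decide +kernel⟩

def k2_pm_112_b : ∃ t, chk3 f_pm_112_b t 2 17 1 = true :=
  ⟨(a (a (l 1) (a (a (l 1) (b (l 1) (b (l 1) (c (c (l 151431151543) (l 147673055159)) (c (l 153041764263) (l 167537278887)))))) (c (c (c (b (c (l 171295375367) (l 168611020807)) (a (l 200823275479) (l 16777216))) (b (c (l 166463537159) (l 164852924423)) (a (l 199212662743) (l 16777216)))) (c (b (c (l 162705440775) (l 161631698951)) (a (l 197602050007) (l 16777216))) (b (c (l 160021086215) (l 158410473479)) (a (l 196528308183) (l 16777216))))) (b (c (c (c (l 157336731655) (l 156799860743)) (a (l 138546249719) (l 182032793527))) (c (a (l 146062442455) (l 178274697143)) (l 154115506183))) (c (a (c (l 194917695447) (l 193843953591)) (b (l 16777216) (l 16777216))) (c (l 209413210039) (l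 206191984567))))))) (a (c (c (a (b (a (c (l 16777216) (l 16777216)) (l 16777216)) (l 16777216)) (b (l 16777216) (l 16777216))) (a (b (a (c (l 16777216) (l 16777216)) (l 16777216)) (l 16777216)) (b (l 16777216) (l 16777216)))) (c (a (b (a (c (l 16777216) (l 16777216)) (l 16777216)) (l 16777216)) (l 16777216)) (a (b (c (l 16777216) (l 16777216)) (l 16777216)) (l 16777216)))) (c (c (a (b (a (l 16777216) (l 177335173127)) (l 16777216)) (l 397989117959)) (a (c (l 108615696391) (l 88214601735)) (l 435570081799))) (a (b (c (l 16777216) (l 16777216)) (l 16777216)) (a (l 470466691079) (l 3)))))), by decide +kernel⟩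

def k3_pm_112_b : ∃ t, chk3 f_pm_112_b t 2 9 1 = true :=
  ⟨(a (a (b (b (l 1) (b (l 1) (a (l 1) (a (l 1) (c (c (l 191159599031) (l 208876339127)) (c (l 226056208295) (l 242699206567))))))) (a (a (l 1) (a (l 1) (c (l 158410473463) (l 247531044855)))) (c (c (b (c (l 206728855559) (l 220687499271)) (l 245383561175)) (b (c (l 232498659335) (l 243236077575)) (l 275448332247))) (c (b (c (l 252362883079) (l 259879075847)) (l 293701943255)) (b (a (l 272763977687) (l 301755006903)) (l 301755006903)))))) (c (b (a (b (b (a (l 1) (c (l 176664084439) (l 175053471703))) (c (a (l 160557957047) (l 229814304759)) (a (l 158410473399) (l 233572401143)))) (c (c (l 227666821079) (l 236256755671)) (c (l 242699206615) (l 248067915735)))) (c (b (c (l 16777216) (l 16777216)) (l 16777216)) (b (c (l 16777216) (l 16777216)) (l 16777216)))) (a (c (a (b (a (l 16777216) (l 16777216)) (l 16777216)) (l 16777216)) (b (c (l 16777216) (l 16777216)) (l 16777216))) (c (l 16777216) (l 16777216)))) (b (a (c (c (b (a (l 156799860711)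 (l 205655113687)) (l 251826012119)) (b (a (l 161631698903) (l 206191984567)) (l 253436624823))) (b (c (l 198138920967) (l 200823275351)) (a (l 251826012087) (l 16777216)))) (b (c (c (l 16777216) (l 16777216)) (a (l 16777216) (l 16777216))) (c (l 16777216) (l 16777216)))) (a (b (a (c (l 16777216) (l 16777216)) (l 16777216)) (c (l 16777216) (l 16777216))) (c (l 16777216) (l 16777216)))))) (a (c (b (c (a (l 16777216) (l 16777216)) (a (l 16777216) (l 16777216))) (c (l 16777216) (l 16777216))) (b (b (c (l 16777216) (l 16777216)) (l 16777216)) (c (l 16777216) (l 16777216)))) (c (b (c (a (l 16777216) (b (l 186998849543) (l 16777216))) (a (l 16777216) (l 130627403783))) (c (l 16777216) (l 16777216))) (b (c (b (l 16777216) (l 16777216)) (l 16777216)) (l 16777216))))), by decide +kernel⟩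

def k4_pm_112_b : ∃ t, chk3 f_pm_112_b t 3 4 1 = true :=
  ⟨(a (a (a (b (l 3) (b (l 3) (c (l 387251699719) (l 16777216)))) (l 3)) (l 3)) (l 3)), by decide +kernel⟩

def k5_pm_112_b : ∃ t, chk3 f_pm_112_b t 1 5 1 = true :=
  ⟨(a (a (a (a (b (c (c (b (l 221224370183) (l 16777216)) (b (l 257194721287) (l 16777216))) (c (a (l 367253258247) (l 325914197975)) (l 329135423415))) (c (l 16777216) (l 16777216))) (b (c (b (c (l 16777216) (l 16777216)) (l 16777216)) (b (c (l 16777216) (l 16777216)) (l 16777216))) (c (l 16777216) (l 16777216)))) (a (b (b (c (a (l 16777216) (c (l 16777216) (l 16777216))) (a (l 16777216) (l 16777216))) (c (l 16777216) (l 16777216))) (l 16777216)) (c (b (b (l 16777216) (l 16777216)) (l 16777216)) (b (b (l 16777216) (l 16777216)) (l 16777216))))) (b (c (a (b (l 16777216) (l 16777216)) (b (l 16777216) (l 16777216))) (a (b (l 16777216) (l 16777216)) (b (l 16777216) (l 16777216)))) (a (c (b (l 16777216) (l 16777216)) (b (l 16777216) (l 16777216))) (c (l 16777216) (l 16777216)))))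 (a (b (a (c (b (a (l 120963727367) (l 3)) (a (l 16777216) (l 16777216))) (b (l 112373792775) (l 16777216))) (l 3)) (a (c (l 16777216) (l 16777216)) (a (c (l 16777216) (l 16777216)) (l 2)))) (l 3))), by decide +kernel⟩

def k6_pm_112_b : ∃ t, chk3 f_pm_112_b t 1 3 1 = true :=
  ⟨(a (b (a (a (c (b (l 16773184) (l 16756472)) (b (l 16773080) (b (l 16753544) (b (l 16742024) (l 16774072))))) (c (b (l 16773008) (l 16756000)) (b (l 16772896) (b (l 16752592) (l 16737144))))) (a (b (b (c (l 16777200) (l 16777200)) (l 16768288)) (b (l 16751816) (c (l 16758560) (l 16758080)))) (b (b (l 16777208) (c (l 16769088) (l 16768872))) (b (c (l 16752352) (l 16751712)) (l 2))))) (b (a (a (c (l 16575448) (l 16507840)) (c (l 16560568) (l 16471600))) (a (b (l 16645840) (l 2)) (l 2))) (a (c (a (l 16334152) (l 16301576)) (a (b (l 16384824) (l 16262032)) (l 170287367959))) (l 2)))) (b (a (b (a (c (l 16774960) (l 16774896)) (l 2)) (l 2)) (l 2)) (l 2))), by decide +kernel⟩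

theorem s7_pm_112_b : ∃ t, chk3 f_pm_112_b t 2 16 1 = true := ex3_b k0_pm_112_b k1_pm_112_b

theorem s8_pm_112_b : ∃ t, chk3 f_pm_112_b t 2 8 1 = true := ex3_b s7_pm_112_b k2_pm_112_b

theorem s9_pm_112_b : ∃ t, chk3 f_pm_112_b t 2 4 1 = true := ex3_b s8_pm_112_b k3_pm_112_b

theorem s10_pm_112_b : ∃ t, chk3 f_pm_112_b t 1 4 1 = true := ex3_a s9_pm_112_b k4_pm_112_b

theorem s11_pm_112_b : ∃ t, chk3 f_pm_112_b t 1 2 1 = true := ex3_b s10_pm_112_b k5_pm_112_b

theorem s12_pm_112_b : ∃ t, chk3 f_pm_112_b t 1 1 1 = true := ex3_b s11_pm_112_b k6_pm_112_b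

theorem c_pm_112_b : CertFX 536870912 536870912 1239849684 370763052 1046898278 26843546 false true false .dn 1 1 2
    ndF0q1 ndF1q2b pcF1 Cut.none Ext.none :=
  certFX1 (fam := false) (s1 := true) (s2 := false) (a := 1) (b := 1) (c := 2) (cn := .dn) (n1 := ndF0q1) (n2 := ndF1q2b) (pc := pcF1) (cut := Cut.none) (xt := Ext.none) (P1 := 536870912) (W1 := 536870912) (P2 := 1239849684) (W2 := 370763052) (P3 := 1046898278) (W3 := 26843546)
    rfl (fun _ => rfl) s12_pm_112_b

noncomputable def f_pm_113 : ℕ → ℕ → ℕ → ℕ → Bool := onCell 536870912 536870912 536870912 536870912 1046898278 26843546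
    (rowFX 1 false true false .nn 1 1 3 (qsf 536870912 536870912 1610612736 469762048 1) ndF0q1 ndF1q3 pcF1 Cut.none Ext.none)

def k0_pm_113 : ∃ t, chk3 f_pm_113 t 1 2 1 = true :=
  ⟨(a (a (l 1) (b (l 1) (b (l 1) (a (l 1) (c (l 16777216) (l 16777216)))))) (a (a (b (l 1) (b (a (l 1) (c (l 317324263431) (l 239477981191))) (c (l 16777216) (l 16777216)))) (b (l 3) (b (l 3) (a (c (l 16777216) (l 16777216)) (l 3))))) (l 3))), by decide +kernel⟩

def k1_pm_113 : ∃ t, chk3 f_pm_113 t 2 3 1 = true :=
  ⟨(a (a (b (l 1) (b (c (l 16575448) (l 16507840)) (c (l 16334152) (b (l 16384824) (l 16262032))))) (b (a (l 1) (b (l 1) (b (l 1) (l 16758344)))) (b (c (l 16560568) (l 16471600)) (c (l 16301576) (b (l 16355288) (l 16225024)))))) (a (b (b (b (l 1) (l 16768288)) (b (l 16751816) (c (l 16758560) (l 16758080)))) (b (b (l 16645840) (l 16479728)) (b (l 16326944) (l 16189832)))) (b (b (b (l 16777208) (c (l 16769088) (l 16768872))) (b (c (l 16752352) (l 16751712)) (b (l 16738480) (a (l 16776400) (l 16775392)))))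 (b (b (l 16632840) (l 16452928)) (b (l 16288144) (l 16141240)))))), by decide +kernel⟩

def k2_pm_113 : ∃ t, chk3 f_pm_113 t 3 6 1 = true :=
  ⟨(a (b (a (c (l 16774960) (l 16774896)) (a (b (l 16777216) (l 16774712)) (b (l 16722576) (l 218674070391)))) (a (b (c (l 16759072) (l 16758600)) (b (l 16745840) (a (l 16773488) (l 16769488)))) (a (b (l 16766328) (b (l 16756816) (l 16765264))) (b (l 16764168) (b (l 16756632) (l 16748816)))))) (a (b (a (l 199346273959) (l 3)) (b (a (l 332490451671) (l 3)) (a (b (l 16595232) (l 16572920)) (b (l 256254121575) (l 307793581159))))) (l 3))), by decide +kernel⟩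

def k3_pm_113 : ∃ t, chk3 f_pm_113 t 6 7 1 = true :=
  ⟨(b (a (b (c (l 16622144) (b (l 16669352) (l 16566848))) (a (l 16430416) (b (l 16465112) (l 16366680)))) (b (a (l 16611400) (l 16552608)) (a (l 16404608) (c (l 16389120) (l 16377368))))) (b (a (b (l 16284912) (l 16201568)) (c (b (l 16249312) (a (l 16169792) (l 16132808))) (a (l 16075800) (l 16165136)))) (a (l 16085192) (b (c (a (l 16084176) (l 16047280)) (a (l 16066344) (l 16027808))) (a (l 15999576) (c (l 15966792) (b (l 15964672) (c (l 15929248) (l 15917744))))))))), by decide +kernel⟩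

def k4_pm_113 : ∃ t, chk3 f_pm_113 t 7 7 1 = true :=
  ⟨(b (a (b (a (l 16429000) (a (l 16259680) (l 220820132295))) (a (l 16116896) (c (l 16042624) (l 15969352)))) (a (b (a (l 283633740727) (l 3)) (a (b (l 15870120) (l 15780312)) (c (a (l 15777728) (l 3)) (l 350741858119)))) (l 3))) (a (b (b (a (l 16060680) (l 15852344)) (a (c (l 15978880) (l 15926232)) (c (l 15803240) (l 15688064)))) (b (c (a (l 15829536) (b (l 15747632) (l 15711184))) (a (l 15837536) (l 15602536))) (c (a (l 15813632) (l 15456584)) (a (b (l 15773208) (l 15732616)) (b (l 15539016) (c (l 15536096) (l 15460728))))))) (b (a (a (b (l 15685120) (c (l 15684568) (l 15497432))) (b (c (a (l 15681328) (l 15641336)) (l 174648337991)) (c (a (l 15628776) (b (l 15611480) (l 15610880))) (l 15362256)))) (a (b (c (a (l 357184966503) (l 3)) (l 363626644327)) (b (c (a (c (l 351816228407) (l 15533416)) (l 3)) (l 343225794103)) (a (c (c (b (l 135457316215) (l 545022797895)) (l 15534448)) (l 15276808)) (b (b (l 3) (l 2)) (l 2))))) (l 3))) (b (b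 (a (c (a (l 15653488) (a (l 15623816) (c (l 15710368) (l 15546704)))) (l 15373528)) (a (c (c (a (l 738296514567) (l 2)) (l 741517493559)) (l 785540259335)) (l 2))) (a (c (a (l 15636504) (c (l 518179498071) (l 15555736))) (l 437647749911)) (l 2))) (a (a (c (l 15840080) (b (l 15367848) (l 431742083975))) (b (c (l 666892632999) (l 765139204119)) (l 2))) (l 2)))))), by decide +kernel⟩

theorem s5_pm_113 : ∃ t, chk3 f_pm_113 t 3 7 1 = true := ex3_a k3_pm_113 k4_pm_113

theorem s6_pm_113 : ∃ t, chk3 f_pm_113 t 3 3 1 = true := ex3_b k2_pm_113 s5_pm_113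

theorem s7_pm_113 : ∃ t, chk3 f_pm_113 t 1 3 1 = true := ex3_a k1_pm_113 s6_pm_113

theorem s8_pm_113 : ∃ t, chk3 f_pm_113 t 1 1 1 = true := ex3_b k0_pm_113 s7_pm_113

theorem c_pm_113 : CertFX 536870912 536870912 1610612736 469762048 1046898278 26843546 false true false .nn 1 1 3
    ndF0q1 ndF1q3 pcF1 Cut.none Ext.none :=
  certFX1 (fam := false) (s1 := true) (s2 := false) (a := 1) (b := 1) (c := 3) (cn := .nn) (n1 := ndF0q1) (n2 := ndF1q3) (pc := pcF1) (cut := Cut.none) (xt := Ext.none) (P1 := 536870912) (W1 := 536870912) (P2 := 1610612736) (W2 := 469762048) (P3 := 1046898278) (W3 := 26843546)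
    rfl (fun _ => rfl) s8_pm_113

noncomputable def f_pm_123 : ℕ → ℕ → ℕ → ℕ → Bool := onCell 536870912 536870912 1073741824 536870912 1046898278 26843546
    (rowFX 1 false true false .npn 1 2 3 (qsf 536870912 536870912 1610612736 469762048 2) ndF0q1 ndF1q3 pcF2 Cut.none Ext.none)

def k0_pm_123 : ∃ t, chk3 f_pm_123 t 2 1 1 = true :=
  ⟨(a (c (b (b (b (a (l 15562600) (b (l 15810656) (l 15689000))) (b (a (l 15584384) (l 15566080)) (l 15294528))) (b (b (b (l 15115296) (l 15259888)) (l 15607776)) (b (l 16409968) (l 16776752)))) (b (b (l 16771928) (l 16767872)) (b (l 16759448) (l 16708584)))) (b (b (b (a (a (l 15609552) (l 15543768)) (a (b (l 15769344) (l 15655704)) (l 15730984))) (a (b (b (l 15592888) (l 15515504)) (l 15293936)) (b (b (l 15581056) (l 15489816)) (l 15261920)))) (b (b (b (a (l 15091640) (l 15053472)) (a (l 15238784) (l 15202976))) (a (l 15783368) (l 15759344))) (b (a (l 16384848) (l 16439384)) (l 16776744)))) (b (b (l 16771792) (l 16767536)) (b (l 16759360) (l 16707184))))) (b (b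 (b (a (c (l 15791320) (b (l 15854408) (l 15682104))) (b (l 15944392) (l 15720272))) (a (b (c (l 15544952) (l 15512952)) (l 15244608)) (b (l 15504288) (l 15202528)))) (b (b (b (a (l 15031792) (l 14981592)) (a (l 15182080) (l 15134376))) (a (l 15618992) (l 15644856))) (b (a (l 16349680) (l 16270736)) (a (l 16770544) (l 16765912))))) (b (b (a (l 16767800) (l 16742216)) (a (l 16742216) (l 2))) (l 2)))), by decide +kernel⟩

def k1_pm_123 : ∃ t, chk3 f_pm_123 t 3 1 1 = true :=
  ⟨(b (a (b (b (a (b (a (l 16010152) (l 16058624)) (l 15706384)) (a (b (l 16110896) (l 15771280)) (b (l 16158872) (l 15783128)))) (a (b (a (l 15483560) (l 15467536)) (l 15022792)) (a (b (l 15447448) (l 15106192)) (b (l 15430912) (l 15085536))))) (b (b (b (a (l 14897552) (a (l 14868792) (l 2))) (a (l 15074360) (l 2))) (a (a (l 15679528) (l 15659856)) (l 2))) (b (a (b (l 16225208) (l 2)) (l 2)) (l 2)))) (b (b (b (a (a (a (l 16140256) (b (a (l 16208104) (c (b (l 16258264) (l 16182944)) (c (l 16139192) (b (l 16159968) (l 16083496)))))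 (c (l 16076248) (c (l 16021488) (l 15985288))))) (c (b (b (a (l 16168784) (l 16072584)) (c (l 16138200) (l 16066048))) (c (l 496704443255) (l 16050312))) (b (c (b (a (l 16081568) (l 15934784)) (l 15991560)) (b (a (l 16021920) (l 15839584)) (l 15917720))) (c (l 408657328231) (l 15913128))))) (b (b (a (a (c (l 578846518679) (c (l 15814168) (l 738832308887))) (l 2)) (l 2)) (l 2)) (l 2))) (a (a (a (l 15794448) (c (b (c (l 15959296) (l 15920440)) (c (l 15839200) (l 15799136))) (b (l 15863624) (l 15739576)))) (a (b (c (l 15915896) (l 15910704)) (l 2)) (l 2))) (l 2))) (a (b (a (a (l 15480312) (l 2)) (l 2)) (l 2)) (l 2))) (l 2))) (l 2)), by decide +kernel⟩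

theorem s2_pm_123 : ∃ t, chk3 f_pm_123 t 1 1 1 = true := ex3_a k0_pm_123 k1_pm_123

theorem c_pm_123 : CertFX 536870912 536870912 1610612736 469762048 1046898278 26843546 false true false .npn 1 2 3
    ndF0q1 ndF1q3 pcF2 Cut.none Ext.none :=
  certFX1 (fam := false) (s1 := true) (s2 := false) (a := 1) (b := 2) (c := 3) (cn := .npn) (n1 := ndF0q1) (n2 := ndF1q3) (pc := pcF2) (cut := Cut.none) (xt := Ext.none) (P1 := 536870912) (W1 := 536870912) (P2 := 1610612736) (W2 := 469762048) (P3 := 1046898278) (W3 := 26843546)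
    rfl (fun _ => rfl) s2_pm_123

noncomputable def f_pm_133 : ℕ → ℕ → ℕ → ℕ → Bool := onCell 536870912 536870912 1610612736 469762048 1046898278 26843546
    (rowFX 0 false true false .dn 1 3 3 (qsf 536870912 536870912 1610612736 469762048 3) ndF0q1 ndF1q3 pcF3 Cut.none Ext.none)

def k0_pm_133 : ∃ t, chk3 f_pm_133 t 1 1 1 = true :=
  ⟨(l 1), by decide +kernel⟩

theorem c_pm_133 : CertFX 536870912 536870912 1610612736 469762048 1046898278 26843546 false true false .dn 1 3 3
    ndF0q1 ndF1q3 pcF3 Cut.none Ext.none :=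
  certFX0 (fam := false) (s1 := true) (s2 := false) (a := 1) (b := 3) (c := 3) (cn := .dn) (n1 := ndF0q1) (n2 := ndF1q3) (pc := pcF3) (cut := Cut.none) (xt := Ext.none) (P1 := 536870912) (W1 := 536870912) (P2 := 1610612736) (W2 := 469762048) (P3 := 1046898278) (W3 := 26843546)
    rfl k0_pm_133

noncomputable def f_pm_202_a : ℕ → ℕ → ℕ → ℕ → Bool := onCell 0 536870912 0 420477299 1046898278 26843546
    (rowFX 0 false true false .pp 2 0 2 (qsf 0 536870912 0 420477299 0) ndF0q2 ndF1q2a pcF0 Cut.none Ext.none)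

def k0_pm_202_a : ∃ t, chk3 f_pm_202_a t 1 1 1 = true :=
  ⟨(l 3), by decide +kernel⟩

theorem c_pm_202_a : CertFX 0 536870912 0 420477299 1046898278 26843546 false true false .pp 2 0 2
    ndF0q2 ndF1q2a pcF0 Cut.none Ext.none :=
  certFX0 (fam := false) (s1 := true) (s2 := false) (a := 2) (b := 0) (c := 2) (cn := .pp) (n1 := ndF0q2) (n2 := ndF1q2a) (pc := pcF0) (cut := Cut.none) (xt := Ext.none) (P1 := 0) (W1 := 536870912) (P2 := 0) (W2 := 420477299) (P3 := 1046898278) (W3 := 26843546)
    rfl k0_pm_202_a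

noncomputable def f_pm_202_b : ℕ → ℕ → ℕ → ℕ → Bool := onCell 0 536870912 1239849684 370763052 1046898278 26843546
    (rowFX 0 false true false .pp 2 0 2 (qsf 0 536870912 1239849684 370763052 0) ndF0q2 ndF1q2b pcF0 Cut.none Ext.none)

def k0_pm_202_b : ∃ t, chk3 f_pm_202_b t 1 1 1 = true :=
  ⟨(l 3), by decide +kernel⟩

theorem c_pm_202_b : CertFX 0 536870912 1239849684 370763052 1046898278 26843546 false true false .pp 2 0 2
    ndF0q2 ndF1q2b pcF0 Cut.none Ext.none :=
  certFX0 (fam := false) (s1 := true) (s2 := false) (a := 2) (b := 0) (c := 2) (cn := .pp) (n1 := ndF0q2) (n2 := ndF1q2b) (pc := pcF0) (cut := Cut.none) (xt := Ext.none) (P1 := 0) (W1 := 536870912) (P2 := 1239849684) (W2 := 370763052) (P3 := 1046898278) (W3 := 26843546)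
    rfl k0_pm_202_b

noncomputable def f_pm_203 : ℕ → ℕ → ℕ → ℕ → Bool := onCell 0 536870912 0 536870912 1046898278 26843546
    (rowFX 1 false true false .up 2 0 3 (qsf 0 536870912 1610612736 469762048 0) ndF0q2 ndF1q3 pcF0 Cut.none Ext.none)

def k0_pm_203 : ∃ t, chk3 f_pm_203 t 1 1 1 = true :=
  ⟨(l 3), by decide +kernel⟩

theorem c_pm_203 : CertFX 0 536870912 1610612736 469762048 1046898278 26843546 false true false .up 2 0 3
    ndF0q2 ndF1q3 pcF0 Cut.none Ext.none :=
  certFX1 (fam := false) (s1 := true) (s2 := false) (a := 2) (b := 0) (c := 3) (cn := .up) (n1 := ndF0q2) (n2 := ndF1q3) (pc := pcF0) (cut := Cut.none) (xt := Ext.none) (P1 := 0) (W1 := 536870912) (P2 := 1610612736) (W2 := 469762048) (P3 := 1046898278) (W3 := 26843546)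
    rfl (fun _ => rfl) k0_pm_203

noncomputable def f_pm_213 : ℕ → ℕ → ℕ → ℕ → Bool := onCell 0 536870912 1610612736 469762048 1046898278 26843546
    (rowFX 0 false true false .pnn 2 1 3 (qsf 0 536870912 1610612736 469762048 1) ndF0q2 ndF1q3 pcF1 Cut.none Ext.none)

def k0_pm_213 : ∃ t, chk3 f_pm_213 t 1 1 1 = true :=
  ⟨(a (l 3) (l 3)), by decide +kernel⟩

theorem c_pm_213 : CertFX 0 536870912 1610612736 469762048 1046898278 26843546 false true false .pnn 2 1 3
    ndF0q2 ndF1q3 pcF1 Cut.none Ext.none :=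
  certFX0 (fam := false) (s1 := true) (s2 := false) (a := 2) (b := 1) (c := 3) (cn := .pnn) (n1 := ndF0q2) (n2 := ndF1q3) (pc := pcF1) (cut := Cut.none) (xt := Ext.none) (P1 := 0) (W1 := 536870912) (P2 := 1610612736) (W2 := 469762048) (P3 := 1046898278) (W3 := 26843546)
    rfl k0_pm_213

noncomputable def f_mm_001 : ℕ → ℕ → ℕ → ℕ → Bool := onCell 0 536870912 536870912 536870912 1046898278 26843546
    (rowFX 0 false false false .up 0 0 1 (qsf 0 536870912 536870912 536870912 0) ndF0q0 ndF1q1 pcF0 Cut.none Ext.none)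

def k0_mm_001 : ∃ t, chk3 f_mm_001 t 1 1 1 = true :=
  ⟨(l 3), by decide +kernel⟩

theorem c_mm_001 : CertFX 0 536870912 536870912 536870912 1046898278 26843546 false false false .up 0 0 1
    ndF0q0 ndF1q1 pcF0 Cut.none Ext.none :=
  certFX0 (fam := false) (s1 := false) (s2 := false) (a := 0) (b := 0) (c := 1) (cn := .up) (n1 := ndF0q0) (n2 := ndF1q1) (pc := pcF0) (cut := Cut.none) (xt := Ext.none) (P1 := 0) (W1 := 536870912) (P2 := 536870912) (W2 := 536870912) (P3 := 1046898278) (W3 := 26843546)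
    rfl k0_mm_001

noncomputable def f_mm_011 : ℕ → ℕ → ℕ → ℕ → Bool := onCell 0 536870912 536870912 536870912 1046898278 26843546
    (rowFX 0 false false false .pnn 0 1 1 (qsf 0 536870912 536870912 536870912 1) ndF0q0 ndF1q1 pcF1 Cut.none Ext.none)

def k0_mm_011 : ∃ t, chk3 f_mm_011 t 1 1 1 = true :=
  ⟨(l 3), by decide +kernel⟩

theorem c_mm_011 : CertFX 0 536870912 536870912 536870912 1046898278 26843546 false false false .pnn 0 1 1
    ndF0q0 ndF1q1 pcF1 Cut.none Ext.none :=
  certFX0 (fam := false) (s1 := false) (s2 := false) (a := 0) (b := 1) (c := 1) (cn := .pnn) (n1 := ndF0q0) (n2 := ndF1q1) (pc := pcF1) (cut := Cut.none) (xt := Ext.none) (P1 := 0) (W1 := 536870912) (P2 := 536870912) (W2 := 536870912) (P3 := 1046898278) (W3 := 26843546)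
    rfl k0_mm_011

noncomputable def f_mm_012_a : ℕ → ℕ → ℕ → ℕ → Bool := onCell 0 536870912 0 420477299 1046898278 26843546
    (rowFX 0 false false false .pnp 0 1 2 (qsf 0 536870912 0 420477299 1) ndF0q0 ndF1q2a pcF1 Cut.none Ext.none)

def k0_mm_012_a : ∃ t, chk3 f_mm_012_a t 1 1 1 = true :=
  ⟨(l 5), by decide +kernel⟩

theorem c_mm_012_a : CertFX 0 536870912 0 420477299 1046898278 26843546 false false false .pnp 0 1 2
    ndF0q0 ndF1q2a pcF1 Cut.none Ext.none :=
  certFX0 (fam := false) (s1 := false) (s2 := false) (a := 0) (b := 1) (c := 2) (cn := .pnp) (n1 := ndF0q0) (n2 := ndF1q2a) (pc := pcF1) (cut := Cut.none) (xt := Ext.none) (P1 := 0) (W1 := 536870912) (P2 := 0) (W2 := 420477299) (P3 := 1046898278) (W3 := 26843546)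
    rfl k0_mm_012_a

noncomputable def f_mm_012_b : ℕ → ℕ → ℕ → ℕ → Bool := onCell 0 536870912 1239849684 370763052 1046898278 26843546
    (rowFX 0 false false false .pnp 0 1 2 (qsf 0 536870912 1239849684 370763052 1) ndF0q0 ndF1q2b pcF1 Cut.none Ext.none)

def k0_mm_012_b : ∃ t, chk3 f_mm_012_b t 1 1 1 = true :=
  ⟨(l 5), by decide +kernel⟩

theorem c_mm_012_b : CertFX 0 536870912 1239849684 370763052 1046898278 26843546 false false false .pnp 0 1 2
    ndF0q0 ndF1q2b pcF1 Cut.none Ext.none :=
  certFX0 (fam := false) (s1 := false) (s2 := false) (a := 0) (b := 1) (c := 2) (cn := .pnp) (n1 := ndF0q0) (n2 := ndF1q2b) (pc := pcF1) (cut := Cut.none) (xt := Ext.none) (P1 := 0) (W1 := 536870912) (P2 := 1239849684) (W2 := 370763052) (P3 := 1046898278) (W3 := 26843546)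
    rfl k0_mm_012_b

noncomputable def f_mm_022_a : ℕ → ℕ → ℕ → ℕ → Bool := onCell 0 536870912 0 420477299 1046898278 26843546
    (rowFX 0 false false false .pp 0 2 2 (qsf 0 536870912 0 420477299 2) ndF0q0 ndF1q2a pcF2 Cut.none Ext.none)

def k0_mm_022_a : ∃ t, chk3 f_mm_022_a t 1 1 1 = true :=
  ⟨(l 5), by decide +kernel⟩

theorem c_mm_022_a : CertFX 0 536870912 0 420477299 1046898278 26843546 false false false .pp 0 2 2
    ndF0q0 ndF1q2a pcF2 Cut.none Ext.none :=
  certFX0 (fam := false) (s1 := false) (s2 := false) (a := 0) (b := 2) (c := 2) (cn := .pp) (n1 := ndF0q0) (n2 := ndF1q2a) (pc := pcF2) (cut := Cut.none) (xt := Ext.none) (P1 := 0) (W1 := 536870912) (P2 := 0) (W2 := 420477299) (P3 := 1046898278) (W3 := 26843546)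
    rfl k0_mm_022_a

noncomputable def f_mm_022_b : ℕ → ℕ → ℕ → ℕ → Bool := onCell 0 536870912 1239849684 370763052 1046898278 26843546
    (rowFX 0 false false false .pp 0 2 2 (qsf 0 536870912 1239849684 370763052 2) ndF0q0 ndF1q2b pcF2 Cut.none Ext.none)

def k0_mm_022_b : ∃ t, chk3 f_mm_022_b t 1 1 1 = true :=
  ⟨(l 5), by decide +kernel⟩

theorem c_mm_022_b : CertFX 0 536870912 1239849684 370763052 1046898278 26843546 false false false .pp 0 2 2
    ndF0q0 ndF1q2b pcF2 Cut.none Ext.none :=
  certFX0 (fam := false) (s1 := false) (s2 := false) (a := 0) (b := 2) (c := 2) (cn := .pp) (n1 := ndF0q0) (n2 := ndF1q2b) (pc := pcF2) (cut := Cut.none) (xt := Ext.none) (P1 := 0) (W1 := 536870912) (P2 := 1239849684) (W2 := 370763052) (P3 := 1046898278) (W3 := 26843546)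
    rfl k0_mm_022_b

noncomputable def f_mm_023 : ℕ → ℕ → ℕ → ℕ → Bool := onCell 0 536870912 1610612736 469762048 1046898278 26843546
    (rowFX 0 false false false .up 0 2 3 (qsf 0 536870912 1610612736 469762048 2) ndF0q0 ndF1q3 pcF2 Cut.none Ext.none)

def k0_mm_023 : ∃ t, chk3 f_mm_023 t 1 1 1 = true :=
  ⟨(l 5), by decide +kernel⟩

theorem c_mm_023 : CertFX 0 536870912 1610612736 469762048 1046898278 26843546 false false false .up 0 2 3
    ndF0q0 ndF1q3 pcF2 Cut.none Ext.none :=
  certFX0 (fam := false) (s1 := false) (s2 := false) (a := 0) (b := 2) (c := 3) (cn := .up) (n1 := ndF0q0) (n2 := ndF1q3) (pc := pcF2) (cut := Cut.none) (xt := Ext.none) (P1 := 0) (W1 := 536870912) (P2 := 1610612736) (W2 := 469762048) (P3 := 1046898278) (W3 := 26843546)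
    rfl k0_mm_023

noncomputable def f_mm_033 : ℕ → ℕ → ℕ → ℕ → Bool := onCell 0 536870912 1610612736 469762048 1046898278 26843546
    (rowFX 0 false false false .pnn 0 3 3 (qsf 0 536870912 1610612736 469762048 3) ndF0q0 ndF1q3 pcF3 Cut.none Ext.none)

def k0_mm_033 : ∃ t, chk3 f_mm_033 t 1 1 1 = true :=
  ⟨(l 5), by decide +kernel⟩

theorem c_mm_033 : CertFX 0 536870912 1610612736 469762048 1046898278 26843546 false false false .pnn 0 3 3
    ndF0q0 ndF1q3 pcF3 Cut.none Ext.none :=
  certFX0 (fam := false) (s1 := false) (s2 := false) (a := 0) (b := 3) (c := 3) (cn := .pnn) (n1 := ndF0q0) (n2 := ndF1q3) (pc := pcF3) (cut := Cut.none) (xt := Ext.none) (P1 := 0) (W1 := 536870912) (P2 := 1610612736) (W2 := 469762048) (P3 := 1046898278) (W3 := 26843546)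
    rfl k0_mm_033

noncomputable def f_mm_101 : ℕ → ℕ → ℕ → ℕ → Bool := onCell 536870912 536870912 536870912 536870912 1046898278 26843546
    (rowFX 0 false false false .npn 1 0 1 (qsf 536870912 536870912 536870912 536870912 0) ndF0q1 ndF1q1 pcF0 Cut.none Ext.none)

def k0_mm_101 : ∃ t, chk3 f_mm_101 t 1 1 1 = true :=
  ⟨(l 3), by decide +kernel⟩

theorem c_mm_101 : CertFX 536870912 536870912 536870912 536870912 1046898278 26843546 false false false .npn 1 0 1
    ndF0q1 ndF1q1 pcF0 Cut.none Ext.none :=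
  certFX0 (fam := false) (s1 := false) (s2 := false) (a := 1) (b := 0) (c := 1) (cn := .npn) (n1 := ndF0q1) (n2 := ndF1q1) (pc := pcF0) (cut := Cut.none) (xt := Ext.none) (P1 := 536870912) (W1 := 536870912) (P2 := 536870912) (W2 := 536870912) (P3 := 1046898278) (W3 := 26843546)
    rfl k0_mm_101

noncomputable def f_mm_102_a : ℕ → ℕ → ℕ → ℕ → Bool := onCell 536870912 536870912 0 420477299 1046898278 26843546
    (rowFX 0 false false false .npp 1 0 2 (qsf 536870912 536870912 0 420477299 0) ndF0q1 ndF1q2a pcF0 Cut.none Ext.none)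

def k0_mm_102_a : ∃ t, chk3 f_mm_102_a t 1 1 1 = true :=
  ⟨(l 5), by decide +kernel⟩

theorem c_mm_102_a : CertFX 536870912 536870912 0 420477299 1046898278 26843546 false false false .npp 1 0 2
    ndF0q1 ndF1q2a pcF0 Cut.none Ext.none :=
  certFX0 (fam := false) (s1 := false) (s2 := false) (a := 1) (b := 0) (c := 2) (cn := .npp) (n1 := ndF0q1) (n2 := ndF1q2a) (pc := pcF0) (cut := Cut.none) (xt := Ext.none) (P1 := 536870912) (W1 := 536870912) (P2 := 0) (W2 := 420477299) (P3 := 1046898278) (W3 := 26843546)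
    rfl k0_mm_102_a

noncomputable def f_mm_102_b : ℕ → ℕ → ℕ → ℕ → Bool := onCell 536870912 536870912 1239849684 370763052 1046898278 26843546
    (rowFX 0 false false false .npp 1 0 2 (qsf 536870912 536870912 1239849684 370763052 0) ndF0q1 ndF1q2b pcF0 Cut.none Ext.none)

def k0_mm_102_b : ∃ t, chk3 f_mm_102_b t 1 1 1 = true :=
  ⟨(l 5), by decide +kernel⟩

theorem c_mm_102_b : CertFX 536870912 536870912 1239849684 370763052 1046898278 26843546 false false false .npp 1 0 2
    ndF0q1 ndF1q2b pcF0 Cut.none Ext.none :=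
  certFX0 (fam := false) (s1 := false) (s2 := false) (a := 1) (b := 0) (c := 2) (cn := .npp) (n1 := ndF0q1) (n2 := ndF1q2b) (pc := pcF0) (cut := Cut.none) (xt := Ext.none) (P1 := 536870912) (W1 := 536870912) (P2 := 1239849684) (W2 := 370763052) (P3 := 1046898278) (W3 := 26843546)
    rfl k0_mm_102_b

noncomputable def f_mm_112_a : ℕ → ℕ → ℕ → ℕ → Bool := onCell 536870912 536870912 0 420477299 1046898278 26843546
    (rowFX 0 false false false .dn 1 1 2 (qsf 536870912 536870912 0 420477299 1) ndF0q1 ndF1q2a pcF1 Cut.none Ext.none)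

def k0_mm_112_a : ∃ t, chk3 f_mm_112_a t 1 1 1 = true :=
  ⟨(l 5), by decide +kernel⟩

theorem c_mm_112_a : CertFX 536870912 536870912 0 420477299 1046898278 26843546 false false false .dn 1 1 2
    ndF0q1 ndF1q2a pcF1 Cut.none Ext.none :=
  certFX0 (fam := false) (s1 := false) (s2 := false) (a := 1) (b := 1) (c := 2) (cn := .dn) (n1 := ndF0q1) (n2 := ndF1q2a) (pc := pcF1) (cut := Cut.none) (xt := Ext.none) (P1 := 536870912) (W1 := 536870912) (P2 := 0) (W2 := 420477299) (P3 := 1046898278) (W3 := 26843546)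
    rfl k0_mm_112_a

noncomputable def f_mm_112_b : ℕ → ℕ → ℕ → ℕ → Bool := onCell 536870912 536870912 1239849684 370763052 1046898278 26843546
    (rowFX 0 false false false .dn 1 1 2 (qsf 536870912 536870912 1239849684 370763052 1) ndF0q1 ndF1q2b pcF1 Cut.none Ext.none)

def k0_mm_112_b : ∃ t, chk3 f_mm_112_b t 1 1 1 = true :=
  ⟨(l 5), by decide +kernel⟩

theorem c_mm_112_b : CertFX 536870912 536870912 1239849684 370763052 1046898278 26843546 false false false .dn 1 1 2
    ndF0q1 ndF1q2b pcF1 Cut.none Ext.none :=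
  certFX0 (fam := false) (s1 := false) (s2 := false) (a := 1) (b := 1) (c := 2) (cn := .dn) (n1 := ndF0q1) (n2 := ndF1q2b) (pc := pcF1) (cut := Cut.none) (xt := Ext.none) (P1 := 536870912) (W1 := 536870912) (P2 := 1239849684) (W2 := 370763052) (P3 := 1046898278) (W3 := 26843546)
    rfl k0_mm_112_b

noncomputable def f_mm_113 : ℕ → ℕ → ℕ → ℕ → Bool := onCell 536870912 536870912 1610612736 469762048 1046898278 26843546
    (rowFX 0 false false false .nn 1 1 3 (qsf 536870912 536870912 1610612736 469762048 1) ndF0q1 ndF1q3 pcF1 Cut.none Ext.none)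

def k0_mm_113 : ∃ t, chk3 f_mm_113 t 1 1 1 = true :=
  ⟨(l 5), by decide +kernel⟩

theorem c_mm_113 : CertFX 536870912 536870912 1610612736 469762048 1046898278 26843546 false false false .nn 1 1 3
    ndF0q1 ndF1q3 pcF1 Cut.none Ext.none :=
  certFX0 (fam := false) (s1 := false) (s2 := false) (a := 1) (b := 1) (c := 3) (cn := .nn) (n1 := ndF0q1) (n2 := ndF1q3) (pc := pcF1) (cut := Cut.none) (xt := Ext.none) (P1 := 536870912) (W1 := 536870912) (P2 := 1610612736) (W2 := 469762048) (P3 := 1046898278) (W3 := 26843546)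
    rfl k0_mm_113

noncomputable def f_mm_123 : ℕ → ℕ → ℕ → ℕ → Bool := onCell 536870912 536870912 1610612736 469762048 1046898278 26843546
    (rowFX 0 false false false .npn 1 2 3 (qsf 536870912 536870912 1610612736 469762048 2) ndF0q1 ndF1q3 pcF2 Cut.none Ext.none)

def k0_mm_123 : ∃ t, chk3 f_mm_123 t 1 1 1 = true :=
  ⟨(l 5), by decide +kernel⟩

theorem c_mm_123 : CertFX 536870912 536870912 1610612736 469762048 1046898278 26843546 false false false .npn 1 2 3
    ndF0q1 ndF1q3 pcF2 Cut.none Ext.none :=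
  certFX0 (fam := false) (s1 := false) (s2 := false) (a := 1) (b := 2) (c := 3) (cn := .npn) (n1 := ndF0q1) (n2 := ndF1q3) (pc := pcF2) (cut := Cut.none) (xt := Ext.none) (P1 := 536870912) (W1 := 536870912) (P2 := 1610612736) (W2 := 469762048) (P3 := 1046898278) (W3 := 26843546)
    rfl k0_mm_123

noncomputable def f_mm_133 : ℕ → ℕ → ℕ → ℕ → Bool := onCell 536870912 536870912 1610612736 469762048 1046898278 26843546
    (rowFX 0 false false false .dn 1 3 3 (qsf 536870912 536870912 1610612736 469762048 3) ndF0q1 ndF1q3 pcF3 Cut.none Ext.none)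

def k0_mm_133 : ∃ t, chk3 f_mm_133 t 1 1 1 = true :=
  ⟨(l 1), by decide +kernel⟩

theorem c_mm_133 : CertFX 536870912 536870912 1610612736 469762048 1046898278 26843546 false false false .dn 1 3 3
    ndF0q1 ndF1q3 pcF3 Cut.none Ext.none :=
  certFX0 (fam := false) (s1 := false) (s2 := false) (a := 1) (b := 3) (c := 3) (cn := .dn) (n1 := ndF0q1) (n2 := ndF1q3) (pc := pcF3) (cut := Cut.none) (xt := Ext.none) (P1 := 536870912) (W1 := 536870912) (P2 := 1610612736) (W2 := 469762048) (P3 := 1046898278) (W3 := 26843546)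
    rfl k0_mm_133

noncomputable def f_mm_202_a : ℕ → ℕ → ℕ → ℕ → Bool := onCell 0 536870912 0 420477299 1046898278 26843546
    (rowFX 0 false false false .pp 2 0 2 (qsf 0 536870912 0 420477299 0) ndF0q2 ndF1q2a pcF0 Cut.none Ext.none)

def k0_mm_202_a : ∃ t, chk3 f_mm_202_a t 1 1 1 = true :=
  ⟨(l 3), by decide +kernel⟩

theorem c_mm_202_a : CertFX 0 536870912 0 420477299 1046898278 26843546 false false false .pp 2 0 2
    ndF0q2 ndF1q2a pcF0 Cut.none Ext.none :=
  certFX0 (fam := false) (s1 := false) (s2 := false) (a := 2) (b := 0) (c := 2) (cn := .pp) (n1 := ndF0q2) (n2 := ndF1q2a) (pc := pcF0) (cut := Cut.none) (xt := Ext.none) (P1 := 0) (W1 := 536870912) (P2 := 0) (W2 := 420477299) (P3 := 1046898278) (W3 := 26843546)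
    rfl k0_mm_202_a

noncomputable def f_mm_202_b : ℕ → ℕ → ℕ → ℕ → Bool := onCell 0 536870912 1239849684 370763052 1046898278 26843546
    (rowFX 0 false false false .pp 2 0 2 (qsf 0 536870912 1239849684 370763052 0) ndF0q2 ndF1q2b pcF0 Cut.none Ext.none)

def k0_mm_202_b : ∃ t, chk3 f_mm_202_b t 1 1 1 = true :=
  ⟨(l 3), by decide +kernel⟩

theorem c_mm_202_b : CertFX 0 536870912 1239849684 370763052 1046898278 26843546 false false false .pp 2 0 2
    ndF0q2 ndF1q2b pcF0 Cut.none Ext.none :=
  certFX0 (fam := false) (s1 := false) (s2 := false) (a := 2) (b := 0) (c := 2) (cn := .pp) (n1 := ndF0q2) (n2 := ndF1q2b) (pc := pcF0) (cut := Cut.none) (xt := Ext.none) (P1 := 0) (W1 := 536870912) (P2 := 1239849684) (W2 := 370763052) (P3 := 1046898278) (W3 := 26843546)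
    rfl k0_mm_202_b

noncomputable def f_mm_203 : ℕ → ℕ → ℕ → ℕ → Bool := onCell 0 536870912 1610612736 469762048 1046898278 26843546
    (rowFX 0 false false false .up 2 0 3 (qsf 0 536870912 1610612736 469762048 0) ndF0q2 ndF1q3 pcF0 Cut.none Ext.none)

def k0_mm_203 : ∃ t, chk3 f_mm_203 t 1 1 1 = true :=
  ⟨(l 3), by decide +kernel⟩

theorem c_mm_203 : CertFX 0 536870912 1610612736 469762048 1046898278 26843546 false false false .up 2 0 3
    ndF0q2 ndF1q3 pcF0 Cut.none Ext.none :=
  certFX0 (fam := false) (s1 := false) (s2 := false) (a := 2) (b := 0) (c := 3) (cn := .up) (n1 := ndF0q2) (n2 := ndF1q3) (pc := pcF0) (cut := Cut.none) (xt := Ext.none) (P1 := 0) (W1 := 536870912) (P2 := 1610612736) (W2 := 469762048) (P3 := 1046898278) (W3 := 26843546)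
    rfl k0_mm_203

noncomputable def f_mm_213 : ℕ → ℕ → ℕ → ℕ → Bool := onCell 0 536870912 1610612736 469762048 1046898278 26843546
    (rowFX 0 false false false .pnn 2 1 3 (qsf 0 536870912 1610612736 469762048 1) ndF0q2 ndF1q3 pcF1 Cut.none Ext.none)

def k0_mm_213 : ∃ t, chk3 f_mm_213 t 1 1 1 = true :=
  ⟨(l 3), by decide +kernel⟩

theorem c_mm_213 : CertFX 0 536870912 1610612736 469762048 1046898278 26843546 false false false .pnn 2 1 3
    ndF0q2 ndF1q3 pcF1 Cut.none Ext.none :=
  certFX0 (fam := false) (s1 := false) (s2 := false) (a := 2) (b := 1) (c := 3) (cn := .pnn) (n1 := ndF0q2) (n2 := ndF1q3) (pc := pcF1) (cut := Cut.none) (xt := Ext.none) (P1 := 0) (W1 := 536870912) (P2 := 1610612736) (W2 := 469762048) (P3 := 1046898278) (W3 := 26843546)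
    rfl k0_mm_213

end Pool.Agent.Strip051.G.IE1.Tab.C.FB01

namespace Pool.Agent.Strip051.G.IE1.Tab.C.FB02

open Pool.Agent.Strip051.PB Pool.Agent.Strip051.PB.T
open Pool.Agent.Strip051.G.IE1.Tab

noncomputable def f_pp_001 : ℕ → ℕ → ℕ → ℕ → Bool := onCell 0 536870912 536870912 536870912 1046898278 26843546
    (rowFX 0 false true true .up 0 0 1 (qsf 0 536870912 536870912 536870912 0) ndF0q0 ndF2q1 pcF0 Cut.none Ext.none)

def k0_pp_001 : ∃ t, chk3 f_pp_001 t 1 1 1 = true :=
  ⟨(l 3), by decide +kernel⟩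

theorem c_pp_001 : CertFX 0 536870912 536870912 536870912 1046898278 26843546 false true true .up 0 0 1
    ndF0q0 ndF2q1 pcF0 Cut.none Ext.none :=
  certFX0 (fam := false) (s1 := true) (s2 := true) (a := 0) (b := 0) (c := 1) (cn := .up) (n1 := ndF0q0) (n2 := ndF2q1) (pc := pcF0) (cut := Cut.none) (xt := Ext.none) (P1 := 0) (W1 := 536870912) (P2 := 536870912) (W2 := 536870912) (P3 := 1046898278) (W3 := 26843546)
    rfl k0_pp_001

noncomputable def f_pp_011 : ℕ → ℕ → ℕ → ℕ → Bool := onCell 0 536870912 536870912 536870912 1046898278 26843546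
    (rowFX 0 false true true .pnn 0 1 1 (qsf 0 536870912 536870912 536870912 1) ndF0q0 ndF2q1 pcF1 Cut.none Ext.none)

def k0_pp_011 : ∃ t, chk3 f_pp_011 t 1 1 1 = true :=
  ⟨(l 3), by decide +kernel⟩

theorem c_pp_011 : CertFX 0 536870912 536870912 536870912 1046898278 26843546 false true true .pnn 0 1 1
    ndF0q0 ndF2q1 pcF1 Cut.none Ext.none :=
  certFX0 (fam := false) (s1 := true) (s2 := true) (a := 0) (b := 1) (c := 1) (cn := .pnn) (n1 := ndF0q0) (n2 := ndF2q1) (pc := pcF1) (cut := Cut.none) (xt := Ext.none) (P1 := 0) (W1 := 536870912) (P2 := 536870912) (W2 := 536870912) (P3 := 1046898278) (W3 := 26843546)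
    rfl k0_pp_011

noncomputable def f_pp_012_a : ℕ → ℕ → ℕ → ℕ → Bool := onCell 536870912 536870912 0 420477299 1046898278 26843546
    (rowFX 2 false true true .pnp 0 1 2 (qsf 0 536870912 0 420477299 1) ndF0q0 ndF2q2a pcF1 Cut.none Ext.none)

def k0_pp_012_a : ∃ t, chk3 f_pp_012_a t 2 1 1 = true :=
  ⟨(l 3), by decide +kernel⟩

def k1_pp_012_a : ∃ t, chk3 f_pp_012_a t 6 1 1 = true :=
  ⟨(b (a (l 3) (b (a (l 3) (a (a (l 3) (b (c (b (l 276656154583) (l 3)) (l 285782932375)) (l 3))) (b (a (a (b (c (l 197736127959) (l 172503187911)) (l 3)) (c (c (l 219210949767) (l 210621013655)) (c (l 200957334087) (l 188609301431)))) (c (c (l 122574214999) (l 16714520)) (c (l 16714144) (l 76403314103)))) (a (l 3) (b (c (c (l 368461125911) (l 359871190439)) (c (l 349670642215) (l 337322610359))) (l 3)))))) (l 3))) (l 3)), by decide +kernel⟩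

def k2_pp_012_a : ∃ t, chk3 f_pp_012_a t 28 4 1 = true :=
  ⟨(a (a (b (c (c (l 16729144) (l 16728784)) (c (l 16728432) (l 16707112))) (b (c (c (b (l 16709680) (l 145122771127)) (l 119889835671)) (c (l 107541803111) (a (l 219747877671) (l 16716952)))) (a (l 3) (b (c (c (l 283635470887) (l 16698816)) (c (l 16698368) (l 279340499623))) (l 3))))) (b (c (l 16677488) (c (l 16675904) (l 16674840))) (c (b (c (l 16679832) (l 16678816)) (b (c (a (l 16694312) (l 16668488)) (l 16680392)) (b (c (a (c (l 149417694615) (l 16695040)) (l 16669288)) (l 113984157943)) (c (a (l 211157851895) (l 16656672)) (l 145659535431))))) (b (c (l 16677792) (l 16676776)) (c (b (l 16679408) (a (l 222968997191) (l 16665872))) (c (b (l 16678672) (a (l 224042738135) (l 16665000))) (b (l 16657208) (a (b (l 123111012439) (l 228874607607)) (b (l 16665568) (l 16663312)))))))))) (c (b (c (l 16600664) (l 16598568)) (c (b (a (l 16628120) (l 16576200)) (a (b (l 16629560) (c (a (l 16642608) (l 16616648)) (l 16628760))) (b (l 16577496)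 (c (l 16577584) (l 16576392))))) (b (l 16599992) (a (b (l 16627872) (l 16627488)) (l 16574824))))) (b (c (l 16596472) (l 16573400)) (c (b (l 16597928) (a (b (l 16626184) (l 16625800)) (l 16572440))) (b (a (l 16622976) (l 16568984)) (a (b (l 16624504) (c (l 16624528) (b (l 16624888) (l 16622536)))) (b (l 16570352) (c (l 16570424) (l 16569232))))))))), by decide +kernel⟩

def k3_pp_012_a : ∃ t, chk3 f_pp_012_a t 29 4 1 = true :=
  ⟨(a (b (c (l 16495824) (c (l 16490640) (l 16487176))) (c (b (a (l 16522688) (l 16471040)) (a (c (b (l 16525352) (l 16524688)) (l 16521912)) (c (a (l 16485896) (l 16466984)) (a (l 16482304) (l 16463160))))) (a (b (l 16516496) (c (l 16518840) (b (l 16516136) (l 16515448)))) (b (l 16463496) (c (l 16469872) (a (l 16475120) (l 16455512))))))) (c (b (a (l 16438024) (l 16439936)) (b (a (l 16447920) (l 16451152)) (a (c (l 16464296) (l 16460512)) (l 16465648)))) (b (a (l 16429672) (l 16431872)) (a (b (l 16439904) (c (l 16456728) (l 16452944))) (b (l 16443456) (l 16458416)))))),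 by decide +kernel⟩

def k4_pp_012_a : ∃ t, chk3 f_pp_012_a t 28 10 1 = true :=
  ⟨(b (a (b (a (l 3) (a (l 3) (c (c (c (l 167134354423) (l 164450006455)) (l 168744972167)) (c (l 174113675447) (c (l 177871770407) (b (l 124184685639) (l 218673991287))))))) (l 3)) (c (c (c (a (a (b (l 16636240) (a (l 183240468935) (l 137606424231))) (a (l 16602096) (l 16599472))) (a (l 16579776) (l 16553496))) (a (a (l 127942713591) (l 16605000)) (l 16565320))) (a (a (b (l 16634200) (l 158544355191)) (l 16603456)) (l 16563384))) (c (a (a (b (l 16632568) (l 163376184775)) (l 16601408)) (l 16539840)) (a (b (c (l 16617744) (a (l 16630536) (l 16603208))) (a (c (l 168208020823) (b (a (l 186461667495) (l 16617456)) (l 206862738007))) (c (l 16595584) (l 16594520)))) (c (l 16558880) (a (l 16571376) (l 16543872))))))) (a (l 3) (a (a (l 3) (b (c (c (c (b (a (l 152638763479) (l 16588456)) (l 161765532487)) (l 151028094199)) (l 153175573447)) (c (l 154249303335) (c (l 157470526359) (a (l 197735855047) (a (l 146733120119) (l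 108615271015)))))) (l 3))) (c (c (c (b (a (l 16566032) (l 16539480)) (a (c (a (l 148343714423) (l 102709664007)) (l 93582886807)) (l 16528392))) (a (b (l 16564720) (l 95193500039)) (l 16532384))) (a (b (l 16562744) (l 147269917927)) (l 16530072))) (c (a (b (l 16560104) (l 151027998183)) (l 16526992)) (b (c (l 16544288) (a (l 16556808) (l 16529024))) (a (c (l 151564866183) (c (l 152101777591) (a (l 185387786903) (l 120963220775)))) (c (l 16518872) (l 16517288))))))))), by decide +kernel⟩

def k5_pp_012_a : ∃ t, chk3 f_pp_012_a t 29 10 1 = true :=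
  ⟨(a (c (a (b (c (c (l 16514000) (l 16512368)) (l 16509912)) (c (c (a (b (l 16512896) (l 16501600)) (b (l 16486696) (a (l 16461184) (l 16453936)))) (a (l 16505520) (b (l 16484856) (l 16477448)))) (a (l 16502944) (b (l 16482096) (l 16474592))))) (a (b (c (b (l 16479176) (l 16474208)) (l 16473896)) (c (b (l 16450960) (l 16472712)) (l 16447776))) (b (c (l 16469472) (l 16465672)) (c (l 16472272) (l 16468480))))) (a (b (c (l 16506640) (c (l 16504184) (l 16502544))) (c (a (l 16499512) (b (l 16478408) (l 16470784))) (a (c (l 16496944) (l 16495224)) (b (l 16474728) (a (l 16469872) (l 16462352)))))) (b (c (a (l 16470160) (l 16461864)) (a (b (l 16468064) (l 16462840)) (l 16458064))) (c (l 16454336) (a (b (l 16460408) (l 16461184)) (l 16460904)))))) (c (c (a (b (l 16470576) (l 16452192)) (b (l 16473448) (l 16475648))) (a (l 16457896) (l 16471216))) (c (a (l 16464688) (l 16467680)) (a (b (l 16459472) (l 16462088)) (l 16464144))))), by decide +kernel⟩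

def k6_pp_012_a : ∃ t, chk3 f_pp_012_a t 14 22 1 = true :=
  ⟨(a (a (l 3) (a (l 3) (a (b (c (c (c (l 189145866327) (l 196662056087)) (l 206862598903)) (c (l 218673752935) (c (l 226726812103) (l 233169260039)))) (l 3)) (c (c (b (c (c (a (l 131163767015) (l 76939779287)) (l 89824710135)) (l 91972194039)) (c (a (l 3) (l 170355288503)) (l 185387684535))) (b (l 140827388727) (l 197735710119))) (c (b (l 147269818503) (l 212768088487)) (b (c (l 149954169319) (c (l 150491038359) (a (l 174113415351) (l 107004492759)))) (c (l 222431759527) (l 228337335959)))))))) (a (c (a (c (a (b (c (b (l 16492256) (a (l 16492320) (a (l 16482200) (l 16456400)))) (b (l 16490424) (l 16484480))) (c (a (a (b (l 111836348087) (l 3)) (b (l 54391129815) (b (l 164986521943) (l 3)))) (b (a (c (l 16457208) (l 16477200)) (l 16476384)) (l 62981073303))) (a (b (l 16483544) (l 182166406551)) (l 60833567591)))) (b (c (a (b (l 16455296) (l 16475584)) (l 16475104)) (l 16452944)) (c (l 16476360) (l 16474416)))) (a (b (a (l 16491112)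 (l 16478392)) (a (b (l 16480696) (l 190756341207)) (l 16462032))) (b (l 16450032) (l 16471504)))) (c (c (b (l 16474936) (l 16455032)) (l 16452648)) (l 16449784))) (a (c (a (b (l 16481200) (a (b (l 16476888) (l 210620539159)) (l 16447640))) (b (l 16467128) (l 16467616))) (a (b (c (l 16478408) (a (l 16482920) (b (l 16472352) (l 16466640)))) (a (c (b (l 16474032) (l 218136727079)) (b (a (l 142974814503) (l 16468552)) (a (l 3) (l 216526114215)))) (c (l 87140223735) (b (l 16463584) (l 16442416))))) (b (c (l 16464216) (a (l 16462680) (l 16461536))) (c (l 16464696) (l 16462752))))) (c (l 16445968) (c (l 16464072) (a (l 16462136) (l 16462352)))))) (c (c (a (c (l 16455240) (l 16474368)) (l 16456392)) (a (l 16471592) (l 16473808))) (c (a (l 16467896) (l 16470256)) (a (l 16464192) (l 16466704)))))), by decide +kernel⟩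

def k7_pp_012_a : ∃ t, chk3 f_pp_012_a t 14 23 1 = true :=
  ⟨(a (l 3) (a (a (a (a (l 3) (b (b (c (c (l 177871450391) (l 16473040)) (c (l 16469120) (l 215452362887))) (l 3)) (l 3))) (c (c (b (c (a (l 78013429207) (l 16477256)) (l 16475576)) (c (l 174113351079) (l 183240131063))) (b (l 16472656) (l 194514420599))) (c (b (l 16447792) (l 209546806199)) (b (c (l 103246361911) (a (l 132237384983) (l 16463664))) (c (l 220284226135) (l 227263544103)))))) (c (c (c (b (l 16455872) (a (l 41506207543) (l 16477384))) (b (l 16474928) (l 16454624))) (c (l 16452464) (l 16450552))) (c (a (l 67276013367) (l 16468616)) (a (b (l 16443472) (c (l 16466136) (a (l 113446904215) (l 16464024)))) (c (l 16465752) (l 16463848)))))) (c (c (a (c (l 16456520) (l 16475624)) (l 16467704)) (a (l 16472832) (l 16474600))) (c (a (l 16469104) (l 16471008)) (a (c (l 16466304) (l 16464440)) (l 16467416)))))), by decide +kernel⟩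

def k8_pp_012_a : ∃ t, chk3 f_pp_012_a t 15 2 1 = true :=
  ⟨(a (b (a (c (b (l 16443056) (a (l 16459792) (l 16460408))) (b (l 16435480) (a (l 16452632) (l 16453536)))) (c (a (b (l 16451032) (l 16464536)) (b (l 16464352) (l 16476808))) (b (a (l 16444096) (l 16457968)) (a (l 16458064) (l 16470824))))) (a (b (c (a (c (l 16453464) (l 16471024)) (l 16471248)) (a (c (l 16467616) (l 16464208)) (l 16464664))) (c (a (c (b (l 16475832) (l 16475816)) (l 16472624)) (c (l 16451224) (l 16468808))) (a (c (l 16469160) (l 16465688)) (c (l 16465432) (l 16462048))))) (c (b (a (l 16473184) (l 16484264)) (a (l 16469968) (l 16458576))) (b (a (l 16466936) (l 16478432)) (a (l 16463472) (l 16473392)))))) (b (a (c (c (a (b (l 16483336) (l 16495024)) (b (l 16502848) (l 16513368))) (b (a (l 16483560) (l 16483272)) (a (l 16496656) (l 16516840)))) (b (c (l 16492088) (l 16489592)) (l 16463224))) (c (a (b (c (l 16527872) (l 16485712)) (c (l 16538392) (l 16539488))) (b (l 16557000) (l 16569776))) (a (c (b (a (l 16521760) (l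 16513272)) (l 16478704)) (l 16483392)) (c (b (a (l 16547776) (l 16562880)) (l 16547968)) (b (a (l 16547480) (c (l 16562168) (l 16561936))) (a (l 16561816) (c (l 16576280) (l 16576600)))))))) (a (c (b (a (c (l 16501608) (l 16504520)) (c (l 16518616) (l 16524032))) (a (c (l 16495840) (l 16499768)) (c (l 16511208) (l 16518304)))) (b (l 16513496) (c (l 16508720) (l 16506400)))) (c (b (a (l 16524232) (l 16576864)) (a (l 16496000) (l 16570504))) (a (b (c (l 16549472) (l 16550024)) (c (l 16543832) (l 16544808))) (b (c (l 16576584) (l 16578168)) (c (l 16570400) (a (l 16564568) (l 16579216))))))))), by decide +kernel⟩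

def k9_pp_012_a : ∃ t, chk3 f_pp_012_a t 14 3 1 = true :=
  ⟨(b (a (l 3) (b (b (a (a (l 3) (b (c (c (a (l 167134003271) (l 16461000)) (l 146732909751)) (c (l 162839037239) (c (l 173576449031) (a (l 222968576503) (l 16464232))))) (a (l 3) (c (c (l 154785970551) (l 16473336)) (c (l 16448496) (l 214378635623)))))) (c (a (c (b (l 16463568) (l 16455376)) (l 22715729223)) (c (l 16456736) (l 16474048))) (a (c (a (l 16468952) (l 16469240)) (a (b (l 16465208) (l 16464872)) (l 16465488))) (c (l 16470392) (l 16466736))))) (a (l 3) (c (a (c (a (l 153712229591) (l 16454416)) (l 147269781911)) (c (l 16454504) (l 16471712))) (a (c (l 162302157095) (b (a (l 198272506359) (l 16464136)) (l 199883124647))) (c (l 16467952) (c (l 16465128) (l 16463248))))))) (b (a (l 3) (a (l 3) (c (c (l 16450984) (l 16447096)) (c (l 147269758279) (a (l 178945138567) (l 74792178999)))))) (l 3)))) (l 3)), by decide +kernel⟩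

def k10_pp_012_a : ∃ t, chk3 f_pp_012_a t 15 6 1 = true :=
  ⟨(a (a (b (c (a (c (b (l 16474456) (l 16471288)) (l 16469568)) (c (l 16466824) (l 16463240))) (a (c (l 16465936) (b (l 16463728) (l 16460192))) (b (l 16459912) (l 16434136)))) (c (b (a (l 16463856) (l 16455504)) (a (c (l 45801165415) (l 16454352)) (c (l 16426688) (l 16443576)))) (c (a (b (l 16458064) (l 16450296)) (l 16424072)) (b (a (l 16454200) (l 16445888)) (a (b (l 16448120) (l 138679772039)) (l 16435416)))))) (c (b (a (c (l 16463640) (l 16460144)) (c (l 16471064) (l 16467976))) (a (b (l 16450280) (c (l 16440944) (l 16436904))) (b (l 16456840) (c (l 16445952) (l 16442304))))) (b (a (b (l 16457648) (l 16451456)) (l 16442128)) (a (b (l 16442712) (c (l 16432864) (l 16428824))) (b (l 16449472) (c (l 16438472) (l 16434640))))))) (a (c (b (a (c (l 16443024) (l 16489784)) (c (l 16498536) (l 16507176))) (c (a (b (l 16471032) (c (l 16455792) (l 16461184))) (b (l 16483120) (l 16469000))) (a (l 16470472) (b (l 16492792) (l 16479296)))))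 (b (c (l 16498328) (l 16495736)) (c (b (l 16484464) (l 16471280)) (b (l 16481552) (l 16468088))))) (c (b (a (c (l 16522264) (l 16526248)) (l 16558480)) (a (c (b (l 16506200) (l 16492344)) (b (l 16510664) (l 16497064))) (b (l 16543808) (l 16536096)))) (a (b (c (l 16490552) (l 16533776)) (c (a (l 16505864) (l 16474136)) (l 16513120))) (b (c (l 16558360) (a (l 16553000) (l 16525488))) (b (c (l 16543520) (a (l 16537792) (l 16552864))) (c (l 16535720) (a (l 16527784) (l 16526288))))))))), by decide +kernel⟩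

def k11_pp_012_a : ∃ t, chk3 f_pp_012_a t 60 7 1 = true :=
  ⟨(b (a (b (a (l 3) (b (b (c (l 313699710055) (l 162302089943)) (l 3)) (l 3))) (l 3)) (c (b (c (b (b (l 16439824) (a (b (l 16439864) (l 55464781655)) (l 16413512))) (a (l 71570948023) (l 82845221655))) (b (c (l 16414328) (l 16433160)) (l 58149177751))) (a (l 3) (b (c (c (l 80160907495) (l 16460600)) (l 16457600)) (l 3)))) (b (c (b (l 16429944) (l 16438616)) (b (l 65665292807) (l 117204904007))) (c (l 162302112311) (l 145659095863))))) (l 3)), by decide +kernel⟩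

def k12_pp_012_a : ∃ t, chk3 f_pp_012_a t 61 7 1 = true :=
  ⟨(a (b (c (b (b (c (a (l 16411200) (l 16429040)) (l 16405216)) (c (a (l 16439320) (l 16435936)) (l 16433272))) (c (a (b (c (l 16435816) (l 16454784)) (c (l 76402839335) (l 16473344))) (b (l 16452120) (c (l 16470152) (l 16468256)))) (b (a (l 16451776) (l 16448120)) (a (l 111836319415) (l 16465408))))) (b (c (b (l 16421920) (l 16429072)) (b (l 16417656) (l 16424864))) (c (b (l 16445816) (l 16464264)) (a (l 16453648) (l 16449080))))) (a (l 3) (b (b (c (c (c (l 96267092919) (l 16487384)) (l 111836349319)) (c (l 16481152) (l 16477592))) (l 3)) (l 3)))) (b (c (b (c (a (b (l 16430024) (l 16436760)) (b (l 16439512) (l 16446296))) (b (l 16430776) (l 16437592))) (c (a (b (l 16452856) (l 16469816)) (c (l 16471800) (l 16470536))) (b (l 16453960) (l 16471192)))) (b (c (l 16430320) (b (l 16422632) (l 16429560))) (c (l 16458944) (l 16455224)))) (b (c (c (a (b (a (l 16464504) (l 16489928)) (a (b (l 16489824) (l 16514112)) (l 16513304))) (b (c (l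 16500152) (l 16499088)) (c (l 16526168) (l 16525280)))) (b (a (l 16484200) (l 16496624)) (a (b (l 116668183959) (l 98414598727)) (l 16523064)))) (c (b (a (l 16480696) (l 16493352)) (a (l 94119591687) (l 16520104))) (b (l 16483968) (l 96267063015)))) (b (c (c (a (l 100562122647) (a (l 16551832) (l 16559544))) (a (l 107004562983) (l 16553464))) (c (a (l 174113418999) (l 16550880)) (l 71034190407))) (a (l 3) (c (c (c (l 113447097047) (l 16588592)) (l 122037037559)) (c (l 191293380199) (l 16561632)))))))), by decide +kernel⟩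

def k13_pp_012_a : ∃ t, chk3 f_pp_012_a t 31 14 1 = true :=
  ⟨(c (a (c (a (b (b (c (a (l 16443280) (l 16444816)) (l 16449376)) (c (l 16450256) (l 16456112))) (a (c (b (l 16465992) (l 16484008)) (l 16481624)) (c (l 16478824) (l 16467296)))) (b (b (l 16435256) (l 16443320)) (a (l 16491392) (l 16503248)))) (b (a (b (l 16451912) (l 16458856)) (b (c (l 16464992) (l 16469920)) (c (l 16473480) (l 16478656)))) (a (a (l 16479368) (l 16493032)) (c (a (l 16503568) (l 16513136)) (l 16492680))))) (a (b (c (b (l 16483096) (l 16496024)) (a (l 16444136) (l 16501816))) (c (l 16533336) (a (l 16530080) (l 16547032)))) (b (b (l 16533032) (l 16547760)) (l 16565584)))) (a (b (c (b (l 16459152) (l 16467304)) (b (l 16455720) (l 16463944))) (c (a (l 16483416) (l 16515464)) (a (l 16480152) (l 16512400)))) (a (c (b (a (l 16495032) (l 16467792)) (a (l 16540368) (l 16535264))) (b (l 16483880) (l 16551360))) (c (b (l 16498448) (l 16545464)) (b (a (c (l 16532240) (l 16533000)) (c (l 16551856) (l 16532848))) (a (l 16559184)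 (c (l 16599640) (l 16581128)))))))), by decide +kernel⟩

def k14_pp_012_a : ∃ t, chk3 f_pp_012_a t 31 15 1 = true :=
  ⟨(a (c (a (c (c (b (a (a (l 16500808) (l 16524200)) (l 16529112)) (a (b (l 16543784) (a (l 16596328) (l 16598088))) (l 16566616))) (b (a (l 16528752) (l 16518536)) (a (b (l 16572480) (l 16604008)) (b (l 16583328) (l 16593528))))) (b (a (l 16526952) (l 16545152)) (b (a (l 16571088) (l 16589680)) (a (l 16602912) (l 16621336))))) (c (b (a (l 16544352) (l 16556720)) (b (l 16552560) (a (l 16618728) (l 16631184)))) (b (a (c (l 16557880) (l 16563048)) (l 16508672)) (a (c (b (l 16602360) (l 16633992)) (l 16624112)) (c (l 16628136) (l 16596064)))))) (b (c (a (l 16512336) (l 16571312)) (a (l 16530648) (l 16568896))) (a (b (c (l 16578168) (l 16576048)) (c (a (l 16580040) (l 16619704)) (b (l 16600096) (l 16595944)))) (c (b (l 16616912) (l 16628352)) (b (l 16615032) (l 16647808)))))) (c (b (a (c (l 16566512) (a (l 16585264) (l 16602440))) (l 16600816)) (a (c (b (l 16631512) (l 16620464))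 (a (l 16604152) (l 16621176))) (b (l 16644552) (b (l 16684056) (l 16670392))))) (a (c (b (a (l 16576048) (l 16550136)) (c (a (l 16616384) (l 16629384)) (a (l 16662528) (l 16636880)))) (b (l 16609112) (a (l 16640856) (l 16640464)))) (c (b (l 16581928) (b (l 16626592) (a (l 16683136) (l 16705736)))) (b (a (l 16596456) (c (l 16657960) (l 16619040))) (a (b (l 16664640) (c (l 16712000) (l 16714232))) (c (l 16666768) (b (l 16705944) (l 16700944))))))))), by decide +kernel⟩

theorem s15_pp_012_a : ∃ t, chk3 f_pp_012_a t 31 7 1 = true := ex3_b k13_pp_012_a k14_pp_012_a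

theorem s16_pp_012_a : ∃ t, chk3 f_pp_012_a t 30 7 1 = true := ex3_a k11_pp_012_a k12_pp_012_a

theorem s17_pp_012_a : ∃ t, chk3 f_pp_012_a t 15 7 1 = true := ex3_a s16_pp_012_a s15_pp_012_a

theorem s18_pp_012_a : ∃ t, chk3 f_pp_012_a t 15 3 1 = true := ex3_b k10_pp_012_a s17_pp_012_a

theorem s19_pp_012_a : ∃ t, chk3 f_pp_012_a t 7 3 1 = true := ex3_a k9_pp_012_a s18_pp_012_a

theorem s20_pp_012_a : ∃ t, chk3 f_pp_012_a t 14 11 1 = true := ex3_b k6_pp_012_a k7_pp_012_a

theorem s21_pp_012_a : ∃ t, chk3 f_pp_012_a t 14 10 1 = true := ex3_a k4_pp_012_a k5_pp_012_a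

theorem s22_pp_012_a : ∃ t, chk3 f_pp_012_a t 14 5 1 = true := ex3_b s21_pp_012_a s20_pp_012_a

theorem s23_pp_012_a : ∃ t, chk3 f_pp_012_a t 14 4 1 = true := ex3_a k2_pp_012_a k3_pp_012_a

theorem s24_pp_012_a : ∃ t, chk3 f_pp_012_a t 14 2 1 = true := ex3_b s23_pp_012_a s22_pp_012_a

theorem s25_pp_012_a : ∃ t, chk3 f_pp_012_a t 7 2 1 = true := ex3_a s24_pp_012_a k8_pp_012_a

theorem s26_pp_012_a : ∃ t, chk3 f_pp_012_a t 7 1 1 = true := ex3_b s25_pp_012_a s19_pp_012_a

theorem s27_pp_012_a : ∃ t, chk3 f_pp_012_a t 3 1 1 = true := ex3_a k1_pp_012_a s26_pp_012_a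

theorem s28_pp_012_a : ∃ t, chk3 f_pp_012_a t 1 1 1 = true := ex3_a k0_pp_012_a s27_pp_012_a

theorem c_pp_012_a : CertFX 0 536870912 0 420477299 1046898278 26843546 false true true .pnp 0 1 2
    ndF0q0 ndF2q2a pcF1 Cut.none Ext.none :=
  certFX2 (fam := false) (s1 := true) (s2 := true) (a := 0) (b := 1) (c := 2) (cn := .pnp) (n1 := ndF0q0) (n2 := ndF2q2a) (pc := pcF1) (cut := Cut.none) (xt := Ext.none) (P1 := 0) (W1 := 536870912) (P2 := 0) (W2 := 420477299) (P3 := 1046898278) (W3 := 26843546)
    rfl (fun _ => rfl) s28_pp_012_a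

noncomputable def f_pp_012_b : ℕ → ℕ → ℕ → ℕ → Bool := onCell 536870912 536870912 1239849684 370763052 1046898278 26843546
    (rowFX 2 false true true .pnp 0 1 2 (qsf 0 536870912 1239849684 370763052 1) ndF0q0 ndF2q2b pcF1 Cut.none Ext.none)

def k0_pp_012_b : ∃ t, chk3 f_pp_012_b t 2 1 1 = true :=
  ⟨(l 3), by decide +kernel⟩

def k1_pp_012_b : ∃ t, chk3 f_pp_012_b t 6 2 1 = true :=
  ⟨(a (l 3) (a (l 3) (a (a (l 3) (b (b (b (c (c (l 203641711831) (l 16721440)) (c (l 16720720) (l 16720000))) (c (l 246054562215) (l 16744024))) (l 3)) (l 3))) (a (b (b (c (b (c (a (l 16721648) (l 16725952)) (l 16702064)) (c (l 16725720) (l 16746296))) (b (c (l 16722336) (l 16700672)) (c (l 16745904) (l 16745512)))) (c (b (c (l 16768152) (l 16768048)) (l 164987113543)) (b (c (l 16767936) (l 16746856)) (c (l 16773656) (l 16773616))))) (b (l 3) (l 3))) (b (c (b (c (b (l 16748880) (l 16754416)) (l 16717408)) (b (l 16739448) (l 16731904))) (b (b (c (l 16748488) (l 16727320)) (l 16754056)) (b (l 16717584) (c (l 16731016)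 (l 16730432))))) (c (b (l 16731488) (l 16731232)) (b (l 95193771431) (l 16730040)))))))), by decide +kernel⟩

def k2_pp_012_b : ∃ t, chk3 f_pp_012_b t 14 2 1 = true :=
  ⟨(b (a (c (b (a (b (c (l 16652008) (l 16672096)) (c (l 16677144) (l 16675960))) (c (l 16539952) (l 16579488))) (c (a (l 16594664) (l 16552376)) (a (l 16656032) (l 16549464)))) (b (a (b (c (l 16650232) (l 16628368)) (l 16611264)) (b (c (l 16586448) (l 16584184)) (l 16566784))) (a (b (l 16636968) (c (l 16650504) (l 16648888))) (b (l 16549584) (l 16540784))))) (c (b (a (c (l 16478352) (l 16474584)) (b (b (a (l 16420744) (l 16398800)) (l 16379728)) (l 16363816))) (a (c (l 16447112) (l 16442824)) (c (l 16343144) (l 16337496)))) (b (a (c (l 16470816) (l 16446072)) (b (a (l 16404112) (a (l 16374280) (l 16319408))) (l 16353288))) (a (b (l 16441176) (l 16431784)) (b (l 16334112) (l 16324128)))))) (a (c (b (c (l 16536776) (l 16555424)) (a (l 16651152) (l 16544352))) (b (a (c (l 16649696) (l 16648072)) (l 16539760)) (a (l 16647880) (l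 16538304)))) (c (b (a (l 16439296) (l 16334096)) (a (l 16437520) (l 16331928))) (b (a (l 16430520) (l 16322584)) (a (l 16428696) (l 16320360)))))), by decide +kernel⟩

def k3_pp_012_b : ∃ t, chk3 f_pp_012_b t 30 2 1 = true :=
  ⟨(b (a (b (c (b (a (b (l 16396624) (l 16321952)) (l 16355184)) (c (l 16224720) (l 16239128))) (b (a (b (l 16387472) (l 16310520)) (l 16345032)) (c (l 16253544) (l 16246992)))) (c (b (l 16238192) (l 16227776)) (b (l 16224272) (l 16213504)))) (b (c (a (b (l 16360720) (b (l 16230704) (l 16179128))) (b (c (l 16375080) (l 16370600)) (b (l 16238640) (l 16095856)))) (b (a (l 16351016) (l 16363784)) (a (b (l 16216984) (l 16163792)) (b (l 16225344) (l 16142968))))) (c (a (b (l 16159568) (l 16148504)) (b (l 16114024) (l 16102304))) (b (a (l 16143600) (l 16096792)) (a (l 16132176) (l 16084680)))))) (c (a (b (l 16225712) (l 16222704)) (b (a (l 16145904) (l 16099576)) (a (l 16142080) (l 16095544)))) (b (a (l 16211384) (c (l 16109648) (l 16101144))) (a (l 16208304) (l 16101352))))),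 by decide +kernel⟩

def k4_pp_012_b : ∃ t, chk3 f_pp_012_b t 31 4 1 = true :=
  ⟨(c (b (a (c (a (b (b (l 16437896) (l 16345480)) (l 16127552)) (b (l 16346936) (l 16226440))) (a (b (l 16389624) (l 16207008)) (b (c (l 16367376) (l 16387816)) (c (l 16223920) (l 16222040))))) (a (c (b (l 16370368) (l 16246488)) (b (a (l 16425000) (l 16416184)) (a (l 16236288) (l 16246712)))) (b (c (l 16439496) (l 16394816)) (c (l 16270400) (l 16264800))))) (a (b (a (c (b (a (l 16098808) (l 16091720)) (l 16070320)) (l 16079760)) (c (b (l 16095616) (l 16036976)) (b (l 16090072) (a (l 16034520) (l 16022512))))) (c (a (l 16063960) (l 16022416)) (a (l 16057392) (l 16015880)))) (b (a (c (b (l 16112904) (l 16030064)) (a (l 16059832) (l 16066216))) (c (l 16090296) (l 16081840))) (a (c (l 15986616) (a (l 15985512) (l 15968272))) (b (c (l 15975360) (l 15965000)) (l 15945224)))))) (b (a (c (b (l 16374872) (l 16208728)) (b (l 16391928) (l 16202008))) (a (c (c (a (l 16138752) (l 16191360)) (b (l 16386920) (l 16235872))) (b (l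 16426744) (l 16231640))) (c (a (c (l 16224416) (l 16201664)) (l 16194776)) (a (c (l 16179016) (l 16323840)) (c (l 16233760) (l 16106072)))))) (a (b (c (b (l 16064672) (l 16040152)) (b (l 16077016) (l 16030800))) (c (l 16027816) (l 16018272))) (b (a (c (a (l 15948072) (l 15996000)) (l 16048608)) (c (a (l 16068264) (l 16078880)) (a (l 16060464) (c (l 16072720) (l 16068752))))) (a (c (c (l 15971352) (l 15967024)) (l 15959696)) (c (b (a (l 15952632) (l 15952464)) (l 15929320)) (b (a (l 15943040) (c (l 15944792) (l 15939832))) (a (l 15928376) (l 15909600))))))))), by decide +kernel⟩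

def k5_pp_012_b : ∃ t, chk3 f_pp_012_b t 31 5 1 = true :=
  ⟨(c (a (c (b (a (l 16061224) (l 16019584)) (a (l 16057152) (l 16015368))) (b (a (l 16054816) (l 16013312)) (l 16029792))) (c (b (a (l 15982368) (l 15948568)) (l 15961928)) (b (a (l 15973528) (l 15937760)) (a (l 15969656) (l 15934256))))) (a (b (c (l 16025264) (l 16015688)) (l 16017200)) (c (a (b (l 15965264) (l 15961672)) (b (l 15927280) (l 15923816))) (a (l 15953920) (b (c (l 15919616) (l 15914608)) (l 15913856)))))), by decide +kernel⟩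

def k6_pp_012_b : ∃ t, chk3 f_pp_012_b t 3 3 1 = true :=
  ⟨(b (a (l 3) (a (a (c (c (a (l 16651200) (l 16543496)) (a (l 16649552) (l 16540440))) (c (a (l 16626936) (l 16537384)) (b (l 16464608) (l 127942424855)))) (c (c (l 16257272) (l 16336008)) (c (a (l 16427752) (l 16319376)) (a (l 16423296) (l 16313544))))) (a (c (a (b (l 16219344) (l 16215600)) (c (l 16118208) (l 16107096))) (a (b (l 16204848) (l 16201008)) (l 16094128))) (c (a (c (a (l 16049848) (l 16007728)) (l 16022808)) (c (l 15955016) (l 15945456))) (a (l 16010408) (c (a (l 15955120) (l 15917424)) (l 15927312))))))) (a (l 2) (a (b (a (l 2) (c (l 254039562391) (c (l 16368856) (l 16279768)))) (l 2)) (a (c (c (a (l 16212768) (l 16107624)) (l 16064864)) (c (a (l 16198016) (l 16087104)) (a (l 59155138423) (l 16078312)))) (c (a (c (l 16016640) (l 16011656)) (c (l 15943848) (l 15934576))) (a (c (l 16003736) (l 15993888)) (c (l 15925944) (l 72039357479)))))))), by decide +kernel⟩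

theorem s7_pp_012_b : ∃ t, chk3 f_pp_012_b t 31 2 1 = true := ex3_b k4_pp_012_b k5_pp_012_b

theorem s8_pp_012_b : ∃ t, chk3 f_pp_012_b t 15 2 1 = true := ex3_a k3_pp_012_b s7_pp_012_b

theorem s9_pp_012_b : ∃ t, chk3 f_pp_012_b t 7 2 1 = true := ex3_a k2_pp_012_b s8_pp_012_b

theorem s10_pp_012_b : ∃ t, chk3 f_pp_012_b t 3 2 1 = true := ex3_a k1_pp_012_b s9_pp_012_b

theorem s11_pp_012_b : ∃ t, chk3 f_pp_012_b t 3 1 1 = true := ex3_b s10_pp_012_b k6_pp_012_b

theorem s12_pp_012_b : ∃ t, chk3 f_pp_012_b t 1 1 1 = true := ex3_a k0_pp_012_b s11_pp_012_b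

theorem c_pp_012_b : CertFX 0 536870912 1239849684 370763052 1046898278 26843546 false true true .pnp 0 1 2
    ndF0q0 ndF2q2b pcF1 Cut.none Ext.none :=
  certFX2 (fam := false) (s1 := true) (s2 := true) (a := 0) (b := 1) (c := 2) (cn := .pnp) (n1 := ndF0q0) (n2 := ndF2q2b) (pc := pcF1) (cut := Cut.none) (xt := Ext.none) (P1 := 0) (W1 := 536870912) (P2 := 1239849684) (W2 := 370763052) (P3 := 1046898278) (W3 := 26843546)
    rfl (fun _ => rfl) s12_pp_012_b

noncomputable def f_pp_022_a : ℕ → ℕ → ℕ → ℕ → Bool := onCell 1073741824 536870912 0 420477299 1046898278 26843546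
    (rowFX 2 false true true .pp 0 2 2 (qsf 0 536870912 0 420477299 2) ndF0q0 ndF2q2a pcF2 Cut.none Ext.none)

def k0_pp_022_a : ∃ t, chk3 f_pp_022_a t 8 2 1 = true :=
  ⟨(b (a (c (b (l 16411048) (a (l 16343032) (l 16379000))) (b (l 16403216) (l 16330728))) (c (b (l 16449800) (a (l 16406848) (l 16415848))) (b (l 16444992) (l 16363480)))) (b (b (a (a (b (l 16304104) (c (a (c (l 16295368) (l 16289368)) (a (c (l 16309888) (l 16304240)) (l 16317440))) (b (l 16291880) (c (a (l 16260888) (l 16302152)) (a (a (l 16270840) (l 16280368)) (l 16296616)))))) (c (l 16347416) (l 16338032))) (c (a (l 16376840) (l 16390440)) (l 16376920))) (a (c (a (a (c (l 16307112) (l 16301328)) (c (a (l 16314816) (l 16321736)) (a (l 16309632) (l 16316944)))) (c (a (l 16334064) (l 16350976)) (a (l 16329632) (l 16346928)))) (a (c (a (l 16253824) (l 16308576)) (a (c (l 16291776) (l 16289200)) (l 16303784))) (c (a (l 16325280) (l 16342720)) (l 16329272)))) (a (c (c (a (l 16361488) (l 16369120)) (a (c (l 16358640) (l 16356688))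 (b (l 16369128) (l 16362488)))) (c (l 16357584) (l 16353576))) (b (l 16380080) (c (c (a (l 16374688) (a (l 16381504) (l 16385952))) (l 16375480)) (c (l 16372160) (l 16368840))))))) (a (c (a (a (c (l 16345912) (c (l 16342008) (l 16339512))) (c (a (l 16343448) (l 16344336)) (c (l 16341352) (l 16340248)))) (c (a (c (l 16347120) (l 16346104)) (l 16347632)) (a (l 16345160) (l 16346832)))) (a (c (a (a (l 16336744) (l 16335824)) (l 16339064)) (a (c (l 16333744) (l 16332232)) (l 16336840))) (c (a (l 16302160) (l 16344872)) (l 16339520)))) (c (a (c (a (l 16346272) (l 16346080)) (a (c (l 16345616) (l 16344768)) (c (l 16344976) (l 16343296)))) (c (a (c (l 16347968) (l 16347096)) (c (a (l 16350320) (l 16352896)) (l 16350152))) (a (l 16344504) (l 16347352)))) (a (c (l 16340776) (l 16336496)) (c (a (l 16340552) (l 16343680)) (l 16317112))))))), by decide +kernel⟩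

def k1_pp_022_a : ∃ t, chk3 f_pp_022_a t 9 2 1 = true :=
  ⟨(b (a (a (b (l 16445120) (l 16418448)) (c (b (l 16463032) (l 16450128)) (l 16455384))) (c (a (b (l 16499752) (l 16435952)) (c (l 16423752) (l 16400296))) (a (l 16493744) (l 16386008)))) (b (a (a (a (a (b (l 16395080) (c (l 16389904) (l 16384424))) (l 16394864)) (l 16407600)) (c (c (l 16444928) (l 16455920)) (l 16454072))) (c (a (c (l 16491056) (l 16507536)) (c (l 16433176) (l 16408536))) (a (l 16499616) (l 16391552)))) (a (c (a (a (b (c (l 16378376) (l 16375344)) (l 16351544)) (c (b (l 16408304) (l 16372304)) (l 16395792))) (c (b (a (c (l 16432384) (l 16446736)) (l 16376200)) (a (l 16400416) (l 16382240))) (b (a (l 16446448) (l 16486536)) (l 16370880)))) (a (c (b (l 16346872) (l 16362760)) (b (l 16386152) (l 16359632))) (b (c (l 16401640) (l 16442432)) (l 16373880)))) (c (a (c (b (a (b (l 16489008) (l 16482192)) (l 16506640)) (a (l 16445968) (l 16480816))) (a (b (l 16410944) (l 16480672)) (b (l 16482448) (l 16512232)))) (b (b (l 16412048)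 (c (l 16420776) (l 16404776))) (c (l 16380176) (l 16348104)))) (b (a (a (l 16462600) (l 16462904)) (c (a (l 16390024) (l 16359576)) (l 16352040))) (a (c (l 16373168) (l 16522032)) (c (a (l 16446824) (l 16384952)) (l 16396736)))))))), by decide +kernel⟩

def k2_pp_022_a : ∃ t, chk3 f_pp_022_a t 16 6 1 = true :=
  ⟨(c (a (a (b (c (b (l 16390928) (l 16424776)) (c (l 16404040) (l 16402112))) (c (b (l 16457864) (c (l 16490672) (l 16489128))) (b (c (l 16455200) (l 16453736)) (c (l 16487584) (l 16486408))))) (b (c (a (b (l 16377552) (l 16400184)) (l 16376936)) (c (l 16381120) (l 16381816))) (c (c (a (l 16431120) (l 16407368)) (b (l 16410072) (l 16388896))) (c (b (l 16410752) (l 16432232)) (l 16381600))))) (b (c (a (b (l 16359512) (l 16366304)) (l 16344848)) (a (l 16343992) (l 16348760))) (c (a (b (l 16375472) (c (l 16385976) (l 16389064))) (b (l 16347352) (l 16352296))) (a (b (l 16381256) (l 16395848)) (l 16337448))))) (a (a (c (b (a (l 16405568) (l 16353256)) (a (b (l 16464200) (l 16500376)) (c (l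 16455296) (l 16456816)))) (b (a (c (l 16403256) (l 16403024)) (l 16375008)) (c (a (l 16480408) (l 16460352)) (a (b (l 16463784) (l 16501352)) (l 16463168))))) (c (b (l 16341896) (b (l 16417424) (l 16441688))) (b (l 16364240) (c (l 16434448) (l 16434472))))) (c (b (a (c (l 16368088) (l 16369264)) (l 16350056)) (a (c (l 16395112) (l 16398424)) (c (l 16363824) (l 16363432)))) (b (l 16356512) (b (l 16372048) (l 16386224)))))), by decide +kernel⟩

def k3_pp_022_a : ∃ t, chk3 f_pp_022_a t 17 6 1 = true :=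
  ⟨(c (c (a (b (a (l 16330288) (l 16317176)) (b (a (l 16322800) (l 16305016)) (a (l 16326816) (c (l 16310952) (l 16318368))))) (b (a (c (l 16309144) (l 16309800)) (c (b (l 16316728) (l 16304440)) (l 16311664))) (a (c (b (l 16298104) (l 16293336)) (b (l 16302808) (l 16311944))) (c (b (a (l 16291840) (l 16286888)) (a (l 16279232) (l 16266192))) (b (l 16303080) (l 16292136)))))) (a (b (a (c (l 16333064) (l 16333944)) (c (l 16318776) (l 16317504))) (a (b (l 16329264) (c (l 16334472) (l 16337824))) (b (l 16308216) (l 16321040)))) (b (a (l 16307360) (l 16308384)) (a (l 16306888) (b (l 16302320) (l 16304424)))))) (a (b (c (l 16322600) (l 16318024)) (c (b (l 16317352) (l 16307288)) (b (l 16312672) (l 16323688)))) (b (c (a (l 16302792) (l 16304024)) (a (l 16298224) (l 16299656))) (c (a (l 16302208) (l 16299584)) (a (l 16297536) (l 16295024)))))), by decide +kernel⟩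

def k4_pp_022_a : ∃ t, chk3 f_pp_022_a t 32 7 2 = true :=
  ⟨(b (a (c (b (b (l 16473984) (l 16517936)) (c (l 16506168) (l 16504720))) (b (c (l 16514672) (b (l 16512936) (l 16515008))) (c (l 16503280) (l 16502336)))) (c (b (c (a (l 16460840) (l 16429600)) (b (l 16427864) (l 16445256))) (a (c (l 16440296) (l 16440128)) (l 16385776))) (b (c (b (l 16450784) (l 16447488)) (l 16453048)) (a (l 16443600) (l 16415176))))) (c (a (b (c (b (l 16492616) (c (a (l 16511136) (l 16464664)) (l 16486760))) (l 16415760)) (c (b (c (b (l 16486592) (l 16491056)) (a (l 16510440) (l 16468104))) (c (a (l 16518528) (l 16461656)) (l 16495640))) (b (c (l 16468368) (l 16487448)) (c (b (l 16495080) (l 16498552)) (b (l 16494024) (l 16499936)))))) (c (c (b (b (l 16387192) (a (l 16423816) (b (l 16391096) (l 16388776)))) (a (b (l 16419512) (l 16406896)) (b (b (l 16381176) (l 16371200)) (l 16356608)))) (b (a (l 16422840) (l 16394248)) (a (b (a (l 16436800) (l 16415648)) (a (l 16433840) (l 16403640))) (b (l 16389576) (l 16372312)))))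 (b (a (l 16423240) (l 16396672)) (a (b (l 16426704) (c (a (l 16439232) (a (l 16421616) (l 16411816))) (a (l 16440832) (l 16422896)))) (b (l 16398808) (c (l 16385856) (l 16400648))))))) (a (b (c (l 16445648) (a (l 16508936) (l 16462096))) (c (l 16427904) (a (l 16511488) (l 16467824)))) (b (c (a (l 16425184) (l 16401408)) (l 16378024)) (c (a (l 16431344) (l 16405736)) (l 16425504)))))), by decide +kernel⟩

def k5_pp_022_a : ∃ t, chk3 f_pp_022_a t 33 7 2 = true :=
  ⟨(b (c (b (a (b (c (l 16396912) (l 16400784)) (c (l 16388704) (l 16393016))) (b (c (l 16357256) (l 16363384)) (l 16356776))) (a (a (l 16382400) (c (l 16363736) (l 16366216))) (c (a (l 16344392) (l 16325048)) (l 16350256)))) (b (a (c (l 16381040) (l 16408512)) (b (l 16373008) (l 16370824))) (a (c (l 16383008) (l 16390760)) (l 16362632)))) (b (c (b (a (c (l 16359112) (l 16369536)) (c (l 16268696) (l 16337704))) (c (a (c (l 16277344) (l 16350104)) (c (l 16280680) (l 16298376))) (a (l 16366160) (l 16320344)))) (a (l 16359968) (c (l 16347704)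 (l 16359024)))) (c (a (c (b (c (l 16320904) (a (l 16354280) (l 16319840))) (c (l 16301384) (l 16294800))) (b (a (l 16371352) (l 16340072)) (a (c (l 16350728) (l 16364592)) (c (l 16314168) (l 16332744))))) (c (a (b (l 16279672) (l 16259752)) (l 16245952)) (b (l 16300848) (a (l 16293328) (l 16265072))))) (c (a (b (l 16374664) (a (l 16381368) (l 16352296))) (b (l 16330488) (l 16291992))) (a (l 16385024) (b (l 16352912) (l 16341224))))))), by decide +kernel⟩

def k6_pp_022_a : ∃ t, chk3 f_pp_022_a t 16 7 3 = true :=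
  ⟨(b (b (a (c (a (a (l 16530960) (c (l 16495512) (l 16498240))) (c (l 16457704) (l 16464144))) (a (c (a (l 16530808) (l 16503552)) (c (l 16456968) (l 16500184))) (c (l 16469368) (l 16470152)))) (c (a (c (l 16415696) (l 16420720)) (c (l 16381248) (l 16381488))) (a (l 16420288) (l 16378432)))) (a (c (a (a (l 16522536) (l 16420472)) (c (l 16437912) (l 16445504))) (a (a (c (l 16522552) (l 16525512)) (l 16470976)) (l 16388832))) (c (a (c (l 16399296) (l 16405320)) (l 16372400)) (a (l 16405096) (l 16369952))))) (a (c (a (b (a (l 16486032) (c (l 16463360) (l 16467208))) (a (c (l 16510064) (l 16508920)) (c (l 16469504) (l 16474112)))) (b (c (l 16426472) (l 16435344)) (c (l 16433168) (l 16443512)))) (b (a (c (a (l 16507120) (l 16474480)) (a (l 16468624) (l 16480512))) (c (l 16442600) (l 16443952))) (a (c (a (a (l 16518672) (l 16499640)) (l 16482600)) (a (a (l 16499304) (l 16505736)) (l 16489680))) (c (l 16452024) (l 16453824))))) (c (b (a (c (l 16395400) (l 16402560)) (l 16344880)) (c (a (l 16396728)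 (l 16359072)) (a (l 16405136) (l 16360304)))) (b (l 16362064) (a (l 16405664) (l 16356936)))))), by decide +kernel⟩

def k7_pp_022_a : ∃ t, chk3 f_pp_022_a t 17 14 2 = true :=
  ⟨(a (c (b (a (c (b (l 16337960) (l 16332992)) (l 16344920)) (c (b (l 16315640) (l 16302448)) (b (l 16336216) (l 16323976)))) (a (c (b (l 16311704) (l 16289872)) (l 16259064)) (c (b (l 16276248) (l 16248880)) (l 16228488)))) (b (a (c (l 16351576) (l 16356112)) (c (l 16339592) (l 16339608))) (c (a (l 16340352) (a (l 16323776) (l 16305408))) (a (l 16346056) (l 16320864))))) (c (b (a (c (b (l 16290080) (l 16269224)) (b (a (l 16325088) (l 16308656)) (l 16276464))) (c (b (a (l 16266912) (l 16252888)) (l 16240464)) (b (l 16283368) (l 16260616)))) (a (c (l 16229144) (a (l 16266008) (l 16244096))) (c (a (l 16208832) (l 16198192)) (l 16216720)))) (b (c (a (l 16253632) (b (l 16301160) (l 16279888))) (a (l 16322136) (l 16299704))) (a (c (l 16273688) (l 16286536)) (c (l 16232992) (l 16186192)))))), by decide +kernel⟩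

def k8_pp_022_a : ∃ t, chk3 f_pp_022_a t 17 15 2 = true :=
  ⟨(a (c (b (c (a (b (l 16264992) (l 16240352)) (l 16214632)) (a (b (l 16296808) (l 16272992)) (l 16242584))) (c (a (b (l 16221624) (l 16208016)) (b (l 16186784) (l 16179744))) (a (b (l 16249568) (l 16230528)) (b (l 16209728) (l 16194312))))) (b (a (c (l 16248272) (l 16328776)) (c (a (l 16259440) (l 16236344)) (l 16263864))) (a (c (b (l 16283360) (l 16259672)) (b (l 16265680) (a (l 16303176) (l 16273752)))) (c (b (l 16230096) (l 16212248)) (b (l 16251064) (l 16228784)))))) (c (b (a (c (l 16187312) (a (l 16211544) (l 16195120))) (c (a (l 16172680) (l 16165816)) (l 16173976))) (c (a (b (l 16166152) (l 16164272)) (c (a (l 16135408) (b (l 16152552) (l 16147624))) (a (b (l 16161152) (l 16157032)) (l 16148464)))) (a (c (b (l 16175960) (a (l 16173520) (l 16166144))) (l 16177816)) (c (l 16151888) (l 16151928))))) (b (a (c (l 16219808) (b (l 16250288) (l 16220280))) (c (l 16179160) (l 16189096))) (a (b (l 16191032) (l 16176152)) (l 16108672))))),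 by decide +kernel⟩

def k9_pp_022_a : ∃ t, chk3 f_pp_022_a t 17 7 3 = true :=
  ⟨(b (c (a (b (a (l 16355136) (l 16336288)) (l 16331248)) (b (a (l 16318744) (l 16302528)) (a (l 16291464) (c (l 16259576) (l 16263264))))) (a (b (l 16341176) (l 16326632)) (b (l 16305880) (l 16272384)))) (a (c (b (a (l 16329800) (c (l 16289448) (l 16291080))) (a (c (b (l 16318856) (l 16304280)) (l 16312296)) (c (b (l 16264816) (l 16199776)) (b (l 16271360) (l 16252760))))) (b (l 16306040) (a (l 16308536) (l 16262104)))) (c (b (a (c (l 16185304) (l 16251968)) (c (b (l 16215848) (l 16185280)) (b (l 16226096) (l 16196792)))) (a (b (c (l 16206960) (l 16220272)) (c (l 16182416) (a (l 16207496) (l 16177816)))) (b (c (l 16157264) (l 16124728)) (l 16143960)))) (c (b (l 16149376) (a (b (l 16222832) (l 16182280)) (b (l 16136040) (a (l 16160032) (l 16134912))))) (b (l 16230408) (a (l 16211336) (b (l 16177440) (a (l 16164960) (l 16078104))))))))), by decide +kernel⟩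

def k10_pp_022_a : ∃ t, chk3 f_pp_022_a t 9 6 1 = true :=
  ⟨(a (c (b (a (c (a (b (l 16332896) (l 16308176)) (b (l 16347336) (l 16317392))) (a (l 16326320) (l 16352280))) (c (a (b (l 16362000) (l 16328392)) (l 16257728)) (b (c (l 16396312) (l 16404640)) (a (l 16357656) (l 16353032))))) (a (c (b (a (l 16245152) (l 16249376)) (a (c (l 16257352) (l 16278408)) (l 16267632))) (b (a (l 16311208) (l 16318840)) (c (a (l 16294168) (l 16291368)) (l 16262304)))) (c (b (a (l 16296128) (l 16315008)) (a (l 16279496) (l 16305280))) (b (a (l 16286408) (l 16319856)) (a (c (l 16293304) (l 16307432)) (l 16313768)))))) (a (b (c (l 16336096) (l 16332464)) (c (a (l 16306872) (l 16300712)) (l 16310984))) (b (c (a (l 16380040) (l 16362800)) (l 16393088)) (c (b (c (l 16353928) (l 16358224)) (a (l 16323960) (c (l 16328904) (l 16341008)))) (b (l 16357744) (l 16342280)))))) (c (c (b (a (a (b (l 16403848) (l 16368176)) (l 16366728)) (l 16413168)) (a (a (b (l 16348384) (l 16343096)) (l 16396272)) (l 16377320))) (b (a (a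 (b (c (l 16425464) (l 16445360)) (l 16372616)) (l 16341840)) (l 16409456)) (a (a (b (l 16357664) (l 16342392)) (l 16395880)) (l 16439400)))) (a (b (c (a (b (l 16456240) (l 16395800)) (b (l 16491096) (l 16447752))) (a (l 16443536) (l 16480208))) (c (a (b (l 16297944) (l 16310400)) (b (l 16410248) (l 16390416))) (a (b (l 16392416) (l 16305336)) (b (l 16427552) (l 16357480))))) (b (b (c (l 16373440) (l 16398848)) (c (l 16494264) (l 16375208))) (c (l 16439696) (b (l 16370640) (l 16475416))))))), by decide +kernel⟩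

def k11_pp_022_a : ∃ t, chk3 f_pp_022_a t 9 7 1 = true :=
  ⟨(b (a (c (a (c (b (a (b (l 16255368) (l 16237656)) (b (l 16259032) (l 16244208))) (a (l 16182072) (l 16217912))) (b (a (c (l 16227256) (l 16243936)) (b (l 16283496) (l 16260360))) (a (c (l 16211264) (l 16225472)) (l 16221552)))) (c (b (a (b (l 16277192) (l 16267040)) (l 16303800)) (c (l 16257592) (l 16255168))) (b (c (l 16268424) (l 16230912)) (l 16231432)))) (a (c (c (b (a (l 16294920) (l 16293576)) (a (l 16216048) (l 16230712))) (b (l 16257456) (a (l 16247488) (l 16200480)))) (b (l 16298016) (a (l 16248712) (l 16204288)))) (c (b (a (c (l 16292496) (l 16285648)) (b (l 16317560) (l 16296896))) (a (l 16159560) (l 16261968))) (b (a (l 16285064) (c (l 16320056) (l 16327440))) (a (c (l 16229560) (l 16257520)) (c (l 16262800) (l 16266232))))))) (a (b (c (c (a (l 16297736) (l 16385576)) (a (l 16336312) (l 16382992))) (c (l 16241960) (a (c (l 16337208) (l 16321288)) (l 16379448)))) (c (c (a (l 16300504) (l 1)) (l 16254360)) (c (l 16313592)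 (l 16289544)))) (l 1))) (a (a (b (c (c (a (l 16170944) (l 16189704)) (a (l 16170792) (l 16183896))) (c (a (c (l 16175896) (b (l 16200472) (l 16166824))) (l 16184424)) (a (c (b (l 16207696) (l 16176560)) (l 16195392)) (c (b (l 16199672) (l 16172256)) (b (l 16207208) (l 16176544)))))) (b (c (c (c (c (l 16163192) (l 16163408)) (l 16160936)) (l 16155992)) (c (l 16151848) (a (c (l 16147536) (a (l 16153920) (l 16148920))) (l 16154016)))) (a (c (c (c (l 16148336) (l 16141576)) (l 16138576)) (c (l 16131656) (c (l 16127680) (a (l 16127152) (l 16127592))))) (l 1)))) (b (a (c (c (l 16210456) (l 16204800)) (c (l 16199160) (c (l 16196824) (l 16198752)))) (l 1)) (l 1))) (l 1))), by decide +kernel⟩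

def k12_pp_022_a : ∃ t, chk3 f_pp_022_a t 5 1 1 = true :=
  ⟨(a (b (a (b (a (c (b (l 16310984) (l 16294840)) (b (l 16276984) (c (l 16291128) (l 16275376)))) (c (l 16355064) (b (l 442950841463) (a (l 16251736) (l 16309512))))) (a (b (c (l 16307120) (c (l 16247400) (l 16250192))) (c (b (l 16284464) (c (a (l 16326168) (l 16229336)) (l 16181080))) (b (c (l 16272488) (l 16257128)) (c (l 16196200) (a (l 16282512) (l 16215248)))))) (b (c (l 16409584) (l 303901287431)) (b (a (l 530460800679) (l 1)) (l 1))))) (b (l 1) (l 1))) (a (b (b (a (a (c (c (l 16383704) (l 16403080)) (c (l 16401392) (l 16331744))) (l 1)) (l 1)) (l 1)) (l 1)) (l 1))) (l 1)), by decide +kernel⟩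

def k13_pp_022_a : ∃ t, chk3 f_pp_022_a t 3 1 1 = true :=
  ⟨(l 1), by decide +kernel⟩

theorem s14_pp_022_a : ∃ t, chk3 f_pp_022_a t 9 3 1 = true := ex3_b k10_pp_022_a k11_pp_022_a

theorem s15_pp_022_a : ∃ t, chk3 f_pp_022_a t 17 7 2 = true := ex3_b k7_pp_022_a k8_pp_022_a

theorem s16_pp_022_a : ∃ t, chk3 f_pp_022_a t 17 7 1 = true := ex3_c s15_pp_022_a k9_pp_022_a

theorem s17_pp_022_a : ∃ t, chk3 f_pp_022_a t 16 7 2 = true := ex3_a k4_pp_022_a k5_pp_022_a

theorem s18_pp_022_a : ∃ t, chk3 f_pp_022_a t 16 7 1 = true := ex3_c s17_pp_022_a k6_pp_022_a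

theorem s19_pp_022_a : ∃ t, chk3 f_pp_022_a t 8 7 1 = true := ex3_a s18_pp_022_a s16_pp_022_a

theorem s20_pp_022_a : ∃ t, chk3 f_pp_022_a t 8 6 1 = true := ex3_a k2_pp_022_a k3_pp_022_a

theorem s21_pp_022_a : ∃ t, chk3 f_pp_022_a t 8 3 1 = true := ex3_b s20_pp_022_a s19_pp_022_a

theorem s22_pp_022_a : ∃ t, chk3 f_pp_022_a t 4 3 1 = true := ex3_a s21_pp_022_a s14_pp_022_a

theorem s23_pp_022_a : ∃ t, chk3 f_pp_022_a t 4 2 1 = true := ex3_a k0_pp_022_a k1_pp_022_a

theorem s24_pp_022_a : ∃ t, chk3 f_pp_022_a t 4 1 1 = true := ex3_b s23_pp_022_a s22_pp_022_a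

theorem s25_pp_022_a : ∃ t, chk3 f_pp_022_a t 2 1 1 = true := ex3_a s24_pp_022_a k12_pp_022_a

theorem s26_pp_022_a : ∃ t, chk3 f_pp_022_a t 1 1 1 = true := ex3_a s25_pp_022_a k13_pp_022_a

theorem c_pp_022_a : CertFX 0 536870912 0 420477299 1046898278 26843546 false true true .pp 0 2 2
    ndF0q0 ndF2q2a pcF2 Cut.none Ext.none :=
  certFX2 (fam := false) (s1 := true) (s2 := true) (a := 0) (b := 2) (c := 2) (cn := .pp) (n1 := ndF0q0) (n2 := ndF2q2a) (pc := pcF2) (cut := Cut.none) (xt := Ext.none) (P1 := 0) (W1 := 536870912) (P2 := 0) (W2 := 420477299) (P3 := 1046898278) (W3 := 26843546)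
    rfl (fun _ => rfl) s26_pp_022_a

noncomputable def f_pp_022_b : ℕ → ℕ → ℕ → ℕ → Bool := onCell 0 536870912 1073741824 536870912 1046898278 26843546
    (rowFX 1 false true true .pp 0 2 2 (qsf 0 536870912 1239849684 370763052 2) ndF0q0 ndF2q2b pcF2 Cut.none Ext.none)

def k0_pp_022_b : ∃ t, chk3 f_pp_022_b t 2 4 1 = true :=
  ⟨(a (a (b (l 1) (a (a (l 1) (b (l 1) (c (l 493417035431) (l 478384475943)))) (a (b (l 1) (c (b (l 577168795719) (c (l 16397840) (l 16370248))) (b (l 16517176) (l 16353544)))) (b (c (b (l 1) (l 572873824023)) (l 483216451591)) (c (b (l 16350824) (l 16225888)) (l 16223952)))))) (b (a (b (l 1) (a (l 1) (b (l 1) (l 462278454743)))) (b (a (l 1) (b (l 1) (c (l 393022111847) (l 347388069687)))) (b (a (c (l 454225395239) (l 366178553671)) (c (l 16359384) (l 16397136))) (c (a (l 16380064) (l 16501752)) (l 43519147767))))) (a (b (a (c (b (l 536366672599) (l 16420920)) (b (l 16389904) (l 16440912))) (b (l 16349664) (l 16342248))) (a (c (b (l 16351048) (l 16126672)) (l 16146176))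 (l 16019384))) (b (b (l 16173536) (l 15955408)) (c (l 15788256) (l 15728064)))))) (b (a (b (a (a (b (c (l 403759493943) (l 344703677239)) (c (l 16380024) (l 16395224))) (a (c (l 128881584807) (l 16329688)) (l 16347584))) (b (l 16409760) (l 16280088))) (a (c (b (l 16388376) (l 16273952)) (c (l 16189936) (l 16187656))) (c (l 15960952) (b (l 16262616) (l 16075536))))) (a (b (a (b (l 16461208) (l 16319016)) (c (l 16254912) (l 16244048))) (c (l 15804592) (l 15785128))) (b (c (a (l 16213216) (l 16183472)) (a (l 16198824) (l 16168048))) (c (a (l 15827904) (l 15799624)) (l 15578976))))) (c (a (b (a (b (l 16131864) (l 15934088)) (l 15812592)) (a (l 15642512) (l 15447960))) (a (b (l 15554992) (l 15271056)) (b (a (l 15485608) (l 15459368)) (a (l 15151800) (l 15128264))))) (a (b (a (b (l 16119184) (l 15916288)) (l 15685560)) (a (l 15617168) (l 15416344))) (a (b (l 15589256) (l 15233408)) (b (l 15438576) (l 15097488))))))), by decide +kernel⟩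

def k1_pp_022_b : ∃ t, chk3 f_pp_022_b t 2 5 1 = true :=
  ⟨(a (b (a (b (b (a (c (a (l 16319320) (a (l 16281192) (l 16270640))) (a (c (l 16309488) (l 16210152)) (c (l 16240520) (l 16250328)))) (c (a (l 16066000) (l 16039240)) (l 16073800))) (a (c (a (l 16403976) (l 16324368)) (a (b (l 314101737735) (l 16208728)) (l 16251920))) (c (a (l 16113280) (l 16049664)) (l 16085936)))) (a (c (b (a (l 16031136) (l 16070672)) (l 15719032)) (a (c (l 15799720) (l 15641056)) (a (l 15764632) (l 15865632)))) (c (b (a (l 16100744) (l 16338624)) (l 15739992)) (b (l 16264896) (l 15958392))))) (b (b (a (c (l 15830672) (l 15826616)) (c (l 15583800) (l 15558096))) (a (a (l 15965112) (l 15883048)) (l 15700600))) (a (a (b (l 16262960) (l 16092128)) (l 16168488)) (b (l 15995400) (l 16290720))))) (a (b (a (c (l 15042512) (a (l 14986240) (l 15265544))) (c (a (l 15397264) (l 15533312)) (l 15462776))) (a (c (l 14868392) (a (l 14775016) (l 14914600))) (c (l 15003168) (l 15131568)))) (b (a (c (l 15647672) (l 15717920)) (l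 15793896)) (c (a (l 15440744) (l 15792048)) (l 15528848))))) (b (b (a (b (c (a (l 15376272) (l 15195296)) (l 15248344)) (c (l 15278816) (l 15394232))) (b (c (a (l 15031912) (l 14911752)) (a (l 14988048) (l 14863432))) (a (l 15167712) (l 14926976)))) (a (b (c (l 15729568) (l 15792536)) (a (l 16172368) (l 16100072))) (a (l 15518904) (c (l 15680936) (l 15652600))))) (b (a (a (l 16077120) (l 16350096)) (a (l 16272712) (b (l 16235120) (l 16588552)))) (a (c (l 16211400) (l 16196712)) (a (l 16575760) (l 16760848)))))), by decide +kernel⟩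

def k2_pp_022_b : ∃ t, chk3 f_pp_022_b t 3 2 1 = true :=
  ⟨(a (b (b (a (c (b (a (l 16186080) (l 16190016)) (a (l 15800248) (l 15801216))) (b (l 15983928) (l 15775344))) (c (b (l 16154936) (l 15802944)) (b (l 16181808) (l 15777632)))) (a (c (b (a (l 15458936) (l 15458208)) (l 15127488)) (b (l 15424344) (l 15084632))) (c (b (l 15456872) (l 15125464)) (l 15247568)))) (b (b (b (c (a (l 14900728) (l 14899144)) (l 14851184)) (a (c (l 15064896) (l 15020424)) (l 15041680))) (a (c (l 15672424) (l 15643728)) (l 15657960))) (b (a (b (l 16227472) (l 16581424)) (b (l 16227688) (l 2))) (c (l 16776704) (l 16776696))))) (b (b (a (c (b (l 16207872) (l 15805784)) (b (l 16193088) (l 15780552))) (c (b (l 16221088) (l 15809272)) (b (l 16206648) (l 15784136)))) (a (c (b (l 15454568) (l 15122544)) (l 15244792)) (c (l 15049432) (l 15241232)))) (b (b (b (c (l 14894800) (l 14845904)) (l 2)) (l 2)) (l 2)))), by decide +kernel⟩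

def k3_pp_022_b : ∃ t, chk3 f_pp_022_b t 1 3 1 = true :=
  ⟨(a (a (b (a (c (a (b (l 14867920) (l 14867920)) (b (l 15149528) (l 15149528))) (a (b (a (l 14774520) (l 14914112)) (c (l 14852904) (l 14847848))) (l 15047224))) (a (b (l 15302288) (l 15344232)) (b (l 15778896) (l 15778896)))) (a (a (c (l 14867920) (b (l 14854024) (l 14854024))) (c (l 15149528) (l 15131104))) (a (l 15428120) (l 15778896)))) (b (a (b (l 16203752) (l 16203752)) (a (l 16533576) (l 16760648))) (a (l 16203752) (l 2)))) (b (a (c (l 16777216) (l 16777216)) (l 2)) (l 2))), by decide +kernel⟩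

theorem s4_pp_022_b : ∃ t, chk3 f_pp_022_b t 2 2 1 = true := ex3_b k0_pp_022_b k1_pp_022_b

theorem s5_pp_022_b : ∃ t, chk3 f_pp_022_b t 1 2 1 = true := ex3_a s4_pp_022_b k2_pp_022_b

theorem s6_pp_022_b : ∃ t, chk3 f_pp_022_b t 1 1 1 = true := ex3_b s5_pp_022_b k3_pp_022_b

theorem c_pp_022_b : CertFX 0 536870912 1239849684 370763052 1046898278 26843546 false true true .pp 0 2 2
    ndF0q0 ndF2q2b pcF2 Cut.none Ext.none :=
  certFX1 (fam := false) (s1 := true) (s2 := true) (a := 0) (b := 2) (c := 2) (cn := .pp) (n1 := ndF0q0) (n2 := ndF2q2b) (pc := pcF2) (cut := Cut.none) (xt := Ext.none) (P1 := 0) (W1 := 536870912) (P2 := 1239849684) (W2 := 370763052) (P3 := 1046898278) (W3 := 26843546)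
    rfl (fun _ => rfl) s6_pp_022_b

noncomputable def f_pp_023 : ℕ → ℕ → ℕ → ℕ → Bool := onCell 0 536870912 1073741824 536870912 1046898278 26843546
    (rowFX 1 false true true .up 0 2 3 (qsf 0 536870912 1610612736 469762048 2) ndF0q0 ndF2q3 pcF2 Cut.none Ext.none)

def k0_pp_023 : ∃ t, chk3 f_pp_023 t 1 1 1 = true :=
  ⟨(b (b (a (l 1) (b (a (l 1) (a (c (l 323227785639) (l 302826650615)) (c (b (l 16221088) (l 15809272)) (b (l 16206648) (l 15784136))))) (a (a (l 1) (c (l 351680516631) (l 15247568))) (a (c (l 192229850359) (l 15244792)) (c (l 15091376) (l 15241232)))))) (a (b (l 1) (a (l 1) (b (l 1) (a (l 1) (l 376916432087))))) (b (b (a (a (l 1) (b (l 14874760) (l 15041680))) (b (c (l 14894800) (l 14845904)) (c (l 15060760) (l 15016176)))) (a (a (l 305510361767) (l 15657960)) (a (l 15657296) (l 15656120)))) (b (a (a (c (l 16380376) (l 16402344)) (b (l 16227688) (l 16581576))) (a (l 16407344) (l 16323368))) (a (c (l 16776704) (l 16776696)) (c (l 16776712) (l 16776696))))))) (a (a (b (a (l 1)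 (a (l 1) (l 200820880423))) (a (a (c (l 14867920) (l 14749168)) (c (l 15149528) (l 15131104))) (a (l 15407144) (l 15778896)))) (b (a (b (l 16182784) (l 16203752)) (b (l 317323823351) (l 16669896))) (a (l 16161816) (l 16669896)))) (b (a (c (l 16777216) (l 16777216)) (c (l 16777192) (l 16777192))) (a (l 16777192) (b (l 16761160) (a (l 16761248) (l 16748960))))))), by decide +kernel⟩

theorem c_pp_023 : CertFX 0 536870912 1610612736 469762048 1046898278 26843546 false true true .up 0 2 3
    ndF0q0 ndF2q3 pcF2 Cut.none Ext.none :=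
  certFX1 (fam := false) (s1 := true) (s2 := true) (a := 0) (b := 2) (c := 3) (cn := .up) (n1 := ndF0q0) (n2 := ndF2q3) (pc := pcF2) (cut := Cut.none) (xt := Ext.none) (P1 := 0) (W1 := 536870912) (P2 := 1610612736) (W2 := 469762048) (P3 := 1046898278) (W3 := 26843546)
    rfl (fun _ => rfl) k0_pp_023

noncomputable def f_pp_033 : ℕ → ℕ → ℕ → ℕ → Bool := onCell 0 536870912 1610612736 536870912 1046898278 26843546
    (rowFX 1 false true true .pnn 0 3 3 (qsf 0 536870912 1610612736 469762048 3) ndF0q0 ndF2q3 pcF3 Cut.none Ext.none)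

def k0_pp_033 : ∃ t, chk3 f_pp_033 t 1 1 1 = true :=
  ⟨(a (b (b (a (c (a (b (l 14975528) (a (l 14867920) (l 15149528))) (b (l 15648192) (l 15648192))) (a (b (l 14842280) (a (l 14854024) (l 15131104))) (b (l 15591368) (l 15591368)))) (b (a (l 16203752) (l 16669888)) (a (l 16140840) (l 16585984)))) (a (b (a (c (a (l 14867920) (l 15149528)) (a (l 14770136) (l 15131104))) (c (l 15606240) (l 15591360))) (c (a (b (l 15017472) (l 14786776)) (b (l 15648176) (l 15648168))) (a (b (l 14779368) (a (l 14854024) (l 15131096))) (b (l 15591344) (l 15591336))))) (b (a (c (l 16211080) (l 16196376)) (b (l 16668264) (l 16485168))) (b (a (c (l 16209632) (l 16194688)) (c (l 16655872) (l 16646696))) (a (c (l 16196552) (l 16178840)) (l 4)))))) (a (b (b (a (l 4) (l 4)) (l 4)) (l 4)) (b (l 4) (l 2)))) (b (a (a (b (b (l 16777192) (l 16761248)) (b (b (l 16757232) (l 16744688)) (a (b (l 16736320) (l 2)) (l 2)))) (b (b (l 16761248) (l 16748960)) (b (b (l 16708184) (l 2)) (l 2)))) (b (b (a (l 16748960) (l 16672224)) (a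 (b (l 16708184) (l 2)) (l 2))) (l 2))) (l 2))), by decide +kernel⟩

theorem c_pp_033 : CertFX 0 536870912 1610612736 469762048 1046898278 26843546 false true true .pnn 0 3 3
    ndF0q0 ndF2q3 pcF3 Cut.none Ext.none :=
  certFX1 (fam := false) (s1 := true) (s2 := true) (a := 0) (b := 3) (c := 3) (cn := .pnn) (n1 := ndF0q0) (n2 := ndF2q3) (pc := pcF3) (cut := Cut.none) (xt := Ext.none) (P1 := 0) (W1 := 536870912) (P2 := 1610612736) (W2 := 469762048) (P3 := 1046898278) (W3 := 26843546)
    rfl (fun _ => rfl) k0_pp_033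

noncomputable def f_pp_101 : ℕ → ℕ → ℕ → ℕ → Bool := onCell 536870912 536870912 536870912 536870912 1046898278 26843546
    (rowFX 0 false true true .npn 1 0 1 (qsf 536870912 536870912 536870912 536870912 0) ndF0q1 ndF2q1 pcF0 Cut.none Ext.none)

def k0_pp_101 : ∃ t, chk3 f_pp_101 t 1 1 1 = true :=
  ⟨(l 3), by decide +kernel⟩

theorem c_pp_101 : CertFX 536870912 536870912 536870912 536870912 1046898278 26843546 false true true .npn 1 0 1
    ndF0q1 ndF2q1 pcF0 Cut.none Ext.none :=
  certFX0 (fam := false) (s1 := true) (s2 := true) (a := 1) (b := 0) (c := 1) (cn := .npn) (n1 := ndF0q1) (n2 := ndF2q1) (pc := pcF0) (cut := Cut.none) (xt := Ext.none) (P1 := 536870912) (W1 := 536870912) (P2 := 536870912) (W2 := 536870912) (P3 := 1046898278) (W3 := 26843546)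
    rfl k0_pp_101

noncomputable def f_pp_102_a : ℕ → ℕ → ℕ → ℕ → Bool := onCell 536870912 536870912 0 420477299 1046898278 26843546
    (rowFX 0 false true true .npp 1 0 2 (qsf 536870912 536870912 0 420477299 0) ndF0q1 ndF2q2a pcF0 Cut.none Ext.none)

def k0_pp_102_a : ∃ t, chk3 f_pp_102_a t 1 1 1 = true :=
  ⟨(l 3), by decide +kernel⟩

theorem c_pp_102_a : CertFX 536870912 536870912 0 420477299 1046898278 26843546 false true true .npp 1 0 2
    ndF0q1 ndF2q2a pcF0 Cut.none Ext.none :=
  certFX0 (fam := false) (s1 := true) (s2 := true) (a := 1) (b := 0) (c := 2) (cn := .npp) (n1 := ndF0q1) (n2 := ndF2q2a) (pc := pcF0) (cut := Cut.none) (xt := Ext.none) (P1 := 536870912) (W1 := 536870912) (P2 := 0) (W2 := 420477299) (P3 := 1046898278) (W3 := 26843546)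
    rfl k0_pp_102_a

noncomputable def f_pp_102_b : ℕ → ℕ → ℕ → ℕ → Bool := onCell 536870912 536870912 0 536870912 1046898278 26843546
    (rowFX 1 false true true .npp 1 0 2 (qsf 536870912 536870912 1239849684 370763052 0) ndF0q1 ndF2q2b pcF0 Cut.none Ext.none)

def k0_pp_102_b : ∃ t, chk3 f_pp_102_b t 1 1 1 = true :=
  ⟨(l 3), by decide +kernel⟩

theorem c_pp_102_b : CertFX 536870912 536870912 1239849684 370763052 1046898278 26843546 false true true .npp 1 0 2
    ndF0q1 ndF2q2b pcF0 Cut.none Ext.none :=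
  certFX1 (fam := false) (s1 := true) (s2 := true) (a := 1) (b := 0) (c := 2) (cn := .npp) (n1 := ndF0q1) (n2 := ndF2q2b) (pc := pcF0) (cut := Cut.none) (xt := Ext.none) (P1 := 536870912) (W1 := 536870912) (P2 := 1239849684) (W2 := 370763052) (P3 := 1046898278) (W3 := 26843546)
    rfl (fun _ => rfl) k0_pp_102_b

noncomputable def f_pp_112_a : ℕ → ℕ → ℕ → ℕ → Bool := onCell 536870912 536870912 0 420477299 1046898278 26843546
    (rowFX 0 false true true .dn 1 1 2 (qsf 536870912 536870912 0 420477299 1) ndF0q1 ndF2q2a pcF1 Cut.none Ext.none)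

def k0_pp_112_a : ∃ t, chk3 f_pp_112_a t 1 1 1 = true :=
  ⟨(l 3), by decide +kernel⟩

theorem c_pp_112_a : CertFX 536870912 536870912 0 420477299 1046898278 26843546 false true true .dn 1 1 2
    ndF0q1 ndF2q2a pcF1 Cut.none Ext.none :=
  certFX0 (fam := false) (s1 := true) (s2 := true) (a := 1) (b := 1) (c := 2) (cn := .dn) (n1 := ndF0q1) (n2 := ndF2q2a) (pc := pcF1) (cut := Cut.none) (xt := Ext.none) (P1 := 536870912) (W1 := 536870912) (P2 := 0) (W2 := 420477299) (P3 := 1046898278) (W3 := 26843546)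
    rfl k0_pp_112_a

noncomputable def f_pp_112_b : ℕ → ℕ → ℕ → ℕ → Bool := onCell 536870912 536870912 536870912 536870912 1046898278 26843546
    (rowFX 1 false true true .dn 1 1 2 (qsf 536870912 536870912 1239849684 370763052 1) ndF0q1 ndF2q2b pcF1 Cut.none Ext.none)

def k0_pp_112_b : ∃ t, chk3 f_pp_112_b t 1 1 1 = true :=
  ⟨(b (l 3) (a (b (b (l 3) (l 3)) (b (b (a (c (a (c (l 16554192) (l 16593768)) (l 212231170247)) (a (a (l 133311135447) (l 155859712887)) (a (l 212231158119) (l 3)))) (l 3)) (a (c (a (c (l 16378176) (l 16372960)) (c (l 16374016) (l 16368744))) (a (c (l 16367744) (l 16278648)) (a (c (l 16364360) (l 16359104)) (l 98950912167)))) (l 2))) (a (a (b (c (b (l 16207144) (l 16093576)) (b (c (l 16196040) (l 16188632)) (l 16077616))) (c (b (l 15985880) (l 15929848)) (b (l 15992336) (c (l 15916520) (l 15908384))))) (a (a (b (c (l 16153256) (l 16001960)) (l 2)) (l 2)) (l 2))) (l 2)))) (b (l 3) (l 2)))), by decide +kernel⟩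

theorem c_pp_112_b : CertFX 536870912 536870912 1239849684 370763052 1046898278 26843546 false true true .dn 1 1 2
    ndF0q1 ndF2q2b pcF1 Cut.none Ext.none :=
  certFX1 (fam := false) (s1 := true) (s2 := true) (a := 1) (b := 1) (c := 2) (cn := .dn) (n1 := ndF0q1) (n2 := ndF2q2b) (pc := pcF1) (cut := Cut.none) (xt := Ext.none) (P1 := 536870912) (W1 := 536870912) (P2 := 1239849684) (W2 := 370763052) (P3 := 1046898278) (W3 := 26843546)
    rfl (fun _ => rfl) k0_pp_112_b

noncomputable def f_pp_113 : ℕ → ℕ → ℕ → ℕ → Bool := onCell 536870912 536870912 536870912 536870912 1046898278 26843546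
    (rowFX 1 false true true .nn 1 1 3 (qsf 536870912 536870912 1610612736 469762048 1) ndF0q1 ndF2q3 pcF1 Cut.none Ext.none)

def k0_pp_113 : ∃ t, chk3 f_pp_113 t 1 2 1 = true :=
  ⟨(l 3), by decide +kernel⟩

def k1_pp_113 : ∃ t, chk3 f_pp_113 t 2 3 1 = true :=
  ⟨(a (b (l 3) (a (b (a (l 1) (b (l 1) (c (l 16374496) (l 369936524295)))) (b (c (b (l 16207144) (l 16093576)) (b (c (l 16196040) (l 16188632)) (l 16077616))) (c (b (l 15964912) (l 15929848)) (b (l 15992336) (c (l 15916520) (l 15908384)))))) (b (c (b (l 207936202951) (c (l 16374016) (l 16368744))) (b (a (l 330208541031) (l 3)) (c (l 16363480) (b (l 16415568) (l 16302000))))) (b (c (b (l 16199712) (l 16082976)) (b (c (l 16188464) (l 16180968)) (l 16025048))) (c (b (l 15995672) (l 15918712)) (b (l 15981784) (c (l 15905872) (l 15898224)))))))) (b (l 3) (b (b (l 3) (a (c (l 159617331671) (b (l 16352824) (l 16299328))) (c (l 366312633847) (l 178407793287)))) (b (c (a (b (l 16191192) (l 16070792)) (b (l 16181592) (l 16056776))) (a (b (l 16175968)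 (l 16054776)) (b (l 16166120) (l 16040728)))) (c (b (a (l 15982808) (l 15947024)) (a (l 15905880) (l 15891104))) (b (a (l 15969648) (l 15955672)) (a (c (l 15893600) (l 15886520)) (b (l 15893704) (l 15856192))))))))), by decide +kernel⟩

def k2_pp_113 : ∃ t, chk3 f_pp_113 t 3 3 1 = true :=
  ⟨(b (l 3) (a (b (a (l 3) (l 3)) (b (a (b (a (l 16167376) (l 314772772535)) (c (b (l 16070872) (l 16017216)) (l 16024592))) (b (l 3) (a (c (l 159616753735) (l 16013200)) (b (l 3) (c (l 287928786231) (l 15963912)))))) (a (b (c (c (l 15929376) (l 15949856)) (l 15939544)) (c (l 15874056) (b (l 15877400) (c (l 15842704) (l 15835904))))) (b (c (a (b (l 15957656) (l 15912280)) (a (b (l 15949760) (l 15904080)) (b (l 15925280) (l 15879464)))) (a (l 15925840) (a (l 15918320) (l 15889552)))) (c (a (l 15859600) (a (l 15851672) (l 15827448))) (a (b (l 15863600) (l 15826528)) (b (a (l 15856040) (l 15827264)) (c (l 15807072) (l 15695216))))))))) (b (l 3) (a (b (a (l 3) (l 3)) (b (a (c (b (c (l 15672480) (l 15800528)) (c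 (l 15766264) (l 15751984))) (l 15610888)) (b (l 3) (c (a (c (l 15676008) (l 15635472)) (c (l 412482634599) (l 413556282615))) (a (l 15558096) (l 15464952))))) (c (a (b (l 15720216) (l 15696936)) (b (a (l 15623000) (c (l 15622872) (l 15545608))) (a (l 15610312) (l 15583024)))) (a (b (l 15589024) (c (l 15649768) (l 15623048))) (b (c (a (l 15548928) (l 15472376)) (l 15442088)) (c (l 15482416) (a (l 15464968) (l 15365696)))))))) (b (l 3) (a (a (b (a (l 3) (l 3)) (c (b (c (a (l 15627080) (b (l 15641112) (l 15652456))) (b (l 148341909447) (l 15509608))) (a (l 15584704) (l 15604656))) (b (c (b (l 15403504) (l 15390400)) (l 15273040)) (c (l 15382608) (b (l 15252728) (l 15241600)))))) (b (l 3) (a (b (b (l 3) (l 2)) (l 2)) (l 2)))) (b (l 3) (l 2)))))))), by decide +kernel⟩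

theorem s3_pp_113 : ∃ t, chk3 f_pp_113 t 1 3 1 = true := ex3_a k1_pp_113 k2_pp_113

theorem s4_pp_113 : ∃ t, chk3 f_pp_113 t 1 1 1 = true := ex3_b k0_pp_113 s3_pp_113

theorem c_pp_113 : CertFX 536870912 536870912 1610612736 469762048 1046898278 26843546 false true true .nn 1 1 3
    ndF0q1 ndF2q3 pcF1 Cut.none Ext.none :=
  certFX1 (fam := false) (s1 := true) (s2 := true) (a := 1) (b := 1) (c := 3) (cn := .nn) (n1 := ndF0q1) (n2 := ndF2q3) (pc := pcF1) (cut := Cut.none) (xt := Ext.none) (P1 := 536870912) (W1 := 536870912) (P2 := 1610612736) (W2 := 469762048) (P3 := 1046898278) (W3 := 26843546)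
    rfl (fun _ => rfl) s4_pp_113

noncomputable def f_pp_123 : ℕ → ℕ → ℕ → ℕ → Bool := onCell 1073741824 536870912 1610612736 469762048 1046898278 26843546
    (rowFX 2 false true true .npn 1 2 3 (qsf 536870912 536870912 1610612736 469762048 2) ndF0q1 ndF2q3 pcF2 Cut.none Ext.none)

def k0_pp_123 : ∃ t, chk3 f_pp_123 t 4 2 1 = true :=
  ⟨(a (a (b (b (c (l 16232288) (l 16218136)) (a (c (c (a (l 16410696) (l 16304328)) (l 16223904)) (c (a (l 16400976) (l 16291528)) (a (l 16332896) (l 16285096)))) (a (c (l 16187936) (l 16172528)) (l 16066824)))) (c (a (b (a (l 16367656) (l 16285344)) (a (l 16315200) (l 16251792))) (b (c (l 16140736) (l 16131496)) (l 16084728))) (a (a (c (l 16289024) (a (l 16257248) (l 16305136))) (b (l 16269680) (l 16209968))) (b (c (l 16122392) (l 16113800)) (c (l 16109512) (l 16099984)))))) (b (c (b (l 15810224) (l 15813960)) (b (l 15785112) (l 15788944))) (a (c (c (b (l 15928568) (l 15934992)) (b (l 15917288) (l 15923080))) (b (l 15900648) (l 15906272))) (b (l 15704984) (c (a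 (l 15773016) (l 15671576)) (l 15697440)))))) (b (b (l 1) (a (a (l 15520248) (l 15348032)) (l 93445988583))) (c (a (b (l 15446144) (l 15442264)) (l 15111128)) (a (b (l 15411576) (l 15407592)) (l 15067848))))), by decide +kernel⟩

def k1_pp_123 : ∃ t, chk3 f_pp_123 t 16 3 1 = true :=
  ⟨(b (c (a (b (a (l 16255832) (l 16213400)) (a (l 16083656) (c (l 16178160) (l 16163168)))) (b (l 16110304) (c (l 16101896) (l 16082024)))) (a (a (b (a (l 16163176) (l 16164392)) (c (l 16173720) (c (l 16163216) (l 16155168)))) (c (l 16062400) (b (l 16178136) (l 16125632)))) (b (l 15999040) (c (l 16063688) (l 16051368))))) (b (c (a (a (b (l 16132752) (c (l 16074976) (l 16062360))) (b (l 16134008) (c (l 16111944) (l 16091992)))) (c (l 16083032) (l 16058360))) (a (a (b (c (l 16116088) (l 16098712)) (c (b (l 16081752) (l 16018016)) (b (l 16041752) (l 15930000)))) (c (b (l 16103328) (l 16065512)) (b (l 16082232) (l 16041168)))) (c (a (l 16055408) (l 16012168)) (l 15979896)))) (a (c (a (b (c (c (b (l 15975400) (l 15923536))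 (b (l 15972752) (l 15897280))) (l 15892832)) (c (c (b (l 15893376) (l 15875264)) (b (a (l 15826752) (l 15894304)) (a (l 15802912) (l 15878632)))) (c (b (a (l 15793272) (l 15871920)) (a (l 15753336) (l 15836368))) (a (b (l 15767040) (l 15707736)) (l 15819936))))) (c (b (a (c (l 16023232) (l 16009576)) (l 16041640)) (a (c (b (l 15978096) (l 15979392)) (b (l 15955000) (l 15939976))) (c (l 16011584) (l 15980800)))) (b (l 15993248) (l 15893456)))) (a (b (c (a (l 15848136) (l 15904440)) (a (l 15764792) (l 15858704))) (c (a (l 15681856) (l 15764304)) (a (b (l 15653064) (l 15552384)) (l 15683632)))) (b (c (l 15950128) (l 15909424)) (c (l 15841728) (l 15771640))))) (c (b (a (c (l 16053000) (l 16016496)) (l 16020872)) (a (c (a (l 16017912) (l 16033672)) (l 15967304)) (l 16008056))) (b (a (c (l 15977536) (l 15951400)) (b (l 15986992) (l 15954224))) (c (a (l 15904064) (l 15934848)) (l 15882784))))))), by decide +kernel⟩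

def k2_pp_123 : ∃ t, chk3 f_pp_123 t 17 3 1 = true :=
  ⟨(b (c (a (b (l 15852264) (l 15880240)) (b (c (l 15673808) (l 15722624)) (c (l 15762840) (l 15748488)))) (a (b (l 15911360) (l 15915824)) (b (l 15702304) (l 15728792)))) (b (c (a (c (l 15960728) (l 15940368)) (c (l 15794472) (l 15779552))) (a (l 15920880) (l 15760248))) (c (a (b (c (l 15967192) (l 15943016)) (c (l 15990352) (l 15955472))) (a (b (l 15854632) (l 15888840)) (b (l 15770680) (l 15810640)))) (a (b (a (l 15944176) (l 15896760)) (a (l 15926560) (l 15906120))) (b (l 15788608) (a (l 15858384) (l 15787256))))))), by decide +kernel⟩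

def k3_pp_123 : ∃ t, chk3 f_pp_123 t 9 3 1 = true :=
  ⟨(a (a (b (c (b (l 15534600) (l 15519432)) (b (l 15501856) (l 15508104))) (b (c (l 15502304) (l 15450152)) (c (b (l 15614464) (l 15657496)) (b (l 15584840) (l 15635040))))) (b (b (l 15332968) (b (l 15328336) (l 15324984))) (b (c (a (l 15401384) (l 15302264)) (a (l 15365456) (l 15263544))) (c (b (l 15371456) (l 15419248)) (b (l 15335464) (l 15391544)))))) (b (c (l 15099832) (l 15056264)) (b (l 15068120) (a (a (c (b (l 15211744) (l 15232400)) (b (l 15171248) (l 15199720))) (l 15114864)) (l 14997336))))), by decide +kernel⟩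

def k4_pp_123 : ∃ t, chk3 f_pp_123 t 5 1 1 = true :=
  ⟨(b (b (l 1) (b (a (a (a (l 14865816) (l 15035808)) (l 15572016)) (l 1)) (a (a (a (l 14861328) (l 15032464)) (l 15507680)) (a (l 16281256) (l 16776704))))) (b (a (a (a (c (l 14877728) (l 14828392)) (c (l 15048640) (l 15003744))) (b (c (l 15667152) (l 15638320)) (l 15650768))) (a (c (l 16411448) (a (l 16219336) (l 16578976))) (c (l 16776720) (l 16776704)))) (a (a (a (b (l 14843976) (l 14851728)) (b (l 15019360) (l 15029008))) (b (l 15648672) (l 15430640))) (a (b (l 16364432) (l 16169248)) (b (l 16776736) (l 16759032)))))), by decide +kernel⟩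

def k5_pp_123 : ∃ t, chk3 f_pp_123 t 3 1 1 = true :=
  ⟨(b (l 1) (a (a (b (c (l 16777208) (l 16777208)) (b (l 16777184) (c (l 16759696) (l 16759240)))) (b (l 16777208) (b (l 16777184) (l 16759416)))) (b (l 1) (a (l 16760472) (l 16760472))))), by decide +kernel⟩

theorem s6_pp_123 : ∃ t, chk3 f_pp_123 t 8 3 1 = true := ex3_a k1_pp_123 k2_pp_123

theorem s7_pp_123 : ∃ t, chk3 f_pp_123 t 4 3 1 = true := ex3_a s6_pp_123 k3_pp_123

theorem s8_pp_123 : ∃ t, chk3 f_pp_123 t 4 1 1 = true := ex3_b k0_pp_123 s7_pp_123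

theorem s9_pp_123 : ∃ t, chk3 f_pp_123 t 2 1 1 = true := ex3_a s8_pp_123 k4_pp_123

theorem s10_pp_123 : ∃ t, chk3 f_pp_123 t 1 1 1 = true := ex3_a s9_pp_123 k5_pp_123

theorem c_pp_123 : CertFX 536870912 536870912 1610612736 469762048 1046898278 26843546 false true true .npn 1 2 3
    ndF0q1 ndF2q3 pcF2 Cut.none Ext.none :=
  certFX2 (fam := false) (s1 := true) (s2 := true) (a := 1) (b := 2) (c := 3) (cn := .npn) (n1 := ndF0q1) (n2 := ndF2q3) (pc := pcF2) (cut := Cut.none) (xt := Ext.none) (P1 := 536870912) (W1 := 536870912) (P2 := 1610612736) (W2 := 469762048) (P3 := 1046898278) (W3 := 26843546)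
    rfl (fun _ => rfl) s10_pp_123

noncomputable def f_pp_133 : ℕ → ℕ → ℕ → ℕ → Bool := onCell 536870912 536870912 1610612736 469762048 1046898278 26843546
    (rowFX 0 false true true .dn 1 3 3 (qsf 536870912 536870912 1610612736 469762048 3) ndF0q1 ndF2q3 pcF3 Cut.none Ext.none)

def k0_pp_133 : ∃ t, chk3 f_pp_133 t 1 1 1 = true :=
  ⟨(l 1), by decide +kernel⟩

theorem c_pp_133 : CertFX 536870912 536870912 1610612736 469762048 1046898278 26843546 false true true .dn 1 3 3
    ndF0q1 ndF2q3 pcF3 Cut.none Ext.none :=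
  certFX0 (fam := false) (s1 := true) (s2 := true) (a := 1) (b := 3) (c := 3) (cn := .dn) (n1 := ndF0q1) (n2 := ndF2q3) (pc := pcF3) (cut := Cut.none) (xt := Ext.none) (P1 := 536870912) (W1 := 536870912) (P2 := 1610612736) (W2 := 469762048) (P3 := 1046898278) (W3 := 26843546)
    rfl k0_pp_133

noncomputable def f_pp_202_a : ℕ → ℕ → ℕ → ℕ → Bool := onCell 0 536870912 0 420477299 1046898278 26843546
    (rowFX 0 false true true .pp 2 0 2 (qsf 0 536870912 0 420477299 0) ndF0q2 ndF2q2a pcF0 Cut.none Ext.none)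

def k0_pp_202_a : ∃ t, chk3 f_pp_202_a t 1 1 1 = true :=
  ⟨(l 3), by decide +kernel⟩

theorem c_pp_202_a : CertFX 0 536870912 0 420477299 1046898278 26843546 false true true .pp 2 0 2
    ndF0q2 ndF2q2a pcF0 Cut.none Ext.none :=
  certFX0 (fam := false) (s1 := true) (s2 := true) (a := 2) (b := 0) (c := 2) (cn := .pp) (n1 := ndF0q2) (n2 := ndF2q2a) (pc := pcF0) (cut := Cut.none) (xt := Ext.none) (P1 := 0) (W1 := 536870912) (P2 := 0) (W2 := 420477299) (P3 := 1046898278) (W3 := 26843546)
    rfl k0_pp_202_a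

noncomputable def f_pp_202_b : ℕ → ℕ → ℕ → ℕ → Bool := onCell 0 536870912 1239849684 370763052 1046898278 26843546
    (rowFX 0 false true true .pp 2 0 2 (qsf 0 536870912 1239849684 370763052 0) ndF0q2 ndF2q2b pcF0 Cut.none Ext.none)

def k0_pp_202_b : ∃ t, chk3 f_pp_202_b t 1 1 1 = true :=
  ⟨(l 3), by decide +kernel⟩

theorem c_pp_202_b : CertFX 0 536870912 1239849684 370763052 1046898278 26843546 false true true .pp 2 0 2
    ndF0q2 ndF2q2b pcF0 Cut.none Ext.none :=
  certFX0 (fam := false) (s1 := true) (s2 := true) (a := 2) (b := 0) (c := 2) (cn := .pp) (n1 := ndF0q2) (n2 := ndF2q2b) (pc := pcF0) (cut := Cut.none) (xt := Ext.none) (P1 := 0) (W1 := 536870912) (P2 := 1239849684) (W2 := 370763052) (P3 := 1046898278) (W3 := 26843546)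
    rfl k0_pp_202_b

noncomputable def f_pp_203 : ℕ → ℕ → ℕ → ℕ → Bool := onCell 0 536870912 1610612736 469762048 1046898278 26843546
    (rowFX 0 false true true .up 2 0 3 (qsf 0 536870912 1610612736 469762048 0) ndF0q2 ndF2q3 pcF0 Cut.none Ext.none)

def k0_pp_203 : ∃ t, chk3 f_pp_203 t 1 1 1 = true :=
  ⟨(l 3), by decide +kernel⟩

theorem c_pp_203 : CertFX 0 536870912 1610612736 469762048 1046898278 26843546 false true true .up 2 0 3
    ndF0q2 ndF2q3 pcF0 Cut.none Ext.none :=
  certFX0 (fam := false) (s1 := true) (s2 := true) (a := 2) (b := 0) (c := 3) (cn := .up) (n1 := ndF0q2) (n2 := ndF2q3) (pc := pcF0) (cut := Cut.none) (xt := Ext.none) (P1 := 0) (W1 := 536870912) (P2 := 1610612736) (W2 := 469762048) (P3 := 1046898278) (W3 := 26843546)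
    rfl k0_pp_203

noncomputable def f_pp_213 : ℕ → ℕ → ℕ → ℕ → Bool := onCell 0 536870912 1610612736 469762048 1046898278 26843546
    (rowFX 0 false true true .pnn 2 1 3 (qsf 0 536870912 1610612736 469762048 1) ndF0q2 ndF2q3 pcF1 Cut.none Ext.none)

def k0_pp_213 : ∃ t, chk3 f_pp_213 t 1 1 1 = true :=
  ⟨(l 3), by decide +kernel⟩

theorem c_pp_213 : CertFX 0 536870912 1610612736 469762048 1046898278 26843546 false true true .pnn 2 1 3
    ndF0q2 ndF2q3 pcF1 Cut.none Ext.none :=
  certFX0 (fam := false) (s1 := true) (s2 := true) (a := 2) (b := 1) (c := 3) (cn := .pnn) (n1 := ndF0q2) (n2 := ndF2q3) (pc := pcF1) (cut := Cut.none) (xt := Ext.none) (P1 := 0) (W1 := 536870912) (P2 := 1610612736) (W2 := 469762048) (P3 := 1046898278) (W3 := 26843546)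
    rfl k0_pp_213

noncomputable def f_pm_001 : ℕ → ℕ → ℕ → ℕ → Bool := onCell 0 536870912 536870912 536870912 1046898278 26843546
    (rowFX 0 false true false .up 0 0 1 (qsf 0 536870912 536870912 536870912 0) ndF0q0 ndF2q1 pcF0 Cut.none Ext.none)

def k0_pm_001 : ∃ t, chk3 f_pm_001 t 1 1 1 = true :=
  ⟨(l 4), by decide +kernel⟩

theorem c_pm_001 : CertFX 0 536870912 536870912 536870912 1046898278 26843546 false true false .up 0 0 1
    ndF0q0 ndF2q1 pcF0 Cut.none Ext.none :=
  certFX0 (fam := false) (s1 := true) (s2 := false) (a := 0) (b := 0) (c := 1) (cn := .up) (n1 := ndF0q0) (n2 := ndF2q1) (pc := pcF0) (cut := Cut.none) (xt := Ext.none) (P1 := 0) (W1 := 536870912) (P2 := 536870912) (W2 := 536870912) (P3 := 1046898278) (W3 := 26843546)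
    rfl k0_pm_001

noncomputable def f_pm_011 : ℕ → ℕ → ℕ → ℕ → Bool := onCell 0 536870912 536870912 536870912 1046898278 26843546
    (rowFX 0 false true false .pnn 0 1 1 (qsf 0 536870912 536870912 536870912 1) ndF0q0 ndF2q1 pcF1 Cut.none Ext.none)

def k0_pm_011 : ∃ t, chk3 f_pm_011 t 1 1 1 = true :=
  ⟨(l 4), by decide +kernel⟩

theorem c_pm_011 : CertFX 0 536870912 536870912 536870912 1046898278 26843546 false true false .pnn 0 1 1
    ndF0q0 ndF2q1 pcF1 Cut.none Ext.none :=
  certFX0 (fam := false) (s1 := true) (s2 := false) (a := 0) (b := 1) (c := 1) (cn := .pnn) (n1 := ndF0q0) (n2 := ndF2q1) (pc := pcF1) (cut := Cut.none) (xt := Ext.none) (P1 := 0) (W1 := 536870912) (P2 := 536870912) (W2 := 536870912) (P3 := 1046898278) (W3 := 26843546)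
    rfl k0_pm_011

noncomputable def f_pm_012_a : ℕ → ℕ → ℕ → ℕ → Bool := onCell 536870912 536870912 0 420477299 1046898278 26843546
    (rowFX 2 false true false .pnp 0 1 2 (qsf 0 536870912 0 420477299 1) ndF0q0 ndF2q2a pcF1 Cut.none Ext.none)

def k0_pm_012_a : ∃ t, chk3 f_pm_012_a t 2 1 1 = true :=
  ⟨(b (a (l 2) (a (b (c (a (b (l 16707088) (l 16699760)) (b (l 16707088) (l 16699760))) (a (l 16680464) (l 16701432))) (c (b (l 16701128) (l 16771272)) (b (l 16720664) (l 16771112)))) (b (c (a (l 16703352) (l 16703352)) (l 16701432)) (c (b (l 16722096) (l 16771272)) (b (l 16720664) (l 16771112)))))) (b (a (a (l 2) (a (l 2) (c (l 16527472) (l 16544136)))) (a (c (b (l 16677568) (l 16544360)) (c (l 16545216) (l 16543064))) (c (b (l 16677568) (l 16544360)) (b (l 16674976) (l 16538312))))) (b (a (a (l 2) (c (l 16398928) (c (l 16391560) (l 16386648)))) (c (a (l 16377960) (l 16398928)) (a (a (l 16389104) (l 16389104)) (l 16389104)))) (a (c (a (l 16291480) (c (l 16294640) (l 16288328))) (a (c (l 16282016)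 (l 16275712)) (c (l 16282016) (l 16275712)))) (c (a (c (l 16294640) (l 16288328)) (l 16291480)) (a (c (l 16282016) (l 16275712)) (c (l 16282016) (l 16275712)))))))), by decide +kernel⟩

def k1_pm_012_a : ∃ t, chk3 f_pm_012_a t 6 1 1 = true :=
  ⟨(b (a (b (c (l 16700984) (l 16698848)) (c (b (l 16719880) (l 16769784)) (b (l 16718240) (l 16769576)))) (a (b (c (l 16689944) (l 16686584)) (c (l 16740400) (l 16738616))) (b (a (c (l 16701624) (l 16699456)) (c (l 16605248) (l 16600616))) (a (b (l 16683800) (l 16687472)) (c (l 16510216) (l 16547312)))))) (b (a (a (c (l 16569416) (l 16565104)) (c (l 16587400) (l 16582984))) (a (c (l 16560560) (l 16555960)) (a (c (l 16434856) (l 16451920)) (b (l 16516272) (c (l 16667712) (l 16667680)))))) (a (b (c (a (l 16398920) (l 16395944)) (a (l 16389096) (l 16386008))) (c (a (l 16291480) (l 16288488)) (c (l 16280512) (l 16274176)))) (a (b (c (l 16390096) (l 16379976)) (c (b (l 16311960) (l 16241472)) (b (l 16299816) (l 16227440)))) (b (a (c (l 16289336) (l 16238104))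 (c (l 16381928) (l 16356344))) (a (c (b (l 16309656) (l 16189072)) (b (l 16297536) (l 16173600))) (c (l 16263480) (l 16190144)))))))), by decide +kernel⟩

def k2_pm_012_a : ∃ t, chk3 f_pm_012_a t 7 2 1 = true :=
  ⟨(a (a (b (c (a (l 16436496) (l 16254112)) (l 16230936)) (c (b (l 16246800) (a (l 16392776) (l 16173440))) (b (l 16275824) (l 16188768)))) (b (c (a (l 16040840) (b (l 15989952) (l 15921856))) (a (l 16064424) (l 15936576))) (c (b (a (l 16007600) (l 15896496)) (a (l 16022584) (l 15922256))) (b (l 15850032) (l 15890488))))) (a (b (c (a (c (l 15807008) (l 15871288)) (b (l 15800264) (l 15706760))) (a (l 15853976) (l 15766320))) (c (a (b (l 15791672) (c (l 15809120) (l 15814104))) (b (l 15658480) (l 15602248))) (b (l 15726720) (l 15742152)))) (b (c (a (b (l 15676616) (l 15568768)) (b (l 15606000) (l 15491000))) (a (l 15660392) (c (l 15546256) (l 15551680)))) (c (a (b (l 15465872) (c (l 15479968) (l 15518384))) (b (l 15424808) (c (l 15419808) (l 15410896)))) (a (b (l 15552192) (l 15555840))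 (b (c (l 15422024) (l 15429048)) (c (l 15417232) (l 15426504)))))))), by decide +kernel⟩

def k3_pm_012_a : ∃ t, chk3 f_pm_012_a t 14 3 1 = true :=
  ⟨(b (a (a (b (c (l 16418488) (l 16409640)) (b (l 16401248) (l 16469752))) (b (c (l 16218224) (l 16204264)) (c (l 16344304) (l 16334536)))) (c (b (a (l 16099096) (l 15996312)) (a (l 16234656) (l 16127664))) (b (l 16030776) (a (l 16222328) (l 16112872))))) (a (b (c (b (l 16388704) (l 16491648)) (b (l 16385408) (l 16470088))) (c (a (l 16363944) (l 16447968)) (a (l 16336808) (l 16425304)))) (b (c (b (l 16252944) (l 16307896)) (a (l 16401008) (l 16288296))) (c (a (l 16478600) (b (l 16419960) (l 16477656))) (a (l 16497936) (b (l 16413896) (l 16516288))))))), by decide +kernel⟩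

def k4_pm_012_a : ∃ t, chk3 f_pm_012_a t 15 3 1 = true :=
  ⟨(b (a (c (c (a (b (l 15875120) (l 15937176)) (b (l 15704448) (l 15821368))) (a (l 15843176) (b (l 15749872) (l 15873736)))) (a (b (l 15866912) (l 15998672)) (b (l 15751416) (l 15879912)))) (a (c (b (c (a (l 15555392) (l 15487528)) (l 15570624)) (a (l 15701576) (c (l 15596080) (l 15633976)))) (b (l 15614880) (c (l 15737784) (l 15748488)))) (c (b (c (l 15467672) (l 15460264)) (a (c (l 15579480) (l 15578696)) (l 15580632))) (b (c (l 15448424) (l 15481720)) (c (a (l 15604776) (l 15564928)) (a (l 15641928) (l 15574360))))))) (a (b (c (a (c (b (l 16129072) (l 16158864)) (l 16180664)) (b (c (l 15945472) (l 16003536)) (c (l 16013232) (l 16074784)))) (a (l 16171424) (l 15987696))) (c (a (c (b (l 16114680) (a (l 16403728) (l 16322528))) (l 16226080)) (c (b (l 16094448) (l 16115928)) (b (l 16075760) (a (l 16310136) (l 16234920))))) (a (b (l 16294408) (l 16396824)) (b (l 16174840) (l 16287096))))) (b (c (a (b (a (l 15824824) (c (l 15716752) (l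 15759352))) (a (l 15893768) (c (l 15789896) (l 15835448)))) (a (b (l 15712096) (l 15793520)) (l 15765800))) (a (c (b (l 15869504) (l 15947144)) (l 15924384)) (a (c (l 15636976) (l 15827136)) (c (l 15754248) (b (l 15723840) (l 15812000)))))) (a (c (b (a (l 15983032) (c (l 15881600) (l 15930296))) (a (l 15928168) (c (l 15992224) (l 16044272)))) (c (b (l 16022120) (a (l 16204544) (l 16126728))) (l 16079768))) (c (b (a (c (l 15883808) (l 15888832)) (l 15905240)) (a (c (l 15996256) (a (l 15997288) (l 15996992))) (b (l 15988024) (l 16040552)))) (a (c (b (l 15924240) (l 16041416)) (l 15906896)) (c (b (l 15896560) (l 16006472)) (b (a (l 15914648) (l 15900424)) (a (l 16031136) (l 15989344)))))))))), by decide +kernel⟩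

theorem s5_pm_012_a : ∃ t, chk3 f_pm_012_a t 7 3 1 = true := ex3_a k3_pm_012_a k4_pm_012_a

theorem s6_pm_012_a : ∃ t, chk3 f_pm_012_a t 7 1 1 = true := ex3_b k2_pm_012_a s5_pm_012_a

theorem s7_pm_012_a : ∃ t, chk3 f_pm_012_a t 3 1 1 = true := ex3_a k1_pm_012_a s6_pm_012_a

theorem s8_pm_012_a : ∃ t, chk3 f_pm_012_a t 1 1 1 = true := ex3_a k0_pm_012_a s7_pm_012_a

theorem c_pm_012_a : CertFX 0 536870912 0 420477299 1046898278 26843546 false true false .pnp 0 1 2
    ndF0q0 ndF2q2a pcF1 Cut.none Ext.none :=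
  certFX2 (fam := false) (s1 := true) (s2 := false) (a := 0) (b := 1) (c := 2) (cn := .pnp) (n1 := ndF0q0) (n2 := ndF2q2a) (pc := pcF1) (cut := Cut.none) (xt := Ext.none) (P1 := 0) (W1 := 536870912) (P2 := 0) (W2 := 420477299) (P3 := 1046898278) (W3 := 26843546)
    rfl (fun _ => rfl) s8_pm_012_a

noncomputable def f_pm_012_b : ℕ → ℕ → ℕ → ℕ → Bool := onCell 536870912 536870912 1239849684 370763052 1046898278 26843546
    (rowFX 2 false true false .pnp 0 1 2 (qsf 0 536870912 1239849684 370763052 1) ndF0q0 ndF2q2b pcF1 Cut.none Ext.none)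

def k0_pm_012_b : ∃ t, chk3 f_pm_012_b t 2 1 1 = true :=
  ⟨(a (l 2) (b (a (b (b (c (b (a (l 16721912) (l 16721912)) (l 16723896)) (c (l 16732720) (l 16732152))) (l 2)) (l 2)) (b (c (b (c (l 16712880) (l 16733288)) (c (l 16771952) (l 16771880))) (b (c (l 16732720) (l 16732152)) (l 70967578727))) (c (l 16777216) (c (l 16777216) (l 16777216))))) (l 2))), by decide +kernel⟩

def k1_pm_012_b : ∃ t, chk3 f_pm_012_b t 6 1 1 = true :=
  ⟨(a (b (b (c (b (a (l 16733560) (l 16728544)) (l 16769224)) (b (l 16729696) (l 16768920))) (c (c (l 16774240) (l 16774208)) (c (l 16774168) (a (l 16777208) (l 16771024))))) (l 2)) (b (b (a (c (b (l 16719152) (l 16756056)) (l 16715704)) (b (c (a (l 16726504) (l 16655152)) (l 16559496)) (c (l 16743360) (l 16616616)))) (c (a (l 16760104) (l 16723040)) (a (l 16759664) (b (l 16757696) (l 16771200))))) (b (c (a (l 16758936) (a (l 16751264) (l 16774624))) (a (l 56472053847) (a (l 77409966327) (b (l 16764880) (l 16771208))))) (l 2)))), by decide +kernel⟩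

def k2_pm_012_b : ∃ t, chk3 f_pm_012_b t 7 1 1 = true :=
  ⟨(b (a (b (a (b (c (l 16284744) (l 16380392)) (c (l 16492480) (l 16443104))) (b (c (b (a (l 16173248) (l 16024456)) (l 16132416)) (b (l 16086168) (l 16115472))) (c (l 16191760) (l 16071648)))) (a (b (c (l 16534936) (l 16507672)) (c (l 16579560) (l 16553456))) (c (l 16182664) (b (l 16239528) (l 16307696))))) (b (a (b (c (b (a (l 15902680) (l 15795768)) (a (l 15873072) (l 15708264))) (b (l 15848000) (l 15646904))) (c (l 15685056) (a (l 15920064) (l 15733480)))) (b (c (a (b (l 15677856) (l 15569784)) (l 15551464)) (a (l 15650840) (c (l 15545408) (l 15548128)))) (c (a (l 15522256) (l 15381384)) (a (b (l 15529272) (l 15547360)) (a (b (l 15400744) (l 15373824)) (b (l 15357224) (l 15184992))))))) (a (c (b (l 15845680) (l 15930352)) (b (l 15821368) (l 15989472))) (c (a (b (l 15592584) (l 15690352)) (l 15291144)) (a (b (l 15609816) (l 15704600)) (c (b (l 15394872) (l 15495760)) (b (l 15392464) (l 15493088)))))))) (a (b (a (c (b (l 16630344)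 (l 16685784)) (b (l 16626528) (l 16683408))) (c (l 16272128) (b (l 16385704) (l 16473952)))) (a (l 2) (b (c (l 16508936) (l 16377768)) (l 2)))) (a (b (c (b (l 16048816) (l 16159624)) (b (l 16086432) (l 16175672))) (b (c (l 16263392) (l 16278752)) (a (l 2) (a (l 47881190327) (l 16357544))))) (b (c (a (l 15743760) (l 15692632)) (a (b (l 15814312) (l 15939504)) (b (c (l 15612984) (l 15610008)) (l 15662408)))) (c (b (l 15830592) (l 16016848)) (b (a (l 16080840) (l 15792816)) (a (l 16239120) (l 15962616)))))))), by decide +kernel⟩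

theorem s3_pm_012_b : ∃ t, chk3 f_pm_012_b t 3 1 1 = true := ex3_a k1_pm_012_b k2_pm_012_b

theorem s4_pm_012_b : ∃ t, chk3 f_pm_012_b t 1 1 1 = true := ex3_a k0_pm_012_b s3_pm_012_b

theorem c_pm_012_b : CertFX 0 536870912 1239849684 370763052 1046898278 26843546 false true false .pnp 0 1 2
    ndF0q0 ndF2q2b pcF1 Cut.none Ext.none :=
  certFX2 (fam := false) (s1 := true) (s2 := false) (a := 0) (b := 1) (c := 2) (cn := .pnp) (n1 := ndF0q0) (n2 := ndF2q2b) (pc := pcF1) (cut := Cut.none) (xt := Ext.none) (P1 := 0) (W1 := 536870912) (P2 := 1239849684) (W2 := 370763052) (P3 := 1046898278) (W3 := 26843546)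
    rfl (fun _ => rfl) s4_pm_012_b

noncomputable def f_pm_022_a : ℕ → ℕ → ℕ → ℕ → Bool := onCell 1073741824 536870912 0 420477299 1046898278 26843546
    (rowFX 2 false true false .pp 0 2 2 (qsf 0 536870912 0 420477299 2) ndF0q0 ndF2q2a pcF2 Cut.none Ext.none)

def k0_pm_022_a : ∃ t, chk3 f_pm_022_a t 4 2 1 = true :=
  ⟨(a (a (c (b (b (l 15305960) (c (l 15243528) (l 15228528))) (b (a (l 15140400) (l 15296496)) (a (l 15182024) (l 15348264)))) (b (c (a (l 15169776) (l 15340656)) (l 15171968)) (a (c (l 15135632) (l 15045760)) (c (b (l 15292864) (l 15347792)) (l 15324176))))) (a (b (c (c (l 15384208) (l 15518256)) (l 15483896)) (c (b (c (l 15474168) (l 15485136)) (c (l 15537560) (l 15551640))) (b (l 15496200) (l 15566936)))) (b (c (c (l 15702728) (l 15723648)) (l 15723672)) (c (c (b (l 15679392) (l 15749600)) (b (l 15704432) (l 15778656))) (l 15684240))))) (a (b (a (c (c (l 15825752) (l 15928920)) (l 15917704)) (c (c (b (l 16088792) (l 15966032)) (l 16073792)) (l 16064152))) (c (a (b (c (l 15893552)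 (l 15916280)) (c (a (l 15913312) (l 16019456)) (l 15983632))) (b (c (a (l 16031032) (l 16104824)) (l 16061584)) (c (a (l 16000112) (l 16185272)) (l 16131792)))) (a (b (l 15905080) (l 15973976)) (b (l 16051664) (l 16119288))))) (b (b (c (a (l 16185192) (l 16263072)) (l 16213392)) (c (a (l 16099992) (c (l 16309456) (l 16282928))) (l 16067536))) (c (a (b (c (l 16179576) (l 16173072)) (c (l 16183632) (l 16157616))) (b (c (l 16350952) (l 16262128)) (c (l 16442296) (l 16343696)))) (a (b (l 16157928) (l 16223496)) (b (l 16243248) (c (l 16260552) (l 16393872)))))))), by decide +kernel⟩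

def k1_pm_022_a : ∃ t, chk3 f_pm_022_a t 8 6 1 = true :=
  ⟨(a (c (b (a (l 15285208) (l 15340896)) (a (l 15468304) (c (l 15663024) (l 15658312)))) (b (c (a (l 15260944) (l 15470792)) (a (l 15258536) (l 15475808))) (c (a (l 15448064) (l 15442104)) (a (l 15281632) (l 15682008))))) (c (a (b (c (l 15664040) (l 15682104)) (c (a (l 15805144) (l 15875232)) (l 15727984))) (c (b (a (l 15820648) (l 15925168)) (b (l 16003048) (l 16028640))) (b (l 15821040) (l 15893864)))) (a (b (l 15535160) (c (l 15733744) (l 15903216))) (b (l 15914336) (l 16096520))))), by decide +kernel⟩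

def k2_pm_022_a : ∃ t, chk3 f_pm_022_a t 8 7 1 = true :=
  ⟨(a (c (b (a (b (l 15654936) (l 15764528)) (b (l 15806496) (c (l 15842664) (l 15940928)))) (a (b (a (l 15834928) (l 15920688)) (c (b (l 15973328) (c (l 16041800) (l 16027536))) (l 15983184))) (c (b (a (l 16011520) (l 16092720)) (a (b (l 16096888) (l 16162536)) (b (l 16182752) (l 16251920)))) (b (l 16034584) (c (a (l 16103880) (l 16193672)) (l 16062016)))))) (b (a (c (l 15610456) (b (l 15601408) (l 15547360))) (c (b (a (l 15805720) (l 15921216)) (a (l 15909136) (l 16012032))) (b (l 15876560) (l 15976056)))) (c (a (b (l 15863592) (l 15978704)) (c (l 15911088) (a (l 16062256) (l 16170304)))) (a (b (a (l 15818336) (l 15928728)) (c (l 15961720) (l 15886896))) (b (l 16073528) (l 16162384)))))) (c (b (a (c (b (l 15882392) (a (l 16075376) (l 16172960))) (b (l 16044800) (l 15987368))) (c (b (a (l 16179648) (l 16288456)) (l 16100640)) (b (c (l 16143824) (l 16199184)) (a (l 16215232) (c (l 16392120) (l 16397816)))))) (a (b (c (a (l 16078832) (l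 16284640)) (c (l 15997360) (l 16073000))) (c (a (l 16222384) (l 16356640)) (a (c (l 16256976) (l 16237160)) (c (l 16367392) (l 16274624))))) (c (b (b (l 16326408) (l 16375160)) (l 16361136)) (b (c (a (l 16404512) (l 16478472)) (a (l 16333840) (l 16511504))) (c (l 16378144) (a (l 16436976) (l 16620872))))))) (c (b (a (b (l 16075544) (l 16162552)) (l 16080600)) (a (c (b (l 16175224) (a (l 16254216) (b (l 16399392) (l 16405648)))) (b (l 16268408) (l 16256904))) (b (a (l 16352440) (b (l 16485408) (l 16500672))) (b (c (l 16456096) (l 16401384)) (a (l 16489152) (l 16612832)))))) (b (l 16027064) (b (l 16170224) (a (l 16377488) (b (l 16365368) (a (l 16536632) (c (l 16560000) (l 16549024)))))))))), by decide +kernel⟩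

def k3_pm_022_a : ∃ t, chk3 f_pm_022_a t 9 3 1 = true :=
  ⟨(b (a (c (a (b (c (c (l 15995200) (l 16007568)) (l 16098784)) (c (a (l 15989576) (c (l 16286312) (l 16213008))) (a (l 16153528) (b (l 16275312) (l 16369936))))) (b (a (c (c (l 16176976) (l 16200696)) (l 16226424)) (c (l 16283576) (l 16255816))) (c (a (c (l 16262424) (l 16316248)) (l 16429248)) (b (l 16210192) (l 16349560))))) (a (b (l 16091008) (l 16107240)) (b (l 16059232) (c (b (a (l 16345504) (l 16420904)) (l 16242160)) (l 16281544))))) (c (b (a (c (l 16343440) (b (l 16301488) (l 16431752))) (l 16317288)) (a (l 16302880) (l 16261520))) (b (a (c (b (l 16341920) (l 16345568)) (l 16354968)) (c (a (l 16392912) (l 16423024)) (c (l 16236840) (l 16244808)))) (a (b (c (l 16366976) (l 16391840)) (c (l 16352960) (c (l 16298608) (l 16285456)))) (a (c (l 16367216) (l 336650307271)) (l 611528114999)))))) (a (b (c (a (c (b (l 16241464) (l 16347576)) (b (b (l 16293288) (l 16346776)) (l 16353488))) (c (a (c (l 16346096) (l 16386376)) (l 16369208))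 (b (l 16402584) (l 546567477575)))) (a (b (c (l 16276768) (l 16439712)) (c (b (l 16413616) (l 16425208)) (l 16424648))) (b (a (c (l 16395128) (l 16489136)) (c (l 16458632) (l 16370504))) (c (l 244308855127) (a (c (l 16384976) (l 16414808)) (l 16329392)))))) (b (c (a (c (l 16433032) (l 16458152)) (c (c (l 420402463655) (l 16321392)) (l 16360688))) (a (c (a (l 16482608) (l 16527832)) (b (l 16417488) (c (l 16397392) (l 16405808)))) (a (c (l 16454280) (a (l 623339848519) (l 16437272))) (l 1)))) (a (c (c (c (l 16476552) (l 16400384)) (l 16383744)) (c (l 16434168) (a (b (l 16450112) (l 308733652311)) (l 685616906391)))) (l 1)))) (b (a (c (l 340408538135) (b (c (l 16371032) (a (b (l 16386792) (l 16392712)) (l 16334008))) (l 650719904199))) (l 1)) (l 1)))), by decide +kernel⟩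

def k4_pm_022_a : ∃ t, chk3 f_pm_022_a t 5 1 1 = true :=
  ⟨(a (b (a (a (b (c (b (l 16436680) (l 16355712)) (b (l 16406312) (a (l 16374560) (l 16342704)))) (c (b (l 16390544) (l 16291624)) (c (b (l 16306464) (l 16236000)) (b (l 16332888) (c (l 16180376) (l 16166640)))))) (b (c (l 907881267015) (c (l 16220792) (a (l 16338584) (l 16185496)))) (c (b (l 16263832) (l 16186720)) (b (a (l 699575311607) (l 16194240)) (l 16095408))))) (b (l 1) (l 1))) (b (a (a (b (c (l 16223160) (a (b (l 671658192311) (l 16294368)) (l 1))) (l 1)) (l 1)) (l 1)) (l 1))) (l 1)), by decide +kernel⟩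

def k5_pm_022_a : ∃ t, chk3 f_pm_022_a t 3 1 1 = true :=
  ⟨(l 1), by decide +kernel⟩

theorem s6_pm_022_a : ∃ t, chk3 f_pm_022_a t 8 3 1 = true := ex3_b k1_pm_022_a k2_pm_022_a

theorem s7_pm_022_a : ∃ t, chk3 f_pm_022_a t 4 3 1 = true := ex3_a s6_pm_022_a k3_pm_022_a

theorem s8_pm_022_a : ∃ t, chk3 f_pm_022_a t 4 1 1 = true := ex3_b k0_pm_022_a s7_pm_022_a

theorem s9_pm_022_a : ∃ t, chk3 f_pm_022_a t 2 1 1 = true := ex3_a s8_pm_022_a k4_pm_022_a

theorem s10_pm_022_a : ∃ t, chk3 f_pm_022_a t 1 1 1 = true := ex3_a s9_pm_022_a k5_pm_022_a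

theorem c_pm_022_a : CertFX 0 536870912 0 420477299 1046898278 26843546 false true false .pp 0 2 2
    ndF0q0 ndF2q2a pcF2 Cut.none Ext.none :=
  certFX2 (fam := false) (s1 := true) (s2 := false) (a := 0) (b := 2) (c := 2) (cn := .pp) (n1 := ndF0q0) (n2 := ndF2q2a) (pc := pcF2) (cut := Cut.none) (xt := Ext.none) (P1 := 0) (W1 := 536870912) (P2 := 0) (W2 := 420477299) (P3 := 1046898278) (W3 := 26843546)
    rfl (fun _ => rfl) s10_pm_022_a

end Pool.Agent.Strip051.G.IE1.Tab.C.FB02

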