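import Pool.Agent.Strip051.G.IE1.Tab

/-! # Certificates F32 (generated) -/

set_option linter.all false
set_option maxRecDepth 100000

namespace Pool.Agent.Strip051.G.IE1.Tab.C.FB03

open Pool.Agent.Strip051.PB Pool.Agent.Strip051.PB.T
open Pool.Agent.Strip051.G.IE1.Tab

noncomputable def f_pp_112 : ℕ → ℕ → ℕ → ℕ → Bool := onCell 536870912 536870912 1073741824 536870912 1046898278 26843546
    (rowFX 2 false true true .dn 1 1 2 (qsf 536870912 536870912 1073741824 536870912 1) ndF0q1 ndF3q2 pcF1 Cut.none Ext.none)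

def k0_pp_112 : ∃ t, chk3 f_pp_112 t 1 1 1 = true :=
  ⟨(a (l 3) (a (l 3) (b (l 1) (a (l 3) (b (l 1) (a (l 3) (b (l 1) (a (l 3) (b (l 1) (a (l 3) (b (l 1) (c (l 15781240) (c (l 15766296) (c (l 260548025799) (l 263232372903))))))))))))))), by decide +kernel⟩

theorem c_pp_112 : CertFX 536870912 536870912 1073741824 536870912 1046898278 26843546 false true true .dn 1 1 2
    ndF0q1 ndF3q2 pcF1 Cut.none Ext.none :=
  certFX2 (fam := false) (s1 := true) (s2 := true) (a := 1) (b := 1) (c := 2) (cn := .dn) (n1 := ndF0q1) (n2 := ndF3q2) (pc := pcF1) (cut := Cut.none) (xt := Ext.none) (P1 := 536870912) (W1 := 536870912) (P2 := 1073741824) (W2 := 536870912) (P3 := 1046898278) (W3 := 26843546)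
    rfl (fun _ => rfl) k0_pp_112

noncomputable def cut_pp_113 : Cut := Cut.of [[⟨0, 1, 0, 67108864⟩, ⟨1, 1, 0, 67108864⟩, ⟨2, 2, 0, 67108864⟩, ⟨3, 0, 0, 1233125376⟩]]

noncomputable def f_pp_113 : ℕ → ℕ → ℕ → ℕ → Bool := onCell 536870912 536870912 536870912 536870912 1046898278 26843546
    (rowFX 1 false true true .nn 1 1 3 (qsf 536870912 536870912 1610612736 536870912 1) ndF0q1 ndF3q3 pcF1 cut_pp_113 Ext.none)

def k0_pp_113 : ∃ t, chk3 f_pp_113 t 1 1 1 = true :=
  ⟨(b (l 3) (b (l 3) (a (b (l 3) (b (l 3) (b (l 3) (b (l 3) (b (a (l 3) (l 3)) (b (a (l 3) (l 3)) (a (c (a (l 15771256) (l 252495070871)) (a (c (l 15751656) (c (l 15741928) (a (l 277191040439) (l 15738008)))) (c (l 15751664) (a (l 266990485783) (l 15740904))))) (a (c (l 15771264) (c (l 15751672) (l 247663132391))) (c (l 15771280) (l 15747056)))))))))) (b (l 3) (b (l 3) (a (b (l 3) (b (l 3) (a (c (l 232630847543) (c (l 15766352) (l 226188253895))) (c (a (l 15781296) (a (l 15781304) (l 216524597447))) (a (c (l 15766360) (l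 218135213815)) (a (l 215987714599) (c (l 15744136) (l 209545131671)))))))) (b (l 3) (b (l 3) (b (a (l 3) (l 3)) (b (a (l 3) (l 3)) (a (a (c (a (l 15681224) (l 15616480)) (a (l 15628888) (l 15532272))) (c (a (l 15580632) (l 15566696)) (a (l 15459184) (l 197733477239)))) (a (a (a (c (l 181628106695) (l 177332668263)) (l 6)) (l 6)) (l 6))))))))))))), by decide +kernel⟩

theorem c_pp_113 : CertFX 536870912 536870912 1610612736 536870912 1046898278 26843546 false true true .nn 1 1 3
    ndF0q1 ndF3q3 pcF1 cut_pp_113 Ext.none :=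
  certFX1 (fam := false) (s1 := true) (s2 := true) (a := 1) (b := 1) (c := 3) (cn := .nn) (n1 := ndF0q1) (n2 := ndF3q3) (pc := pcF1) (cut := cut_pp_113) (xt := Ext.none) (P1 := 536870912) (W1 := 536870912) (P2 := 1610612736) (W2 := 536870912) (P3 := 1046898278) (W3 := 26843546)
    rfl (fun _ => rfl) k0_pp_113

noncomputable def cut_pp_123 : Cut := Cut.of [[⟨0, 1, 0, 67108864⟩, ⟨1, 1, 0, 67108864⟩, ⟨2, 2, 0, 67108864⟩, ⟨3, 0, 0, 1233125376⟩]]

noncomputable def f_pp_123 : ℕ → ℕ → ℕ → ℕ → Bool := onCell 1073741824 536870912 1610612736 536870912 1046898278 26843546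
    (rowFX 2 false true true .npn 1 2 3 (qsf 536870912 536870912 1610612736 536870912 2) ndF0q1 ndF3q3 pcF2 cut_pp_123 Ext.none)

def k0_pp_123 : ∃ t, chk3 f_pp_123 t 16 2 2 = true :=
  ⟨(b (a (b (a (c (l 15831528) (a (l 15790424) (l 15852392))) (c (l 15936096) (l 15905088))) (a (b (c (l 15833520) (l 15816928)) (l 15760968)) (c (l 15938224) (l 15907352)))) (c (b (l 15994832) (l 15996608)) (b (l 15947624) (l 15949856)))) (a (b (a (b (l 15782280) (a (l 15798392) (l 15862520))) (c (l 15940592) (l 15909888))) (a (b (a (l 15798624) (l 15863480)) (a (l 15798864) (l 15864520))) (c (l 15943304) (l 15912776)))) (c (b (l 15998592) (l 16000856)) (b (l 15952344) (l 15955184))))), by decide +kernel⟩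

def k1_pp_123 : ∃ t, chk3 f_pp_123 t 16 4 3 = true :=
  ⟨(a (c (a (b (a (b (l 15776712) (l 15776904)) (c (l 15837408) (l 15820992))) (a (b (l 15777104) (l 15777304)) (c (l 15838936) (l 15822560)))) (b (c (l 15874848) (l 15849352)) (c (l 15877264) (l 15851888)))) (a (b (c (a (b (a (l 15752816) (l 15779408)) (a (l 15752920) (l 15779840))) (b (l 15797904) (l 15798680))) (a (b (c (a (l 15745440) (l 15764080)) (c (a (a (l 15737024) (l 15746600)) (l 15756624)) (a (a (c (l 15734440) (l 15732560)) (l 15741688)) (l 15750624)))) (c (a (l 15745544) (l 15764520)) (a (c (l 15740336) (a (a (l 15732112) (l 15738128)) (l 15741776))) (l 15754520)))) (b (c (b (l 15780144) (l 15782976)) (l 15771648)) (c (l 15783408) (l 15772072))))) (c (a (b (a (l 15753024) (l 15780288)) (l 15678792)) (b (l 15799496) (l 15800360))) (a (b (c (a (l 15745648) (l 15764976)) (a (a (c (l 15737128) (l 15733672)) (l 15747488)) (l 15754704))) (c (a (l 15745760) (l 15765464)) (a (c (l 15739576) (l 15736504)) (l 15754904)))) (b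 (c (l 15783808) (l 15772544)) (c (l 15784192) (l 15773064)))))) (b (c (c (l 15830224) (a (l 15810032) (l 15832720))) (b (l 15811056) (l 15811736))) (c (c (l 15832856) (a (l 15812848) (l 15832816))) (b (l 15812496) (l 15813328)))))) (c (b (c (l 15911888) (a (l 15877888) (l 15910672))) (c (l 15914464) (a (l 15880856) (l 15912784)))) (a (b (c (l 15865144) (l 15855656)) (c (l 15866320) (l 15858248))) (b (l 31707063991) (l 15899440))))), by decide +kernel⟩

def k2_pp_123 : ∃ t, chk3 f_pp_123 t 16 5 3 = true :=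
  ⟨(a (a (c (b (a (b (l 15777520) (l 15777744)) (c (l 15840648) (l 15824312))) (a (b (l 15777984) (l 15778232)) (c (l 15842608) (l 15826320)))) (b (c (a (b (l 15762904) (l 15763136)) (l 15802056)) (c (a (a (b (l 15745872) (l 15746000)) (l 15769896)) (l 15722184)) (a (c (a (b (l 15739576) (l 15739576)) (l 15757920)) (b (l 15742704) (l 15742896))) (l 15774096)))) (c (a (b (l 15763384) (l 15763648)) (l 15766392)) (a (a (b (c (l 15746128) (l 15696792)) (c (l 15746264) (l 15738784))) (b (l 15766544) (l 15766800))) (b (l 15781032) (l 15781568)))))) (c (b (c (l 15879952) (l 15854720)) (c (l 15883032) (l 15857960))) (b (c (c (l 15833728) (a (l 15815880) (l 15834024))) (l 15814856)) (c (b (l 15730248) (l 15814832)) (l 15817088))))) (c (a (c (l 15907352) (b (l 15885552) (b (l 15888336) (l 15890176)))) (c (a (l 15922192) (l 15931448)) (l 15891752))) (b (c (l 15883056) (l 15886768)) (a (l 15866184) (l 15909512))))), by decide +kernel⟩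

def k3_pp_123 : ∃ t, chk3 f_pp_123 t 17 2 1 = true :=
  ⟨(b (c (c (a (l 46739662487) (b (l 16015400) (l 16006768))) (a (b (l 15975368) (l 15974304)) (b (l 15993624) (l 15985664)))) (a (b (c (l 15955520) (l 15946136)) (c (l 15955184) (l 15943704))) (c (b (l 34928324599) (c (l 15980400) (l 15975096))) (b (l 15976152) (l 15967456))))) (c (a (c (b (l 16011336) (l 16009240)) (b (a (l 15967120) (l 15973160)) (a (l 15968208) (l 15970152)))) (c (b (l 15997168) (a (l 15991608) (l 15972024))) (b (c (l 15973672) (l 15973560)) (c (l 15966696) (l 15962688))))) (a (b (c (l 15954768) (l 15942712)) (c (l 15954200) (l 15941592))) (b (c (a (l 15981848) (l 15965944)) (l 15957800)) (l 15952056))))), by decide +kernel⟩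

def k4_pp_123 : ∃ t, chk3 f_pp_123 t 9 2 1 = true :=
  ⟨(b (b (b (l 1) (a (a (a (c (l 15975216) (l 15960792)) (l 1)) (l 1)) (l 1))) (a (c (c (a (l 15946320) (l 15844488)) (c (l 15682552) (a (l 15939288) (l 15831712)))) (c (l 15878792) (l 15867352))) (c (c (a (c (l 15725848) (l 15721176)) (c (l 15569312) (l 15553552))) (l 15626096)) (c (l 15611240) (l 15596384))))) (a (c (b (c (a (l 15927080) (c (l 15816664) (l 15815424))) (a (c (l 15924528) (l 15913024)) (l 15803096))) (c (a (l 15805784) (c (l 15786808) (l 15777104))) (a (c (l 15899280) (l 15894752)) (l 15767336)))) (b (c (l 15852944) (l 15841168)) (a (l 15880560) (l 15747784)))) (a (c (c (b (c (l 15579344) (l 15673480)) (l 15627304)) (l 15553936)) (b (l 15578208) (l 15421952))) (c (b (l 15493008) (l 15366504)) (b (l 15459648) (l 15394408)))))), by decide +kernel⟩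

def k5_pp_123 : ∃ t, chk3 f_pp_123 t 32 6 2 = true :=
  ⟨(b (a (b (a (l 15799128) (l 15865648)) (a (l 15757488) (l 15866912))) (c (b (l 15945760) (l 15947536)) (a (l 15904576) (l 15929992)))) (a (b (a (c (l 15806616) (l 15793752)) (c (l 15875104) (l 15861896))) (a (b (l 15800784) (b (l 15799520) (l 15777832))) (c (l 15873712) (b (l 15863112) (l 15858152))))) (c (b (l 15949512) (a (l 15933816) (l 15971224))) (b (l 15919392) (a (l 15909024) (l 15935744)))))), by decide +kernel⟩

def k6_pp_123 : ∃ t, chk3 f_pp_123 t 32 6 3 = true :=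
  ⟨(a (b (c (a (b (l 15778504) (l 15778816)) (c (l 15844920) (l 15828696))) (a (c (b (l 15763936) (l 15701352)) (a (b (c (l 15746408) (l 15738840)) (c (l 15746600) (a (l 15735728) (l 15748424)))) (b (l 15767072) (l 15725464)))) (c (b (l 15805656) (l 15813688)) (b (l 15782176) (l 15782904))))) (c (b (a (l 15737224) (c (l 15847120) (l 15830944))) (a (b (l 15780160) (a (l 15745928) (l 15789664))) (c (l 15845096) (b (l 15832224) (l 15826368))))) (a (c (b (a (l 15754144) (l 15785360)) (b (a (l 15754800) (l 15785992)) (a (l 15733848) (l 15772832)))) (b (a (c (l 15746816) (a (l 15714832) (l 15748664))) (c (l 15773392) (l 15757192))) (a (c (b (l 15747368) (l 15725616)) (b (a (l 15735856) (l 15748688)) (a (c (l 15714376) (l 15709960)) (l 15729360)))) (c (b (l 15773552) (l 15759616)) (b (l 15757480) (l 15743240)))))) (c (b (c (l 15815352) (l 15802600)) (c (l 15813064) (b (l 15804216) (l 15798272)))) (b (c (l 15789096) (l 15781600)) (c (b (l 15789464) (b (l 15789696) (l 15756832))) (l 15779064)))))))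 (c (b (c (l 15886656) (l 15863184)) (c (b (l 15890072) (l 15892016)) (b (l 15863792) (a (l 15858656) (l 15877920))))) (b (c (b (c (l 15842912) (l 15829136)) (a (l 15828104) (l 15843552))) (l 15819912)) (c (b (a (c (l 15836840) (l 15820416)) (l 15844864)) (a (c (l 15839280) (b (l 15821032) (l 15820464))) (c (l 15857072) (l 15853024)))) (b (l 15824352) (l 15826160)))))), by decide +kernel⟩

def k7_pp_123 : ∃ t, chk3 f_pp_123 t 33 6 1 = true :=
  ⟨(a (c (b (c (l 15994648) (l 15951368)) (c (l 15998512) (l 15955904))) (c (b (c (l 15914616) (b (l 15891912) (l 15867456))) (c (l 15917848) (b (c (l 15899600) (l 15889600)) (c (l 15901864) (l 15883504))))) (b (l 15869312) (b (l 15872856) (l 15886032))))) (c (b (l 15987888) (c (l 16014224) (l 15969264))) (b (c (c (l 15931888) (l 15914608)) (l 15912928)) (c (c (a (l 15930480) (l 15937104)) (l 15910216)) (l 15917120))))), by decide +kernel⟩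

def k8_pp_123 : ∃ t, chk3 f_pp_123 t 17 6 1 = true :=
  ⟨(c (a (c (b (l 16006816) (a (l 16010192) (l 15994184))) (b (a (l 15968216) (c (l 15970584) (l 15962368))) (a (c (l 15973600) (l 15955888)) (c (l 15964728) (l 15952840))))) (c (b (a (l 15980088) (c (l 15960832) (l 15955896))) (a (c (l 15973080) (l 15960184)) (c (l 15945488) (l 15938856)))) (b (a (l 15978352) (l 15936584)) (a (l 15971072) (l 15926832))))) (a (b (c (l 15953416) (l 15940288)) (a (l 15938904) (l 15944008))) (b (l 15939368) (c (l 15929496) (l 15918704))))), by decide +kernel⟩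

def k9_pp_123 : ∃ t, chk3 f_pp_123 t 32 14 2 = true :=
  ⟨(a (b (a (b (c (l 15737144) (l 15711904)) (c (l 15683840) (l 15643392))) (c (l 15718024) (b (l 15805888) (l 15744224)))) (a (b (a (l 15606728) (l 15663184)) (c (b (l 15662912) (l 15674216)) (a (l 15553032) (l 15616200)))) (b (c (l 15764440) (l 15713496)) (c (l 15773336) (l 15700608))))) (b (c (a (b (l 15904312) (l 15861080)) (l 15808320)) (a (b (l 15873704) (l 15817952)) (b (l 15916160) (l 15867752)))) (c (b (l 15691088) (a (l 15862840) (l 15926616))) (a (b (l 15793888) (l 15788184)) (l 15844832))))), by decide +kernel⟩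

def k10_pp_123 : ∃ t, chk3 f_pp_123 t 32 14 3 = true :=
  ⟨(c (a (b (a (b (l 15642848) (a (l 15576272) (l 15632896))) (c (l 15663080) (b (l 15763832) (l 15684968)))) (a (b (a (l 15517496) (l 15579720)) (a (l 15466464) (l 15535760))) (c (b (l 15670464) (l 15641256)) (b (l 15635520) (l 15595448))))) (b (a (c (l 15808344) (l 15779064)) (c (l 15850672) (b (l 15854000) (l 15791592)))) (c (b (l 15770688) (l 15755352)) (a (b (l 15704440) (l 15676728)) (b (l 15758512) (l 15738536)))))) (a (b (a (c (a (b (l 15641800) (l 15544216)) (b (l 15689968) (l 15597424))) (a (c (b (l 15629432) (l 15526008)) (a (b (l 15526048) (c (l 15505344) (l 15497464))) (b (l 15631872) (l 15525840)))) (c (b (l 15672704) (l 15574288)) (b (l 15653880) (l 15551848))))) (c (c (l 15701832) (a (l 15670744) (l 15699984))) (c (b (l 15712432) (a (l 15603552) (l 15633960))) (l 15656616)))) (a (c (a (b (l 15472064) (l 15400920)) (b (l 15531792) (l 15469344))) (a (c (b (l 15447176) (a (l 15350208) (l 15386840))) (a (b (c (l 15421312)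 (l 15411120)) (c (l 15331240) (l 15318776))) (b (l 15444264) (l 15358768)))) (c (b (l 15502064) (l 15429976)) (b (l 15475592) (l 15397496))))) (c (c (l 15578136) (b (l 15584448) (a (l 15508264) (l 15551464)))) (c (b (c (l 15562400) (l 15552344)) (c (l 15504136) (l 15491744))) (l 15511872))))) (c (a (b (c (l 15755280) (b (l 15752592) (c (l 15703472) (l 15689872)))) (c (l 15650872) (b (l 15644816) (c (l 15616040) (l 15607336))))) (b (c (b (l 15831616) (l 15765032)) (l 15791136)) (c (a (l 15632936) (l 15728048)) (l 15699480)))) (b (l 15671928) (l 15645664))))), by decide +kernel⟩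

def k11_pp_123 : ∃ t, chk3 f_pp_123 t 33 14 1 = true :=
  ⟨(c (b (a (c (b (l 15994432) (l 15969616)) (b (l 15950816) (l 15918024))) (c (l 16007864) (b (l 15970544) (l 15956152)))) (a (c (b (l 15967392) (l 15987240)) (a (l 15888912) (l 15922920))) (c (l 16015456) (l 15912216)))) (b (c (c (a (b (l 15913048) (l 15874304)) (b (l 15872136) (a (l 15909512) (l 15928960)))) (a (a (c (l 15858624) (a (l 15795272) (l 15833544))) (b (l 15871544) (l 15853960))) (l 15914976))) (b (l 15898280) (l 15823448))) (c (a (c (l 15744488) (b (c (l 15828480) (l 15741776)) (c (l 15821048) (l 15808096)))) (a (c (l 15852720) (l 15875080)) (l 15913872))) (a (l 15783888) (l 15870896))))), by decide +kernel⟩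

def k12_pp_123 : ∃ t, chk3 f_pp_123 t 16 15 1 = true :=
  ⟨(a (b (b (a (a (b (c (c (a (b (l 15663048) (l 6)) (l 15726568)) (a (l 15549768) (l 15617264))) (c (a (l 15429536) (l 15506792)) (c (a (l 15338768) (l 15417888)) (a (c (l 15291168) (a (c (l 15247800) (l 15229584)) (l 15278808))) (c (l 15366864) (l 15327104)))))) (l 6)) (a (b (c (c (l 15779456) (l 15679144)) (c (l 15572096) (c (l 15479976) (c (l 15420920) (l 15397360))))) (l 6)) (c (c (l 15844992) (l 15740376)) (c (c (l 15652608) (l 15586992)) (c (c (l 15534568) (l 15496720)) (b (l 15470816) (l 15430216))))))) (c (c (a (c (l 15934896) (l 15886760)) (l 15973032)) (a (c (l 15835152) (l 15778680)) (l 15873272))) (c (c (a (l 15719128) (l 15790184)) (a (l 15573128) (l 15729616))) (c (a (c (l 15604328) (c (l 15578104) (l 15565624))) (l 15676152)) (l 15586328))))) (a (l 6) (a (l 6) (c (c (l 16089920) (l 16014800)) (c (c (l 15842056) (c (l 15781272) (l 15738040))) (l 15653560)))))) (l 6)) (b (a (c (c (b (l 16075328) (l 16199080)) (a (b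 (l 15923752) (l 16001960)) (b (l 15962760) (l 16040656)))) (c (c (b (l 15866512) (a (l 15902808) (l 15948392))) (a (c (b (l 15802360) (l 15847264)) (l 15789632)) (l 15862008))) (b (l 15767656) (l 15788584)))) (c (c (b (l 16077176) (l 16169184)) (b (l 15998440) (c (l 16099080) (l 16048976)))) (a (b (l 15880128) (l 15926208)) (l 15767632)))) (a (l 6) (a (l 6) (b (b (c (l 16243176) (l 16062960)) (l 6)) (l 6)))))), by decide +kernel⟩

def k13_pp_123 : ∃ t, chk3 f_pp_123 t 17 7 1 = true :=
  ⟨(a (a (b (c (b (c (l 16009352) (c (l 15973328) (b (l 15956472) (l 15953384)))) (c (l 16025792) (c (l 15984360) (a (l 15957648) (l 15966136))))) (b (l 15938032) (l 15934000))) (b (c (c (b (l 16086376) (l 16171552)) (c (l 16065336) (l 16035192))) (l 15954968)) (b (c (c (l 16340904) (c (l 16267904) (l 16230192))) (l 16145536)) (l 6)))) (b (c (b (c (l 15990312) (c (l 15961576) (l 15954280))) (c (l 16012016) (b (l 15972064) (l 15989888)))) (b (l 15941184) (l 15953288))) (b (c (c (b (l 16070400) (l 16150392))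 (l 16050584)) (l 15998432)) (b (c (a (c (l 16317368) (l 16239072)) (l 16259592)) (l 16153824)) (a (l 6) (c (l 16499352) (l 16424768))))))) (b (c (c (b (a (c (l 15967392) (l 15951048)) (c (l 15925864) (l 15918664))) (a (c (l 15986440) (l 15971240)) (l 15934888))) (b (l 15927680) (l 15945656))) (b (l 15911480) (a (l 15945144) (l 15913896)))) (b (c (c (a (c (l 16067016) (l 16048096)) (l 15998328)) (l 16005640)) (a (l 15988504) (l 15949976))) (c (c (a (b (l 16247968) (l 16498680)) (b (l 16170960) (l 16371064))) (b (l 16162032) (l 16303880))) (b (a (l 16126752) (l 16069488)) (a (l 16204152) (l 16236880))))))), by decide +kernel⟩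

def k14_pp_123 : ∃ t, chk3 f_pp_123 t 9 3 1 = true :=
  ⟨(b (a (c (b (a (c (c (l 15886544) (l 15879888)) (l 15871128)) (l 15732704)) (a (c (a (l 15895848) (l 15813032)) (l 15839352)) (l 15683464))) (b (a (l 15853592) (l 15705576)) (a (l 15821208) (l 15655064)))) (c (b (a (c (l 15569824) (l 15554040)) (l 15356184)) (a (l 15262272) (l 15269184))) (b (a (l 15530368) (l 15319280)) (a (l 15417664) (l 15230024))))) (a (b (c (a (b (l 15817776) (a (l 15862984) (l 15774368))) (b (l 15640128) (l 15629792))) (a (b (l 15793168) (a (l 15849616) (l 15760088))) (b (l 15610888) (l 15611544)))) (a (b (c (a (l 15898968) (l 15784616)) (a (l 15873568) (l 15767768))) (c (b (l 15978160) (a (l 16222680) (l 16059568))) (c (l 15833216) (l 15774848)))) (b (c (c (l 15609304) (l 15602344)) (b (l 15594976) (l 15588272))) (c (c (l 15767984) (l 15731096)) (b (l 15633584) (l 15708584)))))) (b (c (a (b (l 15432200) (l 15408896)) (b (l 15192696) (l 15157808))) (a (b (l 15397544) (l 15384472)) (b (l 15151808) (l 15126432))))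 (a (b (c (a (l 15408144) (l 15274896)) (a (l 15399832) (l 15264472))) (c (a (l 15482336) (l 15294744)) (a (l 15423928) (l 15199824)))) (a (b (c (l 15141624) (l 15127568)) (c (b (l 15083840) (l 15147888)) (b (l 15048112) (l 15097592)))) (b (c (l 15005832) (l 14987888)) (b (c (l 14961280) (l 14924552)) (l 14981296)))))))), by decide +kernel⟩

def k15_pp_123 : ∃ t, chk3 f_pp_123 t 10 1 1 = true :=
  ⟨(b (a (b (a (b (l 1) (c (l 15377944) (l 15341600))) (l 1)) (a (c (b (l 15308584) (c (l 15240832) (l 15220752))) (b (l 15270440) (l 15190624))) (c (b (a (l 15266592) (l 15374944)) (a (l 15191288) (l 15312968))) (b (a (l 15227360) (l 15338520)) (a (l 15150096) (l 15274936)))))) (b (l 1) (c (b (c (l 15731904) (l 15760728)) (c (l 15579728) (l 15712792))) (b (l 15573288) (a (l 15522696) (l 15862832)))))) (a (b (a (c (b (c (l 15152064) (l 15130824)) (c (l 15046952) (l 15024344))) (b (l 15098960) (l 14990416))) (b (c (a (l 15104952) (l 15242016)) (a (l 15061520) (l 15202144))) (c (a (l 15002968) (b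 (l 15181392) (l 15133664))) (a (l 14956888) (l 15113384))))) (a (b (c (b (l 14942976) (a (l 14958016) (l 14843040))) (b (l 14895472) (a (l 14921616) (l 14802640)))) (b (c (c (l 14872312) (l 14859864)) (a (l 14879456) (l 14795752))) (c (l 14853944) (l 14807064)))) (b (a (c (b (l 14916176) (l 14924416)) (b (l 14867960) (l 14885688))) (b (c (l 15111128) (l 15067808)) (l 15121376))) (b (l 15014520) (l 14831720))))) (b (c (b (a (l 15388264) (b (l 15851784) (l 15832184))) (a (b (l 15443784) (l 15405704)) (b (l 15825320) (l 15825328)))) (b (a (l 15459744) (l 15816952)) (a (b (l 15409032) (l 15391264)) (l 15804288)))) (b (b (a (l 15405904) (l 15819928)) (l 15655536)) (b (l 15552024) (c (l 15654280) (l 15503840))))))), by decide +kernel⟩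

def k16_pp_123 : ∃ t, chk3 f_pp_123 t 11 1 1 = true :=
  ⟨(b (b (l 1) (b (a (c (a (l 16252720) (l 1)) (l 122976168807)) (l 1)) (a (c (a (l 16183024) (l 16575336)) (a (l 16210728) (l 16570048))) (c (a (l 16776128) (l 16777216)) (l 16776632))))) (b (a (b (c (a (c (l 16214216) (l 16206808)) (l 16532504)) (a (l 16196056) (l 16569040))) (l 16286496)) (c (l 16776728) (l 16776720))) (b (a (b (l 16375440) (l 16337856)) (c (l 16750424) (l 16749720))) (a (b (l 16229328) (c (l 16304608) (l 16190832))) (b (l 16731888) (l 16770208)))))), by decide +kernel⟩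

def k17_pp_123 : ∃ t, chk3 f_pp_123 t 3 1 1 = true :=
  ⟨(b (b (l 1) (a (a (b (l 1) (l 16777216)) (l 1)) (l 1))) (a (b (c (a (l 16777168) (l 16777168)) (a (l 16777168) (l 16777168))) (c (a (b (l 16750808) (l 16727152)) (b (l 16750808) (l 16727152))) (a (b (l 16750120) (l 16725768)) (b (l 16750120) (l 16725768))))) (b (c (l 16777168) (l 16777168)) (a (b (l 16750280) (l 16724320)) (b (l 16750280) (l 16724320)))))), by decide +kernel⟩

theorem s18_pp_123 : ∃ t, chk3 f_pp_123 t 5 1 1 = true := ex3_a k15_pp_123 k16_pp_123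

theorem s19_pp_123 : ∃ t, chk3 f_pp_123 t 32 14 1 = true := ex3_c k9_pp_123 k10_pp_123

theorem s20_pp_123 : ∃ t, chk3 f_pp_123 t 16 14 1 = true := ex3_a s19_pp_123 k11_pp_123

theorem s21_pp_123 : ∃ t, chk3 f_pp_123 t 16 7 1 = true := ex3_b s20_pp_123 k12_pp_123

theorem s22_pp_123 : ∃ t, chk3 f_pp_123 t 8 7 1 = true := ex3_a s21_pp_123 k13_pp_123

theorem s23_pp_123 : ∃ t, chk3 f_pp_123 t 32 6 1 = true := ex3_c k5_pp_123 k6_pp_123

theorem s24_pp_123 : ∃ t, chk3 f_pp_123 t 16 6 1 = true := ex3_a s23_pp_123 k7_pp_123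

theorem s25_pp_123 : ∃ t, chk3 f_pp_123 t 8 6 1 = true := ex3_a s24_pp_123 k8_pp_123

theorem s26_pp_123 : ∃ t, chk3 f_pp_123 t 8 3 1 = true := ex3_b s25_pp_123 s22_pp_123

theorem s27_pp_123 : ∃ t, chk3 f_pp_123 t 4 3 1 = true := ex3_a s26_pp_123 k14_pp_123

theorem s28_pp_123 : ∃ t, chk3 f_pp_123 t 16 2 3 = true := ex3_b k1_pp_123 k2_pp_123

theorem s29_pp_123 : ∃ t, chk3 f_pp_123 t 16 2 1 = true := ex3_c k0_pp_123 s28_pp_123

theorem s30_pp_123 : ∃ t, chk3 f_pp_123 t 8 2 1 = true := ex3_a s29_pp_123 k3_pp_123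

theorem s31_pp_123 : ∃ t, chk3 f_pp_123 t 4 2 1 = true := ex3_a s30_pp_123 k4_pp_123

theorem s32_pp_123 : ∃ t, chk3 f_pp_123 t 4 1 1 = true := ex3_b s31_pp_123 s27_pp_123

theorem s33_pp_123 : ∃ t, chk3 f_pp_123 t 2 1 1 = true := ex3_a s32_pp_123 s18_pp_123

theorem s34_pp_123 : ∃ t, chk3 f_pp_123 t 1 1 1 = true := ex3_a s33_pp_123 k17_pp_123

theorem c_pp_123 : CertFX 536870912 536870912 1610612736 536870912 1046898278 26843546 false true true .npn 1 2 3
    ndF0q1 ndF3q3 pcF2 cut_pp_123 Ext.none :=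
  certFX2 (fam := false) (s1 := true) (s2 := true) (a := 1) (b := 2) (c := 3) (cn := .npn) (n1 := ndF0q1) (n2 := ndF3q3) (pc := pcF2) (cut := cut_pp_123) (xt := Ext.none) (P1 := 536870912) (W1 := 536870912) (P2 := 1610612736) (W2 := 536870912) (P3 := 1046898278) (W3 := 26843546)
    rfl (fun _ => rfl) s34_pp_123

noncomputable def f_pp_133 : ℕ → ℕ → ℕ → ℕ → Bool := onCell 536870912 536870912 1610612736 536870912 1046898278 26843546
    (rowFX 0 false true true .dn 1 3 3 (qsf 536870912 536870912 1610612736 536870912 3) ndF0q1 ndF3q3 pcF3 Cut.none Ext.none)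

def k0_pp_133 : ∃ t, chk3 f_pp_133 t 1 1 1 = true :=
  ⟨(a (b (l 1) (b (l 1) (a (b (l 1) (a (l 588444186807) (l 1))) (l 1)))) (l 1)), by decide +kernel⟩

theorem c_pp_133 : CertFX 536870912 536870912 1610612736 536870912 1046898278 26843546 false true true .dn 1 3 3
    ndF0q1 ndF3q3 pcF3 Cut.none Ext.none :=
  certFX0 (fam := false) (s1 := true) (s2 := true) (a := 1) (b := 3) (c := 3) (cn := .dn) (n1 := ndF0q1) (n2 := ndF3q3) (pc := pcF3) (cut := Cut.none) (xt := Ext.none) (P1 := 536870912) (W1 := 536870912) (P2 := 1610612736) (W2 := 536870912) (P3 := 1046898278) (W3 := 26843546)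
    rfl k0_pp_133

noncomputable def f_pp_202 : ℕ → ℕ → ℕ → ℕ → Bool := onCell 0 536870912 1073741824 536870912 1046898278 26843546
    (rowFX 0 false true true .pp 2 0 2 (qsf 0 536870912 1073741824 536870912 0) ndF0q2 ndF3q2 pcF0 Cut.none Ext.none)

def k0_pp_202 : ∃ t, chk3 f_pp_202 t 1 1 1 = true :=
  ⟨(l 3), by decide +kernel⟩

theorem c_pp_202 : CertFX 0 536870912 1073741824 536870912 1046898278 26843546 false true true .pp 2 0 2
    ndF0q2 ndF3q2 pcF0 Cut.none Ext.none :=
  certFX0 (fam := false) (s1 := true) (s2 := true) (a := 2) (b := 0) (c := 2) (cn := .pp) (n1 := ndF0q2) (n2 := ndF3q2) (pc := pcF0) (cut := Cut.none) (xt := Ext.none) (P1 := 0) (W1 := 536870912) (P2 := 1073741824) (W2 := 536870912) (P3 := 1046898278) (W3 := 26843546)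
    rfl k0_pp_202

noncomputable def f_pp_203 : ℕ → ℕ → ℕ → ℕ → Bool := onCell 0 536870912 0 536870912 1046898278 26843546
    (rowFX 1 false true true .up 2 0 3 (qsf 0 536870912 1610612736 536870912 0) ndF0q2 ndF3q3 pcF0 Cut.none Ext.none)

def k0_pp_203 : ∃ t, chk3 f_pp_203 t 1 1 1 = true :=
  ⟨(l 3), by decide +kernel⟩

theorem c_pp_203 : CertFX 0 536870912 1610612736 536870912 1046898278 26843546 false true true .up 2 0 3
    ndF0q2 ndF3q3 pcF0 Cut.none Ext.none :=
  certFX1 (fam := false) (s1 := true) (s2 := true) (a := 2) (b := 0) (c := 3) (cn := .up) (n1 := ndF0q2) (n2 := ndF3q3) (pc := pcF0) (cut := Cut.none) (xt := Ext.none) (P1 := 0) (W1 := 536870912) (P2 := 1610612736) (W2 := 536870912) (P3 := 1046898278) (W3 := 26843546)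
    rfl (fun _ => rfl) k0_pp_203

noncomputable def cut_pp_213 : Cut := Cut.of [[⟨0, 1, 0, 67108864⟩, ⟨1, 1, 0, 67108864⟩, ⟨2, 2, 0, 67108864⟩, ⟨3, 0, 0, 1233125376⟩]]

noncomputable def f_pp_213 : ℕ → ℕ → ℕ → ℕ → Bool := onCell 0 536870912 1610612736 536870912 1046898278 26843546
    (rowFX 0 false true true .pnn 2 1 3 (qsf 0 536870912 1610612736 536870912 1) ndF0q2 ndF3q3 pcF1 cut_pp_213 Ext.none)

def k0_pp_213 : ∃ t, chk3 f_pp_213 t 1 1 1 = true :=
  ⟨(b (l 3) (a (l 3) (b (l 3) (a (l 3) (b (l 3) (a (l 3) (b (l 3) (a (l 3) (l 6))))))))), by decide +kernel⟩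

theorem c_pp_213 : CertFX 0 536870912 1610612736 536870912 1046898278 26843546 false true true .pnn 2 1 3
    ndF0q2 ndF3q3 pcF1 cut_pp_213 Ext.none :=
  certFX0 (fam := false) (s1 := true) (s2 := true) (a := 2) (b := 1) (c := 3) (cn := .pnn) (n1 := ndF0q2) (n2 := ndF3q3) (pc := pcF1) (cut := cut_pp_213) (xt := Ext.none) (P1 := 0) (W1 := 536870912) (P2 := 1610612736) (W2 := 536870912) (P3 := 1046898278) (W3 := 26843546)
    rfl k0_pp_213

noncomputable def f_pm_001 : ℕ → ℕ → ℕ → ℕ → Bool := onCell 0 536870912 536870912 536870912 1046898278 26843546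
    (rowFX 0 false true false .up 0 0 1 (qsf 0 536870912 536870912 536870912 0) ndF0q0 ndF3q1 pcF0 Cut.none Ext.none)

def k0_pm_001 : ∃ t, chk3 f_pm_001 t 1 1 1 = true :=
  ⟨(l 4), by decide +kernel⟩

theorem c_pm_001 : CertFX 0 536870912 536870912 536870912 1046898278 26843546 false true false .up 0 0 1
    ndF0q0 ndF3q1 pcF0 Cut.none Ext.none :=
  certFX0 (fam := false) (s1 := true) (s2 := false) (a := 0) (b := 0) (c := 1) (cn := .up) (n1 := ndF0q0) (n2 := ndF3q1) (pc := pcF0) (cut := Cut.none) (xt := Ext.none) (P1 := 0) (W1 := 536870912) (P2 := 536870912) (W2 := 536870912) (P3 := 1046898278) (W3 := 26843546)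
    rfl k0_pm_001

noncomputable def f_pm_011 : ℕ → ℕ → ℕ → ℕ → Bool := onCell 0 536870912 536870912 536870912 1046898278 26843546
    (rowFX 0 false true false .pnn 0 1 1 (qsf 0 536870912 536870912 536870912 1) ndF0q0 ndF3q1 pcF1 Cut.none Ext.none)

def k0_pm_011 : ∃ t, chk3 f_pm_011 t 1 1 1 = true :=
  ⟨(l 4), by decide +kernel⟩

theorem c_pm_011 : CertFX 0 536870912 536870912 536870912 1046898278 26843546 false true false .pnn 0 1 1
    ndF0q0 ndF3q1 pcF1 Cut.none Ext.none :=
  certFX0 (fam := false) (s1 := true) (s2 := false) (a := 0) (b := 1) (c := 1) (cn := .pnn) (n1 := ndF0q0) (n2 := ndF3q1) (pc := pcF1) (cut := Cut.none) (xt := Ext.none) (P1 := 0) (W1 := 536870912) (P2 := 536870912) (W2 := 536870912) (P3 := 1046898278) (W3 := 26843546)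
    rfl k0_pm_011

noncomputable def cut_pm_012 : Cut := Cut.of [[⟨0, 0, 0, 67108864⟩, ⟨1, 1, 0, 67108864⟩, ⟨2, 1, 0, 67108864⟩]]

noncomputable def f_pm_012 : ℕ → ℕ → ℕ → ℕ → Bool := onCell 536870912 536870912 1073741824 536870912 1046898278 26843546
    (rowFX 2 false true false .pnp 0 1 2 (qsf 0 536870912 1073741824 536870912 1) ndF0q0 ndF3q2 pcF1 cut_pm_012 Ext.none)

def k0_pm_012 : ∃ t, chk3 f_pm_012 t 4 2 1 = true :=
  ⟨(a (b (b (c (b (b (c (l 15874800) (b (l 15815840) (l 15890640))) (l 15957120)) (c (l 16050520) (l 16022624))) (b (c (b (b (a (l 15795144) (l 15795144)) (l 15845648)) (l 15888720)) (b (a (c (l 15792864) (l 15777056)) (c (l 15792864) (l 15777056))) (l 15865792))) (c (l 16001704) (l 15991832)))) (b (c (l 16069488) (l 16051104)) (l 2))) (l 2)) (b (b (c (b (b (c (l 15832856) (a (l 15850616) (l 15850616))) (c (l 15983424) (l 15933304))) (c (l 16050520) (l 16022624))) (b (b (c (b (a (l 15795144) (l 15795144)) (l 15845648)) (b (c (a (l 15773632) (l 15773632)) (a (l 15756632)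 (l 15756632))) (l 15804952))) (c (l 15888720) (l 15865792))) (c (l 16001704) (l 15991832)))) (c (b (l 16069488) (l 15982784)) (b (l 16051104) (l 15962152)))) (b (b (a (l 2) (l 15828440)) (l 2)) (l 2)))), by decide +kernel⟩

def k1_pm_012 : ∃ t, chk3 f_pm_012 t 5 2 1 = true :=
  ⟨(b (b (c (b (a (b (a (c (l 15874800) (l 15829648)) (b (c (l 15829176) (l 15815840)) (l 15904472))) (c (l 15983424) (l 15933304))) (b (c (a (l 15874800) (b (l 15829176) (l 15922544))) (b (a (l 15815840) (l 15815840)) (l 15848696))) (c (l 15983424) (l 15933304)))) (a (c (l 16050520) (l 16022624)) (c (l 16050520) (l 16022624)))) (b (a (b (c (b (a (l 15795144) (b (l 15776024) (l 15818240))) (l 15845648)) (b (a (c (l 15773632) (l 15756632)) (c (l 15773632) (l 15756632))) (l 15804952))) (c (l 15888720) (l 15865792))) (b (c (b (a (b (l 15776024) (l 15818240)) (b (l 15776024) (l 15818240))) (l 15845648)) (c (b (a (l 15773632) (l 15773632)) (l 15809960)) (b (a (l 15756632) (b (l 15746456) (l 15767048))) (l 15797968))))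 (c (l 15888720) (l 15865792)))) (a (c (l 16001704) (l 15991832)) (c (l 16001704) (l 15991832))))) (c (a (b (l 16069488) (l 15982784)) (b (l 16069488) (l 15982784))) (a (b (l 16051104) (l 15962152)) (b (l 16051104) (l 15962152))))) (b (b (c (a (l 15840608) (l 15840608)) (a (l 15816280) (l 15816280))) (a (c (l 16115536) (l 16098344)) (c (l 16115536) (l 16098344)))) (b (a (c (l 16555984) (l 16550240)) (c (l 16555984) (l 16550240))) (c (l 16776904) (l 16776896))))), by decide +kernel⟩

def k2_pm_012 : ∃ t, chk3 f_pm_012 t 2 3 1 = true :=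
  ⟨(a (l 2) (b (a (l 2) (c (l 16777216) (c (l 16777216) (l 16777216)))) (l 2))), by decide +kernel⟩

def k3_pm_012 : ∃ t, chk3 f_pm_012 t 12 4 1 = true :=
  ⟨(b (b (a (c (b (b (b (a (l 15795520) (a (l 15768976) (l 15751896))) (a (l 15849336) (a (l 15849272) (l 15829248)))) (c (l 15920912) (a (l 15890640) (l 15887840)))) (l 15957112)) (b (b (a (c (b (l 15776024) (l 15818240)) (c (l 15773632) (l 15756632))) (c (b (a (l 15770304) (l 15731296)) (a (l 15818176) (l 15797648))) (b (a (b (c (l 15745520) (l 15733992)) (l 15761104)) (c (l 15716880) (l 15700808))) (a (l 15780536) (l 15759680))))) (c (a (l 15845648) (l 15842808)) (a (l 15804952) (l 15802064)))) (c (l 15888720) (l 15865784)))) (b (c (b (c (a (l 15716336) (l 15601032)) (a (l 15533392) (b (l 15542480) (l 15625040)))) (c (b (l 15778888) (l 15839320)) (b (l 15750792) (l 15799384)))) (b (c (b (a (l 15540272) (b (l 15504216) (l 15546344))) (a (l 15715680) (l 15596920))) (b (c (b (a (l 15612640) (l 15491264)) (l 15441712)) (a (c (l 15534208)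 (l 15524968)) (b (b (c (l 15473920) (l 15404360)) (l 15486240)) (l 15506384)))) (c (l 15603584) (l 15518584)))) (c (a (l 15783576) (l 15668312)) (a (l 15699936) (l 15624824))))) (c (a (b (l 15880832) (l 15966616)) (l 15740904)) (a (b (c (l 15847592) (l 15820128)) (l 15890576)) (b (l 15738872) (l 15829656)))))) (b (c (a (l 16005824) (a (l 16004352) (l 15985496))) (a (l 15955536) (l 15857736))) (c (l 16062112) (l 16036088)))) (c (b (l 16068240) (l 15981624)) (b (l 16049808) (l 15960952)))), by decide +kernel⟩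

def k4_pm_012 : ∃ t, chk3 f_pm_012 t 26 8 1 = true :=
  ⟨(b (b (c (b (c (a (l 15481088) (l 15356496)) (b (a (l 15420008) (l 15292880)) (l 15440880))) (c (l 15571872) (l 15471544))) (b (b (c (c (a (l 15405952) (l 15277392)) (b (a (l 15374672) (l 15244824)) (l 15311176))) (b (b (c (a (l 15354176) (a (l 15256272) (l 15189608))) (b (a (c (l 15341392) (c (l 15338296) (l 15334208))) (c (l 15209648) (a (c (l 15238992) (l 15235368)) (c (l 15171752) (l 15168040))))) (a (l 15347608) (l 15194696)))) (c (l 15205968) (a (l 15359192) (l 15185528)))) (c (a (l 15401744) (l 15271384)) (a (l 15379768) (l 15248480))))) (c (c (l 15400032) (l 15338296)) (c (l 15332968) (l 15225160)))) (c (l 15421048) (a (l 15501280) (l 15373056))))) (c (c (l 15721152) (l 15666952)) (c (l 15408576) (l 15528368)))) (c (b (l 15729968) (a (l 16040544) (l 15967640))) (b (l 15779944) (l 15949496)))), by decide +kernel⟩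

def k5_pm_012 : ∃ t, chk3 f_pm_012 t 27 32 2 = true :=
  ⟨(a (b (a (b (c (a (l 15232128) (l 15184656)) (a (l 15210704) (a (l 15185736) (l 15181872)))) (c (l 15304544) (l 15282528))) (c (l 15304552) (b (l 15240232) (l 15324768)))) (a (c (l 15417776) (l 15378152)) (l 15352944))) (b (c (b (a (l 15355696) (l 15452408)) (l 15487208)) (b (a (l 15336344) (l 15434560)) (l 15468176))) (c (c (l 15522320) (l 15590664)) (l 15497512)))), by decide +kernel⟩

def k6_pm_012 : ∃ t, chk3 f_pm_012 t 27 32 3 = true :=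
  ⟨(a (a (b (b (c (b (a (l 15166768) (a (l 15141408) (c (l 15142736) (l 15131680)))) (a (l 15210096) (a (l 15184840) (l 15180936)))) (b (c (a (l 15150144) (a (l 15124520) (b (l 15109200) (l 15131192)))) (a (b (c (l 15130416) (b (c (l 15120504) (l 15116752)) (l 15126688))) (l 15142768)) (a (b (c (l 15104624) (b (c (l 15094632) (l 15090864)) (l 15100832))) (l 15117000)) (b (c (b (l 15094952) (l 15106016)) (b (b (c (l 15087808) (a (a (c (l 15078992) (b (l 15076088) (l 15078032))) (l 15080984)) (l 15090176))) (l 15090864)) (l 15096880))) (c (l 15119568) (l 15107600)))))) (a (c (l 15187528) (l 15164048)) (a (c (l 15162016) (l 15138360)) (c (l 15158080) (l 15134408)))))) (c (a (l 15262904) (a (l 15237808) (l 15233904))) (a (l 15216944) (a (l 15191512) (l 15145624))))) (c (l 15304472) (a (l 15290536) (l 15263456)))) (b (b (c (b (l 15134032) (l 15239928)) (b (c (b (l 15169416) (l 15191152)) (b (c (l 15161256) (b (c (l 15151464) (b (l 15145760) (l 15149584))) (l 15157568))) (l 15173480))) (c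 (l 15217776) (l 15194568)))) (c (l 15292368) (l 15225984))) (c (l 15367488) (l 15319776)))) (b (c (b (c (a (l 15321528) (l 15420904)) (b (a (l 15289672) (l 15390096)) (l 15361032))) (c (l 15448856) (l 15387480))) (b (b (c (a (b (l 15268656) (l 15290136)) (l 15380984)) (c (b (a (l 15261072) (l 15362976)) (l 15267088)) (b (a (b (c (l 15251648) (l 15248112)) (l 15257712)) (c (l 15359144) (l 15353856))) (l 15213984)))) (c (a (l 15316336) (l 15417008)) (a (l 15293888) (l 15395320)))) (c (l 15403488) (l 15317024)))) (c (l 15468688) (a (l 15416120) (l 15514672))))), by decide +kernel⟩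

def k7_pm_012 : ∃ t, chk3 f_pm_012 t 27 33 1 = true :=
  ⟨(a (c (a (l 15541696) (l 15580872)) (a (b (l 15378808) (l 15498624)) (l 15491840))) (c (c (l 15743712) (l 15690152)) (c (l 15600192) (l 15615768)))), by decide +kernel⟩

def k8_pm_012 : ∃ t, chk3 f_pm_012 t 27 17 1 = true :=
  ⟨(a (c (b (a (l 15711072) (l 15747776)) (a (l 15885112) (l 15919272))) (b (l 15649880) (l 15871376))) (c (b (l 15875760) (l 16040248)) (l 15730080))), by decide +kernel⟩

def k9_pm_012 : ∃ t, chk3 f_pm_012 t 13 9 1 = true :=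
  ⟨(a (b (c (l 16053912) (l 16035032)) (c (l 15975712) (l 15954840))) (b (a (c (a (l 16025752) (l 16076704)) (b (l 16010776) (l 16054944))) (c (l 16197216) (l 16183296))) (a (c (l 16011920) (l 15992232)) (c (l 16127656) (l 16198592))))), by decide +kernel⟩

def k10_pm_012 : ∃ t, chk3 f_pm_012 t 6 5 1 = true :=
  ⟨(b (a (b (c (l 15839544) (l 15815176)) (c (l 16114568) (l 16097344))) (a (b (c (l 15834080) (l 15809528)) (l 16100880)) (b (a (c (l 15865456) (l 15841952)) (b (l 16074504) (l 16009672))) (a (l 16065040) (l 16164240))))) (a (b (a (l 16511168) (l 16509368)) (c (l 16775592) (l 16775568))) (a (b (l 16484736) (l 16766272)) (b (a (l 16381304) (l 16484280)) (a (l 16747856) (l 16499120)))))), by decide +kernel⟩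

def k11_pm_012 : ∃ t, chk3 f_pm_012 t 28 16 1 = true :=
  ⟨(b (c (b (a (c (a (c (l 15512680) (l 15588672)) (b (a (l 15626040) (l 15673488)) (l 15732664))) (b (a (l 15534856) (l 15634520)) (l 15666584))) (c (a (b (b (a (l 15696552) (a (l 15730536) (l 15732376))) (l 15762744)) (l 15827736)) (c (b (a (a (a (l 15795488) (a (l 15804048) (l 15788024))) (l 15796408)) (c (l 15817984) (l 15835896))) (l 15909120)) (b (l 15817160) (l 15903512)))) (a (l 15687496) (b (l 15808008) (l 15893640))))) (a (c (b (l 15718848) (l 15821616)) (l 15755840)) (c (a (b (l 15908736) (l 15970336)) (b (l 15967632) (l 16053432))) (a (l 15905912) (l 15989048))))) (b (a (b (c (b (a (l 15496992) (l 15597864)) (l 15526336)) (b (c (a (l 15484240) (l 15586224)) (b (a (c (l 15466968) (b (l 15456824) (l 15464296))) (c (l 15569296) (l 15489856))) (a (l 15479016) (l 15582400)))) (c (l 15529144) (l 15445680)))) (c (a (l 15588488) (l 15691040)) (c (l 15607184) (l 15585136)))) (a (b (c (l 15672160) (b (c (l 15680968) (c (l 15674504)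 (l 15644568))) (l 15687288))) (c (l 15788960) (l 15751000))) (b (c (b (l 15773192) (l 15816888)) (b (c (l 15742464) (a (a (c (l 15733872) (l 15725176)) (l 15746280)) (l 15767424))) (c (l 15801192) (l 15782288)))) (c (l 15869848) (l 15833040))))) (a (c (l 15709016) (l 15603568)) (c (a (l 15861312) (l 15945656)) (a (l 15821000) (l 15906560)))))) (c (a (c (l 15824856) (l 15879040)) (a (l 15923512) (c (l 16098232) (l 16113984)))) (a (c (l 15812936) (l 15810432)) (a (l 15932808) (b (l 16019304) (l 16105848)))))), by decide +kernel⟩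

def k12_pm_012 : ∃ t, chk3 f_pm_012 t 29 16 1 = true :=
  ⟨(b (c (b (a (c (c (b (a (b (l 15835552) (l 15899320)) (l 15859712)) (l 15969488)) (a (l 15915648) (l 15928864))) (b (a (l 15863728) (l 15919704)) (l 15976448))) (b (b (a (c (l 15968488) (l 15955512)) (c (l 16040072) (l 16030312))) (a (l 16002776) (l 16071208))) (a (c (l 16071208) (l 16060880)) (c (l 16133016) (l 16102568))))) (a (a (c (l 15968312) (l 16043648)) (c (l 16085200) (l 16098392))) (c (b (l 16117432) (l 16243328)) (b (l 16116488) (l 16209632))))) (b (a (c (b (a (l 15851960) (l 15908712)) (l 15953832)) (b (a (b (c (l 15820672) (l 15789192)) (l 15847856)) (c (l 15897648) (l 15860680))) (l 15876264))) (c (b (a (b (l 15945248) (l 15987584)) (b (a (l 15998984) (l 16043072)) (l 16036448))) (a (l 16039432) (a (l 16083912) (b (l 16109040) (l 16132592))))) (a (b (b (c (l 15937280) (c (l 15931856) (l 15924000))) (l 15963728)) (l 16004976)) (b (c (b (a (l 15991544) (l 16036072)) (a (l 16022584) (l 16065624))) (b (c (b (a (l 15978584)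 (l 16023384)) (l 16015864)) (b (a (l 15973840) (c (b (l 16016992) (l 16024456)) (b (c (l 16015736) (c (l 16014424) (l 16013408))) (l 16020104)))) (c (l 16008752) (l 16003920)))) (a (l 16005192) (c (l 16051680) (l 16042176))))) (c (a (l 16056336) (l 16093088)) (a (l 16037432) (c (l 16076464) (l 16071392)))))))) (a (c (l 16028640) (l 15990704)) (c (a (l 16113144) (l 16129232)) (a (l 16076368) (a (l 16120096) (c (l 16153888) (l 16144344)))))))) (c (a (c (b (l 16208088) (l 16290624)) (l 16117728)) (a (l 16222408) (l 16235448))) (a (c (l 16056400) (l 16142552)) (c (b (l 16164480) (l 16316304)) (a (l 16228496) (l 16180568)))))), by decide +kernel⟩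

def k13_pm_012 : ∃ t, chk3 f_pm_012 t 14 17 1 = true :=
  ⟨(a (b (c (a (l 16054336) (c (l 16253664) (l 16214360))) (a (l 16006208) (l 16193472))) (c (a (l 16209696) (l 16277720)) (l 16067392))) (a (c (b (l 16246168) (l 16408560)) (c (l 16252352) (l 16186288))) (c (b (c (l 16442912) (l 16365504)) (l 16443696)) (b (a (l 16385376) (l 16380208)) (a (l 16535384) (l 16456792)))))), by decide +kernel⟩

def k14_pm_012 : ∃ t, chk3 f_pm_012 t 14 9 1 = true :=
  ⟨(a (a (b (c (l 16353440) (l 16344936)) (b (l 16408840) (l 16350848))) (b (b (l 16420432) (l 16496712)) (c (l 16438264) (l 16521632)))) (b (c (b (l 16367824) (l 16330408)) (b (a (l 16603136) (l 16399304)) (l 16284160))) (a (b (l 16415768) (l 16369080)) (c (l 16253904) (l 16245512))))), by decide +kernel⟩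

def k15_pm_012 : ∃ t, chk3 f_pm_012 t 15 32 1 = true :=
  ⟨(a (b (a (a (c (c (c (a (c (a (a (l 16144192) (l 16093120)) (c (l 16138664) (l 16108800))) (l 16157344)) (a (b (c (l 16167680) (l 16154912)) (l 16235680)) (b (l 6) (l 16264128)))) (l 16092096)) (b (l 16092464) (l 16203352))) (b (b (a (c (l 16086688) (c (l 16059152) (c (b (l 16067696) (l 16082496)) (b (c (b (l 16061440) (l 16068864)) (b (c (l 16039256) (c (l 16058944) (l 16057952))) (l 16064576))) (c (l 16075552) (l 16070824)))))) (l 6)) (c (l 16143544) (c (l 16089224) (c (l 16117544) (c (l 16109248) (l 16106752)))))) (c (c (l 16191992) (l 16177872)) (c (l 16157248) (c (l 16140944) (l 16136080)))))) (b (l 6) (b (l 6) (b (l 6) (c (c (c (l 16363752) (l 16292128)) (l 16313520)) (c (l 16287520) (l 16205344))))))) (l 6)) (a (c (c (a (c (a (b (l 16266888) (l 16326144)) (b (l 16320928) (l 16373480))) (l 16279560)) (a (c (l 16324072) (l 16321432)) (b (c (l 16398216) (l 16398616)) (l 16388480)))) (b (l 16173616) (l 16275816))) (c (a (b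 (l 16221712) (l 16255016)) (l 16319776)) (a (c (b (l 16187024) (l 16223336)) (b (l 16154720) (l 16218200))) (c (l 16289096) (l 16280432))))) (a (b (l 6) (a (b (l 6) (c (c (l 16524896) (l 16452560)) (l 16348728))) (l 6))) (l 6)))) (l 6)), by decide +kernel⟩

def k16_pm_012 : ∃ t, chk3 f_pm_012 t 15 33 1 = true :=
  ⟨(a (c (a (c (b (a (c (l 16337872) (l 16390808)) (c (l 16440736) (l 16384960))) (a (l 16426584) (l 16443752))) (b (l 16266216) (l 16460256))) (c (a (b (c (l 16501632) (l 16505800)) (l 16525912)) (b (c (l 16467824) (l 16504232)) (l 16363792))) (a (b (l 16386688) (l 16456920)) (a (l 16467536) (l 16488976))))) (a (c (b (a (l 16312400) (l 16378424)) (l 16363952)) (b (a (l 16270792) (l 16337696)) (a (l 16391880) (l 16447624)))) (c (b (l 16376912) (l 16435888)) (a (a (l 16373736) (l 16434984)) (l 16479136))))) (b (l 6) (a (a (a (b (l 6) (c (l 16315688) (l 16604968))) (l 6)) (l 6)) (l 6)))), by decide +kernel⟩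

def k17_pm_012 : ∃ t, chk3 f_pm_012 t 15 17 1 = true :=
  ⟨(b (a (c (a (c (a (l 16469520) (l 16499776)) (l 16431848)) (b (c (b (l 16334360) (l 16347184)) (a (l 16520936) (l 16430872))) (c (l 16293976) (l 16299648)))) (a (a (l 16434368) (l 16487936)) (a (l 16521848) (l 16443512)))) (a (c (c (a (b (c (l 16212544) (l 16358960)) (l 16200776)) (a (c (l 16083304) (l 16221472)) (b (l 6) (l 16152152)))) (a (b (l 16388344) (l 16337232)) (c (l 16069800) (l 16276088)))) (c (a (b (a (l 16590688) (l 16498336)) (l 16416248)) (l 16251304)) (b (l 16466704) (l 16382192)))) (b (l 6) (a (c (c (l 16153352) (a (l 16172416) (l 6))) (c (l 16202696) (l 16285456))) (l 6))))) (a (c (a (b (c (l 16300104) (l 16549264)) (a (l 16374896) (l 16277272))) (c (l 16029144) (l 16141408))) (a (c (l 16386600) (l 16321856)) (c (l 16355576) (l 16268336)))) (c (a (c (a (l 15940968) (b (l 15945504) (l 15967256))) (a (l 16205984) (l 15981896))) (c (b (a (l 16065784) (l 16077568)) (a (l 15962744) (l 15983200))) (a (a (l 16023360)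 (l 16012400)) (l 16013640)))) (a (c (a (l 16237256) (l 16057024)) (l 16123648)) (a (c (l 15922312) (l 16003184)) (c (l 16012960) (a (l 15918024) (c (l 16006344) (l 15954760))))))))), by decide +kernel⟩

def k18_pm_012 : ∃ t, chk3 f_pm_012 t 15 9 1 = true :=
  ⟨(a (b (a (c (c (b (l 16196704) (l 16197288)) (l 16272504)) (b (l 16193784) (l 16212320))) (c (c (l 15861592) (b (l 16102616) (l 16046384))) (b (l 16143880) (l 16064568)))) (c (a (c (l 16064520) (l 16106592)) (c (l 15855216) (l 15930200))) (a (l 16097496) (l 15946440)))) (b (a (c (a (b (l 15961208) (l 15829200)) (b (l 15750720) (l 15739408))) (c (b (l 15970880) (l 15897112)) (l 15840400))) (c (b (a (l 15847816) (l 15865360)) (a (l 15708520) (l 15725304))) (a (c (l 15694816) (l 15772544)) (c (l 15698296) (b (a (l 15878584) (c (l 15849000) (l 15859464))) (l 15712792)))))) (a (c (b (a (l 15729536) (l 15629688)) (l 15640952)) (c (l 15765728) (l 15784992))) (c (b (a (l 15589352) (l 15600592)) (l 15541000)) (a (c (l 15602160) (l 15655904))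 (c (l 15556800) (b (l 15605504) (l 15540384)))))))), by decide +kernel⟩

def k19_pm_012 : ∃ t, chk3 f_pm_012 t 7 5 1 = true :=
  ⟨(a (b (a (b (a (b (l 16300520) (l 16221832)) (b (l 16453544) (l 16401752))) (a (l 16313056) (l 16102904))) (b (a (b (l 16329424) (b (l 16317080) (l 16250240))) (b (l 16186024) (c (l 16132696) (l 16101520)))) (a (l 15947712) (c (l 15834824) (l 15668072))))) (a (b (a (l 16231472) (l 15925000)) (c (l 16002096) (l 16025536))) (b (c (l 15597184) (a (l 15746752) (l 15472056))) (c (l 15509600) (l 15350848))))) (b (a (b (c (a (b (l 16028600) (l 15885264)) (b (l 15825584) (l 15765968))) (a (b (l 16033776) (l 15973008)) (l 15830928))) (a (c (c (l 15470608) (l 15609600)) (b (l 15713528) (l 15457624))) (c (l 15229848) (l 15396912)))) (b (a (c (b (l 15602208) (l 15542240)) (b (l 15705648) (l 15643400))) (c (b (l 15500272) (l 15438472)) (a (b (l 15546024) (l 15483216)) (b (l 15492976) (l 15324368))))) (a (c (l 15033040) (l 15098376)) (c (l 14996528) (a (l 15031792) (l 14927392))))))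 (a (b (c (a (l 15209512) (l 14755656)) (a (l 15187728) (l 14905144))) (c (a (l 15075832) (l 14734888)) (a (l 15048376) (l 14750728)))) (b (a (c (b (l 14676208) (l 14441312)) (b (l 14746144) (l 14501608))) (c (l 14393128) (a (l 14372648) (l 14317736)))) (a (c (l 14368168) (l 14422680)) (c (l 14117160) (a (l 14148936) (c (l 14025024) (l 14017440))))))))), by decide +kernel⟩

def k20_pm_012 : ∃ t, chk3 f_pm_012 t 3 3 1 = true :=
  ⟨(a (b (a (c (b (l 16775168) (l 16774952)) (c (l 16775008) (l 16774984))) (a (c (l 16764824) (b (l 16765088) (l 16763952))) (b (a (c (l 16753496) (l 16752880)) (c (l 16528352) (l 16521888))) (c (a (l 16761984) (l 16568720)) (a (l 16761584) (l 16563304)))))) (b (a (l 2) (a (l 2) (c (l 16697192) (a (l 2) (l 16612664))))) (l 2))) (a (b (a (b (c (l 15972096) (l 15850136)) (c (l 16140584) (a (l 16317112) (l 16054440)))) (b (c (l 15485704) (a (l 15690632) (l 15424480))) (c (l 15718312) (a (l 15812424) (l 15564488))))) (a (b (c (l 16283704) (l 16103656)) (l 2)) (b (c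 (l 15871896) (a (l 15958632) (l 15733032))) (c (l 16053128) (a (l 2) (l 15932104)))))) (b (a (c (b (a (l 15152048) (l 14844088)) (a (l 15327456) (l 15018240))) (b (a (l 15146968) (l 14858480)) (a (l 15303672) (l 15030344)))) (c (b (a (l 14467968) (l 14231128)) (a (l 14682288) (l 14431488))) (b (a (c (l 14545640) (l 14542384)) (c (l 14212968) (a (l 14296640) (l 14130552)))) (a (l 14496536) (c (l 14414312) (a (l 14494136) (l 14334472))))))) (a (c (b (a (l 15513928) (l 15229160)) (a (l 15734584) (l 15479264))) (b (a (l 15492856) (l 15238488)) (a (l 15716736) (l 15485296)))) (c (b (a (l 14917216) (l 14675792)) (a (l 15196384) (l 14966768))) (b (a (l 14850144) (c (l 14659824) (l 14638384))) (a (l 15057904) (c (l 14952232) (l 14804192))))))))), by decide +kernel⟩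

theorem s21_pm_012 : ∃ t, chk3 f_pm_012 t 15 16 1 = true := ex3_b k15_pm_012 k16_pm_012

theorem s22_pm_012 : ∃ t, chk3 f_pm_012 t 15 8 1 = true := ex3_b s21_pm_012 k17_pm_012

theorem s23_pm_012 : ∃ t, chk3 f_pm_012 t 15 4 1 = true := ex3_b s22_pm_012 k18_pm_012

theorem s24_pm_012 : ∃ t, chk3 f_pm_012 t 14 16 1 = true := ex3_a k11_pm_012 k12_pm_012

theorem s25_pm_012 : ∃ t, chk3 f_pm_012 t 14 8 1 = true := ex3_b s24_pm_012 k13_pm_012

theorem s26_pm_012 : ∃ t, chk3 f_pm_012 t 14 4 1 = true := ex3_b s25_pm_012 k14_pm_012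

theorem s27_pm_012 : ∃ t, chk3 f_pm_012 t 7 4 1 = true := ex3_a s26_pm_012 s23_pm_012

theorem s28_pm_012 : ∃ t, chk3 f_pm_012 t 7 2 1 = true := ex3_b s27_pm_012 k19_pm_012

theorem s29_pm_012 : ∃ t, chk3 f_pm_012 t 27 32 1 = true := ex3_c k5_pm_012 k6_pm_012

theorem s30_pm_012 : ∃ t, chk3 f_pm_012 t 27 16 1 = true := ex3_b s29_pm_012 k7_pm_012

theorem s31_pm_012 : ∃ t, chk3 f_pm_012 t 27 8 1 = true := ex3_b s30_pm_012 k8_pm_012

theorem s32_pm_012 : ∃ t, chk3 f_pm_012 t 13 8 1 = true := ex3_a k4_pm_012 s31_pm_012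

theorem s33_pm_012 : ∃ t, chk3 f_pm_012 t 13 4 1 = true := ex3_b s32_pm_012 k9_pm_012

theorem s34_pm_012 : ∃ t, chk3 f_pm_012 t 6 4 1 = true := ex3_a k3_pm_012 s33_pm_012

theorem s35_pm_012 : ∃ t, chk3 f_pm_012 t 6 2 1 = true := ex3_b s34_pm_012 k10_pm_012

theorem s36_pm_012 : ∃ t, chk3 f_pm_012 t 3 2 1 = true := ex3_a s35_pm_012 s28_pm_012

theorem s37_pm_012 : ∃ t, chk3 f_pm_012 t 3 1 1 = true := ex3_b s36_pm_012 k20_pm_012

theorem s38_pm_012 : ∃ t, chk3 f_pm_012 t 2 2 1 = true := ex3_a k0_pm_012 k1_pm_012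

theorem s39_pm_012 : ∃ t, chk3 f_pm_012 t 2 1 1 = true := ex3_b s38_pm_012 k2_pm_012

theorem s40_pm_012 : ∃ t, chk3 f_pm_012 t 1 1 1 = true := ex3_a s39_pm_012 s37_pm_012

theorem c_pm_012 : CertFX 0 536870912 1073741824 536870912 1046898278 26843546 false true false .pnp 0 1 2
    ndF0q0 ndF3q2 pcF1 cut_pm_012 Ext.none :=
  certFX2 (fam := false) (s1 := true) (s2 := false) (a := 0) (b := 1) (c := 2) (cn := .pnp) (n1 := ndF0q0) (n2 := ndF3q2) (pc := pcF1) (cut := cut_pm_012) (xt := Ext.none) (P1 := 0) (W1 := 536870912) (P2 := 1073741824) (W2 := 536870912) (P3 := 1046898278) (W3 := 26843546)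
    rfl (fun _ => rfl) s40_pm_012

noncomputable def cut_pm_022 : Cut := Cut.of [[⟨0, 0, 0, 67108864⟩, ⟨1, 1, 0, 67108864⟩, ⟨2, 1, 0, 67108864⟩]]

noncomputable def f_pm_022 : ℕ → ℕ → ℕ → ℕ → Bool := onCell 1073741824 536870912 1073741824 536870912 1046898278 26843546
    (rowFX 2 false true false .pp 0 2 2 (qsf 0 536870912 1073741824 536870912 2) ndF0q0 ndF3q2 pcF2 cut_pm_022 Ext.none)

def k0_pm_022 : ∃ t, chk3 f_pm_022 t 2 2 1 = true :=
  ⟨(a (b (a (a (a (b (a (b (l 6) (b (l 6) (b (l 6) (b (l 6) (c (l 15994456) (c (l 15970616) (l 93648506343))))))) (l 4)) (c (b (b (c (a (l 15918360) (l 16015832)) (l 15947824)) (a (l 15781856) (l 15890128))) (b (l 15704112) (l 15624128))) (b (c (b (l 15942816) (l 15820880)) (b (a (c (l 15888088) (l 15873224)) (l 1876596773671)) (a (l 15766048) (l 15835928)))) (c (l 15650520) (b (l 15574360) (l 15618304)))))) (a (b (l 4) (b (l 4) (b (l 4) (c (l 15782272) (l 15647088))))) (l 4))) (l 4)) (l 4)) (a (b (a (b (c (b (l 15587400) (l 15358160)) (a (c (l 15512712)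 (b (l 15557688) (l 15462856))) (c (b (l 15790768) (l 15595496)) (b (l 15808520) (l 15717096))))) (c (l 14973864) (a (c (l 15001248) (l 15002080)) (c (l 15219176) (l 15228936))))) (a (b (l 4) (c (a (l 15364792) (l 15448568)) (c (l 15366880) (l 15471416)))) (l 4))) (a (c (b (l 14479864) (a (l 14020072) (l 14168072))) (b (a (c (l 14347752) (l 14338296)) (c (l 14561264) (l 14560768))) (a (c (l 13969304) (l 13932200)) (c (l 14152240) (l 14144640))))) (c (b (a (l 14715768) (c (l 14999416) (l 15034400))) (a (l 14373256) (c (l 14579280) (l 14607112)))) (b (a (l 14792416) (l 15033456)) (a (l 14372824) (l 14596080)))))) (b (l 4) (a (b (l 4) (a (c (l 14820328) (l 14825528)) (l 4))) (l 4))))) (l 4)), by decide +kernel⟩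

def k1_pm_022 : ∃ t, chk3 f_pm_022 t 2 3 1 = true :=
  ⟨(a (a (b (c (a (b (b (l 14057592) (l 14105688)) (l 14203792)) (b (a (b (l 14236264) (l 14233896)) (b (l 14427896) (l 14358768))) (c (l 14367352) (l 14374968)))) (a (b (c (a (l 13994000) (l 14096248)) (a (l 13976960) (l 14086208))) (c (l 14171992) (a (l 14109048) (l 14199992)))) (b (b (a (l 14124376) (l 14421096)) (a (l 14224336) (l 14347480))) (c (l 14374528) (l 14348776))))) (c (a (b (l 14357176) (l 14540544)) (c (l 14325424) (a (l 14531016) (l 14626712)))) (a (b (c (l 14326264) (a (l 14270704) (l 14347296))) (c (l 14510696) (a (l 14463712) (l 14523624)))) (b (c (l 14500008) (l 14475344)) (c (l 14650832) (l 14627488)))))) (b (a (b (c (a (b (l 14653528) (l 14524440)) (b (l 14883384) (l 14713536))) (a (b (l 14631304) (l 14496672)) (l 19557708391))) (c (a (l 14545600) (l 14577224)) (a (l 14516192) (b (l 14605440) (l 14636952))))) (b (a (c (l 15029880) (l 14986984)) (l 4)) (c (b (l 14920360) (l 14866312)) (b (a (l 14753320) (l 14980512))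 (l 14816752))))) (a (c (a (b (l 14652464) (l 14781488)) (b (l 14744672) (l 14851696))) (b (a (l 14623096) (l 14706536)) (a (l 14752160) (l 14814552)))) (c (b (l 14898176) (l 14957200)) (b (l 14849376) (l 14909928)))))) (a (b (a (a (b (l 4) (c (l 15217336) (b (l 4) (l 15109512)))) (l 4)) (l 4)) (a (a (c (l 15126416) (b (l 15077224) (l 15089384))) (c (b (l 15302536) (l 15305112)) (b (l 15264288) (l 15266872)))) (b (c (b (l 15609656) (l 15559080)) (b (l 15538248) (l 15527512))) (c (l 15572528) (l 15541240))))) (b (l 4) (b (l 4) (a (c (l 15853456) (a (l 15757000) (l 15892240))) (c (l 15962664) (b (l 4) (l 16090104)))))))), by decide +kernel⟩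

def k2_pm_022 : ∃ t, chk3 f_pm_022 t 3 1 1 = true :=
  ⟨(l 4), by decide +kernel⟩

theorem s3_pm_022 : ∃ t, chk3 f_pm_022 t 2 1 1 = true := ex3_b k0_pm_022 k1_pm_022

theorem s4_pm_022 : ∃ t, chk3 f_pm_022 t 1 1 1 = true := ex3_a s3_pm_022 k2_pm_022

theorem c_pm_022 : CertFX 0 536870912 1073741824 536870912 1046898278 26843546 false true false .pp 0 2 2
    ndF0q0 ndF3q2 pcF2 cut_pm_022 Ext.none :=
  certFX2 (fam := false) (s1 := true) (s2 := false) (a := 0) (b := 2) (c := 2) (cn := .pp) (n1 := ndF0q0) (n2 := ndF3q2) (pc := pcF2) (cut := cut_pm_022) (xt := Ext.none) (P1 := 0) (W1 := 536870912) (P2 := 1073741824) (W2 := 536870912) (P3 := 1046898278) (W3 := 26843546)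
    rfl (fun _ => rfl) s4_pm_022

noncomputable def f_pm_023 : ℕ → ℕ → ℕ → ℕ → Bool := onCell 0 536870912 1073741824 536870912 1046898278 26843546
    (rowFX 1 false true false .up 0 2 3 (qsf 0 536870912 1610612736 536870912 2) ndF0q0 ndF3q3 pcF2 Cut.none Ext.none)

def k0_pm_023 : ∃ t, chk3 f_pm_023 t 1 1 1 = true :=
  ⟨(b (b (a (l 1) (b (a (l 1) (a (b (l 1) (c (l 14595472) (l 14596592))) (c (b (l 14591344) (l 14790416)) (b (c (l 14561792) (l 14466504)) (c (l 14781712) (l 14759512)))))) (a (b (l 1) (a (l 1) (c (l 14941472) (l 14893792)))) (b (c (a (b (l 14799288) (l 14896920)) (b (l 14955072) (l 15031720))) (a (b (l 14769960) (l 14860200)) (b (l 14925808) (l 14996248)))) (a (c (l 15008856) (l 14962928)) (c (l 15088104) (l 15044232))))))) (a (a (l 1) (b (l 1) (l 4))) (b (a (a (b (l 1) (c (l 15564672) (l 15533176))) (b (b (l 15091448) (l 15288920)) (c (l 15598312) (l 15567688)))) (b (b (c (l 15157008) (a (l 15105960) (l 15123424))) (c (l 15321864) (a (l 15278720) (l 15289128)))) (c (a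 (l 15639016) (l 15686656)) (a (l 15609456) (l 15658328))))) (a (b (a (c (l 15856448) (l 15832536)) (c (l 15925376) (l 15903256))) (a (c (l 16115424) (l 16098232)) (c (l 16186792) (l 16171456)))) (b (c (a (l 16013512) (l 16116448)) (a (l 15993672) (l 16099288))) (c (l 16220624) (a (l 16273632) (l 16392824)))))))) (a (b (l 4) (l 4)) (b (b (a (a (a (l 4) (b (l 16351624) (l 16578240))) (b (l 16392880) (l 16596440))) (c (a (l 16550920) (l 16609792)) (a (l 16545048) (l 16605440)))) (a (c (a (l 16767664) (l 16768424)) (b (l 16653472) (l 16777216))) (c (l 16771264) (a (l 16770008) (l 16772120))))) (a (b (c (l 16777208) (l 16777208)) (c (l 16777176) (l 16777176))) (b (a (l 16777168) (c (l 16748800) (l 16748064))) (a (l 16790112) (c (l 16735536) (l 16731432)))))))), by decide +kernel⟩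

theorem c_pm_023 : CertFX 0 536870912 1610612736 536870912 1046898278 26843546 false true false .up 0 2 3
    ndF0q0 ndF3q3 pcF2 Cut.none Ext.none :=
  certFX1 (fam := false) (s1 := true) (s2 := false) (a := 0) (b := 2) (c := 3) (cn := .up) (n1 := ndF0q0) (n2 := ndF3q3) (pc := pcF2) (cut := Cut.none) (xt := Ext.none) (P1 := 0) (W1 := 536870912) (P2 := 1610612736) (W2 := 536870912) (P3 := 1046898278) (W3 := 26843546)
    rfl (fun _ => rfl) k0_pm_023

noncomputable def f_pm_033 : ℕ → ℕ → ℕ → ℕ → Bool := onCell 1610612736 536870912 1610612736 536870912 1046898278 26843546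
    (rowFX 2 false true false .pnn 0 3 3 (qsf 0 536870912 1610612736 536870912 3) ndF0q0 ndF3q3 pcF3 Cut.none Ext.none)

def k0_pm_033 : ∃ t, chk3 f_pm_033 t 1 1 1 = true :=
  ⟨(a (b (l 4) (a (b (a (b (l 4) (c (l 16777152) (l 16777152))) (l 4)) (c (a (b (l 16750808) (l 16727152)) (b (l 16750808) (l 16727152))) (a (b (l 16750120) (l 16725768)) (b (l 16750120) (l 16725768))))) (b (l 4) (a (b (l 4) (c (l 16727152) (l 16725768))) (l 4))))) (l 4)), by decide +kernel⟩

theorem c_pm_033 : CertFX 0 536870912 1610612736 536870912 1046898278 26843546 false true false .pnn 0 3 3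
    ndF0q0 ndF3q3 pcF3 Cut.none Ext.none :=
  certFX2 (fam := false) (s1 := true) (s2 := false) (a := 0) (b := 3) (c := 3) (cn := .pnn) (n1 := ndF0q0) (n2 := ndF3q3) (pc := pcF3) (cut := Cut.none) (xt := Ext.none) (P1 := 0) (W1 := 536870912) (P2 := 1610612736) (W2 := 536870912) (P3 := 1046898278) (W3 := 26843546)
    rfl (fun _ => rfl) k0_pm_033

noncomputable def f_pm_101 : ℕ → ℕ → ℕ → ℕ → Bool := onCell 536870912 536870912 536870912 536870912 1046898278 26843546
    (rowFX 0 false true false .npn 1 0 1 (qsf 536870912 536870912 536870912 536870912 0) ndF0q1 ndF3q1 pcF0 Cut.none Ext.none)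

def k0_pm_101 : ∃ t, chk3 f_pm_101 t 1 1 1 = true :=
  ⟨(l 4), by decide +kernel⟩

theorem c_pm_101 : CertFX 536870912 536870912 536870912 536870912 1046898278 26843546 false true false .npn 1 0 1
    ndF0q1 ndF3q1 pcF0 Cut.none Ext.none :=
  certFX0 (fam := false) (s1 := true) (s2 := false) (a := 1) (b := 0) (c := 1) (cn := .npn) (n1 := ndF0q1) (n2 := ndF3q1) (pc := pcF0) (cut := Cut.none) (xt := Ext.none) (P1 := 536870912) (W1 := 536870912) (P2 := 536870912) (W2 := 536870912) (P3 := 1046898278) (W3 := 26843546)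
    rfl k0_pm_101

noncomputable def cut_pm_102 : Cut := Cut.of [[⟨0, 1, 0, 67108864⟩, ⟨1, 0, 0, 67108864⟩, ⟨2, 1, 0, 67108864⟩, ⟨3, 0, 0, 1317011456⟩]]

noncomputable def f_pm_102 : ℕ → ℕ → ℕ → ℕ → Bool := onCell 536870912 536870912 1073741824 536870912 1046898278 26843546
    (rowFX 0 false true false .npp 1 0 2 (qsf 536870912 536870912 1073741824 536870912 0) ndF0q1 ndF3q2 pcF0 cut_pm_102 Ext.none)

def k0_pm_102 : ∃ t, chk3 f_pm_102 t 2 1 1 = true :=
  ⟨(a (b (a (b (b (c (b (b (c (l 15874800) (l 15850616)) (l 15957120)) (l 16038456)) (b (c (b (a (l 15817752) (l 15817752)) (l 15888720)) (b (a (c (l 15792864) (l 15777056)) (l 15784344)) (l 15865792))) (c (l 16001704) (l 15991832)))) (a (l 2) (b (l 68818617063) (l 2)))) (l 2)) (b (b (c (b (b (a (l 15859560) (l 15859560)) (l 15957120)) (l 16038456)) (b (a (c (l 15771568) (l 15740848)) (c (l 15855456) (l 15824736))) (l 15996768))) (c (b (l 16069488) (l 15982784)) (b (l 16051104) (l 15962152)))) (a (l 2) (b (b (l 15828440) (l 2)) (l 2)))))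 (l 2)) (b (b (b (b (c (a (b (c (l 15853832) (l 15850616)) (l 15957120)) (b (a (b (l 15822256) (l 15904472)) (b (l 15822256) (l 15904472))) (l 15957120))) (a (b (c (l 15817752) (l 15763368)) (l 15879216)) (b (a (l 15778128) (l 15799104)) (l 15879216)))) (a (c (l 16038456) (l 15996768)) (c (a (l 16038456) (l 16038456)) (l 15996768)))) (a (c (b (l 16069488) (l 15982784)) (b (l 16051104) (l 15962152))) (b (c (l 16069488) (l 16051104)) (c (l 15982784) (l 15962152))))) (b (a (b (c (l 15840608) (l 15816280)) (l 16106936)) (b (c (l 15840608) (l 15816280)) (l 16106936))) (b (a (l 16490200) (l 16490200)) (a (l 2) (l 16776904))))) (b (a (l 2) (l 16777216)) (l 2)))), by decide +kernel⟩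

def k1_pm_102 : ∃ t, chk3 f_pm_102 t 12 2 1 = true :=
  ⟨(b (b (b (a (c (b (b (a (l 15822256) (c (l 15787064) (l 15815656))) (l 15904472)) (l 15957120)) (b (b (c (b (l 15775888) (l 15818240)) (l 15764016)) (l 15831592)) (l 15879216))) (b (c (b (a (a (b (c (a (l 15793008) (l 15775016)) (l 15769512)) (c (a (l 15855856) (l 15847816)) (l 15836720))) (c (l 15783080) (l 15766176))) (c (c (l 15666944) (l 15719296)) (l 15702568))) (a (a (c (l 15922312) (l 15890384)) (b (c (a (l 15899008) (l 15882472)) (l 15863040)) (c (a (l 15940704) (l 15933328)) (l 15897232)))) (c (c (l 15850512) (l 15855760)) (l 15825240)))) (a (b (b (c (l 15732384) (l 15643976)) (a (l 15790592) (l 15754880))) (a (l 15831312) (l 15732848))) (b (c (l 15673776) (l 15633600)) (l 15758424)))) (a (c (c (l 15920408) (l 15933192)) (l 15879088)) (c (b (a (c (b (l 15947280) (a (l 15980088) (l 15973392))) (l 15911272)) (l 15905904)) (a (l 15970696) (c (b (l 15979840) (l 15998792)) (l 15932184)))) (b (a (l 15845720) (l 15812312)) (a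 (l 15894760) (l 15882416))))))) (c (a (l 16038456) (b (c (l 16025424) (l 15982208)) (l 16063432))) (a (l 15996768) (l 15996720)))) (b (a (l 16060296) (l 16060296)) (c (a (l 15982784) (l 15982784)) (l 15962152)))) (b (b (c (b (l 15865512) (l 15816376)) (l 15816280)) (c (l 16115536) (l 16098344))) (b (c (l 16555984) (l 16550240)) (c (l 16776904) (l 16776896))))), by decide +kernel⟩

def k2_pm_102 : ∃ t, chk3 f_pm_102 t 26 2 1 = true :=
  ⟨(b (b (b (c (b (b (c (a (c (a (l 15674584) (l 15639176)) (l 15642232)) (b (a (l 15553832) (l 15519328)) (l 15579000))) (a (l 15619552) (l 15497808))) (b (c (a (l 15744800) (c (l 15711208) (l 15690736))) (l 15562784)) (c (a (l 15823208) (l 15760432)) (l 15737504)))) (b (c (a (l 15885056) (l 15826480)) (l 15795480)) (a (l 15919760) (l 15862912)))) (b (b (c (b (l 15480000) (l 15576488)) (b (a (l 15506568) (l 15405240)) (l 15518832))) (c (l 15650464) (l 15593296))) (c (l 15626288) (l 15739888)))) (b (a (c (b (a (c (b (l 15999744) (l 16017216)) (l 15955640))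 (l 15959632)) (a (l 16016144) (c (l 16026536) (l 15986320)))) (b (l 15908488) (l 15969320))) (c (c (l 15974880) (l 15925112)) (l 15888496))) (b (a (c (l 16045056) (l 16017056)) (c (a (c (l 16049040) (l 16024008)) (l 16021688)) (l 15996616))) (a (l 16067928) (a (l 16067792) (b (l 16048648) (l 16074072))))))) (b (c (b (l 16061152) (l 16056968)) (l 16051072)) (c (l 15982784) (l 15962152)))) (b (b (c (l 15840608) (l 15816280)) (l 16085968)) (b (l 16511168) (l 16776904)))), by decide +kernel⟩

def k3_pm_102 : ∃ t, chk3 f_pm_102 t 54 4 1 = true :=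
  ⟨(b (b (c (b (b (c (a (b (c (b (l 15476888) (l 15520584)) (l 15474280)) (l 15573704)) (b (c (a (l 15476256) (l 15461128)) (l 15440616)) (c (l 15557296) (l 15531672)))) (a (l 15482784) (b (l 15398696) (l 15491768)))) (c (b (c (a (l 15668240) (l 15642424)) (l 15629360)) (l 15704704)) (l 15503960))) (c (b (l 15775088) (l 15850248)) (l 15740072))) (b (b (c (b (l 15365032) (l 15448560)) (b (c (l 15322152) (l 15285864)) (l 15374880))) (c (l 15532904) (l 15461192))) (l 15568456))) (c (b (c (l 15935968) (l 15879392)) (c (l 16037552) (l 16011016))) (l 15766896))) (b (b (a (c (b (l 16084016) (l 16075600)) (l 16060048)) (b (l 16061824) (l 16041272))) (c (l 16056944) (l 16038216))) (a (l 15972464) (l 15972464)))), by decide +kernel⟩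

def k4_pm_102 : ∃ t, chk3 f_pm_102 t 55 4 1 = true :=
  ⟨(b (b (c (b (b (b (a (c (a (l 15431264) (c (a (l 15437312) (l 15438432)) (l 15405288))) (l 15363016)) (c (c (l 15445192) (l 15411232)) (l 15360384))) (a (c (a (l 15523248) (l 15514824)) (l 15459504)) (c (l 15523664) (l 15460336)))) (a (c (b (a (l 15608760) (l 15601536)) (a (l 15674520) (l 15668648))) (b (l 15537536) (l 15595704))) (c (b (l 15612424) (l 15681496)) (l 15571296)))) (a (c (b (a (l 15747680) (l 15743296)) (l 15824728)) (l 15705768)) (b (c (l 15759024) (l 15677400)) (l 15800840)))) (c (b (b (b (a (l 15299360) (l 15292248)) (a (l 15388960) (l 15385912))) (a (l 15480976) (l 15483744))) (a (l 15631928) (l 15643864))) (b (b (a (c (l 15265208) (l 15244488)) (c (l 15278152) (l 15234312))) (l 15400320)) (l 15584392)))) (c (b (c (a (l 15915960) (l 15937432)) (a (l 15854064) (l 15874720))) (c (b (l 16006640) (l 16059968)) (l 16004792))) (b (l 15808344) (l 15974192)))) (b (b (c (l 16082344) (l 16055696)) (c (a (b (l 16063840)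 (l 16053744)) (l 16090544)) (l 16056392))) (b (c (l 16000056) (l 16026392)) (l 15955352)))), by decide +kernel⟩

def k5_pm_102 : ∃ t, chk3 f_pm_102 t 27 5 1 = true :=
  ⟨(b (b (b (l 15843952) (c (l 15784896) (l 15803584))) (a (l 16106936) (l 16129264))) (b (l 16438728) (l 16764320))), by decide +kernel⟩

def k6_pm_102 : ∃ t, chk3 f_pm_102 t 28 8 1 = true :=
  ⟨(b (b (c (b (a (c (a (b (l 15440000) (l 15538576)) (b (l 15454424) (l 15556416))) (b (l 15373304) (l 15479040))) (a (c (b (l 15471968) (l 15577608)) (b (l 15391176) (l 15503832))) (a (b (c (b (a (l 15456640) (l 15460216)) (l 15514856)) (l 15401552)) (l 15557272)) (b (c (b (l 15462328) (l 15523320)) (l 15403968)) (c (b (l 15581336) (l 15636472)) (l 15529552)))))) (a (c (b (c (l 15658224) (l 15624464)) (l 15713592)) (b (l 15565720) (l 15632016))) (c (b (l 15689568) (l 15768776)) (b (l 15608984) (l 15682824))))) (b (a (c (b (l 15299288) (l 15399760)) (b (b (c (l 15212784) (l 15170280)) (l 15241552)) (l 15307440))) (b (c (a (l 15310152)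 (a (l 15316344) (l 15314680))) (a (c (l 15246584) (l 15196000)) (b (c (l 15212272) (a (b (l 15153264) (l 15185152)) (l 15157584))) (a (l 15252944) (l 15250728))))) (c (a (l 15418960) (l 15413928)) (a (l 15321040) (l 15332672))))) (a (c (l 15506912) (l 15419976)) (c (l 15548936) (l 15456816))))) (b (c (a (c (l 15796768) (l 15713152)) (c (l 15860064) (l 15773904))) (a (l 15594104) (l 15650872))) (c (a (c (l 15886024) (l 15802600)) (l 15916544)) (a (l 15710824) (l 15781296))))) (b (c (a (c (b (l 15956568) (l 16018144)) (b (l 15883560) (l 15962144))) (c (l 16070864) (l 15946552))) (a (l 15869704) (l 15954848))) (c (a (c (l 16064296) (l 16076272)) (b (l 16148480) (l 16214656))) (a (l 16047424) (l 16144664))))), by decide +kernel⟩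

def k7_pm_102 : ∃ t, chk3 f_pm_102 t 29 8 1 = true :=
  ⟨(b (b (c (c (b (a (a (b (l 15500192) (a (l 15619064) (l 15627688))) (l 15581888)) (a (l 15611280) (b (a (l 15572848) (l 15597608)) (l 15720344)))) (a (a (b (a (b (l 15704504) (l 15753672)) (l 15742064)) (l 15821440)) (b (l 15762248) (l 15857336))) (b (l 15820176) (l 15921208)))) (b (a (b (l 15404384) (a (l 15538072) (l 15549416))) (b (a (l 15418952) (l 15442008)) (l 15583576))) (a (a (b (a (l 15643216) (l 15654352)) (l 15731944)) (b (l 15668736) (l 15763568))) (b (l 15713496) (l 15818048))))) (b (b (a (c (l 15300968) (b (c (l 15179264) (l 15121032)) (l 15226168))) (c (a (l 15293960) (l 15299072)) (b (c (l 15143992) (l 15069808)) (l 15198816)))) (a (c (a (l 15441976) (l 15443400)) (a (l 15332808) (l 15324296))) (c (l 15459784) (l 15322848)))) (a (a (c (b (l 15546168) (l 15630480)) (b (l 15440496) (l 15538768))) (c (l 15609168) (l 15506544))) (c (l 15647760) (l 15533632))))) (c (a (b (a (l 15874784) (c (b (l 15933024) (l 15998448))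 (b (l 15843112) (l 15909584)))) (l 16009224)) (a (b (c (l 16013896) (l 15922304)) (c (l 16135704) (l 16053440))) (b (l 16085392) (l 16159848)))) (a (b (a (l 15706400) (c (b (l 15742448) (l 15819024)) (l 15712008))) (l 15874728)) (b (c (a (l 15825288) (l 15875544)) (l 15774176)) (a (b (l 15922816) (l 16000752)) (l 16028520)))))) (b (c (a (c (l 16173600) (l 16094280)) (b (a (l 16194200) (c (l 16296032) (l 16233296))) (l 16315480))) (a (l 16065224) (b (a (l 16105488) (l 16183952)) (l 16268544)))) (a (c (c (l 16283680) (l 16283256)) (l 16267344)) (c (b (c (l 16396912) (l 16379240)) (l 16401944)) (a (l 16379424) (l 16397688)))))), by decide +kernel⟩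

def k8_pm_102 : ∃ t, chk3 f_pm_102 t 60 8 1 = true :=
  ⟨(b (b (b (a (c (c (b (c (a (b (c (a (l 15645592) (l 15664464)) (l 15613400)) (l 15700816)) (b (l 6) (c (l 15760096) (l 15720304)))) (a (l 15588640) (l 15622816))) (a (l 15765976) (c (b (c (l 15823544) (l 15787776)) (l 15869592)) (l 15769768)))) (b (a (l 15470008) (l 15495840)) (l 15650272))) (b (c (l 15318920) (b (c (l 15135776) (l 15045184)) (l 15200320))) (c (l 15505304) (l 15347128)))) (b (l 6) (b (l 6) (c (c (c (a (l 15914416) (l 6)) (l 15869816)) (l 15763536)) (l 15515872))))) (c (a (b (c (l 15912560) (l 15791632)) (l 15960536)) (c (b (c (a (b (l 15977016) (l 16037560)) (b (l 6) (l 16087728))) (l 15970840)) (a (l 16084320) (c (l 16162656) (l 16106136)))) (b (l 15871144) (l 15993192)))) (a (c (l 15719624) (l 15593616)) (c (b (l 15726120) (l 15864968)) (l 15517888))))) (c (b (a (c (l 16145784) (l 16049448)) (b (l 16232608) (l 16234864))) (a (l 16241024) (l 16342024))) (b (a (l 15909496) (c (l 16043504) (l 15965360))) (l 16060712))))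 (c (b (b (a (l 16349608) (c (l 16472552) (l 16424136))) (a (a (l 16409864) (c (l 16422192) (l 16413744))) (c (l 16451272) (l 16420768)))) (b (a (l 16405496) (c (b (l 16406856) (l 16386056)) (l 16380656))) (l 16374384))) (b (a (b (l 16279160) (b (l 16381800) (l 16402064))) (b (l 16396936) (l 16369416))) (a (l 16380664) (b (a (l 16374152) (l 16369512)) (l 16350992)))))), by decide +kernel⟩

def k9_pm_102 : ∃ t, chk3 f_pm_102 t 61 8 1 = true :=
  ⟨(b (b (a (a (a (b (l 6) (b (l 6) (b (l 6) (c (l 16143984) (l 15906552))))) (l 6)) (l 6)) (l 6)) (a (b (c (c (b (c (a (l 16304760) (l 16366048)) (l 16289896)) (l 16436880)) (b (l 16214792) (l 16310136))) (c (b (l 16105192) (l 16222256)) (l 16092744))) (c (b (l 16428512) (c (l 16518744) (l 16460184))) (b (l 16308704) (l 16410168)))) (a (c (b (c (b (l 6) (l 16576896)) (l 16368584)) (b (b (l 16512312) (c (l 16573456) (l 16514952))) (l 16513000))) (b (l 16183608) (b (b (l 16401840) (l 16457168)) (l 16526120)))) (b (l 6) (c (c (a (b (b (l 6) (l 16597664))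 (l 16618160)) (b (l 6) (c (l 16618472) (l 16617032)))) (l 16505576)) (b (l 16516184) (l 16548840))))))) (b (c (c (a (l 16436840) (b (a (l 16552152) (l 16574256)) (l 16493480))) (b (a (l 16493808) (a (l 16511360) (l 16534240))) (l 16407088))) (a (b (l 16475400) (l 16426328)) (b (a (l 16492272) (l 16515368)) (l 16453024)))) (c (a (c (b (l 16400600) (b (l 16358360) (l 16340816))) (b (l 16382312) (l 16342840))) (c (b (l 16425760) (l 16343128)) (l 16381808))) (a (b (l 16374600) (a (l 16335192) (l 16330792))) (b (l 16400640) (l 16347344)))))), by decide +kernel⟩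

def k10_pm_102 : ∃ t, chk3 f_pm_102 t 62 8 1 = true :=
  ⟨(a (b (a (a (b (l 6) (b (l 6) (c (c (c (b (l 6) (l 16625808)) (l 16639576)) (l 16605328)) (l 16571928)))) (l 6)) (l 6)) (c (b (a (b (c (b (c (c (l 16598288) (l 16613904)) (l 16601472)) (l 16572472)) (l 16555536)) (c (l 16519808) (l 16496816))) (c (b (c (b (c (l 16589104) (l 16621160)) (l 16530768)) (l 16596552)) (l 16536696)) (b (l 16512200) (l 16521848)))) (c (b (l 16459232) (l 16354344)) (l 16426728))) (b (b (a (l 16536960) (l 16556808)) (a (l 16487856) (l 16513384))) (l 16419816)))) (b (l 6) (b (a (c (c (a (b (a (b (l 6) (l 16594648)) (l 6)) (l 16547344)) (b (l 6) (b (l 16549496) (l 16536680)))) (b (l 16586056) (b (l 16551336) (l 16524968)))) (b (l 16573816) (l 16536456))) (b (l 6) (c (c (c (b (a (l 16584928) (l 6)) (l 16536736)) (l 16555016)) (b (l 16561968) (l 16541336))) (l 16537264)))) (c (b (c (a (l 16482416) (l 16500376)) (a (l 16484032) (l 16503920))) (c (l 16385288) (l 16438472))) (b (a (l 16484456) (l 16512944)) (l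 16442984)))))), by decide +kernel⟩

def k11_pm_102 : ∃ t, chk3 f_pm_102 t 63 8 1 = true :=
  ⟨(b (l 6) (a (b (a (b (l 6) (a (b (l 6) (c (c (l 16564288) (l 16549696)) (l 16561192))) (l 6))) (l 6)) (c (a (a (c (b (l 16475776) (l 16451976)) (b (l 16516712) (l 16461376))) (b (c (b (l 16524504) (l 16514000)) (l 16525152)) (c (b (l 16481096) (l 16450400)) (l 16408984)))) (c (b (b (a (a (a (l 16552608) (l 6)) (l 6)) (l 6)) (c (a (l 16514552) (c (l 16560792) (l 16546432))) (l 16528152))) (b (l 16509656) (l 16482496))) (b (a (l 16533384) (l 16543688)) (a (l 16487096) (l 16504032))))) (b (a (b (c (l 16547312) (l 16548520)) (c (l 16523200) (l 16524120))) (c (a (b (l 16558664) (l 16539736)) (l 16555096)) (b (l 16566952) (l 16549488)))) (a (a (l 16472368) (c (b (l 16501272) (l 16473016)) (l 16467328))) (c (a (l 16480752) (l 16514984)) (b (l 16527600) (l 16502600))))))) (b (l 6) (b (a (b (l 6) (c (c (c (a (c (l 16579816) (l 16562176)) (l 6)) (l 16557568)) (l 16554608)) (c (l 16558480) (l 16546136))))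 (l 6)) (c (c (c (a (b (c (a (l 16546256) (l 16564392)) (l 16544328)) (l 16525424)) (a (b (c (l 16583088) (l 16567400)) (l 16552192)) (b (l 6) (l 16547704)))) (a (l 16531192) (l 16562296))) (a (l 16529720) (l 16560912))) (a (c (a (l 16527784) (l 16538464)) (a (l 16536360) (c (l 16545424) (l 16548736)))) (c (l 16558896) (c (a (l 16553336) (l 16564568)) (a (l 16557688) (l 16566184)))))))))), by decide +kernel⟩

def k12_pm_102 : ∃ t, chk3 f_pm_102 t 14 9 1 = true :=
  ⟨(b (a (b (c (a (l 16158184) (l 16252776)) (l 16186592)) (a (c (l 16152952) (l 16145216)) (c (l 16208992) (l 16204056)))) (a (b (b (a (l 16328528) (l 16367312)) (c (l 16306440) (l 16299640))) (c (l 16206072) (l 16194480))) (b (a (b (l 16362104) (l 16300352)) (l 16323552)) (c (a (l 16204488) (b (l 16236392) (l 16168752))) (l 16166944))))) (a (a (b (b (c (l 16125216) (l 16123744)) (a (l 16080720) (c (a (l 16054320) (l 16040968)) (l 16042280)))) (c (l 16014448) (l 16011200))) (b (c (b (l 16112584) (l 16031032)) (l 16059880)) (a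 (b (c (l 15893328) (l 15942592)) (l 15900112)) (b (l 15929472) (c (l 15859224) (l 15840744)))))) (c (a (b (l 16060840) (l 15879384)) (b (c (l 16057096) (l 16047864)) (l 15863488))) (a (l 15930152) (b (l 16034032) (l 15840120)))))), by decide +kernel⟩

def k13_pm_102 : ∃ t, chk3 f_pm_102 t 30 9 1 = true :=
  ⟨(b (c (a (b (l 16301720) (a (l 16168320) (l 16166544))) (a (b (l 16267952) (l 16142160)) (b (b (c (a (l 16291320) (l 16300088)) (l 16290840)) (l 16224080)) (l 16128576)))) (a (b (l 16289256) (l 16161408)) (b (a (l 16254504) (b (b (l 16299984) (l 16259936)) (l 16209232))) (l 16117920)))) (a (b (c (b (a (l 16089088) (l 16072528)) (l 15990080)) (b (l 16061000) (l 15969040))) (c (l 15776272) (l 15814024))) (c (b (a (b (l 16049304) (l 15967048)) (b (l 16034328) (l 15953584))) (a (l 15816608) (b (l 15862096) (l 15762520)))) (b (a (l 15986888) (l 15972512)) (a (l 15790568) (l 15784552)))))), by decide +kernel⟩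

def k14_pm_102 : ∃ t, chk3 f_pm_102 t 31 9 4 = true :=
  ⟨(b (a (a (b (b (l 16294616) (a (l 16224328) (l 16226608))) (l 16082584)) (b (a (l 16242856) (b (l 16351672) (l 16248664))) (a (b (l 16148600) (l 16082928)) (b (b (l 16172216) (a (l 16126256) (l 16129904))) (a (l 16078064) (l 16080480)))))) (b (a (a (b (l 16355944) (l 16274576)) (b (l 16418752) (l 16317648))) (b (a (l 16423976) (a (l 16499032) (l 16517272))) (a (l 16366592) (l 16416848)))) (a (b (a (l 16176768) (l 16217960)) (a (c (l 16092304) (l 16092680)) (c (l 16124512) (l 16121656)))) (a (b (l 16266200) (l 16167672)) (b (l 16316104) (l 16216680)))))) (a (a (b (b (c (l 16027864) (l 16032208)) (l 15947864)) (b (l 15858640) (a (l 15770848) (l 15766464)))) (b (b (a (b (l 16035240) (l 16002672)) (b (l 16030808) (l 15997400))) (a (c (l 15931600) (l 15938544)) (l 15929440))) (a (c (l 15795240) (l 15801176)) (c (l 15787768) (l 15789280))))) (a (b (b (a (c (l 16021304) (l 16021176)) (c (l 16043264) (l 16039840))) (a (l 15952728) (c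 (l 15968056) (l 15942968)))) (a (c (l 15787368) (l 15785536)) (c (l 15817176) (l 15790968)))) (b (b (b (a (l 16097704) (l 16143384)) (a (l 16053896) (a (l 16083600) (l 16106144)))) (a (c (l 15994632) (l 15968488)) (a (l 15996232) (l 16015448)))) (a (b (l 15862080) (l 15759048)) (b (a (l 15879848) (l 15894008)) (l 15777832))))))), by decide +kernel⟩

def k15_pm_102 : ∃ t, chk3 f_pm_102 t 31 9 5 = true :=
  ⟨(b (a (a (b (b (l 16321600) (l 16231544)) (l 16127896)) (b (a (l 16255760) (b (l 16366696) (l 16262264))) (a (l 16126312) (b (a (l 16161576) (l 16165096)) (l 16090544))))) (a (b (a (b (l 16345264) (l 16283456)) (b (l 16420800) (l 16318312))) (a (b (l 16184280) (l 16099016)) (b (l 16217248) (l 16121360)))) (b (a (b (l 16400072) (l 16362320)) (b (l 16421848) (l 16412824))) (a (l 16126496) (l 16197096))))) (a (a (b (l 15989880) (b (l 15858200) (l 15766152))) (b (b (a (l 16028344) (l 16024408)) (a (l 15944176) (l 15938528))) (a (l 15805296) (l 15796040)))) (a (b (b (a (l 16026760) (l 16038680))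 (a (l 15935800) (l 15940768))) (a (l 15788552) (l 15787104))) (a (b (b (l 16067560) (l 15961248)) (l 15798216)) (b (b (l 16110992) (l 15995840)) (l 15820136)))))), by decide +kernel⟩

def k16_pm_102 : ∃ t, chk3 f_pm_102 t 31 18 3 = true :=
  ⟨(a (a (b (b (l 16312640) (l 16220784)) (l 16115024)) (b (b (l 16360976) (a (l 16241536) (c (l 16269096) (l 16262592)))) (a (l 16119624) (b (c (l 16170016) (l 16162184)) (c (l 16095032) (l 16086192)))))) (a (b (b (a (c (a (l 16391896) (l 16406888)) (l 16398472)) (c (a (l 16424056) (l 16419024)) (l 16437416))) (c (a (l 16293968) (l 16328152)) (l 16290208))) (c (a (b (l 16193456) (l 16107016)) (b (l 16225720) (l 16128520))) (b (l 16209680) (a (l 16102480) (l 16129896))))) (b (a (c (b (b (l 16448944) (l 16441752)) (l 16363752)) (b (b (a (l 16491040) (l 16506616)) (l 16427984)) (l 16369936))) (b (c (b (l 16524176) (l 16481976)) (a (c (l 16494360) (l 16498360)) (c (l 16510368) (l 16511664)))) (c (l 16408928) (c (l 16408176) (l 16347792))))) (c (a (l 16104912)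 (l 16254072)) (a (c (l 16130600) (l 16151008)) (c (l 16167904) (a (l 16158424) (a (l 16152104) (l 16162432))))))))), by decide +kernel⟩

def k17_pm_102 : ∃ t, chk3 f_pm_102 t 31 19 3 = true :=
  ⟨(a (b (a (l 15974120) (b (a (c (l 16024448) (l 16014808)) (c (l 16027984) (l 16018224))) (c (l 15939568) (l 15928320)))) (a (b (l 15839616) (l 15724584)) (c (l 15797096) (a (l 15785360) (l 15783296))))) (a (b (c (b (a (l 16033760) (l 16044696)) (a (l 15941512) (l 15945400))) (b (a (l 16028224) (l 15982008)) (a (l 15934680) (l 15944240)))) (c (a (l 15792128) (l 15789512)) (a (l 15783176) (l 15786128)))) (c (b (a (b (l 16044008) (l 15957168)) (b (l 16103008) (l 15986224))) (a (l 15791776) (l 15807984))) (b (a (b (c (a (l 16062000) (l 16073584)) (b (l 16089504) (l 16043680))) (c (l 15959280) (l 15956984))) (b (c (a (l 16088112) (l 16109056)) (b (a (l 16114264) (c (l 16133056) (a (l 16127976) (l 16137768)))) (a (c (l 16064960) (l 16064144)) (c (l 16081472) (a (b (l 16090072) (l 16062928)) (c (l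 16085528) (b (l 16099520) (a (l 16069184) (l 16073816))))))))) (c (l 15939248) (a (c (l 15973680) (l 15972544)) (c (l 15986712) (a (l 15982336) (a (l 15945824) (l 15928912)))))))) (a (c (l 15687264) (l 15704760)) (c (b (l 15857896) (l 15744232)) (c (a (l 15753896) (b (l 15859744) (l 15743672))) (a (l 15773120) (b (a (l 15856048) (l 15777056)) (l 15742688)))))))))), by decide +kernel⟩

def k18_pm_102 : ∃ t, chk3 f_pm_102 t 14 5 1 = true :=
  ⟨(b (a (b (a (b (l 15954696) (l 15912208)) (b (l 15779488) (l 15786360))) (l 15946608)) (a (b (b (a (c (b (l 15759864) (l 15711248)) (l 15715352)) (b (l 15725400) (l 15603240))) (b (l 15633488) (l 15646784))) (l 15888624)) (a (b (b (l 15667088) (b (l 15540264) (l 15533720))) (l 15781832)) (b (b (l 15655496) (b (l 15514672) (c (l 15493856) (l 15460136)))) (l 15520704))))) (b (a (l 16261936) (l 15971224)) (a (l 16591664) (l 16317792)))), by decide +kernel⟩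

def k19_pm_102 : ∃ t, chk3 f_pm_102 t 30 10 1 = true :=
  ⟨(b (a (b (c (l 15642144) (l 15611544)) (b (l 15480936) (l 15430200))) (c (b (a (l 15612272) (l 15605680)) (b (l 15474544) (a (l 15410568) (l 15398112)))) (b (l 15576224) (b (l 15420424) (l 15365552))))) (a (b (a (b (l 15495392) (l 15578312)) (b (l 15457664) (l 15510528))) (c (l 15700840) (l 15670672))) (a (b (l 15453544) (b (l 15526008) (l 15607336))) (b (c (l 15459352) (l 15422168)) (c (a (l 15547072) (c (l 15550824) (l 15533840))) (a (l 15512568) (c (l 15516544) (l 15499248)))))))), by decide +kernel⟩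

def k20_pm_102 : ∃ t, chk3 f_pm_102 t 31 20 1 = true :=
  ⟨(c (a (b (a (c (a (l 15614976) (c (l 15612280) (l 15617304))) (l 15610648)) (c (a (l 15649664) (l 15620096)) (l 15564184))) (a (b (c (l 15458048) (l 15451600)) (c (c (l 15382472) (l 15382120)) (l 15395296))) (b (c (l 15449208) (l 15449736)) (c (l 15373496) (l 15394112))))) (b (a (c (b (l 15645608) (l 15548864)) (a (l 15594256) (l 15588312))) (c (a (l 15607992) (l 15684328)) (l 15599056))) (b (a (c (l 15448552) (l 15441640)) (c (l 15464384) (l 15446768))) (a (c (b (b (l 15385576) (l 15385976)) (l 15404632)) (l 15387448)) (c (b (b (l 15403232) (l 15404384)) (l 15424384)) (l 15374688)))))) (a (b (a (a (l 15583024) (l 15590064)) (c (l 15600208) (l 15584056))) (b (a (l 15424016) (l 15433176)) (a (l 15366384) (l 15376224)))) (b (a (c (a (l 15594944) (l 15587760)) (b (l 15633184) (l 15531984))) (c (a (l 15583264) (l 15590608)) (a (c (l 15581312) (l 15576312)) (c (l 15581288) (a (l 15576256) (c (l 15578336) (l 15576760))))))) (a (b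 (c (l 15438944) (l 15426976)) (c (l 15383888) (l 15371048))) (b (c (l 15433192) (a (l 15423336) (c (l 15422952) (l 15418576)))) (c (l 15381256) (a (c (l 15373208) (l 15366632)) (c (l 15370528) (b (b (l 15354024) (l 15355392)) (l 15376720)))))))))), by decide +kernel⟩

def k21_pm_102 : ∃ t, chk3 f_pm_102 t 31 21 1 = true :=
  ⟨(a (c (c (a (b (l 15443720) (c (l 15548712) (l 15549376))) (b (l 15460584) (l 15549448))) (a (b (l 15458200) (l 15543096)) (b (l 15461160) (l 15551336)))) (b (a (l 15430536) (l 15444664)) (c (l 15533768) (a (l 15508664) (l 15527232))))) (c (a (c (b (l 15465776) (l 15560120)) (b (l 15459016) (l 15554784))) (c (b (l 15489824) (l 15590448)) (l 15503248))) (a (c (b (l 15456472) (l 15553656)) (b (l 15444656) (l 15543256))) (c (b (l 15459200) (l 15562888)) (a (b (l 15447208) (l 15550680)) (c (l 15504768) (b (l 15446544) (l 15553944)))))))), by decide +kernel⟩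

def k22_pm_102 : ∃ t, chk3 f_pm_102 t 30 11 1 = true :=
  ⟨(a (b (l 15930456) (l 16164176)) (b (a (l 15851872) (b (a (l 15696992) (c (b (l 15635584) (c (l 15739568) (l 15725456))) (b (l 15603552) (l 15703824)))) (c (c (l 15893928) (l 15882200)) (l 15864264)))) (c (c (a (l 16064160) (l 15998472)) (l 16021584)) (c (l 16011832) (a (l 16036192) (l 15968168)))))), by decide +kernel⟩

def k23_pm_102 : ∃ t, chk3 f_pm_102 t 31 11 1 = true :=
  ⟨(b (a (c (b (a (c (b (a (l 15621400) (l 15613112)) (a (l 15707088) (l 15680104))) (b (l 15614864) (l 15690152))) (c (a (l 15617592) (l 15635360)) (l 15642168))) (a (c (a (l 15847640) (l 15668464)) (l 15830736)) (c (b (a (l 15738128) (l 15716576)) (a (l 15826592) (l 15795504))) (b (l 15732520) (l 15818256))))) (b (a (b (l 15590576) (c (l 15675048) (l 15660176))) (c (l 15636616) (l 15620840))) (a (c (l 15817888) (l 15784296)) (b (c (l 15728416) (l 15714072)) (c (l 15815552) (l 15802616)))))) (c (a (b (c (l 15649888) (l 15645960)) (c (b (l 15718240) (a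 (l 15776752) (l 15774640))) (a (l 15746512) (l 15741944)))) (c (b (l 15685880) (a (l 15766208) (l 15787368))) (b (l 15671592) (l 15764104)))) (a (b (c (l 15646248) (l 15637256)) (c (a (l 15749464) (l 15743688)) (b (l 15708960) (a (l 15773016) (l 15766160))))) (c (b (l 15661344) (l 15755360)) (a (b (l 15649088) (c (l 15746176) (l 15742384))) (c (l 15707120) (b (l 15655904) (l 15752344)))))))) (a (c (c (a (l 15937840) (b (l 15871648) (l 15872232))) (l 15886984)) (c (l 15902240) (c (l 15893896) (l 15888320)))) (c (b (a (b (c (a (l 15826888) (l 15789656)) (l 15819040)) (l 15819832)) (b (c (b (l 15801952) (l 15783936)) (l 15802528)) (c (l 15770120) (l 15778552)))) (c (l 15803536) (l 15797936))) (a (c (b (a (l 15834520) (l 15806032)) (l 15820656)) (b (b (a (l 15825712) (l 15804000)) (l 15814488)) (l 15814488))) (b (c (b (l 15794432) (l 15770056)) (a (b (c (l 15790952) (l 15787528)) (l 15773208)) (a (b (l 15765744) (l 15755144)) (c (l 15770432) (b (l 15787792) (l 15744800)))))) (c (l 15766296)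 (c (l 15762272) (a (l 15771680) (l 15745632))))))))), by decide +kernel⟩

def k24_pm_102 : ∃ t, chk3 f_pm_102 t 6 3 1 = true :=
  ⟨(a (b (c (b (l 16777216) (l 16777216)) (l 16777216)) (l 2)) (b (b (a (l 16777216) (l 16764520)) (l 16686864)) (a (l 2) (l 16764520)))), by decide +kernel⟩

def k25_pm_102 : ∃ t, chk3 f_pm_102 t 14 3 1 = true :=
  ⟨(b (a (b (l 16591888) (l 16591888)) (b (l 16359984) (l 16339016))) (a (l 16591888) (c (l 16365336) (l 16354640)))), by decide +kernel⟩

def k26_pm_102 : ∃ t, chk3 f_pm_102 t 30 3 1 = true :=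
  ⟨(a (b (b (l 16164448) (a (l 16202280) (c (b (l 16135192) (l 16135192)) (b (l 16118520) (l 16118520))))) (b (c (c (l 16176232) (l 16168376)) (c (l 16160520) (b (l 16152664) (l 16152664)))) (b (c (l 16172304) (l 16156592)) (l 2)))) (b (b (c (b (c (l 16037656) (l 16021856)) (c (l 16037656) (l 16021856))) (b (c (l 16012112) (l 16002368)) (c (l 16012112) (l 16002368)))) (c (b (c (l 16037656) (l 16021856)) (l 16023368)) (b (c (l 16012112) (l 16002368)) (c (l 16012112) (l 16002368))))) (c (b (c (l 16037656) (l 16021856)) (c (l 16037656) (l 16021856))) (b (c (l 16012112) (b (l 16002368) (l 16002368))) (c (l 16012112) (b (l 16002368) (l 16002368))))))), by decide +kernel⟩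

def k27_pm_102 : ∃ t, chk3 f_pm_102 t 31 3 1 = true :=
  ⟨(b (b (c (a (c (b (l 15905712) (l 15905712)) (b (l 15908248) (l 15908248))) (c (b (l 15803536) (l 15803536)) (b (l 15797936) (a (l 15817560) (l 15774848))))) (a (c (b (l 15902536) (l 15902536)) (b (l 15891408) (l 15891408))) (c (a (b (l 15820656) (l 15820656)) (b (l 15766296) (l 15766296))) (a (b (l 15814488) (l 15814488)) (b (c (l 15720328) (c (l 15761072) (l 15759208))) (c (a (l 15775232) (l 15747600)) (a (l 15771680) (l 15745632)))))))) (c (a (c (b (l 15905712) (l 15905712)) (b (l 15908248) (l 15908248))) (b (c (a (l 15818672) (l 15787456)) (a (l 15817560) (l 15774848))) (c (l 15803536) (a (l 15817560) (l 15774848))))) (a (c (b (l 15902536) (l 15902536)) (b (l 15891408) (l 15891408))) (c (a (b (l 15820656) (l 15820656)) (b (l 15766296) (l 15766296))) (a (b (l 15814488) (l 15814488)) (a (b (l 15773160) (l 15773160)) (c (l 15747600) (b (l 15745632) (l 15745632))))))))) (c (b (a (c (b (l 15905712) (l 15905712)) (b (l 15908248)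 (l 15908248))) (c (b (l 15803536) (l 15803536)) (a (l 15817560) (l 15774848)))) (a (c (l 15905712) (l 15908248)) (c (l 15761600) (a (l 15817560) (l 15774848))))) (b (b (a (c (l 15902536) (l 15891408)) (c (a (l 15820656) (l 15766296)) (a (l 15814488) (c (l 15762272) (l 15760832))))) (a (c (l 15902536) (l 15891408)) (c (a (l 15820656) (l 15766296)) (a (l 15814488) (c (l 15762272) (l 15760832)))))) (a (c (l 15902536) (b (l 15891408) (l 15891408))) (c (a (c (l 15819824) (l 15820448)) (c (l 15766576) (l 15763784))) (a (b (l 15814488) (l 15814488)) (a (c (l 15775232) (l 36068967943)) (c (l 15747600) (b (l 15745632) (c (l 15745552) (l 15744792))))))))))), by decide +kernel⟩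

theorem s28_pm_102 : ∃ t, chk3 f_pm_102 t 15 3 1 = true := ex3_a k26_pm_102 k27_pm_102

theorem s29_pm_102 : ∃ t, chk3 f_pm_102 t 7 3 1 = true := ex3_a k25_pm_102 s28_pm_102

theorem s30_pm_102 : ∃ t, chk3 f_pm_102 t 3 3 1 = true := ex3_a k24_pm_102 s29_pm_102

theorem s31_pm_102 : ∃ t, chk3 f_pm_102 t 15 11 1 = true := ex3_a k22_pm_102 k23_pm_102

theorem s32_pm_102 : ∃ t, chk3 f_pm_102 t 31 10 1 = true := ex3_b k20_pm_102 k21_pm_102

theorem s33_pm_102 : ∃ t, chk3 f_pm_102 t 15 10 1 = true := ex3_a k19_pm_102 s32_pm_102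

theorem s34_pm_102 : ∃ t, chk3 f_pm_102 t 15 5 1 = true := ex3_b s33_pm_102 s31_pm_102

theorem s35_pm_102 : ∃ t, chk3 f_pm_102 t 7 5 1 = true := ex3_a k18_pm_102 s34_pm_102

theorem s36_pm_102 : ∃ t, chk3 f_pm_102 t 31 9 3 = true := ex3_b k16_pm_102 k17_pm_102

theorem s37_pm_102 : ∃ t, chk3 f_pm_102 t 31 9 2 = true := ex3_c k14_pm_102 k15_pm_102

theorem s38_pm_102 : ∃ t, chk3 f_pm_102 t 31 9 1 = true := ex3_c s37_pm_102 s36_pm_102

theorem s39_pm_102 : ∃ t, chk3 f_pm_102 t 15 9 1 = true := ex3_a k13_pm_102 s38_pm_102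

theorem s40_pm_102 : ∃ t, chk3 f_pm_102 t 7 9 1 = true := ex3_a k12_pm_102 s39_pm_102

theorem s41_pm_102 : ∃ t, chk3 f_pm_102 t 31 8 1 = true := ex3_a k10_pm_102 k11_pm_102

theorem s42_pm_102 : ∃ t, chk3 f_pm_102 t 30 8 1 = true := ex3_a k8_pm_102 k9_pm_102

theorem s43_pm_102 : ∃ t, chk3 f_pm_102 t 15 8 1 = true := ex3_a s42_pm_102 s41_pm_102

theorem s44_pm_102 : ∃ t, chk3 f_pm_102 t 14 8 1 = true := ex3_a k6_pm_102 k7_pm_102

theorem s45_pm_102 : ∃ t, chk3 f_pm_102 t 7 8 1 = true := ex3_a s44_pm_102 s43_pm_102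

theorem s46_pm_102 : ∃ t, chk3 f_pm_102 t 7 4 1 = true := ex3_b s45_pm_102 s40_pm_102

theorem s47_pm_102 : ∃ t, chk3 f_pm_102 t 7 2 1 = true := ex3_b s46_pm_102 s35_pm_102

theorem s48_pm_102 : ∃ t, chk3 f_pm_102 t 27 4 1 = true := ex3_a k3_pm_102 k4_pm_102

theorem s49_pm_102 : ∃ t, chk3 f_pm_102 t 27 2 1 = true := ex3_b s48_pm_102 k5_pm_102

theorem s50_pm_102 : ∃ t, chk3 f_pm_102 t 13 2 1 = true := ex3_a k2_pm_102 s49_pm_102

theorem s51_pm_102 : ∃ t, chk3 f_pm_102 t 6 2 1 = true := ex3_a k1_pm_102 s50_pm_102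

theorem s52_pm_102 : ∃ t, chk3 f_pm_102 t 3 2 1 = true := ex3_a s51_pm_102 s47_pm_102

theorem s53_pm_102 : ∃ t, chk3 f_pm_102 t 3 1 1 = true := ex3_b s52_pm_102 s30_pm_102

theorem s54_pm_102 : ∃ t, chk3 f_pm_102 t 1 1 1 = true := ex3_a k0_pm_102 s53_pm_102

theorem c_pm_102 : CertFX 536870912 536870912 1073741824 536870912 1046898278 26843546 false true false .npp 1 0 2
    ndF0q1 ndF3q2 pcF0 cut_pm_102 Ext.none :=
  certFX0 (fam := false) (s1 := true) (s2 := false) (a := 1) (b := 0) (c := 2) (cn := .npp) (n1 := ndF0q1) (n2 := ndF3q2) (pc := pcF0) (cut := cut_pm_102) (xt := Ext.none) (P1 := 536870912) (W1 := 536870912) (P2 := 1073741824) (W2 := 536870912) (P3 := 1046898278) (W3 := 26843546)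
    rfl s54_pm_102

noncomputable def f_pm_112 : ℕ → ℕ → ℕ → ℕ → Bool := onCell 536870912 536870912 1073741824 536870912 1046898278 26843546
    (rowFX 0 false true false .dn 1 1 2 (qsf 536870912 536870912 1073741824 536870912 1) ndF0q1 ndF3q2 pcF1 Cut.none Ext.none)

def k0_pm_112 : ∃ t, chk3 f_pm_112 t 2 1 1 = true :=
  ⟨(a (b (b (b (b (a (b (a (c (l 15796640) (c (l 15817752) (c (l 15792864) (l 15777056)))) (l 1)) (c (l 15957120) (c (l 15888720) (l 15865792)))) (l 1)) (c (a (l 16038456) (l 16038456)) (a (l 15996768) (l 423622955671)))) (c (a (b (l 16069488) (l 15982784)) (b (l 16069488) (l 15982784))) (a (b (l 16051104) (l 15962152)) (b (l 16051104) (l 15962152))))) (b (b (a (c (l 15840608) (l 15816280)) (c (l 15840608) (l 15816280))) (a (l 16106936) (l 16023056))) (b (a (c (l 16555984) (l 16550240)) (l 16448256)) (a (l 16776904) (l 16776904))))) (b (a (b (l 16776192) (a (b (l 16768608) (a (b (l 16776208) (l 16676504)) (l 16772000))) (l 16771344))) (c (l 16776512) (l 16776496))) (a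 (b (a (a (b (l 16259512) (l 15888464)) (b (c (l 16594304) (l 16589552)) (l 16202704))) (b (a (b (l 16773312) (l 16691648)) (l 16769824)) (a (l 16347512) (c (l 16620320) (l 16616240))))) (a (c (b (l 15522984) (a (l 15294560) (l 15544656))) (b (a (l 15654568) (l 15876928)) (a (b (l 15386928) (l 15204504)) (l 15538208)))) (b (c (l 16171800) (l 16010360)) (c (l 15699768) (l 15693144))))) (b (a (b (l 16767720) (a (l 16736568) (l 16767464))) (l 16770704)) (a (b (a (l 16418336) (l 16646784)) (a (l 16188896) (l 16366384))) (b (l 16719072) (a (l 16514088) (l 16677536)))))))) (b (b (b (l 1) (a (c (l 267930312295) (b (l 1) (l 348460952199))) (l 1))) (b (b (a (c (l 15840608) (l 15816280)) (l 1)) (a (l 16106936) (l 16106936))) (a (b (l 16490200) (l 16776904)) (b (l 16511168) (l 16776904))))) (b (a (l 16777216) (l 16777216)) (a (b (l 16775936) (a (b (l 16766672) (l 16771000)) (l 16769960))) (b (l 16777216) (a (l 16775312) (l 16777216))))))), by decide +kernel⟩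

def k1_pm_112 : ∃ t, chk3 f_pm_112 t 3 1 1 = true :=
  ⟨(b (a (b (l 1) (b (l 1) (a (b (l 1) (l 168074115847)) (l 1)))) (l 1)) (a (a (b (b (l 16777216) (c (l 16777216) (l 16777216))) (b (l 16777216) (l 16777216))) (b (a (l 16777216) (l 184716987767)) (a (l 16777216) (l 16764520)))) (a (b (a (l 469258111831) (l 1)) (a (l 16549944) (b (l 16359984) (l 16359984)))) (b (l 1) (b (b (l 1) (a (a (c (l 16172304) (l 452614318983)) (l 1)) (l 1))) (a (c (a (c (l 16176232) (l 16168376)) (c (l 16037656) (l 16021856))) (a (c (l 16160520) (l 16152664)) (c (l 16012112) (l 52108321335)))) (b (a (c (l 702795541095) (l 630318095575)) (l 1)) (c (a (l 74119703143) (c (l 15803536) (l 15797936))) (a (c (l 15902536) (l 15891408)) (c (a (l 15820656) (l 15766296)) (a (l 15814488) (c (l 15762272) (c (l 15761072) (l 15759208)))))))))))))), by decide +kernel⟩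

theorem s2_pm_112 : ∃ t, chk3 f_pm_112 t 1 1 1 = true := ex3_a k0_pm_112 k1_pm_112

theorem c_pm_112 : CertFX 536870912 536870912 1073741824 536870912 1046898278 26843546 false true false .dn 1 1 2
    ndF0q1 ndF3q2 pcF1 Cut.none Ext.none :=
  certFX0 (fam := false) (s1 := true) (s2 := false) (a := 1) (b := 1) (c := 2) (cn := .dn) (n1 := ndF0q1) (n2 := ndF3q2) (pc := pcF1) (cut := Cut.none) (xt := Ext.none) (P1 := 536870912) (W1 := 536870912) (P2 := 1073741824) (W2 := 536870912) (P3 := 1046898278) (W3 := 26843546)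
    rfl s2_pm_112

noncomputable def cut_pm_113 : Cut := Cut.of [[⟨0, 1, 0, 67108864⟩, ⟨1, 1, 0, 67108864⟩, ⟨2, 2, 0, 67108864⟩, ⟨3, 0, 0, 1233125376⟩]]

noncomputable def f_pm_113 : ℕ → ℕ → ℕ → ℕ → Bool := onCell 536870912 536870912 536870912 536870912 1046898278 26843546
    (rowFX 1 false true false .nn 1 1 3 (qsf 536870912 536870912 1610612736 536870912 1) ndF0q1 ndF3q3 pcF1 cut_pm_113 Ext.none)

def k0_pm_113 : ∃ t, chk3 f_pm_113 t 1 2 1 = true :=
  ⟨(a (a (l 1) (b (l 1) (a (l 1) (b (l 1) (l 16777216))))) (a (b (a (l 1) (c (l 16770832) (l 16770664))) (a (b (l 16777216) (l 16777216)) (a (l 16777216) (l 16764520)))) (b (a (b (l 165925558071) (a (l 16591888) (a (l 16419912) (c (l 16285824) (b (l 16294576) (l 16294576)))))) (c (a (b (c (l 16111888) (l 16094592)) (b (l 16113496) (l 16113496))) (b (a (c (l 15905712) (l 15908248)) (c (l 15803536) (a (l 15817560) (l 15774848)))) (a (c (l 15905712) (l 15908248)) (c (l 15803536) (b (l 15797936) (l 15797936)))))) (a (c (b (l 115995953015)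 (l 16022872)) (b (b (l 16076976) (l 16076976)) (b (l 16076976) (l 16076976)))) (b (a (c (l 15902536) (b (l 15891408) (l 15891408))) (c (a (l 15757744) (b (l 15766296) (l 15766296))) (a (b (l 15814488) (l 15814488)) (a (c (l 15775232) (l 49960502791)) (c (l 15747600) (b (c (l 15745552) (l 15744792)) (l 15745632))))))) (a (b (l 15899120) (l 15899120)) (c (a (l 15820656) (b (l 15766296) (l 15766296))) (b (a (l 15814488) (c (l 15762272) (l 15739856))) (c (l 15792976) (l 15747496))))))))) (a (a (l 16591888) (a (l 16419912) (b (c (l 16306800) (l 16294576)) (l 16300688)))) (a (b (c (l 15924752) (b (l 16081376) (l 16081376))) (c (l 16113496) (l 16081376))) (b (c (a (l 15908056) (c (l 15803536) (l 15797936))) (a (l 15899120) (c (a (l 15820656) (l 15766296)) (a (l 15814488) (b (l 15762472) (l 15762472)))))) (a (c (l 15908056) (l 15899120)) (c (a (l 15819832) (l 15781240)) (a (l 15816712) (c (l 15766296) (l 15762472))))))))))), by decide +kernel⟩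

def k1_pm_113 : ∃ t, chk3 f_pm_113 t 2 3 1 = true :=
  ⟨(b (a (a (l 1) (b (l 1) (b (l 1) (c (l 16722448) (l 16721024))))) (a (b (l 16774520) (b (l 16760800) (l 16674888))) (b (l 16774192) (b (l 16758992) (a (l 16762960) (l 16758520)))))) (a (b (a (b (l 1) (c (l 16004968) (l 15984912))) (b (a (l 16417720) (l 16485176)) (c (l 16208432) (l 16172688)))) (b (a (c (l 15523888) (l 15521840)) (c (a (l 15879336) (l 16033680)) (a (l 15876160) (l 16029664)))) (c (a (b (l 15394792) (l 15262424)) (a (l 15606872) (l 15806208))) (a (b (l 15355128) (a (l 15158112) (l 15338888))) (a (b (l 15671264) (l 15449648)) (b (l 15858128) (l 15742784))))))) (a (b (b (c (l 16599832) (l 16595224)) (a (l 16374664) (l 16502736))) (b (a (c (l 16199552) (l 16194640)) (l 16290048)) (b (a (l 15968520) (l 16211088)) (c (l 15995600) (a (l 15967496) (l 16187672)))))) (b (a (b (l 16703480) (l 16579608)) (l 16650096)) (b (a (a (l 16499520) (l 16501672)) (l 16476168)) (a (a (a (b (l 16418880) (l 16369184)) (l 16405424)) (l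 16389760)) (l 16357080))))))), by decide +kernel⟩

def k2_pm_113 : ∃ t, chk3 f_pm_113 t 6 3 1 = true :=
  ⟨(b (b (a (l 16773808) (a (l 16773472) (l 16766808))) (b (a (l 16756784) (l 16750496)) (a (b (l 16746184) (l 16770936)) (a (l 16758408) (l 16707896))))) (b (a (b (l 16687776) (l 16555536)) (a (l 16549976) (l 16390520))) (a (b (a (l 16440224) (l 16401600)) (a (l 16311016) (l 16261472))) (a (b (l 16360008) (l 16208080)) (b (l 16304184) (l 16097688)))))), by decide +kernel⟩

def k3_pm_113 : ∃ t, chk3 f_pm_113 t 7 6 1 = true :=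
  ⟨(a (b (a (l 16595848) (a (l 16424048) (b (l 16300704) (l 16308752)))) (a (b (l 16614328) (b (l 16612888) (l 16591920))) (a (l 16439872) (b (l 16323304) (b (l 16333584) (l 16297600)))))) (b (a (c (a (l 16175368) (l 16025592)) (l 16084344)) (a (c (l 15804560) (l 15900656)) (c (a (l 15820528) (b (l 15781240) (l 15781712))) (a (l 15817496) (c (l 15766560) (a (l 15773576) (l 15747480))))))) (a (b (c (l 16106856) (l 16098096)) (b (a (l 16190576) (l 16035136)) (a (l 16157568) (l 15984416)))) (b (a (c (l 15915440) (l 15907800)) (c (a (l 15823600) (l 15782536)) (a (l 15821160) (c (l 15767768) (l 15764072))))) (a (c (b (l 15918592) (l 15894968)) (l 15855272)) (c (b (l 15785520) (a (l 15804080) (l 15763664))) (a (b (l 15823256) (l 15796968)) (b (c (l 15768440) (l 15764824)) (c (l 15745296) (a (l 15750528) (l 15723408))))))))))), by decide +kernel⟩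

def k4_pm_113 : ∃ t, chk3 f_pm_113 t 7 14 1 = true :=
  ⟨(a (a (b (l 16465904) (l 16289000)) (a (l 16199520) (b (l 16165464) (l 15990456)))) (a (b (a (l 16026824) (l 15750360)) (a (l 15857424) (c (l 15768312) (l 15657248)))) (b (a (c (l 15763424) (l 15737704)) (c (a (l 15695536) (b (l 15691824) (l 15626072))) (a (l 15651880) (b (c (l 15656200) (l 15638600)) (c (l 15566920) (l 15491688)))))) (a (c (b (l 15690232) (a (l 15669872) (l 15624424))) (b (l 15593200) (l 15507264))) (c (b (a (l 15611624) (l 15585056)) (a (l 15628064) (b (l 15570576) (l 15568888)))) (a (b (l 15513728) (l 15439312)) (b (c (l 15497512) (l 15403360)) (c (l 15440176) (a (l 15369648) (l 15350424)))))))))), by decide +kernel⟩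

def k5_pm_113 : ∃ t, chk3 f_pm_113 t 7 15 1 = true :=
  ⟨(a (a (b (l 16110984) (l 15893992)) (b (a (l 15934464) (b (l 15861984) (c (l 15844000) (l 15712704)))) (a (l 15760048) (b (c (l 15774440) (l 15616768)) (c (l 15704512) (b (l 15537048) (l 15482296))))))) (a (a (b (b (l 15736368) (c (l 15747408) (l 15566280))) (b (c (b (l 15712120) (l 15691776)) (l 15474128)) (c (l 15675632) (b (l 15401360) (l 15294808))))) (b (b (c (l 15694480) (l 15516472)) (c (b (l 15667072) (l 15659464)) (l 15420296))) (b (c (c (b (l 15745432) (l 15771248)) (l 15611944)) (l 15344696)) (a (c (l 15712928) (b (l 15316120) (l 6))) (l 6))))) (b (b (a (c (a (l 15640408) (c (l 15656176) (l 15559544))) (l 15419336)) (a (c (c (b (l 15631008) (l 15653352)) (l 15525752)) (c (l 15542200) (l 15298152))) (a (c (b (l 15573568) (l 15611840)) (c (l 15386136) (l 15264008))) (b (c (c (l 15637616) (l 15515344)) (c (l 15392784) (l 15275344))) (l 6))))) (a (a (c (b (l 15633640) (l 15648072)) (l 15348632)) (c (c (b (l 15688768) (l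 15743072)) (l 15557824)) (l 15312992))) (a (a (b (c (l 15617888) (l 15301600)) (l 6)) (l 6)) (l 6)))) (b (b (a (c (c (a (l 15779640) (l 6)) (l 15604168)) (l 15291880)) (l 6)) (l 6)) (l 6))))), by decide +kernel⟩

theorem s6_pm_113 : ∃ t, chk3 f_pm_113 t 7 7 1 = true := ex3_b k4_pm_113 k5_pm_113

theorem s7_pm_113 : ∃ t, chk3 f_pm_113 t 7 3 1 = true := ex3_b k3_pm_113 s6_pm_113

theorem s8_pm_113 : ∃ t, chk3 f_pm_113 t 3 3 1 = true := ex3_a k2_pm_113 s7_pm_113

theorem s9_pm_113 : ∃ t, chk3 f_pm_113 t 1 3 1 = true := ex3_a k1_pm_113 s8_pm_113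

theorem s10_pm_113 : ∃ t, chk3 f_pm_113 t 1 1 1 = true := ex3_b k0_pm_113 s9_pm_113

theorem c_pm_113 : CertFX 536870912 536870912 1610612736 536870912 1046898278 26843546 false true false .nn 1 1 3
    ndF0q1 ndF3q3 pcF1 cut_pm_113 Ext.none :=
  certFX1 (fam := false) (s1 := true) (s2 := false) (a := 1) (b := 1) (c := 3) (cn := .nn) (n1 := ndF0q1) (n2 := ndF3q3) (pc := pcF1) (cut := cut_pm_113) (xt := Ext.none) (P1 := 536870912) (W1 := 536870912) (P2 := 1610612736) (W2 := 536870912) (P3 := 1046898278) (W3 := 26843546)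
    rfl (fun _ => rfl) s10_pm_113

noncomputable def cut_pm_123 : Cut := Cut.of [[⟨0, 1, 0, 67108864⟩, ⟨1, 1, 0, 67108864⟩, ⟨2, 2, 0, 67108864⟩, ⟨3, 0, 0, 1233125376⟩]]

noncomputable def f_pm_123 : ℕ → ℕ → ℕ → ℕ → Bool := onCell 536870912 536870912 1073741824 536870912 1046898278 26843546
    (rowFX 1 false true false .npn 1 2 3 (qsf 536870912 536870912 1610612736 536870912 2) ndF0q1 ndF3q3 pcF2 cut_pm_123 Ext.none)

def k0_pm_123 : ∃ t, chk3 f_pm_123 t 2 4 1 = true :=
  ⟨(a (b (c (a (b (l 14815376) (c (l 14993104) (l 14989320))) (b (l 15075344) (c (l 15231736) (l 15223616)))) (a (b (c (l 14787120) (a (l 14713096) (l 14833816))) (c (l 14981520) (l 14961072))) (b (a (c (l 14977128) (l 14963720)) (c (l 15117392) (l 15103304))) (a (l 15076312) (l 15264176))))) (a (b (c (b (l 15136776) (l 15188768)) (b (l 15107568) (a (l 15111552) (l 15196720)))) (c (l 15180320) (a (l 15112928) (l 15163728)))) (b (c (a (l 15305776) (l 15410984)) (a (b (l 15260720) (l 15288256)) (b (l 15373504) (l 15386544))))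 (c (l 15286944) (a (l 15218320) (l 15276944)))))) (b (a (a (c (b (l 15293464) (l 15426664)) (b (c (l 15267976) (l 15253168)) (l 15230512))) (a (c (l 15433936) (b (l 15379816) (l 15504408))) (b (c (l 15498304) (b (l 15431840) (l 15494976))) (c (l 15596600) (a (l 15558432) (l 15575328)))))) (b (a (c (a (l 15550616) (l 15591184)) (a (b (l 15499168) (l 15542160)) (l 15560376))) (c (l 15644448) (l 15615024))) (c (l 15637184) (a (l 15595936) (l 15618736))))) (a (b (a (c (l 15523920) (b (l 15494552) (l 15492056))) (b (a (l 15605544) (l 15638616)) (a (c (l 15604168) (l 15574016)) (l 15599136)))) (a (c (l 15376288) (l 15339896)) (a (c (l 15411048) (l 15375560)) (l 15382832)))) (b (b (c (l 15639320) (l 15609760)) (c (l 15575432) (l 15544216))) (c (l 15351120) (l 15230184)))))), by decide +kernel⟩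

def k1_pm_123 : ∃ t, chk3 f_pm_123 t 2 5 1 = true :=
  ⟨(b (a (b (a (b (c (l 15185072) (l 15143720)) (c (l 15338584) (l 15301216))) (b (c (l 15207936) (l 15167176)) (c (l 15352208) (l 15315192)))) (a (c (l 15741952) (l 15547288)) (c (l 15763944) (a (l 15762688) (l 15797856))))) (b (b (a (a (a (l 15203520) (l 15209592)) (c (l 15211048) (l 15170360))) (c (l 15139608) (l 15097064))) (a (a (l 15343072) (l 15319816)) (a (l 15275520) (l 15226736)))) (a (a (a (l 15816776) (l 15781208)) (l 15720784)) (a (b (l 15625160) (l 15961488)) (b (l 15576088) (l 15907896)))))) (a (b (a (c (l 16235888) (l 16096000)) (a (l 16099760) (c (l 16410344) (l 16400808)))) (a (c (l 16537376) (l 16510176)) (a (l 16649016) (a (l 16711608) (l 16755768))))) (b (a (a (a (l 16395080) (l 16464448)) (l 16285128)) (a (l 16254536) (l 16187152))) (a (b (a (l 16772568) (l 16763256)) (l 16627096)) (c (l 16522352) (b (l 16729520) (l 16726880))))))), by decide +kernel⟩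

def k2_pm_123 : ∃ t, chk3 f_pm_123 t 2 3 1 = true :=
  ⟨(a (a (b (b (c (l 16678256) (l 16675680)) (b (l 16768856) (l 16747184))) (b (b (l 16742784) (l 16729344)) (a (l 16694240) (l 16762288)))) (a (b (b (c (l 16733056) (l 16731712)) (b (l 16748976) (l 16732496))) (b (l 16694240) (l 16772280))) (b (b (b (l 16759024) (l 16746968)) (b (l 16732360) (l 16724320))) (b (l 16762288) (l 2))))) (b (a (b (c (b (l 16745112) (l 16732488)) (b (l 16735560) (l 16728408))) (b (a (l 16724320) (l 16766560)) (l 16762288))) (b (b (a (l 16724320) (l 16766560)) (l 16762288)) (b (l 16772280) (l 2)))) (a (b (l 16770552) (l 2)) (l 2)))), by decide +kernel⟩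

def k3_pm_123 : ∃ t, chk3 f_pm_123 t 6 2 1 = true :=
  ⟨(b (b (a (b (a (c (l 15719520) (l 15692048)) (c (l 15800304) (l 15774928))) (a (c (l 15671952) (l 15643240)) (c (l 15697720) (l 15669672)))) (a (b (c (l 15887488) (l 15822424)) (b (l 15755904) (l 15664464))) (b (a (l 15946232) (b (l 16033200) (l 15924344))) (a (b (l 15789248) (l 15661152)) (b (l 15794496) (l 15650472)))))) (a (b (b (a (l 15601480) (l 15584472)) (a (l 15509120) (l 15470576))) (a (b (l 15347456) (l 15189528)) (b (l 15292144) (l 15113328)))) (b (a (b (l 15555456) (l 15405720)) (b (a (l 15518896) (l 15507232)) (a (l 15358624) (l 15359512)))) (a (b (l 15218560) (l 15050048)) (a (b (l 15188440) (l 15035296)) (c (l 15141416) (l 15080160))))))) (b (a (b (b (a (a (l 15052376) (l 15010352)) (a (l 14962216) (l 14924072))) (a (l 15149800) (l 15085528))) (a (b (l 15507880) (l 15868368)) (b (c (l 15502792) (l 15447888)) (l 15740624)))) (b (a (b (c (l 14928280) (l 14856840)) (c (l 15080912) (l 15022440))) (a (b (l 14865112) (l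 15010704)) (b (a (l 14842456) (a (l 14857672) (b (l 14920256) (l 2)))) (b (a (l 14880544) (l 2)) (l 2))))) (b (b (a (l 15357408) (a (l 15310976) (l 2))) (a (l 15552872) (l 2))) (a (l 15755440) (l 2))))) (b (a (b (a (l 16200344) (l 16088968)) (c (l 16485576) (a (l 16568024) (l 16581400)))) (a (a (l 16267528) (l 2)) (l 2))) (a (a (a (l 16768640) (l 16769528)) (a (l 16774232) (l 2))) (l 2))))), by decide +kernel⟩

def k4_pm_123 : ∃ t, chk3 f_pm_123 t 7 8 1 = true :=
  ⟨(a (a (b (b (a (l 16023160) (l 16009112)) (a (l 15913144) (l 15913568))) (b (a (l 15788784) (l 15819288)) (l 15507752))) (a (b (b (l 16007632) (l 15951976)) (b (l 15910200) (a (l 15840768) (c (b (l 15991728) (c (l 16002768) (l 15948856))) (b (l 15857488) (l 15852904)))))) (b (a (l 16023784) (b (b (l 16052560) (c (b (l 16152280) (l 16153264)) (c (l 16009424) (l 15915952)))) (c (b (l 16158424) (l 16168816)) (c (b (l 16024288) (l 16036856)) (l 15944392))))) (b (c (c (b (l 16178576) (l 16190696)) (b (l 16096064) (l 16117000)))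 (b (l 15979168) (l 15981840))) (c (b (c (l 16212984) (l 16146960)) (c (l 16218448) (l 16199512))) (b (a (l 15970296) (l 16133120)) (c (l 16139288) (l 16074280)))))))) (b (a (a (b (c (b (a (c (l 16267424) (l 16137008)) (l 16210136)) (c (a (l 16250696) (l 16284560)) (a (l 16135600) (l 16144576)))) (b (a (c (b (l 16010008) (l 16015704)) (b (l 15875000) (l 15893792))) (c (l 15966608) (l 15805232))) (c (a (l 16025192) (l 16005888)) (a (l 15915832) (l 15871104))))) (c (b (c (l 16292048) (l 16175496)) (c (l 16342704) (l 16239288))) (b (c (l 16059424) (l 15952176)) (c (l 16131800) (l 16034808))))) (l 6)) (l 6)) (a (b (a (c (c (a (l 16369736) (l 16527240)) (b (l 16315488) (l 16414848))) (b (l 16164600) (c (l 16343408) (l 16270496)))) (l 6)) (b (a (c (c (l 16439192) (l 16491752)) (a (l 16327784) (l 16461552))) (l 6)) (a (c (a (l 785541735975) (a (a (l 16499096) (l 2)) (l 2))) (a (l 16390392) (l 16535264))) (l 2)))) (b (l 6) (l 2))))), by decide +kernel⟩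

def k5_pm_123 : ∃ t, chk3 f_pm_123 t 7 9 1 = true :=
  ⟨(b (a (a (a (b (l 15550680) (l 15431384)) (b (l 15655528) (a (b (l 15539560) (l 15472584)) (c (b (l 15658256) (l 15590544)) (b (l 15574144) (a (l 15501936) (l 15587512))))))) (b (a (c (a (b (l 15840744) (l 15813120)) (b (l 15977936) (l 15957920))) (a (b (l 15729584) (l 15718184)) (b (l 15872336) (l 15902992)))) (c (c (l 16124408) (l 16138304)) (c (l 16029560) (a (l 16055320) (l 16239248))))) (a (c (c (a (l 15772408) (l 15922008)) (l 706620378055)) (b (a (l 15721360) (l 15907656)) (l 15617448))) (a (c (l 785540940119) (l 16050704)) (l 2))))) (a (a (a (a (a (b (c (l 16338896) (l 16322872)) (l 2)) (l 2)) (l 2)) (l 2)) (l 2)) (l 2))) (a (a (a (a (b (l 15252528) (b (l 15133128) (c (l 15066192) (l 14917320)))) (b (b (l 15342080) (c (l 15284464) (l 15239576))) (c (c (l 15196824) (l 15175888)) (b (c (l 15175176) (l 15157144)) (l 15109936))))) (a (b (c (b (l 15367128) (l 15367960)) (b (c (l 15403272) (l 15362000)) (a (l 15294408) (l 15370392))))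 (c (l 15343184) (l 15305088))) (b (c (b (l 15552072) (l 15539176)) (b (l 15522632) (l 15507096))) (l 2)))) (b (a (a (c (l 804330680183) (l 15592112)) (l 2)) (l 2)) (l 2))) (l 2))), by decide +kernel⟩

def k6_pm_123 : ∃ t, chk3 f_pm_123 t 7 5 1 = true :=
  ⟨(a (b (b (b (b (a (a (a (c (l 14993032) (l 1116251123863)) (l 2)) (l 2)) (l 2)) (l 2)) (l 2)) (l 2)) (l 2)) (l 2)), by decide +kernel⟩

def k7_pm_123 : ∃ t, chk3 f_pm_123 t 3 3 1 = true :=
  ⟨(a (b (a (b (b (a (l 16773968) (l 2)) (l 2)) (l 2)) (l 2)) (l 2)) (l 2)), by decide +kernel⟩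

theorem s8_pm_123 : ∃ t, chk3 f_pm_123 t 7 4 1 = true := ex3_b k4_pm_123 k5_pm_123

theorem s9_pm_123 : ∃ t, chk3 f_pm_123 t 7 2 1 = true := ex3_b s8_pm_123 k6_pm_123

theorem s10_pm_123 : ∃ t, chk3 f_pm_123 t 3 2 1 = true := ex3_a k3_pm_123 s9_pm_123

theorem s11_pm_123 : ∃ t, chk3 f_pm_123 t 3 1 1 = true := ex3_b s10_pm_123 k7_pm_123

theorem s12_pm_123 : ∃ t, chk3 f_pm_123 t 2 2 1 = true := ex3_b k0_pm_123 k1_pm_123

theorem s13_pm_123 : ∃ t, chk3 f_pm_123 t 2 1 1 = true := ex3_b s12_pm_123 k2_pm_123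

theorem s14_pm_123 : ∃ t, chk3 f_pm_123 t 1 1 1 = true := ex3_a s13_pm_123 s11_pm_123

theorem c_pm_123 : CertFX 536870912 536870912 1610612736 536870912 1046898278 26843546 false true false .npn 1 2 3
    ndF0q1 ndF3q3 pcF2 cut_pm_123 Ext.none :=
  certFX1 (fam := false) (s1 := true) (s2 := false) (a := 1) (b := 2) (c := 3) (cn := .npn) (n1 := ndF0q1) (n2 := ndF3q3) (pc := pcF2) (cut := cut_pm_123) (xt := Ext.none) (P1 := 536870912) (W1 := 536870912) (P2 := 1610612736) (W2 := 536870912) (P3 := 1046898278) (W3 := 26843546)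
    rfl (fun _ => rfl) s14_pm_123

noncomputable def f_pm_133 : ℕ → ℕ → ℕ → ℕ → Bool := onCell 536870912 536870912 1610612736 536870912 1046898278 26843546
    (rowFX 0 false true false .dn 1 3 3 (qsf 536870912 536870912 1610612736 536870912 3) ndF0q1 ndF3q3 pcF3 Cut.none Ext.none)

def k0_pm_133 : ∃ t, chk3 f_pm_133 t 1 1 1 = true :=
  ⟨(a (b (l 1) (b (l 1) (a (a (b (l 1) (l 540662450519)) (l 1)) (l 1)))) (l 1)), by decide +kernel⟩

theorem c_pm_133 : CertFX 536870912 536870912 1610612736 536870912 1046898278 26843546 false true false .dn 1 3 3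
    ndF0q1 ndF3q3 pcF3 Cut.none Ext.none :=
  certFX0 (fam := false) (s1 := true) (s2 := false) (a := 1) (b := 3) (c := 3) (cn := .dn) (n1 := ndF0q1) (n2 := ndF3q3) (pc := pcF3) (cut := Cut.none) (xt := Ext.none) (P1 := 536870912) (W1 := 536870912) (P2 := 1610612736) (W2 := 536870912) (P3 := 1046898278) (W3 := 26843546)
    rfl k0_pm_133

noncomputable def cut_pm_202 : Cut := Cut.of [[⟨0, 1, 0, 67108864⟩, ⟨1, 0, 0, 67108864⟩, ⟨2, 1, 0, 67108864⟩, ⟨3, 0, 0, 1317011456⟩]]

noncomputable def f_pm_202 : ℕ → ℕ → ℕ → ℕ → Bool := onCell 0 536870912 1073741824 536870912 1046898278 26843546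
    (rowFX 0 false true false .pp 2 0 2 (qsf 0 536870912 1073741824 536870912 0) ndF0q2 ndF3q2 pcF0 cut_pm_202 Ext.none)

def k0_pm_202 : ∃ t, chk3 f_pm_202 t 2 1 1 = true :=
  ⟨(l 3), by decide +kernel⟩

def k1_pm_202 : ∃ t, chk3 f_pm_202 t 3 1 1 = true :=
  ⟨(a (l 3) (a (l 3) (b (a (l 3) (a (l 3) (b (a (l 3) (a (l 3) (b (a (l 3) (b (l 6) (b (l 6) (b (l 6) (a (l 3) (b (l 6) (c (c (l 16556704) (l 16572232)) (l 16569848)))))))) (a (l 3) (a (l 3) (a (l 3) (b (c (b (b (l 16525368) (l 16442552)) (l 16185936)) (b (b (l 16500704) (l 16435600)) (c (l 16282320) (l 16234976)))) (c (b (b (c (l 16145312) (l 16137600)) (l 16044496)) (b (l 15929808) (l 15784224))) (b (c (l 16069400) (c (l 15937160) (b (b (l 16146624) (b (l 16108504) (l 141900249975))) (l 15956064)))) (c (l 15823016) (b (l 15828696) (l 15752320)))))))))))) (a (l 3) (a (l 3) (a (b (l 3) (l 3)) (a (b (l 3) (l 3)) (b (b (c (b (l 73180053671) (b (l 15470320) (b (l 98412521847) (l 15430216)))) (b (c (l 15602960) (l 15588280)) (b (l 15435552)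 (c (l 15391704) (l 15373784))))) (c (c (l 15560008) (l 15543480)) (c (l 15526952) (l 15490016)))) (b (c (c (l 15757040) (l 15743640)) (c (l 15730232) (l 15675456))) (c (b (c (l 15810432) (l 15797936)) (l 15770032)) (b (c (l 15785432) (b (l 15798520) (l 15748528))) (c (l 15750416) (l 15737896))))))))))))) (a (l 3) (a (l 3) (a (b (l 3) (l 3)) (a (b (l 3) (l 3)) (b (c (b (b (l 15776224) (l 15776224)) (b (l 15776224) (l 15776224))) (b (c (b (l 15756720) (l 15756720)) (c (l 15747456) (b (l 15744536) (l 15744536)))) (c (l 15743616) (c (l 15747456) (b (l 15744536) (l 15744536)))))) (c (b (b (l 15776224) (l 15776224)) (c (l 15782720) (l 15769720))) (b (c (l 15756720) (c (l 15747456) (l 86601862695))) (c (l 15756720) (c (l 15747456) (b (l 15744536) (l 86064991783)))))))))))))), by decide +kernel⟩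

theorem s2_pm_202 : ∃ t, chk3 f_pm_202 t 1 1 1 = true := ex3_a k0_pm_202 k1_pm_202

theorem c_pm_202 : CertFX 0 536870912 1073741824 536870912 1046898278 26843546 false true false .pp 2 0 2
    ndF0q2 ndF3q2 pcF0 cut_pm_202 Ext.none :=
  certFX0 (fam := false) (s1 := true) (s2 := false) (a := 2) (b := 0) (c := 2) (cn := .pp) (n1 := ndF0q2) (n2 := ndF3q2) (pc := pcF0) (cut := cut_pm_202) (xt := Ext.none) (P1 := 0) (W1 := 536870912) (P2 := 1073741824) (W2 := 536870912) (P3 := 1046898278) (W3 := 26843546)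
    rfl s2_pm_202

noncomputable def f_pm_203 : ℕ → ℕ → ℕ → ℕ → Bool := onCell 0 536870912 0 536870912 1046898278 26843546
    (rowFX 1 false true false .up 2 0 3 (qsf 0 536870912 1610612736 536870912 0) ndF0q2 ndF3q3 pcF0 Cut.none Ext.none)

def k0_pm_203 : ∃ t, chk3 f_pm_203 t 1 1 1 = true :=
  ⟨(b (l 1) (a (l 3) (a (l 3) (a (l 3) (b (l 1) (a (l 3) (a (l 3) (a (l 3) (b (l 1) (b (l 1) (c (l 15784424) (c (l 15766016) (c (l 15760216) (c (l 15758808) (l 73716964583))))))))))))))), by decide +kernel⟩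

theorem c_pm_203 : CertFX 0 536870912 1610612736 536870912 1046898278 26843546 false true false .up 2 0 3
    ndF0q2 ndF3q3 pcF0 Cut.none Ext.none :=
  certFX1 (fam := false) (s1 := true) (s2 := false) (a := 2) (b := 0) (c := 3) (cn := .up) (n1 := ndF0q2) (n2 := ndF3q3) (pc := pcF0) (cut := Cut.none) (xt := Ext.none) (P1 := 0) (W1 := 536870912) (P2 := 1610612736) (W2 := 536870912) (P3 := 1046898278) (W3 := 26843546)
    rfl (fun _ => rfl) k0_pm_203

noncomputable def cut_pm_213 : Cut := Cut.of [[⟨0, 1, 0, 67108864⟩, ⟨1, 1, 0, 67108864⟩, ⟨2, 2, 0, 67108864⟩, ⟨3, 0, 0, 1233125376⟩]]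

noncomputable def f_pm_213 : ℕ → ℕ → ℕ → ℕ → Bool := onCell 0 536870912 1610612736 536870912 1046898278 26843546
    (rowFX 0 false true false .pnn 2 1 3 (qsf 0 536870912 1610612736 536870912 1) ndF0q2 ndF3q3 pcF1 cut_pm_213 Ext.none)

def k0_pm_213 : ∃ t, chk3 f_pm_213 t 1 1 1 = true :=
  ⟨(a (l 3) (a (l 3) (a (b (l 3) (l 3)) (a (b (l 3) (l 3)) (a (b (l 3) (b (l 3) (l 3))) (a (b (b (l 3) (l 3)) (b (l 3) (l 3))) (a (b (b (l 3) (l 3)) (b (l 3) (b (l 3) (l 3)))) (b (b (b (c (l 15776224) (c (l 15756720) (c (l 15747456) (b (l 95728668199) (l 15744536))))) (a (l 3) (c (l 129551635351) (c (l 15752520) (b (l 15740824) (l 15740824)))))) (c (b (l 15776224) (l 15776224)) (b (c (l 15756720) (l 161763779959)) (c (l 15756720) (l 15747192))))) (a (b (b (l 3) (l 3)) (b (l 3) (l 3))) (b (b (c (l 15772112) (l 15747176)) (c (b (l 15772160) (b (l 15772160) (l 15755208))) (b (l 15747224) (b (l 15747232) (l 15725808))))) (b (b (c (b (l 15686520) (l 15623336)) (b (l 15634584) (l 15539984))) (c (b (l 15590568)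 (l 15579024)) (b (l 15471128) (l 15405144)))) (b (b (b (c (l 197734294039) (l 15349224)) (l 6)) (l 6)) (l 6))))))))))))), by decide +kernel⟩

theorem c_pm_213 : CertFX 0 536870912 1610612736 536870912 1046898278 26843546 false true false .pnn 2 1 3
    ndF0q2 ndF3q3 pcF1 cut_pm_213 Ext.none :=
  certFX0 (fam := false) (s1 := true) (s2 := false) (a := 2) (b := 1) (c := 3) (cn := .pnn) (n1 := ndF0q2) (n2 := ndF3q3) (pc := pcF1) (cut := cut_pm_213) (xt := Ext.none) (P1 := 0) (W1 := 536870912) (P2 := 1610612736) (W2 := 536870912) (P3 := 1046898278) (W3 := 26843546)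
    rfl k0_pm_213

noncomputable def f_mm_001 : ℕ → ℕ → ℕ → ℕ → Bool := onCell 0 536870912 0 536870912 1046898278 26843546
    (rowFX 1 false false false .up 0 0 1 (qsf 0 536870912 536870912 536870912 0) ndF0q0 ndF3q1 pcF0 Cut.none Ext.none)

def k0_mm_001 : ∃ t, chk3 f_mm_001 t 1 1 1 = true :=
  ⟨(l 3), by decide +kernel⟩

theorem c_mm_001 : CertFX 0 536870912 536870912 536870912 1046898278 26843546 false false false .up 0 0 1
    ndF0q0 ndF3q1 pcF0 Cut.none Ext.none :=
  certFX1 (fam := false) (s1 := false) (s2 := false) (a := 0) (b := 0) (c := 1) (cn := .up) (n1 := ndF0q0) (n2 := ndF3q1) (pc := pcF0) (cut := Cut.none) (xt := Ext.none) (P1 := 0) (W1 := 536870912) (P2 := 536870912) (W2 := 536870912) (P3 := 1046898278) (W3 := 26843546)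
    rfl (fun _ => rfl) k0_mm_001

noncomputable def f_mm_011 : ℕ → ℕ → ℕ → ℕ → Bool := onCell 0 536870912 536870912 536870912 1046898278 26843546
    (rowFX 1 false false false .pnn 0 1 1 (qsf 0 536870912 536870912 536870912 1) ndF0q0 ndF3q1 pcF1 Cut.none Ext.none)

def k0_mm_011 : ∃ t, chk3 f_mm_011 t 1 1 1 = true :=
  ⟨(l 5), by decide +kernel⟩

theorem c_mm_011 : CertFX 0 536870912 536870912 536870912 1046898278 26843546 false false false .pnn 0 1 1
    ndF0q0 ndF3q1 pcF1 Cut.none Ext.none :=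
  certFX1 (fam := false) (s1 := false) (s2 := false) (a := 0) (b := 1) (c := 1) (cn := .pnn) (n1 := ndF0q0) (n2 := ndF3q1) (pc := pcF1) (cut := Cut.none) (xt := Ext.none) (P1 := 0) (W1 := 536870912) (P2 := 536870912) (W2 := 536870912) (P3 := 1046898278) (W3 := 26843546)
    rfl (fun _ => rfl) k0_mm_011

noncomputable def f_mm_012 : ℕ → ℕ → ℕ → ℕ → Bool := onCell 0 536870912 1073741824 536870912 1046898278 26843546
    (rowFX 0 false false false .pnp 0 1 2 (qsf 0 536870912 1073741824 536870912 1) ndF0q0 ndF3q2 pcF1 Cut.none Ext.none)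

def k0_mm_012 : ∃ t, chk3 f_mm_012 t 1 1 1 = true :=
  ⟨(l 5), by decide +kernel⟩

theorem c_mm_012 : CertFX 0 536870912 1073741824 536870912 1046898278 26843546 false false false .pnp 0 1 2
    ndF0q0 ndF3q2 pcF1 Cut.none Ext.none :=
  certFX0 (fam := false) (s1 := false) (s2 := false) (a := 0) (b := 1) (c := 2) (cn := .pnp) (n1 := ndF0q0) (n2 := ndF3q2) (pc := pcF1) (cut := Cut.none) (xt := Ext.none) (P1 := 0) (W1 := 536870912) (P2 := 1073741824) (W2 := 536870912) (P3 := 1046898278) (W3 := 26843546)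
    rfl k0_mm_012

noncomputable def f_mm_022 : ℕ → ℕ → ℕ → ℕ → Bool := onCell 0 536870912 1073741824 536870912 1046898278 26843546
    (rowFX 0 false false false .pp 0 2 2 (qsf 0 536870912 1073741824 536870912 2) ndF0q0 ndF3q2 pcF2 Cut.none Ext.none)

def k0_mm_022 : ∃ t, chk3 f_mm_022 t 1 1 1 = true :=
  ⟨(l 5), by decide +kernel⟩

theorem c_mm_022 : CertFX 0 536870912 1073741824 536870912 1046898278 26843546 false false false .pp 0 2 2
    ndF0q0 ndF3q2 pcF2 Cut.none Ext.none :=
  certFX0 (fam := false) (s1 := false) (s2 := false) (a := 0) (b := 2) (c := 2) (cn := .pp) (n1 := ndF0q0) (n2 := ndF3q2) (pc := pcF2) (cut := Cut.none) (xt := Ext.none) (P1 := 0) (W1 := 536870912) (P2 := 1073741824) (W2 := 536870912) (P3 := 1046898278) (W3 := 26843546)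
    rfl k0_mm_022

noncomputable def f_mm_023 : ℕ → ℕ → ℕ → ℕ → Bool := onCell 0 536870912 1610612736 536870912 1046898278 26843546
    (rowFX 0 false false false .up 0 2 3 (qsf 0 536870912 1610612736 536870912 2) ndF0q0 ndF3q3 pcF2 Cut.none Ext.none)

def k0_mm_023 : ∃ t, chk3 f_mm_023 t 1 1 1 = true :=
  ⟨(l 5), by decide +kernel⟩

theorem c_mm_023 : CertFX 0 536870912 1610612736 536870912 1046898278 26843546 false false false .up 0 2 3
    ndF0q0 ndF3q3 pcF2 Cut.none Ext.none :=
  certFX0 (fam := false) (s1 := false) (s2 := false) (a := 0) (b := 2) (c := 3) (cn := .up) (n1 := ndF0q0) (n2 := ndF3q3) (pc := pcF2) (cut := Cut.none) (xt := Ext.none) (P1 := 0) (W1 := 536870912) (P2 := 1610612736) (W2 := 536870912) (P3 := 1046898278) (W3 := 26843546)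
    rfl k0_mm_023

noncomputable def f_mm_033 : ℕ → ℕ → ℕ → ℕ → Bool := onCell 0 536870912 1610612736 536870912 1046898278 26843546
    (rowFX 0 false false false .pnn 0 3 3 (qsf 0 536870912 1610612736 536870912 3) ndF0q0 ndF3q3 pcF3 Cut.none Ext.none)

def k0_mm_033 : ∃ t, chk3 f_mm_033 t 1 1 1 = true :=
  ⟨(l 5), by decide +kernel⟩

theorem c_mm_033 : CertFX 0 536870912 1610612736 536870912 1046898278 26843546 false false false .pnn 0 3 3
    ndF0q0 ndF3q3 pcF3 Cut.none Ext.none :=
  certFX0 (fam := false) (s1 := false) (s2 := false) (a := 0) (b := 3) (c := 3) (cn := .pnn) (n1 := ndF0q0) (n2 := ndF3q3) (pc := pcF3) (cut := Cut.none) (xt := Ext.none) (P1 := 0) (W1 := 536870912) (P2 := 1610612736) (W2 := 536870912) (P3 := 1046898278) (W3 := 26843546)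
    rfl k0_mm_033

noncomputable def cut_mm_101 : Cut := Cut.of [[⟨0, 1, 0, 67108864⟩, ⟨1, 0, 0, 67108864⟩, ⟨2, 1, 0, 67108864⟩]]

noncomputable def f_mm_101 : ℕ → ℕ → ℕ → ℕ → Bool := onCell 536870912 536870912 536870912 536870912 1046898278 26843546
    (rowFX 0 false false false .npn 1 0 1 (qsf 536870912 536870912 536870912 536870912 0) ndF0q1 ndF3q1 pcF0 cut_mm_101 Ext.none)

def k0_mm_101 : ∃ t, chk3 f_mm_101 t 1 1 1 = true :=
  ⟨(a (l 3) (a (l 3) (a (l 3) (a (l 3) (b (l 1) (b (l 1) (b (l 1) (b (a (l 3) (l 1)) (l 6))))))))), by decide +kernel⟩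

theorem c_mm_101 : CertFX 536870912 536870912 536870912 536870912 1046898278 26843546 false false false .npn 1 0 1
    ndF0q1 ndF3q1 pcF0 cut_mm_101 Ext.none :=
  certFX0 (fam := false) (s1 := false) (s2 := false) (a := 1) (b := 0) (c := 1) (cn := .npn) (n1 := ndF0q1) (n2 := ndF3q1) (pc := pcF0) (cut := cut_mm_101) (xt := Ext.none) (P1 := 536870912) (W1 := 536870912) (P2 := 536870912) (W2 := 536870912) (P3 := 1046898278) (W3 := 26843546)
    rfl k0_mm_101

noncomputable def f_mm_102 : ℕ → ℕ → ℕ → ℕ → Bool := onCell 536870912 536870912 0 536870912 1046898278 26843546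
    (rowFX 1 false false false .npp 1 0 2 (qsf 536870912 536870912 1073741824 536870912 0) ndF0q1 ndF3q2 pcF0 Cut.none Ext.none)

def k0_mm_102 : ∃ t, chk3 f_mm_102 t 1 1 1 = true :=
  ⟨(l 3), by decide +kernel⟩

theorem c_mm_102 : CertFX 536870912 536870912 1073741824 536870912 1046898278 26843546 false false false .npp 1 0 2
    ndF0q1 ndF3q2 pcF0 Cut.none Ext.none :=
  certFX1 (fam := false) (s1 := false) (s2 := false) (a := 1) (b := 0) (c := 2) (cn := .npp) (n1 := ndF0q1) (n2 := ndF3q2) (pc := pcF0) (cut := Cut.none) (xt := Ext.none) (P1 := 536870912) (W1 := 536870912) (P2 := 1073741824) (W2 := 536870912) (P3 := 1046898278) (W3 := 26843546)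
    rfl (fun _ => rfl) k0_mm_102

noncomputable def f_mm_112 : ℕ → ℕ → ℕ → ℕ → Bool := onCell 536870912 536870912 536870912 536870912 1046898278 26843546
    (rowFX 1 false false false .dn 1 1 2 (qsf 536870912 536870912 1073741824 536870912 1) ndF0q1 ndF3q2 pcF1 Cut.none Ext.none)

def k0_mm_112 : ∃ t, chk3 f_mm_112 t 1 1 1 = true :=
  ⟨(l 5), by decide +kernel⟩

theorem c_mm_112 : CertFX 536870912 536870912 1073741824 536870912 1046898278 26843546 false false false .dn 1 1 2
    ndF0q1 ndF3q2 pcF1 Cut.none Ext.none :=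
  certFX1 (fam := false) (s1 := false) (s2 := false) (a := 1) (b := 1) (c := 2) (cn := .dn) (n1 := ndF0q1) (n2 := ndF3q2) (pc := pcF1) (cut := Cut.none) (xt := Ext.none) (P1 := 536870912) (W1 := 536870912) (P2 := 1073741824) (W2 := 536870912) (P3 := 1046898278) (W3 := 26843546)
    rfl (fun _ => rfl) k0_mm_112

noncomputable def f_mm_113 : ℕ → ℕ → ℕ → ℕ → Bool := onCell 536870912 536870912 1610612736 536870912 1046898278 26843546
    (rowFX 0 false false false .nn 1 1 3 (qsf 536870912 536870912 1610612736 536870912 1) ndF0q1 ndF3q3 pcF1 Cut.none Ext.none)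

def k0_mm_113 : ∃ t, chk3 f_mm_113 t 1 1 1 = true :=
  ⟨(l 5), by decide +kernel⟩

theorem c_mm_113 : CertFX 536870912 536870912 1610612736 536870912 1046898278 26843546 false false false .nn 1 1 3
    ndF0q1 ndF3q3 pcF1 Cut.none Ext.none :=
  certFX0 (fam := false) (s1 := false) (s2 := false) (a := 1) (b := 1) (c := 3) (cn := .nn) (n1 := ndF0q1) (n2 := ndF3q3) (pc := pcF1) (cut := Cut.none) (xt := Ext.none) (P1 := 536870912) (W1 := 536870912) (P2 := 1610612736) (W2 := 536870912) (P3 := 1046898278) (W3 := 26843546)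
    rfl k0_mm_113

noncomputable def f_mm_123 : ℕ → ℕ → ℕ → ℕ → Bool := onCell 536870912 536870912 1610612736 536870912 1046898278 26843546
    (rowFX 0 false false false .npn 1 2 3 (qsf 536870912 536870912 1610612736 536870912 2) ndF0q1 ndF3q3 pcF2 Cut.none Ext.none)

def k0_mm_123 : ∃ t, chk3 f_mm_123 t 1 1 1 = true :=
  ⟨(l 5), by decide +kernel⟩

theorem c_mm_123 : CertFX 536870912 536870912 1610612736 536870912 1046898278 26843546 false false false .npn 1 2 3
    ndF0q1 ndF3q3 pcF2 Cut.none Ext.none :=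
  certFX0 (fam := false) (s1 := false) (s2 := false) (a := 1) (b := 2) (c := 3) (cn := .npn) (n1 := ndF0q1) (n2 := ndF3q3) (pc := pcF2) (cut := Cut.none) (xt := Ext.none) (P1 := 536870912) (W1 := 536870912) (P2 := 1610612736) (W2 := 536870912) (P3 := 1046898278) (W3 := 26843546)
    rfl k0_mm_123

noncomputable def f_mm_133 : ℕ → ℕ → ℕ → ℕ → Bool := onCell 536870912 536870912 1610612736 536870912 1046898278 26843546
    (rowFX 0 false false false .dn 1 3 3 (qsf 536870912 536870912 1610612736 536870912 3) ndF0q1 ndF3q3 pcF3 Cut.none Ext.none)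

def k0_mm_133 : ∃ t, chk3 f_mm_133 t 1 1 1 = true :=
  ⟨(l 5), by decide +kernel⟩

theorem c_mm_133 : CertFX 536870912 536870912 1610612736 536870912 1046898278 26843546 false false false .dn 1 3 3
    ndF0q1 ndF3q3 pcF3 Cut.none Ext.none :=
  certFX0 (fam := false) (s1 := false) (s2 := false) (a := 1) (b := 3) (c := 3) (cn := .dn) (n1 := ndF0q1) (n2 := ndF3q3) (pc := pcF3) (cut := Cut.none) (xt := Ext.none) (P1 := 536870912) (W1 := 536870912) (P2 := 1610612736) (W2 := 536870912) (P3 := 1046898278) (W3 := 26843546)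
    rfl k0_mm_133

noncomputable def f_mm_202 : ℕ → ℕ → ℕ → ℕ → Bool := onCell 0 536870912 1073741824 536870912 1046898278 26843546
    (rowFX 0 false false false .pp 2 0 2 (qsf 0 536870912 1073741824 536870912 0) ndF0q2 ndF3q2 pcF0 Cut.none Ext.none)

def k0_mm_202 : ∃ t, chk3 f_mm_202 t 1 1 1 = true :=
  ⟨(l 3), by decide +kernel⟩

theorem c_mm_202 : CertFX 0 536870912 1073741824 536870912 1046898278 26843546 false false false .pp 2 0 2
    ndF0q2 ndF3q2 pcF0 Cut.none Ext.none :=
  certFX0 (fam := false) (s1 := false) (s2 := false) (a := 2) (b := 0) (c := 2) (cn := .pp) (n1 := ndF0q2) (n2 := ndF3q2) (pc := pcF0) (cut := Cut.none) (xt := Ext.none) (P1 := 0) (W1 := 536870912) (P2 := 1073741824) (W2 := 536870912) (P3 := 1046898278) (W3 := 26843546)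
    rfl k0_mm_202

noncomputable def f_mm_203 : ℕ → ℕ → ℕ → ℕ → Bool := onCell 0 536870912 0 536870912 1046898278 26843546
    (rowFX 1 false false false .up 2 0 3 (qsf 0 536870912 1610612736 536870912 0) ndF0q2 ndF3q3 pcF0 Cut.none Ext.none)

def k0_mm_203 : ∃ t, chk3 f_mm_203 t 1 1 1 = true :=
  ⟨(l 3), by decide +kernel⟩

theorem c_mm_203 : CertFX 0 536870912 1610612736 536870912 1046898278 26843546 false false false .up 2 0 3
    ndF0q2 ndF3q3 pcF0 Cut.none Ext.none :=
  certFX1 (fam := false) (s1 := false) (s2 := false) (a := 2) (b := 0) (c := 3) (cn := .up) (n1 := ndF0q2) (n2 := ndF3q3) (pc := pcF0) (cut := Cut.none) (xt := Ext.none) (P1 := 0) (W1 := 536870912) (P2 := 1610612736) (W2 := 536870912) (P3 := 1046898278) (W3 := 26843546)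
    rfl (fun _ => rfl) k0_mm_203

noncomputable def f_mm_213 : ℕ → ℕ → ℕ → ℕ → Bool := onCell 0 536870912 1610612736 536870912 1046898278 26843546
    (rowFX 0 false false false .pnn 2 1 3 (qsf 0 536870912 1610612736 536870912 1) ndF0q2 ndF3q3 pcF1 Cut.none Ext.none)

def k0_mm_213 : ∃ t, chk3 f_mm_213 t 1 1 1 = true :=
  ⟨(b (l 3) (a (l 3) (l 5))), by decide +kernel⟩

theorem c_mm_213 : CertFX 0 536870912 1610612736 536870912 1046898278 26843546 false false false .pnn 2 1 3
    ndF0q2 ndF3q3 pcF1 Cut.none Ext.none :=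
  certFX0 (fam := false) (s1 := false) (s2 := false) (a := 2) (b := 1) (c := 3) (cn := .pnn) (n1 := ndF0q2) (n2 := ndF3q3) (pc := pcF1) (cut := Cut.none) (xt := Ext.none) (P1 := 0) (W1 := 536870912) (P2 := 1610612736) (W2 := 536870912) (P3 := 1046898278) (W3 := 26843546)
    rfl k0_mm_213

end Pool.Agent.Strip051.G.IE1.Tab.C.FB03

namespace Pool.Agent.Strip051.G.IE1.Tab.C.FB05

open Pool.Agent.Strip051.PB Pool.Agent.Strip051.PB.T
open Pool.Agent.Strip051.G.IE1.Tab

noncomputable def f_pp_001 : ℕ → ℕ → ℕ → ℕ → Bool := onCell 0 536870912 0 536870912 1046898278 26843546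
    (rowFX 1 false true true .up 0 0 1 (qsf 0 536870912 536870912 469762048 0) ndF0q0 ndF5q1 pcF0 Cut.none Ext.none)

def k0_pp_001 : ∃ t, chk3 f_pp_001 t 1 1 1 = true :=
  ⟨(l 3), by decide +kernel⟩

theorem c_pp_001 : CertFX 0 536870912 536870912 469762048 1046898278 26843546 false true true .up 0 0 1
    ndF0q0 ndF5q1 pcF0 Cut.none Ext.none :=
  certFX1 (fam := false) (s1 := true) (s2 := true) (a := 0) (b := 0) (c := 1) (cn := .up) (n1 := ndF0q0) (n2 := ndF5q1) (pc := pcF0) (cut := Cut.none) (xt := Ext.none) (P1 := 0) (W1 := 536870912) (P2 := 536870912) (W2 := 469762048) (P3 := 1046898278) (W3 := 26843546)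
    rfl (fun _ => rfl) k0_pp_001

noncomputable def f_pp_011 : ℕ → ℕ → ℕ → ℕ → Bool := onCell 0 536870912 536870912 469762048 1046898278 26843546
    (rowFX 0 false true true .pnn 0 1 1 (qsf 0 536870912 536870912 469762048 1) ndF0q0 ndF5q1 pcF1 Cut.none Ext.none)

def k0_pp_011 : ∃ t, chk3 f_pp_011 t 1 1 1 = true :=
  ⟨(a (l 3) (l 3)), by decide +kernel⟩

theorem c_pp_011 : CertFX 0 536870912 536870912 469762048 1046898278 26843546 false true true .pnn 0 1 1
    ndF0q0 ndF5q1 pcF1 Cut.none Ext.none :=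
  certFX0 (fam := false) (s1 := true) (s2 := true) (a := 0) (b := 1) (c := 1) (cn := .pnn) (n1 := ndF0q0) (n2 := ndF5q1) (pc := pcF1) (cut := Cut.none) (xt := Ext.none) (P1 := 0) (W1 := 536870912) (P2 := 536870912) (W2 := 469762048) (P3 := 1046898278) (W3 := 26843546)
    rfl k0_pp_011

noncomputable def f_pp_012 : ℕ → ℕ → ℕ → ℕ → Bool := onCell 0 536870912 536870912 536870912 1046898278 26843546
    (rowFX 1 false true true .pnp 0 1 2 (qsf 0 536870912 1073741824 536870912 1) ndF0q0 ndF5q2 pcF1 Cut.none Ext.none)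

def k0_pp_012 : ∃ t, chk3 f_pp_012 t 1 1 1 = true :=
  ⟨(b (l 3) (l 3)), by decide +kernel⟩

theorem c_pp_012 : CertFX 0 536870912 1073741824 536870912 1046898278 26843546 false true true .pnp 0 1 2
    ndF0q0 ndF5q2 pcF1 Cut.none Ext.none :=
  certFX1 (fam := false) (s1 := true) (s2 := true) (a := 0) (b := 1) (c := 2) (cn := .pnp) (n1 := ndF0q0) (n2 := ndF5q2) (pc := pcF1) (cut := Cut.none) (xt := Ext.none) (P1 := 0) (W1 := 536870912) (P2 := 1073741824) (W2 := 536870912) (P3 := 1046898278) (W3 := 26843546)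
    rfl (fun _ => rfl) k0_pp_012

end Pool.Agent.Strip051.G.IE1.Tab.C.FB05

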