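import Pool.Agent.Strip051.G.IE1.Tab

/-! # Certificates F33 (generated) -/

set_option linter.all false
set_option maxRecDepth 100000

namespace Pool.Agent.Strip051.G.IE1.Tab.C.FB05

open Pool.Agent.Strip051.PB Pool.Agent.Strip051.PB.T
open Pool.Agent.Strip051.G.IE1.Tab

noncomputable def f_pp_022 : ℕ → ℕ → ℕ → ℕ → Bool := onCell 1073741824 536870912 1073741824 536870912 1046898278 26843546
    (rowFX 2 false true true .pp 0 2 2 (qsf 0 536870912 1073741824 536870912 2) ndF0q0 ndF5q2 pcF2 Cut.none Ext.none)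

def k0_pp_022 : ∃ t, chk3 f_pp_022 t 8 2 1 = true :=
  ⟨(l 3), by decide +kernel⟩

def k1_pp_022 : ∃ t, chk3 f_pp_022 t 9 8 1 = true :=
  ⟨(a (a (l 3) (l 1)) (l 1)), by decide +kernel⟩

def k2_pp_022 : ∃ t, chk3 f_pp_022 t 18 9 1 = true :=
  ⟨(a (a (l 3) (a (l 3) (b (b (c (l 49558341431) (c (l 16163568) (l 16097224))) (c (b (l 16357360) (l 16410240)) (c (b (l 16376728) (l 16406640)) (b (l 16241704) (l 16444688))))) (b (a (l 3) (c (c (l 16383256) (l 16298128)) (c (l 16293176) (l 16408648)))) (c (c (c (l 16103792) (l 16061720)) (l 16017024)) (l 16077208)))))) (a (b (b (a (a (c (l 16022832) (l 16072424)) (l 1)) (l 1)) (c (c (a (l 16288000) (l 16257752)) (l 16196760)) (c (b (l 16291024) (l 16313624)) (b (c (l 16291128) (l 16168664)) (a (l 16359032) (l 16293480)))))) (c (b (c (b (l 16442544) (l 16407024)) (b (l 16450512) (l 16365328))) (c (c (b (l 16355032) (l 16230640)) (l 16116952)) (c (b (l 16346360) (l 16190840)) (l 16104432)))) (b (c (b (c (l 16484528) (l 16436808)) (l 16320224)) (l 16274520))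 (c (l 16153680) (l 16230872))))) (b (b (l 1) (a (c (c (l 16226288) (l 16263872)) (c (l 16280648) (b (l 16204976) (l 16229920)))) (b (l 1) (c (c (l 16267136) (l 16305112)) (c (l 16301136) (l 16195472)))))) (c (b (a (c (l 16389288) (l 16396112)) (c (c (l 16365080) (l 16364568)) (l 16324840))) (c (a (b (l 16437792) (l 16294144)) (b (l 16424936) (l 16325120))) (b (a (l 16414008) (l 16408904)) (a (l 16237784) (l 16295344))))) (b (b (c (a (l 16414488) (l 16401800)) (a (l 16370296) (c (l 16367136) (l 16355368)))) (c (a (l 16435152) (l 16434320)) (a (l 16527288) (l 16503200)))) (a (c (l 16160696) (l 16300224)) (c (a (l 16213048) (l 16264264)) (l 16333432)))))))), by decide +kernel⟩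

def k3_pp_022 : ∃ t, chk3 f_pp_022 t 19 9 1 = true :=
  ⟨(a (b (a (a (b (l 1) (c (l 16209608) (l 16178480))) (l 1)) (l 1)) (c (a (b (c (l 16333056) (l 16332224)) (a (c (l 16340896) (l 16280640)) (c (l 16323296) (l 16289936)))) (b (l 16334640) (c (l 16309720) (l 16302096)))) (b (a (c (a (l 16347848) (l 16365944)) (b (c (l 16409000) (l 16329504)) (c (l 16462128) (l 16492880)))) (c (l 16395640) (l 62309450519))) (a (c (b (b (l 16485584) (l 16364856)) (l 16271208)) (l 16201800)) (c (b (l 16446312) (l 16279728)) (b (l 16368608) (l 16285824))))))) (b (l 1) (a (c (b (l 16318104) (l 16269504)) (b (l 16294112) (c (l 16281512) (c (l 16232048) (l 16224912))))) (b (l 1) (c (l 16317936) (c (l 16399536) (l 16267080))))))), by decide +kernel⟩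

def k4_pp_022 : ∃ t, chk3 f_pp_022 t 18 10 1 = true :=
  ⟨(a (a (l 3) (b (a (a (l 3) (b (l 3) (c (l 15821304) (l 15715856)))) (b (c (c (b (l 15907528) (b (l 15883640) (l 15809216))) (l 15894816)) (c (l 15885096) (l 15874520))) (b (c (l 15849224) (l 15848768)) (c (l 16018496) (l 16000152))))) (c (c (b (l 16085888) (l 16337728)) (l 16061112)) (b (c (l 16134864) (a (l 16077552) (l 16200624))) (c (l 16330880) (a (l 418925980071) (l 16399088))))))) (b (c (b (a (c (b (c (l 16077056) (l 16056896)) (c (a (l 15901880) (l 15954824)) (l 15891264))) (c (l 15866912) (l 15961040))) (c (a (b (l 16080336) (c (l 16005736) (l 15983360))) (b (l 16177384) (l 16024672))) (a (b (l 16108520) (l 15963008)) (l 15982480)))) (a (c (b (c (l 15871736) (l 15940880)) (l 16078872)) (l 16012112)) (c (a (c (b (l 16025016) (l 16168264)) (l 16085696)) (l 16014056)) (a (l 16078624) (l 16097952))))) (a (b (c (l 15953912) (l 15881488)) (c (l 16003088) (l 15889208))) (b (a (c (l 16020800) (l 15991384)) (l 16041088)) (a (c (l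 16070672) (l 16041744)) (l 16087440))))) (b (c (a (c (l 16220296) (l 16299032)) (a (c (l 16294544) (l 16353560)) (l 16317264))) (a (c (l 16293880) (l 16162904)) (a (c (l 16349664) (l 16261880)) (l 16371272)))) (c (a (c (l 16384744) (l 16446056)) (c (l 16470432) (l 16512344))) (a (c (l 16402520) (c (l 16401320) (l 16358576))) (a (c (l 16602936) (l 16518728)) (l 16557536))))))), by decide +kernel⟩

def k5_pp_022 : ∃ t, chk3 f_pp_022 t 18 11 1 = true :=
  ⟨(a (a (a (l 3) (a (b (l 3) (b (l 3) (c (l 16541488) (c (l 16538008) (l 471539797799))))) (b (b (l 3) (b (l 3) (c (l 16422120) (c (l 16416184) (l 450064709159))))) (c (l 16374952) (c (l 16369656) (c (l 238000645191) (b (b (b (b (l 462412695895) (l 16346512)) (l 16370144)) (l 16417056)) (l 16488320)))))))) (b (c (c (a (l 16306704) (l 16274632)) (l 16299104)) (b (c (l 16502208) (a (c (l 16538264) (l 16496272)) (l 16473320))) (c (l 16367496) (a (a (b (l 16483496) (l 16384984)) (l 16334696)) (l 16273496))))) (c (c (l 16317888) (l 16376384)) (c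 (b (l 16330744) (l 16453984)) (c (b (l 16200984) (l 16451288)) (b (a (b (b (b (l 16301264) (l 16308248)) (l 16332440)) (l 16380320)) (b (l 16266576) (l 16329144))) (l 16344640))))))) (b (b (a (c (c (l 16347688) (l 16429544)) (c (l 16385568) (a (l 16454464) (l 16372288)))) (c (l 16392896) (l 16344144))) (a (c (c (a (l 16337832) (l 16286664)) (l 16308856)) (c (l 16198480) (a (l 16280328) (l 16101152)))) (c (l 16227704) (l 16046664)))) (c (a (a (c (l 16265280) (l 16322696)) (c (l 16199480) (l 16277232))) (b (l 16143024) (l 16296184))) (a (c (a (l 16275264) (l 16271104)) (a (b (c (l 16247592) (l 16181504)) (l 16374784)) (b (c (l 16199024) (l 16153584)) (l 16332176)))) (c (l 16220528) (b (l 16144832) (l 16281440))))))), by decide +kernel⟩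

def k6_pp_022 : ∃ t, chk3 f_pp_022 t 19 5 1 = true :=
  ⟨(b (a (b (c (b (b (a (c (l 16156168) (l 16061720)) (c (l 16202096) (l 16178600))) (a (c (a (l 16045456) (l 16061680)) (l 15892304)) (c (l 16023712) (l 15970008)))) (a (c (a (l 16011648) (b (l 16079480) (l 16221960))) (l 16036816)) (c (b (l 16091192) (l 16170328)) (l 16049312)))) (b (a (c (l 16025352) (l 16058576)) (c (l 15866000) (l 16063152))) (a (l 16085072) (l 16111368)))) (c (b (a (c (a (l 16335848) (l 16309520)) (l 16357136)) (c (l 16256056) (l 16388728))) (a (l 16412416) (b (l 16526552) (l 16432544)))) (a (b (l 16289872) (l 16410432)) (b (l 16386048) (l 16425008))))) (a (b (b (c (b (l 16164304) (c (l 16089968) (l 16065408))) (c (b (l 16180856) (l 16037688)) (l 16044568))) (c (c (b (l 16125080) (l 16273176)) (b (l 16093928) (l 16243792))) (l 16062264))) (c (b (c (c (l 16299704) (l 16329360)) (l 16339808)) (b (l 16339160) (l 16348456))) (b (l 16417320) (l 16366280)))) (b (b (c (c (l 16122032) (l 16153928)) (c (b (l 16228096)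 (l 16092344)) (l 15948136))) (c (c (l 16104656) (b (l 16151432) (l 16283072))) (l 15991000))) (c (b (c (l 16294464) (l 16377072)) (c (l 16185440) (l 16322704))) (b (l 16427856) (l 16315688)))))) (a (a (b (c (c (b (l 16356184) (l 16161032)) (l 16124952)) (c (l 16160888) (b (l 16343000) (l 16138496)))) (c (c (b (l 16105968) (l 16239656)) (l 16165864)) (c (l 16158320) (b (l 16080608) (l 16219696))))) (b (c (b (l 16280000) (l 16087336)) (l 16021648)) (b (c (l 16020248) (l 16022824)) (l 16149344)))) (b (c (a (b (l 16186936) (l 15995160)) (b (l 15948864) (l 15883216))) (a (l 15989616) (l 15898752))) (c (a (b (l 15936712) (l 16100728)) (b (l 15851176) (l 16005032))) (a (l 15884568) (l 15843256)))))), by decide +kernel⟩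

def k7_pp_022 : ∃ t, chk3 f_pp_022 t 8 3 1 = true :=
  ⟨(a (l 3) (a (l 3) (a (b (l 3) (a (l 3) (b (l 3) (b (l 3) (a (l 3) (c (l 946670268215) (c (l 16329360) (l 396914433959)))))))) (a (b (l 3) (b (b (l 3) (c (c (l 1000357410983) (l 881172060839)) (c (l 778629706695) (c (l 714742062855) (l 678234835543))))) (c (b (c (l 16367000) (l 16361544)) (c (l 16357728) (l 16352008))) (b (c (l 363091610247) (c (l 16352152) (l 395840725079))) (c (l 16346528) (c (l 16342408) (l 16339664))))))) (b (b (l 3) (a (l 3) (b (l 3) (c (c (l 751786322199) (l 696488593591)) (c (b (l 16415472) (l 16412920)) (b (l 568713306103) (l 412483866215))))))) (c (b (c (b (a (l 16402496) (l 16414480)) (l 16398008)) (b (a (l 16397592) (l 16409728)) (l 16393000))) (c (b (l 16384872) (l 16371120)) (b (l 16379640) (l 16365664)))) (b (c (b (a (l 735680117831) (l 16404984)) (c (l 16389280) (l 16386800))) (b (c (l 397451429463) (a (l 617031636647) (l 16399056))) (c (l 16384320) (l 380808416487)))) (c (b (l 16374512) (l 16360352))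 (b (c (l 16370664) (l 16368096)) (l 16355040)))))))))), by decide +kernel⟩

def k8_pp_022 : ∃ t, chk3 f_pp_022 t 36 12 1 = true :=
  ⟨(a (a (a (b (l 3) (l 3)) (b (c (l 16520728) (c (l 16540576) (b (l 3) (l 495162249031)))) (c (b (l 16463712) (c (l 16462936) (l 16458824))) (b (c (l 16500680) (c (l 16498192) (l 484424639735))) (c (l 16454720) (c (l 16451640) (l 16449584))))))) (b (c (b (l 16642592) (l 16595680)) (c (l 16539704) (c (l 16539632) (b (l 16556464) (l 16571928))))) (c (b (l 16498992) (c (l 16482560) (l 16478720))) (b (c (l 16536776) (c (l 16534704) (l 16512344))) (c (b (l 16478000) (l 16470856)) (b (a (l 16465256) (l 16481504)) (l 16466960))))))) (a (c (b (l 16550416) (b (l 16567848) (c (l 16516224) (l 16512864)))) (b (c (l 16591320) (b (l 16553264) (l 16621608))) (b (c (l 16585784) (l 16562792)) (c (l 16467560) (b (l 16514040) (l 16495008)))))) (c (b (l 16589336) (b (l 16576032) (c (b (l 16570744) (l 16538384)) (l 16510624)))) (b (c (l 16587128) (l 16501768)) (c (b (l 16616136)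 (b (l 16565712) (l 16532184))) (b (l 16593936) (b (l 16563200) (l 16529088)))))))), by decide +kernel⟩

def k9_pp_022 : ∃ t, chk3 f_pp_022 t 36 13 1 = true :=
  ⟨(b (c (a (a (c (b (b (a (l 16445752) (l 16459888)) (l 346985691607)) (l 347522557047)) (b (a (l 389935360471) (l 16454352)) (l 16443008))) (c (c (l 16473672) (l 16471680)) (b (l 16471128) (l 16466240)))) (c (a (b (l 16502568) (l 16497896)) (c (l 16526928) (l 16525288))) (a (b (l 16498976) (l 16494248)) (b (l 16526616) (l 16519472))))) (a (a (c (b (a (l 418389501927) (l 16450192)) (l 403893976055)) (b (a (l 450601747975) (l 16446024)) (a (l 430200648791) (l 16440312)))) (c (b (l 16467176) (l 16462224)) (c (l 16461728) (l 16459736)))) (c (a (l 16492752) (b (l 16523384) (l 16516152))) (a (b (l 16491800) (l 16486944)) (a (l 16511296) (l 16519952)))))) (c (a (c (a (b (l 16442408) (l 16436600)) (l 16462944)) (a (b (l 16438032) (l 16432144)) (l 16458840))) (a (c (l 16468296) (l 16485504)) (l 16506240))) (a (c (a (b (l 16433656) (l 16427696))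 (l 16454728)) (a (c (l 16427344) (b (l 16428184) (l 16422128))) (c (l 16451648) (l 16449592)))) (a (c (l 16481744) (c (l 16478920) (l 16477032))) (l 16499200))))), by decide +kernel⟩

def k10_pp_022 : ∃ t, chk3 f_pp_022 t 37 6 1 = true :=
  ⟨(b (c (a (b (a (b (l 16507256) (l 16624008)) (l 16532272)) (b (a (l 16618632) (l 16707168)) (l 16514648))) (b (l 16486440) (l 16565432))) (a (a (b (c (b (l 16502720) (l 16621984)) (a (l 16487640) (l 16508480))) (c (l 16526208) (b (l 16659304) (l 16579376)))) (b (l 16463992) (l 16551760))) (b (l 16374976) (b (l 16642472) (l 16598176))))) (c (b (a (c (b (l 16545864) (l 16533648)) (l 16494968)) (b (c (l 16563576) (l 16560872)) (l 16534776))) (a (l 16516728) (l 16518256))) (b (a (c (l 16533816) (l 16530720)) (b (l 16514880) (l 16528480))) (a (c (l 16511656) (l 16508272)) (l 16511528))))), by decide +kernel⟩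

def k11_pp_022 : ∃ t, chk3 f_pp_022 t 18 7 1 = true :=
  ⟨(a (a (a (c (b (c (b (l 16427688) (l 16415576)) (b (l 16423120) (l 16410848))) (c (b (l 16401416) (l 16389944)) (b (l 16396504) (l 16384880)))) (b (c (b (l 16418552) (l 16406128)) (b (c (l 16415128) (l 16412840)) (l 16401400))) (c (b (l 16391592) (l 16379816)) (b (a (l 16382024) (l 16394112)) (c (l 16376016) (l 16373488)))))) (c (b (c (b (l 16451584) (l 16440592)) (b (l 16447328) (l 16436192))) (b (c (l 16427464) (l 16422888)) (l 16406864))) (b (c (b (l 16443072) (l 16431792)) (b (l 16417840) (c (l 16428496) (l 16426296)))) (b (c (l 16418320) (l 16413744)) (l 16397248))))) (c (b (b (a (c (l 16477904) (l 16473992)) (l 16487104)) (l 16462976)) (b (l 16443680) (l 16423856))) (b (b (a (c (l 16470080) (l 16466168)) (l 16479568)) (c (l 16456856) (l 16452776))) (c (l 16427152) (l 16422688))))) (c (b (a (b (l 16495896) (l 16474616)) (b (l 16495816) (l 16472888))) (a (c (l 16443880) (l 16439520)) (l 16437408))) (b (a (c (l 16479656) (l 16475864))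 (c (l 16478728) (l 16474928))) (a (c (l 16435168) (l 16430808)) (c (l 16430792) (l 16426376)))))), by decide +kernel⟩

def k12_pp_022 : ∃ t, chk3 f_pp_022 t 19 3 1 = true :=
  ⟨(b (a (b (c (b (a (l 16430144) (l 16372608)) (a (l 16607096) (l 16614624))) (a (b (l 16338216) (b (l 16609328) (l 16654376))) (b (l 16363104) (l 16591024)))) (c (a (b (b (l 16520104) (l 16529880)) (l 16510744)) (b (b (l 16623280) (l 16548264)) (l 16518752))) (a (b (b (l 16557520) (l 16523480)) (l 16503816)) (b (l 16519496) (l 16512040))))) (b (b (a (c (l 16297320) (l 16285728)) (c (l 16211320) (l 16197312))) (a (c (l 16542416) (l 16537552)) (c (l 16382064) (l 16395896)))) (b (a (c (l 16476928) (l 16516552)) (c (l 16552616) (l 16615400))) (a (c (l 16548416) (l 16521520)) (c (l 16552672) (l 16546952)))))) (a (a (c (b (c (l 16477688) (l 16473768)) (b (l 16435200) (l 16412768))) (b (c (l 16469856) (l 16465936)) (c (l 16394352) (b (l 16424096) (l 16400936))))) (b (c (l 16442128) (b (l 16489448) (l 16468056))) (c (l 16435200)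 (b (l 16443208) (l 16408160))))) (b (a (b (c (l 16521640) (l 16515000)) (l 16480384)) (c (l 16484952) (l 16477360))) (c (l 16417224) (a (l 16419552) (l 16393240)))))), by decide +kernel⟩

def k13_pp_022 : ∃ t, chk3 f_pp_022 t 5 4 1 = true :=
  ⟨(a (a (a (b (l 1) (b (l 1) (a (c (l 16153488) (l 274910208375)) (l 1)))) (l 1)) (l 1)) (l 1)), by decide +kernel⟩

def k14_pp_022 : ∃ t, chk3 f_pp_022 t 20 10 1 = true :=
  ⟨(a (b (b (c (a (l 16125496) (a (l 16250816) (l 16254936))) (a (c (l 16197688) (b (l 16274584) (l 16141176))) (a (b (l 16327000) (l 16137072)) (l 16183816)))) (c (a (c (l 16187464) (l 16150808)) (a (l 16182512) (l 16258264))) (a (c (l 16108008) (l 16175960)) (a (c (l 16164608) (l 16166712)) (l 16108856))))) (a (c (b (c (l 16271152) (l 16299608)) (c (a (l 16225704) (l 16126232)) (l 16173224))) (b (l 16336112) (l 16212512))) (c (b (a (b (l 16309256) (l 16201928)) (l 16171696)) (c (b (l 16171664) (l 16068048)) (l 16121672))) (b (c (l 16170688) (l 16343728)) (l 16149000))))) (b (b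 (a (c (l 16179056) (l 16171544)) (l 1)) (a (c (l 16143048) (b (l 16086592) (c (l 16364232) (l 16350672)))) (a (c (l 16109480) (c (l 16208656) (l 901438607927))) (b (l 1) (a (c (l 16238320) (l 16229144)) (c (a (a (a (l 16207808) (l 16190672)) (l 16181720)) (l 16185600)) (l 16086744))))))) (b (a (c (a (l 16212520) (l 16264024)) (c (l 16248880) (l 16410968))) (a (c (l 16209024) (c (l 16269328) (l 16395840))) (c (a (l 16288544) (a (a (a (l 16349288) (a (l 16337712) (l 16285520))) (l 16324056)) (l 16328200))) (a (c (l 16323840) (l 16354176)) (a (c (l 16184560) (l 16170704)) (l 16186488)))))) (a (c (c (l 16066784) (l 16090512)) (l 16140864)) (a (c (c (l 16079120) (l 16082072)) (l 16074864)) (c (a (c (l 16086072) (l 16110240)) (c (a (a (a (l 16166648) (a (l 16175816) (l 16142328))) (l 16185440)) (l 16176928)) (b (l 16181320) (l 16021472)))) (a (l 16087792) (c (a (l 16031000) (l 16221792)) (l 16218848))))))))), by decide +kernel⟩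

def k15_pp_022 : ∃ t, chk3 f_pp_022 t 21 10 1 = true :=
  ⟨(b (b (l 1) (c (l 15953920) (l 15994424))) (a (c (b (l 16157368) (c (l 15963192) (l 15909088))) (b (c (l 16225936) (b (l 16390496) (l 16220880))) (c (b (l 16088608) (l 16003792)) (l 15958416)))) (b (c (l 16077792) (l 16093792)) (c (l 15813696) (c (l 15913728) (l 15749392)))))), by decide +kernel⟩

def k16_pp_022 : ∃ t, chk3 f_pp_022 t 11 10 1 = true :=
  ⟨(b (l 1) (a (b (l 1) (c (a (l 15748968) (l 1)) (l 15492696))) (l 1))), by decide +kernel⟩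

def k17_pp_022 : ∃ t, chk3 f_pp_022 t 10 11 1 = true :=
  ⟨(a (a (b (c (a (b (a (l 15991848) (c (l 15940224) (l 15938400))) (a (l 15790136) (l 15738424))) (b (l 15822920) (l 15703008))) (a (b (l 15954072) (l 15741456)) (l 15790480))) (a (c (b (a (l 15763424) (l 15724168)) (l 15915680)) (a (l 15741520) (l 15790176))) (c (l 15632944) (l 15754528)))) (a (b (c (b (c (l 15813104) (l 15907632)) (c (l 15694072) (l 15687408))) (l 15781544)) (c (b (l 15658296) (l 15840616)) (l 15724720))) (b (a (c (b (c (b (l 15954376) (l 15854304)) (l 15925376)) (c (l 15705272) (l 15703456))) (l 15800520)) (c (a (b (c (b (l 15972608) (l 15872496)) (l 15948656)) (c (l 15725272) (l 15726816))) (b (c (a (a (a (l 15938168) (a (l 15946208) (l 15932760))) (l 15953752)) (l 15943336)) (b (l 15932232) (l 15843272))) (c (a (a (a (l 15738944) (a (l 15746480) (l 15753480))) (l 15753232)) (l 15742928)) (l 15741712)))) (a (l 15826256) (b (l 15966960) (l 15722888))))) (a (c (b (l 15656920) (l 15835080)) (l 15721808)) (a (c (b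 (l 15669624) (l 15842168)) (l 15732288)) (c (b (a (a (a (l 15680080) (a (l 15686912) (l 15693384))) (l 15693200)) (l 15682592)) (l 15845248)) (b (l 15651408) (l 15823288)))))))) (a (b (c (c (b (b (l 15888656) (l 15736432)) (b (c (l 15666080) (l 15679328)) (l 15388320))) (b (b (l 15824888) (l 15797360)) (l 15635864))) (b (l 15624840) (l 15629168))) (c (b (c (b (c (l 15518632) (l 15541592)) (l 15611192)) (l 15572960)) (l 15716968)) (l 15630352))) (b (c (b (c (l 15577648) (l 15516648)) (c (b (l 15453376) (l 15268032)) (b (l 15445752) (l 15364240)))) (b (c (b (l 15705768) (l 15587936)) (l 15657040)) (l 15240112))) (c (b (c (b (c (l 15310120) (l 15320576)) (l 15394272)) (l 15320208)) (c (l 15465184) (l 15502280))) (l 15418440))))), by decide +kernel⟩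

def k18_pp_022 : ∃ t, chk3 f_pp_022 t 11 11 1 = true :=
  ⟨(b (b (a (c (a (l 15439480) (l 15284352)) (a (c (l 15444992) (l 15420368)) (l 15250480))) (l 1)) (c (a (a (c (l 15077720) (l 15093672)) (l 14950488)) (a (l 14869248) (l 1))) (a (a (c (b (l 15250376) (l 15141528)) (l 15199208)) (c (l 14987144) (l 14976296))) (l 14772928)))) (a (c (b (c (a (b (b (l 15073200) (l 15102408)) (l 15162632)) (b (l 14893888) (l 14943784))) (a (b (c (l 15093104) (l 15101008)) (l 15171952)) (b (l 14876112) (l 14937288)))) (a (c (l 15069096) (l 15284672)) (c (l 15046208) (l 14907088)))) (c (b (a (l 15138808) (b (l 14868088) (l 14939024))) (l 15105880)) (a (l 15188368) (l 14747984)))) (a (c (b (c (l 14773192) (l 14747424)) (c (l 14869152) (l 14858632))) (c (b (l 14727880) (l 14853192)) (b (l 14712832) (l 14848328)))) (c (l 312488043431) (c (l 14679208) (l 14493576)))))), by decide +kernel⟩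

def k19_pp_022 : ∃ t, chk3 f_pp_022 t 5 3 1 = true :=
  ⟨(a (b (a (a (b (b (a (c (l 16143608) (l 16127840)) (l 16100880)) (a (l 16413480) (l 16381696))) (b (c (a (l 16667416) (l 16638016)) (l 16505760)) (a (l 16448344) (l 16481496)))) (a (b (b (l 15997568) (l 16365344)) (b (l 16536792) (l 16458336))) (b (a (b (l 16038680) (l 16364856)) (a (b (l 16066056) (l 16368968)) (b (c (l 16033688) (l 16081560)) (l 16307152)))) (a (b (l 16609200) (l 16416104)) (a (b (l 16584600) (l 16396232)) (b (l 16571080) (l 16386064))))))) (b (b (c (a (l 15979504) (b (l 15648096) (l 15827976))) (l 15651192)) (c (l 16044952) (l 16031680))) (b (b (l 16261936) (l 16469736)) (l 16420088)))) (a (a (b (c (l 16358536) (a (l 16440256) (l 16386032))) (c (l 16331976) (l 16299440))) (a (b (c (l 16325640) (l 16313912)) (l 16226544)) (a (b (b (l 16281528) (l 16234592)) (l 16168080)) (b (a (l 16234448) (b (l 16244576) (l 16201000))) (a (l 16153400) (l 16126576)))))) (b (b (a (l 16328288) (l 16501904)) (c (l 16343536) (l 16332344)))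 (c (l 16299952) (l 16287560))))) (b (b (a (b (c (a (b (l 15419936) (l 15572792)) (b (c (l 15196664) (l 15201144)) (l 15337416))) (l 15142160)) (c (a (l 15837144) (l 15524776)) (l 15601792))) (b (c (a (b (c (l 14995432) (l 15002248)) (l 15144600)) (b (l 14868448) (l 14916416))) (a (l 14861280) (b (l 14705072) (l 14981024)))) (c (a (b (l 15286656) (l 15440632)) (l 15059928)) (l 15276696)))) (b (a (c (l 15983896) (l 15923424)) (c (a (l 15707600) (l 15516496)) (l 15591520))) (a (l 16099544) (l 15696712)))) (a (b (b (l 16282592) (a (l 16572576) (l 16609096))) (c (l 16501816) (l 16497440))) (b (c (l 16149208) (l 16095856)) (b (c (l 16671376) (l 16584744)) (c (l 16769296) (l 16769096))))))), by decide +kernel⟩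

def k20_pp_022 : ∃ t, chk3 f_pp_022 t 3 2 1 = true :=
  ⟨(b (l 1) (b (l 1) (b (l 1) (b (l 1) (a (a (c (l 14523768) (l 14465240)) (l 1)) (l 1)))))), by decide +kernel⟩

def k21_pp_022 : ∃ t, chk3 f_pp_022 t 6 3 1 = true :=
  ⟨(b (b (a (a (c (b (b (l 14712928) (l 14819776)) (b (a (l 15000304) (l 14868448)) (a (l 15144304) (l 15000304)))) (b (c (b (l 14678656) (l 14796728)) (a (l 14786872) (l 14660784))) (a (l 15070688) (b (l 14851872) (l 14981024))))) (c (l 340405012023) (b (l 14514352) (a (b (l 14722592) (l 14851872)) (l 14673032))))) (c (l 14377176) (a (l 14415584) (l 1)))) (a (c (b (a (c (l 15311944) (l 15312392)) (c (l 15014824) (l 14950904))) (a (l 15485616) (c (l 15311944) (l 15312392)))) (a (b (l 15276544) (l 15591368)) (b (c (l 14885160) (l 14998360)) (l 15276544)))) (c (a (b (l 14772616) (a (l 15081056) (l 14940856))) (l 14678560)) (a (b (c (l 14745600) (a (l 14786872) (l 14660784))) (a (l 15070688) (l 14912280))) (b (l 14514352) (c (l 14745600) (l 14585304))))))) (a (b (a (b (l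 15927256) (l 16203752)) (b (c (l 15590480) (l 15591368)) (l 15927256))) (a (b (l 16414096) (c (l 16671272) (l 16668520))) (c (l 16128112) (b (l 16196400) (l 16451920))))) (a (b (c (b (a (l 15375888) (l 15227696)) (l 15590480)) (b (l 15276544) (l 15591368))) (c (b (l 15938152) (l 16211104)) (b (l 15916360) (l 16196400)))) (b (c (b (l 14765768) (b (l 15227696) (l 15375888))) (b (a (l 15070688) (l 14933248)) (l 15276544))) (c (b (l 15380760) (l 15938152)) (b (l 15591368) (l 15916360))))))), by decide +kernel⟩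

def k22_pp_022 : ∃ t, chk3 f_pp_022 t 7 3 1 = true :=
  ⟨(b (a (a (b (l 1) (c (l 14475376) (l 14415584))) (l 1)) (l 1)) (a (b (c (a (b (l 14772616) (c (l 15014824) (l 14929936))) (l 14678560)) (b (a (c (l 14745600) (b (l 14660784) (l 14786872))) (l 14514352)) (a (c (l 14801272) (l 14998360)) (c (l 14745600) (l 14564336))))) (c (a (b (c (l 15311944) (l 15312392)) (l 15443680)) (b (c (l 15014824) (l 14971880)) (c (l 15311944) (l 15312392)))) (a (b (l 15276544) (l 15591368)) (b (b (l 14723536) (l 15070688)) (l 15276544))))) (b (c (l 14377176) (a (l 14415584) (l 1))) (c (a (b (l 14772616) (l 14912568)) (l 14678560)) (a (b (c (l 14745600) (l 14732104)) (l 14800944)) (b (l 14514352) (c (l 14745600) (l 14732104)))))))), by decide +kernel⟩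

theorem s23_pp_022 : ∃ t, chk3 f_pp_022 t 3 3 1 = true := ex3_a k21_pp_022 k22_pp_022

theorem s24_pp_022 : ∃ t, chk3 f_pp_022 t 3 1 1 = true := ex3_b k20_pp_022 s23_pp_022

theorem s25_pp_022 : ∃ t, chk3 f_pp_022 t 5 11 1 = true := ex3_a k17_pp_022 k18_pp_022

theorem s26_pp_022 : ∃ t, chk3 f_pp_022 t 10 10 1 = true := ex3_a k14_pp_022 k15_pp_022

theorem s27_pp_022 : ∃ t, chk3 f_pp_022 t 5 10 1 = true := ex3_a s26_pp_022 k16_pp_022

theorem s28_pp_022 : ∃ t, chk3 f_pp_022 t 5 5 1 = true := ex3_b s27_pp_022 s25_pp_022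

theorem s29_pp_022 : ∃ t, chk3 f_pp_022 t 5 2 1 = true := ex3_b k13_pp_022 s28_pp_022

theorem s30_pp_022 : ∃ t, chk3 f_pp_022 t 5 1 1 = true := ex3_b s29_pp_022 k19_pp_022

theorem s31_pp_022 : ∃ t, chk3 f_pp_022 t 36 6 1 = true := ex3_b k8_pp_022 k9_pp_022

theorem s32_pp_022 : ∃ t, chk3 f_pp_022 t 18 6 1 = true := ex3_a s31_pp_022 k10_pp_022

theorem s33_pp_022 : ∃ t, chk3 f_pp_022 t 18 3 1 = true := ex3_b s32_pp_022 k11_pp_022

theorem s34_pp_022 : ∃ t, chk3 f_pp_022 t 9 3 1 = true := ex3_a s33_pp_022 k12_pp_022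

theorem s35_pp_022 : ∃ t, chk3 f_pp_022 t 4 3 1 = true := ex3_a k7_pp_022 s34_pp_022

theorem s36_pp_022 : ∃ t, chk3 f_pp_022 t 18 5 1 = true := ex3_b k4_pp_022 k5_pp_022

theorem s37_pp_022 : ∃ t, chk3 f_pp_022 t 9 5 1 = true := ex3_a s36_pp_022 k6_pp_022

theorem s38_pp_022 : ∃ t, chk3 f_pp_022 t 9 9 1 = true := ex3_a k2_pp_022 k3_pp_022

theorem s39_pp_022 : ∃ t, chk3 f_pp_022 t 9 4 1 = true := ex3_b k1_pp_022 s38_pp_022

theorem s40_pp_022 : ∃ t, chk3 f_pp_022 t 9 2 1 = true := ex3_b s39_pp_022 s37_pp_022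

theorem s41_pp_022 : ∃ t, chk3 f_pp_022 t 4 2 1 = true := ex3_a k0_pp_022 s40_pp_022

theorem s42_pp_022 : ∃ t, chk3 f_pp_022 t 4 1 1 = true := ex3_b s41_pp_022 s35_pp_022

theorem s43_pp_022 : ∃ t, chk3 f_pp_022 t 2 1 1 = true := ex3_a s42_pp_022 s30_pp_022

theorem s44_pp_022 : ∃ t, chk3 f_pp_022 t 1 1 1 = true := ex3_a s43_pp_022 s24_pp_022

theorem c_pp_022 : CertFX 0 536870912 1073741824 536870912 1046898278 26843546 false true true .pp 0 2 2
    ndF0q0 ndF5q2 pcF2 Cut.none Ext.none :=
  certFX2 (fam := false) (s1 := true) (s2 := true) (a := 0) (b := 2) (c := 2) (cn := .pp) (n1 := ndF0q0) (n2 := ndF5q2) (pc := pcF2) (cut := Cut.none) (xt := Ext.none) (P1 := 0) (W1 := 536870912) (P2 := 1073741824) (W2 := 536870912) (P3 := 1046898278) (W3 := 26843546)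
    rfl (fun _ => rfl) s44_pp_022

noncomputable def f_pp_023 : ℕ → ℕ → ℕ → ℕ → Bool := onCell 1073741824 536870912 0 1230186008 1046898278 26843546
    (rowFX 2 false true true .up 0 2 3 (qsf 0 536870912 0 1230186008 2) ndF0q0 ndF5q3 pcF2 Cut.none Ext.none)

def k0_pp_023 : ∃ t, chk3 f_pp_023 t 2 2 1 = true :=
  ⟨(l 2), by decide +kernel⟩

def k1_pp_023 : ∃ t, chk3 f_pp_023 t 2 6 1 = true :=
  ⟨(b (l 2) (a (l 2) (a (l 2) (a (l 2) (c (c (l 16776776) (l 16776776)) (l 183173735463)))))), by decide +kernel⟩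

def k2_pp_023 : ∃ t, chk3 f_pp_023 t 2 14 1 = true :=
  ⟨(a (l 2) (b (a (a (l 2) (a (l 2) (a (l 2) (c (l 32848194855) (l 16223096))))) (a (c (a (c (l 16305168) (l 16374680)) (l 16638272)) (a (l 16399976) (l 16637112))) (c (l 16776832) (l 16776800)))) (a (a (b (l 2) (a (l 16034976) (a (l 15929216) (a (l 15886056) (a (l 15903984) (l 15921648)))))) (c (c (l 16035488) (a (l 15773888) (l 16208680))) (a (b (l 15930568) (l 16015992)) (l 16098448)))) (a (c (a (c (l 16431832) (l 16384136)) (l 16642376)) (a (l 16405664) (l 16645648))) (c (l 16776848) (l 16776856)))))), by decide +kernel⟩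

def k3_pp_023 : ∃ t, chk3 f_pp_023 t 2 30 1 = true :=
  ⟨(a (a (l 2) (a (b (l 2) (a (c (a (l 16341760) (l 16355368)) (a (c (l 16333272) (l 16327624)) (l 16344416))) (c (a (l 16348104) (l 16343328)) (a (c (l 16339744) (l 16334176)) (l 16332056))))) (a (c (a (l 16304920) (l 16287512)) (a (l 16292656) (l 16274792))) (c (l 16236192) (b (l 16197976) (l 16245400)))))) (a (a (a (c (l 16124104) (l 16086168)) (a (c (l 16021128) (l 16001488)) (a (l 15963816) (a (l 15972704) (b (l 15962600) (l 16004384)))))) (c (l 16178352) (l 16162800))) (a (c (a (l 16318664) (l 16655840)) (a (l 16444880) (l 16655168))) (c (l 16776880) (l 16776880))))), by decide +kernel⟩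

def k4_pp_023 : ∃ t, chk3 f_pp_023 t 2 31 1 = true :=
  ⟨(a (a (a (l 3) (a (l 3) (a (a (b (b (l 2) (c (l 16278416) (c (l 16268688) (l 621863195991)))) (l 3)) (c (b (c (l 16313696) (l 16307016)) (c (l 16324112) (l 16317944))) (b (c (l 346985368151) (c (l 16296392) (b (l 16289720) (l 16297376)))) (c (c (l 16313504) (l 16310536)) (c (l 382418855383) (b (l 16303424) (l 404967441367))))))) (c (c (b (a (l 16325280) (l 16341560)) (a (l 16343472) (l 16354400))) (b (a (l 16318744) (l 16335640)) (a (l 16337368) (l 16348688)))) (c (b (a (l 16312832) (l 16329944)) (a (l 16331688) (c (l 16344536) (l 16341776)))) (b (a (b (l 16303280) (l 16313480)) (a (l 16320048) (l 16325320))) (a (c (l 16327432) (l 16324600)) (b (l 16334400) (l 16341536))))))))) (a (a (c (a (b (l 16360712) (a (c (l 16373336) (l 16368056)) (l 16387816))) (b (l 16378520) (l 16401976))) (a (b (c (l 16352592) (l 16347184)) (a (c (l 16362776) (b (l 16352688) (l 16362272))) (l 16356728))) (c (l 16382880) (b (l 16365576) (l 16389792)))))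 (c (a (b (l 16379208) (l 16405712)) (b (l 16369776) (l 16393248))) (a (b (l 16368872) (l 16396064)) (b (c (l 16361840) (l 16356552)) (c (l 16385768) (l 16380776)))))) (a (b (c (l 16350032) (l 16317968)) (a (c (l 16388040) (a (l 16381032) (l 16369968))) (l 16376744))) (c (l 16329688) (b (l 16293304) (l 16341840)))))) (a (a (a (c (l 16231424) (b (l 16188864) (l 16244600))) (a (c (l 16130752) (l 16113960)) (a (l 16069168) (a (l 16065888) (a (l 16042304) (l 16066928)))))) (c (l 16241120) (l 16227192))) (a (c (l 16582424) (l 16577360)) (c (b (l 16777032) (l 16776928)) (l 16803120))))), by decide +kernel⟩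

def k5_pp_023 : ∃ t, chk3 f_pp_023 t 3 1 1 = true :=
  ⟨(b (a (l 2) (b (a (l 2) (l 16759464)) (b (l 329202377991) (a (l 16750656) (l 16750656))))) (b (b (a (a (l 2) (l 16777168)) (c (l 16777168) (l 16777168))) (a (b (a (c (l 353898594167) (l 16777184)) (l 16777184)) (c (a (l 16777216) (a (l 16777216) (l 16777216))) (a (l 16777216) (l 16777216)))) (c (l 16777200) (l 16777200)))) (a (b (c (a (b (l 16777216) (l 16777216)) (a (l 16777216) (l 16777216))) (a (b (l 16777216) (l 16777216)) (a (l 16777216) (l 16777216)))) (a (b (c (c (l 16777216) (l 16777216)) (l 16777216)) (c (a (l 16772344) (b (l 16773904) (l 16615432))) (a (l 16772224) (b (l 16773824) (a (l 16723432) (l 16643584)))))) (b (a (c (l 16776088) (l 16776056)) (b (l 16775776) (c (l 16702208) (l 16700264)))) (a (b (c (a (l 16738192) (l 16667400)) (a (l 16737176) (l 16664552))) (c (l 16413928) (l 16406128))) (c (l 16115392) (b (l 16494616) (l 16214776))))))) (b (a (b (c (l 16777216) (l 16777216)) (a (l 16775736) (b (l 16772592) (c (l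 16695560) (l 16693440))))) (b (a (l 16770152) (b (l 16755520) (l 16654184))) (b (a (l 16679368) (l 16465976)) (l 16139280)))) (b (a (a (b (l 16659552) (l 16446344)) (c (l 16264504) (l 16191536))) (a (c (l 16008384) (l 15928768)) (b (l 15989360) (c (l 15690592) (l 15662368))))) (a (b (c (l 16018712) (l 15959792)) (c (a (l 15957688) (l 15669104)) (a (l 15936400) (l 15613896)))) (a (b (l 15472984) (c (l 15257520) (l 15322424))) (b (c (l 15291880) (l 15327880)) (c (l 14808320) (b (l 15098880) (l 14944840))))))))))), by decide +kernel⟩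

theorem s6_pp_023 : ∃ t, chk3 f_pp_023 t 2 15 1 = true := ex3_b k3_pp_023 k4_pp_023

theorem s7_pp_023 : ∃ t, chk3 f_pp_023 t 2 7 1 = true := ex3_b k2_pp_023 s6_pp_023

theorem s8_pp_023 : ∃ t, chk3 f_pp_023 t 2 3 1 = true := ex3_b k1_pp_023 s7_pp_023

theorem s9_pp_023 : ∃ t, chk3 f_pp_023 t 2 1 1 = true := ex3_b k0_pp_023 s8_pp_023

theorem s10_pp_023 : ∃ t, chk3 f_pp_023 t 1 1 1 = true := ex3_a s9_pp_023 k5_pp_023

theorem c_pp_023 : CertFX 0 536870912 0 1230186008 1046898278 26843546 false true true .up 0 2 3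
    ndF0q0 ndF5q3 pcF2 Cut.none Ext.none :=
  certFX2 (fam := false) (s1 := true) (s2 := true) (a := 0) (b := 2) (c := 3) (cn := .up) (n1 := ndF0q0) (n2 := ndF5q3) (pc := pcF2) (cut := Cut.none) (xt := Ext.none) (P1 := 0) (W1 := 536870912) (P2 := 0) (W2 := 1230186008) (P3 := 1046898278) (W3 := 26843546)
    rfl (fun _ => rfl) s10_pp_023

noncomputable def f_pp_033 : ℕ → ℕ → ℕ → ℕ → Bool := onCell 1610612736 536870912 0 1230186008 1046898278 26843546
    (rowFX 2 false true true .pnn 0 3 3 (qsf 0 536870912 0 1230186008 3) ndF0q0 ndF5q3 pcF3 Cut.none Ext.none)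

def k0_pp_033 : ∃ t, chk3 f_pp_033 t 2 2 1 = true :=
  ⟨(a (b (a (l 16759464) (l 16759464)) (a (b (l 16738040) (l 16750656)) (b (l 16738040) (c (l 16751120) (l 16750224))))) (a (b (c (l 16764288) (l 16757496)) (b (c (l 16743080) (l 16729256)) (a (l 16750656) (b (l 16733416) (l 16712672))))) (b (a (c (l 16764288) (l 16757496)) (l 4)) (b (a (l 16689144) (c (l 16653048) (l 16632344))) (a (b (l 16657488) (l 16530328)) (c (l 16374704) (l 16338808))))))), by decide +kernel⟩

def k1_pp_033 : ∃ t, chk3 f_pp_033 t 2 6 1 = true :=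
  ⟨(a (b (a (l 16777168) (b (l 16777192) (l 16713760))) (a (b (l 16772376) (a (l 16747616) (l 16625616))) (b (a (l 16684064) (l 16491416)) (a (l 16384560) (l 16149416))))) (a (a (b (b (l 16724432) (l 16539664)) (b (l 16241728) (l 15861960))) (b (b (l 16554256) (l 16293632)) (b (l 15905752) (c (l 15518288) (l 15527704))))) (b (c (a (l 16176056) (l 15881984)) (a (l 16160432) (b (l 16036032) (l 15702680)))) (b (c (a (l 15692008) (l 15200456)) (a (l 15638328) (l 15350720))) (a (c (b (l 15347232) (l 15139656)) (b (l 15316304) (l 15123112))) (c (b (l 15055440) (l 14868528)) (b (l 15050672) (a (l 14910696) (l 14774088))))))))), by decide +kernel⟩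

def k2_pp_033 : ∃ t, chk3 f_pp_033 t 2 7 1 = true :=
  ⟨(a (b (a (b (a (b (l 16616000) (l 16427744)) (l 16213472)) (b (l 15869088) (a (l 15972048) (l 15654624)))) (b (a (l 15901176) (c (l 15689056) (l 15680656))) (c (a (b (l 15634272) (l 15354832)) (b (l 15320896) (l 15057776))) (b (l 15347360) (a (l 15318352) (l 14926104)))))) (b (a (c (b (a (l 15688000) (l 15331744)) (a (l 15390856) (l 14995120))) (b (l 15316976) (a (l 15341384) (l 14840304)))) (c (b (a (l 15075688) (l 14819848)) (l 14727872)) (b (a (l 14901568) (c (l 14797000) (l 14660312))) (a (c (l 14800360) (l 14558880)) (l 14562408))))) (a (c (b (a (b (l 15140272) (l 14983504)) (l 14813456)) (a (l 14790776) (l 14584960))) (b (a (b (l 15118240) (l 14894912)) (c (l 14789992) (l 14547952))) (a (b (l 14614712) (l 14682968)) (l 14530880)))) (c (l 14400488) (b (l 51031059127) (l 1)))))) (b (a (b (c (a (b (l 15497200) (l 15272280)) (b (l 15217872) (l 14982928))) (a (l 15212016) (b (l 15189496) (l 14808040)))) (c (a (b (l 15026336) (l 14805024))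 (l 14695840)) (a (b (l 14894776) (c (l 14780760) (l 14727248))) (b (c (l 14752864) (l 14739848)) (l 14545984))))) (b (c (a (l 136931151271) (l 14625576)) (a (b (l 14771736) (l 14480136)) (b (l 154110773479) (l 1)))) (l 1))) (b (a (c (l 14419120) (b (l 14294024) (l 1))) (l 1)) (l 1)))), by decide +kernel⟩

def k3_pp_033 : ∃ t, chk3 f_pp_033 t 3 1 1 = true :=
  ⟨(b (a (b (l 4) (b (l 4) (a (a (c (l 16100016) (l 141429986935)) (l 4)) (l 4)))) (l 4)) (b (a (a (b (a (c (b (l 15756688) (l 15330568)) (b (l 15730176) (l 15383232))) (c (b (a (l 15489776) (l 15348368)) (a (l 15190072) (l 15038720))) (b (l 15358840) (a (l 15161712) (l 15012552))))) (c (b (a (b (l 15147696) (l 14965136)) (l 14769088)) (a (l 14734584) (l 14532232))) (b (a (b (l 15125024) (l 14832352)) (a (b (l 14913688) (l 14744920)) (l 256116347943))) (a (b (c (l 14776984) (l 14765544)) (l 14606728)) (l 14474288))))) (b (b (l 4) (a (a (a (c (l 14931808) (l 14924056)) (l 4)) (l 4)) (l 4))) (a (c (l 250210276711) (b (a (l 14598016) (l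 1)) (l 1))) (l 1)))) (l 4)) (l 1))), by decide +kernel⟩

theorem s4_pp_033 : ∃ t, chk3 f_pp_033 t 2 3 1 = true := ex3_b k1_pp_033 k2_pp_033

theorem s5_pp_033 : ∃ t, chk3 f_pp_033 t 2 1 1 = true := ex3_b k0_pp_033 s4_pp_033

theorem s6_pp_033 : ∃ t, chk3 f_pp_033 t 1 1 1 = true := ex3_a s5_pp_033 k3_pp_033

theorem c_pp_033 : CertFX 0 536870912 0 1230186008 1046898278 26843546 false true true .pnn 0 3 3
    ndF0q0 ndF5q3 pcF3 Cut.none Ext.none :=
  certFX2 (fam := false) (s1 := true) (s2 := true) (a := 0) (b := 3) (c := 3) (cn := .pnn) (n1 := ndF0q0) (n2 := ndF5q3) (pc := pcF3) (cut := Cut.none) (xt := Ext.none) (P1 := 0) (W1 := 536870912) (P2 := 0) (W2 := 1230186008) (P3 := 1046898278) (W3 := 26843546)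
    rfl (fun _ => rfl) s6_pp_033

noncomputable def f_pp_101 : ℕ → ℕ → ℕ → ℕ → Bool := onCell 0 536870912 536870912 469762048 1046898278 26843546
    (rowFX 2 false true true .npn 1 0 1 (qsf 536870912 536870912 536870912 469762048 0) ndF0q1 ndF5q1 pcF0 Cut.none Ext.none)

def k0_pp_101 : ∃ t, chk3 f_pp_101 t 1 1 1 = true :=
  ⟨(l 3), by decide +kernel⟩

theorem c_pp_101 : CertFX 536870912 536870912 536870912 469762048 1046898278 26843546 false true true .npn 1 0 1
    ndF0q1 ndF5q1 pcF0 Cut.none Ext.none :=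
  certFX2 (fam := false) (s1 := true) (s2 := true) (a := 1) (b := 0) (c := 1) (cn := .npn) (n1 := ndF0q1) (n2 := ndF5q1) (pc := pcF0) (cut := Cut.none) (xt := Ext.none) (P1 := 536870912) (W1 := 536870912) (P2 := 536870912) (W2 := 469762048) (P3 := 1046898278) (W3 := 26843546)
    rfl (fun _ => rfl) k0_pp_101

noncomputable def f_pp_102 : ℕ → ℕ → ℕ → ℕ → Bool := onCell 536870912 536870912 0 536870912 1046898278 26843546
    (rowFX 1 false true true .npp 1 0 2 (qsf 536870912 536870912 1073741824 536870912 0) ndF0q1 ndF5q2 pcF0 Cut.none Ext.none)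

def k0_pp_102 : ∃ t, chk3 f_pp_102 t 1 1 1 = true :=
  ⟨(l 3), by decide +kernel⟩

theorem c_pp_102 : CertFX 536870912 536870912 1073741824 536870912 1046898278 26843546 false true true .npp 1 0 2
    ndF0q1 ndF5q2 pcF0 Cut.none Ext.none :=
  certFX1 (fam := false) (s1 := true) (s2 := true) (a := 1) (b := 0) (c := 2) (cn := .npp) (n1 := ndF0q1) (n2 := ndF5q2) (pc := pcF0) (cut := Cut.none) (xt := Ext.none) (P1 := 536870912) (W1 := 536870912) (P2 := 1073741824) (W2 := 536870912) (P3 := 1046898278) (W3 := 26843546)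
    rfl (fun _ => rfl) k0_pp_102

noncomputable def f_pp_112 : ℕ → ℕ → ℕ → ℕ → Bool := onCell 536870912 536870912 1073741824 536870912 1046898278 26843546
    (rowFX 0 false true true .dn 1 1 2 (qsf 536870912 536870912 1073741824 536870912 1) ndF0q1 ndF5q2 pcF1 Cut.none Ext.none)

def k0_pp_112 : ∃ t, chk3 f_pp_112 t 1 1 1 = true :=
  ⟨(a (l 3) (l 3)), by decide +kernel⟩

theorem c_pp_112 : CertFX 536870912 536870912 1073741824 536870912 1046898278 26843546 false true true .dn 1 1 2
    ndF0q1 ndF5q2 pcF1 Cut.none Ext.none :=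
  certFX0 (fam := false) (s1 := true) (s2 := true) (a := 1) (b := 1) (c := 2) (cn := .dn) (n1 := ndF0q1) (n2 := ndF5q2) (pc := pcF1) (cut := Cut.none) (xt := Ext.none) (P1 := 536870912) (W1 := 536870912) (P2 := 1073741824) (W2 := 536870912) (P3 := 1046898278) (W3 := 26843546)
    rfl k0_pp_112

noncomputable def cut_pp_113 : Cut := Cut.of [[⟨0, 1, 0, 67108864⟩, ⟨1, 1, 0, 67108864⟩, ⟨2, 2, 0, 67108864⟩, ⟨3, 0, 0, 1233125376⟩]]

noncomputable def f_pp_113 : ℕ → ℕ → ℕ → ℕ → Bool := onCell 536870912 536870912 0 1230186008 1046898278 26843546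
    (rowFX 2 false true true .nn 1 1 3 (qsf 536870912 536870912 0 1230186008 1) ndF0q1 ndF5q3 pcF1 cut_pp_113 Ext.none)

def k0_pp_113 : ∃ t, chk3 f_pp_113 t 1 1 1 = true :=
  ⟨(b (a (l 2) (a (l 2) (b (a (l 2) (a (l 2) (l 6))) (l 3)))) (a (b (l 3) (b (l 3) (l 3))) (b (a (l 3) (l 3)) (l 3)))), by decide +kernel⟩

theorem c_pp_113 : CertFX 536870912 536870912 0 1230186008 1046898278 26843546 false true true .nn 1 1 3
    ndF0q1 ndF5q3 pcF1 cut_pp_113 Ext.none :=
  certFX2 (fam := false) (s1 := true) (s2 := true) (a := 1) (b := 1) (c := 3) (cn := .nn) (n1 := ndF0q1) (n2 := ndF5q3) (pc := pcF1) (cut := cut_pp_113) (xt := Ext.none) (P1 := 536870912) (W1 := 536870912) (P2 := 0) (W2 := 1230186008) (P3 := 1046898278) (W3 := 26843546)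
    rfl (fun _ => rfl) k0_pp_113

noncomputable def cut_pp_123 : Cut := Cut.of [[⟨0, 1, 0, 67108864⟩, ⟨1, 1, 0, 67108864⟩, ⟨2, 2, 0, 67108864⟩, ⟨3, 0, 0, 1233125376⟩]]

noncomputable def f_pp_123 : ℕ → ℕ → ℕ → ℕ → Bool := onCell 1073741824 536870912 0 1230186008 1046898278 26843546
    (rowFX 2 false true true .npn 1 2 3 (qsf 536870912 536870912 0 1230186008 2) ndF0q1 ndF5q3 pcF2 cut_pp_123 Ext.none)

def k0_pp_123 : ∃ t, chk3 f_pp_123 t 8 4 1 = true :=
  ⟨(a (l 6) (b (a (l 6) (a (c (b (l 16450776) (a (l 6) (b (l 16515944) (l 6)))) (b (l 16543968) (l 16498104))) (c (b (l 16342664) (b (l 16425488) (b (l 16419696) (l 16414712)))) (b (l 16415448) (l 16400456))))) (b (a (l 6) (c (c (a (c (l 16503696) (a (l 16484896) (l 16454280))) (c (a (l 16431024) (l 16381552)) (l 16402288))) (a (c (l 16443688) (b (l 16456384) (l 16372312))) (l 16362504))) (a (l 16355240) (l 16295920)))) (a (c (c (a (l 16405240) (l 16368392)) (a (b (l 6) (l 16242576)) (c (l 16096072) (l 16275464)))) (a (c (l 16065576) (l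 16144272)) (c (l 16097400) (l 16194072)))) (c (a (c (c (l 16351256) (b (l 16349080) (l 16279792))) (c (l 16285672) (a (l 16271232) (l 16262152)))) (c (c (a (l 16308408) (l 16275136)) (l 16268456)) (c (l 16251992) (a (l 16244944) (l 16217056))))) (a (c (b (l 16272864) (l 16223176)) (l 16196232)) (l 16188216))))))), by decide +kernel⟩

def k1_pp_123 : ∃ t, chk3 f_pp_123 t 32 5 1 = true :=
  ⟨(b (b (l 6) (l 3)) (l 3)), by decide +kernel⟩

def k2_pp_123 : ∃ t, chk3 f_pp_123 t 132 5 1 = true :=
  ⟨(b (b (a (l 6) (a (l 6) (b (l 6) (b (l 6) (c (c (l 16053456) (l 15967392)) (l 15814752)))))) (c (a (a (b (b (b (l 6) (c (l 15951120) (l 15881104))) (l 3)) (l 3)) (b (c (b (a (l 15973016) (l 15982640)) (a (l 15938760) (l 15947592))) (c (l 15912072) (c (l 15887688) (l 15869784)))) (b (c (l 15917248) (l 15867192)) (l 3)))) (b (a (c (b (c (l 16015008) (l 15979152)) (l 15962232)) (c (l 15931152) (l 15916824))) (c (c (b (l 16031216) (l 15995632)) (l 15979672)) (c (l 15948592) (l 15911992)))) (c (a (b (l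 15934512) (l 15914136)) (b (l 15953520) (l 15932008))) (c (c (l 15906992) (l 15896512)) (l 15876728))))) (c (b (a (l 15803464) (c (l 15858936) (l 15814480))) (l 15787488)) (b (a (l 15713520) (l 15752424)) (l 15740664))))) (a (l 3) (b (b (a (l 3) (b (c (c (l 15914560) (l 15884272)) (l 15813144)) (l 3))) (l 3)) (l 3)))), by decide +kernel⟩

def k3_pp_123 : ∃ t, chk3 f_pp_123 t 133 5 1 = true :=
  ⟨(b (b (b (l 6) (b (l 6) (c (c (a (l 16074880) (c (l 16120408) (l 16077864))) (a (c (l 16011608) (l 15963040)) (l 16007688))) (c (a (l 15883144) (l 15904664)) (l 15801888))))) (a (c (c (b (c (l 16033520) (b (l 16020512) (l 15990104))) (c (b (l 15991000) (l 15970112)) (l 15957824))) (c (b (c (l 15979000) (l 15962160)) (c (l 15941424) (l 15929496))) (b (l 15930424) (l 15905200)))) (b (c (l 15865400) (l 15786704)) (c (l 15855040) (l 15793712)))) (c (c (b (c (l 16065904) (l 16032648)) (b (l 16011480) (l 15992552))) (b (l 15972712) (b (l 15949376) (l 15940336)))) (b (l 15847040) (b (l 15844752) (l 15849688))))))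 (b (c (c (b (a (c (l 15943656) (l 15928144)) (c (l 15973952) (l 15959712))) (a (l 412483019127) (c (l 15950424) (l 15942160)))) (c (b (a (c (l 15917288) (l 15909400)) (l 15942576)) (a (c (l 15905968) (l 15901520)) (l 15931080))) (b (a (l 15890784) (l 15917720)) (a (l 15887760) (l 15911936))))) (c (b (a (l 15851832) (l 15880536)) (a (l 15858488) (l 15883168))) (b (a (l 15804592) (l 15836688)) (a (l 15822464) (l 15849624))))) (b (a (l 3) (c (c (c (l 15940728) (l 530594421431)) (a (l 448990070263) (l 15933536))) (c (l 15899240) (l 15874592)))) (l 3)))), by decide +kernel⟩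

def k4_pp_123 : ∃ t, chk3 f_pp_123 t 67 5 1 = true :=
  ⟨(a (b (b (b (l 6) (c (a (c (c (l 16159384) (l 16113392)) (l 16038792)) (l 16141144)) (c (a (l 15936600) (l 15953928)) (l 15864824)))) (c (c (c (b (a (l 16089528) (l 16107720)) (a (l 16040568) (l 16062328))) (b (a (l 16053928) (l 16070392)) (a (l 16014064) (l 16031936)))) (b (l 15998048) (l 15969496))) (b (c (c (l 15931360) (l 15894784)) (l 15846488)) (c (l 15901880) (l 15849488))))) (c (b (c (b (c (l 16017984) (l 15997144)) (a (c (l 15979440) (l 15971224)) (l 15997936))) (b (l 15957336) (l 15954368))) (c (b (c (a (l 15969760) (c (l 15997664) (l 15997336))) (a (b (l 15967488) (l 15969280)) (l 15990560))) (c (b (a (l 15971936) (l 16000088)) (a (l 15984720) (l 16010616))) (a (a (l 15976544) (l 15989672)) (b (l 15997304) (l 16011552))))) (b (b (l 15957136) (l 15960824)) (b (l 15969504) (l 15968824))))) (b (b (l 15885592) (c (l 15917544) (l 15887696))) (b (c (b (l 15927768) (l 15935568)) (l 15908768)) (c (b (l 15927432) (l 15953880))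 (b (l 15932200) (l 15962944))))))) (b (c (b (b (c (l 16238856) (l 16132224)) (l 16114752)) (b (l 16064448) (c (a (l 16062720) (l 16074472)) (l 15998640)))) (b (b (c (l 16036016) (l 15956128)) (l 15944280)) (b (l 15918384) (a (l 15906072) (l 15922272))))) (c (b (b (c (a (l 16034928) (l 16048584)) (l 15983424)) (c (l 16024744) (l 15979792))) (b (c (l 16019856) (l 15986248)) (c (a (c (b (l 16002592) (c (l 16033768) (l 16032104))) (l 15999336)) (l 16036528)) (b (l 16003984) (l 15996352))))) (b (b (l 15917912) (l 15929368)) (b (l 15949104) (a (b (l 15967448) (c (l 15993992) (l 15983488))) (l 15985904))))))), by decide +kernel⟩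

def k5_pp_123 : ∃ t, chk3 f_pp_123 t 17 10 1 = true :=
  ⟨(a (c (c (b (a (a (l 16209104) (l 16216680)) (l 16218096)) (a (b (l 16127104) (l 16095504)) (b (l 16141752) (l 16109808)))) (b (a (a (b (l 16150824) (l 16084256)) (b (l 16167416) (l 16102792))) (c (l 16164696) (l 16139632))) (a (a (l 16026784) (b (l 16056960) (l 16034456))) (b (l 16061688) (l 16035624))))) (b (a (b (a (l 16038264) (l 16073728)) (l 15998048)) (c (l 16104320) (l 16061256))) (a (b (l 15964704) (l 15961656)) (c (l 15993216) (l 16005408))))) (c (b (c (a (l 16225144) (c (l 16181528) (l 16161248))) (a (c (l 16168720) (l 16150528)) (c (l 16147616) (b (l 16161472) (l 16119808))))) (c (a (l 16123600) (c (l 16114352) (l 16102568))) (a (l 16089400) (c (l 16095848) (l 16084888))))) (b (a (c (a (l 16128536) (l 16138232)) (l 16100432)) (c (c (l 16141960) (l 16123368)) (l 16089080))) (a (c (l 16061600) (l 16048248)) (c (a (l 16079848) (l 16086656)) (l 16075600)))))), by decide +kernel⟩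

def k6_pp_123 : ∃ t, chk3 f_pp_123 t 17 11 1 = true :=
  ⟨(c (a (b (a (a (b (a (l 16029784) (l 16038320)) (c (l 16047464) (l 16000008))) (b (l 16051368) (l 16042312))) (b (c (l 16087416) (l 16041744)) (c (l 16079608) (l 16041488)))) (a (b (a (a (l 16019808) (l 16028400)) (a (l 16039952) (l 16047816))) (a (b (l 16032888) (l 16039448)) (c (l 16066504) (l 16033912)))) (b (c (l 16078392) (l 16025064)) (a (c (l 16079024) (l 16047096)) (l 16071704))))) (b (a (c (b (l 16094544) (l 16082240)) (b (l 16067872) (l 16060256))) (c (b (l 16089216) (l 16086176)) (b (l 16079208) (l 16077704)))) (a (b (c (l 16085544) (l 16064744)) (l 16082296)) (c (a (l 16089400) (l 16096200)) (l 16081912))))) (a (b (a (a (b (l 15949512) (l 15957224)) (l 15979256)) (b (a (l 16002088) (l 16016968)) (l 16018544))) (a (b (a (l 15972152) (l 16001440)) (a (l 15997184) (l 16013600))) (b (l 16028992) (a (l 16030096) (l 16041536))))) (b (a (c (b (l 16051184) (l 16043656)) (b (l 16042920) (l 16041648))) (b (c (l 16065192) (l 16073048))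 (c (a (l 16070912) (l 16070056)) (l 16072360)))) (a (b (l 16053408) (l 16056608)) (c (b (l 16063256) (a (l 16073328) (l 16077920))) (b (l 16063352) (l 16060208))))))), by decide +kernel⟩

def k7_pp_123 : ∃ t, chk3 f_pp_123 t 9 4 1 = true :=
  ⟨(a (b (c (a (c (l 15975856) (l 16073408)) (c (l 15874736) (l 15863088))) (a (b (l 16078552) (c (l 16200672) (l 16179048))) (b (l 15833160) (l 15858480)))) (c (a (c (b (c (a (l 16285208) (l 16135024)) (l 16207808)) (a (c (l 16210264) (l 16193736)) (c (l 16098288) (l 16072440)))) (b (l 16194824) (a (l 16160560) (l 16046568)))) (b (c (l 15900000) (l 15890920)) (c (l 15880880) (l 15849272)))) (a (b (c (l 16154024) (l 16121512)) (l 16001672)) (b (l 15805344) (l 15818864))))) (b (c (a (b (l 15317824) (l 15523464)) (b (a (l 15200936) (l 15052792)) (a (l 15233784) (l 15044296)))) (a (b (l 15240928) (l 15363336)) (b (a (l 15158896) (l 15006488)) (a (l 15191824) (l 14997368))))) (c (a (b (a (l 15641200) (l 15458192)) (a (l 15636648) (l 15467168))) (b (l 15178272)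 (l 15231264))) (a (b (a (l 15600464) (l 15419568)) (a (l 15601320) (l 15437160))) (b (l 15139952) (l 15203256)))))), by decide +kernel⟩

def k8_pp_123 : ∃ t, chk3 f_pp_123 t 18 5 1 = true :=
  ⟨(b (c (a (b (a (c (c (l 16107568) (l 16097304)) (c (l 16093504) (b (l 16097416) (l 16071920)))) (c (c (l 16010520) (l 16006760)) (c (l 15998872) (l 15985216)))) (c (a (l 16057512) (b (l 15971112) (l 15969352))) (a (c (l 16045896) (b (l 16050984) (l 16039880))) (c (l 15970520) (b (l 15967728) (l 15972720)))))) (b (c (a (c (l 15905088) (l 15891768)) (l 15766824)) (l 15818272)) (c (c (a (l 15879712) (l 15798896)) (a (l 15886096) (l 15801544))) (a (c (l 15890952) (l 15881408)) (l 15791392))))) (a (b (l 15948120) (c (a (c (l 15932864) (l 16052464)) (b (l 15959568) (a (l 16017880) (l 15946952)))) (l 15994928))) (b (l 15719728) (a (l 15876864) (l 15787696))))) (a (a (b (c (c (l 16057808) (b (l 16047040) (l 16058064))) (c (b (c (l 16042136) (l 16053544)) (l 16050400)) (b (l 16061264) (l 16062752)))) (c (b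 (l 16066792) (l 16078824)) (c (b (l 16041784) (l 16058672)) (l 16062504)))) (c (b (c (l 15999880) (b (l 15983072) (l 16000032))) (c (l 16031920) (l 16022464))) (b (c (b (c (l 16003664) (l 15984160)) (l 16017000)) (l 15988416)) (c (b (l 16009760) (l 16005480)) (l 16017808))))) (c (b (c (c (l 15887208) (a (l 15929048) (l 15861200))) (a (c (l 15928832) (b (l 15924112) (l 15940296))) (c (l 15867800) (b (l 15845280) (l 15876184))))) (c (l 15948000) (a (b (l 15952672) (l 15976264)) (c (l 15900040) (b (l 15892376) (l 15905824)))))) (b (c (b (l 15881056) (a (l 15911088) (l 15866264))) (l 15887112)) (c (a (b (l 15974584) (l 15973024)) (c (b (l 15912272) (l 15925976)) (l 15916528))) (b (l 15908656) (l 15925408))))))), by decide +kernel⟩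

def k9_pp_123 : ∃ t, chk3 f_pp_123 t 19 5 1 = true :=
  ⟨(b (c (a (b (a (l 15632296) (l 15500376)) (c (c (a (l 15711304) (l 15597672)) (l 15649288)) (l 15646952))) (b (l 15311112) (l 15420096))) (a (b (a (l 15620464) (l 15489464)) (l 15536032)) (b (l 15296392) (l 15406520)))) (c (a (b (c (a (c (l 15787184) (l 15793592)) (c (l 15700728) (l 15694752))) (a (c (l 15791192) (l 15778808)) (l 15681048))) (a (c (b (l 15823584) (l 15859848)) (c (l 15836432) (b (l 15822184) (l 15847832)))) (c (c (l 15749800) (l 15752208)) (c (l 15756056) (b (l 15724120) (l 15758688)))))) (b (c (c (l 15528856) (l 15524272)) (l 15516360)) (c (c (l 15611872) (l 15610616)) (b (l 15569936) (c (l 15611960) (l 15602376)))))) (a (b (l 15489792) (c (a (b (l 15810144) (c (l 15867560) (l 15832896))) (l 15730552)) (l 15766080))) (b (l 15500520) (l 15566912))))), by decide +kernel⟩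

def k10_pp_123 : ∃ t, chk3 f_pp_123 t 5 2 1 = true :=
  ⟨(a (a (b (a (b (a (b (l 14894264) (c (l 14896744) (l 14803736))) (l 14777800)) (c (b (a (l 14916536) (l 14805624)) (l 14908056)) (b (a (l 14875520) (c (l 14768296) (l 14758320))) (l 14916784)))) (b (l 14988864) (a (c (b (l 14892000) (l 14873288)) (b (b (l 14844088) (l 14847136)) (c (l 14886384) (l 14878768)))) (b (l 15079080) (b (l 15083072) (c (l 15109384) (l 15084008))))))) (a (b (c (b (l 15055448) (l 15178256)) (b (l 15033960) (l 15157744))) (c (b (l 15293480) (b (l 15359136) (l 15403048))) (b (l 15265976) (l 15347056)))) (b (a (c (b (l 15004728) (l 15119824)) (b (l 14981808) (l 15097384))) (c (b (l 15149648) (l 15247504)) (b (l 15130512) (l 15228208)))) (c (a (b (l 15227096) (l 15307584)) (b (l 15334920) (l 15395368))) (a (b (l 15197560) (l 15270792)) (b (l 15308040) (l 15360832))))))) (b (b (l 15462024) (b (l 15615464) (l 15619344))) (b (a (c (b (l 15352752) (l 15486176)) (b (l 15193504) (l 15473048))) (b (l 15825752) (c (l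 15851192) (l 15847224)))) (c (b (a (l 15563032) (l 15884736)) (a (l 15610240) (l 15916040))) (b (a (l 15541912) (l 15872056)) (l 15652248)))))) (a (b (b (l 16185712) (a (l 16211640) (l 16570744))) (b (b (l 16292600) (l 16307656)) (a (b (c (l 16239464) (l 16236144)) (c (l 16240592) (l 16227696))) (c (b (l 16568112) (l 16582144)) (b (l 16563968) (l 16578264)))))) (b (b (l 16764200) (l 16762264)) (b (l 16737576) (b (l 16733920) (a (c (l 16768520) (l 16768288)) (l 16769224))))))), by decide +kernel⟩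

def k11_pp_123 : ∃ t, chk3 f_pp_123 t 3 2 1 = true :=
  ⟨(a (a (b (b (l 16764712) (l 16762760)) (b (l 16738040) (c (l 16751120) (l 16750224)))) (b (a (l 16759464) (l 16759464)) (b (l 16738040) (l 16750656)))) (b (a (l 16759464) (l 16759464)) (b (a (l 16738040) (l 16738040)) (c (l 16751120) (l 16750224))))), by decide +kernel⟩

def k12_pp_123 : ∃ t, chk3 f_pp_123 t 16 6 1 = true :=
  ⟨(b (a (l 3) (a (l 3) (a (b (c (a (a (l 3) (b (c (l 15997672) (l 15997448)) (l 3))) (c (c (b (l 16013256) (l 15971336)) (l 16014776)) (l 16004224))) (c (b (l 15982176) (l 15982208)) (l 279338967335))) (l 3)) (c (b (c (a (c (b (l 16034056) (l 16036192)) (l 16028520)) (c (l 16051688) (l 16042832))) (b (l 16020960) (l 16022872))) (c (c (b (a (l 16036216) (l 16055248)) (l 273970351287)) (l 16040080)) (l 267527910967))) (b (b (c (l 16006352) (l 15996376)) (c (l 16008920) (l 15999016))) (c (l 16017128) (l 16007336))))))) (b (b (l 3) (l 3)) (l 3))), by decide +kernel⟩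

def k13_pp_123 : ∃ t, chk3 f_pp_123 t 17 12 1 = true :=
  ⟨(a (c (a (b (a (b (l 16045312) (a (c (l 16059392) (l 16039592)) (l 16056560))) (b (l 16061688) (l 16071440))) (a (c (b (l 16028304) (l 16071664)) (b (a (l 16046872) (l 16055408)) (a (l 16056872) (l 16063128)))) (b (l 16081072) (c (l 16104288) (l 16086760))))) (c (b (a (l 16093808) (l 16106472)) (a (l 16115616) (l 16126320))) (b (a (b (l 16059712) (l 16070544)) (l 16080464)) (a (l 16091992) (l 16103304))))) (a (b (a (b (l 16011480) (a (l 16020656) (l 16025696))) (l 16032424)) (c (a (b (l 16040584) (l 16043360)) (l 16069432)) (a (b (l 16031208) (l 16034016)) (l 16060424)))) (b (a (b (l 16043136) (l 16054512)) (b (l 16056200) (l 16072048))) (a (l 16076768) (l 16089648))))) (a (b (c (c (l 16113912) (l 16094000)) (l 16080784)) (c (a (c (l 16139192) (l 16120072)) (b (l 16130832) (l 16146776))) (a (l 16107360) (l 16119872)))) (b (c (c (l 16123024) (l 16111304)) (l 16098416)) (c (l 16150040) (l 16132048))))), by decide +kernel⟩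

def k14_pp_123 : ∃ t, chk3 f_pp_123 t 17 13 1 = true :=
  ⟨(b (a (c (a (a (c (b (l 16077088) (l 16077064)) (b (l 16063568) (l 16063544))) (c (b (l 16110024) (l 16112016)) (b (l 16094160) (l 16096960)))) (a (b (l 16121024) (a (l 16127936) (l 16136824))) (l 16143704))) (a (a (c (l 16052536) (l 16043304)) (c (l 16042544) (l 16054696))) (a (c (l 16096632) (l 16088232)) (l 16120840)))) (a (c (a (c (l 16163968) (l 16147048)) (c (l 16173752) (l 16160128))) (a (l 16134848) (l 16148184))) (a (b (l 16160688) (c (l 16185864) (l 16169016))) (l 16177544)))) (a (a (a (b (c (l 298129612935) (l 309940755687)) (l 3)) (c (c (l 16119968) (l 16107368)) (c (l 16097704) (l 16089048)))) (c (a (c (l 16154720) (l 16098552)) (c (l 16186576) (l 16172632))) (a (c (l 16089536) (b (l 16122496) (l 16125744))) (c (l 16164568) (l 16114824))))) (a (c (c (l 16199352) (l 16185544)) (c (l 16177912) (l 16170272))) (c (a (l 16205384) (l 16217208)) (a (l 16189176) (l 16202296)))))), by decide +kernel⟩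

def k15_pp_123 : ∃ t, chk3 f_pp_123 t 8 14 1 = true :=
  ⟨(a (l 3) (a (a (a (l 3) (b (a (l 3) (b (c (l 16138640) (l 16121896)) (l 3))) (l 3))) (c (b (a (c (l 16166384) (l 16154952)) (c (l 16198568) (b (l 16180632) (l 16192104)))) (c (a (l 16166384) (l 16212552)) (b (l 305109072871) (l 300277234663)))) (a (b (c (l 318530855335) (b (l 16138440) (l 16096496))) (a (l 3) (b (l 16173272) (l 3)))) (b (b (c (l 16172736) (l 16165032)) (c (l 16184440) (l 16176888))) (c (b (l 16200312) (l 320678430759)) (b (l 16192960) (b (l 16201776) (l 16205808)))))))) (c (b (a (a (b (l 16206136) (c (l 16226888) (l 16215696))) (l 16228608)) (c (l 16248824) (l 16240216))) (a (a (b (c (l 16237480) (l 16227176)) (c (l 16249888) (l 16240896))) (b (l 16250784) (c (l 16271224) (l 16262512)))) (c (l 16279680) (l 16271832)))) (b (a (a (b (l 16188320) (c (l 16208448) (l 16201208))) (l 16212352)) (c (l 16233288) (l 16226352))) (b (a (a (c (l 16220080) (l 16212984)) (l 16235552)) (l 16253864)) (a (a (c (l 16233976) (l 16227056))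 (c (l 16255864) (a (l 16244008) (l 16252152)))) (c (l 16273216) (l 16266800)))))))), by decide +kernel⟩

def k16_pp_123 : ∃ t, chk3 f_pp_123 t 8 15 1 = true :=
  ⟨(a (l 3) (b (b (a (a (l 3) (a (l 3) (a (l 3) (c (l 16217816) (c (l 16228176) (l 687898256471)))))) (c (a (a (c (l 16265096) (l 16257128)) (c (l 16282488) (l 16274336))) (a (c (l 16298088) (l 16290824)) (l 16304464))) (a (a (c (l 16250416) (c (l 16245384) (l 16242032))) (c (l 16246880) (a (l 16258992) (l 16266944)))) (a (c (l 16284544) (l 16257296)) (l 16291984))))) (a (l 3) (c (a (a (c (l 16274856) (l 16267752)) (c (l 16299232) (l 16291832))) (a (c (l 16312336) (l 16305408)) (l 16320496))) (a (a (c (l 340542830151) (c (l 16256248) (l 375976297831))) (c (l 16285568) (c (l 16280872) (l 16277744)))) (a (c (l 16299320) (c (l 16294752) (l 16291704))) (c (l 16311432) (l 16305496))))))) (a (l 3) (b (c (a (a (c (l 16280384) (l 16273776)) (c (l 16313696) (l 16307016))) (c (a (l 16325280) (l 16341560)) (a (l 16318744) (l 16335640)))) (a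 (a (c (l 510194049879) (b (l 380271281191) (l 621863195991))) (c (l 60162083415) (c (l 16296392) (l 72510102503)))) (b (a (c (l 16309240) (l 16303280)) (c (l 16324688) (l 16318920))) (l 1)))) (l 1))))), by decide +kernel⟩

def k17_pp_123 : ∃ t, chk3 f_pp_123 t 9 12 1 = true :=
  ⟨(a (a (a (b (c (l 16163512) (b (c (l 16065608) (l 16067600)) (l 16100560))) (c (l 16146456) (l 16130088))) (b (c (l 16068792) (c (c (l 16048656) (l 16051016)) (l 16047896))) (l 16107984))) (c (b (c (l 16002648) (a (l 16023200) (l 15958640))) (a (l 16070760) (l 16035416))) (b (a (c (b (l 15982552) (l 16024120)) (l 16016880)) (c (c (l 15938808) (l 15951320)) (l 15965992))) (c (c (a (l 16043096) (l 16016472)) (l 16032888)) (b (l 15958960) (l 16017072)))))) (c (a (b (c (l 15855488) (a (c (l 15907440) (l 15893288)) (c (l 15814816) (b (l 15800960) (l 15831896))))) (c (a (l 15994456) (l 15915120)) (a (l 15984520) (l 15898288)))) (b (c (c (l 15682264) (l 15681992)) (c (b (l 15665760) (l 15702288)) (b (l 15691472) (a (l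 15750232) (l 15655248))))) (c (l 15784432) (c (b (l 15739000) (l 15797672)) (b (a (l 15784048) (l 15702392)) (l 15779224)))))) (a (b (c (a (c (b (l 15900016) (l 15908272)) (l 15911040)) (c (l 15843888) (l 15833544))) (a (c (l 15901632) (l 15879296)) (l 15796128))) (a (c (b (l 15939936) (l 15995504)) (c (l 15980288) (l 15972432))) (c (c (l 15875040) (l 15889912)) (l 15890840)))) (c (b (b (l 15638888) (l 15710680)) (c (a (l 15816056) (l 15748696)) (l 15780960))) (b (l 15648984) (l 15739104)))))), by decide +kernel⟩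

def k18_pp_123 : ∃ t, chk3 f_pp_123 t 9 13 1 = true :=
  ⟨(b (a (a (a (l 16176408) (l 16154544)) (b (b (l 16084792) (l 16098240)) (l 16119416))) (c (a (a (l 15961208) (l 15864264)) (c (l 15760344) (b (l 15840952) (l 15891896)))) (b (a (c (a (l 16021528) (l 15961064)) (a (l 15987416) (l 15957416))) (c (l 15677120) (l 15842744))) (a (a (l 16052752) (c (l 15929296) (l 15977144))) (c (a (l 15918664) (l 15813760)) (l 15801792)))))) (a (a (a (a (c (l 16225112) (l 16210768)) (l 16211944)) (c (l 16208080) (l 16193296))) (c (l 16169456) (l 16153672))) (c (a (l 16010376) (b (l 15936104) (l 15967288))) (a (a (l 16100840) (l 16047864)) (c (b (l 15760072) (l 15719056)) (b (l 15825736) (l 15896992))))))), by decide +kernel⟩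

def k19_pp_123 : ∃ t, chk3 f_pp_123 t 9 7 1 = true :=
  ⟨(a (a (a (b (b (c (a (l 16253664) (l 16259408)) (a (l 16240064) (l 16245960))) (c (b (l 16285832) (l 16304368)) (b (l 16273072) (l 16292088)))) (b (c (b (l 16323000) (l 16341760)) (c (b (l 16314152) (l 16333272)) (b (l 16308248) (l 16327624)))) (b (b (c (l 16355880) (l 16344936)) (l 1)) (l 1)))) (b (b (c (l 16254560) (b (l 16227984) (l 16252600))) (c (b (l 16287800) (l 16305080)) (b (l 16275088) (c (l 16295888) (l 16289752))))) (b (c (b (l 16332456) (l 16355368)) (b (l 16320904) (l 16344416))) (l 1)))) (b (b (c (l 16224296) (l 16209936)) (c (a (b (l 16274840) (l 16302648)) (l 16268160)) (a (b (l 16261792) (l 16290320)) (l 16254936)))) (b (c (a (b (l 16327920) (l 16348104)) (b (l 16311344) (l 16343328))) (a (c (l 81099994487) (a (l 16323904) (l 16324720))) (b (l 16299240) (l 16332056)))) (l 1)))) (b (a (b (c (l 16077720) (a (l 16164608) (l 16123224))) (c (a (l 16242272) (l 16213344)) (a (l 16228384) (l 16198704)))) (b (c (l 16053384)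 (l 16034584)) (c (l 16144384) (l 16065032)))) (b (a (c (a (l 16304920) (l 16287512)) (a (l 16292656) (l 16274792))) (c (l 16236192) (b (l 16197976) (l 1)))) (l 1)))), by decide +kernel⟩

def k20_pp_123 : ∃ t, chk3 f_pp_123 t 10 6 1 = true :=
  ⟨(a (a (b (c (b (c (c (l 15504472) (l 15504936)) (b (l 15448840) (c (l 15512712) (l 15499504)))) (c (c (l 15591208) (l 15525592)) (c (b (l 15571064) (l 15611640)) (b (l 15604056) (a (l 15658440) (l 15571688)))))) (b (l 15451424) (c (a (l 15656960) (l 15521656)) (l 15555112)))) (b (c (c (l 15708392) (c (l 15686024) (b (l 15657048) (l 15706592)))) (c (c (l 15524280) (l 15677968)) (l 15683112))) (c (b (c (l 15787752) (l 15773832)) (a (l 15873536) (l 15790280))) (b (c (l 15700200) (l 15766832)) (c (a (l 15840136) (l 15738136)) (l 15816936)))))) (b (c (a (b (c (c (l 15424472) (l 15407816)) (l 15394432)) (c (c (l 15513864) (l 15516888)) (c (l 15512416) (l 15492472)))) (b (l 15471304) (c (a (a (l 15467032) (l 15553528)) (l 15601176)) (l 15545208)))) (a (b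 (l 15367672) (l 15471816)) (l 15332680))) (c (a (b (c (l 15601600) (c (l 15595104) (b (l 15577704) (l 15616984)))) (c (l 15713584) (c (l 15703152) (l 15692000)))) (b (c (b (l 15491360) (l 15657968)) (c (l 15444576) (b (l 15602912) (l 15649536)))) (c (l 15722984) (b (l 15682552) (l 15729536))))) (c (a (b (l 15512768) (l 15628616)) (b (l 15513056) (l 15533792))) (b (l 15581184) (a (l 15681632) (l 15692824))))))) (b (c (b (c (l 15821528) (l 15809040)) (a (c (c (l 15760912) (l 15745536)) (l 15735456)) (l 16012104))) (a (l 15680200) (l 15966200))) (c (b (a (c (c (l 15817232) (l 15818352)) (b (l 15787256) (l 15781856))) (c (c (l 16075984) (l 16097664)) (l 16058616))) (a (c (l 15876472) (b (l 15840128) (l 15894000))) (c (c (l 16115432) (l 16114784)) (l 16023976)))) (b (l 15767064) (c (a (l 15879960) (l 16117048)) (l 15970528)))))), by decide +kernel⟩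

def k21_pp_123 : ∃ t, chk3 f_pp_123 t 10 7 1 = true :=
  ⟨(a (b (b (c (b (a (l 15876576) (a (l 15787136) (l 15774304))) (a (l 15940992) (a (l 15824984) (a (l 15797504) (a (l 15830312) (l 15861088)))))) (a (b (c (l 15648888) (l 15824376)) (l 15919272)) (a (c (l 15673744) (b (l 15760752) (l 15789808))) (b (l 15487368) (a (c (l 15778416) (l 15761624)) (a (l 15793800) (l 15828080))))))) (a (c (l 16018776) (l 15999072)) (a (l 15902384) (a (l 15860560) (a (l 15882328) (b (l 15889216) (l 15921648))))))) (a (b (c (l 16124104) (l 16086168)) (l 1)) (l 1))) (b (c (b (a (b (c (l 15936792) (l 15925800)) (l 15973376)) (c (l 16169776) (l 16104704))) (c (l 16035488) (a (l 15773888) (l 16208680)))) (b (a (c (l 15840664) (l 15938192)) (l 16141736)) (a (b (l 15930568) (l 16015992)) (l 16098448)))) (l 1))), by decide +kernel⟩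

def k22_pp_123 : ∃ t, chk3 f_pp_123 t 11 3 1 = true :=
  ⟨(b (a (a (b (c (l 16103816) (l 16269216)) (c (b (l 16330152) (c (l 16358616) (l 16353984))) (l 16188416))) (b (c (l 16487128) (l 16587096)) (c (b (l 16609864) (l 16610888)) (l 16590808)))) (c (b (a (c (l 16776224) (l 16776208)) (l 16777168)) (c (l 16776776) (l 16776776))) (b (a (l 16776192) (l 16777168)) (c (l 16776768) (l 16776760))))) (b (b (a (c (a (c (l 16305168) (l 16374680)) (l 16638272)) (a (l 16399976) (l 16637112))) (c (l 16776832) (l 16776800))) (l 1)) (l 1))), by decide +kernel⟩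

def k23_pp_123 : ∃ t, chk3 f_pp_123 t 3 3 1 = true :=
  ⟨(b (a (a (a (c (b (l 16777168) (l 16777200)) (b (l 16777168) (l 16777200))) (b (l 16777168) (c (l 16777200) (l 16777200)))) (b (l 16777168) (b (l 16777184) (l 1)))) (b (l 414497898167) (l 1))) (l 1)), by decide +kernel⟩

theorem s24_pp_123 : ∃ t, chk3 f_pp_123 t 10 3 1 = true := ex3_b k20_pp_123 k21_pp_123

theorem s25_pp_123 : ∃ t, chk3 f_pp_123 t 5 3 1 = true := ex3_a s24_pp_123 k22_pp_123

theorem s26_pp_123 : ∃ t, chk3 f_pp_123 t 9 6 1 = true := ex3_b k17_pp_123 k18_pp_123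

theorem s27_pp_123 : ∃ t, chk3 f_pp_123 t 9 3 1 = true := ex3_b s26_pp_123 k19_pp_123

theorem s28_pp_123 : ∃ t, chk3 f_pp_123 t 8 7 1 = true := ex3_b k15_pp_123 k16_pp_123

theorem s29_pp_123 : ∃ t, chk3 f_pp_123 t 17 6 1 = true := ex3_b k13_pp_123 k14_pp_123

theorem s30_pp_123 : ∃ t, chk3 f_pp_123 t 8 6 1 = true := ex3_a k12_pp_123 s29_pp_123

theorem s31_pp_123 : ∃ t, chk3 f_pp_123 t 8 3 1 = true := ex3_b s30_pp_123 s28_pp_123

theorem s32_pp_123 : ∃ t, chk3 f_pp_123 t 4 3 1 = true := ex3_a s31_pp_123 s27_pp_123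

theorem s33_pp_123 : ∃ t, chk3 f_pp_123 t 2 3 1 = true := ex3_a s32_pp_123 s25_pp_123

theorem s34_pp_123 : ∃ t, chk3 f_pp_123 t 1 3 1 = true := ex3_a s33_pp_123 k23_pp_123

theorem s35_pp_123 : ∃ t, chk3 f_pp_123 t 9 5 1 = true := ex3_a k8_pp_123 k9_pp_123

theorem s36_pp_123 : ∃ t, chk3 f_pp_123 t 9 2 1 = true := ex3_b k7_pp_123 s35_pp_123

theorem s37_pp_123 : ∃ t, chk3 f_pp_123 t 17 5 1 = true := ex3_b k5_pp_123 k6_pp_123

theorem s38_pp_123 : ∃ t, chk3 f_pp_123 t 66 5 1 = true := ex3_a k2_pp_123 k3_pp_123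

theorem s39_pp_123 : ∃ t, chk3 f_pp_123 t 33 5 1 = true := ex3_a s38_pp_123 k4_pp_123

theorem s40_pp_123 : ∃ t, chk3 f_pp_123 t 16 5 1 = true := ex3_a k1_pp_123 s39_pp_123

theorem s41_pp_123 : ∃ t, chk3 f_pp_123 t 8 5 1 = true := ex3_a s40_pp_123 s37_pp_123

theorem s42_pp_123 : ∃ t, chk3 f_pp_123 t 8 2 1 = true := ex3_b k0_pp_123 s41_pp_123

theorem s43_pp_123 : ∃ t, chk3 f_pp_123 t 4 2 1 = true := ex3_a s42_pp_123 s36_pp_123

theorem s44_pp_123 : ∃ t, chk3 f_pp_123 t 2 2 1 = true := ex3_a s43_pp_123 k10_pp_123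

theorem s45_pp_123 : ∃ t, chk3 f_pp_123 t 1 2 1 = true := ex3_a s44_pp_123 k11_pp_123

theorem s46_pp_123 : ∃ t, chk3 f_pp_123 t 1 1 1 = true := ex3_b s45_pp_123 s34_pp_123

theorem c_pp_123 : CertFX 536870912 536870912 0 1230186008 1046898278 26843546 false true true .npn 1 2 3
    ndF0q1 ndF5q3 pcF2 cut_pp_123 Ext.none :=
  certFX2 (fam := false) (s1 := true) (s2 := true) (a := 1) (b := 2) (c := 3) (cn := .npn) (n1 := ndF0q1) (n2 := ndF5q3) (pc := pcF2) (cut := cut_pp_123) (xt := Ext.none) (P1 := 536870912) (W1 := 536870912) (P2 := 0) (W2 := 1230186008) (P3 := 1046898278) (W3 := 26843546)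
    rfl (fun _ => rfl) s46_pp_123

noncomputable def f_pp_133 : ℕ → ℕ → ℕ → ℕ → Bool := onCell 536870912 536870912 0 1230186008 1046898278 26843546
    (rowFX 0 false true true .dn 1 3 3 (qsf 536870912 536870912 0 1230186008 3) ndF0q1 ndF5q3 pcF3 Cut.none Ext.none)

def k0_pp_133 : ∃ t, chk3 f_pp_133 t 1 1 1 = true :=
  ⟨(b (a (a (b (a (l 614750825159) (l 1)) (l 1)) (l 1)) (l 1)) (l 1)), by decide +kernel⟩

theorem c_pp_133 : CertFX 536870912 536870912 0 1230186008 1046898278 26843546 false true true .dn 1 3 3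
    ndF0q1 ndF5q3 pcF3 Cut.none Ext.none :=
  certFX0 (fam := false) (s1 := true) (s2 := true) (a := 1) (b := 3) (c := 3) (cn := .dn) (n1 := ndF0q1) (n2 := ndF5q3) (pc := pcF3) (cut := Cut.none) (xt := Ext.none) (P1 := 536870912) (W1 := 536870912) (P2 := 0) (W2 := 1230186008) (P3 := 1046898278) (W3 := 26843546)
    rfl k0_pp_133

noncomputable def f_pp_202 : ℕ → ℕ → ℕ → ℕ → Bool := onCell 0 536870912 1073741824 536870912 1046898278 26843546
    (rowFX 0 false true true .pp 2 0 2 (qsf 0 536870912 1073741824 536870912 0) ndF0q2 ndF5q2 pcF0 Cut.none Ext.none)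

def k0_pp_202 : ∃ t, chk3 f_pp_202 t 1 1 1 = true :=
  ⟨(l 3), by decide +kernel⟩

theorem c_pp_202 : CertFX 0 536870912 1073741824 536870912 1046898278 26843546 false true true .pp 2 0 2
    ndF0q2 ndF5q2 pcF0 Cut.none Ext.none :=
  certFX0 (fam := false) (s1 := true) (s2 := true) (a := 2) (b := 0) (c := 2) (cn := .pp) (n1 := ndF0q2) (n2 := ndF5q2) (pc := pcF0) (cut := Cut.none) (xt := Ext.none) (P1 := 0) (W1 := 536870912) (P2 := 1073741824) (W2 := 536870912) (P3 := 1046898278) (W3 := 26843546)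
    rfl k0_pp_202

noncomputable def f_pp_203 : ℕ → ℕ → ℕ → ℕ → Bool := onCell 0 536870912 0 1230186008 1046898278 26843546
    (rowFX 0 false true true .up 2 0 3 (qsf 0 536870912 0 1230186008 0) ndF0q2 ndF5q3 pcF0 Cut.none Ext.none)

def k0_pp_203 : ∃ t, chk3 f_pp_203 t 1 1 1 = true :=
  ⟨(b (l 2) (l 3)), by decide +kernel⟩

theorem c_pp_203 : CertFX 0 536870912 0 1230186008 1046898278 26843546 false true true .up 2 0 3
    ndF0q2 ndF5q3 pcF0 Cut.none Ext.none :=
  certFX0 (fam := false) (s1 := true) (s2 := true) (a := 2) (b := 0) (c := 3) (cn := .up) (n1 := ndF0q2) (n2 := ndF5q3) (pc := pcF0) (cut := Cut.none) (xt := Ext.none) (P1 := 0) (W1 := 536870912) (P2 := 0) (W2 := 1230186008) (P3 := 1046898278) (W3 := 26843546)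
    rfl k0_pp_203

noncomputable def cut_pp_213 : Cut := Cut.of [[⟨0, 1, 0, 67108864⟩, ⟨1, 1, 0, 67108864⟩, ⟨2, 2, 0, 67108864⟩, ⟨3, 0, 0, 1233125376⟩]]

noncomputable def f_pp_213 : ℕ → ℕ → ℕ → ℕ → Bool := onCell 0 536870912 0 1230186008 1046898278 26843546
    (rowFX 0 false true true .pnn 2 1 3 (qsf 0 536870912 0 1230186008 1) ndF0q2 ndF5q3 pcF1 cut_pp_213 Ext.none)

def k0_pp_213 : ∃ t, chk3 f_pp_213 t 1 1 1 = true :=
  ⟨(b (a (l 3) (b (a (l 3) (a (l 3) (b (l 6) (l 3)))) (l 3))) (l 3)), by decide +kernel⟩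

theorem c_pp_213 : CertFX 0 536870912 0 1230186008 1046898278 26843546 false true true .pnn 2 1 3
    ndF0q2 ndF5q3 pcF1 cut_pp_213 Ext.none :=
  certFX0 (fam := false) (s1 := true) (s2 := true) (a := 2) (b := 1) (c := 3) (cn := .pnn) (n1 := ndF0q2) (n2 := ndF5q3) (pc := pcF1) (cut := cut_pp_213) (xt := Ext.none) (P1 := 0) (W1 := 536870912) (P2 := 0) (W2 := 1230186008) (P3 := 1046898278) (W3 := 26843546)
    rfl k0_pp_213

noncomputable def f_pm_001 : ℕ → ℕ → ℕ → ℕ → Bool := onCell 0 536870912 536870912 469762048 1046898278 26843546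
    (rowFX 0 false true false .up 0 0 1 (qsf 0 536870912 536870912 469762048 0) ndF0q0 ndF5q1 pcF0 Cut.none Ext.none)

def k0_pm_001 : ∃ t, chk3 f_pm_001 t 1 1 1 = true :=
  ⟨(l 4), by decide +kernel⟩

theorem c_pm_001 : CertFX 0 536870912 536870912 469762048 1046898278 26843546 false true false .up 0 0 1
    ndF0q0 ndF5q1 pcF0 Cut.none Ext.none :=
  certFX0 (fam := false) (s1 := true) (s2 := false) (a := 0) (b := 0) (c := 1) (cn := .up) (n1 := ndF0q0) (n2 := ndF5q1) (pc := pcF0) (cut := Cut.none) (xt := Ext.none) (P1 := 0) (W1 := 536870912) (P2 := 536870912) (W2 := 469762048) (P3 := 1046898278) (W3 := 26843546)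
    rfl k0_pm_001

noncomputable def f_pm_011 : ℕ → ℕ → ℕ → ℕ → Bool := onCell 0 536870912 536870912 469762048 1046898278 26843546
    (rowFX 0 false true false .pnn 0 1 1 (qsf 0 536870912 536870912 469762048 1) ndF0q0 ndF5q1 pcF1 Cut.none Ext.none)

def k0_pm_011 : ∃ t, chk3 f_pm_011 t 1 1 1 = true :=
  ⟨(l 4), by decide +kernel⟩

theorem c_pm_011 : CertFX 0 536870912 536870912 469762048 1046898278 26843546 false true false .pnn 0 1 1
    ndF0q0 ndF5q1 pcF1 Cut.none Ext.none :=
  certFX0 (fam := false) (s1 := true) (s2 := false) (a := 0) (b := 1) (c := 1) (cn := .pnn) (n1 := ndF0q0) (n2 := ndF5q1) (pc := pcF1) (cut := Cut.none) (xt := Ext.none) (P1 := 0) (W1 := 536870912) (P2 := 536870912) (W2 := 469762048) (P3 := 1046898278) (W3 := 26843546)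
    rfl k0_pm_011

noncomputable def f_pm_012 : ℕ → ℕ → ℕ → ℕ → Bool := onCell 0 536870912 536870912 536870912 1046898278 26843546
    (rowFX 1 false true false .pnp 0 1 2 (qsf 0 536870912 1073741824 536870912 1) ndF0q0 ndF5q2 pcF1 Cut.none Ext.none)

def k0_pm_012 : ∃ t, chk3 f_pm_012 t 2 2 1 = true :=
  ⟨(b (l 1) (b (l 1) (b (l 1) (l 4)))), by decide +kernel⟩

def k1_pm_012 : ∃ t, chk3 f_pm_012 t 3 4 1 = true :=
  ⟨(a (a (l 1) (b (l 1) (a (l 1) (b (l 1) (c (l 903049801383) (l 817150453783)))))) (a (b (a (l 1) (b (l 1) (c (l 843457267767) (l 786012080471)))) (a (b (c (l 844530960439) (l 771516516695)) (a (c (b (l 16717112) (l 16481376)) (l 16572608)) (c (l 16282760) (l 16355984)))) (b (a (c (l 16472400) (l 16593584)) (l 16172576)) (c (l 15825440) (l 16015888))))) (b (a (b (c (l 871911476567) (l 839699222135)) (a (c (l 16556288) (l 16593584)) (l 16214512))) (b (c (a (l 16598232) (l 16345680)) (l 16473752)) (c (l 15951272) (l 16015888)))) (a (c (b (l 15867384) (l 15518456)) (b (l 16015888)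 (l 15593336))) (c (b (l 15623312) (l 15246776)) (l 15207344)))))), by decide +kernel⟩

def k2_pm_012 : ∃ t, chk3 f_pm_012 t 6 5 1 = true :=
  ⟨(b (a (a (l 1) (a (l 1) (b (l 1) (c (l 16479232) (l 16516320))))) (b (a (c (b (l 1) (l 787085823127)) (l 782253752855)) (a (c (b (b (l 1) (l 16666608)) (l 16502328)) (l 16470808)) (c (l 16217632) (l 16312608)))) (a (c (a (l 16493440) (b (l 16544296) (l 16395744))) (b (l 16543832) (l 16371840))) (c (b (l 16033160) (l 15818776)) (l 15867528))))) (a (b (b (a (l 1) (c (l 16396624) (l 16411496))) (b (a (l 1) (c (l 16404248) (l 16420008))) (a (l 4) (c (l 16352952) (l 16390448))))) (a (l 4) (a (b (c (l 16431416) (l 16425296)) (l 4)) (c (b (l 16362840) (a (l 16472520) (l 16306312))) (b (l 16446560) (l 16322296)))))) (a (b (a (c (b (l 16453224) (l 16315640)) (b (l 16515520) (l 16372736))) (c (l 15954256) (l 16131176))) (c (b (a (l 16232064) (l 15982144)) (a (l 16142712) (l 15864112))) (b (l 15956912) (l 15777640)))) (a (b (c (l 15765168) (l 15914080)) (c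 (l 15427064) (l 15633336))) (b (c (l 15691216) (l 15665544)) (c (l 15406168) (l 15374328))))))), by decide +kernel⟩

def k3_pm_012 : ∃ t, chk3 f_pm_012 t 7 5 1 = true :=
  ⟨(b (a (a (b (c (c (l 23653837463) (l 15917064)) (l 15903016)) (c (a (l 15790120) (l 15572512)) (l 15631408))) (b (c (a (l 15729440) (l 15528592)) (l 15598208)) (c (a (l 15364840) (l 15167096)) (l 15225400)))) (a (b (c (l 15226248) (l 15207488)) (a (c (l 14988952) (l 14942520)) (b (l 14881840) (c (a (l 14845464) (l 14923952)) (l 14861016))))) (b (a (l 14964704) (b (l 14881840) (c (l 14783696) (l 14861016)))) (a (b (a (l 14799408) (l 14899888)) (l 15183688)) (l 15269592))))) (a (a (b (c (a (l 15460168) (l 15240224)) (l 15312944)) (a (c (l 15167264) (l 15128288)) (b (c (l 15013056) (l 14969016)) (c (a (b (l 14962256) (l 14980152)) (l 14987368)) (l 14988448))))) (b (a (c (l 15031968) (l 14987424)) (b (l 14891696) (c (a (l 14862608) (l 14926392)) (l 14870352)))) (b (a (c (a (l 14911376) (l 14963720)) (l 14915808)) (l 15086952))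 (a (l 15240680) (l 15525512))))) (a (b (a (b (c (a (l 14845464) (l 14923952)) (l 14861016)) (l 15183688)) (l 15227648)) (a (l 15616248) (l 15965648))) (b (a (l 15658192) (l 15986624)) (a (b (l 16343152) (l 16527232)) (c (l 16615832) (l 16708464))))))), by decide +kernel⟩

def k4_pm_012 : ∃ t, chk3 f_pm_012 t 2 3 1 = true :=
  ⟨(b (l 4) (l 4)), by decide +kernel⟩

def k5_pm_012 : ∃ t, chk3 f_pm_012 t 6 6 1 = true :=
  ⟨(b (a (b (l 4) (l 4)) (b (a (b (c (a (l 15890008) (l 15760856)) (a (l 16025824) (l 15741736))) (c (a (b (l 15958072) (l 15900112)) (l 15545520)) (a (l 15830816) (l 15651248)))) (a (c (b (l 15484152) (l 15385576)) (l 15362672)) (b (c (l 15221264) (l 15185632)) (c (b (a (l 15205120) (l 15159472)) (a (l 15241048) (l 15336736))) (b (l 15160312) (l 15266584)))))) (a (a (l 4) (b (c (a (l 15651688) (l 15528048)) (l 15565112)) (a (l 4) (c (b (l 15554104) (l 15735152)) (l 15447560))))) (b (a (c (b (a (l 15401800) (l 15346048)) (a (l 15457664) (l 15548272))) (b (l 15359720) (l 15489664)))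 (c (l 15602384) (l 15622312))) (a (b (l 15638440) (c (l 15954080) (l 15971800))) (c (l 15977624) (l 16139808))))))) (a (l 4) (a (l 4) (b (b (a (b (l 208539174759) (l 15900496)) (l 15888384)) (c (a (l 15730720) (l 15635184)) (l 98479567655))) (b (a (b (l 15365504) (l 4)) (c (b (l 15333984) (l 15178752)) (b (l 15297576) (l 15137536)))) (a (l 4) (c (l 15016496) (l 14970768)))))))), by decide +kernel⟩

def k6_pm_012 : ∃ t, chk3 f_pm_012 t 7 12 1 = true :=
  ⟨(a (b (b (a (a (c (a (b (l 15064336) (l 15089784)) (l 14936216)) (a (l 15051232) (l 15085256))) (l 15281184)) (a (l 15660512) (l 15924920))) (a (c (a (l 15456528) (l 15767296)) (l 15522320)) (a (l 16018120) (a (l 16295992) (l 16457128))))) (a (b (a (l 15700736) (c (l 16130496) (l 16215024))) (c (l 16137912) (l 16280320))) (a (b (c (l 16375032) (l 16496400)) (a (l 16265680) (l 16262208))) (b (b (l 16507528) (l 16598240)) (l 16410712))))) (b (a (a (b (l 16322184) (l 16422656)) (b (c (l 16675360) (l 16672712)) (l 16776872))) (l 16777008))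 (a (b (l 16673960) (l 16511328)) (c (a (l 16659776) (l 16763544)) (l 16692920))))), by decide +kernel⟩

def k7_pm_012 : ∃ t, chk3 f_pm_012 t 7 13 1 = true :=
  ⟨(a (a (b (b (a (l 15965856) (c (l 15906496) (l 15949280))) (a (c (l 15452728) (l 15569760)) (l 15663496))) (c (b (l 15389096) (l 15230448)) (l 15126672))) (b (a (a (l 15897752) (l 15866032)) (l 16087096)) (a (b (b (l 15623864) (l 15546648)) (l 15466656)) (b (l 15824640) (l 15714696))))) (b (a (a (l 16242320) (l 16404408)) (a (a (b (l 16538544) (c (l 16571088) (l 16578432))) (b (l 16637376) (c (l 16689512) (b (l 16618184) (l 16711656))))) (b (c (l 16743264) (a (l 16738352) (l 16771168))) (c (l 16742048) (c (l 16749664) (l 16754920)))))) (a (a (b (l 16087656) (l 15971432)) (b (a (l 16291480) (b (c (l 16501232) (l 16289088)) (c (l 16363416) (c (l 16407152) (l 16402352))))) (a (c (l 16101712) (b (l 16065712) (l 16072192))) (b (c (l 16242320) (l 16194240)) (c (l 16282696) (l 16113544)))))) (c (b (b (a (a (b (l 16556048) (l 16669032))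 (l 16731008)) (l 16767472)) (l 16625288)) (b (l 16471376) (l 16233440))) (a (b (b (c (a (l 16577896) (l 16740256)) (a (l 16575464) (l 16738824))) (c (l 16630688) (b (l 16676040) (l 16594752)))) (a (b (b (l 16510312) (l 16260432)) (l 16116424)) (l 16430088))) (b (b (b (l 16747672) (l 16769560)) (l 16679664)) (l 16439840))))))), by decide +kernel⟩

def k8_pm_012 : ∃ t, chk3 f_pm_012 t 3 14 1 = true :=
  ⟨(a (a (l 4) (a (l 4) (a (l 4) (b (b (l 14800128) (c (b (l 14692208) (l 14625024)) (l 14606992))) (l 4))))) (a (a (b (b (l 15050104) (a (c (l 14791712) (l 14739136)) (c (l 15039552) (l 14994592)))) (c (a (b (c (l 14604632) (l 14597192)) (c (l 14320264) (b (l 14461264) (l 14363792)))) (b (l 14849024) (a (l 14555296) (l 14681792)))) (a (b (l 14555632) (l 14379496)) (b (l 14810968) (l 14517264))))) (b (a (b (l 15354936) (c (l 15248832) (l 15209840))) (b (l 15591096) (c (l 15454368) (l 15420472)))) (b (a (c (l 15050632) (l 15014040)) (c (l 15297888) (a (l 15177672) (l 15096560)))) (c (a (l 14850304)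 (a (l 14895808) (l 15023656))) (a (l 14816536) (a (b (l 15056904) (l 14910704)) (b (l 15166080) (l 15026912)))))))) (a (a (b (b (a (l 15763424) (c (l 15900080) (l 15657776))) (b (c (l 15773288) (a (l 15649840) (l 15584424))) (c (l 15629368) (a (l 15519512) (l 15617856))))) (b (b (c (l 15495144) (l 15340784)) (c (l 15364648) (l 15334088))) (c (l 15163840) (b (l 15196288) (l 15077016))))) (b (b (c (b (l 15962288) (l 15976104)) (b (a (a (l 16001008) (l 16074784)) (l 16050176)) (l 15942680))) (b (a (l 15649640) (l 15835968)) (l 15671920))) (l 15344792))) (b (l 15874312) (c (l 15431192) (l 15396224)))))), by decide +kernel⟩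

def k9_pm_012 : ∃ t, chk3 f_pm_012 t 3 15 1 = true :=
  ⟨(a (l 4) (b (a (a (a (c (b (c (l 14313832) (c (l 14331936) (l 14338912))) (c (l 14116216) (l 14131200))) (c (b (l 14327768) (l 14139720)) (l 14123120))) (a (b (c (l 14343320) (l 14331856)) (c (l 14142288) (l 14141424))) (c (b (c (l 14412704) (l 14468336)) (b (l 14303224) (l 14055496))) (b (l 14444456) (a (l 14229352) (l 14295784)))))) (a (a (c (b (c (l 14585288) (l 14595320)) (b (l 14452632) (b (l 14376424) (l 14310336)))) (b (l 14566864) (b (l 14453000) (a (l 14328832) (l 14394576))))) (c (b (c (b (l 14787240) (l 14715448)) (l 14778200)) (b (c (l 14539216) (l 14587096)) (l 14383680))) (b (b (l 14753192) (l 14693352)) (b (l 14557976) (l 14418360))))) (b (c (b (b (c (l 14955336) (l 14938552)) (l 14879736)) (l 14636200)) (b (b (l 14780424) (l 14842680)) (l 14738080))) (l 14526440)))) (c (b (l 14990984) (l 14690072)) (b (l 14962288) (l 14706488)))) (a (a (a (b (c (l 13941232) (c (c (l 13934672) (l 13941576)) (l 13931568))) (l 4)) (c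 (b (b (c (l 14064776) (l 13985752)) (a (l 13920816) (l 13941872))) (l 13837512)) (b (a (c (b (a (l 13966920) (l 14036616)) (l 13934752)) (b (l 14048744) (l 13934504))) (b (a (l 14086000) (l 14167968)) (c (l 14034240) (l 14061232)))) (c (b (b (l 13902072) (l 13816072)) (l 13744240)) (b (c (a (l 13852528) (l 13900560)) (l 13892128)) (c (l 13732616) (b (l 13770688) (l 13692768)))))))) (b (c (b (c (l 14169880) (l 14201656)) (l 14038624)) (b (a (c (c (l 14259512) (l 14259568)) (l 14216232)) (l 14329632)) (c (l 14132584) (l 14138888)))) (c (l 13936880) (l 13921248)))) (c (b (l 14378176) (l 14182448)) (b (l 14432368) (c (l 14164048) (l 14164888))))))), by decide +kernel⟩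

theorem s10_pm_012 : ∃ t, chk3 f_pm_012 t 3 7 1 = true := ex3_b k8_pm_012 k9_pm_012

theorem s11_pm_012 : ∃ t, chk3 f_pm_012 t 7 6 1 = true := ex3_b k6_pm_012 k7_pm_012

theorem s12_pm_012 : ∃ t, chk3 f_pm_012 t 3 6 1 = true := ex3_a k5_pm_012 s11_pm_012

theorem s13_pm_012 : ∃ t, chk3 f_pm_012 t 3 3 1 = true := ex3_b s12_pm_012 s10_pm_012

theorem s14_pm_012 : ∃ t, chk3 f_pm_012 t 1 3 1 = true := ex3_a k4_pm_012 s13_pm_012

theorem s15_pm_012 : ∃ t, chk3 f_pm_012 t 3 5 1 = true := ex3_a k2_pm_012 k3_pm_012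

theorem s16_pm_012 : ∃ t, chk3 f_pm_012 t 3 2 1 = true := ex3_b k1_pm_012 s15_pm_012

theorem s17_pm_012 : ∃ t, chk3 f_pm_012 t 1 2 1 = true := ex3_a k0_pm_012 s16_pm_012

theorem s18_pm_012 : ∃ t, chk3 f_pm_012 t 1 1 1 = true := ex3_b s17_pm_012 s14_pm_012

theorem c_pm_012 : CertFX 0 536870912 1073741824 536870912 1046898278 26843546 false true false .pnp 0 1 2
    ndF0q0 ndF5q2 pcF1 Cut.none Ext.none :=
  certFX1 (fam := false) (s1 := true) (s2 := false) (a := 0) (b := 1) (c := 2) (cn := .pnp) (n1 := ndF0q0) (n2 := ndF5q2) (pc := pcF1) (cut := Cut.none) (xt := Ext.none) (P1 := 0) (W1 := 536870912) (P2 := 1073741824) (W2 := 536870912) (P3 := 1046898278) (W3 := 26843546)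
    rfl (fun _ => rfl) s18_pm_012

noncomputable def f_pm_022 : ℕ → ℕ → ℕ → ℕ → Bool := onCell 1073741824 536870912 1073741824 536870912 1046898278 26843546
    (rowFX 2 false true false .pp 0 2 2 (qsf 0 536870912 1073741824 536870912 2) ndF0q0 ndF5q2 pcF2 Cut.none Ext.none)

def k0_pm_022 : ∃ t, chk3 f_pm_022 t 1 1 1 = true :=
  ⟨(a (b (l 4) (a (b (l 4) (b (a (a (c (l 13900432) (c (a (l 13790672) (l 13922216)) (a (l 13773520) (l 13912736)))) (a (c (l 14085112) (l 14035920)) (l 4))) (l 4)) (a (c (a (l 14058752) (c (l 14237840) (l 14247808))) (a (c (l 14026112) (a (l 13961728) (l 14055320))) (c (l 14248896) (l 14222048)))) (a (c (a (l 14447032) (l 14591952)) (a (l 14417592) (l 14552384))) (c (l 14837504) (a (l 14695736) (l 4))))))) (l 4))) (l 4)), by decide +kernel⟩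

theorem c_pm_022 : CertFX 0 536870912 1073741824 536870912 1046898278 26843546 false true false .pp 0 2 2
    ndF0q0 ndF5q2 pcF2 Cut.none Ext.none :=
  certFX2 (fam := false) (s1 := true) (s2 := false) (a := 0) (b := 2) (c := 2) (cn := .pp) (n1 := ndF0q0) (n2 := ndF5q2) (pc := pcF2) (cut := Cut.none) (xt := Ext.none) (P1 := 0) (W1 := 536870912) (P2 := 1073741824) (W2 := 536870912) (P3 := 1046898278) (W3 := 26843546)
    rfl (fun _ => rfl) k0_pm_022

noncomputable def f_pm_023 : ℕ → ℕ → ℕ → ℕ → Bool := onCell 1073741824 536870912 0 1230186008 1046898278 26843546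
    (rowFX 2 false true false .up 0 2 3 (qsf 0 536870912 0 1230186008 2) ndF0q0 ndF5q3 pcF2 Cut.none Ext.none)

def k0_pm_023 : ∃ t, chk3 f_pm_023 t 1 2 1 = true :=
  ⟨(a (l 2) (a (l 2) (b (a (l 2) (l 539119124375)) (b (a (l 634681934775) (l 16738040)) (a (c (l 16751120) (l 16750224)) (c (l 16751120) (l 16750224))))))), by decide +kernel⟩

def k1_pm_023 : ∃ t, chk3 f_pm_023 t 2 3 1 = true :=
  ⟨(a (b (l 2) (b (l 2) (b (a (l 2) (a (c (a (l 14804968) (l 14866160)) (a (l 137535267607) (l 129482321431))) (c (l 14960952) (b (l 14938712) (l 14888296))))) (a (c (a (l 14312568) (c (l 14442928) (l 14449160))) (a (c (l 114448672615) (b (l 2) (l 14199288))) (c (l 14447832) (l 14422720)))) (a (c (a (l 14597328) (l 14693016)) (a (l 14567936) (l 14654400))) (c (b (l 14887896) (l 14850776)) (b (l 14838824) (l 14800736)))))))) (b (a (l 2) (a (l 2) (b (l 2) (c (l 306653217095) (b (l 2) (l 16347720)))))) (a (b (b (a (l 2) (c (l 15672328) (l 205719452119))) (a (a (c (l 15152240) (l 15110032)) (c (l 15316336)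 (l 15278392))) (c (l 15619472) (c (l 15596912) (l 15581880))))) (a (a (b (c (l 15131968) (l 15089232)) (c (l 15116152) (l 15073008))) (b (c (l 15304680) (l 15266432)) (c (l 15297344) (l 15258904)))) (b (c (l 15571176) (b (l 15549184) (l 15528136))) (c (l 15551672) (b (l 15519856) (l 4)))))) (b (a (c (b (l 16029400) (l 15923008)) (b (l 15863176) (l 15879848))) (c (b (l 16245944) (l 16143936)) (b (l 16232144) (b (l 16145656) (l 16102992))))) (b (a (c (l 15850496) (b (l 15831392) (l 15814952))) (c (l 16104528) (l 16066088))) (l 4)))))), by decide +kernel⟩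

def k2_pm_023 : ∃ t, chk3 f_pm_023 t 3 3 1 = true :=
  ⟨(b (b (a (a (l 2) (c (l 16771800) (a (l 16767048) (l 16777168)))) (a (c (l 16777168) (l 16777168)) (c (l 16777168) (l 16777168)))) (a (a (c (a (l 16486848) (l 16633040)) (a (b (l 16536672) (l 16464376)) (l 16608320))) (c (a (l 16761192) (l 16777200)) (a (l 16760776) (l 16777200)))) (a (c (a (l 16777200) (l 16777200)) (a (l 16777200) (l 16777200))) (l 4)))) (a (b (a (a (b (c (l 16401696) (l 16391944)) (c (l 16357192) (l 16346288))) (b (c (l 16588784) (l 16583888)) (l 4))) (a (b (c (l 16758000) (l 16757496)) (l 4)) (l 4))) (l 4)) (l 4))), by decide +kernel⟩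

theorem s3_pm_023 : ∃ t, chk3 f_pm_023 t 1 3 1 = true := ex3_a k1_pm_023 k2_pm_023

theorem s4_pm_023 : ∃ t, chk3 f_pm_023 t 1 1 1 = true := ex3_b k0_pm_023 s3_pm_023

theorem c_pm_023 : CertFX 0 536870912 0 1230186008 1046898278 26843546 false true false .up 0 2 3
    ndF0q0 ndF5q3 pcF2 Cut.none Ext.none :=
  certFX2 (fam := false) (s1 := true) (s2 := false) (a := 0) (b := 2) (c := 3) (cn := .up) (n1 := ndF0q0) (n2 := ndF5q3) (pc := pcF2) (cut := Cut.none) (xt := Ext.none) (P1 := 0) (W1 := 536870912) (P2 := 0) (W2 := 1230186008) (P3 := 1046898278) (W3 := 26843546)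
    rfl (fun _ => rfl) s4_pm_023

noncomputable def f_pm_033 : ℕ → ℕ → ℕ → ℕ → Bool := onCell 1610612736 536870912 0 1230186008 1046898278 26843546
    (rowFX 2 false true false .pnn 0 3 3 (qsf 0 536870912 0 1230186008 3) ndF0q0 ndF5q3 pcF3 Cut.none Ext.none)

def k0_pm_033 : ∃ t, chk3 f_pm_033 t 1 1 1 = true :=
  ⟨(a (b (a (b (a (l 16759464) (c (l 16764288) (l 16757496))) (b (a (l 16738040) (c (l 16743080) (l 16729256))) (c (a (l 16751120) (l 16751120)) (a (l 16750224) (l 16750224))))) (b (a (c (l 16764288) (l 16757496)) (l 4)) (l 4))) (b (a (a (b (a (l 16777168) (l 4)) (l 4)) (l 4)) (l 4)) (l 4))) (b (l 4) (l 4))), by decide +kernel⟩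

theorem c_pm_033 : CertFX 0 536870912 0 1230186008 1046898278 26843546 false true false .pnn 0 3 3
    ndF0q0 ndF5q3 pcF3 Cut.none Ext.none :=
  certFX2 (fam := false) (s1 := true) (s2 := false) (a := 0) (b := 3) (c := 3) (cn := .pnn) (n1 := ndF0q0) (n2 := ndF5q3) (pc := pcF3) (cut := Cut.none) (xt := Ext.none) (P1 := 0) (W1 := 536870912) (P2 := 0) (W2 := 1230186008) (P3 := 1046898278) (W3 := 26843546)
    rfl (fun _ => rfl) k0_pm_033

noncomputable def f_pm_101 : ℕ → ℕ → ℕ → ℕ → Bool := onCell 536870912 536870912 536870912 469762048 1046898278 26843546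
    (rowFX 0 false true false .npn 1 0 1 (qsf 536870912 536870912 536870912 469762048 0) ndF0q1 ndF5q1 pcF0 Cut.none Ext.none)

def k0_pm_101 : ∃ t, chk3 f_pm_101 t 1 1 1 = true :=
  ⟨(l 4), by decide +kernel⟩

theorem c_pm_101 : CertFX 536870912 536870912 536870912 469762048 1046898278 26843546 false true false .npn 1 0 1
    ndF0q1 ndF5q1 pcF0 Cut.none Ext.none :=
  certFX0 (fam := false) (s1 := true) (s2 := false) (a := 1) (b := 0) (c := 1) (cn := .npn) (n1 := ndF0q1) (n2 := ndF5q1) (pc := pcF0) (cut := Cut.none) (xt := Ext.none) (P1 := 536870912) (W1 := 536870912) (P2 := 536870912) (W2 := 469762048) (P3 := 1046898278) (W3 := 26843546)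
    rfl k0_pm_101

noncomputable def f_pm_102 : ℕ → ℕ → ℕ → ℕ → Bool := onCell 536870912 536870912 1073741824 536870912 1046898278 26843546
    (rowFX 0 false true false .npp 1 0 2 (qsf 536870912 536870912 1073741824 536870912 0) ndF0q1 ndF5q2 pcF0 Cut.none Ext.none)

def k0_pm_102 : ∃ t, chk3 f_pm_102 t 2 1 1 = true :=
  ⟨(a (b (a (b (b (c (b (l 16253952) (l 15824656)) (l 15785200)) (c (b (l 15430304) (l 2)) (l 15207024))) (l 2)) (b (b (c (b (l 16253952) (l 15824656)) (l 15785200)) (c (b (l 15430304) (l 15071624)) (l 15207024))) (b (b (c (b (l 14826840) (l 2)) (l 14861016)) (l 2)) (l 2)))) (l 2)) (a (b (b (b (c (b (l 16253952) (l 15824656)) (l 15869080)) (c (b (l 15430304) (l 15071624)) (l 15207024))) (b (b (b (c (l 14826840) (l 14776184)) (l 14967488)) (c (c (l 15603984) (l 15609896)) (l 15587304))) (b (c (c (l 16266808) (l 16345664)) (l 16296184)) (l 2)))) (l 2)) (b (b (b (c (b (l 16212008) (l 15824656)) (l 15869080)) (c (b (l 15430304) (l 15071624)) (l 15207024))) (b (b (c (b (c (l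 14839504) (l 14814176)) (c (l 15002296) (l 14979096))) (b (l 14776184) (l 14944288))) (c (c (l 15499128) (l 15609896)) (l 15587304))) (b (c (c (l 16245832) (l 16345664)) (l 16317152)) (c (l 16776672) (l 16776656))))) (b (c (l 16777216) (l 16777216)) (l 2))))), by decide +kernel⟩

def k1_pm_102 : ∃ t, chk3 f_pm_102 t 6 4 1 = true :=
  ⟨(b (a (b (a (c (l 16065168) (l 16240312)) (c (b (a (l 16224640) (l 16306776)) (a (l 16143296) (c (l 16113344) (l 16124880)))) (b (l 16309856) (l 16116136)))) (c (a (l 15824656) (c (l 15809840) (l 15818440))) (l 15799888))) (b (a (c (b (l 16224864) (l 16071168)) (l 16115768)) (a (b (l 16117400) (l 15985864)) (b (l 16081968) (l 15967200)))) (a (c (b (a (c (l 15923608) (l 15911384)) (l 15889456)) (a (l 15722656) (l 15714336))) (b (l 15873440) (l 15687904))) (c (a (l 15673320) (b (l 15855104) (l 15698088))) (l 15734200))))) (a (b (c (a (l 15430304) (l 15430304)) (l 15395320)) (c (a (b (l 15157816) (l 14987520)) (c (b (l 15168328) (l 14999136)) (l 15060544))) (l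 15027320))) (a (b (b (c (l 15525480) (l 15492960)) (c (l 15337184) (l 15299784))) (c (l 15071624) (l 15027320))) (b (b (a (c (l 15520224) (l 15485264)) (c (c (l 15540256) (l 15521128)) (l 15492432))) (a (c (c (l 15346520) (l 15327816)) (l 15299752)) (c (b (a (a (l 15382680) (l 15387072)) (l 15415616)) (a (l 15294304) (c (l 15335064) (l 15318944)))) (b (l 15364496) (l 15275184))))) (c (a (l 15071624) (c (b (l 15187200) (l 15018232)) (l 15081480))) (l 14934552)))))), by decide +kernel⟩

def k2_pm_102 : ∃ t, chk3 f_pm_102 t 14 8 1 = true :=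
  ⟨(b (a (a (c (l 16107064) (l 16039144)) (b (l 16158696) (l 16090312))) (b (a (l 16198264) (c (l 16295144) (l 16187248))) (a (l 16172448) (l 16268072)))) (b (a (c (l 15918008) (l 15916936)) (a (l 16080000) (l 16195720))) (a (a (l 15752032) (c (b (l 15894864) (l 15817696)) (l 15831464))) (c (a (b (l 15990024) (l 15913264)) (c (l 15956208) (l 15949328))) (a (l 15946504) (l 15939144)))))), by decide +kernel⟩

def k3_pm_102 : ∃ t, chk3 f_pm_102 t 15 16 1 = true :=
  ⟨(a (a (c (b (c (l 16411640) (l 16352992)) (l 16413048)) (l 16293696)) (b (c (a (l 16475992) (l 16452032)) (l 16402720)) (c (b (a (l 16535696) (l 16563064)) (l 16409736)) (l 16483528)))) (a (b (c (b (c (a (l 16565240) (b (l 16500024) (l 16583264))) (a (l 16559712) (l 16525448))) (c (l 16602320) (l 16751752))) (b (l 16460792) (l 16739552))) (c (b (c (l 16640688) (l 16615120)) (c (l 16416024) (l 16446480))) (b (l 16604784) (l 16441144)))) (a (c (b (b (c (b (a (l 16555112) (l 16526152)) (a (l 16589272) (l 16611960))) (b (a (l 16517400)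 (l 16476992)) (l 16567752))) (c (l 16557128) (l 16701632))) (b (l 16445944) (l 16478368))) (b (c (b (b (l 16439808) (l 16601016)) (l 16727232)) (l 16510216)) (b (l 16639624) (l 16469720)))) (b (c (b (b (a (c (l 16548176) (l 16495792)) (l 16500656)) (a (c (l 16575280) (l 16553320)) (c (l 16593832) (l 16542568)))) (c (a (l 16601704) (b (l 16662480) (l 16703056))) (a (l 16673856) (b (l 16641496) (l 16682104))))) (b (c (b (a (c (l 16484928) (l 16479936)) (b (l 16490312) (l 16444680))) (a (l 16583200) (b (l 16478096) (l 16572872)))) (a (c (l 16512520) (l 16559768)) (b (c (a (l 16513464) (l 16419880)) (c (l 16402464) (l 16506784))) (l 16445840)))) (c (a (l 16697032) (l 16633776)) (l 16658392)))) (c (b (c (l 16700136) (l 16710536)) (b (l 16611536) (c (l 16540512) (l 16478272)))) (b (l 16482856) (c (l 16412232) (l 16498368)))))))), by decide +kernel⟩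

def k4_pm_102 : ∃ t, chk3 f_pm_102 t 15 17 1 = true :=
  ⟨(a (b (b (a (l 16251264) (c (l 16247448) (l 16237688))) (a (a (l 16105848) (c (l 16098648) (l 16082224))) (c (l 16046936) (l 16074496)))) (a (c (b (a (l 15980040) (l 15844136)) (l 15834352)) (b (l 15945920) (l 15811840))) (c (a (b (l 15932120) (l 15783360)) (l 15665632)) (b (l 15911000) (l 15754376))))) (c (b (a (c (b (b (l 16321552) (a (l 16227832) (l 16199472))) (a (l 16104672) (c (l 16090016) (l 16112280)))) (b (l 16110392) (l 16112136))) (b (c (a (l 16284328) (l 16394848)) (a (l 16299576) (l 16320168))) (c (a (c (l 16149480) (l 16135192)) (l 16205928)) (a (l 16131264) (l 16165992))))) (a (c (a (l 15866720) (l 15869104)) (l 15870392)) (c (b (a (l 15780680) (l 15917416)) (a (l 15804048) (l 15804832))) (a (l 15884744) (l 15913440))))) (b (a (b (l 16192576) (l 16106816)) (a (b (l 16304720) (l 16136440)) (b (l 16094784) (l 16161112)))) (a (l 15860224) (a (l 15885016) (c (l 15906912) (l 15904920))))))), by decide +kernel⟩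

def k5_pm_102 : ∃ t, chk3 f_pm_102 t 14 9 1 = true :=
  ⟨(b (a (a (c (b (c (l 15613864) (l 15599088)) (l 15433280)) (l 15494640)) (c (b (l 15673856) (l 15521264)) (l 15599336))) (c (b (a (l 15703760) (l 15704408)) (a (l 15513056) (l 15460704))) (b (l 15457280) (l 15466112)))) (a (c (b (a (b (a (c (l 15284824) (l 15272720)) (l 15320520)) (a (l 15191120) (l 15230784))) (l 15333056)) (a (c (l 15090264) (l 15078760)) (b (a (l 15181920) (l 15157816)) (a (l 15096864) (c (b (l 15079664) (l 15034008)) (l 15052264)))))) (b (a (l 15235256) (l 15331712)) (a (l 15061472) (l 15128904)))) (c (b (c (a (l 15288424) (l 15234296)) (l 15247288)) (c (a (l 15063328) (l 14999392)) (l 15016864))) (b (l 15227576) (l 14993040))))), by decide +kernel⟩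

def k6_pm_102 : ∃ t, chk3 f_pm_102 t 15 9 1 = true :=
  ⟨(b (a (a (c (b (l 15643160) (l 15391424)) (l 15360480)) (c (c (a (l 15465152) (b (l 15419400) (l 15313640))) (b (l 15543432) (l 15303760))) (b (l 15540856) (l 15275024)))) (b (c (a (a (b (l 15623688) (c (l 15478792) (l 15473328))) (c (l 15548832) (l 15551304))) (c (a (l 15562600) (l 15599504)) (l 15572776))) (a (a (l 15525944) (l 15537664)) (a (l 15551296) (l 15571304)))) (a (c (c (a (c (l 15283216) (l 15280912)) (b (l 15319032) (l 15186128))) (l 15093600)) (l 15238680)) (a (c (a (b (l 15314752) (c (l 15062960) (l 15166688))) (b (l 15210432) (c (b (l 15207248) (l 15131704)) (l 15161480)))) (l 15224936)) (c (c (b (l 15359112) (b (l 15235312) (l 15153224))) (l 15137296)) (l 15235840)))))) (a (c (a (b (c (a (l 15181576) (l 15115336)) (l 15138784)) (c (l 14725856) (l 14894792))) (b (c (a (l 14964632) (b (l 15117552) (l 14990224))) (l 15051776)) (c (b (l 14892680) (l 14773080)) (l 14801016)))) (a (l 14878616) (b (l 15015536) (l 14763360))))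 (b (c (a (c (b (a (l 15088552) (l 15054752)) (l 14946104)) (l 14999336)) (a (c (b (l 15034424) (l 14907440)) (l 14954592)) (b (c (l 15043824) (b (l 15055040) (l 14982072))) (l 14889936)))) (a (l 14972232) (a (l 14939128) (c (l 14762552) (b (l 14986312) (l 14845168)))))) (c (a (c (a (l 14775080) (l 14738520)) (l 14742664)) (c (b (l 14779832) (l 14652656)) (l 14689384))) (a (l 14708272) (c (l 14670344) (l 14654304))))))), by decide +kernel⟩

def k7_pm_102 : ∃ t, chk3 f_pm_102 t 3 10 1 = true :=
  ⟨(c (a (b (a (b (a (l 14826840) (l 14826840)) (c (l 15002296) (l 14979096))) (b (a (l 14826840) (l 14837232)) (a (l 14990696) (l 14896312)))) (a (a (l 15470624) (l 15470624)) (a (b (l 15412928) (l 15817312)) (b (l 15297656) (l 15827944))))) (a (b (a (b (c (a (l 14931992) (l 14856440)) (l 14958944)) (l 14917448)) (b (a (b (a (c (l 14921392) (l 14909848)) (l 14873488)) (a (l 14839072) (c (l 14780528) (l 14764504)))) (c (l 14773976) (l 14753136))) (a (c (l 14895936) (l 14965424)) (b (l 14664744) (l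 14845096))))) (a (l 15478840) (b (l 15143592) (l 15587128)))) (b (a (b (a (c (b (l 14745600) (l 14630872)) (l 14661248)) (c (b (l 14653824) (l 14538464)) (l 14557344))) (a (l 14725184) (l 14625872))) (b (a (c (a (l 14533240) (l 14493128)) (l 14495992)) (c (l 14465504) (l 14439760))) (a (c (l 14571016) (l 14553688)) (c (l 14527256) (l 14502056))))) (b (a (a (b (l 14936856) (l 15090680)) (l 14908064)) (a (l 14815616) (l 14823704))) (a (a (l 15344184) (a (l 15217608) (l 15164752))) (a (l 15129696) (l 15107096))))))) (a (b (a (b (l 14776184) (l 14944288)) (b (l 14782416) (l 14950536))) (a (l 15587304) (a (l 15587304) (l 15599512)))) (a (b (a (b (l 14948144) (l 15116496)) (b (a (b (l 14869808) (l 14744392)) (l 14723304)) (a (l 14943808) (l 14790912)))) (a (l 15703480) (l 15220216))) (b (a (b (a (l 14623152) (l 14514056)) (l 14621240)) (b (a (l 14456600) (a (l 14414176) (l 14391776))) (a (l 14514856) (a (l 14476144) (l 14456624))))) (a (a (b (l 14971984) (l 15304448)) (b (l 14859456) (l 15066560)))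 (a (l 14959096) (b (l 14723048) (l 14909912)))))))), by decide +kernel⟩

def k8_pm_102 : ∃ t, chk3 f_pm_102 t 3 11 1 = true :=
  ⟨(a (b (a (c (b (l 16014952) (l 16571960)) (l 16359096)) (a (l 16322184) (l 16186864))) (a (c (l 16776672) (l 16776656)) (c (l 16770512) (l 16770336)))) (a (b (a (l 16096992) (l 15899440)) (a (l 16591504) (l 16359552))) (a (b (a (l 15828184) (b (l 15326896) (l 15830112))) (c (l 16113024) (l 16080888))) (b (a (b (c (a (l 15418744) (l 15379096)) (l 15149336)) (c (l 15612408) (l 15701936))) (b (c (l 15370128) (c (l 15351744) (l 15342136))) (c (a (b (l 15555032) (l 15708864)) (l 15625016)) (a (b (c (l 15549264) (l 15538704)) (l 15702008)) (a (b (l 15533752) (l 15606360)) (l 15411440)))))) (c (a (l 15907552) (l 15802496)) (a (l 15898600) (c (l 15794704) (a (l 15813944) (b (l 15761608) (l 15762472)))))))))), by decide +kernel⟩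

def k9_pm_102 : ∃ t, chk3 f_pm_102 t 3 3 1 = true :=
  ⟨(a (b (a (c (l 16777216) (l 16777216)) (b (l 16686864) (l 16770752))) (a (l 2) (a (l 2) (l 83852420231)))) (a (b (b (a (l 16591888) (c (l 16365336) (l 16354640))) (a (l 16591888) (l 16255128))) (a (l 16549944) (l 16359984))) (c (b (a (b (l 15966696) (l 16113496)) (b (a (l 15908056) (l 15802904)) (a (l 15908056) (l 15802904)))) (a (l 16113496) (a (l 15908056) (l 15802904)))) (b (a (b (a (l 16156592) (l 16007240)) (l 16081376)) (b (a (l 15899120) (c (l 15795120) (l 15792576))) (a (l 15899120) (l 15669872)))) (a (l 16081376) (a (l 15899120) (b (l 15795696) (l 15795696)))))))), by decide +kernel⟩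

theorem s10_pm_102 : ∃ t, chk3 f_pm_102 t 3 5 1 = true := ex3_b k7_pm_102 k8_pm_102

theorem s11_pm_102 : ∃ t, chk3 f_pm_102 t 7 9 1 = true := ex3_a k5_pm_102 k6_pm_102

theorem s12_pm_102 : ∃ t, chk3 f_pm_102 t 15 8 1 = true := ex3_b k3_pm_102 k4_pm_102

theorem s13_pm_102 : ∃ t, chk3 f_pm_102 t 7 8 1 = true := ex3_a k2_pm_102 s12_pm_102

theorem s14_pm_102 : ∃ t, chk3 f_pm_102 t 7 4 1 = true := ex3_b s13_pm_102 s11_pm_102

theorem s15_pm_102 : ∃ t, chk3 f_pm_102 t 3 4 1 = true := ex3_a k1_pm_102 s14_pm_102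

theorem s16_pm_102 : ∃ t, chk3 f_pm_102 t 3 2 1 = true := ex3_b s15_pm_102 s10_pm_102

theorem s17_pm_102 : ∃ t, chk3 f_pm_102 t 3 1 1 = true := ex3_b s16_pm_102 k9_pm_102

theorem s18_pm_102 : ∃ t, chk3 f_pm_102 t 1 1 1 = true := ex3_a k0_pm_102 s17_pm_102

theorem c_pm_102 : CertFX 536870912 536870912 1073741824 536870912 1046898278 26843546 false true false .npp 1 0 2
    ndF0q1 ndF5q2 pcF0 Cut.none Ext.none :=
  certFX0 (fam := false) (s1 := true) (s2 := false) (a := 1) (b := 0) (c := 2) (cn := .npp) (n1 := ndF0q1) (n2 := ndF5q2) (pc := pcF0) (cut := Cut.none) (xt := Ext.none) (P1 := 536870912) (W1 := 536870912) (P2 := 1073741824) (W2 := 536870912) (P3 := 1046898278) (W3 := 26843546)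
    rfl s18_pm_102

noncomputable def f_pm_112 : ℕ → ℕ → ℕ → ℕ → Bool := onCell 536870912 536870912 1073741824 536870912 1046898278 26843546
    (rowFX 0 false true false .dn 1 1 2 (qsf 536870912 536870912 1073741824 536870912 1) ndF0q1 ndF5q2 pcF1 Cut.none Ext.none)

def k0_pm_112 : ∃ t, chk3 f_pm_112 t 2 2 1 = true :=
  ⟨(b (a (b (a (c (b (l 16253952) (l 15824656)) (l 15785200)) (c (b (l 1) (l 15824656)) (l 15848112))) (a (c (b (l 15430304) (l 15071624)) (l 15039256)) (c (b (l 15430304) (l 15071624)) (l 15207024)))) (b (l 1) (a (c (l 242695642471) (l 15207024)) (l 1)))) (b (b (a (c (b (a (l 14826840) (l 14826840)) (a (l 14990696) (l 14990696))) (a (b (l 14776184) (l 14944288)) (l 14798104))) (a (b (c (l 14826840) (l 14776184)) (l 14925552)) (l 1))) (a (a (c (l 15617424) (l 15587304)) (c (l 15617424) (l 15587304))) (c (c (a (l 15603984) (l 15415240)) (l 64992096839)) (a (l 15587304) (l 15587304))))) (a (b (a (a (l 16259264) (l 16280240)) (c (l 16201376) (l 16296184))) (c (a (l 16776672)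 (l 16776672)) (a (l 16776656) (l 16776656)))) (b (a (c (l 16138464) (l 16317152)) (c (l 110627663831) (l 16275208))) (c (a (l 16776672) (l 16776672)) (l 16776656)))))), by decide +kernel⟩

def k1_pm_112 : ∃ t, chk3 f_pm_112 t 2 3 1 = true :=
  ⟨(b (a (a (a (b (b (l 16776880) (a (b (l 16768040) (l 16770408)) (l 16772688))) (b (b (a (c (l 16766944) (l 16770888)) (l 16774064)) (l 16769328)) (a (b (l 16762544) (l 16596904)) (l 16771056)))) (b (l 16776704) (l 16772936))) (b (c (l 16777216) (l 16777216)) (c (l 16776400) (l 16776384)))) (a (b (c (l 16777216) (l 16777216)) (l 16777216)) (l 16777216))) (a (a (b (a (b (a (l 15901712) (b (l 16605112) (l 16323720))) (c (l 15561584) (a (l 15579656) (l 15893184)))) (b (a (b (l 16765744) (l 16613640)) (l 16773464)) (a (l 15994504) (b (l 16622488) (l 16364632))))) (a (b (c (a (l 15121168) (l 15428392)) (a (l 15113384) (l 15405640))) (c (a (l 14411784) (l 14710464)) (a (b (l 14749872) (l 14465144)) (l 14767496)))) (b (c (l 15705872) (a (l 15694296) (l 15969624)))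 (c (a (l 15253936) (l 15544496)) (a (l 15246320) (l 15523536)))))) (b (a (b (l 16770008) (a (b (l 16769208) (l 16631672)) (l 16776056))) (l 16772232)) (a (b (a (l 16091176) (b (l 16641184) (l 16408640))) (a (c (l 15819864) (l 15795000)) (l 16060944))) (b (a (l 16676264) (l 16775592)) (a (l 16254824) (l 16513912)))))) (a (b (l 16776240) (a (b (l 16768872) (a (l 16711336) (l 16772600))) (l 16771424))) (l 16776512)))), by decide +kernel⟩

def k2_pm_112 : ∃ t, chk3 f_pm_112 t 3 1 1 = true :=
  ⟨(b (a (b (l 1) (b (l 1) (b (l 1) (a (l 16776664) (l 1))))) (l 1)) (a (b (a (c (l 16777216) (l 16777216)) (b (l 367253080167) (l 16770752))) (a (l 16777216) (b (a (l 16777216) (l 16764520)) (a (l 16777216) (l 16764520))))) (a (b (b (l 1) (l 437582239543)) (b (l 58551375671) (l 16390896))) (b (l 1) (a (a (l 16164448) (l 16016104)) (a (l 156797710311) (c (l 15802904) (l 184714891527)))))))), by decide +kernel⟩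

theorem s3_pm_112 : ∃ t, chk3 f_pm_112 t 2 1 1 = true := ex3_b k0_pm_112 k1_pm_112

theorem s4_pm_112 : ∃ t, chk3 f_pm_112 t 1 1 1 = true := ex3_a s3_pm_112 k2_pm_112

theorem c_pm_112 : CertFX 536870912 536870912 1073741824 536870912 1046898278 26843546 false true false .dn 1 1 2
    ndF0q1 ndF5q2 pcF1 Cut.none Ext.none :=
  certFX0 (fam := false) (s1 := true) (s2 := false) (a := 1) (b := 1) (c := 2) (cn := .dn) (n1 := ndF0q1) (n2 := ndF5q2) (pc := pcF1) (cut := Cut.none) (xt := Ext.none) (P1 := 536870912) (W1 := 536870912) (P2 := 1073741824) (W2 := 536870912) (P3 := 1046898278) (W3 := 26843546)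
    rfl s4_pm_112

noncomputable def cut_pm_113 : Cut := Cut.of [[⟨0, 1, 0, 67108864⟩, ⟨1, 1, 0, 67108864⟩, ⟨2, 2, 0, 67108864⟩, ⟨3, 0, 0, 1233125376⟩]]

noncomputable def f_pm_113 : ℕ → ℕ → ℕ → ℕ → Bool := onCell 536870912 536870912 0 1230186008 1046898278 26843546
    (rowFX 0 false true false .nn 1 1 3 (qsf 536870912 536870912 0 1230186008 1) ndF0q1 ndF5q3 pcF1 cut_pm_113 Ext.none)

def k0_pm_113 : ∃ t, chk3 f_pm_113 t 2 2 1 = true :=
  ⟨(l 2), by decide +kernel⟩

def k1_pm_113 : ∃ t, chk3 f_pm_113 t 6 2 1 = true :=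
  ⟨(l 2), by decide +kernel⟩

def k2_pm_113 : ∃ t, chk3 f_pm_113 t 7 4 1 = true :=
  ⟨(a (l 2) (a (l 2) (b (l 6) (l 6)))), by decide +kernel⟩

def k3_pm_113 : ∃ t, chk3 f_pm_113 t 14 5 1 = true :=
  ⟨(b (a (l 2) (b (l 2) (a (l 2) (l 15562936)))) (a (b (l 2) (a (l 392014219111) (l 15848368))) (b (a (l 15667880) (l 15646440)) (a (l 15812072) (l 15777424))))), by decide +kernel⟩

def k4_pm_113 : ∃ t, chk3 f_pm_113 t 15 5 1 = true :=
  ⟨(b (a (b (a (l 2) (c (a (l 15899808) (l 15942856)) (b (a (l 2) (l 15331568)) (a (l 15326856) (c (l 15455464) (l 15175272)))))) (a (c (b (l 15739760) (a (l 15714824) (l 15725888))) (b (a (l 2) (l 15358856)) (a (a (l 15421016) (l 15406712)) (c (l 15475672) (l 15309352))))) (c (b (a (l 15771112) (c (l 15888768) (l 15663320))) (a (c (l 15813776) (l 15636712)) (c (l 15804800) (l 15625432)))) (b (a (c (l 15446160) (l 15230840)) (c (l 15438992) (l 15213088))) (a (l 15371152) (l 15353168)))))) (b (b (l 6) (a (a (a (a (c (l 15885576) (l 15315472)) (l 6)) (l 6)) (l 6))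 (l 6))) (b (a (a (c (c (l 15878664) (l 15660000)) (l 15320736)) (l 6)) (l 6)) (a (c (a (c (l 15781008) (l 15613288)) (c (l 15737544) (l 15583424))) (l 15345536)) (c (a (l 15619816) (l 15593200)) (a (l 15329896) (c (l 15392328) (l 15264256)))))))) (a (b (a (a (l 15626952) (c (b (b (l 15722552) (l 15727200)) (l 15740304)) (b (l 15448592) (l 15514264)))) (c (b (a (l 15707728) (l 15685312)) (a (l 15710744) (l 15683272))) (b (l 15410376) (l 15468776)))) (a (a (l 15740896) (b (c (l 15767912) (l 15584664)) (l 15732648))) (b (a (l 15640360) (l 15614136)) (a (l 15693984) (l 15666208))))) (b (a (c (b (a (l 15785496) (l 15627608)) (a (l 15656616) (l 15624416))) (b (l 15391856) (l 15450656))) (c (b (a (l 15593896) (l 15575424)) (a (l 15592640) (l 15577384))) (a (b (l 15383920) (l 15440112)) (b (c (l 15428552) (l 15336792)) (l 15436208))))) (b (a (c (a (l 15672016) (l 15639016)) (l 15514200)) (c (l 15603912) (a (l 15498064) (l 15492120)))) (a (c (l 15688480) (l 15584856)) (c (l 15639632) (l 15568384))))))),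 by decide +kernel⟩

def k5_pm_113 : ∃ t, chk3 f_pm_113 t 2 6 1 = true :=
  ⟨(a (l 2) (b (l 2) (a (l 2) (a (l 2) (b (l 2) (b (l 2) (c (l 15937320) (a (l 2) (l 539117580247))))))))), by decide +kernel⟩

def k6_pm_113 : ∃ t, chk3 f_pm_113 t 2 14 1 = true :=
  ⟨(a (l 2) (a (b (a (l 2) (a (l 2) (a (l 2) (b (l 2) (l 344769196167))))) (a (b (l 2) (c (l 220214180567) (a (b (l 2) (l 15043872)) (b (l 351747708407) (c (l 15408800) (l 15404168)))))) (b (c (a (l 15470208) (l 15670136)) (a (b (l 2) (l 379128451799)) (b (l 252427211751) (l 15601416)))) (a (c (l 15561304) (b (l 15292344) (l 15650328))) (c (l 15829168) (l 15828048)))))) (b (a (b (c (l 15794760) (a (l 2) (l 471471136391))) (a (c (l 15769104) (b (l 15725472) (l 15581416))) (c (l 15965320) (b (l 15863864) (l 15980288))))) (b (a (c (l 16084448) (b (l 15990328) (l 16086888))) (c (l 16273656) (l 16160400))) (a (b (l 16130792) (l 16174024)) (l 16278056)))) (a (b (a (b (c (l 15836360) (l 15831064)) (l 15854720)) (l 15848936)) (a (l 15788792) (l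 16231912))) (b (a (l 16247504) (l 16431400)) (a (l 16398120) (l 16541488))))))), by decide +kernel⟩

def k7_pm_113 : ∃ t, chk3 f_pm_113 t 2 15 1 = true :=
  ⟨(a (b (a (l 2) (a (b (l 2) (c (a (l 14705280) (l 14907488)) (a (b (l 2) (l 14660192)) (b (l 14814672) (c (l 14928088) (l 14900864)))))) (b (c (l 14881240) (a (b (l 2) (l 14933840)) (b (l 15017328) (c (l 15154664) (l 15127704))))) (c (b (l 14991784) (l 15203120)) (a (b (c (l 15037648) (l 15010368)) (l 15198352)) (b (l 15300128) (l 15471960))))))) (a (a (b (l 2) (c (b (l 14355504) (l 14494216)) (b (a (l 2) (l 14282968)) (a (l 14097408) (c (l 14583576) (l 14582344)))))) (b (c (a (l 14495360) (l 14705112)) (b (a (l 2) (l 14575648)) (a (l 14435704) (c (l 14734608) (l 14729824))))) (a (c (b (l 14661104) (l 14869456)) (b (c (l 14652968) (l 14649712)) (l 14894584))) (c (b (l 14939544) (l 15194040)) (b (l 14952400) (l 15196872)))))) (b (a (c (a (b (l 14839032) (l 15010576)) (l 15094968)) (a (b (c (l 14826744) (l 14820976)) (l 15023400)) (b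 (l 15105752) (l 15314112)))) (c (a (l 15371096) (l 15742608)) (a (l 15457640) (l 15728792)))) (a (c (a (l 15321896) (l 15640448)) (a (l 15254904) (l 15624224))) (a (l 15655688) (l 16060136)))))) (b (a (a (b (a (c (l 15310792) (b (c (l 15278552) (l 15273160)) (l 15410064))) (c (l 15590504) (l 15425512))) (c (a (l 15594240) (l 15882056)) (a (l 15637472) (l 15869848)))) (a (b (a (l 15537152) (l 15800904)) (l 16066688)) (b (l 15979984) (l 16282808)))) (a (b (l 16073872) (a (l 16463288) (l 16623800))) (b (a (l 16557208) (l 16685312)) (l 16648024)))) (a (b (a (a (l 15863424) (l 16185512)) (a (l 16371128) (l 16581184))) (a (a (l 16249816) (b (l 16467376) (l 16669480))) (a (l 16686440) (l 16777136)))) (b (a (a (l 16712992) (l 16776160)) (l 16764976)) (l 16770112))))), by decide +kernel⟩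

def k8_pm_113 : ∃ t, chk3 f_pm_113 t 6 6 1 = true :=
  ⟨(b (a (l 2) (a (b (l 2) (a (b (l 2) (l 416711146647)) (b (l 409731738951) (l 16227152)))) (b (a (b (l 2) (l 16105976)) (b (l 16047264) (l 16123208))) (a (b (l 16184104) (l 16268856)) (b (l 16206032) (l 16295200)))))) (a (b (a (b (l 2) (a (l 2) (c (l 16220112) (l 571330256583)))) (b (a (l 2) (l 424227431223)) (a (c (l 16292720) (l 535896676135)) (l 16321296)))) (a (a (a (b (l 2) (b (c (l 16348960) (l 16296024)) (l 16371136))) (b (c (l 16319960) (l 578846434487)) (l 16354248))) (b (c (l 16343168) (l 492410234455)) (c (l 16428192) (l 16419128)))) (b (a (l 16371672) (l 16409840)) (a (l 16460584) (l 16501728))))) (b (a (a (b (l 16273000) (l 16360624)) (b (l 16313472) (l 16404984))) (a (l 16324104) (l 16419408))) (a (b (a (l 16452616) (l 16500568)) (l 16572744)) (a (l 16606200) (l 16645528)))))), by decide +kernel⟩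

def k9_pm_113 : ∃ t, chk3 f_pm_113 t 7 6 1 = true :=
  ⟨(a (b (a (b (a (l 16043912) (l 16003112)) (a (l 16215832) (l 16176952))) (b (a (l 15963752) (l 15920320)) (l 16111456))) (b (a (l 16263456) (a (l 16324096) (l 16118416))) (a (b (l 16473440) (a (l 16647840) (l 16560408))) (a (l 16396456) (l 16323288))))) (b (a (b (a (b (a (l 15838560) (l 15798800)) (l 15894304)) (b (c (l 15793384) (l 15692840)) (l 15819848))) (a (l 16024504) (b (a (l 15920352) (l 15895896)) (a (l 16015840) (b (l 15967736) (l 16007792)))))) (b (a (c (b (l 15739280) (l 15804664)) (l 15717616)) (c (b (l 15698072) (a (l 15768944) (l 15762632))) (b (l 15657112) (a (l 15751696) (l 15721352))))) (a (b (c (a (l 15892552) (l 15865056)) (l 15863408)) (c (a (l 15953856) (l 15898352)) (l 15920488))) (a (b (c (l 15828368) (l 15827256)) (l 15802688)) (c (l 15794768) (l 15740208)))))) (b (a (a (l 16086152) (a (l 16076872) (c (l 16018880) (l 16002736)))) (a (c (l 15925288) (l 15919304)) (c (l 15811376) (l 15805528)))) (a (a (l 16180432)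 (c (l 16032136) (l 16017216))) (c (a (b (l 15914152) (l 15908752)) (l 15803720)) (a (l 15903544) (l 15796624))))))), by decide +kernel⟩

def k10_pm_113 : ∃ t, chk3 f_pm_113 t 3 7 1 = true :=
  ⟨(a (b (a (b (a (b (a (a (l 16403512) (b (l 16456400) (l 16492288))) (l 16512200)) (a (b (l 16484776) (l 16515752)) (l 16594592))) (b (l 16552112) (l 16665736))) (a (b (a (l 16569288) (l 16674664)) (b (l 16683376) (l 16736208))) (b (a (l 16733144) (l 16774248)) (a (b (l 16764344) (l 16752192)) (l 16753752))))) (a (b (b (l 16670880) (a (l 16740800) (l 16771680))) (a (b (l 16756512) (l 16759328)) (l 16759480))) (b (b (a (l 16756072) (l 16743168)) (a (l 16751536) (l 16738448))) (l 16760704)))) (b (a (a (b (l 16776784) (l 16763544)) (l 16767624)) (a (l 16774152) (l 16764648))) (a (a (l 16774712) (l 16777112)) (a (l 16777216) (l 16764520))))) (b (a (b (a (l 16567128) (l 16367048)) (a (l 16594320) (l 16359992))) (a (a (l 16165320) (l 16016176)) (b (a (c (l 15866112) (l 15899120)) (c (l 15802904) (l 15795696)))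 (c (a (a (l 15936120) (l 15876240)) (l 15802904)) (a (l 15899120) (b (l 15795696) (l 15795696))))))) (a (b (l 16348952) (a (l 16591888) (l 16359984))) (a (b (l 16079760) (l 16079760)) (a (b (l 15901224) (l 15901224)) (b (c (b (l 15802904) (l 15802904)) (b (l 15795696) (c (l 15795120) (l 15792576)))) (b (c (l 15802904) (a (l 15816712) (l 15765824))) (l 15802216)))))))), by decide +kernel⟩

theorem s11_pm_113 : ∃ t, chk3 f_pm_113 t 3 6 1 = true := ex3_a k8_pm_113 k9_pm_113

theorem s12_pm_113 : ∃ t, chk3 f_pm_113 t 3 3 1 = true := ex3_b s11_pm_113 k10_pm_113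

theorem s13_pm_113 : ∃ t, chk3 f_pm_113 t 2 7 1 = true := ex3_b k6_pm_113 k7_pm_113

theorem s14_pm_113 : ∃ t, chk3 f_pm_113 t 2 3 1 = true := ex3_b k5_pm_113 s13_pm_113

theorem s15_pm_113 : ∃ t, chk3 f_pm_113 t 1 3 1 = true := ex3_a s14_pm_113 s12_pm_113

theorem s16_pm_113 : ∃ t, chk3 f_pm_113 t 7 5 1 = true := ex3_a k3_pm_113 k4_pm_113

theorem s17_pm_113 : ∃ t, chk3 f_pm_113 t 7 2 1 = true := ex3_b k2_pm_113 s16_pm_113

theorem s18_pm_113 : ∃ t, chk3 f_pm_113 t 3 2 1 = true := ex3_a k1_pm_113 s17_pm_113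

theorem s19_pm_113 : ∃ t, chk3 f_pm_113 t 1 2 1 = true := ex3_a k0_pm_113 s18_pm_113

theorem s20_pm_113 : ∃ t, chk3 f_pm_113 t 1 1 1 = true := ex3_b s19_pm_113 s15_pm_113

theorem c_pm_113 : CertFX 536870912 536870912 0 1230186008 1046898278 26843546 false true false .nn 1 1 3
    ndF0q1 ndF5q3 pcF1 cut_pm_113 Ext.none :=
  certFX0 (fam := false) (s1 := true) (s2 := false) (a := 1) (b := 1) (c := 3) (cn := .nn) (n1 := ndF0q1) (n2 := ndF5q3) (pc := pcF1) (cut := cut_pm_113) (xt := Ext.none) (P1 := 536870912) (W1 := 536870912) (P2 := 0) (W2 := 1230186008) (P3 := 1046898278) (W3 := 26843546)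
    rfl s20_pm_113

end Pool.Agent.Strip051.G.IE1.Tab.C.FB05

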