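import Pool.Agent.Strip051.G.IE1.Tab

/-! # Certificates F34 (generated) -/

set_option linter.all false
set_option maxRecDepth 100000

namespace Pool.Agent.Strip051.G.IE1.Tab.C.FB05

open Pool.Agent.Strip051.PB Pool.Agent.Strip051.PB.T
open Pool.Agent.Strip051.G.IE1.Tab

noncomputable def cut_pm_123 : Cut := Cut.of [[⟨0, 1, 0, 67108864⟩, ⟨1, 1, 0, 67108864⟩, ⟨2, 2, 0, 67108864⟩, ⟨3, 0, 0, 1233125376⟩]]

noncomputable def f_pm_123 : ℕ → ℕ → ℕ → ℕ → Bool := onCell 1073741824 536870912 0 1230186008 1046898278 26843546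
    (rowFX 2 false true false .npn 1 2 3 (qsf 536870912 536870912 0 1230186008 2) ndF0q1 ndF5q3 pcF2 cut_pm_123 Ext.none)

def k0_pm_123 : ∃ t, chk3 f_pm_123 t 8 4 1 = true :=
  ⟨(b (a (l 6) (a (a (b (l 6) (b (l 6) (c (l 16646672) (l 16541320)))) (c (b (c (l 16676144) (l 16658720)) (c (l 16632336) (l 16599104))) (b (l 16612472) (l 16515176)))) (c (b (a (l 16416040) (l 16296296)) (c (a (l 16485256) (l 16328736)) (l 16339216))) (b (a (l 16532480) (l 16391416)) (a (l 16408840) (l 16275448)))))) (b (a (a (l 6) (a (a (l 6) (b (l 6) (c (l 16514816) (l 16320608)))) (c (b (l 16588032) (l 16513960)) (c (l 16433480) (l 16348888))))) (a (c (c (l 16507176) (a (l 16487000) (l 16412384))) (a (l 16373848) (l 16302552))) (c (a (c (l 16367624) (l 16298760)) (c (b (l 16239448) (l 16162720)) (l 16155432))) (a (l 16193056) (b (l 16119144) (l 16000536)))))) (a (a (b (a (l 6) (a (l 6) (a (l 6) (c (l 16452288) (l 16148488))))) (c (a (c (l 16451760) (l 16372528)) (c (l 16467704) (l 16303576))) (a (a (l 6)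 (c (l 16072032) (l 15808128))) (c (l 16130192) (l 15963152))))) (c (a (c (b (l 16499960) (l 16432080)) (l 16264128)) (b (l 16434760) (l 16347784))) (a (c (b (l 16263400) (l 16189728)) (l 16103184)) (b (l 16236952) (c (l 16194616) (l 16101848)))))) (a (c (c (a (l 16368504) (l 16267656)) (a (l 16283896) (l 16193048))) (a (b (l 16206944) (l 16101880)) (b (l 16126160) (l 16019848)))) (b (c (c (a (l 16197800) (l 16062008)) (l 16072952)) (a (l 16019024) (l 15901512))) (l 15945752)))))), by decide +kernel⟩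

def k1_pm_123 : ∃ t, chk3 f_pm_123 t 8 5 1 = true :=
  ⟨(b (a (b (b (a (c (a (a (l 16362432) (l 16365560)) (a (c (l 16410344) (l 16247360)) (l 16315840))) (a (c (a (l 16022216) (l 16049408)) (a (l 15728952) (l 15842096))) (c (l 16098296) (b (l 15960120) (l 15960824))))) (c (a (c (l 16352952) (l 16238288)) (l 16245688)) (a (c (l 16126392) (l 16022504)) (b (l 16083096) (l 16034064))))) (a (b (a (c (a (l 16329256) (l 16315464)) (c (a (l 16035648) (l 16047968)) (a (l 15797792) (l 15874104)))) (a (c (l 16279752) (l 15993272)) (l 16136480))) (l 16101384)) (l 16079416))) (a (b (l 16044120) (l 15975384)) (b (l 15990584) (l 15915696)))) (b (a (l 15997312) (l 15821376)) (a (b (l 15872888) (l 15806624)) (l 15695944)))) (a (b (a (b (l 15927472) (l 15903280)) (l 15851040)) (a (b (l 15898176) (l 15902112)) (b (l 15836672) (c (l 15855296) (l 15821584))))) (b (a (b (l 15764608) (l 15748624)) (b (l 15645592) (l 15642280))) (a (b (l 15749456) (l 15662480)) (b (l 15651136) (l 15656216)))))), by decide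 +kernel⟩

def k2_pm_123 : ∃ t, chk3 f_pm_123 t 9 2 1 = true :=
  ⟨(b (a (a (b (c (b (l 16034696) (a (l 16156808) (l 15976824))) (b (l 16019568) (c (l 16052832) (l 16000024)))) (b (a (c (b (l 16051896) (l 15983968)) (b (l 15957704) (l 15862552))) (b (c (l 15878424) (l 15797032)) (l 15781752))) (l 15750552))) (b (c (b (l 15804384) (a (l 15747928) (b (l 15633072) (l 15600032)))) (b (l 15779928) (a (b (l 15800000) (l 15714408)) (b (l 15603936) (l 15555520))))) (b (a (b (c (l 15722760) (l 15649864)) (l 15649776)) (l 15538088)) (l 15513088)))) (b (b (a (c (a (l 15515672) (l 15345640)) (a (l 15483688) (l 15308880))) (a (c (l 15199392) (l 15158264)) (l 15042216))) (a (a (b (c (l 15470312) (l 15436624)) (l 15437152)) (l 15304496)) (l 15106184))) (b (l 14979192) (c (l 15194760) (l 15126904))))) (b (a (b (a (l 15632992) (l 15433208)) (a (l 15380448) (b (l 15396672) (l 15391552)))) (b (a (l 15231176) (l 15069896)) (c (l 15190696) (l 15129224)))) (a (b (a (b (l 15527912) (l 15543200)) (l 15419584))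 (a (c (l 15593512) (l 15561128)) (c (l 15500720) (l 15465984)))) (b (c (l 15226584) (l 15175576)) (c (l 15293264) (l 15253232)))))), by decide +kernel⟩

def k3_pm_123 : ∃ t, chk3 f_pm_123 t 5 2 1 = true :=
  ⟨(a (b (a (a (b (b (l 14863224) (l 14878160)) (b (l 14890920) (l 14908440))) (b (l 15032080) (b (l 15063520) (l 15082144)))) (b (l 15411568) (c (l 15704032) (l 15427288)))) (a (a (b (b (l 14936408) (l 14856888)) (b (l 14966872) (c (l 15111016) (l 15066336)))) (b (b (l 15106848) (l 15128440)) (b (l 15171784) (l 15247712)))) (b (b (l 15599112) (c (l 15732408) (l 15687824))) (b (a (l 15555936) (l 15916512)) (a (l 15620808) (l 15970896)))))) (b (a (b (l 16166000) (c (l 16279496) (l 16189256))) (c (l 16763856) (b (l 16767160) (l 16753232)))) (a (b (b (l 16267992) (l 16256464)) (b (l 16350480) (a (l 16298296) (l 16580464)))) (a (b (l 16695216) (b (l 16733504) (c (l 16759584) (l 16758688)))) (b (l 16738040) (b (l 16734352) (l 16731760))))))), by decide +kernel⟩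

def k4_pm_123 : ∃ t, chk3 f_pm_123 t 3 2 1 = true :=
  ⟨(a (b (a (a (l 16853832) (l 16759464)) (a (l 16759464) (l 16759464))) (a (b (a (l 16738040) (l 16736768)) (a (b (l 16729024) (a (l 16742560) (l 16731008))) (b (l 16725208) (l 16733920)))) (b (a (l 16737488) (l 16738040)) (c (l 16748736) (a (l 16746104) (l 16750224)))))) (b (a (c (l 16764288) (l 16757496)) (c (l 16764288) (l 16757496))) (b (a (c (l 16743080) (l 16729256)) (l 16738040)) (a (c (l 16751120) (l 16750224)) (c (l 16751120) (l 16750224)))))), by decide +kernel⟩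

def k5_pm_123 : ∃ t, chk3 f_pm_123 t 8 6 1 = true :=
  ⟨(b (a (b (a (b (a (l 15916720) (l 15887120)) (a (l 15901592) (l 15851688))) (b (c (l 15830472) (l 15804832)) (l 15777032))) (c (a (l 15794152) (l 15723024)) (a (b (l 15802120) (l 15734824)) (b (l 15718680) (l 15672416))))) (b (c (a (l 15724496) (l 15660336)) (a (l 15697144) (l 15631320))) (c (a (l 15674016) (l 15645976)) (a (b (l 15658480) (l 15632136)) (l 15616584))))) (b (a (c (a (b (l 15694736) (l 15627536)) (l 15631656)) (a (b (l 15666608) (l 15597672)) (b (l 15625512) (l 15578088)))) (b (c (l 15632752) (a (l 15605424) (l 15605264))) (a (c (l 15602840) (b (l 15585176) (a (l 15568416) (l 15571216)))) (c (b (l 15625224) (l 15603944)) (b (l 15595464) (a (l 15576472) (l 15574856))))))) (a (b (a (a (c (l 15561248) (l 15529672)) (b (l 15558416) (c (l 15536184) (b (l 15518720) (l 15497256))))) (b (c (l 15566888) (a (l 15541168) (l 15538640))) (c (l 15529264) (a (b (l 15515968) (l 15487384)) (l 15491840))))) (a (a (b (c (l 15495400)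 (b (l 15477936) (l 15441184))) (l 15376928)) (c (l 15439048) (l 15405672))) (c (l 15418424) (c (l 15395128) (l 15379872))))) (b (a (c (b (l 15567576) (l 15502376)) (b (a (b (l 15551680) (l 15530448)) (l 15534920)) (l 15473048))) (c (l 15517320) (l 15489000))) (c (a (l 15400904) (l 15394960)) (a (l 15373160) (l 15368392))))))), by decide +kernel⟩

def k6_pm_123 : ∃ t, chk3 f_pm_123 t 9 6 1 = true :=
  ⟨(b (a (a (b (c (l 15617976) (l 15587864)) (c (l 15637792) (l 15608184))) (b (c (l 15546584) (l 15514616)) (c (l 15588736) (l 15557856)))) (b (c (l 15347560) (l 15310416)) (b (c (l 15385520) (l 15349368)) (a (l 15453104) (c (l 15344256) (l 15307032)))))) (a (b (a (b (c (l 15649736) (l 15620544)) (b (a (c (l 15639920) (l 15610688)) (l 15626800)) (l 15576672))) (b (b (c (l 15614216) (l 15584048)) (c (l 15605712) (a (l 15618056) (l 15537752)))) (c (l 15545120) (l 15514432)))) (c (a (l 15308736) (b (l 15454608) (l 15363560))) (a (b (l 15480744) (l 15371672)) (b (l 15423072) (l 15331176)))))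 (b (a (b (b (c (l 15474488) (l 15440648)) (l 15429736)) (c (l 15399344) (l 15363552))) (c (l 15305128) (l 15266888))) (c (a (l 15303168) (l 15230784)) (a (l 15160024) (l 15190616)))))), by decide +kernel⟩

def k7_pm_123 : ∃ t, chk3 f_pm_123 t 4 7 1 = true :=
  ⟨(a (c (b (b (a (b (l 15280216) (l 15127928)) (a (l 15029880) (l 15064408))) (a (b (l 14976104) (l 14825176)) (b (l 15011576) (l 14632264)))) (b (a (b (l 14675640) (l 14527984)) (c (l 14691200) (l 14692912))) (a (l 14312568) (c (l 14442928) (l 14449160))))) (b (b (a (c (b (l 15149800) (l 15101488)) (b (a (l 15244968) (l 15233016)) (a (l 15085040) (l 15086176)))) (c (b (l 15251944) (l 15125328)) (b (l 15233856) (l 15106128)))) (a (a (c (l 14863424) (b (l 14925600) (l 14767112))) (c (l 14880696) (l 14762600))) (c (b (l 14999088) (l 14873616)) (b (l 14978792) (l 14852224))))) (b (a (c (b (l 14646576) (l 14498064)) (b (a (l 14610064) (l 14650080)) (a (l 14454984) (l 14507720)))) (c (b (l 14749320) (l 14626648)) (b (l 14726840) (l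 14603096)))) (a (c (b (l 14352000) (l 14208984)) (b (l 14278696) (l 14199288))) (c (l 14447832) (l 14422720)))))) (b (a (b (c (a (l 15237040) (l 15226824)) (a (b (l 15262288) (l 15152912)) (b (l 15239024) (l 15146880)))) (c (a (l 15019264) (l 15045000)) (a (b (l 15043880) (l 14935520)) (b (l 15055024) (l 14963768))))) (c (b (b (l 15187072) (l 15136192)) (l 15060536)) (b (b (l 15145776) (c (l 15104224) (l 15082912))) (b (c (l 15052520) (l 15030552)) (l 14989856))))) (b (a (c (a (l 14804968) (l 14866160)) (a (c (l 14788312) (l 14762976)) (b (l 14873408) (l 14784288)))) (c (l 14960952) (b (l 14938712) (l 14888296)))) (a (a (c (l 14597328) (l 14567936)) (l 1)) (l 1))))), by decide +kernel⟩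

def k8_pm_123 : ∃ t, chk3 f_pm_123 t 5 3 1 = true :=
  ⟨(b (a (b (a (a (b (c (l 15172952) (l 15131280)) (b (a (l 15222984) (l 15170856)) (b (a (l 15239376) (l 15182264)) (l 15206648)))) (b (l 15306592) (b (c (l 15359592) (l 15322768)) (l 15342256)))) (b (a (b (l 15657232) (l 15676392)) (b (l 15998600) (l 16001232))) (a (c (l 15681360) (l 15652888)) (l 15938656)))) (a (a (b (c (l 15214152) (l 15173552)) (c (l 15193616) (l 15152480))) (c (b (l 15351952) (l 15340144)) (b (l 15314928) (l 15302816)))) (b (c (l 15778200) (l 15500592)) (c (l 15725472) (a (l 15575240) (l 15814208)))))) (a (b (b (a (b (l 16312296) (l 16289768)) (b (l 16593936) (l 16540768))) (c (l 16347136) (l 16314992))) (c (b (l 16242832) (l 16136488)) (b (l 16019240) (l 15868192)))) (b (b (l 16685864) (c (l 16580472) (l 16575360))) (c (b (l 16470568) (l 16358592)) (b (l 16462600) (l 16347720)))))) (a (b (a (a (c (b (l 15172888) (l 15152240)) (b (c (l 15141632) (l 15120792)) (l 15110032))) (c (b (l 15328208) (l 15316336))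 (b (l 15290576) (l 15278392)))) (c (b (l 15672328) (l 15619472)) (b (a (l 15535328) (l 15745544)) (c (l 15596912) (l 15581880))))) (a (a (b (c (l 15131968) (l 15089232)) (l 1)) (l 1)) (l 1))) (b (b (a (c (l 16029400) (l 15863176)) (c (l 16245944) (l 16232144))) (l 1)) (l 1)))), by decide +kernel⟩

def k9_pm_123 : ∃ t, chk3 f_pm_123 t 3 3 1 = true :=
  ⟨(b (b (a (a (c (a (l 16645720) (l 16696664)) (a (l 16642304) (l 16694576))) (c (l 16771800) (a (l 16767048) (l 16777168)))) (a (c (l 16777168) (l 16777168)) (l 1))) (a (a (c (a (l 16486848) (l 16633040)) (a (b (l 16536672) (l 16464376)) (l 16608320))) (a (c (l 16761192) (l 16760776)) (l 1))) (l 1))) (l 1)), by decide +kernel⟩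

theorem s10_pm_123 : ∃ t, chk3 f_pm_123 t 4 6 1 = true := ex3_a k5_pm_123 k6_pm_123

theorem s11_pm_123 : ∃ t, chk3 f_pm_123 t 4 3 1 = true := ex3_b s10_pm_123 k7_pm_123

theorem s12_pm_123 : ∃ t, chk3 f_pm_123 t 2 3 1 = true := ex3_a s11_pm_123 k8_pm_123

theorem s13_pm_123 : ∃ t, chk3 f_pm_123 t 1 3 1 = true := ex3_a s12_pm_123 k9_pm_123

theorem s14_pm_123 : ∃ t, chk3 f_pm_123 t 8 2 1 = true := ex3_b k0_pm_123 k1_pm_123

theorem s15_pm_123 : ∃ t, chk3 f_pm_123 t 4 2 1 = true := ex3_a s14_pm_123 k2_pm_123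

theorem s16_pm_123 : ∃ t, chk3 f_pm_123 t 2 2 1 = true := ex3_a s15_pm_123 k3_pm_123

theorem s17_pm_123 : ∃ t, chk3 f_pm_123 t 1 2 1 = true := ex3_a s16_pm_123 k4_pm_123

theorem s18_pm_123 : ∃ t, chk3 f_pm_123 t 1 1 1 = true := ex3_b s17_pm_123 s13_pm_123

theorem c_pm_123 : CertFX 536870912 536870912 0 1230186008 1046898278 26843546 false true false .npn 1 2 3
    ndF0q1 ndF5q3 pcF2 cut_pm_123 Ext.none :=
  certFX2 (fam := false) (s1 := true) (s2 := false) (a := 1) (b := 2) (c := 3) (cn := .npn) (n1 := ndF0q1) (n2 := ndF5q3) (pc := pcF2) (cut := cut_pm_123) (xt := Ext.none) (P1 := 536870912) (W1 := 536870912) (P2 := 0) (W2 := 1230186008) (P3 := 1046898278) (W3 := 26843546)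
    rfl (fun _ => rfl) s18_pm_123

noncomputable def f_pm_133 : ℕ → ℕ → ℕ → ℕ → Bool := onCell 536870912 536870912 0 1230186008 1046898278 26843546
    (rowFX 0 false true false .dn 1 3 3 (qsf 536870912 536870912 0 1230186008 3) ndF0q1 ndF5q3 pcF3 Cut.none Ext.none)

def k0_pm_133 : ∃ t, chk3 f_pm_133 t 1 1 1 = true :=
  ⟨(b (a (a (b (a (l 594886596823) (l 1)) (l 1)) (l 1)) (l 1)) (l 1)), by decide +kernel⟩

theorem c_pm_133 : CertFX 536870912 536870912 0 1230186008 1046898278 26843546 false true false .dn 1 3 3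
    ndF0q1 ndF5q3 pcF3 Cut.none Ext.none :=
  certFX0 (fam := false) (s1 := true) (s2 := false) (a := 1) (b := 3) (c := 3) (cn := .dn) (n1 := ndF0q1) (n2 := ndF5q3) (pc := pcF3) (cut := Cut.none) (xt := Ext.none) (P1 := 536870912) (W1 := 536870912) (P2 := 0) (W2 := 1230186008) (P3 := 1046898278) (W3 := 26843546)
    rfl k0_pm_133

noncomputable def f_pm_202 : ℕ → ℕ → ℕ → ℕ → Bool := onCell 0 536870912 0 536870912 1046898278 26843546
    (rowFX 1 false true false .pp 2 0 2 (qsf 0 536870912 1073741824 536870912 0) ndF0q2 ndF5q2 pcF0 Cut.none Ext.none)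

def k0_pm_202 : ∃ t, chk3 f_pm_202 t 2 1 1 = true :=
  ⟨(l 3), by decide +kernel⟩

def k1_pm_202 : ∃ t, chk3 f_pm_202 t 12 2 1 = true :=
  ⟨(l 3), by decide +kernel⟩

def k2_pm_202 : ∃ t, chk3 f_pm_202 t 26 2 1 = true :=
  ⟨(l 3), by decide +kernel⟩

def k3_pm_202 : ∃ t, chk3 f_pm_202 t 54 4 1 = true :=
  ⟨(a (l 3) (a (l 3) (b (a (l 3) (b (b (b (c (b (c (l 16314384) (l 16310200)) (l 16379664)) (b (c (b (l 16288960) (l 16322664)) (b (c (l 198271991671) (b (c (l 16275880) (c (l 16275400) (l 16276080))) (l 16295536))) (c (l 16321912) (c (l 16325328) (l 16329320))))) (c (l 16376664) (c (l 16382120) (l 16349080))))) (b (c (l 16447360) (c (l 16431832) (c (l 16363768) (l 16475816)))) (l 3))) (l 3)) (l 3))) (l 3)))), by decide +kernel⟩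

def k4_pm_202 : ∃ t, chk3 f_pm_202 t 55 16 2 = true :=
  ⟨(b (b (b (a (c (b (l 16297440) (l 16329048)) (l 16288944)) (c (l 16318960) (l 16318656))) (a (c (a (l 16376384) (l 16372184)) (b (l 16356712) (l 16326312))) (c (l 16377704) (b (l 16367024) (c (l 16389384) (l 16392264)))))) (b (a (c (b (l 16423040) (l 16458480)) (a (l 16445512) (l 16381104))) (c (b (l 16418448) (c (l 16446600) (l 16450080))) (c (b (l 16420496) (l 16458128)) (l 16405496)))) (c (a (l 16470344) (l 16424056)) (a (l 16415496) (b (l 16505224) (l 16541880)))))) (b (c (b (a (a (l 16560840) (l 16561504)) (a (l 16586704) (l 16569680))) (a (a (l 16589440) (l 16548712)) (l 16533336))) (b (a (b (l 16536784) (l 16613624)) (l 16510024)) (l 147806640247))) (c (a (a (l 16441480) (l 16442528)) (b (l 16482664) (l 16430088))) (c (a (l 16421936) (l 16406952)) (a (l 16361792) (l 16368608)))))), by decide +kernel⟩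

def k5_pm_202 : ∃ t, chk3 f_pm_202 t 55 16 3 = true :=
  ⟨(c (b (a (b (b (b (l 16266928) (a (l 16321224) (c (l 16323904) (l 16325112)))) (a (b (l 16355952) (l 16393800)) (c (l 16288976) (b (l 16357200) (l 16400360))))) (b (c (l 16410040) (l 16439144)) (c (l 16509840) (l 16544552)))) (b (b (b (l 16302416) (c (l 16341184) (b (l 16340456) (c (l 16357200) (a (l 16350720) (l 16368944)))))) (c (b (l 16372088) (l 16398728)) (c (a (l 16362488) (l 16393672)) (b (l 16300816) (l 16405872))))) (c (b (b (l 16434376) (l 16477528)) (l 16542720)) (b (l 16402584) (l 16554736))))) (b (c (b (l 16514888) (l 16510384)) (c (b (l 16580096) (l 16540456)) (b (l 16573056) (l 16536184)))) (c (c (l 16282640) (l 16276800)) (l 16418832)))) (b (b (b (c (b (b (l 16283408) (a (a (l 16273536) (l 16308864)) (l 16315376))) (c (a (b (a (l 16310232) (l 16321856)) (a (l 16329008) (l 16334552))) (b (l 16317064) (l 16354552))) (b (a (a (l 16292728) (l 16328648)) (l 16333064)) (a (l 16330424) (l 16344816))))) (c (b (b (l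 16286304) (c (l 16236384) (l 16300968))) (l 16262560)) (b (b (b (l 16288184) (l 16294688)) (l 16305288)) (l 16331160)))) (c (b (a (a (l 16361928) (c (l 16362184) (l 16366240))) (l 16313840)) (l 16403736)) (a (l 16287336) (l 16401552)))) (c (b (c (l 16446672) (l 16411856)) (l 16474384)) (l 16394176))) (b (l 16444704) (l 16416840)))), by decide +kernel⟩

def k6_pm_202 : ∃ t, chk3 f_pm_202 t 55 17 1 = true :=
  ⟨(c (b (c (b (a (a (l 16336696) (l 16338048)) (c (b (l 16383128) (l 16307128)) (l 16266472))) (c (a (l 16196528) (l 16192784)) (a (l 16172448) (l 16169832)))) (c (b (a (l 16302272) (l 16288128)) (a (l 16151512) (b (l 16187760) (l 16109680)))) (b (b (a (l 16322384) (l 16330408)) (l 16242264)) (l 16130032)))) (c (c (a (b (l 16041192) (b (l 15927176) (l 15850816))) (b (l 16039328) (b (l 15925216) (l 15849120)))) (b (a (l 15956304) (b (l 16054376) (l 15976984))) (l 15865712))) (a (l 15933064) (l 15932760)))) (b (b (c (l 16223880) (l 16240192)) (l 16016384)) (a (l 15897688) (l 15918064)))),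 by decide +kernel⟩

def k7_pm_202 : ∃ t, chk3 f_pm_202 t 55 9 1 = true :=
  ⟨(a (b (b (a (l 3) (a (l 3) (c (b (b (c (l 15768368) (l 15777216)) (l 15818664)) (l 15933840)) (b (b (l 15758720) (l 15794888)) (l 15913128))))) (l 3)) (l 3)) (b (b (c (b (b (c (l 15776800) (l 15764456)) (c (a (l 15775680) (l 15726208)) (l 15743680))) (c (l 15846208) (l 15834528))) (b (b (l 15745656) (c (l 15730816) (a (l 15737928) (l 15686344)))) (l 15817000))) (c (c (l 15990584) (l 16044592)) (c (l 16035672) (l 15921896)))) (b (b (c (l 16250344) (l 16112168)) (c (l 16380568) (l 33989524855))) (a (l 3) (c (l 16436432) (b (l 16406936) (l 16520048))))))), by decide +kernel⟩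

def k8_pm_202 : ∃ t, chk3 f_pm_202 t 27 5 1 = true :=
  ⟨(a (l 3) (a (l 3) (b (b (b (c (l 16418872) (c (l 16436256) (b (b (l 16548168) (l 16506608)) (l 16393624)))) (l 3)) (l 3)) (l 3)))), by decide +kernel⟩

def k9_pm_202 : ∃ t, chk3 f_pm_202 t 14 32 2 = true :=
  ⟨(c (b (a (b (a (a (l 16325952) (l 16315928)) (c (l 16281480) (l 16285560))) (a (l 16410248) (c (a (l 16440672) (l 16456440)) (a (l 16450008) (l 16462664))))) (a (b (l 16380800) (c (l 16438696) (l 16492328))) (l 16477808))) (a (a (b (a (c (l 16448768) (l 16368656)) (c (l 16483192) (l 16447120))) (a (c (l 16442712) (l 16496184)) (c (l 16530664) (l 16536792)))) (b (c (b (l 16519464) (l 16491928)) (b (a (l 16515104) (l 16521344)) (a (l 16539152) (b (l 16510088) (l 16560184))))) (c (b (l 16532232) (l 16588184)) (a (l 16561384) (l 16588336))))) (a (b (b (c (l 16558120) (l 16572552)) (a (c (b (l 16589680) (l 16612824)) (c (l 16600024) (l 16593696))) (l 16618776))) (c (c (a (l 16635640) (l 16617808)) (l 16592240)) (a (l 16604328)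 (l 16628480)))) (b (c (l 16631320) (l 16545352)) (l 16674184))))) (c (b (a (a (b (a (l 16329000) (l 16338432)) (b (l 16404848) (l 16439264))) (a (b (l 16349640) (l 16414168)) (l 16421552))) (l 16468416)) (a (b (a (b (l 16402056) (l 16464200)) (b (c (a (l 16524696) (l 16502872)) (a (l 16500480) (l 16541704))) (a (l 16534456) (l 16531136)))) (a (a (l 16508032) (l 16540256)) (a (l 16552120) (l 16565272)))) (a (a (b (l 16563696) (l 16575584)) (l 16591392)) (l 16540024)))) (b (a (b (a (a (l 16333112) (b (l 16315328) (l 16369272))) (l 16368048)) (b (a (a (l 16397288) (l 16422928)) (l 16449728)) (a (a (l 16427888) (c (l 16467232) (l 16403776))) (a (c (l 16466880) (l 16423160)) (l 16503024))))) (b (l 16423336) (b (l 16503816) (l 16486120)))) (a (a (b (a (l 16440880) (l 16426688)) (a (l 16540584) (l 16543336))) (b (a (c (l 16492632) (l 16499200)) (c (l 16529912) (l 16516552))) (b (c (l 16534816) (l 16522688)) (l 16560352)))) (b (l 16570816) (l 16543464)))))), by decide +kernel⟩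

def k10_pm_202 : ∃ t, chk3 f_pm_202 t 14 32 3 = true :=
  ⟨(a (b (c (b (a (b (l 16314240) (b (l 16350456) (c (l 16308984) (c (l 16375200) (l 16293296))))) (l 16379816)) (b (a (a (c (c (l 16408248) (b (l 16403040) (l 16418960))) (c (a (l 16379896) (l 16304528)) (l 16365344))) (c (a (c (l 16425704) (l 16404464)) (l 16434544)) (l 16417392))) (l 16423440)) (a (c (a (c (l 16429976) (l 16427952)) (c (l 16437496) (l 16444640))) (c (l 16379728) (l 16416040))) (l 16431752)))) (b (b (c (l 16349384) (b (l 16238800) (l 16280256))) (c (l 16303744) (l 16384768))) (c (a (b (l 16371264) (l 16428672)) (l 16447376)) (l 16444400)))) (a (c (b (c (a (b (l 16449712) (l 16482752)) (c (l 16435248) (l 16365608))) (l 16410064)) (l 16433256)) (b (l 16430032) (l 16494504))) (c (b (c (b (b (l 16482600) (l 16457264)) (l 16454976)) (l 16500552)) (l 16528416)) (l 16463056)))) (b (c (b (c (l 16431744) (l 16375872)) (c (b (l 16465744) (l 16532472)) (b (l 16495432) (l 16509160)))) (b (c (b (l 16420992) (c (l 16462776)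 (l 16435832))) (b (c (l 16338848) (b (l 16309968) (l 16431704))) (l 16393528))) (c (l 16376768) (l 16515600)))) (c (c (b (l 16487144) (l 16609720)) (l 16431920)) (l 16456944)))), by decide +kernel⟩

def k11_pm_202 : ∃ t, chk3 f_pm_202 t 14 33 1 = true :=
  ⟨(c (b (a (a (c (a (b (b (l 16576232) (l 16588792)) (b (l 16616064) (l 16577056))) (b (l 16495200) (l 16535624))) (c (b (l 16478584) (l 16525032)) (l 16451640))) (c (b (c (l 16619400) (l 16615200)) (c (l 16566064) (l 16621592))) (c (a (l 16538920) (l 16482456)) (l 16534232)))) (c (b (c (a (a (l 16644976) (l 16665448)) (l 16615680)) (a (b (l 16624704) (l 16637392)) (l 16670800))) (c (a (l 16563576) (a (l 16657104) (l 16652584))) (a (l 16564680) (l 16654904)))) (a (b (c (b (l 16601312) (l 16635280)) (l 16641016)) (l 16618008)) (l 16503848)))) (a (c (a (b (a (l 16519384) (l 16522496)) (a (l 16445776) (l 16445296))) (b (a (l 16485784) (l 16539432)) (l 16425592))) (b (a (l 16394688) (l 16466632)) (a (a (l 16417392) (l 16418064)) (l 16373168))))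 (c (b (a (l 16542968) (l 16538104)) (l 16409952)) (b (l 16438624) (l 16300320))))) (a (c (b (a (c (l 16460112) (a (l 16419480) (l 16529112))) (c (l 16496776) (l 16420352))) (a (c (c (l 16354104) (l 16349544)) (l 16429864)) (c (l 16271104) (l 16372008)))) (a (b (a (l 16414512) (l 16480864)) (l 16406912)) (b (l 16454928) (l 16351504)))) (a (c (b (l 16448504) (c (l 16381656) (l 16439472))) (l 16324440)) (c (l 16305984) (l 16433984))))), by decide +kernel⟩

def k12_pm_202 : ∃ t, chk3 f_pm_202 t 14 17 2 = true :=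
  ⟨(b (b (a (a (c (a (l 16332352) (l 16285528)) (a (l 16299272) (c (l 16303264) (l 16288296)))) (a (b (l 16351760) (c (l 16290080) (l 16217008))) (c (l 16258664) (b (l 16336240) (l 16257920))))) (c (a (c (l 16285152) (l 16288344)) (l 16293208)) (a (c (l 16292472) (b (l 16298520) (l 16253864))) (c (l 16300368) (l 16281800))))) (a (c (a (c (l 16173896) (l 16089272)) (b (l 16210752) (l 16129944))) (a (c (b (l 16186008) (l 16113312)) (l 16143160)) (c (b (l 16184984) (l 16104008)) (l 16138440)))) (a (c (a (l 16164248) (l 16157000)) (a (l 16139856) (l 16062696))) (c (b (l 16198440) (l 16110144)) (b (l 16150792) (l 16037832)))))) (b (a (c (a (a (a (c (l 16034744) (b (l 16051224) (l 15973008))) (l 16023360)) (l 16019832)) (c (l 16018704) (b (l 16039552) (l 15961024)))) (a (l 16002400) (l 15987184))) (c (a (b (l 16040392) (c (l 15970096) (l 15953832))) (b (l 16022808) (l 15937944))) (a (l 15982776) (l 15964088)))) (a (c (c (a (a (b (c (l 15922368) (l 15909008)) (c (l 15844208) (l 15837696)))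 (l 15875656)) (b (l 15904448) (l 15827224))) (a (l 15870904) (l 15854424))) (a (l 15862584) (l 15845824))) (c (a (c (b (l 15850448) (l 15813544)) (l 15842976)) (b (l 15857608) (l 15782592))) (a (l 15834200) (l 15796112)))))), by decide +kernel⟩

def k13_pm_202 : ∃ t, chk3 f_pm_202 t 14 17 3 = true :=
  ⟨(b (a (b (a (c (l 16245088) (l 16219352)) (b (c (l 16308520) (l 16306712)) (l 16170400))) (a (l 16113512) (a (l 16125496) (l 16128288)))) (c (b (a (c (l 16247632) (l 16289344)) (l 16272736)) (a (l 16120016) (l 16064480))) (a (b (l 16223712) (l 16050472)) (b (l 16264640) (l 16119864))))) (a (a (a (b (l 15984744) (l 15841976)) (l 15908072)) (b (l 15973464) (l 15828608))) (a (b (l 15968872) (a (l 15820208) (l 15808416))) (b (a (l 15946208) (l 15922640)) (a (l 15795376) (l 15776488)))))), by decide +kernel⟩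

def k14_pm_202 : ∃ t, chk3 f_pm_202 t 14 18 1 = true :=
  ⟨(a (b (c (a (b (a (c (b (l 15764728) (l 15693120)) (l 15714984)) (c (l 15719632) (l 15706344))) (a (c (b (b (l 15662168) (l 15673432)) (l 15723736)) (l 15688248)) (c (b (l 15604976) (a (l 15604096) (l 15529648))) (b (l 15589944) (l 15567960))))) (b (l 15701968) (c (l 15554704) (l 15538904)))) (a (b (a (c (l 15701712) (l 15604552)) (c (l 15692920) (l 15679496))) (a (b (c (l 15644984) (b (l 15619448) (l 15631096))) (l 15690096)) (b (a (c (l 15576488) (l 15561416)) (l 15561152)) (c (l 15552504) (a (l 15558672) (l 15502936)))))) (b (l 15675232) (a (l 15518280) (l 15510440))))) (c (a (a (c (l 15898824) (l 15887696)) (c (b (l 15667992) (l 15805896)) (l 15723816))) (b (c (a (l 15486208) (b (l 15436944) (l 15417224))) (a (l 15511872) (l 15418232))) (c (l 15578592) (l 15562880)))) (a (a (c (l 15876544) (l 15844416)) (c (l 15710360) (b (l 15624944) (l 15768280)))) (b (a (b (c (l 15466584) (l 15449896)) (l 15509864)) (b (l 15393056)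 (c (l 15381464) (l 15363560)))) (c (l 15547144) (l 15342656)))))) (c (b (a (b (c (l 15692832) (l 15679048)) (l 15507448)) (b (l 15660376) (c (l 15515240) (l 15498792)))) (a (b (c (l 15384712) (l 15366400)) (c (a (l 15359712) (b (l 15263088) (l 15238496))) (a (l 15340944) (l 15239112)))) (c (b (l 15357824) (l 15200888)) (l 15259280)))) (b (a (b (l 15658192) (l 15496320)) (b (l 15632296) (l 15474080))) (a (b (a (l 15345344) (l 15330976)) (a (b (c (l 15293672) (l 15274520)) (l 15333696)) (b (l 15212848) (c (l 15197512) (l 15177016))))) (c (l 15239400) (l 15135640)))))), by decide +kernel⟩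

def k15_pm_202 : ∃ t, chk3 f_pm_202 t 14 19 1 = true :=
  ⟨(c (a (b (a (c (b (l 16023080) (l 16165184)) (l 16023496)) (b (c (a (l 15785888) (l 15635432)) (l 15699232)) (a (l 15929640) (l 15780160)))) (a (c (l 16165520) (l 16265800)) (c (b (l 15975536) (l 16167496)) (l 15937752)))) (b (b (a (c (l 15400528) (l 15382200)) (c (a (b (l 15141440) (l 15182672)) (b (l 15078256) (l 15043680))) (a (l 15145784) (l 15044952)))) (a (l 15547232) (l 15208784))) (a (l 15788296) (l 15456960)))) (a (b (a (c (l 15889104) (b (l 15931512) (l 16016600))) (a (b (c (l 15760008) (l 15747064)) (c (l 15913272) (l 15902360))) (l 15445816))) (c (a (l 16177336) (b (l 15997880) (l 16152144))) (a (b (l 16120840) (a (l 16439528) (l 16363080))) (b (a (l 16063096) (l 15912136)) (a (l 16219096) (l 16071392)))))) (b (a (b (l 15333720) (l 15514688)) (b (a (b (l 15086680) (l 15129192)) (b (l 15021280) (c (l 14997024) (l 14973696)))) (l 15166840))) (a (l 15636456) (l 15421648))))), by decide +kernel⟩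

def k16_pm_202 : ∃ t, chk3 f_pm_202 t 15 32 1 = true :=
  ⟨(c (b (a (b (a (l 16472640) (l 16491576)) (c (l 16517520) (b (l 16562456) (c (l 16609360) (l 16590400))))) (a (b (l 16501496) (c (l 16603000) (b (l 16579912) (c (l 16631216) (a (l 16619464) (l 16630672)))))) (l 16458736))) (a (c (b (c (c (l 16679456) (l 16531880)) (b (l 16656000) (l 16543552))) (a (l 16706136) (l 16692568))) (b (c (b (l 16565296) (l 16663744)) (l 16634528)) (c (l 16673184) (l 16619664)))) (a (c (b (b (l 16680776) (c (l 16732584) (l 16718136))) (c (l 16626200) (l 16735256))) (b (c (b (l 16608272) (l 16687936)) (l 16647936)) (c (l 16701552) (b (l 16665208) (l 16689640))))) (b (l 16540328) (l 16599216))))) (b (c (c (b (a (l 16501248) (l 16503048)) (a (b (b (l 16564432) (l 16562608)) (l 16595800)) (a (b (l 16472392) (l 16601360)) (l 16591784)))) (b (a (a (l 16499184) (l 16425592)) (l 16441008)) (a (b (l 16499040) (l 16552840)) (a (b (l 16562752) (l 16555776)) (l 16555336))))) (b (a (c (b (l 16448168) (b (a (l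 16513600) (l 16523784)) (c (l 16537736) (l 16526760)))) (b (c (b (l 16482896) (a (l 16493656) (l 16503344))) (b (a (l 16454624) (c (l 16484456) (l 16484952))) (l 16500592))) (c (l 16502704) (l 16529592)))) (c (a (l 16506848) (l 16439976)) (b (a (l 16490928) (l 16419584)) (l 16516216)))) (a (c (a (l 16521256) (l 16468968)) (l 16561440)) (a (c (a (l 16465424) (l 16571224)) (l 16580496)) (c (l 16568016) (l 16575232)))))) (c (a (b (c (b (l 16604376) (l 16621608)) (l 16578888)) (l 16627032)) (a (b (c (b (l 16611352) (l 16630816)) (b (l 16561680) (l 16644880))) (l 16615592)) (l 16502000))) (a (c (l 16601496) (l 16693200)) (a (c (l 16605952) (l 16697224)) (l 16622600)))))), by decide +kernel⟩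

def k17_pm_202 : ∃ t, chk3 f_pm_202 t 15 33 1 = true :=
  ⟨(c (a (b (c (b (l 16562720) (c (l 16610392) (l 16552096))) (c (b (l 16580936) (l 16633816)) (l 16645784))) (c (c (b (l 16555104) (l 16508496)) (l 16504544)) (l 16479760))) (b (c (b (a (l 16702232) (l 16746776)) (a (c (l 16665312) (l 16670728)) (c (l 16696256) (l 16589992)))) (b (c (a (l 16731120) (l 16623144)) (l 16594312)) (l 16447960))) (c (a (b (l 16596520) (l 16504264)) (a (l 16480592) (l 16400120))) (a (l 16499032) (l 16523040))))) (c (a (a (l 16277256) (l 16277824)) (a (b (l 16471232) (l 16465864)) (b (a (l 16492496) (l 16679384)) (c (l 16427328) (l 16485672))))) (a (b (l 16560080) (l 16421616)) (a (l 16409368) (b (l 16515952) (l 16450152)))))), by decide +kernel⟩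

def k18_pm_202 : ∃ t, chk3 f_pm_202 t 15 17 1 = true :=
  ⟨(b (c (c (c (a (a (l 16020576) (l 16097280)) (l 16155984)) (a (a (l 16010984) (l 16094440)) (l 16144592))) (a (a (b (l 16209904) (l 16033520)) (l 16108984)) (a (l 16017256) (b (l 16341896) (l 16162448))))) (a (c (b (l 16265696) (l 16115112)) (l 16179264)) (a (l 15980368) (c (l 16235536) (l 16219016))))) (c (c (a (b (c (a (l 15985464) (l 15993672)) (a (l 15949288) (l 15937824))) (a (b (l 15788040) (l 15769112)) (c (l 15802664) (l 15800064)))) (b (l 15838128) (a (c (b (l 15855216) (l 15765664)) (l 15817032)) (l 15842848)))) (a (b (a (l 15940392) (l 15969880)) (a (l 15787296) (l 15800048))) (a (l 15705880) (l 15909928)))) (a (a (b (l 15938776) (c (l 15778976) (l 15768888))) (l 15720688)) (a (l 15882336) (l 15718384))))), by decide +kernel⟩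

def k19_pm_202 : ∃ t, chk3 f_pm_202 t 15 9 1 = true :=
  ⟨(b (c (b (a (a (b (c (a (l 15644928) (l 15644600)) (l 15624184)) (l 15482520)) (c (b (b (l 15681256) (l 15605240)) (a (l 15487000) (l 15485872))) (b (l 15644088) (l 15478704)))) (c (b (a (a (l 15634840) (l 15653304)) (l 15690544)) (a (l 15390648) (l 15525472))) (a (l 15458552) (l 15589456)))) (a (a (l 15245848) (c (b (a (l 15331512) (l 15324880)) (l 15170840)) (l 15228776))) (a (c (b (l 15224912) (a (l 15160408) (l 15166112))) (b (l 15323496) (l 15155928))) (c (b (l 15353864) (l 15117840)) (l 15252296))))) (a (b (a (b (c (l 15609856) (l 15599200)) (l 15450040)) (b (l 15629288) (l 15457944))) (a (l 15206608) (b (l 15289192) (l 15130360)))) (b (a (c (l 15563176) (l 15546944)) (l 15445920)) (a (c (l 15232680) (l 15217008)) (c (l 15243040) (l 15231976)))))) (b (c (a (a (b (c (l 15029672) (l 15001056)) (a (b (l 14943320) (l 14984360)) (b (l 14905776) (l 14868784)))) (c (l 14945312) (l 14930528))) (b (c (a (a (l 15003184) (l 15003192))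 (b (l 15072120) (l 14991864))) (a (l 14989736) (l 15008520))) (a (l 14864960) (c (l 14841888) (l 14862536))))) (a (a (b (l 14965656) (a (b (l 14894064) (l 14936120)) (l 14840856))) (l 14896528)) (b (a (a (l 14974400) (l 14971896)) (c (l 14994656) (l 14982240))) (a (l 14831280) (c (l 14843760) (l 14830480)))))) (a (a (a (l 15172760) (c (l 14917288) (l 14974040))) (c (b (a (b (l 14793360) (l 14811616)) (l 14748528)) (a (l 14930136) (c (l 14769072) (l 14754640)))) (b (a (l 14681544) (l 14704976)) (a (l 14885768) (l 14718440))))) (c (a (a (b (l 14737504) (c (l 14654512) (l 14644312))) (l 14672888)) (b (c (l 14753512) (l 14729984)) (l 14621848))) (a (a (b (l 14702168) (l 14612320)) (l 14636400)) (c (l 14645008) (l 14627504))))))), by decide +kernel⟩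

def k20_pm_202 : ∃ t, chk3 f_pm_202 t 28 10 1 = true :=
  ⟨(b (c (b (a (l 16392208) (c (l 16216024) (l 16274432))) (a (b (l 16431544) (c (l 16307344) (l 16408376))) (l 16442632))) (c (b (a (l 16454424) (l 16207024)) (a (b (l 16448728) (a (l 16380288) (l 16456760))) (l 16463176))) (b (b (a (l 16364312) (l 16086712)) (a (a (a (l 16502248) (l 16542288)) (l 16540896)) (l 16254712))) (b (a (a (l 16345512) (a (l 16496184) (l 16535056))) (l 16396528)) (a (c (a (b (l 16373152) (l 16370720)) (l 16328424)) (a (b (a (b (l 56001403079) (c (l 16340568) (l 27010390855))) (b (l 16401928) (l 16354048))) (a (l 16360416) (c (l 16376176) (l 16375056)))) (b (l 16452112) (a (b (l 16403192) (l 16397816)) (l 16403664))))) (a (a (l 16490056) (l 16528824)) (l 16568176))))))) (b (c (a (l 16468712) (b (a (l 16500992) (l 16579736)) (l 16557128))) (a (c (l 16463704) (c (l 16419256) (a (l 16423720) (b (a (l 16435264) (l 16450544)) (l 16504720))))) (b (c (b (l 16462592) (l 16486120)) (a (a (b (b (l 16442136) (l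 16459064)) (l 16481312)) (b (l 16464952) (l 16497544))) (b (l 16553352) (c (l 16531608) (a (l 16504808) (l 16549584)))))) (c (l 16554328) (c (l 16552928) (a (l 16535664) (l 16547192))))))) (c (a (l 16563096) (l 16645568)) (c (l 77476582423) (c (l 16465368) (a (l 16495576) (l 16539360))))))), by decide +kernel⟩

def k21_pm_202 : ∃ t, chk3 f_pm_202 t 28 11 1 = true :=
  ⟨(a (b (c (b (l 16624168) (l 127405603223)) (b (c (l 16624080) (a (l 16615592) (l 16581376))) (c (l 16526264) (c (l 16524904) (a (l 16588352) (l 16522920)))))) (a (l 3) (c (b (b (l 16503432) (l 16423232)) (c (l 16460576) (l 16456440))) (b (c (b (l 16498440) (l 16459144)) (b (l 57612290023) (b (l 16461944) (l 16448320)))) (c (l 16452296) (l 47948579351)))))) (b (c (c (l 16462968) (l 16418728)) (c (c (l 16437976) (l 16415856)) (b (c (l 16551648) (l 16509008)) (c (l 16489040) (l 16403568))))) (c (b (b (l 16367608) (c (l 16404376) (l 16399520))) (c (l 16399336) (l 16394400))) (b (c (b (l 16424008) (b (l 16399704) (l 16389576)))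 (b (c (l 16420752) (l 16376640)) (b (l 16394944) (l 16384640)))) (c (l 16347512) (c (l 16385752) (l 16383280))))))), by decide +kernel⟩

def k22_pm_202 : ∃ t, chk3 f_pm_202 t 29 5 1 = true :=
  ⟨(a (b (b (a (b (c (l 16109520) (c (l 16161064) (l 15985712))) (c (l 16350960) (c (l 16366920) (b (l 16378456) (l 16452984))))) (c (l 15912256) (b (l 15997560) (l 16169472)))) (c (b (a (a (l 16572144) (l 16539840)) (l 16379056)) (l 16483464)) (b (b (a (c (l 16636640) (l 16552304)) (l 16446248)) (c (a (l 16624792) (l 16578056)) (a (b (a (l 16549688) (l 16597608)) (l 16576576)) (b (l 16514008) (a (l 16614712) (l 16575008)))))) (c (l 16482128) (a (l 16551360) (c (l 16517512) (b (l 16548104) (l 16549080)))))))) (b (c (b (l 16473984) (l 16366704)) (c (b (l 16490680) (l 16380624)) (b (c (l 16467576) (l 16424208)) (c (l 16377104) (l 16353784))))) (c (b (b (l 16324032) (c (l 16312320) (l 16306256))) (c (l 16309592) (l 16303480))) (b (c (b (l 16315328) (l 16300192)) (b (c (l 16310968) (l 16308072))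 (b (l 16296816) (l 16291320)))) (c (l 16297368) (l 16291256)))))) (b (b (c (b (l 15772504) (l 16047672)) (b (l 15703920) (c (l 16055040) (l 15878192)))) (b (c (l 16281024) (c (l 16273152) (l 16121112))) (c (c (l 16354952) (l 16372808)) (c (a (l 16467752) (l 16310320)) (a (b (b (l 16467016) (l 16536920)) (l 16493024)) (b (l 16302040) (l 16431728))))))) (b (c (b (l 16382824) (l 16162328)) (a (c (b (l 16404248) (l 16286040)) (b (l 16400232) (l 16259096))) (l 16157968))) (b (c (b (l 16202112) (l 16199472)) (b (c (l 16190928) (a (l 16213680) (l 16152344))) (c (l 16188224) (b (l 16181104) (l 16180224))))) (c (l 16198992) (c (l 16187728) (l 16180216))))))), by decide +kernel⟩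

def k23_pm_202 : ∃ t, chk3 f_pm_202 t 15 5 2 = true :=
  ⟨(b (b (a (b (a (l 15431616) (c (l 15095416) (l 15082280))) (a (l 15737112) (c (l 15409296) (l 15400544)))) (b (a (a (l 14817736) (b (c (l 14480584) (l 14568248)) (l 14714632))) (b (a (l 14501144) (l 14502152)) (a (l 14535408) (c (l 14400480) (l 14409120))))) (a (a (l 14949960) (l 14875176)) (l 14689920)))) (b (a (a (l 16004064) (l 15683680)) (a (l 15090712) (l 14998040))) (a (a (b (l 16187720) (l 16260672)) (l 15939032)) (a (l 15612072) (l 15278712))))) (b (b (a (a (l 16267296) (a (l 16167400) (l 15940192))) (a (c (l 15852680) (l 15855992)) (l 15539928))) (a (l 16112168) (a (c (l 15935304) (l 15939944)) (b (l 15722616) (l 15790504))))) (a (a (l 16088440) (l 15991808)) (a (l 15891832) (l 15802184))))), by decide +kernel⟩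

def k24_pm_202 : ∃ t, chk3 f_pm_202 t 15 5 3 = true :=
  ⟨(b (b (a (b (a (l 15396408) (l 15050752)) (a (l 15542720) (l 15375600))) (b (a (a (l 14783960) (b (l 14456416) (l 14678568))) (b (a (l 14458856) (l 14445144)) (a (l 14493760) (c (l 14376744) (l 14350568))))) (a (b (l 14940712) (l 15099920)) (l 14477216)))) (a (a (b (l 15859432) (b (l 16153560) (a (b (l 16316192) (l 16354176)) (l 16216048)))) (b (l 15663656) (l 15926696))) (a (b (l 15216128) (l 15493856)) (c (l 14903480) (b (l 14952888) (l 15202040)))))) (b (a (b (a (a (l 16286040) (c (l 16233472) (b (l 16254416) (l 16202120)))) (b (a (c (l 16171080) (l 16059088)) (l 16034744)) (a (l 16162240) (c (l 16101816) (l 16093704))))) (c (l 16099616) (l 16091240))) (a (b (a (c (l 15938200) (l 15780496)) (l 15773600)) (c (l 15878816) (b (a (l 16004384) (l 15919728)) (l 15923048)))) (b (c (l 15522192) (l 15410448)) (c (a (l 15806496) (l 15678520)) (a (b (l 15786440) (l 15836008)) (b (l 15617920) (l 15685184))))))) (a (c (l 16031456) (a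 (l 16067240) (l 15975800))) (a (c (l 15892728) (l 15883544)) (c (l 15790792) (a (l 15809952) (b (l 15759792) (l 15760256)))))))), by decide +kernel⟩

def k25_pm_202 : ∃ t, chk3 f_pm_202 t 6 3 1 = true :=
  ⟨(b (l 3) (l 3)), by decide +kernel⟩

def k26_pm_202 : ∃ t, chk3 f_pm_202 t 14 6 1 = true :=
  ⟨(a (a (a (l 3) (b (b (c (c (b (b (l 16484168) (l 16460576)) (l 16460576)) (b (l 16466928) (l 16456440))) (c (b (l 16452296) (l 16452296)) (b (l 30768710167) (l 16448160)))) (l 3)) (l 3))) (b (c (b (c (b (a (b (l 16420064) (l 16420064)) (l 16378400)) (l 16399336)) (b (a (l 16415392) (l 16373192)) (l 16394400))) (c (b (l 16399336) (l 16399336)) (b (l 16394400) (l 16394400)))) (b (c (b (a (l 16410728) (l 16367976)) (l 16389456)) (b (c (l 16385752) (l 16383280)) (a (l 16406056) (l 16362768)))) (c (c (l 16390696) (l 16388224)) (c (a (l 16407224) (l 16364064)) (a (l 16404888) (l 16361464)))))) (c (b (c (l 68349675639) (l 87676874743)) (c (l 16399336) (l 87140003831))) (c (b (a (l 16410728)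 (l 16367976)) (c (l 16390696) (l 16388224))) (b (c (l 16385752) (l 75328821543)) (c (l 16385752) (l 68349499687))))))) (b (c (b (c (a (b (l 16309592) (l 16330568)) (b (l 16202744) (l 16202744))) (a (b (l 16303480) (l 16303480)) (b (l 16195232) (l 16195232)))) (c (a (l 16309592) (l 16202744)) (a (l 16303480) (l 16195232)))) (b (c (a (b (l 16297368) (l 16297368)) (b (l 16187728) (l 16187728))) (a (c (l 16292784) (l 16289728)) (b (l 16180216) (l 16180216)))) (c (a (c (l 16298896) (l 16295840)) (l 16187728)) (a (c (l 16292784) (l 16289728)) (b (l 16180216) (l 16180216)))))) (c (c (b (a (l 16309592) (l 16202744)) (a (l 16309592) (l 16202744))) (b (a (l 16303480) (l 16195232)) (a (l 16303480) (l 16195232)))) (c (b (a (l 16297368) (l 16187728)) (a (l 16297368) (l 16187728))) (b (a (a (l 16317552) (l 16264704)) (l 16180216)) (a (c (l 16292784) (l 16289728)) (l 16180216))))))), by decide +kernel⟩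

def k27_pm_202 : ∃ t, chk3 f_pm_202 t 14 7 1 = true :=
  ⟨(b (a (a (l 3) (a (l 3) (c (c (l 94119392087) (b (l 16373192) (l 16373192))) (c (b (l 16367976) (l 16367976)) (b (l 78550046615) (l 64591402903)))))) (c (c (a (b (l 16309592) (l 16309592)) (l 16202744)) (b (a (l 16303480) (l 16195232)) (a (l 16303480) (l 16195232)))) (c (b (a (l 16297368) (l 16187728)) (a (l 16297368) (l 16187728))) (b (a (c (l 16292784) (l 16289728)) (l 16180216)) (a (c (l 16292784) (l 16289728)) (l 16180216)))))) (b (a (l 3) (a (b (c (l 174649760551) (c (l 16297368) (l 133847541991))) (l 2)) (c (l 16219960) (c (l 16187728) (l 16180216))))) (l 2))), by decide +kernel⟩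

def k28_pm_202 : ∃ t, chk3 f_pm_202 t 15 3 1 = true :=
  ⟨(b (c (c (a (b (a (b (a (l 16118088) (l 16069512)) (l 16098872)) (l 15992968)) (b (a (l 16098872) (l 15992968)) (a (l 16098872) (l 15992968)))) (b (l 15849384) (l 15849384))) (a (b (a (b (l 16084920) (l 16084920)) (l 15992768)) (b (a (l 16084920) (l 15992768)) (l 15960280))) (b (a (l 15891568) (l 15796464)) (l 15741992)))) (a (b (a (b (a (c (l 16100856) (l 16092240)) (l 16046240)) (c (l 16075984) (l 16067056))) (l 15980656)) (b (c (l 15947384) (a (l 16067056) (l 15975608))) (c (l 16031272) (l 16000792)))) (b (a (l 15886904) (c (l 15791016) (l 15788352))) (a (l 15886904) (b (l 15791176) (l 15791176)))))) (c (b (a (b (c (l 16045240) (l 16044168)) (c (l 16045240) (l 16044168))) (a (b (l 15849704) (l 15891648)) (l 15802400))) (a (b (c (l 16045240) (l 16044168)) (l 881104009991)) (c (l 15849384) (b (l 15846848) (l 15846848))))) (b (a (b (c (l 16031272) (l 16021768)) (c (l 16031272) (l 16021768))) (a (b (c (l 15892544) (l 15883352))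 (c (l 15892544) (l 15883352))) (l 15791176))) (a (c (b (l 16031272) (l 16031272)) (b (l 16021768) (l 16021768))) (c (b (l 15845568) (l 15845568)) (b (l 15779120) (l 15842032))))))), by decide +kernel⟩

theorem s29_pm_202 : ∃ t, chk3 f_pm_202 t 14 3 1 = true := ex3_b k26_pm_202 k27_pm_202

theorem s30_pm_202 : ∃ t, chk3 f_pm_202 t 7 3 1 = true := ex3_a s29_pm_202 k28_pm_202

theorem s31_pm_202 : ∃ t, chk3 f_pm_202 t 3 3 1 = true := ex3_a k25_pm_202 s30_pm_202

theorem s32_pm_202 : ∃ t, chk3 f_pm_202 t 15 5 1 = true := ex3_c k23_pm_202 k24_pm_202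

theorem s33_pm_202 : ∃ t, chk3 f_pm_202 t 28 5 1 = true := ex3_b k20_pm_202 k21_pm_202

theorem s34_pm_202 : ∃ t, chk3 f_pm_202 t 14 5 1 = true := ex3_a s33_pm_202 k22_pm_202

theorem s35_pm_202 : ∃ t, chk3 f_pm_202 t 7 5 1 = true := ex3_a s34_pm_202 s32_pm_202

theorem s36_pm_202 : ∃ t, chk3 f_pm_202 t 15 16 1 = true := ex3_b k16_pm_202 k17_pm_202

theorem s37_pm_202 : ∃ t, chk3 f_pm_202 t 15 8 1 = true := ex3_b s36_pm_202 k18_pm_202

theorem s38_pm_202 : ∃ t, chk3 f_pm_202 t 15 4 1 = true := ex3_b s37_pm_202 k19_pm_202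

theorem s39_pm_202 : ∃ t, chk3 f_pm_202 t 14 9 1 = true := ex3_b k14_pm_202 k15_pm_202

theorem s40_pm_202 : ∃ t, chk3 f_pm_202 t 14 17 1 = true := ex3_c k12_pm_202 k13_pm_202

theorem s41_pm_202 : ∃ t, chk3 f_pm_202 t 14 32 1 = true := ex3_c k9_pm_202 k10_pm_202

theorem s42_pm_202 : ∃ t, chk3 f_pm_202 t 14 16 1 = true := ex3_b s41_pm_202 k11_pm_202

theorem s43_pm_202 : ∃ t, chk3 f_pm_202 t 14 8 1 = true := ex3_b s42_pm_202 s40_pm_202

theorem s44_pm_202 : ∃ t, chk3 f_pm_202 t 14 4 1 = true := ex3_b s43_pm_202 s39_pm_202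

theorem s45_pm_202 : ∃ t, chk3 f_pm_202 t 7 4 1 = true := ex3_a s44_pm_202 s38_pm_202

theorem s46_pm_202 : ∃ t, chk3 f_pm_202 t 7 2 1 = true := ex3_b s45_pm_202 s35_pm_202

theorem s47_pm_202 : ∃ t, chk3 f_pm_202 t 55 16 1 = true := ex3_c k4_pm_202 k5_pm_202

theorem s48_pm_202 : ∃ t, chk3 f_pm_202 t 55 8 1 = true := ex3_b s47_pm_202 k6_pm_202

theorem s49_pm_202 : ∃ t, chk3 f_pm_202 t 55 4 1 = true := ex3_b s48_pm_202 k7_pm_202

theorem s50_pm_202 : ∃ t, chk3 f_pm_202 t 27 4 1 = true := ex3_a k3_pm_202 s49_pm_202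

theorem s51_pm_202 : ∃ t, chk3 f_pm_202 t 27 2 1 = true := ex3_b s50_pm_202 k8_pm_202

theorem s52_pm_202 : ∃ t, chk3 f_pm_202 t 13 2 1 = true := ex3_a k2_pm_202 s51_pm_202

theorem s53_pm_202 : ∃ t, chk3 f_pm_202 t 6 2 1 = true := ex3_a k1_pm_202 s52_pm_202

theorem s54_pm_202 : ∃ t, chk3 f_pm_202 t 3 2 1 = true := ex3_a s53_pm_202 s46_pm_202

theorem s55_pm_202 : ∃ t, chk3 f_pm_202 t 3 1 1 = true := ex3_b s54_pm_202 s31_pm_202

theorem s56_pm_202 : ∃ t, chk3 f_pm_202 t 1 1 1 = true := ex3_a k0_pm_202 s55_pm_202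

theorem c_pm_202 : CertFX 0 536870912 1073741824 536870912 1046898278 26843546 false true false .pp 2 0 2
    ndF0q2 ndF5q2 pcF0 Cut.none Ext.none :=
  certFX1 (fam := false) (s1 := true) (s2 := false) (a := 2) (b := 0) (c := 2) (cn := .pp) (n1 := ndF0q2) (n2 := ndF5q2) (pc := pcF0) (cut := Cut.none) (xt := Ext.none) (P1 := 0) (W1 := 536870912) (P2 := 1073741824) (W2 := 536870912) (P3 := 1046898278) (W3 := 26843546)
    rfl (fun _ => rfl) s56_pm_202

noncomputable def f_pm_203 : ℕ → ℕ → ℕ → ℕ → Bool := onCell 0 536870912 0 1230186008 1046898278 26843546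
    (rowFX 0 false true false .up 2 0 3 (qsf 0 536870912 0 1230186008 0) ndF0q2 ndF5q3 pcF0 Cut.none Ext.none)

def k0_pm_203 : ∃ t, chk3 f_pm_203 t 1 1 1 = true :=
  ⟨(b (l 2) (a (l 3) (b (l 2) (a (l 3) (b (l 2) (b (a (a (l 3) (l 2)) (l 2)) (b (b (a (a (l 3) (a (a (l 3) (l 2)) (l 2))) (l 2)) (a (a (l 3) (c (a (l 167133569095) (l 16198992)) (a (c (l 16297368) (a (l 16317552) (l 16264704))) (c (l 16187728) (l 16180216))))) (a (a (c (l 16088264) (l 16071520)) (l 2)) (l 2)))) (a (a (l 3) (c (c (a (l 16309592) (l 16202744)) (a (l 16303480) (l 16195232))) (c (a (c (l 16298896) (l 16295840)) (l 16187728)) (a (c (l 127405098039) (a (l 16274160) (l 16263088))) (c (l 16182096) (l 16178336)))))) (c (a (c (l 16045240) (l 16044168)) (c (l 15849384) (l 15846848))) (a (c (a (l 16075984) (l 15985696)) (a (l 16067056) (l 15975608))) (c (a (l 15892544) (l 15791016)) (a (l 15883352) (l 15788352))))))))))))), by decide +kernel⟩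

theorem c_pm_203 : CertFX 0 536870912 0 1230186008 1046898278 26843546 false true false .up 2 0 3
    ndF0q2 ndF5q3 pcF0 Cut.none Ext.none :=
  certFX0 (fam := false) (s1 := true) (s2 := false) (a := 2) (b := 0) (c := 3) (cn := .up) (n1 := ndF0q2) (n2 := ndF5q3) (pc := pcF0) (cut := Cut.none) (xt := Ext.none) (P1 := 0) (W1 := 536870912) (P2 := 0) (W2 := 1230186008) (P3 := 1046898278) (W3 := 26843546)
    rfl k0_pm_203

noncomputable def cut_pm_213 : Cut := Cut.of [[⟨0, 1, 0, 67108864⟩, ⟨1, 1, 0, 67108864⟩, ⟨2, 2, 0, 67108864⟩, ⟨3, 0, 0, 1233125376⟩]]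

noncomputable def f_pm_213 : ℕ → ℕ → ℕ → ℕ → Bool := onCell 0 536870912 0 1230186008 1046898278 26843546
    (rowFX 0 false true false .pnn 2 1 3 (qsf 0 536870912 0 1230186008 1) ndF0q2 ndF5q3 pcF1 cut_pm_213 Ext.none)

def k0_pm_213 : ∃ t, chk3 f_pm_213 t 2 1 1 = true :=
  ⟨(b (l 3) (l 3)), by decide +kernel⟩

def k1_pm_213 : ∃ t, chk3 f_pm_213 t 6 1 1 = true :=
  ⟨(b (l 3) (b (l 3) (l 3))), by decide +kernel⟩

def k2_pm_213 : ∃ t, chk3 f_pm_213 t 14 1 1 = true :=
  ⟨(b (b (l 3) (l 3)) (b (b (l 3) (a (l 3) (a (l 3) (b (l 3) (b (l 3) (l 3)))))) (b (a (l 3) (a (b (l 3) (l 3)) (b (c (b (l 16198992) (l 16198992)) (c (l 171428291559) (l 166059566759))) (c (c (l 16202744) (l 16195232)) (c (l 197198095991) (b (l 16180216) (l 16180216))))))) (b (a (l 3) (c (c (b (l 193440030055) (a (l 16309592) (l 16202744))) (a (b (l 16303480) (l 16303480)) (b (l 16195232) (l 16195232)))) (c (a (b (l 16276400) (l 116667686343)) (b (l 16187728) (l 16187728))) (b (a (l 86602902391) (a (l 16208816) (l 16151336)))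 (a (c (l 16292784) (l 95729708119)) (c (l 16182096) (l 16178336))))))) (b (a (l 3) (c (a (c (l 16309592) (l 16303480)) (c (l 16202744) (l 16195232))) (c (a (c (l 16298896) (l 16295840)) (l 16187728)) (a (c (l 115593937975) (a (l 16316104) (l 16263088))) (c (l 16182096) (l 16178336)))))) (l 1)))))), by decide +kernel⟩

def k3_pm_213 : ∃ t, chk3 f_pm_213 t 15 2 1 = true :=
  ⟨(b (a (l 3) (l 6)) (b (a (b (l 3) (l 3)) (a (b (a (a (l 3) (l 6)) (l 6)) (c (b (a (b (a (l 3) (c (l 168743810551) (l 158543149543))) (c (l 165522596823) (l 159080054391))) (c (b (l 15911304) (l 15876768)) (b (l 15817808) (l 15795704)))) (c (a (b (l 140826474615) (l 15907304)) (b (l 15850008) (l 15830168))) (a (c (l 15882200) (l 15858720)) (l 15774224)))) (b (a (a (l 15917240) (l 141363143671)) (c (c (l 15741536) (l 15696160)) (l 15619864))) (a (l 147268456535) (c (l 15710664) (l 15636872)))))) (b (l 6) (a (c (b (c (l 15824128) (l 15703424)) (c (l 15765664) (l 15675160))) (c (b (l 15588616) (l 15591864)) (b (l 15471864)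 (l 15506696)))) (b (l 6) (c (l 15633448) (c (l 15462960) (l 15355344)))))))) (a (a (l 3) (a (b (l 3) (b (l 3) (b (l 3) (c (c (l 340005405479) (l 16013992)) (l 325509926935))))) (b (c (b (c (l 984787630279) (l 264306820471)) (c (l 15942160) (l 15922768))) (b (l 15873896) (l 15879224))) (c (b (c (l 15956968) (l 15925192)) (c (a (l 350742693191) (l 15931016)) (a (l 15965904) (l 15930832)))) (b (l 15894448) (l 381344297751)))))) (b (c (a (c (b (a (l 15884072) (l 15807288)) (l 15830912)) (b (a (l 15852144) (l 15760216)) (l 15908584))) (b (a (l 15701040) (l 15617504)) (l 15658664))) (a (b (a (l 15787840) (l 15687592)) (a (l 15799464) (l 15706912))) (b (c (a (l 15605752) (l 15490608)) (l 15483440)) (c (l 15577232) (l 15527888))))) (c (c (a (b (l 15828816) (l 15845856)) (l 15704008)) (a (b (l 15812328) (l 15818392)) (l 15668344))) (a (b (a (l 15820648) (l 15735224)) (a (l 15859512) (l 15780608))) (b (c (l 15612264) (l 15577624)) (l 15654256)))))))), by decide +kernel⟩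

def k4_pm_213 : ∃ t, chk3 f_pm_213 t 15 6 1 = true :=
  ⟨(b (a (a (a (l 3) (b (l 3) (c (b (l 358796118471) (l 16065376)) (l 409261971959)))) (b (c (a (c (b (l 278802169143) (l 16020096)) (l 294371515111)) (b (c (a (l 15981528) (l 15952432)) (l 15905984)) (l 15969016))) (b (a (l 16002976) (l 15958336)) (l 15981760))) (b (c (c (l 370606963079) (l 15993808)) (l 15981880)) (c (c (l 15993768) (l 15993664)) (l 15981680))))) (b (a (c (b (a (b (l 15908080) (l 15917944)) (l 15852040)) (l 15833000)) (b (a (l 15908408) (l 15845216)) (l 15892408))) (c (b (l 15759480) (l 15803896)) (b (l 15692704) (a (l 15823528) (l 15766224))))) (c (a (c (l 15891248) (l 15895488)) (l 15810936)) (a (l 15891432) (l 15801496))))) (a (b (c (a (b (l 207935505447) (l 224041631431)) (c (l 15972240) (l 15993032))) (a (b (l 222967696295) (l 16071536)) (l 15980952))) (c (a (l 270749197591) (l 15991624)) (a (l 260011752423) (l 15980656)))) (c (b (a (c (l 15888832) (l 15892752)) (l 15805712)) (a (l 15891648) (l 15802408)))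 (b (a (l 15888224) (l 15795008)) (a (l 15886904) (l 15791184)))))), by decide +kernel⟩

def k5_pm_213 : ∃ t, chk3 f_pm_213 t 15 7 1 = true :=
  ⟨(b (b (a (c (a (b (l 16088264) (l 16088264)) (c (l 15992968) (l 15992768))) (a (b (l 16071520) (l 16071520)) (l 15980656))) (c (a (l 15891648) (l 15802400)) (a (l 15886904) (l 15791176)))) (a (c (a (c (l 16098872) (l 16084920)) (l 15991624)) (a (c (l 16075984) (l 16067056)) (l 15980656))) (c (a (l 15891648) (l 15802400)) (a (l 15886904) (l 15791176))))) (b (c (a (c (a (l 16098872) (l 15992968)) (a (l 16084920) (l 15992768))) (b (l 15850352) (c (l 15849384) (l 15846848)))) (a (c (b (l 16031272) (l 16010296)) (b (a (l 16067056) (l 15975608)) (a (l 16067056) (l 15975608)))) (a (b (l 15886904) (l 15823984)) (b (l 15791176) (l 15749232))))) (c (a (c (a (l 16098872) (l 15992968)) (b (l 16044168) (l 16044168))) (b (c (l 15849384) (l 15846848)) (c (l 15849384) (l 15846848)))) (a (b (c (l 16031272) (a (l 16067056) (l 15975608))) (c (l 801580113959)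 (a (l 16067056) (l 15975608)))) (b (c (l 15845568) (a (l 15883352) (l 15788352))) (c (a (l 15892544) (l 15791016)) (a (l 15883352) (l 15788352)))))))), by decide +kernel⟩

theorem s6_pm_213 : ∃ t, chk3 f_pm_213 t 15 3 1 = true := ex3_b k4_pm_213 k5_pm_213

theorem s7_pm_213 : ∃ t, chk3 f_pm_213 t 15 1 1 = true := ex3_b k3_pm_213 s6_pm_213

theorem s8_pm_213 : ∃ t, chk3 f_pm_213 t 7 1 1 = true := ex3_a k2_pm_213 s7_pm_213

theorem s9_pm_213 : ∃ t, chk3 f_pm_213 t 3 1 1 = true := ex3_a k1_pm_213 s8_pm_213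

theorem s10_pm_213 : ∃ t, chk3 f_pm_213 t 1 1 1 = true := ex3_a k0_pm_213 s9_pm_213

theorem c_pm_213 : CertFX 0 536870912 0 1230186008 1046898278 26843546 false true false .pnn 2 1 3
    ndF0q2 ndF5q3 pcF1 cut_pm_213 Ext.none :=
  certFX0 (fam := false) (s1 := true) (s2 := false) (a := 2) (b := 1) (c := 3) (cn := .pnn) (n1 := ndF0q2) (n2 := ndF5q3) (pc := pcF1) (cut := cut_pm_213) (xt := Ext.none) (P1 := 0) (W1 := 536870912) (P2 := 0) (W2 := 1230186008) (P3 := 1046898278) (W3 := 26843546)
    rfl s10_pm_213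

noncomputable def f_mm_001 : ℕ → ℕ → ℕ → ℕ → Bool := onCell 0 536870912 0 536870912 1046898278 26843546
    (rowFX 1 false false false .up 0 0 1 (qsf 0 536870912 536870912 469762048 0) ndF0q0 ndF5q1 pcF0 Cut.none Ext.none)

def k0_mm_001 : ∃ t, chk3 f_mm_001 t 1 1 1 = true :=
  ⟨(l 3), by decide +kernel⟩

theorem c_mm_001 : CertFX 0 536870912 536870912 469762048 1046898278 26843546 false false false .up 0 0 1
    ndF0q0 ndF5q1 pcF0 Cut.none Ext.none :=
  certFX1 (fam := false) (s1 := false) (s2 := false) (a := 0) (b := 0) (c := 1) (cn := .up) (n1 := ndF0q0) (n2 := ndF5q1) (pc := pcF0) (cut := Cut.none) (xt := Ext.none) (P1 := 0) (W1 := 536870912) (P2 := 536870912) (W2 := 469762048) (P3 := 1046898278) (W3 := 26843546)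
    rfl (fun _ => rfl) k0_mm_001

noncomputable def f_mm_011 : ℕ → ℕ → ℕ → ℕ → Bool := onCell 0 536870912 536870912 536870912 1046898278 26843546
    (rowFX 1 false false false .pnn 0 1 1 (qsf 0 536870912 536870912 469762048 1) ndF0q0 ndF5q1 pcF1 Cut.none Ext.none)

def k0_mm_011 : ∃ t, chk3 f_mm_011 t 1 1 1 = true :=
  ⟨(l 5), by decide +kernel⟩

theorem c_mm_011 : CertFX 0 536870912 536870912 469762048 1046898278 26843546 false false false .pnn 0 1 1
    ndF0q0 ndF5q1 pcF1 Cut.none Ext.none :=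
  certFX1 (fam := false) (s1 := false) (s2 := false) (a := 0) (b := 1) (c := 1) (cn := .pnn) (n1 := ndF0q0) (n2 := ndF5q1) (pc := pcF1) (cut := Cut.none) (xt := Ext.none) (P1 := 0) (W1 := 536870912) (P2 := 536870912) (W2 := 469762048) (P3 := 1046898278) (W3 := 26843546)
    rfl (fun _ => rfl) k0_mm_011

noncomputable def f_mm_012 : ℕ → ℕ → ℕ → ℕ → Bool := onCell 0 536870912 1073741824 536870912 1046898278 26843546
    (rowFX 0 false false false .pnp 0 1 2 (qsf 0 536870912 1073741824 536870912 1) ndF0q0 ndF5q2 pcF1 Cut.none Ext.none)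

def k0_mm_012 : ∃ t, chk3 f_mm_012 t 1 1 1 = true :=
  ⟨(l 5), by decide +kernel⟩

theorem c_mm_012 : CertFX 0 536870912 1073741824 536870912 1046898278 26843546 false false false .pnp 0 1 2
    ndF0q0 ndF5q2 pcF1 Cut.none Ext.none :=
  certFX0 (fam := false) (s1 := false) (s2 := false) (a := 0) (b := 1) (c := 2) (cn := .pnp) (n1 := ndF0q0) (n2 := ndF5q2) (pc := pcF1) (cut := Cut.none) (xt := Ext.none) (P1 := 0) (W1 := 536870912) (P2 := 1073741824) (W2 := 536870912) (P3 := 1046898278) (W3 := 26843546)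
    rfl k0_mm_012

noncomputable def f_mm_022 : ℕ → ℕ → ℕ → ℕ → Bool := onCell 0 536870912 1073741824 536870912 1046898278 26843546
    (rowFX 0 false false false .pp 0 2 2 (qsf 0 536870912 1073741824 536870912 2) ndF0q0 ndF5q2 pcF2 Cut.none Ext.none)

def k0_mm_022 : ∃ t, chk3 f_mm_022 t 1 1 1 = true :=
  ⟨(l 5), by decide +kernel⟩

theorem c_mm_022 : CertFX 0 536870912 1073741824 536870912 1046898278 26843546 false false false .pp 0 2 2
    ndF0q0 ndF5q2 pcF2 Cut.none Ext.none :=
  certFX0 (fam := false) (s1 := false) (s2 := false) (a := 0) (b := 2) (c := 2) (cn := .pp) (n1 := ndF0q0) (n2 := ndF5q2) (pc := pcF2) (cut := Cut.none) (xt := Ext.none) (P1 := 0) (W1 := 536870912) (P2 := 1073741824) (W2 := 536870912) (P3 := 1046898278) (W3 := 26843546)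
    rfl k0_mm_022

noncomputable def f_mm_023 : ℕ → ℕ → ℕ → ℕ → Bool := onCell 0 536870912 0 1230186008 1046898278 26843546
    (rowFX 0 false false false .up 0 2 3 (qsf 0 536870912 0 1230186008 2) ndF0q0 ndF5q3 pcF2 Cut.none Ext.none)

def k0_mm_023 : ∃ t, chk3 f_mm_023 t 1 1 1 = true :=
  ⟨(l 5), by decide +kernel⟩

theorem c_mm_023 : CertFX 0 536870912 0 1230186008 1046898278 26843546 false false false .up 0 2 3
    ndF0q0 ndF5q3 pcF2 Cut.none Ext.none :=
  certFX0 (fam := false) (s1 := false) (s2 := false) (a := 0) (b := 2) (c := 3) (cn := .up) (n1 := ndF0q0) (n2 := ndF5q3) (pc := pcF2) (cut := Cut.none) (xt := Ext.none) (P1 := 0) (W1 := 536870912) (P2 := 0) (W2 := 1230186008) (P3 := 1046898278) (W3 := 26843546)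
    rfl k0_mm_023

noncomputable def f_mm_033 : ℕ → ℕ → ℕ → ℕ → Bool := onCell 0 536870912 0 1230186008 1046898278 26843546
    (rowFX 0 false false false .pnn 0 3 3 (qsf 0 536870912 0 1230186008 3) ndF0q0 ndF5q3 pcF3 Cut.none Ext.none)

def k0_mm_033 : ∃ t, chk3 f_mm_033 t 1 1 1 = true :=
  ⟨(l 5), by decide +kernel⟩

theorem c_mm_033 : CertFX 0 536870912 0 1230186008 1046898278 26843546 false false false .pnn 0 3 3
    ndF0q0 ndF5q3 pcF3 Cut.none Ext.none :=
  certFX0 (fam := false) (s1 := false) (s2 := false) (a := 0) (b := 3) (c := 3) (cn := .pnn) (n1 := ndF0q0) (n2 := ndF5q3) (pc := pcF3) (cut := Cut.none) (xt := Ext.none) (P1 := 0) (W1 := 536870912) (P2 := 0) (W2 := 1230186008) (P3 := 1046898278) (W3 := 26843546)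
    rfl k0_mm_033

noncomputable def f_mm_101 : ℕ → ℕ → ℕ → ℕ → Bool := onCell 0 536870912 536870912 469762048 1046898278 26843546
    (rowFX 2 false false false .npn 1 0 1 (qsf 536870912 536870912 536870912 469762048 0) ndF0q1 ndF5q1 pcF0 Cut.none Ext.none)

def k0_mm_101 : ∃ t, chk3 f_mm_101 t 1 1 1 = true :=
  ⟨(l 3), by decide +kernel⟩

theorem c_mm_101 : CertFX 536870912 536870912 536870912 469762048 1046898278 26843546 false false false .npn 1 0 1
    ndF0q1 ndF5q1 pcF0 Cut.none Ext.none :=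
  certFX2 (fam := false) (s1 := false) (s2 := false) (a := 1) (b := 0) (c := 1) (cn := .npn) (n1 := ndF0q1) (n2 := ndF5q1) (pc := pcF0) (cut := Cut.none) (xt := Ext.none) (P1 := 536870912) (W1 := 536870912) (P2 := 536870912) (W2 := 469762048) (P3 := 1046898278) (W3 := 26843546)
    rfl (fun _ => rfl) k0_mm_101

noncomputable def f_mm_102 : ℕ → ℕ → ℕ → ℕ → Bool := onCell 536870912 536870912 0 536870912 1046898278 26843546
    (rowFX 1 false false false .npp 1 0 2 (qsf 536870912 536870912 1073741824 536870912 0) ndF0q1 ndF5q2 pcF0 Cut.none Ext.none)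

def k0_mm_102 : ∃ t, chk3 f_mm_102 t 1 1 1 = true :=
  ⟨(l 3), by decide +kernel⟩

theorem c_mm_102 : CertFX 536870912 536870912 1073741824 536870912 1046898278 26843546 false false false .npp 1 0 2
    ndF0q1 ndF5q2 pcF0 Cut.none Ext.none :=
  certFX1 (fam := false) (s1 := false) (s2 := false) (a := 1) (b := 0) (c := 2) (cn := .npp) (n1 := ndF0q1) (n2 := ndF5q2) (pc := pcF0) (cut := Cut.none) (xt := Ext.none) (P1 := 536870912) (W1 := 536870912) (P2 := 1073741824) (W2 := 536870912) (P3 := 1046898278) (W3 := 26843546)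
    rfl (fun _ => rfl) k0_mm_102

noncomputable def f_mm_112 : ℕ → ℕ → ℕ → ℕ → Bool := onCell 536870912 536870912 1073741824 536870912 1046898278 26843546
    (rowFX 2 false false false .dn 1 1 2 (qsf 536870912 536870912 1073741824 536870912 1) ndF0q1 ndF5q2 pcF1 Cut.none Ext.none)

def k0_mm_112 : ∃ t, chk3 f_mm_112 t 1 1 1 = true :=
  ⟨(l 5), by decide +kernel⟩

theorem c_mm_112 : CertFX 536870912 536870912 1073741824 536870912 1046898278 26843546 false false false .dn 1 1 2
    ndF0q1 ndF5q2 pcF1 Cut.none Ext.none :=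
  certFX2 (fam := false) (s1 := false) (s2 := false) (a := 1) (b := 1) (c := 2) (cn := .dn) (n1 := ndF0q1) (n2 := ndF5q2) (pc := pcF1) (cut := Cut.none) (xt := Ext.none) (P1 := 536870912) (W1 := 536870912) (P2 := 1073741824) (W2 := 536870912) (P3 := 1046898278) (W3 := 26843546)
    rfl (fun _ => rfl) k0_mm_112

noncomputable def f_mm_113 : ℕ → ℕ → ℕ → ℕ → Bool := onCell 536870912 536870912 0 1230186008 1046898278 26843546
    (rowFX 0 false false false .nn 1 1 3 (qsf 536870912 536870912 0 1230186008 1) ndF0q1 ndF5q3 pcF1 Cut.none Ext.none)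

def k0_mm_113 : ∃ t, chk3 f_mm_113 t 1 1 1 = true :=
  ⟨(b (l 5) (l 5)), by decide +kernel⟩

theorem c_mm_113 : CertFX 536870912 536870912 0 1230186008 1046898278 26843546 false false false .nn 1 1 3
    ndF0q1 ndF5q3 pcF1 Cut.none Ext.none :=
  certFX0 (fam := false) (s1 := false) (s2 := false) (a := 1) (b := 1) (c := 3) (cn := .nn) (n1 := ndF0q1) (n2 := ndF5q3) (pc := pcF1) (cut := Cut.none) (xt := Ext.none) (P1 := 536870912) (W1 := 536870912) (P2 := 0) (W2 := 1230186008) (P3 := 1046898278) (W3 := 26843546)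
    rfl k0_mm_113

noncomputable def f_mm_123 : ℕ → ℕ → ℕ → ℕ → Bool := onCell 536870912 536870912 0 1230186008 1046898278 26843546
    (rowFX 0 false false false .npn 1 2 3 (qsf 536870912 536870912 0 1230186008 2) ndF0q1 ndF5q3 pcF2 Cut.none Ext.none)

def k0_mm_123 : ∃ t, chk3 f_mm_123 t 1 1 1 = true :=
  ⟨(b (l 5) (l 5)), by decide +kernel⟩

theorem c_mm_123 : CertFX 536870912 536870912 0 1230186008 1046898278 26843546 false false false .npn 1 2 3
    ndF0q1 ndF5q3 pcF2 Cut.none Ext.none :=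
  certFX0 (fam := false) (s1 := false) (s2 := false) (a := 1) (b := 2) (c := 3) (cn := .npn) (n1 := ndF0q1) (n2 := ndF5q3) (pc := pcF2) (cut := Cut.none) (xt := Ext.none) (P1 := 536870912) (W1 := 536870912) (P2 := 0) (W2 := 1230186008) (P3 := 1046898278) (W3 := 26843546)
    rfl k0_mm_123

noncomputable def f_mm_133 : ℕ → ℕ → ℕ → ℕ → Bool := onCell 1610612736 536870912 0 1230186008 1046898278 26843546
    (rowFX 2 false false false .dn 1 3 3 (qsf 536870912 536870912 0 1230186008 3) ndF0q1 ndF5q3 pcF3 Cut.none Ext.none)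

def k0_mm_133 : ∃ t, chk3 f_mm_133 t 1 1 1 = true :=
  ⟨(l 5), by decide +kernel⟩

theorem c_mm_133 : CertFX 536870912 536870912 0 1230186008 1046898278 26843546 false false false .dn 1 3 3
    ndF0q1 ndF5q3 pcF3 Cut.none Ext.none :=
  certFX2 (fam := false) (s1 := false) (s2 := false) (a := 1) (b := 3) (c := 3) (cn := .dn) (n1 := ndF0q1) (n2 := ndF5q3) (pc := pcF3) (cut := Cut.none) (xt := Ext.none) (P1 := 536870912) (W1 := 536870912) (P2 := 0) (W2 := 1230186008) (P3 := 1046898278) (W3 := 26843546)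
    rfl (fun _ => rfl) k0_mm_133

noncomputable def f_mm_202 : ℕ → ℕ → ℕ → ℕ → Bool := onCell 0 536870912 1073741824 536870912 1046898278 26843546
    (rowFX 0 false false false .pp 2 0 2 (qsf 0 536870912 1073741824 536870912 0) ndF0q2 ndF5q2 pcF0 Cut.none Ext.none)

def k0_mm_202 : ∃ t, chk3 f_mm_202 t 1 1 1 = true :=
  ⟨(l 3), by decide +kernel⟩

theorem c_mm_202 : CertFX 0 536870912 1073741824 536870912 1046898278 26843546 false false false .pp 2 0 2
    ndF0q2 ndF5q2 pcF0 Cut.none Ext.none :=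
  certFX0 (fam := false) (s1 := false) (s2 := false) (a := 2) (b := 0) (c := 2) (cn := .pp) (n1 := ndF0q2) (n2 := ndF5q2) (pc := pcF0) (cut := Cut.none) (xt := Ext.none) (P1 := 0) (W1 := 536870912) (P2 := 1073741824) (W2 := 536870912) (P3 := 1046898278) (W3 := 26843546)
    rfl k0_mm_202

noncomputable def f_mm_203 : ℕ → ℕ → ℕ → ℕ → Bool := onCell 0 536870912 0 1230186008 1046898278 26843546
    (rowFX 0 false false false .up 2 0 3 (qsf 0 536870912 0 1230186008 0) ndF0q2 ndF5q3 pcF0 Cut.none Ext.none)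

def k0_mm_203 : ∃ t, chk3 f_mm_203 t 1 1 1 = true :=
  ⟨(b (l 2) (l 3)), by decide +kernel⟩

theorem c_mm_203 : CertFX 0 536870912 0 1230186008 1046898278 26843546 false false false .up 2 0 3
    ndF0q2 ndF5q3 pcF0 Cut.none Ext.none :=
  certFX0 (fam := false) (s1 := false) (s2 := false) (a := 2) (b := 0) (c := 3) (cn := .up) (n1 := ndF0q2) (n2 := ndF5q3) (pc := pcF0) (cut := Cut.none) (xt := Ext.none) (P1 := 0) (W1 := 536870912) (P2 := 0) (W2 := 1230186008) (P3 := 1046898278) (W3 := 26843546)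
    rfl k0_mm_203

noncomputable def f_mm_213 : ℕ → ℕ → ℕ → ℕ → Bool := onCell 0 536870912 0 1230186008 1046898278 26843546
    (rowFX 0 false false false .pnn 2 1 3 (qsf 0 536870912 0 1230186008 1) ndF0q2 ndF5q3 pcF1 Cut.none Ext.none)

def k0_mm_213 : ∃ t, chk3 f_mm_213 t 1 1 1 = true :=
  ⟨(b (a (l 3) (l 5)) (l 3)), by decide +kernel⟩

theorem c_mm_213 : CertFX 0 536870912 0 1230186008 1046898278 26843546 false false false .pnn 2 1 3
    ndF0q2 ndF5q3 pcF1 Cut.none Ext.none :=
  certFX0 (fam := false) (s1 := false) (s2 := false) (a := 2) (b := 1) (c := 3) (cn := .pnn) (n1 := ndF0q2) (n2 := ndF5q3) (pc := pcF1) (cut := Cut.none) (xt := Ext.none) (P1 := 0) (W1 := 536870912) (P2 := 0) (W2 := 1230186008) (P3 := 1046898278) (W3 := 26843546)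
    rfl k0_mm_213

end Pool.Agent.Strip051.G.IE1.Tab.C.FB05

namespace Pool.Agent.Strip051.G.IE1.Tab.C.FB06

open Pool.Agent.Strip051.PB Pool.Agent.Strip051.PB.T
open Pool.Agent.Strip051.G.IE1.Tab

noncomputable def f_pp_001 : ℕ → ℕ → ℕ → ℕ → Bool := onCell 0 536870912 0 536870912 1046898278 26843546
    (rowFX 1 false true true .up 0 0 1 (qsf 0 536870912 536870912 469762048 0) ndF0q0 ndF6q1 pcF0 Cut.none Ext.none)

def k0_pp_001 : ∃ t, chk3 f_pp_001 t 1 1 1 = true :=
  ⟨(l 3), by decide +kernel⟩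

theorem c_pp_001 : CertFX 0 536870912 536870912 469762048 1046898278 26843546 false true true .up 0 0 1
    ndF0q0 ndF6q1 pcF0 Cut.none Ext.none :=
  certFX1 (fam := false) (s1 := true) (s2 := true) (a := 0) (b := 0) (c := 1) (cn := .up) (n1 := ndF0q0) (n2 := ndF6q1) (pc := pcF0) (cut := Cut.none) (xt := Ext.none) (P1 := 0) (W1 := 536870912) (P2 := 536870912) (W2 := 469762048) (P3 := 1046898278) (W3 := 26843546)
    rfl (fun _ => rfl) k0_pp_001

noncomputable def f_pp_011 : ℕ → ℕ → ℕ → ℕ → Bool := onCell 0 536870912 536870912 469762048 1046898278 26843546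
    (rowFX 0 false true true .pnn 0 1 1 (qsf 0 536870912 536870912 469762048 1) ndF0q0 ndF6q1 pcF1 Cut.none Ext.none)

def k0_pp_011 : ∃ t, chk3 f_pp_011 t 1 1 1 = true :=
  ⟨(a (l 3) (l 3)), by decide +kernel⟩

theorem c_pp_011 : CertFX 0 536870912 536870912 469762048 1046898278 26843546 false true true .pnn 0 1 1
    ndF0q0 ndF6q1 pcF1 Cut.none Ext.none :=
  certFX0 (fam := false) (s1 := true) (s2 := true) (a := 0) (b := 1) (c := 1) (cn := .pnn) (n1 := ndF0q0) (n2 := ndF6q1) (pc := pcF1) (cut := Cut.none) (xt := Ext.none) (P1 := 0) (W1 := 536870912) (P2 := 536870912) (W2 := 469762048) (P3 := 1046898278) (W3 := 26843546)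
    rfl k0_pp_011

noncomputable def f_pp_012 : ℕ → ℕ → ℕ → ℕ → Bool := onCell 0 536870912 536870912 536870912 1046898278 26843546
    (rowFX 1 false true true .pnp 0 1 2 (qsf 0 536870912 1073741824 536870912 1) ndF0q0 ndF6q2 pcF1 Cut.none Ext.none)

def k0_pp_012 : ∃ t, chk3 f_pp_012 t 1 1 1 = true :=
  ⟨(l 3), by decide +kernel⟩

theorem c_pp_012 : CertFX 0 536870912 1073741824 536870912 1046898278 26843546 false true true .pnp 0 1 2
    ndF0q0 ndF6q2 pcF1 Cut.none Ext.none :=
  certFX1 (fam := false) (s1 := true) (s2 := true) (a := 0) (b := 1) (c := 2) (cn := .pnp) (n1 := ndF0q0) (n2 := ndF6q2) (pc := pcF1) (cut := Cut.none) (xt := Ext.none) (P1 := 0) (W1 := 536870912) (P2 := 1073741824) (W2 := 536870912) (P3 := 1046898278) (W3 := 26843546)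
    rfl (fun _ => rfl) k0_pp_012

noncomputable def f_pp_022 : ℕ → ℕ → ℕ → ℕ → Bool := onCell 0 536870912 1073741824 536870912 1046898278 26843546
    (rowFX 1 false true true .pp 0 2 2 (qsf 0 536870912 1073741824 536870912 2) ndF0q0 ndF6q2 pcF2 Cut.none Ext.none)

def k0_pp_022 : ∃ t, chk3 f_pp_022 t 1 4 1 = true :=
  ⟨(b (l 3) (l 3)), by decide +kernel⟩

def k1_pp_022 : ∃ t, chk3 f_pp_022 t 2 40 1 = true :=
  ⟨(l 3), by decide +kernel⟩

def k2_pp_022 : ∃ t, chk3 f_pp_022 t 2 82 1 = true :=
  ⟨(l 3), by decide +kernel⟩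

def k3_pp_022 : ∃ t, chk3 f_pp_022 t 4 166 1 = true :=
  ⟨(l 3), by decide +kernel⟩

def k4_pp_022 : ∃ t, chk3 f_pp_022 t 8 167 1 = true :=
  ⟨(b (b (l 3) (a (c (c (a (l 15927776) (b (l 3) (l 15706240))) (a (l 15920152) (l 15680344))) (c (a (l 15920680) (l 15740344)) (a (c (l 15925736) (l 15931504)) (l 15740136)))) (a (c (c (b (l 3) (l 15548896)) (l 15573856)) (l 15570952)) (l 3)))) (c (a (b (a (b (b (l 15911344) (b (l 15907504) (b (b (l 15905904) (l 15905264)) (l 15904304)))) (l 15898552)) (b (b (c (l 15698968) (l 15709976)) (b (c (l 15695328) (l 15706288)) (c (b (b (l 15693816) (l 15693208)) (l 15692304)) (a (l 15740776) (l 15661536))))) (l 15695528))) (a (l 15883232) (l 15680920))) (b (a (b (b (c (l 15541968) (l 15562136)) (b (c (l 15538512) (l 15558624)) (c (c (a (l 15560552) (l 15492880)) (l 15541624)) (c (l 15553472) (l 15561304))))) (c (l 15530448) (l 15550440))) (b (b (c (l 15417632) (l 15419208)) (b (c (l 15414344) (l 15415872)) (c (b (b (l 15412976) (l 15412432)) (l 15411608))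 (l 15413656)))) (l 15402312))) (a (c (l 15516656) (l 15536440)) (l 15389112)))) (a (b (a (b (b (c (l 15907584) (l 15917176)) (b (c (l 15903664) (l 15913200)) (a (c (l 15952592) (c (l 15951456) (l 15956704))) (c (l 15845224) (l 15857240))))) (l 15713304)) (b (b (c (l 15727856) (l 15727464)) (b (c (l 15724112) (l 15723672)) (c (c (l 15717192) (l 15723984)) (l 15721144)))) (l 15713040))) (a (l 15697536) (l 15698000))) (b (b (b (l 15477592) (b (l 15474096) (c (a (l 15558704) (l 15395616)) (l 15459296)))) (l 15465936)) (l 15451984))))), by decide +kernel⟩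

def k5_pp_022 : ∃ t, chk3 f_pp_022 t 9 167 1 = true :=
  ⟨(b (l 3) (a (c (b (a (b (b (c (l 15378976) (l 15362120)) (b (c (l 15378200) (l 15361328)) (c (a (a (c (l 15345584) (l 15336128)) (l 15355080)) (l 15410080)) (c (l 15365504) (l 15356376))))) (l 15369176)) (b (b (l 3) (b (l 15534624) (c (l 15542696) (l 15526560)))) (l 15534624))) (a (l 15367800) (l 15534624))) (b (b (b (l 15419168) (b (l 15376816) (a (c (l 15342672) (l 15324408)) (l 15502352)))) (l 15418344)) (l 15417656))) (b (b (b (l 3) (b (l 3) (c (a (l 15709000) (l 15873096)) (l 15745120)))) (l 15778896)) (l 15778896)))), by decide +kernel⟩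

def k6_pp_022 : ∃ t, chk3 f_pp_022 t 5 83 1 = true :=
  ⟨(b (l 3) (b (b (a (l 3) (a (l 3) (c (a (l 16744176) (l 16777216)) (l 2065509991591)))) (b (a (l 3) (a (c (l 16578104) (l 16572936)) (c (l 16760864) (l 16760440)))) (a (c (l 7456229362487) (l 6606899550295)) (c (a (l 16578104) (l 16739896)) (a (l 16572936) (l 16739464)))))) (a (b (b (b (c (l 4847036730167) (l 16112520)) (b (c (l 16085280) (l 16154464)) (c (a (l 16080000) (l 16337824)) (a (l 16061896) (l 16326416))))) (a (l 16070944) (l 16332120))) (a (l 16070944) (l 16332120))) (a (b (b (b (c (l 16578104) (l 16572936)) (b (c (l 16578104) (l 16572936)) (c (a (l 16519680) (l 16635432)) (c (l 16574224) (l 16571640))))) (l 16575520)) (l 16575520)) (b (b (b (c (l 16760864) (l 16760440)) (b (c (l 16760864) (l 16760440)) (b (b (c (l 16760864) (l 16760440)) (c (l 16718920) (a (l 16743320) (l 16777216)))) (a (l 16743752) (l 16777216))))) (a (l 16743752) (l 16777216))) (a (l 16743752) (l 16777216))))))), by decide +kernel⟩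

def k7_pp_022 : ∃ t, chk3 f_pp_022 t 2 21 1 = true :=
  ⟨(a (a (a (c (a (b (l 15711960) (l 15401448)) (a (l 15174008) (a (l 15301272) (l 15159912)))) (a (c (l 15396264) (a (l 15588056) (l 15498384))) (c (l 15191832) (l 15375096)))) (c (a (b (c (l 15362616) (l 15380072)) (a (c (l 15124272) (l 15142520)) (b (c (l 15149568) (l 15160864)) (l 15110040)))) (b (a (c (b (l 15345912) (l 15232352)) (l 15298848)) (a (b (l 15299320) (l 15239104)) (l 15251336))) (l 15220440))) (a (b (l 15372840) (a (l 15136176) (l 15124048))) (b (b (l 15303496) (l 15224824)) (l 15193984))))) (a (c (a (l 15365504) (l 15534624)) (l 15416520)) (l 15674032))) (a (a (l 16070944) (l 16332120)) (a (l 16554552) (c (l 16760864) (l 16760440))))), by decide +kernel⟩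

def k8_pp_022 : ∃ t, chk3 f_pp_022 t 2 11 1 = true :=
  ⟨(a (a (a (b (c (a (b (l 15106344) (a (l 14887832) (l 14857704))) (b (a (l 14989272) (b (l 15001616) (l 14956720))) (l 14920848))) (a (b (l 15043856) (c (l 14856576) (l 14850384))) (b (a (l 14988224) (l 14982560)) (l 14914544)))) (c (a (l 14805120) (l 14920424)) (a (l 14774800) (l 14914112)))) (c (a (c (l 14978944) (l 15075656)) (l 15115160)) (l 15131248))) (a (c (a (l 15365224) (l 15534624)) (l 15416312)) (l 15778896))) (a (c (l 16169168) (l 16196400)) (c (a (l 16557104) (b (l 16760816) (l 16760872))) (a (l 16572896) (l 16760392))))), by decide +kernel⟩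

def k9_pp_022 : ∃ t, chk3 f_pp_022 t 6 40 1 = true :=
  ⟨(l 3), by decide +kernel⟩

def k10_pp_022 : ∃ t, chk3 f_pp_022 t 12 41 1 = true :=
  ⟨(b (l 3) (b (a (b (l 3) (b (l 3) (c (l 16777216) (l 16777216)))) (c (b (l 2061215203335) (c (l 16777216) (l 16777216))) (b (l 2011823079431) (c (l 16777216) (l 16777216))))) (c (b (b (c (l 16777216) (l 16777216)) (c (a (l 16777216) (l 16777216)) (a (l 16777216) (l 16777216)))) (b (b (b (c (l 16777216) (l 16777216)) (b (c (l 16777216) (l 16777216)) (b (b (c (l 16777216) (l 16777216)) (c (a (l 16777216) (l 16777216)) (l 16777216))) (l 16777216)))) (l 16777216)) (l 16777216))) (b (b (c (l 16777216) (l 16777216)) (c (a (l 16777216) (l 16777216)) (a (l 16777216) (l 16777216)))) (b (b (b (c (l 16777216) (l 16777216)) (b (c (l 16777216) (l 16777216)) (b (b (c (l 16777216) (l 16777216)) (c (l 16777216) (l 16777216))) (l 16777216)))) (l 16777216)) (l 16777216)))))), by decide +kernel⟩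

def k11_pp_022 : ∃ t, chk3 f_pp_022 t 13 41 1 = true :=
  ⟨(b (a (l 3) (b (l 3) (a (b (l 3) (c (l 1544208515079) (l 1531860484103))) (l 2)))) (b (b (c (c (a (l 16777216) (l 16777216)) (a (l 16777216) (l 16777216))) (c (a (l 16777216) (l 16777216)) (a (l 16777216) (l 16777216)))) (c (c (c (l 16777216) (l 16777216)) (c (l 16777216) (l 16777216))) (c (c (l 16777216) (l 16777216)) (a (l 16777216) (l 16777216))))) (b (b (c (c (l 16777216) (l 16777216)) (c (l 16777216) (l 16777216))) (b (c (c (l 16777216) (l 16777216)) (c (l 16777216) (l 16777216))) (c (c (a (l 16777216) (l 16777048)) (l 40365982151)) (c (l 43050336711) (l 16776984))))) (a (b (b (b (c (c (l 16777216) (l 16777216)) (l 16777216)) (b (c (c (l 16777088) (l 16777088)) (c (l 16777080) (l 16777080))) (b (b (c (c (l 16776840) (l 16776832)) (l 16776824)) (c (c (a (l 16777216) (l 16776392)) (l 16776608)) (c (l 16776600) (a (l 16777216) (l 16776360))))) (c (l 16776576) (l 16776560))))) (c (l 16776536) (l 16776520))) (c (l 16776456)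 (l 16776432))) (a (a (a (b (b (b (c (l 16777216) (l 16777216)) (b (c (c (l 16776968) (l 16776968)) (l 16776960)) (l 16775424))) (l 16774264)) (l 16774104)) (l 2)) (l 2)) (l 2)))))), by decide +kernel⟩

def k12_pp_022 : ∃ t, chk3 f_pp_022 t 6 21 1 = true :=
  ⟨(a (c (a (l 16777112) (l 16776320)) (a (l 16777104) (l 16776296))) (c (a (l 16774672) (l 16769992)) (a (l 16774608) (l 16769808)))), by decide +kernel⟩

def k13_pp_022 : ∃ t, chk3 f_pp_022 t 6 11 1 = true :=
  ⟨(a (c (b (l 16776000) (l 16777208)) (l 16776928)) (c (l 16774688) (l 16774624))), by decide +kernel⟩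

def k14_pp_022 : ∃ t, chk3 f_pp_022 t 7 5 1 = true :=
  ⟨(a (b (b (b (l 3) (l 2)) (l 2)) (l 2)) (l 2)), by decide +kernel⟩

def k15_pp_022 : ∃ t, chk3 f_pp_022 t 1 3 1 = true :=
  ⟨(a (a (b (a (b (a (c (l 14867920) (l 14854024)) (c (l 15149528) (l 15131104))) (a (c (l 14867920) (l 14854024)) (c (l 15149528) (l 15131104)))) (b (a (l 15428120) (l 15778896)) (a (l 15428120) (l 15778896)))) (a (a (c (l 14867920) (b (l 14854024) (l 14854024))) (c (l 15023696) (l 15131104))) (a (l 15428120) (b (l 15778896) (l 2))))) (b (a (b (a (l 16070944) (l 16332120)) (l 16182784)) (a (b (l 16575520) (l 16575520)) (b (l 16760648) (l 2)))) (a (b (l 16203752) (l 2)) (l 2)))) (b (a (b (a (l 16777216) (l 2)) (l 2)) (l 2)) (l 2))), by decide +kernel⟩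

theorem s16_pp_022 : ∃ t, chk3 f_pp_022 t 6 41 1 = true := ex3_a k10_pp_022 k11_pp_022

theorem s17_pp_022 : ∃ t, chk3 f_pp_022 t 6 20 1 = true := ex3_b k9_pp_022 s16_pp_022

theorem s18_pp_022 : ∃ t, chk3 f_pp_022 t 6 10 1 = true := ex3_b s17_pp_022 k12_pp_022

theorem s19_pp_022 : ∃ t, chk3 f_pp_022 t 6 5 1 = true := ex3_b s18_pp_022 k13_pp_022

theorem s20_pp_022 : ∃ t, chk3 f_pp_022 t 3 5 1 = true := ex3_a s19_pp_022 k14_pp_022

theorem s21_pp_022 : ∃ t, chk3 f_pp_022 t 4 167 1 = true := ex3_a k4_pp_022 k5_pp_022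

theorem s22_pp_022 : ∃ t, chk3 f_pp_022 t 4 83 1 = true := ex3_b k3_pp_022 s21_pp_022

theorem s23_pp_022 : ∃ t, chk3 f_pp_022 t 2 83 1 = true := ex3_a s22_pp_022 k6_pp_022

theorem s24_pp_022 : ∃ t, chk3 f_pp_022 t 2 41 1 = true := ex3_b k2_pp_022 s23_pp_022

theorem s25_pp_022 : ∃ t, chk3 f_pp_022 t 2 20 1 = true := ex3_b k1_pp_022 s24_pp_022

theorem s26_pp_022 : ∃ t, chk3 f_pp_022 t 2 10 1 = true := ex3_b s25_pp_022 k7_pp_022

theorem s27_pp_022 : ∃ t, chk3 f_pp_022 t 2 5 1 = true := ex3_b s26_pp_022 k8_pp_022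

theorem s28_pp_022 : ∃ t, chk3 f_pp_022 t 1 5 1 = true := ex3_a s27_pp_022 s20_pp_022

theorem s29_pp_022 : ∃ t, chk3 f_pp_022 t 1 2 1 = true := ex3_b k0_pp_022 s28_pp_022

theorem s30_pp_022 : ∃ t, chk3 f_pp_022 t 1 1 1 = true := ex3_b s29_pp_022 k15_pp_022

theorem c_pp_022 : CertFX 0 536870912 1073741824 536870912 1046898278 26843546 false true true .pp 0 2 2
    ndF0q0 ndF6q2 pcF2 Cut.none Ext.none :=
  certFX1 (fam := false) (s1 := true) (s2 := true) (a := 0) (b := 2) (c := 2) (cn := .pp) (n1 := ndF0q0) (n2 := ndF6q2) (pc := pcF2) (cut := Cut.none) (xt := Ext.none) (P1 := 0) (W1 := 536870912) (P2 := 1073741824) (W2 := 536870912) (P3 := 1046898278) (W3 := 26843546)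
    rfl (fun _ => rfl) s30_pp_022

noncomputable def f_pp_023 : ℕ → ℕ → ℕ → ℕ → Bool := onCell 1073741824 536870912 0 1230186008 1046898278 26843546
    (rowFX 2 false true true .up 0 2 3 (qsf 0 536870912 0 1230186008 2) ndF0q0 ndF6q3 pcF2 Cut.none Ext.none)

def k0_pp_023 : ∃ t, chk3 f_pp_023 t 2 2 1 = true :=
  ⟨(l 2), by decide +kernel⟩

def k1_pp_023 : ∃ t, chk3 f_pp_023 t 2 6 1 = true :=
  ⟨(a (l 2) (a (l 2) (a (l 2) (a (l 2) (b (l 2) (b (l 2) (l 16777216))))))), by decide +kernel⟩

def k2_pp_023 : ∃ t, chk3 f_pp_023 t 4 7 1 = true :=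
  ⟨(b (l 2) (l 3)), by decide +kernel⟩

def k3_pp_023 : ∃ t, chk3 f_pp_023 t 40 7 1 = true :=
  ⟨(b (b (l 2) (b (l 2) (b (l 2) (a (l 3) (a (l 3) (c (c (a (l 16777216) (l 16777216)) (a (l 16777216) (l 16777216))) (c (a (l 16777216) (l 16777216)) (a (l 16777216) (l 16777216))))))))) (a (l 3) (b (b (a (l 3) (c (c (c (l 938081255431) (l 941302480887)) (a (l 1214032904199) (l 604684419063))) (c (a (l 1196316164103) (l 532743716855)) (a (l 1168935747575) (l 494625882071))))) (l 3)) (l 3)))), by decide +kernel⟩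

def k4_pp_023 : ∃ t, chk3 f_pp_023 t 41 14 1 = true :=
  ⟨(b (l 2) (b (l 2) (a (a (b (l 2) (c (c (l 16777216) (l 16777216)) (c (l 16777216) (l 16777216)))) (c (a (c (l 16777216) (l 16777216)) (b (b (l 2) (c (l 16776928) (l 16776920))) (c (l 16777216) (l 16777216)))) (a (c (l 16777216) (l 16777208)) (c (c (l 16776512) (l 16776504)) (a (l 16777168) (l 16776496)))))) (a (a (a (c (c (b (l 16774320) (l 16776576)) (b (l 16774288) (l 16776568))) (c (c (l 16775304) (l 16775296)) (l 16775272))) (c (c (b (l 16770352) (l 16774520)) (l 16772496)) (c (l 16772440) (l 16772376)))) (c (l 16766472) (l 16766192))) (a (c (c (l 16757768) (l 16757512)) (l 16757128)) (c (a (a (a (l 16752336) (b (l 16748288) (l 16751200))) (l 16748352)) (l 16748600)) (c (b (l 16748848) (l 16751848)) (l 16729040)))))))), by decide +kernel⟩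

def k5_pp_023 : ∃ t, chk3 f_pp_023 t 82 15 1 = true :=
  ⟨(a (b (c (c (b (a (l 16777216) (l 16777216)) (a (l 1057803468807) (b (l 16777216) (l 16777216)))) (b (a (l 16777216) (l 16777216)) (a (l 1065856532487) (l 16777216)))) (c (b (a (l 16777216) (l 16777216)) (a (l 1066930274295) (l 16777216))) (b (a (l 16777216) (l 16777216)) (a (l 1061024694263) (l 16777216))))) (b (c (a (l 3) (c (l 1321943957511) (l 1324091441159))) (c (l 1315501506551) (l 1294026670071))) (l 3))) (a (b (c (c (b (l 16777216) (l 16777216)) (b (l 16777216) (l 16777216))) (c (b (l 16777216) (l 16777216)) (b (l 16777216) (l 16777216)))) (c (c (b (l 210621169671) (l 1584473833479)) (b (l 16777216) (l 1582326349831))) (b (c (l 16777216) (l 16777216)) (l 1557630287879)))) (b (c (c (c (l 16777216) (l 16777216)) (c (l 16777216) (l 16777216))) (c (b (l 16777216) (l 16777216)) (b (l 16777216) (l 16777216)))) (c (c (b (l 16777216) (l 180019527687)) (b (l 16777216) (l 16777216))) (c (b (l 16777216) (l 16777216)) (b (l 16777216)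 (l 16777216))))))), by decide +kernel⟩

def k6_pp_023 : ∃ t, chk3 f_pp_023 t 83 30 1 = true :=
  ⟨(a (c (b (b (a (c (a (l 16777216) (l 16776600)) (a (l 16777216) (l 16776592))) (a (c (l 16774640) (l 16774600)) (l 16770360))) (a (c (l 16777216) (l 16777216)) (a (c (l 16776576) (l 16776568)) (c (l 16774344) (l 16774312))))) (a (c (c (l 16777216) (l 16777216)) (l 16777216)) (a (c (l 16777216) (l 16777216)) (c (b (b (l 16776320) (l 16776864)) (l 16777216)) (b (l 16776392) (l 16777216)))))) (b (a (a (c (l 16777216) (l 16777216)) (c (l 16776568) (l 16776560))) (a (c (c (l 16775336) (l 16775328)) (c (l 16775312) (l 16775304))) (c (b (l 16770232) (l 16774272)) (l 16772280)))) (a (c (l 16777216) (l 16777216)) (a (c (l 16777216) (l 16777216)) (c (c (l 16776400) (l 16776392)) (l 16776384)))))) (c (a (b (c (l 16764512) (l 16764344)) (a (a (c (b (l 16774568) (l 16776720)) (l 16775568)) (c (b (l 16772000) (l 16775512)) (l 16773832))) (l 16769096))) (a (a (a (b (l 16758496) (l 16764712)) (b (b (l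 16754128) (l 16757072)) (b (l 16760032) (l 16763008)))) (b (l 16754016) (l 16759744))) (b (l 16754200) (l 16759864)))) (a (b (l 16743128) (a (a (c (l 16775544) (l 16775520)) (c (l 16773792) (l 16773744))) (l 16768880))) (c (b (b (l 16754856) (l 16757880)) (l 16741480)) (b (l 16756104) (l 16762264)))))), by decide +kernel⟩

def k7_pp_023 : ∃ t, chk3 f_pp_023 t 83 31 1 = true :=
  ⟨(c (a (b (a (c (c (l 16777216) (l 16777216)) (l 16777216)) (c (c (l 16777216) (l 16777216)) (b (l 16777216) (l 16777216)))) (a (c (l 16777216) (l 16777216)) (c (c (l 16777216) (l 16777216)) (l 16777216)))) (a (c (a (b (a (l 16777216) (l 16776888)) (l 16777216)) (a (b (c (l 16776144) (l 16776136)) (l 16777216)) (a (b (l 16775200) (l 16777216)) (b (l 16773544) (l 16776832))))) (a (b (b (l 16776880) (l 16777216)) (l 16777216)) (a (b (l 16776128) (l 16777216)) (b (b (l 16772616) (l 16775680)) (l 16776784))))) (a (a (a (b (l 16771016) (c (b (l 16775712) (l 16776904)) (l 16776064))) (a (b (l 16768560) (b (l 16773184)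 (c (l 16776064) (l 16776056)))) (b (l 16766480) (l 16772488)))) (b (l 16765544) (l 16771448))) (b (l 16765600) (l 16771440))))) (a (a (c (b (l 16777216) (l 16777216)) (b (l 16777216) (l 16777216))) (c (c (l 16777216) (l 16777216)) (c (l 16777216) (l 16777216)))) (b (a (a (c (l 16776832) (l 16776832)) (a (c (l 16776112) (l 16776104)) (b (l 16772528) (c (l 16775664) (l 16775640))))) (c (l 16768624) (l 16768512))) (a (a (c (l 16777216) (l 16777216)) (a (c (l 16777216) (l 16777216)) (c (l 16776784) (l 16776776)))) (a (a (a (c (l 16776048) (l 16776032)) (a (c (l 16774680) (l 16774648)) (l 16772368))) (l 16771296)) (l 16771288)))))), by decide +kernel⟩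

def k8_pp_023 : ∃ t, chk3 f_pp_023 t 21 7 1 = true :=
  ⟨(b (c (b (l 598711630567) (c (l 16731664) (l 16752312))) (b (l 714138874935) (c (l 16751992) (l 16751672)))) (b (c (c (a (l 16759056) (l 16763184)) (l 16760840)) (c (l 16760632) (l 16760416))) (c (c (b (l 16767456) (l 16771832)) (l 16769584)) (c (l 16769480) (l 16769384))))), by decide +kernel⟩

def k9_pp_023 : ∃ t, chk3 f_pp_023 t 11 7 1 = true :=
  ⟨(b (c (b (a (l 16764824) (l 16777200)) (a (l 16767784) (l 16777200))) (a (b (l 16764496) (l 16767536)) (b (l 16777200) (l 16777200)))) (c (b (a (l 16770784) (l 16777208)) (a (l 16773872) (l 16777208))) (b (a (l 16770616) (l 16777208)) (a (l 16773784) (l 16777208))))), by decide +kernel⟩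

def k10_pp_023 : ∃ t, chk3 f_pp_023 t 3 1 1 = true :=
  ⟨(b (a (l 2) (b (a (l 2) (l 16723688)) (b (c (l 16750048) (l 16743248)) (c (a (l 16765184) (l 16765184)) (a (l 16764768) (l 16764768)))))) (b (a (a (b (l 2) (c (b (l 16777192) (l 16777216)) (b (l 16777192) (l 16777216)))) (b (a (b (l 2) (l 16777152)) (c (l 16777160) (l 16777160))) (c (l 16777200) (l 16777200)))) (b (a (c (b (l 16777176) (l 16777152)) (b (l 16777176) (l 16777144))) (c (l 16777160) (l 16777160))) (c (a (l 16777200) (l 16777200)) (a (l 16777200) (b (l 16777192) (l 16777216)))))) (a (b (a (c (b (l 16777216) (l 16777216)) (b (l 16777216) (l 16777216))) (c (b (l 16777216) (l 16777216)) (b (l 16777216) (l 16777216)))) (b (a (c (l 16777216) (l 16777216)) (b (l 16776280) (a (l 16775488) (l 16701240)))) (a (b (c (l 16775024) (l 16774968)) (a (l 16769592) (c (l 16678352) (l 16675784)))) (b (a (l 16630616) (l 16477224)) (a (l 16431000) (l 16221896)))))) (b (b (a (l 16777216) (a (l 16770152) (b (l 16755520) (l 16654184))))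 (a (b (l 16774264) (a (l 16775024) (l 16694496))) (b (a (l 16679368) (l 16465976)) (l 16181216)))) (b (a (b (a (l 16701496) (l 16507136)) (l 16156608)) (b (l 15957984) (a (l 15991648) (l 15676480)))) (a (b (l 15884400) (a (l 15947048) (l 15351648))) (a (b (l 15661728) (c (l 15341408) (l 15322424))) (b (c (l 15375768) (l 15327880)) (c (l 15039008) (l 15031136)))))))))), by decide +kernel⟩

theorem s11_pp_023 : ∃ t, chk3 f_pp_023 t 83 15 1 = true := ex3_b k6_pp_023 k7_pp_023

theorem s12_pp_023 : ∃ t, chk3 f_pp_023 t 41 15 1 = true := ex3_a k5_pp_023 s11_pp_023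

theorem s13_pp_023 : ∃ t, chk3 f_pp_023 t 41 7 1 = true := ex3_b k4_pp_023 s12_pp_023

theorem s14_pp_023 : ∃ t, chk3 f_pp_023 t 20 7 1 = true := ex3_a k3_pp_023 s13_pp_023

theorem s15_pp_023 : ∃ t, chk3 f_pp_023 t 10 7 1 = true := ex3_a s14_pp_023 k8_pp_023

theorem s16_pp_023 : ∃ t, chk3 f_pp_023 t 5 7 1 = true := ex3_a s15_pp_023 k9_pp_023

theorem s17_pp_023 : ∃ t, chk3 f_pp_023 t 2 7 1 = true := ex3_a k2_pp_023 s16_pp_023

theorem s18_pp_023 : ∃ t, chk3 f_pp_023 t 2 3 1 = true := ex3_b k1_pp_023 s17_pp_023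

theorem s19_pp_023 : ∃ t, chk3 f_pp_023 t 2 1 1 = true := ex3_b k0_pp_023 s18_pp_023

theorem s20_pp_023 : ∃ t, chk3 f_pp_023 t 1 1 1 = true := ex3_a s19_pp_023 k10_pp_023

theorem c_pp_023 : CertFX 0 536870912 0 1230186008 1046898278 26843546 false true true .up 0 2 3
    ndF0q0 ndF6q3 pcF2 Cut.none Ext.none :=
  certFX2 (fam := false) (s1 := true) (s2 := true) (a := 0) (b := 2) (c := 3) (cn := .up) (n1 := ndF0q0) (n2 := ndF6q3) (pc := pcF2) (cut := Cut.none) (xt := Ext.none) (P1 := 0) (W1 := 536870912) (P2 := 0) (W2 := 1230186008) (P3 := 1046898278) (W3 := 26843546)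
    rfl (fun _ => rfl) s20_pp_023

noncomputable def f_pp_033 : ℕ → ℕ → ℕ → ℕ → Bool := onCell 1610612736 536870912 0 1230186008 1046898278 26843546
    (rowFX 2 false true true .pnn 0 3 3 (qsf 0 536870912 0 1230186008 3) ndF0q0 ndF6q3 pcF3 Cut.none Ext.none)

def k0_pp_033 : ∃ t, chk3 f_pp_033 t 1 2 1 = true :=
  ⟨(a (a (b (a (b (l 16739896) (l 16725344)) (b (l 16739896) (l 16725344))) (b (a (l 16747528) (l 16747528)) (c (l 16765184) (l 16764768)))) (a (b (a (l 16723688) (b (l 16739896) (l 16725344))) (b (c (l 16750048) (l 16743248)) (b (l 16756896) (a (l 16773712) (l 16716752))))) (b (c (b (l 16741344) (l 16725448)) (a (l 16722792) (b (l 16741120) (l 16716048)))) (b (a (b (l 16753096) (l 16746328)) (b (l 16712528) (l 16543248))) (a (b (l 16637552) (l 16534232)) (b (l 16473240) (l 16288000))))))) (a (b (a (a (b (l 4) (c (l 16636256) (l 16618504))) (l 4)) (l 4)) (a (b (a (c (l 16444208) (l 16401976)) (c (b (l 16299016) (l 16152456)) (b (l 16270208) (l 16127544)))) (a (b (l 16224008)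 (l 15980816)) (c (b (l 15966920) (l 15731704)) (b (l 15941176) (l 15703888))))) (a (b (a (c (l 16024256) (l 15988984)) (a (l 15901552) (l 4))) (c (b (l 15653640) (c (l 15418728) (l 15417344))) (b (l 15619296) (l 15372872)))) (b (l 4) (a (c (b (l 15396296) (l 15150656)) (b (l 15365888) (l 15152040))) (b (l 4) (c (b (l 15082544) (l 14963344)) (l 14937248)))))))) (a (b (l 4) (a (a (b (l 4) (b (l 4) (c (l 230011363239) (b (l 4) (l 14816496))))) (l 4)) (l 4))) (l 4)))), by decide +kernel⟩

def k1_pp_033 : ∃ t, chk3 f_pp_033 t 1 6 1 = true :=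
  ⟨(a (a (b (a (c (l 16777160) (l 16777160)) (b (l 16777176) (a (l 16776496) (l 16713696)))) (a (b (c (l 16709528) (a (l 16777192) (l 16770040))) (a (b (l 16776752) (l 16734928)) (c (l 16627552) (b (l 16699656) (l 16558432))))) (b (a (c (l 16685264) (l 16682872)) (c (l 16495080) (l 16487752))) (a (c (l 16368352) (l 16316880)) (c (l 16157464) (l 16141360)))))) (b (a (b (a (l 16724416) (l 16554248)) (a (l 16539672) (l 16293632))) (b (l 16116480) (a (l 16027600) (l 15716288)))) (a (b (a (l 16094928) (l 15968672)) (c (a (l 15810776) (b (l 15671064) (l 15434312))) (a (l 15850224) (l 15359936)))) (b (c (a (l 15692008) (l 15200464)) (a (l 15638336) (l 15350720))) (a (c (b (l 15347232) (l 15139656)) (b (l 15316304) (l 15123112))) (c (b (l 15055440) (l 14868528)) (b (l 15050672) (l 14745832)))))))) (a (a (b (a (b (l 15701472) (c (l 15309600) (l 15383240))) (b (c (a (l 15489760) (l 15348352)) (l 15400768)) (c (b (l 15191688) (l 15029120)) (l 14858944)))) (b (c (a (b (l 15147696) (l 14965144))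 (l 14811024)) (a (b (l 15125024) (l 14958184)) (b (l 14856096) (l 14694600)))) (c (l 14640096) (a (b (l 14775064) (l 14606728)) (l 14474272))))) (b (a (b (c (a (l 15199656) (l 14970552)) (l 14953352)) (c (b (l 14912032) (l 14779640)) (b (l 14753960) (l 126730512823)))) (c (b (a (l 14917896) (l 14798960)) (l 14637648)) (b (a (l 14865720) (l 14688624)) (l 77338092791)))) (a (b (c (l 14599440) (l 14549424)) (l 1)) (l 1)))) (a (a (b (a (b (c (l 14695920) (l 14631616)) (l 1)) (l 1)) (l 1)) (l 1)) (l 1)))), by decide +kernel⟩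

def k2_pp_033 : ∃ t, chk3 f_pp_033 t 1 7 1 = true :=
  ⟨(a (b (a (a (a (b (b (l 16616000) (l 16427744)) (l 15967704)) (b (l 16234440) (b (l 15940136) (l 15654624)))) (b (c (a (l 16015920) (b (l 15844152) (l 15556968))) (a (l 15933232) (l 15449968))) (c (b (a (l 15634272) (l 15320896)) (a (l 15354832) (l 15057776))) (b (l 15452216) (a (l 15318352) (l 15051936)))))) (a (b (c (a (b (l 15497200) (l 15230336)) (b (l 15175928) (l 14899040))) (a (b (l 15486480) (l 15241464)) (b (l 15189496) (l 14808040)))) (c (a (b (l 15026336) (l 14805024)) (l 14695840)) (b (a (l 15020608) (l 14603320)) (a (l 14778792) (l 14545984))))) (b (c (a (b (l 14929576) (l 14743368)) (l 14625576)) (a (b (l 14708824) (l 14668880)) (b (l 14662520) (l 1)))) (l 1)))) (a (b (a (c (b (a (l 15688000) (l 15373688)) (a (l 15390856) (l 15079008))) (b (l 15505720) (a (l 15341384) (l 15070992)))) (c (b (a (l 15075688) (l 14819848)) (l 14727872)) (b (a (l 15069344) (l 14795400)) (a (l 14798872) (l 14562408))))) (a (b (c (a (l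 15066904) (l 14813456)) (a (l 15059104) (l 14788224))) (c (l 14696208) (a (l 14762992) (l 14530880)))) (c (l 14400488) (l 14239040)))) (b (a (c (l 14419120) (b (l 14461800) (l 1))) (l 1)) (l 1)))) (l 1)), by decide +kernel⟩

theorem s3_pp_033 : ∃ t, chk3 f_pp_033 t 1 3 1 = true := ex3_b k1_pp_033 k2_pp_033

theorem s4_pp_033 : ∃ t, chk3 f_pp_033 t 1 1 1 = true := ex3_b k0_pp_033 s3_pp_033

theorem c_pp_033 : CertFX 0 536870912 0 1230186008 1046898278 26843546 false true true .pnn 0 3 3
    ndF0q0 ndF6q3 pcF3 Cut.none Ext.none :=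
  certFX2 (fam := false) (s1 := true) (s2 := true) (a := 0) (b := 3) (c := 3) (cn := .pnn) (n1 := ndF0q0) (n2 := ndF6q3) (pc := pcF3) (cut := Cut.none) (xt := Ext.none) (P1 := 0) (W1 := 536870912) (P2 := 0) (W2 := 1230186008) (P3 := 1046898278) (W3 := 26843546)
    rfl (fun _ => rfl) s4_pp_033

noncomputable def f_pp_101 : ℕ → ℕ → ℕ → ℕ → Bool := onCell 0 536870912 536870912 469762048 1046898278 26843546
    (rowFX 2 false true true .npn 1 0 1 (qsf 536870912 536870912 536870912 469762048 0) ndF0q1 ndF6q1 pcF0 Cut.none Ext.none)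

def k0_pp_101 : ∃ t, chk3 f_pp_101 t 1 1 1 = true :=
  ⟨(l 3), by decide +kernel⟩

theorem c_pp_101 : CertFX 536870912 536870912 536870912 469762048 1046898278 26843546 false true true .npn 1 0 1
    ndF0q1 ndF6q1 pcF0 Cut.none Ext.none :=
  certFX2 (fam := false) (s1 := true) (s2 := true) (a := 1) (b := 0) (c := 1) (cn := .npn) (n1 := ndF0q1) (n2 := ndF6q1) (pc := pcF0) (cut := Cut.none) (xt := Ext.none) (P1 := 536870912) (W1 := 536870912) (P2 := 536870912) (W2 := 469762048) (P3 := 1046898278) (W3 := 26843546)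
    rfl (fun _ => rfl) k0_pp_101

noncomputable def f_pp_102 : ℕ → ℕ → ℕ → ℕ → Bool := onCell 536870912 536870912 1073741824 536870912 1046898278 26843546
    (rowFX 0 false true true .npp 1 0 2 (qsf 536870912 536870912 1073741824 536870912 0) ndF0q1 ndF6q2 pcF0 Cut.none Ext.none)

def k0_pp_102 : ∃ t, chk3 f_pp_102 t 1 1 1 = true :=
  ⟨(l 3), by decide +kernel⟩

theorem c_pp_102 : CertFX 536870912 536870912 1073741824 536870912 1046898278 26843546 false true true .npp 1 0 2
    ndF0q1 ndF6q2 pcF0 Cut.none Ext.none :=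
  certFX0 (fam := false) (s1 := true) (s2 := true) (a := 1) (b := 0) (c := 2) (cn := .npp) (n1 := ndF0q1) (n2 := ndF6q2) (pc := pcF0) (cut := Cut.none) (xt := Ext.none) (P1 := 536870912) (W1 := 536870912) (P2 := 1073741824) (W2 := 536870912) (P3 := 1046898278) (W3 := 26843546)
    rfl k0_pp_102

noncomputable def f_pp_112 : ℕ → ℕ → ℕ → ℕ → Bool := onCell 536870912 536870912 1073741824 536870912 1046898278 26843546
    (rowFX 0 false true true .dn 1 1 2 (qsf 536870912 536870912 1073741824 536870912 1) ndF0q1 ndF6q2 pcF1 Cut.none Ext.none)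

def k0_pp_112 : ∃ t, chk3 f_pp_112 t 1 1 1 = true :=
  ⟨(l 3), by decide +kernel⟩

theorem c_pp_112 : CertFX 536870912 536870912 1073741824 536870912 1046898278 26843546 false true true .dn 1 1 2
    ndF0q1 ndF6q2 pcF1 Cut.none Ext.none :=
  certFX0 (fam := false) (s1 := true) (s2 := true) (a := 1) (b := 1) (c := 2) (cn := .dn) (n1 := ndF0q1) (n2 := ndF6q2) (pc := pcF1) (cut := Cut.none) (xt := Ext.none) (P1 := 536870912) (W1 := 536870912) (P2 := 1073741824) (W2 := 536870912) (P3 := 1046898278) (W3 := 26843546)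
    rfl k0_pp_112

noncomputable def cut_pp_113 : Cut := Cut.of [[⟨0, 1, 0, 67108864⟩, ⟨1, 1, 0, 67108864⟩, ⟨2, 2, 0, 67108864⟩, ⟨3, 0, 0, 1233125376⟩]]

noncomputable def f_pp_113 : ℕ → ℕ → ℕ → ℕ → Bool := onCell 536870912 536870912 0 1230186008 1046898278 26843546
    (rowFX 2 false true true .nn 1 1 3 (qsf 536870912 536870912 0 1230186008 1) ndF0q1 ndF6q3 pcF1 cut_pp_113 Ext.none)

def k0_pp_113 : ∃ t, chk3 f_pp_113 t 1 1 1 = true :=
  ⟨(b (a (l 2) (a (l 2) (b (a (l 2) (a (l 2) (l 6))) (l 3)))) (a (b (b (l 2) (l 3)) (b (a (l 2) (l 3)) (l 3))) (b (l 3) (l 3)))), by decide +kernel⟩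

theorem c_pp_113 : CertFX 536870912 536870912 0 1230186008 1046898278 26843546 false true true .nn 1 1 3
    ndF0q1 ndF6q3 pcF1 cut_pp_113 Ext.none :=
  certFX2 (fam := false) (s1 := true) (s2 := true) (a := 1) (b := 1) (c := 3) (cn := .nn) (n1 := ndF0q1) (n2 := ndF6q3) (pc := pcF1) (cut := cut_pp_113) (xt := Ext.none) (P1 := 536870912) (W1 := 536870912) (P2 := 0) (W2 := 1230186008) (P3 := 1046898278) (W3 := 26843546)
    rfl (fun _ => rfl) k0_pp_113

end Pool.Agent.Strip051.G.IE1.Tab.C.FB06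

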