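import Pool.Agent.Strip051.G.IE1.Tab

/-! # Certificates F35 (generated) -/

set_option linter.all false
set_option maxRecDepth 100000

namespace Pool.Agent.Strip051.G.IE1.Tab.C.FB06

open Pool.Agent.Strip051.PB Pool.Agent.Strip051.PB.T
open Pool.Agent.Strip051.G.IE1.Tab

noncomputable def cut_pp_123 : Cut := Cut.of [[⟨0, 1, 0, 67108864⟩, ⟨1, 1, 0, 67108864⟩, ⟨2, 2, 0, 67108864⟩, ⟨3, 0, 0, 1233125376⟩]]

noncomputable def f_pp_123 : ℕ → ℕ → ℕ → ℕ → Bool := onCell 1073741824 536870912 0 1230186008 1046898278 26843546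
    (rowFX 2 false true true .npn 1 2 3 (qsf 536870912 536870912 0 1230186008 2) ndF0q1 ndF6q3 pcF2 cut_pp_123 Ext.none)

def k0_pp_123 : ∃ t, chk3 f_pp_123 t 16 4 1 = true :=
  ⟨(l 6), by decide +kernel⟩

def k1_pp_123 : ∃ t, chk3 f_pp_123 t 34 8 1 = true :=
  ⟨(l 6), by decide +kernel⟩

def k2_pp_123 : ∃ t, chk3 f_pp_123 t 34 18 1 = true :=
  ⟨(l 6), by decide +kernel⟩

def k3_pp_123 : ∃ t, chk3 f_pp_123 t 34 76 1 = true :=
  ⟨(a (l 6) (a (l 6) (b (a (l 6) (a (a (l 6) (a (l 6) (c (l 16576064) (l 16516592)))) (c (c (l 16595152) (l 16557304)) (l 16518040)))) (a (a (l 6) (c (c (l 16581048) (l 16544216)) (c (l 16517704) (l 16488040)))) (c (c (a (b (l 16585080) (l 16579520)) (b (l 16587016) (l 16580616))) (a (b (l 16547872) (l 16543696)) (c (l 16554832) (l 16541416)))) (c (a (b (l 16522176) (l 16518368)) (c (l 16529368) (l 16517744))) (a (b (l 16493592) (l 16489456)) (c (l 16503560) (l 16487920))))))))), by decide +kernel⟩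

def k4_pp_123 : ∃ t, chk3 f_pp_123 t 34 77 1 = true :=
  ⟨(a (l 3) (a (b (b (l 6) (b (l 6) (l 3))) (l 3)) (a (a (a (b (b (l 6) (c (c (b (c (l 263234129415) (l 16553512)) (c (l 276655894519) (a (l 272897756327) (l 257328507015)))) (c (l 247127922759) (l 236927344583))) (c (c (l 16506808) (l 215989308823)) (c (l 16476496) (l 197735597335))))) (l 3)) (b (c (c (b (l 16569808) (c (l 16573128) (l 16553448))) (c (l 244443576695) (l 16525312))) (c (c (l 16512008) (l 16498784)) (c (l 16482592) (l 16465472)))) (b (c (c (c (b (l 276119020359) (l 282024573335)) (c (l 273434618919) (l 270213377607))) (b (l 260012820055) (l 263770901895))) (c (c (l 16503248) (l 239074768311)) (l 221357909671))) (l 3)))) (c (c (b (c (l 16578320) (l 16558480)) (c (b (a (b (l 16569744) (l 259476019591)) (l 16569584)) (a (l 282024566151) (b (l 16564848) (l 280413973559)))) (c (b (l 251959791303) (a (l 276118957175) (l 251959782855))) (b (l 246591067575) (l 270750241671))))) (c (b (l 16541272) (b (l 241222341431) (a (l 266992121847)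 (l 241222332135)))) (b (l 16527656) (b (l 16520960) (l 255717812935))))) (c (b (c (l 16514736) (l 16501912)) (b (c (l 16508088) (l 16495024)) (c (l 246590980839) (l 238001025303)))) (b (c (l 16486128) (l 16469424)) (b (c (l 16478816) (l 16462080)) (a (l 218136676935) (l 198272468567))))))) (c (c (c (b (l 16581584) (a (b (l 16571552) (l 16565512)) (l 16570912))) (b (l 16561712) (a (c (l 16554176) (l 16545736)) (l 16552472)))) (c (b (l 16544856) (a (l 16535272) (l 16537848))) (b (l 16531976) (l 16523944)))) (c (a (c (l 16513936) (l 16501320)) (c (l 16517264) (l 16505136))) (c (b (l 16492696) (l 16483960)) (b (l 16476768) (l 16447048)))))))), by decide +kernel⟩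

def k5_pp_123 : ∃ t, chk3 f_pp_123 t 34 39 1 = true :=
  ⟨(b (a (l 3) (a (l 3) (a (l 3) (a (b (b (c (c (c (a (b (l 278803358839) (l 284708912151)) (l 252496683207)) (c (a (l 275582092071) (l 244980456743)) (l 270213371095))) (a (c (l 265918384471) (l 16513712)) (l 232632396135))) (c (c (l 244443501031) (l 235316659831)) (a (l 218673556199) (l 200419960183)))) (b (c (c (c (l 284708906343) (l 276118939271)) (l 263770889303)) (c (l 244443492247) (l 215452319527))) (l 3))) (l 3)) (b (c (c (c (b (l 16562264) (a (c (l 253033543511) (l 249275432103)) (l 16557288))) (b (l 16545400) (a (l 242296092999) (l 16541816)))) (b (l 16525840) (a (l 232632390183) (l 16522864)))) (c (c (l 217599961559) (l 209546849127)) (c (l 202030595191) (l 199883080647)))) (a (l 3) (b (c (c (c (c (l 285245786775) (l 281487676423)) (l 275582080775)) (l 261623410839)) (c (c (l 16499904) (l 16486752)) (l 215452332327))) (l 3)))))))) (l 3)), by decide +kernel⟩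

def k6_pp_123 : ∃ t, chk3 f_pp_123 t 35 8 1 = true :=
  ⟨(b (b (c (c (a (c (l 16557648) (a (l 16573448) (l 16532928))) (l 16443488)) (l 16458184)) (a (l 16553616) (l 16430040))) (a (l 6) (c (c (c (a (l 16503488) (c (l 16449496) (l 16449264))) (l 16393392)) (b (l 16462664) (c (l 16483992) (l 16477776)))) (l 16464072)))) (a (l 6) (b (a (l 6) (c (c (c (l 16483872) (l 16476432)) (c (l 16475008) (b (l 16472896) (l 16482576)))) (c (b (l 16465624) (c (l 16434104) (l 16495344))) (l 16469696)))) (c (c (a (b (l 16542920) (l 16553376)) (l 16476136)) (b (l 16520144) (l 16513616))) (c (b (a (l 16442240) (c (l 16497120) (l 16502192))) (a (b (l 16541808) (l 16544960)) (c (l 16519448) (l 16523320)))) (b (c (l 16519416) (l 16515480)) (c (a (l 16515656) (l 16498984)) (l 16509024)))))))), by decide +kernel⟩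

def k7_pp_123 : ∃ t, chk3 f_pp_123 t 35 18 1 = true :=
  ⟨(a (b (a (l 6) (c (c (l 16607120) (l 16595440)) (l 16560288))) (a (b (a (l 6) (c (c (l 16623760) (l 16586968)) (c (l 16559184) (l 16536856)))) (c (c (l 16610144) (l 16572744)) (c (l 16546976) (l 16523184)))) (c (c (b (a (l 16618912) (l 16612136)) (a (l 16605080) (l 16598416))) (b (a (l 16585168) (l 16581352)) (l 16567520))) (b (a (c (l 16558944) (l 16538192)) (l 16503512)) (a (l 16535960) (l 16511912)))))) (a (b (c (l 16551632) (l 16544712)) (c (b (l 16584376) (c (a (l 16592992) (l 16587736)) (l 16562600))) (b (l 16537192) (c (l 16541392) (l 16523016))))) (b (b (c (c (l 16535304) (l 16531368)) (b (c (l 16527344) (l 16474680)) (l 16528152))) (c (l 16553728) (l 16529064))) (c (l 16543704) (l 16523456))))), by decide +kernel⟩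

def k8_pp_123 : ∃ t, chk3 f_pp_123 t 35 38 1 = true :=
  ⟨(b (a (c (a (a (c (a (b (l 16595400) (l 16585296)) (l 16590360)) (c (l 16562176) (l 16548544))) (c (l 16590400) (l 16556576))) (c (l 16588168) (l 16556880))) (a (b (c (l 16536112) (l 16511264)) (a (a (c (l 16526608) (l 16499840)) (l 16514848)) (l 16518120))) (c (l 16535976) (l 16513728)))) (c (a (a (l 16567704) (l 16562184)) (c (a (l 16568904) (l 16564896)) (l 16543008))) (a (a (l 16523192) (l 16519992)) (c (l 16525744) (l 16508528))))) (a (c (a (a (c (b (a (b (l 16576520) (l 16571480)) (b (l 16578056) (l 16572664))) (a (l 16563816) (l 16565296))) (b (a (b (l 16543224) (l 16539712)) (l 16544008)) (a (l 16534072) (l 16536080)))) (c (b (l 16576432) (a (c (l 16575488) (l 16556824)) (b (l 16569784) (l 16565720)))) (b (l 16545624) (a (l 16537648) (l 16540656))))) (c (a (l 16572696) (l 16571376)) (l 16544704))) (a (a (c (b (a (b (l 16519840) (l 16516432)) (b (l 16523088) (l 16519040))) (a (l 16510752) (l 16513568))) (b (a (b (l 16492408) (l 16488720))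 (b (l 16496600) (l 16492184))) (a (l 16482632) (l 16486312)))) (b (l 16490296) (c (a (b (l 16518352) (l 16514304)) (b (l 16520424) (l 16517728))) (a (b (l 16492072) (l 16487688)) (l 16473280))))) (c (l 16525104) (l 16501656)))) (c (a (c (l 16566600) (l 16541784)) (c (l 16557656) (l 16535632))) (a (c (l 16524096) (l 16503112)) (c (l 16519696) (l 16501160)))))), by decide +kernel⟩

def k9_pp_123 : ∃ t, chk3 f_pp_123 t 70 78 1 = true :=
  ⟨(c (a (a (c (b (c (a (l 16561944) (l 16564064)) (a (l 16545712) (l 16547744))) (a (b (c (c (l 244980476855) (l 239611753943)) (l 235853642663)) (c (c (a (l 289540739175) (l 244980468791)) (l 282024541111)) (a (l 278803294599) (l 236390505735)))) (c (b (l 16556520) (l 16551880)) (l 16540424)))) (a (b (l 16526800) (b (l 226189938775) (a (l 263770883271) (l 226726803223)))) (b (l 16529360) (l 16522728)))) (c (a (c (b (l 16565808) (l 16556480)) (l 16545864)) (b (c (l 16566552) (l 16550064)) (l 16551368))) (a (l 16528320) (b (l 16532760) (l 16527624))))) (a (c (b (a (c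 (l 16568176) (l 16551856)) (c (l 16569480) (l 16553408))) (a (l 16552816) (c (l 16560056) (l 16546032)))) (b (a (l 16535248) (l 16537464)) (a (l 16529632) (l 16530424)))) (c (b (l 16560528) (a (c (l 16561376) (l 16547672)) (l 16553616))) (b (l 16537016) (a (l 16532680) (l 16532104)))))) (a (a (c (a (b (l 16503432) (c (b (l 16504456) (l 244443493079)) (b (l 16491744) (l 231558540887)))) (c (l 16509496) (l 16497312))) (a (b (l 16474808) (c (l 197735613623) (a (l 192903747367) (l 16460416)))) (c (l 16482744) (l 16468016)))) (c (a (c (l 16512520) (l 16500744)) (b (l 16511680) (l 16506568))) (a (c (l 16486608) (l 16472312)) (b (l 16485544) (l 16480128))))) (b (a (c (a (c (l 16520400) (l 16509752)) (l 16517920)) (a (c (l 16496424) (l 16482904)) (l 16493432))) (l 16506296)) (a (c (a (l 16509288) (b (l 16512592) (l 16510472))) (a (l 16483624) (b (l 16487664) (l 16485416)))) (c (a (l 16492672) (l 16513528)) (a (l 16468456) (l 16489872))))))), by decide +kernel⟩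

def k10_pp_123 : ∃ t, chk3 f_pp_123 t 70 79 1 = true :=
  ⟨(a (b (c (a (a (c (b (l 301888736871) (l 3)) (l 312626096311)) (c (b (c (a (b (l 240148627975) (l 289540739015)) (l 234779919479)) (a (l 235853626839) (l 16535736))) (a (l 3) (l 283635153495))) (b (a (l 226189925479) (l 16518568)) (l 263234000375)))) (c (c (a (b (l 16550056) (l 231021816759)) (l 16550400)) (a (b (l 16537640) (l 228337439783)) (l 16538144))) (a (a (l 220284351687) (l 16520024)) (l 16521968)))) (a (a (c (l 240148473783) (l 224042218535)) (c (c (b (l 216526212807) (l 244443475815)) (l 200956864439)) (b (a (l 192366886487) (l 16467888)) (l 207936121527)))) (c (a (c (l 16503432) (l 16490736)) (l 16500760)) (a (c (l 16476536) (l 199883086935)) (l 16474056))))) (a (l 3) (c (b (c (a (c (l 284708892327) (l 275582064039)) (c (l 16545152) (l 16533704))) (a (l 259475912663) (l 16517880))) (a (l 3) (c (a (l 279340180199) (l 227263713415)) (l 254107209271)))) (c (a (c (l 241759120727) (l 224042307351)) (c (l 208473153063) (l 201493774871)))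 (a (a (l 203104273911) (l 187535031351)) (c (l 195051264999) (l 193977496375))))))) (c (a (c (c (b (l 16553040) (l 16546776)) (a (l 16537080) (l 16538752))) (c (l 16527664) (l 16518024))) (c (a (l 16566312) (b (c (l 16553272) (l 16541200)) (l 16542704))) (a (l 16524976) (b (l 16526872) (l 16523192))))) (a (c (c (b (l 16511176) (l 16506296)) (l 16496624)) (c (a (l 16481704) (l 16485144)) (a (l 16468360) (l 16472184)))) (c (a (l 16505568) (b (l 16487168) (l 16504312))) (a (l 16481072) (b (l 16484168) (l 16480240))))))), by decide +kernel⟩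

def k11_pp_123 : ∃ t, chk3 f_pp_123 t 71 39 1 = true :=
  ⟨(a (c (b (c (c (l 16560752) (l 16547192)) (l 16533048)) (a (a (c (b (l 16548056) (l 16541632)) (b (l 16528352) (l 16522480))) (b (l 16536568) (c (l 16541880) (l 16523304)))) (a (c (l 16565128) (l 16525816)) (l 16533000)))) (b (c (l 16515560) (l 16493664)) (a (a (c (b (l 16510232) (l 16504032)) (b (l 16486960) (l 16480488))) (b (l 16498056) (c (l 16505416) (l 16482504)))) (a (c (l 16508480) (l 16486376)) (l 16496544))))) (c (c (a (l 16544856) (l 16541552)) (l 16525224)) (c (l 16509328) (l 16489640)))), by decide +kernel⟩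

def k12_pp_123 : ∃ t, chk3 f_pp_123 t 16 5 1 = true :=
  ⟨(l 3), by decide +kernel⟩

def k13_pp_123 : ∃ t, chk3 f_pp_123 t 34 5 1 = true :=
  ⟨(l 3), by decide +kernel⟩

def k14_pp_123 : ∃ t, chk3 f_pp_123 t 70 5 1 = true :=
  ⟨(b (b (b (a (a (l 3) (a (l 3) (b (c (c (l 280413866055) (l 257328372999)) (c (l 231558522503) (l 203641179271))) (l 3)))) (a (b (a (b (c (c (b (a (l 229411191015) (l 16536400)) (l 273971461223)) (b (l 215989377527) (l 251959708455))) (c (c (l 212231237335) (l 195588155655)) (c (l 190219417351) (l 187535037543)))) (l 3)) (c (c (b (c (l 16541824) (l 16531320)) (c (l 271823971815) (l 262697146151))) (b (l 212768155175) (l 247664739927))) (a (c (b (l 202567527767) (l 217062984647)) (b (l 197735614471) (l 195051223479))) (c (b (l 16497696) (l 195051287815)) (b (l 16472536) (l 184313820279)))))) (l 3)) (b (c (c (a (b (l 16537848) (c (l 226189964855) (l 222431848615))) (c (l 16540808) (l 16530640))) (a (c (l 215452514983) (l 209546917927)) (l 16517312))) (c (a (b (l 16499024) (b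 (l 16495896) (l 217599903767))) (c (l 16503768) (l 16492008))) (a (b (l 16474336) (c (l 193440662631) (l 192903767991))) (c (l 16479912) (l 16467816))))) (b (c (a (c (l 260549661911) (l 240685401255)) (c (c (l 228337436583) (l 222968707559)) (b (l 16512552) (l 235316713639)))) (c (a (l 211694274487) (b (l 16492544) (l 209009925239))) (a (l 191829991799) (c (l 188071942295) (l 185387565127))))) (l 3))))) (l 3)) (l 3)) (l 3)), by decide +kernel⟩

def k15_pp_123 : ∃ t, chk3 f_pp_123 t 71 40 1 = true :=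
  ⟨(b (c (a (a (c (c (l 16540696) (l 16530696)) (c (l 16522008) (l 16513872))) (c (b (a (l 16536256) (l 16537032)) (l 16532824)) (b (a (l 16518728) (l 16520128)) (l 16516224)))) (a (b (l 16526768) (c (a (l 16531776) (l 16532376)) (a (l 16515864) (l 16517032)))) (l 16523536))) (a (a (c (c (l 16504888) (l 16493560)) (c (l 16481888) (l 16470216))) (c (b (a (l 16500992) (l 16502984)) (l 16498376)) (b (a (l 16478544) (l 16481184)) (l 16476328)))) (a (b (l 16491936) (c (a (l 16498744) (l 16500488)) (a (l 16477512) (l 16479872)))) (l 16490624)))) (c (a (a (c (c (b (l 222431865319) (a (l 250349128087) (l 224579339111))) (b (l 16525504) (a (l 242296044567) (l 16521968)))) (a (b (l 16512952) (b (l 229411140871) (l 232095468951))) (c (l 212231278839) (l 207936302151)))) (c (c (l 16532632) (l 16524064)) (c (l 16516352) (l 16508896)))) (a (c (a (l 16527760) (b (l 16527696) (l 16526064))) (a (l 16512640) (b (l 16512760) (l 16511664)))) (c (a (b (l 16527984) (l 16525440)) (b (l 16527544) (l 16523848))) (b (a (l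 16513568) (l 16513568)) (a (l 16511464) (l 16510232)))))) (a (a (c (a (b (l 16493392) (l 205251826455)) (c (l 203104419591) (l 198272523655))) (c (b (l 16476760) (a (l 195051254599) (l 16473824))) (b (l 16465304) (a (l 189682523175) (l 16462656))))) (c (c (l 16499488) (l 16488656)) (c (l 16477832) (l 16467008)))) (a (c (a (l 16494936) (l 16473008)) (a (l 16474080) (b (l 16475144) (l 16474008)))) (c (b (a (l 16497008) (l 16497512)) (a (l 16494456) (l 16493672))) (b (a (l 16477080) (l 16478144)) (a (l 16474816) (l 16474512)))))))), by decide +kernel⟩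

def k16_pp_123 : ∃ t, chk3 f_pp_123 t 71 41 1 = true :=
  ⟨(a (b (b (a (a (l 3) (c (c (l 243906657559) (l 227263632871)) (c (l 198809366503) (l 183776936295)))) (c (c (a (b (l 16524656) (l 235853611831)) (l 16524360)) (a (c (l 16511032) (l 207936289511)) (l 16509528))) (c (a (b (l 16490064) (l 202030633495)) (l 16490704)) (a (c (l 186998205319) (l 184313829751)) (l 16469832))))) (a (l 3) (a (l 3) (c (a (c (l 233169243847) (l 218673707143)) (c (l 224579322455) (l 211694399239))) (c (l 195051283287) (b (l 191830032103) (l 177334502599))))))) (l 3)) (a (c (b (c (a (c (l 222431850263) (l 16519240)) (l 16522896)) (c (l 209010050487) (b (l 16506384) (l 16504320)))) (c (b (a (l 226726791319) (b (l 16520992) (l 219210611607))) (l 223505535703)) (b (a (b (l 212231261399) (l 3)) (c (l 207936304295) (l 16501992))) (l 209546872599)))) (b (c (a (b (l 16491448) (l 198809421015)) (l 16491040)) (a (c (l 16474984) (l 197735617255)) (l 16471384))) (c (b (a (l 188071954823) (b (l 16489168) (l 192903838391))) (l 186461353111))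 (b (a (b (l 180555736935) (l 3)) (b (l 16469992) (l 184313843879))) (l 168744548663))))) (c (b (c (c (l 16525776) (l 16518848)) (c (l 16512520) (l 16505528))) (c (b (a (l 16520672) (l 16520288)) (a (b (l 210083808599) (l 217599990023)) (l 16522056))) (b (c (l 16511440) (l 16503792)) (a (c (l 206325691143) (l 16502728)) (l 16525376))))) (b (c (c (l 16496448) (l 16487008)) (c (l 16477560) (l 16468112))) (c (b (c (l 16494640) (l 16485496)) (a (l 188608848215) (l 16492984))) (b (c (l 16476344) (l 16467192)) (a (c (l 181629514023) (l 176260787831)) (l 196661896375)))))))), by decide +kernel⟩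

def k17_pp_123 : ∃ t, chk3 f_pp_123 t 71 21 1 = true :=
  ⟨(b (b (b (a (l 3) (a (l 3) (a (l 3) (c (c (l 217063124919) (b (l 197198889351) (l 16507368))) (c (l 184313892631) (b (l 176797674999) (l 16475672))))))) (l 3)) (l 3)) (l 3)), by decide +kernel⟩

def k18_pp_123 : ∃ t, chk3 f_pp_123 t 71 11 1 = true :=
  ⟨(l 3), by decide +kernel⟩

def k19_pp_123 : ∃ t, chk3 f_pp_123 t 36 8 1 = true :=
  ⟨(c (b (c (b (l 16221904) (b (l 16265056) (c (a (l 16366744) (l 16224032)) (a (l 16366304) (l 16218424))))) (l 16158808)) (a (c (b (c (l 16391712) (l 16370984)) (l 16442024)) (b (c (b (l 16388312) (l 16402656)) (a (b (l 16415512) (l 16435656)) (b (l 16346320) (l 16376032)))) (c (l 16439152) (b (l 16421120) (l 16448584))))) (c (b (c (l 16264240) (l 16226488)) (l 16272792)) (b (b (l 16243704) (c (l 16280896) (c (l 16274488) (l 16270552)))) (c (b (l 16299696) (l 16332272)) (b (c (l 16302568) (l 16304200)) (l 16323976))))))) (b (c (l 16214712) (l 16165288)) (c (a (b (a (c (l 16379928) (l 16419128)) (l 16354416))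 (c (a (b (l 16353168) (l 16475768)) (b (l 16325176) (l 16414432))) (a (l 16378464) (l 16371152)))) (b (l 16251408) (b (c (a (l 16311944) (l 16264432)) (l 16295392)) (c (c (l 16325856) (l 16235592)) (l 16279632))))) (b (l 16314672) (a (c (l 16396920) (l 16431928)) (l 16312592)))))), by decide +kernel⟩

def k20_pp_123 : ∃ t, chk3 f_pp_123 t 36 9 1 = true :=
  ⟨(b (b (a (b (c (c (l 16475040) (l 16471432)) (c (c (a (l 16495656) (l 16444256)) (a (l 16445936) (l 16448168))) (c (a (l 16422272) (l 16421224)) (l 16465448)))) (a (l 16511400) (c (l 16460624) (b (c (l 16453656) (l 16423872)) (l 16459648))))) (c (c (l 16276248) (b (l 16358880) (l 16386360))) (c (b (c (a (l 16386616) (l 16323792)) (l 16264752)) (c (a (l 16410704) (l 16358728)) (a (l 16399728) (l 16361272)))) (b (l 16297344) (c (a (l 16376824) (l 16353384)) (l 16378184)))))) (a (c (l 16519912) (a (l 16503776) (l 16469936))) (a (c (l 16448288) (l 16430032)) (b (b (c (l 16374848) (c (l 16368648) (l 16359064))) (l 16382440)) (l 16401680))))) (c (a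 (b (a (b (l 16539440) (a (l 16536392) (l 16529600))) (b (l 16509816) (l 16514384))) (a (c (l 16535752) (l 16519312)) (b (a (l 16515608) (l 16506336)) (l 16513752)))) (b (l 16459144) (a (b (l 16491160) (l 16469376)) (b (l 16456520) (l 16469704))))) (a (b (c (a (b (l 16512992) (l 16508440)) (l 16490616)) (a (b (l 16498352) (l 16492312)) (l 16477888))) (a (c (l 16505248) (l 16487912)) (b (a (l 16486808) (l 16479240)) (l 16487136)))) (b (l 16434720) (c (a (b (l 16473088) (l 16473472)) (l 16451304)) (a (b (l 16460880) (l 16460200)) (l 16441376))))))), by decide +kernel⟩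

def k21_pp_123 : ∃ t, chk3 f_pp_123 t 37 4 1 = true :=
  ⟨(b (b (c (c (l 15929456) (l 15918296)) (c (l 15906808) (l 15894872))) (c (c (a (b (c (l 16112872) (l 16130552)) (c (l 16186080) (l 16184408))) (b (c (l 15982504) (l 15970904)) (c (l 16053432) (l 15995408)))) (b (l 16040368) (a (c (b (l 16176688) (l 16200272)) (a (b (l 16204832) (l 16234656)) (b (l 16131088) (l 16174080)))) (b (l 16025712) (c (l 16076304) (c (l 16070840) (l 16064056))))))) (c (a (b (l 16106144) (a (c (b (l 16196816) (l 16196024)) (l 16211816)) (l 16144624))) (l 15994776)) (l 16018176)))) (b (c (b (c (a (l 16259504) (l 16128360)) (a (c (l 16256288) (b (l 16230664) (l 16271920))) (c (b (l 16104096) (l 16150536)) (b (l 16110056) (l 16141624))))) (c (a (l 16231568) (b (l 16191760) (l 16227456))) (a (b (l 16303032) (l 16323664)) (b (l 16187824) (l 16223840))))) (b (c (c (a (c (b (l 16233016) (l 16271216)) (b (l 16144168) (l 16207624))) (b (b (l 16094064) (c (l 16120064) (l 16117680))) (c (l 16143512) (a (l 16175376) (l 16117304)))))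 (a (b (l 16145680) (l 16151912)) (a (l 16047872) (l 16091464)))) (c (a (l 16250880) (l 16128528)) (l 16181456))) (b (a (c (c (l 16302248) (l 16171224)) (c (c (l 16164088) (l 16291280)) (l 16292280))) (c (c (a (l 16214976) (l 16150760)) (c (l 16164664) (l 16170088))) (c (l 16173272) (l 16173376)))) (a (a (l 16348592) (b (c (l 16287880) (l 16274880)) (l 16303184))) (c (c (l 16221264) (c (l 16148000) (l 16211848))) (c (b (a (l 16226336) (l 16165528)) (l 16211008)) (l 16208392))))))) (b (b (b (a (l 16344752) (c (l 16237552) (a (l 16263696) (c (l 16207688) (l 16193520))))) (c (l 16315456) (l 16304648))) (c (l 16250232) (l 16260920))) (c (a (l 16407056) (l 16320128)) (a (l 16392160) (l 16314080)))))), by decide +kernel⟩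

def k22_pp_123 : ∃ t, chk3 f_pp_123 t 19 8 1 = true :=
  ⟨(c (b (a (a (l 15660536) (l 15453560)) (b (c (l 15161264) (l 15140008)) (l 15244272))) (a (c (b (l 15729928) (a (c (b (l 15896232) (l 15937544)) (b (l 15883656) (l 15939592))) (c (l 15758944) (l 15742072)))) (l 15765640)) (c (l 15426848) (l 15409560)))) (b (a (a (l 15630240) (l 15438520)) (b (a (l 15185208) (l 15019920)) (l 15202056))) (a (a (l 15600760) (l 15657232)) (c (l 15393104) (l 15374992))))), by decide +kernel⟩

def k23_pp_123 : ∃ t, chk3 f_pp_123 t 38 9 1 = true :=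
  ⟨(b (c (c (a (b (c (l 15994512) (b (l 15973304) (l 16020080))) (l 16088848)) (b (c (l 15841584) (l 15847176)) (l 15944608))) (a (c (b (b (l 15978872) (l 16011864)) (l 16086488)) (b (b (a (l 16011104) (l 15932024)) (l 16018592)) (b (l 16055360) (l 16105920)))) (b (b (l 15811096) (c (l 15870856) (c (l 15869728) (l 15860792)))) (c (b (l 15907648) (l 15965016)) (b (l 15913648) (l 15954720)))))) (c (a (b (c (b (l 15965288) (a (c (l 16053888) (l 16052960)) (c (l 15983760) (l 15978080)))) (l 15984056)) (c (a (b (l 16085992) (l 16131656)) (b (c (l 16024696) (l 16026800)) (l 16066928))) (c (a (l 16073192) (a (l 16061824) (l 16014800))) (a (l 16098920) (l 15944432))))) (b (l 15827608) (c (c (b (l 15917304) (l 15950912)) (b (l 15857768) (a (l 15987296) (l 15915128)))) (b (l 15899800) (c (l 15923744) (l 15965232)))))) (b (l 15893360) (a (c (a (l 16101080) (l 15962096)) (l 16067984)) (c (l 15933408) (l 15910056)))))) (a (b (b (c (c (l 16150304) (l 16146448)) (c (c (l 16140376) (a (l 16082896) (b (l 16092624)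 (l 16113968)))) (a (c (l 16150544) (l 16149904)) (c (b (l 16080400) (l 16105272)) (l 16101312))))) (a (l 16202512) (a (l 16163512) (b (c (l 16127888) (c (l 16115248) (l 16078640))) (l 16143456))))) (c (l 16222496) (l 16213128))) (b (c (b (c (l 16014336) (l 16007704)) (c (l 16057184) (l 16051720))) (c (b (c (l 15991048) (c (l 15968136) (l 15975216))) (c (l 16043080) (c (l 15920960) (l 16028056)))) (b (c (l 15983040) (l 15987784)) (c (c (l 16031376) (l 16025976)) (l 16007472))))) (c (l 16112400) (l 16095800))))), by decide +kernel⟩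

def k24_pp_123 : ∃ t, chk3 f_pp_123 t 39 9 1 = true :=
  ⟨(a (b (c (c (b (c (l 15691104) (l 15691768)) (c (l 15782456) (l 15773272))) (b (c (c (l 15678384) (l 15670784)) (l 15667104)) (c (b (l 15759464) (l 15799944)) (b (a (l 15800848) (l 15710448)) (l 15803288))))) (c (b (l 15658360) (b (l 15741200) (c (c (l 15805848) (l 15767968)) (l 15815672)))) (l 15695488))) (b (c (c (l 15896280) (b (l 15851040) (l 15912296))) (c (b (c (b (l 15831504) (l 15851200)) (c (l 15854008) (l 15855216))) (c (a (l 15935288) (l 15860632)) (a (b (l 15911072) (l 15939072)) (l 15837200)))) (c (b (l 15849600) (a (l 15848808) (l 15851720))) (l 15874528)))) (b (c (c (l 15967016) (l 15959424)) (c (c (l 15949968) (a (l 15907824) (l 15905920))) (c (c (l 15937136) (l 15932392)) (l 15893448)))) (l 16018936)))) (c (c (b (b (c (l 15529688) (l 15509048)) (c (l 15624032) (l 15629888))) (b (l 15762576) (l 15900960))) (b (b (l 15499600) (c (b (l 15601608) (l 15659040)) (b (l 15588744) (c (l 15661768) (l 15657080))))) (b (c (l 15746664)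 (b (l 15713056) (l 15782016))) (b (l 15863576) (l 15922664))))) (b (l 15393728) (b (c (c (b (c (l 15715392) (l 15594912)) (a (l 15795256) (l 15746040))) (b (l 15728896) (l 15674520))) (c (l 15748320) (l 15724056))) (c (c (b (a (l 15876448) (l 15823552)) (l 15915512)) (b (a (l 15878624) (l 15794712)) (l 15833840))) (c (b (a (l 15871224) (l 15812872)) (c (l 15902864) (l 15899352))) (b (l 15851032) (l 15903440)))))))), by decide +kernel⟩

def k25_pp_123 : ∃ t, chk3 f_pp_123 t 36 20 1 = true :=
  ⟨(a (b (c (a (b (l 16522768) (a (a (c (l 16527560) (l 16514280)) (l 16520456)) (l 16521232))) (c (l 16522904) (l 16511048))) (a (b (c (l 16502000) (l 16483960)) (a (a (b (l 16488592) (c (l 16496992) (l 16478480))) (l 16490192)) (l 16492536))) (c (l 16498416) (l 16482776)))) (c (a (b (c (a (b (a (l 16522768) (l 16525144)) (l 16522504)) (b (l 16528296) (l 16526232))) (a (b (a (l 16509984) (l 16512912)) (l 16510232)) (b (l 16516840) (a (l 16513312) (l 16517328))))) (c (a (b (l 16521104) (l 16522488)) (l 16525160))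 (a (c (l 16513376) (l 16506184)) (l 16514080)))) (a (b (c (l 16528160) (l 16517560)) (c (b (l 16550648) (l 16529688)) (b (a (l 16517888) (l 16521400)) (l 16519904)))) (b (l 16520616) (b (l 16524880) (c (l 16535240) (a (l 16525456) (l 16526760))))))) (a (b (c (a (b (a (l 16493640) (l 16497176)) (l 16493952)) (b (l 16502008) (a (l 16497880) (l 16502520)))) (a (b (a (l 16475368) (l 16479544)) (l 16476320)) (b (l 16485288) (a (l 16481120) (l 16486400))))) (c (a (b (l 16492552) (l 16494848)) (l 16499168)) (a (c (l 16480968) (l 16472568)) (l 16483496)))) (a (b (c (l 16503720) (l 16488232)) (c (b (a (l 16503480) (l 16507584)) (l 16506264)) (b (a (l 16488248) (l 16492944)) (l 16492184)))) (b (l 16495888) (a (b (l 16500296) (c (l 16512704) (l 16499528))) (c (l 16511176) (l 16498024)))))))) (b (c (a (l 16502672) (b (l 16472792) (l 16486680))) (a (c (l 16486816) (l 16473288)) (c (l 16462232) (l 16450808)))) (c (a (c (l 16522624) (l 16513912)) (c (l 16507248) (l 16499736))) (a (c (l 16502688) (l 16490192))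 (c (l 16490320) (l 16479760)))))), by decide +kernel⟩

def k26_pp_123 : ∃ t, chk3 f_pp_123 t 72 42 1 = true :=
  ⟨(c (a (b (c (a (b (a (l 208473203367) (l 16525472)) (a (l 218673730695) (b (l 16527416) (l 204715104503)))) (b (l 16527192) (l 16529368))) (a (b (c (l 202567613895) (l 16509776)) (a (l 202567584551) (l 206862577303))) (c (l 16521264) (l 16514752)))) (a (c (l 218136834935) (l 199346331847)) (c (c (b (a (l 229948039591) (l 16533840)) (l 226726798167)) (b (a (l 220821231271) (l 16530480)) (l 213841851063))) (b (a (l 207399445751) (l 16522856)) (a (l 3) (l 202030687255)))))) (a (c (b (l 16531992) (b (l 16534288) (a (c (l 16541568) (l 206862601559)) (l 16536880)))) (b (l 16522816) (b (l 16525872) (a (l 191830203895) (l 16529408))))) (c (b (b (l 16535968) (l 16538048)) (c (l 16540488) (l 16538000))) (b (b (l 16527648) (l 16530208)) (l 16532184))))) (a (b (c (a (b (a (l 185387643767) (l 16499648)) (a (l 180018938231) (l 177334595239))) (c (l 16507992) (l 16501240))) (c (a (b (l 186461371879)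 (l 172502721879)) (l 16494480)) (a (b (l 188608839655) (a (l 16477448) (l 16484976))) (l 16487720)))) (a (c (l 176260857607) (l 152101641543)) (c (b (a (l 187535155911) (l 16511488)) (l 179482105303)) (a (c (l 168207776679) (l 159617832295)) (b (l 178408337143) (l 163912823991)))))) (a (c (b (l 16510608) (b (l 16515360) (a (l 171965929415) (l 16520544)))) (b (l 16498240) (b (l 16504856) (c (l 170355294903) (l 170892156631))))) (c (b (a (l 16516440) (l 16497832)) (l 16502568)) (b (b (a (l 16503464) (l 16507200)) (l 16509080)) (c (l 16517056) (l 16512736))))))), by decide +kernel⟩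

def k27_pp_123 : ∃ t, chk3 f_pp_123 t 73 42 1 = true :=
  ⟨(c (a (b (c (a (b (l 16540808) (l 16542864)) (l 16541032)) (a (b (l 16533488) (l 16515088)) (l 16534776))) (c (a (l 16544872) (b (a (l 16548872) (l 16551536)) (l 16551304))) (a (l 16539056) (b (a (l 16543464) (l 16546672)) (l 16547000))))) (b (l 16527472) (b (l 16542048) (a (c (a (l 16555424) (l 16555944)) (a (l 16552000) (l 16553080))) (l 16548576))))) (a (b (c (a (b (l 16523016) (l 16505712)) (l 16525976)) (a (b (a (l 16511832) (l 16511456)) (a (l 16515888) (l 16520512))) (l 16517032))) (c (a (l 16531656) (b (a (l 16536296) (l 16540128)) (l 16541560))) (a (l 16524248) (b (a (l 16529128) (l 16533576)) (l 16536128))))) (b (l 16514296) (a (b (l 16534816) (c (a (l 16547528) (l 16549240)) (a (l 16543064) (l 16545392)))) (l 16536576))))), by decide +kernel⟩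

def k28_pp_123 : ∃ t, chk3 f_pp_123 t 72 43 1 = true :=
  ⟨(a (l 3) (a (b (b (c (c (a (c (l 226726804551) (l 212768122471)) (c (l 248738535399) (l 235316717127))) (a (l 202030730375) (b (l 16531192) (l 213305039255)))) (c (a (l 176797769463) (l 197198880055)) (a (l 154249162759) (c (l 16517472) (l 16513744))))) (l 3)) (l 3)) (b (c (c (b (c (l 16542144) (l 16540128)) (c (a (b (l 210083835351) (l 238001112615)) (l 224579329511)) (a (l 235316732871) (l 16542320)))) (a (b (l 16534168) (b (l 170892220807) (l 207399444327))) (c (l 16538936) (l 16536224)))) (c (b (c (l 16530440) (l 16527184)) (a (b (l 16519032) (l 16518416)) (l 164449767495))) (a (b (l 16520528) (c (l 183777102327) (l 176260904567))) (c (l 16528080) (l 16504392))))) (a (l 3) (b (b (c (c (c (l 250886009239) (l 239074845559)) (l 221358105543)) (c (l 200420129335) (c (l 16532968) (l 16531248)))) (l 3)) (l 3)))))), by decide +kernel⟩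

def k29_pp_123 : ∃ t, chk3 f_pp_123 t 73 43 2 = true :=
  ⟨(a (b (c (a (c (l 16546536) (l 16545160)) (c (l 16551768) (l 16550944))) (a (c (l 16542992) (l 16540760)) (l 16548656))) (a (a (b (c (c (b (l 16546488) (a (l 256791590279) (l 16547128))) (l 189145850839)) (c (l 174650334551) (l 16532240))) (b (c (c (l 242296068903) (l 231558653703)) (l 215452526103)) (l 3))) (c (b (c (l 16548288) (l 16547712)) (c (b (a (l 207399480023) (l 16549032)) (a (l 238001108503) (b (l 16547368) (l 261623433639)))) (b (l 16548312) (l 250349140007)))) (b (l 16546488) (c (b (l 16548168) (l 238001109159)) (b (l 16548032) (l 226189948887)))))) (c (c (b (l 16551360) (b (l 16549136) (a (b (l 16546808) (l 227263701319)) (l 16535688)))) (b (l 16551280) (a (l 16547264) (l 16536664)))) (b (l 16550856) (a (c (l 16546904) (l 16546536)) (c (l 16546616) (l 16546080))))))) (b (c (a (b (l 16556632) (l 16557392)) (b (l 16559776) (a (l 16562024) (l 16561960)))) (a (b (l 16554640) (l 16556800)) (b (l 16559056) (a (l 16561536) (l 16560656)))))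 (c (a (b (l 16554352) (a (b (l 16548696) (l 16548824)) (l 16552736))) (b (l 16558336) (l 16560928))) (a (b (l 16553384) (a (b (l 16547408) (l 16547440)) (l 16551280))) (b (l 16556736) (l 16559432)))))), by decide +kernel⟩

def k30_pp_123 : ∃ t, chk3 f_pp_123 t 73 43 3 = true :=
  ⟨(a (a (c (b (c (l 16538528) (l 16536296)) (b (a (a (l 218136878951) (l 16542376)) (l 16544864)) (a (l 191293329383) (c (l 227800559335) (l 218673753655))))) (b (c (l 16534072) (l 16531840)) (b (a (c (l 16518272) (l 138679973463)) (c (l 16543640) (l 16542832))) (a (c (l 175187202439) (l 164449784263)) (c (b (l 16547616) (l 197198918679)) (b (l 16547480) (l 189682725047))))))) (c (b (l 16545528) (c (b (l 16550440) (a (l 16546176) (l 16545552))) (b (l 16550160) (a (l 16545816) (l 16545016))))) (b (c (l 16543192) (l 16541624)) (b (c (l 16549872) (l 16549592)) (a (c (l 16545456) (l 16545088)) (b (l 16545912) (c (l 16542384) (l 16541760)))))))) (a (c (b (b (l 16552064) (l 16555928)) (b (l 16552672) (a (b (l 16546208) (l 16546080))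 (l 16549920)))) (b (b (l 16528512) (l 16555048)) (b (c (l 16552144) (l 16551784)) (c (b (l 16546848) (l 16547600)) (b (l 16546216) (l 16546912)))))) (b (a (c (b (l 16558208) (l 16561312)) (b (l 16556680) (l 16561096))) (b (l 16555704) (c (l 16559904) (l 16559160)))) (c (b (l 16555488) (l 16558032)) (b (c (l 16554552) (l 16553928)) (l 16556632)))))), by decide +kernel⟩

def k31_pp_123 : ∃ t, chk3 f_pp_123 t 36 11 1 = true :=
  ⟨(a (l 3) (b (a (b (b (a (l 3) (c (c (b (a (b (a (c (b (a (l 16542960) (l 16522376)) (l 16531800)) (b (l 16532032) (l 16541664))) (c (l 16534408) (l 16523280))) (l 140827473975)) (c (l 16550056) (l 16549432))) (a (l 3) (l 16545040))) (b (a (b (a (b (c (l 16520944) (l 16520344)) (l 16530248)) (b (l 16521448) (l 16544096))) (l 16543688)) (c (l 16548800) (l 16548168))) (l 114520797591))) (c (b (a (b (c (a (l 16540368) (l 16542336)) (a (l 16539760) (l 16541696))) (l 16542512)) (c (l 16547536) (l 16546912))) (l 16538408)) (b (a (b (a (b (c (l 16539520) (l 16538920)) (l 16538240))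 (c (l 16541056) (l 16540424))) (l 16541336)) (c (l 16546280) (l 16545648))) (l 16526896))))) (l 3)) (l 3)) (a (b (c (c (b (c (l 16540320) (l 16539720)) (l 139216897639)) (b (c (l 16539120) (l 16538520)) (l 16571480))) (c (b (b (l 16533528) (l 16562824)) (l 16570720)) (b (b (c (l 16553536) (l 16552888)) (l 16561712)) (l 16569952)))) (l 3)) (c (b (c (b (l 16571672) (l 16586504)) (b (l 16570432) (l 16585632))) (c (l 16597440) (l 16597376))) (b (c (b (l 16569192) (l 16584760)) (b (c (l 16568264) (l 16567640)) (l 16583896))) (b (l 16573920) (l 3)))))) (l 3))), by decide +kernel⟩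

def k32_pp_123 : ∃ t, chk3 f_pp_123 t 148 5 1 = true :=
  ⟨(b (b (c (b (b (l 16449896) (l 16457136)) (l 16481360)) (b (b (c (l 16438608) (l 16429784)) (l 16441512)) (c (l 16471128) (l 16462576)))) (a (c (b (l 16523976) (b (a (c (l 16558584) (l 16557344)) (l 16551584)) (c (b (a (l 16563160) (l 16567784)) (l 16572752)) (b (a (l 16561376) (l 16565984)) (l 16571224))))) (b (l 16516688) (b (a (c (l 16556776) (b (l 16552760) (l 16556088))) (l 16549256)) (c (b (a (l 16559976) (l 16564568)) (l 16569800)) (b (a (l 16558568) (l 16563152)) (l 16568376)))))) (c (b (l 16513400) (b (l 16523944) (b (l 16565760) (c (a (l 16580344) (l 16583056)) (a (l 16578808) (l 16581512)))))) (b (l 16508240) (b (c (l 16542608) (l 16541496)) (b (l 16562728) (c (a (l 16577368) (l 16580072)) (a (l 16554960) (l 16578632))))))))) (b (c (c (b (b (a (l 16583072) (l 16572336)) (l 16603536)) (b (l 16616928) (l 16625720))) (b (b (a (l 16581800) (l 16571040)) (l 16602568)) (b (l 16616376) (l 16625640)))) (c (b (b (a (l 16580528) (b (l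 16587304) (l 16596200))) (l 16601608)) (b (l 16615816) (l 16625560))) (b (b (a (l 16579248) (b (l 16564960) (l 16594968))) (l 16600640)) (b (l 16615264) (l 16625480))))) (l 3))), by decide +kernel⟩

def k33_pp_123 : ∃ t, chk3 f_pp_123 t 149 5 1 = true :=
  ⟨(b (b (c (b (b (l 16412800) (c (l 16435416) (l 16428480))) (b (l 16443208) (l 16463256))) (b (c (l 16386544) (l 16411568)) (b (l 16431544) (l 16452960)))) (c (b (c (l 16496656) (l 16495936)) (c (b (l 16535472) (l 16569488)) (b (l 16533112) (l 16567728)))) (b (c (l 16494448) (l 16492888)) (c (b (l 16531840) (l 16566312)) (b (l 16530560) (l 16564888)))))) (b (c (b (c (b (a (b (l 16597736) (l 16608544)) (l 16604064)) (a (l 16621176) (l 16629712))) (b (a (b (a (l 16596280) (l 16595352)) (l 16607296)) (l 16602760)) (a (l 16620144) (l 16628656)))) (c (l 16647368) (l 16646848))) (b (a (b (b (a (c (l 16594904) (l 16593528)) (l 16593288)) (c (l 16606056) (l 16604808))) (c (l 16619112) (l 16618080))) (c (b (l 16580480) (l 16606640)) (b (b (l 16589472)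 (l 16609408)) (b (l 16623280) (l 16633104))))) (c (l 16646320) (l 16645792)))) (b (c (c (l 388325154439) (l 432348569047)) (c (l 468855791207) (b (l 16660664) (l 955797760071)))) (l 3)))), by decide +kernel⟩

def k34_pp_123 : ∃ t, chk3 f_pp_123 t 75 5 1 = true :=
  ⟨(b (b (b (c (l 16363800) (l 16358064)) (a (c (b (c (l 16416864) (l 16412472)) (l 16431432)) (b (c (l 16408696) (l 16404144)) (l 16424968))) (b (l 16373640) (a (c (l 16405416) (l 16401912)) (c (l 16392456) (l 16390904)))))) (c (b (a (b (l 16455720) (l 16486232)) (c (l 16450744) (l 16450264))) (c (a (l 16541312) (l 16527312)) (a (l 16539040) (l 16525168)))) (b (a (c (l 16473088) (l 16472992)) (c (l 16449672) (l 16449168))) (c (a (l 16537696) (l 16523904)) (a (l 16536360) (l 16522640)))))) (b (c (b (a (a (b (l 16597496) (c (l 16615016) (b (l 16625424) (l 16642720)))) (l 16611024)) (l 16580384)) (a (a (c (l 16662432) (l 16661808)) (b (c (l 16664128) (l 16663320)) (l 16682472))) (c (b (l 16659728) (a (l 16689992) (l 16693760))) (b (l 16658928)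 (a (l 16689424) (l 16693184)))))) (b (a (a (b (l 16594896) (b (l 16623744) (c (l 16641728) (l 16640728)))) (l 16587728)) (c (l 16599656) (l 16598520))) (a (a (c (l 16661184) (l 16660560)) (b (c (l 16662504) (l 16640728)) (l 16681408))) (c (b (l 16658128) (a (l 16688864) (l 16692608))) (b (l 16636352) (a (l 16688304) (l 16692040))))))) (c (c (b (a (l 16692696) (l 16693384)) (a (l 603073595783) (b (l 16728464) (l 16736080)))) (b (a (l 16692376) (b (l 16708632) (l 16721376))) (a (l 605758003383) (b (l 16727840) (l 414631986343))))) (b (a (c (b (l 16689576) (l 16694544)) (b (l 16689560) (l 402283879335))) (c (b (l 16708384) (l 16721096)) (b (l 16708128) (l 16720816)))) (a (a (c (l 658908204007) (l 657297589031)) (c (l 586430633719) (l 573545730391))) (c (b (l 16727216) (l 432885596279)) (b (l 16726592) (l 432885594551)))))))), by decide +kernel⟩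

def k35_pp_123 : ∃ t, chk3 f_pp_123 t 19 10 1 = true :=
  ⟨(a (b (b (a (c (l 16277144) (l 16271992)) (c (l 16195856) (l 16185480))) (a (a (b (l 16335664) (c (l 16370384) (l 16370064))) (c (l 16324296) (l 16324056))) (c (l 16295176) (l 16295360)))) (a (c (b (a (b (c (l 16409448) (l 16409728)) (l 16452792)) (b (a (l 16397720) (l 16387072)) (a (l 16436344) (l 16433240)))) (a (l 16468568) (c (l 16494992) (l 16493248)))) (b (a (b (l 16409400) (l 16450704)) (b (l 16373624) (a (l 16434904) (l 16432032)))) (a (c (l 16508216) (l 16507064)) (c (l 16492224) (l 16491208))))) (b (a (c (l 16409216) (l 16409624)) (l 16391184)) (a (b (c (l 16470304) (l 16468272)) (l 16505664)) (b (c (l 16473184) (l 16471112)) (c (l 16507376) (l 16505056))))))) (b (a (b (l 16114256) (l 16237264)) (b (l 16030848) (l 16161304))) (a (b (l 16356256) (a (c (l 16485248) (l 16482952)) (l 16460440))) (b (l 16290096) (l 16377128))))), by decide +kernel⟩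

def k36_pp_123 : ∃ t, chk3 f_pp_123 t 19 11 1 = true :=
  ⟨(a (a (b (c (b (a (l 16586448) (c (l 16570312) (l 16569336))) (a (l 16663360) (l 16625272))) (b (a (l 16563328) (c (l 16568368) (l 16567392))) (a (l 16662112) (l 16624280)))) (c (a (b (a (c (l 16685432) (l 16687904)) (b (l 16715512) (c (l 16744512) (l 16744472)))) (c (a (l 16751112) (l 16757936)) (a (l 16750784) (l 16757688)))) (a (b (c (l 16727248) (l 16727104)) (c (l 16763056) (l 16762880))) (b (l 16713816) (b (c (l 16762592) (l 16762416)) (l 16764328))))) (a (b (a (c (b (l 16720096) (l 16738800)) (b (l 16719760) (l 16738760))) (b (l 16714904) (c (l 16744432) (l 16723416)))) (c (a (l 16750448) (l 16757448)) (a (l 16750112) (l 16757200)))) (b (a (c (l 16726960) (l 16705840)) (l 16713728)) (c (b (a (l 16761792) (l 16762240)) (l 16750272)) (b (a (l 16761608) (l 16762056)) (a (l 16768328) (l 16774744)))))))) (b (c (b (l 16555112) (l 16618000)) (b (l 16553424) (l 16617688))) (b (c (l 16673256) (l 16672032)) (b (c (l 16712592) (l 16710936))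 (a (c (c (l 16760592) (l 16739408)) (a (c (l 16768304) (l 16768192)) (l 16750856))) (l 16724136)))))) (b (a (b (a (c (l 16554896) (l 16553232)) (b (a (l 16548216) (l 16537520)) (l 16538536))) (c (l 16614072) (l 16613920))) (b (a (b (l 16520488) (l 16579792)) (l 16523232)) (a (c (l 16623560) (l 16623168)) (b (l 16613080) (l 16649824))))) (a (c (l 16603872) (b (l 16647368) (l 16681472))) (c (l 16673712) (l 16629744))))), by decide +kernel⟩

def k37_pp_123 : ∃ t, chk3 f_pp_123 t 10 8 1 = true :=
  ⟨(b (a (a (a (c (b (l 14925000) (l 14952312)) (b (l 14875712) (l 14902968))) (b (l 14779168) (c (c (l 14817104) (l 14791704)) (c (l 14765368) (l 14737728))))) (a (b (l 14878648) (b (l 14853128) (c (l 14874376) (l 14822408)))) (l 15085632))) (l 15617784)) (b (a (a (c (l 15002576) (l 14956088)) (a (c (l 14930368) (l 14881960)) (c (l 15036040) (a (l 15002984) (l 15098512))))) (a (c (l 15338456) (b (l 15355680) (l 15357112))) (l 15783160))) (a (a (c (l 14912304) (l 15102624)) (c (a (l 15066848) (l 15189976))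 (a (l 15024608) (l 15149720)))) (a (c (l 15426920) (l 15223080)) (c (l 15794632) (l 15745120)))))), by decide +kernel⟩

def k38_pp_123 : ∃ t, chk3 f_pp_123 t 20 9 1 = true :=
  ⟨(a (c (b (b (c (l 15297192) (l 15282144)) (c (c (a (l 15510368) (l 15407440)) (b (l 15406088) (l 15369384))) (a (c (c (l 15508704) (l 15496112)) (l 15491976)) (l 15378736)))) (b (c (b (c (l 15549080) (l 15554640)) (c (l 15637816) (l 15620344))) (c (b (a (l 15611736) (l 15512368)) (l 15621216)) (a (b (c (l 15615632) (l 15612744)) (l 15674872)) (b (l 15495616) (l 15583752))))) (a (c (l 15805488) (b (l 15757624) (l 15837624))) (c (l 15693768) (c (l 15688248) (b (l 15643664) (l 15729464))))))) (b (c (l 15345008) (l 15326360)) (c (b (b (l 15539264) (c (a (c (l 15678384) (l 15705952)) (l 15548272)) (l 15557168))) (a (b (c (a (l 15769152) (l 15716480)) (l 15748376)) (a (c (l 15853112) (l 15850424)) (l 15683992))) (c (c (b (l 15648016) (l 15723544)) (l 15581032)) (l 15545792)))) (b (l 15565304) (a (c (b (l 15755264) (l 15705320))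 (l 15799512)) (l 15690936)))))) (b (c (a (c (l 15282032) (l 15268240)) (l 15209008)) (a (l 15243840) (l 15325048))) (c (a (c (b (c (l 15487064) (l 15495464)) (l 15611576)) (b (c (b (l 15449008) (l 15527632)) (l 15479160)) (c (b (l 15580544) (l 15653528)) (b (l 15590264) (l 15644768))))) (c (b (c (a (l 15508688) (l 15565392)) (b (l 15498888) (l 15538536))) (a (c (l 15612568) (l 15601640)) (l 15648976))) (b (l 15520680) (a (c (l 15605496) (b (l 15583552) (l 15635744))) (c (l 15658872) (l 15690008)))))) (a (c (b (l 15468648) (c (a (c (l 15502696) (l 15652912)) (l 15636720)) (l 15638536))) (l 15530920)) (a (c (a (l 15416184) (l 15578528)) (l 15531624)) (l 15520112)))))), by decide +kernel⟩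

def k39_pp_123 : ∃ t, chk3 f_pp_123 t 21 9 1 = true :=
  ⟨(c (b (a (l 15563184) (c (l 15865192) (l 15855176))) (b (a (c (a (c (l 15654368) (l 15644208)) (l 15772688)) (l 15700664)) (l 15969192)) (a (c (c (l 15795128) (a (l 15739176) (l 15861296))) (b (l 15770264) (a (l 15677504) (l 15918072)))) (c (a (c (l 15982656) (l 15976224)) (l 16105352)) (l 16033992))))) (a (b (l 15534296) (l 15730664)) (b (l 15645840) (l 15981336)))), by decide +kernel⟩

def k40_pp_123 : ∃ t, chk3 f_pp_123 t 20 10 1 = true :=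
  ⟨(a (b (b (a (b (c (c (l 15900504) (l 15895816)) (c (c (l 15892872) (l 15873408)) (c (l 15883240) (l 15884528)))) (l 15973752)) (c (c (l 15847160) (b (l 15812832) (l 15869664))) (c (c (b (l 15810936) (l 15870704)) (c (l 15836096) (b (l 15804336) (l 15851960)))) (b (a (l 15829376) (l 15777384)) (l 15862808))))) (a (l 16073416) (l 15979136))) (a (b (l 16207992) (l 16342864)) (b (l 16115488) (l 16252312)))) (b (a (b (c (c (l 15772256) (b (l 15721592) (l 15794056))) (c (b (c (l 15605440) (l 15711288)) (c (l 15793536) (l 15791376))) (b (l 15738696) (l 15793936)))) (a (l 15907248) (b (c (l 15824184) (b (c (l 15805816) (l 15794720)) (l 15839240))) (l 15891648)))) (b (c (c (l 15745992) (c (l 15741488) (b (l 15707128) (l 15766496)))) (c (a (a (l 15691192) (l 15711232)) (l 15756216)) (l 15681992))) (a (b (c (l 15803104) (c (a (l 15789424) (l 15799496)) (l 15786848))) (l 15856920)) (a (c (l 15848232) (c (l 15829272) (l 15829000))) (c (a (a (a (l 15858744) (l 15865120)) (l 15865200)) (l 15874144)) (b (b (l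 15811480) (c (l 15861496) (l 15853184))) (a (l 15887384) (l 15868760)))))))) (a (b (l 16016448) (l 16150448)) (a (b (l 15951424) (l 16076848)) (a (l 16010808) (a (c (b (l 15966392) (l 16066248)) (l 15985008)) (l 16014672))))))), by decide +kernel⟩

def k41_pp_123 : ∃ t, chk3 f_pp_123 t 20 11 1 = true :=
  ⟨(a (b (a (b (l 16471840) (a (l 16531072) (l 16574480))) (b (l 16383224) (l 16506904))) (a (b (a (b (l 16679736) (l 16694920)) (b (l 16664896) (l 16705024))) (c (l 16713472) (l 16711832))) (b (a (l 16650680) (l 16602648)) (a (b (l 16727952) (l 16746976)) (b (l 16690984) (l 16748656)))))) (a (b (b (l 16278600) (l 16399536)) (b (l 16516232) (l 16611920))) (b (a (b (l 16196568) (l 16309192)) (a (l 16157616) (c (b (l 16164656) (l 16253224)) (l 16157248)))) (a (b (l 16417728) (l 16526416)) (a (a (l 16426952) (l 16402424)) (c (b (l 16337888) (l 16422480)) (l 16370584))))))), by decide +kernel⟩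

def k42_pp_123 : ∃ t, chk3 f_pp_123 t 21 5 1 = true :=
  ⟨(b (b (b (c (a (c (a (l 15838288) (l 15930864)) (c (b (l 15861896) (l 15907056)) (l 15720360))) (c (c (l 16103112) (l 15953296)) (l 15997632))) (a (c (l 15811592) (l 15890888)) (l 16126736))) (c (a (c (l 15978600) (b (l 15934480) (a (l 15942672) (l 16036304)))) (c (a (l 16116064) (l 16215552)) (l 15962648))) (a (c (b (l 15929912) (a (l 15924888) (l 16030152))) (l 15929056)) (l 16091944)))) (a (a (l 16053704) (b (b (c (l 16068640) (c (l 16051624) (l 16056136))) (l 16108960)) (l 16168184))) (b (c (c (l 16228920) (b (l 16094120) (l 16240360))) (c (b (l 16195680) (l 16233872)) (l 16222112))) (a (l 16244536) (b (c (l 16310488) (l 16300952)) (l 16341632)))))) (b (a (c (l 16254008) (l 16245232)) (c (l 16371888) (l 16366120))) (c (a (l 16396240) (l 16471496)) (l 16359624)))), by decide +kernel⟩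

def k43_pp_123 : ∃ t, chk3 f_pp_123 t 11 2 1 = true :=
  ⟨(b (a (b (b (l 16258520) (l 16243928)) (a (b (c (l 16023336) (l 16004296)) (c (l 16276728) (l 16255144))) (c (b (l 16490440) (l 16565784)) (b (l 16438232) (l 16548552))))) (b (l 16739376) (c (a (a (l 16642144) (l 16727960)) (l 16727960)) (c (l 16721656) (l 16697152))))) (a (b (a (c (b (c (a (l 16251168) (l 16439672)) (l 16292888)) (b (c (l 16417424) (l 16410264)) (c (l 16462056) (l 16392560)))) (b (l 16302560) (b (l 16428104) (l 16354312)))) (c (b (l 16450848) (a (b (l 16583136) (l 16599936)) (l 16688472))) (b (l 16600200) (l 16472720)))) (b (a (l 16514672) (c (b (l 16529032) (l 16679168)) (l 16580008))) (c (a (l 16572840) (l 16697680)) (l 16524568)))) (c (b (a (b (l 16756256) (a (l 16755704) (l 16757008))) (l 16771016)) (b (c (a (l 16757392) (l 16757896)) (l 16757360)) (l 16773576))) (b (b (l 16746896) (l 16753512)) (b (a (l 16756720) (l 16757240)) (l 16773472)))))), by decide +kernel⟩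

def k44_pp_123 : ∃ t, chk3 f_pp_123 t 3 2 1 = true :=
  ⟨(b (a (a (b (l 16739896) (c (l 16727960) (l 16720512))) (b (l 16739896) (l 16725344))) (a (l 16723688) (l 16723688))) (a (c (a (a (b (b (l 16757032) (l 16757008)) (b (c (l 16757896) (l 16757624)) (l 16773752))) (b (l 16750048) (b (l 16757760) (b (l 16770600) (l 16777136))))) (a (b (l 16750048) (c (l 16765288) (l 16765008))) (b (l 16750048) (b (l 16757760) (l 16773752))))) (b (a (c (l 16743712) (l 16742216)) (b (l 16747312) (l 16753848))) (a (c (b (l 16757368) (l 16752720)) (b (l 16757120) (l 16773640))) (a (b (l 16757240) (l 16773664)) (l 16764768))))) (b (c (l 16750048) (l 16743248)) (c (a (l 16765184) (l 16765184)) (a (l 16764768) (l 16764768)))))), by decide +kernel⟩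

def k45_pp_123 : ∃ t, chk3 f_pp_123 t 8 3 1 = true :=
  ⟨(l 3), by decide +kernel⟩

def k46_pp_123 : ∃ t, chk3 f_pp_123 t 18 6 1 = true :=
  ⟨(a (l 3) (a (l 3) (b (a (l 3) (b (a (l 3) (b (b (c (l 595020661031) (c (l 16749304) (l 16727976))) (l 3)) (l 3))) (l 3))) (l 3)))), by decide +kernel⟩

def k47_pp_123 : ∃ t, chk3 f_pp_123 t 38 24 1 = true :=
  ⟨(b (a (a (c (a (c (l 563882171415) (l 565492783879)) (c (l 16770408) (l 16770320))) (a (c (b (l 16764336) (l 640654729207)) (b (l 16764168) (l 617569279479))) (c (l 16770232) (l 335712056727)))) (c (c (l 16753288) (a (l 16772384) (l 16777008))) (c (a (l 16772320) (l 16777008)) (a (l 16772264) (l 16777008))))) (c (a (a (l 16777152) (c (l 16772152) (l 16772088))) (c (b (l 16753664) (l 16748032)) (a (b (l 16760648) (l 16774056)) (l 16755424)))) (a (a (c (l 16777152) (l 16777152)) (b (c (l 16771832) (l 16771768)) (l 16777144))) (c (a (b (l 16760432) (l 16774016)) (l 16755144)) (a (b (l 16760224) (l 16773976)) (l 16754864)))))) (a (a (a (l 3) (c (c (l 759840112087)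 (l 764671950295)) (c (l 761450724823) (l 750713306583)))) (c (c (a (l 654613405447) (l 411947757527)) (a (l 661592726967) (l 420537691799))) (c (a (b (l 16775992) (l 778630591031)) (l 408726531399)) (a (b (l 16775984) (l 767893172791)) (b (l 16777088) (l 16777128)))))) (a (c (c (l 16777144) (l 16777144)) (c (l 16777144) (c (l 16777144) (l 16777144)))) (c (c (a (l 16777136) (l 16775384)) (a (l 16777136) (l 16775360))) (c (a (l 16777136) (l 16775344)) (a (l 16777136) (l 16775320))))))), by decide +kernel⟩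

def k48_pp_123 : ∃ t, chk3 f_pp_123 t 38 25 1 = true :=
  ⟨(b (a (a (l 3) (a (l 3) (a (l 3) (b (c (l 785073045319) (l 779704336215)) (l 3))))) (a (c (a (c (l 620790546295) (l 624011771751)) (c (l 476372270919) (l 471540432663))) (c (b (a (l 491404656455) (l 16777128)) (l 586967678823)) (b (a (l 462950498103) (l 16777128)) (a (l 700784312167) (l 416242728775))))) (c (c (l 16777128) (a (l 16777128) (l 16777128))) (c (c (l 16777128) (l 16777128)) (c (l 16777128) (l 16777128)))))) (a (l 3) (a (a (l 3) (b (c (l 742123372423) (l 738902146951)) (l 3))) (c (a (c (l 615958708103) (l 614884966279)) (c (l 480130367335) (l 476909141815))) (a (c (l 600926322567) (l 574619647879)) (c (l 456508047159) (l 417316470583))))))), by decide +kernel⟩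

def k49_pp_123 : ∃ t, chk3 f_pp_123 t 38 13 1 = true :=
  ⟨(b (l 3) (l 3)), by decide +kernel⟩

def k50_pp_123 : ∃ t, chk3 f_pp_123 t 39 12 1 = true :=
  ⟨(a (b (c (b (l 16722384) (c (a (a (l 16771664) (l 16765712)) (l 16749440)) (a (a (b (l 16770432) (l 16776696)) (l 16765568)) (l 16749080)))) (b (l 16720960) (b (a (a (c (l 16770352) (l 16770264)) (l 16757240)) (l 16739320)) (c (a (a (l 16776688) (l 16772784)) (l 16758976)) (a (a (l 16776688) (l 16772736)) (l 16758752)))))) (c (a (b (c (l 16777120) (l 16777120)) (c (l 16777144) (a (l 16777152) (l 16777144)))) (b (c (a (l 16774432) (l 16770952)) (a (l 16774400) (b (l 16767896) (l 16775376)))) (c (l 16777144) (l 16777144)))) (a (b (c (l 16777120) (c (l 16777120) (l 16777120))) (c (a (l 16777152) (l 16777144)) (a (l 16777144) (l 16777144)))) (b (a (b (c (l 16774344) (l 16774312)) (l 16777120)) (c (b (l 16767776) (l 16775360)) (b (l 16767664) (l 16775336)))) (c (l 16777136) (l 16777136)))))) (b (c (l 16717800) (b (l 16704432) (l 16728040))) (a (c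 (b (a (c (l 16764600) (l 16764440)) (l 16755544)) (c (a (l 16775976) (l 16773712)) (a (l 16775960) (l 16773664)))) (b (a (c (l 16764280) (l 16764112)) (l 16754992)) (c (a (l 16775944) (b (l 16772680) (l 16776544))) (a (l 16775936) (b (l 16772624) (l 16776544)))))) (a (b (l 16749120) (c (c (l 16769952) (l 16769856)) (c (l 16769768) (l 16769672)))) (c (l 16754688) (l 16754112)))))), by decide +kernel⟩

def k51_pp_123 : ∃ t, chk3 f_pp_123 t 39 13 1 = true :=
  ⟨(a (b (a (b (c (a (c (l 729775341495) (l 727627857847)) (c (l 571935293287) (l 568714067815))) (a (c (l 713669214135) (l 687899410359)) (c (l 549386714903) (l 513416363783)))) (l 3)) (b (c (c (a (l 16777176) (l 16777168)) (a (l 16777176) (l 16777168))) (c (a (l 16777168) (l 16777168)) (a (l 16777168) (l 16777168)))) (c (c (b (l 610589999031) (l 926270095351)) (a (l 861845585895) (b (l 16777192) (l 835538911223)))) (b (c (a (l 736217792391) (l 16777192)) (a (l 703468666759) (l 16777192))) (a (l 3) (c (l 797957947383) (l 746418339831))))))) (l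 3)) (b (c (a (c (b (l 16777168) (c (l 16777200) (l 16777200))) (b (l 16777168) (c (l 16777200) (l 16777200)))) (c (b (a (l 16776848) (l 16775208)) (l 16777192)) (b (a (l 16776840) (l 16775184)) (c (l 16777192) (l 16777192))))) (a (c (b (l 16777168) (c (l 16777200) (l 16777200))) (b (c (l 16777168) (l 16777168)) (c (l 16777192) (l 16777192)))) (c (b (a (l 16776840) (b (l 16774896) (l 16777128))) (c (l 16777192) (l 16777192))) (b (a (l 16776832) (b (l 16774872) (l 16777128))) (c (l 16777192) (l 16777192)))))) (b (c (b (a (c (a (l 739975888855) (l 16777216)) (a (l 710984859607) (l 16777216))) (c (l 16777208) (l 16777208))) (a (c (l 811916591111) (l 783999303687)) (c (l 16777208) (l 16777208)))) (a (a (b (c (l 677161992119) (l 637970415543)) (l 3)) (c (b (l 16777216) (l 680920088503)) (b (l 16777216) (l 642802253751)))) (c (c (l 16777208) (l 16777208)) (c (l 16777208) (l 16777208))))) (a (l 3) (c (c (a (l 826948976647) (l 524153782231)) (a (l 797957947399) (b (l 16777216) (l 702931795927)))) (a (b (c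 (l 679309475767) (l 642265382839)) (l 3)) (c (b (l 16777216) (l 670719541175)) (b (l 16777216) (l 634212319159))))))))), by decide +kernel⟩

def k52_pp_123 : ∃ t, chk3 f_pp_123 t 9 7 1 = true :=
  ⟨(b (b (a (l 3) (l 3)) (l 3)) (l 3)), by decide +kernel⟩

def k53_pp_123 : ∃ t, chk3 f_pp_123 t 40 12 1 = true :=
  ⟨(b (a (c (l 16729696) (l 16728464)) (b (a (l 16754080) (l 16729008)) (l 16726376))) (a (c (l 16730360) (b (l 16745176) (l 16756128))) (c (l 16770680) (b (l 16769768) (l 16771272))))), by decide +kernel⟩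

def k54_pp_123 : ∃ t, chk3 f_pp_123 t 80 13 1 = true :=
  ⟨(c (b (a (c (b (a (l 16772976) (l 16769152)) (a (l 16777192) (l 16776040))) (b (a (l 16772920) (l 16769048)) (a (l 16777192) (b (l 16775968) (l 16777200))))) (b (l 16765816) (c (a (l 16774768) (l 16772808)) (a (b (l 16773376) (l 16776280)) (l 16772752))))) (a (c (b (l 16777200) (c (l 16777208) (l 16777208))) (b (l 16777200) (c (l 16777208) (l 16777208)))) (c (b (a (l 16777200) (l 16776552)) (l 16777208)) (b (a (l 16777200) (b (l 16776520) (l 16777200))) (c (l 16777208) (l 16777208)))))) (b (a (c (b (a (b (l 16770088) (l 16775520)) (l 16768944)) (a (l 16777192) (b (l 16775952) (l 16777200)))) (b (a (b (l 16769992) (l 16775496)) (l 16768840)) (a (l 16777192) (b (l 16775936) (l 16777200))))) (b (l 16765520) (c (a (b (l 16773328) (l 16776272)) (l 16772688)) (a (b (l 16773280) (l 16776256)) (l 16772632))))) (a (c (b (c (l 16777200) (l 16777200)) (c (l 16777208) (l 16777208))) (b (c (l 16777200) (l 16777200)) (c (l 16777208) (l 16777208)))) (c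 (b (a (l 16777200) (b (l 16776512) (l 16777200))) (c (l 16777208) (l 16777208))) (b (a (l 16777200) (b (l 16776504) (l 16777200))) (c (l 16777208) (l 16777208))))))), by decide +kernel⟩

def k55_pp_123 : ∃ t, chk3 f_pp_123 t 81 13 1 = true :=
  ⟨(b (c (b (l 16772872) (l 16774312)) (b (l 16772760) (a (l 16772064) (l 16776128)))) (c (a (c (b (a (l 16775984) (l 16775528)) (a (l 16777200) (l 16776936))) (b (a (b (l 16775704) (l 16776776)) (l 16775512)) (a (l 16777200) (b (l 16776976) (l 16777200))))) (b (l 16776568) (a (c (l 16777048) (b (l 16777048) (l 16777200))) (l 16776152)))) (a (c (b (a (b (l 16775680) (l 16776768)) (l 16775488)) (a (l 16777200) (b (l 16776968) (l 16777200)))) (b (a (b (l 16775664) (l 16776760)) (l 16775464)) (a (l 16777200) (b (l 16776968) (l 16777200))))) (b (l 16776552) (a (c (b (l 16777048) (l 16777200)) (b (l 16777048) (l 16777200))) (l 16776120)))))), by decide +kernel⟩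

def k56_pp_123 : ∃ t, chk3 f_pp_123 t 41 6 1 = true :=
  ⟨(b (a (b (a (b (c (l 16773352) (l 16773256)) (l 16750720)) (b (l 16722936) (c (l 16746256) (b (l 16750008) (l 16729736))))) (c (a (l 16753776) (l 16727960)) (a (l 16753168) (l 16726680)))) (b (a (b (l 16639096) (a (l 16729552) (l 16726080))) (a (l 16585744) (b (l 16507280) (l 16595760)))) (a (b (a (b (l 16711184) (l 16703512)) (c (l 16732456) (l 16710320))) (c (l 16711744) (l 16710048))) (b (a (a (l 16774584) (l 16735336)) (l 16683352)) (a (b (a (l 16713376) (l 16746592)) (a (l 16705288) (l 16676152))) (l 16770104)))))) (a (b (c (a (l 16761336) (l 16740952)) (a (l 16760928) (l 16740008))) (c (a (b (l 16766944) (l 16770680)) (l 16732840)) (a (b (l 16766680) (l 16770512)) (b (l 16749912) (l 16756488))))) (b (a (c (l 16719384) (b (l 16713872) (l 16721888))) (a (c (b (l 16714240) (l 16717480)) (b (l 16712600) (l 16715928))) (a (a (a (b (l 16714584) (l 16715136)) (a (b (l 16698128) (l 16714536)) (b (b (l 16715808) (l 16713384)) (l 16714048))))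 (b (l 16728424) (l 16714040))) (b (l 16709744) (l 16714656))))) (a (c (b (l 16731072) (l 16738840)) (b (l 16729872) (l 16737840))) (a (c (l 16727512) (b (l 16722792) (l 16729648))) (a (a (a (c (l 16725024) (l 16723672)) (c (b (l 16720864) (l 16726632)) (b (l 16719400) (l 16725312)))) (c (l 16723216) (l 16721816))) (c (l 16723736) (l 16722352)))))))), by decide +kernel⟩

def k57_pp_123 : ∃ t, chk3 f_pp_123 t 21 6 1 = true :=
  ⟨(b (b (c (a (l 16542224) (l 16576064)) (l 16550536)) (a (c (l 16687864) (l 16685544)) (l 16680056))) (b (b (a (a (l 16703664) (l 16770736)) (l 16758840)) (a (c (l 16728096) (l 16726816)) (l 16729456))) (c (c (l 16736072) (l 16735536)) (c (l 16735000) (l 16734464))))), by decide +kernel⟩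

def k58_pp_123 : ∃ t, chk3 f_pp_123 t 80 7 1 = true :=
  ⟨(b (a (b (b (c (c (a (l 899963420631) (l 562808487895)) (a (l 846276329479) (b (l 16777216) (l 657834639319)))) (c (a (b (l 653539672023) (l 1041160470535)) (b (l 16777216) (l 627232997335))) (a (b (l 618643062743) (l 962777317383)) (b (l 16777216) (l 593947000791))))) (b (c (c (l 1251613868039) (l 1137797234695)) (c (l 1023443730439) (l 949892415495))) (l 3))) (l 3)) (a (b (c (b (c (l 16777208) (l 16777208)) (b (c (l 650318446583) (l 627769868247)) (c (l 1290805444615) (l 1103974367239)))) (b (c (l 16777208) (l 16777208)) (c (b (l 571935293399) (l 981567799303)) (b (l 468319207383) (l 939691868151))))) (l 3)) (b (c (c (b (l 16777208) (b (l 16777216) (l 596631355383))) (b (l 16777208) (b (l 16777216) (l 580525227991)))) (c (b (l 16777208) (b (l 16777216) (l 503215816663))) (b (l 16777208) (b (l 16777216) (l 384030474199))))) (b (b (c (c (l 1002505764855) (l 978346573815)) (c (l 945597448183) (l 903184646103))) (l 3)) (l 3))))) (l 3)), by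 decide +kernel⟩

def k59_pp_123 : ∃ t, chk3 f_pp_123 t 81 7 1 = true :=
  ⟨(a (b (b (c (c (b (c (l 16777208) (l 16777208)) (c (l 16777208) (l 16777208))) (b (c (l 16777208) (l 16777208)) (c (l 16777208) (l 16777208)))) (c (b (c (l 16777208) (l 16777208)) (c (l 16777208) (l 16777208))) (b (c (l 16777208) (l 16777208)) (c (l 16777208) (l 16777208))))) (b (c (c (a (b (l 475835400183) (l 937007513591)) (b (l 16777216) (l 16777216))) (a (b (l 371682443255) (l 919827644407)) (c (l 16777216) (l 16777216)))) (c (a (b (l 16777216) (l 894594711543)) (c (l 16777216) (l 16777216))) (c (a (l 436106952663) (l 16777216)) (a (l 443623145399) (l 16777216))))) (b (a (l 3) (c (c (l 846276329463) (l 838223265783)) (c (l 823727751159) (l 16777216)))) (l 3)))) (l 3)) (b (b (c (c (b (a (l 16777200) (b (l 16776936) (l 16777176))) (c (l 16777208) (l 16777208))) (b (a (l 16777200) (b (l 16776928) (l 16777176))) (c (l 16777208) (l 16777208)))) (c (b (a (l 16777200) (b (l 16776928) (l 16777176))) (c (l 16777208) (l 16777208)))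 (b (a (l 16777200) (b (l 16776920) (l 16777176))) (c (l 16777208) (l 16777208))))) (c (c (b (c (l 16777208) (l 16777208)) (c (l 238001586183) (l 204715589607))) (b (c (l 16777208) (l 16777208)) (c (l 181630140391) (l 168745238503)))) (c (b (c (l 16777208) (l 16777208)) (c (l 165524013015) (l 16777216))) (b (c (l 16777208) (l 16777208)) (a (l 282561871831) (l 16777216)))))) (l 1))), by decide +kernel⟩

def k60_pp_123 : ∃ t, chk3 f_pp_123 t 82 14 1 = true :=
  ⟨(c (b (b (a (a (b (l 16775216) (c (l 16776464) (l 16776456))) (l 16772440)) (l 16763424)) (b (a (c (a (l 16777048) (l 16775640)) (a (l 16777040) (l 16775624))) (l 16768224)) (a (c (a (l 16777208) (a (l 16777152) (l 16776744))) (a (l 16777208) (a (l 16777152) (l 16776736)))) (a (c (l 16774120) (l 16774080)) (l 16768336))))) (b (a (c (c (l 16777208) (l 16777208)) (c (l 16777208) (l 16777208))) (a (c (b (a (l 16776904) (l 16775968)) (l 16777024)) (b (a (l 16776904) (l 16775952)) (l 16777024))) (b (l 16771840) (a (c (l 16776288) (l 16776280)) (l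 16773840))))) (a (c (c (l 16777216) (l 16777216)) (c (l 16777216) (l 16777216))) (a (c (l 16777216) (l 16777216)) (c (c (l 77342964471) (l 69289900791)) (a (l 16777168) (l 73584865191))))))) (b (b (a (a (b (l 16775160) (c (l 16776440) (l 16776432))) (l 16772320)) (l 16763064)) (a (c (a (b (l 16777040) (l 16777208)) (c (l 16776128) (l 16776120))) (a (c (l 16777040) (l 16777040)) (c (l 16776120) (l 16776112)))) (a (a (c (l 16774072) (l 16774032)) (l 16771312)) (l 16766312)))) (b (a (c (c (l 16777208) (l 16777208)) (c (l 16777208) (l 16777208))) (a (c (b (a (l 16776896) (l 16775936)) (l 16777016)) (c (l 16776344) (l 16776344))) (b (l 16771696) (a (c (l 16776264) (l 16776248)) (l 16773752))))) (a (c (c (l 16777216) (l 16777216)) (c (l 16777216) (l 16777216))) (a (c (l 16777216) (l 16777208)) (a (c (l 16777168) (l 16777168)) (c (l 67142414231) (l 16776496)))))))), by decide +kernel⟩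

def k61_pp_123 : ∃ t, chk3 f_pp_123 t 83 14 1 = true :=
  ⟨(b (a (c (b (l 16746600) (c (l 16754512) (l 16754216))) (b (l 16745800) (c (l 16753920) (l 16753624)))) (a (c (b (l 16737528) (l 16744200)) (b (l 16736496) (l 16743344))) (a (a (a (c (l 16737128) (l 16736088)) (c (b (l 16732384) (b (l 16736712) (l 16739592))) (b (l 16731224) (l 16737136)))) (c (l 16734360) (l 16733248))) (c (l 16734760) (l 16733656))))) (b (a (c (c (l 16762248) (l 16762056)) (c (l 16761856) (l 16761664))) (a (c (c (l 16751072) (l 16750736)) (l 16739736)) (a (a (a (c (l 16746232) (l 16745424)) (c (b (l 16742480) (l 16745376)) (b (l 16741584) (l 16744552)))) (c (l 16742736) (l 16741840))) (c (l 16743040) (l 16742152))))) (b (a (a (c (a (c (l 16774320) (l 16774288)) (l 16770312)) (a (c (l 16774248) (l 16774208)) (l 16770128))) (c (l 16764536) (l 16764208))) (a (c (l 16755944) (l 16755392)) (a (a (a (c (l 16750808) (l 16750120)) (c (l 16748288) (l 16747536))) (l 16746552)) (l 16746816)))) (l 1)))), by decide +kernel⟩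

def k62_pp_123 : ∃ t, chk3 f_pp_123 t 41 15 1 = true :=
  ⟨(l 1), by decide +kernel⟩

def k63_pp_123 : ∃ t, chk3 f_pp_123 t 21 7 1 = true :=
  ⟨(b (c (b (c (l 16744336) (l 16743904)) (c (l 16731664) (l 16752312))) (b (c (l 16743472) (l 16743048)) (c (l 16751992) (l 16751672)))) (l 1)), by decide +kernel⟩

def k64_pp_123 : ∃ t, chk3 f_pp_123 t 11 3 1 = true :=
  ⟨(b (b (a (b (c (l 16590920) (l 16651176)) (c (l 16718920) (l 16717416))) (c (b (l 16777048) (l 16777080)) (b (l 16777048) (l 16777080)))) (c (a (b (b (l 16751496) (l 16764288)) (b (l 16764456) (l 16762608))) (b (l 16777160) (l 16777208))) (a (b (l 16741752) (b (l 16764120) (l 16762224))) (b (l 16777160) (l 16777208))))) (b (b (c (a (l 16764824) (l 16777200)) (a (l 16764496) (l 16777200))) (l 1)) (l 1))), by decide +kernel⟩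

def k65_pp_123 : ∃ t, chk3 f_pp_123 t 3 3 1 = true :=
  ⟨(b (a (a (b (a (c (l 16777160) (l 16777160)) (b (c (l 16777176) (l 16777176)) (l 16777152))) (c (b (l 16777192) (l 16777216)) (b (l 16777192) (l 16777216)))) (b (a (b (c (c (l 16777176) (l 16777176)) (l 16777176)) (l 16777152)) (c (l 16777160) (l 16777160))) (c (l 16777200) (l 16777200)))) (a (a (b (b (l 16777176) (l 1)) (l 1)) (l 1)) (l 1))) (l 1)), by decide +kernel⟩

theorem s66_pp_123 : ∃ t, chk3 f_pp_123 t 41 14 1 = true := ex3_a k60_pp_123 k61_pp_123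

theorem s67_pp_123 : ∃ t, chk3 f_pp_123 t 41 7 1 = true := ex3_b s66_pp_123 k62_pp_123

theorem s68_pp_123 : ∃ t, chk3 f_pp_123 t 40 7 1 = true := ex3_a k58_pp_123 k59_pp_123

theorem s69_pp_123 : ∃ t, chk3 f_pp_123 t 20 7 1 = true := ex3_a s68_pp_123 s67_pp_123

theorem s70_pp_123 : ∃ t, chk3 f_pp_123 t 10 7 1 = true := ex3_a s69_pp_123 k63_pp_123

theorem s71_pp_123 : ∃ t, chk3 f_pp_123 t 40 13 1 = true := ex3_a k54_pp_123 k55_pp_123

theorem s72_pp_123 : ∃ t, chk3 f_pp_123 t 40 6 1 = true := ex3_b k53_pp_123 s71_pp_123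

theorem s73_pp_123 : ∃ t, chk3 f_pp_123 t 20 6 1 = true := ex3_a s72_pp_123 k56_pp_123

theorem s74_pp_123 : ∃ t, chk3 f_pp_123 t 10 6 1 = true := ex3_a s73_pp_123 k57_pp_123

theorem s75_pp_123 : ∃ t, chk3 f_pp_123 t 10 3 1 = true := ex3_b s74_pp_123 s70_pp_123

theorem s76_pp_123 : ∃ t, chk3 f_pp_123 t 5 3 1 = true := ex3_a s75_pp_123 k64_pp_123

theorem s77_pp_123 : ∃ t, chk3 f_pp_123 t 39 6 1 = true := ex3_b k50_pp_123 k51_pp_123

theorem s78_pp_123 : ∃ t, chk3 f_pp_123 t 38 12 1 = true := ex3_b k47_pp_123 k48_pp_123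

theorem s79_pp_123 : ∃ t, chk3 f_pp_123 t 38 6 1 = true := ex3_b s78_pp_123 k49_pp_123

theorem s80_pp_123 : ∃ t, chk3 f_pp_123 t 19 6 1 = true := ex3_a s79_pp_123 s77_pp_123

theorem s81_pp_123 : ∃ t, chk3 f_pp_123 t 9 6 1 = true := ex3_a k46_pp_123 s80_pp_123

theorem s82_pp_123 : ∃ t, chk3 f_pp_123 t 9 3 1 = true := ex3_b s81_pp_123 k52_pp_123

theorem s83_pp_123 : ∃ t, chk3 f_pp_123 t 4 3 1 = true := ex3_a k45_pp_123 s82_pp_123

theorem s84_pp_123 : ∃ t, chk3 f_pp_123 t 2 3 1 = true := ex3_a s83_pp_123 s76_pp_123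

theorem s85_pp_123 : ∃ t, chk3 f_pp_123 t 1 3 1 = true := ex3_a s84_pp_123 k65_pp_123

theorem s86_pp_123 : ∃ t, chk3 f_pp_123 t 20 5 1 = true := ex3_b k40_pp_123 k41_pp_123

theorem s87_pp_123 : ∃ t, chk3 f_pp_123 t 10 5 1 = true := ex3_a s86_pp_123 k42_pp_123

theorem s88_pp_123 : ∃ t, chk3 f_pp_123 t 10 9 1 = true := ex3_a k38_pp_123 k39_pp_123

theorem s89_pp_123 : ∃ t, chk3 f_pp_123 t 10 4 1 = true := ex3_b k37_pp_123 s88_pp_123

theorem s90_pp_123 : ∃ t, chk3 f_pp_123 t 10 2 1 = true := ex3_b s89_pp_123 s87_pp_123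

theorem s91_pp_123 : ∃ t, chk3 f_pp_123 t 5 2 1 = true := ex3_a s90_pp_123 k43_pp_123

theorem s92_pp_123 : ∃ t, chk3 f_pp_123 t 19 5 1 = true := ex3_b k35_pp_123 k36_pp_123

theorem s93_pp_123 : ∃ t, chk3 f_pp_123 t 74 5 1 = true := ex3_a k32_pp_123 k33_pp_123

theorem s94_pp_123 : ∃ t, chk3 f_pp_123 t 37 5 1 = true := ex3_a s93_pp_123 k34_pp_123

theorem s95_pp_123 : ∃ t, chk3 f_pp_123 t 73 43 1 = true := ex3_c k29_pp_123 k30_pp_123

theorem s96_pp_123 : ∃ t, chk3 f_pp_123 t 36 43 1 = true := ex3_a k28_pp_123 s95_pp_123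

theorem s97_pp_123 : ∃ t, chk3 f_pp_123 t 36 42 1 = true := ex3_a k26_pp_123 k27_pp_123

theorem s98_pp_123 : ∃ t, chk3 f_pp_123 t 36 21 1 = true := ex3_b s97_pp_123 s96_pp_123

theorem s99_pp_123 : ∃ t, chk3 f_pp_123 t 36 10 1 = true := ex3_b k25_pp_123 s98_pp_123

theorem s100_pp_123 : ∃ t, chk3 f_pp_123 t 36 5 1 = true := ex3_b s99_pp_123 k31_pp_123

theorem s101_pp_123 : ∃ t, chk3 f_pp_123 t 18 5 1 = true := ex3_a s100_pp_123 s94_pp_123

theorem s102_pp_123 : ∃ t, chk3 f_pp_123 t 9 5 1 = true := ex3_a s101_pp_123 s92_pp_123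

theorem s103_pp_123 : ∃ t, chk3 f_pp_123 t 19 9 1 = true := ex3_a k23_pp_123 k24_pp_123

theorem s104_pp_123 : ∃ t, chk3 f_pp_123 t 19 4 1 = true := ex3_b k22_pp_123 s103_pp_123

theorem s105_pp_123 : ∃ t, chk3 f_pp_123 t 36 4 1 = true := ex3_b k19_pp_123 k20_pp_123

theorem s106_pp_123 : ∃ t, chk3 f_pp_123 t 18 4 1 = true := ex3_a s105_pp_123 k21_pp_123

theorem s107_pp_123 : ∃ t, chk3 f_pp_123 t 9 4 1 = true := ex3_a s106_pp_123 s104_pp_123

theorem s108_pp_123 : ∃ t, chk3 f_pp_123 t 9 2 1 = true := ex3_b s107_pp_123 s102_pp_123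

theorem s109_pp_123 : ∃ t, chk3 f_pp_123 t 71 20 1 = true := ex3_b k15_pp_123 k16_pp_123

theorem s110_pp_123 : ∃ t, chk3 f_pp_123 t 71 10 1 = true := ex3_b s109_pp_123 k17_pp_123

theorem s111_pp_123 : ∃ t, chk3 f_pp_123 t 71 5 1 = true := ex3_b s110_pp_123 k18_pp_123

theorem s112_pp_123 : ∃ t, chk3 f_pp_123 t 35 5 1 = true := ex3_a k14_pp_123 s111_pp_123

theorem s113_pp_123 : ∃ t, chk3 f_pp_123 t 17 5 1 = true := ex3_a k13_pp_123 s112_pp_123

theorem s114_pp_123 : ∃ t, chk3 f_pp_123 t 8 5 1 = true := ex3_a k12_pp_123 s113_pp_123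

theorem s115_pp_123 : ∃ t, chk3 f_pp_123 t 70 39 1 = true := ex3_b k9_pp_123 k10_pp_123

theorem s116_pp_123 : ∃ t, chk3 f_pp_123 t 35 39 1 = true := ex3_a s115_pp_123 k11_pp_123

theorem s117_pp_123 : ∃ t, chk3 f_pp_123 t 35 19 1 = true := ex3_b k8_pp_123 s116_pp_123

theorem s118_pp_123 : ∃ t, chk3 f_pp_123 t 35 9 1 = true := ex3_b k7_pp_123 s117_pp_123

theorem s119_pp_123 : ∃ t, chk3 f_pp_123 t 35 4 1 = true := ex3_b k6_pp_123 s118_pp_123

theorem s120_pp_123 : ∃ t, chk3 f_pp_123 t 34 38 1 = true := ex3_b k3_pp_123 k4_pp_123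

theorem s121_pp_123 : ∃ t, chk3 f_pp_123 t 34 19 1 = true := ex3_b s120_pp_123 k5_pp_123

theorem s122_pp_123 : ∃ t, chk3 f_pp_123 t 34 9 1 = true := ex3_b k2_pp_123 s121_pp_123

theorem s123_pp_123 : ∃ t, chk3 f_pp_123 t 34 4 1 = true := ex3_b k1_pp_123 s122_pp_123

theorem s124_pp_123 : ∃ t, chk3 f_pp_123 t 17 4 1 = true := ex3_a s123_pp_123 s119_pp_123

theorem s125_pp_123 : ∃ t, chk3 f_pp_123 t 8 4 1 = true := ex3_a k0_pp_123 s124_pp_123

theorem s126_pp_123 : ∃ t, chk3 f_pp_123 t 8 2 1 = true := ex3_b s125_pp_123 s114_pp_123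

theorem s127_pp_123 : ∃ t, chk3 f_pp_123 t 4 2 1 = true := ex3_a s126_pp_123 s108_pp_123

theorem s128_pp_123 : ∃ t, chk3 f_pp_123 t 2 2 1 = true := ex3_a s127_pp_123 s91_pp_123

theorem s129_pp_123 : ∃ t, chk3 f_pp_123 t 1 2 1 = true := ex3_a s128_pp_123 k44_pp_123

theorem s130_pp_123 : ∃ t, chk3 f_pp_123 t 1 1 1 = true := ex3_b s129_pp_123 s85_pp_123

theorem c_pp_123 : CertFX 536870912 536870912 0 1230186008 1046898278 26843546 false true true .npn 1 2 3
    ndF0q1 ndF6q3 pcF2 cut_pp_123 Ext.none :=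
  certFX2 (fam := false) (s1 := true) (s2 := true) (a := 1) (b := 2) (c := 3) (cn := .npn) (n1 := ndF0q1) (n2 := ndF6q3) (pc := pcF2) (cut := cut_pp_123) (xt := Ext.none) (P1 := 536870912) (W1 := 536870912) (P2 := 0) (W2 := 1230186008) (P3 := 1046898278) (W3 := 26843546)
    rfl (fun _ => rfl) s130_pp_123

noncomputable def f_pp_133 : ℕ → ℕ → ℕ → ℕ → Bool := onCell 536870912 536870912 0 1230186008 1046898278 26843546
    (rowFX 0 false true true .dn 1 3 3 (qsf 536870912 536870912 0 1230186008 3) ndF0q1 ndF6q3 pcF3 Cut.none Ext.none)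

def k0_pp_133 : ∃ t, chk3 f_pp_133 t 1 1 1 = true :=
  ⟨(b (a (b (a (b (a (l 16739704) (l 1)) (l 1)) (l 1)) (l 1)) (l 1)) (l 1)), by decide +kernel⟩

theorem c_pp_133 : CertFX 536870912 536870912 0 1230186008 1046898278 26843546 false true true .dn 1 3 3
    ndF0q1 ndF6q3 pcF3 Cut.none Ext.none :=
  certFX0 (fam := false) (s1 := true) (s2 := true) (a := 1) (b := 3) (c := 3) (cn := .dn) (n1 := ndF0q1) (n2 := ndF6q3) (pc := pcF3) (cut := Cut.none) (xt := Ext.none) (P1 := 536870912) (W1 := 536870912) (P2 := 0) (W2 := 1230186008) (P3 := 1046898278) (W3 := 26843546)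
    rfl k0_pp_133

noncomputable def f_pp_202 : ℕ → ℕ → ℕ → ℕ → Bool := onCell 0 536870912 1073741824 536870912 1046898278 26843546
    (rowFX 0 false true true .pp 2 0 2 (qsf 0 536870912 1073741824 536870912 0) ndF0q2 ndF6q2 pcF0 Cut.none Ext.none)

def k0_pp_202 : ∃ t, chk3 f_pp_202 t 1 1 1 = true :=
  ⟨(l 5), by decide +kernel⟩

theorem c_pp_202 : CertFX 0 536870912 1073741824 536870912 1046898278 26843546 false true true .pp 2 0 2
    ndF0q2 ndF6q2 pcF0 Cut.none Ext.none :=
  certFX0 (fam := false) (s1 := true) (s2 := true) (a := 2) (b := 0) (c := 2) (cn := .pp) (n1 := ndF0q2) (n2 := ndF6q2) (pc := pcF0) (cut := Cut.none) (xt := Ext.none) (P1 := 0) (W1 := 536870912) (P2 := 1073741824) (W2 := 536870912) (P3 := 1046898278) (W3 := 26843546)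
    rfl k0_pp_202

noncomputable def f_pp_203 : ℕ → ℕ → ℕ → ℕ → Bool := onCell 0 536870912 0 1230186008 1046898278 26843546
    (rowFX 0 false true true .up 2 0 3 (qsf 0 536870912 0 1230186008 0) ndF0q2 ndF6q3 pcF0 Cut.none Ext.none)

def k0_pp_203 : ∃ t, chk3 f_pp_203 t 1 1 1 = true :=
  ⟨(b (l 2) (a (l 3) (l 3))), by decide +kernel⟩

theorem c_pp_203 : CertFX 0 536870912 0 1230186008 1046898278 26843546 false true true .up 2 0 3
    ndF0q2 ndF6q3 pcF0 Cut.none Ext.none :=
  certFX0 (fam := false) (s1 := true) (s2 := true) (a := 2) (b := 0) (c := 3) (cn := .up) (n1 := ndF0q2) (n2 := ndF6q3) (pc := pcF0) (cut := Cut.none) (xt := Ext.none) (P1 := 0) (W1 := 536870912) (P2 := 0) (W2 := 1230186008) (P3 := 1046898278) (W3 := 26843546)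
    rfl k0_pp_203

noncomputable def cut_pp_213 : Cut := Cut.of [[⟨0, 1, 0, 67108864⟩, ⟨1, 1, 0, 67108864⟩, ⟨2, 2, 0, 67108864⟩, ⟨3, 0, 0, 1233125376⟩]]

noncomputable def f_pp_213 : ℕ → ℕ → ℕ → ℕ → Bool := onCell 0 536870912 0 1230186008 1046898278 26843546
    (rowFX 0 false true true .pnn 2 1 3 (qsf 0 536870912 0 1230186008 1) ndF0q2 ndF6q3 pcF1 cut_pp_213 Ext.none)

def k0_pp_213 : ∃ t, chk3 f_pp_213 t 1 1 1 = true :=
  ⟨(b (a (l 3) (b (a (l 3) (a (l 3) (b (l 6) (l 3)))) (l 3))) (b (l 3) (l 3))), by decide +kernel⟩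

theorem c_pp_213 : CertFX 0 536870912 0 1230186008 1046898278 26843546 false true true .pnn 2 1 3
    ndF0q2 ndF6q3 pcF1 cut_pp_213 Ext.none :=
  certFX0 (fam := false) (s1 := true) (s2 := true) (a := 2) (b := 1) (c := 3) (cn := .pnn) (n1 := ndF0q2) (n2 := ndF6q3) (pc := pcF1) (cut := cut_pp_213) (xt := Ext.none) (P1 := 0) (W1 := 536870912) (P2 := 0) (W2 := 1230186008) (P3 := 1046898278) (W3 := 26843546)
    rfl k0_pp_213

noncomputable def f_pm_001 : ℕ → ℕ → ℕ → ℕ → Bool := onCell 0 536870912 536870912 469762048 1046898278 26843546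
    (rowFX 0 false true false .up 0 0 1 (qsf 0 536870912 536870912 469762048 0) ndF0q0 ndF6q1 pcF0 Cut.none Ext.none)

def k0_pm_001 : ∃ t, chk3 f_pm_001 t 1 1 1 = true :=
  ⟨(l 4), by decide +kernel⟩

theorem c_pm_001 : CertFX 0 536870912 536870912 469762048 1046898278 26843546 false true false .up 0 0 1
    ndF0q0 ndF6q1 pcF0 Cut.none Ext.none :=
  certFX0 (fam := false) (s1 := true) (s2 := false) (a := 0) (b := 0) (c := 1) (cn := .up) (n1 := ndF0q0) (n2 := ndF6q1) (pc := pcF0) (cut := Cut.none) (xt := Ext.none) (P1 := 0) (W1 := 536870912) (P2 := 536870912) (W2 := 469762048) (P3 := 1046898278) (W3 := 26843546)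
    rfl k0_pm_001

noncomputable def f_pm_011 : ℕ → ℕ → ℕ → ℕ → Bool := onCell 0 536870912 536870912 469762048 1046898278 26843546
    (rowFX 0 false true false .pnn 0 1 1 (qsf 0 536870912 536870912 469762048 1) ndF0q0 ndF6q1 pcF1 Cut.none Ext.none)

def k0_pm_011 : ∃ t, chk3 f_pm_011 t 1 1 1 = true :=
  ⟨(l 4), by decide +kernel⟩

theorem c_pm_011 : CertFX 0 536870912 536870912 469762048 1046898278 26843546 false true false .pnn 0 1 1
    ndF0q0 ndF6q1 pcF1 Cut.none Ext.none :=
  certFX0 (fam := false) (s1 := true) (s2 := false) (a := 0) (b := 1) (c := 1) (cn := .pnn) (n1 := ndF0q0) (n2 := ndF6q1) (pc := pcF1) (cut := Cut.none) (xt := Ext.none) (P1 := 0) (W1 := 536870912) (P2 := 536870912) (W2 := 469762048) (P3 := 1046898278) (W3 := 26843546)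
    rfl k0_pm_011

noncomputable def f_pm_012 : ℕ → ℕ → ℕ → ℕ → Bool := onCell 0 536870912 1073741824 536870912 1046898278 26843546
    (rowFX 0 false true false .pnp 0 1 2 (qsf 0 536870912 1073741824 536870912 1) ndF0q0 ndF6q2 pcF1 Cut.none Ext.none)

def k0_pm_012 : ∃ t, chk3 f_pm_012 t 1 1 1 = true :=
  ⟨(l 4), by decide +kernel⟩

theorem c_pm_012 : CertFX 0 536870912 1073741824 536870912 1046898278 26843546 false true false .pnp 0 1 2
    ndF0q0 ndF6q2 pcF1 Cut.none Ext.none :=
  certFX0 (fam := false) (s1 := true) (s2 := false) (a := 0) (b := 1) (c := 2) (cn := .pnp) (n1 := ndF0q0) (n2 := ndF6q2) (pc := pcF1) (cut := Cut.none) (xt := Ext.none) (P1 := 0) (W1 := 536870912) (P2 := 1073741824) (W2 := 536870912) (P3 := 1046898278) (W3 := 26843546)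
    rfl k0_pm_012

noncomputable def f_pm_022 : ℕ → ℕ → ℕ → ℕ → Bool := onCell 0 536870912 1073741824 536870912 1046898278 26843546
    (rowFX 0 false true false .pp 0 2 2 (qsf 0 536870912 1073741824 536870912 2) ndF0q0 ndF6q2 pcF2 Cut.none Ext.none)

def k0_pm_022 : ∃ t, chk3 f_pm_022 t 1 1 1 = true :=
  ⟨(l 4), by decide +kernel⟩

theorem c_pm_022 : CertFX 0 536870912 1073741824 536870912 1046898278 26843546 false true false .pp 0 2 2
    ndF0q0 ndF6q2 pcF2 Cut.none Ext.none :=
  certFX0 (fam := false) (s1 := true) (s2 := false) (a := 0) (b := 2) (c := 2) (cn := .pp) (n1 := ndF0q0) (n2 := ndF6q2) (pc := pcF2) (cut := Cut.none) (xt := Ext.none) (P1 := 0) (W1 := 536870912) (P2 := 1073741824) (W2 := 536870912) (P3 := 1046898278) (W3 := 26843546)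
    rfl k0_pm_022

noncomputable def f_pm_023 : ℕ → ℕ → ℕ → ℕ → Bool := onCell 0 536870912 0 1230186008 1046898278 26843546
    (rowFX 0 false true false .up 0 2 3 (qsf 0 536870912 0 1230186008 2) ndF0q0 ndF6q3 pcF2 Cut.none Ext.none)

def k0_pm_023 : ∃ t, chk3 f_pm_023 t 1 1 1 = true :=
  ⟨(b (a (l 2) (a (l 2) (a (b (l 2) (b (b (l 2) (l 4)) (l 4))) (b (b (l 16739896) (c (l 16727960) (l 16720512))) (b (c (a (l 16750048) (l 16750048)) (a (l 16743248) (l 16743248))) (b (c (l 16757760) (l 16757240)) (l 4))))))) (b (l 4) (l 4))), by decide +kernel⟩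

theorem c_pm_023 : CertFX 0 536870912 0 1230186008 1046898278 26843546 false true false .up 0 2 3
    ndF0q0 ndF6q3 pcF2 Cut.none Ext.none :=
  certFX0 (fam := false) (s1 := true) (s2 := false) (a := 0) (b := 2) (c := 3) (cn := .up) (n1 := ndF0q0) (n2 := ndF6q3) (pc := pcF2) (cut := Cut.none) (xt := Ext.none) (P1 := 0) (W1 := 536870912) (P2 := 0) (W2 := 1230186008) (P3 := 1046898278) (W3 := 26843546)
    rfl k0_pm_023

noncomputable def f_pm_033 : ℕ → ℕ → ℕ → ℕ → Bool := onCell 1610612736 536870912 0 1230186008 1046898278 26843546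
    (rowFX 2 false true false .pnn 0 3 3 (qsf 0 536870912 0 1230186008 3) ndF0q0 ndF6q3 pcF3 Cut.none Ext.none)

def k0_pm_033 : ∃ t, chk3 f_pm_033 t 1 1 1 = true :=
  ⟨(b (a (a (a (b (a (l 16723688) (l 16723688)) (b (c (l 16750048) (l 16743248)) (l 4))) (b (c (l 16725328) (l 16722792)) (l 4))) (b (a (c (l 16725328) (l 184918293159)) (l 4)) (l 4))) (l 4)) (l 4)), by decide +kernel⟩

theorem c_pm_033 : CertFX 0 536870912 0 1230186008 1046898278 26843546 false true false .pnn 0 3 3
    ndF0q0 ndF6q3 pcF3 Cut.none Ext.none :=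
  certFX2 (fam := false) (s1 := true) (s2 := false) (a := 0) (b := 3) (c := 3) (cn := .pnn) (n1 := ndF0q0) (n2 := ndF6q3) (pc := pcF3) (cut := Cut.none) (xt := Ext.none) (P1 := 0) (W1 := 536870912) (P2 := 0) (W2 := 1230186008) (P3 := 1046898278) (W3 := 26843546)
    rfl (fun _ => rfl) k0_pm_033

noncomputable def f_pm_101 : ℕ → ℕ → ℕ → ℕ → Bool := onCell 536870912 536870912 536870912 469762048 1046898278 26843546
    (rowFX 0 false true false .npn 1 0 1 (qsf 536870912 536870912 536870912 469762048 0) ndF0q1 ndF6q1 pcF0 Cut.none Ext.none)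

def k0_pm_101 : ∃ t, chk3 f_pm_101 t 1 1 1 = true :=
  ⟨(l 4), by decide +kernel⟩

theorem c_pm_101 : CertFX 536870912 536870912 536870912 469762048 1046898278 26843546 false true false .npn 1 0 1
    ndF0q1 ndF6q1 pcF0 Cut.none Ext.none :=
  certFX0 (fam := false) (s1 := true) (s2 := false) (a := 1) (b := 0) (c := 1) (cn := .npn) (n1 := ndF0q1) (n2 := ndF6q1) (pc := pcF0) (cut := Cut.none) (xt := Ext.none) (P1 := 536870912) (W1 := 536870912) (P2 := 536870912) (W2 := 469762048) (P3 := 1046898278) (W3 := 26843546)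
    rfl k0_pm_101

noncomputable def f_pm_102 : ℕ → ℕ → ℕ → ℕ → Bool := onCell 536870912 536870912 0 536870912 1046898278 26843546
    (rowFX 1 false true false .npp 1 0 2 (qsf 536870912 536870912 1073741824 536870912 0) ndF0q1 ndF6q2 pcF0 Cut.none Ext.none)

def k0_pm_102 : ∃ t, chk3 f_pm_102 t 2 1 1 = true :=
  ⟨(l 4), by decide +kernel⟩

def k1_pm_102 : ∃ t, chk3 f_pm_102 t 6 4 1 = true :=
  ⟨(l 4), by decide +kernel⟩

def k2_pm_102 : ∃ t, chk3 f_pm_102 t 7 8 1 = true :=
  ⟨(b (a (l 1) (a (b (l 1) (b (l 1) (c (c (l 15086064) (l 15050464)) (c (l 15025432) (l 15004288))))) (a (b (b (l 1) (b (l 1) (c (c (l 14932512) (l 14929600)) (c (l 14908936) (l 14879888))))) (c (c (b (l 14871120) (l 14972816)) (c (l 14954536) (l 14943376))) (c (l 14923520) (l 14897728)))) (b (b (a (b (l 1) (c (l 14853936) (c (c (l 14858824) (l 165385663095)) (c (l 14846072) (l 14831616))))) (c (l 14871088) (c (b (l 14832368) (c (l 14840816) (l 14834176))) (b (c (b (l 14816392) (c (l 14820304) (l 14817992))) (b (c (l 14810176)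 (b (l 14804032) (l 14806136))) (l 14812560))) (c (l 14827152) (l 14817120)))))) (c (c (b (l 14885512) (l 14896672)) (b (l 14872352) (l 14887776))) (c (c (b (l 14865568) (l 14874792)) (l 14860048)) (c (l 14848944) (l 14837952))))) (c (b (c (l 14920752) (l 14900592)) (l 14925496)) (c (a (l 14889216) (l 14868040)) (a (l 14867992) (l 14848960)))))))) (b (a (l 1) (c (a (c (l 15105592) (l 15071168)) (c (l 14967456) (a (l 14966832) (l 14915952)))) (a (c (l 15048800) (l 15028392)) (a (l 14936736) (c (l 14897728) (l 14883688)))))) (a (a (l 1) (a (l 1) (c (l 15244720) (l 15212072)))) (c (a (c (l 15128088) (l 15097600)) (c (a (l 14997728) (l 14949176)) (l 14897664))) (a (l 15067288) (a (l 14958400) (c (l 14913560) (l 14899296)))))))), by decide +kernel⟩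

def k3_pm_102 : ∃ t, chk3 f_pm_102 t 7 9 1 = true :=
  ⟨(a (a (a (l 4) (b (c (l 15458136) (l 15442128)) (c (l 15527776) (l 15511968)))) (b (c (l 15271672) (b (l 15287296) (l 15320720))) (c (l 15397520) (l 15368384)))) (b (a (c (c (l 15163880) (l 15135184)) (b (l 15092912) (l 15115224))) (c (a (l 14952648) (b (l 14949936) (l 14923248))) (a (l 14982824) (b (c (l 14924576) (l 14910248)) (a (l 14927784) (l 14860200)))))) (a (b (c (l 15190808) (l 15135672)) (c (l 15193752) (l 15033328))) (a (c (l 14818656) (b (l 14966800) (l 14868632))) (c (l 14737104) (a (l 14755472) (l 14633912))))))), by decide +kernel⟩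

def k4_pm_102 : ∃ t, chk3 f_pm_102 t 3 5 1 = true :=
  ⟨(a (b (l 4) (a (l 4) (a (l 4) (a (l 4) (b (l 180620924935) (l 15491952)))))) (b (a (a (b (c (l 15640872) (l 15633016)) (c (l 15690008) (l 15577024))) (b (c (l 15442464) (a (l 15479872) (l 15356416))) (c (l 15356664) (l 15157608)))) (a (b (c (a (l 15203512) (l 14950232)) (a (l 15163528) (l 14905080))) (a (l 14958608) (b (l 14730384) (c (l 14745336) (l 14693488))))) (b (a (c (l 14696584) (l 14653088)) (b (c (l 14520440) (l 14475312)) (c (l 14505256) (a (l 14435624) (l 14434504))))) (a (b (c (l 14616528) (l 14569784)) (l 14793224)) (c (l 14858144) (l 14821520)))))) (a (b (a (c (l 15616136) (l 15610072)) (a (l 15262392) (b (l 15058424) (l 15054592)))) (a (b (l 15478648) (a (l 15383656) (l 15370536))) (b (a (l 15212552) (l 15250912)) (l 15471872)))) (a (b (a (b (l 14848256) (l 15083304)) (l 15059368)) (c (l 15585352) (l 15536776))) (b (a (l 15111888) (c (l 15404688) (l 15384504))) (a (b (l 15613112) (l 15825632)) (b (c (l 15725504) (l 15715688))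 (l 15801800)))))))), by decide +kernel⟩

def k5_pm_102 : ∃ t, chk3 f_pm_102 t 3 3 1 = true :=
  ⟨(a (b (a (l 4) (b (a (l 4) (b (a (l 4) (b (l 15296992) (l 15303624))) (a (l 310543050023) (l 15709760)))) (a (b (l 4) (l 16062976)) (b (l 16011504) (l 58753029495))))) (b (a (l 4) (a (b (l 102239550487) (l 16777008)) (l 16764440))) (a (l 4) (l 16770752)))) (b (a (b (a (b (a (b (l 15390768) (l 15629096)) (l 15699872)) (l 16121624)) (b (l 15868904) (a (l 16262088) (l 16257480)))) (a (b (l 16337488) (l 16591744)) (l 16359880))) (b (a (b (a (l 15990768) (l 15968600)) (l 16079576)) (c (l 15858416) (l 15854632))) (a (l 16079760) (l 15860320)))) (a (b (a (l 16591888) (l 16359984)) (l 16265064)) (a (b (l 16079760) (l 16079760)) (b (c (l 15858544) (l 15854768)) (b (l 15860320) (l 15860320))))))), by decide +kernel⟩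

theorem s6_pm_102 : ∃ t, chk3 f_pm_102 t 7 4 1 = true := ex3_b k2_pm_102 k3_pm_102

theorem s7_pm_102 : ∃ t, chk3 f_pm_102 t 3 4 1 = true := ex3_a k1_pm_102 s6_pm_102

theorem s8_pm_102 : ∃ t, chk3 f_pm_102 t 3 2 1 = true := ex3_b s7_pm_102 k4_pm_102

theorem s9_pm_102 : ∃ t, chk3 f_pm_102 t 3 1 1 = true := ex3_b s8_pm_102 k5_pm_102

theorem s10_pm_102 : ∃ t, chk3 f_pm_102 t 1 1 1 = true := ex3_a k0_pm_102 s9_pm_102

theorem c_pm_102 : CertFX 536870912 536870912 1073741824 536870912 1046898278 26843546 false true false .npp 1 0 2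
    ndF0q1 ndF6q2 pcF0 Cut.none Ext.none :=
  certFX1 (fam := false) (s1 := true) (s2 := false) (a := 1) (b := 0) (c := 2) (cn := .npp) (n1 := ndF0q1) (n2 := ndF6q2) (pc := pcF0) (cut := Cut.none) (xt := Ext.none) (P1 := 536870912) (W1 := 536870912) (P2 := 1073741824) (W2 := 536870912) (P3 := 1046898278) (W3 := 26843546)
    rfl (fun _ => rfl) s10_pm_102

noncomputable def f_pm_112 : ℕ → ℕ → ℕ → ℕ → Bool := onCell 536870912 536870912 1073741824 536870912 1046898278 26843546
    (rowFX 2 false true false .dn 1 1 2 (qsf 536870912 536870912 1073741824 536870912 1) ndF0q1 ndF6q2 pcF1 Cut.none Ext.none)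

def k0_pm_112 : ∃ t, chk3 f_pm_112 t 1 1 1 = true :=
  ⟨(b (l 4) (a (a (a (b (c (l 108146043639) (l 110830398087)) (b (a (l 16454504) (l 16708960)) (a (b (l 16198728) (c (l 15985048) (l 15988408))) (b (l 16474784) (l 16198728))))) (b (l 138747576279) (b (l 16773832) (b (l 16708960) (l 16538392))))) (b (l 4) (b (a (a (l 16754080) (l 16665784)) (l 4)) (a (a (l 16761352) (l 16931216)) (a (a (l 16684496) (l 16539776)) (c (l 16461912) (l 16453728))))))) (a (a (b (l 4) (b (l 4) (l 4))) (l 4)) (l 4)))), by decide +kernel⟩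

theorem c_pm_112 : CertFX 536870912 536870912 1073741824 536870912 1046898278 26843546 false true false .dn 1 1 2
    ndF0q1 ndF6q2 pcF1 Cut.none Ext.none :=
  certFX2 (fam := false) (s1 := true) (s2 := false) (a := 1) (b := 1) (c := 2) (cn := .dn) (n1 := ndF0q1) (n2 := ndF6q2) (pc := pcF1) (cut := Cut.none) (xt := Ext.none) (P1 := 536870912) (W1 := 536870912) (P2 := 1073741824) (W2 := 536870912) (P3 := 1046898278) (W3 := 26843546)
    rfl (fun _ => rfl) k0_pm_112

noncomputable def cut_pm_113 : Cut := Cut.of [[⟨0, 1, 0, 67108864⟩, ⟨1, 1, 0, 67108864⟩, ⟨2, 2, 0, 67108864⟩, ⟨3, 0, 0, 1233125376⟩]]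

noncomputable def f_pm_113 : ℕ → ℕ → ℕ → ℕ → Bool := onCell 536870912 536870912 0 1230186008 1046898278 26843546
    (rowFX 0 false true false .nn 1 1 3 (qsf 536870912 536870912 0 1230186008 1) ndF0q1 ndF6q3 pcF1 cut_pm_113 Ext.none)

def k0_pm_113 : ∃ t, chk3 f_pm_113 t 2 2 1 = true :=
  ⟨(l 2), by decide +kernel⟩

def k1_pm_113 : ∃ t, chk3 f_pm_113 t 6 2 1 = true :=
  ⟨(l 2), by decide +kernel⟩

def k2_pm_113 : ∃ t, chk3 f_pm_113 t 7 4 1 = true :=
  ⟨(a (l 2) (a (l 2) (b (a (l 2) (l 6)) (a (b (l 2) (c (a (l 16644032) (b (l 16696536) (l 16443712))) (a (b (l 2) (b (l 15500280) (l 15463288))) (b (c (l 15936656) (l 15254472)) (c (a (l 15716656) (l 15708464)) (a (l 15225896) (l 15226056))))))) (a (b (c (l 16667664) (c (b (l 16700104) (l 16322392)) (b (l 15599160) (a (l 15341200) (l 15334704))))) (c (b (l 16627624) (c (l 16592808) (l 16129368))) (b (c (a (l 15913672) (l 15882448)) (l 15249528)) (c (l 15675936) (l 15221464))))) (b (a (b (l 6) (c (l 16616952) (c (l 16226512) (l 15328888)))) (l 6)) (c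 (b (c (l 16582320) (l 16408000)) (c (l 16451784) (l 16025168))) (c (b (l 15817056) (l 15612680)) (l 15217432))))))))), by decide +kernel⟩

def k3_pm_113 : ∃ t, chk3 f_pm_113 t 7 5 1 = true :=
  ⟨(a (b (a (l 2) (b (l 2) (a (l 2) (b (l 2) (l 403288570375))))) (a (b (l 2) (b (a (l 2) (l 645954888823)) (c (a (l 447849846535) (l 16126472)) (l 638438507927)))) (b (a (b (l 2) (l 539117665847)) (b (l 398994315607) (l 391478182999))) (a (b (c (l 16026464) (l 15910336)) (c (l 16083952) (l 15984304))) (b (c (l 15986488) (l 15842688)) (c (l 16029376) (l 15911776))))))) (b (a (b (a (l 2) (c (l 16061952) (l 15476952))) (a (b (l 15724776) (l 15734584)) (c (l 15860424) (l 15489128)))) (b (a (a (l 15737696) (a (l 15712936) (b (c (l 16102360) (l 15410184)) (l 15646528)))) (c (a (b (c (l 16206800) (l 15875072)) (a (l 15863048) (l 15823320))) (b (l 15950528) (b (l 15811432) (l 15742920)))) (a (b (c (l 15552632) (l 15225104)) (l 15364888)) (b (l 15354424) (l 15334272))))) (a (c (b (l 15821824) (l 15747720)) (l 15435520))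 (b (a (l 15639648) (c (l 15669616) (l 15344880))) (c (l 15640992) (l 15398256)))))) (a (b (a (b (l 15758304) (l 15793704)) (c (a (l 15822096) (l 15775200)) (l 15573872))) (a (b (l 15835744) (l 15882736)) (c (b (l 15805992) (l 15830400)) (l 15689320)))) (b (a (c (b (l 15712552) (l 15705104)) (l 15517568)) (c (l 15617440) (a (l 15476104) (l 15454784)))) (a (c (b (l 15717616) (l 15745928)) (l 15632584)) (c (l 15658616) (l 15567040))))))), by decide +kernel⟩

def k4_pm_113 : ∃ t, chk3 f_pm_113 t 2 6 1 = true :=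
  ⟨(a (l 2) (b (l 2) (a (l 2) (b (l 2) (a (l 2) (b (l 2) (a (l 2) (c (l 14518424) (l 14486032))))))))), by decide +kernel⟩

def k5_pm_113 : ∃ t, chk3 f_pm_113 t 6 6 1 = true :=
  ⟨(b (a (l 2) (a (b (l 2) (b (a (l 2) (l 15732464)) (a (l 15598632) (c (l 15847464) (l 15771168))))) (b (b (a (l 2) (a (l 2) (l 579920116487))) (a (l 853723858647) (a (b (a (l 2) (l 908485276871)) (l 16255720)) (b (l 16317968) (c (l 16348848) (l 16329920)))))) (b (a (c (l 16104184) (l 15986864)) (a (l 16151720) (b (l 16317632) (l 16312888)))) (a (c (l 16070464) (l 16066352)) (c (l 16265784) (l 16258584))))))) (a (b (a (b (l 2) (l 14812344)) (b (a (l 2) (l 612130193511)) (a (c (l 15152680) (l 15107664)) (c (l 15387400) (l 15315720))))) (a (b (a (l 14704832) (c (l 14943696) (l 103175663959))) (a (b (l 14720856) (l 14746952)) (c (l 15040680) (l 15053504)))) (b (a (c (l 15194400) (l 15194296)) (c (l 15471440) (l 15485024))) (c (a (l 15341872) (l 15650648)) (l 15477280))))) (b (a (b (a (c (l 15607016) (l 15531696)) (c (l 15843968)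 (l 15844024))) (a (c (l 15644984) (l 15647840)) (l 15897008))) (b (a (c (l 16077008) (l 16079256)) (l 16265640)) (a (l 16127024) (l 16301712)))) (a (b (a (l 15750968) (l 15995984)) (l 16018640)) (b (l 16302064) (l 16434224)))))), by decide +kernel⟩

def k6_pm_113 : ∃ t, chk3 f_pm_113 t 7 6 1 = true :=
  ⟨(a (b (b (a (a (b (c (l 16237752) (l 16198232)) (c (l 16308680) (l 16273080))) (b (c (l 16191472) (l 16127216)) (c (l 16256704) (l 16201032)))) (a (b (l 16097344) (l 16161208)) (b (l 16026992) (l 16085752)))) (a (b (a (a (b (l 16352248) (l 16362720)) (l 16342544)) (l 16297672)) (a (a (l 16341528) (l 16376792)) (l 16353184))) (b (l 16185296) (l 16246360)))) (b (a (b (a (l 16352672) (l 16386184)) (l 16399368)) (b (l 16302480) (a (l 16386704) (l 16311008)))) (a (b (l 16465504) (l 16550112)) (a (l 16423392) (l 16318200))))) (b (a (b (a (l 15963200) (c (l 15889296) (l 15824672))) (a (l 16082864) (b (l 15949496) (l 16010408)))) (b (a (c (l 15813448) (l 15773248)) (c (l 15755768) (l 15734688))) (a (b (l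 15886968) (l 15923096)) (c (l 15821352) (l 15818064))))) (b (a (a (b (l 16167752) (l 16186912)) (l 16036048)) (l 15811824)) (a (l 16088816) (l 15862912))))), by decide +kernel⟩

def k7_pm_113 : ∃ t, chk3 f_pm_113 t 4 14 1 = true :=
  ⟨(l 2), by decide +kernel⟩

def k8_pm_113 : ∃ t, chk3 f_pm_113 t 10 14 1 = true :=
  ⟨(b (a (l 2) (a (l 2) (l 13701896))) (a (l 4) (b (a (l 4) (c (b (l 13785056) (a (l 13817848) (b (c (l 13890136) (l 13881896)) (l 13956984)))) (a (b (a (l 13640672) (b (l 2) (b (l 13686288) (c (l 13714552) (l 13693680))))) (c (l 13776456) (c (l 13618008) (b (l 13715768) (l 4))))) (b (b (l 13762912) (b (l 13788912) (c (l 13822648) (a (l 13579176) (l 13883008))))) (c (b (b (l 13887960) (l 13936880)) (l 13886712)) (b (c (a (l 13828952) (l 13970056)) (l 13913888)) (l 13961200))))))) (b (a (l 4) (a (l 4) (c (l 13989264) (c (l 14038312) (l 14019584))))) (l 4))))), by decide +kernel⟩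

def k9_pm_113 : ∃ t, chk3 f_pm_113 t 11 28 1 = true :=
  ⟨(a (b (l 308258519735) (c (l 13886112) (a (l 207326624631) (b (l 14133776) (l 14262536))))) (b (a (b (l 14305776) (l 14161728)) (c (l 14617248) (l 14365616))) (c (a (l 14533792) (l 14892432)) (a (l 14551448) (l 14901656))))), by decide +kernel⟩

def k10_pm_113 : ∃ t, chk3 f_pm_113 t 11 29 1 = true :=
  ⟨(a (b (b (a (c (l 14054776) (l 14061976)) (l 14207264)) (a (c (b (a (l 13790424) (l 14247936)) (a (c (l 14102456) (b (l 14057456) (l 14097256))) (c (l 14347464) (b (l 14386880) (l 14447584))))) (b (c (a (b (l 14080536) (l 14152208)) (l 14331640)) (l 13958544)) (a (c (b (a (l 14025800) (l 14260480)) (l 14111640)) (c (l 14167928) (l 14003800))) (c (l 14173632) (l 14397424))))) (c (a (l 14361424) (l 14753096)) (l 14638888)))) (b (a (a (c (c (l 14171616) (b (l 14187440) (l 14175992))) (c (b (l 14191968) (l 14180968)) (l 14190944))) (c (b (b (l 14309792) (l 14070840)) (c (l 14394640) (l 14286096))) (a (c (l 14265880) (l 14280528)) (b (l 14489768)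 (l 14422672))))) (a (c (b (b (l 14698392) (l 14716752)) (a (l 14589512) (l 14731040))) (b (b (l 14679880) (l 14660880)) (l 14627448))) (c (b (a (l 14865640) (l 14769984)) (a (l 14886528) (l 15061168))) (b (a (l 14831800) (l 14921760)) (l 14962760))))) (b (a (c (a (l 14238296) (a (l 14291048) (b (l 14442864) (l 14429840)))) (a (l 14254704) (a (l 14278064) (l 14416528)))) (a (a (c (l 14576832) (l 14547616)) (a (l 14659608) (l 14740736))) (l 14911824))) (c (a (c (l 14396928) (l 14409024)) (a (l 14663640) (l 14915608))) (a (l 14382416) (a (l 14632160) (l 14880224))))))) (b (c (a (l 14919496) (l 15271848)) (l 15081416)) (b (a (b (l 15173408) (a (c (l 15191624) (l 15155376)) (l 15341240))) (l 15553968)) (b (a (a (c (l 15240560) (l 15171232)) (c (l 15463832) (l 15433928))) (a (l 15402512) (l 15809176))) (a (a (l 15176952) (l 15405776)) (a (c (l 15673880) (l 15566112)) (l 15903872))))))), by decide +kernel⟩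

def k11_pm_113 : ∃ t, chk3 f_pm_113 t 3 14 1 = true :=
  ⟨(a (b (a (a (b (c (a (l 14930872) (l 15276072)) (l 14874840)) (a (l 14985472) (l 15547360))) (b (a (l 15571512) (l 15842632)) (l 15980664))) (a (b (l 16220120) (l 16351456)) (b (l 16451904) (l 16748832)))) (a (a (b (l 15573432) (b (l 16064088) (a (a (b (l 15994504) (l 16100280)) (l 16245056)) (l 16498824)))) (b (a (l 16197624) (l 16490728)) (a (l 16623240) (l 16758344)))) (a (b (l 16614536) (l 16768736)) (l 16764616)))) (a (b (a (l 16597200) (l 16364616)) (l 16475864)) (a (b (l 16080576) (l 16079760)) (b (l 15860320) (l 15860320))))), by decide +kernel⟩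

def k12_pm_113 : ∃ t, chk3 f_pm_113 t 1 15 1 = true :=
  ⟨(a (a (l 4) (a (l 4) (b (a (a (b (a (l 4) (b (c (c (l 14600216) (l 14604528)) (l 14566200)) (l 4))) (l 4)) (b (b (a (c (b (l 14632808) (l 14620184)) (l 14663920)) (b (c (l 14946240) (l 14908600)) (l 14900920))) (c (c (l 14683896) (l 14746976)) (a (l 14611248) (l 14820112)))) (c (l 15151152) (l 14941144)))) (b (a (b (a (b (l 15176272) (l 15135648)) (l 15334776)) (a (l 15131832) (l 15341064))) (b (b (c (l 15908968) (l 15772560)) (l 15770368)) (a (l 15540080) (l 15824768)))) (a (b (l 15013544) (a (l 15136320) (l 15319344))) (b (a (l 15358952) (l 15566208)) (a (l 15542104) (l 15789936)))))) (a (l 4) (b (b (a (l 15226496) (l 15732552)) (a (l 15483656) (l 15774440))) (a (l 4) (b (l 5064185655) (l 15908232)))))))) (a (b (a (a (b (b (a (b (a (b (l 16220312) (l 16235896)) (l 16418168)) (a (l 16197800) (a (l 16443048) (l 16608008)))) (b (l 16687704) (a (c (a (l 16676560) (l 16721120)) (a (l 16666632) (l 16733048))) (l 16748280)))) (b (a (a (l 16124256)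 (c (l 16436552) (a (l 16394320) (l 16498960)))) (b (l 16734128) (l 16650192))) (a (l 16175848) (l 16551848)))) (b (a (l 16103656) (l 16546984)) (a (l 16127792) (l 16504136)))) (b (b (l 16767744) (l 16743528)) (b (a (l 16741656) (l 16774312)) (l 16723728)))) (b (l 16772288) (b (l 16767648) (l 16770752)))) (a (b (a (a (b (l 16259456) (l 16254176)) (b (l 16612568) (l 16654464))) (a (l 16746768) (l 16777216))) (a (b (l 16377296) (l 16319560)) (a (l 16695480) (l 16752952)))) (a (l 16777216) (l 16764520)))) (a (b (l 16474784) (l 16411872)) (a (b (l 16079760) (l 16079760)) (b (l 15860320) (l 15860320)))))), by decide +kernel⟩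

theorem s13_pm_113 : ∃ t, chk3 f_pm_113 t 11 14 1 = true := ex3_b k9_pm_113 k10_pm_113

theorem s14_pm_113 : ∃ t, chk3 f_pm_113 t 5 14 1 = true := ex3_a k8_pm_113 s13_pm_113

theorem s15_pm_113 : ∃ t, chk3 f_pm_113 t 2 14 1 = true := ex3_a k7_pm_113 s14_pm_113

theorem s16_pm_113 : ∃ t, chk3 f_pm_113 t 1 14 1 = true := ex3_a s15_pm_113 k11_pm_113

theorem s17_pm_113 : ∃ t, chk3 f_pm_113 t 1 7 1 = true := ex3_b s16_pm_113 k12_pm_113

theorem s18_pm_113 : ∃ t, chk3 f_pm_113 t 3 6 1 = true := ex3_a k5_pm_113 k6_pm_113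

theorem s19_pm_113 : ∃ t, chk3 f_pm_113 t 1 6 1 = true := ex3_a k4_pm_113 s18_pm_113

theorem s20_pm_113 : ∃ t, chk3 f_pm_113 t 1 3 1 = true := ex3_b s19_pm_113 s17_pm_113

theorem s21_pm_113 : ∃ t, chk3 f_pm_113 t 7 2 1 = true := ex3_b k2_pm_113 k3_pm_113

theorem s22_pm_113 : ∃ t, chk3 f_pm_113 t 3 2 1 = true := ex3_a k1_pm_113 s21_pm_113

theorem s23_pm_113 : ∃ t, chk3 f_pm_113 t 1 2 1 = true := ex3_a k0_pm_113 s22_pm_113

theorem s24_pm_113 : ∃ t, chk3 f_pm_113 t 1 1 1 = true := ex3_b s23_pm_113 s20_pm_113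

theorem c_pm_113 : CertFX 536870912 536870912 0 1230186008 1046898278 26843546 false true false .nn 1 1 3
    ndF0q1 ndF6q3 pcF1 cut_pm_113 Ext.none :=
  certFX0 (fam := false) (s1 := true) (s2 := false) (a := 1) (b := 1) (c := 3) (cn := .nn) (n1 := ndF0q1) (n2 := ndF6q3) (pc := pcF1) (cut := cut_pm_113) (xt := Ext.none) (P1 := 536870912) (W1 := 536870912) (P2 := 0) (W2 := 1230186008) (P3 := 1046898278) (W3 := 26843546)
    rfl s24_pm_113

noncomputable def cut_pm_123 : Cut := Cut.of [[⟨0, 1, 0, 67108864⟩, ⟨1, 1, 0, 67108864⟩, ⟨2, 2, 0, 67108864⟩, ⟨3, 0, 0, 1233125376⟩]]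

noncomputable def f_pm_123 : ℕ → ℕ → ℕ → ℕ → Bool := onCell 1073741824 536870912 0 1230186008 1046898278 26843546
    (rowFX 2 false true false .npn 1 2 3 (qsf 536870912 536870912 0 1230186008 2) ndF0q1 ndF6q3 pcF2 cut_pm_123 Ext.none)

def k0_pm_123 : ∃ t, chk3 f_pm_123 t 8 8 1 = true :=
  ⟨(b (a (l 6) (a (a (b (l 6) (c (a (l 16725600) (l 16725552)) (l 16689008))) (c (c (l 16674152) (l 16659672)) (c (l 16653168) (l 16610608)))) (c (c (a (l 16509424) (l 16332232)) (l 16216512)) (a (l 16432952) (l 16255008))))) (a (a (b (l 6) (a (l 6) (a (l 6) (b (l 6) (c (l 16324368) (a (l 16355416) (l 16444888))))))) (c (a (c (b (l 16440368) (l 16474680)) (b (l 16511320) (l 16513896))) (c (b (l 16612920) (l 16606528)) (l 16601824))) (a (c (b (l 16551896) (l 16524448)) (l 16445176)) (c (b (l 16634480) (l 16574176)) (l 16596088))))) (a (c (a (c (l 16642432) (l 16600336)) (c (l 16618168) (l 16531400))) (a (b (l 16609744) (l 16510504)) (b (l 16511736) (l 16401040)))) (a (c (c (b (l 16463384) (l 16419248)) (l 16331024))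 (b (l 16373240) (l 16263536))) (b (c (c (l 16259000) (l 16272880)) (l 16107544)) (l 16204176)))))), by decide +kernel⟩

def k1_pm_123 : ∃ t, chk3 f_pm_123 t 8 9 1 = true :=
  ⟨(b (a (b (a (c (a (c (l 16150944) (a (l 16221576) (l 16261312))) (c (a (l 16297728) (l 16364352)) (a (l 16314344) (l 16374264)))) (a (c (a (l 16229648) (l 16271816)) (a (c (l 16190864) (l 15815992)) (l 16129128))) (c (l 16219848) (a (l 16265856) (l 16362816))))) (c (a (c (l 16346864) (l 16431720)) (a (l 16542424) (l 16554544))) (a (c (l 16331096) (l 16432288)) (c (l 16482352) (l 16429912))))) (a (b (c (a (a (l 16144832) (a (l 16185936) (l 16222016))) (c (a (l 16276808) (l 16365808)) (l 16190504))) (a (c (a (l 16152056) (l 16215896)) (a (l 15945536) (l 16074128))) (c (l 16303496) (l 16239448)))) (a (a (c (l 15992320) (c (l 16141456) (l 15911232))) (l 16228360)) (l 16326696))) (a (l 16392712) (l 16395984)))) (a (a (b (c (l 16532280) (l 16393128)) (l 16339856)) (l 16302576)) (l 16130248))) (a (a (a (c (b (l 16263536) (l 16380304))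 (l 15996520)) (c (l 16294376) (l 16060624))) (b (c (l 16398400) (l 16182184)) (l 16166464))) (a (c (l 16204448) (l 16024912)) (l 15905224)))), by decide +kernel⟩

def k2_pm_123 : ∃ t, chk3 f_pm_123 t 8 5 1 = true :=
  ⟨(b (a (b (a (b (a (c (l 16313608) (l 15794192)) (l 16049160)) (a (l 15910472) (l 15931400))) (b (l 16040960) (c (l 16026672) (l 15832736)))) (a (b (a (l 15792288) (l 15823104)) (a (b (l 15720336) (l 15679176)) (b (l 15752040) (l 15709472)))) (b (c (l 15910400) (l 15745152)) (c (l 15809048) (l 15671032))))) (b (a (b (l 15955728) (l 15865576)) (b (l 15829520) (l 15765664))) (a (b (c (l 15839552) (l 15724144)) (c (l 15759688) (l 15663408))) (b (l 15707008) (c (l 15693376) (l 15624512)))))) (a (b (a (a (b (c (l 15723064) (l 15533000)) (c (l 15648888) (l 15506904))) (b (l 15699704) (l 15607960))) (b (c (l 15729272) (l 15618752)) (c (l 15671792) (l 15588008)))) (a (b (c (a (l 15596712) (l 15617040)) (l 15516224)) (c (a (l 15560008) (l 15583984)) (l 15509240))) (b (c (l 15633160) (l 15573776))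 (c (a (l 15601704) (l 15611560)) (a (l 15557528) (l 15576064)))))) (b (a (b (c (l 15699568) (l 15623328)) (c (l 15660088) (l 15604144))) (b (c (l 15655888) (l 15603264)) (a (b (l 15625560) (l 15621672)) (b (l 15615392) (l 15616096))))) (a (b (a (l 15596016) (b (l 15621768) (l 15617328))) (a (c (l 15615224) (l 15584104)) (l 15602056))) (b (c (l 15633344) (l 15601872)) (b (l 15616216) (c (a (b (l 15622064) (l 15610440)) (b (l 15627224) (l 15602168))) (a (l 15582776) (l 15585512))))))))), by decide +kernel⟩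

def k3_pm_123 : ∃ t, chk3 f_pm_123 t 9 4 1 = true :=
  ⟨(b (b (a (a (c (a (l 16055336) (b (l 16065512) (l 15979456))) (a (l 16144960) (b (l 16047048) (l 15958688)))) (c (b (a (l 15884776) (l 15692312)) (a (l 15807400) (l 15650440))) (b (a (l 15861616) (l 15664448)) (a (l 15781880) (l 15620448))))) (b (a (c (a (l 15471664) (l 15354616)) (a (l 15333632) (l 15317016))) (a (c (l 15211200) (l 15169216)) (l 15052584))) (l 15278088))) (a (a (b (c (a (l 16106144) (l 15948512)) (a (l 16053464) (l 15901912))) (l 16000224)) (l 15716664)) (l 15304640))) (a (b (a (l 15892840) (l 15651912)) (a (l 15767088) (l 15568464))) (b (a (l 15396744) (l 15153576)) (a (l 15336744) (c (l 15177944) (l 15093720)))))), by decide +kernel⟩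

def k4_pm_123 : ∃ t, chk3 f_pm_123 t 9 5 1 = true :=
  ⟨(b (a (b (a (b (l 15691912) (l 15655256)) (b (l 15525736) (l 15510008))) (a (b (l 15622656) (b (l 15603752) (c (l 15619136) (l 15573112)))) (b (a (l 15545096) (l 15459704)) (a (b (l 15543192) (l 15549976)) (l 15475696))))) (b (a (b (l 15319216) (l 15331048)) (l 15178320)) (a (c (l 15406208) (l 15339280)) (c (l 15280720) (l 15210800))))) (b (a (a (b (a (c (l 15623536) (l 15582880)) (l 15570832)) (c (l 15628392) (l 15594360))) (c (b (l 15553264) (a (l 15614024) (l 15549296))) (b (l 15514600) (l 15546184)))) (b (c (a (l 15422392) (l 15301856)) (a (l 15380584) (l 15257168))) (a (c (l 15454168) (l 15415936)) (b (c (l 15328000) (l 15285984)) (c (a (b (l 15369864) (l 15375008)) (b (l 15310912) (l 15309848))) (a (l 15331632) (l 15267392))))))) (a (b (a (c (l 15645736) (l 15614848)) (b (c (l 15604232) (l 15571696)) (a (c (b (l 15647880) (a (l 15667344) (l 15633736))) (b (l 15617392) (l 15619096))) (c (b (a (l 15599304) (l 15562320)) (l 15567352)) (l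 15540328))))) (a (b (c (a (b (l 15649304) (l 15643688)) (b (c (l 15666928) (l 15652592)) (l 15640504))) (a (l 15614224) (l 15620536))) (c (l 15599440) (l 15570384))) (c (a (b (a (l 15641024) (l 15598720)) (l 15562352)) (l 15508160)) (a (l 15561608) (l 15475264))))) (b (a (b (c (a (b (l 15505992) (l 15488368)) (b (l 15441120) (l 15434984))) (a (l 15470840) (l 15399560))) (c (a (l 15490368) (l 15410904)) (l 15414472))) (c (a (l 15353264) (l 15290312)) (l 15281480))) (a (c (l 15395896) (l 15360008)) (c (l 15281560) (l 15242696))))))), by decide +kernel⟩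

def k5_pm_123 : ∃ t, chk3 f_pm_123 t 5 2 1 = true :=
  ⟨(b (a (a (a (b (b (l 14889176) (l 14949560)) (b (l 14906584) (c (l 15037280) (l 14952648)))) (b (l 14993792) (b (l 15132592) (l 15162896)))) (b (c (l 15711576) (l 15456928)) (b (l 15505936) (a (l 15552792) (l 15917664))))) (c (a (b (l 16264088) (l 16233744)) (b (l 16740912) (l 16727552))) (a (b (l 16181464) (l 16156552)) (b (l 16740640) (l 16720056))))) (a (a (b (a (b (c (l 15086152) (l 14961592)) (a (b (l 15133976) (l 15162168)) (b (l 15079096) (c (a (l 15146432) (l 15121904)) (l 15083312))))) (b (l 15114208) (c (l 15238224) (l 15253808)))) (a (b (b (a (l 15195448) (c (a (l 15179576) (l 15134864)) (l 15098800))) (a (b (c (l 15244968) (l 15200928)) (l 15225480)) (b (a (c (l 15203552) (l 15158488)) (b (a (l 15159712) (l 15127760)) (l 15156176))) (l 15170088)))) (b (c (l 15214184) (l 15172304)) (c (l 15206776) (l 15165976)))) (b (b (b (c (l 15334136) (l 15290136)) (a (c (l 15261008) (l 15216320)) (l 15414008))) (c (l 15350136) (l 15309640)))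 (b (l 15330280) (l 15328640))))) (b (b (a (l 15597952) (l 15952816)) (a (b (l 15633536) (l 15652472)) (b (l 15978688) (b (l 15985640) (l 15983336))))) (b (a (b (b (a (l 15580128) (l 15744752)) (l 15658280)) (l 15645536)) (b (l 15961432) (l 15928072))) (a (b (l 15630128) (l 15612424)) (l 15878792))))) (a (b (b (a (l 16283824) (l 16590296)) (a (b (l 16298728) (l 16258952)) (b (l 16524000) (l 16531680)))) (b (a (l 16203232) (l 16431704)) (c (l 16215288) (l 16158248)))) (b (b (a (l 16684912) (l 16742800)) (a (b (l 16683672) (l 16651688)) (l 16669000))) (b (c (l 16553952) (l 16545192)) (c (l 16433344) (l 16423952))))))), by decide +kernel⟩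

def k6_pm_123 : ∃ t, chk3 f_pm_123 t 3 2 1 = true :=
  ⟨(a (b (b (a (l 16739896) (l 16739848)) (a (a (l 16724008) (l 16636576)) (a (l 16724288) (l 16725344)))) (a (b (a (b (a (l 16736528) (l 16729008)) (l 16661680)) (b (l 16724584) (l 16691240))) (a (b (l 16517912) (l 16509440)) (b (l 16654512) (c (l 16631488) (l 16627344))))) (b (c (a (l 16743704) (l 16750048)) (a (l 16736432) (l 16743248))) (a (c (l 16751552) (b (l 16744832) (l 16757176))) (c (l 16765184) (l 16764768)))))) (b (a (b (l 16739896) (a (l 16725344) (l 16725344))) (c (l 16725328) (l 16722792))) (c (a (b (l 16750048) (a (l 16765184) (l 16765184))) (b (l 16750048) (l 16765184))) (a (b (l 16743248) (a (l 16764768) (l 16764768))) (b (l 16743248) (a (l 16764768) (l 1))))))), by decide +kernel⟩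

def k7_pm_123 : ∃ t, chk3 f_pm_123 t 4 6 1 = true :=
  ⟨(b (a (b (a (b (a (a (c (l 15532800) (l 15485096)) (b (l 15544616) (c (b (l 15556184) (l 15542512)) (l 15511952)))) (b (a (l 15564304) (l 15568192)) (c (a (b (l 15561808) (l 15539888)) (b (l 15558096) (l 15519968))) (a (l 15473840) (l 15510352))))) (a (b (a (b (c (l 15494416) (l 15479272)) (c (a (l 15479568) (l 15497336)) (l 15464376))) (c (b (l 15500224) (l 15477104)) (l 15469496))) (c (l 15419712) (l 15385736))) (c (l 15422224) (l 15392408)))) (b (a (b (c (a (b (l 15592984) (l 15575912)) (b (l 15593344) (l 15561712))) (a (l 15550008) (l 15548832))) (c (l 15511896) (l 15482416))) (c (b (l 15556248) (l 15484032)) (l 15492192))) (c (a (l 15391384) (l 15374808)) (l 15354744)))) (a (c (b (l 15262352) (l 15078824)) (b (a (l 15243304) (l 15218160)) (a (l 15051648) (l 15042136)))) (c (a (l 15147088) (l 15027552)) (a (l 15123288) (l 15130264))))) (a (b (a (c (b (l 15502656) (l 15372704)) (l 15408696)) (c (b (a (l 15476128) (l 15409920)) (l 15331776))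 (l 15354120))) (a (c (l 15174832) (l 15145632)) (c (l 15166048) (l 15131824)))) (b (a (b (l 15300840) (l 15222544)) (c (l 15214736) (l 15174144))) (a (l 15103328) (l 15102136))))) (a (c (a (b (l 14801312) (l 14427056)) (b (a (l 14816168) (l 14853432)) (c (l 14511032) (l 14516024)))) (a (b (b (l 14819312) (l 14674840)) (c (l 14396560) (l 14385952))) (b (a (l 14797528) (l 14834608)) (l 14331352)))) (a (c (b (a (l 14906784) (l 14941560)) (a (l 14635432) (l 14714656))) (b (a (l 14877496) (l 14905256)) (a (l 14606056) (l 14676232)))) (b (c (l 14994976) (l 14948680)) (c (l 14752744) (b (l 14850712) (l 14801792))))))), by decide +kernel⟩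

def k8_pm_123 : ∃ t, chk3 f_pm_123 t 4 7 1 = true :=
  ⟨(b (a (a (c (b (l 14058304) (l 13874456)) (b (b (l 14111280) (c (l 13933664) (l 13925304))) (b (a (l 13759768) (l 4)) (l 4)))) (b (b (c (l 14280624) (l 14264304)) (c (l 14061080) (l 14171584))) (l 4))) (b (a (c (a (l 14442264) (l 14589840)) (a (l 14412816) (l 14550256))) (l 4)) (l 4))) (l 4)), by decide +kernel⟩

def k9_pm_123 : ∃ t, chk3 f_pm_123 t 5 3 1 = true :=
  ⟨(b (a (b (a (a (b (b (l 15173944) (l 15161272)) (c (l 15162968) (l 15121032))) (b (l 15317824) (l 15303016))) (b (c (l 15664208) (l 15657352)) (c (l 15640768) (l 15611240)))) (a (a (b (l 15115952) (c (l 15116616) (l 15073488))) (b (l 15287984) (c (l 15297440) (l 15259000)))) (b (c (l 15578032) (l 15462992)) (c (l 15551720) (a (l 15440040) (l 4)))))) (b (a (b (c (l 16088584) (l 16070696)) (c (l 15955872) (l 15934528))) (b (c (l 16298800) (l 16286368)) (c (l 16144152) (l 16023392)))) (b (a (c (l 15751640) (a (l 15761832) (l 15893072))) (c (l 16105352) (l 16024984))) (l 4)))) (l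 4)), by decide +kernel⟩

def k10_pm_123 : ∃ t, chk3 f_pm_123 t 3 3 1 = true :=
  ⟨(b (b (a (b (a (a (c (l 16428800) (l 16419744)) (c (l 16596440) (l 16591744))) (a (c (l 16758288) (l 16757792)) (c (l 16777176) (l 16777176)))) (a (a (c (l 16363360) (l 16331640)) (c (l 16579928) (l 16574800))) (l 4))) (l 4)) (l 4)) (l 1)), by decide +kernel⟩

theorem s11_pm_123 : ∃ t, chk3 f_pm_123 t 4 3 1 = true := ex3_b k7_pm_123 k8_pm_123

theorem s12_pm_123 : ∃ t, chk3 f_pm_123 t 2 3 1 = true := ex3_a s11_pm_123 k9_pm_123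

theorem s13_pm_123 : ∃ t, chk3 f_pm_123 t 1 3 1 = true := ex3_a s12_pm_123 k10_pm_123

theorem s14_pm_123 : ∃ t, chk3 f_pm_123 t 9 2 1 = true := ex3_b k3_pm_123 k4_pm_123

theorem s15_pm_123 : ∃ t, chk3 f_pm_123 t 8 4 1 = true := ex3_b k0_pm_123 k1_pm_123

theorem s16_pm_123 : ∃ t, chk3 f_pm_123 t 8 2 1 = true := ex3_b s15_pm_123 k2_pm_123

theorem s17_pm_123 : ∃ t, chk3 f_pm_123 t 4 2 1 = true := ex3_a s16_pm_123 s14_pm_123

theorem s18_pm_123 : ∃ t, chk3 f_pm_123 t 2 2 1 = true := ex3_a s17_pm_123 k5_pm_123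

theorem s19_pm_123 : ∃ t, chk3 f_pm_123 t 1 2 1 = true := ex3_a s18_pm_123 k6_pm_123

theorem s20_pm_123 : ∃ t, chk3 f_pm_123 t 1 1 1 = true := ex3_b s19_pm_123 s13_pm_123

theorem c_pm_123 : CertFX 536870912 536870912 0 1230186008 1046898278 26843546 false true false .npn 1 2 3
    ndF0q1 ndF6q3 pcF2 cut_pm_123 Ext.none :=
  certFX2 (fam := false) (s1 := true) (s2 := false) (a := 1) (b := 2) (c := 3) (cn := .npn) (n1 := ndF0q1) (n2 := ndF6q3) (pc := pcF2) (cut := cut_pm_123) (xt := Ext.none) (P1 := 536870912) (W1 := 536870912) (P2 := 0) (W2 := 1230186008) (P3 := 1046898278) (W3 := 26843546)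
    rfl (fun _ => rfl) s20_pm_123

noncomputable def f_pm_133 : ℕ → ℕ → ℕ → ℕ → Bool := onCell 536870912 536870912 0 1230186008 1046898278 26843546
    (rowFX 0 false true false .dn 1 3 3 (qsf 536870912 536870912 0 1230186008 3) ndF0q1 ndF6q3 pcF3 Cut.none Ext.none)

def k0_pm_133 : ∃ t, chk3 f_pm_133 t 1 1 1 = true :=
  ⟨(b (a (b (a (a (b (l 16739704) (l 1)) (l 1)) (l 1)) (l 1)) (l 1)) (l 1)), by decide +kernel⟩

theorem c_pm_133 : CertFX 536870912 536870912 0 1230186008 1046898278 26843546 false true false .dn 1 3 3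
    ndF0q1 ndF6q3 pcF3 Cut.none Ext.none :=
  certFX0 (fam := false) (s1 := true) (s2 := false) (a := 1) (b := 3) (c := 3) (cn := .dn) (n1 := ndF0q1) (n2 := ndF6q3) (pc := pcF3) (cut := Cut.none) (xt := Ext.none) (P1 := 536870912) (W1 := 536870912) (P2 := 0) (W2 := 1230186008) (P3 := 1046898278) (W3 := 26843546)
    rfl k0_pm_133

end Pool.Agent.Strip051.G.IE1.Tab.C.FB06

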