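import Pool.Agent.Strip051.G.IE1.Tab

/-! # Certificates F36 (generated) -/

set_option linter.all false
set_option maxRecDepth 100000

namespace Pool.Agent.Strip051.G.IE1.Tab.C.FB06

open Pool.Agent.Strip051.PB Pool.Agent.Strip051.PB.T
open Pool.Agent.Strip051.G.IE1.Tab

noncomputable def f_pm_202 : ℕ → ℕ → ℕ → ℕ → Bool := onCell 0 536870912 0 536870912 1046898278 26843546
    (rowFX 1 false true false .pp 2 0 2 (qsf 0 536870912 1073741824 536870912 0) ndF0q2 ndF6q2 pcF0 Cut.none Ext.none)

def k0_pm_202 : ∃ t, chk3 f_pm_202 t 8 32 2 = true :=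
  ⟨(b (c (a (a (b (c (l 16082448) (l 16092584)) (c (a (l 16048744) (l 16070288)) (a (l 16053104) (l 16080184)))) (l 16126160)) (a (l 16181728) (l 16243560))) (b (a (l 16129568) (l 16242784)) (c (l 16157168) (b (l 16170952) (a (l 16092864) (b (l 16212728) (l 16175096))))))) (a (a (c (b (c (b (l 16039984) (a (l 16000008) (c (l 16039832) (l 16040792)))) (b (c (l 16044592) (l 16005008)) (b (c (l 15970216) (l 16004904)) (a (l 15991728) (l 16018160))))) (b (c (c (l 15983424) (l 15978792)) (a (l 15945688) (l 15973776))) (c (l 15923216) (l 15801984)))) (b (a (b (c (c (l 16035640) (l 16029600)) (l 16009504)) (c (l 15977920) (l 15946208))) (l 15971896)) (c (a (b (l 15922120) (l 15870568)) (c (l 15920576) (l 15904168))) (b (b (l 15844528) (l 15885520)) (l 15862904))))) (c (b (c (c (l 16084088) (l 16088024)) (b (l 16099488) (l 16069248))) (a (c (c (b (b (l 16050816) (l 16024872)) (l 15980136)) (l 15971144)) (b (l 16001328) (l 15938432))) (l 15970128))) (b (c (l 15961040) (l 16039416)) (c (l 15951408)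 (l 15933600))))) (c (b (c (c (l 16169480) (b (l 16178840) (b (l 16169832) (l 16159704)))) (b (l 16183424) (c (b (l 16170720) (l 16150128)) (l 16148832)))) (c (c (b (b (l 16148416) (l 16122928)) (l 16078368)) (l 16091912)) (l 16068048))) (b (c (b (c (l 16120056) (l 16175632)) (l 16126152)) (l 16125576)) (c (l 16036968) (b (l 16039024) (l 15995896))))))), by decide +kernel⟩

def k1_pm_202 : ∃ t, chk3 f_pm_202 t 8 32 3 = true :=
  ⟨(b (c (b (c (l 16199496) (a (l 16147368) (l 16219416))) (c (b (a (l 16116216) (l 16122848)) (l 16026360)) (c (l 15928144) (a (l 16074960) (l 16125104))))) (b (c (b (l 16201280) (c (l 16090240) (l 16083976))) (b (c (l 16056016) (a (l 16165208) (l 16155072))) (l 15978208))) (c (a (l 16073704) (l 16124352)) (l 16143480)))) (c (c (b (a (l 15991536) (b (l 16126272) (l 16076480))) (a (l 15917264) (l 16030520))) (a (l 15972224) (l 15978480))) (c (l 16027592) (l 16053576)))), by decide +kernel⟩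

def k2_pm_202 : ∃ t, chk3 f_pm_202 t 8 33 1 = true :=
  ⟨(c (b (c (a (b (c (a (l 15849704) (a (b (l 15915064) (l 15860784)) (c (l 15917296) (l 15900392)))) (a (c (l 15838168) (l 15830496)) (c (b (l 15900776) (l 15846712)) (a (l 15847312) (l 15870856))))) (c (a (l 15782336) (b (l 15801624) (c (l 15783520) (l 15775024)))) (c (b (a (l 15788664) (l 15800504)) (l 15774592)) (l 15791448)))) (b (c (l 15981752) (l 15908992)) (c (a (a (b (l 15848000) (c (l 15801128) (l 15790208))) (l 15852200)) (c (l 15902360) (l 15891176))) (b (c (l 15874176) (l 15876048)) (l 15849312))))) (a (c (b (c (b (a (l 15838368) (l 15869720)) (l 15820968)) (l 15840104)) (l 15805880)) (l 15841416)) (c (b (c (l 15852952) (l 15939184)) (l 15888400)) (l 15938192)))) (c (a (c (a (b (l 15740168) (l 15715128)) (l 15740992)) (a (l 15736736) (l 15757688))) (c (b (c (a (b (a (l 15761600) (l 15780560)) (l 15753616)) (l 15815408)) (l 15800160)) (a (l 15745744) (l 15783896))) (a (l 15780216) (l 15832920)))) (a (a (c (l 15746616)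 (l 15756320)) (c (l 15775872) (l 15793656))) (a (c (l 15802736) (l 15827024)) (l 15877856))))) (a (c (b (c (l 15862128) (l 15877336)) (c (a (l 15704480) (l 15805328)) (l 15776064))) (b (l 15879592) (l 15767544))) (c (b (l 15830304) (c (l 15855480) (l 15889280))) (l 15936816)))), by decide +kernel⟩

def k3_pm_202 : ∃ t, chk3 f_pm_202 t 9 32 2 = true :=
  ⟨(b (a (c (a (a (l 16275392) (l 16285048)) (l 16386600)) (a (b (l 16341000) (c (l 16310432) (b (l 16324744) (b (l 16291888) (c (l 16301288) (l 16293048)))))) (b (l 16419728) (l 16319840)))) (c (l 16386384) (c (l 16483280) (b (l 16510112) (l 16364344))))) (a (c (c (b (c (a (l 16266064) (l 16332840)) (b (l 16289728) (b (l 16301896) (a (l 16253672) (a (l 16264208) (l 16343456)))))) (c (b (b (a (l 16241656) (a (b (l 16300280) (l 16290728)) (l 16330760))) (l 16192816)) (l 16086488)) (a (l 16186216) (l 16257472)))) (a (b (b (l 16260048) (b (c (l 16265432) (l 16258672)) (l 16237360))) (l 16163640)) (b (a (b (l 16331176) (b (c (l 16317392) (l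 16310928)) (l 16290376))) (l 16310232)) (l 16235736)))) (b (c (b (a (b (c (l 16289968) (l 16287520)) (l 16266184)) (b (l 16359064) (c (l 16301432) (l 16331584)))) (l 16198672)) (l 16178112)) (c (a (l 16134248) (l 16207536)) (a (b (l 16137648) (l 16094344)) (b (a (l 16193936) (l 16231520)) (c (l 16102328) (l 16170640))))))) (c (b (c (l 16331544) (c (l 16311848) (l 16287608))) (a (l 16222664) (b (c (l 16411656) (l 16429096)) (l 16384016)))) (b (c (l 16275856) (l 16380856)) (c (l 16331408) (l 16234112)))))), by decide +kernel⟩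

def k4_pm_202 : ∃ t, chk3 f_pm_202 t 9 32 3 = true :=
  ⟨(a (b (a (c (b (c (l 16353568) (a (l 16302888) (l 16381160))) (b (c (b (l 16335696) (l 16218040)) (l 16253496)) (c (l 16286888) (l 16243520)))) (c (b (b (l 16377768) (b (l 16316192) (l 16276400))) (b (l 16262776) (l 16271592))) (b (b (a (c (l 16342328) (l 16238728)) (l 16401440)) (l 16282008)) (l 16301944)))) (c (b (l 16435768) (c (l 16336736) (l 16325936))) (b (c (l 16440328) (l 16338392)) (l 16325680)))) (c (b (c (b (l 16158744) (a (l 16176048) (a (l 16188960) (l 16270856)))) (a (l 16188048) (c (l 16168088) (l 16283400)))) (c (a (l 16129096) (l 16182408)) (l 16199096))) (c (a (l 16203560) (l 16231584)) (l 16247496)))) (b (c (b (l 16438352) (c (l 16337560) (l 16328000))) (b (c (l 16371392) (b (l 16391936) (l 16514568))) (l 16308000))) (c (b (a (l 16303024) (l 16349752)) (l 16300072)) (l 16320040)))), by decide +kernel⟩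

def k5_pm_202 : ∃ t, chk3 f_pm_202 t 9 33 1 = true :=
  ⟨(c (c (b (a (b (c (a (l 16076568) (l 16130160)) (a (l 16047400) (b (l 16150808) (c (l 16099624) (l 16087088))))) (c (c (l 16004480) (b (l 16018456) (a (l 15931072) (l 15961584)))) (b (c (b (l 16018424) (l 15994624)) (l 16009688)) (l 15980512)))) (a (b (c (l 16224376) (b (l 16227512) (c (l 16175072) (l 16121136)))) (a (c (b (l 16118416) (c (l 16070248) (b (l 16071328) (l 16051160)))) (b (c (b (l 16111760) (l 16088760)) (l 16103488)) (l 16075488))) (c (l 16134736) (l 16132976)))) (c (l 16108360) (b (l 16285032) (l 16197776))))) (a (c (c (b (b (a (l 15892704) (b (l 15972144) (l 15954520))) (l 15903680)) (l 15876792)) (l 15910120)) (l 15933016)) (c (b (a (c (b (a (b (l 16030888) (l 16012264)) (b (l 16027856) (l 16051568))) (l 16018800)) (l 16043160)) (l 16100448)) (a (l 15998184) (l 16075024))) (a (a (l 16026456) (l 16065368)) (l 16082096))))) (b (a (c (b (b (c (l 16074728) (a (l 16049568) (l 16021096))) (c (b (l 16056800) (l 16039720))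 (l 16061696))) (l 16020752)) (l 16076360)) (b (a (b (l 16215632) (b (l 16189624) (l 16174752))) (l 16183640)) (a (l 16147200) (l 16234848)))) (a (l 15935056) (a (a (l 16069904) (l 16108248)) (a (l 16125032) (l 16191528)))))) (c (a (b (c (l 16105096) (l 15978976)) (c (l 16012256) (l 16016496))) (b (a (c (l 16210608) (l 16126360)) (l 16308968)) (c (a (b (l 16149168) (l 16102552)) (b (l 16230752) (l 16178736))) (l 16166744)))) (a (b (l 16129744) (l 16010312)) (b (l 16150544) (l 16119928))))), by decide +kernel⟩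

def k6_pm_202 : ∃ t, chk3 f_pm_202 t 5 32 2 = true :=
  ⟨(c (a (b (a (l 16339872) (a (l 16221656) (b (l 16223040) (l 16216904)))) (c (b (a (l 16355504) (l 16187320)) (a (l 16389640) (l 16244544))) (b (b (l 16187760) (a (l 16393040) (l 16224056))) (l 16278896)))) (b (a (a (l 16153352) (l 16193496)) (l 16204536)) (b (a (b (a (c (l 16161688) (l 16153624)) (l 16119856)) (a (c (l 16183576) (l 16163792)) (c (b (l 16106960) (c (l 16105312) (l 16061360))) (b (c (l 16101776) (l 16103128)) (l 16108696))))) (b (c (l 16135080) (l 16126968)) (c (c (l 16107728) (l 16104888)) (b (c (l 16107848) (l 16109048)) (l 16103280))))) (b (a (c (a (l 16223528) (b (c (l 16047856) (l 16114504)) (l 16131960))) (l 16165008)) (c (b (c (l 16089072) (l 16092472)) (l 16066856)) (l 16099920))) (a (l 16229168) (a (l 16098400) (l 16093472))))))) (c (b (a (a (l 16371344) (a (l 16272912) (l 16193488))) (a (l 16100168) (l 16192440))) (a (b (b (a (l 16358800) (l 16208120)) (l 16257344)) (l 16294352)) (a (b (b (a (b (l 16141864)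 (l 16156488)) (b (l 16116144) (l 16108976))) (l 16096992)) (l 16182112)) (b (b (b (l 16128072) (l 16120216)) (l 16115384)) (l 16093928))))) (b (a (a (b (l 16358920) (l 16288672)) (b (l 16229256) (b (l 16228864) (l 16212824)))) (b (l 16208600) (a (b (l 16156112) (a (b (l 16135824) (l 16136144)) (l 16132208))) (b (l 16169504) (b (l 16148016) (l 16138184)))))) (a (b (l 16224792) (a (l 16359696) (l 16300216))) (a (b (a (l 16184912) (l 16128584)) (b (l 16082440) (l 16228160))) (b (l 16128736) (b (l 16119320) (a (c (l 16118504) (l 16112968)) (l 16108960))))))))), by decide +kernel⟩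

def k7_pm_202 : ∃ t, chk3 f_pm_202 t 5 32 3 = true :=
  ⟨(a (b (c (b (a (l 16306600) (a (l 16209856) (l 16190544))) (b (a (l 16251552) (c (a (l 16265224) (l 16179624)) (l 16206048))) (c (l 16201368) (l 16212368)))) (b (a (c (b (l 16323440) (l 16318264)) (b (l 16214848) (l 16359392))) (c (b (l 16202160) (a (l 16228928) (l 16172800))) (b (c (l 16198464) (l 16154120)) (l 16203584)))) (c (a (l 16380552) (l 16163944)) (l 16178416)))) (c (b (c (b (l 16233336) (l 16238832)) (l 16209032)) (a (l 16426088) (l 16344672))) (l 16183336))) (b (c (b (c (l 16200528) (a (l 16185576) (l 16198824))) (a (b (c (l 16150224) (l 16152824)) (c (l 16142696) (l 16151152))) (c (b (l 16163720) (l 16148368)) (b (l 16165984) (l 16156136))))) (b (c (b (l 16199752) (a (l 16170112) (l 16141456))) (b (c (l 16196024) (a (l 16185976) (l 16199344))) (l 16175168))) (c (a (b (l 16155456) (l 16142896)) (l 16157048)) (a (l 16139840) (l 16146688))))) (c (a (b (c (a (l 16129672) (b (l 16131424) (l 16134944))) (a (l 16186040) (l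 16128624))) (c (l 16155272) (l 16197920))) (b (c (l 16135192) (l 16128320)) (a (l 16075096) (l 16094000)))) (a (a (l 16200528) (b (l 16107056) (l 16127808))) (a (l 16087704) (l 16089536)))))), by decide +kernel⟩

def k8_pm_202 : ∃ t, chk3 f_pm_202 t 5 33 1 = true :=
  ⟨(c (c (a (b (b (a (l 16271672) (l 16333744)) (a (c (l 16192664) (l 16192256)) (c (l 16359888) (l 16339904)))) (b (c (a (l 16092920) (l 16300432)) (l 16182272)) (a (l 16187440) (l 16349160)))) (b (a (b (c (l 16301776) (l 16230072)) (c (c (l 16360640) (l 16280816)) (b (l 16279880) (l 16379144)))) (b (a (b (l 16125312) (l 16169584)) (a (c (l 16089008) (l 16077760)) (l 16087752))) (c (a (l 16157728) (b (l 16111440) (c (l 16148680) (l 16150096)))) (b (a (l 16220552) (c (a (l 16134520) (l 16092912)) (l 16112808))) (l 16156464))))) (b (c (a (l 16317392) (a (l 16261800) (l 16081184))) (l 16103856)) (a (l 16430104) (l 16276688))))) (a (c (b (b (a (l 16274208) (l 16344296)) (l 16258432)) (l 16166784)) (a (l 16240952) (l 16386320)))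 (b (a (b (c (c (l 16213400) (l 16251872)) (l 16301336)) (l 16353544)) (b (c (a (b (c (l 16138352) (l 16138128)) (l 16170608)) (b (l 16099624) (c (l 16098032) (l 16089032)))) (a (l 16140016) (l 16082944))) (a (l 16209856) (l 16099656)))) (a (l 16339816) (l 16182896))))) (a (a (c (c (l 16221800) (l 16255672)) (l 16280440)) (c (b (l 16356224) (l 16401432)) (l 16432416))) (a (c (c (l 16168176) (l 16178360)) (l 16235000)) (b (c (b (a (l 16109136) (l 16052048)) (c (l 16124656) (l 16088560))) (a (l 16123560) (l 16045416))) (c (l 16069248) (l 16207256)))))), by decide +kernel⟩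

def k9_pm_202 : ∃ t, chk3 f_pm_202 t 16 17 1 = true :=
  ⟨(b (c (c (b (b (c (a (l 15690312) (l 15655184)) (a (l 15697640) (l 15707160))) (a (a (l 15632624) (l 15655312)) (a (l 15678432) (l 15692064)))) (a (b (c (l 15601280) (l 15610864)) (c (l 15568488) (l 15579528))) (a (l 15622024) (b (l 15663576) (l 15626976))))) (b (c (b (l 15715048) (a (l 15644184) (l 15690800))) (b (l 15723424) (a (l 15651000) (l 15700080)))) (c (a (b (l 15620344) (l 15586952)) (a (l 15630568) (l 15654432))) (a (l 15603536) (l 15657944))))) (c (a (b (b (l 15713936) (l 15642840)) (l 15592616)) (b (c (l 15714872) (l 15705872)) (l 15643560))) (a (b (l 15654984) (l 15578400)) (l 15661168)))) (a (c (c (b (b (c (l 15534608) (l 15545696)) (l 15504048)) (c (b (l 15470024) (l 15440088)) (l 15453552))) (b (b (l 15544304) (l 15501184)) (l 15440784))) (b (l 15514352) (l 15415264))) (c (c (b (a (c (l 15547944) (b (l 15572272) (l 15540656))) (l 15573896)) (c (b (c (l 15512856) (l 15517584)) (l 15483592)) (l 15496400))) (b (l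 15558800) (l 15484064))) (b (l 15535472) (l 15459408))))), by decide +kernel⟩

def k10_pm_202 : ∃ t, chk3 f_pm_202 t 17 17 1 = true :=
  ⟨(a (c (b (b (c (c (l 15716336) (l 15736640)) (c (b (l 15762552) (l 15742880)) (b (l 15779128) (l 15750456)))) (a (c (b (l 15678936) (l 15650680)) (b (l 15690456) (l 15654336))) (c (b (l 15695280) (l 15668640)) (b (c (l 15715752) (l 15719760)) (l 15675640))))) (c (b (a (l 15597816) (c (l 15622184) (l 15563192))) (b (l 15557976) (c (b (l 15536504) (l 15518272)) (l 15519672)))) (b (a (l 15594320) (b (l 15637960) (l 15600240))) (l 15525784)))) (b (c (b (l 15760360) (c (l 15666208) (l 15657480))) (l 15685312)) (b (a (l 15571680) (l 15601280)) (l 15501960)))) (c (b (c (c (b (b (l 15755680) (l 15733936)) (a (l 15692520) (l 15710352))) (b (a (l 15757192) (l 15781800)) (b (l 15734328) (l 15709776)))) (b (a (c (l 15709296) (l 15707096)) (l 15821648)) (c (b (c (l 15750296) (l 15750456)) (a (l 15705040) (l 15733048))) (l 15732200)))) (c (b (b (l 15610216) (c (l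 15639272) (l 15643296))) (b (c (a (l 15600560) (l 15623432)) (l 15610248)) (c (l 15581680) (l 15575296)))) (b (b (a (l 15663448) (l 15690584)) (l 15633624)) (c (l 15592984) (l 15583160))))) (b (c (b (l 15819840) (l 15720376)) (l 15758872)) (c (b (a (l 15628328) (l 15658104)) (l 15572768)) (l 15576776))))), by decide +kernel⟩

def k11_pm_202 : ∃ t, chk3 f_pm_202 t 9 17 1 = true :=
  ⟨(c (b (c (a (a (b (c (c (l 15792160) (l 15807616)) (l 15830160)) (c (b (l 15754832) (l 15732728)) (a (l 15754960) (c (l 15779656) (l 15794136))))) (c (l 15836488) (l 15865840))) (b (a (l 15893600) (a (b (l 16013752) (l 15997824)) (b (l 16073744) (l 16038664)))) (a (l 15849384) (c (l 15955656) (l 15983584))))) (a (c (b (l 15893128) (b (l 15844104) (a (a (l 15757696) (l 15790504)) (l 15838784)))) (b (l 15913504) (l 15827232))) (b (c (a (l 15999352) (l 16079104)) (a (l 16019464) (b (l 16100192) (l 16079744)))) (c (b (c (l 15982712) (l 15992504)) (l 15945808)) (l 15969720))))) (c (b (a (c (a (a (l 15687464) (l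 15712984)) (b (l 15764440) (l 15741400))) (a (b (c (l 15729192) (l 15736584)) (l 15702624)) (b (l 15792400) (c (l 15756824) (l 15758272))))) (c (l 15774168) (c (b (l 15892848) (l 15861784)) (l 15881968)))) (a (c (a (b (l 15663136) (c (l 15631632) (l 15630176))) (b (c (l 15716760) (l 15724232)) (c (l 15692144) (l 15692696)))) (a (b (l 15663680) (l 15624528)) (a (l 15690848) (l 15717280)))) (c (b (c (l 15813424) (l 15823160)) (a (c (a (l 15734520) (l 15768496)) (l 15750672)) (c (l 15820656) (l 15821816)))) (c (a (b (l 15788976) (l 15748312)) (l 15838808)) (l 15801272))))) (a (b (c (a (c (l 15650032) (l 15707800)) (c (l 15763792) (l 15775152))) (a (l 15701424) (l 15770560))) (a (b (c (l 15665776) (l 15653672)) (a (l 15600368) (l 15634792))) (c (c (l 15585744) (l 15686032)) (l 15680456)))) (c (l 15691112) (l 15832144))))) (b (a (c (l 15866768) (l 15855272)) (c (b (a (l 16021768) (l 16101856)) (l 15962976)) (a (l 15961584) (l 16045200)))) (a (c (b (l 15721512) (a (a (l 15601408) (l 15632568))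 (l 15671704))) (b (l 15717808) (l 15587072))) (c (l 15823504) (l 15811976))))), by decide +kernel⟩

def k12_pm_202 : ∃ t, chk3 f_pm_202 t 5 17 2 = true :=
  ⟨(a (b (a (b (c (l 16021928) (l 16030408)) (c (a (a (b (l 16023472) (l 16013736)) (b (l 16089080) (l 16010584))) (l 16138528)) (a (c (b (a (l 16083368) (l 16127632)) (c (l 16063608) (l 16065504))) (l 16085736)) (l 16173072)))) (c (c (l 16122328) (l 16191776)) (b (l 16248608) (l 16172464)))) (c (b (a (c (a (b (a (l 15967440) (l 16009448)) (l 15958488)) (a (b (l 16051328) (l 16019856)) (l 16079736))) (a (b (c (l 16011032) (l 16020656)) (l 15975144)) (a (b (l 16054888) (c (l 16036304) (l 16038048))) (l 16099136)))) (c (l 16155968) (l 16133360))) (a (a (c (b (c (l 15924272) (l 15933864)) (b (l 15904552) (l 15886608))) (l 15912832)) (c (b (c (l 16006400) (a (l 15995864) (a (l 16025328) (l 16047696)))) (c (b (a (l 15963264) (l 16005264)) (c (l 15968568) (l 15969288))) (l 15978576))) (b (l 16016456) (l 15974880)))) (c (b (l 16082952) (a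 (b (l 16071728) (c (c (l 16009904) (l 16052664)) (l 16050928))) (l 16153616))) (a (l 16059648) (l 16175632))))) (a (b (a (c (l 15999048) (l 15994232)) (a (l 16055128) (l 16101432))) (a (l 15904832) (a (l 15967928) (l 16007872)))) (b (l 16220488) (a (l 16074024) (l 16170440)))))) (b (a (c (c (l 16301584) (l 16328728)) (b (l 16374064) (l 16347808))) (c (b (l 16282656) (l 16355120)) (b (c (l 16336168) (l 16278616)) (l 16286112)))) (a (c (b (c (l 16343256) (l 16299712)) (c (b (l 16284720) (l 16221560)) (l 16329784))) (l 16167640)) (c (b (a (l 16441320) (l 16433808)) (b (l 16391328) (l 16341976))) (l 16360296))))), by decide +kernel⟩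

def k13_pm_202 : ∃ t, chk3 f_pm_202 t 5 17 3 = true :=
  ⟨(a (b (a (b (l 16190608) (a (c (l 16079608) (l 16072008)) (l 16168352))) (c (l 16271208) (l 16308832))) (a (a (b (l 15982736) (l 15888824)) (c (b (l 16067272) (l 15979048)) (l 16013544))) (c (b (l 16213976) (l 16092664)) (l 15965984)))) (b (a (b (l 16401536) (l 16392216)) (c (l 16255184) (l 16294536))) (a (l 16161888) (l 16359584)))), by decide +kernel⟩

def k14_pm_202 : ∃ t, chk3 f_pm_202 t 8 9 1 = true :=
  ⟨(a (a (b (c (b (b (a (c (b (l 15398240) (l 15422664)) (l 15391608)) (c (l 15429168) (l 15411408))) (a (c (l 15485240) (l 15468280)) (c (l 15503160) (l 15486424)))) (b (c (l 15576088) (l 15560336)) (l 15645904))) (b (b (a (l 15364816) (l 15385000)) (a (l 15442944) (l 15461440))) (a (l 15559112) (l 15590208)))) (c (b (a (l 15733536) (l 15762592)) (l 15882296)) (b (l 15721576) (l 15859048)))) (b (b (c (b (c (l 15456664) (l 15439280)) (l 15518600)) (b (l 15413424) (l 15485600))) (c (b (l 15603632) (c (l 15693200) (l 15679000)))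 (b (l 15572912) (l 15657744)))) (c (b (b (c (l 15776752) (l 15763672)) (l 15831496)) (l 15909288)) (b (b (l 15744056) (l 15806928)) (l 15886744))))) (b (c (b (b (a (c (b (l 15467784) (l 15497104)) (l 15476944)) (c (l 15537648) (l 15521328))) (a (c (l 15558120) (l 15542136)) (c (l 15582704) (l 15567056)))) (a (l 15671256) (c (l 15704672) (l 15690624)))) (b (b (a (l 15451824) (l 15497096)) (a (l 15518232) (l 15543632))) (a (l 15642368) (l 15669592)))) (b (c (c (l 15844712) (l 15832520)) (l 15814232)) (a (a (c (l 15926664) (l 15904568)) (l 15926328)) (l 15940784))))), by decide +kernel⟩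

def k15_pm_202 : ∃ t, chk3 f_pm_202 t 9 9 1 = true :=
  ⟨(b (c (b (c (a (b (a (b (l 15594168) (l 15554192)) (b (c (l 15655344) (l 15650504)) (l 15619728))) (a (a (l 15607296) (l 15624920)) (a (l 15638512) (l 15650040)))) (b (c (a (b (l 15716072) (l 15681968)) (b (l 15784128) (l 15743592))) (a (a (l 15675840) (b (l 15726232) (l 15686712))) (l 15758176))) (a (a (l 15667680) (b (l 15673328) (l 15699456))) (b (a (b (l 15694688) (l 15668672)) (l 15723928)) (a (l 15713536) (l 15724472)))))) (a (b (a (b (l 15581800) (a (l 15544656) (l 15567080))) (c (b (l 15644112) (l 15620944)) (l 15622184))) (a (l 15609712) (l 15629992))) (b (a (c (b (l 15690600) (l 15656384)) (l 15666832)) (l 15748384)) (a (c (b (l 15650200) (l 15686792)) (l 15659376)) (b (l 15697488) (l 15696208)))))) (b (a (a (l 15681824) (a (l 15701688) (c (l 15724736) (l 15718088)))) (a (c (a (l 15735016) (l 15748240)) (c (l 15728576) (l 15725032))) (c (c (a (l 15766488) (l 15782752)) (l 15768544)) (l 15754944)))) (a (c (l 15775920)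 (l 15762816)) (c (a (l 15825400) (l 15770864)) (a (l 15809624) (l 15824304)))))) (b (a (b (a (c (b (l 15566864) (l 15546376)) (l 15539024)) (c (l 15606880) (l 15588992))) (a (l 15582272) (c (l 15616488) (l 15598560)))) (b (c (l 15694408) (l 15687824)) (c (a (l 15645936) (l 15690592)) (l 15655424)))) (a (a (l 15691032) (l 15688056)) (a (b (l 15704232) (l 15787792)) (b (l 15726928) (l 15801912)))))) (c (b (a (b (c (l 15855416) (l 15843368)) (l 15909768)) (b (c (b (l 15892024) (l 15930632)) (l 15896576)) (l 15950640))) (a (l 15983688) (l 16015872))) (b (a (b (l 15825288) (l 15887240)) (b (a (l 15861360) (l 15886544)) (l 15929176))) (a (l 15963080) (l 15996096))))), by decide +kernel⟩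

def k16_pm_202 : ∃ t, chk3 f_pm_202 t 5 18 1 = true :=
  ⟨(a (b (c (c (a (b (c (b (l 15917448) (l 15855944)) (l 15870232)) (a (b (l 15775712) (l 15758760)) (l 15833888))) (b (a (c (b (a (l 15997648) (l 16041832)) (l 15977456)) (b (l 16013160) (l 15972416))) (l 16086184)) (a (b (l 15935280) (l 15893432)) (a (l 15975968) (l 16022400))))) (a (b (l 15840544) (a (l 15756328) (l 15821672))) (b (a (b (l 16005936) (l 15964760)) (l 16077632)) (a (l 15904656) (l 15987152))))) (c (a (b (l 15850064) (l 15779992)) (b (a (l 15975168) (l 16069168)) (l 15935904))) (a (l 15740472) (b (l 16009232) (l 15925456))))) (b (a (c (a (c (c (b (l 15782704) (l 15816176)) (l 15782736)) (l 15775968)) (l 15821984)) (l 15782240)) (c (a (c (l 15870392) (l 15858560)) (c (b (l 15939632) (l 15917624)) (l 15919896))) (a (l 15840816) (l 15903248)))) (c (a (c (c (a (l 15868296) (l 15881952)) (l 15868584)) (l 15859280)) (c (l 15931632) (l 15920616))) (a (l 15844768) (l 15903768))))) (b (c (a (c (b (l 16108600) (l 16142880))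 (l 16096816)) (c (b (l 16349384) (l 16355048)) (l 16273968))) (a (l 15960320) (l 16226008))) (a (a (c (b (c (l 16008440) (l 15998632)) (c (b (l 15968472) (l 15986952)) (l 15969128))) (b (l 15983248) (l 15953296))) (c (b (l 16100888) (l 16033840)) (l 16050024))) (c (a (l 16160304) (l 16267768)) (l 16200296))))), by decide +kernel⟩

def k17_pm_202 : ∃ t, chk3 f_pm_202 t 5 19 1 = true :=
  ⟨(a (a (b (c (b (c (b (l 15932528) (a (l 15947608) (l 15973224))) (b (l 15916896) (l 15944784))) (a (c (l 15990208) (l 15981072)) (l 16009920))) (b (c (l 15915688) (l 15908648)) (l 15968024))) (a (c (l 16057544) (l 16036512)) (c (c (l 16074864) (l 16067880)) (l 16051368)))) (b (c (b (l 15991296) (a (l 16019744) (l 16050472))) (b (l 15970880) (l 16019832))) (c (a (c (l 16046024) (l 16077632)) (l 16064288)) (a (l 16065176) (l 16092592))))) (b (a (c (b (c (a (l 16035160) (l 16055584)) (l 16035520)) (l 16045752)) (b (c (l 16025976) (l 16016432)) (l 16069880))) (c (b (a (l 16088304) (l 16151512)) (l 16132280))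 (b (l 16109536) (l 16115536)))) (c (a (a (l 16131136) (l 16155512)) (a (l 16173696) (l 16194128))) (a (l 16127808) (l 16165736))))), by decide +kernel⟩

def k18_pm_202 : ∃ t, chk3 f_pm_202 t 6 64 2 = true :=
  ⟨(a (c (a (l 16227832) (l 16262344)) (c (a (l 16216200) (l 16251320)) (b (l 16256320) (b (l 16212528) (a (b (l 16172528) (l 16162608)) (c (l 16203520) (l 16119496))))))) (a (c (l 16261312) (b (l 16275608) (c (l 16221968) (b (l 16229024) (b (c (l 16209304) (l 16206624)) (c (l 16196712) (l 16198296))))))) (b (a (l 16221920) (l 16139776)) (c (a (l 16175992) (l 16119792)) (b (a (l 16175176) (l 16115352)) (c (l 16122560) (a (b (l 16150712) (l 16140384)) (b (a (l 16121128) (l 16085296)) (c (a (l 16109824) (l 16081568)) (l 16094160)))))))))), by decide +kernel⟩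

def k19_pm_202 : ∃ t, chk3 f_pm_202 t 6 65 2 = true :=
  ⟨(a (c (b (c (c (l 16165200) (b (l 16175696) (b (l 16153976) (a (l 16122848) (l 16158432))))) (b (a (l 16151368) (l 16186928)) (c (b (a (l 16132416) (l 16168080)) (l 16143528)) (a (l 16131784) (l 16167096))))) (c (c (b (b (a (l 16113600) (l 16128128)) (l 16127160)) (l 16122680)) (l 16130624)) (l 16137888))) (b (c (b (b (c (l 16171280) (a (l 16151528) (l 16187328))) (a (l 16144528) (l 16180056))) (l 16157336)) (l 16170360)) (c (l 16147264) (a (b (l 16140968) (l 16126720)) (b (l 16174144) (c (l 16162712) (l 16157648))))))) (b (c (a (b (c (l 16193984) (c (l 16188368) (l 16184912))) (c (c (l 16167464) (b (l 16170768) (a (l 16175544) (l 16140120)))) (b (c (a (l 16185232) (l 16149696)) (l 16168720)) (l 16162072)))) (b (a (l 16133872) (b (l 16097912) (l 16085624))) (c (a (l 16110144) (b (l 16075728) (l 16063000))) (b (c (l 16047776) (l 16089928)) (l 16083584))))) (a (c (b (b (c (l 16188144) (l 16145144)) (c (l 16177752) (l 16181008)))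 (l 16172544)) (l 16185064)) (b (c (a (b (l 16131000) (l 16122248)) (b (c (l 16088232) (l 16002832)) (l 16059568))) (l 16107008)) (l 16095528)))) (c (a (c (c (b (b (a (l 16166152) (l 16130832)) (l 16143320)) (l 16137576)) (l 16145680)) (l 16151936)) (c (b (b (c (l 16072360) (l 16074248)) (l 16068680)) (l 16062768)) (l 16072344))) (c (a (l 16159984) (l 16078848)) (a (b (c (l 16170080) (l 16172304)) (c (l 16137680) (l 16153744))) (b (c (l 16088520) (l 16090112)) (c (l 16077824) (l 16072840)))))))), by decide +kernel⟩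

def k20_pm_202 : ∃ t, chk3 f_pm_202 t 6 32 6 = true :=
  ⟨(b (a (b (c (l 16248880) (a (l 16223112) (c (l 16260296) (l 16257368)))) (c (b (b (l 16212344) (a (l 16181656) (l 16196680))) (a (l 16172400) (l 16207864))) (b (a (l 16190168) (l 16225936)) (a (l 16179584) (l 16214536))))) (b (a (b (l 16275936) (c (l 16250632) (a (l 16262136) (l 16225480)))) (a (b (l 16213720) (c (l 16192480) (l 16185952))) (a (b (l 16149408) (c (l 16144704) (b (l 16140704) (l 16136616)))) (l 16086160)))) (a (c (b (b (l 16229096) (c (l 16216824) (l 16216664))) (l 16206904)) (a (b (l 16242992) (l 16230912)) (b (l 16206104) (l 16193544)))) (b (c (a (b (l 16171256) (l 16159384)) (b (l 16108808) (c (l 16103432) (l 16018816)))) (a (l 16166480) (a (l 16110776) (l 16062952)))) (c (a (l 16148512) (a (l 16118448) (l 16085128))) (a (l 16153408) (c (l 16102864) (a (l 16123648) (l 16089816))))))))) (b (a (c (b (l 16183088) (c (l 16172864) (l 16150104))) (a (l 16151416) (l 16143960))) (a (c (b (l 16197344) (c (l 16185864)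 (l 16184048))) (a (l 16159928) (l 16164184))) (c (b (l 16071384) (c (l 16102856) (l 16079760))) (b (c (a (l 16139160) (b (l 16099320) (l 16091368))) (l 16108352)) (l 16089376))))) (a (c (a (l 16122056) (l 16155560)) (l 16120856)) (a (c (l 16152336) (l 16134880)) (c (l 16069960) (l 16052976)))))), by decide +kernel⟩

def k21_pm_202 : ∃ t, chk3 f_pm_202 t 6 32 7 = true :=
  ⟨(b (a (c (b (b (l 16248968) (a (c (l 16206920) (l 16207864)) (c (l 16243088) (l 16243944)))) (a (l 16180944) (b (l 16227768) (l 16207144)))) (b (b (b (c (l 16250704) (a (l 16229264) (l 16265848))) (c (l 16218560) (l 16238336))) (a (l 16205232) (l 16241424))) (l 16189984))) (b (c (a (b (l 16265672) (c (b (l 16246384) (l 16237728)) (b (l 16247072) (l 16240704)))) (b (a (l 16203080) (l 16109792)) (a (b (l 16188392) (l 16136928)) (a (b (l 16094488) (c (l 16136080) (l 16138264))) (l 16077232))))) (a (b (c (b (l 16267608) (l 16235328)) (b (b (l 16267864) (l 16261952)) (l 16255048))) (c (l 16242120) (l 16237760))) (b (c (a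 (b (l 16204288) (l 16195760)) (b (l 16105480) (a (l 16133904) (l 16072440)))) (b (a (c (l 16202448) (l 16201248)) (a (c (l 16132168) (l 16130856)) (l 16069496))) (a (l 16194264) (l 16103392)))) (a (c (l 16182720) (l 16178296)) (c (l 16063688) (l 16101056)))))) (c (a (b (c (l 16228736) (l 16225904)) (l 16205560)) (a (b (l 16167144) (l 16145960)) (b (c (a (l 16134320) (l 16086136)) (l 16104752)) (l 16094952)))) (a (l 16206032) (a (l 16146488) (l 16087800)))))) (a (a (l 16109136) (l 16123624)) (a (c (l 16124960) (l 16138752)) (c (a (l 16086096) (b (l 16064368) (l 16019216))) (l 16053552))))), by decide +kernel⟩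

def k22_pm_202 : ∃ t, chk3 f_pm_202 t 6 33 2 = true :=
  ⟨(a (b (c (b (c (a (l 16098976) (l 16131568)) (a (l 16108016) (l 16139952))) (a (c (b (l 16090920) (a (c (l 16081920) (b (l 16061840) (l 16081200))) (l 16089208))) (b (c (l 16095800) (l 16091744)) (a (l 16071656) (l 16079272)))) (c (c (l 16116720) (b (l 16124096) (l 16114496))) (b (c (l 16126464) (l 16122584)) (l 16103816))))) (b (c (b (c (l 16134928) (a (l 16117592) (l 16149480))) (a (l 16100064) (l 16131664))) (l 16109976)) (a (a (l 16050264) (l 16059712)) (l 16085512)))) (a (c (b (b (a (c (c (a (l 16103816) (l 16073032)) (l 16084784)) (l 16068048)) (c (l 16053248) (l 16054560))) (a (l 16091872) (l 16041536))) (a (l 16136136) (a (l 16046080) (l 16015704)))) (a (b (l 16046296) (l 16093096)) (b (l 16010240) (a (l 16002424) (l 15972080))))) (c (c (b (c (b (l 16102368) (l 16081128)) (l 16082712)) (l 16038864)) (l 16042088)) (l 16010864)))) (b (c (b (a (c (l 16128216) (c (l 16134120) (l 16137464))) (c (l 16049576) (l 16055552))) (c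 (a (c (l 16111344) (b (l 16118816) (a (l 16127088) (l 16088432)))) (b (l 16036400) (l 15941880))) (a (b (c (l 16057912) (l 16117000)) (l 16098024)) (b (c (l 16039312) (l 16035304)) (l 16016160))))) (c (b (a (b (c (l 16145544) (l 16081976)) (c (l 16131008) (l 16123088))) (b (c (l 16064928) (l 16063864)) (l 16045472))) (a (l 16090784) (l 16009448))) (a (l 16096424) (l 16015592)))) (c (a (c (b (c (b (a (l 16114520) (l 16075688)) (l 16074280)) (l 16076304)) (l 16032400)) (l 16036496)) (c (b (b (l 15925416) (l 15986808)) (l 15950128)) (l 15954736))) (a (l 16006688) (l 15925712))))), by decide +kernel⟩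

def k23_pm_202 : ∃ t, chk3 f_pm_202 t 6 33 3 = true :=
  ⟨(a (a (c (b (c (l 16049352) (a (l 16025848) (l 16037560))) (a (b (c (l 16015760) (l 16005704)) (l 16064288)) (b (l 15975360) (c (l 15966552) (l 15960376))))) (b (l 16022072) (a (l 16031072) (l 15964512)))) (c (c (b (l 16080888) (l 15983800)) (b (l 16065216) (l 15975032))) (l 16010976))) (c (a (b (c (l 16077800) (l 16041816)) (c (l 15917872) (l 15972184))) (b (c (l 15997448) (l 15982656)) (c (l 15900320) (l 15891408)))) (a (l 15945432) (l 15927176)))), by decide +kernel⟩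

def k24_pm_202 : ∃ t, chk3 f_pm_202 t 12 17 1 = true :=
  ⟨(c (b (a (c (b (a (l 16230312) (l 16079488)) (l 16140576)) (b (c (l 16070728) (a (l 16182448) (l 16030280))) (c (l 16134976) (l 16253432)))) (c (b (a (b (a (l 15988808) (l 15974112)) (a (l 16028928) (l 15968056))) (a (l 15961712) (l 15967376))) (a (l 16089016) (b (a (l 15951944) (l 15909544)) (l 15976424)))) (b (a (b (c (l 15953536) (a (l 15935736) (l 15921336))) (c (l 15968160) (l 15952144))) (c (l 15933728) (b (l 15935672) (l 15893824)))) (a (c (l 16061160) (l 16052512)) (b (c (a (l 15920672) (l 15878184)) (l 15894432)) (l 15946176)))))) (a (c (b (c (l 16349912) (l 16250504)) (c (b (l 16412584) (l 16427976)) (l 16415576))) (b (l 16326640) (l 16413848))) (c (b (c (l 16151200) (a (l 16204784) (l 16064096))) (c (c (l 16128320) (l 16144288)) (l 16265568))) (b (l 16103008) (l 16260920))))) (b (a (c (b (l 16043640) (l 16249128)) (l 16067072)) (b (a (c (b (l 15920128) (l 15943208)) (l 15930248)) (c (l 15904208) (l 15893784))) (a (l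 16041568) (a (l 15932800) (l 15856408))))) (a (c (l 16283952) (l 16301752)) (c (l 16060296) (l 16095160))))), by decide +kernel⟩

def k25_pm_202 : ∃ t, chk3 f_pm_202 t 13 17 1 = true :=
  ⟨(c (b (a (c (a (b (l 15966768) (b (l 15892368) (a (l 15880608) (l 15836008)))) (l 15879136)) (b (c (l 15916816) (a (l 15918424) (l 15880416))) (a (b (l 15856328) (a (c (l 15853016) (l 15845848)) (l 15804584))) (l 15754352)))) (c (l 15775312) (b (c (l 15835848) (l 15819232)) (c (l 15739416) (l 15729096))))) (a (b (c (a (c (a (l 15966744) (l 15869856)) (b (a (l 15914456) (l 15820776)) (l 15930024))) (b (c (l 15769312) (l 15748400)) (c (l 15758984) (a (l 15771008) (l 15699096))))) (a (a (l 15936880) (l 15838592)) (b (l 15733072) (l 15730416)))) (c (a (b (l 15900304) (l 16050888)) (b (c (l 15792368) (l 15780584)) (l 15854592))) (a (l 16027168) (l 15806832)))) (b (c (c (l 15679296) (l 15660856)) (l 15646040)) (a (c (b (c (l 15638528) (l 15625888)) (a (l 15681216) (l 15590016))) (b (l 15614672) (l 15625360)))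 (c (c (l 15562080) (l 15550408)) (l 15538336)))))) (b (a (a (b (l 15900376) (c (l 15751792) (l 15823920))) (c (l 15824312) (l 15812880))) (c (l 15762440) (l 15750120))) (a (a (b (a (l 15921192) (l 15820888)) (l 16012928)) (b (a (l 15718496) (l 15684208)) (l 15788120))) (b (l 15624384) (a (b (l 15592096) (l 15602968)) (l 15514216)))))), by decide +kernel⟩

def k26_pm_202 : ∃ t, chk3 f_pm_202 t 14 32 1 = true :=
  ⟨(b (c (a (b (l 15950680) (c (l 15949328) (a (l 15997984) (l 15867552)))) (c (l 15669496) (a (l 15583016) (l 15568152)))) (c (b (a (l 15924808) (l 15548400)) (a (c (b (l 15923032) (l 15927984)) (b (l 15921520) (l 15930408))) (c (b (l 15633024) (l 15638160)) (b (l 15629184) (l 15637840))))) (b (c (a (b (l 15913888) (l 15788776)) (b (l 15618408) (c (l 15620544) (l 15618536)))) (b (a (c (l 15908848) (l 15800672)) (c (l 15612040) (b (l 15586304) (l 15608680)))) (a (l 15909648) (l 15612864)))) (c (a (l 15920176) (l 15625856)) (a (l 15909976) (l 15614256)))))) (c (b (a (c (b (l 15941496)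 (c (l 15939160) (l 15789784))) (c (b (l 15932968) (l 15939744)) (l 15938808))) (c (c (l 15662936) (l 15530384)) (c (l 15652880) (l 15652832)))) (a (c (a (b (l 15999168) (l 16000112)) (l 15887496)) (a (c (l 16006136) (b (l 16010992) (a (l 16023000) (l 15989312)))) (l 15891792))) (c (l 15670712) (c (l 15673120) (l 15670272))))) (c (a (b (c (a (l 16005016) (l 15875544)) (l 15911920)) (a (b (l 15995744) (l 15982832)) (l 15873576))) (b (c (l 15651864) (l 15642608)) (l 15650192))) (a (a (b (l 15979304) (l 15942584)) (l 15848824)) (l 15623064))))), by decide +kernel⟩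

def k27_pm_202 : ∃ t, chk3 f_pm_202 t 14 33 1 = true :=
  ⟨(c (a (b (a (c (b (a (l 16000600) (l 15977664)) (a (c (l 15976040) (b (l 15981904) (l 15961048))) (l 15951384))) (b (c (a (b (l 16011536) (l 15992072)) (l 15977392)) (l 15978232)) (l 15937280))) (c (b (l 15906544) (c (l 15910016) (l 15903912))) (b (l 15834920) (l 15879264)))) (a (c (b (c (b (l 15944048) (l 15920504)) (l 15913960)) (l 15873088)) (l 15860144)) (c (l 15854728) (l 15818000)))) (a (b (c (l 15672088) (l 15758800)) (c (l 15774248) (l 15737728))) (b (c (l 15618528) (l 15598552)) (l 15613392)))) (a (a (c (b (a (c (l 15944184) (l 15929560)) (l 15915648)) (c (l 15835216) (l 15826080))) (b (l 15909592) (l 15817248))) (c (b (l 15853248) (l 15789200)) (l 15799000))) (c (a (b (l 15727104) (l 15708720)) (l 15566008)) (a (l 15697056) (l 15545040))))), by decide +kernel⟩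

def k28_pm_202 : ∃ t, chk3 f_pm_202 t 15 16 1 = true :=
  ⟨(b (c (b (a (c (l 15347088) (a (l 15401976) (l 15251376))) (c (l 15029576) (c (l 15015064) (a (l 15086888) (l 14923192))))) (a (c (b (b (l 15340616) (l 15215480)) (l 15352312)) (b (c (l 15337280) (l 15332560)) (c (l 15356584) (l 15349432)))) (c (b (b (l 15026848) (l 15028488)) (l 15039312)) (b (a (l 15096312) (l 14938384)) (a (l 15112704) (l 14954400)))))) (c (b (a (b (l 15306704) (c (b (l 15310160) (l 15315480)) (b (l 15303768) (l 15312160)))) (b (a (l 15075760) (l 14909056)) (c (a (l 15083008) (l 14915832)) (a (l 15015168) (b (l 14907832) (l 14915840)))))) (c (a (b (l 15328688) (l 15336352)) (a (l 15101168) (b (l 14930584) (l 14939304)))) (a (l 15317800) (a (l 15089872) (l 14923664))))) (b (b (c (a (b (l 15289616) (c (l 15293112) (l 15289832))) (b (l 14898472) (a (l 15061112) (c (l 14898392) (l 14896288))))) (a (b (c (l 15239840) (b (l 15108120) (l 15277552))) (l 15219696)) (b (c (a (l 15049664) (l 14888376)) (b (a (l 15042984)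 (l 14881728)) (l 14967280))) (c (l 14977544) (l 14969232))))) (a (c (l 15256320) (l 15285128)) (c (a (l 15068080) (a (l 14946192) (l 14860256))) (l 14937008)))) (a (l 15233984) (a (l 15067936) (c (l 14912360) (l 14902944))))))) (c (b (a (a (c (l 15460664) (l 15433824)) (c (l 15298240) (l 15284704))) (c (b (l 15058368) (l 15073112)) (a (l 15123856) (l 14966344)))) (a (c (l 15392944) (l 15363328)) (c (l 15080576) (l 15050984)))) (a (c (a (l 15401104) (l 15255144)) (l 15305312)) (c (a (l 15103696) (c (l 14944768) (l 14934064))) (a (l 15079928) (l 14860536)))))), by decide +kernel⟩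

def k29_pm_202 : ∃ t, chk3 f_pm_202 t 7 17 1 = true :=
  ⟨(a (c (b (a (c (a (l 15750320) (l 15543592)) (c (b (l 15750360) (a (l 15675480) (l 15632888))) (b (a (l 15753544) (l 15715032)) (l 15640392)))) (a (b (l 15690232) (l 15595808)) (b (l 15571584) (l 15532056)))) (a (c (b (c (l 15589800) (a (l 15596792) (l 15551256))) (c (l 15340256) (l 15485656))) (b (l 15556368) (l 15472928))) (b (c (l 15484512) (l 15459128)) (c (a (c (l 15429768) (l 15417648)) (l 15360528)) (l 15375192))))) (b (a (c (a (l 15695624) (l 15656688)) (a (l 15682352) (l 15642880))) (a (l 15597088) (b (l 15542808) (l 15489104)))) (a (a (l 15514192) (l 15403472)) (a (b (l 15464400) (l 15377368)) (l 15356384))))) (c (a (b (c (l 15380096) (a (l 15419056) (l 15281592))) (c (a (l 15350312) (l 15263208)) (a (l 15320808) (l 15248032)))) (b (c (l 15079800) (a (l 15126168) (l 14974328))) (c (l 15074584) (l 15056912)))) (a (b (c (l 15326872) (l 15140856)) (a (l 15292256) (l 15221056))) (c (a (l 15115520) (l 14959616)) (a (l 15096160)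 (b (l 14940184) (l 14950960))))))), by decide +kernel⟩

def k30_pm_202 : ∃ t, chk3 f_pm_202 t 6 9 1 = true :=
  ⟨(b (a (b (c (a (c (b (l 16496040) (l 16511632)) (l 16438240)) (c (b (l 16312968) (l 16437944)) (l 16267824))) (a (b (l 16473904) (l 16487368)) (c (l 16285264) (l 16302704)))) (a (c (l 16254864) (l 16352176)) (c (l 16468288) (l 16510168)))) (b (a (c (b (c (l 15898208) (l 16014920)) (l 16048912)) (a (l 16117120) (l 15939904))) (c (b (a (l 15721080) (b (a (l 15524504) (l 15471816)) (l 15524200))) (l 15741408)) (b (a (l 15693664) (b (l 15470712) (l 15491336))) (l 15714264)))) (a (c (a (l 16405216) (l 16284736)) (l 16146992)) (c (l 15883968) (l 15862200))))) (a (a (b (c (b (l 16305192) (l 16232144)) (b (l 16293328) (l 16218096))) (c (l 16230136) (l 16215936))) (b (c (l 16327720) (l 16363048)) (c (a (l 16287208) (l 16360648)) (l 16175048)))) (a (b (a (b (l 16538880) (l 16587656)) (l 16319112)) (a (l 16349040) (l 16553832))) (b (c (l 16061096) (l 16046272)) (l 16215176))))), by decide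 +kernel⟩

def k31_pm_202 : ∃ t, chk3 f_pm_202 t 7 9 1 = true :=
  ⟨(a (a (b (b (b (c (a (l 15418408) (l 15373640)) (l 15360688)) (a (c (l 15405272) (l 15369112)) (l 15270360))) (a (l 15562032) (b (c (l 15280352) (l 15240696)) (l 15364416)))) (b (c (l 15600000) (l 15592968)) (a (l 16121536) (l 15870904)))) (a (b (b (c (b (l 15324472) (l 15237264)) (l 15241080)) (b (l 15134216) (a (l 15162992) (l 15061944)))) (b (l 15173728) (l 15599440))) (b (b (c (l 15219944) (l 15178928)) (c (l 15050592) (l 15004584))) (b (b (a (l 15005464) (l 14904160)) (l 15065344)) (l 15297840))))) (b (a (c (c (l 15063496) (l 15049016)) (b (l 15099456) (l 14923104))) (c (b (a (l 15063216) (l 14983048)) (l 14892672)) (b (a (b (l 15075384) (l 15003200)) (c (l 14954736) (l 14835864))) (a (l 14870320) (l 14838968))))) (a (b (a (b (l 14838264) (a (l 14845720) (l 14763128))) (l 14610328)) (a (c (l 15003640) (l 14956552)) (c (b (l 14707016) (l 14776288)) (b (l 14659920) (l 14730832))))) (c (a (b (l 14736888) (l 14604376))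 (l 14635168)) (a (b (l 14699584) (l 14562736)) (l 14590136)))))), by decide +kernel⟩

def k32_pm_202 : ∃ t, chk3 f_pm_202 t 2 10 1 = true :=
  ⟨(a (a (b (c (a (a (l 16080520) (l 16083184)) (b (c (l 16042192) (l 16032584)) (l 16149200))) (a (a (l 16062424) (l 16065160)) (c (l 16081728) (l 16072872)))) (a (a (l 3) (c (l 16338976) (l 16327600))) (c (a (l 16343808) (l 16348424)) (a (l 16332552) (l 16337288))))) (b (a (c (l 16124496) (l 16107544)) (b (c (l 16112032) (l 16094752)) (c (l 16211016) (l 16196304)))) (a (a (c (l 16317560) (l 16306712)) (l 16364464)) (a (l 16374824) (l 16385320))))) (b (a (a (b (l 16141712) (c (l 16240728) (l 16226800))) (c (b (a (l 16182208) (c (l 16198992) (l 16189440))) (l 16284592)) (b (c (l 16174208) (l 16165400)) (b (l 16247288) (l 16289872))))) (c (b (a (a (c (l 16217376) (l 16208168)) (l 16228960)) (a (l 16250672) (l 16270352))) (a (a (b (l 16280240) (l 16329056)) (l 16287608)) (a (l 16332136) (l 16350040)))) (a (b (l 16205872) (c (l 16297216) (l 16291344)))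 (b (l 16249192) (l 16331152))))) (b (a (a (l 16342976) (l 16370032)) (c (a (c (l 16406312) (l 16407096)) (b (l 16403960) (l 16443632))) (a (l 16356056) (l 16300872)))) (a (a (l 16461688) (l 16476216)) (a (l 16494560) (c (l 16517816) (l 16509208))))))), by decide +kernel⟩

def k33_pm_202 : ∃ t, chk3 f_pm_202 t 2 11 1 = true :=
  ⟨(a (a (a (l 3) (b (a (c (l 16582096) (l 16577024)) (c (l 16574784) (l 16591040))) (c (b (l 21642439335) (l 16777216)) (b (l 30769244871) (l 16777216))))) (a (b (c (b (l 16561656) (a (l 16672424) (l 16693888))) (b (l 16556056) (l 16639720))) (c (b (c (l 16762288) (l 16762088)) (l 16777216)) (b (c (l 16761896) (l 16761696)) (l 16777216)))) (b (b (l 16572912) (c (l 16660376) (l 16637456))) (c (b (b (l 16774592) (l 16776784)) (l 16777216)) (b (b (l 16774528) (l 16776776)) (l 16777216)))))) (a (b (a (l 16559640) (c (l 16651192) (l 16647912))) (c (l 16777024) (l 16777024))) (b (a (c (l 16656648) (l 16653520)) (c (l 16669280) (l 16545000))) (a (c (l 16777032) (l 16777032))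 (l 16777040))))), by decide +kernel⟩

def k34_pm_202 : ∃ t, chk3 f_pm_202 t 3 5 1 = true :=
  ⟨(a (b (a (a (b (c (b (a (l 16286496) (l 16307008)) (b (l 16351608) (l 16392768))) (b (l 16281832) (l 16361464))) (c (b (l 16454472) (l 16528280)) (b (l 16444712) (l 16518072)))) (b (c (l 16369408) (l 16358816)) (c (b (l 16465952) (l 16549136)) (b (l 16465952) (l 16546688))))) (b (a (b (c (l 16295888) (l 16287408)) (l 16464752)) (b (a (l 16500288) (l 16505416)) (a (l 16559360) (l 16571616)))) (a (l 16521240) (l 16630472)))) (b (a (c (a (b (l 16620744) (l 16719840)) (b (l 16628864) (l 16722296))) (a (b (l 16615528) (l 16717928)) (b (l 16632608) (l 16720024)))) (a (c (l 16589448) (b (l 16665744) (l 16752616))) (l 16656408))) (a (c (a (l 16777168) (l 16777160)) (c (l 16777056) (l 16777048))) (c (a (l 16687152) (l 16592528)) (a (b (l 16728184) (l 16727968)) (l 16587728)))))) (b (a (b (a (b (c (l 16208592) (l 16174480)) (a (l 16443728) (l 16376936))) (c (a (l 16027064) (l 15745296)) (a (l 15965096)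 (l 15717352)))) (c (a (l 16546392) (b (l 16083120) (l 16335776))) (a (a (l 16642936) (l 16494464)) (b (l 16006808) (l 16262736))))) (a (b (c (a (l 15444144) (l 15149408)) (b (l 15112968) (l 15408096))) (a (b (l 15839432) (l 16054576)) (c (l 15700368) (l 15680536)))) (b (b (a (c (l 14694608) (l 14654912)) (c (l 14486072) (b (l 14410032) (l 14429144)))) (c (l 14835456) (a (l 14956184) (l 14628520)))) (c (a (l 15407496) (l 15114656)) (a (l 15387808) (l 15018976)))))) (a (b (a (l 16495944) (l 16304144)) (a (l 16433752) (l 16246576))) (b (a (c (l 15902584) (b (l 16062288) (l 16055664))) (a (b (l 15540480) (l 15741624)) (c (l 15619392) (b (l 15493800) (l 15716872))))) (a (l 16030592) (c (l 15850176) (l 15845640))))))), by decide +kernel⟩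

def k35_pm_202 : ∃ t, chk3 f_pm_202 t 2 3 1 = true :=
  ⟨(b (b (b (a (a (a (l 3) (c (l 170355851271) (l 157470949383))) (c (c (a (l 16777216) (l 16777216)) (l 16777216)) (c (l 16777216) (a (l 16777216) (l 16777216))))) (a (a (b (l 16777216) (c (l 16777216) (l 16777216))) (l 16777216)) (c (l 16777216) (l 16777216)))) (a (a (l 3) (c (a (c (l 16777216) (l 16777216)) (c (l 16777216) (l 16777216))) (a (c (l 16777216) (l 16777216)) (c (l 16777216) (l 16777216))))) (a (c (a (c (l 16777216) (l 16777216)) (l 16777216)) (a (c (l 16777216) (l 16777216)) (l 16777216))) (c (l 16777216) (l 16777216))))) (a (a (l 3) (a (b (c (c (l 16777216) (l 16777216)) (l 123648081879)) (l 3)) (c (c (b (l 16777216) (l 16777216)) (b (l 16777216) (l 16777216))) (c (b (l 16777216) (l 16777216)) (b (l 16777216) (l 16777216)))))) (a (a (c (b (c (l 16777216) (l 16777216)) (c (l 16777216) (l 16777216))) (b (c (l 16777216) (l 16777216)) (c (l 16777216) (l 16777216)))) (a (c (b (l 16777216) (l 16777216)) (b (l 16777216) (l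 16777216))) (b (l 16777216) (c (l 16777216) (l 16777216))))) (c (l 16777216) (l 16777216))))) (a (l 2) (b (b (a (l 2) (a (l 2) (l 16777216))) (l 2)) (l 2)))), by decide +kernel⟩

def k36_pm_202 : ∃ t, chk3 f_pm_202 t 3 3 1 = true :=
  ⟨(a (b (a (c (b (a (l 16777216) (l 16777216)) (a (l 16777216) (l 16777216))) (b (a (l 16777216) (l 16777216)) (a (l 16777216) (l 16777216)))) (b (c (a (l 16729216) (l 16592424)) (a (l 16727968) (l 16587624))) (a (c (l 16729216) (l 16727968)) (b (l 16590024) (l 16590024))))) (b (a (c (l 16777216) (l 16777216)) (a (c (l 16729216) (l 16727968)) (b (l 16590024) (l 16590024)))) (l 2))) (b (a (b (a (a (l 16474560) (l 16391928)) (l 16246480)) (c (b (l 16179696) (l 16347472)) (a (l 16429248) (l 16239680)))) (b (a (l 16030512) (l 15704184)) (c (a (l 16045520) (l 15850352)) (a (l 16026520) (l 15845824))))) (c (a (b (l 16347472) (l 16347472)) (b (a (l 16045520) (l 15850352)) (l 15954576))) (a (b (l 16294360) (l 16273392)) (b (a (l 16026520) (l 15845824)) (l 15952016)))))),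 by decide +kernel⟩

theorem s37_pm_202 : ∃ t, chk3 f_pm_202 t 1 3 1 = true := ex3_a k35_pm_202 k36_pm_202

theorem s38_pm_202 : ∃ t, chk3 f_pm_202 t 2 5 1 = true := ex3_b k32_pm_202 k33_pm_202

theorem s39_pm_202 : ∃ t, chk3 f_pm_202 t 1 5 1 = true := ex3_a s38_pm_202 k34_pm_202

theorem s40_pm_202 : ∃ t, chk3 f_pm_202 t 3 9 1 = true := ex3_a k30_pm_202 k31_pm_202

theorem s41_pm_202 : ∃ t, chk3 f_pm_202 t 14 16 1 = true := ex3_b k26_pm_202 k27_pm_202

theorem s42_pm_202 : ∃ t, chk3 f_pm_202 t 7 16 1 = true := ex3_a s41_pm_202 k28_pm_202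

theorem s43_pm_202 : ∃ t, chk3 f_pm_202 t 7 8 1 = true := ex3_b s42_pm_202 k29_pm_202

theorem s44_pm_202 : ∃ t, chk3 f_pm_202 t 6 17 1 = true := ex3_a k24_pm_202 k25_pm_202

theorem s45_pm_202 : ∃ t, chk3 f_pm_202 t 6 33 1 = true := ex3_c k22_pm_202 k23_pm_202

theorem s46_pm_202 : ∃ t, chk3 f_pm_202 t 6 32 3 = true := ex3_c k20_pm_202 k21_pm_202

theorem s47_pm_202 : ∃ t, chk3 f_pm_202 t 6 32 2 = true := ex3_b k18_pm_202 k19_pm_202

theorem s48_pm_202 : ∃ t, chk3 f_pm_202 t 6 32 1 = true := ex3_c s47_pm_202 s46_pm_202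

theorem s49_pm_202 : ∃ t, chk3 f_pm_202 t 6 16 1 = true := ex3_b s48_pm_202 s45_pm_202

theorem s50_pm_202 : ∃ t, chk3 f_pm_202 t 6 8 1 = true := ex3_b s49_pm_202 s44_pm_202

theorem s51_pm_202 : ∃ t, chk3 f_pm_202 t 3 8 1 = true := ex3_a s50_pm_202 s43_pm_202

theorem s52_pm_202 : ∃ t, chk3 f_pm_202 t 3 4 1 = true := ex3_b s51_pm_202 s40_pm_202

theorem s53_pm_202 : ∃ t, chk3 f_pm_202 t 5 9 1 = true := ex3_b k16_pm_202 k17_pm_202

theorem s54_pm_202 : ∃ t, chk3 f_pm_202 t 4 9 1 = true := ex3_a k14_pm_202 k15_pm_202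

theorem s55_pm_202 : ∃ t, chk3 f_pm_202 t 2 9 1 = true := ex3_a s54_pm_202 s53_pm_202

theorem s56_pm_202 : ∃ t, chk3 f_pm_202 t 5 17 1 = true := ex3_c k12_pm_202 k13_pm_202

theorem s57_pm_202 : ∃ t, chk3 f_pm_202 t 8 17 1 = true := ex3_a k9_pm_202 k10_pm_202

theorem s58_pm_202 : ∃ t, chk3 f_pm_202 t 4 17 1 = true := ex3_a s57_pm_202 k11_pm_202

theorem s59_pm_202 : ∃ t, chk3 f_pm_202 t 2 17 1 = true := ex3_a s58_pm_202 s56_pm_202

theorem s60_pm_202 : ∃ t, chk3 f_pm_202 t 5 32 1 = true := ex3_c k6_pm_202 k7_pm_202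

theorem s61_pm_202 : ∃ t, chk3 f_pm_202 t 5 16 1 = true := ex3_b s60_pm_202 k8_pm_202

theorem s62_pm_202 : ∃ t, chk3 f_pm_202 t 9 32 1 = true := ex3_c k3_pm_202 k4_pm_202

theorem s63_pm_202 : ∃ t, chk3 f_pm_202 t 9 16 1 = true := ex3_b s62_pm_202 k5_pm_202

theorem s64_pm_202 : ∃ t, chk3 f_pm_202 t 8 32 1 = true := ex3_c k0_pm_202 k1_pm_202

theorem s65_pm_202 : ∃ t, chk3 f_pm_202 t 8 16 1 = true := ex3_b s64_pm_202 k2_pm_202

theorem s66_pm_202 : ∃ t, chk3 f_pm_202 t 4 16 1 = true := ex3_a s65_pm_202 s63_pm_202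

theorem s67_pm_202 : ∃ t, chk3 f_pm_202 t 2 16 1 = true := ex3_a s66_pm_202 s61_pm_202

theorem s68_pm_202 : ∃ t, chk3 f_pm_202 t 2 8 1 = true := ex3_b s67_pm_202 s59_pm_202

theorem s69_pm_202 : ∃ t, chk3 f_pm_202 t 2 4 1 = true := ex3_b s68_pm_202 s55_pm_202

theorem s70_pm_202 : ∃ t, chk3 f_pm_202 t 1 4 1 = true := ex3_a s69_pm_202 s52_pm_202

theorem s71_pm_202 : ∃ t, chk3 f_pm_202 t 1 2 1 = true := ex3_b s70_pm_202 s39_pm_202

theorem s72_pm_202 : ∃ t, chk3 f_pm_202 t 1 1 1 = true := ex3_b s71_pm_202 s37_pm_202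

theorem c_pm_202 : CertFX 0 536870912 1073741824 536870912 1046898278 26843546 false true false .pp 2 0 2
    ndF0q2 ndF6q2 pcF0 Cut.none Ext.none :=
  certFX1 (fam := false) (s1 := true) (s2 := false) (a := 2) (b := 0) (c := 2) (cn := .pp) (n1 := ndF0q2) (n2 := ndF6q2) (pc := pcF0) (cut := Cut.none) (xt := Ext.none) (P1 := 0) (W1 := 536870912) (P2 := 1073741824) (W2 := 536870912) (P3 := 1046898278) (W3 := 26843546)
    rfl (fun _ => rfl) s72_pm_202

noncomputable def f_pm_203 : ℕ → ℕ → ℕ → ℕ → Bool := onCell 0 536870912 0 1230186008 1046898278 26843546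
    (rowFX 0 false true false .up 2 0 3 (qsf 0 536870912 0 1230186008 0) ndF0q2 ndF6q3 pcF0 Cut.none Ext.none)

def k0_pm_203 : ∃ t, chk3 f_pm_203 t 1 2 1 = true :=
  ⟨(l 2), by decide +kernel⟩

def k1_pm_203 : ∃ t, chk3 f_pm_203 t 1 6 1 = true :=
  ⟨(l 2), by decide +kernel⟩

def k2_pm_203 : ∃ t, chk3 f_pm_203 t 1 14 1 = true :=
  ⟨(a (a (l 3) (b (l 2) (b (l 2) (a (a (l 3) (b (l 2) (c (c (l 68350377991) (l 67276636167)) (c (l 69960990727) (l 75866570759))))) (a (c (c (l 178341806087) (l 182636773383)) (c (l 185321127943) (l 185857998855))) (l 2)))))) (l 2)), by decide +kernel⟩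

def k3_pm_203 : ∃ t, chk3 f_pm_203 t 2 15 1 = true :=
  ⟨(a (b (l 3) (a (l 3) (a (l 3) (c (b (c (l 97878278151) (l 101636374535)) (c (c (l 16777216) (l 16777216)) (l 43117445127))) (b (c (l 16777216) (l 16777216)) (c (l 16777216) (l 16777216))))))) (b (a (c (a (c (b (l 37211865095) (a (l 16777216) (l 77477183495))) (b (l 60834185223) (a (l 16777216) (l 16777216)))) (c (b (a (l 81772150791) (l 16777216)) (c (l 16777216) (l 16777216))) (b (a (l 78014054407) (l 16777216)) (c (l 16777216) (l 16777216))))) (a (b (c (l 79624667143) (l 93583310855)) (c (l 51170508807) (l 54928605191))) (b (c (a (l 78550925319) (l 16777216)) (a (l 83382763527) (l 16777216))) (c (b (l 16777216) (l 16777216)) (b (l 16777216) (l 16777216)))))) (c (c (a (b (l 16777216) (l 16777216)) (b (l 16777216) (l 16777216))) (a (b (l 16777216) (l 16777216)) (b (l 16777216) (l 16777216)))) (c (a (b (l 16777216) (l 16777216)) (b (l 16777216) (l 16777216))) (a (b (l 16777216) (l 16777216)) (b (l 16777216) (l 16777216)))))) (b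 (c (c (a (a (a (l 72645345287) (l 16777216)) (l 16777216)) (a (l 16777216) (l 16777216))) (a (a (a (l 16777216) (l 16777216)) (l 16777216)) (a (l 16777216) (l 16777216)))) (a (a (c (l 75866570759) (l 81235279879)) (c (l 16777216) (l 16777216))) (c (a (l 16777216) (l 16777216)) (a (l 16777216) (l 16777216))))) (a (c (a (c (l 16777216) (l 16777216)) (c (l 16777216) (l 16777216))) (a (c (l 16777216) (l 16777216)) (c (l 16777216) (l 16777216)))) (a (c (c (l 16777216) (l 16777216)) (c (l 16777216) (l 16777216))) (l 16777216)))))), by decide +kernel⟩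

def k4_pm_203 : ∃ t, chk3 f_pm_203 t 3 15 1 = true :=
  ⟨(a (a (b (a (a (b (c (c (l 16777216) (l 16777216)) (c (l 16777216) (l 16777216))) (l 16777216)) (l 16777216)) (l 86536880119)) (c (l 16777216) (l 16777216))) (b (a (l 16728592) (l 16590024)) (a (c (l 16729216) (l 16727968)) (c (l 16592424) (l 16587624))))) (a (b (a (l 16433656) (l 2)) (a (c (l 16438056) (l 16429248)) (l 16246480))) (b (l 2) (a (l 16030512) (l 15850984))))), by decide +kernel⟩

theorem s5_pm_203 : ∃ t, chk3 f_pm_203 t 1 15 1 = true := ex3_a k3_pm_203 k4_pm_203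

theorem s6_pm_203 : ∃ t, chk3 f_pm_203 t 1 7 1 = true := ex3_b k2_pm_203 s5_pm_203

theorem s7_pm_203 : ∃ t, chk3 f_pm_203 t 1 3 1 = true := ex3_b k1_pm_203 s6_pm_203

theorem s8_pm_203 : ∃ t, chk3 f_pm_203 t 1 1 1 = true := ex3_b k0_pm_203 s7_pm_203

theorem c_pm_203 : CertFX 0 536870912 0 1230186008 1046898278 26843546 false true false .up 2 0 3
    ndF0q2 ndF6q3 pcF0 Cut.none Ext.none :=
  certFX0 (fam := false) (s1 := true) (s2 := false) (a := 2) (b := 0) (c := 3) (cn := .up) (n1 := ndF0q2) (n2 := ndF6q3) (pc := pcF0) (cut := Cut.none) (xt := Ext.none) (P1 := 0) (W1 := 536870912) (P2 := 0) (W2 := 1230186008) (P3 := 1046898278) (W3 := 26843546)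
    rfl s8_pm_203

noncomputable def cut_pm_213 : Cut := Cut.of [[⟨0, 1, 0, 67108864⟩, ⟨1, 1, 0, 67108864⟩, ⟨2, 2, 0, 67108864⟩, ⟨3, 0, 0, 1233125376⟩]]

noncomputable def f_pm_213 : ℕ → ℕ → ℕ → ℕ → Bool := onCell 0 536870912 0 1230186008 1046898278 26843546
    (rowFX 0 false true false .pnn 2 1 3 (qsf 0 536870912 0 1230186008 1) ndF0q2 ndF6q3 pcF1 cut_pm_213 Ext.none)

def k0_pm_213 : ∃ t, chk3 f_pm_213 t 2 2 1 = true :=
  ⟨(l 3), by decide +kernel⟩

def k1_pm_213 : ∃ t, chk3 f_pm_213 t 6 4 1 = true :=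
  ⟨(l 3), by decide +kernel⟩

def k2_pm_213 : ∃ t, chk3 f_pm_213 t 14 8 1 = true :=
  ⟨(l 3), by decide +kernel⟩

def k3_pm_213 : ∃ t, chk3 f_pm_213 t 28 9 1 = true :=
  ⟨(l 3), by decide +kernel⟩

def k4_pm_213 : ∃ t, chk3 f_pm_213 t 29 18 1 = true :=
  ⟨(a (l 3) (l 6)), by decide +kernel⟩

def k5_pm_213 : ∃ t, chk3 f_pm_213 t 58 19 1 = true :=
  ⟨(a (l 3) (b (l 3) (b (a (l 3) (a (l 3) (b (l 3) (c (c (c (b (l 265381564167) (a (l 242832972631) (l 166597328839))) (l 242296079399)) (l 248738494759)) (c (b (l 291688131335) (l 215989351031)) (l 269139485719)))))) (c (a (b (b (l 3) (c (l 277729578247) (l 286319471687))) (a (c (l 256791598423) (l 264307750343)) (c (l 169281673911) (l 180019049127)))) (b (c (c (a (a (l 235853643511) (l 200957066407)) (l 16536096)) (l 175724117255)) (a (l 224579347591) (l 16504400))) (c (l 16517440) (l 16492528)))) (a (b (a (l 3) (c (l 294372490583) (l 307257339191))) (a (c (l 272897643335) (l 283098138151)) (c (l 194514483479) (l 211694212471)))) (c (b (c (l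 190756445271) (l 198809455047)) (l 16467488)) (b (a (l 248201442343) (l 16449736)) (l 16437176)))))))), by decide +kernel⟩

def k6_pm_213 : ∃ t, chk3 f_pm_213 t 59 19 1 = true :=
  ⟨(b (b (a (l 3) (l 6)) (b (a (a (l 3) (a (l 3) (a (b (l 3) (c (c (c (l 244443630615) (l 250349171959)) (l 261623414647)) (c (l 269676475255) (l 289003714743)))) (b (l 6) (c (c (c (l 193440921463) (l 196125239799)) (l 199883295447)) (c (l 205788827447) (l 220284166167))))))) (l 6)) (a (a (a (l 3) (c (c (c (l 266455337447) (l 273434624791)) (l 283635132103)) (c (l 297593727623) (l 313162925783)))) (c (c (a (c (b (l 242296139575) (l 184850970999)) (c (a (l 239074880263) (l 209546970823)) (l 227263698759))) (c (b (l 169281719383) (l 16551712)) (c (l 166060459479) (l 167134182535)))) (a (b (l 257865315623) (l 192903967271)) (l 168744778407))) (a (c (c (l 241759139463) (l 247127821991)) (b (l 284171876951) (l 216526056615))) (c (c (l 16492368) (l 16477936)) (l 183240109191))))) (a (c (c (c (l 16544000) (l 16522696))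 (l 16496288)) (c (l 16463888) (l 16426848))) (l 6))))) (a (c (c (b (a (b (a (c (c (l 250349197687) (l 253033534631)) (l 258402221799)) (b (c (l 203641411895) (l 207936345591)) (c (l 156396792855) (l 16533384)))) (c (a (c (l 162302372119) (l 164449839063)) (l 16535392)) (l 160691727431))) (b (c (l 16561960) (l 16522816)) (l 16512744))) (a (b (l 16514408) (l 16496696)) (l 16484488))) (b (a (a (b (l 266992119287) (l 172502861719)) (c (l 175187236935) (l 178945308711))) (b (l 16500008) (l 16480568))) (a (l 16476944) (l 16451664)))) (b (c (b (a (c (l 228874237015) (l 234779791239)) (l 16512912)) (c (l 163376020535) (l 168207805431))) (c (a (b (l 241222210791) (l 16455400)) (l 16434584)) (a (b (l 247664588055) (l 16438992)) (l 16416376)))) (c (a (l 16448688) (l 16419328)) (a (l 16415416) (l 16382136))))) (c (b (c (a (b (l 16512632) (l 16492384)) (l 16482536)) (a (l 16465344) (l 16439896))) (c (l 16451888) (l 16411912))) (a (b (c (l 16430728) (l 16391384)) (l 16367848)) (c (l 16377424) (l 16332248)))))),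 by decide +kernel⟩

def k7_pm_213 : ∃ t, chk3 f_pm_213 t 15 4 1 = true :=
  ⟨(b (l 6) (b (l 6) (a (a (a (b (l 6) (c (b (l 16467896) (l 16380856)) (b (l 16325072) (l 16278688)))) (l 6)) (l 6)) (a (l 6) (a (b (l 6) (c (l 16135832) (l 15697088))) (c (b (c (l 16566680) (l 16249848)) (l 16143328)) (c (l 15741440) (l 15393768)))))))), by decide +kernel⟩

def k8_pm_213 : ∃ t, chk3 f_pm_213 t 12 5 1 = true :=
  ⟨(l 3), by decide +kernel⟩

def k9_pm_213 : ∃ t, chk3 f_pm_213 t 13 10 1 = true :=
  ⟨(a (l 3) (b (l 3) (a (l 3) (b (l 3) (b (l 3) (a (l 3) (a (a (l 3) (a (l 3) (b (l 3) (b (l 3) (c (c (c (l 314773648999) (l 320142378135)) (l 328732311367)) (c (l 341080340551) (l 353428348759))))))) (b (b (l 3) (a (l 3) (c (c (c (l 243906687367) (l 248738545079)) (l 256791606071)) (c (l 272360846487) (a (l 333564143959) (l 200420140615)))))) (c (c (c (a (b (l 276118969415) (a (b (l 278266447447) (l 129553198455)) (l 16544728))) (b (l 118815783879) (l 16540840))) (a (b (l 280950807527) (l 123110755831))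 (l 16542472))) (a (b (l 287393258135) (c (l 125795110327) (l 128479464983))) (c (l 16542224) (l 16541976)))) (c (a (b (l 297056934119) (c (l 131163819463) (l 132774432295))) (l 117205154775)) (c (b (l 240148608087) (l 139216856807)) (a (b (l 309404964551) (l 174650339383)) (l 16540992))))))))))))), by decide +kernel⟩

def k10_pm_213 : ∃ t, chk3 f_pm_213 t 13 22 1 = true :=
  ⟨(a (l 3) (b (a (l 3) (a (c (c (b (c (l 468855632199) (l 482277445687)) (a (l 446307120023) (l 138680070247))) (a (l 490867378551) (b (l 487646136135) (l 16576816)))) (c (a (l 519321555671) (b (l 515563421111) (l 16568144))) (a (l 548849432679) (b (l 544554426935) (l 16567336))))) (b (c (b (a (b (a (l 3) (a (b (l 3) (c (l 430200915543) (l 455433845863))) (c (c (b (b (l 255717860503) (l 207399470343)) (l 16541928)) (b (l 234779890247) (l 16541304))) (b (c (l 239074856999) (l 241222341591)) (l 16519400))))) (a (c (l 439864600823) (l 465097531239)) (c (l 148343679703) (l 16543040)))) (c (b (a (b (c (l 16540616) (l 16540144))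 (l 16537240)) (l 16534624)) (a (l 16535592) (l 16528816))) (b (b (l 16537648) (l 16534296)) (a (l 16534448) (l 16527864))))) (c (a (b (l 174650343495) (l 16549920)) (l 16531536)) (a (l 171965985607) (l 16530544)))) (c (b (a (a (l 507510329639) (b (b (a (l 3) (l 246054179799)) (l 221358121719)) (l 16541848))) (b (b (l 16536912) (l 16533376)) (l 16509552))) (a (l 16526552) (l 16529552))) (b (a (a (l 535964485431) (b (b (a (l 3) (c (l 255180974343) (l 257865326391))) (a (l 505362823463) (l 16537872))) (l 16540656))) (b (c (l 16534592) (l 16534184)) (l 16508520))) (a (l 16525488) (l 16528560))))) (c (c (l 16542312) (l 16541608)) (c (l 16540904) (l 16540192)))))) (a (a (c (l 537038429095) (l 605221032727)) (c (b (b (l 504826104471) (l 188609175079)) (l 16618808)) (c (l 490867417175) (l 522005929815)))) (c (c (l 16543192) (l 16564008)) (c (l 16563856) (l 16563704)))))), by decide +kernel⟩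

def k11_pm_213 : ∃ t, chk3 f_pm_213 t 13 23 1 = true :=
  ⟨(a (b (a (l 3) (a (l 3) (c (l 294909684263) (a (l 372219125111) (l 182166792311))))) (a (a (l 3) (b (l 3) (c (l 147807177863) (l 118816146375)))) (c (c (l 192367365399) (l 190219880775)) (c (l 189146096023) (l 189682964311))))) (c (b (a (b (l 188072257479) (l 16630984)) (l 16559360)) (a (l 16628440) (l 16555600))) (b (a (b (l 215989535207) (l 16628384)) (l 16556144)) (a (l 16624984) (l 16550736))))), by decide +kernel⟩

def k12_pm_213 : ∃ t, chk3 f_pm_213 t 28 20 1 = true :=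
  ⟨(a (l 3) (a (b (l 3) (b (l 3) (b (a (l 3) (c (c (l 229948015591) (a (l 278266380023) (l 203104486919))) (c (l 244980338215) (a (l 299741144375) (l 226189761607))))) (c (a (c (l 262160283367) (l 269139581191)) (c (l 16513448) (l 162302289079))) (a (c (l 277192612151) (l 286319384007)) (c (l 16481800) (l 177334494935))))))) (b (a (l 3) (b (l 3) (b (l 3) (c (c (l 239611706519) (l 247664738983)) (c (l 256791506039) (a (l 313699790135) (l 245517109415))))))) (c (c (b (a (b (l 264307773799) (l 196125192439)) (l 155859876167)) (a (l 16501216) (l 16483296))) (c (b (a (l 233169226039) (l 16497568)) (l 16480784)) (b (a (l 236927307095) (l 162839152647)) (l 16471360)))) (c (b (a (b (l 284708803671) (l 213304963095)) (l 169818412791)) (a (l 16466096) (l 16444424))) (c (b (a (l 251959631943) (l 175187071863)) (l 16439352)) (b (a (b (l 300814880119) (l 224042257767)) (l 182166275287)) (l 16407712)))))))), by decide +kernel⟩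

def k13_pm_213 : ∃ t, chk3 f_pm_213 t 56 21 1 = true :=
  ⟨(b (b (a (l 3) (a (l 3) (c (a (c (l 277729554711) (l 286319468631)) (c (l 221894963495) (l 229411134151))) (c (b (l 313162985287) (l 237464171239)) (b (l 324437245255) (l 243906594727)))))) (a (a (l 3) (c (c (c (l 292761966551) (l 297593799351)) (l 305646850343)) (c (l 316921120679) (l 328732240951)))) (c (c (b (a (a (l 3) (l 235316744455)) (l 16542200)) (c (l 135458783271) (l 137069396311))) (a (b (l 264307763511) (l 165523538951)) (l 16506792))) (c (a (b (l 272897675463) (l 175724045783)) (l 16494664)) (a (b (l 282024458343) (l 184313905799)) (l 142974799511)))))) (c (a (b (a (b (l 3) (c (c (a (l 294909449367) (l 186998381335)) (l 250349152919)) (a (l 308868083271) (l 191830229735)))) (c (c (b (l 213305048407) (l 16531688)) (b (l 216526268967) (l 16529360))) (b (a (l 258939068343) (l 16527008)) (l 16524768)))) (c (b (a (c (a (b (l 205788882679) (l 16541120)) (l 16535576)) (l 125258236439)) (l 16523160)) (c (l 16524520) (l 16523464)))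 (a (b (a (l 150491169015) (l 16531392)) (l 16530032)) (l 16515992)))) (c (b (c (l 16511496) (l 16508168)) (l 16495336)) (b (l 16501592) (l 16489696)))) (a (b (a (b (l 3) (c (a (l 321216105335) (l 204178238487)) (c (l 274508319975) (l 278266411559)))) (b (a (c (l 268065859415) (l 277192650487)) (c (l 16519128) (l 171429039191))) (c (l 16518632) (l 16512504)))) (c (a (b (a (l 161228574087) (l 16527824)) (l 16528480)) (l 16512224)) (a (b (c (l 148343625239) (l 149954234407)) (l 16526936)) (l 16508464)))) (c (b (l 16492728) (l 16483872)) (b (a (l 16494168) (l 16473408)) (l 16478040)))))), by decide +kernel⟩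

def k14_pm_213 : ∃ t, chk3 f_pm_213 t 57 21 1 = true :=
  ⟨(c (b (a (c (b (a (b (l 183240284455) (l 16512672)) (l 16499616)) (l 16491088)) (b (a (b (l 188072106967) (l 16500592)) (l 16485888)) (l 16478744))) (c (l 16463080) (l 16447176))) (c (a (b (l 16475096) (l 16460776)) (l 16430384)) (a (l 16457968) (l 16417888)))) (b (a (c (b (a (b (l 198272587415) (l 16485432)) (l 16468840)) (l 16464440)) (a (b (c (l 179482093799) (l 184850705015)) (l 16461136)) (l 16444768))) (c (l 16428672) (l 16410048))) (c (a (l 16447800) (l 16404720)) (a (l 16437632) (l 16391544))))), by decide +kernel⟩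

def k15_pm_213 : ∃ t, chk3 f_pm_213 t 29 10 1 = true :=
  ⟨(b (a (b (b (c (c (a (a (l 280413935607) (b (a (l 305109987943) (l 234779879159)) (a (l 185924664807) (l 16520776)))) (a (b (l 142974987847) (l 16505120)) (l 16492016))) (a (a (l 289003837383) (b (l 258939042279) (l 177334696951))) (a (l 145659308183) (l 16466200)))) (a (a (a (l 3) (c (l 295983112439) (l 308867967495))) (b (a (c (l 309941751671) (l 323363475831)) (c (l 247127847319) (l 258402067303))) (c (a (l 222431773687) (l 16478472)) (a (l 234242809159) (l 16451984))))) (c (a (b (l 164449701127) (l 16458168)) (l 16439192)) (a (b (l 180555660135) (l 16429512)) (l 16407776))))) (c (c (a (a (b (l 201493867223) (l 16513896)) (l 16502552)) (l 16469944)) (a (a (b (l 206325732647) (l 16495992)) (l 16482240)) (l 16445064))) (c (a (a (b (l 219747424775) (l 16474576)) (l 16459016)) (l 16417536)) (a (a (b (a (l 271286974983) (l 199346193735)) (l 16450368)) (l 16432552)) (l 16386856))))) (c (a (c (b (l 16482112) (l 16454744)) (b (l 16483128)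 (l 16434216))) (c (l 16423248) (l 16397520))) (a (b (c (l 16438320) (l 16412672)) (c (l 16409680) (l 16384368))) (b (l 16368392) (l 16339240))))) (c (b (a (c (l 16441120) (l 16409352)) (c (l 16393544) (l 16353440))) (a (l 16399928) (l 16302344))) (b (a (c (l 16376032) (l 16339184)) (l 16373744)) (a (l 16289520) (l 16220280))))) (c (a (b (a (c (l 16423816) (l 16404264)) (l 16363720)) (a (l 16381976) (l 16330896))) (b (l 16427120) (l 16245432))) (a (b (a (c (l 16382136) (l 16359888)) (l 16312576)) (a (l 16349560) (l 16291016))) (b (l 16213816) (l 16192536))))), by decide +kernel⟩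

def k16_pm_213 : ∃ t, chk3 f_pm_213 t 15 10 1 = true :=
  ⟨(a (b (c (a (b (a (l 16317656) (l 16267392)) (a (l 16242672) (l 16187952))) (b (c (l 16224960) (l 16149984)) (c (l 16132440) (l 16067576)))) (a (b (a (l 16215432) (l 16142800)) (l 16108848)) (b (l 16027072) (l 15956648)))) (c (a (b (l 16221416) (l 16120824)) (b (l 16203944) (l 16101024))) (a (b (l 16067128) (l 16047712)) (b (l 15918264) (l 15903808))))) (b (c (a (a (a (l 16162904) (l 16021960)) (l 16201000)) (b (a (l 15968992) (l 15924088)) (l 15814576))) (a (b (l 15822600) (l 15759672)) (b (a (l 15617824) (l 15442752)) (a (l 15568920) (l 15410024))))) (a (c (b (a (l 15928632) (l 15850096)) (l 15849144)) (b (l 15731144) (l 15727368))) (c (b (l 15731648) (l 15687144)) (b (a (l 15555568) (l 15413456)) (a (l 15566944) (l 15439528))))))), by decide +kernel⟩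

def k17_pm_213 : ∃ t, chk3 f_pm_213 t 7 11 1 = true :=
  ⟨(a (b (a (b (a (c (b (a (b (c (l 16516976) (l 16516248)) (c (l 16531760) (l 16509952))) (c (l 16481720) (l 16478832))) (a (c (l 16505776) (l 16505344)) (b (l 16472088) (l 16468784)))) (b (a (b (c (l 16515520) (l 16514792)) (c (l 16509696) (l 16509432))) (c (l 16475944) (l 16473056))) (a (c (l 16504904) (l 16504464)) (b (l 16470072) (l 16468144))))) (a (c (b (l 16444432) (l 16433560)) (b (l 16433000) (l 16427480))) (c (l 16379040) (l 16385480)))) (a (c (b (l 16486976) (l 16485416)) (b (l 16486368) (l 16483360))) (c (b (a (l 16427000) (l 16387152)) (l 16404008)) (b (a (l 16424408) (l 16380672)) (l 16400624))))) (a (b (c (a (l 16357912) (l 16306600)) (a (l 16337280) (l 16279272))) (c (b (l 16319944) (l 16315112)) (b (l 16304856) (l 16305440)))) (c (b (l 16220736) (l 16206080)) (b (l 16182096) (l 16180920))))) (a (c (b (a (l 16482144) (l 16401040)) (l 16438960)) (b (l 16437088) (l 16432200))) (b (a (c (b (l 16312768) (l 16310992))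 (l 16304600)) (c (b (l 16203272) (l 16203936)) (b (l 16187696) (l 16192928)))) (c (l 16258064) (l 16249000))))) (b (a (c (a (b (l 16095856) (l 16082592)) (b (l 15971856) (l 15961320))) (b (a (l 16040496) (l 15902672)) (a (l 16043352) (l 15912456)))) (c (a (b (a (l 15864000) (l 15786056)) (l 15821160)) (b (l 15670616) (l 15673184))) (a (b (l 15737816) (l 15758520)) (b (a (l 15591648) (l 15480048)) (l 15578336))))) (a (b (a (c (l 16082920) (l 16058592)) (c (l 15965216) (l 15934224))) (a (c (b (l 16091696) (l 16098664)) (b (l 16077360) (l 16088104))) (l 15977904))) (c (a (l 15843064) (l 15708456)) (a (l 15813904) (l 15656504)))))), by decide +kernel⟩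

def k18_pm_213 : ∃ t, chk3 f_pm_213 t 2 6 1 = true :=
  ⟨(a (l 3) (b (l 3) (a (l 3) (a (l 3) (b (l 3) (b (a (l 3) (c (c (l 125795565559) (b (l 98952019927) (l 101099503623))) (c (b (l 98952019927) (l 110226309127)) (b (l 101636374487) (l 120426856455))))) (c (c (a (l 82309021703) (l 16777216)) (a (l 87677730823) (l 146733531143))) (c (c (l 108615696391) (l 112910663687)) (c (l 117742501895) (l 123111211015)))))))))), by decide +kernel⟩

def k19_pm_213 : ∃ t, chk3 f_pm_213 t 6 12 1 = true :=
  ⟨(a (b (a (l 3) (a (l 3) (b (l 3) (c (c (l 150491627383) (l 144586047351)) (c (l 139217338183) (l 133848629063)))))) (a (a (l 3) (b (l 3) (c (c (l 91972697959) (l 90362085223)) (c (l 90898956135) (l 93583310695))))) (c (a (b (c (l 101636374343) (l 101636374343)) (c (l 174650818407) (l 173577076583))) (b (c (l 193441300295) (l 189683203911)) (c (l 16777160) (l 16777152)))) (a (b (c (l 101636374295) (l 102710116183)) (c (l 174113947495) (l 176261431143))) (b (c (l 189146332951) (l 191293816663)) (c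 (l 16777152) (l 16777152))))))) (b (a (c (c (a (b (a (l 16752928) (l 16746904)) (l 16760496)) (l 16698024)) (a (b (a (l 151028474039) (l 16746520)) (l 186461917719)) (b (l 16696992) (l 16697008)))) (a (b (a (c (l 144049146039) (l 133311727223)) (c (l 16746136) (l 16745752))) (a (c (l 16773840) (l 16773808)) (l 16745952))) (b (c (l 16696016) (l 16695032)) (l 16695472)))) (c (a (l 16628712) (l 16556128)) (a (l 16625080) (l 16550888)))) (a (c (a (b (a (l 16773920) (l 16746760)) (l 16760392)) (b (l 16697520) (l 16697512))) (a (b (a (l 16773840) (l 16745976)) (l 16759960)) (b (l 16695456) (l 16695448)))) (c (l 16592512) (b (l 16587744) (l 16587680)))))), by decide +kernel⟩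

def k20_pm_213 : ∃ t, chk3 f_pm_213 t 6 13 1 = true :=
  ⟨(a (b (c (c (a (b (a (l 16777176) (l 126332436375)) (a (l 94120181655) (l 16777200))) (b (l 16777176) (l 16777200))) (a (b (a (l 42043703143) (l 126332436327)) (a (a (l 71571603271) (l 101636374343)) (l 16777200))) (b (l 16777176) (l 16777200)))) (a (c (b (a (l 43117444967) (l 127943049063)) (a (a (l 80698408775) (l 107541954375)) (l 16777200))) (a (b (l 52781121383) (a (l 91435827015) (l 117742501703))) (b (l 132774887271) (a (l 16777200) (l 16777200))))) (b (a (c (l 16777176) (l 16777176)) (l 16777176)) (c (l 16777200) (l 16777200))))) (b (c (a (b (a (c (l 16777216) (l 16777216)) (l 16777216)) (c (l 16777216) (l 16777216))) (c (l 16777216) (l 16777216))) (a (c (a (b (l 16777216) (l 16777216)) (l 16777216)) (a (b (l 186998849495) (l 16777216)) (l 16777216))) (c (l 16777216) (l 16777216)))) (c (a (c (l 16777216) (l 16777216)) (l 16777216)) (a (a (b (l 16777216) (l 16777216)) (l 16777216)) (c (l 16777216) (l 16777216)))))) (c (b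 (a (b (l 16729248) (l 16729224)) (l 16592448)) (a (b (l 16729216) (l 16729216)) (b (l 16592424) (l 16592424)))) (b (a (a (b (l 16759944) (l 16759920)) (l 16695416)) (l 16587648)) (a (b (l 16727968) (l 16727968)) (b (l 16587624) (l 16587624)))))), by decide +kernel⟩

def k21_pm_213 : ∃ t, chk3 f_pm_213 t 7 6 1 = true :=
  ⟨(b (a (b (a (c (l 16439968) (l 16432464)) (c (b (l 16259648) (l 16259368)) (b (l 16249816) (l 16248312)))) (a (c (b (l 16439056) (l 16438160)) (b (l 16430624) (l 16429368))) (b (a (l 16304056) (l 16197680)) (l 16248096)))) (b (b (a (a (l 16033568) (l 16002832)) (c (l 15838456) (l 15829952))) (a (l 16045672) (c (l 15865944) (l 15865736)))) (a (l 16039424) (c (l 15866800) (l 15865808))))) (a (a (b (c (l 16438080) (l 16429272)) (l 16433656)) (l 16204584)) (b (a (l 16031776) (l 15751416)) (a (l 16030512) (l 15850992))))), by decide +kernel⟩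

def k22_pm_213 : ∃ t, chk3 f_pm_213 t 2 7 1 = true :=
  ⟨(a (b (l 3) (l 1)) (b (a (a (l 3) (b (l 3) (b (b (l 3) (c (c (l 99488890887) (l 107541954567)) (c (l 108615696391) (l 103246987271)))) (b (c (c (l 45801799687) (l 46875541511)) (c (l 51170508807) (l 58686701575))) (c (c (l 68350377991) (l 67813507079)) (c (l 70497861639) (l 76403441671))))))) (a (a (b (a (l 3) (b (l 3) (c (c (l 16777216) (l 47412412423)) (c (l 68350377991) (l 96804536327))))) (c (b (c (b (l 80161538055) (l 16777216)) (b (l 84456505351) (l 16777216))) (c (l 16777216) (l 16777216))) (b (c (b (l 91435827207) (l 16777216)) (b (l 101099503623) (l 16777216))) (c (l 16777216) (l 16777216))))) (b (c (b (c (l 16777216) (l 52244250631)) (c (c (l 16777216) (l 16777216)) (b (l 102710116359) (l 16777216)))) (b (c (l 63518539783) (l 86067118087)) (c (b (l 109689438215) (l 16777216)) (b (l 117205630983) (l 16777216))))) (c (b (c (b (l 16777216) (l 16777216)) (b (l 16777216) (l 16777216))) (c (l 16777216) (l 16777216))) (b (c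 (b (l 16777216) (l 16777216)) (b (l 16777216) (l 16777216))) (c (l 16777216) (l 16777216)))))) (b (c (b (c (a (l 16777216) (l 16777216)) (a (l 115595018247) (l 16777216))) (c (a (l 16777216) (l 16777216)) (a (l 16777216) (l 16777216)))) (b (c (a (l 130627403783) (l 16777216)) (c (l 146196660231) (l 154249723911))) (c (c (l 16777216) (l 16777216)) (c (l 16777216) (l 16777216))))) (c (c (b (a (l 16777216) (l 16777216)) (l 16777216)) (b (a (l 16777216) (l 16777216)) (l 16777216))) (c (b (a (l 16777216) (l 16777216)) (l 16777216)) (b (a (l 16777216) (l 16777216)) (l 16777216))))))) (b (b (a (l 1) (c (a (c (l 16777216) (l 16777216)) (c (l 16777216) (l 16777216))) (a (c (l 16777216) (l 16777216)) (c (l 16777216) (l 16777216))))) (l 1)) (l 1)))), by decide +kernel⟩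

def k23_pm_213 : ∃ t, chk3 f_pm_213 t 3 7 1 = true :=
  ⟨(b (a (a (a (b (c (b (c (l 16777216) (l 16777216)) (c (l 16777216) (l 16777216))) (b (c (l 16777216) (l 16777216)) (c (l 16777216) (l 16777216)))) (c (b (c (l 16777216) (l 16777216)) (c (l 16777216) (l 16777216))) (b (c (l 16777216) (l 16777216)) (c (l 16777216) (l 16777216))))) (b (c (b (l 16777216) (l 16777216)) (b (l 16777216) (c (l 16777216) (l 16777216)))) (b (c (b (l 16777216) (l 16777216)) (c (l 16777216) (l 16777216))) (l 16777216)))) (b (a (c (b (l 16729216) (l 16729216)) (b (l 16727968) (l 16727968))) (l 16590024)) (c (l 16662200) (l 16659216)))) (a (a (b (l 16433656) (l 16433656)) (b (l 16246480) (l 16246480))) (a (l 15988568) (b (l 15850984) (l 15850984))))) (b (a (a (a (b (c (c (l 16777216) (l 16777216)) (c (l 16777216) (l 16777216))) (l 1)) (l 16777216)) (a (l 16728592) (l 16590024))) (a (a (l 16433656) (l 16246480)) (a (l 16030512) (l 15850984)))) (a (l 1) (a (a (l 665752609447) (l 16246480)) (a (l 16030512) (l 15850984)))))),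 by decide +kernel⟩

theorem s24_pm_213 : ∃ t, chk3 f_pm_213 t 1 7 1 = true := ex3_a k22_pm_213 k23_pm_213

theorem s25_pm_213 : ∃ t, chk3 f_pm_213 t 6 6 1 = true := ex3_b k19_pm_213 k20_pm_213

theorem s26_pm_213 : ∃ t, chk3 f_pm_213 t 3 6 1 = true := ex3_a s25_pm_213 k21_pm_213

theorem s27_pm_213 : ∃ t, chk3 f_pm_213 t 1 6 1 = true := ex3_a k18_pm_213 s26_pm_213

theorem s28_pm_213 : ∃ t, chk3 f_pm_213 t 1 3 1 = true := ex3_b s27_pm_213 s24_pm_213

theorem s29_pm_213 : ∃ t, chk3 f_pm_213 t 28 21 1 = true := ex3_a k13_pm_213 k14_pm_213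

theorem s30_pm_213 : ∃ t, chk3 f_pm_213 t 28 10 1 = true := ex3_b k12_pm_213 s29_pm_213

theorem s31_pm_213 : ∃ t, chk3 f_pm_213 t 14 10 1 = true := ex3_a s30_pm_213 k15_pm_213

theorem s32_pm_213 : ∃ t, chk3 f_pm_213 t 7 10 1 = true := ex3_a s31_pm_213 k16_pm_213

theorem s33_pm_213 : ∃ t, chk3 f_pm_213 t 7 5 1 = true := ex3_b s32_pm_213 k17_pm_213

theorem s34_pm_213 : ∃ t, chk3 f_pm_213 t 13 11 1 = true := ex3_b k10_pm_213 k11_pm_213

theorem s35_pm_213 : ∃ t, chk3 f_pm_213 t 13 5 1 = true := ex3_b k9_pm_213 s34_pm_213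

theorem s36_pm_213 : ∃ t, chk3 f_pm_213 t 6 5 1 = true := ex3_a k8_pm_213 s35_pm_213

theorem s37_pm_213 : ∃ t, chk3 f_pm_213 t 3 5 1 = true := ex3_a s36_pm_213 s33_pm_213

theorem s38_pm_213 : ∃ t, chk3 f_pm_213 t 29 19 1 = true := ex3_a k5_pm_213 k6_pm_213

theorem s39_pm_213 : ∃ t, chk3 f_pm_213 t 29 9 1 = true := ex3_b k4_pm_213 s38_pm_213

theorem s40_pm_213 : ∃ t, chk3 f_pm_213 t 14 9 1 = true := ex3_a k3_pm_213 s39_pm_213

theorem s41_pm_213 : ∃ t, chk3 f_pm_213 t 14 4 1 = true := ex3_b k2_pm_213 s40_pm_213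

theorem s42_pm_213 : ∃ t, chk3 f_pm_213 t 7 4 1 = true := ex3_a s41_pm_213 k7_pm_213

theorem s43_pm_213 : ∃ t, chk3 f_pm_213 t 3 4 1 = true := ex3_a k1_pm_213 s42_pm_213

theorem s44_pm_213 : ∃ t, chk3 f_pm_213 t 3 2 1 = true := ex3_b s43_pm_213 s37_pm_213

theorem s45_pm_213 : ∃ t, chk3 f_pm_213 t 1 2 1 = true := ex3_a k0_pm_213 s44_pm_213

theorem s46_pm_213 : ∃ t, chk3 f_pm_213 t 1 1 1 = true := ex3_b s45_pm_213 s28_pm_213

theorem c_pm_213 : CertFX 0 536870912 0 1230186008 1046898278 26843546 false true false .pnn 2 1 3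
    ndF0q2 ndF6q3 pcF1 cut_pm_213 Ext.none :=
  certFX0 (fam := false) (s1 := true) (s2 := false) (a := 2) (b := 1) (c := 3) (cn := .pnn) (n1 := ndF0q2) (n2 := ndF6q3) (pc := pcF1) (cut := cut_pm_213) (xt := Ext.none) (P1 := 0) (W1 := 536870912) (P2 := 0) (W2 := 1230186008) (P3 := 1046898278) (W3 := 26843546)
    rfl s46_pm_213

noncomputable def f_mm_001 : ℕ → ℕ → ℕ → ℕ → Bool := onCell 0 536870912 0 536870912 1046898278 26843546
    (rowFX 1 false false false .up 0 0 1 (qsf 0 536870912 536870912 469762048 0) ndF0q0 ndF6q1 pcF0 Cut.none Ext.none)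

def k0_mm_001 : ∃ t, chk3 f_mm_001 t 1 1 1 = true :=
  ⟨(l 3), by decide +kernel⟩

theorem c_mm_001 : CertFX 0 536870912 536870912 469762048 1046898278 26843546 false false false .up 0 0 1
    ndF0q0 ndF6q1 pcF0 Cut.none Ext.none :=
  certFX1 (fam := false) (s1 := false) (s2 := false) (a := 0) (b := 0) (c := 1) (cn := .up) (n1 := ndF0q0) (n2 := ndF6q1) (pc := pcF0) (cut := Cut.none) (xt := Ext.none) (P1 := 0) (W1 := 536870912) (P2 := 536870912) (W2 := 469762048) (P3 := 1046898278) (W3 := 26843546)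
    rfl (fun _ => rfl) k0_mm_001

noncomputable def f_mm_011 : ℕ → ℕ → ℕ → ℕ → Bool := onCell 0 536870912 536870912 536870912 1046898278 26843546
    (rowFX 1 false false false .pnn 0 1 1 (qsf 0 536870912 536870912 469762048 1) ndF0q0 ndF6q1 pcF1 Cut.none Ext.none)

def k0_mm_011 : ∃ t, chk3 f_mm_011 t 1 1 1 = true :=
  ⟨(l 5), by decide +kernel⟩

theorem c_mm_011 : CertFX 0 536870912 536870912 469762048 1046898278 26843546 false false false .pnn 0 1 1
    ndF0q0 ndF6q1 pcF1 Cut.none Ext.none :=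
  certFX1 (fam := false) (s1 := false) (s2 := false) (a := 0) (b := 1) (c := 1) (cn := .pnn) (n1 := ndF0q0) (n2 := ndF6q1) (pc := pcF1) (cut := Cut.none) (xt := Ext.none) (P1 := 0) (W1 := 536870912) (P2 := 536870912) (W2 := 469762048) (P3 := 1046898278) (W3 := 26843546)
    rfl (fun _ => rfl) k0_mm_011

noncomputable def f_mm_012 : ℕ → ℕ → ℕ → ℕ → Bool := onCell 0 536870912 1073741824 536870912 1046898278 26843546
    (rowFX 0 false false false .pnp 0 1 2 (qsf 0 536870912 1073741824 536870912 1) ndF0q0 ndF6q2 pcF1 Cut.none Ext.none)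

def k0_mm_012 : ∃ t, chk3 f_mm_012 t 1 1 1 = true :=
  ⟨(l 5), by decide +kernel⟩

theorem c_mm_012 : CertFX 0 536870912 1073741824 536870912 1046898278 26843546 false false false .pnp 0 1 2
    ndF0q0 ndF6q2 pcF1 Cut.none Ext.none :=
  certFX0 (fam := false) (s1 := false) (s2 := false) (a := 0) (b := 1) (c := 2) (cn := .pnp) (n1 := ndF0q0) (n2 := ndF6q2) (pc := pcF1) (cut := Cut.none) (xt := Ext.none) (P1 := 0) (W1 := 536870912) (P2 := 1073741824) (W2 := 536870912) (P3 := 1046898278) (W3 := 26843546)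
    rfl k0_mm_012

noncomputable def f_mm_022 : ℕ → ℕ → ℕ → ℕ → Bool := onCell 0 536870912 1073741824 536870912 1046898278 26843546
    (rowFX 0 false false false .pp 0 2 2 (qsf 0 536870912 1073741824 536870912 2) ndF0q0 ndF6q2 pcF2 Cut.none Ext.none)

def k0_mm_022 : ∃ t, chk3 f_mm_022 t 1 1 1 = true :=
  ⟨(l 5), by decide +kernel⟩

theorem c_mm_022 : CertFX 0 536870912 1073741824 536870912 1046898278 26843546 false false false .pp 0 2 2
    ndF0q0 ndF6q2 pcF2 Cut.none Ext.none :=
  certFX0 (fam := false) (s1 := false) (s2 := false) (a := 0) (b := 2) (c := 2) (cn := .pp) (n1 := ndF0q0) (n2 := ndF6q2) (pc := pcF2) (cut := Cut.none) (xt := Ext.none) (P1 := 0) (W1 := 536870912) (P2 := 1073741824) (W2 := 536870912) (P3 := 1046898278) (W3 := 26843546)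
    rfl k0_mm_022

noncomputable def f_mm_023 : ℕ → ℕ → ℕ → ℕ → Bool := onCell 0 536870912 0 1230186008 1046898278 26843546
    (rowFX 0 false false false .up 0 2 3 (qsf 0 536870912 0 1230186008 2) ndF0q0 ndF6q3 pcF2 Cut.none Ext.none)

def k0_mm_023 : ∃ t, chk3 f_mm_023 t 1 1 1 = true :=
  ⟨(l 5), by decide +kernel⟩

theorem c_mm_023 : CertFX 0 536870912 0 1230186008 1046898278 26843546 false false false .up 0 2 3
    ndF0q0 ndF6q3 pcF2 Cut.none Ext.none :=
  certFX0 (fam := false) (s1 := false) (s2 := false) (a := 0) (b := 2) (c := 3) (cn := .up) (n1 := ndF0q0) (n2 := ndF6q3) (pc := pcF2) (cut := Cut.none) (xt := Ext.none) (P1 := 0) (W1 := 536870912) (P2 := 0) (W2 := 1230186008) (P3 := 1046898278) (W3 := 26843546)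
    rfl k0_mm_023

noncomputable def f_mm_033 : ℕ → ℕ → ℕ → ℕ → Bool := onCell 0 536870912 0 1230186008 1046898278 26843546
    (rowFX 0 false false false .pnn 0 3 3 (qsf 0 536870912 0 1230186008 3) ndF0q0 ndF6q3 pcF3 Cut.none Ext.none)

def k0_mm_033 : ∃ t, chk3 f_mm_033 t 1 1 1 = true :=
  ⟨(l 5), by decide +kernel⟩

theorem c_mm_033 : CertFX 0 536870912 0 1230186008 1046898278 26843546 false false false .pnn 0 3 3
    ndF0q0 ndF6q3 pcF3 Cut.none Ext.none :=
  certFX0 (fam := false) (s1 := false) (s2 := false) (a := 0) (b := 3) (c := 3) (cn := .pnn) (n1 := ndF0q0) (n2 := ndF6q3) (pc := pcF3) (cut := Cut.none) (xt := Ext.none) (P1 := 0) (W1 := 536870912) (P2 := 0) (W2 := 1230186008) (P3 := 1046898278) (W3 := 26843546)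
    rfl k0_mm_033

noncomputable def f_mm_101 : ℕ → ℕ → ℕ → ℕ → Bool := onCell 0 536870912 536870912 469762048 1046898278 26843546
    (rowFX 2 false false false .npn 1 0 1 (qsf 536870912 536870912 536870912 469762048 0) ndF0q1 ndF6q1 pcF0 Cut.none Ext.none)

def k0_mm_101 : ∃ t, chk3 f_mm_101 t 1 1 1 = true :=
  ⟨(l 3), by decide +kernel⟩

theorem c_mm_101 : CertFX 536870912 536870912 536870912 469762048 1046898278 26843546 false false false .npn 1 0 1
    ndF0q1 ndF6q1 pcF0 Cut.none Ext.none :=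
  certFX2 (fam := false) (s1 := false) (s2 := false) (a := 1) (b := 0) (c := 1) (cn := .npn) (n1 := ndF0q1) (n2 := ndF6q1) (pc := pcF0) (cut := Cut.none) (xt := Ext.none) (P1 := 536870912) (W1 := 536870912) (P2 := 536870912) (W2 := 469762048) (P3 := 1046898278) (W3 := 26843546)
    rfl (fun _ => rfl) k0_mm_101

noncomputable def f_mm_102 : ℕ → ℕ → ℕ → ℕ → Bool := onCell 536870912 536870912 1073741824 536870912 1046898278 26843546
    (rowFX 0 false false false .npp 1 0 2 (qsf 536870912 536870912 1073741824 536870912 0) ndF0q1 ndF6q2 pcF0 Cut.none Ext.none)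

def k0_mm_102 : ∃ t, chk3 f_mm_102 t 1 1 1 = true :=
  ⟨(l 3), by decide +kernel⟩

theorem c_mm_102 : CertFX 536870912 536870912 1073741824 536870912 1046898278 26843546 false false false .npp 1 0 2
    ndF0q1 ndF6q2 pcF0 Cut.none Ext.none :=
  certFX0 (fam := false) (s1 := false) (s2 := false) (a := 1) (b := 0) (c := 2) (cn := .npp) (n1 := ndF0q1) (n2 := ndF6q2) (pc := pcF0) (cut := Cut.none) (xt := Ext.none) (P1 := 536870912) (W1 := 536870912) (P2 := 1073741824) (W2 := 536870912) (P3 := 1046898278) (W3 := 26843546)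
    rfl k0_mm_102

noncomputable def f_mm_112 : ℕ → ℕ → ℕ → ℕ → Bool := onCell 536870912 536870912 1073741824 536870912 1046898278 26843546
    (rowFX 0 false false false .dn 1 1 2 (qsf 536870912 536870912 1073741824 536870912 1) ndF0q1 ndF6q2 pcF1 Cut.none Ext.none)

def k0_mm_112 : ∃ t, chk3 f_mm_112 t 1 1 1 = true :=
  ⟨(l 3), by decide +kernel⟩

theorem c_mm_112 : CertFX 536870912 536870912 1073741824 536870912 1046898278 26843546 false false false .dn 1 1 2
    ndF0q1 ndF6q2 pcF1 Cut.none Ext.none :=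
  certFX0 (fam := false) (s1 := false) (s2 := false) (a := 1) (b := 1) (c := 2) (cn := .dn) (n1 := ndF0q1) (n2 := ndF6q2) (pc := pcF1) (cut := Cut.none) (xt := Ext.none) (P1 := 536870912) (W1 := 536870912) (P2 := 1073741824) (W2 := 536870912) (P3 := 1046898278) (W3 := 26843546)
    rfl k0_mm_112

noncomputable def f_mm_113 : ℕ → ℕ → ℕ → ℕ → Bool := onCell 536870912 536870912 0 1230186008 1046898278 26843546
    (rowFX 0 false false false .nn 1 1 3 (qsf 536870912 536870912 0 1230186008 1) ndF0q1 ndF6q3 pcF1 Cut.none Ext.none)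

def k0_mm_113 : ∃ t, chk3 f_mm_113 t 1 1 1 = true :=
  ⟨(b (l 5) (a (l 5) (b (l 5) (l 3)))), by decide +kernel⟩

theorem c_mm_113 : CertFX 536870912 536870912 0 1230186008 1046898278 26843546 false false false .nn 1 1 3
    ndF0q1 ndF6q3 pcF1 Cut.none Ext.none :=
  certFX0 (fam := false) (s1 := false) (s2 := false) (a := 1) (b := 1) (c := 3) (cn := .nn) (n1 := ndF0q1) (n2 := ndF6q3) (pc := pcF1) (cut := Cut.none) (xt := Ext.none) (P1 := 536870912) (W1 := 536870912) (P2 := 0) (W2 := 1230186008) (P3 := 1046898278) (W3 := 26843546)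
    rfl k0_mm_113

noncomputable def f_mm_123 : ℕ → ℕ → ℕ → ℕ → Bool := onCell 1073741824 536870912 0 1230186008 1046898278 26843546
    (rowFX 2 false false false .npn 1 2 3 (qsf 536870912 536870912 0 1230186008 2) ndF0q1 ndF6q3 pcF2 Cut.none Ext.none)

def k0_mm_123 : ∃ t, chk3 f_mm_123 t 1 1 1 = true :=
  ⟨(b (l 5) (l 5)), by decide +kernel⟩

theorem c_mm_123 : CertFX 536870912 536870912 0 1230186008 1046898278 26843546 false false false .npn 1 2 3
    ndF0q1 ndF6q3 pcF2 Cut.none Ext.none :=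
  certFX2 (fam := false) (s1 := false) (s2 := false) (a := 1) (b := 2) (c := 3) (cn := .npn) (n1 := ndF0q1) (n2 := ndF6q3) (pc := pcF2) (cut := Cut.none) (xt := Ext.none) (P1 := 536870912) (W1 := 536870912) (P2 := 0) (W2 := 1230186008) (P3 := 1046898278) (W3 := 26843546)
    rfl (fun _ => rfl) k0_mm_123

noncomputable def f_mm_133 : ℕ → ℕ → ℕ → ℕ → Bool := onCell 1610612736 536870912 0 1230186008 1046898278 26843546
    (rowFX 2 false false false .dn 1 3 3 (qsf 536870912 536870912 0 1230186008 3) ndF0q1 ndF6q3 pcF3 Cut.none Ext.none)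

def k0_mm_133 : ∃ t, chk3 f_mm_133 t 1 1 1 = true :=
  ⟨(l 5), by decide +kernel⟩

theorem c_mm_133 : CertFX 536870912 536870912 0 1230186008 1046898278 26843546 false false false .dn 1 3 3
    ndF0q1 ndF6q3 pcF3 Cut.none Ext.none :=
  certFX2 (fam := false) (s1 := false) (s2 := false) (a := 1) (b := 3) (c := 3) (cn := .dn) (n1 := ndF0q1) (n2 := ndF6q3) (pc := pcF3) (cut := Cut.none) (xt := Ext.none) (P1 := 536870912) (W1 := 536870912) (P2 := 0) (W2 := 1230186008) (P3 := 1046898278) (W3 := 26843546)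
    rfl (fun _ => rfl) k0_mm_133

noncomputable def f_mm_202 : ℕ → ℕ → ℕ → ℕ → Bool := onCell 0 536870912 0 536870912 1046898278 26843546
    (rowFX 1 false false false .pp 2 0 2 (qsf 0 536870912 1073741824 536870912 0) ndF0q2 ndF6q2 pcF0 Cut.none Ext.none)

def k0_mm_202 : ∃ t, chk3 f_mm_202 t 16 8 4 = true :=
  ⟨(a (b (b (c (b (b (l 16051104) (l 16017064)) (b (l 15956360) (c (l 15873952) (l 15874216)))) (b (b (l 16051800) (l 15981896)) (b (b (l 15982856) (l 15940360)) (l 15873456)))) (b (b (c (l 15806504) (l 15809872)) (c (b (l 15776120) (l 15723552)) (l 15758728))) (b (a (l 15743936) (l 15720760)) (a (l 15694032) (l 15679520))))) (b (b (a (b (l 15654568) (l 15614680)) (l 15615672)) (a (l 15561208) (c (l 15526976) (l 15541864)))) (b (b (a (l 15509312) (c (l 15484864) (l 15500072))) (c (l 15459912) (l 15472728))) (c (b (c (l 15410664) (l 15440160)) (a (l 15412920) (l 15395896))) (l 15420640))))) (b (b (b (b (l 16028752) (l 15968480)) (b (a (b (l 15923904) (l 15881312)) (b (l 15897104)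 (l 15867408))) (a (c (l 15832600) (l 15840184)) (l 15832336)))) (b (b (c (l 15792664) (l 15798432)) (a (b (l 15763312) (l 15741224)) (l 15736960))) (a (b (l 15705648) (l 15655248)) (l 15671072)))) (b (b (a (c (l 15590128) (l 15598888)) (l 15587608)) (b (a (l 15543528) (l 15528944)) (l 15509504))) (c (b (l 15462408) (a (l 15393168) (l 3))) (b (a (l 15466472) (l 15460744)) (l 15412744)))))), by decide +kernel⟩

def k1_mm_202 : ∃ t, chk3 f_mm_202 t 16 8 5 = true :=
  ⟨(b (a (b (b (b (b (l 16057224) (c (l 16048040) (l 16040960))) (c (b (l 16035680) (l 16020432)) (b (a (l 16055944) (l 16031976)) (c (b (l 16029664) (l 16018328)) (a (l 16034792) (l 16010120)))))) (b (c (b (a (c (l 16009648) (l 16005232)) (l 15965752)) (l 15937264)) (a (c (l 15963464) (l 15947792)) (l 15914176))) (c (c (l 15870112) (l 15866216)) (a (b (l 15880672) (l 15849360)) (l 15861080))))) (b (b (c (l 15814248) (l 15821528)) (l 15769408)) (c (b (l 15734160) (l 15697544)) (b (l 15743608) (l 15707776))))) (b (b (b (b (l 16041880)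 (a (l 16030224) (l 16010512))) (c (l 15970816) (a (b (l 16010480) (l 15973176)) (l 15958216)))) (b (a (c (l 15905392) (l 15905760)) (c (l 15885816) (l 15889328))) (a (l 15852560) (l 15843360)))) (b (b (a (l 15805576) (l 15806840)) (a (l 15768184) (l 15744624))) (c (l 15684240) (l 15696848))))) (b (b (c (a (l 15635984) (l 15621872)) (a (a (l 15664904) (l 15641200)) (l 15528280))) (c (c (b (l 15575112) (l 15549800)) (l 15502864)) (l 15563152))) (a (b (l 15484040) (l 15407504)) (l 15436592)))), by decide +kernel⟩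

def k2_mm_202 : ∃ t, chk3 f_mm_202 t 17 8 2 = true :=
  ⟨(a (b (b (b (b (a (l 16016288) (l 16016896)) (c (l 15955120) (a (l 15881408) (l 15949496)))) (c (b (l 15893152) (l 15841256)) (b (l 15890896) (l 15841080)))) (c (b (c (l 15769368) (l 15770032)) (l 15672064)) (b (c (l 15772584) (l 15778848)) (c (l 15680728) (l 15694784))))) (b (b (c (l 15596472) (c (l 15615424) (l 15628504))) (l 3)) (l 3))) (l 3)), by decide +kernel⟩

def k3_mm_202 : ∃ t, chk3 f_mm_202 t 8 8 3 = true :=
  ⟨(a (c (b (b (b (b (a (l 16074288) (c (l 16032248) (c (l 16031976) (l 15948736)))) (c (a (a (l 16034392) (b (c (l 16037464) (l 16038552)) (c (l 16000144) (l 15985264)))) (b (a (c (l 16017232) (l 16015632)) (l 15983008)) (a (c (l 15974384) (l 15967984)) (l 15939288)))) (b (a (l 16033416) (c (b (l 16007088) (l 15987384)) (l 15986096))) (b (l 15950344) (l 15901624))))) (c (b (a (b (c (l 15944912) (l 15933440)) (l 15902344)) (b (l 15829032) (l 15881648))) (l 15853072)) (a (l 15900880) (l 15882072)))) (b (c (b (l 15818480)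 (l 15683064)) (b (l 15829480) (l 15774736))) (c (a (b (l 15753936) (l 15713144)) (l 15707584)) (l 15612952)))) (b (b (a (l 15660720) (l 15632072)) (l 15551872)) (c (l 15362648) (l 15438224)))) (b (b (b (b (c (a (l 16076176) (c (l 15948544) (l 15907456))) (b (l 16033296) (l 16040176))) (c (l 15872432) (l 15989320))) (c (a (l 15913432) (l 15889800)) (l 15896288))) (c (a (l 15763008) (l 15751736)) (a (l 15756496) (l 15745736)))) (b (b (l 15625552) (l 15537136)) (l 15383816)))) (a (b (b (b (c (b (b (l 16020976) (b (l 15956464) (c (l 15983384) (l 15916888)))) (a (c (b (l 15957304) (l 15927576)) (b (a (l 15961760) (l 15956144)) (l 15935600))) (l 15947328))) (b (c (b (l 16017064) (c (a (l 15994184) (l 15989072)) (l 15944336))) (b (c (l 16016400) (l 16018752)) (l 15990944))) (c (l 15950464) (l 15956208)))) (c (c (l 15872096) (l 15879816)) (c (l 15887896) (l 15887888)))) (c (b (c (l 15788408) (l 15798640)) (c (l 15707192) (l 15710000))) (l 15755504))) (c (l 15485728) (l 15491240))) (l 3))), by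 decide +kernel⟩

def k4_mm_202 : ∃ t, chk3 f_mm_202 t 8 9 1 = true :=
  ⟨(a (a (b (c (b (b (a (c (l 15392288) (l 15373984)) (c (l 15345824) (l 15348080))) (a (l 15444256) (l 15413432))) (a (l 15558048) (l 15538616))) (b (b (a (l 15346848) (l 15320448)) (l 15366808)) (a (l 15526328) (l 15506440)))) (b (c (l 15712800) (l 15685152)) (l 3))) (a (b (b (c (b (b (l 15316440) (l 15346480)) (l 15401224)) (l 15336832)) (l 3)) (l 3)) (l 3))) (l 3)), by decide +kernel⟩

def k5_mm_202 : ∃ t, chk3 f_mm_202 t 9 4 1 = true :=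
  ⟨(l 3), by decide +kernel⟩

def k6_mm_202 : ∃ t, chk3 f_mm_202 t 5 4 1 = true :=
  ⟨(l 3), by decide +kernel⟩

def k7_mm_202 : ∃ t, chk3 f_mm_202 t 2 5 1 = true :=
  ⟨(l 3), by decide +kernel⟩

def k8_mm_202 : ∃ t, chk3 f_mm_202 t 2 3 1 = true :=
  ⟨(l 3), by decide +kernel⟩

def k9_mm_202 : ∃ t, chk3 f_mm_202 t 3 1 1 = true :=
  ⟨(l 3), by decide +kernel⟩

theorem s10_mm_202 : ∃ t, chk3 f_mm_202 t 16 8 2 = true := ex3_c k0_mm_202 k1_mm_202

theorem s11_mm_202 : ∃ t, chk3 f_mm_202 t 8 8 2 = true := ex3_a s10_mm_202 k2_mm_202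

theorem s12_mm_202 : ∃ t, chk3 f_mm_202 t 8 8 1 = true := ex3_c s11_mm_202 k3_mm_202

theorem s13_mm_202 : ∃ t, chk3 f_mm_202 t 8 4 1 = true := ex3_b s12_mm_202 k4_mm_202

theorem s14_mm_202 : ∃ t, chk3 f_mm_202 t 4 4 1 = true := ex3_a s13_mm_202 k5_mm_202

theorem s15_mm_202 : ∃ t, chk3 f_mm_202 t 2 4 1 = true := ex3_a s14_mm_202 k6_mm_202

theorem s16_mm_202 : ∃ t, chk3 f_mm_202 t 2 2 1 = true := ex3_b s15_mm_202 k7_mm_202

theorem s17_mm_202 : ∃ t, chk3 f_mm_202 t 2 1 1 = true := ex3_b s16_mm_202 k8_mm_202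

theorem s18_mm_202 : ∃ t, chk3 f_mm_202 t 1 1 1 = true := ex3_a s17_mm_202 k9_mm_202

theorem c_mm_202 : CertFX 0 536870912 1073741824 536870912 1046898278 26843546 false false false .pp 2 0 2
    ndF0q2 ndF6q2 pcF0 Cut.none Ext.none :=
  certFX1 (fam := false) (s1 := false) (s2 := false) (a := 2) (b := 0) (c := 2) (cn := .pp) (n1 := ndF0q2) (n2 := ndF6q2) (pc := pcF0) (cut := Cut.none) (xt := Ext.none) (P1 := 0) (W1 := 536870912) (P2 := 1073741824) (W2 := 536870912) (P3 := 1046898278) (W3 := 26843546)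
    rfl (fun _ => rfl) s18_mm_202

noncomputable def f_mm_203 : ℕ → ℕ → ℕ → ℕ → Bool := onCell 0 536870912 0 1230186008 1046898278 26843546
    (rowFX 0 false false false .up 2 0 3 (qsf 0 536870912 0 1230186008 0) ndF0q2 ndF6q3 pcF0 Cut.none Ext.none)

def k0_mm_203 : ∃ t, chk3 f_mm_203 t 1 1 1 = true :=
  ⟨(b (l 2) (a (l 3) (l 3))), by decide +kernel⟩

theorem c_mm_203 : CertFX 0 536870912 0 1230186008 1046898278 26843546 false false false .up 2 0 3
    ndF0q2 ndF6q3 pcF0 Cut.none Ext.none :=
  certFX0 (fam := false) (s1 := false) (s2 := false) (a := 2) (b := 0) (c := 3) (cn := .up) (n1 := ndF0q2) (n2 := ndF6q3) (pc := pcF0) (cut := Cut.none) (xt := Ext.none) (P1 := 0) (W1 := 536870912) (P2 := 0) (W2 := 1230186008) (P3 := 1046898278) (W3 := 26843546)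
    rfl k0_mm_203

noncomputable def f_mm_213 : ℕ → ℕ → ℕ → ℕ → Bool := onCell 0 536870912 0 1230186008 1046898278 26843546
    (rowFX 0 false false false .pnn 2 1 3 (qsf 0 536870912 0 1230186008 1) ndF0q2 ndF6q3 pcF1 Cut.none Ext.none)

def k0_mm_213 : ∃ t, chk3 f_mm_213 t 1 1 1 = true :=
  ⟨(b (a (l 3) (b (l 5) (l 3))) (b (l 3) (l 3))), by decide +kernel⟩

theorem c_mm_213 : CertFX 0 536870912 0 1230186008 1046898278 26843546 false false false .pnn 2 1 3
    ndF0q2 ndF6q3 pcF1 Cut.none Ext.none :=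
  certFX0 (fam := false) (s1 := false) (s2 := false) (a := 2) (b := 1) (c := 3) (cn := .pnn) (n1 := ndF0q2) (n2 := ndF6q3) (pc := pcF1) (cut := Cut.none) (xt := Ext.none) (P1 := 0) (W1 := 536870912) (P2 := 0) (W2 := 1230186008) (P3 := 1046898278) (W3 := 26843546)
    rfl k0_mm_213

end Pool.Agent.Strip051.G.IE1.Tab.C.FB06

namespace Pool.Agent.Strip051.G.IE1.Tab.C.FB07

open Pool.Agent.Strip051.PB Pool.Agent.Strip051.PB.T
open Pool.Agent.Strip051.G.IE1.Tab

noncomputable def cut_pp_001 : Cut := Cut.of [[⟨3, 0, 0, 1449551462⟩]]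

noncomputable def f_pp_001 : ℕ → ℕ → ℕ → ℕ → Bool := onCell 0 536870912 536870912 536870912 1046898278 26843546
    (rowFX 0 false true true .up 0 0 1 (qsf 0 536870912 536870912 536870912 0) ndF0q0 ndF7q1 pcF0 cut_pp_001 Ext.none)

def k0_pp_001 : ∃ t, chk3 f_pp_001 t 1 1 1 = true :=
  ⟨(l 6), by decide +kernel⟩

theorem c_pp_001 : CertFX 0 536870912 536870912 536870912 1046898278 26843546 false true true .up 0 0 1
    ndF0q0 ndF7q1 pcF0 cut_pp_001 Ext.none :=
  certFX0 (fam := false) (s1 := true) (s2 := true) (a := 0) (b := 0) (c := 1) (cn := .up) (n1 := ndF0q0) (n2 := ndF7q1) (pc := pcF0) (cut := cut_pp_001) (xt := Ext.none) (P1 := 0) (W1 := 536870912) (P2 := 536870912) (W2 := 536870912) (P3 := 1046898278) (W3 := 26843546)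
    rfl k0_pp_001

noncomputable def cut_pp_011 : Cut := Cut.of [[⟨3, 0, 0, 1449551462⟩], [⟨0, 0, 0, 67108864⟩, ⟨1, 1, 0, 67108864⟩, ⟨2, 1, 0, 67108864⟩]]

noncomputable def f_pp_011 : ℕ → ℕ → ℕ → ℕ → Bool := onCell 0 536870912 536870912 536870912 1046898278 26843546
    (rowFX 0 false true true .pnn 0 1 1 (qsf 0 536870912 536870912 536870912 1) ndF0q0 ndF7q1 pcF1 cut_pp_011 Ext.none)

def k0_pp_011 : ∃ t, chk3 f_pp_011 t 1 1 1 = true :=
  ⟨(l 6), by decide +kernel⟩

theorem c_pp_011 : CertFX 0 536870912 536870912 536870912 1046898278 26843546 false true true .pnn 0 1 1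
    ndF0q0 ndF7q1 pcF1 cut_pp_011 Ext.none :=
  certFX0 (fam := false) (s1 := true) (s2 := true) (a := 0) (b := 1) (c := 1) (cn := .pnn) (n1 := ndF0q0) (n2 := ndF7q1) (pc := pcF1) (cut := cut_pp_011) (xt := Ext.none) (P1 := 0) (W1 := 536870912) (P2 := 536870912) (W2 := 536870912) (P3 := 1046898278) (W3 := 26843546)
    rfl k0_pp_011

noncomputable def cut_pp_012 : Cut := Cut.of [[⟨3, 0, 0, 1449551462⟩], [⟨0, 0, 0, 67108864⟩, ⟨1, 1, 0, 67108864⟩, ⟨2, 1, 0, 67108864⟩]]

noncomputable def f_pp_012 : ℕ → ℕ → ℕ → ℕ → Bool := onCell 0 536870912 536870912 536870912 1046898278 26843546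
    (rowFX 1 false true true .pnp 0 1 2 (qsf 0 536870912 1073741824 536870912 1) ndF0q0 ndF7q2 pcF1 cut_pp_012 Ext.none)

def k0_pp_012 : ∃ t, chk3 f_pp_012 t 1 1 1 = true :=
  ⟨(l 6), by decide +kernel⟩

theorem c_pp_012 : CertFX 0 536870912 1073741824 536870912 1046898278 26843546 false true true .pnp 0 1 2
    ndF0q0 ndF7q2 pcF1 cut_pp_012 Ext.none :=
  certFX1 (fam := false) (s1 := true) (s2 := true) (a := 0) (b := 1) (c := 2) (cn := .pnp) (n1 := ndF0q0) (n2 := ndF7q2) (pc := pcF1) (cut := cut_pp_012) (xt := Ext.none) (P1 := 0) (W1 := 536870912) (P2 := 1073741824) (W2 := 536870912) (P3 := 1046898278) (W3 := 26843546)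
    rfl (fun _ => rfl) k0_pp_012

noncomputable def cut_pp_022 : Cut := Cut.of [[⟨3, 0, 0, 1449551462⟩], [⟨0, 0, 0, 67108864⟩, ⟨1, 1, 0, 67108864⟩, ⟨2, 1, 0, 67108864⟩]]

noncomputable def f_pp_022 : ℕ → ℕ → ℕ → ℕ → Bool := onCell 0 536870912 1073741824 536870912 1046898278 26843546
    (rowFX 0 false true true .pp 0 2 2 (qsf 0 536870912 1073741824 536870912 2) ndF0q0 ndF7q2 pcF2 cut_pp_022 Ext.none)

def k0_pp_022 : ∃ t, chk3 f_pp_022 t 1 1 1 = true :=
  ⟨(a (b (l 6) (a (b (b (a (a (b (l 6) (a (c (l 14999208) (l 14976080)) (c (l 15115096) (l 15115768)))) (l 6)) (l 6)) (b (a (c (a (c (l 14887680) (l 14877536)) (b (l 6) (l 15149528))) (a (c (l 14872456) (l 14867768)) (l 15150864))) (l 6)) (a (c (a (l 14867920) (c (l 15145760) (l 15149096))) (a (l 14854024) (l 15131104))) (a (c (l 15440344) (l 15416312)) (l 6))))) (a (c (b (a (l 14867920) (c (l 15145760) (l 15149096))) (a (l 14867920) (l 15149528))) (b (a (l 14854024) (l 15131104)) (l 14758392))) (c (b (a (b (l 15440344) (l 15440344)) (b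 (l 6) (l 15791688))) (a (l 15440344) (l 15791688))) (b (a (l 15416312) (l 15766096)) (l 15591368))))) (b (l 6) (b (l 6) (a (c (a (l 16080000) (l 16337824)) (a (l 16061896) (l 16326416))) (l 6)))))) (l 6)), by decide +kernel⟩

theorem c_pp_022 : CertFX 0 536870912 1073741824 536870912 1046898278 26843546 false true true .pp 0 2 2
    ndF0q0 ndF7q2 pcF2 cut_pp_022 Ext.none :=
  certFX0 (fam := false) (s1 := true) (s2 := true) (a := 0) (b := 2) (c := 2) (cn := .pp) (n1 := ndF0q0) (n2 := ndF7q2) (pc := pcF2) (cut := cut_pp_022) (xt := Ext.none) (P1 := 0) (W1 := 536870912) (P2 := 1073741824) (W2 := 536870912) (P3 := 1046898278) (W3 := 26843546)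
    rfl k0_pp_022

noncomputable def cut_pp_023 : Cut := Cut.of [[⟨3, 0, 0, 1449551462⟩]]

noncomputable def f_pp_023 : ℕ → ℕ → ℕ → ℕ → Bool := onCell 1073741824 536870912 0 1230186008 1046898278 26843546
    (rowFX 2 false true true .up 0 2 3 (qsf 0 536870912 0 1230186008 2) ndF0q0 ndF7q3 pcF2 cut_pp_023 Ext.none)

def k0_pp_023 : ∃ t, chk3 f_pp_023 t 2 1 1 = true :=
  ⟨(b (l 2) (l 6)), by decide +kernel⟩

def k1_pp_023 : ∃ t, chk3 f_pp_023 t 6 1 1 = true :=
  ⟨(b (l 2) (a (b (b (l 2) (l 6)) (l 6)) (b (b (c (b (l 193374191623) (l 255651217415)) (b (l 162772549639) (c (l 16777216) (l 16777216)))) (c (a (b (l 16777216) (l 16777216)) (b (l 16777216) (l 16777216))) (b (c (l 16777216) (l 16777216)) (b (l 16777216) (l 16777216))))) (b (b (c (c (l 16777216) (l 16777216)) (c (l 16777216) (l 16777216))) (c (c (l 16777216) (l 16777216)) (c (l 16777216) (l 16777216)))) (b (c (b (l 16776288) (a (l 16775512) (l 16702208))) (b (l 16776264) (a (l 16775464) (l 16700264)))) (b (c (a (l 16694608) (l 16501776))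 (a (l 16692456) (l 16494616))) (c (l 16208320) (l 16134440)))))))), by decide +kernel⟩

def k2_pp_023 : ∃ t, chk3 f_pp_023 t 7 1 1 = true :=
  ⟨(a (b (b (l 2) (b (b (l 2) (c (l 16777216) (l 16777216))) (c (b (c (l 16777216) (l 16777216)) (l 16777216)) (b (l 16777216) (l 16777216))))) (b (b (c (b (l 16777216) (l 16777216)) (b (l 16777216) (l 16777216))) (c (b (l 16777216) (l 16777216)) (b (l 16777216) (l 16777216)))) (b (b (c (l 16777216) (c (l 16777216) (l 16777216))) (c (b (l 16774304) (l 16724600)) (b (l 16774224) (a (l 16774992) (l 16693440))))) (b (b (c (l 16602376) (a (l 16700528) (l 16503672))) (c (l 16350352) (l 16298416))) (b (c (l 16123576) (l 16064648)) (c (a (l 15957688) (l 15669104)) (l 15664176))))))) (b (b (b (l 16717832) (c (l 16693184) (l 16691000))) (b (c (b (l 16753616) (l 16777216)) (b (l 16753008) (l 16777216))) (c (b (l 16777216) (l 16777216)) (b (l 16777216) (l 16777216))))) (b (b (b (c (l 16777216) (l 16777216)) (c (l 16777216) (l 16777216))) (b (c (l 16777216)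 (l 16777216)) (c (l 16777216) (l 16777216)))) (b (b (c (b (l 16763776) (l 16700296)) (b (l 16763424) (l 16698296))) (c (b (l 16574168) (l 16375184)) (b (l 16547920) (l 16301824)))) (b (c (b (l 16134112) (l 15838864)) (b (l 16117408) (l 15814488))) (b (c (a (l 15676032) (l 15375768)) (l 15495088)) (c (a (l 15341408) (l 15039008)) (a (l 15322424) (l 15031136))))))))), by decide +kernel⟩

theorem s3_pp_023 : ∃ t, chk3 f_pp_023 t 3 1 1 = true := ex3_a k1_pp_023 k2_pp_023

theorem s4_pp_023 : ∃ t, chk3 f_pp_023 t 1 1 1 = true := ex3_a k0_pp_023 s3_pp_023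

theorem c_pp_023 : CertFX 0 536870912 0 1230186008 1046898278 26843546 false true true .up 0 2 3
    ndF0q0 ndF7q3 pcF2 cut_pp_023 Ext.none :=
  certFX2 (fam := false) (s1 := true) (s2 := true) (a := 0) (b := 2) (c := 3) (cn := .up) (n1 := ndF0q0) (n2 := ndF7q3) (pc := pcF2) (cut := cut_pp_023) (xt := Ext.none) (P1 := 0) (W1 := 536870912) (P2 := 0) (W2 := 1230186008) (P3 := 1046898278) (W3 := 26843546)
    rfl (fun _ => rfl) s4_pp_023

noncomputable def cut_pp_033 : Cut := Cut.of [[⟨3, 0, 0, 1449551462⟩]]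

noncomputable def f_pp_033 : ℕ → ℕ → ℕ → ℕ → Bool := onCell 0 536870912 0 1230186008 1046898278 26843546
    (rowFX 0 false true true .pnn 0 3 3 (qsf 0 536870912 0 1230186008 3) ndF0q0 ndF7q3 pcF3 cut_pp_033 Ext.none)

def k0_pp_033 : ∃ t, chk3 f_pp_033 t 4 2 1 = true :=
  ⟨(b (l 4) (a (b (b (l 4) (b (l 4) (a (l 4) (a (l 4) (c (l 160219253671) (l 15193544)))))) (b (a (b (a (l 4) (a (l 4) (c (l 14955856) (l 14951280)))) (c (a (b (l 14804792) (l 14804536)) (l 14920344)) (a (c (l 14774976) (l 14767368)) (l 14871992)))) (c (a (b (c (l 15062680) (l 15075496)) (l 15069240)) (l 15115160)) (b (a (l 15061296) (l 15193544)) (l 15131104)))) (a (b (c (a (l 14804288) (l 14920416)) (a (l 14773680) (l 14914104))) (c (a (l 14804848) (l 14920408)) (a (l 14774528) (l 14914088)))) (b (c (a (l 15069232) (l 15220016)) (l 15131096)) (c (l 15107576) (l 15131088)))))) (a (b (b (l 4) (c (a (b (l 15365224) (l 15365232)) (l 15534632)) (b (a (l 15328992) (l 15502352)) (l 15416312)))) (b (c (a (l 15365232) (l 15534640))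 (a (l 15329000) (l 15502360))) (c (b (l 15440352) (l 15440344)) (l 15416304)))) (b (c (b (b (l 198874935575) (a (l 15707008) (l 15870864))) (b (l 15791704) (l 15791712))) (b (b (l 191358742295) (a (l 15675000) (l 15843280))) (b (l 15766104) (l 15766104)))) (b (c (b (l 15791712) (l 15791704)) (b (l 15766104) (l 15766104))) (l 15778896)))))), by decide +kernel⟩

def k1_pp_033 : ∃ t, chk3 f_pp_033 t 5 2 1 = true :=
  ⟨(b (b (b (l 4) (a (l 4) (a (l 4) (c (l 16683912) (l 16679184))))) (b (a (l 4) (c (a (l 16514184) (l 16673160)) (a (l 16489488) (l 16669072)))) (a (a (a (l 4) (c (l 16129680) (l 16075248))) (c (l 16308128) (c (l 16277672) (l 16257376)))) (a (c (l 16528544) (l 16507424)) (c (l 16692048) (l 16688512)))))) (b (a (c (b (a (b (l 16069840) (l 16077384)) (l 16328152)) (a (l 16080016) (l 16337832))) (b (a (b (l 16032568) (l 16055432)) (l 16306848)) (a (l 16061904) (l 16326416)))) (b (a (c (l 16564560) (l 16552072)) (c (l 16738944) (l 16736784))) (a (c (l 16578104) (l 16572936)) (l 16760648))))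 (a (b (a (c (l 16080008) (l 16061896)) (l 16332120)) (c (l 16211104) (l 16196400))) (b (c (l 16671272) (l 16647544)) (c (l 16524472) (l 16479776)))))), by decide +kernel⟩

def k2_pp_033 : ∃ t, chk3 f_pp_033 t 3 2 1 = true :=
  ⟨(b (b (a (a (c (c (l 16717408) (l 16717504)) (c (l 16717480) (l 16717176))) (a (b (l 16743664) (l 16694904)) (l 16717832))) (a (c (l 16717560) (l 16717544)) (c (l 16717560) (l 16717544)))) (b (a (a (c (l 16687512) (l 16685176)) (c (l 16687512) (l 16685176))) (a (l 16686344) (l 16686344))) (a (a (c (l 16706488) (l 16704648)) (l 16705568)) (c (l 16706488) (l 16704648))))) (a (b (a (b (c (l 16753616) (l 16753008)) (l 16777216)) (b (l 16753312) (l 16777216))) (a (c (b (l 16777216) (b (l 16777216) (l 16777216))) (b (l 16777216) (l 16777216))) (c (b (l 16777216) (b (l 16777216) (l 16777216))) (b (l 16777216) (c (l 16777216) (l 16777216)))))) (a (b (b (l 16753312) (c (l 16777216) (l 16777216))) (c (b (l 16777216) (l 16777216)) (b (l 16777216) (l 16777216)))) (b (b (l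 16753312) (c (l 16777216) (l 16777216))) (a (b (c (l 16777216) (l 16777216)) (l 1)) (l 1)))))), by decide +kernel⟩

def k3_pp_033 : ∃ t, chk3 f_pp_033 t 1 6 1 = true :=
  ⟨(a (a (b (a (b (a (b (c (l 14867888) (l 14833016)) (c (l 14867880) (l 14853976))) (c (l 15149512) (l 15131088))) (c (a (l 14867880) (l 14918832)) (a (b (l 14853976) (l 14853984)) (l 15131096)))) (b (c (a (l 15440344) (l 15791688)) (l 15580880)) (c (a (l 15440344) (l 15791688)) (b (l 15591368) (l 15465536))))) (a (b (c (a (l 14867904) (l 15149528)) (a (c (l 14852896) (l 14847840)) (l 15131104))) (c (a (l 14867920) (l 15149528)) (a (b (l 14854024) (l 14854024)) (l 15131104)))) (c (b (a (l 15440344) (l 15791688)) (a (l 15440344) (l 15791688))) (b (b (l 15591368) (l 15591368)) (b (l 15591368) (l 15591368)))))) (a (b (b (c (a (l 16080000) (l 16337824)) (l 16196400)) (c (b (l 16211104) (l 16211104)) (b (l 16196400) (l 16196400)))) (b (b (l 16140840) (l 16035984)) (c (l 16211104) (l 16196400)))) (b (b (c (a (l 16578104) (l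 16760864)) (a (l 16572936) (l 16760440))) (b (c (l 16671272) (l 16626576)) (c (l 16671272) (l 16668520)))) (b (c (l 16608352) (l 16479776)) (c (l 16671272) (l 16668520)))))) (b (b (a (c (a (c (l 16777216) (l 16777216)) (l 16777216)) (a (c (l 16777216) (l 16777216)) (l 16777216))) (a (l 153578635271) (l 1))) (a (a (c (l 16777216) (l 16777216)) (c (l 16777216) (l 16777216))) (l 1))) (a (b (a (c (l 16777216) (l 16777216)) (c (l 16777216) (l 16777216))) (c (l 121366380551) (l 119218896855))) (l 1)))), by decide +kernel⟩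

def k4_pp_033 : ∃ t, chk3 f_pp_033 t 1 7 1 = true :=
  ⟨(a (a (b (a (c (b (a (l 14867920) (l 15149528)) (a (l 14867920) (l 15149528))) (b (a (l 14854024) (l 15131104)) (a (l 14770136) (l 15131104)))) (b (c (l 15417504) (l 15465536)) (c (b (l 15648192) (l 15648192)) (b (l 15591368) (l 15591368))))) (a (b (c (a (l 14867920) (l 15149528)) (a (l 14854024) (l 15131104))) (c (l 14828728) (a (l 14854024) (l 15131104)))) (c (b (l 15648192) (l 15564304)) (b (l 15591368) (l 15591368))))) (a (b (b (c (l 16211104) (l 16091544)) (c (l 16169168) (b (l 16196400) (l 16196400)))) (b (c (l 16211104) (l 16196400)) (l 1))) (b (b (c (b (l 16671272) (l 16671272)) (b (l 16668520) (l 16668520))) (l 1)) (l 1)))) (l 1)), by decide +kernel⟩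

theorem s5_pp_033 : ∃ t, chk3 f_pp_033 t 1 3 1 = true := ex3_b k3_pp_033 k4_pp_033

theorem s6_pp_033 : ∃ t, chk3 f_pp_033 t 2 2 1 = true := ex3_a k0_pp_033 k1_pp_033

theorem s7_pp_033 : ∃ t, chk3 f_pp_033 t 1 2 1 = true := ex3_a s6_pp_033 k2_pp_033

theorem s8_pp_033 : ∃ t, chk3 f_pp_033 t 1 1 1 = true := ex3_b s7_pp_033 s5_pp_033

theorem c_pp_033 : CertFX 0 536870912 0 1230186008 1046898278 26843546 false true true .pnn 0 3 3
    ndF0q0 ndF7q3 pcF3 cut_pp_033 Ext.none :=
  certFX0 (fam := false) (s1 := true) (s2 := true) (a := 0) (b := 3) (c := 3) (cn := .pnn) (n1 := ndF0q0) (n2 := ndF7q3) (pc := pcF3) (cut := cut_pp_033) (xt := Ext.none) (P1 := 0) (W1 := 536870912) (P2 := 0) (W2 := 1230186008) (P3 := 1046898278) (W3 := 26843546)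
    rfl s8_pp_033

noncomputable def cut_pp_101 : Cut := Cut.of [[⟨3, 0, 0, 1449551462⟩]]

noncomputable def f_pp_101 : ℕ → ℕ → ℕ → ℕ → Bool := onCell 536870912 536870912 0 536870912 1046898278 26843546
    (rowFX 1 false true true .npn 1 0 1 (qsf 536870912 536870912 536870912 536870912 0) ndF0q1 ndF7q1 pcF0 cut_pp_101 Ext.none)

def k0_pp_101 : ∃ t, chk3 f_pp_101 t 1 1 1 = true :=
  ⟨(l 6), by decide +kernel⟩

theorem c_pp_101 : CertFX 536870912 536870912 536870912 536870912 1046898278 26843546 false true true .npn 1 0 1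
    ndF0q1 ndF7q1 pcF0 cut_pp_101 Ext.none :=
  certFX1 (fam := false) (s1 := true) (s2 := true) (a := 1) (b := 0) (c := 1) (cn := .npn) (n1 := ndF0q1) (n2 := ndF7q1) (pc := pcF0) (cut := cut_pp_101) (xt := Ext.none) (P1 := 536870912) (W1 := 536870912) (P2 := 536870912) (W2 := 536870912) (P3 := 1046898278) (W3 := 26843546)
    rfl (fun _ => rfl) k0_pp_101

noncomputable def cut_pp_102 : Cut := Cut.of [[⟨3, 0, 0, 1449551462⟩]]

noncomputable def f_pp_102 : ℕ → ℕ → ℕ → ℕ → Bool := onCell 536870912 536870912 1073741824 536870912 1046898278 26843546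
    (rowFX 0 false true true .npp 1 0 2 (qsf 536870912 536870912 1073741824 536870912 0) ndF0q1 ndF7q2 pcF0 cut_pp_102 Ext.none)

def k0_pp_102 : ∃ t, chk3 f_pp_102 t 1 1 1 = true :=
  ⟨(l 6), by decide +kernel⟩

theorem c_pp_102 : CertFX 536870912 536870912 1073741824 536870912 1046898278 26843546 false true true .npp 1 0 2
    ndF0q1 ndF7q2 pcF0 cut_pp_102 Ext.none :=
  certFX0 (fam := false) (s1 := true) (s2 := true) (a := 1) (b := 0) (c := 2) (cn := .npp) (n1 := ndF0q1) (n2 := ndF7q2) (pc := pcF0) (cut := cut_pp_102) (xt := Ext.none) (P1 := 536870912) (W1 := 536870912) (P2 := 1073741824) (W2 := 536870912) (P3 := 1046898278) (W3 := 26843546)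
    rfl k0_pp_102

noncomputable def cut_pp_112 : Cut := Cut.of [[⟨3, 0, 0, 1449551462⟩]]

noncomputable def f_pp_112 : ℕ → ℕ → ℕ → ℕ → Bool := onCell 536870912 536870912 1073741824 536870912 1046898278 26843546
    (rowFX 0 false true true .dn 1 1 2 (qsf 536870912 536870912 1073741824 536870912 1) ndF0q1 ndF7q2 pcF1 cut_pp_112 Ext.none)

def k0_pp_112 : ∃ t, chk3 f_pp_112 t 1 1 1 = true :=
  ⟨(l 6), by decide +kernel⟩

theorem c_pp_112 : CertFX 536870912 536870912 1073741824 536870912 1046898278 26843546 false true true .dn 1 1 2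
    ndF0q1 ndF7q2 pcF1 cut_pp_112 Ext.none :=
  certFX0 (fam := false) (s1 := true) (s2 := true) (a := 1) (b := 1) (c := 2) (cn := .dn) (n1 := ndF0q1) (n2 := ndF7q2) (pc := pcF1) (cut := cut_pp_112) (xt := Ext.none) (P1 := 536870912) (W1 := 536870912) (P2 := 1073741824) (W2 := 536870912) (P3 := 1046898278) (W3 := 26843546)
    rfl k0_pp_112

noncomputable def cut_pp_113 : Cut := Cut.of [[⟨3, 0, 0, 1449551462⟩], [⟨0, 1, 0, 67108864⟩, ⟨1, 1, 0, 67108864⟩, ⟨2, 2, 0, 67108864⟩, ⟨3, 0, 0, 1233125376⟩]]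

noncomputable def f_pp_113 : ℕ → ℕ → ℕ → ℕ → Bool := onCell 536870912 536870912 0 1230186008 1046898278 26843546
    (rowFX 0 false true true .nn 1 1 3 (qsf 536870912 536870912 0 1230186008 1) ndF0q1 ndF7q3 pcF1 cut_pp_113 Ext.none)

def k0_pp_113 : ∃ t, chk3 f_pp_113 t 1 1 1 = true :=
  ⟨(b (a (l 2) (a (l 2) (b (a (l 2) (l 6)) (l 6)))) (a (b (a (l 2) (l 6)) (l 6)) (l 6))), by decide +kernel⟩

theorem c_pp_113 : CertFX 536870912 536870912 0 1230186008 1046898278 26843546 false true true .nn 1 1 3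
    ndF0q1 ndF7q3 pcF1 cut_pp_113 Ext.none :=
  certFX0 (fam := false) (s1 := true) (s2 := true) (a := 1) (b := 1) (c := 3) (cn := .nn) (n1 := ndF0q1) (n2 := ndF7q3) (pc := pcF1) (cut := cut_pp_113) (xt := Ext.none) (P1 := 536870912) (W1 := 536870912) (P2 := 0) (W2 := 1230186008) (P3 := 1046898278) (W3 := 26843546)
    rfl k0_pp_113

noncomputable def cut_pp_123 : Cut := Cut.of [[⟨3, 0, 0, 1449551462⟩], [⟨0, 1, 0, 67108864⟩, ⟨1, 1, 0, 67108864⟩, ⟨2, 2, 0, 67108864⟩, ⟨3, 0, 0, 1233125376⟩]]

noncomputable def f_pp_123 : ℕ → ℕ → ℕ → ℕ → Bool := onCell 1073741824 536870912 0 1230186008 1046898278 26843546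
    (rowFX 2 false true true .npn 1 2 3 (qsf 536870912 536870912 0 1230186008 2) ndF0q1 ndF7q3 pcF2 cut_pp_123 Ext.none)

def k0_pp_123 : ∃ t, chk3 f_pp_123 t 4 2 1 = true :=
  ⟨(a (l 6) (b (a (l 6) (b (b (a (l 6) (b (c (b (c (l 15154648) (l 15133304)) (l 15218168)) (b (a (l 15177512) (l 15016072)) (l 15174440))) (l 6))) (l 6)) (l 6))) (l 6))), by decide +kernel⟩

def k1_pp_123 : ∃ t, chk3 f_pp_123 t 10 2 1 = true :=
  ⟨(b (a (b (b (b (a (a (b (c (l 14924080) (l 14874680)) (c (l 14933176) (l 14882656))) (b (l 14782208) (c (l 14795936) (b (l 14731720) (l 14734232))))) (l 14979768)) (a (c (c (l 14967624) (l 14985304)) (c (l 14960712) (l 14935624))) (a (c (b (l 14890144) (l 14981048)) (b (c (l 14848456) (l 14820864)) (l 14930064))) (c (b (l 15084880) (l 15117000)) (b (b (l 15029928) (l 15029280)) (l 15069728)))))) (a (l 6) (b (c (a (l 15136352) (l 15239376)) (a (l 15090592) (l 15195952))) (l 6)))) (l 6)) (a (b (b (b (l 15414856) (b (l 15374848) (c (l 15393400) (a (l 15248032) (l 15446368)))))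 (b (c (l 15204320) (l 15250808)) (c (l 15593192) (l 15559464)))) (l 6)) (b (b (l 15799672) (b (c (l 15539272) (c (l 15768392) (l 15753448))) (c (l 15871152) (l 15844384)))) (b (b (c (c (b (l 15950760) (c (l 16009672) (l 15987952))) (l 15964280)) (l 15946856)) (l 6)) (l 6))))) (l 6)), by decide +kernel⟩

def k2_pp_123 : ∃ t, chk3 f_pp_123 t 11 2 1 = true :=
  ⟨(b (a (b (b (l 16117168) (a (c (b (l 16151472) (l 16170976)) (b (l 16048432) (l 16152784))) (b (l 16502184) (c (l 16497408) (l 16488760))))) (b (c (b (a (l 16231744) (l 16514648)) (a (c (l 16180680) (l 16304448)) (l 16519656))) (a (c (l 16261168) (l 16243664)) (l 16518616))) (b (a (b (c (l 16210400) (l 16341456)) (l 6)) (c (l 16545560) (l 16565536))) (a (l 6) (a (l 6) (c (l 16652408) (l 16649256))))))) (b (b (l 16743152) (b (l 16704016) (a (c (l 16689696) (l 16687416)) (l 16689624)))) (c (b (c (l 16687608) (l 16686440)) (a (b (l 16698352) (l 16715104)) (l 16706488))) (b (a (l 16684232) (l 16685176)) (a (l 16703976) (l 16704648))))))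 (b (a (l 6) (c (b (b (a (l 16676312) (l 16739768)) (l 16768936)) (l 16756088)) (b (b (l 16738512) (l 16768720)) (l 16777048)))) (l 6))), by decide +kernel⟩

def k3_pp_123 : ∃ t, chk3 f_pp_123 t 3 2 1 = true :=
  ⟨(a (a (b (b (c (l 16717560) (l 16717544)) (a (c (b (l 16687512) (l 16706488)) (b (l 16685176) (l 16704648))) (c (b (l 16687512) (l 16706488)) (l 16691000)))) (b (c (b (c (a (l 16753768) (l 16753768)) (a (l 16753464) (l 16753464))) (a (l 16777216) (l 16777216))) (c (b (l 16753160) (l 16777216)) (b (l 16752856) (a (l 16777216) (l 16777216))))) (a (b (c (l 16777216) (l 16777216)) (l 6)) (c (b (l 16777216) (l 16777216)) (b (l 16777216) (l 16777216)))))) (b (b (c (l 16717560) (l 16717544)) (b (l 16686344) (c (l 16706488) (l 16704648)))) (b (c (a (b (l 16753616) (a (l 16777216) (l 16777216))) (b (l 16753616) (l 16777216))) (b (a (l 16753008) (l 16753008)) (c (l 16777216) (l 16777216)))) (c (c (b (l 16777216) (l 16777216)) (l 16777216)) (c (l 16777216) (l 16777216)))))) (a (b (b (l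 16717832) (b (l 16686344) (l 16705568))) (b (c (b (l 16753616) (l 16777216)) (b (l 16753008) (l 16777216))) (c (b (c (l 16777216) (l 16777216)) (l 16777216)) (b (l 16777216) (l 16777216))))) (b (b (l 16717832) (c (l 16693184) (l 16691000))) (b (c (b (l 16753616) (l 16777216)) (b (l 16753008) (l 16777216))) (b (c (l 16777216) (l 16777216)) (l 1)))))), by decide +kernel⟩

def k4_pp_123 : ∃ t, chk3 f_pp_123 t 1 3 1 = true :=
  ⟨(a (l 6) (b (a (a (a (l 6) (b (b (c (l 16777216) (l 16777216)) (l 6)) (l 6))) (a (b (c (b (l 16777216) (l 16777216)) (b (l 16777216) (l 16777216))) (b (c (l 16777216) (l 16777216)) (l 1))) (b (c (b (l 16777216) (l 16777216)) (b (l 16777216) (l 16777216))) (l 1)))) (a (b (b (c (l 16777216) (l 16777216)) (l 1)) (l 1)) (l 1))) (l 1))), by decide +kernel⟩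

theorem s5_pp_123 : ∃ t, chk3 f_pp_123 t 5 2 1 = true := ex3_a k1_pp_123 k2_pp_123

theorem s6_pp_123 : ∃ t, chk3 f_pp_123 t 2 2 1 = true := ex3_a k0_pp_123 s5_pp_123

theorem s7_pp_123 : ∃ t, chk3 f_pp_123 t 1 2 1 = true := ex3_a s6_pp_123 k3_pp_123

theorem s8_pp_123 : ∃ t, chk3 f_pp_123 t 1 1 1 = true := ex3_b s7_pp_123 k4_pp_123

theorem c_pp_123 : CertFX 536870912 536870912 0 1230186008 1046898278 26843546 false true true .npn 1 2 3
    ndF0q1 ndF7q3 pcF2 cut_pp_123 Ext.none :=
  certFX2 (fam := false) (s1 := true) (s2 := true) (a := 1) (b := 2) (c := 3) (cn := .npn) (n1 := ndF0q1) (n2 := ndF7q3) (pc := pcF2) (cut := cut_pp_123) (xt := Ext.none) (P1 := 536870912) (W1 := 536870912) (P2 := 0) (W2 := 1230186008) (P3 := 1046898278) (W3 := 26843546)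
    rfl (fun _ => rfl) s8_pp_123

noncomputable def cut_pp_133 : Cut := Cut.of [[⟨3, 0, 0, 1449551462⟩]]

noncomputable def f_pp_133 : ℕ → ℕ → ℕ → ℕ → Bool := onCell 536870912 536870912 0 1230186008 1046898278 26843546
    (rowFX 0 false true true .dn 1 3 3 (qsf 536870912 536870912 0 1230186008 3) ndF0q1 ndF7q3 pcF3 cut_pp_133 Ext.none)

def k0_pp_133 : ∃ t, chk3 f_pp_133 t 1 1 1 = true :=
  ⟨(b (a (b (a (b (a (l 7288056000919) (l 1)) (l 1)) (l 1)) (l 1)) (l 1)) (l 1)), by decide +kernel⟩

theorem c_pp_133 : CertFX 536870912 536870912 0 1230186008 1046898278 26843546 false true true .dn 1 3 3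
    ndF0q1 ndF7q3 pcF3 cut_pp_133 Ext.none :=
  certFX0 (fam := false) (s1 := true) (s2 := true) (a := 1) (b := 3) (c := 3) (cn := .dn) (n1 := ndF0q1) (n2 := ndF7q3) (pc := pcF3) (cut := cut_pp_133) (xt := Ext.none) (P1 := 536870912) (W1 := 536870912) (P2 := 0) (W2 := 1230186008) (P3 := 1046898278) (W3 := 26843546)
    rfl k0_pp_133

noncomputable def cut_pp_202 : Cut := Cut.of [[⟨3, 0, 0, 1449551462⟩]]

noncomputable def f_pp_202 : ℕ → ℕ → ℕ → ℕ → Bool := onCell 0 536870912 1073741824 536870912 1046898278 26843546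
    (rowFX 0 false true true .pp 2 0 2 (qsf 0 536870912 1073741824 536870912 0) ndF0q2 ndF7q2 pcF0 cut_pp_202 Ext.none)

def k0_pp_202 : ∃ t, chk3 f_pp_202 t 1 1 1 = true :=
  ⟨(l 5), by decide +kernel⟩

theorem c_pp_202 : CertFX 0 536870912 1073741824 536870912 1046898278 26843546 false true true .pp 2 0 2
    ndF0q2 ndF7q2 pcF0 cut_pp_202 Ext.none :=
  certFX0 (fam := false) (s1 := true) (s2 := true) (a := 2) (b := 0) (c := 2) (cn := .pp) (n1 := ndF0q2) (n2 := ndF7q2) (pc := pcF0) (cut := cut_pp_202) (xt := Ext.none) (P1 := 0) (W1 := 536870912) (P2 := 1073741824) (W2 := 536870912) (P3 := 1046898278) (W3 := 26843546)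
    rfl k0_pp_202

noncomputable def cut_pp_203 : Cut := Cut.of [[⟨3, 0, 0, 1449551462⟩]]

noncomputable def f_pp_203 : ℕ → ℕ → ℕ → ℕ → Bool := onCell 0 536870912 0 1230186008 1046898278 26843546
    (rowFX 0 false true true .up 2 0 3 (qsf 0 536870912 0 1230186008 0) ndF0q2 ndF7q3 pcF0 cut_pp_203 Ext.none)

def k0_pp_203 : ∃ t, chk3 f_pp_203 t 1 1 1 = true :=
  ⟨(b (l 2) (a (l 5) (l 6))), by decide +kernel⟩

theorem c_pp_203 : CertFX 0 536870912 0 1230186008 1046898278 26843546 false true true .up 2 0 3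
    ndF0q2 ndF7q3 pcF0 cut_pp_203 Ext.none :=
  certFX0 (fam := false) (s1 := true) (s2 := true) (a := 2) (b := 0) (c := 3) (cn := .up) (n1 := ndF0q2) (n2 := ndF7q3) (pc := pcF0) (cut := cut_pp_203) (xt := Ext.none) (P1 := 0) (W1 := 536870912) (P2 := 0) (W2 := 1230186008) (P3 := 1046898278) (W3 := 26843546)
    rfl k0_pp_203

noncomputable def cut_pp_213 : Cut := Cut.of [[⟨3, 0, 0, 1449551462⟩], [⟨0, 1, 0, 67108864⟩, ⟨1, 1, 0, 67108864⟩, ⟨2, 2, 0, 67108864⟩, ⟨3, 0, 0, 1233125376⟩]]

noncomputable def f_pp_213 : ℕ → ℕ → ℕ → ℕ → Bool := onCell 0 536870912 0 1230186008 1046898278 26843546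
    (rowFX 0 false true true .pnn 2 1 3 (qsf 0 536870912 0 1230186008 1) ndF0q2 ndF7q3 pcF1 cut_pp_213 Ext.none)

def k0_pp_213 : ∃ t, chk3 f_pp_213 t 1 1 1 = true :=
  ⟨(b (l 6) (a (l 5) (l 6))), by decide +kernel⟩

theorem c_pp_213 : CertFX 0 536870912 0 1230186008 1046898278 26843546 false true true .pnn 2 1 3
    ndF0q2 ndF7q3 pcF1 cut_pp_213 Ext.none :=
  certFX0 (fam := false) (s1 := true) (s2 := true) (a := 2) (b := 1) (c := 3) (cn := .pnn) (n1 := ndF0q2) (n2 := ndF7q3) (pc := pcF1) (cut := cut_pp_213) (xt := Ext.none) (P1 := 0) (W1 := 536870912) (P2 := 0) (W2 := 1230186008) (P3 := 1046898278) (W3 := 26843546)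
    rfl k0_pp_213

noncomputable def cut_pm_001 : Cut := Cut.of [[⟨3, 0, 0, 1449551462⟩]]

noncomputable def f_pm_001 : ℕ → ℕ → ℕ → ℕ → Bool := onCell 0 536870912 536870912 536870912 1046898278 26843546
    (rowFX 0 false true false .up 0 0 1 (qsf 0 536870912 536870912 536870912 0) ndF0q0 ndF7q1 pcF0 cut_pm_001 Ext.none)

def k0_pm_001 : ∃ t, chk3 f_pm_001 t 1 1 1 = true :=
  ⟨(l 4), by decide +kernel⟩

theorem c_pm_001 : CertFX 0 536870912 536870912 536870912 1046898278 26843546 false true false .up 0 0 1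
    ndF0q0 ndF7q1 pcF0 cut_pm_001 Ext.none :=
  certFX0 (fam := false) (s1 := true) (s2 := false) (a := 0) (b := 0) (c := 1) (cn := .up) (n1 := ndF0q0) (n2 := ndF7q1) (pc := pcF0) (cut := cut_pm_001) (xt := Ext.none) (P1 := 0) (W1 := 536870912) (P2 := 536870912) (W2 := 536870912) (P3 := 1046898278) (W3 := 26843546)
    rfl k0_pm_001

noncomputable def cut_pm_011 : Cut := Cut.of [[⟨3, 0, 0, 1449551462⟩]]

noncomputable def f_pm_011 : ℕ → ℕ → ℕ → ℕ → Bool := onCell 0 536870912 536870912 536870912 1046898278 26843546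
    (rowFX 0 false true false .pnn 0 1 1 (qsf 0 536870912 536870912 536870912 1) ndF0q0 ndF7q1 pcF1 cut_pm_011 Ext.none)

def k0_pm_011 : ∃ t, chk3 f_pm_011 t 1 1 1 = true :=
  ⟨(l 4), by decide +kernel⟩

theorem c_pm_011 : CertFX 0 536870912 536870912 536870912 1046898278 26843546 false true false .pnn 0 1 1
    ndF0q0 ndF7q1 pcF1 cut_pm_011 Ext.none :=
  certFX0 (fam := false) (s1 := true) (s2 := false) (a := 0) (b := 1) (c := 1) (cn := .pnn) (n1 := ndF0q0) (n2 := ndF7q1) (pc := pcF1) (cut := cut_pm_011) (xt := Ext.none) (P1 := 0) (W1 := 536870912) (P2 := 536870912) (W2 := 536870912) (P3 := 1046898278) (W3 := 26843546)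
    rfl k0_pm_011

noncomputable def cut_pm_012 : Cut := Cut.of [[⟨3, 0, 0, 1449551462⟩]]

noncomputable def f_pm_012 : ℕ → ℕ → ℕ → ℕ → Bool := onCell 0 536870912 1073741824 536870912 1046898278 26843546
    (rowFX 0 false true false .pnp 0 1 2 (qsf 0 536870912 1073741824 536870912 1) ndF0q0 ndF7q2 pcF1 cut_pm_012 Ext.none)

def k0_pm_012 : ∃ t, chk3 f_pm_012 t 1 1 1 = true :=
  ⟨(l 4), by decide +kernel⟩

theorem c_pm_012 : CertFX 0 536870912 1073741824 536870912 1046898278 26843546 false true false .pnp 0 1 2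
    ndF0q0 ndF7q2 pcF1 cut_pm_012 Ext.none :=
  certFX0 (fam := false) (s1 := true) (s2 := false) (a := 0) (b := 1) (c := 2) (cn := .pnp) (n1 := ndF0q0) (n2 := ndF7q2) (pc := pcF1) (cut := cut_pm_012) (xt := Ext.none) (P1 := 0) (W1 := 536870912) (P2 := 1073741824) (W2 := 536870912) (P3 := 1046898278) (W3 := 26843546)
    rfl k0_pm_012

noncomputable def cut_pm_022 : Cut := Cut.of [[⟨3, 0, 0, 1449551462⟩]]

noncomputable def f_pm_022 : ℕ → ℕ → ℕ → ℕ → Bool := onCell 0 536870912 1073741824 536870912 1046898278 26843546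
    (rowFX 0 false true false .pp 0 2 2 (qsf 0 536870912 1073741824 536870912 2) ndF0q0 ndF7q2 pcF2 cut_pm_022 Ext.none)

def k0_pm_022 : ∃ t, chk3 f_pm_022 t 1 1 1 = true :=
  ⟨(l 4), by decide +kernel⟩

theorem c_pm_022 : CertFX 0 536870912 1073741824 536870912 1046898278 26843546 false true false .pp 0 2 2
    ndF0q0 ndF7q2 pcF2 cut_pm_022 Ext.none :=
  certFX0 (fam := false) (s1 := true) (s2 := false) (a := 0) (b := 2) (c := 2) (cn := .pp) (n1 := ndF0q0) (n2 := ndF7q2) (pc := pcF2) (cut := cut_pm_022) (xt := Ext.none) (P1 := 0) (W1 := 536870912) (P2 := 1073741824) (W2 := 536870912) (P3 := 1046898278) (W3 := 26843546)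
    rfl k0_pm_022

noncomputable def cut_pm_023 : Cut := Cut.of [[⟨3, 0, 0, 1449551462⟩]]

noncomputable def f_pm_023 : ℕ → ℕ → ℕ → ℕ → Bool := onCell 0 536870912 0 1230186008 1046898278 26843546
    (rowFX 0 false true false .up 0 2 3 (qsf 0 536870912 0 1230186008 2) ndF0q0 ndF7q3 pcF2 cut_pm_023 Ext.none)

def k0_pm_023 : ∃ t, chk3 f_pm_023 t 1 1 1 = true :=
  ⟨(b (a (l 2) (b (a (l 2) (a (l 2) (a (l 2) (b (l 16717832) (c (l 16693184) (l 16691000)))))) (b (l 4) (l 4)))) (l 4)), by decide +kernel⟩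

theorem c_pm_023 : CertFX 0 536870912 0 1230186008 1046898278 26843546 false true false .up 0 2 3
    ndF0q0 ndF7q3 pcF2 cut_pm_023 Ext.none :=
  certFX0 (fam := false) (s1 := true) (s2 := false) (a := 0) (b := 2) (c := 3) (cn := .up) (n1 := ndF0q0) (n2 := ndF7q3) (pc := pcF2) (cut := cut_pm_023) (xt := Ext.none) (P1 := 0) (W1 := 536870912) (P2 := 0) (W2 := 1230186008) (P3 := 1046898278) (W3 := 26843546)
    rfl k0_pm_023

noncomputable def cut_pm_033 : Cut := Cut.of [[⟨3, 0, 0, 1449551462⟩]]

noncomputable def f_pm_033 : ℕ → ℕ → ℕ → ℕ → Bool := onCell 1610612736 536870912 0 1230186008 1046898278 26843546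
    (rowFX 2 false true false .pnn 0 3 3 (qsf 0 536870912 0 1230186008 3) ndF0q0 ndF7q3 pcF3 cut_pm_033 Ext.none)

def k0_pm_033 : ∃ t, chk3 f_pm_033 t 1 1 1 = true :=
  ⟨(b (a (b (a (c (a (b (l 16717560) (l 16693184)) (b (l 16717560) (l 16693184))) (a (b (l 16717544) (l 16691000)) (a (l 16691944) (l 16691944)))) (a (b (c (l 16717560) (l 16717544)) (l 4)) (l 4))) (l 4)) (l 4)) (l 4)), by decide +kernel⟩

theorem c_pm_033 : CertFX 0 536870912 0 1230186008 1046898278 26843546 false true false .pnn 0 3 3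
    ndF0q0 ndF7q3 pcF3 cut_pm_033 Ext.none :=
  certFX2 (fam := false) (s1 := true) (s2 := false) (a := 0) (b := 3) (c := 3) (cn := .pnn) (n1 := ndF0q0) (n2 := ndF7q3) (pc := pcF3) (cut := cut_pm_033) (xt := Ext.none) (P1 := 0) (W1 := 536870912) (P2 := 0) (W2 := 1230186008) (P3 := 1046898278) (W3 := 26843546)
    rfl (fun _ => rfl) k0_pm_033

noncomputable def cut_pm_101 : Cut := Cut.of [[⟨3, 0, 0, 1449551462⟩]]

noncomputable def f_pm_101 : ℕ → ℕ → ℕ → ℕ → Bool := onCell 536870912 536870912 536870912 536870912 1046898278 26843546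
    (rowFX 0 false true false .npn 1 0 1 (qsf 536870912 536870912 536870912 536870912 0) ndF0q1 ndF7q1 pcF0 cut_pm_101 Ext.none)

def k0_pm_101 : ∃ t, chk3 f_pm_101 t 1 1 1 = true :=
  ⟨(l 4), by decide +kernel⟩

theorem c_pm_101 : CertFX 536870912 536870912 536870912 536870912 1046898278 26843546 false true false .npn 1 0 1
    ndF0q1 ndF7q1 pcF0 cut_pm_101 Ext.none :=
  certFX0 (fam := false) (s1 := true) (s2 := false) (a := 1) (b := 0) (c := 1) (cn := .npn) (n1 := ndF0q1) (n2 := ndF7q1) (pc := pcF0) (cut := cut_pm_101) (xt := Ext.none) (P1 := 536870912) (W1 := 536870912) (P2 := 536870912) (W2 := 536870912) (P3 := 1046898278) (W3 := 26843546)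
    rfl k0_pm_101

noncomputable def cut_pm_102 : Cut := Cut.of [[⟨3, 0, 0, 1449551462⟩]]

noncomputable def f_pm_102 : ℕ → ℕ → ℕ → ℕ → Bool := onCell 536870912 536870912 1073741824 536870912 1046898278 26843546
    (rowFX 0 false true false .npp 1 0 2 (qsf 536870912 536870912 1073741824 536870912 0) ndF0q1 ndF7q2 pcF0 cut_pm_102 Ext.none)

def k0_pm_102 : ∃ t, chk3 f_pm_102 t 1 1 1 = true :=
  ⟨(a (l 4) (b (l 4) (a (l 4) (a (l 4) (b (l 4) (b (l 4) (c (l 177937065239) (l 15757728)))))))), by decide +kernel⟩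

theorem c_pm_102 : CertFX 536870912 536870912 1073741824 536870912 1046898278 26843546 false true false .npp 1 0 2
    ndF0q1 ndF7q2 pcF0 cut_pm_102 Ext.none :=
  certFX0 (fam := false) (s1 := true) (s2 := false) (a := 1) (b := 0) (c := 2) (cn := .npp) (n1 := ndF0q1) (n2 := ndF7q2) (pc := pcF0) (cut := cut_pm_102) (xt := Ext.none) (P1 := 536870912) (W1 := 536870912) (P2 := 1073741824) (W2 := 536870912) (P3 := 1046898278) (W3 := 26843546)
    rfl k0_pm_102

noncomputable def cut_pm_112 : Cut := Cut.of [[⟨3, 0, 0, 1449551462⟩]]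

noncomputable def f_pm_112 : ℕ → ℕ → ℕ → ℕ → Bool := onCell 536870912 536870912 1073741824 536870912 1046898278 26843546
    (rowFX 0 false true false .dn 1 1 2 (qsf 536870912 536870912 1073741824 536870912 1) ndF0q1 ndF7q2 pcF1 cut_pm_112 Ext.none)

def k0_pm_112 : ∃ t, chk3 f_pm_112 t 1 1 1 = true :=
  ⟨(a (l 4) (b (l 4) (a (l 4) (a (l 4) (a (l 4) (b (l 1) (c (l 446707812567) (l 453150297895)))))))), by decide +kernel⟩

theorem c_pm_112 : CertFX 536870912 536870912 1073741824 536870912 1046898278 26843546 false true false .dn 1 1 2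
    ndF0q1 ndF7q2 pcF1 cut_pm_112 Ext.none :=
  certFX0 (fam := false) (s1 := true) (s2 := false) (a := 1) (b := 1) (c := 2) (cn := .dn) (n1 := ndF0q1) (n2 := ndF7q2) (pc := pcF1) (cut := cut_pm_112) (xt := Ext.none) (P1 := 536870912) (W1 := 536870912) (P2 := 1073741824) (W2 := 536870912) (P3 := 1046898278) (W3 := 26843546)
    rfl k0_pm_112

end Pool.Agent.Strip051.G.IE1.Tab.C.FB07

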