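import Pool.Agent.Strip051.G.IE1.Tab

/-! # Certificates F37 (generated) -/

set_option linter.all false
set_option maxRecDepth 100000

namespace Pool.Agent.Strip051.G.IE1.Tab.C.FB07

open Pool.Agent.Strip051.PB Pool.Agent.Strip051.PB.T
open Pool.Agent.Strip051.G.IE1.Tab

noncomputable def cut_pm_113 : Cut := Cut.of [[⟨3, 0, 0, 1449551462⟩], [⟨0, 1, 0, 67108864⟩, ⟨1, 1, 0, 67108864⟩, ⟨2, 2, 0, 67108864⟩, ⟨3, 0, 0, 1233125376⟩]]

noncomputable def f_pm_113 : ℕ → ℕ → ℕ → ℕ → Bool := onCell 536870912 536870912 0 1230186008 1046898278 26843546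
    (rowFX 0 false true false .nn 1 1 3 (qsf 536870912 536870912 0 1230186008 1) ndF0q1 ndF7q3 pcF1 cut_pm_113 Ext.none)

def k0_pm_113 : ∃ t, chk3 f_pm_113 t 1 2 1 = true :=
  ⟨(a (l 2) (a (l 2) (b (a (l 2) (a (l 2) (b (l 6) (a (b (l 2) (c (c (l 16559664) (l 16528808)) (l 15668248))) (b (l 6) (b (l 6) (c (l 16266560) (l 15488624)))))))) (a (b (b (l 2) (a (l 2) (b (l 2) (c (l 1089947551111) (l 817216493479))))) (b (a (l 2) (b (c (a (l 2) (l 16076264)) (l 804868610359)) (a (a (l 2) (b (l 714137849351) (c (l 16125936) (l 15994688)))) (c (l 16100544) (l 15941064))))) (a (b (c (l 15642696) (l 1096388367703)) (c (l 15408792) (a (l 15479200) (l 15623048)))) (b (a (c (b (l 16037432) (l 15960632)) (b (l 15921016) (l 15852256))) (c (b (a (l 16116240) (l 16099904)) (a (l 16067376) (l 16091472))) (b (l 15965000) (l 15955336)))) (c (a (l 15864904) (l 15998160)) (a (l 15768248) (l 15884696))))))) (b (a (a (b (l 2) (c (b (l 16055424) (l 16028512)) (l 654007331671))) (b (c (b (l 16299792) (l 16114728)) (l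 411341938103)) (c (b (l 16002720) (l 15931600)) (b (l 15609184) (l 15634872))))) (b (c (a (c (l 16229496) (l 15944552)) (c (l 16007248) (l 15773272))) (a (l 308799418215) (c (l 15542408) (l 15312440)))) (c (a (c (l 15905448) (l 15761232)) (c (l 15753736) (l 15630728))) (a (l 15535208) (c (l 15510584) (l 15390888)))))) (a (b (c (a (b (l 16013888) (l 16011656)) (b (l 15892848) (l 15879280))) (b (a (l 15788992) (l 15671880)) (l 15777752))) (b (c (a (l 16018232) (l 15884712)) (l 15827152)) (a (c (b (l 16020272) (l 16005728)) (l 15904888)) (c (l 15900568) (l 15817440))))) (b (c (a (b (l 15771856) (l 15765544)) (b (l 15659032) (l 15665768))) (a (l 15612520) (l 15540968))) (c (a (l 15726856) (l 15703704)) (a (l 15718056) (l 15652384)))))))))), by decide +kernel⟩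

def k1_pm_113 : ∃ t, chk3 f_pm_113 t 1 12 1 = true :=
  ⟨(a (l 2) (a (a (l 2) (b (a (l 2) (b (c (l 15154888) (l 15009200)) (a (l 14922376) (c (l 15155368) (l 15046216))))) (a (b (l 695880285815) (c (l 14446624) (a (l 14262208) (l 59688344087)))) (b (a (c (l 14855328) (l 14770536)) (c (l 15110224) (l 15110416))) (c (a (l 14847464) (l 15157728)) (a (l 14859224) (l 15176456))))))) (a (b (a (b (a (c (l 15417576) (l 15371992)) (c (l 15593968) (l 15535616))) (c (a (l 15342040) (l 15544680)) (a (l 15315952) (l 15502176)))) (b (c (a (l 15772576) (l 15912280)) (l 15751040)) (c (l 15807704) (l 15713168)))) (a (b (c (a (l 15338216) (l 15567992)) (l 15418544)) (c (l 15526480) (l 15479840))) (b (l 15759280) (l 15811456)))) (b (a (b (a (l 15906688) (c (l 15907376) (l 15842704))) (c (l 15917992) (l 15824800))) (a (b (l 15790592) (l 15840824)) (c (l 15772912) (l 15756864)))) (a (b (l 15857376) (a (l 15918880) (l 15922432))) (b (a (l 15857416) (c (l 15816672) (l 15812632))) (a (l 15895952) (l 15819288)))))))),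 by decide +kernel⟩

def k2_pm_113 : ∃ t, chk3 f_pm_113 t 2 13 1 = true :=
  ⟨(l 4), by decide +kernel⟩

def k3_pm_113 : ∃ t, chk3 f_pm_113 t 12 13 1 = true :=
  ⟨(b (b (a (l 2) (c (l 13906640) (l 433349092071))) (b (a (l 2) (a (a (l 2) (l 13780608)) (c (l 13989288) (l 13972984)))) (a (l 4) (a (a (l 4) (c (l 13816464) (c (b (l 13745736) (l 13796240)) (b (a (l 13520288) (c (l 13761424) (l 13765160))) (c (l 13795856) (l 13793440)))))) (b (a (a (c (l 13862096) (c (l 13846592) (l 13757520))) (l 13971720)) (l 14086568)) (c (a (c (l 13934416) (l 13933248)) (a (l 14058944) (l 14171568))) (c (a (b (l 13838968) (l 13991512)) (l 13959168)) (a (c (l 13893680) (l 13986824)) (l 14180728))))))))) (b (a (l 4) (a (l 4) (c (b (b (a (l 13978352) (b (a (l 14066432) (l 14237768)) (l 14106048))) (c (l 14119528) (l 13970752))) (c (l 14127632) (l 14017320))) (b (c (a (c (l 13994256) (l 14006640)) (b (b (a (l 14128600) (l 14309680)) (l 14130304)) (l 14194080))) (a (l 13994912) (b (l 13995032) (l 14173616)))) (c (l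 14106016) (l 14124128)))))) (l 4))), by decide +kernel⟩

def k4_pm_113 : ∃ t, chk3 f_pm_113 t 13 13 1 = true :=
  ⟨(a (a (b (b (c (l 14276136) (b (l 14233024) (l 14269608))) (c (l 14389400) (l 14409280))) (b (a (c (b (b (c (l 14396216) (b (l 14441440) (l 14411584))) (a (l 14061048) (l 14547888))) (c (l 14194568) (l 14409008))) (b (b (c (l 14442480) (l 14435344)) (a (l 14061752) (l 14491752))) (b (l 14245096) (l 14305328)))) (b (c (b (l 14650728) (c (l 14716704) (l 14735536))) (b (l 14646024) (c (l 14608048) (l 14436232)))) (b (a (b (l 14541888) (c (l 14496016) (l 14473256))) (b (l 14615168) (l 14648720))) (c (c (l 14576272) (l 14582192)) (a (l 14444176) (l 14522000)))))) (b (c (c (l 14475160) (l 14314144)) (l 14452376)) (l 4)))) (b (b (c (l 14597088) (l 14615016)) (c (l 14787344) (l 14796232))) (b (b (a (c (a (l 14797136) (l 14950856)) (l 14859120)) (l 15074608)) (b (a (a (c (l 14891488) (l 14854360)) (c (l 15038264) (l 14998616))) (b (l 15138320) (l 15088232))) (a (a (b (l 14762888) (l 14714528))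 (l 14899152)) (b (l 15034848) (l 15131712))))) (b (a (a (b (b (l 14692776) (l 14640680)) (a (l 14374328) (l 14605824))) (b (l 14629152) (l 14738328))) (a (b (l 14977488) (l 14874736)) (b (l 15129024) (l 15056688)))) (b (a (c (l 14743544) (l 14704344)) (c (l 14938624) (l 14893712))) (c (l 14866328) (l 14777368))))))) (b (b (c (a (l 14954256) (l 15308968)) (l 15008128)) (c (l 15328304) (l 15307064))) (b (a (b (l 15336016) (b (l 15432840) (a (c (l 15409848) (l 15379040)) (l 15562888)))) (l 15716408)) (a (a (b (b (l 15397352) (l 15285464)) (b (l 15201312) (l 15115824))) (b (b (c (l 15650400) (l 15625416)) (l 15583968)) (b (l 15480344) (l 15361608)))) (b (a (b (l 15736976) (c (l 15918240) (l 15900184))) (l 16019240)) (b (a (l 15803696) (b (l 16051272) (l 16040464))) (l 15808272))))))), by decide +kernel⟩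

def k5_pm_113 : ∃ t, chk3 f_pm_113 t 7 13 1 = true :=
  ⟨(a (b (a (b (c (l 15642480) (l 15589272)) (l 15798464)) (b (l 15930104) (l 16122536))) (b (a (l 16038664) (a (l 16311560) (l 16298184))) (a (b (a (a (l 16188216) (l 16308472)) (l 16435120)) (a (b (l 16207960) (a (c (l 16299584) (l 16197704)) (b (l 16507328) (a (l 16452848) (l 16563112))))) (b (l 16524552) (b (l 16545456) (l 16499936))))) (l 16367312)))) (b (a (b (a (l 16041072) (l 16001600)) (l 16075464)) (c (l 15867744) (l 15865488))) (a (l 16085704) (l 15841040)))), by decide +kernel⟩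

def k6_pm_113 : ∃ t, chk3 f_pm_113 t 1 7 1 = true :=
  ⟨(a (l 4) (a (a (l 4) (b (b (b (a (a (l 4) (a (l 4) (b (c (l 14994232) (l 14947928)) (l 4)))) (a (a (c (l 15124192) (l 15081256)) (b (b (l 15283008) (l 15174080)) (l 15104608))) (b (a (b (l 15517176) (l 15433304)) (b (l 15797960) (l 15642376))) (a (l 15320400) (b (l 15551680) (l 15506040)))))) (a (l 4) (b (a (a (l 4) (l 15147792)) (a (l 15292192) (l 15481168))) (a (l 4) (a (l 15359592) (l 15457264)))))) (b (a (l 4) (b (l 4) (l 4))) (l 4))) (l 4))) (b (a (b (a (b (b (a (a (l 15994568) (b (c (l 16347488) (l 16336488)) (l 16154040))) (b (c (l 16485432) (l 16480176)) (a (l 16349864) (l 16479456)))) (a (a (l 15760264) (l 16003152)) (l 16302064))) (b (a (a (l 15716376) (l 15943872)) (b (l 16193336) (l 16174112))) (a (l 15748576) (l 16209192)))) (b (a (b (l 16409008) (l 16407384)) (l 16302336)) (a (b (l 16370008) (l 16356288)) (b (l 16306432) (l 16300688))))) (a (a (b (b (l 15679440) (a (l 4) (l 15688280))) (l 4)) (b (b (l 16097336) (l 15919048))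 (b (l 15845696) (l 15880488)))) (b (b (a (l 16343824) (l 16300688)) (a (l 16194968) (l 16262416))) (a (l 16013328) (l 16170120))))) (a (b (b (l 16080368) (l 16079760)) (b (l 16079760) (a (l 16127024) (l 16007664)))) (b (l 15860320) (c (l 15858544) (l 15854768))))) (a (a (l 4) (b (b (a (l 16036712) (l 16069584)) (l 16277856)) (l 4))) (b (a (b (a (l 16068432) (l 16003408)) (l 16060824)) (b (a (l 15899512) (l 15802216)) (l 15860320))) (c (l 15775328) (l 15799664))))))), by decide +kernel⟩

theorem s7_pm_113 : ∃ t, chk3 f_pm_113 t 6 13 1 = true := ex3_a k3_pm_113 k4_pm_113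

theorem s8_pm_113 : ∃ t, chk3 f_pm_113 t 3 13 1 = true := ex3_a s7_pm_113 k5_pm_113

theorem s9_pm_113 : ∃ t, chk3 f_pm_113 t 1 13 1 = true := ex3_a k2_pm_113 s8_pm_113

theorem s10_pm_113 : ∃ t, chk3 f_pm_113 t 1 6 1 = true := ex3_b k1_pm_113 s9_pm_113

theorem s11_pm_113 : ∃ t, chk3 f_pm_113 t 1 3 1 = true := ex3_b s10_pm_113 k6_pm_113

theorem s12_pm_113 : ∃ t, chk3 f_pm_113 t 1 1 1 = true := ex3_b k0_pm_113 s11_pm_113

theorem c_pm_113 : CertFX 536870912 536870912 0 1230186008 1046898278 26843546 false true false .nn 1 1 3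
    ndF0q1 ndF7q3 pcF1 cut_pm_113 Ext.none :=
  certFX0 (fam := false) (s1 := true) (s2 := false) (a := 1) (b := 1) (c := 3) (cn := .nn) (n1 := ndF0q1) (n2 := ndF7q3) (pc := pcF1) (cut := cut_pm_113) (xt := Ext.none) (P1 := 536870912) (W1 := 536870912) (P2 := 0) (W2 := 1230186008) (P3 := 1046898278) (W3 := 26843546)
    rfl s12_pm_113

noncomputable def cut_pm_123 : Cut := Cut.of [[⟨3, 0, 0, 1449551462⟩], [⟨0, 1, 0, 67108864⟩, ⟨1, 1, 0, 67108864⟩, ⟨2, 2, 0, 67108864⟩, ⟨3, 0, 0, 1233125376⟩]]

noncomputable def f_pm_123 : ℕ → ℕ → ℕ → ℕ → Bool := onCell 1073741824 536870912 0 1230186008 1046898278 26843546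
    (rowFX 2 false true false .npn 1 2 3 (qsf 536870912 536870912 0 1230186008 2) ndF0q1 ndF7q3 pcF2 cut_pm_123 Ext.none)

def k0_pm_123 : ∃ t, chk3 f_pm_123 t 8 4 1 = true :=
  ⟨(b (b (l 6) (a (l 6) (b (l 6) (a (l 6) (l 16247744))))) (a (b (a (l 6) (b (l 6) (c (l 16442024) (l 16227528)))) (a (c (b (a (l 16330328) (l 16417320)) (a (l 16429736) (l 16257936))) (b (l 15972168) (l 15804392))) (c (b (l 16324592) (l 16180384)) (b (l 16067264) (l 15919960))))) (b (c (a (l 16385496) (l 16190104)) (a (l 16092408) (l 16006040))) (c (a (l 16134000) (l 15989600)) (a (l 15942304) (l 15834560)))))), by decide +kernel⟩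

def k1_pm_123 : ∃ t, chk3 f_pm_123 t 8 5 1 = true :=
  ⟨(b (a (b (c (a (b (a (l 16164072) (l 16073544)) (b (l 15948192) (l 15857592))) (b (l 16030744) (l 15892264))) (a (b (l 15661912) (l 15552368)) (b (l 15794656) (l 15694472)))) (c (a (b (c (l 15801472) (l 15663272)) (c (l 15645488) (l 15536896))) (b (l 15762784) (l 15649840))) (a (b (l 15455960) (l 15374016)) (b (l 15597680) (l 15513432))))) (b (c (a (b (l 15955512) (l 15852536)) (b (l 15862712) (l 15793584))) (b (a (l 15794480) (l 15742072)) (a (l 15720376) (l 15699848)))) (c (a (b (l 15755832) (l 15671920)) (b (l 15729728) (l 15673952))) (a (b (l 15645456) (l 15580744)) (b (l 15653888) (l 15613024)))))) (b (a (b (c (a (c (l 15518792) (l 15434216)) (b (l 15578416) (a (l 15519136) (l 15546080)))) (a (l 15307360) (b (l 15462384) (l 15426512)))) (c (a (b (a (l 15374160) (l 15424552)) (a (b (l 15335336) (l 15296640)) (l 15355136))) (b (b (a (l 15483016) (l 15506816)) (l 15455504)) (l 15376824))) (a (b (l 15256072) (b (l 15235048) (l 15198416)))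 (b (b (l 15402448) (l 15369464)) (l 15300256))))) (b (c (a (b (l 15615528) (a (l 15691640) (l 15568704))) (b (b (a (l 15642864) (l 15641568)) (l 15612616)) (l 15541560))) (a (b (l 15538552) (b (l 15516168) (l 15487328))) (b (b (l 15588752) (l 15564856)) (l 15500408)))) (c (a (l 15426736) (c (l 15413560) (l 15402208))) (a (l 15375376) (l 15376592))))) (a (c (b (a (l 15195504) (l 15232856)) (l 14912736)) (b (a (l 15096688) (l 15175576)) (a (l 14944648) (l 15015112)))) (c (b (a (l 15241296) (l 15237272)) (a (l 15058464) (l 15066336))) (b (a (l 15208144) (l 15212752)) (l 15037816)))))), by decide +kernel⟩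

def k2_pm_123 : ∃ t, chk3 f_pm_123 t 9 4 1 = true :=
  ⟨(b (b (a (a (l 6) (b (l 6) (a (a (l 6) (l 15761408)) (l 15653360)))) (b (b (a (a (l 6) (c (l 15352328) (l 15314736))) (a (c (l 15208016) (l 15166048)) (l 15050256))) (a (a (c (l 15503408) (l 15468840)) (l 15341640)) (l 15142680))) (l 15310136))) (a (c (l 15685520) (a (l 15926496) (l 15668520))) (c (l 15380208) (l 15275568)))) (a (b (c (a (l 15983408) (l 15764824)) (a (l 15810296) (l 15600792))) (a (c (l 15844320) (l 15713912)) (c (l 15671032) (l 15557376)))) (b (c (b (l 15405496) (l 15381992)) (b (l 15249528) (l 15240616))) (c (a (l 15445464) (l 15253944)) (a (l 15342784) (l 15157304)))))), by decide +kernel⟩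

def k3_pm_123 : ∃ t, chk3 f_pm_123 t 9 5 1 = true :=
  ⟨(b (b (a (c (a (b (l 15766480) (l 15729992)) (b (l 15628920) (l 15616152))) (a (b (l 15673160) (l 15663216)) (b (l 15554584) (l 15568624)))) (a (c (b (l 15428256) (l 15445432)) (b (l 15365408) (l 15405456))) (c (b (l 15281368) (l 15321912)) (l 15249080)))) (a (b (a (c (l 15698560) (l 15647696)) (c (c (l 15625152) (l 15607600)) (l 15581272))) (a (c (b (l 15680208) (a (b (l 15672312) (l 15656016)) (b (l 15665016) (l 15633144)))) (b (l 15638664) (a (l 15620416) (l 15618144)))) (c (b (a (b (l 15655080) (a (l 15669864) (l 15633536))) (b (l 15582168) (l 15565296))) (l 15564592)) (b (a (b (l 15624424) (l 15620552)) (l 15541688)) (l 15534088))))) (b (c (a (b (l 15467976) (a (l 15510904) (l 15442232))) (b (a (l 15378528) (l 15317616)) (l 15336200))) (a (b (l 15433968) (a (l 15478016) (l 15407552))) (b (l 15308616) (l 15298768)))) (c (a (b (l 15449200) (l 15404936)) (l 15298064)) (a (l 15392328) (l 15259640)))))) (a (b (c (a (b (c (l 15555504)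 (l 15542616)) (l 15395056)) (b (c (l 15479376) (l 15465400)) (l 15345712))) (a (b (l 15517128) (l 15365936)) (b (l 15440008) (l 15313168)))) (c (a (b (l 15243584) (l 15090480)) (b (l 15218560) (l 15090064))) (a (l 15137960) (l 15120080)))) (b (c (b (a (l 15338560) (l 15246448)) (l 15217392)) (b (l 15207424) (l 15176872))) (c (b (l 15145928) (l 15073728)) (b (l 15103560) (l 15029480)))))), by decide +kernel⟩

def k4_pm_123 : ∃ t, chk3 f_pm_123 t 5 4 1 = true :=
  ⟨(a (a (b (a (b (c (l 14936544) (l 14888184)) (c (l 15034208) (l 14929848))) (b (l 15065304) (c (l 15188264) (l 15079656)))) (a (b (c (b (l 15088304) (l 15101016)) (b (l 14940520) (l 14965536))) (c (l 15120952) (l 15024824))) (b (c (l 15248888) (l 15114176)) (c (l 15274624) (l 15186432))))) (b (b (c (l 15703736) (l 15675360)) (c (l 15759064) (l 15664064))) (b (c (l 15655952) (l 15540376)) (c (l 15701912) (l 15720936))))) (b (b (a (c (l 16353888) (l 16267504)) (l 16680296)) (a (c (l 16297080) (l 16275000)) (c (l 16697808) (l 16694816))))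 (a (b (c (l 16315432) (l 16278512)) (b (l 16274216) (a (l 16270272) (c (l 16557568) (l 16540032))))) (b (c (l 16687112) (l 16684736)) (b (a (l 16694616) (l 16688784)) (c (l 16672888) (l 16666576))))))), by decide +kernel⟩

def k5_pm_123 : ∃ t, chk3 f_pm_123 t 5 5 1 = true :=
  ⟨(a (b (a (a (b (c (b (l 15190376) (a (l 15240400) (b (l 15177944) (b (l 15197304) (l 15181536))))) (b (l 15106168) (b (l 15154616) (a (l 15212184) (l 15157752))))) (c (b (a (l 15251224) (l 15200640)) (l 15210976)) (b (a (l 15211592) (l 15159688)) (l 15170296)))) (b (b (c (l 15322592) (l 15264496)) (c (b (l 15311432) (l 15362000)) (b (l 15309264) (l 15324736)))) (c (b (l 15357640) (l 15349432)) (l 15316560)))) (b (b (c (a (l 15675968) (l 15995936)) (a (l 15628616) (l 15958816))) (c (a (l 15683480) (l 15972664)) (a (l 15651480) (l 15948352)))) (c (a (l 15647192) (l 15906376)) (a (l 15617840) (l 15883760))))) (a (a (b (c (b (l 15196616) (l 15182088)) (l 15148112)) (c (l 15159984) (l 15117976))) (c (b (l 15336912) (l 15319904))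 (b (l 15299504) (l 15282048)))) (b (c (b (l 15724832) (l 15686992)) (b (l 15697496) (l 15658672))) (c (l 15629520) (l 15599704))))) (b (a (b (a (b (b (l 16275744) (l 16254496)) (l 16198744)) (c (l 16486032) (l 16470936))) (c (l 16152440) (l 16138392))) (b (c (l 16595648) (l 16585208)) (c (l 16451744) (l 16443288)))) (a (b (c (l 16083576) (l 16065560)) (c (l 15929256) (l 15907232))) (b (c (l 16288816) (l 16276128)) (c (b (l 16165840) (l 16114704)) (b (l 16149960) (l 16097496))))))), by decide +kernel⟩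

def k6_pm_123 : ∃ t, chk3 f_pm_123 t 3 2 1 = true :=
  ⟨(b (a (b (a (c (l 16717560) (l 16717544)) (b (l 16743664) (a (l 16694664) (l 16694904)))) (a (b (a (c (l 16681928) (l 16679000)) (c (l 16679560) (l 16676488))) (a (c (l 16660336) (l 16653968)) (l 16661216))) (c (b (l 16686056) (l 16702880)) (a (l 16686680) (l 16691000))))) (c (b (a (l 16717560) (l 16717560)) (a (l 16693184) (l 16693184))) (b (a (l 16717544) (l 16717544)) (a (l 16691000) (l 16691000))))) (b (a (a (c (b (l 16506448) (a (l 16523520) (l 16636912))) (b (a (l 16599368) (l 16659432)) (a (l 16516928) (l 16633264)))) (c (a (l 16751320) (l 16764200)) (b (l 16746816) (a (l 16760776) (l 16777216))))) (a (c (a (l 16764200) (l 16764200)) (c (l 16763944) (l 16700864))) (a (c (l 16764200) (l 16763864)) (l 4)))) (a (b (a (a (c (l 16419944) (l 16410664)) (c (l 16593784) (l 16589016))) (a (c (l 16758200) (l 16652848)) (l 4))) (a (a (c (l 16356880) (l 16345960)) (l 4)) (l 4))) (l 4)))), by decide +kernel⟩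

def k7_pm_123 : ∃ t, chk3 f_pm_123 t 1 3 1 = true :=
  ⟨(b (a (b (a (a (b (a (c (b (l 14854568) (l 14659080)) (b (a (l 14795712) (l 14838232)) (a (l 14615688) (l 14637008)))) (c (c (l 14788440) (l 14788384)) (c (l 14782992) (l 14760808)))) (c (a (l 14338984) (c (l 14416400) (l 14423120))) (a (c (l 14307976) (l 14297800)) (c (l 14422112) (l 14396768))))) (a (b (c (a (l 14858112) (l 14895056)) (a (l 14828808) (l 14858312))) (c (a (l 14404592) (b (l 14697752) (l 14601056))) (a (l 14521984) (l 14613912)))) (b (c (l 14964264) (l 14917176)) (c (b (l 14863712) (l 14837912)) (b (l 14814008) (l 14787544)))))) (a (a (b (a (c (l 15130104) (l 15087320)) (c (l 15303168) (l 15264880))) (a (c (l 15113992) (l 15070792)) (l 4))) (b (c (b (l 15573312) (l 15553696)) (b (l 15542040) (l 15521912))) (l 4))) (a (b (c (l 15843872) (b (l 15821896) (l 4))) (l 4)) (l 4)))) (b (a (a (c (a (l 13965360) (a (l 14108008) (l 14068304))) (a (b (c (l 13983384) (l 13974784)) (c (l 13854848) (l 13846864))) (b (l 14187208) (l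 4)))) (a (l 4) (l 4))) (l 4)) (l 4))) (l 4)) (l 4)), by decide +kernel⟩

theorem s8_pm_123 : ∃ t, chk3 f_pm_123 t 5 2 1 = true := ex3_b k4_pm_123 k5_pm_123

theorem s9_pm_123 : ∃ t, chk3 f_pm_123 t 9 2 1 = true := ex3_b k2_pm_123 k3_pm_123

theorem s10_pm_123 : ∃ t, chk3 f_pm_123 t 8 2 1 = true := ex3_b k0_pm_123 k1_pm_123

theorem s11_pm_123 : ∃ t, chk3 f_pm_123 t 4 2 1 = true := ex3_a s10_pm_123 s9_pm_123

theorem s12_pm_123 : ∃ t, chk3 f_pm_123 t 2 2 1 = true := ex3_a s11_pm_123 s8_pm_123

theorem s13_pm_123 : ∃ t, chk3 f_pm_123 t 1 2 1 = true := ex3_a s12_pm_123 k6_pm_123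

theorem s14_pm_123 : ∃ t, chk3 f_pm_123 t 1 1 1 = true := ex3_b s13_pm_123 k7_pm_123

theorem c_pm_123 : CertFX 536870912 536870912 0 1230186008 1046898278 26843546 false true false .npn 1 2 3
    ndF0q1 ndF7q3 pcF2 cut_pm_123 Ext.none :=
  certFX2 (fam := false) (s1 := true) (s2 := false) (a := 1) (b := 2) (c := 3) (cn := .npn) (n1 := ndF0q1) (n2 := ndF7q3) (pc := pcF2) (cut := cut_pm_123) (xt := Ext.none) (P1 := 536870912) (W1 := 536870912) (P2 := 0) (W2 := 1230186008) (P3 := 1046898278) (W3 := 26843546)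
    rfl (fun _ => rfl) s14_pm_123

noncomputable def cut_pm_133 : Cut := Cut.of [[⟨3, 0, 0, 1449551462⟩]]

noncomputable def f_pm_133 : ℕ → ℕ → ℕ → ℕ → Bool := onCell 536870912 536870912 0 1230186008 1046898278 26843546
    (rowFX 0 false true false .dn 1 3 3 (qsf 536870912 536870912 0 1230186008 3) ndF0q1 ndF7q3 pcF3 cut_pm_133 Ext.none)

def k0_pm_133 : ∃ t, chk3 f_pm_133 t 1 1 1 = true :=
  ⟨(b (a (b (b (a (a (c (l 16717256) (l 16717232)) (l 1)) (l 1)) (l 1)) (l 1)) (l 1)) (l 1)), by decide +kernel⟩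

theorem c_pm_133 : CertFX 536870912 536870912 0 1230186008 1046898278 26843546 false true false .dn 1 3 3
    ndF0q1 ndF7q3 pcF3 cut_pm_133 Ext.none :=
  certFX0 (fam := false) (s1 := true) (s2 := false) (a := 1) (b := 3) (c := 3) (cn := .dn) (n1 := ndF0q1) (n2 := ndF7q3) (pc := pcF3) (cut := cut_pm_133) (xt := Ext.none) (P1 := 536870912) (W1 := 536870912) (P2 := 0) (W2 := 1230186008) (P3 := 1046898278) (W3 := 26843546)
    rfl k0_pm_133

noncomputable def cut_pm_202 : Cut := Cut.of [[⟨3, 0, 0, 1449551462⟩]]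

noncomputable def f_pm_202 : ℕ → ℕ → ℕ → ℕ → Bool := onCell 0 536870912 0 536870912 1046898278 26843546
    (rowFX 1 false true false .pp 2 0 2 (qsf 0 536870912 1073741824 536870912 0) ndF0q2 ndF7q2 pcF0 cut_pm_202 Ext.none)

def k0_pm_202 : ∃ t, chk3 f_pm_202 t 2 4 1 = true :=
  ⟨(b (b (a (a (b (c (b (c (l 15959624) (l 15734784)) (c (b (l 15960312) (l 16045376)) (b (l 15999992) (l 16050448)))) (b (c (b (l 15913856) (c (l 15952096) (l 15950424))) (b (a (c (l 15936464) (l 15909392)) (l 15863128)) (c (l 15946136) (l 15937000)))) (c (b (l 15976496) (l 16035672)) (l 15997104)))) (c (b (c (l 15926960) (l 16040128)) (c (l 16184632) (l 16155808))) (c (l 16105832) (l 16092448)))) (b (c (b (l 15781936) (c (l 15866888) (l 15860792))) (b (c (l 15760448) (b (l 15723800) (l 15769184))) (c (l 15850216) (l 15831696)))) (c (c (l 15999400) (l 15980784)) (l 15952336)))) (b (c (b (a (l 15554064) (l 15257936)) (c (a (l 15647680) (l 15361832)) (a (l 15636960) (l 15345600)))) (b (c (b (l 15351888) (a (l 15550784)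 (l 15251600))) (a (c (l 15494784) (l 15506976)) (b (c (l 15186544) (l 15176168)) (l 15232408)))) (c (a (l 15623000) (l 15327496)) (l 15453072)))) (c (a (c (l 15789968) (l 15770704)) (c (l 15490112) (l 15490632))) (a (l 15741448) (l 15354888))))) (a (c (c (b (a (l 16257504) (l 16126144)) (a (l 16344856) (a (l 16253408) (l 16183440)))) (b (a (l 16233792) (l 16019624)) (a (l 16334016) (l 16210192)))) (a (b (l 16217848) (l 16326464)) (b (l 15938880) (l 16199664)))) (c (a (b (l 15921832) (l 16042856)) (b (l 15671336) (l 15819000))) (a (l 15810472) (c (l 15721168) (l 15707656)))))) (a (b (c (a (b (l 16428800) (l 16511816)) (b (l 16270128) (l 16405368))) (a (l 16423504) (a (l 16387280) (l 16319384)))) (c (a (l 16632984) (l 16547520)) (a (l 16630880) (l 16542240)))) (b (c (a (b (l 16158376) (l 16268448)) (l 16015760)) (a (b (l 16142432) (l 16255240)) (l 15995832))) (a (c (l 16280312) (b (l 16363480) (l 16469048))) (c (l 16255304) (l 16241456)))))), by decide +kernel⟩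

def k1_pm_202 : ∃ t, chk3 f_pm_202 t 3 4 1 = true :=
  ⟨(a (b (b (a (b (c (b (c (l 14910080) (l 14885336)) (c (b (l 14979048) (l 15029416)) (b (l 14956048) (l 15007640)))) (b (c (b (l 14834896) (c (l 14888664) (l 14876808))) (b (c (l 25463388599) (c (l 30295208151) (l 14590952))) (c (l 14864776) (l 14852432)))) (c (c (l 14965448) (l 14953488)) (l 14935528)))) (c (c (b (l 15106456) (l 15205480)) (l 15071928)) (c (l 15112200) (l 15090440)))) (l 4)) (b (a (c (c (l 15348896) (l 15328040)) (l 15110408)) (l 4)) (a (c (c (l 15528288) (l 15511024)) (l 15486424)) (a (c (l 15214624) (l 15173976)) (l 4))))) (b (a (c (c (l 15764224) (l 15750896)) (c (l 15737568) (l 15724232))) (a (a (c (l 15547168) (l 15515160)) (c (l 15408456) (l 15372752))) (l 4))) (a (c (l 16033880) (l 15993352)) (c (a (l 15782800) (l 15509856)) (a (l 15756736) (l 15476320)))))) (l 4)), by decide +kernel⟩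

def k2_pm_202 : ∃ t, chk3 f_pm_202 t 1 5 1 = true :=
  ⟨(a (b (a (c (b (a (l 16629600) (l 16723048)) (a (b (l 16560472) (l 16566040)) (l 16627864))) (b (a (l 16626776) (l 16723032)) (a (b (l 16555024) (l 16558680)) (l 16624144)))) (a (b (c (l 16618232) (l 16593352)) (c (l 16717800) (l 16716664))) (b (c (l 16477360) (l 16469304)) (c (l 16671008) (l 16626256))))) (a (b (c (a (c (l 16680496) (l 16684440)) (l 16700368)) (c (l 16625728) (l 16582256))) (c (a (c (l 16777056) (l 16777056)) (l 16777088)) (a (c (l 16777056) (l 16777048)) (l 16777080)))) (a (b (c (l 16717200) (l 16715640)) (c (l 16777112) (l 16777112))) (c (b (l 16760728) (l 16777144)) (b (l 16760400) (l 16777136)))))) (a (b (a (c (b (l 16285472) (l 16507104)) (b (l 16272400) (l 16499824))) (c (b (a (l 16058304) (l 15789344)) (l 16158896)) (b (a (l 16039264) (l 15762784)) (l 15953848)))) (a (b (c (l 16689904) (l 16687504)) (c (l 16770512) (l 16770336))) (c (b (l 16374640) (l 16586424)) (b (a (l 16516312) (l 16271960)) (l 16371328)))))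 (a (b (a (b (l 4) (c (l 15771128) (l 15743192))) (l 4)) (b (c (l 15782336) (a (l 15997024) (l 4))) (c (l 16014048) (l 15848016)))) (l 4)))), by decide +kernel⟩

def k3_pm_202 : ∃ t, chk3 f_pm_202 t 1 3 1 = true :=
  ⟨(a (b (c (a (a (b (l 16777216) (b (l 16777216) (l 16777216))) (b (c (l 16777216) (l 16777216)) (b (l 16777216) (l 16777216)))) (a (b (l 16777216) (b (l 16777216) (l 16777216))) (b (l 16777216) (b (l 16777216) (l 16777216))))) (a (a (b (b (l 16777216) (l 16777216)) (b (l 16777216) (l 16777216))) (b (c (l 16777216) (l 16777216)) (b (l 16777216) (l 16777216)))) (a (b (l 16777216) (b (l 16777216) (l 16777216))) (b (l 16777216) (b (l 16777216) (l 16777216)))))) (b (b (a (l 2) (a (l 2) (c (l 16777216) (l 16777216)))) (l 2)) (l 2))) (a (b (c (a (b (l 16777216) (l 16777216)) (b (l 16660936) (b (l 16662200) (l 16662200)))) (a (b (l 16777216) (l 16777216)) (b (l 16469160) (a (l 16727968) (l 16587624))))) (b (a (b (c (l 16777216) (l 16777216)) (l 2)) (a (c (l 16729216) (l 16727968)) (l 16569048)))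 (l 2))) (b (a (b (c (b (l 16107968) (l 16345264)) (b (l 16052384) (l 16334024))) (c (l 16347472) (l 16336304))) (a (b (l 4) (b (l 15988568) (l 16030512))) (l 4))) (a (c (b (a (l 16438056) (l 16253288)) (l 16347472)) (c (l 16213264) (l 16228656))) (c (b (l 15828744) (l 15891656)) (b (l 15868136) (l 15952016))))))), by decide +kernel⟩

theorem s4_pm_202 : ∃ t, chk3 f_pm_202 t 1 4 1 = true := ex3_a k0_pm_202 k1_pm_202

theorem s5_pm_202 : ∃ t, chk3 f_pm_202 t 1 2 1 = true := ex3_b s4_pm_202 k2_pm_202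

theorem s6_pm_202 : ∃ t, chk3 f_pm_202 t 1 1 1 = true := ex3_b s5_pm_202 k3_pm_202

theorem c_pm_202 : CertFX 0 536870912 1073741824 536870912 1046898278 26843546 false true false .pp 2 0 2
    ndF0q2 ndF7q2 pcF0 cut_pm_202 Ext.none :=
  certFX1 (fam := false) (s1 := true) (s2 := false) (a := 2) (b := 0) (c := 2) (cn := .pp) (n1 := ndF0q2) (n2 := ndF7q2) (pc := pcF0) (cut := cut_pm_202) (xt := Ext.none) (P1 := 0) (W1 := 536870912) (P2 := 1073741824) (W2 := 536870912) (P3 := 1046898278) (W3 := 26843546)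
    rfl (fun _ => rfl) s6_pm_202

noncomputable def cut_pm_203 : Cut := Cut.of [[⟨3, 0, 0, 1449551462⟩]]

noncomputable def f_pm_203 : ℕ → ℕ → ℕ → ℕ → Bool := onCell 0 536870912 0 1230186008 1046898278 26843546
    (rowFX 0 false true false .up 2 0 3 (qsf 0 536870912 0 1230186008 0) ndF0q2 ndF7q3 pcF0 cut_pm_203 Ext.none)

def k0_pm_203 : ∃ t, chk3 f_pm_203 t 1 1 1 = true :=
  ⟨(b (l 2) (b (l 2) (b (a (b (l 2) (a (a (l 6) (b (l 2) (c (l 228270800903) (c (l 16777216) (l 16777216))))) (a (c (l 207332835335) (l 212701544455)) (c (l 16777216) (l 16777216))))) (l 2)) (b (a (a (b (a (a (l 6) (c (l 16777216) (l 16777216))) (c (l 16777216) (l 16777216))) (a (c (c (l 16777216) (l 16777216)) (c (l 16777216) (l 16777216))) (c (l 16777216) (l 16777216)))) (c (a (c (l 16777216) (l 16777216)) (l 16777216)) (a (c (l 16777216) (l 16777216)) (l 16777216)))) (a (a (c (l 16777216) (l 16777216)) (c (l 16662200) (b (l 2) (l 16659216)))) (a (c (l 16347472) (b (l 2) (l 16336304))) (l 2)))) (a (a (c (a (b (l 16777216)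 (l 16777216)) (b (l 16777216) (l 16777216))) (a (b (l 16777216) (l 16777216)) (b (l 16777216) (l 16777216)))) (c (a (b (l 16777216) (l 16777216)) (b (l 16777216) (l 16777216))) (a (b (l 16777216) (l 16777216)) (b (l 16777216) (l 16777216))))) (a (a (c (b (l 16777216) (l 16777216)) (b (l 16777216) (l 16777216))) (b (c (l 16662200) (l 16659216)) (l 16660704))) (a (b (l 16341888) (l 16341888)) (c (l 15912632) (l 15868136))))))))), by decide +kernel⟩

theorem c_pm_203 : CertFX 0 536870912 0 1230186008 1046898278 26843546 false true false .up 2 0 3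
    ndF0q2 ndF7q3 pcF0 cut_pm_203 Ext.none :=
  certFX0 (fam := false) (s1 := true) (s2 := false) (a := 2) (b := 0) (c := 3) (cn := .up) (n1 := ndF0q2) (n2 := ndF7q3) (pc := pcF0) (cut := cut_pm_203) (xt := Ext.none) (P1 := 0) (W1 := 536870912) (P2 := 0) (W2 := 1230186008) (P3 := 1046898278) (W3 := 26843546)
    rfl k0_pm_203

noncomputable def cut_pm_213 : Cut := Cut.of [[⟨3, 0, 0, 1449551462⟩], [⟨0, 1, 0, 67108864⟩, ⟨1, 1, 0, 67108864⟩, ⟨2, 2, 0, 67108864⟩, ⟨3, 0, 0, 1233125376⟩]]

noncomputable def f_pm_213 : ℕ → ℕ → ℕ → ℕ → Bool := onCell 0 536870912 0 1230186008 1046898278 26843546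
    (rowFX 0 false true false .pnn 2 1 3 (qsf 0 536870912 0 1230186008 1) ndF0q2 ndF7q3 pcF1 cut_pm_213 Ext.none)

def k0_pm_213 : ∃ t, chk3 f_pm_213 t 1 2 1 = true :=
  ⟨(a (l 6) (b (a (l 6) (l 6)) (a (b (l 6) (a (l 6) (a (l 6) (b (l 6) (b (a (l 6) (l 16551864)) (l 16590664)))))) (b (a (a (l 6) (a (l 6) (b (l 6) (b (l 6) (l 16201032))))) (a (b (l 6) (c (b (l 16093088) (l 16054152)) (l 15975496))) (b (c (a (l 15897904) (l 15872248)) (a (l 15801248) (c (l 15634128) (l 15480432)))) (c (a (l 15866752) (l 15720736)) (a (l 15740040) (l 15539176)))))) (a (b (a (b (l 6) (c (l 16434792) (l 16430256))) (c (l 16256392) (l 16229872))) (a (c (l 16438432) (l 16433920)) (c (b (l 16254512) (l 16258456)) (l 16140296)))) (b (c (a (l 16027416) (b (l 15768728) (l 15771976))) (a (l 15973552) (b (l 15678576) (l 15711560)))) (a (c (b (l 16032776) (l 16046680)) (l 16014568)) (c (l 15802024) (l 15774968))))))))), by decide +kernel⟩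

def k1_pm_213 : ∃ t, chk3 f_pm_213 t 1 6 1 = true :=
  ⟨(a (b (l 6) (a (l 6) (b (a (l 6) (a (l 6) (c (l 16777216) (l 16777216)))) (b (a (l 6) (c (l 16777216) (l 16777216))) (a (a (l 6) (c (l 16777216) (l 16777216))) (c (l 16777216) (l 16777216))))))) (a (b (b (a (a (l 6) (l 6)) (c (l 16662544) (l 16660176))) (a (b (a (l 6) (l 16777216)) (c (l 16777216) (l 16777216))) (c (l 16662232) (l 16659256)))) (a (c (b (l 16777216) (l 16777216)) (b (l 16777216) (l 16777216))) (c (b (l 16662200) (l 16662200)) (b (l 16659216) (l 16659216))))) (b (a (c (b (l 16351296) (l 16349032)) (b (l 16342336) (l 16338352))) (b (a (c (l 16055696) (l 16040512)) (c (b (l 15846120) (l 15864176)) (b (l 15840168) (l 15863480)))) (c (a (l 16051720) (l 15863216)) (a (l 16034240) (l 15861456))))) (a (b (c (l 16347472) (l 16336312)) (c (l 16347472) (l 16336304))) (b (c (l 15956936) (l 15954784)) (l 15768320)))))), by decide +kernel⟩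

def k2_pm_213 : ∃ t, chk3 f_pm_213 t 1 7 1 = true :=
  ⟨(b (a (a (a (l 6) (b (l 6) (c (c (l 16777216) (l 16777216)) (c (l 16777216) (l 16777216))))) (b (c (a (c (l 16777216) (l 16777216)) (l 16777216)) (a (c (l 16777216) (l 16777216)) (l 16777216))) (a (c (l 16777216) (l 16777216)) (c (l 16777216) (l 16777216))))) (a (c (b (a (l 16777216) (l 16662200)) (a (l 16777216) (l 16662200))) (b (a (l 16777216) (l 16659216)) (a (l 16777216) (l 16659216)))) (a (b (c (l 16347472) (l 16336304)) (c (l 16347472) (l 16336304))) (b (c (l 15954576) (l 15952016)) (c (l 15954576) (l 15952016)))))) (b (a (a (l 1) (a (l 1) (c (l 16777216) (l 16777216)))) (a (a (c (l 16777216) (l 16777216)) (c (l 16662200) (b (l 16659216) (l 16659216)))) (a (c (l 16347472) (l 16231448)) (c (a (l 16045520) (l 15850352)) (b (l 15952016) (l 15952016)))))) (a (l 1) (a (l 1) (a (b (l 16341888) (l 1)) (c (l 15912632) (l 15826192))))))), by decide +kernel⟩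

theorem s3_pm_213 : ∃ t, chk3 f_pm_213 t 1 3 1 = true := ex3_b k1_pm_213 k2_pm_213

theorem s4_pm_213 : ∃ t, chk3 f_pm_213 t 1 1 1 = true := ex3_b k0_pm_213 s3_pm_213

theorem c_pm_213 : CertFX 0 536870912 0 1230186008 1046898278 26843546 false true false .pnn 2 1 3
    ndF0q2 ndF7q3 pcF1 cut_pm_213 Ext.none :=
  certFX0 (fam := false) (s1 := true) (s2 := false) (a := 2) (b := 1) (c := 3) (cn := .pnn) (n1 := ndF0q2) (n2 := ndF7q3) (pc := pcF1) (cut := cut_pm_213) (xt := Ext.none) (P1 := 0) (W1 := 536870912) (P2 := 0) (W2 := 1230186008) (P3 := 1046898278) (W3 := 26843546)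
    rfl s4_pm_213

noncomputable def cut_mm_001 : Cut := Cut.of [[⟨3, 0, 0, 1449551462⟩]]

noncomputable def f_mm_001 : ℕ → ℕ → ℕ → ℕ → Bool := onCell 0 536870912 536870912 536870912 1046898278 26843546
    (rowFX 0 false false false .up 0 0 1 (qsf 0 536870912 536870912 536870912 0) ndF0q0 ndF7q1 pcF0 cut_mm_001 Ext.none)

def k0_mm_001 : ∃ t, chk3 f_mm_001 t 1 1 1 = true :=
  ⟨(l 6), by decide +kernel⟩

theorem c_mm_001 : CertFX 0 536870912 536870912 536870912 1046898278 26843546 false false false .up 0 0 1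
    ndF0q0 ndF7q1 pcF0 cut_mm_001 Ext.none :=
  certFX0 (fam := false) (s1 := false) (s2 := false) (a := 0) (b := 0) (c := 1) (cn := .up) (n1 := ndF0q0) (n2 := ndF7q1) (pc := pcF0) (cut := cut_mm_001) (xt := Ext.none) (P1 := 0) (W1 := 536870912) (P2 := 536870912) (W2 := 536870912) (P3 := 1046898278) (W3 := 26843546)
    rfl k0_mm_001

noncomputable def cut_mm_011 : Cut := Cut.of [[⟨3, 0, 0, 1449551462⟩]]

noncomputable def f_mm_011 : ℕ → ℕ → ℕ → ℕ → Bool := onCell 0 536870912 536870912 536870912 1046898278 26843546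
    (rowFX 0 false false false .pnn 0 1 1 (qsf 0 536870912 536870912 536870912 1) ndF0q0 ndF7q1 pcF1 cut_mm_011 Ext.none)

def k0_mm_011 : ∃ t, chk3 f_mm_011 t 1 1 1 = true :=
  ⟨(l 6), by decide +kernel⟩

theorem c_mm_011 : CertFX 0 536870912 536870912 536870912 1046898278 26843546 false false false .pnn 0 1 1
    ndF0q0 ndF7q1 pcF1 cut_mm_011 Ext.none :=
  certFX0 (fam := false) (s1 := false) (s2 := false) (a := 0) (b := 1) (c := 1) (cn := .pnn) (n1 := ndF0q0) (n2 := ndF7q1) (pc := pcF1) (cut := cut_mm_011) (xt := Ext.none) (P1 := 0) (W1 := 536870912) (P2 := 536870912) (W2 := 536870912) (P3 := 1046898278) (W3 := 26843546)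
    rfl k0_mm_011

noncomputable def cut_mm_012 : Cut := Cut.of [[⟨3, 0, 0, 1449551462⟩]]

noncomputable def f_mm_012 : ℕ → ℕ → ℕ → ℕ → Bool := onCell 0 536870912 1073741824 536870912 1046898278 26843546
    (rowFX 0 false false false .pnp 0 1 2 (qsf 0 536870912 1073741824 536870912 1) ndF0q0 ndF7q2 pcF1 cut_mm_012 Ext.none)

def k0_mm_012 : ∃ t, chk3 f_mm_012 t 1 1 1 = true :=
  ⟨(l 5), by decide +kernel⟩

theorem c_mm_012 : CertFX 0 536870912 1073741824 536870912 1046898278 26843546 false false false .pnp 0 1 2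
    ndF0q0 ndF7q2 pcF1 cut_mm_012 Ext.none :=
  certFX0 (fam := false) (s1 := false) (s2 := false) (a := 0) (b := 1) (c := 2) (cn := .pnp) (n1 := ndF0q0) (n2 := ndF7q2) (pc := pcF1) (cut := cut_mm_012) (xt := Ext.none) (P1 := 0) (W1 := 536870912) (P2 := 1073741824) (W2 := 536870912) (P3 := 1046898278) (W3 := 26843546)
    rfl k0_mm_012

noncomputable def cut_mm_022 : Cut := Cut.of [[⟨3, 0, 0, 1449551462⟩]]

noncomputable def f_mm_022 : ℕ → ℕ → ℕ → ℕ → Bool := onCell 0 536870912 1073741824 536870912 1046898278 26843546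
    (rowFX 0 false false false .pp 0 2 2 (qsf 0 536870912 1073741824 536870912 2) ndF0q0 ndF7q2 pcF2 cut_mm_022 Ext.none)

def k0_mm_022 : ∃ t, chk3 f_mm_022 t 1 1 1 = true :=
  ⟨(l 5), by decide +kernel⟩

theorem c_mm_022 : CertFX 0 536870912 1073741824 536870912 1046898278 26843546 false false false .pp 0 2 2
    ndF0q0 ndF7q2 pcF2 cut_mm_022 Ext.none :=
  certFX0 (fam := false) (s1 := false) (s2 := false) (a := 0) (b := 2) (c := 2) (cn := .pp) (n1 := ndF0q0) (n2 := ndF7q2) (pc := pcF2) (cut := cut_mm_022) (xt := Ext.none) (P1 := 0) (W1 := 536870912) (P2 := 1073741824) (W2 := 536870912) (P3 := 1046898278) (W3 := 26843546)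
    rfl k0_mm_022

noncomputable def cut_mm_023 : Cut := Cut.of [[⟨3, 0, 0, 1449551462⟩]]

noncomputable def f_mm_023 : ℕ → ℕ → ℕ → ℕ → Bool := onCell 0 536870912 0 1230186008 1046898278 26843546
    (rowFX 0 false false false .up 0 2 3 (qsf 0 536870912 0 1230186008 2) ndF0q0 ndF7q3 pcF2 cut_mm_023 Ext.none)

def k0_mm_023 : ∃ t, chk3 f_mm_023 t 1 1 1 = true :=
  ⟨(l 5), by decide +kernel⟩

theorem c_mm_023 : CertFX 0 536870912 0 1230186008 1046898278 26843546 false false false .up 0 2 3
    ndF0q0 ndF7q3 pcF2 cut_mm_023 Ext.none :=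
  certFX0 (fam := false) (s1 := false) (s2 := false) (a := 0) (b := 2) (c := 3) (cn := .up) (n1 := ndF0q0) (n2 := ndF7q3) (pc := pcF2) (cut := cut_mm_023) (xt := Ext.none) (P1 := 0) (W1 := 536870912) (P2 := 0) (W2 := 1230186008) (P3 := 1046898278) (W3 := 26843546)
    rfl k0_mm_023

noncomputable def cut_mm_033 : Cut := Cut.of [[⟨3, 0, 0, 1449551462⟩]]

noncomputable def f_mm_033 : ℕ → ℕ → ℕ → ℕ → Bool := onCell 0 536870912 0 1230186008 1046898278 26843546
    (rowFX 0 false false false .pnn 0 3 3 (qsf 0 536870912 0 1230186008 3) ndF0q0 ndF7q3 pcF3 cut_mm_033 Ext.none)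

def k0_mm_033 : ∃ t, chk3 f_mm_033 t 1 1 1 = true :=
  ⟨(l 5), by decide +kernel⟩

theorem c_mm_033 : CertFX 0 536870912 0 1230186008 1046898278 26843546 false false false .pnn 0 3 3
    ndF0q0 ndF7q3 pcF3 cut_mm_033 Ext.none :=
  certFX0 (fam := false) (s1 := false) (s2 := false) (a := 0) (b := 3) (c := 3) (cn := .pnn) (n1 := ndF0q0) (n2 := ndF7q3) (pc := pcF3) (cut := cut_mm_033) (xt := Ext.none) (P1 := 0) (W1 := 536870912) (P2 := 0) (W2 := 1230186008) (P3 := 1046898278) (W3 := 26843546)
    rfl k0_mm_033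

noncomputable def cut_mm_101 : Cut := Cut.of [[⟨3, 0, 0, 1449551462⟩], [⟨0, 1, 0, 67108864⟩, ⟨1, 0, 0, 67108864⟩, ⟨2, 1, 0, 67108864⟩]]

noncomputable def f_mm_101 : ℕ → ℕ → ℕ → ℕ → Bool := onCell 536870912 536870912 0 536870912 1046898278 26843546
    (rowFX 1 false false false .npn 1 0 1 (qsf 536870912 536870912 536870912 536870912 0) ndF0q1 ndF7q1 pcF0 cut_mm_101 Ext.none)

def k0_mm_101 : ∃ t, chk3 f_mm_101 t 1 1 1 = true :=
  ⟨(l 6), by decide +kernel⟩

theorem c_mm_101 : CertFX 536870912 536870912 536870912 536870912 1046898278 26843546 false false false .npn 1 0 1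
    ndF0q1 ndF7q1 pcF0 cut_mm_101 Ext.none :=
  certFX1 (fam := false) (s1 := false) (s2 := false) (a := 1) (b := 0) (c := 1) (cn := .npn) (n1 := ndF0q1) (n2 := ndF7q1) (pc := pcF0) (cut := cut_mm_101) (xt := Ext.none) (P1 := 536870912) (W1 := 536870912) (P2 := 536870912) (W2 := 536870912) (P3 := 1046898278) (W3 := 26843546)
    rfl (fun _ => rfl) k0_mm_101

noncomputable def cut_mm_102 : Cut := Cut.of [[⟨3, 0, 0, 1449551462⟩], [⟨0, 1, 0, 67108864⟩, ⟨1, 0, 0, 67108864⟩, ⟨2, 1, 0, 67108864⟩]]

noncomputable def f_mm_102 : ℕ → ℕ → ℕ → ℕ → Bool := onCell 536870912 536870912 1073741824 536870912 1046898278 26843546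
    (rowFX 0 false false false .npp 1 0 2 (qsf 536870912 536870912 1073741824 536870912 0) ndF0q1 ndF7q2 pcF0 cut_mm_102 Ext.none)

def k0_mm_102 : ∃ t, chk3 f_mm_102 t 1 1 1 = true :=
  ⟨(l 6), by decide +kernel⟩

theorem c_mm_102 : CertFX 536870912 536870912 1073741824 536870912 1046898278 26843546 false false false .npp 1 0 2
    ndF0q1 ndF7q2 pcF0 cut_mm_102 Ext.none :=
  certFX0 (fam := false) (s1 := false) (s2 := false) (a := 1) (b := 0) (c := 2) (cn := .npp) (n1 := ndF0q1) (n2 := ndF7q2) (pc := pcF0) (cut := cut_mm_102) (xt := Ext.none) (P1 := 536870912) (W1 := 536870912) (P2 := 1073741824) (W2 := 536870912) (P3 := 1046898278) (W3 := 26843546)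
    rfl k0_mm_102

noncomputable def cut_mm_112 : Cut := Cut.of [[⟨3, 0, 0, 1449551462⟩]]

noncomputable def f_mm_112 : ℕ → ℕ → ℕ → ℕ → Bool := onCell 536870912 536870912 1073741824 536870912 1046898278 26843546
    (rowFX 0 false false false .dn 1 1 2 (qsf 536870912 536870912 1073741824 536870912 1) ndF0q1 ndF7q2 pcF1 cut_mm_112 Ext.none)

def k0_mm_112 : ∃ t, chk3 f_mm_112 t 1 1 1 = true :=
  ⟨(l 6), by decide +kernel⟩

theorem c_mm_112 : CertFX 536870912 536870912 1073741824 536870912 1046898278 26843546 false false false .dn 1 1 2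
    ndF0q1 ndF7q2 pcF1 cut_mm_112 Ext.none :=
  certFX0 (fam := false) (s1 := false) (s2 := false) (a := 1) (b := 1) (c := 2) (cn := .dn) (n1 := ndF0q1) (n2 := ndF7q2) (pc := pcF1) (cut := cut_mm_112) (xt := Ext.none) (P1 := 536870912) (W1 := 536870912) (P2 := 1073741824) (W2 := 536870912) (P3 := 1046898278) (W3 := 26843546)
    rfl k0_mm_112

noncomputable def cut_mm_113 : Cut := Cut.of [[⟨3, 0, 0, 1449551462⟩]]

noncomputable def f_mm_113 : ℕ → ℕ → ℕ → ℕ → Bool := onCell 536870912 536870912 0 1230186008 1046898278 26843546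
    (rowFX 0 false false false .nn 1 1 3 (qsf 536870912 536870912 0 1230186008 1) ndF0q1 ndF7q3 pcF1 cut_mm_113 Ext.none)

def k0_mm_113 : ∃ t, chk3 f_mm_113 t 1 1 1 = true :=
  ⟨(b (l 5) (a (l 5) (l 6))), by decide +kernel⟩

theorem c_mm_113 : CertFX 536870912 536870912 0 1230186008 1046898278 26843546 false false false .nn 1 1 3
    ndF0q1 ndF7q3 pcF1 cut_mm_113 Ext.none :=
  certFX0 (fam := false) (s1 := false) (s2 := false) (a := 1) (b := 1) (c := 3) (cn := .nn) (n1 := ndF0q1) (n2 := ndF7q3) (pc := pcF1) (cut := cut_mm_113) (xt := Ext.none) (P1 := 536870912) (W1 := 536870912) (P2 := 0) (W2 := 1230186008) (P3 := 1046898278) (W3 := 26843546)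
    rfl k0_mm_113

noncomputable def cut_mm_123 : Cut := Cut.of [[⟨3, 0, 0, 1449551462⟩]]

noncomputable def f_mm_123 : ℕ → ℕ → ℕ → ℕ → Bool := onCell 1073741824 536870912 0 1230186008 1046898278 26843546
    (rowFX 2 false false false .npn 1 2 3 (qsf 536870912 536870912 0 1230186008 2) ndF0q1 ndF7q3 pcF2 cut_mm_123 Ext.none)

def k0_mm_123 : ∃ t, chk3 f_mm_123 t 1 1 1 = true :=
  ⟨(b (l 5) (l 5)), by decide +kernel⟩

theorem c_mm_123 : CertFX 536870912 536870912 0 1230186008 1046898278 26843546 false false false .npn 1 2 3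
    ndF0q1 ndF7q3 pcF2 cut_mm_123 Ext.none :=
  certFX2 (fam := false) (s1 := false) (s2 := false) (a := 1) (b := 2) (c := 3) (cn := .npn) (n1 := ndF0q1) (n2 := ndF7q3) (pc := pcF2) (cut := cut_mm_123) (xt := Ext.none) (P1 := 536870912) (W1 := 536870912) (P2 := 0) (W2 := 1230186008) (P3 := 1046898278) (W3 := 26843546)
    rfl (fun _ => rfl) k0_mm_123

noncomputable def cut_mm_133 : Cut := Cut.of [[⟨3, 0, 0, 1449551462⟩]]

noncomputable def f_mm_133 : ℕ → ℕ → ℕ → ℕ → Bool := onCell 1610612736 536870912 0 1230186008 1046898278 26843546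
    (rowFX 2 false false false .dn 1 3 3 (qsf 536870912 536870912 0 1230186008 3) ndF0q1 ndF7q3 pcF3 cut_mm_133 Ext.none)

def k0_mm_133 : ∃ t, chk3 f_mm_133 t 1 1 1 = true :=
  ⟨(l 5), by decide +kernel⟩

theorem c_mm_133 : CertFX 536870912 536870912 0 1230186008 1046898278 26843546 false false false .dn 1 3 3
    ndF0q1 ndF7q3 pcF3 cut_mm_133 Ext.none :=
  certFX2 (fam := false) (s1 := false) (s2 := false) (a := 1) (b := 3) (c := 3) (cn := .dn) (n1 := ndF0q1) (n2 := ndF7q3) (pc := pcF3) (cut := cut_mm_133) (xt := Ext.none) (P1 := 536870912) (W1 := 536870912) (P2 := 0) (W2 := 1230186008) (P3 := 1046898278) (W3 := 26843546)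
    rfl (fun _ => rfl) k0_mm_133

noncomputable def cut_mm_202 : Cut := Cut.of [[⟨3, 0, 0, 1449551462⟩], [⟨0, 1, 0, 67108864⟩, ⟨1, 0, 0, 67108864⟩, ⟨2, 1, 0, 67108864⟩]]

noncomputable def f_mm_202 : ℕ → ℕ → ℕ → ℕ → Bool := onCell 0 536870912 0 536870912 1046898278 26843546
    (rowFX 1 false false false .pp 2 0 2 (qsf 0 536870912 1073741824 536870912 0) ndF0q2 ndF7q2 pcF0 cut_mm_202 Ext.none)

def k0_mm_202 : ∃ t, chk3 f_mm_202 t 4 2 1 = true :=
  ⟨(b (b (b (b (b (c (a (l 16027400) (l 16036216)) (c (b (l 16066184) (a (l 15944960) (l 16037704))) (b (a (c (l 16024336) (l 15913872)) (c (l 16098320) (l 16030176))) (a (l 16063736) (l 16136904))))) (c (c (b (a (l 16116376) (l 16182776)) (l 16190784)) (c (l 16006328) (a (l 16142024) (l 16212808)))) (c (a (l 16135816) (l 16207376)) (l 16023576)))) (c (c (b (a (l 16235088) (l 16308976)) (l 16168392)) (a (l 16183720) (l 16214088))) (c (a (l 16222856) (l 16293224)) (l 16158152)))) (c (c (b (l 16306920) (a (l 16432280) (l 16485472))) (b (a (l 16335040)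 (l 16398032)) (l 16362136))) (c (a (l 16372240) (l 16430896)) (a (l 16368232) (l 16427992))))) (b (c (a (c (l 16544336) (l 16542472)) (c (l 16582536) (l 16581520))) (a (b (l 16500992) (l 16575064)) (c (l 16580504) (l 16579488)))) (a (c (l 16674592) (l 16674408)) (a (c (l 16637312) (l 16636120)) (b (b (l 16654616) (c (l 16639408) (l 16638864))) (c (l 16601656) (l 16599344))))))) (a (b (b (a (c (l 16580088) (l 16575896)) (b (l 16578184) (c (l 16529728) (l 16533032)))) (c (b (l 16514376) (a (l 16547784) (l 16528944))) (c (b (l 16507472) (l 16527504)) (l 16502840)))) (b (c (c (l 16615560) (l 16624232)) (c (l 16622400) (l 16662512))) (c (b (l 16776896) (l 16777216)) (c (l 16777056) (l 16777048))))) (b (b (c (b (c (l 16567168) (l 16563064)) (a (l 16536824) (l 16528688))) (b (a (l 16559552) (l 16558056)) (a (l 16528040) (l 16522464)))) (c (c (b (l 16426552) (l 16459792)) (b (l 16421664) (l 16455560))) (c (b (l 16437720) (l 16451312)) (b (l 16453736) (l 16488976))))) (b (c (b (l 16610920) (l 16714064))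 (b (a (l 16612168) (l 16600712)) (l 16712424))) (c (c (l 16777040) (l 16777040)) (c (l 16777032) (l 16777032))))))), by decide +kernel⟩

def k1_mm_202 : ∃ t, chk3 f_mm_202 t 4 3 1 = true :=
  ⟨(b (a (b (c (b (l 16777216) (l 16777216)) (b (l 16777216) (l 16777216))) (a (c (l 57008979975) (c (l 16777216) (l 16777216))) (b (c (l 16777216) (l 16777216)) (l 6)))) (b (a (c (b (l 16777216) (l 16777216)) (c (l 16777216) (l 16777216))) (b (c (l 16777216) (l 16777216)) (l 6))) (l 6))) (l 2)), by decide +kernel⟩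

def k2_mm_202 : ∃ t, chk3 f_mm_202 t 10 2 1 = true :=
  ⟨(b (b (b (b (c (b (l 16169080) (c (l 16043096) (b (l 16212376) (l 16270368)))) (b (c (b (l 16134664) (l 16148704)) (b (c (l 16126744) (l 16121512)) (l 16164744))) (c (l 16234432) (l 16214120)))) (c (b (c (l 16340200) (l 16328304)) (l 16331952)) (c (l 16321664) (l 16308256)))) (c (b (c (l 16458640) (l 16427272)) (c (l 16506672) (l 16495304))) (b (l 16412448) (l 16492360)))) (b (b (b (c (l 16545192) (l 16542768)) (a (l 16576432) (c (l 16577800) (l 16575832)))) (c (a (b (l 16605288) (l 16633000)) (l 16610952)) (a (l 16620728) (l 16609760)))) (c (b (b (a (l 16653704) (l 16642768)) (a (l 16642552) (l 16640816))) (a (l 16598328) (l 16552816))) (b (a (b (l 16653512) (l 16641928)) (l 16657656)) (a (l 16600304) (l 16608384)))))) (a (b (b (c (b (l 16522640) (c (l 16544048) (l 16539832))) (b (l 16557344) (c (l 16531712) (l 16528392)))) (c (b (l 16522568) (l 16520312)) (b (c (l 16515992) (l 16512856)) (l 16513720)))) (b (c (l 16570856) (l 16546704))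 (l 6))) (b (b (c (b (c (l 16586024) (l 16582320)) (l 16558296)) (b (c (l 16573256) (l 16570552)) (c (l 16552360) (l 16549816)))) (a (c (l 16528704) (l 16522560)) (l 6))) (l 6)))), by decide +kernel⟩

def k3_mm_202 : ∃ t, chk3 f_mm_202 t 11 2 1 = true :=
  ⟨(b (b (b (b (c (b (c (l 16161416) (l 16145000)) (c (b (l 16186712) (l 16233784)) (b (l 16194616) (l 16255528)))) (b (c (b (l 16118256) (l 16047440)) (b (c (l 16109736) (l 15999256)) (l 16147368))) (c (l 16196704) (l 16194792)))) (c (c (b (l 16326784) (l 16403256)) (b (l 16313448) (l 16358040))) (c (l 16302992) (l 16287904)))) (c (b (a (l 16381848) (b (l 16408528) (c (l 16461600) (l 16323376)))) (b (a (l 16483784) (c (c (l 16486344) (l 16467808)) (l 16460120))) (c (c (a (l 16517048) (l 16475544)) (l 16478656)) (a (l 16509760) (l 16488120))))) (b (b (l 16375376) (a (l 16434568) (l 16420928))) (a (b (l 16471232) (l 16507656)) (b (l 16457152) (l 16484984)))))) (a (b (c (b (c (l 16486264) (l 16547944)) (c (l 16602296) (l 16597400))) (b (c (l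 16546624) (l 16545312)) (l 16596312))) (c (b (b (l 16630952) (l 16653424)) (a (a (l 16621680) (l 16632496)) (l 6))) (b (b (l 16623960) (l 16655936)) (l 16632776)))) (b (c (b (c (l 16532960) (l 16531512)) (b (l 16573816) (l 6))) (b (l 16529176) (l 16574176))) (l 6)))) (a (b (a (b (b (c (l 16601960) (l 16597400)) (l 6)) (l 6)) (l 6)) (l 6)) (l 6))), by decide +kernel⟩

def k4_mm_202 : ∃ t, chk3 f_mm_202 t 5 3 1 = true :=
  ⟨(l 6), by decide +kernel⟩

def k5_mm_202 : ∃ t, chk3 f_mm_202 t 3 1 1 = true :=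
  ⟨(b (b (b (a (a (a (b (b (c (b (l 16114584) (c (l 16172488) (l 16160056))) (b (c (b (l 16077608) (l 16111080)) (b (c (l 16068232) (l 16062056)) (l 16105696))) (c (l 16177312) (l 16151840)))) (a (c (b (l 16286352) (l 16353160)) (l 16262968)) (b (c (l 16268792) (l 16214456)) (l 6)))) (b (c (c (l 16326976) (b (l 16247744) (l 16386616))) (c (l 16333416) (l 16351336))) (l 6))) (l 6)) (l 6)) (l 6)) (l 6)) (l 6)) (l 6)), by decide +kernel⟩

theorem s6_mm_202 : ∃ t, chk3 f_mm_202 t 5 2 1 = true := ex3_a k2_mm_202 k3_mm_202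

theorem s7_mm_202 : ∃ t, chk3 f_mm_202 t 5 1 1 = true := ex3_b s6_mm_202 k4_mm_202

theorem s8_mm_202 : ∃ t, chk3 f_mm_202 t 4 1 1 = true := ex3_b k0_mm_202 k1_mm_202

theorem s9_mm_202 : ∃ t, chk3 f_mm_202 t 2 1 1 = true := ex3_a s8_mm_202 s7_mm_202

theorem s10_mm_202 : ∃ t, chk3 f_mm_202 t 1 1 1 = true := ex3_a s9_mm_202 k5_mm_202

theorem c_mm_202 : CertFX 0 536870912 1073741824 536870912 1046898278 26843546 false false false .pp 2 0 2
    ndF0q2 ndF7q2 pcF0 cut_mm_202 Ext.none :=
  certFX1 (fam := false) (s1 := false) (s2 := false) (a := 2) (b := 0) (c := 2) (cn := .pp) (n1 := ndF0q2) (n2 := ndF7q2) (pc := pcF0) (cut := cut_mm_202) (xt := Ext.none) (P1 := 0) (W1 := 536870912) (P2 := 1073741824) (W2 := 536870912) (P3 := 1046898278) (W3 := 26843546)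
    rfl (fun _ => rfl) s10_mm_202

noncomputable def cut_mm_203 : Cut := Cut.of [[⟨3, 0, 0, 1449551462⟩]]

noncomputable def f_mm_203 : ℕ → ℕ → ℕ → ℕ → Bool := onCell 0 536870912 0 1230186008 1046898278 26843546
    (rowFX 0 false false false .up 2 0 3 (qsf 0 536870912 0 1230186008 0) ndF0q2 ndF7q3 pcF0 cut_mm_203 Ext.none)

def k0_mm_203 : ∃ t, chk3 f_mm_203 t 1 1 1 = true :=
  ⟨(b (l 2) (a (b (l 2) (b (l 6) (a (b (l 6) (b (l 6) (a (a (c (l 16777216) (l 16777216)) (l 6)) (l 6)))) (l 6)))) (l 6))), by decide +kernel⟩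

theorem c_mm_203 : CertFX 0 536870912 0 1230186008 1046898278 26843546 false false false .up 2 0 3
    ndF0q2 ndF7q3 pcF0 cut_mm_203 Ext.none :=
  certFX0 (fam := false) (s1 := false) (s2 := false) (a := 2) (b := 0) (c := 3) (cn := .up) (n1 := ndF0q2) (n2 := ndF7q3) (pc := pcF0) (cut := cut_mm_203) (xt := Ext.none) (P1 := 0) (W1 := 536870912) (P2 := 0) (W2 := 1230186008) (P3 := 1046898278) (W3 := 26843546)
    rfl k0_mm_203

noncomputable def cut_mm_213 : Cut := Cut.of [[⟨3, 0, 0, 1449551462⟩]]

noncomputable def f_mm_213 : ℕ → ℕ → ℕ → ℕ → Bool := onCell 0 536870912 0 1230186008 1046898278 26843546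
    (rowFX 0 false false false .pnn 2 1 3 (qsf 0 536870912 0 1230186008 1) ndF0q2 ndF7q3 pcF1 cut_mm_213 Ext.none)

def k0_mm_213 : ∃ t, chk3 f_mm_213 t 1 1 1 = true :=
  ⟨(b (l 6) (b (l 6) (a (b (l 6) (a (l 1) (l 6))) (l 3)))), by decide +kernel⟩

theorem c_mm_213 : CertFX 0 536870912 0 1230186008 1046898278 26843546 false false false .pnn 2 1 3
    ndF0q2 ndF7q3 pcF1 cut_mm_213 Ext.none :=
  certFX0 (fam := false) (s1 := false) (s2 := false) (a := 2) (b := 1) (c := 3) (cn := .pnn) (n1 := ndF0q2) (n2 := ndF7q3) (pc := pcF1) (cut := cut_mm_213) (xt := Ext.none) (P1 := 0) (W1 := 536870912) (P2 := 0) (W2 := 1230186008) (P3 := 1046898278) (W3 := 26843546)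
    rfl k0_mm_213

end Pool.Agent.Strip051.G.IE1.Tab.C.FB07

namespace Pool.Agent.Strip051.G.IE1.Tab.C.FB10

open Pool.Agent.Strip051.PB Pool.Agent.Strip051.PB.T
open Pool.Agent.Strip051.G.IE1.Tab

noncomputable def f_pp_001 : ℕ → ℕ → ℕ → ℕ → Bool := onCell 67108864 469762048 0 536870912 1046898278 26843546
    (rowFX 1 false true true .up 0 0 1 (qsf 67108864 469762048 536870912 536870912 0) ndF1q0 ndF0q1 pcF0 Cut.none Ext.none)

def k0_pp_001 : ∃ t, chk3 f_pp_001 t 1 1 1 = true :=
  ⟨(l 3), by decide +kernel⟩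

theorem c_pp_001 : CertFX 67108864 469762048 536870912 536870912 1046898278 26843546 false true true .up 0 0 1
    ndF1q0 ndF0q1 pcF0 Cut.none Ext.none :=
  certFX1 (fam := false) (s1 := true) (s2 := true) (a := 0) (b := 0) (c := 1) (cn := .up) (n1 := ndF1q0) (n2 := ndF0q1) (pc := pcF0) (cut := Cut.none) (xt := Ext.none) (P1 := 67108864) (W1 := 469762048) (P2 := 536870912) (W2 := 536870912) (P3 := 1046898278) (W3 := 26843546)
    rfl (fun _ => rfl) k0_pp_001

noncomputable def f_pp_011 : ℕ → ℕ → ℕ → ℕ → Bool := onCell 67108864 469762048 536870912 536870912 1046898278 26843546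
    (rowFX 0 false true true .pnn 0 1 1 (qsf 67108864 469762048 536870912 536870912 1) ndF1q0 ndF0q1 pcF1 Cut.none Ext.none)

def k0_pp_011 : ∃ t, chk3 f_pp_011 t 1 1 1 = true :=
  ⟨(b (l 3) (l 3)), by decide +kernel⟩

theorem c_pp_011 : CertFX 67108864 469762048 536870912 536870912 1046898278 26843546 false true true .pnn 0 1 1
    ndF1q0 ndF0q1 pcF1 Cut.none Ext.none :=
  certFX0 (fam := false) (s1 := true) (s2 := true) (a := 0) (b := 1) (c := 1) (cn := .pnn) (n1 := ndF1q0) (n2 := ndF0q1) (pc := pcF1) (cut := Cut.none) (xt := Ext.none) (P1 := 67108864) (W1 := 469762048) (P2 := 536870912) (W2 := 536870912) (P3 := 1046898278) (W3 := 26843546)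
    rfl k0_pp_011

noncomputable def f_pp_012 : ℕ → ℕ → ℕ → ℕ → Bool := onCell 536870912 536870912 0 536870912 1046898278 26843546
    (rowFX 2 false true true .pnp 0 1 2 (qsf 67108864 469762048 0 536870912 1) ndF1q0 ndF0q2 pcF1 Cut.none Ext.none)

def k0_pp_012 : ∃ t, chk3 f_pp_012 t 4 2 1 = true :=
  ⟨(b (l 2) (b (l 2) (l 3))), by decide +kernel⟩

def k1_pp_012 : ∃ t, chk3 f_pp_012 t 10 4 1 = true :=
  ⟨(a (a (l 2) (b (b (l 16777216) (c (l 16777216) (l 16777216))) (c (b (l 16777216) (c (l 16777216) (l 16777216))) (b (l 16777216) (c (l 16777216) (l 16777216)))))) (b (a (b (l 16777216) (c (l 16777216) (l 16777216))) (c (l 16777216) (l 16777216))) (c (b (c (l 16777216) (l 16777216)) (c (l 16777216) (l 16777216))) (b (c (l 16777216) (l 16777216)) (c (l 16777216) (l 16777216)))))), by decide +kernel⟩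

def k2_pp_012 : ∃ t, chk3 f_pp_012 t 10 10 1 = true :=
  ⟨(b (c (a (c (c (l 200353513479) (l 198742900743)) (c (l 197669158919) (l 196595417095))) (c (a (l 16777216) (l 16777216)) (a (l 16777216) (l 16777216)))) (c (a (c (l 195521675271) (l 194984804359)) (a (l 16777216) (l 16777216))) (a (c (l 194984804359) (l 194447933447)) (a (l 16777216) (l 16777216))))) (b (a (a (a (l 2) (a (l 2) (c (c (c (l 214379266055) (l 210084298759)) (b (l 16777216) (b (l 16777216) (l 276656291847)))) (b (c (l 16777216) (l 16777216)) (c (b (l 16777216) (l 268066357255)) (l 209010556935)))))) (c (c (a (c (l 16777216) (l 162302787591)) (l 16777216)) (a (c (l 161229045767) (l 160155303943)) (l 16777216))) (c (a (c (l 159618433031) (l 16777216)) (l 16777216)) (c (l 143512305671) (l 16777216))))) (c (c (a (l 16777216) (l 16777216)) (a (l 16777216) (l 16777216))) (c (a (l 16777216) (l 16777216)) (a (l 16777216) (l 16777216))))) (a (a (l 3) (a (b (c (c (c (l 282025000967) (l 277193162759)) (c (l 271824453639) (l 265918873607)))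 (c (c (l 259476422663) (l 258402680839)) (b (l 238001586183) (l 300278611975)))) (l 3)) (c (c (b (c (l 16777216) (l 183240753159)) (c (l 295983644679) (l 290614935559))) (b (c (l 181630140423) (l 179482656775)) (c (l 284709355527) (l 278266904583)))) (b (c (c (l 177872044039) (l 16777216)) (l 160155303943)) (c (c (l 270750711815) (l 268603228167)) (b (l 250886488071) (l 313163513863))))))) (c (c (a (b (l 16777216) (a (c (l 199346880519) (l 196125655047)) (l 16777216))) (l 16777216)) (a (a (b (l 16777216) (c (l 193441300487) (l 190756945927))) (b (l 16777216) (l 16777216))) (l 16777216))) (c (a (b (l 16777216) (a (c (l 188072591367) (l 183240753159)) (l 16777216))) (l 16777216)) (a (c (l 151565369351) (l 16777216)) (l 16777216))))))), by decide +kernel⟩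

def k3_pp_012 : ∃ t, chk3 f_pp_012 t 10 11 1 = true :=
  ⟨(b (a (l 3) (a (b (a (a (l 3) (b (b (c (c (l 271824453639) (l 259476422663)) (c (l 244444037127) (l 240149069831))) (l 3)) (l 3))) (c (b (c (c (l 212768653319) (a (l 241222811655) (l 16777216))) (a (c (l 234780360711) (l 227801038855)) (b (l 16777216) (l 181093269511)))) (c (c (l 323900932103) (l 316921610247)) (c (l 309942288391) (l 302426095623)))) (b (c (c (l 198273138695) (l 193978171399)) (c (l 184851365895) (l 16777216))) (c (c (l 294909902855) (l 288467451911)) (l 284709355527))))) (l 3)) (b (a (c (b (c (l 16777216) (l 16777216)) (c (a (c (l 263234519047) (l 256792068103)) (c (l 195051913223) (l 190220075015))) (a (c (l 250349617159) (l 242833424391)) (c (l 185925107719) (l 181093269511))))) (c (b (l 16777216) (c (b (l 16777216) (l 234243489799)) (l 205252460551))) (c (l 170892722183) (l 160692174855)))) (c (c (c (l 16777216) (l 16777216)) (c (l 16777216) (l 16777216))) (c (c (l 16777216) (l 16777216)) (l 16777216)))) (b (c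 (c (c (a (l 334101479431) (b (l 205789331463) (l 280951259143))) (a (l 328195899399) (b (l 200420622343) (l 275045679111)))) (c (a (l 321216577543) (b (l 194515042311) (l 268603228167))) (a (l 314237255687) (b (l 189146333191) (l 262160777223))))) (c (c (a (l 306721062919) (b (l 184314494983) (l 254644584455))) (a (l 298667999239) (l 216526749703))) (c (l 240149069831) (l 235854102535)))) (l 3))))) (l 3)), by decide +kernel⟩

def k4_pp_012 : ∃ t, chk3 f_pp_012 t 11 4 1 = true :=
  ⟨(b (c (l 16777216) (l 16777216)) (c (b (a (c (l 16777216) (l 16777216)) (l 16777216)) (a (c (l 16777216) (l 16777216)) (c (l 16777216) (l 16777216)))) (b (a (c (l 16777216) (l 16777216)) (l 16777216)) (a (c (l 16777216) (l 16777216)) (c (l 16777216) (l 16777216)))))), by decide +kernel⟩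

def k5_pp_012 : ∃ t, chk3 f_pp_012 t 22 10 1 = true :=
  ⟨(c (b (c (l 16777216) (l 16777216)) (c (l 16777216) (b (l 16777216) (l 16777216)))) (b (c (l 16777216) (l 16777216)) (c (l 16777216) (l 16777216)))), by decide +kernel⟩

def k6_pp_012 : ∃ t, chk3 f_pp_012 t 22 22 1 = true :=
  ⟨(c (c (c (b (l 16777216) (a (b (l 16777216) (a (b (l 217600491527) (l 295446773767)) (l 16777216))) (l 16777216))) (b (l 16777216) (a (b (l 16777216) (a (b (l 212231782407) (l 289541193735)) (l 16777216))) (l 16777216)))) (c (b (l 16777216) (a (b (l 16777216) (a (b (l 206863073287) (l 283635613703)) (l 16777216))) (l 16777216))) (b (l 16777216) (a (b (l 16777216) (a (b (l 201494364167) (l 277193162759)) (l 16777216))) (l 16777216))))) (b (c (a (l 16777216) (l 16777216)) (c (l 16777216) (l 16777216))) (a (c (c (b (l 16777216) (a (b (l 196662525959) (l 270213840903)) (l 16777216))) (b (l 16777216) (a (l 227801038855) (l 16777216)))) (b (l 16777216) (a (l 214916136967) (l 16777216)))) (c (c (l 16777216) (l 16777216))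 (l 16777216))))), by decide +kernel⟩

def k7_pp_012 : ∃ t, chk3 f_pp_012 t 22 23 1 = true :=
  ⟨(b (a (a (l 3) (b (c (c (c (b (l 227801038855) (l 309942288391)) (b (a (l 278266904583) (l 16777216)) (l 304573579271))) (c (b (a (l 272361324551) (l 16777216)) (l 298667999239)) (b (a (l 265918873607) (l 16777216)) (l 292762419207)))) (c (c (b (l 209010556935) (l 285783097351)) (l 239075328007)) (l 227264167943))) (l 3))) (c (b (c (a (c (l 175724560391) (b (l 16777216) (l 180556398599))) (l 16777216)) (a (b (l 16777216) (c (l 176798302215) (l 171429593095))) (l 16777216))) (c (c (a (b (l 266455744519) (l 339470188551)) (l 181093269511)) (a (b (a (l 304036708359) (l 205789331463)) (l 330343383047)) (b (l 16777216) (l 191830687751)))) (a (c (b (a (l 296520515591) (l 202031235079)) (l 321753448455)) (b (a (l 289004322823) (l 197736267783)) (l 313163513863))) (b (l 16777216) (c (l 188609462279) (l 184314494983)))))) (c (c (b (a (l 154786594823) (l 16777216)) (a (b (l 235317231623) (l 304573579271))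 (l 165524013063))) (b (l 16777216) (a (l 250349617159) (l 16777216)))) (b (l 127943049223) (a (l 239075328007) (l 148881014791)))))) (b (a (l 3) (a (l 3) (c (c (b (c (l 283635613703) (l 275582550023)) (l 349133864967)) (b (c (l 267529486343) (l 259476422663)) (l 331417124871))) (c (c (l 269676969991) (l 262160777223)) (l 251423358983))))) (l 3))), by decide +kernel⟩

def k8_pp_012 : ∃ t, chk3 f_pp_012 t 23 5 1 = true :=
  ⟨(b (b (c (l 16777216) (l 16777216)) (c (c (l 16777216) (l 16777216)) (c (l 16777216) (l 16777216)))) (c (b (c (b (l 16777216) (l 16777216)) (b (l 16777216) (l 16777216))) (b (c (a (c (l 16777216) (l 16777216)) (l 16777216)) (a (b (l 16777216) (l 16777216)) (l 16777216))) (a (b (a (c (b (l 16777216) (c (l 224042942471) (l 217063620615))) (b (l 16777216) (c (l 202568105991) (l 203104976903)))) (c (l 16777216) (l 16777216))) (a (c (c (l 309942288391) (l 301889224711)) (c (l 293836161031) (l 286319968263))) (c (c (l 198810009607) (a (l 216526749703) (l 16777216))) (a (c (l 213305524231)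 (l 210084298759)) (b (l 16777216) (l 164987142151)))))) (c (c (l 16777216) (l 16777216)) (c (l 16777216) (l 16777216)))))) (b (c (b (l 16777216) (l 16777216)) (b (l 16777216) (l 16777216))) (b (c (c (l 16777216) (l 16777216)) (c (l 16777216) (l 16777216))) (a (c (c (b (a (l 175724560391) (l 16777216)) (a (l 278803775495) (b (l 16777216) (l 209010556935)))) (b (l 150491627527) (a (l 271824453639) (l 177872044039)))) (c (a (l 213842395143) (l 147807272967)) (l 177335173127))) (c (c (l 16777216) (l 16777216)) (l 16777216))))))), by decide +kernel⟩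

def k9_pp_012 : ∃ t, chk3 f_pp_012 t 2 3 1 = true :=
  ⟨(b (a (l 3) (a (l 3) (b (b (a (l 3) (b (a (a (l 3) (a (l 3) (b (b (c (c (l 284172484615) (b (l 250349617159) (l 320142835719))) (c (l 258939551751) (l 249812746247))) (l 3)) (l 3)))) (c (b (a (c (c (l 208473686023) (a (l 229948522503) (l 169282109447))) (b (c (l 16777216) (l 16777216)) (a (l 279877517319) (l 186461978631)))) (c (l 16777216) (l 16777216))) (a (b (c (l 314237255687) (l 300815482887)) (l 3)) (c (c (l 217600491527) (b (l 177872044039) (l 250349617159))) (a (c (l 241222811655) (l 238538457095)) (c (l 180019527687) (l 171966464007)))))) (c (a (c (b (b (l 16777216) (l 220821716999)) (l 300278611975)) (b (l 186461978631) (l 296520515591))) (b (l 16777216) (c (b (l 162302787591) (l 239612198919)) (l 195051913223)))) (c (a (l 229948522503) (l 157470949383)) (l 185388236807))))) (a (l 3) (a (l 3) (b (b (c (c (l 325511544839) (l 314774126599)) (c (l 308868546567) (l 301889224711))) (l 3)) (l 3)))))) (l 3)) (l 3)))) (l 3)), by decide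 +kernel⟩

def k10_pp_012 : ∃ t, chk3 f_pp_012 t 6 4 1 = true :=
  ⟨(a (b (c (l 16773256) (l 16773152)) (b (c (l 16773016) (l 16772904)) (a (b (l 16777200) (c (l 16777208) (l 16777208))) (c (l 16768520) (l 16768296))))) (b (c (a (l 16754712) (a (l 16743832) (l 16773232))) (a (l 16754128) (a (l 16742968) (l 16773128)))) (c (a (l 16753024) (a (l 16741440) (l 16775464))) (a (b (l 16752824) (l 16751960)) (a (l 16740512) (b (l 16774840) (l 16775984))))))), by decide +kernel⟩

def k11_pp_012 : ∃ t, chk3 f_pp_012 t 6 5 1 = true :=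
  ⟨(a (b (c (a (b (c (l 16777200) (l 16777200)) (c (l 16777208) (l 16777208))) (b (b (l 16768288) (l 16768328)) (c (l 16769272) (l 16769168)))) (c (a (b (l 16777200) (l 16777208)) (b (l 16768256) (l 16769064))) (a (b (l 16777200) (l 16777208)) (b (l 16768144) (l 16768960))))) (c (a (b (c (l 16777208) (l 16777208)) (c (b (l 16777208) (a (l 16777216) (l 16777208))) (b (l 16777208) (a (l 16777216) (l 16777208))))) (b (c (l 16771112) (l 16771040)) (c (a (l 16775136) (l 16770384)) (a (l 16775104) (l 16770288))))) (c (a (b (l 16777208) (b (l 16777208) (a (l 16777216) (l 16777208)))) (b (l 16770960) (a (l 16775080) (l 16770200)))) (a (b (l 16777208) (c (l 16777208) (l 16777208))) (b (l 16770880) (c (l 16772784) (l 16772752))))))) (b (c (a (b (l 16751760) (c (l 16752152) (a (l 16756008) (l 16747064)))) (a (b (l 16739656) (l 16738464)) (l 16755776))) (a (b (l 16751104) (c (a (l 16755736) (l 16746672)) (a (l 16755456) (l 16746280)))) (a (b (l 16738680) (l 16737456)) (b (l 16777128) (l 16776160)))))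 (a (c (b (c (l 16755392) (l 16755104)) (c (l 16760552) (l 16760336))) (b (c (l 16754824) (l 16754536)) (c (l 16760112) (l 16759896)))) (a (c (b (b (l 16738736) (l 16741752)) (l 16747392)) (b (b (l 16737736) (l 16740832)) (l 16746616))) (c (b (a (b (l 16754408) (l 16755480)) (l 16749984)) (c (l 16729240) (l 16708192))) (b (a (b (l 16753816) (l 16754912)) (l 16749272)) (a (c (l 16758896) (l 16758664)) (l 16746152)))))))), by decide +kernel⟩

def k12_pp_012 : ∃ t, chk3 f_pp_012 t 6 24 1 = true :=
  ⟨(a (b (c (a (c (a (c (l 16777216) (l 16777216)) (l 16777208)) (a (b (l 16777216) (c (l 16777216) (l 16777216))) (l 16777208))) (c (a (l 16775864) (l 16772368)) (a (l 16775848) (l 16772304)))) (a (c (a (c (l 16777216) (l 16777216)) (l 16777208)) (c (a (l 16777216) (l 16777208)) (l 16777216))) (c (a (l 16775832) (l 16772240)) (l 16774184)))) (a (a (a (b (c (c (c (l 228337909767) (a (l 257328939015) (l 193441300487))) (b (c (l 183777624071) (l 178945785863)) (c (l 255718326279) (l 254107713543)))) (c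 (c (a (l 248739004423) (l 187535720455)) (l 214379266055)) (c (l 211158040583) (l 207399944199)))) (l 3)) (c (b (c (c (l 16777216) (l 16777216)) (c (l 16777216) (l 16777216))) (c (c (l 234243489799) (a (l 267529486343) (l 196125655047))) (c (b (l 194515042311) (l 267529486343)) (b (l 190220075015) (l 262697648135))))) (c (c (b (l 16777216) (b (l 185925107719) (l 261087035399))) (b (l 16777216) (b (l 181093269511) (l 260013293575)))) (b (l 16777216) (c (l 219211104263) (l 217063620615)))))) (c (b (c (l 16777216) (c (l 16777216) (l 16777216))) (c (c (l 16777216) (l 109689437959)) (a (c (l 119889985543) (l 117205630983)) (l 16777208)))) (c (c (b (l 16777216) (a (l 16777216) (l 16777208))) (b (l 16777216) (l 16777216))) (c (l 91435826871) (l 16777216))))) (c (c (a (c (l 16776360) (l 16776352)) (l 16773696)) (a (c (l 16776352) (l 16776344)) (l 16773648))) (c (a (c (l 16776336) (l 16776336)) (l 16773608)) (c (l 16775136) (l 16775128)))))) (a (c (c (b (l 16764376) (l 16766928)) (b (l 16764208) (l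 16766800))) (c (b (l 16764040) (l 16766664)) (c (l 16765240) (l 16765168)))) (a (c (c (l 16755064) (l 16754776)) (c (l 16754488) (l 16754200))) (c (c (a (l 16764320) (l 16743712)) (a (l 16743176) (l 16743272))) (a (c (l 16743008) (l 16742840)) (c (l 16742832) (l 16742392))))))), by decide +kernel⟩

def k13_pp_012 : ∃ t, chk3 f_pp_012 t 12 25 1 = true :=
  ⟨(b (a (a (l 3) (a (b (c (c (c (l 233706618887) (a (l 273435066375) (l 199883751431))) (c (b (l 199883751431) (l 272898195463)) (b (l 197199396871) (l 269676969991)))) (c (c (b (l 193441300487) (l 269676969991)) (b (l 190220075015) (l 270750711815))) (c (l 226727297031) (l 226727297031)))) (l 3)) (c (b (c (c (l 16777216) (l 122037469031)) (c (l 120426856295) (b (l 16777216) (l 130090532711)))) (c (b (a (l 266455744519) (l 159618432951)) (l 281488130055)) (c (b (l 205252460551) (l 277730033671)) (b (l 203104976903) (l 275582550023))))) (c (c (b (b (l 16777216) (l 127943049063)) (c (l 229948522503) (l 231022264327))) (b (l 113984405351) (b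 (l 198273138695) (l 281488130055)))) (c (b (l 16777216) (l 234780360711)) (l 188609462279)))))) (c (c (a (c (a (l 104857599223) (l 16776536)) (a (b (l 16777000) (l 114521275927)) (l 16776528))) (l 16775024)) (a (b (c (l 16776720) (l 16776720)) (a (c (c (l 117205630487) (l 118816243223)) (c (l 120426855959) (l 121500597783))) (l 16776704))) (c (l 16775000) (l 16774992)))) (c (b (a (c (l 16776712) (l 16776712)) (l 16774624)) (a (a (c (c (l 123111210519) (l 124184952343)) (b (l 16777104) (l 138143596119))) (l 16776696)) (l 16775304))) (a (c (b (l 16776712) (l 109689436375)) (l 105394467527)) (l 16774936))))) (a (l 3) (a (a (b (b (c (c (a (l 318532222983) (l 149954756407)) (c (l 255181455335) (l 253033971687))) (c (c (l 250349617127) (l 247665262567)) (l 243370295271))) (l 3)) (l 3)) (c (c (b (c (l 16777040) (l 16777032)) (l 284709355495)) (b (c (l 109689437527) (l 113984404823)) (b (l 265918873559) (l 3)))) (c (b (c (l 118279372103) (l 122574339399)) (c (l 279877517287) (l 278266904551))) (b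 (c (l 16777032) (l 16777024)) (l 275582549991))))) (c (c (c (l 16776320) (l 74792826471)) (b (l 16776000) (c (l 86603987175) (l 94120178631)))) (c (b (l 16775992) (c (l 99488887735) (l 104857596855))) (c (b (l 16775976) (l 109689433735)) (l 102710109895))))))), by decide +kernel⟩

def k14_pp_012 : ∃ t, chk3 f_pp_012 t 13 25 1 = true :=
  ⟨(a (c (c (a (b (l 16771704) (l 16773856)) (l 16768400)) (a (b (l 16771632) (l 16773816)) (b (l 16766784) (l 16769784)))) (c (c (a (l 16772680) (l 16768200)) (a (l 16772656) (l 16768144))) (c (a (l 16772624) (l 16768088)) (a (l 16772600) (l 16768024))))) (c (a (c (l 16762560) (l 16762368)) (a (c (l 16727344) (a (l 16762080) (l 16776464))) (c (l 16740272) (l 16739792)))) (a (c (l 16762176) (l 16761992)) (a (c (b (l 16767800) (l 16749384)) (b (l 16767680) (l 16749296))) (c (l 16739304) (l 16738824)))))), by decide +kernel⟩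

def k15_pp_012 : ∃ t, chk3 f_pp_012 t 6 26 1 = true :=
  ⟨(a (a (l 3) (a (l 3) (b (b (b (c (c (l 197736266055) (a (l 269676969959) (l 16776816))) (c (a (l 269140099047) (l 16776808)) (a (l 268603228135) (l 16776800)))) (a (l 3) (c (c (l 16749440) (l 197736237271)) (c (l 199346850151) (l 199346849303))))) (c (c (l 292762358551) (l 294372949511)) (c (l 295446690551) (l 297057323463)))) (l 3)))) (a (b (c (c (a (b (l 16772360) (l 66202796327)) (l 16735800)) (a (b (l 16751256) (a (l 111836825447) (l 16745368))) (b (l 16769000) (l 16743272)))) (c (a (b (b (l 16775152) (l 16768936)) (a (l 130090436615) (l 16744896))) (b (l 16768752) (l 16742648))) (a (b (l 16751000) (a (l 147807175543) (l 16744424))) (b (l 16768504) (l 16742024))))) (c (a (c (a (l 279340487927) (l 119889755271)) (b (a (l 279340519399) (l 110763016407)) (l 283098548327))) (c (l 42043468503) (b (l 16711824) (l 76403205799)))) (c (a (b (a (l 285246097783) (l 132774723767)) (l 291151609511)) (b (l 16710864) (l 96804300455))) (a (c (l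 242296326087) (l 245517592439)) (b (l 16709904) (l 128479681783)))))) (a (c (c (b (l 16752808) (l 16693792)) (b (l 16731112) (l 16692384))) (b (c (l 16730376) (l 16729648)) (c (l 16690976) (l 16689568)))) (c (b (a (c (l 16715128) (a (l 16751288) (l 16740704))) (b (l 16694024) (c (l 16722232) (l 16721512)))) (a (c (a (l 16692816) (l 16700392)) (a (l 16691280) (l 16636560))) (c (l 16710784) (b (l 16710744) (l 16706296))))) (b (a (c (b (l 16748104) (l 16721792)) (b (l 16747848) (l 16721128))) (b (b (l 16737064) (l 16711296)) (c (l 16720800) (l 16720080)))) (b (a (c (l 16710736) (l 16709736)) (c (l 16710000) (l 16709264))) (a (a (l 16672520) (c (l 16681520) (l 16680344))) (c (l 16706064) (l 16705832))))))))), by decide +kernel⟩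

def k16_pp_012 : ∃ t, chk3 f_pp_012 t 6 27 1 = true :=
  ⟨(a (l 3) (b (a (a (l 3) (c (c (l 211157744871) (l 217600149991)) (c (l 222968834247) (l 227263818631)))) (a (a (c (c (l 16628712) (l 16605736)) (c (l 87140477559) (l 103783476087))) (c (c (l 16627432) (l 16604296)) (c (l 16602136) (l 16579000)))) (c (a (a (c (l 16625608) (l 16601864)) (c (l 16629952) (l 16626752))) (l 16592376)) (a (a (c (b (l 16639232) (l 16601320)) (b (l 16637072) (l 16598104))) (c (l 16602576) (l 16599368))) (c (l 16651472) (l 16648936)))))) (a (l 3) (b (a (a (l 3) (c (c (l 116668282407) (a (l 16572648) (l 16569544))) (a (c (l 204715125959) (l 210083834935)) (c (l 16566104) (l 16562672))))) (c (a (a (l 16566088) (l 16567240)) (l 16593688)) (a (a (l 16556416) (l 16555792)) (l 16583296)))) (a (l 3) (c (a (c (l 16526256) (l 129553062935)) (l 16549296)) (a (c (l 151027898647) (l 170892111463)) (l 22715785111)))))))), by decide +kernel⟩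

def k17_pp_012 : ∃ t, chk3 f_pp_012 t 6 7 1 = true :=
  ⟨(a (l 3) (b (a (l 3) (b (a (l 3) (a (l 3) (b (c (c (l 94656306007) (l 144585264759)) (c (l 165523230967) (l 184850564775))) (l 3)))) (l 3))) (l 3))), by decide +kernel⟩

def k18_pp_012 : ∃ t, chk3 f_pp_012 t 7 2 1 = true :=
  ⟨(a (b (b (c (a (l 16676008) (l 16546448)) (a (l 16673384) (l 16540464))) (a (c (l 16637792) (l 16592768)) (c (b (l 16524336) (l 16515488)) (b (l 16517792) (l 16508744))))) (b (a (c (l 16599576) (l 16554104)) (c (b (l 16513944) (l 16502192)) (b (l 16507216) (l 16516760)))) (a (b (c (a (l 16676224) (l 16581480)) (a (l 16652624) (l 16576400))) (c (a (l 16629712) (b (l 16576016) (l 16583544))) (a (b (l 16669928) (l 16667432)) (b (l 16570800) (l 16578544))))) (b (c (a (l 16530800) (l 16563456)) (l 16499720)) (a (c (l 16549840) (l 16565728)) (c (l 16613608) (l 16610160))))))) (b (b (c (a (b (l 16588920) (l 16573320)) (c (l 16593448) (l 16592752))) (a (l 16493488) (b (l 16586104) (l 16598520)))) (c (a (b (l 16567456)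 (l 16571528)) (b (l 16623480) (l 16597120))) (a (b (l 16562840) (l 16567136)) (b (l 16601600) (l 16575168))))) (b (a (c (b (l 16585856) (l 16610864)) (b (l 16581992) (l 16607832))) (c (a (l 16680120) (l 16551792)) (b (l 16583344) (l 16543352)))) (a (c (b (l 16626112) (l 16590288)) (b (l 16603264) (l 16589904))) (b (c (l 16542784) (a (l 16635624) (l 16566312))) (c (l 16515952) (a (l 16602496) (l 16546376)))))))), by decide +kernel⟩

def k19_pp_012 : ∃ t, chk3 f_pp_012 t 14 6 1 = true :=
  ⟨(b (a (c (b (a (b (l 16668048) (l 16625192)) (b (l 16600648) (l 16629216))) (a (b (a (l 16689528) (l 16657672)) (a (c (l 16698648) (l 16697632)) (l 16693088))) (b (l 16669328) (l 16714088)))) (b (a (c (l 16644872) (l 16643456)) (b (l 16596144) (l 16625528))) (a (b (a (l 16687256) (l 16654608)) (a (c (l 16696616) (l 16695600)) (l 16691024))) (b (l 16666800) (l 16670944))))) (c (b (a (l 16619296) (b (l 16659840) (l 16697696))) (a (b (l 16701344) (l 16734432)) (l 16610792))) (b (a (l 16616272) (b (l 16657800)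 (l 16696792))) (a (b (l 16700144) (l 16713264)) (b (l 16715248) (l 16672184)))))) (a (b (c (a (b (c (l 16701432) (b (l 16719480) (l 16723216))) (c (l 16726032) (l 16725360))) (b (c (l 16749368) (l 16749280)) (c (l 16752960) (l 16752784)))) (c (a (b (b (l 16718800) (l 16722544)) (l 16724680)) (b (l 16749184) (l 16752616))) (a (b (b (l 16718112) (l 16721872)) (l 16703024)) (b (l 16749096) (l 16752448))))) (c (a (b (c (l 16716816) (l 16674264)) (c (l 16613904) (l 16588304))) (c (l 16610400) (b (l 16734192) (l 16707696)))) (a (b (c (l 16678888) (a (l 16691736) (l 16733688))) (c (l 16583680) (l 16579056))) (a (b (l 16726760) (l 16614392)) (c (l 16711632) (l 16680024)))))) (b (c (a (b (l 16704496) (l 16677760)) (b (l 16624800) (a (l 16675544) (l 16645456)))) (a (b (b (l 16681960) (l 16706464)) (c (l 16697984) (l 16697480))) (b (c (l 16643784) (l 16642456)) (c (l 16659080) (l 16657880))))) (a (c (c (l 16681456) (a (l 16757840) (l 16708744))) (b (c (l 16735600) (l 16735224)) (a (l 16745536) (l 16717128))))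 (c (b (a (l 16692856) (l 16671488)) (a (l 16696960) (l 16707320))) (b (a (l 16691080) (l 16669264)) (c (l 16691384) (l 16690720)))))))), by decide +kernel⟩

def k20_pp_012 : ∃ t, chk3 f_pp_012 t 30 6 1 = true :=
  ⟨(b (b (a (c (b (l 16709144) (l 16622520)) (b (l 16688032) (l 16621592))) (a (b (l 16637064) (c (l 16629480) (l 16627104))) (c (l 16610536) (l 16586800)))) (b (a (c (l 16649176) (l 16626128)) (c (a (l 16600440) (l 16580248)) (a (l 16597168) (l 16576544)))) (a (c (l 16611704) (l 16608472)) (c (a (l 16576752) (l 16559928)) (l 16522480))))) (c (a (b (b (l 16592864) (l 16622320)) (b (l 16660168) (a (l 16702184) (l 16698176)))) (b (a (l 16588336) (b (l 16554296) (l 16592704))) (a (l 16628024) (b (l 16635216) (l 16658736))))) (b (a (b (l 16547056) (l 16577192)) (b (a (l 16565800) (l 16549768)) (l 16575888))) (a (b (l 16657888) (c (l 16699544) (l 16698888))) (a (b (l 16646432) (l 16690784)) (l 16613144)))))), by decide +kernel⟩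

def k21_pp_012 : ∃ t, chk3 f_pp_012 t 31 6 1 = true :=
  ⟨(a (b (b (c (l 16573952) (l 16570336)) (a (c (c (b (l 16541176) (l 16541432)) (l 16548792)) (b (l 16556952) (l 16535016))) (c (b (l 16538280) (c (l 16520704) (l 16496824))) (b (l 16533656) (l 16513704))))) (c (b (c (a (l 16514384) (l 16516144)) (a (l 16552360) (b (l 16513312) (l 16552600)))) (c (a (a (l 16560832) (l 16548472)) (b (l 16594384) (l 16617448))) (a (l 16590688) (b (l 16588464) (l 16589336))))) (b (c (l 16539736) (l 16537360)) (c (b (l 16597984) (l 16585632)) (b (l 16596320) (l 16605264)))))) (b (c (b (l 16524784) (b (l 16501672) (a (c (l 16498752) (l 16495840)) (l 16469416)))) (b (l 16520024) (b (l 16496200) (a (c (b (l 16497008) (l 16445544)) (l 16490008)) (l 16463064))))) (c (b (a (c (b (l 16493912) (l 16524960)) (b (l 16490464) (l 16521088))) (b (c (l 16454720) (l 16451272)) (l 16467064))) (a (c (l 16551112) (l 16483312)) (c (l 16485360) (l 16482104)))) (b (a (c (b (a (l 16493368) (l 16480968)) (l 16453808)) (b (l 16483592)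 (l 16513424))) (c (b (a (l 16462080) (l 16435880)) (l 16461648)) (b (a (c (l 16459432) (l 16457736)) (c (l 16433168) (b (l 16431320) (l 16432320)))) (a (l 16473784) (l 16441696))))) (a (c (b (l 16535240) (l 16504704)) (l 16536688)) (c (l 16457168) (a (l 16489784) (c (l 16458848) (l 16456352))))))))), by decide +kernel⟩

def k22_pp_012 : ∃ t, chk3 f_pp_012 t 14 28 1 = true :=
  ⟨(a (a (b (c (c (a (l 145659112071) (l 16520680)) (a (l 16468840) (l 16554240))) (c (a (l 16459432) (l 16545848)) (a (l 16471000) (l 16537464)))) (a (l 3) (b (b (c (l 126331798183) (l 16447440)) (l 3)) (l 3)))) (b (c (c (l 16572144) (l 16586888)) (c (l 16580656) (l 16574432))) (c (a (c (b (l 16487896) (l 123110471847)) (l 80697637351)) (b (l 16534632) (c (b (l 16537960) (l 104320090999)) (l 16510200)))) (c (a (l 56538423799) (l 16488424)) (b (l 16524024) (l 26473584455)))))) (c (a (b (a (c (l 16719464) (l 16716520)) (l 16700608)) (b (c (l 16608160) (l 16602448)) (a (c (l 16560192) (l 16570736)) (l 16643152)))) (b (b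 (l 16719728) (l 16739896)) (c (l 16635192) (l 16634976)))) (a (b (c (a (l 16713576) (l 16763248)) (a (l 16710632) (l 16763064))) (b (c (l 16596736) (l 16612000)) (c (l 16553632) (l 16481800)))) (b (a (l 16732328) (l 16725664)) (c (l 16634768) (a (l 16743048) (l 16756896))))))), by decide +kernel⟩

def k23_pp_012 : ∃ t, chk3 f_pp_012 t 14 29 1 = true :=
  ⟨(a (b (b (b (a (l 3) (a (l 3) (a (l 3) (c (c (l 156396594743) (l 16475264)) (l 129016038951))))) (l 3)) (l 3)) (l 3)) (b (a (c (b (c (a (b (l 16535640) (l 148880348935)) (l 16584616)) (a (l 16484272) (l 16573808))) (a (c (l 155322867543) (l 110762320327)) (c (b (l 16531256) (l 145659091079)) (l 16455184)))) (b (c (l 41506063303) (a (l 16414488) (l 16552192))) (c (l 95729880583) (a (l 16350608) (l 109688621271))))) (c (b (a (l 16610320) (l 16688272)) (a (c (l 16562032) (l 16571824)) (c (l 16659424) (l 16653552)))) (a (c (l 16518024) (b (l 16635272) (l 16549456))) (b (l 16644656) (c (l 16647672) (l 16620824)))))) (b (a (a (l 3) (b (c (c (l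 125794789623) (l 16434504)) (l 100561720983)) (l 3))) (c (a (c (b (l 171428942087) (l 138142861303)) (l 130089761639)) (c (l 16538360) (l 16569008))) (a (c (l 16429080) (l 105393605815)) (c (l 16557704) (l 16504464))))) (a (l 3) (c (a (c (b (l 167670821799) (l 3)) (l 109151601575)) (c (b (l 144048490855) (a (l 162302104487) (l 135458569431))) (l 112372975031))) (a (c (l 102172243207) (l 92508480455)) (c (l 104856723559) (b (l 126868510743) (l 86603076135))))))))), by decide +kernel⟩

def k24_pp_012 : ∃ t, chk3 f_pp_012 t 14 15 1 = true :=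
  ⟨(b (b (b (b (b (a (l 3) (a (l 3) (a (l 3) (c (c (a (l 3) (l 175723906247)) (l 116131035943)) (c (l 16393480) (l 98414177655)))))) (l 3)) (l 3)) (l 3)) (l 3)) (l 3)), by decide +kernel⟩

def k25_pp_012 : ∃ t, chk3 f_pp_012 t 15 28 1 = true :=
  ⟨(a (c (a (b (a (l 16743432) (l 16741448)) (c (a (l 16745928) (l 16731648)) (a (l 16745632) (l 16731248)))) (a (b (l 16737424) (c (l 16703776) (l 16703384))) (b (c (l 16700536) (l 16721168)) (c (a (l 16733680) (l 16733832)) (l 16723672))))) (a (b (c (l 16742568) (l 16742408)) (c (a (l 16745336) (l 16730848)) (l 16695328))) (b (a (l 16737240) (c (l 16720928) (l 16720688))) (a (c (l 16702984) (l 16702584)) (b (l 16701704) (l 16723912)))))) (c (a (c (a (b (c (l 16684864) (l 16638728)) (c (l 16656488) (l 16651544))) (b (l 16631104) (a (l 16658232) (l 16631760)))) (a (b (l 16677384) (l 16668728)) (b (l 16559624) (c (l 16594816) (l 16611048))))) (a (c (b (l 16571608) (l 16585160)) (b (l 16565528) (a (l 16593568) (l 16563944)))) (b (l 16501944) (c (a (l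 16533528) (l 375842521351)) (l 16497248))))) (a (c (b (l 16605320) (a (l 16689104) (l 16628744))) (b (l 16625136) (l 16616248))) (a (a (c (b (l 16573032) (l 16584496)) (l 16574680)) (c (c (l 16551304) (l 16525664)) (l 16543048))) (c (b (l 16495672) (a (c (l 16528968) (l 16525296)) (l 16499112))) (b (a (l 16506792) (c (l 16475944) (l 16472992))) (a (c (l 16520904) (l 16518448)) (c (l 16496008) (l 336114063783))))))))), by decide +kernel⟩

def k26_pp_012 : ∃ t, chk3 f_pp_012 t 15 58 1 = true :=
  ⟨(a (c (a (a (c (l 16695504) (l 16673736)) (c (b (l 16710480) (l 16696544)) (b (l 16709680) (l 16695504)))) (a (c (b (l 16714880) (l 16711424)) (b (l 16714264) (l 16710704))) (c (c (l 16703648) (l 16724176)) (l 16703104)))) (a (a (c (l 16693904) (l 16693104)) (c (b (l 16708888) (l 16694464)) (b (l 16708088) (l 16693416)))) (a (c (b (l 16713632) (l 16709952)) (b (l 16712992) (l 16709208))) (c (l 16702968) (l 16723800))))) (a (c (c (a (c (b (l 16667248) (l 16680752)) (a (l 16700216) (l 16675448))) (b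 (l 16614056) (l 16606936))) (a (l 16642880) (c (a (l 16644432) (l 16640840)) (a (l 16660824) (l 16633776))))) (c (a (l 16684360) (l 16602512)) (b (l 16625968) (l 16639040)))) (a (c (b (c (a (l 16613408) (l 16539680)) (a (l 16604088) (l 16577664))) (c (c (a (l 16630512) (b (l 16595760) (l 1))) (l 16597512)) (a (l 16621024) (l 16602272)))) (c (a (c (b (l 16595232) (l 16611640)) (l 16600112)) (c (l 16562872) (l 264173538823))) (b (l 16576208) (l 16596648)))) (a (c (c (c (l 237329926199) (l 16545672)) (l 16567880)) (a (c (l 256657331319) (l 16538176)) (l 1))) (l 1))))), by decide +kernel⟩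

def k27_pp_012 : ∃ t, chk3 f_pp_012 t 15 59 1 = true :=
  ⟨(a (c (a (a (c (b (l 16622208) (a (b (l 16580384) (c (l 16540128) (l 16532904))) (b (l 16626392) (l 16584224)))) (b (l 16640432) (a (l 16504200) (l 16597280)))) (c (b (l 16687744) (l 16678528)) (b (l 16686584) (l 16678168)))) (a (c (l 16684712) (l 16683840)) (c (b (l 16696256) (l 16691416)) (l 16693832)))) (a (a (b (c (l 16637688) (a (l 16626096) (l 16678488))) (c (a (l 16491640) (l 16588848)) (a (b (l 16548576) (a (l 16479064) (l 16507720))) (l 16538464)))) (c (b (l 16685408) (l 16677800)) (b (l 16684240) (l 16677440)))) (a (c (l 16682928) (l 16702976)) (c (l 16693432) (l 16693024))))) (a (a (c (a (c (c (l 16714304) (l 16728864)) (l 16728528)) (c (b (l 16680872) (c (l 16721336) (l 16712472))) (b (l 16712248) (l 16706360)))) (b (l 16684720) (c (l 16699208) (l 16698944)))) (a (c (c (b (l 16677592) (c (b (l 16695272) (l 16706224)) (l 16694640))) (c (b (l 16686920) (l 16665024)) (l 16650488))) (c (l 204581117255) (l 224445339255))) (b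 (c (c (c (l 16635720) (l 16674488)) (c (l 16666976) (l 16659248))) (c (l 16654416) (l 16653304))) (l 1)))) (a (a (a (c (b (c (l 178811253047) (l 16651368)) (l 1)) (c (l 197601707143) (l 16653080))) (l 1)) (l 1)) (l 1)))), by decide +kernel⟩

def k28_pp_012 : ∃ t, chk3 f_pp_012 t 15 60 1 = true :=
  ⟨(a (a (c (b (a (c (b (a (c (a (l 192903792071) (l 16506920)) (l 16485752)) (l 16538968)) (a (l 177334522791) (c (l 170892140423) (l 16485472)))) (a (b (l 16471600) (l 16417592)) (l 16412848))) (c (a (b (l 16590312) (l 16542792)) (l 16621536)) (a (l 16552240) (l 16611672)))) (a (c (b (a (l 3) (l 172502689639)) (l 3)) (l 145122219575)) (a (c (c (b (l 177871461367) (l 175187051127)) (l 192903809879)) (l 139753337415)) (c (c (b (l 16557736) (b (l 16525336) (l 184850783559))) (l 132774146855)) (b (l 16533720) (l 16460624)))))) (a (b (c (a (l 127942120103) (l 16457384)) (a (b (l 135458407799) (l 16306744)) (l 143511443127))) (c (l 94655914167) (l 103245734151))) (b (c (l 16506168) (l 16472776)) (c (a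 (l 109151655431) (l 16464536)) (a (l 109688426039) (l 16442032)))))) (c (a (b (c (l 16698440) (l 16676816)) (a (c (c (l 16490048) (l 16565312)) (l 16552296)) (c (l 16654248) (l 16643576)))) (b (c (a (l 16717808) (l 16718504)) (l 16707240)) (c (a (l 16695344) (c (a (l 16738432) (b (l 16746032) (l 16729904))) (l 16743136))) (a (l 16715056) (l 16742800))))) (a (b (c (l 16676096) (l 16675376)) (c (a (l 16555912) (l 16633016)) (a (l 16538552) (l 16622464)))) (b (c (l 16706632) (l 16706032)) (a (c (l 16713880) (l 16712704)) (c (l 16742352) (l 16741912))))))) (a (a (c (a (c (b (c (a (l 16752920) (l 16737584)) (l 16761736)) (c (a (c (b (l 16751632) (l 16733744)) (l 16755800)) (b (l 16734880) (l 1))) (l 16758744))) (b (l 16761952) (l 16758896))) (b (c (a (c (l 162705349271) (l 16735104)) (c (l 148746692423) (l 16729696))) (l 16706632)) (l 1))) (b (c (l 16719760) (l 24729497431)) (c (l 16742368) (l 16742264)))) (l 1)) (l 1))), by decide +kernel⟩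

def k29_pp_012 : ∃ t, chk3 f_pp_012 t 15 61 1 = true :=
  ⟨(a (b (a (a (l 3) (a (l 3) (a (l 3) (b (b (c (c (c (l 183240198743) (l 16478256)) (l 16455512)) (l 153712117175)) (l 3)) (l 3))))) (c (a (c (b (a (c (c (b (l 223505562983) (l 202030651351)) (l 211157506087)) (l 201493819655)) (c (c (l 16505032) (l 16586992)) (l 16578984))) (a (c (c (l 195588164711) (l 194514416839)) (l 185387594951)) (c (b (c (l 16546320) (l 157470449943)) (l 209546867383)) (b (l 16538912) (l 174113388855))))) (a (b (l 126868570359) (l 174650113303)) (b (l 16561912) (l 81234540999)))) (c (b (a (c (a (l 16637448) (l 16649264)) (l 16648928)) (c (c (a (b (l 16716688) (l 16690664)) (b (l 16726680) (l 1))) (l 16721320)) (l 16719296))) (a (c (a (b (l 16596384) (a (l 16559176) (l 16576032))) (c (b (l 16629032) (c (l 16600592) (l 16599848))) (l 328598237879))) (a (b (l 16592144) (l 16563288)) (l 147672591063))) (l 1))) (a (a (l 16547216) (l 16542376)) (l 255047034599)))) (c (a (a (l 98951073159) (l 16399648)) (a (b (l 16621784)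 (l 41371997991)) (l 176126936519))) (a (a (l 116130886631) (l 16456248)) (a (b (l 16606272) (l 16526360)) (l 182569387335)))))) (a (l 3) (a (b (b (c (c (a (l 3) (c (l 199346297415) (l 185924476903))) (l 179481931223)) (c (l 127942023175) (l 16328904))) (l 3)) (l 3)) (a (a (b (b (c (c (c (c (c (a (l 201493853271) (l 341482980295)) (l 180019016679)) (a (l 16527184) (l 16544304))) (a (c (l 16525616) (l 16521568)) (l 16540960))) (l 16509344)) (c (l 16474600) (l 16439864))) (a (l 3) (l 1))) (l 1)) (l 1)) (l 1))))) (l 1)), by decide +kernel⟩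

def k30_pp_012 : ∃ t, chk3 f_pp_012 t 15 31 1 = true :=
  ⟨(a (a (l 3) (a (l 3) (l 1))) (l 1)), by decide +kernel⟩

theorem s31_pp_012 : ∃ t, chk3 f_pp_012 t 15 30 1 = true := ex3_b k28_pp_012 k29_pp_012

theorem s32_pp_012 : ∃ t, chk3 f_pp_012 t 15 15 1 = true := ex3_b s31_pp_012 k30_pp_012

theorem s33_pp_012 : ∃ t, chk3 f_pp_012 t 15 29 1 = true := ex3_b k26_pp_012 k27_pp_012

theorem s34_pp_012 : ∃ t, chk3 f_pp_012 t 15 14 1 = true := ex3_b k25_pp_012 s33_pp_012

theorem s35_pp_012 : ∃ t, chk3 f_pp_012 t 15 7 1 = true := ex3_b s34_pp_012 s32_pp_012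

theorem s36_pp_012 : ∃ t, chk3 f_pp_012 t 14 14 1 = true := ex3_b k22_pp_012 k23_pp_012

theorem s37_pp_012 : ∃ t, chk3 f_pp_012 t 14 7 1 = true := ex3_b s36_pp_012 k24_pp_012

theorem s38_pp_012 : ∃ t, chk3 f_pp_012 t 7 7 1 = true := ex3_a s37_pp_012 s35_pp_012

theorem s39_pp_012 : ∃ t, chk3 f_pp_012 t 15 6 1 = true := ex3_a k20_pp_012 k21_pp_012

theorem s40_pp_012 : ∃ t, chk3 f_pp_012 t 7 6 1 = true := ex3_a k19_pp_012 s39_pp_012

theorem s41_pp_012 : ∃ t, chk3 f_pp_012 t 7 3 1 = true := ex3_b s40_pp_012 s38_pp_012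

theorem s42_pp_012 : ∃ t, chk3 f_pp_012 t 7 1 1 = true := ex3_b k18_pp_012 s41_pp_012

theorem s43_pp_012 : ∃ t, chk3 f_pp_012 t 6 13 1 = true := ex3_b k15_pp_012 k16_pp_012

theorem s44_pp_012 : ∃ t, chk3 f_pp_012 t 6 25 1 = true := ex3_a k13_pp_012 k14_pp_012

theorem s45_pp_012 : ∃ t, chk3 f_pp_012 t 6 12 1 = true := ex3_b k12_pp_012 s44_pp_012

theorem s46_pp_012 : ∃ t, chk3 f_pp_012 t 6 6 1 = true := ex3_b s45_pp_012 s43_pp_012

theorem s47_pp_012 : ∃ t, chk3 f_pp_012 t 6 3 1 = true := ex3_b s46_pp_012 k17_pp_012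

theorem s48_pp_012 : ∃ t, chk3 f_pp_012 t 6 2 1 = true := ex3_b k10_pp_012 k11_pp_012

theorem s49_pp_012 : ∃ t, chk3 f_pp_012 t 6 1 1 = true := ex3_b s48_pp_012 s47_pp_012

theorem s50_pp_012 : ∃ t, chk3 f_pp_012 t 3 1 1 = true := ex3_a s49_pp_012 s42_pp_012

theorem s51_pp_012 : ∃ t, chk3 f_pp_012 t 22 11 1 = true := ex3_b k6_pp_012 k7_pp_012

theorem s52_pp_012 : ∃ t, chk3 f_pp_012 t 22 5 1 = true := ex3_b k5_pp_012 s51_pp_012

theorem s53_pp_012 : ∃ t, chk3 f_pp_012 t 11 5 1 = true := ex3_a s52_pp_012 k8_pp_012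

theorem s54_pp_012 : ∃ t, chk3 f_pp_012 t 11 2 1 = true := ex3_b k4_pp_012 s53_pp_012

theorem s55_pp_012 : ∃ t, chk3 f_pp_012 t 10 5 1 = true := ex3_b k2_pp_012 k3_pp_012

theorem s56_pp_012 : ∃ t, chk3 f_pp_012 t 10 2 1 = true := ex3_b k1_pp_012 s55_pp_012

theorem s57_pp_012 : ∃ t, chk3 f_pp_012 t 5 2 1 = true := ex3_a s56_pp_012 s54_pp_012

theorem s58_pp_012 : ∃ t, chk3 f_pp_012 t 2 2 1 = true := ex3_a k0_pp_012 s57_pp_012

theorem s59_pp_012 : ∃ t, chk3 f_pp_012 t 2 1 1 = true := ex3_b s58_pp_012 k9_pp_012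

theorem s60_pp_012 : ∃ t, chk3 f_pp_012 t 1 1 1 = true := ex3_a s59_pp_012 s50_pp_012

theorem c_pp_012 : CertFX 67108864 469762048 0 536870912 1046898278 26843546 false true true .pnp 0 1 2
    ndF1q0 ndF0q2 pcF1 Cut.none Ext.none :=
  certFX2 (fam := false) (s1 := true) (s2 := true) (a := 0) (b := 1) (c := 2) (cn := .pnp) (n1 := ndF1q0) (n2 := ndF0q2) (pc := pcF1) (cut := Cut.none) (xt := Ext.none) (P1 := 67108864) (W1 := 469762048) (P2 := 0) (W2 := 536870912) (P3 := 1046898278) (W3 := 26843546)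
    rfl (fun _ => rfl) s60_pp_012

noncomputable def f_pp_022 : ℕ → ℕ → ℕ → ℕ → Bool := onCell 1073741824 536870912 0 536870912 1046898278 26843546
    (rowFX 2 false true true .pp 0 2 2 (qsf 67108864 469762048 0 536870912 2) ndF1q0 ndF0q2 pcF2 Cut.none Ext.none)

def k0_pp_022 : ∃ t, chk3 f_pp_022 t 2 2 1 = true :=
  ⟨(a (b (b (a (c (a (b (l 16282176) (l 16339832)) (c (a (l 16452432) (l 16514088)) (a (l 16450160) (l 16512896)))) (a (b (l 16316192) (l 16354384)) (b (l 16381784) (a (l 16462296) (l 16518608))))) (a (c (a (c (l 16513200) (l 16533464)) (c (b (l 16426680) (l 16433472)) (l 16407448))) (a (b (l 16534824) (l 16531536)) (b (l 16421808) (l 16429952)))) (l 1))) (a (c (a (b (l 16426432) (l 16520688)) (b (a (l 16505256) (l 16549000)) (a (l 16551960) (l 16568776)))) (a (b (l 16421760) (l 16496992)) (b (a (l 16502160) (l 16547664)) (a (l 16550120) (l 16589616))))) (a (c (a (c (l 16442928) (l 16462736)) (c (b (l 16430536) (l 16375512)) (b (l 16431560) (l 16422912)))) (a (b (l 16516856) (l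 16490632)) (b (l 16428832) (l 16419992)))) (l 1)))) (a (c (b (a (b (l 16601816) (l 16551488)) (b (a (l 16610424) (l 16555232)) (c (l 16445608) (l 16444280)))) (a (b (c (a (l 16516392) (l 16520192)) (l 16473912)) (a (l 16382232) (c (l 16428400) (l 16424944)))) (a (b (l 16423248) (l 16363536)) (b (l 16417944) (b (l 16352144) (l 16265160)))))) (b (a (b (l 16601240) (l 16549704)) (b (a (l 16610192) (l 16553696)) (a (l 16543184) (l 16489400)))) (a (b (a (l 16510536) (l 16494240)) (a (l 16416600) (c (l 16421504) (l 16418056)))) (b (a (l 16481696) (l 16411928)) (a (l 16376824) (l 16322672)))))) (a (a (c (b (b (l 16413184) (c (l 16387456) (l 16408408))) (c (b (l 51572085143) (b (l 16308744) (l 1))) (b (l 16360672) (l 16304104)))) (b (b (l 16448880) (l 16404568)) (b (l 16355736) (l 16304376)))) (b (b (c (c (l 16376264) (l 16407968)) (l 16404440)) (b (l 1) (l 1))) (l 1))) (l 1)))) (l 1)), by decide +kernel⟩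

def k1_pp_022 : ∃ t, chk3 f_pp_022 t 8 6 1 = true :=
  ⟨(a (b (c (b (a (c (b (l 16351184) (l 16292192)) (b (l 16346256) (l 16286384))) (c (l 16308976) (l 16303704))) (a (c (b (l 16223520) (l 16144024)) (b (l 16216720) (l 16136088))) (c (l 16161040) (l 16153600)))) (b (a (b (l 16338856) (l 16256712)) (b (l 16332032) (l 16260408))) (a (b (l 16185560) (l 16124224)) (l 16058664)))) (b (b (c (a (c (l 16070304) (l 16061320)) (b (l 16058824) (l 16041696))) (a (l 16047912) (l 16030824))) (c (a (l 16031600) (c (c (l 16009064) (l 16033008)) (l 16025624))) (a (l 16012424) (l 16011872)))) (b (c (a (a (l 15997848) (l 15996592)) (a (b (l 16008008) (a (l 15994504) (l 1))) (l 1))) (a (l 15973728) (l 16001072))) (a (b (c (b (a (l 15974552) (l 15956480)) (a (c (l 15949240) (l 15959656)) (c (a (c (l 15953944) (l 15948824)) (c (l 515964851415) (l 15977304))) (a (l 15962144) (l 15969776))))) (a (a (l 15947952) (c (l 15954880) (l 15944544))) (c (l 15918280) (l 15950104)))) (c (a (c (c (l 15957312) (l 15952120))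 (c (l 15967928) (l 15962792))) (a (c (c (l 15961072) (l 15978960)) (l 15971728)) (l 1))) (a (c (a (l 15953936) (l 15956048)) (a (c (l 15946352) (l 15941360)) (l 15946376))) (c (l 15969880) (l 15960688))))) (l 1))))) (a (b (c (b (b (l 16298144) (a (l 16244328) (l 16225528))) (c (b (l 16170872) (a (l 16106168) (l 16104224))) (l 16137560))) (b (b (l 16287792) (l 16220032)) (b (l 16156544) (l 16094056)))) (b (a (a (b (c (l 16048544) (l 16032864)) (l 1)) (l 1)) (l 1)) (l 1))) (b (b (c (c (b (l 16260496) (l 16212336)) (l 16243760)) (l 16214856)) (l 1)) (l 1)))), by decide +kernel⟩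

def k2_pp_022 : ∃ t, chk3 f_pp_022 t 8 7 1 = true :=
  ⟨(a (b (a (b (b (a (c (c (c (a (l 16018256) (b (l 15981656) (l 16029520))) (l 16017000)) (a (l 16007832) (l 51034635559))) (c (a (l 15998072) (c (l 16002416) (l 15998616))) (a (c (l 15991136) (a (l 15986120) (l 15986712))) (c (l 15995472) (l 15992096))))) (a (a (c (c (b (l 16003056) (l 1)) (l 16013528)) (c (l 16006696) (l 16000688))) (l 1)) (l 1))) (b (a (a (a (c (c (l 16067632) (l 16061168)) (c (l 16052080) (l 336650048823))) (l 1)) (l 1)) (l 1)) (l 1))) (l 1)) (l 1)) (l 1)) (l 1)), by decide +kernel⟩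

def k3_pp_022 : ∃ t, chk3 f_pp_022 t 9 3 1 = true :=
  ⟨(b (l 1) (l 1)), by decide +kernel⟩

def k4_pp_022 : ∃ t, chk3 f_pp_022 t 5 3 1 = true :=
  ⟨(l 1), by decide +kernel⟩

def k5_pp_022 : ∃ t, chk3 f_pp_022 t 3 1 1 = true :=
  ⟨(l 1), by decide +kernel⟩

theorem s6_pp_022 : ∃ t, chk3 f_pp_022 t 8 3 1 = true := ex3_b k1_pp_022 k2_pp_022

theorem s7_pp_022 : ∃ t, chk3 f_pp_022 t 4 3 1 = true := ex3_a s6_pp_022 k3_pp_022

theorem s8_pp_022 : ∃ t, chk3 f_pp_022 t 2 3 1 = true := ex3_a s7_pp_022 k4_pp_022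

theorem s9_pp_022 : ∃ t, chk3 f_pp_022 t 2 1 1 = true := ex3_b k0_pp_022 s8_pp_022

theorem s10_pp_022 : ∃ t, chk3 f_pp_022 t 1 1 1 = true := ex3_a s9_pp_022 k5_pp_022

theorem c_pp_022 : CertFX 67108864 469762048 0 536870912 1046898278 26843546 false true true .pp 0 2 2
    ndF1q0 ndF0q2 pcF2 Cut.none Ext.none :=
  certFX2 (fam := false) (s1 := true) (s2 := true) (a := 0) (b := 2) (c := 2) (cn := .pp) (n1 := ndF1q0) (n2 := ndF0q2) (pc := pcF2) (cut := Cut.none) (xt := Ext.none) (P1 := 67108864) (W1 := 469762048) (P2 := 0) (W2 := 536870912) (P3 := 1046898278) (W3 := 26843546)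
    rfl (fun _ => rfl) s10_pp_022

noncomputable def f_pp_101 : ℕ → ℕ → ℕ → ℕ → Bool := onCell 536870912 536870912 536870912 536870912 1046898278 26843546
    (rowFX 0 false true true .npn 1 0 1 (qsf 536870912 536870912 536870912 536870912 0) ndF1q1 ndF0q1 pcF0 Cut.none Ext.none)

def k0_pp_101 : ∃ t, chk3 f_pp_101 t 1 1 1 = true :=
  ⟨(l 3), by decide +kernel⟩

theorem c_pp_101 : CertFX 536870912 536870912 536870912 536870912 1046898278 26843546 false true true .npn 1 0 1
    ndF1q1 ndF0q1 pcF0 Cut.none Ext.none :=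
  certFX0 (fam := false) (s1 := true) (s2 := true) (a := 1) (b := 0) (c := 1) (cn := .npn) (n1 := ndF1q1) (n2 := ndF0q1) (pc := pcF0) (cut := Cut.none) (xt := Ext.none) (P1 := 536870912) (W1 := 536870912) (P2 := 536870912) (W2 := 536870912) (P3 := 1046898278) (W3 := 26843546)
    rfl k0_pp_101

noncomputable def f_pp_102 : ℕ → ℕ → ℕ → ℕ → Bool := onCell 0 536870912 0 536870912 1046898278 26843546
    (rowFX 2 false true true .npp 1 0 2 (qsf 536870912 536870912 0 536870912 0) ndF1q1 ndF0q2 pcF0 Cut.none Ext.none)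

def k0_pp_102 : ∃ t, chk3 f_pp_102 t 1 1 1 = true :=
  ⟨(b (a (l 3) (a (l 3) (b (b (a (l 3) (a (b (a (b (c (c (l 276656291847) (l 276656291847)) (c (l 271824453639) (l 262697648135))) (l 3)) (c (b (c (b (l 16777216) (l 171966464007)) (b (l 16777216) (l 180019527687))) (a (l 3) (c (l 278266904583) (l 277730033671)))) (b (c (l 169818980359) (l 16777216)) (c (l 282561871879) (l 275045679111))))) (l 3)) (b (c (c (a (b (l 16777216) (c (l 187535720455) (l 192367558663))) (b (l 16777216) (l 16777216))) (a (b (l 16777216) (c (l 196125655047) (l 197736267783))) (b (l 16777216) (l 16777216)))) (c (c (c (l 177872044039) (l 177872044039)) (a (l 180556398599) (l 16777216))) (b (l 16777216) (a (l 192367558663) (l 16777216))))) (a (a (l 3) (b (c (c (l 291151806471) (l 290614935559)) (c (l 286856839175) (l 279877517319))) (l 3))) (c (b (c (c (l 212231782407) (l 216526749703)) (c (l 218674233351) (l 219211104263))) (a (l 3) (c (l 305647321095) (l 305110450183)))) (b (c (b (l 16777216) (l 236927844359)) (l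 210084298759)) (c (l 304573579271) (l 298667999239)))))))) (l 3)) (l 3)))) (l 3)), by decide +kernel⟩

theorem c_pp_102 : CertFX 536870912 536870912 0 536870912 1046898278 26843546 false true true .npp 1 0 2
    ndF1q1 ndF0q2 pcF0 Cut.none Ext.none :=
  certFX2 (fam := false) (s1 := true) (s2 := true) (a := 1) (b := 0) (c := 2) (cn := .npp) (n1 := ndF1q1) (n2 := ndF0q2) (pc := pcF0) (cut := Cut.none) (xt := Ext.none) (P1 := 536870912) (W1 := 536870912) (P2 := 0) (W2 := 536870912) (P3 := 1046898278) (W3 := 26843546)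
    rfl (fun _ => rfl) k0_pp_102

noncomputable def f_pp_112 : ℕ → ℕ → ℕ → ℕ → Bool := onCell 536870912 536870912 0 536870912 1046898278 26843546
    (rowFX 2 false true true .dn 1 1 2 (qsf 536870912 536870912 0 536870912 1) ndF1q1 ndF0q2 pcF1 Cut.none Ext.none)

def k0_pp_112 : ∃ t, chk3 f_pp_112 t 4 8 1 = true :=
  ⟨(a (c (c (b (a (c (l 16777216) (l 16777216)) (l 16777216)) (c (a (b (l 16777216) (a (b (l 200420622343) (l 265382002695)) (l 16777216))) (l 16777216)) (a (b (l 16777216) (a (b (l 203104976903) (l 266992615431)) (l 16777216))) (l 16777216)))) (a (c (b (l 16777216) (b (l 16777216) (a (l 243907166215) (l 16777216)))) (b (l 16777216) (b (l 16777216) (a (l 243907166215) (l 16777216))))) (b (l 16777216) (c (l 16777216) (l 16777216))))) (b (c (a (c (l 16777216) (l 16777216)) (l 16777216)) (a (l 16777216) (l 16777216))) (a (c (a (b (l 16777216) (b (l 197199396871) (l 265382002695))) (c (l 16777216) (l 16777216))) (a (c (l 189683204103) (l 182167011335)) (b (l 16777216) (l 16777216))))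 (c (c (l 16777216) (l 16777216)) (c (l 16777216) (l 16777216)))))) (c (a (c (b (l 16777216) (l 16777216)) (b (l 16777216) (l 16777216))) (b (c (l 16777216) (l 16777216)) (c (l 16777216) (l 16777216)))) (a (c (b (l 16777216) (l 16777216)) (b (l 16777216) (l 16777216))) (b (c (l 16777216) (l 16777216)) (c (l 16777216) (l 16777216)))))), by decide +kernel⟩

def k1_pp_112 : ∃ t, chk3 f_pp_112 t 4 18 1 = true :=
  ⟨(a (a (a (l 3) (b (c (b (c (a (l 251960229895) (l 16777216)) (a (l 254107713543) (l 16777216))) (a (l 3) (c (l 262697648135) (l 264308260871)))) (c (c (l 253033971719) (l 251423358983)) (b (l 190756945927) (l 275045679111)))) (l 3))) (a (c (b (c (c (l 16777216) (l 16777216)) (c (l 16777216) (l 16777216))) (b (a (c (l 273435066375) (l 274508808199)) (c (l 203641847815) (l 197199396871))) (a (l 3) (c (l 286319968263) (l 285246226439))))) (b (c (c (l 16777216) (l 16777216)) (l 138143596551)) (c (c (l 263234519047) (l 262160777223)) (b (l 197199396871) (l 291688677383))))) (c (c (b (l 16777216)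 (c (l 187535720455) (l 190220075015))) (b (l 16777216) (c (l 184851365895) (l 177872044039)))) (c (b (l 16777216) (c (l 169282109447) (l 16777216))) (c (l 136532983815) (l 123648081927)))))) (c (a (c (c (l 16777216) (l 16777216)) (a (b (l 16777216) (l 16777216)) (l 16777216))) (c (l 16777216) (l 16777216))) (a (c (a (b (l 16777216) (l 16777216)) (l 16777216)) (c (l 16777216) (l 16777216))) (c (l 16777216) (l 16777216))))), by decide +kernel⟩

def k2_pp_112 : ∃ t, chk3 f_pp_112 t 4 19 1 = true :=
  ⟨(b (a (a (l 3) (a (l 3) (c (c (c (l 279877517319) (l 275582550023)) (c (l 273435066375) (l 273971937287))) (c (c (l 274508808199) (l 273971937287)) (c (l 272361324551) (l 270750711815)))))) (c (a (c (a (c (l 192367558663) (l 193978171399)) (l 16777216)) (a (c (l 193978171399) (l 192904429575)) (l 16777216))) (c (l 16777216) (l 16777216))) (a (c (a (c (l 190220075015) (l 186461978631)) (l 16777216)) (a (c (l 181093269511) (l 174650818567)) (l 16777216))) (c (l 16777216) (l 16777216))))) (a (l 3)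 (a (c (c (a (c (l 284709355527) (l 285246226439)) (b (l 16777216) (a (l 260550164487) (l 16777216)))) (a (c (l 285246226439) (l 284709355527)) (b (l 16777216) (a (l 260013293575) (l 16777216))))) (a (c (c (l 284172484615) (l 282561871879)) (c (l 280951259143) (l 278266904583))) (c (b (l 16777216) (a (l 257328939015) (l 16777216))) (b (l 16777216) (l 204178718727))))) (c (c (a (l 16777216) (l 16777216)) (a (l 16777216) (l 16777216))) (c (a (l 16777216) (l 16777216)) (a (l 16777216) (l 16777216))))))), by decide +kernel⟩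

def k3_pp_112 : ∃ t, chk3 f_pp_112 t 4 5 1 = true :=
  ⟨(b (a (l 3) (a (a (l 3) (a (l 3) (b (b (b (c (c (l 273971937287) (l 272361324551)) (c (l 268066357255) (l 262160777223))) (l 3)) (l 3)) (l 3)))) (a (b (b (c (c (b (l 170892722183) (a (l 287930580999) (l 195588784135))) (b (l 162839658503) (a (l 284709355527) (l 186461978631)))) (c (b (a (l 170355851271) (l 16777216)) (a (l 279340646407) (l 179482656775))) (c (l 189146333191) (l 187535720455)))) (a (l 3) (b (c (c (l 301889224711) (l 297594257415)) (c (l 291151806471) (l 282561871879))) (l 3)))) (l 3)) (b (c (c (b (l 16777216) (a (b (l 208473686023) (l 315310997511)) (c (l 198810009607) (l 192367558663)))) (b (b (l 16777216) (l 16777216)) (b (a (l 197736267783) (l 16777216)) (a (l 309942288391) (b (l 176798302215) (l 236390973447)))))) (c (b (l 16777216) (a (c (l 253570842631) (l 249812746247)) (b (l 16777216) (b (l 166060883975) (l 225653555207))))) (b (l 16777216) (c (a (l 244980908039) (l 165524013063)) (l 190756945927))))) (a (l 3)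 (b (b (c (c (l 329806512135) (l 322827190279)) (c (l 314774126599) (l 304573579271))) (l 3)) (l 3))))))) (l 3)), by decide +kernel⟩

def k4_pp_112 : ∃ t, chk3 f_pp_112 t 5 2 1 = true :=
  ⟨(a (a (b (b (b (c (l 16777216) (l 16777216)) (c (c (l 16777216) (l 16777216)) (c (l 16777216) (l 16777216)))) (c (c (b (l 16777216) (l 16777216)) (b (l 16777216) (l 16777216))) (c (b (l 16777216) (l 16777216)) (b (l 16777216) (l 16777216))))) (b (b (c (c (b (l 16777216) (a (c (l 16777216) (l 16777216)) (l 16777216))) (b (l 16777216) (a (c (l 16777216) (l 16777216)) (l 16777216)))) (c (b (l 16777216) (a (c (l 16777216) (l 16777216)) (l 16777216))) (b (l 16777216) (c (l 16777216) (l 16777216))))) (a (b (b (c (a (c (b (l 206326202375) (l 284172484615)) (b (l 192367558663) (l 277730033671))) (c (l 16777216) (l 143512305671))) (c (a (b (l 179482656775) (l 269140099079)) (l 129016791047)) (c (l 170355851271) (l 164450271239)))) (a (l 3) (c (c (b (l 224042942471) (l 302426095623)) (c (l 261087035399) (l 256792068103)))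 (c (c (l 251960229895) (l 246591520775)) (b (l 180019527687) (l 273435066375)))))) (l 3)) (b (l 1) (l 1)))) (l 3))) (b (b (l 1) (l 1)) (l 1))) (l 1)), by decide +kernel⟩

def k5_pp_112 : ∃ t, chk3 f_pp_112 t 2 3 1 = true :=
  ⟨(b (a (l 3) (l 1)) (l 3)), by decide +kernel⟩

def k6_pp_112 : ∃ t, chk3 f_pp_112 t 3 1 1 = true :=
  ⟨(l 1), by decide +kernel⟩

theorem s7_pp_112 : ∃ t, chk3 f_pp_112 t 4 9 1 = true := ex3_b k1_pp_112 k2_pp_112

theorem s8_pp_112 : ∃ t, chk3 f_pp_112 t 4 4 1 = true := ex3_b k0_pp_112 s7_pp_112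

theorem s9_pp_112 : ∃ t, chk3 f_pp_112 t 4 2 1 = true := ex3_b s8_pp_112 k3_pp_112

theorem s10_pp_112 : ∃ t, chk3 f_pp_112 t 2 2 1 = true := ex3_a s9_pp_112 k4_pp_112

theorem s11_pp_112 : ∃ t, chk3 f_pp_112 t 2 1 1 = true := ex3_b s10_pp_112 k5_pp_112

theorem s12_pp_112 : ∃ t, chk3 f_pp_112 t 1 1 1 = true := ex3_a s11_pp_112 k6_pp_112

theorem c_pp_112 : CertFX 536870912 536870912 0 536870912 1046898278 26843546 false true true .dn 1 1 2
    ndF1q1 ndF0q2 pcF1 Cut.none Ext.none :=
  certFX2 (fam := false) (s1 := true) (s2 := true) (a := 1) (b := 1) (c := 2) (cn := .dn) (n1 := ndF1q1) (n2 := ndF0q2) (pc := pcF1) (cut := Cut.none) (xt := Ext.none) (P1 := 536870912) (W1 := 536870912) (P2 := 0) (W2 := 536870912) (P3 := 1046898278) (W3 := 26843546)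
    rfl (fun _ => rfl) s12_pp_112

noncomputable def f_pp_202_a : ℕ → ℕ → ℕ → ℕ → Bool := onCell 0 420477299 0 536870912 1046898278 26843546
    (rowFX 0 false true true .pp 2 0 2 (qsf 0 420477299 0 536870912 0) ndF1q2a ndF0q2 pcF0 Cut.none Ext.none)

def k0_pp_202_a : ∃ t, chk3 f_pp_202_a t 1 1 1 = true :=
  ⟨(l 3), by decide +kernel⟩

theorem c_pp_202_a : CertFX 0 420477299 0 536870912 1046898278 26843546 false true true .pp 2 0 2
    ndF1q2a ndF0q2 pcF0 Cut.none Ext.none :=
  certFX0 (fam := false) (s1 := true) (s2 := true) (a := 2) (b := 0) (c := 2) (cn := .pp) (n1 := ndF1q2a) (n2 := ndF0q2) (pc := pcF0) (cut := Cut.none) (xt := Ext.none) (P1 := 0) (W1 := 420477299) (P2 := 0) (W2 := 536870912) (P3 := 1046898278) (W3 := 26843546)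
    rfl k0_pp_202_a

noncomputable def f_pp_202_b : ℕ → ℕ → ℕ → ℕ → Bool := onCell 1239849684 370763052 0 536870912 1046898278 26843546
    (rowFX 0 false true true .pp 2 0 2 (qsf 1239849684 370763052 0 536870912 0) ndF1q2b ndF0q2 pcF0 Cut.none Ext.none)

def k0_pp_202_b : ∃ t, chk3 f_pp_202_b t 1 1 1 = true :=
  ⟨(l 3), by decide +kernel⟩

theorem c_pp_202_b : CertFX 1239849684 370763052 0 536870912 1046898278 26843546 false true true .pp 2 0 2
    ndF1q2b ndF0q2 pcF0 Cut.none Ext.none :=
  certFX0 (fam := false) (s1 := true) (s2 := true) (a := 2) (b := 0) (c := 2) (cn := .pp) (n1 := ndF1q2b) (n2 := ndF0q2) (pc := pcF0) (cut := Cut.none) (xt := Ext.none) (P1 := 1239849684) (W1 := 370763052) (P2 := 0) (W2 := 536870912) (P3 := 1046898278) (W3 := 26843546)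
    rfl k0_pp_202_b

noncomputable def f_pm_001 : ℕ → ℕ → ℕ → ℕ → Bool := onCell 67108864 469762048 536870912 536870912 1046898278 26843546
    (rowFX 0 false true false .up 0 0 1 (qsf 67108864 469762048 536870912 536870912 0) ndF1q0 ndF0q1 pcF0 Cut.none Ext.none)

def k0_pm_001 : ∃ t, chk3 f_pm_001 t 1 1 1 = true :=
  ⟨(b (l 4) (a (b (l 4) (l 2)) (b (b (a (l 4) (l 4)) (b (a (l 4) (c (a (l 187602829319) (l 67880615943)) (a (a (l 4) (l 16777216)) (l 37278973879)))) (a (a (l 2) (a (l 4) (c (l 105998390567) (l 16748632)))) (a (c (b (l 16777216) (l 16752376)) (b (l 16777216) (l 16751728))) (c (l 16764680) (l 16764360)))))) (b (b (a (a (l 2) (a (l 2) (b (l 16627384) (l 16535824)))) (a (c (l 16594264) (l 16589512)) (c (l 16594264) (l 16589512)))) (a (l 2) (a (c (l 16365336) (l 16354640)) (c (l 16365336) (l 16354640))))) (a (l 2) (a (b (c (l 16050584) (l 16081376)) (l 2)) (b (b (l 16164448) (l 16016104)) (c (l 15858544) (l 15770880))))))))), by decide +kernel⟩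

theorem c_pm_001 : CertFX 67108864 469762048 536870912 536870912 1046898278 26843546 false true false .up 0 0 1
    ndF1q0 ndF0q1 pcF0 Cut.none Ext.none :=
  certFX0 (fam := false) (s1 := true) (s2 := false) (a := 0) (b := 0) (c := 1) (cn := .up) (n1 := ndF1q0) (n2 := ndF0q1) (pc := pcF0) (cut := Cut.none) (xt := Ext.none) (P1 := 67108864) (W1 := 469762048) (P2 := 536870912) (W2 := 536870912) (P3 := 1046898278) (W3 := 26843546)
    rfl k0_pm_001

noncomputable def f_pm_011 : ℕ → ℕ → ℕ → ℕ → Bool := onCell 67108864 469762048 536870912 536870912 1046898278 26843546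
    (rowFX 0 false true false .pnn 0 1 1 (qsf 67108864 469762048 536870912 536870912 1) ndF1q0 ndF0q1 pcF1 Cut.none Ext.none)

def k0_pm_011 : ∃ t, chk3 f_pm_011 t 1 2 1 = true :=
  ⟨(l 4), by decide +kernel⟩

def k1_pm_011 : ∃ t, chk3 f_pm_011 t 2 6 1 = true :=
  ⟨(l 4), by decide +kernel⟩

def k2_pm_011 : ∃ t, chk3 f_pm_011 t 4 14 1 = true :=
  ⟨(l 4), by decide +kernel⟩

def k3_pm_011 : ∃ t, chk3 f_pm_011 t 8 30 1 = true :=
  ⟨(l 4), by decide +kernel⟩

def k4_pm_011 : ∃ t, chk3 f_pm_011 t 8 62 1 = true :=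
  ⟨(b (a (l 4) (b (a (l 4) (c (a (l 227330794551) (c (l 16606936) (l 16599392))) (a (l 16577312) (l 16597000)))) (c (a (a (c (l 16574360) (l 16559768)) (c (b (l 16564128) (l 16566024)) (l 16552912))) (c (a (l 16571952) (l 16628416)) (l 16536928))) (a (a (l 16556288) (a (l 16544888) (l 16550048))) (a (l 16576448) (l 16613712)))))) (b (a (a (l 4) (a (a (l 4) (a (l 4) (c (c (l 16609112) (l 16591600)) (l 16583808)))) (c (c (b (l 16586888) (l 16597744)) (b (l 16567328) (l 16577632))) (b (l 16562432) (l 16569304))))) (c (a (a (c (l 85059967239) (b (l 16554752) (l 16579696))) (c (l 16580768) (l 16585080))) (b (l 16555192) (l 16581352))) (a (a (b (l 16549768) (l 16571656)) (l 16577760)) (l 16596608)))) (a (a (a (a (l 4) (b (l 4) (b (l 4) (c (c (c (l 16644512) (l 16688552)) (l 237531509223)) (l 16658440))))) (b (a (l 4) (a (l 4) (c (c (l 16647824) (l 16628392)) (l 16617664)))) (c (c (c (a (b (l 16642472) (l 16648040)) (l 16647688)) (l 16632264)) (c (a (l 16645288) (l 16659952)) (l 16611736))) (a (l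 16624816) (l 16639624))))) (c (a (c (b (a (l 16597552) (l 16590576)) (a (l 16671784) (l 16676336))) (b (a (l 16577416) (l 71638250679)) (l 16594400))) (c (l 16571016) (b (l 16612824) (l 16619880)))) (a (b (a (l 16608568) (l 16601784)) (l 16642832)) (l 16582384)))) (c (a (c (l 16559560) (l 16542856)) (l 16520472)) (a (a (l 16606616) (l 16598824)) (l 16626896)))))), by decide +kernel⟩

def k5_pm_011 : ∃ t, chk3 f_pm_011 t 16 63 2 = true :=
  ⟨(b (a (c (b (c (a (b (a (l 16632576) (l 16638656)) (l 16667520)) (c (l 16625296) (l 16639624))) (a (a (b (b (l 16702680) (l 16710648)) (l 16729208)) (l 16645552)) (l 16677016))) (a (c (l 16607224) (b (l 16601560) (l 16603256))) (b (c (l 16648896) (l 16649680)) (l 16538808)))) (b (a (b (c (a (l 16665832) (l 16701856)) (l 16654472)) (c (l 16697552) (l 16726072))) (b (l 16635232) (l 16639208))) (a (c (b (l 16650080) (l 16605088)) (l 16609104)) (c (l 16562080) (l 16606704))))) (c (a (b (c (l 16611264) (l 16673816)) (b (l 16583928) (l 16583504))) (a (b (l 16610136)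 (l 16578032)) (b (l 16642592) (l 16561424)))) (a (b (b (l 16684144) (l 16656872)) (l 16495808)) (b (a (l 16603336) (l 16615016)) (l 16488024))))) (b (a (c (a (c (l 16551224) (l 16506176)) (b (l 16562088) (l 16543944))) (a (c (b (l 16586040) (l 16548880)) (l 16561112)) (c (l 16538368) (l 16533568)))) (c (a (c (l 16508848) (l 16516056)) (l 16483552)) (a (l 16464824) (l 16474168)))) (a (c (b (a (l 16546080) (l 16481624)) (a (b (l 16519776) (l 16501336)) (l 16473864))) (b (a (l 16468248) (c (l 16476960) (l 16468928))) (a (c (b (l 16487688) (l 16471632)) (l 16471264)) (l 16404096)))) (c (b (b (l 16453176) (l 16350416)) (l 16413176)) (b (b (l 16435904) (a (l 16432104) (l 16400224))) (l 16394720)))))), by decide +kernel⟩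

def k6_pm_011 : ∃ t, chk3 f_pm_011 t 16 63 3 = true :=
  ⟨(b (b (c (a (a (a (b (l 16666808) (l 16722952)) (l 16641072)) (l 16644168)) (a (l 16673128) (l 16594352))) (a (a (b (l 16641472) (l 16719864)) (l 16682584)) (a (l 16690840) (l 16639960)))) (a (a (c (a (l 16605680) (l 16594744)) (l 16629768)) (b (l 16606888) (c (l 16613048) (l 16622696)))) (b (a (c (l 16619920) (l 16647128)) (l 16553296)) (c (l 16550224) (l 16580400))))) (b (a (a (c (l 16523624) (l 16490488)) (c (l 16537808) (l 16525352))) (c (l 16366144) (b (l 16526600) (l 16473848)))) (a (b (a (c (l 16500816) (l 16505656)) (c (l 16466608) (l 16471064))) (a (c (l 16468800) (b (l 16473816) (l 16454368))) (c (l 16436768) (l 16435456)))) (b (b (l 16391168) (c (l 16409304) (l 16410816))) (l 16365952))))), by decide +kernel⟩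

def k7_pm_011 : ∃ t, chk3 f_pm_011 t 17 63 1 = true :=
  ⟨(b (c (a (a (b (l 16561680) (c (l 16529712) (l 16512696))) (b (l 16545288) (l 16526112))) (b (b (l 16596064) (l 16564672)) (l 16499312))) (a (a (b (l 16625296) (c (l 16525984) (l 16575456))) (c (a (l 16498488) (l 16486008)) (l 16517648))) (c (b (l 16586312) (l 16491768)) (l 16461744)))) (a (c (b (a (c (l 16449976) (l 16445624)) (l 16438976)) (a (b (c (l 16382872) (l 16374920)) (l 16352296)) (a (b (c (l 16365912) (l 16361184)) (l 16329240)) (l 16344736)))) (b (a (c (l 16448056) (l 16413624)) (c (l 16440208) (l 16447688))) (b (a (c (l 16369824) (l 16331208)) (c (l 16356456) (b (l 16368240) (l 16343040)))) (a (l 16340872) (l 16253496))))) (b (c (a (l 16414464) (l 16325712)) (b (l 16420600) (b (l 16398264) (c (l 16361864) (l 16368696))))) (c (a (l 16328960) (l 16301264)) (b (a (l 16322696) (l 16319736)) (l 16281536)))))), by decide +kernel⟩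

def k8_pm_011 : ∃ t, chk3 f_pm_011 t 9 30 1 = true :=
  ⟨(b (l 4) (a (b (l 4) (a (b (l 4) (c (a (b (l 4) (l 16604168)) (l 16649080)) (a (l 223572779463) (l 16626712)))) (c (b (a (l 16677152) (l 16686728)) (a (l 16677736) (l 16649984))) (b (a (l 16676496) (l 16686608)) (a (l 16677440) (l 16648712)))))) (b (a (b (l 4) (a (c (l 16684288) (l 16684072)) (c (l 16669736) (l 16669304)))) (a (b (a (l 16675736) (l 16668568)) (l 16583008)) (c (l 16557736) (l 16556792)))) (a (b (a (c (l 16648768) (l 16647664)) (l 16588632)) (c (l 16528528) (l 16546048))) (c (l 16433784) (l 16449848)))))), by decide +kernel⟩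

def k9_pm_011 : ∃ t, chk3 f_pm_011 t 9 31 1 = true :=
  ⟨(b (a (a (b (c (a (b (a (b (l 16614120) (l 16624160)) (b (l 16627528) (l 16643184))) (l 16596752)) (b (l 16667520) (l 16545464))) (a (b (a (l 16614736) (l 16631032)) (l 16651488)) (b (l 16662064) (l 16659512)))) (c (a (c (l 16605904) (l 16603088)) (b (a (l 16614800) (l 16548032)) (l 16543688))) (a (l 16612976) (b (l 16615224) (l 16584632))))) (b (c (a (l 16506024) (b (l 16593976) (l 16544024))) (l 16480480)) (a (c (b (l 16521384) (l 16432840)) (b (l 16575344) (l 16535432))) (c (l 16365552) (l 16484472))))) (b (a (c (b (l 16422824) (l 16366200)) (l 16354656)) (c (b (l 16414480) (l 16350032)) (l 16381304))) (c (a (c (l 16276400) (l 16269904)) (b (l 16286008) (l 16224224))) (a (l 16253280) (l 16262680))))) (a (b (c (a (b (l 16516080) (l 16440792)) (a (l 16331128) (b (l 16408168) (l 16366216)))) (a (c (l 16390568) (l 16477952)) (a (b (l 16484096) (l 16419616)) (b (l 16423560) (l 16338624))))) (b (a (b (c (l 16383160) (l 16393960)) (c (l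 16341872) (c (l 16316720) (a (l 16353568) (l 16336464))))) (b (c (a (l 16352912) (l 16266768)) (b (l 16360168) (a (l 16352680) (c (l 16325216) (l 16333368))))) (c (l 16304040) (a (l 16273760) (l 16288816))))) (c (a (l 16265976) (l 16214752)) (a (c (l 16257528) (l 16257064)) (l 16101848))))) (b (a (c (b (l 16296816) (l 16256400)) (b (l 16309008) (l 16246624))) (b (c (l 16170656) (l 16179192)) (c (l 16033176) (b (l 16140896) (l 16093016))))) (b (a (b (c (l 16230784) (a (l 16233528) (l 16201200))) (c (l 16201600) (a (l 16131168) (l 16164208)))) (c (l 16090288) (a (l 16120376) (l 16055280)))) (a (a (c (l 16144640) (a (l 16086272) (b (l 16170136) (l 16118616)))) (c (l 16116672) (l 16105880))) (c (l 16044488) (l 16031576))))))), by decide +kernel⟩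

def k10_pm_011 : ∃ t, chk3 f_pm_011 t 5 14 1 = true :=
  ⟨(b (l 4) (a (a (l 4) (b (l 4) (a (l 4) (b (l 4) (c (l 198339702791) (l 16543352)))))) (a (b (l 4) (b (a (l 4) (a (l 16592992) (l 16569280))) (a (c (l 16637168) (l 16636792)) (l 16536216)))) (b (b (l 4) (c (l 16444800) (l 16438112))) (c (a (l 16487648) (l 16409424)) (a (l 16481840) (l 16400872))))))), by decide +kernel⟩

def k11_pm_011 : ∃ t, chk3 f_pm_011 t 10 15 1 = true :=
  ⟨(b (b (b (a (a (l 4) (c (l 201024155607) (l 16585832))) (a (c (l 16543112) (l 16561608)) (c (l 16583824) (l 16581816)))) (a (a (a (b (l 4) (a (l 105998249079) (l 16639152))) (b (l 16626024) (l 16620240))) (c (l 16554216) (l 16574528))) (a (l 16576992) (l 16474992)))) (a (a (b (a (b (c (l 16567560) (l 16567072)) (l 16501504)) (b (l 16616712) (l 16485584))) (b (a (l 16482416) (c (l 16442176) (l 16435584))) (c (l 16391528) (l 16383216)))) (b (b (l 16555624) (l 16493504)) (c (b (l 16409560) (l 16326008)) (l 16276608)))) (b (a (l 16462680) (l 16394936)) (c (a (l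 16355568) (l 16346736)) (l 16235488))))) (b (a (b (a (c (l 16154800) (l 16277688)) (c (a (b (l 16242168) (l 16164064)) (b (l 16222888) (l 16125920))) (a (l 16198536) (l 16170440)))) (a (c (b (l 16176256) (l 16107200)) (l 16145944)) (c (b (l 15999400) (l 15985000)) (l 15983280)))) (b (c (a (l 16180424) (l 16192104)) (l 16116416)) (a (c (b (l 16025480) (l 15894848)) (l 15931944)) (c (l 16003400) (l 16004120))))) (a (b (b (c (l 15813376) (l 15921064)) (c (a (l 15989400) (l 15871208)) (a (b (l 16005176) (l 15984800)) (l 15849816)))) (c (a (l 15967720) (l 15879248)) (a (b (l 15969424) (l 15942208)) (l 15866968)))) (b (a (b (a (c (l 15819448) (l 15817184)) (c (l 15798712) (l 15795792))) (c (a (l 15786656) (l 15749384)) (a (l 15783536) (l 15745064)))) (c (b (l 15842984) (l 15791176)) (b (l 15841560) (l 15788248)))) (a (c (l 15801256) (l 15786472)) (a (b (b (l 15760216) (l 15755936)) (l 15764560)) (l 15777512))))))), by decide +kernel⟩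

def k12_pm_011 : ∃ t, chk3 f_pm_011 t 11 15 1 = true :=
  ⟨(b (b (a (a (c (l 16532384) (l 16550832)) (c (l 16457768) (l 16452032))) (c (l 16319784) (l 16331040))) (a (c (b (l 16354568) (l 16240176)) (l 16121672)) (c (l 16043488) (l 16158376)))) (b (b (a (c (l 16110208) (l 16102712)) (l 15974960)) (a (c (a (l 15971088) (l 15931448)) (l 15945288)) (c (b (l 15931456) (l 15869864)) (l 15897216)))) (b (a (c (l 15726200) (b (l 15840872) (l 15803408))) (l 15825344)) (c (l 15781240) (l 15765824))))), by decide +kernel⟩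

def k13_pm_011 : ∃ t, chk3 f_pm_011 t 3 3 1 = true :=
  ⟨(b (a (a (l 4) (a (l 4) (b (l 1) (b (l 1) (c (l 106535261479) (l 90429134119)))))) (l 1)) (a (b (a (b (b (l 4) (c (l 122103988743) (a (l 16532736) (l 16532736)))) (a (b (c (l 16427464) (l 16418416)) (c (l 16331920) (l 16320616))) (c (l 16365336) (l 16354640)))) (b (c (b (l 16650008) (l 16538920)) (b (l 16646704) (l 16532736))) (c (l 16365336) (l 16354640)))) (b (a (b (a (c (l 16225896) (l 16212152)) (l 16168176)) (a (c (l 16084112) (l 16070216)) (c (l 16034936) (l 16019248)))) (c (b (l 16172304) (l 16023368)) (l 16081376))) (b (a (a (b (l 15962960) (c (l 15882800) (l 15879536))) (c (l 15912512) (l 15903744))) (c (l 15908216) (l 15899280))) (c (l 15802904) (a (l 15795696) (l 15795696)))))) (b (a (b (c (l 16594264) (l 16589512)) (c (l 16365336) (l 16354640))) (l 1)) (b (c (b (l 16172304) (l 16023368)) (a (l 16081376) (l 16081376))) (c (b (l 15908056) (l 15802904)) (b (l 15899120) (l 15795696))))))), by decide +kernel⟩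

theorem s14_pm_011 : ∃ t, chk3 f_pm_011 t 5 15 1 = true := ex3_a k11_pm_011 k12_pm_011

theorem s15_pm_011 : ∃ t, chk3 f_pm_011 t 5 7 1 = true := ex3_b k10_pm_011 s14_pm_011

theorem s16_pm_011 : ∃ t, chk3 f_pm_011 t 9 15 1 = true := ex3_b k8_pm_011 k9_pm_011

theorem s17_pm_011 : ∃ t, chk3 f_pm_011 t 16 63 1 = true := ex3_c k5_pm_011 k6_pm_011

theorem s18_pm_011 : ∃ t, chk3 f_pm_011 t 8 63 1 = true := ex3_a s17_pm_011 k7_pm_011

theorem s19_pm_011 : ∃ t, chk3 f_pm_011 t 8 31 1 = true := ex3_b k4_pm_011 s18_pm_011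

theorem s20_pm_011 : ∃ t, chk3 f_pm_011 t 8 15 1 = true := ex3_b k3_pm_011 s19_pm_011

theorem s21_pm_011 : ∃ t, chk3 f_pm_011 t 4 15 1 = true := ex3_a s20_pm_011 s16_pm_011

theorem s22_pm_011 : ∃ t, chk3 f_pm_011 t 4 7 1 = true := ex3_b k2_pm_011 s21_pm_011

theorem s23_pm_011 : ∃ t, chk3 f_pm_011 t 2 7 1 = true := ex3_a s22_pm_011 s15_pm_011

theorem s24_pm_011 : ∃ t, chk3 f_pm_011 t 2 3 1 = true := ex3_b k1_pm_011 s23_pm_011

theorem s25_pm_011 : ∃ t, chk3 f_pm_011 t 1 3 1 = true := ex3_a s24_pm_011 k13_pm_011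

theorem s26_pm_011 : ∃ t, chk3 f_pm_011 t 1 1 1 = true := ex3_b k0_pm_011 s25_pm_011

theorem c_pm_011 : CertFX 67108864 469762048 536870912 536870912 1046898278 26843546 false true false .pnn 0 1 1
    ndF1q0 ndF0q1 pcF1 Cut.none Ext.none :=
  certFX0 (fam := false) (s1 := true) (s2 := false) (a := 0) (b := 1) (c := 1) (cn := .pnn) (n1 := ndF1q0) (n2 := ndF0q1) (pc := pcF1) (cut := Cut.none) (xt := Ext.none) (P1 := 67108864) (W1 := 469762048) (P2 := 536870912) (W2 := 536870912) (P3 := 1046898278) (W3 := 26843546)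
    rfl s26_pm_011

end Pool.Agent.Strip051.G.IE1.Tab.C.FB10

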