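import Pool.Agent.Strip051.G.IE1.Tab

/-! # Certificates F38 (generated) -/

set_option linter.all false
set_option maxRecDepth 100000

namespace Pool.Agent.Strip051.G.IE1.Tab.C.FB10

open Pool.Agent.Strip051.PB Pool.Agent.Strip051.PB.T
open Pool.Agent.Strip051.G.IE1.Tab

noncomputable def f_pm_012 : ℕ → ℕ → ℕ → ℕ → Bool := onCell 536870912 536870912 0 536870912 1046898278 26843546
    (rowFX 2 false true false .pnp 0 1 2 (qsf 67108864 469762048 0 536870912 1) ndF1q0 ndF0q2 pcF1 Cut.none Ext.none)

def k0_pm_012 : ∃ t, chk3 f_pm_012 t 2 1 1 = true :=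
  ⟨(a (b (a (l 2) (a (l 2) (b (l 2) (b (l 2) (b (l 2) (l 16777216)))))) (b (a (l 2) (b (c (l 16777216) (l 16777216)) (b (c (l 16729216) (l 16727968)) (l 16590024)))) (b (c (b (l 16438056) (a (l 16253288) (l 16253288))) (b (l 16429248) (a (c (l 16243080) (l 16236280)) (c (l 16243080) (l 16236280))))) (c (b (a (l 16045520) (c (l 16045240) (l 16044168))) (l 15850352)) (b (a (l 16026520) (l 16026520)) (a (l 15845824) (l 15845824))))))) (b (b (c (b (c (l 16777216) (l 16777216)) (c (l 16777216) (l 16777216))) (b (c (l 16777216) (l 16777216)) (c (l 16777216) (l 16777216)))) (b (c (a (l 16777216) (l 16777216)) (a (l 16777216) (l 16777216))) (b (a (c (l 16777216) (l 16777216)) (l 16777216)) (c (l 16777216) (l 16777216))))) (b (b (c (c (l 16777216) (l 16777216)) (c (l 16777216) (l 16777216))) (b (c (l 16687272) (l 16686024)) (c (l 16592424) (l 16587624)))) (b (c (a (b (l 16438056) (l 16148432)) (b (l 16438056) (l 16253288))) (b (l 16408280) (a (b (l 16294312) (l 16183968)) (l 16239680)))) (b (c (a (c (l 16045240)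 (l 16044168)) (b (l 16088264) (l 15991624))) (a (b (l 16071520) (l 15980656)) (b (l 16071520) (l 15980656)))) (c (a (l 15850352) (l 15850352)) (a (l 15845824) (l 15636112)))))))), by decide +kernel⟩

def k1_pm_012 : ∃ t, chk3 f_pm_012 t 6 2 1 = true :=
  ⟨(a (b (c (b (l 16773576) (l 16773904)) (b (l 16773488) (l 16773816))) (b (c (b (l 16774168) (l 16774304)) (b (l 16774088) (l 16774224))) (c (l 16774552) (l 16774488)))) (a (b (c (b (l 16756408) (l 16758112)) (b (l 16755864) (l 16757616))) (b (c (l 16759744) (l 16759296)) (c (l 16761576) (l 16761168)))) (b (b (c (a (l 16746232) (l 16770992)) (a (l 16745424) (l 16770832))) (c (a (l 16748640) (l 16769040)) (a (l 16747896) (l 16768832)))) (b (b (a (l 16751568) (l 16731352)) (c (l 16768856) (l 16768632))) (c (a (l 16769000) (l 16626432)) (a (l 16768784) (l 16687064))))))), by decide +kernel⟩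

def k2_pm_012 : ∃ t, chk3 f_pm_012 t 7 2 1 = true :=
  ⟨(b (a (b (c (a (l 16693272) (l 16581672)) (a (l 16691088) (l 16576600))) (b (a (l 16705304) (c (l 16612392) (l 16608136))) (a (c (l 16708096) (l 16706304)) (c (a (l 16627528) (l 16593624)) (a (l 16623640) (l 16588960)))))) (b (c (a (c (l 16632896) (l 16631392)) (c (l 16509608) (l 16508136))) (a (b (l 16610632) (l 16646424)) (c (l 16506656) (l 16505184)))) (a (b (c (a (l 16649640) (l 16706152)) (l 16641504)) (c (a (l 16635680) (l 16674312)) (l 16509848))) (b (b (a (l 16623904) (c (l 16521016) (l 16515224))) (c (a (l 16624816) (l 16545400)) (a (l 16620920) (l 16539536)))) (c (a (l 16693472) (l 16628584)) (a (l 16686976) (l 16602296))))))) (a (b (a (b (c (l 16666920) (l 16664056)) (l 16466280)) (c (b (l 16528184) (l 16440728)) (b (l 16521824) (l 16432176)))) (a (c (b (l 16522128) (l 16288944)) (b (l 16515504) (l 16385496))) (c (b (l 16368536) (l 16316664)) (b (l 16358224) (l 16305176))))) (a (b (c (b (l 16539480) (l 16435168)) (l 16428592)) (c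 (b (l 16279832) (a (l 16286248) (l 16245688))) (b (l 16349920) (l 16273104)))) (b (c (b (l 16486432) (l 16279656)) (a (l 16491368) (b (l 16584424) (l 16430904)))) (c (a (b (l 16299416) (l 16179128)) (b (l 16274128) (l 16133192))) (a (b (l 16330128) (l 16217232)) (b (l 16283232) (l 16038432)))))))), by decide +kernel⟩

def k3_pm_012 : ∃ t, chk3 f_pm_012 t 6 6 1 = true :=
  ⟨(b (c (a (l 16774872) (a (l 16763320) (a (b (l 16775120) (l 16768264)) (b (l 16639272) (l 16606032))))) (a (l 16774808) (a (l 16762960) (a (b (l 16775064) (l 16768032)) (l 16513816))))) (a (c (b (l 16727624) (l 16590880)) (b (l 16726320) (l 16586024))) (a (b (c (l 16719464) (l 16717912)) (l 16580424)) (c (a (b (l 16678592) (a (l 16580344) (l 16605328))) (b (b (l 16575392) (l 16599864)) (l 16596160))) (a (b (l 16677752) (l 16406520)) (b (l 16451488) (l 16574320))))))), by decide +kernel⟩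

def k4_pm_012 : ∃ t, chk3 f_pm_012 t 6 14 1 = true :=
  ⟨(c (a (b (l 16436576) (l 16251872)) (a (b (l 16422536) (b (l 16268432) (l 16123600))) (b (a (a (l 16379208) (l 16394312)) (l 16419848)) (a (a (l 16068000) (l 16084632)) (l 16110976))))) (a (b (l 16427720) (l 16238216)) (a (b (l 16392272) (a (l 16219880) (l 16081616))) (a (b (a (l 16347672) (l 16384336)) (a (l 16048904) (l 16066176))) (b (l 16391248) (l 16074456)))))), by decide +kernel⟩

def k5_pm_012 : ∃ t, chk3 f_pm_012 t 12 15 1 = true :=
  ⟨(b (a (c (b (l 16088272) (l 15991672)) (b (l 16071528) (l 15980728))) (b (b (l 16102288) (a (c (c (l 16070656) (l 16064672)) (c (l 16052072) (l 16042208))) (c (l 16065448) (b (l 16052440) (l 16034456))))) (a (c (b (l 15902216) (b (l 16006432) (l 15987688))) (b (l 16014768) (l 15988888))) (b (c (a (b (l 16048496) (l 16031568)) (b (l 15965864) (l 16011720))) (a (l 16023176) (l 15871992))) (c (b (l 16016944) (a (l 16018456) (l 15989528))) (a (l 16016824) (l 15990512))))))) (a (c (b (l 15891800) (l 15802488))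 (b (l 15887056) (l 15791264))) (b (a (c (l 15939016) (l 15935864)) (b (c (l 15975672) (l 15975712)) (c (l 15937968) (l 15938136)))) (c (a (l 15847216) (l 15890024)) (a (b (l 15871368) (l 15809776)) (l 15755872)))))), by decide +kernel⟩

def k6_pm_012 : ∃ t, chk3 f_pm_012 t 26 15 1 = true :=
  ⟨(b (b (c (l 15957560) (l 15936792)) (a (c (b (c (b (l 15941680) (l 15927816)) (b (l 15935120) (l 15918880))) (b (c (l 15904256) (l 15920984)) (l 15792136))) (b (b (c (l 15920280) (l 15906096)) (a (l 15934240) (l 15861512))) (a (l 15936808) (l 15874088)))) (b (a (c (b (l 15794464) (b (c (l 15808136) (l 15797480)) (c (l 15820768) (l 15806600)))) (b (l 15807296) (b (l 15776336) (l 15774520)))) (b (l 15740424) (c (c (l 15729392) (c (l 15723048) (l 15720904))) (c (l 15665288) (l 15688664))))) (c (b (c (a (l 15739808) (c (l 15690536) (l 15712568))) (a (l 15803944) (l 15686016))) (l 15754080)) (b (a (l 15797864) (l 15624112)) (l 15783288)))))) (b (b (b (a (b (c (l 15912760) (l 15906104)) (l 15912120)) (c (c (l 15729624)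 (a (l 15846952) (l 15795800))) (a (l 15835576) (b (l 15771784) (l 15787152))))) (c (l 15875720) (l 15875168))) (c (l 15872000) (a (l 15910048) (l 15870816)))) (c (a (l 15922248) (l 15955816)) (a (b (l 15914064) (l 15915680)) (b (l 15923888) (l 15954512)))))), by decide +kernel⟩

def k7_pm_012 : ∃ t, chk3 f_pm_012 t 54 15 1 = true :=
  ⟨(a (b (b (l 15737248) (b (b (l 15671168) (b (l 15633720) (b (a (c (l 15651040) (l 15630160)) (l 15602696)) (c (a (l 15646360) (l 15610840)) (a (l 15538608) (a (l 15592344) (c (l 15594920) (l 15573144)))))))) (c (c (b (a (c (l 15680656) (l 15679336)) (b (l 15616624) (a (l 15648096) (l 15636536)))) (a (l 15599040) (b (b (a (l 15654984) (l 15643368)) (l 15663288)) (l 15678336)))) (b (a (l 15627832) (a (l 15640784) (b (l 15496128) (c (c (l 15639120) (l 15633608)) (l 15616392))))) (l 15688376))) (a (c (l 15664384) (l 15655216)) (b (a (c (l 15615720) (l 15598000)) (c (b (b (l 15587368) (l 15595152)) (l 15605616)) (b (l 15569440) (l 15601160)))) (l 15652688)))))) (b (b (a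 (b (c (l 15747584) (l 15737320)) (l 15696256)) (a (b (c (l 15721232) (l 15709944)) (c (l 15756160) (l 15752632))) (b (c (l 15708608) (l 15697504)) (b (c (l 15738936) (l 15732832)) (l 15745248))))) (c (l 15835392) (l 15832408))) (c (l 15981616) (b (c (l 15924600) (l 15923304)) (c (l 16022536) (l 16020672)))))) (b (b (l 15804208) (b (l 15674032) (c (c (c (b (l 15623872) (b (c (l 15674336) (l 15674560)) (l 15650088))) (b (b (l 15661056) (l 15678040)) (a (l 15657680) (l 15598560)))) (b (b (l 15649136) (c (l 15672592) (l 15658792))) (b (c (l 15667792) (l 15662648)) (l 15700688)))) (b (b (c (a (l 15594024) (l 15647936)) (l 15614504)) (c (l 15642072) (l 15623800))) (l 15671792))))) (b (b (c (b (l 15709784) (c (l 15764232) (l 15686592))) (b (l 15720464) (b (l 15756320) (l 15783368)))) (c (l 15845136) (l 15842488))) (c (l 16006352) (b (l 15946144) (l 16034136)))))), by decide +kernel⟩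

def k8_pm_012 : ∃ t, chk3 f_pm_012 t 55 15 1 = true :=
  ⟨(b (b (c (l 15921800) (l 15900488)) (b (c (l 15802936) (l 15783128)) (b (c (c (a (c (l 15722192) (l 15724896)) (a (l 15782456) (l 15806440))) (a (c (l 15722888) (l 15573792)) (l 15799568))) (c (a (c (l 15710696) (l 15700928)) (l 15781528)) (a (b (l 15691880) (l 15678120)) (l 15767760)))) (c (a (c (c (a (b (l 15709632) (l 15720520)) (l 15743000)) (b (l 15730408) (l 15722104))) (c (b (l 15729608) (l 15728440)) (l 15724288))) (b (c (l 15686200) (a (b (l 15753336) (l 15771680)) (l 15793288))) (c (c (l 15767680) (l 15788752)) (c (l 15790128) (l 15786312))))) (a (c (l 15713760) (l 15703872)) (b (c (c (l 15765672) (l 15757392)) (a (l 15726720) (l 15765928))) (c (l 15776248) (l 15768520)))))))) (b (b (a (c (b (l 15770336) (c (l 15804792) (b (l 15806800) (l 15819128)))) (b (l 15760992) (b (l 15798784) (a (l 15809784) (l 15825640))))) (c (c (b (a (l 15696784) (a (l 15803640) (l 15821328))) (l 15860808)) (b (l 15823856) (l 15868512))) (b (l 15812528)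 (c (l 15870088) (l 15795536))))) (c (l 15905680) (a (l 15878896) (l 15931040)))) (c (b (l 16004824) (l 16119664)) (b (c (l 16002648) (l 16002488)) (c (l 16108896) (l 16087264)))))), by decide +kernel⟩

def k9_pm_012 : ∃ t, chk3 f_pm_012 t 14 6 1 = true :=
  ⟨(b (a (b (c (a (l 16467672) (l 16339560)) (a (l 16459632) (l 16328312))) (c (a (l 16394304) (l 16335304)) (a (l 16427440) (l 16324096)))) (c (b (c (l 16287416) (l 16281336)) (a (l 16287216) (l 16243704))) (b (l 16272224) (c (l 16256504) (l 16250264))))) (a (b (c (a (l 16422728) (l 16349424)) (b (l 16334128) (l 16422640))) (c (a (l 16599112) (l 16489864)) (b (l 16457568) (l 16479080)))) (b (c (a (b (l 16301328) (l 16357624)) (b (l 16247792) (l 16298744))) (b (l 16262832) (l 16276176))) (c (a (l 16459432) (b (l 16354160) (l 16411080))) (a (l 16452912) (l 16309440)))))), by decide +kernel⟩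

def k10_pm_012 : ∃ t, chk3 f_pm_012 t 15 6 1 = true :=
  ⟨(a (b (c (b (a (c (l 16229312) (l 16235728)) (c (l 16150888) (l 16183576))) (a (c (a (l 16208408) (l 16168240)) (l 16193632)) (c (l 16069544) (l 16087168)))) (b (a (l 16226264) (l 16187048)) (a (l 16183424) (l 16112536)))) (c (b (a (c (a (a (l 16234792) (l 16209784)) (l 16095280)) (l 16174704)) (c (b (l 16023888) (l 16043408)) (b (l 16067080) (l 16090376)))) (a (c (a (l 16280288) (l 16226768)) (l 16275144)) (c (l 15921752) (a (l 16184232) (l 16085680))))) (b (a (b (l 16169608) (l 16204808)) (b (l 16072456) (l 16097504))) (a (l 16246032) (b (l 16131704) (l 16173312)))))) (b (c (a (b (c (l 16042664) (l 16074632)) (c (a (l 15952560) (l 15899360)) (l 15967160))) (b (l 15982240) (c (l 15885768) (l 15839912)))) (a (b (l 16107584) (c (l 16004392) (l 16012112))) (b (c (l 16007808) (l 16018048)) (c (a (l 15902688) (l 15869064)) (a (l 15929728) (l 15875696)))))) (c (a (b (c (a (b (l 15893400) (l 15906344)) (b (l 15835256) (l 15845896))) (b (l 15910104)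 (l 15925712))) (c (a (b (l 15928472) (l 15963952)) (a (b (l 15873000) (l 15920160)) (l 15894344))) (a (l 15913408) (b (l 15910112) (l 15964328))))) (b (c (b (l 15829720) (l 15858728)) (b (a (l 15819392) (l 15824520)) (a (l 15841368) (l 15863888)))) (c (b (l 15907408) (l 15970336)) (a (a (l 15888376) (l 15919576)) (l 15951200))))) (b (a (c (b (l 15951560) (l 15970712)) (l 15970544)) (c (a (b (l 15840480) (l 15864800)) (b (l 15817360) (l 15857536))) (a (l 15864928) (b (l 15825032) (l 15866920))))) (a (c (a (b (l 16042072) (l 16086064)) (b (l 15970576) (l 16029432))) (b (l 16016200) (l 16070000))) (c (a (b (l 15913944) (l 15980072)) (b (l 15913504) (l 15979544))) (a (l 15984712) (c (l 15889824) (a (l 15968952) (l 15955816)))))))))), by decide +kernel⟩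

def k11_pm_012 : ∃ t, chk3 f_pm_012 t 7 28 1 = true :=
  ⟨(a (a (c (a (l 16453568) (l 16507840)) (a (l 16449368) (l 16486104))) (c (a (b (l 16551776) (l 16608392)) (b (l 16469256) (l 16511872))) (a (b (l 16548824) (l 16628832)) (l 16412232)))) (a (c (a (c (a (c (l 16361032) (l 16412056)) (b (l 16296864) (l 16353728))) (l 16337928)) (c (b (l 15986448) (a (l 16260560) (l 16176480))) (b (a (l 16254072) (l 16135208)) (a (l 16274256) (l 16191624))))) (a (b (l 16343536) (l 16404888)) (b (a (l 16253176) (l 16197264)) (a (l 16316944) (l 16277712))))) (c (a (c (a (b (l 16024104) (l 16064208)) (b (a (l 15990344) (l 15993200)) (a (l 16008464) (l 16074496)))) (b (a (l 16102944) (l 16038384)) (a (l 16190456) (c (l 16103192) (l 16140216))))) (a (c (b (l 16019984) (l 16102784)) (a (b (l 16013984) (l 16097928)) (l 15983304))) (b (c (l 16066592) (l 16059224)) (c (c (b (l 16131040) (l 116533209031)) (l 16143928)) (l 16139152))))) (a (c (b (a (l 16155320) (l 16108344)) (a (l 16246952) (l 16135328))) (b (l 16144128)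 (l 16236920))) (a (c (b (l 16014696) (a (l 16151856) (l 16109056))) (c (l 16058840) (l 16151264))) (c (b (l 16056160) (a (l 106869421367) (l 16143792))) (c (a (b (l 16061344) (l 16148416)) (l 270614908183)) (b (l 16054832) (a (l 16171976) (l 277594384951)))))))))), by decide +kernel⟩

def k12_pm_012 : ∃ t, chk3 f_pm_012 t 7 29 1 = true :=
  ⟨(a (a (a (c (l 16151416) (l 16160896)) (b (c (l 16451240) (l 16445792)) (c (l 16372240) (l 16342400)))) (c (a (l 16384504) (c (l 16486680) (l 16507528))) (a (l 16402072) (l 16486368)))) (a (c (a (c (a (b (l 16444344) (l 16458064)) (b (l 16302280) (l 16437488))) (b (l 16444000) (l 16490496))) (b (c (a (l 16328920) (l 16276128)) (a (l 16346784) (l 16275672))) (c (l 16290392) (a (l 16476464) (l 16383328))))) (a (b (a (l 16509832) (l 16452424)) (a (l 16569272) (l 16551096))) (b (a (l 16412688) (l 16386304)) (c (l 16491144) (l 16510328))))) (a (c (b (c (a (l 16098664) (a (c (l 16154464) (l 16174560)) (l 16170936))) (a (l 16293416) (b (l 16152840) (l 16210480)))) (a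 (c (a (l 16341848) (l 16201144)) (l 16317200)) (a (c (c (b (l 16241688) (l 16302256)) (l 16270672)) (l 16337456)) (b (c (l 16256688) (l 16272352)) (l 1))))) (b (c (a (l 16291264) (c (l 16288200) (l 16323024))) (l 16345432)) (a (c (c (l 16378840) (l 16495376)) (l 16493680)) (c (c (l 16344944) (l 157335794679)) (l 16455944))))) (b (a (c (c (c (b (l 16172888) (a (l 16215824) (l 16236696))) (l 16193176)) (a (c (l 16187744) (l 16156472)) (l 16200400))) (c (a (l 16210984) (c (l 16185784) (l 16233248))) (c (l 163777948423) (l 16297520)))) (a (c (c (c (l 168072879447) (l 16219496)) (l 16212360)) (a (c (l 204580092807) (l 257730312423)) (l 1))) (l 1))) (a (a (c (c (c (l 185789747527) (l 16292200)) (l 184715999431)) (c (l 16317208) (l 16417712))) (l 1)) (l 1)))))), by decide +kernel⟩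

def k13_pm_012 : ∃ t, chk3 f_pm_012 t 14 30 1 = true :=
  ⟨(a (a (b (c (l 16075296) (l 16058800)) (b (c (l 15978592) (l 15964232)) (b (c (l 15933712) (l 15920752)) (c (c (a (a (b (l 15844000) (l 15857280)) (l 15886456)) (l 15965720)) (a (c (c (l 15810216) (l 15874240)) (l 15827192)) (l 15967952))) (c (a (c (l 15861272) (l 15853640)) (l 15963776)) (a (b (l 15845120) (l 15838976)) (l 15949720))))))) (c (b (l 16254600) (l 16026096)) (l 15964440))) (a (c (b (l 16398792) (c (l 16306664) (l 16311416))) (l 16223632)) (c (b (b (a (l 16521776) (l 16586184)) (l 16444624)) (c (l 16297128) (l 16408384))) (b (l 16461640) (l 16406192))))), by decide +kernel⟩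

def k14_pm_012 : ∃ t, chk3 f_pm_012 t 28 62 1 = true :=
  ⟨(a (b (c (a (c (b (c (a (l 15848264) (l 15891440)) (l 15873912)) (l 15925840)) (b (b (l 15832968) (l 15902320)) (l 15934456))) (a (b (c (l 15898080) (l 15944816)) (l 15976888)) (b (b (c (l 15964384) (l 15978616)) (c (l 15978824) (l 15986968))) (l 16012816)))) (b (a (c (l 15879504) (l 15876992)) (b (c (l 15947504) (l 15938240)) (l 15963848))) (a (b (l 15915416) (l 15941216)) (l 15997736)))) (b (c (a (c (l 15955952) (l 15961768)) (c (l 15914664) (l 15942336))) (b (a (a (l 15943520) (l 15972352)) (c (l 16030040) (l 16021432))) (l 16010296))) (c (l 16034448) (l 16040704)))) (c (b (a (c (a (b (b (l 16019192) (l 16028304)) (l 16030784)) (b (c (l 16062664) (l 16073024)) (l 16072552))) (b (b (l 16055544) (l 15900992)) (l 16063984))) (a (c (b (l 16054448) (a (l 16106088) (l 16125264))) (b (b (l 16128568) (l 16103592)) (l 16125840))) (c (b (l 16156528) (b (b (l 16139120) (l 16149104)) (l 16146104))) (b (l 16167464) (l 16148776))))) (a (b (c (l 16007952)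 (l 16099552)) (l 16124640)) (a (b (c (l 16147240) (l 16155584)) (l 16172800)) (c (b (l 16177272) (l 16199432)) (b (l 16185344) (l 16201656)))))) (b (b (a (c (b (l 16053688) (l 16046504)) (b (l 16041888) (l 16039832))) (b (l 16142528) (c (l 16079304) (l 16090392)))) (a (l 16074704) (b (a (l 16123400) (l 16150120)) (l 16155424)))) (a (b (c (b (l 16103576) (l 16110752)) (l 16017848)) (l 16133512)) (b (a (c (l 16163464) (l 16159280)) (l 16169944)) (a (l 16182872) (c (l 16212200) (l 16211592)))))))), by decide +kernel⟩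

def k15_pm_012 : ∃ t, chk3 f_pm_012 t 28 63 1 = true :=
  ⟨(a (c (b (l 16099112) (l 16193600)) (b (c (l 16098984) (l 16100184)) (c (l 16184336) (l 16079824)))) (c (a (l 16211616) (c (b (l 16232520) (l 16293128)) (b (l 16228160) (l 16285832)))) (a (b (c (l 16175952) (l 16178216)) (c (l 16240600) (l 16241664))) (b (c (l 16232912) (l 16235944)) (c (l 16280800) (l 16177520)))))), by decide +kernel⟩

def k16_pm_012 : ∃ t, chk3 f_pm_012 t 29 31 2 = true :=
  ⟨(a (b (b (b (l 16204328) (c (b (a (l 16190992) (l 16260616)) (a (l 16200624) (c (l 16242544) (l 16248920)))) (a (b (l 16207360) (l 16207656)) (a (b (l 16260312) (l 16246616)) (l 16275992))))) (a (b (c (b (l 16199256) (l 16223320)) (a (l 16210424) (l 16231456))) (b (c (l 16235520) (l 16238280)) (l 16251496))) (b (c (b (c (l 16250096) (l 16248936)) (l 16248272)) (b (l 16256440) (l 16264232))) (c (b (l 16272872) (l 16278376)) (b (l 16274768) (l 16276840)))))) (c (a (l 16310368) (l 16345696)) (a (l 16217264) (b (l 16306904) (l 16358104))))) (b (b (a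 (c (l 16313288) (l 16324240)) (l 16352104)) (a (c (b (b (a (c (l 16257280) (l 16262736)) (l 16279920)) (a (l 16265784) (l 16283688))) (b (c (l 16278264) (l 16288504)) (l 16304600))) (b (a (b (l 16271296) (l 16270792)) (b (l 16288424) (l 16285608))) (b (l 16290760) (a (l 16295824) (l 16308096))))) (a (c (b (b (l 16300904) (b (l 16288296) (l 16298280))) (b (l 16293640) (l 16316960))) (b (b (l 16309656) (l 16251744)) (b (l 16296432) (l 16314728)))) (c (b (l 16292808) (b (a (l 16304696) (b (l 16297264) (l 16309024))) (l 16273792))) (b (l 16321408) (b (c (l 16276592) (l 16302784)) (l 16323256))))))) (b (c (b (b (a (l 16317128) (a (l 16332088) (l 16344584))) (l 16348176)) (a (l 16361448) (l 16389360))) (b (b (a (l 16289408) (a (l 16324872) (l 16316456))) (l 16335904)) (a (l 16344768) (l 16370712)))) (a (c (l 16412672) (l 16390120)) (c (a (l 16440384) (l 16458584)) (a (l 16413976) (c (l 16432816) (l 16422768)))))))), by decide +kernel⟩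

def k17_pm_012 : ∃ t, chk3 f_pm_012 t 29 31 3 = true :=
  ⟨(b (b (a (b (l 16251128) (a (b (c (l 16208864) (l 16200232)) (l 16168640)) (c (b (l 16275320) (l 16264760)) (a (l 16251752) (l 16276112))))) (a (a (b (l 16326920) (b (l 16302752) (l 16292320))) (l 16332184)) (l 16362864))) (b (b (a (a (l 16226224) (c (l 16264760) (l 16260104))) (a (c (l 16291184) (l 16284464)) (a (l 16296808) (l 16333936)))) (a (a (l 16237152) (l 16273360)) (a (c (l 16289480) (l 16287992)) (a (c (l 16303824) (l 16300784)) (c (l 16324280) (l 16320056)))))) (a (a (b (c (l 16250152) (l 16248432)) (l 16262328)) (c (b (l 16286792) (l 16287712)) (l 16286920))) (a (b (l 16302392) (c (l 16313056) (l 16314512))) (b (a (l 16312456) (c (c (l 16312976) (l 16318824)) (l 16317232))) (c (l 16329776) (l 16331432))))))) (b (a (c (l 16275288) (l 16300120)) (b (b (a (c (l 16319448) (l 16323016)) (c (a (l 16333928) (l 16346376)) (a (l 16337608) (l 16350192)))) (c (l 16340800) (l 16347296))) (c (l 16357744) (l 16364016)))) (a (c (l 16335504)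 (l 16274840)) (a (c (l 16382448) (l 16385248)) (c (l 16411288) (b (l 16403320) (l 16428520))))))), by decide +kernel⟩

def k18_pm_012 : ∃ t, chk3 f_pm_012 t 30 30 1 = true :=
  ⟨(c (a (c (a (c (b (l 16532592) (l 16406488)) (l 16398584)) (b (l 16519808) (c (l 16477384) (l 16468496)))) (b (l 16572616) (l 16462824))) (b (a (c (l 16458392) (l 16561600)) (c (b (l 16500072) (l 16479176)) (c (l 16484400) (l 16502608)))) (c (a (c (l 16476784) (l 16477120)) (b (l 179347809511) (c (l 16567144) (l 16594488)))) (a (b (l 16549744) (c (l 16502408) (l 16534368))) (c (l 16549120) (l 16513536)))))) (a (b (l 16529472) (l 16483136)) (a (b (l 16616120) (l 16534456)) (b (l 16557552) (l 16561992))))), by decide +kernel⟩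

def k19_pm_012 : ∃ t, chk3 f_pm_012 t 30 62 1 = true :=
  ⟨(b (c (a (c (a (l 16369616) (l 16389984)) (l 16369760)) (a (c (c (l 16474912) (l 16521120)) (l 272226306535)) (l 1))) (a (a (l 16402184) (l 16438560)) (l 340945871591))) (a (b (a (c (c (l 16343400) (l 16345312)) (l 16354152)) (c (c (l 16346408) (l 16385600)) (l 16395224))) (a (b (c (c (a (a (c (b (l 16285520) (c (l 16317328) (l 16315304))) (l 16308832)) (c (b (l 16317616) (l 16319400)) (l 16314368))) (b (l 16336576) (c (a (l 16329368) (a (l 16340472) (l 16350200))) (l 16326224)))) (a (c (l 16314792) (l 16318800)) (l 16333448))) (a (c (c (l 16327432) (l 16331432)) (b (l 16328808) (l 16327336))) (c (l 16347992) (l 16345432)))) (c (c (a (c (c (a (b (a (l 16303040) (l 16326992)) (l 16338800)) (b (l 16335584) (l 16346288))) (l 16321456)) (l 16320528)) (b (c (a (c (l 16347944) (l 16329512)) (a (l 16344888) (l 16350320))) (l 16321952)) (c (c (l 16359936) (a (b (l 16334848) (l 16341688)) (a (l 16342664) (l 16348992)))) (l 16329744)))) (a (l 16322528)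 (c (l 16301432) (l 16325264)))) (a (c (l 16336776) (l 16342136)) (c (c (l 16333880) (l 16342160)) (l 16341184))))) (b (c (c (l 16285280) (l 16361632)) (l 16375520)) (a (c (c (c (a (b (l 16367672) (l 16377032)) (l 16388752)) (a (c (c (b (l 16336200) (l 16322568)) (l 16332488)) (l 16332832)) (c (c (l 16353784) (l 16301568)) (l 16344040)))) (b (l 16340944) (a (l 16339376) (l 16320704)))) (c (c (l 16349216) (l 16355984)) (b (l 16354160) (l 16351680)))) (l 1))))) (l 1))), by decide +kernel⟩

def k20_pm_012 : ∃ t, chk3 f_pm_012 t 30 63 1 = true :=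
  ⟨(a (a (c (b (a (b (b (c (c (a (a (l 16312560) (l 16356376)) (c (l 16365216) (l 16354104))) (l 16350160)) (l 16346448)) (a (l 16344168) (c (c (c (b (l 16379552) (l 16392592)) (l 16373360)) (l 16367136)) (l 16357872)))) (c (l 16365488) (l 16385192))) (c (b (c (b (c (l 16381728) (l 16360904)) (c (l 16402296) (a (b (l 16373168) (l 16385168)) (c (l 16390672) (l 16380304))))) (b (l 16350984) (l 16370600))) (c (l 16430072) (l 16407928))) (b (b (l 16348088) (l 16361888)) (l 16392824)))) (c (c (a (a (l 202433094711) (l 423087037719)) (c (l 16465784) (l 468721080375))) (l 16392960)) (a (c (l 16448240) (l 16435832)) (l 404296498167)))) (b (b (c (b (a (l 16355368) (l 16356936)) (a (l 16361856) (l 16366640))) (b (a (l 16359264) (l 16360832)) (a (l 16368624) (l 16373424)))) (c (l 16387904) (l 16394504))) (c (l 237866532087) (b (c (l 16423688) (l 16426400)) (c (l 16459504) (l 16461376)))))) (a (b (b (b (c (c (c (b (l 16303064) (l 16403192)) (c (b (a (b (l 16325272) (l 16353256)) (b (l 16358576) (l 444561704119)))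 (l 16369880)) (l 16348440))) (b (l 16344880) (l 16359240))) (c (l 16360480) (l 16367968))) (a (c (c (c (l 16413752) (a (l 16376968) (l 443488012935))) (l 16370936)) (c (l 16375216) (l 16382088))) (l 1))) (l 1)) (l 1)) (l 1))) (l 1)), by decide +kernel⟩

def k21_pm_012 : ∃ t, chk3 f_pm_012 t 31 15 1 = true :=
  ⟨(b (b (a (a (c (c (b (a (l 16441456) (l 16295368)) (a (l 16456376) (l 1))) (l 16398048)) (c (c (l 221760624135) (l 16560376)) (l 16559840))) (l 1)) (l 1)) (l 1)) (l 1)), by decide +kernel⟩

theorem s22_pm_012 : ∃ t, chk3 f_pm_012 t 30 31 1 = true := ex3_b k19_pm_012 k20_pm_012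

theorem s23_pm_012 : ∃ t, chk3 f_pm_012 t 30 15 1 = true := ex3_b k18_pm_012 s22_pm_012

theorem s24_pm_012 : ∃ t, chk3 f_pm_012 t 15 15 1 = true := ex3_a s23_pm_012 k21_pm_012

theorem s25_pm_012 : ∃ t, chk3 f_pm_012 t 29 31 1 = true := ex3_c k16_pm_012 k17_pm_012

theorem s26_pm_012 : ∃ t, chk3 f_pm_012 t 28 31 1 = true := ex3_b k14_pm_012 k15_pm_012

theorem s27_pm_012 : ∃ t, chk3 f_pm_012 t 14 31 1 = true := ex3_a s26_pm_012 s25_pm_012

theorem s28_pm_012 : ∃ t, chk3 f_pm_012 t 14 15 1 = true := ex3_b k13_pm_012 s27_pm_012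

theorem s29_pm_012 : ∃ t, chk3 f_pm_012 t 7 15 1 = true := ex3_a s28_pm_012 s24_pm_012

theorem s30_pm_012 : ∃ t, chk3 f_pm_012 t 7 14 1 = true := ex3_b k11_pm_012 k12_pm_012

theorem s31_pm_012 : ∃ t, chk3 f_pm_012 t 7 7 1 = true := ex3_b s30_pm_012 s29_pm_012

theorem s32_pm_012 : ∃ t, chk3 f_pm_012 t 7 6 1 = true := ex3_a k9_pm_012 k10_pm_012

theorem s33_pm_012 : ∃ t, chk3 f_pm_012 t 7 3 1 = true := ex3_b s32_pm_012 s31_pm_012

theorem s34_pm_012 : ∃ t, chk3 f_pm_012 t 27 15 1 = true := ex3_a k7_pm_012 k8_pm_012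

theorem s35_pm_012 : ∃ t, chk3 f_pm_012 t 13 15 1 = true := ex3_a k6_pm_012 s34_pm_012

theorem s36_pm_012 : ∃ t, chk3 f_pm_012 t 6 15 1 = true := ex3_a k5_pm_012 s35_pm_012

theorem s37_pm_012 : ∃ t, chk3 f_pm_012 t 6 7 1 = true := ex3_b k4_pm_012 s36_pm_012

theorem s38_pm_012 : ∃ t, chk3 f_pm_012 t 6 3 1 = true := ex3_b k3_pm_012 s37_pm_012

theorem s39_pm_012 : ∃ t, chk3 f_pm_012 t 3 3 1 = true := ex3_a s38_pm_012 s33_pm_012

theorem s40_pm_012 : ∃ t, chk3 f_pm_012 t 3 2 1 = true := ex3_a k1_pm_012 k2_pm_012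

theorem s41_pm_012 : ∃ t, chk3 f_pm_012 t 3 1 1 = true := ex3_b s40_pm_012 s39_pm_012

theorem s42_pm_012 : ∃ t, chk3 f_pm_012 t 1 1 1 = true := ex3_a k0_pm_012 s41_pm_012

theorem c_pm_012 : CertFX 67108864 469762048 0 536870912 1046898278 26843546 false true false .pnp 0 1 2
    ndF1q0 ndF0q2 pcF1 Cut.none Ext.none :=
  certFX2 (fam := false) (s1 := true) (s2 := false) (a := 0) (b := 1) (c := 2) (cn := .pnp) (n1 := ndF1q0) (n2 := ndF0q2) (pc := pcF1) (cut := Cut.none) (xt := Ext.none) (P1 := 67108864) (W1 := 469762048) (P2 := 0) (W2 := 536870912) (P3 := 1046898278) (W3 := 26843546)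
    rfl (fun _ => rfl) s42_pm_012

noncomputable def f_pm_022 : ℕ → ℕ → ℕ → ℕ → Bool := onCell 67108864 469762048 0 536870912 1046898278 26843546
    (rowFX 0 false true false .pp 0 2 2 (qsf 67108864 469762048 0 536870912 2) ndF1q0 ndF0q2 pcF2 Cut.none Ext.none)

def k0_pm_022 : ∃ t, chk3 f_pm_022 t 4 2 1 = true :=
  ⟨(a (b (b (a (c (a (b (c (l 16411848) (l 16408416)) (b (l 16394280) (b (l 16384688) (l 16344864)))) (b (l 16453056) (c (l 16450016) (l 16490752)))) (a (b (l 16405040) (b (l 16387512) (l 16359000))) (b (l 16513840) (l 16447272)))) (c (b (a (l 16518368) (l 16436320)) (a (c (l 16513120) (l 16512072)) (l 16417536))) (b (l 16390144) (a (l 16468424) (l 16412216))))) (a (c (a (b (c (l 16303176) (l 16403608)) (c (l 16372840) (l 16450920))) (b (l 16436952) (l 16448936))) (b (a (l 16337608) (l 16539624)) (a (l 16386600) (l 16493624)))) (c (b (a (c (l 16452744) (l 16453160)) (l 16354144)) (a (l 16301776) (l 16234544))) (b (a (l 16451648) (l 16349240)) (l 16139888))))) (b (b (a (c (a (l 16393136)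 (l 16387280)) (l 16325632)) (c (l 15983552) (l 16086976))) (c (a (a (l 16443080) (l 16276744)) (l 15923504)) (a (l 16267544) (l 15862072)))) (c (c (a (a (b (l 16328888) (l 16207000)) (l 15942880)) (b (l 15919008) (l 15785928))) (a (b (l 16111128) (a (l 16225584) (l 16032432))) (b (l 15917200) (l 15779552)))) (c (a (b (l 16220432) (l 15996768)) (b (l 15919800) (l 15716080))) (a (l 16053248) (b (l 15919520) (l 15780400))))))) (a (b (b (c (b (l 16335752) (l 16295808)) (b (l 16327768) (l 16286744))) (b (c (b (l 16211928) (l 16191360)) (b (l 16223232) (l 16181744))) (c (l 16094768) (l 16063872)))) (b (c (l 15833768) (b (l 15951968) (l 15813912))) (c (b (l 15689616) (l 15545192)) (c (l 15598880) (l 15401800))))) (a (b (b (c (b (l 16227784) (l 16164688)) (b (l 16216480) (l 16151728))) (b (c (b (l 16110736) (l 16049440)) (b (l 16096400) (l 16033696))) (c (l 15946552) (l 15928336)))) (b (c (l 15736000) (l 15712032)) (l 1))) (b (l 1) (l 1))))), by decide +kernel⟩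

def k1_pm_022 : ∃ t, chk3 f_pm_022 t 4 3 1 = true :=
  ⟨(b (a (a (b (c (b (c (a (l 15992632) (l 15890160)) (a (l 15925432) (l 15892184))) (a (c (b (l 15972192) (l 15903264)) (b (l 15985248) (l 15908224))) (c (l 15753160) (l 15746264)))) (b (c (a (l 16105056) (l 15904368)) (l 15966632)) (c (a (b (l 15999576) (l 15881480)) (b (l 15787176) (l 15707600))) (a (l 15965544) (l 15753856))))) (c (b (a (c (b (l 15724720) (l 15843184)) (b (l 15828416) (l 15837096))) (c (b (l 15664568) (l 15653992)) (b (l 15651800) (l 15640960)))) (a (c (a (l 15887320) (l 15790976)) (b (l 15831816) (l 15830536))) (c (l 15643912) (l 15630784)))) (b (c (a (b (c (l 15855312) (l 15863736)) (c (l 15836448) (l 15843016))) (b (l 15644864) (l 15628896))) (a (b (l 15862280) (c (l 15851800) (l 15849728))) (b (l 15626376) (l 15480048)))) (c (a (b (a (l 15878672) (l 15771496)) (l 15821408)) (l 15617600)) (a (b (c (l 15728128) (l 15838248)) (c (l 15799048) (a (l 15875584) (l 15760560)))) (b (l 15612528) (l 15602288))))))) (b (c (b (c (l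 15647576) (l 15635944)) (c (a (l 15572528) (l 15432328)) (l 15445784))) (b (c (a (l 15701544) (l 15553080)) (a (l 15703424) (l 15546584))) (c (l 15412112) (a (l 15417856) (l 15385912))))) (a (b (c (c (b (l 15477872) (l 15462752)) (l 15454632)) (b (c (l 15446880) (l 15435008)) (l 401610064759))) (l 1)) (l 1)))) (a (b (b (c (l 15393888) (l 15361320)) (l 1)) (l 1)) (l 1))) (b (b (a (a (a (c (b (c (l 15840488) (l 15831096)) (c (a (l 15892672) (l 1)) (l 15833152))) (c (b (l 15820512) (l 15822576)) (b (c (l 15813288) (a (l 15863992) (l 15753352))) (l 15812320)))) (l 1)) (l 1)) (l 1)) (l 1)) (l 1))), by decide +kernel⟩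

def k2_pm_022 : ∃ t, chk3 f_pm_022 t 5 1 1 = true :=
  ⟨(b (l 1) (l 1)), by decide +kernel⟩

def k3_pm_022 : ∃ t, chk3 f_pm_022 t 3 1 1 = true :=
  ⟨(l 1), by decide +kernel⟩

theorem s4_pm_022 : ∃ t, chk3 f_pm_022 t 4 1 1 = true := ex3_b k0_pm_022 k1_pm_022

theorem s5_pm_022 : ∃ t, chk3 f_pm_022 t 2 1 1 = true := ex3_a s4_pm_022 k2_pm_022

theorem s6_pm_022 : ∃ t, chk3 f_pm_022 t 1 1 1 = true := ex3_a s5_pm_022 k3_pm_022

theorem c_pm_022 : CertFX 67108864 469762048 0 536870912 1046898278 26843546 false true false .pp 0 2 2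
    ndF1q0 ndF0q2 pcF2 Cut.none Ext.none :=
  certFX0 (fam := false) (s1 := true) (s2 := false) (a := 0) (b := 2) (c := 2) (cn := .pp) (n1 := ndF1q0) (n2 := ndF0q2) (pc := pcF2) (cut := Cut.none) (xt := Ext.none) (P1 := 67108864) (W1 := 469762048) (P2 := 0) (W2 := 536870912) (P3 := 1046898278) (W3 := 26843546)
    rfl s6_pm_022

noncomputable def f_pm_101 : ℕ → ℕ → ℕ → ℕ → Bool := onCell 0 536870912 536870912 536870912 1046898278 26843546
    (rowFX 2 false true false .npn 1 0 1 (qsf 536870912 536870912 536870912 536870912 0) ndF1q1 ndF0q1 pcF0 Cut.none Ext.none)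

def k0_pm_101 : ∃ t, chk3 f_pm_101 t 2 2 1 = true :=
  ⟨(b (l 4) (b (a (l 4) (l 4)) (a (a (a (a (c (a (c (l 16697208) (c (l 16697088) (l 16696872))) (a (c (b (l 16754824) (l 16663056)) (l 16706080)) (c (l 16712240) (l 16709672)))) (a (a (c (l 16693576) (c (l 63585265335) (c (l 61437787719) (l 16650688)))) (a (c (l 16698696) (l 16655408)) (c (l 16701312) (l 16700120)))) (c (b (l 16754864) (l 16660800)) (l 16706816)))) (c (a (a (c (l 16715160) (l 16714096)) (c (a (l 16717888) (l 16677960)) (l 16719368))) (b (l 16829584) (l 16687712))) (c (l 16658160) (l 16720952)))) (a (c (c (l 16737464) (l 15803823831)) (l 75396515559)) (c (c (a (l 16750048) (l 16755968)) (l 16751816)) (l 85597165975)))) (b (l 4) (a (c (a (l 16750192) (l 16762312)) (l 16754608)) (c (l 16771192) (l 16771032))))) (a (a (c (l 172033604407) (l 144116220279)) (l 4)) (l 4))))), by decide +kernel⟩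

def k1_pm_101 : ∃ t, chk3 f_pm_101 t 4 6 1 = true :=
  ⟨(a (a (a (b (c (a (c (l 16480640) (l 16479832)) (c (a (b (l 16557976) (l 16447736)) (l 16508176)) (a (l 16495032) (l 16497568)))) (a (c (a (l 16471872) (c (l 16484152) (l 16480616))) (a (c (l 16470104) (l 16405992)) (l 16478176))) (c (l 16493376) (l 16494544)))) (c (a (b (l 16306088) (l 16151912)) (c (b (l 16336768) (l 16200128)) (b (l 16326344) (l 16186456)))) (a (a (c (l 16215072) (b (l 16294576) (c (l 16132944) (l 16130536)))) (c (b (l 16309416) (l 16160136)) (l 16038336))) (c (b (l 16320824) (l 16179120)) (l 16252136))))) (c (b (c (a (b (l 16568488) (l 16455280)) (l 16527248)) (a (l 16510176) (l 16534280))) (b (c (a (l 16339296) (l 16357432)) (l 16354400)) (c (l 16174048) (l 16221568)))) (b (l 16504728) (b (l 16361144) (l 16230528))))) (b (c (c (a (l 16563912) (l 16608520)) (a (l 16568688) (l 16608544))) (c (l 16587408) (l 16584992))) (c (b (a (l 16411840) (l 16472000)) (a (l 16290472) (l 16363168))) (b (l 16441056) (l 16324536))))) (a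 (b (c (a (l 16643904) (l 16674504)) (l 16656112)) (c (b (l 16549376) (l 16457912)) (b (l 16543352) (l 16448216)))) (b (c (l 16709832) (l 16708080)) (b (l 16628648) (l 16557416))))), by decide +kernel⟩

def k2_pm_101 : ∃ t, chk3 f_pm_101 t 8 14 1 = true :=
  ⟨(a (a (c (a (b (b (l 15890792) (l 15647600)) (c (l 15491016) (l 15371976))) (a (b (b (l 15953968) (c (l 15793184) (l 15728656))) (c (l 15567480) (l 15443744))) (c (b (l 15897032) (l 15589912)) (b (l 15841408) (l 15463944))))) (a (c (b (a (l 15693424) (a (l 15733152) (l 15648024))) (a (l 15214320) (c (l 15310696) (l 15244072)))) (b (b (l 15819384) (a (a (l 15501936) (l 15491008)) (l 15568568))) (a (c (l 15116976) (a (l 15031784) (l 15069712))) (l 15153168)))) (c (b (b (l 15922784) (l 15687888)) (l 15348096)) (b (l 15770544) (l 15255424))))) (c (b (b (l 16025680) (a (c (l 15790936) (l 15795016)) (l 15874288))) (a (c (l 15559568) (l 15516336)) (l 15623704))) (b (b (l 16010424) (l 15796560)) (l 15458512)))) (c (b (a (c (l 16031304) (l 15965504))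 (a (l 16099896) (l 16139664))) (a (l 15561704) (c (l 15798712) (l 15816968)))) (b (a (l 15999632) (l 16078784)) (a (l 15622048) (l 15738464))))), by decide +kernel⟩

def k3_pm_101 : ∃ t, chk3 f_pm_101 t 8 15 1 = true :=
  ⟨(a (a (c (c (b (a (l 15509928) (a (c (l 15576816) (l 15446456)) (l 15499624))) (a (l 16475432) (a (b (l 16030256) (l 16391616)) (l 16204112)))) (a (b (l 15439712) (b (l 15747464) (l 16420880))) (b (a (l 15241112) (l 15243120)) (b (a (l 15538504) (l 15450456)) (a (l 16411936) (l 16084368)))))) (a (b (c (a (l 14865560) (c (l 15003904) (l 14852584))) (a (c (l 14620472) (a (l 14422536) (l 14481000))) (l 14635960))) (c (b (a (l 15091768) (l 15056408)) (a (l 16424760) (c (l 16301752) (l 15745528)))) (a (c (b (l 14522728) (l 15597280)) (b (l 14143472) (a (l 14642888) (l 14714704)))) (b (l 14454848) (c (l 15190648) (l 14645352)))))) (b (c (a (l 14972320) (l 15024944)) (l 14777528)) (c (b (l 15049992) (b (l 15364688) (l 15667680))) (b (l 14624800) (l 14777072)))))) (c (b (a (c (a (l 15475080)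 (l 15463984)) (l 15276624)) (c (l 15480576) (l 15344656))) (b (c (a (l 15703928) (l 15591888)) (l 15377888)) (a (c (l 16229120) (l 15791040)) (l 15761176)))) (b (l 14822952) (b (l 14991720) (b (l 15107096) (l 15286088)))))) (b (c (a (c (l 15544568) (l 15436328)) (c (l 15625240) (l 15530544))) (a (l 15258384) (l 15387944))) (c (b (a (l 15463456) (c (l 15535288) (l 15430576))) (a (l 15596112) (l 15568392))) (b (l 15202224) (a (l 15232120) (l 15283336)))))), by decide +kernel⟩

def k4_pm_101 : ∃ t, chk3 f_pm_101 t 9 7 1 = true :=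
  ⟨(b (a (a (b (c (l 16193848) (l 16153448)) (c (l 15919808) (l 15831856))) (b (l 16245632) (l 15953760))) (b (l 16187448) (l 16053552))) (a (b (c (a (l 15652528) (l 15707144)) (a (l 15487552) (l 15569600))) (c (b (l 15523648) (l 15502656)) (b (l 15369248) (l 15346760)))) (b (b (l 15808576) (l 15633224)) (b (c (l 15565776) (l 15462368)) (c (l 15496504) (l 15392176)))))), by decide +kernel⟩

def k5_pm_101 : ∃ t, chk3 f_pm_101 t 5 3 1 = true :=
  ⟨(b (a (b (c (a (l 16741312) (l 16761944)) (a (l 16740376) (l 16761544))) (c (b (l 16708192) (l 16663336)) (b (l 16706400) (l 16659160)))) (b (c (a (l 16773752) (l 16777216)) (a (l 16773664) (l 77007428647))) (c (b (l 16770920) (l 16754528)) (a (l 16751824) (l 16770640))))) (b (a (b (c (l 16468352) (l 16450448)) (a (l 16150424) (l 16238944))) (a (b (l 16560984) (l 16319504)) (b (l 16591848) (l 16359928)))) (a (b (b (l 15968328) (l 15797200)) (b (c (l 15684008) (l 15632688)) (c (l 15560096) (a (l 15432512) (l 15571624))))) (b (a (l 16028576) (l 16079688)) (a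 (b (l 15840384) (l 15668488)) (c (l 15858456) (l 15854664))))))), by decide +kernel⟩

def k6_pm_101 : ∃ t, chk3 f_pm_101 t 3 1 1 = true :=
  ⟨(b (l 4) (b (a (a (b (b (l 4) (c (l 16777216) (l 16777216))) (c (b (l 16777216) (l 16764680)) (b (l 16777216) (l 16764360)))) (b (l 4) (c (b (l 16777216) (l 16764680)) (b (l 16777216) (l 16764360))))) (a (a (b (l 1) (b (l 1) (l 335577800871))) (l 1)) (l 1))) (b (a (a (b (l 16591888) (l 16359984)) (c (l 16331856) (l 16345080))) (a (b (l 131566308183) (l 16359984)) (b (l 1) (l 16318040)))) (a (b (a (l 16079760) (c (l 16113496) (l 16081376))) (a (b (l 15901224) (l 15802216)) (c (l 15858544) (l 15854768)))) (b (c (a (l 16113496) (l 16113496)) (a (l 16081376) (l 16081376))) (c (b (l 15908056) (l 15802904)) (b (l 15899120) (l 15795696)))))))), by decide +kernel⟩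

theorem s7_pm_101 : ∃ t, chk3 f_pm_101 t 8 7 1 = true := ex3_b k2_pm_101 k3_pm_101

theorem s8_pm_101 : ∃ t, chk3 f_pm_101 t 4 7 1 = true := ex3_a s7_pm_101 k4_pm_101

theorem s9_pm_101 : ∃ t, chk3 f_pm_101 t 4 3 1 = true := ex3_b k1_pm_101 s8_pm_101

theorem s10_pm_101 : ∃ t, chk3 f_pm_101 t 2 3 1 = true := ex3_a s9_pm_101 k5_pm_101

theorem s11_pm_101 : ∃ t, chk3 f_pm_101 t 2 1 1 = true := ex3_b k0_pm_101 s10_pm_101

theorem s12_pm_101 : ∃ t, chk3 f_pm_101 t 1 1 1 = true := ex3_a s11_pm_101 k6_pm_101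

theorem c_pm_101 : CertFX 536870912 536870912 536870912 536870912 1046898278 26843546 false true false .npn 1 0 1
    ndF1q1 ndF0q1 pcF0 Cut.none Ext.none :=
  certFX2 (fam := false) (s1 := true) (s2 := false) (a := 1) (b := 0) (c := 1) (cn := .npn) (n1 := ndF1q1) (n2 := ndF0q1) (pc := pcF0) (cut := Cut.none) (xt := Ext.none) (P1 := 536870912) (W1 := 536870912) (P2 := 536870912) (W2 := 536870912) (P3 := 1046898278) (W3 := 26843546)
    rfl (fun _ => rfl) s12_pm_101

noncomputable def f_pm_102 : ℕ → ℕ → ℕ → ℕ → Bool := onCell 0 536870912 0 536870912 1046898278 26843546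
    (rowFX 2 false true false .npp 1 0 2 (qsf 536870912 536870912 0 536870912 0) ndF1q1 ndF0q2 pcF0 Cut.none Ext.none)

def k0_pm_102 : ∃ t, chk3 f_pm_102 t 4 2 1 = true :=
  ⟨(a (l 2) (l 3)), by decide +kernel⟩

def k1_pm_102 : ∃ t, chk3 f_pm_102 t 8 3 1 = true :=
  ⟨(b (l 2) (a (b (l 2) (b (a (l 2) (b (a (l 2) (a (l 2) (c (l 16661624) (l 16525608)))) (c (c (a (l 16663472) (l 16668144)) (l 16489464)) (c (l 16595616) (l 16577840))))) (a (a (b (l 2) (c (l 16444728) (c (a (l 16436680) (c (l 16422352) (l 16433696))) (a (c (l 16393344) (a (l 16392888) (l 16435264))) (l 16353816))))) (c (c (a (l 16261992) (l 16465912)) (c (l 16315688) (a (l 16484560) (l 16433984)))) (c (b (l 16458688) (l 16359560)) (b (l 16516728) (l 16425120))))) (c (c (a (b (l 16536008) (l 16472160)) (l 16469368)) (b (a (l 16535232) (l 16520504)) (l 16288456))) (b (c (l 16506560) (l 16490256)) (c (l 16103520) (l 15945160))))))) (a (b (b (l 2) (b (l 2) (c (c (l 16652976) (l 16494120)) (l 16604504)))) (b (c (b (c (l 16546440) (a (l 16529480)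 (l 16594408))) (c (l 16596840) (l 16556984))) (b (a (l 16609928) (l 16607584)) (l 16538456))) (c (b (l 16378384) (l 15979568)) (b (l 16350400) (l 15688592))))) (b (b (a (l 2) (b (l 2) (c (c (c (l 16605600) (l 16619000)) (l 16611800)) (l 670652074871)))) (c (c (a (b (b (l 16512672) (l 16684448)) (l 16709400)) (b (a (l 16583464) (l 16549224)) (l 16663432))) (l 16512744)) (b (l 16634688) (l 16670120)))) (c (b (b (c (a (l 16530752) (c (l 16493400) (l 16564896))) (l 16553816)) (l 16381904)) (c (l 15811392) (l 15946248))) (b (b (l 16550032) (l 16501760)) (b (l 16065200) (l 15593512)))))))), by decide +kernel⟩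

def k2_pm_102 : ∃ t, chk3 f_pm_102 t 18 6 1 = true :=
  ⟨(b (l 2) (b (a (l 2) (b (a (l 2) (b (l 2) (c (c (b (l 16392256) (l 16415760)) (l 1326170888327)) (c (l 1358383135479) (l 1366973061847))))) (a (b (l 2) (c (l 16419928) (l 16411944))) (c (l 299673817591) (l 16460208))))) (a (a (l 2) (c (b (l 16418216) (l 16427120)) (b (l 16410112) (l 16505264)))) (c (b (c (l 16478888) (l 16518144)) (a (l 16531064) (l 16630936))) (b (l 16451248) (l 16598432)))))), by decide +kernel⟩

def k3_pm_102 : ∃ t, chk3 f_pm_102 t 38 6 1 = true :=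
  ⟨(b (b (l 3) (a (b (l 2) (b (a (l 2) (a (l 2) (c (c (l 1528034442583) (l 1560783562711)) (c (l 1507633334631) (l 16377368))))) (c (c (l 304505554647) (l 16347240)) (c (l 16364008) (l 16380776))))) (b (b (l 3) (a (b (l 3) (c (a (c (l 211157251831) (l 212230984983)) (c (l 223505303159) (l 225652779175))) (c (l 213304708567) (l 202030411623)))) (c (b (c (b (l 243369594679) (l 200419882839)) (l 238000839895)) (c (l 189145595383) (l 16430232))) (c (b (l 234242736439) (l 16426584)) (b (l 223505311271) (l 16422936)))))) (b (c (c (a (b (l 16410440) (l 16426272)) (l 16451992)) (a (l 16393520) (l 16448560))) (c (a (l 16410632) (l 16445128)) (a (l 16406768) (l 16441688)))) (c (a (l 16448192) (b (l 16468536) (l 16480136))) (a (l 16441240) (b (l 16462096) (l 16473968)))))))) (b (a (c (b (b (c (b (l 16423432) (l 421543522215)) (b (l 16419600) (l 16439592))) (c (l 16474392) (l 16471192))) (c (l 16532016) (l 16529528))) (b (b (b (a (l 16389952) (l 16436424)) (a (l 16416832) (l 16453376))) (a (l 16450248) (l 16483992)))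 (l 16525800))) (b (b (a (b (c (l 16468344) (l 16461872)) (l 16476960)) (c (l 16488872) (l 16482864))) (l 16510968)) (l 16565816))) (b (a (c (c (l 16609072) (l 16607528)) (l 16605224)) (l 16639824)) (c (l 16701400) (l 16700560))))), by decide +kernel⟩

def k4_pm_102 : ∃ t, chk3 f_pm_102 t 39 6 1 = true :=
  ⟨(b (a (b (l 3) (a (b (c (b (b (l 3) (c (b (l 248201487943) (l 206325521479)) (l 242295901543))) (c (c (l 189682519383) (l 192903742231)) (b (l 196661836423) (l 16463208)))) (b (c (l 242832769175) (l 235316569799)) (c (l 185924411207) (l 16452392)))) (c (b (l 16478064) (l 16493360)) (b (l 16471896) (c (l 16488976) (l 16486048))))) (b (c (b (b (c (b (l 3) (l 243906571575)) (l 246054050871)) (c (a (l 202567480359) (l 16488200)) (l 199883117191))) (c (l 16490160) (l 16487240))) (b (c (b (l 241222206679) (l 192366918743)) (b (l 232632235959) (l 16472768))) (c (l 16484320) (l 16481400)))) (c (b (l 16500512) (l 16507528)) (b (l 16494896) (l 16502000)))))) (b (b (l 3) (b (l 3) (c (b (a (l 3) (c (l 256254686087)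 (l 254107197559))) (a (c (l 251422808151) (l 249812190007)) (c (b (l 213304988071) (l 16520240)) (l 207399402071)))) (c (b (l 250885950887) (a (l 244980346391) (l 198809462839))) (a (l 242295990471) (l 221894905527)))))) (b (c (b (c (a (c (l 198272559479) (l 200420040407)) (l 16523400)) (a (b (l 203641264311) (l 16502248)) (l 16520920))) (c (l 16519904) (l 16517344))) (a (b (c (l 190756356103) (l 169818385255)) (l 16504288)) (c (l 16520880) (l 16518416)))) (b (a (c (l 16518064) (l 16512864)) (c (l 16531104) (l 16526192))) (l 16525384))))) (b (b (c (l 16536128) (l 16531192)) (l 16579872)) (b (l 16649144) (l 16738208)))), by decide +kernel⟩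

def k5_pm_102 : ∃ t, chk3 f_pm_102 t 9 7 1 = true :=
  ⟨(a (b (c (a (b (b (b (l 16558624) (l 511738256135)) (c (b (l 16660040) (l 16712656)) (l 16581792))) (c (b (b (l 16645680) (l 16683776)) (l 16618168)) (l 16661016))) (b (b (l 16552576) (l 16661224)) (b (l 16655984) (l 16567656)))) (b (a (b (c (l 555761655511) (l 579383975111)) (l 16533440)) (b (l 16590328) (l 16712552))) (a (b (l 16704008) (l 16613272)) (l 16602152)))) (c (b (b (a (a (l 16457560) (l 16520776)) (l 16440576)) (l 16245080)) (a (l 15855688) (l 15778976))) (b (b (a (l 16526536) (l 16427184)) (l 16195264)) (b (l 15861056) (l 15536104))))) (b (b (c (b (b (l 16711640) (a (l 16692968) (l 16680360))) (a (a (l 16652784) (l 16641512)) (l 16640960))) (a (a (b (l 16708088) (l 16658976)) (l 16673440)) (l 16627432))) (c (b (a (a (l 16590016) (l 16602784)) (l 16605176)) (a (l 16527064) (l 16424744))) (a (l 16475152) (l 16525200)))) (b (b (a (c (l 16307600) (l 16275664)) (l 16054808)) (l 15939552)) (c (l 15704024) (b (l 15735592) (l 15499408)))))),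 by decide +kernel⟩

def k6_pm_102 : ∃ t, chk3 f_pm_102 t 5 4 1 = true :=
  ⟨(l 3), by decide +kernel⟩

def k7_pm_102 : ∃ t, chk3 f_pm_102 t 10 10 1 = true :=
  ⟨(l 3), by decide +kernel⟩

def k8_pm_102 : ∃ t, chk3 f_pm_102 t 10 22 1 = true :=
  ⟨(l 3), by decide +kernel⟩

def k9_pm_102 : ∃ t, chk3 f_pm_102 t 20 23 1 = true :=
  ⟨(b (l 3) (b (l 3) (b (l 3) (b (l 3) (a (l 3) (a (l 3) (a (l 3) (a (l 3) (c (c (l 253033754663) (l 250349399191)) (c (l 242833196663) (l 227800809895))))))))))), by decide +kernel⟩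

def k10_pm_102 : ∃ t, chk3 f_pm_102 t 42 23 1 = true :=
  ⟨(a (b (l 3) (a (b (l 3) (c (b (a (l 3) (b (l 3) (c (l 265918680391) (l 263771206807)))) (c (c (l 239611983143) (l 241759466471)) (c (l 242296358055) (l 240148874087)))) (c (c (l 245517565927) (l 239611985623)) (b (l 254644395751) (l 215989662967))))) (b (b (l 3) (b (l 3) (c (c (l 322827019063) (l 323900755623)) (c (l 325511368343) (l 326585131143))))) (c (c (b (c (a (l 255718158759) (l 241222646471)) (l 234243308023)) (l 16672672)) (b (c (l 234780178871) (l 233169566071)) (l 16672536))) (c (c (l 222969015415) (l 216526564375)) (b (l 229411471431) (l 16693232))))))) (b (l 3) (c (b (c (c (b (a (l 294909717671) (l 264844932759)) (a (l 262697454967) (l 16683120))) (b (a (l 292225362855) (l 269676770551)) (a (l 264844938439) (l 16682944)))) (c (b (a (l 292225362599) (l 273434866519)) (a (l 264844959239) (l 16682768))) (a (l 272361124103) (l 255718110375)))) (c (a (c (l 16678768) (l 16678728)) (l 16690584)) (c (l 16674128) (l 16674048)))) (c (c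 (b (b (l 281487936407) (l 251960027607)) (l 16673960)) (b (b (l 282024806983) (l 245517576407)) (l 16694848))) (b (c (l 247665053255) (l 238001376535)) (a (l 16699488) (l 16689776))))))), by decide +kernel⟩

def k11_pm_102 : ∃ t, chk3 f_pm_102 t 43 23 1 = true :=
  ⟨(a (b (b (l 3) (a (b (l 3) (c (c (c (l 271287357879) (l 276119195447)) (c (l 279877291191) (l 283098516007))) (c (l 285245998695) (l 287393465975)))) (c (c (c (b (l 277729783975) (l 236390720407)) (b (l 282024750407) (l 241222557143))) (c (a (l 264308018071) (l 254644334135)) (l 258402433159))) (c (b (l 292225294679) (l 235316974263)) (l 233169476039))))) (c (c (b (a (c (l 229411421047) (l 234780129607)) (l 16662864)) (l 16676024)) (a (b (c (l 16650568) (l 16671256)) (l 16680504)) (l 16645248))) (b (c (c (l 16645352) (l 16665992)) (l 207399688983)) (a (l 16679800) (l 16669256))))) (b (c (c (b (c (b (a (l 3) (l 289540897111)) (a (l 283635340103) (l 247128104343))) (b (l 296520222823) (a (l 287930306295) (l 251959947687)))) (a (b (c (l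 240685666263) (l 244980630887)) (l 16648240)) (l 16637600))) (c (a (b (l 297057104311) (l 242296272183)) (b (l 264844815799) (l 16636688))) (b (b (l 302962671303) (l 284709071079)) (l 239075024535)))) (b (c (c (l 293835869431) (l 295983351863)) (a (l 307794517463) (l 238538136327))) (c (a (l 234243206039) (l 16635168)) (l 211694604759)))) (c (c (l 16651896) (l 16650864)) (c (l 16649832) (l 16648800))))), by decide +kernel⟩

def k12_pm_102 : ∃ t, chk3 f_pm_102 t 22 10 1 = true :=
  ⟨(l 3), by decide +kernel⟩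

def k13_pm_102 : ∃ t, chk3 f_pm_102 t 44 11 1 = true :=
  ⟨(b (b (l 3) (a (b (l 3) (c (c (c (b (l 304036372615) (a (l 295983325911) (l 256254866407))) (b (l 306720725527) (a (l 299741420775) (l 258402348391)))) (b (l 311552561255) (c (l 290077736135) (l 294372701847)))) (c (a (l 315310665527) (l 259476079127)) (l 308868204919)))) (c (b (b (l 3) (a (c (l 311015658199) (l 317994986711)) (c (c (l 266455352999) (l 266992242839)) (l 263771014311)))) (a (b (c (c (l 261623555207) (l 262160424263)) (l 260549808743)) (c (l 16603384) (l 16601544))) (c (c (l 16594496) (l 16593480)) (l 16591960)))) (b (c (l 315847487575) (l 321216192663)) (c (a (l 241759309639) (l 16589928)) (l 217063223511)))))) (a (b (c (b (b (c (a (c (l 251423049447) (l 254107402551)) (l 16613768)) (c (l 247128047751) (l 246054303719))) (c (a (l 16624688) (l 16615576)) (l 16618648))) (c (l 16623424) (l 16621904))) (c (b (a (l 238001255895) (l 16611400)) (l 16620392)) (b (l 214915783031) (l 16618872)))) (c (c (l 16630712) (l 16629248)) (l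 16627048))) (b (c (c (b (l 16600752) (l 16603496)) (l 16600224)) (c (l 16598296) (l 16596360))) (c (c (l 16608168) (l 16606256)) (l 16603384))))), by decide +kernel⟩

def k14_pm_102 : ∃ t, chk3 f_pm_102 t 45 11 1 = true :=
  ⟨(b (b (c (b (a (l 3) (a (l 3) (c (c (l 302962500007) (l 312089323735)) (l 326047963303)))) (a (a (l 3) (b (l 3) (c (c (l 290077636759) (l 297593848103)) (l 306720650007)))) (c (c (b (a (l 291151382567) (l 242296109495)) (a (l 238001159063) (l 16559208))) (a (l 262697223255) (l 239074884711))) (a (b (l 313699954471) (l 16543440)) (l 240148626071))))) (c (b (l 340006610039) (a (l 327121737831) (l 243906701383))) (a (l 340543494183) (l 243369839943)))) (c (a (b (c (c (b (a (l 283635203591) (l 16565472)) (l 227800650231)) (a (l 257328549239) (l 16574800))) (a (b (l 300815088183) (l 16582016)) (l 236390565527))) (c (l 16580336) (l 16578024))) (c (c (l 16562448) (l 16561112)) (b (l 16559432) (l 16558688)))) (c (a (c (l 236390537095) (l 229411212599)) (l 16556424)) (a (b (l 220821280855)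 (l 16573392)) (l 16553744))))) (c (b (c (a (l 16582024) (l 16561192)) (l 16569208)) (c (a (l 16588512) (l 16571784)) (l 16578472))) (b (c (l 16566672) (l 16564136)) (c (l 16576016) (l 16573560))))), by decide +kernel⟩

def k15_pm_102 : ∃ t, chk3 f_pm_102 t 23 5 1 = true :=
  ⟨(b (b (l 3) (a (b (l 3) (b (l 3) (c (a (c (c (l 316384244519) (l 323900455239)) (l 336248481687)) (c (a (c (l 275582059975) (l 275582067335)) (c (l 252496639511) (l 251422855991))) (a (l 272360837175) (l 250349111271)))) (a (c (l 352891473927) (l 369534466167)) (c (l 251959688775) (l 235853555271)))))) (c (b (a (l 3) (c (c (l 342691077751) (l 346986042839)) (l 352354748647))) (c (c (a (b (l 317458073911) (l 16584232)) (l 16608448)) (a (l 255717927127) (l 16628448))) (a (l 254107247591) (l 16626992)))) (b (c (l 367387077831) (l 373829523703)) (c (l 234779875335) (l 16554872)))))) (a (a (b (c (b (b (c (c (b (a (l 304573123703) (l 254107230551)) (a (a (l 254107254055) (l 16551336)) (l 16548496))) (a (b (l 313163055415) (l 249812288567))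 (l 245517307943))) (a (b (l 326584823911) (l 249812288231)) (l 245517302855))) (c (a (b (l 16530776) (l 16551328)) (l 16550664)) (a (l 16548688) (l 16547752)))) (c (b (l 16552408) (l 16554656)) (l 16550680))) (b (c (b (l 248201633495) (l 16544792)) (b (l 231558629383) (l 16541904))) (c (l 16547800) (l 16544920)))) (c (b (c (l 16558840) (l 16555992)) (l 16577856)) (b (b (l 16550192) (l 16554016)) (l 16572680)))) (b (c (b (c (a (b (b (l 16543600) (l 16547832)) (l 16554424)) (b (l 16556936) (l 16568544))) (a (l 16547152) (l 16559968))) (c (l 16577424) (l 16574816))) (b (c (a (l 16544200) (l 16557168)) (l 16547488)) (l 16528960))) (b (c (a (l 16587840) (l 16612056)) (l 16574320)) (l 16625744)))) (b (c (c (b (l 16584000) (l 16650200)) (b (l 16623968) (l 16648536))) (c (b (l 16621992) (l 16646880)) (l 16611776))) (b (c (l 16654760) (l 16631152)) (l 16682136))))), by decide +kernel⟩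

def k16_pm_102 : ∃ t, chk3 f_pm_102 t 10 48 1 = true :=
  ⟨(b (a (a (l 3) (a (a (l 3) (b (l 3) (c (c (c (l 255718034311) (l 255181162439)) (b (l 262697355831) (l 230485096967))) (c (l 243906869895) (l 230485095159))))) (c (a (c (b (c (l 259476166151) (l 258402423607)) (c (l 208473400711) (l 210084012631))) (c (a (l 248201864295) (l 239075072263)) (l 240685656455))) (b (c (c (l 222968970951) (l 224042712215)) (c (l 223505840743) (l 213842144423))) (c (l 16657904) (l 16657256)))) (c (a (b (l 247128113591) (l 199883462791)) (c (l 209547166519) (l 203641585879))) (c (b (l 215452760823) (l 16628064)) (l 201494090711)))))) (a (c (a (c (c (l 16660536) (l 16660360)) (c (l 16660192) (l 16660016))) (c (l 16706216) (l 16706168))) (b (a (c (l 16661592) (l 16661288)) (l 16682224)) (c (l 16652656) (l 16652472)))) (c (a (l 16684816) (l 16661624)) (a (l 16683864) (l 16659744))))) (a (a (a (l 3) (a (l 3) (b (l 3) (c (c (c (l 250886123863) (l 250886122391)) (b (l 255717959959) (l 217063233191))) (c (l 239611828103)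 (l 224042548727)))))) (c (c (c (a (b (a (l 253033643847) (l 204715270711)) (a (l 16609704) (l 16622776))) (l 16623232)) (a (b (a (l 253033642631) (l 206325882231)) (l 199883393991)) (l 16643760))) (a (a (c (l 241759348695) (l 239611863783)) (c (l 200957162903) (l 198272806903))) (a (l 16635984) (l 16650384)))) (c (a (b (a (l 241759349223) (l 194514718631)) (a (l 16606784) (l 16620200))) (a (l 16635024) (l 16649592))) (a (c (l 186998483479) (l 175187322231)) (l 16620384))))) (a (c (c (l 16648352) (l 16648048)) (c (l 16647744) (l 16647448))) (c (a (l 16694000) (l 16671688)) (a (l 16693232) (l 16670032)))))), by decide +kernel⟩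

def k17_pm_102 : ∃ t, chk3 f_pm_102 t 10 49 1 = true :=
  ⟨(b (a (a (c (c (a (b (a (l 3) (l 267529053191)) (a (l 261623434439) (b (l 232632438695) (l 211157581063)))) (a (b (c (l 248738603495) (l 249275472695)) (l 16574368)) (c (l 16580576) (l 16590280)))) (a (a (l 261623444615) (c (l 252496662231) (l 249812305735))) (a (c (l 240685534615) (l 238001178311)) (b (l 16579856) (l 16587864))))) (a (c (b (l 257865353447) (a (l 253033491159) (l 205788863319))) (c (l 238001123975) (l 229948058279))) (c (b (a (l 238001156871) (l 16588800)) (l 16557840)) (c (l 181092828871) (l 167671054423))))) (c (a (c (l 16589224) (l 16608848)) (c (l 16634160) (l 16633088))) (a (c (l 16607504) (l 16606160)) (c (l 16632016) (l 16630944))))) (c (a (c (l 16643496) (l 16643064)) (l 16694728)) (a (c (l 16642640) (l 16642216)) (l 16693792)))) (a (a (c (a (b (a (c (b (l 227263691543) (l 206325704807)) (l 211157537831)) (c (l 16556888) (l 16554872))) (c (a (l 16539464) (l 16556744)) (l 16546256))) (c (l 16579232) (l 16577464)))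 (a (c (a (b (l 202030727863) (l 16534968)) (l 16552760)) (a (l 175187177447) (l 16550736))) (c (l 16575704) (l 16573936)))) (c (a (l 16601096) (l 16603432)) (a (c (l 16598824) (l 16597304)) (c (l 16622512) (l 16621248))))) (a (a (c (l 16660504) (l 16658888)) (l 16698008)) (l 16704664)))), by decide +kernel⟩

def k18_pm_102 : ∃ t, chk3 f_pm_102 t 10 25 1 = true :=
  ⟨(b (a (a (c (a (b (c (l 16548992) (l 16546824)) (c (l 16550504) (l 16548304))) (b (c (l 16575400) (l 16573536)) (l 16571176))) (a (b (c (l 16544648) (l 16542480)) (c (l 16546104) (l 16543904))) (c (b (l 16571664) (l 16568216)) (b (l 16569792) (l 16566248))))) (c (b (a (l 16594288) (l 16619448)) (l 16606760)) (b (a (c (l 16591792) (l 16590120)) (l 16616680)) (l 16603608)))) (c (l 16667392) (l 16645888))) (b (a (a (a (a (c (l 16542976) (l 16538328)) (l 16553392)) (l 16570640)) (l 16563776)) (l 16638416)) (a (a (l 16560776) (l 16605760)) (l 16695440)))), by decide +kernel⟩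

def k19_pm_102 : ∃ t, chk3 f_pm_102 t 10 13 1 = true :=
  ⟨(a (b (a (b (c (l 16581232) (l 16577280)) (l 16623816)) (b (l 16558912) (l 16619520))) (a (l 16680784) (l 16735872))) (b (c (b (l 16704424) (l 16749744)) (b (l 16703296) (l 16749632))) (c (l 16720672) (l 16719184)))), by decide +kernel⟩

def k20_pm_102 : ∃ t, chk3 f_pm_102 t 11 6 1 = true :=
  ⟨(a (b (b (a (b (a (c (l 16646080) (l 16643472)) (c (l 16626960) (l 16623584))) (l 16661160)) (c (l 16619520) (l 16615608))) (c (l 16695464) (l 16672712))) (b (c (b (l 16734520) (l 16725416)) (b (l 16733648) (l 16724056))) (c (l 16623784) (a (l 16654264) (l 16579208))))) (b (b (c (a (l 16649336) (l 16750136)) (a (l 16646016) (l 16749432))) (c (a (l 16718224) (l 16757696)) (a (l 16674744) (l 16694272)))) (b (c (a (b (l 16760536) (l 16679200)) (l 16696544)) (a (b (l 16655432) (l 16674144)) (l 16691464))) (c (l 16523280) (a (l 16490344) (l 16557936)))))), by decide +kernel⟩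

def k21_pm_102 : ∃ t, chk3 f_pm_102 t 5 7 1 = true :=
  ⟨(a (b (a (b (c (b (l 16641528) (a (l 16641056) (l 16591704))) (b (b (l 16691040) (l 16648496)) (l 16580624))) (c (b (c (l 16474696) (l 16465216)) (l 16274480)) (a (l 16397808) (l 16294832)))) (b (c (b (l 16596544) (a (l 16495648) (l 16412152))) (b (l 16544656) (l 16345256))) (c (b (l 16295560) (l 16129088)) (b (l 16263104) (l 16084720))))) (b (a (b (c (l 16074408) (l 16021984)) (l 15858352)) (c (b (l 15968688) (l 15834008)) (a (l 15698056) (l 15853584)))) (a (c (l 15563648) (b (l 15635880) (l 15458088))) (c (l 15660912) (l 15386616))))) (a (b (b (c (b (a (l 16472792) (l 16436224)) (a (l 16347264) (l 16348056))) (b (a (l 16453584) (l 16418088)) (a (l 16319816) (l 16327064)))) (c (b (l 16200904) (l 16129400)) (b (l 16215632) (l 16098944)))) (b (b (c (l 16017056) (l 15985760)) (l 15907192)) (c (l 15777864) (l 15761400)))) (b (c (b (b (l 16454136) (l 16376104)) (c (l 16242128) (l 16234208))) (b (c (l 16406336) (l 16400200)) (c (l 16226296) (l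 16218384)))) (b (b (c (l 16079128) (l 16061104)) (l 15980368)) (c (l 15848192) (l 15843376)))))), by decide +kernel⟩

def k22_pm_102 : ∃ t, chk3 f_pm_102 t 6 4 1 = true :=
  ⟨(a (b (l 3) (b (l 3) (b (l 3) (a (l 3) (a (l 3) (c (c (l 265918805623) (l 251960150871)) (c (l 16742336) (l 16741896)))))))) (a (b (l 3) (b (c (a (l 3) (c (l 282024962855) (l 280951220535))) (c (l 282024952999) (l 226727248455))) (c (c (b (a (l 264845079015) (l 16759472)) (l 186998788311)) (b (l 220821653319) (l 16755992))) (c (b (l 202031170823) (l 16755712)) (b (l 29695607159) (l 16755440)))))) (b (a (l 3) (b (l 3) (c (c (l 299204863367) (l 297057379623)) (c (l 291688670407) (l 283098735735))))) (b (c (b (a (b (l 3) (l 266455713735)) (c (l 198809995351) (l 190756931271))) (c (a (l 16767080) (l 16775048)) (l 172503304119))) (c (b (l 198273106247) (l 16749936)) (b (l 175187656695) (l 16770832)))) (c (c (l 16761616) (l 16772040)) (c (l 16771968) (l 16771904))))))), by decide +kernel⟩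

def k23_pm_102 : ∃ t, chk3 f_pm_102 t 6 5 1 = true :=
  ⟨(a (a (b (a (b (a (l 3) (b (l 3) (c (c (l 372219142247) (l 375440365463)) (l 378124716663)))) (c (c (b (a (b (l 346986135415) (l 235853813303)) (l 233169539879)) (l 16662864)) (b (l 254107420711) (l 16682888))) (c (b (l 239075010471) (l 16702912)) (b (l 16659832) (l 16701968))))) (b (c (c (b (l 552607886983) (a (l 274508695303) (l 181093228359))) (b (l 555292240839) (l 263234393127))) (b (l 558513465271) (c (l 244443888663) (l 16724472)))) (c (a (c (l 16728464) (l 16749352)) (c (l 16745880) (l 16745472))) (c (l 16724480) (l 16724344))))) (b (c (a (b (l 16663824) (l 16709112)) (c (l 16746240) (l 16745832))) (a (c (l 16696336) (l 16716816)) (c (l 16724456) (b (l 16746032) (l 16738896))))) (c (l 16696696) (a (l 16750072) (l 16738312))))) (b (c (b (a (b (c (a (l 262160703207) (l 16737928)) (l 248202028951)) (c (l 16737944) (l 16737432))) (c (l 16745224) (l 16744808))) (c (a (l 16739672) (l 16748408)) (a (l 16739184) (l 16748032)))) (b (b (a (c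 (l 241222687271) (l 16738040)) (l 16743424)) (c (l 16741056) (l 16740592))) (c (l 16743184) (a (l 16738200) (l 16747280))))) (c (b (c (l 16747904) (l 16747520)) (l 16752240)) (b (a (c (l 16742656) (l 16742216)) (l 16751424)) (l 16751592))))) (b (a (c (b (c (a (l 16753920) (l 16762520)) (l 16757984)) (c (l 16761368) (l 16761168))) (b (c (l 16757736) (l 16757488)) (c (l 16760960) (l 16760752)))) (c (b (c (l 16773672) (l 16773624)) (l 16775184)) (b (c (l 16773576) (l 16773536)) (l 16775136)))) (c (b (l 16770504) (l 16772784)) (b (l 16770328) (l 16772672))))), by decide +kernel⟩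

def k24_pm_102 : ∃ t, chk3 f_pm_102 t 14 2 1 = true :=
  ⟨(b (b (b (a (a (l 3) (l 3)) (b (a (l 3) (c (c (l 265382002695) (l 265918873607)) (c (l 261087035399) (l 251960229895)))) (c (c (a (l 253570842631) (l 16777216)) (a (l 255181455367) (l 16777216))) (c (a (l 251423358983) (l 16777216)) (l 183777624071))))) (a (c (c (b (a (l 301352353799) (l 241222811655)) (a (l 219747975175) (l 16777216))) (c (b (l 244980908039) (l 198273138695)) (l 218674233351))) (b (c (l 232632877063) (l 217063620615)) (c (l 188609462279) (l 173577076743)))) (c (c (b (l 16777216) (l 16777216)) (b (l 16777216) (l 16777216))) (c (b (l 16777216) (l 16777216)) (b (l 16777216) (l 16777216)))))) (c (b (a (c (b (l 16777216) (l 16777216)) (b (l 16777216) (l 16777216))) (c (l 16777216) (l 16777216))) (a (c (l 16777216) (l 16777216)) (c (l 16777216) (l 16777216)))) (c (a (b (l 16777216) (l 16777216)) (b (l 16777216) (l 16777216))) (a (b (l 16777216) (l 16777216)) (b (l 16777216) (l 16777216)))))) (b (c (a (b (a (l 16777216) (l 16777216))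 (l 16777216)) (l 16777216)) (a (b (a (l 16777216) (l 16777216)) (l 16777216)) (l 16777216))) (c (c (l 16777216) (l 16777216)) (b (l 16777216) (l 16777216))))), by decide +kernel⟩

def k25_pm_102 : ∃ t, chk3 f_pm_102 t 15 2 1 = true :=
  ⟨(b (c (b (b (a (c (b (a (l 16777216) (l 16777216)) (l 16777216)) (b (a (l 163913400327) (l 16777216)) (l 16777216))) (c (c (l 16777216) (l 16777216)) (c (l 16777216) (l 16777216)))) (a (c (l 16777216) (l 16777216)) (c (l 16777216) (l 16777216)))) (b (a (c (l 16777216) (l 16777216)) (a (l 16777216) (l 16777216))) (l 16777216))) (b (b (a (c (c (l 146733531143) (l 16777216)) (a (l 147270402055) (l 16777216))) (c (l 16777216) (l 16777216))) (a (c (l 16777216) (l 16777216)) (c (l 16777216) (l 16777216)))) (b (a (c (l 16777216) (l 16777216)) (a (l 16777216) (l 16777216))) (l 16777216)))) (b (c (l 16777216) (l 16777216)) (c (b (l 16777216) (l 16777216)) (b (l 16777216) (l 16777216))))), by decide +kernel⟩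

def k26_pm_102 : ∃ t, chk3 f_pm_102 t 3 3 1 = true :=
  ⟨(b (b (a (a (b (c (a (l 16745600) (l 16757424)) (a (l 16723808) (l 16756912))) (c (l 16754632) (l 16754048))) (c (b (a (l 16772928) (l 16777216)) (a (l 16775664) (l 16777216))) (b (a (l 16772816) (l 16777216)) (a (l 16775624) (l 16777216))))) (b (c (a (l 16777216) (l 16777216)) (a (l 16777216) (l 16777216))) (c (l 16777216) (l 16777216)))) (a (a (b (c (l 16714768) (l 16711896)) (c (l 16583216) (l 16577296))) (b (c (l 16729152) (l 16717408)) (c (l 16592424) (l 16587624)))) (b (c (a (l 16729216) (l 16729216)) (a (l 16727968) (l 16727968))) (c (l 16571448) (a (l 16587624) (l 16587624)))))) (b (a (a (c (b (l 16433056) (l 16251392)) (b (b (l 16464480) (l 16382904)) (l 16237568))) (c (b (a (l 16438056) (l 16438056)) (a (l 16253288) (l 16253288))) (b (b (l 16470672) (l 16386984)) (b (l 16294312) (l 16183968))))) (c (a (b (l 16438056) (c (l 16256688) (l 16249888))) (b (l 16438056) (l 16232312))) (a (b (c (l 16431448) (l 16427048)) (b (l 16294312)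 (l 16183968))) (b (l 16429248) (b (l 16294312) (l 16183968)))))) (a (b (a (c (l 16045312) (l 16026288)) (c (b (l 16088264) (l 15991624)) (l 16026520))) (c (a (l 15850352) (l 15850352)) (b (l 15886904) (l 15791176)))) (c (b (a (l 16045520) (l 16045520)) (l 15850352)) (b (a (l 16026520) (l 16026520)) (b (l 15886904) (l 15791176))))))), by decide +kernel⟩

theorem s27_pm_102 : ∃ t, chk3 f_pm_102 t 7 2 1 = true := ex3_a k24_pm_102 k25_pm_102

theorem s28_pm_102 : ∃ t, chk3 f_pm_102 t 6 2 1 = true := ex3_b k22_pm_102 k23_pm_102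

theorem s29_pm_102 : ∃ t, chk3 f_pm_102 t 3 2 1 = true := ex3_a s28_pm_102 s27_pm_102

theorem s30_pm_102 : ∃ t, chk3 f_pm_102 t 3 1 1 = true := ex3_b s29_pm_102 k26_pm_102

theorem s31_pm_102 : ∃ t, chk3 f_pm_102 t 10 24 1 = true := ex3_b k16_pm_102 k17_pm_102

theorem s32_pm_102 : ∃ t, chk3 f_pm_102 t 10 12 1 = true := ex3_b s31_pm_102 k18_pm_102

theorem s33_pm_102 : ∃ t, chk3 f_pm_102 t 10 6 1 = true := ex3_b s32_pm_102 k19_pm_102

theorem s34_pm_102 : ∃ t, chk3 f_pm_102 t 5 6 1 = true := ex3_a s33_pm_102 k20_pm_102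

theorem s35_pm_102 : ∃ t, chk3 f_pm_102 t 5 3 1 = true := ex3_b s34_pm_102 k21_pm_102

theorem s36_pm_102 : ∃ t, chk3 f_pm_102 t 22 11 1 = true := ex3_a k13_pm_102 k14_pm_102

theorem s37_pm_102 : ∃ t, chk3 f_pm_102 t 22 5 1 = true := ex3_b k12_pm_102 s36_pm_102

theorem s38_pm_102 : ∃ t, chk3 f_pm_102 t 11 5 1 = true := ex3_a s37_pm_102 k15_pm_102

theorem s39_pm_102 : ∃ t, chk3 f_pm_102 t 21 23 1 = true := ex3_a k10_pm_102 k11_pm_102

theorem s40_pm_102 : ∃ t, chk3 f_pm_102 t 10 23 1 = true := ex3_a k9_pm_102 s39_pm_102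

theorem s41_pm_102 : ∃ t, chk3 f_pm_102 t 10 11 1 = true := ex3_b k8_pm_102 s40_pm_102

theorem s42_pm_102 : ∃ t, chk3 f_pm_102 t 10 5 1 = true := ex3_b k7_pm_102 s41_pm_102

theorem s43_pm_102 : ∃ t, chk3 f_pm_102 t 5 5 1 = true := ex3_a s42_pm_102 s38_pm_102

theorem s44_pm_102 : ∃ t, chk3 f_pm_102 t 5 2 1 = true := ex3_b k6_pm_102 s43_pm_102

theorem s45_pm_102 : ∃ t, chk3 f_pm_102 t 5 1 1 = true := ex3_b s44_pm_102 s35_pm_102

theorem s46_pm_102 : ∃ t, chk3 f_pm_102 t 19 6 1 = true := ex3_a k3_pm_102 k4_pm_102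

theorem s47_pm_102 : ∃ t, chk3 f_pm_102 t 9 6 1 = true := ex3_a k2_pm_102 s46_pm_102

theorem s48_pm_102 : ∃ t, chk3 f_pm_102 t 9 3 1 = true := ex3_b s47_pm_102 k5_pm_102

theorem s49_pm_102 : ∃ t, chk3 f_pm_102 t 4 3 1 = true := ex3_a k1_pm_102 s48_pm_102

theorem s50_pm_102 : ∃ t, chk3 f_pm_102 t 4 1 1 = true := ex3_b k0_pm_102 s49_pm_102

theorem s51_pm_102 : ∃ t, chk3 f_pm_102 t 2 1 1 = true := ex3_a s50_pm_102 s45_pm_102

theorem s52_pm_102 : ∃ t, chk3 f_pm_102 t 1 1 1 = true := ex3_a s51_pm_102 s30_pm_102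

theorem c_pm_102 : CertFX 536870912 536870912 0 536870912 1046898278 26843546 false true false .npp 1 0 2
    ndF1q1 ndF0q2 pcF0 Cut.none Ext.none :=
  certFX2 (fam := false) (s1 := true) (s2 := false) (a := 1) (b := 0) (c := 2) (cn := .npp) (n1 := ndF1q1) (n2 := ndF0q2) (pc := pcF0) (cut := Cut.none) (xt := Ext.none) (P1 := 536870912) (W1 := 536870912) (P2 := 0) (W2 := 536870912) (P3 := 1046898278) (W3 := 26843546)
    rfl (fun _ => rfl) s52_pm_102

noncomputable def f_pm_112 : ℕ → ℕ → ℕ → ℕ → Bool := onCell 536870912 536870912 0 536870912 1046898278 26843546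
    (rowFX 2 false true false .dn 1 1 2 (qsf 536870912 536870912 0 536870912 1) ndF1q1 ndF0q2 pcF1 Cut.none Ext.none)

def k0_pm_112 : ∃ t, chk3 f_pm_112 t 1 1 1 = true :=
  ⟨(a (a (b (b (b (a (c (a (b (c (l 16777216) (l 16777216)) (c (l 16777216) (l 16777216))) (b (c (l 16777216) (l 16777216)) (l 16777216))) (a (b (c (l 16777216) (l 16777216)) (c (l 16777216) (l 16777216))) (b (c (l 16777216) (l 16777216)) (l 16777216)))) (b (a (a (c (l 16777216) (l 16777216)) (l 16777216)) (l 16777216)) (c (l 16777216) (l 16777216)))) (c (c (l 16777216) (l 16777216)) (a (l 16777216) (l 16777216)))) (b (c (a (l 16777216) (l 16777216)) (a (l 16777216) (l 16777216))) (c (a (b (l 16777216) (l 16777216)) (b (l 16777216) (l 16777216))) (a (b (l 16777216) (l 16777216)) (b (l 16777216) (l 16777216)))))) (b (b (c (c (l 16777216) (l 16777216)) (c (l 16777216) (l 16777216))) (c (b (l 16729216) (l 16592424)) (b (a (l 16727968) (l 16727968)) (l 16587624)))) (b (b (c (l 16438056) (l 16429248)) (a (c (l 16253288) (c (l 16243080)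 (l 16236280))) (l 1))) (a (c (b (l 16045520) (l 15850352)) (b (l 16026520) (l 15845824))) (l 1))))) (b (a (b (c (b (l 16777216) (l 16777216)) (b (l 16777216) (l 16777216))) (a (b (c (l 16777216) (l 16777216)) (c (l 16777216) (l 16777216))) (l 1))) (l 1)) (b (l 1) (l 1)))) (l 1)), by decide +kernel⟩

theorem c_pm_112 : CertFX 536870912 536870912 0 536870912 1046898278 26843546 false true false .dn 1 1 2
    ndF1q1 ndF0q2 pcF1 Cut.none Ext.none :=
  certFX2 (fam := false) (s1 := true) (s2 := false) (a := 1) (b := 1) (c := 2) (cn := .dn) (n1 := ndF1q1) (n2 := ndF0q2) (pc := pcF1) (cut := Cut.none) (xt := Ext.none) (P1 := 536870912) (W1 := 536870912) (P2 := 0) (W2 := 536870912) (P3 := 1046898278) (W3 := 26843546)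
    rfl (fun _ => rfl) k0_pm_112

noncomputable def f_pm_202_a : ℕ → ℕ → ℕ → ℕ → Bool := onCell 0 420477299 0 536870912 1046898278 26843546
    (rowFX 0 false true false .pp 2 0 2 (qsf 0 420477299 0 536870912 0) ndF1q2a ndF0q2 pcF0 Cut.none Ext.none)

def k0_pm_202_a : ∃ t, chk3 f_pm_202_a t 1 1 1 = true :=
  ⟨(l 3), by decide +kernel⟩

theorem c_pm_202_a : CertFX 0 420477299 0 536870912 1046898278 26843546 false true false .pp 2 0 2
    ndF1q2a ndF0q2 pcF0 Cut.none Ext.none :=
  certFX0 (fam := false) (s1 := true) (s2 := false) (a := 2) (b := 0) (c := 2) (cn := .pp) (n1 := ndF1q2a) (n2 := ndF0q2) (pc := pcF0) (cut := Cut.none) (xt := Ext.none) (P1 := 0) (W1 := 420477299) (P2 := 0) (W2 := 536870912) (P3 := 1046898278) (W3 := 26843546)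
    rfl k0_pm_202_a

noncomputable def f_pm_202_b : ℕ → ℕ → ℕ → ℕ → Bool := onCell 1239849684 370763052 0 536870912 1046898278 26843546
    (rowFX 0 false true false .pp 2 0 2 (qsf 1239849684 370763052 0 536870912 0) ndF1q2b ndF0q2 pcF0 Cut.none Ext.none)

def k0_pm_202_b : ∃ t, chk3 f_pm_202_b t 1 1 1 = true :=
  ⟨(l 3), by decide +kernel⟩

theorem c_pm_202_b : CertFX 1239849684 370763052 0 536870912 1046898278 26843546 false true false .pp 2 0 2
    ndF1q2b ndF0q2 pcF0 Cut.none Ext.none :=
  certFX0 (fam := false) (s1 := true) (s2 := false) (a := 2) (b := 0) (c := 2) (cn := .pp) (n1 := ndF1q2b) (n2 := ndF0q2) (pc := pcF0) (cut := Cut.none) (xt := Ext.none) (P1 := 1239849684) (W1 := 370763052) (P2 := 0) (W2 := 536870912) (P3 := 1046898278) (W3 := 26843546)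
    rfl k0_pm_202_b

noncomputable def f_mm_001 : ℕ → ℕ → ℕ → ℕ → Bool := onCell 67108864 469762048 536870912 536870912 1046898278 26843546
    (rowFX 0 false false false .up 0 0 1 (qsf 67108864 469762048 536870912 536870912 0) ndF1q0 ndF0q1 pcF0 Cut.none Ext.none)

def k0_mm_001 : ∃ t, chk3 f_mm_001 t 1 1 1 = true :=
  ⟨(l 5), by decide +kernel⟩

theorem c_mm_001 : CertFX 67108864 469762048 536870912 536870912 1046898278 26843546 false false false .up 0 0 1
    ndF1q0 ndF0q1 pcF0 Cut.none Ext.none :=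
  certFX0 (fam := false) (s1 := false) (s2 := false) (a := 0) (b := 0) (c := 1) (cn := .up) (n1 := ndF1q0) (n2 := ndF0q1) (pc := pcF0) (cut := Cut.none) (xt := Ext.none) (P1 := 67108864) (W1 := 469762048) (P2 := 536870912) (W2 := 536870912) (P3 := 1046898278) (W3 := 26843546)
    rfl k0_mm_001

noncomputable def f_mm_011 : ℕ → ℕ → ℕ → ℕ → Bool := onCell 67108864 469762048 536870912 536870912 1046898278 26843546
    (rowFX 0 false false false .pnn 0 1 1 (qsf 67108864 469762048 536870912 536870912 1) ndF1q0 ndF0q1 pcF1 Cut.none Ext.none)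

def k0_mm_011 : ∃ t, chk3 f_mm_011 t 1 1 1 = true :=
  ⟨(l 5), by decide +kernel⟩

theorem c_mm_011 : CertFX 67108864 469762048 536870912 536870912 1046898278 26843546 false false false .pnn 0 1 1
    ndF1q0 ndF0q1 pcF1 Cut.none Ext.none :=
  certFX0 (fam := false) (s1 := false) (s2 := false) (a := 0) (b := 1) (c := 1) (cn := .pnn) (n1 := ndF1q0) (n2 := ndF0q1) (pc := pcF1) (cut := Cut.none) (xt := Ext.none) (P1 := 67108864) (W1 := 469762048) (P2 := 536870912) (W2 := 536870912) (P3 := 1046898278) (W3 := 26843546)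
    rfl k0_mm_011

noncomputable def f_mm_012 : ℕ → ℕ → ℕ → ℕ → Bool := onCell 67108864 469762048 0 536870912 1046898278 26843546
    (rowFX 0 false false false .pnp 0 1 2 (qsf 67108864 469762048 0 536870912 1) ndF1q0 ndF0q2 pcF1 Cut.none Ext.none)

def k0_mm_012 : ∃ t, chk3 f_mm_012 t 1 1 1 = true :=
  ⟨(l 5), by decide +kernel⟩

theorem c_mm_012 : CertFX 67108864 469762048 0 536870912 1046898278 26843546 false false false .pnp 0 1 2
    ndF1q0 ndF0q2 pcF1 Cut.none Ext.none :=
  certFX0 (fam := false) (s1 := false) (s2 := false) (a := 0) (b := 1) (c := 2) (cn := .pnp) (n1 := ndF1q0) (n2 := ndF0q2) (pc := pcF1) (cut := Cut.none) (xt := Ext.none) (P1 := 67108864) (W1 := 469762048) (P2 := 0) (W2 := 536870912) (P3 := 1046898278) (W3 := 26843546)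
    rfl k0_mm_012

noncomputable def f_mm_022 : ℕ → ℕ → ℕ → ℕ → Bool := onCell 67108864 469762048 0 536870912 1046898278 26843546
    (rowFX 0 false false false .pp 0 2 2 (qsf 67108864 469762048 0 536870912 2) ndF1q0 ndF0q2 pcF2 Cut.none Ext.none)

def k0_mm_022 : ∃ t, chk3 f_mm_022 t 1 1 1 = true :=
  ⟨(l 5), by decide +kernel⟩

theorem c_mm_022 : CertFX 67108864 469762048 0 536870912 1046898278 26843546 false false false .pp 0 2 2
    ndF1q0 ndF0q2 pcF2 Cut.none Ext.none :=
  certFX0 (fam := false) (s1 := false) (s2 := false) (a := 0) (b := 2) (c := 2) (cn := .pp) (n1 := ndF1q0) (n2 := ndF0q2) (pc := pcF2) (cut := Cut.none) (xt := Ext.none) (P1 := 67108864) (W1 := 469762048) (P2 := 0) (W2 := 536870912) (P3 := 1046898278) (W3 := 26843546)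
    rfl k0_mm_022

noncomputable def f_mm_101 : ℕ → ℕ → ℕ → ℕ → Bool := onCell 536870912 536870912 536870912 536870912 1046898278 26843546
    (rowFX 0 false false false .npn 1 0 1 (qsf 536870912 536870912 536870912 536870912 0) ndF1q1 ndF0q1 pcF0 Cut.none Ext.none)

def k0_mm_101 : ∃ t, chk3 f_mm_101 t 1 1 1 = true :=
  ⟨(l 3), by decide +kernel⟩

theorem c_mm_101 : CertFX 536870912 536870912 536870912 536870912 1046898278 26843546 false false false .npn 1 0 1
    ndF1q1 ndF0q1 pcF0 Cut.none Ext.none :=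
  certFX0 (fam := false) (s1 := false) (s2 := false) (a := 1) (b := 0) (c := 1) (cn := .npn) (n1 := ndF1q1) (n2 := ndF0q1) (pc := pcF0) (cut := Cut.none) (xt := Ext.none) (P1 := 536870912) (W1 := 536870912) (P2 := 536870912) (W2 := 536870912) (P3 := 1046898278) (W3 := 26843546)
    rfl k0_mm_101

noncomputable def f_mm_102 : ℕ → ℕ → ℕ → ℕ → Bool := onCell 536870912 536870912 0 536870912 1046898278 26843546
    (rowFX 0 false false false .npp 1 0 2 (qsf 536870912 536870912 0 536870912 0) ndF1q1 ndF0q2 pcF0 Cut.none Ext.none)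

def k0_mm_102 : ∃ t, chk3 f_mm_102 t 1 1 1 = true :=
  ⟨(l 5), by decide +kernel⟩

theorem c_mm_102 : CertFX 536870912 536870912 0 536870912 1046898278 26843546 false false false .npp 1 0 2
    ndF1q1 ndF0q2 pcF0 Cut.none Ext.none :=
  certFX0 (fam := false) (s1 := false) (s2 := false) (a := 1) (b := 0) (c := 2) (cn := .npp) (n1 := ndF1q1) (n2 := ndF0q2) (pc := pcF0) (cut := Cut.none) (xt := Ext.none) (P1 := 536870912) (W1 := 536870912) (P2 := 0) (W2 := 536870912) (P3 := 1046898278) (W3 := 26843546)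
    rfl k0_mm_102

noncomputable def f_mm_112 : ℕ → ℕ → ℕ → ℕ → Bool := onCell 536870912 536870912 0 536870912 1046898278 26843546
    (rowFX 0 false false false .dn 1 1 2 (qsf 536870912 536870912 0 536870912 1) ndF1q1 ndF0q2 pcF1 Cut.none Ext.none)

def k0_mm_112 : ∃ t, chk3 f_mm_112 t 1 1 1 = true :=
  ⟨(l 5), by decide +kernel⟩

theorem c_mm_112 : CertFX 536870912 536870912 0 536870912 1046898278 26843546 false false false .dn 1 1 2
    ndF1q1 ndF0q2 pcF1 Cut.none Ext.none :=
  certFX0 (fam := false) (s1 := false) (s2 := false) (a := 1) (b := 1) (c := 2) (cn := .dn) (n1 := ndF1q1) (n2 := ndF0q2) (pc := pcF1) (cut := Cut.none) (xt := Ext.none) (P1 := 536870912) (W1 := 536870912) (P2 := 0) (W2 := 536870912) (P3 := 1046898278) (W3 := 26843546)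
    rfl k0_mm_112

noncomputable def f_mm_202_a : ℕ → ℕ → ℕ → ℕ → Bool := onCell 0 420477299 0 536870912 1046898278 26843546
    (rowFX 0 false false false .pp 2 0 2 (qsf 0 420477299 0 536870912 0) ndF1q2a ndF0q2 pcF0 Cut.none Ext.none)

def k0_mm_202_a : ∃ t, chk3 f_mm_202_a t 1 1 1 = true :=
  ⟨(l 3), by decide +kernel⟩

theorem c_mm_202_a : CertFX 0 420477299 0 536870912 1046898278 26843546 false false false .pp 2 0 2
    ndF1q2a ndF0q2 pcF0 Cut.none Ext.none :=
  certFX0 (fam := false) (s1 := false) (s2 := false) (a := 2) (b := 0) (c := 2) (cn := .pp) (n1 := ndF1q2a) (n2 := ndF0q2) (pc := pcF0) (cut := Cut.none) (xt := Ext.none) (P1 := 0) (W1 := 420477299) (P2 := 0) (W2 := 536870912) (P3 := 1046898278) (W3 := 26843546)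
    rfl k0_mm_202_a

noncomputable def f_mm_202_b : ℕ → ℕ → ℕ → ℕ → Bool := onCell 1239849684 370763052 0 536870912 1046898278 26843546
    (rowFX 0 false false false .pp 2 0 2 (qsf 1239849684 370763052 0 536870912 0) ndF1q2b ndF0q2 pcF0 Cut.none Ext.none)

def k0_mm_202_b : ∃ t, chk3 f_mm_202_b t 1 1 1 = true :=
  ⟨(l 3), by decide +kernel⟩

theorem c_mm_202_b : CertFX 1239849684 370763052 0 536870912 1046898278 26843546 false false false .pp 2 0 2
    ndF1q2b ndF0q2 pcF0 Cut.none Ext.none :=
  certFX0 (fam := false) (s1 := false) (s2 := false) (a := 2) (b := 0) (c := 2) (cn := .pp) (n1 := ndF1q2b) (n2 := ndF0q2) (pc := pcF0) (cut := Cut.none) (xt := Ext.none) (P1 := 1239849684) (W1 := 370763052) (P2 := 0) (W2 := 536870912) (P3 := 1046898278) (W3 := 26843546)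
    rfl k0_mm_202_b

end Pool.Agent.Strip051.G.IE1.Tab.C.FB10

namespace Pool.Agent.Strip051.G.IE1.Tab.C.FB11

open Pool.Agent.Strip051.PB Pool.Agent.Strip051.PB.T
open Pool.Agent.Strip051.G.IE1.Tab

noncomputable def f_pp_001 : ℕ → ℕ → ℕ → ℕ → Bool := onCell 67108864 469762048 536870912 536870912 1046898278 26843546
    (rowFX 0 false true true .up 0 0 1 (qsf 67108864 469762048 536870912 536870912 0) ndF1q0 ndF1q1 pcF0 Cut.none Ext.none)

def k0_pp_001 : ∃ t, chk3 f_pp_001 t 1 1 1 = true :=
  ⟨(l 3), by decide +kernel⟩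

theorem c_pp_001 : CertFX 67108864 469762048 536870912 536870912 1046898278 26843546 false true true .up 0 0 1
    ndF1q0 ndF1q1 pcF0 Cut.none Ext.none :=
  certFX0 (fam := false) (s1 := true) (s2 := true) (a := 0) (b := 0) (c := 1) (cn := .up) (n1 := ndF1q0) (n2 := ndF1q1) (pc := pcF0) (cut := Cut.none) (xt := Ext.none) (P1 := 67108864) (W1 := 469762048) (P2 := 536870912) (W2 := 536870912) (P3 := 1046898278) (W3 := 26843546)
    rfl k0_pp_001

noncomputable def f_pp_011 : ℕ → ℕ → ℕ → ℕ → Bool := onCell 67108864 469762048 536870912 536870912 1046898278 26843546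
    (rowFX 0 false true true .pnn 0 1 1 (qsf 67108864 469762048 536870912 536870912 1) ndF1q0 ndF1q1 pcF1 Cut.none Ext.none)

def k0_pp_011 : ∃ t, chk3 f_pp_011 t 1 1 1 = true :=
  ⟨(l 3), by decide +kernel⟩

theorem c_pp_011 : CertFX 67108864 469762048 536870912 536870912 1046898278 26843546 false true true .pnn 0 1 1
    ndF1q0 ndF1q1 pcF1 Cut.none Ext.none :=
  certFX0 (fam := false) (s1 := true) (s2 := true) (a := 0) (b := 1) (c := 1) (cn := .pnn) (n1 := ndF1q0) (n2 := ndF1q1) (pc := pcF1) (cut := Cut.none) (xt := Ext.none) (P1 := 67108864) (W1 := 469762048) (P2 := 536870912) (W2 := 536870912) (P3 := 1046898278) (W3 := 26843546)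
    rfl k0_pp_011

noncomputable def f_pp_012_a : ℕ → ℕ → ℕ → ℕ → Bool := onCell 536870912 536870912 0 420477299 1046898278 26843546
    (rowFX 2 false true true .pnp 0 1 2 (qsf 67108864 469762048 0 420477299 1) ndF1q0 ndF1q2a pcF1 Cut.none Ext.none)

def k0_pp_012_a : ∃ t, chk3 f_pp_012_a t 2 2 1 = true :=
  ⟨(a (l 2) (a (b (a (b (c (l 192300449799) (l 186931740679)) (a (l 2) (a (l 2) (c (c (l 157470949335) (l 153712852951)) (c (l 147807272919) (l 16777216)))))) (c (a (b (l 16777216) (c (l 16777216) (l 16777216))) (c (l 16777216) (l 16777216))) (b (a (l 16777216) (l 16777216)) (a (c (l 16777216) (l 16777216)) (l 16777216))))) (b (a (b (a (l 2) (c (c (l 302962966535) (l 299204870151)) (c (l 297057386503) (l 297594257415)))) (l 3)) (a (b (c (c (b (l 192904429527) (l 269676969975)) (b (l 187535720407) (l 262160777207))) (a (c (l 238538457095) (l 228874780679)) (c (l 192904429575) (l 183240753063)))) (l 3)) (b (c (c (l 155860336599) (l 151028498343)) (c (l 16777216) (l 16777216))) (c (c (a (l 299741741047)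 (l 241759682551)) (a (l 289541193719) (l 236390973431))) (c (a (l 280951259127) (l 228874780663)) (l 240685940727)))))) (l 3))) (b (a (c (b (l 16777216) (l 16777216)) (b (l 16777216) (l 16777216))) (c (b (l 16777216) (l 16777216)) (b (l 16777216) (l 16777216)))) (c (c (b (a (a (b (l 16777216) (l 180556398583)) (l 16777208)) (l 16777208)) (a (b (a (l 297594257399) (b (l 16777208) (l 242296553463))) (l 330880253927)) (b (l 16777208) (a (b (l 192367558631) (l 307794804711)) (l 16777200))))) (b (a (b (l 16777216) (a (l 174650818551) (l 16777208))) (l 16777208)) (a (b (a (l 286319968247) (b (l 16777208) (l 233706618871))) (l 319069093863)) (b (l 16777208) (a (b (l 212231782375) (l 293299290087)) (l 137069854679)))))) (c (b (a (a (b (l 16777216) (l 165524013047)) (l 16777208)) (l 16777208)) (a (b (a (l 276656291831) (b (l 16777208) (l 225653555191))) (l 308331675623)) (b (l 16777208) (a (b (l 198273138663) (l 278803775463)) (l 16777200))))) (b (a (a (l 135459241975) (l 16777208)) (l 16777208)) (a (b (a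 (l 268066357239) (l 187535720439)) (l 299204870119)) (b (l 16777208) (a (l 217600491495) (l 16777200)))))))))), by decide +kernel⟩

def k1_pp_012_a : ∃ t, chk3 f_pp_012_a t 2 3 1 = true :=
  ⟨(a (l 3) (b (a (l 3) (b (a (l 3) (b (a (l 3) (c (c (l 283635613655) (l 271287582679)) (c (l 259476422615) (l 247665262551)))) (l 3))) (l 3))) (l 3))), by decide +kernel⟩

def k2_pp_012_a : ∃ t, chk3 f_pp_012_a t 6 2 1 = true :=
  ⟨(a (a (b (c (b (l 16777200) (l 16777208)) (b (a (l 16777216) (l 16777192)) (l 16777200))) (b (c (l 16777200) (l 16777200)) (c (c (l 16777200) (l 16777200)) (c (l 16777200) (l 16777200))))) (b (b (l 16768320) (c (a (l 16772744) (l 16764456)) (a (l 16772632) (l 16764128)))) (c (c (l 16771936) (l 16771864)) (c (l 16771800) (l 16771728))))) (b (a (a (b (l 16756080) (c (l 16755888) (l 16755328))) (c (l 16747872) (l 16747104))) (a (l 16739272) (l 16777024))) (a (c (a (l 16761688) (b (l 16749384) (l 16756816))) (a (l 16761280) (b (l 16748664) (l 16756280)))) (a (b (c (l 16739704) (l 16717760))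 (c (l 16747808) (l 16747040))) (b (b (l 16775632) (c (l 16711624) (a (l 16754456) (l 16749080)))) (c (l 16708016) (a (l 16759032) (l 16745976)))))))), by decide +kernel⟩

def k3_pp_012_a : ∃ t, chk3 f_pp_012_a t 6 3 1 = true :=
  ⟨(b (a (a (b (a (b (c (c (l 163376529367) (l 160692174807)) (c (l 159081562071) (l 157470949335))) (a (l 3) (c (l 294373031879) (l 276119420871)))) (b (c (l 16777192) (l 16777192)) (c (c (l 187535720391) (l 183777624007)) (c (l 183777624007) (l 186998849479))))) (l 3)) (b (c (a (c (l 16776432) (l 16776416)) (c (l 16773904) (l 16773864))) (a (c (l 16776408) (l 16776392)) (c (l 16773816) (l 16773776)))) (a (b (c (c (l 216526749495) (l 215453007671)) (c (l 213842394935) (l 212231782183))) (l 3)) (c (b (c (l 16776320) (l 16776304)) (l 268066346567)) (b (c (l 102173240647) (l 107541948103)) (b (l 251960229623) (l 3))))))) (a (c (a (b (l 16769824) (c (l 97878272487) (l 96267650839))) (b (l 16764272) (l 16771736))) (b (a (l 16769632) (l 16763936)) (a (b (l 16773800) (a (l 146196657223)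 (l 16775864))) (l 16771592)))) (a (c (b (l 16757256) (l 16766720)) (b (l 16756736) (l 16766440))) (c (a (b (l 16765744) (l 16751040)) (l 16719272)) (a (b (l 16765440) (l 16750896)) (b (l 16741528) (l 16737048))))))) (a (l 3) (b (a (b (b (c (a (l 268066356263) (l 96804518343)) (a (l 284172483591) (c (l 16775696) (l 16775656)))) (a (l 3) (c (l 207399843831) (l 217063520455)))) (l 3)) (a (c (b (b (l 16772304) (l 16748768)) (b (l 147807074967) (l 227263867351))) (b (b (l 16772112) (l 16747776)) (c (l 175724254151) (l 174650512391)))) (b (c (a (b (l 16775576) (l 16729912)) (l 16667552)) (a (b (l 16754504) (l 16729280)) (b (l 16733928) (l 16713688)))) (c (a (a (l 16680608) (b (l 16710528) (l 16661600))) (b (l 16690384) (l 16676656))) (a (a (l 16636016) (b (l 16709648) (l 16659320))) (b (l 16667400) (l 16675512))))))) (a (l 3) (a (l 3) (a (l 3) (b (c (l 174113583095) (l 169281544071)) (l 3)))))))), by decide +kernel⟩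

def k4_pp_012_a : ∃ t, chk3 f_pp_012_a t 14 1 1 = true :=
  ⟨(a (b (b (l 16624024) (a (b (c (l 16677576) (l 16674992)) (c (l 16671576) (l 16668832))) (b (l 16581392) (c (l 16571808) (l 16566472))))) (b (a (a (c (l 16688784) (l 16665520)) (b (l 16596368) (b (l 16633848) (c (l 16644600) (l 16641176))))) (b (c (l 16569592) (l 16543240)) (b (c (l 16593320) (l 16588624)) (c (l 16641304) (l 16637984))))) (b (c (b (a (b (a (l 16686824) (l 16673064)) (a (l 16684240) (l 16689784))) (b (l 16691968) (l 16709016))) (a (l 16691064) (l 16715864))) (b (a (b (a (l 16684480) (l 16670440)) (a (l 16681792) (l 16687568))) (b (l 16690128) (l 16707584))) (a (l 16667848) (l 16714392)))) (b (c (a (b (l 16691896) (l 112910359127)) (l 16660792)) (a (b (l 16670688) (l 109152067943)) (l 16658032))) (b (c (a (l 115594343559) (a (l 16599728) (l 16674912))) (a (l 182166336327) (a (l 16611096) (l 16669304)))) (a (l 3) (a (l 3) (c (a (l 151564822631) (l 189682712231)) (l 16528224))))))))) (b (b (a (l 16519712) (l 16453320)) (b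 (l 16429272) (a (c (l 16488488) (l 16460056)) (c (l 16483816) (l 16476552))))) (c (b (b (a (l 16533384) (l 16562536)) (a (l 16638488) (l 16673000))) (b (b (a (l 16688312) (b (l 16698120) (l 16689544))) (a (l 16744320) (a (l 16717208) (l 16687872)))) (b (a (l 16724520) (a (l 16746896) (l 16729008))) (a (b (l 16718696) (a (b (l 16669216) (l 112910227079)) (l 16627568))) (b (l 16744768) (l 16698936)))))) (b (b (a (l 16527256) (l 16557640)) (a (l 16593504) (l 16671400))) (b (b (a (l 16667000) (b (l 16697192) (l 16688248))) (a (l 16723104) (a (l 16716408) (l 16686368)))) (b (a (l 16723896) (a (l 16746600) (l 16728368))) (a (b (l 16675808) (a (l 84992885063) (b (l 16734328) (l 16682072)))) (b (l 16723208) (l 16676480))))))))), by decide +kernel⟩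

def k5_pp_012_a : ∃ t, chk3 f_pp_012_a t 15 2 1 = true :=
  ⟨(b (a (l 16440512) (a (l 16610136) (l 16667832))) (a (b (l 16514592) (l 16515224)) (a (l 16615768) (l 16563672)))), by decide +kernel⟩

def k6_pp_012_a : ∃ t, chk3 f_pp_012_a t 15 6 1 = true :=
  ⟨(b (a (a (b (c (l 16579928) (l 16575984)) (c (l 16626744) (l 16624200))) (b (l 16635744) (c (a (l 16664520) (l 16693200)) (l 16615104)))) (a (a (a (a (c (l 16687048) (l 16686952)) (l 16676440)) (l 16663024)) (l 16639936)) (l 16600112))) (a (a (b (l 16679728) (l 16641896)) (c (a (l 16663840) (l 16635576)) (l 16545544))) (a (c (a (c (b (l 16626336) (l 16598664)) (l 16609280)) (c (l 16528032) (b (l 16583856) (l 16575928)))) (a (l 16607408) (l 16564928))) (c (a (b (a (l 16547416) (l 16577168)) (l 16512856)) (l 16481856)) (a (c (b (l 16518328) (l 16550928)) (l 16563152)) (b (l 16553888) (c (l 16526440) (a (l 16530352) (l 16497040))))))))), by decide +kernel⟩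

def k7_pp_012_a : ∃ t, chk3 f_pp_012_a t 15 7 1 = true :=
  ⟨(a (b (a (c (b (b (l 16639296) (l 16635832)) (l 16622560)) (b (b (l 16636960) (l 16633288)) (l 16620648))) (c (a (b (l 16609688) (l 16651600)) (b (l 16595360) (l 16638720))) (b (l 16578744) (l 16622416)))) (c (a (b (l 16700928) (c (l 16667072) (l 16666408))) (a (b (l 16715760) (l 16668160)) (b (l 16704392) (c (b (l 16702528) (l 16655440)) (l 16648208))))) (a (b (l 16700384) (c (l 16665736) (l 16665072))) (b (a (l 16715320) (l 16703936)) (a (l 16666576) (b (l 16701528) (l 16653280))))))) (b (c (a (b (c (a (l 16579144) (l 16561016)) (l 16502848)) (c (a (l 16623264) (l 16606616)) (a (l 16618472) (l 16600232)))) (a (b (c (l 16538880) (l 16535088)) (c (l 16577624) (l 16573256))) (b (l 16486552) (l 16525136)))) (a (b (l 16561432) (l 16584616)) (a (b (c (l 16530704) (l 16527592)) (c (l 16525984) (l 16564688))) (c (b (l 16503152) (l 16520528)) (b (a (l 16509704) (l 16429440)) (a (l 16532344) (l 16501744))))))) (c (a (c (a (b (l 16688864) (b (l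 16674720) (l 16684056))) (b (l 16661136) (l 16660744))) (b (a (l 16683696) (b (l 16623464) (l 16667200))) (a (l 16676608) (b (l 16683984) (l 16681824))))) (a (b (c (l 16611344) (l 16606224)) (c (l 16622832) (l 16553904))) (b (l 16543208) (b (l 16564056) (l 16581592))))) (c (a (b (l 16622112) (a (l 16697264) (l 16688472))) (a (b (l 16536832) (a (l 16623776) (l 16574008))) (b (l 16538264) (a (l 16585848) (l 16548888))))) (a (b (l 16663296) (a (l 16697072) (l 16688160))) (a (b (l 16596256) (l 16626200)) (b (a (l 16549968) (l 16517888)) (a (l 16558728) (b (l 16538176) (l 16535200)))))))))), by decide +kernel⟩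

theorem s8_pp_012_a : ∃ t, chk3 f_pp_012_a t 15 3 1 = true := ex3_b k6_pp_012_a k7_pp_012_a

theorem s9_pp_012_a : ∃ t, chk3 f_pp_012_a t 15 1 1 = true := ex3_b k5_pp_012_a s8_pp_012_a

theorem s10_pp_012_a : ∃ t, chk3 f_pp_012_a t 7 1 1 = true := ex3_a k4_pp_012_a s9_pp_012_a

theorem s11_pp_012_a : ∃ t, chk3 f_pp_012_a t 6 1 1 = true := ex3_b k2_pp_012_a k3_pp_012_a

theorem s12_pp_012_a : ∃ t, chk3 f_pp_012_a t 3 1 1 = true := ex3_a s11_pp_012_a s10_pp_012_a

theorem s13_pp_012_a : ∃ t, chk3 f_pp_012_a t 2 1 1 = true := ex3_b k0_pp_012_a k1_pp_012_a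

theorem s14_pp_012_a : ∃ t, chk3 f_pp_012_a t 1 1 1 = true := ex3_a s13_pp_012_a s12_pp_012_a

theorem c_pp_012_a : CertFX 67108864 469762048 0 420477299 1046898278 26843546 false true true .pnp 0 1 2
    ndF1q0 ndF1q2a pcF1 Cut.none Ext.none :=
  certFX2 (fam := false) (s1 := true) (s2 := true) (a := 0) (b := 1) (c := 2) (cn := .pnp) (n1 := ndF1q0) (n2 := ndF1q2a) (pc := pcF1) (cut := Cut.none) (xt := Ext.none) (P1 := 67108864) (W1 := 469762048) (P2 := 0) (W2 := 420477299) (P3 := 1046898278) (W3 := 26843546)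
    rfl (fun _ => rfl) s14_pp_012_a

noncomputable def f_pp_012_b : ℕ → ℕ → ℕ → ℕ → Bool := onCell 536870912 536870912 1239849684 370763052 1046898278 26843546
    (rowFX 2 false true true .pnp 0 1 2 (qsf 67108864 469762048 1239849684 370763052 1) ndF1q0 ndF1q2b pcF1 Cut.none Ext.none)

def k0_pp_012_b : ∃ t, chk3 f_pp_012_b t 1 1 1 = true :=
  ⟨(a (a (l 2) (b (b (a (c (a (l 199816642567) (l 16777216)) (a (l 191763578807) (l 16777216))) (a (c (l 16777216) (l 16777216)) (c (l 16777216) (l 16777216)))) (a (l 2) (c (l 16777216) (l 16777216)))) (l 2))) (a (b (b (a (l 16772816) (a (l 16752464) (a (l 16740688) (l 16775680)))) (a (a (c (l 16777200) (l 16777200)) (l 16768328)) (a (l 16752168) (l 16758336)))) (a (l 2) (b (l 16755176) (l 2)))) (b (a (b (a (l 16655600) (l 16502432)) (l 16575496)) (b (a (b (b (l 16327600) (l 16374360)) (l 16362912)) (b (a (l 16339032) (l 16516792)) (b (l 16275944) (l 16238712)))) (l 16235872))) (a (a (l 16647984) (l 16490464)) (a (l 16350808) (l 16229112)))))), by decide +kernel⟩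

theorem c_pp_012_b : CertFX 67108864 469762048 1239849684 370763052 1046898278 26843546 false true true .pnp 0 1 2
    ndF1q0 ndF1q2b pcF1 Cut.none Ext.none :=
  certFX2 (fam := false) (s1 := true) (s2 := true) (a := 0) (b := 1) (c := 2) (cn := .pnp) (n1 := ndF1q0) (n2 := ndF1q2b) (pc := pcF1) (cut := Cut.none) (xt := Ext.none) (P1 := 67108864) (W1 := 469762048) (P2 := 1239849684) (W2 := 370763052) (P3 := 1046898278) (W3 := 26843546)
    rfl (fun _ => rfl) k0_pp_012_b

noncomputable def f_pp_022_a : ℕ → ℕ → ℕ → ℕ → Bool := onCell 1073741824 536870912 0 420477299 1046898278 26843546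
    (rowFX 2 false true true .pp 0 2 2 (qsf 67108864 469762048 0 420477299 2) ndF1q0 ndF1q2a pcF2 Cut.none Ext.none)

def k0_pp_022_a : ∃ t, chk3 f_pp_022_a t 4 2 1 = true :=
  ⟨(b (a (a (b (l 16445008) (a (l 16600968) (l 16581216))) (a (l 16518000) (c (l 16549792) (l 16548464)))) (a (c (a (l 16548664) (a (l 16483568) (l 16475560))) (a (l 16547608) (l 16456792))) (l 1))) (a (a (b (a (l 16608544) (l 16610408)) (a (l 16506984) (l 16524880))) (c (a (b (l 16610224) (l 16525768)) (l 16377496)) (b (l 16524296) (l 16393872)))) (a (c (a (b (l 16497520) (c (l 16361904) (l 16426672))) (b (c (l 16451648) (l 16460352)) (c (l 16342488) (l 16419336)))) (a (b (l 16494768) (l 16423272)) (l 16337320))) (l 1)))), by decide +kernel⟩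

def k1_pp_022_a : ∃ t, chk3 f_pp_022_a t 4 6 1 = true :=
  ⟨(b (a (a (a (l 16384000) (c (l 16390848) (l 16404368))) (c (a (l 16397616) (l 16232680)) (a (l 16390320) (l 16351648)))) (a (a (a (c (l 16255280) (l 16339448)) (l 1)) (l 1)) (l 1))) (a (a (c (a (b (l 16281368) (l 16189304)) (l 16239912)) (a (l 16198088) (l 16227256))) (c (a (b (l 16270944) (l 16172704)) (c (b (l 16254184) (l 16177504)) (l 16224088))) (a (l 16208576) (l 16218064)))) (l 1))), by decide +kernel⟩

def k2_pp_022_a : ∃ t, chk3 f_pp_022_a t 8 14 1 = true :=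
  ⟨(a (b (c (b (a (l 16107928) (l 16100768)) (l 16066304)) (a (l 16070056) (l 16065360))) (b (a (c (l 16042704) (l 16023848)) (c (a (l 16043464) (l 16046072)) (l 16025112))) (c (a (a (b (l 16023504) (c (l 16003168) (l 16014384))) (b (l 16025472) (c (a (l 16026440) (l 16007176)) (c (l 16020376) (l 16015800))))) (c (a (a (l 16010056) (c (l 16013368) (l 16009424))) (c (a (l 139618444471) (l 16021824)) (l 16043920))) (a (a (l 16021848) (l 16002824)) (l 16038072)))) (a (a (b (l 16003992) (c (a (l 16003528) (l 16005528)) (a (l 15993864) (l 15996112)))) (c (l 16010480) (l 16001200))) (c (a (c (l 16015288) (l 16010792)) (c (l 16031680) (l 16027272))) (a (l 16003896) (l 16020584))))))) (a (b (c (c (b (l 16099640) (l 68751491543)) (l 16090056)) (l 16078120)) (b (c (c (l 883184644311) (l 16076056)) (l 16066352)) (l 1))) (l 1))), by decide +kernel⟩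

def k3_pp_022_a : ∃ t, chk3 f_pp_022_a t 8 15 1 = true :=
  ⟨(a (b (a (c (a (c (c (l 16065336) (l 16060744)) (c (l 16056160) (l 16051680))) (c (a (b (l 16042800) (l 16067656)) (b (l 16019912) (c (l 16063000) (l 16062208)))) (a (b (l 16034216) (l 16060336)) (l 16045232)))) (a (c (a (l 16047344) (l 16043144)) (c (l 15997744) (a (l 16037048) (l 16034832)))) (c (b (l 16026536) (l 16055344)) (c (l 16035176) (l 16031184))))) (a (c (c (c (b (c (l 16041952) (l 16043792)) (a (l 16059184) (l 1))) (a (l 16052784) (l 16056472))) (c (l 16054664) (l 16052328))) (c (c (l 16050160) (l 16047456)) (l 16041416))) (l 1))) (a (b (c (a (c (a (l 16125992) (l 16111168)) (a (l 16117568) (l 16103496))) (a (c (c (l 16100464) (l 16100672)) (l 16096856)) (l 1))) (c (a (a (l 16109320) (l 16097344)) (l 16096752)) (a (a (c (l 16103848) (l 16101360)) (l 16093592)) (l 16093912)))) (a (c (c (c (a (l 16174400) (l 187400120343)) (l 16167480)) (a (l 16166880) (l 16154360))) (c (a (l 16159320) (l 16149736)) (a (c (l 16154632) (l 16153088))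 (l 16148384)))) (l 1))) (l 1))) (l 1)), by decide +kernel⟩

def k4_pp_022_a : ∃ t, chk3 f_pp_022_a t 9 7 1 = true :=
  ⟨(l 1), by decide +kernel⟩

def k5_pp_022_a : ∃ t, chk3 f_pp_022_a t 5 1 1 = true :=
  ⟨(l 1), by decide +kernel⟩

def k6_pp_022_a : ∃ t, chk3 f_pp_022_a t 3 1 1 = true :=
  ⟨(l 1), by decide +kernel⟩

theorem s7_pp_022_a : ∃ t, chk3 f_pp_022_a t 8 7 1 = true := ex3_b k2_pp_022_a k3_pp_022_a

theorem s8_pp_022_a : ∃ t, chk3 f_pp_022_a t 4 7 1 = true := ex3_a s7_pp_022_a k4_pp_022_a

theorem s9_pp_022_a : ∃ t, chk3 f_pp_022_a t 4 3 1 = true := ex3_b k1_pp_022_a s8_pp_022_a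

theorem s10_pp_022_a : ∃ t, chk3 f_pp_022_a t 4 1 1 = true := ex3_b k0_pp_022_a s9_pp_022_a

theorem s11_pp_022_a : ∃ t, chk3 f_pp_022_a t 2 1 1 = true := ex3_a s10_pp_022_a k5_pp_022_a

theorem s12_pp_022_a : ∃ t, chk3 f_pp_022_a t 1 1 1 = true := ex3_a s11_pp_022_a k6_pp_022_a

theorem c_pp_022_a : CertFX 67108864 469762048 0 420477299 1046898278 26843546 false true true .pp 0 2 2
    ndF1q0 ndF1q2a pcF2 Cut.none Ext.none :=
  certFX2 (fam := false) (s1 := true) (s2 := true) (a := 0) (b := 2) (c := 2) (cn := .pp) (n1 := ndF1q0) (n2 := ndF1q2a) (pc := pcF2) (cut := Cut.none) (xt := Ext.none) (P1 := 67108864) (W1 := 469762048) (P2 := 0) (W2 := 420477299) (P3 := 1046898278) (W3 := 26843546)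
    rfl (fun _ => rfl) s12_pp_022_a

noncomputable def f_pp_022_b : ℕ → ℕ → ℕ → ℕ → Bool := onCell 67108864 469762048 1073741824 536870912 1046898278 26843546
    (rowFX 1 false true true .pp 0 2 2 (qsf 67108864 469762048 1239849684 370763052 2) ndF1q0 ndF1q2b pcF2 Cut.none Ext.none)

def k0_pp_022_b : ∃ t, chk3 f_pp_022_b t 1 1 1 = true :=
  ⟨(b (b (a (a (a (b (a (l 1) (b (l 1) (c (l 125660548903) (l 16454504)))) (b (a (c (b (l 16288160) (l 227665853287)) (b (l 16365976) (l 16374144))) (a (c (l 16312768) (l 16376200)) (l 16195808))) (a (c (a (l 16287080) (l 16197016)) (l 16195848)) (c (l 16025808) (l 16011344))))) (b (b (a (b (l 16538568) (l 16462336)) (l 246992797959)) (a (l 16330256) (l 16158240))) (b (a (l 16073960) (l 16003672)) (l 15738696)))) (b (a (b (a (l 16072448) (l 15846176)) (l 15638360)) (l 15719464)) (a (b (l 15703712) (l 15430904)) (l 15260376)))) (b (a (b (l 15780560) (l 15666864)) (l 15728088)) (b (a (l 15561208) (l 15557720)) (l 15301416)))) (a (b (a (b (a (b (c (a (l 15937424)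 (l 15777776)) (a (l 15988624) (l 15756952))) (a (c (a (l 16162784) (l 16044296)) (l 16095592)) (l 15735448))) (b (l 15545312) (l 15669944))) (a (a (c (l 16110688) (l 16228712)) (a (l 16184192) (l 16338776))) (l 16135840))) (b (b (a (l 15222200) (l 15106464)) (a (l 15363656) (l 15254864))) (a (l 15895808) (l 15796536)))) (a (b (a (a (l 15632024) (a (l 15993312) (l 16099744))) (l 16324776)) (a (c (l 15471240) (l 15619168)) (l 16120104))) (b (a (l 16539888) (l 16453496)) (a (l 16596392) (l 16776768))))) (b (b (b (l 15104232) (l 15253192)) (l 15670056)) (b (l 16432496) (l 16776768))))) (a (b (a (a (b (c (l 15659648) (l 15618816)) (c (l 15659648) (l 15618816))) (b (l 16119824) (l 16119792))) (b (l 16689768) (l 16689696))) (a (a (b (l 15492184) (l 15618016)) (l 15973024)) (l 2))) (l 2))), by decide +kernel⟩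

theorem c_pp_022_b : CertFX 67108864 469762048 1239849684 370763052 1046898278 26843546 false true true .pp 0 2 2
    ndF1q0 ndF1q2b pcF2 Cut.none Ext.none :=
  certFX1 (fam := false) (s1 := true) (s2 := true) (a := 0) (b := 2) (c := 2) (cn := .pp) (n1 := ndF1q0) (n2 := ndF1q2b) (pc := pcF2) (cut := Cut.none) (xt := Ext.none) (P1 := 67108864) (W1 := 469762048) (P2 := 1239849684) (W2 := 370763052) (P3 := 1046898278) (W3 := 26843546)
    rfl (fun _ => rfl) k0_pp_022_b

noncomputable def f_pp_023 : ℕ → ℕ → ℕ → ℕ → Bool := onCell 67108864 469762048 1073741824 536870912 1046898278 26843546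
    (rowFX 1 false true true .up 0 2 3 (qsf 67108864 469762048 1610612736 469762048 2) ndF1q0 ndF1q3 pcF2 Cut.none Ext.none)

def k0_pp_023 : ∃ t, chk3 f_pp_023 t 1 1 1 = true :=
  ⟨(b (b (a (l 1) (b (a (l 1) (l 15728088)) (a (l 232495458807) (l 15172512)))) (a (b (l 1) (a (l 1) (b (l 868689619639) (l 418792187943)))) (b (b (b (l 15104232) (l 15253192)) (l 15649088)) (b (l 16411528) (l 16776768))))) (a (b (a (a (l 1) (b (l 1) (l 16119792))) (b (l 16668792) (l 16689696))) (a (a (b (l 15492184) (l 15597048)) (l 15931080)) (b (l 16689768) (l 16689768)))) (b (b (l 16777216) (l 16776736)) (b (l 16771080) (l 16768176))))), by decide +kernel⟩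

theorem c_pp_023 : CertFX 67108864 469762048 1610612736 469762048 1046898278 26843546 false true true .up 0 2 3
    ndF1q0 ndF1q3 pcF2 Cut.none Ext.none :=
  certFX1 (fam := false) (s1 := true) (s2 := true) (a := 0) (b := 2) (c := 3) (cn := .up) (n1 := ndF1q0) (n2 := ndF1q3) (pc := pcF2) (cut := Cut.none) (xt := Ext.none) (P1 := 67108864) (W1 := 469762048) (P2 := 1610612736) (W2 := 469762048) (P3 := 1046898278) (W3 := 26843546)
    rfl (fun _ => rfl) k0_pp_023

noncomputable def f_pp_033 : ℕ → ℕ → ℕ → ℕ → Bool := onCell 67108864 469762048 1610612736 536870912 1046898278 26843546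
    (rowFX 1 false true true .pnn 0 3 3 (qsf 67108864 469762048 1610612736 469762048 3) ndF1q0 ndF1q3 pcF3 Cut.none Ext.none)

def k0_pp_033 : ∃ t, chk3 f_pp_033 t 1 1 1 = true :=
  ⟨(b (a (b (a (c (a (b (l 15659648) (l 15659648)) (l 16128256)) (a (b (l 15618816) (l 15618816)) (l 16048480))) (b (l 16689760) (a (l 16596176) (l 16776632)))) (b (a (c (a (l 15659648) (l 16128248)) (a (l 15513960) (l 16111384))) (b (l 16622096) (l 4))) (l 4))) (b (b (l 16760648) (a (l 16764200) (l 2))) (a (b (b (l 16758584) (l 4)) (l 2)) (l 2)))) (a (b (a (l 4) (b (l 4) (l 2))) (a (b (l 4) (l 2)) (l 2))) (l 2))), by decide +kernel⟩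

theorem c_pp_033 : CertFX 67108864 469762048 1610612736 469762048 1046898278 26843546 false true true .pnn 0 3 3
    ndF1q0 ndF1q3 pcF3 Cut.none Ext.none :=
  certFX1 (fam := false) (s1 := true) (s2 := true) (a := 0) (b := 3) (c := 3) (cn := .pnn) (n1 := ndF1q0) (n2 := ndF1q3) (pc := pcF3) (cut := Cut.none) (xt := Ext.none) (P1 := 67108864) (W1 := 469762048) (P2 := 1610612736) (W2 := 469762048) (P3 := 1046898278) (W3 := 26843546)
    rfl (fun _ => rfl) k0_pp_033

noncomputable def f_pp_101 : ℕ → ℕ → ℕ → ℕ → Bool := onCell 536870912 536870912 536870912 536870912 1046898278 26843546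
    (rowFX 0 false true true .npn 1 0 1 (qsf 536870912 536870912 536870912 536870912 0) ndF1q1 ndF1q1 pcF0 Cut.none Ext.none)

def k0_pp_101 : ∃ t, chk3 f_pp_101 t 1 1 1 = true :=
  ⟨(l 3), by decide +kernel⟩

theorem c_pp_101 : CertFX 536870912 536870912 536870912 536870912 1046898278 26843546 false true true .npn 1 0 1
    ndF1q1 ndF1q1 pcF0 Cut.none Ext.none :=
  certFX0 (fam := false) (s1 := true) (s2 := true) (a := 1) (b := 0) (c := 1) (cn := .npn) (n1 := ndF1q1) (n2 := ndF1q1) (pc := pcF0) (cut := Cut.none) (xt := Ext.none) (P1 := 536870912) (W1 := 536870912) (P2 := 536870912) (W2 := 536870912) (P3 := 1046898278) (W3 := 26843546)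
    rfl k0_pp_101

noncomputable def f_pp_102_a : ℕ → ℕ → ℕ → ℕ → Bool := onCell 0 536870912 0 420477299 1046898278 26843546
    (rowFX 2 false true true .npp 1 0 2 (qsf 536870912 536870912 0 420477299 0) ndF1q1 ndF1q2a pcF0 Cut.none Ext.none)

def k0_pp_102_a : ∃ t, chk3 f_pp_102_a t 1 1 1 = true :=
  ⟨(a (l 3) (l 3)), by decide +kernel⟩

theorem c_pp_102_a : CertFX 536870912 536870912 0 420477299 1046898278 26843546 false true true .npp 1 0 2
    ndF1q1 ndF1q2a pcF0 Cut.none Ext.none :=
  certFX2 (fam := false) (s1 := true) (s2 := true) (a := 1) (b := 0) (c := 2) (cn := .npp) (n1 := ndF1q1) (n2 := ndF1q2a) (pc := pcF0) (cut := Cut.none) (xt := Ext.none) (P1 := 536870912) (W1 := 536870912) (P2 := 0) (W2 := 420477299) (P3 := 1046898278) (W3 := 26843546)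
    rfl (fun _ => rfl) k0_pp_102_a

noncomputable def f_pp_102_b : ℕ → ℕ → ℕ → ℕ → Bool := onCell 536870912 536870912 0 536870912 1046898278 26843546
    (rowFX 1 false true true .npp 1 0 2 (qsf 536870912 536870912 1239849684 370763052 0) ndF1q1 ndF1q2b pcF0 Cut.none Ext.none)

def k0_pp_102_b : ∃ t, chk3 f_pp_102_b t 1 1 1 = true :=
  ⟨(a (a (l 1) (l 3)) (l 3)), by decide +kernel⟩

theorem c_pp_102_b : CertFX 536870912 536870912 1239849684 370763052 1046898278 26843546 false true true .npp 1 0 2
    ndF1q1 ndF1q2b pcF0 Cut.none Ext.none :=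
  certFX1 (fam := false) (s1 := true) (s2 := true) (a := 1) (b := 0) (c := 2) (cn := .npp) (n1 := ndF1q1) (n2 := ndF1q2b) (pc := pcF0) (cut := Cut.none) (xt := Ext.none) (P1 := 536870912) (W1 := 536870912) (P2 := 1239849684) (W2 := 370763052) (P3 := 1046898278) (W3 := 26843546)
    rfl (fun _ => rfl) k0_pp_102_b

noncomputable def f_pp_112_a : ℕ → ℕ → ℕ → ℕ → Bool := onCell 536870912 536870912 0 420477299 1046898278 26843546
    (rowFX 0 false true true .dn 1 1 2 (qsf 536870912 536870912 0 420477299 1) ndF1q1 ndF1q2a pcF1 Cut.none Ext.none)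

def k0_pp_112_a : ∃ t, chk3 f_pp_112_a t 1 1 1 = true :=
  ⟨(a (b (a (a (b (b (a (c (c (l 16777216) (l 16777216)) (c (l 16777216) (l 16777216))) (a (c (c (l 16777216) (l 16777216)) (c (l 16777216) (l 16777216))) (b (c (l 16777216) (l 16777216)) (c (b (a (l 16777216) (l 16777216)) (a (l 203641847815) (l 281488130055))) (c (a (l 168745238535) (l 226727297031)) (l 190220074999)))))) (a (c (c (b (a (l 16777216) (b (l 16777216) (l 200957493239))) (a (b (l 184314494935) (l 262160777223)) (l 294373031943))) (b (a (l 16777216) (b (l 16777216) (l 186998849527))) (a (b (l 167134625751) (a (l 234243489799) (l 298667999239))) (b (l 276119420935) (l 3))))) (c (b (a (l 16777216) (b (l 16777216) (l 174650818519))) (a (a (l 193441300487) (l 234780360711)) (l 282561871879))) (b (a (l 16777216) (l 144586047447)) (a (b (l 16777216) (l 240685940743)) (l 273971937287))))) (b (b (a (c (c (l 218137362439) (l 207399944199)) (c (l 198273138679) (l 190756945879))) (c (l 316921610247) (l 303499837447))) (a (a (c (l 290078064647)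 (l 276119420935)) (l 3)) (l 3))) (l 3)))) (l 3)) (b (b (a (a (c (b (a (l 16777216) (c (l 177335173127) (l 176261431303))) (b (a (l 248202133511) (l 311016030215)) (l 3))) (b (c (l 165524013063) (l 165524013063)) (c (l 275582550023) (l 266455744519)))) (b (c (c (b (l 220284846087) (l 298131128327)) (b (l 217600491527) (l 286319968263))) (c (b (l 199883751431) (l 279877517319)) (l 233169747975))) (l 3))) (a (c (c (l 325511544839) (l 316921610247)) (c (l 309942288391) (l 299741741063))) (l 3))) (l 3)) (l 3))) (l 3)) (l 3)) (l 1)), by decide +kernel⟩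

theorem c_pp_112_a : CertFX 536870912 536870912 0 420477299 1046898278 26843546 false true true .dn 1 1 2
    ndF1q1 ndF1q2a pcF1 Cut.none Ext.none :=
  certFX0 (fam := false) (s1 := true) (s2 := true) (a := 1) (b := 1) (c := 2) (cn := .dn) (n1 := ndF1q1) (n2 := ndF1q2a) (pc := pcF1) (cut := Cut.none) (xt := Ext.none) (P1 := 536870912) (W1 := 536870912) (P2 := 0) (W2 := 420477299) (P3 := 1046898278) (W3 := 26843546)
    rfl k0_pp_112_a

noncomputable def f_pp_112_b : ℕ → ℕ → ℕ → ℕ → Bool := onCell 536870912 536870912 1239849684 370763052 1046898278 26843546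
    (rowFX 2 false true true .dn 1 1 2 (qsf 536870912 536870912 1239849684 370763052 1) ndF1q1 ndF1q2b pcF1 Cut.none Ext.none)

def k0_pp_112_b : ∃ t, chk3 f_pp_112_b t 1 1 1 = true :=
  ⟨(a (a (b (a (a (l 3) (b (a (l 3) (a (l 3) (b (c (c (l 306721062919) (l 293836161031)) (c (l 274508808199) (l 16777216))) (l 3)))) (l 3))) (a (b (c (a (b (b (c (l 16777216) (l 16777216)) (l 256792068103)) (l 313163513863)) (b (l 16777216) (l 16777216))) (b (a (c (l 16777216) (l 16777216)) (l 16777216)) (l 212768653319))) (c (l 297594257415) (l 16777216))) (b (c (c (l 16777216) (l 16777216)) (b (l 16777216) (l 16777216))) (c (l 16777216) (l 16777216))))) (a (l 3) (a (l 3) (b (l 3) (l 3))))) (a (b (b (c (a (b (l 16777216) (l 16777216)) (l 16777216)) (a (b (l 16777216) (l 16777216)) (l 16777216))) (a (l 16777216) (l 16777216))) (a (b (l 16777048) (l 3)) (b (l 16777216) (l 16767832)))) (a (b (b (c (l 16777216) (l 16777216)) (l 16777216)) (l 16775888)) (b (b (c (l 16777216) (l 16777216)) (l 16777216)) (l 16777216)))))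 (b (a (b (l 1) (a (a (l 16777200) (l 16768328)) (l 196528028663))) (l 1)) (a (a (a (c (l 16777208) (l 16777208)) (c (l 16768920) (l 16768712))) (a (b (l 16751696) (l 16751528)) (l 16758312))) (a (a (l 16647984) (l 16490464)) (l 238939733191))))), by decide +kernel⟩

theorem c_pp_112_b : CertFX 536870912 536870912 1239849684 370763052 1046898278 26843546 false true true .dn 1 1 2
    ndF1q1 ndF1q2b pcF1 Cut.none Ext.none :=
  certFX2 (fam := false) (s1 := true) (s2 := true) (a := 1) (b := 1) (c := 2) (cn := .dn) (n1 := ndF1q1) (n2 := ndF1q2b) (pc := pcF1) (cut := Cut.none) (xt := Ext.none) (P1 := 536870912) (W1 := 536870912) (P2 := 1239849684) (W2 := 370763052) (P3 := 1046898278) (W3 := 26843546)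
    rfl (fun _ => rfl) k0_pp_112_b

noncomputable def f_pp_113 : ℕ → ℕ → ℕ → ℕ → Bool := onCell 536870912 536870912 536870912 536870912 1046898278 26843546
    (rowFX 1 false true true .nn 1 1 3 (qsf 536870912 536870912 1610612736 469762048 1) ndF1q1 ndF1q3 pcF1 Cut.none Ext.none)

def k0_pp_113 : ∃ t, chk3 f_pp_113 t 1 1 1 = true :=
  ⟨(b (a (b (l 1) (b (l 1) (a (l 1) (l 16777216)))) (b (l 3) (a (b (a (l 428456503559) (l 3)) (a (l 16772632) (c (l 16754640) (l 16754048)))) (b (l 3) (l 3))))) (b (b (a (a (l 1) (b (l 16777208) (l 16769376))) (a (a (l 16773616) (b (l 16754344) (l 16756312))) (a (b (l 16517520) (l 16518472)) (l 282560125319)))) (a (a (l 381211621735) (b (l 16752336) (b (l 16738536) (l 16776104)))) (a (b (l 16769128) (a (l 16763968) (l 16760560))) (a (b (l 16524136) (l 16435472)) (b (l 16072968) (b (l 16118048) (l 16096552))))))) (a (b (a (l 16563048) (l 16546976)) (a (l 16271256) (l 16238544))) (b (a (b (l 16636040) (a (l 16444648) (l 16441784))) (a (b (l 16368984) (l 16182656)) (b (l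 15970216) (l 15814120)))) (a (l 16204480) (b (a (b (l 16047464) (l 15966120)) (b (l 15724048) (l 15691416))) (a (l 15868744) (b (c (l 447311789271) (l 15527376)) (a (l 15694072) (l 2)))))))))), by decide +kernel⟩

theorem c_pp_113 : CertFX 536870912 536870912 1610612736 469762048 1046898278 26843546 false true true .nn 1 1 3
    ndF1q1 ndF1q3 pcF1 Cut.none Ext.none :=
  certFX1 (fam := false) (s1 := true) (s2 := true) (a := 1) (b := 1) (c := 3) (cn := .nn) (n1 := ndF1q1) (n2 := ndF1q3) (pc := pcF1) (cut := Cut.none) (xt := Ext.none) (P1 := 536870912) (W1 := 536870912) (P2 := 1610612736) (W2 := 469762048) (P3 := 1046898278) (W3 := 26843546)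
    rfl (fun _ => rfl) k0_pp_113

noncomputable def f_pp_123 : ℕ → ℕ → ℕ → ℕ → Bool := onCell 1073741824 536870912 1610612736 469762048 1046898278 26843546
    (rowFX 2 false true true .npn 1 2 3 (qsf 536870912 536870912 1610612736 469762048 2) ndF1q1 ndF1q3 pcF2 Cut.none Ext.none)

def k0_pp_123 : ∃ t, chk3 f_pp_123 t 1 1 1 = true :=
  ⟨(b (a (a (a (b (l 15615856) (l 15767856)) (b (l 15212392) (l 15305616))) (a (a (a (l 15096424) (l 15247768)) (l 15646608)) (a (l 16390168) (l 16776768)))) (l 1)) (a (a (a (b (l 15808448) (b (l 15847752) (a (l 15952000) (l 15731208)))) (b (l 15371136) (a (l 15516912) (l 15238576)))) (a (a (a (b (l 15068936) (l 15041352)) (b (l 15224712) (l 15201680))) (b (l 15780712) (l 15769168))) (a (b (l 16449832) (l 16450008)) (l 16771368)))) (a (a (l 16770864) (l 16771824)) (l 16771616)))), by decide +kernel⟩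

theorem c_pp_123 : CertFX 536870912 536870912 1610612736 469762048 1046898278 26843546 false true true .npn 1 2 3
    ndF1q1 ndF1q3 pcF2 Cut.none Ext.none :=
  certFX2 (fam := false) (s1 := true) (s2 := true) (a := 1) (b := 2) (c := 3) (cn := .npn) (n1 := ndF1q1) (n2 := ndF1q3) (pc := pcF2) (cut := Cut.none) (xt := Ext.none) (P1 := 536870912) (W1 := 536870912) (P2 := 1610612736) (W2 := 469762048) (P3 := 1046898278) (W3 := 26843546)
    rfl (fun _ => rfl) k0_pp_123

noncomputable def f_pp_133 : ℕ → ℕ → ℕ → ℕ → Bool := onCell 536870912 536870912 1610612736 469762048 1046898278 26843546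
    (rowFX 0 false true true .dn 1 3 3 (qsf 536870912 536870912 1610612736 469762048 3) ndF1q1 ndF1q3 pcF3 Cut.none Ext.none)

def k0_pp_133 : ∃ t, chk3 f_pp_133 t 1 1 1 = true :=
  ⟨(l 1), by decide +kernel⟩

theorem c_pp_133 : CertFX 536870912 536870912 1610612736 469762048 1046898278 26843546 false true true .dn 1 3 3
    ndF1q1 ndF1q3 pcF3 Cut.none Ext.none :=
  certFX0 (fam := false) (s1 := true) (s2 := true) (a := 1) (b := 3) (c := 3) (cn := .dn) (n1 := ndF1q1) (n2 := ndF1q3) (pc := pcF3) (cut := Cut.none) (xt := Ext.none) (P1 := 536870912) (W1 := 536870912) (P2 := 1610612736) (W2 := 469762048) (P3 := 1046898278) (W3 := 26843546)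
    rfl k0_pp_133

noncomputable def f_pp_202_aa : ℕ → ℕ → ℕ → ℕ → Bool := onCell 0 420477299 0 420477299 1046898278 26843546
    (rowFX 0 false true true .pp 2 0 2 (qsf 0 420477299 0 420477299 0) ndF1q2a ndF1q2a pcF0 Cut.none Ext.none)

def k0_pp_202_aa : ∃ t, chk3 f_pp_202_aa t 1 1 1 = true :=
  ⟨(l 3), by decide +kernel⟩

theorem c_pp_202_aa : CertFX 0 420477299 0 420477299 1046898278 26843546 false true true .pp 2 0 2
    ndF1q2a ndF1q2a pcF0 Cut.none Ext.none :=
  certFX0 (fam := false) (s1 := true) (s2 := true) (a := 2) (b := 0) (c := 2) (cn := .pp) (n1 := ndF1q2a) (n2 := ndF1q2a) (pc := pcF0) (cut := Cut.none) (xt := Ext.none) (P1 := 0) (W1 := 420477299) (P2 := 0) (W2 := 420477299) (P3 := 1046898278) (W3 := 26843546)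
    rfl k0_pp_202_aa

noncomputable def f_pp_202_ab : ℕ → ℕ → ℕ → ℕ → Bool := onCell 0 420477299 1239849684 370763052 1046898278 26843546
    (rowFX 0 false true true .pp 2 0 2 (qsf 0 420477299 1239849684 370763052 0) ndF1q2a ndF1q2b pcF0 Cut.none Ext.none)

def k0_pp_202_ab : ∃ t, chk3 f_pp_202_ab t 1 1 1 = true :=
  ⟨(l 3), by decide +kernel⟩

theorem c_pp_202_ab : CertFX 0 420477299 1239849684 370763052 1046898278 26843546 false true true .pp 2 0 2
    ndF1q2a ndF1q2b pcF0 Cut.none Ext.none :=
  certFX0 (fam := false) (s1 := true) (s2 := true) (a := 2) (b := 0) (c := 2) (cn := .pp) (n1 := ndF1q2a) (n2 := ndF1q2b) (pc := pcF0) (cut := Cut.none) (xt := Ext.none) (P1 := 0) (W1 := 420477299) (P2 := 1239849684) (W2 := 370763052) (P3 := 1046898278) (W3 := 26843546)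
    rfl k0_pp_202_ab

noncomputable def f_pp_202_ba : ℕ → ℕ → ℕ → ℕ → Bool := onCell 1239849684 370763052 0 420477299 1046898278 26843546
    (rowFX 0 false true true .pp 2 0 2 (qsf 1239849684 370763052 0 420477299 0) ndF1q2b ndF1q2a pcF0 Cut.none Ext.none)

def k0_pp_202_ba : ∃ t, chk3 f_pp_202_ba t 1 1 1 = true :=
  ⟨(l 3), by decide +kernel⟩

theorem c_pp_202_ba : CertFX 1239849684 370763052 0 420477299 1046898278 26843546 false true true .pp 2 0 2
    ndF1q2b ndF1q2a pcF0 Cut.none Ext.none :=
  certFX0 (fam := false) (s1 := true) (s2 := true) (a := 2) (b := 0) (c := 2) (cn := .pp) (n1 := ndF1q2b) (n2 := ndF1q2a) (pc := pcF0) (cut := Cut.none) (xt := Ext.none) (P1 := 1239849684) (W1 := 370763052) (P2 := 0) (W2 := 420477299) (P3 := 1046898278) (W3 := 26843546)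
    rfl k0_pp_202_ba

noncomputable def f_pp_202_bb : ℕ → ℕ → ℕ → ℕ → Bool := onCell 1239849684 370763052 1239849684 370763052 1046898278 26843546
    (rowFX 0 false true true .pp 2 0 2 (qsf 1239849684 370763052 1239849684 370763052 0) ndF1q2b ndF1q2b pcF0 Cut.none Ext.none)

def k0_pp_202_bb : ∃ t, chk3 f_pp_202_bb t 1 1 1 = true :=
  ⟨(l 3), by decide +kernel⟩

theorem c_pp_202_bb : CertFX 1239849684 370763052 1239849684 370763052 1046898278 26843546 false true true .pp 2 0 2
    ndF1q2b ndF1q2b pcF0 Cut.none Ext.none :=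
  certFX0 (fam := false) (s1 := true) (s2 := true) (a := 2) (b := 0) (c := 2) (cn := .pp) (n1 := ndF1q2b) (n2 := ndF1q2b) (pc := pcF0) (cut := Cut.none) (xt := Ext.none) (P1 := 1239849684) (W1 := 370763052) (P2 := 1239849684) (W2 := 370763052) (P3 := 1046898278) (W3 := 26843546)
    rfl k0_pp_202_bb

noncomputable def f_pp_203_a : ℕ → ℕ → ℕ → ℕ → Bool := onCell 0 420477299 1610612736 469762048 1046898278 26843546
    (rowFX 0 false true true .up 2 0 3 (qsf 0 420477299 1610612736 469762048 0) ndF1q2a ndF1q3 pcF0 Cut.none Ext.none)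

def k0_pp_203_a : ∃ t, chk3 f_pp_203_a t 1 1 1 = true :=
  ⟨(l 3), by decide +kernel⟩

theorem c_pp_203_a : CertFX 0 420477299 1610612736 469762048 1046898278 26843546 false true true .up 2 0 3
    ndF1q2a ndF1q3 pcF0 Cut.none Ext.none :=
  certFX0 (fam := false) (s1 := true) (s2 := true) (a := 2) (b := 0) (c := 3) (cn := .up) (n1 := ndF1q2a) (n2 := ndF1q3) (pc := pcF0) (cut := Cut.none) (xt := Ext.none) (P1 := 0) (W1 := 420477299) (P2 := 1610612736) (W2 := 469762048) (P3 := 1046898278) (W3 := 26843546)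
    rfl k0_pp_203_a

noncomputable def f_pp_203_b : ℕ → ℕ → ℕ → ℕ → Bool := onCell 1239849684 370763052 1610612736 469762048 1046898278 26843546
    (rowFX 0 false true true .up 2 0 3 (qsf 1239849684 370763052 1610612736 469762048 0) ndF1q2b ndF1q3 pcF0 Cut.none Ext.none)

def k0_pp_203_b : ∃ t, chk3 f_pp_203_b t 1 1 1 = true :=
  ⟨(l 3), by decide +kernel⟩

theorem c_pp_203_b : CertFX 1239849684 370763052 1610612736 469762048 1046898278 26843546 false true true .up 2 0 3
    ndF1q2b ndF1q3 pcF0 Cut.none Ext.none :=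
  certFX0 (fam := false) (s1 := true) (s2 := true) (a := 2) (b := 0) (c := 3) (cn := .up) (n1 := ndF1q2b) (n2 := ndF1q3) (pc := pcF0) (cut := Cut.none) (xt := Ext.none) (P1 := 1239849684) (W1 := 370763052) (P2 := 1610612736) (W2 := 469762048) (P3 := 1046898278) (W3 := 26843546)
    rfl k0_pp_203_b

noncomputable def f_pp_213_a : ℕ → ℕ → ℕ → ℕ → Bool := onCell 0 420477299 1610612736 469762048 1046898278 26843546
    (rowFX 0 false true true .pnn 2 1 3 (qsf 0 420477299 1610612736 469762048 1) ndF1q2a ndF1q3 pcF1 Cut.none Ext.none)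

def k0_pp_213_a : ∃ t, chk3 f_pp_213_a t 1 1 1 = true :=
  ⟨(l 3), by decide +kernel⟩

theorem c_pp_213_a : CertFX 0 420477299 1610612736 469762048 1046898278 26843546 false true true .pnn 2 1 3
    ndF1q2a ndF1q3 pcF1 Cut.none Ext.none :=
  certFX0 (fam := false) (s1 := true) (s2 := true) (a := 2) (b := 1) (c := 3) (cn := .pnn) (n1 := ndF1q2a) (n2 := ndF1q3) (pc := pcF1) (cut := Cut.none) (xt := Ext.none) (P1 := 0) (W1 := 420477299) (P2 := 1610612736) (W2 := 469762048) (P3 := 1046898278) (W3 := 26843546)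
    rfl k0_pp_213_a

noncomputable def f_pp_213_b : ℕ → ℕ → ℕ → ℕ → Bool := onCell 1239849684 370763052 1610612736 469762048 1046898278 26843546
    (rowFX 0 false true true .pnn 2 1 3 (qsf 1239849684 370763052 1610612736 469762048 1) ndF1q2b ndF1q3 pcF1 Cut.none Ext.none)

def k0_pp_213_b : ∃ t, chk3 f_pp_213_b t 1 1 1 = true :=
  ⟨(l 3), by decide +kernel⟩

theorem c_pp_213_b : CertFX 1239849684 370763052 1610612736 469762048 1046898278 26843546 false true true .pnn 2 1 3
    ndF1q2b ndF1q3 pcF1 Cut.none Ext.none :=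
  certFX0 (fam := false) (s1 := true) (s2 := true) (a := 2) (b := 1) (c := 3) (cn := .pnn) (n1 := ndF1q2b) (n2 := ndF1q3) (pc := pcF1) (cut := Cut.none) (xt := Ext.none) (P1 := 1239849684) (W1 := 370763052) (P2 := 1610612736) (W2 := 469762048) (P3 := 1046898278) (W3 := 26843546)
    rfl k0_pp_213_b

noncomputable def f_pp_303 : ℕ → ℕ → ℕ → ℕ → Bool := onCell 1610612736 469762048 1610612736 469762048 1046898278 26843546
    (rowFX 0 false true true .npn 3 0 3 (qsf 1610612736 469762048 1610612736 469762048 0) ndF1q3 ndF1q3 pcF0 Cut.none Ext.none)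

def k0_pp_303 : ∃ t, chk3 f_pp_303 t 1 1 1 = true :=
  ⟨(l 3), by decide +kernel⟩

theorem c_pp_303 : CertFX 1610612736 469762048 1610612736 469762048 1046898278 26843546 false true true .npn 3 0 3
    ndF1q3 ndF1q3 pcF0 Cut.none Ext.none :=
  certFX0 (fam := false) (s1 := true) (s2 := true) (a := 3) (b := 0) (c := 3) (cn := .npn) (n1 := ndF1q3) (n2 := ndF1q3) (pc := pcF0) (cut := Cut.none) (xt := Ext.none) (P1 := 1610612736) (W1 := 469762048) (P2 := 1610612736) (W2 := 469762048) (P3 := 1046898278) (W3 := 26843546)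
    rfl k0_pp_303

noncomputable def f_pp_313 : ℕ → ℕ → ℕ → ℕ → Bool := onCell 1610612736 469762048 1610612736 469762048 1046898278 26843546
    (rowFX 0 false true true .dn 3 1 3 (qsf 1610612736 469762048 1610612736 469762048 1) ndF1q3 ndF1q3 pcF1 Cut.none Ext.none)

def k0_pp_313 : ∃ t, chk3 f_pp_313 t 1 1 1 = true :=
  ⟨(l 1), by decide +kernel⟩

theorem c_pp_313 : CertFX 1610612736 469762048 1610612736 469762048 1046898278 26843546 false true true .dn 3 1 3
    ndF1q3 ndF1q3 pcF1 Cut.none Ext.none :=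
  certFX0 (fam := false) (s1 := true) (s2 := true) (a := 3) (b := 1) (c := 3) (cn := .dn) (n1 := ndF1q3) (n2 := ndF1q3) (pc := pcF1) (cut := Cut.none) (xt := Ext.none) (P1 := 1610612736) (W1 := 469762048) (P2 := 1610612736) (W2 := 469762048) (P3 := 1046898278) (W3 := 26843546)
    rfl k0_pp_313

noncomputable def f_pm_001 : ℕ → ℕ → ℕ → ℕ → Bool := onCell 67108864 469762048 536870912 536870912 1046898278 26843546
    (rowFX 0 false true false .up 0 0 1 (qsf 67108864 469762048 536870912 536870912 0) ndF1q0 ndF1q1 pcF0 Cut.none Ext.none)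

def k0_pm_001 : ∃ t, chk3 f_pm_001 t 1 1 1 = true :=
  ⟨(b (l 4) (a (l 4) (l 4))), by decide +kernel⟩

theorem c_pm_001 : CertFX 67108864 469762048 536870912 536870912 1046898278 26843546 false true false .up 0 0 1
    ndF1q0 ndF1q1 pcF0 Cut.none Ext.none :=
  certFX0 (fam := false) (s1 := true) (s2 := false) (a := 0) (b := 0) (c := 1) (cn := .up) (n1 := ndF1q0) (n2 := ndF1q1) (pc := pcF0) (cut := Cut.none) (xt := Ext.none) (P1 := 67108864) (W1 := 469762048) (P2 := 536870912) (W2 := 536870912) (P3 := 1046898278) (W3 := 26843546)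
    rfl k0_pm_001

noncomputable def f_pm_011 : ℕ → ℕ → ℕ → ℕ → Bool := onCell 67108864 469762048 536870912 536870912 1046898278 26843546
    (rowFX 0 false true false .pnn 0 1 1 (qsf 67108864 469762048 536870912 536870912 1) ndF1q0 ndF1q1 pcF1 Cut.none Ext.none)

def k0_pm_011 : ∃ t, chk3 f_pm_011 t 1 1 1 = true :=
  ⟨(b (l 4) (a (l 4) (l 4))), by decide +kernel⟩

theorem c_pm_011 : CertFX 67108864 469762048 536870912 536870912 1046898278 26843546 false true false .pnn 0 1 1
    ndF1q0 ndF1q1 pcF1 Cut.none Ext.none :=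
  certFX0 (fam := false) (s1 := true) (s2 := false) (a := 0) (b := 1) (c := 1) (cn := .pnn) (n1 := ndF1q0) (n2 := ndF1q1) (pc := pcF1) (cut := Cut.none) (xt := Ext.none) (P1 := 67108864) (W1 := 469762048) (P2 := 536870912) (W2 := 536870912) (P3 := 1046898278) (W3 := 26843546)
    rfl k0_pm_011

noncomputable def f_pm_012_a : ℕ → ℕ → ℕ → ℕ → Bool := onCell 536870912 536870912 0 420477299 1046898278 26843546
    (rowFX 2 false true false .pnp 0 1 2 (qsf 67108864 469762048 0 420477299 1) ndF1q0 ndF1q2a pcF1 Cut.none Ext.none)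

def k0_pm_012_a : ∃ t, chk3 f_pm_012_a t 2 1 1 = true :=
  ⟨(b (a (l 2) (b (a (l 16777216) (l 16777216)) (b (a (l 16777208) (l 16777208)) (l 16777200)))) (b (a (c (l 16777184) (l 16777184)) (c (l 16777184) (l 16777184))) (a (b (c (l 16723024) (l 16721616)) (c (l 16483928) (l 16455888))) (b (c (l 16702048) (l 16721616)) (a (l 16396504) (l 16459424)))))), by decide +kernel⟩

def k1_pm_012_a : ∃ t, chk3 f_pm_012_a t 6 1 1 = true :=
  ⟨(a (b (b (a (l 16777208) (l 16770968)) (l 16774504)) (b (l 16774936) (b (c (l 16721544) (l 16720080)) (c (l 16503480) (l 16496352))))) (b (b (a (l 16759096) (b (l 16739456) (l 16775664))) (a (l 16761280) (a (l 16768160) (l 16691576)))) (b (a (l 16763536) (a (l 16768720) (l 16543312))) (b (a (l 16692112) (a (b (l 16724872) (l 16677936)) (b (l 16520664) (l 16491192)))) (a (b (l 16560328) (l 16426096)) (a (b (a (l 16558312) (l 16620048)) (a (l 16406968) (l 16439016))) (b (l 16568992) (l 16452336)))))))), by decide +kernel⟩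

def k2_pm_012_a : ∃ t, chk3 f_pm_012_a t 7 2 1 = true :=
  ⟨(a (b (a (b (l 16700336) (l 16627264)) (b (b (l 16600352) (l 16542280)) (l 16438600))) (a (a (l 16558576) (l 16416280)) (b (l 16204936) (a (l 16228272) (l 16165232))))) (a (b (a (l 16335880) (b (l 16570688) (l 16386904))) (c (a (l 16197824) (l 16162360)) (l 16182456))) (b (a (b (l 16594200) (l 16382488)) (b (l 16623704) (l 16355528))) (a (c (l 16032584) (l 16146920)) (c (l 16056696) (b (l 16196896) (l 16015200))))))), by decide +kernel⟩

def k3_pm_012_a : ∃ t, chk3 f_pm_012_a t 14 3 1 = true :=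
  ⟨(b (a (b (a (l 16444336) (l 16259912)) (a (l 16374552) (b (l 16208616) (l 16207376)))) (b (a (l 16152656) (l 16106416)) (c (l 16116456) (l 16099936)))) (b (a (b (a (c (l 16369912) (l 16359456)) (l 16238928)) (c (l 16379096) (l 16390976))) (a (c (l 16128376) (l 16198512)) (c (b (l 16098528) (l 16180160)) (l 16123928)))) (a (b (c (l 16402696) (l 16397696)) (a (l 16537256) (l 16489768))) (b (c (a (l 16375424) (l 16286272)) (l 16236336)) (c (a (l 16478184) (l 16409208)) (a (l 16515920) (l 16402120))))))), by decide +kernel⟩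

def k4_pm_012_a : ∃ t, chk3 f_pm_012_a t 15 6 1 = true :=
  ⟨(a (a (c (b (l 16064088) (c (l 16016288) (l 16023680))) (l 16034624)) (c (b (l 15992416) (c (l 15895736) (l 15936304))) (b (l 16012104) (l 15938776)))) (a (c (b (l 15877608) (a (l 15804240) (l 15734696))) (b (l 15943424) (l 15829008))) (c (b (l 15841320) (l 15633880)) (b (c (l 15843816) (l 15853072)) (a (l 15719720) (l 15637448)))))), by decide +kernel⟩

def k5_pm_012_a : ∃ t, chk3 f_pm_012_a t 15 7 1 = true :=
  ⟨(a (b (c (a (a (b (l 16041512) (l 16110648)) (b (l 15968376) (l 16042856))) (b (c (l 15852056) (l 15898616)) (c (l 15890608) (l 15942072)))) (a (b (l 16005784) (l 16070048)) (b (l 15902624) (l 15948560)))) (c (a (c (b (l 15984904) (a (l 16307688) (l 16221512))) (l 16119192)) (b (c (l 15961976) (l 16018736)) (c (l 15856904) (a (l 16173912) (l 16047600))))) (a (b (l 16157168) (l 16270864)) (b (l 16028328) (l 16058464))))) (b (c (a (b (c (a (l 15704632) (l 15638496)) (l 15720792)) (c (a (l 15735368) (l 15666672)) (l 15755208)))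 (b (c (l 15601256) (a (l 15617376) (l 15609416))) (a (c (l 15655848) (l 15655056)) (l 15674768)))) (a (b (l 15766008) (l 15784856)) (a (b (c (l 15639208) (l 15670928)) (c (l 15679936) (l 15715408))) (b (c (l 15599872) (l 15606680)) (c (l 15660104) (l 15669176)))))) (c (a (b (c (a (l 15800712) (a (l 15741816) (l 15734304))) (a (l 15877376) (l 15783512))) (c (a (l 15793520) (a (l 15877360) (l 15878616))) (a (l 16003104) (l 15927096)))) (b (c (l 15776008) (a (l 15756032) (l 15785880))) (a (c (l 15904600) (a (l 15898200) (l 15908240))) (b (l 15902192) (l 15990232))))) (a (b (c (a (l 15927344) (l 15850880)) (l 15900904)) (c (a (l 16058504) (l 16001184)) (l 16042992))) (a (c (b (l 15784768) (l 15921104)) (b (l 15824776) (l 15987208))) (b (c (l 15779352) (c (l 15785296) (l 15794904))) (c (b (l 15892920) (l 15984144)) (a (l 15949048) (c (l 15944296) (l 15952184)))))))))), by decide +kernel⟩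

theorem s6_pm_012_a : ∃ t, chk3 f_pm_012_a t 15 3 1 = true := ex3_b k4_pm_012_a k5_pm_012_a

theorem s7_pm_012_a : ∃ t, chk3 f_pm_012_a t 7 3 1 = true := ex3_a k3_pm_012_a s6_pm_012_a

theorem s8_pm_012_a : ∃ t, chk3 f_pm_012_a t 7 1 1 = true := ex3_b k2_pm_012_a s7_pm_012_a

theorem s9_pm_012_a : ∃ t, chk3 f_pm_012_a t 3 1 1 = true := ex3_a k1_pm_012_a s8_pm_012_a

theorem s10_pm_012_a : ∃ t, chk3 f_pm_012_a t 1 1 1 = true := ex3_a k0_pm_012_a s9_pm_012_a

theorem c_pm_012_a : CertFX 67108864 469762048 0 420477299 1046898278 26843546 false true false .pnp 0 1 2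
    ndF1q0 ndF1q2a pcF1 Cut.none Ext.none :=
  certFX2 (fam := false) (s1 := true) (s2 := false) (a := 0) (b := 1) (c := 2) (cn := .pnp) (n1 := ndF1q0) (n2 := ndF1q2a) (pc := pcF1) (cut := Cut.none) (xt := Ext.none) (P1 := 67108864) (W1 := 469762048) (P2 := 0) (W2 := 420477299) (P3 := 1046898278) (W3 := 26843546)
    rfl (fun _ => rfl) s10_pm_012_a

noncomputable def f_pm_012_b : ℕ → ℕ → ℕ → ℕ → Bool := onCell 536870912 536870912 1239849684 370763052 1046898278 26843546
    (rowFX 2 false true false .pnp 0 1 2 (qsf 67108864 469762048 1239849684 370763052 1) ndF1q0 ndF1q2b pcF1 Cut.none Ext.none)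

def k0_pm_012_b : ∃ t, chk3 f_pm_012_b t 1 1 1 = true :=
  ⟨(a (a (l 2) (b (b (a (l 16777216) (l 16777216)) (l 16777216)) (l 2))) (a (a (b (b (l 16773840) (l 16773728)) (l 2)) (a (b (l 16757536) (l 16756096)) (b (a (l 16747896) (l 16768936)) (l 16758472)))) (a (b (b (a (l 16709856) (l 16613712)) (l 16635128)) (a (l 16696312) (l 16589080))) (b (b (a (b (a (l 16558104) (b (l 16576592) (l 16461792))) (l 16494128)) (b (a (l 16392944) (l 16435768)) (a (l 16345128) (b (l 16280408) (l 16227984))))) (a (a (l 16533704) (l 16471712)) (l 16210768))) (a (b (l 16500304) (l 16483088)) (b (a (l 16416616) (l 16330144)) (l 16382792))))))), by decide +kernel⟩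

theorem c_pm_012_b : CertFX 67108864 469762048 1239849684 370763052 1046898278 26843546 false true false .pnp 0 1 2
    ndF1q0 ndF1q2b pcF1 Cut.none Ext.none :=
  certFX2 (fam := false) (s1 := true) (s2 := false) (a := 0) (b := 1) (c := 2) (cn := .pnp) (n1 := ndF1q0) (n2 := ndF1q2b) (pc := pcF1) (cut := Cut.none) (xt := Ext.none) (P1 := 67108864) (W1 := 469762048) (P2 := 1239849684) (W2 := 370763052) (P3 := 1046898278) (W3 := 26843546)
    rfl (fun _ => rfl) k0_pm_012_b

noncomputable def f_pm_022_a : ℕ → ℕ → ℕ → ℕ → Bool := onCell 67108864 469762048 0 420477299 1046898278 26843546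
    (rowFX 0 false true false .pp 0 2 2 (qsf 67108864 469762048 0 420477299 2) ndF1q0 ndF1q2a pcF2 Cut.none Ext.none)

def k0_pm_022_a : ∃ t, chk3 f_pm_022_a t 2 2 1 = true :=
  ⟨(a (a (b (a (c (a (b (l 16533392) (l 16463368)) (l 16293024)) (a (l 16303864) (l 16400160))) (c (b (l 16111336) (l 15989040)) (a (l 16245640) (l 16125592)))) (a (c (a (b (l 16257976) (l 16089688)) (b (l 16200992) (l 15967776))) (b (a (l 16367528) (l 16205464)) (l 16053896))) (c (b (l 15732632) (a (l 15744408) (l 15726944))) (b (l 15962696) (c (l 15784672) (l 15800320)))))) (b (c (a (l 15977808) (l 15755112)) (a (b (l 16049904) (l 15887760)) (b (l 15822184) (l 15642512)))) (c (a (l 15642816) (l 15392176)) (a (b (l 15717824) (l 15536240)) (l 49959212439))))) (l 1)), by decide +kernel⟩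

def k1_pm_022_a : ∃ t, chk3 f_pm_022_a t 2 3 1 = true :=
  ⟨(a (a (a (a (b (c (b (c (l 16050632) (l 16069912)) (c (b (l 15935456) (l 15839864)) (b (l 15956688) (l 15837560)))) (b (l 16097896) (c (l 15692352) (l 15919728)))) (c (b (b (c (b (l 15767896) (l 15746808)) (b (l 15775648) (l 15748512))) (c (l 15745752) (l 15741712))) (b (c (l 15759768) (l 15749848)) (c (l 15791840) (l 15781864)))) (b (c (b (b (l 15794192) (l 15767352)) (c (l 15743792) (l 15752464))) (b (l 15781488) (l 15717432))) (c (b (a (l 15796768) (l 15687448)) (l 15770904)) (c (b (a (l 15804256) (l 15686280)) (l 15766464)) (b (l 15692032) (a (l 15819728) (l 15704784)))))))) (b (c (b (c (l 15874480) (l 15887824)) (c (l 15693088) (l 15611376))) (b (l 15869920) (c (b (l 15756000) (l 15651688)) (l 15707288)))) (b (c (b (c (l 15566400) (l 15555008)) (l 15545280)) (c (b (l 15533720) (l 15528256)) (b (l 15560408) (c (l 15525824) (l 15527936))))) (b (c (l 15616224) (c (l 15532216) (l 15439952))) (l 1))))) (b (c (b (c (l 15622104) (l 15492296))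 (a (c (l 15507592) (l 15495816)) (l 15358560))) (b (c (a (l 15697656) (l 15537072)) (l 15433848)) (c (a (l 15367704) (l 15334872)) (a (l 15349320) (l 15327600))))) (b (a (c (b (c (l 15378152) (l 15361392)) (l 144985988263)) (c (l 269539511271) (b (l 15296880) (l 15309808)))) (b (c (l 15220824) (l 15183296)) (l 1))) (l 1)))) (a (b (c (b (l 15367448) (l 15167616)) (b (c (l 15343040) (l 15333096)) (l 14983192))) (l 1)) (l 1))) (l 1)), by decide +kernel⟩

def k2_pm_022_a : ∃ t, chk3 f_pm_022_a t 3 1 1 = true :=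
  ⟨(l 1), by decide +kernel⟩

theorem s3_pm_022_a : ∃ t, chk3 f_pm_022_a t 2 1 1 = true := ex3_b k0_pm_022_a k1_pm_022_a

theorem s4_pm_022_a : ∃ t, chk3 f_pm_022_a t 1 1 1 = true := ex3_a s3_pm_022_a k2_pm_022_a

theorem c_pm_022_a : CertFX 67108864 469762048 0 420477299 1046898278 26843546 false true false .pp 0 2 2
    ndF1q0 ndF1q2a pcF2 Cut.none Ext.none :=
  certFX0 (fam := false) (s1 := true) (s2 := false) (a := 0) (b := 2) (c := 2) (cn := .pp) (n1 := ndF1q0) (n2 := ndF1q2a) (pc := pcF2) (cut := Cut.none) (xt := Ext.none) (P1 := 67108864) (W1 := 469762048) (P2 := 0) (W2 := 420477299) (P3 := 1046898278) (W3 := 26843546)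
    rfl s4_pm_022_a

noncomputable def f_pm_022_b : ℕ → ℕ → ℕ → ℕ → Bool := onCell 67108864 469762048 1073741824 536870912 1046898278 26843546
    (rowFX 1 false true false .pp 0 2 2 (qsf 67108864 469762048 1239849684 370763052 2) ndF1q0 ndF1q2b pcF2 Cut.none Ext.none)

def k0_pm_022_b : ∃ t, chk3 f_pm_022_b t 1 1 1 = true :=
  ⟨(b (b (a (a (b (a (a (l 1) (b (l 1) (c (l 16225120) (l 16327256)))) (b (a (l 299605976967) (l 15923168)) (c (l 15931384) (l 16004864)))) (a (b (c (a (b (l 16352152) (l 16317496)) (b (l 16322192) (l 16260096))) (a (b (l 16492336) (l 16468216)) (l 16117528))) (a (c (a (l 16367016) (l 16229344)) (l 16211080)) (c (l 16050824) (l 16037048)))) (b (b (l 15935360) (l 15757288)) (l 15690168)))) (b (a (c (b (l 15573248) (l 15611176)) (b (l 15399928) (l 15587792))) (b (l 15392864) (l 15448552))) (a (b (b (l 15636024) (l 15602176)) (l 15437288)) (b (l 15478792) (l 15309928))))) (b (b (a (l 15387336) (a (l 15494064) (l 15532112))) (a (l 15481424) (a (l 15536944) (l 15583560)))) (b (a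 (l 15465272) (b (l 15600432) (l 15558456))) (a (l 15325672) (l 15364208))))) (a (b (a (a (c (b (b (a (l 16108424) (l 15879480)) (a (l 16162168) (l 15985624))) (a (l 16107544) (l 16333600))) (b (b (l 15738640) (a (l 16198600) (l 15970808))) (a (l 16204472) (l 16372576)))) (b (b (l 15640800) (l 15759072)) (l 16063544))) (b (a (b (l 15310728) (l 15446392)) (l 15263424)) (a (l 15881200) (l 15781384)))) (a (a (b (a (c (l 15875376) (l 15852608)) (a (l 16016184) (l 16203704))) (c (l 15618632) (l 15772136))) (b (l 16419032) (l 16246904))) (b (a (l 16386232) (l 16303680)) (l 16543088)))) (a (b (b (b (l 15195072) (l 15336192)) (l 15790928)) (b (l 16324360) (l 16598360))) (l 2)))) (a (b (a (a (b (c (a (l 15593600) (l 15897616)) (l 15703848)) (c (l 15662792) (l 15622104))) (b (l 16188048) (l 16122344))) (b (a (l 16646248) (l 16664264)) (l 16565272))) (a (a (b (c (l 15659648) (l 15618816)) (l 15471216)) (b (l 16119824) (l 2))) (l 2))) (l 2))), by decide +kernel⟩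

theorem c_pm_022_b : CertFX 67108864 469762048 1239849684 370763052 1046898278 26843546 false true false .pp 0 2 2
    ndF1q0 ndF1q2b pcF2 Cut.none Ext.none :=
  certFX1 (fam := false) (s1 := true) (s2 := false) (a := 0) (b := 2) (c := 2) (cn := .pp) (n1 := ndF1q0) (n2 := ndF1q2b) (pc := pcF2) (cut := Cut.none) (xt := Ext.none) (P1 := 67108864) (W1 := 469762048) (P2 := 1239849684) (W2 := 370763052) (P3 := 1046898278) (W3 := 26843546)
    rfl (fun _ => rfl) k0_pm_022_b

noncomputable def f_pm_023 : ℕ → ℕ → ℕ → ℕ → Bool := onCell 67108864 469762048 1073741824 536870912 1046898278 26843546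
    (rowFX 1 false true false .up 0 2 3 (qsf 67108864 469762048 1610612736 469762048 2) ndF1q0 ndF1q3 pcF2 Cut.none Ext.none)

def k0_pm_023 : ∃ t, chk3 f_pm_023 t 1 1 1 = true :=
  ⟨(b (b (a (l 1) (b (a (l 1) (b (l 324300700151) (l 80561385927))) (b (a (l 1) (l 89688097639)) (l 104720059783)))) (a (b (l 1) (a (l 1) (b (l 1039414695431) (l 16543088)))) (b (b (b (l 15199512) (l 15338824)) (l 109552769111)) (b (a (l 16324360) (l 16372472)) (l 16627456))))) (a (b (a (a (l 1) (b (l 1) (l 16122344))) (b (l 165389108631) (l 16565272))) (a (a (c (l 415031989015) (l 15472016)) (b (l 16119824) (l 16119824))) (b (l 16689768) (l 16689768)))) (b (b (l 16690760) (l 16773680)) (b (l 16771080) (l 16768176))))), by decide +kernel⟩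

theorem c_pm_023 : CertFX 67108864 469762048 1610612736 469762048 1046898278 26843546 false true false .up 0 2 3
    ndF1q0 ndF1q3 pcF2 Cut.none Ext.none :=
  certFX1 (fam := false) (s1 := true) (s2 := false) (a := 0) (b := 2) (c := 3) (cn := .up) (n1 := ndF1q0) (n2 := ndF1q3) (pc := pcF2) (cut := Cut.none) (xt := Ext.none) (P1 := 67108864) (W1 := 469762048) (P2 := 1610612736) (W2 := 469762048) (P3 := 1046898278) (W3 := 26843546)
    rfl (fun _ => rfl) k0_pm_023

noncomputable def f_pm_033 : ℕ → ℕ → ℕ → ℕ → Bool := onCell 67108864 469762048 1610612736 536870912 1046898278 26843546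
    (rowFX 1 false true false .pnn 0 3 3 (qsf 67108864 469762048 1610612736 469762048 3) ndF1q0 ndF1q3 pcF3 Cut.none Ext.none)

def k0_pm_033 : ∃ t, chk3 f_pm_033 t 1 1 1 = true :=
  ⟨(b (a (b (a (b (a (c (l 15659648) (l 15618816)) (l 16119824)) (l 4)) (b (l 16689768) (b (l 16689776) (l 4)))) (l 4)) (b (b (l 16760648) (a (l 16764200) (l 2))) (a (b (l 4) (l 2)) (l 2)))) (a (b (a (l 4) (b (l 4) (l 2))) (a (b (l 4) (l 2)) (l 2))) (l 2))), by decide +kernel⟩

theorem c_pm_033 : CertFX 67108864 469762048 1610612736 469762048 1046898278 26843546 false true false .pnn 0 3 3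
    ndF1q0 ndF1q3 pcF3 Cut.none Ext.none :=
  certFX1 (fam := false) (s1 := true) (s2 := false) (a := 0) (b := 3) (c := 3) (cn := .pnn) (n1 := ndF1q0) (n2 := ndF1q3) (pc := pcF3) (cut := Cut.none) (xt := Ext.none) (P1 := 67108864) (W1 := 469762048) (P2 := 1610612736) (W2 := 469762048) (P3 := 1046898278) (W3 := 26843546)
    rfl (fun _ => rfl) k0_pm_033

noncomputable def f_pm_101 : ℕ → ℕ → ℕ → ℕ → Bool := onCell 0 536870912 536870912 536870912 1046898278 26843546
    (rowFX 2 false true false .npn 1 0 1 (qsf 536870912 536870912 536870912 536870912 0) ndF1q1 ndF1q1 pcF0 Cut.none Ext.none)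

def k0_pm_101 : ∃ t, chk3 f_pm_101 t 1 2 1 = true :=
  ⟨(l 4), by decide +kernel⟩

def k1_pm_101 : ∃ t, chk3 f_pm_101 t 8 3 1 = true :=
  ⟨(b (b (b (l 4) (a (a (a (a (a (a (c (l 16759232) (l 16758768)) (l 4)) (l 4)) (l 4)) (l 4)) (l 4)) (l 4))) (a (a (c (a (b (l 16691224) (l 16606904)) (b (c (l 16705368) (l 16704160)) (c (l 16614040) (l 16611256)))) (a (c (a (l 16647200) (b (l 16693904) (l 16603992))) (a (b (c (l 16685896) (l 16685456)) (c (l 16603400) (b (l 16589584) (l 16563304)))) (b (l 16692896) (l 16602640)))) (c (b (l 16703240) (l 16609712)) (l 16657704)))) (c (a (c (l 16670704) (l 16670176)) (l 16684736)) (b (l 16719432) (l 16634408)))) (c (b (c (l 16740344) (l 16739992)) (l 16686584)) (b (l 46405399639) (l 16686136))))) (b (a (a (c (a (l 16092864) (c (l 16163896) (l 16127120))) (a (a (c (l 15970656) (a (l 15886640) (l 15915008))) (c (l 16015792) (l 15951880))) (c (l 16072888) (l 16025240)))) (c (b (a (l 16380600) (l 16417280)) (l 16070072)) (b (l 16367264) (l 15959768)))) (c (b (l 16481208)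 (a (l 16161400) (l 16227200))) (b (l 16457456) (l 16084352)))) (a (b (a (c (a (l 15865192) (c (l 15924464) (l 15739216))) (a (c (l 15481928) (l 15142992)) (l 15468976))) (c (a (l 15831760) (l 15856464)) (l 15627640))) (a (c (a (b (l 16139432) (l 16053736)) (b (l 15983048) (a (c (l 16039736) (l 16040976)) (c (l 16050880) (l 16030416))))) (a (c (a (l 16075912) (b (l 15549824) (l 16031808))) (a (a (b (l 14946192) (l 15809176)) (b (l 15005392) (l 15571784))) (l 15185056))) (c (b (l 15533248) (l 15708568)) (l 15370808)))) (c (b (l 15832272) (a (c (l 16082872) (l 15892512)) (l 15897464))) (b (l 15532608) (l 15403504))))) (b (c (l 15943808) (l 15830952)) (b (c (l 15847320) (l 15723032)) (c (a (l 15862048) (c (l 15889616) (l 15849320))) (l 15753640))))))), by decide +kernel⟩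

def k2_pm_101 : ∃ t, chk3 f_pm_101 t 9 3 1 = true :=
  ⟨(b (b (l 4) (c (a (c (l 16740136) (l 16739656)) (l 16751816)) (a (b (l 16750016) (l 16733592)) (l 73249010775)))) (b (a (c (l 16411992) (l 16379840)) (l 16448520)) (a (b (c (l 16035784) (l 15962824)) (c (a (l 15876928) (l 15890096)) (l 15806792))) (b (l 16056960) (l 15853248))))), by decide +kernel⟩

def k3_pm_101 : ∃ t, chk3 f_pm_101 t 5 3 1 = true :=
  ⟨(b (a (b (l 4) (a (b (l 4) (l 100629517143)) (l 4))) (l 4)) (a (b (c (l 16413008) (a (l 16475552) (l 16499056))) (a (b (l 16110328) (l 15863744)) (l 16043696))) (b (a (c (l 16518112) (l 16511128)) (l 89354903863)) (a (l 16092824) (l 16113608))))), by decide +kernel⟩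

def k4_pm_101 : ∃ t, chk3 f_pm_101 t 3 3 1 = true :=
  ⟨(b (l 4) (a (a (b (b (l 4) (l 117271778359)) (l 16071688)) (b (l 4) (c (l 16122144) (l 16105128)))) (b (l 4) (c (l 129082170327) (l 113512879847))))), by decide +kernel⟩

theorem s5_pm_101 : ∃ t, chk3 f_pm_101 t 4 3 1 = true := ex3_a k1_pm_101 k2_pm_101

theorem s6_pm_101 : ∃ t, chk3 f_pm_101 t 2 3 1 = true := ex3_a s5_pm_101 k3_pm_101

theorem s7_pm_101 : ∃ t, chk3 f_pm_101 t 1 3 1 = true := ex3_a s6_pm_101 k4_pm_101

theorem s8_pm_101 : ∃ t, chk3 f_pm_101 t 1 1 1 = true := ex3_b k0_pm_101 s7_pm_101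

theorem c_pm_101 : CertFX 536870912 536870912 536870912 536870912 1046898278 26843546 false true false .npn 1 0 1
    ndF1q1 ndF1q1 pcF0 Cut.none Ext.none :=
  certFX2 (fam := false) (s1 := true) (s2 := false) (a := 1) (b := 0) (c := 1) (cn := .npn) (n1 := ndF1q1) (n2 := ndF1q1) (pc := pcF0) (cut := Cut.none) (xt := Ext.none) (P1 := 536870912) (W1 := 536870912) (P2 := 536870912) (W2 := 536870912) (P3 := 1046898278) (W3 := 26843546)
    rfl (fun _ => rfl) s8_pm_101

end Pool.Agent.Strip051.G.IE1.Tab.C.FB11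

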