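import Pool.Agent.Strip051.G.IE1.Tab

/-! # Certificates F39 (generated) -/

set_option linter.all false
set_option maxRecDepth 100000

namespace Pool.Agent.Strip051.G.IE1.Tab.C.FB11

open Pool.Agent.Strip051.PB Pool.Agent.Strip051.PB.T
open Pool.Agent.Strip051.G.IE1.Tab

noncomputable def f_pm_102_a : ℕ → ℕ → ℕ → ℕ → Bool := onCell 536870912 536870912 0 420477299 1046898278 26843546
    (rowFX 0 false true false .npp 1 0 2 (qsf 536870912 536870912 0 420477299 0) ndF1q1 ndF1q2a pcF0 Cut.none Ext.none)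

def k0_pm_102_a : ∃ t, chk3 f_pm_102_a t 2 1 1 = true :=
  ⟨(b (a (l 2) (a (b (l 16777216) (c (l 16777208) (l 16777208))) (b (a (l 16777216) (b (b (c (l 16777216) (l 16777216)) (l 16777216)) (l 16777216))) (c (l 16777208) (l 16777208))))) (b (a (c (l 16777184) (l 16777184)) (b (a (l 16777192) (c (l 16777192) (l 16777192))) (a (l 16777168) (l 16777168)))) (c (b (a (l 16723024) (a (l 16723024) (l 16723024))) (a (a (l 16504904) (l 16504904)) (a (l 16483928) (c (l 16506672) (l 16461192))))) (b (a (l 56471917255) (a (l 16721616) (l 16721616))) (b (a (l 16566664) (l 16566664)) (a (a (l 16430704) (l 16430704)) (a (l 16430704) (c (l 16432896) (l 16428512))))))))), by decide +kernel⟩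

def k1_pm_102_a : ∃ t, chk3 f_pm_102_a t 3 4 1 = true :=
  ⟨(b (a (a (a (c (a (l 16777216) (l 16777192)) (a (l 16777216) (l 16777192))) (c (c (l 16768152) (l 16768032)) (c (l 16767920) (l 16767800)))) (a (b (c (a (l 16755176) (l 281488059975)) (a (l 16754600) (l 214916065287))) (c (a (l 16755176) (l 16746432)) (l 16750128))) (a (c (l 287393630919) (b (l 3) (l 16736600))) (c (l 391546620599) (l 301889178183))))) (l 3)) (a (a (a (a (l 16777216) (c (l 16777192) (l 16777184))) (c (c (l 16768152) (l 16768032)) (c (l 16767912) (l 16767800)))) (a (c (a (l 16755168) (l 16746432)) (c (l 16750304) (l 16749960))) (a (c (l 16737632) (l 16736600)) (c (b (l 249275763367) (l 16754000)) (c (l 16732984) (l 16774904)))))) (a (a (a (c (c (l 262697400087) (l 261623697495)) (b (l 275582337175) (c (l 16671464) (l 16670112)))) (b (l 3) (c (a (l 268602867847) (l 355575853655)) (l 355039023031)))) (l 3)) (l 3)))), by decide +kernel⟩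

def k2_pm_102_a : ∃ t, chk3 f_pm_102_a t 3 10 1 = true :=
  ⟨(a (a (l 16772624) (a (a (l 16754880) (c (l 16746432) (b (l 16745632) (l 16745632)))) (c (a (c (l 16737880) (l 16737368)) (b (l 16774968) (l 16774968))) (a (c (l 16736856) (l 16736336)) (c (l 16774928) (l 16774896)))))) (a (a (a (c (c (l 16674152) (l 16672808)) (c (l 16671456) (l 16670112))) (c (c (b (l 225116170167) (l 16572904)) (l 215452488407)) (c (l 16567568) (l 16564896)))) (a (b (c (a (b (l 338395882631) (l 234242878679)) (a (c (l 277192534455) (l 273434429863)) (l 333027091191))) (a (l 238537832135) (b (l 3) (l 336248275751)))) (c (a (c (l 16477536) (l 16494864)) (b (c (a (l 16470432) (l 16449488)) (l 226726640455)) (l 16451528))) (a (l 16489400) (b (l 210083634839) (l 16464672))))) (b (l 3) (a (c (b (c (l 300278007735) (l 308867934711)) (c (l 218136775607) (l 16476880))) (b (l 316920960119) (l 205251825607))) (b (l 3) (c (c (l 288466884935) (l 301351779991)) (l 314236647703))))))) (a (l 3) (l 3)))), by decide +kernel⟩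

def k3_pm_102_a : ∃ t, chk3 f_pm_102_a t 3 11 1 = true :=
  ⟨(a (a (l 16751648) (a (l 16750464) (a (l 16737104) (l 16774936)))) (b (a (a (c (a (l 16673480) (l 16571568)) (a (l 16670784) (l 16566232))) (a (c (a (b (l 16498464) (l 16498840)) (b (l 16473568) (l 16472880))) (a (l 16492360) (l 16466888))) (c (a (c (l 16484288) (l 16480616)) (c (b (l 16501104) (l 16506456)) (l 16500448))) (a (l 16475104) (c (l 16497176) (l 16493904)))))) (a (a (a (c (b (c (l 280413865687) (l 292761890727)) (c (l 16525816) (l 16522992))) (b (l 304573013047) (l 16518752))) (b (l 3) (c (c (a (l 234242993367) (l 283635150535)) (l 284708879815)) (c (l 293835644359) (l 294909381271))))) (a (l 3) (l 3))) (l 3))) (a (a (a (l 16672128) (a (l 16594704) (c (l 16525168) (l 16519160)))) (a (a (b (c (l 16496472) (l 16489184)) (l 16492632)) (c (b (l 16472184) (l 16481472)) (b (l 16464344) (l 16473896)))) (c (a (l 16494800) (l 16517576)) (a (l 16487800) (l 16511464))))) (a (a (c (a (c (l 16540664) (l 16538056)) (c (b (l 16554688)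 (l 16567904)) (l 16559040))) (a (l 16534136) (c (l 16556864) (l 16554680)))) (c (c (a (b (a (l 229411207287) (l 253570439415)) (l 16587944)) (b (l 275045295927) (b (l 234780007591) (l 218673868295)))) (a (b (l 242833009351) (l 16586288)) (b (l 268602841863) (l 226190080039)))) (c (a (b (l 233706160071) (l 16584632)) (l 247128022247)) (a (l 208473212967) (l 236927472071))))) (a (a (c (c (l 277729700103) (l 272360988839)) (l 263771009079)) (l 3)) (l 3)))))), by decide +kernel⟩

def k4_pm_102_a : ∃ t, chk3 f_pm_102_a t 6 3 1 = true :=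
  ⟨(b (a (b (a (l 16777176) (l 16767952)) (a (l 16777160) (l 16767936))) (b (a (l 16750448) (l 16695320)) (a (l 16750432) (a (l 16737080) (l 16774912))))) (a (b (c (l 16697992) (b (l 16758832) (l 16674472))) (a (b (l 16569312) (c (l 16439464) (l 16430688))) (b (l 16560824) (l 16426616)))) (b (b (a (l 16737920) (c (l 16746696) (l 16681792))) (a (l 16655720) (a (l 16643816) (c (l 16682352) (a (l 16656480) (l 16677368)))))) (a (b (l 16545112) (a (l 16414896) (c (l 16413600) (l 16400704)))) (b (a (b (l 16563616) (l 16459920)) (c (l 16567072) (l 16515072))) (a (a (b (c (l 16444192) (l 16430920)) (c (l 16367776) (l 16350920))) (b (c (l 16435184) (l 16418752)) (l 16342816))) (c (l 16356384) (l 16398600)))))))), by decide +kernel⟩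

def k5_pm_102_a : ∃ t, chk3 f_pm_102_a t 7 12 1 = true :=
  ⟨(b (a (a (l 16620544) (a (l 16511136) (b (c (a (l 16517760) (l 16536808)) (l 16521856)) (l 16546344)))) (a (a (c (a (l 16516744) (b (l 16583064) (l 16602040))) (a (l 16564808) (l 16588920))) (c (a (b (l 16605024) (l 16626136)) (c (b (l 16625816) (l 16648632)) (l 16615296))) (a (l 16591984) (c (l 16614480) (l 16634632))))) (a (a (c (b (c (l 217063332455) (l 218137094039)) (a (l 16663576) (l 16652024))) (c (l 214915808503) (l 200420293191))) (c (a (b (l 269676706631) (c (l 210620929831) (l 16657608))) (c (l 254644316103) (l 252496853383))) (b (l 326048181191) (c (l 211157768023) (l 196662253191))))) (a (a (a (c (l 321216286711) (l 311552651575)) (l 3)) (l 3)) (l 3))))) (a (a (a (l 16672112) (l 16555640)) (l 16568376)) (a (a (a (l 16613296) (c (l 16617040) (l 16635896))) (c (a (b (l 16650096) (l 16675504)) (b (l 16674864) (l 16686000))) (a (l 16619976) (b (l 16674320) (l 16685736))))) (a (a (c (b (l 16656152) (l 16633104)) (b (l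 16676832) (l 16653008))) (c (b (c (l 16629768) (l 16650280)) (l 16631024)) (b (l 16628616) (l 16629440)))) (a (c (b (c (a (l 212768314679) (l 232632547799)) (l 222431994855)) (c (l 16581952) (l 16601792))) (b (c (l 208473306231) (l 191830306311)) (c (l 16600656) (l 16599528)))) (c (c (b (l 248738625879) (a (l 209010110151) (l 238001146055))) (b (l 244980527031) (a (l 208473236151) (l 234779917191)))) (b (l 241759297879) (c (l 205251961623) (l 191830186023))))))))), by decide +kernel⟩

def k6_pm_102_a : ∃ t, chk3 f_pm_102_a t 7 13 1 = true :=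
  ⟨(a (a (a (b (l 16672104) (a (l 16697872) (b (l 16648424) (l 16660592)))) (b (a (l 16604736) (l 16593488)) (l 16647856))) (a (l 16616128) (l 16666200))) (a (a (l 16661040) (b (l 16657128) (l 16646664))) (b (b (a (c (a (l 16635640) (l 16615048)) (a (l 16633944) (l 16612920))) (c (a (l 16587480) (c (l 16531408) (l 16550560))) (a (l 16584712) (c (l 16548736) (l 16546912))))) (a (a (l 16624920) (c (l 16601024) (l 16598400))) (c (a (l 16555720) (a (l 16551952) (l 16532072))) (a (l 16552560) (l 16517384))))) (a (l 16597520) (b (c (a (l 16565392) (a (l 16544376) (l 16528976))) (a (l 16561832) (a (l 16540328) (l 16524568)))) (l 16540464)))))), by decide +kernel⟩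

def k7_pm_102_a : ∃ t, chk3 f_pm_102_a t 7 7 1 = true :=
  ⟨(a (b (a (b (a (c (l 16699928) (l 16697936)) (l 16699096)) (l 16673536)) (b (b (l 16681104) (l 16729264)) (l 16714896))) (b (a (c (l 16674320) (l 16673032)) (l 16657000)) (a (c (b (l 16579888) (l 16495968)) (a (l 16480632) (l 16576784))) (c (b (l 16616192) (l 16583560)) (a (l 16621512) (l 16620232)))))) (b (a (b (a (b (l 16676024) (l 16681376)) (b (l 16625992) (l 16639888))) (a (l 16725792) (l 16686016))) (a (b (l 16566872) (l 16579688)) (c (b (a (l 16552864) (b (l 16518592) (l 16528696))) (a (b (l 16572248) (a (l 16633280) (l 16610680))) (b (l 16549608) (l 16565032)))) (b (b (l 16527728) (l 16539736)) (b (a (l 16590064) (l 16545344)) (a (l 16618272) (l 16561072))))))) (a (b (l 16695456) (b (c (l 16644664) (l 16643848)) (a (l 16561048) (a (l 16604608) (c (l 16612288) (l 16594656)))))) (b (a (c (l 16635240) (l 16698032)) (c (l 16630168) (l 16627792))) (c (a (b (b (l 16689640) (l 16676064)) (l 16655944)) (b (l 16639680) (c (l 16724784)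 (l 16721224)))) (a (b (a (l 16665784) (l 16701560)) (l 16662232)) (b (l 16676760) (l 16691816)))))))), by decide +kernel⟩

theorem s8_pm_102_a : ∃ t, chk3 f_pm_102_a t 7 6 1 = true := ex3_b k5_pm_102_a k6_pm_102_a

theorem s9_pm_102_a : ∃ t, chk3 f_pm_102_a t 7 3 1 = true := ex3_b s8_pm_102_a k7_pm_102_a

theorem s10_pm_102_a : ∃ t, chk3 f_pm_102_a t 3 3 1 = true := ex3_a k4_pm_102_a s9_pm_102_a

theorem s11_pm_102_a : ∃ t, chk3 f_pm_102_a t 3 5 1 = true := ex3_b k2_pm_102_a k3_pm_102_a

theorem s12_pm_102_a : ∃ t, chk3 f_pm_102_a t 3 2 1 = true := ex3_b k1_pm_102_a s11_pm_102_a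

theorem s13_pm_102_a : ∃ t, chk3 f_pm_102_a t 3 1 1 = true := ex3_b s12_pm_102_a s10_pm_102_a

theorem s14_pm_102_a : ∃ t, chk3 f_pm_102_a t 1 1 1 = true := ex3_a k0_pm_102_a s13_pm_102_a

theorem c_pm_102_a : CertFX 536870912 536870912 0 420477299 1046898278 26843546 false true false .npp 1 0 2
    ndF1q1 ndF1q2a pcF0 Cut.none Ext.none :=
  certFX0 (fam := false) (s1 := true) (s2 := false) (a := 1) (b := 0) (c := 2) (cn := .npp) (n1 := ndF1q1) (n2 := ndF1q2a) (pc := pcF0) (cut := Cut.none) (xt := Ext.none) (P1 := 536870912) (W1 := 536870912) (P2 := 0) (W2 := 420477299) (P3 := 1046898278) (W3 := 26843546)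
    rfl s14_pm_102_a

noncomputable def f_pm_102_b : ℕ → ℕ → ℕ → ℕ → Bool := onCell 0 536870912 1239849684 370763052 1046898278 26843546
    (rowFX 2 false true false .npp 1 0 2 (qsf 536870912 536870912 1239849684 370763052 0) ndF1q1 ndF1q2b pcF0 Cut.none Ext.none)

def k0_pm_102_b : ∃ t, chk3 f_pm_102_b t 1 1 1 = true :=
  ⟨(a (a (l 2) (b (a (l 3) (l 3)) (l 2))) (a (b (b (a (l 3) (a (a (l 3) (b (b (c (l 249275799479) (l 16749312)) (l 3)) (l 3))) (b (c (a (l 92509485319) (l 16761392)) (a (l 16752096) (l 16760984))) (a (l 3) (b (c (l 16743336) (l 16742456)) (l 3)))))) (l 3)) (l 3)) (b (a (b (a (c (b (l 16770592) (a (l 89825103703) (l 16754800))) (b (l 16770416) (a (l 16747456) (l 16754216)))) (c (b (l 16776736) (l 16766320)) (b (l 16776728) (l 16766040)))) (a (b (a (l 3) (b (c (l 16750136) (l 16749432)) (l 3))) (l 3)) (b (c (a (l 87677564951) (l 16748456)) (a (l 16758024) (l 16747712))) (a (l 3) (c (l 377587874775) (l 247128050423)))))) (a (a (b (c (l 16775792) (l 16775752)) (b (l 16756592)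 (c (l 147807102359) (l 16705456)))) (b (c (l 16777056) (l 16777056)) (c (l 16759560) (b (l 16764888) (l 16752864))))) (b (b (l 16777216) (c (l 16777216) (l 16777216))) (c (l 16763016) (l 16741680))))) (a (b (l 3) (l 3)) (b (a (b (a (l 3) (b (l 182703491463) (l 3))) (l 3)) (a (b (c (l 219210976567) (l 35064253783)) (l 3)) (b (c (l 16775488) (l 16775440)) (l 214378431879)))) (l 3)))))), by decide +kernel⟩

theorem c_pm_102_b : CertFX 536870912 536870912 1239849684 370763052 1046898278 26843546 false true false .npp 1 0 2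
    ndF1q1 ndF1q2b pcF0 Cut.none Ext.none :=
  certFX2 (fam := false) (s1 := true) (s2 := false) (a := 1) (b := 0) (c := 2) (cn := .npp) (n1 := ndF1q1) (n2 := ndF1q2b) (pc := pcF0) (cut := Cut.none) (xt := Ext.none) (P1 := 536870912) (W1 := 536870912) (P2 := 1239849684) (W2 := 370763052) (P3 := 1046898278) (W3 := 26843546)
    rfl (fun _ => rfl) k0_pm_102_b

noncomputable def f_pm_112_a : ℕ → ℕ → ℕ → ℕ → Bool := onCell 536870912 536870912 0 420477299 1046898278 26843546
    (rowFX 2 false true false .dn 1 1 2 (qsf 536870912 536870912 0 420477299 1) ndF1q1 ndF1q2a pcF1 Cut.none Ext.none)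

def k0_pm_112_a : ∃ t, chk3 f_pm_112_a t 1 1 1 = true :=
  ⟨(a (a (b (b (a (l 16777216) (l 16777216)) (a (b (l 16777208) (l 16777200)) (c (l 16777208) (l 16777208)))) (b (a (l 16777184) (l 16777184)) (b (c (l 16723024) (l 16679672)) (a (l 16396504) (l 16459424))))) (a (b (b (l 16777216) (b (l 16777208) (l 16777200))) (b (l 16777184) (l 1))) (l 1))) (l 1)), by decide +kernel⟩

theorem c_pm_112_a : CertFX 536870912 536870912 0 420477299 1046898278 26843546 false true false .dn 1 1 2
    ndF1q1 ndF1q2a pcF1 Cut.none Ext.none :=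
  certFX2 (fam := false) (s1 := true) (s2 := false) (a := 1) (b := 1) (c := 2) (cn := .dn) (n1 := ndF1q1) (n2 := ndF1q2a) (pc := pcF1) (cut := Cut.none) (xt := Ext.none) (P1 := 536870912) (W1 := 536870912) (P2 := 0) (W2 := 420477299) (P3 := 1046898278) (W3 := 26843546)
    rfl (fun _ => rfl) k0_pm_112_a

noncomputable def f_pm_112_b : ℕ → ℕ → ℕ → ℕ → Bool := onCell 536870912 536870912 1239849684 370763052 1046898278 26843546
    (rowFX 2 false true false .dn 1 1 2 (qsf 536870912 536870912 1239849684 370763052 1) ndF1q1 ndF1q2b pcF1 Cut.none Ext.none)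

def k0_pm_112_b : ∃ t, chk3 f_pm_112_b t 1 1 1 = true :=
  ⟨(b (b (a (a (a (l 16777216) (l 16777216)) (a (l 16777216) (l 16777216))) (l 1)) (a (a (a (c (a (l 16751184) (l 16776640)) (a (c (l 16772056) (l 16771992)) (l 16776632))) (l 16777216)) (l 16777216)) (a (a (l 16773728) (l 158410615975)) (l 1)))) (a (a (a (b (a (b (c (l 16753104) (l 16752480)) (c (a (l 16620472) (l 16739816)) (a (l 16659432) (l 16738840)))) (c (a (l 16766136) (l 16757144)) (b (l 16764104) (a (l 16766528) (l 16747616))))) (a (b (c (l 309404227831) (l 16299304)) (l 3)) (b (a (l 16437064) (c (l 16683488) (l 16681048))) (c (l 310477815863) (l 16283328))))) (a (b (c (l 16765616) (l 16765320)) (b (c (l 16764352) (a (l 16753240) (l 16759312))) (c (l 16454872) (l 16449224)))) (b (b (l 16777216) (l 16771400)) (b (l 16752208) (c (l 16725560) (l 16703240)))))) (a (b (l 16777088) (a (c (l 16761112) (l 16760696)) (l 16767832))) (l 16776080))) (a (a (l 16773448) (a (l 16756096) (l 16758472))) (a (a (l 16696312) (l 16589080))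 (a (l 163241451399) (b (l 1) (l 16382792))))))), by decide +kernel⟩

theorem c_pm_112_b : CertFX 536870912 536870912 1239849684 370763052 1046898278 26843546 false true false .dn 1 1 2
    ndF1q1 ndF1q2b pcF1 Cut.none Ext.none :=
  certFX2 (fam := false) (s1 := true) (s2 := false) (a := 1) (b := 1) (c := 2) (cn := .dn) (n1 := ndF1q1) (n2 := ndF1q2b) (pc := pcF1) (cut := Cut.none) (xt := Ext.none) (P1 := 536870912) (W1 := 536870912) (P2 := 1239849684) (W2 := 370763052) (P3 := 1046898278) (W3 := 26843546)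
    rfl (fun _ => rfl) k0_pm_112_b

noncomputable def f_pm_113 : ℕ → ℕ → ℕ → ℕ → Bool := onCell 536870912 536870912 536870912 536870912 1046898278 26843546
    (rowFX 1 false true false .nn 1 1 3 (qsf 536870912 536870912 1610612736 469762048 1) ndF1q1 ndF1q3 pcF1 Cut.none Ext.none)

def k0_pm_113 : ∃ t, chk3 f_pm_113 t 1 1 1 = true :=
  ⟨(b (a (b (l 1) (l 344167809031)) (b (b (a (l 1) (a (c (b (l 1) (l 16415992)) (l 317860146919)) (l 3))) (b (a (l 1) (a (c (l 16478904) (l 16472248)) (l 3))) (a (a (l 1) (l 16754344)) (a (l 16454600) (l 270748986199))))) (a (b (c (a (l 16772688) (l 16754640)) (a (l 16772576) (l 16754048))) (a (l 16772632) (l 16754344))) (b (a (c (l 16499872) (l 16472248)) (c (l 249274145751) (l 16084152))) (a (l 16496544) (l 171964717415)))))) (b (b (a (l 16773464) (b (a (l 16761352) (a (l 16517528) (l 16113640))) (a (l 16765832) (a (l 16524712) (l 16116944))))) (a (c (l 16883152) (l 130493417863)) (a (l 16765128) (a (b (l 16539312) (a (l 16636992) (l 16429448))) (b (l 16125888)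 (l 16015240)))))) (a (b (a (l 16633816) (l 16607992)) (a (l 16308208) (l 16356136))) (a (b (l 16585752) (a (l 16304144) (l 16272648))) (b (a (b (l 16385272) (l 16217016)) (b (l 15980808) (a (l 15921632) (l 15743664)))) (a (l 15989024) (b (b (l 15747000) (a (l 15772064) (l 15681440))) (a (l 15726824) (b (l 436038306343) (l 2)))))))))), by decide +kernel⟩

theorem c_pm_113 : CertFX 536870912 536870912 1610612736 469762048 1046898278 26843546 false true false .nn 1 1 3
    ndF1q1 ndF1q3 pcF1 Cut.none Ext.none :=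
  certFX1 (fam := false) (s1 := true) (s2 := false) (a := 1) (b := 1) (c := 3) (cn := .nn) (n1 := ndF1q1) (n2 := ndF1q3) (pc := pcF1) (cut := Cut.none) (xt := Ext.none) (P1 := 536870912) (W1 := 536870912) (P2 := 1610612736) (W2 := 469762048) (P3 := 1046898278) (W3 := 26843546)
    rfl (fun _ => rfl) k0_pm_113

noncomputable def f_pm_123 : ℕ → ℕ → ℕ → ℕ → Bool := onCell 1073741824 536870912 1610612736 469762048 1046898278 26843546
    (rowFX 2 false true false .npn 1 2 3 (qsf 536870912 536870912 1610612736 469762048 2) ndF1q1 ndF1q3 pcF2 Cut.none Ext.none)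

def k0_pm_123 : ∃ t, chk3 f_pm_123 t 1 1 1 = true :=
  ⟨(a (a (b (a (b (a (l 15573400) (l 98815091431)) (a (l 15657568) (l 15623912))) (b (a (a (l 15621576) (l 15575280)) (l 15365056)) (a (l 15607360) (l 15382424)))) (a (b (a (l 15772248) (l 15656016)) (b (l 15775992) (a (l 15869008) (l 15699344)))) (b (a (l 15579128) (l 15344736)) (a (l 15535696) (l 15276368))))) (a (b (a (a (b (l 1) (l 15204616)) (l 15171728)) (l 140691305223)) (a (a (b (l 15163472) (l 15087512)) (b (l 15312712) (l 15243920))) (b (l 15834232) (l 15793800)))) (b (a (l 165388743815) (l 16621360)) (a (b (l 16446128) (l 16451912)) (b (l 16724008) (l 16762712)))))) (a (b (l 1) (a (b (l 16719136) (l 16753592)) (l 16769144))) (a (l 208339666423) (l 326988151095)))), by decide +kernel⟩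

theorem c_pm_123 : CertFX 536870912 536870912 1610612736 469762048 1046898278 26843546 false true false .npn 1 2 3
    ndF1q1 ndF1q3 pcF2 Cut.none Ext.none :=
  certFX2 (fam := false) (s1 := true) (s2 := false) (a := 1) (b := 2) (c := 3) (cn := .npn) (n1 := ndF1q1) (n2 := ndF1q3) (pc := pcF2) (cut := Cut.none) (xt := Ext.none) (P1 := 536870912) (W1 := 536870912) (P2 := 1610612736) (W2 := 469762048) (P3 := 1046898278) (W3 := 26843546)
    rfl (fun _ => rfl) k0_pm_123

noncomputable def f_pm_133 : ℕ → ℕ → ℕ → ℕ → Bool := onCell 536870912 536870912 1610612736 469762048 1046898278 26843546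
    (rowFX 0 false true false .dn 1 3 3 (qsf 536870912 536870912 1610612736 469762048 3) ndF1q1 ndF1q3 pcF3 Cut.none Ext.none)

def k0_pm_133 : ∃ t, chk3 f_pm_133 t 1 1 1 = true :=
  ⟨(l 1), by decide +kernel⟩

theorem c_pm_133 : CertFX 536870912 536870912 1610612736 469762048 1046898278 26843546 false true false .dn 1 3 3
    ndF1q1 ndF1q3 pcF3 Cut.none Ext.none :=
  certFX0 (fam := false) (s1 := true) (s2 := false) (a := 1) (b := 3) (c := 3) (cn := .dn) (n1 := ndF1q1) (n2 := ndF1q3) (pc := pcF3) (cut := Cut.none) (xt := Ext.none) (P1 := 536870912) (W1 := 536870912) (P2 := 1610612736) (W2 := 469762048) (P3 := 1046898278) (W3 := 26843546)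
    rfl k0_pm_133

noncomputable def f_pm_202_aa : ℕ → ℕ → ℕ → ℕ → Bool := onCell 0 420477299 0 420477299 1046898278 26843546
    (rowFX 0 false true false .pp 2 0 2 (qsf 0 420477299 0 420477299 0) ndF1q2a ndF1q2a pcF0 Cut.none Ext.none)

def k0_pm_202_aa : ∃ t, chk3 f_pm_202_aa t 1 1 1 = true :=
  ⟨(l 3), by decide +kernel⟩

theorem c_pm_202_aa : CertFX 0 420477299 0 420477299 1046898278 26843546 false true false .pp 2 0 2
    ndF1q2a ndF1q2a pcF0 Cut.none Ext.none :=
  certFX0 (fam := false) (s1 := true) (s2 := false) (a := 2) (b := 0) (c := 2) (cn := .pp) (n1 := ndF1q2a) (n2 := ndF1q2a) (pc := pcF0) (cut := Cut.none) (xt := Ext.none) (P1 := 0) (W1 := 420477299) (P2 := 0) (W2 := 420477299) (P3 := 1046898278) (W3 := 26843546)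
    rfl k0_pm_202_aa

noncomputable def f_pm_202_ab : ℕ → ℕ → ℕ → ℕ → Bool := onCell 0 420477299 1239849684 370763052 1046898278 26843546
    (rowFX 0 false true false .pp 2 0 2 (qsf 0 420477299 1239849684 370763052 0) ndF1q2a ndF1q2b pcF0 Cut.none Ext.none)

def k0_pm_202_ab : ∃ t, chk3 f_pm_202_ab t 1 1 1 = true :=
  ⟨(l 3), by decide +kernel⟩

theorem c_pm_202_ab : CertFX 0 420477299 1239849684 370763052 1046898278 26843546 false true false .pp 2 0 2
    ndF1q2a ndF1q2b pcF0 Cut.none Ext.none :=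
  certFX0 (fam := false) (s1 := true) (s2 := false) (a := 2) (b := 0) (c := 2) (cn := .pp) (n1 := ndF1q2a) (n2 := ndF1q2b) (pc := pcF0) (cut := Cut.none) (xt := Ext.none) (P1 := 0) (W1 := 420477299) (P2 := 1239849684) (W2 := 370763052) (P3 := 1046898278) (W3 := 26843546)
    rfl k0_pm_202_ab

noncomputable def f_pm_202_ba : ℕ → ℕ → ℕ → ℕ → Bool := onCell 1239849684 370763052 0 420477299 1046898278 26843546
    (rowFX 0 false true false .pp 2 0 2 (qsf 1239849684 370763052 0 420477299 0) ndF1q2b ndF1q2a pcF0 Cut.none Ext.none)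

def k0_pm_202_ba : ∃ t, chk3 f_pm_202_ba t 1 1 1 = true :=
  ⟨(l 3), by decide +kernel⟩

theorem c_pm_202_ba : CertFX 1239849684 370763052 0 420477299 1046898278 26843546 false true false .pp 2 0 2
    ndF1q2b ndF1q2a pcF0 Cut.none Ext.none :=
  certFX0 (fam := false) (s1 := true) (s2 := false) (a := 2) (b := 0) (c := 2) (cn := .pp) (n1 := ndF1q2b) (n2 := ndF1q2a) (pc := pcF0) (cut := Cut.none) (xt := Ext.none) (P1 := 1239849684) (W1 := 370763052) (P2 := 0) (W2 := 420477299) (P3 := 1046898278) (W3 := 26843546)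
    rfl k0_pm_202_ba

noncomputable def f_pm_202_bb : ℕ → ℕ → ℕ → ℕ → Bool := onCell 1239849684 370763052 1239849684 370763052 1046898278 26843546
    (rowFX 0 false true false .pp 2 0 2 (qsf 1239849684 370763052 1239849684 370763052 0) ndF1q2b ndF1q2b pcF0 Cut.none Ext.none)

def k0_pm_202_bb : ∃ t, chk3 f_pm_202_bb t 1 1 1 = true :=
  ⟨(l 3), by decide +kernel⟩

theorem c_pm_202_bb : CertFX 1239849684 370763052 1239849684 370763052 1046898278 26843546 false true false .pp 2 0 2
    ndF1q2b ndF1q2b pcF0 Cut.none Ext.none :=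
  certFX0 (fam := false) (s1 := true) (s2 := false) (a := 2) (b := 0) (c := 2) (cn := .pp) (n1 := ndF1q2b) (n2 := ndF1q2b) (pc := pcF0) (cut := Cut.none) (xt := Ext.none) (P1 := 1239849684) (W1 := 370763052) (P2 := 1239849684) (W2 := 370763052) (P3 := 1046898278) (W3 := 26843546)
    rfl k0_pm_202_bb

noncomputable def f_pm_203_a : ℕ → ℕ → ℕ → ℕ → Bool := onCell 0 420477299 1610612736 469762048 1046898278 26843546
    (rowFX 0 false true false .up 2 0 3 (qsf 0 420477299 1610612736 469762048 0) ndF1q2a ndF1q3 pcF0 Cut.none Ext.none)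

def k0_pm_203_a : ∃ t, chk3 f_pm_203_a t 1 1 1 = true :=
  ⟨(l 3), by decide +kernel⟩

theorem c_pm_203_a : CertFX 0 420477299 1610612736 469762048 1046898278 26843546 false true false .up 2 0 3
    ndF1q2a ndF1q3 pcF0 Cut.none Ext.none :=
  certFX0 (fam := false) (s1 := true) (s2 := false) (a := 2) (b := 0) (c := 3) (cn := .up) (n1 := ndF1q2a) (n2 := ndF1q3) (pc := pcF0) (cut := Cut.none) (xt := Ext.none) (P1 := 0) (W1 := 420477299) (P2 := 1610612736) (W2 := 469762048) (P3 := 1046898278) (W3 := 26843546)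
    rfl k0_pm_203_a

noncomputable def f_pm_203_b : ℕ → ℕ → ℕ → ℕ → Bool := onCell 1239849684 370763052 1610612736 469762048 1046898278 26843546
    (rowFX 0 false true false .up 2 0 3 (qsf 1239849684 370763052 1610612736 469762048 0) ndF1q2b ndF1q3 pcF0 Cut.none Ext.none)

def k0_pm_203_b : ∃ t, chk3 f_pm_203_b t 1 1 1 = true :=
  ⟨(l 3), by decide +kernel⟩

theorem c_pm_203_b : CertFX 1239849684 370763052 1610612736 469762048 1046898278 26843546 false true false .up 2 0 3
    ndF1q2b ndF1q3 pcF0 Cut.none Ext.none :=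
  certFX0 (fam := false) (s1 := true) (s2 := false) (a := 2) (b := 0) (c := 3) (cn := .up) (n1 := ndF1q2b) (n2 := ndF1q3) (pc := pcF0) (cut := Cut.none) (xt := Ext.none) (P1 := 1239849684) (W1 := 370763052) (P2 := 1610612736) (W2 := 469762048) (P3 := 1046898278) (W3 := 26843546)
    rfl k0_pm_203_b

noncomputable def f_pm_213_a : ℕ → ℕ → ℕ → ℕ → Bool := onCell 0 420477299 1610612736 469762048 1046898278 26843546
    (rowFX 0 false true false .pnn 2 1 3 (qsf 0 420477299 1610612736 469762048 1) ndF1q2a ndF1q3 pcF1 Cut.none Ext.none)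

def k0_pm_213_a : ∃ t, chk3 f_pm_213_a t 1 1 1 = true :=
  ⟨(l 3), by decide +kernel⟩

theorem c_pm_213_a : CertFX 0 420477299 1610612736 469762048 1046898278 26843546 false true false .pnn 2 1 3
    ndF1q2a ndF1q3 pcF1 Cut.none Ext.none :=
  certFX0 (fam := false) (s1 := true) (s2 := false) (a := 2) (b := 1) (c := 3) (cn := .pnn) (n1 := ndF1q2a) (n2 := ndF1q3) (pc := pcF1) (cut := Cut.none) (xt := Ext.none) (P1 := 0) (W1 := 420477299) (P2 := 1610612736) (W2 := 469762048) (P3 := 1046898278) (W3 := 26843546)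
    rfl k0_pm_213_a

noncomputable def f_pm_213_b : ℕ → ℕ → ℕ → ℕ → Bool := onCell 1239849684 370763052 1610612736 469762048 1046898278 26843546
    (rowFX 0 false true false .pnn 2 1 3 (qsf 1239849684 370763052 1610612736 469762048 1) ndF1q2b ndF1q3 pcF1 Cut.none Ext.none)

def k0_pm_213_b : ∃ t, chk3 f_pm_213_b t 1 1 1 = true :=
  ⟨(l 3), by decide +kernel⟩

theorem c_pm_213_b : CertFX 1239849684 370763052 1610612736 469762048 1046898278 26843546 false true false .pnn 2 1 3
    ndF1q2b ndF1q3 pcF1 Cut.none Ext.none :=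
  certFX0 (fam := false) (s1 := true) (s2 := false) (a := 2) (b := 1) (c := 3) (cn := .pnn) (n1 := ndF1q2b) (n2 := ndF1q3) (pc := pcF1) (cut := Cut.none) (xt := Ext.none) (P1 := 1239849684) (W1 := 370763052) (P2 := 1610612736) (W2 := 469762048) (P3 := 1046898278) (W3 := 26843546)
    rfl k0_pm_213_b

noncomputable def f_pm_303 : ℕ → ℕ → ℕ → ℕ → Bool := onCell 1610612736 469762048 1610612736 469762048 1046898278 26843546
    (rowFX 0 false true false .npn 3 0 3 (qsf 1610612736 469762048 1610612736 469762048 0) ndF1q3 ndF1q3 pcF0 Cut.none Ext.none)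

def k0_pm_303 : ∃ t, chk3 f_pm_303 t 1 1 1 = true :=
  ⟨(l 3), by decide +kernel⟩

theorem c_pm_303 : CertFX 1610612736 469762048 1610612736 469762048 1046898278 26843546 false true false .npn 3 0 3
    ndF1q3 ndF1q3 pcF0 Cut.none Ext.none :=
  certFX0 (fam := false) (s1 := true) (s2 := false) (a := 3) (b := 0) (c := 3) (cn := .npn) (n1 := ndF1q3) (n2 := ndF1q3) (pc := pcF0) (cut := Cut.none) (xt := Ext.none) (P1 := 1610612736) (W1 := 469762048) (P2 := 1610612736) (W2 := 469762048) (P3 := 1046898278) (W3 := 26843546)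
    rfl k0_pm_303

noncomputable def f_pm_313 : ℕ → ℕ → ℕ → ℕ → Bool := onCell 1610612736 469762048 1610612736 469762048 1046898278 26843546
    (rowFX 0 false true false .dn 3 1 3 (qsf 1610612736 469762048 1610612736 469762048 1) ndF1q3 ndF1q3 pcF1 Cut.none Ext.none)

def k0_pm_313 : ∃ t, chk3 f_pm_313 t 1 1 1 = true :=
  ⟨(l 1), by decide +kernel⟩

theorem c_pm_313 : CertFX 1610612736 469762048 1610612736 469762048 1046898278 26843546 false true false .dn 3 1 3
    ndF1q3 ndF1q3 pcF1 Cut.none Ext.none :=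
  certFX0 (fam := false) (s1 := true) (s2 := false) (a := 3) (b := 1) (c := 3) (cn := .dn) (n1 := ndF1q3) (n2 := ndF1q3) (pc := pcF1) (cut := Cut.none) (xt := Ext.none) (P1 := 1610612736) (W1 := 469762048) (P2 := 1610612736) (W2 := 469762048) (P3 := 1046898278) (W3 := 26843546)
    rfl k0_pm_313

noncomputable def f_mm_001 : ℕ → ℕ → ℕ → ℕ → Bool := onCell 67108864 469762048 536870912 536870912 1046898278 26843546
    (rowFX 0 false false false .up 0 0 1 (qsf 67108864 469762048 536870912 536870912 0) ndF1q0 ndF1q1 pcF0 Cut.none Ext.none)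

def k0_mm_001 : ∃ t, chk3 f_mm_001 t 1 1 1 = true :=
  ⟨(l 3), by decide +kernel⟩

theorem c_mm_001 : CertFX 67108864 469762048 536870912 536870912 1046898278 26843546 false false false .up 0 0 1
    ndF1q0 ndF1q1 pcF0 Cut.none Ext.none :=
  certFX0 (fam := false) (s1 := false) (s2 := false) (a := 0) (b := 0) (c := 1) (cn := .up) (n1 := ndF1q0) (n2 := ndF1q1) (pc := pcF0) (cut := Cut.none) (xt := Ext.none) (P1 := 67108864) (W1 := 469762048) (P2 := 536870912) (W2 := 536870912) (P3 := 1046898278) (W3 := 26843546)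
    rfl k0_mm_001

noncomputable def f_mm_011 : ℕ → ℕ → ℕ → ℕ → Bool := onCell 67108864 469762048 536870912 536870912 1046898278 26843546
    (rowFX 0 false false false .pnn 0 1 1 (qsf 67108864 469762048 536870912 536870912 1) ndF1q0 ndF1q1 pcF1 Cut.none Ext.none)

def k0_mm_011 : ∃ t, chk3 f_mm_011 t 1 1 1 = true :=
  ⟨(l 3), by decide +kernel⟩

theorem c_mm_011 : CertFX 67108864 469762048 536870912 536870912 1046898278 26843546 false false false .pnn 0 1 1
    ndF1q0 ndF1q1 pcF1 Cut.none Ext.none :=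
  certFX0 (fam := false) (s1 := false) (s2 := false) (a := 0) (b := 1) (c := 1) (cn := .pnn) (n1 := ndF1q0) (n2 := ndF1q1) (pc := pcF1) (cut := Cut.none) (xt := Ext.none) (P1 := 67108864) (W1 := 469762048) (P2 := 536870912) (W2 := 536870912) (P3 := 1046898278) (W3 := 26843546)
    rfl k0_mm_011

noncomputable def f_mm_012_a : ℕ → ℕ → ℕ → ℕ → Bool := onCell 67108864 469762048 0 420477299 1046898278 26843546
    (rowFX 0 false false false .pnp 0 1 2 (qsf 67108864 469762048 0 420477299 1) ndF1q0 ndF1q2a pcF1 Cut.none Ext.none)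

def k0_mm_012_a : ∃ t, chk3 f_mm_012_a t 1 1 1 = true :=
  ⟨(l 5), by decide +kernel⟩

theorem c_mm_012_a : CertFX 67108864 469762048 0 420477299 1046898278 26843546 false false false .pnp 0 1 2
    ndF1q0 ndF1q2a pcF1 Cut.none Ext.none :=
  certFX0 (fam := false) (s1 := false) (s2 := false) (a := 0) (b := 1) (c := 2) (cn := .pnp) (n1 := ndF1q0) (n2 := ndF1q2a) (pc := pcF1) (cut := Cut.none) (xt := Ext.none) (P1 := 67108864) (W1 := 469762048) (P2 := 0) (W2 := 420477299) (P3 := 1046898278) (W3 := 26843546)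
    rfl k0_mm_012_a

noncomputable def f_mm_012_b : ℕ → ℕ → ℕ → ℕ → Bool := onCell 67108864 469762048 1239849684 370763052 1046898278 26843546
    (rowFX 0 false false false .pnp 0 1 2 (qsf 67108864 469762048 1239849684 370763052 1) ndF1q0 ndF1q2b pcF1 Cut.none Ext.none)

def k0_mm_012_b : ∃ t, chk3 f_mm_012_b t 1 1 1 = true :=
  ⟨(l 5), by decide +kernel⟩

theorem c_mm_012_b : CertFX 67108864 469762048 1239849684 370763052 1046898278 26843546 false false false .pnp 0 1 2
    ndF1q0 ndF1q2b pcF1 Cut.none Ext.none :=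
  certFX0 (fam := false) (s1 := false) (s2 := false) (a := 0) (b := 1) (c := 2) (cn := .pnp) (n1 := ndF1q0) (n2 := ndF1q2b) (pc := pcF1) (cut := Cut.none) (xt := Ext.none) (P1 := 67108864) (W1 := 469762048) (P2 := 1239849684) (W2 := 370763052) (P3 := 1046898278) (W3 := 26843546)
    rfl k0_mm_012_b

noncomputable def f_mm_022_a : ℕ → ℕ → ℕ → ℕ → Bool := onCell 67108864 469762048 0 420477299 1046898278 26843546
    (rowFX 0 false false false .pp 0 2 2 (qsf 67108864 469762048 0 420477299 2) ndF1q0 ndF1q2a pcF2 Cut.none Ext.none)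

def k0_mm_022_a : ∃ t, chk3 f_mm_022_a t 1 1 1 = true :=
  ⟨(l 5), by decide +kernel⟩

theorem c_mm_022_a : CertFX 67108864 469762048 0 420477299 1046898278 26843546 false false false .pp 0 2 2
    ndF1q0 ndF1q2a pcF2 Cut.none Ext.none :=
  certFX0 (fam := false) (s1 := false) (s2 := false) (a := 0) (b := 2) (c := 2) (cn := .pp) (n1 := ndF1q0) (n2 := ndF1q2a) (pc := pcF2) (cut := Cut.none) (xt := Ext.none) (P1 := 67108864) (W1 := 469762048) (P2 := 0) (W2 := 420477299) (P3 := 1046898278) (W3 := 26843546)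
    rfl k0_mm_022_a

noncomputable def f_mm_022_b : ℕ → ℕ → ℕ → ℕ → Bool := onCell 67108864 469762048 1239849684 370763052 1046898278 26843546
    (rowFX 0 false false false .pp 0 2 2 (qsf 67108864 469762048 1239849684 370763052 2) ndF1q0 ndF1q2b pcF2 Cut.none Ext.none)

def k0_mm_022_b : ∃ t, chk3 f_mm_022_b t 1 1 1 = true :=
  ⟨(l 5), by decide +kernel⟩

theorem c_mm_022_b : CertFX 67108864 469762048 1239849684 370763052 1046898278 26843546 false false false .pp 0 2 2
    ndF1q0 ndF1q2b pcF2 Cut.none Ext.none :=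
  certFX0 (fam := false) (s1 := false) (s2 := false) (a := 0) (b := 2) (c := 2) (cn := .pp) (n1 := ndF1q0) (n2 := ndF1q2b) (pc := pcF2) (cut := Cut.none) (xt := Ext.none) (P1 := 67108864) (W1 := 469762048) (P2 := 1239849684) (W2 := 370763052) (P3 := 1046898278) (W3 := 26843546)
    rfl k0_mm_022_b

noncomputable def f_mm_023 : ℕ → ℕ → ℕ → ℕ → Bool := onCell 67108864 469762048 1610612736 469762048 1046898278 26843546
    (rowFX 0 false false false .up 0 2 3 (qsf 67108864 469762048 1610612736 469762048 2) ndF1q0 ndF1q3 pcF2 Cut.none Ext.none)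

def k0_mm_023 : ∃ t, chk3 f_mm_023 t 1 1 1 = true :=
  ⟨(l 5), by decide +kernel⟩

theorem c_mm_023 : CertFX 67108864 469762048 1610612736 469762048 1046898278 26843546 false false false .up 0 2 3
    ndF1q0 ndF1q3 pcF2 Cut.none Ext.none :=
  certFX0 (fam := false) (s1 := false) (s2 := false) (a := 0) (b := 2) (c := 3) (cn := .up) (n1 := ndF1q0) (n2 := ndF1q3) (pc := pcF2) (cut := Cut.none) (xt := Ext.none) (P1 := 67108864) (W1 := 469762048) (P2 := 1610612736) (W2 := 469762048) (P3 := 1046898278) (W3 := 26843546)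
    rfl k0_mm_023

noncomputable def f_mm_033 : ℕ → ℕ → ℕ → ℕ → Bool := onCell 67108864 469762048 1610612736 469762048 1046898278 26843546
    (rowFX 0 false false false .pnn 0 3 3 (qsf 67108864 469762048 1610612736 469762048 3) ndF1q0 ndF1q3 pcF3 Cut.none Ext.none)

def k0_mm_033 : ∃ t, chk3 f_mm_033 t 1 1 1 = true :=
  ⟨(l 5), by decide +kernel⟩

theorem c_mm_033 : CertFX 67108864 469762048 1610612736 469762048 1046898278 26843546 false false false .pnn 0 3 3
    ndF1q0 ndF1q3 pcF3 Cut.none Ext.none :=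
  certFX0 (fam := false) (s1 := false) (s2 := false) (a := 0) (b := 3) (c := 3) (cn := .pnn) (n1 := ndF1q0) (n2 := ndF1q3) (pc := pcF3) (cut := Cut.none) (xt := Ext.none) (P1 := 67108864) (W1 := 469762048) (P2 := 1610612736) (W2 := 469762048) (P3 := 1046898278) (W3 := 26843546)
    rfl k0_mm_033

noncomputable def f_mm_101 : ℕ → ℕ → ℕ → ℕ → Bool := onCell 536870912 536870912 536870912 536870912 1046898278 26843546
    (rowFX 0 false false false .npn 1 0 1 (qsf 536870912 536870912 536870912 536870912 0) ndF1q1 ndF1q1 pcF0 Cut.none Ext.none)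

def k0_mm_101 : ∃ t, chk3 f_mm_101 t 1 1 1 = true :=
  ⟨(l 3), by decide +kernel⟩

theorem c_mm_101 : CertFX 536870912 536870912 536870912 536870912 1046898278 26843546 false false false .npn 1 0 1
    ndF1q1 ndF1q1 pcF0 Cut.none Ext.none :=
  certFX0 (fam := false) (s1 := false) (s2 := false) (a := 1) (b := 0) (c := 1) (cn := .npn) (n1 := ndF1q1) (n2 := ndF1q1) (pc := pcF0) (cut := Cut.none) (xt := Ext.none) (P1 := 536870912) (W1 := 536870912) (P2 := 536870912) (W2 := 536870912) (P3 := 1046898278) (W3 := 26843546)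
    rfl k0_mm_101

noncomputable def f_mm_102_a : ℕ → ℕ → ℕ → ℕ → Bool := onCell 536870912 536870912 0 420477299 1046898278 26843546
    (rowFX 0 false false false .npp 1 0 2 (qsf 536870912 536870912 0 420477299 0) ndF1q1 ndF1q2a pcF0 Cut.none Ext.none)

def k0_mm_102_a : ∃ t, chk3 f_mm_102_a t 1 1 1 = true :=
  ⟨(l 5), by decide +kernel⟩

theorem c_mm_102_a : CertFX 536870912 536870912 0 420477299 1046898278 26843546 false false false .npp 1 0 2
    ndF1q1 ndF1q2a pcF0 Cut.none Ext.none :=
  certFX0 (fam := false) (s1 := false) (s2 := false) (a := 1) (b := 0) (c := 2) (cn := .npp) (n1 := ndF1q1) (n2 := ndF1q2a) (pc := pcF0) (cut := Cut.none) (xt := Ext.none) (P1 := 536870912) (W1 := 536870912) (P2 := 0) (W2 := 420477299) (P3 := 1046898278) (W3 := 26843546)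
    rfl k0_mm_102_a

noncomputable def f_mm_102_b : ℕ → ℕ → ℕ → ℕ → Bool := onCell 536870912 536870912 1239849684 370763052 1046898278 26843546
    (rowFX 0 false false false .npp 1 0 2 (qsf 536870912 536870912 1239849684 370763052 0) ndF1q1 ndF1q2b pcF0 Cut.none Ext.none)

def k0_mm_102_b : ∃ t, chk3 f_mm_102_b t 1 1 1 = true :=
  ⟨(l 5), by decide +kernel⟩

theorem c_mm_102_b : CertFX 536870912 536870912 1239849684 370763052 1046898278 26843546 false false false .npp 1 0 2
    ndF1q1 ndF1q2b pcF0 Cut.none Ext.none :=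
  certFX0 (fam := false) (s1 := false) (s2 := false) (a := 1) (b := 0) (c := 2) (cn := .npp) (n1 := ndF1q1) (n2 := ndF1q2b) (pc := pcF0) (cut := Cut.none) (xt := Ext.none) (P1 := 536870912) (W1 := 536870912) (P2 := 1239849684) (W2 := 370763052) (P3 := 1046898278) (W3 := 26843546)
    rfl k0_mm_102_b

noncomputable def f_mm_112_a : ℕ → ℕ → ℕ → ℕ → Bool := onCell 536870912 536870912 0 420477299 1046898278 26843546
    (rowFX 0 false false false .dn 1 1 2 (qsf 536870912 536870912 0 420477299 1) ndF1q1 ndF1q2a pcF1 Cut.none Ext.none)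

def k0_mm_112_a : ∃ t, chk3 f_mm_112_a t 1 1 1 = true :=
  ⟨(l 5), by decide +kernel⟩

theorem c_mm_112_a : CertFX 536870912 536870912 0 420477299 1046898278 26843546 false false false .dn 1 1 2
    ndF1q1 ndF1q2a pcF1 Cut.none Ext.none :=
  certFX0 (fam := false) (s1 := false) (s2 := false) (a := 1) (b := 1) (c := 2) (cn := .dn) (n1 := ndF1q1) (n2 := ndF1q2a) (pc := pcF1) (cut := Cut.none) (xt := Ext.none) (P1 := 536870912) (W1 := 536870912) (P2 := 0) (W2 := 420477299) (P3 := 1046898278) (W3 := 26843546)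
    rfl k0_mm_112_a

noncomputable def f_mm_112_b : ℕ → ℕ → ℕ → ℕ → Bool := onCell 536870912 536870912 1239849684 370763052 1046898278 26843546
    (rowFX 0 false false false .dn 1 1 2 (qsf 536870912 536870912 1239849684 370763052 1) ndF1q1 ndF1q2b pcF1 Cut.none Ext.none)

def k0_mm_112_b : ∃ t, chk3 f_mm_112_b t 1 1 1 = true :=
  ⟨(l 5), by decide +kernel⟩

theorem c_mm_112_b : CertFX 536870912 536870912 1239849684 370763052 1046898278 26843546 false false false .dn 1 1 2
    ndF1q1 ndF1q2b pcF1 Cut.none Ext.none :=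
  certFX0 (fam := false) (s1 := false) (s2 := false) (a := 1) (b := 1) (c := 2) (cn := .dn) (n1 := ndF1q1) (n2 := ndF1q2b) (pc := pcF1) (cut := Cut.none) (xt := Ext.none) (P1 := 536870912) (W1 := 536870912) (P2 := 1239849684) (W2 := 370763052) (P3 := 1046898278) (W3 := 26843546)
    rfl k0_mm_112_b

noncomputable def f_mm_113 : ℕ → ℕ → ℕ → ℕ → Bool := onCell 536870912 536870912 1610612736 469762048 1046898278 26843546
    (rowFX 0 false false false .nn 1 1 3 (qsf 536870912 536870912 1610612736 469762048 1) ndF1q1 ndF1q3 pcF1 Cut.none Ext.none)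

def k0_mm_113 : ∃ t, chk3 f_mm_113 t 1 1 1 = true :=
  ⟨(l 5), by decide +kernel⟩

theorem c_mm_113 : CertFX 536870912 536870912 1610612736 469762048 1046898278 26843546 false false false .nn 1 1 3
    ndF1q1 ndF1q3 pcF1 Cut.none Ext.none :=
  certFX0 (fam := false) (s1 := false) (s2 := false) (a := 1) (b := 1) (c := 3) (cn := .nn) (n1 := ndF1q1) (n2 := ndF1q3) (pc := pcF1) (cut := Cut.none) (xt := Ext.none) (P1 := 536870912) (W1 := 536870912) (P2 := 1610612736) (W2 := 469762048) (P3 := 1046898278) (W3 := 26843546)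
    rfl k0_mm_113

noncomputable def f_mm_123 : ℕ → ℕ → ℕ → ℕ → Bool := onCell 536870912 536870912 1610612736 469762048 1046898278 26843546
    (rowFX 0 false false false .npn 1 2 3 (qsf 536870912 536870912 1610612736 469762048 2) ndF1q1 ndF1q3 pcF2 Cut.none Ext.none)

def k0_mm_123 : ∃ t, chk3 f_mm_123 t 1 1 1 = true :=
  ⟨(l 5), by decide +kernel⟩

theorem c_mm_123 : CertFX 536870912 536870912 1610612736 469762048 1046898278 26843546 false false false .npn 1 2 3
    ndF1q1 ndF1q3 pcF2 Cut.none Ext.none :=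
  certFX0 (fam := false) (s1 := false) (s2 := false) (a := 1) (b := 2) (c := 3) (cn := .npn) (n1 := ndF1q1) (n2 := ndF1q3) (pc := pcF2) (cut := Cut.none) (xt := Ext.none) (P1 := 536870912) (W1 := 536870912) (P2 := 1610612736) (W2 := 469762048) (P3 := 1046898278) (W3 := 26843546)
    rfl k0_mm_123

noncomputable def f_mm_133 : ℕ → ℕ → ℕ → ℕ → Bool := onCell 536870912 536870912 1610612736 469762048 1046898278 26843546
    (rowFX 0 false false false .dn 1 3 3 (qsf 536870912 536870912 1610612736 469762048 3) ndF1q1 ndF1q3 pcF3 Cut.none Ext.none)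

def k0_mm_133 : ∃ t, chk3 f_mm_133 t 1 1 1 = true :=
  ⟨(l 1), by decide +kernel⟩

theorem c_mm_133 : CertFX 536870912 536870912 1610612736 469762048 1046898278 26843546 false false false .dn 1 3 3
    ndF1q1 ndF1q3 pcF3 Cut.none Ext.none :=
  certFX0 (fam := false) (s1 := false) (s2 := false) (a := 1) (b := 3) (c := 3) (cn := .dn) (n1 := ndF1q1) (n2 := ndF1q3) (pc := pcF3) (cut := Cut.none) (xt := Ext.none) (P1 := 536870912) (W1 := 536870912) (P2 := 1610612736) (W2 := 469762048) (P3 := 1046898278) (W3 := 26843546)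
    rfl k0_mm_133

noncomputable def f_mm_202_aa : ℕ → ℕ → ℕ → ℕ → Bool := onCell 0 420477299 0 420477299 1046898278 26843546
    (rowFX 0 false false false .pp 2 0 2 (qsf 0 420477299 0 420477299 0) ndF1q2a ndF1q2a pcF0 Cut.none Ext.none)

def k0_mm_202_aa : ∃ t, chk3 f_mm_202_aa t 1 1 1 = true :=
  ⟨(l 3), by decide +kernel⟩

theorem c_mm_202_aa : CertFX 0 420477299 0 420477299 1046898278 26843546 false false false .pp 2 0 2
    ndF1q2a ndF1q2a pcF0 Cut.none Ext.none :=
  certFX0 (fam := false) (s1 := false) (s2 := false) (a := 2) (b := 0) (c := 2) (cn := .pp) (n1 := ndF1q2a) (n2 := ndF1q2a) (pc := pcF0) (cut := Cut.none) (xt := Ext.none) (P1 := 0) (W1 := 420477299) (P2 := 0) (W2 := 420477299) (P3 := 1046898278) (W3 := 26843546)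
    rfl k0_mm_202_aa

noncomputable def f_mm_202_ab : ℕ → ℕ → ℕ → ℕ → Bool := onCell 0 420477299 1239849684 370763052 1046898278 26843546
    (rowFX 0 false false false .pp 2 0 2 (qsf 0 420477299 1239849684 370763052 0) ndF1q2a ndF1q2b pcF0 Cut.none Ext.none)

def k0_mm_202_ab : ∃ t, chk3 f_mm_202_ab t 1 1 1 = true :=
  ⟨(l 3), by decide +kernel⟩

theorem c_mm_202_ab : CertFX 0 420477299 1239849684 370763052 1046898278 26843546 false false false .pp 2 0 2
    ndF1q2a ndF1q2b pcF0 Cut.none Ext.none :=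
  certFX0 (fam := false) (s1 := false) (s2 := false) (a := 2) (b := 0) (c := 2) (cn := .pp) (n1 := ndF1q2a) (n2 := ndF1q2b) (pc := pcF0) (cut := Cut.none) (xt := Ext.none) (P1 := 0) (W1 := 420477299) (P2 := 1239849684) (W2 := 370763052) (P3 := 1046898278) (W3 := 26843546)
    rfl k0_mm_202_ab

noncomputable def f_mm_202_ba : ℕ → ℕ → ℕ → ℕ → Bool := onCell 1239849684 370763052 0 420477299 1046898278 26843546
    (rowFX 0 false false false .pp 2 0 2 (qsf 1239849684 370763052 0 420477299 0) ndF1q2b ndF1q2a pcF0 Cut.none Ext.none)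

def k0_mm_202_ba : ∃ t, chk3 f_mm_202_ba t 1 1 1 = true :=
  ⟨(l 3), by decide +kernel⟩

theorem c_mm_202_ba : CertFX 1239849684 370763052 0 420477299 1046898278 26843546 false false false .pp 2 0 2
    ndF1q2b ndF1q2a pcF0 Cut.none Ext.none :=
  certFX0 (fam := false) (s1 := false) (s2 := false) (a := 2) (b := 0) (c := 2) (cn := .pp) (n1 := ndF1q2b) (n2 := ndF1q2a) (pc := pcF0) (cut := Cut.none) (xt := Ext.none) (P1 := 1239849684) (W1 := 370763052) (P2 := 0) (W2 := 420477299) (P3 := 1046898278) (W3 := 26843546)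
    rfl k0_mm_202_ba

noncomputable def f_mm_202_bb : ℕ → ℕ → ℕ → ℕ → Bool := onCell 1239849684 370763052 1239849684 370763052 1046898278 26843546
    (rowFX 0 false false false .pp 2 0 2 (qsf 1239849684 370763052 1239849684 370763052 0) ndF1q2b ndF1q2b pcF0 Cut.none Ext.none)

def k0_mm_202_bb : ∃ t, chk3 f_mm_202_bb t 1 1 1 = true :=
  ⟨(l 3), by decide +kernel⟩

theorem c_mm_202_bb : CertFX 1239849684 370763052 1239849684 370763052 1046898278 26843546 false false false .pp 2 0 2
    ndF1q2b ndF1q2b pcF0 Cut.none Ext.none :=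
  certFX0 (fam := false) (s1 := false) (s2 := false) (a := 2) (b := 0) (c := 2) (cn := .pp) (n1 := ndF1q2b) (n2 := ndF1q2b) (pc := pcF0) (cut := Cut.none) (xt := Ext.none) (P1 := 1239849684) (W1 := 370763052) (P2 := 1239849684) (W2 := 370763052) (P3 := 1046898278) (W3 := 26843546)
    rfl k0_mm_202_bb

noncomputable def f_mm_203_a : ℕ → ℕ → ℕ → ℕ → Bool := onCell 0 420477299 1610612736 469762048 1046898278 26843546
    (rowFX 0 false false false .up 2 0 3 (qsf 0 420477299 1610612736 469762048 0) ndF1q2a ndF1q3 pcF0 Cut.none Ext.none)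

def k0_mm_203_a : ∃ t, chk3 f_mm_203_a t 1 1 1 = true :=
  ⟨(l 3), by decide +kernel⟩

theorem c_mm_203_a : CertFX 0 420477299 1610612736 469762048 1046898278 26843546 false false false .up 2 0 3
    ndF1q2a ndF1q3 pcF0 Cut.none Ext.none :=
  certFX0 (fam := false) (s1 := false) (s2 := false) (a := 2) (b := 0) (c := 3) (cn := .up) (n1 := ndF1q2a) (n2 := ndF1q3) (pc := pcF0) (cut := Cut.none) (xt := Ext.none) (P1 := 0) (W1 := 420477299) (P2 := 1610612736) (W2 := 469762048) (P3 := 1046898278) (W3 := 26843546)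
    rfl k0_mm_203_a

noncomputable def f_mm_203_b : ℕ → ℕ → ℕ → ℕ → Bool := onCell 1239849684 370763052 1610612736 469762048 1046898278 26843546
    (rowFX 0 false false false .up 2 0 3 (qsf 1239849684 370763052 1610612736 469762048 0) ndF1q2b ndF1q3 pcF0 Cut.none Ext.none)

def k0_mm_203_b : ∃ t, chk3 f_mm_203_b t 1 1 1 = true :=
  ⟨(l 3), by decide +kernel⟩

theorem c_mm_203_b : CertFX 1239849684 370763052 1610612736 469762048 1046898278 26843546 false false false .up 2 0 3
    ndF1q2b ndF1q3 pcF0 Cut.none Ext.none :=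
  certFX0 (fam := false) (s1 := false) (s2 := false) (a := 2) (b := 0) (c := 3) (cn := .up) (n1 := ndF1q2b) (n2 := ndF1q3) (pc := pcF0) (cut := Cut.none) (xt := Ext.none) (P1 := 1239849684) (W1 := 370763052) (P2 := 1610612736) (W2 := 469762048) (P3 := 1046898278) (W3 := 26843546)
    rfl k0_mm_203_b

noncomputable def f_mm_213_a : ℕ → ℕ → ℕ → ℕ → Bool := onCell 0 420477299 1610612736 469762048 1046898278 26843546
    (rowFX 0 false false false .pnn 2 1 3 (qsf 0 420477299 1610612736 469762048 1) ndF1q2a ndF1q3 pcF1 Cut.none Ext.none)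

def k0_mm_213_a : ∃ t, chk3 f_mm_213_a t 1 1 1 = true :=
  ⟨(l 3), by decide +kernel⟩

theorem c_mm_213_a : CertFX 0 420477299 1610612736 469762048 1046898278 26843546 false false false .pnn 2 1 3
    ndF1q2a ndF1q3 pcF1 Cut.none Ext.none :=
  certFX0 (fam := false) (s1 := false) (s2 := false) (a := 2) (b := 1) (c := 3) (cn := .pnn) (n1 := ndF1q2a) (n2 := ndF1q3) (pc := pcF1) (cut := Cut.none) (xt := Ext.none) (P1 := 0) (W1 := 420477299) (P2 := 1610612736) (W2 := 469762048) (P3 := 1046898278) (W3 := 26843546)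
    rfl k0_mm_213_a

noncomputable def f_mm_213_b : ℕ → ℕ → ℕ → ℕ → Bool := onCell 1239849684 370763052 1610612736 469762048 1046898278 26843546
    (rowFX 0 false false false .pnn 2 1 3 (qsf 1239849684 370763052 1610612736 469762048 1) ndF1q2b ndF1q3 pcF1 Cut.none Ext.none)

def k0_mm_213_b : ∃ t, chk3 f_mm_213_b t 1 1 1 = true :=
  ⟨(l 3), by decide +kernel⟩

theorem c_mm_213_b : CertFX 1239849684 370763052 1610612736 469762048 1046898278 26843546 false false false .pnn 2 1 3
    ndF1q2b ndF1q3 pcF1 Cut.none Ext.none :=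
  certFX0 (fam := false) (s1 := false) (s2 := false) (a := 2) (b := 1) (c := 3) (cn := .pnn) (n1 := ndF1q2b) (n2 := ndF1q3) (pc := pcF1) (cut := Cut.none) (xt := Ext.none) (P1 := 1239849684) (W1 := 370763052) (P2 := 1610612736) (W2 := 469762048) (P3 := 1046898278) (W3 := 26843546)
    rfl k0_mm_213_b

noncomputable def f_mm_303 : ℕ → ℕ → ℕ → ℕ → Bool := onCell 1610612736 469762048 1610612736 469762048 1046898278 26843546
    (rowFX 0 false false false .npn 3 0 3 (qsf 1610612736 469762048 1610612736 469762048 0) ndF1q3 ndF1q3 pcF0 Cut.none Ext.none)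

def k0_mm_303 : ∃ t, chk3 f_mm_303 t 1 1 1 = true :=
  ⟨(l 3), by decide +kernel⟩

theorem c_mm_303 : CertFX 1610612736 469762048 1610612736 469762048 1046898278 26843546 false false false .npn 3 0 3
    ndF1q3 ndF1q3 pcF0 Cut.none Ext.none :=
  certFX0 (fam := false) (s1 := false) (s2 := false) (a := 3) (b := 0) (c := 3) (cn := .npn) (n1 := ndF1q3) (n2 := ndF1q3) (pc := pcF0) (cut := Cut.none) (xt := Ext.none) (P1 := 1610612736) (W1 := 469762048) (P2 := 1610612736) (W2 := 469762048) (P3 := 1046898278) (W3 := 26843546)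
    rfl k0_mm_303

noncomputable def f_mm_313 : ℕ → ℕ → ℕ → ℕ → Bool := onCell 1610612736 469762048 1610612736 469762048 1046898278 26843546
    (rowFX 0 false false false .dn 3 1 3 (qsf 1610612736 469762048 1610612736 469762048 1) ndF1q3 ndF1q3 pcF1 Cut.none Ext.none)

def k0_mm_313 : ∃ t, chk3 f_mm_313 t 1 1 1 = true :=
  ⟨(l 1), by decide +kernel⟩

theorem c_mm_313 : CertFX 1610612736 469762048 1610612736 469762048 1046898278 26843546 false false false .dn 3 1 3
    ndF1q3 ndF1q3 pcF1 Cut.none Ext.none :=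
  certFX0 (fam := false) (s1 := false) (s2 := false) (a := 3) (b := 1) (c := 3) (cn := .dn) (n1 := ndF1q3) (n2 := ndF1q3) (pc := pcF1) (cut := Cut.none) (xt := Ext.none) (P1 := 1610612736) (W1 := 469762048) (P2 := 1610612736) (W2 := 469762048) (P3 := 1046898278) (W3 := 26843546)
    rfl k0_mm_313

end Pool.Agent.Strip051.G.IE1.Tab.C.FB11

namespace Pool.Agent.Strip051.G.IE1.Tab.C.FB12

open Pool.Agent.Strip051.PB Pool.Agent.Strip051.PB.T
open Pool.Agent.Strip051.G.IE1.Tab

noncomputable def f_pp_001 : ℕ → ℕ → ℕ → ℕ → Bool := onCell 67108864 469762048 536870912 536870912 1046898278 26843546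
    (rowFX 0 false true true .up 0 0 1 (qsf 67108864 469762048 536870912 536870912 0) ndF1q0 ndF2q1 pcF0 Cut.none Ext.none)

def k0_pp_001 : ∃ t, chk3 f_pp_001 t 1 1 1 = true :=
  ⟨(l 3), by decide +kernel⟩

theorem c_pp_001 : CertFX 67108864 469762048 536870912 536870912 1046898278 26843546 false true true .up 0 0 1
    ndF1q0 ndF2q1 pcF0 Cut.none Ext.none :=
  certFX0 (fam := false) (s1 := true) (s2 := true) (a := 0) (b := 0) (c := 1) (cn := .up) (n1 := ndF1q0) (n2 := ndF2q1) (pc := pcF0) (cut := Cut.none) (xt := Ext.none) (P1 := 67108864) (W1 := 469762048) (P2 := 536870912) (W2 := 536870912) (P3 := 1046898278) (W3 := 26843546)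
    rfl k0_pp_001

noncomputable def f_pp_011 : ℕ → ℕ → ℕ → ℕ → Bool := onCell 67108864 469762048 536870912 536870912 1046898278 26843546
    (rowFX 0 false true true .pnn 0 1 1 (qsf 67108864 469762048 536870912 536870912 1) ndF1q0 ndF2q1 pcF1 Cut.none Ext.none)

def k0_pp_011 : ∃ t, chk3 f_pp_011 t 1 1 1 = true :=
  ⟨(l 3), by decide +kernel⟩

theorem c_pp_011 : CertFX 67108864 469762048 536870912 536870912 1046898278 26843546 false true true .pnn 0 1 1
    ndF1q0 ndF2q1 pcF1 Cut.none Ext.none :=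
  certFX0 (fam := false) (s1 := true) (s2 := true) (a := 0) (b := 1) (c := 1) (cn := .pnn) (n1 := ndF1q0) (n2 := ndF2q1) (pc := pcF1) (cut := Cut.none) (xt := Ext.none) (P1 := 67108864) (W1 := 469762048) (P2 := 536870912) (W2 := 536870912) (P3 := 1046898278) (W3 := 26843546)
    rfl k0_pp_011

noncomputable def f_pp_012_a : ℕ → ℕ → ℕ → ℕ → Bool := onCell 536870912 536870912 0 420477299 1046898278 26843546
    (rowFX 2 false true true .pnp 0 1 2 (qsf 67108864 469762048 0 420477299 1) ndF1q0 ndF2q2a pcF1 Cut.none Ext.none)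

def k0_pp_012_a : ∃ t, chk3 f_pp_012_a t 2 1 1 = true :=
  ⟨(l 3), by decide +kernel⟩

def k1_pp_012_a : ∃ t, chk3 f_pp_012_a t 6 1 1 = true :=
  ⟨(b (a (b (a (l 3) (b (a (l 261623758295) (l 118279225623)) (a (l 3) (l 315847711479)))) (l 3)) (a (b (a (b (l 16704328) (c (l 223505895927) (l 219210928663))) (c (l 16679192) (l 16677168))) (b (a (l 3) (c (l 178945616535) (l 185388067863))) (l 3))) (b (a (b (l 16698128) (l 16688472)) (b (a (l 16701896) (l 16730864)) (a (l 16675520) (l 16725112)))) (a (b (c (l 16720080) (l 16718584)) (c (l 16723760) (l 190219974247))) (b (a (l 16700208) (l 16749680)) (a (b (l 16765288) (l 16712816)) (l 16685856))))))) (a (l 3) (b (a (l 3) (a (l 3) (a (l 3) (b (l 176797912615) (l 3))))) (l 3)))), by decide +kernel⟩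

def k2_pp_012_a : ∃ t, chk3 f_pp_012_a t 7 2 1 = true :=
  ⟨(a (a (b (a (b (l 16710928) (l 16692584)) (b (l 16608544) (l 16610440))) (a (b (l 16631800) (l 16584464)) (b (l 16589680) (l 16518024)))) (b (a (b (l 16506584) (l 16507392)) (b (l 16410480) (a (l 16431048) (l 16404168)))) (a (b (l 16484384) (a (l 16458040) (b (l 16425928) (l 16414656)))) (b (a (l 16421496) (l 16419288)) (c (l 16429288) (l 16420576)))))) (a (b (a (b (l 16400496) (l 16420240)) (c (a (l 16444160) (l 16469512)) (l 16450192))) (a (b (l 16438216) (l 16447672)) (c (b (l 16475192) (l 16479608)) (b (l 16470000) (l 16474792))))) (b (a (c (b (a (l 16467968) (c (l 16519728) (l 16517776))) (a (l 16502896) (l 16470616))) (b (l 16499096) (l 16515104))) (a (c (b (l 16532344) (l 16568752)) (b (l 16508320) (l 16546080))) (b (l 16590984) (c (l 16604528) (c (l 16603608) (l 16540192)))))) (a (c (b (a (l 16515632) (l 16545544)) (a (l 16518888) (l 16526448))) (b (l 16529464) (l 16533592))) (c (b (l 16594288) (l 16561824)) (a (b (l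 16579752) (l 16575400)) (c (l 16580520) (a (l 16597408) (l 16503424))))))))), by decide +kernel⟩

def k3_pp_012_a : ∃ t, chk3 f_pp_012_a t 7 6 1 = true :=
  ⟨(b (a (a (a (c (l 16557200) (l 16530960)) (b (l 16485216) (a (l 16468312) (l 16423592)))) (a (b (a (l 16418912) (l 16416928)) (l 16417752)) (c (l 16440800) (l 16432224)))) (c (a (a (l 16459480) (l 16440320)) (a (a (l 16516760) (l 16448648)) (a (l 16543800) (l 16560312)))) (a (a (l 16451912) (l 16477696)) (a (l 16524584) (a (l 16526944) (c (l 16559416) (l 16539792))))))) (a (a (a (b (l 186998108087) (l 3)) (b (a (c (l 16430768) (l 16421672)) (l 16410968)) (c (l 16416720) (l 16407432)))) (a (c (l 16428848) (l 16419544)) (c (l 16447904) (l 16439296)))) (a (a (c (l 16462544) (l 16454768)) (a (l 16466600) (c (l 16477176) (l 16470272)))) (a (c (c (a (l 16483296) (l 16482848)) (l 16424536)) (l 16487112)) (c (a (l 16472136) (l 16509488)) (a (l 16413984) (c (l 16507752) (l 16467280)))))))), by decide +kernel⟩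

def k4_pp_012_a : ∃ t, chk3 f_pp_012_a t 7 7 1 = true :=
  ⟨(a (a (l 3) (b (c (a (b (b (l 16430888) (l 16445072)) (l 16480584)) (b (b (l 16448336) (l 16461864)) (a (l 16492008) (l 16501016)))) (a (b (l 16429368) (l 16473008)) (b (l 16446728) (l 16488776)))) (b (a (l 3) (c (a (l 148343613031) (l 168207839383)) (a (l 16534960) (l 16531672)))) (l 3)))) (c (a (b (a (b (b (l 16459152) (l 16468000)) (a (l 16497616) (l 16480752))) (a (b (l 16451280) (l 16461832)) (b (l 16443992) (l 16453600)))) (a (b (a (l 16520784) (l 16498216)) (a (l 156396690791) (l 75866087527))) (a (b (l 16477880) (l 16494960)) (b (l 16468784) (c (b (l 16482152) (l 16497136)) (l 16487656)))))) (b (b (a (c (a (l 16443664) (l 16440688)) (l 16384200)) (a (c (l 16447368) (l 16450184)) (l 16448792))) (a (a (l 16432128) (c (l 16448512) (l 16457368))) (a (c (l 16462032) (l 16465664)) (l 16505136)))) (a (c (a (b (l 16467760) (b (l 16490056) (l 16520536))) (b (l 16475392) (l 16534192))) (b (a (l 16473296) (l 16485704)) (a (l 16513168)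 (l 16525456)))) (a (c (b (l 16509792) (l 16577752)) (b (l 16514720) (l 16563296))) (b (l 16568272) (b (l 16619936) (l 16636304))))))) (a (b (a (b (l 16454640) (l 16480416)) (b (l 16439184) (l 16449392))) (a (b (l 16502088) (a (l 254107164423) (l 103246390391))) (b (l 16465288) (a (l 16487760) (b (l 16473152) (l 16488560)))))) (b (c (a (l 16452232) (a (b (l 16455352) (l 16471880)) (b (l 16467384) (l 16503736)))) (a (l 16448600) (a (l 16444640) (b (a (l 16461480) (l 16471728)) (l 16422368))))) (a (b (a (l 16467752) (l 16488560)) (a (l 16466360) (l 16551064))) (a (c (b (l 16522480) (l 16530928)) (l 16476728)) (b (c (l 16568496) (l 16488472)) (c (a (l 16624984) (l 16656464)) (a (l 16610480) (b (l 16616480) (l 16675680))))))))))), by decide +kernel⟩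

theorem s5_pp_012_a : ∃ t, chk3 f_pp_012_a t 7 3 1 = true := ex3_b k3_pp_012_a k4_pp_012_a

theorem s6_pp_012_a : ∃ t, chk3 f_pp_012_a t 7 1 1 = true := ex3_b k2_pp_012_a s5_pp_012_a

theorem s7_pp_012_a : ∃ t, chk3 f_pp_012_a t 3 1 1 = true := ex3_a k1_pp_012_a s6_pp_012_a

theorem s8_pp_012_a : ∃ t, chk3 f_pp_012_a t 1 1 1 = true := ex3_a k0_pp_012_a s7_pp_012_a

theorem c_pp_012_a : CertFX 67108864 469762048 0 420477299 1046898278 26843546 false true true .pnp 0 1 2
    ndF1q0 ndF2q2a pcF1 Cut.none Ext.none :=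
  certFX2 (fam := false) (s1 := true) (s2 := true) (a := 0) (b := 1) (c := 2) (cn := .pnp) (n1 := ndF1q0) (n2 := ndF2q2a) (pc := pcF1) (cut := Cut.none) (xt := Ext.none) (P1 := 67108864) (W1 := 469762048) (P2 := 0) (W2 := 420477299) (P3 := 1046898278) (W3 := 26843546)
    rfl (fun _ => rfl) s8_pp_012_a

noncomputable def f_pp_012_b : ℕ → ℕ → ℕ → ℕ → Bool := onCell 536870912 536870912 1239849684 370763052 1046898278 26843546
    (rowFX 2 false true true .pnp 0 1 2 (qsf 67108864 469762048 1239849684 370763052 1) ndF1q0 ndF2q2b pcF1 Cut.none Ext.none)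

def k0_pp_012_b : ∃ t, chk3 f_pp_012_b t 1 1 1 = true :=
  ⟨(b (a (l 3) (a (a (a (l 3) (b (b (c (l 16733280) (l 16711168)) (c (l 16771728) (l 16771584))) (c (l 16776912) (l 16776904)))) (b (b (a (c (l 16729992) (l 16728728)) (a (l 16724192) (a (l 16707128) (l 16754984)))) (a (l 16747968) (a (l 16764384) (l 16766256)))) (a (l 16771744) (a (l 16762816) (l 16762552))))) (a (a (b (b (a (l 16692864) (l 16590072)) (l 16529176)) (l 16588248)) (b (b (a (l 16487968) (l 16388368)) (l 16344008)) (c (l 16408016) (l 16398424)))) (a (b (a (b (b (c (l 16342688) (l 16331888)) (l 16280288)) (l 16258008)) (b (a (b (l 16328664) (l 16213936)) (c (b (l 16356896) (l 16197168)) (l 16078064))) (a (l 16189264) (l 16103696)))) (a (l 16255192) (a (l 16187120) (l 16145344)))) (b (b (b (l 16323000) (a (l 16197112) (l 16248560))) (b (a (l 16094696) (l 16070336)) (l 16044312))) (l 16048776)))))) (a (l 2) (a (a (l 2) (a (c (l 16773928) (l 16773840)) (a (l 16765704) (l 16761232)))) (a (a (b (l 16608744) (l 2)) (c (l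 16407216) (l 16397608))) (a (a (l 16257176) (a (l 16188496) (l 16148160))) (l 16054168)))))), by decide +kernel⟩

theorem c_pp_012_b : CertFX 67108864 469762048 1239849684 370763052 1046898278 26843546 false true true .pnp 0 1 2
    ndF1q0 ndF2q2b pcF1 Cut.none Ext.none :=
  certFX2 (fam := false) (s1 := true) (s2 := true) (a := 0) (b := 1) (c := 2) (cn := .pnp) (n1 := ndF1q0) (n2 := ndF2q2b) (pc := pcF1) (cut := Cut.none) (xt := Ext.none) (P1 := 67108864) (W1 := 469762048) (P2 := 1239849684) (W2 := 370763052) (P3 := 1046898278) (W3 := 26843546)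
    rfl (fun _ => rfl) k0_pp_012_b

noncomputable def f_pp_022_a : ℕ → ℕ → ℕ → ℕ → Bool := onCell 1073741824 536870912 0 420477299 1046898278 26843546
    (rowFX 2 false true true .pp 0 2 2 (qsf 67108864 469762048 0 420477299 2) ndF1q0 ndF2q2a pcF2 Cut.none Ext.none)

def k0_pp_022_a : ∃ t, chk3 f_pp_022_a t 4 2 1 = true :=
  ⟨(a (a (b (b (l 16460640) (l 16413848)) (b (l 16379776) (l 16366696))) (b (c (l 16414120) (l 16495120)) (b (c (l 16455720) (l 16472344)) (c (b (l 16465640) (b (l 16458768) (a (c (l 16452232) (l 16407456)) (c (a (l 16454824) (l 16455752)) (l 16452752))))) (b (l 16460808) (b (l 16453648) (a (l 16445112) (l 16449160)))))))) (a (b (c (a (l 16519720) (l 16504608)) (l 16489240)) (b (c (a (l 16480560) (l 16483032)) (l 16482992)) (b (c (a (l 16467576) (l 16488216)) (l 16482632)) (a (a (c (l 16436320) (l 16452320)) (c (c (l 16420384) (l 16468096)) (l 16465520))) (l 1))))) (b (l 1) (l 1)))), by decide +kernel⟩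

def k1_pp_022_a : ∃ t, chk3 f_pp_022_a t 4 6 1 = true :=
  ⟨(b (a (a (c (a (a (c (l 16293000) (b (l 16327424) (l 16376360))) (c (a (l 16376792) (l 16391520)) (a (l 16372720) (l 16388344)))) (c (a (b (l 16399680) (l 16428216)) (l 16388816)) (b (l 16411472) (l 16429952)))) (a (c (a (b (l 16322056) (l 16372152)) (l 16377600)) (a (a (l 16291544) (l 16349472)) (l 16374368))) (c (a (l 16387856) (l 16406664)) (l 16328464)))) (c (a (c (b (l 16440984) (l 16424224)) (a (l 16434008) (l 16428120))) (a (c (l 16339048) (l 16420768)) (c (c (b (l 16433624) (l 16397192)) (l 16414888)) (l 16412696)))) (a (a (l 16430016) (l 16423824)) (a (l 16416584) (b (l 16426672) (l 16392448)))))) (a (a (a (c (c (b (l 16431992) (l 16394784)) (l 16419744)) (l 16373800)) (l 1)) (l 1)) (l 1))) (a (a (c (a (a (c (b (l 16436792) (l 16497976)) (b (l 16432912) (l 16495016))) (c (b (l 16384728) (a (l 16488088) (l 16476176))) (b (l 16446768) (l 16461568)))) (c (a (b (l 16447856) (l 16456520)) (l 16432072)) (a (l 16412032) (l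 16436648)))) (a (c (a (a (l 16459488) (l 16441736)) (l 16400912)) (a (a (l 16394560) (l 16463384)) (l 16423400))) (c (a (l 16415880) (l 16438792)) (l 16446456)))) (a (c (c (b (l 16408720) (a (l 16407440) (l 16382848))) (a (l 16394920) (b (l 16401056) (l 16388240)))) (a (l 16413512) (b (l 16396400) (l 16383528)))) (a (c (c (b (c (l 16380504) (l 16384400)) (c (l 16359560) (l 16372016))) (l 16380080)) (b (l 16377272) (l 16369184))) (a (b (c (c (l 213170330631) (l 16375720)) (l 16370416)) (l 1)) (l 1))))) (l 1))), by decide +kernel⟩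

def k2_pp_022_a : ∃ t, chk3 f_pp_022_a t 8 7 1 = true :=
  ⟨(b (b (a (c (a (a (c (b (l 16539512) (l 16542232)) (b (l 16537192) (l 16539968))) (c (a (l 16504672) (l 16483768)) (c (l 16495752) (l 16498264)))) (c (a (l 16394336) (l 16423768)) (a (l 16464048) (l 16432920)))) (a (c (a (a (l 16547008) (l 16527808)) (l 16503360)) (a (a (l 16505240) (l 16531896)) (l 16508336))) (c (a (l 16472288) (l 16438240)) (l 16455064)))) (a (c (c (a (b (l 16401288) (l 16385168)) (b (c (l 16371896) (l 16385896)) (l 1))) (a (c (l 16403224) (l 16406384)) (l 16365176))) (c (l 16354480) (l 16392736))) (l 1))) (a (c (a (c (a (l 16526784) (a (l 16479152) (l 16452520))) (a (l 16524344) (l 16428160))) (c (a (a (l 16429544) (l 16406288)) (c (b (l 16387048) (l 16362008)) (l 16386800))) (a (l 16425376) (l 16396504)))) (a (c (a (l 16461472) (l 16478280)) (a (a (l 16538424) (l 16515216)) (l 16485024))) (c (a (l 16436168) (l 16403656)) (l 16379472)))) (a (a (c (c (c (l 16340280) (l 16356752)) (l 16353976)) (l 16374968))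 (l 1)) (l 1)))) (a (b (a (c (a (c (l 16504496) (l 16480800)) (b (c (l 16376952) (l 16444264)) (c (a (l 16437328) (l 16404728)) (l 16365328)))) (a (c (a (l 16518488) (l 16483848)) (a (l 16477808) (l 16491128))) (c (l 16424528) (l 16433088)))) (a (c (c (c (b (l 16383136) (l 16362568)) (l 16385240)) (l 16397112)) (c (l 16389856) (l 16413680))) (l 1))) (a (c (a (c (c (b (l 16486352) (a (l 16500080) (l 16452880))) (l 16443536)) (a (l 16501608) (l 16418896))) (a (b (c (c (l 16421664) (l 16425184)) (l 16428712)) (l 1)) (l 1))) (c (a (a (l 16498728) (c (l 16461192) (l 16464664))) (l 222297298631)) (a (a (c (l 16498520) (l 16480560)) (c (l 16471360) (l 16476888))) (l 300143607111)))) (l 1))) (l 1))), by decide +kernel⟩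

def k3_pp_022_a : ∃ t, chk3 f_pp_022_a t 9 7 1 = true :=
  ⟨(l 1), by decide +kernel⟩

def k4_pp_022_a : ∃ t, chk3 f_pp_022_a t 5 1 1 = true :=
  ⟨(l 1), by decide +kernel⟩

def k5_pp_022_a : ∃ t, chk3 f_pp_022_a t 3 1 1 = true :=
  ⟨(l 1), by decide +kernel⟩

theorem s6_pp_022_a : ∃ t, chk3 f_pp_022_a t 4 7 1 = true := ex3_a k2_pp_022_a k3_pp_022_a

theorem s7_pp_022_a : ∃ t, chk3 f_pp_022_a t 4 3 1 = true := ex3_b k1_pp_022_a s6_pp_022_a

theorem s8_pp_022_a : ∃ t, chk3 f_pp_022_a t 4 1 1 = true := ex3_b k0_pp_022_a s7_pp_022_a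

theorem s9_pp_022_a : ∃ t, chk3 f_pp_022_a t 2 1 1 = true := ex3_a s8_pp_022_a k4_pp_022_a

theorem s10_pp_022_a : ∃ t, chk3 f_pp_022_a t 1 1 1 = true := ex3_a s9_pp_022_a k5_pp_022_a

theorem c_pp_022_a : CertFX 67108864 469762048 0 420477299 1046898278 26843546 false true true .pp 0 2 2
    ndF1q0 ndF2q2a pcF2 Cut.none Ext.none :=
  certFX2 (fam := false) (s1 := true) (s2 := true) (a := 0) (b := 2) (c := 2) (cn := .pp) (n1 := ndF1q0) (n2 := ndF2q2a) (pc := pcF2) (cut := Cut.none) (xt := Ext.none) (P1 := 67108864) (W1 := 469762048) (P2 := 0) (W2 := 420477299) (P3 := 1046898278) (W3 := 26843546)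
    rfl (fun _ => rfl) s10_pp_022_a

noncomputable def f_pp_022_b : ℕ → ℕ → ℕ → ℕ → Bool := onCell 67108864 469762048 1073741824 536870912 1046898278 26843546
    (rowFX 1 false true true .pp 0 2 2 (qsf 67108864 469762048 1239849684 370763052 2) ndF1q0 ndF2q2b pcF2 Cut.none Ext.none)

def k0_pp_022_b : ∃ t, chk3 f_pp_022_b t 1 1 1 = true :=
  ⟨(a (b (b (a (b (a (a (l 1) (b (l 1) (a (c (l 432213783655) (l 16383824)) (l 16462360)))) (b (a (b (l 16436760) (l 16433384)) (l 201896161399)) (a (l 16385048) (l 16186048)))) (a (a (b (b (c (l 412349405607) (l 16330392)) (a (l 16326992) (l 16310728))) (a (b (l 16317104) (l 16093792)) (l 15889648))) (b (a (c (l 16330656) (l 16303720)) (l 16235672)) (c (l 15878200) (l 15859744)))) (b (a (l 16096536) (l 15910320)) (l 15602144)))) (b (a (b (a (l 16341224) (l 16159280)) (a (l 16029088) (l 15819680))) (l 15789912)) (a (b (a (l 15705008) (l 15520080)) (l 15276824)) (b (l 15470504) (l 15154488))))) (b (a (b (a (b (c (a (l 15825296) (l 15593008)) (l 15446976))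 (a (l 15820512) (l 15603912))) (b (l 15360896) (l 15499552))) (a (a (b (l 16162128) (l 16129600)) (c (l 16182280) (l 16238936))) (b (l 15882344) (l 16245120)))) (b (b (a (l 15042776) (l 14933128)) (a (l 15198144) (l 15095296))) (a (l 15766824) (l 15692720)))) (a (a (a (b (l 15579344) (l 15494600)) (b (a (l 15938304) (l 16127088)) (l 15639456))) (b (l 16201472) (l 16120136))) (b (a (l 16419848) (l 16418856)) (a (l 16596416) (l 16776720)))))) (b (a (a (c (b (l 15638672) (l 15659648)) (a (l 15472672) (l 15794272))) (b (l 16119824) (l 16119824))) (a (l 16491328) (l 16777216))) (a (a (a (l 15494192) (l 15806856)) (l 16119824)) (l 2)))) (b (b (b (a (b (l 16071800) (l 15754320)) (l 15773664)) (a (l 15105528) (l 15322544))) (b (b (b (l 14952256) (l 15114304)) (l 15476024)) (b (l 16340352) (l 16776728)))) (l 2))), by decide +kernel⟩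

theorem c_pp_022_b : CertFX 67108864 469762048 1239849684 370763052 1046898278 26843546 false true true .pp 0 2 2
    ndF1q0 ndF2q2b pcF2 Cut.none Ext.none :=
  certFX1 (fam := false) (s1 := true) (s2 := true) (a := 0) (b := 2) (c := 2) (cn := .pp) (n1 := ndF1q0) (n2 := ndF2q2b) (pc := pcF2) (cut := Cut.none) (xt := Ext.none) (P1 := 67108864) (W1 := 469762048) (P2 := 1239849684) (W2 := 370763052) (P3 := 1046898278) (W3 := 26843546)
    rfl (fun _ => rfl) k0_pp_022_b

noncomputable def f_pp_023 : ℕ → ℕ → ℕ → ℕ → Bool := onCell 67108864 469762048 1073741824 536870912 1046898278 26843546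
    (rowFX 1 false true true .up 0 2 3 (qsf 67108864 469762048 1610612736 469762048 2) ndF1q0 ndF2q3 pcF2 Cut.none Ext.none)

def k0_pp_023 : ∃ t, chk3 f_pp_023 t 1 1 1 = true :=
  ⟨(b (b (a (l 1) (b (a (l 1) (l 15710752)) (a (l 229810877511) (l 15322544)))) (a (b (l 1) (a (l 1) (b (l 957810120279) (l 433287702615)))) (b (b (b (l 14952256) (l 15114304)) (l 117068768935)) (b (l 16319384) (l 16776728))))) (a (b (a (a (l 1) (l 329670476311)) (a (l 16470352) (l 16777216))) (a (a (a (l 15494192) (l 15806856)) (l 16119824)) (a (l 16596184) (l 16777216)))) (b (l 16777200) (a (l 16777200) (b (l 16761448) (l 16746336)))))), by decide +kernel⟩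

theorem c_pp_023 : CertFX 67108864 469762048 1610612736 469762048 1046898278 26843546 false true true .up 0 2 3
    ndF1q0 ndF2q3 pcF2 Cut.none Ext.none :=
  certFX1 (fam := false) (s1 := true) (s2 := true) (a := 0) (b := 2) (c := 3) (cn := .up) (n1 := ndF1q0) (n2 := ndF2q3) (pc := pcF2) (cut := Cut.none) (xt := Ext.none) (P1 := 67108864) (W1 := 469762048) (P2 := 1610612736) (W2 := 469762048) (P3 := 1046898278) (W3 := 26843546)
    rfl (fun _ => rfl) k0_pp_023

noncomputable def f_pp_033 : ℕ → ℕ → ℕ → ℕ → Bool := onCell 67108864 469762048 1610612736 536870912 1046898278 26843546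
    (rowFX 1 false true true .pnn 0 3 3 (qsf 67108864 469762048 1610612736 469762048 3) ndF1q0 ndF2q3 pcF3 Cut.none Ext.none)

def k0_pp_033 : ∃ t, chk3 f_pp_033 t 1 1 1 = true :=
  ⟨(b (a (b (a (a (b (c (l 15659648) (l 15618816)) (c (l 15659648) (l 15618816))) (b (l 16119824) (l 16119824))) (b (l 16584896) (a (l 16596160) (l 16775456)))) (a (a (b (c (l 15659640) (l 15618816)) (c (b (l 15659632) (l 15659616)) (b (l 15618800) (l 15618784)))) (b (c (l 16128224) (l 16111368)) (b (l 16056888) (l 4)))) (b (a (b (l 16596152) (l 16591656)) (b (l 16764304) (l 16755672))) (b (a (l 73248434215) (l 4)) (l 4))))) (b (b (a (l 16761120) (l 16718392)) (a (b (l 16749728) (l 16743760)) (l 2))) (a (a (b (b (l 16746856) (l 4)) (l 2)) (l 2)) (l 2)))) (a (b (a (l 4) (b (l 4) (l 2))) (a (b (l 4) (l 2)) (l 2))) (l 2))), by decide +kernel⟩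

theorem c_pp_033 : CertFX 67108864 469762048 1610612736 469762048 1046898278 26843546 false true true .pnn 0 3 3
    ndF1q0 ndF2q3 pcF3 Cut.none Ext.none :=
  certFX1 (fam := false) (s1 := true) (s2 := true) (a := 0) (b := 3) (c := 3) (cn := .pnn) (n1 := ndF1q0) (n2 := ndF2q3) (pc := pcF3) (cut := Cut.none) (xt := Ext.none) (P1 := 67108864) (W1 := 469762048) (P2 := 1610612736) (W2 := 469762048) (P3 := 1046898278) (W3 := 26843546)
    rfl (fun _ => rfl) k0_pp_033

noncomputable def f_pp_101 : ℕ → ℕ → ℕ → ℕ → Bool := onCell 536870912 536870912 536870912 536870912 1046898278 26843546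
    (rowFX 0 false true true .npn 1 0 1 (qsf 536870912 536870912 536870912 536870912 0) ndF1q1 ndF2q1 pcF0 Cut.none Ext.none)

def k0_pp_101 : ∃ t, chk3 f_pp_101 t 1 1 1 = true :=
  ⟨(l 3), by decide +kernel⟩

theorem c_pp_101 : CertFX 536870912 536870912 536870912 536870912 1046898278 26843546 false true true .npn 1 0 1
    ndF1q1 ndF2q1 pcF0 Cut.none Ext.none :=
  certFX0 (fam := false) (s1 := true) (s2 := true) (a := 1) (b := 0) (c := 1) (cn := .npn) (n1 := ndF1q1) (n2 := ndF2q1) (pc := pcF0) (cut := Cut.none) (xt := Ext.none) (P1 := 536870912) (W1 := 536870912) (P2 := 536870912) (W2 := 536870912) (P3 := 1046898278) (W3 := 26843546)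
    rfl k0_pp_101

noncomputable def f_pp_102_a : ℕ → ℕ → ℕ → ℕ → Bool := onCell 536870912 536870912 0 420477299 1046898278 26843546
    (rowFX 0 false true true .npp 1 0 2 (qsf 536870912 536870912 0 420477299 0) ndF1q1 ndF2q2a pcF0 Cut.none Ext.none)

def k0_pp_102_a : ∃ t, chk3 f_pp_102_a t 1 1 1 = true :=
  ⟨(l 3), by decide +kernel⟩

theorem c_pp_102_a : CertFX 536870912 536870912 0 420477299 1046898278 26843546 false true true .npp 1 0 2
    ndF1q1 ndF2q2a pcF0 Cut.none Ext.none :=
  certFX0 (fam := false) (s1 := true) (s2 := true) (a := 1) (b := 0) (c := 2) (cn := .npp) (n1 := ndF1q1) (n2 := ndF2q2a) (pc := pcF0) (cut := Cut.none) (xt := Ext.none) (P1 := 536870912) (W1 := 536870912) (P2 := 0) (W2 := 420477299) (P3 := 1046898278) (W3 := 26843546)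
    rfl k0_pp_102_a

noncomputable def f_pp_102_b : ℕ → ℕ → ℕ → ℕ → Bool := onCell 536870912 536870912 0 536870912 1046898278 26843546
    (rowFX 1 false true true .npp 1 0 2 (qsf 536870912 536870912 1239849684 370763052 0) ndF1q1 ndF2q2b pcF0 Cut.none Ext.none)

def k0_pp_102_b : ∃ t, chk3 f_pp_102_b t 1 1 1 = true :=
  ⟨(l 3), by decide +kernel⟩

theorem c_pp_102_b : CertFX 536870912 536870912 1239849684 370763052 1046898278 26843546 false true true .npp 1 0 2
    ndF1q1 ndF2q2b pcF0 Cut.none Ext.none :=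
  certFX1 (fam := false) (s1 := true) (s2 := true) (a := 1) (b := 0) (c := 2) (cn := .npp) (n1 := ndF1q1) (n2 := ndF2q2b) (pc := pcF0) (cut := Cut.none) (xt := Ext.none) (P1 := 536870912) (W1 := 536870912) (P2 := 1239849684) (W2 := 370763052) (P3 := 1046898278) (W3 := 26843546)
    rfl (fun _ => rfl) k0_pp_102_b

noncomputable def f_pp_112_a : ℕ → ℕ → ℕ → ℕ → Bool := onCell 536870912 536870912 0 420477299 1046898278 26843546
    (rowFX 0 false true true .dn 1 1 2 (qsf 536870912 536870912 0 420477299 1) ndF1q1 ndF2q2a pcF1 Cut.none Ext.none)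

def k0_pp_112_a : ∃ t, chk3 f_pp_112_a t 1 1 1 = true :=
  ⟨(l 3), by decide +kernel⟩

theorem c_pp_112_a : CertFX 536870912 536870912 0 420477299 1046898278 26843546 false true true .dn 1 1 2
    ndF1q1 ndF2q2a pcF1 Cut.none Ext.none :=
  certFX0 (fam := false) (s1 := true) (s2 := true) (a := 1) (b := 1) (c := 2) (cn := .dn) (n1 := ndF1q1) (n2 := ndF2q2a) (pc := pcF1) (cut := Cut.none) (xt := Ext.none) (P1 := 536870912) (W1 := 536870912) (P2 := 0) (W2 := 420477299) (P3 := 1046898278) (W3 := 26843546)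
    rfl k0_pp_112_a

noncomputable def f_pp_112_b : ℕ → ℕ → ℕ → ℕ → Bool := onCell 536870912 536870912 1239849684 370763052 1046898278 26843546
    (rowFX 2 false true true .dn 1 1 2 (qsf 536870912 536870912 1239849684 370763052 1) ndF1q1 ndF2q2b pcF1 Cut.none Ext.none)

def k0_pp_112_b : ∃ t, chk3 f_pp_112_b t 1 1 1 = true :=
  ⟨(a (b (l 3) (l 3)) (b (b (l 1) (a (a (a (l 3) (l 16776904)) (a (l 16771744) (l 1))) (l 1))) (b (a (a (a (l 3) (l 16777096)) (a (l 16773136) (l 103112623703))) (a (a (l 16608744) (l 16403160)) (l 1))) (a (a (l 252497102423) (a (l 16774784) (l 16774592))) (a (a (l 16607664) (l 16402048)) (a (a (l 16256400) (l 16167656)) (l 16055648))))))), by decide +kernel⟩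

theorem c_pp_112_b : CertFX 536870912 536870912 1239849684 370763052 1046898278 26843546 false true true .dn 1 1 2
    ndF1q1 ndF2q2b pcF1 Cut.none Ext.none :=
  certFX2 (fam := false) (s1 := true) (s2 := true) (a := 1) (b := 1) (c := 2) (cn := .dn) (n1 := ndF1q1) (n2 := ndF2q2b) (pc := pcF1) (cut := Cut.none) (xt := Ext.none) (P1 := 536870912) (W1 := 536870912) (P2 := 1239849684) (W2 := 370763052) (P3 := 1046898278) (W3 := 26843546)
    rfl (fun _ => rfl) k0_pp_112_b

noncomputable def f_pp_113 : ℕ → ℕ → ℕ → ℕ → Bool := onCell 536870912 536870912 536870912 536870912 1046898278 26843546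
    (rowFX 1 false true true .nn 1 1 3 (qsf 536870912 536870912 1610612736 469762048 1) ndF1q1 ndF2q3 pcF1 Cut.none Ext.none)

def k0_pp_113 : ∃ t, chk3 f_pp_113 t 1 1 1 = true :=
  ⟨(b (a (l 3) (l 3)) (b (b (a (a (l 1) (l 361481897415)) (l 3)) (b (a (a (l 1) (l 16775664)) (a (a (l 16772680) (l 3)) (l 3))) (a (a (l 412350477303) (l 16834872)) (a (a (l 16768184) (b (l 16754584) (l 16739320))) (a (l 146732528599) (l 3)))))) (a (b (b (a (l 16607808) (l 16605128)) (a (l 16401624) (l 16397528))) (b (b (a (l 16255768) (l 16247960)) (a (l 94521315847) (l 16159552))) (a (l 16054672) (b (b (l 16098360) (l 16063056)) (l 16012808))))) (b (a (b (a (l 16606384) (l 16619632)) (a (l 16396960) (l 16408528))) (a (b (l 16355304) (l 16157616)) (b (l 223503938039) (a (l 15887352) (l 15711744))))) (a (b (b (l 16251496) (a (l 16152456) (l 16159096))) (b (c (a (l 16082256) (l 16089088)) (l 16072168)) (a (l 16006432) (l 16011984)))) (b (a (b (l 16009704) (l 15918464)) (b (l 15703192) (a (l 15709720) (l 15641592))))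 (c (a (b (l 15891224) (l 15830816)) (b (l 15625344) (l 15952544))) (a (b (l 15812304) (l 15745776)) (b (l 15502840) (a (l 15533240) (l 2))))))))))), by decide +kernel⟩

theorem c_pp_113 : CertFX 536870912 536870912 1610612736 469762048 1046898278 26843546 false true true .nn 1 1 3
    ndF1q1 ndF2q3 pcF1 Cut.none Ext.none :=
  certFX1 (fam := false) (s1 := true) (s2 := true) (a := 1) (b := 1) (c := 3) (cn := .nn) (n1 := ndF1q1) (n2 := ndF2q3) (pc := pcF1) (cut := Cut.none) (xt := Ext.none) (P1 := 536870912) (W1 := 536870912) (P2 := 1610612736) (W2 := 469762048) (P3 := 1046898278) (W3 := 26843546)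
    rfl (fun _ => rfl) k0_pp_113

noncomputable def f_pp_123 : ℕ → ℕ → ℕ → ℕ → Bool := onCell 1073741824 536870912 1610612736 469762048 1046898278 26843546
    (rowFX 2 false true true .npn 1 2 3 (qsf 536870912 536870912 1610612736 469762048 2) ndF1q1 ndF2q3 pcF2 Cut.none Ext.none)

def k0_pp_123 : ∃ t, chk3 f_pp_123 t 1 1 1 = true :=
  ⟨(b (a (a (a (b (l 15794504) (l 15900720)) (b (l 15322088) (l 15326192))) (a (a (a (l 14960936) (l 15121632)) (l 15500120)) (a (l 16298616) (l 16776728)))) (l 1)) (a (a (b (a (l 15909488) (l 15328024)) (a (b (l 15919512) (a (l 16034992) (l 15763040))) (b (l 15329288) (l 15340408)))) (a (a (b (a (l 14974408) (l 15136704)) (a (l 14995168) (l 15159408))) (b (l 15722400) (l 15744496))) (a (b (l 16429864) (l 16447968)) (b (l 16776744) (l 16760144))))) (a (b (l 16777208) (l 16864848)) (b (l 1) (l 16760472))))), by decide +kernel⟩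

theorem c_pp_123 : CertFX 536870912 536870912 1610612736 469762048 1046898278 26843546 false true true .npn 1 2 3
    ndF1q1 ndF2q3 pcF2 Cut.none Ext.none :=
  certFX2 (fam := false) (s1 := true) (s2 := true) (a := 1) (b := 2) (c := 3) (cn := .npn) (n1 := ndF1q1) (n2 := ndF2q3) (pc := pcF2) (cut := Cut.none) (xt := Ext.none) (P1 := 536870912) (W1 := 536870912) (P2 := 1610612736) (W2 := 469762048) (P3 := 1046898278) (W3 := 26843546)
    rfl (fun _ => rfl) k0_pp_123

noncomputable def f_pp_133 : ℕ → ℕ → ℕ → ℕ → Bool := onCell 536870912 536870912 1610612736 469762048 1046898278 26843546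
    (rowFX 0 false true true .dn 1 3 3 (qsf 536870912 536870912 1610612736 469762048 3) ndF1q1 ndF2q3 pcF3 Cut.none Ext.none)

def k0_pp_133 : ∃ t, chk3 f_pp_133 t 1 1 1 = true :=
  ⟨(l 1), by decide +kernel⟩

theorem c_pp_133 : CertFX 536870912 536870912 1610612736 469762048 1046898278 26843546 false true true .dn 1 3 3
    ndF1q1 ndF2q3 pcF3 Cut.none Ext.none :=
  certFX0 (fam := false) (s1 := true) (s2 := true) (a := 1) (b := 3) (c := 3) (cn := .dn) (n1 := ndF1q1) (n2 := ndF2q3) (pc := pcF3) (cut := Cut.none) (xt := Ext.none) (P1 := 536870912) (W1 := 536870912) (P2 := 1610612736) (W2 := 469762048) (P3 := 1046898278) (W3 := 26843546)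
    rfl k0_pp_133

noncomputable def f_pp_202_aa : ℕ → ℕ → ℕ → ℕ → Bool := onCell 0 420477299 0 420477299 1046898278 26843546
    (rowFX 0 false true true .pp 2 0 2 (qsf 0 420477299 0 420477299 0) ndF1q2a ndF2q2a pcF0 Cut.none Ext.none)

def k0_pp_202_aa : ∃ t, chk3 f_pp_202_aa t 1 1 1 = true :=
  ⟨(l 3), by decide +kernel⟩

theorem c_pp_202_aa : CertFX 0 420477299 0 420477299 1046898278 26843546 false true true .pp 2 0 2
    ndF1q2a ndF2q2a pcF0 Cut.none Ext.none :=
  certFX0 (fam := false) (s1 := true) (s2 := true) (a := 2) (b := 0) (c := 2) (cn := .pp) (n1 := ndF1q2a) (n2 := ndF2q2a) (pc := pcF0) (cut := Cut.none) (xt := Ext.none) (P1 := 0) (W1 := 420477299) (P2 := 0) (W2 := 420477299) (P3 := 1046898278) (W3 := 26843546)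
    rfl k0_pp_202_aa

noncomputable def f_pp_202_ab : ℕ → ℕ → ℕ → ℕ → Bool := onCell 0 420477299 1239849684 370763052 1046898278 26843546
    (rowFX 0 false true true .pp 2 0 2 (qsf 0 420477299 1239849684 370763052 0) ndF1q2a ndF2q2b pcF0 Cut.none Ext.none)

def k0_pp_202_ab : ∃ t, chk3 f_pp_202_ab t 1 1 1 = true :=
  ⟨(l 3), by decide +kernel⟩

theorem c_pp_202_ab : CertFX 0 420477299 1239849684 370763052 1046898278 26843546 false true true .pp 2 0 2
    ndF1q2a ndF2q2b pcF0 Cut.none Ext.none :=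
  certFX0 (fam := false) (s1 := true) (s2 := true) (a := 2) (b := 0) (c := 2) (cn := .pp) (n1 := ndF1q2a) (n2 := ndF2q2b) (pc := pcF0) (cut := Cut.none) (xt := Ext.none) (P1 := 0) (W1 := 420477299) (P2 := 1239849684) (W2 := 370763052) (P3 := 1046898278) (W3 := 26843546)
    rfl k0_pp_202_ab

noncomputable def f_pp_202_ba : ℕ → ℕ → ℕ → ℕ → Bool := onCell 1239849684 370763052 0 420477299 1046898278 26843546
    (rowFX 0 false true true .pp 2 0 2 (qsf 1239849684 370763052 0 420477299 0) ndF1q2b ndF2q2a pcF0 Cut.none Ext.none)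

def k0_pp_202_ba : ∃ t, chk3 f_pp_202_ba t 1 1 1 = true :=
  ⟨(l 3), by decide +kernel⟩

theorem c_pp_202_ba : CertFX 1239849684 370763052 0 420477299 1046898278 26843546 false true true .pp 2 0 2
    ndF1q2b ndF2q2a pcF0 Cut.none Ext.none :=
  certFX0 (fam := false) (s1 := true) (s2 := true) (a := 2) (b := 0) (c := 2) (cn := .pp) (n1 := ndF1q2b) (n2 := ndF2q2a) (pc := pcF0) (cut := Cut.none) (xt := Ext.none) (P1 := 1239849684) (W1 := 370763052) (P2 := 0) (W2 := 420477299) (P3 := 1046898278) (W3 := 26843546)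
    rfl k0_pp_202_ba

noncomputable def f_pp_202_bb : ℕ → ℕ → ℕ → ℕ → Bool := onCell 1239849684 370763052 1239849684 370763052 1046898278 26843546
    (rowFX 0 false true true .pp 2 0 2 (qsf 1239849684 370763052 1239849684 370763052 0) ndF1q2b ndF2q2b pcF0 Cut.none Ext.none)

def k0_pp_202_bb : ∃ t, chk3 f_pp_202_bb t 1 1 1 = true :=
  ⟨(l 3), by decide +kernel⟩

theorem c_pp_202_bb : CertFX 1239849684 370763052 1239849684 370763052 1046898278 26843546 false true true .pp 2 0 2
    ndF1q2b ndF2q2b pcF0 Cut.none Ext.none :=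
  certFX0 (fam := false) (s1 := true) (s2 := true) (a := 2) (b := 0) (c := 2) (cn := .pp) (n1 := ndF1q2b) (n2 := ndF2q2b) (pc := pcF0) (cut := Cut.none) (xt := Ext.none) (P1 := 1239849684) (W1 := 370763052) (P2 := 1239849684) (W2 := 370763052) (P3 := 1046898278) (W3 := 26843546)
    rfl k0_pp_202_bb

noncomputable def f_pp_203_a : ℕ → ℕ → ℕ → ℕ → Bool := onCell 0 420477299 1610612736 469762048 1046898278 26843546
    (rowFX 0 false true true .up 2 0 3 (qsf 0 420477299 1610612736 469762048 0) ndF1q2a ndF2q3 pcF0 Cut.none Ext.none)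

def k0_pp_203_a : ∃ t, chk3 f_pp_203_a t 1 1 1 = true :=
  ⟨(l 3), by decide +kernel⟩

theorem c_pp_203_a : CertFX 0 420477299 1610612736 469762048 1046898278 26843546 false true true .up 2 0 3
    ndF1q2a ndF2q3 pcF0 Cut.none Ext.none :=
  certFX0 (fam := false) (s1 := true) (s2 := true) (a := 2) (b := 0) (c := 3) (cn := .up) (n1 := ndF1q2a) (n2 := ndF2q3) (pc := pcF0) (cut := Cut.none) (xt := Ext.none) (P1 := 0) (W1 := 420477299) (P2 := 1610612736) (W2 := 469762048) (P3 := 1046898278) (W3 := 26843546)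
    rfl k0_pp_203_a

noncomputable def f_pp_203_b : ℕ → ℕ → ℕ → ℕ → Bool := onCell 1239849684 370763052 1610612736 469762048 1046898278 26843546
    (rowFX 0 false true true .up 2 0 3 (qsf 1239849684 370763052 1610612736 469762048 0) ndF1q2b ndF2q3 pcF0 Cut.none Ext.none)

def k0_pp_203_b : ∃ t, chk3 f_pp_203_b t 1 1 1 = true :=
  ⟨(l 3), by decide +kernel⟩

theorem c_pp_203_b : CertFX 1239849684 370763052 1610612736 469762048 1046898278 26843546 false true true .up 2 0 3
    ndF1q2b ndF2q3 pcF0 Cut.none Ext.none :=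
  certFX0 (fam := false) (s1 := true) (s2 := true) (a := 2) (b := 0) (c := 3) (cn := .up) (n1 := ndF1q2b) (n2 := ndF2q3) (pc := pcF0) (cut := Cut.none) (xt := Ext.none) (P1 := 1239849684) (W1 := 370763052) (P2 := 1610612736) (W2 := 469762048) (P3 := 1046898278) (W3 := 26843546)
    rfl k0_pp_203_b

noncomputable def f_pp_213_a : ℕ → ℕ → ℕ → ℕ → Bool := onCell 0 420477299 1610612736 469762048 1046898278 26843546
    (rowFX 0 false true true .pnn 2 1 3 (qsf 0 420477299 1610612736 469762048 1) ndF1q2a ndF2q3 pcF1 Cut.none Ext.none)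

def k0_pp_213_a : ∃ t, chk3 f_pp_213_a t 1 1 1 = true :=
  ⟨(l 3), by decide +kernel⟩

theorem c_pp_213_a : CertFX 0 420477299 1610612736 469762048 1046898278 26843546 false true true .pnn 2 1 3
    ndF1q2a ndF2q3 pcF1 Cut.none Ext.none :=
  certFX0 (fam := false) (s1 := true) (s2 := true) (a := 2) (b := 1) (c := 3) (cn := .pnn) (n1 := ndF1q2a) (n2 := ndF2q3) (pc := pcF1) (cut := Cut.none) (xt := Ext.none) (P1 := 0) (W1 := 420477299) (P2 := 1610612736) (W2 := 469762048) (P3 := 1046898278) (W3 := 26843546)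
    rfl k0_pp_213_a

noncomputable def f_pp_213_b : ℕ → ℕ → ℕ → ℕ → Bool := onCell 1239849684 370763052 1610612736 469762048 1046898278 26843546
    (rowFX 0 false true true .pnn 2 1 3 (qsf 1239849684 370763052 1610612736 469762048 1) ndF1q2b ndF2q3 pcF1 Cut.none Ext.none)

def k0_pp_213_b : ∃ t, chk3 f_pp_213_b t 1 1 1 = true :=
  ⟨(l 3), by decide +kernel⟩

theorem c_pp_213_b : CertFX 1239849684 370763052 1610612736 469762048 1046898278 26843546 false true true .pnn 2 1 3
    ndF1q2b ndF2q3 pcF1 Cut.none Ext.none :=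
  certFX0 (fam := false) (s1 := true) (s2 := true) (a := 2) (b := 1) (c := 3) (cn := .pnn) (n1 := ndF1q2b) (n2 := ndF2q3) (pc := pcF1) (cut := Cut.none) (xt := Ext.none) (P1 := 1239849684) (W1 := 370763052) (P2 := 1610612736) (W2 := 469762048) (P3 := 1046898278) (W3 := 26843546)
    rfl k0_pp_213_b

noncomputable def f_pp_303 : ℕ → ℕ → ℕ → ℕ → Bool := onCell 1610612736 469762048 1610612736 469762048 1046898278 26843546
    (rowFX 0 false true true .npn 3 0 3 (qsf 1610612736 469762048 1610612736 469762048 0) ndF1q3 ndF2q3 pcF0 Cut.none Ext.none)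

def k0_pp_303 : ∃ t, chk3 f_pp_303 t 1 1 1 = true :=
  ⟨(l 3), by decide +kernel⟩

theorem c_pp_303 : CertFX 1610612736 469762048 1610612736 469762048 1046898278 26843546 false true true .npn 3 0 3
    ndF1q3 ndF2q3 pcF0 Cut.none Ext.none :=
  certFX0 (fam := false) (s1 := true) (s2 := true) (a := 3) (b := 0) (c := 3) (cn := .npn) (n1 := ndF1q3) (n2 := ndF2q3) (pc := pcF0) (cut := Cut.none) (xt := Ext.none) (P1 := 1610612736) (W1 := 469762048) (P2 := 1610612736) (W2 := 469762048) (P3 := 1046898278) (W3 := 26843546)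
    rfl k0_pp_303

noncomputable def f_pp_313 : ℕ → ℕ → ℕ → ℕ → Bool := onCell 1610612736 469762048 1610612736 469762048 1046898278 26843546
    (rowFX 0 false true true .dn 3 1 3 (qsf 1610612736 469762048 1610612736 469762048 1) ndF1q3 ndF2q3 pcF1 Cut.none Ext.none)

def k0_pp_313 : ∃ t, chk3 f_pp_313 t 1 1 1 = true :=
  ⟨(l 1), by decide +kernel⟩

theorem c_pp_313 : CertFX 1610612736 469762048 1610612736 469762048 1046898278 26843546 false true true .dn 3 1 3
    ndF1q3 ndF2q3 pcF1 Cut.none Ext.none :=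
  certFX0 (fam := false) (s1 := true) (s2 := true) (a := 3) (b := 1) (c := 3) (cn := .dn) (n1 := ndF1q3) (n2 := ndF2q3) (pc := pcF1) (cut := Cut.none) (xt := Ext.none) (P1 := 1610612736) (W1 := 469762048) (P2 := 1610612736) (W2 := 469762048) (P3 := 1046898278) (W3 := 26843546)
    rfl k0_pp_313

noncomputable def f_pm_001 : ℕ → ℕ → ℕ → ℕ → Bool := onCell 67108864 469762048 536870912 536870912 1046898278 26843546
    (rowFX 0 false true false .up 0 0 1 (qsf 67108864 469762048 536870912 536870912 0) ndF1q0 ndF2q1 pcF0 Cut.none Ext.none)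

def k0_pm_001 : ∃ t, chk3 f_pm_001 t 1 1 1 = true :=
  ⟨(l 4), by decide +kernel⟩

theorem c_pm_001 : CertFX 67108864 469762048 536870912 536870912 1046898278 26843546 false true false .up 0 0 1
    ndF1q0 ndF2q1 pcF0 Cut.none Ext.none :=
  certFX0 (fam := false) (s1 := true) (s2 := false) (a := 0) (b := 0) (c := 1) (cn := .up) (n1 := ndF1q0) (n2 := ndF2q1) (pc := pcF0) (cut := Cut.none) (xt := Ext.none) (P1 := 67108864) (W1 := 469762048) (P2 := 536870912) (W2 := 536870912) (P3 := 1046898278) (W3 := 26843546)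
    rfl k0_pm_001

noncomputable def f_pm_011 : ℕ → ℕ → ℕ → ℕ → Bool := onCell 67108864 469762048 536870912 536870912 1046898278 26843546
    (rowFX 0 false true false .pnn 0 1 1 (qsf 67108864 469762048 536870912 536870912 1) ndF1q0 ndF2q1 pcF1 Cut.none Ext.none)

def k0_pm_011 : ∃ t, chk3 f_pm_011 t 1 1 1 = true :=
  ⟨(l 4), by decide +kernel⟩

theorem c_pm_011 : CertFX 67108864 469762048 536870912 536870912 1046898278 26843546 false true false .pnn 0 1 1
    ndF1q0 ndF2q1 pcF1 Cut.none Ext.none :=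
  certFX0 (fam := false) (s1 := true) (s2 := false) (a := 0) (b := 1) (c := 1) (cn := .pnn) (n1 := ndF1q0) (n2 := ndF2q1) (pc := pcF1) (cut := Cut.none) (xt := Ext.none) (P1 := 67108864) (W1 := 469762048) (P2 := 536870912) (W2 := 536870912) (P3 := 1046898278) (W3 := 26843546)
    rfl k0_pm_011

noncomputable def f_pm_012_a : ℕ → ℕ → ℕ → ℕ → Bool := onCell 536870912 536870912 0 420477299 1046898278 26843546
    (rowFX 2 false true false .pnp 0 1 2 (qsf 67108864 469762048 0 420477299 1) ndF1q0 ndF2q2a pcF1 Cut.none Ext.none)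

def k0_pm_012_a : ∃ t, chk3 f_pm_012_a t 2 1 1 = true :=
  ⟨(b (a (l 2) (b (l 16702392) (l 16752704))) (b (a (l 16609208) (l 16567264)) (a (c (b (l 16398928) (l 16291480)) (b (l 16389104) (l 16236920))) (b (a (l 16394016) (l 16394016)) (a (c (l 16291480) (l 16278864)) (l 16285176)))))), by decide +kernel⟩

def k1_pm_012_a : ∃ t, chk3 f_pm_012_a t 6 1 1 = true :=
  ⟨(b (a (b (l 16700288) (l 16750800)) (a (l 16723536) (b (l 16584688) (l 16382248)))) (a (b (l 16607960) (b (l 16392776) (a (l 16285184) (a (l 16184008) (b (l 16311128) (c (l 16274360) (l 16152632))))))) (a (b (l 16601472) (b (l 16386312) (b (l 16307192) (a (b (l 16264792) (b (l 16241400) (c (l 16241896) (l 16226896)))) (l 16246040))))) (b (a (l 16631144) (l 16614736)) (b (a (l 16423000) (l 16623696)) (a (l 16100088) (l 16338680))))))), by decide +kernel⟩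

def k2_pm_012_a : ∃ t, chk3 f_pm_012_a t 7 1 1 = true :=
  ⟨(b (a (a (b (l 16203064) (l 16104384)) (b (a (l 15884640) (l 15693536)) (b (l 15713552) (a (l 15793224) (l 15651608))))) (a (b (a (l 15570632) (l 15322224)) (a (a (l 15557056) (l 15376688)) (b (l 15389736) (l 15417800)))) (b (a (c (l 15340160) (l 15383856)) (c (l 15289216) (l 15268488))) (a (c (b (l 15240824) (l 15257488)) (l 15306480)) (c (b (l 15178088) (l 15179344)) (b (l 15180184) (a (l 15200736) (l 15151552)))))))) (a (b (a (b (l 16130752) (l 16015464)) (b (a (l 15858888) (l 15749176)) (l 15964624))) (a (b (a (l 16517424) (l 16342208)) (a (l 16560696) (l 16519928))) (b (a (l 16225800) (l 16119680)) (a (b (l 16381592) (l 16501176)) (b (l 16265208) (l 16365832)))))) (b (a (a (b (l 15552688) (c (l 15801952) (l 15795024))) (c (b (l 15496920) (l 15640368)) (l 15602256))) (a (c (b (l 15324864) (l 15400456)) (b (l 15392832) (l 15520408))) (c (b (l 15228288) (l 15337720)) (a (b (l 15255464) (l 15369928)) (b (l 15200424) (l 15315728))))))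 (a (b (c (a (c (l 15863128) (l 16005256)) (b (l 15773024) (l 15836768))) (a (l 15992528) (l 15851976))) (c (a (c (l 15984248) (l 16171896)) (c (l 15779056) (b (l 15949056) (l 16042104)))) (a (l 16162480) (l 16011248)))) (b (c (a (a (l 15631792) (l 15492848)) (b (l 15460080) (c (l 15539792) (l 15535776)))) (a (l 15678784) (a (c (l 15521880) (l 15566496)) (c (l 15485632) (b (l 15447888) (l 15541808)))))) (c (a (b (a (l 15734560) (l 15460536)) (a (l 15823600) (c (l 15747280) (l 15800216)))) (b (c (l 15650856) (l 15648536)) (a (l 15647320) (l 15812544)))) (a (b (l 15797304) (l 15712616)) (a (c (l 15739448) (l 15789704)) (c (l 15648912) (a (l 15741144) (b (l 15659640) (l 15812544)))))))))))), by decide +kernel⟩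

theorem s3_pm_012_a : ∃ t, chk3 f_pm_012_a t 3 1 1 = true := ex3_a k1_pm_012_a k2_pm_012_a

theorem s4_pm_012_a : ∃ t, chk3 f_pm_012_a t 1 1 1 = true := ex3_a k0_pm_012_a s3_pm_012_a

theorem c_pm_012_a : CertFX 67108864 469762048 0 420477299 1046898278 26843546 false true false .pnp 0 1 2
    ndF1q0 ndF2q2a pcF1 Cut.none Ext.none :=
  certFX2 (fam := false) (s1 := true) (s2 := false) (a := 0) (b := 1) (c := 2) (cn := .pnp) (n1 := ndF1q0) (n2 := ndF2q2a) (pc := pcF1) (cut := Cut.none) (xt := Ext.none) (P1 := 67108864) (W1 := 469762048) (P2 := 0) (W2 := 420477299) (P3 := 1046898278) (W3 := 26843546)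
    rfl (fun _ => rfl) s4_pm_012_a

noncomputable def f_pm_012_b : ℕ → ℕ → ℕ → ℕ → Bool := onCell 536870912 536870912 1239849684 370763052 1046898278 26843546
    (rowFX 2 false true false .pnp 0 1 2 (qsf 67108864 469762048 1239849684 370763052 1) ndF1q0 ndF2q2b pcF1 Cut.none Ext.none)

def k0_pm_012_b : ∃ t, chk3 f_pm_012_b t 1 1 1 = true :=
  ⟨(a (a (l 2) (b (b (b (l 16733000) (l 16771848)) (l 16777216)) (l 2))) (a (a (b (b (l 16750784) (l 16774688)) (l 2)) (b (a (l 16751936) (b (l 16468992) (l 16707984))) (a (l 16760864) (b (l 16728872) (l 2))))) (a (b (b (a (l 16217856) (b (l 15889864) (l 15940296))) (a (l 16362496) (l 15995184))) (a (b (l 16431520) (l 2)) (b (l 16094928) (l 16237136)))) (b (c (a (b (b (a (l 15622736) (l 15446104)) (l 15532200)) (l 15595112)) (b (b (a (l 15288968) (l 15231344)) (a (l 15169720) (l 15010640))) (l 15147984))) (b (a (b (l 15353024) (l 15530720)) (b (a (l 15323728) (l 15226392)) (a (l 15199680) (b (l 14860536) (l 14974240))))) (a (l 15593472) (a (l 15261416)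 (l 14923192))))) (a (b (a (l 15817776) (l 15606768)) (l 15741896)) (b (a (l 15367072) (l 15026400)) (a (l 15570184) (l 15381072)))))))), by decide +kernel⟩

theorem c_pm_012_b : CertFX 67108864 469762048 1239849684 370763052 1046898278 26843546 false true false .pnp 0 1 2
    ndF1q0 ndF2q2b pcF1 Cut.none Ext.none :=
  certFX2 (fam := false) (s1 := true) (s2 := false) (a := 0) (b := 1) (c := 2) (cn := .pnp) (n1 := ndF1q0) (n2 := ndF2q2b) (pc := pcF1) (cut := Cut.none) (xt := Ext.none) (P1 := 67108864) (W1 := 469762048) (P2 := 1239849684) (W2 := 370763052) (P3 := 1046898278) (W3 := 26843546)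
    rfl (fun _ => rfl) k0_pm_012_b

noncomputable def f_pm_022_a : ℕ → ℕ → ℕ → ℕ → Bool := onCell 1073741824 536870912 0 420477299 1046898278 26843546
    (rowFX 2 false true false .pp 0 2 2 (qsf 67108864 469762048 0 420477299 2) ndF1q0 ndF2q2a pcF2 Cut.none Ext.none)

def k0_pm_022_a : ∃ t, chk3 f_pm_022_a t 4 2 1 = true :=
  ⟨(a (a (b (c (l 15112480) (c (l 15096416) (l 15094760))) (c (b (l 15055192) (l 15092336)) (b (c (l 15039776) (l 15039632)) (c (l 15078936) (l 15080824))))) (c (b (a (l 15349264) (c (l 15524784) (l 15546832))) (a (b (l 15303784) (c (l 15349848) (l 15363944))) (c (b (l 15505736) (l 15589840)) (b (l 15531752) (l 15619808))))) (b (a (l 15355512) (l 15545008)) (a (b (l 15313536) (l 15378680)) (l 15580568))))) (a (c (b (a (l 15537296) (a (l 15932128) (l 16019352))) (a (b (l 15767936) (c (l 15663880) (l 15875864))) (b (c (l 15773096) (l 15981896)) (c (a (l 16009200) (l 1)) (l 16070296))))) (b (a (l 15767184) (l 15965816)) (a (l 15798176) (l 493952760471)))) (b (l 1) (l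 1)))), by decide +kernel⟩

def k1_pm_022_a : ∃ t, chk3 f_pm_022_a t 4 3 1 = true :=
  ⟨(a (a (a (b (c (b (l 15103560) (l 15268120)) (b (l 15079944) (c (l 15243992) (l 15244032)))) (c (b (l 15328064) (b (l 15598872) (c (b (l 15847488) (l 15885272)) (l 15866224)))) (b (c (l 15497968) (b (l 15435528) (l 15567776))) (c (b (l 15709888) (l 15859664)) (b (l 131027434263) (a (l 15806248) (l 15934440))))))) (b (c (b (l 15272360) (l 15474008)) (b (c (l 15274880) (l 15279056)) (c (l 15482520) (l 15490736)))) (b (c (b (l 15687328) (c (l 15817112) (l 15811040))) (c (b (l 15701528) (l 15747360)) (l 15590736))) (a (b (c (l 393020925511) (c (l 15895248) (l 15915432))) (l 1)) (l 1))))) (a (b (c (b (c (l 15486232) (l 15504200)) (c (l 15459064) (l 15734968))) (b (l 15524320) (c (l 15720048) (l 15762432)))) (b (c (c (b (l 15838488) (l 427380825159)) (b (l 15939936) (l 15971464))) (c (l 379062409607) (l 16028880))) (l 1))) (b (c (c (b (l 15576728) (b (l 15900744) (l 16028944))) (b (l 15777536) (l 15783008)))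 (b (l 15785704) (l 16004312))) (l 1)))) (b (b (a (a (c (c (l 192231223415) (l 16019856)) (l 16008720)) (l 1)) (l 1)) (l 1)) (l 1))), by decide +kernel⟩

def k2_pm_022_a : ∃ t, chk3 f_pm_022_a t 5 1 1 = true :=
  ⟨(l 1), by decide +kernel⟩

def k3_pm_022_a : ∃ t, chk3 f_pm_022_a t 3 1 1 = true :=
  ⟨(l 1), by decide +kernel⟩

theorem s4_pm_022_a : ∃ t, chk3 f_pm_022_a t 4 1 1 = true := ex3_b k0_pm_022_a k1_pm_022_a

theorem s5_pm_022_a : ∃ t, chk3 f_pm_022_a t 2 1 1 = true := ex3_a s4_pm_022_a k2_pm_022_a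

theorem s6_pm_022_a : ∃ t, chk3 f_pm_022_a t 1 1 1 = true := ex3_a s5_pm_022_a k3_pm_022_a

theorem c_pm_022_a : CertFX 67108864 469762048 0 420477299 1046898278 26843546 false true false .pp 0 2 2
    ndF1q0 ndF2q2a pcF2 Cut.none Ext.none :=
  certFX2 (fam := false) (s1 := true) (s2 := false) (a := 0) (b := 2) (c := 2) (cn := .pp) (n1 := ndF1q0) (n2 := ndF2q2a) (pc := pcF2) (cut := Cut.none) (xt := Ext.none) (P1 := 67108864) (W1 := 469762048) (P2 := 0) (W2 := 420477299) (P3 := 1046898278) (W3 := 26843546)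
    rfl (fun _ => rfl) s6_pm_022_a

noncomputable def f_pm_022_b : ℕ → ℕ → ℕ → ℕ → Bool := onCell 67108864 469762048 1073741824 536870912 1046898278 26843546
    (rowFX 1 false true false .pp 0 2 2 (qsf 67108864 469762048 1239849684 370763052 2) ndF1q0 ndF2q2b pcF2 Cut.none Ext.none)

def k0_pm_022_b : ∃ t, chk3 f_pm_022_b t 1 4 1 = true :=
  ⟨(a (a (b (a (b (l 1) (a (l 1) (c (b (l 307657660839) (a (l 15554984) (l 15524448))) (b (l 15553728) (l 15591304))))) (b (c (a (l 360270524775) (l 15061776)) (a (b (l 15277424) (l 15286040)) (b (l 15001832) (l 15083520)))) (c (b (a (l 15332600) (l 15166464)) (l 15206352)) (a (l 15374064) (l 15205024))))) (a (b (c (a (b (a (l 1) (l 15843456)) (a (l 16014632) (l 15872328))) (b (l 15652424) (l 15704280))) (a (b (l 15954736) (l 15942760)) (l 15668832))) (c (a (l 15965592) (l 15742912)) (a (l 15952336) (l 15720728)))) (b (c (b (l 15418776) (l 15472528)) (b (l 15406608) (l 15453264))) (c (l 15512304) (l 15483280))))) (b (a (c (b (l 14747328) (c (l 14902832)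 (l 14906096))) (b (c (l 14721680) (a (l 14818784) (l 14612848))) (a (l 14993400) (l 14794016)))) (c (b (l 14611504) (l 14775304)) (b (l 14578800) (l 14753784)))) (b (a (c (b (l 15044352) (l 15108296)) (b (l 15020088) (l 15077104))) (c (l 14953552) (l 14921560))) (a (l 15147768) (l 15029408))))) (b (a (c (b (l 14682920) (l 14842512)) (b (a (l 14619088) (l 14678000)) (l 14820280))) (c (b (l 14838880) (l 14985720)) (b (l 14806336) (l 14961984)))) (b (a (c (l 15011488) (l 14979712)) (c (l 15132288) (l 15100944))) (a (l 15062256) (l 15129424))))), by decide +kernel⟩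

def k1_pm_022_b : ∃ t, chk3 f_pm_022_b t 1 5 1 = true :=
  ⟨(a (b (a (a (b (b (c (a (l 16034944) (l 15817824)) (a (l 16024168) (l 15798096))) (a (c (l 16165192) (l 16158536)) (c (l 15950056) (l 15934248)))) (c (a (l 16293736) (l 16215992)) (a (l 16253544) (l 16208256)))) (b (b (l 15579616) (l 15723648)) (l 15883656))) (b (b (a (l 15251200) (l 15134176)) (a (l 15411968) (l 15300984))) (a (l 15727112) (l 15633288)))) (a (a (b (c (a (l 16138712) (l 16394480)) (a (l 16126048) (l 16392552))) (c (a (l 15938192) (l 16209544)) (l 15814120))) (b (l 16315776) (l 16455224))) (b (a (l 16074424) (l 16005288)) (a (l 16313696) (l 16262232))))) (a (b (b (b (l 15141344) (l 15305312)) (l 15653984)) (b (l 16050904) (l 16314648))) (l 2))), by decide +kernel⟩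

def k2_pm_022_b : ∃ t, chk3 f_pm_022_b t 1 3 1 = true :=
  ⟨(a (b (a (b (a (c (a (l 15655432) (l 16007848)) (a (l 15690920) (l 15991080))) (b (l 16337192) (l 16222760))) (a (c (b (l 15526008) (l 15659648)) (b (l 15632568) (l 15618816))) (b (l 16130088) (l 16119824)))) (b (a (l 16375320) (l 16524160)) (a (b (l 16603208) (l 2)) (l 2)))) (a (a (l 4) (a (l 4) (l 2))) (l 2))) (l 2)), by decide +kernel⟩

theorem s3_pm_022_b : ∃ t, chk3 f_pm_022_b t 1 2 1 = true := ex3_b k0_pm_022_b k1_pm_022_b

theorem s4_pm_022_b : ∃ t, chk3 f_pm_022_b t 1 1 1 = true := ex3_b s3_pm_022_b k2_pm_022_b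

theorem c_pm_022_b : CertFX 67108864 469762048 1239849684 370763052 1046898278 26843546 false true false .pp 0 2 2
    ndF1q0 ndF2q2b pcF2 Cut.none Ext.none :=
  certFX1 (fam := false) (s1 := true) (s2 := false) (a := 0) (b := 2) (c := 2) (cn := .pp) (n1 := ndF1q0) (n2 := ndF2q2b) (pc := pcF2) (cut := Cut.none) (xt := Ext.none) (P1 := 67108864) (W1 := 469762048) (P2 := 1239849684) (W2 := 370763052) (P3 := 1046898278) (W3 := 26843546)
    rfl (fun _ => rfl) s4_pm_022_b

noncomputable def f_pm_023 : ℕ → ℕ → ℕ → ℕ → Bool := onCell 1073741824 536870912 1610612736 469762048 1046898278 26843546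
    (rowFX 2 false true false .up 0 2 3 (qsf 67108864 469762048 1610612736 469762048 2) ndF1q0 ndF2q3 pcF2 Cut.none Ext.none)

def k0_pm_023 : ∃ t, chk3 f_pm_023 t 1 1 1 = true :=
  ⟨(a (a (b (a (b (c (l 14903432) (a (l 15004448) (l 15074704))) (l 2)) (a (b (c (l 15177680) (l 15146496)) (l 2)) (b (l 15129664) (l 15228104)))) (l 2)) (a (b (a (a (b (l 15152224) (l 15171856)) (l 15274432)) (b (l 15669560) (l 15717944))) (l 2)) (b (a (b (l 16061688) (l 16155768)) (b (l 16303704) (l 16398848))) (b (a (l 16289360) (l 16536232)) (l 2))))) (b (a (a (b (a (l 16450736) (l 16597648)) (l 16571280)) (b (a (b (l 16582144) (l 16760632)) (b (l 16305552) (l 16698704))) (l 16769400))) (b (a (a (c (l 907008571703) (l 16145800)) (l 4)) (l 4)) (a (a (l 16769368) (l 16710592)) (b (l 4) (l 16519608))))) (b (a (a (l 16631448) (l 16771128)) (a (l 16777208) (l 16777192))) (a (a (l 2) (l 16756992)) (a (l 16760472) (l 16760472)))))), by decide +kernel⟩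

theorem c_pm_023 : CertFX 67108864 469762048 1610612736 469762048 1046898278 26843546 false true false .up 0 2 3
    ndF1q0 ndF2q3 pcF2 Cut.none Ext.none :=
  certFX2 (fam := false) (s1 := true) (s2 := false) (a := 0) (b := 2) (c := 3) (cn := .up) (n1 := ndF1q0) (n2 := ndF2q3) (pc := pcF2) (cut := Cut.none) (xt := Ext.none) (P1 := 67108864) (W1 := 469762048) (P2 := 1610612736) (W2 := 469762048) (P3 := 1046898278) (W3 := 26843546)
    rfl (fun _ => rfl) k0_pm_023

noncomputable def f_pm_033 : ℕ → ℕ → ℕ → ℕ → Bool := onCell 1610612736 536870912 1610612736 469762048 1046898278 26843546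
    (rowFX 2 false true false .pnn 0 3 3 (qsf 67108864 469762048 1610612736 469762048 3) ndF1q0 ndF2q3 pcF3 Cut.none Ext.none)

def k0_pm_033 : ∃ t, chk3 f_pm_033 t 1 1 1 = true :=
  ⟨(a (b (a (l 4) (b (l 1) (l 4))) (a (a (b (l 4) (l 16760472)) (b (l 4) (a (l 16760472) (l 4)))) (l 4))) (b (l 1) (a (b (a (l 4) (l 1)) (l 4)) (b (l 1) (a (l 4) (l 1)))))), by decide +kernel⟩

theorem c_pm_033 : CertFX 67108864 469762048 1610612736 469762048 1046898278 26843546 false true false .pnn 0 3 3
    ndF1q0 ndF2q3 pcF3 Cut.none Ext.none :=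
  certFX2 (fam := false) (s1 := true) (s2 := false) (a := 0) (b := 3) (c := 3) (cn := .pnn) (n1 := ndF1q0) (n2 := ndF2q3) (pc := pcF3) (cut := Cut.none) (xt := Ext.none) (P1 := 67108864) (W1 := 469762048) (P2 := 1610612736) (W2 := 469762048) (P3 := 1046898278) (W3 := 26843546)
    rfl (fun _ => rfl) k0_pm_033

noncomputable def f_pm_101 : ℕ → ℕ → ℕ → ℕ → Bool := onCell 536870912 536870912 536870912 536870912 1046898278 26843546
    (rowFX 0 false true false .npn 1 0 1 (qsf 536870912 536870912 536870912 536870912 0) ndF1q1 ndF2q1 pcF0 Cut.none Ext.none)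

def k0_pm_101 : ∃ t, chk3 f_pm_101 t 1 1 1 = true :=
  ⟨(l 4), by decide +kernel⟩

theorem c_pm_101 : CertFX 536870912 536870912 536870912 536870912 1046898278 26843546 false true false .npn 1 0 1
    ndF1q1 ndF2q1 pcF0 Cut.none Ext.none :=
  certFX0 (fam := false) (s1 := true) (s2 := false) (a := 1) (b := 0) (c := 1) (cn := .npn) (n1 := ndF1q1) (n2 := ndF2q1) (pc := pcF0) (cut := Cut.none) (xt := Ext.none) (P1 := 536870912) (W1 := 536870912) (P2 := 536870912) (W2 := 536870912) (P3 := 1046898278) (W3 := 26843546)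
    rfl k0_pm_101

noncomputable def f_pm_102_a : ℕ → ℕ → ℕ → ℕ → Bool := onCell 0 536870912 0 420477299 1046898278 26843546
    (rowFX 2 false true false .npp 1 0 2 (qsf 536870912 536870912 0 420477299 0) ndF1q1 ndF2q2a pcF0 Cut.none Ext.none)

def k0_pm_102_a : ∃ t, chk3 f_pm_102_a t 2 2 1 = true :=
  ⟨(a (l 2) (a (a (b (a (l 2) (a (l 2) (b (c (l 430670707463) (l 403290288103)) (c (l 483820926551) (l 368930604983))))) (a (b (l 2) (l 16603984)) (b (c (l 16612760) (l 16611568)) (l 16568360)))) (b (a (b (c (a (l 16565232) (l 16537528)) (a (l 16562696) (l 16533928))) (b (c (l 16560616) (l 16557760)) (l 16566336))) (b (c (a (l 16509976) (l 16483960)) (a (l 16505296) (l 16478224))) (l 16505912))) (b (l 16528928) (l 16441104)))) (a (b (a (b (c (l 16448848) (l 16441656)) (l 16462992)) (l 16421608)) (b (l 16457088) (l 16454224))) (b (l 16456568) (a (l 16417304) (l 16582048)))))), by decide +kernel⟩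

def k1_pm_102_a : ∃ t, chk3 f_pm_102_a t 2 3 1 = true :=
  ⟨(a (b (a (l 2) (a (l 2) (a (a (l 2) (b (l 2) (l 16501320))) (b (l 16568592) (l 16480008))))) (a (b (l 2) (b (l 2) (a (l 2) (a (l 2) (a (l 2) (c (l 16563280) (l 16556064))))))) (a (a (b (l 2) (c (b (c (l 16550320) (l 16548424)) (l 16509752)) (l 16519408))) (b (b (l 2) (b (l 16393496) (l 16416800))) (b (c (l 16476400) (l 16459176)) (l 16445936)))) (b (c (b (a (b (l 16441536) (l 16426368)) (l 16408136)) (a (a (l 16418016) (l 16404472)) (l 16401232))) (a (a (l 16367144) (l 16412368)) (l 16404752))) (a (b (a (l 16426120) (l 16414304)) (l 16379384)) (b (l 16413928) (l 16403568))))))) (a (b (a (b (a (l 16538416) (l 16514424)) (l 16451704)) (b (l 16474336) (l 16430656))) (b (a (c (b (l 16397184) (l 16400184)) (l 16312088)) (c (b (l 16402784) (l 16417896)) (l 16404976))) (a (c (b (l 16419608) (l 16425208)) (l 16410680)) (c (l 16370384) (l 16443024))))) (b (a (l 16395896) (b (l 16537392) (l 16468848))) (a (b (c (l 16433056) (l 16428128))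 (c (b (l 16363264) (l 16253072)) (l 16296488))) (b (a (c (l 16411688) (l 16404512)) (l 16240832)) (c (l 16245368) (l 16249632))))))), by decide +kernel⟩

def k2_pm_102_a : ∃ t, chk3 f_pm_102_a t 3 1 1 = true :=
  ⟨(b (a (a (b (a (l 16698912) (l 16625392)) (a (b (l 16729064) (l 16733552)) (l 16627960))) (b (a (l 16686936) (l 16697832)) (b (l 16713320) (l 16762080)))) (b (a (l 16702392) (l 16702392)) (a (l 16752704) (l 16752704)))) (b (a (a (b (a (l 16672856) (l 16650904)) (l 16519728)) (a (l 16602120) (l 16608784))) (a (l 16588232) (l 16609208))) (a (a (b (l 16314136) (l 16276192)) (b (c (l 16398528) (l 16388664)) (c (l 16291480) (l 16278864)))) (c (b (a (l 16398928) (l 16398928)) (a (l 16291480) (l 16291480))) (b (a (l 16389104) (l 16389104)) (a (l 16278864) (l 16278864))))))), by decide +kernel⟩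

theorem s3_pm_102_a : ∃ t, chk3 f_pm_102_a t 2 1 1 = true := ex3_b k0_pm_102_a k1_pm_102_a

theorem s4_pm_102_a : ∃ t, chk3 f_pm_102_a t 1 1 1 = true := ex3_a s3_pm_102_a k2_pm_102_a

theorem c_pm_102_a : CertFX 536870912 536870912 0 420477299 1046898278 26843546 false true false .npp 1 0 2
    ndF1q1 ndF2q2a pcF0 Cut.none Ext.none :=
  certFX2 (fam := false) (s1 := true) (s2 := false) (a := 1) (b := 0) (c := 2) (cn := .npp) (n1 := ndF1q1) (n2 := ndF2q2a) (pc := pcF0) (cut := Cut.none) (xt := Ext.none) (P1 := 536870912) (W1 := 536870912) (P2 := 0) (W2 := 420477299) (P3 := 1046898278) (W3 := 26843546)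
    rfl (fun _ => rfl) s4_pm_102_a

noncomputable def f_pm_102_b : ℕ → ℕ → ℕ → ℕ → Bool := onCell 536870912 536870912 1239849684 370763052 1046898278 26843546
    (rowFX 0 false true false .npp 1 0 2 (qsf 536870912 536870912 1239849684 370763052 0) ndF1q1 ndF2q2b pcF0 Cut.none Ext.none)

def k0_pm_102_b : ∃ t, chk3 f_pm_102_b t 2 1 1 = true :=
  ⟨(b (a (l 2) (b (a (l 16753056) (b (l 16733000) (l 16771848))) (a (l 2) (l 16777216)))) (l 2)), by decide +kernel⟩

def k1_pm_102_b : ∃ t, chk3 f_pm_102_b t 6 1 1 = true :=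
  ⟨(b (b (a (b (l 16709544) (l 16769840)) (b (a (l 16717696) (l 16721856)) (l 16759328))) (a (l 16772632) (a (l 16750472) (l 16758256)))) (a (l 2) (b (l 16754344) (l 2)))), by decide +kernel⟩

def k2_pm_102_b : ∃ t, chk3 f_pm_102_b t 7 2 1 = true :=
  ⟨(a (b (b (a (l 16652744) (l 16408472)) (l 16416696)) (a (l 16620560) (l 16414440))) (a (b (a (b (b (b (l 16367792) (l 16313792)) (l 16289848)) (l 16266264)) (b (a (b (l 16334080) (l 16218680)) (b (c (l 16316328) (l 16348528)) (c (b (l 16215936) (a (l 16181848) (l 16161184))) (b (l 16201784) (l 16156096))))) (c (b (a (l 16203640) (l 16155152)) (l 16169720)) (b (a (l 16188816) (l 16139072)) (l 16153944))))) (a (l 16261680) (c (b (c (l 16173664) (l 16165776)) (l 16169720)) (b (b (l 16153936) (l 16153936)) (l 16153936))))) (b (b (a (b (c (a (l 16384480) (l 16412040)) (a (l 16375824) (l 16404504))) (c (a (b (l 16234640) (l 16153104)) (l 16171824)) (a (b (l 16221360) (l 16137248)) (l 16200136)))) (c (b (a (l 16375616) (c (l 16422944) (l 16420232)))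 (a (b (l 16289152) (l 16192928)) (b (l 16315264) (l 16219496)))) (b (a (l 16411112) (c (l 16438504) (l 16456768))) (a (l 16165304) (l 16171848))))) (a (b (c (a (b (l 16115608) (l 16102352)) (b (l 16092152) (l 16058168))) (a (b (l 16098560) (l 16084864)) (b (l 16074648) (l 16039552)))) (c (l 16073424) (l 16055144))) (b (c (a (b (l 16101120) (a (l 16033592) (l 16028440))) (b (l 16126200) (l 16038144))) (a (b (l 16084224) (a (l 16014408) (l 16009256))) (b (l 16110456) (l 16019544)))) (b (c (a (l 16004496) (a (l 15978128) (l 15970856))) (a (l 15984432) (b (l 15962952) (l 15943520)))) (c (l 15980184) (l 15959480)))))) (c (b (a (c (l 16077992) (l 16068848)) (c (l 15985320) (l 15974968))) (a (l 16073416) (c (l 15985320) (l 15974968)))) (b (c (a (l 16059712) (l 15964616)) (a (l 16050568) (l 15954264))) (a (l 16055136) (l 15959440))))))), by decide +kernel⟩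

def k3_pm_102_b : ∃ t, chk3 f_pm_102_b t 7 3 1 = true :=
  ⟨(a (a (l 16620560) (l 16393472)) (a (a (b (l 16261680) (b (l 16261680) (l 2))) (b (c (b (l 16169720) (l 16169720)) (b (l 16153936) (l 16153936))) (c (b (l 16169720) (l 16169720)) (b (l 16153936) (l 16153936))))) (b (c (b (c (l 16031456) (l 16021704)) (c (l 16031456) (l 16021704))) (b (l 15944168) (l 16007080))) (c (c (b (l 16031456) (l 16031456)) (l 16021704)) (b (l 16007080) (l 16007080)))))), by decide +kernel⟩

theorem s4_pm_102_b : ∃ t, chk3 f_pm_102_b t 7 1 1 = true := ex3_b k2_pm_102_b k3_pm_102_b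

theorem s5_pm_102_b : ∃ t, chk3 f_pm_102_b t 3 1 1 = true := ex3_a k1_pm_102_b s4_pm_102_b

theorem s6_pm_102_b : ∃ t, chk3 f_pm_102_b t 1 1 1 = true := ex3_a k0_pm_102_b s5_pm_102_b

theorem c_pm_102_b : CertFX 536870912 536870912 1239849684 370763052 1046898278 26843546 false true false .npp 1 0 2
    ndF1q1 ndF2q2b pcF0 Cut.none Ext.none :=
  certFX0 (fam := false) (s1 := true) (s2 := false) (a := 1) (b := 0) (c := 2) (cn := .npp) (n1 := ndF1q1) (n2 := ndF2q2b) (pc := pcF0) (cut := Cut.none) (xt := Ext.none) (P1 := 536870912) (W1 := 536870912) (P2 := 1239849684) (W2 := 370763052) (P3 := 1046898278) (W3 := 26843546)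
    rfl s6_pm_102_b

noncomputable def f_pm_112_a : ℕ → ℕ → ℕ → ℕ → Bool := onCell 536870912 536870912 0 420477299 1046898278 26843546
    (rowFX 2 false true false .dn 1 1 2 (qsf 536870912 536870912 0 420477299 1) ndF1q1 ndF2q2a pcF1 Cut.none Ext.none)

def k0_pm_112_a : ∃ t, chk3 f_pm_112_a t 1 1 1 = true :=
  ⟨(a (b (a (b (l 16702392) (l 16752704)) (b (l 16702392) (l 16752704))) (b (a (a (l 16609208) (l 16609208)) (l 16588232)) (a (c (b (l 16398928) (l 16291480)) (b (l 16368128) (a (l 16278864) (l 16278864)))) (l 1)))) (l 1)), by decide +kernel⟩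

theorem c_pm_112_a : CertFX 536870912 536870912 0 420477299 1046898278 26843546 false true false .dn 1 1 2
    ndF1q1 ndF2q2a pcF1 Cut.none Ext.none :=
  certFX2 (fam := false) (s1 := true) (s2 := false) (a := 1) (b := 1) (c := 2) (cn := .dn) (n1 := ndF1q1) (n2 := ndF2q2a) (pc := pcF1) (cut := Cut.none) (xt := Ext.none) (P1 := 536870912) (W1 := 536870912) (P2 := 0) (W2 := 420477299) (P3 := 1046898278) (W3 := 26843546)
    rfl (fun _ => rfl) k0_pm_112_a

noncomputable def f_pm_112_b : ℕ → ℕ → ℕ → ℕ → Bool := onCell 536870912 536870912 1239849684 370763052 1046898278 26843546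
    (rowFX 2 false true false .dn 1 1 2 (qsf 536870912 536870912 1239849684 370763052 1) ndF1q1 ndF2q2b pcF1 Cut.none Ext.none)

def k0_pm_112_b : ∃ t, chk3 f_pm_112_b t 1 1 1 = true :=
  ⟨(b (a (a (b (a (l 16753056) (l 16753056)) (a (l 16773216) (l 16777216))) (b (b (l 16733000) (l 16771848)) (a (l 16777216) (l 16777216)))) (a (a (l 155189073991) (a (l 16751936) (l 1))) (l 1))) (a (a (b (a (b (l 16758048) (l 16725696)) (l 16768032)) (a (a (c (b (l 16392104) (a (l 16110624) (l 16207664))) (b (l 16425136) (l 16017456))) (a (c (l 16215840) (l 16312104)) (l 16542216))) (b (l 16772096) (l 16612408)))) (a (b (l 16777088) (l 16762504)) (l 16776080))) (a (a (l 16774320) (a (l 16760864) (l 141230220567))) (b (a (a (l 16431520) (l 16094928)) (l 1)) (a (a (l 16527648) (l 16237136)) (a (l 15762864) (a (l 15570184) (l 15381072)))))))), by decide +kernel⟩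

theorem c_pm_112_b : CertFX 536870912 536870912 1239849684 370763052 1046898278 26843546 false true false .dn 1 1 2
    ndF1q1 ndF2q2b pcF1 Cut.none Ext.none :=
  certFX2 (fam := false) (s1 := true) (s2 := false) (a := 1) (b := 1) (c := 2) (cn := .dn) (n1 := ndF1q1) (n2 := ndF2q2b) (pc := pcF1) (cut := Cut.none) (xt := Ext.none) (P1 := 536870912) (W1 := 536870912) (P2 := 1239849684) (W2 := 370763052) (P3 := 1046898278) (W3 := 26843546)
    rfl (fun _ => rfl) k0_pm_112_b

noncomputable def f_pm_113 : ℕ → ℕ → ℕ → ℕ → Bool := onCell 536870912 536870912 536870912 536870912 1046898278 26843546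
    (rowFX 1 false true false .nn 1 1 3 (qsf 536870912 536870912 1610612736 469762048 1) ndF1q1 ndF2q3 pcF1 Cut.none Ext.none)

def k0_pm_113 : ∃ t, chk3 f_pm_113 t 1 1 1 = true :=
  ⟨(b (a (b (l 1) (a (l 1) (l 16777216))) (a (b (l 281890871431) (l 16761352)) (b (a (l 16475576) (c (b (a (l 139618670439) (l 16026576)) (b (l 15912424) (l 16122144))) (b (a (l 16204384) (l 16007080)) (b (l 16105128) (l 16105128))))) (a (l 16517520) (b (c (a (l 16218888) (l 16026576)) (l 16105128)) (a (l 16211640) (l 16016832))))))) (b (a (b (l 30635261415) (a (l 16853720) (b (l 16759152) (l 16766408)))) (a (b (l 16763176) (l 16955656)) (a (b (l 16521336) (l 16536440)) (b (b (l 16092672) (l 16058360)) (b (l 16114448) (b (l 16145792) (l 16111600))))))) (a (a (b (b (l 16524712) (l 16294880)) (b (a (l 15954880) (l 16135784)) (a (l 15664440) (l 15895984)))) (b (a (l 16588888) (l 16652736)) (a (b (l 16352064) (l 16172144)) (b (l 16488408) (l 16371792))))) (a (b (l 16591728) (a (l 16399272) (l 16349264))) (b (a (l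 16334416) (a (l 16019744) (b (l 15893072) (l 15761440)))) (a (b (l 16112824) (l 15964696)) (a (l 15724200) (b (b (l 15700984) (l 15698104)) (a (l 15789872) (l 2)))))))))), by decide +kernel⟩

theorem c_pm_113 : CertFX 536870912 536870912 1610612736 469762048 1046898278 26843546 false true false .nn 1 1 3
    ndF1q1 ndF2q3 pcF1 Cut.none Ext.none :=
  certFX1 (fam := false) (s1 := true) (s2 := false) (a := 1) (b := 1) (c := 3) (cn := .nn) (n1 := ndF1q1) (n2 := ndF2q3) (pc := pcF1) (cut := Cut.none) (xt := Ext.none) (P1 := 536870912) (W1 := 536870912) (P2 := 1610612736) (W2 := 469762048) (P3 := 1046898278) (W3 := 26843546)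
    rfl (fun _ => rfl) k0_pm_113

noncomputable def f_pm_123 : ℕ → ℕ → ℕ → ℕ → Bool := onCell 1073741824 536870912 1610612736 469762048 1046898278 26843546
    (rowFX 2 false true false .npn 1 2 3 (qsf 536870912 536870912 1610612736 469762048 2) ndF1q1 ndF2q3 pcF2 Cut.none Ext.none)

def k0_pm_123 : ∃ t, chk3 f_pm_123 t 1 1 1 = true :=
  ⟨(b (a (b (a (a (c (l 79486450183) (a (l 15004448) (l 15074704))) (a (c (l 15177680) (l 15146496)) (l 15129664))) (l 1)) (a (a (a (b (l 15242792) (l 15429080)) (c (l 15358408) (l 15330744))) (a (c (l 15374328) (l 15343864)) (l 15228104))) (a (a (a (l 15171856) (l 15321600)) (l 15717944)) (a (l 16155768) (l 16398848))))) (l 1)) (b (a (a (a (b (a (l 15550040) (l 15499280)) (l 15635064)) (a (b (l 15485784) (l 15602960)) (b (l 15322816) (l 15378224)))) (a (a (a (l 15196824) (l 15337016)) (l 15785656)) (a (l 16289360) (l 16536232)))) (a (a (l 16631448) (l 16771128)) (l 1))) (a (a (a (b (a (l 15771048) (l 15658416)) (a (l 15786008) (l 15667456))) (b (l 15465752)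 (a (l 15535576) (l 15285464)))) (a (a (a (l 15134440) (l 15286736)) (b (l 15835232) (l 15800424))) (a (b (l 16418120) (l 16440400)) (b (l 16668480) (l 16737920))))) (a (a (b (l 16689888) (l 16723264)) (l 16756992)) (a (l 16760472) (l 16760472)))))), by decide +kernel⟩

theorem c_pm_123 : CertFX 536870912 536870912 1610612736 469762048 1046898278 26843546 false true false .npn 1 2 3
    ndF1q1 ndF2q3 pcF2 Cut.none Ext.none :=
  certFX2 (fam := false) (s1 := true) (s2 := false) (a := 1) (b := 2) (c := 3) (cn := .npn) (n1 := ndF1q1) (n2 := ndF2q3) (pc := pcF2) (cut := Cut.none) (xt := Ext.none) (P1 := 536870912) (W1 := 536870912) (P2 := 1610612736) (W2 := 469762048) (P3 := 1046898278) (W3 := 26843546)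
    rfl (fun _ => rfl) k0_pm_123

noncomputable def f_pm_133 : ℕ → ℕ → ℕ → ℕ → Bool := onCell 536870912 536870912 1610612736 469762048 1046898278 26843546
    (rowFX 0 false true false .dn 1 3 3 (qsf 536870912 536870912 1610612736 469762048 3) ndF1q1 ndF2q3 pcF3 Cut.none Ext.none)

def k0_pm_133 : ∃ t, chk3 f_pm_133 t 1 1 1 = true :=
  ⟨(l 1), by decide +kernel⟩

theorem c_pm_133 : CertFX 536870912 536870912 1610612736 469762048 1046898278 26843546 false true false .dn 1 3 3
    ndF1q1 ndF2q3 pcF3 Cut.none Ext.none :=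
  certFX0 (fam := false) (s1 := true) (s2 := false) (a := 1) (b := 3) (c := 3) (cn := .dn) (n1 := ndF1q1) (n2 := ndF2q3) (pc := pcF3) (cut := Cut.none) (xt := Ext.none) (P1 := 536870912) (W1 := 536870912) (P2 := 1610612736) (W2 := 469762048) (P3 := 1046898278) (W3 := 26843546)
    rfl k0_pm_133

noncomputable def f_pm_202_aa : ℕ → ℕ → ℕ → ℕ → Bool := onCell 0 420477299 0 420477299 1046898278 26843546
    (rowFX 0 false true false .pp 2 0 2 (qsf 0 420477299 0 420477299 0) ndF1q2a ndF2q2a pcF0 Cut.none Ext.none)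

def k0_pm_202_aa : ∃ t, chk3 f_pm_202_aa t 1 1 1 = true :=
  ⟨(l 3), by decide +kernel⟩

theorem c_pm_202_aa : CertFX 0 420477299 0 420477299 1046898278 26843546 false true false .pp 2 0 2
    ndF1q2a ndF2q2a pcF0 Cut.none Ext.none :=
  certFX0 (fam := false) (s1 := true) (s2 := false) (a := 2) (b := 0) (c := 2) (cn := .pp) (n1 := ndF1q2a) (n2 := ndF2q2a) (pc := pcF0) (cut := Cut.none) (xt := Ext.none) (P1 := 0) (W1 := 420477299) (P2 := 0) (W2 := 420477299) (P3 := 1046898278) (W3 := 26843546)
    rfl k0_pm_202_aa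

noncomputable def f_pm_202_ab : ℕ → ℕ → ℕ → ℕ → Bool := onCell 0 420477299 1239849684 370763052 1046898278 26843546
    (rowFX 0 false true false .pp 2 0 2 (qsf 0 420477299 1239849684 370763052 0) ndF1q2a ndF2q2b pcF0 Cut.none Ext.none)

def k0_pm_202_ab : ∃ t, chk3 f_pm_202_ab t 1 1 1 = true :=
  ⟨(l 3), by decide +kernel⟩

theorem c_pm_202_ab : CertFX 0 420477299 1239849684 370763052 1046898278 26843546 false true false .pp 2 0 2
    ndF1q2a ndF2q2b pcF0 Cut.none Ext.none :=
  certFX0 (fam := false) (s1 := true) (s2 := false) (a := 2) (b := 0) (c := 2) (cn := .pp) (n1 := ndF1q2a) (n2 := ndF2q2b) (pc := pcF0) (cut := Cut.none) (xt := Ext.none) (P1 := 0) (W1 := 420477299) (P2 := 1239849684) (W2 := 370763052) (P3 := 1046898278) (W3 := 26843546)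
    rfl k0_pm_202_ab

noncomputable def f_pm_202_ba : ℕ → ℕ → ℕ → ℕ → Bool := onCell 1239849684 370763052 0 420477299 1046898278 26843546
    (rowFX 0 false true false .pp 2 0 2 (qsf 1239849684 370763052 0 420477299 0) ndF1q2b ndF2q2a pcF0 Cut.none Ext.none)

def k0_pm_202_ba : ∃ t, chk3 f_pm_202_ba t 1 1 1 = true :=
  ⟨(l 3), by decide +kernel⟩

theorem c_pm_202_ba : CertFX 1239849684 370763052 0 420477299 1046898278 26843546 false true false .pp 2 0 2
    ndF1q2b ndF2q2a pcF0 Cut.none Ext.none :=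
  certFX0 (fam := false) (s1 := true) (s2 := false) (a := 2) (b := 0) (c := 2) (cn := .pp) (n1 := ndF1q2b) (n2 := ndF2q2a) (pc := pcF0) (cut := Cut.none) (xt := Ext.none) (P1 := 1239849684) (W1 := 370763052) (P2 := 0) (W2 := 420477299) (P3 := 1046898278) (W3 := 26843546)
    rfl k0_pm_202_ba

noncomputable def f_pm_202_bb : ℕ → ℕ → ℕ → ℕ → Bool := onCell 1239849684 370763052 1239849684 370763052 1046898278 26843546
    (rowFX 0 false true false .pp 2 0 2 (qsf 1239849684 370763052 1239849684 370763052 0) ndF1q2b ndF2q2b pcF0 Cut.none Ext.none)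

def k0_pm_202_bb : ∃ t, chk3 f_pm_202_bb t 1 1 1 = true :=
  ⟨(l 3), by decide +kernel⟩

theorem c_pm_202_bb : CertFX 1239849684 370763052 1239849684 370763052 1046898278 26843546 false true false .pp 2 0 2
    ndF1q2b ndF2q2b pcF0 Cut.none Ext.none :=
  certFX0 (fam := false) (s1 := true) (s2 := false) (a := 2) (b := 0) (c := 2) (cn := .pp) (n1 := ndF1q2b) (n2 := ndF2q2b) (pc := pcF0) (cut := Cut.none) (xt := Ext.none) (P1 := 1239849684) (W1 := 370763052) (P2 := 1239849684) (W2 := 370763052) (P3 := 1046898278) (W3 := 26843546)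
    rfl k0_pm_202_bb

noncomputable def f_pm_203_a : ℕ → ℕ → ℕ → ℕ → Bool := onCell 0 420477299 1610612736 469762048 1046898278 26843546
    (rowFX 0 false true false .up 2 0 3 (qsf 0 420477299 1610612736 469762048 0) ndF1q2a ndF2q3 pcF0 Cut.none Ext.none)

def k0_pm_203_a : ∃ t, chk3 f_pm_203_a t 1 1 1 = true :=
  ⟨(l 3), by decide +kernel⟩

theorem c_pm_203_a : CertFX 0 420477299 1610612736 469762048 1046898278 26843546 false true false .up 2 0 3
    ndF1q2a ndF2q3 pcF0 Cut.none Ext.none :=
  certFX0 (fam := false) (s1 := true) (s2 := false) (a := 2) (b := 0) (c := 3) (cn := .up) (n1 := ndF1q2a) (n2 := ndF2q3) (pc := pcF0) (cut := Cut.none) (xt := Ext.none) (P1 := 0) (W1 := 420477299) (P2 := 1610612736) (W2 := 469762048) (P3 := 1046898278) (W3 := 26843546)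
    rfl k0_pm_203_a

noncomputable def f_pm_203_b : ℕ → ℕ → ℕ → ℕ → Bool := onCell 1239849684 370763052 1610612736 469762048 1046898278 26843546
    (rowFX 0 false true false .up 2 0 3 (qsf 1239849684 370763052 1610612736 469762048 0) ndF1q2b ndF2q3 pcF0 Cut.none Ext.none)

def k0_pm_203_b : ∃ t, chk3 f_pm_203_b t 1 1 1 = true :=
  ⟨(l 3), by decide +kernel⟩

theorem c_pm_203_b : CertFX 1239849684 370763052 1610612736 469762048 1046898278 26843546 false true false .up 2 0 3
    ndF1q2b ndF2q3 pcF0 Cut.none Ext.none :=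
  certFX0 (fam := false) (s1 := true) (s2 := false) (a := 2) (b := 0) (c := 3) (cn := .up) (n1 := ndF1q2b) (n2 := ndF2q3) (pc := pcF0) (cut := Cut.none) (xt := Ext.none) (P1 := 1239849684) (W1 := 370763052) (P2 := 1610612736) (W2 := 469762048) (P3 := 1046898278) (W3 := 26843546)
    rfl k0_pm_203_b

noncomputable def f_pm_213_a : ℕ → ℕ → ℕ → ℕ → Bool := onCell 0 420477299 1610612736 469762048 1046898278 26843546
    (rowFX 0 false true false .pnn 2 1 3 (qsf 0 420477299 1610612736 469762048 1) ndF1q2a ndF2q3 pcF1 Cut.none Ext.none)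

def k0_pm_213_a : ∃ t, chk3 f_pm_213_a t 1 1 1 = true :=
  ⟨(l 3), by decide +kernel⟩

theorem c_pm_213_a : CertFX 0 420477299 1610612736 469762048 1046898278 26843546 false true false .pnn 2 1 3
    ndF1q2a ndF2q3 pcF1 Cut.none Ext.none :=
  certFX0 (fam := false) (s1 := true) (s2 := false) (a := 2) (b := 1) (c := 3) (cn := .pnn) (n1 := ndF1q2a) (n2 := ndF2q3) (pc := pcF1) (cut := Cut.none) (xt := Ext.none) (P1 := 0) (W1 := 420477299) (P2 := 1610612736) (W2 := 469762048) (P3 := 1046898278) (W3 := 26843546)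
    rfl k0_pm_213_a

noncomputable def f_pm_213_b : ℕ → ℕ → ℕ → ℕ → Bool := onCell 1239849684 370763052 1610612736 469762048 1046898278 26843546
    (rowFX 0 false true false .pnn 2 1 3 (qsf 1239849684 370763052 1610612736 469762048 1) ndF1q2b ndF2q3 pcF1 Cut.none Ext.none)

def k0_pm_213_b : ∃ t, chk3 f_pm_213_b t 1 1 1 = true :=
  ⟨(l 3), by decide +kernel⟩

theorem c_pm_213_b : CertFX 1239849684 370763052 1610612736 469762048 1046898278 26843546 false true false .pnn 2 1 3
    ndF1q2b ndF2q3 pcF1 Cut.none Ext.none :=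
  certFX0 (fam := false) (s1 := true) (s2 := false) (a := 2) (b := 1) (c := 3) (cn := .pnn) (n1 := ndF1q2b) (n2 := ndF2q3) (pc := pcF1) (cut := Cut.none) (xt := Ext.none) (P1 := 1239849684) (W1 := 370763052) (P2 := 1610612736) (W2 := 469762048) (P3 := 1046898278) (W3 := 26843546)
    rfl k0_pm_213_b

noncomputable def f_pm_303 : ℕ → ℕ → ℕ → ℕ → Bool := onCell 1610612736 469762048 1610612736 469762048 1046898278 26843546
    (rowFX 0 false true false .npn 3 0 3 (qsf 1610612736 469762048 1610612736 469762048 0) ndF1q3 ndF2q3 pcF0 Cut.none Ext.none)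

def k0_pm_303 : ∃ t, chk3 f_pm_303 t 1 1 1 = true :=
  ⟨(l 3), by decide +kernel⟩

theorem c_pm_303 : CertFX 1610612736 469762048 1610612736 469762048 1046898278 26843546 false true false .npn 3 0 3
    ndF1q3 ndF2q3 pcF0 Cut.none Ext.none :=
  certFX0 (fam := false) (s1 := true) (s2 := false) (a := 3) (b := 0) (c := 3) (cn := .npn) (n1 := ndF1q3) (n2 := ndF2q3) (pc := pcF0) (cut := Cut.none) (xt := Ext.none) (P1 := 1610612736) (W1 := 469762048) (P2 := 1610612736) (W2 := 469762048) (P3 := 1046898278) (W3 := 26843546)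
    rfl k0_pm_303

noncomputable def f_pm_313 : ℕ → ℕ → ℕ → ℕ → Bool := onCell 1610612736 469762048 1610612736 469762048 1046898278 26843546
    (rowFX 0 false true false .dn 3 1 3 (qsf 1610612736 469762048 1610612736 469762048 1) ndF1q3 ndF2q3 pcF1 Cut.none Ext.none)

def k0_pm_313 : ∃ t, chk3 f_pm_313 t 1 1 1 = true :=
  ⟨(l 1), by decide +kernel⟩

theorem c_pm_313 : CertFX 1610612736 469762048 1610612736 469762048 1046898278 26843546 false true false .dn 3 1 3
    ndF1q3 ndF2q3 pcF1 Cut.none Ext.none :=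
  certFX0 (fam := false) (s1 := true) (s2 := false) (a := 3) (b := 1) (c := 3) (cn := .dn) (n1 := ndF1q3) (n2 := ndF2q3) (pc := pcF1) (cut := Cut.none) (xt := Ext.none) (P1 := 1610612736) (W1 := 469762048) (P2 := 1610612736) (W2 := 469762048) (P3 := 1046898278) (W3 := 26843546)
    rfl k0_pm_313

noncomputable def f_mm_001 : ℕ → ℕ → ℕ → ℕ → Bool := onCell 67108864 469762048 536870912 536870912 1046898278 26843546
    (rowFX 0 false false false .up 0 0 1 (qsf 67108864 469762048 536870912 536870912 0) ndF1q0 ndF2q1 pcF0 Cut.none Ext.none)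

def k0_mm_001 : ∃ t, chk3 f_mm_001 t 1 1 1 = true :=
  ⟨(l 3), by decide +kernel⟩

theorem c_mm_001 : CertFX 67108864 469762048 536870912 536870912 1046898278 26843546 false false false .up 0 0 1
    ndF1q0 ndF2q1 pcF0 Cut.none Ext.none :=
  certFX0 (fam := false) (s1 := false) (s2 := false) (a := 0) (b := 0) (c := 1) (cn := .up) (n1 := ndF1q0) (n2 := ndF2q1) (pc := pcF0) (cut := Cut.none) (xt := Ext.none) (P1 := 67108864) (W1 := 469762048) (P2 := 536870912) (W2 := 536870912) (P3 := 1046898278) (W3 := 26843546)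
    rfl k0_mm_001

noncomputable def f_mm_011 : ℕ → ℕ → ℕ → ℕ → Bool := onCell 67108864 469762048 536870912 536870912 1046898278 26843546
    (rowFX 0 false false false .pnn 0 1 1 (qsf 67108864 469762048 536870912 536870912 1) ndF1q0 ndF2q1 pcF1 Cut.none Ext.none)

def k0_mm_011 : ∃ t, chk3 f_mm_011 t 1 1 1 = true :=
  ⟨(l 3), by decide +kernel⟩

theorem c_mm_011 : CertFX 67108864 469762048 536870912 536870912 1046898278 26843546 false false false .pnn 0 1 1
    ndF1q0 ndF2q1 pcF1 Cut.none Ext.none :=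
  certFX0 (fam := false) (s1 := false) (s2 := false) (a := 0) (b := 1) (c := 1) (cn := .pnn) (n1 := ndF1q0) (n2 := ndF2q1) (pc := pcF1) (cut := Cut.none) (xt := Ext.none) (P1 := 67108864) (W1 := 469762048) (P2 := 536870912) (W2 := 536870912) (P3 := 1046898278) (W3 := 26843546)
    rfl k0_mm_011

noncomputable def f_mm_012_a : ℕ → ℕ → ℕ → ℕ → Bool := onCell 67108864 469762048 0 420477299 1046898278 26843546
    (rowFX 0 false false false .pnp 0 1 2 (qsf 67108864 469762048 0 420477299 1) ndF1q0 ndF2q2a pcF1 Cut.none Ext.none)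

def k0_mm_012_a : ∃ t, chk3 f_mm_012_a t 1 1 1 = true :=
  ⟨(l 5), by decide +kernel⟩

theorem c_mm_012_a : CertFX 67108864 469762048 0 420477299 1046898278 26843546 false false false .pnp 0 1 2
    ndF1q0 ndF2q2a pcF1 Cut.none Ext.none :=
  certFX0 (fam := false) (s1 := false) (s2 := false) (a := 0) (b := 1) (c := 2) (cn := .pnp) (n1 := ndF1q0) (n2 := ndF2q2a) (pc := pcF1) (cut := Cut.none) (xt := Ext.none) (P1 := 67108864) (W1 := 469762048) (P2 := 0) (W2 := 420477299) (P3 := 1046898278) (W3 := 26843546)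
    rfl k0_mm_012_a

noncomputable def f_mm_012_b : ℕ → ℕ → ℕ → ℕ → Bool := onCell 67108864 469762048 1239849684 370763052 1046898278 26843546
    (rowFX 0 false false false .pnp 0 1 2 (qsf 67108864 469762048 1239849684 370763052 1) ndF1q0 ndF2q2b pcF1 Cut.none Ext.none)

def k0_mm_012_b : ∃ t, chk3 f_mm_012_b t 1 1 1 = true :=
  ⟨(l 5), by decide +kernel⟩

theorem c_mm_012_b : CertFX 67108864 469762048 1239849684 370763052 1046898278 26843546 false false false .pnp 0 1 2
    ndF1q0 ndF2q2b pcF1 Cut.none Ext.none :=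
  certFX0 (fam := false) (s1 := false) (s2 := false) (a := 0) (b := 1) (c := 2) (cn := .pnp) (n1 := ndF1q0) (n2 := ndF2q2b) (pc := pcF1) (cut := Cut.none) (xt := Ext.none) (P1 := 67108864) (W1 := 469762048) (P2 := 1239849684) (W2 := 370763052) (P3 := 1046898278) (W3 := 26843546)
    rfl k0_mm_012_b

noncomputable def f_mm_022_a : ℕ → ℕ → ℕ → ℕ → Bool := onCell 67108864 469762048 0 420477299 1046898278 26843546
    (rowFX 0 false false false .pp 0 2 2 (qsf 67108864 469762048 0 420477299 2) ndF1q0 ndF2q2a pcF2 Cut.none Ext.none)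

def k0_mm_022_a : ∃ t, chk3 f_mm_022_a t 1 1 1 = true :=
  ⟨(l 5), by decide +kernel⟩

theorem c_mm_022_a : CertFX 67108864 469762048 0 420477299 1046898278 26843546 false false false .pp 0 2 2
    ndF1q0 ndF2q2a pcF2 Cut.none Ext.none :=
  certFX0 (fam := false) (s1 := false) (s2 := false) (a := 0) (b := 2) (c := 2) (cn := .pp) (n1 := ndF1q0) (n2 := ndF2q2a) (pc := pcF2) (cut := Cut.none) (xt := Ext.none) (P1 := 67108864) (W1 := 469762048) (P2 := 0) (W2 := 420477299) (P3 := 1046898278) (W3 := 26843546)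
    rfl k0_mm_022_a

noncomputable def f_mm_022_b : ℕ → ℕ → ℕ → ℕ → Bool := onCell 67108864 469762048 1239849684 370763052 1046898278 26843546
    (rowFX 0 false false false .pp 0 2 2 (qsf 67108864 469762048 1239849684 370763052 2) ndF1q0 ndF2q2b pcF2 Cut.none Ext.none)

def k0_mm_022_b : ∃ t, chk3 f_mm_022_b t 1 1 1 = true :=
  ⟨(l 5), by decide +kernel⟩

theorem c_mm_022_b : CertFX 67108864 469762048 1239849684 370763052 1046898278 26843546 false false false .pp 0 2 2
    ndF1q0 ndF2q2b pcF2 Cut.none Ext.none :=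
  certFX0 (fam := false) (s1 := false) (s2 := false) (a := 0) (b := 2) (c := 2) (cn := .pp) (n1 := ndF1q0) (n2 := ndF2q2b) (pc := pcF2) (cut := Cut.none) (xt := Ext.none) (P1 := 67108864) (W1 := 469762048) (P2 := 1239849684) (W2 := 370763052) (P3 := 1046898278) (W3 := 26843546)
    rfl k0_mm_022_b

noncomputable def f_mm_023 : ℕ → ℕ → ℕ → ℕ → Bool := onCell 67108864 469762048 1610612736 469762048 1046898278 26843546
    (rowFX 0 false false false .up 0 2 3 (qsf 67108864 469762048 1610612736 469762048 2) ndF1q0 ndF2q3 pcF2 Cut.none Ext.none)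

def k0_mm_023 : ∃ t, chk3 f_mm_023 t 1 1 1 = true :=
  ⟨(l 5), by decide +kernel⟩

theorem c_mm_023 : CertFX 67108864 469762048 1610612736 469762048 1046898278 26843546 false false false .up 0 2 3
    ndF1q0 ndF2q3 pcF2 Cut.none Ext.none :=
  certFX0 (fam := false) (s1 := false) (s2 := false) (a := 0) (b := 2) (c := 3) (cn := .up) (n1 := ndF1q0) (n2 := ndF2q3) (pc := pcF2) (cut := Cut.none) (xt := Ext.none) (P1 := 67108864) (W1 := 469762048) (P2 := 1610612736) (W2 := 469762048) (P3 := 1046898278) (W3 := 26843546)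
    rfl k0_mm_023

noncomputable def f_mm_033 : ℕ → ℕ → ℕ → ℕ → Bool := onCell 67108864 469762048 1610612736 469762048 1046898278 26843546
    (rowFX 0 false false false .pnn 0 3 3 (qsf 67108864 469762048 1610612736 469762048 3) ndF1q0 ndF2q3 pcF3 Cut.none Ext.none)

def k0_mm_033 : ∃ t, chk3 f_mm_033 t 1 1 1 = true :=
  ⟨(l 5), by decide +kernel⟩

theorem c_mm_033 : CertFX 67108864 469762048 1610612736 469762048 1046898278 26843546 false false false .pnn 0 3 3
    ndF1q0 ndF2q3 pcF3 Cut.none Ext.none :=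
  certFX0 (fam := false) (s1 := false) (s2 := false) (a := 0) (b := 3) (c := 3) (cn := .pnn) (n1 := ndF1q0) (n2 := ndF2q3) (pc := pcF3) (cut := Cut.none) (xt := Ext.none) (P1 := 67108864) (W1 := 469762048) (P2 := 1610612736) (W2 := 469762048) (P3 := 1046898278) (W3 := 26843546)
    rfl k0_mm_033

noncomputable def f_mm_101 : ℕ → ℕ → ℕ → ℕ → Bool := onCell 536870912 536870912 536870912 536870912 1046898278 26843546
    (rowFX 0 false false false .npn 1 0 1 (qsf 536870912 536870912 536870912 536870912 0) ndF1q1 ndF2q1 pcF0 Cut.none Ext.none)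

def k0_mm_101 : ∃ t, chk3 f_mm_101 t 1 1 1 = true :=
  ⟨(l 3), by decide +kernel⟩

theorem c_mm_101 : CertFX 536870912 536870912 536870912 536870912 1046898278 26843546 false false false .npn 1 0 1
    ndF1q1 ndF2q1 pcF0 Cut.none Ext.none :=
  certFX0 (fam := false) (s1 := false) (s2 := false) (a := 1) (b := 0) (c := 1) (cn := .npn) (n1 := ndF1q1) (n2 := ndF2q1) (pc := pcF0) (cut := Cut.none) (xt := Ext.none) (P1 := 536870912) (W1 := 536870912) (P2 := 536870912) (W2 := 536870912) (P3 := 1046898278) (W3 := 26843546)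
    rfl k0_mm_101

noncomputable def f_mm_102_a : ℕ → ℕ → ℕ → ℕ → Bool := onCell 536870912 536870912 0 420477299 1046898278 26843546
    (rowFX 0 false false false .npp 1 0 2 (qsf 536870912 536870912 0 420477299 0) ndF1q1 ndF2q2a pcF0 Cut.none Ext.none)

def k0_mm_102_a : ∃ t, chk3 f_mm_102_a t 1 1 1 = true :=
  ⟨(l 3), by decide +kernel⟩

theorem c_mm_102_a : CertFX 536870912 536870912 0 420477299 1046898278 26843546 false false false .npp 1 0 2
    ndF1q1 ndF2q2a pcF0 Cut.none Ext.none :=
  certFX0 (fam := false) (s1 := false) (s2 := false) (a := 1) (b := 0) (c := 2) (cn := .npp) (n1 := ndF1q1) (n2 := ndF2q2a) (pc := pcF0) (cut := Cut.none) (xt := Ext.none) (P1 := 536870912) (W1 := 536870912) (P2 := 0) (W2 := 420477299) (P3 := 1046898278) (W3 := 26843546)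
    rfl k0_mm_102_a

noncomputable def f_mm_102_b : ℕ → ℕ → ℕ → ℕ → Bool := onCell 536870912 536870912 1239849684 370763052 1046898278 26843546
    (rowFX 0 false false false .npp 1 0 2 (qsf 536870912 536870912 1239849684 370763052 0) ndF1q1 ndF2q2b pcF0 Cut.none Ext.none)

def k0_mm_102_b : ∃ t, chk3 f_mm_102_b t 1 1 1 = true :=
  ⟨(l 5), by decide +kernel⟩

theorem c_mm_102_b : CertFX 536870912 536870912 1239849684 370763052 1046898278 26843546 false false false .npp 1 0 2
    ndF1q1 ndF2q2b pcF0 Cut.none Ext.none :=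
  certFX0 (fam := false) (s1 := false) (s2 := false) (a := 1) (b := 0) (c := 2) (cn := .npp) (n1 := ndF1q1) (n2 := ndF2q2b) (pc := pcF0) (cut := Cut.none) (xt := Ext.none) (P1 := 536870912) (W1 := 536870912) (P2 := 1239849684) (W2 := 370763052) (P3 := 1046898278) (W3 := 26843546)
    rfl k0_mm_102_b

noncomputable def f_mm_112_a : ℕ → ℕ → ℕ → ℕ → Bool := onCell 536870912 536870912 0 420477299 1046898278 26843546
    (rowFX 0 false false false .dn 1 1 2 (qsf 536870912 536870912 0 420477299 1) ndF1q1 ndF2q2a pcF1 Cut.none Ext.none)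

def k0_mm_112_a : ∃ t, chk3 f_mm_112_a t 1 1 1 = true :=
  ⟨(l 3), by decide +kernel⟩

theorem c_mm_112_a : CertFX 536870912 536870912 0 420477299 1046898278 26843546 false false false .dn 1 1 2
    ndF1q1 ndF2q2a pcF1 Cut.none Ext.none :=
  certFX0 (fam := false) (s1 := false) (s2 := false) (a := 1) (b := 1) (c := 2) (cn := .dn) (n1 := ndF1q1) (n2 := ndF2q2a) (pc := pcF1) (cut := Cut.none) (xt := Ext.none) (P1 := 536870912) (W1 := 536870912) (P2 := 0) (W2 := 420477299) (P3 := 1046898278) (W3 := 26843546)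
    rfl k0_mm_112_a

noncomputable def f_mm_112_b : ℕ → ℕ → ℕ → ℕ → Bool := onCell 536870912 536870912 1239849684 370763052 1046898278 26843546
    (rowFX 0 false false false .dn 1 1 2 (qsf 536870912 536870912 1239849684 370763052 1) ndF1q1 ndF2q2b pcF1 Cut.none Ext.none)

def k0_mm_112_b : ∃ t, chk3 f_mm_112_b t 1 1 1 = true :=
  ⟨(l 5), by decide +kernel⟩

theorem c_mm_112_b : CertFX 536870912 536870912 1239849684 370763052 1046898278 26843546 false false false .dn 1 1 2
    ndF1q1 ndF2q2b pcF1 Cut.none Ext.none :=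
  certFX0 (fam := false) (s1 := false) (s2 := false) (a := 1) (b := 1) (c := 2) (cn := .dn) (n1 := ndF1q1) (n2 := ndF2q2b) (pc := pcF1) (cut := Cut.none) (xt := Ext.none) (P1 := 536870912) (W1 := 536870912) (P2 := 1239849684) (W2 := 370763052) (P3 := 1046898278) (W3 := 26843546)
    rfl k0_mm_112_b

noncomputable def f_mm_113 : ℕ → ℕ → ℕ → ℕ → Bool := onCell 536870912 536870912 1610612736 469762048 1046898278 26843546
    (rowFX 0 false false false .nn 1 1 3 (qsf 536870912 536870912 1610612736 469762048 1) ndF1q1 ndF2q3 pcF1 Cut.none Ext.none)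

def k0_mm_113 : ∃ t, chk3 f_mm_113 t 1 1 1 = true :=
  ⟨(l 5), by decide +kernel⟩

theorem c_mm_113 : CertFX 536870912 536870912 1610612736 469762048 1046898278 26843546 false false false .nn 1 1 3
    ndF1q1 ndF2q3 pcF1 Cut.none Ext.none :=
  certFX0 (fam := false) (s1 := false) (s2 := false) (a := 1) (b := 1) (c := 3) (cn := .nn) (n1 := ndF1q1) (n2 := ndF2q3) (pc := pcF1) (cut := Cut.none) (xt := Ext.none) (P1 := 536870912) (W1 := 536870912) (P2 := 1610612736) (W2 := 469762048) (P3 := 1046898278) (W3 := 26843546)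
    rfl k0_mm_113

noncomputable def f_mm_123 : ℕ → ℕ → ℕ → ℕ → Bool := onCell 536870912 536870912 1610612736 469762048 1046898278 26843546
    (rowFX 0 false false false .npn 1 2 3 (qsf 536870912 536870912 1610612736 469762048 2) ndF1q1 ndF2q3 pcF2 Cut.none Ext.none)

def k0_mm_123 : ∃ t, chk3 f_mm_123 t 1 1 1 = true :=
  ⟨(l 5), by decide +kernel⟩

theorem c_mm_123 : CertFX 536870912 536870912 1610612736 469762048 1046898278 26843546 false false false .npn 1 2 3
    ndF1q1 ndF2q3 pcF2 Cut.none Ext.none :=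
  certFX0 (fam := false) (s1 := false) (s2 := false) (a := 1) (b := 2) (c := 3) (cn := .npn) (n1 := ndF1q1) (n2 := ndF2q3) (pc := pcF2) (cut := Cut.none) (xt := Ext.none) (P1 := 536870912) (W1 := 536870912) (P2 := 1610612736) (W2 := 469762048) (P3 := 1046898278) (W3 := 26843546)
    rfl k0_mm_123

noncomputable def f_mm_133 : ℕ → ℕ → ℕ → ℕ → Bool := onCell 536870912 536870912 1610612736 469762048 1046898278 26843546
    (rowFX 0 false false false .dn 1 3 3 (qsf 536870912 536870912 1610612736 469762048 3) ndF1q1 ndF2q3 pcF3 Cut.none Ext.none)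

def k0_mm_133 : ∃ t, chk3 f_mm_133 t 1 1 1 = true :=
  ⟨(l 1), by decide +kernel⟩

theorem c_mm_133 : CertFX 536870912 536870912 1610612736 469762048 1046898278 26843546 false false false .dn 1 3 3
    ndF1q1 ndF2q3 pcF3 Cut.none Ext.none :=
  certFX0 (fam := false) (s1 := false) (s2 := false) (a := 1) (b := 3) (c := 3) (cn := .dn) (n1 := ndF1q1) (n2 := ndF2q3) (pc := pcF3) (cut := Cut.none) (xt := Ext.none) (P1 := 536870912) (W1 := 536870912) (P2 := 1610612736) (W2 := 469762048) (P3 := 1046898278) (W3 := 26843546)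
    rfl k0_mm_133

noncomputable def f_mm_202_aa : ℕ → ℕ → ℕ → ℕ → Bool := onCell 0 420477299 0 420477299 1046898278 26843546
    (rowFX 0 false false false .pp 2 0 2 (qsf 0 420477299 0 420477299 0) ndF1q2a ndF2q2a pcF0 Cut.none Ext.none)

def k0_mm_202_aa : ∃ t, chk3 f_mm_202_aa t 1 1 1 = true :=
  ⟨(l 3), by decide +kernel⟩

theorem c_mm_202_aa : CertFX 0 420477299 0 420477299 1046898278 26843546 false false false .pp 2 0 2
    ndF1q2a ndF2q2a pcF0 Cut.none Ext.none :=
  certFX0 (fam := false) (s1 := false) (s2 := false) (a := 2) (b := 0) (c := 2) (cn := .pp) (n1 := ndF1q2a) (n2 := ndF2q2a) (pc := pcF0) (cut := Cut.none) (xt := Ext.none) (P1 := 0) (W1 := 420477299) (P2 := 0) (W2 := 420477299) (P3 := 1046898278) (W3 := 26843546)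
    rfl k0_mm_202_aa

noncomputable def f_mm_202_ab : ℕ → ℕ → ℕ → ℕ → Bool := onCell 0 420477299 1239849684 370763052 1046898278 26843546
    (rowFX 0 false false false .pp 2 0 2 (qsf 0 420477299 1239849684 370763052 0) ndF1q2a ndF2q2b pcF0 Cut.none Ext.none)

def k0_mm_202_ab : ∃ t, chk3 f_mm_202_ab t 1 1 1 = true :=
  ⟨(l 3), by decide +kernel⟩

theorem c_mm_202_ab : CertFX 0 420477299 1239849684 370763052 1046898278 26843546 false false false .pp 2 0 2
    ndF1q2a ndF2q2b pcF0 Cut.none Ext.none :=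
  certFX0 (fam := false) (s1 := false) (s2 := false) (a := 2) (b := 0) (c := 2) (cn := .pp) (n1 := ndF1q2a) (n2 := ndF2q2b) (pc := pcF0) (cut := Cut.none) (xt := Ext.none) (P1 := 0) (W1 := 420477299) (P2 := 1239849684) (W2 := 370763052) (P3 := 1046898278) (W3 := 26843546)
    rfl k0_mm_202_ab

noncomputable def f_mm_202_ba : ℕ → ℕ → ℕ → ℕ → Bool := onCell 1239849684 370763052 0 420477299 1046898278 26843546
    (rowFX 0 false false false .pp 2 0 2 (qsf 1239849684 370763052 0 420477299 0) ndF1q2b ndF2q2a pcF0 Cut.none Ext.none)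

def k0_mm_202_ba : ∃ t, chk3 f_mm_202_ba t 1 1 1 = true :=
  ⟨(l 3), by decide +kernel⟩

theorem c_mm_202_ba : CertFX 1239849684 370763052 0 420477299 1046898278 26843546 false false false .pp 2 0 2
    ndF1q2b ndF2q2a pcF0 Cut.none Ext.none :=
  certFX0 (fam := false) (s1 := false) (s2 := false) (a := 2) (b := 0) (c := 2) (cn := .pp) (n1 := ndF1q2b) (n2 := ndF2q2a) (pc := pcF0) (cut := Cut.none) (xt := Ext.none) (P1 := 1239849684) (W1 := 370763052) (P2 := 0) (W2 := 420477299) (P3 := 1046898278) (W3 := 26843546)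
    rfl k0_mm_202_ba

noncomputable def f_mm_202_bb : ℕ → ℕ → ℕ → ℕ → Bool := onCell 1239849684 370763052 1239849684 370763052 1046898278 26843546
    (rowFX 0 false false false .pp 2 0 2 (qsf 1239849684 370763052 1239849684 370763052 0) ndF1q2b ndF2q2b pcF0 Cut.none Ext.none)

def k0_mm_202_bb : ∃ t, chk3 f_mm_202_bb t 1 1 1 = true :=
  ⟨(l 3), by decide +kernel⟩

theorem c_mm_202_bb : CertFX 1239849684 370763052 1239849684 370763052 1046898278 26843546 false false false .pp 2 0 2
    ndF1q2b ndF2q2b pcF0 Cut.none Ext.none :=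
  certFX0 (fam := false) (s1 := false) (s2 := false) (a := 2) (b := 0) (c := 2) (cn := .pp) (n1 := ndF1q2b) (n2 := ndF2q2b) (pc := pcF0) (cut := Cut.none) (xt := Ext.none) (P1 := 1239849684) (W1 := 370763052) (P2 := 1239849684) (W2 := 370763052) (P3 := 1046898278) (W3 := 26843546)
    rfl k0_mm_202_bb

noncomputable def f_mm_203_a : ℕ → ℕ → ℕ → ℕ → Bool := onCell 0 420477299 1610612736 469762048 1046898278 26843546
    (rowFX 0 false false false .up 2 0 3 (qsf 0 420477299 1610612736 469762048 0) ndF1q2a ndF2q3 pcF0 Cut.none Ext.none)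

def k0_mm_203_a : ∃ t, chk3 f_mm_203_a t 1 1 1 = true :=
  ⟨(l 3), by decide +kernel⟩

theorem c_mm_203_a : CertFX 0 420477299 1610612736 469762048 1046898278 26843546 false false false .up 2 0 3
    ndF1q2a ndF2q3 pcF0 Cut.none Ext.none :=
  certFX0 (fam := false) (s1 := false) (s2 := false) (a := 2) (b := 0) (c := 3) (cn := .up) (n1 := ndF1q2a) (n2 := ndF2q3) (pc := pcF0) (cut := Cut.none) (xt := Ext.none) (P1 := 0) (W1 := 420477299) (P2 := 1610612736) (W2 := 469762048) (P3 := 1046898278) (W3 := 26843546)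
    rfl k0_mm_203_a

noncomputable def f_mm_203_b : ℕ → ℕ → ℕ → ℕ → Bool := onCell 1239849684 370763052 1610612736 469762048 1046898278 26843546
    (rowFX 0 false false false .up 2 0 3 (qsf 1239849684 370763052 1610612736 469762048 0) ndF1q2b ndF2q3 pcF0 Cut.none Ext.none)

def k0_mm_203_b : ∃ t, chk3 f_mm_203_b t 1 1 1 = true :=
  ⟨(l 3), by decide +kernel⟩

theorem c_mm_203_b : CertFX 1239849684 370763052 1610612736 469762048 1046898278 26843546 false false false .up 2 0 3
    ndF1q2b ndF2q3 pcF0 Cut.none Ext.none :=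
  certFX0 (fam := false) (s1 := false) (s2 := false) (a := 2) (b := 0) (c := 3) (cn := .up) (n1 := ndF1q2b) (n2 := ndF2q3) (pc := pcF0) (cut := Cut.none) (xt := Ext.none) (P1 := 1239849684) (W1 := 370763052) (P2 := 1610612736) (W2 := 469762048) (P3 := 1046898278) (W3 := 26843546)
    rfl k0_mm_203_b

noncomputable def f_mm_213_a : ℕ → ℕ → ℕ → ℕ → Bool := onCell 0 420477299 1610612736 469762048 1046898278 26843546
    (rowFX 0 false false false .pnn 2 1 3 (qsf 0 420477299 1610612736 469762048 1) ndF1q2a ndF2q3 pcF1 Cut.none Ext.none)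

def k0_mm_213_a : ∃ t, chk3 f_mm_213_a t 1 1 1 = true :=
  ⟨(l 3), by decide +kernel⟩

theorem c_mm_213_a : CertFX 0 420477299 1610612736 469762048 1046898278 26843546 false false false .pnn 2 1 3
    ndF1q2a ndF2q3 pcF1 Cut.none Ext.none :=
  certFX0 (fam := false) (s1 := false) (s2 := false) (a := 2) (b := 1) (c := 3) (cn := .pnn) (n1 := ndF1q2a) (n2 := ndF2q3) (pc := pcF1) (cut := Cut.none) (xt := Ext.none) (P1 := 0) (W1 := 420477299) (P2 := 1610612736) (W2 := 469762048) (P3 := 1046898278) (W3 := 26843546)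
    rfl k0_mm_213_a

noncomputable def f_mm_213_b : ℕ → ℕ → ℕ → ℕ → Bool := onCell 1239849684 370763052 1610612736 469762048 1046898278 26843546
    (rowFX 0 false false false .pnn 2 1 3 (qsf 1239849684 370763052 1610612736 469762048 1) ndF1q2b ndF2q3 pcF1 Cut.none Ext.none)

def k0_mm_213_b : ∃ t, chk3 f_mm_213_b t 1 1 1 = true :=
  ⟨(l 3), by decide +kernel⟩

theorem c_mm_213_b : CertFX 1239849684 370763052 1610612736 469762048 1046898278 26843546 false false false .pnn 2 1 3
    ndF1q2b ndF2q3 pcF1 Cut.none Ext.none :=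
  certFX0 (fam := false) (s1 := false) (s2 := false) (a := 2) (b := 1) (c := 3) (cn := .pnn) (n1 := ndF1q2b) (n2 := ndF2q3) (pc := pcF1) (cut := Cut.none) (xt := Ext.none) (P1 := 1239849684) (W1 := 370763052) (P2 := 1610612736) (W2 := 469762048) (P3 := 1046898278) (W3 := 26843546)
    rfl k0_mm_213_b

noncomputable def f_mm_303 : ℕ → ℕ → ℕ → ℕ → Bool := onCell 1610612736 469762048 1610612736 469762048 1046898278 26843546
    (rowFX 0 false false false .npn 3 0 3 (qsf 1610612736 469762048 1610612736 469762048 0) ndF1q3 ndF2q3 pcF0 Cut.none Ext.none)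

def k0_mm_303 : ∃ t, chk3 f_mm_303 t 1 1 1 = true :=
  ⟨(l 3), by decide +kernel⟩

theorem c_mm_303 : CertFX 1610612736 469762048 1610612736 469762048 1046898278 26843546 false false false .npn 3 0 3
    ndF1q3 ndF2q3 pcF0 Cut.none Ext.none :=
  certFX0 (fam := false) (s1 := false) (s2 := false) (a := 3) (b := 0) (c := 3) (cn := .npn) (n1 := ndF1q3) (n2 := ndF2q3) (pc := pcF0) (cut := Cut.none) (xt := Ext.none) (P1 := 1610612736) (W1 := 469762048) (P2 := 1610612736) (W2 := 469762048) (P3 := 1046898278) (W3 := 26843546)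
    rfl k0_mm_303

noncomputable def f_mm_313 : ℕ → ℕ → ℕ → ℕ → Bool := onCell 1610612736 469762048 1610612736 469762048 1046898278 26843546
    (rowFX 0 false false false .dn 3 1 3 (qsf 1610612736 469762048 1610612736 469762048 1) ndF1q3 ndF2q3 pcF1 Cut.none Ext.none)

def k0_mm_313 : ∃ t, chk3 f_mm_313 t 1 1 1 = true :=
  ⟨(l 1), by decide +kernel⟩

theorem c_mm_313 : CertFX 1610612736 469762048 1610612736 469762048 1046898278 26843546 false false false .dn 3 1 3
    ndF1q3 ndF2q3 pcF1 Cut.none Ext.none :=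
  certFX0 (fam := false) (s1 := false) (s2 := false) (a := 3) (b := 1) (c := 3) (cn := .dn) (n1 := ndF1q3) (n2 := ndF2q3) (pc := pcF1) (cut := Cut.none) (xt := Ext.none) (P1 := 1610612736) (W1 := 469762048) (P2 := 1610612736) (W2 := 469762048) (P3 := 1046898278) (W3 := 26843546)
    rfl k0_mm_313

end Pool.Agent.Strip051.G.IE1.Tab.C.FB12

namespace Pool.Agent.Strip051.G.IE1.Tab.C.FB13

open Pool.Agent.Strip051.PB Pool.Agent.Strip051.PB.T
open Pool.Agent.Strip051.G.IE1.Tab

noncomputable def f_pp_001 : ℕ → ℕ → ℕ → ℕ → Bool := onCell 67108864 469762048 536870912 536870912 1046898278 26843546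
    (rowFX 0 false true true .up 0 0 1 (qsf 67108864 469762048 536870912 536870912 0) ndF1q0 ndF3q1 pcF0 Cut.none Ext.none)

def k0_pp_001 : ∃ t, chk3 f_pp_001 t 1 1 1 = true :=
  ⟨(l 3), by decide +kernel⟩

theorem c_pp_001 : CertFX 67108864 469762048 536870912 536870912 1046898278 26843546 false true true .up 0 0 1
    ndF1q0 ndF3q1 pcF0 Cut.none Ext.none :=
  certFX0 (fam := false) (s1 := true) (s2 := true) (a := 0) (b := 0) (c := 1) (cn := .up) (n1 := ndF1q0) (n2 := ndF3q1) (pc := pcF0) (cut := Cut.none) (xt := Ext.none) (P1 := 67108864) (W1 := 469762048) (P2 := 536870912) (W2 := 536870912) (P3 := 1046898278) (W3 := 26843546)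
    rfl k0_pp_001

noncomputable def f_pp_011 : ℕ → ℕ → ℕ → ℕ → Bool := onCell 67108864 469762048 536870912 536870912 1046898278 26843546
    (rowFX 0 false true true .pnn 0 1 1 (qsf 67108864 469762048 536870912 536870912 1) ndF1q0 ndF3q1 pcF1 Cut.none Ext.none)

def k0_pp_011 : ∃ t, chk3 f_pp_011 t 1 1 1 = true :=
  ⟨(l 3), by decide +kernel⟩

theorem c_pp_011 : CertFX 67108864 469762048 536870912 536870912 1046898278 26843546 false true true .pnn 0 1 1
    ndF1q0 ndF3q1 pcF1 Cut.none Ext.none :=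
  certFX0 (fam := false) (s1 := true) (s2 := true) (a := 0) (b := 1) (c := 1) (cn := .pnn) (n1 := ndF1q0) (n2 := ndF3q1) (pc := pcF1) (cut := Cut.none) (xt := Ext.none) (P1 := 67108864) (W1 := 469762048) (P2 := 536870912) (W2 := 536870912) (P3 := 1046898278) (W3 := 26843546)
    rfl k0_pp_011

noncomputable def f_pp_012 : ℕ → ℕ → ℕ → ℕ → Bool := onCell 536870912 536870912 1073741824 536870912 1046898278 26843546
    (rowFX 2 false true true .pnp 0 1 2 (qsf 67108864 469762048 1073741824 536870912 1) ndF1q0 ndF3q2 pcF1 Cut.none Ext.none)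

def k0_pp_012 : ∃ t, chk3 f_pp_012 t 2 1 1 = true :=
  ⟨(l 3), by decide +kernel⟩

def k1_pp_012 : ∃ t, chk3 f_pp_012 t 6 1 1 = true :=
  ⟨(l 3), by decide +kernel⟩

def k2_pp_012 : ∃ t, chk3 f_pp_012 t 14 2 1 = true :=
  ⟨(l 3), by decide +kernel⟩

def k3_pp_012 : ∃ t, chk3 f_pp_012 t 30 2 1 = true :=
  ⟨(a (l 3) (b (l 3) (b (a (l 3) (b (l 3) (c (b (l 3) (l 15547336)) (l 884391218791)))) (b (c (a (l 3) (l 15775040)) (l 15615376)) (c (l 16025272) (l 16009136)))))), by decide +kernel⟩

def k4_pp_012 : ∃ t, chk3 f_pp_012 t 62 2 1 = true :=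
  ⟨(b (b (l 3) (a (a (l 3) (b (l 3) (c (c (b (l 3) (l 15813960)) (l 923583600199)) (l 686823430439)))) (b (a (l 3) (c (c (b (l 16304432) (b (l 16151784) (l 16077392))) (b (l 16318792) (l 87139323527))) (b (l 16324240) (l 16128448)))) (c (c (b (b (l 83381316551) (l 15933400)) (l 15797016)) (b (l 83917784951) (l 15802400))) (b (l 15873824) (l 15793496)))))) (b (b (c (b (a (c (l 15701432) (l 15613488)) (c (l 15609752) (l 15612040))) (b (c (a (l 15459496) (l 15455688)) (l 15453056)) (c (a (l 15382656) (l 15399568)) (l 15396032)))) (b (l 132772207031) (b (l 15433240) (l 15374824)))) (c (c (a (l 15506632) (l 15505424)) (l 15501640)) (l 15482464))) (b (c (b (c (a (l 15659344) (l 15633176)) (l 15648976)) (c (l 15770240) (l 15811896))) (b (l 15570016) (l 15799640))) (c (c (l 15923448) (l 15924752)) (l 15915136))))), by decide +kernel⟩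

def k5_pp_012 : ∃ t, chk3 f_pp_012 t 126 2 1 = true :=
  ⟨(b (b (b (l 1) (a (a (l 3) (b (l 1) (c (c (b (l 1059413444583) (l 16466112)) (l 16459160)) (b (l 16503696) (l 16487080))))) (b (l 1) (c (c (b (c (b (l 16558184) (l 16541856)) (l 16537888)) (l 16487968)) (b (l 16536392) (l 16487976))) (c (b (l 16506920) (l 16499736)) (l 16487784)))))) (b (c (c (b (l 16313744) (b (l 16176600) (l 16086040))) (b (l 16193736) (b (l 16180080) (l 16088136)))) (b (c (c (l 16243040) (l 16309984)) (l 16351240)) (c (b (l 16187600) (l 16094256)) (l 16140752)))) (c (c (b (b (l 16014224) (l 15929656)) (l 15791576)) (b (l 15972048) (l 15789064))) (c (b (l 15976352) (l 15790456)) (b (l 15971888) (l 15783248)))))) (b (b (c (b (c (l 15611376) (l 15605944)) (b (l 15464856) (l 15407512))) (b (l 15535624) (b (l 15448416) (l 15389048)))) (c (l 15432352) (l 15500472))) (b (c (b (l 15639880) (l 15646864)) (b (l 15627368) (l 15742496))) (c (l 15853768) (l 15847464))))), by decide +kernel⟩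

def k6_pp_012 : ∃ t, chk3 f_pp_012 t 127 2 1 = true :=
  ⟨(b (b (b (l 1) (b (l 1) (c (c (b (c (l 16502064) (l 235719305127)) (c (b (c (l 16539256) (l 16545264)) (l 16522072)) (l 16526504))) (b (l 16562232) (l 16524912))) (c (a (l 143914315415) (l 16553304)) (a (b (l 16564248) (l 16523352)) (c (l 16553728) (l 182569084839))))))) (b (c (b (b (l 16428616) (l 16339616)) (c (l 16183064) (l 16176072))) (b (c (b (l 16387352) (l 16336360)) (a (l 16361312) (b (l 16421408) (l 16349008)))) (c (l 16172736) (a (l 16160976) (l 16182312))))) (c (b (b (c (l 16039784) (l 16030736)) (l 15942800)) (l 15801280)) (c (b (l 15873968) (l 15786080)) (b (b (a (l 16016520) (l 16003976)) (l 15907232)) (l 15760368)))))) (b (b (c (b (l 15618904) (b (l 15483336) (l 15432640))) (b (c (l 15599512) (l 15591864)) (b (l 15456992) (c (l 15408744) (l 15397968))))) (c (l 15543656) (c (l 15522080) (l 15512736)))) (b (c (l 15650736) (c (l 15695880) (l 15604984))) (c (l 15823664) (l 15806816))))), by decide +kernel⟩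

def k7_pp_012 : ∃ t, chk3 f_pp_012 t 7 3 1 = true :=
  ⟨(a (b (l 3) (l 3)) (a (b (c (a (l 16172848) (b (l 16029128) (l 16034672))) (b (l 154784842199) (l 15961320))) (a (l 16168160) (c (l 16044096) (l 16028016)))) (b (a (c (b (l 15931784) (l 15940072)) (l 15925280)) (c (l 15852888) (b (a (l 15854608) (l 15814192)) (l 15846416)))) (a (c (l 15951752) (l 15940344)) (c (l 15871328) (b (l 15854888) (l 15863168))))))), by decide +kernel⟩

theorem s8_pp_012 : ∃ t, chk3 f_pp_012 t 63 2 1 = true := ex3_a k5_pp_012 k6_pp_012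

theorem s9_pp_012 : ∃ t, chk3 f_pp_012 t 31 2 1 = true := ex3_a k4_pp_012 s8_pp_012

theorem s10_pp_012 : ∃ t, chk3 f_pp_012 t 15 2 1 = true := ex3_a k3_pp_012 s9_pp_012

theorem s11_pp_012 : ∃ t, chk3 f_pp_012 t 7 2 1 = true := ex3_a k2_pp_012 s10_pp_012

theorem s12_pp_012 : ∃ t, chk3 f_pp_012 t 7 1 1 = true := ex3_b s11_pp_012 k7_pp_012

theorem s13_pp_012 : ∃ t, chk3 f_pp_012 t 3 1 1 = true := ex3_a k1_pp_012 s12_pp_012

theorem s14_pp_012 : ∃ t, chk3 f_pp_012 t 1 1 1 = true := ex3_a k0_pp_012 s13_pp_012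

theorem c_pp_012 : CertFX 67108864 469762048 1073741824 536870912 1046898278 26843546 false true true .pnp 0 1 2
    ndF1q0 ndF3q2 pcF1 Cut.none Ext.none :=
  certFX2 (fam := false) (s1 := true) (s2 := true) (a := 0) (b := 1) (c := 2) (cn := .pnp) (n1 := ndF1q0) (n2 := ndF3q2) (pc := pcF1) (cut := Cut.none) (xt := Ext.none) (P1 := 67108864) (W1 := 469762048) (P2 := 1073741824) (W2 := 536870912) (P3 := 1046898278) (W3 := 26843546)
    rfl (fun _ => rfl) s14_pp_012

noncomputable def f_pp_022 : ℕ → ℕ → ℕ → ℕ → Bool := onCell 67108864 469762048 1073741824 536870912 1046898278 26843546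
    (rowFX 1 false true true .pp 0 2 2 (qsf 67108864 469762048 1073741824 536870912 2) ndF1q0 ndF3q2 pcF2 Cut.none Ext.none)

def k0_pp_022 : ∃ t, chk3 f_pp_022 t 8 32 1 = true :=
  ⟨(c (a (c (a (b (l 16456904) (a (b (l 16595728) (l 16622136)) (l 16423360))) (b (l 16342448) (b (c (l 16397576) (l 16392288)) (l 16354160)))) (b (a (c (l 16498264) (b (l 16526920) (l 16486304))) (c (l 16359880) (l 16335576))) (a (c (l 16500112) (l 16465248)) (c (l 16358264) (l 16343448))))) (c (b (a (c (a (l 16233064) (l 16138376)) (l 16138152)) (l 16017056)) (a (b (c (l 16201992) (l 16195376)) (l 16188264)) (b (l 16023640) (l 16013360)))) (b (c (a (l 16176416) (l 16009744)) (a (b (l 16166952) (l 16180376)) (c (l 16005840) (l 16002912)))) (c (a (l 16176072) (l 16000056)) (a (l 16098600) (l 15983888)))))) (c (a (b (c (a (b (l 16484264) (a (l 16587024) (l 16496352))) (b (l 16344672) (c (l 16363688) (l 16358176)))) (a (b (c (l 16461480) (a (l 16524632) (l 16475616))) (c (l 16431408) (l 16529600))) (b (c (l 16340040)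 (l 16339640)) (l 16348896)))) (a (c (a (l 16578000) (l 16487760)) (c (l 16435936) (l 16510128))) (c (b (l 16337064) (l 16342792)) (l 16328808)))) (a (c (b (b (c (l 16164328) (l 16160888)) (c (l 16132344) (l 16105832))) (c (l 16147824) (l 16138696))) (b (b (l 16159120) (l 16158992)) (l 16122496))) (b (c (c (l 15955496) (l 15994832)) (l 15986384)) (l 15954000)))) (a (a (b (b (a (l 16494904) (l 16465144)) (l 16428608)) (l 16433688)) (b (c (l 16332040) (l 16299480)) (l 16203920))) (b (a (b (c (l 16151912) (a (l 16189016) (l 16094520))) (c (l 16141176) (l 16125328))) (c (l 15972888) (l 15959280))) (a (c (l 16104376) (l 16095496)) (l 15920576)))))), by decide +kernel⟩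

def k1_pp_022 : ∃ t, chk3 f_pp_022 t 9 32 1 = true :=
  ⟨(c (a (c (b (a (l 15865544) (b (l 15716400) (l 15725200))) (a (b (l 15871456) (l 15861056)) (b (a (l 15760848) (c (l 15730664) (l 15720736))) (a (l 15760648) (l 15773344))))) (b (c (a (l 15856520) (l 15713320)) (b (l 15768880) (a (l 15850368) (l 15703600)))) (c (a (l 15847432) (a (l 15743640) (l 15628360))) (a (l 15827024) (b (l 15712952) (l 15729416)))))) (b (c (a (a (b (l 15635816) (l 15693104)) (l 15701536)) (l 15771320)) (c (a (a (l 15659040) (l 15689320)) (l 15754824)) (a (l 15670120) (l 15750032)))) (c (c (b (l 15844272) (l 15909744)) (b (l 15837264) (l 15896560))) (c (b (l 15779432) (l 15877592)) (l 15834592))))) (a (b (c (b (l 15762000) (l 15759256)) (b (l 15699072) (a (l 15801328) (l 15652192)))) (a (c (l 15798384) (l 15763296)) (c (a (l 15692968) (l 15683448)) (a (l 15656752) (l 15647336))))) (b (b (a (a (c (l 15604200) (l 15581016)) (l 15616784)) (l 15665920)) (c (l 15725312) (l 15692696))) (c (l 15805584) (l 15771904))))),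 by decide +kernel⟩

def k2_pp_022 : ∃ t, chk3 f_pp_022 t 4 33 1 = true :=
  ⟨(a (c (b (a (a (c (a (l 16611560) (l 16521656)) (l 16430064)) (c (c (l 16381008) (l 16344688)) (l 16190504))) (c (a (l 16008568) (l 15980840)) (c (l 15893176) (l 15914072)))) (a (a (c (a (l 16565312) (l 16489064)) (l 16413760)) (c (l 16323480) (l 16281000))) (c (a (l 16101312) (l 15927448)) (a (l 16058000) (l 15881928))))) (a (c (a (c (b (l 16484752) (a (l 16520760) (l 16400992))) (b (c (l 16405520) (l 16484544)) (l 16358736))) (c (b (l 16305464) (l 16126856)) (l 16203424))) (a (b (l 16481128) (l 16420792)) (b (l 16279384) (l 16240856)))) (c (a (c (c (l 16017400) (l 16051392)) (l 16042792)) (l 15873624)) (a (l 16033008) (l 15853128))))) (c (a (c (a (b (c (l 15847016) (l 15828776)) (a (l 15832160) (l 15837864))) (b (b (l 15805360) (l 15851704)) (l 15923080))) (a (b (c (l 15809344) (l 15784032)) (a (l 15785208) (l 15790984))) (c (b (l 15801888) (l 15889792)) (l 15825168)))) (c (b (c (l 15988200) (l 15951880)) (l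 15945256)) (c (b (l 15951752) (l 16039048)) (l 15976272)))) (c (a (a (b (l 15751976) (l 15761272)) (l 15735904)) (l 15952272)) (a (a (b (l 15726816) (l 15745408)) (l 15777648)) (l 15933648))))), by decide +kernel⟩

def k3_pp_022 : ∃ t, chk3 f_pp_022 t 4 17 1 = true :=
  ⟨(b (a (c (a (c (a (a (l 16428328) (l 16399504)) (l 16228464)) (a (b (c (l 16457792) (l 16379032)) (l 16272472)) (c (l 16199400) (l 16081912)))) (c (a (l 16008512) (b (a (l 15905120) (l 15854808)) (a (l 15878856) (l 15899928)))) (a (c (l 15956744) (b (l 15987696) (l 15938272))) (b (c (l 15850368) (a (l 15851536) (l 15800840))) (c (a (l 15848720) (l 15870088)) (l 15857136)))))) (a (c (a (b (l 16371016) (l 16332816)) (l 16138984)) (a (l 16262136) (l 16171976))) (a (b (l 15969664) (l 15925456)) (b (l 15811736) (l 15842120))))) (c (c (a (a (l 15941808) (l 16052728)) (c (l 16134000) (l 16115800))) (a (c (b (l 15922088) (l 15992208)) (b (a (l 15844944) (l 15961472)) (l 16003984))) (c (b (l 16121048) (l 16200816)) (l 16150592))))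 (a (l 15688408) (l 16096944)))) (a (c (c (a (a (b (l 16258136) (l 16137800)) (b (l 16135032) (c (l 16084576) (l 16076192)))) (a (b (a (l 15970616) (c (l 15919032) (l 15900912))) (c (a (l 15974616) (l 15984624)) (l 15974328))) (b (l 15963640) (l 16036424)))) (a (a (l 16154504) (c (l 16095648) (l 16027800))) (a (b (a (l 15947944) (l 15804216)) (c (l 15968024) (l 15966528))) (c (l 15996576) (l 15994664))))) (a (c (c (a (l 16215984) (b (l 16111744) (l 16066376))) (l 16014624)) (a (l 16314288) (l 16077928))) (a (b (a (l 15934064) (l 15872040)) (l 15868584)) (l 15980784)))) (c (c (a (c (b (l 16131088) (l 16190160)) (b (l 16072080) (l 16202808))) (b (c (a (l 16271888) (l 16320064)) (a (l 16259376) (a (l 16306928) (l 16315768)))) (c (a (l 16257736) (b (l 16342648) (l 16342680))) (a (l 16339608) (l 16333576))))) (a (c (l 15968424) (l 16151368)) (a (l 16293056) (l 16265976)))) (a (l 15995720) (a (l 16243768) (b (l 16293008) (l 16324032))))))), by decide +kernel⟩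

def k4_pp_022 : ∃ t, chk3 f_pp_022 t 5 8 1 = true :=
  ⟨(b (a (c (b (b (c (a (c (l 15898232) (l 15890224)) (a (c (l 16014784) (l 16005352)) (c (a (l 16043544) (l 16039432)) (l 16033256)))) (a (l 15881400) (a (l 15999592) (l 16025368)))) (c (a (c (b (l 16007752) (l 16067784)) (b (l 15997248) (l 16051592))) (c (a (b (l 16108872) (l 16146016)) (b (l 16078080) (l 16084224))) (a (l 16112704) (l 16072368)))) (a (l 16005608) (a (l 16094320) (l 16053792))))) (a (c (b (c (l 16074120) (b (l 16099632) (l 16142104))) (a (l 16177168) (c (l 16219328) (l 16201360)))) (a (l 16100000) (l 16082640))) (c (c (b (a (l 16159880) (l 16076880)) (l 16102144)) (a (l 16136456) (l 16051352))) (a (l 16110216) (l 16024640))))) (c (b (a (b (l 15863712) (l 15972504)) (b (a (l 15983936) (l 16010240)) (l 16016544))) (a (a (l 16068600) (l 16115528)) (l 16035664))) (a (b (b (l 15796864) (l 15942376)) (l 15987952)) (b (a (b (l 15961360) (l 16035592)) (c (l 15973352) (l 15920248))) (l 16019064))))) (c (b (c (c (a (b (l 16050328)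 (l 16076288)) (l 16083496)) (l 16067888)) (l 16053960)) (c (l 16052728) (l 16020304))) (b (c (l 16032000) (l 15967768)) (l 15983848)))) (a (c (c (b (a (a (b (l 16222592) (c (l 16280656) (l 16263432))) (c (l 16208136) (l 16190072))) (a (l 16095800) (l 16002352))) (a (c (b (l 16216096) (c (l 16185032) (l 16178736))) (l 16189560)) (l 15878992))) (b (a (a (b (l 16209664) (l 16247096)) (l 16170656)) (l 16018072)) (a (l 16181152) (l 15967360)))) (b (a (a (l 16184808) (l 16152832)) (l 15996824)) (a (l 16171136) (l 15952048)))) (c (b (c (l 15984248) (l 15955576)) (c (l 15906032) (l 15889000))) (b (l 15933456) (l 15871808))))), by decide +kernel⟩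

def k5_pp_022 : ∃ t, chk3 f_pp_022 t 3 8 1 = true :=
  ⟨(b (a (c (b (a (b (l 16097200) (l 16095944)) (l 16129000)) (a (l 16049616) (l 16063016))) (b (c (b (l 16099640) (l 16076096)) (a (l 16048872) (l 16086664))) (a (l 16002224) (l 16020048)))) (c (b (c (l 16185824) (l 16173496)) (l 16082856)) (b (c (l 16157952) (l 16142200)) (l 16046432)))) (c (a (b (l 15898888) (c (l 15862368) (l 15846168))) (b (l 15949920) (l 15609544))) (a (b (l 15927632) (l 15828144)) (b (l 15920104) (l 15771208))))), by decide +kernel⟩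

def k6_pp_022 : ∃ t, chk3 f_pp_022 t 8 9 1 = true :=
  ⟨(b (c (a (c (b (a (b (l 16231528) (l 16126392)) (b (l 15927848) (l 16063144))) (a (b (a (l 16120440) (l 16088104)) (l 16134336)) (l 16145456))) (b (a (c (l 16103928) (a (l 16233008) (l 16104264))) (c (b (l 16047424) (l 16055752)) (b (l 15938504) (l 16054928)))) (a (a (b (l 16025672) (l 16112624)) (b (l 16035400) (l 16134600))) (c (l 16137528) (l 16142192))))) (c (b (a (l 16076120) (l 16134968)) (c (l 16204080) (a (l 16182024) (l 16256792)))) (c (b (a (l 16068320) (l 16156592)) (a (l 16184072) (l 16260768))) (b (a (l 16070000) (l 16151048)) (l 16216768))))) (a (b (a (c (c (b (l 16225440) (l 16014832)) (l 16178488)) (l 16152856)) (b (a (l 16048520) (l 15998384)) (l 16042944))) (a (b (a (c (c (l 16112048) (l 16104840)) (l 16099600)) (l 16069408)) (l 16118744)) (l 16128904))) (b (c (l 16103552) (l 16096096)) (c (l 16212624) (l 16207096))))) (c (a (c (b (a (b (l 16189048) (l 16225144)) (b (l 16224240) (l 16251640))) (c (l 16276096) (a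 (l 16258880) (l 16283496)))) (c (b (b (a (l 16182592) (l 16220080)) (l 16176704)) (a (l 16260224) (l 16291816))) (b (b (a (l 16186456) (l 16221392)) (l 16182880)) (a (l 16264768) (l 16282992))))) (c (b (b (c (l 16184184) (a (l 16254056) (l 16325016))) (a (c (l 16287608) (l 16284512)) (c (l 16309984) (l 16317136)))) (a (c (b (l 16301816) (l 16179080)) (b (l 16305896) (l 16218648))) (c (b (l 16215408) (l 16232720)) (b (l 16303424) (l 16227896))))) (b (c (a (c (l 16190024) (l 16269024)) (l 16323368)) (l 16188376)) (a (l 16292768) (l 16256944))))) (a (b (c (l 16217536) (l 16212552)) (l 16205816)) (b (b (l 16281144) (a (l 16276456) (l 16325856))) (a (l 16245536) (l 16250904)))))), by decide +kernel⟩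

def k7_pp_022 : ∃ t, chk3 f_pp_022 t 9 9 1 = true :=
  ⟨(a (b (c (c (b (c (a (l 16254192) (l 16316536)) (a (l 16250544) (l 16278048))) (b (a (l 16193672) (c (l 16326256) (l 16370952))) (a (c (l 16352768) (l 16358472)) (c (l 16341272) (l 16338248))))) (b (c (a (l 16252232) (l 16336256)) (l 16290520)) (a (l 16333400) (l 16343992)))) (b (c (l 16287000) (l 16282312)) (a (l 16306920) (l 16254976)))) (c (c (b (b (c (a (b (l 16361592) (l 16308304)) (l 16282880)) (a (a (l 16368328) (l 16348304)) (l 16276672))) (c (l 16106896) (l 16246600))) (c (a (l 16156152) (l 16071440)) (l 16117552))) (b (b (l 16266424) (l 16243232)) (l 16112920))) (b (b (l 16239896) (l 16236488)) (l 16103656)))) (b (c (c (b (a (c (b (l 16355720) (l 16318536)) (b (l 16378352) (l 16358040))) (c (l 16282456) (l 16277008))) (c (a (l 16216296) (l 16158432)) (l 16212392))) (b (a (l 16315152) (l 16273336)) (l 16208248))) (b (a (b (l 16368488) (l 16350184)) (l 16265992)) (l 16199968))) (b (c (c (l 16034744) (l 16069392)) (l 16058448))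 (c (l 15797968) (l 15883808))))), by decide +kernel⟩

def k8_pp_022 : ∃ t, chk3 f_pp_022 t 5 9 1 = true :=
  ⟨(b (a (b (c (c (a (c (l 16108392) (l 16102040)) (l 15890704)) (l 15859952)) (a (l 16084584) (l 15862344))) (c (a (l 15954184) (l 15759008)) (l 15632928))) (c (b (l 15792832) (l 15654840)) (l 15697008))) (a (c (b (a (l 15710320) (l 15618904)) (a (l 15666968) (l 15450672))) (b (a (l 15813800) (l 15589312)) (l 15526304))) (c (b (l 15502712) (l 15325408)) (l 15378192)))), by decide +kernel⟩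

def k9_pp_022 : ∃ t, chk3 f_pp_022 t 3 9 1 = true :=
  ⟨(a (b (c (b (l 15716872) (l 15550072)) (b (l 15689328) (l 15518192))) (c (b (a (l 15413568) (l 15325232)) (a (l 15220712) (l 15116600))) (b (l 15332208) (l 15126136)))) (a (b (b (l 15627912) (l 15429864)) (a (b (l 15239512) (l 15010472)) (l 2))) (l 2))), by decide +kernel⟩

def k10_pp_022 : ∃ t, chk3 f_pp_022 t 2 10 2 = true :=
  ⟨(a (b (a (a (a (b (c (c (l 16300976) (l 16254872)) (c (l 16223032) (l 16297984))) (c (b (c (l 16362856) (b (l 16348160) (l 16393496))) (b (c (a (l 16441008) (l 16420288)) (b (l 16424048) (l 16435536))) (c (l 16389040) (l 16381104)))) (b (l 16365624) (l 16362864)))) (b (c (c (b (l 16307008) (l 16183768)) (b (l 16311648) (l 16172120))) (l 16270984)) (c (b (c (a (l 16306984) (l 16261208)) (l 16298392)) (c (b (l 16277704) (l 16375960)) (l 16344576))) (b (l 16291368) (l 16343240))))) (b (c (c (a (b (l 16148264) (l 16179464)) (l 16066376)) (a (b (l 16215800) (l 16173792)) (l 16097960))) (l 15939520)) (a (c (c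 (b (l 16156912) (b (l 16160712) (l 16237240))) (l 16050912)) (b (l 16145072) (l 16202992))) (b (l 16033456) (l 16098992))))) (b (a (c (l 15945336) (l 15936880)) (l 15622048)) (b (a (l 15885336) (l 15681192)) (a (l 15962304) (l 15773600))))) (a (a (c (b (a (b (c (l 16251008) (l 16286144)) (l 16046152)) (c (l 16342928) (l 16387744))) (a (c (l 16006968) (l 16004008)) (l 16165984))) (b (l 16116608) (l 16034832))) (b (c (l 16320160) (l 16338992)) (l 16178496))) (b (a (l 16121976) (l 15988576)) (a (l 16434392) (l 16277400))))) (b (b (a (a (l 15492080) (l 15276704)) (l 15142312)) (a (b (a (l 15457736) (l 15253432)) (l 15218376)) (b (l 15127672) (l 15269936)))) (a (b (l 15559768) (l 15899144)) (b (l 15526344) (l 15871872))))), by decide +kernel⟩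

def k11_pp_022 : ∃ t, chk3 f_pp_022 t 2 11 2 = true :=
  ⟨(b (a (a (a (b (a (l 15777592) (l 15941832)) (l 15468920)) (b (l 16069304) (l 15941248))) (a (l 16005664) (l 16179256))) (a (b (l 16240112) (l 16456528)) (b (l 16220320) (l 16575064)))) (c (a (a (a (l 15331360) (l 15825720)) (l 16027912)) (a (b (l 16474336) (l 16599664)) (l 16776680))) (a (a (a (l 15497792) (l 15813272)) (l 16124344)) (a (l 16429824) (l 16776680))))), by decide +kernel⟩

def k12_pp_022 : ∃ t, chk3 f_pp_022 t 2 5 3 = true :=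
  ⟨(b (a (b (a (b (a (a (l 16294432) (c (l 16288960) (l 16285960))) (a (l 16117616) (l 16084200))) (a (b (a (l 16363464) (l 16266352)) (a (l 16257504) (l 16340552))) (b (l 16078152) (l 16099624)))) (b (a (l 15924192) (l 15703304)) (b (l 15634408) (l 15679520)))) (a (a (b (a (l 16118880) (l 16385144)) (l 15962352)) (b (l 16293832) (l 16342160))) (b (a (l 16153656) (l 15972248)) (l 16265392)))) (b (b (a (l 15347312) (l 15099848)) (a (b (l 15317944) (l 15437408)) (l 15030688))) (a (b (l 15680112) (l 16006872)) (l 15670176)))) (a (b (a (a (b (l 15835272) (l 15605280)) (l 15778968)) (a (l 16120360) (l 16341552))) (a (a (l 15473032) (l 15794624)) (l 16048800))) (b (a (b (l 16335344) (l 16581832)) (b (l 16205824) (l 16569768))) (a (a (l 16474048) (l 16710168)) (l 16776664))))), by decide +kernel⟩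

def k13_pp_022 : ∃ t, chk3 f_pp_022 t 3 5 1 = true :=
  ⟨(a (b (b (b (c (a (l 15021904) (l 14898560)) (a (l 14976312) (l 14849888))) (a (c (b (l 15015600) (l 15179744)) (l 15052632)) (a (b (l 14909744) (l 15094208)) (l 2)))) (b (c (a (l 15450392) (l 15427024)) (a (l 15415872) (l 15391384))) (a (c (l 15830600) (l 15805816)) (l 2)))) (b (b (a (a (l 16138472) (l 16200904)) (l 2)) (l 16572744)) (l 16776680))) (l 2)), by decide +kernel⟩

def k14_pp_022 : ∃ t, chk3 f_pp_022 t 1 3 1 = true :=
  ⟨(a (a (a (b (c (b (a (b (l 15508624) (l 15508624)) (l 15819184)) (b (a (l 15508624) (l 15819184)) (l 15659648))) (b (a (l 15472672) (l 15794272)) (b (l 15534928) (l 15618816)))) (a (l 15494192) (l 15764912))) (b (b (c (b (l 16128256) (l 16128256)) (l 16111400)) (l 16119824)) (l 16119824))) (b (a (b (b (a (l 16477800) (l 16710808)) (l 16596184)) (l 16596184)) (l 16777216)) (l 2))) (l 2)), by decide +kernel⟩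

theorem s15_pp_022 : ∃ t, chk3 f_pp_022 t 2 5 2 = true := ex3_b k10_pp_022 k11_pp_022

theorem s16_pp_022 : ∃ t, chk3 f_pp_022 t 2 5 1 = true := ex3_c s15_pp_022 k12_pp_022

theorem s17_pp_022 : ∃ t, chk3 f_pp_022 t 1 5 1 = true := ex3_a s16_pp_022 k13_pp_022

theorem s18_pp_022 : ∃ t, chk3 f_pp_022 t 4 9 1 = true := ex3_a k6_pp_022 k7_pp_022

theorem s19_pp_022 : ∃ t, chk3 f_pp_022 t 2 9 1 = true := ex3_a s18_pp_022 k8_pp_022

theorem s20_pp_022 : ∃ t, chk3 f_pp_022 t 1 9 1 = true := ex3_a s19_pp_022 k9_pp_022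

theorem s21_pp_022 : ∃ t, chk3 f_pp_022 t 4 32 1 = true := ex3_a k0_pp_022 k1_pp_022

theorem s22_pp_022 : ∃ t, chk3 f_pp_022 t 4 16 1 = true := ex3_b s21_pp_022 k2_pp_022

theorem s23_pp_022 : ∃ t, chk3 f_pp_022 t 4 8 1 = true := ex3_b s22_pp_022 k3_pp_022

theorem s24_pp_022 : ∃ t, chk3 f_pp_022 t 2 8 1 = true := ex3_a s23_pp_022 k4_pp_022

theorem s25_pp_022 : ∃ t, chk3 f_pp_022 t 1 8 1 = true := ex3_a s24_pp_022 k5_pp_022

theorem s26_pp_022 : ∃ t, chk3 f_pp_022 t 1 4 1 = true := ex3_b s25_pp_022 s20_pp_022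

theorem s27_pp_022 : ∃ t, chk3 f_pp_022 t 1 2 1 = true := ex3_b s26_pp_022 s17_pp_022

theorem s28_pp_022 : ∃ t, chk3 f_pp_022 t 1 1 1 = true := ex3_b s27_pp_022 k14_pp_022

theorem c_pp_022 : CertFX 67108864 469762048 1073741824 536870912 1046898278 26843546 false true true .pp 0 2 2
    ndF1q0 ndF3q2 pcF2 Cut.none Ext.none :=
  certFX1 (fam := false) (s1 := true) (s2 := true) (a := 0) (b := 2) (c := 2) (cn := .pp) (n1 := ndF1q0) (n2 := ndF3q2) (pc := pcF2) (cut := Cut.none) (xt := Ext.none) (P1 := 67108864) (W1 := 469762048) (P2 := 1073741824) (W2 := 536870912) (P3 := 1046898278) (W3 := 26843546)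
    rfl (fun _ => rfl) s28_pp_022

noncomputable def f_pp_023 : ℕ → ℕ → ℕ → ℕ → Bool := onCell 67108864 469762048 1073741824 536870912 1046898278 26843546
    (rowFX 1 false true true .up 0 2 3 (qsf 67108864 469762048 1610612736 536870912 2) ndF1q0 ndF3q3 pcF2 Cut.none Ext.none)

def k0_pp_023 : ∃ t, chk3 f_pp_023 t 1 1 1 = true :=
  ⟨(b (b (a (l 1) (a (b (l 1) (b (l 1) (c (b (l 192766891687) (l 193303361223)) (l 251822410727)))) (b (b (c (b (l 83246845031) (l 16082856)) (b (c (l 16157952) (l 15953456)) (l 16046432))) (c (b (l 15949920) (l 71971795463)) (l 182030432887))) (b (c (b (l 15617224) (a (l 15447144) (l 15376904))) (b (l 15586976) (l 15373400))) (b (c (a (l 15237592) (l 15179000)) (l 111162113383)) (c (a (l 15024144) (l 15006112)) (l 14896472))))))) (b (a (l 1) (a (a (b (l 1) (c (b (l 15450392) (l 15830600)) (l 193304264263))) (c (b (b (l 14898560) (b (l 14913696) (l 15114568))) (b (l 15427024) (l 15826960))) (b (b (l 14849888) (l 144447714967)) (l 15372152)))) (b (b (a (c (l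 14849384) (l 14798520)) (l 14824128)) (l 14990928)) (l 15628488)))) (a (a (l 1) (a (l 1) (b (b (l 1) (l 1233225440119)) (c (l 467648243543) (l 16776664))))) (b (a (b (a (a (l 16138472) (l 16200904)) (l 16205448)) (l 16572744)) (l 16399152)) (l 16776688))))) (a (a (a (b (l 1) (c (l 127806093031) (l 15409104))) (b (b (l 1) (l 16119824)) (l 16119824))) (b (a (b (b (a (l 1) (l 16710808)) (l 16596184)) (l 16596184)) (l 16777216)) (a (l 16596184) (l 16777216)))) (a (b (l 16777216) (l 16777184)) (b (l 16777176) (b (l 16746528) (a (l 16746656) (l 16731832))))))), by decide +kernel⟩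

theorem c_pp_023 : CertFX 67108864 469762048 1610612736 536870912 1046898278 26843546 false true true .up 0 2 3
    ndF1q0 ndF3q3 pcF2 Cut.none Ext.none :=
  certFX1 (fam := false) (s1 := true) (s2 := true) (a := 0) (b := 2) (c := 3) (cn := .up) (n1 := ndF1q0) (n2 := ndF3q3) (pc := pcF2) (cut := Cut.none) (xt := Ext.none) (P1 := 67108864) (W1 := 469762048) (P2 := 1610612736) (W2 := 536870912) (P3 := 1046898278) (W3 := 26843546)
    rfl (fun _ => rfl) k0_pp_023

noncomputable def f_pp_033 : ℕ → ℕ → ℕ → ℕ → Bool := onCell 67108864 469762048 1610612736 536870912 1046898278 26843546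
    (rowFX 1 false true true .pnn 0 3 3 (qsf 67108864 469762048 1610612736 536870912 3) ndF1q0 ndF3q3 pcF3 Cut.none Ext.none)

def k0_pp_033 : ∃ t, chk3 f_pp_033 t 1 1 1 = true :=
  ⟨(b (a (b (a (a (c (a (l 15508624) (l 15819184)) (a (l 15472672) (l 15794272))) (b (l 16119824) (l 16119824))) (b (a (l 16596184) (l 16777192)) (a (l 16575168) (l 16774280)))) (a (a (b (c (l 15491872) (b (l 15618816) (l 15618816))) (c (b (l 15659624) (l 15659600)) (b (l 15618792) (l 15618768)))) (b (b (l 16119808) (l 16119776)) (b (l 16119784) (c (l 16115840) (l 16096616))))) (b (a (b (l 16596136) (l 16588624)) (b (l 16755616) (l 16740528))) (a (b (c (l 16577848) (l 16567576)) (l 4)) (b (c (l 16731280) (l 16727408)) (l 4)))))) (b (a (b (a (l 16777184) (l 16744168)) (b (l 16733248) (l 16851880))) (b (a (l 16728512) (l 16756696)) (b (l 16754360) (l 16767488)))) (a (a (b (b (l 16731096) (b (l 16718040) (l 4))) (l 4)) (b (b (l 16762488) (l 4)) (l 2))) (l 2)))) (a (b (a (b (a (b (c (l 15575728) (l 15471984)) (l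 4)) (l 4)) (l 4)) (b (l 4) (b (l 4) (l 2)))) (a (b (l 4) (a (l 4) (l 2))) (l 2))) (l 2))), by decide +kernel⟩

theorem c_pp_033 : CertFX 67108864 469762048 1610612736 536870912 1046898278 26843546 false true true .pnn 0 3 3
    ndF1q0 ndF3q3 pcF3 Cut.none Ext.none :=
  certFX1 (fam := false) (s1 := true) (s2 := true) (a := 0) (b := 3) (c := 3) (cn := .pnn) (n1 := ndF1q0) (n2 := ndF3q3) (pc := pcF3) (cut := Cut.none) (xt := Ext.none) (P1 := 67108864) (W1 := 469762048) (P2 := 1610612736) (W2 := 536870912) (P3 := 1046898278) (W3 := 26843546)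
    rfl (fun _ => rfl) k0_pp_033

noncomputable def f_pp_101 : ℕ → ℕ → ℕ → ℕ → Bool := onCell 536870912 536870912 536870912 536870912 1046898278 26843546
    (rowFX 0 false true true .npn 1 0 1 (qsf 536870912 536870912 536870912 536870912 0) ndF1q1 ndF3q1 pcF0 Cut.none Ext.none)

def k0_pp_101 : ∃ t, chk3 f_pp_101 t 1 1 1 = true :=
  ⟨(l 3), by decide +kernel⟩

theorem c_pp_101 : CertFX 536870912 536870912 536870912 536870912 1046898278 26843546 false true true .npn 1 0 1
    ndF1q1 ndF3q1 pcF0 Cut.none Ext.none :=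
  certFX0 (fam := false) (s1 := true) (s2 := true) (a := 1) (b := 0) (c := 1) (cn := .npn) (n1 := ndF1q1) (n2 := ndF3q1) (pc := pcF0) (cut := Cut.none) (xt := Ext.none) (P1 := 536870912) (W1 := 536870912) (P2 := 536870912) (W2 := 536870912) (P3 := 1046898278) (W3 := 26843546)
    rfl k0_pp_101

noncomputable def f_pp_102 : ℕ → ℕ → ℕ → ℕ → Bool := onCell 536870912 536870912 0 536870912 1046898278 26843546
    (rowFX 1 false true true .npp 1 0 2 (qsf 536870912 536870912 1073741824 536870912 0) ndF1q1 ndF3q2 pcF0 Cut.none Ext.none)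

def k0_pp_102 : ∃ t, chk3 f_pp_102 t 1 1 1 = true :=
  ⟨(l 3), by decide +kernel⟩

theorem c_pp_102 : CertFX 536870912 536870912 1073741824 536870912 1046898278 26843546 false true true .npp 1 0 2
    ndF1q1 ndF3q2 pcF0 Cut.none Ext.none :=
  certFX1 (fam := false) (s1 := true) (s2 := true) (a := 1) (b := 0) (c := 2) (cn := .npp) (n1 := ndF1q1) (n2 := ndF3q2) (pc := pcF0) (cut := Cut.none) (xt := Ext.none) (P1 := 536870912) (W1 := 536870912) (P2 := 1073741824) (W2 := 536870912) (P3 := 1046898278) (W3 := 26843546)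
    rfl (fun _ => rfl) k0_pp_102

noncomputable def f_pp_112 : ℕ → ℕ → ℕ → ℕ → Bool := onCell 536870912 536870912 1073741824 536870912 1046898278 26843546
    (rowFX 2 false true true .dn 1 1 2 (qsf 536870912 536870912 1073741824 536870912 1) ndF1q1 ndF3q2 pcF1 Cut.none Ext.none)

def k0_pp_112 : ∃ t, chk3 f_pp_112 t 1 1 1 = true :=
  ⟨(a (l 3) (a (l 3) (b (l 1) (b (a (l 3) (l 1)) (a (l 3) (a (a (l 16168160) (l 190084103703)) (a (l 199747406519) (c (l 15871328) (l 190620524583))))))))), by decide +kernel⟩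

theorem c_pp_112 : CertFX 536870912 536870912 1073741824 536870912 1046898278 26843546 false true true .dn 1 1 2
    ndF1q1 ndF3q2 pcF1 Cut.none Ext.none :=
  certFX2 (fam := false) (s1 := true) (s2 := true) (a := 1) (b := 1) (c := 2) (cn := .dn) (n1 := ndF1q1) (n2 := ndF3q2) (pc := pcF1) (cut := Cut.none) (xt := Ext.none) (P1 := 536870912) (W1 := 536870912) (P2 := 1073741824) (W2 := 536870912) (P3 := 1046898278) (W3 := 26843546)
    rfl (fun _ => rfl) k0_pp_112

noncomputable def f_pp_113 : ℕ → ℕ → ℕ → ℕ → Bool := onCell 536870912 536870912 536870912 536870912 1046898278 26843546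
    (rowFX 1 false true true .nn 1 1 3 (qsf 536870912 536870912 1610612736 536870912 1) ndF1q1 ndF3q3 pcF1 Cut.none Ext.none)

def k0_pp_113 : ∃ t, chk3 f_pp_113 t 1 1 1 = true :=
  ⟨(b (l 3) (b (a (l 3) (l 3)) (a (b (b (l 3) (a (l 1806737273783) (l 16360856))) (c (b (a (l 45128951847) (l 16010112)) (a (b (l 15964672) (l 15888576)) (b (l 15980016) (l 15906840)))) (b (a (l 203505905975) (l 16107568)) (a (b (l 15952536) (l 15874840)) (b (l 15967016) (l 15891720)))))) (b (b (l 3) (a (a (l 16365512) (b (l 3) (l 16324368))) (a (l 15948944) (a (l 15873680) (b (l 3) (l 15666344)))))) (a (b (b (a (l 16186680) (l 16205688)) (a (l 16070600) (l 16092384))) (b (a (l 15987848) (c (l 16018008) (l 16007480))) (c (l 15939720) (a (l 15909312) (l 15936136))))) (b (a (b (l 15973656) (l 15870272)) (b (a (l 15747784) (l 15618832)) (a (l 15679224) (l 15622296)))) (a (b (a (l 15870944) (l 15735136)) (c (l 15790152) (a (l 15780088) (l 15633848)))) (b (c (a (l 15767040) (l 15981528)) (l 15480536)) (c (a (l 15789720)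 (l 16445536)) (a (l 15518544) (l 15580832))))))))))), by decide +kernel⟩

theorem c_pp_113 : CertFX 536870912 536870912 1610612736 536870912 1046898278 26843546 false true true .nn 1 1 3
    ndF1q1 ndF3q3 pcF1 Cut.none Ext.none :=
  certFX1 (fam := false) (s1 := true) (s2 := true) (a := 1) (b := 1) (c := 3) (cn := .nn) (n1 := ndF1q1) (n2 := ndF3q3) (pc := pcF1) (cut := Cut.none) (xt := Ext.none) (P1 := 536870912) (W1 := 536870912) (P2 := 1610612736) (W2 := 536870912) (P3 := 1046898278) (W3 := 26843546)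
    rfl (fun _ => rfl) k0_pp_113

noncomputable def f_pp_123 : ℕ → ℕ → ℕ → ℕ → Bool := onCell 1073741824 536870912 1610612736 536870912 1046898278 26843546
    (rowFX 2 false true true .npn 1 2 3 (qsf 536870912 536870912 1610612736 536870912 2) ndF1q1 ndF3q3 pcF2 Cut.none Ext.none)

def k0_pp_123 : ∃ t, chk3 f_pp_123 t 1 1 1 = true :=
  ⟨(a (a (b (a (a (b (c (a (a (l 16270440) (l 16214520)) (l 16104768)) (a (b (l 16156920) (l 16197936)) (l 16075568))) (a (c (b (l 16299144) (l 16170904)) (b (l 16281856) (a (l 16370496) (l 16278728)))) (c (b (l 16127960) (l 16114264)) (b (l 16106488) (l 16117504))))) (b (c (a (l 15920704) (b (l 15783008) (l 15750384))) (b (l 15838400) (l 15820296))) (c (a (b (l 15930304) (l 15901368)) (b (c (l 15733888) (l 15720032)) (l 15718696))) (a (l 15903344) (l 15490768))))) (a (b (c (b (l 15510248) (a (l 15548264) (l 15354304))) (b (l 15477304) (l 15419744))) (b (a (c (l 15533208) (l 15500360)) (l 15330320)) (l 15428080))) (b (b (l 1) (a (a (l 91298050471) (l 15109544))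 (l 14975832))) (l 15080800)))) (a (b (a (b (a (c (a (l 16411992) (l 16296832)) (a (l 16402824) (l 16284456))) (l 16116424)) (l 16222072)) (l 15734168)) (b (a (b (l 16152616) (l 16098264)) (b (l 15789008) (l 15802952))) (a (b (l 16291672) (l 16395656)) (b (l 15854472) (l 15950536))))) (b (a (l 15442864) (l 15116064)) (b (a (l 15479600) (l 15167648)) (b (l 15313072) (a (l 15702160) (l 15244744))))))) (b (a (a (b (b (l 1) (l 14822224)) (a (l 14849944) (l 15019440))) (b (l 1) (l 15643352))) (b (l 1) (a (l 16402168) (l 16776696)))) (a (b (a (a (l 14895120) (l 15063600)) (l 15674616)) (a (a (b (l 14957000) (l 14972064)) (b (l 15125376) (l 15137600))) (b (l 15725280) (l 15723960)))) (b (a (l 16413808) (l 16776752)) (a (b (l 16446488) (l 16403680)) (l 16732104)))))) (b (a (b (l 1) (l 16777216)) (l 1)) (a (b (l 16777168) (a (l 16732512) (l 16732336))) (b (l 16777168) (a (l 16732512) (l 16732512)))))), by decide +kernel⟩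

theorem c_pp_123 : CertFX 536870912 536870912 1610612736 536870912 1046898278 26843546 false true true .npn 1 2 3
    ndF1q1 ndF3q3 pcF2 Cut.none Ext.none :=
  certFX2 (fam := false) (s1 := true) (s2 := true) (a := 1) (b := 2) (c := 3) (cn := .npn) (n1 := ndF1q1) (n2 := ndF3q3) (pc := pcF2) (cut := Cut.none) (xt := Ext.none) (P1 := 536870912) (W1 := 536870912) (P2 := 1610612736) (W2 := 536870912) (P3 := 1046898278) (W3 := 26843546)
    rfl (fun _ => rfl) k0_pp_123

noncomputable def f_pp_133 : ℕ → ℕ → ℕ → ℕ → Bool := onCell 1610612736 536870912 1610612736 536870912 1046898278 26843546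
    (rowFX 2 false true true .dn 1 3 3 (qsf 536870912 536870912 1610612736 536870912 3) ndF1q1 ndF3q3 pcF3 Cut.none Ext.none)

def k0_pp_133 : ∃ t, chk3 f_pp_133 t 1 1 1 = true :=
  ⟨(a (b (l 1) (a (b (l 1) (a (l 16726552) (l 1))) (l 1))) (l 1)), by decide +kernel⟩

theorem c_pp_133 : CertFX 536870912 536870912 1610612736 536870912 1046898278 26843546 false true true .dn 1 3 3
    ndF1q1 ndF3q3 pcF3 Cut.none Ext.none :=
  certFX2 (fam := false) (s1 := true) (s2 := true) (a := 1) (b := 3) (c := 3) (cn := .dn) (n1 := ndF1q1) (n2 := ndF3q3) (pc := pcF3) (cut := Cut.none) (xt := Ext.none) (P1 := 536870912) (W1 := 536870912) (P2 := 1610612736) (W2 := 536870912) (P3 := 1046898278) (W3 := 26843546)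
    rfl (fun _ => rfl) k0_pp_133

noncomputable def f_pp_202_a : ℕ → ℕ → ℕ → ℕ → Bool := onCell 0 420477299 1073741824 536870912 1046898278 26843546
    (rowFX 0 false true true .pp 2 0 2 (qsf 0 420477299 1073741824 536870912 0) ndF1q2a ndF3q2 pcF0 Cut.none Ext.none)

def k0_pp_202_a : ∃ t, chk3 f_pp_202_a t 1 1 1 = true :=
  ⟨(l 3), by decide +kernel⟩

theorem c_pp_202_a : CertFX 0 420477299 1073741824 536870912 1046898278 26843546 false true true .pp 2 0 2
    ndF1q2a ndF3q2 pcF0 Cut.none Ext.none :=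
  certFX0 (fam := false) (s1 := true) (s2 := true) (a := 2) (b := 0) (c := 2) (cn := .pp) (n1 := ndF1q2a) (n2 := ndF3q2) (pc := pcF0) (cut := Cut.none) (xt := Ext.none) (P1 := 0) (W1 := 420477299) (P2 := 1073741824) (W2 := 536870912) (P3 := 1046898278) (W3 := 26843546)
    rfl k0_pp_202_a

noncomputable def f_pp_202_b : ℕ → ℕ → ℕ → ℕ → Bool := onCell 1239849684 370763052 1073741824 536870912 1046898278 26843546
    (rowFX 0 false true true .pp 2 0 2 (qsf 1239849684 370763052 1073741824 536870912 0) ndF1q2b ndF3q2 pcF0 Cut.none Ext.none)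

def k0_pp_202_b : ∃ t, chk3 f_pp_202_b t 1 1 1 = true :=
  ⟨(l 3), by decide +kernel⟩

theorem c_pp_202_b : CertFX 1239849684 370763052 1073741824 536870912 1046898278 26843546 false true true .pp 2 0 2
    ndF1q2b ndF3q2 pcF0 Cut.none Ext.none :=
  certFX0 (fam := false) (s1 := true) (s2 := true) (a := 2) (b := 0) (c := 2) (cn := .pp) (n1 := ndF1q2b) (n2 := ndF3q2) (pc := pcF0) (cut := Cut.none) (xt := Ext.none) (P1 := 1239849684) (W1 := 370763052) (P2 := 1073741824) (W2 := 536870912) (P3 := 1046898278) (W3 := 26843546)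
    rfl k0_pp_202_b

noncomputable def f_pp_203_a : ℕ → ℕ → ℕ → ℕ → Bool := onCell 0 420477299 1610612736 536870912 1046898278 26843546
    (rowFX 0 false true true .up 2 0 3 (qsf 0 420477299 1610612736 536870912 0) ndF1q2a ndF3q3 pcF0 Cut.none Ext.none)

def k0_pp_203_a : ∃ t, chk3 f_pp_203_a t 1 1 1 = true :=
  ⟨(l 3), by decide +kernel⟩

theorem c_pp_203_a : CertFX 0 420477299 1610612736 536870912 1046898278 26843546 false true true .up 2 0 3
    ndF1q2a ndF3q3 pcF0 Cut.none Ext.none :=
  certFX0 (fam := false) (s1 := true) (s2 := true) (a := 2) (b := 0) (c := 3) (cn := .up) (n1 := ndF1q2a) (n2 := ndF3q3) (pc := pcF0) (cut := Cut.none) (xt := Ext.none) (P1 := 0) (W1 := 420477299) (P2 := 1610612736) (W2 := 536870912) (P3 := 1046898278) (W3 := 26843546)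
    rfl k0_pp_203_a

noncomputable def f_pp_203_b : ℕ → ℕ → ℕ → ℕ → Bool := onCell 1239849684 370763052 1610612736 536870912 1046898278 26843546
    (rowFX 0 false true true .up 2 0 3 (qsf 1239849684 370763052 1610612736 536870912 0) ndF1q2b ndF3q3 pcF0 Cut.none Ext.none)

def k0_pp_203_b : ∃ t, chk3 f_pp_203_b t 1 1 1 = true :=
  ⟨(l 3), by decide +kernel⟩

theorem c_pp_203_b : CertFX 1239849684 370763052 1610612736 536870912 1046898278 26843546 false true true .up 2 0 3
    ndF1q2b ndF3q3 pcF0 Cut.none Ext.none :=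
  certFX0 (fam := false) (s1 := true) (s2 := true) (a := 2) (b := 0) (c := 3) (cn := .up) (n1 := ndF1q2b) (n2 := ndF3q3) (pc := pcF0) (cut := Cut.none) (xt := Ext.none) (P1 := 1239849684) (W1 := 370763052) (P2 := 1610612736) (W2 := 536870912) (P3 := 1046898278) (W3 := 26843546)
    rfl k0_pp_203_b

noncomputable def f_pp_213_a : ℕ → ℕ → ℕ → ℕ → Bool := onCell 0 420477299 1610612736 536870912 1046898278 26843546
    (rowFX 0 false true true .pnn 2 1 3 (qsf 0 420477299 1610612736 536870912 1) ndF1q2a ndF3q3 pcF1 Cut.none Ext.none)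

def k0_pp_213_a : ∃ t, chk3 f_pp_213_a t 1 1 1 = true :=
  ⟨(l 3), by decide +kernel⟩

theorem c_pp_213_a : CertFX 0 420477299 1610612736 536870912 1046898278 26843546 false true true .pnn 2 1 3
    ndF1q2a ndF3q3 pcF1 Cut.none Ext.none :=
  certFX0 (fam := false) (s1 := true) (s2 := true) (a := 2) (b := 1) (c := 3) (cn := .pnn) (n1 := ndF1q2a) (n2 := ndF3q3) (pc := pcF1) (cut := Cut.none) (xt := Ext.none) (P1 := 0) (W1 := 420477299) (P2 := 1610612736) (W2 := 536870912) (P3 := 1046898278) (W3 := 26843546)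
    rfl k0_pp_213_a

noncomputable def f_pp_213_b : ℕ → ℕ → ℕ → ℕ → Bool := onCell 1239849684 370763052 1610612736 536870912 1046898278 26843546
    (rowFX 0 false true true .pnn 2 1 3 (qsf 1239849684 370763052 1610612736 536870912 1) ndF1q2b ndF3q3 pcF1 Cut.none Ext.none)

def k0_pp_213_b : ∃ t, chk3 f_pp_213_b t 1 1 1 = true :=
  ⟨(l 3), by decide +kernel⟩

theorem c_pp_213_b : CertFX 1239849684 370763052 1610612736 536870912 1046898278 26843546 false true true .pnn 2 1 3
    ndF1q2b ndF3q3 pcF1 Cut.none Ext.none :=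
  certFX0 (fam := false) (s1 := true) (s2 := true) (a := 2) (b := 1) (c := 3) (cn := .pnn) (n1 := ndF1q2b) (n2 := ndF3q3) (pc := pcF1) (cut := Cut.none) (xt := Ext.none) (P1 := 1239849684) (W1 := 370763052) (P2 := 1610612736) (W2 := 536870912) (P3 := 1046898278) (W3 := 26843546)
    rfl k0_pp_213_b

noncomputable def f_pp_303 : ℕ → ℕ → ℕ → ℕ → Bool := onCell 1610612736 469762048 1610612736 536870912 1046898278 26843546
    (rowFX 0 false true true .npn 3 0 3 (qsf 1610612736 469762048 1610612736 536870912 0) ndF1q3 ndF3q3 pcF0 Cut.none Ext.none)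

def k0_pp_303 : ∃ t, chk3 f_pp_303 t 1 1 1 = true :=
  ⟨(l 3), by decide +kernel⟩

theorem c_pp_303 : CertFX 1610612736 469762048 1610612736 536870912 1046898278 26843546 false true true .npn 3 0 3
    ndF1q3 ndF3q3 pcF0 Cut.none Ext.none :=
  certFX0 (fam := false) (s1 := true) (s2 := true) (a := 3) (b := 0) (c := 3) (cn := .npn) (n1 := ndF1q3) (n2 := ndF3q3) (pc := pcF0) (cut := Cut.none) (xt := Ext.none) (P1 := 1610612736) (W1 := 469762048) (P2 := 1610612736) (W2 := 536870912) (P3 := 1046898278) (W3 := 26843546)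
    rfl k0_pp_303

noncomputable def f_pp_313 : ℕ → ℕ → ℕ → ℕ → Bool := onCell 1610612736 469762048 1610612736 536870912 1046898278 26843546
    (rowFX 0 false true true .dn 3 1 3 (qsf 1610612736 469762048 1610612736 536870912 1) ndF1q3 ndF3q3 pcF1 Cut.none Ext.none)

def k0_pp_313 : ∃ t, chk3 f_pp_313 t 1 1 1 = true :=
  ⟨(l 3), by decide +kernel⟩

theorem c_pp_313 : CertFX 1610612736 469762048 1610612736 536870912 1046898278 26843546 false true true .dn 3 1 3
    ndF1q3 ndF3q3 pcF1 Cut.none Ext.none :=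
  certFX0 (fam := false) (s1 := true) (s2 := true) (a := 3) (b := 1) (c := 3) (cn := .dn) (n1 := ndF1q3) (n2 := ndF3q3) (pc := pcF1) (cut := Cut.none) (xt := Ext.none) (P1 := 1610612736) (W1 := 469762048) (P2 := 1610612736) (W2 := 536870912) (P3 := 1046898278) (W3 := 26843546)
    rfl k0_pp_313

noncomputable def f_pm_001 : ℕ → ℕ → ℕ → ℕ → Bool := onCell 67108864 469762048 536870912 536870912 1046898278 26843546
    (rowFX 0 false true false .up 0 0 1 (qsf 67108864 469762048 536870912 536870912 0) ndF1q0 ndF3q1 pcF0 Cut.none Ext.none)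

def k0_pm_001 : ∃ t, chk3 f_pm_001 t 1 1 1 = true :=
  ⟨(l 4), by decide +kernel⟩

theorem c_pm_001 : CertFX 67108864 469762048 536870912 536870912 1046898278 26843546 false true false .up 0 0 1
    ndF1q0 ndF3q1 pcF0 Cut.none Ext.none :=
  certFX0 (fam := false) (s1 := true) (s2 := false) (a := 0) (b := 0) (c := 1) (cn := .up) (n1 := ndF1q0) (n2 := ndF3q1) (pc := pcF0) (cut := Cut.none) (xt := Ext.none) (P1 := 67108864) (W1 := 469762048) (P2 := 536870912) (W2 := 536870912) (P3 := 1046898278) (W3 := 26843546)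
    rfl k0_pm_001

noncomputable def f_pm_011 : ℕ → ℕ → ℕ → ℕ → Bool := onCell 67108864 469762048 536870912 536870912 1046898278 26843546
    (rowFX 0 false true false .pnn 0 1 1 (qsf 67108864 469762048 536870912 536870912 1) ndF1q0 ndF3q1 pcF1 Cut.none Ext.none)

def k0_pm_011 : ∃ t, chk3 f_pm_011 t 1 1 1 = true :=
  ⟨(l 4), by decide +kernel⟩

theorem c_pm_011 : CertFX 67108864 469762048 536870912 536870912 1046898278 26843546 false true false .pnn 0 1 1
    ndF1q0 ndF3q1 pcF1 Cut.none Ext.none :=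
  certFX0 (fam := false) (s1 := true) (s2 := false) (a := 0) (b := 1) (c := 1) (cn := .pnn) (n1 := ndF1q0) (n2 := ndF3q1) (pc := pcF1) (cut := Cut.none) (xt := Ext.none) (P1 := 67108864) (W1 := 469762048) (P2 := 536870912) (W2 := 536870912) (P3 := 1046898278) (W3 := 26843546)
    rfl k0_pm_011

noncomputable def f_pm_012 : ℕ → ℕ → ℕ → ℕ → Bool := onCell 536870912 536870912 1073741824 536870912 1046898278 26843546
    (rowFX 2 false true false .pnp 0 1 2 (qsf 67108864 469762048 1073741824 536870912 1) ndF1q0 ndF3q2 pcF1 Cut.none Ext.none)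

def k0_pm_012 : ∃ t, chk3 f_pm_012 t 2 1 1 = true :=
  ⟨(b (b (b (a (b (c (l 15819496) (b (l 15799104) (l 15879216))) (l 16021456)) (b (a (b (l 15825584) (l 15930616)) (b (l 15720728) (l 15930616))) (a (l 16021456) (l 16021456)))) (a (l 16000440) (b (l 16060296) (l 15972464)))) (b (a (b (a (l 2) (l 15828440)) (l 2)) (b (l 15828440) (a (l 16106936) (l 16106936)))) (a (l 2) (b (a (l 16553112) (l 16553112)) (l 16776904))))) (a (l 2) (b (c (l 16777216) (l 16777216)) (l 2)))), by decide +kernel⟩

def k1_pm_012 : ∃ t, chk3 f_pm_012 t 6 2 1 = true :=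
  ⟨(b (a (b (a (b (b (c (l 15859704) (l 15799248)) (l 15930888)) (l 16021704)) (b (b (a (b (l 15770408) (l 15935968)) (b (l 15927448) (l 16058952))) (a (l 16034336) (l 16062872))) (b (l 16172160) (l 16228928)))) (a (l 16000624) (b (l 16219008) (l 16103320)))) (b (a (a (b (b (c (l 16094688) (l 15916048)) (l 16272424)) (b (l 16432568) (l 16513688))) (b (b (b (l 16004496) (l 16182696)) (c (l 16404720) (l 16341504))) (b (l 16553608) (l 16494416)))) (b (b (a (b (a (c (l 16181288) (l 16022080)) (l 16067264)) (a (l 16153720) (l 16285120))) (c (l 16134992) (b (l 16186648) (l 16337144)))) (a (a (l 16298160) (l 16410520)) (l 16285960))) (a (b (l 16300400) (a (l 16374888) (l 16340872))) (b (l 16525520) (l 16319112))))) (a (b (l 16450184) (l 16407112)) (a (b (a (l 16278392) (l 16194176)) (l 16195968)) (b (l 16126008) (l 16124960)))))) (a (a (b (b (l 15828568) (l 16107024)) (l 16500056)) (b (b (l 15929328) (l 16177424)) (b (b (l 16494064) (l 16686728)) (l 16748160)))) (b (a (b (l 16171672) (l 16353736))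 (b (a (l 16415592) (l 16295688)) (a (l 16455240) (l 16221720)))) (a (b (l 16598064) (b (c (l 16478192) (l 16581568)) (a (l 16726872) (l 16646000)))) (b (a (l 16356384) (l 16086008)) (b (a (b (l 16353264) (a (l 16356240) (l 16356904))) (l 16088384)) (a (a (c (l 16567576) (l 16562640)) (c (l 16442296) (l 16433616))) (c (l 16112256) (l 16190608))))))))), by decide +kernel⟩

def k2_pm_012 : ∃ t, chk3 f_pm_012 t 6 3 1 = true :=
  ⟨(a (b (a (l 16777208) (a (l 16772744) (l 16869608))) (l 2)) (b (b (b (c (a (l 16747232) (a (a (b (l 16674904) (l 16767288)) (l 16581752)) (a (l 16465688) (l 16199680)))) (b (a (l 16923664) (a (a (l 16710520) (l 16589696)) (l 16117784))) (a (l 16860848) (b (a (a (l 16772968) (l 16660552)) (l 16406472)) (l 16581064))))) (a (l 16767640) (l 16588752))) (a (l 16766984) (l 16561160))) (a (l 2) (l 16451832)))), by decide +kernel⟩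

def k3_pm_012 : ∃ t, chk3 f_pm_012 t 7 32 1 = true :=
  ⟨(a (c (a (a (l 16217128) (a (l 16323576) (b (c (l 16407672) (l 16379784)) (c (l 16553816) (l 16508304))))) (b (a (c (l 16398624) (l 16298728)) (a (c (l 16485000) (l 16416928)) (c (a (l 16518288) (l 16498152)) (a (l 16465824) (c (l 16466632) (l 16516992)))))) (a (c (l 16506208) (b (l 16531336) (l 16588272))) (c (a (l 16550296) (b (l 16560272) (l 16510800))) (a (l 16550064) (a (l 16572872) (b (l 16640088) (l 16598328)))))))) (a (a (b (l 16188576) (l 16398960)) (b (a (l 16317640) (c (l 16367080) (l 16260664))) (a (l 16442568) (l 16462944)))) (a (b (c (l 16389360) (l 16304712)) (a (l 16466920) (l 16538016))) (b (b (a (l 16433568) (c (l 16497144) (l 16421424))) (c (l 16528000) (l 16500856))) (a (l 16515464) (c (l 16622040) (l 16572224))))))) (a (b (a (a (c (c (c (a (a (l 16481008) (l 437045869495)) (c (l 456373275991) (l 458520740887))) (l 16458088)) (a (c (l 16506224) (l 16532328)) (b (l 16533440) (l 16563336)))) (b (c (l 16531128)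 (c (l 16524976) (l 16472480))) (c (l 16574496) (l 16505928)))) (b (l 1) (c (c (c (l 474627029479) (a (l 16618616) (l 1))) (l 474626971031)) (c (l 16582120) (l 16556176))))) (l 1)) (a (c (a (c (b (b (c (a (l 16597712) (l 16629024)) (l 16657920)) (l 16569760)) (l 16500680)) (a (c (l 16560864) (l 16651464)) (b (l 16630080) (l 16585168)))) (c (b (b (a (l 16585912) (l 1)) (l 213707517047)) (l 163778340039)) (b (l 16526768) (c (l 16554288) (l 16548624))))) (a (b (a (l 16580808) (l 16607808)) (l 16616848)) (c (l 16624784) (l 16607848)))) (a (b (l 1) (c (c (l 475163414183) (l 474626661127)) (c (l 16499824) (l 16635200)))) (l 1)))) (l 1))), by decide +kernel⟩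

def k4_pm_012 : ∃ t, chk3 f_pm_012 t 7 33 1 = true :=
  ⟨(a (a (a (c (l 16555264) (l 16496840)) (a (l 16494376) (c (l 16490688) (l 16538584)))) (c (a (b (c (l 16372048) (a (l 16632976) (l 16530472))) (a (l 16478792) (l 16377632))) (a (c (b (l 16431664) (l 16339112)) (b (c (l 16496736) (l 16541744)) (l 16399872))) (c (l 16168296) (c (l 16242616) (l 16439448))))) (a (b (a (l 16633232) (l 16572072)) (l 16451144)) (b (a (l 16528992) (l 16496624)) (l 16301640))))) (a (c (a (c (a (a (l 16224128) (l 16169736)) (b (b (l 16415000) (l 16332224)) (l 16219112))) (a (c (l 16278872) (l 16378496)) (b (c (l 16437144) (l 16437696)) (l 16243560)))) (a (c (b (a (l 16314000) (l 448319559847)) (l 16196792)) (c (a (l 16194728) (l 451540622967)) (l 484826729495))) (a (c (b (l 475163091607) (l 16183064)) (b (l 16312120) (l 16238768))) (b (l 1) (c (c (l 16166336) (l 16187024)) (l 16242040)))))) (a (a (l 16295168) (b (c (l 16498288) (l 16530560)) (l 16338072))) (c (a (c (b (l 16344736) (l 16219096)) (l 16245168))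 (a (c (l 450467023159) (l 16337144)) (c (l 16183360) (l 412886124439)))) (a (l 16246272) (l 386579466535))))) (b (l 1) (b (l 1) (a (a (a (c (c (l 474625963767) (l 16199448)) (c (c (l 16250808) (l 16281824)) (l 16288360))) (l 1)) (l 1)) (l 1)))))), by decide +kernel⟩

def k5_pm_012 : ∃ t, chk3 f_pm_012 t 7 17 1 = true :=
  ⟨(b (a (a (a (l 16514136) (a (l 16500568) (c (l 16397712) (l 16481528)))) (a (c (c (l 16255464) (l 16271864)) (l 16362112)) (c (c (a (l 16190208) (l 16109416)) (a (l 16241120) (c (l 16101288) (l 16183232)))) (l 16109160)))) (a (c (a (c (a (b (l 16106720) (l 15984736)) (l 15819240)) (a (c (l 16047744) (l 16138568)) (c (l 16068808) (l 16062224)))) (a (c (l 15981920) (c (l 15867584) (l 16072760))) (a (c (l 15913248) (c (l 16020760) (l 15967408))) (b (c (l 16047848) (c (l 16091992) (l 16122448))) (l 4))))) (a (a (l 16135528) (l 16032616)) (c (a (b (l 16033304) (l 15848760)) (c (a (l 15917648) (l 15939680)) (a (l 16102096) (b (l 16181040) (l 4))))) (a (l 16099232) (b (l 16180856)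 (l 16024832)))))) (a (a (b (a (a (c (c (l 16060928) (l 16110808)) (c (c (l 16152696) (l 16181976)) (l 16185672))) (l 4)) (l 4)) (l 4)) (l 4)) (l 4)))) (a (a (a (l 16298624) (a (l 16296072) (c (l 16264112) (l 16261608)))) (c (a (c (l 16073232) (l 16153576)) (c (a (l 16002928) (l 15913544)) (a (l 16034408) (l 15952408)))) (a (l 16146576) (l 15988240)))) (a (a (c (c (a (l 15809496) (c (l 15747496) (l 15773256))) (a (l 15882904) (l 15583888))) (a (l 15885976) (l 15835224))) (a (c (c (b (l 15778360) (l 15660312)) (c (a (l 15753008) (l 15741384)) (l 15738064))) (c (c (a (l 15807128) (l 15731392)) (l 15807712)) (l 15799600))) (l 4))) (l 4)))), by decide +kernel⟩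

def k6_pm_012 : ∃ t, chk3 f_pm_012 t 7 9 1 = true :=
  ⟨(a (a (a (b (l 16069736) (l 15923528)) (b (a (l 16052816) (l 15996688)) (a (l 15880976) (l 15820344)))) (c (a (b (c (l 15909696) (l 15915984)) (l 15615800)) (c (b (a (l 15789736) (l 15704336)) (l 15510736)) (b (a (l 15811056) (l 15712376)) (l 15530560)))) (b (a (l 15904472) (l 15677208)) (a (l 15687952) (l 15543160))))) (a (a (c (c (b (a (l 15620048) (b (l 15597824) (l 15493816))) (a (l 15414824) (l 15360712))) (b (a (l 15433104) (c (l 15579952) (l 15565352))) (a (l 15457888) (a (l 15409808) (l 4))))) (b (a (l 15664224) (c (l 15616808) (l 15603248))) (a (l 15455584) (l 15420544)))) (a (a (a (b (c (c (l 15517616) (l 15557528)) (l 15586064)) (l 4)) (l 4)) (l 4)) (l 4))) (l 4))), by decide +kernel⟩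

def k7_pm_012 : ∃ t, chk3 f_pm_012 t 7 10 1 = true :=
  ⟨(a (a (a (b (l 16101328) (l 15993296)) (b (a (l 15960624) (b (l 15830768) (l 15890032))) (l 15647568))) (a (b (c (b (l 15646472) (l 15541088)) (b (l 15633728) (l 15676480))) (c (l 15325680) (l 15474344))) (b (c (b (l 15237272) (a (l 15463048) (l 15346112))) (l 15201776)) (c (a (l 15273200) (l 15102376)) (l 14973928))))) (a (a (c (b (c (a (l 15277824) (l 15215080)) (a (l 15317640) (b (l 15294576) (l 15209936)))) (a (c (l 14942432) (l 14971752)) (c (l 14811408) (l 14843928)))) (b (a (l 15312696) (l 15269992)) (a (l 14957160) (l 14846056)))) (a (b (l 4) (c (c (l 14727840) (b (l 14888208) (l 14602816))) (a (l 14773784) (b (l 4) (l 14582896))))) (l 4))) (l 4))), by decide +kernel⟩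

def k8_pm_012 : ∃ t, chk3 f_pm_012 t 7 11 1 = true :=
  ⟨(a (a (a (b (l 15811344) (b (l 15780096) (c (l 15912352) (l 15752096)))) (b (l 15543968) (a (l 15543200) (a (l 15504848) (l 15400128))))) (a (b (c (l 15260344) (l 15230040)) (l 15141760)) (b (c (a (l 15008352) (l 14710936)) (l 14890616)) (c (l 14893064) (l 14858136))))) (a (b (c (a (a (c (a (l 14713680) (l 14636440)) (l 14691288)) (c (l 14429992) (l 14537504))) (c (a (l 14356880) (l 14264936)) (a (l 14191208) (l 14278688)))) (a (a (l 14666168) (l 14524184)) (c (c (a (l 14393832) (l 14296608)) (l 14344464)) (l 14323088)))) (b (c (a (a (l 14595648) (c (l 14409584) (l 14428296))) (a (c (l 14243856) (l 14269416)) (l 14079128))) (a (l 14479912) (a (l 14255192) (l 14087208)))) (c (a (c (l 14587056) (l 14597040)) (a (l 14318656) (c (l 14133760) (l 14159832)))) (a (l 14568520) (a (l 14316632) (l 14162488)))))) (a (a (c (b (c (l 14188792) (l 14190336)) (a (b (l 13965888) (l 14022928)) (l 13954728))) (b (c (c (l 14202112) (l 14212608)) (l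 14202192)) (c (c (a (l 14091680) (l 13958696)) (l 13939184)) (l 14049040)))) (b (l 4) (c (l 13896808) (c (l 13887728) (l 13885200))))) (l 4)))), by decide +kernel⟩

def k9_pm_012 : ∃ t, chk3 f_pm_012 t 7 3 1 = true :=
  ⟨(b (a (b (b (a (a (c (l 15910392) (b (l 15967600) (l 15859168))) (a (b (l 15708024) (l 15793792)) (c (l 15632816) (l 15418920)))) (a (c (b (l 15337024) (l 15426728)) (b (l 15307568) (l 15397776))) (c (b (l 15034976) (l 15134096)) (b (l 15001256) (l 15097720))))) (a (l 15931424) (b (l 15298544) (l 15319288)))) (a (l 15979776) (l 15380680))) (c (b (a (a (c (a (b (c (a (l 14911752) (l 14841904)) (l 14888504)) (l 14947984)) (b (l 14676392) (l 14770664))) (b (b (l 14710296) (l 14816976)) (l 14848680))) (b (b (a (l 14414104) (l 14225960)) (c (l 14404296) (a (l 14556272) (l 14369024)))) (c (l 14459128) (l 14515360)))) (b (a (a (b (a (l 14080216) (l 13986952)) (l 14114144)) (c (l 13939208) (a (l 13986064) (l 13883784)))) (l 13810152)) (a (a (l 14183712) (a (l 13926832) (l 13954928)))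 (l 13735368)))) (a (l 14759640) (l 14095064))) (b (a (b (a (a (b (l 14760344) (l 14861176)) (l 14659528)) (b (a (l 14411344) (l 14246248)) (l 14447088))) (a (l 14794528) (l 14503920))) (a (a (b (a (b (l 14111704) (l 14223032)) (b (c (l 14014576) (l 14005480)) (l 14135088))) (l 14258152)) (c (a (b (b (l 13966280) (l 14059424)) (l 14122064)) (b (l 13900608) (l 14022456))) (b (a (b (l 13962576) (l 14054904)) (l 13906120)) (l 14076352)))) (c (a (b (l 13809016) (l 13875760)) (l 13739224)) (c (a (b (l 13817336) (l 13907624)) (a (l 13755816) (l 13690592))) (a (b (l 13813184) (l 13904912)) (a (l 13769328) (l 28682352903))))))) (a (l 14762536) (a (l 14268336) (l 13929672)))))) (a (a (l 15918952) (b (l 15497256) (l 15641976))) (a (c (b (l 14906768) (l 15091328)) (b (l 14908864) (l 15092432))) (a (c (l 14490872) (l 14541632)) (b (l 14076216) (l 14340904)))))), by decide +kernel⟩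

theorem s10_pm_012 : ∃ t, chk3 f_pm_012 t 7 5 1 = true := ex3_b k7_pm_012 k8_pm_012

theorem s11_pm_012 : ∃ t, chk3 f_pm_012 t 7 16 1 = true := ex3_b k3_pm_012 k4_pm_012

theorem s12_pm_012 : ∃ t, chk3 f_pm_012 t 7 8 1 = true := ex3_b s11_pm_012 k5_pm_012

theorem s13_pm_012 : ∃ t, chk3 f_pm_012 t 7 4 1 = true := ex3_b s12_pm_012 k6_pm_012

theorem s14_pm_012 : ∃ t, chk3 f_pm_012 t 7 2 1 = true := ex3_b s13_pm_012 s10_pm_012

theorem s15_pm_012 : ∃ t, chk3 f_pm_012 t 7 1 1 = true := ex3_b s14_pm_012 k9_pm_012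

theorem s16_pm_012 : ∃ t, chk3 f_pm_012 t 6 1 1 = true := ex3_b k1_pm_012 k2_pm_012

theorem s17_pm_012 : ∃ t, chk3 f_pm_012 t 3 1 1 = true := ex3_a s16_pm_012 s15_pm_012

theorem s18_pm_012 : ∃ t, chk3 f_pm_012 t 1 1 1 = true := ex3_a k0_pm_012 s17_pm_012

theorem c_pm_012 : CertFX 67108864 469762048 1073741824 536870912 1046898278 26843546 false true false .pnp 0 1 2
    ndF1q0 ndF3q2 pcF1 Cut.none Ext.none :=
  certFX2 (fam := false) (s1 := true) (s2 := false) (a := 0) (b := 1) (c := 2) (cn := .pnp) (n1 := ndF1q0) (n2 := ndF3q2) (pc := pcF1) (cut := Cut.none) (xt := Ext.none) (P1 := 67108864) (W1 := 469762048) (P2 := 1073741824) (W2 := 536870912) (P3 := 1046898278) (W3 := 26843546)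
    rfl (fun _ => rfl) s18_pm_012

noncomputable def f_pm_022 : ℕ → ℕ → ℕ → ℕ → Bool := onCell 67108864 469762048 1073741824 536870912 1046898278 26843546
    (rowFX 1 false true false .pp 0 2 2 (qsf 67108864 469762048 1073741824 536870912 2) ndF1q0 ndF3q2 pcF2 Cut.none Ext.none)

def k0_pm_022 : ∃ t, chk3 f_pm_022 t 1 1 1 = true :=
  ⟨(b (b (a (a (l 4) (b (a (l 4) (l 4)) (l 4))) (b (a (c (b (l 13928720) (a (l 14176400) (l 14228832))) (b (a (c (l 13853888) (l 13845912)) (l 13928128)) (a (l 14161184) (l 14213056)))) (c (b (l 14137736) (l 14391888)) (b (a (l 14036048) (l 14168224)) (l 14374400)))) (b (a (c (b (l 14446376) (l 14600584)) (b (l 14416936) (l 14561104))) (c (l 14608672) (l 14638568))) (a (a (l 4) (l 14821856)) (l 14894640))))) (a (l 4) (a (b (b (b (l 15092776) (l 15277928)) (l 15536600)) (b (l 15827688) (l 16095872))) (l 2)))) (a (l 4) (l 2))), by decide +kernel⟩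

theorem c_pm_022 : CertFX 67108864 469762048 1073741824 536870912 1046898278 26843546 false true false .pp 0 2 2
    ndF1q0 ndF3q2 pcF2 Cut.none Ext.none :=
  certFX1 (fam := false) (s1 := true) (s2 := false) (a := 0) (b := 2) (c := 2) (cn := .pp) (n1 := ndF1q0) (n2 := ndF3q2) (pc := pcF2) (cut := Cut.none) (xt := Ext.none) (P1 := 67108864) (W1 := 469762048) (P2 := 1073741824) (W2 := 536870912) (P3 := 1046898278) (W3 := 26843546)
    rfl (fun _ => rfl) k0_pm_022

noncomputable def f_pm_023 : ℕ → ℕ → ℕ → ℕ → Bool := onCell 67108864 469762048 1073741824 536870912 1046898278 26843546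
    (rowFX 1 false true false .up 0 2 3 (qsf 67108864 469762048 1610612736 536870912 2) ndF1q0 ndF3q3 pcF2 Cut.none Ext.none)

def k0_pm_023 : ∃ t, chk3 f_pm_023 t 1 1 1 = true :=
  ⟨(b (b (a (l 1) (b (a (l 1) (c (b (l 14137736) (l 14391888)) (b (l 13936928) (l 14374400)))) (b (a (l 1) (c (l 14524784) (l 14638568))) (a (l 77338544839) (l 14894640))))) (a (l 4) (b (b (b (a (l 15092776) (l 15108416)) (a (l 15277928) (l 15286912))) (a (l 15536600) (l 15576344))) (b (a (l 15827688) (l 15907352)) (a (l 16095872) (l 16179640)))))) (a (l 4) (b (b (a (b (l 16345760) (l 4)) (b (l 16398872) (l 16602184))) (a (l 4) (b (l 16760136) (l 16777176)))) (a (b (l 4) (l 4)) (b (b (l 16774104) (l 16748008)) (a (l 16746656) (l 16731832))))))), by decide +kernel⟩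

theorem c_pm_023 : CertFX 67108864 469762048 1610612736 536870912 1046898278 26843546 false true false .up 0 2 3
    ndF1q0 ndF3q3 pcF2 Cut.none Ext.none :=
  certFX1 (fam := false) (s1 := true) (s2 := false) (a := 0) (b := 2) (c := 3) (cn := .up) (n1 := ndF1q0) (n2 := ndF3q3) (pc := pcF2) (cut := Cut.none) (xt := Ext.none) (P1 := 67108864) (W1 := 469762048) (P2 := 1610612736) (W2 := 536870912) (P3 := 1046898278) (W3 := 26843546)
    rfl (fun _ => rfl) k0_pm_023

noncomputable def f_pm_033 : ℕ → ℕ → ℕ → ℕ → Bool := onCell 1610612736 536870912 1610612736 536870912 1046898278 26843546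
    (rowFX 2 false true false .pnn 0 3 3 (qsf 67108864 469762048 1610612736 536870912 3) ndF1q0 ndF3q3 pcF3 Cut.none Ext.none)

def k0_pm_033 : ∃ t, chk3 f_pm_033 t 1 1 1 = true :=
  ⟨(a (b (a (l 4) (b (l 1) (l 4))) (b (l 4) (a (a (a (l 16732512) (l 16732512)) (a (l 16732512) (l 101166837639))) (l 4)))) (b (l 1) (a (l 4) (b (l 1) (l 4))))), by decide +kernel⟩

theorem c_pm_033 : CertFX 67108864 469762048 1610612736 536870912 1046898278 26843546 false true false .pnn 0 3 3
    ndF1q0 ndF3q3 pcF3 Cut.none Ext.none :=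
  certFX2 (fam := false) (s1 := true) (s2 := false) (a := 0) (b := 3) (c := 3) (cn := .pnn) (n1 := ndF1q0) (n2 := ndF3q3) (pc := pcF3) (cut := Cut.none) (xt := Ext.none) (P1 := 67108864) (W1 := 469762048) (P2 := 1610612736) (W2 := 536870912) (P3 := 1046898278) (W3 := 26843546)
    rfl (fun _ => rfl) k0_pm_033

noncomputable def f_pm_101 : ℕ → ℕ → ℕ → ℕ → Bool := onCell 536870912 536870912 536870912 536870912 1046898278 26843546
    (rowFX 0 false true false .npn 1 0 1 (qsf 536870912 536870912 536870912 536870912 0) ndF1q1 ndF3q1 pcF0 Cut.none Ext.none)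

def k0_pm_101 : ∃ t, chk3 f_pm_101 t 1 1 1 = true :=
  ⟨(l 4), by decide +kernel⟩

theorem c_pm_101 : CertFX 536870912 536870912 536870912 536870912 1046898278 26843546 false true false .npn 1 0 1
    ndF1q1 ndF3q1 pcF0 Cut.none Ext.none :=
  certFX0 (fam := false) (s1 := true) (s2 := false) (a := 1) (b := 0) (c := 1) (cn := .npn) (n1 := ndF1q1) (n2 := ndF3q1) (pc := pcF0) (cut := Cut.none) (xt := Ext.none) (P1 := 536870912) (W1 := 536870912) (P2 := 536870912) (W2 := 536870912) (P3 := 1046898278) (W3 := 26843546)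
    rfl k0_pm_101

noncomputable def f_pm_102 : ℕ → ℕ → ℕ → ℕ → Bool := onCell 0 536870912 1073741824 536870912 1046898278 26843546
    (rowFX 2 false true false .npp 1 0 2 (qsf 536870912 536870912 1073741824 536870912 0) ndF1q1 ndF3q2 pcF0 Cut.none Ext.none)

def k0_pm_102 : ∃ t, chk3 f_pm_102 t 4 1 1 = true :=
  ⟨(b (a (b (b (b (b (a (a (c (a (c (l 16487280) (l 16435936)) (c (a (l 16445024) (l 16460328)) (a (l 16447328) (l 16480472)))) (a (c (a (l 16430504) (c (l 16427976) (l 16421472))) (a (c (l 16364488) (a (l 16349936) (l 16392240))) (c (l 16409416) (l 16386064)))) (c (a (l 16440160) (l 16439736)) (l 16387352)))) (c (a (c (l 16452048) (l 16465944)) (l 16394248)) (c (l 16388448) (l 16370192)))) (c (a (l 16134256) (l 15928664)) (a (l 15879824) (l 15715792)))) (a (a (a (l 2) (a (l 2) (a (l 2) (c (l 16507584) (l 16416424))))) (c (a (c (l 16555376) (l 16499712)) (l 16513800)) (l 16372160))) (c (a (l 16458384) (l 16399856)) (a (l 16355016) (l 16329960))))) (a (a (l 2) (a (l 2) (a (l 2)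 (b (l 16330816) (l 2))))) (c (a (b (l 16391000) (l 16363768)) (b (l 16366776) (l 16346680))) (a (l 16360704) (l 16318304))))) (b (b (a (l 2) (a (l 2) (b (l 16309368) (l 2)))) (l 2)) (l 2))) (l 2)) (b (b (a (b (c (b (l 15683392) (l 16185928)) (b (l 15621032) (l 16079592))) (a (c (l 16314056) (l 16280848)) (l 16270672))) (b (b (l 15621400) (l 15947880)) (l 16243416))) (b (a (a (c (a (l 16049728) (l 16171368)) (l 16170000)) (b (l 16181544) (l 16069376))) (b (l 16160760) (a (a (l 16034336) (l 16032344)) (l 16045632)))) (a (a (l 2) (b (l 15954656) (l 2))) (a (b (c (l 15919280) (l 15896944)) (l 48953485639)) (c (l 15839192) (l 15814160)))))) (b (a (l 2) (b (a (l 2) (c (b (l 15583336) (l 2)) (l 15483872))) (l 2))) (l 2)))) (l 2)), by decide +kernel⟩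

def k1_pm_102 : ∃ t, chk3 f_pm_102 t 5 1 1 = true :=
  ⟨(b (b (a (b (b (a (b (c (l 15624272) (l 15499704)) (l 15809000)) (b (l 15618736) (l 15767152))) (a (l 16148632) (b (l 15898448) (l 16077568)))) (c (a (b (l 15901816) (a (l 15852232) (l 15869584))) (b (l 16207248) (l 15912504))) (a (b (l 16137576) (l 15835016)) (b (l 16199880) (l 15890160))))) (b (b (a (l 15582920) (l 15674448)) (a (l 15901344) (l 16005224))) (a (b (l 16107040) (c (l 15980304) (l 15964752))) (b (l 16039952) (a (l 15933968) (l 15991808)))))) (a (b (a (b (c (b (l 15595864) (a (l 15395112) (l 15437424))) (b (l 15558384) (l 15405920))) (b (c (l 415635933767) (l 15494200)) (l 2))) (b (c (b (l 15639720) (l 15473376)) (l 15523440)) (b (c (a (l 15528664) (l 15542112)) (l 15501768)) (l 15648720)))) (a (l 2) (b (a (l 2) (l 15849496)) (l 2)))) (a (b (b (c (l 15369504) (l 15589760)) (c (b (l 15575688) (l 15670504)) (l 15589416))) (b (l 15819968) (a (l 2) (l 15860792)))) (b (b (c (l 15779368) (l 15759936)) (a (l 15682432) (l 15807856)))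 (b (l 15908648) (l 15925464)))))) (a (l 2) (b (b (a (l 2) (a (l 2) (l 718431410743))) (l 2)) (l 2)))), by decide +kernel⟩

def k2_pm_102 : ∃ t, chk3 f_pm_102 t 3 1 1 = true :=
  ⟨(b (b (a (b (b (a (l 15741632) (l 15762608)) (l 15935912)) (b (l 16053792) (a (a (l 15951944) (l 15956008)) (c (l 15980080) (l 15959176))))) (b (b (a (l 15783576) (l 15804544)) (l 16021456)) (b (l 16060296) (l 15972464)))) (a (b (a (b (a (l 15887616) (l 15807720)) (a (l 15997072) (l 16166368))) (b (c (l 15830104) (l 15804672)) (a (l 16023088) (l 16090216)))) (a (b (l 16089312) (l 16212912)) (b (a (b (l 16465104) (l 16588824)) (l 16531864)) (l 16610544)))) (b (b (c (l 15840600) (l 15816280)) (a (l 16104064) (l 16106936))) (b (c (l 16549568) (l 16543336)) (a (l 16758648) (l 16773888)))))) (a (b (a (b (a (l 640585286583) (l 16019688)) (a (l 2) (b (l 15756208) (l 2)))) (b (a (l 16213184) (l 16415216)) (b (l 15977744) (l 474692174775)))) (a (l 2) (b (a (l 2) (b (l 15756208) (l 2))) (l 2)))) (b (a (b (a (l 16610768)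 (l 16740672)) (b (l 16415216) (l 16213184))) (b (l 16761352) (l 16659584))) (a (b (a (l 15841504) (l 16019688)) (a (l 2) (b (l 15756208) (l 2)))) (b (a (l 16213184) (l 16415216)) (a (a (l 463417861639) (l 15882432)) (l 16019688))))))), by decide +kernel⟩

theorem s3_pm_102 : ∃ t, chk3 f_pm_102 t 2 1 1 = true := ex3_a k0_pm_102 k1_pm_102

theorem s4_pm_102 : ∃ t, chk3 f_pm_102 t 1 1 1 = true := ex3_a s3_pm_102 k2_pm_102

theorem c_pm_102 : CertFX 536870912 536870912 1073741824 536870912 1046898278 26843546 false true false .npp 1 0 2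
    ndF1q1 ndF3q2 pcF0 Cut.none Ext.none :=
  certFX2 (fam := false) (s1 := true) (s2 := false) (a := 1) (b := 0) (c := 2) (cn := .npp) (n1 := ndF1q1) (n2 := ndF3q2) (pc := pcF0) (cut := Cut.none) (xt := Ext.none) (P1 := 536870912) (W1 := 536870912) (P2 := 1073741824) (W2 := 536870912) (P3 := 1046898278) (W3 := 26843546)
    rfl (fun _ => rfl) s4_pm_102

noncomputable def f_pm_112 : ℕ → ℕ → ℕ → ℕ → Bool := onCell 536870912 536870912 1073741824 536870912 1046898278 26843546
    (rowFX 2 false true false .dn 1 1 2 (qsf 536870912 536870912 1073741824 536870912 1) ndF1q1 ndF3q2 pcF1 Cut.none Ext.none)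

def k0_pm_112 : ∃ t, chk3 f_pm_112 t 1 1 1 = true :=
  ⟨(a (b (b (b (a (b (b (l 161092505351) (l 15930616)) (l 16021456)) (l 1)) (a (l 15916552) (l 389799994631))) (b (a (b (a (l 15828440) (l 15828440)) (l 16002080)) (b (l 15828440) (l 183641604423))) (a (b (c (l 16555984) (l 16550240)) (l 16776904)) (b (a (l 16553112) (l 16553112)) (l 16776904))))) (a (b (a (l 16763832) (l 16775760)) (a (b (l 16638616) (l 379129972743)) (b (l 16761352) (a (l 16610768) (l 16740672))))) (b (a (l 16777216) (l 16777216)) (l 16765240)))) (a (b (a (a (b (l 1) (b (l 1) (l 16541992))) (l 1)) (l 1)) (a (b (a (l 16777208) (a (l 16772744) (l 16848632))) (l 16775144)) (b (a (b (b (l 1) (l 16767640)) (l 16766984)) (b (l 1) (l 16561160))) (a (l 16765280) (l 16493776))))) (b (l 1) (b (a (b (l 1) (a (l 15979776) (l 1))) (l 1)) (a (a (l 15897984) (b (l 15497256) (l 15641976))) (a (a (l 135858150231) (l 135320654743)) (b (l 1) (c (l 14484488) (l 136393681879))))))))), by decide +kernel⟩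

theorem c_pm_112 : CertFX 536870912 536870912 1073741824 536870912 1046898278 26843546 false true false .dn 1 1 2
    ndF1q1 ndF3q2 pcF1 Cut.none Ext.none :=
  certFX2 (fam := false) (s1 := true) (s2 := false) (a := 1) (b := 1) (c := 2) (cn := .dn) (n1 := ndF1q1) (n2 := ndF3q2) (pc := pcF1) (cut := Cut.none) (xt := Ext.none) (P1 := 536870912) (W1 := 536870912) (P2 := 1073741824) (W2 := 536870912) (P3 := 1046898278) (W3 := 26843546)
    rfl (fun _ => rfl) k0_pm_112

noncomputable def f_pm_113 : ℕ → ℕ → ℕ → ℕ → Bool := onCell 536870912 536870912 536870912 536870912 1046898278 26843546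
    (rowFX 1 false true false .nn 1 1 3 (qsf 536870912 536870912 1610612736 536870912 1) ndF1q1 ndF3q3 pcF1 Cut.none Ext.none)

def k0_pm_113 : ∃ t, chk3 f_pm_113 t 1 1 1 = true :=
  ⟨(b (a (b (l 1) (a (l 1) (l 16777216))) (a (b (l 16761352) (a (l 16772632) (l 16754344))) (b (a (b (l 16517520) (l 16517520)) (l 16113632)) (a (b (l 16517520) (l 16517520)) (l 16113632))))) (a (b (b (a (l 1) (l 16775016)) (b (l 16764760) (a (l 323766346647) (l 16698136)))) (b (a (b (l 16027296) (l 15521744)) (b (l 16374328) (l 15943152))) (a (b (a (l 14968728) (l 15246016)) (a (c (l 14679760) (l 14680872)) (c (l 14985568) (l 14942888)))) (b (a (l 15651232) (l 15979536)) (a (b (l 15396304) (l 15276832)) (l 15561688)))))) (b (b (a (l 16762824) (a (l 16520744) (l 16117320))) (a (a (l 16772088) (b (l 16765600) (l 16763872))) (a (l 16472256) (l 15922656)))) (a (b (a (b (l 16613624) (l 16485248)) (b (l 16702104) (l 16605576))) (a (a (b (l 16257784) (l 16129272)) (b (l 16463880) (l 16366256))) (l 16279080))) (b (a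 (l 16367824) (a (l 16044216) (b (l 15907184) (l 15786424)))) (b (a (l 16165552) (a (l 15863312) (l 15699008))) (a (a (l 16132920) (l 15919360)) (a (l 15792744) (b (l 15777792) (a (l 15888528) (b (l 16201616) (l 16782408)))))))))))), by decide +kernel⟩

theorem c_pm_113 : CertFX 536870912 536870912 1610612736 536870912 1046898278 26843546 false true false .nn 1 1 3
    ndF1q1 ndF3q3 pcF1 Cut.none Ext.none :=
  certFX1 (fam := false) (s1 := true) (s2 := false) (a := 1) (b := 1) (c := 3) (cn := .nn) (n1 := ndF1q1) (n2 := ndF3q3) (pc := pcF1) (cut := Cut.none) (xt := Ext.none) (P1 := 536870912) (W1 := 536870912) (P2 := 1610612736) (W2 := 536870912) (P3 := 1046898278) (W3 := 26843546)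
    rfl (fun _ => rfl) k0_pm_113

noncomputable def f_pm_123 : ℕ → ℕ → ℕ → ℕ → Bool := onCell 1073741824 536870912 1610612736 536870912 1046898278 26843546
    (rowFX 2 false true false .npn 1 2 3 (qsf 536870912 536870912 1610612736 536870912 2) ndF1q1 ndF3q3 pcF2 Cut.none Ext.none)

def k0_pm_123 : ∃ t, chk3 f_pm_123 t 1 1 1 = true :=
  ⟨(a (a (b (a (b (c (a (l 14430320) (l 14548280)) (a (b (l 14290480) (l 14497112)) (l 14549896))) (c (a (l 14922896) (l 14877672)) (a (b (l 14741888) (l 15029256)) (l 14958824)))) (b (a (c (l 89686441751) (l 14718648)) (l 14777880)) (a (c (a (l 15058376) (l 15083832)) (l 14975656)) (l 15065832)))) (b (a (b (a (b (l 15291136) (l 15473072)) (l 15372592)) (a (l 15622440) (b (l 15572016) (l 15627680)))) (a (b (l 15280632) (b (l 15531120) (l 15604528))) (b (l 15224128) (l 15348456)))) (a (b (a (b (l 15710408) (l 15706960)) (b (l 15651568) (l 15638144))) (b (a (l 16034240) (l 15733728)) (a (l 16281328) (l 15923216)))) (b (a (l 15554640) (l 15320976)) (b (a (l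 15534288) (l 15234968)) (a (l 15723208) (l 15284296))))))) (b (b (a (a (a (l 15105272) (l 1)) (l 1)) (l 1)) (a (a (a (l 15137856) (l 15301688)) (l 15564056)) (a (l 15966184) (l 16111520)))) (a (b (a (a (l 15183464) (l 15328024)) (l 15576224)) (a (a (b (l 15146232) (l 15014920)) (b (l 15295560) (l 15172840))) (b (l 15804080) (l 15676840)))) (b (a (l 16116736) (l 16437776)) (a (b (l 16227616) (l 16367872)) (b (l 16656904) (l 16715032))))))) (b (a (a (b (l 1) (a (l 16341600) (l 1))) (l 1)) (l 1)) (a (b (a (a (l 16527096) (l 16644328)) (a (l 16762448) (l 16777168))) (b (a (l 16666800) (l 16746040)) (a (b (l 16720000) (l 16766688)) (l 16722880)))) (a (b (c (l 16777168) (l 16777168)) (b (l 16750280) (l 16724320))) (b (l 1) (b (l 16750280) (l 16724320))))))), by decide +kernel⟩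

theorem c_pm_123 : CertFX 536870912 536870912 1610612736 536870912 1046898278 26843546 false true false .npn 1 2 3
    ndF1q1 ndF3q3 pcF2 Cut.none Ext.none :=
  certFX2 (fam := false) (s1 := true) (s2 := false) (a := 1) (b := 2) (c := 3) (cn := .npn) (n1 := ndF1q1) (n2 := ndF3q3) (pc := pcF2) (cut := Cut.none) (xt := Ext.none) (P1 := 536870912) (W1 := 536870912) (P2 := 1610612736) (W2 := 536870912) (P3 := 1046898278) (W3 := 26843546)
    rfl (fun _ => rfl) k0_pm_123

noncomputable def f_pm_133 : ℕ → ℕ → ℕ → ℕ → Bool := onCell 536870912 536870912 1610612736 536870912 1046898278 26843546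
    (rowFX 0 false true false .dn 1 3 3 (qsf 536870912 536870912 1610612736 536870912 3) ndF1q1 ndF3q3 pcF3 Cut.none Ext.none)

def k0_pm_133 : ∃ t, chk3 f_pm_133 t 1 1 1 = true :=
  ⟨(b (l 1) (a (b (l 1) (a (b (l 1) (a (l 16720904) (l 1))) (l 1))) (l 1))), by decide +kernel⟩

theorem c_pm_133 : CertFX 536870912 536870912 1610612736 536870912 1046898278 26843546 false true false .dn 1 3 3
    ndF1q1 ndF3q3 pcF3 Cut.none Ext.none :=
  certFX0 (fam := false) (s1 := true) (s2 := false) (a := 1) (b := 3) (c := 3) (cn := .dn) (n1 := ndF1q1) (n2 := ndF3q3) (pc := pcF3) (cut := Cut.none) (xt := Ext.none) (P1 := 536870912) (W1 := 536870912) (P2 := 1610612736) (W2 := 536870912) (P3 := 1046898278) (W3 := 26843546)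
    rfl k0_pm_133

noncomputable def f_pm_202_a : ℕ → ℕ → ℕ → ℕ → Bool := onCell 0 420477299 1073741824 536870912 1046898278 26843546
    (rowFX 0 false true false .pp 2 0 2 (qsf 0 420477299 1073741824 536870912 0) ndF1q2a ndF3q2 pcF0 Cut.none Ext.none)

def k0_pm_202_a : ∃ t, chk3 f_pm_202_a t 1 1 1 = true :=
  ⟨(l 3), by decide +kernel⟩

theorem c_pm_202_a : CertFX 0 420477299 1073741824 536870912 1046898278 26843546 false true false .pp 2 0 2
    ndF1q2a ndF3q2 pcF0 Cut.none Ext.none :=
  certFX0 (fam := false) (s1 := true) (s2 := false) (a := 2) (b := 0) (c := 2) (cn := .pp) (n1 := ndF1q2a) (n2 := ndF3q2) (pc := pcF0) (cut := Cut.none) (xt := Ext.none) (P1 := 0) (W1 := 420477299) (P2 := 1073741824) (W2 := 536870912) (P3 := 1046898278) (W3 := 26843546)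
    rfl k0_pm_202_a

noncomputable def f_pm_202_b : ℕ → ℕ → ℕ → ℕ → Bool := onCell 1239849684 370763052 1073741824 536870912 1046898278 26843546
    (rowFX 0 false true false .pp 2 0 2 (qsf 1239849684 370763052 1073741824 536870912 0) ndF1q2b ndF3q2 pcF0 Cut.none Ext.none)

def k0_pm_202_b : ∃ t, chk3 f_pm_202_b t 1 1 1 = true :=
  ⟨(l 3), by decide +kernel⟩

theorem c_pm_202_b : CertFX 1239849684 370763052 1073741824 536870912 1046898278 26843546 false true false .pp 2 0 2
    ndF1q2b ndF3q2 pcF0 Cut.none Ext.none :=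
  certFX0 (fam := false) (s1 := true) (s2 := false) (a := 2) (b := 0) (c := 2) (cn := .pp) (n1 := ndF1q2b) (n2 := ndF3q2) (pc := pcF0) (cut := Cut.none) (xt := Ext.none) (P1 := 1239849684) (W1 := 370763052) (P2 := 1073741824) (W2 := 536870912) (P3 := 1046898278) (W3 := 26843546)
    rfl k0_pm_202_b

noncomputable def f_pm_203_a : ℕ → ℕ → ℕ → ℕ → Bool := onCell 0 420477299 0 536870912 1046898278 26843546
    (rowFX 1 false true false .up 2 0 3 (qsf 0 420477299 1610612736 536870912 0) ndF1q2a ndF3q3 pcF0 Cut.none Ext.none)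

def k0_pm_203_a : ∃ t, chk3 f_pm_203_a t 1 1 1 = true :=
  ⟨(l 3), by decide +kernel⟩

theorem c_pm_203_a : CertFX 0 420477299 1610612736 536870912 1046898278 26843546 false true false .up 2 0 3
    ndF1q2a ndF3q3 pcF0 Cut.none Ext.none :=
  certFX1 (fam := false) (s1 := true) (s2 := false) (a := 2) (b := 0) (c := 3) (cn := .up) (n1 := ndF1q2a) (n2 := ndF3q3) (pc := pcF0) (cut := Cut.none) (xt := Ext.none) (P1 := 0) (W1 := 420477299) (P2 := 1610612736) (W2 := 536870912) (P3 := 1046898278) (W3 := 26843546)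
    rfl (fun _ => rfl) k0_pm_203_a

noncomputable def f_pm_203_b : ℕ → ℕ → ℕ → ℕ → Bool := onCell 1239849684 370763052 1610612736 536870912 1046898278 26843546
    (rowFX 0 false true false .up 2 0 3 (qsf 1239849684 370763052 1610612736 536870912 0) ndF1q2b ndF3q3 pcF0 Cut.none Ext.none)

def k0_pm_203_b : ∃ t, chk3 f_pm_203_b t 1 1 1 = true :=
  ⟨(l 3), by decide +kernel⟩

theorem c_pm_203_b : CertFX 1239849684 370763052 1610612736 536870912 1046898278 26843546 false true false .up 2 0 3
    ndF1q2b ndF3q3 pcF0 Cut.none Ext.none :=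
  certFX0 (fam := false) (s1 := true) (s2 := false) (a := 2) (b := 0) (c := 3) (cn := .up) (n1 := ndF1q2b) (n2 := ndF3q3) (pc := pcF0) (cut := Cut.none) (xt := Ext.none) (P1 := 1239849684) (W1 := 370763052) (P2 := 1610612736) (W2 := 536870912) (P3 := 1046898278) (W3 := 26843546)
    rfl k0_pm_203_b

noncomputable def f_pm_213_a : ℕ → ℕ → ℕ → ℕ → Bool := onCell 0 420477299 1610612736 536870912 1046898278 26843546
    (rowFX 0 false true false .pnn 2 1 3 (qsf 0 420477299 1610612736 536870912 1) ndF1q2a ndF3q3 pcF1 Cut.none Ext.none)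

def k0_pm_213_a : ∃ t, chk3 f_pm_213_a t 1 1 1 = true :=
  ⟨(b (l 3) (l 3)), by decide +kernel⟩

theorem c_pm_213_a : CertFX 0 420477299 1610612736 536870912 1046898278 26843546 false true false .pnn 2 1 3
    ndF1q2a ndF3q3 pcF1 Cut.none Ext.none :=
  certFX0 (fam := false) (s1 := true) (s2 := false) (a := 2) (b := 1) (c := 3) (cn := .pnn) (n1 := ndF1q2a) (n2 := ndF3q3) (pc := pcF1) (cut := Cut.none) (xt := Ext.none) (P1 := 0) (W1 := 420477299) (P2 := 1610612736) (W2 := 536870912) (P3 := 1046898278) (W3 := 26843546)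
    rfl k0_pm_213_a

noncomputable def f_pm_213_b : ℕ → ℕ → ℕ → ℕ → Bool := onCell 1239849684 370763052 1610612736 536870912 1046898278 26843546
    (rowFX 0 false true false .pnn 2 1 3 (qsf 1239849684 370763052 1610612736 536870912 1) ndF1q2b ndF3q3 pcF1 Cut.none Ext.none)

def k0_pm_213_b : ∃ t, chk3 f_pm_213_b t 1 1 1 = true :=
  ⟨(l 3), by decide +kernel⟩

theorem c_pm_213_b : CertFX 1239849684 370763052 1610612736 536870912 1046898278 26843546 false true false .pnn 2 1 3
    ndF1q2b ndF3q3 pcF1 Cut.none Ext.none :=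
  certFX0 (fam := false) (s1 := true) (s2 := false) (a := 2) (b := 1) (c := 3) (cn := .pnn) (n1 := ndF1q2b) (n2 := ndF3q3) (pc := pcF1) (cut := Cut.none) (xt := Ext.none) (P1 := 1239849684) (W1 := 370763052) (P2 := 1610612736) (W2 := 536870912) (P3 := 1046898278) (W3 := 26843546)
    rfl k0_pm_213_b

noncomputable def f_pm_303 : ℕ → ℕ → ℕ → ℕ → Bool := onCell 1610612736 469762048 1610612736 536870912 1046898278 26843546
    (rowFX 0 false true false .npn 3 0 3 (qsf 1610612736 469762048 1610612736 536870912 0) ndF1q3 ndF3q3 pcF0 Cut.none Ext.none)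

def k0_pm_303 : ∃ t, chk3 f_pm_303 t 1 1 1 = true :=
  ⟨(l 3), by decide +kernel⟩

theorem c_pm_303 : CertFX 1610612736 469762048 1610612736 536870912 1046898278 26843546 false true false .npn 3 0 3
    ndF1q3 ndF3q3 pcF0 Cut.none Ext.none :=
  certFX0 (fam := false) (s1 := true) (s2 := false) (a := 3) (b := 0) (c := 3) (cn := .npn) (n1 := ndF1q3) (n2 := ndF3q3) (pc := pcF0) (cut := Cut.none) (xt := Ext.none) (P1 := 1610612736) (W1 := 469762048) (P2 := 1610612736) (W2 := 536870912) (P3 := 1046898278) (W3 := 26843546)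
    rfl k0_pm_303

noncomputable def f_pm_313 : ℕ → ℕ → ℕ → ℕ → Bool := onCell 1610612736 469762048 1610612736 536870912 1046898278 26843546
    (rowFX 0 false true false .dn 3 1 3 (qsf 1610612736 469762048 1610612736 536870912 1) ndF1q3 ndF3q3 pcF1 Cut.none Ext.none)

def k0_pm_313 : ∃ t, chk3 f_pm_313 t 1 1 1 = true :=
  ⟨(l 3), by decide +kernel⟩

theorem c_pm_313 : CertFX 1610612736 469762048 1610612736 536870912 1046898278 26843546 false true false .dn 3 1 3
    ndF1q3 ndF3q3 pcF1 Cut.none Ext.none :=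
  certFX0 (fam := false) (s1 := true) (s2 := false) (a := 3) (b := 1) (c := 3) (cn := .dn) (n1 := ndF1q3) (n2 := ndF3q3) (pc := pcF1) (cut := Cut.none) (xt := Ext.none) (P1 := 1610612736) (W1 := 469762048) (P2 := 1610612736) (W2 := 536870912) (P3 := 1046898278) (W3 := 26843546)
    rfl k0_pm_313

noncomputable def f_mm_001 : ℕ → ℕ → ℕ → ℕ → Bool := onCell 67108864 469762048 536870912 536870912 1046898278 26843546
    (rowFX 0 false false false .up 0 0 1 (qsf 67108864 469762048 536870912 536870912 0) ndF1q0 ndF3q1 pcF0 Cut.none Ext.none)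

def k0_mm_001 : ∃ t, chk3 f_mm_001 t 1 1 1 = true :=
  ⟨(l 3), by decide +kernel⟩

theorem c_mm_001 : CertFX 67108864 469762048 536870912 536870912 1046898278 26843546 false false false .up 0 0 1
    ndF1q0 ndF3q1 pcF0 Cut.none Ext.none :=
  certFX0 (fam := false) (s1 := false) (s2 := false) (a := 0) (b := 0) (c := 1) (cn := .up) (n1 := ndF1q0) (n2 := ndF3q1) (pc := pcF0) (cut := Cut.none) (xt := Ext.none) (P1 := 67108864) (W1 := 469762048) (P2 := 536870912) (W2 := 536870912) (P3 := 1046898278) (W3 := 26843546)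
    rfl k0_mm_001

noncomputable def f_mm_011 : ℕ → ℕ → ℕ → ℕ → Bool := onCell 67108864 469762048 536870912 536870912 1046898278 26843546
    (rowFX 0 false false false .pnn 0 1 1 (qsf 67108864 469762048 536870912 536870912 1) ndF1q0 ndF3q1 pcF1 Cut.none Ext.none)

def k0_mm_011 : ∃ t, chk3 f_mm_011 t 1 1 1 = true :=
  ⟨(l 3), by decide +kernel⟩

theorem c_mm_011 : CertFX 67108864 469762048 536870912 536870912 1046898278 26843546 false false false .pnn 0 1 1
    ndF1q0 ndF3q1 pcF1 Cut.none Ext.none :=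
  certFX0 (fam := false) (s1 := false) (s2 := false) (a := 0) (b := 1) (c := 1) (cn := .pnn) (n1 := ndF1q0) (n2 := ndF3q1) (pc := pcF1) (cut := Cut.none) (xt := Ext.none) (P1 := 67108864) (W1 := 469762048) (P2 := 536870912) (W2 := 536870912) (P3 := 1046898278) (W3 := 26843546)
    rfl k0_mm_011

noncomputable def f_mm_012 : ℕ → ℕ → ℕ → ℕ → Bool := onCell 67108864 469762048 1073741824 536870912 1046898278 26843546
    (rowFX 0 false false false .pnp 0 1 2 (qsf 67108864 469762048 1073741824 536870912 1) ndF1q0 ndF3q2 pcF1 Cut.none Ext.none)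

def k0_mm_012 : ∃ t, chk3 f_mm_012 t 1 1 1 = true :=
  ⟨(l 5), by decide +kernel⟩

theorem c_mm_012 : CertFX 67108864 469762048 1073741824 536870912 1046898278 26843546 false false false .pnp 0 1 2
    ndF1q0 ndF3q2 pcF1 Cut.none Ext.none :=
  certFX0 (fam := false) (s1 := false) (s2 := false) (a := 0) (b := 1) (c := 2) (cn := .pnp) (n1 := ndF1q0) (n2 := ndF3q2) (pc := pcF1) (cut := Cut.none) (xt := Ext.none) (P1 := 67108864) (W1 := 469762048) (P2 := 1073741824) (W2 := 536870912) (P3 := 1046898278) (W3 := 26843546)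
    rfl k0_mm_012

noncomputable def f_mm_022 : ℕ → ℕ → ℕ → ℕ → Bool := onCell 67108864 469762048 1073741824 536870912 1046898278 26843546
    (rowFX 0 false false false .pp 0 2 2 (qsf 67108864 469762048 1073741824 536870912 2) ndF1q0 ndF3q2 pcF2 Cut.none Ext.none)

def k0_mm_022 : ∃ t, chk3 f_mm_022 t 1 1 1 = true :=
  ⟨(l 5), by decide +kernel⟩

theorem c_mm_022 : CertFX 67108864 469762048 1073741824 536870912 1046898278 26843546 false false false .pp 0 2 2
    ndF1q0 ndF3q2 pcF2 Cut.none Ext.none :=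
  certFX0 (fam := false) (s1 := false) (s2 := false) (a := 0) (b := 2) (c := 2) (cn := .pp) (n1 := ndF1q0) (n2 := ndF3q2) (pc := pcF2) (cut := Cut.none) (xt := Ext.none) (P1 := 67108864) (W1 := 469762048) (P2 := 1073741824) (W2 := 536870912) (P3 := 1046898278) (W3 := 26843546)
    rfl k0_mm_022

noncomputable def f_mm_023 : ℕ → ℕ → ℕ → ℕ → Bool := onCell 67108864 469762048 1610612736 536870912 1046898278 26843546
    (rowFX 0 false false false .up 0 2 3 (qsf 67108864 469762048 1610612736 536870912 2) ndF1q0 ndF3q3 pcF2 Cut.none Ext.none)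

def k0_mm_023 : ∃ t, chk3 f_mm_023 t 1 1 1 = true :=
  ⟨(l 5), by decide +kernel⟩

theorem c_mm_023 : CertFX 67108864 469762048 1610612736 536870912 1046898278 26843546 false false false .up 0 2 3
    ndF1q0 ndF3q3 pcF2 Cut.none Ext.none :=
  certFX0 (fam := false) (s1 := false) (s2 := false) (a := 0) (b := 2) (c := 3) (cn := .up) (n1 := ndF1q0) (n2 := ndF3q3) (pc := pcF2) (cut := Cut.none) (xt := Ext.none) (P1 := 67108864) (W1 := 469762048) (P2 := 1610612736) (W2 := 536870912) (P3 := 1046898278) (W3 := 26843546)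
    rfl k0_mm_023

noncomputable def f_mm_033 : ℕ → ℕ → ℕ → ℕ → Bool := onCell 67108864 469762048 1610612736 536870912 1046898278 26843546
    (rowFX 0 false false false .pnn 0 3 3 (qsf 67108864 469762048 1610612736 536870912 3) ndF1q0 ndF3q3 pcF3 Cut.none Ext.none)

def k0_mm_033 : ∃ t, chk3 f_mm_033 t 1 1 1 = true :=
  ⟨(l 5), by decide +kernel⟩

theorem c_mm_033 : CertFX 67108864 469762048 1610612736 536870912 1046898278 26843546 false false false .pnn 0 3 3
    ndF1q0 ndF3q3 pcF3 Cut.none Ext.none :=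
  certFX0 (fam := false) (s1 := false) (s2 := false) (a := 0) (b := 3) (c := 3) (cn := .pnn) (n1 := ndF1q0) (n2 := ndF3q3) (pc := pcF3) (cut := Cut.none) (xt := Ext.none) (P1 := 67108864) (W1 := 469762048) (P2 := 1610612736) (W2 := 536870912) (P3 := 1046898278) (W3 := 26843546)
    rfl k0_mm_033

noncomputable def f_mm_101 : ℕ → ℕ → ℕ → ℕ → Bool := onCell 536870912 536870912 536870912 536870912 1046898278 26843546
    (rowFX 0 false false false .npn 1 0 1 (qsf 536870912 536870912 536870912 536870912 0) ndF1q1 ndF3q1 pcF0 Cut.none Ext.none)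

def k0_mm_101 : ∃ t, chk3 f_mm_101 t 1 1 1 = true :=
  ⟨(l 3), by decide +kernel⟩

theorem c_mm_101 : CertFX 536870912 536870912 536870912 536870912 1046898278 26843546 false false false .npn 1 0 1
    ndF1q1 ndF3q1 pcF0 Cut.none Ext.none :=
  certFX0 (fam := false) (s1 := false) (s2 := false) (a := 1) (b := 0) (c := 1) (cn := .npn) (n1 := ndF1q1) (n2 := ndF3q1) (pc := pcF0) (cut := Cut.none) (xt := Ext.none) (P1 := 536870912) (W1 := 536870912) (P2 := 536870912) (W2 := 536870912) (P3 := 1046898278) (W3 := 26843546)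
    rfl k0_mm_101

end Pool.Agent.Strip051.G.IE1.Tab.C.FB13

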