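import Pool.Agent.Strip051.G.IE1.Tab

/-! # Certificates F40 (generated) -/

set_option linter.all false
set_option maxRecDepth 100000

namespace Pool.Agent.Strip051.G.IE1.Tab.C.FB13

open Pool.Agent.Strip051.PB Pool.Agent.Strip051.PB.T
open Pool.Agent.Strip051.G.IE1.Tab

noncomputable def f_mm_102 : ℕ → ℕ → ℕ → ℕ → Bool := onCell 536870912 536870912 1073741824 536870912 1046898278 26843546
    (rowFX 0 false false false .npp 1 0 2 (qsf 536870912 536870912 1073741824 536870912 0) ndF1q1 ndF3q2 pcF0 Cut.none Ext.none)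

def k0_mm_102 : ∃ t, chk3 f_mm_102 t 1 1 1 = true :=
  ⟨(l 5), by decide +kernel⟩

theorem c_mm_102 : CertFX 536870912 536870912 1073741824 536870912 1046898278 26843546 false false false .npp 1 0 2
    ndF1q1 ndF3q2 pcF0 Cut.none Ext.none :=
  certFX0 (fam := false) (s1 := false) (s2 := false) (a := 1) (b := 0) (c := 2) (cn := .npp) (n1 := ndF1q1) (n2 := ndF3q2) (pc := pcF0) (cut := Cut.none) (xt := Ext.none) (P1 := 536870912) (W1 := 536870912) (P2 := 1073741824) (W2 := 536870912) (P3 := 1046898278) (W3 := 26843546)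
    rfl k0_mm_102

noncomputable def f_mm_112 : ℕ → ℕ → ℕ → ℕ → Bool := onCell 536870912 536870912 1073741824 536870912 1046898278 26843546
    (rowFX 0 false false false .dn 1 1 2 (qsf 536870912 536870912 1073741824 536870912 1) ndF1q1 ndF3q2 pcF1 Cut.none Ext.none)

def k0_mm_112 : ∃ t, chk3 f_mm_112 t 1 1 1 = true :=
  ⟨(l 5), by decide +kernel⟩

theorem c_mm_112 : CertFX 536870912 536870912 1073741824 536870912 1046898278 26843546 false false false .dn 1 1 2
    ndF1q1 ndF3q2 pcF1 Cut.none Ext.none :=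
  certFX0 (fam := false) (s1 := false) (s2 := false) (a := 1) (b := 1) (c := 2) (cn := .dn) (n1 := ndF1q1) (n2 := ndF3q2) (pc := pcF1) (cut := Cut.none) (xt := Ext.none) (P1 := 536870912) (W1 := 536870912) (P2 := 1073741824) (W2 := 536870912) (P3 := 1046898278) (W3 := 26843546)
    rfl k0_mm_112

noncomputable def f_mm_113 : ℕ → ℕ → ℕ → ℕ → Bool := onCell 536870912 536870912 1610612736 536870912 1046898278 26843546
    (rowFX 0 false false false .nn 1 1 3 (qsf 536870912 536870912 1610612736 536870912 1) ndF1q1 ndF3q3 pcF1 Cut.none Ext.none)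

def k0_mm_113 : ∃ t, chk3 f_mm_113 t 1 1 1 = true :=
  ⟨(l 5), by decide +kernel⟩

theorem c_mm_113 : CertFX 536870912 536870912 1610612736 536870912 1046898278 26843546 false false false .nn 1 1 3
    ndF1q1 ndF3q3 pcF1 Cut.none Ext.none :=
  certFX0 (fam := false) (s1 := false) (s2 := false) (a := 1) (b := 1) (c := 3) (cn := .nn) (n1 := ndF1q1) (n2 := ndF3q3) (pc := pcF1) (cut := Cut.none) (xt := Ext.none) (P1 := 536870912) (W1 := 536870912) (P2 := 1610612736) (W2 := 536870912) (P3 := 1046898278) (W3 := 26843546)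
    rfl k0_mm_113

noncomputable def f_mm_123 : ℕ → ℕ → ℕ → ℕ → Bool := onCell 536870912 536870912 1610612736 536870912 1046898278 26843546
    (rowFX 0 false false false .npn 1 2 3 (qsf 536870912 536870912 1610612736 536870912 2) ndF1q1 ndF3q3 pcF2 Cut.none Ext.none)

def k0_mm_123 : ∃ t, chk3 f_mm_123 t 1 1 1 = true :=
  ⟨(l 5), by decide +kernel⟩

theorem c_mm_123 : CertFX 536870912 536870912 1610612736 536870912 1046898278 26843546 false false false .npn 1 2 3
    ndF1q1 ndF3q3 pcF2 Cut.none Ext.none :=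
  certFX0 (fam := false) (s1 := false) (s2 := false) (a := 1) (b := 2) (c := 3) (cn := .npn) (n1 := ndF1q1) (n2 := ndF3q3) (pc := pcF2) (cut := Cut.none) (xt := Ext.none) (P1 := 536870912) (W1 := 536870912) (P2 := 1610612736) (W2 := 536870912) (P3 := 1046898278) (W3 := 26843546)
    rfl k0_mm_123

noncomputable def f_mm_133 : ℕ → ℕ → ℕ → ℕ → Bool := onCell 536870912 536870912 1610612736 536870912 1046898278 26843546
    (rowFX 0 false false false .dn 1 3 3 (qsf 536870912 536870912 1610612736 536870912 3) ndF1q1 ndF3q3 pcF3 Cut.none Ext.none)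

def k0_mm_133 : ∃ t, chk3 f_mm_133 t 1 1 1 = true :=
  ⟨(l 5), by decide +kernel⟩

theorem c_mm_133 : CertFX 536870912 536870912 1610612736 536870912 1046898278 26843546 false false false .dn 1 3 3
    ndF1q1 ndF3q3 pcF3 Cut.none Ext.none :=
  certFX0 (fam := false) (s1 := false) (s2 := false) (a := 1) (b := 3) (c := 3) (cn := .dn) (n1 := ndF1q1) (n2 := ndF3q3) (pc := pcF3) (cut := Cut.none) (xt := Ext.none) (P1 := 536870912) (W1 := 536870912) (P2 := 1610612736) (W2 := 536870912) (P3 := 1046898278) (W3 := 26843546)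
    rfl k0_mm_133

noncomputable def f_mm_202_a : ℕ → ℕ → ℕ → ℕ → Bool := onCell 0 420477299 1073741824 536870912 1046898278 26843546
    (rowFX 0 false false false .pp 2 0 2 (qsf 0 420477299 1073741824 536870912 0) ndF1q2a ndF3q2 pcF0 Cut.none Ext.none)

def k0_mm_202_a : ∃ t, chk3 f_mm_202_a t 1 1 1 = true :=
  ⟨(l 3), by decide +kernel⟩

theorem c_mm_202_a : CertFX 0 420477299 1073741824 536870912 1046898278 26843546 false false false .pp 2 0 2
    ndF1q2a ndF3q2 pcF0 Cut.none Ext.none :=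
  certFX0 (fam := false) (s1 := false) (s2 := false) (a := 2) (b := 0) (c := 2) (cn := .pp) (n1 := ndF1q2a) (n2 := ndF3q2) (pc := pcF0) (cut := Cut.none) (xt := Ext.none) (P1 := 0) (W1 := 420477299) (P2 := 1073741824) (W2 := 536870912) (P3 := 1046898278) (W3 := 26843546)
    rfl k0_mm_202_a

noncomputable def f_mm_202_b : ℕ → ℕ → ℕ → ℕ → Bool := onCell 1239849684 370763052 1073741824 536870912 1046898278 26843546
    (rowFX 0 false false false .pp 2 0 2 (qsf 1239849684 370763052 1073741824 536870912 0) ndF1q2b ndF3q2 pcF0 Cut.none Ext.none)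

def k0_mm_202_b : ∃ t, chk3 f_mm_202_b t 1 1 1 = true :=
  ⟨(l 3), by decide +kernel⟩

theorem c_mm_202_b : CertFX 1239849684 370763052 1073741824 536870912 1046898278 26843546 false false false .pp 2 0 2
    ndF1q2b ndF3q2 pcF0 Cut.none Ext.none :=
  certFX0 (fam := false) (s1 := false) (s2 := false) (a := 2) (b := 0) (c := 2) (cn := .pp) (n1 := ndF1q2b) (n2 := ndF3q2) (pc := pcF0) (cut := Cut.none) (xt := Ext.none) (P1 := 1239849684) (W1 := 370763052) (P2 := 1073741824) (W2 := 536870912) (P3 := 1046898278) (W3 := 26843546)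
    rfl k0_mm_202_b

noncomputable def f_mm_203_a : ℕ → ℕ → ℕ → ℕ → Bool := onCell 0 420477299 1610612736 536870912 1046898278 26843546
    (rowFX 0 false false false .up 2 0 3 (qsf 0 420477299 1610612736 536870912 0) ndF1q2a ndF3q3 pcF0 Cut.none Ext.none)

def k0_mm_203_a : ∃ t, chk3 f_mm_203_a t 1 1 1 = true :=
  ⟨(l 3), by decide +kernel⟩

theorem c_mm_203_a : CertFX 0 420477299 1610612736 536870912 1046898278 26843546 false false false .up 2 0 3
    ndF1q2a ndF3q3 pcF0 Cut.none Ext.none :=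
  certFX0 (fam := false) (s1 := false) (s2 := false) (a := 2) (b := 0) (c := 3) (cn := .up) (n1 := ndF1q2a) (n2 := ndF3q3) (pc := pcF0) (cut := Cut.none) (xt := Ext.none) (P1 := 0) (W1 := 420477299) (P2 := 1610612736) (W2 := 536870912) (P3 := 1046898278) (W3 := 26843546)
    rfl k0_mm_203_a

noncomputable def f_mm_203_b : ℕ → ℕ → ℕ → ℕ → Bool := onCell 1239849684 370763052 1610612736 536870912 1046898278 26843546
    (rowFX 0 false false false .up 2 0 3 (qsf 1239849684 370763052 1610612736 536870912 0) ndF1q2b ndF3q3 pcF0 Cut.none Ext.none)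

def k0_mm_203_b : ∃ t, chk3 f_mm_203_b t 1 1 1 = true :=
  ⟨(l 3), by decide +kernel⟩

theorem c_mm_203_b : CertFX 1239849684 370763052 1610612736 536870912 1046898278 26843546 false false false .up 2 0 3
    ndF1q2b ndF3q3 pcF0 Cut.none Ext.none :=
  certFX0 (fam := false) (s1 := false) (s2 := false) (a := 2) (b := 0) (c := 3) (cn := .up) (n1 := ndF1q2b) (n2 := ndF3q3) (pc := pcF0) (cut := Cut.none) (xt := Ext.none) (P1 := 1239849684) (W1 := 370763052) (P2 := 1610612736) (W2 := 536870912) (P3 := 1046898278) (W3 := 26843546)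
    rfl k0_mm_203_b

noncomputable def f_mm_213_a : ℕ → ℕ → ℕ → ℕ → Bool := onCell 0 420477299 1610612736 536870912 1046898278 26843546
    (rowFX 0 false false false .pnn 2 1 3 (qsf 0 420477299 1610612736 536870912 1) ndF1q2a ndF3q3 pcF1 Cut.none Ext.none)

def k0_mm_213_a : ∃ t, chk3 f_mm_213_a t 1 1 1 = true :=
  ⟨(l 3), by decide +kernel⟩

theorem c_mm_213_a : CertFX 0 420477299 1610612736 536870912 1046898278 26843546 false false false .pnn 2 1 3
    ndF1q2a ndF3q3 pcF1 Cut.none Ext.none :=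
  certFX0 (fam := false) (s1 := false) (s2 := false) (a := 2) (b := 1) (c := 3) (cn := .pnn) (n1 := ndF1q2a) (n2 := ndF3q3) (pc := pcF1) (cut := Cut.none) (xt := Ext.none) (P1 := 0) (W1 := 420477299) (P2 := 1610612736) (W2 := 536870912) (P3 := 1046898278) (W3 := 26843546)
    rfl k0_mm_213_a

noncomputable def f_mm_213_b : ℕ → ℕ → ℕ → ℕ → Bool := onCell 1239849684 370763052 1610612736 536870912 1046898278 26843546
    (rowFX 0 false false false .pnn 2 1 3 (qsf 1239849684 370763052 1610612736 536870912 1) ndF1q2b ndF3q3 pcF1 Cut.none Ext.none)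

def k0_mm_213_b : ∃ t, chk3 f_mm_213_b t 1 1 1 = true :=
  ⟨(l 3), by decide +kernel⟩

theorem c_mm_213_b : CertFX 1239849684 370763052 1610612736 536870912 1046898278 26843546 false false false .pnn 2 1 3
    ndF1q2b ndF3q3 pcF1 Cut.none Ext.none :=
  certFX0 (fam := false) (s1 := false) (s2 := false) (a := 2) (b := 1) (c := 3) (cn := .pnn) (n1 := ndF1q2b) (n2 := ndF3q3) (pc := pcF1) (cut := Cut.none) (xt := Ext.none) (P1 := 1239849684) (W1 := 370763052) (P2 := 1610612736) (W2 := 536870912) (P3 := 1046898278) (W3 := 26843546)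
    rfl k0_mm_213_b

noncomputable def f_mm_303 : ℕ → ℕ → ℕ → ℕ → Bool := onCell 1610612736 469762048 1610612736 536870912 1046898278 26843546
    (rowFX 0 false false false .npn 3 0 3 (qsf 1610612736 469762048 1610612736 536870912 0) ndF1q3 ndF3q3 pcF0 Cut.none Ext.none)

def k0_mm_303 : ∃ t, chk3 f_mm_303 t 1 1 1 = true :=
  ⟨(l 3), by decide +kernel⟩

theorem c_mm_303 : CertFX 1610612736 469762048 1610612736 536870912 1046898278 26843546 false false false .npn 3 0 3
    ndF1q3 ndF3q3 pcF0 Cut.none Ext.none :=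
  certFX0 (fam := false) (s1 := false) (s2 := false) (a := 3) (b := 0) (c := 3) (cn := .npn) (n1 := ndF1q3) (n2 := ndF3q3) (pc := pcF0) (cut := Cut.none) (xt := Ext.none) (P1 := 1610612736) (W1 := 469762048) (P2 := 1610612736) (W2 := 536870912) (P3 := 1046898278) (W3 := 26843546)
    rfl k0_mm_303

noncomputable def f_mm_313 : ℕ → ℕ → ℕ → ℕ → Bool := onCell 1610612736 469762048 1610612736 536870912 1046898278 26843546
    (rowFX 0 false false false .dn 3 1 3 (qsf 1610612736 469762048 1610612736 536870912 1) ndF1q3 ndF3q3 pcF1 Cut.none Ext.none)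

def k0_mm_313 : ∃ t, chk3 f_mm_313 t 1 1 1 = true :=
  ⟨(l 3), by decide +kernel⟩

theorem c_mm_313 : CertFX 1610612736 469762048 1610612736 536870912 1046898278 26843546 false false false .dn 3 1 3
    ndF1q3 ndF3q3 pcF1 Cut.none Ext.none :=
  certFX0 (fam := false) (s1 := false) (s2 := false) (a := 3) (b := 1) (c := 3) (cn := .dn) (n1 := ndF1q3) (n2 := ndF3q3) (pc := pcF1) (cut := Cut.none) (xt := Ext.none) (P1 := 1610612736) (W1 := 469762048) (P2 := 1610612736) (W2 := 536870912) (P3 := 1046898278) (W3 := 26843546)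
    rfl k0_mm_313

end Pool.Agent.Strip051.G.IE1.Tab.C.FB13

namespace Pool.Agent.Strip051.G.IE1.Tab.C.FB15

open Pool.Agent.Strip051.PB Pool.Agent.Strip051.PB.T
open Pool.Agent.Strip051.G.IE1.Tab

noncomputable def f_pp_001 : ℕ → ℕ → ℕ → ℕ → Bool := onCell 67108864 469762048 536870912 469762048 1046898278 26843546
    (rowFX 0 false true true .up 0 0 1 (qsf 67108864 469762048 536870912 469762048 0) ndF1q0 ndF5q1 pcF0 Cut.none Ext.none)

def k0_pp_001 : ∃ t, chk3 f_pp_001 t 1 1 1 = true :=
  ⟨(l 3), by decide +kernel⟩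

theorem c_pp_001 : CertFX 67108864 469762048 536870912 469762048 1046898278 26843546 false true true .up 0 0 1
    ndF1q0 ndF5q1 pcF0 Cut.none Ext.none :=
  certFX0 (fam := false) (s1 := true) (s2 := true) (a := 0) (b := 0) (c := 1) (cn := .up) (n1 := ndF1q0) (n2 := ndF5q1) (pc := pcF0) (cut := Cut.none) (xt := Ext.none) (P1 := 67108864) (W1 := 469762048) (P2 := 536870912) (W2 := 469762048) (P3 := 1046898278) (W3 := 26843546)
    rfl k0_pp_001

noncomputable def f_pp_011 : ℕ → ℕ → ℕ → ℕ → Bool := onCell 67108864 469762048 536870912 469762048 1046898278 26843546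
    (rowFX 0 false true true .pnn 0 1 1 (qsf 67108864 469762048 536870912 469762048 1) ndF1q0 ndF5q1 pcF1 Cut.none Ext.none)

def k0_pp_011 : ∃ t, chk3 f_pp_011 t 1 1 1 = true :=
  ⟨(l 3), by decide +kernel⟩

theorem c_pp_011 : CertFX 67108864 469762048 536870912 469762048 1046898278 26843546 false true true .pnn 0 1 1
    ndF1q0 ndF5q1 pcF1 Cut.none Ext.none :=
  certFX0 (fam := false) (s1 := true) (s2 := true) (a := 0) (b := 1) (c := 1) (cn := .pnn) (n1 := ndF1q0) (n2 := ndF5q1) (pc := pcF1) (cut := Cut.none) (xt := Ext.none) (P1 := 67108864) (W1 := 469762048) (P2 := 536870912) (W2 := 469762048) (P3 := 1046898278) (W3 := 26843546)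
    rfl k0_pp_011

noncomputable def f_pp_012 : ℕ → ℕ → ℕ → ℕ → Bool := onCell 536870912 536870912 1073741824 536870912 1046898278 26843546
    (rowFX 2 false true true .pnp 0 1 2 (qsf 67108864 469762048 1073741824 536870912 1) ndF1q0 ndF5q2 pcF1 Cut.none Ext.none)

def k0_pp_012 : ∃ t, chk3 f_pp_012 t 1 1 1 = true :=
  ⟨(a (l 3) (b (l 3) (l 3))), by decide +kernel⟩

theorem c_pp_012 : CertFX 67108864 469762048 1073741824 536870912 1046898278 26843546 false true true .pnp 0 1 2
    ndF1q0 ndF5q2 pcF1 Cut.none Ext.none :=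
  certFX2 (fam := false) (s1 := true) (s2 := true) (a := 0) (b := 1) (c := 2) (cn := .pnp) (n1 := ndF1q0) (n2 := ndF5q2) (pc := pcF1) (cut := Cut.none) (xt := Ext.none) (P1 := 67108864) (W1 := 469762048) (P2 := 1073741824) (W2 := 536870912) (P3 := 1046898278) (W3 := 26843546)
    rfl (fun _ => rfl) k0_pp_012

noncomputable def f_pp_022 : ℕ → ℕ → ℕ → ℕ → Bool := onCell 67108864 469762048 1073741824 536870912 1046898278 26843546
    (rowFX 1 false true true .pp 0 2 2 (qsf 67108864 469762048 1073741824 536870912 2) ndF1q0 ndF5q2 pcF2 Cut.none Ext.none)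

def k0_pp_022 : ∃ t, chk3 f_pp_022 t 4 8 1 = true :=
  ⟨(b (l 3) (b (l 3) (a (a (l 3) (b (l 3) (a (b (l 3) (c (l 437178229911) (l 501602622839))) (b (b (l 3) (l 522540999943)) (c (l 15995224) (l 15765464)))))) (b (b (b (l 3) (a (l 3) (c (l 790977554199) (a (l 3) (a (l 3) (c (l 16635088) (a (l 16598248) (l 16611800)))))))) (a (a (l 3) (c (l 16255808) (l 16117272))) (c (a (l 16427504) (a (l 16638272) (l 16638712))) (a (c (l 16423264) (l 16336592)) (a (c (l 16637504) (l 16553216)) (a (b (l 16602608) (l 16590112)) (b (l 16639592) (l 16631856)))))))) (a (c (b (l 16002312) (l 16154056)) (a (b (l 15905048) (l 16126912)) (b (l 290613717191) (l 16326936)))) (c (b (a (l 16556688) (l 16590192)) (a (l 16525408) (c (l 16576856) (l 16575568)))) (b (a (c (l 16554904) (l 16469952)) (c (l 16610080) (a (a (l 16607880) (l 16539712)) (l 16608112)))) (a (c (l 16587584) (c (l 16545248) (l 16482072))) (c (l 16574160) (a (b (l 16549776) (l 16533016)) (l 16597344))))))))))), by decide +kernel⟩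

def k1_pp_022 : ∃ t, chk3 f_pp_022 t 5 8 1 = true :=
  ⟨(b (l 3) (b (b (a (l 3) (c (c (l 16098672) (b (l 16063536) (l 16107368))) (c (b (l 16052512) (l 16097704)) (b (l 524152217399) (l 521467951111))))) (a (a (a (l 3) (b (l 3) (c (l 16434312) (l 320678830679)))) (c (c (l 16246824) (l 16090376)) (c (a (l 16234480) (l 259474987127)) (b (b (l 3) (l 489255834471)) (a (l 16312856) (l 16212168)))))) (c (b (c (l 16156272) (l 16142416)) (c (l 16195576) (l 16182984))) (b (c (l 16133480) (a (l 16117472) (l 16125768))) (c (l 16154136) (a (b (l 16173672) (l 16184240)) (l 16165056))))))) (a (a (b (c (b (a (l 16584680) (l 16471240)) (l 16508104)) (b (a (c (l 16582688) (b (l 451675646007) (l 16571808))) (c (l 16466096) (l 16462968))) (c (l 16504680) (l 16397960)))) (c (b (l 16458368) (l 16472048)) (b (c (l 16518304) (a (l 16577336) (l 16499008))) (c (l 16553576) (l 16468224))))) (b (b (c (a (l 16356504) (l 16253744)) (a (l 16345480) (c (l 16242192) (l 16235432)))) (c (c (l 16330544) (l 16322912))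 (c (l 16254384) (a (l 16362592) (l 16260728))))) (a (a (b (l 16414552) (l 16427336)) (b (l 16357328) (l 16370632))) (c (l 16298304) (l 16285224))))) (b (c (b (c (l 16186584) (l 16217320)) (l 16230560)) (b (a (b (l 16201880) (l 16214752)) (l 16180864)) (l 16214392))) (c (c (l 16255736) (l 16247296)) (c (l 16240456) (l 16233624))))))), by decide +kernel⟩

def k2_pp_022 : ∃ t, chk3 f_pp_022 t 3 8 1 = true :=
  ⟨(b (b (a (l 3) (c (b (l 1044379536663) (a (l 1037400157847) (l 15810200))) (b (c (l 868285780551) (b (l 3) (l 738899944647))) (c (a (l 877949521751) (l 15853288)) (a (l 15838936) (l 15834408)))))) (c (b (a (a (l 3) (c (l 1145848332167) (l 1046527198839))) (a (c (l 15947184) (l 15892600)) (l 15839816))) (a (a (c (b (l 513951497031) (l 634747578743)) (l 588039763703)) (c (l 15933032) (l 16001152))) (c (l 15910864) (l 15867704)))) (a (a (c (l 574080933623) (l 674475807879)) (c (b (l 942911172807) (l 15962560)) (l 344836935351))) (a (c (b (l 15871880) (l 15972672)) (b (l 15897384)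 (l 15961072))) (c (l 15739664) (l 15892088)))))) (b (a (c (a (a (b (b (l 16070312) (l 16083680)) (b (l 16078544) (l 16155240))) (b (b (l 16063144) (l 16096272)) (l 16123736))) (b (a (l 16063440) (l 16042640)) (b (l 16081152) (l 16100456)))) (a (b (a (b (l 16005952) (c (l 16086344) (l 16077544))) (b (l 16037456) (l 16071352))) (b (a (l 16120104) (l 16086952)) (l 16121128))) (b (a (l 16035640) (l 16005336)) (b (l 16050152) (l 16073184))))) (a (b (c (l 16036312) (l 15995200)) (l 15969952)) (c (l 16018216) (l 15971872)))) (a (a (b (c (a (l 16183848) (l 16155424)) (b (l 16139104) (l 16156472))) (c (b (l 16191024) (l 16207096)) (b (l 16174328) (l 16191896)))) (b (c (a (l 16135744) (l 16109080)) (l 16102456)) (l 16136560))) (a (c (a (l 16096712) (l 16069032)) (a (l 16072480) (l 16037992))) (a (c (l 16046160) (l 16016528)) (l 2)))))), by decide +kernel⟩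

def k3_pp_022 : ∃ t, chk3 f_pp_022 t 8 18 1 = true :=
  ⟨(b (a (b (b (a (b (l 3) (c (a (l 15727208) (c (l 15604920) (l 15589896))) (a (l 15701344) (a (l 15590072) (l 15497896))))) (c (c (l 15574776) (l 15644200)) (b (a (l 15451704) (l 15647624)) (l 15653696)))) (c (a (a (l 15711272) (c (a (l 15632920) (l 15643664)) (l 15631424))) (l 15771440)) (a (a (l 15685008) (a (c (l 15603664) (l 15588992)) (l 15607304))) (l 15746008)))) (b (c (a (a (c (a (l 15730472) (l 15690280)) (l 15702928)) (l 15730880)) (l 15895408)) (a (a (a (l 15697648) (c (l 15662784) (l 15648992))) (l 15704800)) (l 15852504))) (c (a (a (c (a (l 15752000) (l 15780496)) (l 15758720)) (l 15855656)) (c (l 16021040) (l 16011728))) (a (a (c (l 15746104) (a (l 15713568) (l 15743056))) (l 15833088)) (c (l 16002376) (l 15993024)))))) (a (c (b (b (l 15824336) (l 15963648)) (c (b (l 16108640) (l 16218952)) (l 16095072))) (b (b (l 15696128) (l 15901720)) (c (l 15961768) (b (l 16083752) (l 16198920))))) (b (c (b (l 16107672)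 (l 16223376)) (b (l 16069920) (l 16105104))) (b (b (c (l 16313240) (l 16281496)) (l 16339728)) (l 16311208))))) (b (a (c (a (b (c (l 15926072) (l 15916600)) (l 16020368)) (l 16170216)) (a (b (a (l 15761456) (l 15951064)) (l 16003760)) (l 16156240))) (c (a (l 16278672) (l 16475872)) (a (l 16290768) (l 16431528)))) (a (c (a (l 16120224) (l 16313424)) (a (l 16128792) (l 16326048))) (c (a (l 16394176) (l 16480224)) (a (l 16411936) (l 16455912)))))), by decide +kernel⟩

def k4_pp_022 : ∃ t, chk3 f_pp_022 t 9 18 1 = true :=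
  ⟨(b (b (c (a (b (a (l 16352512) (l 16457856)) (a (l 16382816) (l 16572096))) (a (b (a (l 16574160) (l 16500720)) (l 16450040)) (l 16550488))) (a (a (b (l 16279872) (c (l 16420064) (l 16374992))) (b (c (l 16518816) (l 16412664)) (l 16466288))) (a (b (a (b (l 16557576) (l 16544600)) (c (l 16496848) (a (l 16496568) (l 16482520)))) (a (l 16468808) (l 16447096))) (l 16525816)))) (a (a (b (l 16423096) (l 16486664)) (b (l 16385168) (c (l 16442288) (l 16393464)))) (c (a (l 16398648) (l 16533352)) (a (a (b (l 16398816) (l 16365536)) (l 16428784)) (l 16529104))))) (a (c (a (b (l 16448240) (a (l 16383656) (l 16296520))) (b (a (l 16362752) (l 16332744)) (l 16300568))) (a (b (l 16422632) (a (l 16375336) (l 16285560))) (b (a (l 16332616) (l 16322664)) (l 16289664)))) (c (b (l 16463976) (l 16468056)) (b (l 16457712) (l 16420128))))), by decide +kernel⟩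

def k5_pp_022 : ∃ t, chk3 f_pp_022 t 5 18 1 = true :=
  ⟨(b (a (b (c (a (l 16596096) (l 16374088)) (a (l 16488872) (l 16322184))) (c (l 16287672) (a (l 16587912) (l 16377744)))) (b (c (a (l 16289032) (l 16254992)) (a (l 16276352) (l 16241424))) (c (a (l 16295336) (l 16261600)) (a (l 16282824) (l 16248208))))) (a (c (b (a (l 16604896) (l 16384776)) (a (l 16596880) (l 16374400))) (a (b (l 16602904) (l 16531808)) (b (l 16312176) (l 16364448)))) (b (c (l 16275424) (l 16262392)) (l 16250944)))), by decide +kernel⟩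

def k6_pp_022 : ∃ t, chk3 f_pp_022 t 2 19 1 = true :=
  ⟨(a (a (b (a (b (c (a (l 16191048) (l 16357520)) (a (l 16225984) (l 16375600))) (c (a (l 16387496) (l 16483576)) (a (l 16428048) (l 16501496)))) (b (c (a (l 16394040) (l 16324200)) (a (l 16454592) (l 16336608))) (a (c (l 16327912) (l 16361728)) (a (l 16223104) (b (l 16177288) (l 16115504)))))) (b (a (c (a (l 16405656) (l 16252136)) (a (l 16421040) (l 16305632))) (a (c (b (l 16215616) (l 16116808)) (l 16026928)) (a (b (l 16084928) (l 16044264)) (l 16090904)))) (a (c (a (l 16084688) (l 16118416)) (a (l 16135528) (l 16103176))) (a (c (a (l 16029112) (l 16018200)) (l 16014504)) (l 16074288))))) (b (b (a (c (a (b (l 16249776) (l 16217440)) (l 16302928)) (a (b (l 16237576) (l 16204352)) (l 16292248))) (c (a (l 16406024) (l 16532496)) (a (l 16398360) (l 16507656)))) (a (a (a (l 16158080) (l 16207464)) (l 16284776)) (l 16463952))) (a (l 16238664) (l 16412936)))) (a (b (b (a (l 16576312) (l 16351624)) (l 16260792)) (a (l 16523192)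 (l 16290072))) (b (b (l 16229712) (l 16205056)) (l 16142088)))), by decide +kernel⟩

def k7_pp_022 : ∃ t, chk3 f_pp_022 t 3 9 1 = true :=
  ⟨(a (b (b (a (b (c (l 16216040) (l 16201464)) (l 16198648)) (l 16135024)) (a (l 16172072) (a (l 16107464) (c (l 16065360) (l 15951280))))) (c (b (a (l 16123144) (a (l 16035464) (l 15995112))) (a (a (l 16050960) (l 15970224)) (a (l 15921248) (l 15812696)))) (b (a (l 16106152) (b (c (l 16014632) (l 16010920)) (c (l 15871384) (l 15964752)))) (a (c (l 15797512) (l 15862256)) (a (c (l 15894520) (l 15901576)) (l 15828752)))))) (a (a (b (b (c (l 16087848) (l 16060744)) (c (l 16031744) (l 15990712))) (c (c (l 15864240) (b (l 15928048) (l 15776464))) (b (l 15727968) (l 15797488)))) (b (b (c (l 16061920) (l 16043176)) (c (l 15958000) (l 15966552))) (l 2))) (l 2))), by decide +kernel⟩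

def k8_pp_022 : ∃ t, chk3 f_pp_022 t 2 5 1 = true :=
  ⟨(b (a (b (a (b (a (a (c (b (l 16085680) (l 15945744)) (l 15955760)) (c (b (l 15969184) (a (l 15870272) (l 15887416))) (b (l 15949688) (l 15867288)))) (c (b (a (l 15985840) (l 16109712)) (l 16082368)) (b (l 16011512) (l 16066216)))) (b (a (a (c (a (l 15859040) (l 15818592)) (l 15816992)) (c (l 15891352) (l 15870080))) (c (l 16137456) (l 16123392))) (b (a (c (a (a (l 15790360) (l 15805920)) (l 15941536)) (a (l 15779512) (l 15922104))) (c (l 16186264) (l 16174104))) (a (b (c (a (l 15761928) (l 15969248)) (l 15862872)) (c (a (a (a (a (l 15755800) (l 15754504)) (l 15782280)) (l 15850712)) (l 15985088)) (l 15686024))) (b (c (l 16206968) (l 16195648)) (c (l 16176208) (l 16207304))))))) (b (a (l 16294504) (l 16509096)) (b (l 16248640) (b (l 16370072) (b (l 16442160) (l 16277936)))))) (a (a (c (a (l 15598848) (l 15901280)) (l 15786720)) (c (l 16130080) (l 16116264))) (a (l 16329400) (l 16536440)))) (b (a (b (a (l 16412648) (l 16180600))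 (b (l 16082464) (b (l 16133864) (b (l 16134464) (l 16139392))))) (b (l 16023560) (b (l 15921368) (b (l 15879616) (b (l 15899208) (l 15922720)))))) (a (l 16302728) (c (b (a (l 16054032) (l 16001312)) (l 16065112)) (b (l 15992528) (l 16208024)))))) (b (a (a (a (c (l 15621216) (l 15589200)) (c (l 15933552) (l 15912792))) (a (l 16127840) (l 16337768))) (a (a (l 16585264) (b (b (l 16444744) (l 16526704)) (l 16578640))) (c (b (l 16344296) (l 16639016)) (b (l 16428864) (l 16643048))))) (a (a (c (a (l 15508800) (l 15819360)) (l 15409288)) (c (l 16065520) (l 16048672))) (c (a (a (l 16481592) (l 16711376)) (l 16776840)) (a (l 16457704) (l 16776840)))))), by decide +kernel⟩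

def k9_pp_022 : ∃ t, chk3 f_pp_022 t 3 5 1 = true :=
  ⟨(a (b (b (b (c (a (a (l 15904928) (l 15850104)) (c (l 15737416) (l 15600208))) (a (c (l 15724840) (l 15612544)) (c (l 15698560) (l 15708488)))) (a (b (c (a (l 15815904) (l 15744200)) (a (l 15774920) (l 15706552))) (b (c (a (l 15790536) (l 15728064)) (l 15660560)) (b (c (l 15794128) (l 15782384)) (c (l 15767832) (l 15817808))))) (b (c (c (l 15643008) (l 15620976)) (l 15654472)) (c (c (l 15661432) (l 15667152)) (l 15680864))))) (c (a (b (c (l 15945704) (l 15835080)) (l 16121480)) (b (l 15668880) (l 2))) (a (b (l 15938952) (l 16156008)) (l 15876032)))) (a (b (c (b (l 16391432) (l 16634072)) (l 16513432)) (c (l 16776816) (l 16776784))) (l 2))) (l 2)), by decide +kernel⟩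

def k10_pp_022 : ∃ t, chk3 f_pp_022 t 1 3 1 = true :=
  ⟨(a (b (b (a (a (c (a (l 15403768) (l 15819184)) (a (l 15409752) (l 15794272))) (c (c (l 16132464) (l 16124040)) (l 16111400))) (a (c (b (l 16598504) (l 16598504)) (l 16593864)) (c (l 16777216) (l 16777216)))) (a (a (c (b (a (l 15508624) (l 15819184)) (l 15596728)) (b (l 15430072) (l 15618816))) (b (c (l 16128256) (l 16111400)) (l 16119824))) (b (a (c (l 16598504) (l 16593864)) (l 2)) (l 2)))) (a (a (c (b (a (l 15508624) (l 15819184)) (l 63448692455)) (a (l 143442168279) (l 110156919799))) (b (l 16056912) (l 2))) (l 2))) (l 2)), by decide +kernel⟩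

theorem s11_pp_022 : ∃ t, chk3 f_pp_022 t 1 5 1 = true := ex3_a k8_pp_022 k9_pp_022

theorem s12_pp_022 : ∃ t, chk3 f_pp_022 t 4 18 1 = true := ex3_a k3_pp_022 k4_pp_022

theorem s13_pp_022 : ∃ t, chk3 f_pp_022 t 2 18 1 = true := ex3_a s12_pp_022 k5_pp_022

theorem s14_pp_022 : ∃ t, chk3 f_pp_022 t 2 9 1 = true := ex3_b s13_pp_022 k6_pp_022

theorem s15_pp_022 : ∃ t, chk3 f_pp_022 t 1 9 1 = true := ex3_a s14_pp_022 k7_pp_022

theorem s16_pp_022 : ∃ t, chk3 f_pp_022 t 2 8 1 = true := ex3_a k0_pp_022 k1_pp_022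

theorem s17_pp_022 : ∃ t, chk3 f_pp_022 t 1 8 1 = true := ex3_a s16_pp_022 k2_pp_022

theorem s18_pp_022 : ∃ t, chk3 f_pp_022 t 1 4 1 = true := ex3_b s17_pp_022 s15_pp_022

theorem s19_pp_022 : ∃ t, chk3 f_pp_022 t 1 2 1 = true := ex3_b s18_pp_022 s11_pp_022

theorem s20_pp_022 : ∃ t, chk3 f_pp_022 t 1 1 1 = true := ex3_b s19_pp_022 k10_pp_022

theorem c_pp_022 : CertFX 67108864 469762048 1073741824 536870912 1046898278 26843546 false true true .pp 0 2 2
    ndF1q0 ndF5q2 pcF2 Cut.none Ext.none :=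
  certFX1 (fam := false) (s1 := true) (s2 := true) (a := 0) (b := 2) (c := 2) (cn := .pp) (n1 := ndF1q0) (n2 := ndF5q2) (pc := pcF2) (cut := Cut.none) (xt := Ext.none) (P1 := 67108864) (W1 := 469762048) (P2 := 1073741824) (W2 := 536870912) (P3 := 1046898278) (W3 := 26843546)
    rfl (fun _ => rfl) s20_pp_022

noncomputable def f_pp_023 : ℕ → ℕ → ℕ → ℕ → Bool := onCell 1073741824 536870912 0 1230186008 1046898278 26843546
    (rowFX 2 false true true .up 0 2 3 (qsf 67108864 469762048 0 1230186008 2) ndF1q0 ndF5q3 pcF2 Cut.none Ext.none)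

def k0_pp_023 : ∃ t, chk3 f_pp_023 t 1 2 1 = true :=
  ⟨(a (l 2) (a (l 2) (b (l 454293586471) (a (l 16743472) (l 16743472))))), by decide +kernel⟩

def k1_pp_023 : ∃ t, chk3 f_pp_023 t 1 6 1 = true :=
  ⟨(a (a (l 2) (a (l 2) (a (l 2) (l 16776720)))) (a (l 16777184) (l 16777184))), by decide +kernel⟩

def k2_pp_023 : ∃ t, chk3 f_pp_023 t 1 14 1 = true :=
  ⟨(a (a (l 2) (a (b (a (l 2) (c (a (l 2) (l 15848752)) (l 15534512))) (a (b (l 2) (a (l 15273864) (a (l 15247264) (l 15364328)))) (c (l 15719624) (l 15735184)))) (a (b (c (a (l 16215368) (l 16574992)) (l 16388256)) (c (l 16422208) (l 16412912))) (c (a (l 16776152) (l 16777216)) (l 16776680))))) (a (b (l 16777216) (a (c (l 16777216) (l 16777216)) (l 16777216))) (a (l 16761336) (b (l 16737344) (b (l 16604184) (l 16335576)))))), by decide +kernel⟩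

def k3_pp_023 : ∃ t, chk3 f_pp_023 t 1 30 1 = true :=
  ⟨(a (a (a (l 2) (a (b (l 2) (c (c (l 15909760) (l 15938600)) (l 15890000))) (c (a (c (b (l 15713600) (l 15765928)) (l 15605952)) (c (b (l 15560936) (l 15636264)) (l 15630056))) (l 15626000)))) (a (a (c (b (a (l 15383584) (l 15399344)) (c (a (l 15502424) (a (l 15457864) (l 15533320))) (l 15466816))) (a (l 15395728) (l 15403768))) (c (l 15837728) (l 15834848))) (a (c (l 16457240) (l 16448928)) (l 16776744)))) (a (a (c (l 16777216) (l 16777216)) (a (l 16777216) (l 16748064))) (a (b (l 16631200) (a (l 16554528) (l 16278208))) (b (l 16155920) (a (l 16023688) (l 15549096)))))), by decide +kernel⟩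

def k4_pp_023 : ∃ t, chk3 f_pp_023 t 1 31 1 = true :=
  ⟨(a (a (a (b (a (l 2) (c (c (l 16027400) (l 15894376)) (l 15977376))) (a (c (a (l 15657448) (l 15962128)) (a (a (c (l 15786520) (l 246052171431)) (c (l 15840312) (l 15824872))) (c (l 15905592) (l 15880048)))) (a (c (l 16006680) (l 15957280)) (c (l 16048712) (l 16023632))))) (a (c (c (l 15972216) (l 15775072)) (c (l 15962784) (l 15967832))) (c (c (b (l 15765400) (l 15857320)) (a (l 15678712) (l 15699408))) (a (c (l 15804848) (l 15856800)) (b (l 15677368) (l 15804184)))))) (c (a (a (c (a (b (l 15570496) (l 15678896)) (b (a (l 15530248) (l 15598136)) (l 15619488))) (a (l 15423944) (a (l 15551688) (l 15563696)))) (a (c (l 15695920) (l 15848152)) (l 15964376))) (a (a (l 16332944) (l 16631408)) (l 16776824))) (a (a (a (l 15412408) (a (l 15567368) (l 15617224))) (l 15871336)) (a (l 16487280) (l 16776792))))) (a (a (a (l 16777152) (b (l 16777216) (l 16711344))) (a (b (l 16726080) (a (l 16583512) (l 16444400))) (b (l 16542216) (l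 16239176)))) (a (c (b (l 16070664) (a (l 15992880) (l 15710952))) (b (l 16054488) (a (l 15972488) (l 15672768)))) (b (c (a (l 15756408) (l 15277520)) (a (l 15729768) (l 15390928))) (a (c (l 15240112) (l 15344120)) (c (l 165922738759) (b (l 15107928) (l 1)))))))), by decide +kernel⟩

theorem s5_pp_023 : ∃ t, chk3 f_pp_023 t 1 15 1 = true := ex3_b k3_pp_023 k4_pp_023

theorem s6_pp_023 : ∃ t, chk3 f_pp_023 t 1 7 1 = true := ex3_b k2_pp_023 s5_pp_023

theorem s7_pp_023 : ∃ t, chk3 f_pp_023 t 1 3 1 = true := ex3_b k1_pp_023 s6_pp_023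

theorem s8_pp_023 : ∃ t, chk3 f_pp_023 t 1 1 1 = true := ex3_b k0_pp_023 s7_pp_023

theorem c_pp_023 : CertFX 67108864 469762048 0 1230186008 1046898278 26843546 false true true .up 0 2 3
    ndF1q0 ndF5q3 pcF2 Cut.none Ext.none :=
  certFX2 (fam := false) (s1 := true) (s2 := true) (a := 0) (b := 2) (c := 3) (cn := .up) (n1 := ndF1q0) (n2 := ndF5q3) (pc := pcF2) (cut := Cut.none) (xt := Ext.none) (P1 := 67108864) (W1 := 469762048) (P2 := 0) (W2 := 1230186008) (P3 := 1046898278) (W3 := 26843546)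
    rfl (fun _ => rfl) s8_pp_023

noncomputable def f_pp_033 : ℕ → ℕ → ℕ → ℕ → Bool := onCell 67108864 469762048 0 1230186008 1046898278 26843546
    (rowFX 0 false true true .pnn 0 3 3 (qsf 67108864 469762048 0 1230186008 3) ndF1q0 ndF5q3 pcF3 Cut.none Ext.none)

def k0_pp_033 : ∃ t, chk3 f_pp_033 t 1 1 1 = true :=
  ⟨(b (a (b (l 4) (b (a (l 4) (b (a (l 4) (a (l 4) (l 16752848))) (a (a (l 4) (a (l 4) (l 16717112))) (a (l 16731416) (l 16731416))))) (b (a (l 4) (a (c (a (l 16449416) (l 16674152)) (a (l 16433928) (l 16668168))) (l 16734352))) (a (a (l 4) (a (c (l 16015896) (l 218739504599)) (c (l 16225880) (l 16210264)))) (a (c (l 16592184) (l 16523376)) (l 16769224)))))) (b (b (a (a (l 4) (l 16764712)) (a (l 16764712) (l 16764712))) (a (a (c (l 16767080) (l 16753712)) (l 16762760)) (l 16762760))) (a (b (a (c (l 16743080) (l 16729256)) (l 16738040)) (a (b (l 16734352) (l 16769224)) (l 16750656))) (b (a (l 16738040) (l 16738040)) (l 16750656))))) (b (a (a (a (a (b (b (b (l 4) (c (l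 15508592) (l 15472624))) (c (l 15508568) (b (l 15472592) (l 15472608)))) (b (c (l 15508600) (l 15472640)) (b (l 15494192) (l 15494192)))) (b (b (c (l 15819168) (b (l 15794264) (l 15794232))) (c (l 15819128) (l 15794208))) (b (c (l 15819160) (l 15794248)) (c (l 15819184) (l 15794272))))) (b (b (c (l 16107256) (a (l 16002120) (l 16217712))) (c (l 16128192) (l 16090352))) (b (a (l 16011928) (l 16224792)) (l 16119824)))) (b (a (b (c (l 16598480) (l 16593832)) (a (l 16477728) (l 16710744))) (b (l 16777192) (l 16777144))) (a (b (l 16596152) (l 16596184)) (l 16777200)))) (b (a (b (l 16777192) (l 16777144)) (l 1)) (l 16777200))) (a (a (b (a (c (a (l 15508624) (l 15819184)) (a (l 15472672) (l 15794272))) (b (l 16119824) (l 16119824))) (a (a (b (l 15494192) (c (l 15508624) (l 15472672))) (b (l 15806856) (l 1))) (b (a (l 16011960) (l 1)) (l 1)))) (b (a (l 16596184) (l 16777216)) (l 1))) (l 1)))), by decide +kernel⟩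

theorem c_pp_033 : CertFX 67108864 469762048 0 1230186008 1046898278 26843546 false true true .pnn 0 3 3
    ndF1q0 ndF5q3 pcF3 Cut.none Ext.none :=
  certFX0 (fam := false) (s1 := true) (s2 := true) (a := 0) (b := 3) (c := 3) (cn := .pnn) (n1 := ndF1q0) (n2 := ndF5q3) (pc := pcF3) (cut := Cut.none) (xt := Ext.none) (P1 := 67108864) (W1 := 469762048) (P2 := 0) (W2 := 1230186008) (P3 := 1046898278) (W3 := 26843546)
    rfl k0_pp_033

noncomputable def f_pp_101 : ℕ → ℕ → ℕ → ℕ → Bool := onCell 536870912 536870912 536870912 469762048 1046898278 26843546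
    (rowFX 0 false true true .npn 1 0 1 (qsf 536870912 536870912 536870912 469762048 0) ndF1q1 ndF5q1 pcF0 Cut.none Ext.none)

def k0_pp_101 : ∃ t, chk3 f_pp_101 t 1 1 1 = true :=
  ⟨(l 3), by decide +kernel⟩

theorem c_pp_101 : CertFX 536870912 536870912 536870912 469762048 1046898278 26843546 false true true .npn 1 0 1
    ndF1q1 ndF5q1 pcF0 Cut.none Ext.none :=
  certFX0 (fam := false) (s1 := true) (s2 := true) (a := 1) (b := 0) (c := 1) (cn := .npn) (n1 := ndF1q1) (n2 := ndF5q1) (pc := pcF0) (cut := Cut.none) (xt := Ext.none) (P1 := 536870912) (W1 := 536870912) (P2 := 536870912) (W2 := 469762048) (P3 := 1046898278) (W3 := 26843546)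
    rfl k0_pp_101

noncomputable def f_pp_102 : ℕ → ℕ → ℕ → ℕ → Bool := onCell 536870912 536870912 0 536870912 1046898278 26843546
    (rowFX 1 false true true .npp 1 0 2 (qsf 536870912 536870912 1073741824 536870912 0) ndF1q1 ndF5q2 pcF0 Cut.none Ext.none)

def k0_pp_102 : ∃ t, chk3 f_pp_102 t 1 1 1 = true :=
  ⟨(l 3), by decide +kernel⟩

theorem c_pp_102 : CertFX 536870912 536870912 1073741824 536870912 1046898278 26843546 false true true .npp 1 0 2
    ndF1q1 ndF5q2 pcF0 Cut.none Ext.none :=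
  certFX1 (fam := false) (s1 := true) (s2 := true) (a := 1) (b := 0) (c := 2) (cn := .npp) (n1 := ndF1q1) (n2 := ndF5q2) (pc := pcF0) (cut := Cut.none) (xt := Ext.none) (P1 := 536870912) (W1 := 536870912) (P2 := 1073741824) (W2 := 536870912) (P3 := 1046898278) (W3 := 26843546)
    rfl (fun _ => rfl) k0_pp_102

noncomputable def f_pp_112 : ℕ → ℕ → ℕ → ℕ → Bool := onCell 536870912 536870912 1073741824 536870912 1046898278 26843546
    (rowFX 2 false true true .dn 1 1 2 (qsf 536870912 536870912 1073741824 536870912 1) ndF1q1 ndF5q2 pcF1 Cut.none Ext.none)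

def k0_pp_112 : ∃ t, chk3 f_pp_112 t 1 1 1 = true :=
  ⟨(a (l 3) (b (l 3) (l 3))), by decide +kernel⟩

theorem c_pp_112 : CertFX 536870912 536870912 1073741824 536870912 1046898278 26843546 false true true .dn 1 1 2
    ndF1q1 ndF5q2 pcF1 Cut.none Ext.none :=
  certFX2 (fam := false) (s1 := true) (s2 := true) (a := 1) (b := 1) (c := 2) (cn := .dn) (n1 := ndF1q1) (n2 := ndF5q2) (pc := pcF1) (cut := Cut.none) (xt := Ext.none) (P1 := 536870912) (W1 := 536870912) (P2 := 1073741824) (W2 := 536870912) (P3 := 1046898278) (W3 := 26843546)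
    rfl (fun _ => rfl) k0_pp_112

noncomputable def f_pp_113 : ℕ → ℕ → ℕ → ℕ → Bool := onCell 536870912 536870912 0 1230186008 1046898278 26843546
    (rowFX 2 false true true .nn 1 1 3 (qsf 536870912 536870912 0 1230186008 1) ndF1q1 ndF5q3 pcF1 Cut.none Ext.none)

def k0_pp_113 : ∃ t, chk3 f_pp_113 t 1 1 1 = true :=
  ⟨(b (a (l 2) (a (l 2) (a (b (l 2) (b (l 3) (l 3))) (b (a (l 2) (b (a (l 2) (c (l 16751552) (l 16746560))) (a (c (l 16723936) (l 15679544)) (c (l 16729160) (l 15734408))))) (a (b (a (b (l 2) (l 15564640)) (b (l 15692616) (l 15598216))) (a (b (l 15613944) (l 15714216)) (b (l 15608632) (l 15676568)))) (b (a (c (l 15885704) (l 15436000)) (c (l 15836216) (l 15227264))) (a (b (l 15613960) (l 15545280)) (c (l 15471112) (b (l 15537800) (l 15632016)))))))))) (a (b (l 3) (a (l 3) (l 3))) (a (b (l 3) (l 3)) (b (a (l 3) (a (b (a (l 15846760) (b (l 15793864) (l 152100378471))) (b (a (l 3) (l 16043544)) (l 100561423511))) (b (a (b (l 15788784) (c (l 15932104) (l 15919920))) (b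 (c (l 15814072) (l 15783000)) (c (l 15885800) (l 15878240)))) (a (c (l 15937152) (l 15929144)) (c (l 15855336) (l 15845848)))))) (a (l 3) (a (b (l 3) (l 3)) (b (a (c (l 15912152) (l 15902984)) (c (l 15823576) (l 15814800))) (b (a (l 3) (l 186459577031)) (c (l 809766767591) (l 1055116766743)))))))))), by decide +kernel⟩

theorem c_pp_113 : CertFX 536870912 536870912 0 1230186008 1046898278 26843546 false true true .nn 1 1 3
    ndF1q1 ndF5q3 pcF1 Cut.none Ext.none :=
  certFX2 (fam := false) (s1 := true) (s2 := true) (a := 1) (b := 1) (c := 3) (cn := .nn) (n1 := ndF1q1) (n2 := ndF5q3) (pc := pcF1) (cut := Cut.none) (xt := Ext.none) (P1 := 536870912) (W1 := 536870912) (P2 := 0) (W2 := 1230186008) (P3 := 1046898278) (W3 := 26843546)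
    rfl (fun _ => rfl) k0_pp_113

noncomputable def f_pp_123 : ℕ → ℕ → ℕ → ℕ → Bool := onCell 1073741824 536870912 0 1230186008 1046898278 26843546
    (rowFX 2 false true true .npn 1 2 3 (qsf 536870912 536870912 0 1230186008 2) ndF1q1 ndF5q3 pcF2 Cut.none Ext.none)

def k0_pp_123 : ∃ t, chk3 f_pp_123 t 4 2 1 = true :=
  ⟨(a (b (a (b (l 16520248) (l 16400856)) (b (l 16302728) (l 16117272))) (a (a (a (b (c (b (l 16412024) (l 16273840)) (b (l 16093088) (l 16078904))) (c (b (l 16197224) (l 16175728)) (b (l 16082144) (l 16111632)))) (b (b (l 16223512) (c (l 16243232) (l 16103160))) (c (b (l 16190512) (l 16170896)) (b (l 16101128) (l 16116960))))) (b (b (l 16161904) (c (l 16152712) (l 16055440))) (c (b (l 16111952) (l 16103144)) (b (l 16051128) (l 16067552))))) (b (l 15885192) (a (c (b (a (l 15990320) (l 15893032)) (c (l 15940064) (l 15928832))) (b (l 15906664) (l 15913368))) (b (l 15734656) (a (b (l 15772368) (l 15769272)) (l 15667400))))))) (b (b (l 15512016) (a (l 15682816) (l 15209968)))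 (b (a (l 15508240) (l 15144136)) (b (l 15292784) (l 15259800))))), by decide +kernel⟩

def k1_pp_123 : ∃ t, chk3 f_pp_123 t 8 3 1 = true :=
  ⟨(b (a (b (a (c (b (a (l 16220464) (l 16204944)) (l 16191856)) (b (a (l 16196088) (l 16177864)) (a (l 16185376) (l 16149448)))) (c (b (l 16117208) (l 16097424)) (b (l 16092368) (l 16064744)))) (c (a (b (l 16130864) (a (c (l 16044288) (l 16064776)) (l 16083760))) (l 16079848)) (a (c (l 16077856) (l 16058000)) (l 16014288)))) (b (c (a (c (l 15957784) (l 15942336)) (b (c (l 15748776) (l 15736056)) (l 15776560))) (a (l 15926000) (b (l 15717944) (l 15749904)))) (c (a (l 15959424) (c (l 15821472) (l 15826616))) (a (l 15926256) (l 15808216))))) (a (b (b (c (a (a (c (l 16016712) (l 15843224)) (c (l 15989704) (l 16007856))) (l 15932424)) (a (l 15938856) (l 15973448))) (a (c (c (l 15844960) (a (l 15892648) (l 15975696))) (c (b (l 15952648) (l 15708456)) (l 15910736))) (c (l 15983040) (l 15932160)))) (c (a (b (c (l 15930400) (b (l 15926808) (l 15894128)))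 (b (l 15811984) (l 15678416))) (b (l 15997520) (l 15867496))) (a (b (c (a (l 15704008) (l 15904368)) (a (b (l 15849368) (l 15718712)) (l 15858400))) (c (a (b (l 15796080) (l 15786520)) (l 15835936)) (a (b (a (l 15653792) (l 15794592)) (l 211692433063)) (b (l 15821784) (l 15824872))))) (b (l 15805096) (c (l 15889832) (l 15884664)))))) (b (c (a (c (l 15996344) (l 15963856)) (b (l 15897024) (c (c (l 15955080) (l 15946856)) (l 15950496)))) (a (l 15937296) (l 15892648))) (c (a (b (l 15992672) (l 224980439511)) (b (c (l 15988400) (l 15981856)) (c (l 16046176) (l 16033992)))) (b (a (l 15948688) (l 15980968)) (a (l 15971392) (l 267930204535))))))), by decide +kernel⟩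

def k2_pp_123 : ∃ t, chk3 f_pp_123 t 9 3 1 = true :=
  ⟨(b (a (a (b (c (b (l 15539024) (l 15566872)) (b (l 15507736) (l 15535576))) (c (l 15651864) (l 15644152))) (b (b (l 15331304) (c (l 15361080) (l 15323968))) (c (b (l 15431960) (l 15528248)) (l 15448080)))) (b (b (l 15078936) (a (b (l 15149032) (a (l 15192832) (l 15099736))) (l 14983152))) (b (c (a (l 15108496) (l 15018712)) (a (l 15172560) (l 14972528))) (c (a (l 15333992) (l 15123536)) (l 15190000))))) (a (c (c (b (b (l 15713160) (b (l 15778488) (a (l 15889392) (l 15773840)))) (b (b (l 15830568) (l 15909760)) (l 15972216))) (b (l 15682584) (b (l 15722000) (l 15733128)))) (b (b (l 15678384) (l 15769848)) (b (a (l 15952632) (l 15814544)) (l 277056838167)))) (b (b (c (a (l 15459864) (l 15269824)) (l 15329496)) (c (l 15297600) (l 15474328))) (b (c (a (c (b (l 15713600) (l 15765928)) (l 15605952)) (c (b (l 15560936) (l 1)) (l 15630056))) (l 15626000)) (l 1))))), by decide +kernel⟩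

def k3_pp_123 : ∃ t, chk3 f_pp_123 t 5 1 1 = true :=
  ⟨(b (a (b (a (a (l 14858880) (l 15088696)) (l 15694936)) (a (b (a (l 14925736) (l 15101224)) (a (l 14901896) (l 15074456))) (b (l 15712720) (l 15691576)))) (b (a (l 16416696) (l 16758736)) (a (b (l 16418624) (l 16434488)) (l 16743064)))) (a (b (b (a (a (l 14842760) (l 15015648)) (l 15643680)) (a (a (b (b (l 14817256) (c (l 14843408) (l 14792552))) (c (l 14782032) (l 14859296))) (b (l 14985896) (a (c (l 14923992) (l 14875504)) (c (l 15121808) (l 15078488))))) (b (l 15623032) (b (l 15612344) (a (l 15346920) (l 15771832)))))) (a (a (b (c (b (l 15076608) (l 15249560)) (l 15122416)) (b (b (l 15365488) (l 1)) (l 1))) (b (c (b (a (l 15066704) (l 15222224)) (a (l 15226416) (l 15350048))) (b (l 15101488) (l 15249104))) (l 1))) (b (b (c (a (l 15490232) (l 15848752)) (l 15513544)) (c (l 15719624) (l 15735184))) (l 1)))) (b (a (b (l 16403544) (l 16393352)) (l 16776720)) (b (b (a (a (l 15999000) (l 16572704)) (a (l 16818056) (l 16777216)))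 (l 1)) (l 1))))), by decide +kernel⟩

def k4_pp_123 : ∃ t, chk3 f_pp_123 t 3 1 1 = true :=
  ⟨(b (a (b (a (l 16759464) (l 16759216)) (b (l 16738040) (l 16750656))) (b (a (l 16759464) (l 16759464)) (a (l 16743472) (l 16743472)))) (b (a (l 69289902599) (l 16777184)) (l 1))), by decide +kernel⟩

theorem s5_pp_123 : ∃ t, chk3 f_pp_123 t 4 3 1 = true := ex3_a k1_pp_123 k2_pp_123

theorem s6_pp_123 : ∃ t, chk3 f_pp_123 t 4 1 1 = true := ex3_b k0_pp_123 s5_pp_123

theorem s7_pp_123 : ∃ t, chk3 f_pp_123 t 2 1 1 = true := ex3_a s6_pp_123 k3_pp_123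

theorem s8_pp_123 : ∃ t, chk3 f_pp_123 t 1 1 1 = true := ex3_a s7_pp_123 k4_pp_123

theorem c_pp_123 : CertFX 536870912 536870912 0 1230186008 1046898278 26843546 false true true .npn 1 2 3
    ndF1q1 ndF5q3 pcF2 Cut.none Ext.none :=
  certFX2 (fam := false) (s1 := true) (s2 := true) (a := 1) (b := 2) (c := 3) (cn := .npn) (n1 := ndF1q1) (n2 := ndF5q3) (pc := pcF2) (cut := Cut.none) (xt := Ext.none) (P1 := 536870912) (W1 := 536870912) (P2 := 0) (W2 := 1230186008) (P3 := 1046898278) (W3 := 26843546)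
    rfl (fun _ => rfl) s8_pp_123

noncomputable def f_pp_133 : ℕ → ℕ → ℕ → ℕ → Bool := onCell 536870912 536870912 0 1230186008 1046898278 26843546
    (rowFX 0 false true true .dn 1 3 3 (qsf 536870912 536870912 0 1230186008 3) ndF1q1 ndF5q3 pcF3 Cut.none Ext.none)

def k0_pp_133 : ∃ t, chk3 f_pp_133 t 1 1 1 = true :=
  ⟨(b (a (b (a (a (l 16759088) (l 1)) (l 1)) (l 1)) (l 1)) (l 1)), by decide +kernel⟩

theorem c_pp_133 : CertFX 536870912 536870912 0 1230186008 1046898278 26843546 false true true .dn 1 3 3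
    ndF1q1 ndF5q3 pcF3 Cut.none Ext.none :=
  certFX0 (fam := false) (s1 := true) (s2 := true) (a := 1) (b := 3) (c := 3) (cn := .dn) (n1 := ndF1q1) (n2 := ndF5q3) (pc := pcF3) (cut := Cut.none) (xt := Ext.none) (P1 := 536870912) (W1 := 536870912) (P2 := 0) (W2 := 1230186008) (P3 := 1046898278) (W3 := 26843546)
    rfl k0_pp_133

noncomputable def f_pp_202_a : ℕ → ℕ → ℕ → ℕ → Bool := onCell 0 420477299 1073741824 536870912 1046898278 26843546
    (rowFX 0 false true true .pp 2 0 2 (qsf 0 420477299 1073741824 536870912 0) ndF1q2a ndF5q2 pcF0 Cut.none Ext.none)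

def k0_pp_202_a : ∃ t, chk3 f_pp_202_a t 1 1 1 = true :=
  ⟨(l 3), by decide +kernel⟩

theorem c_pp_202_a : CertFX 0 420477299 1073741824 536870912 1046898278 26843546 false true true .pp 2 0 2
    ndF1q2a ndF5q2 pcF0 Cut.none Ext.none :=
  certFX0 (fam := false) (s1 := true) (s2 := true) (a := 2) (b := 0) (c := 2) (cn := .pp) (n1 := ndF1q2a) (n2 := ndF5q2) (pc := pcF0) (cut := Cut.none) (xt := Ext.none) (P1 := 0) (W1 := 420477299) (P2 := 1073741824) (W2 := 536870912) (P3 := 1046898278) (W3 := 26843546)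
    rfl k0_pp_202_a

noncomputable def f_pp_202_b : ℕ → ℕ → ℕ → ℕ → Bool := onCell 1239849684 370763052 1073741824 536870912 1046898278 26843546
    (rowFX 0 false true true .pp 2 0 2 (qsf 1239849684 370763052 1073741824 536870912 0) ndF1q2b ndF5q2 pcF0 Cut.none Ext.none)

def k0_pp_202_b : ∃ t, chk3 f_pp_202_b t 1 1 1 = true :=
  ⟨(l 3), by decide +kernel⟩

theorem c_pp_202_b : CertFX 1239849684 370763052 1073741824 536870912 1046898278 26843546 false true true .pp 2 0 2
    ndF1q2b ndF5q2 pcF0 Cut.none Ext.none :=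
  certFX0 (fam := false) (s1 := true) (s2 := true) (a := 2) (b := 0) (c := 2) (cn := .pp) (n1 := ndF1q2b) (n2 := ndF5q2) (pc := pcF0) (cut := Cut.none) (xt := Ext.none) (P1 := 1239849684) (W1 := 370763052) (P2 := 1073741824) (W2 := 536870912) (P3 := 1046898278) (W3 := 26843546)
    rfl k0_pp_202_b

noncomputable def f_pp_203_a : ℕ → ℕ → ℕ → ℕ → Bool := onCell 0 420477299 0 1230186008 1046898278 26843546
    (rowFX 0 false true true .up 2 0 3 (qsf 0 420477299 0 1230186008 0) ndF1q2a ndF5q3 pcF0 Cut.none Ext.none)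

def k0_pp_203_a : ∃ t, chk3 f_pp_203_a t 1 1 1 = true :=
  ⟨(b (l 2) (l 3)), by decide +kernel⟩

theorem c_pp_203_a : CertFX 0 420477299 0 1230186008 1046898278 26843546 false true true .up 2 0 3
    ndF1q2a ndF5q3 pcF0 Cut.none Ext.none :=
  certFX0 (fam := false) (s1 := true) (s2 := true) (a := 2) (b := 0) (c := 3) (cn := .up) (n1 := ndF1q2a) (n2 := ndF5q3) (pc := pcF0) (cut := Cut.none) (xt := Ext.none) (P1 := 0) (W1 := 420477299) (P2 := 0) (W2 := 1230186008) (P3 := 1046898278) (W3 := 26843546)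
    rfl k0_pp_203_a

noncomputable def f_pp_203_b : ℕ → ℕ → ℕ → ℕ → Bool := onCell 1239849684 370763052 0 1230186008 1046898278 26843546
    (rowFX 0 false true true .up 2 0 3 (qsf 1239849684 370763052 0 1230186008 0) ndF1q2b ndF5q3 pcF0 Cut.none Ext.none)

def k0_pp_203_b : ∃ t, chk3 f_pp_203_b t 1 1 1 = true :=
  ⟨(b (l 3) (l 3)), by decide +kernel⟩

theorem c_pp_203_b : CertFX 1239849684 370763052 0 1230186008 1046898278 26843546 false true true .up 2 0 3
    ndF1q2b ndF5q3 pcF0 Cut.none Ext.none :=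
  certFX0 (fam := false) (s1 := true) (s2 := true) (a := 2) (b := 0) (c := 3) (cn := .up) (n1 := ndF1q2b) (n2 := ndF5q3) (pc := pcF0) (cut := Cut.none) (xt := Ext.none) (P1 := 1239849684) (W1 := 370763052) (P2 := 0) (W2 := 1230186008) (P3 := 1046898278) (W3 := 26843546)
    rfl k0_pp_203_b

noncomputable def f_pp_213_a : ℕ → ℕ → ℕ → ℕ → Bool := onCell 0 420477299 0 1230186008 1046898278 26843546
    (rowFX 0 false true true .pnn 2 1 3 (qsf 0 420477299 0 1230186008 1) ndF1q2a ndF5q3 pcF1 Cut.none Ext.none)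

def k0_pp_213_a : ∃ t, chk3 f_pp_213_a t 1 1 1 = true :=
  ⟨(b (l 3) (l 3)), by decide +kernel⟩

theorem c_pp_213_a : CertFX 0 420477299 0 1230186008 1046898278 26843546 false true true .pnn 2 1 3
    ndF1q2a ndF5q3 pcF1 Cut.none Ext.none :=
  certFX0 (fam := false) (s1 := true) (s2 := true) (a := 2) (b := 1) (c := 3) (cn := .pnn) (n1 := ndF1q2a) (n2 := ndF5q3) (pc := pcF1) (cut := Cut.none) (xt := Ext.none) (P1 := 0) (W1 := 420477299) (P2 := 0) (W2 := 1230186008) (P3 := 1046898278) (W3 := 26843546)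
    rfl k0_pp_213_a

noncomputable def f_pp_213_b : ℕ → ℕ → ℕ → ℕ → Bool := onCell 1239849684 370763052 0 1230186008 1046898278 26843546
    (rowFX 0 false true true .pnn 2 1 3 (qsf 1239849684 370763052 0 1230186008 1) ndF1q2b ndF5q3 pcF1 Cut.none Ext.none)

def k0_pp_213_b : ∃ t, chk3 f_pp_213_b t 1 1 1 = true :=
  ⟨(b (l 3) (l 3)), by decide +kernel⟩

theorem c_pp_213_b : CertFX 1239849684 370763052 0 1230186008 1046898278 26843546 false true true .pnn 2 1 3
    ndF1q2b ndF5q3 pcF1 Cut.none Ext.none :=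
  certFX0 (fam := false) (s1 := true) (s2 := true) (a := 2) (b := 1) (c := 3) (cn := .pnn) (n1 := ndF1q2b) (n2 := ndF5q3) (pc := pcF1) (cut := Cut.none) (xt := Ext.none) (P1 := 1239849684) (W1 := 370763052) (P2 := 0) (W2 := 1230186008) (P3 := 1046898278) (W3 := 26843546)
    rfl k0_pp_213_b

noncomputable def f_pp_303 : ℕ → ℕ → ℕ → ℕ → Bool := onCell 1610612736 469762048 0 1230186008 1046898278 26843546
    (rowFX 0 false true true .npn 3 0 3 (qsf 1610612736 469762048 0 1230186008 0) ndF1q3 ndF5q3 pcF0 Cut.none Ext.none)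

def k0_pp_303 : ∃ t, chk3 f_pp_303 t 1 1 1 = true :=
  ⟨(b (l 3) (l 3)), by decide +kernel⟩

theorem c_pp_303 : CertFX 1610612736 469762048 0 1230186008 1046898278 26843546 false true true .npn 3 0 3
    ndF1q3 ndF5q3 pcF0 Cut.none Ext.none :=
  certFX0 (fam := false) (s1 := true) (s2 := true) (a := 3) (b := 0) (c := 3) (cn := .npn) (n1 := ndF1q3) (n2 := ndF5q3) (pc := pcF0) (cut := Cut.none) (xt := Ext.none) (P1 := 1610612736) (W1 := 469762048) (P2 := 0) (W2 := 1230186008) (P3 := 1046898278) (W3 := 26843546)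
    rfl k0_pp_303

noncomputable def f_pp_313 : ℕ → ℕ → ℕ → ℕ → Bool := onCell 1610612736 469762048 0 1230186008 1046898278 26843546
    (rowFX 0 false true true .dn 3 1 3 (qsf 1610612736 469762048 0 1230186008 1) ndF1q3 ndF5q3 pcF1 Cut.none Ext.none)

def k0_pp_313 : ∃ t, chk3 f_pp_313 t 1 1 1 = true :=
  ⟨(b (l 3) (l 1)), by decide +kernel⟩

theorem c_pp_313 : CertFX 1610612736 469762048 0 1230186008 1046898278 26843546 false true true .dn 3 1 3
    ndF1q3 ndF5q3 pcF1 Cut.none Ext.none :=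
  certFX0 (fam := false) (s1 := true) (s2 := true) (a := 3) (b := 1) (c := 3) (cn := .dn) (n1 := ndF1q3) (n2 := ndF5q3) (pc := pcF1) (cut := Cut.none) (xt := Ext.none) (P1 := 1610612736) (W1 := 469762048) (P2 := 0) (W2 := 1230186008) (P3 := 1046898278) (W3 := 26843546)
    rfl k0_pp_313

noncomputable def f_pm_001 : ℕ → ℕ → ℕ → ℕ → Bool := onCell 67108864 469762048 536870912 469762048 1046898278 26843546
    (rowFX 0 false true false .up 0 0 1 (qsf 67108864 469762048 536870912 469762048 0) ndF1q0 ndF5q1 pcF0 Cut.none Ext.none)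

def k0_pm_001 : ∃ t, chk3 f_pm_001 t 1 1 1 = true :=
  ⟨(l 4), by decide +kernel⟩

theorem c_pm_001 : CertFX 67108864 469762048 536870912 469762048 1046898278 26843546 false true false .up 0 0 1
    ndF1q0 ndF5q1 pcF0 Cut.none Ext.none :=
  certFX0 (fam := false) (s1 := true) (s2 := false) (a := 0) (b := 0) (c := 1) (cn := .up) (n1 := ndF1q0) (n2 := ndF5q1) (pc := pcF0) (cut := Cut.none) (xt := Ext.none) (P1 := 67108864) (W1 := 469762048) (P2 := 536870912) (W2 := 469762048) (P3 := 1046898278) (W3 := 26843546)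
    rfl k0_pm_001

noncomputable def f_pm_011 : ℕ → ℕ → ℕ → ℕ → Bool := onCell 67108864 469762048 536870912 469762048 1046898278 26843546
    (rowFX 0 false true false .pnn 0 1 1 (qsf 67108864 469762048 536870912 469762048 1) ndF1q0 ndF5q1 pcF1 Cut.none Ext.none)

def k0_pm_011 : ∃ t, chk3 f_pm_011 t 1 1 1 = true :=
  ⟨(l 4), by decide +kernel⟩

theorem c_pm_011 : CertFX 67108864 469762048 536870912 469762048 1046898278 26843546 false true false .pnn 0 1 1
    ndF1q0 ndF5q1 pcF1 Cut.none Ext.none :=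
  certFX0 (fam := false) (s1 := true) (s2 := false) (a := 0) (b := 1) (c := 1) (cn := .pnn) (n1 := ndF1q0) (n2 := ndF5q1) (pc := pcF1) (cut := Cut.none) (xt := Ext.none) (P1 := 67108864) (W1 := 469762048) (P2 := 536870912) (W2 := 469762048) (P3 := 1046898278) (W3 := 26843546)
    rfl k0_pm_011

noncomputable def f_pm_012 : ℕ → ℕ → ℕ → ℕ → Bool := onCell 67108864 469762048 1073741824 536870912 1046898278 26843546
    (rowFX 0 false true false .pnp 0 1 2 (qsf 67108864 469762048 1073741824 536870912 1) ndF1q0 ndF5q2 pcF1 Cut.none Ext.none)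

def k0_pm_012 : ∃ t, chk3 f_pm_012 t 1 1 1 = true :=
  ⟨(a (l 4) (a (b (l 4) (l 4)) (a (b (b (b (a (l 4) (b (l 16205208) (l 4))) (l 4)) (l 4)) (l 4)) (b (b (b (c (b (l 16253952) (l 15824656)) (l 15764224)) (a (b (a (l 4) (l 15412888)) (l 4)) (b (l 15412808) (l 15059352)))) (a (l 4) (b (b (b (l 14844560) (l 15053408)) (a (l 4) (l 15726504))) (b (a (l 4) (l 16413656)) (l 4))))) (b (l 4) (l 4)))))), by decide +kernel⟩

theorem c_pm_012 : CertFX 67108864 469762048 1073741824 536870912 1046898278 26843546 false true false .pnp 0 1 2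
    ndF1q0 ndF5q2 pcF1 Cut.none Ext.none :=
  certFX0 (fam := false) (s1 := true) (s2 := false) (a := 0) (b := 1) (c := 2) (cn := .pnp) (n1 := ndF1q0) (n2 := ndF5q2) (pc := pcF1) (cut := Cut.none) (xt := Ext.none) (P1 := 67108864) (W1 := 469762048) (P2 := 1073741824) (W2 := 536870912) (P3 := 1046898278) (W3 := 26843546)
    rfl k0_pm_012

noncomputable def f_pm_022 : ℕ → ℕ → ℕ → ℕ → Bool := onCell 67108864 469762048 1073741824 536870912 1046898278 26843546
    (rowFX 0 false true false .pp 0 2 2 (qsf 67108864 469762048 1073741824 536870912 2) ndF1q0 ndF5q2 pcF2 Cut.none Ext.none)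

def k0_pm_022 : ∃ t, chk3 f_pm_022 t 1 1 1 = true :=
  ⟨(a (l 4) (b (l 1) (a (l 4) (b (l 1) (l 4))))), by decide +kernel⟩

theorem c_pm_022 : CertFX 67108864 469762048 1073741824 536870912 1046898278 26843546 false true false .pp 0 2 2
    ndF1q0 ndF5q2 pcF2 Cut.none Ext.none :=
  certFX0 (fam := false) (s1 := true) (s2 := false) (a := 0) (b := 2) (c := 2) (cn := .pp) (n1 := ndF1q0) (n2 := ndF5q2) (pc := pcF2) (cut := Cut.none) (xt := Ext.none) (P1 := 67108864) (W1 := 469762048) (P2 := 1073741824) (W2 := 536870912) (P3 := 1046898278) (W3 := 26843546)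
    rfl k0_pm_022

noncomputable def f_pm_023 : ℕ → ℕ → ℕ → ℕ → Bool := onCell 67108864 469762048 0 1230186008 1046898278 26843546
    (rowFX 0 false true false .up 0 2 3 (qsf 67108864 469762048 0 1230186008 2) ndF1q0 ndF5q3 pcF2 Cut.none Ext.none)

def k0_pm_023 : ∃ t, chk3 f_pm_023 t 1 1 1 = true :=
  ⟨(b (a (l 2) (a (b (l 2) (l 4)) (b (a (l 2) (l 16759464)) (c (b (l 16743080) (a (l 16751120) (l 16751120))) (b (l 16687312) (a (l 16750224) (l 16750224))))))) (a (l 4) (a (b (l 4) (l 4)) (a (b (l 4) (l 4)) (b (b (c (l 16776360) (b (l 16777192) (l 16776120))) (a (l 4) (b (c (l 16681232) (l 16678736)) (l 16214928)))) (b (b (a (l 4) (b (l 16022392) (l 4))) (l 4)) (l 4))))))), by decide +kernel⟩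

theorem c_pm_023 : CertFX 67108864 469762048 0 1230186008 1046898278 26843546 false true false .up 0 2 3
    ndF1q0 ndF5q3 pcF2 Cut.none Ext.none :=
  certFX0 (fam := false) (s1 := true) (s2 := false) (a := 0) (b := 2) (c := 3) (cn := .up) (n1 := ndF1q0) (n2 := ndF5q3) (pc := pcF2) (cut := Cut.none) (xt := Ext.none) (P1 := 67108864) (W1 := 469762048) (P2 := 0) (W2 := 1230186008) (P3 := 1046898278) (W3 := 26843546)
    rfl k0_pm_023

noncomputable def f_pm_033 : ℕ → ℕ → ℕ → ℕ → Bool := onCell 1610612736 536870912 0 1230186008 1046898278 26843546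
    (rowFX 2 false true false .pnn 0 3 3 (qsf 67108864 469762048 0 1230186008 3) ndF1q0 ndF5q3 pcF3 Cut.none Ext.none)

def k0_pm_033 : ∃ t, chk3 f_pm_033 t 1 1 1 = true :=
  ⟨(b (a (a (a (b (l 16759464) (c (l 16746352) (l 16740424))) (b (c (l 16764288) (l 16757496)) (b (l 4) (l 4)))) (b (l 4) (l 4))) (l 4)) (b (a (l 4) (a (l 4) (l 1))) (a (b (l 4) (a (l 4) (l 1))) (l 1)))), by decide +kernel⟩

theorem c_pm_033 : CertFX 67108864 469762048 0 1230186008 1046898278 26843546 false true false .pnn 0 3 3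
    ndF1q0 ndF5q3 pcF3 Cut.none Ext.none :=
  certFX2 (fam := false) (s1 := true) (s2 := false) (a := 0) (b := 3) (c := 3) (cn := .pnn) (n1 := ndF1q0) (n2 := ndF5q3) (pc := pcF3) (cut := Cut.none) (xt := Ext.none) (P1 := 67108864) (W1 := 469762048) (P2 := 0) (W2 := 1230186008) (P3 := 1046898278) (W3 := 26843546)
    rfl (fun _ => rfl) k0_pm_033

noncomputable def f_pm_101 : ℕ → ℕ → ℕ → ℕ → Bool := onCell 536870912 536870912 536870912 469762048 1046898278 26843546
    (rowFX 0 false true false .npn 1 0 1 (qsf 536870912 536870912 536870912 469762048 0) ndF1q1 ndF5q1 pcF0 Cut.none Ext.none)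

def k0_pm_101 : ∃ t, chk3 f_pm_101 t 1 1 1 = true :=
  ⟨(l 4), by decide +kernel⟩

theorem c_pm_101 : CertFX 536870912 536870912 536870912 469762048 1046898278 26843546 false true false .npn 1 0 1
    ndF1q1 ndF5q1 pcF0 Cut.none Ext.none :=
  certFX0 (fam := false) (s1 := true) (s2 := false) (a := 1) (b := 0) (c := 1) (cn := .npn) (n1 := ndF1q1) (n2 := ndF5q1) (pc := pcF0) (cut := Cut.none) (xt := Ext.none) (P1 := 536870912) (W1 := 536870912) (P2 := 536870912) (W2 := 469762048) (P3 := 1046898278) (W3 := 26843546)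
    rfl k0_pm_101

noncomputable def f_pm_102 : ℕ → ℕ → ℕ → ℕ → Bool := onCell 0 536870912 1073741824 536870912 1046898278 26843546
    (rowFX 2 false true false .npp 1 0 2 (qsf 536870912 536870912 1073741824 536870912 0) ndF1q1 ndF5q2 pcF0 Cut.none Ext.none)

def k0_pm_102 : ∃ t, chk3 f_pm_102 t 4 2 1 = true :=
  ⟨(b (b (b (a (a (a (a (b (c (l 16526208) (c (a (l 16557504) (l 16553144)) (a (c (l 16551936) (l 16548288)) (l 16551640)))) (l 2)) (c (c (a (b (l 16544824) (l 2)) (l 984721115927)) (a (l 781246926199) (l 16337904))) (c (l 573477766167) (l 16402368)))) (c (a (c (b (l 16576920) (l 16282200)) (l 625554309959)) (b (l 16590360) (l 16313688))) (b (l 16542720) (l 16257176)))) (b (c (a (l 16545664) (l 16463080)) (l 16501192)) (c (a (l 16285200) (l 16264032)) (l 16244776)))) (a (a (c (l 16397456) (l 16393800)) (l 16342840)) (l 16255792))) (a (a (a (l 2) (c (a (l 2) (c (l 15762128) (l 15874568))) (l 15584048))) (c (a (c (l 15889960) (l 15844584)) (c (l 15788504) (l 15828664))) (a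 (l 15814112) (l 15809960)))) (a (c (l 15696896) (l 15819720)) (l 15889136)))) (b (a (a (l 2) (a (l 2) (a (l 2) (a (l 2) (l 15248136))))) (a (a (c (l 15268272) (l 15227976)) (l 15254736)) (l 15307312))) (a (l 2) (a (a (l 2) (l 14675792)) (l 14719800))))) (a (l 2) (b (a (l 2) (b (b (l 14281016) (l 2)) (l 2))) (l 2)))), by decide +kernel⟩

def k1_pm_102 : ∃ t, chk3 f_pm_102 t 5 2 1 = true :=
  ⟨(b (a (b (b (a (l 16147064) (l 16128488)) (a (l 15964152) (l 15817448))) (a (b (l 15438864) (l 14853920)) (b (l 15582168) (l 15015752)))) (b (a (l 15939080) (l 16014720)) (a (b (l 15463680) (l 15188184)) (b (l 15392504) (l 15108304))))) (a (b (b (b (a (l 14410200) (l 14576192)) (a (l 14439472) (l 14582688))) (a (a (l 2) (l 14937992)) (l 14999160))) (b (a (l 2) (c (l 343158367911) (l 15596480))) (l 2))) (b (b (a (b (l 14763704) (l 14754576)) (l 14796024)) (a (l 15111144) (l 15315096))) (a (b (c (l 15643720) (l 15613032)) (c (l 406509779879) (l 15846776))) (b (l 15754672) (c (l 15936120) (l 15914272))))))),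 by decide +kernel⟩

def k2_pm_102 : ∃ t, chk3 f_pm_102 t 3 2 1 = true :=
  ⟨(b (a (b (a (l 15918576) (l 16025520)) (a (l 15002688) (l 15224792))) (b (a (l 15983576) (l 15899696)) (a (l 15226904) (l 15226904)))) (b (a (b (a (b (l 14803760) (l 15010232)) (l 14874224)) (a (l 15680360) (l 15585488))) (b (b (l 14801512) (l 14967488)) (l 15558720))) (a (a (b (l 16101304) (l 16212704)) (b (b (l 16198536) (l 16588000)) (l 16610384))) (b (l 16378440) (l 16762272))))), by decide +kernel⟩

def k3_pm_102 : ∃ t, chk3 f_pm_102 t 1 3 1 = true :=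
  ⟨(a (a (l 2) (a (l 2) (b (a (l 2) (b (c (l 659375492039) (l 15675384)) (l 2))) (l 2)))) (a (b (a (b (b (l 16019688) (l 15841504)) (b (l 15542368) (l 2))) (b (a (l 16213184) (l 16415216)) (b (l 16019688) (l 15841504)))) (a (l 2) (b (a (l 2) (l 701251394967)) (l 2)))) (b (a (b (a (l 16610768) (l 16740672)) (l 16104856)) (b (l 16761352) (b (l 16740672) (l 16610768)))) (a (b (a (l 15841504) (l 16019688)) (a (l 2) (l 941232692631))) (b (l 16251656) (a (l 15841504) (l 16019688))))))), by decide +kernel⟩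

theorem s4_pm_102 : ∃ t, chk3 f_pm_102 t 2 2 1 = true := ex3_a k0_pm_102 k1_pm_102

theorem s5_pm_102 : ∃ t, chk3 f_pm_102 t 1 2 1 = true := ex3_a s4_pm_102 k2_pm_102

theorem s6_pm_102 : ∃ t, chk3 f_pm_102 t 1 1 1 = true := ex3_b s5_pm_102 k3_pm_102

theorem c_pm_102 : CertFX 536870912 536870912 1073741824 536870912 1046898278 26843546 false true false .npp 1 0 2
    ndF1q1 ndF5q2 pcF0 Cut.none Ext.none :=
  certFX2 (fam := false) (s1 := true) (s2 := false) (a := 1) (b := 0) (c := 2) (cn := .npp) (n1 := ndF1q1) (n2 := ndF5q2) (pc := pcF0) (cut := Cut.none) (xt := Ext.none) (P1 := 536870912) (W1 := 536870912) (P2 := 1073741824) (W2 := 536870912) (P3 := 1046898278) (W3 := 26843546)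
    rfl (fun _ => rfl) s6_pm_102

noncomputable def f_pm_112 : ℕ → ℕ → ℕ → ℕ → Bool := onCell 536870912 536870912 1073741824 536870912 1046898278 26843546
    (rowFX 2 false true false .dn 1 1 2 (qsf 536870912 536870912 1073741824 536870912 1) ndF1q1 ndF5q2 pcF1 Cut.none Ext.none)

def k0_pm_112 : ∃ t, chk3 f_pm_112 t 2 1 1 = true :=
  ⟨(b (b (a (b (a (c (l 16035160) (l 16015888)) (c (l 522943835303) (l 475699156487))) (a (c (l 15246776) (l 15207024)) (c (l 15246776) (l 15207024)))) (a (b (l 1) (a (b (l 1) (l 404830363479)) (l 1))) (l 1))) (a (b (a (b (l 14885272) (l 15602360)) (b (b (l 14801512) (l 14967488)) (l 15602360))) (a (b (l 16385096) (l 16776664)) (b (l 16385096) (l 16776664)))) (b (a (b (a (b (l 14826024) (l 14988184)) (b (l 1) (l 15087344))) (a (l 15617152) (l 15593152))) (a (b (l 1) (l 509521615607)) (l 1))) (a (b (a (l 16393224) (l 16445960)) (l 16729016)) (a (b (l 16273264) (l 16470504)) (b (l 4) (l 190822363639))))))) (a (b (a (b (l 16774976) (l 16761352)) (b (l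 16777216) (l 16774976))) (b (a (l 16659584) (l 16761352)) (a (l 16272624) (l 16659584)))) (b (b (a (a (l 16774440) (l 16748944)) (a (l 16662208) (b (l 16313632) (l 16525144)))) (a (l 16777216) (b (a (l 16766112) (l 16715792)) (l 16777216)))) (a (l 16763832) (l 16775760))))), by decide +kernel⟩

def k1_pm_112 : ∃ t, chk3 f_pm_112 t 6 1 1 = true :=
  ⟨(b (b (l 1) (l 4)) (a (b (a (b (b (a (l 16024008) (l 15852552)) (l 15921712)) (b (l 16439416) (l 16715536))) (b (b (l 4) (a (l 15777824) (l 15593664))) (b (a (l 16070248) (l 15740032)) (a (l 16491632) (l 16114312))))) (a (l 16777184) (b (b (a (l 16667760) (l 16392656)) (l 16679192)) (b (l 16763112) (l 16773840))))) (b (b (l 4) (a (a (b (l 15493792) (l 15730656)) (b (l 15298176) (l 15406456))) (c (l 15207952) (a (l 15288752) (l 4))))) (b (b (a (a (l 16084368) (l 15652528)) (c (l 15291840) (l 15148400))) (a (b (l 15938680) (l 16361816)) (a (b (l 15613096) (l 15896072)) (b (l 15336712) (l 15527120))))) (a (b (a (l 16736392) (b (l 16512936)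 (l 16733056))) (l 16767488)) (b (b (a (l 16208088) (l 15835232)) (a (a (b (l 16536792) (l 16737112)) (l 16520560)) (c (l 16241360) (l 16049240)))) (a (a (l 16737744) (l 16632072)) (l 16393880)))))))), by decide +kernel⟩

def k2_pm_112 : ∃ t, chk3 f_pm_112 t 7 1 1 = true :=
  ⟨(b (l 1) (b (l 4) (b (a (a (a (b (l 15044064) (b (l 14982080) (l 15245416))) (c (l 14797912) (l 14791344))) (a (b (l 4) (c (l 14607640) (l 14694392))) (l 4))) (l 4)) (a (a (a (b (b (l 15457264) (l 15791144)) (b (c (l 16000504) (l 15841176)) (l 16103568))) (b (b (a (l 15225312) (l 15066960)) (l 15380536)) (b (a (l 15769032) (l 15555016)) (l 15516056)))) (b (a (a (b (l 14848104) (l 15076016)) (c (b (l 14684584) (l 14584928)) (b (l 14645872) (l 14799256)))) (c (c (l 14531848) (b (l 14530000) (l 14509544))) (a (l 14725872) (l 14607400)))) (b (b (a (l 15167568) (a (l 14863632) (c (l 14652528) (l 14622048)))) (a (l 15294688) (l 14883568))) (a (a (l 15493688) (l 15337064)) (a (l 15182288) (a (l 15063216) (l 14874056)))))))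 (a (a (c (b (c (l 14313832) (l 14332480)) (b (c (l 14453600) (l 14467840)) (a (b (l 14745048) (l 14895336)) (b (l 14443536) (l 14683616))))) (b (l 14313376) (b (l 14381000) (a (b (l 14715144) (l 14857480)) (b (l 14429760) (l 14662016)))))) (b (l 4) (c (a (b (l 14174440) (l 14152760)) (l 14155992)) (a (c (l 14418592) (l 14393248)) (l 14170480))))) (a (c (l 13980072) (c (l 13808576) (l 13990680))) (l 4))))))), by decide +kernel⟩

theorem s3_pm_112 : ∃ t, chk3 f_pm_112 t 3 1 1 = true := ex3_a k1_pm_112 k2_pm_112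

theorem s4_pm_112 : ∃ t, chk3 f_pm_112 t 1 1 1 = true := ex3_a k0_pm_112 s3_pm_112

theorem c_pm_112 : CertFX 536870912 536870912 1073741824 536870912 1046898278 26843546 false true false .dn 1 1 2
    ndF1q1 ndF5q2 pcF1 Cut.none Ext.none :=
  certFX2 (fam := false) (s1 := true) (s2 := false) (a := 1) (b := 1) (c := 2) (cn := .dn) (n1 := ndF1q1) (n2 := ndF5q2) (pc := pcF1) (cut := Cut.none) (xt := Ext.none) (P1 := 536870912) (W1 := 536870912) (P2 := 1073741824) (W2 := 536870912) (P3 := 1046898278) (W3 := 26843546)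
    rfl (fun _ => rfl) s4_pm_112

noncomputable def f_pm_113 : ℕ → ℕ → ℕ → ℕ → Bool := onCell 536870912 536870912 0 1230186008 1046898278 26843546
    (rowFX 2 false true false .nn 1 1 3 (qsf 536870912 536870912 0 1230186008 1) ndF1q1 ndF5q3 pcF1 Cut.none Ext.none)

def k0_pm_113 : ∃ t, chk3 f_pm_113 t 1 2 1 = true :=
  ⟨(a (l 2) (a (l 2) (a (b (l 2) (b (a (l 2) (b (l 2) (a (l 2) (l 15608664)))) (a (b (l 2) (l 429058135511)) (b (a (l 15680952) (l 15723600)) (l 15837328))))) (b (a (l 2) (a (b (l 2) (c (b (l 2) (l 16433304)) (l 15652936))) (b (c (l 16706264) (l 1125381443431)) (b (b (l 16704544) (l 16703848)) (l 16157136))))) (a (b (b (a (l 2) (l 15708608)) (l 15684632)) (b (l 15795816) (l 15938136))) (b (l 15820624) (l 15936920))))))), by decide +kernel⟩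

def k1_pm_113 : ∃ t, chk3 f_pm_113 t 2 3 1 = true :=
  ⟨(b (a (l 2) (b (l 2) (a (l 2) (b (l 2) (a (l 2) (l 15790728)))))) (a (b (l 2) (a (b (l 2) (b (l 15771192) (l 16007064))) (b (b (l 15806496) (l 15978880)) (b (l 16178800) (l 16401080))))) (b (a (b (a (l 2) (l 590656084247)) (l 318999757447)) (b (l 15927848) (l 16064976))) (b (a (a (l 16171192) (l 16371856)) (l 16632400)) (a (l 16638888) (l 16766608)))))), by decide +kernel⟩

def k2_pm_113 : ∃ t, chk3 f_pm_113 t 3 3 1 = true :=
  ⟨(b (a (b (a (l 2) (a (b (l 2) (l 15885584)) (b (l 15869280) (l 16062760)))) (a (b (a (l 676555539911) (l 15907376)) (l 15979056)) (a (l 16135944) (b (l 16299536) (l 16467072))))) (a (b (a (l 16051448) (l 16149480)) (b (a (l 16420368) (b (l 16461776) (l 16550768))) (a (b (l 16614008) (l 16649680)) (l 16463976)))) (b (a (b (l 16133320) (l 16360248)) (b (l 16223264) (b (l 16363672) (a (l 16426168) (l 16319032))))) (a (b (b (a (l 16509944) (l 16461872)) (l 16371208)) (l 16114424)) (b (a (l 16198024) (l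 15995616)) (a (l 15776488) (l 15559800))))))) (a (b (a (b (a (l 16256568) (l 16465696)) (a (l 16597376) (l 16742248))) (b (a (l 16668920) (l 16754824)) (a (l 16766616) (l 16724136)))) (a (l 16769640) (a (l 16766512) (a (l 16753936) (l 16525216))))) (b (a (a (b (l 16536384) (l 16348792)) (b (l 16186288) (l 15918488))) (a (b (l 15612944) (l 15190160)) (b (a (l 15368728) (l 15136104)) (a (l 14970904) (l 14719424))))) (a (a (b (l 16180424) (l 16022112)) (b (l 15665760) (a (l 15567872) (l 15275008)))) (a (b (c (l 15099568) (l 15100624)) (b (l 14706944) (a (c (c (l 14780200) (l 14890856)) (l 14858496)) (a (b (l 14666512) (c (l 14480912) (l 14563568))) (c (l 14384824) (l 14207296)))))) (b (a (l 14584280) (l 14230816)) (c (a (b (l 14302632) (b (l 14167048) (a (l 14160496) (l 13985856)))) (l 13931968)) (b (l 14184608) (a (a (a (l 14188264) (c (l 14186992) (l 14211024))) (c (l 14083632) (l 14026296))) (c (a (l 13888520) (l 13755472)) (a (b (l 13956632) (l 13889024)) (c (l 13743872) (l 13743760))))))))))))),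 by decide +kernel⟩

theorem s3_pm_113 : ∃ t, chk3 f_pm_113 t 1 3 1 = true := ex3_a k1_pm_113 k2_pm_113

theorem s4_pm_113 : ∃ t, chk3 f_pm_113 t 1 1 1 = true := ex3_b k0_pm_113 s3_pm_113

theorem c_pm_113 : CertFX 536870912 536870912 0 1230186008 1046898278 26843546 false true false .nn 1 1 3
    ndF1q1 ndF5q3 pcF1 Cut.none Ext.none :=
  certFX2 (fam := false) (s1 := true) (s2 := false) (a := 1) (b := 1) (c := 3) (cn := .nn) (n1 := ndF1q1) (n2 := ndF5q3) (pc := pcF1) (cut := Cut.none) (xt := Ext.none) (P1 := 536870912) (W1 := 536870912) (P2 := 0) (W2 := 1230186008) (P3 := 1046898278) (W3 := 26843546)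
    rfl (fun _ => rfl) s4_pm_113

noncomputable def f_pm_123 : ℕ → ℕ → ℕ → ℕ → Bool := onCell 1073741824 536870912 0 1230186008 1046898278 26843546
    (rowFX 2 false true false .npn 1 2 3 (qsf 536870912 536870912 0 1230186008 2) ndF1q1 ndF5q3 pcF2 Cut.none Ext.none)

def k0_pm_123 : ∃ t, chk3 f_pm_123 t 1 2 1 = true :=
  ⟨(a (a (b (a (b (a (l 16510712) (l 16312064)) (a (l 16299704) (l 16057328))) (b (l 15446248) (a (l 15731504) (l 15300944)))) (a (b (a (b (l 15929176) (l 15732616)) (l 15732720)) (a (b (l 15627216) (l 15611000)) (b (l 15617152) (l 15621032)))) (b (a (l 15567432) (l 15275432)) (a (b (l 15551176) (l 15596104)) (b (l 15324760) (l 15369096)))))) (a (b (a (a (b (l 15009552) (l 15027616)) (l 15132408)) (l 15751792)) (a (a (b (l 15086696) (l 15171416)) (b (l 15246536) (l 15312800))) (b (l 15790200) (l 15791984)))) (b (a (l 16416912) (l 16758824)) (a (b (l 16417864) (l 16322192)) (b (l 16700472) (l 16562592)))))) (a (b (a (l 16895048) (l 16758384)) (a (b (l 16687872) (l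 16623808)) (b (l 16734680) (l 16745040)))) (b (a (l 16759464) (l 16759464)) (a (b (l 16738040) (l 16750656)) (b (l 16738040) (l 16750656)))))), by decide +kernel⟩

def k1_pm_123 : ∃ t, chk3 f_pm_123 t 1 3 1 = true :=
  ⟨(a (a (b (a (b (b (a (l 15574464) (l 15575280)) (a (b (l 15509624) (l 15376312)) (l 15404640))) (c (a (l 15049112) (l 15054560)) (a (l 14786472) (l 15050880)))) (b (a (b (a (l 15585128) (l 15518288)) (l 15379904)) (l 15272160)) (a (c (l 14902928) (l 15102272)) (l 15093904)))) (a (b (c (b (l 14691880) (l 14303064)) (a (b (l 14609272) (l 14344712)) (l 14583376))) (a (c (l 14029424) (b (l 14088016) (c (l 13884208) (l 13876080)))) (c (b (l 14296888) (l 14179960)) (b (l 14280400) (l 14164696))))) (b (a (c (a (l 14747736) (l 14820736)) (l 14666552)) (b (l 14957752) (l 14869416))) (b (a (c (l 14486088) (l 14515544)) (l 14817232)) (l 4))))) (b (a (a (a (b (l 15179184) (l 15142880)) (l 15147128)) (b (l 15729872) (l 15636792))) (a (b (l 16168552) (l 15980984)) (b (l 16400224)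 (l 16183488)))) (b (a (a (a (l 15106928) (l 15284208)) (b (l 15566224) (l 15538456))) (b (a (l 15851888) (l 16100072)) (l 1))) (b (l 4) (l 1))))) (b (a (a (b (l 16437520) (a (l 16385808) (l 16585728))) (c (a (l 16760024) (l 16777184)) (b (l 16768784) (l 16767488)))) (a (c (l 16777184) (l 16777184)) (l 1))) (l 1))), by decide +kernel⟩

theorem s2_pm_123 : ∃ t, chk3 f_pm_123 t 1 1 1 = true := ex3_b k0_pm_123 k1_pm_123

theorem c_pm_123 : CertFX 536870912 536870912 0 1230186008 1046898278 26843546 false true false .npn 1 2 3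
    ndF1q1 ndF5q3 pcF2 Cut.none Ext.none :=
  certFX2 (fam := false) (s1 := true) (s2 := false) (a := 1) (b := 2) (c := 3) (cn := .npn) (n1 := ndF1q1) (n2 := ndF5q3) (pc := pcF2) (cut := Cut.none) (xt := Ext.none) (P1 := 536870912) (W1 := 536870912) (P2 := 0) (W2 := 1230186008) (P3 := 1046898278) (W3 := 26843546)
    rfl (fun _ => rfl) s2_pm_123

noncomputable def f_pm_133 : ℕ → ℕ → ℕ → ℕ → Bool := onCell 536870912 536870912 0 1230186008 1046898278 26843546
    (rowFX 0 false true false .dn 1 3 3 (qsf 536870912 536870912 0 1230186008 3) ndF1q1 ndF5q3 pcF3 Cut.none Ext.none)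

def k0_pm_133 : ∃ t, chk3 f_pm_133 t 1 1 1 = true :=
  ⟨(b (a (b (a (a (l 16759088) (l 1)) (l 1)) (l 1)) (l 1)) (l 1)), by decide +kernel⟩

theorem c_pm_133 : CertFX 536870912 536870912 0 1230186008 1046898278 26843546 false true false .dn 1 3 3
    ndF1q1 ndF5q3 pcF3 Cut.none Ext.none :=
  certFX0 (fam := false) (s1 := true) (s2 := false) (a := 1) (b := 3) (c := 3) (cn := .dn) (n1 := ndF1q1) (n2 := ndF5q3) (pc := pcF3) (cut := Cut.none) (xt := Ext.none) (P1 := 536870912) (W1 := 536870912) (P2 := 0) (W2 := 1230186008) (P3 := 1046898278) (W3 := 26843546)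
    rfl k0_pm_133

noncomputable def f_pm_202_a : ℕ → ℕ → ℕ → ℕ → Bool := onCell 0 420477299 0 536870912 1046898278 26843546
    (rowFX 1 false true false .pp 2 0 2 (qsf 0 420477299 1073741824 536870912 0) ndF1q2a ndF5q2 pcF0 Cut.none Ext.none)

def k0_pm_202_a : ∃ t, chk3 f_pm_202_a t 2 4 1 = true :=
  ⟨(l 3), by decide +kernel⟩

def k1_pm_202_a : ∃ t, chk3 f_pm_202_a t 6 8 1 = true :=
  ⟨(l 3), by decide +kernel⟩

def k2_pm_202_a : ∃ t, chk3 f_pm_202_a t 14 16 1 = true :=
  ⟨(a (l 3) (c (b (b (b (c (a (l 16371808) (l 16371016)) (a (l 16368984) (l 16369648))) (a (l 150490810071) (c (l 16429304) (b (l 16413840) (c (l 16441528) (l 16443320)))))) (b (b (a (l 151027788471) (c (l 16475448) (c (l 16476264) (l 16480304)))) (c (a (l 16518632) (l 16445024)) (l 16518960))) (a (l 152101655111) (c (l 16478872) (a (l 16552272) (l 16561264)))))) (c (b (b (l 145122257271) (c (l 145122124887) (l 146195842807))) (a (l 154248656455) (b (l 16424232) (l 16352576)))) (b (b (l 146732817863) (l 147269537447))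 (b (l 148343103527) (c (l 148879856663) (l 16255288)))))) (b (b (c (a (b (b (l 16308424) (b (l 148880062295) (l 16389768))) (l 16414960)) (b (b (l 16362840) (a (l 16318288) (a (l 16370816) (b (l 16398672) (l 16408824))))) (c (b (l 16373312) (l 16428256)) (c (a (l 16433696) (l 16399896)) (b (l 16333576) (l 16438568)))))) (b (c (b (a (l 16284720) (l 16338816)) (c (a (b (l 146195671191) (l 16390656)) (a (a (l 16379896) (l 16388192)) (b (l 16395208) (l 16412080)))) (b (a (l 16332584) (l 16315952)) (l 138679500983)))) (b (b (c (l 16336368) (a (l 141363745015) (l 16352248))) (c (a (l 16355928) (l 16368192)) (l 16357504))) (c (l 16342872) (l 16389232)))) (c (b (a (l 16422296) (c (l 16336648) (l 16424192))) (l 16464776)) (c (l 16409520) (l 16453056))))) (c (b (a (l 16430512) (b (c (a (l 16486432) (l 16489864)) (l 16430112)) (l 16530448))) (c (l 16507064) (l 16503448))) (c (c (b (l 16527944) (l 16556776)) (l 16410408)) (l 16475248)))) (c (b (c (l 146732595191) (b (l 181629482711) (l 16344944)))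 (c (b (l 16276744) (l 148879758631)) (l 16313080))) (b (l 16419400) (l 16310200)))))), by decide +kernel⟩

def k3_pm_202_a : ∃ t, chk3 f_pm_202_a t 15 32 2 = true :=
  ⟨(a (a (b (c (l 16314080) (b (a (l 16380896) (l 16371984)) (c (l 16455984) (b (l 16447504) (l 16475408))))) (a (c (b (l 16384464) (l 16539544)) (b (b (l 16442624) (l 16521328)) (l 16560776))) (b (c (l 16445944) (c (l 16496280) (l 16522880))) (c (l 16523288) (l 16548792))))) (b (b (c (l 16378024) (c (l 16401824) (b (l 16372848) (l 16432616)))) (c (l 16482712) (c (l 16437752) (b (l 16485320) (c (l 16487480) (a (l 16518384) (l 16537808))))))) (c (b (c (l 16543008) (l 16502280)) (c (l 16589384) (l 16596104))) (b (b (c (l 16545360) (l 16545496)) (l 16499664)) (c (l 16600144) (l 16603744)))))) (b (b (c (a (l 16350936) (c (l 16438376) (l 16448168))) (a (l 16272024) (l 16461976))) (c (a (b (l 16493520) (l 16501576)) (c (l 16541312) (l 16551968))) (a (c (b (l 16503440) (l 16534840)) (b (l 16517040) (c (l 16562352) (l 16562080))))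 (l 16564608)))) (c (b (c (a (l 16594360) (b (l 16620496) (l 16609712))) (b (a (l 16594568) (l 16628808)) (a (l 16619200) (c (l 16630248) (l 16637664))))) (c (c (l 16528016) (l 16591960)) (a (l 16631680) (l 16596008)))) (b (c (a (b (c (l 16599864) (l 16594472)) (l 16609088)) (b (l 16630848) (l 16639408))) (a (c (l 16585672) (l 16571568)) (l 16612120))) (c (a (l 16625360) (l 16557016)) (b (a (l 16596816) (l 16621504)) (l 16635440))))))), by decide +kernel⟩

def k4_pm_202_a : ∃ t, chk3 f_pm_202_a t 15 32 3 = true :=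
  ⟨(b (c (b (a (b (l 16354920) (b (l 16370432) (c (l 16350192) (a (c (l 16427136) (l 16363104)) (l 16464544))))) (l 16443272)) (b (a (a (c (a (l 16444264) (c (l 16469048) (l 16450592))) (c (a (l 16449096) (l 16382000)) (l 16403072))) (c (a (c (l 16486168) (l 16422512)) (l 16500752)) (l 16481504))) (c (l 16536664) (l 16524528))) (a (c (a (a (l 16468000) (l 16490272)) (c (l 16436712) (l 16412632))) (c (l 16420672) (l 16456720))) (c (l 16560608) (l 16537048))))) (b (b (c (l 16402936) (c (l 16300240) (a (l 16398320) (l 16434080)))) (c (a (c (a (l 16287736) (l 16449720)) (l 16430384)) (l 16468096)) (l 16354456))) (c (a (a (l 16379080) (l 16488224)) (l 16531600)) (a (l 16486720) (l 16545528))))) (c (b (a (c (a (a (l 16518920) (l 16526088)) (b (c (l 16531200) (l 16494360)) (l 16550088))) (l 16470872)) (b (l 16566928) (c (l 16557120) (l 16601824)))) (a (a (l 16500352) (l 16618072)) (l 16587432))) (a (c (a (l 16388960) (l 16605352)) (l 16504512)) (l 16610360)))), by decide +kernel⟩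

def k5_pm_202_a : ∃ t, chk3 f_pm_202_a t 15 33 1 = true :=
  ⟨(c (b (a (c (a (c (l 16392288) (b (l 16547608) (l 16448080))) (c (l 16399944) (l 16389224))) (c (b (a (l 16537728) (l 16567824)) (l 16423864)) (l 16369776))) (c (a (b (l 16581584) (b (l 16530696) (l 16495560))) (b (c (l 16575584) (l 16587088)) (l 16459432))) (b (c (b (l 16542488) (l 16568912)) (l 16572528)) (l 16455168)))) (c (a (c (b (l 16346920) (l 16287648)) (l 16232112)) (b (l 16375960) (l 16349656))) (a (c (l 16240384) (l 16225720)) (c (l 16350032) (l 16268160))))) (c (c (a (b (c (l 16381800) (l 16374560)) (c (l 16298888) (l 16294168))) (b (l 16412072) (l 16212664))) (b (a (b (l 16428928) (l 16407904)) (l 16374864)) (a (l 16332216) (l 16312704)))) (b (a (c (l 16381696) (l 16403000)) (b (l 16519392) (l 16453880))) (a (l 16329392) (l 16269432))))), by decide +kernel⟩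

def k6_pm_202_a : ∃ t, chk3 f_pm_202_a t 14 17 1 = true :=
  ⟨(a (l 3) (a (l 3) (c (b (c (b (a (l 16249440) (l 16247368)) (c (l 16109136) (l 16085960))) (b (c (l 16214264) (a (l 16201384) (l 16201192))) (c (a (l 16070088) (l 16069984)) (l 16053056)))) (b (c (b (c (l 16004440) (l 15979216)) (a (c (l 15988664) (l 15964640)) (c (l 15939600) (l 15915808)))) (b (l 15959856) (l 15937576))) (c (c (b (l 154247831543) (l 16073968)) (l 16026872)) (l 16020424)))) (b (b (c (l 16183376) (l 16177776)) (l 16043144)) (b (b (l 15945912) (a (l 15940504) (l 15890144))) (l 16007280)))))), by decide +kernel⟩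

def k7_pm_202_a : ∃ t, chk3 f_pm_202_a t 15 17 1 = true :=
  ⟨(a (c (b (c (b (a (b (l 16287744) (l 16215408)) (b (l 16275424) (l 16201352))) (a (c (l 16113232) (l 16090776)) (l 16088264))) (b (a (c (l 16224200) (l 16164448)) (b (l 16244576) (l 16167704))) (a (b (c (l 16108384) (l 16094408)) (l 16028368)) (l 16058648)))) (c (b (a (c (b (l 15996904) (l 15920440)) (b (c (l 15977280) (l 15964672)) (l 15897808))) (l 15940184)) (a (b (c (a (b (l 15876312) (l 15876600)) (c (l 15851112) (l 15837864))) (l 15853656)) (a (l 15924488) (b (l 15814512) (l 15840320)))) (b (l 15832440) (b (l 15775760) (a (l 15762240) (l 15738480)))))) (b (l 15922600) (a (b (l 15845312) (l 15866768)) (l 15785736))))) (c (b (a (l 15973144) (l 15961488)) (b (l 15912896) (a (l 15729168) (l 15773600)))) (b (a (l 15966944) (l 15934088)) (b (l 15902784) (a (b (l 15822840) (l 15844784)) (l 15761464)))))) (c (b (c (b (a (b (l 16268768) (l 16195320)) (l 16225584)) (a (c (l 16088552) (l 16069632)) (l 16066312))) (b (b (l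 16122472) (a (l 16122392) (l 16144472))) (a (c (l 16053576) (l 16043824)) (l 16040368)))) (c (b (a (l 15884968) (c (l 15923400) (l 15843400))) (c (b (l 15812888) (l 15739080)) (l 15763360))) (b (a (l 15902248) (l 15892328)) (l 15753880)))) (b (a (b (b (l 16219280) (l 16146592)) (l 16033496)) (c (l 15987992) (l 16003032))) (b (a (l 15886960) (l 15876776)) (l 15734904))))), by decide +kernel⟩

def k8_pm_202_a : ∃ t, chk3 f_pm_202_a t 3 9 1 = true :=
  ⟨(a (l 3) (a (a (l 3) (a (l 3) (b (b (c (b (l 164985556567) (l 16271824)) (b (l 16171352) (l 16304776))) (c (l 16321432) (l 16338944))) (b (c (l 16362264) (l 16358312)) (l 3))))) (a (b (c (b (b (a (c (l 15985952) (l 15976608)) (a (c (l 15825832) (l 15814128)) (b (l 15706272) (l 15743768)))) (a (l 16127928) (c (l 15909960) (l 15899224)))) (a (l 16143448) (c (l 15964216) (l 16102944)))) (b (b (a (l 15962288) (a (l 15796368) (l 15703704))) (a (l 16112936) (c (l 15888432) (l 15877640)))) (a (l 16196864) (c (l 16073864) (l 15939928)))))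 (c (b (b (c (l 16252576) (l 16311808)) (l 16344560)) (b (l 16391592) (l 16329704))) (b (b (l 16159480) (a (l 16533048) (l 16379240))) (a (c (l 16375488) (l 16309712)) (l 16405592))))) (a (b (b (c (b (c (b (l 15673048) (l 15634960)) (l 15647768)) (l 15682704)) (b (b (l 15638176) (l 15598576)) (l 15655168))) (c (c (l 15787848) (l 15881504)) (b (l 15793512) (l 15931192)))) (c (b (b (c (l 16086512) (l 16077888)) (l 16227552)) (l 16199056)) (b (b (l 15939112) (l 16130448)) (b (l 16284584) (l 16413488))))) (b (b (c (b (l 15609624) (c (b (l 15517456) (l 15510320)) (l 15508816))) (b (l 15580424) (b (l 15476784) (l 15469256)))) (c (l 15655512) (l 15626720))) (b (c (c (l 15935968) (l 15925160)) (l 15825048)) (b (l 16151176) (c (l 16309600) (l 16256712))))))))), by decide +kernel⟩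

def k9_pm_202_a : ∃ t, chk3 f_pm_202_a t 1 5 1 = true :=
  ⟨(a (l 3) (a (l 3) (a (l 3) (b (b (c (a (b (a (b (l 16307848) (c (l 16223072) (l 16216176))) (l 16317600)) (a (l 16263880) (b (l 16297888) (l 16334264)))) (b (a (l 16459088) (l 16316336)) (b (a (l 16420368) (l 16556200)) (a (l 16385664) (l 16429384))))) (a (b (b (l 16135712) (a (c (l 16209280) (b (l 16208184) (l 16184608))) (l 16289464))) (a (l 16251168) (b (c (l 16289232) (b (l 16278736) (l 16276504))) (l 16323664)))) (b (a (l 16352208) (c (l 16375928) (l 16310800))) (b (a (c (l 16414520) (l 16326736)) (l 16449184)) (a (c (l 16378984) (l 16353552)) (c (l 16467200) (b (l 16475208) (l 16443072)))))))) (c (a (l 16341520) (a (l 16492536) (l 16439056))) (a (c (l 16420056) (l 16353576)) (c (b (l 16473504) (l 16618480)) (a (l 16444672) (b (l 16496760) (l 16623664))))))) (b (a (a (l 3) (c (l 140290628951) (b (l 16614592) (l 16585792)))) (c (c (l 16457160) (l 16434376)) (c (l 16411592) (c (l 16431208) (l 16409328))))) (a (a (l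 3) (c (b (l 134921781255) (l 36674571191)) (b (b (l 16581200) (l 16542272)) (l 16535520)))) (b (c (b (l 16470432) (a (l 16481144) (l 16407576))) (b (c (l 16464680) (l 16460848)) (c (l 16437712) (l 16433416)))) (c (c (l 16441672) (l 16437280)) (c (l 16432896) (l 16428512)))))))))), by decide +kernel⟩

def k10_pm_202_a : ∃ t, chk3 f_pm_202_a t 1 3 1 = true :=
  ⟨(a (l 3) (a (l 3) (a (l 3) (a (b (a (l 3) (b (b (c (l 16541640) (l 16535520)) (l 3)) (l 3))) (l 3)) (b (b (c (b (c (b (l 16441672) (l 16441672)) (l 16374368)) (c (l 16441672) (l 16437280))) (b (c (l 16432896) (l 16386568)) (c (l 16432896) (l 16428512)))) (c (b (c (l 16441672) (l 16437280)) (c (l 16441672) (l 16437280))) (c (b (l 16432896) (l 16432896)) (b (l 16428512) (l 16428512))))) (a (l 3) (b (c (b (l 16403600) (l 16403600)) (c (l 16396320) (l 16370496))) (b (c (l 16403600) (l 149886791975)) (l 2))))))))), by decide +kernel⟩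

theorem s11_pm_202_a : ∃ t, chk3 f_pm_202_a t 7 17 1 = true := ex3_a k6_pm_202_a k7_pm_202_a

theorem s12_pm_202_a : ∃ t, chk3 f_pm_202_a t 15 32 1 = true := ex3_c k3_pm_202_a k4_pm_202_a

theorem s13_pm_202_a : ∃ t, chk3 f_pm_202_a t 15 16 1 = true := ex3_b s12_pm_202_a k5_pm_202_a

theorem s14_pm_202_a : ∃ t, chk3 f_pm_202_a t 7 16 1 = true := ex3_a k2_pm_202_a s13_pm_202_a

theorem s15_pm_202_a : ∃ t, chk3 f_pm_202_a t 7 8 1 = true := ex3_b s14_pm_202_a s11_pm_202_a

theorem s16_pm_202_a : ∃ t, chk3 f_pm_202_a t 3 8 1 = true := ex3_a k1_pm_202_a s15_pm_202_a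

theorem s17_pm_202_a : ∃ t, chk3 f_pm_202_a t 3 4 1 = true := ex3_b s16_pm_202_a k8_pm_202_a

theorem s18_pm_202_a : ∃ t, chk3 f_pm_202_a t 1 4 1 = true := ex3_a k0_pm_202_a s17_pm_202_a

theorem s19_pm_202_a : ∃ t, chk3 f_pm_202_a t 1 2 1 = true := ex3_b s18_pm_202_a k9_pm_202_a

theorem s20_pm_202_a : ∃ t, chk3 f_pm_202_a t 1 1 1 = true := ex3_b s19_pm_202_a k10_pm_202_a

theorem c_pm_202_a : CertFX 0 420477299 1073741824 536870912 1046898278 26843546 false true false .pp 2 0 2
    ndF1q2a ndF5q2 pcF0 Cut.none Ext.none :=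
  certFX1 (fam := false) (s1 := true) (s2 := false) (a := 2) (b := 0) (c := 2) (cn := .pp) (n1 := ndF1q2a) (n2 := ndF5q2) (pc := pcF0) (cut := Cut.none) (xt := Ext.none) (P1 := 0) (W1 := 420477299) (P2 := 1073741824) (W2 := 536870912) (P3 := 1046898278) (W3 := 26843546)
    rfl (fun _ => rfl) s20_pm_202_a

noncomputable def f_pm_202_b : ℕ → ℕ → ℕ → ℕ → Bool := onCell 1239849684 370763052 1073741824 536870912 1046898278 26843546
    (rowFX 0 false true false .pp 2 0 2 (qsf 1239849684 370763052 1073741824 536870912 0) ndF1q2b ndF5q2 pcF0 Cut.none Ext.none)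

def k0_pm_202_b : ∃ t, chk3 f_pm_202_b t 1 1 1 = true :=
  ⟨(l 3), by decide +kernel⟩

theorem c_pm_202_b : CertFX 1239849684 370763052 1073741824 536870912 1046898278 26843546 false true false .pp 2 0 2
    ndF1q2b ndF5q2 pcF0 Cut.none Ext.none :=
  certFX0 (fam := false) (s1 := true) (s2 := false) (a := 2) (b := 0) (c := 2) (cn := .pp) (n1 := ndF1q2b) (n2 := ndF5q2) (pc := pcF0) (cut := Cut.none) (xt := Ext.none) (P1 := 1239849684) (W1 := 370763052) (P2 := 1073741824) (W2 := 536870912) (P3 := 1046898278) (W3 := 26843546)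
    rfl k0_pm_202_b

noncomputable def f_pm_203_a : ℕ → ℕ → ℕ → ℕ → Bool := onCell 0 420477299 0 1230186008 1046898278 26843546
    (rowFX 0 false true false .up 2 0 3 (qsf 0 420477299 0 1230186008 0) ndF1q2a ndF5q3 pcF0 Cut.none Ext.none)

def k0_pm_203_a : ∃ t, chk3 f_pm_203_a t 1 1 1 = true :=
  ⟨(b (l 2) (b (l 2) (a (l 3) (b (l 3) (b (l 3) (b (l 3) (a (l 3) (a (l 3) (a (l 3) (b (l 3) (c (l 16439472) (l 29694814151)))))))))))), by decide +kernel⟩

theorem c_pm_203_a : CertFX 0 420477299 0 1230186008 1046898278 26843546 false true false .up 2 0 3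
    ndF1q2a ndF5q3 pcF0 Cut.none Ext.none :=
  certFX0 (fam := false) (s1 := true) (s2 := false) (a := 2) (b := 0) (c := 3) (cn := .up) (n1 := ndF1q2a) (n2 := ndF5q3) (pc := pcF0) (cut := Cut.none) (xt := Ext.none) (P1 := 0) (W1 := 420477299) (P2 := 0) (W2 := 1230186008) (P3 := 1046898278) (W3 := 26843546)
    rfl k0_pm_203_a

noncomputable def f_pm_203_b : ℕ → ℕ → ℕ → ℕ → Bool := onCell 1239849684 370763052 0 1230186008 1046898278 26843546
    (rowFX 0 false true false .up 2 0 3 (qsf 1239849684 370763052 0 1230186008 0) ndF1q2b ndF5q3 pcF0 Cut.none Ext.none)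

def k0_pm_203_b : ∃ t, chk3 f_pm_203_b t 1 1 1 = true :=
  ⟨(b (l 3) (l 3)), by decide +kernel⟩

theorem c_pm_203_b : CertFX 1239849684 370763052 0 1230186008 1046898278 26843546 false true false .up 2 0 3
    ndF1q2b ndF5q3 pcF0 Cut.none Ext.none :=
  certFX0 (fam := false) (s1 := true) (s2 := false) (a := 2) (b := 0) (c := 3) (cn := .up) (n1 := ndF1q2b) (n2 := ndF5q3) (pc := pcF0) (cut := Cut.none) (xt := Ext.none) (P1 := 1239849684) (W1 := 370763052) (P2 := 0) (W2 := 1230186008) (P3 := 1046898278) (W3 := 26843546)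
    rfl k0_pm_203_b

noncomputable def f_pm_213_a : ℕ → ℕ → ℕ → ℕ → Bool := onCell 0 420477299 0 1230186008 1046898278 26843546
    (rowFX 0 false true false .pnn 2 1 3 (qsf 0 420477299 0 1230186008 1) ndF1q2a ndF5q3 pcF1 Cut.none Ext.none)

def k0_pm_213_a : ∃ t, chk3 f_pm_213_a t 1 1 1 = true :=
  ⟨(b (b (l 3) (l 3)) (b (l 3) (a (l 3) (b (l 3) (b (l 3) (b (l 3) (l 1))))))), by decide +kernel⟩

theorem c_pm_213_a : CertFX 0 420477299 0 1230186008 1046898278 26843546 false true false .pnn 2 1 3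
    ndF1q2a ndF5q3 pcF1 Cut.none Ext.none :=
  certFX0 (fam := false) (s1 := true) (s2 := false) (a := 2) (b := 1) (c := 3) (cn := .pnn) (n1 := ndF1q2a) (n2 := ndF5q3) (pc := pcF1) (cut := Cut.none) (xt := Ext.none) (P1 := 0) (W1 := 420477299) (P2 := 0) (W2 := 1230186008) (P3 := 1046898278) (W3 := 26843546)
    rfl k0_pm_213_a

noncomputable def f_pm_213_b : ℕ → ℕ → ℕ → ℕ → Bool := onCell 1239849684 370763052 0 1230186008 1046898278 26843546
    (rowFX 0 false true false .pnn 2 1 3 (qsf 1239849684 370763052 0 1230186008 1) ndF1q2b ndF5q3 pcF1 Cut.none Ext.none)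

def k0_pm_213_b : ∃ t, chk3 f_pm_213_b t 1 1 1 = true :=
  ⟨(b (l 3) (l 3)), by decide +kernel⟩

theorem c_pm_213_b : CertFX 1239849684 370763052 0 1230186008 1046898278 26843546 false true false .pnn 2 1 3
    ndF1q2b ndF5q3 pcF1 Cut.none Ext.none :=
  certFX0 (fam := false) (s1 := true) (s2 := false) (a := 2) (b := 1) (c := 3) (cn := .pnn) (n1 := ndF1q2b) (n2 := ndF5q3) (pc := pcF1) (cut := Cut.none) (xt := Ext.none) (P1 := 1239849684) (W1 := 370763052) (P2 := 0) (W2 := 1230186008) (P3 := 1046898278) (W3 := 26843546)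
    rfl k0_pm_213_b

noncomputable def f_pm_303 : ℕ → ℕ → ℕ → ℕ → Bool := onCell 1610612736 469762048 0 1230186008 1046898278 26843546
    (rowFX 0 false true false .npn 3 0 3 (qsf 1610612736 469762048 0 1230186008 0) ndF1q3 ndF5q3 pcF0 Cut.none Ext.none)

def k0_pm_303 : ∃ t, chk3 f_pm_303 t 1 1 1 = true :=
  ⟨(b (l 3) (l 3)), by decide +kernel⟩

theorem c_pm_303 : CertFX 1610612736 469762048 0 1230186008 1046898278 26843546 false true false .npn 3 0 3
    ndF1q3 ndF5q3 pcF0 Cut.none Ext.none :=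
  certFX0 (fam := false) (s1 := true) (s2 := false) (a := 3) (b := 0) (c := 3) (cn := .npn) (n1 := ndF1q3) (n2 := ndF5q3) (pc := pcF0) (cut := Cut.none) (xt := Ext.none) (P1 := 1610612736) (W1 := 469762048) (P2 := 0) (W2 := 1230186008) (P3 := 1046898278) (W3 := 26843546)
    rfl k0_pm_303

noncomputable def f_pm_313 : ℕ → ℕ → ℕ → ℕ → Bool := onCell 1610612736 469762048 0 1230186008 1046898278 26843546
    (rowFX 0 false true false .dn 3 1 3 (qsf 1610612736 469762048 0 1230186008 1) ndF1q3 ndF5q3 pcF1 Cut.none Ext.none)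

def k0_pm_313 : ∃ t, chk3 f_pm_313 t 1 1 1 = true :=
  ⟨(b (l 3) (l 1)), by decide +kernel⟩

theorem c_pm_313 : CertFX 1610612736 469762048 0 1230186008 1046898278 26843546 false true false .dn 3 1 3
    ndF1q3 ndF5q3 pcF1 Cut.none Ext.none :=
  certFX0 (fam := false) (s1 := true) (s2 := false) (a := 3) (b := 1) (c := 3) (cn := .dn) (n1 := ndF1q3) (n2 := ndF5q3) (pc := pcF1) (cut := Cut.none) (xt := Ext.none) (P1 := 1610612736) (W1 := 469762048) (P2 := 0) (W2 := 1230186008) (P3 := 1046898278) (W3 := 26843546)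
    rfl k0_pm_313

noncomputable def f_mm_001 : ℕ → ℕ → ℕ → ℕ → Bool := onCell 67108864 469762048 536870912 469762048 1046898278 26843546
    (rowFX 0 false false false .up 0 0 1 (qsf 67108864 469762048 536870912 469762048 0) ndF1q0 ndF5q1 pcF0 Cut.none Ext.none)

def k0_mm_001 : ∃ t, chk3 f_mm_001 t 1 1 1 = true :=
  ⟨(l 3), by decide +kernel⟩

theorem c_mm_001 : CertFX 67108864 469762048 536870912 469762048 1046898278 26843546 false false false .up 0 0 1
    ndF1q0 ndF5q1 pcF0 Cut.none Ext.none :=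
  certFX0 (fam := false) (s1 := false) (s2 := false) (a := 0) (b := 0) (c := 1) (cn := .up) (n1 := ndF1q0) (n2 := ndF5q1) (pc := pcF0) (cut := Cut.none) (xt := Ext.none) (P1 := 67108864) (W1 := 469762048) (P2 := 536870912) (W2 := 469762048) (P3 := 1046898278) (W3 := 26843546)
    rfl k0_mm_001

noncomputable def f_mm_011 : ℕ → ℕ → ℕ → ℕ → Bool := onCell 67108864 469762048 536870912 469762048 1046898278 26843546
    (rowFX 0 false false false .pnn 0 1 1 (qsf 67108864 469762048 536870912 469762048 1) ndF1q0 ndF5q1 pcF1 Cut.none Ext.none)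

def k0_mm_011 : ∃ t, chk3 f_mm_011 t 1 1 1 = true :=
  ⟨(l 3), by decide +kernel⟩

theorem c_mm_011 : CertFX 67108864 469762048 536870912 469762048 1046898278 26843546 false false false .pnn 0 1 1
    ndF1q0 ndF5q1 pcF1 Cut.none Ext.none :=
  certFX0 (fam := false) (s1 := false) (s2 := false) (a := 0) (b := 1) (c := 1) (cn := .pnn) (n1 := ndF1q0) (n2 := ndF5q1) (pc := pcF1) (cut := Cut.none) (xt := Ext.none) (P1 := 67108864) (W1 := 469762048) (P2 := 536870912) (W2 := 469762048) (P3 := 1046898278) (W3 := 26843546)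
    rfl k0_mm_011

noncomputable def f_mm_012 : ℕ → ℕ → ℕ → ℕ → Bool := onCell 67108864 469762048 1073741824 536870912 1046898278 26843546
    (rowFX 0 false false false .pnp 0 1 2 (qsf 67108864 469762048 1073741824 536870912 1) ndF1q0 ndF5q2 pcF1 Cut.none Ext.none)

def k0_mm_012 : ∃ t, chk3 f_mm_012 t 1 1 1 = true :=
  ⟨(l 5), by decide +kernel⟩

theorem c_mm_012 : CertFX 67108864 469762048 1073741824 536870912 1046898278 26843546 false false false .pnp 0 1 2
    ndF1q0 ndF5q2 pcF1 Cut.none Ext.none :=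
  certFX0 (fam := false) (s1 := false) (s2 := false) (a := 0) (b := 1) (c := 2) (cn := .pnp) (n1 := ndF1q0) (n2 := ndF5q2) (pc := pcF1) (cut := Cut.none) (xt := Ext.none) (P1 := 67108864) (W1 := 469762048) (P2 := 1073741824) (W2 := 536870912) (P3 := 1046898278) (W3 := 26843546)
    rfl k0_mm_012

noncomputable def f_mm_022 : ℕ → ℕ → ℕ → ℕ → Bool := onCell 67108864 469762048 1073741824 536870912 1046898278 26843546
    (rowFX 0 false false false .pp 0 2 2 (qsf 67108864 469762048 1073741824 536870912 2) ndF1q0 ndF5q2 pcF2 Cut.none Ext.none)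

def k0_mm_022 : ∃ t, chk3 f_mm_022 t 1 1 1 = true :=
  ⟨(l 5), by decide +kernel⟩

theorem c_mm_022 : CertFX 67108864 469762048 1073741824 536870912 1046898278 26843546 false false false .pp 0 2 2
    ndF1q0 ndF5q2 pcF2 Cut.none Ext.none :=
  certFX0 (fam := false) (s1 := false) (s2 := false) (a := 0) (b := 2) (c := 2) (cn := .pp) (n1 := ndF1q0) (n2 := ndF5q2) (pc := pcF2) (cut := Cut.none) (xt := Ext.none) (P1 := 67108864) (W1 := 469762048) (P2 := 1073741824) (W2 := 536870912) (P3 := 1046898278) (W3 := 26843546)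
    rfl k0_mm_022

noncomputable def f_mm_023 : ℕ → ℕ → ℕ → ℕ → Bool := onCell 67108864 469762048 0 1230186008 1046898278 26843546
    (rowFX 0 false false false .up 0 2 3 (qsf 67108864 469762048 0 1230186008 2) ndF1q0 ndF5q3 pcF2 Cut.none Ext.none)

def k0_mm_023 : ∃ t, chk3 f_mm_023 t 1 1 1 = true :=
  ⟨(l 5), by decide +kernel⟩

theorem c_mm_023 : CertFX 67108864 469762048 0 1230186008 1046898278 26843546 false false false .up 0 2 3
    ndF1q0 ndF5q3 pcF2 Cut.none Ext.none :=
  certFX0 (fam := false) (s1 := false) (s2 := false) (a := 0) (b := 2) (c := 3) (cn := .up) (n1 := ndF1q0) (n2 := ndF5q3) (pc := pcF2) (cut := Cut.none) (xt := Ext.none) (P1 := 67108864) (W1 := 469762048) (P2 := 0) (W2 := 1230186008) (P3 := 1046898278) (W3 := 26843546)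
    rfl k0_mm_023

noncomputable def f_mm_033 : ℕ → ℕ → ℕ → ℕ → Bool := onCell 67108864 469762048 0 1230186008 1046898278 26843546
    (rowFX 0 false false false .pnn 0 3 3 (qsf 67108864 469762048 0 1230186008 3) ndF1q0 ndF5q3 pcF3 Cut.none Ext.none)

def k0_mm_033 : ∃ t, chk3 f_mm_033 t 1 1 1 = true :=
  ⟨(l 5), by decide +kernel⟩

theorem c_mm_033 : CertFX 67108864 469762048 0 1230186008 1046898278 26843546 false false false .pnn 0 3 3
    ndF1q0 ndF5q3 pcF3 Cut.none Ext.none :=
  certFX0 (fam := false) (s1 := false) (s2 := false) (a := 0) (b := 3) (c := 3) (cn := .pnn) (n1 := ndF1q0) (n2 := ndF5q3) (pc := pcF3) (cut := Cut.none) (xt := Ext.none) (P1 := 67108864) (W1 := 469762048) (P2 := 0) (W2 := 1230186008) (P3 := 1046898278) (W3 := 26843546)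
    rfl k0_mm_033

noncomputable def f_mm_101 : ℕ → ℕ → ℕ → ℕ → Bool := onCell 536870912 536870912 536870912 469762048 1046898278 26843546
    (rowFX 0 false false false .npn 1 0 1 (qsf 536870912 536870912 536870912 469762048 0) ndF1q1 ndF5q1 pcF0 Cut.none Ext.none)

def k0_mm_101 : ∃ t, chk3 f_mm_101 t 1 1 1 = true :=
  ⟨(l 3), by decide +kernel⟩

theorem c_mm_101 : CertFX 536870912 536870912 536870912 469762048 1046898278 26843546 false false false .npn 1 0 1
    ndF1q1 ndF5q1 pcF0 Cut.none Ext.none :=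
  certFX0 (fam := false) (s1 := false) (s2 := false) (a := 1) (b := 0) (c := 1) (cn := .npn) (n1 := ndF1q1) (n2 := ndF5q1) (pc := pcF0) (cut := Cut.none) (xt := Ext.none) (P1 := 536870912) (W1 := 536870912) (P2 := 536870912) (W2 := 469762048) (P3 := 1046898278) (W3 := 26843546)
    rfl k0_mm_101

noncomputable def f_mm_102 : ℕ → ℕ → ℕ → ℕ → Bool := onCell 536870912 536870912 0 536870912 1046898278 26843546
    (rowFX 1 false false false .npp 1 0 2 (qsf 536870912 536870912 1073741824 536870912 0) ndF1q1 ndF5q2 pcF0 Cut.none Ext.none)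

def k0_mm_102 : ∃ t, chk3 f_mm_102 t 1 1 1 = true :=
  ⟨(l 3), by decide +kernel⟩

theorem c_mm_102 : CertFX 536870912 536870912 1073741824 536870912 1046898278 26843546 false false false .npp 1 0 2
    ndF1q1 ndF5q2 pcF0 Cut.none Ext.none :=
  certFX1 (fam := false) (s1 := false) (s2 := false) (a := 1) (b := 0) (c := 2) (cn := .npp) (n1 := ndF1q1) (n2 := ndF5q2) (pc := pcF0) (cut := Cut.none) (xt := Ext.none) (P1 := 536870912) (W1 := 536870912) (P2 := 1073741824) (W2 := 536870912) (P3 := 1046898278) (W3 := 26843546)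
    rfl (fun _ => rfl) k0_mm_102

noncomputable def f_mm_112 : ℕ → ℕ → ℕ → ℕ → Bool := onCell 536870912 536870912 536870912 536870912 1046898278 26843546
    (rowFX 1 false false false .dn 1 1 2 (qsf 536870912 536870912 1073741824 536870912 1) ndF1q1 ndF5q2 pcF1 Cut.none Ext.none)

def k0_mm_112 : ∃ t, chk3 f_mm_112 t 1 1 1 = true :=
  ⟨(l 5), by decide +kernel⟩

theorem c_mm_112 : CertFX 536870912 536870912 1073741824 536870912 1046898278 26843546 false false false .dn 1 1 2
    ndF1q1 ndF5q2 pcF1 Cut.none Ext.none :=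
  certFX1 (fam := false) (s1 := false) (s2 := false) (a := 1) (b := 1) (c := 2) (cn := .dn) (n1 := ndF1q1) (n2 := ndF5q2) (pc := pcF1) (cut := Cut.none) (xt := Ext.none) (P1 := 536870912) (W1 := 536870912) (P2 := 1073741824) (W2 := 536870912) (P3 := 1046898278) (W3 := 26843546)
    rfl (fun _ => rfl) k0_mm_112

noncomputable def f_mm_113 : ℕ → ℕ → ℕ → ℕ → Bool := onCell 536870912 536870912 0 1230186008 1046898278 26843546
    (rowFX 0 false false false .nn 1 1 3 (qsf 536870912 536870912 0 1230186008 1) ndF1q1 ndF5q3 pcF1 Cut.none Ext.none)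

def k0_mm_113 : ∃ t, chk3 f_mm_113 t 1 1 1 = true :=
  ⟨(l 5), by decide +kernel⟩

theorem c_mm_113 : CertFX 536870912 536870912 0 1230186008 1046898278 26843546 false false false .nn 1 1 3
    ndF1q1 ndF5q3 pcF1 Cut.none Ext.none :=
  certFX0 (fam := false) (s1 := false) (s2 := false) (a := 1) (b := 1) (c := 3) (cn := .nn) (n1 := ndF1q1) (n2 := ndF5q3) (pc := pcF1) (cut := Cut.none) (xt := Ext.none) (P1 := 536870912) (W1 := 536870912) (P2 := 0) (W2 := 1230186008) (P3 := 1046898278) (W3 := 26843546)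
    rfl k0_mm_113

noncomputable def f_mm_123 : ℕ → ℕ → ℕ → ℕ → Bool := onCell 536870912 536870912 0 1230186008 1046898278 26843546
    (rowFX 0 false false false .npn 1 2 3 (qsf 536870912 536870912 0 1230186008 2) ndF1q1 ndF5q3 pcF2 Cut.none Ext.none)

def k0_mm_123 : ∃ t, chk3 f_mm_123 t 1 1 1 = true :=
  ⟨(l 5), by decide +kernel⟩

theorem c_mm_123 : CertFX 536870912 536870912 0 1230186008 1046898278 26843546 false false false .npn 1 2 3
    ndF1q1 ndF5q3 pcF2 Cut.none Ext.none :=
  certFX0 (fam := false) (s1 := false) (s2 := false) (a := 1) (b := 2) (c := 3) (cn := .npn) (n1 := ndF1q1) (n2 := ndF5q3) (pc := pcF2) (cut := Cut.none) (xt := Ext.none) (P1 := 536870912) (W1 := 536870912) (P2 := 0) (W2 := 1230186008) (P3 := 1046898278) (W3 := 26843546)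
    rfl k0_mm_123

noncomputable def f_mm_133 : ℕ → ℕ → ℕ → ℕ → Bool := onCell 536870912 536870912 0 1230186008 1046898278 26843546
    (rowFX 0 false false false .dn 1 3 3 (qsf 536870912 536870912 0 1230186008 3) ndF1q1 ndF5q3 pcF3 Cut.none Ext.none)

def k0_mm_133 : ∃ t, chk3 f_mm_133 t 1 1 1 = true :=
  ⟨(l 5), by decide +kernel⟩

theorem c_mm_133 : CertFX 536870912 536870912 0 1230186008 1046898278 26843546 false false false .dn 1 3 3
    ndF1q1 ndF5q3 pcF3 Cut.none Ext.none :=
  certFX0 (fam := false) (s1 := false) (s2 := false) (a := 1) (b := 3) (c := 3) (cn := .dn) (n1 := ndF1q1) (n2 := ndF5q3) (pc := pcF3) (cut := Cut.none) (xt := Ext.none) (P1 := 536870912) (W1 := 536870912) (P2 := 0) (W2 := 1230186008) (P3 := 1046898278) (W3 := 26843546)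
    rfl k0_mm_133

noncomputable def f_mm_202_a : ℕ → ℕ → ℕ → ℕ → Bool := onCell 0 420477299 1073741824 536870912 1046898278 26843546
    (rowFX 0 false false false .pp 2 0 2 (qsf 0 420477299 1073741824 536870912 0) ndF1q2a ndF5q2 pcF0 Cut.none Ext.none)

def k0_mm_202_a : ∃ t, chk3 f_mm_202_a t 1 1 1 = true :=
  ⟨(l 3), by decide +kernel⟩

theorem c_mm_202_a : CertFX 0 420477299 1073741824 536870912 1046898278 26843546 false false false .pp 2 0 2
    ndF1q2a ndF5q2 pcF0 Cut.none Ext.none :=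
  certFX0 (fam := false) (s1 := false) (s2 := false) (a := 2) (b := 0) (c := 2) (cn := .pp) (n1 := ndF1q2a) (n2 := ndF5q2) (pc := pcF0) (cut := Cut.none) (xt := Ext.none) (P1 := 0) (W1 := 420477299) (P2 := 1073741824) (W2 := 536870912) (P3 := 1046898278) (W3 := 26843546)
    rfl k0_mm_202_a

noncomputable def f_mm_202_b : ℕ → ℕ → ℕ → ℕ → Bool := onCell 1239849684 370763052 1073741824 536870912 1046898278 26843546
    (rowFX 0 false false false .pp 2 0 2 (qsf 1239849684 370763052 1073741824 536870912 0) ndF1q2b ndF5q2 pcF0 Cut.none Ext.none)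

def k0_mm_202_b : ∃ t, chk3 f_mm_202_b t 1 1 1 = true :=
  ⟨(l 3), by decide +kernel⟩

theorem c_mm_202_b : CertFX 1239849684 370763052 1073741824 536870912 1046898278 26843546 false false false .pp 2 0 2
    ndF1q2b ndF5q2 pcF0 Cut.none Ext.none :=
  certFX0 (fam := false) (s1 := false) (s2 := false) (a := 2) (b := 0) (c := 2) (cn := .pp) (n1 := ndF1q2b) (n2 := ndF5q2) (pc := pcF0) (cut := Cut.none) (xt := Ext.none) (P1 := 1239849684) (W1 := 370763052) (P2 := 1073741824) (W2 := 536870912) (P3 := 1046898278) (W3 := 26843546)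
    rfl k0_mm_202_b

noncomputable def f_mm_203_a : ℕ → ℕ → ℕ → ℕ → Bool := onCell 0 420477299 0 1230186008 1046898278 26843546
    (rowFX 0 false false false .up 2 0 3 (qsf 0 420477299 0 1230186008 0) ndF1q2a ndF5q3 pcF0 Cut.none Ext.none)

def k0_mm_203_a : ∃ t, chk3 f_mm_203_a t 1 1 1 = true :=
  ⟨(b (l 2) (l 3)), by decide +kernel⟩

theorem c_mm_203_a : CertFX 0 420477299 0 1230186008 1046898278 26843546 false false false .up 2 0 3
    ndF1q2a ndF5q3 pcF0 Cut.none Ext.none :=
  certFX0 (fam := false) (s1 := false) (s2 := false) (a := 2) (b := 0) (c := 3) (cn := .up) (n1 := ndF1q2a) (n2 := ndF5q3) (pc := pcF0) (cut := Cut.none) (xt := Ext.none) (P1 := 0) (W1 := 420477299) (P2 := 0) (W2 := 1230186008) (P3 := 1046898278) (W3 := 26843546)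
    rfl k0_mm_203_a

noncomputable def f_mm_203_b : ℕ → ℕ → ℕ → ℕ → Bool := onCell 1239849684 370763052 0 1230186008 1046898278 26843546
    (rowFX 0 false false false .up 2 0 3 (qsf 1239849684 370763052 0 1230186008 0) ndF1q2b ndF5q3 pcF0 Cut.none Ext.none)

def k0_mm_203_b : ∃ t, chk3 f_mm_203_b t 1 1 1 = true :=
  ⟨(b (l 3) (l 3)), by decide +kernel⟩

theorem c_mm_203_b : CertFX 1239849684 370763052 0 1230186008 1046898278 26843546 false false false .up 2 0 3
    ndF1q2b ndF5q3 pcF0 Cut.none Ext.none :=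
  certFX0 (fam := false) (s1 := false) (s2 := false) (a := 2) (b := 0) (c := 3) (cn := .up) (n1 := ndF1q2b) (n2 := ndF5q3) (pc := pcF0) (cut := Cut.none) (xt := Ext.none) (P1 := 1239849684) (W1 := 370763052) (P2 := 0) (W2 := 1230186008) (P3 := 1046898278) (W3 := 26843546)
    rfl k0_mm_203_b

noncomputable def f_mm_213_a : ℕ → ℕ → ℕ → ℕ → Bool := onCell 0 420477299 0 1230186008 1046898278 26843546
    (rowFX 0 false false false .pnn 2 1 3 (qsf 0 420477299 0 1230186008 1) ndF1q2a ndF5q3 pcF1 Cut.none Ext.none)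

def k0_mm_213_a : ∃ t, chk3 f_mm_213_a t 1 1 1 = true :=
  ⟨(b (l 3) (l 3)), by decide +kernel⟩

theorem c_mm_213_a : CertFX 0 420477299 0 1230186008 1046898278 26843546 false false false .pnn 2 1 3
    ndF1q2a ndF5q3 pcF1 Cut.none Ext.none :=
  certFX0 (fam := false) (s1 := false) (s2 := false) (a := 2) (b := 1) (c := 3) (cn := .pnn) (n1 := ndF1q2a) (n2 := ndF5q3) (pc := pcF1) (cut := Cut.none) (xt := Ext.none) (P1 := 0) (W1 := 420477299) (P2 := 0) (W2 := 1230186008) (P3 := 1046898278) (W3 := 26843546)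
    rfl k0_mm_213_a

noncomputable def f_mm_213_b : ℕ → ℕ → ℕ → ℕ → Bool := onCell 1239849684 370763052 0 1230186008 1046898278 26843546
    (rowFX 0 false false false .pnn 2 1 3 (qsf 1239849684 370763052 0 1230186008 1) ndF1q2b ndF5q3 pcF1 Cut.none Ext.none)

def k0_mm_213_b : ∃ t, chk3 f_mm_213_b t 1 1 1 = true :=
  ⟨(b (l 3) (l 3)), by decide +kernel⟩

theorem c_mm_213_b : CertFX 1239849684 370763052 0 1230186008 1046898278 26843546 false false false .pnn 2 1 3
    ndF1q2b ndF5q3 pcF1 Cut.none Ext.none :=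
  certFX0 (fam := false) (s1 := false) (s2 := false) (a := 2) (b := 1) (c := 3) (cn := .pnn) (n1 := ndF1q2b) (n2 := ndF5q3) (pc := pcF1) (cut := Cut.none) (xt := Ext.none) (P1 := 1239849684) (W1 := 370763052) (P2 := 0) (W2 := 1230186008) (P3 := 1046898278) (W3 := 26843546)
    rfl k0_mm_213_b

noncomputable def f_mm_303 : ℕ → ℕ → ℕ → ℕ → Bool := onCell 1610612736 469762048 0 1230186008 1046898278 26843546
    (rowFX 0 false false false .npn 3 0 3 (qsf 1610612736 469762048 0 1230186008 0) ndF1q3 ndF5q3 pcF0 Cut.none Ext.none)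

def k0_mm_303 : ∃ t, chk3 f_mm_303 t 1 1 1 = true :=
  ⟨(b (l 3) (l 3)), by decide +kernel⟩

theorem c_mm_303 : CertFX 1610612736 469762048 0 1230186008 1046898278 26843546 false false false .npn 3 0 3
    ndF1q3 ndF5q3 pcF0 Cut.none Ext.none :=
  certFX0 (fam := false) (s1 := false) (s2 := false) (a := 3) (b := 0) (c := 3) (cn := .npn) (n1 := ndF1q3) (n2 := ndF5q3) (pc := pcF0) (cut := Cut.none) (xt := Ext.none) (P1 := 1610612736) (W1 := 469762048) (P2 := 0) (W2 := 1230186008) (P3 := 1046898278) (W3 := 26843546)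
    rfl k0_mm_303

noncomputable def f_mm_313 : ℕ → ℕ → ℕ → ℕ → Bool := onCell 1610612736 469762048 0 1230186008 1046898278 26843546
    (rowFX 0 false false false .dn 3 1 3 (qsf 1610612736 469762048 0 1230186008 1) ndF1q3 ndF5q3 pcF1 Cut.none Ext.none)

def k0_mm_313 : ∃ t, chk3 f_mm_313 t 1 1 1 = true :=
  ⟨(b (l 3) (l 1)), by decide +kernel⟩

theorem c_mm_313 : CertFX 1610612736 469762048 0 1230186008 1046898278 26843546 false false false .dn 3 1 3
    ndF1q3 ndF5q3 pcF1 Cut.none Ext.none :=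
  certFX0 (fam := false) (s1 := false) (s2 := false) (a := 3) (b := 1) (c := 3) (cn := .dn) (n1 := ndF1q3) (n2 := ndF5q3) (pc := pcF1) (cut := Cut.none) (xt := Ext.none) (P1 := 1610612736) (W1 := 469762048) (P2 := 0) (W2 := 1230186008) (P3 := 1046898278) (W3 := 26843546)
    rfl k0_mm_313

end Pool.Agent.Strip051.G.IE1.Tab.C.FB15

namespace Pool.Agent.Strip051.G.IE1.Tab.C.FB16

open Pool.Agent.Strip051.PB Pool.Agent.Strip051.PB.T
open Pool.Agent.Strip051.G.IE1.Tab

noncomputable def f_pp_001 : ℕ → ℕ → ℕ → ℕ → Bool := onCell 67108864 469762048 536870912 469762048 1046898278 26843546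
    (rowFX 0 false true true .up 0 0 1 (qsf 67108864 469762048 536870912 469762048 0) ndF1q0 ndF6q1 pcF0 Cut.none Ext.none)

def k0_pp_001 : ∃ t, chk3 f_pp_001 t 1 1 1 = true :=
  ⟨(l 3), by decide +kernel⟩

theorem c_pp_001 : CertFX 67108864 469762048 536870912 469762048 1046898278 26843546 false true true .up 0 0 1
    ndF1q0 ndF6q1 pcF0 Cut.none Ext.none :=
  certFX0 (fam := false) (s1 := true) (s2 := true) (a := 0) (b := 0) (c := 1) (cn := .up) (n1 := ndF1q0) (n2 := ndF6q1) (pc := pcF0) (cut := Cut.none) (xt := Ext.none) (P1 := 67108864) (W1 := 469762048) (P2 := 536870912) (W2 := 469762048) (P3 := 1046898278) (W3 := 26843546)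
    rfl k0_pp_001

noncomputable def f_pp_011 : ℕ → ℕ → ℕ → ℕ → Bool := onCell 67108864 469762048 536870912 469762048 1046898278 26843546
    (rowFX 0 false true true .pnn 0 1 1 (qsf 67108864 469762048 536870912 469762048 1) ndF1q0 ndF6q1 pcF1 Cut.none Ext.none)

def k0_pp_011 : ∃ t, chk3 f_pp_011 t 1 1 1 = true :=
  ⟨(l 3), by decide +kernel⟩

theorem c_pp_011 : CertFX 67108864 469762048 536870912 469762048 1046898278 26843546 false true true .pnn 0 1 1
    ndF1q0 ndF6q1 pcF1 Cut.none Ext.none :=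
  certFX0 (fam := false) (s1 := true) (s2 := true) (a := 0) (b := 1) (c := 1) (cn := .pnn) (n1 := ndF1q0) (n2 := ndF6q1) (pc := pcF1) (cut := Cut.none) (xt := Ext.none) (P1 := 67108864) (W1 := 469762048) (P2 := 536870912) (W2 := 469762048) (P3 := 1046898278) (W3 := 26843546)
    rfl k0_pp_011

noncomputable def f_pp_012 : ℕ → ℕ → ℕ → ℕ → Bool := onCell 67108864 469762048 536870912 536870912 1046898278 26843546
    (rowFX 1 false true true .pnp 0 1 2 (qsf 67108864 469762048 1073741824 536870912 1) ndF1q0 ndF6q2 pcF1 Cut.none Ext.none)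

def k0_pp_012 : ∃ t, chk3 f_pp_012 t 1 1 1 = true :=
  ⟨(l 3), by decide +kernel⟩

theorem c_pp_012 : CertFX 67108864 469762048 1073741824 536870912 1046898278 26843546 false true true .pnp 0 1 2
    ndF1q0 ndF6q2 pcF1 Cut.none Ext.none :=
  certFX1 (fam := false) (s1 := true) (s2 := true) (a := 0) (b := 1) (c := 2) (cn := .pnp) (n1 := ndF1q0) (n2 := ndF6q2) (pc := pcF1) (cut := Cut.none) (xt := Ext.none) (P1 := 67108864) (W1 := 469762048) (P2 := 1073741824) (W2 := 536870912) (P3 := 1046898278) (W3 := 26843546)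
    rfl (fun _ => rfl) k0_pp_012

noncomputable def f_pp_022 : ℕ → ℕ → ℕ → ℕ → Bool := onCell 67108864 469762048 1073741824 536870912 1046898278 26843546
    (rowFX 1 false true true .pp 0 2 2 (qsf 67108864 469762048 1073741824 536870912 2) ndF1q0 ndF6q2 pcF2 Cut.none Ext.none)

def k0_pp_022 : ∃ t, chk3 f_pp_022 t 1 4 1 = true :=
  ⟨(b (l 3) (a (l 3) (a (l 3) (a (l 3) (l 2))))), by decide +kernel⟩

def k1_pp_022 : ∃ t, chk3 f_pp_022 t 2 40 1 = true :=
  ⟨(l 3), by decide +kernel⟩

def k2_pp_022 : ∃ t, chk3 f_pp_022 t 2 82 1 = true :=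
  ⟨(a (l 3) (a (l 3) (b (l 3) (c (b (l 16777216) (l 16777216)) (b (l 16777216) (l 16777216)))))), by decide +kernel⟩

def k3_pp_022 : ∃ t, chk3 f_pp_022 t 4 83 1 = true :=
  ⟨(a (b (l 3) (b (a (l 3) (a (l 3) (b (l 3) (c (l 9191395903831) (l 15853912))))) (b (b (b (a (l 3) (c (l 15756272) (l 15794272))) (b (a (a (l 3) (c (l 15595376) (l 15564416))) (c (l 15819184) (l 15794272))) (c (a (a (c (a (a (l 15388320) (l 15411656)) (l 15475864)) (a (l 15382048) (l 15458760))) (c (l 15602856) (l 15587448))) (c (l 15825384) (l 15812936))) (a (a (a (l 15355072) (l 15433240)) (l 15564416)) (a (l 15733920) (l 15853912)))))) (a (c (a (l 15428384) (l 15595376)) (l 15475000)) (c (l 15819184) (l 15794272)))) (a (c (a (l 15426808) (l 15595376)) (l 15474208)) (c (l 15819184) (l 15794272)))))) (b (b (l 3) (c (l 5236804846567) (l 4182927212599))) (b (b (c (l 4022939714535) (l 3085026197559)) (c (a (l 16000792) (l 16231904)) (a (l 16002144) (l 16217744)))) (b (b (b (c (l 16128256) (l 16111400)) (b (c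 (l 16107280) (l 16111400)) (c (a (l 16021768) (l 16231904)) (a (l 16002144) (l 16133856))))) (l 16119824)) (l 16119824))))), by decide +kernel⟩

def k4_pp_022 : ∃ t, chk3 f_pp_022 t 5 83 1 = true :=
  ⟨(b (a (b (a (l 3) (c (l 16690688) (l 16688992))) (c (c (l 16452864) (l 16450544)) (a (l 16473960) (l 16688992)))) (b (c (l 16777216) (l 16777216)) (c (l 16777216) (l 16777216)))) (a (b (b (c (l 16451704) (a (l 16473960) (l 16709960))) (c (a (l 16481640) (l 16606808)) (a (l 16473960) (a (l 16657440) (l 16761608))))) (b (b (b (c (l 16472672) (a (l 16473960) (l 16709960))) (a (b (c (l 16481640) (l 16473960)) (c (l 16481640) (c (l 16475880) (l 16472040)))) (b (c (l 16711664) (l 16709960)) (b (b (c (l 16711536) (l 16709832)) (c (l 16669504) (l 16625848))) (l 16710592))))) (a (l 16477800) (l 16710584))) (a (l 16477800) (l 16710560)))) (b (b (c (l 16777032) (l 16777032)) (b (c (l 16776400) (l 16776376)) (c (c (l 16775440) (l 16775416)) (c (l 16775392) (l 16775368))))) (b (b (b (c (l 16774256)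 (l 16774176)) (b (c (l 16772616) (l 16772496)) (b (b (c (l 16770904) (l 16770736)) (l 16769664)) (l 16769224)))) (l 16769192)) (l 16769120))))), by decide +kernel⟩

def k5_pp_022 : ∃ t, chk3 f_pp_022 t 2 21 1 = true :=
  ⟨(a (a (a (c (a (l 15424176) (l 15595376)) (l 15472896)) (c (l 15819184) (l 15794272))) (l 16035936)) (a (a (l 16477552) (l 16647040)) (l 16768432))), by decide +kernel⟩

def k6_pp_022 : ∃ t, chk3 f_pp_022 t 2 11 1 = true :=
  ⟨(a (a (c (a (l 15508624) (l 15819184)) (a (l 15472672) (l 15794272))) (b (l 15972888) (l 16056912))) (a (b (a (l 16477624) (l 16709688)) (l 16575208)) (l 16774328))), by decide +kernel⟩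

def k7_pp_022 : ∃ t, chk3 f_pp_022 t 3 5 1 = true :=
  ⟨(a (b (b (a (b (b (l 3) (b (l 3) (c (l 1216180387831) (l 1124912332791)))) (b (b (c (l 706689892343) (l 566566584279)) (c (b (l 16777216) (l 16777216)) (b (l 16777216) (l 16777216)))) (b (b (c (c (l 16776648) (l 16776640)) (c (l 16776640) (l 16776632))) (b (c (l 16775808) (l 16775768)) (c (a (l 16776648) (l 16773248)) (a (l 16776632) (l 16773144))))) (b (a (b (c (l 16775056) (l 16775000)) (b (l 16771824) (l 16768424))) (l 16764872)) (l 16759960))))) (b (b (l 3) (b (c (l 989620862935) (l 818359042007)) (c (l 16777216) (l 16777216)))) (a (b (b (c (l 16777216) (l 16777216)) (c (b (l 16777216) (l 16776624)) (b (l 16777216) (l 16776608)))) (b (b (c (c (l 16774152) (l 16774112)) (c (l 16774072) (l 16774032))) (l 16766744)) (b (l 16757464) (l 16750336)))) (l 2)))) (l 16754592)) (b (l 16767416) (l 16777200))) (l 2)), by decide +kernel⟩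

def k8_pp_022 : ∃ t, chk3 f_pp_022 t 1 3 1 = true :=
  ⟨(a (a (b (a (a (b (l 15494192) (l 15494192)) (c (l 15798216) (l 15794272))) (b (l 16119824) (l 16119824))) (a (b (l 15429272) (l 15387328)) (l 131095347735))) (b (a (l 16449384) (a (l 16777216) (l 2))) (l 2))) (l 2)), by decide +kernel⟩

theorem s9_pp_022 : ∃ t, chk3 f_pp_022 t 2 83 1 = true := ex3_a k3_pp_022 k4_pp_022

theorem s10_pp_022 : ∃ t, chk3 f_pp_022 t 2 41 1 = true := ex3_b k2_pp_022 s9_pp_022

theorem s11_pp_022 : ∃ t, chk3 f_pp_022 t 2 20 1 = true := ex3_b k1_pp_022 s10_pp_022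

theorem s12_pp_022 : ∃ t, chk3 f_pp_022 t 2 10 1 = true := ex3_b s11_pp_022 k5_pp_022

theorem s13_pp_022 : ∃ t, chk3 f_pp_022 t 2 5 1 = true := ex3_b s12_pp_022 k6_pp_022

theorem s14_pp_022 : ∃ t, chk3 f_pp_022 t 1 5 1 = true := ex3_a s13_pp_022 k7_pp_022

theorem s15_pp_022 : ∃ t, chk3 f_pp_022 t 1 2 1 = true := ex3_b k0_pp_022 s14_pp_022

theorem s16_pp_022 : ∃ t, chk3 f_pp_022 t 1 1 1 = true := ex3_b s15_pp_022 k8_pp_022

theorem c_pp_022 : CertFX 67108864 469762048 1073741824 536870912 1046898278 26843546 false true true .pp 0 2 2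
    ndF1q0 ndF6q2 pcF2 Cut.none Ext.none :=
  certFX1 (fam := false) (s1 := true) (s2 := true) (a := 0) (b := 2) (c := 2) (cn := .pp) (n1 := ndF1q0) (n2 := ndF6q2) (pc := pcF2) (cut := Cut.none) (xt := Ext.none) (P1 := 67108864) (W1 := 469762048) (P2 := 1073741824) (W2 := 536870912) (P3 := 1046898278) (W3 := 26843546)
    rfl (fun _ => rfl) s16_pp_022

noncomputable def f_pp_023 : ℕ → ℕ → ℕ → ℕ → Bool := onCell 1073741824 536870912 0 1230186008 1046898278 26843546
    (rowFX 2 false true true .up 0 2 3 (qsf 67108864 469762048 0 1230186008 2) ndF1q0 ndF6q3 pcF2 Cut.none Ext.none)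

def k0_pp_023 : ∃ t, chk3 f_pp_023 t 2 1 1 = true :=
  ⟨(b (l 2) (b (a (l 2) (a (l 2) (a (l 2) (b (l 2) (l 16777016))))) (b (a (l 2) (b (a (a (l 2) (l 16660872)) (l 16747832)) (b (a (a (l 2) (l 16775808)) (l 16768184)) (a (a (a (a (a (l 2) (a (l 2) (l 16769160))) (l 16773688)) (a (l 16752720) (a (l 16721808) (a (l 16716440) (l 16716144))))) (l 16736576)) (l 16794904))))) (a (b (a (l 2) (a (l 3) (a (l 3) (b (a (a (l 3) (l 843055103959)) (a (c (l 16777208) (l 16777208)) (c (l 16777208) (l 16777208)))) (a (l 3) (a (l 1015927537655) (c (l 16777216) (l 16777216)))))))) (l 3)) (a (a (a (a (a (b (c (b (l 16777200) (l 16777208)) (b (l 16777200) (l 16777208))) (b (c (l 16777216) (l 16777216)) (l 3))) (b (c (b (l 16775808) (l 16777208)) (b (l 16775776) (l 16777208))) (b (c (l 16777216) (l 16777216)) (c (l 16777216) (l 16777216))))) (c (b (a (b (l 16775176) (l 16776864)) (a (l 16776848) (l 16775760))) (a (b (l 16777208) (l 16777216)) (b (l 16777208) (l 16777208)))) (b (a (b (l 16775128)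 (l 16776856)) (a (l 16776840) (l 16775728))) (a (b (l 16777208) (l 16777216)) (b (l 16777208) (l 16777208)))))) (a (a (b (l 16769584) (c (b (a (l 16776776) (l 16775544)) (l 16777208)) (b (c (l 16775984) (l 16775968)) (l 16777208)))) (b (l 16755536) (a (c (b (l 16772048) (l 16776464)) (c (l 16774032) (l 16773992))) (c (c (l 16770608) (l 16770520)) (c (l 16770440) (l 16770352)))))) (b (a (l 16737496) (a (l 16729912) (b (l 16722896) (l 16730800)))) (a (a (a (c (l 16765704) (l 16765408)) (l 16761088)) (l 16755992)) (a (l 16748608) (a (l 16721880) (l 16741240))))))) (b (l 16738672) (l 16750264))) (b (l 16770888) (l 16772528))))))), by decide +kernel⟩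

def k1_pp_023 : ∃ t, chk3 f_pp_023 t 3 1 1 = true :=
  ⟨(a (b (l 2) (b (b (a (l 2) (a (l 16777160) (l 16777160))) (c (a (l 16777200) (l 16777200)) (a (l 16777200) (l 16777200)))) (b (a (l 16777216) (l 16777216)) (b (a (l 16777216) (l 16755792)) (a (l 16745328) (b (l 16621488) (a (l 16514376) (l 16239176)))))))) (b (a (b (l 2) (l 16755064)) (b (l 16723688) (l 16755064))) (b (b (l 16777160) (a (l 16777200) (l 16777200))) (b (a (l 16761336) (b (l 16716368) (b (l 16604184) (l 16356552)))) (b (a (b (l 16631200) (l 16411488)) (b (l 16155920) (a (l 16023688) (l 15758808)))) (a (c (b (l 16154552) (l 15744200)) (b (l 16138376) (l 15711000))) (b (c (l 15414368) (l 15550568)) (a (c (l 15386912) (l 15365088)) (c (l 15065136) (l 15027920)))))))))), by decide +kernel⟩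

theorem s2_pp_023 : ∃ t, chk3 f_pp_023 t 1 1 1 = true := ex3_a k0_pp_023 k1_pp_023

theorem c_pp_023 : CertFX 67108864 469762048 0 1230186008 1046898278 26843546 false true true .up 0 2 3
    ndF1q0 ndF6q3 pcF2 Cut.none Ext.none :=
  certFX2 (fam := false) (s1 := true) (s2 := true) (a := 0) (b := 2) (c := 3) (cn := .up) (n1 := ndF1q0) (n2 := ndF6q3) (pc := pcF2) (cut := Cut.none) (xt := Ext.none) (P1 := 67108864) (W1 := 469762048) (P2 := 0) (W2 := 1230186008) (P3 := 1046898278) (W3 := 26843546)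
    rfl (fun _ => rfl) s2_pp_023

noncomputable def f_pp_033 : ℕ → ℕ → ℕ → ℕ → Bool := onCell 67108864 469762048 0 1230186008 1046898278 26843546
    (rowFX 0 false true true .pnn 0 3 3 (qsf 67108864 469762048 0 1230186008 3) ndF1q0 ndF6q3 pcF3 Cut.none Ext.none)

def k0_pp_033 : ∃ t, chk3 f_pp_033 t 1 2 1 = true :=
  ⟨(a (b (b (l 4) (a (l 4) (a (c (c (l 261153237687) (l 261690084247)) (c (l 261690057463) (l 261690032471))) (c (c (l 16730464) (l 16726808)) (c (l 16722128) (l 16718632)))))) (b (b (a (l 4) (a (a (c (l 16472256) (l 16448768)) (c (l 16696680) (l 16682032))) (c (l 16757032) (l 16747312)))) (a (a (l 4) (a (b (l 4) (a (l 15946848) (l 16042440))) (c (l 16220648) (l 16197696)))) (a (a (c (l 16469016) (l 16453384)) (l 16692200)) (l 16755744)))) (a (a (a (b (b (l 4) (c (a (l 15414048) (l 15585328)) (a (l 15372712) (l 15550048)))) (c (b (l 15504136) (l 15508568)) (b (l 15466584) (l 15472592)))) (c (b (b (l 15805504) (l 15808816)) (l 15816688)) (b (b (l 15773720) (l 15779800))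 (l 15791048)))) (b (a (c (l 16009040) (l 15984416)) (c (l 16218560) (l 16199808))) (a (l 16009048) (l 16221872)))) (a (b (a (l 16461608) (l 16693256)) (a (l 16474800) (l 16707744))) (b (l 16757480) (l 16773712)))))) (b (a (c (a (b (l 16741344) (l 16727960)) (l 16725328)) (a (b (l 16741120) (l 16720512)) (b (l 16741120) (l 16720512)))) (b (a (l 16739896) (l 16739896)) (a (l 16725344) (l 16725344)))) (b (a (a (b (l 16753096) (l 16755744)) (l 16747528)) (l 16747528)) (a (b (l 16757480) (l 16773712)) (l 16764968))))), by decide +kernel⟩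

def k1_pp_033 : ∃ t, chk3 f_pp_033 t 1 3 1 = true :=
  ⟨(b (a (b (a (a (b (a (c (l 15508592) (l 15472624)) (c (l 15819152) (l 15794232))) (a (l 15494136) (l 15806792))) (b (a (l 16011920) (l 16224784)) (l 16119760))) (a (l 16596136) (l 16777160))) (a (a (c (b (l 15659624) (l 15470904)) (b (l 15618792) (l 15388128))) (b (l 16119800) (c (l 16086312) (l 16111400)))) (a (b (a (l 16477776) (l 16710784)) (a (l 16477800) (l 16710808))) (b (l 16777192) (l 16777216))))) (b (a (b (l 16777176) (l 16777152)) (l 1)) (a (b (a (l 16777192) (l 1)) (l 16777216)) (l 1)))) (a (a (b (a (b (c (a (l 15508624) (l 15819184)) (a (l 15472672) (l 15794272))) (c (l 15659648) (l 15618816))) (b (c (l 16128256) (l 16069456)) (l 16119824))) (a (b (c (l 15659648) (l 15618816)) (l 15450248)) (l 16056912))) (b (b (a (b (l 16596184) (l 16596184)) (l 16777216)) (l 16521992)) (l 1))) (l 1))), by decide +kernel⟩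

theorem s2_pp_033 : ∃ t, chk3 f_pp_033 t 1 1 1 = true := ex3_b k0_pp_033 k1_pp_033

theorem c_pp_033 : CertFX 67108864 469762048 0 1230186008 1046898278 26843546 false true true .pnn 0 3 3
    ndF1q0 ndF6q3 pcF3 Cut.none Ext.none :=
  certFX0 (fam := false) (s1 := true) (s2 := true) (a := 0) (b := 3) (c := 3) (cn := .pnn) (n1 := ndF1q0) (n2 := ndF6q3) (pc := pcF3) (cut := Cut.none) (xt := Ext.none) (P1 := 67108864) (W1 := 469762048) (P2 := 0) (W2 := 1230186008) (P3 := 1046898278) (W3 := 26843546)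
    rfl s2_pp_033

noncomputable def f_pp_101 : ℕ → ℕ → ℕ → ℕ → Bool := onCell 536870912 536870912 0 536870912 1046898278 26843546
    (rowFX 1 false true true .npn 1 0 1 (qsf 536870912 536870912 536870912 469762048 0) ndF1q1 ndF6q1 pcF0 Cut.none Ext.none)

def k0_pp_101 : ∃ t, chk3 f_pp_101 t 1 1 1 = true :=
  ⟨(l 3), by decide +kernel⟩

theorem c_pp_101 : CertFX 536870912 536870912 536870912 469762048 1046898278 26843546 false true true .npn 1 0 1
    ndF1q1 ndF6q1 pcF0 Cut.none Ext.none :=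
  certFX1 (fam := false) (s1 := true) (s2 := true) (a := 1) (b := 0) (c := 1) (cn := .npn) (n1 := ndF1q1) (n2 := ndF6q1) (pc := pcF0) (cut := Cut.none) (xt := Ext.none) (P1 := 536870912) (W1 := 536870912) (P2 := 536870912) (W2 := 469762048) (P3 := 1046898278) (W3 := 26843546)
    rfl (fun _ => rfl) k0_pp_101

noncomputable def f_pp_102 : ℕ → ℕ → ℕ → ℕ → Bool := onCell 536870912 536870912 1073741824 536870912 1046898278 26843546
    (rowFX 0 false true true .npp 1 0 2 (qsf 536870912 536870912 1073741824 536870912 0) ndF1q1 ndF6q2 pcF0 Cut.none Ext.none)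

def k0_pp_102 : ∃ t, chk3 f_pp_102 t 1 1 1 = true :=
  ⟨(l 3), by decide +kernel⟩

theorem c_pp_102 : CertFX 536870912 536870912 1073741824 536870912 1046898278 26843546 false true true .npp 1 0 2
    ndF1q1 ndF6q2 pcF0 Cut.none Ext.none :=
  certFX0 (fam := false) (s1 := true) (s2 := true) (a := 1) (b := 0) (c := 2) (cn := .npp) (n1 := ndF1q1) (n2 := ndF6q2) (pc := pcF0) (cut := Cut.none) (xt := Ext.none) (P1 := 536870912) (W1 := 536870912) (P2 := 1073741824) (W2 := 536870912) (P3 := 1046898278) (W3 := 26843546)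
    rfl k0_pp_102

noncomputable def f_pp_112 : ℕ → ℕ → ℕ → ℕ → Bool := onCell 536870912 536870912 1073741824 536870912 1046898278 26843546
    (rowFX 0 false true true .dn 1 1 2 (qsf 536870912 536870912 1073741824 536870912 1) ndF1q1 ndF6q2 pcF1 Cut.none Ext.none)

def k0_pp_112 : ∃ t, chk3 f_pp_112 t 1 1 1 = true :=
  ⟨(l 3), by decide +kernel⟩

theorem c_pp_112 : CertFX 536870912 536870912 1073741824 536870912 1046898278 26843546 false true true .dn 1 1 2
    ndF1q1 ndF6q2 pcF1 Cut.none Ext.none :=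
  certFX0 (fam := false) (s1 := true) (s2 := true) (a := 1) (b := 1) (c := 2) (cn := .dn) (n1 := ndF1q1) (n2 := ndF6q2) (pc := pcF1) (cut := Cut.none) (xt := Ext.none) (P1 := 536870912) (W1 := 536870912) (P2 := 1073741824) (W2 := 536870912) (P3 := 1046898278) (W3 := 26843546)
    rfl k0_pp_112

noncomputable def f_pp_113 : ℕ → ℕ → ℕ → ℕ → Bool := onCell 536870912 536870912 0 1230186008 1046898278 26843546
    (rowFX 2 false true true .nn 1 1 3 (qsf 536870912 536870912 0 1230186008 1) ndF1q1 ndF6q3 pcF1 Cut.none Ext.none)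

def k0_pp_113 : ∃ t, chk3 f_pp_113 t 1 1 1 = true :=
  ⟨(b (a (l 2) (a (l 2) (b (a (l 2) (a (l 2) (b (a (l 2) (c (l 16754424) (b (l 16756408) (l 16721296)))) (a (c (b (l 2) (l 16615304)) (l 246589887751)) (c (l 16526888) (b (l 16046504) (l 15522272))))))) (a (l 3) (a (l 3) (b (a (b (l 315309122519) (l 3)) (b (c (l 15900584) (a (l 15373416) (l 15363096))) (c (l 15656704) (l 328193104855)))) (l 3))))))) (b (a (l 3) (l 3)) (a (a (l 3) (l 3)) (l 3)))), by decide +kernel⟩

theorem c_pp_113 : CertFX 536870912 536870912 0 1230186008 1046898278 26843546 false true true .nn 1 1 3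
    ndF1q1 ndF6q3 pcF1 Cut.none Ext.none :=
  certFX2 (fam := false) (s1 := true) (s2 := true) (a := 1) (b := 1) (c := 3) (cn := .nn) (n1 := ndF1q1) (n2 := ndF6q3) (pc := pcF1) (cut := Cut.none) (xt := Ext.none) (P1 := 536870912) (W1 := 536870912) (P2 := 0) (W2 := 1230186008) (P3 := 1046898278) (W3 := 26843546)
    rfl (fun _ => rfl) k0_pp_113

noncomputable def f_pp_123 : ℕ → ℕ → ℕ → ℕ → Bool := onCell 1073741824 536870912 0 1230186008 1046898278 26843546
    (rowFX 2 false true true .npn 1 2 3 (qsf 536870912 536870912 0 1230186008 2) ndF1q1 ndF6q3 pcF2 Cut.none Ext.none)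

def k0_pp_123 : ∃ t, chk3 f_pp_123 t 4 4 1 = true :=
  ⟨(b (a (a (b (l 16541584) (a (c (a (b (l 16391952) (l 16460136)) (b (l 16553408) (l 16576344))) (a (b (l 16193864) (l 16412744)) (c (l 16566168) (l 16565496)))) (b (l 16741312) (c (l 16725424) (l 16640384))))) (l 16253112)) (a (l 15775552) (l 15267072))) (b (a (a (a (c (a (l 16609376) (l 16675480)) (c (l 16511864) (l 16338016))) (c (a (l 16627520) (l 16581176)) (a (l 16451600) (l 16438120)))) (a (c (a (l 16490104) (l 16348464)) (l 16320096)) (c (a (l 16197496) (l 15796976)) (l 15891488)))) (a (a (b (l 15830592) (a (l 15871744) (l 15726600))) (l 15549192)) (l 15159496))) (a (a (c (a (c (b (l 16649792) (a (c (l 16544256) (l 16407760)) (a (l 16417368) (l 16405288)))) (l 16334464)) (l 16380648)) (a (a (c (l 16053928) (l 15764472)) (l 16073272)) (l 16185520))) (c (a (l 16281376) (c (l 16104832) (l 16061440))) (a (l 16163256) (l 16007792)))) (a (a (c (b (l 15800488) (l 15810968)) (l 15651032)) (c (b (l 15510616) (l 15499776)) (b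 (l 15487336) (l 15471336)))) (a (b (l 15227480) (b (l 15197504) (c (l 15201280) (l 15186864)))) (l 14978480)))))), by decide +kernel⟩

def k1_pp_123 : ∃ t, chk3 f_pp_123 t 16 10 1 = true :=
  ⟨(a (c (b (b (a (c (l 16220208) (c (l 16050280) (b (l 15993032) (l 15897760)))) (a (c (l 16241624) (l 16056976)) (a (l 16241256) (l 16168232)))) (a (c (l 15995664) (c (l 15869480) (b (l 15824624) (l 15747536)))) (c (l 16099592) (c (l 16004592) (l 15923960))))) (a (b (b (l 15795856) (a (l 15677792) (l 15764448))) (l 15745816)) (c (b (l 15965432) (b (l 15882752) (l 174112575127))) (b (a (l 15823568) (l 15889808)) (a (l 15738712) (l 15815800)))))) (b (a (a (c (b (l 15704560) (c (l 15640048) (l 15533600))) (c (l 15482256) (l 15384936))) (c (b (l 15836400) (c (l 15742664) (l 15650056))) (l 15570568))) (c (b (l 15942576) (l 15808440)) (l 15729984))) (b (a (c (a (b (l 15526872) (l 15473832)) (b (c (l 15670392) (l 15606968)) (c (l 15616896) (l 15554392)))) (a (c (b (l 15401416) (l 15369616)) (c (l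 15310768) (l 15275072))) (c (l 15488584) (l 15421232)))) (c (a (b (l 15721240) (l 15677032)) (l 15775920)) (c (l 15625760) (l 15574984)))) (a (c (l 358794532839) (a (l 335172035271) (l 15469912))) (c (a (b (c (l 15683488) (l 15630424)) (l 15648984)) (l 15727128)) (b (c (l 15609880) (l 15564472)) (l 15605400))))))) (c (b (a (c (b (l 16248416) (l 16150584)) (l 16077456)) (l 16155184)) (b (c (l 16074520) (l 15840368)) (a (c (l 15845920) (l 15875976)) (l 15978384)))) (c (b (a (l 15961016) (l 16027256)) (a (b (l 15843880) (a (l 15783712) (l 15825744))) (c (l 15914392) (l 15883296)))) (b (l 15917664) (b (l 15807672) (l 15787536)))))), by decide +kernel⟩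

def k2_pp_123 : ∃ t, chk3 f_pp_123 t 17 10 1 = true :=
  ⟨(a (c (b (c (l 16177944) (a (l 16112288) (l 16089632))) (c (b (l 16095808) (l 16066864)) (a (l 16006408) (l 16020656)))) (b (l 16025384) (a (l 15932320) (l 15971776)))) (c (b (a (b (l 16085280) (l 16054384)) (l 15996720)) (c (a (b (c (l 16067944) (l 16047000)) (l 16050536)) (b (c (l 16022992) (l 16010280)) (c (l 16029704) (l 16017720)))) (a (l 16025720) (b (l 15988328) (l 16024680))))) (b (l 15967200) (a (l 15987888) (l 15978968))))), by decide +kernel⟩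

def k3_pp_123 : ∃ t, chk3 f_pp_123 t 9 10 1 = true :=
  ⟨(a (b (c (a (l 15839728) (l 15576248)) (a (l 15796224) (l 15548680))) (c (a (c (b (c (l 15903216) (l 15887848)) (c (l 15930472) (l 15933088))) (b (l 15876144) (b (l 15909400) (c (l 15939088) (l 15947336))))) (c (b (l 15675336) (b (l 15733920) (c (l 15785464) (l 15779632)))) (l 15711624))) (a (l 15878112) (b (l 15651648) (l 15744096))))) (b (a (c (b (a (l 15315208) (l 15151640)) (l 15335728)) (b (l 15216120) (l 15315720))) (c (b (c (l 14993264) (l 14980936)) (l 15087176)) (b (l 14971328) (l 15060928)))) (c (a (c (l 15520744) (l 15512480)) (l 15300984)) (a (l 15499328) (l 15276432))))), by decide +kernel⟩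

def k4_pp_123 : ∃ t, chk3 f_pp_123 t 8 22 1 = true :=
  ⟨(a (a (a (l 3) (b (c (c (l 15810320) (l 15561640)) (c (a (l 15657848) (l 15730664)) (l 15628216))) (l 3))) (c (a (c (a (l 15887024) (l 15938736)) (a (l 15845072) (l 15876048))) (c (c (l 16017160) (l 16000160)) (b (l 15952552) (l 15955000)))) (a (c (b (l 15812112) (l 15829200)) (l 15775744)) (b (b (l 15810512) (l 15875840)) (b (l 15879096) (l 15925112)))))) (c (a (a (b (l 16013960) (c (l 16055528) (l 16011728))) (c (b (l 16059712) (l 16060536)) (c (l 16023016) (l 16011112)))) (c (b (a (l 16061712) (l 16052704)) (a (l 16079816) (l 16088512))) (a (b (l 16039152) (l 16057440)) (b (l 16018064) (l 16079784))))) (a (a (b (l 15927560) (l 15973240)) (l 15989152)) (a (b (l 16017176) (l 16039840)) (b (l 16032896) (c (l 16071136) (l 16067792))))))), by decide +kernel⟩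

def k5_pp_123 : ∃ t, chk3 f_pp_123 t 9 22 1 = true :=
  ⟨(a (c (b (a (a (c (l 16013344) (c (l 16003472) (l 16006512))) (c (l 15941704) (c (l 15942256) (l 15921368)))) (c (c (l 15847632) (l 15851984)) (c (b (l 15830800) (l 15873640)) (a (l 15915536) (l 15855808))))) (a (c (l 16055864) (b (l 16019304) (l 16062792))) (c (l 15952280) (a (b (l 15944200) (l 15994184)) (c (l 15910504) (l 15916808)))))) (a (b (c (a (l 16012640) (l 15963592)) (l 15976264)) (a (c (b (l 16036816) (l 16072872)) (l 16066312)) (l 16011728))) (c (b (l 15808944) (c (l 15942512) (l 15949856))) (l 15899632)))) (c (b (c (a (c (a (l 15754856) (l 15675528)) (a (l 15759664) (l 15669984))) (c (l 15531856) (l 15513952))) (a (b (l 15669184) (c (l 15733448) (l 15726560))) (l 15505048))) (a (a (c (l 15852584) (c (l 15851424) (b (l 15834920) (l 15877176)))) (c (l 15771760) (c (l 15779536) (l 15816016)))) (c (c (l 15646720) (l 15652776)) (b (l 15604240) (c (l 15679320) (l 15708568)))))) (a (b (l 15686472) (c (a (l 15877968)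 (l 15798552)) (l 15797896))) (l 15553464)))), by decide +kernel⟩

def k6_pp_123 : ∃ t, chk3 f_pp_123 t 4 23 1 = true :=
  ⟨(a (a (a (l 3) (a (b (l 3) (l 3)) (c (c (a (l 15986384) (l 16029888)) (l 15987400)) (b (l 15942656) (l 15992560))))) (b (a (c (a (a (l 16050048) (b (l 16058632) (l 16081592))) (a (l 16088512) (l 16106960))) (a (a (l 16013088) (l 16007920)) (a (l 16059536) (l 16084696)))) (a (a (c (l 16120200) (l 16103320)) (l 16118840)) (l 16130920))) (a (c (a (c (l 16090864) (l 16073920)) (b (l 16135952) (l 16164616))) (a (l 16059872) (l 16100752))) (a (c (a (l 16164840) (l 16175776)) (l 16154056)) (c (a (l 16187808) (l 16197472)) (l 16182104)))))) (b (a (a (b (c (l 16089248) (c (l 16069736) (l 16075392))) (l 16126744)) (c (a (l 16058200) (b (l 15991232) (l 16040744))) (c (c (l 16033792) (l 16023784)) (l 16025896)))) (a (c (c (a (l 15977160) (l 15901208)) (b (a (l 15937560) (l 15854280)) (l 15955496))) (a (c (b (l 15935544) (l 15984264)) (l 15967992)) (l 15849176))) (c (c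 (l 15763664) (a (c (l 15800248) (l 15798616)) (c (l 15713912) (l 15739672)))) (c (l 15772312) (l 15754680))))) (a (a (l 16177720) (a (l 16135560) (b (c (l 16076832) (l 16047280)) (l 16122872)))) (c (a (a (b (l 16039568) (l 16093880)) (l 16003432)) (c (l 15912168) (b (l 15856328) (l 15924088)))) (a (c (a (l 16028400) (l 15980376)) (l 15940760)) (c (b (l 15828744) (l 15905176)) (l 15886000))))))), by decide +kernel⟩

def k7_pp_123 : ∃ t, chk3 f_pp_123 t 8 3 1 = true :=
  ⟨(b (a (l 3) (b (b (a (c (a (l 16103760) (c (l 16171080) (l 16157576))) (a (l 16087032) (l 16147320))) (c (a (c (a (l 16229088) (l 16267648)) (l 16239592)) (b (l 16242096) (l 16315096))) (a (c (l 16234072) (l 16228552)) (b (l 16229976) (l 16304456))))) (a (l 3) (c (a (l 16279728) (b (l 16338624) (l 16360720))) (a (l 16266480) (b (l 16327376) (l 16349712)))))) (l 3))) (l 3)), by decide +kernel⟩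

def k8_pp_123 : ∃ t, chk3 f_pp_123 t 9 6 1 = true :=
  ⟨(a (a (a (b (b (b (c (l 16256112) (l 16244776)) (l 16314104)) (c (b (l 16394952) (l 16423160)) (b (l 16385240) (l 16413968)))) (c (l 882245825623) (l 868287169927))) (b (b (c (l 16287664) (l 16276000)) (b (l 16390192) (c (l 16479696) (l 16471976)))) (b (b (c (l 16512984) (l 16506120)) (c (l 16534560) (l 16528256))) (c (l 850033777991) (l 858086842183))))) (a (c (b (b (l 16279656) (l 16420440)) (b (l 16574656) (l 16598944))) (b (b (l 16267360) (l 16411176)) (b (b (l 16555184) (l 16593000)) (l 833390969815)))) (b (b (l 16235672) (c (l 16405832) (l 16396192))) (b (c (l 16598720) (l 16573112)) (c (b (l 16676952) (l 16701544)) (a (l 16664216) (b (l 16690096) (l 16723440)))))))) (b (a (b (a (l 16203768) (l 16165104)) (a (c (l 16398344) (l 16388512)) (l 16391576))) (b (a (l 16111256) (b (b (c (l 15944584) (l 15905736)) (l 16012656)) (l 16113152))) (l 16337240))) (a (a (b (l 16564472) (c (a (b (l 16702400) (l 16743672)) (l 16725416))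 (a (b (l 16700464) (l 16742800)) (b (l 16686008) (l 16755056))))) (b (l 16538872) (a (c (l 16704432) (l 16702536)) (l 16678592)))) (b (a (l 16550008) (b (l 16515688) (l 16612808))) (a (l 16664584) (l 16675272)))))), by decide +kernel⟩

def k9_pp_123 : ∃ t, chk3 f_pp_123 t 9 7 1 = true :=
  ⟨(b (b (a (a (l 3) (a (l 3) (c (l 1000894983751) (c (l 988010081863) (l 978883276375))))) (a (a (c (a (l 990694481047) (l 986399574279)) (a (b (l 16765768) (l 16773784)) (l 970293446759))) (c (b (a (l 16771752) (l 16762928)) (l 16777192)) (b (a (l 16771608) (l 16762560)) (a (l 16777200) (l 16777184))))) (a (c (a (b (l 16745568) (l 16772032)) (l 16747392)) (a (b (l 16744744) (l 16771896)) (l 16746616))) (a (c (l 16735192) (l 16734096)) (l 16730232))))) (a (l 3) (a (a (l 3) (c (c (l 945060577239) (l 949892415367)) (c (l 954187382647) (l 959019220855)))) (a (c (a (b (l 16777200) (l 16777216)) (b (l 16776592) (l 16777208))) (a (b (l 16777200) (l 16777216)) (b (l 16776576) (l 16777208)))) (c (a (b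 (l 16772456) (l 16777200)) (b (l 16766680) (l 16775688))) (a (b (l 16772336) (l 16777200)) (b (l 16766408) (l 16775648)))))))) (b (a (l 3) (a (l 3) (b (a (a (l 3) (l 930565062615)) (b (c (l 16777208) (l 16777208)) (l 1))) (l 1)))) (l 3))), by decide +kernel⟩

def k10_pp_123 : ∃ t, chk3 f_pp_123 t 10 2 1 = true :=
  ⟨(b (a (a (b (l 14915832) (l 14827576)) (b (l 15053368) (l 15001536))) (b (l 15661832) (l 15630016))) (a (b (a (b (c (b (a (l 14858608) (l 14785088)) (c (l 14869256) (l 14851904))) (b (l 14803640) (l 14827152))) (c (c (l 15085888) (l 15070184)) (l 15045560))) (b (b (l 14988512) (a (c (l 14891896) (l 14857256)) (c (l 15106440) (l 15076440)))) (c (a (c (l 15055472) (l 15038712)) (b (l 15139792) (l 15253768))) (a (l 15013616) (l 15162048))))) (a (c (b (c (b (l 15316280) (c (l 15480632) (a (l 15518416) (l 15410168)))) (l 15374480)) (c (b (c (l 15591208) (l 15590536)) (l 15740848)) (b (c (b (l 15566968) (l 15619184)) (a (l 15673720) (l 15596256))) (b (a (l 15726944) (l 15640680))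 (l 15739816))))) (b (l 15351624) (c (b (l 15614168) (l 15700688)) (l 15646968)))) (b (c (a (l 15321960) (l 15414752)) (a (l 15289240) (l 15384176))) (b (c (c (a (c (l 15520840) (l 15524448)) (c (l 15579736) (l 15577848))) (b (l 15501472) (c (a (l 15548808) (l 15587896)) (l 15553016)))) (l 15506104)) (a (c (c (l 15647192) (c (l 15624864) (l 15635144))) (l 15654016)) (c (c (l 15659248) (c (l 15654376) (l 15675312))) (l 15678896))))))) (b (b (l 15631440) (c (a (b (l 15437616) (l 15504696)) (b (l 15836448) (l 15853816))) (a (l 15446448) (l 15834744)))) (b (c (a (l 15634912) (l 15942472)) (l 15724320)) (c (a (c (b (b (l 15742416) (l 15793056)) (c (l 15837680) (l 15836856))) (l 15570856)) (b (l 16027048) (l 15886712))) (a (l 15788560) (l 16037464))))))), by decide +kernel⟩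

def k11_pp_123 : ∃ t, chk3 f_pp_123 t 11 2 1 = true :=
  ⟨(b (a (l 16182376) (l 16722944)) (a (b (b (l 16401904) (a (c (l 16120368) (l 16219568)) (l 16575672))) (b (a (c (l 16260472) (l 16251808)) (c (l 16592464) (l 16592032))) (c (a (l 16284016) (l 16611240)) (l 16460944)))) (b (l 16747064) (c (c (l 16764912) (l 16764624)) (b (l 16756808) (l 16773304)))))), by decide +kernel⟩

def k12_pp_123 : ∃ t, chk3 f_pp_123 t 5 6 1 = true :=
  ⟨(b (a (b (b (a (c (a (b (l 15843840) (l 15893640)) (a (b (l 15734296) (l 15804080)) (a (b (l 15717272) (l 15776040)) (l 15754344)))) (a (c (b (l 15812352) (l 15854432)) (l 15839192)) (a (c (l 15664680) (l 15752464)) (a (l 15736240) (l 15759376))))) (c (a (c (l 15927088) (l 15883208)) (l 16140288)) (l 16007288))) (a (a (l 16007640) (a (l 15895200) (b (a (c (l 15821696) (l 15782824)) (a (c (l 15849056) (l 15810992)) (c (l 15877320) (l 15840360)))) (a (l 15882984) (a (l 15899904) (l 15918048)))))) (c (a (b (l 15986240) (l 16018816)) (l 16205992)) (l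 16025752)))) (a (a (l 16219072) (a (l 16103512) (a (l 16045488) (a (l 16042504) (l 16045440))))) (a (l 16127080) (c (l 16206248) (l 16266568))))) (c (a (b (a (l 16385288) (l 16635072)) (l 16391968)) (c (l 16797888) (l 16776920))) (a (b (l 16386416) (l 16555552)) (b (l 16776856) (l 16776952))))) (a (a (a (b (a (l 16541608) (l 16468760)) (a (l 16688392) (b (l 16683616) (l 16746240)))) (a (b (l 16382136) (b (l 16591992) (l 16732512))) (a (l 16437352) (a (l 16386456) (l 16356080))))) (l 16370824)) (a (l 16644272) (l 16777016)))), by decide +kernel⟩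

def k13_pp_123 : ∃ t, chk3 f_pp_123 t 5 7 1 = true :=
  ⟨(a (a (a (b (a (b (l 16737784) (b (l 16758008) (a (c (l 16773208) (l 16773104)) (c (l 16769904) (l 16769712))))) (b (l 16768984) (l 16772736))) (b (a (a (c (l 360810807239) (l 375306321863)) (b (c (l 16775808) (l 16775776)) (l 1))) (l 1)) (l 1))) (b (a (b (b (l 16760072) (l 16739376)) (l 16749368)) (b (a (b (l 16768904) (l 16722624)) (b (l 16650264) (a (l 16762936) (l 16724288)))) (a (l 16716736) (a (l 234109291623) (a (a (a (l 16725944) (a (l 16729912) (l 312492272695))) (l 16734480)) (l 16735488)))))) (l 1))) (b (b (l 16660872) (b (l 16775808) (l 16736576))) (l 1))) (b (b (l 16747832) (l 1)) (l 1))), by decide +kernel⟩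

def k14_pp_123 : ∃ t, chk3 f_pp_123 t 3 1 1 = true :=
  ⟨(b (b (a (a (l 16723688) (l 16723448)) (a (l 16723688) (l 16723688))) (a (b (l 16747528) (c (a (l 16765184) (l 16765184)) (a (l 16764768) (l 16764768)))) (b (l 16747528) (l 16764968)))) (b (a (c (a (b (l 16777160) (l 16777200)) (b (l 16777160) (l 16777200))) (b (a (l 16777160) (l 16777160)) (a (l 16777200) (l 16777200)))) (b (l 16777160) (l 1))) (l 1))), by decide +kernel⟩

theorem s15_pp_123 : ∃ t, chk3 f_pp_123 t 5 3 1 = true := ex3_b k12_pp_123 k13_pp_123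

theorem s16_pp_123 : ∃ t, chk3 f_pp_123 t 5 2 1 = true := ex3_a k10_pp_123 k11_pp_123

theorem s17_pp_123 : ∃ t, chk3 f_pp_123 t 5 1 1 = true := ex3_b s16_pp_123 s15_pp_123

theorem s18_pp_123 : ∃ t, chk3 f_pp_123 t 9 3 1 = true := ex3_b k8_pp_123 k9_pp_123

theorem s19_pp_123 : ∃ t, chk3 f_pp_123 t 4 3 1 = true := ex3_a k7_pp_123 s18_pp_123

theorem s20_pp_123 : ∃ t, chk3 f_pp_123 t 4 22 1 = true := ex3_a k4_pp_123 k5_pp_123

theorem s21_pp_123 : ∃ t, chk3 f_pp_123 t 4 11 1 = true := ex3_b s20_pp_123 k6_pp_123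

theorem s22_pp_123 : ∃ t, chk3 f_pp_123 t 8 10 1 = true := ex3_a k1_pp_123 k2_pp_123

theorem s23_pp_123 : ∃ t, chk3 f_pp_123 t 4 10 1 = true := ex3_a s22_pp_123 k3_pp_123

theorem s24_pp_123 : ∃ t, chk3 f_pp_123 t 4 5 1 = true := ex3_b s23_pp_123 s21_pp_123

theorem s25_pp_123 : ∃ t, chk3 f_pp_123 t 4 2 1 = true := ex3_b k0_pp_123 s24_pp_123

theorem s26_pp_123 : ∃ t, chk3 f_pp_123 t 4 1 1 = true := ex3_b s25_pp_123 s19_pp_123

theorem s27_pp_123 : ∃ t, chk3 f_pp_123 t 2 1 1 = true := ex3_a s26_pp_123 s17_pp_123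

theorem s28_pp_123 : ∃ t, chk3 f_pp_123 t 1 1 1 = true := ex3_a s27_pp_123 k14_pp_123

theorem c_pp_123 : CertFX 536870912 536870912 0 1230186008 1046898278 26843546 false true true .npn 1 2 3
    ndF1q1 ndF6q3 pcF2 Cut.none Ext.none :=
  certFX2 (fam := false) (s1 := true) (s2 := true) (a := 1) (b := 2) (c := 3) (cn := .npn) (n1 := ndF1q1) (n2 := ndF6q3) (pc := pcF2) (cut := Cut.none) (xt := Ext.none) (P1 := 536870912) (W1 := 536870912) (P2 := 0) (W2 := 1230186008) (P3 := 1046898278) (W3 := 26843546)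
    rfl (fun _ => rfl) s28_pp_123

noncomputable def f_pp_133 : ℕ → ℕ → ℕ → ℕ → Bool := onCell 536870912 536870912 0 1230186008 1046898278 26843546
    (rowFX 0 false true true .dn 1 3 3 (qsf 536870912 536870912 0 1230186008 3) ndF1q1 ndF6q3 pcF3 Cut.none Ext.none)

def k0_pp_133 : ∃ t, chk3 f_pp_133 t 1 1 1 = true :=
  ⟨(b (a (b (a (b (l 475700940327) (l 1)) (l 1)) (l 1)) (l 1)) (l 1)), by decide +kernel⟩

theorem c_pp_133 : CertFX 536870912 536870912 0 1230186008 1046898278 26843546 false true true .dn 1 3 3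
    ndF1q1 ndF6q3 pcF3 Cut.none Ext.none :=
  certFX0 (fam := false) (s1 := true) (s2 := true) (a := 1) (b := 3) (c := 3) (cn := .dn) (n1 := ndF1q1) (n2 := ndF6q3) (pc := pcF3) (cut := Cut.none) (xt := Ext.none) (P1 := 536870912) (W1 := 536870912) (P2 := 0) (W2 := 1230186008) (P3 := 1046898278) (W3 := 26843546)
    rfl k0_pp_133

noncomputable def f_pp_202_a : ℕ → ℕ → ℕ → ℕ → Bool := onCell 0 420477299 1073741824 536870912 1046898278 26843546
    (rowFX 0 false true true .pp 2 0 2 (qsf 0 420477299 1073741824 536870912 0) ndF1q2a ndF6q2 pcF0 Cut.none Ext.none)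

def k0_pp_202_a : ∃ t, chk3 f_pp_202_a t 1 1 1 = true :=
  ⟨(l 5), by decide +kernel⟩

theorem c_pp_202_a : CertFX 0 420477299 1073741824 536870912 1046898278 26843546 false true true .pp 2 0 2
    ndF1q2a ndF6q2 pcF0 Cut.none Ext.none :=
  certFX0 (fam := false) (s1 := true) (s2 := true) (a := 2) (b := 0) (c := 2) (cn := .pp) (n1 := ndF1q2a) (n2 := ndF6q2) (pc := pcF0) (cut := Cut.none) (xt := Ext.none) (P1 := 0) (W1 := 420477299) (P2 := 1073741824) (W2 := 536870912) (P3 := 1046898278) (W3 := 26843546)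
    rfl k0_pp_202_a

noncomputable def f_pp_202_b : ℕ → ℕ → ℕ → ℕ → Bool := onCell 1239849684 370763052 1073741824 536870912 1046898278 26843546
    (rowFX 0 false true true .pp 2 0 2 (qsf 1239849684 370763052 1073741824 536870912 0) ndF1q2b ndF6q2 pcF0 Cut.none Ext.none)

def k0_pp_202_b : ∃ t, chk3 f_pp_202_b t 1 1 1 = true :=
  ⟨(l 5), by decide +kernel⟩

theorem c_pp_202_b : CertFX 1239849684 370763052 1073741824 536870912 1046898278 26843546 false true true .pp 2 0 2
    ndF1q2b ndF6q2 pcF0 Cut.none Ext.none :=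
  certFX0 (fam := false) (s1 := true) (s2 := true) (a := 2) (b := 0) (c := 2) (cn := .pp) (n1 := ndF1q2b) (n2 := ndF6q2) (pc := pcF0) (cut := Cut.none) (xt := Ext.none) (P1 := 1239849684) (W1 := 370763052) (P2 := 1073741824) (W2 := 536870912) (P3 := 1046898278) (W3 := 26843546)
    rfl k0_pp_202_b

noncomputable def f_pp_203_a : ℕ → ℕ → ℕ → ℕ → Bool := onCell 0 420477299 0 1230186008 1046898278 26843546
    (rowFX 0 false true true .up 2 0 3 (qsf 0 420477299 0 1230186008 0) ndF1q2a ndF6q3 pcF0 Cut.none Ext.none)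

def k0_pp_203_a : ∃ t, chk3 f_pp_203_a t 1 1 1 = true :=
  ⟨(b (l 2) (l 3)), by decide +kernel⟩

theorem c_pp_203_a : CertFX 0 420477299 0 1230186008 1046898278 26843546 false true true .up 2 0 3
    ndF1q2a ndF6q3 pcF0 Cut.none Ext.none :=
  certFX0 (fam := false) (s1 := true) (s2 := true) (a := 2) (b := 0) (c := 3) (cn := .up) (n1 := ndF1q2a) (n2 := ndF6q3) (pc := pcF0) (cut := Cut.none) (xt := Ext.none) (P1 := 0) (W1 := 420477299) (P2 := 0) (W2 := 1230186008) (P3 := 1046898278) (W3 := 26843546)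
    rfl k0_pp_203_a

noncomputable def f_pp_203_b : ℕ → ℕ → ℕ → ℕ → Bool := onCell 1239849684 370763052 0 1230186008 1046898278 26843546
    (rowFX 0 false true true .up 2 0 3 (qsf 1239849684 370763052 0 1230186008 0) ndF1q2b ndF6q3 pcF0 Cut.none Ext.none)

def k0_pp_203_b : ∃ t, chk3 f_pp_203_b t 1 1 1 = true :=
  ⟨(b (l 3) (l 3)), by decide +kernel⟩

theorem c_pp_203_b : CertFX 1239849684 370763052 0 1230186008 1046898278 26843546 false true true .up 2 0 3
    ndF1q2b ndF6q3 pcF0 Cut.none Ext.none :=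
  certFX0 (fam := false) (s1 := true) (s2 := true) (a := 2) (b := 0) (c := 3) (cn := .up) (n1 := ndF1q2b) (n2 := ndF6q3) (pc := pcF0) (cut := Cut.none) (xt := Ext.none) (P1 := 1239849684) (W1 := 370763052) (P2 := 0) (W2 := 1230186008) (P3 := 1046898278) (W3 := 26843546)
    rfl k0_pp_203_b

noncomputable def f_pp_213_a : ℕ → ℕ → ℕ → ℕ → Bool := onCell 0 420477299 0 1230186008 1046898278 26843546
    (rowFX 0 false true true .pnn 2 1 3 (qsf 0 420477299 0 1230186008 1) ndF1q2a ndF6q3 pcF1 Cut.none Ext.none)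

def k0_pp_213_a : ∃ t, chk3 f_pp_213_a t 1 1 1 = true :=
  ⟨(b (l 3) (l 3)), by decide +kernel⟩

theorem c_pp_213_a : CertFX 0 420477299 0 1230186008 1046898278 26843546 false true true .pnn 2 1 3
    ndF1q2a ndF6q3 pcF1 Cut.none Ext.none :=
  certFX0 (fam := false) (s1 := true) (s2 := true) (a := 2) (b := 1) (c := 3) (cn := .pnn) (n1 := ndF1q2a) (n2 := ndF6q3) (pc := pcF1) (cut := Cut.none) (xt := Ext.none) (P1 := 0) (W1 := 420477299) (P2 := 0) (W2 := 1230186008) (P3 := 1046898278) (W3 := 26843546)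
    rfl k0_pp_213_a

noncomputable def f_pp_213_b : ℕ → ℕ → ℕ → ℕ → Bool := onCell 1239849684 370763052 0 1230186008 1046898278 26843546
    (rowFX 0 false true true .pnn 2 1 3 (qsf 1239849684 370763052 0 1230186008 1) ndF1q2b ndF6q3 pcF1 Cut.none Ext.none)

def k0_pp_213_b : ∃ t, chk3 f_pp_213_b t 1 1 1 = true :=
  ⟨(b (l 3) (l 3)), by decide +kernel⟩

theorem c_pp_213_b : CertFX 1239849684 370763052 0 1230186008 1046898278 26843546 false true true .pnn 2 1 3
    ndF1q2b ndF6q3 pcF1 Cut.none Ext.none :=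
  certFX0 (fam := false) (s1 := true) (s2 := true) (a := 2) (b := 1) (c := 3) (cn := .pnn) (n1 := ndF1q2b) (n2 := ndF6q3) (pc := pcF1) (cut := Cut.none) (xt := Ext.none) (P1 := 1239849684) (W1 := 370763052) (P2 := 0) (W2 := 1230186008) (P3 := 1046898278) (W3 := 26843546)
    rfl k0_pp_213_b

noncomputable def f_pp_303 : ℕ → ℕ → ℕ → ℕ → Bool := onCell 1610612736 469762048 0 1230186008 1046898278 26843546
    (rowFX 0 false true true .npn 3 0 3 (qsf 1610612736 469762048 0 1230186008 0) ndF1q3 ndF6q3 pcF0 Cut.none Ext.none)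

def k0_pp_303 : ∃ t, chk3 f_pp_303 t 1 1 1 = true :=
  ⟨(b (l 3) (l 3)), by decide +kernel⟩

theorem c_pp_303 : CertFX 1610612736 469762048 0 1230186008 1046898278 26843546 false true true .npn 3 0 3
    ndF1q3 ndF6q3 pcF0 Cut.none Ext.none :=
  certFX0 (fam := false) (s1 := true) (s2 := true) (a := 3) (b := 0) (c := 3) (cn := .npn) (n1 := ndF1q3) (n2 := ndF6q3) (pc := pcF0) (cut := Cut.none) (xt := Ext.none) (P1 := 1610612736) (W1 := 469762048) (P2 := 0) (W2 := 1230186008) (P3 := 1046898278) (W3 := 26843546)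
    rfl k0_pp_303

noncomputable def f_pp_313 : ℕ → ℕ → ℕ → ℕ → Bool := onCell 1610612736 469762048 0 1230186008 1046898278 26843546
    (rowFX 0 false true true .dn 3 1 3 (qsf 1610612736 469762048 0 1230186008 1) ndF1q3 ndF6q3 pcF1 Cut.none Ext.none)

def k0_pp_313 : ∃ t, chk3 f_pp_313 t 1 1 1 = true :=
  ⟨(b (l 3) (l 1)), by decide +kernel⟩

theorem c_pp_313 : CertFX 1610612736 469762048 0 1230186008 1046898278 26843546 false true true .dn 3 1 3
    ndF1q3 ndF6q3 pcF1 Cut.none Ext.none :=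
  certFX0 (fam := false) (s1 := true) (s2 := true) (a := 3) (b := 1) (c := 3) (cn := .dn) (n1 := ndF1q3) (n2 := ndF6q3) (pc := pcF1) (cut := Cut.none) (xt := Ext.none) (P1 := 1610612736) (W1 := 469762048) (P2 := 0) (W2 := 1230186008) (P3 := 1046898278) (W3 := 26843546)
    rfl k0_pp_313

noncomputable def f_pm_001 : ℕ → ℕ → ℕ → ℕ → Bool := onCell 67108864 469762048 536870912 469762048 1046898278 26843546
    (rowFX 0 false true false .up 0 0 1 (qsf 67108864 469762048 536870912 469762048 0) ndF1q0 ndF6q1 pcF0 Cut.none Ext.none)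

def k0_pm_001 : ∃ t, chk3 f_pm_001 t 1 1 1 = true :=
  ⟨(l 4), by decide +kernel⟩

theorem c_pm_001 : CertFX 67108864 469762048 536870912 469762048 1046898278 26843546 false true false .up 0 0 1
    ndF1q0 ndF6q1 pcF0 Cut.none Ext.none :=
  certFX0 (fam := false) (s1 := true) (s2 := false) (a := 0) (b := 0) (c := 1) (cn := .up) (n1 := ndF1q0) (n2 := ndF6q1) (pc := pcF0) (cut := Cut.none) (xt := Ext.none) (P1 := 67108864) (W1 := 469762048) (P2 := 536870912) (W2 := 469762048) (P3 := 1046898278) (W3 := 26843546)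
    rfl k0_pm_001

noncomputable def f_pm_011 : ℕ → ℕ → ℕ → ℕ → Bool := onCell 67108864 469762048 536870912 469762048 1046898278 26843546
    (rowFX 0 false true false .pnn 0 1 1 (qsf 67108864 469762048 536870912 469762048 1) ndF1q0 ndF6q1 pcF1 Cut.none Ext.none)

def k0_pm_011 : ∃ t, chk3 f_pm_011 t 1 1 1 = true :=
  ⟨(l 4), by decide +kernel⟩

theorem c_pm_011 : CertFX 67108864 469762048 536870912 469762048 1046898278 26843546 false true false .pnn 0 1 1
    ndF1q0 ndF6q1 pcF1 Cut.none Ext.none :=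
  certFX0 (fam := false) (s1 := true) (s2 := false) (a := 0) (b := 1) (c := 1) (cn := .pnn) (n1 := ndF1q0) (n2 := ndF6q1) (pc := pcF1) (cut := Cut.none) (xt := Ext.none) (P1 := 67108864) (W1 := 469762048) (P2 := 536870912) (W2 := 469762048) (P3 := 1046898278) (W3 := 26843546)
    rfl k0_pm_011

noncomputable def f_pm_012 : ℕ → ℕ → ℕ → ℕ → Bool := onCell 67108864 469762048 1073741824 536870912 1046898278 26843546
    (rowFX 0 false true false .pnp 0 1 2 (qsf 67108864 469762048 1073741824 536870912 1) ndF1q0 ndF6q2 pcF1 Cut.none Ext.none)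

def k0_pm_012 : ∃ t, chk3 f_pm_012 t 1 1 1 = true :=
  ⟨(l 4), by decide +kernel⟩

theorem c_pm_012 : CertFX 67108864 469762048 1073741824 536870912 1046898278 26843546 false true false .pnp 0 1 2
    ndF1q0 ndF6q2 pcF1 Cut.none Ext.none :=
  certFX0 (fam := false) (s1 := true) (s2 := false) (a := 0) (b := 1) (c := 2) (cn := .pnp) (n1 := ndF1q0) (n2 := ndF6q2) (pc := pcF1) (cut := Cut.none) (xt := Ext.none) (P1 := 67108864) (W1 := 469762048) (P2 := 1073741824) (W2 := 536870912) (P3 := 1046898278) (W3 := 26843546)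
    rfl k0_pm_012

noncomputable def f_pm_022 : ℕ → ℕ → ℕ → ℕ → Bool := onCell 67108864 469762048 1073741824 536870912 1046898278 26843546
    (rowFX 0 false true false .pp 0 2 2 (qsf 67108864 469762048 1073741824 536870912 2) ndF1q0 ndF6q2 pcF2 Cut.none Ext.none)

def k0_pm_022 : ∃ t, chk3 f_pm_022 t 1 1 1 = true :=
  ⟨(l 4), by decide +kernel⟩

theorem c_pm_022 : CertFX 67108864 469762048 1073741824 536870912 1046898278 26843546 false true false .pp 0 2 2
    ndF1q0 ndF6q2 pcF2 Cut.none Ext.none :=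
  certFX0 (fam := false) (s1 := true) (s2 := false) (a := 0) (b := 2) (c := 2) (cn := .pp) (n1 := ndF1q0) (n2 := ndF6q2) (pc := pcF2) (cut := Cut.none) (xt := Ext.none) (P1 := 67108864) (W1 := 469762048) (P2 := 1073741824) (W2 := 536870912) (P3 := 1046898278) (W3 := 26843546)
    rfl k0_pm_022

noncomputable def f_pm_023 : ℕ → ℕ → ℕ → ℕ → Bool := onCell 67108864 469762048 0 1230186008 1046898278 26843546
    (rowFX 0 false true false .up 0 2 3 (qsf 67108864 469762048 0 1230186008 2) ndF1q0 ndF6q3 pcF2 Cut.none Ext.none)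

def k0_pm_023 : ∃ t, chk3 f_pm_023 t 1 1 1 = true :=
  ⟨(b (a (l 2) (a (b (l 2) (l 4)) (b (a (l 2) (b (l 16739896) (l 16725344))) (l 4)))) (l 4)), by decide +kernel⟩

theorem c_pm_023 : CertFX 67108864 469762048 0 1230186008 1046898278 26843546 false true false .up 0 2 3
    ndF1q0 ndF6q3 pcF2 Cut.none Ext.none :=
  certFX0 (fam := false) (s1 := true) (s2 := false) (a := 0) (b := 2) (c := 3) (cn := .up) (n1 := ndF1q0) (n2 := ndF6q3) (pc := pcF2) (cut := Cut.none) (xt := Ext.none) (P1 := 67108864) (W1 := 469762048) (P2 := 0) (W2 := 1230186008) (P3 := 1046898278) (W3 := 26843546)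
    rfl k0_pm_023

noncomputable def f_pm_033 : ℕ → ℕ → ℕ → ℕ → Bool := onCell 67108864 469762048 0 1230186008 1046898278 26843546
    (rowFX 0 false true false .pnn 0 3 3 (qsf 67108864 469762048 0 1230186008 3) ndF1q0 ndF6q3 pcF3 Cut.none Ext.none)

def k0_pm_033 : ∃ t, chk3 f_pm_033 t 1 1 1 = true :=
  ⟨(b (a (l 4) (b (b (a (c (l 208540747383) (l 223036245511)) (a (l 16739896) (l 16739896))) (a (l 4) (a (l 4) (l 16725344)))) (a (l 4) (l 4)))) (l 4)), by decide +kernel⟩

theorem c_pm_033 : CertFX 67108864 469762048 0 1230186008 1046898278 26843546 false true false .pnn 0 3 3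
    ndF1q0 ndF6q3 pcF3 Cut.none Ext.none :=
  certFX0 (fam := false) (s1 := true) (s2 := false) (a := 0) (b := 3) (c := 3) (cn := .pnn) (n1 := ndF1q0) (n2 := ndF6q3) (pc := pcF3) (cut := Cut.none) (xt := Ext.none) (P1 := 67108864) (W1 := 469762048) (P2 := 0) (W2 := 1230186008) (P3 := 1046898278) (W3 := 26843546)
    rfl k0_pm_033

noncomputable def f_pm_101 : ℕ → ℕ → ℕ → ℕ → Bool := onCell 536870912 536870912 536870912 469762048 1046898278 26843546
    (rowFX 0 false true false .npn 1 0 1 (qsf 536870912 536870912 536870912 469762048 0) ndF1q1 ndF6q1 pcF0 Cut.none Ext.none)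

def k0_pm_101 : ∃ t, chk3 f_pm_101 t 1 1 1 = true :=
  ⟨(l 4), by decide +kernel⟩

theorem c_pm_101 : CertFX 536870912 536870912 536870912 469762048 1046898278 26843546 false true false .npn 1 0 1
    ndF1q1 ndF6q1 pcF0 Cut.none Ext.none :=
  certFX0 (fam := false) (s1 := true) (s2 := false) (a := 1) (b := 0) (c := 1) (cn := .npn) (n1 := ndF1q1) (n2 := ndF6q1) (pc := pcF0) (cut := Cut.none) (xt := Ext.none) (P1 := 536870912) (W1 := 536870912) (P2 := 536870912) (W2 := 469762048) (P3 := 1046898278) (W3 := 26843546)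
    rfl k0_pm_101

noncomputable def f_pm_102 : ℕ → ℕ → ℕ → ℕ → Bool := onCell 536870912 536870912 0 536870912 1046898278 26843546
    (rowFX 1 false true false .npp 1 0 2 (qsf 536870912 536870912 1073741824 536870912 0) ndF1q1 ndF6q2 pcF0 Cut.none Ext.none)

def k0_pm_102 : ∃ t, chk3 f_pm_102 t 1 1 1 = true :=
  ⟨(a (l 4) (a (l 4) (b (b (l 4) (a (l 4) (a (l 4) (b (l 4) (b (l 15434248) (l 15789760)))))) (b (a (l 4) (b (a (l 4) (l 16016704)) (l 16113632))) (b (a (l 4) (l 16113632)) (l 86669669255)))))), by decide +kernel⟩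

theorem c_pm_102 : CertFX 536870912 536870912 1073741824 536870912 1046898278 26843546 false true false .npp 1 0 2
    ndF1q1 ndF6q2 pcF0 Cut.none Ext.none :=
  certFX1 (fam := false) (s1 := true) (s2 := false) (a := 1) (b := 0) (c := 2) (cn := .npp) (n1 := ndF1q1) (n2 := ndF6q2) (pc := pcF0) (cut := Cut.none) (xt := Ext.none) (P1 := 536870912) (W1 := 536870912) (P2 := 1073741824) (W2 := 536870912) (P3 := 1046898278) (W3 := 26843546)
    rfl (fun _ => rfl) k0_pm_102

noncomputable def f_pm_112 : ℕ → ℕ → ℕ → ℕ → Bool := onCell 536870912 536870912 1073741824 536870912 1046898278 26843546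
    (rowFX 2 false true false .dn 1 1 2 (qsf 536870912 536870912 1073741824 536870912 1) ndF1q1 ndF6q2 pcF1 Cut.none Ext.none)

def k0_pm_112 : ∃ t, chk3 f_pm_112 t 1 1 1 = true :=
  ⟨(a (b (l 4) (a (b (l 4) (a (b (l 16659584) (l 16314568)) (l 96871055815))) (l 4))) (l 4)), by decide +kernel⟩

theorem c_pm_112 : CertFX 536870912 536870912 1073741824 536870912 1046898278 26843546 false true false .dn 1 1 2
    ndF1q1 ndF6q2 pcF1 Cut.none Ext.none :=
  certFX2 (fam := false) (s1 := true) (s2 := false) (a := 1) (b := 1) (c := 2) (cn := .dn) (n1 := ndF1q1) (n2 := ndF6q2) (pc := pcF1) (cut := Cut.none) (xt := Ext.none) (P1 := 536870912) (W1 := 536870912) (P2 := 1073741824) (W2 := 536870912) (P3 := 1046898278) (W3 := 26843546)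
    rfl (fun _ => rfl) k0_pm_112

noncomputable def f_pm_113 : ℕ → ℕ → ℕ → ℕ → Bool := onCell 536870912 536870912 0 1230186008 1046898278 26843546
    (rowFX 2 false true false .nn 1 1 3 (qsf 536870912 536870912 0 1230186008 1) ndF1q1 ndF6q3 pcF1 Cut.none Ext.none)

def k0_pm_113 : ∃ t, chk3 f_pm_113 t 1 2 1 = true :=
  ⟨(a (l 2) (a (l 2) (b (a (l 2) (a (l 2) (b (a (l 2) (b (c (l 16680408) (l 16676912)) (l 16615472))) (l 16247920)))) (a (b (a (l 2) (b (l 2) (l 15601312))) (b (a (l 2) (l 15751632)) (a (l 15799992) (b (l 15868984) (l 15948016))))) (b (a (b (l 15676632) (l 15755008)) (b (l 15936880) (l 15931528))) (a (b (l 15890064) (b (a (l 15973696) (b (l 16023656) (l 16036672))) (a (l 16013056) (l 15959560)))) (b (b (l 15995256) (a (l 16023720) (b (l 16050808) (l 16023632)))) (a (b (b (l 16038736) (l 15966104)) (l 15833808)) (l 15784464))))))))), by decide +kernel⟩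

def k1_pm_113 : ∃ t, chk3 f_pm_113 t 2 3 1 = true :=
  ⟨(b (a (l 2) (b (l 2) (a (l 2) (b (l 2) (l 1002436042087))))) (a (b (l 2) (a (b (l 2) (b (l 15813136) (l 16007064))) (b (l 15895536) (l 16249296)))) (b (a (b (l 1486693486903) (l 15915088)) (b (l 15969792) (a (l 16194560) (b (l 16304400) (l 16486432))))) (a (b (b (l 16171304) (a (l 16257104) (l 16418504))) (a (l 16576016) (l 16613000))) (b (a (b (b (l 16424080) (l 16398664)) (l 16570280)) (b (a (l 16487576) (b (l 16593488) (l 16380112))) (l 16468696))) (a (l 16576648) (l 4))))))), by decide +kernel⟩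

def k2_pm_113 : ∃ t, chk3 f_pm_113 t 6 3 1 = true :=
  ⟨(b (a (b (l 2) (b (l 1042164688871) (l 16061736))) (b (a (b (l 2) (l 15880216)) (b (l 929958883367) (a (l 16016504) (l 16054072)))) (a (l 16234792) (b (l 16221640) (l 16438800))))) (b (a (b (a (l 16256560) (b (l 16380672) (b (l 16501968) (a (l 16527600) (l 16617464))))) (a (b (l 16509024) (a (b (l 16593688) (l 16639656)) (b (l 16679384) (l 16604416)))) (b (a (l 16651160) (b (l 16625152) (a (l 16535488) (l 16382896)))) (b (a (l 16567208) (b (l 16310288) (l 16069728))) (a (l 16211128) (l 16008088)))))) (a (b (b (l 16592360) (b (l 16680104) (a (l 16692840) (l 16578032)))) (b (b (a (l 16407712) (b (l 16141080) (l 15898736))) (a (a (l 16204128) (l 15998824)) (a (l 15761856) (l 15498968)))) (l 15689440))) (b (b (a (l 16697360) (l 16422072)) (b (a (a (b (l 16722792) (l 16691232)) (l 16609304)) (b (l 16372408) (l 16045056))) (a (b (l 16055920) (l 15890240)) (b (l 15573960) (l 15401472))))) (b (a (b (b (l 15641176) (l 15454600)) (l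 15366784)) (l 15208344)) (l 4))))) (b (a (a (b (a (b (l 16481536) (l 16143232)) (l 16340424)) (l 16361496)) (a (l 16065696) (l 15990528))) (l 4)) (l 4)))), by decide +kernel⟩

def k3_pm_113 : ∃ t, chk3 f_pm_113 t 7 6 1 = true :=
  ⟨(a (b (b (a (b (l 15925248) (l 15983320)) (b (l 15986840) (l 15951928))) (a (l 16018880) (l 15862688))) (a (b (l 16044800) (l 16040672)) (b (l 15731384) (a (l 15653104) (l 15334904))))) (b (a (b (a (l 15875304) (l 15745880)) (a (l 15654832) (l 15468840))) (b (a (l 15571648) (l 15412624)) (a (l 15217376) (l 14983016)))) (a (b (l 15227832) (b (l 14936504) (b (l 14766976) (b (a (l 14885104) (c (l 14468672) (l 14488664))) (c (a (c (l 14817416) (l 14823888)) (a (a (l 14596288) (l 14235480)) (l 14249776))) (a (l 14644408) (c (a (l 14546656) (l 14286816)) (l 14337024)))))))) (b (a (l 14741728) (l 14443952)) (b (l 13962824) (c (a (a (l 13936144) (l 14007632)) (l 13846152)) (c (a (a (b (l 14317616) (l 14233648)) (l 14075232)) (l 13802200)) (a (l 13937064) (a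 (l 13905992) (l 13734744)))))))))), by decide +kernel⟩

def k4_pm_113 : ∃ t, chk3 f_pm_113 t 7 7 1 = true :=
  ⟨(b (b (b (a (a (a (b (l 16161200) (b (l 16091088) (l 16047256))) (b (l 15770576) (a (b (l 15808480) (l 15628224)) (b (l 15621048) (l 15360544))))) (c (a (b (l 15432408) (b (l 15270064) (a (l 15014104) (l 14888472)))) (b (a (l 15200160) (b (l 15046680) (l 14644840))) (c (l 14703856) (l 14702784)))) (a (b (l 15404712) (b (l 15241888) (l 14931120))) (b (b (l 15092032) (a (l 15026976) (l 14614824))) (l 14671760))))) (a (c (a (b (a (b (b (l 14881864) (l 14697504)) (l 14523512)) (c (l 14545584) (l 14500880))) (l 14219688)) (l 14095560)) (a (b (b (b (l 14656432) (l 14463256)) (l 14464240)) (l 14313848)) (l 14225336))) (l 4))) (a (a (a (a (b (l 15852248) (b (l 15350472) (l 15102000))) (c (l 15310736) (l 15022552))) (a (a (l 15222896) (l 15177912)) (c (l 15122464) (l 15080936)))) (c (a (a (l 15004488) (l 14686968)) (l 14527888)) (a (l 14905176) (l 14499256)))) (l 4))) (a (a (a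 (l 15047736) (l 4)) (l 4)) (l 4))) (l 4)), by decide +kernel⟩

theorem s5_pm_113 : ∃ t, chk3 f_pm_113 t 7 3 1 = true := ex3_b k3_pm_113 k4_pm_113

theorem s6_pm_113 : ∃ t, chk3 f_pm_113 t 3 3 1 = true := ex3_a k2_pm_113 s5_pm_113

theorem s7_pm_113 : ∃ t, chk3 f_pm_113 t 1 3 1 = true := ex3_a k1_pm_113 s6_pm_113

theorem s8_pm_113 : ∃ t, chk3 f_pm_113 t 1 1 1 = true := ex3_b k0_pm_113 s7_pm_113

theorem c_pm_113 : CertFX 536870912 536870912 0 1230186008 1046898278 26843546 false true false .nn 1 1 3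
    ndF1q1 ndF6q3 pcF1 Cut.none Ext.none :=
  certFX2 (fam := false) (s1 := true) (s2 := false) (a := 1) (b := 1) (c := 3) (cn := .nn) (n1 := ndF1q1) (n2 := ndF6q3) (pc := pcF1) (cut := Cut.none) (xt := Ext.none) (P1 := 536870912) (W1 := 536870912) (P2 := 0) (W2 := 1230186008) (P3 := 1046898278) (W3 := 26843546)
    rfl (fun _ => rfl) s8_pm_113

noncomputable def f_pm_123 : ℕ → ℕ → ℕ → ℕ → Bool := onCell 1073741824 536870912 0 1230186008 1046898278 26843546
    (rowFX 2 false true false .npn 1 2 3 (qsf 536870912 536870912 0 1230186008 2) ndF1q1 ndF6q3 pcF2 Cut.none Ext.none)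

def k0_pm_123 : ∃ t, chk3 f_pm_123 t 1 2 1 = true :=
  ⟨(a (a (b (a (b (a (l 16459736) (l 16320136)) (a (b (l 16296456) (l 16083872)) (l 16000648))) (b (a (l 15882440) (l 15399336)) (a (l 15762624) (l 15367936)))) (a (b (a (b (l 15742088) (l 15518456)) (b (l 15752416) (a (l 15595232) (l 15612000)))) (b (a (b (a (l 15322328) (l 15429856)) (a (l 15234488) (l 15297248))) (a (l 15397552) (l 15392480))) (a (c (l 15113776) (l 15054048)) (c (l 15155056) (l 15129936))))) (b (a (b (l 15662216) (a (l 15606392) (l 15522680))) (b (l 15353992) (l 15296240))) (a (b (a (l 15384800) (l 15332904)) (l 15161592)) (l 15151752))))) (a (b (a (a (b (l 15057968) (l 15108864)) (b (l 15187784) (l 15261408))) (b (l 15768640) (l 15791680))) (b (a (a (l 15160376) (l 15305840)) (l 15754768)) (a (a (l 15144856) (l 15301048)) (l 15655664)))) (b (a (b (l 16432136) (l 16313536)) (b (l 16739424) (l 16662648))) (a (b (l 16239152) (l 16021216)) (b (l 16468352) (l 16237560)))))) (a (b (a (b (l 16728040) (l 16658304))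 (b (l 16738688) (l 16721376))) (b (a (l 16366232) (a (l 16734120) (l 16747528))) (a (a (l 16395472) (b (l 16583648) (l 16576256))) (b (a (l 16739376) (l 16757480)) (l 4))))) (b (a (l 16723688) (l 16723688)) (b (a (c (l 16750048) (l 16743248)) (l 16747528)) (l 4))))), by decide +kernel⟩

def k1_pm_123 : ∃ t, chk3 f_pm_123 t 1 3 1 = true :=
  ⟨(a (a (b (a (a (b (b (c (l 14840328) (l 14807544)) (l 14516768)) (c (l 14054720) (b (l 14140800) (l 13815968)))) (b (c (l 14742832) (l 14723760)) (c (b (l 14313264) (l 14175792)) (b (l 14296640) (l 14160576))))) (b (a (a (l 14815456) (l 14856984)) (l 14918968)) (b (a (a (l 14469704) (l 14586936)) (l 14816648)) (l 4)))) (l 4)) (b (b (a (a (a (l 15110680) (l 15285904)) (b (l 15576624) (l 15539264))) (b (a (l 15863392) (l 16104624)) (l 4))) (l 4)) (l 4))) (a (b (b (b (l 4) (l 4)) (l 4)) (l 1)) (l 4))), by decide +kernel⟩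

theorem s2_pm_123 : ∃ t, chk3 f_pm_123 t 1 1 1 = true := ex3_b k0_pm_123 k1_pm_123

theorem c_pm_123 : CertFX 536870912 536870912 0 1230186008 1046898278 26843546 false true false .npn 1 2 3
    ndF1q1 ndF6q3 pcF2 Cut.none Ext.none :=
  certFX2 (fam := false) (s1 := true) (s2 := false) (a := 1) (b := 2) (c := 3) (cn := .npn) (n1 := ndF1q1) (n2 := ndF6q3) (pc := pcF2) (cut := Cut.none) (xt := Ext.none) (P1 := 536870912) (W1 := 536870912) (P2 := 0) (W2 := 1230186008) (P3 := 1046898278) (W3 := 26843546)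
    rfl (fun _ => rfl) s2_pm_123

noncomputable def f_pm_133 : ℕ → ℕ → ℕ → ℕ → Bool := onCell 536870912 536870912 0 1230186008 1046898278 26843546
    (rowFX 0 false true false .dn 1 3 3 (qsf 536870912 536870912 0 1230186008 3) ndF1q1 ndF6q3 pcF3 Cut.none Ext.none)

def k0_pm_133 : ∃ t, chk3 f_pm_133 t 1 1 1 = true :=
  ⟨(b (a (a (b (b (l 2296230202919) (l 1)) (l 1)) (l 1)) (l 1)) (l 1)), by decide +kernel⟩

theorem c_pm_133 : CertFX 536870912 536870912 0 1230186008 1046898278 26843546 false true false .dn 1 3 3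
    ndF1q1 ndF6q3 pcF3 Cut.none Ext.none :=
  certFX0 (fam := false) (s1 := true) (s2 := false) (a := 1) (b := 3) (c := 3) (cn := .dn) (n1 := ndF1q1) (n2 := ndF6q3) (pc := pcF3) (cut := Cut.none) (xt := Ext.none) (P1 := 536870912) (W1 := 536870912) (P2 := 0) (W2 := 1230186008) (P3 := 1046898278) (W3 := 26843546)
    rfl k0_pm_133

end Pool.Agent.Strip051.G.IE1.Tab.C.FB16

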