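import Pool.Agent.Strip051.G.IE1.AsmH
import Pool.Agent.Strip051.G.IE1.TrF34
import Pool.Agent.Strip051.G.IE1.TrF35
import Pool.Agent.Strip051.G.IE1.TrF36
import Pool.Agent.Strip051.G.IE1.TrF37
import Pool.Agent.Strip051.G.IE1.TrF38
import Pool.Agent.Strip051.G.IE1.TrF39
import Pool.Agent.Strip051.G.IE1.TrF40
import Pool.Agent.Strip051.G.IE1.CubF
import Pool.Agent.Strip051.G.IE1.St5
import Pool.Agent.Strip051.G.IE1.St6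
import Pool.Agent.Strip051.G.IE1.StZ

/-! # Rows from certificates (generated) -/

set_option linter.all false
set_option maxRecDepth 100000

namespace Pool.Agent.Strip051.G.IE1.Tab

open Pool.Agent.Strip051.PB Pool.Agent.StripNear Pool.Agent.Strip051.LC

theorem FB06_pp_001 {κ x : ℝ} (hκ : κ * h0 = kenE x) (hx : 39 / 40 ≤ x) (hx' : x < 1) :
    TriB (DD x).cur (farD κ (h0 * x) (tbl tKF x) (tbl tL x)) 0 0 1 0 6 1 1 :=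
  (sideF hx hx').farB (Or.inl rfl) (Or.inl rfl) fun y y' F r1 r2 =>
    farXB_cert (s1 := true) (s2 := true) rfl hκ (ka0 hκ hx hx') (xa0 hx) hx' (covF00 hx hx') (covF61 hx hx') (x1 hx) (x2 hx')
        Pool.Agent.Strip051.G.IE1.Tab.C.FB06.c_pp_001 noCut_VB noExt_VB F r1 r2 r1 r2

theorem FB06_pp_011 {κ x : ℝ} (hκ : κ * h0 = kenE x) (hx : 39 / 40 ≤ x) (hx' : x < 1) :
    TriB (DD x).cur (farD κ (h0 * x) (tbl tKF x) (tbl tL x)) 0 1 1 0 6 1 1 :=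
  (sideF hx hx').farB (Or.inl rfl) (Or.inl rfl) fun y y' F r1 r2 =>
    farXB_cert (s1 := true) (s2 := true) rfl hκ (ka0 hκ hx hx') (xa0 hx) hx' (covF00 hx hx') (covF61 hx hx') (x1 hx) (x2 hx')
        Pool.Agent.Strip051.G.IE1.Tab.C.FB06.c_pp_011 noCut_VB noExt_VB F r1 r2 r1 r2

theorem FB06_pp_012 {κ x : ℝ} (hκ : κ * h0 = kenE x) (hx : 39 / 40 ≤ x) (hx' : x < 1) :
    TriB (DD x).cur (farD κ (h0 * x) (tbl tKF x) (tbl tL x)) 0 1 2 0 6 1 1 :=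
  (sideF hx hx').farB (Or.inl rfl) (Or.inl rfl) fun y y' F r1 r2 =>
    farXB_cert (s1 := true) (s2 := true) rfl hκ (ka0 hκ hx hx') (xa0 hx) hx' (covF00 hx hx') (covF62 hx hx') (x1 hx) (x2 hx')
        Pool.Agent.Strip051.G.IE1.Tab.C.FB06.c_pp_012 noCut_VB noExt_VB F r1 r2 r1 r2

theorem FB06_pp_022 {κ x : ℝ} (hκ : κ * h0 = kenE x) (hx : 39 / 40 ≤ x) (hx' : x < 1) :
    TriB (DD x).cur (farD κ (h0 * x) (tbl tKF x) (tbl tL x)) 0 2 2 0 6 1 1 :=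
  (sideF hx hx').farB (Or.inl rfl) (Or.inl rfl) fun y y' F r1 r2 =>
    farXB_cert (s1 := true) (s2 := true) rfl hκ (ka0 hκ hx hx') (xa0 hx) hx' (covF00 hx hx') (covF62 hx hx') (x1 hx) (x2 hx')
        Pool.Agent.Strip051.G.IE1.Tab.C.FB06.c_pp_022 noCut_VB noExt_VB F r1 r2 r1 r2

theorem FB06_pp_023 {κ x : ℝ} (hκ : κ * h0 = kenE x) (hx : 39 / 40 ≤ x) (hx' : x < 1) :
    TriB (DD x).cur (farD κ (h0 * x) (tbl tKF x) (tbl tL x)) 0 2 3 0 6 1 1 :=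
  (sideF hx hx').farB (Or.inl rfl) (Or.inl rfl) fun y y' F r1 r2 =>
    farXB_cert (s1 := true) (s2 := true) rfl hκ (ka0 hκ hx hx') (xa0 hx) hx' (covF00 hx hx') (covF63 hx hx') (x1 hx) (x2 hx')
        Pool.Agent.Strip051.G.IE1.Tab.C.FB06.c_pp_023 noCut_VB noExt_VB F r1 r2 r1 r2

theorem FB06_pp_033 {κ x : ℝ} (hκ : κ * h0 = kenE x) (hx : 39 / 40 ≤ x) (hx' : x < 1) :
    TriB (DD x).cur (farD κ (h0 * x) (tbl tKF x) (tbl tL x)) 0 3 3 0 6 1 1 :=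
  (sideF hx hx').farB (Or.inl rfl) (Or.inl rfl) fun y y' F r1 r2 =>
    farXB_cert (s1 := true) (s2 := true) rfl hκ (ka0 hκ hx hx') (xa0 hx) hx' (covF00 hx hx') (covF63 hx hx') (x1 hx) (x2 hx')
        Pool.Agent.Strip051.G.IE1.Tab.C.FB06.c_pp_033 noCut_VB noExt_VB F r1 r2 r1 r2

theorem FB06_pp_101 {κ x : ℝ} (hκ : κ * h0 = kenE x) (hx : 39 / 40 ≤ x) (hx' : x < 1) :
    TriB (DD x).cur (farD κ (h0 * x) (tbl tKF x) (tbl tL x)) 1 0 1 0 6 1 1 :=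
  (sideF hx hx').farB (Or.inl rfl) (Or.inl rfl) fun y y' F r1 r2 =>
    farXB_cert (s1 := true) (s2 := true) rfl hκ (ka0 hκ hx hx') (xa0 hx) hx' (covF01 hx hx') (covF61 hx hx') (x1 hx) (x2 hx')
        Pool.Agent.Strip051.G.IE1.Tab.C.FB06.c_pp_101 noCut_VB noExt_VB F r1 r2 r1 r2

theorem FB06_pp_102 {κ x : ℝ} (hκ : κ * h0 = kenE x) (hx : 39 / 40 ≤ x) (hx' : x < 1) :
    TriB (DD x).cur (farD κ (h0 * x) (tbl tKF x) (tbl tL x)) 1 0 2 0 6 1 1 :=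
  (sideF hx hx').farB (Or.inl rfl) (Or.inl rfl) fun y y' F r1 r2 =>
    farXB_cert (s1 := true) (s2 := true) rfl hκ (ka0 hκ hx hx') (xa0 hx) hx' (covF01 hx hx') (covF62 hx hx') (x1 hx) (x2 hx')
        Pool.Agent.Strip051.G.IE1.Tab.C.FB06.c_pp_102 noCut_VB noExt_VB F r1 r2 r1 r2

theorem FB06_pp_112 {κ x : ℝ} (hκ : κ * h0 = kenE x) (hx : 39 / 40 ≤ x) (hx' : x < 1) :
    TriB (DD x).cur (farD κ (h0 * x) (tbl tKF x) (tbl tL x)) 1 1 2 0 6 1 1 :=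
  (sideF hx hx').farB (Or.inl rfl) (Or.inl rfl) fun y y' F r1 r2 =>
    farXB_cert (s1 := true) (s2 := true) rfl hκ (ka0 hκ hx hx') (xa0 hx) hx' (covF01 hx hx') (covF62 hx hx') (x1 hx) (x2 hx')
        Pool.Agent.Strip051.G.IE1.Tab.C.FB06.c_pp_112 noCut_VB noExt_VB F r1 r2 r1 r2

theorem FB06_pp_113 {κ x : ℝ} (hκ : κ * h0 = kenE x) (hx : 39 / 40 ≤ x) (hx' : x < 1) :
    TriB (DD x).cur (farD κ (h0 * x) (tbl tKF x) (tbl tL x)) 1 1 3 0 6 1 1 :=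
  (sideF hx hx').farB (Or.inl rfl) (Or.inl rfl) fun y y' F r1 r2 =>
    farXB_cert (s1 := true) (s2 := true) rfl hκ (ka0 hκ hx hx') (xa0 hx) hx' (covF01 hx hx') (covF63 hx hx') (x1 hx) (x2 hx')
        Pool.Agent.Strip051.G.IE1.Tab.C.FB06.c_pp_113 (cutVB_cons (Pool.Agent.Strip051.G.IE1.Tab.qF_B06pp_113_112 hκ hx hx') cutVB_nil) noExt_VB F r1 r2 r1 r2

theorem FB06_pp_123 {κ x : ℝ} (hκ : κ * h0 = kenE x) (hx : 39 / 40 ≤ x) (hx' : x < 1) :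
    TriB (DD x).cur (farD κ (h0 * x) (tbl tKF x) (tbl tL x)) 1 2 3 0 6 1 1 :=
  (sideF hx hx').farB (Or.inl rfl) (Or.inl rfl) fun y y' F r1 r2 =>
    farXB_cert (s1 := true) (s2 := true) rfl hκ (ka0 hκ hx hx') (xa0 hx) hx' (covF01 hx hx') (covF63 hx hx') (x1 hx) (x2 hx')
        Pool.Agent.Strip051.G.IE1.Tab.C.FB06.c_pp_123 (cutVB_cons (Pool.Agent.Strip051.G.IE1.Tab.qF_B06pp_123_112 hκ hx hx') cutVB_nil) noExt_VB F r1 r2 r1 r2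

theorem FB06_pp_133 {κ x : ℝ} (hκ : κ * h0 = kenE x) (hx : 39 / 40 ≤ x) (hx' : x < 1) :
    TriB (DD x).cur (farD κ (h0 * x) (tbl tKF x) (tbl tL x)) 1 3 3 0 6 1 1 :=
  (sideF hx hx').farB (Or.inl rfl) (Or.inl rfl) fun y y' F r1 r2 =>
    farXB_cert (s1 := true) (s2 := true) rfl hκ (ka0 hκ hx hx') (xa0 hx) hx' (covF01 hx hx') (covF63 hx hx') (x1 hx) (x2 hx')
        Pool.Agent.Strip051.G.IE1.Tab.C.FB06.c_pp_133 noCut_VB noExt_VB F r1 r2 r1 r2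

theorem FB06_pp_202 {κ x : ℝ} (hκ : κ * h0 = kenE x) (hx : 39 / 40 ≤ x) (hx' : x < 1) :
    TriB (DD x).cur (farD κ (h0 * x) (tbl tKF x) (tbl tL x)) 2 0 2 0 6 1 1 :=
  (sideF hx hx').farB (Or.inl rfl) (Or.inl rfl) fun y y' F r1 r2 =>
    farXB_cert (s1 := true) (s2 := true) rfl hκ (ka0 hκ hx hx') (xa0 hx) hx' (covF02 hx hx') (covF62 hx hx') (x1 hx) (x2 hx')
        Pool.Agent.Strip051.G.IE1.Tab.C.FB06.c_pp_202 noCut_VB noExt_VB F r1 r2 r1 r2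

theorem FB06_pp_203 {κ x : ℝ} (hκ : κ * h0 = kenE x) (hx : 39 / 40 ≤ x) (hx' : x < 1) :
    TriB (DD x).cur (farD κ (h0 * x) (tbl tKF x) (tbl tL x)) 2 0 3 0 6 1 1 :=
  (sideF hx hx').farB (Or.inl rfl) (Or.inl rfl) fun y y' F r1 r2 =>
    farXB_cert (s1 := true) (s2 := true) rfl hκ (ka0 hκ hx hx') (xa0 hx) hx' (covF02 hx hx') (covF63 hx hx') (x1 hx) (x2 hx')
        Pool.Agent.Strip051.G.IE1.Tab.C.FB06.c_pp_203 noCut_VB noExt_VB F r1 r2 r1 r2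

theorem FB06_pp_213 {κ x : ℝ} (hκ : κ * h0 = kenE x) (hx : 39 / 40 ≤ x) (hx' : x < 1) :
    TriB (DD x).cur (farD κ (h0 * x) (tbl tKF x) (tbl tL x)) 2 1 3 0 6 1 1 :=
  (sideF hx hx').farB (Or.inl rfl) (Or.inl rfl) fun y y' F r1 r2 =>
    farXB_cert (s1 := true) (s2 := true) rfl hκ (ka0 hκ hx hx') (xa0 hx) hx' (covF02 hx hx') (covF63 hx hx') (x1 hx) (x2 hx')
        Pool.Agent.Strip051.G.IE1.Tab.C.FB06.c_pp_213 (cutVB_cons (Pool.Agent.Strip051.G.IE1.Tab.qF_B06pp_213_112 hκ hx hx') cutVB_nil) noExt_VB F r1 r2 r1 r2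

theorem FB06_pp_303 {κ x : ℝ} (hκ : κ * h0 = kenE x) (hx : 39 / 40 ≤ x) (hx' : x < 1) :
    TriB (DD x).cur (farD κ (h0 * x) (tbl tKF x) (tbl tL x)) 3 0 3 0 6 1 1 :=
  triVB_j0

theorem FB06_pp_313 {κ x : ℝ} (hκ : κ * h0 = kenE x) (hx : 39 / 40 ≤ x) (hx' : x < 1) :
    TriB (DD x).cur (farD κ (h0 * x) (tbl tKF x) (tbl tL x)) 3 1 3 0 6 1 1 :=
  triVB_j0

theorem FB06_pm_001 {κ x : ℝ} (hκ : κ * h0 = kenE x) (hx : 39 / 40 ≤ x) (hx' : x < 1) :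
    TriB (DD x).cur (farD κ (h0 * x) (tbl tKF x) (tbl tL x)) 0 0 1 0 6 1 (-1) :=
  (sideF hx hx').farB (Or.inl rfl) (Or.inr rfl) fun y y' F r1 r2 =>
    farXB_cert (s1 := true) (s2 := false) rfl hκ (ka0 hκ hx hx') (xa0 hx) hx' (covF00 hx hx') (covF61 hx hx') (x1 hx) (x2 hx')
        Pool.Agent.Strip051.G.IE1.Tab.C.FB06.c_pm_001 noCut_VB noExt_VB F r1 r2 r1 r2

theorem FB06_pm_011 {κ x : ℝ} (hκ : κ * h0 = kenE x) (hx : 39 / 40 ≤ x) (hx' : x < 1) :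
    TriB (DD x).cur (farD κ (h0 * x) (tbl tKF x) (tbl tL x)) 0 1 1 0 6 1 (-1) :=
  (sideF hx hx').farB (Or.inl rfl) (Or.inr rfl) fun y y' F r1 r2 =>
    farXB_cert (s1 := true) (s2 := false) rfl hκ (ka0 hκ hx hx') (xa0 hx) hx' (covF00 hx hx') (covF61 hx hx') (x1 hx) (x2 hx')
        Pool.Agent.Strip051.G.IE1.Tab.C.FB06.c_pm_011 noCut_VB noExt_VB F r1 r2 r1 r2

theorem FB06_pm_012 {κ x : ℝ} (hκ : κ * h0 = kenE x) (hx : 39 / 40 ≤ x) (hx' : x < 1) :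
    TriB (DD x).cur (farD κ (h0 * x) (tbl tKF x) (tbl tL x)) 0 1 2 0 6 1 (-1) :=
  (sideF hx hx').farB (Or.inl rfl) (Or.inr rfl) fun y y' F r1 r2 =>
    farXB_cert (s1 := true) (s2 := false) rfl hκ (ka0 hκ hx hx') (xa0 hx) hx' (covF00 hx hx') (covF62 hx hx') (x1 hx) (x2 hx')
        Pool.Agent.Strip051.G.IE1.Tab.C.FB06.c_pm_012 noCut_VB noExt_VB F r1 r2 r1 r2

theorem FB06_pm_022 {κ x : ℝ} (hκ : κ * h0 = kenE x) (hx : 39 / 40 ≤ x) (hx' : x < 1) :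
    TriB (DD x).cur (farD κ (h0 * x) (tbl tKF x) (tbl tL x)) 0 2 2 0 6 1 (-1) :=
  (sideF hx hx').farB (Or.inl rfl) (Or.inr rfl) fun y y' F r1 r2 =>
    farXB_cert (s1 := true) (s2 := false) rfl hκ (ka0 hκ hx hx') (xa0 hx) hx' (covF00 hx hx') (covF62 hx hx') (x1 hx) (x2 hx')
        Pool.Agent.Strip051.G.IE1.Tab.C.FB06.c_pm_022 noCut_VB noExt_VB F r1 r2 r1 r2

theorem FB06_pm_023 {κ x : ℝ} (hκ : κ * h0 = kenE x) (hx : 39 / 40 ≤ x) (hx' : x < 1) :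
    TriB (DD x).cur (farD κ (h0 * x) (tbl tKF x) (tbl tL x)) 0 2 3 0 6 1 (-1) :=
  (sideF hx hx').farB (Or.inl rfl) (Or.inr rfl) fun y y' F r1 r2 =>
    farXB_cert (s1 := true) (s2 := false) rfl hκ (ka0 hκ hx hx') (xa0 hx) hx' (covF00 hx hx') (covF63 hx hx') (x1 hx) (x2 hx')
        Pool.Agent.Strip051.G.IE1.Tab.C.FB06.c_pm_023 noCut_VB noExt_VB F r1 r2 r1 r2

theorem FB06_pm_033 {κ x : ℝ} (hκ : κ * h0 = kenE x) (hx : 39 / 40 ≤ x) (hx' : x < 1) :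
    TriB (DD x).cur (farD κ (h0 * x) (tbl tKF x) (tbl tL x)) 0 3 3 0 6 1 (-1) :=
  (sideF hx hx').farB (Or.inl rfl) (Or.inr rfl) fun y y' F r1 r2 =>
    farXB_cert (s1 := true) (s2 := false) rfl hκ (ka0 hκ hx hx') (xa0 hx) hx' (covF00 hx hx') (covF63 hx hx') (x1 hx) (x2 hx')
        Pool.Agent.Strip051.G.IE1.Tab.C.FB06.c_pm_033 noCut_VB noExt_VB F r1 r2 r1 r2

theorem FB06_pm_101 {κ x : ℝ} (hκ : κ * h0 = kenE x) (hx : 39 / 40 ≤ x) (hx' : x < 1) :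
    TriB (DD x).cur (farD κ (h0 * x) (tbl tKF x) (tbl tL x)) 1 0 1 0 6 1 (-1) :=
  (sideF hx hx').farB (Or.inl rfl) (Or.inr rfl) fun y y' F r1 r2 =>
    farXB_cert (s1 := true) (s2 := false) rfl hκ (ka0 hκ hx hx') (xa0 hx) hx' (covF01 hx hx') (covF61 hx hx') (x1 hx) (x2 hx')
        Pool.Agent.Strip051.G.IE1.Tab.C.FB06.c_pm_101 noCut_VB noExt_VB F r1 r2 r1 r2

theorem FB06_pm_102 {κ x : ℝ} (hκ : κ * h0 = kenE x) (hx : 39 / 40 ≤ x) (hx' : x < 1) :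
    TriB (DD x).cur (farD κ (h0 * x) (tbl tKF x) (tbl tL x)) 1 0 2 0 6 1 (-1) :=
  (sideF hx hx').farB (Or.inl rfl) (Or.inr rfl) fun y y' F r1 r2 =>
    farXB_cert (s1 := true) (s2 := false) rfl hκ (ka0 hκ hx hx') (xa0 hx) hx' (covF01 hx hx') (covF62 hx hx') (x1 hx) (x2 hx')
        Pool.Agent.Strip051.G.IE1.Tab.C.FB06.c_pm_102 noCut_VB noExt_VB F r1 r2 r1 r2

theorem FB06_pm_112 {κ x : ℝ} (hκ : κ * h0 = kenE x) (hx : 39 / 40 ≤ x) (hx' : x < 1) :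
    TriB (DD x).cur (farD κ (h0 * x) (tbl tKF x) (tbl tL x)) 1 1 2 0 6 1 (-1) :=
  (sideF hx hx').farB (Or.inl rfl) (Or.inr rfl) fun y y' F r1 r2 =>
    farXB_cert (s1 := true) (s2 := false) rfl hκ (ka0 hκ hx hx') (xa0 hx) hx' (covF01 hx hx') (covF62 hx hx') (x1 hx) (x2 hx')
        Pool.Agent.Strip051.G.IE1.Tab.C.FB06.c_pm_112 noCut_VB noExt_VB F r1 r2 r1 r2

theorem FB06_pm_113 {κ x : ℝ} (hκ : κ * h0 = kenE x) (hx : 39 / 40 ≤ x) (hx' : x < 1) :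
    TriB (DD x).cur (farD κ (h0 * x) (tbl tKF x) (tbl tL x)) 1 1 3 0 6 1 (-1) :=
  (sideF hx hx').farB (Or.inl rfl) (Or.inr rfl) fun y y' F r1 r2 =>
    farXB_cert (s1 := true) (s2 := false) rfl hκ (ka0 hκ hx hx') (xa0 hx) hx' (covF01 hx hx') (covF63 hx hx') (x1 hx) (x2 hx')
        Pool.Agent.Strip051.G.IE1.Tab.C.FB06.c_pm_113 (cutVB_cons (Pool.Agent.Strip051.G.IE1.Tab.qF_B06pm_113_112 hκ hx hx') cutVB_nil) noExt_VB F r1 r2 r1 r2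

theorem FB06_pm_123 {κ x : ℝ} (hκ : κ * h0 = kenE x) (hx : 39 / 40 ≤ x) (hx' : x < 1) :
    TriB (DD x).cur (farD κ (h0 * x) (tbl tKF x) (tbl tL x)) 1 2 3 0 6 1 (-1) :=
  (sideF hx hx').farB (Or.inl rfl) (Or.inr rfl) fun y y' F r1 r2 =>
    farXB_cert (s1 := true) (s2 := false) rfl hκ (ka0 hκ hx hx') (xa0 hx) hx' (covF01 hx hx') (covF63 hx hx') (x1 hx) (x2 hx')
        Pool.Agent.Strip051.G.IE1.Tab.C.FB06.c_pm_123 (cutVB_cons (Pool.Agent.Strip051.G.IE1.Tab.qF_B06pm_123_112 hκ hx hx') cutVB_nil) noExt_VB F r1 r2 r1 r2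

theorem FB06_pm_133 {κ x : ℝ} (hκ : κ * h0 = kenE x) (hx : 39 / 40 ≤ x) (hx' : x < 1) :
    TriB (DD x).cur (farD κ (h0 * x) (tbl tKF x) (tbl tL x)) 1 3 3 0 6 1 (-1) :=
  (sideF hx hx').farB (Or.inl rfl) (Or.inr rfl) fun y y' F r1 r2 =>
    farXB_cert (s1 := true) (s2 := false) rfl hκ (ka0 hκ hx hx') (xa0 hx) hx' (covF01 hx hx') (covF63 hx hx') (x1 hx) (x2 hx')
        Pool.Agent.Strip051.G.IE1.Tab.C.FB06.c_pm_133 noCut_VB noExt_VB F r1 r2 r1 r2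

theorem FB06_pm_202 {κ x : ℝ} (hκ : κ * h0 = kenE x) (hx : 39 / 40 ≤ x) (hx' : x < 1) :
    TriB (DD x).cur (farD κ (h0 * x) (tbl tKF x) (tbl tL x)) 2 0 2 0 6 1 (-1) :=
  (sideF hx hx').farB (Or.inl rfl) (Or.inr rfl) fun y y' F r1 r2 =>
    farXB_cert (s1 := true) (s2 := false) rfl hκ (ka0 hκ hx hx') (xa0 hx) hx' (covF02 hx hx') (covF62 hx hx') (x1 hx) (x2 hx')
        Pool.Agent.Strip051.G.IE1.Tab.C.FB06.c_pm_202 noCut_VB noExt_VB F r1 r2 r1 r2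

theorem FB06_pm_203 {κ x : ℝ} (hκ : κ * h0 = kenE x) (hx : 39 / 40 ≤ x) (hx' : x < 1) :
    TriB (DD x).cur (farD κ (h0 * x) (tbl tKF x) (tbl tL x)) 2 0 3 0 6 1 (-1) :=
  (sideF hx hx').farB (Or.inl rfl) (Or.inr rfl) fun y y' F r1 r2 =>
    farXB_cert (s1 := true) (s2 := false) rfl hκ (ka0 hκ hx hx') (xa0 hx) hx' (covF02 hx hx') (covF63 hx hx') (x1 hx) (x2 hx')
        Pool.Agent.Strip051.G.IE1.Tab.C.FB06.c_pm_203 noCut_VB noExt_VB F r1 r2 r1 r2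

theorem FB06_pm_213 {κ x : ℝ} (hκ : κ * h0 = kenE x) (hx : 39 / 40 ≤ x) (hx' : x < 1) :
    TriB (DD x).cur (farD κ (h0 * x) (tbl tKF x) (tbl tL x)) 2 1 3 0 6 1 (-1) :=
  (sideF hx hx').farB (Or.inl rfl) (Or.inr rfl) fun y y' F r1 r2 =>
    farXB_cert (s1 := true) (s2 := false) rfl hκ (ka0 hκ hx hx') (xa0 hx) hx' (covF02 hx hx') (covF63 hx hx') (x1 hx) (x2 hx')
        Pool.Agent.Strip051.G.IE1.Tab.C.FB06.c_pm_213 (cutVB_cons (Pool.Agent.Strip051.G.IE1.Tab.qF_B06pm_213_112 hκ hx hx') cutVB_nil) noExt_VB F r1 r2 r1 r2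

theorem FB06_pm_303 {κ x : ℝ} (hκ : κ * h0 = kenE x) (hx : 39 / 40 ≤ x) (hx' : x < 1) :
    TriB (DD x).cur (farD κ (h0 * x) (tbl tKF x) (tbl tL x)) 3 0 3 0 6 1 (-1) :=
  triVB_j0

theorem FB06_pm_313 {κ x : ℝ} (hκ : κ * h0 = kenE x) (hx : 39 / 40 ≤ x) (hx' : x < 1) :
    TriB (DD x).cur (farD κ (h0 * x) (tbl tKF x) (tbl tL x)) 3 1 3 0 6 1 (-1) :=
  triVB_j0

theorem FB06_mm_001 {κ x : ℝ} (hκ : κ * h0 = kenE x) (hx : 39 / 40 ≤ x) (hx' : x < 1) :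
    TriB (DD x).cur (farD κ (h0 * x) (tbl tKF x) (tbl tL x)) 0 0 1 0 6 (-1) (-1) :=
  (sideF hx hx').farB (Or.inr rfl) (Or.inr rfl) fun y y' F r1 r2 =>
    farXB_cert (s1 := false) (s2 := false) rfl hκ (ka0 hκ hx hx') (xa0 hx) hx' (covF00 hx hx') (covF61 hx hx') (x1 hx) (x2 hx')
        Pool.Agent.Strip051.G.IE1.Tab.C.FB06.c_mm_001 noCut_VB noExt_VB F r1 r2 r1 r2

theorem FB06_mm_011 {κ x : ℝ} (hκ : κ * h0 = kenE x) (hx : 39 / 40 ≤ x) (hx' : x < 1) :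
    TriB (DD x).cur (farD κ (h0 * x) (tbl tKF x) (tbl tL x)) 0 1 1 0 6 (-1) (-1) :=
  (sideF hx hx').farB (Or.inr rfl) (Or.inr rfl) fun y y' F r1 r2 =>
    farXB_cert (s1 := false) (s2 := false) rfl hκ (ka0 hκ hx hx') (xa0 hx) hx' (covF00 hx hx') (covF61 hx hx') (x1 hx) (x2 hx')
        Pool.Agent.Strip051.G.IE1.Tab.C.FB06.c_mm_011 noCut_VB noExt_VB F r1 r2 r1 r2

theorem FB06_mm_012 {κ x : ℝ} (hκ : κ * h0 = kenE x) (hx : 39 / 40 ≤ x) (hx' : x < 1) :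
    TriB (DD x).cur (farD κ (h0 * x) (tbl tKF x) (tbl tL x)) 0 1 2 0 6 (-1) (-1) :=
  (sideF hx hx').farB (Or.inr rfl) (Or.inr rfl) fun y y' F r1 r2 =>
    farXB_cert (s1 := false) (s2 := false) rfl hκ (ka0 hκ hx hx') (xa0 hx) hx' (covF00 hx hx') (covF62 hx hx') (x1 hx) (x2 hx')
        Pool.Agent.Strip051.G.IE1.Tab.C.FB06.c_mm_012 noCut_VB noExt_VB F r1 r2 r1 r2

theorem FB06_mm_022 {κ x : ℝ} (hκ : κ * h0 = kenE x) (hx : 39 / 40 ≤ x) (hx' : x < 1) :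
    TriB (DD x).cur (farD κ (h0 * x) (tbl tKF x) (tbl tL x)) 0 2 2 0 6 (-1) (-1) :=
  (sideF hx hx').farB (Or.inr rfl) (Or.inr rfl) fun y y' F r1 r2 =>
    farXB_cert (s1 := false) (s2 := false) rfl hκ (ka0 hκ hx hx') (xa0 hx) hx' (covF00 hx hx') (covF62 hx hx') (x1 hx) (x2 hx')
        Pool.Agent.Strip051.G.IE1.Tab.C.FB06.c_mm_022 noCut_VB noExt_VB F r1 r2 r1 r2

theorem FB06_mm_023 {κ x : ℝ} (hκ : κ * h0 = kenE x) (hx : 39 / 40 ≤ x) (hx' : x < 1) :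
    TriB (DD x).cur (farD κ (h0 * x) (tbl tKF x) (tbl tL x)) 0 2 3 0 6 (-1) (-1) :=
  (sideF hx hx').farB (Or.inr rfl) (Or.inr rfl) fun y y' F r1 r2 =>
    farXB_cert (s1 := false) (s2 := false) rfl hκ (ka0 hκ hx hx') (xa0 hx) hx' (covF00 hx hx') (covF63 hx hx') (x1 hx) (x2 hx')
        Pool.Agent.Strip051.G.IE1.Tab.C.FB06.c_mm_023 noCut_VB noExt_VB F r1 r2 r1 r2

theorem FB06_mm_033 {κ x : ℝ} (hκ : κ * h0 = kenE x) (hx : 39 / 40 ≤ x) (hx' : x < 1) :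
    TriB (DD x).cur (farD κ (h0 * x) (tbl tKF x) (tbl tL x)) 0 3 3 0 6 (-1) (-1) :=
  (sideF hx hx').farB (Or.inr rfl) (Or.inr rfl) fun y y' F r1 r2 =>
    farXB_cert (s1 := false) (s2 := false) rfl hκ (ka0 hκ hx hx') (xa0 hx) hx' (covF00 hx hx') (covF63 hx hx') (x1 hx) (x2 hx')
        Pool.Agent.Strip051.G.IE1.Tab.C.FB06.c_mm_033 noCut_VB noExt_VB F r1 r2 r1 r2

theorem FB06_mm_101 {κ x : ℝ} (hκ : κ * h0 = kenE x) (hx : 39 / 40 ≤ x) (hx' : x < 1) :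
    TriB (DD x).cur (farD κ (h0 * x) (tbl tKF x) (tbl tL x)) 1 0 1 0 6 (-1) (-1) :=
  (sideF hx hx').farB (Or.inr rfl) (Or.inr rfl) fun y y' F r1 r2 =>
    farXB_cert (s1 := false) (s2 := false) rfl hκ (ka0 hκ hx hx') (xa0 hx) hx' (covF01 hx hx') (covF61 hx hx') (x1 hx) (x2 hx')
        Pool.Agent.Strip051.G.IE1.Tab.C.FB06.c_mm_101 noCut_VB noExt_VB F r1 r2 r1 r2

theorem FB06_mm_102 {κ x : ℝ} (hκ : κ * h0 = kenE x) (hx : 39 / 40 ≤ x) (hx' : x < 1) :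
    TriB (DD x).cur (farD κ (h0 * x) (tbl tKF x) (tbl tL x)) 1 0 2 0 6 (-1) (-1) :=
  (sideF hx hx').farB (Or.inr rfl) (Or.inr rfl) fun y y' F r1 r2 =>
    farXB_cert (s1 := false) (s2 := false) rfl hκ (ka0 hκ hx hx') (xa0 hx) hx' (covF01 hx hx') (covF62 hx hx') (x1 hx) (x2 hx')
        Pool.Agent.Strip051.G.IE1.Tab.C.FB06.c_mm_102 noCut_VB noExt_VB F r1 r2 r1 r2

theorem FB06_mm_112 {κ x : ℝ} (hκ : κ * h0 = kenE x) (hx : 39 / 40 ≤ x) (hx' : x < 1) :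
    TriB (DD x).cur (farD κ (h0 * x) (tbl tKF x) (tbl tL x)) 1 1 2 0 6 (-1) (-1) :=
  (sideF hx hx').farB (Or.inr rfl) (Or.inr rfl) fun y y' F r1 r2 =>
    farXB_cert (s1 := false) (s2 := false) rfl hκ (ka0 hκ hx hx') (xa0 hx) hx' (covF01 hx hx') (covF62 hx hx') (x1 hx) (x2 hx')
        Pool.Agent.Strip051.G.IE1.Tab.C.FB06.c_mm_112 noCut_VB noExt_VB F r1 r2 r1 r2

theorem FB06_mm_113 {κ x : ℝ} (hκ : κ * h0 = kenE x) (hx : 39 / 40 ≤ x) (hx' : x < 1) :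
    TriB (DD x).cur (farD κ (h0 * x) (tbl tKF x) (tbl tL x)) 1 1 3 0 6 (-1) (-1) :=
  (sideF hx hx').farB (Or.inr rfl) (Or.inr rfl) fun y y' F r1 r2 =>
    farXB_cert (s1 := false) (s2 := false) rfl hκ (ka0 hκ hx hx') (xa0 hx) hx' (covF01 hx hx') (covF63 hx hx') (x1 hx) (x2 hx')
        Pool.Agent.Strip051.G.IE1.Tab.C.FB06.c_mm_113 noCut_VB noExt_VB F r1 r2 r1 r2

theorem FB06_mm_123 {κ x : ℝ} (hκ : κ * h0 = kenE x) (hx : 39 / 40 ≤ x) (hx' : x < 1) :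
    TriB (DD x).cur (farD κ (h0 * x) (tbl tKF x) (tbl tL x)) 1 2 3 0 6 (-1) (-1) :=
  (sideF hx hx').farB (Or.inr rfl) (Or.inr rfl) fun y y' F r1 r2 =>
    farXB_cert (s1 := false) (s2 := false) rfl hκ (ka0 hκ hx hx') (xa0 hx) hx' (covF01 hx hx') (covF63 hx hx') (x1 hx) (x2 hx')
        Pool.Agent.Strip051.G.IE1.Tab.C.FB06.c_mm_123 noCut_VB noExt_VB F r1 r2 r1 r2

theorem FB06_mm_133 {κ x : ℝ} (hκ : κ * h0 = kenE x) (hx : 39 / 40 ≤ x) (hx' : x < 1) :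
    TriB (DD x).cur (farD κ (h0 * x) (tbl tKF x) (tbl tL x)) 1 3 3 0 6 (-1) (-1) :=
  (sideF hx hx').farB (Or.inr rfl) (Or.inr rfl) fun y y' F r1 r2 =>
    farXB_cert (s1 := false) (s2 := false) rfl hκ (ka0 hκ hx hx') (xa0 hx) hx' (covF01 hx hx') (covF63 hx hx') (x1 hx) (x2 hx')
        Pool.Agent.Strip051.G.IE1.Tab.C.FB06.c_mm_133 noCut_VB noExt_VB F r1 r2 r1 r2

theorem FB06_mm_202 {κ x : ℝ} (hκ : κ * h0 = kenE x) (hx : 39 / 40 ≤ x) (hx' : x < 1) :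
    TriB (DD x).cur (farD κ (h0 * x) (tbl tKF x) (tbl tL x)) 2 0 2 0 6 (-1) (-1) :=
  (sideF hx hx').farB (Or.inr rfl) (Or.inr rfl) fun y y' F r1 r2 =>
    farXB_cert (s1 := false) (s2 := false) rfl hκ (ka0 hκ hx hx') (xa0 hx) hx' (covF02 hx hx') (covF62 hx hx') (x1 hx) (x2 hx')
        Pool.Agent.Strip051.G.IE1.Tab.C.FB06.c_mm_202 noCut_VB noExt_VB F r1 r2 r1 r2

theorem FB06_mm_203 {κ x : ℝ} (hκ : κ * h0 = kenE x) (hx : 39 / 40 ≤ x) (hx' : x < 1) :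
    TriB (DD x).cur (farD κ (h0 * x) (tbl tKF x) (tbl tL x)) 2 0 3 0 6 (-1) (-1) :=
  (sideF hx hx').farB (Or.inr rfl) (Or.inr rfl) fun y y' F r1 r2 =>
    farXB_cert (s1 := false) (s2 := false) rfl hκ (ka0 hκ hx hx') (xa0 hx) hx' (covF02 hx hx') (covF63 hx hx') (x1 hx) (x2 hx')
        Pool.Agent.Strip051.G.IE1.Tab.C.FB06.c_mm_203 noCut_VB noExt_VB F r1 r2 r1 r2

theorem FB06_mm_213 {κ x : ℝ} (hκ : κ * h0 = kenE x) (hx : 39 / 40 ≤ x) (hx' : x < 1) :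
    TriB (DD x).cur (farD κ (h0 * x) (tbl tKF x) (tbl tL x)) 2 1 3 0 6 (-1) (-1) :=
  (sideF hx hx').farB (Or.inr rfl) (Or.inr rfl) fun y y' F r1 r2 =>
    farXB_cert (s1 := false) (s2 := false) rfl hκ (ka0 hκ hx hx') (xa0 hx) hx' (covF02 hx hx') (covF63 hx hx') (x1 hx) (x2 hx')
        Pool.Agent.Strip051.G.IE1.Tab.C.FB06.c_mm_213 noCut_VB noExt_VB F r1 r2 r1 r2

theorem FB06_mm_303 {κ x : ℝ} (hκ : κ * h0 = kenE x) (hx : 39 / 40 ≤ x) (hx' : x < 1) :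
    TriB (DD x).cur (farD κ (h0 * x) (tbl tKF x) (tbl tL x)) 3 0 3 0 6 (-1) (-1) :=
  triVB_j0

theorem FB06_mm_313 {κ x : ℝ} (hκ : κ * h0 = kenE x) (hx : 39 / 40 ≤ x) (hx' : x < 1) :
    TriB (DD x).cur (farD κ (h0 * x) (tbl tKF x) (tbl tL x)) 3 1 3 0 6 (-1) (-1) :=
  triVB_j0

theorem FB06 {κ x : ℝ} (hκ : κ * h0 = kenE x) (hx : 39 / 40 ≤ x) (hx' : x < 1) : AllTB (DD x).cur (farD κ (h0 * x) (tbl tKF x) (tbl tL x)) 0 6 where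
  pp := all17 (Q := fun a b c => TriB (DD x).cur (farD κ (h0 * x) (tbl tKF x) (tbl tL x)) a b c 0 6 1 1)
    (FB06_pp_001 hκ hx hx') (FB06_pp_011 hκ hx hx') (FB06_pp_012 hκ hx hx') (FB06_pp_022 hκ hx hx') (FB06_pp_023 hκ hx hx') (FB06_pp_033 hκ hx hx') (FB06_pp_101 hκ hx hx') (FB06_pp_102 hκ hx hx') (FB06_pp_112 hκ hx hx') (FB06_pp_113 hκ hx hx') (FB06_pp_123 hκ hx hx') (FB06_pp_133 hκ hx hx') (FB06_pp_202 hκ hx hx') (FB06_pp_203 hκ hx hx') (FB06_pp_213 hκ hx hx') (FB06_pp_303 hκ hx hx') (FB06_pp_313 hκ hx hx')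
  pm := all17 (Q := fun a b c => TriB (DD x).cur (farD κ (h0 * x) (tbl tKF x) (tbl tL x)) a b c 0 6 1 (-1))
    (FB06_pm_001 hκ hx hx') (FB06_pm_011 hκ hx hx') (FB06_pm_012 hκ hx hx') (FB06_pm_022 hκ hx hx') (FB06_pm_023 hκ hx hx') (FB06_pm_033 hκ hx hx') (FB06_pm_101 hκ hx hx') (FB06_pm_102 hκ hx hx') (FB06_pm_112 hκ hx hx') (FB06_pm_113 hκ hx hx') (FB06_pm_123 hκ hx hx') (FB06_pm_133 hκ hx hx') (FB06_pm_202 hκ hx hx') (FB06_pm_203 hκ hx hx') (FB06_pm_213 hκ hx hx') (FB06_pm_303 hκ hx hx') (FB06_pm_313 hκ hx hx')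
  mm := all17 (Q := fun a b c => TriB (DD x).cur (farD κ (h0 * x) (tbl tKF x) (tbl tL x)) a b c 0 6 (-1) (-1))
    (FB06_mm_001 hκ hx hx') (FB06_mm_011 hκ hx hx') (FB06_mm_012 hκ hx hx') (FB06_mm_022 hκ hx hx') (FB06_mm_023 hκ hx hx') (FB06_mm_033 hκ hx hx') (FB06_mm_101 hκ hx hx') (FB06_mm_102 hκ hx hx') (FB06_mm_112 hκ hx hx') (FB06_mm_113 hκ hx hx') (FB06_mm_123 hκ hx hx') (FB06_mm_133 hκ hx hx') (FB06_mm_202 hκ hx hx') (FB06_mm_203 hκ hx hx') (FB06_mm_213 hκ hx hx') (FB06_mm_303 hκ hx hx') (FB06_mm_313 hκ hx hx')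

theorem FB07_pp_001 {κ x : ℝ} (hκ : κ * h0 = kenE x) (hx : 39 / 40 ≤ x) (hx' : x < 1) :
    TriB (DD x).cur (farD κ (h0 * x) (tbl tKF x) (tbl tL x)) 0 0 1 0 7 1 1 :=
  (sideF hx hx').farB (Or.inl rfl) (Or.inl rfl) fun y y' F r1 r2 =>
    farXB_cert (s1 := true) (s2 := true) rfl hκ (ka0 hκ hx hx') (xa0 hx) hx' (covF00 hx hx') (covF71 hx hx') (x1 hx) (x2 hx')
        Pool.Agent.Strip051.G.IE1.Tab.C.FB07.c_pp_001 (cutVB_cons (Pool.Agent.Strip051.G.IE1.Tab.St.C.s_B07pp_001_s1 hκ hx hx') cutVB_nil) noExt_VB F r1 r2 r1 r2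

theorem FB07_pp_011 {κ x : ℝ} (hκ : κ * h0 = kenE x) (hx : 39 / 40 ≤ x) (hx' : x < 1) :
    TriB (DD x).cur (farD κ (h0 * x) (tbl tKF x) (tbl tL x)) 0 1 1 0 7 1 1 :=
  (sideF hx hx').farB (Or.inl rfl) (Or.inl rfl) fun y y' F r1 r2 =>
    farXB_cert (s1 := true) (s2 := true) rfl hκ (ka0 hκ hx hx') (xa0 hx) hx' (covF00 hx hx') (covF71 hx hx') (x1 hx) (x2 hx')
        Pool.Agent.Strip051.G.IE1.Tab.C.FB07.c_pp_011 (cutVB_cons (Pool.Agent.Strip051.G.IE1.Tab.St.C.s_B07pp_011_s1 hκ hx hx' (cutVB_cons (Pool.Agent.Strip051.G.IE1.Tab.qF_B07pp_011_011 hκ hx hx') cutVB_nil)) (cutVB_cons (Pool.Agent.Strip051.G.IE1.Tab.qF_B07pp_011_011 hκ hx hx') cutVB_nil)) noExt_VB F r1 r2 r1 r2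

theorem FB07_pp_012 {κ x : ℝ} (hκ : κ * h0 = kenE x) (hx : 39 / 40 ≤ x) (hx' : x < 1) :
    TriB (DD x).cur (farD κ (h0 * x) (tbl tKF x) (tbl tL x)) 0 1 2 0 7 1 1 :=
  (sideF hx hx').farB (Or.inl rfl) (Or.inl rfl) fun y y' F r1 r2 =>
    farXB_cert (s1 := true) (s2 := true) rfl hκ (ka0 hκ hx hx') (xa0 hx) hx' (covF00 hx hx') (covF72 hx hx') (x1 hx) (x2 hx')
        Pool.Agent.Strip051.G.IE1.Tab.C.FB07.c_pp_012 (cutVB_cons (Pool.Agent.Strip051.G.IE1.Tab.St.C.s_B07pp_012_s1 hκ hx hx' (cutVB_cons (Pool.Agent.Strip051.G.IE1.Tab.qF_B07pp_012_011 hκ hx hx') cutVB_nil)) (cutVB_cons (Pool.Agent.Strip051.G.IE1.Tab.qF_B07pp_012_011 hκ hx hx') cutVB_nil)) noExt_VB F r1 r2 r1 r2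

theorem FB07_pp_022 {κ x : ℝ} (hκ : κ * h0 = kenE x) (hx : 39 / 40 ≤ x) (hx' : x < 1) :
    TriB (DD x).cur (farD κ (h0 * x) (tbl tKF x) (tbl tL x)) 0 2 2 0 7 1 1 :=
  (sideF hx hx').farB (Or.inl rfl) (Or.inl rfl) fun y y' F r1 r2 =>
    farXB_cert (s1 := true) (s2 := true) rfl hκ (ka0 hκ hx hx') (xa0 hx) hx' (covF00 hx hx') (covF72 hx hx') (x1 hx) (x2 hx')
        Pool.Agent.Strip051.G.IE1.Tab.C.FB07.c_pp_022 (cutVB_cons (Pool.Agent.Strip051.G.IE1.Tab.St.C.s_B07pp_022_s1 hκ hx hx' (cutVB_cons (Pool.Agent.Strip051.G.IE1.Tab.qF_B07pp_022_011 hκ hx hx') cutVB_nil)) (cutVB_cons (Pool.Agent.Strip051.G.IE1.Tab.qF_B07pp_022_011 hκ hx hx') cutVB_nil)) noExt_VB F r1 r2 r1 r2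

theorem FB07_pp_023 {κ x : ℝ} (hκ : κ * h0 = kenE x) (hx : 39 / 40 ≤ x) (hx' : x < 1) :
    TriB (DD x).cur (farD κ (h0 * x) (tbl tKF x) (tbl tL x)) 0 2 3 0 7 1 1 :=
  (sideF hx hx').farB (Or.inl rfl) (Or.inl rfl) fun y y' F r1 r2 =>
    farXB_cert (s1 := true) (s2 := true) rfl hκ (ka0 hκ hx hx') (xa0 hx) hx' (covF00 hx hx') (covF73 hx hx') (x1 hx) (x2 hx')
        Pool.Agent.Strip051.G.IE1.Tab.C.FB07.c_pp_023 (cutVB_cons (Pool.Agent.Strip051.G.IE1.Tab.St.C.s_B07pp_023_s1 hκ hx hx') cutVB_nil) noExt_VB F r1 r2 r1 r2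

theorem FB07_pp_033 {κ x : ℝ} (hκ : κ * h0 = kenE x) (hx : 39 / 40 ≤ x) (hx' : x < 1) :
    TriB (DD x).cur (farD κ (h0 * x) (tbl tKF x) (tbl tL x)) 0 3 3 0 7 1 1 :=
  (sideF hx hx').farB (Or.inl rfl) (Or.inl rfl) fun y y' F r1 r2 =>
    farXB_cert (s1 := true) (s2 := true) rfl hκ (ka0 hκ hx hx') (xa0 hx) hx' (covF00 hx hx') (covF73 hx hx') (x1 hx) (x2 hx')
        Pool.Agent.Strip051.G.IE1.Tab.C.FB07.c_pp_033 (cutVB_cons (Pool.Agent.Strip051.G.IE1.Tab.St.C.s_B07pp_033_s1 hκ hx hx') cutVB_nil) noExt_VB F r1 r2 r1 r2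

theorem FB07_pp_101 {κ x : ℝ} (hκ : κ * h0 = kenE x) (hx : 39 / 40 ≤ x) (hx' : x < 1) :
    TriB (DD x).cur (farD κ (h0 * x) (tbl tKF x) (tbl tL x)) 1 0 1 0 7 1 1 :=
  (sideF hx hx').farB (Or.inl rfl) (Or.inl rfl) fun y y' F r1 r2 =>
    farXB_cert (s1 := true) (s2 := true) rfl hκ (ka0 hκ hx hx') (xa0 hx) hx' (covF01 hx hx') (covF71 hx hx') (x1 hx) (x2 hx')
        Pool.Agent.Strip051.G.IE1.Tab.C.FB07.c_pp_101 (cutVB_cons (Pool.Agent.Strip051.G.IE1.Tab.St.C.s_B07pp_101_s1 hκ hx hx') cutVB_nil) noExt_VB F r1 r2 r1 r2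

theorem FB07_pp_102 {κ x : ℝ} (hκ : κ * h0 = kenE x) (hx : 39 / 40 ≤ x) (hx' : x < 1) :
    TriB (DD x).cur (farD κ (h0 * x) (tbl tKF x) (tbl tL x)) 1 0 2 0 7 1 1 :=
  (sideF hx hx').farB (Or.inl rfl) (Or.inl rfl) fun y y' F r1 r2 =>
    farXB_cert (s1 := true) (s2 := true) rfl hκ (ka0 hκ hx hx') (xa0 hx) hx' (covF01 hx hx') (covF72 hx hx') (x1 hx) (x2 hx')
        Pool.Agent.Strip051.G.IE1.Tab.C.FB07.c_pp_102 (cutVB_cons (Pool.Agent.Strip051.G.IE1.Tab.St.C.s_B07pp_102_s1 hκ hx hx') cutVB_nil) noExt_VB F r1 r2 r1 r2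

theorem FB07_pp_112 {κ x : ℝ} (hκ : κ * h0 = kenE x) (hx : 39 / 40 ≤ x) (hx' : x < 1) :
    TriB (DD x).cur (farD κ (h0 * x) (tbl tKF x) (tbl tL x)) 1 1 2 0 7 1 1 :=
  (sideF hx hx').farB (Or.inl rfl) (Or.inl rfl) fun y y' F r1 r2 =>
    farXB_cert (s1 := true) (s2 := true) rfl hκ (ka0 hκ hx hx') (xa0 hx) hx' (covF01 hx hx') (covF72 hx hx') (x1 hx) (x2 hx')
        Pool.Agent.Strip051.G.IE1.Tab.C.FB07.c_pp_112 (cutVB_cons (Pool.Agent.Strip051.G.IE1.Tab.St.C.s_B07pp_112_s1 hκ hx hx') cutVB_nil) noExt_VB F r1 r2 r1 r2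

theorem FB07_pp_113 {κ x : ℝ} (hκ : κ * h0 = kenE x) (hx : 39 / 40 ≤ x) (hx' : x < 1) :
    TriB (DD x).cur (farD κ (h0 * x) (tbl tKF x) (tbl tL x)) 1 1 3 0 7 1 1 :=
  (sideF hx hx').farB (Or.inl rfl) (Or.inl rfl) fun y y' F r1 r2 =>
    farXB_cert (s1 := true) (s2 := true) rfl hκ (ka0 hκ hx hx') (xa0 hx) hx' (covF01 hx hx') (covF73 hx hx') (x1 hx) (x2 hx')
        Pool.Agent.Strip051.G.IE1.Tab.C.FB07.c_pp_113 (cutVB_cons (Pool.Agent.Strip051.G.IE1.Tab.St.C.s_B07pp_113_s1 hκ hx hx' (cutVB_cons (Pool.Agent.Strip051.G.IE1.Tab.qF_B07pp_113_112 hκ hx hx') cutVB_nil)) (cutVB_cons (Pool.Agent.Strip051.G.IE1.Tab.qF_B07pp_113_112 hκ hx hx') cutVB_nil)) noExt_VB F r1 r2 r1 r2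

theorem FB07_pp_123 {κ x : ℝ} (hκ : κ * h0 = kenE x) (hx : 39 / 40 ≤ x) (hx' : x < 1) :
    TriB (DD x).cur (farD κ (h0 * x) (tbl tKF x) (tbl tL x)) 1 2 3 0 7 1 1 :=
  (sideF hx hx').farB (Or.inl rfl) (Or.inl rfl) fun y y' F r1 r2 =>
    farXB_cert (s1 := true) (s2 := true) rfl hκ (ka0 hκ hx hx') (xa0 hx) hx' (covF01 hx hx') (covF73 hx hx') (x1 hx) (x2 hx')
        Pool.Agent.Strip051.G.IE1.Tab.C.FB07.c_pp_123 (cutVB_cons (Pool.Agent.Strip051.G.IE1.Tab.St.C.s_B07pp_123_s1 hκ hx hx' (cutVB_cons (Pool.Agent.Strip051.G.IE1.Tab.qF_B07pp_123_112 hκ hx hx') cutVB_nil)) (cutVB_cons (Pool.Agent.Strip051.G.IE1.Tab.qF_B07pp_123_112 hκ hx hx') cutVB_nil)) noExt_VB F r1 r2 r1 r2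

theorem FB07_pp_133 {κ x : ℝ} (hκ : κ * h0 = kenE x) (hx : 39 / 40 ≤ x) (hx' : x < 1) :
    TriB (DD x).cur (farD κ (h0 * x) (tbl tKF x) (tbl tL x)) 1 3 3 0 7 1 1 :=
  (sideF hx hx').farB (Or.inl rfl) (Or.inl rfl) fun y y' F r1 r2 =>
    farXB_cert (s1 := true) (s2 := true) rfl hκ (ka0 hκ hx hx') (xa0 hx) hx' (covF01 hx hx') (covF73 hx hx') (x1 hx) (x2 hx')
        Pool.Agent.Strip051.G.IE1.Tab.C.FB07.c_pp_133 (cutVB_cons (Pool.Agent.Strip051.G.IE1.Tab.St.C.s_B07pp_133_s1 hκ hx hx') cutVB_nil) noExt_VB F r1 r2 r1 r2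

theorem FB07_pp_202 {κ x : ℝ} (hκ : κ * h0 = kenE x) (hx : 39 / 40 ≤ x) (hx' : x < 1) :
    TriB (DD x).cur (farD κ (h0 * x) (tbl tKF x) (tbl tL x)) 2 0 2 0 7 1 1 :=
  (sideF hx hx').farB (Or.inl rfl) (Or.inl rfl) fun y y' F r1 r2 =>
    farXB_cert (s1 := true) (s2 := true) rfl hκ (ka0 hκ hx hx') (xa0 hx) hx' (covF02 hx hx') (covF72 hx hx') (x1 hx) (x2 hx')
        Pool.Agent.Strip051.G.IE1.Tab.C.FB07.c_pp_202 (cutVB_cons (Pool.Agent.Strip051.G.IE1.Tab.St.C.s_B07pp_202_s1 hκ hx hx') cutVB_nil) noExt_VB F r1 r2 r1 r2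

theorem FB07_pp_203 {κ x : ℝ} (hκ : κ * h0 = kenE x) (hx : 39 / 40 ≤ x) (hx' : x < 1) :
    TriB (DD x).cur (farD κ (h0 * x) (tbl tKF x) (tbl tL x)) 2 0 3 0 7 1 1 :=
  (sideF hx hx').farB (Or.inl rfl) (Or.inl rfl) fun y y' F r1 r2 =>
    farXB_cert (s1 := true) (s2 := true) rfl hκ (ka0 hκ hx hx') (xa0 hx) hx' (covF02 hx hx') (covF73 hx hx') (x1 hx) (x2 hx')
        Pool.Agent.Strip051.G.IE1.Tab.C.FB07.c_pp_203 (cutVB_cons (Pool.Agent.Strip051.G.IE1.Tab.St.C.s_B07pp_203_s1 hκ hx hx') cutVB_nil) noExt_VB F r1 r2 r1 r2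

theorem FB07_pp_213 {κ x : ℝ} (hκ : κ * h0 = kenE x) (hx : 39 / 40 ≤ x) (hx' : x < 1) :
    TriB (DD x).cur (farD κ (h0 * x) (tbl tKF x) (tbl tL x)) 2 1 3 0 7 1 1 :=
  (sideF hx hx').farB (Or.inl rfl) (Or.inl rfl) fun y y' F r1 r2 =>
    farXB_cert (s1 := true) (s2 := true) rfl hκ (ka0 hκ hx hx') (xa0 hx) hx' (covF02 hx hx') (covF73 hx hx') (x1 hx) (x2 hx')
        Pool.Agent.Strip051.G.IE1.Tab.C.FB07.c_pp_213 (cutVB_cons (Pool.Agent.Strip051.G.IE1.Tab.St.C.s_B07pp_213_s1 hκ hx hx' (cutVB_cons (Pool.Agent.Strip051.G.IE1.Tab.qF_B07pp_213_112 hκ hx hx') cutVB_nil)) (cutVB_cons (Pool.Agent.Strip051.G.IE1.Tab.qF_B07pp_213_112 hκ hx hx') cutVB_nil)) noExt_VB F r1 r2 r1 r2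

theorem FB07_pp_303 {κ x : ℝ} (hκ : κ * h0 = kenE x) (hx : 39 / 40 ≤ x) (hx' : x < 1) :
    TriB (DD x).cur (farD κ (h0 * x) (tbl tKF x) (tbl tL x)) 3 0 3 0 7 1 1 :=
  triVB_j0

theorem FB07_pp_313 {κ x : ℝ} (hκ : κ * h0 = kenE x) (hx : 39 / 40 ≤ x) (hx' : x < 1) :
    TriB (DD x).cur (farD κ (h0 * x) (tbl tKF x) (tbl tL x)) 3 1 3 0 7 1 1 :=
  triVB_j0

theorem FB07_pm_001 {κ x : ℝ} (hκ : κ * h0 = kenE x) (hx : 39 / 40 ≤ x) (hx' : x < 1) :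
    TriB (DD x).cur (farD κ (h0 * x) (tbl tKF x) (tbl tL x)) 0 0 1 0 7 1 (-1) :=
  (sideF hx hx').farB (Or.inl rfl) (Or.inr rfl) fun y y' F r1 r2 =>
    farXB_cert (s1 := true) (s2 := false) rfl hκ (ka0 hκ hx hx') (xa0 hx) hx' (covF00 hx hx') (covF71 hx hx') (x1 hx) (x2 hx')
        Pool.Agent.Strip051.G.IE1.Tab.C.FB07.c_pm_001 (cutVB_cons (Pool.Agent.Strip051.G.IE1.Tab.St.C.s_B07pm_001_s1 hκ hx hx') cutVB_nil) noExt_VB F r1 r2 r1 r2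

theorem FB07_pm_011 {κ x : ℝ} (hκ : κ * h0 = kenE x) (hx : 39 / 40 ≤ x) (hx' : x < 1) :
    TriB (DD x).cur (farD κ (h0 * x) (tbl tKF x) (tbl tL x)) 0 1 1 0 7 1 (-1) :=
  (sideF hx hx').farB (Or.inl rfl) (Or.inr rfl) fun y y' F r1 r2 =>
    farXB_cert (s1 := true) (s2 := false) rfl hκ (ka0 hκ hx hx') (xa0 hx) hx' (covF00 hx hx') (covF71 hx hx') (x1 hx) (x2 hx')
        Pool.Agent.Strip051.G.IE1.Tab.C.FB07.c_pm_011 (cutVB_cons (Pool.Agent.Strip051.G.IE1.Tab.St.C.s_B07pm_011_s1 hκ hx hx') cutVB_nil) noExt_VB F r1 r2 r1 r2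

theorem FB07_pm_012 {κ x : ℝ} (hκ : κ * h0 = kenE x) (hx : 39 / 40 ≤ x) (hx' : x < 1) :
    TriB (DD x).cur (farD κ (h0 * x) (tbl tKF x) (tbl tL x)) 0 1 2 0 7 1 (-1) :=
  (sideF hx hx').farB (Or.inl rfl) (Or.inr rfl) fun y y' F r1 r2 =>
    farXB_cert (s1 := true) (s2 := false) rfl hκ (ka0 hκ hx hx') (xa0 hx) hx' (covF00 hx hx') (covF72 hx hx') (x1 hx) (x2 hx')
        Pool.Agent.Strip051.G.IE1.Tab.C.FB07.c_pm_012 (cutVB_cons (Pool.Agent.Strip051.G.IE1.Tab.St.C.s_B07pm_012_s1 hκ hx hx') cutVB_nil) noExt_VB F r1 r2 r1 r2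

theorem FB07_pm_022 {κ x : ℝ} (hκ : κ * h0 = kenE x) (hx : 39 / 40 ≤ x) (hx' : x < 1) :
    TriB (DD x).cur (farD κ (h0 * x) (tbl tKF x) (tbl tL x)) 0 2 2 0 7 1 (-1) :=
  (sideF hx hx').farB (Or.inl rfl) (Or.inr rfl) fun y y' F r1 r2 =>
    farXB_cert (s1 := true) (s2 := false) rfl hκ (ka0 hκ hx hx') (xa0 hx) hx' (covF00 hx hx') (covF72 hx hx') (x1 hx) (x2 hx')
        Pool.Agent.Strip051.G.IE1.Tab.C.FB07.c_pm_022 (cutVB_cons (Pool.Agent.Strip051.G.IE1.Tab.St.C.s_B07pm_022_s1 hκ hx hx') cutVB_nil) noExt_VB F r1 r2 r1 r2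

theorem FB07_pm_023 {κ x : ℝ} (hκ : κ * h0 = kenE x) (hx : 39 / 40 ≤ x) (hx' : x < 1) :
    TriB (DD x).cur (farD κ (h0 * x) (tbl tKF x) (tbl tL x)) 0 2 3 0 7 1 (-1) :=
  (sideF hx hx').farB (Or.inl rfl) (Or.inr rfl) fun y y' F r1 r2 =>
    farXB_cert (s1 := true) (s2 := false) rfl hκ (ka0 hκ hx hx') (xa0 hx) hx' (covF00 hx hx') (covF73 hx hx') (x1 hx) (x2 hx')
        Pool.Agent.Strip051.G.IE1.Tab.C.FB07.c_pm_023 (cutVB_cons (Pool.Agent.Strip051.G.IE1.Tab.St.C.s_B07pm_023_s1 hκ hx hx') cutVB_nil) noExt_VB F r1 r2 r1 r2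

theorem FB07_pm_033 {κ x : ℝ} (hκ : κ * h0 = kenE x) (hx : 39 / 40 ≤ x) (hx' : x < 1) :
    TriB (DD x).cur (farD κ (h0 * x) (tbl tKF x) (tbl tL x)) 0 3 3 0 7 1 (-1) :=
  (sideF hx hx').farB (Or.inl rfl) (Or.inr rfl) fun y y' F r1 r2 =>
    farXB_cert (s1 := true) (s2 := false) rfl hκ (ka0 hκ hx hx') (xa0 hx) hx' (covF00 hx hx') (covF73 hx hx') (x1 hx) (x2 hx')
        Pool.Agent.Strip051.G.IE1.Tab.C.FB07.c_pm_033 (cutVB_cons (Pool.Agent.Strip051.G.IE1.Tab.St.C.s_B07pm_033_s1 hκ hx hx') cutVB_nil) noExt_VB F r1 r2 r1 r2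

theorem FB07_pm_101 {κ x : ℝ} (hκ : κ * h0 = kenE x) (hx : 39 / 40 ≤ x) (hx' : x < 1) :
    TriB (DD x).cur (farD κ (h0 * x) (tbl tKF x) (tbl tL x)) 1 0 1 0 7 1 (-1) :=
  (sideF hx hx').farB (Or.inl rfl) (Or.inr rfl) fun y y' F r1 r2 =>
    farXB_cert (s1 := true) (s2 := false) rfl hκ (ka0 hκ hx hx') (xa0 hx) hx' (covF01 hx hx') (covF71 hx hx') (x1 hx) (x2 hx')
        Pool.Agent.Strip051.G.IE1.Tab.C.FB07.c_pm_101 (cutVB_cons (Pool.Agent.Strip051.G.IE1.Tab.St.C.s_B07pm_101_s1 hκ hx hx') cutVB_nil) noExt_VB F r1 r2 r1 r2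

theorem FB07_pm_102 {κ x : ℝ} (hκ : κ * h0 = kenE x) (hx : 39 / 40 ≤ x) (hx' : x < 1) :
    TriB (DD x).cur (farD κ (h0 * x) (tbl tKF x) (tbl tL x)) 1 0 2 0 7 1 (-1) :=
  (sideF hx hx').farB (Or.inl rfl) (Or.inr rfl) fun y y' F r1 r2 =>
    farXB_cert (s1 := true) (s2 := false) rfl hκ (ka0 hκ hx hx') (xa0 hx) hx' (covF01 hx hx') (covF72 hx hx') (x1 hx) (x2 hx')
        Pool.Agent.Strip051.G.IE1.Tab.C.FB07.c_pm_102 (cutVB_cons (Pool.Agent.Strip051.G.IE1.Tab.St.C.s_B07pm_102_s1 hκ hx hx') cutVB_nil) noExt_VB F r1 r2 r1 r2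

theorem FB07_pm_112 {κ x : ℝ} (hκ : κ * h0 = kenE x) (hx : 39 / 40 ≤ x) (hx' : x < 1) :
    TriB (DD x).cur (farD κ (h0 * x) (tbl tKF x) (tbl tL x)) 1 1 2 0 7 1 (-1) :=
  (sideF hx hx').farB (Or.inl rfl) (Or.inr rfl) fun y y' F r1 r2 =>
    farXB_cert (s1 := true) (s2 := false) rfl hκ (ka0 hκ hx hx') (xa0 hx) hx' (covF01 hx hx') (covF72 hx hx') (x1 hx) (x2 hx')
        Pool.Agent.Strip051.G.IE1.Tab.C.FB07.c_pm_112 (cutVB_cons (Pool.Agent.Strip051.G.IE1.Tab.St.C.s_B07pm_112_s1 hκ hx hx') cutVB_nil) noExt_VB F r1 r2 r1 r2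

theorem FB07_pm_113 {κ x : ℝ} (hκ : κ * h0 = kenE x) (hx : 39 / 40 ≤ x) (hx' : x < 1) :
    TriB (DD x).cur (farD κ (h0 * x) (tbl tKF x) (tbl tL x)) 1 1 3 0 7 1 (-1) :=
  (sideF hx hx').farB (Or.inl rfl) (Or.inr rfl) fun y y' F r1 r2 =>
    farXB_cert (s1 := true) (s2 := false) rfl hκ (ka0 hκ hx hx') (xa0 hx) hx' (covF01 hx hx') (covF73 hx hx') (x1 hx) (x2 hx')
        Pool.Agent.Strip051.G.IE1.Tab.C.FB07.c_pm_113 (cutVB_cons (Pool.Agent.Strip051.G.IE1.Tab.St.C.s_B07pm_113_s1 hκ hx hx' (cutVB_cons (Pool.Agent.Strip051.G.IE1.Tab.qF_B07pm_113_112 hκ hx hx') cutVB_nil)) (cutVB_cons (Pool.Agent.Strip051.G.IE1.Tab.qF_B07pm_113_112 hκ hx hx') cutVB_nil)) noExt_VB F r1 r2 r1 r2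

theorem FB07_pm_123 {κ x : ℝ} (hκ : κ * h0 = kenE x) (hx : 39 / 40 ≤ x) (hx' : x < 1) :
    TriB (DD x).cur (farD κ (h0 * x) (tbl tKF x) (tbl tL x)) 1 2 3 0 7 1 (-1) :=
  (sideF hx hx').farB (Or.inl rfl) (Or.inr rfl) fun y y' F r1 r2 =>
    farXB_cert (s1 := true) (s2 := false) rfl hκ (ka0 hκ hx hx') (xa0 hx) hx' (covF01 hx hx') (covF73 hx hx') (x1 hx) (x2 hx')
        Pool.Agent.Strip051.G.IE1.Tab.C.FB07.c_pm_123 (cutVB_cons (Pool.Agent.Strip051.G.IE1.Tab.St.C.s_B07pm_123_s1 hκ hx hx' (cutVB_cons (Pool.Agent.Strip051.G.IE1.Tab.qF_B07pm_123_112 hκ hx hx') cutVB_nil)) (cutVB_cons (Pool.Agent.Strip051.G.IE1.Tab.qF_B07pm_123_112 hκ hx hx') cutVB_nil)) noExt_VB F r1 r2 r1 r2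

theorem FB07_pm_133 {κ x : ℝ} (hκ : κ * h0 = kenE x) (hx : 39 / 40 ≤ x) (hx' : x < 1) :
    TriB (DD x).cur (farD κ (h0 * x) (tbl tKF x) (tbl tL x)) 1 3 3 0 7 1 (-1) :=
  (sideF hx hx').farB (Or.inl rfl) (Or.inr rfl) fun y y' F r1 r2 =>
    farXB_cert (s1 := true) (s2 := false) rfl hκ (ka0 hκ hx hx') (xa0 hx) hx' (covF01 hx hx') (covF73 hx hx') (x1 hx) (x2 hx')
        Pool.Agent.Strip051.G.IE1.Tab.C.FB07.c_pm_133 (cutVB_cons (Pool.Agent.Strip051.G.IE1.Tab.St.C.s_B07pm_133_s1 hκ hx hx') cutVB_nil) noExt_VB F r1 r2 r1 r2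

theorem FB07_pm_202 {κ x : ℝ} (hκ : κ * h0 = kenE x) (hx : 39 / 40 ≤ x) (hx' : x < 1) :
    TriB (DD x).cur (farD κ (h0 * x) (tbl tKF x) (tbl tL x)) 2 0 2 0 7 1 (-1) :=
  (sideF hx hx').farB (Or.inl rfl) (Or.inr rfl) fun y y' F r1 r2 =>
    farXB_cert (s1 := true) (s2 := false) rfl hκ (ka0 hκ hx hx') (xa0 hx) hx' (covF02 hx hx') (covF72 hx hx') (x1 hx) (x2 hx')
        Pool.Agent.Strip051.G.IE1.Tab.C.FB07.c_pm_202 (cutVB_cons (Pool.Agent.Strip051.G.IE1.Tab.St.C.s_B07pm_202_s1 hκ hx hx') cutVB_nil) noExt_VB F r1 r2 r1 r2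

theorem FB07_pm_203 {κ x : ℝ} (hκ : κ * h0 = kenE x) (hx : 39 / 40 ≤ x) (hx' : x < 1) :
    TriB (DD x).cur (farD κ (h0 * x) (tbl tKF x) (tbl tL x)) 2 0 3 0 7 1 (-1) :=
  (sideF hx hx').farB (Or.inl rfl) (Or.inr rfl) fun y y' F r1 r2 =>
    farXB_cert (s1 := true) (s2 := false) rfl hκ (ka0 hκ hx hx') (xa0 hx) hx' (covF02 hx hx') (covF73 hx hx') (x1 hx) (x2 hx')
        Pool.Agent.Strip051.G.IE1.Tab.C.FB07.c_pm_203 (cutVB_cons (Pool.Agent.Strip051.G.IE1.Tab.St.C.s_B07pm_203_s1 hκ hx hx') cutVB_nil) noExt_VB F r1 r2 r1 r2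

theorem FB07_pm_213 {κ x : ℝ} (hκ : κ * h0 = kenE x) (hx : 39 / 40 ≤ x) (hx' : x < 1) :
    TriB (DD x).cur (farD κ (h0 * x) (tbl tKF x) (tbl tL x)) 2 1 3 0 7 1 (-1) :=
  (sideF hx hx').farB (Or.inl rfl) (Or.inr rfl) fun y y' F r1 r2 =>
    farXB_cert (s1 := true) (s2 := false) rfl hκ (ka0 hκ hx hx') (xa0 hx) hx' (covF02 hx hx') (covF73 hx hx') (x1 hx) (x2 hx')
        Pool.Agent.Strip051.G.IE1.Tab.C.FB07.c_pm_213 (cutVB_cons (Pool.Agent.Strip051.G.IE1.Tab.St.C.s_B07pm_213_s1 hκ hx hx' (cutVB_cons (Pool.Agent.Strip051.G.IE1.Tab.qF_B07pm_213_112 hκ hx hx') cutVB_nil)) (cutVB_cons (Pool.Agent.Strip051.G.IE1.Tab.qF_B07pm_213_112 hκ hx hx') cutVB_nil)) noExt_VB F r1 r2 r1 r2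

theorem FB07_pm_303 {κ x : ℝ} (hκ : κ * h0 = kenE x) (hx : 39 / 40 ≤ x) (hx' : x < 1) :
    TriB (DD x).cur (farD κ (h0 * x) (tbl tKF x) (tbl tL x)) 3 0 3 0 7 1 (-1) :=
  triVB_j0

theorem FB07_pm_313 {κ x : ℝ} (hκ : κ * h0 = kenE x) (hx : 39 / 40 ≤ x) (hx' : x < 1) :
    TriB (DD x).cur (farD κ (h0 * x) (tbl tKF x) (tbl tL x)) 3 1 3 0 7 1 (-1) :=
  triVB_j0

theorem FB07_mm_001 {κ x : ℝ} (hκ : κ * h0 = kenE x) (hx : 39 / 40 ≤ x) (hx' : x < 1) :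
    TriB (DD x).cur (farD κ (h0 * x) (tbl tKF x) (tbl tL x)) 0 0 1 0 7 (-1) (-1) :=
  (sideF hx hx').farB (Or.inr rfl) (Or.inr rfl) fun y y' F r1 r2 =>
    farXB_cert (s1 := false) (s2 := false) rfl hκ (ka0 hκ hx hx') (xa0 hx) hx' (covF00 hx hx') (covF71 hx hx') (x1 hx) (x2 hx')
        Pool.Agent.Strip051.G.IE1.Tab.C.FB07.c_mm_001 (cutVB_cons (Pool.Agent.Strip051.G.IE1.Tab.St.C.s_B07mm_001_s1 hκ hx hx') cutVB_nil) noExt_VB F r1 r2 r1 r2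

theorem FB07_mm_011 {κ x : ℝ} (hκ : κ * h0 = kenE x) (hx : 39 / 40 ≤ x) (hx' : x < 1) :
    TriB (DD x).cur (farD κ (h0 * x) (tbl tKF x) (tbl tL x)) 0 1 1 0 7 (-1) (-1) :=
  (sideF hx hx').farB (Or.inr rfl) (Or.inr rfl) fun y y' F r1 r2 =>
    farXB_cert (s1 := false) (s2 := false) rfl hκ (ka0 hκ hx hx') (xa0 hx) hx' (covF00 hx hx') (covF71 hx hx') (x1 hx) (x2 hx')
        Pool.Agent.Strip051.G.IE1.Tab.C.FB07.c_mm_011 (cutVB_cons (Pool.Agent.Strip051.G.IE1.Tab.St.C.s_B07mm_011_s1 hκ hx hx') cutVB_nil) noExt_VB F r1 r2 r1 r2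

theorem FB07_mm_012 {κ x : ℝ} (hκ : κ * h0 = kenE x) (hx : 39 / 40 ≤ x) (hx' : x < 1) :
    TriB (DD x).cur (farD κ (h0 * x) (tbl tKF x) (tbl tL x)) 0 1 2 0 7 (-1) (-1) :=
  (sideF hx hx').farB (Or.inr rfl) (Or.inr rfl) fun y y' F r1 r2 =>
    farXB_cert (s1 := false) (s2 := false) rfl hκ (ka0 hκ hx hx') (xa0 hx) hx' (covF00 hx hx') (covF72 hx hx') (x1 hx) (x2 hx')
        Pool.Agent.Strip051.G.IE1.Tab.C.FB07.c_mm_012 (cutVB_cons (Pool.Agent.Strip051.G.IE1.Tab.St.C.s_B07mm_012_s1 hκ hx hx') cutVB_nil) noExt_VB F r1 r2 r1 r2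

theorem FB07_mm_022 {κ x : ℝ} (hκ : κ * h0 = kenE x) (hx : 39 / 40 ≤ x) (hx' : x < 1) :
    TriB (DD x).cur (farD κ (h0 * x) (tbl tKF x) (tbl tL x)) 0 2 2 0 7 (-1) (-1) :=
  (sideF hx hx').farB (Or.inr rfl) (Or.inr rfl) fun y y' F r1 r2 =>
    farXB_cert (s1 := false) (s2 := false) rfl hκ (ka0 hκ hx hx') (xa0 hx) hx' (covF00 hx hx') (covF72 hx hx') (x1 hx) (x2 hx')
        Pool.Agent.Strip051.G.IE1.Tab.C.FB07.c_mm_022 (cutVB_cons (Pool.Agent.Strip051.G.IE1.Tab.St.C.s_B07mm_022_s1 hκ hx hx') cutVB_nil) noExt_VB F r1 r2 r1 r2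

theorem FB07_mm_023 {κ x : ℝ} (hκ : κ * h0 = kenE x) (hx : 39 / 40 ≤ x) (hx' : x < 1) :
    TriB (DD x).cur (farD κ (h0 * x) (tbl tKF x) (tbl tL x)) 0 2 3 0 7 (-1) (-1) :=
  (sideF hx hx').farB (Or.inr rfl) (Or.inr rfl) fun y y' F r1 r2 =>
    farXB_cert (s1 := false) (s2 := false) rfl hκ (ka0 hκ hx hx') (xa0 hx) hx' (covF00 hx hx') (covF73 hx hx') (x1 hx) (x2 hx')
        Pool.Agent.Strip051.G.IE1.Tab.C.FB07.c_mm_023 (cutVB_cons (Pool.Agent.Strip051.G.IE1.Tab.St.C.s_B07mm_023_s1 hκ hx hx') cutVB_nil) noExt_VB F r1 r2 r1 r2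

theorem FB07_mm_033 {κ x : ℝ} (hκ : κ * h0 = kenE x) (hx : 39 / 40 ≤ x) (hx' : x < 1) :
    TriB (DD x).cur (farD κ (h0 * x) (tbl tKF x) (tbl tL x)) 0 3 3 0 7 (-1) (-1) :=
  (sideF hx hx').farB (Or.inr rfl) (Or.inr rfl) fun y y' F r1 r2 =>
    farXB_cert (s1 := false) (s2 := false) rfl hκ (ka0 hκ hx hx') (xa0 hx) hx' (covF00 hx hx') (covF73 hx hx') (x1 hx) (x2 hx')
        Pool.Agent.Strip051.G.IE1.Tab.C.FB07.c_mm_033 (cutVB_cons (Pool.Agent.Strip051.G.IE1.Tab.St.C.s_B07mm_033_s1 hκ hx hx') cutVB_nil) noExt_VB F r1 r2 r1 r2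

theorem FB07_mm_101 {κ x : ℝ} (hκ : κ * h0 = kenE x) (hx : 39 / 40 ≤ x) (hx' : x < 1) :
    TriB (DD x).cur (farD κ (h0 * x) (tbl tKF x) (tbl tL x)) 1 0 1 0 7 (-1) (-1) :=
  (sideF hx hx').farB (Or.inr rfl) (Or.inr rfl) fun y y' F r1 r2 =>
    farXB_cert (s1 := false) (s2 := false) rfl hκ (ka0 hκ hx hx') (xa0 hx) hx' (covF01 hx hx') (covF71 hx hx') (x1 hx) (x2 hx')
        Pool.Agent.Strip051.G.IE1.Tab.C.FB07.c_mm_101 (cutVB_cons (Pool.Agent.Strip051.G.IE1.Tab.St.C.s_B07mm_101_s1 hκ hx hx' (cutVB_cons (Pool.Agent.Strip051.G.IE1.Tab.qF_B07mm_101_101 hκ hx hx') cutVB_nil)) (cutVB_cons (Pool.Agent.Strip051.G.IE1.Tab.qF_B07mm_101_101 hκ hx hx') cutVB_nil)) noExt_VB F r1 r2 r1 r2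

theorem FB07_mm_102 {κ x : ℝ} (hκ : κ * h0 = kenE x) (hx : 39 / 40 ≤ x) (hx' : x < 1) :
    TriB (DD x).cur (farD κ (h0 * x) (tbl tKF x) (tbl tL x)) 1 0 2 0 7 (-1) (-1) :=
  (sideF hx hx').farB (Or.inr rfl) (Or.inr rfl) fun y y' F r1 r2 =>
    farXB_cert (s1 := false) (s2 := false) rfl hκ (ka0 hκ hx hx') (xa0 hx) hx' (covF01 hx hx') (covF72 hx hx') (x1 hx) (x2 hx')
        Pool.Agent.Strip051.G.IE1.Tab.C.FB07.c_mm_102 (cutVB_cons (Pool.Agent.Strip051.G.IE1.Tab.St.C.s_B07mm_102_s1 hκ hx hx' (cutVB_cons (Pool.Agent.Strip051.G.IE1.Tab.qF_B07mm_102_101 hκ hx hx') cutVB_nil)) (cutVB_cons (Pool.Agent.Strip051.G.IE1.Tab.qF_B07mm_102_101 hκ hx hx') cutVB_nil)) noExt_VB F r1 r2 r1 r2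

theorem FB07_mm_112 {κ x : ℝ} (hκ : κ * h0 = kenE x) (hx : 39 / 40 ≤ x) (hx' : x < 1) :
    TriB (DD x).cur (farD κ (h0 * x) (tbl tKF x) (tbl tL x)) 1 1 2 0 7 (-1) (-1) :=
  (sideF hx hx').farB (Or.inr rfl) (Or.inr rfl) fun y y' F r1 r2 =>
    farXB_cert (s1 := false) (s2 := false) rfl hκ (ka0 hκ hx hx') (xa0 hx) hx' (covF01 hx hx') (covF72 hx hx') (x1 hx) (x2 hx')
        Pool.Agent.Strip051.G.IE1.Tab.C.FB07.c_mm_112 (cutVB_cons (Pool.Agent.Strip051.G.IE1.Tab.St.C.s_B07mm_112_s1 hκ hx hx') cutVB_nil) noExt_VB F r1 r2 r1 r2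

theorem FB07_mm_113 {κ x : ℝ} (hκ : κ * h0 = kenE x) (hx : 39 / 40 ≤ x) (hx' : x < 1) :
    TriB (DD x).cur (farD κ (h0 * x) (tbl tKF x) (tbl tL x)) 1 1 3 0 7 (-1) (-1) :=
  (sideF hx hx').farB (Or.inr rfl) (Or.inr rfl) fun y y' F r1 r2 =>
    farXB_cert (s1 := false) (s2 := false) rfl hκ (ka0 hκ hx hx') (xa0 hx) hx' (covF01 hx hx') (covF73 hx hx') (x1 hx) (x2 hx')
        Pool.Agent.Strip051.G.IE1.Tab.C.FB07.c_mm_113 (cutVB_cons (Pool.Agent.Strip051.G.IE1.Tab.St.C.s_B07mm_113_s1 hκ hx hx') cutVB_nil) noExt_VB F r1 r2 r1 r2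

theorem FB07_mm_123 {κ x : ℝ} (hκ : κ * h0 = kenE x) (hx : 39 / 40 ≤ x) (hx' : x < 1) :
    TriB (DD x).cur (farD κ (h0 * x) (tbl tKF x) (tbl tL x)) 1 2 3 0 7 (-1) (-1) :=
  (sideF hx hx').farB (Or.inr rfl) (Or.inr rfl) fun y y' F r1 r2 =>
    farXB_cert (s1 := false) (s2 := false) rfl hκ (ka0 hκ hx hx') (xa0 hx) hx' (covF01 hx hx') (covF73 hx hx') (x1 hx) (x2 hx')
        Pool.Agent.Strip051.G.IE1.Tab.C.FB07.c_mm_123 (cutVB_cons (Pool.Agent.Strip051.G.IE1.Tab.St.C.s_B07mm_123_s1 hκ hx hx') cutVB_nil) noExt_VB F r1 r2 r1 r2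

theorem FB07_mm_133 {κ x : ℝ} (hκ : κ * h0 = kenE x) (hx : 39 / 40 ≤ x) (hx' : x < 1) :
    TriB (DD x).cur (farD κ (h0 * x) (tbl tKF x) (tbl tL x)) 1 3 3 0 7 (-1) (-1) :=
  (sideF hx hx').farB (Or.inr rfl) (Or.inr rfl) fun y y' F r1 r2 =>
    farXB_cert (s1 := false) (s2 := false) rfl hκ (ka0 hκ hx hx') (xa0 hx) hx' (covF01 hx hx') (covF73 hx hx') (x1 hx) (x2 hx')
        Pool.Agent.Strip051.G.IE1.Tab.C.FB07.c_mm_133 (cutVB_cons (Pool.Agent.Strip051.G.IE1.Tab.St.C.s_B07mm_133_s1 hκ hx hx') cutVB_nil) noExt_VB F r1 r2 r1 r2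

theorem FB07_mm_202 {κ x : ℝ} (hκ : κ * h0 = kenE x) (hx : 39 / 40 ≤ x) (hx' : x < 1) :
    TriB (DD x).cur (farD κ (h0 * x) (tbl tKF x) (tbl tL x)) 2 0 2 0 7 (-1) (-1) :=
  (sideF hx hx').farB (Or.inr rfl) (Or.inr rfl) fun y y' F r1 r2 =>
    farXB_cert (s1 := false) (s2 := false) rfl hκ (ka0 hκ hx hx') (xa0 hx) hx' (covF02 hx hx') (covF72 hx hx') (x1 hx) (x2 hx')
        Pool.Agent.Strip051.G.IE1.Tab.C.FB07.c_mm_202 (cutVB_cons (Pool.Agent.Strip051.G.IE1.Tab.St.C.s_B07mm_202_s1 hκ hx hx' (cutVB_cons (Pool.Agent.Strip051.G.IE1.Tab.qF_B07mm_202_101 hκ hx hx') cutVB_nil)) (cutVB_cons (Pool.Agent.Strip051.G.IE1.Tab.qF_B07mm_202_101 hκ hx hx') cutVB_nil)) noExt_VB F r1 r2 r1 r2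

theorem FB07_mm_203 {κ x : ℝ} (hκ : κ * h0 = kenE x) (hx : 39 / 40 ≤ x) (hx' : x < 1) :
    TriB (DD x).cur (farD κ (h0 * x) (tbl tKF x) (tbl tL x)) 2 0 3 0 7 (-1) (-1) :=
  (sideF hx hx').farB (Or.inr rfl) (Or.inr rfl) fun y y' F r1 r2 =>
    farXB_cert (s1 := false) (s2 := false) rfl hκ (ka0 hκ hx hx') (xa0 hx) hx' (covF02 hx hx') (covF73 hx hx') (x1 hx) (x2 hx')
        Pool.Agent.Strip051.G.IE1.Tab.C.FB07.c_mm_203 (cutVB_cons (Pool.Agent.Strip051.G.IE1.Tab.St.C.s_B07mm_203_s1 hκ hx hx') cutVB_nil) noExt_VB F r1 r2 r1 r2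

theorem FB07_mm_213 {κ x : ℝ} (hκ : κ * h0 = kenE x) (hx : 39 / 40 ≤ x) (hx' : x < 1) :
    TriB (DD x).cur (farD κ (h0 * x) (tbl tKF x) (tbl tL x)) 2 1 3 0 7 (-1) (-1) :=
  (sideF hx hx').farB (Or.inr rfl) (Or.inr rfl) fun y y' F r1 r2 =>
    farXB_cert (s1 := false) (s2 := false) rfl hκ (ka0 hκ hx hx') (xa0 hx) hx' (covF02 hx hx') (covF73 hx hx') (x1 hx) (x2 hx')
        Pool.Agent.Strip051.G.IE1.Tab.C.FB07.c_mm_213 (cutVB_cons (Pool.Agent.Strip051.G.IE1.Tab.St.C.s_B07mm_213_s1 hκ hx hx') cutVB_nil) noExt_VB F r1 r2 r1 r2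

theorem FB07_mm_303 {κ x : ℝ} (hκ : κ * h0 = kenE x) (hx : 39 / 40 ≤ x) (hx' : x < 1) :
    TriB (DD x).cur (farD κ (h0 * x) (tbl tKF x) (tbl tL x)) 3 0 3 0 7 (-1) (-1) :=
  triVB_j0

theorem FB07_mm_313 {κ x : ℝ} (hκ : κ * h0 = kenE x) (hx : 39 / 40 ≤ x) (hx' : x < 1) :
    TriB (DD x).cur (farD κ (h0 * x) (tbl tKF x) (tbl tL x)) 3 1 3 0 7 (-1) (-1) :=
  triVB_j0

theorem FB07 {κ x : ℝ} (hκ : κ * h0 = kenE x) (hx : 39 / 40 ≤ x) (hx' : x < 1) : AllTB (DD x).cur (farD κ (h0 * x) (tbl tKF x) (tbl tL x)) 0 7 where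
  pp := all17 (Q := fun a b c => TriB (DD x).cur (farD κ (h0 * x) (tbl tKF x) (tbl tL x)) a b c 0 7 1 1)
    (FB07_pp_001 hκ hx hx') (FB07_pp_011 hκ hx hx') (FB07_pp_012 hκ hx hx') (FB07_pp_022 hκ hx hx') (FB07_pp_023 hκ hx hx') (FB07_pp_033 hκ hx hx') (FB07_pp_101 hκ hx hx') (FB07_pp_102 hκ hx hx') (FB07_pp_112 hκ hx hx') (FB07_pp_113 hκ hx hx') (FB07_pp_123 hκ hx hx') (FB07_pp_133 hκ hx hx') (FB07_pp_202 hκ hx hx') (FB07_pp_203 hκ hx hx') (FB07_pp_213 hκ hx hx') (FB07_pp_303 hκ hx hx') (FB07_pp_313 hκ hx hx')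
  pm := all17 (Q := fun a b c => TriB (DD x).cur (farD κ (h0 * x) (tbl tKF x) (tbl tL x)) a b c 0 7 1 (-1))
    (FB07_pm_001 hκ hx hx') (FB07_pm_011 hκ hx hx') (FB07_pm_012 hκ hx hx') (FB07_pm_022 hκ hx hx') (FB07_pm_023 hκ hx hx') (FB07_pm_033 hκ hx hx') (FB07_pm_101 hκ hx hx') (FB07_pm_102 hκ hx hx') (FB07_pm_112 hκ hx hx') (FB07_pm_113 hκ hx hx') (FB07_pm_123 hκ hx hx') (FB07_pm_133 hκ hx hx') (FB07_pm_202 hκ hx hx') (FB07_pm_203 hκ hx hx') (FB07_pm_213 hκ hx hx') (FB07_pm_303 hκ hx hx') (FB07_pm_313 hκ hx hx')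
  mm := all17 (Q := fun a b c => TriB (DD x).cur (farD κ (h0 * x) (tbl tKF x) (tbl tL x)) a b c 0 7 (-1) (-1))
    (FB07_mm_001 hκ hx hx') (FB07_mm_011 hκ hx hx') (FB07_mm_012 hκ hx hx') (FB07_mm_022 hκ hx hx') (FB07_mm_023 hκ hx hx') (FB07_mm_033 hκ hx hx') (FB07_mm_101 hκ hx hx') (FB07_mm_102 hκ hx hx') (FB07_mm_112 hκ hx hx') (FB07_mm_113 hκ hx hx') (FB07_mm_123 hκ hx hx') (FB07_mm_133 hκ hx hx') (FB07_mm_202 hκ hx hx') (FB07_mm_203 hκ hx hx') (FB07_mm_213 hκ hx hx') (FB07_mm_303 hκ hx hx') (FB07_mm_313 hκ hx hx')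

theorem FB10_pp_001 {κ x : ℝ} (hκ : κ * h0 = kenE x) (hx : 39 / 40 ≤ x) (hx' : x < 1) :
    TriB (DD x).cur (farD κ (h0 * x) (tbl tKF x) (tbl tL x)) 0 0 1 1 0 1 1 :=
  (sideF hx hx').farB (Or.inl rfl) (Or.inl rfl) fun y y' F r1 r2 =>
    farXB_cert (s1 := true) (s2 := true) rfl hκ (ka0 hκ hx hx') (xa0 hx) hx' (covF10 hx hx') (covF01 hx hx') (x1 hx) (x2 hx')
        Pool.Agent.Strip051.G.IE1.Tab.C.FB10.c_pp_001 noCut_VB noExt_VB F r1 r2 r1 r2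

theorem FB10_pp_011 {κ x : ℝ} (hκ : κ * h0 = kenE x) (hx : 39 / 40 ≤ x) (hx' : x < 1) :
    TriB (DD x).cur (farD κ (h0 * x) (tbl tKF x) (tbl tL x)) 0 1 1 1 0 1 1 :=
  (sideF hx hx').farB (Or.inl rfl) (Or.inl rfl) fun y y' F r1 r2 =>
    farXB_cert (s1 := true) (s2 := true) rfl hκ (ka0 hκ hx hx') (xa0 hx) hx' (covF10 hx hx') (covF01 hx hx') (x1 hx) (x2 hx')
        Pool.Agent.Strip051.G.IE1.Tab.C.FB10.c_pp_011 noCut_VB noExt_VB F r1 r2 r1 r2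

theorem FB10_pp_012 {κ x : ℝ} (hκ : κ * h0 = kenE x) (hx : 39 / 40 ≤ x) (hx' : x < 1) :
    TriB (DD x).cur (farD κ (h0 * x) (tbl tKF x) (tbl tL x)) 0 1 2 1 0 1 1 :=
  (sideF hx hx').farB (Or.inl rfl) (Or.inl rfl) fun y y' F r1 r2 =>
    farXB_cert (s1 := true) (s2 := true) rfl hκ (ka0 hκ hx hx') (xa0 hx) hx' (covF10 hx hx') (covF02 hx hx') (x1 hx) (x2 hx')
        Pool.Agent.Strip051.G.IE1.Tab.C.FB10.c_pp_012 noCut_VB noExt_VB F r1 r2 r1 r2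

theorem FB10_pp_022 {κ x : ℝ} (hκ : κ * h0 = kenE x) (hx : 39 / 40 ≤ x) (hx' : x < 1) :
    TriB (DD x).cur (farD κ (h0 * x) (tbl tKF x) (tbl tL x)) 0 2 2 1 0 1 1 :=
  (sideF hx hx').farB (Or.inl rfl) (Or.inl rfl) fun y y' F r1 r2 =>
    farXB_cert (s1 := true) (s2 := true) rfl hκ (ka0 hκ hx hx') (xa0 hx) hx' (covF10 hx hx') (covF02 hx hx') (x1 hx) (x2 hx')
        Pool.Agent.Strip051.G.IE1.Tab.C.FB10.c_pp_022 noCut_VB noExt_VB F r1 r2 r1 r2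

theorem FB10_pp_023 {κ x : ℝ} (hκ : κ * h0 = kenE x) (hx : 39 / 40 ≤ x) (hx' : x < 1) :
    TriB (DD x).cur (farD κ (h0 * x) (tbl tKF x) (tbl tL x)) 0 2 3 1 0 1 1 :=
  triVB_k0

theorem FB10_pp_033 {κ x : ℝ} (hκ : κ * h0 = kenE x) (hx : 39 / 40 ≤ x) (hx' : x < 1) :
    TriB (DD x).cur (farD κ (h0 * x) (tbl tKF x) (tbl tL x)) 0 3 3 1 0 1 1 :=
  triVB_k0

theorem FB10_pp_101 {κ x : ℝ} (hκ : κ * h0 = kenE x) (hx : 39 / 40 ≤ x) (hx' : x < 1) :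
    TriB (DD x).cur (farD κ (h0 * x) (tbl tKF x) (tbl tL x)) 1 0 1 1 0 1 1 :=
  (sideF hx hx').farB (Or.inl rfl) (Or.inl rfl) fun y y' F r1 r2 =>
    farXB_cert (s1 := true) (s2 := true) rfl hκ (ka0 hκ hx hx') (xa0 hx) hx' (covF11 hx hx') (covF01 hx hx') (x1 hx) (x2 hx')
        Pool.Agent.Strip051.G.IE1.Tab.C.FB10.c_pp_101 noCut_VB noExt_VB F r1 r2 r1 r2

theorem FB10_pp_102 {κ x : ℝ} (hκ : κ * h0 = kenE x) (hx : 39 / 40 ≤ x) (hx' : x < 1) :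
    TriB (DD x).cur (farD κ (h0 * x) (tbl tKF x) (tbl tL x)) 1 0 2 1 0 1 1 :=
  (sideF hx hx').farB (Or.inl rfl) (Or.inl rfl) fun y y' F r1 r2 =>
    farXB_cert (s1 := true) (s2 := true) rfl hκ (ka0 hκ hx hx') (xa0 hx) hx' (covF11 hx hx') (covF02 hx hx') (x1 hx) (x2 hx')
        Pool.Agent.Strip051.G.IE1.Tab.C.FB10.c_pp_102 noCut_VB noExt_VB F r1 r2 r1 r2

theorem FB10_pp_112 {κ x : ℝ} (hκ : κ * h0 = kenE x) (hx : 39 / 40 ≤ x) (hx' : x < 1) :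
    TriB (DD x).cur (farD κ (h0 * x) (tbl tKF x) (tbl tL x)) 1 1 2 1 0 1 1 :=
  (sideF hx hx').farB (Or.inl rfl) (Or.inl rfl) fun y y' F r1 r2 =>
    farXB_cert (s1 := true) (s2 := true) rfl hκ (ka0 hκ hx hx') (xa0 hx) hx' (covF11 hx hx') (covF02 hx hx') (x1 hx) (x2 hx')
        Pool.Agent.Strip051.G.IE1.Tab.C.FB10.c_pp_112 noCut_VB noExt_VB F r1 r2 r1 r2

theorem FB10_pp_113 {κ x : ℝ} (hκ : κ * h0 = kenE x) (hx : 39 / 40 ≤ x) (hx' : x < 1) :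
    TriB (DD x).cur (farD κ (h0 * x) (tbl tKF x) (tbl tL x)) 1 1 3 1 0 1 1 :=
  triVB_k0

theorem FB10_pp_123 {κ x : ℝ} (hκ : κ * h0 = kenE x) (hx : 39 / 40 ≤ x) (hx' : x < 1) :
    TriB (DD x).cur (farD κ (h0 * x) (tbl tKF x) (tbl tL x)) 1 2 3 1 0 1 1 :=
  triVB_k0

theorem FB10_pp_133 {κ x : ℝ} (hκ : κ * h0 = kenE x) (hx : 39 / 40 ≤ x) (hx' : x < 1) :
    TriB (DD x).cur (farD κ (h0 * x) (tbl tKF x) (tbl tL x)) 1 3 3 1 0 1 1 :=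
  triVB_k0

theorem FB10_pp_202 {κ x : ℝ} (hκ : κ * h0 = kenE x) (hx : 39 / 40 ≤ x) (hx' : x < 1) :
    TriB (DD x).cur (farD κ (h0 * x) (tbl tKF x) (tbl tL x)) 2 0 2 1 0 1 1 :=
  (sideF hx hx').farB (Or.inl rfl) (Or.inl rfl) fun y y' F r1 r2 =>
    (lt_or_ge (h0 * y) 1).elim
      (fun h => farXB_cert (s1 := true) (s2 := true) rfl hκ (ka0 hκ hx hx') (xa0 hx) hx' (covF12a hx hx') (covF02 hx hx') (x1 hx) (x2 hx')
        Pool.Agent.Strip051.G.IE1.Tab.C.FB10.c_pp_202_a noCut_VB noExt_VB F r1 r2 ⟨r1, h⟩ r2)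
      (fun h => farXB_cert (s1 := true) (s2 := true) rfl hκ (ka0 hκ hx hx') (xa0 hx) hx' (covF12b hx hx') (covF02 hx hx') (x1 hx) (x2 hx')
        Pool.Agent.Strip051.G.IE1.Tab.C.FB10.c_pp_202_b noCut_VB noExt_VB F r1 r2 ⟨r1, h⟩ r2)

theorem FB10_pp_203 {κ x : ℝ} (hκ : κ * h0 = kenE x) (hx : 39 / 40 ≤ x) (hx' : x < 1) :
    TriB (DD x).cur (farD κ (h0 * x) (tbl tKF x) (tbl tL x)) 2 0 3 1 0 1 1 :=
  triVB_k0

theorem FB10_pp_213 {κ x : ℝ} (hκ : κ * h0 = kenE x) (hx : 39 / 40 ≤ x) (hx' : x < 1) :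
    TriB (DD x).cur (farD κ (h0 * x) (tbl tKF x) (tbl tL x)) 2 1 3 1 0 1 1 :=
  triVB_k0

theorem FB10_pp_303 {κ x : ℝ} (hκ : κ * h0 = kenE x) (hx : 39 / 40 ≤ x) (hx' : x < 1) :
    TriB (DD x).cur (farD κ (h0 * x) (tbl tKF x) (tbl tL x)) 3 0 3 1 0 1 1 :=
  triVB_k0

theorem FB10_pp_313 {κ x : ℝ} (hκ : κ * h0 = kenE x) (hx : 39 / 40 ≤ x) (hx' : x < 1) :
    TriB (DD x).cur (farD κ (h0 * x) (tbl tKF x) (tbl tL x)) 3 1 3 1 0 1 1 :=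
  triVB_k0

theorem FB10_pm_001 {κ x : ℝ} (hκ : κ * h0 = kenE x) (hx : 39 / 40 ≤ x) (hx' : x < 1) :
    TriB (DD x).cur (farD κ (h0 * x) (tbl tKF x) (tbl tL x)) 0 0 1 1 0 1 (-1) :=
  (sideF hx hx').farB (Or.inl rfl) (Or.inr rfl) fun y y' F r1 r2 =>
    farXB_cert (s1 := true) (s2 := false) rfl hκ (ka0 hκ hx hx') (xa0 hx) hx' (covF10 hx hx') (covF01 hx hx') (x1 hx) (x2 hx')
        Pool.Agent.Strip051.G.IE1.Tab.C.FB10.c_pm_001 noCut_VB noExt_VB F r1 r2 r1 r2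

theorem FB10_pm_011 {κ x : ℝ} (hκ : κ * h0 = kenE x) (hx : 39 / 40 ≤ x) (hx' : x < 1) :
    TriB (DD x).cur (farD κ (h0 * x) (tbl tKF x) (tbl tL x)) 0 1 1 1 0 1 (-1) :=
  (sideF hx hx').farB (Or.inl rfl) (Or.inr rfl) fun y y' F r1 r2 =>
    farXB_cert (s1 := true) (s2 := false) rfl hκ (ka0 hκ hx hx') (xa0 hx) hx' (covF10 hx hx') (covF01 hx hx') (x1 hx) (x2 hx')
        Pool.Agent.Strip051.G.IE1.Tab.C.FB10.c_pm_011 noCut_VB noExt_VB F r1 r2 r1 r2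

theorem FB10_pm_012 {κ x : ℝ} (hκ : κ * h0 = kenE x) (hx : 39 / 40 ≤ x) (hx' : x < 1) :
    TriB (DD x).cur (farD κ (h0 * x) (tbl tKF x) (tbl tL x)) 0 1 2 1 0 1 (-1) :=
  (sideF hx hx').farB (Or.inl rfl) (Or.inr rfl) fun y y' F r1 r2 =>
    farXB_cert (s1 := true) (s2 := false) rfl hκ (ka0 hκ hx hx') (xa0 hx) hx' (covF10 hx hx') (covF02 hx hx') (x1 hx) (x2 hx')
        Pool.Agent.Strip051.G.IE1.Tab.C.FB10.c_pm_012 noCut_VB noExt_VB F r1 r2 r1 r2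

theorem FB10_pm_022 {κ x : ℝ} (hκ : κ * h0 = kenE x) (hx : 39 / 40 ≤ x) (hx' : x < 1) :
    TriB (DD x).cur (farD κ (h0 * x) (tbl tKF x) (tbl tL x)) 0 2 2 1 0 1 (-1) :=
  (sideF hx hx').farB (Or.inl rfl) (Or.inr rfl) fun y y' F r1 r2 =>
    farXB_cert (s1 := true) (s2 := false) rfl hκ (ka0 hκ hx hx') (xa0 hx) hx' (covF10 hx hx') (covF02 hx hx') (x1 hx) (x2 hx')
        Pool.Agent.Strip051.G.IE1.Tab.C.FB10.c_pm_022 noCut_VB noExt_VB F r1 r2 r1 r2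

theorem FB10_pm_023 {κ x : ℝ} (hκ : κ * h0 = kenE x) (hx : 39 / 40 ≤ x) (hx' : x < 1) :
    TriB (DD x).cur (farD κ (h0 * x) (tbl tKF x) (tbl tL x)) 0 2 3 1 0 1 (-1) :=
  triVB_k0

theorem FB10_pm_033 {κ x : ℝ} (hκ : κ * h0 = kenE x) (hx : 39 / 40 ≤ x) (hx' : x < 1) :
    TriB (DD x).cur (farD κ (h0 * x) (tbl tKF x) (tbl tL x)) 0 3 3 1 0 1 (-1) :=
  triVB_k0

theorem FB10_pm_101 {κ x : ℝ} (hκ : κ * h0 = kenE x) (hx : 39 / 40 ≤ x) (hx' : x < 1) :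
    TriB (DD x).cur (farD κ (h0 * x) (tbl tKF x) (tbl tL x)) 1 0 1 1 0 1 (-1) :=
  (sideF hx hx').farB (Or.inl rfl) (Or.inr rfl) fun y y' F r1 r2 =>
    farXB_cert (s1 := true) (s2 := false) rfl hκ (ka0 hκ hx hx') (xa0 hx) hx' (covF11 hx hx') (covF01 hx hx') (x1 hx) (x2 hx')
        Pool.Agent.Strip051.G.IE1.Tab.C.FB10.c_pm_101 noCut_VB noExt_VB F r1 r2 r1 r2

theorem FB10_pm_102 {κ x : ℝ} (hκ : κ * h0 = kenE x) (hx : 39 / 40 ≤ x) (hx' : x < 1) :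
    TriB (DD x).cur (farD κ (h0 * x) (tbl tKF x) (tbl tL x)) 1 0 2 1 0 1 (-1) :=
  (sideF hx hx').farB (Or.inl rfl) (Or.inr rfl) fun y y' F r1 r2 =>
    farXB_cert (s1 := true) (s2 := false) rfl hκ (ka0 hκ hx hx') (xa0 hx) hx' (covF11 hx hx') (covF02 hx hx') (x1 hx) (x2 hx')
        Pool.Agent.Strip051.G.IE1.Tab.C.FB10.c_pm_102 noCut_VB noExt_VB F r1 r2 r1 r2

theorem FB10_pm_112 {κ x : ℝ} (hκ : κ * h0 = kenE x) (hx : 39 / 40 ≤ x) (hx' : x < 1) :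
    TriB (DD x).cur (farD κ (h0 * x) (tbl tKF x) (tbl tL x)) 1 1 2 1 0 1 (-1) :=
  (sideF hx hx').farB (Or.inl rfl) (Or.inr rfl) fun y y' F r1 r2 =>
    farXB_cert (s1 := true) (s2 := false) rfl hκ (ka0 hκ hx hx') (xa0 hx) hx' (covF11 hx hx') (covF02 hx hx') (x1 hx) (x2 hx')
        Pool.Agent.Strip051.G.IE1.Tab.C.FB10.c_pm_112 noCut_VB noExt_VB F r1 r2 r1 r2

theorem FB10_pm_113 {κ x : ℝ} (hκ : κ * h0 = kenE x) (hx : 39 / 40 ≤ x) (hx' : x < 1) :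
    TriB (DD x).cur (farD κ (h0 * x) (tbl tKF x) (tbl tL x)) 1 1 3 1 0 1 (-1) :=
  triVB_k0

theorem FB10_pm_123 {κ x : ℝ} (hκ : κ * h0 = kenE x) (hx : 39 / 40 ≤ x) (hx' : x < 1) :
    TriB (DD x).cur (farD κ (h0 * x) (tbl tKF x) (tbl tL x)) 1 2 3 1 0 1 (-1) :=
  triVB_k0

theorem FB10_pm_133 {κ x : ℝ} (hκ : κ * h0 = kenE x) (hx : 39 / 40 ≤ x) (hx' : x < 1) :
    TriB (DD x).cur (farD κ (h0 * x) (tbl tKF x) (tbl tL x)) 1 3 3 1 0 1 (-1) :=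
  triVB_k0

theorem FB10_pm_202 {κ x : ℝ} (hκ : κ * h0 = kenE x) (hx : 39 / 40 ≤ x) (hx' : x < 1) :
    TriB (DD x).cur (farD κ (h0 * x) (tbl tKF x) (tbl tL x)) 2 0 2 1 0 1 (-1) :=
  (sideF hx hx').farB (Or.inl rfl) (Or.inr rfl) fun y y' F r1 r2 =>
    (lt_or_ge (h0 * y) 1).elim
      (fun h => farXB_cert (s1 := true) (s2 := false) rfl hκ (ka0 hκ hx hx') (xa0 hx) hx' (covF12a hx hx') (covF02 hx hx') (x1 hx) (x2 hx')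
        Pool.Agent.Strip051.G.IE1.Tab.C.FB10.c_pm_202_a noCut_VB noExt_VB F r1 r2 ⟨r1, h⟩ r2)
      (fun h => farXB_cert (s1 := true) (s2 := false) rfl hκ (ka0 hκ hx hx') (xa0 hx) hx' (covF12b hx hx') (covF02 hx hx') (x1 hx) (x2 hx')
        Pool.Agent.Strip051.G.IE1.Tab.C.FB10.c_pm_202_b noCut_VB noExt_VB F r1 r2 ⟨r1, h⟩ r2)

theorem FB10_pm_203 {κ x : ℝ} (hκ : κ * h0 = kenE x) (hx : 39 / 40 ≤ x) (hx' : x < 1) :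
    TriB (DD x).cur (farD κ (h0 * x) (tbl tKF x) (tbl tL x)) 2 0 3 1 0 1 (-1) :=
  triVB_k0

theorem FB10_pm_213 {κ x : ℝ} (hκ : κ * h0 = kenE x) (hx : 39 / 40 ≤ x) (hx' : x < 1) :
    TriB (DD x).cur (farD κ (h0 * x) (tbl tKF x) (tbl tL x)) 2 1 3 1 0 1 (-1) :=
  triVB_k0

theorem FB10_pm_303 {κ x : ℝ} (hκ : κ * h0 = kenE x) (hx : 39 / 40 ≤ x) (hx' : x < 1) :
    TriB (DD x).cur (farD κ (h0 * x) (tbl tKF x) (tbl tL x)) 3 0 3 1 0 1 (-1) :=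
  triVB_k0

theorem FB10_pm_313 {κ x : ℝ} (hκ : κ * h0 = kenE x) (hx : 39 / 40 ≤ x) (hx' : x < 1) :
    TriB (DD x).cur (farD κ (h0 * x) (tbl tKF x) (tbl tL x)) 3 1 3 1 0 1 (-1) :=
  triVB_k0

theorem FB10_mm_001 {κ x : ℝ} (hκ : κ * h0 = kenE x) (hx : 39 / 40 ≤ x) (hx' : x < 1) :
    TriB (DD x).cur (farD κ (h0 * x) (tbl tKF x) (tbl tL x)) 0 0 1 1 0 (-1) (-1) :=
  (sideF hx hx').farB (Or.inr rfl) (Or.inr rfl) fun y y' F r1 r2 =>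
    farXB_cert (s1 := false) (s2 := false) rfl hκ (ka0 hκ hx hx') (xa0 hx) hx' (covF10 hx hx') (covF01 hx hx') (x1 hx) (x2 hx')
        Pool.Agent.Strip051.G.IE1.Tab.C.FB10.c_mm_001 noCut_VB noExt_VB F r1 r2 r1 r2

theorem FB10_mm_011 {κ x : ℝ} (hκ : κ * h0 = kenE x) (hx : 39 / 40 ≤ x) (hx' : x < 1) :
    TriB (DD x).cur (farD κ (h0 * x) (tbl tKF x) (tbl tL x)) 0 1 1 1 0 (-1) (-1) :=
  (sideF hx hx').farB (Or.inr rfl) (Or.inr rfl) fun y y' F r1 r2 =>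
    farXB_cert (s1 := false) (s2 := false) rfl hκ (ka0 hκ hx hx') (xa0 hx) hx' (covF10 hx hx') (covF01 hx hx') (x1 hx) (x2 hx')
        Pool.Agent.Strip051.G.IE1.Tab.C.FB10.c_mm_011 noCut_VB noExt_VB F r1 r2 r1 r2

theorem FB10_mm_012 {κ x : ℝ} (hκ : κ * h0 = kenE x) (hx : 39 / 40 ≤ x) (hx' : x < 1) :
    TriB (DD x).cur (farD κ (h0 * x) (tbl tKF x) (tbl tL x)) 0 1 2 1 0 (-1) (-1) :=
  (sideF hx hx').farB (Or.inr rfl) (Or.inr rfl) fun y y' F r1 r2 =>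
    farXB_cert (s1 := false) (s2 := false) rfl hκ (ka0 hκ hx hx') (xa0 hx) hx' (covF10 hx hx') (covF02 hx hx') (x1 hx) (x2 hx')
        Pool.Agent.Strip051.G.IE1.Tab.C.FB10.c_mm_012 noCut_VB noExt_VB F r1 r2 r1 r2

theorem FB10_mm_022 {κ x : ℝ} (hκ : κ * h0 = kenE x) (hx : 39 / 40 ≤ x) (hx' : x < 1) :
    TriB (DD x).cur (farD κ (h0 * x) (tbl tKF x) (tbl tL x)) 0 2 2 1 0 (-1) (-1) :=
  (sideF hx hx').farB (Or.inr rfl) (Or.inr rfl) fun y y' F r1 r2 =>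
    farXB_cert (s1 := false) (s2 := false) rfl hκ (ka0 hκ hx hx') (xa0 hx) hx' (covF10 hx hx') (covF02 hx hx') (x1 hx) (x2 hx')
        Pool.Agent.Strip051.G.IE1.Tab.C.FB10.c_mm_022 noCut_VB noExt_VB F r1 r2 r1 r2

theorem FB10_mm_023 {κ x : ℝ} (hκ : κ * h0 = kenE x) (hx : 39 / 40 ≤ x) (hx' : x < 1) :
    TriB (DD x).cur (farD κ (h0 * x) (tbl tKF x) (tbl tL x)) 0 2 3 1 0 (-1) (-1) :=
  triVB_k0

theorem FB10_mm_033 {κ x : ℝ} (hκ : κ * h0 = kenE x) (hx : 39 / 40 ≤ x) (hx' : x < 1) :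
    TriB (DD x).cur (farD κ (h0 * x) (tbl tKF x) (tbl tL x)) 0 3 3 1 0 (-1) (-1) :=
  triVB_k0

theorem FB10_mm_101 {κ x : ℝ} (hκ : κ * h0 = kenE x) (hx : 39 / 40 ≤ x) (hx' : x < 1) :
    TriB (DD x).cur (farD κ (h0 * x) (tbl tKF x) (tbl tL x)) 1 0 1 1 0 (-1) (-1) :=
  (sideF hx hx').farB (Or.inr rfl) (Or.inr rfl) fun y y' F r1 r2 =>
    farXB_cert (s1 := false) (s2 := false) rfl hκ (ka0 hκ hx hx') (xa0 hx) hx' (covF11 hx hx') (covF01 hx hx') (x1 hx) (x2 hx')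
        Pool.Agent.Strip051.G.IE1.Tab.C.FB10.c_mm_101 noCut_VB noExt_VB F r1 r2 r1 r2

theorem FB10_mm_102 {κ x : ℝ} (hκ : κ * h0 = kenE x) (hx : 39 / 40 ≤ x) (hx' : x < 1) :
    TriB (DD x).cur (farD κ (h0 * x) (tbl tKF x) (tbl tL x)) 1 0 2 1 0 (-1) (-1) :=
  (sideF hx hx').farB (Or.inr rfl) (Or.inr rfl) fun y y' F r1 r2 =>
    farXB_cert (s1 := false) (s2 := false) rfl hκ (ka0 hκ hx hx') (xa0 hx) hx' (covF11 hx hx') (covF02 hx hx') (x1 hx) (x2 hx')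
        Pool.Agent.Strip051.G.IE1.Tab.C.FB10.c_mm_102 noCut_VB noExt_VB F r1 r2 r1 r2

theorem FB10_mm_112 {κ x : ℝ} (hκ : κ * h0 = kenE x) (hx : 39 / 40 ≤ x) (hx' : x < 1) :
    TriB (DD x).cur (farD κ (h0 * x) (tbl tKF x) (tbl tL x)) 1 1 2 1 0 (-1) (-1) :=
  (sideF hx hx').farB (Or.inr rfl) (Or.inr rfl) fun y y' F r1 r2 =>
    farXB_cert (s1 := false) (s2 := false) rfl hκ (ka0 hκ hx hx') (xa0 hx) hx' (covF11 hx hx') (covF02 hx hx') (x1 hx) (x2 hx')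
        Pool.Agent.Strip051.G.IE1.Tab.C.FB10.c_mm_112 noCut_VB noExt_VB F r1 r2 r1 r2

theorem FB10_mm_113 {κ x : ℝ} (hκ : κ * h0 = kenE x) (hx : 39 / 40 ≤ x) (hx' : x < 1) :
    TriB (DD x).cur (farD κ (h0 * x) (tbl tKF x) (tbl tL x)) 1 1 3 1 0 (-1) (-1) :=
  triVB_k0

theorem FB10_mm_123 {κ x : ℝ} (hκ : κ * h0 = kenE x) (hx : 39 / 40 ≤ x) (hx' : x < 1) :
    TriB (DD x).cur (farD κ (h0 * x) (tbl tKF x) (tbl tL x)) 1 2 3 1 0 (-1) (-1) :=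
  triVB_k0

theorem FB10_mm_133 {κ x : ℝ} (hκ : κ * h0 = kenE x) (hx : 39 / 40 ≤ x) (hx' : x < 1) :
    TriB (DD x).cur (farD κ (h0 * x) (tbl tKF x) (tbl tL x)) 1 3 3 1 0 (-1) (-1) :=
  triVB_k0

theorem FB10_mm_202 {κ x : ℝ} (hκ : κ * h0 = kenE x) (hx : 39 / 40 ≤ x) (hx' : x < 1) :
    TriB (DD x).cur (farD κ (h0 * x) (tbl tKF x) (tbl tL x)) 2 0 2 1 0 (-1) (-1) :=
  (sideF hx hx').farB (Or.inr rfl) (Or.inr rfl) fun y y' F r1 r2 =>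
    (lt_or_ge (h0 * y) 1).elim
      (fun h => farXB_cert (s1 := false) (s2 := false) rfl hκ (ka0 hκ hx hx') (xa0 hx) hx' (covF12a hx hx') (covF02 hx hx') (x1 hx) (x2 hx')
        Pool.Agent.Strip051.G.IE1.Tab.C.FB10.c_mm_202_a noCut_VB noExt_VB F r1 r2 ⟨r1, h⟩ r2)
      (fun h => farXB_cert (s1 := false) (s2 := false) rfl hκ (ka0 hκ hx hx') (xa0 hx) hx' (covF12b hx hx') (covF02 hx hx') (x1 hx) (x2 hx')
        Pool.Agent.Strip051.G.IE1.Tab.C.FB10.c_mm_202_b noCut_VB noExt_VB F r1 r2 ⟨r1, h⟩ r2)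

theorem FB10_mm_203 {κ x : ℝ} (hκ : κ * h0 = kenE x) (hx : 39 / 40 ≤ x) (hx' : x < 1) :
    TriB (DD x).cur (farD κ (h0 * x) (tbl tKF x) (tbl tL x)) 2 0 3 1 0 (-1) (-1) :=
  triVB_k0

theorem FB10_mm_213 {κ x : ℝ} (hκ : κ * h0 = kenE x) (hx : 39 / 40 ≤ x) (hx' : x < 1) :
    TriB (DD x).cur (farD κ (h0 * x) (tbl tKF x) (tbl tL x)) 2 1 3 1 0 (-1) (-1) :=
  triVB_k0

theorem FB10_mm_303 {κ x : ℝ} (hκ : κ * h0 = kenE x) (hx : 39 / 40 ≤ x) (hx' : x < 1) :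
    TriB (DD x).cur (farD κ (h0 * x) (tbl tKF x) (tbl tL x)) 3 0 3 1 0 (-1) (-1) :=
  triVB_k0

theorem FB10_mm_313 {κ x : ℝ} (hκ : κ * h0 = kenE x) (hx : 39 / 40 ≤ x) (hx' : x < 1) :
    TriB (DD x).cur (farD κ (h0 * x) (tbl tKF x) (tbl tL x)) 3 1 3 1 0 (-1) (-1) :=
  triVB_k0

theorem FB10 {κ x : ℝ} (hκ : κ * h0 = kenE x) (hx : 39 / 40 ≤ x) (hx' : x < 1) : AllTB (DD x).cur (farD κ (h0 * x) (tbl tKF x) (tbl tL x)) 1 0 where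
  pp := all17 (Q := fun a b c => TriB (DD x).cur (farD κ (h0 * x) (tbl tKF x) (tbl tL x)) a b c 1 0 1 1)
    (FB10_pp_001 hκ hx hx') (FB10_pp_011 hκ hx hx') (FB10_pp_012 hκ hx hx') (FB10_pp_022 hκ hx hx') (FB10_pp_023 hκ hx hx') (FB10_pp_033 hκ hx hx') (FB10_pp_101 hκ hx hx') (FB10_pp_102 hκ hx hx') (FB10_pp_112 hκ hx hx') (FB10_pp_113 hκ hx hx') (FB10_pp_123 hκ hx hx') (FB10_pp_133 hκ hx hx') (FB10_pp_202 hκ hx hx') (FB10_pp_203 hκ hx hx') (FB10_pp_213 hκ hx hx') (FB10_pp_303 hκ hx hx') (FB10_pp_313 hκ hx hx')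
  pm := all17 (Q := fun a b c => TriB (DD x).cur (farD κ (h0 * x) (tbl tKF x) (tbl tL x)) a b c 1 0 1 (-1))
    (FB10_pm_001 hκ hx hx') (FB10_pm_011 hκ hx hx') (FB10_pm_012 hκ hx hx') (FB10_pm_022 hκ hx hx') (FB10_pm_023 hκ hx hx') (FB10_pm_033 hκ hx hx') (FB10_pm_101 hκ hx hx') (FB10_pm_102 hκ hx hx') (FB10_pm_112 hκ hx hx') (FB10_pm_113 hκ hx hx') (FB10_pm_123 hκ hx hx') (FB10_pm_133 hκ hx hx') (FB10_pm_202 hκ hx hx') (FB10_pm_203 hκ hx hx') (FB10_pm_213 hκ hx hx') (FB10_pm_303 hκ hx hx') (FB10_pm_313 hκ hx hx')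
  mm := all17 (Q := fun a b c => TriB (DD x).cur (farD κ (h0 * x) (tbl tKF x) (tbl tL x)) a b c 1 0 (-1) (-1))
    (FB10_mm_001 hκ hx hx') (FB10_mm_011 hκ hx hx') (FB10_mm_012 hκ hx hx') (FB10_mm_022 hκ hx hx') (FB10_mm_023 hκ hx hx') (FB10_mm_033 hκ hx hx') (FB10_mm_101 hκ hx hx') (FB10_mm_102 hκ hx hx') (FB10_mm_112 hκ hx hx') (FB10_mm_113 hκ hx hx') (FB10_mm_123 hκ hx hx') (FB10_mm_133 hκ hx hx') (FB10_mm_202 hκ hx hx') (FB10_mm_203 hκ hx hx') (FB10_mm_213 hκ hx hx') (FB10_mm_303 hκ hx hx') (FB10_mm_313 hκ hx hx')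

theorem FB11_pp_001 {κ x : ℝ} (hκ : κ * h0 = kenE x) (hx : 39 / 40 ≤ x) (hx' : x < 1) :
    TriB (DD x).cur (farD κ (h0 * x) (tbl tKF x) (tbl tL x)) 0 0 1 1 1 1 1 :=
  (sideF hx hx').farB (Or.inl rfl) (Or.inl rfl) fun y y' F r1 r2 =>
    farXB_cert (s1 := true) (s2 := true) rfl hκ (ka0 hκ hx hx') (xa0 hx) hx' (covF10 hx hx') (covF11 hx hx') (x1 hx) (x2 hx')
        Pool.Agent.Strip051.G.IE1.Tab.C.FB11.c_pp_001 noCut_VB noExt_VB F r1 r2 r1 r2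

theorem FB11_pp_011 {κ x : ℝ} (hκ : κ * h0 = kenE x) (hx : 39 / 40 ≤ x) (hx' : x < 1) :
    TriB (DD x).cur (farD κ (h0 * x) (tbl tKF x) (tbl tL x)) 0 1 1 1 1 1 1 :=
  (sideF hx hx').farB (Or.inl rfl) (Or.inl rfl) fun y y' F r1 r2 =>
    farXB_cert (s1 := true) (s2 := true) rfl hκ (ka0 hκ hx hx') (xa0 hx) hx' (covF10 hx hx') (covF11 hx hx') (x1 hx) (x2 hx')
        Pool.Agent.Strip051.G.IE1.Tab.C.FB11.c_pp_011 noCut_VB noExt_VB F r1 r2 r1 r2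

theorem FB11_pp_012 {κ x : ℝ} (hκ : κ * h0 = kenE x) (hx : 39 / 40 ≤ x) (hx' : x < 1) :
    TriB (DD x).cur (farD κ (h0 * x) (tbl tKF x) (tbl tL x)) 0 1 2 1 1 1 1 :=
  (sideF hx hx').farB (Or.inl rfl) (Or.inl rfl) fun y y' F r1 r2 =>
    (lt_or_ge (h0 * (y + y')) 1).elim
      (fun g => farXB_cert (s1 := true) (s2 := true) rfl hκ (ka0 hκ hx hx') (xa0 hx) hx' (covF10 hx hx') (covF12a hx hx') (x1 hx) (x2 hx')
        Pool.Agent.Strip051.G.IE1.Tab.C.FB11.c_pp_012_a noCut_VB noExt_VB F r1 r2 r1 ⟨r2, g⟩)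
      (fun g => farXB_cert (s1 := true) (s2 := true) rfl hκ (ka0 hκ hx hx') (xa0 hx) hx' (covF10 hx hx') (covF12b hx hx') (x1 hx) (x2 hx')
        Pool.Agent.Strip051.G.IE1.Tab.C.FB11.c_pp_012_b noCut_VB noExt_VB F r1 r2 r1 ⟨r2, g⟩)

theorem FB11_pp_022 {κ x : ℝ} (hκ : κ * h0 = kenE x) (hx : 39 / 40 ≤ x) (hx' : x < 1) :
    TriB (DD x).cur (farD κ (h0 * x) (tbl tKF x) (tbl tL x)) 0 2 2 1 1 1 1 :=
  (sideF hx hx').farB (Or.inl rfl) (Or.inl rfl) fun y y' F r1 r2 =>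
    (lt_or_ge (h0 * (y + y')) 1).elim
      (fun g => farXB_cert (s1 := true) (s2 := true) rfl hκ (ka0 hκ hx hx') (xa0 hx) hx' (covF10 hx hx') (covF12a hx hx') (x1 hx) (x2 hx')
        Pool.Agent.Strip051.G.IE1.Tab.C.FB11.c_pp_022_a noCut_VB noExt_VB F r1 r2 r1 ⟨r2, g⟩)
      (fun g => farXB_cert (s1 := true) (s2 := true) rfl hκ (ka0 hκ hx hx') (xa0 hx) hx' (covF10 hx hx') (covF12b hx hx') (x1 hx) (x2 hx')
        Pool.Agent.Strip051.G.IE1.Tab.C.FB11.c_pp_022_b noCut_VB noExt_VB F r1 r2 r1 ⟨r2, g⟩)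

theorem FB11_pp_023 {κ x : ℝ} (hκ : κ * h0 = kenE x) (hx : 39 / 40 ≤ x) (hx' : x < 1) :
    TriB (DD x).cur (farD κ (h0 * x) (tbl tKF x) (tbl tL x)) 0 2 3 1 1 1 1 :=
  (sideF hx hx').farB (Or.inl rfl) (Or.inl rfl) fun y y' F r1 r2 =>
    farXB_cert (s1 := true) (s2 := true) rfl hκ (ka0 hκ hx hx') (xa0 hx) hx' (covF10 hx hx') (covF13 hx hx') (x1 hx) (x2 hx')
        Pool.Agent.Strip051.G.IE1.Tab.C.FB11.c_pp_023 noCut_VB noExt_VB F r1 r2 r1 r2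

theorem FB11_pp_033 {κ x : ℝ} (hκ : κ * h0 = kenE x) (hx : 39 / 40 ≤ x) (hx' : x < 1) :
    TriB (DD x).cur (farD κ (h0 * x) (tbl tKF x) (tbl tL x)) 0 3 3 1 1 1 1 :=
  (sideF hx hx').farB (Or.inl rfl) (Or.inl rfl) fun y y' F r1 r2 =>
    farXB_cert (s1 := true) (s2 := true) rfl hκ (ka0 hκ hx hx') (xa0 hx) hx' (covF10 hx hx') (covF13 hx hx') (x1 hx) (x2 hx')
        Pool.Agent.Strip051.G.IE1.Tab.C.FB11.c_pp_033 noCut_VB noExt_VB F r1 r2 r1 r2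

theorem FB11_pp_101 {κ x : ℝ} (hκ : κ * h0 = kenE x) (hx : 39 / 40 ≤ x) (hx' : x < 1) :
    TriB (DD x).cur (farD κ (h0 * x) (tbl tKF x) (tbl tL x)) 1 0 1 1 1 1 1 :=
  (sideF hx hx').farB (Or.inl rfl) (Or.inl rfl) fun y y' F r1 r2 =>
    farXB_cert (s1 := true) (s2 := true) rfl hκ (ka0 hκ hx hx') (xa0 hx) hx' (covF11 hx hx') (covF11 hx hx') (x1 hx) (x2 hx')
        Pool.Agent.Strip051.G.IE1.Tab.C.FB11.c_pp_101 noCut_VB noExt_VB F r1 r2 r1 r2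

theorem FB11_pp_102 {κ x : ℝ} (hκ : κ * h0 = kenE x) (hx : 39 / 40 ≤ x) (hx' : x < 1) :
    TriB (DD x).cur (farD κ (h0 * x) (tbl tKF x) (tbl tL x)) 1 0 2 1 1 1 1 :=
  (sideF hx hx').farB (Or.inl rfl) (Or.inl rfl) fun y y' F r1 r2 =>
    (lt_or_ge (h0 * (y + y')) 1).elim
      (fun g => farXB_cert (s1 := true) (s2 := true) rfl hκ (ka0 hκ hx hx') (xa0 hx) hx' (covF11 hx hx') (covF12a hx hx') (x1 hx) (x2 hx')
        Pool.Agent.Strip051.G.IE1.Tab.C.FB11.c_pp_102_a noCut_VB noExt_VB F r1 r2 r1 ⟨r2, g⟩)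
      (fun g => farXB_cert (s1 := true) (s2 := true) rfl hκ (ka0 hκ hx hx') (xa0 hx) hx' (covF11 hx hx') (covF12b hx hx') (x1 hx) (x2 hx')
        Pool.Agent.Strip051.G.IE1.Tab.C.FB11.c_pp_102_b noCut_VB noExt_VB F r1 r2 r1 ⟨r2, g⟩)

theorem FB11_pp_112 {κ x : ℝ} (hκ : κ * h0 = kenE x) (hx : 39 / 40 ≤ x) (hx' : x < 1) :
    TriB (DD x).cur (farD κ (h0 * x) (tbl tKF x) (tbl tL x)) 1 1 2 1 1 1 1 :=
  (sideF hx hx').farB (Or.inl rfl) (Or.inl rfl) fun y y' F r1 r2 =>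
    (lt_or_ge (h0 * (y + y')) 1).elim
      (fun g => farXB_cert (s1 := true) (s2 := true) rfl hκ (ka0 hκ hx hx') (xa0 hx) hx' (covF11 hx hx') (covF12a hx hx') (x1 hx) (x2 hx')
        Pool.Agent.Strip051.G.IE1.Tab.C.FB11.c_pp_112_a noCut_VB noExt_VB F r1 r2 r1 ⟨r2, g⟩)
      (fun g => farXB_cert (s1 := true) (s2 := true) rfl hκ (ka0 hκ hx hx') (xa0 hx) hx' (covF11 hx hx') (covF12b hx hx') (x1 hx) (x2 hx')
        Pool.Agent.Strip051.G.IE1.Tab.C.FB11.c_pp_112_b noCut_VB noExt_VB F r1 r2 r1 ⟨r2, g⟩)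

theorem FB11_pp_113 {κ x : ℝ} (hκ : κ * h0 = kenE x) (hx : 39 / 40 ≤ x) (hx' : x < 1) :
    TriB (DD x).cur (farD κ (h0 * x) (tbl tKF x) (tbl tL x)) 1 1 3 1 1 1 1 :=
  (sideF hx hx').farB (Or.inl rfl) (Or.inl rfl) fun y y' F r1 r2 =>
    farXB_cert (s1 := true) (s2 := true) rfl hκ (ka0 hκ hx hx') (xa0 hx) hx' (covF11 hx hx') (covF13 hx hx') (x1 hx) (x2 hx')
        Pool.Agent.Strip051.G.IE1.Tab.C.FB11.c_pp_113 noCut_VB noExt_VB F r1 r2 r1 r2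

theorem FB11_pp_123 {κ x : ℝ} (hκ : κ * h0 = kenE x) (hx : 39 / 40 ≤ x) (hx' : x < 1) :
    TriB (DD x).cur (farD κ (h0 * x) (tbl tKF x) (tbl tL x)) 1 2 3 1 1 1 1 :=
  (sideF hx hx').farB (Or.inl rfl) (Or.inl rfl) fun y y' F r1 r2 =>
    farXB_cert (s1 := true) (s2 := true) rfl hκ (ka0 hκ hx hx') (xa0 hx) hx' (covF11 hx hx') (covF13 hx hx') (x1 hx) (x2 hx')
        Pool.Agent.Strip051.G.IE1.Tab.C.FB11.c_pp_123 noCut_VB noExt_VB F r1 r2 r1 r2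

theorem FB11_pp_133 {κ x : ℝ} (hκ : κ * h0 = kenE x) (hx : 39 / 40 ≤ x) (hx' : x < 1) :
    TriB (DD x).cur (farD κ (h0 * x) (tbl tKF x) (tbl tL x)) 1 3 3 1 1 1 1 :=
  (sideF hx hx').farB (Or.inl rfl) (Or.inl rfl) fun y y' F r1 r2 =>
    farXB_cert (s1 := true) (s2 := true) rfl hκ (ka0 hκ hx hx') (xa0 hx) hx' (covF11 hx hx') (covF13 hx hx') (x1 hx) (x2 hx')
        Pool.Agent.Strip051.G.IE1.Tab.C.FB11.c_pp_133 noCut_VB noExt_VB F r1 r2 r1 r2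

theorem FB11_pp_202 {κ x : ℝ} (hκ : κ * h0 = kenE x) (hx : 39 / 40 ≤ x) (hx' : x < 1) :
    TriB (DD x).cur (farD κ (h0 * x) (tbl tKF x) (tbl tL x)) 2 0 2 1 1 1 1 :=
  (sideF hx hx').farB (Or.inl rfl) (Or.inl rfl) fun y y' F r1 r2 =>
    (lt_or_ge (h0 * y) 1).elim
      (fun h => (lt_or_ge (h0 * (y + y')) 1).elim
        (fun g => farXB_cert (s1 := true) (s2 := true) rfl hκ (ka0 hκ hx hx') (xa0 hx) hx' (covF12a hx hx') (covF12a hx hx') (x1 hx) (x2 hx')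
        Pool.Agent.Strip051.G.IE1.Tab.C.FB11.c_pp_202_aa noCut_VB noExt_VB F r1 r2 ⟨r1, h⟩ ⟨r2, g⟩)
        (fun g => farXB_cert (s1 := true) (s2 := true) rfl hκ (ka0 hκ hx hx') (xa0 hx) hx' (covF12a hx hx') (covF12b hx hx') (x1 hx) (x2 hx')
        Pool.Agent.Strip051.G.IE1.Tab.C.FB11.c_pp_202_ab noCut_VB noExt_VB F r1 r2 ⟨r1, h⟩ ⟨r2, g⟩))
      (fun h => (lt_or_ge (h0 * (y + y')) 1).elim
        (fun g => farXB_cert (s1 := true) (s2 := true) rfl hκ (ka0 hκ hx hx') (xa0 hx) hx' (covF12b hx hx') (covF12a hx hx') (x1 hx) (x2 hx')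
        Pool.Agent.Strip051.G.IE1.Tab.C.FB11.c_pp_202_ba noCut_VB noExt_VB F r1 r2 ⟨r1, h⟩ ⟨r2, g⟩)
        (fun g => farXB_cert (s1 := true) (s2 := true) rfl hκ (ka0 hκ hx hx') (xa0 hx) hx' (covF12b hx hx') (covF12b hx hx') (x1 hx) (x2 hx')
        Pool.Agent.Strip051.G.IE1.Tab.C.FB11.c_pp_202_bb noCut_VB noExt_VB F r1 r2 ⟨r1, h⟩ ⟨r2, g⟩))

theorem FB11_pp_203 {κ x : ℝ} (hκ : κ * h0 = kenE x) (hx : 39 / 40 ≤ x) (hx' : x < 1) :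
    TriB (DD x).cur (farD κ (h0 * x) (tbl tKF x) (tbl tL x)) 2 0 3 1 1 1 1 :=
  (sideF hx hx').farB (Or.inl rfl) (Or.inl rfl) fun y y' F r1 r2 =>
    (lt_or_ge (h0 * y) 1).elim
      (fun h => farXB_cert (s1 := true) (s2 := true) rfl hκ (ka0 hκ hx hx') (xa0 hx) hx' (covF12a hx hx') (covF13 hx hx') (x1 hx) (x2 hx')
        Pool.Agent.Strip051.G.IE1.Tab.C.FB11.c_pp_203_a noCut_VB noExt_VB F r1 r2 ⟨r1, h⟩ r2)
      (fun h => farXB_cert (s1 := true) (s2 := true) rfl hκ (ka0 hκ hx hx') (xa0 hx) hx' (covF12b hx hx') (covF13 hx hx') (x1 hx) (x2 hx')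
        Pool.Agent.Strip051.G.IE1.Tab.C.FB11.c_pp_203_b noCut_VB noExt_VB F r1 r2 ⟨r1, h⟩ r2)

theorem FB11_pp_213 {κ x : ℝ} (hκ : κ * h0 = kenE x) (hx : 39 / 40 ≤ x) (hx' : x < 1) :
    TriB (DD x).cur (farD κ (h0 * x) (tbl tKF x) (tbl tL x)) 2 1 3 1 1 1 1 :=
  (sideF hx hx').farB (Or.inl rfl) (Or.inl rfl) fun y y' F r1 r2 =>
    (lt_or_ge (h0 * y) 1).elim
      (fun h => farXB_cert (s1 := true) (s2 := true) rfl hκ (ka0 hκ hx hx') (xa0 hx) hx' (covF12a hx hx') (covF13 hx hx') (x1 hx) (x2 hx')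
        Pool.Agent.Strip051.G.IE1.Tab.C.FB11.c_pp_213_a noCut_VB noExt_VB F r1 r2 ⟨r1, h⟩ r2)
      (fun h => farXB_cert (s1 := true) (s2 := true) rfl hκ (ka0 hκ hx hx') (xa0 hx) hx' (covF12b hx hx') (covF13 hx hx') (x1 hx) (x2 hx')
        Pool.Agent.Strip051.G.IE1.Tab.C.FB11.c_pp_213_b noCut_VB noExt_VB F r1 r2 ⟨r1, h⟩ r2)

theorem FB11_pp_303 {κ x : ℝ} (hκ : κ * h0 = kenE x) (hx : 39 / 40 ≤ x) (hx' : x < 1) :
    TriB (DD x).cur (farD κ (h0 * x) (tbl tKF x) (tbl tL x)) 3 0 3 1 1 1 1 :=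
  (sideF hx hx').farB (Or.inl rfl) (Or.inl rfl) fun y y' F r1 r2 =>
    farXB_cert (s1 := true) (s2 := true) rfl hκ (ka0 hκ hx hx') (xa0 hx) hx' (covF13 hx hx') (covF13 hx hx') (x1 hx) (x2 hx')
        Pool.Agent.Strip051.G.IE1.Tab.C.FB11.c_pp_303 noCut_VB noExt_VB F r1 r2 r1 r2

theorem FB11_pp_313 {κ x : ℝ} (hκ : κ * h0 = kenE x) (hx : 39 / 40 ≤ x) (hx' : x < 1) :
    TriB (DD x).cur (farD κ (h0 * x) (tbl tKF x) (tbl tL x)) 3 1 3 1 1 1 1 :=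
  (sideF hx hx').farB (Or.inl rfl) (Or.inl rfl) fun y y' F r1 r2 =>
    farXB_cert (s1 := true) (s2 := true) rfl hκ (ka0 hκ hx hx') (xa0 hx) hx' (covF13 hx hx') (covF13 hx hx') (x1 hx) (x2 hx')
        Pool.Agent.Strip051.G.IE1.Tab.C.FB11.c_pp_313 noCut_VB noExt_VB F r1 r2 r1 r2

theorem FB11_pm_001 {κ x : ℝ} (hκ : κ * h0 = kenE x) (hx : 39 / 40 ≤ x) (hx' : x < 1) :
    TriB (DD x).cur (farD κ (h0 * x) (tbl tKF x) (tbl tL x)) 0 0 1 1 1 1 (-1) :=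
  (sideF hx hx').farB (Or.inl rfl) (Or.inr rfl) fun y y' F r1 r2 =>
    farXB_cert (s1 := true) (s2 := false) rfl hκ (ka0 hκ hx hx') (xa0 hx) hx' (covF10 hx hx') (covF11 hx hx') (x1 hx) (x2 hx')
        Pool.Agent.Strip051.G.IE1.Tab.C.FB11.c_pm_001 noCut_VB noExt_VB F r1 r2 r1 r2

theorem FB11_pm_011 {κ x : ℝ} (hκ : κ * h0 = kenE x) (hx : 39 / 40 ≤ x) (hx' : x < 1) :
    TriB (DD x).cur (farD κ (h0 * x) (tbl tKF x) (tbl tL x)) 0 1 1 1 1 1 (-1) :=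
  (sideF hx hx').farB (Or.inl rfl) (Or.inr rfl) fun y y' F r1 r2 =>
    farXB_cert (s1 := true) (s2 := false) rfl hκ (ka0 hκ hx hx') (xa0 hx) hx' (covF10 hx hx') (covF11 hx hx') (x1 hx) (x2 hx')
        Pool.Agent.Strip051.G.IE1.Tab.C.FB11.c_pm_011 noCut_VB noExt_VB F r1 r2 r1 r2

theorem FB11_pm_012 {κ x : ℝ} (hκ : κ * h0 = kenE x) (hx : 39 / 40 ≤ x) (hx' : x < 1) :
    TriB (DD x).cur (farD κ (h0 * x) (tbl tKF x) (tbl tL x)) 0 1 2 1 1 1 (-1) :=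
  (sideF hx hx').farB (Or.inl rfl) (Or.inr rfl) fun y y' F r1 r2 =>
    (lt_or_ge (h0 * (y + y')) 1).elim
      (fun g => farXB_cert (s1 := true) (s2 := false) rfl hκ (ka0 hκ hx hx') (xa0 hx) hx' (covF10 hx hx') (covF12a hx hx') (x1 hx) (x2 hx')
        Pool.Agent.Strip051.G.IE1.Tab.C.FB11.c_pm_012_a noCut_VB noExt_VB F r1 r2 r1 ⟨r2, g⟩)
      (fun g => farXB_cert (s1 := true) (s2 := false) rfl hκ (ka0 hκ hx hx') (xa0 hx) hx' (covF10 hx hx') (covF12b hx hx') (x1 hx) (x2 hx')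
        Pool.Agent.Strip051.G.IE1.Tab.C.FB11.c_pm_012_b noCut_VB noExt_VB F r1 r2 r1 ⟨r2, g⟩)

theorem FB11_pm_022 {κ x : ℝ} (hκ : κ * h0 = kenE x) (hx : 39 / 40 ≤ x) (hx' : x < 1) :
    TriB (DD x).cur (farD κ (h0 * x) (tbl tKF x) (tbl tL x)) 0 2 2 1 1 1 (-1) :=
  (sideF hx hx').farB (Or.inl rfl) (Or.inr rfl) fun y y' F r1 r2 =>
    (lt_or_ge (h0 * (y + y')) 1).elim
      (fun g => farXB_cert (s1 := true) (s2 := false) rfl hκ (ka0 hκ hx hx') (xa0 hx) hx' (covF10 hx hx') (covF12a hx hx') (x1 hx) (x2 hx')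
        Pool.Agent.Strip051.G.IE1.Tab.C.FB11.c_pm_022_a noCut_VB noExt_VB F r1 r2 r1 ⟨r2, g⟩)
      (fun g => farXB_cert (s1 := true) (s2 := false) rfl hκ (ka0 hκ hx hx') (xa0 hx) hx' (covF10 hx hx') (covF12b hx hx') (x1 hx) (x2 hx')
        Pool.Agent.Strip051.G.IE1.Tab.C.FB11.c_pm_022_b noCut_VB noExt_VB F r1 r2 r1 ⟨r2, g⟩)

theorem FB11_pm_023 {κ x : ℝ} (hκ : κ * h0 = kenE x) (hx : 39 / 40 ≤ x) (hx' : x < 1) :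
    TriB (DD x).cur (farD κ (h0 * x) (tbl tKF x) (tbl tL x)) 0 2 3 1 1 1 (-1) :=
  (sideF hx hx').farB (Or.inl rfl) (Or.inr rfl) fun y y' F r1 r2 =>
    farXB_cert (s1 := true) (s2 := false) rfl hκ (ka0 hκ hx hx') (xa0 hx) hx' (covF10 hx hx') (covF13 hx hx') (x1 hx) (x2 hx')
        Pool.Agent.Strip051.G.IE1.Tab.C.FB11.c_pm_023 noCut_VB noExt_VB F r1 r2 r1 r2

theorem FB11_pm_033 {κ x : ℝ} (hκ : κ * h0 = kenE x) (hx : 39 / 40 ≤ x) (hx' : x < 1) :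
    TriB (DD x).cur (farD κ (h0 * x) (tbl tKF x) (tbl tL x)) 0 3 3 1 1 1 (-1) :=
  (sideF hx hx').farB (Or.inl rfl) (Or.inr rfl) fun y y' F r1 r2 =>
    farXB_cert (s1 := true) (s2 := false) rfl hκ (ka0 hκ hx hx') (xa0 hx) hx' (covF10 hx hx') (covF13 hx hx') (x1 hx) (x2 hx')
        Pool.Agent.Strip051.G.IE1.Tab.C.FB11.c_pm_033 noCut_VB noExt_VB F r1 r2 r1 r2

theorem FB11_pm_101 {κ x : ℝ} (hκ : κ * h0 = kenE x) (hx : 39 / 40 ≤ x) (hx' : x < 1) :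
    TriB (DD x).cur (farD κ (h0 * x) (tbl tKF x) (tbl tL x)) 1 0 1 1 1 1 (-1) :=
  (sideF hx hx').farB (Or.inl rfl) (Or.inr rfl) fun y y' F r1 r2 =>
    farXB_cert (s1 := true) (s2 := false) rfl hκ (ka0 hκ hx hx') (xa0 hx) hx' (covF11 hx hx') (covF11 hx hx') (x1 hx) (x2 hx')
        Pool.Agent.Strip051.G.IE1.Tab.C.FB11.c_pm_101 noCut_VB noExt_VB F r1 r2 r1 r2

theorem FB11_pm_102 {κ x : ℝ} (hκ : κ * h0 = kenE x) (hx : 39 / 40 ≤ x) (hx' : x < 1) :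
    TriB (DD x).cur (farD κ (h0 * x) (tbl tKF x) (tbl tL x)) 1 0 2 1 1 1 (-1) :=
  (sideF hx hx').farB (Or.inl rfl) (Or.inr rfl) fun y y' F r1 r2 =>
    (lt_or_ge (h0 * (y + y')) 1).elim
      (fun g => farXB_cert (s1 := true) (s2 := false) rfl hκ (ka0 hκ hx hx') (xa0 hx) hx' (covF11 hx hx') (covF12a hx hx') (x1 hx) (x2 hx')
        Pool.Agent.Strip051.G.IE1.Tab.C.FB11.c_pm_102_a noCut_VB noExt_VB F r1 r2 r1 ⟨r2, g⟩)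
      (fun g => farXB_cert (s1 := true) (s2 := false) rfl hκ (ka0 hκ hx hx') (xa0 hx) hx' (covF11 hx hx') (covF12b hx hx') (x1 hx) (x2 hx')
        Pool.Agent.Strip051.G.IE1.Tab.C.FB11.c_pm_102_b noCut_VB noExt_VB F r1 r2 r1 ⟨r2, g⟩)

theorem FB11_pm_112 {κ x : ℝ} (hκ : κ * h0 = kenE x) (hx : 39 / 40 ≤ x) (hx' : x < 1) :
    TriB (DD x).cur (farD κ (h0 * x) (tbl tKF x) (tbl tL x)) 1 1 2 1 1 1 (-1) :=
  (sideF hx hx').farB (Or.inl rfl) (Or.inr rfl) fun y y' F r1 r2 =>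
    (lt_or_ge (h0 * (y + y')) 1).elim
      (fun g => farXB_cert (s1 := true) (s2 := false) rfl hκ (ka0 hκ hx hx') (xa0 hx) hx' (covF11 hx hx') (covF12a hx hx') (x1 hx) (x2 hx')
        Pool.Agent.Strip051.G.IE1.Tab.C.FB11.c_pm_112_a noCut_VB noExt_VB F r1 r2 r1 ⟨r2, g⟩)
      (fun g => farXB_cert (s1 := true) (s2 := false) rfl hκ (ka0 hκ hx hx') (xa0 hx) hx' (covF11 hx hx') (covF12b hx hx') (x1 hx) (x2 hx')
        Pool.Agent.Strip051.G.IE1.Tab.C.FB11.c_pm_112_b noCut_VB noExt_VB F r1 r2 r1 ⟨r2, g⟩)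

theorem FB11_pm_113 {κ x : ℝ} (hκ : κ * h0 = kenE x) (hx : 39 / 40 ≤ x) (hx' : x < 1) :
    TriB (DD x).cur (farD κ (h0 * x) (tbl tKF x) (tbl tL x)) 1 1 3 1 1 1 (-1) :=
  (sideF hx hx').farB (Or.inl rfl) (Or.inr rfl) fun y y' F r1 r2 =>
    farXB_cert (s1 := true) (s2 := false) rfl hκ (ka0 hκ hx hx') (xa0 hx) hx' (covF11 hx hx') (covF13 hx hx') (x1 hx) (x2 hx')
        Pool.Agent.Strip051.G.IE1.Tab.C.FB11.c_pm_113 noCut_VB noExt_VB F r1 r2 r1 r2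

theorem FB11_pm_123 {κ x : ℝ} (hκ : κ * h0 = kenE x) (hx : 39 / 40 ≤ x) (hx' : x < 1) :
    TriB (DD x).cur (farD κ (h0 * x) (tbl tKF x) (tbl tL x)) 1 2 3 1 1 1 (-1) :=
  (sideF hx hx').farB (Or.inl rfl) (Or.inr rfl) fun y y' F r1 r2 =>
    farXB_cert (s1 := true) (s2 := false) rfl hκ (ka0 hκ hx hx') (xa0 hx) hx' (covF11 hx hx') (covF13 hx hx') (x1 hx) (x2 hx')
        Pool.Agent.Strip051.G.IE1.Tab.C.FB11.c_pm_123 noCut_VB noExt_VB F r1 r2 r1 r2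

theorem FB11_pm_133 {κ x : ℝ} (hκ : κ * h0 = kenE x) (hx : 39 / 40 ≤ x) (hx' : x < 1) :
    TriB (DD x).cur (farD κ (h0 * x) (tbl tKF x) (tbl tL x)) 1 3 3 1 1 1 (-1) :=
  (sideF hx hx').farB (Or.inl rfl) (Or.inr rfl) fun y y' F r1 r2 =>
    farXB_cert (s1 := true) (s2 := false) rfl hκ (ka0 hκ hx hx') (xa0 hx) hx' (covF11 hx hx') (covF13 hx hx') (x1 hx) (x2 hx')
        Pool.Agent.Strip051.G.IE1.Tab.C.FB11.c_pm_133 noCut_VB noExt_VB F r1 r2 r1 r2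

theorem FB11_pm_202 {κ x : ℝ} (hκ : κ * h0 = kenE x) (hx : 39 / 40 ≤ x) (hx' : x < 1) :
    TriB (DD x).cur (farD κ (h0 * x) (tbl tKF x) (tbl tL x)) 2 0 2 1 1 1 (-1) :=
  (sideF hx hx').farB (Or.inl rfl) (Or.inr rfl) fun y y' F r1 r2 =>
    (lt_or_ge (h0 * y) 1).elim
      (fun h => (lt_or_ge (h0 * (y + y')) 1).elim
        (fun g => farXB_cert (s1 := true) (s2 := false) rfl hκ (ka0 hκ hx hx') (xa0 hx) hx' (covF12a hx hx') (covF12a hx hx') (x1 hx) (x2 hx')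
        Pool.Agent.Strip051.G.IE1.Tab.C.FB11.c_pm_202_aa noCut_VB noExt_VB F r1 r2 ⟨r1, h⟩ ⟨r2, g⟩)
        (fun g => farXB_cert (s1 := true) (s2 := false) rfl hκ (ka0 hκ hx hx') (xa0 hx) hx' (covF12a hx hx') (covF12b hx hx') (x1 hx) (x2 hx')
        Pool.Agent.Strip051.G.IE1.Tab.C.FB11.c_pm_202_ab noCut_VB noExt_VB F r1 r2 ⟨r1, h⟩ ⟨r2, g⟩))
      (fun h => (lt_or_ge (h0 * (y + y')) 1).elim
        (fun g => farXB_cert (s1 := true) (s2 := false) rfl hκ (ka0 hκ hx hx') (xa0 hx) hx' (covF12b hx hx') (covF12a hx hx') (x1 hx) (x2 hx')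
        Pool.Agent.Strip051.G.IE1.Tab.C.FB11.c_pm_202_ba noCut_VB noExt_VB F r1 r2 ⟨r1, h⟩ ⟨r2, g⟩)
        (fun g => farXB_cert (s1 := true) (s2 := false) rfl hκ (ka0 hκ hx hx') (xa0 hx) hx' (covF12b hx hx') (covF12b hx hx') (x1 hx) (x2 hx')
        Pool.Agent.Strip051.G.IE1.Tab.C.FB11.c_pm_202_bb noCut_VB noExt_VB F r1 r2 ⟨r1, h⟩ ⟨r2, g⟩))

theorem FB11_pm_203 {κ x : ℝ} (hκ : κ * h0 = kenE x) (hx : 39 / 40 ≤ x) (hx' : x < 1) :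
    TriB (DD x).cur (farD κ (h0 * x) (tbl tKF x) (tbl tL x)) 2 0 3 1 1 1 (-1) :=
  (sideF hx hx').farB (Or.inl rfl) (Or.inr rfl) fun y y' F r1 r2 =>
    (lt_or_ge (h0 * y) 1).elim
      (fun h => farXB_cert (s1 := true) (s2 := false) rfl hκ (ka0 hκ hx hx') (xa0 hx) hx' (covF12a hx hx') (covF13 hx hx') (x1 hx) (x2 hx')
        Pool.Agent.Strip051.G.IE1.Tab.C.FB11.c_pm_203_a noCut_VB noExt_VB F r1 r2 ⟨r1, h⟩ r2)
      (fun h => farXB_cert (s1 := true) (s2 := false) rfl hκ (ka0 hκ hx hx') (xa0 hx) hx' (covF12b hx hx') (covF13 hx hx') (x1 hx) (x2 hx')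
        Pool.Agent.Strip051.G.IE1.Tab.C.FB11.c_pm_203_b noCut_VB noExt_VB F r1 r2 ⟨r1, h⟩ r2)

theorem FB11_pm_213 {κ x : ℝ} (hκ : κ * h0 = kenE x) (hx : 39 / 40 ≤ x) (hx' : x < 1) :
    TriB (DD x).cur (farD κ (h0 * x) (tbl tKF x) (tbl tL x)) 2 1 3 1 1 1 (-1) :=
  (sideF hx hx').farB (Or.inl rfl) (Or.inr rfl) fun y y' F r1 r2 =>
    (lt_or_ge (h0 * y) 1).elim
      (fun h => farXB_cert (s1 := true) (s2 := false) rfl hκ (ka0 hκ hx hx') (xa0 hx) hx' (covF12a hx hx') (covF13 hx hx') (x1 hx) (x2 hx')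
        Pool.Agent.Strip051.G.IE1.Tab.C.FB11.c_pm_213_a noCut_VB noExt_VB F r1 r2 ⟨r1, h⟩ r2)
      (fun h => farXB_cert (s1 := true) (s2 := false) rfl hκ (ka0 hκ hx hx') (xa0 hx) hx' (covF12b hx hx') (covF13 hx hx') (x1 hx) (x2 hx')
        Pool.Agent.Strip051.G.IE1.Tab.C.FB11.c_pm_213_b noCut_VB noExt_VB F r1 r2 ⟨r1, h⟩ r2)

theorem FB11_pm_303 {κ x : ℝ} (hκ : κ * h0 = kenE x) (hx : 39 / 40 ≤ x) (hx' : x < 1) :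
    TriB (DD x).cur (farD κ (h0 * x) (tbl tKF x) (tbl tL x)) 3 0 3 1 1 1 (-1) :=
  (sideF hx hx').farB (Or.inl rfl) (Or.inr rfl) fun y y' F r1 r2 =>
    farXB_cert (s1 := true) (s2 := false) rfl hκ (ka0 hκ hx hx') (xa0 hx) hx' (covF13 hx hx') (covF13 hx hx') (x1 hx) (x2 hx')
        Pool.Agent.Strip051.G.IE1.Tab.C.FB11.c_pm_303 noCut_VB noExt_VB F r1 r2 r1 r2

theorem FB11_pm_313 {κ x : ℝ} (hκ : κ * h0 = kenE x) (hx : 39 / 40 ≤ x) (hx' : x < 1) :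
    TriB (DD x).cur (farD κ (h0 * x) (tbl tKF x) (tbl tL x)) 3 1 3 1 1 1 (-1) :=
  (sideF hx hx').farB (Or.inl rfl) (Or.inr rfl) fun y y' F r1 r2 =>
    farXB_cert (s1 := true) (s2 := false) rfl hκ (ka0 hκ hx hx') (xa0 hx) hx' (covF13 hx hx') (covF13 hx hx') (x1 hx) (x2 hx')
        Pool.Agent.Strip051.G.IE1.Tab.C.FB11.c_pm_313 noCut_VB noExt_VB F r1 r2 r1 r2

theorem FB11_mm_001 {κ x : ℝ} (hκ : κ * h0 = kenE x) (hx : 39 / 40 ≤ x) (hx' : x < 1) :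
    TriB (DD x).cur (farD κ (h0 * x) (tbl tKF x) (tbl tL x)) 0 0 1 1 1 (-1) (-1) :=
  (sideF hx hx').farB (Or.inr rfl) (Or.inr rfl) fun y y' F r1 r2 =>
    farXB_cert (s1 := false) (s2 := false) rfl hκ (ka0 hκ hx hx') (xa0 hx) hx' (covF10 hx hx') (covF11 hx hx') (x1 hx) (x2 hx')
        Pool.Agent.Strip051.G.IE1.Tab.C.FB11.c_mm_001 noCut_VB noExt_VB F r1 r2 r1 r2

theorem FB11_mm_011 {κ x : ℝ} (hκ : κ * h0 = kenE x) (hx : 39 / 40 ≤ x) (hx' : x < 1) :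
    TriB (DD x).cur (farD κ (h0 * x) (tbl tKF x) (tbl tL x)) 0 1 1 1 1 (-1) (-1) :=
  (sideF hx hx').farB (Or.inr rfl) (Or.inr rfl) fun y y' F r1 r2 =>
    farXB_cert (s1 := false) (s2 := false) rfl hκ (ka0 hκ hx hx') (xa0 hx) hx' (covF10 hx hx') (covF11 hx hx') (x1 hx) (x2 hx')
        Pool.Agent.Strip051.G.IE1.Tab.C.FB11.c_mm_011 noCut_VB noExt_VB F r1 r2 r1 r2

theorem FB11_mm_012 {κ x : ℝ} (hκ : κ * h0 = kenE x) (hx : 39 / 40 ≤ x) (hx' : x < 1) :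
    TriB (DD x).cur (farD κ (h0 * x) (tbl tKF x) (tbl tL x)) 0 1 2 1 1 (-1) (-1) :=
  (sideF hx hx').farB (Or.inr rfl) (Or.inr rfl) fun y y' F r1 r2 =>
    (lt_or_ge (h0 * (y + y')) 1).elim
      (fun g => farXB_cert (s1 := false) (s2 := false) rfl hκ (ka0 hκ hx hx') (xa0 hx) hx' (covF10 hx hx') (covF12a hx hx') (x1 hx) (x2 hx')
        Pool.Agent.Strip051.G.IE1.Tab.C.FB11.c_mm_012_a noCut_VB noExt_VB F r1 r2 r1 ⟨r2, g⟩)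
      (fun g => farXB_cert (s1 := false) (s2 := false) rfl hκ (ka0 hκ hx hx') (xa0 hx) hx' (covF10 hx hx') (covF12b hx hx') (x1 hx) (x2 hx')
        Pool.Agent.Strip051.G.IE1.Tab.C.FB11.c_mm_012_b noCut_VB noExt_VB F r1 r2 r1 ⟨r2, g⟩)

theorem FB11_mm_022 {κ x : ℝ} (hκ : κ * h0 = kenE x) (hx : 39 / 40 ≤ x) (hx' : x < 1) :
    TriB (DD x).cur (farD κ (h0 * x) (tbl tKF x) (tbl tL x)) 0 2 2 1 1 (-1) (-1) :=
  (sideF hx hx').farB (Or.inr rfl) (Or.inr rfl) fun y y' F r1 r2 =>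
    (lt_or_ge (h0 * (y + y')) 1).elim
      (fun g => farXB_cert (s1 := false) (s2 := false) rfl hκ (ka0 hκ hx hx') (xa0 hx) hx' (covF10 hx hx') (covF12a hx hx') (x1 hx) (x2 hx')
        Pool.Agent.Strip051.G.IE1.Tab.C.FB11.c_mm_022_a noCut_VB noExt_VB F r1 r2 r1 ⟨r2, g⟩)
      (fun g => farXB_cert (s1 := false) (s2 := false) rfl hκ (ka0 hκ hx hx') (xa0 hx) hx' (covF10 hx hx') (covF12b hx hx') (x1 hx) (x2 hx')
        Pool.Agent.Strip051.G.IE1.Tab.C.FB11.c_mm_022_b noCut_VB noExt_VB F r1 r2 r1 ⟨r2, g⟩)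

theorem FB11_mm_023 {κ x : ℝ} (hκ : κ * h0 = kenE x) (hx : 39 / 40 ≤ x) (hx' : x < 1) :
    TriB (DD x).cur (farD κ (h0 * x) (tbl tKF x) (tbl tL x)) 0 2 3 1 1 (-1) (-1) :=
  (sideF hx hx').farB (Or.inr rfl) (Or.inr rfl) fun y y' F r1 r2 =>
    farXB_cert (s1 := false) (s2 := false) rfl hκ (ka0 hκ hx hx') (xa0 hx) hx' (covF10 hx hx') (covF13 hx hx') (x1 hx) (x2 hx')
        Pool.Agent.Strip051.G.IE1.Tab.C.FB11.c_mm_023 noCut_VB noExt_VB F r1 r2 r1 r2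

theorem FB11_mm_033 {κ x : ℝ} (hκ : κ * h0 = kenE x) (hx : 39 / 40 ≤ x) (hx' : x < 1) :
    TriB (DD x).cur (farD κ (h0 * x) (tbl tKF x) (tbl tL x)) 0 3 3 1 1 (-1) (-1) :=
  (sideF hx hx').farB (Or.inr rfl) (Or.inr rfl) fun y y' F r1 r2 =>
    farXB_cert (s1 := false) (s2 := false) rfl hκ (ka0 hκ hx hx') (xa0 hx) hx' (covF10 hx hx') (covF13 hx hx') (x1 hx) (x2 hx')
        Pool.Agent.Strip051.G.IE1.Tab.C.FB11.c_mm_033 noCut_VB noExt_VB F r1 r2 r1 r2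

theorem FB11_mm_101 {κ x : ℝ} (hκ : κ * h0 = kenE x) (hx : 39 / 40 ≤ x) (hx' : x < 1) :
    TriB (DD x).cur (farD κ (h0 * x) (tbl tKF x) (tbl tL x)) 1 0 1 1 1 (-1) (-1) :=
  (sideF hx hx').farB (Or.inr rfl) (Or.inr rfl) fun y y' F r1 r2 =>
    farXB_cert (s1 := false) (s2 := false) rfl hκ (ka0 hκ hx hx') (xa0 hx) hx' (covF11 hx hx') (covF11 hx hx') (x1 hx) (x2 hx')
        Pool.Agent.Strip051.G.IE1.Tab.C.FB11.c_mm_101 noCut_VB noExt_VB F r1 r2 r1 r2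

theorem FB11_mm_102 {κ x : ℝ} (hκ : κ * h0 = kenE x) (hx : 39 / 40 ≤ x) (hx' : x < 1) :
    TriB (DD x).cur (farD κ (h0 * x) (tbl tKF x) (tbl tL x)) 1 0 2 1 1 (-1) (-1) :=
  (sideF hx hx').farB (Or.inr rfl) (Or.inr rfl) fun y y' F r1 r2 =>
    (lt_or_ge (h0 * (y + y')) 1).elim
      (fun g => farXB_cert (s1 := false) (s2 := false) rfl hκ (ka0 hκ hx hx') (xa0 hx) hx' (covF11 hx hx') (covF12a hx hx') (x1 hx) (x2 hx')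
        Pool.Agent.Strip051.G.IE1.Tab.C.FB11.c_mm_102_a noCut_VB noExt_VB F r1 r2 r1 ⟨r2, g⟩)
      (fun g => farXB_cert (s1 := false) (s2 := false) rfl hκ (ka0 hκ hx hx') (xa0 hx) hx' (covF11 hx hx') (covF12b hx hx') (x1 hx) (x2 hx')
        Pool.Agent.Strip051.G.IE1.Tab.C.FB11.c_mm_102_b noCut_VB noExt_VB F r1 r2 r1 ⟨r2, g⟩)

theorem FB11_mm_112 {κ x : ℝ} (hκ : κ * h0 = kenE x) (hx : 39 / 40 ≤ x) (hx' : x < 1) :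
    TriB (DD x).cur (farD κ (h0 * x) (tbl tKF x) (tbl tL x)) 1 1 2 1 1 (-1) (-1) :=
  (sideF hx hx').farB (Or.inr rfl) (Or.inr rfl) fun y y' F r1 r2 =>
    (lt_or_ge (h0 * (y + y')) 1).elim
      (fun g => farXB_cert (s1 := false) (s2 := false) rfl hκ (ka0 hκ hx hx') (xa0 hx) hx' (covF11 hx hx') (covF12a hx hx') (x1 hx) (x2 hx')
        Pool.Agent.Strip051.G.IE1.Tab.C.FB11.c_mm_112_a noCut_VB noExt_VB F r1 r2 r1 ⟨r2, g⟩)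
      (fun g => farXB_cert (s1 := false) (s2 := false) rfl hκ (ka0 hκ hx hx') (xa0 hx) hx' (covF11 hx hx') (covF12b hx hx') (x1 hx) (x2 hx')
        Pool.Agent.Strip051.G.IE1.Tab.C.FB11.c_mm_112_b noCut_VB noExt_VB F r1 r2 r1 ⟨r2, g⟩)

theorem FB11_mm_113 {κ x : ℝ} (hκ : κ * h0 = kenE x) (hx : 39 / 40 ≤ x) (hx' : x < 1) :
    TriB (DD x).cur (farD κ (h0 * x) (tbl tKF x) (tbl tL x)) 1 1 3 1 1 (-1) (-1) :=
  (sideF hx hx').farB (Or.inr rfl) (Or.inr rfl) fun y y' F r1 r2 =>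
    farXB_cert (s1 := false) (s2 := false) rfl hκ (ka0 hκ hx hx') (xa0 hx) hx' (covF11 hx hx') (covF13 hx hx') (x1 hx) (x2 hx')
        Pool.Agent.Strip051.G.IE1.Tab.C.FB11.c_mm_113 noCut_VB noExt_VB F r1 r2 r1 r2

theorem FB11_mm_123 {κ x : ℝ} (hκ : κ * h0 = kenE x) (hx : 39 / 40 ≤ x) (hx' : x < 1) :
    TriB (DD x).cur (farD κ (h0 * x) (tbl tKF x) (tbl tL x)) 1 2 3 1 1 (-1) (-1) :=
  (sideF hx hx').farB (Or.inr rfl) (Or.inr rfl) fun y y' F r1 r2 =>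
    farXB_cert (s1 := false) (s2 := false) rfl hκ (ka0 hκ hx hx') (xa0 hx) hx' (covF11 hx hx') (covF13 hx hx') (x1 hx) (x2 hx')
        Pool.Agent.Strip051.G.IE1.Tab.C.FB11.c_mm_123 noCut_VB noExt_VB F r1 r2 r1 r2

theorem FB11_mm_133 {κ x : ℝ} (hκ : κ * h0 = kenE x) (hx : 39 / 40 ≤ x) (hx' : x < 1) :
    TriB (DD x).cur (farD κ (h0 * x) (tbl tKF x) (tbl tL x)) 1 3 3 1 1 (-1) (-1) :=
  (sideF hx hx').farB (Or.inr rfl) (Or.inr rfl) fun y y' F r1 r2 =>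
    farXB_cert (s1 := false) (s2 := false) rfl hκ (ka0 hκ hx hx') (xa0 hx) hx' (covF11 hx hx') (covF13 hx hx') (x1 hx) (x2 hx')
        Pool.Agent.Strip051.G.IE1.Tab.C.FB11.c_mm_133 noCut_VB noExt_VB F r1 r2 r1 r2

theorem FB11_mm_202 {κ x : ℝ} (hκ : κ * h0 = kenE x) (hx : 39 / 40 ≤ x) (hx' : x < 1) :
    TriB (DD x).cur (farD κ (h0 * x) (tbl tKF x) (tbl tL x)) 2 0 2 1 1 (-1) (-1) :=
  (sideF hx hx').farB (Or.inr rfl) (Or.inr rfl) fun y y' F r1 r2 =>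
    (lt_or_ge (h0 * y) 1).elim
      (fun h => (lt_or_ge (h0 * (y + y')) 1).elim
        (fun g => farXB_cert (s1 := false) (s2 := false) rfl hκ (ka0 hκ hx hx') (xa0 hx) hx' (covF12a hx hx') (covF12a hx hx') (x1 hx) (x2 hx')
        Pool.Agent.Strip051.G.IE1.Tab.C.FB11.c_mm_202_aa noCut_VB noExt_VB F r1 r2 ⟨r1, h⟩ ⟨r2, g⟩)
        (fun g => farXB_cert (s1 := false) (s2 := false) rfl hκ (ka0 hκ hx hx') (xa0 hx) hx' (covF12a hx hx') (covF12b hx hx') (x1 hx) (x2 hx')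
        Pool.Agent.Strip051.G.IE1.Tab.C.FB11.c_mm_202_ab noCut_VB noExt_VB F r1 r2 ⟨r1, h⟩ ⟨r2, g⟩))
      (fun h => (lt_or_ge (h0 * (y + y')) 1).elim
        (fun g => farXB_cert (s1 := false) (s2 := false) rfl hκ (ka0 hκ hx hx') (xa0 hx) hx' (covF12b hx hx') (covF12a hx hx') (x1 hx) (x2 hx')
        Pool.Agent.Strip051.G.IE1.Tab.C.FB11.c_mm_202_ba noCut_VB noExt_VB F r1 r2 ⟨r1, h⟩ ⟨r2, g⟩)
        (fun g => farXB_cert (s1 := false) (s2 := false) rfl hκ (ka0 hκ hx hx') (xa0 hx) hx' (covF12b hx hx') (covF12b hx hx') (x1 hx) (x2 hx')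
        Pool.Agent.Strip051.G.IE1.Tab.C.FB11.c_mm_202_bb noCut_VB noExt_VB F r1 r2 ⟨r1, h⟩ ⟨r2, g⟩))

theorem FB11_mm_203 {κ x : ℝ} (hκ : κ * h0 = kenE x) (hx : 39 / 40 ≤ x) (hx' : x < 1) :
    TriB (DD x).cur (farD κ (h0 * x) (tbl tKF x) (tbl tL x)) 2 0 3 1 1 (-1) (-1) :=
  (sideF hx hx').farB (Or.inr rfl) (Or.inr rfl) fun y y' F r1 r2 =>
    (lt_or_ge (h0 * y) 1).elim
      (fun h => farXB_cert (s1 := false) (s2 := false) rfl hκ (ka0 hκ hx hx') (xa0 hx) hx' (covF12a hx hx') (covF13 hx hx') (x1 hx) (x2 hx')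
        Pool.Agent.Strip051.G.IE1.Tab.C.FB11.c_mm_203_a noCut_VB noExt_VB F r1 r2 ⟨r1, h⟩ r2)
      (fun h => farXB_cert (s1 := false) (s2 := false) rfl hκ (ka0 hκ hx hx') (xa0 hx) hx' (covF12b hx hx') (covF13 hx hx') (x1 hx) (x2 hx')
        Pool.Agent.Strip051.G.IE1.Tab.C.FB11.c_mm_203_b noCut_VB noExt_VB F r1 r2 ⟨r1, h⟩ r2)

theorem FB11_mm_213 {κ x : ℝ} (hκ : κ * h0 = kenE x) (hx : 39 / 40 ≤ x) (hx' : x < 1) :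
    TriB (DD x).cur (farD κ (h0 * x) (tbl tKF x) (tbl tL x)) 2 1 3 1 1 (-1) (-1) :=
  (sideF hx hx').farB (Or.inr rfl) (Or.inr rfl) fun y y' F r1 r2 =>
    (lt_or_ge (h0 * y) 1).elim
      (fun h => farXB_cert (s1 := false) (s2 := false) rfl hκ (ka0 hκ hx hx') (xa0 hx) hx' (covF12a hx hx') (covF13 hx hx') (x1 hx) (x2 hx')
        Pool.Agent.Strip051.G.IE1.Tab.C.FB11.c_mm_213_a noCut_VB noExt_VB F r1 r2 ⟨r1, h⟩ r2)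
      (fun h => farXB_cert (s1 := false) (s2 := false) rfl hκ (ka0 hκ hx hx') (xa0 hx) hx' (covF12b hx hx') (covF13 hx hx') (x1 hx) (x2 hx')
        Pool.Agent.Strip051.G.IE1.Tab.C.FB11.c_mm_213_b noCut_VB noExt_VB F r1 r2 ⟨r1, h⟩ r2)

theorem FB11_mm_303 {κ x : ℝ} (hκ : κ * h0 = kenE x) (hx : 39 / 40 ≤ x) (hx' : x < 1) :
    TriB (DD x).cur (farD κ (h0 * x) (tbl tKF x) (tbl tL x)) 3 0 3 1 1 (-1) (-1) :=
  (sideF hx hx').farB (Or.inr rfl) (Or.inr rfl) fun y y' F r1 r2 =>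
    farXB_cert (s1 := false) (s2 := false) rfl hκ (ka0 hκ hx hx') (xa0 hx) hx' (covF13 hx hx') (covF13 hx hx') (x1 hx) (x2 hx')
        Pool.Agent.Strip051.G.IE1.Tab.C.FB11.c_mm_303 noCut_VB noExt_VB F r1 r2 r1 r2

theorem FB11_mm_313 {κ x : ℝ} (hκ : κ * h0 = kenE x) (hx : 39 / 40 ≤ x) (hx' : x < 1) :
    TriB (DD x).cur (farD κ (h0 * x) (tbl tKF x) (tbl tL x)) 3 1 3 1 1 (-1) (-1) :=
  (sideF hx hx').farB (Or.inr rfl) (Or.inr rfl) fun y y' F r1 r2 =>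
    farXB_cert (s1 := false) (s2 := false) rfl hκ (ka0 hκ hx hx') (xa0 hx) hx' (covF13 hx hx') (covF13 hx hx') (x1 hx) (x2 hx')
        Pool.Agent.Strip051.G.IE1.Tab.C.FB11.c_mm_313 noCut_VB noExt_VB F r1 r2 r1 r2

theorem FB11 {κ x : ℝ} (hκ : κ * h0 = kenE x) (hx : 39 / 40 ≤ x) (hx' : x < 1) : AllTB (DD x).cur (farD κ (h0 * x) (tbl tKF x) (tbl tL x)) 1 1 where
  pp := all17 (Q := fun a b c => TriB (DD x).cur (farD κ (h0 * x) (tbl tKF x) (tbl tL x)) a b c 1 1 1 1)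
    (FB11_pp_001 hκ hx hx') (FB11_pp_011 hκ hx hx') (FB11_pp_012 hκ hx hx') (FB11_pp_022 hκ hx hx') (FB11_pp_023 hκ hx hx') (FB11_pp_033 hκ hx hx') (FB11_pp_101 hκ hx hx') (FB11_pp_102 hκ hx hx') (FB11_pp_112 hκ hx hx') (FB11_pp_113 hκ hx hx') (FB11_pp_123 hκ hx hx') (FB11_pp_133 hκ hx hx') (FB11_pp_202 hκ hx hx') (FB11_pp_203 hκ hx hx') (FB11_pp_213 hκ hx hx') (FB11_pp_303 hκ hx hx') (FB11_pp_313 hκ hx hx')
  pm := all17 (Q := fun a b c => TriB (DD x).cur (farD κ (h0 * x) (tbl tKF x) (tbl tL x)) a b c 1 1 1 (-1))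
    (FB11_pm_001 hκ hx hx') (FB11_pm_011 hκ hx hx') (FB11_pm_012 hκ hx hx') (FB11_pm_022 hκ hx hx') (FB11_pm_023 hκ hx hx') (FB11_pm_033 hκ hx hx') (FB11_pm_101 hκ hx hx') (FB11_pm_102 hκ hx hx') (FB11_pm_112 hκ hx hx') (FB11_pm_113 hκ hx hx') (FB11_pm_123 hκ hx hx') (FB11_pm_133 hκ hx hx') (FB11_pm_202 hκ hx hx') (FB11_pm_203 hκ hx hx') (FB11_pm_213 hκ hx hx') (FB11_pm_303 hκ hx hx') (FB11_pm_313 hκ hx hx')
  mm := all17 (Q := fun a b c => TriB (DD x).cur (farD κ (h0 * x) (tbl tKF x) (tbl tL x)) a b c 1 1 (-1) (-1))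
    (FB11_mm_001 hκ hx hx') (FB11_mm_011 hκ hx hx') (FB11_mm_012 hκ hx hx') (FB11_mm_022 hκ hx hx') (FB11_mm_023 hκ hx hx') (FB11_mm_033 hκ hx hx') (FB11_mm_101 hκ hx hx') (FB11_mm_102 hκ hx hx') (FB11_mm_112 hκ hx hx') (FB11_mm_113 hκ hx hx') (FB11_mm_123 hκ hx hx') (FB11_mm_133 hκ hx hx') (FB11_mm_202 hκ hx hx') (FB11_mm_203 hκ hx hx') (FB11_mm_213 hκ hx hx') (FB11_mm_303 hκ hx hx') (FB11_mm_313 hκ hx hx')

theorem FB12_pp_001 {κ x : ℝ} (hκ : κ * h0 = kenE x) (hx : 39 / 40 ≤ x) (hx' : x < 1) :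
    TriB (DD x).cur (farD κ (h0 * x) (tbl tKF x) (tbl tL x)) 0 0 1 1 2 1 1 :=
  (sideF hx hx').farB (Or.inl rfl) (Or.inl rfl) fun y y' F r1 r2 =>
    farXB_cert (s1 := true) (s2 := true) rfl hκ (ka0 hκ hx hx') (xa0 hx) hx' (covF10 hx hx') (covF21 hx hx') (x1 hx) (x2 hx')
        Pool.Agent.Strip051.G.IE1.Tab.C.FB12.c_pp_001 noCut_VB noExt_VB F r1 r2 r1 r2

theorem FB12_pp_011 {κ x : ℝ} (hκ : κ * h0 = kenE x) (hx : 39 / 40 ≤ x) (hx' : x < 1) :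
    TriB (DD x).cur (farD κ (h0 * x) (tbl tKF x) (tbl tL x)) 0 1 1 1 2 1 1 :=
  (sideF hx hx').farB (Or.inl rfl) (Or.inl rfl) fun y y' F r1 r2 =>
    farXB_cert (s1 := true) (s2 := true) rfl hκ (ka0 hκ hx hx') (xa0 hx) hx' (covF10 hx hx') (covF21 hx hx') (x1 hx) (x2 hx')
        Pool.Agent.Strip051.G.IE1.Tab.C.FB12.c_pp_011 noCut_VB noExt_VB F r1 r2 r1 r2

theorem FB12_pp_012 {κ x : ℝ} (hκ : κ * h0 = kenE x) (hx : 39 / 40 ≤ x) (hx' : x < 1) :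
    TriB (DD x).cur (farD κ (h0 * x) (tbl tKF x) (tbl tL x)) 0 1 2 1 2 1 1 :=
  (sideF hx hx').farB (Or.inl rfl) (Or.inl rfl) fun y y' F r1 r2 =>
    (lt_or_ge (h0 * (y + y')) 1).elim
      (fun g => farXB_cert (s1 := true) (s2 := true) rfl hκ (ka0 hκ hx hx') (xa0 hx) hx' (covF10 hx hx') (covF22a hx hx') (x1 hx) (x2 hx')
        Pool.Agent.Strip051.G.IE1.Tab.C.FB12.c_pp_012_a noCut_VB noExt_VB F r1 r2 r1 ⟨r2, g⟩)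
      (fun g => farXB_cert (s1 := true) (s2 := true) rfl hκ (ka0 hκ hx hx') (xa0 hx) hx' (covF10 hx hx') (covF22b hx hx') (x1 hx) (x2 hx')
        Pool.Agent.Strip051.G.IE1.Tab.C.FB12.c_pp_012_b noCut_VB noExt_VB F r1 r2 r1 ⟨r2, g⟩)

theorem FB12_pp_022 {κ x : ℝ} (hκ : κ * h0 = kenE x) (hx : 39 / 40 ≤ x) (hx' : x < 1) :
    TriB (DD x).cur (farD κ (h0 * x) (tbl tKF x) (tbl tL x)) 0 2 2 1 2 1 1 :=
  (sideF hx hx').farB (Or.inl rfl) (Or.inl rfl) fun y y' F r1 r2 =>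
    (lt_or_ge (h0 * (y + y')) 1).elim
      (fun g => farXB_cert (s1 := true) (s2 := true) rfl hκ (ka0 hκ hx hx') (xa0 hx) hx' (covF10 hx hx') (covF22a hx hx') (x1 hx) (x2 hx')
        Pool.Agent.Strip051.G.IE1.Tab.C.FB12.c_pp_022_a noCut_VB noExt_VB F r1 r2 r1 ⟨r2, g⟩)
      (fun g => farXB_cert (s1 := true) (s2 := true) rfl hκ (ka0 hκ hx hx') (xa0 hx) hx' (covF10 hx hx') (covF22b hx hx') (x1 hx) (x2 hx')
        Pool.Agent.Strip051.G.IE1.Tab.C.FB12.c_pp_022_b noCut_VB noExt_VB F r1 r2 r1 ⟨r2, g⟩)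

theorem FB12_pp_023 {κ x : ℝ} (hκ : κ * h0 = kenE x) (hx : 39 / 40 ≤ x) (hx' : x < 1) :
    TriB (DD x).cur (farD κ (h0 * x) (tbl tKF x) (tbl tL x)) 0 2 3 1 2 1 1 :=
  (sideF hx hx').farB (Or.inl rfl) (Or.inl rfl) fun y y' F r1 r2 =>
    farXB_cert (s1 := true) (s2 := true) rfl hκ (ka0 hκ hx hx') (xa0 hx) hx' (covF10 hx hx') (covF23 hx hx') (x1 hx) (x2 hx')
        Pool.Agent.Strip051.G.IE1.Tab.C.FB12.c_pp_023 noCut_VB noExt_VB F r1 r2 r1 r2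

theorem FB12_pp_033 {κ x : ℝ} (hκ : κ * h0 = kenE x) (hx : 39 / 40 ≤ x) (hx' : x < 1) :
    TriB (DD x).cur (farD κ (h0 * x) (tbl tKF x) (tbl tL x)) 0 3 3 1 2 1 1 :=
  (sideF hx hx').farB (Or.inl rfl) (Or.inl rfl) fun y y' F r1 r2 =>
    farXB_cert (s1 := true) (s2 := true) rfl hκ (ka0 hκ hx hx') (xa0 hx) hx' (covF10 hx hx') (covF23 hx hx') (x1 hx) (x2 hx')
        Pool.Agent.Strip051.G.IE1.Tab.C.FB12.c_pp_033 noCut_VB noExt_VB F r1 r2 r1 r2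

theorem FB12_pp_101 {κ x : ℝ} (hκ : κ * h0 = kenE x) (hx : 39 / 40 ≤ x) (hx' : x < 1) :
    TriB (DD x).cur (farD κ (h0 * x) (tbl tKF x) (tbl tL x)) 1 0 1 1 2 1 1 :=
  (sideF hx hx').farB (Or.inl rfl) (Or.inl rfl) fun y y' F r1 r2 =>
    farXB_cert (s1 := true) (s2 := true) rfl hκ (ka0 hκ hx hx') (xa0 hx) hx' (covF11 hx hx') (covF21 hx hx') (x1 hx) (x2 hx')
        Pool.Agent.Strip051.G.IE1.Tab.C.FB12.c_pp_101 noCut_VB noExt_VB F r1 r2 r1 r2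

theorem FB12_pp_102 {κ x : ℝ} (hκ : κ * h0 = kenE x) (hx : 39 / 40 ≤ x) (hx' : x < 1) :
    TriB (DD x).cur (farD κ (h0 * x) (tbl tKF x) (tbl tL x)) 1 0 2 1 2 1 1 :=
  (sideF hx hx').farB (Or.inl rfl) (Or.inl rfl) fun y y' F r1 r2 =>
    (lt_or_ge (h0 * (y + y')) 1).elim
      (fun g => farXB_cert (s1 := true) (s2 := true) rfl hκ (ka0 hκ hx hx') (xa0 hx) hx' (covF11 hx hx') (covF22a hx hx') (x1 hx) (x2 hx')
        Pool.Agent.Strip051.G.IE1.Tab.C.FB12.c_pp_102_a noCut_VB noExt_VB F r1 r2 r1 ⟨r2, g⟩)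
      (fun g => farXB_cert (s1 := true) (s2 := true) rfl hκ (ka0 hκ hx hx') (xa0 hx) hx' (covF11 hx hx') (covF22b hx hx') (x1 hx) (x2 hx')
        Pool.Agent.Strip051.G.IE1.Tab.C.FB12.c_pp_102_b noCut_VB noExt_VB F r1 r2 r1 ⟨r2, g⟩)

theorem FB12_pp_112 {κ x : ℝ} (hκ : κ * h0 = kenE x) (hx : 39 / 40 ≤ x) (hx' : x < 1) :
    TriB (DD x).cur (farD κ (h0 * x) (tbl tKF x) (tbl tL x)) 1 1 2 1 2 1 1 :=
  (sideF hx hx').farB (Or.inl rfl) (Or.inl rfl) fun y y' F r1 r2 =>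
    (lt_or_ge (h0 * (y + y')) 1).elim
      (fun g => farXB_cert (s1 := true) (s2 := true) rfl hκ (ka0 hκ hx hx') (xa0 hx) hx' (covF11 hx hx') (covF22a hx hx') (x1 hx) (x2 hx')
        Pool.Agent.Strip051.G.IE1.Tab.C.FB12.c_pp_112_a noCut_VB noExt_VB F r1 r2 r1 ⟨r2, g⟩)
      (fun g => farXB_cert (s1 := true) (s2 := true) rfl hκ (ka0 hκ hx hx') (xa0 hx) hx' (covF11 hx hx') (covF22b hx hx') (x1 hx) (x2 hx')
        Pool.Agent.Strip051.G.IE1.Tab.C.FB12.c_pp_112_b noCut_VB noExt_VB F r1 r2 r1 ⟨r2, g⟩)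

theorem FB12_pp_113 {κ x : ℝ} (hκ : κ * h0 = kenE x) (hx : 39 / 40 ≤ x) (hx' : x < 1) :
    TriB (DD x).cur (farD κ (h0 * x) (tbl tKF x) (tbl tL x)) 1 1 3 1 2 1 1 :=
  (sideF hx hx').farB (Or.inl rfl) (Or.inl rfl) fun y y' F r1 r2 =>
    farXB_cert (s1 := true) (s2 := true) rfl hκ (ka0 hκ hx hx') (xa0 hx) hx' (covF11 hx hx') (covF23 hx hx') (x1 hx) (x2 hx')
        Pool.Agent.Strip051.G.IE1.Tab.C.FB12.c_pp_113 noCut_VB noExt_VB F r1 r2 r1 r2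

theorem FB12_pp_123 {κ x : ℝ} (hκ : κ * h0 = kenE x) (hx : 39 / 40 ≤ x) (hx' : x < 1) :
    TriB (DD x).cur (farD κ (h0 * x) (tbl tKF x) (tbl tL x)) 1 2 3 1 2 1 1 :=
  (sideF hx hx').farB (Or.inl rfl) (Or.inl rfl) fun y y' F r1 r2 =>
    farXB_cert (s1 := true) (s2 := true) rfl hκ (ka0 hκ hx hx') (xa0 hx) hx' (covF11 hx hx') (covF23 hx hx') (x1 hx) (x2 hx')
        Pool.Agent.Strip051.G.IE1.Tab.C.FB12.c_pp_123 noCut_VB noExt_VB F r1 r2 r1 r2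

theorem FB12_pp_133 {κ x : ℝ} (hκ : κ * h0 = kenE x) (hx : 39 / 40 ≤ x) (hx' : x < 1) :
    TriB (DD x).cur (farD κ (h0 * x) (tbl tKF x) (tbl tL x)) 1 3 3 1 2 1 1 :=
  (sideF hx hx').farB (Or.inl rfl) (Or.inl rfl) fun y y' F r1 r2 =>
    farXB_cert (s1 := true) (s2 := true) rfl hκ (ka0 hκ hx hx') (xa0 hx) hx' (covF11 hx hx') (covF23 hx hx') (x1 hx) (x2 hx')
        Pool.Agent.Strip051.G.IE1.Tab.C.FB12.c_pp_133 noCut_VB noExt_VB F r1 r2 r1 r2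

theorem FB12_pp_202 {κ x : ℝ} (hκ : κ * h0 = kenE x) (hx : 39 / 40 ≤ x) (hx' : x < 1) :
    TriB (DD x).cur (farD κ (h0 * x) (tbl tKF x) (tbl tL x)) 2 0 2 1 2 1 1 :=
  (sideF hx hx').farB (Or.inl rfl) (Or.inl rfl) fun y y' F r1 r2 =>
    (lt_or_ge (h0 * y) 1).elim
      (fun h => (lt_or_ge (h0 * (y + y')) 1).elim
        (fun g => farXB_cert (s1 := true) (s2 := true) rfl hκ (ka0 hκ hx hx') (xa0 hx) hx' (covF12a hx hx') (covF22a hx hx') (x1 hx) (x2 hx')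
        Pool.Agent.Strip051.G.IE1.Tab.C.FB12.c_pp_202_aa noCut_VB noExt_VB F r1 r2 ⟨r1, h⟩ ⟨r2, g⟩)
        (fun g => farXB_cert (s1 := true) (s2 := true) rfl hκ (ka0 hκ hx hx') (xa0 hx) hx' (covF12a hx hx') (covF22b hx hx') (x1 hx) (x2 hx')
        Pool.Agent.Strip051.G.IE1.Tab.C.FB12.c_pp_202_ab noCut_VB noExt_VB F r1 r2 ⟨r1, h⟩ ⟨r2, g⟩))
      (fun h => (lt_or_ge (h0 * (y + y')) 1).elim
        (fun g => farXB_cert (s1 := true) (s2 := true) rfl hκ (ka0 hκ hx hx') (xa0 hx) hx' (covF12b hx hx') (covF22a hx hx') (x1 hx) (x2 hx')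
        Pool.Agent.Strip051.G.IE1.Tab.C.FB12.c_pp_202_ba noCut_VB noExt_VB F r1 r2 ⟨r1, h⟩ ⟨r2, g⟩)
        (fun g => farXB_cert (s1 := true) (s2 := true) rfl hκ (ka0 hκ hx hx') (xa0 hx) hx' (covF12b hx hx') (covF22b hx hx') (x1 hx) (x2 hx')
        Pool.Agent.Strip051.G.IE1.Tab.C.FB12.c_pp_202_bb noCut_VB noExt_VB F r1 r2 ⟨r1, h⟩ ⟨r2, g⟩))

theorem FB12_pp_203 {κ x : ℝ} (hκ : κ * h0 = kenE x) (hx : 39 / 40 ≤ x) (hx' : x < 1) :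
    TriB (DD x).cur (farD κ (h0 * x) (tbl tKF x) (tbl tL x)) 2 0 3 1 2 1 1 :=
  (sideF hx hx').farB (Or.inl rfl) (Or.inl rfl) fun y y' F r1 r2 =>
    (lt_or_ge (h0 * y) 1).elim
      (fun h => farXB_cert (s1 := true) (s2 := true) rfl hκ (ka0 hκ hx hx') (xa0 hx) hx' (covF12a hx hx') (covF23 hx hx') (x1 hx) (x2 hx')
        Pool.Agent.Strip051.G.IE1.Tab.C.FB12.c_pp_203_a noCut_VB noExt_VB F r1 r2 ⟨r1, h⟩ r2)
      (fun h => farXB_cert (s1 := true) (s2 := true) rfl hκ (ka0 hκ hx hx') (xa0 hx) hx' (covF12b hx hx') (covF23 hx hx') (x1 hx) (x2 hx')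
        Pool.Agent.Strip051.G.IE1.Tab.C.FB12.c_pp_203_b noCut_VB noExt_VB F r1 r2 ⟨r1, h⟩ r2)

theorem FB12_pp_213 {κ x : ℝ} (hκ : κ * h0 = kenE x) (hx : 39 / 40 ≤ x) (hx' : x < 1) :
    TriB (DD x).cur (farD κ (h0 * x) (tbl tKF x) (tbl tL x)) 2 1 3 1 2 1 1 :=
  (sideF hx hx').farB (Or.inl rfl) (Or.inl rfl) fun y y' F r1 r2 =>
    (lt_or_ge (h0 * y) 1).elim
      (fun h => farXB_cert (s1 := true) (s2 := true) rfl hκ (ka0 hκ hx hx') (xa0 hx) hx' (covF12a hx hx') (covF23 hx hx') (x1 hx) (x2 hx')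
        Pool.Agent.Strip051.G.IE1.Tab.C.FB12.c_pp_213_a noCut_VB noExt_VB F r1 r2 ⟨r1, h⟩ r2)
      (fun h => farXB_cert (s1 := true) (s2 := true) rfl hκ (ka0 hκ hx hx') (xa0 hx) hx' (covF12b hx hx') (covF23 hx hx') (x1 hx) (x2 hx')
        Pool.Agent.Strip051.G.IE1.Tab.C.FB12.c_pp_213_b noCut_VB noExt_VB F r1 r2 ⟨r1, h⟩ r2)

theorem FB12_pp_303 {κ x : ℝ} (hκ : κ * h0 = kenE x) (hx : 39 / 40 ≤ x) (hx' : x < 1) :
    TriB (DD x).cur (farD κ (h0 * x) (tbl tKF x) (tbl tL x)) 3 0 3 1 2 1 1 :=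
  (sideF hx hx').farB (Or.inl rfl) (Or.inl rfl) fun y y' F r1 r2 =>
    farXB_cert (s1 := true) (s2 := true) rfl hκ (ka0 hκ hx hx') (xa0 hx) hx' (covF13 hx hx') (covF23 hx hx') (x1 hx) (x2 hx')
        Pool.Agent.Strip051.G.IE1.Tab.C.FB12.c_pp_303 noCut_VB noExt_VB F r1 r2 r1 r2

theorem FB12_pp_313 {κ x : ℝ} (hκ : κ * h0 = kenE x) (hx : 39 / 40 ≤ x) (hx' : x < 1) :
    TriB (DD x).cur (farD κ (h0 * x) (tbl tKF x) (tbl tL x)) 3 1 3 1 2 1 1 :=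
  (sideF hx hx').farB (Or.inl rfl) (Or.inl rfl) fun y y' F r1 r2 =>
    farXB_cert (s1 := true) (s2 := true) rfl hκ (ka0 hκ hx hx') (xa0 hx) hx' (covF13 hx hx') (covF23 hx hx') (x1 hx) (x2 hx')
        Pool.Agent.Strip051.G.IE1.Tab.C.FB12.c_pp_313 noCut_VB noExt_VB F r1 r2 r1 r2

theorem FB12_pm_001 {κ x : ℝ} (hκ : κ * h0 = kenE x) (hx : 39 / 40 ≤ x) (hx' : x < 1) :
    TriB (DD x).cur (farD κ (h0 * x) (tbl tKF x) (tbl tL x)) 0 0 1 1 2 1 (-1) :=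
  (sideF hx hx').farB (Or.inl rfl) (Or.inr rfl) fun y y' F r1 r2 =>
    farXB_cert (s1 := true) (s2 := false) rfl hκ (ka0 hκ hx hx') (xa0 hx) hx' (covF10 hx hx') (covF21 hx hx') (x1 hx) (x2 hx')
        Pool.Agent.Strip051.G.IE1.Tab.C.FB12.c_pm_001 noCut_VB noExt_VB F r1 r2 r1 r2

theorem FB12_pm_011 {κ x : ℝ} (hκ : κ * h0 = kenE x) (hx : 39 / 40 ≤ x) (hx' : x < 1) :
    TriB (DD x).cur (farD κ (h0 * x) (tbl tKF x) (tbl tL x)) 0 1 1 1 2 1 (-1) :=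
  (sideF hx hx').farB (Or.inl rfl) (Or.inr rfl) fun y y' F r1 r2 =>
    farXB_cert (s1 := true) (s2 := false) rfl hκ (ka0 hκ hx hx') (xa0 hx) hx' (covF10 hx hx') (covF21 hx hx') (x1 hx) (x2 hx')
        Pool.Agent.Strip051.G.IE1.Tab.C.FB12.c_pm_011 noCut_VB noExt_VB F r1 r2 r1 r2

theorem FB12_pm_012 {κ x : ℝ} (hκ : κ * h0 = kenE x) (hx : 39 / 40 ≤ x) (hx' : x < 1) :
    TriB (DD x).cur (farD κ (h0 * x) (tbl tKF x) (tbl tL x)) 0 1 2 1 2 1 (-1) :=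
  (sideF hx hx').farB (Or.inl rfl) (Or.inr rfl) fun y y' F r1 r2 =>
    (lt_or_ge (h0 * (y + y')) 1).elim
      (fun g => farXB_cert (s1 := true) (s2 := false) rfl hκ (ka0 hκ hx hx') (xa0 hx) hx' (covF10 hx hx') (covF22a hx hx') (x1 hx) (x2 hx')
        Pool.Agent.Strip051.G.IE1.Tab.C.FB12.c_pm_012_a noCut_VB noExt_VB F r1 r2 r1 ⟨r2, g⟩)
      (fun g => farXB_cert (s1 := true) (s2 := false) rfl hκ (ka0 hκ hx hx') (xa0 hx) hx' (covF10 hx hx') (covF22b hx hx') (x1 hx) (x2 hx')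
        Pool.Agent.Strip051.G.IE1.Tab.C.FB12.c_pm_012_b noCut_VB noExt_VB F r1 r2 r1 ⟨r2, g⟩)

theorem FB12_pm_022 {κ x : ℝ} (hκ : κ * h0 = kenE x) (hx : 39 / 40 ≤ x) (hx' : x < 1) :
    TriB (DD x).cur (farD κ (h0 * x) (tbl tKF x) (tbl tL x)) 0 2 2 1 2 1 (-1) :=
  (sideF hx hx').farB (Or.inl rfl) (Or.inr rfl) fun y y' F r1 r2 =>
    (lt_or_ge (h0 * (y + y')) 1).elim
      (fun g => farXB_cert (s1 := true) (s2 := false) rfl hκ (ka0 hκ hx hx') (xa0 hx) hx' (covF10 hx hx') (covF22a hx hx') (x1 hx) (x2 hx')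
        Pool.Agent.Strip051.G.IE1.Tab.C.FB12.c_pm_022_a noCut_VB noExt_VB F r1 r2 r1 ⟨r2, g⟩)
      (fun g => farXB_cert (s1 := true) (s2 := false) rfl hκ (ka0 hκ hx hx') (xa0 hx) hx' (covF10 hx hx') (covF22b hx hx') (x1 hx) (x2 hx')
        Pool.Agent.Strip051.G.IE1.Tab.C.FB12.c_pm_022_b noCut_VB noExt_VB F r1 r2 r1 ⟨r2, g⟩)

theorem FB12_pm_023 {κ x : ℝ} (hκ : κ * h0 = kenE x) (hx : 39 / 40 ≤ x) (hx' : x < 1) :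
    TriB (DD x).cur (farD κ (h0 * x) (tbl tKF x) (tbl tL x)) 0 2 3 1 2 1 (-1) :=
  (sideF hx hx').farB (Or.inl rfl) (Or.inr rfl) fun y y' F r1 r2 =>
    farXB_cert (s1 := true) (s2 := false) rfl hκ (ka0 hκ hx hx') (xa0 hx) hx' (covF10 hx hx') (covF23 hx hx') (x1 hx) (x2 hx')
        Pool.Agent.Strip051.G.IE1.Tab.C.FB12.c_pm_023 noCut_VB noExt_VB F r1 r2 r1 r2

theorem FB12_pm_033 {κ x : ℝ} (hκ : κ * h0 = kenE x) (hx : 39 / 40 ≤ x) (hx' : x < 1) :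
    TriB (DD x).cur (farD κ (h0 * x) (tbl tKF x) (tbl tL x)) 0 3 3 1 2 1 (-1) :=
  (sideF hx hx').farB (Or.inl rfl) (Or.inr rfl) fun y y' F r1 r2 =>
    farXB_cert (s1 := true) (s2 := false) rfl hκ (ka0 hκ hx hx') (xa0 hx) hx' (covF10 hx hx') (covF23 hx hx') (x1 hx) (x2 hx')
        Pool.Agent.Strip051.G.IE1.Tab.C.FB12.c_pm_033 noCut_VB noExt_VB F r1 r2 r1 r2

theorem FB12_pm_101 {κ x : ℝ} (hκ : κ * h0 = kenE x) (hx : 39 / 40 ≤ x) (hx' : x < 1) :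
    TriB (DD x).cur (farD κ (h0 * x) (tbl tKF x) (tbl tL x)) 1 0 1 1 2 1 (-1) :=
  (sideF hx hx').farB (Or.inl rfl) (Or.inr rfl) fun y y' F r1 r2 =>
    farXB_cert (s1 := true) (s2 := false) rfl hκ (ka0 hκ hx hx') (xa0 hx) hx' (covF11 hx hx') (covF21 hx hx') (x1 hx) (x2 hx')
        Pool.Agent.Strip051.G.IE1.Tab.C.FB12.c_pm_101 noCut_VB noExt_VB F r1 r2 r1 r2

theorem FB12_pm_102 {κ x : ℝ} (hκ : κ * h0 = kenE x) (hx : 39 / 40 ≤ x) (hx' : x < 1) :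
    TriB (DD x).cur (farD κ (h0 * x) (tbl tKF x) (tbl tL x)) 1 0 2 1 2 1 (-1) :=
  (sideF hx hx').farB (Or.inl rfl) (Or.inr rfl) fun y y' F r1 r2 =>
    (lt_or_ge (h0 * (y + y')) 1).elim
      (fun g => farXB_cert (s1 := true) (s2 := false) rfl hκ (ka0 hκ hx hx') (xa0 hx) hx' (covF11 hx hx') (covF22a hx hx') (x1 hx) (x2 hx')
        Pool.Agent.Strip051.G.IE1.Tab.C.FB12.c_pm_102_a noCut_VB noExt_VB F r1 r2 r1 ⟨r2, g⟩)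
      (fun g => farXB_cert (s1 := true) (s2 := false) rfl hκ (ka0 hκ hx hx') (xa0 hx) hx' (covF11 hx hx') (covF22b hx hx') (x1 hx) (x2 hx')
        Pool.Agent.Strip051.G.IE1.Tab.C.FB12.c_pm_102_b noCut_VB noExt_VB F r1 r2 r1 ⟨r2, g⟩)

theorem FB12_pm_112 {κ x : ℝ} (hκ : κ * h0 = kenE x) (hx : 39 / 40 ≤ x) (hx' : x < 1) :
    TriB (DD x).cur (farD κ (h0 * x) (tbl tKF x) (tbl tL x)) 1 1 2 1 2 1 (-1) :=
  (sideF hx hx').farB (Or.inl rfl) (Or.inr rfl) fun y y' F r1 r2 =>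
    (lt_or_ge (h0 * (y + y')) 1).elim
      (fun g => farXB_cert (s1 := true) (s2 := false) rfl hκ (ka0 hκ hx hx') (xa0 hx) hx' (covF11 hx hx') (covF22a hx hx') (x1 hx) (x2 hx')
        Pool.Agent.Strip051.G.IE1.Tab.C.FB12.c_pm_112_a noCut_VB noExt_VB F r1 r2 r1 ⟨r2, g⟩)
      (fun g => farXB_cert (s1 := true) (s2 := false) rfl hκ (ka0 hκ hx hx') (xa0 hx) hx' (covF11 hx hx') (covF22b hx hx') (x1 hx) (x2 hx')
        Pool.Agent.Strip051.G.IE1.Tab.C.FB12.c_pm_112_b noCut_VB noExt_VB F r1 r2 r1 ⟨r2, g⟩)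

theorem FB12_pm_113 {κ x : ℝ} (hκ : κ * h0 = kenE x) (hx : 39 / 40 ≤ x) (hx' : x < 1) :
    TriB (DD x).cur (farD κ (h0 * x) (tbl tKF x) (tbl tL x)) 1 1 3 1 2 1 (-1) :=
  (sideF hx hx').farB (Or.inl rfl) (Or.inr rfl) fun y y' F r1 r2 =>
    farXB_cert (s1 := true) (s2 := false) rfl hκ (ka0 hκ hx hx') (xa0 hx) hx' (covF11 hx hx') (covF23 hx hx') (x1 hx) (x2 hx')
        Pool.Agent.Strip051.G.IE1.Tab.C.FB12.c_pm_113 noCut_VB noExt_VB F r1 r2 r1 r2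

theorem FB12_pm_123 {κ x : ℝ} (hκ : κ * h0 = kenE x) (hx : 39 / 40 ≤ x) (hx' : x < 1) :
    TriB (DD x).cur (farD κ (h0 * x) (tbl tKF x) (tbl tL x)) 1 2 3 1 2 1 (-1) :=
  (sideF hx hx').farB (Or.inl rfl) (Or.inr rfl) fun y y' F r1 r2 =>
    farXB_cert (s1 := true) (s2 := false) rfl hκ (ka0 hκ hx hx') (xa0 hx) hx' (covF11 hx hx') (covF23 hx hx') (x1 hx) (x2 hx')
        Pool.Agent.Strip051.G.IE1.Tab.C.FB12.c_pm_123 noCut_VB noExt_VB F r1 r2 r1 r2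

theorem FB12_pm_133 {κ x : ℝ} (hκ : κ * h0 = kenE x) (hx : 39 / 40 ≤ x) (hx' : x < 1) :
    TriB (DD x).cur (farD κ (h0 * x) (tbl tKF x) (tbl tL x)) 1 3 3 1 2 1 (-1) :=
  (sideF hx hx').farB (Or.inl rfl) (Or.inr rfl) fun y y' F r1 r2 =>
    farXB_cert (s1 := true) (s2 := false) rfl hκ (ka0 hκ hx hx') (xa0 hx) hx' (covF11 hx hx') (covF23 hx hx') (x1 hx) (x2 hx')
        Pool.Agent.Strip051.G.IE1.Tab.C.FB12.c_pm_133 noCut_VB noExt_VB F r1 r2 r1 r2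

theorem FB12_pm_202 {κ x : ℝ} (hκ : κ * h0 = kenE x) (hx : 39 / 40 ≤ x) (hx' : x < 1) :
    TriB (DD x).cur (farD κ (h0 * x) (tbl tKF x) (tbl tL x)) 2 0 2 1 2 1 (-1) :=
  (sideF hx hx').farB (Or.inl rfl) (Or.inr rfl) fun y y' F r1 r2 =>
    (lt_or_ge (h0 * y) 1).elim
      (fun h => (lt_or_ge (h0 * (y + y')) 1).elim
        (fun g => farXB_cert (s1 := true) (s2 := false) rfl hκ (ka0 hκ hx hx') (xa0 hx) hx' (covF12a hx hx') (covF22a hx hx') (x1 hx) (x2 hx')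
        Pool.Agent.Strip051.G.IE1.Tab.C.FB12.c_pm_202_aa noCut_VB noExt_VB F r1 r2 ⟨r1, h⟩ ⟨r2, g⟩)
        (fun g => farXB_cert (s1 := true) (s2 := false) rfl hκ (ka0 hκ hx hx') (xa0 hx) hx' (covF12a hx hx') (covF22b hx hx') (x1 hx) (x2 hx')
        Pool.Agent.Strip051.G.IE1.Tab.C.FB12.c_pm_202_ab noCut_VB noExt_VB F r1 r2 ⟨r1, h⟩ ⟨r2, g⟩))
      (fun h => (lt_or_ge (h0 * (y + y')) 1).elim
        (fun g => farXB_cert (s1 := true) (s2 := false) rfl hκ (ka0 hκ hx hx') (xa0 hx) hx' (covF12b hx hx') (covF22a hx hx') (x1 hx) (x2 hx')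
        Pool.Agent.Strip051.G.IE1.Tab.C.FB12.c_pm_202_ba noCut_VB noExt_VB F r1 r2 ⟨r1, h⟩ ⟨r2, g⟩)
        (fun g => farXB_cert (s1 := true) (s2 := false) rfl hκ (ka0 hκ hx hx') (xa0 hx) hx' (covF12b hx hx') (covF22b hx hx') (x1 hx) (x2 hx')
        Pool.Agent.Strip051.G.IE1.Tab.C.FB12.c_pm_202_bb noCut_VB noExt_VB F r1 r2 ⟨r1, h⟩ ⟨r2, g⟩))

theorem FB12_pm_203 {κ x : ℝ} (hκ : κ * h0 = kenE x) (hx : 39 / 40 ≤ x) (hx' : x < 1) :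
    TriB (DD x).cur (farD κ (h0 * x) (tbl tKF x) (tbl tL x)) 2 0 3 1 2 1 (-1) :=
  (sideF hx hx').farB (Or.inl rfl) (Or.inr rfl) fun y y' F r1 r2 =>
    (lt_or_ge (h0 * y) 1).elim
      (fun h => farXB_cert (s1 := true) (s2 := false) rfl hκ (ka0 hκ hx hx') (xa0 hx) hx' (covF12a hx hx') (covF23 hx hx') (x1 hx) (x2 hx')
        Pool.Agent.Strip051.G.IE1.Tab.C.FB12.c_pm_203_a noCut_VB noExt_VB F r1 r2 ⟨r1, h⟩ r2)
      (fun h => farXB_cert (s1 := true) (s2 := false) rfl hκ (ka0 hκ hx hx') (xa0 hx) hx' (covF12b hx hx') (covF23 hx hx') (x1 hx) (x2 hx')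
        Pool.Agent.Strip051.G.IE1.Tab.C.FB12.c_pm_203_b noCut_VB noExt_VB F r1 r2 ⟨r1, h⟩ r2)

theorem FB12_pm_213 {κ x : ℝ} (hκ : κ * h0 = kenE x) (hx : 39 / 40 ≤ x) (hx' : x < 1) :
    TriB (DD x).cur (farD κ (h0 * x) (tbl tKF x) (tbl tL x)) 2 1 3 1 2 1 (-1) :=
  (sideF hx hx').farB (Or.inl rfl) (Or.inr rfl) fun y y' F r1 r2 =>
    (lt_or_ge (h0 * y) 1).elim
      (fun h => farXB_cert (s1 := true) (s2 := false) rfl hκ (ka0 hκ hx hx') (xa0 hx) hx' (covF12a hx hx') (covF23 hx hx') (x1 hx) (x2 hx')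
        Pool.Agent.Strip051.G.IE1.Tab.C.FB12.c_pm_213_a noCut_VB noExt_VB F r1 r2 ⟨r1, h⟩ r2)
      (fun h => farXB_cert (s1 := true) (s2 := false) rfl hκ (ka0 hκ hx hx') (xa0 hx) hx' (covF12b hx hx') (covF23 hx hx') (x1 hx) (x2 hx')
        Pool.Agent.Strip051.G.IE1.Tab.C.FB12.c_pm_213_b noCut_VB noExt_VB F r1 r2 ⟨r1, h⟩ r2)

theorem FB12_pm_303 {κ x : ℝ} (hκ : κ * h0 = kenE x) (hx : 39 / 40 ≤ x) (hx' : x < 1) :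
    TriB (DD x).cur (farD κ (h0 * x) (tbl tKF x) (tbl tL x)) 3 0 3 1 2 1 (-1) :=
  (sideF hx hx').farB (Or.inl rfl) (Or.inr rfl) fun y y' F r1 r2 =>
    farXB_cert (s1 := true) (s2 := false) rfl hκ (ka0 hκ hx hx') (xa0 hx) hx' (covF13 hx hx') (covF23 hx hx') (x1 hx) (x2 hx')
        Pool.Agent.Strip051.G.IE1.Tab.C.FB12.c_pm_303 noCut_VB noExt_VB F r1 r2 r1 r2

theorem FB12_pm_313 {κ x : ℝ} (hκ : κ * h0 = kenE x) (hx : 39 / 40 ≤ x) (hx' : x < 1) :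
    TriB (DD x).cur (farD κ (h0 * x) (tbl tKF x) (tbl tL x)) 3 1 3 1 2 1 (-1) :=
  (sideF hx hx').farB (Or.inl rfl) (Or.inr rfl) fun y y' F r1 r2 =>
    farXB_cert (s1 := true) (s2 := false) rfl hκ (ka0 hκ hx hx') (xa0 hx) hx' (covF13 hx hx') (covF23 hx hx') (x1 hx) (x2 hx')
        Pool.Agent.Strip051.G.IE1.Tab.C.FB12.c_pm_313 noCut_VB noExt_VB F r1 r2 r1 r2

theorem FB12_mm_001 {κ x : ℝ} (hκ : κ * h0 = kenE x) (hx : 39 / 40 ≤ x) (hx' : x < 1) :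
    TriB (DD x).cur (farD κ (h0 * x) (tbl tKF x) (tbl tL x)) 0 0 1 1 2 (-1) (-1) :=
  (sideF hx hx').farB (Or.inr rfl) (Or.inr rfl) fun y y' F r1 r2 =>
    farXB_cert (s1 := false) (s2 := false) rfl hκ (ka0 hκ hx hx') (xa0 hx) hx' (covF10 hx hx') (covF21 hx hx') (x1 hx) (x2 hx')
        Pool.Agent.Strip051.G.IE1.Tab.C.FB12.c_mm_001 noCut_VB noExt_VB F r1 r2 r1 r2

theorem FB12_mm_011 {κ x : ℝ} (hκ : κ * h0 = kenE x) (hx : 39 / 40 ≤ x) (hx' : x < 1) :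
    TriB (DD x).cur (farD κ (h0 * x) (tbl tKF x) (tbl tL x)) 0 1 1 1 2 (-1) (-1) :=
  (sideF hx hx').farB (Or.inr rfl) (Or.inr rfl) fun y y' F r1 r2 =>
    farXB_cert (s1 := false) (s2 := false) rfl hκ (ka0 hκ hx hx') (xa0 hx) hx' (covF10 hx hx') (covF21 hx hx') (x1 hx) (x2 hx')
        Pool.Agent.Strip051.G.IE1.Tab.C.FB12.c_mm_011 noCut_VB noExt_VB F r1 r2 r1 r2

theorem FB12_mm_012 {κ x : ℝ} (hκ : κ * h0 = kenE x) (hx : 39 / 40 ≤ x) (hx' : x < 1) :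
    TriB (DD x).cur (farD κ (h0 * x) (tbl tKF x) (tbl tL x)) 0 1 2 1 2 (-1) (-1) :=
  (sideF hx hx').farB (Or.inr rfl) (Or.inr rfl) fun y y' F r1 r2 =>
    (lt_or_ge (h0 * (y + y')) 1).elim
      (fun g => farXB_cert (s1 := false) (s2 := false) rfl hκ (ka0 hκ hx hx') (xa0 hx) hx' (covF10 hx hx') (covF22a hx hx') (x1 hx) (x2 hx')
        Pool.Agent.Strip051.G.IE1.Tab.C.FB12.c_mm_012_a noCut_VB noExt_VB F r1 r2 r1 ⟨r2, g⟩)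
      (fun g => farXB_cert (s1 := false) (s2 := false) rfl hκ (ka0 hκ hx hx') (xa0 hx) hx' (covF10 hx hx') (covF22b hx hx') (x1 hx) (x2 hx')
        Pool.Agent.Strip051.G.IE1.Tab.C.FB12.c_mm_012_b noCut_VB noExt_VB F r1 r2 r1 ⟨r2, g⟩)

theorem FB12_mm_022 {κ x : ℝ} (hκ : κ * h0 = kenE x) (hx : 39 / 40 ≤ x) (hx' : x < 1) :
    TriB (DD x).cur (farD κ (h0 * x) (tbl tKF x) (tbl tL x)) 0 2 2 1 2 (-1) (-1) :=
  (sideF hx hx').farB (Or.inr rfl) (Or.inr rfl) fun y y' F r1 r2 =>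
    (lt_or_ge (h0 * (y + y')) 1).elim
      (fun g => farXB_cert (s1 := false) (s2 := false) rfl hκ (ka0 hκ hx hx') (xa0 hx) hx' (covF10 hx hx') (covF22a hx hx') (x1 hx) (x2 hx')
        Pool.Agent.Strip051.G.IE1.Tab.C.FB12.c_mm_022_a noCut_VB noExt_VB F r1 r2 r1 ⟨r2, g⟩)
      (fun g => farXB_cert (s1 := false) (s2 := false) rfl hκ (ka0 hκ hx hx') (xa0 hx) hx' (covF10 hx hx') (covF22b hx hx') (x1 hx) (x2 hx')
        Pool.Agent.Strip051.G.IE1.Tab.C.FB12.c_mm_022_b noCut_VB noExt_VB F r1 r2 r1 ⟨r2, g⟩)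

theorem FB12_mm_023 {κ x : ℝ} (hκ : κ * h0 = kenE x) (hx : 39 / 40 ≤ x) (hx' : x < 1) :
    TriB (DD x).cur (farD κ (h0 * x) (tbl tKF x) (tbl tL x)) 0 2 3 1 2 (-1) (-1) :=
  (sideF hx hx').farB (Or.inr rfl) (Or.inr rfl) fun y y' F r1 r2 =>
    farXB_cert (s1 := false) (s2 := false) rfl hκ (ka0 hκ hx hx') (xa0 hx) hx' (covF10 hx hx') (covF23 hx hx') (x1 hx) (x2 hx')
        Pool.Agent.Strip051.G.IE1.Tab.C.FB12.c_mm_023 noCut_VB noExt_VB F r1 r2 r1 r2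

theorem FB12_mm_033 {κ x : ℝ} (hκ : κ * h0 = kenE x) (hx : 39 / 40 ≤ x) (hx' : x < 1) :
    TriB (DD x).cur (farD κ (h0 * x) (tbl tKF x) (tbl tL x)) 0 3 3 1 2 (-1) (-1) :=
  (sideF hx hx').farB (Or.inr rfl) (Or.inr rfl) fun y y' F r1 r2 =>
    farXB_cert (s1 := false) (s2 := false) rfl hκ (ka0 hκ hx hx') (xa0 hx) hx' (covF10 hx hx') (covF23 hx hx') (x1 hx) (x2 hx')
        Pool.Agent.Strip051.G.IE1.Tab.C.FB12.c_mm_033 noCut_VB noExt_VB F r1 r2 r1 r2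

theorem FB12_mm_101 {κ x : ℝ} (hκ : κ * h0 = kenE x) (hx : 39 / 40 ≤ x) (hx' : x < 1) :
    TriB (DD x).cur (farD κ (h0 * x) (tbl tKF x) (tbl tL x)) 1 0 1 1 2 (-1) (-1) :=
  (sideF hx hx').farB (Or.inr rfl) (Or.inr rfl) fun y y' F r1 r2 =>
    farXB_cert (s1 := false) (s2 := false) rfl hκ (ka0 hκ hx hx') (xa0 hx) hx' (covF11 hx hx') (covF21 hx hx') (x1 hx) (x2 hx')
        Pool.Agent.Strip051.G.IE1.Tab.C.FB12.c_mm_101 noCut_VB noExt_VB F r1 r2 r1 r2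

theorem FB12_mm_102 {κ x : ℝ} (hκ : κ * h0 = kenE x) (hx : 39 / 40 ≤ x) (hx' : x < 1) :
    TriB (DD x).cur (farD κ (h0 * x) (tbl tKF x) (tbl tL x)) 1 0 2 1 2 (-1) (-1) :=
  (sideF hx hx').farB (Or.inr rfl) (Or.inr rfl) fun y y' F r1 r2 =>
    (lt_or_ge (h0 * (y + y')) 1).elim
      (fun g => farXB_cert (s1 := false) (s2 := false) rfl hκ (ka0 hκ hx hx') (xa0 hx) hx' (covF11 hx hx') (covF22a hx hx') (x1 hx) (x2 hx')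
        Pool.Agent.Strip051.G.IE1.Tab.C.FB12.c_mm_102_a noCut_VB noExt_VB F r1 r2 r1 ⟨r2, g⟩)
      (fun g => farXB_cert (s1 := false) (s2 := false) rfl hκ (ka0 hκ hx hx') (xa0 hx) hx' (covF11 hx hx') (covF22b hx hx') (x1 hx) (x2 hx')
        Pool.Agent.Strip051.G.IE1.Tab.C.FB12.c_mm_102_b noCut_VB noExt_VB F r1 r2 r1 ⟨r2, g⟩)

theorem FB12_mm_112 {κ x : ℝ} (hκ : κ * h0 = kenE x) (hx : 39 / 40 ≤ x) (hx' : x < 1) :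
    TriB (DD x).cur (farD κ (h0 * x) (tbl tKF x) (tbl tL x)) 1 1 2 1 2 (-1) (-1) :=
  (sideF hx hx').farB (Or.inr rfl) (Or.inr rfl) fun y y' F r1 r2 =>
    (lt_or_ge (h0 * (y + y')) 1).elim
      (fun g => farXB_cert (s1 := false) (s2 := false) rfl hκ (ka0 hκ hx hx') (xa0 hx) hx' (covF11 hx hx') (covF22a hx hx') (x1 hx) (x2 hx')
        Pool.Agent.Strip051.G.IE1.Tab.C.FB12.c_mm_112_a noCut_VB noExt_VB F r1 r2 r1 ⟨r2, g⟩)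
      (fun g => farXB_cert (s1 := false) (s2 := false) rfl hκ (ka0 hκ hx hx') (xa0 hx) hx' (covF11 hx hx') (covF22b hx hx') (x1 hx) (x2 hx')
        Pool.Agent.Strip051.G.IE1.Tab.C.FB12.c_mm_112_b noCut_VB noExt_VB F r1 r2 r1 ⟨r2, g⟩)

theorem FB12_mm_113 {κ x : ℝ} (hκ : κ * h0 = kenE x) (hx : 39 / 40 ≤ x) (hx' : x < 1) :
    TriB (DD x).cur (farD κ (h0 * x) (tbl tKF x) (tbl tL x)) 1 1 3 1 2 (-1) (-1) :=
  (sideF hx hx').farB (Or.inr rfl) (Or.inr rfl) fun y y' F r1 r2 =>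
    farXB_cert (s1 := false) (s2 := false) rfl hκ (ka0 hκ hx hx') (xa0 hx) hx' (covF11 hx hx') (covF23 hx hx') (x1 hx) (x2 hx')
        Pool.Agent.Strip051.G.IE1.Tab.C.FB12.c_mm_113 noCut_VB noExt_VB F r1 r2 r1 r2

theorem FB12_mm_123 {κ x : ℝ} (hκ : κ * h0 = kenE x) (hx : 39 / 40 ≤ x) (hx' : x < 1) :
    TriB (DD x).cur (farD κ (h0 * x) (tbl tKF x) (tbl tL x)) 1 2 3 1 2 (-1) (-1) :=
  (sideF hx hx').farB (Or.inr rfl) (Or.inr rfl) fun y y' F r1 r2 =>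
    farXB_cert (s1 := false) (s2 := false) rfl hκ (ka0 hκ hx hx') (xa0 hx) hx' (covF11 hx hx') (covF23 hx hx') (x1 hx) (x2 hx')
        Pool.Agent.Strip051.G.IE1.Tab.C.FB12.c_mm_123 noCut_VB noExt_VB F r1 r2 r1 r2

theorem FB12_mm_133 {κ x : ℝ} (hκ : κ * h0 = kenE x) (hx : 39 / 40 ≤ x) (hx' : x < 1) :
    TriB (DD x).cur (farD κ (h0 * x) (tbl tKF x) (tbl tL x)) 1 3 3 1 2 (-1) (-1) :=
  (sideF hx hx').farB (Or.inr rfl) (Or.inr rfl) fun y y' F r1 r2 =>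
    farXB_cert (s1 := false) (s2 := false) rfl hκ (ka0 hκ hx hx') (xa0 hx) hx' (covF11 hx hx') (covF23 hx hx') (x1 hx) (x2 hx')
        Pool.Agent.Strip051.G.IE1.Tab.C.FB12.c_mm_133 noCut_VB noExt_VB F r1 r2 r1 r2

theorem FB12_mm_202 {κ x : ℝ} (hκ : κ * h0 = kenE x) (hx : 39 / 40 ≤ x) (hx' : x < 1) :
    TriB (DD x).cur (farD κ (h0 * x) (tbl tKF x) (tbl tL x)) 2 0 2 1 2 (-1) (-1) :=
  (sideF hx hx').farB (Or.inr rfl) (Or.inr rfl) fun y y' F r1 r2 =>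
    (lt_or_ge (h0 * y) 1).elim
      (fun h => (lt_or_ge (h0 * (y + y')) 1).elim
        (fun g => farXB_cert (s1 := false) (s2 := false) rfl hκ (ka0 hκ hx hx') (xa0 hx) hx' (covF12a hx hx') (covF22a hx hx') (x1 hx) (x2 hx')
        Pool.Agent.Strip051.G.IE1.Tab.C.FB12.c_mm_202_aa noCut_VB noExt_VB F r1 r2 ⟨r1, h⟩ ⟨r2, g⟩)
        (fun g => farXB_cert (s1 := false) (s2 := false) rfl hκ (ka0 hκ hx hx') (xa0 hx) hx' (covF12a hx hx') (covF22b hx hx') (x1 hx) (x2 hx')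
        Pool.Agent.Strip051.G.IE1.Tab.C.FB12.c_mm_202_ab noCut_VB noExt_VB F r1 r2 ⟨r1, h⟩ ⟨r2, g⟩))
      (fun h => (lt_or_ge (h0 * (y + y')) 1).elim
        (fun g => farXB_cert (s1 := false) (s2 := false) rfl hκ (ka0 hκ hx hx') (xa0 hx) hx' (covF12b hx hx') (covF22a hx hx') (x1 hx) (x2 hx')
        Pool.Agent.Strip051.G.IE1.Tab.C.FB12.c_mm_202_ba noCut_VB noExt_VB F r1 r2 ⟨r1, h⟩ ⟨r2, g⟩)
        (fun g => farXB_cert (s1 := false) (s2 := false) rfl hκ (ka0 hκ hx hx') (xa0 hx) hx' (covF12b hx hx') (covF22b hx hx') (x1 hx) (x2 hx')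
        Pool.Agent.Strip051.G.IE1.Tab.C.FB12.c_mm_202_bb noCut_VB noExt_VB F r1 r2 ⟨r1, h⟩ ⟨r2, g⟩))

theorem FB12_mm_203 {κ x : ℝ} (hκ : κ * h0 = kenE x) (hx : 39 / 40 ≤ x) (hx' : x < 1) :
    TriB (DD x).cur (farD κ (h0 * x) (tbl tKF x) (tbl tL x)) 2 0 3 1 2 (-1) (-1) :=
  (sideF hx hx').farB (Or.inr rfl) (Or.inr rfl) fun y y' F r1 r2 =>
    (lt_or_ge (h0 * y) 1).elim
      (fun h => farXB_cert (s1 := false) (s2 := false) rfl hκ (ka0 hκ hx hx') (xa0 hx) hx' (covF12a hx hx') (covF23 hx hx') (x1 hx) (x2 hx')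
        Pool.Agent.Strip051.G.IE1.Tab.C.FB12.c_mm_203_a noCut_VB noExt_VB F r1 r2 ⟨r1, h⟩ r2)
      (fun h => farXB_cert (s1 := false) (s2 := false) rfl hκ (ka0 hκ hx hx') (xa0 hx) hx' (covF12b hx hx') (covF23 hx hx') (x1 hx) (x2 hx')
        Pool.Agent.Strip051.G.IE1.Tab.C.FB12.c_mm_203_b noCut_VB noExt_VB F r1 r2 ⟨r1, h⟩ r2)

theorem FB12_mm_213 {κ x : ℝ} (hκ : κ * h0 = kenE x) (hx : 39 / 40 ≤ x) (hx' : x < 1) :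
    TriB (DD x).cur (farD κ (h0 * x) (tbl tKF x) (tbl tL x)) 2 1 3 1 2 (-1) (-1) :=
  (sideF hx hx').farB (Or.inr rfl) (Or.inr rfl) fun y y' F r1 r2 =>
    (lt_or_ge (h0 * y) 1).elim
      (fun h => farXB_cert (s1 := false) (s2 := false) rfl hκ (ka0 hκ hx hx') (xa0 hx) hx' (covF12a hx hx') (covF23 hx hx') (x1 hx) (x2 hx')
        Pool.Agent.Strip051.G.IE1.Tab.C.FB12.c_mm_213_a noCut_VB noExt_VB F r1 r2 ⟨r1, h⟩ r2)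
      (fun h => farXB_cert (s1 := false) (s2 := false) rfl hκ (ka0 hκ hx hx') (xa0 hx) hx' (covF12b hx hx') (covF23 hx hx') (x1 hx) (x2 hx')
        Pool.Agent.Strip051.G.IE1.Tab.C.FB12.c_mm_213_b noCut_VB noExt_VB F r1 r2 ⟨r1, h⟩ r2)

theorem FB12_mm_303 {κ x : ℝ} (hκ : κ * h0 = kenE x) (hx : 39 / 40 ≤ x) (hx' : x < 1) :
    TriB (DD x).cur (farD κ (h0 * x) (tbl tKF x) (tbl tL x)) 3 0 3 1 2 (-1) (-1) :=
  (sideF hx hx').farB (Or.inr rfl) (Or.inr rfl) fun y y' F r1 r2 =>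
    farXB_cert (s1 := false) (s2 := false) rfl hκ (ka0 hκ hx hx') (xa0 hx) hx' (covF13 hx hx') (covF23 hx hx') (x1 hx) (x2 hx')
        Pool.Agent.Strip051.G.IE1.Tab.C.FB12.c_mm_303 noCut_VB noExt_VB F r1 r2 r1 r2

theorem FB12_mm_313 {κ x : ℝ} (hκ : κ * h0 = kenE x) (hx : 39 / 40 ≤ x) (hx' : x < 1) :
    TriB (DD x).cur (farD κ (h0 * x) (tbl tKF x) (tbl tL x)) 3 1 3 1 2 (-1) (-1) :=
  (sideF hx hx').farB (Or.inr rfl) (Or.inr rfl) fun y y' F r1 r2 =>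
    farXB_cert (s1 := false) (s2 := false) rfl hκ (ka0 hκ hx hx') (xa0 hx) hx' (covF13 hx hx') (covF23 hx hx') (x1 hx) (x2 hx')
        Pool.Agent.Strip051.G.IE1.Tab.C.FB12.c_mm_313 noCut_VB noExt_VB F r1 r2 r1 r2

theorem FB12 {κ x : ℝ} (hκ : κ * h0 = kenE x) (hx : 39 / 40 ≤ x) (hx' : x < 1) : AllTB (DD x).cur (farD κ (h0 * x) (tbl tKF x) (tbl tL x)) 1 2 where
  pp := all17 (Q := fun a b c => TriB (DD x).cur (farD κ (h0 * x) (tbl tKF x) (tbl tL x)) a b c 1 2 1 1)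
    (FB12_pp_001 hκ hx hx') (FB12_pp_011 hκ hx hx') (FB12_pp_012 hκ hx hx') (FB12_pp_022 hκ hx hx') (FB12_pp_023 hκ hx hx') (FB12_pp_033 hκ hx hx') (FB12_pp_101 hκ hx hx') (FB12_pp_102 hκ hx hx') (FB12_pp_112 hκ hx hx') (FB12_pp_113 hκ hx hx') (FB12_pp_123 hκ hx hx') (FB12_pp_133 hκ hx hx') (FB12_pp_202 hκ hx hx') (FB12_pp_203 hκ hx hx') (FB12_pp_213 hκ hx hx') (FB12_pp_303 hκ hx hx') (FB12_pp_313 hκ hx hx')
  pm := all17 (Q := fun a b c => TriB (DD x).cur (farD κ (h0 * x) (tbl tKF x) (tbl tL x)) a b c 1 2 1 (-1))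
    (FB12_pm_001 hκ hx hx') (FB12_pm_011 hκ hx hx') (FB12_pm_012 hκ hx hx') (FB12_pm_022 hκ hx hx') (FB12_pm_023 hκ hx hx') (FB12_pm_033 hκ hx hx') (FB12_pm_101 hκ hx hx') (FB12_pm_102 hκ hx hx') (FB12_pm_112 hκ hx hx') (FB12_pm_113 hκ hx hx') (FB12_pm_123 hκ hx hx') (FB12_pm_133 hκ hx hx') (FB12_pm_202 hκ hx hx') (FB12_pm_203 hκ hx hx') (FB12_pm_213 hκ hx hx') (FB12_pm_303 hκ hx hx') (FB12_pm_313 hκ hx hx')
  mm := all17 (Q := fun a b c => TriB (DD x).cur (farD κ (h0 * x) (tbl tKF x) (tbl tL x)) a b c 1 2 (-1) (-1))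
    (FB12_mm_001 hκ hx hx') (FB12_mm_011 hκ hx hx') (FB12_mm_012 hκ hx hx') (FB12_mm_022 hκ hx hx') (FB12_mm_023 hκ hx hx') (FB12_mm_033 hκ hx hx') (FB12_mm_101 hκ hx hx') (FB12_mm_102 hκ hx hx') (FB12_mm_112 hκ hx hx') (FB12_mm_113 hκ hx hx') (FB12_mm_123 hκ hx hx') (FB12_mm_133 hκ hx hx') (FB12_mm_202 hκ hx hx') (FB12_mm_203 hκ hx hx') (FB12_mm_213 hκ hx hx') (FB12_mm_303 hκ hx hx') (FB12_mm_313 hκ hx hx')

theorem FB13_pp_001 {κ x : ℝ} (hκ : κ * h0 = kenE x) (hx : 39 / 40 ≤ x) (hx' : x < 1) :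
    TriB (DD x).cur (farD κ (h0 * x) (tbl tKF x) (tbl tL x)) 0 0 1 1 3 1 1 :=
  (sideF hx hx').farB (Or.inl rfl) (Or.inl rfl) fun y y' F r1 r2 =>
    farXB_cert (s1 := true) (s2 := true) rfl hκ (ka0 hκ hx hx') (xa0 hx) hx' (covF10 hx hx') (covF31 hx hx') (x1 hx) (x2 hx')
        Pool.Agent.Strip051.G.IE1.Tab.C.FB13.c_pp_001 noCut_VB noExt_VB F r1 r2 r1 r2

theorem FB13_pp_011 {κ x : ℝ} (hκ : κ * h0 = kenE x) (hx : 39 / 40 ≤ x) (hx' : x < 1) :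
    TriB (DD x).cur (farD κ (h0 * x) (tbl tKF x) (tbl tL x)) 0 1 1 1 3 1 1 :=
  (sideF hx hx').farB (Or.inl rfl) (Or.inl rfl) fun y y' F r1 r2 =>
    farXB_cert (s1 := true) (s2 := true) rfl hκ (ka0 hκ hx hx') (xa0 hx) hx' (covF10 hx hx') (covF31 hx hx') (x1 hx) (x2 hx')
        Pool.Agent.Strip051.G.IE1.Tab.C.FB13.c_pp_011 noCut_VB noExt_VB F r1 r2 r1 r2

theorem FB13_pp_012 {κ x : ℝ} (hκ : κ * h0 = kenE x) (hx : 39 / 40 ≤ x) (hx' : x < 1) :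
    TriB (DD x).cur (farD κ (h0 * x) (tbl tKF x) (tbl tL x)) 0 1 2 1 3 1 1 :=
  (sideF hx hx').farB (Or.inl rfl) (Or.inl rfl) fun y y' F r1 r2 =>
    farXB_cert (s1 := true) (s2 := true) rfl hκ (ka0 hκ hx hx') (xa0 hx) hx' (covF10 hx hx') (covF32 hx hx') (x1 hx) (x2 hx')
        Pool.Agent.Strip051.G.IE1.Tab.C.FB13.c_pp_012 noCut_VB noExt_VB F r1 r2 r1 r2

theorem FB13_pp_022 {κ x : ℝ} (hκ : κ * h0 = kenE x) (hx : 39 / 40 ≤ x) (hx' : x < 1) :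
    TriB (DD x).cur (farD κ (h0 * x) (tbl tKF x) (tbl tL x)) 0 2 2 1 3 1 1 :=
  (sideF hx hx').farB (Or.inl rfl) (Or.inl rfl) fun y y' F r1 r2 =>
    farXB_cert (s1 := true) (s2 := true) rfl hκ (ka0 hκ hx hx') (xa0 hx) hx' (covF10 hx hx') (covF32 hx hx') (x1 hx) (x2 hx')
        Pool.Agent.Strip051.G.IE1.Tab.C.FB13.c_pp_022 noCut_VB noExt_VB F r1 r2 r1 r2

theorem FB13_pp_023 {κ x : ℝ} (hκ : κ * h0 = kenE x) (hx : 39 / 40 ≤ x) (hx' : x < 1) :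
    TriB (DD x).cur (farD κ (h0 * x) (tbl tKF x) (tbl tL x)) 0 2 3 1 3 1 1 :=
  (sideF hx hx').farB (Or.inl rfl) (Or.inl rfl) fun y y' F r1 r2 =>
    farXB_cert (s1 := true) (s2 := true) rfl hκ (ka0 hκ hx hx') (xa0 hx) hx' (covF10 hx hx') (covF33 hx hx') (x1 hx) (x2 hx')
        Pool.Agent.Strip051.G.IE1.Tab.C.FB13.c_pp_023 noCut_VB noExt_VB F r1 r2 r1 r2

theorem FB13_pp_033 {κ x : ℝ} (hκ : κ * h0 = kenE x) (hx : 39 / 40 ≤ x) (hx' : x < 1) :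
    TriB (DD x).cur (farD κ (h0 * x) (tbl tKF x) (tbl tL x)) 0 3 3 1 3 1 1 :=
  (sideF hx hx').farB (Or.inl rfl) (Or.inl rfl) fun y y' F r1 r2 =>
    farXB_cert (s1 := true) (s2 := true) rfl hκ (ka0 hκ hx hx') (xa0 hx) hx' (covF10 hx hx') (covF33 hx hx') (x1 hx) (x2 hx')
        Pool.Agent.Strip051.G.IE1.Tab.C.FB13.c_pp_033 noCut_VB noExt_VB F r1 r2 r1 r2

theorem FB13_pp_101 {κ x : ℝ} (hκ : κ * h0 = kenE x) (hx : 39 / 40 ≤ x) (hx' : x < 1) :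
    TriB (DD x).cur (farD κ (h0 * x) (tbl tKF x) (tbl tL x)) 1 0 1 1 3 1 1 :=
  (sideF hx hx').farB (Or.inl rfl) (Or.inl rfl) fun y y' F r1 r2 =>
    farXB_cert (s1 := true) (s2 := true) rfl hκ (ka0 hκ hx hx') (xa0 hx) hx' (covF11 hx hx') (covF31 hx hx') (x1 hx) (x2 hx')
        Pool.Agent.Strip051.G.IE1.Tab.C.FB13.c_pp_101 noCut_VB noExt_VB F r1 r2 r1 r2

theorem FB13_pp_102 {κ x : ℝ} (hκ : κ * h0 = kenE x) (hx : 39 / 40 ≤ x) (hx' : x < 1) :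
    TriB (DD x).cur (farD κ (h0 * x) (tbl tKF x) (tbl tL x)) 1 0 2 1 3 1 1 :=
  (sideF hx hx').farB (Or.inl rfl) (Or.inl rfl) fun y y' F r1 r2 =>
    farXB_cert (s1 := true) (s2 := true) rfl hκ (ka0 hκ hx hx') (xa0 hx) hx' (covF11 hx hx') (covF32 hx hx') (x1 hx) (x2 hx')
        Pool.Agent.Strip051.G.IE1.Tab.C.FB13.c_pp_102 noCut_VB noExt_VB F r1 r2 r1 r2

theorem FB13_pp_112 {κ x : ℝ} (hκ : κ * h0 = kenE x) (hx : 39 / 40 ≤ x) (hx' : x < 1) :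
    TriB (DD x).cur (farD κ (h0 * x) (tbl tKF x) (tbl tL x)) 1 1 2 1 3 1 1 :=
  (sideF hx hx').farB (Or.inl rfl) (Or.inl rfl) fun y y' F r1 r2 =>
    farXB_cert (s1 := true) (s2 := true) rfl hκ (ka0 hκ hx hx') (xa0 hx) hx' (covF11 hx hx') (covF32 hx hx') (x1 hx) (x2 hx')
        Pool.Agent.Strip051.G.IE1.Tab.C.FB13.c_pp_112 noCut_VB noExt_VB F r1 r2 r1 r2

theorem FB13_pp_113 {κ x : ℝ} (hκ : κ * h0 = kenE x) (hx : 39 / 40 ≤ x) (hx' : x < 1) :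
    TriB (DD x).cur (farD κ (h0 * x) (tbl tKF x) (tbl tL x)) 1 1 3 1 3 1 1 :=
  (sideF hx hx').farB (Or.inl rfl) (Or.inl rfl) fun y y' F r1 r2 =>
    farXB_cert (s1 := true) (s2 := true) rfl hκ (ka0 hκ hx hx') (xa0 hx) hx' (covF11 hx hx') (covF33 hx hx') (x1 hx) (x2 hx')
        Pool.Agent.Strip051.G.IE1.Tab.C.FB13.c_pp_113 noCut_VB noExt_VB F r1 r2 r1 r2

theorem FB13_pp_123 {κ x : ℝ} (hκ : κ * h0 = kenE x) (hx : 39 / 40 ≤ x) (hx' : x < 1) :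
    TriB (DD x).cur (farD κ (h0 * x) (tbl tKF x) (tbl tL x)) 1 2 3 1 3 1 1 :=
  (sideF hx hx').farB (Or.inl rfl) (Or.inl rfl) fun y y' F r1 r2 =>
    farXB_cert (s1 := true) (s2 := true) rfl hκ (ka0 hκ hx hx') (xa0 hx) hx' (covF11 hx hx') (covF33 hx hx') (x1 hx) (x2 hx')
        Pool.Agent.Strip051.G.IE1.Tab.C.FB13.c_pp_123 noCut_VB noExt_VB F r1 r2 r1 r2

theorem FB13_pp_133 {κ x : ℝ} (hκ : κ * h0 = kenE x) (hx : 39 / 40 ≤ x) (hx' : x < 1) :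
    TriB (DD x).cur (farD κ (h0 * x) (tbl tKF x) (tbl tL x)) 1 3 3 1 3 1 1 :=
  (sideF hx hx').farB (Or.inl rfl) (Or.inl rfl) fun y y' F r1 r2 =>
    farXB_cert (s1 := true) (s2 := true) rfl hκ (ka0 hκ hx hx') (xa0 hx) hx' (covF11 hx hx') (covF33 hx hx') (x1 hx) (x2 hx')
        Pool.Agent.Strip051.G.IE1.Tab.C.FB13.c_pp_133 noCut_VB noExt_VB F r1 r2 r1 r2

theorem FB13_pp_202 {κ x : ℝ} (hκ : κ * h0 = kenE x) (hx : 39 / 40 ≤ x) (hx' : x < 1) :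
    TriB (DD x).cur (farD κ (h0 * x) (tbl tKF x) (tbl tL x)) 2 0 2 1 3 1 1 :=
  (sideF hx hx').farB (Or.inl rfl) (Or.inl rfl) fun y y' F r1 r2 =>
    (lt_or_ge (h0 * y) 1).elim
      (fun h => farXB_cert (s1 := true) (s2 := true) rfl hκ (ka0 hκ hx hx') (xa0 hx) hx' (covF12a hx hx') (covF32 hx hx') (x1 hx) (x2 hx')
        Pool.Agent.Strip051.G.IE1.Tab.C.FB13.c_pp_202_a noCut_VB noExt_VB F r1 r2 ⟨r1, h⟩ r2)
      (fun h => farXB_cert (s1 := true) (s2 := true) rfl hκ (ka0 hκ hx hx') (xa0 hx) hx' (covF12b hx hx') (covF32 hx hx') (x1 hx) (x2 hx')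
        Pool.Agent.Strip051.G.IE1.Tab.C.FB13.c_pp_202_b noCut_VB noExt_VB F r1 r2 ⟨r1, h⟩ r2)

theorem FB13_pp_203 {κ x : ℝ} (hκ : κ * h0 = kenE x) (hx : 39 / 40 ≤ x) (hx' : x < 1) :
    TriB (DD x).cur (farD κ (h0 * x) (tbl tKF x) (tbl tL x)) 2 0 3 1 3 1 1 :=
  (sideF hx hx').farB (Or.inl rfl) (Or.inl rfl) fun y y' F r1 r2 =>
    (lt_or_ge (h0 * y) 1).elim
      (fun h => farXB_cert (s1 := true) (s2 := true) rfl hκ (ka0 hκ hx hx') (xa0 hx) hx' (covF12a hx hx') (covF33 hx hx') (x1 hx) (x2 hx')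
        Pool.Agent.Strip051.G.IE1.Tab.C.FB13.c_pp_203_a noCut_VB noExt_VB F r1 r2 ⟨r1, h⟩ r2)
      (fun h => farXB_cert (s1 := true) (s2 := true) rfl hκ (ka0 hκ hx hx') (xa0 hx) hx' (covF12b hx hx') (covF33 hx hx') (x1 hx) (x2 hx')
        Pool.Agent.Strip051.G.IE1.Tab.C.FB13.c_pp_203_b noCut_VB noExt_VB F r1 r2 ⟨r1, h⟩ r2)

theorem FB13_pp_213 {κ x : ℝ} (hκ : κ * h0 = kenE x) (hx : 39 / 40 ≤ x) (hx' : x < 1) :
    TriB (DD x).cur (farD κ (h0 * x) (tbl tKF x) (tbl tL x)) 2 1 3 1 3 1 1 :=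
  (sideF hx hx').farB (Or.inl rfl) (Or.inl rfl) fun y y' F r1 r2 =>
    (lt_or_ge (h0 * y) 1).elim
      (fun h => farXB_cert (s1 := true) (s2 := true) rfl hκ (ka0 hκ hx hx') (xa0 hx) hx' (covF12a hx hx') (covF33 hx hx') (x1 hx) (x2 hx')
        Pool.Agent.Strip051.G.IE1.Tab.C.FB13.c_pp_213_a noCut_VB noExt_VB F r1 r2 ⟨r1, h⟩ r2)
      (fun h => farXB_cert (s1 := true) (s2 := true) rfl hκ (ka0 hκ hx hx') (xa0 hx) hx' (covF12b hx hx') (covF33 hx hx') (x1 hx) (x2 hx')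
        Pool.Agent.Strip051.G.IE1.Tab.C.FB13.c_pp_213_b noCut_VB noExt_VB F r1 r2 ⟨r1, h⟩ r2)

theorem FB13_pp_303 {κ x : ℝ} (hκ : κ * h0 = kenE x) (hx : 39 / 40 ≤ x) (hx' : x < 1) :
    TriB (DD x).cur (farD κ (h0 * x) (tbl tKF x) (tbl tL x)) 3 0 3 1 3 1 1 :=
  (sideF hx hx').farB (Or.inl rfl) (Or.inl rfl) fun y y' F r1 r2 =>
    farXB_cert (s1 := true) (s2 := true) rfl hκ (ka0 hκ hx hx') (xa0 hx) hx' (covF13 hx hx') (covF33 hx hx') (x1 hx) (x2 hx')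
        Pool.Agent.Strip051.G.IE1.Tab.C.FB13.c_pp_303 noCut_VB noExt_VB F r1 r2 r1 r2

theorem FB13_pp_313 {κ x : ℝ} (hκ : κ * h0 = kenE x) (hx : 39 / 40 ≤ x) (hx' : x < 1) :
    TriB (DD x).cur (farD κ (h0 * x) (tbl tKF x) (tbl tL x)) 3 1 3 1 3 1 1 :=
  (sideF hx hx').farB (Or.inl rfl) (Or.inl rfl) fun y y' F r1 r2 =>
    farXB_cert (s1 := true) (s2 := true) rfl hκ (ka0 hκ hx hx') (xa0 hx) hx' (covF13 hx hx') (covF33 hx hx') (x1 hx) (x2 hx')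
        Pool.Agent.Strip051.G.IE1.Tab.C.FB13.c_pp_313 noCut_VB noExt_VB F r1 r2 r1 r2

theorem FB13_pm_001 {κ x : ℝ} (hκ : κ * h0 = kenE x) (hx : 39 / 40 ≤ x) (hx' : x < 1) :
    TriB (DD x).cur (farD κ (h0 * x) (tbl tKF x) (tbl tL x)) 0 0 1 1 3 1 (-1) :=
  (sideF hx hx').farB (Or.inl rfl) (Or.inr rfl) fun y y' F r1 r2 =>
    farXB_cert (s1 := true) (s2 := false) rfl hκ (ka0 hκ hx hx') (xa0 hx) hx' (covF10 hx hx') (covF31 hx hx') (x1 hx) (x2 hx')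
        Pool.Agent.Strip051.G.IE1.Tab.C.FB13.c_pm_001 noCut_VB noExt_VB F r1 r2 r1 r2

theorem FB13_pm_011 {κ x : ℝ} (hκ : κ * h0 = kenE x) (hx : 39 / 40 ≤ x) (hx' : x < 1) :
    TriB (DD x).cur (farD κ (h0 * x) (tbl tKF x) (tbl tL x)) 0 1 1 1 3 1 (-1) :=
  (sideF hx hx').farB (Or.inl rfl) (Or.inr rfl) fun y y' F r1 r2 =>
    farXB_cert (s1 := true) (s2 := false) rfl hκ (ka0 hκ hx hx') (xa0 hx) hx' (covF10 hx hx') (covF31 hx hx') (x1 hx) (x2 hx')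
        Pool.Agent.Strip051.G.IE1.Tab.C.FB13.c_pm_011 noCut_VB noExt_VB F r1 r2 r1 r2

theorem FB13_pm_012 {κ x : ℝ} (hκ : κ * h0 = kenE x) (hx : 39 / 40 ≤ x) (hx' : x < 1) :
    TriB (DD x).cur (farD κ (h0 * x) (tbl tKF x) (tbl tL x)) 0 1 2 1 3 1 (-1) :=
  (sideF hx hx').farB (Or.inl rfl) (Or.inr rfl) fun y y' F r1 r2 =>
    farXB_cert (s1 := true) (s2 := false) rfl hκ (ka0 hκ hx hx') (xa0 hx) hx' (covF10 hx hx') (covF32 hx hx') (x1 hx) (x2 hx')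
        Pool.Agent.Strip051.G.IE1.Tab.C.FB13.c_pm_012 noCut_VB noExt_VB F r1 r2 r1 r2

theorem FB13_pm_022 {κ x : ℝ} (hκ : κ * h0 = kenE x) (hx : 39 / 40 ≤ x) (hx' : x < 1) :
    TriB (DD x).cur (farD κ (h0 * x) (tbl tKF x) (tbl tL x)) 0 2 2 1 3 1 (-1) :=
  (sideF hx hx').farB (Or.inl rfl) (Or.inr rfl) fun y y' F r1 r2 =>
    farXB_cert (s1 := true) (s2 := false) rfl hκ (ka0 hκ hx hx') (xa0 hx) hx' (covF10 hx hx') (covF32 hx hx') (x1 hx) (x2 hx')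
        Pool.Agent.Strip051.G.IE1.Tab.C.FB13.c_pm_022 noCut_VB noExt_VB F r1 r2 r1 r2

theorem FB13_pm_023 {κ x : ℝ} (hκ : κ * h0 = kenE x) (hx : 39 / 40 ≤ x) (hx' : x < 1) :
    TriB (DD x).cur (farD κ (h0 * x) (tbl tKF x) (tbl tL x)) 0 2 3 1 3 1 (-1) :=
  (sideF hx hx').farB (Or.inl rfl) (Or.inr rfl) fun y y' F r1 r2 =>
    farXB_cert (s1 := true) (s2 := false) rfl hκ (ka0 hκ hx hx') (xa0 hx) hx' (covF10 hx hx') (covF33 hx hx') (x1 hx) (x2 hx')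
        Pool.Agent.Strip051.G.IE1.Tab.C.FB13.c_pm_023 noCut_VB noExt_VB F r1 r2 r1 r2

theorem FB13_pm_033 {κ x : ℝ} (hκ : κ * h0 = kenE x) (hx : 39 / 40 ≤ x) (hx' : x < 1) :
    TriB (DD x).cur (farD κ (h0 * x) (tbl tKF x) (tbl tL x)) 0 3 3 1 3 1 (-1) :=
  (sideF hx hx').farB (Or.inl rfl) (Or.inr rfl) fun y y' F r1 r2 =>
    farXB_cert (s1 := true) (s2 := false) rfl hκ (ka0 hκ hx hx') (xa0 hx) hx' (covF10 hx hx') (covF33 hx hx') (x1 hx) (x2 hx')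
        Pool.Agent.Strip051.G.IE1.Tab.C.FB13.c_pm_033 noCut_VB noExt_VB F r1 r2 r1 r2

theorem FB13_pm_101 {κ x : ℝ} (hκ : κ * h0 = kenE x) (hx : 39 / 40 ≤ x) (hx' : x < 1) :
    TriB (DD x).cur (farD κ (h0 * x) (tbl tKF x) (tbl tL x)) 1 0 1 1 3 1 (-1) :=
  (sideF hx hx').farB (Or.inl rfl) (Or.inr rfl) fun y y' F r1 r2 =>
    farXB_cert (s1 := true) (s2 := false) rfl hκ (ka0 hκ hx hx') (xa0 hx) hx' (covF11 hx hx') (covF31 hx hx') (x1 hx) (x2 hx')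
        Pool.Agent.Strip051.G.IE1.Tab.C.FB13.c_pm_101 noCut_VB noExt_VB F r1 r2 r1 r2

theorem FB13_pm_102 {κ x : ℝ} (hκ : κ * h0 = kenE x) (hx : 39 / 40 ≤ x) (hx' : x < 1) :
    TriB (DD x).cur (farD κ (h0 * x) (tbl tKF x) (tbl tL x)) 1 0 2 1 3 1 (-1) :=
  (sideF hx hx').farB (Or.inl rfl) (Or.inr rfl) fun y y' F r1 r2 =>
    farXB_cert (s1 := true) (s2 := false) rfl hκ (ka0 hκ hx hx') (xa0 hx) hx' (covF11 hx hx') (covF32 hx hx') (x1 hx) (x2 hx')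
        Pool.Agent.Strip051.G.IE1.Tab.C.FB13.c_pm_102 noCut_VB noExt_VB F r1 r2 r1 r2

theorem FB13_pm_112 {κ x : ℝ} (hκ : κ * h0 = kenE x) (hx : 39 / 40 ≤ x) (hx' : x < 1) :
    TriB (DD x).cur (farD κ (h0 * x) (tbl tKF x) (tbl tL x)) 1 1 2 1 3 1 (-1) :=
  (sideF hx hx').farB (Or.inl rfl) (Or.inr rfl) fun y y' F r1 r2 =>
    farXB_cert (s1 := true) (s2 := false) rfl hκ (ka0 hκ hx hx') (xa0 hx) hx' (covF11 hx hx') (covF32 hx hx') (x1 hx) (x2 hx')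
        Pool.Agent.Strip051.G.IE1.Tab.C.FB13.c_pm_112 noCut_VB noExt_VB F r1 r2 r1 r2

theorem FB13_pm_113 {κ x : ℝ} (hκ : κ * h0 = kenE x) (hx : 39 / 40 ≤ x) (hx' : x < 1) :
    TriB (DD x).cur (farD κ (h0 * x) (tbl tKF x) (tbl tL x)) 1 1 3 1 3 1 (-1) :=
  (sideF hx hx').farB (Or.inl rfl) (Or.inr rfl) fun y y' F r1 r2 =>
    farXB_cert (s1 := true) (s2 := false) rfl hκ (ka0 hκ hx hx') (xa0 hx) hx' (covF11 hx hx') (covF33 hx hx') (x1 hx) (x2 hx')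
        Pool.Agent.Strip051.G.IE1.Tab.C.FB13.c_pm_113 noCut_VB noExt_VB F r1 r2 r1 r2

theorem FB13_pm_123 {κ x : ℝ} (hκ : κ * h0 = kenE x) (hx : 39 / 40 ≤ x) (hx' : x < 1) :
    TriB (DD x).cur (farD κ (h0 * x) (tbl tKF x) (tbl tL x)) 1 2 3 1 3 1 (-1) :=
  (sideF hx hx').farB (Or.inl rfl) (Or.inr rfl) fun y y' F r1 r2 =>
    farXB_cert (s1 := true) (s2 := false) rfl hκ (ka0 hκ hx hx') (xa0 hx) hx' (covF11 hx hx') (covF33 hx hx') (x1 hx) (x2 hx')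
        Pool.Agent.Strip051.G.IE1.Tab.C.FB13.c_pm_123 noCut_VB noExt_VB F r1 r2 r1 r2

theorem FB13_pm_133 {κ x : ℝ} (hκ : κ * h0 = kenE x) (hx : 39 / 40 ≤ x) (hx' : x < 1) :
    TriB (DD x).cur (farD κ (h0 * x) (tbl tKF x) (tbl tL x)) 1 3 3 1 3 1 (-1) :=
  (sideF hx hx').farB (Or.inl rfl) (Or.inr rfl) fun y y' F r1 r2 =>
    farXB_cert (s1 := true) (s2 := false) rfl hκ (ka0 hκ hx hx') (xa0 hx) hx' (covF11 hx hx') (covF33 hx hx') (x1 hx) (x2 hx')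
        Pool.Agent.Strip051.G.IE1.Tab.C.FB13.c_pm_133 noCut_VB noExt_VB F r1 r2 r1 r2

theorem FB13_pm_202 {κ x : ℝ} (hκ : κ * h0 = kenE x) (hx : 39 / 40 ≤ x) (hx' : x < 1) :
    TriB (DD x).cur (farD κ (h0 * x) (tbl tKF x) (tbl tL x)) 2 0 2 1 3 1 (-1) :=
  (sideF hx hx').farB (Or.inl rfl) (Or.inr rfl) fun y y' F r1 r2 =>
    (lt_or_ge (h0 * y) 1).elim
      (fun h => farXB_cert (s1 := true) (s2 := false) rfl hκ (ka0 hκ hx hx') (xa0 hx) hx' (covF12a hx hx') (covF32 hx hx') (x1 hx) (x2 hx')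
        Pool.Agent.Strip051.G.IE1.Tab.C.FB13.c_pm_202_a noCut_VB noExt_VB F r1 r2 ⟨r1, h⟩ r2)
      (fun h => farXB_cert (s1 := true) (s2 := false) rfl hκ (ka0 hκ hx hx') (xa0 hx) hx' (covF12b hx hx') (covF32 hx hx') (x1 hx) (x2 hx')
        Pool.Agent.Strip051.G.IE1.Tab.C.FB13.c_pm_202_b noCut_VB noExt_VB F r1 r2 ⟨r1, h⟩ r2)

theorem FB13_pm_203 {κ x : ℝ} (hκ : κ * h0 = kenE x) (hx : 39 / 40 ≤ x) (hx' : x < 1) :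
    TriB (DD x).cur (farD κ (h0 * x) (tbl tKF x) (tbl tL x)) 2 0 3 1 3 1 (-1) :=
  (sideF hx hx').farB (Or.inl rfl) (Or.inr rfl) fun y y' F r1 r2 =>
    (lt_or_ge (h0 * y) 1).elim
      (fun h => farXB_cert (s1 := true) (s2 := false) rfl hκ (ka0 hκ hx hx') (xa0 hx) hx' (covF12a hx hx') (covF33 hx hx') (x1 hx) (x2 hx')
        Pool.Agent.Strip051.G.IE1.Tab.C.FB13.c_pm_203_a noCut_VB noExt_VB F r1 r2 ⟨r1, h⟩ r2)
      (fun h => farXB_cert (s1 := true) (s2 := false) rfl hκ (ka0 hκ hx hx') (xa0 hx) hx' (covF12b hx hx') (covF33 hx hx') (x1 hx) (x2 hx')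
        Pool.Agent.Strip051.G.IE1.Tab.C.FB13.c_pm_203_b noCut_VB noExt_VB F r1 r2 ⟨r1, h⟩ r2)

theorem FB13_pm_213 {κ x : ℝ} (hκ : κ * h0 = kenE x) (hx : 39 / 40 ≤ x) (hx' : x < 1) :
    TriB (DD x).cur (farD κ (h0 * x) (tbl tKF x) (tbl tL x)) 2 1 3 1 3 1 (-1) :=
  (sideF hx hx').farB (Or.inl rfl) (Or.inr rfl) fun y y' F r1 r2 =>
    (lt_or_ge (h0 * y) 1).elim
      (fun h => farXB_cert (s1 := true) (s2 := false) rfl hκ (ka0 hκ hx hx') (xa0 hx) hx' (covF12a hx hx') (covF33 hx hx') (x1 hx) (x2 hx')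
        Pool.Agent.Strip051.G.IE1.Tab.C.FB13.c_pm_213_a noCut_VB noExt_VB F r1 r2 ⟨r1, h⟩ r2)
      (fun h => farXB_cert (s1 := true) (s2 := false) rfl hκ (ka0 hκ hx hx') (xa0 hx) hx' (covF12b hx hx') (covF33 hx hx') (x1 hx) (x2 hx')
        Pool.Agent.Strip051.G.IE1.Tab.C.FB13.c_pm_213_b noCut_VB noExt_VB F r1 r2 ⟨r1, h⟩ r2)

theorem FB13_pm_303 {κ x : ℝ} (hκ : κ * h0 = kenE x) (hx : 39 / 40 ≤ x) (hx' : x < 1) :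
    TriB (DD x).cur (farD κ (h0 * x) (tbl tKF x) (tbl tL x)) 3 0 3 1 3 1 (-1) :=
  (sideF hx hx').farB (Or.inl rfl) (Or.inr rfl) fun y y' F r1 r2 =>
    farXB_cert (s1 := true) (s2 := false) rfl hκ (ka0 hκ hx hx') (xa0 hx) hx' (covF13 hx hx') (covF33 hx hx') (x1 hx) (x2 hx')
        Pool.Agent.Strip051.G.IE1.Tab.C.FB13.c_pm_303 noCut_VB noExt_VB F r1 r2 r1 r2

theorem FB13_pm_313 {κ x : ℝ} (hκ : κ * h0 = kenE x) (hx : 39 / 40 ≤ x) (hx' : x < 1) :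
    TriB (DD x).cur (farD κ (h0 * x) (tbl tKF x) (tbl tL x)) 3 1 3 1 3 1 (-1) :=
  (sideF hx hx').farB (Or.inl rfl) (Or.inr rfl) fun y y' F r1 r2 =>
    farXB_cert (s1 := true) (s2 := false) rfl hκ (ka0 hκ hx hx') (xa0 hx) hx' (covF13 hx hx') (covF33 hx hx') (x1 hx) (x2 hx')
        Pool.Agent.Strip051.G.IE1.Tab.C.FB13.c_pm_313 noCut_VB noExt_VB F r1 r2 r1 r2

theorem FB13_mm_001 {κ x : ℝ} (hκ : κ * h0 = kenE x) (hx : 39 / 40 ≤ x) (hx' : x < 1) :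
    TriB (DD x).cur (farD κ (h0 * x) (tbl tKF x) (tbl tL x)) 0 0 1 1 3 (-1) (-1) :=
  (sideF hx hx').farB (Or.inr rfl) (Or.inr rfl) fun y y' F r1 r2 =>
    farXB_cert (s1 := false) (s2 := false) rfl hκ (ka0 hκ hx hx') (xa0 hx) hx' (covF10 hx hx') (covF31 hx hx') (x1 hx) (x2 hx')
        Pool.Agent.Strip051.G.IE1.Tab.C.FB13.c_mm_001 noCut_VB noExt_VB F r1 r2 r1 r2

theorem FB13_mm_011 {κ x : ℝ} (hκ : κ * h0 = kenE x) (hx : 39 / 40 ≤ x) (hx' : x < 1) :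
    TriB (DD x).cur (farD κ (h0 * x) (tbl tKF x) (tbl tL x)) 0 1 1 1 3 (-1) (-1) :=
  (sideF hx hx').farB (Or.inr rfl) (Or.inr rfl) fun y y' F r1 r2 =>
    farXB_cert (s1 := false) (s2 := false) rfl hκ (ka0 hκ hx hx') (xa0 hx) hx' (covF10 hx hx') (covF31 hx hx') (x1 hx) (x2 hx')
        Pool.Agent.Strip051.G.IE1.Tab.C.FB13.c_mm_011 noCut_VB noExt_VB F r1 r2 r1 r2

theorem FB13_mm_012 {κ x : ℝ} (hκ : κ * h0 = kenE x) (hx : 39 / 40 ≤ x) (hx' : x < 1) :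
    TriB (DD x).cur (farD κ (h0 * x) (tbl tKF x) (tbl tL x)) 0 1 2 1 3 (-1) (-1) :=
  (sideF hx hx').farB (Or.inr rfl) (Or.inr rfl) fun y y' F r1 r2 =>
    farXB_cert (s1 := false) (s2 := false) rfl hκ (ka0 hκ hx hx') (xa0 hx) hx' (covF10 hx hx') (covF32 hx hx') (x1 hx) (x2 hx')
        Pool.Agent.Strip051.G.IE1.Tab.C.FB13.c_mm_012 noCut_VB noExt_VB F r1 r2 r1 r2

theorem FB13_mm_022 {κ x : ℝ} (hκ : κ * h0 = kenE x) (hx : 39 / 40 ≤ x) (hx' : x < 1) :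
    TriB (DD x).cur (farD κ (h0 * x) (tbl tKF x) (tbl tL x)) 0 2 2 1 3 (-1) (-1) :=
  (sideF hx hx').farB (Or.inr rfl) (Or.inr rfl) fun y y' F r1 r2 =>
    farXB_cert (s1 := false) (s2 := false) rfl hκ (ka0 hκ hx hx') (xa0 hx) hx' (covF10 hx hx') (covF32 hx hx') (x1 hx) (x2 hx')
        Pool.Agent.Strip051.G.IE1.Tab.C.FB13.c_mm_022 noCut_VB noExt_VB F r1 r2 r1 r2

theorem FB13_mm_023 {κ x : ℝ} (hκ : κ * h0 = kenE x) (hx : 39 / 40 ≤ x) (hx' : x < 1) :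
    TriB (DD x).cur (farD κ (h0 * x) (tbl tKF x) (tbl tL x)) 0 2 3 1 3 (-1) (-1) :=
  (sideF hx hx').farB (Or.inr rfl) (Or.inr rfl) fun y y' F r1 r2 =>
    farXB_cert (s1 := false) (s2 := false) rfl hκ (ka0 hκ hx hx') (xa0 hx) hx' (covF10 hx hx') (covF33 hx hx') (x1 hx) (x2 hx')
        Pool.Agent.Strip051.G.IE1.Tab.C.FB13.c_mm_023 noCut_VB noExt_VB F r1 r2 r1 r2

theorem FB13_mm_033 {κ x : ℝ} (hκ : κ * h0 = kenE x) (hx : 39 / 40 ≤ x) (hx' : x < 1) :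
    TriB (DD x).cur (farD κ (h0 * x) (tbl tKF x) (tbl tL x)) 0 3 3 1 3 (-1) (-1) :=
  (sideF hx hx').farB (Or.inr rfl) (Or.inr rfl) fun y y' F r1 r2 =>
    farXB_cert (s1 := false) (s2 := false) rfl hκ (ka0 hκ hx hx') (xa0 hx) hx' (covF10 hx hx') (covF33 hx hx') (x1 hx) (x2 hx')
        Pool.Agent.Strip051.G.IE1.Tab.C.FB13.c_mm_033 noCut_VB noExt_VB F r1 r2 r1 r2

theorem FB13_mm_101 {κ x : ℝ} (hκ : κ * h0 = kenE x) (hx : 39 / 40 ≤ x) (hx' : x < 1) :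
    TriB (DD x).cur (farD κ (h0 * x) (tbl tKF x) (tbl tL x)) 1 0 1 1 3 (-1) (-1) :=
  (sideF hx hx').farB (Or.inr rfl) (Or.inr rfl) fun y y' F r1 r2 =>
    farXB_cert (s1 := false) (s2 := false) rfl hκ (ka0 hκ hx hx') (xa0 hx) hx' (covF11 hx hx') (covF31 hx hx') (x1 hx) (x2 hx')
        Pool.Agent.Strip051.G.IE1.Tab.C.FB13.c_mm_101 noCut_VB noExt_VB F r1 r2 r1 r2

theorem FB13_mm_102 {κ x : ℝ} (hκ : κ * h0 = kenE x) (hx : 39 / 40 ≤ x) (hx' : x < 1) :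
    TriB (DD x).cur (farD κ (h0 * x) (tbl tKF x) (tbl tL x)) 1 0 2 1 3 (-1) (-1) :=
  (sideF hx hx').farB (Or.inr rfl) (Or.inr rfl) fun y y' F r1 r2 =>
    farXB_cert (s1 := false) (s2 := false) rfl hκ (ka0 hκ hx hx') (xa0 hx) hx' (covF11 hx hx') (covF32 hx hx') (x1 hx) (x2 hx')
        Pool.Agent.Strip051.G.IE1.Tab.C.FB13.c_mm_102 noCut_VB noExt_VB F r1 r2 r1 r2

theorem FB13_mm_112 {κ x : ℝ} (hκ : κ * h0 = kenE x) (hx : 39 / 40 ≤ x) (hx' : x < 1) :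
    TriB (DD x).cur (farD κ (h0 * x) (tbl tKF x) (tbl tL x)) 1 1 2 1 3 (-1) (-1) :=
  (sideF hx hx').farB (Or.inr rfl) (Or.inr rfl) fun y y' F r1 r2 =>
    farXB_cert (s1 := false) (s2 := false) rfl hκ (ka0 hκ hx hx') (xa0 hx) hx' (covF11 hx hx') (covF32 hx hx') (x1 hx) (x2 hx')
        Pool.Agent.Strip051.G.IE1.Tab.C.FB13.c_mm_112 noCut_VB noExt_VB F r1 r2 r1 r2

theorem FB13_mm_113 {κ x : ℝ} (hκ : κ * h0 = kenE x) (hx : 39 / 40 ≤ x) (hx' : x < 1) :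
    TriB (DD x).cur (farD κ (h0 * x) (tbl tKF x) (tbl tL x)) 1 1 3 1 3 (-1) (-1) :=
  (sideF hx hx').farB (Or.inr rfl) (Or.inr rfl) fun y y' F r1 r2 =>
    farXB_cert (s1 := false) (s2 := false) rfl hκ (ka0 hκ hx hx') (xa0 hx) hx' (covF11 hx hx') (covF33 hx hx') (x1 hx) (x2 hx')
        Pool.Agent.Strip051.G.IE1.Tab.C.FB13.c_mm_113 noCut_VB noExt_VB F r1 r2 r1 r2

theorem FB13_mm_123 {κ x : ℝ} (hκ : κ * h0 = kenE x) (hx : 39 / 40 ≤ x) (hx' : x < 1) :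
    TriB (DD x).cur (farD κ (h0 * x) (tbl tKF x) (tbl tL x)) 1 2 3 1 3 (-1) (-1) :=
  (sideF hx hx').farB (Or.inr rfl) (Or.inr rfl) fun y y' F r1 r2 =>
    farXB_cert (s1 := false) (s2 := false) rfl hκ (ka0 hκ hx hx') (xa0 hx) hx' (covF11 hx hx') (covF33 hx hx') (x1 hx) (x2 hx')
        Pool.Agent.Strip051.G.IE1.Tab.C.FB13.c_mm_123 noCut_VB noExt_VB F r1 r2 r1 r2

theorem FB13_mm_133 {κ x : ℝ} (hκ : κ * h0 = kenE x) (hx : 39 / 40 ≤ x) (hx' : x < 1) :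
    TriB (DD x).cur (farD κ (h0 * x) (tbl tKF x) (tbl tL x)) 1 3 3 1 3 (-1) (-1) :=
  (sideF hx hx').farB (Or.inr rfl) (Or.inr rfl) fun y y' F r1 r2 =>
    farXB_cert (s1 := false) (s2 := false) rfl hκ (ka0 hκ hx hx') (xa0 hx) hx' (covF11 hx hx') (covF33 hx hx') (x1 hx) (x2 hx')
        Pool.Agent.Strip051.G.IE1.Tab.C.FB13.c_mm_133 noCut_VB noExt_VB F r1 r2 r1 r2

theorem FB13_mm_202 {κ x : ℝ} (hκ : κ * h0 = kenE x) (hx : 39 / 40 ≤ x) (hx' : x < 1) :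
    TriB (DD x).cur (farD κ (h0 * x) (tbl tKF x) (tbl tL x)) 2 0 2 1 3 (-1) (-1) :=
  (sideF hx hx').farB (Or.inr rfl) (Or.inr rfl) fun y y' F r1 r2 =>
    (lt_or_ge (h0 * y) 1).elim
      (fun h => farXB_cert (s1 := false) (s2 := false) rfl hκ (ka0 hκ hx hx') (xa0 hx) hx' (covF12a hx hx') (covF32 hx hx') (x1 hx) (x2 hx')
        Pool.Agent.Strip051.G.IE1.Tab.C.FB13.c_mm_202_a noCut_VB noExt_VB F r1 r2 ⟨r1, h⟩ r2)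
      (fun h => farXB_cert (s1 := false) (s2 := false) rfl hκ (ka0 hκ hx hx') (xa0 hx) hx' (covF12b hx hx') (covF32 hx hx') (x1 hx) (x2 hx')
        Pool.Agent.Strip051.G.IE1.Tab.C.FB13.c_mm_202_b noCut_VB noExt_VB F r1 r2 ⟨r1, h⟩ r2)

theorem FB13_mm_203 {κ x : ℝ} (hκ : κ * h0 = kenE x) (hx : 39 / 40 ≤ x) (hx' : x < 1) :
    TriB (DD x).cur (farD κ (h0 * x) (tbl tKF x) (tbl tL x)) 2 0 3 1 3 (-1) (-1) :=
  (sideF hx hx').farB (Or.inr rfl) (Or.inr rfl) fun y y' F r1 r2 =>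
    (lt_or_ge (h0 * y) 1).elim
      (fun h => farXB_cert (s1 := false) (s2 := false) rfl hκ (ka0 hκ hx hx') (xa0 hx) hx' (covF12a hx hx') (covF33 hx hx') (x1 hx) (x2 hx')
        Pool.Agent.Strip051.G.IE1.Tab.C.FB13.c_mm_203_a noCut_VB noExt_VB F r1 r2 ⟨r1, h⟩ r2)
      (fun h => farXB_cert (s1 := false) (s2 := false) rfl hκ (ka0 hκ hx hx') (xa0 hx) hx' (covF12b hx hx') (covF33 hx hx') (x1 hx) (x2 hx')
        Pool.Agent.Strip051.G.IE1.Tab.C.FB13.c_mm_203_b noCut_VB noExt_VB F r1 r2 ⟨r1, h⟩ r2)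

theorem FB13_mm_213 {κ x : ℝ} (hκ : κ * h0 = kenE x) (hx : 39 / 40 ≤ x) (hx' : x < 1) :
    TriB (DD x).cur (farD κ (h0 * x) (tbl tKF x) (tbl tL x)) 2 1 3 1 3 (-1) (-1) :=
  (sideF hx hx').farB (Or.inr rfl) (Or.inr rfl) fun y y' F r1 r2 =>
    (lt_or_ge (h0 * y) 1).elim
      (fun h => farXB_cert (s1 := false) (s2 := false) rfl hκ (ka0 hκ hx hx') (xa0 hx) hx' (covF12a hx hx') (covF33 hx hx') (x1 hx) (x2 hx')
        Pool.Agent.Strip051.G.IE1.Tab.C.FB13.c_mm_213_a noCut_VB noExt_VB F r1 r2 ⟨r1, h⟩ r2)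
      (fun h => farXB_cert (s1 := false) (s2 := false) rfl hκ (ka0 hκ hx hx') (xa0 hx) hx' (covF12b hx hx') (covF33 hx hx') (x1 hx) (x2 hx')
        Pool.Agent.Strip051.G.IE1.Tab.C.FB13.c_mm_213_b noCut_VB noExt_VB F r1 r2 ⟨r1, h⟩ r2)

theorem FB13_mm_303 {κ x : ℝ} (hκ : κ * h0 = kenE x) (hx : 39 / 40 ≤ x) (hx' : x < 1) :
    TriB (DD x).cur (farD κ (h0 * x) (tbl tKF x) (tbl tL x)) 3 0 3 1 3 (-1) (-1) :=
  (sideF hx hx').farB (Or.inr rfl) (Or.inr rfl) fun y y' F r1 r2 =>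
    farXB_cert (s1 := false) (s2 := false) rfl hκ (ka0 hκ hx hx') (xa0 hx) hx' (covF13 hx hx') (covF33 hx hx') (x1 hx) (x2 hx')
        Pool.Agent.Strip051.G.IE1.Tab.C.FB13.c_mm_303 noCut_VB noExt_VB F r1 r2 r1 r2

theorem FB13_mm_313 {κ x : ℝ} (hκ : κ * h0 = kenE x) (hx : 39 / 40 ≤ x) (hx' : x < 1) :
    TriB (DD x).cur (farD κ (h0 * x) (tbl tKF x) (tbl tL x)) 3 1 3 1 3 (-1) (-1) :=
  (sideF hx hx').farB (Or.inr rfl) (Or.inr rfl) fun y y' F r1 r2 =>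
    farXB_cert (s1 := false) (s2 := false) rfl hκ (ka0 hκ hx hx') (xa0 hx) hx' (covF13 hx hx') (covF33 hx hx') (x1 hx) (x2 hx')
        Pool.Agent.Strip051.G.IE1.Tab.C.FB13.c_mm_313 noCut_VB noExt_VB F r1 r2 r1 r2

theorem FB13 {κ x : ℝ} (hκ : κ * h0 = kenE x) (hx : 39 / 40 ≤ x) (hx' : x < 1) : AllTB (DD x).cur (farD κ (h0 * x) (tbl tKF x) (tbl tL x)) 1 3 where
  pp := all17 (Q := fun a b c => TriB (DD x).cur (farD κ (h0 * x) (tbl tKF x) (tbl tL x)) a b c 1 3 1 1)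
    (FB13_pp_001 hκ hx hx') (FB13_pp_011 hκ hx hx') (FB13_pp_012 hκ hx hx') (FB13_pp_022 hκ hx hx') (FB13_pp_023 hκ hx hx') (FB13_pp_033 hκ hx hx') (FB13_pp_101 hκ hx hx') (FB13_pp_102 hκ hx hx') (FB13_pp_112 hκ hx hx') (FB13_pp_113 hκ hx hx') (FB13_pp_123 hκ hx hx') (FB13_pp_133 hκ hx hx') (FB13_pp_202 hκ hx hx') (FB13_pp_203 hκ hx hx') (FB13_pp_213 hκ hx hx') (FB13_pp_303 hκ hx hx') (FB13_pp_313 hκ hx hx')
  pm := all17 (Q := fun a b c => TriB (DD x).cur (farD κ (h0 * x) (tbl tKF x) (tbl tL x)) a b c 1 3 1 (-1))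
    (FB13_pm_001 hκ hx hx') (FB13_pm_011 hκ hx hx') (FB13_pm_012 hκ hx hx') (FB13_pm_022 hκ hx hx') (FB13_pm_023 hκ hx hx') (FB13_pm_033 hκ hx hx') (FB13_pm_101 hκ hx hx') (FB13_pm_102 hκ hx hx') (FB13_pm_112 hκ hx hx') (FB13_pm_113 hκ hx hx') (FB13_pm_123 hκ hx hx') (FB13_pm_133 hκ hx hx') (FB13_pm_202 hκ hx hx') (FB13_pm_203 hκ hx hx') (FB13_pm_213 hκ hx hx') (FB13_pm_303 hκ hx hx') (FB13_pm_313 hκ hx hx')
  mm := all17 (Q := fun a b c => TriB (DD x).cur (farD κ (h0 * x) (tbl tKF x) (tbl tL x)) a b c 1 3 (-1) (-1))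
    (FB13_mm_001 hκ hx hx') (FB13_mm_011 hκ hx hx') (FB13_mm_012 hκ hx hx') (FB13_mm_022 hκ hx hx') (FB13_mm_023 hκ hx hx') (FB13_mm_033 hκ hx hx') (FB13_mm_101 hκ hx hx') (FB13_mm_102 hκ hx hx') (FB13_mm_112 hκ hx hx') (FB13_mm_113 hκ hx hx') (FB13_mm_123 hκ hx hx') (FB13_mm_133 hκ hx hx') (FB13_mm_202 hκ hx hx') (FB13_mm_203 hκ hx hx') (FB13_mm_213 hκ hx hx') (FB13_mm_303 hκ hx hx') (FB13_mm_313 hκ hx hx')

end Pool.Agent.Strip051.G.IE1.Tab
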