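import Pool.Agent.Strip051.G.IE1.Tab

/-! # Certificates F58 (generated) -/

set_option linter.all false
set_option maxRecDepth 100000

namespace Pool.Agent.Strip051.G.IE1.Tab.C.FB73

open Pool.Agent.Strip051.PB Pool.Agent.Strip051.PB.T
open Pool.Agent.Strip051.G.IE1.Tab

noncomputable def f_pp_203 : ℕ → ℕ → ℕ → ℕ → Bool := onCell 1073741824 536870912 0 536870912 1046898278 26843546
    (rowFX 1 false true true .up 2 0 3 (qsf 1073741824 536870912 1610612736 536870912 0) ndF7q2 ndF3q3 pcF0 Cut.none Ext.none)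

def k0_pp_203 : ∃ t, chk3 f_pp_203 t 1 1 1 = true :=
  ⟨(a (b (a (l 1) (a (l 1) (a (l 1) (l 3)))) (a (a (b (l 1) (c (l 391406454711) (a (l 13836088) (l 14157040)))) (a (b (l 1) (c (l 14506136) (l 14472520))) (b (b (l 1) (c (l 14837472) (l 14787088))) (l 14812280)))) (b (c (a (b (l 15298296) (l 15235384)) (b (l 15806816) (l 15974584))) (b (a (l 277592450103) (b (l 15953736) (l 15953736))) (a (b (l 15345952) (l 15345952)) (l 15911792)))) (b (c (a (l 15277328) (l 15953616)) (a (b (l 15345952) (l 15345952)) (l 15744024))) (a (l 15364072) (l 15964160)))))) (a (b (l 3) (b (c (a (b (l 16363528) (l 16447416)) (b (l 16767656) (l 16767656))) (a (b (l 71570466439) (l 16397448)) (b (l 16767408) (l 16767408)))) (b (a (c (l 16426440) (l 16376480)) (b (l 16746560) (l 16767520))) (a (l 16464368) (l 16767488))))) (b (l 3) (b (c (b (l 16777208) (l 16777176)) (b (l 115058147159) (l 16777176))) (b (c (a (l 16777168) (l 16748800)) (a (l 16777168) (l 16748064))) (a (l 16748168) (l 16732456))))))),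 by decide +kernel⟩

theorem c_pp_203 : CertFX 1073741824 536870912 1610612736 536870912 1046898278 26843546 false true true .up 2 0 3
    ndF7q2 ndF3q3 pcF0 Cut.none Ext.none :=
  certFX1 (fam := false) (s1 := true) (s2 := true) (a := 2) (b := 0) (c := 3) (cn := .up) (n1 := ndF7q2) (n2 := ndF3q3) (pc := pcF0) (cut := Cut.none) (xt := Ext.none) (P1 := 1073741824) (W1 := 536870912) (P2 := 1610612736) (W2 := 536870912) (P3 := 1046898278) (W3 := 26843546)
    rfl (fun _ => rfl) k0_pp_203

noncomputable def f_pp_213 : ℕ → ℕ → ℕ → ℕ → Bool := onCell 1073741824 536870912 1610612736 536870912 1046898278 26843546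
    (rowFX 0 false true true .pnn 2 1 3 (qsf 1073741824 536870912 1610612736 536870912 1) ndF7q2 ndF3q3 pcF1 Cut.none Ext.none)

def k0_pp_213 : ∃ t, chk3 f_pp_213 t 1 1 1 = true :=
  ⟨(a (b (a (a (b (c (l 468715866039) (a (l 13836088) (l 14157040))) (b (c (l 14031584) (l 14018360)) (c (l 14031584) (l 14018360)))) (b (a (l 433283300919) (l 14665480)) (c (l 14481872) (l 14632392)))) (a (a (b (b (l 1) (l 15185752)) (l 15185752)) (b (l 1) (l 15535624))) (b (l 1) (a (l 15826872) (b (l 1) (l 16095648)))))) (a (b (a (b (l 14034440) (a (l 13855576) (l 14194440))) (b (l 14640592) (l 14640768))) (b (a (a (b (l 13687424) (l 13484208)) (b (l 14179816) (l 14131528))) (a (l 14468432) (l 14789376))) (a (b (a (l 14195416) (l 14343264)) (a (a (a (c (l 16441096) (l 14576184)) (l 15072544)) (l 14795584)) (l 14693880))) (b (l 14721624) (l 14956416))))) (b (a (b (l 15364056) (l 15364008)) (b (l 15964144) (l 15964104))) (b (a (l 15341192) (l 15940832)) (a (b (l 15330600) (l 15398208)) (l 15928840))))))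 (b (a (a (a (b (l 1) (b (l 1) (l 16345760))) (l 1)) (l 1)) (l 1)) (a (b (a (b (l 16464360) (l 16464312)) (b (a (l 16757608) (l 1)) (l 16767472))) (a (b (l 16440080) (l 16421424)) (b (l 16740904) (l 16715048)))) (a (a (b (c (l 948147584647) (l 963179969815)) (l 16795424)) (b (l 1) (l 16732512))) (b (l 1) (b (b (l 1) (l 16734016)) (l 16724320))))))), by decide +kernel⟩

theorem c_pp_213 : CertFX 1073741824 536870912 1610612736 536870912 1046898278 26843546 false true true .pnn 2 1 3
    ndF7q2 ndF3q3 pcF1 Cut.none Ext.none :=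
  certFX0 (fam := false) (s1 := true) (s2 := true) (a := 2) (b := 1) (c := 3) (cn := .pnn) (n1 := ndF7q2) (n2 := ndF3q3) (pc := pcF1) (cut := Cut.none) (xt := Ext.none) (P1 := 1073741824) (W1 := 536870912) (P2 := 1610612736) (W2 := 536870912) (P3 := 1046898278) (W3 := 26843546)
    rfl k0_pp_213

noncomputable def f_pp_303 : ℕ → ℕ → ℕ → ℕ → Bool := onCell 0 1230186008 1610612736 536870912 1046898278 26843546
    (rowFX 0 false true true .npn 3 0 3 (qsf 0 1230186008 1610612736 536870912 0) ndF7q3 ndF3q3 pcF0 Cut.none Ext.none)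

def k0_pp_303 : ∃ t, chk3 f_pp_303 t 1 1 1 = true :=
  ⟨(a (l 3) (a (l 3) (b (l 3) (a (b (l 3) (a (l 3) (b (l 3) (c (l 366313454455) (l 373292807623))))) (b (a (l 3) (b (l 3) (c (l 16777152) (l 16777152)))) (c (a (b (l 16750808) (l 16727152)) (b (l 16750808) (l 16727152))) (a (b (l 421074402231) (l 16725768)) (b (l 16750120) (l 16725768))))))))), by decide +kernel⟩

theorem c_pp_303 : CertFX 0 1230186008 1610612736 536870912 1046898278 26843546 false true true .npn 3 0 3
    ndF7q3 ndF3q3 pcF0 Cut.none Ext.none :=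
  certFX0 (fam := false) (s1 := true) (s2 := true) (a := 3) (b := 0) (c := 3) (cn := .npn) (n1 := ndF7q3) (n2 := ndF3q3) (pc := pcF0) (cut := Cut.none) (xt := Ext.none) (P1 := 0) (W1 := 1230186008) (P2 := 1610612736) (W2 := 536870912) (P3 := 1046898278) (W3 := 26843546)
    rfl k0_pp_303

noncomputable def f_pp_313 : ℕ → ℕ → ℕ → ℕ → Bool := onCell 0 1230186008 536870912 536870912 1046898278 26843546
    (rowFX 1 false true true .dn 3 1 3 (qsf 0 1230186008 1610612736 536870912 1) ndF7q3 ndF3q3 pcF1 Cut.none Ext.none)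

def k0_pp_313 : ∃ t, chk3 f_pp_313 t 1 1 1 = true :=
  ⟨(a (l 2) (a (l 2) (b (a (l 2) (b (a (l 2) (b (l 16771176) (l 2))) (l 2))) (l 2)))), by decide +kernel⟩

theorem c_pp_313 : CertFX 0 1230186008 1610612736 536870912 1046898278 26843546 false true true .dn 3 1 3
    ndF7q3 ndF3q3 pcF1 Cut.none Ext.none :=
  certFX1 (fam := false) (s1 := true) (s2 := true) (a := 3) (b := 1) (c := 3) (cn := .dn) (n1 := ndF7q3) (n2 := ndF3q3) (pc := pcF1) (cut := Cut.none) (xt := Ext.none) (P1 := 0) (W1 := 1230186008) (P2 := 1610612736) (W2 := 536870912) (P3 := 1046898278) (W3 := 26843546)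
    rfl (fun _ => rfl) k0_pp_313

noncomputable def f_pm_001 : ℕ → ℕ → ℕ → ℕ → Bool := onCell 0 536870912 536870912 536870912 1046898278 26843546
    (rowFX 0 false true false .up 0 0 1 (qsf 0 536870912 536870912 536870912 0) ndF7q0 ndF3q1 pcF0 Cut.none Ext.none)

def k0_pm_001 : ∃ t, chk3 f_pm_001 t 1 1 1 = true :=
  ⟨(l 4), by decide +kernel⟩

theorem c_pm_001 : CertFX 0 536870912 536870912 536870912 1046898278 26843546 false true false .up 0 0 1
    ndF7q0 ndF3q1 pcF0 Cut.none Ext.none :=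
  certFX0 (fam := false) (s1 := true) (s2 := false) (a := 0) (b := 0) (c := 1) (cn := .up) (n1 := ndF7q0) (n2 := ndF3q1) (pc := pcF0) (cut := Cut.none) (xt := Ext.none) (P1 := 0) (W1 := 536870912) (P2 := 536870912) (W2 := 536870912) (P3 := 1046898278) (W3 := 26843546)
    rfl k0_pm_001

noncomputable def f_pm_011 : ℕ → ℕ → ℕ → ℕ → Bool := onCell 0 536870912 536870912 536870912 1046898278 26843546
    (rowFX 0 false true false .pnn 0 1 1 (qsf 0 536870912 536870912 536870912 1) ndF7q0 ndF3q1 pcF1 Cut.none Ext.none)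

def k0_pm_011 : ∃ t, chk3 f_pm_011 t 1 1 1 = true :=
  ⟨(l 4), by decide +kernel⟩

theorem c_pm_011 : CertFX 0 536870912 536870912 536870912 1046898278 26843546 false true false .pnn 0 1 1
    ndF7q0 ndF3q1 pcF1 Cut.none Ext.none :=
  certFX0 (fam := false) (s1 := true) (s2 := false) (a := 0) (b := 1) (c := 1) (cn := .pnn) (n1 := ndF7q0) (n2 := ndF3q1) (pc := pcF1) (cut := Cut.none) (xt := Ext.none) (P1 := 0) (W1 := 536870912) (P2 := 536870912) (W2 := 536870912) (P3 := 1046898278) (W3 := 26843546)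
    rfl k0_pm_011

noncomputable def f_pm_012 : ℕ → ℕ → ℕ → ℕ → Bool := onCell 0 536870912 1073741824 536870912 1046898278 26843546
    (rowFX 0 false true false .pnp 0 1 2 (qsf 0 536870912 1073741824 536870912 1) ndF7q0 ndF3q2 pcF1 Cut.none Ext.none)

def k0_pm_012 : ∃ t, chk3 f_pm_012 t 1 1 1 = true :=
  ⟨(l 4), by decide +kernel⟩

theorem c_pm_012 : CertFX 0 536870912 1073741824 536870912 1046898278 26843546 false true false .pnp 0 1 2
    ndF7q0 ndF3q2 pcF1 Cut.none Ext.none :=
  certFX0 (fam := false) (s1 := true) (s2 := false) (a := 0) (b := 1) (c := 2) (cn := .pnp) (n1 := ndF7q0) (n2 := ndF3q2) (pc := pcF1) (cut := Cut.none) (xt := Ext.none) (P1 := 0) (W1 := 536870912) (P2 := 1073741824) (W2 := 536870912) (P3 := 1046898278) (W3 := 26843546)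
    rfl k0_pm_012

noncomputable def f_pm_022 : ℕ → ℕ → ℕ → ℕ → Bool := onCell 0 536870912 1073741824 536870912 1046898278 26843546
    (rowFX 0 false true false .pp 0 2 2 (qsf 0 536870912 1073741824 536870912 2) ndF7q0 ndF3q2 pcF2 Cut.none Ext.none)

def k0_pm_022 : ∃ t, chk3 f_pm_022 t 1 1 1 = true :=
  ⟨(l 4), by decide +kernel⟩

theorem c_pm_022 : CertFX 0 536870912 1073741824 536870912 1046898278 26843546 false true false .pp 0 2 2
    ndF7q0 ndF3q2 pcF2 Cut.none Ext.none :=
  certFX0 (fam := false) (s1 := true) (s2 := false) (a := 0) (b := 2) (c := 2) (cn := .pp) (n1 := ndF7q0) (n2 := ndF3q2) (pc := pcF2) (cut := Cut.none) (xt := Ext.none) (P1 := 0) (W1 := 536870912) (P2 := 1073741824) (W2 := 536870912) (P3 := 1046898278) (W3 := 26843546)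
    rfl k0_pm_022

noncomputable def f_pm_023 : ℕ → ℕ → ℕ → ℕ → Bool := onCell 0 536870912 1610612736 536870912 1046898278 26843546
    (rowFX 0 false true false .up 0 2 3 (qsf 0 536870912 1610612736 536870912 2) ndF7q0 ndF3q3 pcF2 Cut.none Ext.none)

def k0_pm_023 : ∃ t, chk3 f_pm_023 t 1 1 1 = true :=
  ⟨(l 4), by decide +kernel⟩

theorem c_pm_023 : CertFX 0 536870912 1610612736 536870912 1046898278 26843546 false true false .up 0 2 3
    ndF7q0 ndF3q3 pcF2 Cut.none Ext.none :=
  certFX0 (fam := false) (s1 := true) (s2 := false) (a := 0) (b := 2) (c := 3) (cn := .up) (n1 := ndF7q0) (n2 := ndF3q3) (pc := pcF2) (cut := Cut.none) (xt := Ext.none) (P1 := 0) (W1 := 536870912) (P2 := 1610612736) (W2 := 536870912) (P3 := 1046898278) (W3 := 26843546)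
    rfl k0_pm_023

noncomputable def f_pm_033 : ℕ → ℕ → ℕ → ℕ → Bool := onCell 0 536870912 1610612736 536870912 1046898278 26843546
    (rowFX 0 false true false .pnn 0 3 3 (qsf 0 536870912 1610612736 536870912 3) ndF7q0 ndF3q3 pcF3 Cut.none Ext.none)

def k0_pm_033 : ∃ t, chk3 f_pm_033 t 1 1 1 = true :=
  ⟨(l 4), by decide +kernel⟩

theorem c_pm_033 : CertFX 0 536870912 1610612736 536870912 1046898278 26843546 false true false .pnn 0 3 3
    ndF7q0 ndF3q3 pcF3 Cut.none Ext.none :=
  certFX0 (fam := false) (s1 := true) (s2 := false) (a := 0) (b := 3) (c := 3) (cn := .pnn) (n1 := ndF7q0) (n2 := ndF3q3) (pc := pcF3) (cut := Cut.none) (xt := Ext.none) (P1 := 0) (W1 := 536870912) (P2 := 1610612736) (W2 := 536870912) (P3 := 1046898278) (W3 := 26843546)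
    rfl k0_pm_033

noncomputable def f_pm_101 : ℕ → ℕ → ℕ → ℕ → Bool := onCell 536870912 536870912 536870912 536870912 1046898278 26843546
    (rowFX 0 false true false .npn 1 0 1 (qsf 536870912 536870912 536870912 536870912 0) ndF7q1 ndF3q1 pcF0 Cut.none Ext.none)

def k0_pm_101 : ∃ t, chk3 f_pm_101 t 1 1 1 = true :=
  ⟨(l 4), by decide +kernel⟩

theorem c_pm_101 : CertFX 536870912 536870912 536870912 536870912 1046898278 26843546 false true false .npn 1 0 1
    ndF7q1 ndF3q1 pcF0 Cut.none Ext.none :=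
  certFX0 (fam := false) (s1 := true) (s2 := false) (a := 1) (b := 0) (c := 1) (cn := .npn) (n1 := ndF7q1) (n2 := ndF3q1) (pc := pcF0) (cut := Cut.none) (xt := Ext.none) (P1 := 536870912) (W1 := 536870912) (P2 := 536870912) (W2 := 536870912) (P3 := 1046898278) (W3 := 26843546)
    rfl k0_pm_101

noncomputable def f_pm_102 : ℕ → ℕ → ℕ → ℕ → Bool := onCell 536870912 536870912 1073741824 536870912 1046898278 26843546
    (rowFX 0 false true false .npp 1 0 2 (qsf 536870912 536870912 1073741824 536870912 0) ndF7q1 ndF3q2 pcF0 Cut.none Ext.none)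

def k0_pm_102 : ∃ t, chk3 f_pm_102 t 1 1 1 = true :=
  ⟨(l 4), by decide +kernel⟩

theorem c_pm_102 : CertFX 536870912 536870912 1073741824 536870912 1046898278 26843546 false true false .npp 1 0 2
    ndF7q1 ndF3q2 pcF0 Cut.none Ext.none :=
  certFX0 (fam := false) (s1 := true) (s2 := false) (a := 1) (b := 0) (c := 2) (cn := .npp) (n1 := ndF7q1) (n2 := ndF3q2) (pc := pcF0) (cut := Cut.none) (xt := Ext.none) (P1 := 536870912) (W1 := 536870912) (P2 := 1073741824) (W2 := 536870912) (P3 := 1046898278) (W3 := 26843546)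
    rfl k0_pm_102

noncomputable def f_pm_112 : ℕ → ℕ → ℕ → ℕ → Bool := onCell 536870912 536870912 1073741824 536870912 1046898278 26843546
    (rowFX 0 false true false .dn 1 1 2 (qsf 536870912 536870912 1073741824 536870912 1) ndF7q1 ndF3q2 pcF1 Cut.none Ext.none)

def k0_pm_112 : ∃ t, chk3 f_pm_112 t 1 1 1 = true :=
  ⟨(l 4), by decide +kernel⟩

theorem c_pm_112 : CertFX 536870912 536870912 1073741824 536870912 1046898278 26843546 false true false .dn 1 1 2
    ndF7q1 ndF3q2 pcF1 Cut.none Ext.none :=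
  certFX0 (fam := false) (s1 := true) (s2 := false) (a := 1) (b := 1) (c := 2) (cn := .dn) (n1 := ndF7q1) (n2 := ndF3q2) (pc := pcF1) (cut := Cut.none) (xt := Ext.none) (P1 := 536870912) (W1 := 536870912) (P2 := 1073741824) (W2 := 536870912) (P3 := 1046898278) (W3 := 26843546)
    rfl k0_pm_112

noncomputable def f_pm_113 : ℕ → ℕ → ℕ → ℕ → Bool := onCell 536870912 536870912 536870912 536870912 1046898278 26843546
    (rowFX 1 false true false .nn 1 1 3 (qsf 536870912 536870912 1610612736 536870912 1) ndF7q1 ndF3q3 pcF1 Cut.none Ext.none)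

def k0_pm_113 : ∃ t, chk3 f_pm_113 t 1 1 1 = true :=
  ⟨(b (l 4) (b (l 4) (a (l 4) (a (l 4) (b (l 4) (b (l 4) (a (l 4) (c (l 185449013447) (b (l 4) (l 11889504)))))))))), by decide +kernel⟩

theorem c_pm_113 : CertFX 536870912 536870912 1610612736 536870912 1046898278 26843546 false true false .nn 1 1 3
    ndF7q1 ndF3q3 pcF1 Cut.none Ext.none :=
  certFX1 (fam := false) (s1 := true) (s2 := false) (a := 1) (b := 1) (c := 3) (cn := .nn) (n1 := ndF7q1) (n2 := ndF3q3) (pc := pcF1) (cut := Cut.none) (xt := Ext.none) (P1 := 536870912) (W1 := 536870912) (P2 := 1610612736) (W2 := 536870912) (P3 := 1046898278) (W3 := 26843546)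
    rfl (fun _ => rfl) k0_pm_113

noncomputable def f_pm_123 : ℕ → ℕ → ℕ → ℕ → Bool := onCell 536870912 536870912 1610612736 536870912 1046898278 26843546
    (rowFX 0 false true false .npn 1 2 3 (qsf 536870912 536870912 1610612736 536870912 2) ndF7q1 ndF3q3 pcF2 Cut.none Ext.none)

def k0_pm_123 : ∃ t, chk3 f_pm_123 t 1 1 1 = true :=
  ⟨(a (l 4) (b (l 4) (b (l 4) (a (l 4) (a (l 4) (b (l 4) (a (l 4) (c (l 16805648) (l 14745208))))))))), by decide +kernel⟩

theorem c_pm_123 : CertFX 536870912 536870912 1610612736 536870912 1046898278 26843546 false true false .npn 1 2 3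
    ndF7q1 ndF3q3 pcF2 Cut.none Ext.none :=
  certFX0 (fam := false) (s1 := true) (s2 := false) (a := 1) (b := 2) (c := 3) (cn := .npn) (n1 := ndF7q1) (n2 := ndF3q3) (pc := pcF2) (cut := Cut.none) (xt := Ext.none) (P1 := 536870912) (W1 := 536870912) (P2 := 1610612736) (W2 := 536870912) (P3 := 1046898278) (W3 := 26843546)
    rfl k0_pm_123

noncomputable def f_pm_133 : ℕ → ℕ → ℕ → ℕ → Bool := onCell 1610612736 536870912 1610612736 536870912 1046898278 26843546
    (rowFX 2 false true false .dn 1 3 3 (qsf 536870912 536870912 1610612736 536870912 3) ndF7q1 ndF3q3 pcF3 Cut.none Ext.none)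

def k0_pm_133 : ∃ t, chk3 f_pm_133 t 1 1 1 = true :=
  ⟨(l 4), by decide +kernel⟩

theorem c_pm_133 : CertFX 536870912 536870912 1610612736 536870912 1046898278 26843546 false true false .dn 1 3 3
    ndF7q1 ndF3q3 pcF3 Cut.none Ext.none :=
  certFX2 (fam := false) (s1 := true) (s2 := false) (a := 1) (b := 3) (c := 3) (cn := .dn) (n1 := ndF7q1) (n2 := ndF3q3) (pc := pcF3) (cut := Cut.none) (xt := Ext.none) (P1 := 536870912) (W1 := 536870912) (P2 := 1610612736) (W2 := 536870912) (P3 := 1046898278) (W3 := 26843546)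
    rfl (fun _ => rfl) k0_pm_133

noncomputable def f_pm_202 : ℕ → ℕ → ℕ → ℕ → Bool := onCell 0 536870912 1073741824 536870912 1046898278 26843546
    (rowFX 2 false true false .pp 2 0 2 (qsf 1073741824 536870912 1073741824 536870912 0) ndF7q2 ndF3q2 pcF0 Cut.none Ext.none)

def k0_pm_202 : ∃ t, chk3 f_pm_202 t 1 1 1 = true :=
  ⟨(a (b (l 4) (b (a (b (l 4) (b (l 4) (a (a (a (a (l 16749344) (l 152706690695)) (l 145189502615)) (l 16481216)) (l 4)))) (l 4)) (a (a (a (c (a (l 16510032) (l 16556888)) (a (b (l 16615328) (l 16400168)) (l 16559408))) (c (l 16631080) (l 16630968))) (a (b (l 16503776) (l 16648792)) (b (l 16568544) (l 16720752)))) (b (l 4) (a (l 148947321239) (l 208539414567)))))) (l 4)), by decide +kernel⟩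

theorem c_pm_202 : CertFX 1073741824 536870912 1073741824 536870912 1046898278 26843546 false true false .pp 2 0 2
    ndF7q2 ndF3q2 pcF0 Cut.none Ext.none :=
  certFX2 (fam := false) (s1 := true) (s2 := false) (a := 2) (b := 0) (c := 2) (cn := .pp) (n1 := ndF7q2) (n2 := ndF3q2) (pc := pcF0) (cut := Cut.none) (xt := Ext.none) (P1 := 1073741824) (W1 := 536870912) (P2 := 1073741824) (W2 := 536870912) (P3 := 1046898278) (W3 := 26843546)
    rfl (fun _ => rfl) k0_pm_202

noncomputable def f_pm_203 : ℕ → ℕ → ℕ → ℕ → Bool := onCell 1073741824 536870912 0 536870912 1046898278 26843546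
    (rowFX 1 false true false .up 2 0 3 (qsf 1073741824 536870912 1610612736 536870912 0) ndF7q2 ndF3q3 pcF0 Cut.none Ext.none)

def k0_pm_203 : ∃ t, chk3 f_pm_203 t 1 1 1 = true :=
  ⟨(a (b (l 4) (a (l 4) (b (l 485026609159) (l 138208493831)))) (b (b (b (a (l 1) (b (a (l 1) (b (l 333966959415) (l 16376160))) (l 266857735271))) (a (a (l 1) (l 505766386391)) (b (l 16539856) (l 16576216)))) (a (a (b (l 16464840) (l 16464632)) (b (l 16746976) (l 16768304))) (b (a (l 16679632) (l 16608024)) (a (l 16759720) (l 16751064))))) (a (b (a (l 16464376) (l 16767528)) (a (l 16464376) (l 16767568))) (b (a (l 16777208) (l 16777176)) (a (l 16745664) (b (l 16748168) (l 16732456))))))), by decide +kernel⟩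

theorem c_pm_203 : CertFX 1073741824 536870912 1610612736 536870912 1046898278 26843546 false true false .up 2 0 3
    ndF7q2 ndF3q3 pcF0 Cut.none Ext.none :=
  certFX1 (fam := false) (s1 := true) (s2 := false) (a := 2) (b := 0) (c := 3) (cn := .up) (n1 := ndF7q2) (n2 := ndF3q3) (pc := pcF0) (cut := Cut.none) (xt := Ext.none) (P1 := 1073741824) (W1 := 536870912) (P2 := 1610612736) (W2 := 536870912) (P3 := 1046898278) (W3 := 26843546)
    rfl (fun _ => rfl) k0_pm_203

noncomputable def f_pm_213 : ℕ → ℕ → ℕ → ℕ → Bool := onCell 536870912 536870912 1610612736 536870912 1046898278 26843546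
    (rowFX 2 false true false .pnn 2 1 3 (qsf 1073741824 536870912 1610612736 536870912 1) ndF7q2 ndF3q3 pcF1 Cut.none Ext.none)

def k0_pm_213 : ∃ t, chk3 f_pm_213 t 1 1 1 = true :=
  ⟨(b (a (a (b (l 4) (b (l 4) (a (l 15676168) (l 14944904)))) (l 4)) (l 4)) (a (a (b (a (b (l 16225928) (l 16623616)) (l 15962480)) (b (a (l 16746872) (l 16636280)) (a (l 16724320) (l 16719920)))) (b (a (b (l 14929992) (l 15680840)) (b (l 4) (a (l 15183072) (l 14758912)))) (b (a (l 16248928) (b (l 15563336) (l 15861472))) (a (l 16585688) (l 16215744))))) (a (b (a (a (b (l 4) (l 14418040)) (l 4)) (l 4)) (a (b (a (b (l 15035408) (l 15420880)) (b (l 14646568) (b (l 15038376) (l 15177704)))) (b (l 15539072) (l 15824672))) (b (a (b (l 14171000) (l 14827672)) (b (l 4) (l 14406736))) (a (b (a (l 15156544) (l 14815208)) (l 15352664)) (b (b (l 14996824) (a (l 14740592) (l 14902952))) (l 15180720)))))) (b (l 4) (b (a (a (a (l 13285952) (l 4)) (l 4)) (l 4)) (a (a (b (b (l 14541248) (a (l 14947072) (l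 14874096))) (c (l 15458280) (l 15330632))) (a (b (l 14317784) (l 15458872)) (b (l 13815144) (c (l 15584320) (l 15307984))))) (a (a (b (l 13260256) (c (l 15543040) (l 15135688))) (c (l 15048624) (l 14220120))) (c (l 57680142583) (a (l 96867260023) (l 116196404599)))))))))), by decide +kernel⟩

theorem c_pm_213 : CertFX 1073741824 536870912 1610612736 536870912 1046898278 26843546 false true false .pnn 2 1 3
    ndF7q2 ndF3q3 pcF1 Cut.none Ext.none :=
  certFX2 (fam := false) (s1 := true) (s2 := false) (a := 2) (b := 1) (c := 3) (cn := .pnn) (n1 := ndF7q2) (n2 := ndF3q3) (pc := pcF1) (cut := Cut.none) (xt := Ext.none) (P1 := 1073741824) (W1 := 536870912) (P2 := 1610612736) (W2 := 536870912) (P3 := 1046898278) (W3 := 26843546)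
    rfl (fun _ => rfl) k0_pm_213

noncomputable def f_pm_303 : ℕ → ℕ → ℕ → ℕ → Bool := onCell 0 1230186008 0 536870912 1046898278 26843546
    (rowFX 1 false true false .npn 3 0 3 (qsf 0 1230186008 1610612736 536870912 0) ndF7q3 ndF3q3 pcF0 Cut.none Ext.none)

def k0_pm_303 : ∃ t, chk3 f_pm_303 t 2 4 1 = true :=
  ⟨(a (l 3) (l 3)), by decide +kernel⟩

def k1_pm_303 : ∃ t, chk3 f_pm_303 t 6 4 1 = true :=
  ⟨(a (l 3) (b (a (a (l 3) (a (l 3) (b (b (c (c (b (l 14796864) (l 14742192)) (b (l 14773912) (l 14700984))) (b (c (l 333023179895) (b (l 14612952) (l 14750936))) (c (l 14816760) (l 14811560)))) (c (l 14937488) (l 333560410999))) (l 3)))) (a (b (b (c (a (b (l 14857640) (c (l 14865720) (l 14698712))) (b (l 14901032) (l 14949496))) (b (c (l 14703240) (b (l 14838624) (l 14847048))) (c (l 14858448) (l 14861768)))) (c (a (l 14948720) (b (l 14957928) (l 15024760))) (a (c (l 14949376) (l 14935600)) (l 14971888)))) (c (b (l 334635536615) (l 339467596471)) (b (c (l 15114432) (a (l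 15075976) (l 15092184))) (l 15253248)))) (b (b (c (b (l 15031400) (c (l 15131928) (l 15060640))) (b (c (l 15018896) (b (l 14994656) (l 15007624))) (c (l 15035064) (l 15041280)))) (c (b (l 15017312) (l 15097688)) (l 14968280))) (c (b (l 15217448) (a (l 15339376) (l 15414672))) (b (l 15197792) (l 15320192)))))) (a (l 3) (b (c (b (l 15456120) (l 15642232)) (a (l 332488291943) (l 15431504))) (c (l 345910307463) (a (l 342152431287) (l 15842104))))))), by decide +kernel⟩

def k2_pm_303 : ∃ t, chk3 f_pm_303 t 7 4 1 = true :=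
  ⟨(b (a (b (c (b (a (b (l 15252216) (b (l 15235936) (l 15239056))) (l 15551800)) (a (a (l 15201784) (l 15365272)) (l 15575296))) (b (a (b (l 15224328) (c (l 15137264) (l 15178288))) (b (l 15521128) (l 15535112))) (a (l 15259128) (l 15589040)))) (a (c (b (l 15327064) (a (l 15416136) (l 15579008))) (b (l 15399336) (l 15403336))) (l 15701680))) (b (b (a (c (l 15848080) (b (l 15824176) (l 15825496))) (a (c (l 16043760) (l 16031392)) (l 16187912))) (c (a (l 15854184) (l 16114576)) (l 16013544))) (a (l 15947792) (c (l 16188520) (l 16187440))))) (a (b (a (c (b (l 15613360) (l 15724920)) (a (l 15599288) (l 15690680))) (c (l 15887280) (l 15855872))) (a (c (a (l 15883072) (l 15957840)) (a (l 15859840) (l 15933912))) (a (l 16011792) (l 16116936)))) (a (b (l 16099656) (l 16246304)) (b (l 16303224) (l 16404256))))), by decide +kernel⟩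

def k3_pm_303 : ∃ t, chk3 f_pm_303 t 1 5 1 = true :=
  ⟨(a (l 2) (a (a (l 3) (b (a (l 3) (a (l 3) (b (c (l 16102232) (l 16083752)) (l 344300804007)))) (l 3))) (a (b (a (b (a (l 16098424) (l 16158824)) (a (l 134921010423) (l 16373312))) (b (l 16235824) (l 16414960))) (a (b (c (l 16599000) (l 314773502615)) (c (l 320680124167) (l 315311401735))) (b (l 16647264) (a (l 16745576) (l 16768920))))) (b (a (l 16375248) (l 16525832)) (a (b (l 16667072) (l 16777008)) (l 16729216)))))), by decide +kernel⟩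

def k4_pm_303 : ∃ t, chk3 f_pm_303 t 1 3 1 = true :=
  ⟨(a (l 2) (a (a (l 2) (b (b (l 3) (l 2)) (l 2))) (a (b (a (b (c (l 346449722775) (l 341617882775)) (l 3)) (b (c (l 16735112) (l 16730952)) (c (l 16760480) (l 16755584)))) (l 2)) (b (a (b (l 16747336) (a (l 16725776) (l 16741352))) (b (l 16777176) (l 16747720))) (a (b (c (l 16759584) (l 16754816)) (l 2)) (b (l 16729712) (a (l 16762896) (l 16689136)))))))), by decide +kernel⟩

theorem s5_pm_303 : ∃ t, chk3 f_pm_303 t 3 4 1 = true := ex3_a k1_pm_303 k2_pm_303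

theorem s6_pm_303 : ∃ t, chk3 f_pm_303 t 1 4 1 = true := ex3_a k0_pm_303 s5_pm_303

theorem s7_pm_303 : ∃ t, chk3 f_pm_303 t 1 2 1 = true := ex3_b s6_pm_303 k3_pm_303

theorem s8_pm_303 : ∃ t, chk3 f_pm_303 t 1 1 1 = true := ex3_b s7_pm_303 k4_pm_303

theorem c_pm_303 : CertFX 0 1230186008 1610612736 536870912 1046898278 26843546 false true false .npn 3 0 3
    ndF7q3 ndF3q3 pcF0 Cut.none Ext.none :=
  certFX1 (fam := false) (s1 := true) (s2 := false) (a := 3) (b := 0) (c := 3) (cn := .npn) (n1 := ndF7q3) (n2 := ndF3q3) (pc := pcF0) (cut := Cut.none) (xt := Ext.none) (P1 := 0) (W1 := 1230186008) (P2 := 1610612736) (W2 := 536870912) (P3 := 1046898278) (W3 := 26843546)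
    rfl (fun _ => rfl) s8_pm_303

noncomputable def f_pm_313 : ℕ → ℕ → ℕ → ℕ → Bool := onCell 0 1230186008 1610612736 536870912 1046898278 26843546
    (rowFX 0 false true false .dn 3 1 3 (qsf 0 1230186008 1610612736 536870912 1) ndF7q3 ndF3q3 pcF1 Cut.none Ext.none)

def k0_pm_313 : ∃ t, chk3 f_pm_313 t 1 1 1 = true :=
  ⟨(a (l 1) (a (l 1) (b (l 1) (b (l 1) (a (l 1) (a (l 1) (l 16726552))))))), by decide +kernel⟩

theorem c_pm_313 : CertFX 0 1230186008 1610612736 536870912 1046898278 26843546 false true false .dn 3 1 3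
    ndF7q3 ndF3q3 pcF1 Cut.none Ext.none :=
  certFX0 (fam := false) (s1 := true) (s2 := false) (a := 3) (b := 1) (c := 3) (cn := .dn) (n1 := ndF7q3) (n2 := ndF3q3) (pc := pcF1) (cut := Cut.none) (xt := Ext.none) (P1 := 0) (W1 := 1230186008) (P2 := 1610612736) (W2 := 536870912) (P3 := 1046898278) (W3 := 26843546)
    rfl k0_pm_313

noncomputable def f_mm_001 : ℕ → ℕ → ℕ → ℕ → Bool := onCell 0 536870912 536870912 536870912 1046898278 26843546
    (rowFX 0 false false false .up 0 0 1 (qsf 0 536870912 536870912 536870912 0) ndF7q0 ndF3q1 pcF0 Cut.none Ext.none)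

def k0_mm_001 : ∃ t, chk3 f_mm_001 t 1 1 1 = true :=
  ⟨(l 3), by decide +kernel⟩

theorem c_mm_001 : CertFX 0 536870912 536870912 536870912 1046898278 26843546 false false false .up 0 0 1
    ndF7q0 ndF3q1 pcF0 Cut.none Ext.none :=
  certFX0 (fam := false) (s1 := false) (s2 := false) (a := 0) (b := 0) (c := 1) (cn := .up) (n1 := ndF7q0) (n2 := ndF3q1) (pc := pcF0) (cut := Cut.none) (xt := Ext.none) (P1 := 0) (W1 := 536870912) (P2 := 536870912) (W2 := 536870912) (P3 := 1046898278) (W3 := 26843546)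
    rfl k0_mm_001

noncomputable def f_mm_011 : ℕ → ℕ → ℕ → ℕ → Bool := onCell 0 536870912 536870912 536870912 1046898278 26843546
    (rowFX 0 false false false .pnn 0 1 1 (qsf 0 536870912 536870912 536870912 1) ndF7q0 ndF3q1 pcF1 Cut.none Ext.none)

def k0_mm_011 : ∃ t, chk3 f_mm_011 t 1 1 1 = true :=
  ⟨(l 3), by decide +kernel⟩

theorem c_mm_011 : CertFX 0 536870912 536870912 536870912 1046898278 26843546 false false false .pnn 0 1 1
    ndF7q0 ndF3q1 pcF1 Cut.none Ext.none :=
  certFX0 (fam := false) (s1 := false) (s2 := false) (a := 0) (b := 1) (c := 1) (cn := .pnn) (n1 := ndF7q0) (n2 := ndF3q1) (pc := pcF1) (cut := Cut.none) (xt := Ext.none) (P1 := 0) (W1 := 536870912) (P2 := 536870912) (W2 := 536870912) (P3 := 1046898278) (W3 := 26843546)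
    rfl k0_mm_011

noncomputable def f_mm_012 : ℕ → ℕ → ℕ → ℕ → Bool := onCell 0 536870912 1073741824 536870912 1046898278 26843546
    (rowFX 0 false false false .pnp 0 1 2 (qsf 0 536870912 1073741824 536870912 1) ndF7q0 ndF3q2 pcF1 Cut.none Ext.none)

def k0_mm_012 : ∃ t, chk3 f_mm_012 t 1 1 1 = true :=
  ⟨(l 5), by decide +kernel⟩

theorem c_mm_012 : CertFX 0 536870912 1073741824 536870912 1046898278 26843546 false false false .pnp 0 1 2
    ndF7q0 ndF3q2 pcF1 Cut.none Ext.none :=
  certFX0 (fam := false) (s1 := false) (s2 := false) (a := 0) (b := 1) (c := 2) (cn := .pnp) (n1 := ndF7q0) (n2 := ndF3q2) (pc := pcF1) (cut := Cut.none) (xt := Ext.none) (P1 := 0) (W1 := 536870912) (P2 := 1073741824) (W2 := 536870912) (P3 := 1046898278) (W3 := 26843546)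
    rfl k0_mm_012

noncomputable def f_mm_022 : ℕ → ℕ → ℕ → ℕ → Bool := onCell 0 536870912 1073741824 536870912 1046898278 26843546
    (rowFX 0 false false false .pp 0 2 2 (qsf 0 536870912 1073741824 536870912 2) ndF7q0 ndF3q2 pcF2 Cut.none Ext.none)

def k0_mm_022 : ∃ t, chk3 f_mm_022 t 1 1 1 = true :=
  ⟨(l 5), by decide +kernel⟩

theorem c_mm_022 : CertFX 0 536870912 1073741824 536870912 1046898278 26843546 false false false .pp 0 2 2
    ndF7q0 ndF3q2 pcF2 Cut.none Ext.none :=
  certFX0 (fam := false) (s1 := false) (s2 := false) (a := 0) (b := 2) (c := 2) (cn := .pp) (n1 := ndF7q0) (n2 := ndF3q2) (pc := pcF2) (cut := Cut.none) (xt := Ext.none) (P1 := 0) (W1 := 536870912) (P2 := 1073741824) (W2 := 536870912) (P3 := 1046898278) (W3 := 26843546)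
    rfl k0_mm_022

noncomputable def f_mm_023 : ℕ → ℕ → ℕ → ℕ → Bool := onCell 0 536870912 1610612736 536870912 1046898278 26843546
    (rowFX 0 false false false .up 0 2 3 (qsf 0 536870912 1610612736 536870912 2) ndF7q0 ndF3q3 pcF2 Cut.none Ext.none)

def k0_mm_023 : ∃ t, chk3 f_mm_023 t 1 1 1 = true :=
  ⟨(l 5), by decide +kernel⟩

theorem c_mm_023 : CertFX 0 536870912 1610612736 536870912 1046898278 26843546 false false false .up 0 2 3
    ndF7q0 ndF3q3 pcF2 Cut.none Ext.none :=
  certFX0 (fam := false) (s1 := false) (s2 := false) (a := 0) (b := 2) (c := 3) (cn := .up) (n1 := ndF7q0) (n2 := ndF3q3) (pc := pcF2) (cut := Cut.none) (xt := Ext.none) (P1 := 0) (W1 := 536870912) (P2 := 1610612736) (W2 := 536870912) (P3 := 1046898278) (W3 := 26843546)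
    rfl k0_mm_023

noncomputable def f_mm_033 : ℕ → ℕ → ℕ → ℕ → Bool := onCell 0 536870912 1610612736 536870912 1046898278 26843546
    (rowFX 0 false false false .pnn 0 3 3 (qsf 0 536870912 1610612736 536870912 3) ndF7q0 ndF3q3 pcF3 Cut.none Ext.none)

def k0_mm_033 : ∃ t, chk3 f_mm_033 t 1 1 1 = true :=
  ⟨(l 5), by decide +kernel⟩

theorem c_mm_033 : CertFX 0 536870912 1610612736 536870912 1046898278 26843546 false false false .pnn 0 3 3
    ndF7q0 ndF3q3 pcF3 Cut.none Ext.none :=
  certFX0 (fam := false) (s1 := false) (s2 := false) (a := 0) (b := 3) (c := 3) (cn := .pnn) (n1 := ndF7q0) (n2 := ndF3q3) (pc := pcF3) (cut := Cut.none) (xt := Ext.none) (P1 := 0) (W1 := 536870912) (P2 := 1610612736) (W2 := 536870912) (P3 := 1046898278) (W3 := 26843546)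
    rfl k0_mm_033

noncomputable def f_mm_101 : ℕ → ℕ → ℕ → ℕ → Bool := onCell 536870912 536870912 536870912 536870912 1046898278 26843546
    (rowFX 0 false false false .npn 1 0 1 (qsf 536870912 536870912 536870912 536870912 0) ndF7q1 ndF3q1 pcF0 Cut.none Ext.none)

def k0_mm_101 : ∃ t, chk3 f_mm_101 t 1 1 1 = true :=
  ⟨(l 3), by decide +kernel⟩

theorem c_mm_101 : CertFX 536870912 536870912 536870912 536870912 1046898278 26843546 false false false .npn 1 0 1
    ndF7q1 ndF3q1 pcF0 Cut.none Ext.none :=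
  certFX0 (fam := false) (s1 := false) (s2 := false) (a := 1) (b := 0) (c := 1) (cn := .npn) (n1 := ndF7q1) (n2 := ndF3q1) (pc := pcF0) (cut := Cut.none) (xt := Ext.none) (P1 := 536870912) (W1 := 536870912) (P2 := 536870912) (W2 := 536870912) (P3 := 1046898278) (W3 := 26843546)
    rfl k0_mm_101

noncomputable def f_mm_102 : ℕ → ℕ → ℕ → ℕ → Bool := onCell 536870912 536870912 1073741824 536870912 1046898278 26843546
    (rowFX 0 false false false .npp 1 0 2 (qsf 536870912 536870912 1073741824 536870912 0) ndF7q1 ndF3q2 pcF0 Cut.none Ext.none)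

def k0_mm_102 : ∃ t, chk3 f_mm_102 t 1 1 1 = true :=
  ⟨(l 5), by decide +kernel⟩

theorem c_mm_102 : CertFX 536870912 536870912 1073741824 536870912 1046898278 26843546 false false false .npp 1 0 2
    ndF7q1 ndF3q2 pcF0 Cut.none Ext.none :=
  certFX0 (fam := false) (s1 := false) (s2 := false) (a := 1) (b := 0) (c := 2) (cn := .npp) (n1 := ndF7q1) (n2 := ndF3q2) (pc := pcF0) (cut := Cut.none) (xt := Ext.none) (P1 := 536870912) (W1 := 536870912) (P2 := 1073741824) (W2 := 536870912) (P3 := 1046898278) (W3 := 26843546)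
    rfl k0_mm_102

noncomputable def f_mm_112 : ℕ → ℕ → ℕ → ℕ → Bool := onCell 536870912 536870912 1073741824 536870912 1046898278 26843546
    (rowFX 0 false false false .dn 1 1 2 (qsf 536870912 536870912 1073741824 536870912 1) ndF7q1 ndF3q2 pcF1 Cut.none Ext.none)

def k0_mm_112 : ∃ t, chk3 f_mm_112 t 1 1 1 = true :=
  ⟨(l 5), by decide +kernel⟩

theorem c_mm_112 : CertFX 536870912 536870912 1073741824 536870912 1046898278 26843546 false false false .dn 1 1 2
    ndF7q1 ndF3q2 pcF1 Cut.none Ext.none :=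
  certFX0 (fam := false) (s1 := false) (s2 := false) (a := 1) (b := 1) (c := 2) (cn := .dn) (n1 := ndF7q1) (n2 := ndF3q2) (pc := pcF1) (cut := Cut.none) (xt := Ext.none) (P1 := 536870912) (W1 := 536870912) (P2 := 1073741824) (W2 := 536870912) (P3 := 1046898278) (W3 := 26843546)
    rfl k0_mm_112

noncomputable def f_mm_113 : ℕ → ℕ → ℕ → ℕ → Bool := onCell 536870912 536870912 1610612736 536870912 1046898278 26843546
    (rowFX 0 false false false .nn 1 1 3 (qsf 536870912 536870912 1610612736 536870912 1) ndF7q1 ndF3q3 pcF1 Cut.none Ext.none)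

def k0_mm_113 : ∃ t, chk3 f_mm_113 t 1 1 1 = true :=
  ⟨(l 5), by decide +kernel⟩

theorem c_mm_113 : CertFX 536870912 536870912 1610612736 536870912 1046898278 26843546 false false false .nn 1 1 3
    ndF7q1 ndF3q3 pcF1 Cut.none Ext.none :=
  certFX0 (fam := false) (s1 := false) (s2 := false) (a := 1) (b := 1) (c := 3) (cn := .nn) (n1 := ndF7q1) (n2 := ndF3q3) (pc := pcF1) (cut := Cut.none) (xt := Ext.none) (P1 := 536870912) (W1 := 536870912) (P2 := 1610612736) (W2 := 536870912) (P3 := 1046898278) (W3 := 26843546)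
    rfl k0_mm_113

noncomputable def f_mm_123 : ℕ → ℕ → ℕ → ℕ → Bool := onCell 536870912 536870912 1610612736 536870912 1046898278 26843546
    (rowFX 0 false false false .npn 1 2 3 (qsf 536870912 536870912 1610612736 536870912 2) ndF7q1 ndF3q3 pcF2 Cut.none Ext.none)

def k0_mm_123 : ∃ t, chk3 f_mm_123 t 1 1 1 = true :=
  ⟨(l 5), by decide +kernel⟩

theorem c_mm_123 : CertFX 536870912 536870912 1610612736 536870912 1046898278 26843546 false false false .npn 1 2 3
    ndF7q1 ndF3q3 pcF2 Cut.none Ext.none :=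
  certFX0 (fam := false) (s1 := false) (s2 := false) (a := 1) (b := 2) (c := 3) (cn := .npn) (n1 := ndF7q1) (n2 := ndF3q3) (pc := pcF2) (cut := Cut.none) (xt := Ext.none) (P1 := 536870912) (W1 := 536870912) (P2 := 1610612736) (W2 := 536870912) (P3 := 1046898278) (W3 := 26843546)
    rfl k0_mm_123

noncomputable def f_mm_133 : ℕ → ℕ → ℕ → ℕ → Bool := onCell 536870912 536870912 1610612736 536870912 1046898278 26843546
    (rowFX 0 false false false .dn 1 3 3 (qsf 536870912 536870912 1610612736 536870912 3) ndF7q1 ndF3q3 pcF3 Cut.none Ext.none)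

def k0_mm_133 : ∃ t, chk3 f_mm_133 t 1 1 1 = true :=
  ⟨(l 5), by decide +kernel⟩

theorem c_mm_133 : CertFX 536870912 536870912 1610612736 536870912 1046898278 26843546 false false false .dn 1 3 3
    ndF7q1 ndF3q3 pcF3 Cut.none Ext.none :=
  certFX0 (fam := false) (s1 := false) (s2 := false) (a := 1) (b := 3) (c := 3) (cn := .dn) (n1 := ndF7q1) (n2 := ndF3q3) (pc := pcF3) (cut := Cut.none) (xt := Ext.none) (P1 := 536870912) (W1 := 536870912) (P2 := 1610612736) (W2 := 536870912) (P3 := 1046898278) (W3 := 26843546)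
    rfl k0_mm_133

noncomputable def f_mm_202 : ℕ → ℕ → ℕ → ℕ → Bool := onCell 1073741824 536870912 1073741824 536870912 1046898278 26843546
    (rowFX 0 false false false .pp 2 0 2 (qsf 1073741824 536870912 1073741824 536870912 0) ndF7q2 ndF3q2 pcF0 Cut.none Ext.none)

def k0_mm_202 : ∃ t, chk3 f_mm_202 t 1 1 1 = true :=
  ⟨(l 5), by decide +kernel⟩

theorem c_mm_202 : CertFX 1073741824 536870912 1073741824 536870912 1046898278 26843546 false false false .pp 2 0 2
    ndF7q2 ndF3q2 pcF0 Cut.none Ext.none :=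
  certFX0 (fam := false) (s1 := false) (s2 := false) (a := 2) (b := 0) (c := 2) (cn := .pp) (n1 := ndF7q2) (n2 := ndF3q2) (pc := pcF0) (cut := Cut.none) (xt := Ext.none) (P1 := 1073741824) (W1 := 536870912) (P2 := 1073741824) (W2 := 536870912) (P3 := 1046898278) (W3 := 26843546)
    rfl k0_mm_202

noncomputable def f_mm_203 : ℕ → ℕ → ℕ → ℕ → Bool := onCell 1073741824 536870912 1610612736 536870912 1046898278 26843546
    (rowFX 0 false false false .up 2 0 3 (qsf 1073741824 536870912 1610612736 536870912 0) ndF7q2 ndF3q3 pcF0 Cut.none Ext.none)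

def k0_mm_203 : ∃ t, chk3 f_mm_203 t 1 1 1 = true :=
  ⟨(l 5), by decide +kernel⟩

theorem c_mm_203 : CertFX 1073741824 536870912 1610612736 536870912 1046898278 26843546 false false false .up 2 0 3
    ndF7q2 ndF3q3 pcF0 Cut.none Ext.none :=
  certFX0 (fam := false) (s1 := false) (s2 := false) (a := 2) (b := 0) (c := 3) (cn := .up) (n1 := ndF7q2) (n2 := ndF3q3) (pc := pcF0) (cut := Cut.none) (xt := Ext.none) (P1 := 1073741824) (W1 := 536870912) (P2 := 1610612736) (W2 := 536870912) (P3 := 1046898278) (W3 := 26843546)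
    rfl k0_mm_203

noncomputable def f_mm_213 : ℕ → ℕ → ℕ → ℕ → Bool := onCell 1073741824 536870912 1610612736 536870912 1046898278 26843546
    (rowFX 0 false false false .pnn 2 1 3 (qsf 1073741824 536870912 1610612736 536870912 1) ndF7q2 ndF3q3 pcF1 Cut.none Ext.none)

def k0_mm_213 : ∃ t, chk3 f_mm_213 t 1 1 1 = true :=
  ⟨(l 5), by decide +kernel⟩

theorem c_mm_213 : CertFX 1073741824 536870912 1610612736 536870912 1046898278 26843546 false false false .pnn 2 1 3
    ndF7q2 ndF3q3 pcF1 Cut.none Ext.none :=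
  certFX0 (fam := false) (s1 := false) (s2 := false) (a := 2) (b := 1) (c := 3) (cn := .pnn) (n1 := ndF7q2) (n2 := ndF3q3) (pc := pcF1) (cut := Cut.none) (xt := Ext.none) (P1 := 1073741824) (W1 := 536870912) (P2 := 1610612736) (W2 := 536870912) (P3 := 1046898278) (W3 := 26843546)
    rfl k0_mm_213

noncomputable def f_mm_303 : ℕ → ℕ → ℕ → ℕ → Bool := onCell 0 1230186008 1610612736 536870912 1046898278 26843546
    (rowFX 0 false false false .npn 3 0 3 (qsf 0 1230186008 1610612736 536870912 0) ndF7q3 ndF3q3 pcF0 Cut.none Ext.none)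

def k0_mm_303 : ∃ t, chk3 f_mm_303 t 1 1 1 = true :=
  ⟨(a (l 3) (a (l 3) (l 5))), by decide +kernel⟩

theorem c_mm_303 : CertFX 0 1230186008 1610612736 536870912 1046898278 26843546 false false false .npn 3 0 3
    ndF7q3 ndF3q3 pcF0 Cut.none Ext.none :=
  certFX0 (fam := false) (s1 := false) (s2 := false) (a := 3) (b := 0) (c := 3) (cn := .npn) (n1 := ndF7q3) (n2 := ndF3q3) (pc := pcF0) (cut := Cut.none) (xt := Ext.none) (P1 := 0) (W1 := 1230186008) (P2 := 1610612736) (W2 := 536870912) (P3 := 1046898278) (W3 := 26843546)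
    rfl k0_mm_303

noncomputable def f_mm_313 : ℕ → ℕ → ℕ → ℕ → Bool := onCell 0 1230186008 1610612736 536870912 1046898278 26843546
    (rowFX 0 false false false .dn 3 1 3 (qsf 0 1230186008 1610612736 536870912 1) ndF7q3 ndF3q3 pcF1 Cut.none Ext.none)

def k0_mm_313 : ∃ t, chk3 f_mm_313 t 1 1 1 = true :=
  ⟨(a (l 1) (a (l 1) (l 5))), by decide +kernel⟩

theorem c_mm_313 : CertFX 0 1230186008 1610612736 536870912 1046898278 26843546 false false false .dn 3 1 3
    ndF7q3 ndF3q3 pcF1 Cut.none Ext.none :=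
  certFX0 (fam := false) (s1 := false) (s2 := false) (a := 3) (b := 1) (c := 3) (cn := .dn) (n1 := ndF7q3) (n2 := ndF3q3) (pc := pcF1) (cut := Cut.none) (xt := Ext.none) (P1 := 0) (W1 := 1230186008) (P2 := 1610612736) (W2 := 536870912) (P3 := 1046898278) (W3 := 26843546)
    rfl k0_mm_313

end Pool.Agent.Strip051.G.IE1.Tab.C.FB73

namespace Pool.Agent.Strip051.G.IE1.Tab.C.FB75

open Pool.Agent.Strip051.PB Pool.Agent.Strip051.PB.T
open Pool.Agent.Strip051.G.IE1.Tab

noncomputable def f_pp_001 : ℕ → ℕ → ℕ → ℕ → Bool := onCell 0 536870912 536870912 469762048 1046898278 26843546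
    (rowFX 0 false true true .up 0 0 1 (qsf 0 536870912 536870912 469762048 0) ndF7q0 ndF5q1 pcF0 Cut.none Ext.none)

def k0_pp_001 : ∃ t, chk3 f_pp_001 t 1 1 1 = true :=
  ⟨(l 3), by decide +kernel⟩

theorem c_pp_001 : CertFX 0 536870912 536870912 469762048 1046898278 26843546 false true true .up 0 0 1
    ndF7q0 ndF5q1 pcF0 Cut.none Ext.none :=
  certFX0 (fam := false) (s1 := true) (s2 := true) (a := 0) (b := 0) (c := 1) (cn := .up) (n1 := ndF7q0) (n2 := ndF5q1) (pc := pcF0) (cut := Cut.none) (xt := Ext.none) (P1 := 0) (W1 := 536870912) (P2 := 536870912) (W2 := 469762048) (P3 := 1046898278) (W3 := 26843546)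
    rfl k0_pp_001

noncomputable def f_pp_011 : ℕ → ℕ → ℕ → ℕ → Bool := onCell 0 536870912 536870912 469762048 1046898278 26843546
    (rowFX 0 false true true .pnn 0 1 1 (qsf 0 536870912 536870912 469762048 1) ndF7q0 ndF5q1 pcF1 Cut.none Ext.none)

def k0_pp_011 : ∃ t, chk3 f_pp_011 t 1 1 1 = true :=
  ⟨(l 3), by decide +kernel⟩

theorem c_pp_011 : CertFX 0 536870912 536870912 469762048 1046898278 26843546 false true true .pnn 0 1 1
    ndF7q0 ndF5q1 pcF1 Cut.none Ext.none :=
  certFX0 (fam := false) (s1 := true) (s2 := true) (a := 0) (b := 1) (c := 1) (cn := .pnn) (n1 := ndF7q0) (n2 := ndF5q1) (pc := pcF1) (cut := Cut.none) (xt := Ext.none) (P1 := 0) (W1 := 536870912) (P2 := 536870912) (W2 := 469762048) (P3 := 1046898278) (W3 := 26843546)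
    rfl k0_pp_011

noncomputable def f_pp_012 : ℕ → ℕ → ℕ → ℕ → Bool := onCell 536870912 536870912 1073741824 536870912 1046898278 26843546
    (rowFX 2 false true true .pnp 0 1 2 (qsf 0 536870912 1073741824 536870912 1) ndF7q0 ndF5q2 pcF1 Cut.none Ext.none)

def k0_pp_012 : ∃ t, chk3 f_pp_012 t 1 1 1 = true :=
  ⟨(a (b (b (a (b (a (l 15773864) (l 16004552)) (a (l 399529017895) (l 15226904))) (b (a (l 16025520) (l 16025520)) (a (l 15226904) (l 15226904)))) (a (a (l 2) (b (b (l 14885272) (l 2)) (l 2))) (b (b (a (l 14885272) (l 14885272)) (l 15602360)) (b (l 16385096) (l 16776664))))) (a (l 2) (b (l 16777216) (l 2)))) (b (a (b (a (b (l 15770560) (l 15223552)) (b (c (l 16019552) (a (l 15996120) (l 15998256))) (a (l 15208248) (l 15210472)))) (b (a (b (l 14881888) (l 15598968)) (b (b (l 14783856) (l 14949760)) (l 15584512))) (b (a (l 16381680) (l 16367056)) (a (l 16773104) (l 16757224))))) (b (c (a (b (l 16030592) (l 15335864)) (b (l 15744168) (l 15015232))) (a (b (l 15894704)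 (l 15329048)) (b (a (l 15791000) (l 15646072)) (l 14846360)))) (b (a (b (b (l 14908728) (l 15074840)) (l 15708240)) (b (b (l 14605664) (l 14765408)) (a (l 15449512) (l 15273368)))) (a (b (l 16344712) (l 16647024)) (b (a (l 16151744) (l 16022928)) (l 16271608)))))) (a (b (a (l 16773656) (l 16757848)) (l 16869192)) (a (b (l 16651648) (l 16649632)) (b (a (l 16495328) (b (l 16368896) (l 16311336))) (a (l 16445984) (l 16188160))))))), by decide +kernel⟩

theorem c_pp_012 : CertFX 0 536870912 1073741824 536870912 1046898278 26843546 false true true .pnp 0 1 2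
    ndF7q0 ndF5q2 pcF1 Cut.none Ext.none :=
  certFX2 (fam := false) (s1 := true) (s2 := true) (a := 0) (b := 1) (c := 2) (cn := .pnp) (n1 := ndF7q0) (n2 := ndF5q2) (pc := pcF1) (cut := Cut.none) (xt := Ext.none) (P1 := 0) (W1 := 536870912) (P2 := 1073741824) (W2 := 536870912) (P3 := 1046898278) (W3 := 26843546)
    rfl (fun _ => rfl) k0_pp_012

noncomputable def f_pp_022 : ℕ → ℕ → ℕ → ℕ → Bool := onCell 1073741824 536870912 1073741824 536870912 1046898278 26843546
    (rowFX 2 false true true .pp 0 2 2 (qsf 0 536870912 1073741824 536870912 2) ndF7q0 ndF5q2 pcF2 Cut.none Ext.none)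

def k0_pp_022 : ∃ t, chk3 f_pp_022 t 1 1 1 = true :=
  ⟨(a (a (b (b (a (b (c (a (l 14817968) (l 14861336)) (a (b (l 14993584) (l 14548808)) (b (l 15040800) (l 14595064)))) (a (b (l 14174016) (l 13803488)) (b (l 14215256) (l 13837208)))) (b (a (b (l 1) (c (l 14651320) (l 14598888))) (l 1)) (a (b (a (l 14239016) (l 14193456)) (l 13839816)) (b (l 13993248) (l 13625520))))) (b (a (b (b (c (l 13609320) (l 13524920)) (c (l 13767528) (l 13687024))) (c (l 14382664) (l 14319096))) (b (a (b (l 13582072) (l 13741288)) (b (l 13372200) (l 13534272))) (a (l 14365360) (l 14163048)))) (a (b (l 14919928) (l 15479064)) (b (a (l 15132008) (l 14936776)) (c (l 15423976) (l 15388208)))))) (a (b (c (l 15438448) (l 15408880)) (l 15314776)) (b (c (l 15388576) (l 15330696)) (l 15231008)))) (b (b (a (b (l 1) (a (b (l 1) (l 13289424)) (l 1))) (l 1)) (b (a (b (a (b (l 13292888) (l 13458576)) (b (l 1) (l 13985664))) (a (a (l 14022120) (l 14162128)) (l 14617288))) (b (l 1) (a (l 15147080) (l 1)))) (a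 (b (a (l 14789912) (l 15394656)) (a (l 15263488) (l 15780208))) (b (a (l 15918160) (l 16185496)) (a (l 16296704) (l 16562392)))))) (a (b (a (a (l 15186880) (l 15330960)) (l 15764176)) (a (l 15250520) (l 15733008))) (b (a (l 16261048) (l 16521816)) (a (l 16193496) (l 16445600)))))) (b (b (l 1) (a (b (l 1) (a (b (l 1) (l 16654848)) (l 1))) (l 1))) (a (a (b (l 16634696) (l 16596408)) (b (l 16771624) (l 16770296))) (c (a (l 16777216) (l 16777216)) (a (l 16777216) (l 16777216)))))), by decide +kernel⟩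

theorem c_pp_022 : CertFX 0 536870912 1073741824 536870912 1046898278 26843546 false true true .pp 0 2 2
    ndF7q0 ndF5q2 pcF2 Cut.none Ext.none :=
  certFX2 (fam := false) (s1 := true) (s2 := true) (a := 0) (b := 2) (c := 2) (cn := .pp) (n1 := ndF7q0) (n2 := ndF5q2) (pc := pcF2) (cut := Cut.none) (xt := Ext.none) (P1 := 0) (W1 := 536870912) (P2 := 1073741824) (W2 := 536870912) (P3 := 1046898278) (W3 := 26843546)
    rfl (fun _ => rfl) k0_pp_022

noncomputable def f_pp_023 : ℕ → ℕ → ℕ → ℕ → Bool := onCell 1073741824 536870912 0 1230186008 1046898278 26843546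
    (rowFX 2 false true true .up 0 2 3 (qsf 0 536870912 0 1230186008 2) ndF7q0 ndF5q3 pcF2 Cut.none Ext.none)

def k0_pp_023 : ∃ t, chk3 f_pp_023 t 1 1 1 = true :=
  ⟨(a (b (l 2) (a (b (l 2) (b (l 2) (a (l 15165480) (l 15197320)))) (b (a (l 2) (a (l 2) (l 16123952))) (a (b (l 15444128) (a (l 15238920) (l 15692504))) (b (l 16126928) (l 16231888)))))) (b (l 4) (b (a (a (l 16468960) (l 4)) (l 4)) (a (a (b (l 16496904) (l 16547984)) (b (l 16767712) (l 16768712))) (c (l 16777216) (l 16777216)))))), by decide +kernel⟩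

theorem c_pp_023 : CertFX 0 536870912 0 1230186008 1046898278 26843546 false true true .up 0 2 3
    ndF7q0 ndF5q3 pcF2 Cut.none Ext.none :=
  certFX2 (fam := false) (s1 := true) (s2 := true) (a := 0) (b := 2) (c := 3) (cn := .up) (n1 := ndF7q0) (n2 := ndF5q3) (pc := pcF2) (cut := Cut.none) (xt := Ext.none) (P1 := 0) (W1 := 536870912) (P2 := 0) (W2 := 1230186008) (P3 := 1046898278) (W3 := 26843546)
    rfl (fun _ => rfl) k0_pp_023

noncomputable def f_pp_033 : ℕ → ℕ → ℕ → ℕ → Bool := onCell 1610612736 536870912 0 1230186008 1046898278 26843546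
    (rowFX 2 false true true .pnn 0 3 3 (qsf 0 536870912 0 1230186008 3) ndF7q0 ndF5q3 pcF3 Cut.none Ext.none)

def k0_pp_033 : ∃ t, chk3 f_pp_033 t 1 1 1 = true :=
  ⟨(b (l 4) (b (l 4) (l 4))), by decide +kernel⟩

theorem c_pp_033 : CertFX 0 536870912 0 1230186008 1046898278 26843546 false true true .pnn 0 3 3
    ndF7q0 ndF5q3 pcF3 Cut.none Ext.none :=
  certFX2 (fam := false) (s1 := true) (s2 := true) (a := 0) (b := 3) (c := 3) (cn := .pnn) (n1 := ndF7q0) (n2 := ndF5q3) (pc := pcF3) (cut := Cut.none) (xt := Ext.none) (P1 := 0) (W1 := 536870912) (P2 := 0) (W2 := 1230186008) (P3 := 1046898278) (W3 := 26843546)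
    rfl (fun _ => rfl) k0_pp_033

noncomputable def f_pp_101 : ℕ → ℕ → ℕ → ℕ → Bool := onCell 536870912 536870912 536870912 469762048 1046898278 26843546
    (rowFX 0 false true true .npn 1 0 1 (qsf 536870912 536870912 536870912 469762048 0) ndF7q1 ndF5q1 pcF0 Cut.none Ext.none)

def k0_pp_101 : ∃ t, chk3 f_pp_101 t 1 1 1 = true :=
  ⟨(l 3), by decide +kernel⟩

theorem c_pp_101 : CertFX 536870912 536870912 536870912 469762048 1046898278 26843546 false true true .npn 1 0 1
    ndF7q1 ndF5q1 pcF0 Cut.none Ext.none :=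
  certFX0 (fam := false) (s1 := true) (s2 := true) (a := 1) (b := 0) (c := 1) (cn := .npn) (n1 := ndF7q1) (n2 := ndF5q1) (pc := pcF0) (cut := Cut.none) (xt := Ext.none) (P1 := 536870912) (W1 := 536870912) (P2 := 536870912) (W2 := 469762048) (P3 := 1046898278) (W3 := 26843546)
    rfl k0_pp_101

noncomputable def f_pp_102 : ℕ → ℕ → ℕ → ℕ → Bool := onCell 0 536870912 1073741824 536870912 1046898278 26843546
    (rowFX 2 false true true .npp 1 0 2 (qsf 536870912 536870912 1073741824 536870912 0) ndF7q1 ndF5q2 pcF0 Cut.none Ext.none)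

def k0_pp_102 : ∃ t, chk3 f_pp_102 t 2 1 1 = true :=
  ⟨(b (a (l 3) (l 3)) (l 3)), by decide +kernel⟩

def k1_pp_102 : ∃ t, chk3 f_pp_102 t 3 4 1 = true :=
  ⟨(a (a (a (l 3) (b (c (b (a (l 16429864) (l 16519016)) (a (l 3) (l 16324648))) (b (l 207935965015) (l 112372767783))) (l 3))) (b (c (b (a (b (l 16560320) (l 16436432)) (a (l 16415744) (l 16335264))) (a (a (l 16253648) (l 16223584)) (l 15861528))) (a (b (a (l 16555192) (l 16500816)) (l 16136880)) (b (l 16178896) (l 16078576)))) (a (c (b (a (l 16054456) (l 15961376)) (l 156394721079)) (b (l 15953720) (l 15748224))) (c (b (l 15829824) (l 15586728)) (b (l 15811488) (l 15564016)))))) (a (b (a (c (b (a (l 16281936) (l 16256688)) (l 15808520)) (b (l 16178136) (l 15914368))) (c (b (l 16253952) (l 15843176)) (b (l 16240360) (l 15819280)))) (c (a (b (l 15669016) (l 15425672)) (b (l 15527496) (l 15281504))) (a (b (l 15644424) (l 15396888)) (b (l 15496944) (l 15246872))))) (b (a (c (l 15867384) (l 15932000)) (l 15899696)) (c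 (a (b (l 15446576) (l 15156312)) (b (l 15430304) (l 15085656))) (a (b (l 15412384) (l 15116128)) (l 15154392)))))), by decide +kernel⟩

def k2_pp_102 : ∃ t, chk3 f_pp_102 t 3 5 1 = true :=
  ⟨(a (a (l 3) (a (b (b (b (c (l 15596264) (l 15576656)) (c (l 15662376) (l 15754720))) (l 3)) (l 3)) (b (b (b (c (l 15417752) (l 15391976)) (c (l 15626384) (l 15607368))) (c (b (l 16003976) (l 15886272)) (l 252495315271))) (b (c (l 166057752839) (l 15411408)) (c (b (l 14981400) (l 14802432)) (l 14852272)))))) (b (a (b (c (b (a (l 15256528) (l 15112184)) (a (l 15465304) (l 15321040))) (b (l 15147952) (l 15363416))) (c (a (b (l 15927120) (l 16182464)) (l 15859224)) (a (l 15956864) (l 15995944)))) (b (b (c (a (l 14984728) (l 14876544)) (l 14883608)) (c (l 14989616) (l 15097504))) (a (c (l 15879328) (l 15863272)) (c (l 15769176) (l 15747584))))) (a (b (a (c (l 15587208) (l 15710360)) (c (l 15880128) (l 15946656))) (c (a (l 15232960) (l 15534320)) (a (l 15192848) (l 15502040)))) (b (a (c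 (l 16171328) (l 16159856)) (l 16128072)) (c (l 15831872) (l 15893384)))))), by decide +kernel⟩

def k3_pp_102 : ∃ t, chk3 f_pp_102 t 3 3 1 = true :=
  ⟨(a (b (a (l 3) (a (l 3) (b (b (c (l 14528528) (l 14539088)) (l 3)) (l 3)))) (l 3)) (b (a (b (c (a (b (l 14877656) (l 14570472)) (b (l 15232640) (l 14877656))) (a (l 14703696) (l 15022480))) (c (a (b (l 14144976) (l 13998800)) (b (l 14570472) (l 14291776))) (a (b (l 14251544) (c (l 13984568) (l 13973960))) (b (l 14539088) (l 14251544))))) (c (b (a (l 15382024) (l 15664968)) (a (b (l 14877656) (l 14570472)) (l 15105552))) (b (a (l 15345784) (l 15636080)) (a (l 14703696) (l 15022480))))) (a (b (c (a (l 13651568) (l 107468486247)) (a (b (c (l 13709872) (l 13562672)) (l 13463240)) (b (c (l 13984568) (l 13973960)) (c (l 13709872) (l 13688496))))) (c (l 13337496) (a (l 2) (l 13356736)))) (b (c (a (b (l 14291776) (l 13998800)) (b (l 14570472) (l 14291776))) (a (b (l 14251544) (c (l 13984568) (l 13973960))) (l 14426344))) (c (a (l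 13651568) (l 13891088)) (a (b (c (l 13709872) (l 13688496)) (l 13463240)) (b (l 13773616) (l 13620488)))))))), by decide +kernel⟩

theorem s4_pp_102 : ∃ t, chk3 f_pp_102 t 3 2 1 = true := ex3_b k1_pp_102 k2_pp_102

theorem s5_pp_102 : ∃ t, chk3 f_pp_102 t 3 1 1 = true := ex3_b s4_pp_102 k3_pp_102

theorem s6_pp_102 : ∃ t, chk3 f_pp_102 t 1 1 1 = true := ex3_a k0_pp_102 s5_pp_102

theorem c_pp_102 : CertFX 536870912 536870912 1073741824 536870912 1046898278 26843546 false true true .npp 1 0 2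
    ndF7q1 ndF5q2 pcF0 Cut.none Ext.none :=
  certFX2 (fam := false) (s1 := true) (s2 := true) (a := 1) (b := 0) (c := 2) (cn := .npp) (n1 := ndF7q1) (n2 := ndF5q2) (pc := pcF0) (cut := Cut.none) (xt := Ext.none) (P1 := 536870912) (W1 := 536870912) (P2 := 1073741824) (W2 := 536870912) (P3 := 1046898278) (W3 := 26843546)
    rfl (fun _ => rfl) s6_pp_102

noncomputable def f_pp_112 : ℕ → ℕ → ℕ → ℕ → Bool := onCell 536870912 536870912 1073741824 536870912 1046898278 26843546
    (rowFX 2 false true true .dn 1 1 2 (qsf 536870912 536870912 1073741824 536870912 1) ndF7q1 ndF5q2 pcF1 Cut.none Ext.none)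

def k0_pp_112 : ∃ t, chk3 f_pp_112 t 1 1 1 = true :=
  ⟨(a (b (b (a (b (a (l 15773864) (l 16004552)) (c (l 15183864) (l 15123144))) (b (l 1) (l 266854793767))) (a (a (b (b (b (l 14802464) (l 14976536)) (l 15431648)) (a (b (c (l 16510632) (l 16509992)) (l 16248504)) (b (l 16433504) (l 16456448)))) (b (b (l 14885272) (l 15602360)) (b (l 16389792) (l 16690272)))) (b (b (a (l 14885272) (l 1)) (l 15602360)) (b (l 16385096) (l 16776664))))) (a (b (a (b (c (l 15864112) (l 15823784)) (a (a (l 15143240) (l 15442240)) (l 15650528))) (b (l 16453240) (l 16001240))) (a (a (b (c (l 14772568) (l 14703696)) (c (b (l 14291776) (l 13998800)) (b (l 14251544) (l 13983336)))) (b (l 14782176) (c (l 14458792) (l 14426344)))) (b (l 15483632) (c (l 14815968) (l 14871320))))) (b (a (b (l 16713224) (l 16453240)) (l 16736232)) (a (b (l 16022208) (l 15504608)) (b (l 16453240) (l 16022208)))))) (b (a (b (l 1) (b (l 1) (b (l 1) (l 247531308503)))) (l 1)) (a (b (a (l 16773656) (l 16757848)) (a (l 16572104)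 (l 16738560))) (a (b (l 16651648) (l 16649632)) (b (l 1) (l 544419318999)))))), by decide +kernel⟩

theorem c_pp_112 : CertFX 536870912 536870912 1073741824 536870912 1046898278 26843546 false true true .dn 1 1 2
    ndF7q1 ndF5q2 pcF1 Cut.none Ext.none :=
  certFX2 (fam := false) (s1 := true) (s2 := true) (a := 1) (b := 1) (c := 2) (cn := .dn) (n1 := ndF7q1) (n2 := ndF5q2) (pc := pcF1) (cut := Cut.none) (xt := Ext.none) (P1 := 536870912) (W1 := 536870912) (P2 := 1073741824) (W2 := 536870912) (P3 := 1046898278) (W3 := 26843546)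
    rfl (fun _ => rfl) k0_pp_112

noncomputable def f_pp_113 : ℕ → ℕ → ℕ → ℕ → Bool := onCell 536870912 536870912 0 1230186008 1046898278 26843546
    (rowFX 2 false true true .nn 1 1 3 (qsf 536870912 536870912 0 1230186008 1) ndF7q1 ndF5q3 pcF1 Cut.none Ext.none)

def k0_pp_113 : ∃ t, chk3 f_pp_113 t 1 1 1 = true :=
  ⟨(b (a (l 2) (a (l 2) (b (a (l 2) (a (l 2) (b (a (l 2) (l 16595024)) (l 15131032)))) (a (b (l 12863632) (l 576155820103)) (b (a (l 13005112) (l 13154232)) (a (l 13161352) (l 13034776))))))) (a (b (a (l 2) (b (l 2) (a (l 2) (b (l 2) (l 13452592))))) (a (b (l 2) (a (b (l 2) (c (a (l 13627576) (l 13866520)) (a (b (l 2) (l 13500512)) (b (l 13661504) (l 13964912))))) (b (c (l 13736048) (a (l 13544432) (l 13780544))) (b (c (l 14108824) (l 13864896)) (c (l 14437376) (l 14417072)))))) (b (a (b (l 13341040) (c (l 13761272) (a (l 13570440) (l 13830032)))) (b (c (l 13833624) (l 13795376)) (c (l 14286456) (l 14276856)))) (b (a (c (a (l 14096976) (l 14390112)) (a (l 14083584)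 (l 14368032))) (c (l 14880688) (l 14805952))) (a (c (l 14680184) (l 14836856)) (l 15468704)))))) (b (a (a (b (l 2) (b (l 13585656) (a (l 13799776) (l 14070208)))) (b (a (l 13562912) (l 13756184)) (a (l 14199816) (l 14454896)))) (a (b (a (l 13773632) (l 13774216)) (b (l 14327224) (l 14766192))) (b (a (l 13697704) (l 13473600)) (a (l 14549984) (l 14394504))))) (a (b (a (b (a (l 14210536) (l 14470160)) (c (l 14915336) (l 14844432))) (a (l 15160472) (l 15371888))) (a (b (l 15445808) (l 15997640)) (b (l 15989216) (l 16447144)))) (b (a (l 15553192) (l 15423512)) (a (b (l 16231568) (l 16555552)) (b (l 16006992) (l 16195784)))))))), by decide +kernel⟩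

theorem c_pp_113 : CertFX 536870912 536870912 0 1230186008 1046898278 26843546 false true true .nn 1 1 3
    ndF7q1 ndF5q3 pcF1 Cut.none Ext.none :=
  certFX2 (fam := false) (s1 := true) (s2 := true) (a := 1) (b := 1) (c := 3) (cn := .nn) (n1 := ndF7q1) (n2 := ndF5q3) (pc := pcF1) (cut := Cut.none) (xt := Ext.none) (P1 := 536870912) (W1 := 536870912) (P2 := 0) (W2 := 1230186008) (P3 := 1046898278) (W3 := 26843546)
    rfl (fun _ => rfl) k0_pp_113

noncomputable def f_pp_123 : ℕ → ℕ → ℕ → ℕ → Bool := onCell 1073741824 536870912 0 1230186008 1046898278 26843546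
    (rowFX 2 false true true .npn 1 2 3 (qsf 536870912 536870912 0 1230186008 2) ndF7q1 ndF5q3 pcF2 Cut.none Ext.none)

def k0_pp_123 : ∃ t, chk3 f_pp_123 t 1 1 1 = true :=
  ⟨(b (a (a (b (a (c (l 15289832) (a (l 14607320) (l 14457184))) (a (l 16208792) (l 4))) (a (b (a (l 14703304) (l 14722872)) (c (l 14061168) (l 13741872))) (b (a (l 15257680) (l 15617784)) (l 14910224)))) (b (l 4) (a (b (l 4) (l 15662856)) (l 4)))) (l 4)) (a (b (a (a (b (l 13889376) (l 14300640)) (b (l 14723440) (l 14853352))) (a (b (l 15419152) (l 15403504)) (b (l 15998512) (l 16027952)))) (a (b (a (l 14843512) (l 14922864)) (a (l 15165472) (l 15197320))) (a (b (l 15444128) (l 546565033383)) (b (l 16126928) (l 1))))) (b (a (a (b (l 4) (l 16469136)) (l 4)) (l 4)) (l 1)))), by decide +kernel⟩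

theorem c_pp_123 : CertFX 536870912 536870912 0 1230186008 1046898278 26843546 false true true .npn 1 2 3
    ndF7q1 ndF5q3 pcF2 Cut.none Ext.none :=
  certFX2 (fam := false) (s1 := true) (s2 := true) (a := 1) (b := 2) (c := 3) (cn := .npn) (n1 := ndF7q1) (n2 := ndF5q3) (pc := pcF2) (cut := Cut.none) (xt := Ext.none) (P1 := 536870912) (W1 := 536870912) (P2 := 0) (W2 := 1230186008) (P3 := 1046898278) (W3 := 26843546)
    rfl (fun _ => rfl) k0_pp_123

noncomputable def f_pp_133 : ℕ → ℕ → ℕ → ℕ → Bool := onCell 1610612736 536870912 0 1230186008 1046898278 26843546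
    (rowFX 2 false true true .dn 1 3 3 (qsf 536870912 536870912 0 1230186008 3) ndF7q1 ndF5q3 pcF3 Cut.none Ext.none)

def k0_pp_133 : ∃ t, chk3 f_pp_133 t 1 1 1 = true :=
  ⟨(b (l 4) (l 1)), by decide +kernel⟩

theorem c_pp_133 : CertFX 536870912 536870912 0 1230186008 1046898278 26843546 false true true .dn 1 3 3
    ndF7q1 ndF5q3 pcF3 Cut.none Ext.none :=
  certFX2 (fam := false) (s1 := true) (s2 := true) (a := 1) (b := 3) (c := 3) (cn := .dn) (n1 := ndF7q1) (n2 := ndF5q3) (pc := pcF3) (cut := Cut.none) (xt := Ext.none) (P1 := 536870912) (W1 := 536870912) (P2 := 0) (W2 := 1230186008) (P3 := 1046898278) (W3 := 26843546)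
    rfl (fun _ => rfl) k0_pp_133

noncomputable def f_pp_202 : ℕ → ℕ → ℕ → ℕ → Bool := onCell 1073741824 536870912 0 536870912 1046898278 26843546
    (rowFX 1 false true true .pp 2 0 2 (qsf 1073741824 536870912 1073741824 536870912 0) ndF7q2 ndF5q2 pcF0 Cut.none Ext.none)

def k0_pp_202 : ∃ t, chk3 f_pp_202 t 1 1 1 = true :=
  ⟨(a (b (l 3) (a (b (l 3) (a (a (c (b (l 13869312) (l 13869312)) (b (c (l 13835584) (l 13827688)) (c (l 13835584) (l 13827688)))) (b (c (l 151559656023) (l 123105467335)) (c (l 14172216) (l 14052184)))) (a (b (c (l 14506136) (l 14472520)) (c (l 14506136) (l 14472520))) (b (c (l 14837472) (l 14787088)) (l 2))))) (b (l 3) (b (b (b (l 3) (l 2)) (l 2)) (l 2))))) (b (l 3) (b (a (l 3) (l 2)) (l 2)))), by decide +kernel⟩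

theorem c_pp_202 : CertFX 1073741824 536870912 1073741824 536870912 1046898278 26843546 false true true .pp 2 0 2
    ndF7q2 ndF5q2 pcF0 Cut.none Ext.none :=
  certFX1 (fam := false) (s1 := true) (s2 := true) (a := 2) (b := 0) (c := 2) (cn := .pp) (n1 := ndF7q2) (n2 := ndF5q2) (pc := pcF0) (cut := Cut.none) (xt := Ext.none) (P1 := 1073741824) (W1 := 536870912) (P2 := 1073741824) (W2 := 536870912) (P3 := 1046898278) (W3 := 26843546)
    rfl (fun _ => rfl) k0_pp_202

noncomputable def f_pp_203 : ℕ → ℕ → ℕ → ℕ → Bool := onCell 0 536870912 0 1230186008 1046898278 26843546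
    (rowFX 2 false true true .up 2 0 3 (qsf 1073741824 536870912 0 1230186008 0) ndF7q2 ndF5q3 pcF0 Cut.none Ext.none)

def k0_pp_203 : ∃ t, chk3 f_pp_203 t 1 1 1 = true :=
  ⟨(a (b (l 2) (b (l 3) (l 3))) (b (a (l 2) (b (a (l 2) (l 16759464)) (b (c (l 45197678071) (l 16687312)) (c (a (l 16751120) (l 16751120)) (a (l 16750224) (l 16750224)))))) (b (a (l 3) (b (c (a (l 16777168) (l 16776352)) (a (l 16777168) (a (l 16777168) (l 16776184)))) (a (a (c (l 16777200) (l 16777200)) (b (l 16777184) (a (l 16770136) (l 16695896)))) (c (b (a (l 16768824) (l 16685280)) (a (l 16629784) (l 16421312))) (b (a (l 16768600) (l 16682896)) (a (l 16625952) (l 16412064))))))) (a (b (l 3) (l 3)) (b (a (a (b (l 3) (l 3)) (b (c (l 16531376) (b (l 16614760) (l 16432976))) (c (l 16129336) (l 16049592)))) (b (c (a (l 16299840) (l 16048896)) (a (l 16287440) (l 16029976))) (c (a (l 15865360) (l 15570736)) (a (l 15820696) (l 15518432))))) (a (a (a (l 3) (b (l 3) (b (l 3) (l 14849984)))) (b (c (l 15460176)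 (b (l 15732872) (l 15421320))) (c (b (l 15088304) (l 14450840)) (b (l 15044440) (l 14657312))))) (b (c (a (l 15084448) (b (l 15101088) (l 14727112))) (a (b (l 15418632) (l 15061152)) (b (l 15057552) (l 14706128)))) (c (a (b (l 14713480) (l 14253560)) (b (l 14415336) (l 14055376))) (a (b (l 14691432) (l 14334800)) (b (l 14364936) (c (l 14043024) (l 14031176)))))))))))), by decide +kernel⟩

theorem c_pp_203 : CertFX 1073741824 536870912 0 1230186008 1046898278 26843546 false true true .up 2 0 3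
    ndF7q2 ndF5q3 pcF0 Cut.none Ext.none :=
  certFX2 (fam := false) (s1 := true) (s2 := true) (a := 2) (b := 0) (c := 3) (cn := .up) (n1 := ndF7q2) (n2 := ndF5q3) (pc := pcF0) (cut := Cut.none) (xt := Ext.none) (P1 := 1073741824) (W1 := 536870912) (P2 := 0) (W2 := 1230186008) (P3 := 1046898278) (W3 := 26843546)
    rfl (fun _ => rfl) k0_pp_203

noncomputable def f_pp_213 : ℕ → ℕ → ℕ → ℕ → Bool := onCell 536870912 536870912 0 1230186008 1046898278 26843546
    (rowFX 2 false true true .pnn 2 1 3 (qsf 1073741824 536870912 0 1230186008 1) ndF7q2 ndF5q3 pcF1 Cut.none Ext.none)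

def k0_pp_213 : ∃ t, chk3 f_pp_213 t 1 2 1 = true :=
  ⟨(a (b (a (a (l 16759464) (l 16759464)) (a (l 16705232) (l 16382488))) (a (b (a (l 16738040) (l 16732112)) (a (l 16750544) (l 16531240))) (b (a (l 16545776) (l 16090872)) (a (l 16259168) (l 15724416))))) (a (b (a (l 15875680) (l 15260656)) (b (a (l 15524072) (l 14819840)) (a (l 14835864) (a (l 14526536) (l 14243528))))) (b (a (b (l 15625448) (l 15226688)) (a (l 14826776) (b (a (l 16343592) (l 16647040)) (l 15749368)))) (a (b (a (l 14567520) (l 14175752)) (a (l 13795720) (l 13796072))) (b (a (l 14211472) (l 14597248)) (a (l 13654064) (l 1))))))), by decide +kernel⟩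

def k1_pp_213 : ∃ t, chk3 f_pp_213 t 1 3 1 = true :=
  ⟨(a (b (a (b (a (b (l 16741632) (l 16622072)) (b (l 16444384) (l 16186560))) (a (b (l 16382608) (b (l 16136624) (l 15948424))) (b (l 15868024) (c (l 15472112) (l 15438208))))) (b (a (l 15786336) (c (l 15193248) (l 15123832))) (a (b (l 15231672) (c (l 14778544) (l 14752744))) (b (c (l 14595608) (l 14571064)) (c (l 14151408) (l 14136152)))))) (a (b (b (a (a (c (l 15777872) (l 15751920)) (l 15455192)) (c (a (l 15128224) (l 14801072)) (l 14921608))) (a (a (c (l 15233656) (l 15088712)) (c (l 14919240) (l 14845696))) (c (a (l 14572360) (l 14231128)) (a (l 14539456) (l 14221392))))) (a (b (a (c (b (l 14724304) (l 14419064)) (b (l 14702360) (l 14377392))) (c (l 14083968) (b (l 14374280) (l 14088536)))) (c (a (b (l 14085808) (l 13773992)) (l 13671680)) (a (b (c (l 14077120) (l 14063040)) (c (l 13733368) (l 13713584))) (b (l 13758472) (l 13450272))))) (b (a (c (l 13969824) (b (l 14085024) (l 13771080))) (c (l 13693168) (l 13643000)))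 (c (l 13302376) (l 13217200))))) (b (a (b (c (l 14075704) (a (l 14421944) (l 14118984))) (c (l 13812352) (a (l 13902768) (l 13604608)))) (b (c (l 13723512) (l 13675616)) (l 1))) (b (a (c (l 13325456) (l 13240384)) (l 1)) (l 1))))) (b (a (b (a (b (l 14644456) (l 14321016)) (a (l 14026512) (l 13696640))) (a (c (l 13797344) (a (l 13693832) (l 13591120))) (a (l 13363824) (l 1)))) (a (b (b (l 13521288) (l 1)) (l 1)) (l 1))) (l 1))), by decide +kernel⟩

theorem s2_pp_213 : ∃ t, chk3 f_pp_213 t 1 1 1 = true := ex3_b k0_pp_213 k1_pp_213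

theorem c_pp_213 : CertFX 1073741824 536870912 0 1230186008 1046898278 26843546 false true true .pnn 2 1 3
    ndF7q2 ndF5q3 pcF1 Cut.none Ext.none :=
  certFX2 (fam := false) (s1 := true) (s2 := true) (a := 2) (b := 1) (c := 3) (cn := .pnn) (n1 := ndF7q2) (n2 := ndF5q3) (pc := pcF1) (cut := Cut.none) (xt := Ext.none) (P1 := 1073741824) (W1 := 536870912) (P2 := 0) (W2 := 1230186008) (P3 := 1046898278) (W3 := 26843546)
    rfl (fun _ => rfl) s2_pp_213

noncomputable def f_pp_303 : ℕ → ℕ → ℕ → ℕ → Bool := onCell 0 1230186008 0 1230186008 1046898278 26843546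
    (rowFX 0 false true true .npn 3 0 3 (qsf 0 1230186008 0 1230186008 0) ndF7q3 ndF5q3 pcF0 Cut.none Ext.none)

def k0_pp_303 : ∃ t, chk3 f_pp_303 t 1 1 1 = true :=
  ⟨(a (b (l 3) (l 3)) (b (a (l 3) (a (b (a (l 3) (a (l 503752846103) (l 293299430247))) (l 3)) (b (a (c (l 16764288) (l 16757496)) (a (l 16759464) (l 16759464))) (b (a (c (l 16743080) (l 16729256)) (c (l 16743080) (l 16729256))) (a (l 3) (c (l 16751120) (l 16750224))))))) (a (l 3) (b (a (l 3) (b (a (l 3) (c (l 173040205495) (l 175724559959))) (l 3))) (l 3))))), by decide +kernel⟩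

theorem c_pp_303 : CertFX 0 1230186008 0 1230186008 1046898278 26843546 false true true .npn 3 0 3
    ndF7q3 ndF5q3 pcF0 Cut.none Ext.none :=
  certFX0 (fam := false) (s1 := true) (s2 := true) (a := 3) (b := 0) (c := 3) (cn := .npn) (n1 := ndF7q3) (n2 := ndF5q3) (pc := pcF0) (cut := Cut.none) (xt := Ext.none) (P1 := 0) (W1 := 1230186008) (P2 := 0) (W2 := 1230186008) (P3 := 1046898278) (W3 := 26843546)
    rfl k0_pp_303

noncomputable def f_pp_313 : ℕ → ℕ → ℕ → ℕ → Bool := onCell 0 1230186008 0 1230186008 1046898278 26843546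
    (rowFX 0 false true true .dn 3 1 3 (qsf 0 1230186008 0 1230186008 1) ndF7q3 ndF5q3 pcF1 Cut.none Ext.none)

def k0_pp_313 : ∃ t, chk3 f_pp_313 t 1 1 1 = true :=
  ⟨(a (l 1) (b (a (l 1) (a (l 1) (b (a (l 1) (a (l 1) (l 16759088))) (l 1)))) (l 1))), by decide +kernel⟩

theorem c_pp_313 : CertFX 0 1230186008 0 1230186008 1046898278 26843546 false true true .dn 3 1 3
    ndF7q3 ndF5q3 pcF1 Cut.none Ext.none :=
  certFX0 (fam := false) (s1 := true) (s2 := true) (a := 3) (b := 1) (c := 3) (cn := .dn) (n1 := ndF7q3) (n2 := ndF5q3) (pc := pcF1) (cut := Cut.none) (xt := Ext.none) (P1 := 0) (W1 := 1230186008) (P2 := 0) (W2 := 1230186008) (P3 := 1046898278) (W3 := 26843546)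
    rfl k0_pp_313

noncomputable def f_pm_001 : ℕ → ℕ → ℕ → ℕ → Bool := onCell 0 536870912 536870912 469762048 1046898278 26843546
    (rowFX 0 false true false .up 0 0 1 (qsf 0 536870912 536870912 469762048 0) ndF7q0 ndF5q1 pcF0 Cut.none Ext.none)

def k0_pm_001 : ∃ t, chk3 f_pm_001 t 1 1 1 = true :=
  ⟨(l 4), by decide +kernel⟩

theorem c_pm_001 : CertFX 0 536870912 536870912 469762048 1046898278 26843546 false true false .up 0 0 1
    ndF7q0 ndF5q1 pcF0 Cut.none Ext.none :=
  certFX0 (fam := false) (s1 := true) (s2 := false) (a := 0) (b := 0) (c := 1) (cn := .up) (n1 := ndF7q0) (n2 := ndF5q1) (pc := pcF0) (cut := Cut.none) (xt := Ext.none) (P1 := 0) (W1 := 536870912) (P2 := 536870912) (W2 := 469762048) (P3 := 1046898278) (W3 := 26843546)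
    rfl k0_pm_001

noncomputable def f_pm_011 : ℕ → ℕ → ℕ → ℕ → Bool := onCell 0 536870912 536870912 469762048 1046898278 26843546
    (rowFX 0 false true false .pnn 0 1 1 (qsf 0 536870912 536870912 469762048 1) ndF7q0 ndF5q1 pcF1 Cut.none Ext.none)

def k0_pm_011 : ∃ t, chk3 f_pm_011 t 1 1 1 = true :=
  ⟨(l 4), by decide +kernel⟩

theorem c_pm_011 : CertFX 0 536870912 536870912 469762048 1046898278 26843546 false true false .pnn 0 1 1
    ndF7q0 ndF5q1 pcF1 Cut.none Ext.none :=
  certFX0 (fam := false) (s1 := true) (s2 := false) (a := 0) (b := 1) (c := 1) (cn := .pnn) (n1 := ndF7q0) (n2 := ndF5q1) (pc := pcF1) (cut := Cut.none) (xt := Ext.none) (P1 := 0) (W1 := 536870912) (P2 := 536870912) (W2 := 469762048) (P3 := 1046898278) (W3 := 26843546)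
    rfl k0_pm_011

noncomputable def f_pm_012 : ℕ → ℕ → ℕ → ℕ → Bool := onCell 0 536870912 1073741824 536870912 1046898278 26843546
    (rowFX 0 false true false .pnp 0 1 2 (qsf 0 536870912 1073741824 536870912 1) ndF7q0 ndF5q2 pcF1 Cut.none Ext.none)

def k0_pm_012 : ∃ t, chk3 f_pm_012 t 1 1 1 = true :=
  ⟨(l 4), by decide +kernel⟩

theorem c_pm_012 : CertFX 0 536870912 1073741824 536870912 1046898278 26843546 false true false .pnp 0 1 2
    ndF7q0 ndF5q2 pcF1 Cut.none Ext.none :=
  certFX0 (fam := false) (s1 := true) (s2 := false) (a := 0) (b := 1) (c := 2) (cn := .pnp) (n1 := ndF7q0) (n2 := ndF5q2) (pc := pcF1) (cut := Cut.none) (xt := Ext.none) (P1 := 0) (W1 := 536870912) (P2 := 1073741824) (W2 := 536870912) (P3 := 1046898278) (W3 := 26843546)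
    rfl k0_pm_012

noncomputable def f_pm_022 : ℕ → ℕ → ℕ → ℕ → Bool := onCell 0 536870912 1073741824 536870912 1046898278 26843546
    (rowFX 0 false true false .pp 0 2 2 (qsf 0 536870912 1073741824 536870912 2) ndF7q0 ndF5q2 pcF2 Cut.none Ext.none)

def k0_pm_022 : ∃ t, chk3 f_pm_022 t 1 1 1 = true :=
  ⟨(l 4), by decide +kernel⟩

theorem c_pm_022 : CertFX 0 536870912 1073741824 536870912 1046898278 26843546 false true false .pp 0 2 2
    ndF7q0 ndF5q2 pcF2 Cut.none Ext.none :=
  certFX0 (fam := false) (s1 := true) (s2 := false) (a := 0) (b := 2) (c := 2) (cn := .pp) (n1 := ndF7q0) (n2 := ndF5q2) (pc := pcF2) (cut := Cut.none) (xt := Ext.none) (P1 := 0) (W1 := 536870912) (P2 := 1073741824) (W2 := 536870912) (P3 := 1046898278) (W3 := 26843546)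
    rfl k0_pm_022

noncomputable def f_pm_023 : ℕ → ℕ → ℕ → ℕ → Bool := onCell 0 536870912 0 1230186008 1046898278 26843546
    (rowFX 0 false true false .up 0 2 3 (qsf 0 536870912 0 1230186008 2) ndF7q0 ndF5q3 pcF2 Cut.none Ext.none)

def k0_pm_023 : ∃ t, chk3 f_pm_023 t 1 1 1 = true :=
  ⟨(b (l 4) (l 4)), by decide +kernel⟩

theorem c_pm_023 : CertFX 0 536870912 0 1230186008 1046898278 26843546 false true false .up 0 2 3
    ndF7q0 ndF5q3 pcF2 Cut.none Ext.none :=
  certFX0 (fam := false) (s1 := true) (s2 := false) (a := 0) (b := 2) (c := 3) (cn := .up) (n1 := ndF7q0) (n2 := ndF5q3) (pc := pcF2) (cut := Cut.none) (xt := Ext.none) (P1 := 0) (W1 := 536870912) (P2 := 0) (W2 := 1230186008) (P3 := 1046898278) (W3 := 26843546)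
    rfl k0_pm_023

noncomputable def f_pm_033 : ℕ → ℕ → ℕ → ℕ → Bool := onCell 0 536870912 0 1230186008 1046898278 26843546
    (rowFX 0 false true false .pnn 0 3 3 (qsf 0 536870912 0 1230186008 3) ndF7q0 ndF5q3 pcF3 Cut.none Ext.none)

def k0_pm_033 : ∃ t, chk3 f_pm_033 t 1 1 1 = true :=
  ⟨(b (l 4) (l 4)), by decide +kernel⟩

theorem c_pm_033 : CertFX 0 536870912 0 1230186008 1046898278 26843546 false true false .pnn 0 3 3
    ndF7q0 ndF5q3 pcF3 Cut.none Ext.none :=
  certFX0 (fam := false) (s1 := true) (s2 := false) (a := 0) (b := 3) (c := 3) (cn := .pnn) (n1 := ndF7q0) (n2 := ndF5q3) (pc := pcF3) (cut := Cut.none) (xt := Ext.none) (P1 := 0) (W1 := 536870912) (P2 := 0) (W2 := 1230186008) (P3 := 1046898278) (W3 := 26843546)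
    rfl k0_pm_033

noncomputable def f_pm_101 : ℕ → ℕ → ℕ → ℕ → Bool := onCell 536870912 536870912 536870912 469762048 1046898278 26843546
    (rowFX 0 false true false .npn 1 0 1 (qsf 536870912 536870912 536870912 469762048 0) ndF7q1 ndF5q1 pcF0 Cut.none Ext.none)

def k0_pm_101 : ∃ t, chk3 f_pm_101 t 1 1 1 = true :=
  ⟨(l 4), by decide +kernel⟩

theorem c_pm_101 : CertFX 536870912 536870912 536870912 469762048 1046898278 26843546 false true false .npn 1 0 1
    ndF7q1 ndF5q1 pcF0 Cut.none Ext.none :=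
  certFX0 (fam := false) (s1 := true) (s2 := false) (a := 1) (b := 0) (c := 1) (cn := .npn) (n1 := ndF7q1) (n2 := ndF5q1) (pc := pcF0) (cut := Cut.none) (xt := Ext.none) (P1 := 536870912) (W1 := 536870912) (P2 := 536870912) (W2 := 469762048) (P3 := 1046898278) (W3 := 26843546)
    rfl k0_pm_101

noncomputable def f_pm_102 : ℕ → ℕ → ℕ → ℕ → Bool := onCell 536870912 536870912 1073741824 536870912 1046898278 26843546
    (rowFX 0 false true false .npp 1 0 2 (qsf 536870912 536870912 1073741824 536870912 0) ndF7q1 ndF5q2 pcF0 Cut.none Ext.none)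

def k0_pm_102 : ∃ t, chk3 f_pm_102 t 1 1 1 = true :=
  ⟨(l 4), by decide +kernel⟩

theorem c_pm_102 : CertFX 536870912 536870912 1073741824 536870912 1046898278 26843546 false true false .npp 1 0 2
    ndF7q1 ndF5q2 pcF0 Cut.none Ext.none :=
  certFX0 (fam := false) (s1 := true) (s2 := false) (a := 1) (b := 0) (c := 2) (cn := .npp) (n1 := ndF7q1) (n2 := ndF5q2) (pc := pcF0) (cut := Cut.none) (xt := Ext.none) (P1 := 536870912) (W1 := 536870912) (P2 := 1073741824) (W2 := 536870912) (P3 := 1046898278) (W3 := 26843546)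
    rfl k0_pm_102

noncomputable def f_pm_112 : ℕ → ℕ → ℕ → ℕ → Bool := onCell 536870912 536870912 1073741824 536870912 1046898278 26843546
    (rowFX 0 false true false .dn 1 1 2 (qsf 536870912 536870912 1073741824 536870912 1) ndF7q1 ndF5q2 pcF1 Cut.none Ext.none)

def k0_pm_112 : ∃ t, chk3 f_pm_112 t 1 1 1 = true :=
  ⟨(l 4), by decide +kernel⟩

theorem c_pm_112 : CertFX 536870912 536870912 1073741824 536870912 1046898278 26843546 false true false .dn 1 1 2
    ndF7q1 ndF5q2 pcF1 Cut.none Ext.none :=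
  certFX0 (fam := false) (s1 := true) (s2 := false) (a := 1) (b := 1) (c := 2) (cn := .dn) (n1 := ndF7q1) (n2 := ndF5q2) (pc := pcF1) (cut := Cut.none) (xt := Ext.none) (P1 := 536870912) (W1 := 536870912) (P2 := 1073741824) (W2 := 536870912) (P3 := 1046898278) (W3 := 26843546)
    rfl k0_pm_112

noncomputable def f_pm_113 : ℕ → ℕ → ℕ → ℕ → Bool := onCell 536870912 536870912 0 1230186008 1046898278 26843546
    (rowFX 0 false true false .nn 1 1 3 (qsf 536870912 536870912 0 1230186008 1) ndF7q1 ndF5q3 pcF1 Cut.none Ext.none)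

def k0_pm_113 : ∃ t, chk3 f_pm_113 t 1 1 1 = true :=
  ⟨(b (a (l 2) (b (a (l 2) (a (l 2) (a (l 2) (b (l 16656096) (l 4))))) (l 4))) (l 4)), by decide +kernel⟩

theorem c_pm_113 : CertFX 536870912 536870912 0 1230186008 1046898278 26843546 false true false .nn 1 1 3
    ndF7q1 ndF5q3 pcF1 Cut.none Ext.none :=
  certFX0 (fam := false) (s1 := true) (s2 := false) (a := 1) (b := 1) (c := 3) (cn := .nn) (n1 := ndF7q1) (n2 := ndF5q3) (pc := pcF1) (cut := Cut.none) (xt := Ext.none) (P1 := 536870912) (W1 := 536870912) (P2 := 0) (W2 := 1230186008) (P3 := 1046898278) (W3 := 26843546)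
    rfl k0_pm_113

noncomputable def f_pm_123 : ℕ → ℕ → ℕ → ℕ → Bool := onCell 1073741824 536870912 0 1230186008 1046898278 26843546
    (rowFX 2 false true false .npn 1 2 3 (qsf 536870912 536870912 0 1230186008 2) ndF7q1 ndF5q3 pcF2 Cut.none Ext.none)

def k0_pm_123 : ∃ t, chk3 f_pm_123 t 1 1 1 = true :=
  ⟨(b (a (a (b (a (b (l 15053472) (l 4)) (l 4)) (l 4)) (l 4)) (l 4)) (l 4)), by decide +kernel⟩

theorem c_pm_123 : CertFX 536870912 536870912 0 1230186008 1046898278 26843546 false true false .npn 1 2 3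
    ndF7q1 ndF5q3 pcF2 Cut.none Ext.none :=
  certFX2 (fam := false) (s1 := true) (s2 := false) (a := 1) (b := 2) (c := 3) (cn := .npn) (n1 := ndF7q1) (n2 := ndF5q3) (pc := pcF2) (cut := Cut.none) (xt := Ext.none) (P1 := 536870912) (W1 := 536870912) (P2 := 0) (W2 := 1230186008) (P3 := 1046898278) (W3 := 26843546)
    rfl (fun _ => rfl) k0_pm_123

noncomputable def f_pm_133 : ℕ → ℕ → ℕ → ℕ → Bool := onCell 1610612736 536870912 0 1230186008 1046898278 26843546
    (rowFX 2 false true false .dn 1 3 3 (qsf 536870912 536870912 0 1230186008 3) ndF7q1 ndF5q3 pcF3 Cut.none Ext.none)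

def k0_pm_133 : ∃ t, chk3 f_pm_133 t 1 1 1 = true :=
  ⟨(b (l 4) (l 1)), by decide +kernel⟩

theorem c_pm_133 : CertFX 536870912 536870912 0 1230186008 1046898278 26843546 false true false .dn 1 3 3
    ndF7q1 ndF5q3 pcF3 Cut.none Ext.none :=
  certFX2 (fam := false) (s1 := true) (s2 := false) (a := 1) (b := 3) (c := 3) (cn := .dn) (n1 := ndF7q1) (n2 := ndF5q3) (pc := pcF3) (cut := Cut.none) (xt := Ext.none) (P1 := 536870912) (W1 := 536870912) (P2 := 0) (W2 := 1230186008) (P3 := 1046898278) (W3 := 26843546)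
    rfl (fun _ => rfl) k0_pm_133

noncomputable def f_pm_202 : ℕ → ℕ → ℕ → ℕ → Bool := onCell 0 536870912 1073741824 536870912 1046898278 26843546
    (rowFX 2 false true false .pp 2 0 2 (qsf 1073741824 536870912 1073741824 536870912 0) ndF7q2 ndF5q2 pcF0 Cut.none Ext.none)

def k0_pm_202 : ∃ t, chk3 f_pm_202 t 1 1 1 = true :=
  ⟨(a (b (l 4) (b (l 4) (b (l 4) (a (a (a (a (a (l 16699504) (l 16716680)) (l 16732920)) (l 16757264)) (a (l 16774992) (l 4))) (l 4))))) (l 4)), by decide +kernel⟩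

theorem c_pm_202 : CertFX 1073741824 536870912 1073741824 536870912 1046898278 26843546 false true false .pp 2 0 2
    ndF7q2 ndF5q2 pcF0 Cut.none Ext.none :=
  certFX2 (fam := false) (s1 := true) (s2 := false) (a := 2) (b := 0) (c := 2) (cn := .pp) (n1 := ndF7q2) (n2 := ndF5q2) (pc := pcF0) (cut := Cut.none) (xt := Ext.none) (P1 := 1073741824) (W1 := 536870912) (P2 := 1073741824) (W2 := 536870912) (P3 := 1046898278) (W3 := 26843546)
    rfl (fun _ => rfl) k0_pm_202

noncomputable def f_pm_203 : ℕ → ℕ → ℕ → ℕ → Bool := onCell 1073741824 536870912 0 1230186008 1046898278 26843546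
    (rowFX 0 false true false .up 2 0 3 (qsf 1073741824 536870912 0 1230186008 0) ndF7q2 ndF5q3 pcF0 Cut.none Ext.none)

def k0_pm_203 : ∃ t, chk3 f_pm_203 t 1 1 1 = true :=
  ⟨(b (a (l 2) (a (l 2) (b (l 16759464) (b (l 16738040) (l 16750656))))) (b (a (a (l 2) (a (l 2) (l 15964192))) (a (a (l 16464408) (l 16767560)) (c (l 16777184) (l 16777184)))) (a (l 4) (b (a (a (l 16464376) (l 16767528)) (a (l 16774776) (b (l 16767800) (l 16715576)))) (a (a (l 4) (b (l 16767536) (l 4))) (b (a (l 16760208) (l 16670912)) (a (a (l 16773296) (b (l 16749968) (l 16760144))) (b (l 16655192) (a (l 16703120) (b (l 16611456) (c (l 16617008) (l 16615624)))))))))))), by decide +kernel⟩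

theorem c_pm_203 : CertFX 1073741824 536870912 0 1230186008 1046898278 26843546 false true false .up 2 0 3
    ndF7q2 ndF5q3 pcF0 Cut.none Ext.none :=
  certFX0 (fam := false) (s1 := true) (s2 := false) (a := 2) (b := 0) (c := 3) (cn := .up) (n1 := ndF7q2) (n2 := ndF5q3) (pc := pcF0) (cut := Cut.none) (xt := Ext.none) (P1 := 1073741824) (W1 := 536870912) (P2 := 0) (W2 := 1230186008) (P3 := 1046898278) (W3 := 26843546)
    rfl k0_pm_203

noncomputable def f_pm_213 : ℕ → ℕ → ℕ → ℕ → Bool := onCell 536870912 536870912 0 1230186008 1046898278 26843546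
    (rowFX 2 false true false .pnn 2 1 3 (qsf 1073741824 536870912 0 1230186008 1) ndF7q2 ndF5q3 pcF1 Cut.none Ext.none)

def k0_pm_213 : ∃ t, chk3 f_pm_213 t 1 1 1 = true :=
  ⟨(b (a (a (b (l 16822376) (b (l 16734656) (l 16697592))) (b (a (l 16705152) (l 16380784)) (b (l 16365880) (a (l 16265128) (a (l 15939008) (l 15687416)))))) (a (b (a (l 15871336) (b (l 15395992) (b (l 15307960) (a (l 15369960) (c (l 15229240) (l 15156176)))))) (a (b (b (l 15666296) (a (l 15660544) (l 15580504))) (a (l 15293400) (b (l 15241584) (l 4)))) (b (a (b (a (l 15289080) (l 15408776)) (l 15350256)) (b (l 15488248) (l 15131768))) (a (l 14663800) (l 4))))) (b (a (a (b (l 15552016) (a (a (l 15311696) (l 15425296)) (b (l 15598656) (l 15480000)))) (b (l 15870032) (c (a (l 15581712) (l 15578208)) (l 15348696)))) (a (a (b (l 16154552) (c (l 15528392) (l 15109720))) (c (l 15374712) (l 14445952))) (c (l 16617848) (a (l 14606608) (l 15991912))))) (b (a (b (a (l 15187432) (l 14738496)) (l 4)) (l 4)) (l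 4))))) (a (b (a (b (a (l 16663544) (l 16317568)) (a (l 16217200) (l 15660600))) (b (a (l 15793272) (a (l 15322808) (l 14894024))) (l 4))) (l 4)) (b (b (l 4) (l 4)) (l 1)))), by decide +kernel⟩

theorem c_pm_213 : CertFX 1073741824 536870912 0 1230186008 1046898278 26843546 false true false .pnn 2 1 3
    ndF7q2 ndF5q3 pcF1 Cut.none Ext.none :=
  certFX2 (fam := false) (s1 := true) (s2 := false) (a := 2) (b := 1) (c := 3) (cn := .pnn) (n1 := ndF7q2) (n2 := ndF5q3) (pc := pcF1) (cut := Cut.none) (xt := Ext.none) (P1 := 1073741824) (W1 := 536870912) (P2 := 0) (W2 := 1230186008) (P3 := 1046898278) (W3 := 26843546)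
    rfl (fun _ => rfl) k0_pm_213

noncomputable def f_pm_303 : ℕ → ℕ → ℕ → ℕ → Bool := onCell 0 1230186008 0 1230186008 1046898278 26843546
    (rowFX 0 false true false .npn 3 0 3 (qsf 0 1230186008 0 1230186008 0) ndF7q3 ndF5q3 pcF0 Cut.none Ext.none)

def k0_pm_303 : ∃ t, chk3 f_pm_303 t 2 1 1 = true :=
  ⟨(b (l 3) (b (l 3) (l 1))), by decide +kernel⟩

def k1_pm_303 : ∃ t, chk3 f_pm_303 t 3 2 1 = true :=
  ⟨(a (b (l 3) (a (l 3) (a (b (l 3) (l 3)) (b (a (l 3) (b (l 3) (l 494088275463))) (b (a (l 458654022567) (l 16360376)) (a (c (l 16036656) (l 415703832343)) (a (l 16134176) (l 16233512)))))))) (a (b (a (c (l 499457854375) (l 498920981671)) (c (l 16764288) (l 16757496))) (a (b (a (b (l 479592977191) (a (l 16598120) (l 16711576))) (c (l 16744904) (l 16731272))) (a (b (c (l 16574848) (l 16564072)) (l 16400112)) (b (a (l 16696608) (l 16731624)) (l 16624984)))) (a (b (l 16738040) (b (l 16734352) (l 16744968))) (l 16743472)))) (b (a (a (l 16759464) (l 16759464)) (l 16759464))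 (a (b (l 16738040) (l 16750656)) (b (l 16738040) (l 16750656)))))), by decide +kernel⟩

def k2_pm_303 : ∃ t, chk3 f_pm_303 t 12 6 1 = true :=
  ⟨(b (a (l 3) (l 3)) (b (b (b (b (b (l 3) (l 1)) (l 1)) (l 1)) (l 1)) (l 1))), by decide +kernel⟩

def k3_pm_303 : ∃ t, chk3 f_pm_303 t 52 6 1 = true :=
  ⟨(b (b (l 3) (b (a (l 3) (c (c (l 15117176) (l 15124760)) (l 15103840))) (c (b (c (l 14945632) (l 430734382343)) (b (a (l 14834704) (l 14934472)) (b (l 14689792) (a (l 14794336) (l 14884864))))) (a (a (c (l 396910818231) (b (l 3) (l 14634288))) (c (a (l 236923481159) (l 234776058551)) (l 230481055335))) (c (b (l 14985224) (l 14862360)) (l 14930544)))))) (b (b (c (b (a (b (l 14776600) (l 14738232)) (a (b (l 14841736) (l 14840552)) (c (l 14907128) (a (l 14896864) (l 14922424))))) (a (l 14473376) (a (l 14738600) (l 14717472)))) (b (a (b (c (a (l 14717504) (b (l 14770088) (l 14768240))) (a (c (l 14700032) (b (l 14639792) (l 14688104))) (c (l 14756184) (l 14749784)))) (c (l 14688016)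 (c (l 1436158520775) (l 14675592)))) (c (a (b (l 14744224) (l 14716560)) (l 14885472)) (b (l 14842512) (l 14822728)))) (a (c (l 14593000) (l 14582048)) (c (b (l 14806248) (l 14759048)) (b (a (l 14761712) (l 14828360)) (l 1381397866583)))))) (c (l 1534405576295) (b (l 14564680) (l 1)))) (l 1))), by decide +kernel⟩

def k4_pm_303 : ∃ t, chk3 f_pm_303 t 53 6 1 = true :=
  ⟨(b (b (a (b (l 3) (c (c (l 15385600) (l 15367800)) (l 15340520))) (c (l 15618136) (l 181627465479))) (c (b (c (a (l 15228624) (l 15357904)) (a (l 15223032) (l 15342656))) (c (a (l 15082584) (l 15205208)) (l 15144840))) (b (a (l 15198776) (l 15293912)) (c (l 15137776) (l 15114904))))) (b (b (c (b (a (c (b (l 14983048) (l 14981832)) (l 14981464)) (l 15092880)) (a (c (a (l 14908016) (l 14966144)) (b (l 14932504) (l 14928872))) (c (l 15045776) (l 15036888)))) (b (c (l 15036168) (l 15030400)) (a (c (b (l 14937544) (l 14892728)) (a (l 14839520) (l 14945848))) (l 14924320)))) (b (c (a (l 14871328) (b (l 15035224)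 (l 15015560))) (a (c (a (l 14818104) (l 14904160)) (b (a (l 14840864) (l 14906960)) (l 1517226763095))) (b (l 14998488) (c (l 14991672) (l 14979800))))) (c (a (l 14752960) (l 14949224)) (a (l 14746872) (c (b (l 14963344) (l 14917816)) (b (a (l 14878208) (l 14985608)) (a (l 14865760) (l 14959832)))))))) (b (b (c (l 14730128) (l 14514000)) (l 1)) (l 1)))), by decide +kernel⟩

def k5_pm_303 : ∃ t, chk3 f_pm_303 t 27 6 1 = true :=
  ⟨(b (b (c (a (b (l 15861832) (l 15711992)) (l 16041416)) (a (b (l 15838048) (l 15684256)) (l 16022296))) (b (c (a (l 15367360) (l 15845320)) (a (l 15546696) (l 15821088))) (a (c (b (l 15506672) (l 15402728)) (a (l 15356256) (l 15488848))) (c (b (l 15781680) (l 15716192)) (l 15694288))))) (b (a (b (c (b (l 15323280) (l 15226816)) (l 15279952)) (c (b (a (c (l 15134200) (l 15114048)) (l 15218384)) (a (b (c (l 15119448) (l 15099216)) (a (l 15065248) (l 15136864))) (c (l 15213736) (l 15194824)))) (b (l 15189048) (a (b (l 15076128) (c (l 15071640) (l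 15060520))) (l 14913704))))) (c (b (b (l 15617920) (l 15550968)) (b (l 15471800) (c (l 15378432) (l 15405608)))) (b (l 15565128) (b (l 15466808) (l 15404256))))) (a (b (a (b (b (c (l 15053888) (b (a (l 15022056) (l 15093256)) (l 15029960))) (l 15013344)) (l 14905456)) (c (l 15135728) (b (l 15142360) (l 15093240)))) (c (l 14850200) (l 14844520))) (c (b (a (l 15267008) (l 15393832)) (b (l 15253560) (l 15171344))) (b (a (l 15249528) (l 15379048)) (b (a (l 15172832) (l 15298024)) (a (l 15075344) (l 15252504)))))))), by decide +kernel⟩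

def k6_pm_303 : ∃ t, chk3 f_pm_303 t 6 7 1 = true :=
  ⟨(a (l 1) (b (a (l 1) (b (b (a (l 1) (l 1369587503655)) (l 1)) (l 1))) (l 1))), by decide +kernel⟩

def k7_pm_303 : ∃ t, chk3 f_pm_303 t 7 6 1 = true :=
  ⟨(a (b (a (b (a (l 16218160) (l 16418984)) (a (b (l 16101568) (c (l 15978336) (l 15948544))) (l 16162712))) (b (a (l 16624400) (l 16750224)) (a (l 16415888) (l 16608264)))) (b (a (a (b (c (l 15844144) (l 15846288)) (c (c (l 15713000) (l 15726408)) (l 15706520))) (b (l 16108496) (b (l 16016776) (l 15957880)))) (a (b (l 16288920) (l 16185992)) (l 16418704))) (a (a (b (c (l 15581944) (l 15578992)) (c (a (l 15419128) (l 15544120)) (a (l 15404032) (l 15530288)))) (c (l 15784568) (l 15781360))) (a (l 16031704) (l 16243320))))) (b (a (b (l 16777192) (a (l 16739328) (l 16777144))) (l 16777168)) (a (b (a (l 16598768) (l 16724264)) (l 16510984)) (b (l 16775728) (l 16732712))))), by decide +kernel⟩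

def k8_pm_303 : ∃ t, chk3 f_pm_303 t 7 7 1 = true :=
  ⟨(a (b (b (a (b (b (a (a (c (l 15342536) (l 15332240)) (c (l 15479904) (l 15453368))) (c (l 15656424) (l 15643456))) (a (a (l 15236584) (c (l 15421336) (l 15412024))) (a (c (l 15555384) (l 15538944)) (l 15639000)))) (a (l 15026832) (a (b (c (l 15500568) (a (l 15460096) (l 15529632))) (l 15412648)) (b (c (l 15631456) (l 15616264)) (c (l 15580080) (a (l 15540672) (l 15608520))))))) (a (b (l 15865128) (a (b (l 15713400) (c (l 15707384) (l 15693384))) (l 15829128))) (b (l 16112128) (l 16003720)))) (a (b (a (l 1) (l 15372016)) (l 1)) (b (b (a (a (c (l 15659560) (a (l 15621304) (l 15687344))) (c (l 15783128) (l 15770288))) (l 15938576)) (a (a (l 15581144) (c (l 15739008) (a (l 15701968) (l 15766088)))) (a (c (l 15858680) (l 15846952)) (l 15935120)))) (a (l 15551784) (a (b (c (l 15818392) (a (l 15782656) (l 15844728))) (l 15750752)) (b (c (l 15934000) (l 15923352)) (c (l 15900856) (a (l 15863344) (l 15925288))))))))) (a (l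 1) (b (b (a (l 1) (l 1085584936119)) (l 1)) (l 1)))) (b (a (b (a (l 16262632) (l 16441136)) (a (b (l 16137920) (a (b (l 16008448) (c (l 16011608) (l 16002072))) (l 16117360))) (b (l 16350000) (l 16262952)))) (b (l 16649000) (b (l 16556104) (l 16508016)))) (a (b (b (a (a (l 15950536) (b (l 16075144) (l 16054360))) (a (l 16160856) (l 16254424))) (a (l 15917912) (a (l 16114912) (b (l 16225112) (l 16212352))))) (b (a (l 1) (l 16104176)) (l 1))) (b (a (b (l 16391376) (a (l 16306440) (l 16394704))) (l 16519680)) (a (b (a (b (l 16291144) (l 16265048)) (b (l 16373712) (l 16369776))) (l 16292520)) (b (a (c (l 16452104) (l 16449288)) (l 16525440)) (a (b (l 16448224) (l 16438152)) (b (l 16520728) (l 16526472))))))))), by decide +kernel⟩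

theorem s9_pm_303 : ∃ t, chk3 f_pm_303 t 7 3 1 = true := ex3_b k7_pm_303 k8_pm_303

theorem s10_pm_303 : ∃ t, chk3 f_pm_303 t 26 6 1 = true := ex3_a k3_pm_303 k4_pm_303

theorem s11_pm_303 : ∃ t, chk3 f_pm_303 t 13 6 1 = true := ex3_a s10_pm_303 k5_pm_303

theorem s12_pm_303 : ∃ t, chk3 f_pm_303 t 6 6 1 = true := ex3_a k2_pm_303 s11_pm_303

theorem s13_pm_303 : ∃ t, chk3 f_pm_303 t 6 3 1 = true := ex3_b s12_pm_303 k6_pm_303

theorem s14_pm_303 : ∃ t, chk3 f_pm_303 t 3 3 1 = true := ex3_a s13_pm_303 s9_pm_303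

theorem s15_pm_303 : ∃ t, chk3 f_pm_303 t 3 1 1 = true := ex3_b k1_pm_303 s14_pm_303

theorem s16_pm_303 : ∃ t, chk3 f_pm_303 t 1 1 1 = true := ex3_a k0_pm_303 s15_pm_303

theorem c_pm_303 : CertFX 0 1230186008 0 1230186008 1046898278 26843546 false true false .npn 3 0 3
    ndF7q3 ndF5q3 pcF0 Cut.none Ext.none :=
  certFX0 (fam := false) (s1 := true) (s2 := false) (a := 3) (b := 0) (c := 3) (cn := .npn) (n1 := ndF7q3) (n2 := ndF5q3) (pc := pcF0) (cut := Cut.none) (xt := Ext.none) (P1 := 0) (W1 := 1230186008) (P2 := 0) (W2 := 1230186008) (P3 := 1046898278) (W3 := 26843546)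
    rfl s16_pm_303

noncomputable def f_pm_313 : ℕ → ℕ → ℕ → ℕ → Bool := onCell 0 1230186008 0 1230186008 1046898278 26843546
    (rowFX 0 false true false .dn 3 1 3 (qsf 0 1230186008 0 1230186008 1) ndF7q3 ndF5q3 pcF1 Cut.none Ext.none)

def k0_pm_313 : ∃ t, chk3 f_pm_313 t 1 1 1 = true :=
  ⟨(a (l 1) (b (a (l 1) (a (l 1) (b (a (l 1) (l 16759088)) (l 1)))) (l 1))), by decide +kernel⟩

theorem c_pm_313 : CertFX 0 1230186008 0 1230186008 1046898278 26843546 false true false .dn 3 1 3
    ndF7q3 ndF5q3 pcF1 Cut.none Ext.none :=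
  certFX0 (fam := false) (s1 := true) (s2 := false) (a := 3) (b := 1) (c := 3) (cn := .dn) (n1 := ndF7q3) (n2 := ndF5q3) (pc := pcF1) (cut := Cut.none) (xt := Ext.none) (P1 := 0) (W1 := 1230186008) (P2 := 0) (W2 := 1230186008) (P3 := 1046898278) (W3 := 26843546)
    rfl k0_pm_313

noncomputable def f_mm_001 : ℕ → ℕ → ℕ → ℕ → Bool := onCell 0 536870912 536870912 469762048 1046898278 26843546
    (rowFX 0 false false false .up 0 0 1 (qsf 0 536870912 536870912 469762048 0) ndF7q0 ndF5q1 pcF0 Cut.none Ext.none)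

def k0_mm_001 : ∃ t, chk3 f_mm_001 t 1 1 1 = true :=
  ⟨(l 3), by decide +kernel⟩

theorem c_mm_001 : CertFX 0 536870912 536870912 469762048 1046898278 26843546 false false false .up 0 0 1
    ndF7q0 ndF5q1 pcF0 Cut.none Ext.none :=
  certFX0 (fam := false) (s1 := false) (s2 := false) (a := 0) (b := 0) (c := 1) (cn := .up) (n1 := ndF7q0) (n2 := ndF5q1) (pc := pcF0) (cut := Cut.none) (xt := Ext.none) (P1 := 0) (W1 := 536870912) (P2 := 536870912) (W2 := 469762048) (P3 := 1046898278) (W3 := 26843546)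
    rfl k0_mm_001

noncomputable def f_mm_011 : ℕ → ℕ → ℕ → ℕ → Bool := onCell 0 536870912 536870912 469762048 1046898278 26843546
    (rowFX 0 false false false .pnn 0 1 1 (qsf 0 536870912 536870912 469762048 1) ndF7q0 ndF5q1 pcF1 Cut.none Ext.none)

def k0_mm_011 : ∃ t, chk3 f_mm_011 t 1 1 1 = true :=
  ⟨(l 3), by decide +kernel⟩

theorem c_mm_011 : CertFX 0 536870912 536870912 469762048 1046898278 26843546 false false false .pnn 0 1 1
    ndF7q0 ndF5q1 pcF1 Cut.none Ext.none :=
  certFX0 (fam := false) (s1 := false) (s2 := false) (a := 0) (b := 1) (c := 1) (cn := .pnn) (n1 := ndF7q0) (n2 := ndF5q1) (pc := pcF1) (cut := Cut.none) (xt := Ext.none) (P1 := 0) (W1 := 536870912) (P2 := 536870912) (W2 := 469762048) (P3 := 1046898278) (W3 := 26843546)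
    rfl k0_mm_011

noncomputable def f_mm_012 : ℕ → ℕ → ℕ → ℕ → Bool := onCell 0 536870912 1073741824 536870912 1046898278 26843546
    (rowFX 0 false false false .pnp 0 1 2 (qsf 0 536870912 1073741824 536870912 1) ndF7q0 ndF5q2 pcF1 Cut.none Ext.none)

def k0_mm_012 : ∃ t, chk3 f_mm_012 t 1 1 1 = true :=
  ⟨(l 5), by decide +kernel⟩

theorem c_mm_012 : CertFX 0 536870912 1073741824 536870912 1046898278 26843546 false false false .pnp 0 1 2
    ndF7q0 ndF5q2 pcF1 Cut.none Ext.none :=
  certFX0 (fam := false) (s1 := false) (s2 := false) (a := 0) (b := 1) (c := 2) (cn := .pnp) (n1 := ndF7q0) (n2 := ndF5q2) (pc := pcF1) (cut := Cut.none) (xt := Ext.none) (P1 := 0) (W1 := 536870912) (P2 := 1073741824) (W2 := 536870912) (P3 := 1046898278) (W3 := 26843546)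
    rfl k0_mm_012

noncomputable def f_mm_022 : ℕ → ℕ → ℕ → ℕ → Bool := onCell 0 536870912 1073741824 536870912 1046898278 26843546
    (rowFX 0 false false false .pp 0 2 2 (qsf 0 536870912 1073741824 536870912 2) ndF7q0 ndF5q2 pcF2 Cut.none Ext.none)

def k0_mm_022 : ∃ t, chk3 f_mm_022 t 1 1 1 = true :=
  ⟨(l 5), by decide +kernel⟩

theorem c_mm_022 : CertFX 0 536870912 1073741824 536870912 1046898278 26843546 false false false .pp 0 2 2
    ndF7q0 ndF5q2 pcF2 Cut.none Ext.none :=
  certFX0 (fam := false) (s1 := false) (s2 := false) (a := 0) (b := 2) (c := 2) (cn := .pp) (n1 := ndF7q0) (n2 := ndF5q2) (pc := pcF2) (cut := Cut.none) (xt := Ext.none) (P1 := 0) (W1 := 536870912) (P2 := 1073741824) (W2 := 536870912) (P3 := 1046898278) (W3 := 26843546)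
    rfl k0_mm_022

noncomputable def f_mm_023 : ℕ → ℕ → ℕ → ℕ → Bool := onCell 0 536870912 0 1230186008 1046898278 26843546
    (rowFX 0 false false false .up 0 2 3 (qsf 0 536870912 0 1230186008 2) ndF7q0 ndF5q3 pcF2 Cut.none Ext.none)

def k0_mm_023 : ∃ t, chk3 f_mm_023 t 1 1 1 = true :=
  ⟨(l 5), by decide +kernel⟩

theorem c_mm_023 : CertFX 0 536870912 0 1230186008 1046898278 26843546 false false false .up 0 2 3
    ndF7q0 ndF5q3 pcF2 Cut.none Ext.none :=
  certFX0 (fam := false) (s1 := false) (s2 := false) (a := 0) (b := 2) (c := 3) (cn := .up) (n1 := ndF7q0) (n2 := ndF5q3) (pc := pcF2) (cut := Cut.none) (xt := Ext.none) (P1 := 0) (W1 := 536870912) (P2 := 0) (W2 := 1230186008) (P3 := 1046898278) (W3 := 26843546)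
    rfl k0_mm_023

noncomputable def f_mm_033 : ℕ → ℕ → ℕ → ℕ → Bool := onCell 0 536870912 0 1230186008 1046898278 26843546
    (rowFX 0 false false false .pnn 0 3 3 (qsf 0 536870912 0 1230186008 3) ndF7q0 ndF5q3 pcF3 Cut.none Ext.none)

def k0_mm_033 : ∃ t, chk3 f_mm_033 t 1 1 1 = true :=
  ⟨(l 5), by decide +kernel⟩

theorem c_mm_033 : CertFX 0 536870912 0 1230186008 1046898278 26843546 false false false .pnn 0 3 3
    ndF7q0 ndF5q3 pcF3 Cut.none Ext.none :=
  certFX0 (fam := false) (s1 := false) (s2 := false) (a := 0) (b := 3) (c := 3) (cn := .pnn) (n1 := ndF7q0) (n2 := ndF5q3) (pc := pcF3) (cut := Cut.none) (xt := Ext.none) (P1 := 0) (W1 := 536870912) (P2 := 0) (W2 := 1230186008) (P3 := 1046898278) (W3 := 26843546)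
    rfl k0_mm_033

noncomputable def f_mm_101 : ℕ → ℕ → ℕ → ℕ → Bool := onCell 536870912 536870912 536870912 469762048 1046898278 26843546
    (rowFX 0 false false false .npn 1 0 1 (qsf 536870912 536870912 536870912 469762048 0) ndF7q1 ndF5q1 pcF0 Cut.none Ext.none)

def k0_mm_101 : ∃ t, chk3 f_mm_101 t 1 1 1 = true :=
  ⟨(l 3), by decide +kernel⟩

theorem c_mm_101 : CertFX 536870912 536870912 536870912 469762048 1046898278 26843546 false false false .npn 1 0 1
    ndF7q1 ndF5q1 pcF0 Cut.none Ext.none :=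
  certFX0 (fam := false) (s1 := false) (s2 := false) (a := 1) (b := 0) (c := 1) (cn := .npn) (n1 := ndF7q1) (n2 := ndF5q1) (pc := pcF0) (cut := Cut.none) (xt := Ext.none) (P1 := 536870912) (W1 := 536870912) (P2 := 536870912) (W2 := 469762048) (P3 := 1046898278) (W3 := 26843546)
    rfl k0_mm_101

noncomputable def f_mm_102 : ℕ → ℕ → ℕ → ℕ → Bool := onCell 536870912 536870912 1073741824 536870912 1046898278 26843546
    (rowFX 0 false false false .npp 1 0 2 (qsf 536870912 536870912 1073741824 536870912 0) ndF7q1 ndF5q2 pcF0 Cut.none Ext.none)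

def k0_mm_102 : ∃ t, chk3 f_mm_102 t 1 1 1 = true :=
  ⟨(l 5), by decide +kernel⟩

theorem c_mm_102 : CertFX 536870912 536870912 1073741824 536870912 1046898278 26843546 false false false .npp 1 0 2
    ndF7q1 ndF5q2 pcF0 Cut.none Ext.none :=
  certFX0 (fam := false) (s1 := false) (s2 := false) (a := 1) (b := 0) (c := 2) (cn := .npp) (n1 := ndF7q1) (n2 := ndF5q2) (pc := pcF0) (cut := Cut.none) (xt := Ext.none) (P1 := 536870912) (W1 := 536870912) (P2 := 1073741824) (W2 := 536870912) (P3 := 1046898278) (W3 := 26843546)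
    rfl k0_mm_102

noncomputable def f_mm_112 : ℕ → ℕ → ℕ → ℕ → Bool := onCell 536870912 536870912 1073741824 536870912 1046898278 26843546
    (rowFX 0 false false false .dn 1 1 2 (qsf 536870912 536870912 1073741824 536870912 1) ndF7q1 ndF5q2 pcF1 Cut.none Ext.none)

def k0_mm_112 : ∃ t, chk3 f_mm_112 t 1 1 1 = true :=
  ⟨(l 5), by decide +kernel⟩

theorem c_mm_112 : CertFX 536870912 536870912 1073741824 536870912 1046898278 26843546 false false false .dn 1 1 2
    ndF7q1 ndF5q2 pcF1 Cut.none Ext.none :=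
  certFX0 (fam := false) (s1 := false) (s2 := false) (a := 1) (b := 1) (c := 2) (cn := .dn) (n1 := ndF7q1) (n2 := ndF5q2) (pc := pcF1) (cut := Cut.none) (xt := Ext.none) (P1 := 536870912) (W1 := 536870912) (P2 := 1073741824) (W2 := 536870912) (P3 := 1046898278) (W3 := 26843546)
    rfl k0_mm_112

noncomputable def f_mm_113 : ℕ → ℕ → ℕ → ℕ → Bool := onCell 536870912 536870912 0 1230186008 1046898278 26843546
    (rowFX 0 false false false .nn 1 1 3 (qsf 536870912 536870912 0 1230186008 1) ndF7q1 ndF5q3 pcF1 Cut.none Ext.none)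

def k0_mm_113 : ∃ t, chk3 f_mm_113 t 1 1 1 = true :=
  ⟨(l 5), by decide +kernel⟩

theorem c_mm_113 : CertFX 536870912 536870912 0 1230186008 1046898278 26843546 false false false .nn 1 1 3
    ndF7q1 ndF5q3 pcF1 Cut.none Ext.none :=
  certFX0 (fam := false) (s1 := false) (s2 := false) (a := 1) (b := 1) (c := 3) (cn := .nn) (n1 := ndF7q1) (n2 := ndF5q3) (pc := pcF1) (cut := Cut.none) (xt := Ext.none) (P1 := 536870912) (W1 := 536870912) (P2 := 0) (W2 := 1230186008) (P3 := 1046898278) (W3 := 26843546)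
    rfl k0_mm_113

noncomputable def f_mm_123 : ℕ → ℕ → ℕ → ℕ → Bool := onCell 536870912 536870912 0 1230186008 1046898278 26843546
    (rowFX 0 false false false .npn 1 2 3 (qsf 536870912 536870912 0 1230186008 2) ndF7q1 ndF5q3 pcF2 Cut.none Ext.none)

def k0_mm_123 : ∃ t, chk3 f_mm_123 t 1 1 1 = true :=
  ⟨(l 5), by decide +kernel⟩

theorem c_mm_123 : CertFX 536870912 536870912 0 1230186008 1046898278 26843546 false false false .npn 1 2 3
    ndF7q1 ndF5q3 pcF2 Cut.none Ext.none :=
  certFX0 (fam := false) (s1 := false) (s2 := false) (a := 1) (b := 2) (c := 3) (cn := .npn) (n1 := ndF7q1) (n2 := ndF5q3) (pc := pcF2) (cut := Cut.none) (xt := Ext.none) (P1 := 536870912) (W1 := 536870912) (P2 := 0) (W2 := 1230186008) (P3 := 1046898278) (W3 := 26843546)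
    rfl k0_mm_123

noncomputable def f_mm_133 : ℕ → ℕ → ℕ → ℕ → Bool := onCell 536870912 536870912 0 1230186008 1046898278 26843546
    (rowFX 0 false false false .dn 1 3 3 (qsf 536870912 536870912 0 1230186008 3) ndF7q1 ndF5q3 pcF3 Cut.none Ext.none)

def k0_mm_133 : ∃ t, chk3 f_mm_133 t 1 1 1 = true :=
  ⟨(l 5), by decide +kernel⟩

theorem c_mm_133 : CertFX 536870912 536870912 0 1230186008 1046898278 26843546 false false false .dn 1 3 3
    ndF7q1 ndF5q3 pcF3 Cut.none Ext.none :=
  certFX0 (fam := false) (s1 := false) (s2 := false) (a := 1) (b := 3) (c := 3) (cn := .dn) (n1 := ndF7q1) (n2 := ndF5q3) (pc := pcF3) (cut := Cut.none) (xt := Ext.none) (P1 := 536870912) (W1 := 536870912) (P2 := 0) (W2 := 1230186008) (P3 := 1046898278) (W3 := 26843546)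
    rfl k0_mm_133

noncomputable def f_mm_202 : ℕ → ℕ → ℕ → ℕ → Bool := onCell 1073741824 536870912 1073741824 536870912 1046898278 26843546
    (rowFX 0 false false false .pp 2 0 2 (qsf 1073741824 536870912 1073741824 536870912 0) ndF7q2 ndF5q2 pcF0 Cut.none Ext.none)

def k0_mm_202 : ∃ t, chk3 f_mm_202 t 1 1 1 = true :=
  ⟨(l 5), by decide +kernel⟩

theorem c_mm_202 : CertFX 1073741824 536870912 1073741824 536870912 1046898278 26843546 false false false .pp 2 0 2
    ndF7q2 ndF5q2 pcF0 Cut.none Ext.none :=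
  certFX0 (fam := false) (s1 := false) (s2 := false) (a := 2) (b := 0) (c := 2) (cn := .pp) (n1 := ndF7q2) (n2 := ndF5q2) (pc := pcF0) (cut := Cut.none) (xt := Ext.none) (P1 := 1073741824) (W1 := 536870912) (P2 := 1073741824) (W2 := 536870912) (P3 := 1046898278) (W3 := 26843546)
    rfl k0_mm_202

noncomputable def f_mm_203 : ℕ → ℕ → ℕ → ℕ → Bool := onCell 1073741824 536870912 0 1230186008 1046898278 26843546
    (rowFX 0 false false false .up 2 0 3 (qsf 1073741824 536870912 0 1230186008 0) ndF7q2 ndF5q3 pcF0 Cut.none Ext.none)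

def k0_mm_203 : ∃ t, chk3 f_mm_203 t 1 1 1 = true :=
  ⟨(l 5), by decide +kernel⟩

theorem c_mm_203 : CertFX 1073741824 536870912 0 1230186008 1046898278 26843546 false false false .up 2 0 3
    ndF7q2 ndF5q3 pcF0 Cut.none Ext.none :=
  certFX0 (fam := false) (s1 := false) (s2 := false) (a := 2) (b := 0) (c := 3) (cn := .up) (n1 := ndF7q2) (n2 := ndF5q3) (pc := pcF0) (cut := Cut.none) (xt := Ext.none) (P1 := 1073741824) (W1 := 536870912) (P2 := 0) (W2 := 1230186008) (P3 := 1046898278) (W3 := 26843546)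
    rfl k0_mm_203

noncomputable def f_mm_213 : ℕ → ℕ → ℕ → ℕ → Bool := onCell 1073741824 536870912 0 1230186008 1046898278 26843546
    (rowFX 0 false false false .pnn 2 1 3 (qsf 1073741824 536870912 0 1230186008 1) ndF7q2 ndF5q3 pcF1 Cut.none Ext.none)

def k0_mm_213 : ∃ t, chk3 f_mm_213 t 1 1 1 = true :=
  ⟨(l 5), by decide +kernel⟩

theorem c_mm_213 : CertFX 1073741824 536870912 0 1230186008 1046898278 26843546 false false false .pnn 2 1 3
    ndF7q2 ndF5q3 pcF1 Cut.none Ext.none :=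
  certFX0 (fam := false) (s1 := false) (s2 := false) (a := 2) (b := 1) (c := 3) (cn := .pnn) (n1 := ndF7q2) (n2 := ndF5q3) (pc := pcF1) (cut := Cut.none) (xt := Ext.none) (P1 := 1073741824) (W1 := 536870912) (P2 := 0) (W2 := 1230186008) (P3 := 1046898278) (W3 := 26843546)
    rfl k0_mm_213

noncomputable def f_mm_303 : ℕ → ℕ → ℕ → ℕ → Bool := onCell 0 1230186008 0 1230186008 1046898278 26843546
    (rowFX 0 false false false .npn 3 0 3 (qsf 0 1230186008 0 1230186008 0) ndF7q3 ndF5q3 pcF0 Cut.none Ext.none)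

def k0_mm_303 : ∃ t, chk3 f_mm_303 t 1 1 1 = true :=
  ⟨(a (b (l 3) (l 3)) (b (l 5) (a (l 3) (l 5)))), by decide +kernel⟩

theorem c_mm_303 : CertFX 0 1230186008 0 1230186008 1046898278 26843546 false false false .npn 3 0 3
    ndF7q3 ndF5q3 pcF0 Cut.none Ext.none :=
  certFX0 (fam := false) (s1 := false) (s2 := false) (a := 3) (b := 0) (c := 3) (cn := .npn) (n1 := ndF7q3) (n2 := ndF5q3) (pc := pcF0) (cut := Cut.none) (xt := Ext.none) (P1 := 0) (W1 := 1230186008) (P2 := 0) (W2 := 1230186008) (P3 := 1046898278) (W3 := 26843546)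
    rfl k0_mm_303

noncomputable def f_mm_313 : ℕ → ℕ → ℕ → ℕ → Bool := onCell 0 1230186008 0 1230186008 1046898278 26843546
    (rowFX 0 false false false .dn 3 1 3 (qsf 0 1230186008 0 1230186008 1) ndF7q3 ndF5q3 pcF1 Cut.none Ext.none)

def k0_mm_313 : ∃ t, chk3 f_mm_313 t 1 1 1 = true :=
  ⟨(a (l 1) (b (l 5) (l 1))), by decide +kernel⟩

theorem c_mm_313 : CertFX 0 1230186008 0 1230186008 1046898278 26843546 false false false .dn 3 1 3
    ndF7q3 ndF5q3 pcF1 Cut.none Ext.none :=
  certFX0 (fam := false) (s1 := false) (s2 := false) (a := 3) (b := 1) (c := 3) (cn := .dn) (n1 := ndF7q3) (n2 := ndF5q3) (pc := pcF1) (cut := Cut.none) (xt := Ext.none) (P1 := 0) (W1 := 1230186008) (P2 := 0) (W2 := 1230186008) (P3 := 1046898278) (W3 := 26843546)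
    rfl k0_mm_313

end Pool.Agent.Strip051.G.IE1.Tab.C.FB75

namespace Pool.Agent.Strip051.G.IE1.Tab.C.FB76

open Pool.Agent.Strip051.PB Pool.Agent.Strip051.PB.T
open Pool.Agent.Strip051.G.IE1.Tab

noncomputable def f_pp_001 : ℕ → ℕ → ℕ → ℕ → Bool := onCell 0 536870912 536870912 469762048 1046898278 26843546
    (rowFX 0 false true true .up 0 0 1 (qsf 0 536870912 536870912 469762048 0) ndF7q0 ndF6q1 pcF0 Cut.none Ext.none)

def k0_pp_001 : ∃ t, chk3 f_pp_001 t 1 1 1 = true :=
  ⟨(l 3), by decide +kernel⟩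

theorem c_pp_001 : CertFX 0 536870912 536870912 469762048 1046898278 26843546 false true true .up 0 0 1
    ndF7q0 ndF6q1 pcF0 Cut.none Ext.none :=
  certFX0 (fam := false) (s1 := true) (s2 := true) (a := 0) (b := 0) (c := 1) (cn := .up) (n1 := ndF7q0) (n2 := ndF6q1) (pc := pcF0) (cut := Cut.none) (xt := Ext.none) (P1 := 0) (W1 := 536870912) (P2 := 536870912) (W2 := 469762048) (P3 := 1046898278) (W3 := 26843546)
    rfl k0_pp_001

noncomputable def f_pp_011 : ℕ → ℕ → ℕ → ℕ → Bool := onCell 0 536870912 536870912 469762048 1046898278 26843546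
    (rowFX 0 false true true .pnn 0 1 1 (qsf 0 536870912 536870912 469762048 1) ndF7q0 ndF6q1 pcF1 Cut.none Ext.none)

def k0_pp_011 : ∃ t, chk3 f_pp_011 t 1 1 1 = true :=
  ⟨(l 3), by decide +kernel⟩

theorem c_pp_011 : CertFX 0 536870912 536870912 469762048 1046898278 26843546 false true true .pnn 0 1 1
    ndF7q0 ndF6q1 pcF1 Cut.none Ext.none :=
  certFX0 (fam := false) (s1 := true) (s2 := true) (a := 0) (b := 1) (c := 1) (cn := .pnn) (n1 := ndF7q0) (n2 := ndF6q1) (pc := pcF1) (cut := Cut.none) (xt := Ext.none) (P1 := 0) (W1 := 536870912) (P2 := 536870912) (W2 := 469762048) (P3 := 1046898278) (W3 := 26843546)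
    rfl k0_pp_011

noncomputable def f_pp_012 : ℕ → ℕ → ℕ → ℕ → Bool := onCell 536870912 536870912 1073741824 536870912 1046898278 26843546
    (rowFX 2 false true true .pnp 0 1 2 (qsf 0 536870912 1073741824 536870912 1) ndF7q0 ndF6q2 pcF1 Cut.none Ext.none)

def k0_pp_012 : ∃ t, chk3 f_pp_012 t 1 1 1 = true :=
  ⟨(a (b (l 3) (b (l 3) (l 2))) (a (a (b (l 3) (b (l 1327849542967) (l 2))) (b (b (b (l 3) (a (l 3) (b (l 755542489031) (l 15393360)))) (b (a (l 3) (b (b (l 15224480) (l 15358576)) (l 15861248))) (b (a (l 16468936) (l 16477784)) (l 108615363079)))) (b (a (l 16774032) (l 16774168)) (l 16769304)))) (b (b (a (b (c (a (l 15635680) (l 15360568)) (a (l 15543296) (l 15330176))) (b (c (l 15316664) (a (l 15693880) (l 15400104))) (a (l 15530800) (l 15238552)))) (a (b (c (l 14943688) (c (l 15028968) (l 15007624))) (c (a (l 15116096) (l 14964376)) (b (l 15093696) (l 14901840)))) (b (c (a (l 14857688) (l 14739504)) (a (l 14814040) (c (l 14703144) (l 14679808)))) (c (a (l 14835040)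 (l 14714000)) (a (l 14787336) (b (l 14645240) (l 14558640))))))) (a (b (b (a (b (l 15362512) (l 15496552)) (b (l 15089392) (l 15207944))) (a (l 15904816) (l 15631784))) (b (a (l 16376576) (l 16140496)) (a (l 16601688) (l 16389864)))) (b (a (b (c (l 14797664) (l 14594328)) (c (l 15374232) (l 15329792))) (b (b (c (l 14507256) (l 14448144)) (a (l 14676872) (l 14379384))) (c (l 15126664) (l 14872816)))) (a (b (c (l 15920992) (l 15892440)) (l 16178968)) (b (c (l 15700856) (l 15485448)) (a (l 16048224) (l 15970792))))))) (a (b (a (l 16606544) (l 16398824)) (a (l 16615872) (l 16417696))) (a (b (c (l 16213312) (l 16197144)) (b (l 16229224) (l 16253672))) (b (b (a (l 16064400) (l 15988168)) (l 16051648)) (l 16094672))))))), by decide +kernel⟩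

theorem c_pp_012 : CertFX 0 536870912 1073741824 536870912 1046898278 26843546 false true true .pnp 0 1 2
    ndF7q0 ndF6q2 pcF1 Cut.none Ext.none :=
  certFX2 (fam := false) (s1 := true) (s2 := true) (a := 0) (b := 1) (c := 2) (cn := .pnp) (n1 := ndF7q0) (n2 := ndF6q2) (pc := pcF1) (cut := Cut.none) (xt := Ext.none) (P1 := 0) (W1 := 536870912) (P2 := 1073741824) (W2 := 536870912) (P3 := 1046898278) (W3 := 26843546)
    rfl (fun _ => rfl) k0_pp_012

noncomputable def f_pp_022 : ℕ → ℕ → ℕ → ℕ → Bool := onCell 1073741824 536870912 1073741824 536870912 1046898278 26843546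
    (rowFX 2 false true true .pp 0 2 2 (qsf 0 536870912 1073741824 536870912 2) ndF7q0 ndF6q2 pcF2 Cut.none Ext.none)

def k0_pp_022 : ∃ t, chk3 f_pp_022 t 1 1 1 = true :=
  ⟨(a (b (a (b (a (a (b (c (a (b (l 15089816) (l 15189232)) (l 14933352)) (a (c (a (l 15160728) (l 15054696)) (b (l 14779480) (l 14968200))) (c (l 14895504) (l 14871200)))) (b (c (l 15107096) (l 15062552)) (l 14845768))) (b (a (c (l 14728496) (c (l 14688304) (l 14662248))) (b (l 1) (c (l 14555792) (l 14499320)))) (b (l 14656248) (l 14428096)))) (b (a (b (l 1) (b (l 1) (l 14248952))) (l 1)) (b (a (l 14058984) (l 13661248)) (a (l 14052520) (l 13701696))))) (b (a (b (b (l 14329328) (l 14542160)) (a (l 15259720) (l 14866016))) (b (b (l 13689048) (l 13827600)) (l 14106504))) (a (b (l 15409928) (l 15955480)) (b (l 14962904) (l 15278776))))) (b (a (b (l 1) (a (b (l 1) (a (l 13461680) (l 1))) (l 1))) (l 1)) (a (b (a (b (a (l 13352616) (l 13517592)) (a (l 13935176) (l 14099704))) (b (l 14138752) (l 14717560)))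 (a (b (a (l 14565608) (l 14729480)) (l 14968792)) (b (l 15343632) (l 15659856)))) (b (a (b (l 1) (l 15473984)) (l 1)) (a (b (l 16011280) (l 16406048)) (b (l 16468184) (l 16776264))))))) (a (a (b (b (l 15936240) (l 15908296)) (l 15861784)) (b (c (l 15320848) (l 15283024)) (l 15342688))) (a (a (b (a (l 14921888) (l 15083200)) (a (l 14984152) (l 15141952))) (b (l 15682688) (l 15722400))) (a (b (l 16351456) (l 16428336)) (b (l 16776712) (l 16776728)))))) (b (b (l 1) (b (l 1) (a (b (l 1) (l 16776784)) (l 1)))) (a (c (l 16777216) (l 16777216)) (b (l 16777216) (l 16777216))))), by decide +kernel⟩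

theorem c_pp_022 : CertFX 0 536870912 1073741824 536870912 1046898278 26843546 false true true .pp 0 2 2
    ndF7q0 ndF6q2 pcF2 Cut.none Ext.none :=
  certFX2 (fam := false) (s1 := true) (s2 := true) (a := 0) (b := 2) (c := 2) (cn := .pp) (n1 := ndF7q0) (n2 := ndF6q2) (pc := pcF2) (cut := Cut.none) (xt := Ext.none) (P1 := 0) (W1 := 536870912) (P2 := 1073741824) (W2 := 536870912) (P3 := 1046898278) (W3 := 26843546)
    rfl (fun _ => rfl) k0_pp_022

noncomputable def f_pp_023 : ℕ → ℕ → ℕ → ℕ → Bool := onCell 1073741824 536870912 0 1230186008 1046898278 26843546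
    (rowFX 2 false true true .up 0 2 3 (qsf 0 536870912 0 1230186008 2) ndF7q0 ndF6q3 pcF2 Cut.none Ext.none)

def k0_pp_023 : ∃ t, chk3 f_pp_023 t 1 1 1 = true :=
  ⟨(a (b (l 2) (a (b (l 2) (b (l 2) (a (l 15786560) (l 15392936)))) (a (b (l 2) (b (a (l 15220264) (l 15822888)) (a (l 15138000) (l 15770936)))) (b (b (l 2) (l 16481880)) (a (b (l 16450048) (l 16445344)) (b (l 16750272) (l 16776752))))))) (b (a (l 2) (b (l 4) (l 4))) (b (a (a (l 16621992) (l 16770864)) (c (l 16777184) (l 16777176))) (a (b (l 16858232) (a (l 16775464) (l 16776888))) (b (l 16777216) (l 16777216)))))), by decide +kernel⟩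

theorem c_pp_023 : CertFX 0 536870912 0 1230186008 1046898278 26843546 false true true .up 0 2 3
    ndF7q0 ndF6q3 pcF2 Cut.none Ext.none :=
  certFX2 (fam := false) (s1 := true) (s2 := true) (a := 0) (b := 2) (c := 3) (cn := .up) (n1 := ndF7q0) (n2 := ndF6q3) (pc := pcF2) (cut := Cut.none) (xt := Ext.none) (P1 := 0) (W1 := 536870912) (P2 := 0) (W2 := 1230186008) (P3 := 1046898278) (W3 := 26843546)
    rfl (fun _ => rfl) k0_pp_023

noncomputable def f_pp_033 : ℕ → ℕ → ℕ → ℕ → Bool := onCell 1610612736 536870912 0 1230186008 1046898278 26843546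
    (rowFX 2 false true true .pnn 0 3 3 (qsf 0 536870912 0 1230186008 3) ndF7q0 ndF6q3 pcF3 Cut.none Ext.none)

def k0_pp_033 : ∃ t, chk3 f_pp_033 t 1 1 1 = true :=
  ⟨(b (l 4) (b (a (a (c (l 16777184) (l 16777176)) (l 4)) (l 4)) (a (a (c (l 16777216) (b (l 16777216) (l 16777216))) (c (l 16777216) (l 16777216))) (l 1)))), by decide +kernel⟩

theorem c_pp_033 : CertFX 0 536870912 0 1230186008 1046898278 26843546 false true true .pnn 0 3 3
    ndF7q0 ndF6q3 pcF3 Cut.none Ext.none :=
  certFX2 (fam := false) (s1 := true) (s2 := true) (a := 0) (b := 3) (c := 3) (cn := .pnn) (n1 := ndF7q0) (n2 := ndF6q3) (pc := pcF3) (cut := Cut.none) (xt := Ext.none) (P1 := 0) (W1 := 536870912) (P2 := 0) (W2 := 1230186008) (P3 := 1046898278) (W3 := 26843546)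
    rfl (fun _ => rfl) k0_pp_033

noncomputable def f_pp_101 : ℕ → ℕ → ℕ → ℕ → Bool := onCell 536870912 536870912 536870912 469762048 1046898278 26843546
    (rowFX 0 false true true .npn 1 0 1 (qsf 536870912 536870912 536870912 469762048 0) ndF7q1 ndF6q1 pcF0 Cut.none Ext.none)

def k0_pp_101 : ∃ t, chk3 f_pp_101 t 1 1 1 = true :=
  ⟨(l 3), by decide +kernel⟩

theorem c_pp_101 : CertFX 536870912 536870912 536870912 469762048 1046898278 26843546 false true true .npn 1 0 1
    ndF7q1 ndF6q1 pcF0 Cut.none Ext.none :=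
  certFX0 (fam := false) (s1 := true) (s2 := true) (a := 1) (b := 0) (c := 1) (cn := .npn) (n1 := ndF7q1) (n2 := ndF6q1) (pc := pcF0) (cut := Cut.none) (xt := Ext.none) (P1 := 536870912) (W1 := 536870912) (P2 := 536870912) (W2 := 469762048) (P3 := 1046898278) (W3 := 26843546)
    rfl k0_pp_101

noncomputable def f_pp_102 : ℕ → ℕ → ℕ → ℕ → Bool := onCell 536870912 536870912 0 536870912 1046898278 26843546
    (rowFX 1 false true true .npp 1 0 2 (qsf 536870912 536870912 1073741824 536870912 0) ndF7q1 ndF6q2 pcF0 Cut.none Ext.none)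

def k0_pp_102 : ∃ t, chk3 f_pp_102 t 1 1 1 = true :=
  ⟨(l 3), by decide +kernel⟩

theorem c_pp_102 : CertFX 536870912 536870912 1073741824 536870912 1046898278 26843546 false true true .npp 1 0 2
    ndF7q1 ndF6q2 pcF0 Cut.none Ext.none :=
  certFX1 (fam := false) (s1 := true) (s2 := true) (a := 1) (b := 0) (c := 2) (cn := .npp) (n1 := ndF7q1) (n2 := ndF6q2) (pc := pcF0) (cut := Cut.none) (xt := Ext.none) (P1 := 536870912) (W1 := 536870912) (P2 := 1073741824) (W2 := 536870912) (P3 := 1046898278) (W3 := 26843546)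
    rfl (fun _ => rfl) k0_pp_102

noncomputable def f_pp_112 : ℕ → ℕ → ℕ → ℕ → Bool := onCell 536870912 536870912 1073741824 536870912 1046898278 26843546
    (rowFX 2 false true true .dn 1 1 2 (qsf 536870912 536870912 1073741824 536870912 1) ndF7q1 ndF6q2 pcF1 Cut.none Ext.none)

def k0_pp_112 : ∃ t, chk3 f_pp_112 t 1 1 1 = true :=
  ⟨(a (b (l 3) (a (l 3) (b (l 3) (l 3)))) (a (a (b (l 3) (b (l 1327849542967) (b (l 16713528) (l 16453960)))) (b (l 1) (b (a (l 16774032) (l 16774168)) (b (l 16771624) (l 16722856))))) (b (l 1) (b (a (l 473016115623) (l 1)) (a (a (l 16615872) (l 16417696)) (a (l 495027410407) (l 16094672))))))), by decide +kernel⟩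

theorem c_pp_112 : CertFX 536870912 536870912 1073741824 536870912 1046898278 26843546 false true true .dn 1 1 2
    ndF7q1 ndF6q2 pcF1 Cut.none Ext.none :=
  certFX2 (fam := false) (s1 := true) (s2 := true) (a := 1) (b := 1) (c := 2) (cn := .dn) (n1 := ndF7q1) (n2 := ndF6q2) (pc := pcF1) (cut := Cut.none) (xt := Ext.none) (P1 := 536870912) (W1 := 536870912) (P2 := 1073741824) (W2 := 536870912) (P3 := 1046898278) (W3 := 26843546)
    rfl (fun _ => rfl) k0_pp_112

noncomputable def f_pp_113 : ℕ → ℕ → ℕ → ℕ → Bool := onCell 536870912 536870912 0 1230186008 1046898278 26843546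
    (rowFX 2 false true true .nn 1 1 3 (qsf 536870912 536870912 0 1230186008 1) ndF7q1 ndF6q3 pcF1 Cut.none Ext.none)

def k0_pp_113 : ∃ t, chk3 f_pp_113 t 1 1 1 = true :=
  ⟨(b (a (l 2) (a (l 2) (b (a (l 2) (a (l 2) (b (a (l 2) (l 855334810791)) (l 14885776)))) (a (b (l 13122416) (b (l 13444144) (l 621790498423))) (b (a (l 13302792) (l 13716656)) (a (b (l 13622736) (l 13963944)) (l 13985240))))))) (a (b (a (l 2) (b (l 2) (a (l 2) (b (l 2) (c (l 13485720) (l 595483267527)))))) (a (l 3) (a (b (b (c (l 13383984) (l 447306668759)) (c (l 165517477863) (a (l 3) (b (l 13691376) (l 13937776))))) (l 3)) (b (b (c (a (l 13696864) (l 13938688)) (a (b (l 13533936) (l 13731064)) (l 13850712))) (c (a (l 14021456) (l 14426760)) (a (b (l 13969512) (l 14218160)) (l 14391160)))) (b (c (a (l 14708144) (l 15034040)) (l 14638176)) (l 253567722295)))))) (b (a (b (a (l 2) (a (l 13358312) (c (l 13818192) (l 13780368)))) (a (c (a (l 13673096) (l 13693160)) (b (l 13569584) (a (l 13768096) (l 14061216))))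 (b (a (l 13986184) (l 14261552)) (a (l 14303728) (l 14624752))))) (b (a (a (l 13989040) (l 14195576)) (a (l 14405032) (b (l 14471632) (l 14851168)))) (a (c (l 14788088) (l 14725328)) (l 15185176)))) (a (b (a (b (a (c (l 14212776) (l 14204072)) (c (l 14523912) (l 14489136))) (c (a (l 14740008) (l 15084992)) (l 14845968))) (a (b (l 14767568) (l 15360352)) (l 15381968))) (a (b (a (l 15298504) (l 15598032)) (l 15869952)) (a (l 15932072) (b (l 16105848) (l 16542216))))) (a (b (l 15602264) (a (l 16162304) (l 16303328))) (b (l 15810056) (l 16176152))))))), by decide +kernel⟩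

theorem c_pp_113 : CertFX 536870912 536870912 0 1230186008 1046898278 26843546 false true true .nn 1 1 3
    ndF7q1 ndF6q3 pcF1 Cut.none Ext.none :=
  certFX2 (fam := false) (s1 := true) (s2 := true) (a := 1) (b := 1) (c := 3) (cn := .nn) (n1 := ndF7q1) (n2 := ndF6q3) (pc := pcF1) (cut := Cut.none) (xt := Ext.none) (P1 := 536870912) (W1 := 536870912) (P2 := 0) (W2 := 1230186008) (P3 := 1046898278) (W3 := 26843546)
    rfl (fun _ => rfl) k0_pp_113

noncomputable def f_pp_123 : ℕ → ℕ → ℕ → ℕ → Bool := onCell 1073741824 536870912 0 1230186008 1046898278 26843546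
    (rowFX 2 false true true .npn 1 2 3 (qsf 536870912 536870912 0 1230186008 2) ndF7q1 ndF6q3 pcF2 Cut.none Ext.none)

def k0_pp_123 : ∃ t, chk3 f_pp_123 t 1 1 1 = true :=
  ⟨(b (b (a (a (a (b (a (l 15855344) (l 16565296)) (a (l 15294032) (l 15890208))) (a (b (l 16702536) (l 16217008)) (l 16486864))) (a (a (l 16618488) (l 16731408)) (l 4))) (l 4)) (a (a (a (b (a (l 15177592) (l 15125664)) (c (l 14685624) (l 14391032))) (b (l 15690864) (l 15281248))) (a (b (l 16110848) (l 15732136)) (a (l 16299608) (l 16440664)))) (a (a (b (l 16674904) (l 16554192)) (l 16766840)) (l 4)))) (a (a (b (a (b (l 14705112) (l 15098688)) (b (l 15205512) (l 15353096))) (b (a (l 15557984) (l 15434408)) (a (l 15786544) (l 15392936)))) (b (a (b (l 15537624) (a (l 15250176) (l 15810040))) (b (l 16335552) (l 16481880))) (a (b (a (l 15220264) (l 15822888)) (a (l 15138000) (l 1))) (a (l 539050812055) (l 564821988455))))) (b (a (a (l 16622432) (l 16770864)) (c (l 16777184) (l 16777176))) (l 1)))), by decide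 +kernel⟩

theorem c_pp_123 : CertFX 536870912 536870912 0 1230186008 1046898278 26843546 false true true .npn 1 2 3
    ndF7q1 ndF6q3 pcF2 Cut.none Ext.none :=
  certFX2 (fam := false) (s1 := true) (s2 := true) (a := 1) (b := 2) (c := 3) (cn := .npn) (n1 := ndF7q1) (n2 := ndF6q3) (pc := pcF2) (cut := Cut.none) (xt := Ext.none) (P1 := 536870912) (W1 := 536870912) (P2 := 0) (W2 := 1230186008) (P3 := 1046898278) (W3 := 26843546)
    rfl (fun _ => rfl) k0_pp_123

noncomputable def f_pp_133 : ℕ → ℕ → ℕ → ℕ → Bool := onCell 1610612736 536870912 0 1230186008 1046898278 26843546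
    (rowFX 2 false true true .dn 1 3 3 (qsf 536870912 536870912 0 1230186008 3) ndF7q1 ndF6q3 pcF3 Cut.none Ext.none)

def k0_pp_133 : ∃ t, chk3 f_pp_133 t 1 1 1 = true :=
  ⟨(b (l 4) (l 1)), by decide +kernel⟩

theorem c_pp_133 : CertFX 536870912 536870912 0 1230186008 1046898278 26843546 false true true .dn 1 3 3
    ndF7q1 ndF6q3 pcF3 Cut.none Ext.none :=
  certFX2 (fam := false) (s1 := true) (s2 := true) (a := 1) (b := 3) (c := 3) (cn := .dn) (n1 := ndF7q1) (n2 := ndF6q3) (pc := pcF3) (cut := Cut.none) (xt := Ext.none) (P1 := 536870912) (W1 := 536870912) (P2 := 0) (W2 := 1230186008) (P3 := 1046898278) (W3 := 26843546)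
    rfl (fun _ => rfl) k0_pp_133

noncomputable def f_pp_202 : ℕ → ℕ → ℕ → ℕ → Bool := onCell 1073741824 536870912 1073741824 536870912 1046898278 26843546
    (rowFX 0 false true true .pp 2 0 2 (qsf 1073741824 536870912 1073741824 536870912 0) ndF7q2 ndF6q2 pcF0 Cut.none Ext.none)

def k0_pp_202 : ∃ t, chk3 f_pp_202 t 1 1 1 = true :=
  ⟨(l 3), by decide +kernel⟩

theorem c_pp_202 : CertFX 1073741824 536870912 1073741824 536870912 1046898278 26843546 false true true .pp 2 0 2
    ndF7q2 ndF6q2 pcF0 Cut.none Ext.none :=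
  certFX0 (fam := false) (s1 := true) (s2 := true) (a := 2) (b := 0) (c := 2) (cn := .pp) (n1 := ndF7q2) (n2 := ndF6q2) (pc := pcF0) (cut := Cut.none) (xt := Ext.none) (P1 := 1073741824) (W1 := 536870912) (P2 := 1073741824) (W2 := 536870912) (P3 := 1046898278) (W3 := 26843546)
    rfl k0_pp_202

noncomputable def f_pp_203 : ℕ → ℕ → ℕ → ℕ → Bool := onCell 0 536870912 0 1230186008 1046898278 26843546
    (rowFX 2 false true true .up 2 0 3 (qsf 1073741824 536870912 0 1230186008 0) ndF7q2 ndF6q3 pcF0 Cut.none Ext.none)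

def k0_pp_203 : ∃ t, chk3 f_pp_203 t 1 1 1 = true :=
  ⟨(a (b (l 2) (l 3)) (b (a (l 2) (a (b (l 2) (b (l 3) (l 3))) (b (c (l 16725328) (l 16722792)) (c (b (l 16750048) (l 252497057175)) (b (l 16743248) (c (l 16764848) (l 16764688))))))) (b (l 3) (l 3)))), by decide +kernel⟩

theorem c_pp_203 : CertFX 1073741824 536870912 0 1230186008 1046898278 26843546 false true true .up 2 0 3
    ndF7q2 ndF6q3 pcF0 Cut.none Ext.none :=
  certFX2 (fam := false) (s1 := true) (s2 := true) (a := 2) (b := 0) (c := 3) (cn := .up) (n1 := ndF7q2) (n2 := ndF6q3) (pc := pcF0) (cut := Cut.none) (xt := Ext.none) (P1 := 1073741824) (W1 := 536870912) (P2 := 0) (W2 := 1230186008) (P3 := 1046898278) (W3 := 26843546)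
    rfl (fun _ => rfl) k0_pp_203

noncomputable def f_pp_213 : ℕ → ℕ → ℕ → ℕ → Bool := onCell 536870912 536870912 0 1230186008 1046898278 26843546
    (rowFX 2 false true true .pnn 2 1 3 (qsf 1073741824 536870912 0 1230186008 1) ndF7q2 ndF6q3 pcF1 Cut.none Ext.none)

def k0_pp_213 : ∃ t, chk3 f_pp_213 t 1 2 1 = true :=
  ⟨(a (a (b (a (c (l 16725328) (l 16722792)) (l 16723688)) (a (c (b (l 16750048) (c (l 16765184) (l 16764904))) (b (l 16743248) (c (l 16764744) (l 16764584)))) (b (a (b (l 16753096) (l 16755744)) (l 16738968)) (a (c (b (l 16756032) (l 16716008)) (b (l 16755408) (l 16714120))) (b (l 16677456) (l 16538256)))))) (b (a (b (l 16721704) (l 16663208)) (l 16353456)) (b (a (l 16407752) (l 16098368)) (a (a (b (l 16478792) (l 16303840)) (l 16145456)) (l 15484840))))) (a (b (a (l 15860968) (a (l 15415416) (l 15171248))) (a (b (l 15530184) (a (l 15250544) (l 14845424))) (b (a (l 15007624) (l 14656632)) (a (l 14537128) (b (l 14359344) (l 14150424)))))) (b (a (b (l 15555360)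 (a (l 15002000) (l 15022744))) (a (b (l 16004832) (l 14626224)) (b (a (l 16307432) (c (l 16486920) (l 16225360))) (l 15322888)))) (a (b (a (l 14463096) (l 14137864)) (a (b (l 14054544) (l 13800352)) (b (l 13630232) (l 13585928)))) (b (a (l 14029976) (l 1267579775447)) (a (b (l 13609512) (l 1)) (l 1))))))), by decide +kernel⟩

def k1_pp_213 : ∃ t, chk3 f_pp_213 t 1 3 1 = true :=
  ⟨(a (b (a (b (b (a (a (l 3) (c (l 16723640) (l 16722248))) (a (c (l 16560448) (l 16554816)) (l 16324528))) (a (l 3) (a (c (l 16315680) (l 16303688)) (c (l 16065992) (l 16047512))))) (a (l 3) (a (b (l 3) (l 3)) (b (c (l 15739912) (l 15712968)) (c (l 15309624) (l 15271504)))))) (b (a (a (b (l 16072736) (l 15743048)) (b (l 15802272) (l 15459016))) (b (l 15319264) (a (l 15129984) (l 14722872)))) (a (b (a (c (l 15429680) (l 15394672)) (c (l 15079936) (l 15035848))) (c (a (b (l 15078872) (l 14786736)) (b (l 14706376) (l 14490616))) (a (l 14911200) (l 14570496)))) (b (c (a (l 14705096) (l 14405976)) (a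 (l 14685024) (l 14358248))) (c (a (l 14248568) (l 13981064)) (a (l 14282872) (l 13875392))))))) (a (l 3) (b (a (a (b (c (b (l 14569200) (l 3)) (l 14359032)) (l 3)) (b (c (b (l 14244400) (l 13993664)) (b (l 14225472) (l 261080929463))) (c (l 13658576) (b (l 13630720) (l 13469352))))) (b (c (l 13723512) (a (b (l 13909896) (l 13668440)) (l 13513984))) (l 1))) (a (l 3) (l 1))))) (b (a (b (a (b (c (l 14677152) (l 14648024)) (c (l 14319800) (l 14224096))) (a (b (l 14181536) (l 13866848)) (c (l 13750944) (l 13706848)))) (a (b (c (l 13917704) (a (l 14067936) (l 13761648))) (c (l 13592368) (a (l 13655104) (l 13388600)))) (a (b (l 13536216) (l 1)) (l 1)))) (a (b (a (l 13460232) (l 1)) (l 1)) (l 1))) (l 1))), by decide +kernel⟩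

theorem s2_pp_213 : ∃ t, chk3 f_pp_213 t 1 1 1 = true := ex3_b k0_pp_213 k1_pp_213

theorem c_pp_213 : CertFX 1073741824 536870912 0 1230186008 1046898278 26843546 false true true .pnn 2 1 3
    ndF7q2 ndF6q3 pcF1 Cut.none Ext.none :=
  certFX2 (fam := false) (s1 := true) (s2 := true) (a := 2) (b := 1) (c := 3) (cn := .pnn) (n1 := ndF7q2) (n2 := ndF6q3) (pc := pcF1) (cut := Cut.none) (xt := Ext.none) (P1 := 1073741824) (W1 := 536870912) (P2 := 0) (W2 := 1230186008) (P3 := 1046898278) (W3 := 26843546)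
    rfl (fun _ => rfl) s2_pp_213

noncomputable def f_pp_303 : ℕ → ℕ → ℕ → ℕ → Bool := onCell 0 1230186008 0 1230186008 1046898278 26843546
    (rowFX 0 false true true .npn 3 0 3 (qsf 0 1230186008 0 1230186008 0) ndF7q3 ndF6q3 pcF0 Cut.none Ext.none)

def k0_pp_303 : ∃ t, chk3 f_pp_303 t 1 1 1 = true :=
  ⟨(a (b (l 3) (a (l 1) (l 3))) (b (a (l 3) (a (b (a (l 3) (c (l 285782793047) (l 524690362151))) (l 3)) (a (b (c (l 16725328) (l 233169471031)) (l 3)) (b (c (l 16725328) (l 16722792)) (b (c (l 249812784311) (l 234243468407)) (l 3)))))) (l 3))), by decide +kernel⟩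

theorem c_pp_303 : CertFX 0 1230186008 0 1230186008 1046898278 26843546 false true true .npn 3 0 3
    ndF7q3 ndF6q3 pcF0 Cut.none Ext.none :=
  certFX0 (fam := false) (s1 := true) (s2 := true) (a := 3) (b := 0) (c := 3) (cn := .npn) (n1 := ndF7q3) (n2 := ndF6q3) (pc := pcF0) (cut := Cut.none) (xt := Ext.none) (P1 := 0) (W1 := 1230186008) (P2 := 0) (W2 := 1230186008) (P3 := 1046898278) (W3 := 26843546)
    rfl k0_pp_303

noncomputable def f_pp_313 : ℕ → ℕ → ℕ → ℕ → Bool := onCell 0 1230186008 0 1230186008 1046898278 26843546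
    (rowFX 0 false true true .dn 3 1 3 (qsf 0 1230186008 0 1230186008 1) ndF7q3 ndF6q3 pcF1 Cut.none Ext.none)

def k0_pp_313 : ∃ t, chk3 f_pp_313 t 1 1 1 = true :=
  ⟨(a (l 1) (b (a (l 1) (a (l 1) (b (a (l 1) (c (l 16724248) (l 16721656))) (l 1)))) (l 1))), by decide +kernel⟩

theorem c_pp_313 : CertFX 0 1230186008 0 1230186008 1046898278 26843546 false true true .dn 3 1 3
    ndF7q3 ndF6q3 pcF1 Cut.none Ext.none :=
  certFX0 (fam := false) (s1 := true) (s2 := true) (a := 3) (b := 1) (c := 3) (cn := .dn) (n1 := ndF7q3) (n2 := ndF6q3) (pc := pcF1) (cut := Cut.none) (xt := Ext.none) (P1 := 0) (W1 := 1230186008) (P2 := 0) (W2 := 1230186008) (P3 := 1046898278) (W3 := 26843546)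
    rfl k0_pp_313

noncomputable def f_pm_001 : ℕ → ℕ → ℕ → ℕ → Bool := onCell 0 536870912 536870912 469762048 1046898278 26843546
    (rowFX 0 false true false .up 0 0 1 (qsf 0 536870912 536870912 469762048 0) ndF7q0 ndF6q1 pcF0 Cut.none Ext.none)

def k0_pm_001 : ∃ t, chk3 f_pm_001 t 1 1 1 = true :=
  ⟨(l 4), by decide +kernel⟩

theorem c_pm_001 : CertFX 0 536870912 536870912 469762048 1046898278 26843546 false true false .up 0 0 1
    ndF7q0 ndF6q1 pcF0 Cut.none Ext.none :=
  certFX0 (fam := false) (s1 := true) (s2 := false) (a := 0) (b := 0) (c := 1) (cn := .up) (n1 := ndF7q0) (n2 := ndF6q1) (pc := pcF0) (cut := Cut.none) (xt := Ext.none) (P1 := 0) (W1 := 536870912) (P2 := 536870912) (W2 := 469762048) (P3 := 1046898278) (W3 := 26843546)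
    rfl k0_pm_001

noncomputable def f_pm_011 : ℕ → ℕ → ℕ → ℕ → Bool := onCell 0 536870912 536870912 469762048 1046898278 26843546
    (rowFX 0 false true false .pnn 0 1 1 (qsf 0 536870912 536870912 469762048 1) ndF7q0 ndF6q1 pcF1 Cut.none Ext.none)

def k0_pm_011 : ∃ t, chk3 f_pm_011 t 1 1 1 = true :=
  ⟨(l 4), by decide +kernel⟩

theorem c_pm_011 : CertFX 0 536870912 536870912 469762048 1046898278 26843546 false true false .pnn 0 1 1
    ndF7q0 ndF6q1 pcF1 Cut.none Ext.none :=
  certFX0 (fam := false) (s1 := true) (s2 := false) (a := 0) (b := 1) (c := 1) (cn := .pnn) (n1 := ndF7q0) (n2 := ndF6q1) (pc := pcF1) (cut := Cut.none) (xt := Ext.none) (P1 := 0) (W1 := 536870912) (P2 := 536870912) (W2 := 469762048) (P3 := 1046898278) (W3 := 26843546)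
    rfl k0_pm_011

noncomputable def f_pm_012 : ℕ → ℕ → ℕ → ℕ → Bool := onCell 0 536870912 1073741824 536870912 1046898278 26843546
    (rowFX 0 false true false .pnp 0 1 2 (qsf 0 536870912 1073741824 536870912 1) ndF7q0 ndF6q2 pcF1 Cut.none Ext.none)

def k0_pm_012 : ∃ t, chk3 f_pm_012 t 1 1 1 = true :=
  ⟨(l 4), by decide +kernel⟩

theorem c_pm_012 : CertFX 0 536870912 1073741824 536870912 1046898278 26843546 false true false .pnp 0 1 2
    ndF7q0 ndF6q2 pcF1 Cut.none Ext.none :=
  certFX0 (fam := false) (s1 := true) (s2 := false) (a := 0) (b := 1) (c := 2) (cn := .pnp) (n1 := ndF7q0) (n2 := ndF6q2) (pc := pcF1) (cut := Cut.none) (xt := Ext.none) (P1 := 0) (W1 := 536870912) (P2 := 1073741824) (W2 := 536870912) (P3 := 1046898278) (W3 := 26843546)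
    rfl k0_pm_012

noncomputable def f_pm_022 : ℕ → ℕ → ℕ → ℕ → Bool := onCell 0 536870912 1073741824 536870912 1046898278 26843546
    (rowFX 0 false true false .pp 0 2 2 (qsf 0 536870912 1073741824 536870912 2) ndF7q0 ndF6q2 pcF2 Cut.none Ext.none)

def k0_pm_022 : ∃ t, chk3 f_pm_022 t 1 1 1 = true :=
  ⟨(l 4), by decide +kernel⟩

theorem c_pm_022 : CertFX 0 536870912 1073741824 536870912 1046898278 26843546 false true false .pp 0 2 2
    ndF7q0 ndF6q2 pcF2 Cut.none Ext.none :=
  certFX0 (fam := false) (s1 := true) (s2 := false) (a := 0) (b := 2) (c := 2) (cn := .pp) (n1 := ndF7q0) (n2 := ndF6q2) (pc := pcF2) (cut := Cut.none) (xt := Ext.none) (P1 := 0) (W1 := 536870912) (P2 := 1073741824) (W2 := 536870912) (P3 := 1046898278) (W3 := 26843546)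
    rfl k0_pm_022

noncomputable def f_pm_023 : ℕ → ℕ → ℕ → ℕ → Bool := onCell 0 536870912 0 1230186008 1046898278 26843546
    (rowFX 0 false true false .up 0 2 3 (qsf 0 536870912 0 1230186008 2) ndF7q0 ndF6q3 pcF2 Cut.none Ext.none)

def k0_pm_023 : ∃ t, chk3 f_pm_023 t 1 1 1 = true :=
  ⟨(l 4), by decide +kernel⟩

theorem c_pm_023 : CertFX 0 536870912 0 1230186008 1046898278 26843546 false true false .up 0 2 3
    ndF7q0 ndF6q3 pcF2 Cut.none Ext.none :=
  certFX0 (fam := false) (s1 := true) (s2 := false) (a := 0) (b := 2) (c := 3) (cn := .up) (n1 := ndF7q0) (n2 := ndF6q3) (pc := pcF2) (cut := Cut.none) (xt := Ext.none) (P1 := 0) (W1 := 536870912) (P2 := 0) (W2 := 1230186008) (P3 := 1046898278) (W3 := 26843546)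
    rfl k0_pm_023

noncomputable def f_pm_033 : ℕ → ℕ → ℕ → ℕ → Bool := onCell 0 536870912 0 1230186008 1046898278 26843546
    (rowFX 0 false true false .pnn 0 3 3 (qsf 0 536870912 0 1230186008 3) ndF7q0 ndF6q3 pcF3 Cut.none Ext.none)

def k0_pm_033 : ∃ t, chk3 f_pm_033 t 1 1 1 = true :=
  ⟨(l 4), by decide +kernel⟩

theorem c_pm_033 : CertFX 0 536870912 0 1230186008 1046898278 26843546 false true false .pnn 0 3 3
    ndF7q0 ndF6q3 pcF3 Cut.none Ext.none :=
  certFX0 (fam := false) (s1 := true) (s2 := false) (a := 0) (b := 3) (c := 3) (cn := .pnn) (n1 := ndF7q0) (n2 := ndF6q3) (pc := pcF3) (cut := Cut.none) (xt := Ext.none) (P1 := 0) (W1 := 536870912) (P2 := 0) (W2 := 1230186008) (P3 := 1046898278) (W3 := 26843546)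
    rfl k0_pm_033

noncomputable def f_pm_101 : ℕ → ℕ → ℕ → ℕ → Bool := onCell 536870912 536870912 536870912 469762048 1046898278 26843546
    (rowFX 0 false true false .npn 1 0 1 (qsf 536870912 536870912 536870912 469762048 0) ndF7q1 ndF6q1 pcF0 Cut.none Ext.none)

def k0_pm_101 : ∃ t, chk3 f_pm_101 t 1 1 1 = true :=
  ⟨(l 4), by decide +kernel⟩

theorem c_pm_101 : CertFX 536870912 536870912 536870912 469762048 1046898278 26843546 false true false .npn 1 0 1
    ndF7q1 ndF6q1 pcF0 Cut.none Ext.none :=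
  certFX0 (fam := false) (s1 := true) (s2 := false) (a := 1) (b := 0) (c := 1) (cn := .npn) (n1 := ndF7q1) (n2 := ndF6q1) (pc := pcF0) (cut := Cut.none) (xt := Ext.none) (P1 := 536870912) (W1 := 536870912) (P2 := 536870912) (W2 := 469762048) (P3 := 1046898278) (W3 := 26843546)
    rfl k0_pm_101

noncomputable def f_pm_102 : ℕ → ℕ → ℕ → ℕ → Bool := onCell 536870912 536870912 1073741824 536870912 1046898278 26843546
    (rowFX 0 false true false .npp 1 0 2 (qsf 536870912 536870912 1073741824 536870912 0) ndF7q1 ndF6q2 pcF0 Cut.none Ext.none)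

def k0_pm_102 : ∃ t, chk3 f_pm_102 t 1 1 1 = true :=
  ⟨(l 4), by decide +kernel⟩

theorem c_pm_102 : CertFX 536870912 536870912 1073741824 536870912 1046898278 26843546 false true false .npp 1 0 2
    ndF7q1 ndF6q2 pcF0 Cut.none Ext.none :=
  certFX0 (fam := false) (s1 := true) (s2 := false) (a := 1) (b := 0) (c := 2) (cn := .npp) (n1 := ndF7q1) (n2 := ndF6q2) (pc := pcF0) (cut := Cut.none) (xt := Ext.none) (P1 := 536870912) (W1 := 536870912) (P2 := 1073741824) (W2 := 536870912) (P3 := 1046898278) (W3 := 26843546)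
    rfl k0_pm_102

noncomputable def f_pm_112 : ℕ → ℕ → ℕ → ℕ → Bool := onCell 536870912 536870912 1073741824 536870912 1046898278 26843546
    (rowFX 0 false true false .dn 1 1 2 (qsf 536870912 536870912 1073741824 536870912 1) ndF7q1 ndF6q2 pcF1 Cut.none Ext.none)

def k0_pm_112 : ∃ t, chk3 f_pm_112 t 1 1 1 = true :=
  ⟨(l 4), by decide +kernel⟩

theorem c_pm_112 : CertFX 536870912 536870912 1073741824 536870912 1046898278 26843546 false true false .dn 1 1 2
    ndF7q1 ndF6q2 pcF1 Cut.none Ext.none :=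
  certFX0 (fam := false) (s1 := true) (s2 := false) (a := 1) (b := 1) (c := 2) (cn := .dn) (n1 := ndF7q1) (n2 := ndF6q2) (pc := pcF1) (cut := Cut.none) (xt := Ext.none) (P1 := 536870912) (W1 := 536870912) (P2 := 1073741824) (W2 := 536870912) (P3 := 1046898278) (W3 := 26843546)
    rfl k0_pm_112

noncomputable def f_pm_113 : ℕ → ℕ → ℕ → ℕ → Bool := onCell 536870912 536870912 0 1230186008 1046898278 26843546
    (rowFX 0 false true false .nn 1 1 3 (qsf 536870912 536870912 0 1230186008 1) ndF7q1 ndF6q3 pcF1 Cut.none Ext.none)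

def k0_pm_113 : ∃ t, chk3 f_pm_113 t 1 1 1 = true :=
  ⟨(b (a (l 2) (b (a (l 2) (a (l 2) (a (l 2) (b (l 16681472) (l 4))))) (l 4))) (l 4)), by decide +kernel⟩

theorem c_pm_113 : CertFX 536870912 536870912 0 1230186008 1046898278 26843546 false true false .nn 1 1 3
    ndF7q1 ndF6q3 pcF1 Cut.none Ext.none :=
  certFX0 (fam := false) (s1 := true) (s2 := false) (a := 1) (b := 1) (c := 3) (cn := .nn) (n1 := ndF7q1) (n2 := ndF6q3) (pc := pcF1) (cut := Cut.none) (xt := Ext.none) (P1 := 536870912) (W1 := 536870912) (P2 := 0) (W2 := 1230186008) (P3 := 1046898278) (W3 := 26843546)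
    rfl k0_pm_113

noncomputable def f_pm_123 : ℕ → ℕ → ℕ → ℕ → Bool := onCell 536870912 536870912 0 1230186008 1046898278 26843546
    (rowFX 0 false true false .npn 1 2 3 (qsf 536870912 536870912 0 1230186008 2) ndF7q1 ndF6q3 pcF2 Cut.none Ext.none)

def k0_pm_123 : ∃ t, chk3 f_pm_123 t 1 1 1 = true :=
  ⟨(b (a (l 4) (b (a (l 4) (a (l 4) (b (a (l 4) (l 16151704)) (l 4)))) (l 4))) (l 4)), by decide +kernel⟩

theorem c_pm_123 : CertFX 536870912 536870912 0 1230186008 1046898278 26843546 false true false .npn 1 2 3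
    ndF7q1 ndF6q3 pcF2 Cut.none Ext.none :=
  certFX0 (fam := false) (s1 := true) (s2 := false) (a := 1) (b := 2) (c := 3) (cn := .npn) (n1 := ndF7q1) (n2 := ndF6q3) (pc := pcF2) (cut := Cut.none) (xt := Ext.none) (P1 := 536870912) (W1 := 536870912) (P2 := 0) (W2 := 1230186008) (P3 := 1046898278) (W3 := 26843546)
    rfl k0_pm_123

noncomputable def f_pm_133 : ℕ → ℕ → ℕ → ℕ → Bool := onCell 1610612736 536870912 0 1230186008 1046898278 26843546
    (rowFX 2 false true false .dn 1 3 3 (qsf 536870912 536870912 0 1230186008 3) ndF7q1 ndF6q3 pcF3 Cut.none Ext.none)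

def k0_pm_133 : ∃ t, chk3 f_pm_133 t 1 1 1 = true :=
  ⟨(l 4), by decide +kernel⟩

theorem c_pm_133 : CertFX 536870912 536870912 0 1230186008 1046898278 26843546 false true false .dn 1 3 3
    ndF7q1 ndF6q3 pcF3 Cut.none Ext.none :=
  certFX2 (fam := false) (s1 := true) (s2 := false) (a := 1) (b := 3) (c := 3) (cn := .dn) (n1 := ndF7q1) (n2 := ndF6q3) (pc := pcF3) (cut := Cut.none) (xt := Ext.none) (P1 := 536870912) (W1 := 536870912) (P2 := 0) (W2 := 1230186008) (P3 := 1046898278) (W3 := 26843546)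
    rfl (fun _ => rfl) k0_pm_133

noncomputable def f_pm_202 : ℕ → ℕ → ℕ → ℕ → Bool := onCell 1073741824 536870912 1073741824 536870912 1046898278 26843546
    (rowFX 0 false true false .pp 2 0 2 (qsf 1073741824 536870912 1073741824 536870912 0) ndF7q2 ndF6q2 pcF0 Cut.none Ext.none)

def k0_pm_202 : ∃ t, chk3 f_pm_202 t 1 1 1 = true :=
  ⟨(l 4), by decide +kernel⟩

theorem c_pm_202 : CertFX 1073741824 536870912 1073741824 536870912 1046898278 26843546 false true false .pp 2 0 2
    ndF7q2 ndF6q2 pcF0 Cut.none Ext.none :=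
  certFX0 (fam := false) (s1 := true) (s2 := false) (a := 2) (b := 0) (c := 2) (cn := .pp) (n1 := ndF7q2) (n2 := ndF6q2) (pc := pcF0) (cut := Cut.none) (xt := Ext.none) (P1 := 1073741824) (W1 := 536870912) (P2 := 1073741824) (W2 := 536870912) (P3 := 1046898278) (W3 := 26843546)
    rfl k0_pm_202

noncomputable def f_pm_203 : ℕ → ℕ → ℕ → ℕ → Bool := onCell 1073741824 536870912 0 1230186008 1046898278 26843546
    (rowFX 0 false true false .up 2 0 3 (qsf 1073741824 536870912 0 1230186008 0) ndF7q2 ndF6q3 pcF0 Cut.none Ext.none)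

def k0_pm_203 : ∃ t, chk3 f_pm_203 t 1 1 1 = true :=
  ⟨(a (b (l 2) (l 4)) (b (a (l 2) (b (c (l 16725328) (l 16722792)) (b (l 16747528) (l 16764968)))) (b (a (a (l 4) (l 16767560)) (c (l 16777184) (l 16777176))) (l 4)))), by decide +kernel⟩

theorem c_pm_203 : CertFX 1073741824 536870912 0 1230186008 1046898278 26843546 false true false .up 2 0 3
    ndF7q2 ndF6q3 pcF0 Cut.none Ext.none :=
  certFX0 (fam := false) (s1 := true) (s2 := false) (a := 2) (b := 0) (c := 3) (cn := .up) (n1 := ndF7q2) (n2 := ndF6q3) (pc := pcF0) (cut := Cut.none) (xt := Ext.none) (P1 := 1073741824) (W1 := 536870912) (P2 := 0) (W2 := 1230186008) (P3 := 1046898278) (W3 := 26843546)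
    rfl k0_pm_203

noncomputable def f_pm_213 : ℕ → ℕ → ℕ → ℕ → Bool := onCell 536870912 536870912 0 1230186008 1046898278 26843546
    (rowFX 2 false true false .pnn 2 1 3 (qsf 1073741824 536870912 0 1230186008 1) ndF7q2 ndF6q3 pcF1 Cut.none Ext.none)

def k0_pm_213 : ∃ t, chk3 f_pm_213 t 1 1 1 = true :=
  ⟨(b (a (a (b (b (l 16739896) (l 16725344)) (b (l 16744144) (l 16710792))) (b (a (l 16669448) (b (l 16413472) (a (l 16423224) (l 16210616)))) (a (b (l 16590840) (l 16329128)) (b (l 16240000) (l 4))))) (a (b (a (b (l 15918232) (b (l 15849608) (a (l 16120216) (l 16027720)))) (a (b (l 15554432) (b (b (l 15570792) (l 16154024)) (l 15991400))) (b (a (l 15378248) (l 15460504)) (l 16018288)))) (b (a (l 15945880) (l 4)) (l 4))) (b (b (a (a (b (l 15580840) (a (l 15613184) (b (l 15761904) (l 16267072)))) (c (b (l 15944376) (l 15974440)) (l 15953304))) (a (c (a (l 16155768) (l 16342448)) (l 16124472)) (c (l 16614880) (a (l 16045920) (l 16202792))))) (a (a (l 15879336) (c (l 15918144)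 (l 15716872))) (l 4))) (l 4)))) (a (b (a (b (l 16439336) (l 4)) (l 4)) (l 4)) (l 4))), by decide +kernel⟩

theorem c_pm_213 : CertFX 1073741824 536870912 0 1230186008 1046898278 26843546 false true false .pnn 2 1 3
    ndF7q2 ndF6q3 pcF1 Cut.none Ext.none :=
  certFX2 (fam := false) (s1 := true) (s2 := false) (a := 2) (b := 1) (c := 3) (cn := .pnn) (n1 := ndF7q2) (n2 := ndF6q3) (pc := pcF1) (cut := Cut.none) (xt := Ext.none) (P1 := 1073741824) (W1 := 536870912) (P2 := 0) (W2 := 1230186008) (P3 := 1046898278) (W3 := 26843546)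
    rfl (fun _ => rfl) k0_pm_213

noncomputable def f_pm_303 : ℕ → ℕ → ℕ → ℕ → Bool := onCell 0 1230186008 0 1230186008 1046898278 26843546
    (rowFX 0 false true false .npn 3 0 3 (qsf 0 1230186008 0 1230186008 0) ndF7q3 ndF6q3 pcF0 Cut.none Ext.none)

def k0_pm_303 : ∃ t, chk3 f_pm_303 t 2 1 1 = true :=
  ⟨(b (l 3) (a (l 1) (b (a (l 1) (b (b (b (b (l 3) (l 1)) (l 1)) (l 1)) (l 1))) (l 1)))), by decide +kernel⟩

def k1_pm_303 : ∃ t, chk3 f_pm_303 t 6 2 1 = true :=
  ⟨(b (a (l 3) (a (l 3) (b (l 3) (a (b (l 3) (l 461339047895)) (b (l 16592784) (a (l 16708064) (l 16735160))))))) (a (b (b (l 3) (a (l 3) (a (l 3) (c (l 435030926647) (l 425904098007))))) (b (a (l 3) (c (a (b (l 430735440103) (a (l 424829748119) (l 15502568))) (b (a (l 15698192) (l 15818536)) (l 15643720))) (a (a (l 408186456823) (l 337856643303)) (b (a (l 15663480) (l 15787160)) (l 15631736))))) (a (a (a (l 3) (a (l 3) (b (l 3) (c (l 436103544775) (c (l 410333587415) (l 14890416)))))) (c (a (b (l 3) (c (l 14960184)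 (b (l 15002200) (l 14936088)))) (b (c (l 432345567015) (l 15181888)) (c (l 15051080) (l 15060672)))) (b (l 397985548839) (c (a (l 322286816343) (l 15055568)) (l 15005160))))) (c (a (b (a (c (l 15274736) (l 15268272)) (b (l 15399824) (l 15395992))) (c (l 15241000) (l 15239320))) (b (l 15576712) (b (l 15549296) (a (l 15417400) (l 15549168))))) (b (a (a (l 15238032) (l 15342696)) (l 15563896)) (a (b (l 15252208) (l 15200472)) (a (l 15421496) (l 15533984)))))))) (b (a (b (a (l 3) (l 197734889447)) (a (c (l 16064728) (l 195049929927)) (c (l 16220064) (l 16197064)))) (a (b (c (l 16543712) (l 16522624)) (l 16387920)) (b (b (l 16599384) (l 16695256)) (l 16607440)))) (a (a (b (c (b (l 15936152) (l 15922424)) (b (l 15908120) (l 15896448))) (b (c (l 15812496) (l 15786008)) (l 15568424))) (b (l 16099592) (b (l 15902288) (a (l 15900464) (l 16029528))))) (b (a (l 16264040) (l 16459616)) (a (l 16157936) (l 16321808))))))), by decide +kernel⟩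

def k2_pm_303 : ∃ t, chk3 f_pm_303 t 7 2 1 = true :=
  ⟨(a (b (c (a (l 209010694343) (l 16725328)) (a (b (l 16741120) (l 16720512)) (l 16722792))) (a (b (b (l 16753112) (c (l 16739976) (l 16504576))) (b (a (l 16641072) (l 16738464)) (a (l 16512152) (l 16665944)))) (b (l 16747528) (b (l 16757480) (a (l 16756344) (l 16773712)))))) (b (a (a (l 16723688) (l 16723688)) (l 16723688)) (a (b (l 16747528) (l 16764968)) (l 16755064)))), by decide +kernel⟩

def k3_pm_303 : ∃ t, chk3 f_pm_303 t 12 24 2 = true :=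
  ⟨(a (a (b (b (b (l 424292217335) (a (l 14751440) (a (l 14780872) (l 14810888)))) (a (b (l 14706152) (l 1)) (a (l 14733688) (l 14801184)))) (b (a (l 1) (l 14670696)) (l 1))) (b (b (b (c (l 14954752) (l 14947512)) (a (c (l 14884280) (b (l 14872128) (l 14876848))) (l 14983360))) (a (c (b (l 14901872) (l 14899312)) (a (l 14847552) (b (l 14903760) (l 14889080)))) (c (a (b (l 14972888) (l 14986472)) (l 15002696)) (b (l 14951976) (l 14969392))))) (b (a (l 14808832) (b (l 14983904) (l 14971384))) (l 14843384)))) (a (b (b (l 15179912) (c (l 15108856) (l 15118280))) (b (a (c (l 15075800) (l 15062736)) (l 15143016)) (a (b (l 15070824) (l 15060624)) (a (b (l 15119760) (l 15151016)) (l 15167640))))) (b (b (l 15434728) (l 15373800)) (b (l 15334456) (a (l 15231688) (l 15354072)))))), by decide +kernel⟩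

def k4_pm_303 : ∃ t, chk3 f_pm_303 t 12 24 3 = true :=
  ⟨(a (b (a (b (b (c (l 403891027767) (a (l 3) (l 14788720))) (a (a (l 3) (c (l 14718328) (b (l 14703632) (l 14690912)))) (c (a (l 320139227735) (b (l 14793480) (l 14794408))) (a (c (l 14729160) (l 14724976)) (l 14776064))))) (a (a (l 1) (b (l 14621128) (l 1))) (c (a (l 14701848) (b (l 14786088) (l 14748968))) (b (b (a (l 14713760) (l 14759944)) (l 14737432)) (l 14717704))))) (a (b (c (l 14872840) (l 14860760)) (c (b (a (l 14834632) (l 14873896)) (l 14857296)) (b (l 14854584) (l 14843368)))) (c (l 14967352) (l 14957040)))) (a (l 1938132815159) (b (a (c (l 14824392) (b (a (l 14801688) (l 14860320)) (l 14808928))) (c (b (l 14955136) (l 14946688)) (b (l 14944400) (l 14933592)))) (a (l 14750688) (c (l 14915264) (b (a (l 14892608) (l 14950640)) (l 14900344))))))) (a (b (l 15125992) (b (l 15109648) (a (c (b (l 15044296) (l 15036112)) (b (l 15034144) (l 15023816))) (l 15122088)))) (b (l 15395368) (l 15336408)))), by decide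 +kernel⟩

def k5_pm_303 : ∃ t, chk3 f_pm_303 t 12 25 1 = true :=
  ⟨(a (b (a (l 1) (b (c (l 14768792) (l 14762128)) (l 1))) (l 1)) (a (b (b (b (a (c (l 15038464) (c (l 15022168) (a (l 14985120) (l 15039912)))) (a (c (l 15138096) (b (l 15094704) (l 15116808))) (l 15192744))) (c (l 15070512) (l 15054912))) (a (l 14934632) (l 15114992))) (l 14921560)) (b (c (a (l 15238104) (l 15343096)) (a (l 15217888) (l 15328808))) (c (b (l 15257560) (l 15210536)) (b (a (l 15185256) (l 15295768)) (a (l 15125400) (l 15276688))))))), by decide +kernel⟩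

def k6_pm_303 : ∃ t, chk3 f_pm_303 t 12 13 1 = true :=
  ⟨(b (a (l 1) (b (a (l 1) (l 15116936)) (l 1))) (l 1)), by decide +kernel⟩

def k7_pm_303 : ∃ t, chk3 f_pm_303 t 13 6 1 = true :=
  ⟨(b (b (b (a (a (c (b (l 15681176) (l 15649080)) (l 15644048)) (l 15911000)) (a (l 16097520) (l 16256672))) (a (a (c (c (l 15558456) (l 15580720)) (l 15564608)) (b (l 15830712) (l 15796032))) (l 16130864))) (a (a (b (c (l 15488168) (l 15502640)) (c (a (l 15413320) (l 15516096)) (a (l 15395912) (l 15503560)))) (c (b (l 15743904) (l 15658304)) (l 15694792))) (a (l 15923496) (l 16130104)))) (b (a (b (a (c (b (l 15436768) (l 15395728)) (b (a (l 15368240) (l 15474712)) (a (l 15315328) (l 15459904)))) (c (a (l 15462240) (l 15687704)) (a (l 15363512) (l 15676752)))) (a (l 15315304) (c (b (l 15574096) (l 15582008)) (a (b (l 15551672) (l 15506944)) (b (l 15653384) (l 15643536)))))) (a (b (c (l 15825488) (l 15837376)) (c (a (b (l 15765672) (l 15762904)) (l 15857648)) (c (l 15802472) (l 15797664))))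 (c (b (l 16052688) (l 15998792)) (l 16015056)))) (a (b (a (l 1) (l 15516664)) (l 1)) (b (a (a (b (c (l 15743936) (l 15735496)) (l 15697672)) (b (c (l 15850288) (l 15831680)) (c (l 15835024) (l 15827528)))) (c (a (b (l 15936192) (l 15937568)) (l 16031288)) (a (b (l 15907520) (l 15920656)) (l 16024000)))) (a (c (l 15729856) (l 15726744)) (b (a (c (l 15929440) (b (l 15925424) (l 15917568))) (c (l 16020832) (l 16005560))) (l 15960776))))))), by decide +kernel⟩

def k8_pm_303 : ∃ t, chk3 f_pm_303 t 6 7 1 = true :=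
  ⟨(a (l 1) (b (a (l 1) (b (b (l 15811352) (l 1)) (l 1))) (l 1))), by decide +kernel⟩

def k9_pm_303 : ∃ t, chk3 f_pm_303 t 7 3 1 = true :=
  ⟨(b (a (b (a (b (l 16473640) (l 16376352)) (b (l 16713552) (l 16632848))) (a (b (a (l 16209544) (l 16392032)) (b (c (a (l 16160728) (l 16330984)) (l 16234200)) (a (c (l 16147536) (l 16141928)) (l 16308968)))) (b (l 16567824) (l 16327728)))) (b (a (b (l 16777176) (l 16766032)) (l 16777160)) (a (b (l 16726768) (l 16706896)) (l 16766008)))) (a (b (a (b (a (b (a (l 16102152) (b (l 16205344) (l 16205720))) (l 16137400)) (b (c (l 16314992) (l 16311040)) (a (l 16291872) (b (l 16367192) (l 16383312))))) (b (l 16259408) (l 1))) (b (a (b (l 16458472) (a (l 16445296) (l 16511872))) (l 16590688)) (a (b (a (l 16482992) (b (l 16541480) (l 16567216))) (l 16568392)) (b (a (l 16614664) (l 16670256)) (a (l 80027661111) (b (l 16714920) (l 16748592))))))) (a (l 1) (b (b (a (l 1) (l 16750880)) (l 1)) (l 1)))) (b (b (a (a (l 16687784) (l 16748480)) (l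 16773984)) (a (a (b (l 16737016) (a (c (l 16763552) (l 16763424)) (l 16776720))) (l 66270500311)) (l 4))) (a (l 4) (l 4))))), by decide +kernel⟩

theorem s10_pm_303 : ∃ t, chk3 f_pm_303 t 12 24 1 = true := ex3_c k3_pm_303 k4_pm_303

theorem s11_pm_303 : ∃ t, chk3 f_pm_303 t 12 12 1 = true := ex3_b s10_pm_303 k5_pm_303

theorem s12_pm_303 : ∃ t, chk3 f_pm_303 t 12 6 1 = true := ex3_b s11_pm_303 k6_pm_303

theorem s13_pm_303 : ∃ t, chk3 f_pm_303 t 6 6 1 = true := ex3_a s12_pm_303 k7_pm_303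

theorem s14_pm_303 : ∃ t, chk3 f_pm_303 t 6 3 1 = true := ex3_b s13_pm_303 k8_pm_303

theorem s15_pm_303 : ∃ t, chk3 f_pm_303 t 3 3 1 = true := ex3_a s14_pm_303 k9_pm_303

theorem s16_pm_303 : ∃ t, chk3 f_pm_303 t 3 2 1 = true := ex3_a k1_pm_303 k2_pm_303

theorem s17_pm_303 : ∃ t, chk3 f_pm_303 t 3 1 1 = true := ex3_b s16_pm_303 s15_pm_303

theorem s18_pm_303 : ∃ t, chk3 f_pm_303 t 1 1 1 = true := ex3_a k0_pm_303 s17_pm_303

theorem c_pm_303 : CertFX 0 1230186008 0 1230186008 1046898278 26843546 false true false .npn 3 0 3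
    ndF7q3 ndF6q3 pcF0 Cut.none Ext.none :=
  certFX0 (fam := false) (s1 := true) (s2 := false) (a := 3) (b := 0) (c := 3) (cn := .npn) (n1 := ndF7q3) (n2 := ndF6q3) (pc := pcF0) (cut := Cut.none) (xt := Ext.none) (P1 := 0) (W1 := 1230186008) (P2 := 0) (W2 := 1230186008) (P3 := 1046898278) (W3 := 26843546)
    rfl s18_pm_303

noncomputable def f_pm_313 : ℕ → ℕ → ℕ → ℕ → Bool := onCell 0 1230186008 0 1230186008 1046898278 26843546
    (rowFX 0 false true false .dn 3 1 3 (qsf 0 1230186008 0 1230186008 1) ndF7q3 ndF6q3 pcF1 Cut.none Ext.none)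

def k0_pm_313 : ∃ t, chk3 f_pm_313 t 1 1 1 = true :=
  ⟨(a (l 1) (b (a (l 1) (b (a (l 1) (a (l 1) (l 16722568))) (l 1))) (l 1))), by decide +kernel⟩

theorem c_pm_313 : CertFX 0 1230186008 0 1230186008 1046898278 26843546 false true false .dn 3 1 3
    ndF7q3 ndF6q3 pcF1 Cut.none Ext.none :=
  certFX0 (fam := false) (s1 := true) (s2 := false) (a := 3) (b := 1) (c := 3) (cn := .dn) (n1 := ndF7q3) (n2 := ndF6q3) (pc := pcF1) (cut := Cut.none) (xt := Ext.none) (P1 := 0) (W1 := 1230186008) (P2 := 0) (W2 := 1230186008) (P3 := 1046898278) (W3 := 26843546)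
    rfl k0_pm_313

noncomputable def f_mm_001 : ℕ → ℕ → ℕ → ℕ → Bool := onCell 0 536870912 536870912 469762048 1046898278 26843546
    (rowFX 0 false false false .up 0 0 1 (qsf 0 536870912 536870912 469762048 0) ndF7q0 ndF6q1 pcF0 Cut.none Ext.none)

def k0_mm_001 : ∃ t, chk3 f_mm_001 t 1 1 1 = true :=
  ⟨(l 3), by decide +kernel⟩

theorem c_mm_001 : CertFX 0 536870912 536870912 469762048 1046898278 26843546 false false false .up 0 0 1
    ndF7q0 ndF6q1 pcF0 Cut.none Ext.none :=
  certFX0 (fam := false) (s1 := false) (s2 := false) (a := 0) (b := 0) (c := 1) (cn := .up) (n1 := ndF7q0) (n2 := ndF6q1) (pc := pcF0) (cut := Cut.none) (xt := Ext.none) (P1 := 0) (W1 := 536870912) (P2 := 536870912) (W2 := 469762048) (P3 := 1046898278) (W3 := 26843546)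
    rfl k0_mm_001

noncomputable def f_mm_011 : ℕ → ℕ → ℕ → ℕ → Bool := onCell 0 536870912 536870912 469762048 1046898278 26843546
    (rowFX 0 false false false .pnn 0 1 1 (qsf 0 536870912 536870912 469762048 1) ndF7q0 ndF6q1 pcF1 Cut.none Ext.none)

def k0_mm_011 : ∃ t, chk3 f_mm_011 t 1 1 1 = true :=
  ⟨(l 3), by decide +kernel⟩

theorem c_mm_011 : CertFX 0 536870912 536870912 469762048 1046898278 26843546 false false false .pnn 0 1 1
    ndF7q0 ndF6q1 pcF1 Cut.none Ext.none :=
  certFX0 (fam := false) (s1 := false) (s2 := false) (a := 0) (b := 1) (c := 1) (cn := .pnn) (n1 := ndF7q0) (n2 := ndF6q1) (pc := pcF1) (cut := Cut.none) (xt := Ext.none) (P1 := 0) (W1 := 536870912) (P2 := 536870912) (W2 := 469762048) (P3 := 1046898278) (W3 := 26843546)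
    rfl k0_mm_011

noncomputable def f_mm_012 : ℕ → ℕ → ℕ → ℕ → Bool := onCell 0 536870912 1073741824 536870912 1046898278 26843546
    (rowFX 0 false false false .pnp 0 1 2 (qsf 0 536870912 1073741824 536870912 1) ndF7q0 ndF6q2 pcF1 Cut.none Ext.none)

def k0_mm_012 : ∃ t, chk3 f_mm_012 t 1 1 1 = true :=
  ⟨(l 5), by decide +kernel⟩

theorem c_mm_012 : CertFX 0 536870912 1073741824 536870912 1046898278 26843546 false false false .pnp 0 1 2
    ndF7q0 ndF6q2 pcF1 Cut.none Ext.none :=
  certFX0 (fam := false) (s1 := false) (s2 := false) (a := 0) (b := 1) (c := 2) (cn := .pnp) (n1 := ndF7q0) (n2 := ndF6q2) (pc := pcF1) (cut := Cut.none) (xt := Ext.none) (P1 := 0) (W1 := 536870912) (P2 := 1073741824) (W2 := 536870912) (P3 := 1046898278) (W3 := 26843546)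
    rfl k0_mm_012

noncomputable def f_mm_022 : ℕ → ℕ → ℕ → ℕ → Bool := onCell 0 536870912 1073741824 536870912 1046898278 26843546
    (rowFX 0 false false false .pp 0 2 2 (qsf 0 536870912 1073741824 536870912 2) ndF7q0 ndF6q2 pcF2 Cut.none Ext.none)

def k0_mm_022 : ∃ t, chk3 f_mm_022 t 1 1 1 = true :=
  ⟨(l 5), by decide +kernel⟩

theorem c_mm_022 : CertFX 0 536870912 1073741824 536870912 1046898278 26843546 false false false .pp 0 2 2
    ndF7q0 ndF6q2 pcF2 Cut.none Ext.none :=
  certFX0 (fam := false) (s1 := false) (s2 := false) (a := 0) (b := 2) (c := 2) (cn := .pp) (n1 := ndF7q0) (n2 := ndF6q2) (pc := pcF2) (cut := Cut.none) (xt := Ext.none) (P1 := 0) (W1 := 536870912) (P2 := 1073741824) (W2 := 536870912) (P3 := 1046898278) (W3 := 26843546)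
    rfl k0_mm_022

noncomputable def f_mm_023 : ℕ → ℕ → ℕ → ℕ → Bool := onCell 0 536870912 0 1230186008 1046898278 26843546
    (rowFX 0 false false false .up 0 2 3 (qsf 0 536870912 0 1230186008 2) ndF7q0 ndF6q3 pcF2 Cut.none Ext.none)

def k0_mm_023 : ∃ t, chk3 f_mm_023 t 1 1 1 = true :=
  ⟨(l 5), by decide +kernel⟩

theorem c_mm_023 : CertFX 0 536870912 0 1230186008 1046898278 26843546 false false false .up 0 2 3
    ndF7q0 ndF6q3 pcF2 Cut.none Ext.none :=
  certFX0 (fam := false) (s1 := false) (s2 := false) (a := 0) (b := 2) (c := 3) (cn := .up) (n1 := ndF7q0) (n2 := ndF6q3) (pc := pcF2) (cut := Cut.none) (xt := Ext.none) (P1 := 0) (W1 := 536870912) (P2 := 0) (W2 := 1230186008) (P3 := 1046898278) (W3 := 26843546)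
    rfl k0_mm_023

noncomputable def f_mm_033 : ℕ → ℕ → ℕ → ℕ → Bool := onCell 0 536870912 0 1230186008 1046898278 26843546
    (rowFX 0 false false false .pnn 0 3 3 (qsf 0 536870912 0 1230186008 3) ndF7q0 ndF6q3 pcF3 Cut.none Ext.none)

def k0_mm_033 : ∃ t, chk3 f_mm_033 t 1 1 1 = true :=
  ⟨(l 5), by decide +kernel⟩

theorem c_mm_033 : CertFX 0 536870912 0 1230186008 1046898278 26843546 false false false .pnn 0 3 3
    ndF7q0 ndF6q3 pcF3 Cut.none Ext.none :=
  certFX0 (fam := false) (s1 := false) (s2 := false) (a := 0) (b := 3) (c := 3) (cn := .pnn) (n1 := ndF7q0) (n2 := ndF6q3) (pc := pcF3) (cut := Cut.none) (xt := Ext.none) (P1 := 0) (W1 := 536870912) (P2 := 0) (W2 := 1230186008) (P3 := 1046898278) (W3 := 26843546)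
    rfl k0_mm_033

noncomputable def f_mm_101 : ℕ → ℕ → ℕ → ℕ → Bool := onCell 536870912 536870912 536870912 469762048 1046898278 26843546
    (rowFX 0 false false false .npn 1 0 1 (qsf 536870912 536870912 536870912 469762048 0) ndF7q1 ndF6q1 pcF0 Cut.none Ext.none)

def k0_mm_101 : ∃ t, chk3 f_mm_101 t 1 1 1 = true :=
  ⟨(l 3), by decide +kernel⟩

theorem c_mm_101 : CertFX 536870912 536870912 536870912 469762048 1046898278 26843546 false false false .npn 1 0 1
    ndF7q1 ndF6q1 pcF0 Cut.none Ext.none :=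
  certFX0 (fam := false) (s1 := false) (s2 := false) (a := 1) (b := 0) (c := 1) (cn := .npn) (n1 := ndF7q1) (n2 := ndF6q1) (pc := pcF0) (cut := Cut.none) (xt := Ext.none) (P1 := 536870912) (W1 := 536870912) (P2 := 536870912) (W2 := 469762048) (P3 := 1046898278) (W3 := 26843546)
    rfl k0_mm_101

noncomputable def f_mm_102 : ℕ → ℕ → ℕ → ℕ → Bool := onCell 536870912 536870912 1073741824 536870912 1046898278 26843546
    (rowFX 0 false false false .npp 1 0 2 (qsf 536870912 536870912 1073741824 536870912 0) ndF7q1 ndF6q2 pcF0 Cut.none Ext.none)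

def k0_mm_102 : ∃ t, chk3 f_mm_102 t 1 1 1 = true :=
  ⟨(l 5), by decide +kernel⟩

theorem c_mm_102 : CertFX 536870912 536870912 1073741824 536870912 1046898278 26843546 false false false .npp 1 0 2
    ndF7q1 ndF6q2 pcF0 Cut.none Ext.none :=
  certFX0 (fam := false) (s1 := false) (s2 := false) (a := 1) (b := 0) (c := 2) (cn := .npp) (n1 := ndF7q1) (n2 := ndF6q2) (pc := pcF0) (cut := Cut.none) (xt := Ext.none) (P1 := 536870912) (W1 := 536870912) (P2 := 1073741824) (W2 := 536870912) (P3 := 1046898278) (W3 := 26843546)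
    rfl k0_mm_102

noncomputable def f_mm_112 : ℕ → ℕ → ℕ → ℕ → Bool := onCell 536870912 536870912 1073741824 536870912 1046898278 26843546
    (rowFX 0 false false false .dn 1 1 2 (qsf 536870912 536870912 1073741824 536870912 1) ndF7q1 ndF6q2 pcF1 Cut.none Ext.none)

def k0_mm_112 : ∃ t, chk3 f_mm_112 t 1 1 1 = true :=
  ⟨(l 5), by decide +kernel⟩

theorem c_mm_112 : CertFX 536870912 536870912 1073741824 536870912 1046898278 26843546 false false false .dn 1 1 2
    ndF7q1 ndF6q2 pcF1 Cut.none Ext.none :=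
  certFX0 (fam := false) (s1 := false) (s2 := false) (a := 1) (b := 1) (c := 2) (cn := .dn) (n1 := ndF7q1) (n2 := ndF6q2) (pc := pcF1) (cut := Cut.none) (xt := Ext.none) (P1 := 536870912) (W1 := 536870912) (P2 := 1073741824) (W2 := 536870912) (P3 := 1046898278) (W3 := 26843546)
    rfl k0_mm_112

noncomputable def f_mm_113 : ℕ → ℕ → ℕ → ℕ → Bool := onCell 536870912 536870912 0 1230186008 1046898278 26843546
    (rowFX 0 false false false .nn 1 1 3 (qsf 536870912 536870912 0 1230186008 1) ndF7q1 ndF6q3 pcF1 Cut.none Ext.none)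

def k0_mm_113 : ∃ t, chk3 f_mm_113 t 1 1 1 = true :=
  ⟨(l 5), by decide +kernel⟩

theorem c_mm_113 : CertFX 536870912 536870912 0 1230186008 1046898278 26843546 false false false .nn 1 1 3
    ndF7q1 ndF6q3 pcF1 Cut.none Ext.none :=
  certFX0 (fam := false) (s1 := false) (s2 := false) (a := 1) (b := 1) (c := 3) (cn := .nn) (n1 := ndF7q1) (n2 := ndF6q3) (pc := pcF1) (cut := Cut.none) (xt := Ext.none) (P1 := 536870912) (W1 := 536870912) (P2 := 0) (W2 := 1230186008) (P3 := 1046898278) (W3 := 26843546)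
    rfl k0_mm_113

noncomputable def f_mm_123 : ℕ → ℕ → ℕ → ℕ → Bool := onCell 536870912 536870912 0 1230186008 1046898278 26843546
    (rowFX 0 false false false .npn 1 2 3 (qsf 536870912 536870912 0 1230186008 2) ndF7q1 ndF6q3 pcF2 Cut.none Ext.none)

def k0_mm_123 : ∃ t, chk3 f_mm_123 t 1 1 1 = true :=
  ⟨(l 5), by decide +kernel⟩

theorem c_mm_123 : CertFX 536870912 536870912 0 1230186008 1046898278 26843546 false false false .npn 1 2 3
    ndF7q1 ndF6q3 pcF2 Cut.none Ext.none :=
  certFX0 (fam := false) (s1 := false) (s2 := false) (a := 1) (b := 2) (c := 3) (cn := .npn) (n1 := ndF7q1) (n2 := ndF6q3) (pc := pcF2) (cut := Cut.none) (xt := Ext.none) (P1 := 536870912) (W1 := 536870912) (P2 := 0) (W2 := 1230186008) (P3 := 1046898278) (W3 := 26843546)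
    rfl k0_mm_123

noncomputable def f_mm_133 : ℕ → ℕ → ℕ → ℕ → Bool := onCell 536870912 536870912 0 1230186008 1046898278 26843546
    (rowFX 0 false false false .dn 1 3 3 (qsf 536870912 536870912 0 1230186008 3) ndF7q1 ndF6q3 pcF3 Cut.none Ext.none)

def k0_mm_133 : ∃ t, chk3 f_mm_133 t 1 1 1 = true :=
  ⟨(l 5), by decide +kernel⟩

theorem c_mm_133 : CertFX 536870912 536870912 0 1230186008 1046898278 26843546 false false false .dn 1 3 3
    ndF7q1 ndF6q3 pcF3 Cut.none Ext.none :=
  certFX0 (fam := false) (s1 := false) (s2 := false) (a := 1) (b := 3) (c := 3) (cn := .dn) (n1 := ndF7q1) (n2 := ndF6q3) (pc := pcF3) (cut := Cut.none) (xt := Ext.none) (P1 := 536870912) (W1 := 536870912) (P2 := 0) (W2 := 1230186008) (P3 := 1046898278) (W3 := 26843546)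
    rfl k0_mm_133

noncomputable def f_mm_202 : ℕ → ℕ → ℕ → ℕ → Bool := onCell 1073741824 536870912 1073741824 536870912 1046898278 26843546
    (rowFX 0 false false false .pp 2 0 2 (qsf 1073741824 536870912 1073741824 536870912 0) ndF7q2 ndF6q2 pcF0 Cut.none Ext.none)

def k0_mm_202 : ∃ t, chk3 f_mm_202 t 1 1 1 = true :=
  ⟨(l 3), by decide +kernel⟩

theorem c_mm_202 : CertFX 1073741824 536870912 1073741824 536870912 1046898278 26843546 false false false .pp 2 0 2
    ndF7q2 ndF6q2 pcF0 Cut.none Ext.none :=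
  certFX0 (fam := false) (s1 := false) (s2 := false) (a := 2) (b := 0) (c := 2) (cn := .pp) (n1 := ndF7q2) (n2 := ndF6q2) (pc := pcF0) (cut := Cut.none) (xt := Ext.none) (P1 := 1073741824) (W1 := 536870912) (P2 := 1073741824) (W2 := 536870912) (P3 := 1046898278) (W3 := 26843546)
    rfl k0_mm_202

noncomputable def f_mm_203 : ℕ → ℕ → ℕ → ℕ → Bool := onCell 1073741824 536870912 0 1230186008 1046898278 26843546
    (rowFX 0 false false false .up 2 0 3 (qsf 1073741824 536870912 0 1230186008 0) ndF7q2 ndF6q3 pcF0 Cut.none Ext.none)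

def k0_mm_203 : ∃ t, chk3 f_mm_203 t 1 1 1 = true :=
  ⟨(l 5), by decide +kernel⟩

theorem c_mm_203 : CertFX 1073741824 536870912 0 1230186008 1046898278 26843546 false false false .up 2 0 3
    ndF7q2 ndF6q3 pcF0 Cut.none Ext.none :=
  certFX0 (fam := false) (s1 := false) (s2 := false) (a := 2) (b := 0) (c := 3) (cn := .up) (n1 := ndF7q2) (n2 := ndF6q3) (pc := pcF0) (cut := Cut.none) (xt := Ext.none) (P1 := 1073741824) (W1 := 536870912) (P2 := 0) (W2 := 1230186008) (P3 := 1046898278) (W3 := 26843546)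
    rfl k0_mm_203

noncomputable def f_mm_213 : ℕ → ℕ → ℕ → ℕ → Bool := onCell 1073741824 536870912 0 1230186008 1046898278 26843546
    (rowFX 0 false false false .pnn 2 1 3 (qsf 1073741824 536870912 0 1230186008 1) ndF7q2 ndF6q3 pcF1 Cut.none Ext.none)

def k0_mm_213 : ∃ t, chk3 f_mm_213 t 1 1 1 = true :=
  ⟨(l 5), by decide +kernel⟩

theorem c_mm_213 : CertFX 1073741824 536870912 0 1230186008 1046898278 26843546 false false false .pnn 2 1 3
    ndF7q2 ndF6q3 pcF1 Cut.none Ext.none :=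
  certFX0 (fam := false) (s1 := false) (s2 := false) (a := 2) (b := 1) (c := 3) (cn := .pnn) (n1 := ndF7q2) (n2 := ndF6q3) (pc := pcF1) (cut := Cut.none) (xt := Ext.none) (P1 := 1073741824) (W1 := 536870912) (P2 := 0) (W2 := 1230186008) (P3 := 1046898278) (W3 := 26843546)
    rfl k0_mm_213

noncomputable def f_mm_303 : ℕ → ℕ → ℕ → ℕ → Bool := onCell 0 1230186008 0 1230186008 1046898278 26843546
    (rowFX 0 false false false .npn 3 0 3 (qsf 0 1230186008 0 1230186008 0) ndF7q3 ndF6q3 pcF0 Cut.none Ext.none)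

def k0_mm_303 : ∃ t, chk3 f_mm_303 t 1 1 1 = true :=
  ⟨(a (b (l 3) (a (l 1) (l 3))) (b (l 5) (l 3))), by decide +kernel⟩

theorem c_mm_303 : CertFX 0 1230186008 0 1230186008 1046898278 26843546 false false false .npn 3 0 3
    ndF7q3 ndF6q3 pcF0 Cut.none Ext.none :=
  certFX0 (fam := false) (s1 := false) (s2 := false) (a := 3) (b := 0) (c := 3) (cn := .npn) (n1 := ndF7q3) (n2 := ndF6q3) (pc := pcF0) (cut := Cut.none) (xt := Ext.none) (P1 := 0) (W1 := 1230186008) (P2 := 0) (W2 := 1230186008) (P3 := 1046898278) (W3 := 26843546)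
    rfl k0_mm_303

noncomputable def f_mm_313 : ℕ → ℕ → ℕ → ℕ → Bool := onCell 0 1230186008 0 1230186008 1046898278 26843546
    (rowFX 0 false false false .dn 3 1 3 (qsf 0 1230186008 0 1230186008 1) ndF7q3 ndF6q3 pcF1 Cut.none Ext.none)

def k0_mm_313 : ∃ t, chk3 f_mm_313 t 1 1 1 = true :=
  ⟨(a (l 1) (b (l 5) (l 1))), by decide +kernel⟩

theorem c_mm_313 : CertFX 0 1230186008 0 1230186008 1046898278 26843546 false false false .dn 3 1 3
    ndF7q3 ndF6q3 pcF1 Cut.none Ext.none :=
  certFX0 (fam := false) (s1 := false) (s2 := false) (a := 3) (b := 1) (c := 3) (cn := .dn) (n1 := ndF7q3) (n2 := ndF6q3) (pc := pcF1) (cut := Cut.none) (xt := Ext.none) (P1 := 0) (W1 := 1230186008) (P2 := 0) (W2 := 1230186008) (P3 := 1046898278) (W3 := 26843546)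
    rfl k0_mm_313

end Pool.Agent.Strip051.G.IE1.Tab.C.FB76

namespace Pool.Agent.Strip051.G.IE1.Tab.C.FB77

open Pool.Agent.Strip051.PB Pool.Agent.Strip051.PB.T
open Pool.Agent.Strip051.G.IE1.Tab

noncomputable def f_pp_001 : ℕ → ℕ → ℕ → ℕ → Bool := onCell 0 536870912 536870912 536870912 1046898278 26843546
    (rowFX 0 false true true .up 0 0 1 (qsf 0 536870912 536870912 536870912 0) ndF7q0 ndF7q1 pcF0 Cut.none Ext.none)

def k0_pp_001 : ∃ t, chk3 f_pp_001 t 1 1 1 = true :=
  ⟨(l 3), by decide +kernel⟩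

theorem c_pp_001 : CertFX 0 536870912 536870912 536870912 1046898278 26843546 false true true .up 0 0 1
    ndF7q0 ndF7q1 pcF0 Cut.none Ext.none :=
  certFX0 (fam := false) (s1 := true) (s2 := true) (a := 0) (b := 0) (c := 1) (cn := .up) (n1 := ndF7q0) (n2 := ndF7q1) (pc := pcF0) (cut := Cut.none) (xt := Ext.none) (P1 := 0) (W1 := 536870912) (P2 := 536870912) (W2 := 536870912) (P3 := 1046898278) (W3 := 26843546)
    rfl k0_pp_001

noncomputable def f_pp_011 : ℕ → ℕ → ℕ → ℕ → Bool := onCell 0 536870912 536870912 536870912 1046898278 26843546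
    (rowFX 0 false true true .pnn 0 1 1 (qsf 0 536870912 536870912 536870912 1) ndF7q0 ndF7q1 pcF1 Cut.none Ext.none)

def k0_pp_011 : ∃ t, chk3 f_pp_011 t 1 1 1 = true :=
  ⟨(l 3), by decide +kernel⟩

theorem c_pp_011 : CertFX 0 536870912 536870912 536870912 1046898278 26843546 false true true .pnn 0 1 1
    ndF7q0 ndF7q1 pcF1 Cut.none Ext.none :=
  certFX0 (fam := false) (s1 := true) (s2 := true) (a := 0) (b := 1) (c := 1) (cn := .pnn) (n1 := ndF7q0) (n2 := ndF7q1) (pc := pcF1) (cut := Cut.none) (xt := Ext.none) (P1 := 0) (W1 := 536870912) (P2 := 536870912) (W2 := 536870912) (P3 := 1046898278) (W3 := 26843546)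
    rfl k0_pp_011

noncomputable def f_pp_012 : ℕ → ℕ → ℕ → ℕ → Bool := onCell 536870912 536870912 1073741824 536870912 1046898278 26843546
    (rowFX 2 false true true .pnp 0 1 2 (qsf 0 536870912 1073741824 536870912 1) ndF7q0 ndF7q2 pcF1 Cut.none Ext.none)

def k0_pp_012 : ∃ t, chk3 f_pp_012 t 1 1 1 = true :=
  ⟨(a (l 3) (a (l 3) (b (l 3) (a (l 3) (b (l 3) (b (l 3) (a (l 3) (l 938078927063)))))))), by decide +kernel⟩

theorem c_pp_012 : CertFX 0 536870912 1073741824 536870912 1046898278 26843546 false true true .pnp 0 1 2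
    ndF7q0 ndF7q2 pcF1 Cut.none Ext.none :=
  certFX2 (fam := false) (s1 := true) (s2 := true) (a := 0) (b := 1) (c := 2) (cn := .pnp) (n1 := ndF7q0) (n2 := ndF7q2) (pc := pcF1) (cut := Cut.none) (xt := Ext.none) (P1 := 0) (W1 := 536870912) (P2 := 1073741824) (W2 := 536870912) (P3 := 1046898278) (W3 := 26843546)
    rfl (fun _ => rfl) k0_pp_012

noncomputable def f_pp_022 : ℕ → ℕ → ℕ → ℕ → Bool := onCell 1073741824 536870912 1073741824 536870912 1046898278 26843546
    (rowFX 2 false true true .pp 0 2 2 (qsf 0 536870912 1073741824 536870912 2) ndF7q0 ndF7q2 pcF2 Cut.none Ext.none)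

def k0_pp_022 : ∃ t, chk3 f_pp_022 t 8 1 1 = true :=
  ⟨(b (l 3) (b (a (l 3) (a (b (l 3) (c (l 832852714103) (l 1050285383351))) (a (b (c (l 15950536) (l 1076591788535)) (c (l 16145536) (l 16149944))) (b (c (l 16054216) (l 1066391412679)) (c (l 16199232) (l 16186288)))))) (a (b (c (a (l 15835608) (l 15909992)) (a (l 1015388239847) (l 15937584))) (c (a (b (l 15849632) (l 15958712)) (l 15977224)) (a (c (l 15833344) (l 15824808)) (l 15925288)))) (b (c (a (l 16039264) (l 16093048)) (a (l 16074056) (l 16156880))) (c (a (l 16011128) (l 15964256)) (l 16001432)))))), by decide +kernel⟩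

def k1_pp_022 : ∃ t, chk3 f_pp_022 t 9 2 1 = true :=
  ⟨(a (b (l 3) (a (b (l 3) (c (l 588038742423) (c (l 776480388135) (l 905329377431)))) (b (a (l 3) (b (l 3) (c (l 15476096) (l 688969978807)))) (b (c (l 15724144) (c (l 15703304) (l 15689408))) (c (a (l 15933664) (l 15996568)) (a (l 15910864) (l 15975736))))))) (b (b (l 1) (b (a (a (l 3) (l 1)) (l 1)) (a (c (a (l 637966008807) (l 14837144)) (a (b (l 3) (l 14875200)) (b (l 14695560) (l 14876832)))) (c (a (l 14836824) (l 14829592)) (a (l 14786856) (c (l 14792184) (l 14767240))))))) (a (b (a (c (b (l 15194240) (l 15539648)) (c (b (l 15163392) (l 15515528)) (b (l 15079920) (l 15499440)))) (c (b (l 15206128) (l 15537392)) (b (l 15165320) (c (l 15513232) (l 15497120))))) (a (c (b (l 15802936) (l 16007512)) (b (a (l 15772616) (l 15786824)) (l 15987088))) (c (l 15884280) (b (l 15756704) (l 15956360))))) (b (c (a (b (l 15196752) (l 15520664)) (b (l 15186536) (l 15498088))) (c (a (b (l 15165968) (l 15496160)) (l 15314720)) (a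 (b (l 15145440) (l 15479832)) (l 15128312)))) (c (l 15870240) (l 15804512)))))), by decide +kernel⟩

def k2_pp_022 : ∃ t, chk3 f_pp_022 t 9 3 1 = true :=
  ⟨(a (b (a (b (c (b (a (l 16021880) (l 16091128)) (a (l 16223752) (l 16286384))) (b (a (l 16000600) (l 16071936)) (a (l 16208208) (l 16272600)))) (b (a (c (l 16356584) (l 16345504)) (l 16361960)) (c (l 16288360) (l 16275664)))) (b (b (c (l 16142760) (a (l 16138512) (l 16145184))) (c (l 16296312) (l 16282920))) (b (c (l 16368856) (l 16358112)) (c (l 16311448) (l 16299352))))) (b (b (a (a (l 16206272) (l 16203152)) (l 16191696)) (c (l 15982960) (l 16073144))) (c (b (l 15925688) (l 15919312)) (b (l 16014432) (l 15926720))))) (b (b (a (c (a (l 16229584) (l 16219816)) (b (l 16136248) (l 16209584))) (b (c (l 16179096) (l 16163000)) (c (l 16334088) (l 16321992)))) (a (b (c (l 16347016) (l 16273904)) (l 16279912)) (b (l 16372104) (l 16245752)))) (b (c (b (l 16139128) (b (l 16019984) (l 15968096))) (b (l 16122552) (l 15712712)))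 (c (c (l 15733528) (l 15759496)) (l 15759752))))), by decide +kernel⟩

def k3_pp_022 : ∃ t, chk3 f_pp_022 t 5 1 1 = true :=
  ⟨(b (a (b (a (a (b (l 1) (b (l 1) (c (l 14821856) (l 14772296)))) (l 1)) (l 1)) (a (a (b (c (l 15358280) (b (l 15144328) (l 15491888))) (b (c (l 15805432) (l 15780152)) (c (l 16028880) (l 15862488)))) (b (b (a (l 15219824) (a (l 15254752) (b (l 1) (a (l 15327792) (l 15272520))))) (a (l 15403952) (a (c (l 15596832) (l 15566176)) (a (l 15437520) (l 15455872))))) (a (b (c (l 15843904) (l 15819664)) (l 16004904)) (a (c (l 15863072) (l 15839232)) (c (l 15770944) (l 15744680)))))) (b (b (l 15175592) (l 15455104)) (c (l 15787160) (l 15761384))))) (b (l 1) (b (b (l 1) (l 15518544)) (a (l 109552933623) (l 15963568))))) (a (b (a (a (b (b (a (l 16215600) (l 16176912)) (l 16278688)) (b (l 16304928) (l 16166384))) (b (a (c (l 16160144) (l 16143640)) (a (l 16083752) (c (l 16043720) (l 16024216)))) (a (l 16152368) (a (l 16105056) (c (l 16109792) (l 16092416))))))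 (b (c (l 16131488) (l 16114416)) (l 16224608))) (a (a (b (b (l 16003656) (c (l 15816400) (l 15820512))) (c (l 15570848) (l 15577472))) (b (a (c (l 15748256) (l 15735544)) (a (b (l 15894008) (l 15502944)) (b (l 15945040) (a (l 15775168) (l 15811784))))) (c (a (l 15540064) (l 15607888)) (l 15537264)))) (b (c (c (l 16105616) (l 16027792)) (l 15880736)) (c (l 15954624) (l 15934000))))) (b (b (a (l 16197304) (l 16464192)) (a (l 16592400) (l 16767272))) (a (c (b (b (l 16552144) (l 16523024)) (l 16495752)) (b (l 16542784) (l 16478536))) (c (l 16776864) (l 16776864)))))), by decide +kernel⟩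

def k4_pp_022 : ∃ t, chk3 f_pp_022 t 3 1 1 = true :=
  ⟨(b (b (l 1) (b (l 1) (a (a (l 15962904) (l 1)) (l 1)))) (b (a (b (c (l 16467840) (l 16460184)) (c (a (l 16767656) (l 16767648)) (a (l 16767408) (l 16767400)))) (b (l 1) (l 16767504))) (a (c (a (l 16777216) (l 16777216)) (b (l 16777216) (l 16777216))) (c (l 16777216) (l 16777216))))), by decide +kernel⟩

theorem s5_pp_022 : ∃ t, chk3 f_pp_022 t 9 1 1 = true := ex3_b k1_pp_022 k2_pp_022

theorem s6_pp_022 : ∃ t, chk3 f_pp_022 t 4 1 1 = true := ex3_a k0_pp_022 s5_pp_022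

theorem s7_pp_022 : ∃ t, chk3 f_pp_022 t 2 1 1 = true := ex3_a s6_pp_022 k3_pp_022

theorem s8_pp_022 : ∃ t, chk3 f_pp_022 t 1 1 1 = true := ex3_a s7_pp_022 k4_pp_022

theorem c_pp_022 : CertFX 0 536870912 1073741824 536870912 1046898278 26843546 false true true .pp 0 2 2
    ndF7q0 ndF7q2 pcF2 Cut.none Ext.none :=
  certFX2 (fam := false) (s1 := true) (s2 := true) (a := 0) (b := 2) (c := 2) (cn := .pp) (n1 := ndF7q0) (n2 := ndF7q2) (pc := pcF2) (cut := Cut.none) (xt := Ext.none) (P1 := 0) (W1 := 536870912) (P2 := 1073741824) (W2 := 536870912) (P3 := 1046898278) (W3 := 26843546)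
    rfl (fun _ => rfl) s8_pp_022

noncomputable def f_pp_023 : ℕ → ℕ → ℕ → ℕ → Bool := onCell 1073741824 536870912 0 1230186008 1046898278 26843546
    (rowFX 2 false true true .up 0 2 3 (qsf 0 536870912 0 1230186008 2) ndF7q0 ndF7q3 pcF2 Cut.none Ext.none)

def k0_pp_023 : ∃ t, chk3 f_pp_023 t 1 1 1 = true :=
  ⟨(b (a (l 2) (a (l 2) (b (l 4) (c (l 16769544) (l 16769344))))) (a (a (b (l 2) (b (l 2) (b (a (l 2) (a (c (l 15491144) (l 15457096)) (c (l 15134944) (l 15091136)))) (a (c (a (a (l 15931088) (l 16025720)) (l 15867808)) (a (l 15986720) (l 15902232))) (c (a (l 15772272) (l 15425632)) (a (l 15694464) (l 15390544))))))) (b (a (l 2) (a (l 2) (b (l 2) (l 16776744)))) (a (b (a (b (l 2) (l 14955192)) (l 15672856)) (b (b (l 15279496) (a (a (l 14851368) (l 14998656)) (l 15623504))) (a (a (c (l 15174448) (l 15132816)) (c (l 15236616) (l 15196368))) (c (l 15730792) (l 15704216))))) (b (a (l 16412096) (l 16776704)) (b (l 16590624) (a (c (l 16417144) (l 16407712)) (l 16776696)))))))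 (b (a (b (a (l 2) (l 16775008)) (l 16772520)) (b (l 16777216) (l 16777216))) (a (b (l 16777216) (c (l 16777216) (l 16777216))) (b (l 16777216) (l 16777216)))))), by decide +kernel⟩

theorem c_pp_023 : CertFX 0 536870912 0 1230186008 1046898278 26843546 false true true .up 0 2 3
    ndF7q0 ndF7q3 pcF2 Cut.none Ext.none :=
  certFX2 (fam := false) (s1 := true) (s2 := true) (a := 0) (b := 2) (c := 3) (cn := .up) (n1 := ndF7q0) (n2 := ndF7q3) (pc := pcF2) (cut := Cut.none) (xt := Ext.none) (P1 := 0) (W1 := 536870912) (P2 := 0) (W2 := 1230186008) (P3 := 1046898278) (W3 := 26843546)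
    rfl (fun _ => rfl) k0_pp_023

noncomputable def f_pp_033 : ℕ → ℕ → ℕ → ℕ → Bool := onCell 1610612736 536870912 0 1230186008 1046898278 26843546
    (rowFX 2 false true true .pnn 0 3 3 (qsf 0 536870912 0 1230186008 3) ndF7q0 ndF7q3 pcF3 Cut.none Ext.none)

def k0_pp_033 : ∃ t, chk3 f_pp_033 t 1 1 1 = true :=
  ⟨(b (a (b (l 4) (a (c (l 16769544) (l 16769344)) (l 4))) (l 4)) (b (a (a (c (l 16777216) (l 16777216)) (c (l 16777216) (l 16777216))) (l 4)) (a (a (b (c (l 16777216) (l 16777216)) (l 16777216)) (c (b (l 16777216) (l 629783134215)) (b (l 16777216) (l 636762456071)))) (l 1)))), by decide +kernel⟩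

theorem c_pp_033 : CertFX 0 536870912 0 1230186008 1046898278 26843546 false true true .pnn 0 3 3
    ndF7q0 ndF7q3 pcF3 Cut.none Ext.none :=
  certFX2 (fam := false) (s1 := true) (s2 := true) (a := 0) (b := 3) (c := 3) (cn := .pnn) (n1 := ndF7q0) (n2 := ndF7q3) (pc := pcF3) (cut := Cut.none) (xt := Ext.none) (P1 := 0) (W1 := 536870912) (P2 := 0) (W2 := 1230186008) (P3 := 1046898278) (W3 := 26843546)
    rfl (fun _ => rfl) k0_pp_033

noncomputable def f_pp_101 : ℕ → ℕ → ℕ → ℕ → Bool := onCell 536870912 536870912 536870912 536870912 1046898278 26843546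
    (rowFX 0 false true true .npn 1 0 1 (qsf 536870912 536870912 536870912 536870912 0) ndF7q1 ndF7q1 pcF0 Cut.none Ext.none)

def k0_pp_101 : ∃ t, chk3 f_pp_101 t 1 1 1 = true :=
  ⟨(l 3), by decide +kernel⟩

theorem c_pp_101 : CertFX 536870912 536870912 536870912 536870912 1046898278 26843546 false true true .npn 1 0 1
    ndF7q1 ndF7q1 pcF0 Cut.none Ext.none :=
  certFX0 (fam := false) (s1 := true) (s2 := true) (a := 1) (b := 0) (c := 1) (cn := .npn) (n1 := ndF7q1) (n2 := ndF7q1) (pc := pcF0) (cut := Cut.none) (xt := Ext.none) (P1 := 536870912) (W1 := 536870912) (P2 := 536870912) (W2 := 536870912) (P3 := 1046898278) (W3 := 26843546)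
    rfl k0_pp_101

noncomputable def f_pp_102 : ℕ → ℕ → ℕ → ℕ → Bool := onCell 536870912 536870912 0 536870912 1046898278 26843546
    (rowFX 1 false true true .npp 1 0 2 (qsf 536870912 536870912 1073741824 536870912 0) ndF7q1 ndF7q2 pcF0 Cut.none Ext.none)

def k0_pp_102 : ∃ t, chk3 f_pp_102 t 1 1 1 = true :=
  ⟨(l 3), by decide +kernel⟩

theorem c_pp_102 : CertFX 536870912 536870912 1073741824 536870912 1046898278 26843546 false true true .npp 1 0 2
    ndF7q1 ndF7q2 pcF0 Cut.none Ext.none :=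
  certFX1 (fam := false) (s1 := true) (s2 := true) (a := 1) (b := 0) (c := 2) (cn := .npp) (n1 := ndF7q1) (n2 := ndF7q2) (pc := pcF0) (cut := Cut.none) (xt := Ext.none) (P1 := 536870912) (W1 := 536870912) (P2 := 1073741824) (W2 := 536870912) (P3 := 1046898278) (W3 := 26843546)
    rfl (fun _ => rfl) k0_pp_102

noncomputable def f_pp_112 : ℕ → ℕ → ℕ → ℕ → Bool := onCell 536870912 536870912 1073741824 536870912 1046898278 26843546
    (rowFX 2 false true true .dn 1 1 2 (qsf 536870912 536870912 1073741824 536870912 1) ndF7q1 ndF7q2 pcF1 Cut.none Ext.none)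

def k0_pp_112 : ∃ t, chk3 f_pp_112 t 1 1 1 = true :=
  ⟨(a (l 3) (a (l 3) (b (l 1) (a (l 3) (b (l 1) (b (l 3) (a (l 3) (l 682931026135)))))))), by decide +kernel⟩

theorem c_pp_112 : CertFX 536870912 536870912 1073741824 536870912 1046898278 26843546 false true true .dn 1 1 2
    ndF7q1 ndF7q2 pcF1 Cut.none Ext.none :=
  certFX2 (fam := false) (s1 := true) (s2 := true) (a := 1) (b := 1) (c := 2) (cn := .dn) (n1 := ndF7q1) (n2 := ndF7q2) (pc := pcF1) (cut := Cut.none) (xt := Ext.none) (P1 := 536870912) (W1 := 536870912) (P2 := 1073741824) (W2 := 536870912) (P3 := 1046898278) (W3 := 26843546)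
    rfl (fun _ => rfl) k0_pp_112

noncomputable def f_pp_113 : ℕ → ℕ → ℕ → ℕ → Bool := onCell 536870912 536870912 0 1230186008 1046898278 26843546
    (rowFX 2 false true true .nn 1 1 3 (qsf 536870912 536870912 0 1230186008 1) ndF7q1 ndF7q3 pcF1 Cut.none Ext.none)

def k0_pp_113 : ∃ t, chk3 f_pp_113 t 1 1 1 = true :=
  ⟨(b (a (l 2) (a (l 2) (b (a (l 2) (a (l 2) (b (a (l 2) (c (l 16295088) (l 16240944))) (l 14658336)))) (a (b (b (l 2) (l 13341416)) (c (l 13620568) (b (l 13416512) (l 13599224)))) (a (b (b (l 13435176) (l 13632288)) (c (l 13967576) (l 13796800))) (b (b (l 14020360) (l 14083736)) (l 14221344))))))) (a (b (b (l 2) (l 3)) (l 3)) (a (b (b (a (l 2) (a (b (l 2) (c (l 13695608) (l 13638264))) (b (l 13515696) (c (l 13924712) (a (l 13838552) (l 13946696)))))) (a (b (c (l 13622216) (a (l 13432320) (b (l 13584392) (l 13742896)))) (a (l 3) (a (l 3) (c (l 14125280) (l 14123056))))) (b (a (c (l 13975344) (b (l 13853376) (l 14038744))) (c (l 14254592) (l 14189416))) (a (c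 (l 14319800) (l 14329328)) (c (l 14650928) (l 14603864)))))) (b (a (l 3) (b (c (a (l 14847608) (l 15127440)) (a (l 14768120) (l 15083480))) (l 3))) (l 3))) (b (a (b (b (c (l 13905776) (l 13836344)) (a (c (l 14080024) (l 14038928)) (l 14195960))) (c (b (a (l 14421568) (l 14583616)) (l 14960056)) (b (l 14280904) (l 14838040)))) (b (c (b (l 14452840) (l 14701176)) (l 14333200)) (a (b (l 14749792) (c (l 15144152) (l 15027912))) (l 15073744)))) (b (a (b (c (l 15349136) (l 15280464)) (c (l 15750864) (l 15702256))) (a (b (l 15406416) (l 15720912)) (b (c (l 15500184) (l 15430408)) (l 15722784)))) (a (b (c (l 16135824) (l 16108048)) (l 3)) (b (a (l 15936656) (c (l 15909896) (l 15897512))) (a (l 16084008) (c (l 15888440) (l 15881872)))))))))), by decide +kernel⟩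

theorem c_pp_113 : CertFX 536870912 536870912 0 1230186008 1046898278 26843546 false true true .nn 1 1 3
    ndF7q1 ndF7q3 pcF1 Cut.none Ext.none :=
  certFX2 (fam := false) (s1 := true) (s2 := true) (a := 1) (b := 1) (c := 3) (cn := .nn) (n1 := ndF7q1) (n2 := ndF7q3) (pc := pcF1) (cut := Cut.none) (xt := Ext.none) (P1 := 536870912) (W1 := 536870912) (P2 := 0) (W2 := 1230186008) (P3 := 1046898278) (W3 := 26843546)
    rfl (fun _ => rfl) k0_pp_113

noncomputable def f_pp_123 : ℕ → ℕ → ℕ → ℕ → Bool := onCell 1073741824 536870912 0 1230186008 1046898278 26843546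
    (rowFX 2 false true true .npn 1 2 3 (qsf 536870912 536870912 0 1230186008 2) ndF7q1 ndF7q3 pcF2 Cut.none Ext.none)

def k0_pp_123 : ∃ t, chk3 f_pp_123 t 1 1 1 = true :=
  ⟨(a (a (b (b (a (b (c (l 15552832) (l 14683952)) (c (l 15437256) (l 14995904))) (b (a (l 16720800) (l 16733584)) (a (l 16420232) (l 16478368)))) (a (b (a (b (l 14805560) (l 14551632)) (l 15437592)) (b (a (l 14468976) (l 15235776)) (l 14860240))) (b (a (l 15864184) (l 15920080)) (b (l 15657528) (l 15510448))))) (b (b (a (b (l 14909960) (l 15036480)) (l 15306264)) (a (b (l 15223368) (l 15456688)) (b (l 15240224) (l 15262496)))) (a (b (b (l 15724528) (a (b (l 16066528) (b (l 16182760) (l 16224360))) (l 15783048))) (c (a (b (l 16184040) (a (l 15931088) (l 16025720))) (b (l 15851936) (l 15867808))) (b (a (l 16160008) (l 15824784)) (a (l 15986720) (l 15902232))))) (b (b (l 15282424) (l 15263296)) (b (a (c (l 15491144) (l 15457096)) (c (l 15134944) (l 15091136))) (c (a (l 15772272) (l 1)) (l 657160570471)))))))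 (b (a (b (b (l 16691336) (l 16630176)) (b (l 16157992) (a (a (l 15455520) (l 15605008)) (l 16044240)))) (b (b (l 4) (l 16732904)) (b (l 16641696) (l 16592488)))) (b (a (b (a (l 15226880) (l 15853992)) (a (a (l 14991232) (l 15162744)) (l 15742888))) (b (a (l 16471856) (l 16754808)) (a (l 16437128) (l 16776744)))) (a (b (a (b (l 15010744) (l 14955192)) (l 15672856)) (b (b (l 15279496) (l 1)) (l 1))) (b (a (l 16412096) (l 16776704)) (l 1)))))) (b (b (a (b (l 4) (a (l 16706016) (l 4))) (l 4)) (a (a (b (l 16712712) (l 16677304)) (b (l 16768184) (l 16771152))) (c (l 16769544) (l 16769344)))) (b (a (b (a (l 16745096) (l 16775008)) (l 16772520)) (b (l 16777216) (l 1))) (l 1)))), by decide +kernel⟩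

theorem c_pp_123 : CertFX 536870912 536870912 0 1230186008 1046898278 26843546 false true true .npn 1 2 3
    ndF7q1 ndF7q3 pcF2 Cut.none Ext.none :=
  certFX2 (fam := false) (s1 := true) (s2 := true) (a := 1) (b := 2) (c := 3) (cn := .npn) (n1 := ndF7q1) (n2 := ndF7q3) (pc := pcF2) (cut := Cut.none) (xt := Ext.none) (P1 := 536870912) (W1 := 536870912) (P2 := 0) (W2 := 1230186008) (P3 := 1046898278) (W3 := 26843546)
    rfl (fun _ => rfl) k0_pp_123

noncomputable def f_pp_133 : ℕ → ℕ → ℕ → ℕ → Bool := onCell 1610612736 536870912 0 1230186008 1046898278 26843546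
    (rowFX 2 false true true .dn 1 3 3 (qsf 536870912 536870912 0 1230186008 3) ndF7q1 ndF7q3 pcF3 Cut.none Ext.none)

def k0_pp_133 : ∃ t, chk3 f_pp_133 t 1 1 1 = true :=
  ⟨(b (b (l 4) (l 1)) (l 1)), by decide +kernel⟩

theorem c_pp_133 : CertFX 536870912 536870912 0 1230186008 1046898278 26843546 false true true .dn 1 3 3
    ndF7q1 ndF7q3 pcF3 Cut.none Ext.none :=
  certFX2 (fam := false) (s1 := true) (s2 := true) (a := 1) (b := 3) (c := 3) (cn := .dn) (n1 := ndF7q1) (n2 := ndF7q3) (pc := pcF3) (cut := Cut.none) (xt := Ext.none) (P1 := 536870912) (W1 := 536870912) (P2 := 0) (W2 := 1230186008) (P3 := 1046898278) (W3 := 26843546)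
    rfl (fun _ => rfl) k0_pp_133

noncomputable def f_pp_202 : ℕ → ℕ → ℕ → ℕ → Bool := onCell 1073741824 536870912 1073741824 536870912 1046898278 26843546
    (rowFX 0 false true true .pp 2 0 2 (qsf 1073741824 536870912 1073741824 536870912 0) ndF7q2 ndF7q2 pcF0 Cut.none Ext.none)

def k0_pp_202 : ∃ t, chk3 f_pp_202 t 1 1 1 = true :=
  ⟨(l 3), by decide +kernel⟩

theorem c_pp_202 : CertFX 1073741824 536870912 1073741824 536870912 1046898278 26843546 false true true .pp 2 0 2
    ndF7q2 ndF7q2 pcF0 Cut.none Ext.none :=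
  certFX0 (fam := false) (s1 := true) (s2 := true) (a := 2) (b := 0) (c := 2) (cn := .pp) (n1 := ndF7q2) (n2 := ndF7q2) (pc := pcF0) (cut := Cut.none) (xt := Ext.none) (P1 := 1073741824) (W1 := 536870912) (P2 := 1073741824) (W2 := 536870912) (P3 := 1046898278) (W3 := 26843546)
    rfl k0_pp_202

noncomputable def f_pp_203 : ℕ → ℕ → ℕ → ℕ → Bool := onCell 0 536870912 0 1230186008 1046898278 26843546
    (rowFX 2 false true true .up 2 0 3 (qsf 1073741824 536870912 0 1230186008 0) ndF7q2 ndF7q3 pcF0 Cut.none Ext.none)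

def k0_pp_203 : ∃ t, chk3 f_pp_203 t 1 1 1 = true :=
  ⟨(b (a (l 2) (b (a (l 2) (a (l 2) (c (b (l 16717560) (l 16693184)) (b (l 16717544) (l 16691000))))) (l 3))) (l 3)), by decide +kernel⟩

theorem c_pp_203 : CertFX 1073741824 536870912 0 1230186008 1046898278 26843546 false true true .up 2 0 3
    ndF7q2 ndF7q3 pcF0 Cut.none Ext.none :=
  certFX2 (fam := false) (s1 := true) (s2 := true) (a := 2) (b := 0) (c := 3) (cn := .up) (n1 := ndF7q2) (n2 := ndF7q3) (pc := pcF0) (cut := Cut.none) (xt := Ext.none) (P1 := 1073741824) (W1 := 536870912) (P2 := 0) (W2 := 1230186008) (P3 := 1046898278) (W3 := 26843546)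
    rfl (fun _ => rfl) k0_pp_203

noncomputable def f_pp_213 : ℕ → ℕ → ℕ → ℕ → Bool := onCell 1073741824 536870912 0 1230186008 1046898278 26843546
    (rowFX 0 false true true .pnn 2 1 3 (qsf 1073741824 536870912 0 1230186008 1) ndF7q2 ndF7q3 pcF1 Cut.none Ext.none)

def k0_pp_213 : ∃ t, chk3 f_pp_213 t 1 2 1 = true :=
  ⟨(a (a (b (a (a (b (b (a (c (l 16528312) (l 16147736)) (l 16351096)) (l 15863920)) (b (l 14993192) (l 14341992))) (b (l 15864752) (b (l 15074392) (l 14551200)))) (b (a (l 15584712) (l 15389952)) (a (l 14821432) (l 14856272)))) (b (a (b (a (l 14014752) (l 14273576)) (a (l 13825176) (l 14211264))) (b (a (l 14520168) (l 14791096)) (a (l 14493928) (l 14800024)))) (a (b (a (l 13799768) (l 14189680)) (a (l 13820088) (c (l 14173392) (l 14159704)))) (b (a (l 14485528) (l 14806736)) (b (l 14638456) (a (l 14447832) (l 14811792))))))) (a (b (b (l 15426640) (b (l 15354232) (l 15325200))) (a (b (l 15168096) (b (l 15183744) (a (l 15091952) (l 15277656)))) (b (l 15524008)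 (b (b (l 15535624) (l 15535624)) (c (l 15551544) (l 15519712)))))) (b (b (l 15964000) (l 15915320)) (b (b (l 15948960) (a (l 15826872) (l 16095648))) (c (c (l 52242152471) (b (l 15969376) (l 15969376))) (b (a (l 15814688) (l 16086912)) (c (l 15958952) (l 15948528)))))))) (b (a (a (b (l 16424072) (l 16394408)) (b (l 16708616) (c (l 16684288) (l 16681416)))) (a (b (l 16717832) (b (l 16686344) (c (l 16706488) (l 16704648)))) (c (b (l 16717560) (l 16693184)) (b (l 16717544) (l 16691000))))) (b (a (a (c (b (l 16453496) (l 16405472)) (b (l 16439056) (l 16313560))) (c (b (l 16744656) (a (l 16757872) (l 16777216))) (b (l 16743392) (a (l 16757368) (l 16777216))))) (c (a (b (l 16753616) (l 125258694663)) (l 156933986743)) (a (b (l 16753008) (l 119353114631)) (c (l 16763944) (l 16763776))))) (a (b (a (c (l 48485033271) (c (l 16462368) (l 16458360))) (a (b (l 159081375479) (l 3)) (l 3))) (a (a (b (l 16345760) (l 3)) (l 3)) (l 3))) (l 3))))), by decide +kernel⟩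

def k1_pp_213 : ∃ t, chk3 f_pp_213 t 1 3 1 = true :=
  ⟨(b (a (b (b (a (a (a (b (l 13863312) (a (l 13803448) (l 13950016))) (c (l 14178432) (l 14166272))) (a (c (l 14506816) (l 14474008)) (c (l 14837448) (l 14787104)))) (a (c (a (l 15206152) (l 15551544)) (a (l 15165344) (l 15519712))) (a (b (l 138678231223) (l 3)) (l 3)))) (a (a (c (a (l 13881016) (l 14173736)) (a (b (l 13855208) (l 13844336)) (l 14158992))) (c (a (l 14506224) (l 14837472)) (b (l 14632424) (l 162297994631)))) (a (a (b (l 161762272375) (l 3)) (l 3)) (l 3)))) (b (a (a (c (a (l 13871616) (a (l 14083944) (l 14251984))) (a (b (l 13837792) (l 13836160)) (l 194509298871))) (l 3)) (l 3)) (l 3))) (l 3)) (l 3)), by decide +kernel⟩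

theorem s2_pp_213 : ∃ t, chk3 f_pp_213 t 1 1 1 = true := ex3_b k0_pp_213 k1_pp_213

theorem c_pp_213 : CertFX 1073741824 536870912 0 1230186008 1046898278 26843546 false true true .pnn 2 1 3
    ndF7q2 ndF7q3 pcF1 Cut.none Ext.none :=
  certFX0 (fam := false) (s1 := true) (s2 := true) (a := 2) (b := 1) (c := 3) (cn := .pnn) (n1 := ndF7q2) (n2 := ndF7q3) (pc := pcF1) (cut := Cut.none) (xt := Ext.none) (P1 := 1073741824) (W1 := 536870912) (P2 := 0) (W2 := 1230186008) (P3 := 1046898278) (W3 := 26843546)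
    rfl s2_pp_213

noncomputable def f_pp_303 : ℕ → ℕ → ℕ → ℕ → Bool := onCell 0 1230186008 0 1230186008 1046898278 26843546
    (rowFX 0 false true true .npn 3 0 3 (qsf 0 1230186008 0 1230186008 0) ndF7q3 ndF7q3 pcF0 Cut.none Ext.none)

def k0_pp_303 : ∃ t, chk3 f_pp_303 t 1 1 1 = true :=
  ⟨(a (b (l 3) (a (l 1) (l 3))) (b (a (l 3) (b (a (b (c (l 530059056887) (l 534354133575)) (l 3)) (c (a (b (l 16717560) (l 237464463975)) (b (l 16717560) (l 211157789607))) (a (b (l 16717544) (l 229411395927)) (b (l 16717544) (l 201494113095))))) (l 3))) (l 3))), by decide +kernel⟩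

theorem c_pp_303 : CertFX 0 1230186008 0 1230186008 1046898278 26843546 false true true .npn 3 0 3
    ndF7q3 ndF7q3 pcF0 Cut.none Ext.none :=
  certFX0 (fam := false) (s1 := true) (s2 := true) (a := 3) (b := 0) (c := 3) (cn := .npn) (n1 := ndF7q3) (n2 := ndF7q3) (pc := pcF0) (cut := Cut.none) (xt := Ext.none) (P1 := 0) (W1 := 1230186008) (P2 := 0) (W2 := 1230186008) (P3 := 1046898278) (W3 := 26843546)
    rfl k0_pp_303

noncomputable def f_pp_313 : ℕ → ℕ → ℕ → ℕ → Bool := onCell 0 1230186008 0 1230186008 1046898278 26843546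
    (rowFX 0 false true true .dn 3 1 3 (qsf 0 1230186008 0 1230186008 1) ndF7q3 ndF7q3 pcF1 Cut.none Ext.none)

def k0_pp_313 : ∃ t, chk3 f_pp_313 t 1 1 1 = true :=
  ⟨(a (l 1) (b (a (l 1) (b (b (a (l 1) (a (l 1) (c (l 16717256) (l 16717232)))) (l 1)) (l 1))) (l 1))), by decide +kernel⟩

theorem c_pp_313 : CertFX 0 1230186008 0 1230186008 1046898278 26843546 false true true .dn 3 1 3
    ndF7q3 ndF7q3 pcF1 Cut.none Ext.none :=
  certFX0 (fam := false) (s1 := true) (s2 := true) (a := 3) (b := 1) (c := 3) (cn := .dn) (n1 := ndF7q3) (n2 := ndF7q3) (pc := pcF1) (cut := Cut.none) (xt := Ext.none) (P1 := 0) (W1 := 1230186008) (P2 := 0) (W2 := 1230186008) (P3 := 1046898278) (W3 := 26843546)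
    rfl k0_pp_313

noncomputable def f_pm_001 : ℕ → ℕ → ℕ → ℕ → Bool := onCell 0 536870912 536870912 536870912 1046898278 26843546
    (rowFX 0 false true false .up 0 0 1 (qsf 0 536870912 536870912 536870912 0) ndF7q0 ndF7q1 pcF0 Cut.none Ext.none)

def k0_pm_001 : ∃ t, chk3 f_pm_001 t 1 1 1 = true :=
  ⟨(l 4), by decide +kernel⟩

theorem c_pm_001 : CertFX 0 536870912 536870912 536870912 1046898278 26843546 false true false .up 0 0 1
    ndF7q0 ndF7q1 pcF0 Cut.none Ext.none :=
  certFX0 (fam := false) (s1 := true) (s2 := false) (a := 0) (b := 0) (c := 1) (cn := .up) (n1 := ndF7q0) (n2 := ndF7q1) (pc := pcF0) (cut := Cut.none) (xt := Ext.none) (P1 := 0) (W1 := 536870912) (P2 := 536870912) (W2 := 536870912) (P3 := 1046898278) (W3 := 26843546)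
    rfl k0_pm_001

noncomputable def f_pm_011 : ℕ → ℕ → ℕ → ℕ → Bool := onCell 0 536870912 536870912 536870912 1046898278 26843546
    (rowFX 0 false true false .pnn 0 1 1 (qsf 0 536870912 536870912 536870912 1) ndF7q0 ndF7q1 pcF1 Cut.none Ext.none)

def k0_pm_011 : ∃ t, chk3 f_pm_011 t 1 1 1 = true :=
  ⟨(l 4), by decide +kernel⟩

theorem c_pm_011 : CertFX 0 536870912 536870912 536870912 1046898278 26843546 false true false .pnn 0 1 1
    ndF7q0 ndF7q1 pcF1 Cut.none Ext.none :=
  certFX0 (fam := false) (s1 := true) (s2 := false) (a := 0) (b := 1) (c := 1) (cn := .pnn) (n1 := ndF7q0) (n2 := ndF7q1) (pc := pcF1) (cut := Cut.none) (xt := Ext.none) (P1 := 0) (W1 := 536870912) (P2 := 536870912) (W2 := 536870912) (P3 := 1046898278) (W3 := 26843546)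
    rfl k0_pm_011

noncomputable def f_pm_012 : ℕ → ℕ → ℕ → ℕ → Bool := onCell 0 536870912 1073741824 536870912 1046898278 26843546
    (rowFX 0 false true false .pnp 0 1 2 (qsf 0 536870912 1073741824 536870912 1) ndF7q0 ndF7q2 pcF1 Cut.none Ext.none)

def k0_pm_012 : ∃ t, chk3 f_pm_012 t 1 1 1 = true :=
  ⟨(l 4), by decide +kernel⟩

theorem c_pm_012 : CertFX 0 536870912 1073741824 536870912 1046898278 26843546 false true false .pnp 0 1 2
    ndF7q0 ndF7q2 pcF1 Cut.none Ext.none :=
  certFX0 (fam := false) (s1 := true) (s2 := false) (a := 0) (b := 1) (c := 2) (cn := .pnp) (n1 := ndF7q0) (n2 := ndF7q2) (pc := pcF1) (cut := Cut.none) (xt := Ext.none) (P1 := 0) (W1 := 536870912) (P2 := 1073741824) (W2 := 536870912) (P3 := 1046898278) (W3 := 26843546)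
    rfl k0_pm_012

noncomputable def f_pm_022 : ℕ → ℕ → ℕ → ℕ → Bool := onCell 0 536870912 1073741824 536870912 1046898278 26843546
    (rowFX 0 false true false .pp 0 2 2 (qsf 0 536870912 1073741824 536870912 2) ndF7q0 ndF7q2 pcF2 Cut.none Ext.none)

def k0_pm_022 : ∃ t, chk3 f_pm_022 t 1 1 1 = true :=
  ⟨(l 4), by decide +kernel⟩

theorem c_pm_022 : CertFX 0 536870912 1073741824 536870912 1046898278 26843546 false true false .pp 0 2 2
    ndF7q0 ndF7q2 pcF2 Cut.none Ext.none :=
  certFX0 (fam := false) (s1 := true) (s2 := false) (a := 0) (b := 2) (c := 2) (cn := .pp) (n1 := ndF7q0) (n2 := ndF7q2) (pc := pcF2) (cut := Cut.none) (xt := Ext.none) (P1 := 0) (W1 := 536870912) (P2 := 1073741824) (W2 := 536870912) (P3 := 1046898278) (W3 := 26843546)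
    rfl k0_pm_022

noncomputable def f_pm_023 : ℕ → ℕ → ℕ → ℕ → Bool := onCell 0 536870912 0 1230186008 1046898278 26843546
    (rowFX 0 false true false .up 0 2 3 (qsf 0 536870912 0 1230186008 2) ndF7q0 ndF7q3 pcF2 Cut.none Ext.none)

def k0_pm_023 : ∃ t, chk3 f_pm_023 t 1 1 1 = true :=
  ⟨(l 4), by decide +kernel⟩

theorem c_pm_023 : CertFX 0 536870912 0 1230186008 1046898278 26843546 false true false .up 0 2 3
    ndF7q0 ndF7q3 pcF2 Cut.none Ext.none :=
  certFX0 (fam := false) (s1 := true) (s2 := false) (a := 0) (b := 2) (c := 3) (cn := .up) (n1 := ndF7q0) (n2 := ndF7q3) (pc := pcF2) (cut := Cut.none) (xt := Ext.none) (P1 := 0) (W1 := 536870912) (P2 := 0) (W2 := 1230186008) (P3 := 1046898278) (W3 := 26843546)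
    rfl k0_pm_023

noncomputable def f_pm_033 : ℕ → ℕ → ℕ → ℕ → Bool := onCell 0 536870912 0 1230186008 1046898278 26843546
    (rowFX 0 false true false .pnn 0 3 3 (qsf 0 536870912 0 1230186008 3) ndF7q0 ndF7q3 pcF3 Cut.none Ext.none)

def k0_pm_033 : ∃ t, chk3 f_pm_033 t 1 1 1 = true :=
  ⟨(l 4), by decide +kernel⟩

theorem c_pm_033 : CertFX 0 536870912 0 1230186008 1046898278 26843546 false true false .pnn 0 3 3
    ndF7q0 ndF7q3 pcF3 Cut.none Ext.none :=
  certFX0 (fam := false) (s1 := true) (s2 := false) (a := 0) (b := 3) (c := 3) (cn := .pnn) (n1 := ndF7q0) (n2 := ndF7q3) (pc := pcF3) (cut := Cut.none) (xt := Ext.none) (P1 := 0) (W1 := 536870912) (P2 := 0) (W2 := 1230186008) (P3 := 1046898278) (W3 := 26843546)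
    rfl k0_pm_033

noncomputable def f_pm_101 : ℕ → ℕ → ℕ → ℕ → Bool := onCell 536870912 536870912 536870912 536870912 1046898278 26843546
    (rowFX 0 false true false .npn 1 0 1 (qsf 536870912 536870912 536870912 536870912 0) ndF7q1 ndF7q1 pcF0 Cut.none Ext.none)

def k0_pm_101 : ∃ t, chk3 f_pm_101 t 1 1 1 = true :=
  ⟨(l 4), by decide +kernel⟩

theorem c_pm_101 : CertFX 536870912 536870912 536870912 536870912 1046898278 26843546 false true false .npn 1 0 1
    ndF7q1 ndF7q1 pcF0 Cut.none Ext.none :=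
  certFX0 (fam := false) (s1 := true) (s2 := false) (a := 1) (b := 0) (c := 1) (cn := .npn) (n1 := ndF7q1) (n2 := ndF7q1) (pc := pcF0) (cut := Cut.none) (xt := Ext.none) (P1 := 536870912) (W1 := 536870912) (P2 := 536870912) (W2 := 536870912) (P3 := 1046898278) (W3 := 26843546)
    rfl k0_pm_101

noncomputable def f_pm_102 : ℕ → ℕ → ℕ → ℕ → Bool := onCell 536870912 536870912 1073741824 536870912 1046898278 26843546
    (rowFX 0 false true false .npp 1 0 2 (qsf 536870912 536870912 1073741824 536870912 0) ndF7q1 ndF7q2 pcF0 Cut.none Ext.none)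

def k0_pm_102 : ∃ t, chk3 f_pm_102 t 1 1 1 = true :=
  ⟨(l 4), by decide +kernel⟩

theorem c_pm_102 : CertFX 536870912 536870912 1073741824 536870912 1046898278 26843546 false true false .npp 1 0 2
    ndF7q1 ndF7q2 pcF0 Cut.none Ext.none :=
  certFX0 (fam := false) (s1 := true) (s2 := false) (a := 1) (b := 0) (c := 2) (cn := .npp) (n1 := ndF7q1) (n2 := ndF7q2) (pc := pcF0) (cut := Cut.none) (xt := Ext.none) (P1 := 536870912) (W1 := 536870912) (P2 := 1073741824) (W2 := 536870912) (P3 := 1046898278) (W3 := 26843546)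
    rfl k0_pm_102

noncomputable def f_pm_112 : ℕ → ℕ → ℕ → ℕ → Bool := onCell 536870912 536870912 1073741824 536870912 1046898278 26843546
    (rowFX 0 false true false .dn 1 1 2 (qsf 536870912 536870912 1073741824 536870912 1) ndF7q1 ndF7q2 pcF1 Cut.none Ext.none)

def k0_pm_112 : ∃ t, chk3 f_pm_112 t 1 1 1 = true :=
  ⟨(l 4), by decide +kernel⟩

theorem c_pm_112 : CertFX 536870912 536870912 1073741824 536870912 1046898278 26843546 false true false .dn 1 1 2
    ndF7q1 ndF7q2 pcF1 Cut.none Ext.none :=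
  certFX0 (fam := false) (s1 := true) (s2 := false) (a := 1) (b := 1) (c := 2) (cn := .dn) (n1 := ndF7q1) (n2 := ndF7q2) (pc := pcF1) (cut := Cut.none) (xt := Ext.none) (P1 := 536870912) (W1 := 536870912) (P2 := 1073741824) (W2 := 536870912) (P3 := 1046898278) (W3 := 26843546)
    rfl k0_pm_112

noncomputable def f_pm_113 : ℕ → ℕ → ℕ → ℕ → Bool := onCell 536870912 536870912 0 1230186008 1046898278 26843546
    (rowFX 0 false true false .nn 1 1 3 (qsf 536870912 536870912 0 1230186008 1) ndF7q1 ndF7q3 pcF1 Cut.none Ext.none)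

def k0_pm_113 : ∃ t, chk3 f_pm_113 t 1 1 1 = true :=
  ⟨(b (a (l 2) (b (a (l 2) (a (l 2) (b (b (l 16475368) (l 4)) (l 4)))) (l 4))) (l 4)), by decide +kernel⟩

theorem c_pm_113 : CertFX 536870912 536870912 0 1230186008 1046898278 26843546 false true false .nn 1 1 3
    ndF7q1 ndF7q3 pcF1 Cut.none Ext.none :=
  certFX0 (fam := false) (s1 := true) (s2 := false) (a := 1) (b := 1) (c := 3) (cn := .nn) (n1 := ndF7q1) (n2 := ndF7q3) (pc := pcF1) (cut := Cut.none) (xt := Ext.none) (P1 := 536870912) (W1 := 536870912) (P2 := 0) (W2 := 1230186008) (P3 := 1046898278) (W3 := 26843546)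
    rfl k0_pm_113

noncomputable def f_pm_123 : ℕ → ℕ → ℕ → ℕ → Bool := onCell 536870912 536870912 0 1230186008 1046898278 26843546
    (rowFX 0 false true false .npn 1 2 3 (qsf 536870912 536870912 0 1230186008 2) ndF7q1 ndF7q3 pcF2 Cut.none Ext.none)

def k0_pm_123 : ∃ t, chk3 f_pm_123 t 1 1 1 = true :=
  ⟨(b (a (l 4) (b (a (l 4) (a (l 4) (b (a (l 4) (l 16135104)) (l 4)))) (l 4))) (l 4)), by decide +kernel⟩

theorem c_pm_123 : CertFX 536870912 536870912 0 1230186008 1046898278 26843546 false true false .npn 1 2 3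
    ndF7q1 ndF7q3 pcF2 Cut.none Ext.none :=
  certFX0 (fam := false) (s1 := true) (s2 := false) (a := 1) (b := 2) (c := 3) (cn := .npn) (n1 := ndF7q1) (n2 := ndF7q3) (pc := pcF2) (cut := Cut.none) (xt := Ext.none) (P1 := 536870912) (W1 := 536870912) (P2 := 0) (W2 := 1230186008) (P3 := 1046898278) (W3 := 26843546)
    rfl k0_pm_123

noncomputable def f_pm_133 : ℕ → ℕ → ℕ → ℕ → Bool := onCell 1610612736 536870912 0 1230186008 1046898278 26843546
    (rowFX 2 false true false .dn 1 3 3 (qsf 536870912 536870912 0 1230186008 3) ndF7q1 ndF7q3 pcF3 Cut.none Ext.none)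

def k0_pm_133 : ∃ t, chk3 f_pm_133 t 1 1 1 = true :=
  ⟨(l 4), by decide +kernel⟩

theorem c_pm_133 : CertFX 536870912 536870912 0 1230186008 1046898278 26843546 false true false .dn 1 3 3
    ndF7q1 ndF7q3 pcF3 Cut.none Ext.none :=
  certFX2 (fam := false) (s1 := true) (s2 := false) (a := 1) (b := 3) (c := 3) (cn := .dn) (n1 := ndF7q1) (n2 := ndF7q3) (pc := pcF3) (cut := Cut.none) (xt := Ext.none) (P1 := 536870912) (W1 := 536870912) (P2 := 0) (W2 := 1230186008) (P3 := 1046898278) (W3 := 26843546)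
    rfl (fun _ => rfl) k0_pm_133

noncomputable def f_pm_202 : ℕ → ℕ → ℕ → ℕ → Bool := onCell 1073741824 536870912 1073741824 536870912 1046898278 26843546
    (rowFX 0 false true false .pp 2 0 2 (qsf 1073741824 536870912 1073741824 536870912 0) ndF7q2 ndF7q2 pcF0 Cut.none Ext.none)

def k0_pm_202 : ∃ t, chk3 f_pm_202 t 1 1 1 = true :=
  ⟨(l 4), by decide +kernel⟩

theorem c_pm_202 : CertFX 1073741824 536870912 1073741824 536870912 1046898278 26843546 false true false .pp 2 0 2
    ndF7q2 ndF7q2 pcF0 Cut.none Ext.none :=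
  certFX0 (fam := false) (s1 := true) (s2 := false) (a := 2) (b := 0) (c := 2) (cn := .pp) (n1 := ndF7q2) (n2 := ndF7q2) (pc := pcF0) (cut := Cut.none) (xt := Ext.none) (P1 := 1073741824) (W1 := 536870912) (P2 := 1073741824) (W2 := 536870912) (P3 := 1046898278) (W3 := 26843546)
    rfl k0_pm_202

noncomputable def f_pm_203 : ℕ → ℕ → ℕ → ℕ → Bool := onCell 1073741824 536870912 0 1230186008 1046898278 26843546
    (rowFX 0 false true false .up 2 0 3 (qsf 1073741824 536870912 0 1230186008 0) ndF7q2 ndF7q3 pcF0 Cut.none Ext.none)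

def k0_pm_203 : ∃ t, chk3 f_pm_203 t 1 1 1 = true :=
  ⟨(b (a (l 2) (a (l 2) (b (b (l 16717832) (l 16692088)) (c (l 16769544) (l 16769344))))) (a (l 4) (a (l 4) (b (l 4) (l 4))))), by decide +kernel⟩

theorem c_pm_203 : CertFX 1073741824 536870912 0 1230186008 1046898278 26843546 false true false .up 2 0 3
    ndF7q2 ndF7q3 pcF0 Cut.none Ext.none :=
  certFX0 (fam := false) (s1 := true) (s2 := false) (a := 2) (b := 0) (c := 3) (cn := .up) (n1 := ndF7q2) (n2 := ndF7q3) (pc := pcF0) (cut := Cut.none) (xt := Ext.none) (P1 := 1073741824) (W1 := 536870912) (P2 := 0) (W2 := 1230186008) (P3 := 1046898278) (W3 := 26843546)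
    rfl k0_pm_203

noncomputable def f_pm_213 : ℕ → ℕ → ℕ → ℕ → Bool := onCell 536870912 536870912 0 1230186008 1046898278 26843546
    (rowFX 2 false true false .pnn 2 1 3 (qsf 1073741824 536870912 0 1230186008 1) ndF7q2 ndF7q3 pcF1 Cut.none Ext.none)

def k0_pm_213 : ∃ t, chk3 f_pm_213 t 1 1 1 = true :=
  ⟨(b (b (b (a (a (l 16717832) (l 16549680)) (a (a (b (l 15929936) (l 15872440)) (a (b (l 15492080) (b (l 15521840) (l 16216512))) (b (c (l 15460184) (l 15412856)) (b (b (l 15409856) (l 16245936)) (l 16243888))))) (a (a (b (a (l 15574168) (l 15748504)) (l 16251264)) (c (a (l 15881576) (l 16001760)) (l 15936824))) (a (c (a (l 16135144) (l 16320040)) (l 16142176)) (c (l 16591136) (a (l 16066024) (l 16212264))))))) (a (a (a (l 16692088) (l 16692088)) (a (l 16635000) (a (l 16403712) (l 16198976)))) (a (a (a (l 16125784) (l 16068960)) (a (l 16101296) (l 16280632))) (l 4)))) (a (a (b (l 16760648) (l 16704776)) (b (a (l 16615368) (l 16324144)) (l 4))) (l 4))) (a (l 4) (l 4))),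 by decide +kernel⟩

theorem c_pm_213 : CertFX 1073741824 536870912 0 1230186008 1046898278 26843546 false true false .pnn 2 1 3
    ndF7q2 ndF7q3 pcF1 Cut.none Ext.none :=
  certFX2 (fam := false) (s1 := true) (s2 := false) (a := 2) (b := 1) (c := 3) (cn := .pnn) (n1 := ndF7q2) (n2 := ndF7q3) (pc := pcF1) (cut := Cut.none) (xt := Ext.none) (P1 := 1073741824) (W1 := 536870912) (P2 := 0) (W2 := 1230186008) (P3 := 1046898278) (W3 := 26843546)
    rfl (fun _ => rfl) k0_pm_213

noncomputable def f_pm_303 : ℕ → ℕ → ℕ → ℕ → Bool := onCell 0 1230186008 0 1230186008 1046898278 26843546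
    (rowFX 0 false true false .npn 3 0 3 (qsf 0 1230186008 0 1230186008 0) ndF7q3 ndF7q3 pcF0 Cut.none Ext.none)

def k0_pm_303 : ∃ t, chk3 f_pm_303 t 4 2 1 = true :=
  ⟨(l 3), by decide +kernel⟩

def k1_pm_303 : ∃ t, chk3 f_pm_303 t 5 4 1 = true :=
  ⟨(l 3), by decide +kernel⟩

def k2_pm_303 : ∃ t, chk3 f_pm_303 t 5 10 1 = true :=
  ⟨(b (l 3) (b (l 3) (a (l 3) (a (l 3) (a (l 3) (a (l 3) (c (l 417849876439) (l 15182952)))))))), by decide +kernel⟩

def k3_pm_303 : ∃ t, chk3 f_pm_303 t 10 11 1 = true :=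
  ⟨(b (l 3) (l 1)), by decide +kernel⟩

def k4_pm_303 : ∃ t, chk3 f_pm_303 t 11 22 1 = true :=
  ⟨(a (b (l 3) (b (l 3) (a (l 1) (a (l 3) (a (l 3) (b (l 3) (b (l 3) (c (l 14753784) (l 377584096215))))))))) (a (b (a (l 3) (b (l 3) (c (l 410333476791) (l 386711070759)))) (b (c (a (l 14833512) (l 14890104)) (c (a (l 14813568) (l 14892544)) (l 372215011143))) (c (a (b (l 14805336) (a (l 14776432) (l 14799632))) (c (b (l 14871856) (l 14865840)) (b (l 14856936) (a (l 14832072) (l 14877952))))) (a (c (b (l 14780256) (a (l 14738784) (c (l 14773168) (l 14768744)))) (a (c (l 356646031719) (l 14734648)) (l 14771472))) (c (b (l 14851184) (l 14845712)) (l 14821752)))))) (c (c (b (a (l 15040776) (l 15128728)) (b (l 15020000) (a (l 14950456) (l 15047576)))) (b (a (l 361478266567) (l 15134752)) (b (l 15019616) (l 14998056)))) (b (c (l 355572784311) (l 15065984)) (c (b (l 15018576) (l 14994248)) (l 14958880)))))), by decide +kernel⟩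

def k5_pm_303 : ∃ t, chk3 f_pm_303 t 11 23 1 = true :=
  ⟨(a (a (l 1) (a (l 1) (a (l 1) (a (l 1) (b (b (c (l 14709352) (l 14659696)) (l 1)) (l 1)))))) (b (a (c (b (a (l 14772664) (c (b (l 14895960) (l 14872640)) (a (l 14841784) (l 14885480)))) (l 2231801709079)) (b (a (c (l 14738752) (b (a (l 14709832) (l 14761568)) (l 14727128))) (c (b (l 14845776) (l 14855776)) (l 14839360))) (a (l 14691168) (c (l 14838792) (b (l 14839048) (l 14829928)))))) (c (b (a (c (a (l 14958520) (l 14987544)) (b (l 14932568) (l 14963336))) (l 15032608)) (a (c (l 14997256) (l 14970088)) (c (l 15080600) (l 15057752)))) (b (c (l 14993728) (l 14994400)) (a (c (b (l 14953576) (l 14956560)) (l 14899136)) (l 15029960))))) (a (c (l 2220527284327) (b (l 14719520) (l 1))) (a (c (l 14930648) (b (c (l 14943960) (b (l 14941240) (l 14934336))) (l 14892808))) (b (c (b (l 15084288) (l 15082752)) (c (b (l 15054064) (l 15058424)) (b (l 15043832) (l 15045408)))) (l 15060096)))))), by decide +kernel⟩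

def k6_pm_303 : ∃ t, chk3 f_pm_303 t 2 3 1 = true :=
  ⟨(a (l 1) (b (a (l 1) (b (b (a (l 1) (b (a (l 1) (l 14916552)) (l 1))) (l 1)) (l 1))) (l 1))), by decide +kernel⟩

def k7_pm_303 : ∃ t, chk3 f_pm_303 t 6 4 1 = true :=
  ⟨(a (b (l 3) (a (l 3) (b (l 3) (c (l 459727351975) (l 445231719143))))) (a (b (l 3) (b (c (l 473149848695) (l 472076034215)) (c (l 263770086343) (l 266991241031)))) (b (a (l 3) (c (l 16717560) (l 16717544))) (a (b (c (l 244980145703) (l 244443259751)) (b (l 16614136) (l 16605072))) (b (c (l 16687616) (l 16685296)) (l 16701280)))))), by decide +kernel⟩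

def k8_pm_303 : ∃ t, chk3 f_pm_303 t 6 5 1 = true :=
  ⟨(a (b (a (a (b (l 3) (c (b (a (l 3) (l 15465656)) (c (a (l 351278071863) (l 15397272)) (l 15342120))) (b (l 402817853367) (l 346982994199)))) (b (c (l 431809401527) (l 419461289975)) (c (b (l 15645648) (l 15547144)) (b (l 15616128) (l 15515032))))) (b (a (c (l 304571375799) (l 312087499527)) (c (l 16056856) (l 15963600))) (c (a (b (l 15824544) (l 15801048)) (l 16007696)) (a (b (l 15799776) (l 15775656)) (b (l 16011808) (l 15956896)))))) (a (b (c (a (b (a (c (l 15212480) (l 15207784)) (c (l 15357456) (l 15347080))) (b (c (l 15248640) (l 15256496)) (l 15217760))) (b (a (l 15400928) (l 15543432)) (a (l 15435344) (l 15537320)))) (a (b (b (l 15264568) (l 15256608)) (b (l 15230456) (l 15219896))) (b (b (l 15477520) (l 15482120)) (l 15445304)))) (a (b (c (b (l 15180808) (a (l 15135128) (l 15222440))) (l 15212304)) (b (c (a (b (l 15145136) (a (l 15160296) (l 15207728))) (l 15100816)) (c (l 14981992) (l 15191456))) (c (l 15217760)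 (l 15195336)))) (b (c (l 15424760) (l 15434224)) (c (l 15390240) (l 15400632))))) (b (a (c (b (l 15764600) (l 15683032)) (b (l 15730696) (l 15640616))) (b (c (l 15948104) (l 15920672)) (c (l 15896328) (l 15915496)))) (b (c (a (c (l 15645520) (l 15637616)) (l 15850272)) (l 15697384)) (c (l 15725552) (l 15717352)))))) (b (a (b (a (b (l 16206144) (l 16222400)) (l 16362528)) (a (b (l 16159640) (l 16161808)) (l 16257784))) (b (a (l 16568480) (l 16708552)) (a (l 16490048) (l 16642904)))) (b (a (a (b (l 16120608) (l 16095464)) (l 16245464)) (l 16305392)) (a (l 16129760) (l 16426464))))), by decide +kernel⟩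

def k9_pm_303 : ∃ t, chk3 f_pm_303 t 7 2 1 = true :=
  ⟨(b (b (a (c (a (l 16717560) (l 16717560)) (a (l 234243342919) (l 16717544))) (a (c (l 16717560) (l 16717544)) (l 16717832))) (a (a (c (l 16693184) (l 16691000)) (l 16692088)) (a (l 16692088) (l 16692088)))) (a (a (b (a (b (l 16753312) (l 16752504)) (l 16764032)) (b (a (l 16685784) (l 16762200)) (l 16660544))) (b (l 16764032) (b (l 16777216) (l 16771632)))) (c (b (l 16764200) (l 16777216)) (b (l 16763864) (l 16777216))))), by decide +kernel⟩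

def k10_pm_303 : ∃ t, chk3 f_pm_303 t 6 3 1 = true :=
  ⟨(b (a (b (b (a (b (a (c (l 15194688) (b (a (l 15143520) (l 15245856)) (l 15181968))) (c (b (l 15409136) (l 15414648)) (b (l 15395056) (l 15395768)))) (a (l 15132776) (c (l 15273816) (b (a (l 15348560) (l 15447072)) (l 1566082727143))))) (a (b (c (l 15583136) (l 15593920)) (c (b (l 15602848) (l 15568832)) (a (l 15293328) (l 15639112)))) (c (b (l 15800584) (l 15773120)) (l 15781584)))) (a (b (l 1666477247447) (l 1)) (b (a (c (b (l 15613752) (l 15602728)) (b (a (l 15553808) (l 15647736)) (a (l 15533872) (l 15656512)))) (c (a (l 15757008) (l 15842240)) (c (l 15791696) (l 15786792)))) (a (l 15574128) (c (b (l 15814528) (l 15811432)) (b (a (l 15759272) (l 15847824)) (a (l 15748432) (l 15862088)))))))) (b (a (l 1) (b (c (l 15693288) (l 1472130918199)) (l 1))) (l 1))) (b (a (b (c (l 16013760) (l 16069360)) (a (b (c (l 15959768) (l 15968952)) (c (b (l 15985200) (a (l 15968904) (l 16039304))) (a (b (l 15920152) (l 15952744))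 (l 16031936)))) (c (b (l 16149952) (l 16138944)) (l 16152504)))) (b (l 16400464) (a (b (l 16316368) (l 16307928)) (b (l 16447176) (l 16452120))))) (a (b (b (a (a (b (c (l 15967272) (l 15959976)) (l 15963328)) (l 16059728)) (c (l 16181496) (l 16175456))) (a (l 16027624) (b (l 16211144) (l 16233032)))) (b (l 16166088) (l 1))) (b (a (b (l 16297144) (c (l 16370568) (l 16366616))) (l 16478624)) (b (a (c (l 16428312) (b (l 16411016) (l 16443248))) (c (l 16557792) (l 16555752))) (a (l 16494040) (c (l 16634936) (b (l 16613112) (l 16656640))))))))) (a (l 1) (b (a (l 1) (b (b (l 16653072) (l 1)) (l 1))) (l 1)))), by decide +kernel⟩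

def k11_pm_303 : ∃ t, chk3 f_pm_303 t 7 3 1 = true :=
  ⟨(b (a (b (a (b (l 16615720) (l 16602536)) (b (l 16751504) (l 16736480))) (a (b (a (l 16593952) (l 16684216)) (a (b (l 16665672) (c (l 16732384) (l 16731992))) (c (l 16751736) (l 16751656)))) (b (l 16753120) (b (l 16775160) (l 4))))) (b (a (l 16772840) (l 16777216)) (a (b (l 16776840) (l 4)) (l 4)))) (a (b (b (a (a (b (a (b (l 16769504) (l 4)) (l 4)) (l 4)) (l 4)) (l 4)) (l 4)) (l 4)) (l 4))), by decide +kernel⟩

theorem s12_pm_303 : ∃ t, chk3 f_pm_303 t 3 3 1 = true := ex3_a k10_pm_303 k11_pm_303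

theorem s13_pm_303 : ∃ t, chk3 f_pm_303 t 6 2 1 = true := ex3_b k7_pm_303 k8_pm_303

theorem s14_pm_303 : ∃ t, chk3 f_pm_303 t 3 2 1 = true := ex3_a s13_pm_303 k9_pm_303

theorem s15_pm_303 : ∃ t, chk3 f_pm_303 t 3 1 1 = true := ex3_b s14_pm_303 s12_pm_303

theorem s16_pm_303 : ∃ t, chk3 f_pm_303 t 11 11 1 = true := ex3_b k4_pm_303 k5_pm_303

theorem s17_pm_303 : ∃ t, chk3 f_pm_303 t 5 11 1 = true := ex3_a k3_pm_303 s16_pm_303

theorem s18_pm_303 : ∃ t, chk3 f_pm_303 t 5 5 1 = true := ex3_b k2_pm_303 s17_pm_303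

theorem s19_pm_303 : ∃ t, chk3 f_pm_303 t 5 2 1 = true := ex3_b k1_pm_303 s18_pm_303

theorem s20_pm_303 : ∃ t, chk3 f_pm_303 t 2 2 1 = true := ex3_a k0_pm_303 s19_pm_303

theorem s21_pm_303 : ∃ t, chk3 f_pm_303 t 2 1 1 = true := ex3_b s20_pm_303 k6_pm_303

theorem s22_pm_303 : ∃ t, chk3 f_pm_303 t 1 1 1 = true := ex3_a s21_pm_303 s15_pm_303

theorem c_pm_303 : CertFX 0 1230186008 0 1230186008 1046898278 26843546 false true false .npn 3 0 3
    ndF7q3 ndF7q3 pcF0 Cut.none Ext.none :=
  certFX0 (fam := false) (s1 := true) (s2 := false) (a := 3) (b := 0) (c := 3) (cn := .npn) (n1 := ndF7q3) (n2 := ndF7q3) (pc := pcF0) (cut := Cut.none) (xt := Ext.none) (P1 := 0) (W1 := 1230186008) (P2 := 0) (W2 := 1230186008) (P3 := 1046898278) (W3 := 26843546)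
    rfl s22_pm_303

noncomputable def f_pm_313 : ℕ → ℕ → ℕ → ℕ → Bool := onCell 0 1230186008 0 1230186008 1046898278 26843546
    (rowFX 0 false true false .dn 3 1 3 (qsf 0 1230186008 0 1230186008 1) ndF7q3 ndF7q3 pcF1 Cut.none Ext.none)

def k0_pm_313 : ∃ t, chk3 f_pm_313 t 1 1 1 = true :=
  ⟨(a (l 1) (b (a (l 1) (b (a (l 1) (a (l 1) (b (l 16717528) (l 1)))) (l 1))) (l 1))), by decide +kernel⟩

theorem c_pm_313 : CertFX 0 1230186008 0 1230186008 1046898278 26843546 false true false .dn 3 1 3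
    ndF7q3 ndF7q3 pcF1 Cut.none Ext.none :=
  certFX0 (fam := false) (s1 := true) (s2 := false) (a := 3) (b := 1) (c := 3) (cn := .dn) (n1 := ndF7q3) (n2 := ndF7q3) (pc := pcF1) (cut := Cut.none) (xt := Ext.none) (P1 := 0) (W1 := 1230186008) (P2 := 0) (W2 := 1230186008) (P3 := 1046898278) (W3 := 26843546)
    rfl k0_pm_313

noncomputable def f_mm_001 : ℕ → ℕ → ℕ → ℕ → Bool := onCell 0 536870912 536870912 536870912 1046898278 26843546
    (rowFX 0 false false false .up 0 0 1 (qsf 0 536870912 536870912 536870912 0) ndF7q0 ndF7q1 pcF0 Cut.none Ext.none)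

def k0_mm_001 : ∃ t, chk3 f_mm_001 t 1 1 1 = true :=
  ⟨(l 3), by decide +kernel⟩

theorem c_mm_001 : CertFX 0 536870912 536870912 536870912 1046898278 26843546 false false false .up 0 0 1
    ndF7q0 ndF7q1 pcF0 Cut.none Ext.none :=
  certFX0 (fam := false) (s1 := false) (s2 := false) (a := 0) (b := 0) (c := 1) (cn := .up) (n1 := ndF7q0) (n2 := ndF7q1) (pc := pcF0) (cut := Cut.none) (xt := Ext.none) (P1 := 0) (W1 := 536870912) (P2 := 536870912) (W2 := 536870912) (P3 := 1046898278) (W3 := 26843546)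
    rfl k0_mm_001

noncomputable def f_mm_011 : ℕ → ℕ → ℕ → ℕ → Bool := onCell 0 536870912 536870912 536870912 1046898278 26843546
    (rowFX 0 false false false .pnn 0 1 1 (qsf 0 536870912 536870912 536870912 1) ndF7q0 ndF7q1 pcF1 Cut.none Ext.none)

def k0_mm_011 : ∃ t, chk3 f_mm_011 t 1 1 1 = true :=
  ⟨(l 3), by decide +kernel⟩

theorem c_mm_011 : CertFX 0 536870912 536870912 536870912 1046898278 26843546 false false false .pnn 0 1 1
    ndF7q0 ndF7q1 pcF1 Cut.none Ext.none :=
  certFX0 (fam := false) (s1 := false) (s2 := false) (a := 0) (b := 1) (c := 1) (cn := .pnn) (n1 := ndF7q0) (n2 := ndF7q1) (pc := pcF1) (cut := Cut.none) (xt := Ext.none) (P1 := 0) (W1 := 536870912) (P2 := 536870912) (W2 := 536870912) (P3 := 1046898278) (W3 := 26843546)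
    rfl k0_mm_011

noncomputable def f_mm_012 : ℕ → ℕ → ℕ → ℕ → Bool := onCell 0 536870912 1073741824 536870912 1046898278 26843546
    (rowFX 0 false false false .pnp 0 1 2 (qsf 0 536870912 1073741824 536870912 1) ndF7q0 ndF7q2 pcF1 Cut.none Ext.none)

def k0_mm_012 : ∃ t, chk3 f_mm_012 t 1 1 1 = true :=
  ⟨(l 5), by decide +kernel⟩

theorem c_mm_012 : CertFX 0 536870912 1073741824 536870912 1046898278 26843546 false false false .pnp 0 1 2
    ndF7q0 ndF7q2 pcF1 Cut.none Ext.none :=
  certFX0 (fam := false) (s1 := false) (s2 := false) (a := 0) (b := 1) (c := 2) (cn := .pnp) (n1 := ndF7q0) (n2 := ndF7q2) (pc := pcF1) (cut := Cut.none) (xt := Ext.none) (P1 := 0) (W1 := 536870912) (P2 := 1073741824) (W2 := 536870912) (P3 := 1046898278) (W3 := 26843546)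
    rfl k0_mm_012

noncomputable def f_mm_022 : ℕ → ℕ → ℕ → ℕ → Bool := onCell 0 536870912 1073741824 536870912 1046898278 26843546
    (rowFX 0 false false false .pp 0 2 2 (qsf 0 536870912 1073741824 536870912 2) ndF7q0 ndF7q2 pcF2 Cut.none Ext.none)

def k0_mm_022 : ∃ t, chk3 f_mm_022 t 1 1 1 = true :=
  ⟨(l 5), by decide +kernel⟩

theorem c_mm_022 : CertFX 0 536870912 1073741824 536870912 1046898278 26843546 false false false .pp 0 2 2
    ndF7q0 ndF7q2 pcF2 Cut.none Ext.none :=
  certFX0 (fam := false) (s1 := false) (s2 := false) (a := 0) (b := 2) (c := 2) (cn := .pp) (n1 := ndF7q0) (n2 := ndF7q2) (pc := pcF2) (cut := Cut.none) (xt := Ext.none) (P1 := 0) (W1 := 536870912) (P2 := 1073741824) (W2 := 536870912) (P3 := 1046898278) (W3 := 26843546)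
    rfl k0_mm_022

noncomputable def f_mm_023 : ℕ → ℕ → ℕ → ℕ → Bool := onCell 0 536870912 0 1230186008 1046898278 26843546
    (rowFX 0 false false false .up 0 2 3 (qsf 0 536870912 0 1230186008 2) ndF7q0 ndF7q3 pcF2 Cut.none Ext.none)

def k0_mm_023 : ∃ t, chk3 f_mm_023 t 1 1 1 = true :=
  ⟨(l 5), by decide +kernel⟩

theorem c_mm_023 : CertFX 0 536870912 0 1230186008 1046898278 26843546 false false false .up 0 2 3
    ndF7q0 ndF7q3 pcF2 Cut.none Ext.none :=
  certFX0 (fam := false) (s1 := false) (s2 := false) (a := 0) (b := 2) (c := 3) (cn := .up) (n1 := ndF7q0) (n2 := ndF7q3) (pc := pcF2) (cut := Cut.none) (xt := Ext.none) (P1 := 0) (W1 := 536870912) (P2 := 0) (W2 := 1230186008) (P3 := 1046898278) (W3 := 26843546)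
    rfl k0_mm_023

noncomputable def f_mm_033 : ℕ → ℕ → ℕ → ℕ → Bool := onCell 0 536870912 0 1230186008 1046898278 26843546
    (rowFX 0 false false false .pnn 0 3 3 (qsf 0 536870912 0 1230186008 3) ndF7q0 ndF7q3 pcF3 Cut.none Ext.none)

def k0_mm_033 : ∃ t, chk3 f_mm_033 t 1 1 1 = true :=
  ⟨(l 5), by decide +kernel⟩

theorem c_mm_033 : CertFX 0 536870912 0 1230186008 1046898278 26843546 false false false .pnn 0 3 3
    ndF7q0 ndF7q3 pcF3 Cut.none Ext.none :=
  certFX0 (fam := false) (s1 := false) (s2 := false) (a := 0) (b := 3) (c := 3) (cn := .pnn) (n1 := ndF7q0) (n2 := ndF7q3) (pc := pcF3) (cut := Cut.none) (xt := Ext.none) (P1 := 0) (W1 := 536870912) (P2 := 0) (W2 := 1230186008) (P3 := 1046898278) (W3 := 26843546)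
    rfl k0_mm_033

noncomputable def f_mm_101 : ℕ → ℕ → ℕ → ℕ → Bool := onCell 536870912 536870912 536870912 536870912 1046898278 26843546
    (rowFX 0 false false false .npn 1 0 1 (qsf 536870912 536870912 536870912 536870912 0) ndF7q1 ndF7q1 pcF0 Cut.none Ext.none)

def k0_mm_101 : ∃ t, chk3 f_mm_101 t 1 1 1 = true :=
  ⟨(l 3), by decide +kernel⟩

theorem c_mm_101 : CertFX 536870912 536870912 536870912 536870912 1046898278 26843546 false false false .npn 1 0 1
    ndF7q1 ndF7q1 pcF0 Cut.none Ext.none :=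
  certFX0 (fam := false) (s1 := false) (s2 := false) (a := 1) (b := 0) (c := 1) (cn := .npn) (n1 := ndF7q1) (n2 := ndF7q1) (pc := pcF0) (cut := Cut.none) (xt := Ext.none) (P1 := 536870912) (W1 := 536870912) (P2 := 536870912) (W2 := 536870912) (P3 := 1046898278) (W3 := 26843546)
    rfl k0_mm_101

noncomputable def f_mm_102 : ℕ → ℕ → ℕ → ℕ → Bool := onCell 536870912 536870912 0 536870912 1046898278 26843546
    (rowFX 1 false false false .npp 1 0 2 (qsf 536870912 536870912 1073741824 536870912 0) ndF7q1 ndF7q2 pcF0 Cut.none Ext.none)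

def k0_mm_102 : ∃ t, chk3 f_mm_102 t 1 1 1 = true :=
  ⟨(l 3), by decide +kernel⟩

theorem c_mm_102 : CertFX 536870912 536870912 1073741824 536870912 1046898278 26843546 false false false .npp 1 0 2
    ndF7q1 ndF7q2 pcF0 Cut.none Ext.none :=
  certFX1 (fam := false) (s1 := false) (s2 := false) (a := 1) (b := 0) (c := 2) (cn := .npp) (n1 := ndF7q1) (n2 := ndF7q2) (pc := pcF0) (cut := Cut.none) (xt := Ext.none) (P1 := 536870912) (W1 := 536870912) (P2 := 1073741824) (W2 := 536870912) (P3 := 1046898278) (W3 := 26843546)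
    rfl (fun _ => rfl) k0_mm_102

noncomputable def f_mm_112 : ℕ → ℕ → ℕ → ℕ → Bool := onCell 536870912 536870912 536870912 536870912 1046898278 26843546
    (rowFX 1 false false false .dn 1 1 2 (qsf 536870912 536870912 1073741824 536870912 1) ndF7q1 ndF7q2 pcF1 Cut.none Ext.none)

def k0_mm_112 : ∃ t, chk3 f_mm_112 t 1 1 1 = true :=
  ⟨(l 5), by decide +kernel⟩

theorem c_mm_112 : CertFX 536870912 536870912 1073741824 536870912 1046898278 26843546 false false false .dn 1 1 2
    ndF7q1 ndF7q2 pcF1 Cut.none Ext.none :=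
  certFX1 (fam := false) (s1 := false) (s2 := false) (a := 1) (b := 1) (c := 2) (cn := .dn) (n1 := ndF7q1) (n2 := ndF7q2) (pc := pcF1) (cut := Cut.none) (xt := Ext.none) (P1 := 536870912) (W1 := 536870912) (P2 := 1073741824) (W2 := 536870912) (P3 := 1046898278) (W3 := 26843546)
    rfl (fun _ => rfl) k0_mm_112

noncomputable def f_mm_113 : ℕ → ℕ → ℕ → ℕ → Bool := onCell 536870912 536870912 0 1230186008 1046898278 26843546
    (rowFX 0 false false false .nn 1 1 3 (qsf 536870912 536870912 0 1230186008 1) ndF7q1 ndF7q3 pcF1 Cut.none Ext.none)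

def k0_mm_113 : ∃ t, chk3 f_mm_113 t 1 1 1 = true :=
  ⟨(l 5), by decide +kernel⟩

theorem c_mm_113 : CertFX 536870912 536870912 0 1230186008 1046898278 26843546 false false false .nn 1 1 3
    ndF7q1 ndF7q3 pcF1 Cut.none Ext.none :=
  certFX0 (fam := false) (s1 := false) (s2 := false) (a := 1) (b := 1) (c := 3) (cn := .nn) (n1 := ndF7q1) (n2 := ndF7q3) (pc := pcF1) (cut := Cut.none) (xt := Ext.none) (P1 := 536870912) (W1 := 536870912) (P2 := 0) (W2 := 1230186008) (P3 := 1046898278) (W3 := 26843546)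
    rfl k0_mm_113

noncomputable def f_mm_123 : ℕ → ℕ → ℕ → ℕ → Bool := onCell 536870912 536870912 0 1230186008 1046898278 26843546
    (rowFX 0 false false false .npn 1 2 3 (qsf 536870912 536870912 0 1230186008 2) ndF7q1 ndF7q3 pcF2 Cut.none Ext.none)

def k0_mm_123 : ∃ t, chk3 f_mm_123 t 1 1 1 = true :=
  ⟨(l 5), by decide +kernel⟩

theorem c_mm_123 : CertFX 536870912 536870912 0 1230186008 1046898278 26843546 false false false .npn 1 2 3
    ndF7q1 ndF7q3 pcF2 Cut.none Ext.none :=
  certFX0 (fam := false) (s1 := false) (s2 := false) (a := 1) (b := 2) (c := 3) (cn := .npn) (n1 := ndF7q1) (n2 := ndF7q3) (pc := pcF2) (cut := Cut.none) (xt := Ext.none) (P1 := 536870912) (W1 := 536870912) (P2 := 0) (W2 := 1230186008) (P3 := 1046898278) (W3 := 26843546)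
    rfl k0_mm_123

noncomputable def f_mm_133 : ℕ → ℕ → ℕ → ℕ → Bool := onCell 536870912 536870912 0 1230186008 1046898278 26843546
    (rowFX 0 false false false .dn 1 3 3 (qsf 536870912 536870912 0 1230186008 3) ndF7q1 ndF7q3 pcF3 Cut.none Ext.none)

def k0_mm_133 : ∃ t, chk3 f_mm_133 t 1 1 1 = true :=
  ⟨(l 5), by decide +kernel⟩

theorem c_mm_133 : CertFX 536870912 536870912 0 1230186008 1046898278 26843546 false false false .dn 1 3 3
    ndF7q1 ndF7q3 pcF3 Cut.none Ext.none :=
  certFX0 (fam := false) (s1 := false) (s2 := false) (a := 1) (b := 3) (c := 3) (cn := .dn) (n1 := ndF7q1) (n2 := ndF7q3) (pc := pcF3) (cut := Cut.none) (xt := Ext.none) (P1 := 536870912) (W1 := 536870912) (P2 := 0) (W2 := 1230186008) (P3 := 1046898278) (W3 := 26843546)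
    rfl k0_mm_133

noncomputable def f_mm_202 : ℕ → ℕ → ℕ → ℕ → Bool := onCell 1073741824 536870912 1073741824 536870912 1046898278 26843546
    (rowFX 0 false false false .pp 2 0 2 (qsf 1073741824 536870912 1073741824 536870912 0) ndF7q2 ndF7q2 pcF0 Cut.none Ext.none)

def k0_mm_202 : ∃ t, chk3 f_mm_202 t 1 1 1 = true :=
  ⟨(l 3), by decide +kernel⟩

theorem c_mm_202 : CertFX 1073741824 536870912 1073741824 536870912 1046898278 26843546 false false false .pp 2 0 2
    ndF7q2 ndF7q2 pcF0 Cut.none Ext.none :=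
  certFX0 (fam := false) (s1 := false) (s2 := false) (a := 2) (b := 0) (c := 2) (cn := .pp) (n1 := ndF7q2) (n2 := ndF7q2) (pc := pcF0) (cut := Cut.none) (xt := Ext.none) (P1 := 1073741824) (W1 := 536870912) (P2 := 1073741824) (W2 := 536870912) (P3 := 1046898278) (W3 := 26843546)
    rfl k0_mm_202

noncomputable def f_mm_203 : ℕ → ℕ → ℕ → ℕ → Bool := onCell 1073741824 536870912 0 1230186008 1046898278 26843546
    (rowFX 0 false false false .up 2 0 3 (qsf 1073741824 536870912 0 1230186008 0) ndF7q2 ndF7q3 pcF0 Cut.none Ext.none)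

def k0_mm_203 : ∃ t, chk3 f_mm_203 t 1 1 1 = true :=
  ⟨(b (l 5) (b (l 5) (l 3))), by decide +kernel⟩

theorem c_mm_203 : CertFX 1073741824 536870912 0 1230186008 1046898278 26843546 false false false .up 2 0 3
    ndF7q2 ndF7q3 pcF0 Cut.none Ext.none :=
  certFX0 (fam := false) (s1 := false) (s2 := false) (a := 2) (b := 0) (c := 3) (cn := .up) (n1 := ndF7q2) (n2 := ndF7q3) (pc := pcF0) (cut := Cut.none) (xt := Ext.none) (P1 := 1073741824) (W1 := 536870912) (P2 := 0) (W2 := 1230186008) (P3 := 1046898278) (W3 := 26843546)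
    rfl k0_mm_203

noncomputable def f_mm_213 : ℕ → ℕ → ℕ → ℕ → Bool := onCell 536870912 536870912 0 1230186008 1046898278 26843546
    (rowFX 2 false false false .pnn 2 1 3 (qsf 1073741824 536870912 0 1230186008 1) ndF7q2 ndF7q3 pcF1 Cut.none Ext.none)

def k0_mm_213 : ∃ t, chk3 f_mm_213 t 1 1 1 = true :=
  ⟨(b (l 5) (l 5)), by decide +kernel⟩

theorem c_mm_213 : CertFX 1073741824 536870912 0 1230186008 1046898278 26843546 false false false .pnn 2 1 3
    ndF7q2 ndF7q3 pcF1 Cut.none Ext.none :=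
  certFX2 (fam := false) (s1 := false) (s2 := false) (a := 2) (b := 1) (c := 3) (cn := .pnn) (n1 := ndF7q2) (n2 := ndF7q3) (pc := pcF1) (cut := Cut.none) (xt := Ext.none) (P1 := 1073741824) (W1 := 536870912) (P2 := 0) (W2 := 1230186008) (P3 := 1046898278) (W3 := 26843546)
    rfl (fun _ => rfl) k0_mm_213

noncomputable def f_mm_303 : ℕ → ℕ → ℕ → ℕ → Bool := onCell 0 1230186008 0 1230186008 1046898278 26843546
    (rowFX 0 false false false .npn 3 0 3 (qsf 0 1230186008 0 1230186008 0) ndF7q3 ndF7q3 pcF0 Cut.none Ext.none)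

def k0_mm_303 : ∃ t, chk3 f_mm_303 t 1 1 1 = true :=
  ⟨(a (b (l 3) (a (l 1) (l 3))) (b (a (l 3) (l 5)) (l 3))), by decide +kernel⟩

theorem c_mm_303 : CertFX 0 1230186008 0 1230186008 1046898278 26843546 false false false .npn 3 0 3
    ndF7q3 ndF7q3 pcF0 Cut.none Ext.none :=
  certFX0 (fam := false) (s1 := false) (s2 := false) (a := 3) (b := 0) (c := 3) (cn := .npn) (n1 := ndF7q3) (n2 := ndF7q3) (pc := pcF0) (cut := Cut.none) (xt := Ext.none) (P1 := 0) (W1 := 1230186008) (P2 := 0) (W2 := 1230186008) (P3 := 1046898278) (W3 := 26843546)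
    rfl k0_mm_303

noncomputable def f_mm_313 : ℕ → ℕ → ℕ → ℕ → Bool := onCell 0 1230186008 0 1230186008 1046898278 26843546
    (rowFX 0 false false false .dn 3 1 3 (qsf 0 1230186008 0 1230186008 1) ndF7q3 ndF7q3 pcF1 Cut.none Ext.none)

def k0_mm_313 : ∃ t, chk3 f_mm_313 t 1 1 1 = true :=
  ⟨(a (l 1) (b (a (l 1) (l 5)) (l 1))), by decide +kernel⟩

theorem c_mm_313 : CertFX 0 1230186008 0 1230186008 1046898278 26843546 false false false .dn 3 1 3
    ndF7q3 ndF7q3 pcF1 Cut.none Ext.none :=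
  certFX0 (fam := false) (s1 := false) (s2 := false) (a := 3) (b := 1) (c := 3) (cn := .dn) (n1 := ndF7q3) (n2 := ndF7q3) (pc := pcF1) (cut := Cut.none) (xt := Ext.none) (P1 := 0) (W1 := 1230186008) (P2 := 0) (W2 := 1230186008) (P3 := 1046898278) (W3 := 26843546)
    rfl k0_mm_313

end Pool.Agent.Strip051.G.IE1.Tab.C.FB77

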