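import Pool.Agent.Strip051.G.IE1.AsmH
import Pool.Agent.Strip051.G.IE1.TrF58

/-! # Rows from certificates (generated) -/

set_option linter.all false
set_option maxRecDepth 100000

namespace Pool.Agent.Strip051.G.IE1.Tab

open Pool.Agent.Strip051.PB Pool.Agent.StripNear Pool.Agent.Strip051.LC

theorem FB74_pp_001 {κ x : ℝ} (hκ : κ * h0 = kenE x) (hx : 39 / 40 ≤ x) (hx' : x < 1) :
    TriB (DD x).cur (farD κ (h0 * x) (tbl tKF x) (tbl tL x)) 0 0 1 7 4 1 1 :=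
  triVB_k nr4_1

theorem FB74_pp_011 {κ x : ℝ} (hκ : κ * h0 = kenE x) (hx : 39 / 40 ≤ x) (hx' : x < 1) :
    TriB (DD x).cur (farD κ (h0 * x) (tbl tKF x) (tbl tL x)) 0 1 1 7 4 1 1 :=
  triVB_k nr4_1

theorem FB74_pp_012 {κ x : ℝ} (hκ : κ * h0 = kenE x) (hx : 39 / 40 ≤ x) (hx' : x < 1) :
    TriB (DD x).cur (farD κ (h0 * x) (tbl tKF x) (tbl tL x)) 0 1 2 7 4 1 1 :=
  triVB_k nr4_2

theorem FB74_pp_022 {κ x : ℝ} (hκ : κ * h0 = kenE x) (hx : 39 / 40 ≤ x) (hx' : x < 1) :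
    TriB (DD x).cur (farD κ (h0 * x) (tbl tKF x) (tbl tL x)) 0 2 2 7 4 1 1 :=
  triVB_k nr4_2

theorem FB74_pp_023 {κ x : ℝ} (hκ : κ * h0 = kenE x) (hx : 39 / 40 ≤ x) (hx' : x < 1) :
    TriB (DD x).cur (farD κ (h0 * x) (tbl tKF x) (tbl tL x)) 0 2 3 7 4 1 1 :=
  triVB_k nr4_3

theorem FB74_pp_033 {κ x : ℝ} (hκ : κ * h0 = kenE x) (hx : 39 / 40 ≤ x) (hx' : x < 1) :
    TriB (DD x).cur (farD κ (h0 * x) (tbl tKF x) (tbl tL x)) 0 3 3 7 4 1 1 :=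
  triVB_k nr4_3

theorem FB74_pp_101 {κ x : ℝ} (hκ : κ * h0 = kenE x) (hx : 39 / 40 ≤ x) (hx' : x < 1) :
    TriB (DD x).cur (farD κ (h0 * x) (tbl tKF x) (tbl tL x)) 1 0 1 7 4 1 1 :=
  triVB_k nr4_1

theorem FB74_pp_102 {κ x : ℝ} (hκ : κ * h0 = kenE x) (hx : 39 / 40 ≤ x) (hx' : x < 1) :
    TriB (DD x).cur (farD κ (h0 * x) (tbl tKF x) (tbl tL x)) 1 0 2 7 4 1 1 :=
  triVB_k nr4_2

theorem FB74_pp_112 {κ x : ℝ} (hκ : κ * h0 = kenE x) (hx : 39 / 40 ≤ x) (hx' : x < 1) :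
    TriB (DD x).cur (farD κ (h0 * x) (tbl tKF x) (tbl tL x)) 1 1 2 7 4 1 1 :=
  triVB_k nr4_2

theorem FB74_pp_113 {κ x : ℝ} (hκ : κ * h0 = kenE x) (hx : 39 / 40 ≤ x) (hx' : x < 1) :
    TriB (DD x).cur (farD κ (h0 * x) (tbl tKF x) (tbl tL x)) 1 1 3 7 4 1 1 :=
  triVB_k nr4_3

theorem FB74_pp_123 {κ x : ℝ} (hκ : κ * h0 = kenE x) (hx : 39 / 40 ≤ x) (hx' : x < 1) :
    TriB (DD x).cur (farD κ (h0 * x) (tbl tKF x) (tbl tL x)) 1 2 3 7 4 1 1 :=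
  triVB_k nr4_3

theorem FB74_pp_133 {κ x : ℝ} (hκ : κ * h0 = kenE x) (hx : 39 / 40 ≤ x) (hx' : x < 1) :
    TriB (DD x).cur (farD κ (h0 * x) (tbl tKF x) (tbl tL x)) 1 3 3 7 4 1 1 :=
  triVB_k nr4_3

theorem FB74_pp_202 {κ x : ℝ} (hκ : κ * h0 = kenE x) (hx : 39 / 40 ≤ x) (hx' : x < 1) :
    TriB (DD x).cur (farD κ (h0 * x) (tbl tKF x) (tbl tL x)) 2 0 2 7 4 1 1 :=
  triVB_k nr4_2

theorem FB74_pp_203 {κ x : ℝ} (hκ : κ * h0 = kenE x) (hx : 39 / 40 ≤ x) (hx' : x < 1) :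
    TriB (DD x).cur (farD κ (h0 * x) (tbl tKF x) (tbl tL x)) 2 0 3 7 4 1 1 :=
  triVB_k nr4_3

theorem FB74_pp_213 {κ x : ℝ} (hκ : κ * h0 = kenE x) (hx : 39 / 40 ≤ x) (hx' : x < 1) :
    TriB (DD x).cur (farD κ (h0 * x) (tbl tKF x) (tbl tL x)) 2 1 3 7 4 1 1 :=
  triVB_k nr4_3

theorem FB74_pp_303 {κ x : ℝ} (hκ : κ * h0 = kenE x) (hx : 39 / 40 ≤ x) (hx' : x < 1) :
    TriB (DD x).cur (farD κ (h0 * x) (tbl tKF x) (tbl tL x)) 3 0 3 7 4 1 1 :=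
  triVB_k nr4_3

theorem FB74_pp_313 {κ x : ℝ} (hκ : κ * h0 = kenE x) (hx : 39 / 40 ≤ x) (hx' : x < 1) :
    TriB (DD x).cur (farD κ (h0 * x) (tbl tKF x) (tbl tL x)) 3 1 3 7 4 1 1 :=
  triVB_k nr4_3

theorem FB74_pm_001 {κ x : ℝ} (hκ : κ * h0 = kenE x) (hx : 39 / 40 ≤ x) (hx' : x < 1) :
    TriB (DD x).cur (farD κ (h0 * x) (tbl tKF x) (tbl tL x)) 0 0 1 7 4 1 (-1) :=
  triVB_k nr4_1

theorem FB74_pm_011 {κ x : ℝ} (hκ : κ * h0 = kenE x) (hx : 39 / 40 ≤ x) (hx' : x < 1) :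
    TriB (DD x).cur (farD κ (h0 * x) (tbl tKF x) (tbl tL x)) 0 1 1 7 4 1 (-1) :=
  triVB_k nr4_1

theorem FB74_pm_012 {κ x : ℝ} (hκ : κ * h0 = kenE x) (hx : 39 / 40 ≤ x) (hx' : x < 1) :
    TriB (DD x).cur (farD κ (h0 * x) (tbl tKF x) (tbl tL x)) 0 1 2 7 4 1 (-1) :=
  triVB_k nr4_2

theorem FB74_pm_022 {κ x : ℝ} (hκ : κ * h0 = kenE x) (hx : 39 / 40 ≤ x) (hx' : x < 1) :
    TriB (DD x).cur (farD κ (h0 * x) (tbl tKF x) (tbl tL x)) 0 2 2 7 4 1 (-1) :=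
  triVB_k nr4_2

theorem FB74_pm_023 {κ x : ℝ} (hκ : κ * h0 = kenE x) (hx : 39 / 40 ≤ x) (hx' : x < 1) :
    TriB (DD x).cur (farD κ (h0 * x) (tbl tKF x) (tbl tL x)) 0 2 3 7 4 1 (-1) :=
  triVB_k nr4_3

theorem FB74_pm_033 {κ x : ℝ} (hκ : κ * h0 = kenE x) (hx : 39 / 40 ≤ x) (hx' : x < 1) :
    TriB (DD x).cur (farD κ (h0 * x) (tbl tKF x) (tbl tL x)) 0 3 3 7 4 1 (-1) :=
  triVB_k nr4_3

theorem FB74_pm_101 {κ x : ℝ} (hκ : κ * h0 = kenE x) (hx : 39 / 40 ≤ x) (hx' : x < 1) :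
    TriB (DD x).cur (farD κ (h0 * x) (tbl tKF x) (tbl tL x)) 1 0 1 7 4 1 (-1) :=
  triVB_k nr4_1

theorem FB74_pm_102 {κ x : ℝ} (hκ : κ * h0 = kenE x) (hx : 39 / 40 ≤ x) (hx' : x < 1) :
    TriB (DD x).cur (farD κ (h0 * x) (tbl tKF x) (tbl tL x)) 1 0 2 7 4 1 (-1) :=
  triVB_k nr4_2

theorem FB74_pm_112 {κ x : ℝ} (hκ : κ * h0 = kenE x) (hx : 39 / 40 ≤ x) (hx' : x < 1) :
    TriB (DD x).cur (farD κ (h0 * x) (tbl tKF x) (tbl tL x)) 1 1 2 7 4 1 (-1) :=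
  triVB_k nr4_2

theorem FB74_pm_113 {κ x : ℝ} (hκ : κ * h0 = kenE x) (hx : 39 / 40 ≤ x) (hx' : x < 1) :
    TriB (DD x).cur (farD κ (h0 * x) (tbl tKF x) (tbl tL x)) 1 1 3 7 4 1 (-1) :=
  triVB_k nr4_3

theorem FB74_pm_123 {κ x : ℝ} (hκ : κ * h0 = kenE x) (hx : 39 / 40 ≤ x) (hx' : x < 1) :
    TriB (DD x).cur (farD κ (h0 * x) (tbl tKF x) (tbl tL x)) 1 2 3 7 4 1 (-1) :=
  triVB_k nr4_3

theorem FB74_pm_133 {κ x : ℝ} (hκ : κ * h0 = kenE x) (hx : 39 / 40 ≤ x) (hx' : x < 1) :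
    TriB (DD x).cur (farD κ (h0 * x) (tbl tKF x) (tbl tL x)) 1 3 3 7 4 1 (-1) :=
  triVB_k nr4_3

theorem FB74_pm_202 {κ x : ℝ} (hκ : κ * h0 = kenE x) (hx : 39 / 40 ≤ x) (hx' : x < 1) :
    TriB (DD x).cur (farD κ (h0 * x) (tbl tKF x) (tbl tL x)) 2 0 2 7 4 1 (-1) :=
  triVB_k nr4_2

theorem FB74_pm_203 {κ x : ℝ} (hκ : κ * h0 = kenE x) (hx : 39 / 40 ≤ x) (hx' : x < 1) :
    TriB (DD x).cur (farD κ (h0 * x) (tbl tKF x) (tbl tL x)) 2 0 3 7 4 1 (-1) :=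
  triVB_k nr4_3

theorem FB74_pm_213 {κ x : ℝ} (hκ : κ * h0 = kenE x) (hx : 39 / 40 ≤ x) (hx' : x < 1) :
    TriB (DD x).cur (farD κ (h0 * x) (tbl tKF x) (tbl tL x)) 2 1 3 7 4 1 (-1) :=
  triVB_k nr4_3

theorem FB74_pm_303 {κ x : ℝ} (hκ : κ * h0 = kenE x) (hx : 39 / 40 ≤ x) (hx' : x < 1) :
    TriB (DD x).cur (farD κ (h0 * x) (tbl tKF x) (tbl tL x)) 3 0 3 7 4 1 (-1) :=
  triVB_k nr4_3

theorem FB74_pm_313 {κ x : ℝ} (hκ : κ * h0 = kenE x) (hx : 39 / 40 ≤ x) (hx' : x < 1) :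
    TriB (DD x).cur (farD κ (h0 * x) (tbl tKF x) (tbl tL x)) 3 1 3 7 4 1 (-1) :=
  triVB_k nr4_3

theorem FB74_mm_001 {κ x : ℝ} (hκ : κ * h0 = kenE x) (hx : 39 / 40 ≤ x) (hx' : x < 1) :
    TriB (DD x).cur (farD κ (h0 * x) (tbl tKF x) (tbl tL x)) 0 0 1 7 4 (-1) (-1) :=
  triVB_k nr4_1

theorem FB74_mm_011 {κ x : ℝ} (hκ : κ * h0 = kenE x) (hx : 39 / 40 ≤ x) (hx' : x < 1) :
    TriB (DD x).cur (farD κ (h0 * x) (tbl tKF x) (tbl tL x)) 0 1 1 7 4 (-1) (-1) :=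
  triVB_k nr4_1

theorem FB74_mm_012 {κ x : ℝ} (hκ : κ * h0 = kenE x) (hx : 39 / 40 ≤ x) (hx' : x < 1) :
    TriB (DD x).cur (farD κ (h0 * x) (tbl tKF x) (tbl tL x)) 0 1 2 7 4 (-1) (-1) :=
  triVB_k nr4_2

theorem FB74_mm_022 {κ x : ℝ} (hκ : κ * h0 = kenE x) (hx : 39 / 40 ≤ x) (hx' : x < 1) :
    TriB (DD x).cur (farD κ (h0 * x) (tbl tKF x) (tbl tL x)) 0 2 2 7 4 (-1) (-1) :=
  triVB_k nr4_2

theorem FB74_mm_023 {κ x : ℝ} (hκ : κ * h0 = kenE x) (hx : 39 / 40 ≤ x) (hx' : x < 1) :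
    TriB (DD x).cur (farD κ (h0 * x) (tbl tKF x) (tbl tL x)) 0 2 3 7 4 (-1) (-1) :=
  triVB_k nr4_3

theorem FB74_mm_033 {κ x : ℝ} (hκ : κ * h0 = kenE x) (hx : 39 / 40 ≤ x) (hx' : x < 1) :
    TriB (DD x).cur (farD κ (h0 * x) (tbl tKF x) (tbl tL x)) 0 3 3 7 4 (-1) (-1) :=
  triVB_k nr4_3

theorem FB74_mm_101 {κ x : ℝ} (hκ : κ * h0 = kenE x) (hx : 39 / 40 ≤ x) (hx' : x < 1) :
    TriB (DD x).cur (farD κ (h0 * x) (tbl tKF x) (tbl tL x)) 1 0 1 7 4 (-1) (-1) :=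
  triVB_k nr4_1

theorem FB74_mm_102 {κ x : ℝ} (hκ : κ * h0 = kenE x) (hx : 39 / 40 ≤ x) (hx' : x < 1) :
    TriB (DD x).cur (farD κ (h0 * x) (tbl tKF x) (tbl tL x)) 1 0 2 7 4 (-1) (-1) :=
  triVB_k nr4_2

theorem FB74_mm_112 {κ x : ℝ} (hκ : κ * h0 = kenE x) (hx : 39 / 40 ≤ x) (hx' : x < 1) :
    TriB (DD x).cur (farD κ (h0 * x) (tbl tKF x) (tbl tL x)) 1 1 2 7 4 (-1) (-1) :=
  triVB_k nr4_2

theorem FB74_mm_113 {κ x : ℝ} (hκ : κ * h0 = kenE x) (hx : 39 / 40 ≤ x) (hx' : x < 1) :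
    TriB (DD x).cur (farD κ (h0 * x) (tbl tKF x) (tbl tL x)) 1 1 3 7 4 (-1) (-1) :=
  triVB_k nr4_3

theorem FB74_mm_123 {κ x : ℝ} (hκ : κ * h0 = kenE x) (hx : 39 / 40 ≤ x) (hx' : x < 1) :
    TriB (DD x).cur (farD κ (h0 * x) (tbl tKF x) (tbl tL x)) 1 2 3 7 4 (-1) (-1) :=
  triVB_k nr4_3

theorem FB74_mm_133 {κ x : ℝ} (hκ : κ * h0 = kenE x) (hx : 39 / 40 ≤ x) (hx' : x < 1) :
    TriB (DD x).cur (farD κ (h0 * x) (tbl tKF x) (tbl tL x)) 1 3 3 7 4 (-1) (-1) :=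
  triVB_k nr4_3

theorem FB74_mm_202 {κ x : ℝ} (hκ : κ * h0 = kenE x) (hx : 39 / 40 ≤ x) (hx' : x < 1) :
    TriB (DD x).cur (farD κ (h0 * x) (tbl tKF x) (tbl tL x)) 2 0 2 7 4 (-1) (-1) :=
  triVB_k nr4_2

theorem FB74_mm_203 {κ x : ℝ} (hκ : κ * h0 = kenE x) (hx : 39 / 40 ≤ x) (hx' : x < 1) :
    TriB (DD x).cur (farD κ (h0 * x) (tbl tKF x) (tbl tL x)) 2 0 3 7 4 (-1) (-1) :=
  triVB_k nr4_3

theorem FB74_mm_213 {κ x : ℝ} (hκ : κ * h0 = kenE x) (hx : 39 / 40 ≤ x) (hx' : x < 1) :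
    TriB (DD x).cur (farD κ (h0 * x) (tbl tKF x) (tbl tL x)) 2 1 3 7 4 (-1) (-1) :=
  triVB_k nr4_3

theorem FB74_mm_303 {κ x : ℝ} (hκ : κ * h0 = kenE x) (hx : 39 / 40 ≤ x) (hx' : x < 1) :
    TriB (DD x).cur (farD κ (h0 * x) (tbl tKF x) (tbl tL x)) 3 0 3 7 4 (-1) (-1) :=
  triVB_k nr4_3

theorem FB74_mm_313 {κ x : ℝ} (hκ : κ * h0 = kenE x) (hx : 39 / 40 ≤ x) (hx' : x < 1) :
    TriB (DD x).cur (farD κ (h0 * x) (tbl tKF x) (tbl tL x)) 3 1 3 7 4 (-1) (-1) :=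
  triVB_k nr4_3

theorem FB74 {κ x : ℝ} (hκ : κ * h0 = kenE x) (hx : 39 / 40 ≤ x) (hx' : x < 1) : AllTB (DD x).cur (farD κ (h0 * x) (tbl tKF x) (tbl tL x)) 7 4 where
  pp := all17 (Q := fun a b c => TriB (DD x).cur (farD κ (h0 * x) (tbl tKF x) (tbl tL x)) a b c 7 4 1 1)
    (FB74_pp_001 hκ hx hx') (FB74_pp_011 hκ hx hx') (FB74_pp_012 hκ hx hx') (FB74_pp_022 hκ hx hx') (FB74_pp_023 hκ hx hx') (FB74_pp_033 hκ hx hx') (FB74_pp_101 hκ hx hx') (FB74_pp_102 hκ hx hx') (FB74_pp_112 hκ hx hx') (FB74_pp_113 hκ hx hx') (FB74_pp_123 hκ hx hx') (FB74_pp_133 hκ hx hx') (FB74_pp_202 hκ hx hx') (FB74_pp_203 hκ hx hx') (FB74_pp_213 hκ hx hx') (FB74_pp_303 hκ hx hx') (FB74_pp_313 hκ hx hx')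
  pm := all17 (Q := fun a b c => TriB (DD x).cur (farD κ (h0 * x) (tbl tKF x) (tbl tL x)) a b c 7 4 1 (-1))
    (FB74_pm_001 hκ hx hx') (FB74_pm_011 hκ hx hx') (FB74_pm_012 hκ hx hx') (FB74_pm_022 hκ hx hx') (FB74_pm_023 hκ hx hx') (FB74_pm_033 hκ hx hx') (FB74_pm_101 hκ hx hx') (FB74_pm_102 hκ hx hx') (FB74_pm_112 hκ hx hx') (FB74_pm_113 hκ hx hx') (FB74_pm_123 hκ hx hx') (FB74_pm_133 hκ hx hx') (FB74_pm_202 hκ hx hx') (FB74_pm_203 hκ hx hx') (FB74_pm_213 hκ hx hx') (FB74_pm_303 hκ hx hx') (FB74_pm_313 hκ hx hx')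
  mm := all17 (Q := fun a b c => TriB (DD x).cur (farD κ (h0 * x) (tbl tKF x) (tbl tL x)) a b c 7 4 (-1) (-1))
    (FB74_mm_001 hκ hx hx') (FB74_mm_011 hκ hx hx') (FB74_mm_012 hκ hx hx') (FB74_mm_022 hκ hx hx') (FB74_mm_023 hκ hx hx') (FB74_mm_033 hκ hx hx') (FB74_mm_101 hκ hx hx') (FB74_mm_102 hκ hx hx') (FB74_mm_112 hκ hx hx') (FB74_mm_113 hκ hx hx') (FB74_mm_123 hκ hx hx') (FB74_mm_133 hκ hx hx') (FB74_mm_202 hκ hx hx') (FB74_mm_203 hκ hx hx') (FB74_mm_213 hκ hx hx') (FB74_mm_303 hκ hx hx') (FB74_mm_313 hκ hx hx')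

theorem FB75_pp_001 {κ x : ℝ} (hκ : κ * h0 = kenE x) (hx : 39 / 40 ≤ x) (hx' : x < 1) :
    TriB (DD x).cur (farD κ (h0 * x) (tbl tKF x) (tbl tL x)) 0 0 1 7 5 1 1 :=
  (sideF hx hx').farB (Or.inl rfl) (Or.inl rfl) fun y y' F r1 r2 =>
    farXB_cert (s1 := true) (s2 := true) rfl hκ (ka0 hκ hx hx') (xa0 hx) hx' (covF70 hx hx') (covF51 hx hx') (x1 hx) (x2 hx')
        Pool.Agent.Strip051.G.IE1.Tab.C.FB75.c_pp_001 noCut_VB noExt_VB F r1 r2 r1 r2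

theorem FB75_pp_011 {κ x : ℝ} (hκ : κ * h0 = kenE x) (hx : 39 / 40 ≤ x) (hx' : x < 1) :
    TriB (DD x).cur (farD κ (h0 * x) (tbl tKF x) (tbl tL x)) 0 1 1 7 5 1 1 :=
  (sideF hx hx').farB (Or.inl rfl) (Or.inl rfl) fun y y' F r1 r2 =>
    farXB_cert (s1 := true) (s2 := true) rfl hκ (ka0 hκ hx hx') (xa0 hx) hx' (covF70 hx hx') (covF51 hx hx') (x1 hx) (x2 hx')
        Pool.Agent.Strip051.G.IE1.Tab.C.FB75.c_pp_011 noCut_VB noExt_VB F r1 r2 r1 r2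

theorem FB75_pp_012 {κ x : ℝ} (hκ : κ * h0 = kenE x) (hx : 39 / 40 ≤ x) (hx' : x < 1) :
    TriB (DD x).cur (farD κ (h0 * x) (tbl tKF x) (tbl tL x)) 0 1 2 7 5 1 1 :=
  (sideF hx hx').farB (Or.inl rfl) (Or.inl rfl) fun y y' F r1 r2 =>
    farXB_cert (s1 := true) (s2 := true) rfl hκ (ka0 hκ hx hx') (xa0 hx) hx' (covF70 hx hx') (covF52 hx hx') (x1 hx) (x2 hx')
        Pool.Agent.Strip051.G.IE1.Tab.C.FB75.c_pp_012 noCut_VB noExt_VB F r1 r2 r1 r2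

theorem FB75_pp_022 {κ x : ℝ} (hκ : κ * h0 = kenE x) (hx : 39 / 40 ≤ x) (hx' : x < 1) :
    TriB (DD x).cur (farD κ (h0 * x) (tbl tKF x) (tbl tL x)) 0 2 2 7 5 1 1 :=
  (sideF hx hx').farB (Or.inl rfl) (Or.inl rfl) fun y y' F r1 r2 =>
    farXB_cert (s1 := true) (s2 := true) rfl hκ (ka0 hκ hx hx') (xa0 hx) hx' (covF70 hx hx') (covF52 hx hx') (x1 hx) (x2 hx')
        Pool.Agent.Strip051.G.IE1.Tab.C.FB75.c_pp_022 noCut_VB noExt_VB F r1 r2 r1 r2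

theorem FB75_pp_023 {κ x : ℝ} (hκ : κ * h0 = kenE x) (hx : 39 / 40 ≤ x) (hx' : x < 1) :
    TriB (DD x).cur (farD κ (h0 * x) (tbl tKF x) (tbl tL x)) 0 2 3 7 5 1 1 :=
  (sideF hx hx').farB (Or.inl rfl) (Or.inl rfl) fun y y' F r1 r2 =>
    farXB_cert (s1 := true) (s2 := true) rfl hκ (ka0 hκ hx hx') (xa0 hx) hx' (covF70 hx hx') (covF53 hx hx') (x1 hx) (x2 hx')
        Pool.Agent.Strip051.G.IE1.Tab.C.FB75.c_pp_023 noCut_VB noExt_VB F r1 r2 r1 r2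

theorem FB75_pp_033 {κ x : ℝ} (hκ : κ * h0 = kenE x) (hx : 39 / 40 ≤ x) (hx' : x < 1) :
    TriB (DD x).cur (farD κ (h0 * x) (tbl tKF x) (tbl tL x)) 0 3 3 7 5 1 1 :=
  (sideF hx hx').farB (Or.inl rfl) (Or.inl rfl) fun y y' F r1 r2 =>
    farXB_cert (s1 := true) (s2 := true) rfl hκ (ka0 hκ hx hx') (xa0 hx) hx' (covF70 hx hx') (covF53 hx hx') (x1 hx) (x2 hx')
        Pool.Agent.Strip051.G.IE1.Tab.C.FB75.c_pp_033 noCut_VB noExt_VB F r1 r2 r1 r2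

theorem FB75_pp_101 {κ x : ℝ} (hκ : κ * h0 = kenE x) (hx : 39 / 40 ≤ x) (hx' : x < 1) :
    TriB (DD x).cur (farD κ (h0 * x) (tbl tKF x) (tbl tL x)) 1 0 1 7 5 1 1 :=
  (sideF hx hx').farB (Or.inl rfl) (Or.inl rfl) fun y y' F r1 r2 =>
    farXB_cert (s1 := true) (s2 := true) rfl hκ (ka0 hκ hx hx') (xa0 hx) hx' (covF71 hx hx') (covF51 hx hx') (x1 hx) (x2 hx')
        Pool.Agent.Strip051.G.IE1.Tab.C.FB75.c_pp_101 noCut_VB noExt_VB F r1 r2 r1 r2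

theorem FB75_pp_102 {κ x : ℝ} (hκ : κ * h0 = kenE x) (hx : 39 / 40 ≤ x) (hx' : x < 1) :
    TriB (DD x).cur (farD κ (h0 * x) (tbl tKF x) (tbl tL x)) 1 0 2 7 5 1 1 :=
  (sideF hx hx').farB (Or.inl rfl) (Or.inl rfl) fun y y' F r1 r2 =>
    farXB_cert (s1 := true) (s2 := true) rfl hκ (ka0 hκ hx hx') (xa0 hx) hx' (covF71 hx hx') (covF52 hx hx') (x1 hx) (x2 hx')
        Pool.Agent.Strip051.G.IE1.Tab.C.FB75.c_pp_102 noCut_VB noExt_VB F r1 r2 r1 r2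

theorem FB75_pp_112 {κ x : ℝ} (hκ : κ * h0 = kenE x) (hx : 39 / 40 ≤ x) (hx' : x < 1) :
    TriB (DD x).cur (farD κ (h0 * x) (tbl tKF x) (tbl tL x)) 1 1 2 7 5 1 1 :=
  (sideF hx hx').farB (Or.inl rfl) (Or.inl rfl) fun y y' F r1 r2 =>
    farXB_cert (s1 := true) (s2 := true) rfl hκ (ka0 hκ hx hx') (xa0 hx) hx' (covF71 hx hx') (covF52 hx hx') (x1 hx) (x2 hx')
        Pool.Agent.Strip051.G.IE1.Tab.C.FB75.c_pp_112 noCut_VB noExt_VB F r1 r2 r1 r2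

theorem FB75_pp_113 {κ x : ℝ} (hκ : κ * h0 = kenE x) (hx : 39 / 40 ≤ x) (hx' : x < 1) :
    TriB (DD x).cur (farD κ (h0 * x) (tbl tKF x) (tbl tL x)) 1 1 3 7 5 1 1 :=
  (sideF hx hx').farB (Or.inl rfl) (Or.inl rfl) fun y y' F r1 r2 =>
    farXB_cert (s1 := true) (s2 := true) rfl hκ (ka0 hκ hx hx') (xa0 hx) hx' (covF71 hx hx') (covF53 hx hx') (x1 hx) (x2 hx')
        Pool.Agent.Strip051.G.IE1.Tab.C.FB75.c_pp_113 noCut_VB noExt_VB F r1 r2 r1 r2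

theorem FB75_pp_123 {κ x : ℝ} (hκ : κ * h0 = kenE x) (hx : 39 / 40 ≤ x) (hx' : x < 1) :
    TriB (DD x).cur (farD κ (h0 * x) (tbl tKF x) (tbl tL x)) 1 2 3 7 5 1 1 :=
  (sideF hx hx').farB (Or.inl rfl) (Or.inl rfl) fun y y' F r1 r2 =>
    farXB_cert (s1 := true) (s2 := true) rfl hκ (ka0 hκ hx hx') (xa0 hx) hx' (covF71 hx hx') (covF53 hx hx') (x1 hx) (x2 hx')
        Pool.Agent.Strip051.G.IE1.Tab.C.FB75.c_pp_123 noCut_VB noExt_VB F r1 r2 r1 r2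

theorem FB75_pp_133 {κ x : ℝ} (hκ : κ * h0 = kenE x) (hx : 39 / 40 ≤ x) (hx' : x < 1) :
    TriB (DD x).cur (farD κ (h0 * x) (tbl tKF x) (tbl tL x)) 1 3 3 7 5 1 1 :=
  (sideF hx hx').farB (Or.inl rfl) (Or.inl rfl) fun y y' F r1 r2 =>
    farXB_cert (s1 := true) (s2 := true) rfl hκ (ka0 hκ hx hx') (xa0 hx) hx' (covF71 hx hx') (covF53 hx hx') (x1 hx) (x2 hx')
        Pool.Agent.Strip051.G.IE1.Tab.C.FB75.c_pp_133 noCut_VB noExt_VB F r1 r2 r1 r2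

theorem FB75_pp_202 {κ x : ℝ} (hκ : κ * h0 = kenE x) (hx : 39 / 40 ≤ x) (hx' : x < 1) :
    TriB (DD x).cur (farD κ (h0 * x) (tbl tKF x) (tbl tL x)) 2 0 2 7 5 1 1 :=
  (sideF hx hx').farB (Or.inl rfl) (Or.inl rfl) fun y y' F r1 r2 =>
    farXB_cert (s1 := true) (s2 := true) rfl hκ (ka0 hκ hx hx') (xa0 hx) hx' (covF72 hx hx') (covF52 hx hx') (x1 hx) (x2 hx')
        Pool.Agent.Strip051.G.IE1.Tab.C.FB75.c_pp_202 noCut_VB noExt_VB F r1 r2 r1 r2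

theorem FB75_pp_203 {κ x : ℝ} (hκ : κ * h0 = kenE x) (hx : 39 / 40 ≤ x) (hx' : x < 1) :
    TriB (DD x).cur (farD κ (h0 * x) (tbl tKF x) (tbl tL x)) 2 0 3 7 5 1 1 :=
  (sideF hx hx').farB (Or.inl rfl) (Or.inl rfl) fun y y' F r1 r2 =>
    farXB_cert (s1 := true) (s2 := true) rfl hκ (ka0 hκ hx hx') (xa0 hx) hx' (covF72 hx hx') (covF53 hx hx') (x1 hx) (x2 hx')
        Pool.Agent.Strip051.G.IE1.Tab.C.FB75.c_pp_203 noCut_VB noExt_VB F r1 r2 r1 r2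

theorem FB75_pp_213 {κ x : ℝ} (hκ : κ * h0 = kenE x) (hx : 39 / 40 ≤ x) (hx' : x < 1) :
    TriB (DD x).cur (farD κ (h0 * x) (tbl tKF x) (tbl tL x)) 2 1 3 7 5 1 1 :=
  (sideF hx hx').farB (Or.inl rfl) (Or.inl rfl) fun y y' F r1 r2 =>
    farXB_cert (s1 := true) (s2 := true) rfl hκ (ka0 hκ hx hx') (xa0 hx) hx' (covF72 hx hx') (covF53 hx hx') (x1 hx) (x2 hx')
        Pool.Agent.Strip051.G.IE1.Tab.C.FB75.c_pp_213 noCut_VB noExt_VB F r1 r2 r1 r2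

theorem FB75_pp_303 {κ x : ℝ} (hκ : κ * h0 = kenE x) (hx : 39 / 40 ≤ x) (hx' : x < 1) :
    TriB (DD x).cur (farD κ (h0 * x) (tbl tKF x) (tbl tL x)) 3 0 3 7 5 1 1 :=
  (sideF hx hx').farB (Or.inl rfl) (Or.inl rfl) fun y y' F r1 r2 =>
    farXB_cert (s1 := true) (s2 := true) rfl hκ (ka0 hκ hx hx') (xa0 hx) hx' (covF73 hx hx') (covF53 hx hx') (x1 hx) (x2 hx')
        Pool.Agent.Strip051.G.IE1.Tab.C.FB75.c_pp_303 noCut_VB noExt_VB F r1 r2 r1 r2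

theorem FB75_pp_313 {κ x : ℝ} (hκ : κ * h0 = kenE x) (hx : 39 / 40 ≤ x) (hx' : x < 1) :
    TriB (DD x).cur (farD κ (h0 * x) (tbl tKF x) (tbl tL x)) 3 1 3 7 5 1 1 :=
  (sideF hx hx').farB (Or.inl rfl) (Or.inl rfl) fun y y' F r1 r2 =>
    farXB_cert (s1 := true) (s2 := true) rfl hκ (ka0 hκ hx hx') (xa0 hx) hx' (covF73 hx hx') (covF53 hx hx') (x1 hx) (x2 hx')
        Pool.Agent.Strip051.G.IE1.Tab.C.FB75.c_pp_313 noCut_VB noExt_VB F r1 r2 r1 r2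

theorem FB75_pm_001 {κ x : ℝ} (hκ : κ * h0 = kenE x) (hx : 39 / 40 ≤ x) (hx' : x < 1) :
    TriB (DD x).cur (farD κ (h0 * x) (tbl tKF x) (tbl tL x)) 0 0 1 7 5 1 (-1) :=
  (sideF hx hx').farB (Or.inl rfl) (Or.inr rfl) fun y y' F r1 r2 =>
    farXB_cert (s1 := true) (s2 := false) rfl hκ (ka0 hκ hx hx') (xa0 hx) hx' (covF70 hx hx') (covF51 hx hx') (x1 hx) (x2 hx')
        Pool.Agent.Strip051.G.IE1.Tab.C.FB75.c_pm_001 noCut_VB noExt_VB F r1 r2 r1 r2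

theorem FB75_pm_011 {κ x : ℝ} (hκ : κ * h0 = kenE x) (hx : 39 / 40 ≤ x) (hx' : x < 1) :
    TriB (DD x).cur (farD κ (h0 * x) (tbl tKF x) (tbl tL x)) 0 1 1 7 5 1 (-1) :=
  (sideF hx hx').farB (Or.inl rfl) (Or.inr rfl) fun y y' F r1 r2 =>
    farXB_cert (s1 := true) (s2 := false) rfl hκ (ka0 hκ hx hx') (xa0 hx) hx' (covF70 hx hx') (covF51 hx hx') (x1 hx) (x2 hx')
        Pool.Agent.Strip051.G.IE1.Tab.C.FB75.c_pm_011 noCut_VB noExt_VB F r1 r2 r1 r2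

theorem FB75_pm_012 {κ x : ℝ} (hκ : κ * h0 = kenE x) (hx : 39 / 40 ≤ x) (hx' : x < 1) :
    TriB (DD x).cur (farD κ (h0 * x) (tbl tKF x) (tbl tL x)) 0 1 2 7 5 1 (-1) :=
  (sideF hx hx').farB (Or.inl rfl) (Or.inr rfl) fun y y' F r1 r2 =>
    farXB_cert (s1 := true) (s2 := false) rfl hκ (ka0 hκ hx hx') (xa0 hx) hx' (covF70 hx hx') (covF52 hx hx') (x1 hx) (x2 hx')
        Pool.Agent.Strip051.G.IE1.Tab.C.FB75.c_pm_012 noCut_VB noExt_VB F r1 r2 r1 r2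

theorem FB75_pm_022 {κ x : ℝ} (hκ : κ * h0 = kenE x) (hx : 39 / 40 ≤ x) (hx' : x < 1) :
    TriB (DD x).cur (farD κ (h0 * x) (tbl tKF x) (tbl tL x)) 0 2 2 7 5 1 (-1) :=
  (sideF hx hx').farB (Or.inl rfl) (Or.inr rfl) fun y y' F r1 r2 =>
    farXB_cert (s1 := true) (s2 := false) rfl hκ (ka0 hκ hx hx') (xa0 hx) hx' (covF70 hx hx') (covF52 hx hx') (x1 hx) (x2 hx')
        Pool.Agent.Strip051.G.IE1.Tab.C.FB75.c_pm_022 noCut_VB noExt_VB F r1 r2 r1 r2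

theorem FB75_pm_023 {κ x : ℝ} (hκ : κ * h0 = kenE x) (hx : 39 / 40 ≤ x) (hx' : x < 1) :
    TriB (DD x).cur (farD κ (h0 * x) (tbl tKF x) (tbl tL x)) 0 2 3 7 5 1 (-1) :=
  (sideF hx hx').farB (Or.inl rfl) (Or.inr rfl) fun y y' F r1 r2 =>
    farXB_cert (s1 := true) (s2 := false) rfl hκ (ka0 hκ hx hx') (xa0 hx) hx' (covF70 hx hx') (covF53 hx hx') (x1 hx) (x2 hx')
        Pool.Agent.Strip051.G.IE1.Tab.C.FB75.c_pm_023 noCut_VB noExt_VB F r1 r2 r1 r2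

theorem FB75_pm_033 {κ x : ℝ} (hκ : κ * h0 = kenE x) (hx : 39 / 40 ≤ x) (hx' : x < 1) :
    TriB (DD x).cur (farD κ (h0 * x) (tbl tKF x) (tbl tL x)) 0 3 3 7 5 1 (-1) :=
  (sideF hx hx').farB (Or.inl rfl) (Or.inr rfl) fun y y' F r1 r2 =>
    farXB_cert (s1 := true) (s2 := false) rfl hκ (ka0 hκ hx hx') (xa0 hx) hx' (covF70 hx hx') (covF53 hx hx') (x1 hx) (x2 hx')
        Pool.Agent.Strip051.G.IE1.Tab.C.FB75.c_pm_033 noCut_VB noExt_VB F r1 r2 r1 r2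

theorem FB75_pm_101 {κ x : ℝ} (hκ : κ * h0 = kenE x) (hx : 39 / 40 ≤ x) (hx' : x < 1) :
    TriB (DD x).cur (farD κ (h0 * x) (tbl tKF x) (tbl tL x)) 1 0 1 7 5 1 (-1) :=
  (sideF hx hx').farB (Or.inl rfl) (Or.inr rfl) fun y y' F r1 r2 =>
    farXB_cert (s1 := true) (s2 := false) rfl hκ (ka0 hκ hx hx') (xa0 hx) hx' (covF71 hx hx') (covF51 hx hx') (x1 hx) (x2 hx')
        Pool.Agent.Strip051.G.IE1.Tab.C.FB75.c_pm_101 noCut_VB noExt_VB F r1 r2 r1 r2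

theorem FB75_pm_102 {κ x : ℝ} (hκ : κ * h0 = kenE x) (hx : 39 / 40 ≤ x) (hx' : x < 1) :
    TriB (DD x).cur (farD κ (h0 * x) (tbl tKF x) (tbl tL x)) 1 0 2 7 5 1 (-1) :=
  (sideF hx hx').farB (Or.inl rfl) (Or.inr rfl) fun y y' F r1 r2 =>
    farXB_cert (s1 := true) (s2 := false) rfl hκ (ka0 hκ hx hx') (xa0 hx) hx' (covF71 hx hx') (covF52 hx hx') (x1 hx) (x2 hx')
        Pool.Agent.Strip051.G.IE1.Tab.C.FB75.c_pm_102 noCut_VB noExt_VB F r1 r2 r1 r2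

theorem FB75_pm_112 {κ x : ℝ} (hκ : κ * h0 = kenE x) (hx : 39 / 40 ≤ x) (hx' : x < 1) :
    TriB (DD x).cur (farD κ (h0 * x) (tbl tKF x) (tbl tL x)) 1 1 2 7 5 1 (-1) :=
  (sideF hx hx').farB (Or.inl rfl) (Or.inr rfl) fun y y' F r1 r2 =>
    farXB_cert (s1 := true) (s2 := false) rfl hκ (ka0 hκ hx hx') (xa0 hx) hx' (covF71 hx hx') (covF52 hx hx') (x1 hx) (x2 hx')
        Pool.Agent.Strip051.G.IE1.Tab.C.FB75.c_pm_112 noCut_VB noExt_VB F r1 r2 r1 r2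

theorem FB75_pm_113 {κ x : ℝ} (hκ : κ * h0 = kenE x) (hx : 39 / 40 ≤ x) (hx' : x < 1) :
    TriB (DD x).cur (farD κ (h0 * x) (tbl tKF x) (tbl tL x)) 1 1 3 7 5 1 (-1) :=
  (sideF hx hx').farB (Or.inl rfl) (Or.inr rfl) fun y y' F r1 r2 =>
    farXB_cert (s1 := true) (s2 := false) rfl hκ (ka0 hκ hx hx') (xa0 hx) hx' (covF71 hx hx') (covF53 hx hx') (x1 hx) (x2 hx')
        Pool.Agent.Strip051.G.IE1.Tab.C.FB75.c_pm_113 noCut_VB noExt_VB F r1 r2 r1 r2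

theorem FB75_pm_123 {κ x : ℝ} (hκ : κ * h0 = kenE x) (hx : 39 / 40 ≤ x) (hx' : x < 1) :
    TriB (DD x).cur (farD κ (h0 * x) (tbl tKF x) (tbl tL x)) 1 2 3 7 5 1 (-1) :=
  (sideF hx hx').farB (Or.inl rfl) (Or.inr rfl) fun y y' F r1 r2 =>
    farXB_cert (s1 := true) (s2 := false) rfl hκ (ka0 hκ hx hx') (xa0 hx) hx' (covF71 hx hx') (covF53 hx hx') (x1 hx) (x2 hx')
        Pool.Agent.Strip051.G.IE1.Tab.C.FB75.c_pm_123 noCut_VB noExt_VB F r1 r2 r1 r2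

theorem FB75_pm_133 {κ x : ℝ} (hκ : κ * h0 = kenE x) (hx : 39 / 40 ≤ x) (hx' : x < 1) :
    TriB (DD x).cur (farD κ (h0 * x) (tbl tKF x) (tbl tL x)) 1 3 3 7 5 1 (-1) :=
  (sideF hx hx').farB (Or.inl rfl) (Or.inr rfl) fun y y' F r1 r2 =>
    farXB_cert (s1 := true) (s2 := false) rfl hκ (ka0 hκ hx hx') (xa0 hx) hx' (covF71 hx hx') (covF53 hx hx') (x1 hx) (x2 hx')
        Pool.Agent.Strip051.G.IE1.Tab.C.FB75.c_pm_133 noCut_VB noExt_VB F r1 r2 r1 r2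

theorem FB75_pm_202 {κ x : ℝ} (hκ : κ * h0 = kenE x) (hx : 39 / 40 ≤ x) (hx' : x < 1) :
    TriB (DD x).cur (farD κ (h0 * x) (tbl tKF x) (tbl tL x)) 2 0 2 7 5 1 (-1) :=
  (sideF hx hx').farB (Or.inl rfl) (Or.inr rfl) fun y y' F r1 r2 =>
    farXB_cert (s1 := true) (s2 := false) rfl hκ (ka0 hκ hx hx') (xa0 hx) hx' (covF72 hx hx') (covF52 hx hx') (x1 hx) (x2 hx')
        Pool.Agent.Strip051.G.IE1.Tab.C.FB75.c_pm_202 noCut_VB noExt_VB F r1 r2 r1 r2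

theorem FB75_pm_203 {κ x : ℝ} (hκ : κ * h0 = kenE x) (hx : 39 / 40 ≤ x) (hx' : x < 1) :
    TriB (DD x).cur (farD κ (h0 * x) (tbl tKF x) (tbl tL x)) 2 0 3 7 5 1 (-1) :=
  (sideF hx hx').farB (Or.inl rfl) (Or.inr rfl) fun y y' F r1 r2 =>
    farXB_cert (s1 := true) (s2 := false) rfl hκ (ka0 hκ hx hx') (xa0 hx) hx' (covF72 hx hx') (covF53 hx hx') (x1 hx) (x2 hx')
        Pool.Agent.Strip051.G.IE1.Tab.C.FB75.c_pm_203 noCut_VB noExt_VB F r1 r2 r1 r2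

theorem FB75_pm_213 {κ x : ℝ} (hκ : κ * h0 = kenE x) (hx : 39 / 40 ≤ x) (hx' : x < 1) :
    TriB (DD x).cur (farD κ (h0 * x) (tbl tKF x) (tbl tL x)) 2 1 3 7 5 1 (-1) :=
  (sideF hx hx').farB (Or.inl rfl) (Or.inr rfl) fun y y' F r1 r2 =>
    farXB_cert (s1 := true) (s2 := false) rfl hκ (ka0 hκ hx hx') (xa0 hx) hx' (covF72 hx hx') (covF53 hx hx') (x1 hx) (x2 hx')
        Pool.Agent.Strip051.G.IE1.Tab.C.FB75.c_pm_213 noCut_VB noExt_VB F r1 r2 r1 r2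

theorem FB75_pm_303 {κ x : ℝ} (hκ : κ * h0 = kenE x) (hx : 39 / 40 ≤ x) (hx' : x < 1) :
    TriB (DD x).cur (farD κ (h0 * x) (tbl tKF x) (tbl tL x)) 3 0 3 7 5 1 (-1) :=
  (sideF hx hx').farB (Or.inl rfl) (Or.inr rfl) fun y y' F r1 r2 =>
    farXB_cert (s1 := true) (s2 := false) rfl hκ (ka0 hκ hx hx') (xa0 hx) hx' (covF73 hx hx') (covF53 hx hx') (x1 hx) (x2 hx')
        Pool.Agent.Strip051.G.IE1.Tab.C.FB75.c_pm_303 noCut_VB noExt_VB F r1 r2 r1 r2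

theorem FB75_pm_313 {κ x : ℝ} (hκ : κ * h0 = kenE x) (hx : 39 / 40 ≤ x) (hx' : x < 1) :
    TriB (DD x).cur (farD κ (h0 * x) (tbl tKF x) (tbl tL x)) 3 1 3 7 5 1 (-1) :=
  (sideF hx hx').farB (Or.inl rfl) (Or.inr rfl) fun y y' F r1 r2 =>
    farXB_cert (s1 := true) (s2 := false) rfl hκ (ka0 hκ hx hx') (xa0 hx) hx' (covF73 hx hx') (covF53 hx hx') (x1 hx) (x2 hx')
        Pool.Agent.Strip051.G.IE1.Tab.C.FB75.c_pm_313 noCut_VB noExt_VB F r1 r2 r1 r2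

theorem FB75_mm_001 {κ x : ℝ} (hκ : κ * h0 = kenE x) (hx : 39 / 40 ≤ x) (hx' : x < 1) :
    TriB (DD x).cur (farD κ (h0 * x) (tbl tKF x) (tbl tL x)) 0 0 1 7 5 (-1) (-1) :=
  (sideF hx hx').farB (Or.inr rfl) (Or.inr rfl) fun y y' F r1 r2 =>
    farXB_cert (s1 := false) (s2 := false) rfl hκ (ka0 hκ hx hx') (xa0 hx) hx' (covF70 hx hx') (covF51 hx hx') (x1 hx) (x2 hx')
        Pool.Agent.Strip051.G.IE1.Tab.C.FB75.c_mm_001 noCut_VB noExt_VB F r1 r2 r1 r2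

theorem FB75_mm_011 {κ x : ℝ} (hκ : κ * h0 = kenE x) (hx : 39 / 40 ≤ x) (hx' : x < 1) :
    TriB (DD x).cur (farD κ (h0 * x) (tbl tKF x) (tbl tL x)) 0 1 1 7 5 (-1) (-1) :=
  (sideF hx hx').farB (Or.inr rfl) (Or.inr rfl) fun y y' F r1 r2 =>
    farXB_cert (s1 := false) (s2 := false) rfl hκ (ka0 hκ hx hx') (xa0 hx) hx' (covF70 hx hx') (covF51 hx hx') (x1 hx) (x2 hx')
        Pool.Agent.Strip051.G.IE1.Tab.C.FB75.c_mm_011 noCut_VB noExt_VB F r1 r2 r1 r2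

theorem FB75_mm_012 {κ x : ℝ} (hκ : κ * h0 = kenE x) (hx : 39 / 40 ≤ x) (hx' : x < 1) :
    TriB (DD x).cur (farD κ (h0 * x) (tbl tKF x) (tbl tL x)) 0 1 2 7 5 (-1) (-1) :=
  (sideF hx hx').farB (Or.inr rfl) (Or.inr rfl) fun y y' F r1 r2 =>
    farXB_cert (s1 := false) (s2 := false) rfl hκ (ka0 hκ hx hx') (xa0 hx) hx' (covF70 hx hx') (covF52 hx hx') (x1 hx) (x2 hx')
        Pool.Agent.Strip051.G.IE1.Tab.C.FB75.c_mm_012 noCut_VB noExt_VB F r1 r2 r1 r2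

theorem FB75_mm_022 {κ x : ℝ} (hκ : κ * h0 = kenE x) (hx : 39 / 40 ≤ x) (hx' : x < 1) :
    TriB (DD x).cur (farD κ (h0 * x) (tbl tKF x) (tbl tL x)) 0 2 2 7 5 (-1) (-1) :=
  (sideF hx hx').farB (Or.inr rfl) (Or.inr rfl) fun y y' F r1 r2 =>
    farXB_cert (s1 := false) (s2 := false) rfl hκ (ka0 hκ hx hx') (xa0 hx) hx' (covF70 hx hx') (covF52 hx hx') (x1 hx) (x2 hx')
        Pool.Agent.Strip051.G.IE1.Tab.C.FB75.c_mm_022 noCut_VB noExt_VB F r1 r2 r1 r2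

theorem FB75_mm_023 {κ x : ℝ} (hκ : κ * h0 = kenE x) (hx : 39 / 40 ≤ x) (hx' : x < 1) :
    TriB (DD x).cur (farD κ (h0 * x) (tbl tKF x) (tbl tL x)) 0 2 3 7 5 (-1) (-1) :=
  (sideF hx hx').farB (Or.inr rfl) (Or.inr rfl) fun y y' F r1 r2 =>
    farXB_cert (s1 := false) (s2 := false) rfl hκ (ka0 hκ hx hx') (xa0 hx) hx' (covF70 hx hx') (covF53 hx hx') (x1 hx) (x2 hx')
        Pool.Agent.Strip051.G.IE1.Tab.C.FB75.c_mm_023 noCut_VB noExt_VB F r1 r2 r1 r2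

theorem FB75_mm_033 {κ x : ℝ} (hκ : κ * h0 = kenE x) (hx : 39 / 40 ≤ x) (hx' : x < 1) :
    TriB (DD x).cur (farD κ (h0 * x) (tbl tKF x) (tbl tL x)) 0 3 3 7 5 (-1) (-1) :=
  (sideF hx hx').farB (Or.inr rfl) (Or.inr rfl) fun y y' F r1 r2 =>
    farXB_cert (s1 := false) (s2 := false) rfl hκ (ka0 hκ hx hx') (xa0 hx) hx' (covF70 hx hx') (covF53 hx hx') (x1 hx) (x2 hx')
        Pool.Agent.Strip051.G.IE1.Tab.C.FB75.c_mm_033 noCut_VB noExt_VB F r1 r2 r1 r2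

theorem FB75_mm_101 {κ x : ℝ} (hκ : κ * h0 = kenE x) (hx : 39 / 40 ≤ x) (hx' : x < 1) :
    TriB (DD x).cur (farD κ (h0 * x) (tbl tKF x) (tbl tL x)) 1 0 1 7 5 (-1) (-1) :=
  (sideF hx hx').farB (Or.inr rfl) (Or.inr rfl) fun y y' F r1 r2 =>
    farXB_cert (s1 := false) (s2 := false) rfl hκ (ka0 hκ hx hx') (xa0 hx) hx' (covF71 hx hx') (covF51 hx hx') (x1 hx) (x2 hx')
        Pool.Agent.Strip051.G.IE1.Tab.C.FB75.c_mm_101 noCut_VB noExt_VB F r1 r2 r1 r2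

theorem FB75_mm_102 {κ x : ℝ} (hκ : κ * h0 = kenE x) (hx : 39 / 40 ≤ x) (hx' : x < 1) :
    TriB (DD x).cur (farD κ (h0 * x) (tbl tKF x) (tbl tL x)) 1 0 2 7 5 (-1) (-1) :=
  (sideF hx hx').farB (Or.inr rfl) (Or.inr rfl) fun y y' F r1 r2 =>
    farXB_cert (s1 := false) (s2 := false) rfl hκ (ka0 hκ hx hx') (xa0 hx) hx' (covF71 hx hx') (covF52 hx hx') (x1 hx) (x2 hx')
        Pool.Agent.Strip051.G.IE1.Tab.C.FB75.c_mm_102 noCut_VB noExt_VB F r1 r2 r1 r2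

theorem FB75_mm_112 {κ x : ℝ} (hκ : κ * h0 = kenE x) (hx : 39 / 40 ≤ x) (hx' : x < 1) :
    TriB (DD x).cur (farD κ (h0 * x) (tbl tKF x) (tbl tL x)) 1 1 2 7 5 (-1) (-1) :=
  (sideF hx hx').farB (Or.inr rfl) (Or.inr rfl) fun y y' F r1 r2 =>
    farXB_cert (s1 := false) (s2 := false) rfl hκ (ka0 hκ hx hx') (xa0 hx) hx' (covF71 hx hx') (covF52 hx hx') (x1 hx) (x2 hx')
        Pool.Agent.Strip051.G.IE1.Tab.C.FB75.c_mm_112 noCut_VB noExt_VB F r1 r2 r1 r2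

theorem FB75_mm_113 {κ x : ℝ} (hκ : κ * h0 = kenE x) (hx : 39 / 40 ≤ x) (hx' : x < 1) :
    TriB (DD x).cur (farD κ (h0 * x) (tbl tKF x) (tbl tL x)) 1 1 3 7 5 (-1) (-1) :=
  (sideF hx hx').farB (Or.inr rfl) (Or.inr rfl) fun y y' F r1 r2 =>
    farXB_cert (s1 := false) (s2 := false) rfl hκ (ka0 hκ hx hx') (xa0 hx) hx' (covF71 hx hx') (covF53 hx hx') (x1 hx) (x2 hx')
        Pool.Agent.Strip051.G.IE1.Tab.C.FB75.c_mm_113 noCut_VB noExt_VB F r1 r2 r1 r2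

theorem FB75_mm_123 {κ x : ℝ} (hκ : κ * h0 = kenE x) (hx : 39 / 40 ≤ x) (hx' : x < 1) :
    TriB (DD x).cur (farD κ (h0 * x) (tbl tKF x) (tbl tL x)) 1 2 3 7 5 (-1) (-1) :=
  (sideF hx hx').farB (Or.inr rfl) (Or.inr rfl) fun y y' F r1 r2 =>
    farXB_cert (s1 := false) (s2 := false) rfl hκ (ka0 hκ hx hx') (xa0 hx) hx' (covF71 hx hx') (covF53 hx hx') (x1 hx) (x2 hx')
        Pool.Agent.Strip051.G.IE1.Tab.C.FB75.c_mm_123 noCut_VB noExt_VB F r1 r2 r1 r2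

theorem FB75_mm_133 {κ x : ℝ} (hκ : κ * h0 = kenE x) (hx : 39 / 40 ≤ x) (hx' : x < 1) :
    TriB (DD x).cur (farD κ (h0 * x) (tbl tKF x) (tbl tL x)) 1 3 3 7 5 (-1) (-1) :=
  (sideF hx hx').farB (Or.inr rfl) (Or.inr rfl) fun y y' F r1 r2 =>
    farXB_cert (s1 := false) (s2 := false) rfl hκ (ka0 hκ hx hx') (xa0 hx) hx' (covF71 hx hx') (covF53 hx hx') (x1 hx) (x2 hx')
        Pool.Agent.Strip051.G.IE1.Tab.C.FB75.c_mm_133 noCut_VB noExt_VB F r1 r2 r1 r2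

theorem FB75_mm_202 {κ x : ℝ} (hκ : κ * h0 = kenE x) (hx : 39 / 40 ≤ x) (hx' : x < 1) :
    TriB (DD x).cur (farD κ (h0 * x) (tbl tKF x) (tbl tL x)) 2 0 2 7 5 (-1) (-1) :=
  (sideF hx hx').farB (Or.inr rfl) (Or.inr rfl) fun y y' F r1 r2 =>
    farXB_cert (s1 := false) (s2 := false) rfl hκ (ka0 hκ hx hx') (xa0 hx) hx' (covF72 hx hx') (covF52 hx hx') (x1 hx) (x2 hx')
        Pool.Agent.Strip051.G.IE1.Tab.C.FB75.c_mm_202 noCut_VB noExt_VB F r1 r2 r1 r2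

theorem FB75_mm_203 {κ x : ℝ} (hκ : κ * h0 = kenE x) (hx : 39 / 40 ≤ x) (hx' : x < 1) :
    TriB (DD x).cur (farD κ (h0 * x) (tbl tKF x) (tbl tL x)) 2 0 3 7 5 (-1) (-1) :=
  (sideF hx hx').farB (Or.inr rfl) (Or.inr rfl) fun y y' F r1 r2 =>
    farXB_cert (s1 := false) (s2 := false) rfl hκ (ka0 hκ hx hx') (xa0 hx) hx' (covF72 hx hx') (covF53 hx hx') (x1 hx) (x2 hx')
        Pool.Agent.Strip051.G.IE1.Tab.C.FB75.c_mm_203 noCut_VB noExt_VB F r1 r2 r1 r2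

theorem FB75_mm_213 {κ x : ℝ} (hκ : κ * h0 = kenE x) (hx : 39 / 40 ≤ x) (hx' : x < 1) :
    TriB (DD x).cur (farD κ (h0 * x) (tbl tKF x) (tbl tL x)) 2 1 3 7 5 (-1) (-1) :=
  (sideF hx hx').farB (Or.inr rfl) (Or.inr rfl) fun y y' F r1 r2 =>
    farXB_cert (s1 := false) (s2 := false) rfl hκ (ka0 hκ hx hx') (xa0 hx) hx' (covF72 hx hx') (covF53 hx hx') (x1 hx) (x2 hx')
        Pool.Agent.Strip051.G.IE1.Tab.C.FB75.c_mm_213 noCut_VB noExt_VB F r1 r2 r1 r2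

theorem FB75_mm_303 {κ x : ℝ} (hκ : κ * h0 = kenE x) (hx : 39 / 40 ≤ x) (hx' : x < 1) :
    TriB (DD x).cur (farD κ (h0 * x) (tbl tKF x) (tbl tL x)) 3 0 3 7 5 (-1) (-1) :=
  (sideF hx hx').farB (Or.inr rfl) (Or.inr rfl) fun y y' F r1 r2 =>
    farXB_cert (s1 := false) (s2 := false) rfl hκ (ka0 hκ hx hx') (xa0 hx) hx' (covF73 hx hx') (covF53 hx hx') (x1 hx) (x2 hx')
        Pool.Agent.Strip051.G.IE1.Tab.C.FB75.c_mm_303 noCut_VB noExt_VB F r1 r2 r1 r2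

theorem FB75_mm_313 {κ x : ℝ} (hκ : κ * h0 = kenE x) (hx : 39 / 40 ≤ x) (hx' : x < 1) :
    TriB (DD x).cur (farD κ (h0 * x) (tbl tKF x) (tbl tL x)) 3 1 3 7 5 (-1) (-1) :=
  (sideF hx hx').farB (Or.inr rfl) (Or.inr rfl) fun y y' F r1 r2 =>
    farXB_cert (s1 := false) (s2 := false) rfl hκ (ka0 hκ hx hx') (xa0 hx) hx' (covF73 hx hx') (covF53 hx hx') (x1 hx) (x2 hx')
        Pool.Agent.Strip051.G.IE1.Tab.C.FB75.c_mm_313 noCut_VB noExt_VB F r1 r2 r1 r2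

theorem FB75 {κ x : ℝ} (hκ : κ * h0 = kenE x) (hx : 39 / 40 ≤ x) (hx' : x < 1) : AllTB (DD x).cur (farD κ (h0 * x) (tbl tKF x) (tbl tL x)) 7 5 where
  pp := all17 (Q := fun a b c => TriB (DD x).cur (farD κ (h0 * x) (tbl tKF x) (tbl tL x)) a b c 7 5 1 1)
    (FB75_pp_001 hκ hx hx') (FB75_pp_011 hκ hx hx') (FB75_pp_012 hκ hx hx') (FB75_pp_022 hκ hx hx') (FB75_pp_023 hκ hx hx') (FB75_pp_033 hκ hx hx') (FB75_pp_101 hκ hx hx') (FB75_pp_102 hκ hx hx') (FB75_pp_112 hκ hx hx') (FB75_pp_113 hκ hx hx') (FB75_pp_123 hκ hx hx') (FB75_pp_133 hκ hx hx') (FB75_pp_202 hκ hx hx') (FB75_pp_203 hκ hx hx') (FB75_pp_213 hκ hx hx') (FB75_pp_303 hκ hx hx') (FB75_pp_313 hκ hx hx')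
  pm := all17 (Q := fun a b c => TriB (DD x).cur (farD κ (h0 * x) (tbl tKF x) (tbl tL x)) a b c 7 5 1 (-1))
    (FB75_pm_001 hκ hx hx') (FB75_pm_011 hκ hx hx') (FB75_pm_012 hκ hx hx') (FB75_pm_022 hκ hx hx') (FB75_pm_023 hκ hx hx') (FB75_pm_033 hκ hx hx') (FB75_pm_101 hκ hx hx') (FB75_pm_102 hκ hx hx') (FB75_pm_112 hκ hx hx') (FB75_pm_113 hκ hx hx') (FB75_pm_123 hκ hx hx') (FB75_pm_133 hκ hx hx') (FB75_pm_202 hκ hx hx') (FB75_pm_203 hκ hx hx') (FB75_pm_213 hκ hx hx') (FB75_pm_303 hκ hx hx') (FB75_pm_313 hκ hx hx')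
  mm := all17 (Q := fun a b c => TriB (DD x).cur (farD κ (h0 * x) (tbl tKF x) (tbl tL x)) a b c 7 5 (-1) (-1))
    (FB75_mm_001 hκ hx hx') (FB75_mm_011 hκ hx hx') (FB75_mm_012 hκ hx hx') (FB75_mm_022 hκ hx hx') (FB75_mm_023 hκ hx hx') (FB75_mm_033 hκ hx hx') (FB75_mm_101 hκ hx hx') (FB75_mm_102 hκ hx hx') (FB75_mm_112 hκ hx hx') (FB75_mm_113 hκ hx hx') (FB75_mm_123 hκ hx hx') (FB75_mm_133 hκ hx hx') (FB75_mm_202 hκ hx hx') (FB75_mm_203 hκ hx hx') (FB75_mm_213 hκ hx hx') (FB75_mm_303 hκ hx hx') (FB75_mm_313 hκ hx hx')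

theorem FB76_pp_001 {κ x : ℝ} (hκ : κ * h0 = kenE x) (hx : 39 / 40 ≤ x) (hx' : x < 1) :
    TriB (DD x).cur (farD κ (h0 * x) (tbl tKF x) (tbl tL x)) 0 0 1 7 6 1 1 :=
  (sideF hx hx').farB (Or.inl rfl) (Or.inl rfl) fun y y' F r1 r2 =>
    farXB_cert (s1 := true) (s2 := true) rfl hκ (ka0 hκ hx hx') (xa0 hx) hx' (covF70 hx hx') (covF61 hx hx') (x1 hx) (x2 hx')
        Pool.Agent.Strip051.G.IE1.Tab.C.FB76.c_pp_001 noCut_VB noExt_VB F r1 r2 r1 r2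

theorem FB76_pp_011 {κ x : ℝ} (hκ : κ * h0 = kenE x) (hx : 39 / 40 ≤ x) (hx' : x < 1) :
    TriB (DD x).cur (farD κ (h0 * x) (tbl tKF x) (tbl tL x)) 0 1 1 7 6 1 1 :=
  (sideF hx hx').farB (Or.inl rfl) (Or.inl rfl) fun y y' F r1 r2 =>
    farXB_cert (s1 := true) (s2 := true) rfl hκ (ka0 hκ hx hx') (xa0 hx) hx' (covF70 hx hx') (covF61 hx hx') (x1 hx) (x2 hx')
        Pool.Agent.Strip051.G.IE1.Tab.C.FB76.c_pp_011 noCut_VB noExt_VB F r1 r2 r1 r2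

theorem FB76_pp_012 {κ x : ℝ} (hκ : κ * h0 = kenE x) (hx : 39 / 40 ≤ x) (hx' : x < 1) :
    TriB (DD x).cur (farD κ (h0 * x) (tbl tKF x) (tbl tL x)) 0 1 2 7 6 1 1 :=
  (sideF hx hx').farB (Or.inl rfl) (Or.inl rfl) fun y y' F r1 r2 =>
    farXB_cert (s1 := true) (s2 := true) rfl hκ (ka0 hκ hx hx') (xa0 hx) hx' (covF70 hx hx') (covF62 hx hx') (x1 hx) (x2 hx')
        Pool.Agent.Strip051.G.IE1.Tab.C.FB76.c_pp_012 noCut_VB noExt_VB F r1 r2 r1 r2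

theorem FB76_pp_022 {κ x : ℝ} (hκ : κ * h0 = kenE x) (hx : 39 / 40 ≤ x) (hx' : x < 1) :
    TriB (DD x).cur (farD κ (h0 * x) (tbl tKF x) (tbl tL x)) 0 2 2 7 6 1 1 :=
  (sideF hx hx').farB (Or.inl rfl) (Or.inl rfl) fun y y' F r1 r2 =>
    farXB_cert (s1 := true) (s2 := true) rfl hκ (ka0 hκ hx hx') (xa0 hx) hx' (covF70 hx hx') (covF62 hx hx') (x1 hx) (x2 hx')
        Pool.Agent.Strip051.G.IE1.Tab.C.FB76.c_pp_022 noCut_VB noExt_VB F r1 r2 r1 r2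

theorem FB76_pp_023 {κ x : ℝ} (hκ : κ * h0 = kenE x) (hx : 39 / 40 ≤ x) (hx' : x < 1) :
    TriB (DD x).cur (farD κ (h0 * x) (tbl tKF x) (tbl tL x)) 0 2 3 7 6 1 1 :=
  (sideF hx hx').farB (Or.inl rfl) (Or.inl rfl) fun y y' F r1 r2 =>
    farXB_cert (s1 := true) (s2 := true) rfl hκ (ka0 hκ hx hx') (xa0 hx) hx' (covF70 hx hx') (covF63 hx hx') (x1 hx) (x2 hx')
        Pool.Agent.Strip051.G.IE1.Tab.C.FB76.c_pp_023 noCut_VB noExt_VB F r1 r2 r1 r2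

theorem FB76_pp_033 {κ x : ℝ} (hκ : κ * h0 = kenE x) (hx : 39 / 40 ≤ x) (hx' : x < 1) :
    TriB (DD x).cur (farD κ (h0 * x) (tbl tKF x) (tbl tL x)) 0 3 3 7 6 1 1 :=
  (sideF hx hx').farB (Or.inl rfl) (Or.inl rfl) fun y y' F r1 r2 =>
    farXB_cert (s1 := true) (s2 := true) rfl hκ (ka0 hκ hx hx') (xa0 hx) hx' (covF70 hx hx') (covF63 hx hx') (x1 hx) (x2 hx')
        Pool.Agent.Strip051.G.IE1.Tab.C.FB76.c_pp_033 noCut_VB noExt_VB F r1 r2 r1 r2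

theorem FB76_pp_101 {κ x : ℝ} (hκ : κ * h0 = kenE x) (hx : 39 / 40 ≤ x) (hx' : x < 1) :
    TriB (DD x).cur (farD κ (h0 * x) (tbl tKF x) (tbl tL x)) 1 0 1 7 6 1 1 :=
  (sideF hx hx').farB (Or.inl rfl) (Or.inl rfl) fun y y' F r1 r2 =>
    farXB_cert (s1 := true) (s2 := true) rfl hκ (ka0 hκ hx hx') (xa0 hx) hx' (covF71 hx hx') (covF61 hx hx') (x1 hx) (x2 hx')
        Pool.Agent.Strip051.G.IE1.Tab.C.FB76.c_pp_101 noCut_VB noExt_VB F r1 r2 r1 r2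

theorem FB76_pp_102 {κ x : ℝ} (hκ : κ * h0 = kenE x) (hx : 39 / 40 ≤ x) (hx' : x < 1) :
    TriB (DD x).cur (farD κ (h0 * x) (tbl tKF x) (tbl tL x)) 1 0 2 7 6 1 1 :=
  (sideF hx hx').farB (Or.inl rfl) (Or.inl rfl) fun y y' F r1 r2 =>
    farXB_cert (s1 := true) (s2 := true) rfl hκ (ka0 hκ hx hx') (xa0 hx) hx' (covF71 hx hx') (covF62 hx hx') (x1 hx) (x2 hx')
        Pool.Agent.Strip051.G.IE1.Tab.C.FB76.c_pp_102 noCut_VB noExt_VB F r1 r2 r1 r2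

theorem FB76_pp_112 {κ x : ℝ} (hκ : κ * h0 = kenE x) (hx : 39 / 40 ≤ x) (hx' : x < 1) :
    TriB (DD x).cur (farD κ (h0 * x) (tbl tKF x) (tbl tL x)) 1 1 2 7 6 1 1 :=
  (sideF hx hx').farB (Or.inl rfl) (Or.inl rfl) fun y y' F r1 r2 =>
    farXB_cert (s1 := true) (s2 := true) rfl hκ (ka0 hκ hx hx') (xa0 hx) hx' (covF71 hx hx') (covF62 hx hx') (x1 hx) (x2 hx')
        Pool.Agent.Strip051.G.IE1.Tab.C.FB76.c_pp_112 noCut_VB noExt_VB F r1 r2 r1 r2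

theorem FB76_pp_113 {κ x : ℝ} (hκ : κ * h0 = kenE x) (hx : 39 / 40 ≤ x) (hx' : x < 1) :
    TriB (DD x).cur (farD κ (h0 * x) (tbl tKF x) (tbl tL x)) 1 1 3 7 6 1 1 :=
  (sideF hx hx').farB (Or.inl rfl) (Or.inl rfl) fun y y' F r1 r2 =>
    farXB_cert (s1 := true) (s2 := true) rfl hκ (ka0 hκ hx hx') (xa0 hx) hx' (covF71 hx hx') (covF63 hx hx') (x1 hx) (x2 hx')
        Pool.Agent.Strip051.G.IE1.Tab.C.FB76.c_pp_113 noCut_VB noExt_VB F r1 r2 r1 r2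

theorem FB76_pp_123 {κ x : ℝ} (hκ : κ * h0 = kenE x) (hx : 39 / 40 ≤ x) (hx' : x < 1) :
    TriB (DD x).cur (farD κ (h0 * x) (tbl tKF x) (tbl tL x)) 1 2 3 7 6 1 1 :=
  (sideF hx hx').farB (Or.inl rfl) (Or.inl rfl) fun y y' F r1 r2 =>
    farXB_cert (s1 := true) (s2 := true) rfl hκ (ka0 hκ hx hx') (xa0 hx) hx' (covF71 hx hx') (covF63 hx hx') (x1 hx) (x2 hx')
        Pool.Agent.Strip051.G.IE1.Tab.C.FB76.c_pp_123 noCut_VB noExt_VB F r1 r2 r1 r2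

theorem FB76_pp_133 {κ x : ℝ} (hκ : κ * h0 = kenE x) (hx : 39 / 40 ≤ x) (hx' : x < 1) :
    TriB (DD x).cur (farD κ (h0 * x) (tbl tKF x) (tbl tL x)) 1 3 3 7 6 1 1 :=
  (sideF hx hx').farB (Or.inl rfl) (Or.inl rfl) fun y y' F r1 r2 =>
    farXB_cert (s1 := true) (s2 := true) rfl hκ (ka0 hκ hx hx') (xa0 hx) hx' (covF71 hx hx') (covF63 hx hx') (x1 hx) (x2 hx')
        Pool.Agent.Strip051.G.IE1.Tab.C.FB76.c_pp_133 noCut_VB noExt_VB F r1 r2 r1 r2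

theorem FB76_pp_202 {κ x : ℝ} (hκ : κ * h0 = kenE x) (hx : 39 / 40 ≤ x) (hx' : x < 1) :
    TriB (DD x).cur (farD κ (h0 * x) (tbl tKF x) (tbl tL x)) 2 0 2 7 6 1 1 :=
  (sideF hx hx').farB (Or.inl rfl) (Or.inl rfl) fun y y' F r1 r2 =>
    farXB_cert (s1 := true) (s2 := true) rfl hκ (ka0 hκ hx hx') (xa0 hx) hx' (covF72 hx hx') (covF62 hx hx') (x1 hx) (x2 hx')
        Pool.Agent.Strip051.G.IE1.Tab.C.FB76.c_pp_202 noCut_VB noExt_VB F r1 r2 r1 r2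

theorem FB76_pp_203 {κ x : ℝ} (hκ : κ * h0 = kenE x) (hx : 39 / 40 ≤ x) (hx' : x < 1) :
    TriB (DD x).cur (farD κ (h0 * x) (tbl tKF x) (tbl tL x)) 2 0 3 7 6 1 1 :=
  (sideF hx hx').farB (Or.inl rfl) (Or.inl rfl) fun y y' F r1 r2 =>
    farXB_cert (s1 := true) (s2 := true) rfl hκ (ka0 hκ hx hx') (xa0 hx) hx' (covF72 hx hx') (covF63 hx hx') (x1 hx) (x2 hx')
        Pool.Agent.Strip051.G.IE1.Tab.C.FB76.c_pp_203 noCut_VB noExt_VB F r1 r2 r1 r2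

theorem FB76_pp_213 {κ x : ℝ} (hκ : κ * h0 = kenE x) (hx : 39 / 40 ≤ x) (hx' : x < 1) :
    TriB (DD x).cur (farD κ (h0 * x) (tbl tKF x) (tbl tL x)) 2 1 3 7 6 1 1 :=
  (sideF hx hx').farB (Or.inl rfl) (Or.inl rfl) fun y y' F r1 r2 =>
    farXB_cert (s1 := true) (s2 := true) rfl hκ (ka0 hκ hx hx') (xa0 hx) hx' (covF72 hx hx') (covF63 hx hx') (x1 hx) (x2 hx')
        Pool.Agent.Strip051.G.IE1.Tab.C.FB76.c_pp_213 noCut_VB noExt_VB F r1 r2 r1 r2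

theorem FB76_pp_303 {κ x : ℝ} (hκ : κ * h0 = kenE x) (hx : 39 / 40 ≤ x) (hx' : x < 1) :
    TriB (DD x).cur (farD κ (h0 * x) (tbl tKF x) (tbl tL x)) 3 0 3 7 6 1 1 :=
  (sideF hx hx').farB (Or.inl rfl) (Or.inl rfl) fun y y' F r1 r2 =>
    farXB_cert (s1 := true) (s2 := true) rfl hκ (ka0 hκ hx hx') (xa0 hx) hx' (covF73 hx hx') (covF63 hx hx') (x1 hx) (x2 hx')
        Pool.Agent.Strip051.G.IE1.Tab.C.FB76.c_pp_303 noCut_VB noExt_VB F r1 r2 r1 r2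

theorem FB76_pp_313 {κ x : ℝ} (hκ : κ * h0 = kenE x) (hx : 39 / 40 ≤ x) (hx' : x < 1) :
    TriB (DD x).cur (farD κ (h0 * x) (tbl tKF x) (tbl tL x)) 3 1 3 7 6 1 1 :=
  (sideF hx hx').farB (Or.inl rfl) (Or.inl rfl) fun y y' F r1 r2 =>
    farXB_cert (s1 := true) (s2 := true) rfl hκ (ka0 hκ hx hx') (xa0 hx) hx' (covF73 hx hx') (covF63 hx hx') (x1 hx) (x2 hx')
        Pool.Agent.Strip051.G.IE1.Tab.C.FB76.c_pp_313 noCut_VB noExt_VB F r1 r2 r1 r2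

theorem FB76_pm_001 {κ x : ℝ} (hκ : κ * h0 = kenE x) (hx : 39 / 40 ≤ x) (hx' : x < 1) :
    TriB (DD x).cur (farD κ (h0 * x) (tbl tKF x) (tbl tL x)) 0 0 1 7 6 1 (-1) :=
  (sideF hx hx').farB (Or.inl rfl) (Or.inr rfl) fun y y' F r1 r2 =>
    farXB_cert (s1 := true) (s2 := false) rfl hκ (ka0 hκ hx hx') (xa0 hx) hx' (covF70 hx hx') (covF61 hx hx') (x1 hx) (x2 hx')
        Pool.Agent.Strip051.G.IE1.Tab.C.FB76.c_pm_001 noCut_VB noExt_VB F r1 r2 r1 r2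

theorem FB76_pm_011 {κ x : ℝ} (hκ : κ * h0 = kenE x) (hx : 39 / 40 ≤ x) (hx' : x < 1) :
    TriB (DD x).cur (farD κ (h0 * x) (tbl tKF x) (tbl tL x)) 0 1 1 7 6 1 (-1) :=
  (sideF hx hx').farB (Or.inl rfl) (Or.inr rfl) fun y y' F r1 r2 =>
    farXB_cert (s1 := true) (s2 := false) rfl hκ (ka0 hκ hx hx') (xa0 hx) hx' (covF70 hx hx') (covF61 hx hx') (x1 hx) (x2 hx')
        Pool.Agent.Strip051.G.IE1.Tab.C.FB76.c_pm_011 noCut_VB noExt_VB F r1 r2 r1 r2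

theorem FB76_pm_012 {κ x : ℝ} (hκ : κ * h0 = kenE x) (hx : 39 / 40 ≤ x) (hx' : x < 1) :
    TriB (DD x).cur (farD κ (h0 * x) (tbl tKF x) (tbl tL x)) 0 1 2 7 6 1 (-1) :=
  (sideF hx hx').farB (Or.inl rfl) (Or.inr rfl) fun y y' F r1 r2 =>
    farXB_cert (s1 := true) (s2 := false) rfl hκ (ka0 hκ hx hx') (xa0 hx) hx' (covF70 hx hx') (covF62 hx hx') (x1 hx) (x2 hx')
        Pool.Agent.Strip051.G.IE1.Tab.C.FB76.c_pm_012 noCut_VB noExt_VB F r1 r2 r1 r2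

theorem FB76_pm_022 {κ x : ℝ} (hκ : κ * h0 = kenE x) (hx : 39 / 40 ≤ x) (hx' : x < 1) :
    TriB (DD x).cur (farD κ (h0 * x) (tbl tKF x) (tbl tL x)) 0 2 2 7 6 1 (-1) :=
  (sideF hx hx').farB (Or.inl rfl) (Or.inr rfl) fun y y' F r1 r2 =>
    farXB_cert (s1 := true) (s2 := false) rfl hκ (ka0 hκ hx hx') (xa0 hx) hx' (covF70 hx hx') (covF62 hx hx') (x1 hx) (x2 hx')
        Pool.Agent.Strip051.G.IE1.Tab.C.FB76.c_pm_022 noCut_VB noExt_VB F r1 r2 r1 r2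

theorem FB76_pm_023 {κ x : ℝ} (hκ : κ * h0 = kenE x) (hx : 39 / 40 ≤ x) (hx' : x < 1) :
    TriB (DD x).cur (farD κ (h0 * x) (tbl tKF x) (tbl tL x)) 0 2 3 7 6 1 (-1) :=
  (sideF hx hx').farB (Or.inl rfl) (Or.inr rfl) fun y y' F r1 r2 =>
    farXB_cert (s1 := true) (s2 := false) rfl hκ (ka0 hκ hx hx') (xa0 hx) hx' (covF70 hx hx') (covF63 hx hx') (x1 hx) (x2 hx')
        Pool.Agent.Strip051.G.IE1.Tab.C.FB76.c_pm_023 noCut_VB noExt_VB F r1 r2 r1 r2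

theorem FB76_pm_033 {κ x : ℝ} (hκ : κ * h0 = kenE x) (hx : 39 / 40 ≤ x) (hx' : x < 1) :
    TriB (DD x).cur (farD κ (h0 * x) (tbl tKF x) (tbl tL x)) 0 3 3 7 6 1 (-1) :=
  (sideF hx hx').farB (Or.inl rfl) (Or.inr rfl) fun y y' F r1 r2 =>
    farXB_cert (s1 := true) (s2 := false) rfl hκ (ka0 hκ hx hx') (xa0 hx) hx' (covF70 hx hx') (covF63 hx hx') (x1 hx) (x2 hx')
        Pool.Agent.Strip051.G.IE1.Tab.C.FB76.c_pm_033 noCut_VB noExt_VB F r1 r2 r1 r2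

theorem FB76_pm_101 {κ x : ℝ} (hκ : κ * h0 = kenE x) (hx : 39 / 40 ≤ x) (hx' : x < 1) :
    TriB (DD x).cur (farD κ (h0 * x) (tbl tKF x) (tbl tL x)) 1 0 1 7 6 1 (-1) :=
  (sideF hx hx').farB (Or.inl rfl) (Or.inr rfl) fun y y' F r1 r2 =>
    farXB_cert (s1 := true) (s2 := false) rfl hκ (ka0 hκ hx hx') (xa0 hx) hx' (covF71 hx hx') (covF61 hx hx') (x1 hx) (x2 hx')
        Pool.Agent.Strip051.G.IE1.Tab.C.FB76.c_pm_101 noCut_VB noExt_VB F r1 r2 r1 r2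

theorem FB76_pm_102 {κ x : ℝ} (hκ : κ * h0 = kenE x) (hx : 39 / 40 ≤ x) (hx' : x < 1) :
    TriB (DD x).cur (farD κ (h0 * x) (tbl tKF x) (tbl tL x)) 1 0 2 7 6 1 (-1) :=
  (sideF hx hx').farB (Or.inl rfl) (Or.inr rfl) fun y y' F r1 r2 =>
    farXB_cert (s1 := true) (s2 := false) rfl hκ (ka0 hκ hx hx') (xa0 hx) hx' (covF71 hx hx') (covF62 hx hx') (x1 hx) (x2 hx')
        Pool.Agent.Strip051.G.IE1.Tab.C.FB76.c_pm_102 noCut_VB noExt_VB F r1 r2 r1 r2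

theorem FB76_pm_112 {κ x : ℝ} (hκ : κ * h0 = kenE x) (hx : 39 / 40 ≤ x) (hx' : x < 1) :
    TriB (DD x).cur (farD κ (h0 * x) (tbl tKF x) (tbl tL x)) 1 1 2 7 6 1 (-1) :=
  (sideF hx hx').farB (Or.inl rfl) (Or.inr rfl) fun y y' F r1 r2 =>
    farXB_cert (s1 := true) (s2 := false) rfl hκ (ka0 hκ hx hx') (xa0 hx) hx' (covF71 hx hx') (covF62 hx hx') (x1 hx) (x2 hx')
        Pool.Agent.Strip051.G.IE1.Tab.C.FB76.c_pm_112 noCut_VB noExt_VB F r1 r2 r1 r2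

theorem FB76_pm_113 {κ x : ℝ} (hκ : κ * h0 = kenE x) (hx : 39 / 40 ≤ x) (hx' : x < 1) :
    TriB (DD x).cur (farD κ (h0 * x) (tbl tKF x) (tbl tL x)) 1 1 3 7 6 1 (-1) :=
  (sideF hx hx').farB (Or.inl rfl) (Or.inr rfl) fun y y' F r1 r2 =>
    farXB_cert (s1 := true) (s2 := false) rfl hκ (ka0 hκ hx hx') (xa0 hx) hx' (covF71 hx hx') (covF63 hx hx') (x1 hx) (x2 hx')
        Pool.Agent.Strip051.G.IE1.Tab.C.FB76.c_pm_113 noCut_VB noExt_VB F r1 r2 r1 r2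

theorem FB76_pm_123 {κ x : ℝ} (hκ : κ * h0 = kenE x) (hx : 39 / 40 ≤ x) (hx' : x < 1) :
    TriB (DD x).cur (farD κ (h0 * x) (tbl tKF x) (tbl tL x)) 1 2 3 7 6 1 (-1) :=
  (sideF hx hx').farB (Or.inl rfl) (Or.inr rfl) fun y y' F r1 r2 =>
    farXB_cert (s1 := true) (s2 := false) rfl hκ (ka0 hκ hx hx') (xa0 hx) hx' (covF71 hx hx') (covF63 hx hx') (x1 hx) (x2 hx')
        Pool.Agent.Strip051.G.IE1.Tab.C.FB76.c_pm_123 noCut_VB noExt_VB F r1 r2 r1 r2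

theorem FB76_pm_133 {κ x : ℝ} (hκ : κ * h0 = kenE x) (hx : 39 / 40 ≤ x) (hx' : x < 1) :
    TriB (DD x).cur (farD κ (h0 * x) (tbl tKF x) (tbl tL x)) 1 3 3 7 6 1 (-1) :=
  (sideF hx hx').farB (Or.inl rfl) (Or.inr rfl) fun y y' F r1 r2 =>
    farXB_cert (s1 := true) (s2 := false) rfl hκ (ka0 hκ hx hx') (xa0 hx) hx' (covF71 hx hx') (covF63 hx hx') (x1 hx) (x2 hx')
        Pool.Agent.Strip051.G.IE1.Tab.C.FB76.c_pm_133 noCut_VB noExt_VB F r1 r2 r1 r2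

theorem FB76_pm_202 {κ x : ℝ} (hκ : κ * h0 = kenE x) (hx : 39 / 40 ≤ x) (hx' : x < 1) :
    TriB (DD x).cur (farD κ (h0 * x) (tbl tKF x) (tbl tL x)) 2 0 2 7 6 1 (-1) :=
  (sideF hx hx').farB (Or.inl rfl) (Or.inr rfl) fun y y' F r1 r2 =>
    farXB_cert (s1 := true) (s2 := false) rfl hκ (ka0 hκ hx hx') (xa0 hx) hx' (covF72 hx hx') (covF62 hx hx') (x1 hx) (x2 hx')
        Pool.Agent.Strip051.G.IE1.Tab.C.FB76.c_pm_202 noCut_VB noExt_VB F r1 r2 r1 r2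

theorem FB76_pm_203 {κ x : ℝ} (hκ : κ * h0 = kenE x) (hx : 39 / 40 ≤ x) (hx' : x < 1) :
    TriB (DD x).cur (farD κ (h0 * x) (tbl tKF x) (tbl tL x)) 2 0 3 7 6 1 (-1) :=
  (sideF hx hx').farB (Or.inl rfl) (Or.inr rfl) fun y y' F r1 r2 =>
    farXB_cert (s1 := true) (s2 := false) rfl hκ (ka0 hκ hx hx') (xa0 hx) hx' (covF72 hx hx') (covF63 hx hx') (x1 hx) (x2 hx')
        Pool.Agent.Strip051.G.IE1.Tab.C.FB76.c_pm_203 noCut_VB noExt_VB F r1 r2 r1 r2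

theorem FB76_pm_213 {κ x : ℝ} (hκ : κ * h0 = kenE x) (hx : 39 / 40 ≤ x) (hx' : x < 1) :
    TriB (DD x).cur (farD κ (h0 * x) (tbl tKF x) (tbl tL x)) 2 1 3 7 6 1 (-1) :=
  (sideF hx hx').farB (Or.inl rfl) (Or.inr rfl) fun y y' F r1 r2 =>
    farXB_cert (s1 := true) (s2 := false) rfl hκ (ka0 hκ hx hx') (xa0 hx) hx' (covF72 hx hx') (covF63 hx hx') (x1 hx) (x2 hx')
        Pool.Agent.Strip051.G.IE1.Tab.C.FB76.c_pm_213 noCut_VB noExt_VB F r1 r2 r1 r2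

theorem FB76_pm_303 {κ x : ℝ} (hκ : κ * h0 = kenE x) (hx : 39 / 40 ≤ x) (hx' : x < 1) :
    TriB (DD x).cur (farD κ (h0 * x) (tbl tKF x) (tbl tL x)) 3 0 3 7 6 1 (-1) :=
  (sideF hx hx').farB (Or.inl rfl) (Or.inr rfl) fun y y' F r1 r2 =>
    farXB_cert (s1 := true) (s2 := false) rfl hκ (ka0 hκ hx hx') (xa0 hx) hx' (covF73 hx hx') (covF63 hx hx') (x1 hx) (x2 hx')
        Pool.Agent.Strip051.G.IE1.Tab.C.FB76.c_pm_303 noCut_VB noExt_VB F r1 r2 r1 r2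

theorem FB76_pm_313 {κ x : ℝ} (hκ : κ * h0 = kenE x) (hx : 39 / 40 ≤ x) (hx' : x < 1) :
    TriB (DD x).cur (farD κ (h0 * x) (tbl tKF x) (tbl tL x)) 3 1 3 7 6 1 (-1) :=
  (sideF hx hx').farB (Or.inl rfl) (Or.inr rfl) fun y y' F r1 r2 =>
    farXB_cert (s1 := true) (s2 := false) rfl hκ (ka0 hκ hx hx') (xa0 hx) hx' (covF73 hx hx') (covF63 hx hx') (x1 hx) (x2 hx')
        Pool.Agent.Strip051.G.IE1.Tab.C.FB76.c_pm_313 noCut_VB noExt_VB F r1 r2 r1 r2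

theorem FB76_mm_001 {κ x : ℝ} (hκ : κ * h0 = kenE x) (hx : 39 / 40 ≤ x) (hx' : x < 1) :
    TriB (DD x).cur (farD κ (h0 * x) (tbl tKF x) (tbl tL x)) 0 0 1 7 6 (-1) (-1) :=
  (sideF hx hx').farB (Or.inr rfl) (Or.inr rfl) fun y y' F r1 r2 =>
    farXB_cert (s1 := false) (s2 := false) rfl hκ (ka0 hκ hx hx') (xa0 hx) hx' (covF70 hx hx') (covF61 hx hx') (x1 hx) (x2 hx')
        Pool.Agent.Strip051.G.IE1.Tab.C.FB76.c_mm_001 noCut_VB noExt_VB F r1 r2 r1 r2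

theorem FB76_mm_011 {κ x : ℝ} (hκ : κ * h0 = kenE x) (hx : 39 / 40 ≤ x) (hx' : x < 1) :
    TriB (DD x).cur (farD κ (h0 * x) (tbl tKF x) (tbl tL x)) 0 1 1 7 6 (-1) (-1) :=
  (sideF hx hx').farB (Or.inr rfl) (Or.inr rfl) fun y y' F r1 r2 =>
    farXB_cert (s1 := false) (s2 := false) rfl hκ (ka0 hκ hx hx') (xa0 hx) hx' (covF70 hx hx') (covF61 hx hx') (x1 hx) (x2 hx')
        Pool.Agent.Strip051.G.IE1.Tab.C.FB76.c_mm_011 noCut_VB noExt_VB F r1 r2 r1 r2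

theorem FB76_mm_012 {κ x : ℝ} (hκ : κ * h0 = kenE x) (hx : 39 / 40 ≤ x) (hx' : x < 1) :
    TriB (DD x).cur (farD κ (h0 * x) (tbl tKF x) (tbl tL x)) 0 1 2 7 6 (-1) (-1) :=
  (sideF hx hx').farB (Or.inr rfl) (Or.inr rfl) fun y y' F r1 r2 =>
    farXB_cert (s1 := false) (s2 := false) rfl hκ (ka0 hκ hx hx') (xa0 hx) hx' (covF70 hx hx') (covF62 hx hx') (x1 hx) (x2 hx')
        Pool.Agent.Strip051.G.IE1.Tab.C.FB76.c_mm_012 noCut_VB noExt_VB F r1 r2 r1 r2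

theorem FB76_mm_022 {κ x : ℝ} (hκ : κ * h0 = kenE x) (hx : 39 / 40 ≤ x) (hx' : x < 1) :
    TriB (DD x).cur (farD κ (h0 * x) (tbl tKF x) (tbl tL x)) 0 2 2 7 6 (-1) (-1) :=
  (sideF hx hx').farB (Or.inr rfl) (Or.inr rfl) fun y y' F r1 r2 =>
    farXB_cert (s1 := false) (s2 := false) rfl hκ (ka0 hκ hx hx') (xa0 hx) hx' (covF70 hx hx') (covF62 hx hx') (x1 hx) (x2 hx')
        Pool.Agent.Strip051.G.IE1.Tab.C.FB76.c_mm_022 noCut_VB noExt_VB F r1 r2 r1 r2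

theorem FB76_mm_023 {κ x : ℝ} (hκ : κ * h0 = kenE x) (hx : 39 / 40 ≤ x) (hx' : x < 1) :
    TriB (DD x).cur (farD κ (h0 * x) (tbl tKF x) (tbl tL x)) 0 2 3 7 6 (-1) (-1) :=
  (sideF hx hx').farB (Or.inr rfl) (Or.inr rfl) fun y y' F r1 r2 =>
    farXB_cert (s1 := false) (s2 := false) rfl hκ (ka0 hκ hx hx') (xa0 hx) hx' (covF70 hx hx') (covF63 hx hx') (x1 hx) (x2 hx')
        Pool.Agent.Strip051.G.IE1.Tab.C.FB76.c_mm_023 noCut_VB noExt_VB F r1 r2 r1 r2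

theorem FB76_mm_033 {κ x : ℝ} (hκ : κ * h0 = kenE x) (hx : 39 / 40 ≤ x) (hx' : x < 1) :
    TriB (DD x).cur (farD κ (h0 * x) (tbl tKF x) (tbl tL x)) 0 3 3 7 6 (-1) (-1) :=
  (sideF hx hx').farB (Or.inr rfl) (Or.inr rfl) fun y y' F r1 r2 =>
    farXB_cert (s1 := false) (s2 := false) rfl hκ (ka0 hκ hx hx') (xa0 hx) hx' (covF70 hx hx') (covF63 hx hx') (x1 hx) (x2 hx')
        Pool.Agent.Strip051.G.IE1.Tab.C.FB76.c_mm_033 noCut_VB noExt_VB F r1 r2 r1 r2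

theorem FB76_mm_101 {κ x : ℝ} (hκ : κ * h0 = kenE x) (hx : 39 / 40 ≤ x) (hx' : x < 1) :
    TriB (DD x).cur (farD κ (h0 * x) (tbl tKF x) (tbl tL x)) 1 0 1 7 6 (-1) (-1) :=
  (sideF hx hx').farB (Or.inr rfl) (Or.inr rfl) fun y y' F r1 r2 =>
    farXB_cert (s1 := false) (s2 := false) rfl hκ (ka0 hκ hx hx') (xa0 hx) hx' (covF71 hx hx') (covF61 hx hx') (x1 hx) (x2 hx')
        Pool.Agent.Strip051.G.IE1.Tab.C.FB76.c_mm_101 noCut_VB noExt_VB F r1 r2 r1 r2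

theorem FB76_mm_102 {κ x : ℝ} (hκ : κ * h0 = kenE x) (hx : 39 / 40 ≤ x) (hx' : x < 1) :
    TriB (DD x).cur (farD κ (h0 * x) (tbl tKF x) (tbl tL x)) 1 0 2 7 6 (-1) (-1) :=
  (sideF hx hx').farB (Or.inr rfl) (Or.inr rfl) fun y y' F r1 r2 =>
    farXB_cert (s1 := false) (s2 := false) rfl hκ (ka0 hκ hx hx') (xa0 hx) hx' (covF71 hx hx') (covF62 hx hx') (x1 hx) (x2 hx')
        Pool.Agent.Strip051.G.IE1.Tab.C.FB76.c_mm_102 noCut_VB noExt_VB F r1 r2 r1 r2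

theorem FB76_mm_112 {κ x : ℝ} (hκ : κ * h0 = kenE x) (hx : 39 / 40 ≤ x) (hx' : x < 1) :
    TriB (DD x).cur (farD κ (h0 * x) (tbl tKF x) (tbl tL x)) 1 1 2 7 6 (-1) (-1) :=
  (sideF hx hx').farB (Or.inr rfl) (Or.inr rfl) fun y y' F r1 r2 =>
    farXB_cert (s1 := false) (s2 := false) rfl hκ (ka0 hκ hx hx') (xa0 hx) hx' (covF71 hx hx') (covF62 hx hx') (x1 hx) (x2 hx')
        Pool.Agent.Strip051.G.IE1.Tab.C.FB76.c_mm_112 noCut_VB noExt_VB F r1 r2 r1 r2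

theorem FB76_mm_113 {κ x : ℝ} (hκ : κ * h0 = kenE x) (hx : 39 / 40 ≤ x) (hx' : x < 1) :
    TriB (DD x).cur (farD κ (h0 * x) (tbl tKF x) (tbl tL x)) 1 1 3 7 6 (-1) (-1) :=
  (sideF hx hx').farB (Or.inr rfl) (Or.inr rfl) fun y y' F r1 r2 =>
    farXB_cert (s1 := false) (s2 := false) rfl hκ (ka0 hκ hx hx') (xa0 hx) hx' (covF71 hx hx') (covF63 hx hx') (x1 hx) (x2 hx')
        Pool.Agent.Strip051.G.IE1.Tab.C.FB76.c_mm_113 noCut_VB noExt_VB F r1 r2 r1 r2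

theorem FB76_mm_123 {κ x : ℝ} (hκ : κ * h0 = kenE x) (hx : 39 / 40 ≤ x) (hx' : x < 1) :
    TriB (DD x).cur (farD κ (h0 * x) (tbl tKF x) (tbl tL x)) 1 2 3 7 6 (-1) (-1) :=
  (sideF hx hx').farB (Or.inr rfl) (Or.inr rfl) fun y y' F r1 r2 =>
    farXB_cert (s1 := false) (s2 := false) rfl hκ (ka0 hκ hx hx') (xa0 hx) hx' (covF71 hx hx') (covF63 hx hx') (x1 hx) (x2 hx')
        Pool.Agent.Strip051.G.IE1.Tab.C.FB76.c_mm_123 noCut_VB noExt_VB F r1 r2 r1 r2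

theorem FB76_mm_133 {κ x : ℝ} (hκ : κ * h0 = kenE x) (hx : 39 / 40 ≤ x) (hx' : x < 1) :
    TriB (DD x).cur (farD κ (h0 * x) (tbl tKF x) (tbl tL x)) 1 3 3 7 6 (-1) (-1) :=
  (sideF hx hx').farB (Or.inr rfl) (Or.inr rfl) fun y y' F r1 r2 =>
    farXB_cert (s1 := false) (s2 := false) rfl hκ (ka0 hκ hx hx') (xa0 hx) hx' (covF71 hx hx') (covF63 hx hx') (x1 hx) (x2 hx')
        Pool.Agent.Strip051.G.IE1.Tab.C.FB76.c_mm_133 noCut_VB noExt_VB F r1 r2 r1 r2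

theorem FB76_mm_202 {κ x : ℝ} (hκ : κ * h0 = kenE x) (hx : 39 / 40 ≤ x) (hx' : x < 1) :
    TriB (DD x).cur (farD κ (h0 * x) (tbl tKF x) (tbl tL x)) 2 0 2 7 6 (-1) (-1) :=
  (sideF hx hx').farB (Or.inr rfl) (Or.inr rfl) fun y y' F r1 r2 =>
    farXB_cert (s1 := false) (s2 := false) rfl hκ (ka0 hκ hx hx') (xa0 hx) hx' (covF72 hx hx') (covF62 hx hx') (x1 hx) (x2 hx')
        Pool.Agent.Strip051.G.IE1.Tab.C.FB76.c_mm_202 noCut_VB noExt_VB F r1 r2 r1 r2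

theorem FB76_mm_203 {κ x : ℝ} (hκ : κ * h0 = kenE x) (hx : 39 / 40 ≤ x) (hx' : x < 1) :
    TriB (DD x).cur (farD κ (h0 * x) (tbl tKF x) (tbl tL x)) 2 0 3 7 6 (-1) (-1) :=
  (sideF hx hx').farB (Or.inr rfl) (Or.inr rfl) fun y y' F r1 r2 =>
    farXB_cert (s1 := false) (s2 := false) rfl hκ (ka0 hκ hx hx') (xa0 hx) hx' (covF72 hx hx') (covF63 hx hx') (x1 hx) (x2 hx')
        Pool.Agent.Strip051.G.IE1.Tab.C.FB76.c_mm_203 noCut_VB noExt_VB F r1 r2 r1 r2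

theorem FB76_mm_213 {κ x : ℝ} (hκ : κ * h0 = kenE x) (hx : 39 / 40 ≤ x) (hx' : x < 1) :
    TriB (DD x).cur (farD κ (h0 * x) (tbl tKF x) (tbl tL x)) 2 1 3 7 6 (-1) (-1) :=
  (sideF hx hx').farB (Or.inr rfl) (Or.inr rfl) fun y y' F r1 r2 =>
    farXB_cert (s1 := false) (s2 := false) rfl hκ (ka0 hκ hx hx') (xa0 hx) hx' (covF72 hx hx') (covF63 hx hx') (x1 hx) (x2 hx')
        Pool.Agent.Strip051.G.IE1.Tab.C.FB76.c_mm_213 noCut_VB noExt_VB F r1 r2 r1 r2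

theorem FB76_mm_303 {κ x : ℝ} (hκ : κ * h0 = kenE x) (hx : 39 / 40 ≤ x) (hx' : x < 1) :
    TriB (DD x).cur (farD κ (h0 * x) (tbl tKF x) (tbl tL x)) 3 0 3 7 6 (-1) (-1) :=
  (sideF hx hx').farB (Or.inr rfl) (Or.inr rfl) fun y y' F r1 r2 =>
    farXB_cert (s1 := false) (s2 := false) rfl hκ (ka0 hκ hx hx') (xa0 hx) hx' (covF73 hx hx') (covF63 hx hx') (x1 hx) (x2 hx')
        Pool.Agent.Strip051.G.IE1.Tab.C.FB76.c_mm_303 noCut_VB noExt_VB F r1 r2 r1 r2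

theorem FB76_mm_313 {κ x : ℝ} (hκ : κ * h0 = kenE x) (hx : 39 / 40 ≤ x) (hx' : x < 1) :
    TriB (DD x).cur (farD κ (h0 * x) (tbl tKF x) (tbl tL x)) 3 1 3 7 6 (-1) (-1) :=
  (sideF hx hx').farB (Or.inr rfl) (Or.inr rfl) fun y y' F r1 r2 =>
    farXB_cert (s1 := false) (s2 := false) rfl hκ (ka0 hκ hx hx') (xa0 hx) hx' (covF73 hx hx') (covF63 hx hx') (x1 hx) (x2 hx')
        Pool.Agent.Strip051.G.IE1.Tab.C.FB76.c_mm_313 noCut_VB noExt_VB F r1 r2 r1 r2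

theorem FB76 {κ x : ℝ} (hκ : κ * h0 = kenE x) (hx : 39 / 40 ≤ x) (hx' : x < 1) : AllTB (DD x).cur (farD κ (h0 * x) (tbl tKF x) (tbl tL x)) 7 6 where
  pp := all17 (Q := fun a b c => TriB (DD x).cur (farD κ (h0 * x) (tbl tKF x) (tbl tL x)) a b c 7 6 1 1)
    (FB76_pp_001 hκ hx hx') (FB76_pp_011 hκ hx hx') (FB76_pp_012 hκ hx hx') (FB76_pp_022 hκ hx hx') (FB76_pp_023 hκ hx hx') (FB76_pp_033 hκ hx hx') (FB76_pp_101 hκ hx hx') (FB76_pp_102 hκ hx hx') (FB76_pp_112 hκ hx hx') (FB76_pp_113 hκ hx hx') (FB76_pp_123 hκ hx hx') (FB76_pp_133 hκ hx hx') (FB76_pp_202 hκ hx hx') (FB76_pp_203 hκ hx hx') (FB76_pp_213 hκ hx hx') (FB76_pp_303 hκ hx hx') (FB76_pp_313 hκ hx hx')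
  pm := all17 (Q := fun a b c => TriB (DD x).cur (farD κ (h0 * x) (tbl tKF x) (tbl tL x)) a b c 7 6 1 (-1))
    (FB76_pm_001 hκ hx hx') (FB76_pm_011 hκ hx hx') (FB76_pm_012 hκ hx hx') (FB76_pm_022 hκ hx hx') (FB76_pm_023 hκ hx hx') (FB76_pm_033 hκ hx hx') (FB76_pm_101 hκ hx hx') (FB76_pm_102 hκ hx hx') (FB76_pm_112 hκ hx hx') (FB76_pm_113 hκ hx hx') (FB76_pm_123 hκ hx hx') (FB76_pm_133 hκ hx hx') (FB76_pm_202 hκ hx hx') (FB76_pm_203 hκ hx hx') (FB76_pm_213 hκ hx hx') (FB76_pm_303 hκ hx hx') (FB76_pm_313 hκ hx hx')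
  mm := all17 (Q := fun a b c => TriB (DD x).cur (farD κ (h0 * x) (tbl tKF x) (tbl tL x)) a b c 7 6 (-1) (-1))
    (FB76_mm_001 hκ hx hx') (FB76_mm_011 hκ hx hx') (FB76_mm_012 hκ hx hx') (FB76_mm_022 hκ hx hx') (FB76_mm_023 hκ hx hx') (FB76_mm_033 hκ hx hx') (FB76_mm_101 hκ hx hx') (FB76_mm_102 hκ hx hx') (FB76_mm_112 hκ hx hx') (FB76_mm_113 hκ hx hx') (FB76_mm_123 hκ hx hx') (FB76_mm_133 hκ hx hx') (FB76_mm_202 hκ hx hx') (FB76_mm_203 hκ hx hx') (FB76_mm_213 hκ hx hx') (FB76_mm_303 hκ hx hx') (FB76_mm_313 hκ hx hx')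

theorem FB77_pp_001 {κ x : ℝ} (hκ : κ * h0 = kenE x) (hx : 39 / 40 ≤ x) (hx' : x < 1) :
    TriB (DD x).cur (farD κ (h0 * x) (tbl tKF x) (tbl tL x)) 0 0 1 7 7 1 1 :=
  (sideF hx hx').farB (Or.inl rfl) (Or.inl rfl) fun y y' F r1 r2 =>
    farXB_cert (s1 := true) (s2 := true) rfl hκ (ka0 hκ hx hx') (xa0 hx) hx' (covF70 hx hx') (covF71 hx hx') (x1 hx) (x2 hx')
        Pool.Agent.Strip051.G.IE1.Tab.C.FB77.c_pp_001 noCut_VB noExt_VB F r1 r2 r1 r2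

theorem FB77_pp_011 {κ x : ℝ} (hκ : κ * h0 = kenE x) (hx : 39 / 40 ≤ x) (hx' : x < 1) :
    TriB (DD x).cur (farD κ (h0 * x) (tbl tKF x) (tbl tL x)) 0 1 1 7 7 1 1 :=
  (sideF hx hx').farB (Or.inl rfl) (Or.inl rfl) fun y y' F r1 r2 =>
    farXB_cert (s1 := true) (s2 := true) rfl hκ (ka0 hκ hx hx') (xa0 hx) hx' (covF70 hx hx') (covF71 hx hx') (x1 hx) (x2 hx')
        Pool.Agent.Strip051.G.IE1.Tab.C.FB77.c_pp_011 noCut_VB noExt_VB F r1 r2 r1 r2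

theorem FB77_pp_012 {κ x : ℝ} (hκ : κ * h0 = kenE x) (hx : 39 / 40 ≤ x) (hx' : x < 1) :
    TriB (DD x).cur (farD κ (h0 * x) (tbl tKF x) (tbl tL x)) 0 1 2 7 7 1 1 :=
  (sideF hx hx').farB (Or.inl rfl) (Or.inl rfl) fun y y' F r1 r2 =>
    farXB_cert (s1 := true) (s2 := true) rfl hκ (ka0 hκ hx hx') (xa0 hx) hx' (covF70 hx hx') (covF72 hx hx') (x1 hx) (x2 hx')
        Pool.Agent.Strip051.G.IE1.Tab.C.FB77.c_pp_012 noCut_VB noExt_VB F r1 r2 r1 r2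

theorem FB77_pp_022 {κ x : ℝ} (hκ : κ * h0 = kenE x) (hx : 39 / 40 ≤ x) (hx' : x < 1) :
    TriB (DD x).cur (farD κ (h0 * x) (tbl tKF x) (tbl tL x)) 0 2 2 7 7 1 1 :=
  (sideF hx hx').farB (Or.inl rfl) (Or.inl rfl) fun y y' F r1 r2 =>
    farXB_cert (s1 := true) (s2 := true) rfl hκ (ka0 hκ hx hx') (xa0 hx) hx' (covF70 hx hx') (covF72 hx hx') (x1 hx) (x2 hx')
        Pool.Agent.Strip051.G.IE1.Tab.C.FB77.c_pp_022 noCut_VB noExt_VB F r1 r2 r1 r2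

theorem FB77_pp_023 {κ x : ℝ} (hκ : κ * h0 = kenE x) (hx : 39 / 40 ≤ x) (hx' : x < 1) :
    TriB (DD x).cur (farD κ (h0 * x) (tbl tKF x) (tbl tL x)) 0 2 3 7 7 1 1 :=
  (sideF hx hx').farB (Or.inl rfl) (Or.inl rfl) fun y y' F r1 r2 =>
    farXB_cert (s1 := true) (s2 := true) rfl hκ (ka0 hκ hx hx') (xa0 hx) hx' (covF70 hx hx') (covF73 hx hx') (x1 hx) (x2 hx')
        Pool.Agent.Strip051.G.IE1.Tab.C.FB77.c_pp_023 noCut_VB noExt_VB F r1 r2 r1 r2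

theorem FB77_pp_033 {κ x : ℝ} (hκ : κ * h0 = kenE x) (hx : 39 / 40 ≤ x) (hx' : x < 1) :
    TriB (DD x).cur (farD κ (h0 * x) (tbl tKF x) (tbl tL x)) 0 3 3 7 7 1 1 :=
  (sideF hx hx').farB (Or.inl rfl) (Or.inl rfl) fun y y' F r1 r2 =>
    farXB_cert (s1 := true) (s2 := true) rfl hκ (ka0 hκ hx hx') (xa0 hx) hx' (covF70 hx hx') (covF73 hx hx') (x1 hx) (x2 hx')
        Pool.Agent.Strip051.G.IE1.Tab.C.FB77.c_pp_033 noCut_VB noExt_VB F r1 r2 r1 r2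

theorem FB77_pp_101 {κ x : ℝ} (hκ : κ * h0 = kenE x) (hx : 39 / 40 ≤ x) (hx' : x < 1) :
    TriB (DD x).cur (farD κ (h0 * x) (tbl tKF x) (tbl tL x)) 1 0 1 7 7 1 1 :=
  (sideF hx hx').farB (Or.inl rfl) (Or.inl rfl) fun y y' F r1 r2 =>
    farXB_cert (s1 := true) (s2 := true) rfl hκ (ka0 hκ hx hx') (xa0 hx) hx' (covF71 hx hx') (covF71 hx hx') (x1 hx) (x2 hx')
        Pool.Agent.Strip051.G.IE1.Tab.C.FB77.c_pp_101 noCut_VB noExt_VB F r1 r2 r1 r2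

theorem FB77_pp_102 {κ x : ℝ} (hκ : κ * h0 = kenE x) (hx : 39 / 40 ≤ x) (hx' : x < 1) :
    TriB (DD x).cur (farD κ (h0 * x) (tbl tKF x) (tbl tL x)) 1 0 2 7 7 1 1 :=
  (sideF hx hx').farB (Or.inl rfl) (Or.inl rfl) fun y y' F r1 r2 =>
    farXB_cert (s1 := true) (s2 := true) rfl hκ (ka0 hκ hx hx') (xa0 hx) hx' (covF71 hx hx') (covF72 hx hx') (x1 hx) (x2 hx')
        Pool.Agent.Strip051.G.IE1.Tab.C.FB77.c_pp_102 noCut_VB noExt_VB F r1 r2 r1 r2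

theorem FB77_pp_112 {κ x : ℝ} (hκ : κ * h0 = kenE x) (hx : 39 / 40 ≤ x) (hx' : x < 1) :
    TriB (DD x).cur (farD κ (h0 * x) (tbl tKF x) (tbl tL x)) 1 1 2 7 7 1 1 :=
  (sideF hx hx').farB (Or.inl rfl) (Or.inl rfl) fun y y' F r1 r2 =>
    farXB_cert (s1 := true) (s2 := true) rfl hκ (ka0 hκ hx hx') (xa0 hx) hx' (covF71 hx hx') (covF72 hx hx') (x1 hx) (x2 hx')
        Pool.Agent.Strip051.G.IE1.Tab.C.FB77.c_pp_112 noCut_VB noExt_VB F r1 r2 r1 r2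

theorem FB77_pp_113 {κ x : ℝ} (hκ : κ * h0 = kenE x) (hx : 39 / 40 ≤ x) (hx' : x < 1) :
    TriB (DD x).cur (farD κ (h0 * x) (tbl tKF x) (tbl tL x)) 1 1 3 7 7 1 1 :=
  (sideF hx hx').farB (Or.inl rfl) (Or.inl rfl) fun y y' F r1 r2 =>
    farXB_cert (s1 := true) (s2 := true) rfl hκ (ka0 hκ hx hx') (xa0 hx) hx' (covF71 hx hx') (covF73 hx hx') (x1 hx) (x2 hx')
        Pool.Agent.Strip051.G.IE1.Tab.C.FB77.c_pp_113 noCut_VB noExt_VB F r1 r2 r1 r2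

theorem FB77_pp_123 {κ x : ℝ} (hκ : κ * h0 = kenE x) (hx : 39 / 40 ≤ x) (hx' : x < 1) :
    TriB (DD x).cur (farD κ (h0 * x) (tbl tKF x) (tbl tL x)) 1 2 3 7 7 1 1 :=
  (sideF hx hx').farB (Or.inl rfl) (Or.inl rfl) fun y y' F r1 r2 =>
    farXB_cert (s1 := true) (s2 := true) rfl hκ (ka0 hκ hx hx') (xa0 hx) hx' (covF71 hx hx') (covF73 hx hx') (x1 hx) (x2 hx')
        Pool.Agent.Strip051.G.IE1.Tab.C.FB77.c_pp_123 noCut_VB noExt_VB F r1 r2 r1 r2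

theorem FB77_pp_133 {κ x : ℝ} (hκ : κ * h0 = kenE x) (hx : 39 / 40 ≤ x) (hx' : x < 1) :
    TriB (DD x).cur (farD κ (h0 * x) (tbl tKF x) (tbl tL x)) 1 3 3 7 7 1 1 :=
  (sideF hx hx').farB (Or.inl rfl) (Or.inl rfl) fun y y' F r1 r2 =>
    farXB_cert (s1 := true) (s2 := true) rfl hκ (ka0 hκ hx hx') (xa0 hx) hx' (covF71 hx hx') (covF73 hx hx') (x1 hx) (x2 hx')
        Pool.Agent.Strip051.G.IE1.Tab.C.FB77.c_pp_133 noCut_VB noExt_VB F r1 r2 r1 r2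

theorem FB77_pp_202 {κ x : ℝ} (hκ : κ * h0 = kenE x) (hx : 39 / 40 ≤ x) (hx' : x < 1) :
    TriB (DD x).cur (farD κ (h0 * x) (tbl tKF x) (tbl tL x)) 2 0 2 7 7 1 1 :=
  (sideF hx hx').farB (Or.inl rfl) (Or.inl rfl) fun y y' F r1 r2 =>
    farXB_cert (s1 := true) (s2 := true) rfl hκ (ka0 hκ hx hx') (xa0 hx) hx' (covF72 hx hx') (covF72 hx hx') (x1 hx) (x2 hx')
        Pool.Agent.Strip051.G.IE1.Tab.C.FB77.c_pp_202 noCut_VB noExt_VB F r1 r2 r1 r2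

theorem FB77_pp_203 {κ x : ℝ} (hκ : κ * h0 = kenE x) (hx : 39 / 40 ≤ x) (hx' : x < 1) :
    TriB (DD x).cur (farD κ (h0 * x) (tbl tKF x) (tbl tL x)) 2 0 3 7 7 1 1 :=
  (sideF hx hx').farB (Or.inl rfl) (Or.inl rfl) fun y y' F r1 r2 =>
    farXB_cert (s1 := true) (s2 := true) rfl hκ (ka0 hκ hx hx') (xa0 hx) hx' (covF72 hx hx') (covF73 hx hx') (x1 hx) (x2 hx')
        Pool.Agent.Strip051.G.IE1.Tab.C.FB77.c_pp_203 noCut_VB noExt_VB F r1 r2 r1 r2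

theorem FB77_pp_213 {κ x : ℝ} (hκ : κ * h0 = kenE x) (hx : 39 / 40 ≤ x) (hx' : x < 1) :
    TriB (DD x).cur (farD κ (h0 * x) (tbl tKF x) (tbl tL x)) 2 1 3 7 7 1 1 :=
  (sideF hx hx').farB (Or.inl rfl) (Or.inl rfl) fun y y' F r1 r2 =>
    farXB_cert (s1 := true) (s2 := true) rfl hκ (ka0 hκ hx hx') (xa0 hx) hx' (covF72 hx hx') (covF73 hx hx') (x1 hx) (x2 hx')
        Pool.Agent.Strip051.G.IE1.Tab.C.FB77.c_pp_213 noCut_VB noExt_VB F r1 r2 r1 r2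

theorem FB77_pp_303 {κ x : ℝ} (hκ : κ * h0 = kenE x) (hx : 39 / 40 ≤ x) (hx' : x < 1) :
    TriB (DD x).cur (farD κ (h0 * x) (tbl tKF x) (tbl tL x)) 3 0 3 7 7 1 1 :=
  (sideF hx hx').farB (Or.inl rfl) (Or.inl rfl) fun y y' F r1 r2 =>
    farXB_cert (s1 := true) (s2 := true) rfl hκ (ka0 hκ hx hx') (xa0 hx) hx' (covF73 hx hx') (covF73 hx hx') (x1 hx) (x2 hx')
        Pool.Agent.Strip051.G.IE1.Tab.C.FB77.c_pp_303 noCut_VB noExt_VB F r1 r2 r1 r2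

theorem FB77_pp_313 {κ x : ℝ} (hκ : κ * h0 = kenE x) (hx : 39 / 40 ≤ x) (hx' : x < 1) :
    TriB (DD x).cur (farD κ (h0 * x) (tbl tKF x) (tbl tL x)) 3 1 3 7 7 1 1 :=
  (sideF hx hx').farB (Or.inl rfl) (Or.inl rfl) fun y y' F r1 r2 =>
    farXB_cert (s1 := true) (s2 := true) rfl hκ (ka0 hκ hx hx') (xa0 hx) hx' (covF73 hx hx') (covF73 hx hx') (x1 hx) (x2 hx')
        Pool.Agent.Strip051.G.IE1.Tab.C.FB77.c_pp_313 noCut_VB noExt_VB F r1 r2 r1 r2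

theorem FB77_pm_001 {κ x : ℝ} (hκ : κ * h0 = kenE x) (hx : 39 / 40 ≤ x) (hx' : x < 1) :
    TriB (DD x).cur (farD κ (h0 * x) (tbl tKF x) (tbl tL x)) 0 0 1 7 7 1 (-1) :=
  (sideF hx hx').farB (Or.inl rfl) (Or.inr rfl) fun y y' F r1 r2 =>
    farXB_cert (s1 := true) (s2 := false) rfl hκ (ka0 hκ hx hx') (xa0 hx) hx' (covF70 hx hx') (covF71 hx hx') (x1 hx) (x2 hx')
        Pool.Agent.Strip051.G.IE1.Tab.C.FB77.c_pm_001 noCut_VB noExt_VB F r1 r2 r1 r2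

theorem FB77_pm_011 {κ x : ℝ} (hκ : κ * h0 = kenE x) (hx : 39 / 40 ≤ x) (hx' : x < 1) :
    TriB (DD x).cur (farD κ (h0 * x) (tbl tKF x) (tbl tL x)) 0 1 1 7 7 1 (-1) :=
  (sideF hx hx').farB (Or.inl rfl) (Or.inr rfl) fun y y' F r1 r2 =>
    farXB_cert (s1 := true) (s2 := false) rfl hκ (ka0 hκ hx hx') (xa0 hx) hx' (covF70 hx hx') (covF71 hx hx') (x1 hx) (x2 hx')
        Pool.Agent.Strip051.G.IE1.Tab.C.FB77.c_pm_011 noCut_VB noExt_VB F r1 r2 r1 r2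

theorem FB77_pm_012 {κ x : ℝ} (hκ : κ * h0 = kenE x) (hx : 39 / 40 ≤ x) (hx' : x < 1) :
    TriB (DD x).cur (farD κ (h0 * x) (tbl tKF x) (tbl tL x)) 0 1 2 7 7 1 (-1) :=
  (sideF hx hx').farB (Or.inl rfl) (Or.inr rfl) fun y y' F r1 r2 =>
    farXB_cert (s1 := true) (s2 := false) rfl hκ (ka0 hκ hx hx') (xa0 hx) hx' (covF70 hx hx') (covF72 hx hx') (x1 hx) (x2 hx')
        Pool.Agent.Strip051.G.IE1.Tab.C.FB77.c_pm_012 noCut_VB noExt_VB F r1 r2 r1 r2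

theorem FB77_pm_022 {κ x : ℝ} (hκ : κ * h0 = kenE x) (hx : 39 / 40 ≤ x) (hx' : x < 1) :
    TriB (DD x).cur (farD κ (h0 * x) (tbl tKF x) (tbl tL x)) 0 2 2 7 7 1 (-1) :=
  (sideF hx hx').farB (Or.inl rfl) (Or.inr rfl) fun y y' F r1 r2 =>
    farXB_cert (s1 := true) (s2 := false) rfl hκ (ka0 hκ hx hx') (xa0 hx) hx' (covF70 hx hx') (covF72 hx hx') (x1 hx) (x2 hx')
        Pool.Agent.Strip051.G.IE1.Tab.C.FB77.c_pm_022 noCut_VB noExt_VB F r1 r2 r1 r2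

theorem FB77_pm_023 {κ x : ℝ} (hκ : κ * h0 = kenE x) (hx : 39 / 40 ≤ x) (hx' : x < 1) :
    TriB (DD x).cur (farD κ (h0 * x) (tbl tKF x) (tbl tL x)) 0 2 3 7 7 1 (-1) :=
  (sideF hx hx').farB (Or.inl rfl) (Or.inr rfl) fun y y' F r1 r2 =>
    farXB_cert (s1 := true) (s2 := false) rfl hκ (ka0 hκ hx hx') (xa0 hx) hx' (covF70 hx hx') (covF73 hx hx') (x1 hx) (x2 hx')
        Pool.Agent.Strip051.G.IE1.Tab.C.FB77.c_pm_023 noCut_VB noExt_VB F r1 r2 r1 r2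

theorem FB77_pm_033 {κ x : ℝ} (hκ : κ * h0 = kenE x) (hx : 39 / 40 ≤ x) (hx' : x < 1) :
    TriB (DD x).cur (farD κ (h0 * x) (tbl tKF x) (tbl tL x)) 0 3 3 7 7 1 (-1) :=
  (sideF hx hx').farB (Or.inl rfl) (Or.inr rfl) fun y y' F r1 r2 =>
    farXB_cert (s1 := true) (s2 := false) rfl hκ (ka0 hκ hx hx') (xa0 hx) hx' (covF70 hx hx') (covF73 hx hx') (x1 hx) (x2 hx')
        Pool.Agent.Strip051.G.IE1.Tab.C.FB77.c_pm_033 noCut_VB noExt_VB F r1 r2 r1 r2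

theorem FB77_pm_101 {κ x : ℝ} (hκ : κ * h0 = kenE x) (hx : 39 / 40 ≤ x) (hx' : x < 1) :
    TriB (DD x).cur (farD κ (h0 * x) (tbl tKF x) (tbl tL x)) 1 0 1 7 7 1 (-1) :=
  (sideF hx hx').farB (Or.inl rfl) (Or.inr rfl) fun y y' F r1 r2 =>
    farXB_cert (s1 := true) (s2 := false) rfl hκ (ka0 hκ hx hx') (xa0 hx) hx' (covF71 hx hx') (covF71 hx hx') (x1 hx) (x2 hx')
        Pool.Agent.Strip051.G.IE1.Tab.C.FB77.c_pm_101 noCut_VB noExt_VB F r1 r2 r1 r2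

theorem FB77_pm_102 {κ x : ℝ} (hκ : κ * h0 = kenE x) (hx : 39 / 40 ≤ x) (hx' : x < 1) :
    TriB (DD x).cur (farD κ (h0 * x) (tbl tKF x) (tbl tL x)) 1 0 2 7 7 1 (-1) :=
  (sideF hx hx').farB (Or.inl rfl) (Or.inr rfl) fun y y' F r1 r2 =>
    farXB_cert (s1 := true) (s2 := false) rfl hκ (ka0 hκ hx hx') (xa0 hx) hx' (covF71 hx hx') (covF72 hx hx') (x1 hx) (x2 hx')
        Pool.Agent.Strip051.G.IE1.Tab.C.FB77.c_pm_102 noCut_VB noExt_VB F r1 r2 r1 r2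

theorem FB77_pm_112 {κ x : ℝ} (hκ : κ * h0 = kenE x) (hx : 39 / 40 ≤ x) (hx' : x < 1) :
    TriB (DD x).cur (farD κ (h0 * x) (tbl tKF x) (tbl tL x)) 1 1 2 7 7 1 (-1) :=
  (sideF hx hx').farB (Or.inl rfl) (Or.inr rfl) fun y y' F r1 r2 =>
    farXB_cert (s1 := true) (s2 := false) rfl hκ (ka0 hκ hx hx') (xa0 hx) hx' (covF71 hx hx') (covF72 hx hx') (x1 hx) (x2 hx')
        Pool.Agent.Strip051.G.IE1.Tab.C.FB77.c_pm_112 noCut_VB noExt_VB F r1 r2 r1 r2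

theorem FB77_pm_113 {κ x : ℝ} (hκ : κ * h0 = kenE x) (hx : 39 / 40 ≤ x) (hx' : x < 1) :
    TriB (DD x).cur (farD κ (h0 * x) (tbl tKF x) (tbl tL x)) 1 1 3 7 7 1 (-1) :=
  (sideF hx hx').farB (Or.inl rfl) (Or.inr rfl) fun y y' F r1 r2 =>
    farXB_cert (s1 := true) (s2 := false) rfl hκ (ka0 hκ hx hx') (xa0 hx) hx' (covF71 hx hx') (covF73 hx hx') (x1 hx) (x2 hx')
        Pool.Agent.Strip051.G.IE1.Tab.C.FB77.c_pm_113 noCut_VB noExt_VB F r1 r2 r1 r2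

theorem FB77_pm_123 {κ x : ℝ} (hκ : κ * h0 = kenE x) (hx : 39 / 40 ≤ x) (hx' : x < 1) :
    TriB (DD x).cur (farD κ (h0 * x) (tbl tKF x) (tbl tL x)) 1 2 3 7 7 1 (-1) :=
  (sideF hx hx').farB (Or.inl rfl) (Or.inr rfl) fun y y' F r1 r2 =>
    farXB_cert (s1 := true) (s2 := false) rfl hκ (ka0 hκ hx hx') (xa0 hx) hx' (covF71 hx hx') (covF73 hx hx') (x1 hx) (x2 hx')
        Pool.Agent.Strip051.G.IE1.Tab.C.FB77.c_pm_123 noCut_VB noExt_VB F r1 r2 r1 r2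

theorem FB77_pm_133 {κ x : ℝ} (hκ : κ * h0 = kenE x) (hx : 39 / 40 ≤ x) (hx' : x < 1) :
    TriB (DD x).cur (farD κ (h0 * x) (tbl tKF x) (tbl tL x)) 1 3 3 7 7 1 (-1) :=
  (sideF hx hx').farB (Or.inl rfl) (Or.inr rfl) fun y y' F r1 r2 =>
    farXB_cert (s1 := true) (s2 := false) rfl hκ (ka0 hκ hx hx') (xa0 hx) hx' (covF71 hx hx') (covF73 hx hx') (x1 hx) (x2 hx')
        Pool.Agent.Strip051.G.IE1.Tab.C.FB77.c_pm_133 noCut_VB noExt_VB F r1 r2 r1 r2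

theorem FB77_pm_202 {κ x : ℝ} (hκ : κ * h0 = kenE x) (hx : 39 / 40 ≤ x) (hx' : x < 1) :
    TriB (DD x).cur (farD κ (h0 * x) (tbl tKF x) (tbl tL x)) 2 0 2 7 7 1 (-1) :=
  (sideF hx hx').farB (Or.inl rfl) (Or.inr rfl) fun y y' F r1 r2 =>
    farXB_cert (s1 := true) (s2 := false) rfl hκ (ka0 hκ hx hx') (xa0 hx) hx' (covF72 hx hx') (covF72 hx hx') (x1 hx) (x2 hx')
        Pool.Agent.Strip051.G.IE1.Tab.C.FB77.c_pm_202 noCut_VB noExt_VB F r1 r2 r1 r2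

theorem FB77_pm_203 {κ x : ℝ} (hκ : κ * h0 = kenE x) (hx : 39 / 40 ≤ x) (hx' : x < 1) :
    TriB (DD x).cur (farD κ (h0 * x) (tbl tKF x) (tbl tL x)) 2 0 3 7 7 1 (-1) :=
  (sideF hx hx').farB (Or.inl rfl) (Or.inr rfl) fun y y' F r1 r2 =>
    farXB_cert (s1 := true) (s2 := false) rfl hκ (ka0 hκ hx hx') (xa0 hx) hx' (covF72 hx hx') (covF73 hx hx') (x1 hx) (x2 hx')
        Pool.Agent.Strip051.G.IE1.Tab.C.FB77.c_pm_203 noCut_VB noExt_VB F r1 r2 r1 r2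

theorem FB77_pm_213 {κ x : ℝ} (hκ : κ * h0 = kenE x) (hx : 39 / 40 ≤ x) (hx' : x < 1) :
    TriB (DD x).cur (farD κ (h0 * x) (tbl tKF x) (tbl tL x)) 2 1 3 7 7 1 (-1) :=
  (sideF hx hx').farB (Or.inl rfl) (Or.inr rfl) fun y y' F r1 r2 =>
    farXB_cert (s1 := true) (s2 := false) rfl hκ (ka0 hκ hx hx') (xa0 hx) hx' (covF72 hx hx') (covF73 hx hx') (x1 hx) (x2 hx')
        Pool.Agent.Strip051.G.IE1.Tab.C.FB77.c_pm_213 noCut_VB noExt_VB F r1 r2 r1 r2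

theorem FB77_pm_303 {κ x : ℝ} (hκ : κ * h0 = kenE x) (hx : 39 / 40 ≤ x) (hx' : x < 1) :
    TriB (DD x).cur (farD κ (h0 * x) (tbl tKF x) (tbl tL x)) 3 0 3 7 7 1 (-1) :=
  (sideF hx hx').farB (Or.inl rfl) (Or.inr rfl) fun y y' F r1 r2 =>
    farXB_cert (s1 := true) (s2 := false) rfl hκ (ka0 hκ hx hx') (xa0 hx) hx' (covF73 hx hx') (covF73 hx hx') (x1 hx) (x2 hx')
        Pool.Agent.Strip051.G.IE1.Tab.C.FB77.c_pm_303 noCut_VB noExt_VB F r1 r2 r1 r2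

theorem FB77_pm_313 {κ x : ℝ} (hκ : κ * h0 = kenE x) (hx : 39 / 40 ≤ x) (hx' : x < 1) :
    TriB (DD x).cur (farD κ (h0 * x) (tbl tKF x) (tbl tL x)) 3 1 3 7 7 1 (-1) :=
  (sideF hx hx').farB (Or.inl rfl) (Or.inr rfl) fun y y' F r1 r2 =>
    farXB_cert (s1 := true) (s2 := false) rfl hκ (ka0 hκ hx hx') (xa0 hx) hx' (covF73 hx hx') (covF73 hx hx') (x1 hx) (x2 hx')
        Pool.Agent.Strip051.G.IE1.Tab.C.FB77.c_pm_313 noCut_VB noExt_VB F r1 r2 r1 r2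

theorem FB77_mm_001 {κ x : ℝ} (hκ : κ * h0 = kenE x) (hx : 39 / 40 ≤ x) (hx' : x < 1) :
    TriB (DD x).cur (farD κ (h0 * x) (tbl tKF x) (tbl tL x)) 0 0 1 7 7 (-1) (-1) :=
  (sideF hx hx').farB (Or.inr rfl) (Or.inr rfl) fun y y' F r1 r2 =>
    farXB_cert (s1 := false) (s2 := false) rfl hκ (ka0 hκ hx hx') (xa0 hx) hx' (covF70 hx hx') (covF71 hx hx') (x1 hx) (x2 hx')
        Pool.Agent.Strip051.G.IE1.Tab.C.FB77.c_mm_001 noCut_VB noExt_VB F r1 r2 r1 r2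

theorem FB77_mm_011 {κ x : ℝ} (hκ : κ * h0 = kenE x) (hx : 39 / 40 ≤ x) (hx' : x < 1) :
    TriB (DD x).cur (farD κ (h0 * x) (tbl tKF x) (tbl tL x)) 0 1 1 7 7 (-1) (-1) :=
  (sideF hx hx').farB (Or.inr rfl) (Or.inr rfl) fun y y' F r1 r2 =>
    farXB_cert (s1 := false) (s2 := false) rfl hκ (ka0 hκ hx hx') (xa0 hx) hx' (covF70 hx hx') (covF71 hx hx') (x1 hx) (x2 hx')
        Pool.Agent.Strip051.G.IE1.Tab.C.FB77.c_mm_011 noCut_VB noExt_VB F r1 r2 r1 r2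

theorem FB77_mm_012 {κ x : ℝ} (hκ : κ * h0 = kenE x) (hx : 39 / 40 ≤ x) (hx' : x < 1) :
    TriB (DD x).cur (farD κ (h0 * x) (tbl tKF x) (tbl tL x)) 0 1 2 7 7 (-1) (-1) :=
  (sideF hx hx').farB (Or.inr rfl) (Or.inr rfl) fun y y' F r1 r2 =>
    farXB_cert (s1 := false) (s2 := false) rfl hκ (ka0 hκ hx hx') (xa0 hx) hx' (covF70 hx hx') (covF72 hx hx') (x1 hx) (x2 hx')
        Pool.Agent.Strip051.G.IE1.Tab.C.FB77.c_mm_012 noCut_VB noExt_VB F r1 r2 r1 r2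

theorem FB77_mm_022 {κ x : ℝ} (hκ : κ * h0 = kenE x) (hx : 39 / 40 ≤ x) (hx' : x < 1) :
    TriB (DD x).cur (farD κ (h0 * x) (tbl tKF x) (tbl tL x)) 0 2 2 7 7 (-1) (-1) :=
  (sideF hx hx').farB (Or.inr rfl) (Or.inr rfl) fun y y' F r1 r2 =>
    farXB_cert (s1 := false) (s2 := false) rfl hκ (ka0 hκ hx hx') (xa0 hx) hx' (covF70 hx hx') (covF72 hx hx') (x1 hx) (x2 hx')
        Pool.Agent.Strip051.G.IE1.Tab.C.FB77.c_mm_022 noCut_VB noExt_VB F r1 r2 r1 r2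

theorem FB77_mm_023 {κ x : ℝ} (hκ : κ * h0 = kenE x) (hx : 39 / 40 ≤ x) (hx' : x < 1) :
    TriB (DD x).cur (farD κ (h0 * x) (tbl tKF x) (tbl tL x)) 0 2 3 7 7 (-1) (-1) :=
  (sideF hx hx').farB (Or.inr rfl) (Or.inr rfl) fun y y' F r1 r2 =>
    farXB_cert (s1 := false) (s2 := false) rfl hκ (ka0 hκ hx hx') (xa0 hx) hx' (covF70 hx hx') (covF73 hx hx') (x1 hx) (x2 hx')
        Pool.Agent.Strip051.G.IE1.Tab.C.FB77.c_mm_023 noCut_VB noExt_VB F r1 r2 r1 r2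

theorem FB77_mm_033 {κ x : ℝ} (hκ : κ * h0 = kenE x) (hx : 39 / 40 ≤ x) (hx' : x < 1) :
    TriB (DD x).cur (farD κ (h0 * x) (tbl tKF x) (tbl tL x)) 0 3 3 7 7 (-1) (-1) :=
  (sideF hx hx').farB (Or.inr rfl) (Or.inr rfl) fun y y' F r1 r2 =>
    farXB_cert (s1 := false) (s2 := false) rfl hκ (ka0 hκ hx hx') (xa0 hx) hx' (covF70 hx hx') (covF73 hx hx') (x1 hx) (x2 hx')
        Pool.Agent.Strip051.G.IE1.Tab.C.FB77.c_mm_033 noCut_VB noExt_VB F r1 r2 r1 r2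

theorem FB77_mm_101 {κ x : ℝ} (hκ : κ * h0 = kenE x) (hx : 39 / 40 ≤ x) (hx' : x < 1) :
    TriB (DD x).cur (farD κ (h0 * x) (tbl tKF x) (tbl tL x)) 1 0 1 7 7 (-1) (-1) :=
  (sideF hx hx').farB (Or.inr rfl) (Or.inr rfl) fun y y' F r1 r2 =>
    farXB_cert (s1 := false) (s2 := false) rfl hκ (ka0 hκ hx hx') (xa0 hx) hx' (covF71 hx hx') (covF71 hx hx') (x1 hx) (x2 hx')
        Pool.Agent.Strip051.G.IE1.Tab.C.FB77.c_mm_101 noCut_VB noExt_VB F r1 r2 r1 r2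

theorem FB77_mm_102 {κ x : ℝ} (hκ : κ * h0 = kenE x) (hx : 39 / 40 ≤ x) (hx' : x < 1) :
    TriB (DD x).cur (farD κ (h0 * x) (tbl tKF x) (tbl tL x)) 1 0 2 7 7 (-1) (-1) :=
  (sideF hx hx').farB (Or.inr rfl) (Or.inr rfl) fun y y' F r1 r2 =>
    farXB_cert (s1 := false) (s2 := false) rfl hκ (ka0 hκ hx hx') (xa0 hx) hx' (covF71 hx hx') (covF72 hx hx') (x1 hx) (x2 hx')
        Pool.Agent.Strip051.G.IE1.Tab.C.FB77.c_mm_102 noCut_VB noExt_VB F r1 r2 r1 r2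

theorem FB77_mm_112 {κ x : ℝ} (hκ : κ * h0 = kenE x) (hx : 39 / 40 ≤ x) (hx' : x < 1) :
    TriB (DD x).cur (farD κ (h0 * x) (tbl tKF x) (tbl tL x)) 1 1 2 7 7 (-1) (-1) :=
  (sideF hx hx').farB (Or.inr rfl) (Or.inr rfl) fun y y' F r1 r2 =>
    farXB_cert (s1 := false) (s2 := false) rfl hκ (ka0 hκ hx hx') (xa0 hx) hx' (covF71 hx hx') (covF72 hx hx') (x1 hx) (x2 hx')
        Pool.Agent.Strip051.G.IE1.Tab.C.FB77.c_mm_112 noCut_VB noExt_VB F r1 r2 r1 r2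

theorem FB77_mm_113 {κ x : ℝ} (hκ : κ * h0 = kenE x) (hx : 39 / 40 ≤ x) (hx' : x < 1) :
    TriB (DD x).cur (farD κ (h0 * x) (tbl tKF x) (tbl tL x)) 1 1 3 7 7 (-1) (-1) :=
  (sideF hx hx').farB (Or.inr rfl) (Or.inr rfl) fun y y' F r1 r2 =>
    farXB_cert (s1 := false) (s2 := false) rfl hκ (ka0 hκ hx hx') (xa0 hx) hx' (covF71 hx hx') (covF73 hx hx') (x1 hx) (x2 hx')
        Pool.Agent.Strip051.G.IE1.Tab.C.FB77.c_mm_113 noCut_VB noExt_VB F r1 r2 r1 r2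

theorem FB77_mm_123 {κ x : ℝ} (hκ : κ * h0 = kenE x) (hx : 39 / 40 ≤ x) (hx' : x < 1) :
    TriB (DD x).cur (farD κ (h0 * x) (tbl tKF x) (tbl tL x)) 1 2 3 7 7 (-1) (-1) :=
  (sideF hx hx').farB (Or.inr rfl) (Or.inr rfl) fun y y' F r1 r2 =>
    farXB_cert (s1 := false) (s2 := false) rfl hκ (ka0 hκ hx hx') (xa0 hx) hx' (covF71 hx hx') (covF73 hx hx') (x1 hx) (x2 hx')
        Pool.Agent.Strip051.G.IE1.Tab.C.FB77.c_mm_123 noCut_VB noExt_VB F r1 r2 r1 r2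

theorem FB77_mm_133 {κ x : ℝ} (hκ : κ * h0 = kenE x) (hx : 39 / 40 ≤ x) (hx' : x < 1) :
    TriB (DD x).cur (farD κ (h0 * x) (tbl tKF x) (tbl tL x)) 1 3 3 7 7 (-1) (-1) :=
  (sideF hx hx').farB (Or.inr rfl) (Or.inr rfl) fun y y' F r1 r2 =>
    farXB_cert (s1 := false) (s2 := false) rfl hκ (ka0 hκ hx hx') (xa0 hx) hx' (covF71 hx hx') (covF73 hx hx') (x1 hx) (x2 hx')
        Pool.Agent.Strip051.G.IE1.Tab.C.FB77.c_mm_133 noCut_VB noExt_VB F r1 r2 r1 r2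

theorem FB77_mm_202 {κ x : ℝ} (hκ : κ * h0 = kenE x) (hx : 39 / 40 ≤ x) (hx' : x < 1) :
    TriB (DD x).cur (farD κ (h0 * x) (tbl tKF x) (tbl tL x)) 2 0 2 7 7 (-1) (-1) :=
  (sideF hx hx').farB (Or.inr rfl) (Or.inr rfl) fun y y' F r1 r2 =>
    farXB_cert (s1 := false) (s2 := false) rfl hκ (ka0 hκ hx hx') (xa0 hx) hx' (covF72 hx hx') (covF72 hx hx') (x1 hx) (x2 hx')
        Pool.Agent.Strip051.G.IE1.Tab.C.FB77.c_mm_202 noCut_VB noExt_VB F r1 r2 r1 r2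

theorem FB77_mm_203 {κ x : ℝ} (hκ : κ * h0 = kenE x) (hx : 39 / 40 ≤ x) (hx' : x < 1) :
    TriB (DD x).cur (farD κ (h0 * x) (tbl tKF x) (tbl tL x)) 2 0 3 7 7 (-1) (-1) :=
  (sideF hx hx').farB (Or.inr rfl) (Or.inr rfl) fun y y' F r1 r2 =>
    farXB_cert (s1 := false) (s2 := false) rfl hκ (ka0 hκ hx hx') (xa0 hx) hx' (covF72 hx hx') (covF73 hx hx') (x1 hx) (x2 hx')
        Pool.Agent.Strip051.G.IE1.Tab.C.FB77.c_mm_203 noCut_VB noExt_VB F r1 r2 r1 r2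

theorem FB77_mm_213 {κ x : ℝ} (hκ : κ * h0 = kenE x) (hx : 39 / 40 ≤ x) (hx' : x < 1) :
    TriB (DD x).cur (farD κ (h0 * x) (tbl tKF x) (tbl tL x)) 2 1 3 7 7 (-1) (-1) :=
  (sideF hx hx').farB (Or.inr rfl) (Or.inr rfl) fun y y' F r1 r2 =>
    farXB_cert (s1 := false) (s2 := false) rfl hκ (ka0 hκ hx hx') (xa0 hx) hx' (covF72 hx hx') (covF73 hx hx') (x1 hx) (x2 hx')
        Pool.Agent.Strip051.G.IE1.Tab.C.FB77.c_mm_213 noCut_VB noExt_VB F r1 r2 r1 r2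

theorem FB77_mm_303 {κ x : ℝ} (hκ : κ * h0 = kenE x) (hx : 39 / 40 ≤ x) (hx' : x < 1) :
    TriB (DD x).cur (farD κ (h0 * x) (tbl tKF x) (tbl tL x)) 3 0 3 7 7 (-1) (-1) :=
  (sideF hx hx').farB (Or.inr rfl) (Or.inr rfl) fun y y' F r1 r2 =>
    farXB_cert (s1 := false) (s2 := false) rfl hκ (ka0 hκ hx hx') (xa0 hx) hx' (covF73 hx hx') (covF73 hx hx') (x1 hx) (x2 hx')
        Pool.Agent.Strip051.G.IE1.Tab.C.FB77.c_mm_303 noCut_VB noExt_VB F r1 r2 r1 r2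

theorem FB77_mm_313 {κ x : ℝ} (hκ : κ * h0 = kenE x) (hx : 39 / 40 ≤ x) (hx' : x < 1) :
    TriB (DD x).cur (farD κ (h0 * x) (tbl tKF x) (tbl tL x)) 3 1 3 7 7 (-1) (-1) :=
  (sideF hx hx').farB (Or.inr rfl) (Or.inr rfl) fun y y' F r1 r2 =>
    farXB_cert (s1 := false) (s2 := false) rfl hκ (ka0 hκ hx hx') (xa0 hx) hx' (covF73 hx hx') (covF73 hx hx') (x1 hx) (x2 hx')
        Pool.Agent.Strip051.G.IE1.Tab.C.FB77.c_mm_313 noCut_VB noExt_VB F r1 r2 r1 r2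

theorem FB77 {κ x : ℝ} (hκ : κ * h0 = kenE x) (hx : 39 / 40 ≤ x) (hx' : x < 1) : AllTB (DD x).cur (farD κ (h0 * x) (tbl tKF x) (tbl tL x)) 7 7 where
  pp := all17 (Q := fun a b c => TriB (DD x).cur (farD κ (h0 * x) (tbl tKF x) (tbl tL x)) a b c 7 7 1 1)
    (FB77_pp_001 hκ hx hx') (FB77_pp_011 hκ hx hx') (FB77_pp_012 hκ hx hx') (FB77_pp_022 hκ hx hx') (FB77_pp_023 hκ hx hx') (FB77_pp_033 hκ hx hx') (FB77_pp_101 hκ hx hx') (FB77_pp_102 hκ hx hx') (FB77_pp_112 hκ hx hx') (FB77_pp_113 hκ hx hx') (FB77_pp_123 hκ hx hx') (FB77_pp_133 hκ hx hx') (FB77_pp_202 hκ hx hx') (FB77_pp_203 hκ hx hx') (FB77_pp_213 hκ hx hx') (FB77_pp_303 hκ hx hx') (FB77_pp_313 hκ hx hx')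
  pm := all17 (Q := fun a b c => TriB (DD x).cur (farD κ (h0 * x) (tbl tKF x) (tbl tL x)) a b c 7 7 1 (-1))
    (FB77_pm_001 hκ hx hx') (FB77_pm_011 hκ hx hx') (FB77_pm_012 hκ hx hx') (FB77_pm_022 hκ hx hx') (FB77_pm_023 hκ hx hx') (FB77_pm_033 hκ hx hx') (FB77_pm_101 hκ hx hx') (FB77_pm_102 hκ hx hx') (FB77_pm_112 hκ hx hx') (FB77_pm_113 hκ hx hx') (FB77_pm_123 hκ hx hx') (FB77_pm_133 hκ hx hx') (FB77_pm_202 hκ hx hx') (FB77_pm_203 hκ hx hx') (FB77_pm_213 hκ hx hx') (FB77_pm_303 hκ hx hx') (FB77_pm_313 hκ hx hx')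
  mm := all17 (Q := fun a b c => TriB (DD x).cur (farD κ (h0 * x) (tbl tKF x) (tbl tL x)) a b c 7 7 (-1) (-1))
    (FB77_mm_001 hκ hx hx') (FB77_mm_011 hκ hx hx') (FB77_mm_012 hκ hx hx') (FB77_mm_022 hκ hx hx') (FB77_mm_023 hκ hx hx') (FB77_mm_033 hκ hx hx') (FB77_mm_101 hκ hx hx') (FB77_mm_102 hκ hx hx') (FB77_mm_112 hκ hx hx') (FB77_mm_113 hκ hx hx') (FB77_mm_123 hκ hx hx') (FB77_mm_133 hκ hx hx') (FB77_mm_202 hκ hx hx') (FB77_mm_203 hκ hx hx') (FB77_mm_213 hκ hx hx') (FB77_mm_303 hκ hx hx') (FB77_mm_313 hκ hx hx')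

end Pool.Agent.Strip051.G.IE1.Tab
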