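import Pool.Agent.Strip051.G.IE1.Tab

/-! # Certificates F41 (generated) -/

set_option linter.all false
set_option maxRecDepth 100000

namespace Pool.Agent.Strip051.G.IE1.Tab.C.FB16

open Pool.Agent.Strip051.PB Pool.Agent.Strip051.PB.T
open Pool.Agent.Strip051.G.IE1.Tab

noncomputable def f_pm_202_a : ℕ → ℕ → ℕ → ℕ → Bool := onCell 0 420477299 0 536870912 1046898278 26843546
    (rowFX 1 false true false .pp 2 0 2 (qsf 0 420477299 1073741824 536870912 0) ndF1q2a ndF6q2 pcF0 Cut.none Ext.none)

def k0_pm_202_a : ∃ t, chk3 f_pm_202_a t 2 32 1 = true :=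
  ⟨(c (b (a (c (l 16227128) (c (l 16281048) (a (l 16238728) (l 16329048)))) (a (c (l 16327360) (c (l 16337976) (b (l 16303008) (l 16235736)))) (b (a (l 16146280) (l 16089640)) (c (a (l 16202440) (l 16086736)) (b (l 16097832) (c (l 16139088) (a (l 16201680) (l 16026496)))))))) (a (b (c (c (a (l 16295264) (l 16374360)) (b (l 16249808) (a (l 16299472) (l 16379104)))) (a (l 16120888) (l 16225432))) (c (a (l 16104312) (l 16246288)) (c (l 16151920) (b (l 16157984) (l 16072840))))) (b (b (c (a (l 16373392) (l 16176216)) (a (l 16250344) (c (l 16065864) (l 16177352)))) (c (a (c (l 16361192) (l 16343304)) (c (l 16167008) (l 16105016))) (l 16133280))) (c (a (l 16347680) (l 16049088)) (a (l 16328576) (c (l 16296496) (l 16174984))))))) (b (a (c (b (a (l 16417248) (l 16460464)) (b (c (l 16262536) (l 16294976)) (a (l 16273656) (l 16340064)))) (b (c (a (l 16337584) (l 16351512)) (b (a (l 16420880) (l 16392872)) (l 16371008))) (c (l 16227432) (l 16406392)))) (c (b (a (l 16271728) (a (l 16121944) (l 16064360)))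 (a (c (l 16195544) (l 16199528)) (b (c (a (l 16162784) (l 16049952)) (l 15963704)) (c (l 16139304) (l 16104832))))) (b (a (b (c (l 16266944) (l 16116104)) (c (l 16262416) (l 16302952))) (c (b (l 16084336) (a (l 16122752) (l 16045632))) (b (a (c (l 16092680) (l 16089976)) (l 16013656)) (l 15961328)))) (a (l 16175440) (c (a (l 16186264) (l 16065592)) (l 16118680)))))) (a (c (a (b (l 16203008) (l 16219616)) (c (l 16186696) (l 16345744))) (l 16179048)) (c (b (a (l 16243024) (c (l 16147400) (l 16204168))) (a (l 16485160) (l 16261816))) (a (l 16428880) (l 16201184)))))), by decide +kernel⟩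

def k1_pm_202_a : ∃ t, chk3 f_pm_202_a t 2 33 1 = true :=
  ⟨(c (c (a (a (b (b (l 16076160) (a (a (c (b (l 16015408) (c (l 15966992) (b (l 15967616) (l 15948024)))) (b (c (l 15913832) (l 15999616)) (l 15971208))) (c (l 16022168) (l 16019552))) (c (l 16074720) (l 16072424)))) (a (c (b (b (a (c (b (c (l 15930176) (l 15927848)) (l 15913168)) (l 15931328)) (l 15957304)) (l 15918664)) (l 15893472)) (l 15897272)) (c (l 15914824) (l 16004016)))) (b (b (l 16219480) (c (l 16122304) (l 16120848))) (a (l 15967072) (l 16083192)))) (b (a (c (l 16233528) (b (l 16392328) (l 16263264))) (b (l 16255016) (c (l 16306792) (l 16284136)))) (a (c (l 16118336) (l 16310952)) (a (l 16377168) (l 16364384))))) (a (a (a (b (b (l 16091648) (l 16036568)) (c (l 15967488) (l 15994760))) (b (l 15988688) (l 16044664))) (b (a (l 16071336) (l 16148312)) (l 16172008))) (b (b (c (a (l 16324448) (l 16220592)) (l 16283520)) (a (l 16401856) (l 16427512))) (a (l 16307368) (l 16456152))))) (a (a (a (c (b (c (l 16098680) (l 16118336))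 (c (l 15888288) (l 16017936))) (l 15981528)) (l 15980496)) (c (l 16086688) (l 16264560))) (b (c (a (l 16411288) (l 16257144)) (l 16255912)) (a (l 16257472) (l 16282728))))), by decide +kernel⟩

def k2_pm_202_a : ∃ t, chk3 f_pm_202_a t 2 17 1 = true :=
  ⟨(a (c (b (c (a (b (a (b (l 15872536) (l 15836496)) (a (b (l 15913200) (l 15881864)) (l 15911480))) (a (l 15789896) (a (l 15834104) (c (l 15853160) (l 15879672))))) (a (b (l 15992432) (c (l 15864944) (l 15933016))) (l 16024016))) (a (b (c (a (l 15897000) (l 15952456)) (a (l 15916120) (b (l 15994768) (l 15952528)))) (c (a (l 15822920) (b (l 15820128) (l 15866072))) (l 15861544))) (b (l 16065048) (b (l 16022048) (a (c (l 15932656) (l 15930160)) (l 16019232)))))) (c (b (a (c (l 15751280) (b (l 15788672) (l 15754512))) (a (a (c (l 15830280) (b (l 15845344) (l 15831912))) (c (l 15864696) (b (l 15904856) (l 15844992)))) (l 15896816))) (a (c (b (c (l 15708456) (l 15717672)) (a (c (b (l 15662904) (l 15647328)) (l 15654960)) (c (l 15707896) (l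 15708576)))) (l 15697280)) (a (c (b (c (l 15803584) (a (l 15791464) (l 15828640))) (b (l 15782816) (l 15764360))) (l 15791936)) (b (l 15886072) (a (a (c (b (l 15827552) (l 15789880)) (l 15814912)) (l 15837080)) (l 15869360)))))) (a (b (l 15769280) (l 15686904)) (b (a (c (l 15866992) (l 15861192)) (l 15949264)) (a (l 15782552) (l 15855584)))))) (b (a (c (b (a (l 15917416) (l 15972416)) (l 15853168)) (l 15806608)) (b (l 16095904) (a (l 15940832) (l 16032832)))) (a (c (l 15713824) (l 15700712)) (c (b (l 15891112) (l 15807192)) (b (l 15880560) (l 15795224)))))) (c (c (b (a (l 16020032) (l 16225728)) (a (b (c (l 16084400) (l 16101976)) (b (l 15971480) (l 15930640))) (b (l 16177176) (c (l 16129000) (l 16258424))))) (b (a (b (l 16212840) (l 16158920)) (b (l 16360360) (l 16296904))) (a (l 16012792) (l 16200352)))) (b (a (l 16148432) (l 16274800)) (a (l 16041928) (l 16234800))))), by decide +kernel⟩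

def k3_pm_202_a : ∃ t, chk3 f_pm_202_a t 3 32 2 = true :=
  ⟨(a (b (b (l 16091408) (b (l 16091848) (a (c (l 16045928) (c (l 16032960) (a (l 16018152) (l 16036744)))) (c (l 16095576) (c (l 16083408) (l 16057872)))))) (a (b (c (b (a (l 16017432) (l 16026960)) (a (a (c (l 16032184) (l 16031600)) (c (l 15993584) (l 15992624))) (c (l 16004376) (l 16003336)))) (c (b (a (b (l 16007216) (l 16006736)) (l 16019672)) (l 15999648)) (l 16029936))) (b (c (a (c (b (l 16004888) (l 16044688)) (l 16045968)) (l 15991672)) (a (l 16058440) (l 16006448))) (c (a (l 16086576) (l 15992520)) (a (l 16036288) (c (l 16004400) (l 16003528)))))) (c (b (b (l 16068432) (c (l 16045840) (l 15981864))) (c (l 15983288) (l 16032400))) (b (c (b (a (l 16044888) (l 16077048)) (l 16050584)) (l 16061872)) (c (l 16039832) (b (l 16049464) (l 16035192))))))) (b (a (c (a (l 16177528) (l 16139352)) (b (l 16168576) (b (l 16129768) (c (l 16107864) (a (b (l 16125096) (l 16115288)) (l 16043056)))))) (a (b (l 16095296) (c (l 16062032)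 (b (l 16058384) (c (l 16038016) (a (l 16047512) (l 16016392)))))) (a (l 15913816) (l 15874008)))) (a (c (b (b (a (l 16109776) (l 16075200)) (c (a (l 16087112) (l 16052648)) (a (b (l 16088776) (l 16082120)) (l 16051112)))) (c (a (l 16002560) (l 16030216)) (l 16054968))) (b (c (b (a (b (l 16106512) (l 16098264)) (l 16047152)) (l 16074448)) (l 16085512)) (c (l 16061392) (a (b (l 16088584) (l 16073656)) (l 16000568))))) (b (a (c (b (l 16024256) (a (c (l 16015032) (l 16013088)) (l 15984184))) (c (b (a (l 15967520) (l 15998920)) (l 16003904)) (l 16014440))) (c (b (l 15916040) (l 15907480)) (l 15844328))) (c (a (a (l 15993256) (l 15963264)) (l 15898432)) (a (b (l 15995536) (c (l 15983232) (l 15981176))) (l 15902472))))))), by decide +kernel⟩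

def k4_pm_202_a : ∃ t, chk3 f_pm_202_a t 3 33 2 = true :=
  ⟨(a (c (a (a (b (b (l 16163648) (c (l 16260168) (l 16256792))) (l 16238904)) (b (b (b (l 16006832) (l 15949456)) (c (l 16030520) (l 15921032))) (l 16052944))) (b (b (l 16014752) (a (c (a (b (l 15983928) (l 15997096)) (l 15988944)) (b (l 15989856) (l 15984080))) (c (l 16011272) (l 16005968)))) (a (b (a (l 16030880) (b (l 15965512) (l 15966144))) (l 16049600)) (b (l 15971672) (l 15939600))))) (a (b (b (c (a (l 16147144) (b (a (l 16026856) (l 15993816)) (l 16031992))) (l 15962016)) (l 16146048)) (l 16223048)) (b (b (c (b (l 16026032) (l 16009504)) (l 16002720)) (l 15910928)) (a (l 15973304) (l 15919184))))) (a (b (c (b (a (l 16052504) (l 16015200)) (c (a (l 16033392) (l 15994888)) (a (b (l 16038744) (l 16019560)) (l 15989408)))) (b (c (a (b (l 16063640) (l 16046616)) (l 15952888)) (l 16022832)) (l 15984400))) (c (a (a (l 15973088) (l 15966456)) (c (l 15940296) (l 15921552))) (l 15913072))) (a (b (c (b (l 15959888) (c (l 15915344)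 (b (l 15941664) (l 15920960)))) (b (c (b (l 15969936) (l 15951088)) (l 15946528)) (l 15905592))) (c (b (c (l 15902224) (l 15884416)) (l 15846448)) (l 15831912))) (b (c (b (l 15887496) (l 15861152)) (l 15855520)) (l 15782032))))), by decide +kernel⟩

def k5_pm_202_a : ∃ t, chk3 f_pm_202_a t 3 17 2 = true :=
  ⟨(a (b (a (b (c (l 16280672) (l 16204336)) (c (l 16398384) (l 16310704))) (b (a (c (l 16147472) (l 16110720)) (c (l 15864560) (b (l 15818656) (l 15944168)))) (c (l 16154888) (l 16000456)))) (a (c (b (l 16407240) (c (l 16328976) (l 16459992))) (l 16389432)) (c (b (l 16091072) (c (l 16238656) (l 16358544))) (l 16142472)))) (a (b (a (b (c (l 15883928) (a (b (l 15863224) (l 15832128)) (l 15834672))) (c (a (l 15921600) (l 15824456)) (a (l 15890408) (b (l 15776120) (l 15791288))))) (c (l 15791432) (b (l 15799064) (l 15691016)))) (b (a (c (l 15877672) (l 15962064)) (c (c (l 15606360) (a (l 15755496) (l 15649976))) (l 15574480))) (c (a (l 15927128) (l 15575656)) (l 15717832)))) (b (c (a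 (l 15729448) (l 15660456)) (a (b (l 15739712) (l 15650792)) (b (a (l 15689704) (l 15648144)) (l 15536608)))) (b (c (a (l 15589864) (l 15514176)) (l 15522392)) (a (c (b (l 15534304) (a (l 15581288) (l 15468616))) (l 15526168)) (c (l 15403192) (l 15404176))))))), by decide +kernel⟩

def k6_pm_202_a : ∃ t, chk3 f_pm_202_a t 3 16 6 = true :=
  ⟨(a (a (b (b (b (l 16081944) (b (c (l 16045640) (l 16046496)) (c (l 16030920) (l 16036736)))) (b (a (c (b (l 16023296) (l 16035752)) (l 16026608)) (c (l 16025416) (l 16018080))) (a (l 16062392) (l 15987624)))) (b (a (l 16161824) (b (l 15984512) (l 16025144))) (l 16111576))) (b (b (b (l 16133144) (c (b (l 16096936) (l 16081256)) (b (l 16097608) (l 16086496)))) (b (c (l 16066000) (l 16059008)) (l 16021920))) (b (a (b (l 15958520) (l 15925440)) (l 15967208)) (a (b (l 15912016) (l 15981264)) (b (l 15898888) (l 15869984)))))) (b (b (a (b (a (l 16175616) (c (l 16140712) (l 16070800))) (b (c (a (l 16139352) (l 16102048)) (a (l 16139896) (l 16102056))) (c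 (l 16105240) (a (l 16127864) (l 16090624))))) (b (a (l 16072376) (l 15904072)) (a (b (l 16048816) (c (l 16033888) (l 16037128))) (b (l 15902920) (l 15883760))))) (a (c (b (a (l 16085376) (l 16069592)) (l 16052392)) (a (l 16076160) (l 16039112))) (a (b (c (a (l 15967448) (l 15997752)) (l 15946752)) (l 15970464)) (b (c (l 15908880) (l 15901200)) (l 15884624))))) (a (a (b (l 15991808) (l 15901960)) (b (l 15954112) (l 15863688))) (a (b (c (l 15903832) (l 15889216)) (l 15802896)) (l 15779856))))), by decide +kernel⟩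

def k7_pm_202_a : ∃ t, chk3 f_pm_202_a t 3 16 7 = true :=
  ⟨(a (b (b (b (b (c (l 16111312) (a (c (l 16079088) (l 16076328)) (c (l 16131208) (a (l 16111384) (l 16123832))))) (b (c (l 16093736) (l 16091632)) (c (l 15980072) (l 16082176)))) (a (c (l 16036928) (l 16026384)) (c (l 16087488) (l 16077632)))) (a (a (l 15967048) (l 15980920)) (l 16018264))) (a (b (l 15947256) (l 16207792)) (a (b (l 15925864) (l 15952072)) (l 15913336)))) (b (b (a (b (c (b (a (l 16178272) (l 16140064)) (a (b (l 16160592) (l 16151408)) (b (l 16122352) (l 16113160)))) (b (b (c (l 16158176) (a (l 16177280) (c (l 16139544) (l 16138264)))) (c (a (l 16168792) (l 16130400)) (l 16125016))) (c (l 16050296) (l 16129704)))) (c (a (l 16129528) (l 15986088)) (l 16100312))) (b (c (a (b (l 16072248) (l 16058944)) (l 15852024)) (a (b (c (l 16068008) (l 16065216)) (l 16054976)) (b (l 15781512) (l 15888824)))) (a (c (b (l 16047024) (l 16029248)) (l 16027840)) (c (l 15898112) (l 15888032))))) (a (a (l 16059816) (l 16022816)) (a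 (a (l 15982376) (l 15950272)) (l 15867432)))) (a (l 15912472) (a (l 15832464) (l 15761216))))), by decide +kernel⟩

def k8_pm_202_a : ∃ t, chk3 f_pm_202_a t 3 17 3 = true :=
  ⟨(a (b (a (l 16171984) (b (a (l 16087592) (b (l 15873648) (l 15921872))) (l 16133344))) (a (l 16409704) (l 16156128))) (a (b (a (b (a (l 15823056) (l 15806600)) (a (l 15871200) (l 15771184))) (b (l 15770576) (l 15689240))) (a (l 15999168) (b (l 15574888) (l 15772200)))) (b (a (l 15667096) (b (l 15641008) (l 15553296))) (a (b (l 15541672) (l 15501808)) (l 15419712))))), by decide +kernel⟩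

def k9_pm_202_a : ∃ t, chk3 f_pm_202_a t 2 18 1 = true :=
  ⟨(c (a (b (c (a (b (a (b (c (a (l 15592112) (l 15613104)) (a (l 15603456) (l 15627408))) (c (l 15636504) (l 15555840))) (b (l 15670040) (l 15670096))) (c (a (b (l 15670864) (l 15702712)) (a (l 15709288) (l 15729240))) (a (l 15680432) (l 15699592)))) (b (a (b (l 15732256) (l 15714304)) (a (b (l 15788824) (l 15754112)) (b (l 15828376) (l 15788512)))) (a (l 15753312) (l 15793488)))) (a (b (a (b (l 15594336) (l 15606792)) (l 15657280)) (l 15678832)) (b (a (l 15711352) (b (l 15794680) (l 15761912))) (l 15762856)))) (a (b (a (c (l 15742072) (l 15731888)) (c (c (l 15782472) (l 15773080)) (l 15761608))) (a (l 15819920) (l 15854496))) (a (c (b (l 15803104) (l 15872512)) (l 15830496)) (l 15876352)))) (b (a (b (c (l 15929288) (l 15918384)) (a (a (b (l 15802848) (l 15826112)) (l 15843864)) (l 15902440))) (b (l 16096680) (l 16067112))) (a (b (a (l 15880696) (l 15916336)) (c (l 15964184) (l 15953608))) (b (l 15994448) (l 16027400))))) (a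 (b (a (b (l 15614888) (l 15658136)) (b (a (l 15690816) (c (l 15766016) (l 15753264))) (l 15743528))) (a (a (b (l 15709432) (l 15793400)) (l 15784384)) (l 15835672))) (a (b (b (l 15902136) (a (l 15804184) (l 15879856))) (b (l 15871064) (l 15937376))) (b (l 16095968) (l 16009560))))), by decide +kernel⟩

def k10_pm_202_a : ∃ t, chk3 f_pm_202_a t 2 19 1 = true :=
  ⟨(b (a (b (c (a (c (b (l 15894552) (l 15934976)) (l 15878632)) (a (c (l 15952184) (l 15936696)) (l 15923104))) (a (l 15879368) (l 15934488))) (c (a (l 15966016) (a (l 15993296) (l 16017880))) (a (a (l 15923000) (l 15954488)) (l 15964232)))) (a (c (a (l 15965344) (b (l 16036360) (l 16082320))) (b (l 16004392) (l 16050360))) (b (l 16073640) (a (l 16097168) (l 16130712))))) (a (a (b (l 15992136) (l 16036360)) (c (b (a (l 16045544) (l 16067720)) (a (l 16090536) (l 16107008))) (a (l 16046624) (l 16061744)))) (a (b (a (l 16025880) (l 16109048)) (c (l 16135888) (l 16124904))) (c (a (l 16165496) (l 16186840)) (l 16159920))))), by decide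 +kernel⟩

def k11_pm_202_a : ∃ t, chk3 f_pm_202_a t 3 9 1 = true :=
  ⟨(a (b (b (c (a (b (l 16331064) (l 16353936)) (a (l 16518584) (l 16355008))) (a (l 16270512) (l 16377576))) (a (b (l 16250640) (l 16050288)) (l 16356472))) (a (b (b (l 16157224) (l 16176488)) (l 16224728)) (b (b (l 16353096) (l 16318640)) (l 16294576)))) (b (a (a (b (c (l 16102544) (l 16238040)) (l 16374656)) (b (c (l 15905072) (l 15990248)) (l 16227768))) (b (c (a (b (l 15486776) (l 15727288)) (b (a (l 15374792) (l 15311728)) (l 15365680))) (a (l 15465112) (b (l 15310504) (l 15328488)))) (a (l 15924080) (l 15528568)))) (a (b (a (l 16464608) (l 16334880)) (a (l 16321824) (l 16599312))) (a (b (l 16149728) (l 16333800)) (b (l 15789784) (l 16092352)))))), by decide +kernel⟩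

def k12_pm_202_a : ∃ t, chk3 f_pm_202_a t 1 5 1 = true :=
  ⟨(a (b (b (a (b (a (l 16107640) (a (l 16143632) (c (l 16179880) (l 16163760)))) (a (l 16208488) (l 16249192))) (b (a (c (b (l 16190904) (l 16226848)) (b (l 16168568) (l 16209576))) (c (l 16260064) (l 16242464))) (c (a (l 16220736) (l 16327088)) (a (l 16289040) (l 16308784))))) (a (a (b (l 16322312) (l 16446104)) (l 16344584)) (c (b (a (l 16394664) (l 16415888)) (l 16510088)) (b (l 16348944) (l 16501272))))) (b (b (a (l 16568752) (a (l 16595616) (l 16612640))) (a (b (l 16673336) (c (l 16718752) (l 16717232))) (l 16646448))) (a (b (a (a (c (l 16775264) (l 16775208)) (l 16776816)) (l 16776824)) (c (l 16777216) (l 16777216))) (a (l 16777032) (l 16777040))))) (b (a (b (a (c (b (l 16283696) (l 16366944)) (b (l 16266704) (l 16352976))) (l 16376680)) (b (c (l 16465304) (l 16454624)) (a (l 16523216) (l 16549168)))) (a (b (a (l 16420624) (b (l 16469128) (l 16528656))) (l 16560416)) (b (a (b (l 16532448) (l 16634248)) (b (l 16294256)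 (l 16336952))) (l 16495856)))) (a (b (b (a (l 16617976) (l 16636384)) (a (l 16718856) (l 16722272))) (c (l 16777072) (l 16777064))) (b (a (b (l 16683888) (l 16631048)) (l 16562120)) (a (c (l 16723128) (l 16721720)) (l 16501464)))))), by decide +kernel⟩

def k13_pm_202_a : ∃ t, chk3 f_pm_202_a t 1 3 1 = true :=
  ⟨(a (b (a (b (c (b (c (l 16777216) (l 16777216)) (c (l 16777216) (l 16777216))) (b (c (l 16777216) (l 16777216)) (c (l 16777216) (l 16777216)))) (b (c (a (l 16777216) (l 16777216)) (a (l 16777216) (l 16777216))) (b (c (l 16777216) (l 16777216)) (l 2)))) (a (b (l 16777208) (a (b (l 16777216) (c (l 16777216) (l 16777216))) (l 16777208))) (b (l 16777200) (l 16777200)))) (l 2)) (b (a (b (b (l 16777184) (a (l 16777192) (l 16777168))) (b (l 16777184) (l 16777184))) (a (b (c (l 16723024) (l 16721616)) (l 16722320)) (b (c (l 16504904) (l 16434912)) (c (l 16504904) (l 16497824))))) (a (b (b (l 16777184) (l 2)) (l 2)) (a (b (c (l 16723024) (l 16721616)) (l 2)) (b (l 16501368) (l 16480392)))))),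 by decide +kernel⟩

theorem s14_pm_202_a : ∃ t, chk3 f_pm_202_a t 2 9 1 = true := ex3_b k9_pm_202_a k10_pm_202_a

theorem s15_pm_202_a : ∃ t, chk3 f_pm_202_a t 1 9 1 = true := ex3_a s14_pm_202_a k11_pm_202_a

theorem s16_pm_202_a : ∃ t, chk3 f_pm_202_a t 3 16 3 = true := ex3_c k6_pm_202_a k7_pm_202_a

theorem s17_pm_202_a : ∃ t, chk3 f_pm_202_a t 3 8 3 = true := ex3_b s16_pm_202_a k8_pm_202_a

theorem s18_pm_202_a : ∃ t, chk3 f_pm_202_a t 3 16 2 = true := ex3_b k3_pm_202_a k4_pm_202_a

theorem s19_pm_202_a : ∃ t, chk3 f_pm_202_a t 3 8 2 = true := ex3_b s18_pm_202_a k5_pm_202_a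

theorem s20_pm_202_a : ∃ t, chk3 f_pm_202_a t 3 8 1 = true := ex3_c s19_pm_202_a s17_pm_202_a

theorem s21_pm_202_a : ∃ t, chk3 f_pm_202_a t 2 16 1 = true := ex3_b k0_pm_202_a k1_pm_202_a

theorem s22_pm_202_a : ∃ t, chk3 f_pm_202_a t 2 8 1 = true := ex3_b s21_pm_202_a k2_pm_202_a

theorem s23_pm_202_a : ∃ t, chk3 f_pm_202_a t 1 8 1 = true := ex3_a s22_pm_202_a s20_pm_202_a

theorem s24_pm_202_a : ∃ t, chk3 f_pm_202_a t 1 4 1 = true := ex3_b s23_pm_202_a s15_pm_202_a

theorem s25_pm_202_a : ∃ t, chk3 f_pm_202_a t 1 2 1 = true := ex3_b s24_pm_202_a k12_pm_202_a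

theorem s26_pm_202_a : ∃ t, chk3 f_pm_202_a t 1 1 1 = true := ex3_b s25_pm_202_a k13_pm_202_a

theorem c_pm_202_a : CertFX 0 420477299 1073741824 536870912 1046898278 26843546 false true false .pp 2 0 2
    ndF1q2a ndF6q2 pcF0 Cut.none Ext.none :=
  certFX1 (fam := false) (s1 := true) (s2 := false) (a := 2) (b := 0) (c := 2) (cn := .pp) (n1 := ndF1q2a) (n2 := ndF6q2) (pc := pcF0) (cut := Cut.none) (xt := Ext.none) (P1 := 0) (W1 := 420477299) (P2 := 1073741824) (W2 := 536870912) (P3 := 1046898278) (W3 := 26843546)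
    rfl (fun _ => rfl) s26_pm_202_a

noncomputable def f_pm_202_b : ℕ → ℕ → ℕ → ℕ → Bool := onCell 1239849684 370763052 0 536870912 1046898278 26843546
    (rowFX 1 false true false .pp 2 0 2 (qsf 1239849684 370763052 1073741824 536870912 0) ndF1q2b ndF6q2 pcF0 Cut.none Ext.none)

def k0_pm_202_b : ∃ t, chk3 f_pm_202_b t 8 32 1 = true :=
  ⟨(b (c (a (c (l 15961872) (b (l 16114736) (l 15850192))) (c (l 15635432) (l 15638168))) (a (c (b (l 16063288) (c (l 15926728) (l 15934784))) (b (c (l 15980592) (l 15897384)) (l 15952200))) (c (b (l 15657792) (l 15602840)) (b (l 15462968) (l 15587368))))) (c (b (a (c (c (l 15854488) (b (l 16055504) (l 15899456))) (c (l 15813304) (l 15998488))) (c (a (b (l 15716704) (c (l 15702480) (l 15583992))) (b (l 15500440) (c (l 15491464) (l 15476120)))) (b (a (l 15695152) (l 15307688)) (l 15534768)))) (c (a (b (l 15735232) (a (l 16045144) (l 15818416))) (a (a (b (l 15645360) (l 15655560)) (l 15532840)) (l 15415136))) (a (c (l 15869984) (a (l 16013760) (b (l 15800848)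 (l 15758776)))) (c (l 15472296) (b (l 15468272) (l 15428632)))))) (c (a (b (l 15855600) (a (l 16035288) (l 15800384))) (b (c (l 15309336) (l 15517920)) (l 15467688))) (a (a (l 16091928) (l 15851760)) (l 15511656))))), by decide +kernel⟩

def k1_pm_202_b : ∃ t, chk3 f_pm_202_b t 8 33 1 = true :=
  ⟨(c (b (c (a (b (c (a (l 15973552) (l 15753184)) (a (b (l 15972488) (l 15791920)) (l 15722352))) (c (b (l 15695912) (c (l 15730680) (a (l 15707248) (l 15612432)))) (b (c (a (l 15809480) (l 15648688)) (l 15572720)) (l 15711928)))) (b (l 15204440) (a (c (l 15430720) (l 15423712)) (c (l 15224856) (l 15216240))))) (a (b (c (b (c (l 15773912) (a (l 15946264) (l 15720208))) (a (l 15810192) (l 15689248))) (l 15836664)) (l 15785152)) (b (c (l 15130704) (l 15394064)) (l 15349040)))) (a (c (b (c (c (b (a (b (l 15803216) (l 15786112)) (l 15577480)) (l 15661744)) (l 15684640)) (l 15705704)) (l 15510872)) (l 15707456)) (b (c (a (l 15268192) (a (l 15218648) (l 15142936))) (l 15326704)) (a (l 15365768) (l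 15211184))))) (c (a (b (c (l 15845008) (l 15695480)) (l 15571040)) (b (l 15407512) (a (l 15433104) (l 15263768)))) (a (l 15602688) (l 15299728)))), by decide +kernel⟩

def k2_pm_202_b : ∃ t, chk3 f_pm_202_b t 8 17 1 = true :=
  ⟨(c (b (a (c (b (a (l 15717504) (l 15505720)) (a (l 15658888) (l 15394592))) (b (c (l 15650560) (l 15668552)) (a (l 15690904) (c (l 15488048) (l 15488408))))) (b (a (c (l 15318400) (c (l 15355600) (l 15371672))) (c (l 15233888) (l 15277112))) (c (l 15312120) (l 15361176)))) (a (b (a (c (c (l 15596088) (l 15614664)) (l 15612640)) (c (c (a (l 15465968) (l 15424088)) (a (l 15483720) (l 15442904))) (l 15466008))) (c (a (c (b (a (l 15611568) (b (l 15524520) (l 15525760))) (a (b (l 15592032) (l 15585872)) (l 15546128))) (b (l 15575656) (a (l 15584096) (l 15538624)))) (c (b (l 15494784) (l 15536920)) (l 15513112))) (a (a (l 15590464) (c (l 15530952) (l 15523712))) (l 15490632)))) (c (b (c (l 15408208) (b (l 15404648) (l 15444576))) (b (l 15481824) (l 15518080))) (b (l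 15408992) (l 15482816))))) (b (a (b (l 15661616) (l 15571776)) (b (a (l 15359280) (l 15272280)) (l 15339344))) (a (a (b (l 15590056) (l 15542344)) (b (l 15440144) (l 15476728))) (l 15422184)))), by decide +kernel⟩

def k3_pm_202_b : ∃ t, chk3 f_pm_202_b t 8 9 1 = true :=
  ⟨(b (c (b (b (a (c (a (c (l 15580744) (l 15594896)) (l 15582440)) (b (c (l 15562800) (l 15546560)) (l 15591432))) (c (l 15562584) (l 15549128))) (a (a (c (l 15658384) (l 15657464)) (l 15643008)) (l 15636160))) (a (b (c (l 15714864) (l 15718392)) (l 15790896)) (l 15735320))) (b (b (a (c (l 15554240) (l 15541576)) (l 15519320)) (l 15565424)) (a (l 15736192) (l 15708200)))) (b (b (c (a (l 15868528) (l 15851688)) (l 15835168)) (l 15904816)) (l 15979752))), by decide +kernel⟩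

def k4_pm_202_b : ∃ t, chk3 f_pm_202_b t 8 5 1 = true :=
  ⟨(b (b (l 16122192) (c (l 16257464) (l 16309600))) (b (b (c (l 16564336) (l 16558808)) (c (l 16688552) (l 16686248))) (b (c (l 16764376) (l 16764040)) (c (l 16777216) (l 16777216))))), by decide +kernel⟩

def k5_pm_202_b : ∃ t, chk3 f_pm_202_b t 9 2 1 = true :=
  ⟨(b (b (b (c (b (b (a (b (l 15220136) (c (l 15075152) (b (l 15216096) (a (l 15295944) (l 15125464))))) (c (l 15055608) (l 14881688))) (b (a (c (a (b (l 15293472) (c (l 15284392) (l 15267320))) (b (l 15148400) (l 15156488))) (a (l 15240048) (l 15108680))) (c (l 15123024) (l 15078904))) (c (a (a (l 15115808) (l 15142584)) (l 15120656)) (a (a (l 14968864) (l 15077904)) (l 15055112))))) (b (a (c (b (a (l 15146216) (l 15106864)) (c (l 15099376) (l 15089800))) (b (c (l 15029848) (l 15102560)) (l 15117800))) (c (l 15079440) (l 15072600))) (c (l 15114344) (l 15160992)))) (b (b (c (b (a (l 15218912) (l 15020152)) (a (b (a (l 15292592) (l 15103896)) (c (l 15185840) (l 15155192)))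 (l 15039648))) (b (a (a (l 15314080) (c (l 15107552) (b (l 15109648) (l 15087280)))) (c (l 15009040) (l 15001536))) (a (c (l 15167728) (l 15170952)) (l 15015440)))) (c (a (b (a (l 15199904) (l 15066224)) (l 15120336)) (l 15048488)) (a (l 15149600) (l 15054760)))) (c (a (l 14985632) (l 15135472)) (l 15152600)))) (c (b (c (a (l 15118672) (l 15230512)) (a (l 15275920) (l 15252608))) (c (b (a (l 15396504) (l 15346320)) (b (l 15405888) (l 15486848))) (b (l 15355488) (l 15440048)))) (b (l 15262256) (l 15368088)))) (b (c (b (b (a (l 15545800) (l 15510304)) (l 15592400)) (a (l 15714608) (l 15699040))) (b (l 15548680) (l 15673448))) (c (b (l 15860648) (l 15958000)) (l 15681976)))) (b (b (c (l 16100776) (l 16083200)) (c (l 16355040) (l 16344072))) (b (b (l 16535752) (l 16649480)) (c (l 60297085767) (l 231558908551))))), by decide +kernel⟩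

def k6_pm_202_b : ∃ t, chk3 f_pm_202_b t 5 2 1 = true :=
  ⟨(b (b (b (b (c (b (a (c (l 15004032) (l 14997880)) (l 14784088)) (a (c (b (l 15077144) (l 15074544)) (b (l 15031792) (l 15007184))) (c (b (l 14907096) (l 14960136)) (b (l 14938832) (l 14927976))))) (b (c (b (l 14934120) (a (l 14991608) (l 14923160))) (b (c (l 14922504) (l 14914632)) (l 14931600))) (c (l 14965728) (l 14972296)))) (c (c (b (a (b (l 15037104) (l 15012928)) (l 14983640)) (a (l 15062904) (l 15034800))) (a (l 15039720) (l 15003928))) (a (l 15078808) (l 15000232)))) (c (b (a (c (a (l 15221672) (l 15185288)) (l 15202792)) (c (l 15150736) (l 15157592))) (c (a (b (l 15350256) (l 15379144)) (l 15203648)) (a (l 15337872) (l 15282536)))) (b (a (l 15189960) (l 15141624)) (a (l 15310536) (l 15253312))))) (b (a (c (b (l 15511776) (l 15701496)) (l 15513120)) (c (b (l 15437176) (l 15624776)) (b (l 15401152) (l 15594712)))) (c (b (a (l 15798096) (l 15785256)) (l 15930480)) (b (a (l 15772656) (l 15759480)) (l 226725213543)))))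 (b (b (b (c (l 16048424) (l 235315453063)) (l 244979432007)) (c (l 267528271015) (l 254106475911))) (a (b (b (l 16517392) (l 3)) (l 3)) (l 3)))), by decide +kernel⟩

def k7_pm_202_b : ∃ t, chk3 f_pm_202_b t 3 2 1 = true :=
  ⟨(a (b (b (b (a (c (b (b (l 14860096) (b (l 14730984) (a (l 14876544) (l 14882944)))) (c (l 14758168) (l 14947072))) (b (b (c (l 14822168) (l 14730032)) (l 14683904)) (c (l 14950176) (l 14936808)))) (b (c (b (b (l 14774680) (l 14795520)) (c (l 14595408) (l 203100572839))) (b (c (l 212227225223) (b (l 14654968) (l 14751400))) (c (l 14816792) (l 14811904)))) (c (l 14944368) (c (l 14945136) (l 14931248))))) (c (b (c (l 15109608) (l 218133539815)) (c (l 226723778743) (l 15265768))) (b (l 237460858631) (l 15236240)))) (a (b (c (b (l 15437176) (l 15583064)) (b (l 15401152) (l 15551944))) (l 3)) (l 3))) (l 3)) (b (b (l 3) (l 3)) (l 2))), by decide +kernel⟩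

def k8_pm_202_b : ∃ t, chk3 f_pm_202_b t 1 3 1 = true :=
  ⟨(b (a (a (a (b (b (c (l 16777216) (l 16777216)) (c (l 16777216) (l 16777216))) (b (c (l 16777216) (l 16777216)) (l 3))) (b (b (l 290078064599) (l 3)) (l 2))) (l 3)) (l 2)) (l 2)), by decide +kernel⟩

theorem s9_pm_202_b : ∃ t, chk3 f_pm_202_b t 8 16 1 = true := ex3_b k0_pm_202_b k1_pm_202_b

theorem s10_pm_202_b : ∃ t, chk3 f_pm_202_b t 8 8 1 = true := ex3_b s9_pm_202_b k2_pm_202_b

theorem s11_pm_202_b : ∃ t, chk3 f_pm_202_b t 8 4 1 = true := ex3_b s10_pm_202_b k3_pm_202_b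

theorem s12_pm_202_b : ∃ t, chk3 f_pm_202_b t 8 2 1 = true := ex3_b s11_pm_202_b k4_pm_202_b

theorem s13_pm_202_b : ∃ t, chk3 f_pm_202_b t 4 2 1 = true := ex3_a s12_pm_202_b k5_pm_202_b

theorem s14_pm_202_b : ∃ t, chk3 f_pm_202_b t 2 2 1 = true := ex3_a s13_pm_202_b k6_pm_202_b

theorem s15_pm_202_b : ∃ t, chk3 f_pm_202_b t 1 2 1 = true := ex3_a s14_pm_202_b k7_pm_202_b

theorem s16_pm_202_b : ∃ t, chk3 f_pm_202_b t 1 1 1 = true := ex3_b s15_pm_202_b k8_pm_202_b

theorem c_pm_202_b : CertFX 1239849684 370763052 1073741824 536870912 1046898278 26843546 false true false .pp 2 0 2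
    ndF1q2b ndF6q2 pcF0 Cut.none Ext.none :=
  certFX1 (fam := false) (s1 := true) (s2 := false) (a := 2) (b := 0) (c := 2) (cn := .pp) (n1 := ndF1q2b) (n2 := ndF6q2) (pc := pcF0) (cut := Cut.none) (xt := Ext.none) (P1 := 1239849684) (W1 := 370763052) (P2 := 1073741824) (W2 := 536870912) (P3 := 1046898278) (W3 := 26843546)
    rfl (fun _ => rfl) s16_pm_202_b

noncomputable def f_pm_203_a : ℕ → ℕ → ℕ → ℕ → Bool := onCell 0 420477299 0 1230186008 1046898278 26843546
    (rowFX 0 false true false .up 2 0 3 (qsf 0 420477299 0 1230186008 0) ndF1q2a ndF6q3 pcF0 Cut.none Ext.none)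

def k0_pm_203_a : ∃ t, chk3 f_pm_203_a t 1 1 1 = true :=
  ⟨(b (l 2) (b (l 2) (b (b (l 2) (b (a (a (l 2) (l 2)) (l 2)) (a (a (a (l 3) (c (l 76940312583) (l 100562632711))) (a (c (c (l 122037469175) (l 116668760055)) (c (l 16777208) (l 16777208))) (b (l 2) (c (l 16777200) (l 16777200))))) (a (a (a (c (l 16777192) (l 16777192)) (l 2)) (l 2)) (l 2))))) (a (b (a (a (l 3) (c (b (c (l 68350377991) (l 16777216)) (c (l 95193923591) (l 16777216))) (b (c (l 16777216) (l 16777216)) (c (l 16777216) (l 16777216))))) (c (c (a (b (l 16777208) (l 16777208)) (b (l 16777200) (l 16777200))) (a (b (l 16777208) (l 16777208)) (b (l 16777200) (l 16777200)))) (c (a (b (l 16777208) (l 16777208)) (b (l 16777200) (l 16777200))) (a (b (l 16777208) (l 16777208)) (b (l 16777200) (l 16777200)))))) (b (a (a (c (c (l 16777216) (l 16777216)) (l 113447534599)) (c (c (l 16777216) (l 16777216)) (c (l 16777216) (l 16777216)))) (a (c (c (l 16777208) (l 16777208)) (c (l 16777208) (l 16777208))) (b (c (l 16777200) (l 16777200))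 (l 16777200)))) (a (c (a (c (l 16777216) (l 16777216)) (c (l 16777216) (l 16777216))) (c (l 16777216) (l 16777216))) (a (b (c (l 16777208) (l 16777208)) (c (l 16777208) (l 16777208))) (l 16777200))))) (a (b (a (a (b (c (l 16777192) (l 16777192)) (l 16777192)) (l 16777184)) (l 16777168)) (a (l 16777192) (l 16777168))) (b (a (l 16722320) (l 16501368)) (a (b (l 16722320) (l 16722320)) (c (l 16504904) (l 16497824))))))))), by decide +kernel⟩

theorem c_pm_203_a : CertFX 0 420477299 0 1230186008 1046898278 26843546 false true false .up 2 0 3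
    ndF1q2a ndF6q3 pcF0 Cut.none Ext.none :=
  certFX0 (fam := false) (s1 := true) (s2 := false) (a := 2) (b := 0) (c := 3) (cn := .up) (n1 := ndF1q2a) (n2 := ndF6q3) (pc := pcF0) (cut := Cut.none) (xt := Ext.none) (P1 := 0) (W1 := 420477299) (P2 := 0) (W2 := 1230186008) (P3 := 1046898278) (W3 := 26843546)
    rfl k0_pm_203_a

noncomputable def f_pm_203_b : ℕ → ℕ → ℕ → ℕ → Bool := onCell 1239849684 370763052 0 1230186008 1046898278 26843546
    (rowFX 0 false true false .up 2 0 3 (qsf 1239849684 370763052 0 1230186008 0) ndF1q2b ndF6q3 pcF0 Cut.none Ext.none)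

def k0_pm_203_b : ∃ t, chk3 f_pm_203_b t 1 1 1 = true :=
  ⟨(b (l 3) (b (l 3) (a (b (l 3) (b (l 3) (l 3))) (l 3)))), by decide +kernel⟩

theorem c_pm_203_b : CertFX 1239849684 370763052 0 1230186008 1046898278 26843546 false true false .up 2 0 3
    ndF1q2b ndF6q3 pcF0 Cut.none Ext.none :=
  certFX0 (fam := false) (s1 := true) (s2 := false) (a := 2) (b := 0) (c := 3) (cn := .up) (n1 := ndF1q2b) (n2 := ndF6q3) (pc := pcF0) (cut := Cut.none) (xt := Ext.none) (P1 := 1239849684) (W1 := 370763052) (P2 := 0) (W2 := 1230186008) (P3 := 1046898278) (W3 := 26843546)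
    rfl k0_pm_203_b

noncomputable def f_pm_213_a : ℕ → ℕ → ℕ → ℕ → Bool := onCell 0 420477299 0 1230186008 1046898278 26843546
    (rowFX 0 false true false .pnn 2 1 3 (qsf 0 420477299 0 1230186008 1) ndF1q2a ndF6q3 pcF1 Cut.none Ext.none)

def k0_pm_213_a : ∃ t, chk3 f_pm_213_a t 2 1 1 = true :=
  ⟨(b (l 3) (b (b (l 3) (a (l 3) (b (l 3) (a (l 3) (c (b (l 89825214407) (l 101636374487)) (b (c (l 96804536215) (l 105394470727)) (a (l 16777208) (l 144586047383)))))))) (b (a (b (l 3) (b (l 3) (b (l 3) (l 1)))) (b (a (b (l 3) (b (c (l 45801799671) (l 79624667127)) (c (l 65666023415) (l 69960990711)))) (c (b (c (l 16777200) (l 133311758295)) (c (l 16777200) (l 16777200))) (b (c (l 134385500103) (l 134385500103)) (c (l 16777200) (l 16777200))))) (c (a (b (c (l 94120181751) (l 92509569015)) (c (l 122037469175) (l 116668760055))) (b (c (l 16777200) (l 16777200)) (c (l 16777200) (l 16777200)))) (a (b (c (l 93583310839) (l 96267665399)) (c (l 16777208) (l 16777208))) (b (c (l 16777200) (l 16777200))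 (c (l 16777200) (l 16777200))))))) (b (l 1) (l 1))))), by decide +kernel⟩

def k1_pm_213_a : ∃ t, chk3 f_pm_213_a t 3 4 1 = true :=
  ⟨(a (l 3) (l 3)), by decide +kernel⟩

def k2_pm_213_a : ∃ t, chk3 f_pm_213_a t 6 5 1 = true :=
  ⟨(a (l 3) (b (l 3) (b (l 3) (b (l 3) (l 3))))), by decide +kernel⟩

def k3_pm_213_a : ∃ t, chk3 f_pm_213_a t 7 5 1 = true :=
  ⟨(b (a (l 3) (b (a (l 3) (a (a (l 3) (b (l 3) (c (l 268602746375) (l 290614452935)))) (a (b (l 3) (c (b (l 254644173255) (l 16516720)) (b (l 288466830967) (l 16490128)))) (b (c (l 278266455847) (l 299204367191)) (c (b (l 16511136) (l 16485264)) (b (l 190219373815) (l 16453736))))))) (a (b (a (l 3) (a (l 3) (c (l 254107304951) (l 282024551175)))) (b (a (l 3) (c (a (l 244443570423) (l 16550296)) (c (l 210620680215) (l 215452502903)))) (a (a (l 3) (c (l 240685512535) (c (l 256791643319) (l 261623478631)))) (c (a (c (l 16557568) (l 16555848)) (l 16533320)) (a (b (l 126868820071) (l 16552264)) (l 16531200)))))) (c (b (a (c (l 170892110535)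 (l 180555785543)) (c (l 16478440) (l 16467640))) (a (b (l 16510416) (l 16497152)) (l 16442096))) (b (a (c (l 185924483799) (l 190756306983)) (a (l 16466472) (l 16429376))) (a (b (l 16501312) (l 16494168)) (l 16427432))))))) (a (b (a (l 3) (a (b (l 3) (c (l 484961997863) (l 550460302695))) (b (c (l 458655275991) (l 512342299623)) (c (l 16657376) (l 184851060967))))) (c (a (b (l 322290207527) (l 222969111351)) (b (l 16685400) (l 16681264))) (a (b (b (l 668035145543) (l 323363962215)) (a (l 16776608) (l 16749984))) (b (l 16684872) (l 16679112))))) (b (a (c (b (a (c (l 166060459239) (l 177334747303)) (b (l 16541024) (l 16543856))) (l 16578432)) (b (b (a (c (l 206862648263) (l 209010131863)) (l 16538456)) (l 16529048)) (l 16578040))) (b (c (a (b (a (l 16496872) (l 16471776)) (l 16481032)) (b (l 16423840) (l 16414904))) (a (b (a (l 16494896) (l 16471768)) (l 16479944)) (b (l 16417760) (l 16412608)))) (c (l 16446592) (l 16444816)))) (b (c (a (l 16575432) (l 16442856)) (a (l 16572776) (l 16437992)))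 (c (l 16441992) (l 16499200)))))), by decide +kernel⟩

def k4_pm_213_a : ∃ t, chk3 f_pm_213_a t 3 6 1 = true :=
  ⟨(a (b (a (b (l 3) (b (l 3) (c (l 405505310583) (l 99488890695)))) (c (b (a (l 409800277879) (l 171429593751)) (b (l 185388236567) (l 16777128))) (b (a (l 407115923319) (b (l 16777144) (l 16777128))) (b (l 186998849175) (l 16777128))))) (b (a (c (b (l 114521276231) (a (l 16777192) (l 16777184))) (b (a (l 16777160) (l 139217337927)) (a (l 125258693959) (l 16777184)))) (c (b (l 16777152) (l 16777176)) (b (l 16777152) (l 16777176)))) (a (c (b (a (l 16777192) (l 16777184)) (l 16777192)) (b (a (l 179482656567) (l 16777184)) (a (l 16777192) (l 16777184)))) (c (b (l 16777176) (l 16777176)) (b (l 16777168) (l 16777168)))))) (a (b (b (c (a (a (l 16776728) (l 16750640)) (l 16681512)) (a (a (l 16755752) (l 16749984)) (l 16679160))) (c (a (l 16763744) (l 16681496)) (a (l 16763400) (l 16679016)))) (b (a (c (l 16763712) (l 16763368)) (c (l 16681464) (l 16678976))) (c (a (l 16763688) (l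 16681440)) (a (l 16742368) (l 16678952))))) (b (b (c (a (l 16572360) (l 16440856)) (a (l 16567464) (l 16433184))) (c (a (l 16572056) (l 16439800)) (a (l 16566736) (l 16431136)))) (b (c (l 16504928) (l 16497856)) (l 16501368))))), by decide +kernel⟩

def k5_pm_213_a : ∃ t, chk3 f_pm_213_a t 3 7 1 = true :=
  ⟨(b (a (a (b (c (b (l 16777192) (c (l 16777192) (l 16777192))) (b (l 16777192) (c (l 16777192) (l 16777192)))) (c (b (c (l 16777192) (l 16777192)) (c (l 16777192) (l 16777192))) (b (c (l 16777192) (l 16777192)) (c (l 16777192) (l 16777192))))) (a (b (b (l 16777176) (c (l 16777176) (l 16777176))) (b (c (l 16777176) (l 16777176)) (l 16777176))) (b (b (l 16777168) (b (l 16777168) (l 16777168))) (l 16777168)))) (b (a (b (c (l 16723024) (l 16721616)) (l 16722320)) (l 16501368)) (a (l 16722320) (l 16501368)))) (a (b (a (a (b (c (l 16777192) (l 16777192)) (l 1)) (l 16777184)) (l 16777168)) (l 1)) (b (a (l 16722320) (l 16501368)) (a (l 1) (l 535829858343))))), by decide +kernel⟩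

theorem s6_pm_213_a : ∃ t, chk3 f_pm_213_a t 3 3 1 = true := ex3_b k4_pm_213_a k5_pm_213_a

theorem s7_pm_213_a : ∃ t, chk3 f_pm_213_a t 3 5 1 = true := ex3_a k2_pm_213_a k3_pm_213_a

theorem s8_pm_213_a : ∃ t, chk3 f_pm_213_a t 3 2 1 = true := ex3_b k1_pm_213_a s7_pm_213_a

theorem s9_pm_213_a : ∃ t, chk3 f_pm_213_a t 3 1 1 = true := ex3_b s8_pm_213_a s6_pm_213_a

theorem s10_pm_213_a : ∃ t, chk3 f_pm_213_a t 1 1 1 = true := ex3_a k0_pm_213_a s9_pm_213_a

theorem c_pm_213_a : CertFX 0 420477299 0 1230186008 1046898278 26843546 false true false .pnn 2 1 3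
    ndF1q2a ndF6q3 pcF1 Cut.none Ext.none :=
  certFX0 (fam := false) (s1 := true) (s2 := false) (a := 2) (b := 1) (c := 3) (cn := .pnn) (n1 := ndF1q2a) (n2 := ndF6q3) (pc := pcF1) (cut := Cut.none) (xt := Ext.none) (P1 := 0) (W1 := 420477299) (P2 := 0) (W2 := 1230186008) (P3 := 1046898278) (W3 := 26843546)
    rfl s10_pm_213_a

noncomputable def f_pm_213_b : ℕ → ℕ → ℕ → ℕ → Bool := onCell 1239849684 370763052 0 1230186008 1046898278 26843546
    (rowFX 0 false true false .pnn 2 1 3 (qsf 1239849684 370763052 0 1230186008 1) ndF1q2b ndF6q3 pcF1 Cut.none Ext.none)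

def k0_pm_213_b : ∃ t, chk3 f_pm_213_b t 1 1 1 = true :=
  ⟨(b (l 3) (b (l 3) (b (l 3) (l 1)))), by decide +kernel⟩

theorem c_pm_213_b : CertFX 1239849684 370763052 0 1230186008 1046898278 26843546 false true false .pnn 2 1 3
    ndF1q2b ndF6q3 pcF1 Cut.none Ext.none :=
  certFX0 (fam := false) (s1 := true) (s2 := false) (a := 2) (b := 1) (c := 3) (cn := .pnn) (n1 := ndF1q2b) (n2 := ndF6q3) (pc := pcF1) (cut := Cut.none) (xt := Ext.none) (P1 := 1239849684) (W1 := 370763052) (P2 := 0) (W2 := 1230186008) (P3 := 1046898278) (W3 := 26843546)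
    rfl k0_pm_213_b

noncomputable def f_pm_303 : ℕ → ℕ → ℕ → ℕ → Bool := onCell 1610612736 469762048 0 1230186008 1046898278 26843546
    (rowFX 0 false true false .npn 3 0 3 (qsf 1610612736 469762048 0 1230186008 0) ndF1q3 ndF6q3 pcF0 Cut.none Ext.none)

def k0_pm_303 : ∃ t, chk3 f_pm_303 t 1 1 1 = true :=
  ⟨(b (l 3) (b (l 3) (a (l 3) (l 3)))), by decide +kernel⟩

theorem c_pm_303 : CertFX 1610612736 469762048 0 1230186008 1046898278 26843546 false true false .npn 3 0 3
    ndF1q3 ndF6q3 pcF0 Cut.none Ext.none :=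
  certFX0 (fam := false) (s1 := true) (s2 := false) (a := 3) (b := 0) (c := 3) (cn := .npn) (n1 := ndF1q3) (n2 := ndF6q3) (pc := pcF0) (cut := Cut.none) (xt := Ext.none) (P1 := 1610612736) (W1 := 469762048) (P2 := 0) (W2 := 1230186008) (P3 := 1046898278) (W3 := 26843546)
    rfl k0_pm_303

noncomputable def f_pm_313 : ℕ → ℕ → ℕ → ℕ → Bool := onCell 1610612736 469762048 0 1230186008 1046898278 26843546
    (rowFX 0 false true false .dn 3 1 3 (qsf 1610612736 469762048 0 1230186008 1) ndF1q3 ndF6q3 pcF1 Cut.none Ext.none)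

def k0_pm_313 : ∃ t, chk3 f_pm_313 t 1 1 1 = true :=
  ⟨(b (l 3) (l 1)), by decide +kernel⟩

theorem c_pm_313 : CertFX 1610612736 469762048 0 1230186008 1046898278 26843546 false true false .dn 3 1 3
    ndF1q3 ndF6q3 pcF1 Cut.none Ext.none :=
  certFX0 (fam := false) (s1 := true) (s2 := false) (a := 3) (b := 1) (c := 3) (cn := .dn) (n1 := ndF1q3) (n2 := ndF6q3) (pc := pcF1) (cut := Cut.none) (xt := Ext.none) (P1 := 1610612736) (W1 := 469762048) (P2 := 0) (W2 := 1230186008) (P3 := 1046898278) (W3 := 26843546)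
    rfl k0_pm_313

noncomputable def f_mm_001 : ℕ → ℕ → ℕ → ℕ → Bool := onCell 67108864 469762048 536870912 469762048 1046898278 26843546
    (rowFX 0 false false false .up 0 0 1 (qsf 67108864 469762048 536870912 469762048 0) ndF1q0 ndF6q1 pcF0 Cut.none Ext.none)

def k0_mm_001 : ∃ t, chk3 f_mm_001 t 1 1 1 = true :=
  ⟨(l 3), by decide +kernel⟩

theorem c_mm_001 : CertFX 67108864 469762048 536870912 469762048 1046898278 26843546 false false false .up 0 0 1
    ndF1q0 ndF6q1 pcF0 Cut.none Ext.none :=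
  certFX0 (fam := false) (s1 := false) (s2 := false) (a := 0) (b := 0) (c := 1) (cn := .up) (n1 := ndF1q0) (n2 := ndF6q1) (pc := pcF0) (cut := Cut.none) (xt := Ext.none) (P1 := 67108864) (W1 := 469762048) (P2 := 536870912) (W2 := 469762048) (P3 := 1046898278) (W3 := 26843546)
    rfl k0_mm_001

noncomputable def f_mm_011 : ℕ → ℕ → ℕ → ℕ → Bool := onCell 67108864 469762048 536870912 469762048 1046898278 26843546
    (rowFX 0 false false false .pnn 0 1 1 (qsf 67108864 469762048 536870912 469762048 1) ndF1q0 ndF6q1 pcF1 Cut.none Ext.none)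

def k0_mm_011 : ∃ t, chk3 f_mm_011 t 1 1 1 = true :=
  ⟨(l 3), by decide +kernel⟩

theorem c_mm_011 : CertFX 67108864 469762048 536870912 469762048 1046898278 26843546 false false false .pnn 0 1 1
    ndF1q0 ndF6q1 pcF1 Cut.none Ext.none :=
  certFX0 (fam := false) (s1 := false) (s2 := false) (a := 0) (b := 1) (c := 1) (cn := .pnn) (n1 := ndF1q0) (n2 := ndF6q1) (pc := pcF1) (cut := Cut.none) (xt := Ext.none) (P1 := 67108864) (W1 := 469762048) (P2 := 536870912) (W2 := 469762048) (P3 := 1046898278) (W3 := 26843546)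
    rfl k0_mm_011

noncomputable def f_mm_012 : ℕ → ℕ → ℕ → ℕ → Bool := onCell 67108864 469762048 1073741824 536870912 1046898278 26843546
    (rowFX 0 false false false .pnp 0 1 2 (qsf 67108864 469762048 1073741824 536870912 1) ndF1q0 ndF6q2 pcF1 Cut.none Ext.none)

def k0_mm_012 : ∃ t, chk3 f_mm_012 t 1 1 1 = true :=
  ⟨(l 5), by decide +kernel⟩

theorem c_mm_012 : CertFX 67108864 469762048 1073741824 536870912 1046898278 26843546 false false false .pnp 0 1 2
    ndF1q0 ndF6q2 pcF1 Cut.none Ext.none :=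
  certFX0 (fam := false) (s1 := false) (s2 := false) (a := 0) (b := 1) (c := 2) (cn := .pnp) (n1 := ndF1q0) (n2 := ndF6q2) (pc := pcF1) (cut := Cut.none) (xt := Ext.none) (P1 := 67108864) (W1 := 469762048) (P2 := 1073741824) (W2 := 536870912) (P3 := 1046898278) (W3 := 26843546)
    rfl k0_mm_012

noncomputable def f_mm_022 : ℕ → ℕ → ℕ → ℕ → Bool := onCell 67108864 469762048 1073741824 536870912 1046898278 26843546
    (rowFX 0 false false false .pp 0 2 2 (qsf 67108864 469762048 1073741824 536870912 2) ndF1q0 ndF6q2 pcF2 Cut.none Ext.none)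

def k0_mm_022 : ∃ t, chk3 f_mm_022 t 1 1 1 = true :=
  ⟨(l 5), by decide +kernel⟩

theorem c_mm_022 : CertFX 67108864 469762048 1073741824 536870912 1046898278 26843546 false false false .pp 0 2 2
    ndF1q0 ndF6q2 pcF2 Cut.none Ext.none :=
  certFX0 (fam := false) (s1 := false) (s2 := false) (a := 0) (b := 2) (c := 2) (cn := .pp) (n1 := ndF1q0) (n2 := ndF6q2) (pc := pcF2) (cut := Cut.none) (xt := Ext.none) (P1 := 67108864) (W1 := 469762048) (P2 := 1073741824) (W2 := 536870912) (P3 := 1046898278) (W3 := 26843546)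
    rfl k0_mm_022

noncomputable def f_mm_023 : ℕ → ℕ → ℕ → ℕ → Bool := onCell 67108864 469762048 0 1230186008 1046898278 26843546
    (rowFX 0 false false false .up 0 2 3 (qsf 67108864 469762048 0 1230186008 2) ndF1q0 ndF6q3 pcF2 Cut.none Ext.none)

def k0_mm_023 : ∃ t, chk3 f_mm_023 t 1 1 1 = true :=
  ⟨(l 5), by decide +kernel⟩

theorem c_mm_023 : CertFX 67108864 469762048 0 1230186008 1046898278 26843546 false false false .up 0 2 3
    ndF1q0 ndF6q3 pcF2 Cut.none Ext.none :=
  certFX0 (fam := false) (s1 := false) (s2 := false) (a := 0) (b := 2) (c := 3) (cn := .up) (n1 := ndF1q0) (n2 := ndF6q3) (pc := pcF2) (cut := Cut.none) (xt := Ext.none) (P1 := 67108864) (W1 := 469762048) (P2 := 0) (W2 := 1230186008) (P3 := 1046898278) (W3 := 26843546)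
    rfl k0_mm_023

noncomputable def f_mm_033 : ℕ → ℕ → ℕ → ℕ → Bool := onCell 67108864 469762048 0 1230186008 1046898278 26843546
    (rowFX 0 false false false .pnn 0 3 3 (qsf 67108864 469762048 0 1230186008 3) ndF1q0 ndF6q3 pcF3 Cut.none Ext.none)

def k0_mm_033 : ∃ t, chk3 f_mm_033 t 1 1 1 = true :=
  ⟨(l 5), by decide +kernel⟩

theorem c_mm_033 : CertFX 67108864 469762048 0 1230186008 1046898278 26843546 false false false .pnn 0 3 3
    ndF1q0 ndF6q3 pcF3 Cut.none Ext.none :=
  certFX0 (fam := false) (s1 := false) (s2 := false) (a := 0) (b := 3) (c := 3) (cn := .pnn) (n1 := ndF1q0) (n2 := ndF6q3) (pc := pcF3) (cut := Cut.none) (xt := Ext.none) (P1 := 67108864) (W1 := 469762048) (P2 := 0) (W2 := 1230186008) (P3 := 1046898278) (W3 := 26843546)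
    rfl k0_mm_033

noncomputable def f_mm_101 : ℕ → ℕ → ℕ → ℕ → Bool := onCell 536870912 536870912 0 536870912 1046898278 26843546
    (rowFX 1 false false false .npn 1 0 1 (qsf 536870912 536870912 536870912 469762048 0) ndF1q1 ndF6q1 pcF0 Cut.none Ext.none)

def k0_mm_101 : ∃ t, chk3 f_mm_101 t 1 1 1 = true :=
  ⟨(l 3), by decide +kernel⟩

theorem c_mm_101 : CertFX 536870912 536870912 536870912 469762048 1046898278 26843546 false false false .npn 1 0 1
    ndF1q1 ndF6q1 pcF0 Cut.none Ext.none :=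
  certFX1 (fam := false) (s1 := false) (s2 := false) (a := 1) (b := 0) (c := 1) (cn := .npn) (n1 := ndF1q1) (n2 := ndF6q1) (pc := pcF0) (cut := Cut.none) (xt := Ext.none) (P1 := 536870912) (W1 := 536870912) (P2 := 536870912) (W2 := 469762048) (P3 := 1046898278) (W3 := 26843546)
    rfl (fun _ => rfl) k0_mm_101

noncomputable def f_mm_102 : ℕ → ℕ → ℕ → ℕ → Bool := onCell 536870912 536870912 1073741824 536870912 1046898278 26843546
    (rowFX 0 false false false .npp 1 0 2 (qsf 536870912 536870912 1073741824 536870912 0) ndF1q1 ndF6q2 pcF0 Cut.none Ext.none)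

def k0_mm_102 : ∃ t, chk3 f_mm_102 t 1 1 1 = true :=
  ⟨(l 3), by decide +kernel⟩

theorem c_mm_102 : CertFX 536870912 536870912 1073741824 536870912 1046898278 26843546 false false false .npp 1 0 2
    ndF1q1 ndF6q2 pcF0 Cut.none Ext.none :=
  certFX0 (fam := false) (s1 := false) (s2 := false) (a := 1) (b := 0) (c := 2) (cn := .npp) (n1 := ndF1q1) (n2 := ndF6q2) (pc := pcF0) (cut := Cut.none) (xt := Ext.none) (P1 := 536870912) (W1 := 536870912) (P2 := 1073741824) (W2 := 536870912) (P3 := 1046898278) (W3 := 26843546)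
    rfl k0_mm_102

noncomputable def f_mm_112 : ℕ → ℕ → ℕ → ℕ → Bool := onCell 536870912 536870912 1073741824 536870912 1046898278 26843546
    (rowFX 0 false false false .dn 1 1 2 (qsf 536870912 536870912 1073741824 536870912 1) ndF1q1 ndF6q2 pcF1 Cut.none Ext.none)

def k0_mm_112 : ∃ t, chk3 f_mm_112 t 1 1 1 = true :=
  ⟨(l 3), by decide +kernel⟩

theorem c_mm_112 : CertFX 536870912 536870912 1073741824 536870912 1046898278 26843546 false false false .dn 1 1 2
    ndF1q1 ndF6q2 pcF1 Cut.none Ext.none :=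
  certFX0 (fam := false) (s1 := false) (s2 := false) (a := 1) (b := 1) (c := 2) (cn := .dn) (n1 := ndF1q1) (n2 := ndF6q2) (pc := pcF1) (cut := Cut.none) (xt := Ext.none) (P1 := 536870912) (W1 := 536870912) (P2 := 1073741824) (W2 := 536870912) (P3 := 1046898278) (W3 := 26843546)
    rfl k0_mm_112

noncomputable def f_mm_113 : ℕ → ℕ → ℕ → ℕ → Bool := onCell 536870912 536870912 0 1230186008 1046898278 26843546
    (rowFX 0 false false false .nn 1 1 3 (qsf 536870912 536870912 0 1230186008 1) ndF1q1 ndF6q3 pcF1 Cut.none Ext.none)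

def k0_mm_113 : ∃ t, chk3 f_mm_113 t 1 1 1 = true :=
  ⟨(b (l 5) (l 5)), by decide +kernel⟩

theorem c_mm_113 : CertFX 536870912 536870912 0 1230186008 1046898278 26843546 false false false .nn 1 1 3
    ndF1q1 ndF6q3 pcF1 Cut.none Ext.none :=
  certFX0 (fam := false) (s1 := false) (s2 := false) (a := 1) (b := 1) (c := 3) (cn := .nn) (n1 := ndF1q1) (n2 := ndF6q3) (pc := pcF1) (cut := Cut.none) (xt := Ext.none) (P1 := 536870912) (W1 := 536870912) (P2 := 0) (W2 := 1230186008) (P3 := 1046898278) (W3 := 26843546)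
    rfl k0_mm_113

noncomputable def f_mm_123 : ℕ → ℕ → ℕ → ℕ → Bool := onCell 536870912 536870912 0 1230186008 1046898278 26843546
    (rowFX 0 false false false .npn 1 2 3 (qsf 536870912 536870912 0 1230186008 2) ndF1q1 ndF6q3 pcF2 Cut.none Ext.none)

def k0_mm_123 : ∃ t, chk3 f_mm_123 t 1 1 1 = true :=
  ⟨(b (l 5) (l 5)), by decide +kernel⟩

theorem c_mm_123 : CertFX 536870912 536870912 0 1230186008 1046898278 26843546 false false false .npn 1 2 3
    ndF1q1 ndF6q3 pcF2 Cut.none Ext.none :=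
  certFX0 (fam := false) (s1 := false) (s2 := false) (a := 1) (b := 2) (c := 3) (cn := .npn) (n1 := ndF1q1) (n2 := ndF6q3) (pc := pcF2) (cut := Cut.none) (xt := Ext.none) (P1 := 536870912) (W1 := 536870912) (P2 := 0) (W2 := 1230186008) (P3 := 1046898278) (W3 := 26843546)
    rfl k0_mm_123

noncomputable def f_mm_133 : ℕ → ℕ → ℕ → ℕ → Bool := onCell 536870912 536870912 0 1230186008 1046898278 26843546
    (rowFX 0 false false false .dn 1 3 3 (qsf 536870912 536870912 0 1230186008 3) ndF1q1 ndF6q3 pcF3 Cut.none Ext.none)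

def k0_mm_133 : ∃ t, chk3 f_mm_133 t 1 1 1 = true :=
  ⟨(b (l 5) (l 1)), by decide +kernel⟩

theorem c_mm_133 : CertFX 536870912 536870912 0 1230186008 1046898278 26843546 false false false .dn 1 3 3
    ndF1q1 ndF6q3 pcF3 Cut.none Ext.none :=
  certFX0 (fam := false) (s1 := false) (s2 := false) (a := 1) (b := 3) (c := 3) (cn := .dn) (n1 := ndF1q1) (n2 := ndF6q3) (pc := pcF3) (cut := Cut.none) (xt := Ext.none) (P1 := 536870912) (W1 := 536870912) (P2 := 0) (W2 := 1230186008) (P3 := 1046898278) (W3 := 26843546)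
    rfl k0_mm_133

noncomputable def f_mm_202_a : ℕ → ℕ → ℕ → ℕ → Bool := onCell 0 420477299 0 536870912 1046898278 26843546
    (rowFX 1 false false false .pp 2 0 2 (qsf 0 420477299 1073741824 536870912 0) ndF1q2a ndF6q2 pcF0 Cut.none Ext.none)

def k0_mm_202_a : ∃ t, chk3 f_mm_202_a t 1 1 1 = true :=
  ⟨(l 3), by decide +kernel⟩

theorem c_mm_202_a : CertFX 0 420477299 1073741824 536870912 1046898278 26843546 false false false .pp 2 0 2
    ndF1q2a ndF6q2 pcF0 Cut.none Ext.none :=
  certFX1 (fam := false) (s1 := false) (s2 := false) (a := 2) (b := 0) (c := 2) (cn := .pp) (n1 := ndF1q2a) (n2 := ndF6q2) (pc := pcF0) (cut := Cut.none) (xt := Ext.none) (P1 := 0) (W1 := 420477299) (P2 := 1073741824) (W2 := 536870912) (P3 := 1046898278) (W3 := 26843546)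
    rfl (fun _ => rfl) k0_mm_202_a

noncomputable def f_mm_202_b : ℕ → ℕ → ℕ → ℕ → Bool := onCell 1239849684 370763052 1073741824 536870912 1046898278 26843546
    (rowFX 0 false false false .pp 2 0 2 (qsf 1239849684 370763052 1073741824 536870912 0) ndF1q2b ndF6q2 pcF0 Cut.none Ext.none)

def k0_mm_202_b : ∃ t, chk3 f_mm_202_b t 1 1 1 = true :=
  ⟨(b (a (b (l 1) (l 3)) (l 1)) (l 3)), by decide +kernel⟩

theorem c_mm_202_b : CertFX 1239849684 370763052 1073741824 536870912 1046898278 26843546 false false false .pp 2 0 2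
    ndF1q2b ndF6q2 pcF0 Cut.none Ext.none :=
  certFX0 (fam := false) (s1 := false) (s2 := false) (a := 2) (b := 0) (c := 2) (cn := .pp) (n1 := ndF1q2b) (n2 := ndF6q2) (pc := pcF0) (cut := Cut.none) (xt := Ext.none) (P1 := 1239849684) (W1 := 370763052) (P2 := 1073741824) (W2 := 536870912) (P3 := 1046898278) (W3 := 26843546)
    rfl k0_mm_202_b

noncomputable def f_mm_203_a : ℕ → ℕ → ℕ → ℕ → Bool := onCell 0 420477299 0 1230186008 1046898278 26843546
    (rowFX 0 false false false .up 2 0 3 (qsf 0 420477299 0 1230186008 0) ndF1q2a ndF6q3 pcF0 Cut.none Ext.none)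

def k0_mm_203_a : ∃ t, chk3 f_mm_203_a t 1 1 1 = true :=
  ⟨(b (l 2) (l 3)), by decide +kernel⟩

theorem c_mm_203_a : CertFX 0 420477299 0 1230186008 1046898278 26843546 false false false .up 2 0 3
    ndF1q2a ndF6q3 pcF0 Cut.none Ext.none :=
  certFX0 (fam := false) (s1 := false) (s2 := false) (a := 2) (b := 0) (c := 3) (cn := .up) (n1 := ndF1q2a) (n2 := ndF6q3) (pc := pcF0) (cut := Cut.none) (xt := Ext.none) (P1 := 0) (W1 := 420477299) (P2 := 0) (W2 := 1230186008) (P3 := 1046898278) (W3 := 26843546)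
    rfl k0_mm_203_a

noncomputable def f_mm_203_b : ℕ → ℕ → ℕ → ℕ → Bool := onCell 1239849684 370763052 0 1230186008 1046898278 26843546
    (rowFX 0 false false false .up 2 0 3 (qsf 1239849684 370763052 0 1230186008 0) ndF1q2b ndF6q3 pcF0 Cut.none Ext.none)

def k0_mm_203_b : ∃ t, chk3 f_mm_203_b t 1 1 1 = true :=
  ⟨(b (l 3) (l 3)), by decide +kernel⟩

theorem c_mm_203_b : CertFX 1239849684 370763052 0 1230186008 1046898278 26843546 false false false .up 2 0 3
    ndF1q2b ndF6q3 pcF0 Cut.none Ext.none :=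
  certFX0 (fam := false) (s1 := false) (s2 := false) (a := 2) (b := 0) (c := 3) (cn := .up) (n1 := ndF1q2b) (n2 := ndF6q3) (pc := pcF0) (cut := Cut.none) (xt := Ext.none) (P1 := 1239849684) (W1 := 370763052) (P2 := 0) (W2 := 1230186008) (P3 := 1046898278) (W3 := 26843546)
    rfl k0_mm_203_b

noncomputable def f_mm_213_a : ℕ → ℕ → ℕ → ℕ → Bool := onCell 0 420477299 0 1230186008 1046898278 26843546
    (rowFX 0 false false false .pnn 2 1 3 (qsf 0 420477299 0 1230186008 1) ndF1q2a ndF6q3 pcF1 Cut.none Ext.none)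

def k0_mm_213_a : ∃ t, chk3 f_mm_213_a t 1 1 1 = true :=
  ⟨(b (l 3) (l 3)), by decide +kernel⟩

theorem c_mm_213_a : CertFX 0 420477299 0 1230186008 1046898278 26843546 false false false .pnn 2 1 3
    ndF1q2a ndF6q3 pcF1 Cut.none Ext.none :=
  certFX0 (fam := false) (s1 := false) (s2 := false) (a := 2) (b := 1) (c := 3) (cn := .pnn) (n1 := ndF1q2a) (n2 := ndF6q3) (pc := pcF1) (cut := Cut.none) (xt := Ext.none) (P1 := 0) (W1 := 420477299) (P2 := 0) (W2 := 1230186008) (P3 := 1046898278) (W3 := 26843546)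
    rfl k0_mm_213_a

noncomputable def f_mm_213_b : ℕ → ℕ → ℕ → ℕ → Bool := onCell 1239849684 370763052 0 1230186008 1046898278 26843546
    (rowFX 0 false false false .pnn 2 1 3 (qsf 1239849684 370763052 0 1230186008 1) ndF1q2b ndF6q3 pcF1 Cut.none Ext.none)

def k0_mm_213_b : ∃ t, chk3 f_mm_213_b t 1 1 1 = true :=
  ⟨(b (l 3) (l 3)), by decide +kernel⟩

theorem c_mm_213_b : CertFX 1239849684 370763052 0 1230186008 1046898278 26843546 false false false .pnn 2 1 3
    ndF1q2b ndF6q3 pcF1 Cut.none Ext.none :=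
  certFX0 (fam := false) (s1 := false) (s2 := false) (a := 2) (b := 1) (c := 3) (cn := .pnn) (n1 := ndF1q2b) (n2 := ndF6q3) (pc := pcF1) (cut := Cut.none) (xt := Ext.none) (P1 := 1239849684) (W1 := 370763052) (P2 := 0) (W2 := 1230186008) (P3 := 1046898278) (W3 := 26843546)
    rfl k0_mm_213_b

noncomputable def f_mm_303 : ℕ → ℕ → ℕ → ℕ → Bool := onCell 1610612736 469762048 0 1230186008 1046898278 26843546
    (rowFX 0 false false false .npn 3 0 3 (qsf 1610612736 469762048 0 1230186008 0) ndF1q3 ndF6q3 pcF0 Cut.none Ext.none)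

def k0_mm_303 : ∃ t, chk3 f_mm_303 t 1 1 1 = true :=
  ⟨(b (l 3) (l 3)), by decide +kernel⟩

theorem c_mm_303 : CertFX 1610612736 469762048 0 1230186008 1046898278 26843546 false false false .npn 3 0 3
    ndF1q3 ndF6q3 pcF0 Cut.none Ext.none :=
  certFX0 (fam := false) (s1 := false) (s2 := false) (a := 3) (b := 0) (c := 3) (cn := .npn) (n1 := ndF1q3) (n2 := ndF6q3) (pc := pcF0) (cut := Cut.none) (xt := Ext.none) (P1 := 1610612736) (W1 := 469762048) (P2 := 0) (W2 := 1230186008) (P3 := 1046898278) (W3 := 26843546)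
    rfl k0_mm_303

noncomputable def f_mm_313 : ℕ → ℕ → ℕ → ℕ → Bool := onCell 1610612736 469762048 0 1230186008 1046898278 26843546
    (rowFX 0 false false false .dn 3 1 3 (qsf 1610612736 469762048 0 1230186008 1) ndF1q3 ndF6q3 pcF1 Cut.none Ext.none)

def k0_mm_313 : ∃ t, chk3 f_mm_313 t 1 1 1 = true :=
  ⟨(b (l 3) (l 1)), by decide +kernel⟩

theorem c_mm_313 : CertFX 1610612736 469762048 0 1230186008 1046898278 26843546 false false false .dn 3 1 3
    ndF1q3 ndF6q3 pcF1 Cut.none Ext.none :=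
  certFX0 (fam := false) (s1 := false) (s2 := false) (a := 3) (b := 1) (c := 3) (cn := .dn) (n1 := ndF1q3) (n2 := ndF6q3) (pc := pcF1) (cut := Cut.none) (xt := Ext.none) (P1 := 1610612736) (W1 := 469762048) (P2 := 0) (W2 := 1230186008) (P3 := 1046898278) (W3 := 26843546)
    rfl k0_mm_313

end Pool.Agent.Strip051.G.IE1.Tab.C.FB16

namespace Pool.Agent.Strip051.G.IE1.Tab.C.FB17

open Pool.Agent.Strip051.PB Pool.Agent.Strip051.PB.T
open Pool.Agent.Strip051.G.IE1.Tab

noncomputable def f_pp_001 : ℕ → ℕ → ℕ → ℕ → Bool := onCell 67108864 469762048 536870912 536870912 1046898278 26843546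
    (rowFX 0 false true true .up 0 0 1 (qsf 67108864 469762048 536870912 536870912 0) ndF1q0 ndF7q1 pcF0 Cut.none Ext.none)

def k0_pp_001 : ∃ t, chk3 f_pp_001 t 1 1 1 = true :=
  ⟨(l 3), by decide +kernel⟩

theorem c_pp_001 : CertFX 67108864 469762048 536870912 536870912 1046898278 26843546 false true true .up 0 0 1
    ndF1q0 ndF7q1 pcF0 Cut.none Ext.none :=
  certFX0 (fam := false) (s1 := true) (s2 := true) (a := 0) (b := 0) (c := 1) (cn := .up) (n1 := ndF1q0) (n2 := ndF7q1) (pc := pcF0) (cut := Cut.none) (xt := Ext.none) (P1 := 67108864) (W1 := 469762048) (P2 := 536870912) (W2 := 536870912) (P3 := 1046898278) (W3 := 26843546)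
    rfl k0_pp_001

noncomputable def f_pp_011 : ℕ → ℕ → ℕ → ℕ → Bool := onCell 67108864 469762048 536870912 536870912 1046898278 26843546
    (rowFX 0 false true true .pnn 0 1 1 (qsf 67108864 469762048 536870912 536870912 1) ndF1q0 ndF7q1 pcF1 Cut.none Ext.none)

def k0_pp_011 : ∃ t, chk3 f_pp_011 t 1 1 1 = true :=
  ⟨(l 3), by decide +kernel⟩

theorem c_pp_011 : CertFX 67108864 469762048 536870912 536870912 1046898278 26843546 false true true .pnn 0 1 1
    ndF1q0 ndF7q1 pcF1 Cut.none Ext.none :=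
  certFX0 (fam := false) (s1 := true) (s2 := true) (a := 0) (b := 1) (c := 1) (cn := .pnn) (n1 := ndF1q0) (n2 := ndF7q1) (pc := pcF1) (cut := Cut.none) (xt := Ext.none) (P1 := 67108864) (W1 := 469762048) (P2 := 536870912) (W2 := 536870912) (P3 := 1046898278) (W3 := 26843546)
    rfl k0_pp_011

noncomputable def f_pp_012 : ℕ → ℕ → ℕ → ℕ → Bool := onCell 67108864 469762048 536870912 536870912 1046898278 26843546
    (rowFX 1 false true true .pnp 0 1 2 (qsf 67108864 469762048 1073741824 536870912 1) ndF1q0 ndF7q2 pcF1 Cut.none Ext.none)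

def k0_pp_012 : ∃ t, chk3 f_pp_012 t 1 1 1 = true :=
  ⟨(a (b (l 3) (l 3)) (l 3)), by decide +kernel⟩

theorem c_pp_012 : CertFX 67108864 469762048 1073741824 536870912 1046898278 26843546 false true true .pnp 0 1 2
    ndF1q0 ndF7q2 pcF1 Cut.none Ext.none :=
  certFX1 (fam := false) (s1 := true) (s2 := true) (a := 0) (b := 1) (c := 2) (cn := .pnp) (n1 := ndF1q0) (n2 := ndF7q2) (pc := pcF1) (cut := Cut.none) (xt := Ext.none) (P1 := 67108864) (W1 := 469762048) (P2 := 1073741824) (W2 := 536870912) (P3 := 1046898278) (W3 := 26843546)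
    rfl (fun _ => rfl) k0_pp_012

noncomputable def f_pp_022 : ℕ → ℕ → ℕ → ℕ → Bool := onCell 67108864 469762048 1073741824 536870912 1046898278 26843546
    (rowFX 1 false true true .pp 0 2 2 (qsf 67108864 469762048 1073741824 536870912 2) ndF1q0 ndF7q2 pcF2 Cut.none Ext.none)

def k0_pp_022 : ∃ t, chk3 f_pp_022 t 1 8 1 = true :=
  ⟨(a (a (b (l 3) (a (a (b (a (a (b (l 3) (b (l 3) (b (c (l 16660152) (l 16658200)) (c (l 124721549559) (l 16653352))))) (l 3)) (l 3)) (b (a (c (b (a (c (l 16653736) (l 16653440)) (c (l 16650768) (l 16649600))) (c (a (l 16656512) (l 16646592)) (l 16632144))) (b (a (c (l 16652216) (l 16650992)) (c (l 16648208) (l 16646824))) (c (l 16610008) (a (l 16654408) (l 16643080))))) (b (l 3) (c (c (l 16645496) (l 16644080)) (c (l 16642568) (l 16641056))))) (c (a (b (c (l 16640624) (l 16662208)) (c (a (l 16677728) (l 16665840)) (a (l 16677528) (l 16665232)))) (b (c (l 16644328) (l 16643064)) (c (l 16649640) (l 16648520)))) (c (a (b (l 16661280) (a (l 16676992) (l 16664408)))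 (b (l 16641648) (l 16647288))) (a (b (l 16660352) (a (l 16676448) (l 16663576))) (b (l 16640224) (l 16646056))))))) (a (a (b (l 3) (b (l 3) (c (c (l 16643248) (l 16641736)) (c (l 16640184) (l 369534654279))))) (l 3)) (l 3))) (l 3))) (l 3)) (l 3)), by decide +kernel⟩

def k1_pp_022 : ∃ t, chk3 f_pp_022 t 8 18 1 = true :=
  ⟨(a (b (c (b (a (c (b (a (l 16680184) (l 16672408)) (l 16675472)) (b (a (l 16679936) (l 16671864)) (l 16676104))) (c (b (l 16656472) (l 16658840)) (b (l 16655496) (l 16658016)))) (a (c (l 16665728) (l 16666688)) (c (b (l 16657984) (l 16657192)) (b (l 16657272) (l 16656592))))) (b (a (c (b (a (l 16679544) (l 16671248)) (l 16654760)) (b (a (l 16679160) (l 16670624)) (a (l 16682992) (l 16667352)))) (c (b (l 16654472) (l 16657144)) (b (l 16653448) (l 16656272)))) (a (c (l 16666672) (l 16666648)) (c (b (l 16656504) (l 16655944)) (b (l 16655744) (l 16634328)))))) (c (b (a (b (l 16610872) (l 16581536)) (a (l 16661016) (c (l 16660264) (l 16659816)))) (a (c (l 16555112) (l 16552600))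 (c (l 16653008) (l 16652608)))) (b (a (a (l 16599704) (l 16633352)) (a (l 16661184) (c (l 16638352) (l 16637872)))) (a (c (l 16551272) (l 16549952)) (c (l 16652264) (l 16651920)))))) (a (b (c (b (b (c (l 16643496) (l 16642072)) (c (l 16643576) (l 16642264))) (c (l 16618432) (l 16617232))) (b (b (c (l 16640632) (l 16639200)) (c (l 16640944) (l 16639624))) (c (l 16616016) (l 16593832)))) (c (b (c (b (l 16633160) (l 16606968)) (b (l 16632040) (l 16605880))) (b (c (l 16610600) (l 16609680)) (l 16623720))) (b (c (b (l 16630904) (l 16604784)) (b (l 16629768) (l 16603688))) (b (c (l 16608744) (l 16607808)) (l 16622504))))) (b (b (b (l 3) (c (l 16662640) (l 168208070423))) (c (c (l 16651920) (l 16650728)) (c (l 16649528) (l 16648328)))) (c (b (c (l 16637232) (l 16636048)) (c (b (l 16629528) (l 16627016)) (b (l 16628400) (l 16625968)))) (b (c (l 16634864) (l 16633680)) (c (b (l 16627280) (l 16624920)) (b (l 16626152) (l 16623872)))))))), by decide +kernel⟩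

def k2_pp_022 : ∃ t, chk3 f_pp_022 t 9 18 1 = true :=
  ⟨(a (a (b (b (l 3) (b (l 3) (c (l 16676232) (l 16674424)))) (c (b (c (l 16663664) (l 16662752)) (b (l 16652016) (l 16645384))) (b (c (l 16661832) (l 16660920)) (c (l 16647232) (l 16646344))))) (b (l 3) (b (c (c (l 16694368) (l 16693792)) (c (l 16693216) (l 16692640))) (c (c (l 16674592) (l 16673976)) (c (l 16673360) (l 16672744)))))) (b (l 3) (b (l 3) (c (a (c (l 16697520) (l 16697128)) (l 16681176)) (a (c (l 16696728) (l 16675360)) (l 16680080)))))), by decide +kernel⟩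

def k3_pp_022 : ∃ t, chk3 f_pp_022 t 8 19 1 = true :=
  ⟨(b (b (c (a (a (c (l 16448184) (l 16465832)) (b (l 16569944) (l 16540840))) (a (c (l 16668592) (l 16668480)) (b (c (l 16613080) (l 16612248)) (l 16654040)))) (a (a (c (l 16463696) (l 16482536)) (b (l 16588968) (l 16559136))) (a (c (l 16668368) (l 16668248)) (b (c (l 16590440) (l 16589600)) (l 16653176))))) (c (a (a (l 16407504) (l 16512656)) (c (l 16524208) (l 16544472))) (a (a (l 16441976) (l 16529640)) (a (l 16568936) (l 16643536))))) (c (a (a (b (l 16404128) (l 16369384)) (b (l 16479288) (l 16436648))) (b (a (l 16528648) (l 16573648)) (a (l 16499808) (l 16517376)))) (a (b (a (l 16395640) (l 16473944)) (a (l 16360224) (l 16430328))) (b (a (l 16546072) (l 16570512)) (a (l 16495000) (l 16512704)))))), by decide +kernel⟩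

def k4_pp_022 : ∃ t, chk3 f_pp_022 t 9 19 1 = true :=
  ⟨(b (b (c (a (b (c (l 16597096) (b (l 16655296) (l 16659136))) (a (c (l 16650248) (l 16649664)) (l 16653632))) (b (c (l 16689632) (l 16689200)) (c (l 16707128) (l 16707064)))) (a (b (c (b (l 16654600) (l 16658560)) (a (l 16622168) (l 16666936))) (c (a (l 16649080) (l 16674136)) (a (l 16648496) (l 16673824)))) (b (c (l 16667792) (l 33990379271)) (c (l 16707000) (l 16706944))))) (a (a (b (b (c (l 16673128) (l 16672800)) (l 16647440)) (a (l 16612024) (l 16638232))) (c (c (b (l 16680088) (l 16644744)) (b (l 16679928) (l 16644016))) (c (b (l 16679760) (l 16643288)) (b (l 16679600) (l 16642552))))) (c (c (b (l 16685536) (l 16655576)) (b (l 16685144) (l 16654720))) (c (b (l 16684760) (l 16653856)) (b (l 16684368) (l 16652992)))))) (c (b (a (b (l 16600832) (l 16564632)) (b (c (l 16603192) (l 16601840)) (c (l 16551240) (l 16549400)))) (a (l 16517360) (b (c (l 16540552) (l 16538232)) (l 16527808)))) (b (a (b (l 16598088) (l 16560776)) (c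 (b (l 16579512) (a (l 16574792) (l 16605984))) (b (l 16578152) (a (l 16572848) (l 16604296))))) (a (l 16512128) (b (c (l 16514936) (l 16533584)) (l 16522176)))))), by decide +kernel⟩

def k5_pp_022 : ∃ t, chk3 f_pp_022 t 5 9 1 = true :=
  ⟨(b (l 3) (b (a (a (b (a (b (l 3) (c (l 16715344) (l 16714736))) (l 3)) (c (c (l 16698440) (l 16677144)) (c (l 16655840) (a (l 16705808) (l 16731288))))) (a (b (l 3) (c (l 16714816) (c (l 16756640) (l 16756552)))) (l 3))) (l 3)) (b (a (c (c (a (l 16623232) (a (l 16686808) (l 16743432))) (a (b (l 16677712) (l 16650416)) (a (l 16685952) (l 16722296)))) (a (c (b (l 16676736) (l 16649024)) (b (l 16675760) (l 16647640))) (a (c (l 16685104) (l 16684248)) (c (l 16722128) (l 16721960))))) (l 3)) (a (c (a (c (b (l 16624880) (l 16597384)) (b (l 16623080) (l 16595176))) (c (a (l 16633544) (l 16762096)) (a (l 16632232) (l 16740928)))) (a (c (b (l 16621288) (l 16592976)) (b (l 16619496) (l 16590776))) (c (a (l 16630912) (l 16740728)) (a (l 16629600) (l 16740536)))))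 (a (c (c (l 16777216) (l 16777216)) (c (l 16777216) (l 16777216))) (l 3)))))), by decide +kernel⟩

def k6_pp_022 : ∃ t, chk3 f_pp_022 t 3 9 1 = true :=
  ⟨(a (l 3) (l 3)), by decide +kernel⟩

def k7_pp_022 : ∃ t, chk3 f_pp_022 t 2 40 1 = true :=
  ⟨(a (a (a (c (b (a (l 16342424) (l 16403272)) (a (b (l 16320008) (l 16299928)) (l 16377232))) (b (a (l 16332832) (l 16396288)) (a (b (l 16310024) (l 16289488)) (l 16369832)))) (c (b (a (l 16460632) (l 16472960)) (l 16412904)) (b (l 16439904) (l 16427440)))) (c (a (b (l 16466104) (l 16425920)) (b (l 16485064) (l 16439112))) (a (b (l 16459472) (l 16418280)) (b (c (l 16479904) (l 16476464)) (l 16430976))))) (a (c (b (a (b (c (l 16528784) (l 16505224)) (a (l 16524512) (b (l 16569408) (l 16559816)))) (b (c (l 16628608) (l 16627760)) (c (l 16606832) (l 16605976)))) (a (a (l 16488664) (l 16550168)) (b (c (a (l 16660816) (l 16761976)) (a (l 16659288) (l 16761776))) (a (l 16660720) (b (l 16719992) (l 16762408)))))) (c (b (a (b (l 16502624) (a (l 16519768)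 (l 16561640))) (b (l 16626920) (l 16605120))) (a (l 16517760) (b (a (l 16657768) (l 16761576)) (a (l 16658456) (l 16762072))))) (b (a (b (l 16541976) (l 16454392)) (b (l 16626072) (l 16625232))) (a (l 16514504) (b (l 16604144) (l 16604848)))))) (c (b (a (c (l 16777208) (b (l 16777208) (l 16777208))) (c (l 16777216) (l 16777216))) (b (c (l 16777208) (l 16777208)) (c (a (l 16777176) (l 16777208)) (a (l 16777176) (l 16777208))))) (b (a (c (b (l 16777208) (l 16777208)) (l 16777208)) (c (l 16777216) (l 16777216))) (b (c (l 16777208) (l 16777208)) (c (a (l 16777176) (l 16777208)) (l 16778472))))))), by decide +kernel⟩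

def k8_pp_022 : ∃ t, chk3 f_pp_022 t 4 41 1 = true :=
  ⟨(a (b (b (a (c (a (l 16262600) (l 16354120)) (a (l 16251104) (l 16346272))) (c (l 16414272) (l 16407496))) (a (c (a (l 16205600) (l 16325136)) (a (l 16192360) (l 16316496))) (c (l 16377568) (l 16391440)))) (b (a (c (a (l 16132744) (l 16254712)) (l 16093616)) (c (a (b (l 16381776) (l 16347480)) (l 16385440)) (a (b (l 16374536) (l 16339080)) (l 16377808)))) (b (a (c (a (l 16056760) (l 16174096)) (l 16054600)) (c (a (l 16283728) (b (l 16360632) (l 16330440))) (a (l 16273104) (b (l 16352224) (l 16320952))))) (c (a (a (a (l 15978008) (l 16035544)) (l 16120040)) (a (l 16226840) (l 16284904))) (a (a (l 15986360) (l 16104632)) (a (l 16214280) (l 16273808))))))) (b (c (a (l 16395112) (c (l 16406264) (l 16401768))) (a (l 16386816) (c (l 16397264) (l 16392760)))) (b (c (a (l 16374192) (l 16381784)) (a (l 16365472) (l 16372272))) (b (a (c (b (l 16357928) (l 16344520)) (b (l 16348736) (a (l 16339744) (l 16337096)))) (c (l 16364528) (l 16354528)))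 (b (b (b (a (c (l 16337240) (l 16327360)) (c (l 16357840) (l 16347640))) (b (a (c (l 16331656) (l 16300592)) (c (l 16356952) (l 16346736))) (a (a (l 16306912) (c (l 16336208) (l 16326088))) (c (l 16356440) (l 16346208))))) (a (c (l 16321240) (l 16310784)) (c (l 16354400) (l 16344112)))) (a (c (l 16316600) (l 16306016)) (c (l 16349256) (l 16338800)))))))), by decide +kernel⟩

def k9_pp_022 : ∃ t, chk3 f_pp_022 t 5 41 1 = true :=
  ⟨(b (a (c (a (a (l 16460264) (l 16551456)) (a (l 16667344) (l 16766664))) (a (a (l 16452224) (l 16545680)) (a (l 16664560) (l 16766472)))) (c (b (c (a (l 16775648) (l 16777096)) (a (l 16775624) (l 16777096))) (a (l 16768560) (c (b (l 16776408) (l 16774736)) (b (l 16776392) (l 16774704))))) (b (c (a (l 16775608) (l 16777088)) (a (l 16775584) (l 16777088))) (a (l 16768336) (c (b (l 16776384) (l 16774672)) (b (l 16776376) (l 16774640))))))) (b (a (c (a (l 16488584) (l 16643832)) (a (l 16481888) (l 16642808))) (c (b (a (l 16758624) (b (l 16771800) (l 16768232)))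 (l 16758040)) (a (l 16754704) (b (c (l 16770024) (l 16769928)) (l 16763120))))) (a (a (b (c (l 16509480) (l 16502816)) (c (c (b (a (l 16411024) (l 16570232)) (l 16512120)) (a (l 16406600) (l 16567376))) (c (a (l 16444456) (l 16564824)) (l 16459832)))) (c (b (l 16647208) (c (a (l 16662768) (l 16703136)) (a (l 16661720) (l 16702792)))) (b (l 16625392) (a (c (l 16660664) (l 16680584)) (c (l 16723416) (l 16744040)))))) (b (c (c (l 16751480) (l 16751144)) (c (l 16750808) (l 16750472))) (c (c (a (l 16742352) (l 16750552)) (a (l 16741896) (l 16750208))) (c (a (l 16741440) (l 16749856)) (a (l 16740984) (l 16749512)))))))), by decide +kernel⟩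

def k10_pp_022 : ∃ t, chk3 f_pp_022 t 2 21 1 = true :=
  ⟨(a (a (a (c (a (b (l 15962176) (l 15900720)) (b (l 16069584) (l 15998288))) (a (l 15828120) (l 16018184))) (c (b (l 16071176) (a (l 16090248) (l 16135240))) (b (l 16183504) (a (l 16073976) (l 16119912))))) (a (c (b (a (l 16255016) (l 16264672)) (a (l 16147000) (l 16153792))) (b (a (l 16242816) (l 16252368)) (a (l 16131568) (l 16138104)))) (c (b (a (l 16272768) (l 16338360)) (l 16258936)) (b (a (l 16260264) (l 16327304)) (l 16245712))))) (a (c (a (l 16437880) (a (l 16675688) (l 16757456))) (a (l 16409952) (a (l 16673280) (l 16757112)))) (c (c (l 16756720) (l 16756448)) (c (l 16756184) (l 16755912))))), by decide +kernel⟩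

def k11_pp_022 : ∃ t, chk3 f_pp_022 t 2 11 1 = true :=
  ⟨(a (a (b (a (a (c (l 15779352) (l 15753864)) (c (b (l 15912248) (l 15812488)) (b (l 15891296) (l 15788528)))) (c (a (b (l 15996600) (l 15887624)) (b (l 16027192) (l 15925024))) (b (a (l 15977608) (l 16008576)) (a (l 15865248) (l 15903184))))) (c (c (a (a (l 15578968) (l 15672584)) (l 15841960)) (a (a (l 15562640) (l 15658344)) (l 15829784))) (a (a (l 15477024) (a (l 15607056) (l 15659800))) (b (l 15734112) (l 15794600))))) (c (b (a (b (l 16070416) (l 16029056)) (l 16238952)) (a (l 16021776) (l 16231912))) (b (a (b (l 16052376) (l 16009688)) (l 16225056)) (a (l 16002160) (l 16217752))))) (a (c (a (b (l 16486800) (l 16481640)) (b (l 16631320) (l 16711664))) (a (b (l 16479328) (l 16473968)) (b (l 16629776) (l 16709960)))) (c (b (l 16772536) (c (l 16777216) (l 16777216))) (b (l 16772408) (c (l 16777216) (l 16777216)))))), by decide +kernel⟩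

def k12_pp_022 : ∃ t, chk3 f_pp_022 t 6 20 1 = true :=
  ⟨(b (a (b (l 3) (c (a (c (b (l 16777216) (l 16777216)) (b (l 16777216) (l 16777216))) (c (l 16777216) (l 16777216))) (a (c (l 16777216) (l 16777216)) (c (l 16777216) (l 16777216))))) (l 3)) (a (b (c (b (c (l 16777216) (l 16777216)) (b (c (l 16777216) (l 16777216)) (c (l 16777216) (l 16777216)))) (b (c (l 16777216) (l 16777216)) (b (c (l 16777216) (l 16777216)) (c (l 16777216) (l 16777216))))) (b (c (b (c (a (l 16776120) (l 16777216)) (a (l 16776104) (l 16777216))) (b (c (l 16775304) (l 16775280)) (a (a (l 16770064) (l 16775160)) (l 16776888)))) (b (c (a (l 16776088) (l 16777216)) (a (l 16776080) (l 16777216))) (c (a (b (l 16774952) (l 16772720)) (l 16776784)) (a (b (l 16774920) (l 16772664)) (l 16776784))))) (b (c (a (l 16765632) (b (c (l 16775848) (l 16775832)) (a (l 16770888) (b (l 16776328) (a (l 16773056) (l 16775416)))))) (a (l 16765336) (b (c (l 16775816) (l 16775792)) (a (l 16770720) (b (l 16776304) (b (l 16775192) (l 16773280)))))))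 (c (c (a (l 16758832) (l 16767200)) (a (l 16758592) (l 16767072))) (c (l 16741672) (l 16762456)))))) (a (b (b (c (l 16777216) (l 16777216)) (c (c (l 16777216) (l 16777216)) (c (l 16777216) (l 16777216)))) (b (c (b (c (l 16777216) (l 16777216)) (c (l 16777216) (l 16777216))) (b (c (l 16777216) (l 16777216)) (c (l 16777216) (l 16777216)))) (a (b (b (c (l 16777216) (l 16777216)) (c (c (l 16776536) (l 16776528)) (b (l 16777216) (c (l 16776592) (l 16776584))))) (b (c (b (b (l 16775432) (l 16771952)) (l 16769984)) (b (a (l 16771976) (b (l 16776304) (l 16772912))) (l 16769800))) (c (l 16770312) (l 16770128)))) (l 2)))) (l 2)))), by decide +kernel⟩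

def k13_pp_022 : ∃ t, chk3 f_pp_022 t 6 21 1 = true :=
  ⟨(a (c (a (l 16765448) (c (l 16770200) (l 16770104))) (c (a (l 16765216) (l 16770016)) (l 16747472))) (a (c (b (l 16753936) (l 2)) (c (l 16775328) (l 16775304))) (l 2))), by decide +kernel⟩

def k14_pp_022 : ∃ t, chk3 f_pp_022 t 6 11 1 = true :=
  ⟨(a (b (c (c (l 16776160) (l 16776152)) (c (l 16776136) (l 16776120))) (a (c (l 16777208) (l 16777208)) (l 2))) (l 2)), by decide +kernel⟩

def k15_pp_022 : ∃ t, chk3 f_pp_022 t 7 5 1 = true :=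
  ⟨(l 2), by decide +kernel⟩

def k16_pp_022 : ∃ t, chk3 f_pp_022 t 1 3 1 = true :=
  ⟨(a (a (b (a (c (b (a (b (a (l 15437088) (l 15595376)) (l 15508624)) (c (l 15825384) (l 15812936))) (a (b (l 15508624) (l 15508624)) (l 15819184))) (b (a (b (a (l 15400664) (l 15564424)) (l 15472672)) (b (l 15794272) (l 15794272))) (a (l 15472672) (l 15794272)))) (b (c (c (l 15964696) (l 16040152)) (c (l 16094640) (l 16107184))) (c (a (l 16021768) (l 16231904)) (a (l 16002144) (l 16217744))))) (a (a (c (b (l 15508624) (l 15508624)) (b (l 15472672) (l 15472672))) (b (c (l 15819184) (l 15794272)) (l 2))) (a (a (b (l 15963688) (l 2)) (l 2)) (l 2)))) (b (b (a (a (c (l 16481640) (l 16473960)) (c (b (l 16711664) (l 16711664)) (l 16626072))) (a (c (l 16777216) (l 16777216)) (l 2))) (a (a (b (l 16477800) (l 2)) (l 2)) (l 2))) (l 2))) (l 2)), by decide +kernel⟩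

theorem s17_pp_022 : ∃ t, chk3 f_pp_022 t 6 10 1 = true := ex3_b k12_pp_022 k13_pp_022

theorem s18_pp_022 : ∃ t, chk3 f_pp_022 t 6 5 1 = true := ex3_b s17_pp_022 k14_pp_022

theorem s19_pp_022 : ∃ t, chk3 f_pp_022 t 3 5 1 = true := ex3_a s18_pp_022 k15_pp_022

theorem s20_pp_022 : ∃ t, chk3 f_pp_022 t 2 41 1 = true := ex3_a k8_pp_022 k9_pp_022

theorem s21_pp_022 : ∃ t, chk3 f_pp_022 t 2 20 1 = true := ex3_b k7_pp_022 s20_pp_022

theorem s22_pp_022 : ∃ t, chk3 f_pp_022 t 2 10 1 = true := ex3_b s21_pp_022 k10_pp_022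

theorem s23_pp_022 : ∃ t, chk3 f_pp_022 t 2 5 1 = true := ex3_b s22_pp_022 k11_pp_022

theorem s24_pp_022 : ∃ t, chk3 f_pp_022 t 1 5 1 = true := ex3_a s23_pp_022 s19_pp_022

theorem s25_pp_022 : ∃ t, chk3 f_pp_022 t 4 19 1 = true := ex3_a k3_pp_022 k4_pp_022

theorem s26_pp_022 : ∃ t, chk3 f_pp_022 t 4 18 1 = true := ex3_a k1_pp_022 k2_pp_022

theorem s27_pp_022 : ∃ t, chk3 f_pp_022 t 4 9 1 = true := ex3_b s26_pp_022 s25_pp_022

theorem s28_pp_022 : ∃ t, chk3 f_pp_022 t 2 9 1 = true := ex3_a s27_pp_022 k5_pp_022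

theorem s29_pp_022 : ∃ t, chk3 f_pp_022 t 1 9 1 = true := ex3_a s28_pp_022 k6_pp_022

theorem s30_pp_022 : ∃ t, chk3 f_pp_022 t 1 4 1 = true := ex3_b k0_pp_022 s29_pp_022

theorem s31_pp_022 : ∃ t, chk3 f_pp_022 t 1 2 1 = true := ex3_b s30_pp_022 s24_pp_022

theorem s32_pp_022 : ∃ t, chk3 f_pp_022 t 1 1 1 = true := ex3_b s31_pp_022 k16_pp_022

theorem c_pp_022 : CertFX 67108864 469762048 1073741824 536870912 1046898278 26843546 false true true .pp 0 2 2
    ndF1q0 ndF7q2 pcF2 Cut.none Ext.none :=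
  certFX1 (fam := false) (s1 := true) (s2 := true) (a := 0) (b := 2) (c := 2) (cn := .pp) (n1 := ndF1q0) (n2 := ndF7q2) (pc := pcF2) (cut := Cut.none) (xt := Ext.none) (P1 := 67108864) (W1 := 469762048) (P2 := 1073741824) (W2 := 536870912) (P3 := 1046898278) (W3 := 26843546)
    rfl (fun _ => rfl) s32_pp_022

noncomputable def f_pp_023 : ℕ → ℕ → ℕ → ℕ → Bool := onCell 1073741824 536870912 0 1230186008 1046898278 26843546
    (rowFX 2 false true true .up 0 2 3 (qsf 67108864 469762048 0 1230186008 2) ndF1q0 ndF7q3 pcF2 Cut.none Ext.none)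

def k0_pp_023 : ∃ t, chk3 f_pp_023 t 1 2 1 = true :=
  ⟨(a (l 2) (a (l 2) (b (b (a (l 2) (l 16717832)) (l 16692088)) (b (b (l 16753312) (l 16777216)) (c (b (l 16777216) (l 16777216)) (b (l 16777216) (l 16777216))))))), by decide +kernel⟩

def k1_pp_023 : ∃ t, chk3 f_pp_023 t 4 3 1 = true :=
  ⟨(b (l 2) (l 3)), by decide +kernel⟩

def k2_pp_023 : ∃ t, chk3 f_pp_023 t 10 6 1 = true :=
  ⟨(l 2), by decide +kernel⟩

def k3_pp_023 : ∃ t, chk3 f_pp_023 t 10 14 1 = true :=
  ⟨(b (a (l 2) (c (b (l 2) (l 16777064)) (l 658304378567))) (b (a (l 2) (c (l 16777216) (l 16777216))) (c (a (a (l 3) (a (l 3) (a (l 3) (a (b (a (l 3) (l 6803395969031)) (l 3)) (a (a (a (l 7056262168583) (a (l 16777216) (c (l 16777216) (l 16777216)))) (l 16777216)) (l 16777216)))))) (l 16777216)) (a (a (l 3) (a (l 3) (a (l 3) (a (b (a (l 3) (l 6375509852167)) (l 3)) (a (a (a (l 6712664784903) (a (c (l 16777216) (l 16777216)) (c (l 16777216) (l 16777216)))) (l 16777216)) (l 16777216)))))) (l 16777216))))), by decide +kernel⟩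

def k4_pp_023 : ∃ t, chk3 f_pp_023 t 40 15 1 = true :=
  ⟨(l 3), by decide +kernel⟩

def k5_pp_023 : ∃ t, chk3 f_pp_023 t 82 15 1 = true :=
  ⟨(a (l 3) (b (l 3) (b (l 3) (c (c (l 16777216) (l 16777216)) (c (l 16777216) (l 16777216)))))), by decide +kernel⟩

def k6_pp_023 : ∃ t, chk3 f_pp_023 t 166 15 1 = true :=
  ⟨(b (l 3) (a (b (c (l 16777216) (l 16777216)) (c (c (l 16777216) (l 16777216)) (c (l 16777216) (l 16777216)))) (c (b (c (l 16777216) (l 16777216)) (c (l 16777216) (l 16777216))) (b (c (l 16777216) (l 16777216)) (c (l 16777216) (l 16777216)))))), by decide +kernel⟩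

def k7_pp_023 : ∃ t, chk3 f_pp_023 t 167 15 1 = true :=
  ⟨(b (b (a (l 3) (a (a (a (b (l 3) (c (l 16777216) (l 16777216))) (a (c (b (l 16777216) (l 16777216)) (b (l 16777216) (l 16777216))) (c (c (l 16777216) (b (l 16777216) (l 16777216))) (c (b (l 16777216) (l 16777216)) (b (l 16777216) (l 16777216)))))) (c (l 16777216) (l 16777216))) (c (l 16777216) (l 16777216)))) (a (a (c (l 16777216) (l 16777216)) (c (c (l 16777216) (l 16777216)) (c (l 16777216) (l 16777216)))) (a (a (a (c (l 16777216) (l 16777216)) (a (c (l 16777216) (l 16777216)) (c (c (l 16777216) (l 16777216)) (c (b (l 16777216) (l 16777216)) (b (l 16777216) (l 16777216)))))) (c (l 16777216) (l 16777216))) (c (l 16777216) (l 16777216))))) (a (a (c (c (l 16777216) (l 16777216)) (c (l 16777216) (l 16777216))) (c (b (c (l 16777216) (l 16777216)) (c (l 16777216) (l 16777216))) (b (c (l 16777216) (l 16777216)) (c (l 16777216) (l 16777216))))) (a (a (a (b (c (l 16777216) (l 16777216)) (c (c (l 16776672) (l 16776664)) (c (l 16776656)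 (l 16776648)))) (a (c (b (l 16777216) (c (l 16776144) (l 16776136))) (b (l 16777216) (c (l 16776120) (l 16776104)))) (a (c (a (b (l 16777216) (c (l 16775792) (l 16775776))) (b (l 16777216) (b (c (l 16776952) (l 16776944)) (l 16773784)))) (b (a (l 16777216) (c (l 16777216) (l 16777216))) (b (a (l 16777136) (c (l 16776944) (l 16776936))) (a (l 16774872) (l 16773696))))) (c (b (l 16777216) (l 16775336)) (b (l 16777216) (l 16775288)))))) (c (b (l 16777216) (l 16775352)) (b (l 16777216) (l 16775296)))) (c (b (l 16777216) (l 16775376)) (b (l 16777216) (l 16775328)))))), by decide +kernel⟩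

def k8_pp_023 : ∃ t, chk3 f_pp_023 t 21 15 1 = true :=
  ⟨(b (c (b (l 16777216) (l 16777216)) (b (l 16777216) (l 16777216))) (c (b (l 16777216) (l 16775896)) (b (l 16777216) (l 16775864)))), by decide +kernel⟩

def k9_pp_023 : ∃ t, chk3 f_pp_023 t 11 3 1 = true :=
  ⟨(b (b (l 2) (c (l 529992187703) (b (l 2) (l 16774280)))) (b (b (c (b (l 16776152) (l 16777024)) (b (l 16776128) (l 16777016))) (c (l 16777216) (l 16777216))) (b (c (b (l 16777216) (l 16777216)) (b (l 16777216) (l 16777216))) (c (b (l 16777216) (l 16777024)) (b (l 16777216) (l 16777016)))))), by decide +kernel⟩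

def k10_pp_023 : ∃ t, chk3 f_pp_023 t 3 3 1 = true :=
  ⟨(b (a (b (b (l 173509967879) (c (l 16777216) (l 16777216))) (b (c (l 16777216) (l 16777216)) (c (l 16777216) (l 16777216)))) (b (b (l 16777216) (l 16777216)) (b (l 16777216) (l 16777216)))) (b (a (b (c (l 16777216) (l 16777216)) (c (l 16777216) (l 16777216))) (b (b (l 16775688) (a (l 16777216) (l 16725312))) (a (b (l 16777216) (l 16745840)) (b (c (l 16606400) (l 16601968)) (l 16251696))))) (a (b (b (l 16777216) (a (l 16777216) (l 16748232))) (a (b (l 16777216) (c (l 16649888) (a (l 16777112) (l 16710496)))) (b (c (l 16623480) (l 16619488)) (b (l 16449584) (l 16280392))))) (a (b (b (c (l 16633072) (l 16629328)) (c (l 16416176) (l 16406800))) (b (c (l 16154552) (l 16138376)) (c (l 15639344) (l 15627112)))) (b (b (l 16051064) (c (l 15883632) (l 15860296))) (b (c (l 15393392) (l 15550568)) (c (a (l 15386912) (l 15065136)) (a (l 15365088) (l 15027920))))))))), by decide +kernel⟩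

theorem s11_pp_023 : ∃ t, chk3 f_pp_023 t 83 15 1 = true := ex3_a k6_pp_023 k7_pp_023

theorem s12_pp_023 : ∃ t, chk3 f_pp_023 t 41 15 1 = true := ex3_a k5_pp_023 s11_pp_023

theorem s13_pp_023 : ∃ t, chk3 f_pp_023 t 20 15 1 = true := ex3_a k4_pp_023 s12_pp_023

theorem s14_pp_023 : ∃ t, chk3 f_pp_023 t 10 15 1 = true := ex3_a s13_pp_023 k8_pp_023

theorem s15_pp_023 : ∃ t, chk3 f_pp_023 t 10 7 1 = true := ex3_b k3_pp_023 s14_pp_023

theorem s16_pp_023 : ∃ t, chk3 f_pp_023 t 10 3 1 = true := ex3_b k2_pp_023 s15_pp_023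

theorem s17_pp_023 : ∃ t, chk3 f_pp_023 t 5 3 1 = true := ex3_a s16_pp_023 k9_pp_023

theorem s18_pp_023 : ∃ t, chk3 f_pp_023 t 2 3 1 = true := ex3_a k1_pp_023 s17_pp_023

theorem s19_pp_023 : ∃ t, chk3 f_pp_023 t 1 3 1 = true := ex3_a s18_pp_023 k10_pp_023

theorem s20_pp_023 : ∃ t, chk3 f_pp_023 t 1 1 1 = true := ex3_b k0_pp_023 s19_pp_023

theorem c_pp_023 : CertFX 67108864 469762048 0 1230186008 1046898278 26843546 false true true .up 0 2 3
    ndF1q0 ndF7q3 pcF2 Cut.none Ext.none :=
  certFX2 (fam := false) (s1 := true) (s2 := true) (a := 0) (b := 2) (c := 3) (cn := .up) (n1 := ndF1q0) (n2 := ndF7q3) (pc := pcF2) (cut := Cut.none) (xt := Ext.none) (P1 := 67108864) (W1 := 469762048) (P2 := 0) (W2 := 1230186008) (P3 := 1046898278) (W3 := 26843546)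
    rfl (fun _ => rfl) s20_pp_023

noncomputable def f_pp_033 : ℕ → ℕ → ℕ → ℕ → Bool := onCell 67108864 469762048 0 1230186008 1046898278 26843546
    (rowFX 0 false true true .pnn 0 3 3 (qsf 67108864 469762048 0 1230186008 3) ndF1q0 ndF7q3 pcF3 Cut.none Ext.none)

def k0_pp_033 : ∃ t, chk3 f_pp_033 t 1 2 1 = true :=
  ⟨(a (b (b (a (l 4) (a (l 4) (c (l 256858935767) (l 245047724535)))) (b (a (l 4) (a (a (l 4) (a (l 4) (l 16672280))) (c (l 16687512) (l 16685176)))) (a (a (l 4) (a (l 4) (c (l 16209880) (l 257931330663)))) (a (c (a (l 16441336) (l 16648952)) (a (l 16411536) (l 16640064))) (c (l 16706488) (l 16704648)))))) (b (b (a (a (a (l 4) (a (l 4) (b (l 4) (l 15861376)))) (c (a (c (l 16023152) (l 16007344)) (l 16223392)) (a (b (l 15973256) (l 15995736)) (l 16198560)))) (a (c (l 16458880) (l 16426120)) (c (l 16753616) (l 16753008)))) (a (a (c (a (b (l 248266243815) (l 15508632)) (a (l 15760392) (l 15877296))) (a (b (l 224107195831) (l 15472672)) (a (l 15733920) (l 15853920)))) (c (a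 (l 16021776) (l 16231912)) (a (l 16002152) (l 16217744)))) (a (c (l 16472672) (l 16447064)) (l 16777216)))) (b (a (a (a (c (b (l 15508632) (l 15508632)) (b (l 15472672) (l 15472672))) (c (l 15819200) (l 15794280))) (c (a (l 16021776) (l 16231904)) (a (l 16002152) (l 16217744)))) (a (l 16428408) (l 16777216))) (a (a (a (c (l 15508632) (l 15472664)) (c (l 15819192) (l 15794272))) (l 16119824)) (a (l 16596184) (l 16777216)))))) (b (b (a (c (a (l 16717560) (l 16717560)) (a (l 16717544) (l 16717544))) (a (l 16717832) (l 16717832))) (a (a (b (l 16686344) (l 16705568)) (b (l 16686344) (l 16705568))) (b (l 16686344) (l 16705568)))) (a (b (b (a (l 16753312) (l 16753312)) (l 16777216)) (c (l 16777216) (l 16777216))) (b (l 16764032) (a (c (l 16777216) (l 16777216)) (l 1)))))), by decide +kernel⟩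

def k1_pp_033 : ∃ t, chk3 f_pp_033 t 1 3 1 = true :=
  ⟨(b (a (a (b (a (b (c (l 15659648) (l 15618816)) (c (a (l 15508624) (l 15819184)) (a (l 15472664) (l 15794272)))) (b (c (l 16128256) (l 16111400)) (b (l 16056912) (l 16014968)))) (c (a (b (a (l 15508624) (l 15819184)) (l 15659648)) (b (l 16128256) (l 16128256))) (a (b (b (l 15618816) (l 15618816)) (l 15618816)) (b (l 16111400) (l 16111400))))) (b (a (b (l 16407440) (c (l 16577528) (l 16530944))) (b (c (l 16777216) (l 16777216)) (c (l 16777216) (l 16777216)))) (b (a (l 16512296) (l 16777216)) (a (c (l 16598504) (l 16593864)) (l 16777216))))) (a (b (b (c (l 16777216) (l 16777216)) (b (l 16777216) (l 16777216))) (b (l 16777216) (l 16777216))) (b (l 1) (l 1)))) (a (b (c (a (b (a (l 15659648) (l 16128256)) (a (l 15659648) (l 16128256))) (b (l 16690888) (l 16523112))) (a (b (a (l 15618816) (l 16111400)) (a (l 15618816) (l 16111400))) (b (l 16510384) (a (l 16593864) (l 1))))) (a (b (a (c (l 15659648) (l 15618816)) (c (l 16128256) (l 16111400)))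 (a (c (l 15470904) (l 15618816)) (l 1))) (l 1))) (l 1))), by decide +kernel⟩

theorem s2_pp_033 : ∃ t, chk3 f_pp_033 t 1 1 1 = true := ex3_b k0_pp_033 k1_pp_033

theorem c_pp_033 : CertFX 67108864 469762048 0 1230186008 1046898278 26843546 false true true .pnn 0 3 3
    ndF1q0 ndF7q3 pcF3 Cut.none Ext.none :=
  certFX0 (fam := false) (s1 := true) (s2 := true) (a := 0) (b := 3) (c := 3) (cn := .pnn) (n1 := ndF1q0) (n2 := ndF7q3) (pc := pcF3) (cut := Cut.none) (xt := Ext.none) (P1 := 67108864) (W1 := 469762048) (P2 := 0) (W2 := 1230186008) (P3 := 1046898278) (W3 := 26843546)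
    rfl s2_pp_033

noncomputable def f_pp_101 : ℕ → ℕ → ℕ → ℕ → Bool := onCell 536870912 536870912 0 536870912 1046898278 26843546
    (rowFX 1 false true true .npn 1 0 1 (qsf 536870912 536870912 536870912 536870912 0) ndF1q1 ndF7q1 pcF0 Cut.none Ext.none)

def k0_pp_101 : ∃ t, chk3 f_pp_101 t 1 1 1 = true :=
  ⟨(l 3), by decide +kernel⟩

theorem c_pp_101 : CertFX 536870912 536870912 536870912 536870912 1046898278 26843546 false true true .npn 1 0 1
    ndF1q1 ndF7q1 pcF0 Cut.none Ext.none :=
  certFX1 (fam := false) (s1 := true) (s2 := true) (a := 1) (b := 0) (c := 1) (cn := .npn) (n1 := ndF1q1) (n2 := ndF7q1) (pc := pcF0) (cut := Cut.none) (xt := Ext.none) (P1 := 536870912) (W1 := 536870912) (P2 := 536870912) (W2 := 536870912) (P3 := 1046898278) (W3 := 26843546)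
    rfl (fun _ => rfl) k0_pp_101

noncomputable def f_pp_102 : ℕ → ℕ → ℕ → ℕ → Bool := onCell 536870912 536870912 1073741824 536870912 1046898278 26843546
    (rowFX 0 false true true .npp 1 0 2 (qsf 536870912 536870912 1073741824 536870912 0) ndF1q1 ndF7q2 pcF0 Cut.none Ext.none)

def k0_pp_102 : ∃ t, chk3 f_pp_102 t 1 1 1 = true :=
  ⟨(l 3), by decide +kernel⟩

theorem c_pp_102 : CertFX 536870912 536870912 1073741824 536870912 1046898278 26843546 false true true .npp 1 0 2
    ndF1q1 ndF7q2 pcF0 Cut.none Ext.none :=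
  certFX0 (fam := false) (s1 := true) (s2 := true) (a := 1) (b := 0) (c := 2) (cn := .npp) (n1 := ndF1q1) (n2 := ndF7q2) (pc := pcF0) (cut := Cut.none) (xt := Ext.none) (P1 := 536870912) (W1 := 536870912) (P2 := 1073741824) (W2 := 536870912) (P3 := 1046898278) (W3 := 26843546)
    rfl k0_pp_102

noncomputable def f_pp_112 : ℕ → ℕ → ℕ → ℕ → Bool := onCell 536870912 536870912 1073741824 536870912 1046898278 26843546
    (rowFX 0 false true true .dn 1 1 2 (qsf 536870912 536870912 1073741824 536870912 1) ndF1q1 ndF7q2 pcF1 Cut.none Ext.none)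

def k0_pp_112 : ∃ t, chk3 f_pp_112 t 1 1 1 = true :=
  ⟨(l 3), by decide +kernel⟩

theorem c_pp_112 : CertFX 536870912 536870912 1073741824 536870912 1046898278 26843546 false true true .dn 1 1 2
    ndF1q1 ndF7q2 pcF1 Cut.none Ext.none :=
  certFX0 (fam := false) (s1 := true) (s2 := true) (a := 1) (b := 1) (c := 2) (cn := .dn) (n1 := ndF1q1) (n2 := ndF7q2) (pc := pcF1) (cut := Cut.none) (xt := Ext.none) (P1 := 536870912) (W1 := 536870912) (P2 := 1073741824) (W2 := 536870912) (P3 := 1046898278) (W3 := 26843546)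
    rfl k0_pp_112

noncomputable def f_pp_113 : ℕ → ℕ → ℕ → ℕ → Bool := onCell 536870912 536870912 0 1230186008 1046898278 26843546
    (rowFX 2 false true true .nn 1 1 3 (qsf 536870912 536870912 0 1230186008 1) ndF1q1 ndF7q3 pcF1 Cut.none Ext.none)

def k0_pp_113 : ∃ t, chk3 f_pp_113 t 1 1 1 = true :=
  ⟨(a (b (l 2) (b (l 3) (b (a (l 2) (l 3)) (l 3)))) (b (a (l 2) (b (a (l 2) (a (l 2) (a (b (l 2) (b (l 2) (l 3))) (b (c (b (l 16769688) (l 16648472)) (b (l 16775168) (l 500463711191))) (b (c (l 182703087079) (b (l 16367600) (l 228873302711))) (c (l 16479416) (l 211155969127))))))) (l 3))) (b (l 3) (l 3)))), by decide +kernel⟩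

theorem c_pp_113 : CertFX 536870912 536870912 0 1230186008 1046898278 26843546 false true true .nn 1 1 3
    ndF1q1 ndF7q3 pcF1 Cut.none Ext.none :=
  certFX2 (fam := false) (s1 := true) (s2 := true) (a := 1) (b := 1) (c := 3) (cn := .nn) (n1 := ndF1q1) (n2 := ndF7q3) (pc := pcF1) (cut := Cut.none) (xt := Ext.none) (P1 := 536870912) (W1 := 536870912) (P2 := 0) (W2 := 1230186008) (P3 := 1046898278) (W3 := 26843546)
    rfl (fun _ => rfl) k0_pp_113

noncomputable def f_pp_123 : ℕ → ℕ → ℕ → ℕ → Bool := onCell 1073741824 536870912 0 1230186008 1046898278 26843546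
    (rowFX 2 false true true .npn 1 2 3 (qsf 536870912 536870912 0 1230186008 2) ndF1q1 ndF7q3 pcF2 Cut.none Ext.none)

def k0_pp_123 : ∃ t, chk3 f_pp_123 t 16 8 1 = true :=
  ⟨(b (b (l 16546456) (a (c (a (l 16271816) (l 16447912)) (a (c (l 16389000) (l 16342888)) (l 16546664))) (a (c (l 16714760) (l 16712456)) (l 16679528)))) (a (c (a (b (l 16521848) (l 16684136)) (b (l 16616832) (l 16733640))) (c (a (l 16602984) (l 16668664)) (a (l 16456536) (l 16636208)))) (c (b (l 16491696) (l 16682112)) (b (l 16508504) (l 16625536))))), by decide +kernel⟩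

def k1_pp_123 : ∃ t, chk3 f_pp_123 t 16 9 1 = true :=
  ⟨(a (b (c (b (a (c (b (c (l 16757632) (l 16765008)) (l 16695432)) (b (l 16764280) (c (l 16685056) (l 16512208)))) (c (b (l 16749984) (a (l 16700976) (l 16688176))) (l 16656760))) (a (c (b (l 16627856) (l 16553344)) (c (b (l 16627432) (l 16550920)) (a (l 16471904) (l 16444096)))) (c (b (l 16653824) (l 16598856)) (a (l 16458064) (l 16461424))))) (c (b (l 16483224) (a (a (c (l 16283536) (l 16013192)) (c (l 16269712) (l 16093320))) (l 16251136))) (a (b (l 16040768) (a (c (l 15744848) (l 15480336)) (l 15832912))) (l 16159432)))) (b (c (a (b (c (l 16480672) (l 16274944)) (l 16302776)) (c (b (l 16494136) (l 16368152)) (b (l 16299808) (l 16185872)))) (c (a (b (a (c (l 15979216) (l 15767096)) (b (l 16026592) (l 15936648))) (l 15828904)) (c (l 204714679975) (b (l 16037432) (l 15954864)))) (a (a (b (c (l 182700932583) (l 174110568503)) (l 3)) (c (l 15705520) (l 15560312))) (c (l 170353599383) (l 15810496))))) (a (l 3) (c (c (l 16242704) (l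 16080824)) (c (l 189144108327) (l 15747032)))))) (a (c (b (c (b (l 16650552) (l 16585216)) (l 16526144)) (b (b (l 16402712) (l 16329776)) (c (l 16285176) (l 16175968)))) (b (c (l 16404712) (l 16303672)) (c (b (b (l 16200056) (l 16119792)) (l 16059064)) (b (l 16043192) (l 15945456))))) (c (b (b (l 16577416) (l 16494672)) (c (l 16385904) (b (l 16328952) (l 16253416)))) (b (l 16393352) (b (l 16188200) (c (b (l 16165624) (l 16136416)) (l 16089208))))))), by decide +kernel⟩

def k2_pp_123 : ∃ t, chk3 f_pp_123 t 17 4 1 = true :=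
  ⟨(b (b (l 16307144) (a (c (a (b (l 16522256) (l 16501840)) (c (l 16369704) (l 16362160))) (a (l 16499776) (l 16354152))) (b (l 16134648) (c (c (l 16041856) (l 16137944)) (l 16126240))))) (a (c (b (c (l 16356168) (l 16184832)) (b (c (l 16393864) (l 16327704)) (a (b (l 16319768) (l 16306400)) (c (l 16346008) (l 16278552))))) (b (l 16361104) (b (l 16250472) (a (l 16189944) (l 16211232))))) (c (b (a (c (b (l 16256680) (l 16270856)) (l 16258432)) (l 15983424)) (b (c (a (l 16196952) (c (l 16247872) (l 16263096))) (l 16253848)) (c (b (l 16302552) (a (l 16315944) (l 16293328))) (b (l 16070080) (l 16229312))))) (b (l 16010488) (b (l 16175200) (a (l 16250672) (c (l 16252296) (l 16226752)))))))), by decide +kernel⟩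

def k3_pp_123 : ∃ t, chk3 f_pp_123 t 8 5 1 = true :=
  ⟨(a (a (l 3) (b (b (c (c (a (l 214915264935) (l 180554733191)) (a (l 151563361655) (l 16119592))) (c (l 136530896487) (l 15899584))) (l 3)) (l 3))) (b (b (b (a (c (a (b (l 16262896) (l 16104976)) (c (l 16322528) (l 16263576))) (a (b (l 16129904) (l 16135208)) (c (l 16218632) (l 16175784)))) (b (a (c (l 16295160) (l 16220760)) (c (l 16283688) (l 16224816))) (a (c (a (l 16301704) (l 16302024)) (l 16233440)) (l 16274216)))) (a (c (a (a (l 16187816) (l 131162733431)) (c (l 16303272) (l 16255584))) (a (l 16080320) (c (l 16213728) (l 16172752)))) (a (b (c (l 16303664) (l 16232488)) (a (c (l 16322848) (l 16253984)) (l 16289424))) (c (a (l 16314712) (l 16320464)) (a (l 16257888) (l 16270648)))))) (b (a (a (l 3) (c (l 16252808) (l 16179792))) (c (a (c (a (l 16304552) (l 16340656)) (l 16292000)) (b (l 16347152) (c (l 16388264) (l 16368496)))) (a (c (l 16264344) (l 16236680)) (b (l 16300896) (l 16339528))))) (a (l 3) (c (a (l 16290408) (a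 (l 16371680) (l 16386456))) (a (l 16268104) (a (l 16338760) (l 16358824))))))) (b (l 3) (l 3)))), by decide +kernel⟩

def k4_pp_123 : ∃ t, chk3 f_pp_123 t 9 4 1 = true :=
  ⟨(b (b (l 15490696) (a (a (b (l 15854552) (b (l 15826600) (c (l 15837624) (l 15813688)))) (l 15563256)) (l 15168472))) (a (b (c (a (b (l 15886168) (l 15991024)) (b (b (l 15546896) (l 15583328)) (l 15691536))) (a (b (l 15865792) (l 15976248)) (b (l 15539904) (l 15669000)))) (c (b (b (a (c (c (l 16065928) (l 16059720)) (l 16057288)) (l 15793888)) (c (a (c (l 16109200) (l 16110264)) (c (l 15871240) (l 15861456))) (a (l 16007872) (l 15856632)))) (a (c (b (c (l 16145464) (l 16142184)) (l 16189944)) (a (l 16190160) (l 16011928))) (c (a (b (l 15983288) (l 16029488)) (b (l 15877176) (l 15920168))) (c (a (l 15927408) (b (l 15861168) (l 15932584))) (b (l 15920296) (l 15948872)))))) (c (b (l 15951616) (a (l 16136240) (l 15915816))) (a (l 16074880) (l 15877568))))) (b (b (a (b (l 15241896) (c (l 15223480) (l 15230272))) (l 14973424))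 (c (a (a (l 15448824) (l 15270920)) (b (l 14993488) (l 15063832))) (a (l 15327696) (l 14991536)))) (c (b (a (l 15535840) (l 15216192)) (b (a (c (c (l 15551744) (l 15664024)) (l 15658024)) (l 15371184)) (a (c (a (l 15815560) (l 15690184)) (a (c (l 15821168) (l 15808440)) (l 15670808))) (c (c (l 15497120) (l 15480592)) (l 15474736))))) (a (c (l 15605376) (l 15596376)) (l 15113720)))))), by decide +kernel⟩

def k5_pp_123 : ∃ t, chk3 f_pp_123 t 9 20 1 = true :=
  ⟨(b (a (a (a (b (c (l 16251920) (l 16147856)) (l 16254016)) (c (c (l 16204320) (b (l 16174336) (l 16199488))) (c (b (l 16164216) (l 16171456)) (l 16162272)))) (c (c (b (l 16045352) (l 16108056)) (b (c (a (l 16088392) (l 15986464)) (l 16019656)) (a (l 16135456) (l 16057192)))) (c (b (l 16034960) (a (l 16120296) (b (l 16023000) (l 16063680)))) (b (l 16040848) (l 16087072))))) (c (b (a (c (a (l 15878992) (l 15748424)) (a (c (l 15879472) (l 15869480)) (c (l 15760136) (l 15799936)))) (c (c (l 15589104) (l 15598592)) (a (c (l 15646232)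 (l 15632232)) (l 15536640)))) (a (c (l 15902768) (c (l 15899536) (a (l 15956432) (l 15833696)))) (c (l 15681312) (c (a (l 15733096) (l 15651720)) (a (l 15763864) (l 15697968)))))) (a (c (a (c (l 15924360) (l 15935264)) (l 15590128)) (l 15706080)) (c (b (l 15581304) (l 15668400)) (l 15638256))))) (a (a (a (b (l 16274016) (c (l 16320864) (l 16279440))) (l 16246872)) (a (l 16192336) (b (c (l 16098192) (c (l 16071648) (l 16072288))) (l 16151120)))) (a (a (b (c (l 16025392) (c (l 16010968) (l 16011168))) (l 16084224)) (c (c (l 15979520) (b (l 15938712) (l 16008544))) (c (c (l 15965536) (l 15788024)) (l 15878864)))) (c (b (c (l 15808128) (c (l 15804608) (l 15716072))) (a (l 15941264) (l 15871488))) (c (b (l 15719496) (c (l 15892880) (l 15882720))) (b (l 15801512) (l 15888016))))))), by decide +kernel⟩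

def k6_pp_123 : ∃ t, chk3 f_pp_123 t 9 21 1 = true :=
  ⟨(b (a (a (a (a (c (l 16361896) (l 16327104)) (c (l 16351880) (l 16321368))) (c (l 16336808) (l 16312632))) (a (c (l 16306904) (l 16290848)) (c (l 16244256) (l 16234056)))) (a (a (c (l 16196376) (l 16187832)) (l 16148368)) (a (l 16089256) (a (l 16036840) (b (c (l 15940720) (b (l 15881416) (l 15964072))) (l 16053048)))))) (a (a (c (a (a (l 16416784) (l 16441024)) (l 16440904)) (a (a (l 16394680) (l 16423992)) (l 16430408))) (a (c (l 16393832) (l 16388528)) (c (l 16369112) (l 16365120)))) (a (a (b (l 16305744) (c (l 16384568) (l 16379640))) (l 16321680)) (c (l 16262984) (l 16252912))))), by decide +kernel⟩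

def k7_pp_123 : ∃ t, chk3 f_pp_123 t 9 11 1 = true :=
  ⟨(a (a (b (a (b (c (l 16444144) (l 16436408)) (l 3)) (b (c (c (l 16496128) (l 16495368)) (c (l 16494608) (l 16493848))) (c (l 16527336) (l 16526712)))) (l 3)) (c (b (a (b (l 16452016) (l 16590344)) (b (l 16511096) (a (l 16636752) (l 16647816)))) (a (l 450602002167) (b (l 16659000) (l 870435229671)))) (b (a (b (b (l 16493704) (l 16561800)) (l 16590224)) (b (l 16509536) (c (l 16618256) (l 16597016)))) (a (l 483351127399) (b (l 16595760) (l 527374716151)))))) (a (b (b (a (c (l 16477152) (l 16473688)) (c (l 16471648) (l 16467184))) (a (c (l 16619200) (l 16618304)) (l 16588224))) (a (c (b (a (l 16722632) (l 16729624)) (a (l 16750592) (l 16766768))) (b (a (l 16700952) (l 16729024)) (c (l 16758528) (l 16758352)))) (c (b (l 16693928) (a (l 16764688) (l 16758768))) (b (l 16630312) (a (l 16764456) (l 16758720)))))) (a (b (b (b (l 16428768) (l 16517752)) (l 16581320)) (a (c (l 16644096) (l 16621896)) (l 16692328))) (b (b (l 16434904) (c (l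 16600968) (l 16597560))) (c (l 16693184) (l 16691232)))))), by decide +kernel⟩

def k8_pp_123 : ∃ t, chk3 f_pp_123 t 4 3 1 = true :=
  ⟨(a (l 3) (b (a (l 3) (b (b (a (a (a (l 3) (c (l 959556026647) (l 904795193623))) (c (c (l 16776920) (l 16776920)) (c (l 16776912) (l 16776912)))) (b (c (a (a (l 16773416) (l 16767896)) (l 16753040)) (a (a (l 16773320) (l 16767656)) (l 16731440))) (c (a (a (l 16777208) (l 16777200)) (a (l 16775456) (l 16772192))) (a (a (l 16777208) (l 16777200)) (a (l 16775416) (l 16772056)))))) (a (l 3) (c (c (a (l 1160882683831) (l 1138870976439)) (a (l 1132428525447) (l 1111490559927))) (c (a (l 1101290012551) (l 1081962659735)) (a (l 1067467145095) (l 783462432663)))))) (l 3))) (l 3))), by decide +kernel⟩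

def k9_pp_123 : ∃ t, chk3 f_pp_123 t 10 4 1 = true :=
  ⟨(a (b (a (l 14828264) (l 15009192)) (b (b (a (l 14751224) (l 14923224)) (a (c (c (b (l 14769400) (l 14792736)) (l 14772376)) (b (l 14717640) (l 14744992))) (a (b (l 14801104) (c (l 14823448) (l 14784296))) (l 15022656)))) (a (c (c (l 15084296) (l 15072288)) (c (l 15060352) (l 15048456))) (c (a (b (l 14814448) (l 15155272)) (b (b (l 15055376) (l 15132184)) (l 15272648))) (a (b (l 14889648) (l 15139872)) (b (l 15062640) (l 15256560))))))) (b (l 15624608) (b (l 15556040) (a (c (b (l 15157544) (l 15510480)) (b (l 15360224) (l 15493272))) (c (b (l 15780952) (l 15838880)) (l 15541992)))))), by decide +kernel⟩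

def k10_pp_123 : ∃ t, chk3 f_pp_123 t 10 10 1 = true :=
  ⟨(b (c (a (b (a (c (c (b (l 15407960) (l 15509728)) (b (l 15391656) (l 15520592))) (b (l 15390392) (c (a (l 15570288) (l 15474416)) (l 15441056)))) (c (b (l 15363040) (a (c (l 15448888) (l 15444544)) (a (l 15458216) (l 15531408)))) (l 15412928))) (a (c (b (l 15618528) (l 15746544)) (c (b (a (l 15662272) (l 15577704)) (l 15739120)) (a (l 15618648) (b (l 15620936) (l 15682224))))) (a (c (b (l 15535616) (l 15647528)) (c (b (l 15544304) (l 15630648)) (b (l 15582504) (l 15629488)))) (c (b (a (l 15556760) (l 15617872)) (l 15659632)) (a (a (c (l 15601720) (l 15606232)) (l 15623008)) (l 15670832)))))) (b (a (l 15661680) (l 15958408)) (a (c (c (b (l 15780568) (l 15832464)) (l 15642248)) (l 15743128)) (c (l 15945328) (l 16078568))))) (a (a (b (l 15449472) (c (c (l 15602752) (l 15676472)) (l 15673128))) (c (b (l 15409720) (a (l 15601264) (l 15631496))) (a (l 15479192) (l 15519448)))) (a (c (l 15746936) (l 15718504)) (l 16004336)))) (a (a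 (b (b (c (a (l 15882136) (l 15814776)) (c (c (l 15825048) (l 15815632)) (l 15821624))) (l 15956800)) (c (l 16126936) (l 16111936))) (a (b (c (c (l 15802784) (b (l 15746008) (l 15829728))) (c (c (l 15779296) (l 15764632)) (l 15766160))) (l 15996120)) (b (b (c (c (l 15747136) (l 15725408)) (l 15592496)) (a (c (l 15799120) (b (l 15746344) (l 15805512))) (c (a (l 15830616) (l 15860224)) (a (l 15795984) (l 15828480))))) (a (l 15941184) (a (l 15949072) (l 15961440)))))) (c (b (a (c (b (l 15903128) (l 15973904)) (b (l 15876872) (l 15963312))) (c (l 16104448) (l 16137144))) (a (b (b (l 16007072) (l 16044632)) (l 16092552)) (c (l 16177784) (l 16221944)))) (c (a (b (l 15936416) (l 16023944)) (l 16110944)) (b (l 15912072) (l 16073416)))))), by decide +kernel⟩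

def k11_pp_123 : ∃ t, chk3 f_pp_123 t 10 11 1 = true :=
  ⟨(a (a (b (b (c (l 16339736) (l 16329504)) (a (b (l 16532392) (l 16636064)) (l 16510160))) (b (a (l 16668368) (c (l 16700160) (l 16698168))) (a (l 16727784) (l 16758032)))) (b (a (c (l 16316096) (l 16304368)) (a (c (l 16239848) (l 16225976)) (a (l 16162560) (b (l 16114808) (l 16265728))))) (a (b (l 16616152) (c (l 16768360) (l 16768128))) (a (b (l 16517280) (l 16642056)) (a (l 16493392) (a (l 16299056) (l 16471672))))))) (b (c (l 16309536) (l 16297392)) (c (l 16520512) (l 16513840)))), by decide +kernel⟩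

def k12_pp_123 : ∃ t, chk3 f_pp_123 t 11 2 1 = true :=
  ⟨(b (a (b (l 16297808) (b (l 16319136) (b (l 16329760) (a (c (l 16187400) (l 16173256)) (c (l 16527536) (l 16520168)))))) (b (l 16717296) (b (l 16685840) (c (l 16706032) (l 16704136))))) (b (a (b (c (c (a (l 16257200) (l 16589656)) (l 16212704)) (a (l 16297184) (l 16584568))) (b (c (a (l 16339984) (l 16632256)) (l 16332936)) (c (a (l 16175152) (l 16649304)) (l 16287120)))) (c (a (b (l 16752712) (l 16776400)) (l 16764200)) (b (l 16752536) (l 16776816)))) (b (a (a (l 16513752) (c (l 16670736) (l 16669576))) (a (c (l 16776616) (l 16776600)) (c (l 16777216) (l 16777216)))) (a (c (l 16667984) (l 16665144)) (l 16777024))))), by decide +kernel⟩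

def k13_pp_123 : ∃ t, chk3 f_pp_123 t 40 6 1 = true :=
  ⟨(a (b (a (c (b (l 16757440) (b (l 16776192) (l 16777208))) (b (l 16756928) (b (l 16776168) (l 16777208)))) (b (l 16757056) (c (b (l 16774768) (l 16777208)) (b (l 16774704) (l 16777208))))) (b (b (c (a (l 16777216) (l 16777216)) (a (l 16777216) (l 16777216))) (l 3)) (l 3))) (a (b (b (l 16764928) (c (b (l 16774192) (l 16776744)) (b (l 16774120) (l 16776728)))) (b (b (c (l 16777208) (l 16777208)) (c (l 16777216) (l 16777216))) (l 3))) (b (b (l 16775264) (c (c (l 16776736) (l 16776728)) (c (l 16776720) (l 16776720)))) (b (c (b (l 16777208) (l 16777216)) (b (l 16777208) (l 16777216))) (b (c (l 1266109382647) (l 1291342315479)) (l 3)))))), by decide +kernel⟩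

def k14_pp_123 : ∃ t, chk3 f_pp_123 t 41 6 1 = true :=
  ⟨(b (a (b (c (l 16754888) (l 16754312)) (b (l 16757032) (a (a (c (l 16773928) (l 16773840)) (l 16769264)) (l 16758840)))) (b (b (a (c (l 16732920) (l 16731768)) (a (b (l 16738968) (l 16741928)) (l 16708752))) (a (l 16714192) (a (l 16700016) (b (c (l 16741720) (l 16740800)) (c (l 16718328) (l 16716792)))))) (a (c (l 16734856) (l 16733760)) (a (b (l 16721128) (l 16732600)) (c (b (l 16720136) (l 16729624)) (l 16723616)))))) (b (a (b (a (a (c (l 16776832) (l 16776824)) (c (l 16775792) (l 16775752))) (a (c (l 16772984) (l 16772872)) (l 16766632))) (c (a (l 16777208) (c (l 16775624) (l 16775600))) (a (l 16777208) (c (l 16775576) (l 16775560))))) (a (b (c (l 16754616) (l 16754024)) (a (b (l 16768528) (c (l 16774520) (l 16774448))) (l 16764128))) (a (c (l 16750112) (l 16749408)) (c (l 16723360) (l 16743480))))) (a (a (c (b (l 16777216) (l 1561388384247)) (b (l 16777216) (l 1631718473719))) (c (b (c (l 16777216) (l 16777216)) (c (l 16777216)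 (l 16777216))) (b (c (l 16777216) (l 16777216)) (c (l 16777216) (l 16777216))))) (a (c (b (a (l 16776600) (c (l 16774432) (l 16774392))) (a (l 16777216) (l 16777216))) (a (c (l 16776472) (l 16776456)) (c (b (l 16774352) (l 16777216)) (b (l 16774320) (l 16777216))))) (b (a (b (l 16764048) (a (c (l 16773584) (l 16773488)) (l 16767592))) (c (l 16759040) (l 16758568))) (a (a (c (c (l 16776392) (l 16776384)) (c (l 16776376) (l 16776360))) (a (c (l 16775648) (l 16775608)) (b (l 16771664) (c (l 16775960) (l 16775928))))) (a (a (a (c (l 16771256) (l 16771104)) (c (l 16767624) (l 16767376))) (l 16765488)) (l 16765536)))))))), by decide +kernel⟩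

def k15_pp_123 : ∃ t, chk3 f_pp_123 t 20 7 1 = true :=
  ⟨(a (l 3) (a (b (a (l 3) (a (l 3) (b (b (c (l 1864720449527) (l 1862572965879)) (l 3)) (l 3)))) (l 1)) (a (b (b (a (c (b (l 824264622071) (l 3016308555783)) (c (l 1845393096695) (l 1792242876407))) (c (b (l 16777216) (c (l 16777216) (l 16777216))) (b (c (l 16777216) (l 16777216)) (c (l 16777216) (l 16777216))))) (l 3)) (l 1)) (b (a (a (b (c (c (l 16777216) (l 16777216)) (c (l 16777216) (l 16777216))) (b (c (l 3678807261191) (l 3758264156167)) (l 3))) (a (b (c (b (l 16777216) (l 16777216)) (b (l 16777216) (l 16777216))) (b (c (l 16777216) (l 16777216)) (l 3))) (b (c (c (l 16777216) (l 16777216)) (c (l 16777216) (l 16777216))) (c (b (l 16777216) (l 9911341678599)) (b (l 16777216) (l 10496530972679)))))) (c (b (b (a (a (a (l 16776632) (a (c (l 16776072) (l 16776056)) (a (a (l 16775608) (b (l 16773216) (l 16776744))) (l 16774968)))) (l 16774952)) (l 16774920)) (a (a (a (l 16777216) (a (l 16777216) (c (l 16777216) (l 16777216)))) (l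 16777216)) (l 16777216))) (a (a (a (b (l 16777216) (l 280280170503)) (a (c (l 16777216) (l 16777216)) (c (b (l 16777216) (l 16777216)) (b (l 16777216) (l 16777216))))) (l 72511127559)) (l 16777216))) (b (a (a (a (c (l 16776544) (l 16776528)) (b (a (c (l 16776040) (l 16776024)) (a (a (l 16775568) (b (l 16773112) (l 16776728))) (l 16774912))) (a (l 16777216) (a (a (l 16777216) (l 16777216)) (l 16777216))))) (b (l 16774896) (l 16777216))) (b (l 16774856) (l 16777216))) (a (a (a (b (l 16777216) (l 309271199751)) (a (c (l 16777216) (l 16777216)) (c (b (l 16777216) (l 16777216)) (b (b (l 16777216) (l 16777216)) (l 158410473479))))) (b (l 16777216) (l 16777216))) (b (l 16777216) (l 16777216)))))) (l 1))))), by decide +kernel⟩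

def k16_pp_123 : ∃ t, chk3 f_pp_123 t 21 3 1 = true :=
  ⟨(b (b (b (b (l 16674728) (l 16650280)) (c (l 16742184) (l 16741272))) (c (b (l 16749992) (l 16763880)) (b (l 16749288) (l 16763528)))) (b (b (c (b (l 16774360) (l 16777064)) (b (l 16774288) (l 16777056))) (c (b (l 16777216) (l 16777216)) (b (l 16777216) (l 16777216)))) (l 1))), by decide +kernel⟩

def k17_pp_123 : ∃ t, chk3 f_pp_123 t 11 3 1 = true :=
  ⟨(b (b (b (a (l 16738928) (l 16777136)) (c (a (l 16768728) (l 16777208)) (a (l 16768512) (l 16777208)))) (c (b (l 16771960) (l 16774352)) (b (l 16771824) (l 16774280)))) (b (b (c (b (l 16776152) (l 16777024)) (b (l 16776128) (l 16777016))) (l 1)) (l 1))), by decide +kernel⟩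

def k18_pp_123 : ∃ t, chk3 f_pp_123 t 3 1 1 = true :=
  ⟨(b (b (a (b (a (l 16717832) (l 16717624)) (b (l 16686344) (l 16705568))) (b (a (l 16717832) (l 16717832)) (l 16692088))) (a (c (b (a (b (l 16753616) (l 16777216)) (l 16764200)) (a (b (l 16777216) (l 16777216)) (c (l 16777216) (l 16777216)))) (b (a (l 16763864) (l 16763864)) (c (a (l 16777216) (l 16777216)) (a (l 16777216) (l 16777216))))) (b (b (l 16753312) (l 16777216)) (c (b (l 16777216) (l 16777216)) (b (l 16777216) (l 16777216)))))) (b (a (b (b (c (l 16777216) (l 16777216)) (c (l 16777216) (l 16777216))) (b (c (l 16777216) (l 16777216)) (l 16777216))) (b (b (l 16777216) (l 1)) (l 1))) (l 1))), by decide +kernel⟩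

theorem s19_pp_123 : ∃ t, chk3 f_pp_123 t 20 6 1 = true := ex3_a k13_pp_123 k14_pp_123

theorem s20_pp_123 : ∃ t, chk3 f_pp_123 t 20 3 1 = true := ex3_b s19_pp_123 k15_pp_123

theorem s21_pp_123 : ∃ t, chk3 f_pp_123 t 10 3 1 = true := ex3_a s20_pp_123 k16_pp_123

theorem s22_pp_123 : ∃ t, chk3 f_pp_123 t 5 3 1 = true := ex3_a s21_pp_123 k17_pp_123

theorem s23_pp_123 : ∃ t, chk3 f_pp_123 t 10 5 1 = true := ex3_b k10_pp_123 k11_pp_123

theorem s24_pp_123 : ∃ t, chk3 f_pp_123 t 10 2 1 = true := ex3_b k9_pp_123 s23_pp_123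

theorem s25_pp_123 : ∃ t, chk3 f_pp_123 t 5 2 1 = true := ex3_a s24_pp_123 k12_pp_123

theorem s26_pp_123 : ∃ t, chk3 f_pp_123 t 5 1 1 = true := ex3_b s25_pp_123 s22_pp_123

theorem s27_pp_123 : ∃ t, chk3 f_pp_123 t 9 10 1 = true := ex3_b k5_pp_123 k6_pp_123

theorem s28_pp_123 : ∃ t, chk3 f_pp_123 t 9 5 1 = true := ex3_b s27_pp_123 k7_pp_123

theorem s29_pp_123 : ∃ t, chk3 f_pp_123 t 9 2 1 = true := ex3_b k4_pp_123 s28_pp_123

theorem s30_pp_123 : ∃ t, chk3 f_pp_123 t 16 4 1 = true := ex3_b k0_pp_123 k1_pp_123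

theorem s31_pp_123 : ∃ t, chk3 f_pp_123 t 8 4 1 = true := ex3_a s30_pp_123 k2_pp_123

theorem s32_pp_123 : ∃ t, chk3 f_pp_123 t 8 2 1 = true := ex3_b s31_pp_123 k3_pp_123

theorem s33_pp_123 : ∃ t, chk3 f_pp_123 t 4 2 1 = true := ex3_a s32_pp_123 s29_pp_123

theorem s34_pp_123 : ∃ t, chk3 f_pp_123 t 4 1 1 = true := ex3_b s33_pp_123 k8_pp_123

theorem s35_pp_123 : ∃ t, chk3 f_pp_123 t 2 1 1 = true := ex3_a s34_pp_123 s26_pp_123

theorem s36_pp_123 : ∃ t, chk3 f_pp_123 t 1 1 1 = true := ex3_a s35_pp_123 k18_pp_123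

theorem c_pp_123 : CertFX 536870912 536870912 0 1230186008 1046898278 26843546 false true true .npn 1 2 3
    ndF1q1 ndF7q3 pcF2 Cut.none Ext.none :=
  certFX2 (fam := false) (s1 := true) (s2 := true) (a := 1) (b := 2) (c := 3) (cn := .npn) (n1 := ndF1q1) (n2 := ndF7q3) (pc := pcF2) (cut := Cut.none) (xt := Ext.none) (P1 := 536870912) (W1 := 536870912) (P2 := 0) (W2 := 1230186008) (P3 := 1046898278) (W3 := 26843546)
    rfl (fun _ => rfl) s36_pp_123

noncomputable def f_pp_133 : ℕ → ℕ → ℕ → ℕ → Bool := onCell 536870912 536870912 0 1230186008 1046898278 26843546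
    (rowFX 0 false true true .dn 1 3 3 (qsf 536870912 536870912 0 1230186008 3) ndF1q1 ndF7q3 pcF3 Cut.none Ext.none)

def k0_pp_133 : ∃ t, chk3 f_pp_133 t 1 1 1 = true :=
  ⟨(b (a (b (a (b (a (l 16717528) (l 1)) (l 1)) (l 1)) (l 1)) (l 1)) (l 1)), by decide +kernel⟩

theorem c_pp_133 : CertFX 536870912 536870912 0 1230186008 1046898278 26843546 false true true .dn 1 3 3
    ndF1q1 ndF7q3 pcF3 Cut.none Ext.none :=
  certFX0 (fam := false) (s1 := true) (s2 := true) (a := 1) (b := 3) (c := 3) (cn := .dn) (n1 := ndF1q1) (n2 := ndF7q3) (pc := pcF3) (cut := Cut.none) (xt := Ext.none) (P1 := 536870912) (W1 := 536870912) (P2 := 0) (W2 := 1230186008) (P3 := 1046898278) (W3 := 26843546)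
    rfl k0_pp_133

noncomputable def f_pp_202_a : ℕ → ℕ → ℕ → ℕ → Bool := onCell 0 420477299 1073741824 536870912 1046898278 26843546
    (rowFX 0 false true true .pp 2 0 2 (qsf 0 420477299 1073741824 536870912 0) ndF1q2a ndF7q2 pcF0 Cut.none Ext.none)

def k0_pp_202_a : ∃ t, chk3 f_pp_202_a t 1 1 1 = true :=
  ⟨(l 5), by decide +kernel⟩

theorem c_pp_202_a : CertFX 0 420477299 1073741824 536870912 1046898278 26843546 false true true .pp 2 0 2
    ndF1q2a ndF7q2 pcF0 Cut.none Ext.none :=
  certFX0 (fam := false) (s1 := true) (s2 := true) (a := 2) (b := 0) (c := 2) (cn := .pp) (n1 := ndF1q2a) (n2 := ndF7q2) (pc := pcF0) (cut := Cut.none) (xt := Ext.none) (P1 := 0) (W1 := 420477299) (P2 := 1073741824) (W2 := 536870912) (P3 := 1046898278) (W3 := 26843546)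
    rfl k0_pp_202_a

noncomputable def f_pp_202_b : ℕ → ℕ → ℕ → ℕ → Bool := onCell 1239849684 370763052 1073741824 536870912 1046898278 26843546
    (rowFX 0 false true true .pp 2 0 2 (qsf 1239849684 370763052 1073741824 536870912 0) ndF1q2b ndF7q2 pcF0 Cut.none Ext.none)

def k0_pp_202_b : ∃ t, chk3 f_pp_202_b t 1 1 1 = true :=
  ⟨(l 5), by decide +kernel⟩

theorem c_pp_202_b : CertFX 1239849684 370763052 1073741824 536870912 1046898278 26843546 false true true .pp 2 0 2
    ndF1q2b ndF7q2 pcF0 Cut.none Ext.none :=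
  certFX0 (fam := false) (s1 := true) (s2 := true) (a := 2) (b := 0) (c := 2) (cn := .pp) (n1 := ndF1q2b) (n2 := ndF7q2) (pc := pcF0) (cut := Cut.none) (xt := Ext.none) (P1 := 1239849684) (W1 := 370763052) (P2 := 1073741824) (W2 := 536870912) (P3 := 1046898278) (W3 := 26843546)
    rfl k0_pp_202_b

noncomputable def f_pp_203_a : ℕ → ℕ → ℕ → ℕ → Bool := onCell 0 420477299 0 1230186008 1046898278 26843546
    (rowFX 0 false true true .up 2 0 3 (qsf 0 420477299 0 1230186008 0) ndF1q2a ndF7q3 pcF0 Cut.none Ext.none)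

def k0_pp_203_a : ∃ t, chk3 f_pp_203_a t 1 1 1 = true :=
  ⟨(b (l 2) (b (l 2) (l 5))), by decide +kernel⟩

theorem c_pp_203_a : CertFX 0 420477299 0 1230186008 1046898278 26843546 false true true .up 2 0 3
    ndF1q2a ndF7q3 pcF0 Cut.none Ext.none :=
  certFX0 (fam := false) (s1 := true) (s2 := true) (a := 2) (b := 0) (c := 3) (cn := .up) (n1 := ndF1q2a) (n2 := ndF7q3) (pc := pcF0) (cut := Cut.none) (xt := Ext.none) (P1 := 0) (W1 := 420477299) (P2 := 0) (W2 := 1230186008) (P3 := 1046898278) (W3 := 26843546)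
    rfl k0_pp_203_a

noncomputable def f_pp_203_b : ℕ → ℕ → ℕ → ℕ → Bool := onCell 1239849684 370763052 0 1230186008 1046898278 26843546
    (rowFX 0 false true true .up 2 0 3 (qsf 1239849684 370763052 0 1230186008 0) ndF1q2b ndF7q3 pcF0 Cut.none Ext.none)

def k0_pp_203_b : ∃ t, chk3 f_pp_203_b t 1 1 1 = true :=
  ⟨(b (l 3) (l 5)), by decide +kernel⟩

theorem c_pp_203_b : CertFX 1239849684 370763052 0 1230186008 1046898278 26843546 false true true .up 2 0 3
    ndF1q2b ndF7q3 pcF0 Cut.none Ext.none :=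
  certFX0 (fam := false) (s1 := true) (s2 := true) (a := 2) (b := 0) (c := 3) (cn := .up) (n1 := ndF1q2b) (n2 := ndF7q3) (pc := pcF0) (cut := Cut.none) (xt := Ext.none) (P1 := 1239849684) (W1 := 370763052) (P2 := 0) (W2 := 1230186008) (P3 := 1046898278) (W3 := 26843546)
    rfl k0_pp_203_b

noncomputable def f_pp_213_a : ℕ → ℕ → ℕ → ℕ → Bool := onCell 0 420477299 0 1230186008 1046898278 26843546
    (rowFX 0 false true true .pnn 2 1 3 (qsf 0 420477299 0 1230186008 1) ndF1q2a ndF7q3 pcF1 Cut.none Ext.none)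

def k0_pp_213_a : ∃ t, chk3 f_pp_213_a t 1 1 1 = true :=
  ⟨(b (l 3) (b (l 3) (l 5))), by decide +kernel⟩

theorem c_pp_213_a : CertFX 0 420477299 0 1230186008 1046898278 26843546 false true true .pnn 2 1 3
    ndF1q2a ndF7q3 pcF1 Cut.none Ext.none :=
  certFX0 (fam := false) (s1 := true) (s2 := true) (a := 2) (b := 1) (c := 3) (cn := .pnn) (n1 := ndF1q2a) (n2 := ndF7q3) (pc := pcF1) (cut := Cut.none) (xt := Ext.none) (P1 := 0) (W1 := 420477299) (P2 := 0) (W2 := 1230186008) (P3 := 1046898278) (W3 := 26843546)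
    rfl k0_pp_213_a

noncomputable def f_pp_213_b : ℕ → ℕ → ℕ → ℕ → Bool := onCell 1239849684 370763052 0 1230186008 1046898278 26843546
    (rowFX 0 false true true .pnn 2 1 3 (qsf 1239849684 370763052 0 1230186008 1) ndF1q2b ndF7q3 pcF1 Cut.none Ext.none)

def k0_pp_213_b : ∃ t, chk3 f_pp_213_b t 1 1 1 = true :=
  ⟨(b (l 3) (l 5)), by decide +kernel⟩

theorem c_pp_213_b : CertFX 1239849684 370763052 0 1230186008 1046898278 26843546 false true true .pnn 2 1 3
    ndF1q2b ndF7q3 pcF1 Cut.none Ext.none :=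
  certFX0 (fam := false) (s1 := true) (s2 := true) (a := 2) (b := 1) (c := 3) (cn := .pnn) (n1 := ndF1q2b) (n2 := ndF7q3) (pc := pcF1) (cut := Cut.none) (xt := Ext.none) (P1 := 1239849684) (W1 := 370763052) (P2 := 0) (W2 := 1230186008) (P3 := 1046898278) (W3 := 26843546)
    rfl k0_pp_213_b

noncomputable def f_pp_303 : ℕ → ℕ → ℕ → ℕ → Bool := onCell 1610612736 469762048 0 1230186008 1046898278 26843546
    (rowFX 0 false true true .npn 3 0 3 (qsf 1610612736 469762048 0 1230186008 0) ndF1q3 ndF7q3 pcF0 Cut.none Ext.none)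

def k0_pp_303 : ∃ t, chk3 f_pp_303 t 1 1 1 = true :=
  ⟨(b (l 3) (l 5)), by decide +kernel⟩

theorem c_pp_303 : CertFX 1610612736 469762048 0 1230186008 1046898278 26843546 false true true .npn 3 0 3
    ndF1q3 ndF7q3 pcF0 Cut.none Ext.none :=
  certFX0 (fam := false) (s1 := true) (s2 := true) (a := 3) (b := 0) (c := 3) (cn := .npn) (n1 := ndF1q3) (n2 := ndF7q3) (pc := pcF0) (cut := Cut.none) (xt := Ext.none) (P1 := 1610612736) (W1 := 469762048) (P2 := 0) (W2 := 1230186008) (P3 := 1046898278) (W3 := 26843546)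
    rfl k0_pp_303

noncomputable def f_pp_313 : ℕ → ℕ → ℕ → ℕ → Bool := onCell 1610612736 469762048 0 1230186008 1046898278 26843546
    (rowFX 0 false true true .dn 3 1 3 (qsf 1610612736 469762048 0 1230186008 1) ndF1q3 ndF7q3 pcF1 Cut.none Ext.none)

def k0_pp_313 : ∃ t, chk3 f_pp_313 t 1 1 1 = true :=
  ⟨(b (l 3) (l 1)), by decide +kernel⟩

theorem c_pp_313 : CertFX 1610612736 469762048 0 1230186008 1046898278 26843546 false true true .dn 3 1 3
    ndF1q3 ndF7q3 pcF1 Cut.none Ext.none :=
  certFX0 (fam := false) (s1 := true) (s2 := true) (a := 3) (b := 1) (c := 3) (cn := .dn) (n1 := ndF1q3) (n2 := ndF7q3) (pc := pcF1) (cut := Cut.none) (xt := Ext.none) (P1 := 1610612736) (W1 := 469762048) (P2 := 0) (W2 := 1230186008) (P3 := 1046898278) (W3 := 26843546)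
    rfl k0_pp_313

noncomputable def f_pm_001 : ℕ → ℕ → ℕ → ℕ → Bool := onCell 67108864 469762048 536870912 536870912 1046898278 26843546
    (rowFX 0 false true false .up 0 0 1 (qsf 67108864 469762048 536870912 536870912 0) ndF1q0 ndF7q1 pcF0 Cut.none Ext.none)

def k0_pm_001 : ∃ t, chk3 f_pm_001 t 1 1 1 = true :=
  ⟨(l 4), by decide +kernel⟩

theorem c_pm_001 : CertFX 67108864 469762048 536870912 536870912 1046898278 26843546 false true false .up 0 0 1
    ndF1q0 ndF7q1 pcF0 Cut.none Ext.none :=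
  certFX0 (fam := false) (s1 := true) (s2 := false) (a := 0) (b := 0) (c := 1) (cn := .up) (n1 := ndF1q0) (n2 := ndF7q1) (pc := pcF0) (cut := Cut.none) (xt := Ext.none) (P1 := 67108864) (W1 := 469762048) (P2 := 536870912) (W2 := 536870912) (P3 := 1046898278) (W3 := 26843546)
    rfl k0_pm_001

noncomputable def f_pm_011 : ℕ → ℕ → ℕ → ℕ → Bool := onCell 67108864 469762048 536870912 536870912 1046898278 26843546
    (rowFX 0 false true false .pnn 0 1 1 (qsf 67108864 469762048 536870912 536870912 1) ndF1q0 ndF7q1 pcF1 Cut.none Ext.none)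

def k0_pm_011 : ∃ t, chk3 f_pm_011 t 1 1 1 = true :=
  ⟨(l 4), by decide +kernel⟩

theorem c_pm_011 : CertFX 67108864 469762048 536870912 536870912 1046898278 26843546 false true false .pnn 0 1 1
    ndF1q0 ndF7q1 pcF1 Cut.none Ext.none :=
  certFX0 (fam := false) (s1 := true) (s2 := false) (a := 0) (b := 1) (c := 1) (cn := .pnn) (n1 := ndF1q0) (n2 := ndF7q1) (pc := pcF1) (cut := Cut.none) (xt := Ext.none) (P1 := 67108864) (W1 := 469762048) (P2 := 536870912) (W2 := 536870912) (P3 := 1046898278) (W3 := 26843546)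
    rfl k0_pm_011

noncomputable def f_pm_012 : ℕ → ℕ → ℕ → ℕ → Bool := onCell 67108864 469762048 1073741824 536870912 1046898278 26843546
    (rowFX 0 false true false .pnp 0 1 2 (qsf 67108864 469762048 1073741824 536870912 1) ndF1q0 ndF7q2 pcF1 Cut.none Ext.none)

def k0_pm_012 : ∃ t, chk3 f_pm_012 t 1 1 1 = true :=
  ⟨(l 4), by decide +kernel⟩

theorem c_pm_012 : CertFX 67108864 469762048 1073741824 536870912 1046898278 26843546 false true false .pnp 0 1 2
    ndF1q0 ndF7q2 pcF1 Cut.none Ext.none :=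
  certFX0 (fam := false) (s1 := true) (s2 := false) (a := 0) (b := 1) (c := 2) (cn := .pnp) (n1 := ndF1q0) (n2 := ndF7q2) (pc := pcF1) (cut := Cut.none) (xt := Ext.none) (P1 := 67108864) (W1 := 469762048) (P2 := 1073741824) (W2 := 536870912) (P3 := 1046898278) (W3 := 26843546)
    rfl k0_pm_012

noncomputable def f_pm_022 : ℕ → ℕ → ℕ → ℕ → Bool := onCell 67108864 469762048 1073741824 536870912 1046898278 26843546
    (rowFX 0 false true false .pp 0 2 2 (qsf 67108864 469762048 1073741824 536870912 2) ndF1q0 ndF7q2 pcF2 Cut.none Ext.none)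

def k0_pm_022 : ∃ t, chk3 f_pm_022 t 1 1 1 = true :=
  ⟨(l 4), by decide +kernel⟩

theorem c_pm_022 : CertFX 67108864 469762048 1073741824 536870912 1046898278 26843546 false true false .pp 0 2 2
    ndF1q0 ndF7q2 pcF2 Cut.none Ext.none :=
  certFX0 (fam := false) (s1 := true) (s2 := false) (a := 0) (b := 2) (c := 2) (cn := .pp) (n1 := ndF1q0) (n2 := ndF7q2) (pc := pcF2) (cut := Cut.none) (xt := Ext.none) (P1 := 67108864) (W1 := 469762048) (P2 := 1073741824) (W2 := 536870912) (P3 := 1046898278) (W3 := 26843546)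
    rfl k0_pm_022

noncomputable def f_pm_023 : ℕ → ℕ → ℕ → ℕ → Bool := onCell 67108864 469762048 0 1230186008 1046898278 26843546
    (rowFX 0 false true false .up 0 2 3 (qsf 67108864 469762048 0 1230186008 2) ndF1q0 ndF7q3 pcF2 Cut.none Ext.none)

def k0_pm_023 : ∃ t, chk3 f_pm_023 t 1 1 1 = true :=
  ⟨(b (a (l 2) (b (a (l 2) (b (c (l 16717560) (l 16717544)) (c (l 16693184) (l 16691000)))) (l 4))) (l 4)), by decide +kernel⟩

theorem c_pm_023 : CertFX 67108864 469762048 0 1230186008 1046898278 26843546 false true false .up 0 2 3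
    ndF1q0 ndF7q3 pcF2 Cut.none Ext.none :=
  certFX0 (fam := false) (s1 := true) (s2 := false) (a := 0) (b := 2) (c := 3) (cn := .up) (n1 := ndF1q0) (n2 := ndF7q3) (pc := pcF2) (cut := Cut.none) (xt := Ext.none) (P1 := 67108864) (W1 := 469762048) (P2 := 0) (W2 := 1230186008) (P3 := 1046898278) (W3 := 26843546)
    rfl k0_pm_023

noncomputable def f_pm_033 : ℕ → ℕ → ℕ → ℕ → Bool := onCell 67108864 469762048 0 1230186008 1046898278 26843546
    (rowFX 0 false true false .pnn 0 3 3 (qsf 67108864 469762048 0 1230186008 3) ndF1q0 ndF7q3 pcF3 Cut.none Ext.none)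

def k0_pm_033 : ∃ t, chk3 f_pm_033 t 1 1 1 = true :=
  ⟨(b (a (l 4) (b (b (a (a (l 4) (a (l 4) (l 16717832))) (c (l 16717560) (l 16717544))) (a (l 4) (c (l 16693184) (l 16691000)))) (l 4))) (l 4)), by decide +kernel⟩

theorem c_pm_033 : CertFX 67108864 469762048 0 1230186008 1046898278 26843546 false true false .pnn 0 3 3
    ndF1q0 ndF7q3 pcF3 Cut.none Ext.none :=
  certFX0 (fam := false) (s1 := true) (s2 := false) (a := 0) (b := 3) (c := 3) (cn := .pnn) (n1 := ndF1q0) (n2 := ndF7q3) (pc := pcF3) (cut := Cut.none) (xt := Ext.none) (P1 := 67108864) (W1 := 469762048) (P2 := 0) (W2 := 1230186008) (P3 := 1046898278) (W3 := 26843546)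
    rfl k0_pm_033

noncomputable def f_pm_101 : ℕ → ℕ → ℕ → ℕ → Bool := onCell 536870912 536870912 536870912 536870912 1046898278 26843546
    (rowFX 0 false true false .npn 1 0 1 (qsf 536870912 536870912 536870912 536870912 0) ndF1q1 ndF7q1 pcF0 Cut.none Ext.none)

def k0_pm_101 : ∃ t, chk3 f_pm_101 t 1 1 1 = true :=
  ⟨(l 4), by decide +kernel⟩

theorem c_pm_101 : CertFX 536870912 536870912 536870912 536870912 1046898278 26843546 false true false .npn 1 0 1
    ndF1q1 ndF7q1 pcF0 Cut.none Ext.none :=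
  certFX0 (fam := false) (s1 := true) (s2 := false) (a := 1) (b := 0) (c := 1) (cn := .npn) (n1 := ndF1q1) (n2 := ndF7q1) (pc := pcF0) (cut := Cut.none) (xt := Ext.none) (P1 := 536870912) (W1 := 536870912) (P2 := 536870912) (W2 := 536870912) (P3 := 1046898278) (W3 := 26843546)
    rfl k0_pm_101

noncomputable def f_pm_102 : ℕ → ℕ → ℕ → ℕ → Bool := onCell 536870912 536870912 1073741824 536870912 1046898278 26843546
    (rowFX 0 false true false .npp 1 0 2 (qsf 536870912 536870912 1073741824 536870912 0) ndF1q1 ndF7q2 pcF0 Cut.none Ext.none)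

def k0_pm_102 : ∃ t, chk3 f_pm_102 t 1 1 1 = true :=
  ⟨(l 4), by decide +kernel⟩

theorem c_pm_102 : CertFX 536870912 536870912 1073741824 536870912 1046898278 26843546 false true false .npp 1 0 2
    ndF1q1 ndF7q2 pcF0 Cut.none Ext.none :=
  certFX0 (fam := false) (s1 := true) (s2 := false) (a := 1) (b := 0) (c := 2) (cn := .npp) (n1 := ndF1q1) (n2 := ndF7q2) (pc := pcF0) (cut := Cut.none) (xt := Ext.none) (P1 := 536870912) (W1 := 536870912) (P2 := 1073741824) (W2 := 536870912) (P3 := 1046898278) (W3 := 26843546)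
    rfl k0_pm_102

noncomputable def f_pm_112 : ℕ → ℕ → ℕ → ℕ → Bool := onCell 536870912 536870912 1073741824 536870912 1046898278 26843546
    (rowFX 0 false true false .dn 1 1 2 (qsf 536870912 536870912 1073741824 536870912 1) ndF1q1 ndF7q2 pcF1 Cut.none Ext.none)

def k0_pm_112 : ∃ t, chk3 f_pm_112 t 1 1 1 = true :=
  ⟨(l 4), by decide +kernel⟩

theorem c_pm_112 : CertFX 536870912 536870912 1073741824 536870912 1046898278 26843546 false true false .dn 1 1 2
    ndF1q1 ndF7q2 pcF1 Cut.none Ext.none :=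
  certFX0 (fam := false) (s1 := true) (s2 := false) (a := 1) (b := 1) (c := 2) (cn := .dn) (n1 := ndF1q1) (n2 := ndF7q2) (pc := pcF1) (cut := Cut.none) (xt := Ext.none) (P1 := 536870912) (W1 := 536870912) (P2 := 1073741824) (W2 := 536870912) (P3 := 1046898278) (W3 := 26843546)
    rfl k0_pm_112

noncomputable def f_pm_113 : ℕ → ℕ → ℕ → ℕ → Bool := onCell 536870912 536870912 0 1230186008 1046898278 26843546
    (rowFX 0 false true false .nn 1 1 3 (qsf 536870912 536870912 0 1230186008 1) ndF1q1 ndF7q3 pcF1 Cut.none Ext.none)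

def k0_pm_113 : ∃ t, chk3 f_pm_113 t 2 1 1 = true :=
  ⟨(b (l 2) (b (l 4) (l 4))), by decide +kernel⟩

def k1_pm_113 : ∃ t, chk3 f_pm_113 t 6 1 1 = true :=
  ⟨(b (l 2) (b (b (a (l 2) (b (a (l 2) (b (l 14067088) (l 14003848))) (a (b (c (l 13626872) (l 917606402983)) (l 4)) (a (b (a (c (l 13800560) (b (l 13712928) (c (l 13756992) (l 13740808)))) (c (l 13903008) (b (a (l 13799992) (l 13877552)) (c (l 13899976) (l 13911856))))) (l 4)) (b (b (l 14069648) (c (a (b (l 13997616) (l 14035624)) (l 14162816)) (a (c (l 14041480) (l 14082016)) (l 14223736)))) (c (b (a (l 14044568) (l 14218008)) (l 14162968)) (c (a (l 14139976) (l 14317792)) (l 14231952)))))))) (l 4)) (l 4))), by decide +kernel⟩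

def k2_pm_113 : ∃ t, chk3 f_pm_113 t 14 1 1 = true :=
  ⟨(b (b (l 2) (b (b (l 2) (a (l 2) (l 947138757943))) (b (a (l 2) (b (l 15191280) (c (l 15120576) (l 14982032)))) (a (b (l 14598768) (l 14499208)) (b (c (l 15010104) (l 14888832)) (c (l 14952680) (l 14856640))))))) (b (b (b (a (b (a (l 14313600) (l 14514544)) (c (l 14463000) (l 14440960))) (b (c (l 14972760) (l 14874184)) (l 14995824))) (b (a (a (b (l 14323648) (c (l 14448880) (l 14454728))) (l 14721032)) (l 15120408)) (b (a (a (c (a (b (l 14455736) (l 14285208)) (c (l 14650664) (l 14655400))) (a (b (l 14447904) (l 14260088)) (l 14601896))) (b (l 14838640) (c (a (a (l 14801232) (l 14878144)) (l 14978696)) (l 14814088)))) (l 15250992)) (a (c (a (c (a (l 14357136) (l 14456864)) (l 14437560)) (a (b (l 14849760) (l 14588648)) (l 15056456))) (a (l 14401208) (a (b (l 14702080) (l 14521304)) (l 14973320)))) (a (b (l 15179504) (a (l 15159496) (l 15289208))) (a (l 15388568) (l 15546560))))))) (b (a (c (b (a (c (l 14468248) (l 14459328))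 (b (c (a (l 14689296) (l 14780200)) (l 14736880)) (l 14650584))) (c (a (l 4) (l 14831080)) (l 14747264))) (b (a (l 14415280) (b (l 14546248) (l 14571240))) (l 14690152))) (b (a (b (a (b (l 15019176) (l 14924640)) (b (l 15292128) (l 15164944))) (a (b (l 14854768) (l 14692032)) (b (l 15048448) (l 14952920)))) (b (b (a (l 15487624) (l 15629792)) (l 15633944)) (b (l 15474032) (l 15151336)))) (a (l 14835984) (b (a (l 14976888) (l 15173312)) (l 14949640))))) (a (l 4) (b (a (l 4) (b (l 15068064) (l 15210256))) (l 4))))) (l 4))), by decide +kernel⟩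

def k3_pm_113 : ∃ t, chk3 f_pm_113 t 15 1 1 = true :=
  ⟨(b (a (b (l 2) (b (a (b (l 2) (b (l 15817248) (l 15622000))) (b (c (l 16385096) (l 957339228807)) (b (b (l 16230064) (l 15923880)) (l 15784024)))) (b (b (c (l 15677392) (l 15440432)) (c (l 15551328) (l 15340928))) (c (b (l 15470200) (l 15441304)) (l 15265912))))) (b (b (b (a (l 2) (c (l 16759032) (l 16759272))) (l 16676128)) (b (l 16507816) (l 16283328))) (b (b (c (l 16147648) (l 15759440)) (b (a (c (l 16070432) (l 15801208)) (l 15832104)) (a (c (l 15973216) (l 15745224)) (c (l 15894280) (l 15736624))))) (b (b (a (l 15736352) (l 15768064)) (l 15673384)) (b (l 15617824) (l 15598104)))))) (b (b (b (a (b (l 15363800) (l 15429880)) (b (l 15625648) (l 15713432))) (a (b (l 15562032) (l 15776688)) (b (l 15852320) (l 15969928)))) (b (a (b (b (a (l 15847216) (l 16066272)) (a (b (a (l 15882800) (l 16023280)) (a (l 15701584) (l 15990456))) (a (b (a (l 16093184) (l 16165632)) (b (l 16078824) (l 16076600))) (l 16111832)))) (a (b (a (l 15415432)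 (l 15670280)) (a (l 15222888) (l 15426552))) (b (a (l 15905360) (l 16086088)) (l 15726840)))) (b (l 16024680) (a (b (l 16040592) (l 15993128)) (b (l 15964912) (l 15966640))))) (a (b (b (a (a (l 15121344) (l 15353032)) (a (l 15560544) (l 15722840))) (a (l 15330040) (l 15602408))) (b (a (l 15139680) (l 15427760)) (a (l 4) (l 15327072)))) (b (a (b (l 15886176) (l 15891424)) (b (l 15970128) (l 15963448))) (b (a (l 15854216) (l 15937232)) (a (l 15638376) (l 15866840))))))) (b (b (b (a (b (a (l 4) (l 15321200)) (l 4)) (c (l 15725184) (l 15673984))) (a (l 4) (l 15780040))) (l 4)) (l 4)))), by decide +kernel⟩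

theorem s4_pm_113 : ∃ t, chk3 f_pm_113 t 7 1 1 = true := ex3_a k2_pm_113 k3_pm_113

theorem s5_pm_113 : ∃ t, chk3 f_pm_113 t 3 1 1 = true := ex3_a k1_pm_113 s4_pm_113

theorem s6_pm_113 : ∃ t, chk3 f_pm_113 t 1 1 1 = true := ex3_a k0_pm_113 s5_pm_113

theorem c_pm_113 : CertFX 536870912 536870912 0 1230186008 1046898278 26843546 false true false .nn 1 1 3
    ndF1q1 ndF7q3 pcF1 Cut.none Ext.none :=
  certFX0 (fam := false) (s1 := true) (s2 := false) (a := 1) (b := 1) (c := 3) (cn := .nn) (n1 := ndF1q1) (n2 := ndF7q3) (pc := pcF1) (cut := Cut.none) (xt := Ext.none) (P1 := 536870912) (W1 := 536870912) (P2 := 0) (W2 := 1230186008) (P3 := 1046898278) (W3 := 26843546)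
    rfl s6_pm_113

noncomputable def f_pm_123 : ℕ → ℕ → ℕ → ℕ → Bool := onCell 1073741824 536870912 0 1230186008 1046898278 26843546
    (rowFX 2 false true false .npn 1 2 3 (qsf 536870912 536870912 0 1230186008 2) ndF1q1 ndF7q3 pcF2 Cut.none Ext.none)

def k0_pm_123 : ∃ t, chk3 f_pm_123 t 2 2 1 = true :=
  ⟨(a (b (b (a (a (b (l 16537568) (l 16442360)) (b (l 16334120) (l 16284712))) (a (a (l 16022664) (l 15812312)) (l 15439560))) (a (a (b (b (l 16289520) (l 16155952)) (c (l 16125544) (l 15770680))) (b (l 16072248) (l 15862936))) (a (b (l 15836840) (a (l 15794536) (b (l 15720096) (l 15665536)))) (b (l 15435768) (b (l 15400624) (l 15341640)))))) (b (a (b (a (b (a (l 15570792) (l 15672704)) (a (c (l 15556624) (l 15238000)) (c (l 15616704) (l 15425304)))) (b (a (l 15707912) (l 15705376)) (l 15538480))) (a (c (l 15232472) (l 15056160)) (c (l 15270800) (l 15196440)))) (a (a (b (c (l 15608784) (l 15533440)) (l 15233344)) (b (l 15458336) (l 15186216))) (b (l 15150416) (l 15108312)))) (a (b (a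 (c (l 14790512) (l 14680456)) (c (l 14888744) (l 14849768))) (a (c (l 14421240) (l 14361808)) (c (l 14550832) (l 14532928)))) (a (b (c (l 14951216) (l 14922472)) (c (l 14691976) (l 14661976))) (b (l 14982736) (l 14859928)))))) (b (a (b (a (a (l 15101152) (l 15228488)) (l 15796696)) (a (a (b (l 15154360) (l 15147896)) (b (l 15292704) (l 15289392))) (b (l 15785008) (l 15735168)))) (a (b (b (l 16436232) (l 16395056)) (b (l 16337000) (l 16215256))) (b (b (l 16743232) (l 16673608)) (l 16474192)))) (a (b (a (a (b (l 15142096) (l 15136744)) (b (l 15294800) (l 15300080))) (b (l 15691744) (l 15638624))) (a (a (b (l 15116544) (l 15095896)) (b (l 15289144) (l 15278584))) (b (l 15569848) (l 15536360)))) (b (a (b (l 16105648) (l 15975544)) (b (l 16323368) (l 16186080))) (b (a (l 15854568) (l 16100592)) (l 4)))))), by decide +kernel⟩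

def k1_pm_123 : ∃ t, chk3 f_pm_123 t 3 2 1 = true :=
  ⟨(a (b (b (a (b (l 16736080) (l 16658704)) (b (l 16742696) (l 16691936))) (a (b (l 16585096) (l 16536952)) (c (l 16687312) (l 16684664)))) (b (a (b (l 16342712) (a (l 16370616) (l 16579808))) (b (c (l 16745152) (l 16743928)) (l 4))) (l 4))) (a (b (b (l 16717832) (c (l 16693184) (l 16691000))) (b (c (l 16764200) (l 16763864)) (l 4))) (b (b (l 16717832) (c (l 16693184) (l 16691000))) (l 4)))), by decide +kernel⟩

def k2_pm_123 : ∃ t, chk3 f_pm_123 t 1 3 1 = true :=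
  ⟨(b (b (a (a (a (b (a (c (l 14080968) (l 14047672)) (c (l 14261096) (l 14248408))) (a (c (l 13891992) (l 13862160)) (l 4))) (b (a (c (b (l 14531760) (l 4)) (l 14491008)) (l 14812280)) (l 4))) (l 4)) (l 4)) (l 4)) (l 4)), by decide +kernel⟩

theorem s3_pm_123 : ∃ t, chk3 f_pm_123 t 1 2 1 = true := ex3_a k0_pm_123 k1_pm_123

theorem s4_pm_123 : ∃ t, chk3 f_pm_123 t 1 1 1 = true := ex3_b s3_pm_123 k2_pm_123

theorem c_pm_123 : CertFX 536870912 536870912 0 1230186008 1046898278 26843546 false true false .npn 1 2 3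
    ndF1q1 ndF7q3 pcF2 Cut.none Ext.none :=
  certFX2 (fam := false) (s1 := true) (s2 := false) (a := 1) (b := 2) (c := 3) (cn := .npn) (n1 := ndF1q1) (n2 := ndF7q3) (pc := pcF2) (cut := Cut.none) (xt := Ext.none) (P1 := 536870912) (W1 := 536870912) (P2 := 0) (W2 := 1230186008) (P3 := 1046898278) (W3 := 26843546)
    rfl (fun _ => rfl) s4_pm_123

noncomputable def f_pm_133 : ℕ → ℕ → ℕ → ℕ → Bool := onCell 1610612736 536870912 0 1230186008 1046898278 26843546
    (rowFX 2 false true false .dn 1 3 3 (qsf 536870912 536870912 0 1230186008 3) ndF1q1 ndF7q3 pcF3 Cut.none Ext.none)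

def k0_pm_133 : ∃ t, chk3 f_pm_133 t 1 1 1 = true :=
  ⟨(b (a (a (a (b (c (l 16688896) (l 16690168)) (l 1)) (l 1)) (l 1)) (l 1)) (l 1)), by decide +kernel⟩

theorem c_pm_133 : CertFX 536870912 536870912 0 1230186008 1046898278 26843546 false true false .dn 1 3 3
    ndF1q1 ndF7q3 pcF3 Cut.none Ext.none :=
  certFX2 (fam := false) (s1 := true) (s2 := false) (a := 1) (b := 3) (c := 3) (cn := .dn) (n1 := ndF1q1) (n2 := ndF7q3) (pc := pcF3) (cut := Cut.none) (xt := Ext.none) (P1 := 536870912) (W1 := 536870912) (P2 := 0) (W2 := 1230186008) (P3 := 1046898278) (W3 := 26843546)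
    rfl (fun _ => rfl) k0_pm_133

noncomputable def f_pm_202_a : ℕ → ℕ → ℕ → ℕ → Bool := onCell 0 420477299 0 536870912 1046898278 26843546
    (rowFX 1 false true false .pp 2 0 2 (qsf 0 420477299 1073741824 536870912 0) ndF1q2a ndF7q2 pcF0 Cut.none Ext.none)

def k0_pm_202_a : ∃ t, chk3 f_pm_202_a t 2 1 1 = true :=
  ⟨(b (b (b (b (b (c (b (a (l 15736104) (l 15451336)) (a (c (l 15823600) (l 15815784)) (c (l 15550344) (l 15536800)))) (b (c (a (l 15714048) (b (l 15400088) (l 15447776))) (a (b (l 15676584) (l 15722672)) (b (c (l 15386368) (l 15377232)) (l 15431128)))) (c (a (l 15804328) (l 15521216)) (l 15636424)))) (c (a (b (l 15907672) (l 15978784)) (b (l 15471888) (l 15724832))) (a (l 15907208) (l 15644424)))) (a (a (b (l 15973544) (l 16170816)) (c (l 16085200) (l 16060560))) (c (b (l 15833152) (l 15966024)) (l 15769224)))) (b (a (b (c (l 16293720) (l 16281664)) (l 16388048)) (c (l 16153200) (l 16136920))) (a (b (l 16480288) (l 16577760)) (l 16145008)))) (b (a (b (l 16568784) (l 16637792))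 (b (c (l 16595760) (l 16591056)) (c (l 16747000) (l 16746688)))) (a (b (l 16708512) (l 16777104)) (b (a (l 16722832) (l 16736328)) (l 16777136))))) (b (c (b (a (l 16777216) (l 16777208)) (a (l 16777216) (b (l 16777208) (l 16777208)))) (b (a (l 16777216) (l 16777208)) (a (l 16777216) (b (l 16777208) (l 16777208))))) (l 2))), by decide +kernel⟩

def k1_pm_202_a : ∃ t, chk3 f_pm_202_a t 3 1 1 = true :=
  ⟨(b (b (b (a (b (b (c (b (c (l 15035696) (l 15012640)) (c (b (l 15107280) (l 15156304)) (b (l 15085896) (l 15136048)))) (b (c (b (l 14963728) (a (l 15131728) (l 14896656))) (a (c (l 14880336) (l 14995352)) (b (c (l 14829288) (l 39422033863)) (l 14872696)))) (c (a (l 15208992) (l 14971104)) (l 15068128)))) (c (b (c (l 15231016) (l 15210424)) (l 15316592)) (c (l 15239128) (l 15219048)))) (c (b (c (l 15463792) (l 15444736)) (c (l 15630392) (l 15614592))) (b (l 15250440) (l 15592008)))) (l 4)) (a (b (c (b (l 15775976) (l 15917616)) (l 5064289655)) (c (l 16118848) (l 16101520))) (a (b (a (b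 (l 4) (l 15652208)) (l 4)) (c (l 15797928) (l 15646456))) (l 4)))) (b (a (b (c (l 16365752) (l 16354800)) (c (l 16583008) (l 16577744))) (a (b (c (l 16069176) (l 16050448)) (c (l 16318304) (l 16305944))) (b (l 4) (c (l 15927064) (l 15903584))))) (a (b (c (l 16732376) (l 16731136)) (c (l 16776464) (l 16776440))) (a (b (c (l 16540096) (l 16533512)) (c (l 16690736) (l 16688312))) (b (c (l 16167840) (l 16150696)) (c (l 16382256) (l 16350280))))))) (b (b (a (c (l 16777184) (l 16777184)) (a (c (l 16723024) (l 16721616)) (c (l 16497944) (l 16490624)))) (a (b (l 16777184) (l 16777184)) (a (c (l 16723024) (l 16721616)) (c (l 16504904) (l 16497824))))) (b (b (a (c (l 16777184) (l 16777184)) (a (l 16722320) (l 16501368))) (a (l 2) (a (l 16722320) (l 16501368)))) (a (l 2) (a (l 2) (c (l 16504904) (l 16497824))))))), by decide +kernel⟩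

theorem s2_pm_202_a : ∃ t, chk3 f_pm_202_a t 1 1 1 = true := ex3_a k0_pm_202_a k1_pm_202_a

theorem c_pm_202_a : CertFX 0 420477299 1073741824 536870912 1046898278 26843546 false true false .pp 2 0 2
    ndF1q2a ndF7q2 pcF0 Cut.none Ext.none :=
  certFX1 (fam := false) (s1 := true) (s2 := false) (a := 2) (b := 0) (c := 2) (cn := .pp) (n1 := ndF1q2a) (n2 := ndF7q2) (pc := pcF0) (cut := Cut.none) (xt := Ext.none) (P1 := 0) (W1 := 420477299) (P2 := 1073741824) (W2 := 536870912) (P3 := 1046898278) (W3 := 26843546)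
    rfl (fun _ => rfl) s2_pm_202_a

noncomputable def f_pm_202_b : ℕ → ℕ → ℕ → ℕ → Bool := onCell 0 536870912 1073741824 536870912 1046898278 26843546
    (rowFX 2 false true false .pp 2 0 2 (qsf 1239849684 370763052 1073741824 536870912 0) ndF1q2b ndF7q2 pcF0 Cut.none Ext.none)

def k0_pm_202_b : ∃ t, chk3 f_pm_202_b t 4 1 1 = true :=
  ⟨(b (b (l 1) (a (a (a (a (b (c (l 15761784) (b (c (l 15602488) (l 442949108199)) (c (l 15954112) (l 15711704)))) (c (l 16382144) (c (l 16332112) (b (l 16233464) (l 16495552))))) (b (b (l 1) (c (l 15735584) (l 15947384))) (c (b (l 16184672) (a (l 16497592) (l 16499216))) (c (b (l 16241464) (l 16500248)) (l 16364520))))) (b (c (b (l 1) (l 15864672)) (l 304436823751)) (b (c (l 16230584) (l 16224128)) (c (a (l 16384144) (l 16507392)) (l 16488048))))) (a (b (c (l 279740677799) (l 360271341543)) (b (l 347387413127) (c (l 16485032) (l 16467464)))) (b (l 1) (c (b (l 230886389703) (l 16392128)) (l 16172704))))) (b (l 1) (a (c (b (l 211558945191) (l 16413984))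 (b (l 16138600) (l 16405488))) (b (l 1) (l 16285552)))))) (a (b (a (a (c (b (a (l 16237904) (c (l 16272776) (l 16257296))) (a (l 15797776) (c (l 15843856) (l 15819520)))) (b (a (c (a (l 16229456) (l 16242608)) (c (l 16233912) (l 16233744))) (c (l 16250512) (l 16259040))) (a (c (l 15785168) (a (l 15769976) (l 15781376))) (l 15719104)))) (c (b (c (l 16247992) (l 16280576)) (c (l 15843024) (l 15850456))) (b (l 16298832) (l 15862560)))) (b (c (a (l 16351552) (l 16436744)) (l 16400648)) (c (a (l 15937256) (l 16035952)) (l 15982280)))) (a (c (a (a (l 15552048) (b (l 15674008) (l 15512752))) (b (l 15698720) (l 15541120))) (a (a (c (l 15536112) (l 15315896)) (l 15432288)) (l 15631976))) (c (b (l 15850792) (l 15715352)) (l 15780160)))) (b (a (b (c (l 16531888) (l 16548928)) (c (l 16170352) (l 16154376))) (b (b (l 16571784) (l 16563344)) (c (l 16330456) (l 16318920)))) (a (c (l 16013400) (l 15993200)) (b (l 16244056) (a (l 16125480) (l 16184064))))))), by decide +kernel⟩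

def k1_pm_202_b : ∃ t, chk3 f_pm_202_b t 5 1 1 = true :=
  ⟨(b (l 1) (b (a (b (b (a (l 16501320) (l 1)) (l 362420824839)) (c (l 252362278551) (l 330208561047))) (b (l 1) (a (b (l 16661792) (l 16699120)) (b (l 1) (l 16776512))))) (a (b (c (l 16464384) (l 16456264)) (c (l 16332512) (l 16403744))) (a (b (c (l 16687960) (l 16684856)) (c (l 16676408) (l 16672632))) (b (c (l 16777080) (l 16777080)) (c (l 16777064) (l 16777056))))))), by decide +kernel⟩

def k2_pm_202_b : ∃ t, chk3 f_pm_202_b t 3 1 1 = true :=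
  ⟨(b (l 1) (b (l 1) (a (b (a (b (c (l 452615504295) (l 488585855303)) (c (l 16776712) (l 16776696))) (l 1)) (a (c (l 16777216) (l 16777216)) (b (c (l 16724992) (l 16723640)) (l 352757709175)))) (l 1)))), by decide +kernel⟩

theorem s3_pm_202_b : ∃ t, chk3 f_pm_202_b t 2 1 1 = true := ex3_a k0_pm_202_b k1_pm_202_b

theorem s4_pm_202_b : ∃ t, chk3 f_pm_202_b t 1 1 1 = true := ex3_a s3_pm_202_b k2_pm_202_b

theorem c_pm_202_b : CertFX 1239849684 370763052 1073741824 536870912 1046898278 26843546 false true false .pp 2 0 2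
    ndF1q2b ndF7q2 pcF0 Cut.none Ext.none :=
  certFX2 (fam := false) (s1 := true) (s2 := false) (a := 2) (b := 0) (c := 2) (cn := .pp) (n1 := ndF1q2b) (n2 := ndF7q2) (pc := pcF0) (cut := Cut.none) (xt := Ext.none) (P1 := 1239849684) (W1 := 370763052) (P2 := 1073741824) (W2 := 536870912) (P3 := 1046898278) (W3 := 26843546)
    rfl (fun _ => rfl) s4_pm_202_b

noncomputable def f_pm_203_a : ℕ → ℕ → ℕ → ℕ → Bool := onCell 0 420477299 0 1230186008 1046898278 26843546
    (rowFX 0 false true false .up 2 0 3 (qsf 0 420477299 0 1230186008 0) ndF1q2a ndF7q3 pcF0 Cut.none Ext.none)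

def k0_pm_203_a : ∃ t, chk3 f_pm_203_a t 1 1 1 = true :=
  ⟨(b (l 2) (b (l 2) (b (b (l 2) (a (a (c (l 16777216) (l 16777216)) (c (l 16777208) (l 16777208))) (a (c (l 16777184) (l 16777184)) (l 2)))) (b (a (c (a (l 16777216) (l 16777208)) (a (b (l 16777216) (l 16777216)) (l 16777208))) (a (c (l 16777184) (l 16777184)) (c (a (l 16723024) (l 16504904)) (a (l 16721616) (l 16497824))))) (b (a (a (c (l 16777216) (l 16777216)) (l 16777208)) (a (l 16777184) (a (l 16722320) (l 16501368)))) (a (c (l 16777208) (l 16777208)) (a (l 16777184) (a (l 16722320) (l 16501368))))))))), by decide +kernel⟩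

theorem c_pm_203_a : CertFX 0 420477299 0 1230186008 1046898278 26843546 false true false .up 2 0 3
    ndF1q2a ndF7q3 pcF0 Cut.none Ext.none :=
  certFX0 (fam := false) (s1 := true) (s2 := false) (a := 2) (b := 0) (c := 3) (cn := .up) (n1 := ndF1q2a) (n2 := ndF7q3) (pc := pcF0) (cut := Cut.none) (xt := Ext.none) (P1 := 0) (W1 := 420477299) (P2 := 0) (W2 := 1230186008) (P3 := 1046898278) (W3 := 26843546)
    rfl k0_pm_203_a

noncomputable def f_pm_203_b : ℕ → ℕ → ℕ → ℕ → Bool := onCell 0 536870912 0 1230186008 1046898278 26843546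
    (rowFX 2 false true false .up 2 0 3 (qsf 1239849684 370763052 0 1230186008 0) ndF1q2b ndF7q3 pcF0 Cut.none Ext.none)

def k0_pm_203_b : ∃ t, chk3 f_pm_203_b t 1 2 1 = true :=
  ⟨(l 3), by decide +kernel⟩

def k1_pm_203_b : ∃ t, chk3 f_pm_203_b t 2 3 1 = true :=
  ⟨(b (l 3) (b (a (l 2) (a (b (c (l 984183424743) (c (l 970761630183) (l 948213037383))) (b (c (l 16226704) (l 16086576)) (l 16145088))) (b (a (c (l 324974290615) (b (l 3) (l 16586960))) (c (b (l 16760928) (l 16766056)) (b (l 16760512) (l 16765768)))) (c (a (l 16624320) (l 16772984)) (b (a (l 16625960) (l 16775512)) (l 16708664)))))) (b (a (a (l 2) (a (c (l 15442040) (l 15530824)) (c (l 15767832) (b (l 15914888) (l 15985672))))) (a (c (l 16299336) (a (l 16124648) (l 16399656))) (a (l 16649656) (l 16777032)))) (a (a (a (a (c (l 15293312) (l 15100520)) (c (l 15356232) (l 15372488))) (c (a (l 15439928) (l 15603216)) (l 15505416))) (a (c (l 15836776) (l 15804040)) (c (l 16065888) (l 16039592)))) (a (c (l 16348640) (l 16334520))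 (a (l 16665264) (l 16777048))))))), by decide +kernel⟩

def k2_pm_203_b : ∃ t, chk3 f_pm_203_b t 3 3 1 = true :=
  ⟨(b (b (l 3) (b (l 3) (b (a (l 3) (a (l 3) (c (l 302426095623) (c (l 16777216) (l 16777216))))) (a (a (l 3) (c (l 16777216) (l 16777216))) (a (c (l 16777216) (l 16777216)) (c (l 16777216) (c (l 16777216) (l 16777216)))))))) (b (b (a (c (c (a (l 16777216) (l 16777216)) (a (l 16777216) (l 16777216))) (c (a (l 16777216) (l 16777216)) (a (l 16777216) (l 16777216)))) (c (a (b (l 16777216) (l 16777216)) (b (l 16777216) (c (l 16777216) (l 16777216)))) (a (b (l 16777216) (l 16777216)) (b (l 16777216) (c (l 16777216) (l 16777216)))))) (a (a (c (l 16777216) (l 16777216)) (c (l 16777216) (l 16777216))) (a (b (c (l 16777216) (l 16777216)) (l 16777216)) (c (l 16777216) (l 16777216))))) (b (a (b (l 16777216) (a (l 16777216) (l 16777216))) (c (a (l 16777216) (l 302828655479)) (a (l 16777216) (l 383359292119)))) (a (a (c (l 16777216) (l 16777216)) (c (l 16777216) (l 16777216))) (a (b (l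 354368343783) (c (l 16723872) (l 16701512))) (l 1)))))), by decide +kernel⟩

theorem s3_pm_203_b : ∃ t, chk3 f_pm_203_b t 1 3 1 = true := ex3_a k1_pm_203_b k2_pm_203_b

theorem s4_pm_203_b : ∃ t, chk3 f_pm_203_b t 1 1 1 = true := ex3_b k0_pm_203_b s3_pm_203_b

theorem c_pm_203_b : CertFX 1239849684 370763052 0 1230186008 1046898278 26843546 false true false .up 2 0 3
    ndF1q2b ndF7q3 pcF0 Cut.none Ext.none :=
  certFX2 (fam := false) (s1 := true) (s2 := false) (a := 2) (b := 0) (c := 3) (cn := .up) (n1 := ndF1q2b) (n2 := ndF7q3) (pc := pcF0) (cut := Cut.none) (xt := Ext.none) (P1 := 1239849684) (W1 := 370763052) (P2 := 0) (W2 := 1230186008) (P3 := 1046898278) (W3 := 26843546)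
    rfl (fun _ => rfl) s4_pm_203_b

end Pool.Agent.Strip051.G.IE1.Tab.C.FB17

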