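import Pool.Agent.Strip051.G.IE1.Tab

/-! # Certificates F42 (generated) -/

set_option linter.all false
set_option maxRecDepth 100000

namespace Pool.Agent.Strip051.G.IE1.Tab.C.FB17

open Pool.Agent.Strip051.PB Pool.Agent.Strip051.PB.T
open Pool.Agent.Strip051.G.IE1.Tab

noncomputable def f_pm_213_a : ℕ → ℕ → ℕ → ℕ → Bool := onCell 0 420477299 0 1230186008 1046898278 26843546
    (rowFX 0 false true false .pnn 2 1 3 (qsf 0 420477299 0 1230186008 1) ndF1q2a ndF7q3 pcF1 Cut.none Ext.none)

def k0_pm_213_a : ∃ t, chk3 f_pm_213_a t 1 4 1 = true :=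
  ⟨(a (l 3) (a (l 3) (b (l 3) (a (b (l 3) (b (l 3) (a (l 3) (c (c (a (l 356113144471) (b (l 306721056551) (l 163376515415))) (b (l 374366754839) (a (l 346986373815) (l 139754195207)))) (c (a (l 396378462487) (b (l 345912612151) (l 221358520999))) (a (l 409800235095) (b (l 357186901287) (l 219747908503)))))))) (b (a (l 3) (b (l 3) (a (b (l 3) (c (c (b (l 258402644423) (l 215452936599)) (b (l 264308223991) (l 233169676039))) (c (b (l 270750653495) (l 245517706343)) (b (l 276656233063) (l 251960156615))))) (c (c (a (b (l 290614880071) (l 177335050695)) (b (l 244980780567) (l 16717752))) (b (c (l 261086921943) (l 262697534199)) (a (l 193441176919) (l 16717016)))) (c (b (c (l 264845017367) (l 265918758727)) (a (l 203641724087) (l 16716288))) (b (c (l 267529370983) (l 269139962263)) (a (l 207399819319) (l 16715552)))))))) (a (b (c (c (a (l 330880199543) (b (l 248202087991) (l 219747878375))) (a (b (l 3) (l 301352320423)) (b (l 254107646775) (l 201494265847)))) (c (b (c (l 326585216935) (l 330343313319)) (a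 (l 309942254919) (l 208473586999))) (b (c (l 334101409703) (l 337859485095)) (a (l 318532189415) (l 209547329095))))) (c (b (a (c (l 140291070231) (l 96804526167)) (l 16715016)) (a (l 16722808) (l 16713832))) (c (a (b (l 215452928567) (l 16743152)) (l 16725120)) (b (a (l 214916057623) (l 16734800)) (l 16731464))))) (c (b (a (b (c (l 178408791335) (l 192904303671)) (l 16703024)) (b (l 16675264) (l 16680816))) (a (l 16684280) (l 16633200))) (c (b (b (a (l 201494237287) (l 16704872)) (l 16656952)) (l 16646800)) (b (b (a (l 203641720599) (l 16703632)) (l 16611896)) (l 16638680)))))))))), by decide +kernel⟩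

def k1_pm_213_a : ∃ t, chk3 f_pm_213_a t 2 5 1 = true :=
  ⟨(b (l 3) (a (l 3) (b (a (l 3) (b (l 3) (a (l 3) (b (a (l 3) (c (c (l 417853341591) (a (l 462413627367) (l 390472924391))) (a (c (l 458118660071) (l 452749950951)) (c (l 162302786775) (l 164450270423))))) (c (b (a (c (l 463487369191) (l 459192401895)) (l 212231781591)) (c (l 204178717799) (l 207936814023))) (c (a (a (l 447918112743) (l 169818979895)) (l 16777080)) (c (l 191830687591) (l 193441300327)))))))) (b (a (l 3) (b (a (a (l 3) (c (a (c (l 450602467319) (l 444160016375)) (c (l 169818980343) (l 173577076695))) (a (c (l 436106952695) (l 426980147191)) (c (l 178408914919) (l 183240753127))))) (c (c (l 16777192) (l 16777192)) (c (l 16777192) (l 16777192)))) (c (a (c (a (b (l 445233758199) (l 16777208)) (l 16777208)) (c (l 188609462263) (l 190756945911))) (l 16777200)) (c (c (l 218674233287) (l 220821716935)) (c (l 224042942407) (l 226727296839)))))) (b (a (a (l 3) (c (c (a (l 503752687607) (b (l 436106952695) (l 16777208))) (a (l 493015269367)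 (b (l 426980147191) (l 16777208)))) (c (a (l 481204109303) (b (l 415705858039) (l 16777208))) (a (l 467782336503) (b (l 402820955991) (l 16777208)))))) (c (c (l 16777200) (l 16777200)) (a (c (l 16777208) (l 16777208)) (l 16777200)))) (c (c (a (a (l 503752687623) (l 194515042295)) (l 16777200)) (a (a (l 493015269383) (l 198810009591)) (l 16777200))) (c (a (a (l 480667238407) (l 205252460535)) (l 16777200)) (a (a (l 466708594695) (l 213305524135)) (l 16777200))))))))), by decide +kernel⟩

def k2_pm_213_a : ∃ t, chk3 f_pm_213_a t 6 10 1 = true :=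
  ⟨(b (a (l 3) (b (l 3) (a (l 3) (c (c (b (l 380272348471) (a (l 381346117223) (l 269140080071))) (b (l 393694120887) (l 320679681351))) (c (b (l 402284055095) (a (l 392083535399) (l 271824434487))) (b (l 411947710151) (a (l 400136599031) (l 246591501543)))))))) (a (b (l 3) (a (l 3) (c (c (b (l 427517017959) (a (l 413558374199) (l 293836159063))) (b (l 428590759783) (a (l 411410890551) (l 291151804471)))) (c (b (l 430738243431) (a (l 411947761463) (l 232632875047))) (b (l 432885727079) (a (l 415168986935) (l 16776272))))))) (c (b (a (c (b (l 401210343255) (l 338933316039)) (b (l 409263406919) (l 336785832375))) (b (c (l 247665257831) (l 241759677815)) (l 16771888))) (a (b (c (l 260013289975) (l 256792064487)) (l 16773352)) (l 16768696))) (a (c (b (b (l 416779599687) (a (l 405505310503) (l 285783089559))) (a (l 260013290343) (l 16772920))) (b (b (l 424295792455) (a (l 411947761447) (l 239075320279))) (b (l 253033958743) (l 16773224)))) (b (b (c (l 239612194167) (l 250886470391)) (c (l 16771784) (l 16771720)))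 (l 16747504)))))), by decide +kernel⟩

def k3_pm_213_a : ∃ t, chk3 f_pm_213_a t 7 10 1 = true :=
  ⟨(a (b (b (b (a (a (l 3) (c (c (l 323364050023) (l 333564597287)) (c (l 359334401015) (l 342691402679)))) (c (a (c (l 170892709783) (l 161765904535)) (l 16748128)) (a (c (l 163376517223) (l 224579752311)) (c (l 16747560) (l 16747176))))) (a (a (a (l 3) (b (l 3) (c (c (l 230485336519) (l 326048358071)) (c (l 329269583415) (l 189146274919))))) (c (c (l 217600480855) (l 234780299959)) (c (l 236390912583) (l 233169686663)))) (c (c (l 16742912) (l 16742520)) (c (l 16742128) (l 16741736))))) (a (c (a (b (c (a (l 261623854503) (l 217063561079)) (a (l 288467399687) (l 16740360))) (c (l 16771064) (l 16770976))) (b (c (l 16729560) (l 16729208)) (l 16746896))) (b (a (b (c (l 286319906263) (l 235317169463)) (a (l 286856803959) (l 16742224))) (c (l 16728848) (l 16728488))) (a (c (l 16770896) (l 16770816)) (b (l 16726240) (l 16744320))))) (c (b (l 16722184) (l 16677120)) (b (c (l 16719808) (l 16718224)) (a (l 16710792)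 (l 16672848)))))) (c (b (a (c (l 16754008) (l 16753760)) (b (a (l 16700848) (l 16663400)) (l 16652784))) (a (l 16749552) (l 16666848))) (b (a (c (l 16753512) (l 16753264)) (b (a (l 16700408) (l 16658376)) (l 16652656))) (a (l 16748928) (l 16665800))))) (b (c (a (b (b (l 16705920) (l 16677064)) (l 16633792)) (b (c (l 16600840) (l 16588400)) (l 16530992))) (a (b (b (l 16678216) (l 16666072)) (b (l 16633128) (l 16604096))) (b (c (l 16575952) (l 16563512)) (l 16500616)))) (b (c (a (l 16593912) (l 16487128)) (a (l 16581904) (l 16460840))) (a (c (b (l 16571864) (l 16562864)) (b (l 16566584) (l 16561384))) (c (l 16455808) (l 16439080)))))), by decide +kernel⟩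

def k4_pm_213_a : ∃ t, chk3 f_pm_213_a t 3 11 1 = true :=
  ⟨(a (c (b (a (a (c (b (b (l 440938790775) (a (l 417853341543) (l 16776640))) (b (l 16776496) (l 16776432))) (b (b (l 437717565303) (a (l 414632116071) (l 16776632))) (l 229948517063))) (b (b (c (l 272361322103) (l 247665260119)) (l 16774824)) (l 16774392))) (b (c (l 16769088) (l 16768984)) (l 16768712))) (a (b (c (l 16776312) (l 16776296)) (l 16777176)) (b (l 16770912) (l 16774584)))) (a (b (b (b (a (b (l 3) (c (l 427517017975) (l 428053888887))) (c (l 249275872823) (l 241222802711))) (c (a (a (l 412484632423) (l 16776624)) (l 16774776)) (a (a (a (l 464024240103) (l 156934077271)) (l 16776616)) (l 16774752)))) (c (b (l 238538446199) (l 16775584)) (c (l 241222798983) (l 246591508071)))) (b (c (l 16776288) (l 16776272)) (l 16777176))) (b (b (c (l 16768880) (l 16768768)) (l 16768496)) (b (l 16770752) (l 16774520))))) (a (b (c (b (a (l 16747624) (l 16666192)) (a (l 16748088) (l 16669560))) (b (a (l 16746944) (l 16665032)) (a (l 16747424) (l 16668640))))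 (c (b (a (l 16751776) (l 16677008)) (l 16721832)) (b (a (l 16751216) (l 16676856)) (l 16721608)))) (b (b (a (c (l 16559072) (l 16558608)) (b (c (l 16438880) (l 16430472)) (l 16431224))) (a (c (l 16564704) (l 16564232)) (l 16432184))) (c (l 16503704) (l 16499824))))), by decide +kernel⟩

def k5_pm_213_a : ∃ t, chk3 f_pm_213_a t 2 24 1 = true :=
  ⟨(a (a (l 3) (b (a (l 3) (a (l 3) (b (l 3) (b (l 3) (c (a (c (l 501605203975) (l 493015269383)) (c (l 16777216) (l 16777216))) (c (a (l 482814722055) (l 16777216)) (l 410874019847))))))) (a (a (l 3) (b (l 3) (c (b (c (l 471003561991) (l 464561111047)) (c (l 161229045767) (l 166060883959))) (c (b (l 455971176455) (l 174113947607)) (b (l 445233758215) (a (l 411947761335) (l 16777216))))))) (c (c (b (b (a (l 494625882119) (l 16777216)) (l 179482656775)) (l 200420622343)) (b (a (b (l 486572818439) (a (l 461876756487) (l 16777216))) (l 189683204055)) (l 205252460551))) (c (b (a (b (l 476909142023) (a (l 452749950983) (l 16777216))) (l 198810009559)) (l 213305524199))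 (b (a (b (l 465634852871) (a (l 441475661831) (l 16777216))) (l 224579813047)) (l 224042942423))))))) (a (b (a (c (b (a (b (l 3) (c (l 461876756487) (l 453286821895))) (c (l 180019527671) (l 184314494967))) (c (l 185925107671) (l 192367558615))) (c (b (a (b (l 3) (l 442012532743)) (l 191293816823)) (l 217600491431)) (b (a (l 443086274567) (l 200420622327)) (l 226727296695)))) (c (c (l 16777208) (l 16777208)) (c (l 16777208) (l 16777208)))) (c (c (l 16777208) (a (l 16777216) (l 16777208))) (c (a (l 16777216) (l 16777208)) (l 16777208)))) (c (c (l 16777200) (l 16777200)) (c (l 16777200) (l 16777200))))), by decide +kernel⟩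

def k6_pm_213_a : ∃ t, chk3 f_pm_213_a t 4 50 1 = true :=
  ⟨(a (a (l 3) (a (a (l 3) (b (l 3) (b (l 3) (b (l 3) (c (c (l 126869307399) (l 131701145607)) (c (l 424295792647) (l 415705857895))))))) (c (c (b (l 502142074887) (b (a (l 471003561991) (l 16777216)) (l 16777216))) (b (l 496236494855) (b (a (l 466708594695) (l 16777216)) (l 16777216)))) (c (b (l 488720302087) (b (a (l 459729272839) (l 16777216)) (l 16777216))) (b (l 479593496583) (b (a (l 451139338247) (l 197199396535)) (l 226190425959))))))) (a (c (b (a (b (a (l 3) (c (l 140827951111) (l 146196660215))) (c (l 181630140423) (l 185925107703))) (c (l 16777216) (l 16777216))) (c (l 16777216) (l 16777216))) (b (a (b (a (l 3) (c (l 154249723895) (l 396915375799))) (c (l 193978171383) (l 205789331127))) (c (l 16777216) (l 16777216))) (c (l 16777216) (l 16777216)))) (c (c (l 16777216) (l 16777216)) (c (l 16777216) (l 16777216))))), by decide +kernel⟩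

def k7_pm_213_a : ∃ t, chk3 f_pm_213_a t 4 51 1 = true :=
  ⟨(a (a (a (b (l 3) (b (b (l 3) (a (l 3) (c (c (l 474761658375) (l 469929820167)) (c (l 463487369223) (l 454360563719))))) (a (b (l 3) (c (a (c (l 502142074887) (l 497847107591)) (c (l 146196660231) (l 149954756615))) (c (a (l 491404656647) (l 158007820295)) (b (l 457044918279) (l 415168987143))))) (c (c (b (l 161229045767) (l 16777216)) (b (l 164987142151) (l 16777216))) (c (c (l 191293816839) (l 196125655047)) (c (l 202568105991) (l 209547427527))))))) (b (b (l 3) (c (a (c (l 502678945799) (l 497847107591)) (b (a (l 3) (c (l 16777216) (l 16777216))) (c (l 16777216) (l 16777216)))) (c (a (l 490867785735) (b (l 445233758215) (l 16777216))) (a (l 481740980231) (b (l 436106952711) (l 199883751271)))))) (c (c (b (c (l 183777624071) (l 184851365895)) (l 16777216)) (b (c (l 186461978631) (l 189683204103)) (l 16777216))) (c (b (c (l 193978171399) (l 199346880519)) (l 16777216)) (b (c (l 205789331463) (l 212768652999)) (l 16777216)))))) (c (c (b (b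 (c (l 185925107719) (l 186998849543)) (l 202568105991)) (l 16777216)) (b (b (b (c (l 184314494983) (l 187535720455)) (l 206326202375)) (a (l 206326202375) (l 16777216))) (l 16777216))) (c (b (a (b (a (b (l 468856078343) (l 163376529415)) (l 16777216)) (l 16777216)) (l 16777216)) (l 16777216)) (b (a (b (a (b (l 460803014663) (l 175724560231)) (l 16777216)) (l 16777216)) (l 16777216)) (l 16777216))))) (c (c (b (l 16777216) (l 16777216)) (b (l 16777216) (l 16777216))) (c (b (l 16777216) (l 16777216)) (b (l 16777216) (l 16777216))))), by decide +kernel⟩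

def k8_pm_213_a : ∃ t, chk3 f_pm_213_a t 5 25 1 = true :=
  ⟨(b (c (c (l 16777208) (l 16777208)) (a (c (l 16777208) (l 16777208)) (l 16777200))) (c (a (c (l 16777208) (l 16777208)) (l 16777200)) (a (c (l 16777208) (l 16777208)) (l 16777200)))), by decide +kernel⟩

def k9_pm_213_a : ∃ t, chk3 f_pm_213_a t 2 13 1 = true :=
  ⟨(a (b (b (c (a (c (a (b (c (l 192367558663) (l 193441300487)) (l 16777216)) (l 16777216)) (a (b (a (c (l 192904429575) (l 195588784135)) (l 16777216)) (l 16777216)) (l 16777216))) (c (l 16777216) (l 16777216))) (a (b (a (c (b (b (l 226190426119) (l 16777216)) (l 16777216)) (b (c (l 236390973447) (l 243907166135)) (l 16777216))) (c (l 16777216) (l 16777216))) (c (l 16777216) (l 16777216))) (c (l 16777216) (l 16777216)))) (b (c (c (l 16777216) (l 16777216)) (c (l 16777216) (l 16777216))) (c (a (l 16777216) (l 16777216)) (a (l 16777216) (l 16777216))))) (c (b (a (c (l 16777216) (l 16777216)) (l 16777216)) (b (l 16777216) (l 16777216))) (b (a (c (l 16777216) (l 16777216)) (l 16777216))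 (c (l 16777216) (l 16777216))))) (b (a (c (b (l 16777208) (l 16777208)) (b (l 16777208) (l 16777208))) (b (c (l 16777200) (l 16777200)) (l 16777200))) (c (l 16777208) (l 16777208)))), by decide +kernel⟩

def k10_pm_213_a : ∃ t, chk3 f_pm_213_a t 3 6 1 = true :=
  ⟨(b (a (b (a (c (b (l 16777192) (l 16777192)) (b (l 16777192) (l 16777192))) (b (c (l 16777064) (l 16777064)) (l 16777168))) (b (c (l 16777184) (l 16777184)) (l 16777184))) (a (b (c (l 16723048) (l 16721888)) (c (l 16723024) (l 16721616))) (b (l 16502840) (l 16501584)))) (a (b (c (l 16777184) (l 16777184)) (c (l 16777184) (l 16777184))) (b (a (l 16722320) (l 16501368)) (a (l 16722320) (l 16501368))))), by decide +kernel⟩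

def k11_pm_213_a : ∃ t, chk3 f_pm_213_a t 1 7 1 = true :=
  ⟨(a (b (b (a (b (c (a (c (l 16777216) (l 16777216)) (l 16777216)) (a (c (l 16777216) (l 16777216)) (l 16777216))) (c (l 16777216) (l 16777216))) (c (l 16777208) (l 16777208))) (a (c (l 16777216) (l 16777216)) (c (l 16777208) (l 16777208)))) (b (l 1) (l 1))) (b (a (b (c (l 16777184) (l 16777184)) (c (l 16777184) (l 16777184))) (b (a (c (l 16723024) (l 16721616)) (l 16501368)) (c (l 16613736) (l 16609488)))) (a (b (c (l 16777184) (l 16777184)) (l 1)) (a (b (c (l 16723024) (l 16721616)) (l 1)) (b (c (l 16504904) (l 16497824)) (l 414497032231)))))), by decide +kernel⟩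

theorem s12_pm_213_a : ∃ t, chk3 f_pm_213_a t 4 25 1 = true := ex3_b k6_pm_213_a k7_pm_213_a

theorem s13_pm_213_a : ∃ t, chk3 f_pm_213_a t 2 25 1 = true := ex3_a s12_pm_213_a k8_pm_213_a

theorem s14_pm_213_a : ∃ t, chk3 f_pm_213_a t 2 12 1 = true := ex3_b k5_pm_213_a s13_pm_213_a

theorem s15_pm_213_a : ∃ t, chk3 f_pm_213_a t 2 6 1 = true := ex3_b s14_pm_213_a k9_pm_213_a

theorem s16_pm_213_a : ∃ t, chk3 f_pm_213_a t 1 6 1 = true := ex3_a s15_pm_213_a k10_pm_213_a

theorem s17_pm_213_a : ∃ t, chk3 f_pm_213_a t 1 3 1 = true := ex3_b s16_pm_213_a k11_pm_213_a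

theorem s18_pm_213_a : ∃ t, chk3 f_pm_213_a t 3 10 1 = true := ex3_a k2_pm_213_a k3_pm_213_a

theorem s19_pm_213_a : ∃ t, chk3 f_pm_213_a t 3 5 1 = true := ex3_b s18_pm_213_a k4_pm_213_a

theorem s20_pm_213_a : ∃ t, chk3 f_pm_213_a t 1 5 1 = true := ex3_a k1_pm_213_a s19_pm_213_a

theorem s21_pm_213_a : ∃ t, chk3 f_pm_213_a t 1 2 1 = true := ex3_b k0_pm_213_a s20_pm_213_a

theorem s22_pm_213_a : ∃ t, chk3 f_pm_213_a t 1 1 1 = true := ex3_b s21_pm_213_a s17_pm_213_a

theorem c_pm_213_a : CertFX 0 420477299 0 1230186008 1046898278 26843546 false true false .pnn 2 1 3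
    ndF1q2a ndF7q3 pcF1 Cut.none Ext.none :=
  certFX0 (fam := false) (s1 := true) (s2 := false) (a := 2) (b := 1) (c := 3) (cn := .pnn) (n1 := ndF1q2a) (n2 := ndF7q3) (pc := pcF1) (cut := Cut.none) (xt := Ext.none) (P1 := 0) (W1 := 420477299) (P2 := 0) (W2 := 1230186008) (P3 := 1046898278) (W3 := 26843546)
    rfl s22_pm_213_a

noncomputable def f_pm_213_b : ℕ → ℕ → ℕ → ℕ → Bool := onCell 1239849684 370763052 0 1230186008 1046898278 26843546
    (rowFX 0 false true false .pnn 2 1 3 (qsf 1239849684 370763052 0 1230186008 1) ndF1q2b ndF7q3 pcF1 Cut.none Ext.none)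

def k0_pm_213_b : ∃ t, chk3 f_pm_213_b t 1 2 1 = true :=
  ⟨(l 3), by decide +kernel⟩

def k1_pm_213_b : ∃ t, chk3 f_pm_213_b t 1 6 1 = true :=
  ⟨(b (b (l 3) (b (l 3) (a (a (l 3) (l 3)) (l 3)))) (a (b (b (a (a (b (a (b (a (c (c (a (b (l 137606725639) (l 16777216)) (l 495162753031)) (a (c (l 113984405511) (l 116668760071)) (l 489794043911))) (c (a (c (l 120426856455) (l 124721823751)) (l 481740980231)) (b (b (l 3) (l 84993376103)) (l 34527510039)))) (l 3)) (c (c (c (l 16777216) (l 16777216)) (c (l 16777216) (l 16777216))) (c (c (l 16777216) (l 16777216)) (a (l 16777216) (l 16777216))))) (l 3)) (c (a (c (a (l 16777216) (l 16777216)) (a (l 16777216) (l 16777216))) (c (l 431811985415) (l 423758921735))) (a (c (a (l 16777216) (l 16777216)) (a (l 16777216) (l 16777216))) (c (l 412484632583) (l 399062859783))))) (l 3)) (l 3)) (a (a (c (c (c (l 16777216) (l 16777216)) (c (l 16777216) (l 16777216))) (c (c (l 16777216) (l 16777216)) (c (l 16777216) (l 16777216)))) (a (c (c (l 16777216) (l 372219314183)) (c (l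 359871283207) (l 346986381239))) (b (l 3) (c (l 16777216) (l 16777216))))) (a (c (l 459192401927) (l 414095245319)) (l 3)))) (a (c (b (a (c (a (l 16777216) (l 16777216)) (a (l 16777216) (l 16777216))) (c (l 16777216) (l 16777216))) (a (c (l 16777216) (l 16777216)) (c (l 16777216) (l 16777216)))) (b (a (c (a (l 16777216) (l 16777216)) (a (l 16777216) (l 16777216))) (c (l 16777216) (l 16777216))) (a (c (l 16777216) (l 16777216)) (c (l 16777216) (l 16777216))))) (a (c (b (c (l 16777216) (l 16777216)) (l 16777216)) (b (c (l 16777216) (l 16777216)) (l 16777216))) (l 1)))) (l 1))), by decide +kernel⟩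

def k2_pm_213_b : ∃ t, chk3 f_pm_213_b t 1 7 1 = true :=
  ⟨(b (a (a (b (a (c (b (c (l 16777216) (l 16777216)) (c (l 16777216) (l 16777216))) (b (c (l 16777216) (a (l 16777216) (l 16777216))) (c (l 16777216) (l 16777216)))) (a (c (b (l 16777216) (l 16777216)) (b (l 16777216) (l 16777216))) (b (c (l 16777216) (l 16777216)) (l 1)))) (c (l 16777216) (l 16777216))) (l 1)) (l 1)) (l 1)), by decide +kernel⟩

theorem s3_pm_213_b : ∃ t, chk3 f_pm_213_b t 1 3 1 = true := ex3_b k1_pm_213_b k2_pm_213_b

theorem s4_pm_213_b : ∃ t, chk3 f_pm_213_b t 1 1 1 = true := ex3_b k0_pm_213_b s3_pm_213_b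

theorem c_pm_213_b : CertFX 1239849684 370763052 0 1230186008 1046898278 26843546 false true false .pnn 2 1 3
    ndF1q2b ndF7q3 pcF1 Cut.none Ext.none :=
  certFX0 (fam := false) (s1 := true) (s2 := false) (a := 2) (b := 1) (c := 3) (cn := .pnn) (n1 := ndF1q2b) (n2 := ndF7q3) (pc := pcF1) (cut := Cut.none) (xt := Ext.none) (P1 := 1239849684) (W1 := 370763052) (P2 := 0) (W2 := 1230186008) (P3 := 1046898278) (W3 := 26843546)
    rfl s4_pm_213_b

noncomputable def f_pm_303 : ℕ → ℕ → ℕ → ℕ → Bool := onCell 0 536870912 0 1230186008 1046898278 26843546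
    (rowFX 2 false true false .npn 3 0 3 (qsf 1610612736 469762048 0 1230186008 0) ndF1q3 ndF7q3 pcF0 Cut.none Ext.none)

def k0_pm_303 : ∃ t, chk3 f_pm_303 t 1 2 1 = true :=
  ⟨(l 3), by decide +kernel⟩

def k1_pm_303 : ∃ t, chk3 f_pm_303 t 1 6 1 = true :=
  ⟨(b (l 3) (b (l 3) (a (l 3) (a (a (l 3) (l 1)) (l 1))))), by decide +kernel⟩

def k2_pm_303 : ∃ t, chk3 f_pm_303 t 2 7 1 = true :=
  ⟨(b (b (b (a (l 3) (a (l 3) (a (l 3) (c (l 16760928) (l 16760512))))) (a (a (a (l 3) (a (l 3) (c (l 15216936) (l 15210624)))) (c (a (a (l 15400568) (l 15583064)) (l 15829544)) (a (l 332487722647) (l 327656580583)))) (a (c (l 16071952) (a (l 16067376) (l 16336656))) (a (c (l 16591776) (l 16586960)) (l 1))))) (a (a (a (c (a (a (b (b (l 14783880) (l 14837424)) (l 14880872)) (c (b (l 14847072) (l 14967768)) (b (l 14829688) (l 14925152)))) (b (l 14885384) (b (l 15013008) (l 15036512)))) (a (a (b (c (l 14751896) (l 322285738839)) (c (l 14873088) (l 14856968))) (b (l 322822728951) (l 14901672))) (b (c (l 14949464) (l 14935152))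 (l 15007448)))) (c (a (b (l 15113496) (l 15105720)) (b (l 15264416) (l 15341024))) (b (l 15051640) (c (l 15245976) (l 15216912))))) (c (a (a (l 15456176) (l 15642280)) (b (l 15854976) (l 15936720))) (a (b (l 15412400) (l 15574064)) (b (l 15831016) (l 15914888))))) (a (b (c (l 16226704) (l 16086576)) (l 16166056)) (l 1)))) (a (b (c (a (a (a (a (l 15044456) (c (l 15146312) (l 15013368))) (a (l 14973672) (l 15127024))) (a (l 15288056) (l 15269336))) (a (l 15442040) (l 15767832))) (a (a (a (a (c (b (l 14982176) (l 15083824)) (b (l 14967024) (b (l 15046376) (l 15104728)))) (c (l 15065608) (l 15086504))) (l 15149688)) (a (l 15273520) (l 15378592))) (a (l 15509848) (b (l 15914888) (l 15985672))))) (a (a (a (c (l 15293312) (l 15079544)) (c (l 15356232) (l 15372488))) (b (a (l 15161584) (a (l 15548840) (b (l 15601440) (l 1)))) (a (l 15533688) (l 1)))) (b (a (a (b (l 15707424) (l 1)) (l 1)) (l 1)) (l 1)))) (a (b (c (l 16299336) (a (l 16124648) (l 1))) (l 1)) (l 1)))), by decide +kernel⟩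

def k3_pm_303 : ∃ t, chk3 f_pm_303 t 3 7 1 = true :=
  ⟨(l 1), by decide +kernel⟩

theorem s4_pm_303 : ∃ t, chk3 f_pm_303 t 1 7 1 = true := ex3_a k2_pm_303 k3_pm_303

theorem s5_pm_303 : ∃ t, chk3 f_pm_303 t 1 3 1 = true := ex3_b k1_pm_303 s4_pm_303

theorem s6_pm_303 : ∃ t, chk3 f_pm_303 t 1 1 1 = true := ex3_b k0_pm_303 s5_pm_303

theorem c_pm_303 : CertFX 1610612736 469762048 0 1230186008 1046898278 26843546 false true false .npn 3 0 3
    ndF1q3 ndF7q3 pcF0 Cut.none Ext.none :=
  certFX2 (fam := false) (s1 := true) (s2 := false) (a := 3) (b := 0) (c := 3) (cn := .npn) (n1 := ndF1q3) (n2 := ndF7q3) (pc := pcF0) (cut := Cut.none) (xt := Ext.none) (P1 := 1610612736) (W1 := 469762048) (P2 := 0) (W2 := 1230186008) (P3 := 1046898278) (W3 := 26843546)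
    rfl (fun _ => rfl) s6_pm_303

noncomputable def f_pm_313 : ℕ → ℕ → ℕ → ℕ → Bool := onCell 1610612736 469762048 0 1230186008 1046898278 26843546
    (rowFX 0 false true false .dn 3 1 3 (qsf 1610612736 469762048 0 1230186008 1) ndF1q3 ndF7q3 pcF1 Cut.none Ext.none)

def k0_pm_313 : ∃ t, chk3 f_pm_313 t 1 1 1 = true :=
  ⟨(b (l 3) (l 1)), by decide +kernel⟩

theorem c_pm_313 : CertFX 1610612736 469762048 0 1230186008 1046898278 26843546 false true false .dn 3 1 3
    ndF1q3 ndF7q3 pcF1 Cut.none Ext.none :=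
  certFX0 (fam := false) (s1 := true) (s2 := false) (a := 3) (b := 1) (c := 3) (cn := .dn) (n1 := ndF1q3) (n2 := ndF7q3) (pc := pcF1) (cut := Cut.none) (xt := Ext.none) (P1 := 1610612736) (W1 := 469762048) (P2 := 0) (W2 := 1230186008) (P3 := 1046898278) (W3 := 26843546)
    rfl k0_pm_313

noncomputable def f_mm_001 : ℕ → ℕ → ℕ → ℕ → Bool := onCell 67108864 469762048 536870912 536870912 1046898278 26843546
    (rowFX 0 false false false .up 0 0 1 (qsf 67108864 469762048 536870912 536870912 0) ndF1q0 ndF7q1 pcF0 Cut.none Ext.none)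

def k0_mm_001 : ∃ t, chk3 f_mm_001 t 1 1 1 = true :=
  ⟨(l 3), by decide +kernel⟩

theorem c_mm_001 : CertFX 67108864 469762048 536870912 536870912 1046898278 26843546 false false false .up 0 0 1
    ndF1q0 ndF7q1 pcF0 Cut.none Ext.none :=
  certFX0 (fam := false) (s1 := false) (s2 := false) (a := 0) (b := 0) (c := 1) (cn := .up) (n1 := ndF1q0) (n2 := ndF7q1) (pc := pcF0) (cut := Cut.none) (xt := Ext.none) (P1 := 67108864) (W1 := 469762048) (P2 := 536870912) (W2 := 536870912) (P3 := 1046898278) (W3 := 26843546)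
    rfl k0_mm_001

noncomputable def f_mm_011 : ℕ → ℕ → ℕ → ℕ → Bool := onCell 67108864 469762048 536870912 536870912 1046898278 26843546
    (rowFX 0 false false false .pnn 0 1 1 (qsf 67108864 469762048 536870912 536870912 1) ndF1q0 ndF7q1 pcF1 Cut.none Ext.none)

def k0_mm_011 : ∃ t, chk3 f_mm_011 t 1 1 1 = true :=
  ⟨(l 3), by decide +kernel⟩

theorem c_mm_011 : CertFX 67108864 469762048 536870912 536870912 1046898278 26843546 false false false .pnn 0 1 1
    ndF1q0 ndF7q1 pcF1 Cut.none Ext.none :=
  certFX0 (fam := false) (s1 := false) (s2 := false) (a := 0) (b := 1) (c := 1) (cn := .pnn) (n1 := ndF1q0) (n2 := ndF7q1) (pc := pcF1) (cut := Cut.none) (xt := Ext.none) (P1 := 67108864) (W1 := 469762048) (P2 := 536870912) (W2 := 536870912) (P3 := 1046898278) (W3 := 26843546)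
    rfl k0_mm_011

noncomputable def f_mm_012 : ℕ → ℕ → ℕ → ℕ → Bool := onCell 67108864 469762048 1073741824 536870912 1046898278 26843546
    (rowFX 0 false false false .pnp 0 1 2 (qsf 67108864 469762048 1073741824 536870912 1) ndF1q0 ndF7q2 pcF1 Cut.none Ext.none)

def k0_mm_012 : ∃ t, chk3 f_mm_012 t 1 1 1 = true :=
  ⟨(l 5), by decide +kernel⟩

theorem c_mm_012 : CertFX 67108864 469762048 1073741824 536870912 1046898278 26843546 false false false .pnp 0 1 2
    ndF1q0 ndF7q2 pcF1 Cut.none Ext.none :=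
  certFX0 (fam := false) (s1 := false) (s2 := false) (a := 0) (b := 1) (c := 2) (cn := .pnp) (n1 := ndF1q0) (n2 := ndF7q2) (pc := pcF1) (cut := Cut.none) (xt := Ext.none) (P1 := 67108864) (W1 := 469762048) (P2 := 1073741824) (W2 := 536870912) (P3 := 1046898278) (W3 := 26843546)
    rfl k0_mm_012

noncomputable def f_mm_022 : ℕ → ℕ → ℕ → ℕ → Bool := onCell 67108864 469762048 1073741824 536870912 1046898278 26843546
    (rowFX 0 false false false .pp 0 2 2 (qsf 67108864 469762048 1073741824 536870912 2) ndF1q0 ndF7q2 pcF2 Cut.none Ext.none)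

def k0_mm_022 : ∃ t, chk3 f_mm_022 t 1 1 1 = true :=
  ⟨(l 5), by decide +kernel⟩

theorem c_mm_022 : CertFX 67108864 469762048 1073741824 536870912 1046898278 26843546 false false false .pp 0 2 2
    ndF1q0 ndF7q2 pcF2 Cut.none Ext.none :=
  certFX0 (fam := false) (s1 := false) (s2 := false) (a := 0) (b := 2) (c := 2) (cn := .pp) (n1 := ndF1q0) (n2 := ndF7q2) (pc := pcF2) (cut := Cut.none) (xt := Ext.none) (P1 := 67108864) (W1 := 469762048) (P2 := 1073741824) (W2 := 536870912) (P3 := 1046898278) (W3 := 26843546)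
    rfl k0_mm_022

noncomputable def f_mm_023 : ℕ → ℕ → ℕ → ℕ → Bool := onCell 67108864 469762048 0 1230186008 1046898278 26843546
    (rowFX 0 false false false .up 0 2 3 (qsf 67108864 469762048 0 1230186008 2) ndF1q0 ndF7q3 pcF2 Cut.none Ext.none)

def k0_mm_023 : ∃ t, chk3 f_mm_023 t 1 1 1 = true :=
  ⟨(l 5), by decide +kernel⟩

theorem c_mm_023 : CertFX 67108864 469762048 0 1230186008 1046898278 26843546 false false false .up 0 2 3
    ndF1q0 ndF7q3 pcF2 Cut.none Ext.none :=
  certFX0 (fam := false) (s1 := false) (s2 := false) (a := 0) (b := 2) (c := 3) (cn := .up) (n1 := ndF1q0) (n2 := ndF7q3) (pc := pcF2) (cut := Cut.none) (xt := Ext.none) (P1 := 67108864) (W1 := 469762048) (P2 := 0) (W2 := 1230186008) (P3 := 1046898278) (W3 := 26843546)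
    rfl k0_mm_023

noncomputable def f_mm_033 : ℕ → ℕ → ℕ → ℕ → Bool := onCell 67108864 469762048 0 1230186008 1046898278 26843546
    (rowFX 0 false false false .pnn 0 3 3 (qsf 67108864 469762048 0 1230186008 3) ndF1q0 ndF7q3 pcF3 Cut.none Ext.none)

def k0_mm_033 : ∃ t, chk3 f_mm_033 t 1 1 1 = true :=
  ⟨(l 5), by decide +kernel⟩

theorem c_mm_033 : CertFX 67108864 469762048 0 1230186008 1046898278 26843546 false false false .pnn 0 3 3
    ndF1q0 ndF7q3 pcF3 Cut.none Ext.none :=
  certFX0 (fam := false) (s1 := false) (s2 := false) (a := 0) (b := 3) (c := 3) (cn := .pnn) (n1 := ndF1q0) (n2 := ndF7q3) (pc := pcF3) (cut := Cut.none) (xt := Ext.none) (P1 := 67108864) (W1 := 469762048) (P2 := 0) (W2 := 1230186008) (P3 := 1046898278) (W3 := 26843546)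
    rfl k0_mm_033

noncomputable def f_mm_101 : ℕ → ℕ → ℕ → ℕ → Bool := onCell 536870912 536870912 0 536870912 1046898278 26843546
    (rowFX 1 false false false .npn 1 0 1 (qsf 536870912 536870912 536870912 536870912 0) ndF1q1 ndF7q1 pcF0 Cut.none Ext.none)

def k0_mm_101 : ∃ t, chk3 f_mm_101 t 1 1 1 = true :=
  ⟨(l 3), by decide +kernel⟩

theorem c_mm_101 : CertFX 536870912 536870912 536870912 536870912 1046898278 26843546 false false false .npn 1 0 1
    ndF1q1 ndF7q1 pcF0 Cut.none Ext.none :=
  certFX1 (fam := false) (s1 := false) (s2 := false) (a := 1) (b := 0) (c := 1) (cn := .npn) (n1 := ndF1q1) (n2 := ndF7q1) (pc := pcF0) (cut := Cut.none) (xt := Ext.none) (P1 := 536870912) (W1 := 536870912) (P2 := 536870912) (W2 := 536870912) (P3 := 1046898278) (W3 := 26843546)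
    rfl (fun _ => rfl) k0_mm_101

noncomputable def f_mm_102 : ℕ → ℕ → ℕ → ℕ → Bool := onCell 536870912 536870912 1073741824 536870912 1046898278 26843546
    (rowFX 0 false false false .npp 1 0 2 (qsf 536870912 536870912 1073741824 536870912 0) ndF1q1 ndF7q2 pcF0 Cut.none Ext.none)

def k0_mm_102 : ∃ t, chk3 f_mm_102 t 1 1 1 = true :=
  ⟨(l 3), by decide +kernel⟩

theorem c_mm_102 : CertFX 536870912 536870912 1073741824 536870912 1046898278 26843546 false false false .npp 1 0 2
    ndF1q1 ndF7q2 pcF0 Cut.none Ext.none :=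
  certFX0 (fam := false) (s1 := false) (s2 := false) (a := 1) (b := 0) (c := 2) (cn := .npp) (n1 := ndF1q1) (n2 := ndF7q2) (pc := pcF0) (cut := Cut.none) (xt := Ext.none) (P1 := 536870912) (W1 := 536870912) (P2 := 1073741824) (W2 := 536870912) (P3 := 1046898278) (W3 := 26843546)
    rfl k0_mm_102

noncomputable def f_mm_112 : ℕ → ℕ → ℕ → ℕ → Bool := onCell 536870912 536870912 1073741824 536870912 1046898278 26843546
    (rowFX 0 false false false .dn 1 1 2 (qsf 536870912 536870912 1073741824 536870912 1) ndF1q1 ndF7q2 pcF1 Cut.none Ext.none)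

def k0_mm_112 : ∃ t, chk3 f_mm_112 t 1 1 1 = true :=
  ⟨(l 3), by decide +kernel⟩

theorem c_mm_112 : CertFX 536870912 536870912 1073741824 536870912 1046898278 26843546 false false false .dn 1 1 2
    ndF1q1 ndF7q2 pcF1 Cut.none Ext.none :=
  certFX0 (fam := false) (s1 := false) (s2 := false) (a := 1) (b := 1) (c := 2) (cn := .dn) (n1 := ndF1q1) (n2 := ndF7q2) (pc := pcF1) (cut := Cut.none) (xt := Ext.none) (P1 := 536870912) (W1 := 536870912) (P2 := 1073741824) (W2 := 536870912) (P3 := 1046898278) (W3 := 26843546)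
    rfl k0_mm_112

noncomputable def f_mm_113 : ℕ → ℕ → ℕ → ℕ → Bool := onCell 536870912 536870912 0 1230186008 1046898278 26843546
    (rowFX 0 false false false .nn 1 1 3 (qsf 536870912 536870912 0 1230186008 1) ndF1q1 ndF7q3 pcF1 Cut.none Ext.none)

def k0_mm_113 : ∃ t, chk3 f_mm_113 t 1 1 1 = true :=
  ⟨(b (l 5) (a (l 5) (b (l 5) (l 3)))), by decide +kernel⟩

theorem c_mm_113 : CertFX 536870912 536870912 0 1230186008 1046898278 26843546 false false false .nn 1 1 3
    ndF1q1 ndF7q3 pcF1 Cut.none Ext.none :=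
  certFX0 (fam := false) (s1 := false) (s2 := false) (a := 1) (b := 1) (c := 3) (cn := .nn) (n1 := ndF1q1) (n2 := ndF7q3) (pc := pcF1) (cut := Cut.none) (xt := Ext.none) (P1 := 536870912) (W1 := 536870912) (P2 := 0) (W2 := 1230186008) (P3 := 1046898278) (W3 := 26843546)
    rfl k0_mm_113

noncomputable def f_mm_123 : ℕ → ℕ → ℕ → ℕ → Bool := onCell 1073741824 536870912 0 1230186008 1046898278 26843546
    (rowFX 2 false false false .npn 1 2 3 (qsf 536870912 536870912 0 1230186008 2) ndF1q1 ndF7q3 pcF2 Cut.none Ext.none)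

def k0_mm_123 : ∃ t, chk3 f_mm_123 t 1 1 1 = true :=
  ⟨(b (l 5) (l 5)), by decide +kernel⟩

theorem c_mm_123 : CertFX 536870912 536870912 0 1230186008 1046898278 26843546 false false false .npn 1 2 3
    ndF1q1 ndF7q3 pcF2 Cut.none Ext.none :=
  certFX2 (fam := false) (s1 := false) (s2 := false) (a := 1) (b := 2) (c := 3) (cn := .npn) (n1 := ndF1q1) (n2 := ndF7q3) (pc := pcF2) (cut := Cut.none) (xt := Ext.none) (P1 := 536870912) (W1 := 536870912) (P2 := 0) (W2 := 1230186008) (P3 := 1046898278) (W3 := 26843546)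
    rfl (fun _ => rfl) k0_mm_123

noncomputable def f_mm_133 : ℕ → ℕ → ℕ → ℕ → Bool := onCell 536870912 536870912 0 1230186008 1046898278 26843546
    (rowFX 0 false false false .dn 1 3 3 (qsf 536870912 536870912 0 1230186008 3) ndF1q1 ndF7q3 pcF3 Cut.none Ext.none)

def k0_mm_133 : ∃ t, chk3 f_mm_133 t 1 1 1 = true :=
  ⟨(b (l 5) (l 1)), by decide +kernel⟩

theorem c_mm_133 : CertFX 536870912 536870912 0 1230186008 1046898278 26843546 false false false .dn 1 3 3
    ndF1q1 ndF7q3 pcF3 Cut.none Ext.none :=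
  certFX0 (fam := false) (s1 := false) (s2 := false) (a := 1) (b := 3) (c := 3) (cn := .dn) (n1 := ndF1q1) (n2 := ndF7q3) (pc := pcF3) (cut := Cut.none) (xt := Ext.none) (P1 := 536870912) (W1 := 536870912) (P2 := 0) (W2 := 1230186008) (P3 := 1046898278) (W3 := 26843546)
    rfl k0_mm_133

noncomputable def f_mm_202_a : ℕ → ℕ → ℕ → ℕ → Bool := onCell 0 420477299 0 536870912 1046898278 26843546
    (rowFX 1 false false false .pp 2 0 2 (qsf 0 420477299 1073741824 536870912 0) ndF1q2a ndF7q2 pcF0 Cut.none Ext.none)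

def k0_mm_202_a : ∃ t, chk3 f_mm_202_a t 2 8 1 = true :=
  ⟨(b (b (c (b (a (l 16257208) (l 16298336)) (c (a (l 16318088) (l 16354776)) (a (b (l 16300784) (l 16355896)) (b (l 16338872) (l 16397688))))) (b (c (a (b (l 16225552) (l 16197184)) (b (l 16267344) (l 16258248))) (a (b (c (l 16218840) (l 16151496)) (l 16256472)) (b (c (l 16260688) (l 16193392)) (l 16297576)))) (c (a (l 16322648) (l 16342352)) (a (l 16304592) (l 16343328))))) (c (a (b (c (l 16416584) (l 16406464)) (l 16462744)) (b (c (l 16463072) (l 16452424)) (l 16512776))) (a (l 16394392) (c (l 16440840) (l 16428376))))) (c (a (b (l 16508704) (c (l 16571120) (l 16561536))) (b (a (l 16553032) (c (l 16506584) (b (l 16483888) (l 16548888)))) (c (b (a (l 16580832) (l 16588176)) (a (a (l 16583952) (l 16578120)) (l 16586376))) (a (l 16587328) (l 16586536))))) (a (b (l 16480736) (l 16560376)) (b (a (l 16523376) (b (l 16509576) (l 16544744))) (a (a (l 16594064) (l 16587504)) (b (l 16572800) (l 16591200))))))), by decide +kernel⟩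

def k1_mm_202_a : ∃ t, chk3 f_mm_202_a t 6 16 1 = true :=
  ⟨(a (b (c (b (l 16265528) (c (l 16319488) (l 16267440))) (b (c (l 16062448) (b (l 16076800) (l 16262088))) (c (l 16329072) (l 16306144)))) (c (b (a (l 16433864) (c (b (l 16400920) (l 16371360)) (b (c (l 16412512) (l 16396656)) (l 16424544)))) (c (b (l 16375192) (l 16514696)) (l 16459656))) (c (b (a (l 16394624) (l 16372128)) (l 16384560)) (b (l 16368736) (l 16420512))))) (c (b (b (a (l 16224376) (b (l 16185008) (c (l 16197384) (l 16096560)))) (b (a (a (l 16268384) (c (l 16137432) (l 16232920))) (c (l 16126176) (l 16221752))) (c (l 16170136) (c (l 16301272) (l 16203968))))) (b (c (b (l 16348680) (l 16389200)) (b (c (l 16340144) (l 16343848)) (l 16376592))) (c (l 16453032) (l 16399752)))) (b (b (a (c (l 16208480) (b (l 16179872) (l 16218544))) (c (b (l 16154400) (b (l 16106168) (l 16084440))) (b (b (c (l 16136128) (b (l 16124192) (l 16131320))) (c (l 16150576) (l 16148296))) (c (l 16181400) (l 16168248))))) (c (b (c (l 16132536) (l 16230216))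 (l 16284408)) (l 16154992))) (c (b (l 16316144) (l 16362584)) (l 16323128))))), by decide +kernel⟩

def k2_mm_202_a : ∃ t, chk3 f_mm_202_a t 7 32 1 = true :=
  ⟨(c (c (a (b (l 16201176) (b (a (l 16117264) (l 16207392)) (l 16100784))) (b (c (a (l 16296904) (b (l 16367176) (l 16369544))) (l 16282168)) (b (a (c (l 16297712) (l 16306784)) (c (b (l 16370552) (c (l 16363352) (l 16274088))) (b (l 16382360) (a (l 16380120) (c (l 16419688) (l 16437504)))))) (c (a (b (l 16314928) (l 16353696)) (b (a (l 16286968) (l 16392024)) (l 16324312))) (a (l 16357032) (c (l 16271400) (l 16361128))))))) (b (a (b (l 16185544) (a (l 16156264) (l 16213296))) (b (l 16352800) (c (l 16347768) (b (l 16340880) (l 16216424))))) (a (a (b (l 16192128) (l 16257264)) (b (l 16241696) (l 16298744))) (a (b (l 16303848) (l 16381256)) (b (l 16299552) (b (c (l 16382168) (l 16483528)) (c (l 16394280) (l 16484184)))))))) (b (c (a (b (a (l 16134952) (l 16198008)) (b (a (l 16145144) (l 16205040)) (c (l 16189664) (l 16204064)))) (b (a (l 16282496)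 (l 16384568)) (c (b (l 16250584) (l 16353496)) (b (l 16299840) (l 16328584))))) (a (b (c (b (l 16150096) (a (l 16129992) (l 16192120))) (b (c (l 16103648) (a (l 16112064) (l 16175576))) (l 16158112))) (c (a (l 16157080) (l 16215800)) (l 16172240))) (b (c (b (l 16320112) (a (l 16276976) (l 16358584))) (b (c (l 16148128) (a (l 16260992) (l 16322296))) (l 16201800))) (c (a (l 16300936) (l 16403824)) (l 16338880))))) (a (c (b (a (l 16140472) (l 16233328)) (l 16236648)) (a (l 16188984) (l 16234312))) (c (b (c (a (l 16346528) (l 16449152)) (l 16286040)) (l 16286576)) (a (l 16317136) (l 16419512)))))), by decide +kernel⟩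

def k3_mm_202_a : ∃ t, chk3 f_mm_202_a t 7 33 1 = true :=
  ⟨(c (c (a (b (b (l 16299080) (a (l 16364376) (c (l 16318424) (l 16398232)))) (a (l 16407888) (l 16407664))) (b (b (a (c (l 16321040) (a (l 16401816) (l 16406520))) (c (c (l 16476360) (l 16455768)) (b (l 16462288) (l 16487048)))) (a (c (l 16373936) (l 16396632)) (c (l 16489776) (l 16538640)))) (a (l 16441880) (b (l 16512840) (l 16491784))))) (a (a (b (l 16230720) (l 16349224)) (b (l 16243064) (l 16385384))) (b (a (b (l 16250240) (l 16425968)) (c (b (c (l 16513872) (l 16462272)) (l 16522000)) (l 16484936))) (a (l 16361544) (b (l 16476576) (a (l 16477400) (l 16523640))))))) (a (c (a (l 16248360) (l 16215616)) (a (l 16271792) (l 16301544))) (a (c (b (l 16367744) (c (l 16333592) (l 16388600))) (l 16282952)) (c (b (c (l 16441160) (l 16378784)) (b (c (l 16449232) (l 16465616)) (c (l 16424504) (l 16440680)))) (b (l 16448280) (b (l 16466920) (l 16419976))))))), by decide +kernel⟩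

def k4_mm_202_a : ∃ t, chk3 f_mm_202_a t 6 17 1 = true :=
  ⟨(c (b (a (b (c (l 16533560) (l 16488728)) (c (l 16556776) (l 16523400))) (b (c (l 16484496) (l 16429272)) (c (l 16502528) (l 16398848)))) (c (b (a (l 16580512) (c (l 16515960) (l 16439176))) (a (c (l 16593952) (l 16589528)) (a (l 16404904) (a (l 16530280) (l 16507888))))) (a (l 16576656) (b (l 16477288) (a (l 16543904) (l 16514808)))))) (b (a (b (l 16469456) (l 16517912)) (c (l 16439280) (l 16430872))) (a (l 16565864) (a (l 16480240) (b (l 16482496) (c (l 16511880) (l 16512840))))))), by decide +kernel⟩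

def k5_mm_202_a : ∃ t, chk3 f_mm_202_a t 7 17 1 = true :=
  ⟨(c (b (a (c (a (l 16302352) (b (l 16437632) (l 16356744))) (a (b (l 16280680) (l 16319224)) (b (c (l 16407000) (l 16390136)) (c (l 16378944) (l 16437592))))) (c (a (b (l 16394192) (b (l 16483168) (l 16501448))) (b (b (l 16442032) (l 16535648)) (b (a (l 16528144) (l 16566408)) (l 16477240)))) (a (b (c (l 16413480) (b (a (l 16412272) (l 16437504)) (l 16443336))) (b (a (l 16451104) (l 16477160)) (l 16482800))) (b (b (a (l 16475976) (l 16526872)) (l 16489824)) (b (a (l 16505168) (c (l 16523032) (l 16536056))) (c (l 16497936) (l 16537272))))))) (a (c (b (a (b (l 16449696) (l 16460728)) (b (l 16469104) (l 16487568))) (b (a (l 16474360) (l 16504864)) (a (l 16493280) (l 16459640)))) (a (b (l 16389696) (l 16471576)) (b (l 16412328) (l 16510776)))) (c (b (a (c (l 16512720) (b (l 16470216) (l 16526800))) (c (l 16547704) (b (l 16504248) (l 16583992)))) (a (c (b (l 16531016) (l 16567080)) (l 16552688)) (c (b (l 16592776) (l 16606392)) (l 16614120)))) (b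 (a (l 16514216) (l 16546528)) (a (l 16551408) (l 16613280)))))) (a (b (a (c (l 16317984) (l 16376912)) (b (c (l 16383144) (l 16380560)) (c (l 16390944) (l 16433128)))) (a (b (a (l 16444560) (l 16437560)) (a (l 16472408) (l 16478064))) (b (a (l 16450264) (l 16475088)) (l 16507736)))) (b (a (c (b (c (a (l 16427040) (l 16445112)) (l 16412824)) (l 16458440)) (b (l 16411784) (l 16457472))) (b (a (c (l 16424832) (l 16466280)) (a (l 16502168) (l 16528760))) (a (l 16510720) (l 16542400)))) (a (b (l 16469520) (l 16527864)) (b (a (l 16549816) (l 16583928)) (a (l 16594608) (l 16628208))))))), by decide +kernel⟩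

def k6_mm_202_a : ∃ t, chk3 f_mm_202_a t 1 36 1 = true :=
  ⟨(a (a (a (l 16529104) (a (l 16594880) (b (l 16585400) (l 16565784)))) (c (a (b (l 16511096) (l 16566400)) (c (b (l 16580928) (l 16559728)) (l 16563584))) (a (l 16569120) (l 16574792)))) (a (c (c (a (b (l 16600208) (l 16553216)) (b (l 16427272) (l 16532672))) (a (b (l 16604864) (l 16591480)) (b (l 16424704) (l 16555360)))) (a (b (l 16606040) (a (l 16588480) (l 16617008))) (c (b (l 16489896) (l 16557176)) (b (l 16491688) (l 16557064))))) (c (a (b (a (c (l 16517784) (l 16516064)) (c (l 16542560) (l 16540968))) (a (c (l 16535856) (l 16534216)) (l 16565824))) (a (b (c (l 16588184) (l 16587000)) (l 16566448)) (b (a (l 16628936) (c (b (l 16657280) (l 16668368)) (l 16621640))) (c (a (l 16608960) (b (l 16678168) (l 16691272))) (a (l 16629256) (b (l 16656784) (l 16690968))))))) (a (a (b (l 16513320) (l 16531696)) (b (l 16538432) (l 16563128))) (a (b (l 16585056) (l 16606440)) (b (a (l 16627592) (b (l 16655728) (a (l 16656728) (l 16675072)))) (c (a (l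 16628520) (b (l 16656288) (l 16690616))) (a (l 16606808) (b (l 16655800) (l 16690264)))))))))), by decide +kernel⟩

def k7_mm_202_a : ∃ t, chk3 f_mm_202_a t 1 37 1 = true :=
  ⟨(a (a (a (l 16604456) (c (b (l 16566408) (l 16566384)) (l 16563848))) (c (b (c (l 16507064) (l 16435664)) (a (l 16531448) (a (l 16559480) (l 16577272)))) (a (l 16551800) (b (l 16562208) (l 16544056))))) (a (c (a (b (a (l 16598392) (l 16622976)) (l 16627632)) (c (a (l 16610696) (l 16575232)) (a (l 16610248) (l 16574120)))) (a (c (l 16619792) (l 16616464)) (a (l 16609576) (l 16572424)))) (c (a (a (c (l 16545608) (l 16543896)) (c (l 16582800) (l 16581424))) (c (a (b (l 16586992) (a (l 16625968) (l 16635160))) (a (b (l 16648376) (l 16697272)) (b (l 16713152) (l 16693504)))) (a (b (l 16586096) (a (l 16624944) (l 16634440))) (a (b (l 16647824) (l 16697008)) (b (l 16713080) (l 16693288)))))) (a (a (l 16520312) (l 16558336)) (c (a (b (l 16585152) (a (l 16623904) (l 16633688))) (a (b (l 16647232) (l 16696728)) (b (l 16712976) (l 16693080))))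 (a (b (l 16584216) (a (l 16622856) (l 16632944))) (a (b (l 16646640) (l 16696440)) (b (l 16712864) (l 16692872))))))))), by decide +kernel⟩

def k8_mm_202_a : ∃ t, chk3 f_mm_202_a t 1 38 1 = true :=
  ⟨(b (a (a (c (l 16573048) (a (l 16588072) (l 16563776))) (c (a (l 16534024) (a (l 16564928) (l 16592392))) (a (l 16549368) (l 16574128)))) (a (c (a (l 16626776) (c (l 16601104) (l 16600208))) (a (l 16626136) (l 16535944))) (c (a (a (l 16533824) (c (l 16590280) (l 16588776))) (a (c (b (l 16584944) (l 16613352)) (a (l 16630000) (l 16674536))) (c (a (l 16700808) (a (l 16686064) (b (l 16700448) (l 16694424)))) (a (l 16700792) (a (l 16685664) (b (l 16699888) (l 16693712))))))) (a (a (l 16551240) (c (l 16587272) (l 16585760))) (a (a (c (l 16628896) (l 16627792)) (c (l 16673968) (l 16673392))) (c (a (l 16700776) (a (l 16685272) (b (l 16699320) (l 16692992)))) (a (l 16700768) (a (l 16684880) (b (l 16698760) (l 16692280)))))))))) (a (a (c (a (l 16572168) (l 16545368)) (l 16558416)) (c (a (l 16534600) (l 16572592))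 (a (l 16529728) (l 16568832)))) (a (a (l 16613616) (c (l 16623720) (l 16622456))) (a (a (c (l 16576120) (l 16572984)) (c (c (l 16549280) (a (l 16597504) (l 16622360))) (c (a (l 16596104) (l 16621192)) (a (l 16594696) (l 16620024))))) (c (a (c (l 16679024) (l 16678496)) (a (c (l 16694744) (l 16694520)) (c (a (b (l 16699736) (l 16701496)) (b (l 304036521687) (l 300278439959))) (a (b (l 16699136) (l 16700872)) (b (l 280951070839) (l 277192988327)))))) (a (c (l 16698936) (a (l 16656968) (l 16698648))) (a (c (c (l 16694352) (l 16694240)) (b (l 16716688) (l 16693256))) (c (a (b (l 16698544) (l 249812574615)) (c (l 271824259127) (l 271287387415))) (a (b (l 16697952) (l 271824280759)) (b (l 283635422647) (l 262160598935))))))))))), by decide +kernel⟩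

def k9_mm_202_a : ∃ t, chk3 f_mm_202_a t 1 39 1 = true :=
  ⟨(a (a (c (a (l 16539496) (l 16509168)) (a (l 16536616) (l 16473064))) (a (b (c (l 16527744) (l 16513288)) (c (l 16457304) (l 16502520))) (l 16535856))) (a (a (c (l 16590792) (l 16588408)) (c (l 16668080) (l 16668032))) (a (c (c (a (b (l 16606568) (l 16634488)) (b (l 16598040) (l 16667360))) (a (b (l 16605392) (l 16633688)) (b (l 16576152) (l 16666792)))) (a (b (a (l 16601576) (l 16604752)) (c (l 16611904) (l 16611104))) (b (c (a (l 16625680) (l 16653088)) (a (l 16624648) (l 16652328))) (c (l 16666224) (l 16665664))))) (a (c (b (c (a (l 16685336) (l 16719680)) (a (l 16684904) (l 16719608))) (c (a (l 16706688) (l 16703952)) (a (l 16706496) (l 203641723703)))) (c (b (a (l 16684464) (l 16719536)) (a (l 16706304) (a (l 16726248) (l 16701984)))) (b (a (l 16684032) (l 16698488)) (a (l 16706104) (a (l 16726224) (l 274508688183)))))) (a (c (b (c (b (l 16694816) (l 300815344343)) (b (l 16694504) (l 276656152983))) (c (l 302425968263) (l 277729905543)))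 (c (b (b (l 250349468151) (l 269139960231)) (a (l 238001463575) (l 259476300695))) (b (b (l 280951110167) (a (l 16720200) (l 271824317511))) (a (l 268603105239) (l 253033849175))))) (a (b (c (c (l 302425939063) (l 278266746887)) (c (l 265381845175) (l 264844973111))) (l 3)) (l 3))))))), by decide +kernel⟩

def k10_mm_202_a : ∃ t, chk3 f_mm_202_a t 2 5 1 = true :=
  ⟨(b (b (c (a (b (c (l 16400016) (l 16394456)) (c (l 16443552) (l 16438160))) (b (a (l 16490288) (l 16506248)) (a (l 16458600) (l 16488792)))) (a (b (c (l 16388840) (l 16404144)) (c (l 16432728) (l 16448232))) (b (a (c (l 16482608) (l 16479312)) (l 16500760)) (a (l 16451120) (l 16482288))))) (a (a (c (b (l 16462368) (l 16500872)) (b (l 16451784) (l 16496928))) (b (l 16441536) (c (l 16482584) (l 16474944)))) (a (c (b (l 16455656) (l 16484864)) (b (l 16447648) (l 16477328))) (c (b (l 16488032) (l 16507712)) (b (l 16481040) (l 16500880)))))) (b (a (c (b (l 16571160) (l 16710080)) (b (l 16587320) (l 16708336))) (a (c (l 16638600) (b (l 16577576)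 (l 16703624))) (b (c (l 16579072) (l 16573936)) (c (a (l 16703392) (b (l 16668160) (l 16730648))) (a (l 16701472) (b (l 16665328) (l 16708464))))))) (a (b (c (l 16776848) (l 16776832)) (c (l 16777216) (l 16777216))) (c (a (b (l 16776816) (c (l 16777208) (l 16777208))) (b (b (a (l 16775792) (l 16769248)) (c (l 16776088) (l 16776072))) (c (l 16777200) (l 16777200)))) (a (b (l 16776808) (c (l 16777208) (l 16777208))) (b (b (c (l 16771488) (l 16771416)) (c (l 16776056) (l 16776040))) (c (l 16777200) (l 16777200)))))))), by decide +kernel⟩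

def k11_mm_202_a : ∃ t, chk3 f_mm_202_a t 3 20 1 = true :=
  ⟨(b (a (a (c (l 16561040) (l 16557248)) (b (c (l 16645712) (l 16644632)) (a (l 16605504) (c (l 16653056) (l 16651960))))) (a (c (a (c (a (l 16669984) (l 16671920)) (a (l 16669696) (l 16671536))) (c (b (l 16689448) (l 16707352)) (b (l 16689144) (l 16707240)))) (a (c (a (l 16669400) (l 16671152)) (a (l 16669104) (l 16670776))) (c (b (l 16688840) (l 16707128)) (b (l 16688544) (l 16707024))))) (a (c (a (c (b (l 16725056) (l 226190331431)) (b (l 16725056) (l 172503240311))) (b (c (l 298131011239) (l 273434948983)) (c (l 311015931335) (l 269676870519)))) (c (a (b (l 16725056) (l 228337791815)) (b (a (l 16723832) (l 259476307687)) (l 256791968023))) (a (b (l 16725056) (l 235853984503)) (b (a (l 255181341703) (l 258402565943)) (l 253033871047))))) (l 3)))) (a (a (c (l 16535312) (l 16530280)) (c (a (b (l 16592408) (l 16585648)) (b (l 16642040) (l 16640760))) (c (a (l 16585936) (l 16640544)) (a (l 16584232) (l 16639648))))) (a (c (a (c (a (l 16689720)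 (l 16705560)) (a (l 16689560) (l 16705536))) (a (c (b (l 16713416) (l 16718768)) (l 16727544)) (c (b (l 16722656) (l 219211017527)) (b (l 16722592) (l 176261344631))))) (a (c (a (l 16689392) (l 16705504)) (a (l 16689232) (l 16705480))) (c (b (a (l 16713376) (l 16722520)) (a (l 16718656) (l 258939433687))) (a (b (l 16713352) (l 16718600)) (b (l 16722448) (l 267529368183)))))) (b (a (a (c (c (l 288467353783) (l 227264081063)) (c (l 219211017319) (l 220821630151))) (l 3)) (l 3)) (l 3))))), by decide +kernel⟩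

def k12_mm_202_a : ∃ t, chk3 f_mm_202_a t 3 21 1 = true :=
  ⟨(a (c (a (b (b (l 16538720) (l 16547640)) (a (l 16547856) (c (l 16585112) (l 16582824)))) (b (a (c (l 16604360) (l 16602624)) (c (l 16657080) (l 16656144))) (b (c (l 16602480) (l 16622128)) (a (l 16627960) (c (l 16672992) (l 16671992)))))) (a (c (b (l 16535968) (a (l 16543624) (l 16580536))) (b (l 16533272) (a (l 16540800) (l 16578248)))) (b (a (c (l 16600880) (l 16599136)) (c (l 16655216) (l 16654280))) (c (a (l 16621384) (b (l 16666336) (l 16670992))) (a (l 16619696) (b (l 16665384) (l 16669992))))))) (a (b (c (c (a (a (l 16701776) (b (l 16715928) (l 16720216))) (a (b (l 205789239511) (l 302962867399)) (l 306720974199))) (a (a (l 16701552) (b (l 16715888) (l 16720120))) (a (b (l 16723608) (l 263771304599)) (l 309942199239)))) (c (a (a (l 16701328) (l 210084151191)) (b (l 251960106615) (l 298667907127))) (a (a (l 16701112) (b (l 16715808) (l 16719928))) (a (b (l 16702432) (l 326585171175)) (l 311552811111))))) (a (a (c (c (b (l 16708304)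 (l 357723628887)) (b (l 16707992) (l 335711921047))) (c (b (l 16707688) (l 345375596023)) (b (l 16707376) (l 337859402487)))) (b (c (c (l 313163406535) (l 328195775351)) (c (l 326585162295) (l 361481771239))) (l 3))) (l 3))) (l 3))), by decide +kernel⟩

def k13_mm_202_a : ∃ t, chk3 f_mm_202_a t 12 11 1 = true :=
  ⟨(b (b (c (a (b (l 16569072) (l 16602632)) (c (l 16606968) (l 16604800))) (a (c (l 16584344) (l 16581912)) (c (l 16602640) (l 16600472)))) (c (c (a (l 16686480) (l 16626120)) (a (l 16685288) (l 16624696))) (c (a (l 16684104) (l 16623272)) (a (l 16682920) (b (l 16636800) (l 16689248)))))) (b (c (b (a (l 16752376) (c (l 16736456) (l 16735928))) (b (c (l 16766512) (l 16766368)) (c (l 16777072) (l 16777064)))) (b (a (l 16709792) (c (l 16735392) (l 16713888))) (c (b (l 16766232) (l 16777064)) (a (l 16772576) (b (l 16763680) (l 16777032)))))) (c (a (c (l 16777192) (l 16777192)) (c (c (l 189146333127) (l 188609462215)) (b (l 195588784071) (l 355576315847)))) (c (a (l 16777192) (b (l 199883751351) (l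 353428832199))) (a (l 16777192) (c (l 342154543047) (l 338396446663))))))), by decide +kernel⟩

def k14_mm_202_a : ∃ t, chk3 f_mm_202_a t 13 11 1 = true :=
  ⟨(a (c (c (b (b (l 16637664) (b (a (l 16640128) (l 16650440)) (b (l 211694640471) (l 16664680)))) (b (b (a (l 16724864) (l 365239813015)) (b (l 367924280023) (l 377051151975))) (l 403357826999))) (b (b (l 16635960) (b (a (l 16638352) (l 16648816)) (b (l 208473408743) (l 16663480)))) (b (b (a (l 16703208) (l 367924164775)) (b (l 369534905431) (l 375440539223))) (l 402820956087)))) (b (b (c (l 16634264) (b (l 16630160) (l 16634640))) (c (b (a (l 16636576) (l 16647192)) (a (l 16674936) (b (l 16656560) (l 16678496)))) (b (a (l 16634792) (l 16645568)) (a (l 16673632) (b (a (l 16653896) (l 16654056)) (l 338933079015)))))) (b (b (c (a (l 16681552) (l 366850467335)) (c (l 349670560631) (a (l 16701664) (l 365776744631)))) (b (c (l 366313679543) (l 365239916327)) (c (l 375977410135) (l 374366797399)))) (b (c (l 396915376055) (l 393694150583)) (l 3))))) (b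 (b (c (c (a (b (l 16664832) (l 16666952)) (b (l 306720850551) (l 376514071799))) (b (l 209010294023) (a (l 16665648) (l 352891749783)))) (a (c (b (l 16662360) (l 16664344)) (b (l 16661120) (l 16663040))) (b (c (l 16664504) (l 327658808823)) (c (l 363092293239) (l 367387295991))))) (a (c (b (c (l 337322459207) (l 345912386839)) (c (l 380272159863) (l 356112945303))) (b (c (l 347522996711) (c (l 346986124263) (l 343764897431))) (b (c (l 371682189799) (l 367387256807)) (l 3)))) (l 3))) (l 3))), by decide +kernel⟩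

def k15_mm_202_a : ∃ t, chk3 f_mm_202_a t 7 11 1 = true :=
  ⟨(b (a (a (a (b (b (c (c (l 362555490855) (l 353428705415)) (c (l 371145444583) (l 386714658183))) (l 3)) (l 3)) (l 3)) (l 3)) (l 3)) (l 3)), by decide +kernel⟩

def k16_mm_202_a : ∃ t, chk3 f_mm_202_a t 2 12 1 = true :=
  ⟨(a (b (c (l 16777216) (l 16777216)) (c (a (l 16777216) (b (l 16777216) (l 16777216))) (b (c (l 16777216) (l 16777216)) (c (l 16777216) (l 16777216))))) (b (c (a (b (c (l 16777208) (l 16777208)) (c (l 16777208) (l 16777208))) (c (b (l 16777200) (b (l 16777200) (l 16777200))) (b (l 16777200) (c (l 16777200) (l 16777200))))) (a (b (c (l 16777208) (l 16777208)) (c (l 16777208) (l 16777208))) (c (b (l 16777200) (c (l 16777200) (l 16777200))) (b (l 16777200) (a (l 16777208) (b (l 16777200) (l 16777200))))))) (a (c (b (c (l 16777208) (l 16777208)) (c (l 16777208) (l 16777208))) (c (b (l 16777208) (l 16777208)) (b (l 16777208) (l 16777208)))) (c (a (b (c (l 16777208) (l 16777208)) (c (b (l 16777208) (a (l 16777208) (l 364166250439)))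 (b (l 16777208) (a (l 16777208) (l 367387475911))))) (b (c (b (l 342691413991) (l 365776863207)) (c (l 358797541351) (l 359334412263))) (a (c (l 407115923431) (l 406042181607)) (l 3)))) (b (c (a (l 16777208) (c (l 358260670439) (l 356650057703))) (a (l 16777208) (c (l 353965703143) (l 350207606759)))) (a (c (b (l 16777208) (a (l 16777208) (l 365776863175))) (b (l 16777208) (a (l 16777208) (l 360408153447)))) (b (c (l 404431568871) (l 397452247015)) (l 3)))))))), by decide +kernel⟩

def k17_mm_202_a : ∃ t, chk3 f_mm_202_a t 2 13 1 = true :=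
  ⟨(a (b (c (a (c (l 16777216) (l 16777216)) (b (c (l 16777216) (l 16777216)) (c (l 16777216) (l 16777216)))) (a (c (l 16777216) (l 16777216)) (b (c (l 16777216) (l 16777216)) (c (l 16777216) (l 16777216))))) (b (a (c (l 112306683911) (l 154719485959)) (c (c (l 16777216) (l 16777216)) (c (l 16777216) (l 16777216)))) (l 2))) (b (b (a (c (c (c (l 16777208) (l 16777208)) (c (l 16777208) (l 16777208))) (c (c (l 16777208) (l 16777208)) (c (l 16777208) (l 16777208)))) (a (c (c (b (l 375440539639) (l 421611438071)) (b (l 377588023287) (l 418927083511))) (c (b (l 376514281463) (l 412484632567)) (b (l 371682443255) (l 402820956151)))) (l 3))) (a (c (c (a (l 16777216) (a (b (l 16777208) (l 350744477687)) (b (l 370608701431) (l 433959469047)))) (a (l 16777216) (a (b (l 16777208) (l 356113186807)) (b (l 373829926903) (l 428590759927))))) (c (a (l 16777216) (a (b (l 16777208) (l 354502574071)) (b (l 372219314167) (l 421074567159)))) (a (l 16777216) (a (b (l 16777208) (l 346986381303)) (b (l 366313734135) (l 410337148919))))))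 (l 3))) (a (b (b (c (c (a (l 16777216) (l 431811985399)) (a (l 16777216) (l 426443276279))) (a (c (l 16777216) (l 16777216)) (c (l 417853341687) (l 406579052535)))) (a (b (a (c (l 465567743959) (l 446240391127)) (c (c (l 358260670455) (l 363629379575)) (c (l 362018766839) (l 355039444983)))) (l 2)) (l 3))) (l 2)) (l 3)))), by decide +kernel⟩

def k18_mm_202_a : ∃ t, chk3 f_mm_202_a t 2 7 1 = true :=
  ⟨(l 2), by decide +kernel⟩

def k19_mm_202_a : ∃ t, chk3 f_mm_202_a t 3 3 1 = true :=
  ⟨(b (a (a (b (a (b (c (c (b (b (l 16777192) (l 190220074967)) (b (l 356113186775) (l 377588023255))) (b (b (l 16777192) (l 187535720407)) (b (l 358260670423) (l 378661765079)))) (c (c (b (l 188609462231) (l 366850605015)) (b (l 191830687703) (l 366850605015))) (c (b (l 328195899335) (l 379198635991)) (b (l 321753448247) (l 369534959575))))) (a (b (c (c (l 424832663527) (l 423758921703)) (c (l 422148308967) (l 418927083479))) (l 3)) (l 3))) (a (b (b (c (c (l 371682443223) (l 370608701399)) (b (c (l 360408154023) (l 358260669767))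 (c (l 411947761623) (l 403894697943)))) (l 3)) (l 3)) (l 3))) (l 3)) (l 3)) (l 3)) (l 3)), by decide +kernel⟩

theorem s20_mm_202_a : ∃ t, chk3 f_mm_202_a t 2 6 1 = true := ex3_b k16_mm_202_a k17_mm_202_a

theorem s21_mm_202_a : ∃ t, chk3 f_mm_202_a t 2 3 1 = true := ex3_b s20_mm_202_a k18_mm_202_a

theorem s22_mm_202_a : ∃ t, chk3 f_mm_202_a t 1 3 1 = true := ex3_a s21_mm_202_a k19_mm_202_a

theorem s23_mm_202_a : ∃ t, chk3 f_mm_202_a t 6 11 1 = true := ex3_a k13_mm_202_a k14_mm_202_a

theorem s24_mm_202_a : ∃ t, chk3 f_mm_202_a t 3 11 1 = true := ex3_a s23_mm_202_a k15_mm_202_a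

theorem s25_mm_202_a : ∃ t, chk3 f_mm_202_a t 3 10 1 = true := ex3_b k11_mm_202_a k12_mm_202_a

theorem s26_mm_202_a : ∃ t, chk3 f_mm_202_a t 3 5 1 = true := ex3_b s25_mm_202_a s24_mm_202_a

theorem s27_mm_202_a : ∃ t, chk3 f_mm_202_a t 1 5 1 = true := ex3_a k10_mm_202_a s26_mm_202_a

theorem s28_mm_202_a : ∃ t, chk3 f_mm_202_a t 1 19 1 = true := ex3_b k8_mm_202_a k9_mm_202_a

theorem s29_mm_202_a : ∃ t, chk3 f_mm_202_a t 1 18 1 = true := ex3_b k6_mm_202_a k7_mm_202_a

theorem s30_mm_202_a : ∃ t, chk3 f_mm_202_a t 1 9 1 = true := ex3_b s29_mm_202_a s28_mm_202_a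

theorem s31_mm_202_a : ∃ t, chk3 f_mm_202_a t 3 17 1 = true := ex3_a k4_mm_202_a k5_mm_202_a

theorem s32_mm_202_a : ∃ t, chk3 f_mm_202_a t 7 16 1 = true := ex3_b k2_mm_202_a k3_mm_202_a

theorem s33_mm_202_a : ∃ t, chk3 f_mm_202_a t 3 16 1 = true := ex3_a k1_mm_202_a s32_mm_202_a

theorem s34_mm_202_a : ∃ t, chk3 f_mm_202_a t 3 8 1 = true := ex3_b s33_mm_202_a s31_mm_202_a

theorem s35_mm_202_a : ∃ t, chk3 f_mm_202_a t 1 8 1 = true := ex3_a k0_mm_202_a s34_mm_202_a

theorem s36_mm_202_a : ∃ t, chk3 f_mm_202_a t 1 4 1 = true := ex3_b s35_mm_202_a s30_mm_202_a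

theorem s37_mm_202_a : ∃ t, chk3 f_mm_202_a t 1 2 1 = true := ex3_b s36_mm_202_a s27_mm_202_a

theorem s38_mm_202_a : ∃ t, chk3 f_mm_202_a t 1 1 1 = true := ex3_b s37_mm_202_a s22_mm_202_a

theorem c_mm_202_a : CertFX 0 420477299 1073741824 536870912 1046898278 26843546 false false false .pp 2 0 2
    ndF1q2a ndF7q2 pcF0 Cut.none Ext.none :=
  certFX1 (fam := false) (s1 := false) (s2 := false) (a := 2) (b := 0) (c := 2) (cn := .pp) (n1 := ndF1q2a) (n2 := ndF7q2) (pc := pcF0) (cut := Cut.none) (xt := Ext.none) (P1 := 0) (W1 := 420477299) (P2 := 1073741824) (W2 := 536870912) (P3 := 1046898278) (W3 := 26843546)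
    rfl (fun _ => rfl) s38_mm_202_a

noncomputable def f_mm_202_b : ℕ → ℕ → ℕ → ℕ → Bool := onCell 0 536870912 1073741824 536870912 1046898278 26843546
    (rowFX 2 false false false .pp 2 0 2 (qsf 1239849684 370763052 1073741824 536870912 0) ndF1q2b ndF7q2 pcF0 Cut.none Ext.none)

def k0_mm_202_b : ∃ t, chk3 f_mm_202_b t 4 2 1 = true :=
  ⟨(b (l 1) (a (a (b (a (a (c (b (l 16019120) (l 16325160)) (c (a (l 16037168) (b (l 1) (l 16311056))) (a (c (l 198137174695) (a (l 223906970087) (l 16067360))) (l 221222618519)))) (b (l 1) (c (c (l 16228608) (l 309806785239)) (c (l 16315472) (l 16298576))))) (b (l 1) (c (c (l 107943184103) (l 16234056)) (l 658236267415)))) (a (c (a (l 16062952) (c (b (l 16525240) (l 16127024)) (a (l 16348920) (l 16335280)))) (a (c (a (l 16310592) (l 16099480)) (a (c (l 16312496) (l 16145912)) (l 16304880))) (c (l 16195096) (l 16359592)))) (c (c (b (l 16417144) (l 16081504)) (b (l 16545952) (l 16185896))) (b (l 16541344) (l 16217880))))) (a (b (c (b (l 1) (l 680247960663)) (l 483752389495))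 (c (b (l 16532928) (l 16332480)) (l 16371528))) (b (l 1) (c (b (l 16313520) (l 16458912)) (l 16403176))))) (b (l 1) (a (c (b (l 16236608) (l 16589920)) (b (l 16312616) (l 16631408))) (b (l 1) (l 372621107559)))))), by decide +kernel⟩

def k1_mm_202_b : ∃ t, chk3 f_mm_202_b t 8 3 1 = true :=
  ⟨(a (b (c (a (b (a (l 15711600) (c (l 15707776) (l 15574368))) (a (l 15294992) (c (l 15361864) (l 15324992)))) (b (c (a (l 15748648) (l 15771920)) (l 15760904)) (c (l 15356592) (l 15367752)))) (a (b (a (c (a (l 15693904) (l 15715112)) (c (l 15529672) (l 15653488))) (c (l 15727712) (l 15738128))) (a (c (l 15275904) (l 15200384)) (l 15194936))) (b (l 15680504) (l 15385888)))) (b (c (b (a (l 15207040) (a (l 15238008) (l 15272880))) (a (a (l 15115720) (c (l 15126904) (l 15148624))) (a (c (l 15168736) (l 15162312)) (l 15218752)))) (a (a (b (l 15159464) (a (l 15084928) (c (l 15111944) (l 15088840)))) (c (l 15090728) (l 15159664))) (c (l 15252560) (l 15249424)))) (a (c (a (l 14857872) (c (l 14997064) (l 15046424))) (a (c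 (l 14997672) (a (l 14970496) (l 14987040))) (l 15015552))) (c (c (b (l 15119832) (l 15045768)) (l 15058344)) (l 15052168))))) (b (b (c (a (b (l 16037976) (l 15760608)) (c (l 15946400) (l 16035544))) (b (l 16111304) (l 15829008))) (c (a (l 15431536) (b (l 15674600) (c (a (l 15568624) (l 15649592)) (l 15605992)))) (a (l 15503696) (b (l 15656048) (l 15582992))))) (c (c (b (a (l 15360728) (b (l 15561048) (l 15489960))) (a (l 15214776) (b (l 15456840) (l 15398896)))) (b (a (l 15395464) (l 15560616)) (a (l 15222576) (l 15412440)))) (b (a (l 15386608) (l 15512928)) (c (l 15298936) (l 15274872)))))), by decide +kernel⟩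

def k2_mm_202_b : ∃ t, chk3 f_mm_202_b t 9 3 1 = true :=
  ⟨(b (b (a (a (c (l 16092336) (l 16140840)) (b (l 16406496) (c (l 16145384) (l 16130632)))) (a (b (l 16524336) (c (l 16079080) (l 16234872))) (b (c (l 16606352) (l 16604208)) (c (l 16358224) (l 16348352))))) (b (a (c (a (b (l 15836912) (l 15774272)) (l 15936160)) (a (l 15776304) (l 15914592))) (c (a (l 16061120) (l 16151664)) (a (l 16042832) (l 16135520)))) (a (c (a (l 15747840) (l 15877840)) (l 15793504)) (c (a (l 16000232) (l 16108344)) (l 16039312))))) (a (c (b (a (b (l 15699136) (l 15657096)) (b (l 15828528) (l 15783408))) (a (b (l 15603432) (l 15527448)) (l 15715464))) (b (b (l 15741208) (a (l 15616408) (l 15747280))) (c (l 15373944) (l 15398992)))) (c (b (a (b (l 15992904) (l 15960232)) (b (l 16083424) (l 16052096))) (a (l 15876264) (l 15996688))) (b (a (b (l 15953336) (l 15923128)) (l 16025792)) (l 15914888))))), by decide +kernel⟩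

def k3_mm_202_b : ∃ t, chk3 f_mm_202_b t 5 1 1 = true :=
  ⟨(b (l 1) (b (a (b (b (a (a (l 382285012759) (l 1)) (l 1)) (a (c (a (l 16442952) (l 16528792)) (l 16481432)) (a (c (l 16622520) (l 16619624)) (l 1)))) (a (c (b (a (l 16236584) (l 16325336)) (a (l 16199312) (l 16307568))) (b (l 16278624) (c (l 16235736) (l 16227800)))) (c (b (b (l 244845653159) (l 16460448)) (l 16456264)) (b (b (l 16475000) (l 16452112)) (a (l 16388368) (l 16490592)))))) (b (l 1) (a (c (b (l 294238390679) (l 16659112)) (b (l 250752082455) (l 16656048))) (b (l 1) (c (l 16776600) (l 16776592)))))) (a (b (a (b (c (l 16230848) (l 16037848)) (l 16187888)) (c (l 16378272) (l 16369000))) (a (b (l 16159048) (l 16128536)) (b (l 16395008) (l 16376064)))) (b (a (c (l 16652344) (l 16649104)) (c (l 330745970327) (l 305513037463))) (a (c (l 16643576) (l 16640104)) (c (l 16777024) (l 16777016))))))), by decide +kernel⟩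

def k4_mm_202_b : ∃ t, chk3 f_mm_202_b t 3 1 1 = true :=
  ⟨(b (l 1) (b (l 1) (a (b (a (b (b (l 1) (l 555157956567)) (c (l 474090535303) (l 466037471591))) (l 1)) (a (c (l 16777216) (l 16777216)) (b (a (c (l 471943052103) (l 489659792151)) (l 1)) (c (l 394096769415) (l 414497864039))))) (l 1)))), by decide +kernel⟩

theorem s5_mm_202_b : ∃ t, chk3 f_mm_202_b t 4 3 1 = true := ex3_a k1_mm_202_b k2_mm_202_b

theorem s6_mm_202_b : ∃ t, chk3 f_mm_202_b t 4 1 1 = true := ex3_b k0_mm_202_b s5_mm_202_b

theorem s7_mm_202_b : ∃ t, chk3 f_mm_202_b t 2 1 1 = true := ex3_a s6_mm_202_b k3_mm_202_b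

theorem s8_mm_202_b : ∃ t, chk3 f_mm_202_b t 1 1 1 = true := ex3_a s7_mm_202_b k4_mm_202_b

theorem c_mm_202_b : CertFX 1239849684 370763052 1073741824 536870912 1046898278 26843546 false false false .pp 2 0 2
    ndF1q2b ndF7q2 pcF0 Cut.none Ext.none :=
  certFX2 (fam := false) (s1 := false) (s2 := false) (a := 2) (b := 0) (c := 2) (cn := .pp) (n1 := ndF1q2b) (n2 := ndF7q2) (pc := pcF0) (cut := Cut.none) (xt := Ext.none) (P1 := 1239849684) (W1 := 370763052) (P2 := 1073741824) (W2 := 536870912) (P3 := 1046898278) (W3 := 26843546)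
    rfl (fun _ => rfl) s8_mm_202_b

noncomputable def f_mm_203_a : ℕ → ℕ → ℕ → ℕ → Bool := onCell 0 420477299 0 1230186008 1046898278 26843546
    (rowFX 0 false false false .up 2 0 3 (qsf 0 420477299 0 1230186008 0) ndF1q2a ndF7q3 pcF0 Cut.none Ext.none)

def k0_mm_203_a : ∃ t, chk3 f_mm_203_a t 1 2 1 = true :=
  ⟨(l 2), by decide +kernel⟩

def k1_mm_203_a : ∃ t, chk3 f_mm_203_a t 1 6 1 = true :=
  ⟨(l 2), by decide +kernel⟩

def k2_mm_203_a : ∃ t, chk3 f_mm_203_a t 2 14 1 = true :=
  ⟨(l 3), by decide +kernel⟩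

def k3_mm_203_a : ∃ t, chk3 f_mm_203_a t 4 60 1 = true :=
  ⟨(a (b (b (l 3) (a (a (a (c (b (c (b (l 460266143751) (l 404968439815)) (c (l 436643823623) (l 435033210887))) (c (c (l 360945025031) (l 363629379591)) (c (l 364703121415) (l 364166250503)))) (c (b (c (l 410337148935) (l 406579052551)) (c (l 362555637767) (l 162302787591))) (b (c (l 401747214343) (l 396378505223)) (c (l 166060883975) (l 170892722183))))) (b (l 3) (b (l 3) (c (c (l 466171723783) (l 462413627399)) (c (l 456508047367) (l 447918112775)))))) (l 3)) (l 3))) (a (c (a (c (b (b (a (l 16777216) (b (l 411947761671) (l 379198636039))) (c (l 16777216) (l 16777216))) (l 16777216)) (b (b (a (l 16777216) (b (l 410874019847) (l 380809248775))) (c (l 16777216) (l 16777216))) (l 16777216))) (c (c (b (l 461339885575) (a (l 356650057735) (l 432348856327))) (b (l 461339885575) (a (b (l 374366797831) (l 16777216)) (l 433959469063)))) (b (c (l 460266143751) (l 459192401927)) (a (b (c (l 375440539655) (l 374903668743)) (l 16777216)) (c (l 434496339975)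 (l 433959469063)))))) (a (b (b (c (a (l 16777216) (b (l 405505310727) (l 376514281479))) (a (l 16777216) (c (l 382956732423) (l 377051152391)))) (c (c (l 16777216) (l 16777216)) (b (l 187535720455) (l 16777216)))) (c (l 16777216) (l 16777216))) (b (c (c (l 457044918279) (l 454360563719)) (c (l 451139338247) (l 421611438087))) (c (b (c (l 402284085255) (l 397989117959)) (a (l 16777216) (l 399062859783))) (a (c (l 167134625799) (l 170892722183)) (c (l 405505310727) (l 399599730695))))))) (l 3))) (l 3)), by decide +kernel⟩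

def k4_mm_203_a : ∃ t, chk3 f_mm_203_a t 4 61 1 = true :=
  ⟨(b (a (c (b (a (c (c (l 193441300487) (l 187535720455)) (c (l 183240753159) (l 181093269511))) (c (c (l 452213080071) (l 452213080071)) (c (l 452213080071) (l 434496339975)))) (a (c (l 16777216) (l 16777216)) (a (a (c (b (l 16777216) (l 16777216)) (b (l 16777216) (l 16777216))) (b (c (l 424295792647) (l 425369534471)) (c (l 359871283207) (l 363092508679)))) (b (l 3) (c (l 461339885575) (l 459192401927)))))) (a (c (b (c (l 180556398599) (l 181630140423)) (l 16777216)) (b (c (l 16777216) (l 16777216)) (l 16777216))) (a (b (c (c (l 415705858055) (l 411947761671)) (c (l 406579052551) (l 400673472519))) (c (a (b (l 16777216) (l 16777216)) (b (l 422685179911) (l 359871283207))) (a (c (l 16777216) (l 16777216)) (b (l 395304763399) (l 171429593095))))) (b (l 3) (b (l 3) (c (l 454897434631) (l 448454983687))))))) (l 3)) (a (c (c (a (l 16777216) (c (a (l 16777216) (b (l 394767892487) (l 183240753159))) (a (l 16777216) (b (l 396378505223) (l 178408914951)))))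 (a (l 16777216) (b (a (l 16777216) (c (l 396378505223) (l 395304763399))) (c (l 178945785863) (l 177335173127))))) (a (c (l 16777216) (l 16777216)) (b (c (a (l 16777216) (c (l 393157279751) (l 389399183367))) (a (l 16777216) (a (b (l 374903668743) (l 16777216)) (b (l 3) (l 418927083527))))) (c (c (l 177335173127) (l 179482656775)) (c (l 16777216) (l 16777216)))))) (b (l 3) (c (c (c (l 471540432903) (l 471003561991)) (c (l 469392949255) (l 467245465607))) (c (c (l 464561111047) (l 461339885575)) (c (l 437180694535) (l 432348856327))))))), by decide +kernel⟩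

def k5_mm_203_a : ∃ t, chk3 f_mm_203_a t 5 30 1 = true :=
  ⟨(l 3), by decide +kernel⟩

def k6_mm_203_a : ∃ t, chk3 f_mm_203_a t 4 62 1 = true :=
  ⟨(b (b (a (c (c (l 16777216) (l 16777216)) (c (l 16777216) (l 16777216))) (a (c (c (a (b (l 382956732423) (l 350207606791)) (l 466171723783)) (a (c (l 373293056007) (l 372756185095)) (l 462413627399))) (c (a (c (l 371145572359) (a (l 16777216) (l 386714828807))) (l 457044918279)) (a (a (l 190756945911) (b (l 420000825351) (l 358260670423))) (l 449528725511)))) (l 3))) (a (c (c (l 16777216) (l 16777216)) (c (l 16777216) (l 16777216))) (a (c (c (a (l 16777216) (b (l 416242728967) (l 383493603335))) (a (l 16777216) (b (l 415168987143) (l 385104216071)))) (a (c (l 16777216) (l 16777216)) (b (c (l 409800278023) (l 401210343431)) (c (l 381346119687) (l 372756185095))))) (l 3)))) (a (c (c (l 16777216) (l 16777216)) (c (l 16777216) (l 16777216))) (c (b (a (c (c (l 186461978615) (l 181093269495)) (c (l 177872044023) (l 176261431287))) (b (c (l 469929820167) (l 465097981959))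 (c (l 432885727239) (l 445770629127)))) (c (a (l 16777216) (c (l 400136601607) (l 401210343431))) (a (l 16777216) (c (l 401747214343) (l 400673472519))))) (a (c (b (c (l 176798302167) (l 179482656727)) (l 16777216)) (a (l 16777216) (c (l 183240753111) (l 189683204023)))) (a (b (a (c (l 418927083527) (l 410874019847)) (l 3)) (c (a (l 342154543063) (l 401747214343)) (a (l 191293816791) (l 380809248775)))) (b (l 3) (c (l 452213080071) (l 444160016391)))))))), by decide +kernel⟩

def k7_mm_203_a : ∃ t, chk3 f_mm_203_a t 4 63 1 = true :=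
  ⟨(b (a (c (c (l 16777216) (l 16777216)) (c (l 16777216) (l 16777216))) (a (c (c (l 16777216) (l 16777216)) (c (l 16777216) (l 16777216))) (b (c (c (a (l 16777216) (b (l 413558374407) (l 380809248775))) (a (l 16777216) (b (l 412484632583) (l 383493603335)))) (a (c (l 16777216) (l 16777216)) (c (a (l 372756185047) (l 431811985415)) (a (l 364703121335) (l 422685179911))))) (c (c (c (l 182167011287) (l 177872043991)) (c (l 175187689431) (l 174650818519))) (c (c (l 16777216) (l 16777216)) (b (l 189146333111) (l 16777216))))))) (b (a (c (l 16777216) (l 16777216)) (c (c (l 16777216) (l 16777216)) (c (l 16777216) (l 16777216)))) (a (c (l 16777216) (l 16777216)) (c (c (l 16777216) (l 16777216)) (c (l 16777216) (l 16777216)))))), by decide +kernel⟩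

def k8_mm_203_a : ∃ t, chk3 f_mm_203_a t 5 31 1 = true :=
  ⟨(b (l 3) (a (a (b (b (l 3) (a (c (c (l 435033210887) (l 431811985415)) (c (l 425906405383) (l 416242728967))) (l 3))) (c (c (b (b (l 407652794375) (l 388325441543)) (a (l 16777216) (l 388862312439))) (b (b (l 407115923463) (l 389936054279)) (a (l 16777216) (l 390472925175)))) (c (b (c (l 395304763399) (l 392620408839)) (a (l 16777216) (l 387788570615))) (b (c (l 389399183367) (l 385104216071)) (a (l 16777216) (l 380809248759)))))) (l 3)) (l 3))), by decide +kernel⟩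

def k9_mm_203_a : ∃ t, chk3 f_mm_203_a t 3 7 1 = true :=
  ⟨(l 3), by decide +kernel⟩

theorem s10_mm_203_a : ∃ t, chk3 f_mm_203_a t 4 31 1 = true := ex3_b k6_mm_203_a k7_mm_203_a

theorem s11_mm_203_a : ∃ t, chk3 f_mm_203_a t 2 31 1 = true := ex3_a s10_mm_203_a k8_mm_203_a

theorem s12_mm_203_a : ∃ t, chk3 f_mm_203_a t 4 30 1 = true := ex3_b k3_mm_203_a k4_mm_203_a

theorem s13_mm_203_a : ∃ t, chk3 f_mm_203_a t 2 30 1 = true := ex3_a s12_mm_203_a k5_mm_203_a

theorem s14_mm_203_a : ∃ t, chk3 f_mm_203_a t 2 15 1 = true := ex3_b s13_mm_203_a s11_mm_203_a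

theorem s15_mm_203_a : ∃ t, chk3 f_mm_203_a t 2 7 1 = true := ex3_b k2_mm_203_a s14_mm_203_a

theorem s16_mm_203_a : ∃ t, chk3 f_mm_203_a t 1 7 1 = true := ex3_a s15_mm_203_a k9_mm_203_a

theorem s17_mm_203_a : ∃ t, chk3 f_mm_203_a t 1 3 1 = true := ex3_b k1_mm_203_a s16_mm_203_a

theorem s18_mm_203_a : ∃ t, chk3 f_mm_203_a t 1 1 1 = true := ex3_b k0_mm_203_a s17_mm_203_a

theorem c_mm_203_a : CertFX 0 420477299 0 1230186008 1046898278 26843546 false false false .up 2 0 3
    ndF1q2a ndF7q3 pcF0 Cut.none Ext.none :=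
  certFX0 (fam := false) (s1 := false) (s2 := false) (a := 2) (b := 0) (c := 3) (cn := .up) (n1 := ndF1q2a) (n2 := ndF7q3) (pc := pcF0) (cut := Cut.none) (xt := Ext.none) (P1 := 0) (W1 := 420477299) (P2 := 0) (W2 := 1230186008) (P3 := 1046898278) (W3 := 26843546)
    rfl s18_mm_203_a

noncomputable def f_mm_203_b : ℕ → ℕ → ℕ → ℕ → Bool := onCell 1239849684 370763052 0 1230186008 1046898278 26843546
    (rowFX 0 false false false .up 2 0 3 (qsf 1239849684 370763052 0 1230186008 0) ndF1q2b ndF7q3 pcF0 Cut.none Ext.none)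

def k0_mm_203_b : ∃ t, chk3 f_mm_203_b t 1 2 1 = true :=
  ⟨(l 3), by decide +kernel⟩

def k1_mm_203_b : ∃ t, chk3 f_mm_203_b t 1 6 1 = true :=
  ⟨(l 3), by decide +kernel⟩

def k2_mm_203_b : ∃ t, chk3 f_mm_203_b t 1 14 1 = true :=
  ⟨(a (b (l 3) (l 3)) (l 3)), by decide +kernel⟩

def k3_mm_203_b : ∃ t, chk3 f_mm_203_b t 2 30 1 = true :=
  ⟨(a (b (b (a (a (b (l 3) (a (b (c (c (c (l 429127630855) (l 429127630855)) (c (l 428053889031) (l 426443276295))) (c (c (l 423222050823) (l 16777216)) (c (l 16777216) (l 16777216)))) (c (c (l 16777216) (l 16777216)) (c (l 16777216) (l 16777216)))) (c (c (l 16777216) (l 440938790919)) (c (l 437717565447) (l 431275114183))))) (l 3)) (l 3)) (c (a (c (a (c (l 16777216) (l 16777216)) (l 16777216)) (a (c (l 16777216) (l 16777216)) (l 16777216))) (c (l 16777216) (l 16777216))) (a (c (a (c (l 16777216) (l 16777216)) (l 16777216)) (a (c (l 16777216) (l 16777216)) (l 16777216))) (c (l 16777216) (l 16777216))))) (c (a (c (b (a (l 16777216) (l 16777216)) (l 16777216)) (b (a (l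 16777216) (l 16777216)) (l 16777216))) (c (b (l 16777216) (l 16777216)) (b (l 16777216) (l 16777216)))) (a (c (b (a (l 16777216) (l 16777216)) (l 16777216)) (b (a (l 16777216) (l 16777216)) (l 16777216))) (c (b (l 16777216) (l 16777216)) (b (l 16777216) (l 16777216)))))) (b (l 3) (c (c (l 178408914951) (l 160692174855)) (a (b (l 16777216) (l 16777216)) (l 349133864919))))), by decide +kernel⟩

def k4_mm_203_b : ∃ t, chk3 f_mm_203_b t 2 31 1 = true :=
  ⟨(b (a (c (a (c (b (l 16777216) (l 16777216)) (b (l 16777216) (l 16777216))) (c (l 16777216) (l 16777216))) (a (c (b (l 16777216) (l 16777216)) (b (l 16777216) (l 16777216))) (c (l 16777216) (l 16777216)))) (c (a (c (l 16777216) (l 16777216)) (b (l 16775800) (l 16758544))) (a (c (l 16777216) (l 16777216)) (b (l 16775760) (a (l 16777152) (l 16746672)))))) (a (c (a (b (c (l 16777216) (l 16777216)) (l 16777216)) (c (l 16777216) (l 16777216))) (a (b (c (l 16777216) (l 16777216)) (l 16777216)) (c (b (l 16777216) (l 16777216)) (b (l 16777216) (l 16777216)))))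 (b (a (c (l 16777216) (l 16777216)) (a (c (l 16768472) (l 16768240)) (c (l 16679008) (l 16676456)))) (a (b (c (l 16777200) (l 16777200)) (l 16775832)) (l 16623240))))), by decide +kernel⟩

def k5_mm_203_b : ∃ t, chk3 f_mm_203_b t 3 15 1 = true :=
  ⟨(a (b (b (l 3) (b (l 3) (a (c (l 16716216) (l 16693664)) (l 3)))) (a (b (b (c (l 16643008) (l 16618552)) (c (l 16542264) (l 16515184))) (b (c (l 16389192) (l 16253832)) (l 16264240))) (b (b (c (l 16315064) (l 16303064)) (c (l 16183232) (l 16167808))) (b (c (l 16055080) (l 15910496)) (c (l 15945784) (l 15924168)))))) (b (l 3) (b (c (a (b (l 15949280) (a (l 15931456) (l 15741072))) (a (b (l 15634304) (b (l 15545088) (l 15446056))) (b (b (l 15422384) (l 15358720)) (c (l 15269536) (l 15261632))))) (a (b (l 15927776) (a (l 15909488) (l 15714080))) (b (a (l 15604592) (l 15386112)) (a (l 15462896) (l 15236120))))) (a (c (a (b (l 15795128) (l 15683944)) (b (l 15600120) (c (l 15380672) (l 15432672)))) (a (b (l 15769568) (l 15655456)) (b (l 15567824) (b (l 15443712)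 (l 15346248))))) (a (c (b (b (l 15387904) (l 15322424)) (a (l 15237104) (b (l 15205840) (l 15089088)))) (b (l 15345968) (b (l 15202960) (l 15151856)))) (a (c (b (l 15193784) (b (l 15069560) (l 14826976))) (b (l 15189968) (l 15025360))) (b (c (c (l 15064552) (l 15068224)) (l 15051952)) (b (c (l 14781032) (l 14949752)) (c (c (l 14942128) (l 14933152)) (c (l 14936696) (l 14925936))))))))))), by decide +kernel⟩

theorem s6_mm_203_b : ∃ t, chk3 f_mm_203_b t 2 15 1 = true := ex3_b k3_mm_203_b k4_mm_203_b

theorem s7_mm_203_b : ∃ t, chk3 f_mm_203_b t 1 15 1 = true := ex3_a s6_mm_203_b k5_mm_203_b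

theorem s8_mm_203_b : ∃ t, chk3 f_mm_203_b t 1 7 1 = true := ex3_b k2_mm_203_b s7_mm_203_b

theorem s9_mm_203_b : ∃ t, chk3 f_mm_203_b t 1 3 1 = true := ex3_b k1_mm_203_b s8_mm_203_b

theorem s10_mm_203_b : ∃ t, chk3 f_mm_203_b t 1 1 1 = true := ex3_b k0_mm_203_b s9_mm_203_b

theorem c_mm_203_b : CertFX 1239849684 370763052 0 1230186008 1046898278 26843546 false false false .up 2 0 3
    ndF1q2b ndF7q3 pcF0 Cut.none Ext.none :=
  certFX0 (fam := false) (s1 := false) (s2 := false) (a := 2) (b := 0) (c := 3) (cn := .up) (n1 := ndF1q2b) (n2 := ndF7q3) (pc := pcF0) (cut := Cut.none) (xt := Ext.none) (P1 := 1239849684) (W1 := 370763052) (P2 := 0) (W2 := 1230186008) (P3 := 1046898278) (W3 := 26843546)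
    rfl s10_mm_203_b

noncomputable def f_mm_213_a : ℕ → ℕ → ℕ → ℕ → Bool := onCell 0 420477299 0 1230186008 1046898278 26843546
    (rowFX 0 false false false .pnn 2 1 3 (qsf 0 420477299 0 1230186008 1) ndF1q2a ndF7q3 pcF1 Cut.none Ext.none)

def k0_mm_213_a : ∃ t, chk3 f_mm_213_a t 1 1 1 = true :=
  ⟨(b (l 3) (b (l 3) (a (b (l 3) (b (l 1) (l 1))) (l 3)))), by decide +kernel⟩

theorem c_mm_213_a : CertFX 0 420477299 0 1230186008 1046898278 26843546 false false false .pnn 2 1 3
    ndF1q2a ndF7q3 pcF1 Cut.none Ext.none :=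
  certFX0 (fam := false) (s1 := false) (s2 := false) (a := 2) (b := 1) (c := 3) (cn := .pnn) (n1 := ndF1q2a) (n2 := ndF7q3) (pc := pcF1) (cut := Cut.none) (xt := Ext.none) (P1 := 0) (W1 := 420477299) (P2 := 0) (W2 := 1230186008) (P3 := 1046898278) (W3 := 26843546)
    rfl k0_mm_213_a

noncomputable def f_mm_213_b : ℕ → ℕ → ℕ → ℕ → Bool := onCell 1239849684 370763052 0 1230186008 1046898278 26843546
    (rowFX 0 false false false .pnn 2 1 3 (qsf 1239849684 370763052 0 1230186008 1) ndF1q2b ndF7q3 pcF1 Cut.none Ext.none)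

def k0_mm_213_b : ∃ t, chk3 f_mm_213_b t 1 1 1 = true :=
  ⟨(b (l 3) (b (l 3) (a (b (b (l 3) (l 3)) (l 1)) (l 1)))), by decide +kernel⟩

theorem c_mm_213_b : CertFX 1239849684 370763052 0 1230186008 1046898278 26843546 false false false .pnn 2 1 3
    ndF1q2b ndF7q3 pcF1 Cut.none Ext.none :=
  certFX0 (fam := false) (s1 := false) (s2 := false) (a := 2) (b := 1) (c := 3) (cn := .pnn) (n1 := ndF1q2b) (n2 := ndF7q3) (pc := pcF1) (cut := Cut.none) (xt := Ext.none) (P1 := 1239849684) (W1 := 370763052) (P2 := 0) (W2 := 1230186008) (P3 := 1046898278) (W3 := 26843546)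
    rfl k0_mm_213_b

noncomputable def f_mm_303 : ℕ → ℕ → ℕ → ℕ → Bool := onCell 0 536870912 0 1230186008 1046898278 26843546
    (rowFX 2 false false false .npn 3 0 3 (qsf 1610612736 469762048 0 1230186008 0) ndF1q3 ndF7q3 pcF0 Cut.none Ext.none)

def k0_mm_303 : ∃ t, chk3 f_mm_303 t 1 1 1 = true :=
  ⟨(b (l 3) (b (l 3) (a (b (l 3) (b (b (l 3) (a (a (a (a (a (a (c (l 14771824) (l 1920550415431)) (l 3)) (l 3)) (l 3)) (l 3)) (l 3)) (l 1))) (a (b (a (a (c (a (a (l 14667416) (c (l 14847072) (l 14829688))) (l 14948296)) (a (a (a (l 14736328) (l 14554448)) (l 14819432)) (l 14941096))) (c (a (l 15113496) (l 15264416)) (l 15177464))) (a (c (l 392483126663) (l 15475320)) (l 1))) (a (a (c (a (a (l 14875856) (l 14942624)) (c (l 14765152) (l 15001232))) (a (a (l 14605376) (l 14892304)) (l 14999640))) (c (l 329131851799) (a (l 15142624) (l 1)))) (l 1))) (l 1)))) (l 1)))), by decide +kernel⟩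

theorem c_mm_303 : CertFX 1610612736 469762048 0 1230186008 1046898278 26843546 false false false .npn 3 0 3
    ndF1q3 ndF7q3 pcF0 Cut.none Ext.none :=
  certFX2 (fam := false) (s1 := false) (s2 := false) (a := 3) (b := 0) (c := 3) (cn := .npn) (n1 := ndF1q3) (n2 := ndF7q3) (pc := pcF0) (cut := Cut.none) (xt := Ext.none) (P1 := 1610612736) (W1 := 469762048) (P2 := 0) (W2 := 1230186008) (P3 := 1046898278) (W3 := 26843546)
    rfl (fun _ => rfl) k0_mm_303

noncomputable def f_mm_313 : ℕ → ℕ → ℕ → ℕ → Bool := onCell 1610612736 469762048 0 1230186008 1046898278 26843546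
    (rowFX 0 false false false .dn 3 1 3 (qsf 1610612736 469762048 0 1230186008 1) ndF1q3 ndF7q3 pcF1 Cut.none Ext.none)

def k0_mm_313 : ∃ t, chk3 f_mm_313 t 1 1 1 = true :=
  ⟨(b (l 3) (l 1)), by decide +kernel⟩

theorem c_mm_313 : CertFX 1610612736 469762048 0 1230186008 1046898278 26843546 false false false .dn 3 1 3
    ndF1q3 ndF7q3 pcF1 Cut.none Ext.none :=
  certFX0 (fam := false) (s1 := false) (s2 := false) (a := 3) (b := 1) (c := 3) (cn := .dn) (n1 := ndF1q3) (n2 := ndF7q3) (pc := pcF1) (cut := Cut.none) (xt := Ext.none) (P1 := 1610612736) (W1 := 469762048) (P2 := 0) (W2 := 1230186008) (P3 := 1046898278) (W3 := 26843546)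
    rfl k0_mm_313

end Pool.Agent.Strip051.G.IE1.Tab.C.FB17

namespace Pool.Agent.Strip051.G.IE1.Tab.C.FB20

open Pool.Agent.Strip051.PB Pool.Agent.Strip051.PB.T
open Pool.Agent.Strip051.G.IE1.Tab

noncomputable def f_pp_001 : ℕ → ℕ → ℕ → ℕ → Bool := onCell 67108864 469762048 0 536870912 1046898278 26843546
    (rowFX 1 false true true .up 0 0 1 (qsf 67108864 469762048 536870912 536870912 0) ndF2q0 ndF0q1 pcF0 Cut.none Ext.none)

def k0_pp_001 : ∃ t, chk3 f_pp_001 t 1 1 1 = true :=
  ⟨(l 3), by decide +kernel⟩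

theorem c_pp_001 : CertFX 67108864 469762048 536870912 536870912 1046898278 26843546 false true true .up 0 0 1
    ndF2q0 ndF0q1 pcF0 Cut.none Ext.none :=
  certFX1 (fam := false) (s1 := true) (s2 := true) (a := 0) (b := 0) (c := 1) (cn := .up) (n1 := ndF2q0) (n2 := ndF0q1) (pc := pcF0) (cut := Cut.none) (xt := Ext.none) (P1 := 67108864) (W1 := 469762048) (P2 := 536870912) (W2 := 536870912) (P3 := 1046898278) (W3 := 26843546)
    rfl (fun _ => rfl) k0_pp_001

noncomputable def f_pp_011 : ℕ → ℕ → ℕ → ℕ → Bool := onCell 67108864 469762048 536870912 536870912 1046898278 26843546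
    (rowFX 0 false true true .pnn 0 1 1 (qsf 67108864 469762048 536870912 536870912 1) ndF2q0 ndF0q1 pcF1 Cut.none Ext.none)

def k0_pp_011 : ∃ t, chk3 f_pp_011 t 1 1 1 = true :=
  ⟨(b (l 3) (a (b (l 3) (a (l 3) (l 3))) (l 3))), by decide +kernel⟩

theorem c_pp_011 : CertFX 67108864 469762048 536870912 536870912 1046898278 26843546 false true true .pnn 0 1 1
    ndF2q0 ndF0q1 pcF1 Cut.none Ext.none :=
  certFX0 (fam := false) (s1 := true) (s2 := true) (a := 0) (b := 1) (c := 1) (cn := .pnn) (n1 := ndF2q0) (n2 := ndF0q1) (pc := pcF1) (cut := Cut.none) (xt := Ext.none) (P1 := 67108864) (W1 := 469762048) (P2 := 536870912) (W2 := 536870912) (P3 := 1046898278) (W3 := 26843546)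
    rfl k0_pp_011

noncomputable def f_pp_012 : ℕ → ℕ → ℕ → ℕ → Bool := onCell 536870912 536870912 0 536870912 1046898278 26843546
    (rowFX 2 false true true .pnp 0 1 2 (qsf 67108864 469762048 0 536870912 1) ndF2q0 ndF0q2 pcF1 Cut.none Ext.none)

def k0_pp_012 : ∃ t, chk3 f_pp_012 t 2 2 1 = true :=
  ⟨(a (a (l 2) (a (l 2) (b (l 2) (b (l 2) (b (l 2) (c (l 16777216) (l 116064780295))))))) (b (b (c (l 16777216) (l 16777216)) (c (l 16777216) (l 16777216))) (b (c (l 16777216) (l 16777216)) (a (b (l 16777216) (a (c (l 16777216) (l 16777216)) (c (l 16777216) (l 16777216)))) (c (l 16777216) (l 16777216)))))), by decide +kernel⟩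

def k1_pp_012 : ∃ t, chk3 f_pp_012 t 4 6 1 = true :=
  ⟨(a (l 2) (a (b (l 2) (b (a (l 2) (b (b (l 2) (c (l 119822781879) (l 150961294839))) (c (c (l 142438335895) (b (l 16713712) (l 184314264151))) (b (c (l 16712896) (l 16691104)) (a (b (l 2) (l 3)) (c (l 180019294183) (l 198809776055))))))) (l 3))) (b (c (b (l 94589943815) (c (l 16777216) (l 16777216))) (b (c (l 16777216) (l 16777216)) (c (l 16777216) (l 16777216)))) (b (c (b (c (l 16760448) (l 16739264)) (c (l 16656032) (a (l 16675968) (l 16696944)))) (b (c (l 16739040) (b (l 16773752) (l 16745704))) (c (c (l 16675192) (l 16674672)) (a (b (l 16712072) (l 16677480)) (l 16694872))))) (b (c (a (c (l 280950963671) (l 291688378039)) (c (l 148343773031) (l 161228671063))) (a (b (c (l 284172179351) (l 305647015703)) (l 3)) (c (l 174650439351) (b (l 16641888) (l 305110070935))))) (l 3)))))), by decide +kernel⟩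

def k2_pp_012 : ∃ t, chk3 f_pp_012 t 5 6 1 = true :=
  ⟨(b (b (a (c (a (l 16777216) (c (l 16777216) (l 16777216))) (a (l 16777216) (c (l 16777216) (l 16777216)))) (c (c (l 16777216) (l 16777216)) (c (l 16777216) (l 16777216)))) (a (c (c (a (l 16777216) (l 16777216)) (a (l 16777216) (l 16777216))) (c (a (l 16777216) (l 16777216)) (a (l 16777216) (l 16777216)))) (c (c (l 16777216) (l 16777216)) (c (l 16777216) (l 16777216))))) (a (b (c (c (a (b (l 16760448) (l 16697976)) (b (l 16760448) (l 16697976))) (a (b (l 16760232) (l 16696944)) (b (l 16760232) (l 16696944)))) (c (b (a (l 16760016) (l 16760016)) (a (l 16695904) (l 16695904))) (b (a (l 16759792) (l 16759792)) (a (l 16694872) (l 16694872))))) (c (c (a (b (l 16629480) (l 273971414967)) (b (l 16629480) (l 16557016))) (a (b (l 105930966471) (a (l 306183745847) (l 163912872903))) (b (l 16627544) (l 101098975543)))) (c (c (a (b (l 16626096) (l 272897744983)) (l 101098973367)) (a (b (l 16625136) (l 274508354839)) (l 105930809175))) (a (b (a (l 16602712) (l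 16623688)) (a (l 316384281655) (l 182166478295))) (b (l 16623688) (a (l 16548376) (l 16548376))))))) (c (b (c (b (l 16760448) (l 16697976)) (b (l 16760232) (l 16696944))) (c (l 16551680) (a (l 16591224) (l 16591224)))) (b (c (b (l 16760016) (l 16695904)) (b (l 16759792) (l 16694872))) (a (c (l 16588824) (l 16586424)) (c (l 16588824) (l 16586424))))))), by decide +kernel⟩

def k3_pp_012 : ∃ t, chk3 f_pp_012 t 2 7 1 = true :=
  ⟨(a (l 3) (b (a (a (l 3) (a (l 3) (b (b (b (c (l 257865203335) (l 248738383335)) (l 3)) (l 3)) (l 3)))) (b (c (a (b (c (l 16480376) (l 16476496)) (l 289540334071)) (b (l 16478440) (c (l 16399336) (l 16394400)))) (a (b (c (l 16472616) (l 16468736)) (l 282024140551)) (b (l 16470672) (c (l 16389456) (l 16384520))))) (l 3))) (l 3))), by decide +kernel⟩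

def k4_pp_012 : ∃ t, chk3 f_pp_012 t 6 2 1 = true :=
  ⟨(b (c (b (a (l 16774072) (a (l 16758536) (l 16758760))) (a (l 16773744) (a (l 16756808) (l 16758704)))) (b (a (l 16773992) (a (l 16758056) (l 16758280))) (a (l 16773648) (a (l 16756280) (a (l 16745672) (l 16770816)))))) (b (c (a (l 16773408) (a (l 16755040) (l 16758648))) (a (l 16773304) (a (l 16754464) (a (l 16743104) (l 16773216))))) (c (a (l 16773064) (a (l 16753232) (a (l 16741392) (l 16775728)))) (a (l 16751984) (a (l 16752608) (a (l 16740464) (l 16775688))))))), by decide +kernel⟩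

def k5_pp_012 : ∃ t, chk3 f_pp_012 t 6 6 1 = true :=
  ⟨(a (b (c (a (b (l 16777200) (c (l 16777208) (l 16777208))) (b (l 16768368) (c (l 16768744) (l 16768632)))) (b (a (l 16777200) (l 16768136)) (a (c (l 16777208) (l 16777200)) (b (l 16768096) (l 16768856))))) (c (b (a (c (l 16729520) (l 16728896)) (c (l 16723856) (l 16722896))) (a (c (l 16593616) (l 16591216)) (l 16588520))) (b (a (c (l 16728272) (l 16717160)) (b (l 16752848) (l 16689416))) (a (c (l 16588816) (l 16586416)) (l 16520328))))) (a (b (b (c (l 16751848) (l 16751184)) (c (c (l 16751984) (l 16751656)) (c (l 16751328) (l 16751000)))) (c (b (c (l 16711544) (l 16709816)) (l 16579624)) (b (c (l 16708088) (l 16685392)) (l 16510032)))) (b (b (c (l 16716600) (a (l 16738440) (l 16776848))) (a (c (l 16738568) (l 16737568)) (b (l 16754928) (b (l 16775416) (c (l 16775016) (l 16733016)))))) (b (a (c (l 16699616) (l 16652792)) (c (a (l 16607416) (l 16670648)) (a (b (l 16738848) (l 16677232)) (b (l 16740608) (l 16716784))))) (a (c (l 16527864) (b (l 16598160)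 (l 16523992))) (c (a (l 16531664) (l 16607400)) (a (b (l 16583616) (l 16519672)) (l 16598312)))))))), by decide +kernel⟩

def k6_pp_012 : ∃ t, chk3 f_pp_012 t 6 7 1 = true :=
  ⟨(a (b (a (b (c (c (l 16440256) (l 16435856)) (c (l 16431448) (l 16427048))) (b (c (l 357722733687) (l 290076977591)) (l 3))) (b (c (l 16352184) (c (l 16429272) (l 16424744))) (c (b (l 16305960) (l 198271869399)) (b (l 16293656) (l 16183904))))) (l 3)) (b (a (b (c (c (l 16389296) (l 16300144)) (a (l 16422464) (b (l 16458176) (l 16372944)))) (c (b (a (l 16303888) (l 16284920)) (a (a (l 247663978439) (b (l 16221376) (l 16156712))) (c (l 16160040) (l 16146928)))) (b (a (l 16291248) (l 16267296)) (a (l 16174808) (l 16127272))))) (b (b (a (c (l 16452760) (l 16438248)) (c (l 16458512) (l 16438320))) (a (c (l 16358168) (l 16337000)) (c (l 16357136) (l 16328584)))) (c (a (b (l 16245720) (l 16002376)) (b (l 16239152) (a (l 16083728) (l 16105520)))) (a (l 16101144) (b (l 16200504) (l 16043008)))))) (b (b (a (a (l 3) (b (c (l 183239128647)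 (l 16006656)) (l 3))) (c (c (a (b (l 16003952) (l 159616606695)) (b (a (l 15979448) (l 15998840)) (a (a (l 218672491511) (l 247126642519)) (l 278265163703)))) (a (l 15878496) (a (l 260011343943) (l 15926992)))) (a (l 15901752) (a (l 15819120) (l 15876104))))) (a (l 3) (l 3))) (l 3)))), by decide +kernel⟩

def k7_pp_012 : ∃ t, chk3 f_pp_012 t 7 2 1 = true :=
  ⟨(b (a (b (a (c (l 16707744) (l 16705944)) (c (l 16603992) (l 16599504))) (a (c (l 16691024) (l 16688792)) (c (l 16580568) (l 16575512)))) (b (c (a (b (l 16644008) (l 16630776)) (b (a (l 16695080) (l 16568152)) (l 16619952))) (a (b (l 16641336) (l 16627648)) (b (a (l 16694080) (l 16564968)) (l 16618408)))) (c (a (b (l 16621840) (l 16621224)) (b (l 16625984) (l 16604000))) (a (l 16555864) (b (l 16624760) (l 16602856)))))) (a (b (a (c (l 16672848) (l 16670136)) (c (l 16533928) (l 16549824))) (a (b (l 16636400) (c (l 16655496) (l 16652352))) (b (c (l 16591184) (l 16586648)) (c (l 16626120) (l 16622664))))) (b (a (c (l 16637928) (l 16635384)) (c (c (l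 16569232) (l 16568504)) (a (l 16687736) (l 16591768)))) (a (c (b (l 16671664) (l 16707024)) (b (l 16670256) (l 16706728))) (c (b (l 16563800) (l 16560704)) (b (l 16582616) (l 16578832))))))), by decide +kernel⟩

def k8_pp_012 : ∃ t, chk3 f_pp_012 t 7 6 1 = true :=
  ⟨(c (a (b (a (b (l 16668848) (l 16704488)) (b (l 16677080) (l 16738344))) (a (b (b (a (l 16727624) (l 16743384)) (l 16731456)) (a (l 16667520) (l 16730496))) (b (a (l 16739400) (l 16695280)) (a (l 16744816) (l 16754160))))) (b (a (b (l 16662872) (l 16636976)) (b (l 16532320) (a (l 16565216) (l 16514776)))) (a (a (b (l 16632256) (l 16725944)) (b (a (l 16623816) (l 16603520)) (a (l 16704520) (l 16687136)))) (b (a (l 16572048) (l 16443416)) (a (c (a (l 16665216) (l 16588104)) (b (l 16632064) (l 16663664))) (a (c (l 16580656) (l 16557352)) (l 16521744))))))) (a (b (a (b (a (l 16683712) (l 16638328)) (a (l 16701920) (l 16698088))) (b (l 16675184) (l 16738344))) (a (b (b (a (l 16726400) (l 16742952)) (l 16688352)) (a (l 16662384) (l 16729360)))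 (b (a (l 16739056) (l 16693912)) (a (l 16744136) (l 16754112))))) (b (a (b (l 16682816) (l 16634496)) (b (l 16549600) (l 16451760))) (a (b (a (l 16608976) (l 16569176)) (a (l 16725392) (l 16694448))) (b (a (l 16567976) (l 16479696)) (a (a (l 16662336) (l 16562528)) (a (b (l 16506624) (l 16542264)) (c (l 16496536) (b (l 16508224) (l 16523544)))))))))), by decide +kernel⟩

def k9_pp_012 : ∃ t, chk3 f_pp_012 t 14 14 1 = true :=
  ⟨(a (b (c (a (l 16481928) (l 16573488)) (a (l 16439744) (l 16515984))) (c (b (l 16285880) (a (l 16156664) (l 16241800))) (b (l 16229240) (l 16104928)))) (b (c (a (l 16684328) (l 16699152)) (a (l 16678968) (l 16697664))) (c (b (a (l 16504912) (l 16637592)) (a (l 16349344) (l 16481376))) (a (l 16248920) (b (l 16629144) (l 16452272)))))), by decide +kernel⟩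

def k10_pp_012 : ∃ t, chk3 f_pp_012 t 14 15 1 = true :=
  ⟨(b (a (a (b (c (b (l 16030992) (c (a (b (l 15969512) (l 15933056)) (l 15986504)) (l 15931704))) (l 15880240)) (b (c (c (c (b (a (c (l 213840614423) (l 15899632)) (l 250347907175)) (a (l 3) (l 186460162583))) (b (l 15901920) (l 178943926359))) (l 206324202775)) (l 15787504)) (l 3))) (c (b (b (l 16113416) (c (l 16048552) (l 16011472))) (b (c (c (b (l 15996680) (a (l 235315490423) (l 15969936))) (l 191828823559)) (l 15926496)) (b (c (c (a (l 163374676903) (l 224578042855)) (l 209545614935)) (l 15857808)) (l 3)))) (b (l 16003728) (b (l 15862400) (l 15759224))))) (c (b (a (b (l 16217272) (l 16130792)) (b (l 16346320) (c (l 16271448) (l 16239264)))) (a (c (b (c (b (l 16093320) (l 16043024)) (l 16053680)) (a (c (l 228336151015) (l 235315473383)) (b (l 16010872) (a (l 15942872) (l 15969456))))) (b (l 16022552) (c (a (l 214377332647) (l 223504428615)) (l 15910952)))) (c (b (a (l 16144584) (l 16209568)) (a (b (l 16066880) (l 16008472)) (l 16098344))) (b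 (l 16141280) (b (l 16059848) (c (l 16009440) (l 15986248))))))) (b (a (l 16109752) (a (l 16208944) (l 16285176))) (a (b (l 15958904) (a (l 15823400) (l 15873800))) (a (b (l 16048672) (l 15924712)) (l 16048288)))))) (b (a (l 3) (a (a (l 3) (b (b (c (a (c (l 172501545303) (l 15848064)) (c (l 198271413703) (l 200418844119))) (l 15778304)) (l 3)) (l 3))) (b (c (c (a (b (l 233704939959) (l 211693119111)) (b (l 16005120) (l 218672556503))) (a (b (l 15904672) (l 178407032695)) (b (l 15958824) (l 219746199975)))) (c (l 178406732727) (l 15767064))) (l 3)))) (l 3))), by decide +kernel⟩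

def k11_pp_012 : ∃ t, chk3 f_pp_012 t 15 14 1 = true :=
  ⟨(b (a (c (a (l 16691144) (a (l 16688184) (b (l 16728528) (l 16715792)))) (a (l 16689752) (a (l 16686984) (l 16682192)))) (a (c (c (a (l 16680624) (l 16672136)) (b (l 16623224) (l 16597488))) (c (l 16628784) (l 16649136))) (c (a (c (l 16617216) (l 16571344)) (b (l 16547584) (l 16503728))) (a (c (b (l 16600792) (l 16596472)) (l 16605656)) (c (b (l 16543168) (l 16563520)) (b (l 16497568) (a (l 16572280) (l 16525080)))))))) (b (a (c (a (l 16649512) (a (l 16679992) (l 16711704))) (a (l 16667696) (a (l 16677688) (l 16710384)))) (a (c (c (a (l 16747440) (l 16705336)) (a (l 16748432) (l 16676680))) (a (l 16748480) (l 16650728))) (a (c (c (b (l 16643096) (l 16618528)) (l 16586488)) (c (a (l 16654000) (l 16588968)) (l 16639264))) (a (c (l 388727593687) (c (l 16608832) (l 16603440))) (l 1))))) (a (c (a (a (l 16599840) (l 16645304)) (a (l 16667504) (l 16675944))) (a (a (l 16591136) (l 16642192)) (a (l 16664744) (l 16694976)))) (a (c (c (a (b (l 16734688)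 (l 16725784)) (c (l 16660464) (l 16722888))) (a (l 16737664) (b (l 16704256) (l 16706048)))) (c (l 146599084951) (l 16670840))) (a (c (c (l 321618875367) (l 195991201991)) (c (a (l 16699248) (l 1)) (l 16685872))) (l 1)))))), by decide +kernel⟩

def k12_pp_012 : ∃ t, chk3 f_pp_012 t 15 15 1 = true :=
  ⟨(a (a (b (a (c (b (l 16357632) (c (b (l 16289376) (l 16176392)) (l 16195904))) (b (l 16376392) (l 16127832))) (c (b (l 16520480) (c (b (l 16387040) (l 16273256)) (l 16212336))) (b (l 16489072) (l 16232824)))) (b (c (b (b (c (l 16127288) (l 16077592)) (c (a (l 16016368) (l 16111432)) (a (l 15954944) (l 16047504)))) (a (c (l 196123947671) (l 192365680791)) (c (a (b (l 16018472) (l 288465915111)) (c (b (l 16092768) (a (l 244979469911) (l 1))) (l 560525345767))) (b (l 15962640) (l 245516157383))))) (b (a (l 15893984) (c (l 16022736) (l 15947616))) (c (a (c (l 138141202567) (l 15725840)) (b (l 15881488) (c (l 15800856) (l 15753064)))) (a (l 15652984) (l 15730688))))) (l 3))) (a (b (c (b (l 16549280) (b (c (l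 16501464) (l 16480304)) (c (b (l 16419304) (l 16357784)) (l 198674544039)))) (b (l 16625704) (b (l 16438136) (l 16285936)))) (b (b (c (c (c (a (l 543882882215) (l 449930529671)) (l 16245704)) (b (l 16245584) (l 16163736))) (c (l 16142240) (l 16069464))) (l 1)) (l 1))) (b (c (b (b (l 16684400) (c (l 16685400) (l 16684032))) (c (b (c (a (l 16600440) (l 16663224)) (l 16631656)) (c (a (l 16492096) (l 1)) (l 405907438391))) (b (l 16621808) (l 16327024)))) (b (b (l 16682000) (l 16682304)) (b (l 16600736) (l 16444808)))) (l 1)))) (a (b (a (b (c (c (b (a (l 16708672) (l 16722032)) (a (l 16664832) (l 1))) (l 16697328)) (l 16675160)) (l 1)) (l 1)) (l 1)) (l 1))), by decide +kernel⟩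

theorem s13_pp_012 : ∃ t, chk3 f_pp_012 t 15 7 1 = true := ex3_b k11_pp_012 k12_pp_012

theorem s14_pp_012 : ∃ t, chk3 f_pp_012 t 14 7 1 = true := ex3_b k9_pp_012 k10_pp_012

theorem s15_pp_012 : ∃ t, chk3 f_pp_012 t 7 7 1 = true := ex3_a s14_pp_012 s13_pp_012

theorem s16_pp_012 : ∃ t, chk3 f_pp_012 t 7 3 1 = true := ex3_b k8_pp_012 s15_pp_012

theorem s17_pp_012 : ∃ t, chk3 f_pp_012 t 7 1 1 = true := ex3_b k7_pp_012 s16_pp_012

theorem s18_pp_012 : ∃ t, chk3 f_pp_012 t 6 3 1 = true := ex3_b k5_pp_012 k6_pp_012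

theorem s19_pp_012 : ∃ t, chk3 f_pp_012 t 6 1 1 = true := ex3_b k4_pp_012 s18_pp_012

theorem s20_pp_012 : ∃ t, chk3 f_pp_012 t 3 1 1 = true := ex3_a s19_pp_012 s17_pp_012

theorem s21_pp_012 : ∃ t, chk3 f_pp_012 t 2 6 1 = true := ex3_a k1_pp_012 k2_pp_012

theorem s22_pp_012 : ∃ t, chk3 f_pp_012 t 2 3 1 = true := ex3_b s21_pp_012 k3_pp_012

theorem s23_pp_012 : ∃ t, chk3 f_pp_012 t 2 1 1 = true := ex3_b k0_pp_012 s22_pp_012

theorem s24_pp_012 : ∃ t, chk3 f_pp_012 t 1 1 1 = true := ex3_a s23_pp_012 s20_pp_012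

theorem c_pp_012 : CertFX 67108864 469762048 0 536870912 1046898278 26843546 false true true .pnp 0 1 2
    ndF2q0 ndF0q2 pcF1 Cut.none Ext.none :=
  certFX2 (fam := false) (s1 := true) (s2 := true) (a := 0) (b := 1) (c := 2) (cn := .pnp) (n1 := ndF2q0) (n2 := ndF0q2) (pc := pcF1) (cut := Cut.none) (xt := Ext.none) (P1 := 67108864) (W1 := 469762048) (P2 := 0) (W2 := 536870912) (P3 := 1046898278) (W3 := 26843546)
    rfl (fun _ => rfl) s24_pp_012

noncomputable def f_pp_022 : ℕ → ℕ → ℕ → ℕ → Bool := onCell 67108864 469762048 0 536870912 1046898278 26843546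
    (rowFX 0 false true true .pp 0 2 2 (qsf 67108864 469762048 0 536870912 2) ndF2q0 ndF0q2 pcF2 Cut.none Ext.none)

def k0_pp_022 : ∃ t, chk3 f_pp_022 t 16 1 1 = true :=
  ⟨(b (b (b (c (a (b (c (l 16483848) (l 16481952)) (c (l 16474024) (l 16493256))) (b (l 16519720) (l 16553392))) (a (b (l 16480072) (l 16449688)) (b (l 16582664) (l 16574208)))) (c (b (a (c (l 16479536) (l 16477840)) (l 16572288)) (a (c (l 16459400) (l 16478616)) (l 16559232))) (b (a (a (l 16483968) (l 16509808)) (l 16571992)) (a (c (l 16477512) (l 16497376)) (l 16580008))))) (b (c (b (a (c (l 16476768) (l 16495824)) (l 16592808)) (c (l 16405136) (l 16443112))) (b (a (l 16472944) (l 16592528)) (l 16399552))) (c (b (a (l 16400576) (l 16495056)) (a (c (l 16419656) (l 16416040)) (l 16438688))) (b (a (l 16458288) (l 16513384)) (a (l 16411592) (l 16475856)))))) (b (b (c (b (a (b (l 16368872) (l 16326552)) (b (l 16422576) (l 16374792))) (a (c (l 16228976) (l 16243360)) (c (l 16269352) (l 16284680)))) (b (b (l 16343392) (a (l 16316320) (l 16366304)))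 (a (b (l 16264304) (l 16203344)) (b (l 16308784) (l 16242440))))) (b (c (a (b (c (l 16168800) (l 16160864)) (l 16149520)) (b (c (l 16201504) (l 16194416)) (l 16177136))) (b (a (l 16149952) (l 16183824)) (a (l 16133200) (l 16162024)))) (c (a (b (l 16128480) (l 16099424)) (b (l 16151312) (l 16117664))) (a (b (l 16111280) (l 16081160)) (b (l 16135240) (l 16100448)))))) (a (b (b (b (c (l 16061616) (l 16042088)) (b (c (l 16027208) (l 16006616)) (l 1))) (l 1)) (l 1)) (l 1)))), by decide +kernel⟩

def k1_pp_022 : ∃ t, chk3 f_pp_022 t 17 1 1 = true :=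
  ⟨(b (b (c (b (b (a (l 16457280) (l 16359392)) (a (l 16463040) (l 16379600))) (b (a (l 16474744) (l 16405608)) (a (l 16496256) (l 16441344)))) (b (b (l 16319856) (l 16333136)) (b (a (l 16471000) (l 16399552)) (a (l 16493016) (l 16436176))))) (b (c (b (a (l 16510696) (l 16490952)) (a (l 16585320) (l 16558824))) (b (a (l 16529272) (l 16487008)) (a (l 16584216) (l 16556560)))) (c (b (a (l 16529432) (l 16628704)) (a (c (l 16525928) (l 16545272)) (b (l 16595608) (l 16551168)))) (b (a (l 16570616) (l 16649656)) (a (l 16500896) (l 16550008)))))) (b (a (b (c (b (c (b (l 16481496) (l 16428992)) (l 16410592)) (c (b (l 16368752) (l 16300072)) (b (l 16364056) (l 16294280)))) (b (b (l 16474520) (l 16419760)) (c (l 16282624) (l 16319336)))) (b (c (b (c (l 144987525191) (l 16232184)) (c (l 16213584) (l 16206336))) (b (c (l 16225432) (l 16218672)) (l 189547760167))) (l 1))) (b (b (c (b (l 16500336) (l 16421504)) (b (l 16494888) (l 16435088))) (b (c (l 216391649479) (l 16367416)) (l 1))) (l 1))) (l 1))), by decide +kernel⟩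

def k2_pp_022 : ∃ t, chk3 f_pp_022 t 9 1 1 = true :=
  ⟨(b (a (b (b (c (b (b (l 16207048) (l 16230888)) (l 16263112)) (b (l 16100544) (l 16252840))) (c (b (l 16311224) (l 16306064)) (b (l 16302184) (l 16340432)))) (b (b (c (l 16398656) (l 16434832)) (c (b (l 16505760) (l 16556096)) (l 16443152))) (c (b (b (l 16591528) (l 16628216)) (b (l 135324599255) (l 141230079543))) (b (b (l 16611024) (l 16670072)) (b (l 16601584) (l 16527248)))))) (b (a (b (c (b (b (l 16042296) (l 16078864)) (l 16128208)) (b (b (l 16025832) (l 16063312)) (l 16113928))) (c (b (l 16198976) (l 16279256)) (b (l 16186512) (l 16268848)))) (l 1)) (b (b (c (l 499859214663) (l 422012914359)) (l 1)) (l 1)))) (a (b (b (a (b (b (c (l 16508912) (l 16503296)) (l 1)) (l 1)) (l 1)) (l 1)) (l 1)) (l 1))), by decide +kernel⟩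

def k3_pp_022 : ∃ t, chk3 f_pp_022 t 5 1 1 = true :=
  ⟨(b (l 1) (l 1)), by decide +kernel⟩

def k4_pp_022 : ∃ t, chk3 f_pp_022 t 3 1 1 = true :=
  ⟨(l 1), by decide +kernel⟩

theorem s5_pp_022 : ∃ t, chk3 f_pp_022 t 8 1 1 = true := ex3_a k0_pp_022 k1_pp_022

theorem s6_pp_022 : ∃ t, chk3 f_pp_022 t 4 1 1 = true := ex3_a s5_pp_022 k2_pp_022

theorem s7_pp_022 : ∃ t, chk3 f_pp_022 t 2 1 1 = true := ex3_a s6_pp_022 k3_pp_022

theorem s8_pp_022 : ∃ t, chk3 f_pp_022 t 1 1 1 = true := ex3_a s7_pp_022 k4_pp_022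

theorem c_pp_022 : CertFX 67108864 469762048 0 536870912 1046898278 26843546 false true true .pp 0 2 2
    ndF2q0 ndF0q2 pcF2 Cut.none Ext.none :=
  certFX0 (fam := false) (s1 := true) (s2 := true) (a := 0) (b := 2) (c := 2) (cn := .pp) (n1 := ndF2q0) (n2 := ndF0q2) (pc := pcF2) (cut := Cut.none) (xt := Ext.none) (P1 := 67108864) (W1 := 469762048) (P2 := 0) (W2 := 536870912) (P3 := 1046898278) (W3 := 26843546)
    rfl s8_pp_022

noncomputable def f_pp_101 : ℕ → ℕ → ℕ → ℕ → Bool := onCell 536870912 536870912 536870912 536870912 1046898278 26843546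
    (rowFX 0 false true true .npn 1 0 1 (qsf 536870912 536870912 536870912 536870912 0) ndF2q1 ndF0q1 pcF0 Cut.none Ext.none)

def k0_pp_101 : ∃ t, chk3 f_pp_101 t 1 1 1 = true :=
  ⟨(l 3), by decide +kernel⟩

theorem c_pp_101 : CertFX 536870912 536870912 536870912 536870912 1046898278 26843546 false true true .npn 1 0 1
    ndF2q1 ndF0q1 pcF0 Cut.none Ext.none :=
  certFX0 (fam := false) (s1 := true) (s2 := true) (a := 1) (b := 0) (c := 1) (cn := .npn) (n1 := ndF2q1) (n2 := ndF0q1) (pc := pcF0) (cut := Cut.none) (xt := Ext.none) (P1 := 536870912) (W1 := 536870912) (P2 := 536870912) (W2 := 536870912) (P3 := 1046898278) (W3 := 26843546)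
    rfl k0_pp_101

noncomputable def f_pp_102 : ℕ → ℕ → ℕ → ℕ → Bool := onCell 0 536870912 0 536870912 1046898278 26843546
    (rowFX 2 false true true .npp 1 0 2 (qsf 536870912 536870912 0 536870912 0) ndF2q1 ndF0q2 pcF0 Cut.none Ext.none)

def k0_pp_102 : ∃ t, chk3 f_pp_102 t 2 2 1 = true :=
  ⟨(b (a (l 2) (a (a (a (l 2) (b (a (l 2) (c (l 315243205591) (l 453219017255))) (b (a (l 2) (c (l 16461504) (l 16454264))) (c (l 274440883207) (l 443018335159))))) (b (c (b (l 16575336) (l 16554592)) (b (l 16593840) (l 16572464))) (a (c (b (c (l 16543416) (l 16540824)) (l 16508048)) (b (l 16515968) (l 16523392))) (c (b (l 16605824) (l 16624568)) (b (l 16624408) (l 16621416)))))) (b (a (c (l 16658976) (l 16656512)) (c (l 16628736) (l 16624880))) (b (a (a (c (l 16717584) (l 16717064)) (l 16634296)) (l 16635568)) (a (c (a (l 16726184) (l 16660896)) (a (l 16704888) (l 16658240))) (a (c (b (l 16621336) (l 16632784)) (b (l 16617288) (l 16629056))) (c (l 16672024) (l 16669296)))))))) (a (l 3) (b (a (a (l 3) (b (b (c (l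 16542168) (l 16495376)) (l 3)) (l 3))) (a (b (c (a (l 16628768) (l 16650048)) (a (l 336785514423) (l 84456258615))) (b (c (l 397451935719) (l 371682132807)) (l 3))) (a (b (c (b (l 16649176) (l 16666232)) (b (l 16645904) (l 16642456))) (b (c (l 347522948679) (l 319068791495)) (l 3))) (c (b (l 16686016) (l 341617455207)) (b (l 16683648) (l 308331455479)))))) (l 3)))), by decide +kernel⟩

def k1_pp_102 : ∃ t, chk3 f_pp_102 t 6 2 1 = true :=
  ⟨(a (b (b (c (l 16760928) (l 16760504)) (b (l 16744848) (a (c (l 16722152) (l 16700296)) (l 16753488)))) (b (c (a (b (c (l 16756728) (l 16756464)) (c (b (l 16768144) (l 161228939031)) (b (l 16768024) (l 214916030199)))) (b (c (l 16753352) (l 16753040)) (c (l 16754704) (l 16754408)))) (a (b (c (l 16756200) (l 16755928)) (c (l 251423231815) (l 16729120))) (b (c (l 16752728) (l 16752416)) (c (l 16754112) (l 16753816))))) (b (c (a (a (l 3) (c (l 371145524823) (l 362555589607))) (a (c (l 340007013703) (l 337322658551)) (c (l 315310954711) (l 315310954263)))) (a (c (l 355039388071)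 (l 336248947895)) (c (l 319069037479) (l 305110393079)))) (l 3)))) (b (b (c (l 16766264) (l 16765984)) (c (l 16767744) (l 16767496))) (a (b (c (b (l 16764432) (l 16766576)) (b (l 16764096) (l 16766296))) (b (c (c (b (l 16768496) (l 16769864)) (l 172503303575)) (c (l 16768976) (l 16768872))) (b (c (c (l 335712080391) (l 337322692967)) (c (l 336785808135) (l 16771096))) (l 3)))) (b (c (b (l 16774864) (c (l 16775896) (l 16775872))) (b (l 16774808) (l 16775848))) (b (c (c (l 16776712) (l 16776704)) (c (l 16776704) (l 16776696))) (c (c (b (l 205252458167) (a (l 346986381319) (l 305110450183))) (b (l 192367556279) (l 324974673927))) (c (b (l 16777168) (l 326585286663)) (l 299204867447)))))))), by decide +kernel⟩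

def k2_pp_102 : ∃ t, chk3 f_pp_102 t 7 2 1 = true :=
  ⟨(b (b (c (l 16777216) (l 16777216)) (c (l 16777216) (l 16777216))) (b (b (c (l 16777216) (l 16777216)) (a (c (c (a (l 16777216) (l 16777216)) (l 16777216)) (c (l 16777216) (l 16777216))) (a (c (l 16777216) (l 16777216)) (l 16777216)))) (c (a (b (c (a (l 16777216) (l 16777216)) (a (l 16777216) (l 16777216))) (c (a (c (l 163913400327) (l 163376529415)) (l 16777216)) (a (c (l 160692174855) (l 16777216)) (l 16777216)))) (c (b (a (l 16777216) (l 16777216)) (a (l 16777216) (l 16777216))) (b (a (l 16777216) (l 16777216)) (a (l 16777216) (l 16777216))))) (a (b (c (l 16777216) (l 16777216)) (c (a (b (l 16777216) (l 16777216)) (l 16777216)) (a (l 16777216) (l 16777216)))) (c (b (a (l 16777216) (l 16777216)) (a (l 16777216) (l 16777216))) (b (a (l 16777216) (l 16777216)) (a (l 16777216) (l 16777216)))))))), by decide +kernel⟩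

def k3_pp_102 : ∃ t, chk3 f_pp_102 t 1 3 1 = true :=
  ⟨(a (l 3) (b (a (l 3) (b (a (b (b (c (c (a (a (l 342691414023) (l 300278611975)) (c (l 149417885703) (l 153175982087))) (a (a (l 346986381319) (l 308331675655)) (c (l 154786594823) (l 153712852999)))) (c (a (b (l 199883751431) (l 349670735879)) (c (l 16777216) (l 16777216))) (a (l 327659028487) (l 16777216)))) (a (l 3) (a (c (c (l 336785833991) (l 344302026759)) (c (l 350744477703) (l 356650057735))) (c (c (c (l 284709355527) (l 290614935559)) (c (l 295983644679) (l 300815482887))) (c (a (l 324437803015) (l 294373031943)) (l 313163513863)))))) (l 3)) (a (b (c (c (c (b (l 16777216) (a (l 213305524231) (l 16777216))) (b (l 16777216) (a (l 218674233351) (l 16777216)))) (c (b (l 16777216) (a (l 221895458823) (l 16777216))) (b (l 16777216) (a (l 222432329735) (l 16777216))))) (c (b (l 16777216) (c (a (l 220821716999) (l 16777216)) (l 204178718727))) (b (l 16777216) (c (l 16777216) (l 16777216))))) (b (a (c (a (l 3) (c (l 307794804743) (l 319605964807)))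 (c (l 333564608519) (l 346986381319))) (c (c (c (l 260013293575) (l 268603228167)) (c (l 276119420935) (l 284172484615))) (c (c (l 291151806471) (l 298131128327)) (l 308331675655)))) (l 3))) (b (c (c (c (l 16777216) (l 16777216)) (c (l 16777216) (l 16777216))) (c (c (l 16777216) (l 16777216)) (b (l 16777216) (l 16777216)))) (a (b (c (c (b (l 16777216) (a (l 261087035399) (l 218674233351))) (c (a (l 242833424391) (l 217600491527)) (l 242833424391))) (c (c (l 250886488071) (l 258402680839)) (l 268066357255))) (l 3)) (c (b (c (c (l 16777216) (l 16777216)) (c (l 16777216) (l 16777216))) (c (c (l 270213840903) (l 271287582727)) (c (l 269676969991) (l 277730033671)))) (b (c (c (l 16777216) (l 16777216)) (l 16777216)) (b (c (b (l 215989878791) (l 300278611975)) (l 294373031943)) (l 3)))))))) (l 3))) (l 3))), by decide +kernel⟩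

theorem s4_pp_102 : ∃ t, chk3 f_pp_102 t 3 2 1 = true := ex3_a k1_pp_102 k2_pp_102

theorem s5_pp_102 : ∃ t, chk3 f_pp_102 t 1 2 1 = true := ex3_a k0_pp_102 s4_pp_102

theorem s6_pp_102 : ∃ t, chk3 f_pp_102 t 1 1 1 = true := ex3_b s5_pp_102 k3_pp_102

theorem c_pp_102 : CertFX 536870912 536870912 0 536870912 1046898278 26843546 false true true .npp 1 0 2
    ndF2q1 ndF0q2 pcF0 Cut.none Ext.none :=
  certFX2 (fam := false) (s1 := true) (s2 := true) (a := 1) (b := 0) (c := 2) (cn := .npp) (n1 := ndF2q1) (n2 := ndF0q2) (pc := pcF0) (cut := Cut.none) (xt := Ext.none) (P1 := 536870912) (W1 := 536870912) (P2 := 0) (W2 := 536870912) (P3 := 1046898278) (W3 := 26843546)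
    rfl (fun _ => rfl) s6_pp_102

noncomputable def f_pp_112 : ℕ → ℕ → ℕ → ℕ → Bool := onCell 536870912 536870912 0 536870912 1046898278 26843546
    (rowFX 2 false true true .dn 1 1 2 (qsf 536870912 536870912 0 536870912 1) ndF2q1 ndF0q2 pcF1 Cut.none Ext.none)

def k0_pp_112 : ∃ t, chk3 f_pp_112 t 4 2 1 = true :=
  ⟨(b (b (c (l 16777216) (l 16777216)) (c (l 16777216) (l 16777216))) (b (c (l 16777216) (l 16777216)) (a (c (c (b (a (l 16777216) (l 16777216)) (a (l 16777216) (l 16777216))) (b (a (l 16777216) (l 16777216)) (a (l 16777216) (l 16777216)))) (c (b (a (l 16777216) (l 16777216)) (a (l 16777216) (l 16777216))) (b (l 16777216) (a (l 16777216) (l 16777216))))) (b (l 16777216) (c (a (c (l 16777216) (l 16777216)) (l 16777216)) (a (c (l 16777216) (l 16777216)) (l 16777216))))))), by decide +kernel⟩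

def k1_pp_112 : ∃ t, chk3 f_pp_112 t 8 6 1 = true :=
  ⟨(b (c (b (c (a (b (l 16777216) (l 16777216)) (l 16777216)) (a (b (l 16777216) (l 16777216)) (l 16777216))) (c (c (a (b (l 16777216) (a (l 202568105991) (l 16777216))) (l 16777216)) (a (b (l 16777216) (a (b (l 16777216) (l 262160777223)) (l 16777216))) (l 16777216))) (a (c (b (l 16777216) (a (b (l 16777216) (l 257865809927)) (l 177335173127))) (b (l 16777216) (a (a (l 246054649863) (l 220821716999)) (l 186998849543)))) (b (l 16777216) (a (l 16777216) (l 16777216)))))) (b (c (a (b (l 16777216) (l 16777216)) (l 16777216)) (a (l 16777216) (l 16777216))) (a (a (b (c (l 16777216) (l 16777216)) (c (c (a (l 256792068103) (l 231559135239)) (l 256792068103)) (b (l 16777216) (l 300278611975)))) (c (b (l 16777216) (c (l 186998849543) (l 16777216))) (b (l 16777216) (c (l 16777216) (l 16777216))))) (c (b (l 16777216) (c (l 16777216) (l 16777216))) (c (l 16777216) (l 16777216)))))) (b (a (a (l 3) (b (b (c (c (b (l 261623906311) (l 347523238855)) (c (l 285783090615)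 (l 287930574215))) (c (c (l 292762412391) (l 303499830583)) (b (l 261087035399) (l 366313720263)))) (l 3)) (l 3))) (a (b (b (c (c (b (l 16777216) (l 174650789143)) (b (l 16777216) (l 196125625447))) (c (c (l 201494334407) (l 211694881687)) (c (l 16752792) (l 16773736)))) (a (l 3) (c (c (l 285246132375) (l 290078003207)) (c (l 286856776951) (l 309405354455))))) (l 3)) (b (c (c (b (l 16773880) (l 162839564439)) (b (l 16773840) (c (l 16725624) (l 191830592695)))) (c (b (l 16773792) (c (l 204178623927) (l 211694815975))) (b (l 16773752) (c (l 16724832) (l 16745608))))) (a (l 3) (c (c (l 319605806327) (l 316921407767)) (c (l 303499632887) (l 330880068295))))))) (l 3))), by decide +kernel⟩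

def k2_pp_112 : ∃ t, chk3 f_pp_112 t 9 6 1 = true :=
  ⟨(a (b (c (c (b (l 16777216) (c (l 16777216) (l 16777216))) (b (l 16777216) (c (l 16777216) (l 16777216)))) (c (b (l 16777216) (b (l 16777216) (l 16777216))) (b (l 16777216) (b (l 16777216) (l 16777216))))) (b (c (b (c (a (l 16718512) (l 16760448)) (a (b (l 16773840) (l 16746496)) (l 16760232))) (a (c (b (l 162302627495) (l 329269449271)) (c (l 227263986935) (l 240148866823))) (c (l 141364594071) (b (l 16713712) (l 192367327831))))) (c (b (a (b (l 16773792) (l 16746104)) (l 16739040)) (b (a (a (l 233706456823) (l 16691920)) (l 16712896)) (a (l 300815285927) (b (l 148343945511) (l 246591287431))))) (b (a (b (l 16773752) (l 16745704)) (l 16738824)) (b (a (c (l 196662362327) (l 180019362919)) (l 16712072)) (a (l 323900732631) (b (l 120426658087) (l 274508571799))))))) (l 3))) (b (c (b (c (l 16777216) (l 16777216)) (c (l 16777216) (l 16777216))) (b (c (l 16777216) (l 16777216)) (c (l 16777216) (l 16777216)))) (b (a (a (b (c (l 550326143879) (l 753263348407))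 (l 1)) (l 1)) (l 1)) (l 1)))), by decide +kernel⟩

def k3_pp_112 : ∃ t, chk3 f_pp_112 t 4 7 1 = true :=
  ⟨(l 3), by decide +kernel⟩

def k4_pp_112 : ∃ t, chk3 f_pp_112 t 5 1 1 = true :=
  ⟨(b (a (b (b (l 16777216) (c (l 16777216) (l 16777216))) (b (c (l 16777216) (l 16777216)) (b (l 16777216) (b (l 16777216) (l 1))))) (l 1)) (b (l 1) (l 1))), by decide +kernel⟩

def k5_pp_112 : ∃ t, chk3 f_pp_112 t 3 1 1 = true :=
  ⟨(l 1), by decide +kernel⟩

theorem s6_pp_112 : ∃ t, chk3 f_pp_112 t 4 6 1 = true := ex3_a k1_pp_112 k2_pp_112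

theorem s7_pp_112 : ∃ t, chk3 f_pp_112 t 4 3 1 = true := ex3_b s6_pp_112 k3_pp_112

theorem s8_pp_112 : ∃ t, chk3 f_pp_112 t 4 1 1 = true := ex3_b k0_pp_112 s7_pp_112

theorem s9_pp_112 : ∃ t, chk3 f_pp_112 t 2 1 1 = true := ex3_a s8_pp_112 k4_pp_112

theorem s10_pp_112 : ∃ t, chk3 f_pp_112 t 1 1 1 = true := ex3_a s9_pp_112 k5_pp_112

theorem c_pp_112 : CertFX 536870912 536870912 0 536870912 1046898278 26843546 false true true .dn 1 1 2
    ndF2q1 ndF0q2 pcF1 Cut.none Ext.none :=
  certFX2 (fam := false) (s1 := true) (s2 := true) (a := 1) (b := 1) (c := 2) (cn := .dn) (n1 := ndF2q1) (n2 := ndF0q2) (pc := pcF1) (cut := Cut.none) (xt := Ext.none) (P1 := 536870912) (W1 := 536870912) (P2 := 0) (W2 := 536870912) (P3 := 1046898278) (W3 := 26843546)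
    rfl (fun _ => rfl) s10_pp_112

noncomputable def f_pp_202_a : ℕ → ℕ → ℕ → ℕ → Bool := onCell 0 420477299 0 536870912 1046898278 26843546
    (rowFX 0 false true true .pp 2 0 2 (qsf 0 420477299 0 536870912 0) ndF2q2a ndF0q2 pcF0 Cut.none Ext.none)

def k0_pp_202_a : ∃ t, chk3 f_pp_202_a t 1 1 1 = true :=
  ⟨(l 3), by decide +kernel⟩

theorem c_pp_202_a : CertFX 0 420477299 0 536870912 1046898278 26843546 false true true .pp 2 0 2
    ndF2q2a ndF0q2 pcF0 Cut.none Ext.none :=
  certFX0 (fam := false) (s1 := true) (s2 := true) (a := 2) (b := 0) (c := 2) (cn := .pp) (n1 := ndF2q2a) (n2 := ndF0q2) (pc := pcF0) (cut := Cut.none) (xt := Ext.none) (P1 := 0) (W1 := 420477299) (P2 := 0) (W2 := 536870912) (P3 := 1046898278) (W3 := 26843546)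
    rfl k0_pp_202_a

noncomputable def f_pp_202_b : ℕ → ℕ → ℕ → ℕ → Bool := onCell 1239849684 370763052 0 536870912 1046898278 26843546
    (rowFX 0 false true true .pp 2 0 2 (qsf 1239849684 370763052 0 536870912 0) ndF2q2b ndF0q2 pcF0 Cut.none Ext.none)

def k0_pp_202_b : ∃ t, chk3 f_pp_202_b t 1 1 1 = true :=
  ⟨(l 3), by decide +kernel⟩

theorem c_pp_202_b : CertFX 1239849684 370763052 0 536870912 1046898278 26843546 false true true .pp 2 0 2
    ndF2q2b ndF0q2 pcF0 Cut.none Ext.none :=
  certFX0 (fam := false) (s1 := true) (s2 := true) (a := 2) (b := 0) (c := 2) (cn := .pp) (n1 := ndF2q2b) (n2 := ndF0q2) (pc := pcF0) (cut := Cut.none) (xt := Ext.none) (P1 := 1239849684) (W1 := 370763052) (P2 := 0) (W2 := 536870912) (P3 := 1046898278) (W3 := 26843546)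
    rfl k0_pp_202_b

noncomputable def f_pm_001 : ℕ → ℕ → ℕ → ℕ → Bool := onCell 67108864 469762048 536870912 536870912 1046898278 26843546
    (rowFX 0 false true false .up 0 0 1 (qsf 67108864 469762048 536870912 536870912 0) ndF2q0 ndF0q1 pcF0 Cut.none Ext.none)

def k0_pm_001 : ∃ t, chk3 f_pm_001 t 1 1 1 = true :=
  ⟨(b (l 4) (a (b (l 4) (l 2)) (l 4))), by decide +kernel⟩

theorem c_pm_001 : CertFX 67108864 469762048 536870912 536870912 1046898278 26843546 false true false .up 0 0 1
    ndF2q0 ndF0q1 pcF0 Cut.none Ext.none :=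
  certFX0 (fam := false) (s1 := true) (s2 := false) (a := 0) (b := 0) (c := 1) (cn := .up) (n1 := ndF2q0) (n2 := ndF0q1) (pc := pcF0) (cut := Cut.none) (xt := Ext.none) (P1 := 67108864) (W1 := 469762048) (P2 := 536870912) (W2 := 536870912) (P3 := 1046898278) (W3 := 26843546)
    rfl k0_pm_001

noncomputable def f_pm_011 : ℕ → ℕ → ℕ → ℕ → Bool := onCell 67108864 469762048 536870912 536870912 1046898278 26843546
    (rowFX 0 false true false .pnn 0 1 1 (qsf 67108864 469762048 536870912 536870912 1) ndF2q0 ndF0q1 pcF1 Cut.none Ext.none)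

def k0_pm_011 : ∃ t, chk3 f_pm_011 t 1 1 1 = true :=
  ⟨(b (l 4) (a (b (l 4) (l 4)) (l 4))), by decide +kernel⟩

theorem c_pm_011 : CertFX 67108864 469762048 536870912 536870912 1046898278 26843546 false true false .pnn 0 1 1
    ndF2q0 ndF0q1 pcF1 Cut.none Ext.none :=
  certFX0 (fam := false) (s1 := true) (s2 := false) (a := 0) (b := 1) (c := 1) (cn := .pnn) (n1 := ndF2q0) (n2 := ndF0q1) (pc := pcF1) (cut := Cut.none) (xt := Ext.none) (P1 := 67108864) (W1 := 469762048) (P2 := 536870912) (W2 := 536870912) (P3 := 1046898278) (W3 := 26843546)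
    rfl k0_pm_011

end Pool.Agent.Strip051.G.IE1.Tab.C.FB20

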