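import Pool.Agent.Strip051.G.IE1.Tab

/-! # Certificates F43 (generated) -/

set_option linter.all false
set_option maxRecDepth 100000

namespace Pool.Agent.Strip051.G.IE1.Tab.C.FB20

open Pool.Agent.Strip051.PB Pool.Agent.Strip051.PB.T
open Pool.Agent.Strip051.G.IE1.Tab

noncomputable def f_pm_012 : ℕ → ℕ → ℕ → ℕ → Bool := onCell 536870912 536870912 0 536870912 1046898278 26843546
    (rowFX 2 false true false .pnp 0 1 2 (qsf 67108864 469762048 0 536870912 1) ndF2q0 ndF0q2 pcF1 Cut.none Ext.none)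

def k0_pm_012 : ∃ t, chk3 f_pm_012 t 2 1 1 = true :=
  ⟨(a (b (b (l 2) (b (l 2) (c (l 16777216) (l 16777216)))) (b (b (c (l 16777216) (l 16777216)) (b (l 16728592) (l 16590024))) (b (c (l 16263584) (l 16336304)) (c (a (l 15744856) (b (l 16045520) (l 4))) (a (l 15952016) (l 15805216)))))) (b (b (b (c (l 16777216) (l 16777216)) (l 16777216)) (c (l 16777216) (l 16777216))) (b (b (c (c (l 16777216) (l 16777216)) (l 16777216)) (a (b (l 16728592) (l 16592504)) (b (l 16728592) (l 16590024)))) (b (b (a (a (l 16442136) (l 16469664)) (b (l 16438064) (l 16504656))) (a (a (l 16270016) (l 16361960)) (a (l 16466672) (l 16575248)))) (b (b (a (a (l 16117280) (l 16260640)) (a (l 16430456) (l 16486024))) (a (a (l 16027936) (l 16189568)) (l 4))) (l 4)))))), by decide +kernel⟩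

def k1_pm_012 : ∃ t, chk3 f_pm_012 t 3 2 1 = true :=
  ⟨(a (b (b (c (a (l 16774376) (a (l 16760216) (l 16776472))) (a (l 16774304) (a (l 16759776) (b (l 16767944) (l 16765968))))) (a (l 16774664) (a (l 16761736) (c (l 16736992) (l 16735944))))) (a (c (l 16775136) (l 16775088)) (a (c (l 16764384) (l 16764048)) (b (l 16467056) (a (l 16758368) (l 16561920)))))) (a (b (b (a (b (l 16680792) (l 16608120)) (b (l 16559584) (l 16446360))) (a (c (l 16505088) (l 16498016)) (c (l 16294592) (l 16282096)))) (a (b (l 16236888) (b (l 16261160) (l 16201376))) (b (c (l 16111024) (l 16093872)) (c (l 15977008) (l 15956560))))) (b (b (a (c (b (l 16570912) (l 16425368)) (b (l 16568944) (l 16424472))) (c (b (l 16570120) (l 16492208)) (b (l 16552288) (a (l 16478544) (l 16515664))))) (a (c (b (l 16290928) (l 16167808)) (l 16231392)) (c (b (l 16300936) (l 16164048)) (b (l 16244152) (l 16067184))))) (a (b (c (l 15944688) (l 16012424)) (c (a (l 15879888) (l 15800504)) (l 15844216))) (b (c (a (l 15944464) (l 15948336))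 (a (l 15977072) (c (l 15948456) (l 15954440)))) (c (a (l 15713312) (l 15692256)) (a (l 15759152) (c (l 15692672) (l 15700968))))))))), by decide +kernel⟩

def k2_pm_012 : ∃ t, chk3 f_pm_012 t 6 6 1 = true :=
  ⟨(b (a (a (l 16777200) (l 16773760)) (a (l 16766616) (b (l 16464904) (l 16363240)))) (b (a (a (l 16728624) (a (l 16609568) (c (l 16745688) (l 16532616)))) (a (b (l 16752704) (a (c (l 16716768) (l 16709208)) (c (b (l 16705576) (l 16699416)) (a (l 16713504) (l 16464712))))) (a (l 16759976) (l 16486648)))) (a (a (l 16590224) (c (l 16627184) (l 16623464))) (b (a (c (a (a (l 16715944) (l 16710248)) (b (a (l 16672008) (l 16676232)) (a (l 16696136) (a (l 16690344) (l 16683128))))) (a (l 16710376) (b (a (l 16661248) (l 16517456)) (l 16701608)))) (b (a (a (b (l 16645144) (a (c (l 16670808) (l 16639936)) (c (l 16648024) (l 16640224)))) (l 16722656)) (l 16573248)) (a (a (c (a (l 16688168) (b (a (l 16640496) (l 16647888)) (l 16679448))) (b (l 16642344) (l 16690488))) (a (c (c (l 16705928)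 (l 16700000)) (b (l 16679440) (l 16686768))) (b (l 16730520) (c (b (l 16733488) (l 16730608)) (l 16730920))))) (a (a (c (l 16671376) (b (l 16676992) (l 16683352))) (l 16637392)) (l 16562560))))) (a (b (a (l 16610792) (b (a (l 16622008) (l 16655008)) (l 16581584))) (l 16522088)) (a (a (b (b (a (l 16677128) (l 16711952)) (c (l 16466784) (l 16631488))) (l 16526800)) (b (b (c (a (l 16721512) (l 16670680)) (l 16697736)) (c (l 16530848) (l 16616168))) (c (c (l 16580288) (l 16500960)) (b (l 16564952) (l 16508608))))) (c (a (b (a (a (l 16646088) (l 16526792)) (l 16448424)) (b (l 16643112) (l 16544312))) (c (l 16505072) (l 16424712))) (a (b (b (a (l 16689560) (l 16652936)) (l 16535072)) (b (l 16573800) (l 16518792))) (c (l 16344512) (a (l 16520456) (l 16573976))))))))))), by decide +kernel⟩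

def k3_pm_012 : ∃ t, chk3 f_pm_012 t 6 7 1 = true :=
  ⟨(b (a (b (a (b (l 16490888) (l 16509960)) (b (l 16662896) (a (l 16586528) (l 16515400)))) (a (b (l 16627024) (l 16459592)) (b (l 16294392) (l 16188216)))) (a (b (a (b (l 16469792) (l 16265952)) (b (l 16362536) (b (l 16224928) (l 16136352)))) (a (b (l 16211792) (l 16079704)) (b (a (l 16090592) (l 16045952)) (l 16006000)))) (b (b (a (l 16297384) (b (c (a (l 16499376) (l 16488320)) (a (b (l 16475376) (l 16417736)) (b (l 16476104) (l 16442912)))) (l 16361064))) (a (l 16044336) (l 16227016))) (b (a (b (a (l 16017296) (l 16024776)) (l 15990152)) (b (l 16088728) (b (l 16058432) (l 16034272)))) (a (l 15969032) (l 16000056)))))) (b (a (b (a (b (l 16333816) (l 16259024)) (c (l 15868208) (l 16083912))) (l 4)) (a (b (b (l 15987816) (a (l 15978064) (l 15966120))) (l 4)) (b (a (c (l 15964992) (l 15945368)) (c (l 15966704) (l 15947048))) (l 4)))) (l 4))), by decide +kernel⟩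

def k4_pm_012 : ∃ t, chk3 f_pm_012 t 28 3 1 = true :=
  ⟨(b (b (c (a (l 16257064) (l 16062432)) (l 16005232)) (a (b (l 16282200) (a (b (l 16443016) (c (a (l 16454200) (l 16468888)) (c (l 16453936) (l 16434856)))) (c (l 16379440) (c (l 16188320) (l 16344968))))) (b (l 16106544) (l 16248720)))) (b (b (a (b (a (c (b (b (l 16512288) (l 16359696)) (l 16345872)) (b (b (l 16524208) (l 16434208)) (b (l 16409792) (l 16362416)))) (b (c (l 16449944) (c (l 16472392) (l 16473512))) (c (c (l 16390680) (l 16374024)) (l 16248344)))) (l 16287784)) (c (b (a (a (b (l 16374280) (l 16300096)) (l 16332128)) (l 16101984)) (a (l 16256208) (b (b (l 16351816) (l 16317360)) (l 16295984)))) (b (a (b (l 16264608) (b (l 16320808) (l 16315088))) (l 16181616)) (a (b (l 16269744) (l 16278328)) (a (l 16233016) (b (l 16274120) (l 16312440))))))) (a (b (b (l 16192272) (a (l 16109560) (l 16153360))) (a (l 16044424) (b (l 16119152) (l 16058064)))) (b (a (l 16224464) (l 16239104)) (b (a (l 16171136) (c (l 16196104) (l 16184840)))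 (c (l 16130992) (l 16116704)))))) (b (b (a (c (l 15983072) (l 15963792)) (c (a (l 16016040) (l 16050232)) (l 16015320))) (b (a (c (l 15966448) (l 15943096)) (c (a (l 15956584) (c (l 15977688) (l 15962152))) (l 15944312))) (l 4))) (l 4)))), by decide +kernel⟩

def k5_pm_012 : ∃ t, chk3 f_pm_012 t 29 6 1 = true :=
  ⟨(b (c (l 15788928) (l 15892952)) (b (c (l 15945416) (l 15924728)) (c (l 16070576) (l 16053688)))), by decide +kernel⟩

def k6_pm_012 : ∃ t, chk3 f_pm_012 t 29 14 1 = true :=
  ⟨(a (b (b (c (l 16236872) (l 16089264)) (b (c (c (l 16205232) (l 16202968)) (l 16073544)) (a (c (a (l 16302440) (l 16214896)) (l 16282128)) (c (c (l 16111056) (l 16109040)) (c (l 16148144) (l 16061224)))))) (b (a (c (l 16234472) (l 16226552)) (b (c (l 16195152) (l 16255848)) (l 16188296))) (a (c (b (l 16187424) (l 16161984)) (l 16157848)) (c (c (l 16103592) (l 16153648)) (l 16146568))))) (a (b (b (l 16145160) (c (a (l 16099656) (l 16215824)) (l 16139600))) (b (c (a (b (b (l 16289504) (l 16241216)) (l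 16233328)) (b (l 16162256) (l 16231176))) (b (b (l 16265072) (a (l 16238688) (l 16261064))) (l 16232120))) (c (c (l 16145480) (l 16157176)) (l 16151104)))) (b (l 16120424) (c (b (c (b (l 16149720) (a (l 16165728) (b (l 16238304) (l 16237992)))) (b (l 16189488) (a (l 16188872) (b (l 16236592) (l 16240136))))) (a (l 16163912) (c (l 16186640) (l 16198304)))) (b (b (c (l 16207128) (l 16182464)) (b (a (l 16159080) (l 16231896)) (c (l 16161408) (l 16203928)))) (a (l 16164272) (l 16133648))))))), by decide +kernel⟩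

def k7_pm_012 : ∃ t, chk3 f_pm_012 t 29 15 1 = true :=
  ⟨(b (c (b (a (c (a (l 16062384) (l 16068384)) (l 16076856)) (b (a (c (l 16111192) (l 16130464)) (c (a (l 16100672) (l 16098952)) (a (l 16123936) (l 16123032)))) (a (c (l 16052400) (l 16077424)) (c (l 16070728) (l 16099712))))) (a (a (b (c (l 15989504) (l 15980640)) (l 4)) (c (b (l 15994144) (l 138208838359)) (b (l 16003032) (l 16027488)))) (a (b (c (l 16009696) (l 16033496)) (b (c (l 16005016) (l 16026432)) (l 4))) (c (b (l 16046352) (a (l 16047040) (l 16061920))) (c (b (l 16074928) (a (l 16082504) (l 16012096))) (l 16093552)))))) (a (b (l 16066648) (b (l 15983736) (l 16007888))) (b (b (a (l 16124648) (l 16119368)) (a (l 16068536) (l 16098960))) (b (l 15989048) (a (l 16034856) (l 16084376)))))) (l 4)), by decide +kernel⟩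

def k8_pm_012 : ∃ t, chk3 f_pm_012 t 15 6 1 = true :=
  ⟨(a (b (c (a (c (l 15779504) (l 15787248)) (b (l 15690120) (l 15632096))) (b (l 15750184) (l 15704800))) (c (a (b (l 15736016) (l 15862128)) (b (l 15629280) (l 15660488))) (b (l 15674064) (l 15738072)))) (b (c (a (b (l 15569440) (l 15491152)) (b (l 15532536) (l 15448280))) (a (l 15443768) (b (l 15540816) (a (l 15459072) (l 15438336))))) (c (a (b (c (l 15443328) (l 15493944)) (a (l 15591352) (c (l 15510896) (l 15553248)))) (b (c (l 15446728) (l 15439400)) (c (l 15577160) (l 15572344)))) (a (b (l 15544992) (c (l 15653768) (l 15665808))) (b (c (a (l 15442048) (l 15439296)) (a (l 15477384) (l 15446488))) (a (c (l 15573264) (l 15614344)) (c (l 15586200) (l 15597136)))))))), by decide +kernel⟩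

def k9_pm_012 : ∃ t, chk3 f_pm_012 t 15 14 2 = true :=
  ⟨(a (b (a (c (l 16014864) (l 16032736)) (c (l 15835864) (l 15799392))) (b (b (a (l 16058664) (l 15943824)) (a (a (c (a (c (a (a (l 16148016) (l 16200752)) (a (l 16127216) (l 16074304))) (l 16219040)) (l 16042168)) (l 16117480)) (l 16145824)) (l 16033048))) (a (c (a (b (a (a (a (l 16206544) (l 16203928)) (b (b (l 16185320) (l 16203272)) (l 16122512))) (c (b (c (l 16207608) (l 16143512)) (a (l 16192848) (l 16023208))) (b (l 16233632) (l 16235968)))) (a (l 16153440) (c (a (l 16162928) (l 16192720)) (l 16206760)))) (b (c (l 16081736) (a (b (l 16213504) (c (l 16178456) (l 16248160))) (l 16205616))) (a (c (b (l 16176984) (l 16198840)) (a (l 16227288) (b (b (l 16254368) (l 16228496)) (l 16240032)))) (b (c (l 16208008) (c (l 16247536) (l 16205312))) (c (l 16218832) (a (l 16224616) (b (l 16266656) (l 16249504)))))))) (a (b (a (b (l 16194936) (l 16213128)) (b (l 16232384) (l 16238024))) (l 16204280)) (b (l 16197616) (a (l 16118168) (b (l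 16274840) (l 16266280)))))) (a (b (l 16162304) (c (a (l 16173008) (l 16182512)) (c (a (c (l 16149720) (l 16282160)) (l 16259528)) (l 16273768)))) (l 16140208))))) (a (b (a (l 15670384) (c (l 15686832) (l 15735520))) (b (a (l 15927208) (l 15784720)) (a (l 16072184) (c (l 15936568) (l 16052336))))) (b (a (c (l 15730088) (l 15733096)) (b (l 15739072) (l 15844784))) (c (b (l 323764679031) (l 425233509655)) (a (b (l 15904960) (l 16041840)) (l 422012169623)))))), by decide +kernel⟩

def k10_pm_012 : ∃ t, chk3 f_pm_012 t 15 14 3 = true :=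
  ⟨(a (b (a (l 16019888) (l 15916072)) (a (b (a (c (l 16169912) (l 16060696)) (l 16126448)) (a (b (a (l 16158640) (b (l 16227496) (l 16200568))) (a (l 16164960) (l 16215080))) (b (l 16108624) (a (l 16234568) (b (l 16270648) (l 16258920)))))) (a (b (l 16089448) (a (l 16068072) (l 16098032))) (l 16142992)))) (a (b (c (l 15812112) (l 15849216)) (c (b (l 16014152) (l 16079168)) (l 16109848))) (b (a (c (l 15767480) (l 15814808)) (c (l 15780272) (a (l 15787560) (l 15792288)))) (a (c (l 375841160311) (l 15961584)) (c (l 471941168631) (a (l 516501437591) (l 1))))))), by decide +kernel⟩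

def k11_pm_012 : ∃ t, chk3 f_pm_012 t 30 30 2 = true :=
  ⟨(a (a (c (b (b (a (l 16122272) (l 16154688)) (a (b (l 16090776) (l 16094224)) (c (l 16080784) (l 16144680)))) (b (l 16097376) (a (l 16080752) (l 16105336)))) (b (b (l 16159784) (a (l 16101824) (l 16170488))) (b (l 16093256) (c (a (l 16116896) (l 16137352)) (l 16149184))))) (c (b (b (a (l 16182488) (a (l 16201904) (l 16207344))) (a (b (l 16166824) (l 16069976)) (l 16181048))) (b (a (l 16142920) (b (l 16135856) (l 16169840))) (a (l 16134448) (l 16167520)))) (b (b (l 16251040) (b (l 16221016) (l 16121696))) (b (a (l 16182376) (l 16200200)) (c (l 16176344) (l 16200992)))))) (b (a (c (b (a (b (l 16144000) (l 16237784)) (b (l 16237120) (l 16170744))) (a (l 16211816) (l 16243688))) (b (a (a (l 16251752) (b (b (l 16254680) (l 16197544)) (l 16203088))) (c (b (c (l 16305152) (l 16263320)) (a (l 16270056) (b (l 16329024) (l 16316760)))) (b (l 16333336) (l 16349488)))) (a (l 16267816) (c (a (l 16284344) (l 16313344)) (l 16327312))))) (c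 (b (l 16007864) (a (b (l 16194984) (l 16251976)) (b (l 16238744) (a (l 16254512) (l 16183128))))) (b (c (l 16194144) (a (c (l 16209328) (l 16341968)) (l 16319792))) (a (c (b (l 16272864) (l 16320952)) (a (l 16354248) (c (b (l 16310224) (l 16362848)) (l 16368560)))) (b (c (l 16320744) (c (l 16362528) (l 16300088))) (a (c (l 16328064) (l 16290072)) (b (l 16262224) (l 16307712)))))))) (b (a (a (c (l 16100936) (b (l 16227360) (l 16225840))) (c (l 16181408) (c (b (l 16273560) (l 16264112)) (l 16285016)))) (a (c (l 16246176) (c (l 16290984) (l 16320312))) (c (l 523481403959) (a (l 16332408) (l 594885398743))))) (a (c (l 16219280) (c (l 16238760) (l 16261456))) (a (a (c (l 16260256) (c (l 16282944) (l 16304840))) (l 1)) (l 1)))))), by decide +kernel⟩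

def k12_pm_012 : ∃ t, chk3 f_pm_012 t 30 30 3 = true :=
  ⟨(a (a (b (b (l 16160424) (l 16140272)) (b (l 16141936) (l 16142656))) (b (b (l 16257968) (a (l 16202704) (l 16239864))) (b (a (l 16196664) (l 16242288)) (l 16170584)))) (b (a (a (b (l 16237272) (l 16282592)) (b (b (l 16288680) (c (l 16329656) (l 16324320))) (l 16335232))) (b (c (l 16291920) (l 16289040)) (a (b (c (l 16317696) (l 16252976)) (l 16369072)) (b (c (l 16390976) (l 16388840)) (a (l 16369560) (b (l 16374704) (l 16399912))))))) (b (c (a (a (l 16276792) (b (l 16310496) (l 16306368))) (a (l 16340024) (l 16354904))) (a (a (l 16272288) (l 16302312)) (a (l 16341384) (l 16400200)))) (a (c (a (l 16268832) (l 16301512)) (l 16283896)) (a (c (b (l 16278872) (l 1)) (l 16347072)) (l 1)))))), by decide +kernel⟩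

def k13_pm_012 : ∃ t, chk3 f_pm_012 t 31 30 1 = true :=
  ⟨(b (a (a (b (c (l 16188224) (l 16314824)) (a (c (c (l 16175656) (l 16282912)) (b (l 16383376) (a (c (l 591127429143) (l 16415544)) (l 1)))) (l 1))) (l 1)) (l 1)) (l 1)), by decide +kernel⟩

def k14_pm_012 : ∃ t, chk3 f_pm_012 t 15 31 1 = true :=
  ⟨(a (b (b (a (a (l 4) (b (c (a (c (l 16161000) (l 160757821703)) (c (l 16182040) (l 16171432))) (c (l 16232904) (l 16226224))) (l 4))) (a (b (c (c (l 16208176) (a (l 16215744) (l 16260000))) (c (a (l 16271912) (l 16297272)) (l 16285928))) (a (l 4) (l 1))) (l 1))) (a (l 4) (l 1))) (l 4)) (l 1)), by decide +kernel⟩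

theorem s15_pm_012 : ∃ t, chk3 f_pm_012 t 30 30 1 = true := ex3_c k11_pm_012 k12_pm_012

theorem s16_pm_012 : ∃ t, chk3 f_pm_012 t 15 30 1 = true := ex3_a s15_pm_012 k13_pm_012

theorem s17_pm_012 : ∃ t, chk3 f_pm_012 t 15 15 1 = true := ex3_b s16_pm_012 k14_pm_012

theorem s18_pm_012 : ∃ t, chk3 f_pm_012 t 15 14 1 = true := ex3_c k9_pm_012 k10_pm_012

theorem s19_pm_012 : ∃ t, chk3 f_pm_012 t 15 7 1 = true := ex3_b s18_pm_012 s17_pm_012

theorem s20_pm_012 : ∃ t, chk3 f_pm_012 t 15 3 1 = true := ex3_b k8_pm_012 s19_pm_012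

theorem s21_pm_012 : ∃ t, chk3 f_pm_012 t 29 7 1 = true := ex3_b k6_pm_012 k7_pm_012

theorem s22_pm_012 : ∃ t, chk3 f_pm_012 t 29 3 1 = true := ex3_b k5_pm_012 s21_pm_012

theorem s23_pm_012 : ∃ t, chk3 f_pm_012 t 14 3 1 = true := ex3_a k4_pm_012 s22_pm_012

theorem s24_pm_012 : ∃ t, chk3 f_pm_012 t 7 3 1 = true := ex3_a s23_pm_012 s20_pm_012

theorem s25_pm_012 : ∃ t, chk3 f_pm_012 t 6 3 1 = true := ex3_b k2_pm_012 k3_pm_012

theorem s26_pm_012 : ∃ t, chk3 f_pm_012 t 3 3 1 = true := ex3_a s25_pm_012 s24_pm_012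

theorem s27_pm_012 : ∃ t, chk3 f_pm_012 t 3 1 1 = true := ex3_b k1_pm_012 s26_pm_012

theorem s28_pm_012 : ∃ t, chk3 f_pm_012 t 1 1 1 = true := ex3_a k0_pm_012 s27_pm_012

theorem c_pm_012 : CertFX 67108864 469762048 0 536870912 1046898278 26843546 false true false .pnp 0 1 2
    ndF2q0 ndF0q2 pcF1 Cut.none Ext.none :=
  certFX2 (fam := false) (s1 := true) (s2 := false) (a := 0) (b := 1) (c := 2) (cn := .pnp) (n1 := ndF2q0) (n2 := ndF0q2) (pc := pcF1) (cut := Cut.none) (xt := Ext.none) (P1 := 67108864) (W1 := 469762048) (P2 := 0) (W2 := 536870912) (P3 := 1046898278) (W3 := 26843546)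
    rfl (fun _ => rfl) s28_pm_012

noncomputable def f_pm_022 : ℕ → ℕ → ℕ → ℕ → Bool := onCell 1073741824 536870912 0 536870912 1046898278 26843546
    (rowFX 2 false true false .pp 0 2 2 (qsf 67108864 469762048 0 536870912 2) ndF2q0 ndF0q2 pcF2 Cut.none Ext.none)

def k0_pm_022 : ∃ t, chk3 f_pm_022 t 2 2 1 = true :=
  ⟨(a (a (b (b (a (c (b (b (l 16079440) (l 16035096)) (l 15945616)) (b (b (l 16086680) (l 16021344)) (l 15890040))) (c (b (b (a (l 16294960) (l 16313144)) (l 16140456)) (a (l 16157320) (l 16241288))) (b (b (a (l 16286592) (l 16413016)) (l 16302040)) (l 16059848)))) (a (c (b (l 15834928) (l 15734824)) (b (l 15821632) (l 15722080))) (c (c (a (l 16011264) (l 16184032)) (a (l 16011920) (l 16190096))) (b (l 15991336) (l 15915248))))) (c (a (b (l 15607448) (b (l 15502576) (l 15457104))) (b (a (l 15784448) (c (l 16074432) (l 16087264))) (c (a (l 15788408) (l 16031984)) (a (l 15797696) (l 16051680))))) (a (b (c (l 15595512) (l 15593064)) (c (l 15283488) (a (l 15358056) (l 15568888))))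 (b (a (l 15808152) (l 16087408)) (a (l 15681552) (l 16055240)))))) (b (b (a (c (b (a (b (l 16490120) (l 16548600)) (b (c (l 16470536) (l 16469008)) (a (l 16467392) (c (l 16463432) (l 16462280))))) (a (l 16423504) (c (l 16412120) (l 16515760)))) (b (a (b (l 16573896) (l 16548552)) (b (l 16466848) (l 16430024))) (a (l 16486536) (l 16451864)))) (l 1)) (a (c (a (b (l 16383544) (l 16316024)) (c (b (l 16479504) (l 16498912)) (l 16458992))) (a (l 16220736) (b (l 16543592) (l 16497808)))) (l 1))) (a (a (c (b (c (l 16195424) (l 16311104)) (b (l 16170768) (l 312490964631))) (b (l 16306560) (l 16276680))) (a (b (c (b (l 16451000) (l 16386440)) (l 16438448)) (l 1)) (l 1))) (l 1)))) (l 1)), by decide +kernel⟩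

def k1_pm_022 : ∃ t, chk3 f_pm_022 t 2 3 1 = true :=
  ⟨(a (b (a (b (a (c (b (a (l 15319504) (l 15539736)) (a (l 15314256) (l 15560568))) (c (a (l 15297464) (l 15301976)) (a (l 15272880) (l 15556896)))) (a (c (c (b (l 15787624) (l 15770328)) (b (l 15801392) (l 15824088))) (b (l 15816232) (l 15674704))) (c (c (b (l 16040416) (l 1)) (l 969083643367)) (l 357587857575)))) (b (a (c (a (l 15395376) (c (b (l 15608856) (l 15696904)) (l 15644584))) (c (a (l 15372920) (l 279203683943)) (a (l 15372240) (l 15663528)))) (a (c (c (l 658771912087) (l 737155084007)) (l 877278428199)) (l 1))) (a (c (a (b (l 15539288) (l 15482120)) (c (l 529385915303) (l 586294207991))) (a (c (l 15574656) (l 273834712583)) (c (l 652329355527) (l 15819432)))) (l 1)))) (l 1)) (a (b (b (a (a (c (b (l 318932391207) (l 492878779895)) (c (l 15638048) (a (l 517037664295) (l 596494850487)))) (l 1)) (l 1)) (l 1)) (l 1)) (l 1))) (l 1)), by decide +kernel⟩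

def k2_pm_022 : ∃ t, chk3 f_pm_022 t 3 1 1 = true :=
  ⟨(l 1), by decide +kernel⟩

theorem s3_pm_022 : ∃ t, chk3 f_pm_022 t 2 1 1 = true := ex3_b k0_pm_022 k1_pm_022

theorem s4_pm_022 : ∃ t, chk3 f_pm_022 t 1 1 1 = true := ex3_a s3_pm_022 k2_pm_022

theorem c_pm_022 : CertFX 67108864 469762048 0 536870912 1046898278 26843546 false true false .pp 0 2 2
    ndF2q0 ndF0q2 pcF2 Cut.none Ext.none :=
  certFX2 (fam := false) (s1 := true) (s2 := false) (a := 0) (b := 2) (c := 2) (cn := .pp) (n1 := ndF2q0) (n2 := ndF0q2) (pc := pcF2) (cut := Cut.none) (xt := Ext.none) (P1 := 67108864) (W1 := 469762048) (P2 := 0) (W2 := 536870912) (P3 := 1046898278) (W3 := 26843546)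
    rfl (fun _ => rfl) s4_pm_022

noncomputable def f_pm_101 : ℕ → ℕ → ℕ → ℕ → Bool := onCell 0 536870912 536870912 536870912 1046898278 26843546
    (rowFX 2 false true false .npn 1 0 1 (qsf 536870912 536870912 536870912 536870912 0) ndF2q1 ndF0q1 pcF0 Cut.none Ext.none)

def k0_pm_101 : ∃ t, chk3 f_pm_101 t 1 2 1 = true :=
  ⟨(l 4), by decide +kernel⟩

def k1_pm_101 : ∃ t, chk3 f_pm_101 t 1 6 1 = true :=
  ⟨(l 4), by decide +kernel⟩

def k2_pm_101 : ∃ t, chk3 f_pm_101 t 1 14 1 = true :=
  ⟨(a (b (l 4) (b (l 4) (a (a (a (a (c (a (l 16148408) (c (l 16173360) (l 16064280))) (a (c (a (l 16130440) (l 16140544)) (a (c (l 16124224) (l 16008752)) (l 16135824))) (c (l 16164912) (l 16160576)))) (c (a (l 16096128) (l 16229240)) (l 16208480))) (c (a (l 16268984) (l 4)) (l 16241192))) (l 4)) (l 4)))) (l 4)), by decide +kernel⟩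

def k3_pm_101 : ∃ t, chk3 f_pm_101 t 1 30 1 = true :=
  ⟨(a (a (a (a (a (c (a (c (l 15973448) (l 15953312)) (c (a (l 15980632) (l 15988536)) (a (l 15962880) (l 15964288)))) (a (c (a (l 15938816) (c (l 15947664) (l 15902968))) (a (c (l 15857208) (a (l 15755792) (l 15769328))) (l 15822088))) (c (l 15915096) (l 15861272)))) (c (c (a (l 16001216) (l 16009088)) (l 15973352)) (l 15798312))) (c (a (l 15934104) (l 15886232)) (a (l 16008032) (l 16044704)))) (a (c (c (l 16098384) (l 16079440)) (b (l 16151528) (l 15982472))) (c (l 16103496) (l 16066768)))) (a (c (l 16108648) (b (l 4) (l 15999080))) (l 4))) (l 4)), by decide +kernel⟩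

def k4_pm_101 : ∃ t, chk3 f_pm_101 t 1 31 1 = true :=
  ⟨(a (a (a (a (a (c (a (b (l 15746184) (c (l 15744392) (l 15735000))) (a (c (b (l 15809912) (l 15740192)) (b (l 15813992) (l 15737736))) (c (l 15785576) (b (l 15815504) (l 15748576))))) (a (c (a (b (l 15797296) (l 15729488)) (b (l 15634072) (c (l 15729728) (a (l 15728616) (l 15733600))))) (a (c (b (l 15692168) (a (l 15724952) (b (l 15706384) (l 15704592)))) (a (b (l 15464536) (c (l 15721104) (a (l 15606200) (l 15544704)))) (b (l 15477912) (l 15570176)))) (c (b (l 15630448) (l 15651688)) (l 15610168)))) (b (c (l 15730528) (l 15620952)) (c (b (l 15695104) (l 15654072)) (l 15551176))))) (c (c (a (b (l 15833144) (l 15764152)) (l 15784608)) (b (l 15788464) (l 15670600))) (b (l 15735736) (c (l 15609072) (l 15551792))))) (c (b (a (l 15825120) (l 15854256)) (a (l 15755792) (l 15773880))) (b (l 15823760) (c (l 15751904) (l 15747344))))) (a (c (b (l 15876624) (l 15782008)) (b (l 15861264) (l 15770016))) (c (l 15822944) (b (l 15855568) (l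 15748296))))) (a (c (b (l 15887352) (l 15762992)) (b (l 15873952) (l 15579640))) (c (l 15813560) (a (l 15848312) (l 15854760))))) (a (c (a (l 15858544) (l 15858544)) (a (l 15854768) (l 15854768))) (l 4))), by decide +kernel⟩

theorem s5_pm_101 : ∃ t, chk3 f_pm_101 t 1 15 1 = true := ex3_b k3_pm_101 k4_pm_101

theorem s6_pm_101 : ∃ t, chk3 f_pm_101 t 1 7 1 = true := ex3_b k2_pm_101 s5_pm_101

theorem s7_pm_101 : ∃ t, chk3 f_pm_101 t 1 3 1 = true := ex3_b k1_pm_101 s6_pm_101

theorem s8_pm_101 : ∃ t, chk3 f_pm_101 t 1 1 1 = true := ex3_b k0_pm_101 s7_pm_101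

theorem c_pm_101 : CertFX 536870912 536870912 536870912 536870912 1046898278 26843546 false true false .npn 1 0 1
    ndF2q1 ndF0q1 pcF0 Cut.none Ext.none :=
  certFX2 (fam := false) (s1 := true) (s2 := false) (a := 1) (b := 0) (c := 1) (cn := .npn) (n1 := ndF2q1) (n2 := ndF0q1) (pc := pcF0) (cut := Cut.none) (xt := Ext.none) (P1 := 536870912) (W1 := 536870912) (P2 := 536870912) (W2 := 536870912) (P3 := 1046898278) (W3 := 26843546)
    rfl (fun _ => rfl) s8_pm_101

noncomputable def f_pm_102 : ℕ → ℕ → ℕ → ℕ → Bool := onCell 0 536870912 0 536870912 1046898278 26843546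
    (rowFX 2 false true false .npp 1 0 2 (qsf 536870912 536870912 0 536870912 0) ndF2q1 ndF0q2 pcF0 Cut.none Ext.none)

def k0_pm_102 : ∃ t, chk3 f_pm_102 t 4 2 1 = true :=
  ⟨(a (l 2) (b (l 2) (a (l 2) (a (l 2) (b (l 2) (b (l 2) (c (l 16617528) (l 16614504)))))))), by decide +kernel⟩

def k1_pm_102 : ∃ t, chk3 f_pm_102 t 4 6 1 = true :=
  ⟨(a (l 2) (a (b (l 2) (b (a (l 2) (c (l 487042142903) (l 672262606983))) (a (a (l 2) (b (l 440334600471) (l 549319172823))) (c (l 16640344) (l 16621560))))) (b (b (c (a (l 398995301575) (l 16645304)) (a (l 539118603239) (l 16642856))) (c (a (l 451071854439) (l 16670360)) (a (l 600858833879) (l 16668400)))) (b (c (a (b (l 16642288) (l 16728792)) (l 16719056)) (a (a (l 16631160) (l 16728168)) (l 16739808))) (a (c (l 16581200) (l 16577432)) (c (l 16627160) (l 16623312))))))), by decide +kernel⟩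

def k2_pm_102 : ∃ t, chk3 f_pm_102 t 4 7 1 = true :=
  ⟨(a (a (b (l 2) (a (b (l 2) (a (b (l 2) (c (l 671723817591) (c (a (l 15752488) (c (l 15759000) (a (l 15755704) (l 15764928)))) (a (c (a (l 15745656) (l 711452210407)) (a (c (l 15659248) (l 697493400263)) (l 15663856))) (c (l 15758992) (l 15753792)))))) (c (c (a (l 680850576327) (l 15840384)) (a (b (l 15793768) (l 15776008)) (c (l 15846424) (l 699104272119)))) (c (a (c (l 710378490743) (l 717357850151)) (a (l 717894759303) (l 15843032))) (b (l 15870272) (l 15749208)))))) (c (b (a (a (l 2) (c (l 729706361575) (l 16080728))) (c (l 728095762759) (l 16080344))) (c (a (a (l 15861280) (l 15877840)) (l 15889568)) (a (b (l 15826352) (l 15808840)) (l 15873080)))) (b (c (b (l 667429356023) (l 434427420135)) (l 642733165479)) (c (b (l 15883200) (l 15800848)) (b (l 15891112) (l 15796216))))))) (a (b (b (l 2) (b (l 2) (c (c (l 16268752) (l 16244672)) (l 708232090487)))) (c (b (c (l 16100056) (b (l 16127016) (l 16031888))) (c (l 15895280) (l 15718024)))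 (b (b (l 519253286727) (l 16015456)) (b (l 15923768) (l 15831400))))) (b (b (a (l 2) (b (l 2) (c (l 16375016) (l 16449512)))) (c (c (b (l 16369912) (l 16259032)) (l 16303016)) (b (l 16350344) (l 16236216)))) (c (b (c (l 15998384) (l 16098400)) (c (l 15899760) (l 15904296))) (b (l 16082536) (l 15852712)))))) (b (a (b (c (a (c (l 391478720359) (l 507979727431)) (l 16487096)) (a (b (l 680315461799) (l 16444080)) (l 16479456))) (c (a (l 16310520) (l 16316712)) (a (l 16298400) (l 16305296)))) (b (c (l 16492032) (l 16484616)) (c (l 16338256) (l 16330760)))) (a (c (b (a (l 16116384) (l 16131008)) (l 15782344)) (b (l 16113944) (b (l 15957512) (l 15810432)))) (b (c (l 16106344) (l 16093608)) (c (l 15847040) (l 15836384)))))), by decide +kernel⟩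

def k3_pm_102 : ∃ t, chk3 f_pm_102 t 5 2 1 = true :=
  ⟨(a (b (a (a (l 2) (b (b (c (l 309337638967) (l 438723519719)) (c (l 16563272) (l 16558992))) (c (b (c (l 16531136) (l 16509664)) (c (l 16549600) (l 16610728))) (b (c (l 16569272) (l 16587320)) (l 520328096839))))) (b (c (b (l 16551544) (l 16633152)) (b (l 16570592) (l 16652720))) (c (b (a (b (l 16653536) (l 16665416)) (l 16725152)) (c (a (l 16674464) (l 16722200)) (l 16682784))) (b (a (l 16658456) (l 16725568)) (a (l 16672440) (l 16723440)))))) (b (a (b (c (a (l 328665125047) (c (l 16639200) (l 16638000))) (a (l 447313598967) (l 16615296))) (c (l 16589464) (l 16607832))) (c (c (b (l 16718376) (l 16684176)) (b (l 16718184) (l 16726048))) (b (l 16655136) (a (l 16702032) (l 16723112))))) (c (a (b (l 16611008) (l 16651392)) (l 16675584)) (a (b (l 16629832) (l 16670600)) (l 16738408))))) (b (a (b (c (b (l 16649304) (l 16647336)) (l 16646080)) (c (b (l 16647912) (c (l 16654784) (l 16654360))) (b (l 16643688) (l 16652248)))) (b (c (l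 16628720) (l 16624864)) (c (l 16600944) (l 16639400)))) (b (a (c (a (l 16685048) (l 16650736)) (l 16664448)) (c (l 16629208) (l 16668392))) (a (c (l 16695688) (l 16693840)) (l 16670512))))), by decide +kernel⟩

def k4_pm_102 : ∃ t, chk3 f_pm_102 t 5 3 1 = true :=
  ⟨(b (a (b (c (a (b (l 16668296) (l 16703264)) (l 16723256)) (a (b (l 16687808) (l 16702008)) (l 16743944))) (b (a (c (l 16749320) (l 16749128)) (l 16744688)) (a (l 16594520) (l 16653080)))) (b (a (c (l 16738600) (l 16737784)) (c (l 16763512) (l 16763160))) (a (b (l 16742488) (l 16595624)) (b (l 16713480) (l 16569656))))) (b (a (b (c (l 16513144) (l 16509240)) (c (l 16274080) (l 16255728))) (c (b (l 16422120) (l 16233376)) (a (l 16184208) (l 16321840)))) (a (c (b (l 16024640) (l 15765352)) (b (l 15954040) (a (l 15786352) (l 15788920)))) (c (b (l 16029984) (l 15840528)) (b (l 16008400) (l 15582896)))))), by decide +kernel⟩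

def k5_pm_102 : ∃ t, chk3 f_pm_102 t 3 1 1 = true :=
  ⟨(b (c (b (a (a (b (l 16760928) (l 16767312)) (b (l 16766264) (l 16767744))) (b (l 16777216) (l 16777216))) (a (a (b (l 16776000) (l 16765288)) (b (l 16770280) (l 16773232))) (b (l 16777216) (a (l 16777216) (l 16777216))))) (b (a (b (a (l 16760504) (l 16765984)) (a (l 16767056) (l 16767496))) (b (l 16777216) (l 16777216))) (a (a (b (l 16754992) (l 16764984)) (b (l 16770104) (l 16773128))) (b (l 16777216) (a (l 16777216) (l 16777216)))))) (b (b (a (c (l 16765880) (l 16765584)) (c (l 16777216) (l 16777216))) (a (b (l 16681240) (l 16502648)) (b (l 16728592) (l 16590024)))) (a (b (c (l 16220008) (b (l 16427272) (l 16238928))) (c (b (l 16045448) (l 15850352)) (b (l 16026440) (l 15824856)))) (b (c (l 16326496) (l 16336304)) (a (c (l 15933600) (l 15952016)) (c (l 15891656) (l 15952016))))))), by decide +kernel⟩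

theorem s6_pm_102 : ∃ t, chk3 f_pm_102 t 5 1 1 = true := ex3_b k3_pm_102 k4_pm_102

theorem s7_pm_102 : ∃ t, chk3 f_pm_102 t 4 3 1 = true := ex3_b k1_pm_102 k2_pm_102

theorem s8_pm_102 : ∃ t, chk3 f_pm_102 t 4 1 1 = true := ex3_b k0_pm_102 s7_pm_102

theorem s9_pm_102 : ∃ t, chk3 f_pm_102 t 2 1 1 = true := ex3_a s8_pm_102 s6_pm_102

theorem s10_pm_102 : ∃ t, chk3 f_pm_102 t 1 1 1 = true := ex3_a s9_pm_102 k5_pm_102

theorem c_pm_102 : CertFX 536870912 536870912 0 536870912 1046898278 26843546 false true false .npp 1 0 2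
    ndF2q1 ndF0q2 pcF0 Cut.none Ext.none :=
  certFX2 (fam := false) (s1 := true) (s2 := false) (a := 1) (b := 0) (c := 2) (cn := .npp) (n1 := ndF2q1) (n2 := ndF0q2) (pc := pcF0) (cut := Cut.none) (xt := Ext.none) (P1 := 536870912) (W1 := 536870912) (P2 := 0) (W2 := 536870912) (P3 := 1046898278) (W3 := 26843546)
    rfl (fun _ => rfl) s10_pm_102

noncomputable def f_pm_112 : ℕ → ℕ → ℕ → ℕ → Bool := onCell 536870912 536870912 0 536870912 1046898278 26843546
    (rowFX 2 false true false .dn 1 1 2 (qsf 536870912 536870912 0 536870912 1) ndF2q1 ndF0q2 pcF1 Cut.none Ext.none)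

def k0_pm_112 : ∃ t, chk3 f_pm_112 t 1 1 1 = true :=
  ⟨(a (b (b (b (a (b (l 16777216) (l 16777216)) (c (l 16777216) (l 16777216))) (a (l 16777216) (l 199212662775))) (a (b (l 16777216) (c (l 16777216) (l 16777216))) (c (l 16777216) (l 310881812487)))) (b (a (b (c (l 16777216) (b (l 16777216) (l 16777216))) (b (l 16728592) (l 16590024))) (l 1)) (a (b (c (l 16305528) (l 16336304)) (a (c (l 15786800) (l 15952016)) (l 1))) (l 1)))) (l 1)), by decide +kernel⟩

theorem c_pm_112 : CertFX 536870912 536870912 0 536870912 1046898278 26843546 false true false .dn 1 1 2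
    ndF2q1 ndF0q2 pcF1 Cut.none Ext.none :=
  certFX2 (fam := false) (s1 := true) (s2 := false) (a := 1) (b := 1) (c := 2) (cn := .dn) (n1 := ndF2q1) (n2 := ndF0q2) (pc := pcF1) (cut := Cut.none) (xt := Ext.none) (P1 := 536870912) (W1 := 536870912) (P2 := 0) (W2 := 536870912) (P3 := 1046898278) (W3 := 26843546)
    rfl (fun _ => rfl) k0_pm_112

noncomputable def f_pm_202_a : ℕ → ℕ → ℕ → ℕ → Bool := onCell 0 420477299 0 536870912 1046898278 26843546
    (rowFX 0 false true false .pp 2 0 2 (qsf 0 420477299 0 536870912 0) ndF2q2a ndF0q2 pcF0 Cut.none Ext.none)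

def k0_pm_202_a : ∃ t, chk3 f_pm_202_a t 1 1 1 = true :=
  ⟨(l 3), by decide +kernel⟩

theorem c_pm_202_a : CertFX 0 420477299 0 536870912 1046898278 26843546 false true false .pp 2 0 2
    ndF2q2a ndF0q2 pcF0 Cut.none Ext.none :=
  certFX0 (fam := false) (s1 := true) (s2 := false) (a := 2) (b := 0) (c := 2) (cn := .pp) (n1 := ndF2q2a) (n2 := ndF0q2) (pc := pcF0) (cut := Cut.none) (xt := Ext.none) (P1 := 0) (W1 := 420477299) (P2 := 0) (W2 := 536870912) (P3 := 1046898278) (W3 := 26843546)
    rfl k0_pm_202_a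

noncomputable def f_pm_202_b : ℕ → ℕ → ℕ → ℕ → Bool := onCell 1239849684 370763052 0 536870912 1046898278 26843546
    (rowFX 0 false true false .pp 2 0 2 (qsf 1239849684 370763052 0 536870912 0) ndF2q2b ndF0q2 pcF0 Cut.none Ext.none)

def k0_pm_202_b : ∃ t, chk3 f_pm_202_b t 1 1 1 = true :=
  ⟨(l 3), by decide +kernel⟩

theorem c_pm_202_b : CertFX 1239849684 370763052 0 536870912 1046898278 26843546 false true false .pp 2 0 2
    ndF2q2b ndF0q2 pcF0 Cut.none Ext.none :=
  certFX0 (fam := false) (s1 := true) (s2 := false) (a := 2) (b := 0) (c := 2) (cn := .pp) (n1 := ndF2q2b) (n2 := ndF0q2) (pc := pcF0) (cut := Cut.none) (xt := Ext.none) (P1 := 1239849684) (W1 := 370763052) (P2 := 0) (W2 := 536870912) (P3 := 1046898278) (W3 := 26843546)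
    rfl k0_pm_202_b

noncomputable def f_mm_001 : ℕ → ℕ → ℕ → ℕ → Bool := onCell 67108864 469762048 536870912 536870912 1046898278 26843546
    (rowFX 0 false false false .up 0 0 1 (qsf 67108864 469762048 536870912 536870912 0) ndF2q0 ndF0q1 pcF0 Cut.none Ext.none)

def k0_mm_001 : ∃ t, chk3 f_mm_001 t 1 1 1 = true :=
  ⟨(l 5), by decide +kernel⟩

theorem c_mm_001 : CertFX 67108864 469762048 536870912 536870912 1046898278 26843546 false false false .up 0 0 1
    ndF2q0 ndF0q1 pcF0 Cut.none Ext.none :=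
  certFX0 (fam := false) (s1 := false) (s2 := false) (a := 0) (b := 0) (c := 1) (cn := .up) (n1 := ndF2q0) (n2 := ndF0q1) (pc := pcF0) (cut := Cut.none) (xt := Ext.none) (P1 := 67108864) (W1 := 469762048) (P2 := 536870912) (W2 := 536870912) (P3 := 1046898278) (W3 := 26843546)
    rfl k0_mm_001

noncomputable def f_mm_011 : ℕ → ℕ → ℕ → ℕ → Bool := onCell 67108864 469762048 536870912 536870912 1046898278 26843546
    (rowFX 0 false false false .pnn 0 1 1 (qsf 67108864 469762048 536870912 536870912 1) ndF2q0 ndF0q1 pcF1 Cut.none Ext.none)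

def k0_mm_011 : ∃ t, chk3 f_mm_011 t 1 1 1 = true :=
  ⟨(l 5), by decide +kernel⟩

theorem c_mm_011 : CertFX 67108864 469762048 536870912 536870912 1046898278 26843546 false false false .pnn 0 1 1
    ndF2q0 ndF0q1 pcF1 Cut.none Ext.none :=
  certFX0 (fam := false) (s1 := false) (s2 := false) (a := 0) (b := 1) (c := 1) (cn := .pnn) (n1 := ndF2q0) (n2 := ndF0q1) (pc := pcF1) (cut := Cut.none) (xt := Ext.none) (P1 := 67108864) (W1 := 469762048) (P2 := 536870912) (W2 := 536870912) (P3 := 1046898278) (W3 := 26843546)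
    rfl k0_mm_011

noncomputable def f_mm_012 : ℕ → ℕ → ℕ → ℕ → Bool := onCell 67108864 469762048 0 536870912 1046898278 26843546
    (rowFX 0 false false false .pnp 0 1 2 (qsf 67108864 469762048 0 536870912 1) ndF2q0 ndF0q2 pcF1 Cut.none Ext.none)

def k0_mm_012 : ∃ t, chk3 f_mm_012 t 1 1 1 = true :=
  ⟨(l 5), by decide +kernel⟩

theorem c_mm_012 : CertFX 67108864 469762048 0 536870912 1046898278 26843546 false false false .pnp 0 1 2
    ndF2q0 ndF0q2 pcF1 Cut.none Ext.none :=
  certFX0 (fam := false) (s1 := false) (s2 := false) (a := 0) (b := 1) (c := 2) (cn := .pnp) (n1 := ndF2q0) (n2 := ndF0q2) (pc := pcF1) (cut := Cut.none) (xt := Ext.none) (P1 := 67108864) (W1 := 469762048) (P2 := 0) (W2 := 536870912) (P3 := 1046898278) (W3 := 26843546)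
    rfl k0_mm_012

noncomputable def f_mm_022 : ℕ → ℕ → ℕ → ℕ → Bool := onCell 67108864 469762048 0 536870912 1046898278 26843546
    (rowFX 0 false false false .pp 0 2 2 (qsf 67108864 469762048 0 536870912 2) ndF2q0 ndF0q2 pcF2 Cut.none Ext.none)

def k0_mm_022 : ∃ t, chk3 f_mm_022 t 1 1 1 = true :=
  ⟨(l 5), by decide +kernel⟩

theorem c_mm_022 : CertFX 67108864 469762048 0 536870912 1046898278 26843546 false false false .pp 0 2 2
    ndF2q0 ndF0q2 pcF2 Cut.none Ext.none :=
  certFX0 (fam := false) (s1 := false) (s2 := false) (a := 0) (b := 2) (c := 2) (cn := .pp) (n1 := ndF2q0) (n2 := ndF0q2) (pc := pcF2) (cut := Cut.none) (xt := Ext.none) (P1 := 67108864) (W1 := 469762048) (P2 := 0) (W2 := 536870912) (P3 := 1046898278) (W3 := 26843546)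
    rfl k0_mm_022

noncomputable def f_mm_101 : ℕ → ℕ → ℕ → ℕ → Bool := onCell 536870912 536870912 536870912 536870912 1046898278 26843546
    (rowFX 0 false false false .npn 1 0 1 (qsf 536870912 536870912 536870912 536870912 0) ndF2q1 ndF0q1 pcF0 Cut.none Ext.none)

def k0_mm_101 : ∃ t, chk3 f_mm_101 t 1 1 1 = true :=
  ⟨(l 3), by decide +kernel⟩

theorem c_mm_101 : CertFX 536870912 536870912 536870912 536870912 1046898278 26843546 false false false .npn 1 0 1
    ndF2q1 ndF0q1 pcF0 Cut.none Ext.none :=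
  certFX0 (fam := false) (s1 := false) (s2 := false) (a := 1) (b := 0) (c := 1) (cn := .npn) (n1 := ndF2q1) (n2 := ndF0q1) (pc := pcF0) (cut := Cut.none) (xt := Ext.none) (P1 := 536870912) (W1 := 536870912) (P2 := 536870912) (W2 := 536870912) (P3 := 1046898278) (W3 := 26843546)
    rfl k0_mm_101

noncomputable def f_mm_102 : ℕ → ℕ → ℕ → ℕ → Bool := onCell 536870912 536870912 0 536870912 1046898278 26843546
    (rowFX 0 false false false .npp 1 0 2 (qsf 536870912 536870912 0 536870912 0) ndF2q1 ndF0q2 pcF0 Cut.none Ext.none)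

def k0_mm_102 : ∃ t, chk3 f_mm_102 t 1 1 1 = true :=
  ⟨(l 5), by decide +kernel⟩

theorem c_mm_102 : CertFX 536870912 536870912 0 536870912 1046898278 26843546 false false false .npp 1 0 2
    ndF2q1 ndF0q2 pcF0 Cut.none Ext.none :=
  certFX0 (fam := false) (s1 := false) (s2 := false) (a := 1) (b := 0) (c := 2) (cn := .npp) (n1 := ndF2q1) (n2 := ndF0q2) (pc := pcF0) (cut := Cut.none) (xt := Ext.none) (P1 := 536870912) (W1 := 536870912) (P2 := 0) (W2 := 536870912) (P3 := 1046898278) (W3 := 26843546)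
    rfl k0_mm_102

noncomputable def f_mm_112 : ℕ → ℕ → ℕ → ℕ → Bool := onCell 536870912 536870912 0 536870912 1046898278 26843546
    (rowFX 0 false false false .dn 1 1 2 (qsf 536870912 536870912 0 536870912 1) ndF2q1 ndF0q2 pcF1 Cut.none Ext.none)

def k0_mm_112 : ∃ t, chk3 f_mm_112 t 1 1 1 = true :=
  ⟨(l 5), by decide +kernel⟩

theorem c_mm_112 : CertFX 536870912 536870912 0 536870912 1046898278 26843546 false false false .dn 1 1 2
    ndF2q1 ndF0q2 pcF1 Cut.none Ext.none :=
  certFX0 (fam := false) (s1 := false) (s2 := false) (a := 1) (b := 1) (c := 2) (cn := .dn) (n1 := ndF2q1) (n2 := ndF0q2) (pc := pcF1) (cut := Cut.none) (xt := Ext.none) (P1 := 536870912) (W1 := 536870912) (P2 := 0) (W2 := 536870912) (P3 := 1046898278) (W3 := 26843546)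
    rfl k0_mm_112

noncomputable def f_mm_202_a : ℕ → ℕ → ℕ → ℕ → Bool := onCell 0 420477299 0 536870912 1046898278 26843546
    (rowFX 0 false false false .pp 2 0 2 (qsf 0 420477299 0 536870912 0) ndF2q2a ndF0q2 pcF0 Cut.none Ext.none)

def k0_mm_202_a : ∃ t, chk3 f_mm_202_a t 1 1 1 = true :=
  ⟨(l 3), by decide +kernel⟩

theorem c_mm_202_a : CertFX 0 420477299 0 536870912 1046898278 26843546 false false false .pp 2 0 2
    ndF2q2a ndF0q2 pcF0 Cut.none Ext.none :=
  certFX0 (fam := false) (s1 := false) (s2 := false) (a := 2) (b := 0) (c := 2) (cn := .pp) (n1 := ndF2q2a) (n2 := ndF0q2) (pc := pcF0) (cut := Cut.none) (xt := Ext.none) (P1 := 0) (W1 := 420477299) (P2 := 0) (W2 := 536870912) (P3 := 1046898278) (W3 := 26843546)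
    rfl k0_mm_202_a

noncomputable def f_mm_202_b : ℕ → ℕ → ℕ → ℕ → Bool := onCell 1239849684 370763052 0 536870912 1046898278 26843546
    (rowFX 0 false false false .pp 2 0 2 (qsf 1239849684 370763052 0 536870912 0) ndF2q2b ndF0q2 pcF0 Cut.none Ext.none)

def k0_mm_202_b : ∃ t, chk3 f_mm_202_b t 1 1 1 = true :=
  ⟨(l 3), by decide +kernel⟩

theorem c_mm_202_b : CertFX 1239849684 370763052 0 536870912 1046898278 26843546 false false false .pp 2 0 2
    ndF2q2b ndF0q2 pcF0 Cut.none Ext.none :=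
  certFX0 (fam := false) (s1 := false) (s2 := false) (a := 2) (b := 0) (c := 2) (cn := .pp) (n1 := ndF2q2b) (n2 := ndF0q2) (pc := pcF0) (cut := Cut.none) (xt := Ext.none) (P1 := 1239849684) (W1 := 370763052) (P2 := 0) (W2 := 536870912) (P3 := 1046898278) (W3 := 26843546)
    rfl k0_mm_202_b

end Pool.Agent.Strip051.G.IE1.Tab.C.FB20

namespace Pool.Agent.Strip051.G.IE1.Tab.C.FB21

open Pool.Agent.Strip051.PB Pool.Agent.Strip051.PB.T
open Pool.Agent.Strip051.G.IE1.Tab

noncomputable def f_pp_001 : ℕ → ℕ → ℕ → ℕ → Bool := onCell 67108864 469762048 536870912 536870912 1046898278 26843546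
    (rowFX 0 false true true .up 0 0 1 (qsf 67108864 469762048 536870912 536870912 0) ndF2q0 ndF1q1 pcF0 Cut.none Ext.none)

def k0_pp_001 : ∃ t, chk3 f_pp_001 t 1 1 1 = true :=
  ⟨(l 3), by decide +kernel⟩

theorem c_pp_001 : CertFX 67108864 469762048 536870912 536870912 1046898278 26843546 false true true .up 0 0 1
    ndF2q0 ndF1q1 pcF0 Cut.none Ext.none :=
  certFX0 (fam := false) (s1 := true) (s2 := true) (a := 0) (b := 0) (c := 1) (cn := .up) (n1 := ndF2q0) (n2 := ndF1q1) (pc := pcF0) (cut := Cut.none) (xt := Ext.none) (P1 := 67108864) (W1 := 469762048) (P2 := 536870912) (W2 := 536870912) (P3 := 1046898278) (W3 := 26843546)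
    rfl k0_pp_001

noncomputable def f_pp_011 : ℕ → ℕ → ℕ → ℕ → Bool := onCell 67108864 469762048 536870912 536870912 1046898278 26843546
    (rowFX 0 false true true .pnn 0 1 1 (qsf 67108864 469762048 536870912 536870912 1) ndF2q0 ndF1q1 pcF1 Cut.none Ext.none)

def k0_pp_011 : ∃ t, chk3 f_pp_011 t 1 1 1 = true :=
  ⟨(l 3), by decide +kernel⟩

theorem c_pp_011 : CertFX 67108864 469762048 536870912 536870912 1046898278 26843546 false true true .pnn 0 1 1
    ndF2q0 ndF1q1 pcF1 Cut.none Ext.none :=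
  certFX0 (fam := false) (s1 := true) (s2 := true) (a := 0) (b := 1) (c := 1) (cn := .pnn) (n1 := ndF2q0) (n2 := ndF1q1) (pc := pcF1) (cut := Cut.none) (xt := Ext.none) (P1 := 67108864) (W1 := 469762048) (P2 := 536870912) (W2 := 536870912) (P3 := 1046898278) (W3 := 26843546)
    rfl k0_pp_011

noncomputable def f_pp_012_a : ℕ → ℕ → ℕ → ℕ → Bool := onCell 536870912 536870912 0 420477299 1046898278 26843546
    (rowFX 2 false true true .pnp 0 1 2 (qsf 67108864 469762048 0 420477299 1) ndF2q0 ndF1q2a pcF1 Cut.none Ext.none)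

def k0_pp_012_a : ∃ t, chk3 f_pp_012_a t 2 1 1 = true :=
  ⟨(b (a (l 2) (b (l 16777216) (a (a (b (l 16777208) (c (l 16777200) (l 16777200))) (c (l 16777208) (l 16777208))) (l 16777208)))) (a (a (b (l 2) (l 3)) (b (a (l 2) (c (b (l 16777192) (l 16777176)) (b (l 16777192) (l 123044101895)))) (b (a (b (l 2) (l 3)) (b (c (c (l 152639010903) (l 155860235367)) (c (l 160692072887) (b (l 16776712) (l 170355750439)))) (c (l 309942054903) (b (l 323900734071) (l 3))))) (l 3)))) (b (a (c (a (b (l 16777192) (l 16777176)) (b (l 16777192) (l 16777176))) (a (b (l 16777192) (l 16777168)) (b (l 16777192) (l 16777168)))) (c (b (a (l 16777192) (l 16777192)) (l 16777176)) (b (a (l 16777192) (l 16777192)) (l 16777168)))) (b (a (c (b (a (c (l 16763776) (l 16763600)) (l 16763688)) (a (c (l 16640120) (l 160155004327)) (l 16639496))) (a (b (c (l 16763424) (l 16763248)) (c (l 167671193943) (l 170355544711))) (b (c (l 16763424) (l 16763248)) (c (l 16679576) (l 16678328))))) (c (b (l 16721744) (l 16639496)) (b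 (a (l 16763336) (l 16763336)) (a (l 16678952) (l 16678952))))) (a (b (a (l 3) (c (l 276118876791) (a (l 304573023159) (l 171965907895)))) (l 3)) (c (b (a (l 16571992) (l 16571992)) (a (l 292224707671) (l 108614855111))) (b (a (l 16545688) (l 16566664)) (a (l 285245368263) (l 132237175383))))))))), by decide +kernel⟩

def k1_pp_012_a : ∃ t, chk3 f_pp_012_a t 6 1 1 = true :=
  ⟨(b (b (a (l 16773472) (a (l 16755368) (l 16758424))) (a (l 16773032) (a (l 16753112) (a (l 16741216) (l 16775408))))) (b (a (a (c (b (l 16777176) (l 16777160)) (b (l 16777176) (l 16777160))) (c (b (l 16768368) (l 16769368)) (b (l 16768136) (l 16769160)))) (b (a (l 16751344) (l 16695360)) (a (c (l 16753024) (b (l 16750968) (l 16753928))) (a (c (l 16739640) (l 16738656)) (b (l 16775456) (a (l 16755392) (l 16748696))))))) (a (b (c (a (b (l 16763680) (l 16681432)) (b (l 16758456) (l 16677536))) (a (b (l 16763328) (l 16678944)) (b (l 16757592) (l 16674584)))) (c (a (b (l 16571984) (l 16439472)) (l 16356056)) (a (b (l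 16566656) (l 16430704)) (b (l 16563656) (l 16429088))))) (b (a (c (l 16666232) (b (l 16744456) (l 16664200))) (a (c (l 16698840) (l 16694280)) (c (a (l 16625728) (l 16657152)) (b (l 16655936) (a (l 16665192) (l 16694032)))))) (a (c (b (l 16562512) (l 16433392)) (b (l 16555776) (l 16423672))) (a (b (c (l 16555368) (l 16546968)) (c (l 16419336) (l 16404872))) (b (c (l 16575072) (a (l 16549024) (l 16584160))) (c (l 16426240) (l 16406264))))))))), by decide +kernel⟩

def k2_pp_012_a : ∃ t, chk3 f_pp_012_a t 7 1 1 = true :=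
  ⟨(b (a (a (b (l 16678024) (l 16654888)) (b (l 16547160) (b (l 16527760) (l 16537648)))) (b (a (a (l 16534208) (l 16587848)) (a (l 16645800) (l 16678272))) (a (a (l 16555992) (l 16602256)) (a (l 16653712) (l 16583088))))) (a (b (a (b (l 16598472) (b (l 16604520) (a (c (l 16680568) (l 16678072)) (l 16649296)))) (b (l 16577360) (a (l 16644440) (l 16671816)))) (b (a (c (b (l 16699816) (l 16698032)) (b (a (l 16695616) (l 16698432)) (l 16695944))) (c (a (l 16719888) (l 16734984)) (a (l 16718984) (b (l 16724936) (l 16737720))))) (a (c (b (l 16687408) (l 16545872)) (b (l 16665480) (a (l 16484880) (l 16584720)))) (c (a (l 16650464) (l 16634096)) (a (l 16585328) (l 16632160)))))) (b (a (b (l 16645488) (l 16706176)) (b (l 16569816) (l 16561528))) (a (b (a (b (c (l 16679608) (l 16678296)) (l 16711080)) (c (b (l 16638552) (l 16679408)) (b (l 16636296) (l 16677928)))) (c (a (l 16630192) (b (l 16718472) (a (l 16660600) (l 16665072)))) (a (l 16607544) (b (l 16718848) (l 16645488))))) (b (a (b (l 16594768)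 (c (a (l 16650680) (l 16630544)) (l 16637896))) (c (b (l 16547768) (a (l 16602640) (l 16557808))) (b (l 16543488) (a (c (l 16579072) (l 16598448)) (c (l 16554656) (l 16510568)))))) (a (c (b (a (l 16717480) (l 16582112)) (a (c (l 16686664) (l 16689872)) (c (l 16721312) (l 16726992)))) (b (l 16697224) (l 16647672))) (c (b (a (l 16639784) (l 16580872)) (a (l 16614664) (l 16596376))) (b (a (l 16635008) (c (l 16577600) (l 16553904))) (a (c (l 16671776) (l 16669624)) (c (l 16591856) (a (l 16626416) (l 16574512)))))))))))), by decide +kernel⟩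

theorem s3_pp_012_a : ∃ t, chk3 f_pp_012_a t 3 1 1 = true := ex3_a k1_pp_012_a k2_pp_012_a

theorem s4_pp_012_a : ∃ t, chk3 f_pp_012_a t 1 1 1 = true := ex3_a k0_pp_012_a s3_pp_012_a

theorem c_pp_012_a : CertFX 67108864 469762048 0 420477299 1046898278 26843546 false true true .pnp 0 1 2
    ndF2q0 ndF1q2a pcF1 Cut.none Ext.none :=
  certFX2 (fam := false) (s1 := true) (s2 := true) (a := 0) (b := 1) (c := 2) (cn := .pnp) (n1 := ndF2q0) (n2 := ndF1q2a) (pc := pcF1) (cut := Cut.none) (xt := Ext.none) (P1 := 67108864) (W1 := 469762048) (P2 := 0) (W2 := 420477299) (P3 := 1046898278) (W3 := 26843546)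
    rfl (fun _ => rfl) s4_pp_012_a

noncomputable def f_pp_012_b : ℕ → ℕ → ℕ → ℕ → Bool := onCell 536870912 536870912 1239849684 370763052 1046898278 26843546
    (rowFX 2 false true true .pnp 0 1 2 (qsf 67108864 469762048 1239849684 370763052 1) ndF2q0 ndF1q2b pcF1 Cut.none Ext.none)

def k0_pp_012_b : ∃ t, chk3 f_pp_012_b t 1 1 1 = true :=
  ⟨(a (a (l 2) (b (b (l 16777216) (l 16777216)) (l 2))) (a (b (a (b (l 16773720) (l 16773792)) (a (l 16756992) (a (l 16746816) (l 16770144)))) (a (l 2) (l 16758136))) (b (a (b (a (l 16693136) (l 16572568)) (l 16643752)) (b (a (b (b (l 16440568) (l 16461048)) (l 16460672)) (b (b (l 16620016) (l 16405960)) (b (l 16377024) (l 16352144)))) (a (l 16478432) (l 16371912)))) (a (l 16653976) (b (l 16378464) (a (l 16503728) (l 16369376))))))), by decide +kernel⟩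

theorem c_pp_012_b : CertFX 67108864 469762048 1239849684 370763052 1046898278 26843546 false true true .pnp 0 1 2
    ndF2q0 ndF1q2b pcF1 Cut.none Ext.none :=
  certFX2 (fam := false) (s1 := true) (s2 := true) (a := 0) (b := 1) (c := 2) (cn := .pnp) (n1 := ndF2q0) (n2 := ndF1q2b) (pc := pcF1) (cut := Cut.none) (xt := Ext.none) (P1 := 67108864) (W1 := 469762048) (P2 := 1239849684) (W2 := 370763052) (P3 := 1046898278) (W3 := 26843546)
    rfl (fun _ => rfl) k0_pp_012_b

noncomputable def f_pp_022_a : ℕ → ℕ → ℕ → ℕ → Bool := onCell 67108864 469762048 0 420477299 1046898278 26843546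
    (rowFX 0 false true true .pp 0 2 2 (qsf 67108864 469762048 0 420477299 2) ndF2q0 ndF1q2a pcF2 Cut.none Ext.none)

def k0_pp_022_a : ∃ t, chk3 f_pp_022_a t 1 1 1 = true :=
  ⟨(a (a (a (b (b (a (a (c (b (l 16538520) (l 16543504)) (b (l 16536832) (l 16541848))) (c (l 16550312) (l 16549456))) (a (c (l 16438528) (l 16455960)) (b (l 16417368) (l 16456760)))) (a (a (c (b (l 16510824) (l 16479480)) (b (l 16529488) (l 16496744))) (c (l 16457328) (l 16477624))) (c (b (a (l 16539736) (l 16525864)) (a (l 16625200) (l 16634056))) (b (l 16510200) (l 16548872))))) (b (b (a (c (a (l 16434320) (l 16480648)) (l 16365504)) (a (c (l 16489120) (l 16506448)) (l 16458640))) (a (c (a (l 16312992) (l 16345608)) (a (l 16302384) (l 16336256))) (c (a (l 16320136) (l 16363120)) (a (l 16374304) (l 16374920))))) (a (b (c (b (a (l 16190264) (l 16213184)) (a (l 16153928) (l 16170832))) (b (a (l 16175552) (l 16199496)) (l 16143792))) (b (c (a (l 16120160) (l 16131408)) (l 16105728)) (a (b (a (b (l 16089480) (c (c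 (l 16093880) (l 16084936)) (c (a (l 16076584) (l 16073784)) (a (l 16067896) (l 16064920))))) (l 16084648)) (a (c (c (l 16113200) (l 16104512)) (c (b (l 16083512) (l 16107776)) (b (a (l 16079904) (l 16068968)) (l 16036592)))) (l 1))) (l 1)))) (b (a (c (b (l 16220496) (l 16193416)) (b (l 16228184) (l 16178448))) (b (c (l 16233808) (l 16219976)) (l 1))) (l 1))))) (a (b (b (b (l 16351200) (l 16335024)) (b (c (l 16495680) (l 16512920)) (b (l 16570408) (l 125660968663)))) (b (b (c (l 149282984039) (l 126197528823)) (b (c (l 16401984) (l 16414432)) (l 1))) (l 1))) (b (a (b (b (l 16267824) (l 16364528)) (b (l 353293834103) (l 1))) (b (l 1) (l 1))) (l 1)))) (b (l 1) (l 1))) (l 1)), by decide +kernel⟩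

theorem c_pp_022_a : CertFX 67108864 469762048 0 420477299 1046898278 26843546 false true true .pp 0 2 2
    ndF2q0 ndF1q2a pcF2 Cut.none Ext.none :=
  certFX0 (fam := false) (s1 := true) (s2 := true) (a := 0) (b := 2) (c := 2) (cn := .pp) (n1 := ndF2q0) (n2 := ndF1q2a) (pc := pcF2) (cut := Cut.none) (xt := Ext.none) (P1 := 67108864) (W1 := 469762048) (P2 := 0) (W2 := 420477299) (P3 := 1046898278) (W3 := 26843546)
    rfl k0_pp_022_a

noncomputable def f_pp_022_b : ℕ → ℕ → ℕ → ℕ → Bool := onCell 67108864 469762048 1073741824 536870912 1046898278 26843546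
    (rowFX 1 false true true .pp 0 2 2 (qsf 67108864 469762048 1239849684 370763052 2) ndF2q0 ndF1q2b pcF2 Cut.none Ext.none)

def k0_pp_022_b : ∃ t, chk3 f_pp_022_b t 1 1 1 = true :=
  ⟨(b (b (a (a (b (b (a (l 1) (a (l 345240344439) (l 330744408231))) (a (a (l 1) (a (c (l 16508936) (l 16505928)) (l 16394744))) (a (l 16251736) (l 16058656)))) (a (c (b (a (b (l 16351536) (a (l 16430352) (l 16448856))) (b (l 16372824) (l 16253872))) (a (a (l 16265656) (l 16180056)) (l 16018560))) (b (a (b (l 16432320) (l 16430984)) (b (l 16366616) (l 16266296))) (a (l 16213464) (l 16003448)))) (b (b (l 16107872) (l 16027696)) (l 15787168)))) (b (a (b (a (l 15895464) (l 15678720)) (l 15678584)) (l 15598960)) (a (b (l 15712776) (l 15494248)) (b (l 15617600) (l 15392712))))) (b (a (a (l 15582984) (l 15504144)) (b (l 15462584) (l 15491896))) (a (b (a (l 15609048) (l 15564784)) (l 15363680)) (l 15231200)))) (a (b (a (b (b (a (a (c (l 15924880) (l 15974376)) (c (l 15782016) (l 15760840))) (l 15566456)) (a (a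 (l 15874904) (l 15885192)) (l 15688904))) (a (a (b (l 16215200) (l 16194256)) (l 16136024)) (l 16178768))) (b (b (a (l 15300768) (l 15209344)) (a (l 15436784) (l 15345008))) (a (l 15933736) (l 15830240)))) (a (b (a (a (l 15762656) (l 16108272)) (l 16389696)) (a (a (l 15569048) (l 15876728)) (l 16200120))) (b (a (l 16520504) (l 16396768)) (l 16721296)))) (b (b (a (l 15271152) (l 2)) (l 15768896)) (b (l 16311528) (l 16572136))))) (a (b (a (a (b (a (l 15570256) (l 15880056)) (a (l 15567888) (l 15877216))) (b (l 16198080) (l 16192856))) (b (l 16638128) (l 16700016))) (a (a (b (l 15714208) (l 15714208)) (b (l 16191784) (l 2))) (l 2))) (l 2))), by decide +kernel⟩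

theorem c_pp_022_b : CertFX 67108864 469762048 1239849684 370763052 1046898278 26843546 false true true .pp 0 2 2
    ndF2q0 ndF1q2b pcF2 Cut.none Ext.none :=
  certFX1 (fam := false) (s1 := true) (s2 := true) (a := 0) (b := 2) (c := 2) (cn := .pp) (n1 := ndF2q0) (n2 := ndF1q2b) (pc := pcF2) (cut := Cut.none) (xt := Ext.none) (P1 := 67108864) (W1 := 469762048) (P2 := 1239849684) (W2 := 370763052) (P3 := 1046898278) (W3 := 26843546)
    rfl (fun _ => rfl) k0_pp_022_b

noncomputable def f_pp_023 : ℕ → ℕ → ℕ → ℕ → Bool := onCell 67108864 469762048 1073741824 536870912 1046898278 26843546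
    (rowFX 1 false true true .up 0 2 3 (qsf 67108864 469762048 1610612736 469762048 2) ndF2q0 ndF1q3 pcF2 Cut.none Ext.none)

def k0_pp_023 : ∃ t, chk3 f_pp_023 t 1 1 1 = true :=
  ⟨(b (b (a (l 1) (b (a (l 1) (l 379061334087)) (a (b (l 1) (l 15363680)) (l 15210224)))) (a (b (l 1) (a (l 1) (b (l 945462088487) (l 16721296)))) (b (b (a (l 15271152) (l 15262992)) (l 15747920)) (b (l 16311528) (l 16572136))))) (a (b (a (a (l 1) (b (l 1) (l 16192856))) (b (l 16617160) (l 16700016))) (a (a (b (l 15714208) (l 15714208)) (b (l 16191784) (l 16191784))) (b (l 16699056) (l 16699056)))) (b (b (l 16653720) (l 16771992)) (b (l 16771080) (l 16768176))))), by decide +kernel⟩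

theorem c_pp_023 : CertFX 67108864 469762048 1610612736 469762048 1046898278 26843546 false true true .up 0 2 3
    ndF2q0 ndF1q3 pcF2 Cut.none Ext.none :=
  certFX1 (fam := false) (s1 := true) (s2 := true) (a := 0) (b := 2) (c := 3) (cn := .up) (n1 := ndF2q0) (n2 := ndF1q3) (pc := pcF2) (cut := Cut.none) (xt := Ext.none) (P1 := 67108864) (W1 := 469762048) (P2 := 1610612736) (W2 := 469762048) (P3 := 1046898278) (W3 := 26843546)
    rfl (fun _ => rfl) k0_pp_023

noncomputable def f_pp_033 : ℕ → ℕ → ℕ → ℕ → Bool := onCell 67108864 469762048 1610612736 536870912 1046898278 26843546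
    (rowFX 1 false true true .pnn 0 3 3 (qsf 67108864 469762048 1610612736 469762048 3) ndF2q0 ndF1q3 pcF3 Cut.none Ext.none)

def k0_pp_033 : ∃ t, chk3 f_pp_033 t 1 1 1 = true :=
  ⟨(b (a (b (a (b (a (l 15714208) (l 16191784)) (a (c (l 15729880) (l 15696776)) (l 16065952))) (b (l 16699048) (a (l 16595896) (l 4)))) (a (b (a (b (l 15525464) (l 4)) (l 4)) (l 4)) (l 4))) (b (b (a (l 16771848) (l 4)) (l 4)) (a (l 4) (l 2)))) (a (b (a (l 4) (b (l 4) (l 2))) (a (b (l 4) (l 2)) (l 2))) (l 2))), by decide +kernel⟩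

theorem c_pp_033 : CertFX 67108864 469762048 1610612736 469762048 1046898278 26843546 false true true .pnn 0 3 3
    ndF2q0 ndF1q3 pcF3 Cut.none Ext.none :=
  certFX1 (fam := false) (s1 := true) (s2 := true) (a := 0) (b := 3) (c := 3) (cn := .pnn) (n1 := ndF2q0) (n2 := ndF1q3) (pc := pcF3) (cut := Cut.none) (xt := Ext.none) (P1 := 67108864) (W1 := 469762048) (P2 := 1610612736) (W2 := 469762048) (P3 := 1046898278) (W3 := 26843546)
    rfl (fun _ => rfl) k0_pp_033

noncomputable def f_pp_101 : ℕ → ℕ → ℕ → ℕ → Bool := onCell 536870912 536870912 536870912 536870912 1046898278 26843546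
    (rowFX 0 false true true .npn 1 0 1 (qsf 536870912 536870912 536870912 536870912 0) ndF2q1 ndF1q1 pcF0 Cut.none Ext.none)

def k0_pp_101 : ∃ t, chk3 f_pp_101 t 1 1 1 = true :=
  ⟨(l 3), by decide +kernel⟩

theorem c_pp_101 : CertFX 536870912 536870912 536870912 536870912 1046898278 26843546 false true true .npn 1 0 1
    ndF2q1 ndF1q1 pcF0 Cut.none Ext.none :=
  certFX0 (fam := false) (s1 := true) (s2 := true) (a := 1) (b := 0) (c := 1) (cn := .npn) (n1 := ndF2q1) (n2 := ndF1q1) (pc := pcF0) (cut := Cut.none) (xt := Ext.none) (P1 := 536870912) (W1 := 536870912) (P2 := 536870912) (W2 := 536870912) (P3 := 1046898278) (W3 := 26843546)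
    rfl k0_pp_101

noncomputable def f_pp_102_a : ℕ → ℕ → ℕ → ℕ → Bool := onCell 0 536870912 0 420477299 1046898278 26843546
    (rowFX 2 false true true .npp 1 0 2 (qsf 536870912 536870912 0 420477299 0) ndF2q1 ndF1q2a pcF0 Cut.none Ext.none)

def k0_pp_102_a : ∃ t, chk3 f_pp_102_a t 1 2 1 = true :=
  ⟨(a (a (l 2) (b (b (b (a (a (a (l 2) (l 16440664)) (a (l 16534856) (l 16633352))) (a (a (l 16726664) (l 16638640)) (a (c (l 16605224) (l 16600776)) (l 16649080)))) (a (a (l 3) (a (l 16531520) (l 16621888))) (a (a (l 16672408) (l 16667656)) (a (c (l 16618688) (l 16614624)) (l 16651264))))) (a (l 3) (a (b (c (l 334101176743) (l 320679402007)) (l 3)) (a (c (b (l 16634648) (l 16626264)) (b (l 16631048) (l 331953637575))) (c (l 16660552) (l 16657520)))))) (l 3))) (b (b (a (a (c (a (l 16723720) (l 16757272)) (a (l 16722328) (l 16756760))) (a (b (l 16759848) (l 16760120)) (l 16771840))) (l 16777216)) (a (a (a (c (l 16690104) (l 16688928)) (c (a (l 16758352) (l 16752104)) (l 16755440))) (c (a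 (l 16761288) (l 16772760)) (a (l 16760872) (l 16772640)))) (a (a (c (l 16777216) (l 16777216)) (c (l 16777216) (l 16777216))) (l 16777216)))) (b (a (a (a (c (b (l 327121982327) (l 3)) (l 506436941639)) (c (a (l 311015942615) (l 286856784535)) (c (l 296520430727) (l 16753328)))) (c (a (c (l 16763504) (l 16763328)) (l 16774176)) (a (l 16763056) (l 16774096)))) (a (c (a (l 16777208) (l 16777208)) (a (l 16777208) (l 16777208))) (c (a (c (l 16777208) (l 16777208)) (c (l 16777208) (l 16777208))) (a (l 16777208) (l 16777208))))) (a (a (l 3) (a (c (l 333027716343) (l 338396424919)) (a (c (l 302962961719) (l 312626628823)) (c (l 276119418199) (l 287393707351))))) (a (c (a (c (l 181630140391) (l 175187689431)) (c (l 16777200) (l 16777200))) (c (a (l 16777200) (l 16777200)) (l 123648081863))) (c (a (c (l 16777200) (l 16777200)) (l 16777200)) (a (c (l 16777200) (l 16777200)) (l 16777200)))))))), by decide +kernel⟩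

def k1_pp_102_a : ∃ t, chk3 f_pp_102_a t 1 3 1 = true :=
  ⟨(a (l 3) (a (l 3) (b (a (b (a (c (l 330343382999) (l 347523252183)) (c (c (l 287930580951) (l 296520515543)) (a (l 326048415703) (l 304036708311)))) (l 3)) (a (b (c (b (c (l 16777192) (l 16777192)) (a (l 293299290055) (l 250349617095))) (c (b (l 16777192) (l 285783097287)) (l 271824453511))) (l 3)) (b (c (c (l 175724560295) (l 178408914855)) (c (l 172503334791) (l 16777192))) (a (c (l 308868546487) (l 335712092071)) (c (l 283635613623) (l 314237255591)))))) (l 3)))), by decide +kernel⟩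

theorem s2_pp_102_a : ∃ t, chk3 f_pp_102_a t 1 1 1 = true := ex3_b k0_pp_102_a k1_pp_102_a

theorem c_pp_102_a : CertFX 536870912 536870912 0 420477299 1046898278 26843546 false true true .npp 1 0 2
    ndF2q1 ndF1q2a pcF0 Cut.none Ext.none :=
  certFX2 (fam := false) (s1 := true) (s2 := true) (a := 1) (b := 0) (c := 2) (cn := .npp) (n1 := ndF2q1) (n2 := ndF1q2a) (pc := pcF0) (cut := Cut.none) (xt := Ext.none) (P1 := 536870912) (W1 := 536870912) (P2 := 0) (W2 := 420477299) (P3 := 1046898278) (W3 := 26843546)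
    rfl (fun _ => rfl) s2_pp_102_a

noncomputable def f_pp_102_b : ℕ → ℕ → ℕ → ℕ → Bool := onCell 536870912 536870912 0 536870912 1046898278 26843546
    (rowFX 1 false true true .npp 1 0 2 (qsf 536870912 536870912 1239849684 370763052 0) ndF2q1 ndF1q2b pcF0 Cut.none Ext.none)

def k0_pp_102_b : ∃ t, chk3 f_pp_102_b t 1 1 1 = true :=
  ⟨(b (a (l 1) (a (l 1) (b (l 1) (b (a (l 1) (b (a (l 1) (c (b (l 1) (l 16407544)) (l 219612529943))) (c (a (l 16418568) (l 16508512)) (a (l 412349518327) (l 16525720))))) (a (b (a (l 1) (l 16644200)) (l 16669008)) (b (c (a (l 16604480) (l 16498608)) (a (l 16623312) (l 16473592))) (b (a (c (l 16524360) (l 16517808)) (c (l 16430616) (l 16421712))) (c (l 16469584) (l 16461592))))))))) (a (b (l 1) (a (l 1) (b (a (l 1) (b (l 16724312) (l 16776704))) (a (l 367253042871) (l 16777216))))) (a (b (b (a (l 1) (a (l 467647880759) (l 16759008))) (a (b (l 16617304) (l 16774656)) (l 16758872))) (a (l 16774200) (l 16758872))) (a (b (a (l 16716712) (l 16618976)) (l 16668408))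 (b (b (c (b (l 16469584) (l 16469584)) (a (l 16514136) (b (l 16408120) (l 16408120)))) (c (b (l 16469584) (l 16469584)) (b (l 16461592) (l 16461592)))) (b (a (l 16517464) (c (l 16417464) (l 16408120))) (b (b (l 16465584) (l 16465584)) (l 16465584)))))))), by decide +kernel⟩

theorem c_pp_102_b : CertFX 536870912 536870912 1239849684 370763052 1046898278 26843546 false true true .npp 1 0 2
    ndF2q1 ndF1q2b pcF0 Cut.none Ext.none :=
  certFX1 (fam := false) (s1 := true) (s2 := true) (a := 1) (b := 0) (c := 2) (cn := .npp) (n1 := ndF2q1) (n2 := ndF1q2b) (pc := pcF0) (cut := Cut.none) (xt := Ext.none) (P1 := 536870912) (W1 := 536870912) (P2 := 1239849684) (W2 := 370763052) (P3 := 1046898278) (W3 := 26843546)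
    rfl (fun _ => rfl) k0_pp_102_b

noncomputable def f_pp_112_a : ℕ → ℕ → ℕ → ℕ → Bool := onCell 536870912 536870912 0 420477299 1046898278 26843546
    (rowFX 2 false true true .dn 1 1 2 (qsf 536870912 536870912 0 420477299 1) ndF2q1 ndF1q2a pcF1 Cut.none Ext.none)

def k0_pp_112_a : ∃ t, chk3 f_pp_112_a t 1 1 1 = true :=
  ⟨(a (a (b (b (l 16777216) (a (c (a (b (l 16777208) (l 16777200)) (b (l 16777208) (l 16777200))) (a (b (l 16777208) (l 16777200)) (b (l 16777208) (l 16777200)))) (b (l 16777208) (a (c (a (l 16777200) (l 16777200)) (a (l 16777200) (l 16777200))) (c (l 16777200) (l 16777200)))))) (a (b (b (c (a (c (l 16777192) (l 16777192)) (c (l 16777192) (l 16777192))) (a (c (l 16777192) (l 16777192)) (c (l 16777192) (l 16777192)))) (c (a (b (c (l 210621169575) (l 207936815015)) (a (l 3) (l 306184191911))) (c (b (l 16777176) (l 224042942327)) (b (l 16777176) (l 229948522359)))) (c (b (a (l 186461978519) (l 16777176)) (a (l 311016030119) (l 242296553335))) (a (l 287393709991) (b (l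 16777176) (l 260550164295)))))) (l 3)) (b (c (a (b (l 16777192) (a (l 156397207431) (l 16777176))) (b (l 16777192) (l 16777176))) (a (b (l 16777192) (c (l 16777168) (l 16777168))) (b (l 16777192) (l 16777168)))) (b (a (b (a (c (l 315310949479) (b (l 283098729335) (l 3))) (c (l 211694810391) (b (l 16776712) (l 284709255047)))) (l 3)) (a (b (c (l 170355750167) (b (l 16776712) (l 221895358343))) (l 3)) (l 1))) (l 3))))) (a (b (b (l 16777216) (a (b (l 16777208) (c (l 16777200) (l 16777200))) (l 1))) (a (b (c (l 689375805207) (l 750579089015)) (l 1)) (l 1))) (l 1))) (l 1)), by decide +kernel⟩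

theorem c_pp_112_a : CertFX 536870912 536870912 0 420477299 1046898278 26843546 false true true .dn 1 1 2
    ndF2q1 ndF1q2a pcF1 Cut.none Ext.none :=
  certFX2 (fam := false) (s1 := true) (s2 := true) (a := 1) (b := 1) (c := 2) (cn := .dn) (n1 := ndF2q1) (n2 := ndF1q2a) (pc := pcF1) (cut := Cut.none) (xt := Ext.none) (P1 := 536870912) (W1 := 536870912) (P2 := 0) (W2 := 420477299) (P3 := 1046898278) (W3 := 26843546)
    rfl (fun _ => rfl) k0_pp_112_a

noncomputable def f_pp_112_b : ℕ → ℕ → ℕ → ℕ → Bool := onCell 536870912 536870912 1239849684 370763052 1046898278 26843546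
    (rowFX 2 false true true .dn 1 1 2 (qsf 536870912 536870912 1239849684 370763052 1) ndF2q1 ndF1q2b pcF1 Cut.none Ext.none)

def k0_pp_112_b : ∃ t, chk3 f_pp_112_b t 1 1 1 = true :=
  ⟨(a (a (b (b (l 16777216) (l 16775456)) (b (a (l 16769064) (l 16771184)) (a (b (l 16674272) (l 16537368)) (l 16742288)))) (b (l 97207189463) (l 16769488))) (a (a (a (l 398391768503) (l 400539224903)) (b (l 448320983959) (l 16758136))) (b (l 1) (a (l 16653976) (b (l 1) (l 580927184023)))))), by decide +kernel⟩

theorem c_pp_112_b : CertFX 536870912 536870912 1239849684 370763052 1046898278 26843546 false true true .dn 1 1 2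
    ndF2q1 ndF1q2b pcF1 Cut.none Ext.none :=
  certFX2 (fam := false) (s1 := true) (s2 := true) (a := 1) (b := 1) (c := 2) (cn := .dn) (n1 := ndF2q1) (n2 := ndF1q2b) (pc := pcF1) (cut := Cut.none) (xt := Ext.none) (P1 := 536870912) (W1 := 536870912) (P2 := 1239849684) (W2 := 370763052) (P3 := 1046898278) (W3 := 26843546)
    rfl (fun _ => rfl) k0_pp_112_b

noncomputable def f_pp_113 : ℕ → ℕ → ℕ → ℕ → Bool := onCell 536870912 536870912 536870912 536870912 1046898278 26843546
    (rowFX 1 false true true .nn 1 1 3 (qsf 536870912 536870912 1610612736 469762048 1) ndF2q1 ndF1q3 pcF1 Cut.none Ext.none)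

def k0_pp_113 : ∃ t, chk3 f_pp_113 t 1 1 1 = true :=
  ⟨(b (a (l 381211901911) (a (l 351683902503) (b (a (l 16668408) (l 16465584)) (l 16569048)))) (b (a (l 379064791367) (a (l 16770712) (b (l 16572360) (l 16586144)))) (a (b (l 16658792) (a (b (l 16491368) (l 16295352)) (l 16367192))) (a (b (l 16672000) (l 16393744)) (b (l 16458392) (a (l 16329128) (l 16236448))))))), by decide +kernel⟩

theorem c_pp_113 : CertFX 536870912 536870912 1610612736 469762048 1046898278 26843546 false true true .nn 1 1 3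
    ndF2q1 ndF1q3 pcF1 Cut.none Ext.none :=
  certFX1 (fam := false) (s1 := true) (s2 := true) (a := 1) (b := 1) (c := 3) (cn := .nn) (n1 := ndF2q1) (n2 := ndF1q3) (pc := pcF1) (cut := Cut.none) (xt := Ext.none) (P1 := 536870912) (W1 := 536870912) (P2 := 1610612736) (W2 := 469762048) (P3 := 1046898278) (W3 := 26843546)
    rfl (fun _ => rfl) k0_pp_113

noncomputable def f_pp_123 : ℕ → ℕ → ℕ → ℕ → Bool := onCell 1073741824 536870912 1610612736 469762048 1046898278 26843546
    (rowFX 2 false true true .npn 1 2 3 (qsf 536870912 536870912 1610612736 469762048 2) ndF2q1 ndF1q3 pcF2 Cut.none Ext.none)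

def k0_pp_123 : ∃ t, chk3 f_pp_123 t 1 1 1 = true :=
  ⟨(b (a (a (a (b (l 15422616) (l 15375416)) (b (l 15394232) (l 15350256))) (a (a (l 409662527271) (l 15779656)) (a (l 16305520) (l 16584560)))) (l 1)) (a (a (a (b (l 15366240) (l 15399768)) (b (l 15327048) (l 15328536))) (a (a (l 15259336) (l 15751112)) (a (l 16227968) (l 16486328)))) (a (a (l 16623016) (l 16768776)) (a (l 16771616) (l 16771616))))), by decide +kernel⟩

theorem c_pp_123 : CertFX 536870912 536870912 1610612736 469762048 1046898278 26843546 false true true .npn 1 2 3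
    ndF2q1 ndF1q3 pcF2 Cut.none Ext.none :=
  certFX2 (fam := false) (s1 := true) (s2 := true) (a := 1) (b := 2) (c := 3) (cn := .npn) (n1 := ndF2q1) (n2 := ndF1q3) (pc := pcF2) (cut := Cut.none) (xt := Ext.none) (P1 := 536870912) (W1 := 536870912) (P2 := 1610612736) (W2 := 469762048) (P3 := 1046898278) (W3 := 26843546)
    rfl (fun _ => rfl) k0_pp_123

noncomputable def f_pp_133 : ℕ → ℕ → ℕ → ℕ → Bool := onCell 536870912 536870912 1610612736 469762048 1046898278 26843546
    (rowFX 0 false true true .dn 1 3 3 (qsf 536870912 536870912 1610612736 469762048 3) ndF2q1 ndF1q3 pcF3 Cut.none Ext.none)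

def k0_pp_133 : ∃ t, chk3 f_pp_133 t 1 1 1 = true :=
  ⟨(l 1), by decide +kernel⟩

theorem c_pp_133 : CertFX 536870912 536870912 1610612736 469762048 1046898278 26843546 false true true .dn 1 3 3
    ndF2q1 ndF1q3 pcF3 Cut.none Ext.none :=
  certFX0 (fam := false) (s1 := true) (s2 := true) (a := 1) (b := 3) (c := 3) (cn := .dn) (n1 := ndF2q1) (n2 := ndF1q3) (pc := pcF3) (cut := Cut.none) (xt := Ext.none) (P1 := 536870912) (W1 := 536870912) (P2 := 1610612736) (W2 := 469762048) (P3 := 1046898278) (W3 := 26843546)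
    rfl k0_pp_133

noncomputable def f_pp_202_aa : ℕ → ℕ → ℕ → ℕ → Bool := onCell 0 420477299 0 420477299 1046898278 26843546
    (rowFX 0 false true true .pp 2 0 2 (qsf 0 420477299 0 420477299 0) ndF2q2a ndF1q2a pcF0 Cut.none Ext.none)

def k0_pp_202_aa : ∃ t, chk3 f_pp_202_aa t 1 1 1 = true :=
  ⟨(l 3), by decide +kernel⟩

theorem c_pp_202_aa : CertFX 0 420477299 0 420477299 1046898278 26843546 false true true .pp 2 0 2
    ndF2q2a ndF1q2a pcF0 Cut.none Ext.none :=
  certFX0 (fam := false) (s1 := true) (s2 := true) (a := 2) (b := 0) (c := 2) (cn := .pp) (n1 := ndF2q2a) (n2 := ndF1q2a) (pc := pcF0) (cut := Cut.none) (xt := Ext.none) (P1 := 0) (W1 := 420477299) (P2 := 0) (W2 := 420477299) (P3 := 1046898278) (W3 := 26843546)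
    rfl k0_pp_202_aa

noncomputable def f_pp_202_ab : ℕ → ℕ → ℕ → ℕ → Bool := onCell 0 420477299 1239849684 370763052 1046898278 26843546
    (rowFX 0 false true true .pp 2 0 2 (qsf 0 420477299 1239849684 370763052 0) ndF2q2a ndF1q2b pcF0 Cut.none Ext.none)

def k0_pp_202_ab : ∃ t, chk3 f_pp_202_ab t 1 1 1 = true :=
  ⟨(l 3), by decide +kernel⟩

theorem c_pp_202_ab : CertFX 0 420477299 1239849684 370763052 1046898278 26843546 false true true .pp 2 0 2
    ndF2q2a ndF1q2b pcF0 Cut.none Ext.none :=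
  certFX0 (fam := false) (s1 := true) (s2 := true) (a := 2) (b := 0) (c := 2) (cn := .pp) (n1 := ndF2q2a) (n2 := ndF1q2b) (pc := pcF0) (cut := Cut.none) (xt := Ext.none) (P1 := 0) (W1 := 420477299) (P2 := 1239849684) (W2 := 370763052) (P3 := 1046898278) (W3 := 26843546)
    rfl k0_pp_202_ab

noncomputable def f_pp_202_ba : ℕ → ℕ → ℕ → ℕ → Bool := onCell 1239849684 370763052 0 420477299 1046898278 26843546
    (rowFX 0 false true true .pp 2 0 2 (qsf 1239849684 370763052 0 420477299 0) ndF2q2b ndF1q2a pcF0 Cut.none Ext.none)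

def k0_pp_202_ba : ∃ t, chk3 f_pp_202_ba t 1 1 1 = true :=
  ⟨(l 3), by decide +kernel⟩

theorem c_pp_202_ba : CertFX 1239849684 370763052 0 420477299 1046898278 26843546 false true true .pp 2 0 2
    ndF2q2b ndF1q2a pcF0 Cut.none Ext.none :=
  certFX0 (fam := false) (s1 := true) (s2 := true) (a := 2) (b := 0) (c := 2) (cn := .pp) (n1 := ndF2q2b) (n2 := ndF1q2a) (pc := pcF0) (cut := Cut.none) (xt := Ext.none) (P1 := 1239849684) (W1 := 370763052) (P2 := 0) (W2 := 420477299) (P3 := 1046898278) (W3 := 26843546)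
    rfl k0_pp_202_ba

noncomputable def f_pp_202_bb : ℕ → ℕ → ℕ → ℕ → Bool := onCell 1239849684 370763052 1239849684 370763052 1046898278 26843546
    (rowFX 0 false true true .pp 2 0 2 (qsf 1239849684 370763052 1239849684 370763052 0) ndF2q2b ndF1q2b pcF0 Cut.none Ext.none)

def k0_pp_202_bb : ∃ t, chk3 f_pp_202_bb t 1 1 1 = true :=
  ⟨(l 3), by decide +kernel⟩

theorem c_pp_202_bb : CertFX 1239849684 370763052 1239849684 370763052 1046898278 26843546 false true true .pp 2 0 2
    ndF2q2b ndF1q2b pcF0 Cut.none Ext.none :=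
  certFX0 (fam := false) (s1 := true) (s2 := true) (a := 2) (b := 0) (c := 2) (cn := .pp) (n1 := ndF2q2b) (n2 := ndF1q2b) (pc := pcF0) (cut := Cut.none) (xt := Ext.none) (P1 := 1239849684) (W1 := 370763052) (P2 := 1239849684) (W2 := 370763052) (P3 := 1046898278) (W3 := 26843546)
    rfl k0_pp_202_bb

noncomputable def f_pp_203_a : ℕ → ℕ → ℕ → ℕ → Bool := onCell 0 420477299 1610612736 469762048 1046898278 26843546
    (rowFX 0 false true true .up 2 0 3 (qsf 0 420477299 1610612736 469762048 0) ndF2q2a ndF1q3 pcF0 Cut.none Ext.none)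

def k0_pp_203_a : ∃ t, chk3 f_pp_203_a t 1 1 1 = true :=
  ⟨(l 3), by decide +kernel⟩

theorem c_pp_203_a : CertFX 0 420477299 1610612736 469762048 1046898278 26843546 false true true .up 2 0 3
    ndF2q2a ndF1q3 pcF0 Cut.none Ext.none :=
  certFX0 (fam := false) (s1 := true) (s2 := true) (a := 2) (b := 0) (c := 3) (cn := .up) (n1 := ndF2q2a) (n2 := ndF1q3) (pc := pcF0) (cut := Cut.none) (xt := Ext.none) (P1 := 0) (W1 := 420477299) (P2 := 1610612736) (W2 := 469762048) (P3 := 1046898278) (W3 := 26843546)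
    rfl k0_pp_203_a

noncomputable def f_pp_203_b : ℕ → ℕ → ℕ → ℕ → Bool := onCell 1239849684 370763052 1610612736 469762048 1046898278 26843546
    (rowFX 0 false true true .up 2 0 3 (qsf 1239849684 370763052 1610612736 469762048 0) ndF2q2b ndF1q3 pcF0 Cut.none Ext.none)

def k0_pp_203_b : ∃ t, chk3 f_pp_203_b t 1 1 1 = true :=
  ⟨(l 3), by decide +kernel⟩

theorem c_pp_203_b : CertFX 1239849684 370763052 1610612736 469762048 1046898278 26843546 false true true .up 2 0 3
    ndF2q2b ndF1q3 pcF0 Cut.none Ext.none :=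
  certFX0 (fam := false) (s1 := true) (s2 := true) (a := 2) (b := 0) (c := 3) (cn := .up) (n1 := ndF2q2b) (n2 := ndF1q3) (pc := pcF0) (cut := Cut.none) (xt := Ext.none) (P1 := 1239849684) (W1 := 370763052) (P2 := 1610612736) (W2 := 469762048) (P3 := 1046898278) (W3 := 26843546)
    rfl k0_pp_203_b

noncomputable def f_pp_213_a : ℕ → ℕ → ℕ → ℕ → Bool := onCell 0 420477299 1610612736 469762048 1046898278 26843546
    (rowFX 0 false true true .pnn 2 1 3 (qsf 0 420477299 1610612736 469762048 1) ndF2q2a ndF1q3 pcF1 Cut.none Ext.none)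

def k0_pp_213_a : ∃ t, chk3 f_pp_213_a t 1 1 1 = true :=
  ⟨(l 3), by decide +kernel⟩

theorem c_pp_213_a : CertFX 0 420477299 1610612736 469762048 1046898278 26843546 false true true .pnn 2 1 3
    ndF2q2a ndF1q3 pcF1 Cut.none Ext.none :=
  certFX0 (fam := false) (s1 := true) (s2 := true) (a := 2) (b := 1) (c := 3) (cn := .pnn) (n1 := ndF2q2a) (n2 := ndF1q3) (pc := pcF1) (cut := Cut.none) (xt := Ext.none) (P1 := 0) (W1 := 420477299) (P2 := 1610612736) (W2 := 469762048) (P3 := 1046898278) (W3 := 26843546)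
    rfl k0_pp_213_a

noncomputable def f_pp_213_b : ℕ → ℕ → ℕ → ℕ → Bool := onCell 1239849684 370763052 1610612736 469762048 1046898278 26843546
    (rowFX 0 false true true .pnn 2 1 3 (qsf 1239849684 370763052 1610612736 469762048 1) ndF2q2b ndF1q3 pcF1 Cut.none Ext.none)

def k0_pp_213_b : ∃ t, chk3 f_pp_213_b t 1 1 1 = true :=
  ⟨(l 3), by decide +kernel⟩

theorem c_pp_213_b : CertFX 1239849684 370763052 1610612736 469762048 1046898278 26843546 false true true .pnn 2 1 3
    ndF2q2b ndF1q3 pcF1 Cut.none Ext.none :=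
  certFX0 (fam := false) (s1 := true) (s2 := true) (a := 2) (b := 1) (c := 3) (cn := .pnn) (n1 := ndF2q2b) (n2 := ndF1q3) (pc := pcF1) (cut := Cut.none) (xt := Ext.none) (P1 := 1239849684) (W1 := 370763052) (P2 := 1610612736) (W2 := 469762048) (P3 := 1046898278) (W3 := 26843546)
    rfl k0_pp_213_b

noncomputable def f_pp_303 : ℕ → ℕ → ℕ → ℕ → Bool := onCell 1610612736 469762048 1610612736 469762048 1046898278 26843546
    (rowFX 0 false true true .npn 3 0 3 (qsf 1610612736 469762048 1610612736 469762048 0) ndF2q3 ndF1q3 pcF0 Cut.none Ext.none)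

def k0_pp_303 : ∃ t, chk3 f_pp_303 t 1 1 1 = true :=
  ⟨(l 3), by decide +kernel⟩

theorem c_pp_303 : CertFX 1610612736 469762048 1610612736 469762048 1046898278 26843546 false true true .npn 3 0 3
    ndF2q3 ndF1q3 pcF0 Cut.none Ext.none :=
  certFX0 (fam := false) (s1 := true) (s2 := true) (a := 3) (b := 0) (c := 3) (cn := .npn) (n1 := ndF2q3) (n2 := ndF1q3) (pc := pcF0) (cut := Cut.none) (xt := Ext.none) (P1 := 1610612736) (W1 := 469762048) (P2 := 1610612736) (W2 := 469762048) (P3 := 1046898278) (W3 := 26843546)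
    rfl k0_pp_303

noncomputable def f_pp_313 : ℕ → ℕ → ℕ → ℕ → Bool := onCell 1610612736 469762048 1610612736 469762048 1046898278 26843546
    (rowFX 0 false true true .dn 3 1 3 (qsf 1610612736 469762048 1610612736 469762048 1) ndF2q3 ndF1q3 pcF1 Cut.none Ext.none)

def k0_pp_313 : ∃ t, chk3 f_pp_313 t 1 1 1 = true :=
  ⟨(l 1), by decide +kernel⟩

theorem c_pp_313 : CertFX 1610612736 469762048 1610612736 469762048 1046898278 26843546 false true true .dn 3 1 3
    ndF2q3 ndF1q3 pcF1 Cut.none Ext.none :=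
  certFX0 (fam := false) (s1 := true) (s2 := true) (a := 3) (b := 1) (c := 3) (cn := .dn) (n1 := ndF2q3) (n2 := ndF1q3) (pc := pcF1) (cut := Cut.none) (xt := Ext.none) (P1 := 1610612736) (W1 := 469762048) (P2 := 1610612736) (W2 := 469762048) (P3 := 1046898278) (W3 := 26843546)
    rfl k0_pp_313

noncomputable def f_pm_001 : ℕ → ℕ → ℕ → ℕ → Bool := onCell 67108864 469762048 536870912 536870912 1046898278 26843546
    (rowFX 0 false true false .up 0 0 1 (qsf 67108864 469762048 536870912 536870912 0) ndF2q0 ndF1q1 pcF0 Cut.none Ext.none)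

def k0_pm_001 : ∃ t, chk3 f_pm_001 t 1 1 1 = true :=
  ⟨(l 4), by decide +kernel⟩

theorem c_pm_001 : CertFX 67108864 469762048 536870912 536870912 1046898278 26843546 false true false .up 0 0 1
    ndF2q0 ndF1q1 pcF0 Cut.none Ext.none :=
  certFX0 (fam := false) (s1 := true) (s2 := false) (a := 0) (b := 0) (c := 1) (cn := .up) (n1 := ndF2q0) (n2 := ndF1q1) (pc := pcF0) (cut := Cut.none) (xt := Ext.none) (P1 := 67108864) (W1 := 469762048) (P2 := 536870912) (W2 := 536870912) (P3 := 1046898278) (W3 := 26843546)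
    rfl k0_pm_001

noncomputable def f_pm_011 : ℕ → ℕ → ℕ → ℕ → Bool := onCell 67108864 469762048 536870912 536870912 1046898278 26843546
    (rowFX 0 false true false .pnn 0 1 1 (qsf 67108864 469762048 536870912 536870912 1) ndF2q0 ndF1q1 pcF1 Cut.none Ext.none)

def k0_pm_011 : ∃ t, chk3 f_pm_011 t 1 1 1 = true :=
  ⟨(l 4), by decide +kernel⟩

theorem c_pm_011 : CertFX 67108864 469762048 536870912 536870912 1046898278 26843546 false true false .pnn 0 1 1
    ndF2q0 ndF1q1 pcF1 Cut.none Ext.none :=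
  certFX0 (fam := false) (s1 := true) (s2 := false) (a := 0) (b := 1) (c := 1) (cn := .pnn) (n1 := ndF2q0) (n2 := ndF1q1) (pc := pcF1) (cut := Cut.none) (xt := Ext.none) (P1 := 67108864) (W1 := 469762048) (P2 := 536870912) (W2 := 536870912) (P3 := 1046898278) (W3 := 26843546)
    rfl k0_pm_011

noncomputable def f_pm_012_a : ℕ → ℕ → ℕ → ℕ → Bool := onCell 536870912 536870912 0 420477299 1046898278 26843546
    (rowFX 2 false true false .pnp 0 1 2 (qsf 67108864 469762048 0 420477299 1) ndF2q0 ndF1q2a pcF1 Cut.none Ext.none)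

def k0_pm_012_a : ∃ t, chk3 f_pm_012_a t 2 1 1 = true :=
  ⟨(b (a (l 2) (a (l 16777208) (l 16777208))) (b (a (c (l 16777184) (l 16777184)) (c (l 16777184) (l 16777184))) (a (b (l 16722320) (c (l 16504904) (l 16497824))) (a (b (l 16724960) (b (l 16584888) (l 16476968))) (b (l 16731528) (b (l 16609488) (l 16594416))))))), by decide +kernel⟩

def k1_pm_012_a : ∃ t, chk3 f_pm_012_a t 6 1 1 = true :=
  ⟨(b (a (l 16775080) (a (l 16764024) (a (l 16766272) (l 16600032)))) (a (b (a (l 16777200) (b (l 16773776) (a (l 16769648) (l 16764528)))) (b (a (l 16722504) (b (l 16529048) (l 16653520))) (a (b (l 16604848) (l 16662712)) (b (a (l 16696928) (l 16520352)) (a (l 16568096) (l 16393432)))))) (a (b (c (l 16957808) (a (l 16760232) (l 16900208))) (b (b (b (a (c (l 16700168) (l 16709656)) (c (l 16742312) (l 16752552))) (a (l 16621632) (a (l 16608952) (b (l 16711112) (l 16600800))))) (a (l 16478424) (b (c (l 16540232) (l 16545488)) (l 16367080)))) (b (l 16056904) (b (a (l 16252008) (l 16034208)) (l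 16060936))))) (b (l 16444792) (b (a (a (b (a (c (l 16744192) (l 16672744)) (c (b (l 16764416) (a (l 16750776) (l 16737624))) (a (l 16524624) (c (l 16738744) (l 16577592))))) (b (c (c (l 16553144) (l 16399744)) (b (l 16559336) (l 16491272))) (l 16357256))) (b (b (l 16680344) (c (c (l 16639304) (l 16644104)) (c (l 16649064) (l 16423520)))) (c (b (b (l 16608400) (l 16483232)) (l 16265944)) (b (b (l 16547624) (l 16455848)) (b (l 16379016) (l 16284512)))))) (b (a (b (l 16521744) (c (l 16381240) (c (l 16489544) (l 16408152)))) (l 16367144)) (b (c (a (a (l 16502424) (l 16474696)) (l 16132552)) (a (b (a (l 16509912) (l 16475568)) (l 16422720)) (c (l 16216696) (l 16175104)))) (c (a (l 16162240) (a (l 16272024) (b (l 16328696) (l 16234184)))) (a (b (l 16320912) (l 16240080)) (l 16059352)))))) (b (a (l 16085584) (l 16097544)) (a (b (a (l 15887472) (l 15889160)) (a (l 15825952) (l 15830048))) (b (l 15947912) (l 15833744))))))))), by decide +kernel⟩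

def k2_pm_012_a : ∃ t, chk3 f_pm_012_a t 7 2 1 = true :=
  ⟨(a (a (b (l 16396392) (l 16221656)) (b (l 16114120) (l 15732344))) (a (b (a (l 15994360) (l 15965608)) (c (l 15633328) (l 15702408))) (b (a (l 15738528) (c (l 15933736) (l 15851776))) (a (c (l 15566992) (l 15610480)) (c (l 15546792) (l 15445168)))))), by decide +kernel⟩

def k3_pm_012_a : ∃ t, chk3 f_pm_012_a t 7 6 1 = true :=
  ⟨(a (a (a (l 16201112) (l 15958072)) (b (l 15757392) (l 15740912))) (a (c (a (l 15605688) (l 15431648)) (l 15544936)) (a (c (b (l 15373688) (l 15285512)) (l 15391680)) (c (l 15282616) (a (l 15292520) (l 15266768)))))), by decide +kernel⟩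

def k4_pm_012_a : ∃ t, chk3 f_pm_012_a t 7 14 1 = true :=
  ⟨(c (a (a (a (b (l 16173008) (a (b (l 16182312) (b (l 16227448) (l 16134280))) (l 16093600))) (a (l 15841136) (l 15971816))) (l 15819120)) (a (a (c (l 15624632) (l 15635568)) (b (l 15425656) (l 15491360))) (a (b (l 15251704) (l 15312144)) (b (l 15194264) (l 15272696))))) (a (a (a (b (l 16157416) (a (b (l 16115552) (b (l 16180544) (l 16193488))) (l 16065944))) (a (l 15829192) (l 15951464))) (l 15795152)) (a (l 15385888) (a (l 15357456) (a (c (l 15236736) (l 15274296)) (b (l 15179920) (l 15270384))))))), by decide +kernel⟩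

def k5_pm_012_a : ∃ t, chk3 f_pm_012_a t 7 15 1 = true :=
  ⟨(a (a (a (b (b (c (a (l 16198024) (a (l 16170832) (l 16135800))) (a (l 16151504) (l 16143752))) (l 16078056)) (b (l 16011904) (l 15941568))) (b (a (a (b (b (l 16154320) (l 16119336)) (l 16115416)) (b (l 16064880) (l 16104528))) (c (b (l 16085288) (a (l 16085496) (l 16104072))) (b (l 16074560) (l 15895520)))) (a (l 16024096) (l 16030816)))) (a (a (b (c (c (l 15926376) (l 15941328)) (a (l 15844256) (l 16027264))) (c (l 16056312) (l 16048272))) (b (c (l 15947448) (l 15976520)) (b (c (b (a (l 16072032) (l 16071416)) (l 16041752)) (a (l 16029336) (l 15884768))) (l 16005352)))) (b (l 15906632) (a (b (c (c (l 15950368) (l 15987128)) (a (l 15913440) (l 16005672))) (c (c (l 16054560) (l 16018936)) (l 16011504))) (b (c (a (l 15979568) (l 15967096)) (l 15928208)) (c (b (c (l 16027464) (l 16022584)) (a (l 16009840) (l 15852168))) (b (l 15992664) (a (l 16002768) (l 15929096))))))))) (b (a (c (a (l 15770016) (l 15592176)) (l 15699952))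 (c (a (a (l 15442008) (l 15376112)) (l 15408816)) (a (l 15504544) (a (l 15413928) (l 15421432))))) (a (a (a (b (l 15904352) (c (c (c (a (a (l 15813736) (l 15980352)) (l 15956328)) (l 15976208)) (l 15972336)) (l 15836576))) (l 15869112)) (c (l 15518704) (l 15778920))) (a (c (a (l 15595128) (l 15548864)) (l 15675008)) (c (a (l 15561008) (l 15618744)) (a (l 15562544) (c (l 15605576) (l 15619744)))))))), by decide +kernel⟩

theorem s6_pm_012_a : ∃ t, chk3 f_pm_012_a t 7 7 1 = true := ex3_b k4_pm_012_a k5_pm_012_a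

theorem s7_pm_012_a : ∃ t, chk3 f_pm_012_a t 7 3 1 = true := ex3_b k3_pm_012_a s6_pm_012_a

theorem s8_pm_012_a : ∃ t, chk3 f_pm_012_a t 7 1 1 = true := ex3_b k2_pm_012_a s7_pm_012_a

theorem s9_pm_012_a : ∃ t, chk3 f_pm_012_a t 3 1 1 = true := ex3_a k1_pm_012_a s8_pm_012_a

theorem s10_pm_012_a : ∃ t, chk3 f_pm_012_a t 1 1 1 = true := ex3_a k0_pm_012_a s9_pm_012_a

theorem c_pm_012_a : CertFX 67108864 469762048 0 420477299 1046898278 26843546 false true false .pnp 0 1 2
    ndF2q0 ndF1q2a pcF1 Cut.none Ext.none :=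
  certFX2 (fam := false) (s1 := true) (s2 := false) (a := 0) (b := 1) (c := 2) (cn := .pnp) (n1 := ndF2q0) (n2 := ndF1q2a) (pc := pcF1) (cut := Cut.none) (xt := Ext.none) (P1 := 67108864) (W1 := 469762048) (P2 := 0) (W2 := 420477299) (P3 := 1046898278) (W3 := 26843546)
    rfl (fun _ => rfl) s10_pm_012_a

noncomputable def f_pm_012_b : ℕ → ℕ → ℕ → ℕ → Bool := onCell 536870912 536870912 1239849684 370763052 1046898278 26843546
    (rowFX 2 false true false .pnp 0 1 2 (qsf 67108864 469762048 1239849684 370763052 1) ndF2q0 ndF1q2b pcF1 Cut.none Ext.none)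

def k0_pm_012_b : ∃ t, chk3 f_pm_012_b t 1 1 1 = true :=
  ⟨(a (a (l 2) (b (l 16777216) (l 2))) (a (a (b (l 16774728) (l 2)) (b (a (l 16762272) (a (l 16774920) (l 16662760))) (l 16754800))) (b (a (b (a (l 16459344) (l 16201016)) (l 16070552)) (b (a (b (a (l 16061784) (l 15982872)) (l 15898304)) (b (a (l 15841448) (l 15870304)) (a (l 15670744) (b (l 15620864) (l 15521024))))) (a (l 15814984) (a (l 15555264) (l 15418504))))) (a (a (l 16400304) (l 16079176)) (a (l 15651408) (b (l 15389848) (l 15341024))))))), by decide +kernel⟩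

theorem c_pm_012_b : CertFX 67108864 469762048 1239849684 370763052 1046898278 26843546 false true false .pnp 0 1 2
    ndF2q0 ndF1q2b pcF1 Cut.none Ext.none :=
  certFX2 (fam := false) (s1 := true) (s2 := false) (a := 0) (b := 1) (c := 2) (cn := .pnp) (n1 := ndF2q0) (n2 := ndF1q2b) (pc := pcF1) (cut := Cut.none) (xt := Ext.none) (P1 := 67108864) (W1 := 469762048) (P2 := 1239849684) (W2 := 370763052) (P3 := 1046898278) (W3 := 26843546)
    rfl (fun _ => rfl) k0_pm_012_b

noncomputable def f_pm_022_a : ℕ → ℕ → ℕ → ℕ → Bool := onCell 67108864 469762048 0 420477299 1046898278 26843546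
    (rowFX 0 false true false .pp 0 2 2 (qsf 67108864 469762048 0 420477299 2) ndF2q0 ndF1q2a pcF2 Cut.none Ext.none)

def k0_pm_022_a : ∃ t, chk3 f_pm_022_a t 1 1 1 = true :=
  ⟨(a (b (a (a (b (a (c (a (b (l 16392856) (l 16231792)) (l 16050216)) (a (l 16269928) (l 16197216))) (c (a (l 15882048) (l 15851752)) (l 15677576))) (a (b (c (a (l 16081616) (l 15992728)) (l 15989064)) (c (a (l 16050720) (l 15833960)) (l 15955360))) (c (b (l 15678320) (l 15463688)) (b (l 15698200) (l 15321944))))) (b (c (a (l 15635728) (l 15340400)) (a (b (l 15708880) (l 15542952)) (l 15183088))) (c (a (l 15289456) (l 14966240)) (a (b (l 15365592) (l 15173504)) (l 14882096))))) (l 1)) (a (b (a (a (a (c (b (l 15779296) (c (l 15678688) (l 15680504))) (b (l 15900280) (l 15641048))) (c (b (l 15534120) (l 15351712)) (b (l 15660384) (c (l 15463976) (l 15463008))))) (c (b (l 15170696) (l 15134224)) (b (a (l 15438208) (l 15234248)) (c (l 15117272) (l 14862328))))) (a (c (l 14893968) (b (l 14965232) (l 14739392))) (l 1)))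 (a (b (c (c (a (a (l 15445456) (l 15303848)) (l 225515247879)) (a (b (l 15427328) (l 15398784)) (l 14962072))) (c (a (a (b (l 15561728) (l 15519272)) (l 15117112)) (l 14940688)) (a (b (l 15255704) (a (l 15528304) (l 15262328))) (a (l 335573871895) (l 14818744))))) (a (a (c (b (l 15518336) (l 15544504)) (c (b (l 15508168) (l 15524192)) (b (l 15513520) (l 15520088)))) (c (l 15296840) (b (l 15258944) (l 1)))) (l 1))) (l 1))) (l 1))) (l 1)), by decide +kernel⟩

theorem c_pm_022_a : CertFX 67108864 469762048 0 420477299 1046898278 26843546 false true false .pp 0 2 2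
    ndF2q0 ndF1q2a pcF2 Cut.none Ext.none :=
  certFX0 (fam := false) (s1 := true) (s2 := false) (a := 0) (b := 2) (c := 2) (cn := .pp) (n1 := ndF2q0) (n2 := ndF1q2a) (pc := pcF2) (cut := Cut.none) (xt := Ext.none) (P1 := 67108864) (W1 := 469762048) (P2 := 0) (W2 := 420477299) (P3 := 1046898278) (W3 := 26843546)
    rfl k0_pm_022_a

noncomputable def f_pm_022_b : ℕ → ℕ → ℕ → ℕ → Bool := onCell 67108864 469762048 1073741824 536870912 1046898278 26843546
    (rowFX 1 false true false .pp 0 2 2 (qsf 67108864 469762048 1239849684 370763052 2) ndF2q0 ndF1q2b pcF2 Cut.none Ext.none)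

def k0_pm_022_b : ∃ t, chk3 f_pm_022_b t 1 1 1 = true :=
  ⟨(b (b (a (a (b (b (a (l 1) (c (l 15664440) (l 232495899959))) (a (a (l 1) (c (l 15903800) (l 16068856))) (c (l 15500176) (l 15700136)))) (a (b (a (c (b (l 16367152) (l 16273704)) (b (l 16412384) (l 16357176))) (c (b (l 16093584) (l 16060112)) (l 16005376))) (a (c (l 16075568) (l 16171840)) (c (l 15916944) (l 15899080)))) (b (c (b (l 15758176) (l 15745696)) (l 15588696)) (l 15630048)))) (b (a (c (b (l 15157040) (l 15247040)) (b (a (l 15253384) (l 15007400)) (l 15226688))) (c (l 14982600) (b (l 14890208) (l 15012472)))) (b (a (b (l 15318696) (l 15328856)) (l 15138472)) (a (l 15275392) (l 15130224))))) (b (a (c (l 14818712) (b (l 14803064) (l 14938872))) (c (l 14846280) (l 14823592))) (b (a (l 14912240) (l 15040424)) (l 15092152)))) (a (b (a (a (b (b (a (l 15910000) (l 15804488)) (a (c (l 16147256) (l 16138720)) (l 15922008))) (a (a (l 16140352) (l 16316472)) (l 16055064))) (b (b (l 15568416) (l 15699080)) (l 16064376))) (a (b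 (a (l 15201312) (l 15086080)) (l 15788392)) (b (l 15233840) (l 15682152)))) (a (a (b (a (l 15790536) (l 16270640)) (a (l 15786288) (l 16096560))) (b (l 16473808) (l 16403000))) (b (a (l 16208400) (l 16098376)) (l 16401328)))) (b (b (b (l 15146528) (l 15307904)) (l 15662656)) (b (l 16059736) (l 16313576))))) (a (b (a (b (a (c (a (l 15695856) (l 15999800)) (l 15688320)) (l 16298096)) (a (c (l 15692040) (l 15701064)) (l 16195448))) (b (a (l 16621024) (l 16559680)) (a (l 16619656) (l 2)))) (a (b (a (c (l 15729880) (l 15696776)) (l 16191784)) (a (l 15504496) (l 2))) (l 2))) (l 2))), by decide +kernel⟩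

theorem c_pm_022_b : CertFX 67108864 469762048 1239849684 370763052 1046898278 26843546 false true false .pp 0 2 2
    ndF2q0 ndF1q2b pcF2 Cut.none Ext.none :=
  certFX1 (fam := false) (s1 := true) (s2 := false) (a := 0) (b := 2) (c := 2) (cn := .pp) (n1 := ndF2q0) (n2 := ndF1q2b) (pc := pcF2) (cut := Cut.none) (xt := Ext.none) (P1 := 67108864) (W1 := 469762048) (P2 := 1239849684) (W2 := 370763052) (P3 := 1046898278) (W3 := 26843546)
    rfl (fun _ => rfl) k0_pm_022_b

noncomputable def f_pm_023 : ℕ → ℕ → ℕ → ℕ → Bool := onCell 67108864 469762048 1073741824 536870912 1046898278 26843546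
    (rowFX 1 false true false .up 0 2 3 (qsf 67108864 469762048 1610612736 469762048 2) ndF2q0 ndF1q3 pcF2 Cut.none Ext.none)

def k0_pm_023 : ∃ t, chk3 f_pm_023 t 1 1 1 = true :=
  ⟨(b (b (a (l 1) (b (a (l 1) (l 342015945639)) (b (a (l 1) (l 15040424)) (l 15092152)))) (a (b (l 1) (a (l 1) (b (l 772589516759) (l 16401328)))) (b (b (b (l 15146528) (l 15307904)) (l 15662656)) (b (l 16059736) (l 16313576))))) (a (b (a (b (l 1) (a (l 1) (l 16195448))) (b (l 264173162231) (a (l 16619656) (l 16769392)))) (a (b (a (l 455834329399) (l 16191784)) (a (l 15504496) (l 16191784))) (b (a (l 16616872) (l 16777216)) (l 16699056)))) (b (b (l 16542640) (l 16768912)) (b (l 16771080) (l 4))))), by decide +kernel⟩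

theorem c_pm_023 : CertFX 67108864 469762048 1610612736 469762048 1046898278 26843546 false true false .up 0 2 3
    ndF2q0 ndF1q3 pcF2 Cut.none Ext.none :=
  certFX1 (fam := false) (s1 := true) (s2 := false) (a := 0) (b := 2) (c := 3) (cn := .up) (n1 := ndF2q0) (n2 := ndF1q3) (pc := pcF2) (cut := Cut.none) (xt := Ext.none) (P1 := 67108864) (W1 := 469762048) (P2 := 1610612736) (W2 := 469762048) (P3 := 1046898278) (W3 := 26843546)
    rfl (fun _ => rfl) k0_pm_023

noncomputable def f_pm_033 : ℕ → ℕ → ℕ → ℕ → Bool := onCell 67108864 469762048 1610612736 536870912 1046898278 26843546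
    (rowFX 1 false true false .pnn 0 3 3 (qsf 67108864 469762048 1610612736 469762048 3) ndF2q0 ndF1q3 pcF3 Cut.none Ext.none)

def k0_pm_033 : ∃ t, chk3 f_pm_033 t 1 1 1 = true :=
  ⟨(b (a (b (a (b (a (c (l 15729880) (l 15696776)) (l 4)) (l 4)) (l 4)) (l 4)) (b (l 4) (a (l 4) (l 2)))) (a (b (a (l 4) (b (l 4) (l 2))) (a (b (l 4) (l 2)) (l 2))) (l 2))), by decide +kernel⟩

theorem c_pm_033 : CertFX 67108864 469762048 1610612736 469762048 1046898278 26843546 false true false .pnn 0 3 3
    ndF2q0 ndF1q3 pcF3 Cut.none Ext.none :=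
  certFX1 (fam := false) (s1 := true) (s2 := false) (a := 0) (b := 3) (c := 3) (cn := .pnn) (n1 := ndF2q0) (n2 := ndF1q3) (pc := pcF3) (cut := Cut.none) (xt := Ext.none) (P1 := 67108864) (W1 := 469762048) (P2 := 1610612736) (W2 := 469762048) (P3 := 1046898278) (W3 := 26843546)
    rfl (fun _ => rfl) k0_pm_033

noncomputable def f_pm_101 : ℕ → ℕ → ℕ → ℕ → Bool := onCell 536870912 536870912 536870912 536870912 1046898278 26843546
    (rowFX 0 false true false .npn 1 0 1 (qsf 536870912 536870912 536870912 536870912 0) ndF2q1 ndF1q1 pcF0 Cut.none Ext.none)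

def k0_pm_101 : ∃ t, chk3 f_pm_101 t 1 1 1 = true :=
  ⟨(l 4), by decide +kernel⟩

theorem c_pm_101 : CertFX 536870912 536870912 536870912 536870912 1046898278 26843546 false true false .npn 1 0 1
    ndF2q1 ndF1q1 pcF0 Cut.none Ext.none :=
  certFX0 (fam := false) (s1 := true) (s2 := false) (a := 1) (b := 0) (c := 1) (cn := .npn) (n1 := ndF2q1) (n2 := ndF1q1) (pc := pcF0) (cut := Cut.none) (xt := Ext.none) (P1 := 536870912) (W1 := 536870912) (P2 := 536870912) (W2 := 536870912) (P3 := 1046898278) (W3 := 26843546)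
    rfl k0_pm_101

noncomputable def f_pm_102_a : ℕ → ℕ → ℕ → ℕ → Bool := onCell 536870912 536870912 0 420477299 1046898278 26843546
    (rowFX 0 false true false .npp 1 0 2 (qsf 536870912 536870912 0 420477299 0) ndF2q1 ndF1q2a pcF0 Cut.none Ext.none)

def k0_pm_102_a : ∃ t, chk3 f_pm_102_a t 1 1 1 = true :=
  ⟨(a (a (b (l 2) (b (c (l 16777184) (l 16777184)) (b (l 16722320) (c (l 16504904) (l 16497824))))) (b (a (b (l 16777216) (l 16777208)) (b (l 16777216) (c (l 16777208) (l 16777208)))) (b (l 16777184) (b (l 16722320) (c (l 16504904) (l 16497824)))))) (b (b (a (a (l 16774200) (a (l 16759192) (l 16758552))) (a (a (l 16716712) (a (l 16643776) (b (a (l 16606456) (l 16587008)) (a (l 16606504) (l 16555112))))) (a (b (a (l 16613672) (c (l 16657896) (l 16658280))) (c (a (l 16623576) (l 16661416)) (l 16639352))) (b (c (a (l 16703480) (b (l 16675976) (l 16687248))) (l 16625400)) (c (b (l 16717448) (a (l 16698856) (l 16698384))) (a (l 16696784) (l 16696888))))))) (a (a (b (l 16774200) (l 16774192))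 (a (l 16759184) (l 16758544))) (a (a (l 16716704) (a (b (l 16643768) (l 16651768)) (l 16639336))) (a (l 16630720) (b (l 16697760) (l 16680048)))))) (a (b (a (l 16774168) (l 16758840)) (b (a (l 16719512) (a (l 16705752) (b (l 16745984) (l 16663112)))) (a (l 16498576) (c (l 16486776) (l 16476048))))) (b (a (a (b (l 16718656) (l 16734576)) (b (l 16683928) (l 16722760))) (a (b (l 16709696) (l 16735568)) (b (a (l 16732240) (l 16703000)) (a (l 16727144) (l 16706256))))) (a (b (a (b (l 16742696) (l 16697968)) (l 16647064)) (a (l 16544536) (b (l 16604600) (l 16499992)))) (b (a (b (l 16739304) (l 16672168)) (b (c (l 16650224) (l 16650056)) (a (l 16667320) (c (l 16673736) (l 16671768))))) (b (a (l 16559912) (b (a (l 16592752) (l 16599504)) (l 16541520))) (a (l 16461392) (a (l 16445280) (c (l 16454480) (l 16446304))))))))))), by decide +kernel⟩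

theorem c_pm_102_a : CertFX 536870912 536870912 0 420477299 1046898278 26843546 false true false .npp 1 0 2
    ndF2q1 ndF1q2a pcF0 Cut.none Ext.none :=
  certFX0 (fam := false) (s1 := true) (s2 := false) (a := 1) (b := 0) (c := 2) (cn := .npp) (n1 := ndF2q1) (n2 := ndF1q2a) (pc := pcF0) (cut := Cut.none) (xt := Ext.none) (P1 := 536870912) (W1 := 536870912) (P2 := 0) (W2 := 420477299) (P3 := 1046898278) (W3 := 26843546)
    rfl k0_pm_102_a

noncomputable def f_pm_102_b : ℕ → ℕ → ℕ → ℕ → Bool := onCell 536870912 536870912 1239849684 370763052 1046898278 26843546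
    (rowFX 0 false true false .npp 1 0 2 (qsf 536870912 536870912 1239849684 370763052 0) ndF2q1 ndF1q2b pcF0 Cut.none Ext.none)

def k0_pm_102_b : ∃ t, chk3 f_pm_102_b t 1 1 1 = true :=
  ⟨(a (b (a (l 2) (b (l 16777216) (l 16777216))) (l 2)) (b (a (b (a (l 16774200) (b (l 16758872) (l 16758872))) (l 16765256)) (b (a (b (a (l 16716712) (l 16619320)) (l 16668408)) (b (a (b (b (a (a (l 16575712) (l 16587368)) (c (l 16628248) (l 16625824))) (a (l 16550400) (l 16559128))) (a (l 16543144) (l 16484440))) (b (c (a (l 16643200) (b (l 16702320) (l 16657944))) (a (l 16641032) (l 16650784))) (a (l 16405152) (l 16554768)))) (a (l 16517464) (b (a (l 16442992) (l 16367904)) (l 16412816))))) (a (l 16668408) (a (l 16517464) (l 16412792))))) (a (l 16765256) (a (l 16668408) (b (l 16465584) (l 16465584)))))), by decide +kernel⟩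

theorem c_pm_102_b : CertFX 536870912 536870912 1239849684 370763052 1046898278 26843546 false true false .npp 1 0 2
    ndF2q1 ndF1q2b pcF0 Cut.none Ext.none :=
  certFX0 (fam := false) (s1 := true) (s2 := false) (a := 1) (b := 0) (c := 2) (cn := .npp) (n1 := ndF2q1) (n2 := ndF1q2b) (pc := pcF0) (cut := Cut.none) (xt := Ext.none) (P1 := 536870912) (W1 := 536870912) (P2 := 1239849684) (W2 := 370763052) (P3 := 1046898278) (W3 := 26843546)
    rfl k0_pm_102_b

noncomputable def f_pm_112_a : ℕ → ℕ → ℕ → ℕ → Bool := onCell 536870912 536870912 0 420477299 1046898278 26843546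
    (rowFX 2 false true false .dn 1 1 2 (qsf 536870912 536870912 0 420477299 1) ndF2q1 ndF1q2a pcF1 Cut.none Ext.none)

def k0_pm_112_a : ∃ t, chk3 f_pm_112_a t 1 1 1 = true :=
  ⟨(a (a (b (a (l 16777208) (l 16777208)) (b (c (l 16777184) (l 16777184)) (b (l 16722320) (c (l 16504904) (l 16497824))))) (a (b (l 16777208) (b (l 16777184) (l 1))) (l 1))) (l 1)), by decide +kernel⟩

theorem c_pm_112_a : CertFX 536870912 536870912 0 420477299 1046898278 26843546 false true false .dn 1 1 2
    ndF2q1 ndF1q2a pcF1 Cut.none Ext.none :=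
  certFX2 (fam := false) (s1 := true) (s2 := false) (a := 1) (b := 1) (c := 2) (cn := .dn) (n1 := ndF2q1) (n2 := ndF1q2a) (pc := pcF1) (cut := Cut.none) (xt := Ext.none) (P1 := 536870912) (W1 := 536870912) (P2 := 0) (W2 := 420477299) (P3 := 1046898278) (W3 := 26843546)
    rfl (fun _ => rfl) k0_pm_112_a

noncomputable def f_pm_112_b : ℕ → ℕ → ℕ → ℕ → Bool := onCell 536870912 536870912 1239849684 370763052 1046898278 26843546
    (rowFX 2 false true false .dn 1 1 2 (qsf 536870912 536870912 1239849684 370763052 1) ndF2q1 ndF1q2b pcF1 Cut.none Ext.none)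

def k0_pm_112_b : ∃ t, chk3 f_pm_112_b t 1 1 1 = true :=
  ⟨(a (a (b (l 16776040) (a (b (l 16769064) (l 16606704)) (l 16757736))) (b (l 16777216) (l 16769488))) (a (a (l 357052682951) (b (l 338798557687) (l 16754800))) (b (l 1) (a (l 373694522679) (a (l 15567520) (l 405904650103)))))), by decide +kernel⟩

theorem c_pm_112_b : CertFX 536870912 536870912 1239849684 370763052 1046898278 26843546 false true false .dn 1 1 2
    ndF2q1 ndF1q2b pcF1 Cut.none Ext.none :=
  certFX2 (fam := false) (s1 := true) (s2 := false) (a := 1) (b := 1) (c := 2) (cn := .dn) (n1 := ndF2q1) (n2 := ndF1q2b) (pc := pcF1) (cut := Cut.none) (xt := Ext.none) (P1 := 536870912) (W1 := 536870912) (P2 := 1239849684) (W2 := 370763052) (P3 := 1046898278) (W3 := 26843546)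
    rfl (fun _ => rfl) k0_pm_112_b

noncomputable def f_pm_113 : ℕ → ℕ → ℕ → ℕ → Bool := onCell 536870912 536870912 536870912 536870912 1046898278 26843546
    (rowFX 1 false true false .nn 1 1 3 (qsf 536870912 536870912 1610612736 469762048 1) ndF2q1 ndF1q3 pcF1 Cut.none Ext.none)

def k0_pm_113 : ∃ t, chk3 f_pm_113 t 1 1 1 = true :=
  ⟨(b (a (l 431140896727) (a (l 16765256) (b (l 16542840) (l 16569048)))) (b (a (l 366179963975) (a (l 16765376) (b (l 16571824) (l 16580552)))) (a (b (l 361346243767) (b (l 370472422951) (a (l 15353496) (l 15473312)))) (a (b (l 16425272) (l 15821656)) (b (l 16392552) (a (l 16061080) (l 16189432))))))), by decide +kernel⟩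

theorem c_pm_113 : CertFX 536870912 536870912 1610612736 469762048 1046898278 26843546 false true false .nn 1 1 3
    ndF2q1 ndF1q3 pcF1 Cut.none Ext.none :=
  certFX1 (fam := false) (s1 := true) (s2 := false) (a := 1) (b := 1) (c := 3) (cn := .nn) (n1 := ndF2q1) (n2 := ndF1q3) (pc := pcF1) (cut := Cut.none) (xt := Ext.none) (P1 := 536870912) (W1 := 536870912) (P2 := 1610612736) (W2 := 469762048) (P3 := 1046898278) (W3 := 26843546)
    rfl (fun _ => rfl) k0_pm_113

noncomputable def f_pm_123 : ℕ → ℕ → ℕ → ℕ → Bool := onCell 1073741824 536870912 1610612736 469762048 1046898278 26843546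
    (rowFX 2 false true false .npn 1 2 3 (qsf 536870912 536870912 1610612736 469762048 2) ndF2q1 ndF1q3 pcF2 Cut.none Ext.none)

def k0_pm_123 : ∃ t, chk3 f_pm_123 t 1 1 1 = true :=
  ⟨(b (a (a (a (b (l 14754872) (l 14883424)) (a (l 371544272999) (l 15085528))) (a (a (l 392482586983) (l 15660432)) (a (l 16058840) (l 16318264)))) (l 1)) (a (b (a (a (l 14992128) (l 15106712)) (a (l 15225464) (l 16191728))) (a (a (l 15169944) (l 15189152)) (a (l 15384360) (l 16229520)))) (a (a (l 16543816) (l 16763512)) (a (l 16771616) (l 16771616))))), by decide +kernel⟩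

theorem c_pm_123 : CertFX 536870912 536870912 1610612736 469762048 1046898278 26843546 false true false .npn 1 2 3
    ndF2q1 ndF1q3 pcF2 Cut.none Ext.none :=
  certFX2 (fam := false) (s1 := true) (s2 := false) (a := 1) (b := 2) (c := 3) (cn := .npn) (n1 := ndF2q1) (n2 := ndF1q3) (pc := pcF2) (cut := Cut.none) (xt := Ext.none) (P1 := 536870912) (W1 := 536870912) (P2 := 1610612736) (W2 := 469762048) (P3 := 1046898278) (W3 := 26843546)
    rfl (fun _ => rfl) k0_pm_123

noncomputable def f_pm_133 : ℕ → ℕ → ℕ → ℕ → Bool := onCell 536870912 536870912 1610612736 469762048 1046898278 26843546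
    (rowFX 0 false true false .dn 1 3 3 (qsf 536870912 536870912 1610612736 469762048 3) ndF2q1 ndF1q3 pcF3 Cut.none Ext.none)

def k0_pm_133 : ∃ t, chk3 f_pm_133 t 1 1 1 = true :=
  ⟨(l 1), by decide +kernel⟩

theorem c_pm_133 : CertFX 536870912 536870912 1610612736 469762048 1046898278 26843546 false true false .dn 1 3 3
    ndF2q1 ndF1q3 pcF3 Cut.none Ext.none :=
  certFX0 (fam := false) (s1 := true) (s2 := false) (a := 1) (b := 3) (c := 3) (cn := .dn) (n1 := ndF2q1) (n2 := ndF1q3) (pc := pcF3) (cut := Cut.none) (xt := Ext.none) (P1 := 536870912) (W1 := 536870912) (P2 := 1610612736) (W2 := 469762048) (P3 := 1046898278) (W3 := 26843546)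
    rfl k0_pm_133

noncomputable def f_pm_202_aa : ℕ → ℕ → ℕ → ℕ → Bool := onCell 0 420477299 0 420477299 1046898278 26843546
    (rowFX 0 false true false .pp 2 0 2 (qsf 0 420477299 0 420477299 0) ndF2q2a ndF1q2a pcF0 Cut.none Ext.none)

def k0_pm_202_aa : ∃ t, chk3 f_pm_202_aa t 1 1 1 = true :=
  ⟨(l 3), by decide +kernel⟩

theorem c_pm_202_aa : CertFX 0 420477299 0 420477299 1046898278 26843546 false true false .pp 2 0 2
    ndF2q2a ndF1q2a pcF0 Cut.none Ext.none :=
  certFX0 (fam := false) (s1 := true) (s2 := false) (a := 2) (b := 0) (c := 2) (cn := .pp) (n1 := ndF2q2a) (n2 := ndF1q2a) (pc := pcF0) (cut := Cut.none) (xt := Ext.none) (P1 := 0) (W1 := 420477299) (P2 := 0) (W2 := 420477299) (P3 := 1046898278) (W3 := 26843546)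
    rfl k0_pm_202_aa

noncomputable def f_pm_202_ab : ℕ → ℕ → ℕ → ℕ → Bool := onCell 0 420477299 1239849684 370763052 1046898278 26843546
    (rowFX 0 false true false .pp 2 0 2 (qsf 0 420477299 1239849684 370763052 0) ndF2q2a ndF1q2b pcF0 Cut.none Ext.none)

def k0_pm_202_ab : ∃ t, chk3 f_pm_202_ab t 1 1 1 = true :=
  ⟨(l 3), by decide +kernel⟩

theorem c_pm_202_ab : CertFX 0 420477299 1239849684 370763052 1046898278 26843546 false true false .pp 2 0 2
    ndF2q2a ndF1q2b pcF0 Cut.none Ext.none :=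
  certFX0 (fam := false) (s1 := true) (s2 := false) (a := 2) (b := 0) (c := 2) (cn := .pp) (n1 := ndF2q2a) (n2 := ndF1q2b) (pc := pcF0) (cut := Cut.none) (xt := Ext.none) (P1 := 0) (W1 := 420477299) (P2 := 1239849684) (W2 := 370763052) (P3 := 1046898278) (W3 := 26843546)
    rfl k0_pm_202_ab

noncomputable def f_pm_202_ba : ℕ → ℕ → ℕ → ℕ → Bool := onCell 1239849684 370763052 0 420477299 1046898278 26843546
    (rowFX 0 false true false .pp 2 0 2 (qsf 1239849684 370763052 0 420477299 0) ndF2q2b ndF1q2a pcF0 Cut.none Ext.none)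

def k0_pm_202_ba : ∃ t, chk3 f_pm_202_ba t 1 1 1 = true :=
  ⟨(l 3), by decide +kernel⟩

theorem c_pm_202_ba : CertFX 1239849684 370763052 0 420477299 1046898278 26843546 false true false .pp 2 0 2
    ndF2q2b ndF1q2a pcF0 Cut.none Ext.none :=
  certFX0 (fam := false) (s1 := true) (s2 := false) (a := 2) (b := 0) (c := 2) (cn := .pp) (n1 := ndF2q2b) (n2 := ndF1q2a) (pc := pcF0) (cut := Cut.none) (xt := Ext.none) (P1 := 1239849684) (W1 := 370763052) (P2 := 0) (W2 := 420477299) (P3 := 1046898278) (W3 := 26843546)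
    rfl k0_pm_202_ba

noncomputable def f_pm_202_bb : ℕ → ℕ → ℕ → ℕ → Bool := onCell 1239849684 370763052 1239849684 370763052 1046898278 26843546
    (rowFX 0 false true false .pp 2 0 2 (qsf 1239849684 370763052 1239849684 370763052 0) ndF2q2b ndF1q2b pcF0 Cut.none Ext.none)

def k0_pm_202_bb : ∃ t, chk3 f_pm_202_bb t 1 1 1 = true :=
  ⟨(l 3), by decide +kernel⟩

theorem c_pm_202_bb : CertFX 1239849684 370763052 1239849684 370763052 1046898278 26843546 false true false .pp 2 0 2
    ndF2q2b ndF1q2b pcF0 Cut.none Ext.none :=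
  certFX0 (fam := false) (s1 := true) (s2 := false) (a := 2) (b := 0) (c := 2) (cn := .pp) (n1 := ndF2q2b) (n2 := ndF1q2b) (pc := pcF0) (cut := Cut.none) (xt := Ext.none) (P1 := 1239849684) (W1 := 370763052) (P2 := 1239849684) (W2 := 370763052) (P3 := 1046898278) (W3 := 26843546)
    rfl k0_pm_202_bb

noncomputable def f_pm_203_a : ℕ → ℕ → ℕ → ℕ → Bool := onCell 0 420477299 1610612736 469762048 1046898278 26843546
    (rowFX 0 false true false .up 2 0 3 (qsf 0 420477299 1610612736 469762048 0) ndF2q2a ndF1q3 pcF0 Cut.none Ext.none)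

def k0_pm_203_a : ∃ t, chk3 f_pm_203_a t 1 1 1 = true :=
  ⟨(l 3), by decide +kernel⟩

theorem c_pm_203_a : CertFX 0 420477299 1610612736 469762048 1046898278 26843546 false true false .up 2 0 3
    ndF2q2a ndF1q3 pcF0 Cut.none Ext.none :=
  certFX0 (fam := false) (s1 := true) (s2 := false) (a := 2) (b := 0) (c := 3) (cn := .up) (n1 := ndF2q2a) (n2 := ndF1q3) (pc := pcF0) (cut := Cut.none) (xt := Ext.none) (P1 := 0) (W1 := 420477299) (P2 := 1610612736) (W2 := 469762048) (P3 := 1046898278) (W3 := 26843546)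
    rfl k0_pm_203_a

noncomputable def f_pm_203_b : ℕ → ℕ → ℕ → ℕ → Bool := onCell 1239849684 370763052 1610612736 469762048 1046898278 26843546
    (rowFX 0 false true false .up 2 0 3 (qsf 1239849684 370763052 1610612736 469762048 0) ndF2q2b ndF1q3 pcF0 Cut.none Ext.none)

def k0_pm_203_b : ∃ t, chk3 f_pm_203_b t 1 1 1 = true :=
  ⟨(l 3), by decide +kernel⟩

theorem c_pm_203_b : CertFX 1239849684 370763052 1610612736 469762048 1046898278 26843546 false true false .up 2 0 3
    ndF2q2b ndF1q3 pcF0 Cut.none Ext.none :=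
  certFX0 (fam := false) (s1 := true) (s2 := false) (a := 2) (b := 0) (c := 3) (cn := .up) (n1 := ndF2q2b) (n2 := ndF1q3) (pc := pcF0) (cut := Cut.none) (xt := Ext.none) (P1 := 1239849684) (W1 := 370763052) (P2 := 1610612736) (W2 := 469762048) (P3 := 1046898278) (W3 := 26843546)
    rfl k0_pm_203_b

noncomputable def f_pm_213_a : ℕ → ℕ → ℕ → ℕ → Bool := onCell 0 420477299 1610612736 469762048 1046898278 26843546
    (rowFX 0 false true false .pnn 2 1 3 (qsf 0 420477299 1610612736 469762048 1) ndF2q2a ndF1q3 pcF1 Cut.none Ext.none)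

def k0_pm_213_a : ∃ t, chk3 f_pm_213_a t 1 1 1 = true :=
  ⟨(l 3), by decide +kernel⟩

theorem c_pm_213_a : CertFX 0 420477299 1610612736 469762048 1046898278 26843546 false true false .pnn 2 1 3
    ndF2q2a ndF1q3 pcF1 Cut.none Ext.none :=
  certFX0 (fam := false) (s1 := true) (s2 := false) (a := 2) (b := 1) (c := 3) (cn := .pnn) (n1 := ndF2q2a) (n2 := ndF1q3) (pc := pcF1) (cut := Cut.none) (xt := Ext.none) (P1 := 0) (W1 := 420477299) (P2 := 1610612736) (W2 := 469762048) (P3 := 1046898278) (W3 := 26843546)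
    rfl k0_pm_213_a

noncomputable def f_pm_213_b : ℕ → ℕ → ℕ → ℕ → Bool := onCell 1239849684 370763052 1610612736 469762048 1046898278 26843546
    (rowFX 0 false true false .pnn 2 1 3 (qsf 1239849684 370763052 1610612736 469762048 1) ndF2q2b ndF1q3 pcF1 Cut.none Ext.none)

def k0_pm_213_b : ∃ t, chk3 f_pm_213_b t 1 1 1 = true :=
  ⟨(l 3), by decide +kernel⟩

theorem c_pm_213_b : CertFX 1239849684 370763052 1610612736 469762048 1046898278 26843546 false true false .pnn 2 1 3
    ndF2q2b ndF1q3 pcF1 Cut.none Ext.none :=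
  certFX0 (fam := false) (s1 := true) (s2 := false) (a := 2) (b := 1) (c := 3) (cn := .pnn) (n1 := ndF2q2b) (n2 := ndF1q3) (pc := pcF1) (cut := Cut.none) (xt := Ext.none) (P1 := 1239849684) (W1 := 370763052) (P2 := 1610612736) (W2 := 469762048) (P3 := 1046898278) (W3 := 26843546)
    rfl k0_pm_213_b

noncomputable def f_pm_303 : ℕ → ℕ → ℕ → ℕ → Bool := onCell 1610612736 469762048 1610612736 469762048 1046898278 26843546
    (rowFX 0 false true false .npn 3 0 3 (qsf 1610612736 469762048 1610612736 469762048 0) ndF2q3 ndF1q3 pcF0 Cut.none Ext.none)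

def k0_pm_303 : ∃ t, chk3 f_pm_303 t 1 1 1 = true :=
  ⟨(l 3), by decide +kernel⟩

theorem c_pm_303 : CertFX 1610612736 469762048 1610612736 469762048 1046898278 26843546 false true false .npn 3 0 3
    ndF2q3 ndF1q3 pcF0 Cut.none Ext.none :=
  certFX0 (fam := false) (s1 := true) (s2 := false) (a := 3) (b := 0) (c := 3) (cn := .npn) (n1 := ndF2q3) (n2 := ndF1q3) (pc := pcF0) (cut := Cut.none) (xt := Ext.none) (P1 := 1610612736) (W1 := 469762048) (P2 := 1610612736) (W2 := 469762048) (P3 := 1046898278) (W3 := 26843546)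
    rfl k0_pm_303

noncomputable def f_pm_313 : ℕ → ℕ → ℕ → ℕ → Bool := onCell 1610612736 469762048 1610612736 469762048 1046898278 26843546
    (rowFX 0 false true false .dn 3 1 3 (qsf 1610612736 469762048 1610612736 469762048 1) ndF2q3 ndF1q3 pcF1 Cut.none Ext.none)

def k0_pm_313 : ∃ t, chk3 f_pm_313 t 1 1 1 = true :=
  ⟨(l 1), by decide +kernel⟩

theorem c_pm_313 : CertFX 1610612736 469762048 1610612736 469762048 1046898278 26843546 false true false .dn 3 1 3
    ndF2q3 ndF1q3 pcF1 Cut.none Ext.none :=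
  certFX0 (fam := false) (s1 := true) (s2 := false) (a := 3) (b := 1) (c := 3) (cn := .dn) (n1 := ndF2q3) (n2 := ndF1q3) (pc := pcF1) (cut := Cut.none) (xt := Ext.none) (P1 := 1610612736) (W1 := 469762048) (P2 := 1610612736) (W2 := 469762048) (P3 := 1046898278) (W3 := 26843546)
    rfl k0_pm_313

noncomputable def f_mm_001 : ℕ → ℕ → ℕ → ℕ → Bool := onCell 67108864 469762048 536870912 536870912 1046898278 26843546
    (rowFX 0 false false false .up 0 0 1 (qsf 67108864 469762048 536870912 536870912 0) ndF2q0 ndF1q1 pcF0 Cut.none Ext.none)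

def k0_mm_001 : ∃ t, chk3 f_mm_001 t 1 1 1 = true :=
  ⟨(l 3), by decide +kernel⟩

theorem c_mm_001 : CertFX 67108864 469762048 536870912 536870912 1046898278 26843546 false false false .up 0 0 1
    ndF2q0 ndF1q1 pcF0 Cut.none Ext.none :=
  certFX0 (fam := false) (s1 := false) (s2 := false) (a := 0) (b := 0) (c := 1) (cn := .up) (n1 := ndF2q0) (n2 := ndF1q1) (pc := pcF0) (cut := Cut.none) (xt := Ext.none) (P1 := 67108864) (W1 := 469762048) (P2 := 536870912) (W2 := 536870912) (P3 := 1046898278) (W3 := 26843546)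
    rfl k0_mm_001

noncomputable def f_mm_011 : ℕ → ℕ → ℕ → ℕ → Bool := onCell 67108864 469762048 536870912 536870912 1046898278 26843546
    (rowFX 0 false false false .pnn 0 1 1 (qsf 67108864 469762048 536870912 536870912 1) ndF2q0 ndF1q1 pcF1 Cut.none Ext.none)

def k0_mm_011 : ∃ t, chk3 f_mm_011 t 1 1 1 = true :=
  ⟨(l 3), by decide +kernel⟩

theorem c_mm_011 : CertFX 67108864 469762048 536870912 536870912 1046898278 26843546 false false false .pnn 0 1 1
    ndF2q0 ndF1q1 pcF1 Cut.none Ext.none :=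
  certFX0 (fam := false) (s1 := false) (s2 := false) (a := 0) (b := 1) (c := 1) (cn := .pnn) (n1 := ndF2q0) (n2 := ndF1q1) (pc := pcF1) (cut := Cut.none) (xt := Ext.none) (P1 := 67108864) (W1 := 469762048) (P2 := 536870912) (W2 := 536870912) (P3 := 1046898278) (W3 := 26843546)
    rfl k0_mm_011

noncomputable def f_mm_012_a : ℕ → ℕ → ℕ → ℕ → Bool := onCell 67108864 469762048 0 420477299 1046898278 26843546
    (rowFX 0 false false false .pnp 0 1 2 (qsf 67108864 469762048 0 420477299 1) ndF2q0 ndF1q2a pcF1 Cut.none Ext.none)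

def k0_mm_012_a : ∃ t, chk3 f_mm_012_a t 1 1 1 = true :=
  ⟨(l 5), by decide +kernel⟩

theorem c_mm_012_a : CertFX 67108864 469762048 0 420477299 1046898278 26843546 false false false .pnp 0 1 2
    ndF2q0 ndF1q2a pcF1 Cut.none Ext.none :=
  certFX0 (fam := false) (s1 := false) (s2 := false) (a := 0) (b := 1) (c := 2) (cn := .pnp) (n1 := ndF2q0) (n2 := ndF1q2a) (pc := pcF1) (cut := Cut.none) (xt := Ext.none) (P1 := 67108864) (W1 := 469762048) (P2 := 0) (W2 := 420477299) (P3 := 1046898278) (W3 := 26843546)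
    rfl k0_mm_012_a

noncomputable def f_mm_012_b : ℕ → ℕ → ℕ → ℕ → Bool := onCell 67108864 469762048 1239849684 370763052 1046898278 26843546
    (rowFX 0 false false false .pnp 0 1 2 (qsf 67108864 469762048 1239849684 370763052 1) ndF2q0 ndF1q2b pcF1 Cut.none Ext.none)

def k0_mm_012_b : ∃ t, chk3 f_mm_012_b t 1 1 1 = true :=
  ⟨(l 5), by decide +kernel⟩

theorem c_mm_012_b : CertFX 67108864 469762048 1239849684 370763052 1046898278 26843546 false false false .pnp 0 1 2
    ndF2q0 ndF1q2b pcF1 Cut.none Ext.none :=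
  certFX0 (fam := false) (s1 := false) (s2 := false) (a := 0) (b := 1) (c := 2) (cn := .pnp) (n1 := ndF2q0) (n2 := ndF1q2b) (pc := pcF1) (cut := Cut.none) (xt := Ext.none) (P1 := 67108864) (W1 := 469762048) (P2 := 1239849684) (W2 := 370763052) (P3 := 1046898278) (W3 := 26843546)
    rfl k0_mm_012_b

noncomputable def f_mm_022_a : ℕ → ℕ → ℕ → ℕ → Bool := onCell 67108864 469762048 0 420477299 1046898278 26843546
    (rowFX 0 false false false .pp 0 2 2 (qsf 67108864 469762048 0 420477299 2) ndF2q0 ndF1q2a pcF2 Cut.none Ext.none)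

def k0_mm_022_a : ∃ t, chk3 f_mm_022_a t 1 1 1 = true :=
  ⟨(l 5), by decide +kernel⟩

theorem c_mm_022_a : CertFX 67108864 469762048 0 420477299 1046898278 26843546 false false false .pp 0 2 2
    ndF2q0 ndF1q2a pcF2 Cut.none Ext.none :=
  certFX0 (fam := false) (s1 := false) (s2 := false) (a := 0) (b := 2) (c := 2) (cn := .pp) (n1 := ndF2q0) (n2 := ndF1q2a) (pc := pcF2) (cut := Cut.none) (xt := Ext.none) (P1 := 67108864) (W1 := 469762048) (P2 := 0) (W2 := 420477299) (P3 := 1046898278) (W3 := 26843546)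
    rfl k0_mm_022_a

noncomputable def f_mm_022_b : ℕ → ℕ → ℕ → ℕ → Bool := onCell 67108864 469762048 1239849684 370763052 1046898278 26843546
    (rowFX 0 false false false .pp 0 2 2 (qsf 67108864 469762048 1239849684 370763052 2) ndF2q0 ndF1q2b pcF2 Cut.none Ext.none)

def k0_mm_022_b : ∃ t, chk3 f_mm_022_b t 1 1 1 = true :=
  ⟨(l 5), by decide +kernel⟩

theorem c_mm_022_b : CertFX 67108864 469762048 1239849684 370763052 1046898278 26843546 false false false .pp 0 2 2
    ndF2q0 ndF1q2b pcF2 Cut.none Ext.none :=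
  certFX0 (fam := false) (s1 := false) (s2 := false) (a := 0) (b := 2) (c := 2) (cn := .pp) (n1 := ndF2q0) (n2 := ndF1q2b) (pc := pcF2) (cut := Cut.none) (xt := Ext.none) (P1 := 67108864) (W1 := 469762048) (P2 := 1239849684) (W2 := 370763052) (P3 := 1046898278) (W3 := 26843546)
    rfl k0_mm_022_b

noncomputable def f_mm_023 : ℕ → ℕ → ℕ → ℕ → Bool := onCell 67108864 469762048 1610612736 469762048 1046898278 26843546
    (rowFX 0 false false false .up 0 2 3 (qsf 67108864 469762048 1610612736 469762048 2) ndF2q0 ndF1q3 pcF2 Cut.none Ext.none)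

def k0_mm_023 : ∃ t, chk3 f_mm_023 t 1 1 1 = true :=
  ⟨(l 5), by decide +kernel⟩

theorem c_mm_023 : CertFX 67108864 469762048 1610612736 469762048 1046898278 26843546 false false false .up 0 2 3
    ndF2q0 ndF1q3 pcF2 Cut.none Ext.none :=
  certFX0 (fam := false) (s1 := false) (s2 := false) (a := 0) (b := 2) (c := 3) (cn := .up) (n1 := ndF2q0) (n2 := ndF1q3) (pc := pcF2) (cut := Cut.none) (xt := Ext.none) (P1 := 67108864) (W1 := 469762048) (P2 := 1610612736) (W2 := 469762048) (P3 := 1046898278) (W3 := 26843546)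
    rfl k0_mm_023

noncomputable def f_mm_033 : ℕ → ℕ → ℕ → ℕ → Bool := onCell 67108864 469762048 1610612736 469762048 1046898278 26843546
    (rowFX 0 false false false .pnn 0 3 3 (qsf 67108864 469762048 1610612736 469762048 3) ndF2q0 ndF1q3 pcF3 Cut.none Ext.none)

def k0_mm_033 : ∃ t, chk3 f_mm_033 t 1 1 1 = true :=
  ⟨(l 5), by decide +kernel⟩

theorem c_mm_033 : CertFX 67108864 469762048 1610612736 469762048 1046898278 26843546 false false false .pnn 0 3 3
    ndF2q0 ndF1q3 pcF3 Cut.none Ext.none :=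
  certFX0 (fam := false) (s1 := false) (s2 := false) (a := 0) (b := 3) (c := 3) (cn := .pnn) (n1 := ndF2q0) (n2 := ndF1q3) (pc := pcF3) (cut := Cut.none) (xt := Ext.none) (P1 := 67108864) (W1 := 469762048) (P2 := 1610612736) (W2 := 469762048) (P3 := 1046898278) (W3 := 26843546)
    rfl k0_mm_033

noncomputable def f_mm_101 : ℕ → ℕ → ℕ → ℕ → Bool := onCell 536870912 536870912 536870912 536870912 1046898278 26843546
    (rowFX 0 false false false .npn 1 0 1 (qsf 536870912 536870912 536870912 536870912 0) ndF2q1 ndF1q1 pcF0 Cut.none Ext.none)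

def k0_mm_101 : ∃ t, chk3 f_mm_101 t 1 1 1 = true :=
  ⟨(l 3), by decide +kernel⟩

theorem c_mm_101 : CertFX 536870912 536870912 536870912 536870912 1046898278 26843546 false false false .npn 1 0 1
    ndF2q1 ndF1q1 pcF0 Cut.none Ext.none :=
  certFX0 (fam := false) (s1 := false) (s2 := false) (a := 1) (b := 0) (c := 1) (cn := .npn) (n1 := ndF2q1) (n2 := ndF1q1) (pc := pcF0) (cut := Cut.none) (xt := Ext.none) (P1 := 536870912) (W1 := 536870912) (P2 := 536870912) (W2 := 536870912) (P3 := 1046898278) (W3 := 26843546)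
    rfl k0_mm_101

noncomputable def f_mm_102_a : ℕ → ℕ → ℕ → ℕ → Bool := onCell 536870912 536870912 0 420477299 1046898278 26843546
    (rowFX 0 false false false .npp 1 0 2 (qsf 536870912 536870912 0 420477299 0) ndF2q1 ndF1q2a pcF0 Cut.none Ext.none)

def k0_mm_102_a : ∃ t, chk3 f_mm_102_a t 1 1 1 = true :=
  ⟨(l 5), by decide +kernel⟩

theorem c_mm_102_a : CertFX 536870912 536870912 0 420477299 1046898278 26843546 false false false .npp 1 0 2
    ndF2q1 ndF1q2a pcF0 Cut.none Ext.none :=
  certFX0 (fam := false) (s1 := false) (s2 := false) (a := 1) (b := 0) (c := 2) (cn := .npp) (n1 := ndF2q1) (n2 := ndF1q2a) (pc := pcF0) (cut := Cut.none) (xt := Ext.none) (P1 := 536870912) (W1 := 536870912) (P2 := 0) (W2 := 420477299) (P3 := 1046898278) (W3 := 26843546)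
    rfl k0_mm_102_a

noncomputable def f_mm_102_b : ℕ → ℕ → ℕ → ℕ → Bool := onCell 536870912 536870912 1239849684 370763052 1046898278 26843546
    (rowFX 0 false false false .npp 1 0 2 (qsf 536870912 536870912 1239849684 370763052 0) ndF2q1 ndF1q2b pcF0 Cut.none Ext.none)

def k0_mm_102_b : ∃ t, chk3 f_mm_102_b t 1 1 1 = true :=
  ⟨(l 5), by decide +kernel⟩

theorem c_mm_102_b : CertFX 536870912 536870912 1239849684 370763052 1046898278 26843546 false false false .npp 1 0 2
    ndF2q1 ndF1q2b pcF0 Cut.none Ext.none :=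
  certFX0 (fam := false) (s1 := false) (s2 := false) (a := 1) (b := 0) (c := 2) (cn := .npp) (n1 := ndF2q1) (n2 := ndF1q2b) (pc := pcF0) (cut := Cut.none) (xt := Ext.none) (P1 := 536870912) (W1 := 536870912) (P2 := 1239849684) (W2 := 370763052) (P3 := 1046898278) (W3 := 26843546)
    rfl k0_mm_102_b

noncomputable def f_mm_112_a : ℕ → ℕ → ℕ → ℕ → Bool := onCell 536870912 536870912 0 420477299 1046898278 26843546
    (rowFX 0 false false false .dn 1 1 2 (qsf 536870912 536870912 0 420477299 1) ndF2q1 ndF1q2a pcF1 Cut.none Ext.none)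

def k0_mm_112_a : ∃ t, chk3 f_mm_112_a t 1 1 1 = true :=
  ⟨(l 5), by decide +kernel⟩

theorem c_mm_112_a : CertFX 536870912 536870912 0 420477299 1046898278 26843546 false false false .dn 1 1 2
    ndF2q1 ndF1q2a pcF1 Cut.none Ext.none :=
  certFX0 (fam := false) (s1 := false) (s2 := false) (a := 1) (b := 1) (c := 2) (cn := .dn) (n1 := ndF2q1) (n2 := ndF1q2a) (pc := pcF1) (cut := Cut.none) (xt := Ext.none) (P1 := 536870912) (W1 := 536870912) (P2 := 0) (W2 := 420477299) (P3 := 1046898278) (W3 := 26843546)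
    rfl k0_mm_112_a

noncomputable def f_mm_112_b : ℕ → ℕ → ℕ → ℕ → Bool := onCell 536870912 536870912 1239849684 370763052 1046898278 26843546
    (rowFX 0 false false false .dn 1 1 2 (qsf 536870912 536870912 1239849684 370763052 1) ndF2q1 ndF1q2b pcF1 Cut.none Ext.none)

def k0_mm_112_b : ∃ t, chk3 f_mm_112_b t 1 1 1 = true :=
  ⟨(l 5), by decide +kernel⟩

theorem c_mm_112_b : CertFX 536870912 536870912 1239849684 370763052 1046898278 26843546 false false false .dn 1 1 2
    ndF2q1 ndF1q2b pcF1 Cut.none Ext.none :=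
  certFX0 (fam := false) (s1 := false) (s2 := false) (a := 1) (b := 1) (c := 2) (cn := .dn) (n1 := ndF2q1) (n2 := ndF1q2b) (pc := pcF1) (cut := Cut.none) (xt := Ext.none) (P1 := 536870912) (W1 := 536870912) (P2 := 1239849684) (W2 := 370763052) (P3 := 1046898278) (W3 := 26843546)
    rfl k0_mm_112_b

noncomputable def f_mm_113 : ℕ → ℕ → ℕ → ℕ → Bool := onCell 536870912 536870912 1610612736 469762048 1046898278 26843546
    (rowFX 0 false false false .nn 1 1 3 (qsf 536870912 536870912 1610612736 469762048 1) ndF2q1 ndF1q3 pcF1 Cut.none Ext.none)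

def k0_mm_113 : ∃ t, chk3 f_mm_113 t 1 1 1 = true :=
  ⟨(l 5), by decide +kernel⟩

theorem c_mm_113 : CertFX 536870912 536870912 1610612736 469762048 1046898278 26843546 false false false .nn 1 1 3
    ndF2q1 ndF1q3 pcF1 Cut.none Ext.none :=
  certFX0 (fam := false) (s1 := false) (s2 := false) (a := 1) (b := 1) (c := 3) (cn := .nn) (n1 := ndF2q1) (n2 := ndF1q3) (pc := pcF1) (cut := Cut.none) (xt := Ext.none) (P1 := 536870912) (W1 := 536870912) (P2 := 1610612736) (W2 := 469762048) (P3 := 1046898278) (W3 := 26843546)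
    rfl k0_mm_113

noncomputable def f_mm_123 : ℕ → ℕ → ℕ → ℕ → Bool := onCell 536870912 536870912 1610612736 469762048 1046898278 26843546
    (rowFX 0 false false false .npn 1 2 3 (qsf 536870912 536870912 1610612736 469762048 2) ndF2q1 ndF1q3 pcF2 Cut.none Ext.none)

def k0_mm_123 : ∃ t, chk3 f_mm_123 t 1 1 1 = true :=
  ⟨(l 5), by decide +kernel⟩

theorem c_mm_123 : CertFX 536870912 536870912 1610612736 469762048 1046898278 26843546 false false false .npn 1 2 3
    ndF2q1 ndF1q3 pcF2 Cut.none Ext.none :=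
  certFX0 (fam := false) (s1 := false) (s2 := false) (a := 1) (b := 2) (c := 3) (cn := .npn) (n1 := ndF2q1) (n2 := ndF1q3) (pc := pcF2) (cut := Cut.none) (xt := Ext.none) (P1 := 536870912) (W1 := 536870912) (P2 := 1610612736) (W2 := 469762048) (P3 := 1046898278) (W3 := 26843546)
    rfl k0_mm_123

noncomputable def f_mm_133 : ℕ → ℕ → ℕ → ℕ → Bool := onCell 536870912 536870912 1610612736 469762048 1046898278 26843546
    (rowFX 0 false false false .dn 1 3 3 (qsf 536870912 536870912 1610612736 469762048 3) ndF2q1 ndF1q3 pcF3 Cut.none Ext.none)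

def k0_mm_133 : ∃ t, chk3 f_mm_133 t 1 1 1 = true :=
  ⟨(l 1), by decide +kernel⟩

theorem c_mm_133 : CertFX 536870912 536870912 1610612736 469762048 1046898278 26843546 false false false .dn 1 3 3
    ndF2q1 ndF1q3 pcF3 Cut.none Ext.none :=
  certFX0 (fam := false) (s1 := false) (s2 := false) (a := 1) (b := 3) (c := 3) (cn := .dn) (n1 := ndF2q1) (n2 := ndF1q3) (pc := pcF3) (cut := Cut.none) (xt := Ext.none) (P1 := 536870912) (W1 := 536870912) (P2 := 1610612736) (W2 := 469762048) (P3 := 1046898278) (W3 := 26843546)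
    rfl k0_mm_133

noncomputable def f_mm_202_aa : ℕ → ℕ → ℕ → ℕ → Bool := onCell 0 420477299 0 420477299 1046898278 26843546
    (rowFX 0 false false false .pp 2 0 2 (qsf 0 420477299 0 420477299 0) ndF2q2a ndF1q2a pcF0 Cut.none Ext.none)

def k0_mm_202_aa : ∃ t, chk3 f_mm_202_aa t 1 1 1 = true :=
  ⟨(l 3), by decide +kernel⟩

theorem c_mm_202_aa : CertFX 0 420477299 0 420477299 1046898278 26843546 false false false .pp 2 0 2
    ndF2q2a ndF1q2a pcF0 Cut.none Ext.none :=
  certFX0 (fam := false) (s1 := false) (s2 := false) (a := 2) (b := 0) (c := 2) (cn := .pp) (n1 := ndF2q2a) (n2 := ndF1q2a) (pc := pcF0) (cut := Cut.none) (xt := Ext.none) (P1 := 0) (W1 := 420477299) (P2 := 0) (W2 := 420477299) (P3 := 1046898278) (W3 := 26843546)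
    rfl k0_mm_202_aa

noncomputable def f_mm_202_ab : ℕ → ℕ → ℕ → ℕ → Bool := onCell 0 420477299 1239849684 370763052 1046898278 26843546
    (rowFX 0 false false false .pp 2 0 2 (qsf 0 420477299 1239849684 370763052 0) ndF2q2a ndF1q2b pcF0 Cut.none Ext.none)

def k0_mm_202_ab : ∃ t, chk3 f_mm_202_ab t 1 1 1 = true :=
  ⟨(l 3), by decide +kernel⟩

theorem c_mm_202_ab : CertFX 0 420477299 1239849684 370763052 1046898278 26843546 false false false .pp 2 0 2
    ndF2q2a ndF1q2b pcF0 Cut.none Ext.none :=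
  certFX0 (fam := false) (s1 := false) (s2 := false) (a := 2) (b := 0) (c := 2) (cn := .pp) (n1 := ndF2q2a) (n2 := ndF1q2b) (pc := pcF0) (cut := Cut.none) (xt := Ext.none) (P1 := 0) (W1 := 420477299) (P2 := 1239849684) (W2 := 370763052) (P3 := 1046898278) (W3 := 26843546)
    rfl k0_mm_202_ab

noncomputable def f_mm_202_ba : ℕ → ℕ → ℕ → ℕ → Bool := onCell 1239849684 370763052 0 420477299 1046898278 26843546
    (rowFX 0 false false false .pp 2 0 2 (qsf 1239849684 370763052 0 420477299 0) ndF2q2b ndF1q2a pcF0 Cut.none Ext.none)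

def k0_mm_202_ba : ∃ t, chk3 f_mm_202_ba t 1 1 1 = true :=
  ⟨(l 3), by decide +kernel⟩

theorem c_mm_202_ba : CertFX 1239849684 370763052 0 420477299 1046898278 26843546 false false false .pp 2 0 2
    ndF2q2b ndF1q2a pcF0 Cut.none Ext.none :=
  certFX0 (fam := false) (s1 := false) (s2 := false) (a := 2) (b := 0) (c := 2) (cn := .pp) (n1 := ndF2q2b) (n2 := ndF1q2a) (pc := pcF0) (cut := Cut.none) (xt := Ext.none) (P1 := 1239849684) (W1 := 370763052) (P2 := 0) (W2 := 420477299) (P3 := 1046898278) (W3 := 26843546)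
    rfl k0_mm_202_ba

noncomputable def f_mm_202_bb : ℕ → ℕ → ℕ → ℕ → Bool := onCell 1239849684 370763052 1239849684 370763052 1046898278 26843546
    (rowFX 0 false false false .pp 2 0 2 (qsf 1239849684 370763052 1239849684 370763052 0) ndF2q2b ndF1q2b pcF0 Cut.none Ext.none)

def k0_mm_202_bb : ∃ t, chk3 f_mm_202_bb t 1 1 1 = true :=
  ⟨(l 3), by decide +kernel⟩

theorem c_mm_202_bb : CertFX 1239849684 370763052 1239849684 370763052 1046898278 26843546 false false false .pp 2 0 2
    ndF2q2b ndF1q2b pcF0 Cut.none Ext.none :=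
  certFX0 (fam := false) (s1 := false) (s2 := false) (a := 2) (b := 0) (c := 2) (cn := .pp) (n1 := ndF2q2b) (n2 := ndF1q2b) (pc := pcF0) (cut := Cut.none) (xt := Ext.none) (P1 := 1239849684) (W1 := 370763052) (P2 := 1239849684) (W2 := 370763052) (P3 := 1046898278) (W3 := 26843546)
    rfl k0_mm_202_bb

noncomputable def f_mm_203_a : ℕ → ℕ → ℕ → ℕ → Bool := onCell 0 420477299 1610612736 469762048 1046898278 26843546
    (rowFX 0 false false false .up 2 0 3 (qsf 0 420477299 1610612736 469762048 0) ndF2q2a ndF1q3 pcF0 Cut.none Ext.none)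

def k0_mm_203_a : ∃ t, chk3 f_mm_203_a t 1 1 1 = true :=
  ⟨(l 3), by decide +kernel⟩

theorem c_mm_203_a : CertFX 0 420477299 1610612736 469762048 1046898278 26843546 false false false .up 2 0 3
    ndF2q2a ndF1q3 pcF0 Cut.none Ext.none :=
  certFX0 (fam := false) (s1 := false) (s2 := false) (a := 2) (b := 0) (c := 3) (cn := .up) (n1 := ndF2q2a) (n2 := ndF1q3) (pc := pcF0) (cut := Cut.none) (xt := Ext.none) (P1 := 0) (W1 := 420477299) (P2 := 1610612736) (W2 := 469762048) (P3 := 1046898278) (W3 := 26843546)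
    rfl k0_mm_203_a

noncomputable def f_mm_203_b : ℕ → ℕ → ℕ → ℕ → Bool := onCell 1239849684 370763052 1610612736 469762048 1046898278 26843546
    (rowFX 0 false false false .up 2 0 3 (qsf 1239849684 370763052 1610612736 469762048 0) ndF2q2b ndF1q3 pcF0 Cut.none Ext.none)

def k0_mm_203_b : ∃ t, chk3 f_mm_203_b t 1 1 1 = true :=
  ⟨(l 3), by decide +kernel⟩

theorem c_mm_203_b : CertFX 1239849684 370763052 1610612736 469762048 1046898278 26843546 false false false .up 2 0 3
    ndF2q2b ndF1q3 pcF0 Cut.none Ext.none :=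
  certFX0 (fam := false) (s1 := false) (s2 := false) (a := 2) (b := 0) (c := 3) (cn := .up) (n1 := ndF2q2b) (n2 := ndF1q3) (pc := pcF0) (cut := Cut.none) (xt := Ext.none) (P1 := 1239849684) (W1 := 370763052) (P2 := 1610612736) (W2 := 469762048) (P3 := 1046898278) (W3 := 26843546)
    rfl k0_mm_203_b

noncomputable def f_mm_213_a : ℕ → ℕ → ℕ → ℕ → Bool := onCell 0 420477299 1610612736 469762048 1046898278 26843546
    (rowFX 0 false false false .pnn 2 1 3 (qsf 0 420477299 1610612736 469762048 1) ndF2q2a ndF1q3 pcF1 Cut.none Ext.none)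

def k0_mm_213_a : ∃ t, chk3 f_mm_213_a t 1 1 1 = true :=
  ⟨(l 3), by decide +kernel⟩

theorem c_mm_213_a : CertFX 0 420477299 1610612736 469762048 1046898278 26843546 false false false .pnn 2 1 3
    ndF2q2a ndF1q3 pcF1 Cut.none Ext.none :=
  certFX0 (fam := false) (s1 := false) (s2 := false) (a := 2) (b := 1) (c := 3) (cn := .pnn) (n1 := ndF2q2a) (n2 := ndF1q3) (pc := pcF1) (cut := Cut.none) (xt := Ext.none) (P1 := 0) (W1 := 420477299) (P2 := 1610612736) (W2 := 469762048) (P3 := 1046898278) (W3 := 26843546)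
    rfl k0_mm_213_a

noncomputable def f_mm_213_b : ℕ → ℕ → ℕ → ℕ → Bool := onCell 1239849684 370763052 1610612736 469762048 1046898278 26843546
    (rowFX 0 false false false .pnn 2 1 3 (qsf 1239849684 370763052 1610612736 469762048 1) ndF2q2b ndF1q3 pcF1 Cut.none Ext.none)

def k0_mm_213_b : ∃ t, chk3 f_mm_213_b t 1 1 1 = true :=
  ⟨(l 3), by decide +kernel⟩

theorem c_mm_213_b : CertFX 1239849684 370763052 1610612736 469762048 1046898278 26843546 false false false .pnn 2 1 3
    ndF2q2b ndF1q3 pcF1 Cut.none Ext.none :=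
  certFX0 (fam := false) (s1 := false) (s2 := false) (a := 2) (b := 1) (c := 3) (cn := .pnn) (n1 := ndF2q2b) (n2 := ndF1q3) (pc := pcF1) (cut := Cut.none) (xt := Ext.none) (P1 := 1239849684) (W1 := 370763052) (P2 := 1610612736) (W2 := 469762048) (P3 := 1046898278) (W3 := 26843546)
    rfl k0_mm_213_b

noncomputable def f_mm_303 : ℕ → ℕ → ℕ → ℕ → Bool := onCell 1610612736 469762048 1610612736 469762048 1046898278 26843546
    (rowFX 0 false false false .npn 3 0 3 (qsf 1610612736 469762048 1610612736 469762048 0) ndF2q3 ndF1q3 pcF0 Cut.none Ext.none)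

def k0_mm_303 : ∃ t, chk3 f_mm_303 t 1 1 1 = true :=
  ⟨(l 3), by decide +kernel⟩

theorem c_mm_303 : CertFX 1610612736 469762048 1610612736 469762048 1046898278 26843546 false false false .npn 3 0 3
    ndF2q3 ndF1q3 pcF0 Cut.none Ext.none :=
  certFX0 (fam := false) (s1 := false) (s2 := false) (a := 3) (b := 0) (c := 3) (cn := .npn) (n1 := ndF2q3) (n2 := ndF1q3) (pc := pcF0) (cut := Cut.none) (xt := Ext.none) (P1 := 1610612736) (W1 := 469762048) (P2 := 1610612736) (W2 := 469762048) (P3 := 1046898278) (W3 := 26843546)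
    rfl k0_mm_303

noncomputable def f_mm_313 : ℕ → ℕ → ℕ → ℕ → Bool := onCell 1610612736 469762048 1610612736 469762048 1046898278 26843546
    (rowFX 0 false false false .dn 3 1 3 (qsf 1610612736 469762048 1610612736 469762048 1) ndF2q3 ndF1q3 pcF1 Cut.none Ext.none)

def k0_mm_313 : ∃ t, chk3 f_mm_313 t 1 1 1 = true :=
  ⟨(l 1), by decide +kernel⟩

theorem c_mm_313 : CertFX 1610612736 469762048 1610612736 469762048 1046898278 26843546 false false false .dn 3 1 3
    ndF2q3 ndF1q3 pcF1 Cut.none Ext.none :=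
  certFX0 (fam := false) (s1 := false) (s2 := false) (a := 3) (b := 1) (c := 3) (cn := .dn) (n1 := ndF2q3) (n2 := ndF1q3) (pc := pcF1) (cut := Cut.none) (xt := Ext.none) (P1 := 1610612736) (W1 := 469762048) (P2 := 1610612736) (W2 := 469762048) (P3 := 1046898278) (W3 := 26843546)
    rfl k0_mm_313

end Pool.Agent.Strip051.G.IE1.Tab.C.FB21

namespace Pool.Agent.Strip051.G.IE1.Tab.C.FB22

open Pool.Agent.Strip051.PB Pool.Agent.Strip051.PB.T
open Pool.Agent.Strip051.G.IE1.Tab

noncomputable def f_pp_001 : ℕ → ℕ → ℕ → ℕ → Bool := onCell 67108864 469762048 536870912 536870912 1046898278 26843546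
    (rowFX 0 false true true .up 0 0 1 (qsf 67108864 469762048 536870912 536870912 0) ndF2q0 ndF2q1 pcF0 Cut.none Ext.none)

def k0_pp_001 : ∃ t, chk3 f_pp_001 t 1 1 1 = true :=
  ⟨(l 3), by decide +kernel⟩

theorem c_pp_001 : CertFX 67108864 469762048 536870912 536870912 1046898278 26843546 false true true .up 0 0 1
    ndF2q0 ndF2q1 pcF0 Cut.none Ext.none :=
  certFX0 (fam := false) (s1 := true) (s2 := true) (a := 0) (b := 0) (c := 1) (cn := .up) (n1 := ndF2q0) (n2 := ndF2q1) (pc := pcF0) (cut := Cut.none) (xt := Ext.none) (P1 := 67108864) (W1 := 469762048) (P2 := 536870912) (W2 := 536870912) (P3 := 1046898278) (W3 := 26843546)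
    rfl k0_pp_001

noncomputable def f_pp_011 : ℕ → ℕ → ℕ → ℕ → Bool := onCell 67108864 469762048 536870912 536870912 1046898278 26843546
    (rowFX 0 false true true .pnn 0 1 1 (qsf 67108864 469762048 536870912 536870912 1) ndF2q0 ndF2q1 pcF1 Cut.none Ext.none)

def k0_pp_011 : ∃ t, chk3 f_pp_011 t 1 1 1 = true :=
  ⟨(l 3), by decide +kernel⟩

theorem c_pp_011 : CertFX 67108864 469762048 536870912 536870912 1046898278 26843546 false true true .pnn 0 1 1
    ndF2q0 ndF2q1 pcF1 Cut.none Ext.none :=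
  certFX0 (fam := false) (s1 := true) (s2 := true) (a := 0) (b := 1) (c := 1) (cn := .pnn) (n1 := ndF2q0) (n2 := ndF2q1) (pc := pcF1) (cut := Cut.none) (xt := Ext.none) (P1 := 67108864) (W1 := 469762048) (P2 := 536870912) (W2 := 536870912) (P3 := 1046898278) (W3 := 26843546)
    rfl k0_pp_011

noncomputable def f_pp_012_a : ℕ → ℕ → ℕ → ℕ → Bool := onCell 536870912 536870912 0 420477299 1046898278 26843546
    (rowFX 2 false true true .pnp 0 1 2 (qsf 67108864 469762048 0 420477299 1) ndF2q0 ndF2q2a pcF1 Cut.none Ext.none)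

def k0_pp_012_a : ∃ t, chk3 f_pp_012_a t 2 1 1 = true :=
  ⟨(b (a (l 2) (a (b (c (l 100495331559) (a (l 16701432) (l 16701432))) (a (b (l 16721384) (c (l 16771272) (l 16771112))) (b (l 16721384) (l 16729248)))) (b (c (l 16703352) (l 16701432)) (c (l 16753016) (b (l 16720664) (l 16771112)))))) (a (l 3) (b (a (b (a (l 311552570791) (c (l 16677568) (l 16674976))) (l 3)) (c (b (l 16677568) (l 16523392)) (b (l 16674976) (l 189145679751)))) (b (a (l 3) (c (l 275044754439) (l 275581608647))) (l 3))))), by decide +kernel⟩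

def k1_pp_012_a : ∃ t, chk3 f_pp_012_a t 6 1 1 = true :=
  ⟨(b (a (b (a (c (l 16703344) (l 16701424)) (c (l 16698296) (l 16696192))) (a (c (l 16753016) (l 16752384)) (b (l 16717224) (l 16766144)))) (a (b (c (l 16687648) (l 16685232)) (b (l 16707504) (l 16753896))) (b (a (l 16677512) (b (l 16706984) (l 16679208))) (a (l 16731232) (b (l 16724160) (l 16744688)))))) (b (a (a (c (l 16611360) (l 16607048)) (c (l 16608624) (l 16604016))) (a (c (l 16601392) (l 16595784)) (a (l 16590920) (b (l 16622616) (l 16553664))))) (a (b (c (a (l 16398928) (l 16398160)) (a (l 16389104) (l 16388248))) (c (a (l 3) (l 16291432)) (l 284708211303))) (b (a (c (l 16394608) (l 16384160)) (a (l 16384576) (b (l 16371224) (a (l 16364640) (l 16401160))))) (a (c (b (l 16319376) (l 268065247079)) (l 16277656)) (a (b (l 16309232) (c (b (l 16270912) (l 16233472)) (l 16234024))) (b (c (l 16330480) (l 16315840)) (c (l 16255080) (l 16230824))))))))), by decide +kernel⟩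

def k2_pp_012_a : ∃ t, chk3 f_pp_012_a t 7 1 1 = true :=
  ⟨(b (a (a (b (a (l 16730680) (l 16636816)) (a (b (l 16711568) (l 16663504)) (l 16460456))) (b (l 16506800) (a (b (l 16513504) (l 16469792)) (b (l 16457168) (l 16448128))))) (b (a (l 16482032) (l 16569128)) (a (b (l 16490760) (a (l 16468824) (b (l 16500880) (l 16473008)))) (a (b (l 16548840) (a (l 16462016) (l 16545360))) (l 16584256))))) (a (b (a (b (a (l 16590648) (l 16488192)) (a (l 16491784) (l 16432208))) (a (b (l 16438944) (l 16426576)) (b (l 16445472) (l 16434400)))) (b (a (a (b (l 16428560) (l 16443800)) (l 16432928)) (c (l 16440448) (l 16431552))) (a (c (b (l 16451936) (l 16375160)) (b (l 16448568) (l 16358296))) (c (b (l 16485128) (l 16514344)) (b (l 16477736) (l 16508672)))))) (b (a (a (b (l 16460440) (l 16442320)) (c (b (l 16485072) (l 16453864)) (l 16422360))) (a (c (b (a (l 16507864) (l 16521096)) (a (l 16465160) (l 16471168))) (b (l 16509488) (l 16464104))) (c (b (l 16475672) (l 16464808)) (b (a (l 16528696) (l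 16541168)) (a (l 16476632) (l 16424552)))))) (a (b (a (c (l 16438512) (l 16429688)) (c (a (l 16429888) (l 16427424)) (l 16419608))) (c (a (l 16478616) (a (l 16458576) (l 16455552))) (a (l 16470752) (b (l 16439176) (l 16457848))))) (b (a (c (c (a (l 16430088) (l 16430512)) (l 16430944)) (l 16427520)) (a (c (b (l 16433656) (l 16446016)) (c (l 16441912) (l 16440104))) (c (l 16467968) (b (l 16360720) (l 16414672))))) (b (a (c (a (l 16446216) (l 16416904)) (l 16454256)) (c (l 16430272) (a (l 16492520) (l 16410936)))) (a (c (a (l 16481400) (l 16449656)) (l 16499632)) (c (a (l 16550496) (l 16599216)) (a (l 16515248) (c (l 16600440) (l 16603376))))))))))), by decide +kernel⟩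

theorem s3_pp_012_a : ∃ t, chk3 f_pp_012_a t 3 1 1 = true := ex3_a k1_pp_012_a k2_pp_012_a

theorem s4_pp_012_a : ∃ t, chk3 f_pp_012_a t 1 1 1 = true := ex3_a k0_pp_012_a s3_pp_012_a

theorem c_pp_012_a : CertFX 67108864 469762048 0 420477299 1046898278 26843546 false true true .pnp 0 1 2
    ndF2q0 ndF2q2a pcF1 Cut.none Ext.none :=
  certFX2 (fam := false) (s1 := true) (s2 := true) (a := 0) (b := 1) (c := 2) (cn := .pnp) (n1 := ndF2q0) (n2 := ndF2q2a) (pc := pcF1) (cut := Cut.none) (xt := Ext.none) (P1 := 67108864) (W1 := 469762048) (P2 := 0) (W2 := 420477299) (P3 := 1046898278) (W3 := 26843546)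
    rfl (fun _ => rfl) s4_pp_012_a

noncomputable def f_pp_012_b : ℕ → ℕ → ℕ → ℕ → Bool := onCell 536870912 536870912 1239849684 370763052 1046898278 26843546
    (rowFX 2 false true true .pnp 0 1 2 (qsf 67108864 469762048 1239849684 370763052 1) ndF2q0 ndF2q2b pcF1 Cut.none Ext.none)

def k0_pp_012_b : ∃ t, chk3 f_pp_012_b t 1 1 1 = true :=
  ⟨(b (a (a (l 2) (a (b (c (l 16753368) (l 16710808)) (l 2)) (b (a (l 16753056) (l 16711112)) (l 16777216)))) (a (a (b (a (b (l 16732992) (l 16771848)) (l 16748552)) (l 16772808)) (b (b (l 16615160) (l 16760016)) (l 16755296))) (a (b (a (l 16656280) (l 16418232)) (l 16563144)) (b (b (a (b (l 16413688) (l 16330600)) (l 16179568)) (a (l 16307792) (l 16181296))) (l 16252256))))) (a (l 2) (a (a (l 2) (l 16755720)) (a (l 16579728) (l 16190976))))), by decide +kernel⟩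

theorem c_pp_012_b : CertFX 67108864 469762048 1239849684 370763052 1046898278 26843546 false true true .pnp 0 1 2
    ndF2q0 ndF2q2b pcF1 Cut.none Ext.none :=
  certFX2 (fam := false) (s1 := true) (s2 := true) (a := 0) (b := 1) (c := 2) (cn := .pnp) (n1 := ndF2q0) (n2 := ndF2q2b) (pc := pcF1) (cut := Cut.none) (xt := Ext.none) (P1 := 67108864) (W1 := 469762048) (P2 := 1239849684) (W2 := 370763052) (P3 := 1046898278) (W3 := 26843546)
    rfl (fun _ => rfl) k0_pp_012_b

noncomputable def f_pp_022_a : ℕ → ℕ → ℕ → ℕ → Bool := onCell 1073741824 536870912 0 420477299 1046898278 26843546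
    (rowFX 2 false true true .pp 0 2 2 (qsf 67108864 469762048 0 420477299 2) ndF2q0 ndF2q2a pcF2 Cut.none Ext.none)

def k0_pp_022_a : ∃ t, chk3 f_pp_022_a t 4 2 1 = true :=
  ⟨(a (b (a (l 16508368) (c (l 16524464) (l 16566240))) (a (b (l 16532200) (l 16514216)) (b (c (l 16565024) (l 16563328)) (c (l 16545816) (l 16543336))))) (a (b (a (l 16572032) (c (l 16535784) (l 16534656))) (b (a (l 16543216) (l 16478072)) (c (a (l 16529096) (l 16541664)) (l 16541776)))) (b (l 1) (l 1)))), by decide +kernel⟩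

def k1_pp_022_a : ∃ t, chk3 f_pp_022_a t 16 3 1 = true :=
  ⟨(b (a (b (l 16486120) (c (l 16479824) (l 16473024))) (b (l 16477784) (b (l 16504304) (b (l 16488424) (c (a (a (l 16480752) (l 16480424)) (l 16482288)) (c (l 16477728) (l 16474784))))))) (b (a (c (a (b (c (b (l 16472568) (l 16455616)) (b (l 16468808) (l 16451680))) (c (l 16447200) (l 16443248))) (b (c (b (l 16474416) (l 16464176)) (b (l 16471056) (l 16461312))) (c (l 16446752) (l 16445120)))) (a (b (c (b (l 16465088) (l 16447872)) (a (l 16430424) (l 16455504))) (c (l 16439920) (l 16437424))) (c (b (l 16463872) (l 16444944)) (b (l 16460968) (l 16444312))))) (c (b (a (c (l 16473880) (l 16472016)) (l 16413888)) (c (a (l 16442200) (l 16434496)) (l 16444336))) (b (c (a (l 16470376) (l 16475616)) (l 16471384)) (c (l 16362048) (l 16444256))))) (b (c (a (a (c (l 16440760) (l 16436832)) (c (a (l 16426624) (l 16418216)) (l 16423560))) (c (a (l 162704506023) (l 1)) (l 242698285543))) (a (a (c (l 16434264) (a (l 16433680) (l 16431744)))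 (c (l 16426520) (l 16428600))) (c (l 324302685591) (l 16420320)))) (a (c (a (c (b (l 16436832) (l 16435432)) (l 16434832)) (c (a (l 223907826311) (l 1)) (l 288869227015))) (a (c (a (l 16437040) (l 16426448)) (a (l 16435808) (l 16429880))) (c (l 16420016) (l 16425256)))) (l 1))))), by decide +kernel⟩

def k2_pp_022_a : ∃ t, chk3 f_pp_022_a t 17 3 1 = true :=
  ⟨(a (b (b (l 16525888) (b (l 16501024) (c (c (a (l 16489096) (l 16490480)) (a (l 16487104) (l 16490504))) (a (l 16483504) (l 16487136))))) (b (a (c (c (b (l 16474752) (l 16424160)) (b (l 16477880) (l 16439904))) (l 331282080295)) (b (c (c (l 16468416) (l 16478424)) (l 16475112)) (l 1))) (l 1))) (b (b (l 16519840) (a (c (c (b (l 16462616) (l 402149108135)) (l 455299365303)) (b (l 16501152) (l 16492768))) (a (b (b (l 16513792) (l 1)) (l 1)) (l 1)))) (l 1))), by decide +kernel⟩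

def k3_pp_022_a : ∃ t, chk3 f_pp_022_a t 9 3 1 = true :=
  ⟨(b (b (a (a (a (l 16526096) (l 1)) (l 1)) (l 1)) (l 1)) (l 1)), by decide +kernel⟩

def k4_pp_022_a : ∃ t, chk3 f_pp_022_a t 5 1 1 = true :=
  ⟨(l 1), by decide +kernel⟩

def k5_pp_022_a : ∃ t, chk3 f_pp_022_a t 3 1 1 = true :=
  ⟨(l 1), by decide +kernel⟩

theorem s6_pp_022_a : ∃ t, chk3 f_pp_022_a t 8 3 1 = true := ex3_a k1_pp_022_a k2_pp_022_a

theorem s7_pp_022_a : ∃ t, chk3 f_pp_022_a t 4 3 1 = true := ex3_a s6_pp_022_a k3_pp_022_a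

theorem s8_pp_022_a : ∃ t, chk3 f_pp_022_a t 4 1 1 = true := ex3_b k0_pp_022_a s7_pp_022_a

theorem s9_pp_022_a : ∃ t, chk3 f_pp_022_a t 2 1 1 = true := ex3_a s8_pp_022_a k4_pp_022_a

theorem s10_pp_022_a : ∃ t, chk3 f_pp_022_a t 1 1 1 = true := ex3_a s9_pp_022_a k5_pp_022_a

theorem c_pp_022_a : CertFX 67108864 469762048 0 420477299 1046898278 26843546 false true true .pp 0 2 2
    ndF2q0 ndF2q2a pcF2 Cut.none Ext.none :=
  certFX2 (fam := false) (s1 := true) (s2 := true) (a := 0) (b := 2) (c := 2) (cn := .pp) (n1 := ndF2q0) (n2 := ndF2q2a) (pc := pcF2) (cut := Cut.none) (xt := Ext.none) (P1 := 67108864) (W1 := 469762048) (P2 := 0) (W2 := 420477299) (P3 := 1046898278) (W3 := 26843546)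
    rfl (fun _ => rfl) s10_pp_022_a

noncomputable def f_pp_022_b : ℕ → ℕ → ℕ → ℕ → Bool := onCell 67108864 469762048 1073741824 536870912 1046898278 26843546
    (rowFX 1 false true true .pp 0 2 2 (qsf 67108864 469762048 1239849684 370763052 2) ndF2q0 ndF2q2b pcF2 Cut.none Ext.none)

def k0_pp_022_b : ∃ t, chk3 f_pp_022_b t 1 1 1 = true :=
  ⟨(b (b (a (a (b (a (a (l 1) (b (l 1) (a (b (l 1) (l 16506912)) (l 16496144)))) (b (a (a (l 16524432) (l 371010645687)) (b (l 16574456) (l 16405888))) (a (l 16390440) (l 16170368)))) (a (c (b (a (b (l 16419848) (l 16331168)) (l 16207944)) (a (l 15947832) (l 15870920))) (b (a (b (l 16459648) (l 16434088)) (l 16256784)) (a (l 16042384) (l 15851848)))) (b (a (l 16067656) (l 15892592)) (l 15629624)))) (b (a (b (a (l 16227168) (l 15991824)) (l 15858200)) (l 15795232)) (a (b (l 15640680) (l 15340168)) (l 15384192)))) (b (a (a (l 15768104) (l 15743168)) (l 15709096)) (a (l 15327312) (l 15443320)))) (a (b (a (b (a (b (a (l 15676024) (l 15584096)) (a (l 15891568)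 (l 15711696))) (b (l 15382032) (l 15518496))) (a (a (b (l 16269384) (l 16292304)) (l 16190264)) (l 16067352))) (b (b (a (l 15121344) (l 15045896)) (l 15128368)) (a (l 15833056) (l 15762280)))) (a (b (a (a (l 15856768) (l 16136384)) (l 16410832)) (a (l 15483896) (l 16192080))) (b (a (l 16513272) (l 16442688)) (l 16699240)))) (b (b (b (l 15111952) (l 15262976)) (l 15742312)) (b (a (l 16452160) (l 2)) (l 16839016))))) (a (b (a (a (b (l 15609352) (l 15630320)) (l 16191784)) (b (l 16699056) (l 16699120))) (a (a (b (l 15714208) (l 15714208)) (l 16170816)) (l 2))) (l 2))), by decide +kernel⟩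

theorem c_pp_022_b : CertFX 67108864 469762048 1239849684 370763052 1046898278 26843546 false true true .pp 0 2 2
    ndF2q0 ndF2q2b pcF2 Cut.none Ext.none :=
  certFX1 (fam := false) (s1 := true) (s2 := true) (a := 0) (b := 2) (c := 2) (cn := .pp) (n1 := ndF2q0) (n2 := ndF2q2b) (pc := pcF2) (cut := Cut.none) (xt := Ext.none) (P1 := 67108864) (W1 := 469762048) (P2 := 1239849684) (W2 := 370763052) (P3 := 1046898278) (W3 := 26843546)
    rfl (fun _ => rfl) k0_pp_022_b

noncomputable def f_pp_023 : ℕ → ℕ → ℕ → ℕ → Bool := onCell 67108864 469762048 1073741824 536870912 1046898278 26843546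
    (rowFX 1 false true true .up 0 2 3 (qsf 67108864 469762048 1610612736 469762048 2) ndF2q0 ndF2q3 pcF2 Cut.none Ext.none)

def k0_pp_023 : ∃ t, chk3 f_pp_023 t 1 1 1 = true :=
  ⟨(b (b (a (l 1) (b (l 364029439655) (a (l 302288642535) (l 15443320)))) (a (b (l 1) (a (l 1) (b (l 942240898471) (l 16678272)))) (b (b (b (l 15111952) (l 15262976)) (l 15721336)) (b (l 348461753463) (l 16839016))))) (a (b (a (a (l 1) (l 16191784)) (b (l 16699056) (l 16699120))) (a (a (b (l 15714208) (l 15714208)) (l 16107896)) (b (l 16699056) (l 16699056)))) (b (b (a (l 16768312) (l 16738248)) (l 16775136)) (a (l 16777200) (b (l 16761448) (l 16746336)))))), by decide +kernel⟩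

theorem c_pp_023 : CertFX 67108864 469762048 1610612736 469762048 1046898278 26843546 false true true .up 0 2 3
    ndF2q0 ndF2q3 pcF2 Cut.none Ext.none :=
  certFX1 (fam := false) (s1 := true) (s2 := true) (a := 0) (b := 2) (c := 3) (cn := .up) (n1 := ndF2q0) (n2 := ndF2q3) (pc := pcF2) (cut := Cut.none) (xt := Ext.none) (P1 := 67108864) (W1 := 469762048) (P2 := 1610612736) (W2 := 469762048) (P3 := 1046898278) (W3 := 26843546)
    rfl (fun _ => rfl) k0_pp_023

noncomputable def f_pp_033 : ℕ → ℕ → ℕ → ℕ → Bool := onCell 67108864 469762048 1610612736 536870912 1046898278 26843546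
    (rowFX 1 false true true .pnn 0 3 3 (qsf 67108864 469762048 1610612736 469762048 3) ndF2q0 ndF2q3 pcF3 Cut.none Ext.none)

def k0_pp_033 : ∃ t, chk3 f_pp_033 t 1 1 1 = true :=
  ⟨(b (a (b (a (b (a (l 15609352) (l 16191784)) (a (c (l 15729880) (l 15696776)) (l 16191784))) (b (l 16699040) (a (l 16616848) (l 16775456)))) (a (a (b (c (l 15729872) (l 15696768)) (b (a (l 15568688) (l 15876392)) (l 4))) (b (c (l 16199264) (l 16184248)) (l 4))) (b (a (b (l 16616848) (l 4)) (l 4)) (l 4)))) (b (b (a (l 16761120) (b (l 16735432) (l 4))) (a (b (l 16749728) (l 4)) (l 2))) (a (l 4) (l 2)))) (a (b (a (l 4) (b (l 4) (l 2))) (a (b (l 4) (l 2)) (l 2))) (l 2))), by decide +kernel⟩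

theorem c_pp_033 : CertFX 67108864 469762048 1610612736 469762048 1046898278 26843546 false true true .pnn 0 3 3
    ndF2q0 ndF2q3 pcF3 Cut.none Ext.none :=
  certFX1 (fam := false) (s1 := true) (s2 := true) (a := 0) (b := 3) (c := 3) (cn := .pnn) (n1 := ndF2q0) (n2 := ndF2q3) (pc := pcF3) (cut := Cut.none) (xt := Ext.none) (P1 := 67108864) (W1 := 469762048) (P2 := 1610612736) (W2 := 469762048) (P3 := 1046898278) (W3 := 26843546)
    rfl (fun _ => rfl) k0_pp_033

noncomputable def f_pp_101 : ℕ → ℕ → ℕ → ℕ → Bool := onCell 536870912 536870912 536870912 536870912 1046898278 26843546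
    (rowFX 0 false true true .npn 1 0 1 (qsf 536870912 536870912 536870912 536870912 0) ndF2q1 ndF2q1 pcF0 Cut.none Ext.none)

def k0_pp_101 : ∃ t, chk3 f_pp_101 t 1 1 1 = true :=
  ⟨(l 3), by decide +kernel⟩

theorem c_pp_101 : CertFX 536870912 536870912 536870912 536870912 1046898278 26843546 false true true .npn 1 0 1
    ndF2q1 ndF2q1 pcF0 Cut.none Ext.none :=
  certFX0 (fam := false) (s1 := true) (s2 := true) (a := 1) (b := 0) (c := 1) (cn := .npn) (n1 := ndF2q1) (n2 := ndF2q1) (pc := pcF0) (cut := Cut.none) (xt := Ext.none) (P1 := 536870912) (W1 := 536870912) (P2 := 536870912) (W2 := 536870912) (P3 := 1046898278) (W3 := 26843546)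
    rfl k0_pp_101

noncomputable def f_pp_102_a : ℕ → ℕ → ℕ → ℕ → Bool := onCell 0 536870912 0 420477299 1046898278 26843546
    (rowFX 2 false true true .npp 1 0 2 (qsf 536870912 536870912 0 420477299 0) ndF2q1 ndF2q2a pcF0 Cut.none Ext.none)

def k0_pp_102_a : ∃ t, chk3 f_pp_102_a t 1 1 1 = true :=
  ⟨(a (l 3) (b (a (l 3) (a (l 3) (a (l 3) (b (c (l 311552753399) (l 316384547799)) (l 3))))) (l 3))), by decide +kernel⟩

theorem c_pp_102_a : CertFX 536870912 536870912 0 420477299 1046898278 26843546 false true true .npp 1 0 2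
    ndF2q1 ndF2q2a pcF0 Cut.none Ext.none :=
  certFX2 (fam := false) (s1 := true) (s2 := true) (a := 1) (b := 0) (c := 2) (cn := .npp) (n1 := ndF2q1) (n2 := ndF2q2a) (pc := pcF0) (cut := Cut.none) (xt := Ext.none) (P1 := 536870912) (W1 := 536870912) (P2 := 0) (W2 := 420477299) (P3 := 1046898278) (W3 := 26843546)
    rfl (fun _ => rfl) k0_pp_102_a

noncomputable def f_pp_102_b : ℕ → ℕ → ℕ → ℕ → Bool := onCell 0 536870912 1239849684 370763052 1046898278 26843546
    (rowFX 2 false true true .npp 1 0 2 (qsf 536870912 536870912 1239849684 370763052 0) ndF2q1 ndF2q2b pcF0 Cut.none Ext.none)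

def k0_pp_102_b : ∃ t, chk3 f_pp_102_b t 1 1 1 = true :=
  ⟨(a (l 3) (b (a (l 3) (a (l 3) (a (l 3) (b (b (c (l 16733568) (l 16732432)) (l 199346836679)) (l 16767664))))) (a (l 3) (a (l 3) (b (a (l 3) (l 3)) (l 3)))))), by decide +kernel⟩

theorem c_pp_102_b : CertFX 536870912 536870912 1239849684 370763052 1046898278 26843546 false true true .npp 1 0 2
    ndF2q1 ndF2q2b pcF0 Cut.none Ext.none :=
  certFX2 (fam := false) (s1 := true) (s2 := true) (a := 1) (b := 0) (c := 2) (cn := .npp) (n1 := ndF2q1) (n2 := ndF2q2b) (pc := pcF0) (cut := Cut.none) (xt := Ext.none) (P1 := 536870912) (W1 := 536870912) (P2 := 1239849684) (W2 := 370763052) (P3 := 1046898278) (W3 := 26843546)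
    rfl (fun _ => rfl) k0_pp_102_b

noncomputable def f_pp_112_a : ℕ → ℕ → ℕ → ℕ → Bool := onCell 536870912 536870912 0 420477299 1046898278 26843546
    (rowFX 2 false true true .dn 1 1 2 (qsf 536870912 536870912 0 420477299 1) ndF2q1 ndF2q2a pcF1 Cut.none Ext.none)

def k0_pp_112_a : ∃ t, chk3 f_pp_112_a t 1 1 1 = true :=
  ⟨(a (a (b (a (b (c (a (b (l 16707088) (l 326585116679)) (b (l 16707088) (l 260549994503))) (a (l 274508616327) (l 228337717895))) (l 3)) (b (a (c (l 16703352) (l 16701432)) (c (l 16703352) (l 16701432))) (a (b (a (l 282024840807) (l 16721384)) (l 3)) (b (l 16700408) (l 240148971271))))) (l 3)) (a (b (b (c (l 16703352) (l 7012680487)) (a (b (l 16721384) (c (l 16771272) (l 16771112))) (l 1))) (a (a (l 3) (l 1)) (l 1))) (l 1))) (l 1)), by decide +kernel⟩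

theorem c_pp_112_a : CertFX 536870912 536870912 0 420477299 1046898278 26843546 false true true .dn 1 1 2
    ndF2q1 ndF2q2a pcF1 Cut.none Ext.none :=
  certFX2 (fam := false) (s1 := true) (s2 := true) (a := 1) (b := 1) (c := 2) (cn := .dn) (n1 := ndF2q1) (n2 := ndF2q2a) (pc := pcF1) (cut := Cut.none) (xt := Ext.none) (P1 := 536870912) (W1 := 536870912) (P2 := 0) (W2 := 420477299) (P3 := 1046898278) (W3 := 26843546)
    rfl (fun _ => rfl) k0_pp_112_a

noncomputable def f_pp_112_b : ℕ → ℕ → ℕ → ℕ → Bool := onCell 536870912 536870912 1239849684 370763052 1046898278 26843546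
    (rowFX 2 false true true .dn 1 1 2 (qsf 536870912 536870912 1239849684 370763052 1) ndF2q1 ndF2q2b pcF1 Cut.none Ext.none)

def k0_pp_112_b : ∃ t, chk3 f_pp_112_b t 1 1 1 = true :=
  ⟨(a (a (b (a (a (b (c (b (l 16733568) (l 16771920)) (l 16710808)) (l 16752896)) (b (c (l 16711424) (l 16752752)) (l 16776840))) (c (b (a (l 16753368) (l 16753368)) (l 16777216)) (b (b (l 16732432) (l 16771776)) (l 16777216)))) (a (b (a (c (l 16765664) (l 16744392)) (c (l 16766792) (l 16766520))) (c (b (l 290077774727) (l 253569981127)) (a (l 452749043383) (b (l 16721104) (l 16585632))))) (a (b (l 16769440) (c (l 16730448) (l 16729232))) (b (l 16774856) (l 16773104))))) (b (a (b (c (l 16753368) (l 16710808)) (l 16777216)) (b (b (l 554621066983) (l 16771848)) (l 16777216))) (a (c (l 16768656) (l 16768440)) (l 16776496)))) (a (b (a (b (l 1) (l 16772808)) (l 490733169703)) (a (l 16772920) (l 16755720))) (b (l 1) (a (l 16579728) (l 360272512263))))), by decide +kernel⟩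

theorem c_pp_112_b : CertFX 536870912 536870912 1239849684 370763052 1046898278 26843546 false true true .dn 1 1 2
    ndF2q1 ndF2q2b pcF1 Cut.none Ext.none :=
  certFX2 (fam := false) (s1 := true) (s2 := true) (a := 1) (b := 1) (c := 2) (cn := .dn) (n1 := ndF2q1) (n2 := ndF2q2b) (pc := pcF1) (cut := Cut.none) (xt := Ext.none) (P1 := 536870912) (W1 := 536870912) (P2 := 1239849684) (W2 := 370763052) (P3 := 1046898278) (W3 := 26843546)
    rfl (fun _ => rfl) k0_pp_112_b

noncomputable def f_pp_113 : ℕ → ℕ → ℕ → ℕ → Bool := onCell 536870912 536870912 536870912 536870912 1046898278 26843546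
    (rowFX 1 false true true .nn 1 1 3 (qsf 536870912 536870912 1610612736 469762048 1) ndF2q1 ndF2q3 pcF1 Cut.none Ext.none)

def k0_pp_113 : ∃ t, chk3 f_pp_113 t 1 1 1 = true :=
  ⟨(b (b (a (l 1) (a (b (l 1) (c (l 16765408) (l 16765096))) (a (b (c (l 16669800) (l 16646040)) (b (l 16647440) (l 16668408))) (b (c (l 122036623239) (b (l 3) (l 16440616))) (b (c (l 16469584) (l 16461592)) (l 16465584)))))) (a (b (l 1) (l 411813543895)) (a (b (c (l 16765408) (l 16765096)) (l 16765256)) (b (a (l 16605496) (b (l 16465584) (l 16465584))) (a (l 16668408) (l 16465584)))))) (b (a (b (l 16772928) (l 16881728)) (a (b (l 16767384) (l 16763552)) (b (l 16572896) (l 16587264)))) (a (b (l 16593440) (l 16348704)) (a (b (l 16620032) (l 16401912)) (b (a (l 16518872) (l 16338432)) (a (l 16321720) (l 16231160))))))), by decide +kernel⟩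

theorem c_pp_113 : CertFX 536870912 536870912 1610612736 469762048 1046898278 26843546 false true true .nn 1 1 3
    ndF2q1 ndF2q3 pcF1 Cut.none Ext.none :=
  certFX1 (fam := false) (s1 := true) (s2 := true) (a := 1) (b := 1) (c := 3) (cn := .nn) (n1 := ndF2q1) (n2 := ndF2q3) (pc := pcF1) (cut := Cut.none) (xt := Ext.none) (P1 := 536870912) (W1 := 536870912) (P2 := 1610612736) (W2 := 469762048) (P3 := 1046898278) (W3 := 26843546)
    rfl (fun _ => rfl) k0_pp_113

noncomputable def f_pp_123 : ℕ → ℕ → ℕ → ℕ → Bool := onCell 1073741824 536870912 1610612736 469762048 1046898278 26843546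
    (rowFX 2 false true true .npn 1 2 3 (qsf 536870912 536870912 1610612736 469762048 2) ndF2q1 ndF2q3 pcF2 Cut.none Ext.none)

def k0_pp_123 : ∃ t, chk3 f_pp_123 t 1 1 1 = true :=
  ⟨(a (a (b (a (l 15664040) (b (l 15446312) (l 15474840))) (b (a (l 15610824) (l 15489008)) (a (l 15583600) (b (l 15486144) (l 15440656))))) (a (b (a (a (l 15149272) (l 15292144)) (l 15649264)) (b (a (a (l 15205256) (l 15341992)) (l 15831800)) (l 15384216))) (b (a (l 430603038487) (l 16825888)) (a (b (l 16407048) (l 16324344)) (l 16642040))))) (b (l 1) (a (a (l 330208406535) (l 16758648)) (b (l 1) (l 16760472))))), by decide +kernel⟩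

theorem c_pp_123 : CertFX 536870912 536870912 1610612736 469762048 1046898278 26843546 false true true .npn 1 2 3
    ndF2q1 ndF2q3 pcF2 Cut.none Ext.none :=
  certFX2 (fam := false) (s1 := true) (s2 := true) (a := 1) (b := 2) (c := 3) (cn := .npn) (n1 := ndF2q1) (n2 := ndF2q3) (pc := pcF2) (cut := Cut.none) (xt := Ext.none) (P1 := 536870912) (W1 := 536870912) (P2 := 1610612736) (W2 := 469762048) (P3 := 1046898278) (W3 := 26843546)
    rfl (fun _ => rfl) k0_pp_123

noncomputable def f_pp_133 : ℕ → ℕ → ℕ → ℕ → Bool := onCell 536870912 536870912 1610612736 469762048 1046898278 26843546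
    (rowFX 0 false true true .dn 1 3 3 (qsf 536870912 536870912 1610612736 469762048 3) ndF2q1 ndF2q3 pcF3 Cut.none Ext.none)

def k0_pp_133 : ∃ t, chk3 f_pp_133 t 1 1 1 = true :=
  ⟨(l 1), by decide +kernel⟩

theorem c_pp_133 : CertFX 536870912 536870912 1610612736 469762048 1046898278 26843546 false true true .dn 1 3 3
    ndF2q1 ndF2q3 pcF3 Cut.none Ext.none :=
  certFX0 (fam := false) (s1 := true) (s2 := true) (a := 1) (b := 3) (c := 3) (cn := .dn) (n1 := ndF2q1) (n2 := ndF2q3) (pc := pcF3) (cut := Cut.none) (xt := Ext.none) (P1 := 536870912) (W1 := 536870912) (P2 := 1610612736) (W2 := 469762048) (P3 := 1046898278) (W3 := 26843546)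
    rfl k0_pp_133

noncomputable def f_pp_202_aa : ℕ → ℕ → ℕ → ℕ → Bool := onCell 0 420477299 0 420477299 1046898278 26843546
    (rowFX 0 false true true .pp 2 0 2 (qsf 0 420477299 0 420477299 0) ndF2q2a ndF2q2a pcF0 Cut.none Ext.none)

def k0_pp_202_aa : ∃ t, chk3 f_pp_202_aa t 1 1 1 = true :=
  ⟨(l 3), by decide +kernel⟩

theorem c_pp_202_aa : CertFX 0 420477299 0 420477299 1046898278 26843546 false true true .pp 2 0 2
    ndF2q2a ndF2q2a pcF0 Cut.none Ext.none :=
  certFX0 (fam := false) (s1 := true) (s2 := true) (a := 2) (b := 0) (c := 2) (cn := .pp) (n1 := ndF2q2a) (n2 := ndF2q2a) (pc := pcF0) (cut := Cut.none) (xt := Ext.none) (P1 := 0) (W1 := 420477299) (P2 := 0) (W2 := 420477299) (P3 := 1046898278) (W3 := 26843546)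
    rfl k0_pp_202_aa

noncomputable def f_pp_202_ab : ℕ → ℕ → ℕ → ℕ → Bool := onCell 0 420477299 1239849684 370763052 1046898278 26843546
    (rowFX 0 false true true .pp 2 0 2 (qsf 0 420477299 1239849684 370763052 0) ndF2q2a ndF2q2b pcF0 Cut.none Ext.none)

def k0_pp_202_ab : ∃ t, chk3 f_pp_202_ab t 1 1 1 = true :=
  ⟨(l 3), by decide +kernel⟩

theorem c_pp_202_ab : CertFX 0 420477299 1239849684 370763052 1046898278 26843546 false true true .pp 2 0 2
    ndF2q2a ndF2q2b pcF0 Cut.none Ext.none :=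
  certFX0 (fam := false) (s1 := true) (s2 := true) (a := 2) (b := 0) (c := 2) (cn := .pp) (n1 := ndF2q2a) (n2 := ndF2q2b) (pc := pcF0) (cut := Cut.none) (xt := Ext.none) (P1 := 0) (W1 := 420477299) (P2 := 1239849684) (W2 := 370763052) (P3 := 1046898278) (W3 := 26843546)
    rfl k0_pp_202_ab

noncomputable def f_pp_202_ba : ℕ → ℕ → ℕ → ℕ → Bool := onCell 1239849684 370763052 0 420477299 1046898278 26843546
    (rowFX 0 false true true .pp 2 0 2 (qsf 1239849684 370763052 0 420477299 0) ndF2q2b ndF2q2a pcF0 Cut.none Ext.none)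

def k0_pp_202_ba : ∃ t, chk3 f_pp_202_ba t 1 1 1 = true :=
  ⟨(l 3), by decide +kernel⟩

theorem c_pp_202_ba : CertFX 1239849684 370763052 0 420477299 1046898278 26843546 false true true .pp 2 0 2
    ndF2q2b ndF2q2a pcF0 Cut.none Ext.none :=
  certFX0 (fam := false) (s1 := true) (s2 := true) (a := 2) (b := 0) (c := 2) (cn := .pp) (n1 := ndF2q2b) (n2 := ndF2q2a) (pc := pcF0) (cut := Cut.none) (xt := Ext.none) (P1 := 1239849684) (W1 := 370763052) (P2 := 0) (W2 := 420477299) (P3 := 1046898278) (W3 := 26843546)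
    rfl k0_pp_202_ba

noncomputable def f_pp_202_bb : ℕ → ℕ → ℕ → ℕ → Bool := onCell 1239849684 370763052 1239849684 370763052 1046898278 26843546
    (rowFX 0 false true true .pp 2 0 2 (qsf 1239849684 370763052 1239849684 370763052 0) ndF2q2b ndF2q2b pcF0 Cut.none Ext.none)

def k0_pp_202_bb : ∃ t, chk3 f_pp_202_bb t 1 1 1 = true :=
  ⟨(l 3), by decide +kernel⟩

theorem c_pp_202_bb : CertFX 1239849684 370763052 1239849684 370763052 1046898278 26843546 false true true .pp 2 0 2
    ndF2q2b ndF2q2b pcF0 Cut.none Ext.none :=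
  certFX0 (fam := false) (s1 := true) (s2 := true) (a := 2) (b := 0) (c := 2) (cn := .pp) (n1 := ndF2q2b) (n2 := ndF2q2b) (pc := pcF0) (cut := Cut.none) (xt := Ext.none) (P1 := 1239849684) (W1 := 370763052) (P2 := 1239849684) (W2 := 370763052) (P3 := 1046898278) (W3 := 26843546)
    rfl k0_pp_202_bb

noncomputable def f_pp_203_a : ℕ → ℕ → ℕ → ℕ → Bool := onCell 0 420477299 1610612736 469762048 1046898278 26843546
    (rowFX 0 false true true .up 2 0 3 (qsf 0 420477299 1610612736 469762048 0) ndF2q2a ndF2q3 pcF0 Cut.none Ext.none)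

def k0_pp_203_a : ∃ t, chk3 f_pp_203_a t 1 1 1 = true :=
  ⟨(l 3), by decide +kernel⟩

theorem c_pp_203_a : CertFX 0 420477299 1610612736 469762048 1046898278 26843546 false true true .up 2 0 3
    ndF2q2a ndF2q3 pcF0 Cut.none Ext.none :=
  certFX0 (fam := false) (s1 := true) (s2 := true) (a := 2) (b := 0) (c := 3) (cn := .up) (n1 := ndF2q2a) (n2 := ndF2q3) (pc := pcF0) (cut := Cut.none) (xt := Ext.none) (P1 := 0) (W1 := 420477299) (P2 := 1610612736) (W2 := 469762048) (P3 := 1046898278) (W3 := 26843546)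
    rfl k0_pp_203_a

noncomputable def f_pp_203_b : ℕ → ℕ → ℕ → ℕ → Bool := onCell 1239849684 370763052 1610612736 469762048 1046898278 26843546
    (rowFX 0 false true true .up 2 0 3 (qsf 1239849684 370763052 1610612736 469762048 0) ndF2q2b ndF2q3 pcF0 Cut.none Ext.none)

def k0_pp_203_b : ∃ t, chk3 f_pp_203_b t 1 1 1 = true :=
  ⟨(l 3), by decide +kernel⟩

theorem c_pp_203_b : CertFX 1239849684 370763052 1610612736 469762048 1046898278 26843546 false true true .up 2 0 3
    ndF2q2b ndF2q3 pcF0 Cut.none Ext.none :=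
  certFX0 (fam := false) (s1 := true) (s2 := true) (a := 2) (b := 0) (c := 3) (cn := .up) (n1 := ndF2q2b) (n2 := ndF2q3) (pc := pcF0) (cut := Cut.none) (xt := Ext.none) (P1 := 1239849684) (W1 := 370763052) (P2 := 1610612736) (W2 := 469762048) (P3 := 1046898278) (W3 := 26843546)
    rfl k0_pp_203_b

noncomputable def f_pp_213_a : ℕ → ℕ → ℕ → ℕ → Bool := onCell 0 420477299 1610612736 469762048 1046898278 26843546
    (rowFX 0 false true true .pnn 2 1 3 (qsf 0 420477299 1610612736 469762048 1) ndF2q2a ndF2q3 pcF1 Cut.none Ext.none)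

def k0_pp_213_a : ∃ t, chk3 f_pp_213_a t 1 1 1 = true :=
  ⟨(l 3), by decide +kernel⟩

theorem c_pp_213_a : CertFX 0 420477299 1610612736 469762048 1046898278 26843546 false true true .pnn 2 1 3
    ndF2q2a ndF2q3 pcF1 Cut.none Ext.none :=
  certFX0 (fam := false) (s1 := true) (s2 := true) (a := 2) (b := 1) (c := 3) (cn := .pnn) (n1 := ndF2q2a) (n2 := ndF2q3) (pc := pcF1) (cut := Cut.none) (xt := Ext.none) (P1 := 0) (W1 := 420477299) (P2 := 1610612736) (W2 := 469762048) (P3 := 1046898278) (W3 := 26843546)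
    rfl k0_pp_213_a

noncomputable def f_pp_213_b : ℕ → ℕ → ℕ → ℕ → Bool := onCell 1239849684 370763052 1610612736 469762048 1046898278 26843546
    (rowFX 0 false true true .pnn 2 1 3 (qsf 1239849684 370763052 1610612736 469762048 1) ndF2q2b ndF2q3 pcF1 Cut.none Ext.none)

def k0_pp_213_b : ∃ t, chk3 f_pp_213_b t 1 1 1 = true :=
  ⟨(l 3), by decide +kernel⟩

theorem c_pp_213_b : CertFX 1239849684 370763052 1610612736 469762048 1046898278 26843546 false true true .pnn 2 1 3
    ndF2q2b ndF2q3 pcF1 Cut.none Ext.none :=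
  certFX0 (fam := false) (s1 := true) (s2 := true) (a := 2) (b := 1) (c := 3) (cn := .pnn) (n1 := ndF2q2b) (n2 := ndF2q3) (pc := pcF1) (cut := Cut.none) (xt := Ext.none) (P1 := 1239849684) (W1 := 370763052) (P2 := 1610612736) (W2 := 469762048) (P3 := 1046898278) (W3 := 26843546)
    rfl k0_pp_213_b

noncomputable def f_pp_303 : ℕ → ℕ → ℕ → ℕ → Bool := onCell 1610612736 469762048 1610612736 469762048 1046898278 26843546
    (rowFX 0 false true true .npn 3 0 3 (qsf 1610612736 469762048 1610612736 469762048 0) ndF2q3 ndF2q3 pcF0 Cut.none Ext.none)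

def k0_pp_303 : ∃ t, chk3 f_pp_303 t 1 1 1 = true :=
  ⟨(l 3), by decide +kernel⟩

theorem c_pp_303 : CertFX 1610612736 469762048 1610612736 469762048 1046898278 26843546 false true true .npn 3 0 3
    ndF2q3 ndF2q3 pcF0 Cut.none Ext.none :=
  certFX0 (fam := false) (s1 := true) (s2 := true) (a := 3) (b := 0) (c := 3) (cn := .npn) (n1 := ndF2q3) (n2 := ndF2q3) (pc := pcF0) (cut := Cut.none) (xt := Ext.none) (P1 := 1610612736) (W1 := 469762048) (P2 := 1610612736) (W2 := 469762048) (P3 := 1046898278) (W3 := 26843546)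
    rfl k0_pp_303

noncomputable def f_pp_313 : ℕ → ℕ → ℕ → ℕ → Bool := onCell 1610612736 469762048 1610612736 469762048 1046898278 26843546
    (rowFX 0 false true true .dn 3 1 3 (qsf 1610612736 469762048 1610612736 469762048 1) ndF2q3 ndF2q3 pcF1 Cut.none Ext.none)

def k0_pp_313 : ∃ t, chk3 f_pp_313 t 1 1 1 = true :=
  ⟨(l 1), by decide +kernel⟩

theorem c_pp_313 : CertFX 1610612736 469762048 1610612736 469762048 1046898278 26843546 false true true .dn 3 1 3
    ndF2q3 ndF2q3 pcF1 Cut.none Ext.none :=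
  certFX0 (fam := false) (s1 := true) (s2 := true) (a := 3) (b := 1) (c := 3) (cn := .dn) (n1 := ndF2q3) (n2 := ndF2q3) (pc := pcF1) (cut := Cut.none) (xt := Ext.none) (P1 := 1610612736) (W1 := 469762048) (P2 := 1610612736) (W2 := 469762048) (P3 := 1046898278) (W3 := 26843546)
    rfl k0_pp_313

noncomputable def f_pm_001 : ℕ → ℕ → ℕ → ℕ → Bool := onCell 67108864 469762048 536870912 536870912 1046898278 26843546
    (rowFX 0 false true false .up 0 0 1 (qsf 67108864 469762048 536870912 536870912 0) ndF2q0 ndF2q1 pcF0 Cut.none Ext.none)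

def k0_pm_001 : ∃ t, chk3 f_pm_001 t 1 1 1 = true :=
  ⟨(l 4), by decide +kernel⟩

theorem c_pm_001 : CertFX 67108864 469762048 536870912 536870912 1046898278 26843546 false true false .up 0 0 1
    ndF2q0 ndF2q1 pcF0 Cut.none Ext.none :=
  certFX0 (fam := false) (s1 := true) (s2 := false) (a := 0) (b := 0) (c := 1) (cn := .up) (n1 := ndF2q0) (n2 := ndF2q1) (pc := pcF0) (cut := Cut.none) (xt := Ext.none) (P1 := 67108864) (W1 := 469762048) (P2 := 536870912) (W2 := 536870912) (P3 := 1046898278) (W3 := 26843546)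
    rfl k0_pm_001

noncomputable def f_pm_011 : ℕ → ℕ → ℕ → ℕ → Bool := onCell 67108864 469762048 536870912 536870912 1046898278 26843546
    (rowFX 0 false true false .pnn 0 1 1 (qsf 67108864 469762048 536870912 536870912 1) ndF2q0 ndF2q1 pcF1 Cut.none Ext.none)

def k0_pm_011 : ∃ t, chk3 f_pm_011 t 1 1 1 = true :=
  ⟨(l 4), by decide +kernel⟩

theorem c_pm_011 : CertFX 67108864 469762048 536870912 536870912 1046898278 26843546 false true false .pnn 0 1 1
    ndF2q0 ndF2q1 pcF1 Cut.none Ext.none :=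
  certFX0 (fam := false) (s1 := true) (s2 := false) (a := 0) (b := 1) (c := 1) (cn := .pnn) (n1 := ndF2q0) (n2 := ndF2q1) (pc := pcF1) (cut := Cut.none) (xt := Ext.none) (P1 := 67108864) (W1 := 469762048) (P2 := 536870912) (W2 := 536870912) (P3 := 1046898278) (W3 := 26843546)
    rfl k0_pm_011

noncomputable def f_pm_012_a : ℕ → ℕ → ℕ → ℕ → Bool := onCell 536870912 536870912 0 420477299 1046898278 26843546
    (rowFX 2 false true false .pnp 0 1 2 (qsf 67108864 469762048 0 420477299 1) ndF2q0 ndF2q2a pcF1 Cut.none Ext.none)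

def k0_pm_012_a : ∃ t, chk3 f_pm_012_a t 1 2 1 = true :=
  ⟨(a (a (l 2) (b (l 16702392) (a (l 16758152) (l 16743120)))) (b (a (a (a (l 16702440) (b (l 16714192) (l 16686536))) (a (b (a (l 16714304) (l 16695712)) (b (a (l 16710688) (l 16699584)) (a (l 16582440) (a (l 16635008) (l 16694064))))) (b (l 16551256) (c (a (a (l 16681160) (l 16574680)) (l 16342640)) (a (a (a (l 16696712) (a (l 16694784) (l 16681288))) (l 16540632)) (a (l 16422704) (l 16298072))))))) (a (a (l 15926128) (l 15394280)) (a (c (l 15027512) (l 15031936)) (a (l 14529768) (c (l 14714096) (l 14711144)))))) (a (a (a (l 16734808) (b (l 16588968) (l 16521128))) (a (b (a (l 16417784) (b (l 16483760) (l 16278200))) (l 16142592)) (b (a (b (a (c (l 16473056) (b (l 16499392) (l 16412064))) (b (l 16530704) (a (l 16387176) (l 16344360)))) (l 16226264)) (b (a (c (l 16407392) (b (l 16293240) (l 16257704))) (l 16089160)) (c (l 16137280) (l 15880352)))) (a (l 15925288) (l 15823104))))) (a (b (a (a (c (a (l 15876912) (l 15927944)) (b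 (l 15940896) (a (l 15882824) (l 15747920)))) (a (l 15762728) (l 15607056))) (l 15324296)) (b (a (a (l 15651320) (a (l 15706552) (c (l 15616688) (l 15590520)))) (a (c (l 15418056) (l 15135912)) (l 15227792))) (a (a (l 15623208) (l 15481984)) (a (a (l 15375672) (c (l 15373152) (l 15340496))) (a (c (l 15301032) (l 15268120)) (c (l 15227008) (l 15193528))))))) (a (a (a (a (b (l 15108600) (c (l 15165200) (l 15117888))) (l 15095616)) (l 15035048)) (l 14797104)) (a (c (l 14701608) (l 14770016)) (c (l 14626384) (a (l 14635640) (l 14595616))))))))), by decide +kernel⟩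

def k1_pm_012_a : ∃ t, chk3 f_pm_012_a t 2 6 1 = true :=
  ⟨(a (l 16609208) (a (l 16641416) (l 16427776))), by decide +kernel⟩

def k2_pm_012_a : ∃ t, chk3 f_pm_012_a t 6 6 1 = true :=
  ⟨(a (a (l 16357912) (b (l 16205664) (l 16108296))) (b (a (b (l 15985464) (l 15876624)) (a (b (l 15648928) (l 15553856)) (l 15509744))) (a (l 15746640) (l 15390936)))), by decide +kernel⟩

def k3_pm_012_a : ∃ t, chk3 f_pm_012_a t 7 12 1 = true :=
  ⟨(a (a (a (l 15345744) (a (l 15333632) (l 15088200))) (a (b (l 15242376) (c (l 15187160) (l 15155808))) (a (b (l 15221136) (l 15140456)) (b (c (l 15231360) (l 15202128)) (l 15071808))))) (a (b (a (a (c (c (c (a (l 15082392) (l 15181448)) (l 15207848)) (l 15196304)) (l 15127904)) (c (c (l 15109040) (l 15128648)) (l 15101792))) (l 14982240)) (c (a (a (a (l 15113960) (l 15131024)) (c (a (l 15113920) (l 15138240)) (l 15171672))) (b (c (l 14976256) (l 14937536)) (a (c (l 15070168) (l 15128472)) (l 14805912)))) (a (a (l 15114424) (l 15146664)) (a (b (l 15080488)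 (l 15111608)) (l 15030112))))) (a (c (l 14799944) (l 14879392)) (c (l 14717032) (l 14723880))))), by decide +kernel⟩

def k4_pm_012_a : ∃ t, chk3 f_pm_012_a t 7 13 1 = true :=
  ⟨(a (a (a (l 15195584) (c (l 15161432) (l 15120120))) (c (a (a (l 15136984) (l 15000088)) (b (a (l 15118456) (l 15081424)) (c (l 15060920) (l 15073504)))) (a (l 15108256) (b (l 15080992) (l 15054000))))) (a (a (a (c (b (c (l 15026360) (l 15064248)) (l 15047384)) (b (l 15045056) (l 15045760))) (c (b (c (l 15032640) (l 15058856)) (c (l 15033672) (l 15064328))) (b (l 15046960) (l 15061496)))) (c (b (b (a (c (l 15033904) (l 15088032)) (a (l 14882360) (l 15013192))) (a (l 15035272) (l 14933824))) (a (c (l 15017624) (l 14845016)) (b (l 15011528) (c (l 14997856) (l 15035920))))) (b (a (a (l 15059104) (l 15077544)) (b (a (l 15090960) (l 15076472)) (l 15071072))) (a (l 15057288) (b (l 15053688) (l 15057760)))))) (a (c (a (a (b (b (l 14949208) (l 14994464)) (b (l 14982736) (l 14993080))) (c (c (l 14898872) (l 14939080))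 (b (l 14943648) (l 15046168)))) (a (c (l 14684208) (l 14852352)) (c (l 14853344) (l 14793496)))) (b (a (b (l 14991624) (a (l 15081584) (a (l 15051856) (l 15030176)))) (c (l 14943520) (l 14958024))) (a (a (b (l 15051920) (l 15049760)) (b (l 14985424) (l 15053544))) (c (c (l 14858008) (a (l 15005488) (l 15031080))) (c (l 15044136) (l 15055752)))))) (b (c (l 14821920) (l 14833288)) (a (c (c (l 14907128) (l 14901352)) (c (l 14930704) (l 14975440))) (l 14924088)))))), by decide +kernel⟩

def k5_pm_012_a : ∃ t, chk3 f_pm_012_a t 2 7 1 = true :=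
  ⟨(a (c (l 16278496) (l 16309664)) (a (b (l 16465048) (a (l 16318320) (l 16451520))) (b (l 181696081031) (b (l 407181840503) (l 4))))), by decide +kernel⟩

def k6_pm_012_a : ∃ t, chk3 f_pm_012_a t 3 7 1 = true :=
  ⟨(b (a (a (a (l 16084232) (b (l 15940304) (l 15886808))) (b (a (l 15641616) (l 263835073719)) (l 4))) (a (b (a (a (l 15107296) (c (l 15098960) (l 15055432))) (c (a (c (l 15089256) (l 15090240)) (c (l 14853784) (l 15080656))) (a (l 15059176) (l 15063928)))) (l 4)) (a (a (b (c (c (a (l 15037840) (l 15030424)) (a (l 15076832) (l 15065832))) (l 15074056)) (l 4)) (c (c (a (l 344902205143) (l 356176425815)) (a (b (l 15054152) (l 4)) (l 396441794743))) (c (c (a (l 250413035879) (l 15145752)) (l 239675588887)) (l 15156376)))) (a (b (c (a (b (a (l 15021488) (l 15012704)) (l 15034896)) (c (a (l 15017376) (l 15021936)) (a (l 15035696) (a (l 15013480) (l 15023432))))) (c (a (b (c (l 15061080) (l 15075336)) (l 15064160)) (a (b (l 15051960) (l 15059568)) (a (l 15050800) (b (l 15049672)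 (l 15056424))))) (a (l 15125152) (a (l 15087704) (a (l 15070240) (b (l 15079256) (l 15080440))))))) (b (c (a (l 15061480) (l 15086616)) (c (a (c (l 15069168) (l 15088208)) (l 15019264)) (a (l 15089728) (l 15117696)))) (l 4))) (c (a (c (l 15092160) (a (b (l 15021536) (l 15106288)) (l 15073944))) (l 15104248)) (a (c (b (a (b (l 15043152) (l 15041000)) (c (l 15005080) (l 14964552))) (a (l 15106104) (l 15116008))) (c (b (a (b (l 15096088) (l 15069376)) (a (l 14977560) (l 15054344))) (a (l 15125312) (l 15136888))) (b (a (l 15099864) (l 14909472)) (l 15155416)))) (c (b (l 15008120) (l 15138584)) (a (c (b (l 15013296) (l 15102360)) (b (l 15036040) (c (l 15124984) (l 15170040)))) (b (l 15005984) (c (l 15134928) (a (l 15137624) (l 15134600)))))))))))) (a (l 4) (a (l 4) (b (b (a (l 4) (a (l 4) (l 4))) (l 4)) (l 4))))), by decide +kernel⟩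

theorem s7_pm_012_a : ∃ t, chk3 f_pm_012_a t 1 7 1 = true := ex3_a k5_pm_012_a k6_pm_012_a

theorem s8_pm_012_a : ∃ t, chk3 f_pm_012_a t 7 6 1 = true := ex3_b k3_pm_012_a k4_pm_012_a

theorem s9_pm_012_a : ∃ t, chk3 f_pm_012_a t 3 6 1 = true := ex3_a k2_pm_012_a s8_pm_012_a

theorem s10_pm_012_a : ∃ t, chk3 f_pm_012_a t 1 6 1 = true := ex3_a k1_pm_012_a s9_pm_012_a

theorem s11_pm_012_a : ∃ t, chk3 f_pm_012_a t 1 3 1 = true := ex3_b s10_pm_012_a s7_pm_012_a

theorem s12_pm_012_a : ∃ t, chk3 f_pm_012_a t 1 1 1 = true := ex3_b k0_pm_012_a s11_pm_012_a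

theorem c_pm_012_a : CertFX 67108864 469762048 0 420477299 1046898278 26843546 false true false .pnp 0 1 2
    ndF2q0 ndF2q2a pcF1 Cut.none Ext.none :=
  certFX2 (fam := false) (s1 := true) (s2 := false) (a := 0) (b := 1) (c := 2) (cn := .pnp) (n1 := ndF2q0) (n2 := ndF2q2a) (pc := pcF1) (cut := Cut.none) (xt := Ext.none) (P1 := 67108864) (W1 := 469762048) (P2 := 0) (W2 := 420477299) (P3 := 1046898278) (W3 := 26843546)
    rfl (fun _ => rfl) s12_pm_012_a

noncomputable def f_pm_012_b : ℕ → ℕ → ℕ → ℕ → Bool := onCell 536870912 536870912 1239849684 370763052 1046898278 26843546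
    (rowFX 2 false true false .pnp 0 1 2 (qsf 67108864 469762048 1239849684 370763052 1) ndF2q0 ndF2q2b pcF1 Cut.none Ext.none)

def k0_pm_012_b : ∃ t, chk3 f_pm_012_b t 1 1 1 = true :=
  ⟨(a (a (l 2) (b (b (l 16742576) (l 16777216)) (l 2))) (a (a (b (a (l 16765176) (b (c (l 16740200) (l 16740816)) (l 16764648))) (l 2)) (a (b (l 16756648) (l 16767256)) (b (a (l 16562792) (l 16282120)) (l 16601992)))) (a (b (a (b (l 15965928) (l 15977176)) (b (b (l 15460856) (l 15452632)) (l 15423216))) (a (l 15994992) (l 15435544))) (a (a (b (b (b (l 15113472) (l 15070712)) (l 15024360)) (l 15023784)) (b (b (b (l 14733440) (l 14794896)) (l 14734784)) (l 14722328))) (c (b (b (b (a (l 14694280) (l 14623784)) (a (l 14493536) (l 14326184))) (l 14326168)) (l 14039792)) (b (b (b (a (l 14745904) (l 14616368)) (a (l 14544064) (a (l 14335176) (l 14255496)))) (a (l 14467104) (l 14190616))) (b (l 14275896) (l 14298528)))))))), by decide +kernel⟩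

theorem c_pm_012_b : CertFX 67108864 469762048 1239849684 370763052 1046898278 26843546 false true false .pnp 0 1 2
    ndF2q0 ndF2q2b pcF1 Cut.none Ext.none :=
  certFX2 (fam := false) (s1 := true) (s2 := false) (a := 0) (b := 1) (c := 2) (cn := .pnp) (n1 := ndF2q0) (n2 := ndF2q2b) (pc := pcF1) (cut := Cut.none) (xt := Ext.none) (P1 := 67108864) (W1 := 469762048) (P2 := 1239849684) (W2 := 370763052) (P3 := 1046898278) (W3 := 26843546)
    rfl (fun _ => rfl) k0_pm_012_b

noncomputable def f_pm_022_a : ℕ → ℕ → ℕ → ℕ → Bool := onCell 1073741824 536870912 0 420477299 1046898278 26843546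
    (rowFX 2 false true false .pp 0 2 2 (qsf 67108864 469762048 0 420477299 2) ndF2q0 ndF2q2a pcF2 Cut.none Ext.none)

def k0_pm_022_a : ∃ t, chk3 f_pm_022_a t 1 1 1 = true :=
  ⟨(a (a (b (a (c (a (b (l 14751192) (l 14737184)) (b (a (l 15061616) (l 15297280)) (a (b (l 15028944) (l 15104440)) (b (l 15290968) (l 15389512))))) (a (b (a (l 14615672) (l 14849072)) (c (l 14719656) (l 14553008))) (b (l 15041464) (a (l 15085808) (l 15357880))))) (a (b (c (a (l 15568696) (l 15728600)) (a (l 15565768) (l 15804416))) (c (a (b (l 15577216) (l 15577352)) (b (l 15809920) (l 588978761207))) (a (l 15632856) (l 15853688)))) (b (l 1) (l 1)))) (a (a (b (c (b (l 14884856) (l 15099192)) (a (b (l 14744240) (l 14777192)) (b (l 15003856) (c (l 15223432) (l 15231416))))) (a (b (c (l 15250872) (c (l 15226920) (b (l 15154208) (l 15304120)))) (b (c (l 15488864) (c (l 15469488) (l 15329176))) (l 4))) (b (c (b (l 15450752) (l 15598488)) (c (b (l 15463736) (l 15611424)) (l 15529928))) (a (c (l 581999113655) (b (l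 615284975767) (l 1))) (l 1))))) (a (b (c (b (l 15262272) (a (l 15428672) (l 15580928))) (b (l 15284584) (l 15502400))) (b (c (c (l 647497413351) (l 623875134695)) (l 591125945959)) (l 1))) (b (c (b (c (l 15541056) (l 15577360)) (c (l 15747224) (l 15781456))) (l 580388373575)) (l 1)))) (b (a (a (c (b (l 451002765303) (l 1)) (l 541197287671)) (l 1)) (l 1)) (l 1)))) (l 1)) (l 1)), by decide +kernel⟩

theorem c_pm_022_a : CertFX 67108864 469762048 0 420477299 1046898278 26843546 false true false .pp 0 2 2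
    ndF2q0 ndF2q2a pcF2 Cut.none Ext.none :=
  certFX2 (fam := false) (s1 := true) (s2 := false) (a := 0) (b := 2) (c := 2) (cn := .pp) (n1 := ndF2q0) (n2 := ndF2q2a) (pc := pcF2) (cut := Cut.none) (xt := Ext.none) (P1 := 67108864) (W1 := 469762048) (P2 := 0) (W2 := 420477299) (P3 := 1046898278) (W3 := 26843546)
    rfl (fun _ => rfl) k0_pm_022_a

noncomputable def f_pm_022_b : ℕ → ℕ → ℕ → ℕ → Bool := onCell 67108864 469762048 1073741824 536870912 1046898278 26843546
    (rowFX 1 false true false .pp 0 2 2 (qsf 67108864 469762048 1239849684 370763052 2) ndF2q0 ndF2q2b pcF2 Cut.none Ext.none)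

def k0_pm_022_b : ∃ t, chk3 f_pm_022_b t 2 1 1 = true :=
  ⟨(b (b (a (b (a (a (l 1) (b (l 1) (c (b (l 15275984) (l 15335824)) (b (l 15307120) (l 15342656))))) (b (c (a (l 14952848) (l 14669296)) (a (b (l 14914240) (l 14945456)) (l 14460536))) (c (b (l 14908936) (l 15017632)) (b (l 14911704) (l 15018560))))) (a (b (a (c (b (l 642665493159) (l 15650416)) (b (l 15759128) (l 15768696))) (c (b (l 15423560) (l 15504056)) (l 15451736))) (a (c (l 15847016) (l 15829152)) (c (l 15608912) (l 15582720)))) (b (c (b (l 15131040) (l 15222392)) (b (l 15116792) (l 15199352))) (c (l 15349664) (l 15315864))))) (b (a (c (b (l 14331120) (c (l 14534248) (l 14543600))) (b (c (l 14302688) (b (l 14229792) (l 14347640))) (c (l 14545104) (l 14521928)))) (c (b (l 14126480) (l 14351968)) (b (l 14093432) (l 14334896)))) (b (a (c (b (l 14727040) (l 14837664)) (l 14710760)) (c (l 14613904) (l 14580680))) (a (l 14985864) (l 14849696))))) (b (a (b (a (b (a (c (l 15969984) (l 15956032)) (l 15637120)) (a (l 15934064)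 (l 15885936))) (b (l 15507224) (l 15663640))) (a (a (c (l 16339872) (l 16295784)) (l 15913976)) (l 15905368))) (b (b (a (l 15206912) (l 15096760)) (a (l 15381248) (l 15279152))) (a (l 15634704) (l 15537408)))) (a (b (a (a (c (l 16269576) (l 16262448)) (l 16258616)) (l 16089360)) (a (a (c (l 16073000) (l 16059160)) (l 16222832)) (l 16360512))) (b (a (l 15907816) (l 4)) (l 4))))) (b (a (b (a (b (a (c (l 15904056) (l 15884176)) (l 16095640)) (c (l 15642392) (l 15783192))) (l 4)) (l 4)) (l 4)) (l 4))), by decide +kernel⟩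

def k1_pm_022_b : ∃ t, chk3 f_pm_022_b t 3 1 1 = true :=
  ⟨(b (b (b (a (c (b (l 14074080) (l 14311104)) (b (l 14041000) (l 14294464))) (c (l 14204272) (l 13958360))) (b (a (c (l 14585144) (l 14551816)) (l 14578808)) (a (l 14836672) (l 14845480)))) (b (b (b (l 15096160) (l 15279288)) (l 15435416)) (b (l 15788528) (l 16096408)))) (l 2)), by decide +kernel⟩

theorem s2_pm_022_b : ∃ t, chk3 f_pm_022_b t 1 1 1 = true := ex3_a k0_pm_022_b k1_pm_022_b

theorem c_pm_022_b : CertFX 67108864 469762048 1239849684 370763052 1046898278 26843546 false true false .pp 0 2 2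
    ndF2q0 ndF2q2b pcF2 Cut.none Ext.none :=
  certFX1 (fam := false) (s1 := true) (s2 := false) (a := 0) (b := 2) (c := 2) (cn := .pp) (n1 := ndF2q0) (n2 := ndF2q2b) (pc := pcF2) (cut := Cut.none) (xt := Ext.none) (P1 := 67108864) (W1 := 469762048) (P2 := 1239849684) (W2 := 370763052) (P3 := 1046898278) (W3 := 26843546)
    rfl (fun _ => rfl) s2_pm_022_b

noncomputable def f_pm_023 : ℕ → ℕ → ℕ → ℕ → Bool := onCell 67108864 469762048 1073741824 536870912 1046898278 26843546
    (rowFX 1 false true false .up 0 2 3 (qsf 67108864 469762048 1610612736 469762048 2) ndF2q0 ndF2q3 pcF2 Cut.none Ext.none)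

def k0_pm_023 : ∃ t, chk3 f_pm_023 t 1 1 1 = true :=
  ⟨(b (b (a (l 1) (b (a (l 1) (c (l 14204272) (l 14063216))) (b (a (l 1) (l 14536864)) (l 317856764423)))) (a (b (l 1) (a (l 1) (b (l 729638797687) (l 4)))) (b (b (b (l 15096160) (l 15279288)) (l 309268222551)) (b (l 953715223943) (l 16033496))))) (b (a (a (b (l 1) (l 4)) (l 4)) (b (b (l 4) (l 4)) (l 4))) (a (l 4) (l 4)))), by decide +kernel⟩

theorem c_pm_023 : CertFX 67108864 469762048 1610612736 469762048 1046898278 26843546 false true false .up 0 2 3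
    ndF2q0 ndF2q3 pcF2 Cut.none Ext.none :=
  certFX1 (fam := false) (s1 := true) (s2 := false) (a := 0) (b := 2) (c := 3) (cn := .up) (n1 := ndF2q0) (n2 := ndF2q3) (pc := pcF2) (cut := Cut.none) (xt := Ext.none) (P1 := 67108864) (W1 := 469762048) (P2 := 1610612736) (W2 := 469762048) (P3 := 1046898278) (W3 := 26843546)
    rfl (fun _ => rfl) k0_pm_023

noncomputable def f_pm_033 : ℕ → ℕ → ℕ → ℕ → Bool := onCell 67108864 469762048 1610612736 469762048 1046898278 26843546
    (rowFX 0 false true false .pnn 0 3 3 (qsf 67108864 469762048 1610612736 469762048 3) ndF2q0 ndF2q3 pcF3 Cut.none Ext.none)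

def k0_pm_033 : ∃ t, chk3 f_pm_033 t 1 1 1 = true :=
  ⟨(a (b (l 4) (l 4)) (b (l 1) (a (l 4) (b (l 1) (l 4))))), by decide +kernel⟩

theorem c_pm_033 : CertFX 67108864 469762048 1610612736 469762048 1046898278 26843546 false true false .pnn 0 3 3
    ndF2q0 ndF2q3 pcF3 Cut.none Ext.none :=
  certFX0 (fam := false) (s1 := true) (s2 := false) (a := 0) (b := 3) (c := 3) (cn := .pnn) (n1 := ndF2q0) (n2 := ndF2q3) (pc := pcF3) (cut := Cut.none) (xt := Ext.none) (P1 := 67108864) (W1 := 469762048) (P2 := 1610612736) (W2 := 469762048) (P3 := 1046898278) (W3 := 26843546)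
    rfl k0_pm_033

noncomputable def f_pm_101 : ℕ → ℕ → ℕ → ℕ → Bool := onCell 536870912 536870912 536870912 536870912 1046898278 26843546
    (rowFX 0 false true false .npn 1 0 1 (qsf 536870912 536870912 536870912 536870912 0) ndF2q1 ndF2q1 pcF0 Cut.none Ext.none)

def k0_pm_101 : ∃ t, chk3 f_pm_101 t 1 1 1 = true :=
  ⟨(l 4), by decide +kernel⟩

theorem c_pm_101 : CertFX 536870912 536870912 536870912 536870912 1046898278 26843546 false true false .npn 1 0 1
    ndF2q1 ndF2q1 pcF0 Cut.none Ext.none :=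
  certFX0 (fam := false) (s1 := true) (s2 := false) (a := 1) (b := 0) (c := 1) (cn := .npn) (n1 := ndF2q1) (n2 := ndF2q1) (pc := pcF0) (cut := Cut.none) (xt := Ext.none) (P1 := 536870912) (W1 := 536870912) (P2 := 536870912) (W2 := 536870912) (P3 := 1046898278) (W3 := 26843546)
    rfl k0_pm_101

noncomputable def f_pm_102_a : ℕ → ℕ → ℕ → ℕ → Bool := onCell 536870912 536870912 0 420477299 1046898278 26843546
    (rowFX 0 false true false .npp 1 0 2 (qsf 536870912 536870912 0 420477299 0) ndF2q1 ndF2q2a pcF0 Cut.none Ext.none)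

def k0_pm_102_a : ∃ t, chk3 f_pm_102_a t 1 1 1 = true :=
  ⟨(a (a (b (l 2) (b (c (l 16611360) (l 16607056)) (b (l 16394016) (c (l 16291480) (l 16278864))))) (b (b (l 16702392) (l 16752704)) (b (l 16609208) (b (l 16394016) (l 16285176))))) (a (b (b (l 16694984) (a (l 16750800) (l 16740536))) (b (a (l 16606392) (l 16592584)) (a (b (l 16391216) (l 16282384)) (b (l 16377424) (c (l 16274456) (l 16258496)))))) (b (a (b (l 16727920) (a (l 16734840) (l 16658008))) (b (a (l 16658744) (l 16680440)) (a (l 16638096) (l 16563024)))) (b (a (b (a (l 16642048) (l 16577880)) (l 16522528)) (a (b (l 16554528) (l 16456864)) (b (l 16537728) (l 16426136)))) (a (b (a (l 16444536) (l 16396832)) (c (l 16357184) (l 16354992))) (b (a (l 16344984) (c (l 16306824) (l 16294200))) (a (l 16263504) (a (l 16224888) (c (l 16218728) (l 16203960)))))))))), by decide +kernel⟩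

theorem c_pm_102_a : CertFX 536870912 536870912 0 420477299 1046898278 26843546 false true false .npp 1 0 2
    ndF2q1 ndF2q2a pcF0 Cut.none Ext.none :=
  certFX0 (fam := false) (s1 := true) (s2 := false) (a := 1) (b := 0) (c := 2) (cn := .npp) (n1 := ndF2q1) (n2 := ndF2q2a) (pc := pcF0) (cut := Cut.none) (xt := Ext.none) (P1 := 536870912) (W1 := 536870912) (P2 := 0) (W2 := 420477299) (P3 := 1046898278) (W3 := 26843546)
    rfl k0_pm_102_a

noncomputable def f_pm_102_b : ℕ → ℕ → ℕ → ℕ → Bool := onCell 536870912 536870912 1239849684 370763052 1046898278 26843546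
    (rowFX 0 false true false .npp 1 0 2 (qsf 536870912 536870912 1239849684 370763052 0) ndF2q1 ndF2q2b pcF0 Cut.none Ext.none)

def k0_pm_102_b : ∃ t, chk3 f_pm_102_b t 1 1 1 = true :=
  ⟨(a (a (l 2) (b (b (l 16753056) (l 16777216)) (l 2))) (b (b (a (a (l 16751592) (l 16743328)) (a (b (l 16702400) (l 16672448)) (b (a (b (l 16610392) (l 16552208)) (b (l 16625144) (l 16519568))) (a (l 16522152) (l 16411096))))) (a (a (l 16774200) (l 16758872)) (a (l 16668408) (l 16465584)))) (a (c (l 16765408) (l 16765096)) (b (a (l 16668408) (c (l 16469584) (l 16461592))) (a (l 16668408) (l 16465584)))))), by decide +kernel⟩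

theorem c_pm_102_b : CertFX 536870912 536870912 1239849684 370763052 1046898278 26843546 false true false .npp 1 0 2
    ndF2q1 ndF2q2b pcF0 Cut.none Ext.none :=
  certFX0 (fam := false) (s1 := true) (s2 := false) (a := 1) (b := 0) (c := 2) (cn := .npp) (n1 := ndF2q1) (n2 := ndF2q2b) (pc := pcF0) (cut := Cut.none) (xt := Ext.none) (P1 := 536870912) (W1 := 536870912) (P2 := 1239849684) (W2 := 370763052) (P3 := 1046898278) (W3 := 26843546)
    rfl k0_pm_102_b

noncomputable def f_pm_112_a : ℕ → ℕ → ℕ → ℕ → Bool := onCell 536870912 536870912 0 420477299 1046898278 26843546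
    (rowFX 2 false true false .dn 1 1 2 (qsf 536870912 536870912 0 420477299 1) ndF2q1 ndF2q2a pcF1 Cut.none Ext.none)

def k0_pm_112_a : ∃ t, chk3 f_pm_112_a t 1 1 1 = true :=
  ⟨(a (a (b (b (l 16702392) (l 16752704)) (b (l 16609208) (c (l 16215584) (l 16246744)))) (a (b (b (l 16702392) (l 16758152)) (b (l 16641416) (l 1))) (l 1))) (l 1)), by decide +kernel⟩

theorem c_pm_112_a : CertFX 536870912 536870912 0 420477299 1046898278 26843546 false true false .dn 1 1 2
    ndF2q1 ndF2q2a pcF1 Cut.none Ext.none :=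
  certFX2 (fam := false) (s1 := true) (s2 := false) (a := 1) (b := 1) (c := 2) (cn := .dn) (n1 := ndF2q1) (n2 := ndF2q2a) (pc := pcF1) (cut := Cut.none) (xt := Ext.none) (P1 := 536870912) (W1 := 536870912) (P2 := 0) (W2 := 420477299) (P3 := 1046898278) (W3 := 26843546)
    rfl (fun _ => rfl) k0_pm_112_a

noncomputable def f_pm_112_b : ℕ → ℕ → ℕ → ℕ → Bool := onCell 536870912 536870912 1239849684 370763052 1046898278 26843546
    (rowFX 2 false true false .dn 1 1 2 (qsf 536870912 536870912 1239849684 370763052 1) ndF2q1 ndF2q2b pcF1 Cut.none Ext.none)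

def k0_pm_112_b : ∃ t, chk3 f_pm_112_b t 1 1 1 = true :=
  ⟨(a (b (a (b (l 16753056) (l 16775456)) (a (l 16765984) (l 16765984))) (a (b (l 16773032) (a (l 16606704) (l 16742288))) (l 16769488))) (b (a (b (l 1) (a (l 301755350599) (l 498785956663))) (l 1)) (a (a (l 16835984) (a (l 16767256) (l 16601992))) (a (a (l 15994992) (l 15393600)) (a (l 391944997175) (b (l 1) (l 14113608))))))), by decide +kernel⟩

theorem c_pm_112_b : CertFX 536870912 536870912 1239849684 370763052 1046898278 26843546 false true false .dn 1 1 2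
    ndF2q1 ndF2q2b pcF1 Cut.none Ext.none :=
  certFX2 (fam := false) (s1 := true) (s2 := false) (a := 1) (b := 1) (c := 2) (cn := .dn) (n1 := ndF2q1) (n2 := ndF2q2b) (pc := pcF1) (cut := Cut.none) (xt := Ext.none) (P1 := 536870912) (W1 := 536870912) (P2 := 1239849684) (W2 := 370763052) (P3 := 1046898278) (W3 := 26843546)
    rfl (fun _ => rfl) k0_pm_112_b

noncomputable def f_pm_113 : ℕ → ℕ → ℕ → ℕ → Bool := onCell 536870912 536870912 536870912 536870912 1046898278 26843546
    (rowFX 1 false true false .nn 1 1 3 (qsf 536870912 536870912 1610612736 469762048 1) ndF2q1 ndF2q3 pcF1 Cut.none Ext.none)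

def k0_pm_113 : ∃ t, chk3 f_pm_113 t 1 1 1 = true :=
  ⟨(b (a (b (l 1) (l 420940349431)) (a (b (l 16765256) (l 16765256)) (b (l 16569048) (l 16569048)))) (b (b (a (a (l 1) (l 16775520)) (l 16435488)) (a (a (l 16611016) (l 16706720)) (a (l 16736984) (l 16554640)))) (a (b (a (l 378525006935) (l 15877160)) (b (a (l 14938464) (l 15157672)) (a (l 347383737111) (l 14658464)))) (a (b (l 16092720) (b (l 15538240) (l 15192184))) (b (a (l 16204664) (l 16224328)) (a (l 15673024) (b (l 16066152) (l 16024040)))))))), by decide +kernel⟩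

theorem c_pm_113 : CertFX 536870912 536870912 1610612736 469762048 1046898278 26843546 false true false .nn 1 1 3
    ndF2q1 ndF2q3 pcF1 Cut.none Ext.none :=
  certFX1 (fam := false) (s1 := true) (s2 := false) (a := 1) (b := 1) (c := 3) (cn := .nn) (n1 := ndF2q1) (n2 := ndF2q3) (pc := pcF1) (cut := Cut.none) (xt := Ext.none) (P1 := 536870912) (W1 := 536870912) (P2 := 1610612736) (W2 := 469762048) (P3 := 1046898278) (W3 := 26843546)
    rfl (fun _ => rfl) k0_pm_113

noncomputable def f_pm_123 : ℕ → ℕ → ℕ → ℕ → Bool := onCell 1073741824 536870912 1610612736 469762048 1046898278 26843546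
    (rowFX 2 false true false .npn 1 2 3 (qsf 536870912 536870912 1610612736 469762048 2) ndF2q1 ndF2q3 pcF2 Cut.none Ext.none)

def k0_pm_123 : ∃ t, chk3 f_pm_123 t 1 1 1 = true :=
  ⟨(b (a (a (a (b (c (l 14255448) (l 14239624)) (c (l 14393552) (l 14376128))) (a (b (l 14593384) (l 14681824)) (l 355974650887))) (a (a (a (l 15100328) (l 15281232)) (l 369397776071)) (a (l 378525157671) (l 496100411255)))) (l 1)) (a (a (a (b (c (l 14622632) (l 14602776)) (b (l 14850792) (l 15018296))) (b (a (l 14836784) (l 14963176)) (a (l 15058992) (l 15066584)))) (a (b (a (l 15205280) (l 15583616)) (a (l 15209032) (l 15627552))) (a (b (l 15890280) (l 15990160)) (b (l 16131112) (l 16227592))))) (a (a (b (l 16469344) (l 16488560)) (b (l 4) (l 16751400))) (a (l 372823417639) (l 4))))), by decide +kernel⟩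

theorem c_pm_123 : CertFX 536870912 536870912 1610612736 469762048 1046898278 26843546 false true false .npn 1 2 3
    ndF2q1 ndF2q3 pcF2 Cut.none Ext.none :=
  certFX2 (fam := false) (s1 := true) (s2 := false) (a := 1) (b := 2) (c := 3) (cn := .npn) (n1 := ndF2q1) (n2 := ndF2q3) (pc := pcF2) (cut := Cut.none) (xt := Ext.none) (P1 := 536870912) (W1 := 536870912) (P2 := 1610612736) (W2 := 469762048) (P3 := 1046898278) (W3 := 26843546)
    rfl (fun _ => rfl) k0_pm_123

noncomputable def f_pm_133 : ℕ → ℕ → ℕ → ℕ → Bool := onCell 536870912 536870912 1610612736 469762048 1046898278 26843546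
    (rowFX 0 false true false .dn 1 3 3 (qsf 536870912 536870912 1610612736 469762048 3) ndF2q1 ndF2q3 pcF3 Cut.none Ext.none)

def k0_pm_133 : ∃ t, chk3 f_pm_133 t 1 1 1 = true :=
  ⟨(l 1), by decide +kernel⟩

theorem c_pm_133 : CertFX 536870912 536870912 1610612736 469762048 1046898278 26843546 false true false .dn 1 3 3
    ndF2q1 ndF2q3 pcF3 Cut.none Ext.none :=
  certFX0 (fam := false) (s1 := true) (s2 := false) (a := 1) (b := 3) (c := 3) (cn := .dn) (n1 := ndF2q1) (n2 := ndF2q3) (pc := pcF3) (cut := Cut.none) (xt := Ext.none) (P1 := 536870912) (W1 := 536870912) (P2 := 1610612736) (W2 := 469762048) (P3 := 1046898278) (W3 := 26843546)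
    rfl k0_pm_133

noncomputable def f_pm_202_aa : ℕ → ℕ → ℕ → ℕ → Bool := onCell 0 420477299 0 420477299 1046898278 26843546
    (rowFX 0 false true false .pp 2 0 2 (qsf 0 420477299 0 420477299 0) ndF2q2a ndF2q2a pcF0 Cut.none Ext.none)

def k0_pm_202_aa : ∃ t, chk3 f_pm_202_aa t 1 1 1 = true :=
  ⟨(l 3), by decide +kernel⟩

theorem c_pm_202_aa : CertFX 0 420477299 0 420477299 1046898278 26843546 false true false .pp 2 0 2
    ndF2q2a ndF2q2a pcF0 Cut.none Ext.none :=
  certFX0 (fam := false) (s1 := true) (s2 := false) (a := 2) (b := 0) (c := 2) (cn := .pp) (n1 := ndF2q2a) (n2 := ndF2q2a) (pc := pcF0) (cut := Cut.none) (xt := Ext.none) (P1 := 0) (W1 := 420477299) (P2 := 0) (W2 := 420477299) (P3 := 1046898278) (W3 := 26843546)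
    rfl k0_pm_202_aa

noncomputable def f_pm_202_ab : ℕ → ℕ → ℕ → ℕ → Bool := onCell 0 420477299 1239849684 370763052 1046898278 26843546
    (rowFX 0 false true false .pp 2 0 2 (qsf 0 420477299 1239849684 370763052 0) ndF2q2a ndF2q2b pcF0 Cut.none Ext.none)

def k0_pm_202_ab : ∃ t, chk3 f_pm_202_ab t 1 1 1 = true :=
  ⟨(l 3), by decide +kernel⟩

theorem c_pm_202_ab : CertFX 0 420477299 1239849684 370763052 1046898278 26843546 false true false .pp 2 0 2
    ndF2q2a ndF2q2b pcF0 Cut.none Ext.none :=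
  certFX0 (fam := false) (s1 := true) (s2 := false) (a := 2) (b := 0) (c := 2) (cn := .pp) (n1 := ndF2q2a) (n2 := ndF2q2b) (pc := pcF0) (cut := Cut.none) (xt := Ext.none) (P1 := 0) (W1 := 420477299) (P2 := 1239849684) (W2 := 370763052) (P3 := 1046898278) (W3 := 26843546)
    rfl k0_pm_202_ab

noncomputable def f_pm_202_ba : ℕ → ℕ → ℕ → ℕ → Bool := onCell 1239849684 370763052 0 420477299 1046898278 26843546
    (rowFX 0 false true false .pp 2 0 2 (qsf 1239849684 370763052 0 420477299 0) ndF2q2b ndF2q2a pcF0 Cut.none Ext.none)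

def k0_pm_202_ba : ∃ t, chk3 f_pm_202_ba t 1 1 1 = true :=
  ⟨(l 3), by decide +kernel⟩

theorem c_pm_202_ba : CertFX 1239849684 370763052 0 420477299 1046898278 26843546 false true false .pp 2 0 2
    ndF2q2b ndF2q2a pcF0 Cut.none Ext.none :=
  certFX0 (fam := false) (s1 := true) (s2 := false) (a := 2) (b := 0) (c := 2) (cn := .pp) (n1 := ndF2q2b) (n2 := ndF2q2a) (pc := pcF0) (cut := Cut.none) (xt := Ext.none) (P1 := 1239849684) (W1 := 370763052) (P2 := 0) (W2 := 420477299) (P3 := 1046898278) (W3 := 26843546)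
    rfl k0_pm_202_ba

noncomputable def f_pm_202_bb : ℕ → ℕ → ℕ → ℕ → Bool := onCell 1239849684 370763052 1239849684 370763052 1046898278 26843546
    (rowFX 0 false true false .pp 2 0 2 (qsf 1239849684 370763052 1239849684 370763052 0) ndF2q2b ndF2q2b pcF0 Cut.none Ext.none)

def k0_pm_202_bb : ∃ t, chk3 f_pm_202_bb t 1 1 1 = true :=
  ⟨(l 3), by decide +kernel⟩

theorem c_pm_202_bb : CertFX 1239849684 370763052 1239849684 370763052 1046898278 26843546 false true false .pp 2 0 2
    ndF2q2b ndF2q2b pcF0 Cut.none Ext.none :=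
  certFX0 (fam := false) (s1 := true) (s2 := false) (a := 2) (b := 0) (c := 2) (cn := .pp) (n1 := ndF2q2b) (n2 := ndF2q2b) (pc := pcF0) (cut := Cut.none) (xt := Ext.none) (P1 := 1239849684) (W1 := 370763052) (P2 := 1239849684) (W2 := 370763052) (P3 := 1046898278) (W3 := 26843546)
    rfl k0_pm_202_bb

noncomputable def f_pm_203_a : ℕ → ℕ → ℕ → ℕ → Bool := onCell 0 420477299 1610612736 469762048 1046898278 26843546
    (rowFX 0 false true false .up 2 0 3 (qsf 0 420477299 1610612736 469762048 0) ndF2q2a ndF2q3 pcF0 Cut.none Ext.none)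

def k0_pm_203_a : ∃ t, chk3 f_pm_203_a t 1 1 1 = true :=
  ⟨(l 3), by decide +kernel⟩

theorem c_pm_203_a : CertFX 0 420477299 1610612736 469762048 1046898278 26843546 false true false .up 2 0 3
    ndF2q2a ndF2q3 pcF0 Cut.none Ext.none :=
  certFX0 (fam := false) (s1 := true) (s2 := false) (a := 2) (b := 0) (c := 3) (cn := .up) (n1 := ndF2q2a) (n2 := ndF2q3) (pc := pcF0) (cut := Cut.none) (xt := Ext.none) (P1 := 0) (W1 := 420477299) (P2 := 1610612736) (W2 := 469762048) (P3 := 1046898278) (W3 := 26843546)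
    rfl k0_pm_203_a

noncomputable def f_pm_203_b : ℕ → ℕ → ℕ → ℕ → Bool := onCell 1239849684 370763052 1610612736 469762048 1046898278 26843546
    (rowFX 0 false true false .up 2 0 3 (qsf 1239849684 370763052 1610612736 469762048 0) ndF2q2b ndF2q3 pcF0 Cut.none Ext.none)

def k0_pm_203_b : ∃ t, chk3 f_pm_203_b t 1 1 1 = true :=
  ⟨(l 3), by decide +kernel⟩

theorem c_pm_203_b : CertFX 1239849684 370763052 1610612736 469762048 1046898278 26843546 false true false .up 2 0 3
    ndF2q2b ndF2q3 pcF0 Cut.none Ext.none :=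
  certFX0 (fam := false) (s1 := true) (s2 := false) (a := 2) (b := 0) (c := 3) (cn := .up) (n1 := ndF2q2b) (n2 := ndF2q3) (pc := pcF0) (cut := Cut.none) (xt := Ext.none) (P1 := 1239849684) (W1 := 370763052) (P2 := 1610612736) (W2 := 469762048) (P3 := 1046898278) (W3 := 26843546)
    rfl k0_pm_203_b

noncomputable def f_pm_213_a : ℕ → ℕ → ℕ → ℕ → Bool := onCell 0 420477299 1610612736 469762048 1046898278 26843546
    (rowFX 0 false true false .pnn 2 1 3 (qsf 0 420477299 1610612736 469762048 1) ndF2q2a ndF2q3 pcF1 Cut.none Ext.none)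

def k0_pm_213_a : ∃ t, chk3 f_pm_213_a t 1 1 1 = true :=
  ⟨(l 3), by decide +kernel⟩

theorem c_pm_213_a : CertFX 0 420477299 1610612736 469762048 1046898278 26843546 false true false .pnn 2 1 3
    ndF2q2a ndF2q3 pcF1 Cut.none Ext.none :=
  certFX0 (fam := false) (s1 := true) (s2 := false) (a := 2) (b := 1) (c := 3) (cn := .pnn) (n1 := ndF2q2a) (n2 := ndF2q3) (pc := pcF1) (cut := Cut.none) (xt := Ext.none) (P1 := 0) (W1 := 420477299) (P2 := 1610612736) (W2 := 469762048) (P3 := 1046898278) (W3 := 26843546)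
    rfl k0_pm_213_a

noncomputable def f_pm_213_b : ℕ → ℕ → ℕ → ℕ → Bool := onCell 1239849684 370763052 1610612736 469762048 1046898278 26843546
    (rowFX 0 false true false .pnn 2 1 3 (qsf 1239849684 370763052 1610612736 469762048 1) ndF2q2b ndF2q3 pcF1 Cut.none Ext.none)

def k0_pm_213_b : ∃ t, chk3 f_pm_213_b t 1 1 1 = true :=
  ⟨(l 3), by decide +kernel⟩

theorem c_pm_213_b : CertFX 1239849684 370763052 1610612736 469762048 1046898278 26843546 false true false .pnn 2 1 3
    ndF2q2b ndF2q3 pcF1 Cut.none Ext.none :=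
  certFX0 (fam := false) (s1 := true) (s2 := false) (a := 2) (b := 1) (c := 3) (cn := .pnn) (n1 := ndF2q2b) (n2 := ndF2q3) (pc := pcF1) (cut := Cut.none) (xt := Ext.none) (P1 := 1239849684) (W1 := 370763052) (P2 := 1610612736) (W2 := 469762048) (P3 := 1046898278) (W3 := 26843546)
    rfl k0_pm_213_b

noncomputable def f_pm_303 : ℕ → ℕ → ℕ → ℕ → Bool := onCell 1610612736 469762048 1610612736 469762048 1046898278 26843546
    (rowFX 0 false true false .npn 3 0 3 (qsf 1610612736 469762048 1610612736 469762048 0) ndF2q3 ndF2q3 pcF0 Cut.none Ext.none)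

def k0_pm_303 : ∃ t, chk3 f_pm_303 t 1 1 1 = true :=
  ⟨(l 3), by decide +kernel⟩

theorem c_pm_303 : CertFX 1610612736 469762048 1610612736 469762048 1046898278 26843546 false true false .npn 3 0 3
    ndF2q3 ndF2q3 pcF0 Cut.none Ext.none :=
  certFX0 (fam := false) (s1 := true) (s2 := false) (a := 3) (b := 0) (c := 3) (cn := .npn) (n1 := ndF2q3) (n2 := ndF2q3) (pc := pcF0) (cut := Cut.none) (xt := Ext.none) (P1 := 1610612736) (W1 := 469762048) (P2 := 1610612736) (W2 := 469762048) (P3 := 1046898278) (W3 := 26843546)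
    rfl k0_pm_303

noncomputable def f_pm_313 : ℕ → ℕ → ℕ → ℕ → Bool := onCell 1610612736 469762048 1610612736 469762048 1046898278 26843546
    (rowFX 0 false true false .dn 3 1 3 (qsf 1610612736 469762048 1610612736 469762048 1) ndF2q3 ndF2q3 pcF1 Cut.none Ext.none)

def k0_pm_313 : ∃ t, chk3 f_pm_313 t 1 1 1 = true :=
  ⟨(l 1), by decide +kernel⟩

theorem c_pm_313 : CertFX 1610612736 469762048 1610612736 469762048 1046898278 26843546 false true false .dn 3 1 3
    ndF2q3 ndF2q3 pcF1 Cut.none Ext.none :=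
  certFX0 (fam := false) (s1 := true) (s2 := false) (a := 3) (b := 1) (c := 3) (cn := .dn) (n1 := ndF2q3) (n2 := ndF2q3) (pc := pcF1) (cut := Cut.none) (xt := Ext.none) (P1 := 1610612736) (W1 := 469762048) (P2 := 1610612736) (W2 := 469762048) (P3 := 1046898278) (W3 := 26843546)
    rfl k0_pm_313

noncomputable def f_mm_001 : ℕ → ℕ → ℕ → ℕ → Bool := onCell 67108864 469762048 536870912 536870912 1046898278 26843546
    (rowFX 0 false false false .up 0 0 1 (qsf 67108864 469762048 536870912 536870912 0) ndF2q0 ndF2q1 pcF0 Cut.none Ext.none)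

def k0_mm_001 : ∃ t, chk3 f_mm_001 t 1 1 1 = true :=
  ⟨(l 3), by decide +kernel⟩

theorem c_mm_001 : CertFX 67108864 469762048 536870912 536870912 1046898278 26843546 false false false .up 0 0 1
    ndF2q0 ndF2q1 pcF0 Cut.none Ext.none :=
  certFX0 (fam := false) (s1 := false) (s2 := false) (a := 0) (b := 0) (c := 1) (cn := .up) (n1 := ndF2q0) (n2 := ndF2q1) (pc := pcF0) (cut := Cut.none) (xt := Ext.none) (P1 := 67108864) (W1 := 469762048) (P2 := 536870912) (W2 := 536870912) (P3 := 1046898278) (W3 := 26843546)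
    rfl k0_mm_001

noncomputable def f_mm_011 : ℕ → ℕ → ℕ → ℕ → Bool := onCell 67108864 469762048 536870912 536870912 1046898278 26843546
    (rowFX 0 false false false .pnn 0 1 1 (qsf 67108864 469762048 536870912 536870912 1) ndF2q0 ndF2q1 pcF1 Cut.none Ext.none)

def k0_mm_011 : ∃ t, chk3 f_mm_011 t 1 1 1 = true :=
  ⟨(l 3), by decide +kernel⟩

theorem c_mm_011 : CertFX 67108864 469762048 536870912 536870912 1046898278 26843546 false false false .pnn 0 1 1
    ndF2q0 ndF2q1 pcF1 Cut.none Ext.none :=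
  certFX0 (fam := false) (s1 := false) (s2 := false) (a := 0) (b := 1) (c := 1) (cn := .pnn) (n1 := ndF2q0) (n2 := ndF2q1) (pc := pcF1) (cut := Cut.none) (xt := Ext.none) (P1 := 67108864) (W1 := 469762048) (P2 := 536870912) (W2 := 536870912) (P3 := 1046898278) (W3 := 26843546)
    rfl k0_mm_011

noncomputable def f_mm_012_a : ℕ → ℕ → ℕ → ℕ → Bool := onCell 67108864 469762048 0 420477299 1046898278 26843546
    (rowFX 0 false false false .pnp 0 1 2 (qsf 67108864 469762048 0 420477299 1) ndF2q0 ndF2q2a pcF1 Cut.none Ext.none)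

def k0_mm_012_a : ∃ t, chk3 f_mm_012_a t 1 1 1 = true :=
  ⟨(l 5), by decide +kernel⟩

theorem c_mm_012_a : CertFX 67108864 469762048 0 420477299 1046898278 26843546 false false false .pnp 0 1 2
    ndF2q0 ndF2q2a pcF1 Cut.none Ext.none :=
  certFX0 (fam := false) (s1 := false) (s2 := false) (a := 0) (b := 1) (c := 2) (cn := .pnp) (n1 := ndF2q0) (n2 := ndF2q2a) (pc := pcF1) (cut := Cut.none) (xt := Ext.none) (P1 := 67108864) (W1 := 469762048) (P2 := 0) (W2 := 420477299) (P3 := 1046898278) (W3 := 26843546)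
    rfl k0_mm_012_a

noncomputable def f_mm_012_b : ℕ → ℕ → ℕ → ℕ → Bool := onCell 67108864 469762048 1239849684 370763052 1046898278 26843546
    (rowFX 0 false false false .pnp 0 1 2 (qsf 67108864 469762048 1239849684 370763052 1) ndF2q0 ndF2q2b pcF1 Cut.none Ext.none)

def k0_mm_012_b : ∃ t, chk3 f_mm_012_b t 1 1 1 = true :=
  ⟨(l 5), by decide +kernel⟩

theorem c_mm_012_b : CertFX 67108864 469762048 1239849684 370763052 1046898278 26843546 false false false .pnp 0 1 2
    ndF2q0 ndF2q2b pcF1 Cut.none Ext.none :=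
  certFX0 (fam := false) (s1 := false) (s2 := false) (a := 0) (b := 1) (c := 2) (cn := .pnp) (n1 := ndF2q0) (n2 := ndF2q2b) (pc := pcF1) (cut := Cut.none) (xt := Ext.none) (P1 := 67108864) (W1 := 469762048) (P2 := 1239849684) (W2 := 370763052) (P3 := 1046898278) (W3 := 26843546)
    rfl k0_mm_012_b

noncomputable def f_mm_022_a : ℕ → ℕ → ℕ → ℕ → Bool := onCell 67108864 469762048 0 420477299 1046898278 26843546
    (rowFX 0 false false false .pp 0 2 2 (qsf 67108864 469762048 0 420477299 2) ndF2q0 ndF2q2a pcF2 Cut.none Ext.none)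

def k0_mm_022_a : ∃ t, chk3 f_mm_022_a t 1 1 1 = true :=
  ⟨(l 5), by decide +kernel⟩

theorem c_mm_022_a : CertFX 67108864 469762048 0 420477299 1046898278 26843546 false false false .pp 0 2 2
    ndF2q0 ndF2q2a pcF2 Cut.none Ext.none :=
  certFX0 (fam := false) (s1 := false) (s2 := false) (a := 0) (b := 2) (c := 2) (cn := .pp) (n1 := ndF2q0) (n2 := ndF2q2a) (pc := pcF2) (cut := Cut.none) (xt := Ext.none) (P1 := 67108864) (W1 := 469762048) (P2 := 0) (W2 := 420477299) (P3 := 1046898278) (W3 := 26843546)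
    rfl k0_mm_022_a

noncomputable def f_mm_022_b : ℕ → ℕ → ℕ → ℕ → Bool := onCell 67108864 469762048 1239849684 370763052 1046898278 26843546
    (rowFX 0 false false false .pp 0 2 2 (qsf 67108864 469762048 1239849684 370763052 2) ndF2q0 ndF2q2b pcF2 Cut.none Ext.none)

def k0_mm_022_b : ∃ t, chk3 f_mm_022_b t 1 1 1 = true :=
  ⟨(l 5), by decide +kernel⟩

theorem c_mm_022_b : CertFX 67108864 469762048 1239849684 370763052 1046898278 26843546 false false false .pp 0 2 2
    ndF2q0 ndF2q2b pcF2 Cut.none Ext.none :=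
  certFX0 (fam := false) (s1 := false) (s2 := false) (a := 0) (b := 2) (c := 2) (cn := .pp) (n1 := ndF2q0) (n2 := ndF2q2b) (pc := pcF2) (cut := Cut.none) (xt := Ext.none) (P1 := 67108864) (W1 := 469762048) (P2 := 1239849684) (W2 := 370763052) (P3 := 1046898278) (W3 := 26843546)
    rfl k0_mm_022_b

noncomputable def f_mm_023 : ℕ → ℕ → ℕ → ℕ → Bool := onCell 67108864 469762048 1610612736 469762048 1046898278 26843546
    (rowFX 0 false false false .up 0 2 3 (qsf 67108864 469762048 1610612736 469762048 2) ndF2q0 ndF2q3 pcF2 Cut.none Ext.none)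

def k0_mm_023 : ∃ t, chk3 f_mm_023 t 1 1 1 = true :=
  ⟨(l 5), by decide +kernel⟩

theorem c_mm_023 : CertFX 67108864 469762048 1610612736 469762048 1046898278 26843546 false false false .up 0 2 3
    ndF2q0 ndF2q3 pcF2 Cut.none Ext.none :=
  certFX0 (fam := false) (s1 := false) (s2 := false) (a := 0) (b := 2) (c := 3) (cn := .up) (n1 := ndF2q0) (n2 := ndF2q3) (pc := pcF2) (cut := Cut.none) (xt := Ext.none) (P1 := 67108864) (W1 := 469762048) (P2 := 1610612736) (W2 := 469762048) (P3 := 1046898278) (W3 := 26843546)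
    rfl k0_mm_023

noncomputable def f_mm_033 : ℕ → ℕ → ℕ → ℕ → Bool := onCell 67108864 469762048 1610612736 469762048 1046898278 26843546
    (rowFX 0 false false false .pnn 0 3 3 (qsf 67108864 469762048 1610612736 469762048 3) ndF2q0 ndF2q3 pcF3 Cut.none Ext.none)

def k0_mm_033 : ∃ t, chk3 f_mm_033 t 1 1 1 = true :=
  ⟨(l 5), by decide +kernel⟩

theorem c_mm_033 : CertFX 67108864 469762048 1610612736 469762048 1046898278 26843546 false false false .pnn 0 3 3
    ndF2q0 ndF2q3 pcF3 Cut.none Ext.none :=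
  certFX0 (fam := false) (s1 := false) (s2 := false) (a := 0) (b := 3) (c := 3) (cn := .pnn) (n1 := ndF2q0) (n2 := ndF2q3) (pc := pcF3) (cut := Cut.none) (xt := Ext.none) (P1 := 67108864) (W1 := 469762048) (P2 := 1610612736) (W2 := 469762048) (P3 := 1046898278) (W3 := 26843546)
    rfl k0_mm_033

noncomputable def f_mm_101 : ℕ → ℕ → ℕ → ℕ → Bool := onCell 536870912 536870912 536870912 536870912 1046898278 26843546
    (rowFX 0 false false false .npn 1 0 1 (qsf 536870912 536870912 536870912 536870912 0) ndF2q1 ndF2q1 pcF0 Cut.none Ext.none)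

def k0_mm_101 : ∃ t, chk3 f_mm_101 t 1 1 1 = true :=
  ⟨(l 3), by decide +kernel⟩

theorem c_mm_101 : CertFX 536870912 536870912 536870912 536870912 1046898278 26843546 false false false .npn 1 0 1
    ndF2q1 ndF2q1 pcF0 Cut.none Ext.none :=
  certFX0 (fam := false) (s1 := false) (s2 := false) (a := 1) (b := 0) (c := 1) (cn := .npn) (n1 := ndF2q1) (n2 := ndF2q1) (pc := pcF0) (cut := Cut.none) (xt := Ext.none) (P1 := 536870912) (W1 := 536870912) (P2 := 536870912) (W2 := 536870912) (P3 := 1046898278) (W3 := 26843546)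
    rfl k0_mm_101

noncomputable def f_mm_102_a : ℕ → ℕ → ℕ → ℕ → Bool := onCell 536870912 536870912 0 420477299 1046898278 26843546
    (rowFX 0 false false false .npp 1 0 2 (qsf 536870912 536870912 0 420477299 0) ndF2q1 ndF2q2a pcF0 Cut.none Ext.none)

def k0_mm_102_a : ∃ t, chk3 f_mm_102_a t 1 1 1 = true :=
  ⟨(l 5), by decide +kernel⟩

theorem c_mm_102_a : CertFX 536870912 536870912 0 420477299 1046898278 26843546 false false false .npp 1 0 2
    ndF2q1 ndF2q2a pcF0 Cut.none Ext.none :=
  certFX0 (fam := false) (s1 := false) (s2 := false) (a := 1) (b := 0) (c := 2) (cn := .npp) (n1 := ndF2q1) (n2 := ndF2q2a) (pc := pcF0) (cut := Cut.none) (xt := Ext.none) (P1 := 536870912) (W1 := 536870912) (P2 := 0) (W2 := 420477299) (P3 := 1046898278) (W3 := 26843546)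
    rfl k0_mm_102_a

noncomputable def f_mm_102_b : ℕ → ℕ → ℕ → ℕ → Bool := onCell 536870912 536870912 1239849684 370763052 1046898278 26843546
    (rowFX 0 false false false .npp 1 0 2 (qsf 536870912 536870912 1239849684 370763052 0) ndF2q1 ndF2q2b pcF0 Cut.none Ext.none)

def k0_mm_102_b : ∃ t, chk3 f_mm_102_b t 1 1 1 = true :=
  ⟨(l 5), by decide +kernel⟩

theorem c_mm_102_b : CertFX 536870912 536870912 1239849684 370763052 1046898278 26843546 false false false .npp 1 0 2
    ndF2q1 ndF2q2b pcF0 Cut.none Ext.none :=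
  certFX0 (fam := false) (s1 := false) (s2 := false) (a := 1) (b := 0) (c := 2) (cn := .npp) (n1 := ndF2q1) (n2 := ndF2q2b) (pc := pcF0) (cut := Cut.none) (xt := Ext.none) (P1 := 536870912) (W1 := 536870912) (P2 := 1239849684) (W2 := 370763052) (P3 := 1046898278) (W3 := 26843546)
    rfl k0_mm_102_b

noncomputable def f_mm_112_a : ℕ → ℕ → ℕ → ℕ → Bool := onCell 536870912 536870912 0 420477299 1046898278 26843546
    (rowFX 0 false false false .dn 1 1 2 (qsf 536870912 536870912 0 420477299 1) ndF2q1 ndF2q2a pcF1 Cut.none Ext.none)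

def k0_mm_112_a : ∃ t, chk3 f_mm_112_a t 1 1 1 = true :=
  ⟨(l 5), by decide +kernel⟩

theorem c_mm_112_a : CertFX 536870912 536870912 0 420477299 1046898278 26843546 false false false .dn 1 1 2
    ndF2q1 ndF2q2a pcF1 Cut.none Ext.none :=
  certFX0 (fam := false) (s1 := false) (s2 := false) (a := 1) (b := 1) (c := 2) (cn := .dn) (n1 := ndF2q1) (n2 := ndF2q2a) (pc := pcF1) (cut := Cut.none) (xt := Ext.none) (P1 := 536870912) (W1 := 536870912) (P2 := 0) (W2 := 420477299) (P3 := 1046898278) (W3 := 26843546)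
    rfl k0_mm_112_a

noncomputable def f_mm_112_b : ℕ → ℕ → ℕ → ℕ → Bool := onCell 536870912 536870912 1239849684 370763052 1046898278 26843546
    (rowFX 0 false false false .dn 1 1 2 (qsf 536870912 536870912 1239849684 370763052 1) ndF2q1 ndF2q2b pcF1 Cut.none Ext.none)

def k0_mm_112_b : ∃ t, chk3 f_mm_112_b t 1 1 1 = true :=
  ⟨(l 5), by decide +kernel⟩

theorem c_mm_112_b : CertFX 536870912 536870912 1239849684 370763052 1046898278 26843546 false false false .dn 1 1 2
    ndF2q1 ndF2q2b pcF1 Cut.none Ext.none :=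
  certFX0 (fam := false) (s1 := false) (s2 := false) (a := 1) (b := 1) (c := 2) (cn := .dn) (n1 := ndF2q1) (n2 := ndF2q2b) (pc := pcF1) (cut := Cut.none) (xt := Ext.none) (P1 := 536870912) (W1 := 536870912) (P2 := 1239849684) (W2 := 370763052) (P3 := 1046898278) (W3 := 26843546)
    rfl k0_mm_112_b

noncomputable def f_mm_113 : ℕ → ℕ → ℕ → ℕ → Bool := onCell 536870912 536870912 1610612736 469762048 1046898278 26843546
    (rowFX 0 false false false .nn 1 1 3 (qsf 536870912 536870912 1610612736 469762048 1) ndF2q1 ndF2q3 pcF1 Cut.none Ext.none)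

def k0_mm_113 : ∃ t, chk3 f_mm_113 t 1 1 1 = true :=
  ⟨(l 5), by decide +kernel⟩

theorem c_mm_113 : CertFX 536870912 536870912 1610612736 469762048 1046898278 26843546 false false false .nn 1 1 3
    ndF2q1 ndF2q3 pcF1 Cut.none Ext.none :=
  certFX0 (fam := false) (s1 := false) (s2 := false) (a := 1) (b := 1) (c := 3) (cn := .nn) (n1 := ndF2q1) (n2 := ndF2q3) (pc := pcF1) (cut := Cut.none) (xt := Ext.none) (P1 := 536870912) (W1 := 536870912) (P2 := 1610612736) (W2 := 469762048) (P3 := 1046898278) (W3 := 26843546)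
    rfl k0_mm_113

noncomputable def f_mm_123 : ℕ → ℕ → ℕ → ℕ → Bool := onCell 536870912 536870912 1610612736 469762048 1046898278 26843546
    (rowFX 0 false false false .npn 1 2 3 (qsf 536870912 536870912 1610612736 469762048 2) ndF2q1 ndF2q3 pcF2 Cut.none Ext.none)

def k0_mm_123 : ∃ t, chk3 f_mm_123 t 1 1 1 = true :=
  ⟨(l 5), by decide +kernel⟩

theorem c_mm_123 : CertFX 536870912 536870912 1610612736 469762048 1046898278 26843546 false false false .npn 1 2 3
    ndF2q1 ndF2q3 pcF2 Cut.none Ext.none :=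
  certFX0 (fam := false) (s1 := false) (s2 := false) (a := 1) (b := 2) (c := 3) (cn := .npn) (n1 := ndF2q1) (n2 := ndF2q3) (pc := pcF2) (cut := Cut.none) (xt := Ext.none) (P1 := 536870912) (W1 := 536870912) (P2 := 1610612736) (W2 := 469762048) (P3 := 1046898278) (W3 := 26843546)
    rfl k0_mm_123

noncomputable def f_mm_133 : ℕ → ℕ → ℕ → ℕ → Bool := onCell 536870912 536870912 1610612736 469762048 1046898278 26843546
    (rowFX 0 false false false .dn 1 3 3 (qsf 536870912 536870912 1610612736 469762048 3) ndF2q1 ndF2q3 pcF3 Cut.none Ext.none)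

def k0_mm_133 : ∃ t, chk3 f_mm_133 t 1 1 1 = true :=
  ⟨(l 1), by decide +kernel⟩

theorem c_mm_133 : CertFX 536870912 536870912 1610612736 469762048 1046898278 26843546 false false false .dn 1 3 3
    ndF2q1 ndF2q3 pcF3 Cut.none Ext.none :=
  certFX0 (fam := false) (s1 := false) (s2 := false) (a := 1) (b := 3) (c := 3) (cn := .dn) (n1 := ndF2q1) (n2 := ndF2q3) (pc := pcF3) (cut := Cut.none) (xt := Ext.none) (P1 := 536870912) (W1 := 536870912) (P2 := 1610612736) (W2 := 469762048) (P3 := 1046898278) (W3 := 26843546)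
    rfl k0_mm_133

noncomputable def f_mm_202_aa : ℕ → ℕ → ℕ → ℕ → Bool := onCell 0 420477299 0 420477299 1046898278 26843546
    (rowFX 0 false false false .pp 2 0 2 (qsf 0 420477299 0 420477299 0) ndF2q2a ndF2q2a pcF0 Cut.none Ext.none)

def k0_mm_202_aa : ∃ t, chk3 f_mm_202_aa t 1 1 1 = true :=
  ⟨(l 3), by decide +kernel⟩

theorem c_mm_202_aa : CertFX 0 420477299 0 420477299 1046898278 26843546 false false false .pp 2 0 2
    ndF2q2a ndF2q2a pcF0 Cut.none Ext.none :=
  certFX0 (fam := false) (s1 := false) (s2 := false) (a := 2) (b := 0) (c := 2) (cn := .pp) (n1 := ndF2q2a) (n2 := ndF2q2a) (pc := pcF0) (cut := Cut.none) (xt := Ext.none) (P1 := 0) (W1 := 420477299) (P2 := 0) (W2 := 420477299) (P3 := 1046898278) (W3 := 26843546)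
    rfl k0_mm_202_aa

noncomputable def f_mm_202_ab : ℕ → ℕ → ℕ → ℕ → Bool := onCell 0 420477299 1239849684 370763052 1046898278 26843546
    (rowFX 0 false false false .pp 2 0 2 (qsf 0 420477299 1239849684 370763052 0) ndF2q2a ndF2q2b pcF0 Cut.none Ext.none)

def k0_mm_202_ab : ∃ t, chk3 f_mm_202_ab t 1 1 1 = true :=
  ⟨(l 3), by decide +kernel⟩

theorem c_mm_202_ab : CertFX 0 420477299 1239849684 370763052 1046898278 26843546 false false false .pp 2 0 2
    ndF2q2a ndF2q2b pcF0 Cut.none Ext.none :=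
  certFX0 (fam := false) (s1 := false) (s2 := false) (a := 2) (b := 0) (c := 2) (cn := .pp) (n1 := ndF2q2a) (n2 := ndF2q2b) (pc := pcF0) (cut := Cut.none) (xt := Ext.none) (P1 := 0) (W1 := 420477299) (P2 := 1239849684) (W2 := 370763052) (P3 := 1046898278) (W3 := 26843546)
    rfl k0_mm_202_ab

noncomputable def f_mm_202_ba : ℕ → ℕ → ℕ → ℕ → Bool := onCell 1239849684 370763052 0 420477299 1046898278 26843546
    (rowFX 0 false false false .pp 2 0 2 (qsf 1239849684 370763052 0 420477299 0) ndF2q2b ndF2q2a pcF0 Cut.none Ext.none)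

def k0_mm_202_ba : ∃ t, chk3 f_mm_202_ba t 1 1 1 = true :=
  ⟨(l 3), by decide +kernel⟩

theorem c_mm_202_ba : CertFX 1239849684 370763052 0 420477299 1046898278 26843546 false false false .pp 2 0 2
    ndF2q2b ndF2q2a pcF0 Cut.none Ext.none :=
  certFX0 (fam := false) (s1 := false) (s2 := false) (a := 2) (b := 0) (c := 2) (cn := .pp) (n1 := ndF2q2b) (n2 := ndF2q2a) (pc := pcF0) (cut := Cut.none) (xt := Ext.none) (P1 := 1239849684) (W1 := 370763052) (P2 := 0) (W2 := 420477299) (P3 := 1046898278) (W3 := 26843546)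
    rfl k0_mm_202_ba

noncomputable def f_mm_202_bb : ℕ → ℕ → ℕ → ℕ → Bool := onCell 1239849684 370763052 1239849684 370763052 1046898278 26843546
    (rowFX 0 false false false .pp 2 0 2 (qsf 1239849684 370763052 1239849684 370763052 0) ndF2q2b ndF2q2b pcF0 Cut.none Ext.none)

def k0_mm_202_bb : ∃ t, chk3 f_mm_202_bb t 1 1 1 = true :=
  ⟨(l 3), by decide +kernel⟩

theorem c_mm_202_bb : CertFX 1239849684 370763052 1239849684 370763052 1046898278 26843546 false false false .pp 2 0 2
    ndF2q2b ndF2q2b pcF0 Cut.none Ext.none :=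
  certFX0 (fam := false) (s1 := false) (s2 := false) (a := 2) (b := 0) (c := 2) (cn := .pp) (n1 := ndF2q2b) (n2 := ndF2q2b) (pc := pcF0) (cut := Cut.none) (xt := Ext.none) (P1 := 1239849684) (W1 := 370763052) (P2 := 1239849684) (W2 := 370763052) (P3 := 1046898278) (W3 := 26843546)
    rfl k0_mm_202_bb

noncomputable def f_mm_203_a : ℕ → ℕ → ℕ → ℕ → Bool := onCell 0 420477299 1610612736 469762048 1046898278 26843546
    (rowFX 0 false false false .up 2 0 3 (qsf 0 420477299 1610612736 469762048 0) ndF2q2a ndF2q3 pcF0 Cut.none Ext.none)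

def k0_mm_203_a : ∃ t, chk3 f_mm_203_a t 1 1 1 = true :=
  ⟨(l 3), by decide +kernel⟩

theorem c_mm_203_a : CertFX 0 420477299 1610612736 469762048 1046898278 26843546 false false false .up 2 0 3
    ndF2q2a ndF2q3 pcF0 Cut.none Ext.none :=
  certFX0 (fam := false) (s1 := false) (s2 := false) (a := 2) (b := 0) (c := 3) (cn := .up) (n1 := ndF2q2a) (n2 := ndF2q3) (pc := pcF0) (cut := Cut.none) (xt := Ext.none) (P1 := 0) (W1 := 420477299) (P2 := 1610612736) (W2 := 469762048) (P3 := 1046898278) (W3 := 26843546)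
    rfl k0_mm_203_a

noncomputable def f_mm_203_b : ℕ → ℕ → ℕ → ℕ → Bool := onCell 1239849684 370763052 1610612736 469762048 1046898278 26843546
    (rowFX 0 false false false .up 2 0 3 (qsf 1239849684 370763052 1610612736 469762048 0) ndF2q2b ndF2q3 pcF0 Cut.none Ext.none)

def k0_mm_203_b : ∃ t, chk3 f_mm_203_b t 1 1 1 = true :=
  ⟨(l 3), by decide +kernel⟩

theorem c_mm_203_b : CertFX 1239849684 370763052 1610612736 469762048 1046898278 26843546 false false false .up 2 0 3
    ndF2q2b ndF2q3 pcF0 Cut.none Ext.none :=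
  certFX0 (fam := false) (s1 := false) (s2 := false) (a := 2) (b := 0) (c := 3) (cn := .up) (n1 := ndF2q2b) (n2 := ndF2q3) (pc := pcF0) (cut := Cut.none) (xt := Ext.none) (P1 := 1239849684) (W1 := 370763052) (P2 := 1610612736) (W2 := 469762048) (P3 := 1046898278) (W3 := 26843546)
    rfl k0_mm_203_b

noncomputable def f_mm_213_a : ℕ → ℕ → ℕ → ℕ → Bool := onCell 0 420477299 1610612736 469762048 1046898278 26843546
    (rowFX 0 false false false .pnn 2 1 3 (qsf 0 420477299 1610612736 469762048 1) ndF2q2a ndF2q3 pcF1 Cut.none Ext.none)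

def k0_mm_213_a : ∃ t, chk3 f_mm_213_a t 1 1 1 = true :=
  ⟨(l 3), by decide +kernel⟩

theorem c_mm_213_a : CertFX 0 420477299 1610612736 469762048 1046898278 26843546 false false false .pnn 2 1 3
    ndF2q2a ndF2q3 pcF1 Cut.none Ext.none :=
  certFX0 (fam := false) (s1 := false) (s2 := false) (a := 2) (b := 1) (c := 3) (cn := .pnn) (n1 := ndF2q2a) (n2 := ndF2q3) (pc := pcF1) (cut := Cut.none) (xt := Ext.none) (P1 := 0) (W1 := 420477299) (P2 := 1610612736) (W2 := 469762048) (P3 := 1046898278) (W3 := 26843546)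
    rfl k0_mm_213_a

noncomputable def f_mm_213_b : ℕ → ℕ → ℕ → ℕ → Bool := onCell 1239849684 370763052 1610612736 469762048 1046898278 26843546
    (rowFX 0 false false false .pnn 2 1 3 (qsf 1239849684 370763052 1610612736 469762048 1) ndF2q2b ndF2q3 pcF1 Cut.none Ext.none)

def k0_mm_213_b : ∃ t, chk3 f_mm_213_b t 1 1 1 = true :=
  ⟨(l 3), by decide +kernel⟩

theorem c_mm_213_b : CertFX 1239849684 370763052 1610612736 469762048 1046898278 26843546 false false false .pnn 2 1 3
    ndF2q2b ndF2q3 pcF1 Cut.none Ext.none :=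
  certFX0 (fam := false) (s1 := false) (s2 := false) (a := 2) (b := 1) (c := 3) (cn := .pnn) (n1 := ndF2q2b) (n2 := ndF2q3) (pc := pcF1) (cut := Cut.none) (xt := Ext.none) (P1 := 1239849684) (W1 := 370763052) (P2 := 1610612736) (W2 := 469762048) (P3 := 1046898278) (W3 := 26843546)
    rfl k0_mm_213_b

noncomputable def f_mm_303 : ℕ → ℕ → ℕ → ℕ → Bool := onCell 1610612736 469762048 1610612736 469762048 1046898278 26843546
    (rowFX 0 false false false .npn 3 0 3 (qsf 1610612736 469762048 1610612736 469762048 0) ndF2q3 ndF2q3 pcF0 Cut.none Ext.none)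

def k0_mm_303 : ∃ t, chk3 f_mm_303 t 1 1 1 = true :=
  ⟨(l 3), by decide +kernel⟩

theorem c_mm_303 : CertFX 1610612736 469762048 1610612736 469762048 1046898278 26843546 false false false .npn 3 0 3
    ndF2q3 ndF2q3 pcF0 Cut.none Ext.none :=
  certFX0 (fam := false) (s1 := false) (s2 := false) (a := 3) (b := 0) (c := 3) (cn := .npn) (n1 := ndF2q3) (n2 := ndF2q3) (pc := pcF0) (cut := Cut.none) (xt := Ext.none) (P1 := 1610612736) (W1 := 469762048) (P2 := 1610612736) (W2 := 469762048) (P3 := 1046898278) (W3 := 26843546)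
    rfl k0_mm_303

noncomputable def f_mm_313 : ℕ → ℕ → ℕ → ℕ → Bool := onCell 1610612736 469762048 1610612736 469762048 1046898278 26843546
    (rowFX 0 false false false .dn 3 1 3 (qsf 1610612736 469762048 1610612736 469762048 1) ndF2q3 ndF2q3 pcF1 Cut.none Ext.none)

def k0_mm_313 : ∃ t, chk3 f_mm_313 t 1 1 1 = true :=
  ⟨(l 1), by decide +kernel⟩

theorem c_mm_313 : CertFX 1610612736 469762048 1610612736 469762048 1046898278 26843546 false false false .dn 3 1 3
    ndF2q3 ndF2q3 pcF1 Cut.none Ext.none :=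
  certFX0 (fam := false) (s1 := false) (s2 := false) (a := 3) (b := 1) (c := 3) (cn := .dn) (n1 := ndF2q3) (n2 := ndF2q3) (pc := pcF1) (cut := Cut.none) (xt := Ext.none) (P1 := 1610612736) (W1 := 469762048) (P2 := 1610612736) (W2 := 469762048) (P3 := 1046898278) (W3 := 26843546)
    rfl k0_mm_313

end Pool.Agent.Strip051.G.IE1.Tab.C.FB22

namespace Pool.Agent.Strip051.G.IE1.Tab.C.FB23

open Pool.Agent.Strip051.PB Pool.Agent.Strip051.PB.T
open Pool.Agent.Strip051.G.IE1.Tab

noncomputable def f_pp_001 : ℕ → ℕ → ℕ → ℕ → Bool := onCell 67108864 469762048 536870912 536870912 1046898278 26843546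
    (rowFX 0 false true true .up 0 0 1 (qsf 67108864 469762048 536870912 536870912 0) ndF2q0 ndF3q1 pcF0 Cut.none Ext.none)

def k0_pp_001 : ∃ t, chk3 f_pp_001 t 1 1 1 = true :=
  ⟨(l 3), by decide +kernel⟩

theorem c_pp_001 : CertFX 67108864 469762048 536870912 536870912 1046898278 26843546 false true true .up 0 0 1
    ndF2q0 ndF3q1 pcF0 Cut.none Ext.none :=
  certFX0 (fam := false) (s1 := true) (s2 := true) (a := 0) (b := 0) (c := 1) (cn := .up) (n1 := ndF2q0) (n2 := ndF3q1) (pc := pcF0) (cut := Cut.none) (xt := Ext.none) (P1 := 67108864) (W1 := 469762048) (P2 := 536870912) (W2 := 536870912) (P3 := 1046898278) (W3 := 26843546)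
    rfl k0_pp_001

noncomputable def f_pp_011 : ℕ → ℕ → ℕ → ℕ → Bool := onCell 67108864 469762048 536870912 536870912 1046898278 26843546
    (rowFX 0 false true true .pnn 0 1 1 (qsf 67108864 469762048 536870912 536870912 1) ndF2q0 ndF3q1 pcF1 Cut.none Ext.none)

def k0_pp_011 : ∃ t, chk3 f_pp_011 t 1 1 1 = true :=
  ⟨(l 3), by decide +kernel⟩

theorem c_pp_011 : CertFX 67108864 469762048 536870912 536870912 1046898278 26843546 false true true .pnn 0 1 1
    ndF2q0 ndF3q1 pcF1 Cut.none Ext.none :=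
  certFX0 (fam := false) (s1 := true) (s2 := true) (a := 0) (b := 1) (c := 1) (cn := .pnn) (n1 := ndF2q0) (n2 := ndF3q1) (pc := pcF1) (cut := Cut.none) (xt := Ext.none) (P1 := 67108864) (W1 := 469762048) (P2 := 536870912) (W2 := 536870912) (P3 := 1046898278) (W3 := 26843546)
    rfl k0_pp_011

noncomputable def f_pp_012 : ℕ → ℕ → ℕ → ℕ → Bool := onCell 536870912 536870912 1073741824 536870912 1046898278 26843546
    (rowFX 2 false true true .pnp 0 1 2 (qsf 67108864 469762048 1073741824 536870912 1) ndF2q0 ndF3q2 pcF1 Cut.none Ext.none)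

def k0_pp_012 : ∃ t, chk3 f_pp_012 t 2 1 1 = true :=
  ⟨(a (l 3) (b (l 3) (b (l 3) (l 2)))), by decide +kernel⟩

def k1_pp_012 : ∃ t, chk3 f_pp_012 t 6 1 1 = true :=
  ⟨(b (b (b (l 3) (a (l 3) (a (l 3) (b (l 3) (b (l 3) (l 555827301655)))))) (b (a (l 3) (b (a (l 3) (b (l 15864744) (a (l 15803792) (l 15825376)))) (a (l 16106840) (a (l 16105600) (l 16127368))))) (a (b (l 3) (l 16776880)) (b (a (l 16552320) (l 16413776)) (a (l 16774696) (l 16771168)))))) (a (b (c (l 16776800) (l 16776792)) (l 2)) (b (a (l 16770512) (b (l 16774824) (l 16775104))) (a (l 2) (l 16768624))))), by decide +kernel⟩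

def k2_pp_012 : ∃ t, chk3 f_pp_012 t 14 4 1 = true :=
  ⟨(b (b (l 3) (b (l 3) (a (l 3) (a (l 3) (c (c (l 16333416) (l 16406080)) (l 16404064)))))) (b (a (c (b (l 3) (l 428589303255)) (l 908551770263)) (a (b (l 616494517975) (l 16198560)) (b (c (l 16327384) (l 16316920)) (c (l 16193336) (l 16178832))))) (b (a (a (b (l 3) (l 15986944)) (c (l 16071840) (l 16060000))) (c (a (l 16059232) (l 16045608)) (l 16034240))) (a (a (l 16013176) (c (l 15923656) (l 15908136))) (c (l 15871200) (l 15849072)))))), by decide +kernel⟩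

def k3_pp_012 : ∃ t, chk3 f_pp_012 t 30 4 1 = true :=
  ⟨(b (b (a (l 3) (b (l 3) (b (a (l 3) (a (l 3) (l 1))) (c (a (l 16461960) (c (a (l 16584840) (l 336651136695)) (l 16562848))) (a (l 16361112) (l 16503552)))))) (c (a (b (b (c (l 16425776) (l 16371272)) (c (l 16452176) (l 16401392))) (b (c (l 16403816) (l 16386168)) (l 16367904))) (b (a (l 168744377527) (b (l 16494336) (l 16468872))) (c (a (l 16370768) (l 16383680)) (l 16363760)))) (a (b (a (l 346985251175) (l 16438304)) (l 16326328)) (b (a (l 16448224) (l 16470848)) (a (l 16347192) (l 16360624)))))) (b (a (b (l 16284776) (l 16154112)) (c (a (l 16191320) (b (l 16246088) (l 16113712))) (b (l 16237632) (l 16102776)))) (a (c (b (l 16020000) (l 15834656)) (l 15903504)) (c (a (l 15898912) (l 15719640)) (l 15868008))))), by decide +kernel⟩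

def k4_pp_012 : ∃ t, chk3 f_pp_012 t 31 4 1 = true :=
  ⟨(a (b (b (a (b (l 1) (b (l 1) (c (c (l 413423698935) (l 16609536)) (l 16575680)))) (l 1)) (c (b (c (a (b (c (l 16548600) (l 16572688)) (l 16509656)) (b (l 16518928) (l 16448968))) (a (l 252362142215) (b (l 16546488) (l 16514208)))) (c (a (l 16410288) (b (l 16463632) (l 16401272))) (a (l 16405688) (l 16437120)))) (b (a (l 16504952) (l 16536304)) (l 16379624)))) (b (c (c (a (b (l 16255888) (l 16108656)) (b (l 16271480) (l 16100704))) (b (l 16102632) (l 16107344))) (b (l 16266856) (l 16100032))) (c (c (a (l 15863584) (l 15872336)) (l 15728744)) (l 15862704)))) (b (b (l 1) (b (a (a (c (c (l 16463464) (l 365642015207)) (l 16554256)) (l 1)) (l 1)) (c (c (b (a (l 16436088) (l 16529392)) (a (l 16437000) (l 16490888))) (a (l 16462616) (l 16500344))) (a (c (l 16429560) (l 16472832)) (c (l 16500920) (l 428992643287)))))) (b (c (a (b (l 16308688) (l 16073520)) (b (l 16356496) (l 16152496))) (a (b (l 16313752) (l 16113896)) (b (c (l 16353896)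 (l 16334624)) (l 16018248)))) (c (b (a (l 15957888) (l 15969640)) (l 15782944)) (a (l 15605512) (c (l 15861640) (b (l 15952160) (l 15759312)))))))), by decide +kernel⟩

def k5_pp_012 : ∃ t, chk3 f_pp_012 t 7 5 1 = true :=
  ⟨(a (b (b (b (a (l 15891912) (a (l 15718160) (l 15668112))) (a (l 15858560) (a (l 15649848) (a (l 15554336) (l 15513968))))) (a (l 16098504) (l 15624000))) (b (a (l 16395424) (l 16202480)) (a (l 16601648) (l 16385800)))) (b (a (b (a (b (l 15635000) (l 15477424)) (c (b (l 15615136) (l 15457320)) (l 15503368))) (a (l 15457600) (c (a (l 15588280) (l 15565480)) (l 15547384)))) (b (a (c (b (l 15502440) (c (l 15452192) (l 15441160))) (l 15499392)) (c (b (l 15602760) (b (l 15468344) (l 15425960))) (b (l 15538584) (a (l 15416440) (l 15417544))))) (a (c (l 15496920) (l 15532184)) (c (l 15567672) (l 15499712))))) (a (b (a (l 16020120) (c (l 15907168) (l 15884696))) (c (l 16156432) (l 16156008))) (b (a (c (c (l 15661992) (l 15822016)) (l 15805464)) (c (b (l 15726592) (l 15847632))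 (a (l 15767032) (l 15763776)))) (c (a (l 16024736) (l 15939912)) (a (l 16009176) (l 15922256))))))), by decide +kernel⟩

def k6_pp_012 : ∃ t, chk3 f_pp_012 t 7 3 1 = true :=
  ⟨(a (b (a (l 16607224) (l 16396624)) (a (l 16616424) (l 16415792))) (a (a (b (l 16239952) (l 16272296)) (b (c (l 16149904) (l 16134120)) (l 16185504))) (b (a (c (b (l 16045952) (l 16073608)) (l 16045520)) (c (b (l 15964760) (l 15991984)) (b (l 15945352) (l 15971800)))) (l 16069816)))), by decide +kernel⟩

theorem s7_pp_012 : ∃ t, chk3 f_pp_012 t 15 4 1 = true := ex3_a k3_pp_012 k4_pp_012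

theorem s8_pp_012 : ∃ t, chk3 f_pp_012 t 7 4 1 = true := ex3_a k2_pp_012 s7_pp_012

theorem s9_pp_012 : ∃ t, chk3 f_pp_012 t 7 2 1 = true := ex3_b s8_pp_012 k5_pp_012

theorem s10_pp_012 : ∃ t, chk3 f_pp_012 t 7 1 1 = true := ex3_b s9_pp_012 k6_pp_012

theorem s11_pp_012 : ∃ t, chk3 f_pp_012 t 3 1 1 = true := ex3_a k1_pp_012 s10_pp_012

theorem s12_pp_012 : ∃ t, chk3 f_pp_012 t 1 1 1 = true := ex3_a k0_pp_012 s11_pp_012

theorem c_pp_012 : CertFX 67108864 469762048 1073741824 536870912 1046898278 26843546 false true true .pnp 0 1 2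
    ndF2q0 ndF3q2 pcF1 Cut.none Ext.none :=
  certFX2 (fam := false) (s1 := true) (s2 := true) (a := 0) (b := 1) (c := 2) (cn := .pnp) (n1 := ndF2q0) (n2 := ndF3q2) (pc := pcF1) (cut := Cut.none) (xt := Ext.none) (P1 := 67108864) (W1 := 469762048) (P2 := 1073741824) (W2 := 536870912) (P3 := 1046898278) (W3 := 26843546)
    rfl (fun _ => rfl) s12_pp_012

noncomputable def f_pp_022 : ℕ → ℕ → ℕ → ℕ → Bool := onCell 67108864 469762048 1073741824 536870912 1046898278 26843546
    (rowFX 1 false true true .pp 0 2 2 (qsf 67108864 469762048 1073741824 536870912 2) ndF2q0 ndF3q2 pcF2 Cut.none Ext.none)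

def k0_pp_022 : ∃ t, chk3 f_pp_022 t 8 8 1 = true :=
  ⟨(b (c (b (a (c (a (a (c (b (l 16649320) (b (l 16646048) (l 16633472))) (l 16643312)) (l 16463624)) (b (l 16469864) (l 16377216))) (a (b (l 16614096) (l 16584896)) (b (l 16465880) (l 16424960)))) (a (c (b (l 16316568) (l 16216320)) (b (l 16310416) (l 16241792))) (b (l 16129368) (b (l 16113576) (l 16066792))))) (a (a (c (a (c (b (l 16598904) (l 16544824)) (l 16559672)) (l 16393184)) (b (l 16529648) (l 16461040))) (c (b (l 16374424) (l 16286072)) (l 16259656))) (c (a (l 16035608) (l 15951192)) (l 15819048)))) (a (b (b (c (a (l 16607464) (l 16457776)) (a (b (l 16585944) (l 16564304)) (l 16381016))) (a (c (l 16541464) (l 16521648)) (c (l 16402544) (l 16382496)))) (a (c (l 16282112) (l 16376880)) (c (l 16194040) (l 16265968)))) (b (c (b (a (l 16300640) (l 16155960)) (l 16138144)) (b (a (b (l 16307528) (l 16269864)) (l 16140184)) (l 15991328))) (c (l 15836432) (l 15968232))))) (c (a (b (c (b (a (l 16244224) (l 16186840)) (l 16033888))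 (a (l 16214120) (l 16112072))) (c (a (l 15972168) (b (l 15989776) (l 15897808))) (a (l 16169496) (l 15929800)))) (b (a (c (l 15915600) (l 15889504)) (c (b (l 15810072) (l 15775320)) (b (l 15781360) (l 15751080)))) (a (c (b (l 15772200) (l 15780688)) (b (l 15774304) (l 15766696))) (c (l 15819240) (l 15803224))))) (a (b (a (b (l 16367192) (l 16286888)) (l 16094352)) (a (l 16096512) (l 15914584))) (b (a (l 15867752) (b (l 15756272) (l 15730128))) (a (b (l 15755592) (l 15748024)) (l 15785176)))))), by decide +kernel⟩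

def k1_pp_022 : ∃ t, chk3 f_pp_022 t 9 8 1 = true :=
  ⟨(a (b (c (b (b (c (l 15983136) (l 15972000)) (a (c (l 15960024) (l 15941664)) (b (l 15822256) (l 15826328)))) (a (b (c (l 15866856) (l 15841848)) (c (l 15816960) (l 15789024))) (b (l 15853576) (l 15884504)))) (b (b (c (l 15958392) (l 15731584)) (a (l 15910096) (l 15655424))) (a (b (l 15806768) (l 15758768)) (l 15830504)))) (c (b (c (l 15890336) (l 15869208)) (c (b (l 15934904) (l 15962104)) (l 15936496))) (b (l 15848704) (l 15921360)))) (b (c (c (b (b (l 15952016) (l 16007040)) (l 16046600)) (b (b (l 15961504) (l 15992192)) (l 16029400))) (b (b (c (l 15948392) (l 15765248)) (l 15967560)) (l 16007672))) (c (b (c (l 16078480) (l 16064312)) (c (a (l 16064392) (b (l 16111200) (l 16063216))) (a (l 16054264) (l 16070832)))) (b (l 16049504) (a (l 16041872) (l 16058896)))))), by decide +kernel⟩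

def k2_pp_022 : ∃ t, chk3 f_pp_022 t 5 8 1 = true :=
  ⟨(a (a (b (c (b (b (l 16209544) (l 16034992)) (b (l 16144472) (a (l 16186952) (l 16239832)))) (b (c (l 16203280) (l 16172608)) (c (l 16199504) (l 16191616)))) (b (c (c (a (l 16159056) (l 16117416)) (a (l 16149176) (l 16108768))) (l 16001392)) (c (c (b (l 16011336) (l 15907456)) (l 15949680)) (l 15935120)))) (b (a (b (c (b (l 16381280) (c (l 16355472) (l 16349864))) (b (l 16370320) (l 16341184))) (c (b (l 16283848) (l 16180784)) (l 16215760))) (b (b (c (l 16307272) (l 16297952)) (l 16306248)) (l 16135464))) (b (b (c (l 15921720) (l 16007328)) (l 15910000)) (l 15756232)))) (b (l 16203288) (l 15793912))), by decide +kernel⟩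

def k3_pp_022 : ∃ t, chk3 f_pp_022 t 2 9 1 = true :=
  ⟨(a (a (b (a (c (b (a (b (l 16030664) (l 15883184)) (b (c (l 15838584) (l 15827224)) (l 15817616))) (a (b (c (l 15876304) (l 15866376)) (l 15871456)) (l 15864168))) (b (a (l 15857616) (b (l 15810152) (l 15794840))) (a (b (l 15850696) (l 15851720)) (l 15843232)))) (c (b (c (l 15856528) (l 15845440)) (c (l 15902208) (l 15892176))) (b (l 15828808) (l 15877120)))) (a (c (b (c (l 15901376) (l 15915248)) (c (l 15947472) (l 15941056))) (b (l 15901248) (l 15928224))) (c (b (a (l 15828216) (b (l 15935568) (l 15924376))) (a (c (l 15907736) (l 15898584)) (l 15698752))) (b (b (l 15903528) (l 15901280)) (a (l 15884864) (l 15804144)))))) (b (a (c (b (c (l 15983624) (l 15974528)) (a (l 15941680) (b (l 15980976) (l 15913024)))) (b (l 15960880) (a (l 15944808) (l 15922056)))) (b (c (a (b (l 16046208) (l 15985416)) (l 15917320)) (l 15874728)) (c (c (l 15772512) (l 15760976)) (l 15742816)))) (a (c (b (b (a (l 15926672) (l 15813896)) (l 15777144))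 (l 15616808)) (b (l 15628824) (l 15590472))) (c (b (a (l 15623176) (l 15469312)) (a (l 15402504) (l 15298776))) (b (l 15526160) (l 15320104)))))) (a (a (b (c (b (c (l 15755144) (l 15742592)) (a (l 15591008) (l 15506560))) (b (l 15724280) (l 15522296))) (l 15254208)) (b (l 15470984) (l 15120568))) (l 15263800))), by decide +kernel⟩

def k4_pp_022 : ∃ t, chk3 f_pp_022 t 2 5 1 = true :=
  ⟨(b (a (b (a (b (a (c (a (l 15968544) (c (l 15922208) (l 15913704))) (a (l 15953720) (l 15900928))) (c (a (c (l 15794216) (l 15783784)) (l 15628080)) (l 15537240))) (c (a (b (a (l 15855632) (l 15910496)) (a (b (l 16097040) (l 16247216)) (l 16067944))) (b (c (l 15693792) (l 15682008)) (c (l 15832008) (l 15822176)))) (a (b (a (l 16053912) (l 15936920)) (a (l 16213360) (l 16055872))) (b (l 15664320) (l 15807424))))) (b (a (c (c (l 15410448) (l 15394440)) (l 15370992)) (a (c (l 15204464) (l 15166504)) (l 15101256))) (b (a (c (a (l 15468008) (l 15328248)) (l 15363280)) (c (l 15039832) (l 15168872))) (a (c (a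 (l 15632152) (l 15515376)) (l 15544488)) (l 15393176))))) (a (c (a (b (a (l 16271592) (l 16268808)) (c (l 16153328) (l 16251792))) (b (l 15902360) (l 16287552))) (a (b (l 16242856) (l 16204600)) (b (l 16036464) (l 16389360)))) (a (b (c (l 15621528) (l 15832392)) (c (l 16135992) (l 16210448))) (l 15898488)))) (b (a (b (l 14941920) (l 15105640)) (l 14768888)) (a (l 15725040) (l 15658472)))) (a (b (a (a (c (b (l 15886984) (l 15731912)) (l 15587088)) (c (b (l 16188056) (l 16034040)) (b (l 16285304) (l 16016384)))) (a (b (a (l 16388440) (l 16509904)) (l 16223280)) (l 16521784))) (a (c (b (a (l 15583448) (l 15888688)) (l 15687936)) (a (l 15550272) (l 15865192))) (l 16192112))) (b (a (l 16477104) (l 16408048)) (l 16468576)))), by decide +kernel⟩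

def k5_pp_022 : ∃ t, chk3 f_pp_022 t 3 2 1 = true :=
  ⟨(b (b (a (b (l 16130192) (l 15770416)) (l 15880496)) (a (l 15297832) (l 15341696))) (b (b (b (l 14959976) (l 15124088)) (l 15590224)) (b (l 16428760) (l 16776736)))), by decide +kernel⟩

def k6_pp_022 : ∃ t, chk3 f_pp_022 t 1 3 1 = true :=
  ⟨(a (b (a (a (a (b (c (b (l 15582624) (l 15582624)) (l 15549848)) (l 15568688)) (b (l 15876416) (l 15876416))) (l 16191784)) (a (l 16616872) (l 16777216))) (a (a (a (l 15568688) (l 15876416)) (l 16191784)) (l 2))) (l 2)), by decide +kernel⟩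

theorem s7_pp_022 : ∃ t, chk3 f_pp_022 t 4 8 1 = true := ex3_a k0_pp_022 k1_pp_022

theorem s8_pp_022 : ∃ t, chk3 f_pp_022 t 2 8 1 = true := ex3_a s7_pp_022 k2_pp_022

theorem s9_pp_022 : ∃ t, chk3 f_pp_022 t 2 4 1 = true := ex3_b s8_pp_022 k3_pp_022

theorem s10_pp_022 : ∃ t, chk3 f_pp_022 t 2 2 1 = true := ex3_b s9_pp_022 k4_pp_022

theorem s11_pp_022 : ∃ t, chk3 f_pp_022 t 1 2 1 = true := ex3_a s10_pp_022 k5_pp_022

theorem s12_pp_022 : ∃ t, chk3 f_pp_022 t 1 1 1 = true := ex3_b s11_pp_022 k6_pp_022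

theorem c_pp_022 : CertFX 67108864 469762048 1073741824 536870912 1046898278 26843546 false true true .pp 0 2 2
    ndF2q0 ndF3q2 pcF2 Cut.none Ext.none :=
  certFX1 (fam := false) (s1 := true) (s2 := true) (a := 0) (b := 2) (c := 2) (cn := .pp) (n1 := ndF2q0) (n2 := ndF3q2) (pc := pcF2) (cut := Cut.none) (xt := Ext.none) (P1 := 67108864) (W1 := 469762048) (P2 := 1073741824) (W2 := 536870912) (P3 := 1046898278) (W3 := 26843546)
    rfl (fun _ => rfl) s12_pp_022

noncomputable def f_pp_023 : ℕ → ℕ → ℕ → ℕ → Bool := onCell 67108864 469762048 1073741824 536870912 1046898278 26843546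
    (rowFX 1 false true true .up 0 2 3 (qsf 67108864 469762048 1610612736 536870912 2) ndF2q0 ndF3q3 pcF2 Cut.none Ext.none)

def k0_pp_023 : ∃ t, chk3 f_pp_023 t 1 1 1 = true :=
  ⟨(b (b (a (l 1) (b (a (l 1) (l 15880496)) (a (l 15297832) (l 15341696)))) (a (b (l 1) (a (l 1) (b (l 1032972011847) (l 575021641959)))) (b (b (b (l 14959976) (l 15124088)) (l 15506336)) (b (l 16407792) (l 16776736))))) (a (b (a (a (l 1) (l 16191784)) (a (l 16616872) (l 16777216))) (a (a (a (l 15568688) (l 15876416)) (l 16191784)) (a (l 16616872) (l 16777216)))) (b (b (l 16770296) (l 16776400)) (b (a (l 16777208) (l 16746528)) (a (l 16777184) (l 16726920)))))), by decide +kernel⟩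

theorem c_pp_023 : CertFX 67108864 469762048 1610612736 536870912 1046898278 26843546 false true true .up 0 2 3
    ndF2q0 ndF3q3 pcF2 Cut.none Ext.none :=
  certFX1 (fam := false) (s1 := true) (s2 := true) (a := 0) (b := 2) (c := 3) (cn := .up) (n1 := ndF2q0) (n2 := ndF3q3) (pc := pcF2) (cut := Cut.none) (xt := Ext.none) (P1 := 67108864) (W1 := 469762048) (P2 := 1610612736) (W2 := 536870912) (P3 := 1046898278) (W3 := 26843546)
    rfl (fun _ => rfl) k0_pp_023

noncomputable def f_pp_033 : ℕ → ℕ → ℕ → ℕ → Bool := onCell 67108864 469762048 1610612736 536870912 1046898278 26843546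
    (rowFX 1 false true true .pnn 0 3 3 (qsf 67108864 469762048 1610612736 536870912 3) ndF2q0 ndF3q3 pcF3 Cut.none Ext.none)

def k0_pp_033 : ∃ t, chk3 f_pp_033 t 1 1 1 = true :=
  ⟨(b (a (b (a (b (a (l 15714208) (l 16191784)) (a (c (l 15729880) (l 15696776)) (l 16191784))) (b (a (l 16616872) (l 16777192)) (a (l 16616832) (l 16774280)))) (a (a (b (c (l 15729872) (l 15696768)) (c (b (l 15729856) (l 15729832)) (b (l 15696744) (l 15696720)))) (b (b (l 16191768) (l 16191736)) (b (l 15982024) (l 4)))) (b (b (a (l 16616824) (l 16755616)) (a (l 16588336) (l 4))) (a (l 4) (l 4))))) (b (a (b (a (l 16777184) (l 16744168)) (c (l 16887728) (b (l 16731200) (l 16725560)))) (b (c (l 16692496) (l 16690528)) (b (l 4) (l 4)))) (a (b (b (l 4) (l 4)) (l 4)) (l 2)))) (a (b (a (b (a (b (c (l 15729848) (l 15654792)) (l 4)) (l 4)) (l 4)) (b (l 4) (b (l 4) (l 2)))) (a (b (l 4) (a (l 4) (l 2))) (l 2))) (l 2))), by decide +kernel⟩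

theorem c_pp_033 : CertFX 67108864 469762048 1610612736 536870912 1046898278 26843546 false true true .pnn 0 3 3
    ndF2q0 ndF3q3 pcF3 Cut.none Ext.none :=
  certFX1 (fam := false) (s1 := true) (s2 := true) (a := 0) (b := 3) (c := 3) (cn := .pnn) (n1 := ndF2q0) (n2 := ndF3q3) (pc := pcF3) (cut := Cut.none) (xt := Ext.none) (P1 := 67108864) (W1 := 469762048) (P2 := 1610612736) (W2 := 536870912) (P3 := 1046898278) (W3 := 26843546)
    rfl (fun _ => rfl) k0_pp_033

noncomputable def f_pp_101 : ℕ → ℕ → ℕ → ℕ → Bool := onCell 536870912 536870912 536870912 536870912 1046898278 26843546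
    (rowFX 0 false true true .npn 1 0 1 (qsf 536870912 536870912 536870912 536870912 0) ndF2q1 ndF3q1 pcF0 Cut.none Ext.none)

def k0_pp_101 : ∃ t, chk3 f_pp_101 t 1 1 1 = true :=
  ⟨(l 3), by decide +kernel⟩

theorem c_pp_101 : CertFX 536870912 536870912 536870912 536870912 1046898278 26843546 false true true .npn 1 0 1
    ndF2q1 ndF3q1 pcF0 Cut.none Ext.none :=
  certFX0 (fam := false) (s1 := true) (s2 := true) (a := 1) (b := 0) (c := 1) (cn := .npn) (n1 := ndF2q1) (n2 := ndF3q1) (pc := pcF0) (cut := Cut.none) (xt := Ext.none) (P1 := 536870912) (W1 := 536870912) (P2 := 536870912) (W2 := 536870912) (P3 := 1046898278) (W3 := 26843546)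
    rfl k0_pp_101

noncomputable def f_pp_102 : ℕ → ℕ → ℕ → ℕ → Bool := onCell 536870912 536870912 0 536870912 1046898278 26843546
    (rowFX 1 false true true .npp 1 0 2 (qsf 536870912 536870912 1073741824 536870912 0) ndF2q1 ndF3q2 pcF0 Cut.none Ext.none)

def k0_pp_102 : ∃ t, chk3 f_pp_102 t 1 1 1 = true :=
  ⟨(l 3), by decide +kernel⟩

theorem c_pp_102 : CertFX 536870912 536870912 1073741824 536870912 1046898278 26843546 false true true .npp 1 0 2
    ndF2q1 ndF3q2 pcF0 Cut.none Ext.none :=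
  certFX1 (fam := false) (s1 := true) (s2 := true) (a := 1) (b := 0) (c := 2) (cn := .npp) (n1 := ndF2q1) (n2 := ndF3q2) (pc := pcF0) (cut := Cut.none) (xt := Ext.none) (P1 := 536870912) (W1 := 536870912) (P2 := 1073741824) (W2 := 536870912) (P3 := 1046898278) (W3 := 26843546)
    rfl (fun _ => rfl) k0_pp_102

noncomputable def f_pp_112 : ℕ → ℕ → ℕ → ℕ → Bool := onCell 536870912 536870912 1073741824 536870912 1046898278 26843546
    (rowFX 2 false true true .dn 1 1 2 (qsf 536870912 536870912 1073741824 536870912 1) ndF2q1 ndF3q2 pcF1 Cut.none Ext.none)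

def k0_pp_112 : ∃ t, chk3 f_pp_112 t 1 1 1 = true :=
  ⟨(a (b (l 3) (a (l 3) (b (l 3) (a (l 3) (l 16776288))))) (a (b (a (a (l 3) (l 1)) (l 1)) (b (a (c (l 16776800) (l 16776792)) (a (l 16770512) (l 342020461287))) (a (l 16776000) (a (l 16763456) (l 16768624))))) (b (l 1) (b (a (a (l 16565280) (l 1)) (l 1)) (a (a (l 16616424) (l 16415792)) (a (b (l 466572754343) (l 16242000)) (l 16069816))))))), by decide +kernel⟩

theorem c_pp_112 : CertFX 536870912 536870912 1073741824 536870912 1046898278 26843546 false true true .dn 1 1 2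
    ndF2q1 ndF3q2 pcF1 Cut.none Ext.none :=
  certFX2 (fam := false) (s1 := true) (s2 := true) (a := 1) (b := 1) (c := 2) (cn := .dn) (n1 := ndF2q1) (n2 := ndF3q2) (pc := pcF1) (cut := Cut.none) (xt := Ext.none) (P1 := 536870912) (W1 := 536870912) (P2 := 1073741824) (W2 := 536870912) (P3 := 1046898278) (W3 := 26843546)
    rfl (fun _ => rfl) k0_pp_112

end Pool.Agent.Strip051.G.IE1.Tab.C.FB23

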