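import Pool.Agent.Strip051.G.IE1.Tab

/-! # Certificates F44 (generated) -/

set_option linter.all false
set_option maxRecDepth 100000

namespace Pool.Agent.Strip051.G.IE1.Tab.C.FB23

open Pool.Agent.Strip051.PB Pool.Agent.Strip051.PB.T
open Pool.Agent.Strip051.G.IE1.Tab

noncomputable def f_pp_113 : ℕ → ℕ → ℕ → ℕ → Bool := onCell 536870912 536870912 536870912 536870912 1046898278 26843546
    (rowFX 1 false true true .nn 1 1 3 (qsf 536870912 536870912 1610612736 536870912 1) ndF2q1 ndF3q3 pcF1 Cut.none Ext.none)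

def k0_pp_113 : ∃ t, chk3 f_pp_113 t 1 1 1 = true :=
  ⟨(b (b (l 3) (a (b (l 1) (a (l 1) (l 16777216))) (a (b (l 3) (c (l 16765408) (l 16765096))) (b (l 3) (a (l 180019095111) (b (a (l 16517464) (l 16412792)) (l 16465584))))))) (b (a (b (a (l 1) (l 16775656)) (b (l 113313243591) (a (l 16769496) (l 16761640)))) (a (b (b (l 16765256) (l 16768528)) (b (l 16760096) (b (l 16746256) (l 16764816)))) (a (b (l 16546896) (b (l 16682272) (l 16681208))) (b (b (l 16465592) (l 16473512)) (l 16484656))))) (a (b (b (a (l 16618096) (l 16627064)) (a (l 16423608) (l 16454032))) (a (l 16190856) (l 16246168))) (a (b (l 16572104) (l 16316704)) (b (a (l 16484072) (l 16317720)) (a (l 16265552) (b (l 16214112) (l 16211112)))))))), by decide +kernel⟩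

theorem c_pp_113 : CertFX 536870912 536870912 1610612736 536870912 1046898278 26843546 false true true .nn 1 1 3
    ndF2q1 ndF3q3 pcF1 Cut.none Ext.none :=
  certFX1 (fam := false) (s1 := true) (s2 := true) (a := 1) (b := 1) (c := 3) (cn := .nn) (n1 := ndF2q1) (n2 := ndF3q3) (pc := pcF1) (cut := Cut.none) (xt := Ext.none) (P1 := 536870912) (W1 := 536870912) (P2 := 1610612736) (W2 := 536870912) (P3 := 1046898278) (W3 := 26843546)
    rfl (fun _ => rfl) k0_pp_113

noncomputable def f_pp_123 : ℕ → ℕ → ℕ → ℕ → Bool := onCell 1073741824 536870912 1610612736 536870912 1046898278 26843546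
    (rowFX 2 false true true .npn 1 2 3 (qsf 536870912 536870912 1610612736 536870912 2) ndF2q1 ndF3q3 pcF2 Cut.none Ext.none)

def k0_pp_123 : ∃ t, chk3 f_pp_123 t 1 1 1 = true :=
  ⟨(a (a (b (a (b (l 15834968) (l 15763128)) (b (l 15349328) (l 15400304))) (b (a (l 15690392) (l 15456200)) (a (b (l 15643352) (b (l 15634368) (l 15676592))) (b (l 15501560) (a (l 15585896) (l 15336568)))))) (b (a (a (a (l 15024096) (l 15175840)) (l 373156262727)) (a (l 16244304) (l 16776736))) (a (b (a (l 15224688) (l 15821864)) (a (a (l 15219560) (l 15361680)) (l 15821728))) (b (a (l 16449024) (l 16754224)) (a (l 16331152) (l 16559016)))))) (a (b (l 439193960407) (b (a (l 16757120) (l 16776128)) (a (l 16631664) (l 16728504)))) (b (l 1) (b (l 16777168) (a (l 16732512) (l 16732512)))))), by decide +kernel⟩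

theorem c_pp_123 : CertFX 536870912 536870912 1610612736 536870912 1046898278 26843546 false true true .npn 1 2 3
    ndF2q1 ndF3q3 pcF2 Cut.none Ext.none :=
  certFX2 (fam := false) (s1 := true) (s2 := true) (a := 1) (b := 2) (c := 3) (cn := .npn) (n1 := ndF2q1) (n2 := ndF3q3) (pc := pcF2) (cut := Cut.none) (xt := Ext.none) (P1 := 536870912) (W1 := 536870912) (P2 := 1610612736) (W2 := 536870912) (P3 := 1046898278) (W3 := 26843546)
    rfl (fun _ => rfl) k0_pp_123

noncomputable def f_pp_133 : ℕ → ℕ → ℕ → ℕ → Bool := onCell 1610612736 536870912 1610612736 536870912 1046898278 26843546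
    (rowFX 2 false true true .dn 1 3 3 (qsf 536870912 536870912 1610612736 536870912 3) ndF2q1 ndF3q3 pcF3 Cut.none Ext.none)

def k0_pp_133 : ∃ t, chk3 f_pp_133 t 1 1 1 = true :=
  ⟨(a (b (l 1) (a (b (l 1) (c (l 640520783031) (l 656090035431))) (l 1))) (l 1)), by decide +kernel⟩

theorem c_pp_133 : CertFX 536870912 536870912 1610612736 536870912 1046898278 26843546 false true true .dn 1 3 3
    ndF2q1 ndF3q3 pcF3 Cut.none Ext.none :=
  certFX2 (fam := false) (s1 := true) (s2 := true) (a := 1) (b := 3) (c := 3) (cn := .dn) (n1 := ndF2q1) (n2 := ndF3q3) (pc := pcF3) (cut := Cut.none) (xt := Ext.none) (P1 := 536870912) (W1 := 536870912) (P2 := 1610612736) (W2 := 536870912) (P3 := 1046898278) (W3 := 26843546)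
    rfl (fun _ => rfl) k0_pp_133

noncomputable def f_pp_202_a : ℕ → ℕ → ℕ → ℕ → Bool := onCell 0 420477299 1073741824 536870912 1046898278 26843546
    (rowFX 0 false true true .pp 2 0 2 (qsf 0 420477299 1073741824 536870912 0) ndF2q2a ndF3q2 pcF0 Cut.none Ext.none)

def k0_pp_202_a : ∃ t, chk3 f_pp_202_a t 1 1 1 = true :=
  ⟨(l 3), by decide +kernel⟩

theorem c_pp_202_a : CertFX 0 420477299 1073741824 536870912 1046898278 26843546 false true true .pp 2 0 2
    ndF2q2a ndF3q2 pcF0 Cut.none Ext.none :=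
  certFX0 (fam := false) (s1 := true) (s2 := true) (a := 2) (b := 0) (c := 2) (cn := .pp) (n1 := ndF2q2a) (n2 := ndF3q2) (pc := pcF0) (cut := Cut.none) (xt := Ext.none) (P1 := 0) (W1 := 420477299) (P2 := 1073741824) (W2 := 536870912) (P3 := 1046898278) (W3 := 26843546)
    rfl k0_pp_202_a

noncomputable def f_pp_202_b : ℕ → ℕ → ℕ → ℕ → Bool := onCell 1239849684 370763052 1073741824 536870912 1046898278 26843546
    (rowFX 0 false true true .pp 2 0 2 (qsf 1239849684 370763052 1073741824 536870912 0) ndF2q2b ndF3q2 pcF0 Cut.none Ext.none)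

def k0_pp_202_b : ∃ t, chk3 f_pp_202_b t 1 1 1 = true :=
  ⟨(l 3), by decide +kernel⟩

theorem c_pp_202_b : CertFX 1239849684 370763052 1073741824 536870912 1046898278 26843546 false true true .pp 2 0 2
    ndF2q2b ndF3q2 pcF0 Cut.none Ext.none :=
  certFX0 (fam := false) (s1 := true) (s2 := true) (a := 2) (b := 0) (c := 2) (cn := .pp) (n1 := ndF2q2b) (n2 := ndF3q2) (pc := pcF0) (cut := Cut.none) (xt := Ext.none) (P1 := 1239849684) (W1 := 370763052) (P2 := 1073741824) (W2 := 536870912) (P3 := 1046898278) (W3 := 26843546)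
    rfl k0_pp_202_b

noncomputable def f_pp_203_a : ℕ → ℕ → ℕ → ℕ → Bool := onCell 0 420477299 1610612736 536870912 1046898278 26843546
    (rowFX 0 false true true .up 2 0 3 (qsf 0 420477299 1610612736 536870912 0) ndF2q2a ndF3q3 pcF0 Cut.none Ext.none)

def k0_pp_203_a : ∃ t, chk3 f_pp_203_a t 1 1 1 = true :=
  ⟨(l 3), by decide +kernel⟩

theorem c_pp_203_a : CertFX 0 420477299 1610612736 536870912 1046898278 26843546 false true true .up 2 0 3
    ndF2q2a ndF3q3 pcF0 Cut.none Ext.none :=
  certFX0 (fam := false) (s1 := true) (s2 := true) (a := 2) (b := 0) (c := 3) (cn := .up) (n1 := ndF2q2a) (n2 := ndF3q3) (pc := pcF0) (cut := Cut.none) (xt := Ext.none) (P1 := 0) (W1 := 420477299) (P2 := 1610612736) (W2 := 536870912) (P3 := 1046898278) (W3 := 26843546)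
    rfl k0_pp_203_a

noncomputable def f_pp_203_b : ℕ → ℕ → ℕ → ℕ → Bool := onCell 1239849684 370763052 1610612736 536870912 1046898278 26843546
    (rowFX 0 false true true .up 2 0 3 (qsf 1239849684 370763052 1610612736 536870912 0) ndF2q2b ndF3q3 pcF0 Cut.none Ext.none)

def k0_pp_203_b : ∃ t, chk3 f_pp_203_b t 1 1 1 = true :=
  ⟨(l 3), by decide +kernel⟩

theorem c_pp_203_b : CertFX 1239849684 370763052 1610612736 536870912 1046898278 26843546 false true true .up 2 0 3
    ndF2q2b ndF3q3 pcF0 Cut.none Ext.none :=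
  certFX0 (fam := false) (s1 := true) (s2 := true) (a := 2) (b := 0) (c := 3) (cn := .up) (n1 := ndF2q2b) (n2 := ndF3q3) (pc := pcF0) (cut := Cut.none) (xt := Ext.none) (P1 := 1239849684) (W1 := 370763052) (P2 := 1610612736) (W2 := 536870912) (P3 := 1046898278) (W3 := 26843546)
    rfl k0_pp_203_b

noncomputable def f_pp_213_a : ℕ → ℕ → ℕ → ℕ → Bool := onCell 0 420477299 1610612736 536870912 1046898278 26843546
    (rowFX 0 false true true .pnn 2 1 3 (qsf 0 420477299 1610612736 536870912 1) ndF2q2a ndF3q3 pcF1 Cut.none Ext.none)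

def k0_pp_213_a : ∃ t, chk3 f_pp_213_a t 1 1 1 = true :=
  ⟨(l 3), by decide +kernel⟩

theorem c_pp_213_a : CertFX 0 420477299 1610612736 536870912 1046898278 26843546 false true true .pnn 2 1 3
    ndF2q2a ndF3q3 pcF1 Cut.none Ext.none :=
  certFX0 (fam := false) (s1 := true) (s2 := true) (a := 2) (b := 1) (c := 3) (cn := .pnn) (n1 := ndF2q2a) (n2 := ndF3q3) (pc := pcF1) (cut := Cut.none) (xt := Ext.none) (P1 := 0) (W1 := 420477299) (P2 := 1610612736) (W2 := 536870912) (P3 := 1046898278) (W3 := 26843546)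
    rfl k0_pp_213_a

noncomputable def f_pp_213_b : ℕ → ℕ → ℕ → ℕ → Bool := onCell 1239849684 370763052 1610612736 536870912 1046898278 26843546
    (rowFX 0 false true true .pnn 2 1 3 (qsf 1239849684 370763052 1610612736 536870912 1) ndF2q2b ndF3q3 pcF1 Cut.none Ext.none)

def k0_pp_213_b : ∃ t, chk3 f_pp_213_b t 1 1 1 = true :=
  ⟨(l 3), by decide +kernel⟩

theorem c_pp_213_b : CertFX 1239849684 370763052 1610612736 536870912 1046898278 26843546 false true true .pnn 2 1 3
    ndF2q2b ndF3q3 pcF1 Cut.none Ext.none :=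
  certFX0 (fam := false) (s1 := true) (s2 := true) (a := 2) (b := 1) (c := 3) (cn := .pnn) (n1 := ndF2q2b) (n2 := ndF3q3) (pc := pcF1) (cut := Cut.none) (xt := Ext.none) (P1 := 1239849684) (W1 := 370763052) (P2 := 1610612736) (W2 := 536870912) (P3 := 1046898278) (W3 := 26843546)
    rfl k0_pp_213_b

noncomputable def f_pp_303 : ℕ → ℕ → ℕ → ℕ → Bool := onCell 1610612736 469762048 1610612736 536870912 1046898278 26843546
    (rowFX 0 false true true .npn 3 0 3 (qsf 1610612736 469762048 1610612736 536870912 0) ndF2q3 ndF3q3 pcF0 Cut.none Ext.none)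

def k0_pp_303 : ∃ t, chk3 f_pp_303 t 1 1 1 = true :=
  ⟨(l 3), by decide +kernel⟩

theorem c_pp_303 : CertFX 1610612736 469762048 1610612736 536870912 1046898278 26843546 false true true .npn 3 0 3
    ndF2q3 ndF3q3 pcF0 Cut.none Ext.none :=
  certFX0 (fam := false) (s1 := true) (s2 := true) (a := 3) (b := 0) (c := 3) (cn := .npn) (n1 := ndF2q3) (n2 := ndF3q3) (pc := pcF0) (cut := Cut.none) (xt := Ext.none) (P1 := 1610612736) (W1 := 469762048) (P2 := 1610612736) (W2 := 536870912) (P3 := 1046898278) (W3 := 26843546)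
    rfl k0_pp_303

noncomputable def f_pp_313 : ℕ → ℕ → ℕ → ℕ → Bool := onCell 1610612736 469762048 1610612736 536870912 1046898278 26843546
    (rowFX 0 false true true .dn 3 1 3 (qsf 1610612736 469762048 1610612736 536870912 1) ndF2q3 ndF3q3 pcF1 Cut.none Ext.none)

def k0_pp_313 : ∃ t, chk3 f_pp_313 t 1 1 1 = true :=
  ⟨(l 3), by decide +kernel⟩

theorem c_pp_313 : CertFX 1610612736 469762048 1610612736 536870912 1046898278 26843546 false true true .dn 3 1 3
    ndF2q3 ndF3q3 pcF1 Cut.none Ext.none :=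
  certFX0 (fam := false) (s1 := true) (s2 := true) (a := 3) (b := 1) (c := 3) (cn := .dn) (n1 := ndF2q3) (n2 := ndF3q3) (pc := pcF1) (cut := Cut.none) (xt := Ext.none) (P1 := 1610612736) (W1 := 469762048) (P2 := 1610612736) (W2 := 536870912) (P3 := 1046898278) (W3 := 26843546)
    rfl k0_pp_313

noncomputable def f_pm_001 : ℕ → ℕ → ℕ → ℕ → Bool := onCell 67108864 469762048 536870912 536870912 1046898278 26843546
    (rowFX 0 false true false .up 0 0 1 (qsf 67108864 469762048 536870912 536870912 0) ndF2q0 ndF3q1 pcF0 Cut.none Ext.none)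

def k0_pm_001 : ∃ t, chk3 f_pm_001 t 1 1 1 = true :=
  ⟨(l 4), by decide +kernel⟩

theorem c_pm_001 : CertFX 67108864 469762048 536870912 536870912 1046898278 26843546 false true false .up 0 0 1
    ndF2q0 ndF3q1 pcF0 Cut.none Ext.none :=
  certFX0 (fam := false) (s1 := true) (s2 := false) (a := 0) (b := 0) (c := 1) (cn := .up) (n1 := ndF2q0) (n2 := ndF3q1) (pc := pcF0) (cut := Cut.none) (xt := Ext.none) (P1 := 67108864) (W1 := 469762048) (P2 := 536870912) (W2 := 536870912) (P3 := 1046898278) (W3 := 26843546)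
    rfl k0_pm_001

noncomputable def f_pm_011 : ℕ → ℕ → ℕ → ℕ → Bool := onCell 67108864 469762048 536870912 536870912 1046898278 26843546
    (rowFX 0 false true false .pnn 0 1 1 (qsf 67108864 469762048 536870912 536870912 1) ndF2q0 ndF3q1 pcF1 Cut.none Ext.none)

def k0_pm_011 : ∃ t, chk3 f_pm_011 t 1 1 1 = true :=
  ⟨(l 4), by decide +kernel⟩

theorem c_pm_011 : CertFX 67108864 469762048 536870912 536870912 1046898278 26843546 false true false .pnn 0 1 1
    ndF2q0 ndF3q1 pcF1 Cut.none Ext.none :=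
  certFX0 (fam := false) (s1 := true) (s2 := false) (a := 0) (b := 1) (c := 1) (cn := .pnn) (n1 := ndF2q0) (n2 := ndF3q1) (pc := pcF1) (cut := Cut.none) (xt := Ext.none) (P1 := 67108864) (W1 := 469762048) (P2 := 536870912) (W2 := 536870912) (P3 := 1046898278) (W3 := 26843546)
    rfl k0_pm_011

noncomputable def f_pm_012 : ℕ → ℕ → ℕ → ℕ → Bool := onCell 67108864 469762048 1073741824 536870912 1046898278 26843546
    (rowFX 0 false true false .pnp 0 1 2 (qsf 67108864 469762048 1073741824 536870912 1) ndF2q0 ndF3q2 pcF1 Cut.none Ext.none)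

def k0_pm_012 : ∃ t, chk3 f_pm_012 t 1 1 1 = true :=
  ⟨(b (a (l 4) (l 4)) (l 4)), by decide +kernel⟩

theorem c_pm_012 : CertFX 67108864 469762048 1073741824 536870912 1046898278 26843546 false true false .pnp 0 1 2
    ndF2q0 ndF3q2 pcF1 Cut.none Ext.none :=
  certFX0 (fam := false) (s1 := true) (s2 := false) (a := 0) (b := 1) (c := 2) (cn := .pnp) (n1 := ndF2q0) (n2 := ndF3q2) (pc := pcF1) (cut := Cut.none) (xt := Ext.none) (P1 := 67108864) (W1 := 469762048) (P2 := 1073741824) (W2 := 536870912) (P3 := 1046898278) (W3 := 26843546)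
    rfl k0_pm_012

noncomputable def f_pm_022 : ℕ → ℕ → ℕ → ℕ → Bool := onCell 67108864 469762048 1073741824 536870912 1046898278 26843546
    (rowFX 1 false true false .pp 0 2 2 (qsf 67108864 469762048 1073741824 536870912 2) ndF2q0 ndF3q2 pcF2 Cut.none Ext.none)

def k0_pm_022 : ∃ t, chk3 f_pm_022 t 1 1 1 = true :=
  ⟨(b (l 4) (a (l 4) (l 2))), by decide +kernel⟩

theorem c_pm_022 : CertFX 67108864 469762048 1073741824 536870912 1046898278 26843546 false true false .pp 0 2 2
    ndF2q0 ndF3q2 pcF2 Cut.none Ext.none :=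
  certFX1 (fam := false) (s1 := true) (s2 := false) (a := 0) (b := 2) (c := 2) (cn := .pp) (n1 := ndF2q0) (n2 := ndF3q2) (pc := pcF2) (cut := Cut.none) (xt := Ext.none) (P1 := 67108864) (W1 := 469762048) (P2 := 1073741824) (W2 := 536870912) (P3 := 1046898278) (W3 := 26843546)
    rfl (fun _ => rfl) k0_pm_022

noncomputable def f_pm_023 : ℕ → ℕ → ℕ → ℕ → Bool := onCell 67108864 469762048 1610612736 536870912 1046898278 26843546
    (rowFX 0 false true false .up 0 2 3 (qsf 67108864 469762048 1610612736 536870912 2) ndF2q0 ndF3q3 pcF2 Cut.none Ext.none)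

def k0_pm_023 : ∃ t, chk3 f_pm_023 t 1 1 1 = true :=
  ⟨(b (l 4) (l 4)), by decide +kernel⟩

theorem c_pm_023 : CertFX 67108864 469762048 1610612736 536870912 1046898278 26843546 false true false .up 0 2 3
    ndF2q0 ndF3q3 pcF2 Cut.none Ext.none :=
  certFX0 (fam := false) (s1 := true) (s2 := false) (a := 0) (b := 2) (c := 3) (cn := .up) (n1 := ndF2q0) (n2 := ndF3q3) (pc := pcF2) (cut := Cut.none) (xt := Ext.none) (P1 := 67108864) (W1 := 469762048) (P2 := 1610612736) (W2 := 536870912) (P3 := 1046898278) (W3 := 26843546)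
    rfl k0_pm_023

noncomputable def f_pm_033 : ℕ → ℕ → ℕ → ℕ → Bool := onCell 67108864 469762048 1610612736 536870912 1046898278 26843546
    (rowFX 0 false true false .pnn 0 3 3 (qsf 67108864 469762048 1610612736 536870912 3) ndF2q0 ndF3q3 pcF3 Cut.none Ext.none)

def k0_pm_033 : ∃ t, chk3 f_pm_033 t 1 1 1 = true :=
  ⟨(b (l 4) (l 4)), by decide +kernel⟩

theorem c_pm_033 : CertFX 67108864 469762048 1610612736 536870912 1046898278 26843546 false true false .pnn 0 3 3
    ndF2q0 ndF3q3 pcF3 Cut.none Ext.none :=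
  certFX0 (fam := false) (s1 := true) (s2 := false) (a := 0) (b := 3) (c := 3) (cn := .pnn) (n1 := ndF2q0) (n2 := ndF3q3) (pc := pcF3) (cut := Cut.none) (xt := Ext.none) (P1 := 67108864) (W1 := 469762048) (P2 := 1610612736) (W2 := 536870912) (P3 := 1046898278) (W3 := 26843546)
    rfl k0_pm_033

noncomputable def f_pm_101 : ℕ → ℕ → ℕ → ℕ → Bool := onCell 536870912 536870912 536870912 536870912 1046898278 26843546
    (rowFX 0 false true false .npn 1 0 1 (qsf 536870912 536870912 536870912 536870912 0) ndF2q1 ndF3q1 pcF0 Cut.none Ext.none)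

def k0_pm_101 : ∃ t, chk3 f_pm_101 t 1 1 1 = true :=
  ⟨(l 4), by decide +kernel⟩

theorem c_pm_101 : CertFX 536870912 536870912 536870912 536870912 1046898278 26843546 false true false .npn 1 0 1
    ndF2q1 ndF3q1 pcF0 Cut.none Ext.none :=
  certFX0 (fam := false) (s1 := true) (s2 := false) (a := 1) (b := 0) (c := 1) (cn := .npn) (n1 := ndF2q1) (n2 := ndF3q1) (pc := pcF0) (cut := Cut.none) (xt := Ext.none) (P1 := 536870912) (W1 := 536870912) (P2 := 536870912) (W2 := 536870912) (P3 := 1046898278) (W3 := 26843546)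
    rfl k0_pm_101

noncomputable def f_pm_102 : ℕ → ℕ → ℕ → ℕ → Bool := onCell 0 536870912 1073741824 536870912 1046898278 26843546
    (rowFX 2 false true false .npp 1 0 2 (qsf 536870912 536870912 1073741824 536870912 0) ndF2q1 ndF3q2 pcF0 Cut.none Ext.none)

def k0_pm_102 : ∃ t, chk3 f_pm_102 t 2 2 1 = true :=
  ⟨(a (a (b (a (b (b (a (a (b (c (c (l 15816032) (l 15787280)) (c (a (l 15747936) (c (l 15766664) (l 117136120375))) (a (c (a (l 15718312) (l 123578402407)) (a (c (l 15705224) (a (l 15696488) (l 15699128))) (l 15706336))) (c (l 15731776) (l 15712640))))) (l 2)) (a (b (c (c (l 15819464) (l 15799280)) (c (l 15686368) (l 15730240))) (l 2)) (c (c (l 15857008) (l 15724000)) (c (l 15789960) (l 15749920))))) (c (c (a (b (l 15859848) (l 15915592)) (l 15904504)) (b (l 15797096) (l 15865560))) (c (b (l 15798104) (l 15810224)) (l 15772112)))) (b (a (l 2) (a (l 2) (c (l 15899360) (l 15825776)))) (l 2))) (l 2)) (b (c (b (a (c (l 15918464) (l 15873712)) (c (l 15936792) (l 15901952)))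 (a (c (l 15935992) (l 15894216)) (l 15936008))) (b (c (l 15835560) (l 15807240)) (a (l 15860776) (l 15889168)))) (a (l 2) (b (c (l 15817448) (l 15831320)) (l 2))))) (l 2)) (b (b (a (c (b (l 15956536) (l 15978112)) (b (l 15683912) (l 15937096))) (b (c (l 15928888) (l 15868216)) (l 16035984))) (a (c (b (l 15892168) (l 15581408)) (b (l 15868200) (l 538042611847))) (b (l 15948528) (l 15650480)))) (b (a (l 2) (b (l 430667971895) (l 2))) (l 2)))) (b (a (b (b (c (l 15879256) (a (l 15809096) (l 15794304))) (c (l 16073088) (l 16036312))) (b (l 15857928) (a (l 15830144) (l 15932872)))) (b (b (c (l 15893456) (l 15785544)) (c (l 16024384) (l 15980192))) (b (l 16065256) (l 15859416)))) (a (b (b (a (l 15546864) (l 15657368)) (l 444090316759)) (b (l 415636874231) (l 2))) (b (b (a (l 15774544) (l 15906240)) (l 15935992)) (b (l 16213616) (l 16323616)))))), by decide +kernel⟩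

def k1_pm_102 : ∃ t, chk3 f_pm_102 t 3 2 1 = true :=
  ⟨(b (a (b (c (b (l 15903376) (l 16037440)) (b (l 15838904) (l 15995648))) (a (b (l 16053072) (l 15959616)) (l 15999072))) (a (b (a (l 1538367836743) (l 4)) (l 16000440)) (l 4))) (a (b (b (a (l 15834872) (l 15821112)) (a (l 16161832) (l 16093864))) (a (b (l 16439528) (l 16517416)) (l 16428080))) (b (a (l 15969144) (l 15907616)) (a (l 16656472) (l 16666408))))), by decide +kernel⟩

def k2_pm_102 : ∃ t, chk3 f_pm_102 t 1 3 1 = true :=
  ⟨(a (a (l 2) (a (l 2) (b (b (a (l 2) (l 16200768)) (l 2)) (l 2)))) (a (b (a (b (l 16360984) (l 16152096)) (b (l 16569048) (l 16360984))) (a (l 2) (b (l 16152096) (l 2)))) (b (a (l 16490936) (l 16751088)) (a (b (l 16360984) (l 16152096)) (l 16467440))))), by decide +kernel⟩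

theorem s3_pm_102 : ∃ t, chk3 f_pm_102 t 1 2 1 = true := ex3_a k0_pm_102 k1_pm_102

theorem s4_pm_102 : ∃ t, chk3 f_pm_102 t 1 1 1 = true := ex3_b s3_pm_102 k2_pm_102

theorem c_pm_102 : CertFX 536870912 536870912 1073741824 536870912 1046898278 26843546 false true false .npp 1 0 2
    ndF2q1 ndF3q2 pcF0 Cut.none Ext.none :=
  certFX2 (fam := false) (s1 := true) (s2 := false) (a := 1) (b := 0) (c := 2) (cn := .npp) (n1 := ndF2q1) (n2 := ndF3q2) (pc := pcF0) (cut := Cut.none) (xt := Ext.none) (P1 := 536870912) (W1 := 536870912) (P2 := 1073741824) (W2 := 536870912) (P3 := 1046898278) (W3 := 26843546)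
    rfl (fun _ => rfl) s4_pm_102

noncomputable def f_pm_112 : ℕ → ℕ → ℕ → ℕ → Bool := onCell 536870912 536870912 1073741824 536870912 1046898278 26843546
    (rowFX 2 false true false .dn 1 1 2 (qsf 536870912 536870912 1073741824 536870912 1) ndF2q1 ndF3q2 pcF1 Cut.none Ext.none)

def k0_pm_112 : ∃ t, chk3 f_pm_112 t 1 1 1 = true :=
  ⟨(a (b (a (b (l 4) (b (l 4) (a (l 16667800) (l 4)))) (l 4)) (a (b (c (l 16768912) (l 16768696)) (a (l 16648216) (l 16751088))) (a (a (l 260617693831) (l 193508694391)) (b (l 4) (a (l 16567104) (l 16457824)))))) (a (b (l 4) (a (a (b (l 4) (l 144651780759)) (l 4)) (l 4))) (b (l 1) (l 4)))), by decide +kernel⟩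

theorem c_pm_112 : CertFX 536870912 536870912 1073741824 536870912 1046898278 26843546 false true false .dn 1 1 2
    ndF2q1 ndF3q2 pcF1 Cut.none Ext.none :=
  certFX2 (fam := false) (s1 := true) (s2 := false) (a := 1) (b := 1) (c := 2) (cn := .dn) (n1 := ndF2q1) (n2 := ndF3q2) (pc := pcF1) (cut := Cut.none) (xt := Ext.none) (P1 := 536870912) (W1 := 536870912) (P2 := 1073741824) (W2 := 536870912) (P3 := 1046898278) (W3 := 26843546)
    rfl (fun _ => rfl) k0_pm_112

noncomputable def f_pm_113 : ℕ → ℕ → ℕ → ℕ → Bool := onCell 536870912 536870912 536870912 536870912 1046898278 26843546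
    (rowFX 1 false true false .nn 1 1 3 (qsf 536870912 536870912 1610612736 536870912 1) ndF2q1 ndF3q3 pcF1 Cut.none Ext.none)

def k0_pm_113 : ∃ t, chk3 f_pm_113 t 1 1 1 = true :=
  ⟨(b (b (a (l 1) (a (l 595423296551) (a (l 16668408) (l 16465584)))) (a (b (l 1) (a (l 1) (l 462278377495))) (a (b (l 16876456) (b (l 16682936) (a (l 16537160) (l 16634424)))) (a (l 16668408) (l 16465584))))) (a (a (l 4) (a (b (l 4) (b (l 4) (l 4))) (b (b (b (l 15979336) (l 16078664)) (b (l 15670368) (b (l 15349008) (a (l 14968632) (l 15322856))))) (b (b (b (l 15321424) (c (l 15161640) (l 15119768))) (a (c (l 14565744) (l 14597160)) (a (c (c (l 14822512) (l 14711584)) (l 14784736)) (c (l 15240456) (l 15138504))))) (c (b (b (c (a (l 14453600) (l 14797352)) (l 14551088)) (c (l 14447064) (l 14499304))) (b (l 13991168) (l 13939600))) (b (b (a (l 14443912) (l 14771272)) (a (l 14267152) (l 14514200))) (b (b (l 14018016) (l 13887048)) (b (l 13892728) (l 13858032))))))))) (b (b (a (a (b (a (l 16366488) (l 16693848))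 (a (l 16250424) (l 16505504))) (b (l 16758848) (l 16743512))) (b (l 16569016) (l 16561864))) (a (b (a (a (l 15872064) (l 16474912)) (a (b (l 16722832) (a (l 16728856) (l 16737824))) (l 16741944))) (a (a (a (l 15558952) (l 15849136)) (b (b (l 16464328) (l 16519608)) (a (l 16300408) (l 16397592)))) (b (l 16701056) (l 16485712)))) (b (l 16580056) (l 16476696)))) (a (b (a (b (b (a (l 15924928) (a (l 16042616) (l 16117688))) (b (l 15779888) (l 15631200))) (a (c (l 15288384) (l 15255944)) (l 15421400))) (l 15848984)) (a (b (l 14867440) (l 14414800)) (b (l 15204272) (l 14851248)))) (b (a (l 15957440) (l 16066544)) (a (b (l 15493352) (l 15251328)) (b (l 15885480) (l 15884448)))))))), by decide +kernel⟩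

theorem c_pm_113 : CertFX 536870912 536870912 1610612736 536870912 1046898278 26843546 false true false .nn 1 1 3
    ndF2q1 ndF3q3 pcF1 Cut.none Ext.none :=
  certFX1 (fam := false) (s1 := true) (s2 := false) (a := 1) (b := 1) (c := 3) (cn := .nn) (n1 := ndF2q1) (n2 := ndF3q3) (pc := pcF1) (cut := Cut.none) (xt := Ext.none) (P1 := 536870912) (W1 := 536870912) (P2 := 1610612736) (W2 := 536870912) (P3 := 1046898278) (W3 := 26843546)
    rfl (fun _ => rfl) k0_pm_113

noncomputable def f_pm_123 : ℕ → ℕ → ℕ → ℕ → Bool := onCell 1073741824 536870912 1610612736 536870912 1046898278 26843546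
    (rowFX 2 false true false .npn 1 2 3 (qsf 536870912 536870912 1610612736 536870912 2) ndF2q1 ndF3q3 pcF2 Cut.none Ext.none)

def k0_pm_123 : ∃ t, chk3 f_pm_123 t 1 1 1 = true :=
  ⟨(a (a (b (b (l 4) (b (l 4) (a (c (l 14085776) (l 14071928)) (a (l 14490768) (l 4))))) (b (a (b (l 14264528) (l 14532400)) (a (l 59285963543) (l 14878792))) (a (b (l 14830008) (b (l 15139136) (l 15512760))) (b (l 14974504) (a (l 15291064) (l 15163536)))))) (b (l 4) (a (b (a (l 15192744) (l 15548808)) (a (b (l 15193160) (l 15203216)) (l 15619184))) (b (a (l 15838736) (l 16098520)) (a (l 15993384) (l 16229528)))))) (b (l 4) (b (a (l 4) (l 4)) (a (a (b (l 16458352) (l 16500752)) (b (l 16740960) (l 16716208))) (a (l 106535465495) (l 16732512)))))), by decide +kernel⟩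

theorem c_pm_123 : CertFX 536870912 536870912 1610612736 536870912 1046898278 26843546 false true false .npn 1 2 3
    ndF2q1 ndF3q3 pcF2 Cut.none Ext.none :=
  certFX2 (fam := false) (s1 := true) (s2 := false) (a := 1) (b := 2) (c := 3) (cn := .npn) (n1 := ndF2q1) (n2 := ndF3q3) (pc := pcF2) (cut := Cut.none) (xt := Ext.none) (P1 := 536870912) (W1 := 536870912) (P2 := 1610612736) (W2 := 536870912) (P3 := 1046898278) (W3 := 26843546)
    rfl (fun _ => rfl) k0_pm_123

noncomputable def f_pm_133 : ℕ → ℕ → ℕ → ℕ → Bool := onCell 1610612736 536870912 1610612736 536870912 1046898278 26843546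
    (rowFX 2 false true false .dn 1 3 3 (qsf 536870912 536870912 1610612736 536870912 3) ndF2q1 ndF3q3 pcF3 Cut.none Ext.none)

def k0_pm_133 : ∃ t, chk3 f_pm_133 t 1 1 1 = true :=
  ⟨(a (b (l 1) (l 4)) (l 1)), by decide +kernel⟩

theorem c_pm_133 : CertFX 536870912 536870912 1610612736 536870912 1046898278 26843546 false true false .dn 1 3 3
    ndF2q1 ndF3q3 pcF3 Cut.none Ext.none :=
  certFX2 (fam := false) (s1 := true) (s2 := false) (a := 1) (b := 3) (c := 3) (cn := .dn) (n1 := ndF2q1) (n2 := ndF3q3) (pc := pcF3) (cut := Cut.none) (xt := Ext.none) (P1 := 536870912) (W1 := 536870912) (P2 := 1610612736) (W2 := 536870912) (P3 := 1046898278) (W3 := 26843546)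
    rfl (fun _ => rfl) k0_pm_133

noncomputable def f_pm_202_a : ℕ → ℕ → ℕ → ℕ → Bool := onCell 0 420477299 1073741824 536870912 1046898278 26843546
    (rowFX 0 false true false .pp 2 0 2 (qsf 0 420477299 1073741824 536870912 0) ndF2q2a ndF3q2 pcF0 Cut.none Ext.none)

def k0_pm_202_a : ∃ t, chk3 f_pm_202_a t 1 1 1 = true :=
  ⟨(b (l 3) (l 3)), by decide +kernel⟩

theorem c_pm_202_a : CertFX 0 420477299 1073741824 536870912 1046898278 26843546 false true false .pp 2 0 2
    ndF2q2a ndF3q2 pcF0 Cut.none Ext.none :=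
  certFX0 (fam := false) (s1 := true) (s2 := false) (a := 2) (b := 0) (c := 2) (cn := .pp) (n1 := ndF2q2a) (n2 := ndF3q2) (pc := pcF0) (cut := Cut.none) (xt := Ext.none) (P1 := 0) (W1 := 420477299) (P2 := 1073741824) (W2 := 536870912) (P3 := 1046898278) (W3 := 26843546)
    rfl k0_pm_202_a

noncomputable def f_pm_202_b : ℕ → ℕ → ℕ → ℕ → Bool := onCell 1239849684 370763052 1073741824 536870912 1046898278 26843546
    (rowFX 0 false true false .pp 2 0 2 (qsf 1239849684 370763052 1073741824 536870912 0) ndF2q2b ndF3q2 pcF0 Cut.none Ext.none)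

def k0_pm_202_b : ∃ t, chk3 f_pm_202_b t 1 1 1 = true :=
  ⟨(l 3), by decide +kernel⟩

theorem c_pm_202_b : CertFX 1239849684 370763052 1073741824 536870912 1046898278 26843546 false true false .pp 2 0 2
    ndF2q2b ndF3q2 pcF0 Cut.none Ext.none :=
  certFX0 (fam := false) (s1 := true) (s2 := false) (a := 2) (b := 0) (c := 2) (cn := .pp) (n1 := ndF2q2b) (n2 := ndF3q2) (pc := pcF0) (cut := Cut.none) (xt := Ext.none) (P1 := 1239849684) (W1 := 370763052) (P2 := 1073741824) (W2 := 536870912) (P3 := 1046898278) (W3 := 26843546)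
    rfl k0_pm_202_b

noncomputable def f_pm_203_a : ℕ → ℕ → ℕ → ℕ → Bool := onCell 0 420477299 1610612736 536870912 1046898278 26843546
    (rowFX 0 false true false .up 2 0 3 (qsf 0 420477299 1610612736 536870912 0) ndF2q2a ndF3q3 pcF0 Cut.none Ext.none)

def k0_pm_203_a : ∃ t, chk3 f_pm_203_a t 1 1 1 = true :=
  ⟨(b (l 3) (l 2)), by decide +kernel⟩

theorem c_pm_203_a : CertFX 0 420477299 1610612736 536870912 1046898278 26843546 false true false .up 2 0 3
    ndF2q2a ndF3q3 pcF0 Cut.none Ext.none :=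
  certFX0 (fam := false) (s1 := true) (s2 := false) (a := 2) (b := 0) (c := 3) (cn := .up) (n1 := ndF2q2a) (n2 := ndF3q3) (pc := pcF0) (cut := Cut.none) (xt := Ext.none) (P1 := 0) (W1 := 420477299) (P2 := 1610612736) (W2 := 536870912) (P3 := 1046898278) (W3 := 26843546)
    rfl k0_pm_203_a

noncomputable def f_pm_203_b : ℕ → ℕ → ℕ → ℕ → Bool := onCell 1239849684 370763052 1610612736 536870912 1046898278 26843546
    (rowFX 0 false true false .up 2 0 3 (qsf 1239849684 370763052 1610612736 536870912 0) ndF2q2b ndF3q3 pcF0 Cut.none Ext.none)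

def k0_pm_203_b : ∃ t, chk3 f_pm_203_b t 1 1 1 = true :=
  ⟨(l 3), by decide +kernel⟩

theorem c_pm_203_b : CertFX 1239849684 370763052 1610612736 536870912 1046898278 26843546 false true false .up 2 0 3
    ndF2q2b ndF3q3 pcF0 Cut.none Ext.none :=
  certFX0 (fam := false) (s1 := true) (s2 := false) (a := 2) (b := 0) (c := 3) (cn := .up) (n1 := ndF2q2b) (n2 := ndF3q3) (pc := pcF0) (cut := Cut.none) (xt := Ext.none) (P1 := 1239849684) (W1 := 370763052) (P2 := 1610612736) (W2 := 536870912) (P3 := 1046898278) (W3 := 26843546)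
    rfl k0_pm_203_b

noncomputable def f_pm_213_a : ℕ → ℕ → ℕ → ℕ → Bool := onCell 0 420477299 1610612736 536870912 1046898278 26843546
    (rowFX 0 false true false .pnn 2 1 3 (qsf 0 420477299 1610612736 536870912 1) ndF2q2a ndF3q3 pcF1 Cut.none Ext.none)

def k0_pm_213_a : ∃ t, chk3 f_pm_213_a t 1 1 1 = true :=
  ⟨(b (l 3) (l 3)), by decide +kernel⟩

theorem c_pm_213_a : CertFX 0 420477299 1610612736 536870912 1046898278 26843546 false true false .pnn 2 1 3
    ndF2q2a ndF3q3 pcF1 Cut.none Ext.none :=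
  certFX0 (fam := false) (s1 := true) (s2 := false) (a := 2) (b := 1) (c := 3) (cn := .pnn) (n1 := ndF2q2a) (n2 := ndF3q3) (pc := pcF1) (cut := Cut.none) (xt := Ext.none) (P1 := 0) (W1 := 420477299) (P2 := 1610612736) (W2 := 536870912) (P3 := 1046898278) (W3 := 26843546)
    rfl k0_pm_213_a

noncomputable def f_pm_213_b : ℕ → ℕ → ℕ → ℕ → Bool := onCell 1239849684 370763052 1610612736 536870912 1046898278 26843546
    (rowFX 0 false true false .pnn 2 1 3 (qsf 1239849684 370763052 1610612736 536870912 1) ndF2q2b ndF3q3 pcF1 Cut.none Ext.none)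

def k0_pm_213_b : ∃ t, chk3 f_pm_213_b t 1 1 1 = true :=
  ⟨(l 3), by decide +kernel⟩

theorem c_pm_213_b : CertFX 1239849684 370763052 1610612736 536870912 1046898278 26843546 false true false .pnn 2 1 3
    ndF2q2b ndF3q3 pcF1 Cut.none Ext.none :=
  certFX0 (fam := false) (s1 := true) (s2 := false) (a := 2) (b := 1) (c := 3) (cn := .pnn) (n1 := ndF2q2b) (n2 := ndF3q3) (pc := pcF1) (cut := Cut.none) (xt := Ext.none) (P1 := 1239849684) (W1 := 370763052) (P2 := 1610612736) (W2 := 536870912) (P3 := 1046898278) (W3 := 26843546)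
    rfl k0_pm_213_b

noncomputable def f_pm_303 : ℕ → ℕ → ℕ → ℕ → Bool := onCell 1610612736 469762048 1610612736 536870912 1046898278 26843546
    (rowFX 0 false true false .npn 3 0 3 (qsf 1610612736 469762048 1610612736 536870912 0) ndF2q3 ndF3q3 pcF0 Cut.none Ext.none)

def k0_pm_303 : ∃ t, chk3 f_pm_303 t 1 1 1 = true :=
  ⟨(l 3), by decide +kernel⟩

theorem c_pm_303 : CertFX 1610612736 469762048 1610612736 536870912 1046898278 26843546 false true false .npn 3 0 3
    ndF2q3 ndF3q3 pcF0 Cut.none Ext.none :=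
  certFX0 (fam := false) (s1 := true) (s2 := false) (a := 3) (b := 0) (c := 3) (cn := .npn) (n1 := ndF2q3) (n2 := ndF3q3) (pc := pcF0) (cut := Cut.none) (xt := Ext.none) (P1 := 1610612736) (W1 := 469762048) (P2 := 1610612736) (W2 := 536870912) (P3 := 1046898278) (W3 := 26843546)
    rfl k0_pm_303

noncomputable def f_pm_313 : ℕ → ℕ → ℕ → ℕ → Bool := onCell 1610612736 469762048 1610612736 536870912 1046898278 26843546
    (rowFX 0 false true false .dn 3 1 3 (qsf 1610612736 469762048 1610612736 536870912 1) ndF2q3 ndF3q3 pcF1 Cut.none Ext.none)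

def k0_pm_313 : ∃ t, chk3 f_pm_313 t 1 1 1 = true :=
  ⟨(l 3), by decide +kernel⟩

theorem c_pm_313 : CertFX 1610612736 469762048 1610612736 536870912 1046898278 26843546 false true false .dn 3 1 3
    ndF2q3 ndF3q3 pcF1 Cut.none Ext.none :=
  certFX0 (fam := false) (s1 := true) (s2 := false) (a := 3) (b := 1) (c := 3) (cn := .dn) (n1 := ndF2q3) (n2 := ndF3q3) (pc := pcF1) (cut := Cut.none) (xt := Ext.none) (P1 := 1610612736) (W1 := 469762048) (P2 := 1610612736) (W2 := 536870912) (P3 := 1046898278) (W3 := 26843546)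
    rfl k0_pm_313

noncomputable def f_mm_001 : ℕ → ℕ → ℕ → ℕ → Bool := onCell 67108864 469762048 536870912 536870912 1046898278 26843546
    (rowFX 0 false false false .up 0 0 1 (qsf 67108864 469762048 536870912 536870912 0) ndF2q0 ndF3q1 pcF0 Cut.none Ext.none)

def k0_mm_001 : ∃ t, chk3 f_mm_001 t 1 1 1 = true :=
  ⟨(l 3), by decide +kernel⟩

theorem c_mm_001 : CertFX 67108864 469762048 536870912 536870912 1046898278 26843546 false false false .up 0 0 1
    ndF2q0 ndF3q1 pcF0 Cut.none Ext.none :=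
  certFX0 (fam := false) (s1 := false) (s2 := false) (a := 0) (b := 0) (c := 1) (cn := .up) (n1 := ndF2q0) (n2 := ndF3q1) (pc := pcF0) (cut := Cut.none) (xt := Ext.none) (P1 := 67108864) (W1 := 469762048) (P2 := 536870912) (W2 := 536870912) (P3 := 1046898278) (W3 := 26843546)
    rfl k0_mm_001

noncomputable def f_mm_011 : ℕ → ℕ → ℕ → ℕ → Bool := onCell 67108864 469762048 536870912 536870912 1046898278 26843546
    (rowFX 0 false false false .pnn 0 1 1 (qsf 67108864 469762048 536870912 536870912 1) ndF2q0 ndF3q1 pcF1 Cut.none Ext.none)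

def k0_mm_011 : ∃ t, chk3 f_mm_011 t 1 1 1 = true :=
  ⟨(l 3), by decide +kernel⟩

theorem c_mm_011 : CertFX 67108864 469762048 536870912 536870912 1046898278 26843546 false false false .pnn 0 1 1
    ndF2q0 ndF3q1 pcF1 Cut.none Ext.none :=
  certFX0 (fam := false) (s1 := false) (s2 := false) (a := 0) (b := 1) (c := 1) (cn := .pnn) (n1 := ndF2q0) (n2 := ndF3q1) (pc := pcF1) (cut := Cut.none) (xt := Ext.none) (P1 := 67108864) (W1 := 469762048) (P2 := 536870912) (W2 := 536870912) (P3 := 1046898278) (W3 := 26843546)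
    rfl k0_mm_011

noncomputable def f_mm_012 : ℕ → ℕ → ℕ → ℕ → Bool := onCell 67108864 469762048 1073741824 536870912 1046898278 26843546
    (rowFX 0 false false false .pnp 0 1 2 (qsf 67108864 469762048 1073741824 536870912 1) ndF2q0 ndF3q2 pcF1 Cut.none Ext.none)

def k0_mm_012 : ∃ t, chk3 f_mm_012 t 1 1 1 = true :=
  ⟨(l 5), by decide +kernel⟩

theorem c_mm_012 : CertFX 67108864 469762048 1073741824 536870912 1046898278 26843546 false false false .pnp 0 1 2
    ndF2q0 ndF3q2 pcF1 Cut.none Ext.none :=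
  certFX0 (fam := false) (s1 := false) (s2 := false) (a := 0) (b := 1) (c := 2) (cn := .pnp) (n1 := ndF2q0) (n2 := ndF3q2) (pc := pcF1) (cut := Cut.none) (xt := Ext.none) (P1 := 67108864) (W1 := 469762048) (P2 := 1073741824) (W2 := 536870912) (P3 := 1046898278) (W3 := 26843546)
    rfl k0_mm_012

noncomputable def f_mm_022 : ℕ → ℕ → ℕ → ℕ → Bool := onCell 67108864 469762048 1073741824 536870912 1046898278 26843546
    (rowFX 0 false false false .pp 0 2 2 (qsf 67108864 469762048 1073741824 536870912 2) ndF2q0 ndF3q2 pcF2 Cut.none Ext.none)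

def k0_mm_022 : ∃ t, chk3 f_mm_022 t 1 1 1 = true :=
  ⟨(l 5), by decide +kernel⟩

theorem c_mm_022 : CertFX 67108864 469762048 1073741824 536870912 1046898278 26843546 false false false .pp 0 2 2
    ndF2q0 ndF3q2 pcF2 Cut.none Ext.none :=
  certFX0 (fam := false) (s1 := false) (s2 := false) (a := 0) (b := 2) (c := 2) (cn := .pp) (n1 := ndF2q0) (n2 := ndF3q2) (pc := pcF2) (cut := Cut.none) (xt := Ext.none) (P1 := 67108864) (W1 := 469762048) (P2 := 1073741824) (W2 := 536870912) (P3 := 1046898278) (W3 := 26843546)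
    rfl k0_mm_022

noncomputable def f_mm_023 : ℕ → ℕ → ℕ → ℕ → Bool := onCell 67108864 469762048 1610612736 536870912 1046898278 26843546
    (rowFX 0 false false false .up 0 2 3 (qsf 67108864 469762048 1610612736 536870912 2) ndF2q0 ndF3q3 pcF2 Cut.none Ext.none)

def k0_mm_023 : ∃ t, chk3 f_mm_023 t 1 1 1 = true :=
  ⟨(l 5), by decide +kernel⟩

theorem c_mm_023 : CertFX 67108864 469762048 1610612736 536870912 1046898278 26843546 false false false .up 0 2 3
    ndF2q0 ndF3q3 pcF2 Cut.none Ext.none :=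
  certFX0 (fam := false) (s1 := false) (s2 := false) (a := 0) (b := 2) (c := 3) (cn := .up) (n1 := ndF2q0) (n2 := ndF3q3) (pc := pcF2) (cut := Cut.none) (xt := Ext.none) (P1 := 67108864) (W1 := 469762048) (P2 := 1610612736) (W2 := 536870912) (P3 := 1046898278) (W3 := 26843546)
    rfl k0_mm_023

noncomputable def f_mm_033 : ℕ → ℕ → ℕ → ℕ → Bool := onCell 67108864 469762048 1610612736 536870912 1046898278 26843546
    (rowFX 0 false false false .pnn 0 3 3 (qsf 67108864 469762048 1610612736 536870912 3) ndF2q0 ndF3q3 pcF3 Cut.none Ext.none)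

def k0_mm_033 : ∃ t, chk3 f_mm_033 t 1 1 1 = true :=
  ⟨(l 5), by decide +kernel⟩

theorem c_mm_033 : CertFX 67108864 469762048 1610612736 536870912 1046898278 26843546 false false false .pnn 0 3 3
    ndF2q0 ndF3q3 pcF3 Cut.none Ext.none :=
  certFX0 (fam := false) (s1 := false) (s2 := false) (a := 0) (b := 3) (c := 3) (cn := .pnn) (n1 := ndF2q0) (n2 := ndF3q3) (pc := pcF3) (cut := Cut.none) (xt := Ext.none) (P1 := 67108864) (W1 := 469762048) (P2 := 1610612736) (W2 := 536870912) (P3 := 1046898278) (W3 := 26843546)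
    rfl k0_mm_033

noncomputable def f_mm_101 : ℕ → ℕ → ℕ → ℕ → Bool := onCell 536870912 536870912 536870912 536870912 1046898278 26843546
    (rowFX 0 false false false .npn 1 0 1 (qsf 536870912 536870912 536870912 536870912 0) ndF2q1 ndF3q1 pcF0 Cut.none Ext.none)

def k0_mm_101 : ∃ t, chk3 f_mm_101 t 1 1 1 = true :=
  ⟨(l 3), by decide +kernel⟩

theorem c_mm_101 : CertFX 536870912 536870912 536870912 536870912 1046898278 26843546 false false false .npn 1 0 1
    ndF2q1 ndF3q1 pcF0 Cut.none Ext.none :=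
  certFX0 (fam := false) (s1 := false) (s2 := false) (a := 1) (b := 0) (c := 1) (cn := .npn) (n1 := ndF2q1) (n2 := ndF3q1) (pc := pcF0) (cut := Cut.none) (xt := Ext.none) (P1 := 536870912) (W1 := 536870912) (P2 := 536870912) (W2 := 536870912) (P3 := 1046898278) (W3 := 26843546)
    rfl k0_mm_101

noncomputable def f_mm_102 : ℕ → ℕ → ℕ → ℕ → Bool := onCell 536870912 536870912 1073741824 536870912 1046898278 26843546
    (rowFX 0 false false false .npp 1 0 2 (qsf 536870912 536870912 1073741824 536870912 0) ndF2q1 ndF3q2 pcF0 Cut.none Ext.none)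

def k0_mm_102 : ∃ t, chk3 f_mm_102 t 1 1 1 = true :=
  ⟨(l 5), by decide +kernel⟩

theorem c_mm_102 : CertFX 536870912 536870912 1073741824 536870912 1046898278 26843546 false false false .npp 1 0 2
    ndF2q1 ndF3q2 pcF0 Cut.none Ext.none :=
  certFX0 (fam := false) (s1 := false) (s2 := false) (a := 1) (b := 0) (c := 2) (cn := .npp) (n1 := ndF2q1) (n2 := ndF3q2) (pc := pcF0) (cut := Cut.none) (xt := Ext.none) (P1 := 536870912) (W1 := 536870912) (P2 := 1073741824) (W2 := 536870912) (P3 := 1046898278) (W3 := 26843546)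
    rfl k0_mm_102

noncomputable def f_mm_112 : ℕ → ℕ → ℕ → ℕ → Bool := onCell 536870912 536870912 1073741824 536870912 1046898278 26843546
    (rowFX 0 false false false .dn 1 1 2 (qsf 536870912 536870912 1073741824 536870912 1) ndF2q1 ndF3q2 pcF1 Cut.none Ext.none)

def k0_mm_112 : ∃ t, chk3 f_mm_112 t 1 1 1 = true :=
  ⟨(l 5), by decide +kernel⟩

theorem c_mm_112 : CertFX 536870912 536870912 1073741824 536870912 1046898278 26843546 false false false .dn 1 1 2
    ndF2q1 ndF3q2 pcF1 Cut.none Ext.none :=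
  certFX0 (fam := false) (s1 := false) (s2 := false) (a := 1) (b := 1) (c := 2) (cn := .dn) (n1 := ndF2q1) (n2 := ndF3q2) (pc := pcF1) (cut := Cut.none) (xt := Ext.none) (P1 := 536870912) (W1 := 536870912) (P2 := 1073741824) (W2 := 536870912) (P3 := 1046898278) (W3 := 26843546)
    rfl k0_mm_112

noncomputable def f_mm_113 : ℕ → ℕ → ℕ → ℕ → Bool := onCell 536870912 536870912 1610612736 536870912 1046898278 26843546
    (rowFX 0 false false false .nn 1 1 3 (qsf 536870912 536870912 1610612736 536870912 1) ndF2q1 ndF3q3 pcF1 Cut.none Ext.none)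

def k0_mm_113 : ∃ t, chk3 f_mm_113 t 1 1 1 = true :=
  ⟨(l 5), by decide +kernel⟩

theorem c_mm_113 : CertFX 536870912 536870912 1610612736 536870912 1046898278 26843546 false false false .nn 1 1 3
    ndF2q1 ndF3q3 pcF1 Cut.none Ext.none :=
  certFX0 (fam := false) (s1 := false) (s2 := false) (a := 1) (b := 1) (c := 3) (cn := .nn) (n1 := ndF2q1) (n2 := ndF3q3) (pc := pcF1) (cut := Cut.none) (xt := Ext.none) (P1 := 536870912) (W1 := 536870912) (P2 := 1610612736) (W2 := 536870912) (P3 := 1046898278) (W3 := 26843546)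
    rfl k0_mm_113

noncomputable def f_mm_123 : ℕ → ℕ → ℕ → ℕ → Bool := onCell 536870912 536870912 1610612736 536870912 1046898278 26843546
    (rowFX 0 false false false .npn 1 2 3 (qsf 536870912 536870912 1610612736 536870912 2) ndF2q1 ndF3q3 pcF2 Cut.none Ext.none)

def k0_mm_123 : ∃ t, chk3 f_mm_123 t 1 1 1 = true :=
  ⟨(l 5), by decide +kernel⟩

theorem c_mm_123 : CertFX 536870912 536870912 1610612736 536870912 1046898278 26843546 false false false .npn 1 2 3
    ndF2q1 ndF3q3 pcF2 Cut.none Ext.none :=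
  certFX0 (fam := false) (s1 := false) (s2 := false) (a := 1) (b := 2) (c := 3) (cn := .npn) (n1 := ndF2q1) (n2 := ndF3q3) (pc := pcF2) (cut := Cut.none) (xt := Ext.none) (P1 := 536870912) (W1 := 536870912) (P2 := 1610612736) (W2 := 536870912) (P3 := 1046898278) (W3 := 26843546)
    rfl k0_mm_123

noncomputable def f_mm_133 : ℕ → ℕ → ℕ → ℕ → Bool := onCell 536870912 536870912 1610612736 536870912 1046898278 26843546
    (rowFX 0 false false false .dn 1 3 3 (qsf 536870912 536870912 1610612736 536870912 3) ndF2q1 ndF3q3 pcF3 Cut.none Ext.none)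

def k0_mm_133 : ∃ t, chk3 f_mm_133 t 1 1 1 = true :=
  ⟨(l 5), by decide +kernel⟩

theorem c_mm_133 : CertFX 536870912 536870912 1610612736 536870912 1046898278 26843546 false false false .dn 1 3 3
    ndF2q1 ndF3q3 pcF3 Cut.none Ext.none :=
  certFX0 (fam := false) (s1 := false) (s2 := false) (a := 1) (b := 3) (c := 3) (cn := .dn) (n1 := ndF2q1) (n2 := ndF3q3) (pc := pcF3) (cut := Cut.none) (xt := Ext.none) (P1 := 536870912) (W1 := 536870912) (P2 := 1610612736) (W2 := 536870912) (P3 := 1046898278) (W3 := 26843546)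
    rfl k0_mm_133

noncomputable def f_mm_202_a : ℕ → ℕ → ℕ → ℕ → Bool := onCell 0 420477299 1073741824 536870912 1046898278 26843546
    (rowFX 0 false false false .pp 2 0 2 (qsf 0 420477299 1073741824 536870912 0) ndF2q2a ndF3q2 pcF0 Cut.none Ext.none)

def k0_mm_202_a : ∃ t, chk3 f_mm_202_a t 1 1 1 = true :=
  ⟨(l 3), by decide +kernel⟩

theorem c_mm_202_a : CertFX 0 420477299 1073741824 536870912 1046898278 26843546 false false false .pp 2 0 2
    ndF2q2a ndF3q2 pcF0 Cut.none Ext.none :=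
  certFX0 (fam := false) (s1 := false) (s2 := false) (a := 2) (b := 0) (c := 2) (cn := .pp) (n1 := ndF2q2a) (n2 := ndF3q2) (pc := pcF0) (cut := Cut.none) (xt := Ext.none) (P1 := 0) (W1 := 420477299) (P2 := 1073741824) (W2 := 536870912) (P3 := 1046898278) (W3 := 26843546)
    rfl k0_mm_202_a

noncomputable def f_mm_202_b : ℕ → ℕ → ℕ → ℕ → Bool := onCell 1239849684 370763052 1073741824 536870912 1046898278 26843546
    (rowFX 0 false false false .pp 2 0 2 (qsf 1239849684 370763052 1073741824 536870912 0) ndF2q2b ndF3q2 pcF0 Cut.none Ext.none)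

def k0_mm_202_b : ∃ t, chk3 f_mm_202_b t 1 1 1 = true :=
  ⟨(l 3), by decide +kernel⟩

theorem c_mm_202_b : CertFX 1239849684 370763052 1073741824 536870912 1046898278 26843546 false false false .pp 2 0 2
    ndF2q2b ndF3q2 pcF0 Cut.none Ext.none :=
  certFX0 (fam := false) (s1 := false) (s2 := false) (a := 2) (b := 0) (c := 2) (cn := .pp) (n1 := ndF2q2b) (n2 := ndF3q2) (pc := pcF0) (cut := Cut.none) (xt := Ext.none) (P1 := 1239849684) (W1 := 370763052) (P2 := 1073741824) (W2 := 536870912) (P3 := 1046898278) (W3 := 26843546)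
    rfl k0_mm_202_b

noncomputable def f_mm_203_a : ℕ → ℕ → ℕ → ℕ → Bool := onCell 0 420477299 1610612736 536870912 1046898278 26843546
    (rowFX 0 false false false .up 2 0 3 (qsf 0 420477299 1610612736 536870912 0) ndF2q2a ndF3q3 pcF0 Cut.none Ext.none)

def k0_mm_203_a : ∃ t, chk3 f_mm_203_a t 1 1 1 = true :=
  ⟨(l 3), by decide +kernel⟩

theorem c_mm_203_a : CertFX 0 420477299 1610612736 536870912 1046898278 26843546 false false false .up 2 0 3
    ndF2q2a ndF3q3 pcF0 Cut.none Ext.none :=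
  certFX0 (fam := false) (s1 := false) (s2 := false) (a := 2) (b := 0) (c := 3) (cn := .up) (n1 := ndF2q2a) (n2 := ndF3q3) (pc := pcF0) (cut := Cut.none) (xt := Ext.none) (P1 := 0) (W1 := 420477299) (P2 := 1610612736) (W2 := 536870912) (P3 := 1046898278) (W3 := 26843546)
    rfl k0_mm_203_a

noncomputable def f_mm_203_b : ℕ → ℕ → ℕ → ℕ → Bool := onCell 1239849684 370763052 1610612736 536870912 1046898278 26843546
    (rowFX 0 false false false .up 2 0 3 (qsf 1239849684 370763052 1610612736 536870912 0) ndF2q2b ndF3q3 pcF0 Cut.none Ext.none)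

def k0_mm_203_b : ∃ t, chk3 f_mm_203_b t 1 1 1 = true :=
  ⟨(l 3), by decide +kernel⟩

theorem c_mm_203_b : CertFX 1239849684 370763052 1610612736 536870912 1046898278 26843546 false false false .up 2 0 3
    ndF2q2b ndF3q3 pcF0 Cut.none Ext.none :=
  certFX0 (fam := false) (s1 := false) (s2 := false) (a := 2) (b := 0) (c := 3) (cn := .up) (n1 := ndF2q2b) (n2 := ndF3q3) (pc := pcF0) (cut := Cut.none) (xt := Ext.none) (P1 := 1239849684) (W1 := 370763052) (P2 := 1610612736) (W2 := 536870912) (P3 := 1046898278) (W3 := 26843546)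
    rfl k0_mm_203_b

noncomputable def f_mm_213_a : ℕ → ℕ → ℕ → ℕ → Bool := onCell 0 420477299 1610612736 536870912 1046898278 26843546
    (rowFX 0 false false false .pnn 2 1 3 (qsf 0 420477299 1610612736 536870912 1) ndF2q2a ndF3q3 pcF1 Cut.none Ext.none)

def k0_mm_213_a : ∃ t, chk3 f_mm_213_a t 1 1 1 = true :=
  ⟨(l 3), by decide +kernel⟩

theorem c_mm_213_a : CertFX 0 420477299 1610612736 536870912 1046898278 26843546 false false false .pnn 2 1 3
    ndF2q2a ndF3q3 pcF1 Cut.none Ext.none :=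
  certFX0 (fam := false) (s1 := false) (s2 := false) (a := 2) (b := 1) (c := 3) (cn := .pnn) (n1 := ndF2q2a) (n2 := ndF3q3) (pc := pcF1) (cut := Cut.none) (xt := Ext.none) (P1 := 0) (W1 := 420477299) (P2 := 1610612736) (W2 := 536870912) (P3 := 1046898278) (W3 := 26843546)
    rfl k0_mm_213_a

noncomputable def f_mm_213_b : ℕ → ℕ → ℕ → ℕ → Bool := onCell 1239849684 370763052 1610612736 536870912 1046898278 26843546
    (rowFX 0 false false false .pnn 2 1 3 (qsf 1239849684 370763052 1610612736 536870912 1) ndF2q2b ndF3q3 pcF1 Cut.none Ext.none)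

def k0_mm_213_b : ∃ t, chk3 f_mm_213_b t 1 1 1 = true :=
  ⟨(l 3), by decide +kernel⟩

theorem c_mm_213_b : CertFX 1239849684 370763052 1610612736 536870912 1046898278 26843546 false false false .pnn 2 1 3
    ndF2q2b ndF3q3 pcF1 Cut.none Ext.none :=
  certFX0 (fam := false) (s1 := false) (s2 := false) (a := 2) (b := 1) (c := 3) (cn := .pnn) (n1 := ndF2q2b) (n2 := ndF3q3) (pc := pcF1) (cut := Cut.none) (xt := Ext.none) (P1 := 1239849684) (W1 := 370763052) (P2 := 1610612736) (W2 := 536870912) (P3 := 1046898278) (W3 := 26843546)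
    rfl k0_mm_213_b

noncomputable def f_mm_303 : ℕ → ℕ → ℕ → ℕ → Bool := onCell 1610612736 469762048 1610612736 536870912 1046898278 26843546
    (rowFX 0 false false false .npn 3 0 3 (qsf 1610612736 469762048 1610612736 536870912 0) ndF2q3 ndF3q3 pcF0 Cut.none Ext.none)

def k0_mm_303 : ∃ t, chk3 f_mm_303 t 1 1 1 = true :=
  ⟨(l 3), by decide +kernel⟩

theorem c_mm_303 : CertFX 1610612736 469762048 1610612736 536870912 1046898278 26843546 false false false .npn 3 0 3
    ndF2q3 ndF3q3 pcF0 Cut.none Ext.none :=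
  certFX0 (fam := false) (s1 := false) (s2 := false) (a := 3) (b := 0) (c := 3) (cn := .npn) (n1 := ndF2q3) (n2 := ndF3q3) (pc := pcF0) (cut := Cut.none) (xt := Ext.none) (P1 := 1610612736) (W1 := 469762048) (P2 := 1610612736) (W2 := 536870912) (P3 := 1046898278) (W3 := 26843546)
    rfl k0_mm_303

noncomputable def f_mm_313 : ℕ → ℕ → ℕ → ℕ → Bool := onCell 1610612736 469762048 1610612736 536870912 1046898278 26843546
    (rowFX 0 false false false .dn 3 1 3 (qsf 1610612736 469762048 1610612736 536870912 1) ndF2q3 ndF3q3 pcF1 Cut.none Ext.none)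

def k0_mm_313 : ∃ t, chk3 f_mm_313 t 1 1 1 = true :=
  ⟨(l 3), by decide +kernel⟩

theorem c_mm_313 : CertFX 1610612736 469762048 1610612736 536870912 1046898278 26843546 false false false .dn 3 1 3
    ndF2q3 ndF3q3 pcF1 Cut.none Ext.none :=
  certFX0 (fam := false) (s1 := false) (s2 := false) (a := 3) (b := 1) (c := 3) (cn := .dn) (n1 := ndF2q3) (n2 := ndF3q3) (pc := pcF1) (cut := Cut.none) (xt := Ext.none) (P1 := 1610612736) (W1 := 469762048) (P2 := 1610612736) (W2 := 536870912) (P3 := 1046898278) (W3 := 26843546)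
    rfl k0_mm_313

end Pool.Agent.Strip051.G.IE1.Tab.C.FB23

namespace Pool.Agent.Strip051.G.IE1.Tab.C.FB25

open Pool.Agent.Strip051.PB Pool.Agent.Strip051.PB.T
open Pool.Agent.Strip051.G.IE1.Tab

noncomputable def f_pp_001 : ℕ → ℕ → ℕ → ℕ → Bool := onCell 67108864 469762048 536870912 469762048 1046898278 26843546
    (rowFX 0 false true true .up 0 0 1 (qsf 67108864 469762048 536870912 469762048 0) ndF2q0 ndF5q1 pcF0 Cut.none Ext.none)

def k0_pp_001 : ∃ t, chk3 f_pp_001 t 1 1 1 = true :=
  ⟨(l 3), by decide +kernel⟩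

theorem c_pp_001 : CertFX 67108864 469762048 536870912 469762048 1046898278 26843546 false true true .up 0 0 1
    ndF2q0 ndF5q1 pcF0 Cut.none Ext.none :=
  certFX0 (fam := false) (s1 := true) (s2 := true) (a := 0) (b := 0) (c := 1) (cn := .up) (n1 := ndF2q0) (n2 := ndF5q1) (pc := pcF0) (cut := Cut.none) (xt := Ext.none) (P1 := 67108864) (W1 := 469762048) (P2 := 536870912) (W2 := 469762048) (P3 := 1046898278) (W3 := 26843546)
    rfl k0_pp_001

noncomputable def f_pp_011 : ℕ → ℕ → ℕ → ℕ → Bool := onCell 67108864 469762048 536870912 469762048 1046898278 26843546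
    (rowFX 0 false true true .pnn 0 1 1 (qsf 67108864 469762048 536870912 469762048 1) ndF2q0 ndF5q1 pcF1 Cut.none Ext.none)

def k0_pp_011 : ∃ t, chk3 f_pp_011 t 1 1 1 = true :=
  ⟨(l 3), by decide +kernel⟩

theorem c_pp_011 : CertFX 67108864 469762048 536870912 469762048 1046898278 26843546 false true true .pnn 0 1 1
    ndF2q0 ndF5q1 pcF1 Cut.none Ext.none :=
  certFX0 (fam := false) (s1 := true) (s2 := true) (a := 0) (b := 1) (c := 1) (cn := .pnn) (n1 := ndF2q0) (n2 := ndF5q1) (pc := pcF1) (cut := Cut.none) (xt := Ext.none) (P1 := 67108864) (W1 := 469762048) (P2 := 536870912) (W2 := 469762048) (P3 := 1046898278) (W3 := 26843546)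
    rfl k0_pp_011

noncomputable def f_pp_012 : ℕ → ℕ → ℕ → ℕ → Bool := onCell 536870912 536870912 1073741824 536870912 1046898278 26843546
    (rowFX 2 false true true .pnp 0 1 2 (qsf 67108864 469762048 1073741824 536870912 1) ndF2q0 ndF5q2 pcF1 Cut.none Ext.none)

def k0_pp_012 : ∃ t, chk3 f_pp_012 t 1 1 1 = true :=
  ⟨(a (l 3) (b (a (l 3) (b (l 3) (a (l 3) (b (l 3) (a (b (l 3) (c (l 16113280) (l 15955360))) (b (b (a (l 3) (c (l 15371744) (c (l 15353312) (l 15343656)))) (a (c (l 15717368) (l 15702040)) (c (l 15643016) (a (l 15628824) (l 15570168))))) (c (a (l 15913376) (l 15820864)) (a (l 15904096) (c (l 15812272) (l 15766968)))))))))) (a (a (l 3) (b (l 3) (a (l 2) (l 16766224)))) (a (b (a (l 600388824567) (b (l 16360272) (l 16364344))) (a (l 16596544) (l 16377536))) (c (b (a (b (l 16120904) (l 16137472)) (a (b (l 15935568) (l 15966648)) (l 15863768))) (a (l 16165832) (l 15824384))) (b (a (b (l 16090024) (l 16109368)) (a (l 15939528) (b (l 15836632) (l 15867672)))) (a (l 16142456)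 (a (l 15996992) (l 15912680))))))))), by decide +kernel⟩

theorem c_pp_012 : CertFX 67108864 469762048 1073741824 536870912 1046898278 26843546 false true true .pnp 0 1 2
    ndF2q0 ndF5q2 pcF1 Cut.none Ext.none :=
  certFX2 (fam := false) (s1 := true) (s2 := true) (a := 0) (b := 1) (c := 2) (cn := .pnp) (n1 := ndF2q0) (n2 := ndF5q2) (pc := pcF1) (cut := Cut.none) (xt := Ext.none) (P1 := 67108864) (W1 := 469762048) (P2 := 1073741824) (W2 := 536870912) (P3 := 1046898278) (W3 := 26843546)
    rfl (fun _ => rfl) k0_pp_012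

noncomputable def f_pp_022 : ℕ → ℕ → ℕ → ℕ → Bool := onCell 1073741824 536870912 1073741824 536870912 1046898278 26843546
    (rowFX 2 false true true .pp 0 2 2 (qsf 67108864 469762048 1073741824 536870912 2) ndF2q0 ndF5q2 pcF2 Cut.none Ext.none)

def k0_pp_022 : ∃ t, chk3 f_pp_022 t 8 4 1 = true :=
  ⟨(a (l 3) (b (l 1) (b (l 3) (b (a (l 3) (a (l 3) (l 1))) (a (a (l 3) (a (l 3) (b (l 3) (c (l 15473448) (l 15439568))))) (c (a (a (b (l 15725824) (l 15548968)) (a (l 15691872) (l 273298284231))) (a (c (l 15775360) (l 15757680)) (c (l 15576264) (l 15808176)))) (a (a (b (l 15698944) (l 15517072)) (a (l 15663456) (l 15695912))) (a (l 15738592) (l 179345962039))))))))), by decide +kernel⟩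

def k1_pp_022 : ∃ t, chk3 f_pp_022 t 32 5 1 = true :=
  ⟨(b (b (l 3) (a (b (l 3) (c (l 15179336) (c (l 15146976) (a (c (l 15098704) (l 14899552)) (l 280410644855))))) (c (b (c (l 15016912) (l 15000888)) (c (a (l 15117208) (l 15302112)) (l 15294560))) (c (a (l 404964582263) (l 414091503575)) (b (l 14962856) (c (l 15250152) (l 15237808))))))) (b (c (b (a (c (l 15464592) (l 15446224)) (c (l 15349104) (l 15575624))) (c (l 15724128) (l 15637496))) (c (a (b (b (l 15357480) (l 15509696)) (a (l 15653024) (l 15607248))) (b (c (l 15552600) (l 15536528)) (l 15831992))) (a (c (a (b (b (l 15245800) (l 15474840)) (l 15644432)) (b (l 15378856) (l 15731400))) (a (b (c (b (l 15300064) (l 15454680)) (a (l 15308512) (l 15379600))) (l 15678408)) (b (l 15379864) (l 15709912)))) (c (b (l 15515248) (l 15786176)) (b (l 15502464) (l 15768472)))))) (c (c (b (a (l 15930048) (l 16014584)) (l 15977776)) (a (b (l 15922216) (l 15947344)) (b (l 15986728) (l 15975816)))) (c (a (a (c (l 15886936) (l 15880816))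 (c (l 15900272) (l 15841448))) (b (l 15898960) (l 15914376))) (b (a (l 15726472) (c (l 15907264) (l 15905864))) (l 15902808)))))), by decide +kernel⟩

def k2_pp_022 : ∃ t, chk3 f_pp_022 t 33 5 1 = true :=
  ⟨(b (b (b (l 3) (c (a (c (a (l 3) (l 14858136)) (l 14791544)) (c (a (l 14858048) (l 14979000)) (l 14915416))) (a (l 14731832) (a (l 14858080) (l 14907128))))) (a (c (c (b (c (l 15105368) (l 15140488)) (a (l 15402920) (l 15470072))) (c (l 15067472) (l 15158840))) (c (b (l 15097536) (l 15343376)) (b (l 15070944) (l 15319216)))) (c (c (b (c (l 15202512) (l 15255256)) (a (l 15521144) (l 15568888))) (b (l 15232544) (l 15505984))) (b (b (l 15119360) (l 15266024)) (l 15441688))))) (c (b (c (a (b (l 15719544) (l 15974568)) (l 15783744)) (a (l 15807040) (l 15886264))) (c (b (l 16114392) (l 16041928)) (l 15860192))) (b (c (a (c (l 15773848) (l 15727704)) (l 15719280)) (b (l 15645552) (l 15887688))) (c (b (l 15886632) (l 15827144)) (b (l 16005192) (l 15941568)))))), by decide +kernel⟩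

def k3_pp_022 : ∃ t, chk3 f_pp_022 t 17 5 1 = true :=
  ⟨(a (b (b (c (b (a (c (a (l 313159540983) (l 15061360)) (l 14999776)) (c (a (l 15138960) (b (l 15306784) (l 15127536))) (l 15142568))) (a (c (l 14870448) (l 15028448)) (b (a (l 15011768) (l 15092928)) (l 15226376)))) (b (a (c (l 14869808) (a (l 14911376) (l 14987112))) (c (l 9290718919) (a (l 15069320) (l 14993904)))) (a (c (l 15002288) (l 14832024)) (b (a (l 15003264) (l 15066024)) (l 15178808))))) (c (b (a (a (l 15314208) (l 15363344)) (l 15438400)) (a (l 15383448) (c (l 15722096) (l 15690328)))) (b (a (l 15148104) (l 15393880)) (a (l 15561848) (l 15666640))))) (c (b (b (l 15807696) (a (l 16098208) (l 16178408))) (c (b (l 16145800) (l 16125000)) (b (l 16132360) (l 16088792)))) (b (b (l 15866880) (l 15970536)) (b (a (l 16136592) (l 16224032)) (l 16066320))))) (b (b (b (c (a (c (a (b (l 15374984) (l 15195072)) (l 15180976)) (b (l 15384568) (l 15204576))) (b (a (l 15488616) (l 15547320)) (l 15335840))) (a (a (a (l 15213048)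 (l 15080144)) (c (l 15309232) (l 15248480))) (b (a (l 15455064) (l 15516416)) (l 15297824)))) (c (a (c (l 15282440) (l 15257728)) (l 15382448)) (a (l 15227744) (l 15345120)))) (c (b (a (l 15533520) (l 15582072)) (b (a (l 15732096) (l 15819896)) (l 15905328))) (a (b (l 15496360) (l 15768048)) (b (l 15592728) (l 15861904))))) (b (a (c (l 15949408) (l 16136776)) (c (l 16079224) (l 16211952))) (b (c (a (l 16270280) (l 16353832)) (c (l 16276512) (l 16255928))) (c (c (l 16250800) (l 16234608)) (l 16119048)))))), by decide +kernel⟩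

def k4_pp_022 : ∃ t, chk3 f_pp_022 t 9 2 1 = true :=
  ⟨(b (a (b (l 1) (a (b (l 1) (b (l 1) (a (a (a (c (l 397852568759) (l 15832904)) (l 1)) (l 1)) (l 1)))) (l 1))) (l 1)) (a (a (b (b (b (c (a (c (l 15387528) (l 15537352)) (c (l 15562440) (l 15646712))) (a (l 15387968) (l 15625832))) (c (a (l 15497336) (l 15605376)) (a (l 15464360) (l 15576928)))) (c (b (a (l 15715064) (l 15806768)) (a (l 15961656) (l 16025568))) (b (a (l 15687704) (l 15782288)) (a (l 15941064) (l 16007016))))) (b (c (l 16133872) (l 16145664)) (c (b (l 16500664) (l 16302880)) (c (b (l 16486352) (l 16314328)) (b (l 16495536) (l 16362576)))))) (b (b (a (b (c (c (l 15557232) (l 15744104)) (l 15720840)) (c (l 15661064) (l 15673736))) (b (l 1) (c (l 263634793191) (l 15758256)))) (b (c (a (l 15899776) (l 15925856)) (a (l 15878280) (l 15929416))) (c (l 16136680) (l 16121792)))) (b (c (l 16194664) (l 16209984)) (b (l 16578824) (c (l 16443792) (c (l 16428760) (l 16437272))))))) (a (a (b (b (b (l 1) (c (c (l 15769400)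 (l 15853584)) (l 15833112))) (b (b (c (l 224980606439) (l 16000288)) (l 16107000)) (l 16139072))) (b (c (l 16313864) (l 16332008)) (b (l 16536472) (c (l 16502696) (c (l 16480832) (l 16497104)))))) (b (b (l 1) (b (c (l 255045519703) (l 16131808)) (l 16292696))) (b (c (l 16437232) (l 16457664)) (l 16516056)))) (b (b (l 1) (b (c (a (l 16262024) (l 1)) (l 16176728)) (c (l 16255400) (l 16374064)))) (b (c (b (l 16551232) (l 16423392)) (b (l 16548448) (l 16418112))) (c (l 16261352) (l 16342432))))))), by decide +kernel⟩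

def k5_pp_022 : ∃ t, chk3 f_pp_022 t 5 2 1 = true :=
  ⟨(b (l 1) (a (a (b (a (b (l 1) (b (l 1) (c (l 361883465031) (l 16440416)))) (l 1)) (a (b (a (b (l 16383176) (l 16292488)) (c (l 233034005799) (l 16260608))) (b (a (l 16283192) (l 16254768)) (l 16359616))) (a (b (b (l 425770723127) (l 16093912)) (c (l 16134704) (l 16231896))) (b (b (l 1) (a (l 16007688) (a (l 16019952) (c (l 15918856) (l 16037008))))) (a (c (l 16128584) (l 16224592)) (a (c (l 16168784) (l 16200584)) (b (c (l 16068160) (l 16052552)) (l 16223080)))))))) (b (l 1) (b (a (c (b (l 1) (l 442949723239)) (l 539586629543)) (l 1)) (b (c (a (l 15711712) (l 657697458727)) (l 15448992)) (a (l 16007664) (l 15494664)))))) (b (l 1) (a (a (b (l 1) (b (l 1) (l 583072147591))) (l 1)) (l 1))))), by decide +kernel⟩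

def k6_pp_022 : ∃ t, chk3 f_pp_022 t 4 6 1 = true :=
  ⟨(a (a (c (b (a (a (b (c (l 16018288) (l 15950392)) (l 16091488)) (c (b (l 16041568) (l 16087008)) (l 16017216))) (c (l 15928096) (l 15991960))) (a (l 16012320) (l 16070728))) (a (b (c (l 16019728) (b (l 15959760) (l 16034728))) (c (l 16159664) (l 16144000))) (b (c (l 15962952) (l 15953496)) (l 16030296)))) (c (b (a (c (l 15842648) (l 15894528)) (c (b (b (l 16122816) (l 16016368)) (c (l 15958648) (l 15951032))) (b (l 16035216) (l 15955632)))) (a (l 15960576) (l 15871888))) (b (b (a (l 15967448) (c (l 16057208) (l 16038504))) (l 15925504)) (l 15800024)))) (a (b (c (c (b (a (l 16148848) (l 16214744)) (b (l 15927696) (l 15716472))) (b (a (l 16080976) (l 15950456)) (a (l 15953112) (l 15739984)))) (b (c (a (l 16138800) (l 16084272)) (b (l 16231488) (l 16083416))) (a (l 15904080) (b (l 16008480) (l 15830944))))) (c (a (l 15783560) (b (c (l 15790936) (l 15738328)) (l 15634568))) (l 15667096))) (b (b (b (c (a (a (l 16336232) (l 16377968))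 (l 16390016)) (a (c (a (l 16346248) (l 16365128)) (a (l 16295080) (l 16330736))) (c (l 16369944) (l 16383128)))) (c (c (l 16212808) (a (l 16193968) (l 16222208))) (a (c (l 16065328) (l 16146504)) (c (l 16193632) (l 16223952))))) (c (c (b (l 16046896) (a (l 15870816) (l 15878896))) (a (a (l 15864168) (l 15888344)) (b (l 16022960) (l 15926928)))) (c (a (l 15718296) (l 15897048)) (a (l 15926864) (l 15957088))))) (c (b (a (b (c (l 15752272) (l 15726760)) (l 15639672)) (c (b (l 15729504) (l 15595744)) (l 15447232))) (l 15484224)) (b (l 15480184) (l 15450640)))))), by decide +kernel⟩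

def k7_pp_022 : ∃ t, chk3 f_pp_022 t 10 6 1 = true :=
  ⟨(a (b (a (c (b (c (l 16339504) (b (l 16419504) (l 16261952))) (c (l 15994368) (b (l 16074656) (l 15837248)))) (c (b (b (l 16390008) (a (l 16154632) (l 16203784))) (l 15794224)) (b (b (l 16403920) (l 16125664)) (l 15984544)))) (b (b (a (l 16452088) (a (l 16469520) (a (l 16512904) (l 16484904)))) (a (c (l 16274144) (b (l 16317104) (l 15963688))) (a (c (l 16293968) (l 16210920)) (a (c (l 16346248) (l 16328328)) (c (l 16385264) (l 16369104)))))) (b (a (c (l 16110424) (l 15989632)) (a (c (l 16145456) (l 16060736)) (a (c (l 16203032) (l 16179832)) (c (l 16261248) (l 16191432))))) (c (c (l 15938352) (a (l 15905816) (l 16031784))) (a (l 15909024) (l 15907480)))))) (c (a (b (c (b (l 15726576) (l 15580352)) (b (l 15713368) (l 15547600))) (l 15354272)) (b (a (c (b (l 15777656) (l 15636520)) (l 15515040)) (c (b (l 15892808) (l 15761824)) (b (l 15814608) (l 15744720)))) (l 15306744))) (a (b (l 15612320) (l 15317488)) (b (l 15676016)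 (l 15441312))))) (a (b (b (b (l 16257424) (l 16466616)) (c (b (l 16431280) (l 16201696)) (b (l 16424184) (l 16301640)))) (c (b (a (l 15788320) (l 16192248)) (c (l 15775616) (l 15840800))) (b (l 16106800) (l 15823720)))) (b (c (b (l 15931064) (b (l 16326880) (l 16446240))) (b (l 16039488) (b (l 16323712) (l 16437864)))) (c (b (l 16353664) (l 16258472)) (l 16112472))))), by decide +kernel⟩

def k8_pp_022 : ∃ t, chk3 f_pp_022 t 11 6 1 = true :=
  ⟨(b (a (b (c (a (l 15561672) (l 593809533911)) (l 420937383031)) (b (l 15606296) (c (a (l 16175048) (l 15879440)) (l 15794736)))) (a (b (c (l 693667002039) (l 15120448)) (l 15370832)) (b (l 1) (l 15270264)))) (a (c (b (a (l 16364752) (l 16083496)) (a (l 16580512) (l 16315128))) (b (a (l 16345024) (l 16064792)) (l 16429216))) (c (b (a (l 15859496) (l 15690520)) (l 16048288)) (b (l 15522616) (l 16029344))))), by decide +kernel⟩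

def k9_pp_022 : ∃ t, chk3 f_pp_022 t 2 7 1 = true :=
  ⟨(b (a (a (a (c (a (l 16309728) (l 16120128)) (a (a (l 16303264) (l 16244368)) (l 16095992))) (c (a (l 15939032) (l 15776912)) (l 15828040))) (a (c (l 15547664) (l 15515136)) (c (l 15248464) (l 15229736)))) (a (a (a (c (l 15080152) (l 15036072)) (c (a (l 15122144) (l 15293416)) (l 15084672))) (c (b (l 15698392) (l 15721040)) (b (l 15821480) (l 15693608)))) (a (c (a (l 16340200) (l 16645456)) (a (l 16329800) (l 16665848))) (a (c (l 16472128) (l 16464208)) (l 16241080))))) (a (a (b (a (a (l 16341312) (c (l 16130040) (l 16113136))) (c (l 15592240) (l 15797784))) (l 15996184)) (b (b (a (l 15422592) (l 15072824)) (l 15233144)) (l 15243696))) (a (a (b (a (l 14830896) (c (l 14848912) (l 14970632))) (l 14906632)) (b (c (l 15639720) (l 15609960)) (l 15614560))) (a (b (a (l 16210512) (l 16575472)) (l 16388688)) (c (b (l 16715360) (l 16776712)) (l 16735600)))))), by decide +kernel⟩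

def k10_pp_022 : ∃ t, chk3 f_pp_022 t 3 1 1 = true :=
  ⟨(b (l 1) (a (b (a (b (b (l 1) (a (c (l 762386350455) (l 556764710007)) (l 1))) (c (b (a (l 15338360) (l 478381617031)) (a (l 15760448) (l 15401272))) (b (a (l 15395888) (l 455296002775)) (a (l 15732080) (l 15395888))))) (b (l 1) (a (a (b (l 1) (c (l 15143128) (l 15120032))) (l 1)) (l 1)))) (a (b (c (b (a (l 16048040) (l 15760448)) (l 16171112)) (a (l 16155360) (l 271687857367))) (a (b (l 16528704) (l 16714336)) (b (l 16283232) (l 16528704)))) (b (a (c (b (l 15359328) (l 15760448)) (b (l 15395888) (l 15732080))) (b (c (b (l 1) (l 15143128)) (l 611525543031)) (c (l 15422240) (l 15395888)))) (a (c (l 16171112) (l 16155360)) (b (l 15748952) (l 16038616)))))) (b (l 1) (a (b (a (b (l 1) (c (l 717289193847) (l 508446327927))) (l 1)) (a (b (l 378524298167) (l 15748952)) (b (c (l 525626278263) (l 505761973367)) (l 355975719863)))) (b (l 1) (a (b (l 1) (c (l 14848680) (l 494487684215))) (l 1))))))), by decide +kernel⟩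

theorem s11_pp_022 : ∃ t, chk3 f_pp_022 t 5 6 1 = true := ex3_a k7_pp_022 k8_pp_022

theorem s12_pp_022 : ∃ t, chk3 f_pp_022 t 2 6 1 = true := ex3_a k6_pp_022 s11_pp_022

theorem s13_pp_022 : ∃ t, chk3 f_pp_022 t 2 3 1 = true := ex3_b s12_pp_022 k9_pp_022

theorem s14_pp_022 : ∃ t, chk3 f_pp_022 t 16 5 1 = true := ex3_a k1_pp_022 k2_pp_022

theorem s15_pp_022 : ∃ t, chk3 f_pp_022 t 8 5 1 = true := ex3_a s14_pp_022 k3_pp_022

theorem s16_pp_022 : ∃ t, chk3 f_pp_022 t 8 2 1 = true := ex3_b k0_pp_022 s15_pp_022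

theorem s17_pp_022 : ∃ t, chk3 f_pp_022 t 4 2 1 = true := ex3_a s16_pp_022 k4_pp_022

theorem s18_pp_022 : ∃ t, chk3 f_pp_022 t 2 2 1 = true := ex3_a s17_pp_022 k5_pp_022

theorem s19_pp_022 : ∃ t, chk3 f_pp_022 t 2 1 1 = true := ex3_b s18_pp_022 s13_pp_022

theorem s20_pp_022 : ∃ t, chk3 f_pp_022 t 1 1 1 = true := ex3_a s19_pp_022 k10_pp_022

theorem c_pp_022 : CertFX 67108864 469762048 1073741824 536870912 1046898278 26843546 false true true .pp 0 2 2
    ndF2q0 ndF5q2 pcF2 Cut.none Ext.none :=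
  certFX2 (fam := false) (s1 := true) (s2 := true) (a := 0) (b := 2) (c := 2) (cn := .pp) (n1 := ndF2q0) (n2 := ndF5q2) (pc := pcF2) (cut := Cut.none) (xt := Ext.none) (P1 := 67108864) (W1 := 469762048) (P2 := 1073741824) (W2 := 536870912) (P3 := 1046898278) (W3 := 26843546)
    rfl (fun _ => rfl) s20_pp_022

noncomputable def f_pp_023 : ℕ → ℕ → ℕ → ℕ → Bool := onCell 1073741824 536870912 0 1230186008 1046898278 26843546
    (rowFX 2 false true true .up 0 2 3 (qsf 67108864 469762048 0 1230186008 2) ndF2q0 ndF5q3 pcF2 Cut.none Ext.none)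

def k0_pp_023 : ∃ t, chk3 f_pp_023 t 1 1 1 = true :=
  ⟨(a (b (l 2) (a (b (l 2) (b (l 2) (a (l 15796328) (l 15176064)))) (b (a (l 2) (a (l 2) (l 16771800))) (a (b (a (l 14985976) (l 15709536)) (a (a (l 14883192) (l 15043808)) (l 15652928))) (a (b (l 16422664) (l 16402448)) (l 16797672)))))) (b (a (l 2) (b (a (l 2) (l 16759464)) (a (l 16743472) (l 16743472)))) (b (a (a (l 16768088) (l 16776728)) (b (l 16777168) (l 16777200))) (a (b (l 16777216) (b (l 16764760) (a (l 16748456) (a (l 16626024) (l 16429416))))) (b (a (l 16762776) (b (l 16741376) (l 16497392))) (b (a (l 16467488) (b (l 16218008) (l 15734104))) (a (b (l 16103488) (a (l 16055848) (l 15578928))) (b (a (l 15814008) (l 15236624)) (a (b (l 15535288) (l 15325720)) (b (l 569113004103) (l 1))))))))))), by decide +kernel⟩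

theorem c_pp_023 : CertFX 67108864 469762048 0 1230186008 1046898278 26843546 false true true .up 0 2 3
    ndF2q0 ndF5q3 pcF2 Cut.none Ext.none :=
  certFX2 (fam := false) (s1 := true) (s2 := true) (a := 0) (b := 2) (c := 3) (cn := .up) (n1 := ndF2q0) (n2 := ndF5q3) (pc := pcF2) (cut := Cut.none) (xt := Ext.none) (P1 := 67108864) (W1 := 469762048) (P2 := 0) (W2 := 1230186008) (P3 := 1046898278) (W3 := 26843546)
    rfl (fun _ => rfl) k0_pp_023

noncomputable def f_pp_033 : ℕ → ℕ → ℕ → ℕ → Bool := onCell 67108864 469762048 0 1230186008 1046898278 26843546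
    (rowFX 0 false true true .pnn 0 3 3 (qsf 67108864 469762048 0 1230186008 3) ndF2q0 ndF5q3 pcF3 Cut.none Ext.none)

def k0_pp_033 : ∃ t, chk3 f_pp_033 t 1 1 1 = true :=
  ⟨(b (a (b (l 4) (b (l 4) (a (l 4) (b (a (l 4) (a (l 4) (l 16734352))) (a (c (l 16612600) (l 16397528)) (c (l 16769320) (l 16769120))))))) (b (a (l 4) (c (l 16764288) (l 16757496))) (b (a (b (l 4) (a (l 16731416) (l 16731416))) (a (l 16738040) (l 16738040))) (a (a (b (l 16734352) (l 16769224)) (l 16750656)) (l 16750656))))) (b (a (a (b (b (a (a (l 4) (c (l 15887888) (l 452278049463))) (c (a (l 16096312) (l 16300432)) (a (l 16078624) (l 16288048)))) (a (c (a (l 15582568) (l 15887848)) (a (b (l 15549776) (l 15549784)) (l 15864720))) (c (l 16199232) (l 16184208)))) (b (a (c (l 15583048) (a (l 15549824) (l 15864768))) (c (l 16199264) (l 16184248))) (a (c (l 15729880) (l 15487056)) (l 16191784)))) (b (a (b (c (l 16618912) (l 16614792)) (l 16574864)) (b (l 16777192) (l 16777144))) (a (b (l 16616848) (l 16616872))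 (l 16777200)))) (b (a (a (l 16777168) (l 16777168)) (l 1)) (a (l 16777200) (l 1)))) (a (a (b (a (b (l 15672264) (l 15672264)) (l 16191784)) (a (b (l 15672264) (b (l 15714208) (l 1))) (l 16191784))) (b (l 16657112) (l 1))) (l 1)))), by decide +kernel⟩

theorem c_pp_033 : CertFX 67108864 469762048 0 1230186008 1046898278 26843546 false true true .pnn 0 3 3
    ndF2q0 ndF5q3 pcF3 Cut.none Ext.none :=
  certFX0 (fam := false) (s1 := true) (s2 := true) (a := 0) (b := 3) (c := 3) (cn := .pnn) (n1 := ndF2q0) (n2 := ndF5q3) (pc := pcF3) (cut := Cut.none) (xt := Ext.none) (P1 := 67108864) (W1 := 469762048) (P2 := 0) (W2 := 1230186008) (P3 := 1046898278) (W3 := 26843546)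
    rfl k0_pp_033

noncomputable def f_pp_101 : ℕ → ℕ → ℕ → ℕ → Bool := onCell 536870912 536870912 536870912 469762048 1046898278 26843546
    (rowFX 0 false true true .npn 1 0 1 (qsf 536870912 536870912 536870912 469762048 0) ndF2q1 ndF5q1 pcF0 Cut.none Ext.none)

def k0_pp_101 : ∃ t, chk3 f_pp_101 t 1 1 1 = true :=
  ⟨(l 3), by decide +kernel⟩

theorem c_pp_101 : CertFX 536870912 536870912 536870912 469762048 1046898278 26843546 false true true .npn 1 0 1
    ndF2q1 ndF5q1 pcF0 Cut.none Ext.none :=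
  certFX0 (fam := false) (s1 := true) (s2 := true) (a := 1) (b := 0) (c := 1) (cn := .npn) (n1 := ndF2q1) (n2 := ndF5q1) (pc := pcF0) (cut := Cut.none) (xt := Ext.none) (P1 := 536870912) (W1 := 536870912) (P2 := 536870912) (W2 := 469762048) (P3 := 1046898278) (W3 := 26843546)
    rfl k0_pp_101

noncomputable def f_pp_102 : ℕ → ℕ → ℕ → ℕ → Bool := onCell 536870912 536870912 0 536870912 1046898278 26843546
    (rowFX 1 false true true .npp 1 0 2 (qsf 536870912 536870912 1073741824 536870912 0) ndF2q1 ndF5q2 pcF0 Cut.none Ext.none)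

def k0_pp_102 : ∃ t, chk3 f_pp_102 t 1 1 1 = true :=
  ⟨(l 3), by decide +kernel⟩

theorem c_pp_102 : CertFX 536870912 536870912 1073741824 536870912 1046898278 26843546 false true true .npp 1 0 2
    ndF2q1 ndF5q2 pcF0 Cut.none Ext.none :=
  certFX1 (fam := false) (s1 := true) (s2 := true) (a := 1) (b := 0) (c := 2) (cn := .npp) (n1 := ndF2q1) (n2 := ndF5q2) (pc := pcF0) (cut := Cut.none) (xt := Ext.none) (P1 := 536870912) (W1 := 536870912) (P2 := 1073741824) (W2 := 536870912) (P3 := 1046898278) (W3 := 26843546)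
    rfl (fun _ => rfl) k0_pp_102

noncomputable def f_pp_112 : ℕ → ℕ → ℕ → ℕ → Bool := onCell 536870912 536870912 1073741824 536870912 1046898278 26843546
    (rowFX 2 false true true .dn 1 1 2 (qsf 536870912 536870912 1073741824 536870912 1) ndF2q1 ndF5q2 pcF1 Cut.none Ext.none)

def k0_pp_112 : ∃ t, chk3 f_pp_112 t 1 1 1 = true :=
  ⟨(a (l 3) (b (a (l 3) (l 1)) (a (b (l 3) (a (l 3) (a (l 16777136) (l 16766224)))) (a (b (a (l 410739174903) (l 1)) (a (l 16596544) (l 16377536))) (b (l 1) (a (a (l 16208576) (l 16094880)) (c (l 15824384) (l 549250353415)))))))), by decide +kernel⟩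

theorem c_pp_112 : CertFX 536870912 536870912 1073741824 536870912 1046898278 26843546 false true true .dn 1 1 2
    ndF2q1 ndF5q2 pcF1 Cut.none Ext.none :=
  certFX2 (fam := false) (s1 := true) (s2 := true) (a := 1) (b := 1) (c := 2) (cn := .dn) (n1 := ndF2q1) (n2 := ndF5q2) (pc := pcF1) (cut := Cut.none) (xt := Ext.none) (P1 := 536870912) (W1 := 536870912) (P2 := 1073741824) (W2 := 536870912) (P3 := 1046898278) (W3 := 26843546)
    rfl (fun _ => rfl) k0_pp_112

noncomputable def f_pp_113 : ℕ → ℕ → ℕ → ℕ → Bool := onCell 536870912 536870912 0 1230186008 1046898278 26843546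
    (rowFX 2 false true true .nn 1 1 3 (qsf 536870912 536870912 0 1230186008 1) ndF2q1 ndF5q3 pcF1 Cut.none Ext.none)

def k0_pp_113 : ∃ t, chk3 f_pp_113 t 1 1 1 = true :=
  ⟨(b (a (l 2) (a (l 2) (b (a (l 2) (a (l 2) (l 16763208))) (a (b (l 15867584) (a (l 16188672) (l 16192312))) (b (l 16208568) (l 16157848)))))) (a (b (a (l 2) (a (l 2) (b (l 2) (b (l 2) (b (l 2) (l 3)))))) (b (a (l 2) (l 3)) (l 3))) (a (b (a (b (l 2) (a (b (a (l 2) (l 1002437398583)) (a (c (l 16339576) (l 444628687527)) (b (l 16369872) (l 16445648)))) (b (a (l 16319240) (l 16377512)) (a (l 16462384) (l 16518448))))) (a (b (a (l 1027670191191) (l 16318968)) (b (l 16467880) (l 16604552))) (b (a (l 16380152) (l 16399632)) (a (l 16617696) (l 16519136))))) (a (a (b (b (c (l 16501256) (l 341616908887)) (l 214379028919)) (l 3)) (b (b (l 16643080) (l 16769880)) (l 16771672))) (b (a (b (l 16735416) (l 16767648)) (b (l 16770720) (l 16771568))) (a (l 16774328) (l 16774488))))) (b (a (b (l 16341872) (a (l 16564744) (l 16435736)))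 (b (l 16219288) (l 16232712))) (a (b (a (l 16628240) (l 16423424)) (a (l 16606328) (l 16397520))) (a (b (a (l 16285728) (l 16207008)) (a (l 16248080) (l 16153160))) (b (l 16098088) (a (c (l 16054448) (l 16058056)) (b (l 16010136) (l 15845424)))))))))), by decide +kernel⟩

theorem c_pp_113 : CertFX 536870912 536870912 0 1230186008 1046898278 26843546 false true true .nn 1 1 3
    ndF2q1 ndF5q3 pcF1 Cut.none Ext.none :=
  certFX2 (fam := false) (s1 := true) (s2 := true) (a := 1) (b := 1) (c := 3) (cn := .nn) (n1 := ndF2q1) (n2 := ndF5q3) (pc := pcF1) (cut := Cut.none) (xt := Ext.none) (P1 := 536870912) (W1 := 536870912) (P2 := 0) (W2 := 1230186008) (P3 := 1046898278) (W3 := 26843546)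
    rfl (fun _ => rfl) k0_pp_113

noncomputable def f_pp_123 : ℕ → ℕ → ℕ → ℕ → Bool := onCell 1073741824 536870912 0 1230186008 1046898278 26843546
    (rowFX 2 false true true .npn 1 2 3 (qsf 536870912 536870912 0 1230186008 2) ndF2q1 ndF5q3 pcF2 Cut.none Ext.none)

def k0_pp_123 : ∃ t, chk3 f_pp_123 t 1 1 1 = true :=
  ⟨(a (b (a (b (a (b (l 15792384) (l 15726104)) (a (l 15634496) (l 15331224))) (a (b (l 15685912) (l 15680296)) (b (l 15508656) (l 15487520)))) (a (b (a (l 15233264) (l 15740112)) (a (a (l 15207480) (l 15349960)) (l 15845416))) (b (l 16365784) (a (l 16425776) (l 16666008))))) (a (b (a (b (l 15733296) (l 15794184)) (l 15407552)) (b (a (l 15863040) (l 15336816)) (a (l 15796328) (l 15280920)))) (b (a (a (a (l 15079576) (l 15230368)) (l 15780224)) (a (l 16447784) (l 16771800))) (a (a (b (l 14985976) (l 300140264455)) (b (l 15709536) (l 1))) (a (l 332355499479) (l 16776704)))))) (b (a (b (a (l 16604832) (l 16753408)) (a (l 16688336) (l 16740856))) (b (a (l 16759464) (l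 16759464)) (a (l 16743472) (l 16743472)))) (b (a (b (l 16769712) (l 16777200)) (l 529925145095)) (l 1)))), by decide +kernel⟩

theorem c_pp_123 : CertFX 536870912 536870912 0 1230186008 1046898278 26843546 false true true .npn 1 2 3
    ndF2q1 ndF5q3 pcF2 Cut.none Ext.none :=
  certFX2 (fam := false) (s1 := true) (s2 := true) (a := 1) (b := 2) (c := 3) (cn := .npn) (n1 := ndF2q1) (n2 := ndF5q3) (pc := pcF2) (cut := Cut.none) (xt := Ext.none) (P1 := 536870912) (W1 := 536870912) (P2 := 0) (W2 := 1230186008) (P3 := 1046898278) (W3 := 26843546)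
    rfl (fun _ => rfl) k0_pp_123

noncomputable def f_pp_133 : ℕ → ℕ → ℕ → ℕ → Bool := onCell 1610612736 536870912 0 1230186008 1046898278 26843546
    (rowFX 2 false true true .dn 1 3 3 (qsf 536870912 536870912 0 1230186008 3) ndF2q1 ndF5q3 pcF3 Cut.none Ext.none)

def k0_pp_133 : ∃ t, chk3 f_pp_133 t 1 1 1 = true :=
  ⟨(a (b (b (b (l 4) (l 1)) (l 1)) (l 1)) (l 1)), by decide +kernel⟩

theorem c_pp_133 : CertFX 536870912 536870912 0 1230186008 1046898278 26843546 false true true .dn 1 3 3
    ndF2q1 ndF5q3 pcF3 Cut.none Ext.none :=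
  certFX2 (fam := false) (s1 := true) (s2 := true) (a := 1) (b := 3) (c := 3) (cn := .dn) (n1 := ndF2q1) (n2 := ndF5q3) (pc := pcF3) (cut := Cut.none) (xt := Ext.none) (P1 := 536870912) (W1 := 536870912) (P2 := 0) (W2 := 1230186008) (P3 := 1046898278) (W3 := 26843546)
    rfl (fun _ => rfl) k0_pp_133

noncomputable def f_pp_202_a : ℕ → ℕ → ℕ → ℕ → Bool := onCell 0 420477299 1073741824 536870912 1046898278 26843546
    (rowFX 0 false true true .pp 2 0 2 (qsf 0 420477299 1073741824 536870912 0) ndF2q2a ndF5q2 pcF0 Cut.none Ext.none)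

def k0_pp_202_a : ∃ t, chk3 f_pp_202_a t 1 1 1 = true :=
  ⟨(l 3), by decide +kernel⟩

theorem c_pp_202_a : CertFX 0 420477299 1073741824 536870912 1046898278 26843546 false true true .pp 2 0 2
    ndF2q2a ndF5q2 pcF0 Cut.none Ext.none :=
  certFX0 (fam := false) (s1 := true) (s2 := true) (a := 2) (b := 0) (c := 2) (cn := .pp) (n1 := ndF2q2a) (n2 := ndF5q2) (pc := pcF0) (cut := Cut.none) (xt := Ext.none) (P1 := 0) (W1 := 420477299) (P2 := 1073741824) (W2 := 536870912) (P3 := 1046898278) (W3 := 26843546)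
    rfl k0_pp_202_a

noncomputable def f_pp_202_b : ℕ → ℕ → ℕ → ℕ → Bool := onCell 1239849684 370763052 1073741824 536870912 1046898278 26843546
    (rowFX 0 false true true .pp 2 0 2 (qsf 1239849684 370763052 1073741824 536870912 0) ndF2q2b ndF5q2 pcF0 Cut.none Ext.none)

def k0_pp_202_b : ∃ t, chk3 f_pp_202_b t 1 1 1 = true :=
  ⟨(l 3), by decide +kernel⟩

theorem c_pp_202_b : CertFX 1239849684 370763052 1073741824 536870912 1046898278 26843546 false true true .pp 2 0 2
    ndF2q2b ndF5q2 pcF0 Cut.none Ext.none :=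
  certFX0 (fam := false) (s1 := true) (s2 := true) (a := 2) (b := 0) (c := 2) (cn := .pp) (n1 := ndF2q2b) (n2 := ndF5q2) (pc := pcF0) (cut := Cut.none) (xt := Ext.none) (P1 := 1239849684) (W1 := 370763052) (P2 := 1073741824) (W2 := 536870912) (P3 := 1046898278) (W3 := 26843546)
    rfl k0_pp_202_b

noncomputable def f_pp_203_a : ℕ → ℕ → ℕ → ℕ → Bool := onCell 0 420477299 0 1230186008 1046898278 26843546
    (rowFX 0 false true true .up 2 0 3 (qsf 0 420477299 0 1230186008 0) ndF2q2a ndF5q3 pcF0 Cut.none Ext.none)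

def k0_pp_203_a : ∃ t, chk3 f_pp_203_a t 1 1 1 = true :=
  ⟨(b (l 2) (l 3)), by decide +kernel⟩

theorem c_pp_203_a : CertFX 0 420477299 0 1230186008 1046898278 26843546 false true true .up 2 0 3
    ndF2q2a ndF5q3 pcF0 Cut.none Ext.none :=
  certFX0 (fam := false) (s1 := true) (s2 := true) (a := 2) (b := 0) (c := 3) (cn := .up) (n1 := ndF2q2a) (n2 := ndF5q3) (pc := pcF0) (cut := Cut.none) (xt := Ext.none) (P1 := 0) (W1 := 420477299) (P2 := 0) (W2 := 1230186008) (P3 := 1046898278) (W3 := 26843546)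
    rfl k0_pp_203_a

noncomputable def f_pp_203_b : ℕ → ℕ → ℕ → ℕ → Bool := onCell 1239849684 370763052 0 1230186008 1046898278 26843546
    (rowFX 0 false true true .up 2 0 3 (qsf 1239849684 370763052 0 1230186008 0) ndF2q2b ndF5q3 pcF0 Cut.none Ext.none)

def k0_pp_203_b : ∃ t, chk3 f_pp_203_b t 1 1 1 = true :=
  ⟨(b (l 3) (l 3)), by decide +kernel⟩

theorem c_pp_203_b : CertFX 1239849684 370763052 0 1230186008 1046898278 26843546 false true true .up 2 0 3
    ndF2q2b ndF5q3 pcF0 Cut.none Ext.none :=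
  certFX0 (fam := false) (s1 := true) (s2 := true) (a := 2) (b := 0) (c := 3) (cn := .up) (n1 := ndF2q2b) (n2 := ndF5q3) (pc := pcF0) (cut := Cut.none) (xt := Ext.none) (P1 := 1239849684) (W1 := 370763052) (P2 := 0) (W2 := 1230186008) (P3 := 1046898278) (W3 := 26843546)
    rfl k0_pp_203_b

noncomputable def f_pp_213_a : ℕ → ℕ → ℕ → ℕ → Bool := onCell 0 420477299 0 1230186008 1046898278 26843546
    (rowFX 0 false true true .pnn 2 1 3 (qsf 0 420477299 0 1230186008 1) ndF2q2a ndF5q3 pcF1 Cut.none Ext.none)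

def k0_pp_213_a : ∃ t, chk3 f_pp_213_a t 1 1 1 = true :=
  ⟨(b (l 3) (l 3)), by decide +kernel⟩

theorem c_pp_213_a : CertFX 0 420477299 0 1230186008 1046898278 26843546 false true true .pnn 2 1 3
    ndF2q2a ndF5q3 pcF1 Cut.none Ext.none :=
  certFX0 (fam := false) (s1 := true) (s2 := true) (a := 2) (b := 1) (c := 3) (cn := .pnn) (n1 := ndF2q2a) (n2 := ndF5q3) (pc := pcF1) (cut := Cut.none) (xt := Ext.none) (P1 := 0) (W1 := 420477299) (P2 := 0) (W2 := 1230186008) (P3 := 1046898278) (W3 := 26843546)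
    rfl k0_pp_213_a

noncomputable def f_pp_213_b : ℕ → ℕ → ℕ → ℕ → Bool := onCell 1239849684 370763052 0 1230186008 1046898278 26843546
    (rowFX 0 false true true .pnn 2 1 3 (qsf 1239849684 370763052 0 1230186008 1) ndF2q2b ndF5q3 pcF1 Cut.none Ext.none)

def k0_pp_213_b : ∃ t, chk3 f_pp_213_b t 1 1 1 = true :=
  ⟨(b (l 3) (l 3)), by decide +kernel⟩

theorem c_pp_213_b : CertFX 1239849684 370763052 0 1230186008 1046898278 26843546 false true true .pnn 2 1 3
    ndF2q2b ndF5q3 pcF1 Cut.none Ext.none :=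
  certFX0 (fam := false) (s1 := true) (s2 := true) (a := 2) (b := 1) (c := 3) (cn := .pnn) (n1 := ndF2q2b) (n2 := ndF5q3) (pc := pcF1) (cut := Cut.none) (xt := Ext.none) (P1 := 1239849684) (W1 := 370763052) (P2 := 0) (W2 := 1230186008) (P3 := 1046898278) (W3 := 26843546)
    rfl k0_pp_213_b

noncomputable def f_pp_303 : ℕ → ℕ → ℕ → ℕ → Bool := onCell 1610612736 469762048 0 1230186008 1046898278 26843546
    (rowFX 0 false true true .npn 3 0 3 (qsf 1610612736 469762048 0 1230186008 0) ndF2q3 ndF5q3 pcF0 Cut.none Ext.none)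

def k0_pp_303 : ∃ t, chk3 f_pp_303 t 1 1 1 = true :=
  ⟨(b (l 3) (l 3)), by decide +kernel⟩

theorem c_pp_303 : CertFX 1610612736 469762048 0 1230186008 1046898278 26843546 false true true .npn 3 0 3
    ndF2q3 ndF5q3 pcF0 Cut.none Ext.none :=
  certFX0 (fam := false) (s1 := true) (s2 := true) (a := 3) (b := 0) (c := 3) (cn := .npn) (n1 := ndF2q3) (n2 := ndF5q3) (pc := pcF0) (cut := Cut.none) (xt := Ext.none) (P1 := 1610612736) (W1 := 469762048) (P2 := 0) (W2 := 1230186008) (P3 := 1046898278) (W3 := 26843546)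
    rfl k0_pp_303

noncomputable def f_pp_313 : ℕ → ℕ → ℕ → ℕ → Bool := onCell 1610612736 469762048 0 1230186008 1046898278 26843546
    (rowFX 0 false true true .dn 3 1 3 (qsf 1610612736 469762048 0 1230186008 1) ndF2q3 ndF5q3 pcF1 Cut.none Ext.none)

def k0_pp_313 : ∃ t, chk3 f_pp_313 t 1 1 1 = true :=
  ⟨(b (l 3) (l 1)), by decide +kernel⟩

theorem c_pp_313 : CertFX 1610612736 469762048 0 1230186008 1046898278 26843546 false true true .dn 3 1 3
    ndF2q3 ndF5q3 pcF1 Cut.none Ext.none :=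
  certFX0 (fam := false) (s1 := true) (s2 := true) (a := 3) (b := 1) (c := 3) (cn := .dn) (n1 := ndF2q3) (n2 := ndF5q3) (pc := pcF1) (cut := Cut.none) (xt := Ext.none) (P1 := 1610612736) (W1 := 469762048) (P2 := 0) (W2 := 1230186008) (P3 := 1046898278) (W3 := 26843546)
    rfl k0_pp_313

noncomputable def f_pm_001 : ℕ → ℕ → ℕ → ℕ → Bool := onCell 67108864 469762048 536870912 469762048 1046898278 26843546
    (rowFX 0 false true false .up 0 0 1 (qsf 67108864 469762048 536870912 469762048 0) ndF2q0 ndF5q1 pcF0 Cut.none Ext.none)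

def k0_pm_001 : ∃ t, chk3 f_pm_001 t 1 1 1 = true :=
  ⟨(l 4), by decide +kernel⟩

theorem c_pm_001 : CertFX 67108864 469762048 536870912 469762048 1046898278 26843546 false true false .up 0 0 1
    ndF2q0 ndF5q1 pcF0 Cut.none Ext.none :=
  certFX0 (fam := false) (s1 := true) (s2 := false) (a := 0) (b := 0) (c := 1) (cn := .up) (n1 := ndF2q0) (n2 := ndF5q1) (pc := pcF0) (cut := Cut.none) (xt := Ext.none) (P1 := 67108864) (W1 := 469762048) (P2 := 536870912) (W2 := 469762048) (P3 := 1046898278) (W3 := 26843546)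
    rfl k0_pm_001

noncomputable def f_pm_011 : ℕ → ℕ → ℕ → ℕ → Bool := onCell 67108864 469762048 536870912 469762048 1046898278 26843546
    (rowFX 0 false true false .pnn 0 1 1 (qsf 67108864 469762048 536870912 469762048 1) ndF2q0 ndF5q1 pcF1 Cut.none Ext.none)

def k0_pm_011 : ∃ t, chk3 f_pm_011 t 1 1 1 = true :=
  ⟨(l 4), by decide +kernel⟩

theorem c_pm_011 : CertFX 67108864 469762048 536870912 469762048 1046898278 26843546 false true false .pnn 0 1 1
    ndF2q0 ndF5q1 pcF1 Cut.none Ext.none :=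
  certFX0 (fam := false) (s1 := true) (s2 := false) (a := 0) (b := 1) (c := 1) (cn := .pnn) (n1 := ndF2q0) (n2 := ndF5q1) (pc := pcF1) (cut := Cut.none) (xt := Ext.none) (P1 := 67108864) (W1 := 469762048) (P2 := 536870912) (W2 := 469762048) (P3 := 1046898278) (W3 := 26843546)
    rfl k0_pm_011

noncomputable def f_pm_012 : ℕ → ℕ → ℕ → ℕ → Bool := onCell 67108864 469762048 1073741824 536870912 1046898278 26843546
    (rowFX 0 false true false .pnp 0 1 2 (qsf 67108864 469762048 1073741824 536870912 1) ndF2q0 ndF5q2 pcF1 Cut.none Ext.none)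

def k0_pm_012 : ∃ t, chk3 f_pm_012 t 1 1 1 = true :=
  ⟨(l 4), by decide +kernel⟩

theorem c_pm_012 : CertFX 67108864 469762048 1073741824 536870912 1046898278 26843546 false true false .pnp 0 1 2
    ndF2q0 ndF5q2 pcF1 Cut.none Ext.none :=
  certFX0 (fam := false) (s1 := true) (s2 := false) (a := 0) (b := 1) (c := 2) (cn := .pnp) (n1 := ndF2q0) (n2 := ndF5q2) (pc := pcF1) (cut := Cut.none) (xt := Ext.none) (P1 := 67108864) (W1 := 469762048) (P2 := 1073741824) (W2 := 536870912) (P3 := 1046898278) (W3 := 26843546)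
    rfl k0_pm_012

noncomputable def f_pm_022 : ℕ → ℕ → ℕ → ℕ → Bool := onCell 67108864 469762048 1073741824 536870912 1046898278 26843546
    (rowFX 0 false true false .pp 0 2 2 (qsf 67108864 469762048 1073741824 536870912 2) ndF2q0 ndF5q2 pcF2 Cut.none Ext.none)

def k0_pm_022 : ∃ t, chk3 f_pm_022 t 1 1 1 = true :=
  ⟨(l 4), by decide +kernel⟩

theorem c_pm_022 : CertFX 67108864 469762048 1073741824 536870912 1046898278 26843546 false true false .pp 0 2 2
    ndF2q0 ndF5q2 pcF2 Cut.none Ext.none :=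
  certFX0 (fam := false) (s1 := true) (s2 := false) (a := 0) (b := 2) (c := 2) (cn := .pp) (n1 := ndF2q0) (n2 := ndF5q2) (pc := pcF2) (cut := Cut.none) (xt := Ext.none) (P1 := 67108864) (W1 := 469762048) (P2 := 1073741824) (W2 := 536870912) (P3 := 1046898278) (W3 := 26843546)
    rfl k0_pm_022

noncomputable def f_pm_023 : ℕ → ℕ → ℕ → ℕ → Bool := onCell 67108864 469762048 0 1230186008 1046898278 26843546
    (rowFX 0 false true false .up 0 2 3 (qsf 67108864 469762048 0 1230186008 2) ndF2q0 ndF5q3 pcF2 Cut.none Ext.none)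

def k0_pm_023 : ∃ t, chk3 f_pm_023 t 1 1 1 = true :=
  ⟨(b (b (l 4) (l 4)) (l 4)), by decide +kernel⟩

theorem c_pm_023 : CertFX 67108864 469762048 0 1230186008 1046898278 26843546 false true false .up 0 2 3
    ndF2q0 ndF5q3 pcF2 Cut.none Ext.none :=
  certFX0 (fam := false) (s1 := true) (s2 := false) (a := 0) (b := 2) (c := 3) (cn := .up) (n1 := ndF2q0) (n2 := ndF5q3) (pc := pcF2) (cut := Cut.none) (xt := Ext.none) (P1 := 67108864) (W1 := 469762048) (P2 := 0) (W2 := 1230186008) (P3 := 1046898278) (W3 := 26843546)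
    rfl k0_pm_023

noncomputable def f_pm_033 : ℕ → ℕ → ℕ → ℕ → Bool := onCell 67108864 469762048 0 1230186008 1046898278 26843546
    (rowFX 0 false true false .pnn 0 3 3 (qsf 67108864 469762048 0 1230186008 3) ndF2q0 ndF5q3 pcF3 Cut.none Ext.none)

def k0_pm_033 : ∃ t, chk3 f_pm_033 t 1 1 1 = true :=
  ⟨(b (b (l 4) (l 4)) (l 4)), by decide +kernel⟩

theorem c_pm_033 : CertFX 67108864 469762048 0 1230186008 1046898278 26843546 false true false .pnn 0 3 3
    ndF2q0 ndF5q3 pcF3 Cut.none Ext.none :=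
  certFX0 (fam := false) (s1 := true) (s2 := false) (a := 0) (b := 3) (c := 3) (cn := .pnn) (n1 := ndF2q0) (n2 := ndF5q3) (pc := pcF3) (cut := Cut.none) (xt := Ext.none) (P1 := 67108864) (W1 := 469762048) (P2 := 0) (W2 := 1230186008) (P3 := 1046898278) (W3 := 26843546)
    rfl k0_pm_033

noncomputable def f_pm_101 : ℕ → ℕ → ℕ → ℕ → Bool := onCell 536870912 536870912 536870912 469762048 1046898278 26843546
    (rowFX 0 false true false .npn 1 0 1 (qsf 536870912 536870912 536870912 469762048 0) ndF2q1 ndF5q1 pcF0 Cut.none Ext.none)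

def k0_pm_101 : ∃ t, chk3 f_pm_101 t 1 1 1 = true :=
  ⟨(l 4), by decide +kernel⟩

theorem c_pm_101 : CertFX 536870912 536870912 536870912 469762048 1046898278 26843546 false true false .npn 1 0 1
    ndF2q1 ndF5q1 pcF0 Cut.none Ext.none :=
  certFX0 (fam := false) (s1 := true) (s2 := false) (a := 1) (b := 0) (c := 1) (cn := .npn) (n1 := ndF2q1) (n2 := ndF5q1) (pc := pcF0) (cut := Cut.none) (xt := Ext.none) (P1 := 536870912) (W1 := 536870912) (P2 := 536870912) (W2 := 469762048) (P3 := 1046898278) (W3 := 26843546)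
    rfl k0_pm_101

noncomputable def f_pm_102 : ℕ → ℕ → ℕ → ℕ → Bool := onCell 536870912 536870912 1073741824 536870912 1046898278 26843546
    (rowFX 0 false true false .npp 1 0 2 (qsf 536870912 536870912 1073741824 536870912 0) ndF2q1 ndF5q2 pcF0 Cut.none Ext.none)

def k0_pm_102 : ∃ t, chk3 f_pm_102 t 1 1 1 = true :=
  ⟨(a (l 4) (a (l 4) (b (a (l 4) (a (l 4) (b (l 4) (b (b (l 4) (l 15286416)) (b (l 15975544) (l 16412272)))))) (b (a (l 4) (b (l 16465584) (l 16465584))) (c (l 16571720) (l 16566384)))))), by decide +kernel⟩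

theorem c_pm_102 : CertFX 536870912 536870912 1073741824 536870912 1046898278 26843546 false true false .npp 1 0 2
    ndF2q1 ndF5q2 pcF0 Cut.none Ext.none :=
  certFX0 (fam := false) (s1 := true) (s2 := false) (a := 1) (b := 0) (c := 2) (cn := .npp) (n1 := ndF2q1) (n2 := ndF5q2) (pc := pcF0) (cut := Cut.none) (xt := Ext.none) (P1 := 536870912) (W1 := 536870912) (P2 := 1073741824) (W2 := 536870912) (P3 := 1046898278) (W3 := 26843546)
    rfl k0_pm_102

noncomputable def f_pm_112 : ℕ → ℕ → ℕ → ℕ → Bool := onCell 536870912 536870912 1073741824 536870912 1046898278 26843546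
    (rowFX 2 false true false .dn 1 1 2 (qsf 536870912 536870912 1073741824 536870912 1) ndF2q1 ndF5q2 pcF1 Cut.none Ext.none)

def k0_pm_112 : ∃ t, chk3 f_pm_112 t 1 1 1 = true :=
  ⟨(a (b (l 4) (a (b (l 4) (a (l 16648216) (l 16751088))) (l 4))) (l 4)), by decide +kernel⟩

theorem c_pm_112 : CertFX 536870912 536870912 1073741824 536870912 1046898278 26843546 false true false .dn 1 1 2
    ndF2q1 ndF5q2 pcF1 Cut.none Ext.none :=
  certFX2 (fam := false) (s1 := true) (s2 := false) (a := 1) (b := 1) (c := 2) (cn := .dn) (n1 := ndF2q1) (n2 := ndF5q2) (pc := pcF1) (cut := Cut.none) (xt := Ext.none) (P1 := 536870912) (W1 := 536870912) (P2 := 1073741824) (W2 := 536870912) (P3 := 1046898278) (W3 := 26843546)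
    rfl (fun _ => rfl) k0_pm_112

noncomputable def f_pm_113 : ℕ → ℕ → ℕ → ℕ → Bool := onCell 536870912 536870912 0 1230186008 1046898278 26843546
    (rowFX 2 false true false .nn 1 1 3 (qsf 536870912 536870912 0 1230186008 1) ndF2q1 ndF5q3 pcF1 Cut.none Ext.none)

def k0_pm_113 : ∃ t, chk3 f_pm_113 t 1 2 1 = true :=
  ⟨(a (l 2) (a (l 2) (b (a (l 2) (a (l 2) (b (l 16746080) (l 16575720)))) (a (b (l 1333686043415) (l 16001472)) (b (a (l 16062720) (l 15642760)) (a (l 15532112) (l 15060136))))))), by decide +kernel⟩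

def k1_pm_113 : ∃ t, chk3 f_pm_113 t 1 3 1 = true :=
  ⟨(a (b (a (l 2) (b (l 2) (a (l 2) (l 16160800)))) (a (b (l 2) (a (b (l 2) (l 16348736)) (l 16452384))) (b (b (l 16281896) (a (a (l 16296968) (l 16376952)) (a (l 16407696) (l 16456984)))) (a (b (l 16515544) (l 16659120)) (a (l 16525008) (l 16450008)))))) (a (b (a (b (l 2) (b (l 16293520) (l 16431416))) (b (l 16290392) (b (l 16442832) (a (b (l 16561928) (b (l 16583544) (l 16597360))) (b (l 16481952) (b (a (l 16593216) (l 16323192)) (a (l 16356216) (l 16042200)))))))) (a (b (a (b (l 16540128) (b (b (l 16596776) (l 16511368)) (l 16313424))) (b (b (l 16551000) (b (l 16477736) (l 16388168))) (a (b (l 16319144) (l 15850112)) (l 15987264)))) (a (b (l 16352664) (l 4)) (l 4))) (b (a (b (a (b (l 16398288) (l 15972344)) (b (l 16138368) (l 15839048))) (l 15684248)) (b (a (a (b (l 15793256) (l 15532664)) (b (l 15632888) (l 15327776))) (b (l 15515840) (l 15213016))) (l 15280360))) (l 4)))) (b (b (a (l 15803392) (a (l 15118000) (l 14582512)))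 (a (b (l 15698952) (a (a (b (l 16030840) (l 15990080)) (b (l 15728736) (b (l 15609448) (l 15167208)))) (c (b (l 15288656) (a (l 15171560) (l 14710360))) (b (l 15258592) (a (l 15143592) (l 14680608)))))) (a (b (l 14820040) (a (c (c (l 14760592) (l 14809904)) (l 14778312)) (c (l 14451144) (l 14471080)))) (c (a (l 14170112) (l 13915120)) (a (b (l 14322416) (l 14138696)) (c (l 13893000) (l 33514606775))))))) (b (a (a (a (b (l 15338016) (l 4)) (c (l 15167640) (l 15126440))) (c (l 14631784) (l 14600616))) (l 4)) (l 4))))), by decide +kernel⟩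

theorem s2_pm_113 : ∃ t, chk3 f_pm_113 t 1 1 1 = true := ex3_b k0_pm_113 k1_pm_113

theorem c_pm_113 : CertFX 536870912 536870912 0 1230186008 1046898278 26843546 false true false .nn 1 1 3
    ndF2q1 ndF5q3 pcF1 Cut.none Ext.none :=
  certFX2 (fam := false) (s1 := true) (s2 := false) (a := 1) (b := 1) (c := 3) (cn := .nn) (n1 := ndF2q1) (n2 := ndF5q3) (pc := pcF1) (cut := Cut.none) (xt := Ext.none) (P1 := 536870912) (W1 := 536870912) (P2 := 0) (W2 := 1230186008) (P3 := 1046898278) (W3 := 26843546)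
    rfl (fun _ => rfl) s2_pm_113

noncomputable def f_pm_123 : ℕ → ℕ → ℕ → ℕ → Bool := onCell 1073741824 536870912 0 1230186008 1046898278 26843546
    (rowFX 2 false true false .npn 1 2 3 (qsf 536870912 536870912 0 1230186008 2) ndF2q1 ndF5q3 pcF2 Cut.none Ext.none)

def k0_pm_123 : ∃ t, chk3 f_pm_123 t 1 1 1 = true :=
  ⟨(b (a (a (b (a (b (l 15727448) (l 15387016)) (a (l 15458352) (l 15251576))) (a (b (l 14994408) (l 14394080)) (b (l 15045184) (a (l 14821640) (l 14935472))))) (a (b (a (l 15239752) (l 15697008)) (a (b (l 15189864) (l 15180920)) (l 15577184))) (b (l 16246952) (a (l 15903384) (l 16143936))))) (a (a (b (l 16546184) (b (l 16459184) (l 16442488))) (b (l 16751592) (b (l 16728888) (l 4)))) (b (a (l 16759464) (l 16759464)) (l 4)))) (b (a (b (a (a (a (l 14216840) (l 14402248)) (a (l 14596520) (l 14842928))) (a (a (l 15187800) (l 15536984)) (l 4))) (a (a (c (l 14067320) (a (l 13879792) (l 14167240))) (a (l 14489216) (l 4))) (l 4))) (l 4)) (a (l 4) (l 1)))), by decide +kernel⟩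

theorem c_pm_123 : CertFX 536870912 536870912 0 1230186008 1046898278 26843546 false true false .npn 1 2 3
    ndF2q1 ndF5q3 pcF2 Cut.none Ext.none :=
  certFX2 (fam := false) (s1 := true) (s2 := false) (a := 1) (b := 2) (c := 3) (cn := .npn) (n1 := ndF2q1) (n2 := ndF5q3) (pc := pcF2) (cut := Cut.none) (xt := Ext.none) (P1 := 536870912) (W1 := 536870912) (P2 := 0) (W2 := 1230186008) (P3 := 1046898278) (W3 := 26843546)
    rfl (fun _ => rfl) k0_pm_123

noncomputable def f_pm_133 : ℕ → ℕ → ℕ → ℕ → Bool := onCell 1610612736 536870912 0 1230186008 1046898278 26843546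
    (rowFX 2 false true false .dn 1 3 3 (qsf 536870912 536870912 0 1230186008 3) ndF2q1 ndF5q3 pcF3 Cut.none Ext.none)

def k0_pm_133 : ∃ t, chk3 f_pm_133 t 1 1 1 = true :=
  ⟨(a (b (b (l 4) (l 1)) (l 1)) (l 1)), by decide +kernel⟩

theorem c_pm_133 : CertFX 536870912 536870912 0 1230186008 1046898278 26843546 false true false .dn 1 3 3
    ndF2q1 ndF5q3 pcF3 Cut.none Ext.none :=
  certFX2 (fam := false) (s1 := true) (s2 := false) (a := 1) (b := 3) (c := 3) (cn := .dn) (n1 := ndF2q1) (n2 := ndF5q3) (pc := pcF3) (cut := Cut.none) (xt := Ext.none) (P1 := 536870912) (W1 := 536870912) (P2 := 0) (W2 := 1230186008) (P3 := 1046898278) (W3 := 26843546)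
    rfl (fun _ => rfl) k0_pm_133

noncomputable def f_pm_202_a : ℕ → ℕ → ℕ → ℕ → Bool := onCell 0 420477299 0 536870912 1046898278 26843546
    (rowFX 1 false true false .pp 2 0 2 (qsf 0 420477299 1073741824 536870912 0) ndF2q2a ndF5q2 pcF0 Cut.none Ext.none)

def k0_pm_202_a : ∃ t, chk3 f_pm_202_a t 2 2 1 = true :=
  ⟨(b (a (l 3) (a (l 3) (a (l 3) (b (b (b (c (b (b (l 16178048) (b (l 16144168) (l 157469558871))) (c (l 16203512) (l 16227512))) (b (c (b (b (l 16222448) (a (l 16197808) (l 16201496))) (b (a (l 16209976) (b (l 16180856) (l 16170480))) (l 16214064))) (b (c (b (l 16218936) (a (l 16192344) (l 16173640))) (b (c (l 16217016) (l 16213856)) (l 16166800))) (c (a (l 16220368) (l 16106056)) (l 16107880)))) (c (b (l 16268184) (l 16346272)) (c (l 16165856) (l 16286760))))) (c (b (c (l 16304696) (l 16313208)) (c (l 16242432) (l 16207008))) (c (b (c (l 16466080) (l 16412624)) (l 16213792)) (l 16342608)))) (a (l 3) (a (l 3) (b (c (c (l 16176696) (l 16186176)) (l 16282552)) (l 3)))))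 (l 3))))) (l 3)), by decide +kernel⟩

def k1_pm_202_a : ∃ t, chk3 f_pm_202_a t 6 32 1 = true :=
  ⟨(c (b (a (b (a (l 16231296) (l 16125448)) (a (c (l 16188272) (b (l 16193776) (l 16168784))) (c (l 16196424) (c (l 16184096) (b (l 16186768) (l 16159352)))))) (b (a (l 16133760) (l 16219728)) (c (a (l 16198568) (l 16213496)) (b (l 16119376) (c (a (l 16163720) (l 16173360)) (a (c (l 16157616) (l 16158688)) (l 16167000))))))) (a (c (a (b (a (l 16180016) (l 16151696)) (l 16158536)) (b (l 16148760) (a (l 16108032) (l 16101088)))) (b (a (a (l 16166352) (l 16134512)) (c (l 16137952) (l 16133216))) (a (l 16159536) (a (l 16081912) (l 16081176))))) (c (b (a (l 16098056) (c (l 16132576) (b (l 16141080) (l 16111592)))) (a (l 16098520) (c (l 16092232) (l 16094880)))) (b (c (a (b (l 16133480) (l 16120408)) (b (a (l 16136264) (l 16138280)) (l 16125784))) (b (a (l 16141016) (l 16148792)) (l 16100288))) (c (a (l 16096368) (l 16109312)) (l 16063200)))))) (b (c (b (a (c (l 16231192) (l 16122664)) (l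 16255000)) (a (c (a (a (l 16171008) (l 16171760)) (b (l 16101800) (l 16115072))) (b (a (a (l 16178488) (l 16172896)) (l 16169792)) (a (l 16155824) (l 16168840)))) (c (b (l 16194160) (l 16061144)) (l 16190784)))) (b (c (a (b (l 16241368) (a (l 16136960) (l 16209528))) (l 16225952)) (a (b (c (l 16235264) (l 16230400)) (l 16204576)) (b (l 16215512) (l 16227528)))) (a (c (a (l 16162464) (l 16173944)) (l 16162120)) (l 16143672)))) (a (c (b (a (c (a (l 16151624) (l 16117544)) (l 16134088)) (b (l 16072144) (l 16109744))) (a (l 16116232) (l 16059640))) (a (b (c (l 16079576) (l 16114768)) (l 16098624)) (b (l 16103136) (l 16038400)))) (c (b (c (l 16053008) (l 16147120)) (l 16082712)) (l 16084808))))), by decide +kernel⟩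

def k2_pm_202_a : ∃ t, chk3 f_pm_202_a t 6 33 1 = true :=
  ⟨(c (a (b (b (a (a (l 16318440) (l 16189048)) (a (b (l 16087640) (l 16121440)) (c (l 16054680) (l 16027984)))) (a (a (l 16252560) (l 16292944)) (c (l 16074344) (l 16113864)))) (c (a (l 16325032) (l 16097664)) (a (l 16303216) (l 16094088)))) (a (b (c (b (l 16051424) (a (l 15999440) (l 15989848))) (b (l 16032640) (l 15970528))) (b (a (l 16011416) (c (l 15937424) (l 15907512))) (a (l 15922160) (l 15952960)))) (b (c (b (l 16062056) (l 16004912)) (l 15945160)) (b (l 15836168) (a (l 15836880) (l 15841016)))))) (a (b (c (a (a (b (l 16226936) (l 16346264)) (l 16046744)) (c (l 15935840) (b (l 16000488) (l 16082256)))) (a (l 16217416) (a (l 16096808) (l 15895272)))) (c (a (l 16240192) (l 16052064)) (l 16079920))) (b (b (c (l 16012152) (l 15989744)) (a (c (l 15833352) (l 15926648)) (l 15927056))) (a (c (b (l 15803392) (l 15973744)) (a (l 16014168) (l 15871168))) (c (b (l 15870456) (a (l 15814824) (l 15795896))) (a (l 15836312) (l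 15828680))))))), by decide +kernel⟩

def k3_pm_202_a : ∃ t, chk3 f_pm_202_a t 7 16 1 = true :=
  ⟨(b (c (a (b (c (l 16311128) (b (l 16337744) (l 16100168))) (c (a (b (a (c (l 16137352) (b (l 16144648) (l 16115000))) (l 16157072)) (c (c (l 15987144) (l 16099856)) (l 16114824))) (b (l 16188312) (l 16163736))) (b (l 16107904) (b (l 16174704) (c (l 16083408) (l 16162264)))))) (b (c (l 16425064) (b (l 16496768) (l 16234728))) (b (c (a (l 16222960) (l 16245744)) (l 16218552)) (c (l 16281536) (l 16251568))))) (b (c (a (b (l 16318408) (c (l 16245472) (l 16188816))) (b (l 16457872) (c (l 16297416) (l 16262680)))) (a (b (c (b (l 16326648) (l 16291976)) (b (c (l 16322760) (l 16257352)) (l 16290720))) (c (l 16250920) (l 16236984))) (b (c (b (l 16489016) (a (l 16406552) (l 16476936))) (b (c (l 16485712) (a (l 16436664) (l 16529440))) (l 16410416))) (c (l 16367568) (l 16396224))))) (c (a (b (l 16141352) (l 16141640)) (b (l 16232928) (l 16293056))) (a (l 16138952) (l 16293088))))) (c (a (b (c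 (c (a (b (l 16076008) (l 16044816)) (b (l 16141600) (l 16118064))) (b (a (l 16092680) (l 16158352)) (l 16014840))) (c (b (l 16026168) (l 16057264)) (l 16070232))) (c (a (l 15925864) (l 16001752)) (l 15872672))) (b (c (b (l 16263592) (l 16041608)) (l 15973056)) (c (a (l 16087840) (l 16168944)) (l 16069120)))) (a (c (b (l 15988728) (l 15795384)) (l 15764072)) (c (l 15907536) (l 16073784))))), by decide +kernel⟩

def k4_pm_202_a : ∃ t, chk3 f_pm_202_a t 6 17 1 = true :=
  ⟨(c (b (b (a (c (a (l 16271240) (l 16382968)) (c (l 16264056) (l 16229496))) (a (c (l 16004832) (c (l 16129448) (l 16094880))) (b (a (l 15886384) (c (l 15803896) (l 15772168))) (l 15741096)))) (a (c (a (a (l 16257864) (b (l 16399336) (l 16339352))) (l 16296808)) (c (a (a (l 16284744) (l 16398840)) (l 16406592)) (l 16248160))) (c (a (l 16191064) (l 15827552)) (c (a (l 16233384) (l 15952008)) (l 15977488))))) (a (c (b (a (a (l 16140768) (l 16250912)) (c (l 16271480) (l 16205504))) (c (a (l 15993736) (b (a (l 16277160)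 (l 16357568)) (l 16263312))) (l 16086416))) (a (l 16133640) (l 16190344))) (a (c (b (l 16357104) (l 16384384)) (l 16438392)) (b (c (l 15950408) (l 16141632)) (b (l 16140600) (l 16274552)))))) (b (a (b (a (l 16369032) (l 16296424)) (a (l 16353896) (l 16461864))) (b (a (l 15955048) (a (l 15886256) (c (l 15769000) (l 15739208)))) (a (l 16262168) (l 15974408)))) (a (a (l 16144752) (l 16185704)) (b (a (l 16421952) (l 16132184)) (l 16202664))))), by decide +kernel⟩

def k5_pm_202_a : ∃ t, chk3 f_pm_202_a t 7 17 1 = true :=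
  ⟨(b (a (a (c (b (c (b (l 15811408) (l 15737840)) (b (l 15774744) (l 15704744))) (a (c (l 15782424) (l 15755296)) (b (c (l 15671912) (l 15641808)) (l 15662192)))) (b (b (c (l 15749576) (l 15740424)) (a (l 15671896) (l 15677304))) (a (l 15734768) (b (l 15615608) (l 15627248))))) (c (c (b (l 15833080) (b (l 15711848) (l 15638360))) (b (l 15782856) (b (l 15679320) (l 15609456)))) (b (l 15761448) (a (l 15584288) (l 15638232))))) (c (c (a (l 15702280) (l 15707896)) (b (l 15780720) (l 15700168))) (c (l 15656400) (l 15790480)))) (c (a (b (b (a (l 15804488) (a (l 15599960) (l 15563048))) (a (c (l 15806728) (l 15872672)) (c (l 15612280) (l 15591960)))) (a (c (c (b (l 15970360) (l 16040464)) (l 15997216)) (l 15990512)) (l 15526344))) (b (c (a (l 15589408) (l 15627320)) (l 15443744)) (a (c (b (l 15428880) (l 15476880)) (a (l 15487488) (l 15436344))) (c (b (l 15542112) (l 15470280)) (l 15491160))))) (a (a (b (l 15817120) (l 15977104)) (b (a (l 15599768) (b (l 15525152) (l 15503848))) (l 15665600)))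 (a (b (l 15543776) (a (l 15463320) (l 15415312))) (b (l 15617168) (l 15467464)))))), by decide +kernel⟩

def k6_pm_202_a : ∃ t, chk3 f_pm_202_a t 3 9 1 = true :=
  ⟨(b (a (c (b (a (a (b (l 15959416) (l 15842824)) (b (l 16070976) (l 16083552))) (a (a (b (l 16324512) (l 16282064)) (l 16427240)) (l 16296928))) (a (a (b (l 15747064) (l 15581568)) (l 15888504)) (a (c (l 16135168) (l 16191592)) (l 16345112)))) (b (a (b (l 15871112) (l 15830912)) (a (b (l 16366864) (l 16297200)) (l 16316320))) (a (a (l 15674152) (l 15909672)) (a (l 16077064) (l 16403344))))) (a (c (b (a (b (l 16138928) (l 16275848)) (b (l 15845800) (l 15986200))) (a (l 16278168) (l 16078768))) (b (b (a (l 16125376) (l 15823688)) (l 15905056)) (a (l 16336488) (l 16170296)))) (a (b (b (c (l 15529440) (l 15498384)) (l 15652624)) (c (l 15625760) (l 15855136))) (b (c (b (c (l 15381440) (l 15357680)) (a (l 15407120) (l 15288464))) (b (a (b (l 15333824) (l 15306240)) (l 15330688)) (a (l 15371952) (l 15249952)))) (c (l 15530600)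 (l 15498480)))))) (b (a (b (a (a (l 146194369879) (c (l 15833136) (l 15809232))) (c (a (l 16007264) (l 16234424)) (a (l 16031528) (l 16308664)))) (a (c (l 15839400) (l 15815464)) (a (c (l 15990208) (l 15970664)) (c (l 16177872) (l 16185472))))) (c (a (a (b (l 16520328) (l 16456304)) (l 16192656)) (b (c (l 15700400) (l 15899144)) (l 15924856))) (a (a (l 16348640) (l 16270576)) (b (l 15652000) (l 15927912))))) (a (a (c (l 15950872) (l 15929832)) (a (c (l 16044528) (l 16026336)) (b (c (l 16067544) (l 16093968)) (l 16139520)))) (a (a (c (b (l 16343704) (l 16264168)) (l 16134952)) (l 16398440)) (a (l 16268296) (l 16066336)))))), by decide +kernel⟩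

def k7_pm_202_a : ∃ t, chk3 f_pm_202_a t 3 5 1 = true :=
  ⟨(b (a (b (a (c (l 16147576) (l 16131672)) (b (b (l 16134360) (l 16208424)) (l 16188568))) (a (c (l 16397872) (l 16388520)) (c (l 16485392) (l 16437272)))) (a (b (b (a (c (l 16287496) (l 16276480)) (c (l 16300200) (l 16292104))) (c (l 16404240) (l 16312688))) (c (l 16378768) (b (l 16479360) (l 16628504)))) (b (b (a (c (l 16388584) (l 16344536)) (l 16237272)) (a (c (l 16468688) (l 16442752)) (a (a (l 16465744) (l 16471552)) (l 16379600)))) (c (l 16556160) (l 16429392))))) (a (a (l 3) (b (c (l 130626803367) (l 16549704)) (b (c (l 16543576) (l 16559272)) (l 16541336)))) (b (b (a (c (l 16564144) (l 16560504)) (a (l 16481536) (l 16425024))) (a (c (l 16471208) (l 16464048)) (c (l 16352704) (l 16342264)))) (a (b (c (l 16409064) (l 16399608)) (c (l 16398928) (l 16389104))) (b (a (c (l 16322536) (l 16310744)) (l 16255752)) (c (l 16291480) (l 16278864))))))), by decide +kernel⟩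

def k8_pm_202_a : ∃ t, chk3 f_pm_202_a t 1 3 1 = true :=
  ⟨(a (l 3) (b (a (b (a (l 3) (c (l 16544360) (l 16538312))) (b (l 35063730855) (l 3))) (b (c (a (b (l 16398928) (l 16398928)) (b (l 16291480) (l 16291480))) (a (b (l 16389104) (l 16389104)) (b (c (l 16282016) (l 16275712)) (l 16278864)))) (a (c (l 16398928) (b (l 16389104) (l 16389104))) (c (l 16291480) (b (l 16278864) (l 16278864)))))) (a (l 3) (a (b (c (l 16398928) (c (l 16391560) (l 16386648))) (l 2)) (b (c (l 16291480) (c (l 16282016) (l 16275712))) (c (l 16291480) (c (l 16282016) (l 16275712)))))))), by decide +kernel⟩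

theorem s9_pm_202_a : ∃ t, chk3 f_pm_202_a t 3 17 1 = true := ex3_a k4_pm_202_a k5_pm_202_a

theorem s10_pm_202_a : ∃ t, chk3 f_pm_202_a t 6 16 1 = true := ex3_b k1_pm_202_a k2_pm_202_a

theorem s11_pm_202_a : ∃ t, chk3 f_pm_202_a t 3 16 1 = true := ex3_a s10_pm_202_a k3_pm_202_a

theorem s12_pm_202_a : ∃ t, chk3 f_pm_202_a t 3 8 1 = true := ex3_b s11_pm_202_a s9_pm_202_a

theorem s13_pm_202_a : ∃ t, chk3 f_pm_202_a t 3 4 1 = true := ex3_b s12_pm_202_a k6_pm_202_a

theorem s14_pm_202_a : ∃ t, chk3 f_pm_202_a t 3 2 1 = true := ex3_b s13_pm_202_a k7_pm_202_a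

theorem s15_pm_202_a : ∃ t, chk3 f_pm_202_a t 1 2 1 = true := ex3_a k0_pm_202_a s14_pm_202_a

theorem s16_pm_202_a : ∃ t, chk3 f_pm_202_a t 1 1 1 = true := ex3_b s15_pm_202_a k8_pm_202_a

theorem c_pm_202_a : CertFX 0 420477299 1073741824 536870912 1046898278 26843546 false true false .pp 2 0 2
    ndF2q2a ndF5q2 pcF0 Cut.none Ext.none :=
  certFX1 (fam := false) (s1 := true) (s2 := false) (a := 2) (b := 0) (c := 2) (cn := .pp) (n1 := ndF2q2a) (n2 := ndF5q2) (pc := pcF0) (cut := Cut.none) (xt := Ext.none) (P1 := 0) (W1 := 420477299) (P2 := 1073741824) (W2 := 536870912) (P3 := 1046898278) (W3 := 26843546)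
    rfl (fun _ => rfl) s16_pm_202_a

noncomputable def f_pm_202_b : ℕ → ℕ → ℕ → ℕ → Bool := onCell 1239849684 370763052 0 536870912 1046898278 26843546
    (rowFX 1 false true false .pp 2 0 2 (qsf 1239849684 370763052 1073741824 536870912 0) ndF2q2b ndF5q2 pcF0 Cut.none Ext.none)

def k0_pm_202_b : ∃ t, chk3 f_pm_202_b t 1 1 1 = true :=
  ⟨(b (l 3) (l 3)), by decide +kernel⟩

theorem c_pm_202_b : CertFX 1239849684 370763052 1073741824 536870912 1046898278 26843546 false true false .pp 2 0 2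
    ndF2q2b ndF5q2 pcF0 Cut.none Ext.none :=
  certFX1 (fam := false) (s1 := true) (s2 := false) (a := 2) (b := 0) (c := 2) (cn := .pp) (n1 := ndF2q2b) (n2 := ndF5q2) (pc := pcF0) (cut := Cut.none) (xt := Ext.none) (P1 := 1239849684) (W1 := 370763052) (P2 := 1073741824) (W2 := 536870912) (P3 := 1046898278) (W3 := 26843546)
    rfl (fun _ => rfl) k0_pm_202_b

noncomputable def f_pm_203_a : ℕ → ℕ → ℕ → ℕ → Bool := onCell 0 420477299 0 1230186008 1046898278 26843546
    (rowFX 0 false true false .up 2 0 3 (qsf 0 420477299 0 1230186008 0) ndF2q2a ndF5q3 pcF0 Cut.none Ext.none)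

def k0_pm_203_a : ∃ t, chk3 f_pm_203_a t 1 1 1 = true :=
  ⟨(b (l 2) (b (l 2) (a (l 3) (b (a (l 3) (l 2)) (a (l 3) (b (b (a (l 3) (l 2)) (a (c (l 16398928) (l 16389104)) (c (l 16291480) (l 24258716087)))) (a (c (b (l 16398928) (l 16398928)) (b (l 16389104) (l 16389104))) (c (c (l 16294640) (l 16288328)) (c (l 16282016) (b (l 16275712) (l 16275712))))))))))), by decide +kernel⟩

theorem c_pm_203_a : CertFX 0 420477299 0 1230186008 1046898278 26843546 false true false .up 2 0 3
    ndF2q2a ndF5q3 pcF0 Cut.none Ext.none :=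
  certFX0 (fam := false) (s1 := true) (s2 := false) (a := 2) (b := 0) (c := 3) (cn := .up) (n1 := ndF2q2a) (n2 := ndF5q3) (pc := pcF0) (cut := Cut.none) (xt := Ext.none) (P1 := 0) (W1 := 420477299) (P2 := 0) (W2 := 1230186008) (P3 := 1046898278) (W3 := 26843546)
    rfl k0_pm_203_a

noncomputable def f_pm_203_b : ℕ → ℕ → ℕ → ℕ → Bool := onCell 1239849684 370763052 0 1230186008 1046898278 26843546
    (rowFX 0 false true false .up 2 0 3 (qsf 1239849684 370763052 0 1230186008 0) ndF2q2b ndF5q3 pcF0 Cut.none Ext.none)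

def k0_pm_203_b : ∃ t, chk3 f_pm_203_b t 1 1 1 = true :=
  ⟨(b (l 3) (b (l 3) (l 3))), by decide +kernel⟩

theorem c_pm_203_b : CertFX 1239849684 370763052 0 1230186008 1046898278 26843546 false true false .up 2 0 3
    ndF2q2b ndF5q3 pcF0 Cut.none Ext.none :=
  certFX0 (fam := false) (s1 := true) (s2 := false) (a := 2) (b := 0) (c := 3) (cn := .up) (n1 := ndF2q2b) (n2 := ndF5q3) (pc := pcF0) (cut := Cut.none) (xt := Ext.none) (P1 := 1239849684) (W1 := 370763052) (P2 := 0) (W2 := 1230186008) (P3 := 1046898278) (W3 := 26843546)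
    rfl k0_pm_203_b

noncomputable def f_pm_213_a : ℕ → ℕ → ℕ → ℕ → Bool := onCell 0 420477299 0 1230186008 1046898278 26843546
    (rowFX 0 false true false .pnn 2 1 3 (qsf 0 420477299 0 1230186008 1) ndF2q2a ndF5q3 pcF1 Cut.none Ext.none)

def k0_pm_213_a : ∃ t, chk3 f_pm_213_a t 1 1 1 = true :=
  ⟨(b (b (l 3) (l 3)) (b (a (l 3) (a (l 3) (b (l 3) (a (l 3) (b (l 3) (c (l 16291480) (l 16278864))))))) (a (l 3) (b (a (l 3) (a (l 3) (b (c (l 16291480) (l 94119043511)) (c (c (l 16294640) (l 16288328)) (c (l 16282016) (l 16275712)))))) (a (l 3) (b (b (a (l 3) (c (l 16291480) (l 16278864))) (a (c (l 16398928) (l 16389104)) (c (l 16291480) (l 16215952)))) (a (l 1) (b (c (l 16291480) (l 251824873911)) (l 1))))))))), by decide +kernel⟩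

theorem c_pm_213_a : CertFX 0 420477299 0 1230186008 1046898278 26843546 false true false .pnn 2 1 3
    ndF2q2a ndF5q3 pcF1 Cut.none Ext.none :=
  certFX0 (fam := false) (s1 := true) (s2 := false) (a := 2) (b := 1) (c := 3) (cn := .pnn) (n1 := ndF2q2a) (n2 := ndF5q3) (pc := pcF1) (cut := Cut.none) (xt := Ext.none) (P1 := 0) (W1 := 420477299) (P2 := 0) (W2 := 1230186008) (P3 := 1046898278) (W3 := 26843546)
    rfl k0_pm_213_a

noncomputable def f_pm_213_b : ℕ → ℕ → ℕ → ℕ → Bool := onCell 1239849684 370763052 0 1230186008 1046898278 26843546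
    (rowFX 0 false true false .pnn 2 1 3 (qsf 1239849684 370763052 0 1230186008 1) ndF2q2b ndF5q3 pcF1 Cut.none Ext.none)

def k0_pm_213_b : ∃ t, chk3 f_pm_213_b t 1 1 1 = true :=
  ⟨(b (l 3) (b (l 3) (l 3))), by decide +kernel⟩

theorem c_pm_213_b : CertFX 1239849684 370763052 0 1230186008 1046898278 26843546 false true false .pnn 2 1 3
    ndF2q2b ndF5q3 pcF1 Cut.none Ext.none :=
  certFX0 (fam := false) (s1 := true) (s2 := false) (a := 2) (b := 1) (c := 3) (cn := .pnn) (n1 := ndF2q2b) (n2 := ndF5q3) (pc := pcF1) (cut := Cut.none) (xt := Ext.none) (P1 := 1239849684) (W1 := 370763052) (P2 := 0) (W2 := 1230186008) (P3 := 1046898278) (W3 := 26843546)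
    rfl k0_pm_213_b

noncomputable def f_pm_303 : ℕ → ℕ → ℕ → ℕ → Bool := onCell 1610612736 469762048 0 1230186008 1046898278 26843546
    (rowFX 0 false true false .npn 3 0 3 (qsf 1610612736 469762048 0 1230186008 0) ndF2q3 ndF5q3 pcF0 Cut.none Ext.none)

def k0_pm_303 : ∃ t, chk3 f_pm_303 t 1 1 1 = true :=
  ⟨(b (l 3) (l 3)), by decide +kernel⟩

theorem c_pm_303 : CertFX 1610612736 469762048 0 1230186008 1046898278 26843546 false true false .npn 3 0 3
    ndF2q3 ndF5q3 pcF0 Cut.none Ext.none :=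
  certFX0 (fam := false) (s1 := true) (s2 := false) (a := 3) (b := 0) (c := 3) (cn := .npn) (n1 := ndF2q3) (n2 := ndF5q3) (pc := pcF0) (cut := Cut.none) (xt := Ext.none) (P1 := 1610612736) (W1 := 469762048) (P2 := 0) (W2 := 1230186008) (P3 := 1046898278) (W3 := 26843546)
    rfl k0_pm_303

noncomputable def f_pm_313 : ℕ → ℕ → ℕ → ℕ → Bool := onCell 1610612736 469762048 0 1230186008 1046898278 26843546
    (rowFX 0 false true false .dn 3 1 3 (qsf 1610612736 469762048 0 1230186008 1) ndF2q3 ndF5q3 pcF1 Cut.none Ext.none)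

def k0_pm_313 : ∃ t, chk3 f_pm_313 t 1 1 1 = true :=
  ⟨(b (l 3) (l 1)), by decide +kernel⟩

theorem c_pm_313 : CertFX 1610612736 469762048 0 1230186008 1046898278 26843546 false true false .dn 3 1 3
    ndF2q3 ndF5q3 pcF1 Cut.none Ext.none :=
  certFX0 (fam := false) (s1 := true) (s2 := false) (a := 3) (b := 1) (c := 3) (cn := .dn) (n1 := ndF2q3) (n2 := ndF5q3) (pc := pcF1) (cut := Cut.none) (xt := Ext.none) (P1 := 1610612736) (W1 := 469762048) (P2 := 0) (W2 := 1230186008) (P3 := 1046898278) (W3 := 26843546)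
    rfl k0_pm_313

noncomputable def f_mm_001 : ℕ → ℕ → ℕ → ℕ → Bool := onCell 67108864 469762048 536870912 469762048 1046898278 26843546
    (rowFX 0 false false false .up 0 0 1 (qsf 67108864 469762048 536870912 469762048 0) ndF2q0 ndF5q1 pcF0 Cut.none Ext.none)

def k0_mm_001 : ∃ t, chk3 f_mm_001 t 1 1 1 = true :=
  ⟨(l 3), by decide +kernel⟩

theorem c_mm_001 : CertFX 67108864 469762048 536870912 469762048 1046898278 26843546 false false false .up 0 0 1
    ndF2q0 ndF5q1 pcF0 Cut.none Ext.none :=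
  certFX0 (fam := false) (s1 := false) (s2 := false) (a := 0) (b := 0) (c := 1) (cn := .up) (n1 := ndF2q0) (n2 := ndF5q1) (pc := pcF0) (cut := Cut.none) (xt := Ext.none) (P1 := 67108864) (W1 := 469762048) (P2 := 536870912) (W2 := 469762048) (P3 := 1046898278) (W3 := 26843546)
    rfl k0_mm_001

noncomputable def f_mm_011 : ℕ → ℕ → ℕ → ℕ → Bool := onCell 67108864 469762048 536870912 469762048 1046898278 26843546
    (rowFX 0 false false false .pnn 0 1 1 (qsf 67108864 469762048 536870912 469762048 1) ndF2q0 ndF5q1 pcF1 Cut.none Ext.none)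

def k0_mm_011 : ∃ t, chk3 f_mm_011 t 1 1 1 = true :=
  ⟨(l 3), by decide +kernel⟩

theorem c_mm_011 : CertFX 67108864 469762048 536870912 469762048 1046898278 26843546 false false false .pnn 0 1 1
    ndF2q0 ndF5q1 pcF1 Cut.none Ext.none :=
  certFX0 (fam := false) (s1 := false) (s2 := false) (a := 0) (b := 1) (c := 1) (cn := .pnn) (n1 := ndF2q0) (n2 := ndF5q1) (pc := pcF1) (cut := Cut.none) (xt := Ext.none) (P1 := 67108864) (W1 := 469762048) (P2 := 536870912) (W2 := 469762048) (P3 := 1046898278) (W3 := 26843546)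
    rfl k0_mm_011

noncomputable def f_mm_012 : ℕ → ℕ → ℕ → ℕ → Bool := onCell 67108864 469762048 1073741824 536870912 1046898278 26843546
    (rowFX 0 false false false .pnp 0 1 2 (qsf 67108864 469762048 1073741824 536870912 1) ndF2q0 ndF5q2 pcF1 Cut.none Ext.none)

def k0_mm_012 : ∃ t, chk3 f_mm_012 t 1 1 1 = true :=
  ⟨(l 5), by decide +kernel⟩

theorem c_mm_012 : CertFX 67108864 469762048 1073741824 536870912 1046898278 26843546 false false false .pnp 0 1 2
    ndF2q0 ndF5q2 pcF1 Cut.none Ext.none :=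
  certFX0 (fam := false) (s1 := false) (s2 := false) (a := 0) (b := 1) (c := 2) (cn := .pnp) (n1 := ndF2q0) (n2 := ndF5q2) (pc := pcF1) (cut := Cut.none) (xt := Ext.none) (P1 := 67108864) (W1 := 469762048) (P2 := 1073741824) (W2 := 536870912) (P3 := 1046898278) (W3 := 26843546)
    rfl k0_mm_012

noncomputable def f_mm_022 : ℕ → ℕ → ℕ → ℕ → Bool := onCell 67108864 469762048 1073741824 536870912 1046898278 26843546
    (rowFX 0 false false false .pp 0 2 2 (qsf 67108864 469762048 1073741824 536870912 2) ndF2q0 ndF5q2 pcF2 Cut.none Ext.none)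

def k0_mm_022 : ∃ t, chk3 f_mm_022 t 1 1 1 = true :=
  ⟨(l 5), by decide +kernel⟩

theorem c_mm_022 : CertFX 67108864 469762048 1073741824 536870912 1046898278 26843546 false false false .pp 0 2 2
    ndF2q0 ndF5q2 pcF2 Cut.none Ext.none :=
  certFX0 (fam := false) (s1 := false) (s2 := false) (a := 0) (b := 2) (c := 2) (cn := .pp) (n1 := ndF2q0) (n2 := ndF5q2) (pc := pcF2) (cut := Cut.none) (xt := Ext.none) (P1 := 67108864) (W1 := 469762048) (P2 := 1073741824) (W2 := 536870912) (P3 := 1046898278) (W3 := 26843546)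
    rfl k0_mm_022

noncomputable def f_mm_023 : ℕ → ℕ → ℕ → ℕ → Bool := onCell 67108864 469762048 0 1230186008 1046898278 26843546
    (rowFX 0 false false false .up 0 2 3 (qsf 67108864 469762048 0 1230186008 2) ndF2q0 ndF5q3 pcF2 Cut.none Ext.none)

def k0_mm_023 : ∃ t, chk3 f_mm_023 t 1 1 1 = true :=
  ⟨(l 5), by decide +kernel⟩

theorem c_mm_023 : CertFX 67108864 469762048 0 1230186008 1046898278 26843546 false false false .up 0 2 3
    ndF2q0 ndF5q3 pcF2 Cut.none Ext.none :=
  certFX0 (fam := false) (s1 := false) (s2 := false) (a := 0) (b := 2) (c := 3) (cn := .up) (n1 := ndF2q0) (n2 := ndF5q3) (pc := pcF2) (cut := Cut.none) (xt := Ext.none) (P1 := 67108864) (W1 := 469762048) (P2 := 0) (W2 := 1230186008) (P3 := 1046898278) (W3 := 26843546)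
    rfl k0_mm_023

noncomputable def f_mm_033 : ℕ → ℕ → ℕ → ℕ → Bool := onCell 67108864 469762048 0 1230186008 1046898278 26843546
    (rowFX 0 false false false .pnn 0 3 3 (qsf 67108864 469762048 0 1230186008 3) ndF2q0 ndF5q3 pcF3 Cut.none Ext.none)

def k0_mm_033 : ∃ t, chk3 f_mm_033 t 1 1 1 = true :=
  ⟨(l 5), by decide +kernel⟩

theorem c_mm_033 : CertFX 67108864 469762048 0 1230186008 1046898278 26843546 false false false .pnn 0 3 3
    ndF2q0 ndF5q3 pcF3 Cut.none Ext.none :=
  certFX0 (fam := false) (s1 := false) (s2 := false) (a := 0) (b := 3) (c := 3) (cn := .pnn) (n1 := ndF2q0) (n2 := ndF5q3) (pc := pcF3) (cut := Cut.none) (xt := Ext.none) (P1 := 67108864) (W1 := 469762048) (P2 := 0) (W2 := 1230186008) (P3 := 1046898278) (W3 := 26843546)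
    rfl k0_mm_033

noncomputable def f_mm_101 : ℕ → ℕ → ℕ → ℕ → Bool := onCell 536870912 536870912 536870912 469762048 1046898278 26843546
    (rowFX 0 false false false .npn 1 0 1 (qsf 536870912 536870912 536870912 469762048 0) ndF2q1 ndF5q1 pcF0 Cut.none Ext.none)

def k0_mm_101 : ∃ t, chk3 f_mm_101 t 1 1 1 = true :=
  ⟨(l 3), by decide +kernel⟩

theorem c_mm_101 : CertFX 536870912 536870912 536870912 469762048 1046898278 26843546 false false false .npn 1 0 1
    ndF2q1 ndF5q1 pcF0 Cut.none Ext.none :=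
  certFX0 (fam := false) (s1 := false) (s2 := false) (a := 1) (b := 0) (c := 1) (cn := .npn) (n1 := ndF2q1) (n2 := ndF5q1) (pc := pcF0) (cut := Cut.none) (xt := Ext.none) (P1 := 536870912) (W1 := 536870912) (P2 := 536870912) (W2 := 469762048) (P3 := 1046898278) (W3 := 26843546)
    rfl k0_mm_101

noncomputable def f_mm_102 : ℕ → ℕ → ℕ → ℕ → Bool := onCell 536870912 536870912 1073741824 536870912 1046898278 26843546
    (rowFX 0 false false false .npp 1 0 2 (qsf 536870912 536870912 1073741824 536870912 0) ndF2q1 ndF5q2 pcF0 Cut.none Ext.none)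

def k0_mm_102 : ∃ t, chk3 f_mm_102 t 1 1 1 = true :=
  ⟨(l 5), by decide +kernel⟩

theorem c_mm_102 : CertFX 536870912 536870912 1073741824 536870912 1046898278 26843546 false false false .npp 1 0 2
    ndF2q1 ndF5q2 pcF0 Cut.none Ext.none :=
  certFX0 (fam := false) (s1 := false) (s2 := false) (a := 1) (b := 0) (c := 2) (cn := .npp) (n1 := ndF2q1) (n2 := ndF5q2) (pc := pcF0) (cut := Cut.none) (xt := Ext.none) (P1 := 536870912) (W1 := 536870912) (P2 := 1073741824) (W2 := 536870912) (P3 := 1046898278) (W3 := 26843546)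
    rfl k0_mm_102

noncomputable def f_mm_112 : ℕ → ℕ → ℕ → ℕ → Bool := onCell 536870912 536870912 1073741824 536870912 1046898278 26843546
    (rowFX 0 false false false .dn 1 1 2 (qsf 536870912 536870912 1073741824 536870912 1) ndF2q1 ndF5q2 pcF1 Cut.none Ext.none)

def k0_mm_112 : ∃ t, chk3 f_mm_112 t 1 1 1 = true :=
  ⟨(l 5), by decide +kernel⟩

theorem c_mm_112 : CertFX 536870912 536870912 1073741824 536870912 1046898278 26843546 false false false .dn 1 1 2
    ndF2q1 ndF5q2 pcF1 Cut.none Ext.none :=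
  certFX0 (fam := false) (s1 := false) (s2 := false) (a := 1) (b := 1) (c := 2) (cn := .dn) (n1 := ndF2q1) (n2 := ndF5q2) (pc := pcF1) (cut := Cut.none) (xt := Ext.none) (P1 := 536870912) (W1 := 536870912) (P2 := 1073741824) (W2 := 536870912) (P3 := 1046898278) (W3 := 26843546)
    rfl k0_mm_112

noncomputable def f_mm_113 : ℕ → ℕ → ℕ → ℕ → Bool := onCell 536870912 536870912 0 1230186008 1046898278 26843546
    (rowFX 0 false false false .nn 1 1 3 (qsf 536870912 536870912 0 1230186008 1) ndF2q1 ndF5q3 pcF1 Cut.none Ext.none)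

def k0_mm_113 : ∃ t, chk3 f_mm_113 t 1 1 1 = true :=
  ⟨(l 5), by decide +kernel⟩

theorem c_mm_113 : CertFX 536870912 536870912 0 1230186008 1046898278 26843546 false false false .nn 1 1 3
    ndF2q1 ndF5q3 pcF1 Cut.none Ext.none :=
  certFX0 (fam := false) (s1 := false) (s2 := false) (a := 1) (b := 1) (c := 3) (cn := .nn) (n1 := ndF2q1) (n2 := ndF5q3) (pc := pcF1) (cut := Cut.none) (xt := Ext.none) (P1 := 536870912) (W1 := 536870912) (P2 := 0) (W2 := 1230186008) (P3 := 1046898278) (W3 := 26843546)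
    rfl k0_mm_113

noncomputable def f_mm_123 : ℕ → ℕ → ℕ → ℕ → Bool := onCell 536870912 536870912 0 1230186008 1046898278 26843546
    (rowFX 0 false false false .npn 1 2 3 (qsf 536870912 536870912 0 1230186008 2) ndF2q1 ndF5q3 pcF2 Cut.none Ext.none)

def k0_mm_123 : ∃ t, chk3 f_mm_123 t 1 1 1 = true :=
  ⟨(l 5), by decide +kernel⟩

theorem c_mm_123 : CertFX 536870912 536870912 0 1230186008 1046898278 26843546 false false false .npn 1 2 3
    ndF2q1 ndF5q3 pcF2 Cut.none Ext.none :=
  certFX0 (fam := false) (s1 := false) (s2 := false) (a := 1) (b := 2) (c := 3) (cn := .npn) (n1 := ndF2q1) (n2 := ndF5q3) (pc := pcF2) (cut := Cut.none) (xt := Ext.none) (P1 := 536870912) (W1 := 536870912) (P2 := 0) (W2 := 1230186008) (P3 := 1046898278) (W3 := 26843546)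
    rfl k0_mm_123

noncomputable def f_mm_133 : ℕ → ℕ → ℕ → ℕ → Bool := onCell 536870912 536870912 0 1230186008 1046898278 26843546
    (rowFX 0 false false false .dn 1 3 3 (qsf 536870912 536870912 0 1230186008 3) ndF2q1 ndF5q3 pcF3 Cut.none Ext.none)

def k0_mm_133 : ∃ t, chk3 f_mm_133 t 1 1 1 = true :=
  ⟨(l 5), by decide +kernel⟩

theorem c_mm_133 : CertFX 536870912 536870912 0 1230186008 1046898278 26843546 false false false .dn 1 3 3
    ndF2q1 ndF5q3 pcF3 Cut.none Ext.none :=
  certFX0 (fam := false) (s1 := false) (s2 := false) (a := 1) (b := 3) (c := 3) (cn := .dn) (n1 := ndF2q1) (n2 := ndF5q3) (pc := pcF3) (cut := Cut.none) (xt := Ext.none) (P1 := 536870912) (W1 := 536870912) (P2 := 0) (W2 := 1230186008) (P3 := 1046898278) (W3 := 26843546)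
    rfl k0_mm_133

noncomputable def f_mm_202_a : ℕ → ℕ → ℕ → ℕ → Bool := onCell 0 420477299 1073741824 536870912 1046898278 26843546
    (rowFX 0 false false false .pp 2 0 2 (qsf 0 420477299 1073741824 536870912 0) ndF2q2a ndF5q2 pcF0 Cut.none Ext.none)

def k0_mm_202_a : ∃ t, chk3 f_mm_202_a t 1 1 1 = true :=
  ⟨(l 3), by decide +kernel⟩

theorem c_mm_202_a : CertFX 0 420477299 1073741824 536870912 1046898278 26843546 false false false .pp 2 0 2
    ndF2q2a ndF5q2 pcF0 Cut.none Ext.none :=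
  certFX0 (fam := false) (s1 := false) (s2 := false) (a := 2) (b := 0) (c := 2) (cn := .pp) (n1 := ndF2q2a) (n2 := ndF5q2) (pc := pcF0) (cut := Cut.none) (xt := Ext.none) (P1 := 0) (W1 := 420477299) (P2 := 1073741824) (W2 := 536870912) (P3 := 1046898278) (W3 := 26843546)
    rfl k0_mm_202_a

noncomputable def f_mm_202_b : ℕ → ℕ → ℕ → ℕ → Bool := onCell 1239849684 370763052 1073741824 536870912 1046898278 26843546
    (rowFX 0 false false false .pp 2 0 2 (qsf 1239849684 370763052 1073741824 536870912 0) ndF2q2b ndF5q2 pcF0 Cut.none Ext.none)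

def k0_mm_202_b : ∃ t, chk3 f_mm_202_b t 1 1 1 = true :=
  ⟨(l 3), by decide +kernel⟩

theorem c_mm_202_b : CertFX 1239849684 370763052 1073741824 536870912 1046898278 26843546 false false false .pp 2 0 2
    ndF2q2b ndF5q2 pcF0 Cut.none Ext.none :=
  certFX0 (fam := false) (s1 := false) (s2 := false) (a := 2) (b := 0) (c := 2) (cn := .pp) (n1 := ndF2q2b) (n2 := ndF5q2) (pc := pcF0) (cut := Cut.none) (xt := Ext.none) (P1 := 1239849684) (W1 := 370763052) (P2 := 1073741824) (W2 := 536870912) (P3 := 1046898278) (W3 := 26843546)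
    rfl k0_mm_202_b

noncomputable def f_mm_203_a : ℕ → ℕ → ℕ → ℕ → Bool := onCell 0 420477299 0 1230186008 1046898278 26843546
    (rowFX 0 false false false .up 2 0 3 (qsf 0 420477299 0 1230186008 0) ndF2q2a ndF5q3 pcF0 Cut.none Ext.none)

def k0_mm_203_a : ∃ t, chk3 f_mm_203_a t 1 1 1 = true :=
  ⟨(b (l 2) (l 3)), by decide +kernel⟩

theorem c_mm_203_a : CertFX 0 420477299 0 1230186008 1046898278 26843546 false false false .up 2 0 3
    ndF2q2a ndF5q3 pcF0 Cut.none Ext.none :=
  certFX0 (fam := false) (s1 := false) (s2 := false) (a := 2) (b := 0) (c := 3) (cn := .up) (n1 := ndF2q2a) (n2 := ndF5q3) (pc := pcF0) (cut := Cut.none) (xt := Ext.none) (P1 := 0) (W1 := 420477299) (P2 := 0) (W2 := 1230186008) (P3 := 1046898278) (W3 := 26843546)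
    rfl k0_mm_203_a

noncomputable def f_mm_203_b : ℕ → ℕ → ℕ → ℕ → Bool := onCell 1239849684 370763052 0 1230186008 1046898278 26843546
    (rowFX 0 false false false .up 2 0 3 (qsf 1239849684 370763052 0 1230186008 0) ndF2q2b ndF5q3 pcF0 Cut.none Ext.none)

def k0_mm_203_b : ∃ t, chk3 f_mm_203_b t 1 1 1 = true :=
  ⟨(b (l 3) (l 3)), by decide +kernel⟩

theorem c_mm_203_b : CertFX 1239849684 370763052 0 1230186008 1046898278 26843546 false false false .up 2 0 3
    ndF2q2b ndF5q3 pcF0 Cut.none Ext.none :=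
  certFX0 (fam := false) (s1 := false) (s2 := false) (a := 2) (b := 0) (c := 3) (cn := .up) (n1 := ndF2q2b) (n2 := ndF5q3) (pc := pcF0) (cut := Cut.none) (xt := Ext.none) (P1 := 1239849684) (W1 := 370763052) (P2 := 0) (W2 := 1230186008) (P3 := 1046898278) (W3 := 26843546)
    rfl k0_mm_203_b

noncomputable def f_mm_213_a : ℕ → ℕ → ℕ → ℕ → Bool := onCell 0 420477299 0 1230186008 1046898278 26843546
    (rowFX 0 false false false .pnn 2 1 3 (qsf 0 420477299 0 1230186008 1) ndF2q2a ndF5q3 pcF1 Cut.none Ext.none)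

def k0_mm_213_a : ∃ t, chk3 f_mm_213_a t 1 1 1 = true :=
  ⟨(b (l 3) (l 3)), by decide +kernel⟩

theorem c_mm_213_a : CertFX 0 420477299 0 1230186008 1046898278 26843546 false false false .pnn 2 1 3
    ndF2q2a ndF5q3 pcF1 Cut.none Ext.none :=
  certFX0 (fam := false) (s1 := false) (s2 := false) (a := 2) (b := 1) (c := 3) (cn := .pnn) (n1 := ndF2q2a) (n2 := ndF5q3) (pc := pcF1) (cut := Cut.none) (xt := Ext.none) (P1 := 0) (W1 := 420477299) (P2 := 0) (W2 := 1230186008) (P3 := 1046898278) (W3 := 26843546)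
    rfl k0_mm_213_a

noncomputable def f_mm_213_b : ℕ → ℕ → ℕ → ℕ → Bool := onCell 1239849684 370763052 0 1230186008 1046898278 26843546
    (rowFX 0 false false false .pnn 2 1 3 (qsf 1239849684 370763052 0 1230186008 1) ndF2q2b ndF5q3 pcF1 Cut.none Ext.none)

def k0_mm_213_b : ∃ t, chk3 f_mm_213_b t 1 1 1 = true :=
  ⟨(b (l 3) (l 3)), by decide +kernel⟩

theorem c_mm_213_b : CertFX 1239849684 370763052 0 1230186008 1046898278 26843546 false false false .pnn 2 1 3
    ndF2q2b ndF5q3 pcF1 Cut.none Ext.none :=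
  certFX0 (fam := false) (s1 := false) (s2 := false) (a := 2) (b := 1) (c := 3) (cn := .pnn) (n1 := ndF2q2b) (n2 := ndF5q3) (pc := pcF1) (cut := Cut.none) (xt := Ext.none) (P1 := 1239849684) (W1 := 370763052) (P2 := 0) (W2 := 1230186008) (P3 := 1046898278) (W3 := 26843546)
    rfl k0_mm_213_b

noncomputable def f_mm_303 : ℕ → ℕ → ℕ → ℕ → Bool := onCell 1610612736 469762048 0 1230186008 1046898278 26843546
    (rowFX 0 false false false .npn 3 0 3 (qsf 1610612736 469762048 0 1230186008 0) ndF2q3 ndF5q3 pcF0 Cut.none Ext.none)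

def k0_mm_303 : ∃ t, chk3 f_mm_303 t 1 1 1 = true :=
  ⟨(b (l 3) (l 3)), by decide +kernel⟩

theorem c_mm_303 : CertFX 1610612736 469762048 0 1230186008 1046898278 26843546 false false false .npn 3 0 3
    ndF2q3 ndF5q3 pcF0 Cut.none Ext.none :=
  certFX0 (fam := false) (s1 := false) (s2 := false) (a := 3) (b := 0) (c := 3) (cn := .npn) (n1 := ndF2q3) (n2 := ndF5q3) (pc := pcF0) (cut := Cut.none) (xt := Ext.none) (P1 := 1610612736) (W1 := 469762048) (P2 := 0) (W2 := 1230186008) (P3 := 1046898278) (W3 := 26843546)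
    rfl k0_mm_303

noncomputable def f_mm_313 : ℕ → ℕ → ℕ → ℕ → Bool := onCell 1610612736 469762048 0 1230186008 1046898278 26843546
    (rowFX 0 false false false .dn 3 1 3 (qsf 1610612736 469762048 0 1230186008 1) ndF2q3 ndF5q3 pcF1 Cut.none Ext.none)

def k0_mm_313 : ∃ t, chk3 f_mm_313 t 1 1 1 = true :=
  ⟨(b (l 3) (l 1)), by decide +kernel⟩

theorem c_mm_313 : CertFX 1610612736 469762048 0 1230186008 1046898278 26843546 false false false .dn 3 1 3
    ndF2q3 ndF5q3 pcF1 Cut.none Ext.none :=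
  certFX0 (fam := false) (s1 := false) (s2 := false) (a := 3) (b := 1) (c := 3) (cn := .dn) (n1 := ndF2q3) (n2 := ndF5q3) (pc := pcF1) (cut := Cut.none) (xt := Ext.none) (P1 := 1610612736) (W1 := 469762048) (P2 := 0) (W2 := 1230186008) (P3 := 1046898278) (W3 := 26843546)
    rfl k0_mm_313

end Pool.Agent.Strip051.G.IE1.Tab.C.FB25

namespace Pool.Agent.Strip051.G.IE1.Tab.C.FB26

open Pool.Agent.Strip051.PB Pool.Agent.Strip051.PB.T
open Pool.Agent.Strip051.G.IE1.Tab

noncomputable def f_pp_001 : ℕ → ℕ → ℕ → ℕ → Bool := onCell 67108864 469762048 536870912 469762048 1046898278 26843546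
    (rowFX 0 false true true .up 0 0 1 (qsf 67108864 469762048 536870912 469762048 0) ndF2q0 ndF6q1 pcF0 Cut.none Ext.none)

def k0_pp_001 : ∃ t, chk3 f_pp_001 t 1 1 1 = true :=
  ⟨(l 3), by decide +kernel⟩

theorem c_pp_001 : CertFX 67108864 469762048 536870912 469762048 1046898278 26843546 false true true .up 0 0 1
    ndF2q0 ndF6q1 pcF0 Cut.none Ext.none :=
  certFX0 (fam := false) (s1 := true) (s2 := true) (a := 0) (b := 0) (c := 1) (cn := .up) (n1 := ndF2q0) (n2 := ndF6q1) (pc := pcF0) (cut := Cut.none) (xt := Ext.none) (P1 := 67108864) (W1 := 469762048) (P2 := 536870912) (W2 := 469762048) (P3 := 1046898278) (W3 := 26843546)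
    rfl k0_pp_001

noncomputable def f_pp_011 : ℕ → ℕ → ℕ → ℕ → Bool := onCell 67108864 469762048 536870912 469762048 1046898278 26843546
    (rowFX 0 false true true .pnn 0 1 1 (qsf 67108864 469762048 536870912 469762048 1) ndF2q0 ndF6q1 pcF1 Cut.none Ext.none)

def k0_pp_011 : ∃ t, chk3 f_pp_011 t 1 1 1 = true :=
  ⟨(l 3), by decide +kernel⟩

theorem c_pp_011 : CertFX 67108864 469762048 536870912 469762048 1046898278 26843546 false true true .pnn 0 1 1
    ndF2q0 ndF6q1 pcF1 Cut.none Ext.none :=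
  certFX0 (fam := false) (s1 := true) (s2 := true) (a := 0) (b := 1) (c := 1) (cn := .pnn) (n1 := ndF2q0) (n2 := ndF6q1) (pc := pcF1) (cut := Cut.none) (xt := Ext.none) (P1 := 67108864) (W1 := 469762048) (P2 := 536870912) (W2 := 469762048) (P3 := 1046898278) (W3 := 26843546)
    rfl k0_pp_011

noncomputable def f_pp_012 : ℕ → ℕ → ℕ → ℕ → Bool := onCell 67108864 469762048 536870912 536870912 1046898278 26843546
    (rowFX 1 false true true .pnp 0 1 2 (qsf 67108864 469762048 1073741824 536870912 1) ndF2q0 ndF6q2 pcF1 Cut.none Ext.none)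

def k0_pp_012 : ∃ t, chk3 f_pp_012 t 1 1 1 = true :=
  ⟨(l 3), by decide +kernel⟩

theorem c_pp_012 : CertFX 67108864 469762048 1073741824 536870912 1046898278 26843546 false true true .pnp 0 1 2
    ndF2q0 ndF6q2 pcF1 Cut.none Ext.none :=
  certFX1 (fam := false) (s1 := true) (s2 := true) (a := 0) (b := 1) (c := 2) (cn := .pnp) (n1 := ndF2q0) (n2 := ndF6q2) (pc := pcF1) (cut := Cut.none) (xt := Ext.none) (P1 := 67108864) (W1 := 469762048) (P2 := 1073741824) (W2 := 536870912) (P3 := 1046898278) (W3 := 26843546)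
    rfl (fun _ => rfl) k0_pp_012

noncomputable def f_pp_022 : ℕ → ℕ → ℕ → ℕ → Bool := onCell 67108864 469762048 1073741824 536870912 1046898278 26843546
    (rowFX 1 false true true .pp 0 2 2 (qsf 67108864 469762048 1073741824 536870912 2) ndF2q0 ndF6q2 pcF2 Cut.none Ext.none)

def k0_pp_022 : ∃ t, chk3 f_pp_022 t 4 4 1 = true :=
  ⟨(l 3), by decide +kernel⟩

def k1_pp_022 : ∃ t, chk3 f_pp_022 t 4 40 1 = true :=
  ⟨(l 3), by decide +kernel⟩

def k2_pp_022 : ∃ t, chk3 f_pp_022 t 4 82 1 = true :=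
  ⟨(a (l 3) (a (b (l 3) (c (l 2365082583767) (l 1988736039095))) (b (c (l 16300456) (l 16288072)) (c (l 16185112) (l 16267104))))), by decide +kernel⟩

def k3_pp_022 : ∃ t, chk3 f_pp_022 t 4 166 1 = true :=
  ⟨(a (a (l 3) (b (c (l 3693300708839) (l 3306216750791)) (c (c (l 2739817978039) (l 15840176)) (c (l 15870568) (l 15859016))))) (c (a (b (l 16096328) (l 16096328)) (b (l 16300456) (l 16300224))) (b (a (l 16078648) (l 16288072)) (a (l 16078648) (l 16287832))))), by decide +kernel⟩

def k4_pp_022 : ∃ t, chk3 f_pp_022 t 4 167 1 = true :=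
  ⟨(a (b (b (a (a (l 3) (c (l 4175410473895) (l 15637072))) (c (l 333562541543) (l 15864792))) (a (c (a (a (b (l 7739159339399) (b (l 5568053363879) (l 15452320))) (b (l 15541688) (l 15541688))) (c (l 15673184) (l 15658720))) (a (b (l 15476680) (l 15474256)) (l 15637072))) (c (c (l 15893672) (l 15882120)) (a (l 15803960) (l 15925208))))) (c (a (b (a (b (b (c (l 15514160) (l 15497000)) (b (c (l 15513280) (l 15496104)) (b (b (c (l 15512872) (l 15495696)) (c (c (l 15475216) (l 15507976)) (l 15495584))) (l 15504760)))) (l 15504400)) (b (b (l 15666072) (b (l 15666072) (b (b (l 15666072) (l 15666072)) (l 15666072)))) (l 15666072))) (a (l 15502824) (l 15666072))) (b (b (b (l 15887904) (b (l 15887904) (b (b (l 15887904) (c (l 15893672) (l 15882120))) (l 15887904)))) (l 15887904)) (l 15887904))) (b (b (b (a (a (l 15472240) (l 15637072)) (l 15864792)) (b (a (a (l 15471328) (l 15637072)) (l 15864792)) (b (b (a (l 15552440) (l 15864792)) (a (a (l 15470792) (l 15637072)) (l 15864792))) (a (l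 15552328) (l 15864792))))) (a (l 15552176) (l 15864792))) (a (l 15551384) (l 15864792))))) (a (b (b (c (l 16096328) (l 16078648)) (b (c (l 16096328) (l 16078648)) (c (l 16096040) (l 16078352)))) (b (b (b (c (l 16095640) (l 16077928)) (b (c (l 16095128) (l 16077408)) (b (b (c (l 16094648) (l 16076904)) (c (l 16052240) (l 16076424))) (l 16085064)))) (l 16085040)) (l 16084984))) (b (b (c (l 16299576) (l 16287168)) (b (c (l 16298880) (l 16286440)) (c (l 16297432) (l 16284944)))) (l 16287688)))), by decide +kernel⟩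

def k5_pp_022 : ∃ t, chk3 f_pp_022 t 4 21 1 = true :=
  ⟨(a (a (c (a (l 15500192) (l 15666072)) (l 15550080)) (a (l 15732536) (l 15935480))) (a (l 16084152) (l 16286608))), by decide +kernel⟩

def k6_pp_022 : ∃ t, chk3 f_pp_022 t 4 11 1 = true :=
  ⟨(a (a (c (b (l 15582616) (l 15582624)) (l 15549808)) (c (l 15804144) (l 15864920))) (b (l 16188920) (l 16191776))), by decide +kernel⟩

def k7_pp_022 : ∃ t, chk3 f_pp_022 t 4 3 1 = true :=
  ⟨(b (a (b (a (l 15568688) (l 15876416)) (l 15672264)) (b (l 16191784) (l 16191784))) (a (b (l 15714208) (l 15714208)) (b (l 16191784) (l 2)))), by decide +kernel⟩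

def k8_pp_022 : ∃ t, chk3 f_pp_022 t 5 1 1 = true :=
  ⟨(b (b (b (l 3) (b (l 3) (b (l 3) (a (l 3) (a (l 3) (b (l 3) (b (l 16777216) (l 604684419031)))))))) (b (b (b (b (a (a (l 3) (b (l 3) (l 1109342756327))) (c (b (l 880636067783) (l 872583004119)) (c (l 941839351751) (l 949355544471)))) (b (a (a (l 3) (c (l 16718880) (l 16717368))) (c (a (l 16777208) (l 16776560)) (a (l 16777208) (l 16776536)))) (a (a (c (l 16516656) (l 16509888)) (c (l 16718880) (l 16717368))) (c (a (l 16777192) (l 16776960)) (a (l 16777192) (l 16776960)))))) (b (b (a (a (c (l 16516664) (l 16509896)) (c (l 16718880) (l 16717368))) (a (c (l 16775680) (l 16775640)) (l 16770552))) (a (c (a (l 16516664) (b (l 16718472) (l 16696560))) (a (l 16509896) (b (l 16716944) (l 16674032)))) (b (c (l 16766120) (l 16765832)) (l 16757968)))) (b (a (b (c (a (l 16515968) (l 16672992)) (a (l 16509176) (a (l 16668312) (l 16757496)))) (a (c (b (l 16515280) (l 16513944)) (b (l 16508464) (l 16507080))) (l 16710080))) (l 16744432))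 (b (a (b (l 16587672) (l 16585056)) (l 16735328)) (a (a (l 16501656) (l 16702792)) (l 16731232)))))) (a (l 16499984) (l 16739616))) (a (a (l 16510920) (l 16715520)) (b (l 16768464) (l 16777216))))) (b (b (a (l 16616872) (l 16777216)) (a (l 16616872) (l 2))) (l 2))), by decide +kernel⟩

def k9_pp_022 : ∃ t, chk3 f_pp_022 t 3 1 1 = true :=
  ⟨(b (a (b (b (l 3) (a (b (l 3) (b (b (l 3) (c (l 940765609863) (l 963314188151))) (b (c (c (l 952576769927) (l 953113640839)) (c (l 953113640839) (l 953113640839))) (c (b (a (l 16777208) (l 16775376)) (a (l 16777200) (l 16771864))) (b (a (l 16777208) (l 16775328)) (a (l 16777200) (l 16771728))))))) (b (b (l 3) (b (l 3) (c (l 1146923751895) (l 992841799495)))) (c (b (b (l 1117932871431) (a (l 16777192) (l 16762360))) (b (b (l 16757544) (l 16749584)) (l 16735488))) (b (b (b (l 974588373575) (l 964924765159)) (b (l 16770776) (l 682530738999))) (b (b (l 16757032) (l 16748872)) (l 16734408))))))) (a (b (b (b (b (a (c (b (l 16775824) (l 16774256))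 (b (l 16775784) (l 16774176))) (b (c (l 16767064) (l 16766800)) (l 16763008))) (b (c (l 16770632) (l 16770456)) (l 16775904))) (b (l 16750968) (b (l 16717968) (b (a (l 16718240) (l 16726928)) (a (l 16717304) (a (a (l 16716736) (l 16727328)) (l 16751568))))))) (a (l 16750448) (l 16738056))) (b (l 16749152) (l 16777128))) (b (b (a (b (l 16754088) (b (l 16751416) (b (l 16742936) (b (l 16747288) (l 16674904))))) (b (l 16735072) (l 2))) (l 16580240)) (l 2)))) (b (a (b (l 3) (b (b (c (l 1026664078119) (l 902646872071)) (a (c (l 530058884823) (b (l 16615832) (l 16699584))) (b (c (l 16606520) (l 16602088)) (l 2)))) (a (b (b (c (l 16738784) (b (l 16737920) (l 16749560))) (c (l 16714584) (l 16712960))) (l 16669616)) (l 2)))) (b (a (l 3) (b (l 3) (l 2))) (l 2))) (l 2))) (l 2)), by decide +kernel⟩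

theorem s10_pp_022 : ∃ t, chk3 f_pp_022 t 4 83 1 = true := ex3_b k3_pp_022 k4_pp_022

theorem s11_pp_022 : ∃ t, chk3 f_pp_022 t 4 41 1 = true := ex3_b k2_pp_022 s10_pp_022

theorem s12_pp_022 : ∃ t, chk3 f_pp_022 t 4 20 1 = true := ex3_b k1_pp_022 s11_pp_022

theorem s13_pp_022 : ∃ t, chk3 f_pp_022 t 4 10 1 = true := ex3_b s12_pp_022 k5_pp_022

theorem s14_pp_022 : ∃ t, chk3 f_pp_022 t 4 5 1 = true := ex3_b s13_pp_022 k6_pp_022

theorem s15_pp_022 : ∃ t, chk3 f_pp_022 t 4 2 1 = true := ex3_b k0_pp_022 s14_pp_022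

theorem s16_pp_022 : ∃ t, chk3 f_pp_022 t 4 1 1 = true := ex3_b s15_pp_022 k7_pp_022

theorem s17_pp_022 : ∃ t, chk3 f_pp_022 t 2 1 1 = true := ex3_a s16_pp_022 k8_pp_022

theorem s18_pp_022 : ∃ t, chk3 f_pp_022 t 1 1 1 = true := ex3_a s17_pp_022 k9_pp_022

theorem c_pp_022 : CertFX 67108864 469762048 1073741824 536870912 1046898278 26843546 false true true .pp 0 2 2
    ndF2q0 ndF6q2 pcF2 Cut.none Ext.none :=
  certFX1 (fam := false) (s1 := true) (s2 := true) (a := 0) (b := 2) (c := 2) (cn := .pp) (n1 := ndF2q0) (n2 := ndF6q2) (pc := pcF2) (cut := Cut.none) (xt := Ext.none) (P1 := 67108864) (W1 := 469762048) (P2 := 1073741824) (W2 := 536870912) (P3 := 1046898278) (W3 := 26843546)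
    rfl (fun _ => rfl) s18_pp_022

noncomputable def f_pp_023 : ℕ → ℕ → ℕ → ℕ → Bool := onCell 1073741824 536870912 0 1230186008 1046898278 26843546
    (rowFX 2 false true true .up 0 2 3 (qsf 67108864 469762048 0 1230186008 2) ndF2q0 ndF6q3 pcF2 Cut.none Ext.none)

def k0_pp_023 : ∃ t, chk3 f_pp_023 t 1 2 1 = true :=
  ⟨(a (l 2) (a (l 2) (b (a (l 2) (l 16723688)) (b (l 16747528) (l 16764968))))), by decide +kernel⟩

def k1_pp_023 : ∃ t, chk3 f_pp_023 t 1 6 1 = true :=
  ⟨(a (a (l 2) (a (l 2) (a (l 2) (b (l 2) (l 16776736))))) (a (b (l 16777160) (c (l 16777200) (l 16777200))) (l 16777176))), by decide +kernel⟩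

def k2_pp_023 : ∃ t, chk3 f_pp_023 t 1 7 1 = true :=
  ⟨(b (a (a (l 2) (b (a (a (l 2) (c (l 15921880) (l 15864536))) (a (c (l 16487784) (l 16467720)) (l 16776816))) (a (a (b (l 2) (b (a (l 2) (a (l 15629312) (a (l 15770096) (l 15814440)))) (a (l 16007096) (a (l 15944328) (a (l 15919680) (l 15959360)))))) (c (c (l 16106056) (l 16087808)) (l 16044024))) (a (c (l 16301832) (l 16545536)) (l 16776872))))) (a (c (l 16777216) (l 16777216)) (a (l 16762776) (b (l 16741376) (a (l 16633808) (l 16430160)))))) (b (a (a (a (l 2) (b (a (l 2) (l 16037376)) (a (a (a (l 16364336) (l 16379168)) (c (l 16393712) (l 16383752))) (a (a (l 16406912) (l 16434728)) (l 16453392))))) (a (a (a (l 16291984) (a (l 16224848) (a (l 16181248) (l 16171064)))) (l 16331872)) (l 16706264))) (a (l 16764760) (a (l 16509432) (b (l 16218008) (l 15859928))))) (a (a (a (a (l 3) (a (l 3) (c (l 873655474231) (l 843053827959)))) (b (a (a (c (a (l 16389568) (l 16499144)) (a (l 16337552) (l 16491920))) (a (c (l 16551296) (l 16545432))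 (l 16552464))) (a (a (l 16556672) (l 16563368)) (l 16524544))) (a (a (c (l 16490368) (l 884930131975)) (a (c (l 16602984) (l 16598456)) (c (l 16670536) (l 16604856)))) (a (a (c (l 16709680) (l 16707920)) (l 16683912)) (l 16676704))))) (a (a (a (b (a (l 16644160) (l 16636488)) (a (l 16719880) (l 16748760))) (a (b (l 16573592) (l 16767728)) (a (b (l 16506808) (l 16738928)) (l 16540936)))) (l 16583960)) (l 16750176))) (a (a (l 16748456) (b (l 16638864) (l 16421688))) (a (b (l 16145432) (a (l 16055848) (l 15767672))) (b (a (l 15814008) (l 15467312)) (a (l 15430088) (l 14835720)))))))), by decide +kernel⟩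

theorem s3_pp_023 : ∃ t, chk3 f_pp_023 t 1 3 1 = true := ex3_b k1_pp_023 k2_pp_023

theorem s4_pp_023 : ∃ t, chk3 f_pp_023 t 1 1 1 = true := ex3_b k0_pp_023 s3_pp_023

theorem c_pp_023 : CertFX 67108864 469762048 0 1230186008 1046898278 26843546 false true true .up 0 2 3
    ndF2q0 ndF6q3 pcF2 Cut.none Ext.none :=
  certFX2 (fam := false) (s1 := true) (s2 := true) (a := 0) (b := 2) (c := 3) (cn := .up) (n1 := ndF2q0) (n2 := ndF6q3) (pc := pcF2) (cut := Cut.none) (xt := Ext.none) (P1 := 67108864) (W1 := 469762048) (P2 := 0) (W2 := 1230186008) (P3 := 1046898278) (W3 := 26843546)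
    rfl (fun _ => rfl) s4_pp_023

noncomputable def f_pp_033 : ℕ → ℕ → ℕ → ℕ → Bool := onCell 67108864 469762048 0 1230186008 1046898278 26843546
    (rowFX 0 false true true .pnn 0 3 3 (qsf 67108864 469762048 0 1230186008 3) ndF2q0 ndF6q3 pcF3 Cut.none Ext.none)

def k0_pp_033 : ∃ t, chk3 f_pp_033 t 1 1 1 = true :=
  ⟨(b (a (b (l 4) (b (a (l 4) (a (b (l 4) (a (b (l 4) (l 16494432)) (c (l 16702608) (l 16695384)))) (c (l 16750048) (b (l 16747312) (l 16753848))))) (b (a (b (a (l 4) (a (l 423824353639) (l 16275992))) (a (a (l 4) (c (l 15877528) (l 15850312))) (a (l 16074768) (l 16281240)))) (a (a (l 16497024) (l 16700456)) (l 16757480))) (a (a (a (b (c (l 15578136) (l 15543768)) (l 15547648)) (c (l 15885408) (l 15861560))) (a (l 16084576) (l 16291312))) (a (l 16529960) (l 16773712)))))) (b (a (c (a (l 16725328) (l 16725328)) (a (l 365306774759) (l 16722792))) (c (l 16725328) (a (l 16722792) (l 16722792)))) (a (b (a (b (l 16753096) (l 16755744)) (l 16747528)) (b (l 16757480) (l 16773712)))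 (b (l 16747528) (l 16764968))))) (b (a (b (a (b (a (a (c (l 15582592) (l 15549808)) (l 15813464)) (c (l 16199256) (l 16184240))) (a (c (l 15583024) (l 15570880)) (l 16191720))) (a (b (l 16616840) (l 16616816)) (l 16777160))) (a (a (a (l 15568680) (l 15876400)) (l 16191768)) (a (l 16616864) (l 16777200)))) (a (b (l 16777160) (l 16777200)) (b (l 1) (l 1)))) (a (a (b (a (b (c (l 15645992) (l 15696776)) (a (l 15505776) (l 15855440))) (b (l 16107896) (l 16191784))) (a (b (l 15714208) (l 15714208)) (b (l 16191784) (l 1)))) (b (a (b (l 16616872) (l 16616872)) (b (l 16777216) (l 1))) (l 1))) (l 1)))), by decide +kernel⟩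

theorem c_pp_033 : CertFX 67108864 469762048 0 1230186008 1046898278 26843546 false true true .pnn 0 3 3
    ndF2q0 ndF6q3 pcF3 Cut.none Ext.none :=
  certFX0 (fam := false) (s1 := true) (s2 := true) (a := 0) (b := 3) (c := 3) (cn := .pnn) (n1 := ndF2q0) (n2 := ndF6q3) (pc := pcF3) (cut := Cut.none) (xt := Ext.none) (P1 := 67108864) (W1 := 469762048) (P2 := 0) (W2 := 1230186008) (P3 := 1046898278) (W3 := 26843546)
    rfl k0_pp_033

noncomputable def f_pp_101 : ℕ → ℕ → ℕ → ℕ → Bool := onCell 536870912 536870912 536870912 469762048 1046898278 26843546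
    (rowFX 0 false true true .npn 1 0 1 (qsf 536870912 536870912 536870912 469762048 0) ndF2q1 ndF6q1 pcF0 Cut.none Ext.none)

def k0_pp_101 : ∃ t, chk3 f_pp_101 t 1 1 1 = true :=
  ⟨(l 3), by decide +kernel⟩

theorem c_pp_101 : CertFX 536870912 536870912 536870912 469762048 1046898278 26843546 false true true .npn 1 0 1
    ndF2q1 ndF6q1 pcF0 Cut.none Ext.none :=
  certFX0 (fam := false) (s1 := true) (s2 := true) (a := 1) (b := 0) (c := 1) (cn := .npn) (n1 := ndF2q1) (n2 := ndF6q1) (pc := pcF0) (cut := Cut.none) (xt := Ext.none) (P1 := 536870912) (W1 := 536870912) (P2 := 536870912) (W2 := 469762048) (P3 := 1046898278) (W3 := 26843546)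
    rfl k0_pp_101

noncomputable def f_pp_102 : ℕ → ℕ → ℕ → ℕ → Bool := onCell 536870912 536870912 1073741824 536870912 1046898278 26843546
    (rowFX 0 false true true .npp 1 0 2 (qsf 536870912 536870912 1073741824 536870912 0) ndF2q1 ndF6q2 pcF0 Cut.none Ext.none)

def k0_pp_102 : ∃ t, chk3 f_pp_102 t 1 1 1 = true :=
  ⟨(l 3), by decide +kernel⟩

theorem c_pp_102 : CertFX 536870912 536870912 1073741824 536870912 1046898278 26843546 false true true .npp 1 0 2
    ndF2q1 ndF6q2 pcF0 Cut.none Ext.none :=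
  certFX0 (fam := false) (s1 := true) (s2 := true) (a := 1) (b := 0) (c := 2) (cn := .npp) (n1 := ndF2q1) (n2 := ndF6q2) (pc := pcF0) (cut := Cut.none) (xt := Ext.none) (P1 := 536870912) (W1 := 536870912) (P2 := 1073741824) (W2 := 536870912) (P3 := 1046898278) (W3 := 26843546)
    rfl k0_pp_102

noncomputable def f_pp_112 : ℕ → ℕ → ℕ → ℕ → Bool := onCell 536870912 536870912 1073741824 536870912 1046898278 26843546
    (rowFX 0 false true true .dn 1 1 2 (qsf 536870912 536870912 1073741824 536870912 1) ndF2q1 ndF6q2 pcF1 Cut.none Ext.none)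

def k0_pp_112 : ∃ t, chk3 f_pp_112 t 1 1 1 = true :=
  ⟨(l 3), by decide +kernel⟩

theorem c_pp_112 : CertFX 536870912 536870912 1073741824 536870912 1046898278 26843546 false true true .dn 1 1 2
    ndF2q1 ndF6q2 pcF1 Cut.none Ext.none :=
  certFX0 (fam := false) (s1 := true) (s2 := true) (a := 1) (b := 1) (c := 2) (cn := .dn) (n1 := ndF2q1) (n2 := ndF6q2) (pc := pcF1) (cut := Cut.none) (xt := Ext.none) (P1 := 536870912) (W1 := 536870912) (P2 := 1073741824) (W2 := 536870912) (P3 := 1046898278) (W3 := 26843546)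
    rfl k0_pp_112

noncomputable def f_pp_113 : ℕ → ℕ → ℕ → ℕ → Bool := onCell 536870912 536870912 0 1230186008 1046898278 26843546
    (rowFX 2 false true true .nn 1 1 3 (qsf 536870912 536870912 0 1230186008 1) ndF2q1 ndF6q3 pcF1 Cut.none Ext.none)

def k0_pp_113 : ∃ t, chk3 f_pp_113 t 1 1 1 = true :=
  ⟨(b (a (l 2) (a (l 2) (b (a (l 2) (b (l 16727672) (l 16712968))) (a (b (a (l 2) (b (l 2) (l 948212846295))) (a (b (l 2) (a (l 1019617219207) (l 16176808))) (b (a (l 16091024) (l 16083696)) (a (l 16151960) (l 16117600))))) (b (a (l 16152064) (l 16059000)) (a (a (b (l 16065736) (l 16071664)) (b (l 16032568) (c (l 16063480) (l 15978024)))) (b (l 15977304) (l 15965384)))))))) (a (b (a (l 2) (l 3)) (l 3)) (a (b (a (l 3) (b (a (l 3) (b (a (l 844597632311) (a (b (l 2) (l 461271853079)) (l 270682568407))) (a (l 3) (c (l 324437073943) (l 16427512))))) (l 3))) (l 3)) (b (a (b (a (b (a (l 232564675815) (l 16259712)) (c (l 16392776) (l 16357224))) (b (c (l 16225376) (l 16156896)) (l 16259320)))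 (a (b (l 16482832) (l 3)) (b (l 16337736) (l 16375208)))) (a (b (a (l 16128264) (b (l 16046120) (l 16087384))) (a (l 16190072) (l 16068848))) (b (a (c (b (l 16019664) (l 16036872)) (l 16006568)) (c (l 15973592) (b (l 15950600) (l 15960616)))) (a (l 15975112) (c (l 15900208) (l 15886712)))))) (a (l 3) (b (a (l 16081616) (b (l 15879504) (l 15862088))) (l 3))))))), by decide +kernel⟩

theorem c_pp_113 : CertFX 536870912 536870912 0 1230186008 1046898278 26843546 false true true .nn 1 1 3
    ndF2q1 ndF6q3 pcF1 Cut.none Ext.none :=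
  certFX2 (fam := false) (s1 := true) (s2 := true) (a := 1) (b := 1) (c := 3) (cn := .nn) (n1 := ndF2q1) (n2 := ndF6q3) (pc := pcF1) (cut := Cut.none) (xt := Ext.none) (P1 := 536870912) (W1 := 536870912) (P2 := 0) (W2 := 1230186008) (P3 := 1046898278) (W3 := 26843546)
    rfl (fun _ => rfl) k0_pp_113

noncomputable def f_pp_123 : ℕ → ℕ → ℕ → ℕ → Bool := onCell 1073741824 536870912 0 1230186008 1046898278 26843546
    (rowFX 2 false true true .npn 1 2 3 (qsf 536870912 536870912 0 1230186008 2) ndF2q1 ndF6q3 pcF2 Cut.none Ext.none)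

def k0_pp_123 : ∃ t, chk3 f_pp_123 t 4 1 1 = true :=
  ⟨(b (b (a (b (l 15799160) (l 15821296)) (b (l 15497784) (l 15508848))) (a (b (l 15821104) (a (l 15970160) (l 15736400))) (b (l 15437160) (l 15359784)))) (b (b (a (b (l 15932344) (l 15982944)) (l 15288344)) (b (a (a (c (a (b (l 16353504) (l 16302552)) (l 16126736)) (a (b (l 16343104) (l 16285696)) (l 16107024))) (c (a (l 15926696) (l 15733528)) (l 15804496))) (b (l 15247016) (a (c (l 15452400) (l 15417632)) (b (l 15062424) (l 14817488))))) (a (a (c (a (l 16178664) (l 16078896)) (l 16096152)) (c (l 15891088) (l 15861080))) (a (c (l 15598728) (l 15567920)) (c (l 15070208) (l 15220904)))))) (a (a (a (b (b (c (a (l 15993976) (l 16021784)) (l 15949048)) (c (b (l 15848312) (l 15838800)) (c (l 15827744) (l 15686168)))) (l 3)) (b (c (b (l 16012304) (l 15954528)) (b (l 15949920) (l 15918792))) (c (l 859159124279) (l 951501020887)))) (b (b (c (a (l 15982352) (l 15956824)) (l 15936088)) (c (a (l 16013112) (a (l 16126200) (l 16081504)))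 (a (l 16017712) (l 16129448)))) (a (b (c (l 805472286775) (l 886539738247)) (l 3)) (c (b (b (l 16134992) (l 16129888)) (l 896204052535)) (b (b (l 16156880) (l 16156976)) (l 982640265079)))))) (a (b (b (c (l 15859688) (l 15826944)) (a (b (l 15901800) (l 16136272)) (b (l 15985680) (l 16121264)))) (a (a (b (b (l 16241800) (l 16364336)) (c (l 620655092039) (l 679710872215))) (b (b (l 16261160) (l 16379168)) (l 1))) (b (b (a (l 16265952) (l 16258888)) (c (l 16393712) (l 16383752))) (l 1)))) (b (b (c (b (l 15528056) (l 15734392)) (l 15587920)) (b (a (c (l 15929712) (l 15940024)) (l 15643144)) (c (l 16002512) (b (l 15977640) (l 16098280))))) (b (a (b (l 16254424) (a (l 16406912) (l 1))) (l 643740422311)) (l 1))))))), by decide +kernel⟩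

def k1_pp_123 : ∃ t, chk3 f_pp_123 t 5 1 1 = true :=
  ⟨(b (a (b (a (a (l 15145112) (l 15278384)) (l 15756024)) (a (a (l 15061040) (l 15217432)) (l 15779728))) (b (a (l 16305688) (l 16565544)) (a (l 16459352) (l 16749784)))) (a (b (b (a (l 14987288) (l 15673560)) (a (a (b (b (l 14842184) (l 14789000)) (c (l 15004904) (l 14959616))) (b (l 14997016) (c (a (l 15026728) (l 15204344)) (l 14968464)))) (b (l 15625520) (c (l 15682936) (l 15591328))))) (b (a (a (b (c (l 15238808) (l 15391088)) (b (l 15462576) (c (l 15885648) (l 15891712)))) (b (b (l 15267256) (a (l 15412720) (l 15560016))) (a (c (b (l 15598848) (l 15832904)) (l 15518280)) (b (l 15661496) (b (a (l 15770096) (l 15814440)) (l 1)))))) (b (c (l 15921880) (l 15864536)) (c (c (l 16106056) (l 16087808)) (l 676489424711)))) (a (a (b (l 16291984) (l 1)) (l 1)) (l 1)))) (b (a (b (l 16411512) (b (l 16394672) (c (l 16407960) (l 16398216)))) (b (l 16776752) (l 16776736))) (b (b (a (c (l 16487784) (l 16467720)) (l 16776816)) (l 1)) (l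 1))))), by decide +kernel⟩

def k2_pp_123 : ∃ t, chk3 f_pp_123 t 3 1 1 = true :=
  ⟨(b (a (b (a (l 16620200) (l 16719248)) (b (l 16739080) (l 16764968))) (b (a (l 16723688) (l 16723688)) (b (l 16747528) (l 16764968)))) (b (a (b (l 16777160) (c (l 16777200) (l 16777200))) (l 16777176)) (l 1))), by decide +kernel⟩

theorem s3_pp_123 : ∃ t, chk3 f_pp_123 t 2 1 1 = true := ex3_a k0_pp_123 k1_pp_123

theorem s4_pp_123 : ∃ t, chk3 f_pp_123 t 1 1 1 = true := ex3_a s3_pp_123 k2_pp_123

theorem c_pp_123 : CertFX 536870912 536870912 0 1230186008 1046898278 26843546 false true true .npn 1 2 3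
    ndF2q1 ndF6q3 pcF2 Cut.none Ext.none :=
  certFX2 (fam := false) (s1 := true) (s2 := true) (a := 1) (b := 2) (c := 3) (cn := .npn) (n1 := ndF2q1) (n2 := ndF6q3) (pc := pcF2) (cut := Cut.none) (xt := Ext.none) (P1 := 536870912) (W1 := 536870912) (P2 := 0) (W2 := 1230186008) (P3 := 1046898278) (W3 := 26843546)
    rfl (fun _ => rfl) s4_pp_123

noncomputable def f_pp_133 : ℕ → ℕ → ℕ → ℕ → Bool := onCell 536870912 536870912 0 1230186008 1046898278 26843546
    (rowFX 0 false true true .dn 1 3 3 (qsf 536870912 536870912 0 1230186008 3) ndF2q1 ndF6q3 pcF3 Cut.none Ext.none)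

def k0_pp_133 : ∃ t, chk3 f_pp_133 t 1 1 1 = true :=
  ⟨(b (a (b (a (a (l 16722568) (l 1)) (l 1)) (l 1)) (l 1)) (l 1)), by decide +kernel⟩

theorem c_pp_133 : CertFX 536870912 536870912 0 1230186008 1046898278 26843546 false true true .dn 1 3 3
    ndF2q1 ndF6q3 pcF3 Cut.none Ext.none :=
  certFX0 (fam := false) (s1 := true) (s2 := true) (a := 1) (b := 3) (c := 3) (cn := .dn) (n1 := ndF2q1) (n2 := ndF6q3) (pc := pcF3) (cut := Cut.none) (xt := Ext.none) (P1 := 536870912) (W1 := 536870912) (P2 := 0) (W2 := 1230186008) (P3 := 1046898278) (W3 := 26843546)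
    rfl k0_pp_133

noncomputable def f_pp_202_a : ℕ → ℕ → ℕ → ℕ → Bool := onCell 0 420477299 1073741824 536870912 1046898278 26843546
    (rowFX 0 false true true .pp 2 0 2 (qsf 0 420477299 1073741824 536870912 0) ndF2q2a ndF6q2 pcF0 Cut.none Ext.none)

def k0_pp_202_a : ∃ t, chk3 f_pp_202_a t 1 1 1 = true :=
  ⟨(l 3), by decide +kernel⟩

theorem c_pp_202_a : CertFX 0 420477299 1073741824 536870912 1046898278 26843546 false true true .pp 2 0 2
    ndF2q2a ndF6q2 pcF0 Cut.none Ext.none :=
  certFX0 (fam := false) (s1 := true) (s2 := true) (a := 2) (b := 0) (c := 2) (cn := .pp) (n1 := ndF2q2a) (n2 := ndF6q2) (pc := pcF0) (cut := Cut.none) (xt := Ext.none) (P1 := 0) (W1 := 420477299) (P2 := 1073741824) (W2 := 536870912) (P3 := 1046898278) (W3 := 26843546)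
    rfl k0_pp_202_a

noncomputable def f_pp_202_b : ℕ → ℕ → ℕ → ℕ → Bool := onCell 1239849684 370763052 1073741824 536870912 1046898278 26843546
    (rowFX 0 false true true .pp 2 0 2 (qsf 1239849684 370763052 1073741824 536870912 0) ndF2q2b ndF6q2 pcF0 Cut.none Ext.none)

def k0_pp_202_b : ∃ t, chk3 f_pp_202_b t 1 1 1 = true :=
  ⟨(l 5), by decide +kernel⟩

theorem c_pp_202_b : CertFX 1239849684 370763052 1073741824 536870912 1046898278 26843546 false true true .pp 2 0 2
    ndF2q2b ndF6q2 pcF0 Cut.none Ext.none :=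
  certFX0 (fam := false) (s1 := true) (s2 := true) (a := 2) (b := 0) (c := 2) (cn := .pp) (n1 := ndF2q2b) (n2 := ndF6q2) (pc := pcF0) (cut := Cut.none) (xt := Ext.none) (P1 := 1239849684) (W1 := 370763052) (P2 := 1073741824) (W2 := 536870912) (P3 := 1046898278) (W3 := 26843546)
    rfl k0_pp_202_b

noncomputable def f_pp_203_a : ℕ → ℕ → ℕ → ℕ → Bool := onCell 0 420477299 0 1230186008 1046898278 26843546
    (rowFX 0 false true true .up 2 0 3 (qsf 0 420477299 0 1230186008 0) ndF2q2a ndF6q3 pcF0 Cut.none Ext.none)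

def k0_pp_203_a : ∃ t, chk3 f_pp_203_a t 1 1 1 = true :=
  ⟨(b (l 2) (l 3)), by decide +kernel⟩

theorem c_pp_203_a : CertFX 0 420477299 0 1230186008 1046898278 26843546 false true true .up 2 0 3
    ndF2q2a ndF6q3 pcF0 Cut.none Ext.none :=
  certFX0 (fam := false) (s1 := true) (s2 := true) (a := 2) (b := 0) (c := 3) (cn := .up) (n1 := ndF2q2a) (n2 := ndF6q3) (pc := pcF0) (cut := Cut.none) (xt := Ext.none) (P1 := 0) (W1 := 420477299) (P2 := 0) (W2 := 1230186008) (P3 := 1046898278) (W3 := 26843546)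
    rfl k0_pp_203_a

noncomputable def f_pp_203_b : ℕ → ℕ → ℕ → ℕ → Bool := onCell 1239849684 370763052 0 1230186008 1046898278 26843546
    (rowFX 0 false true true .up 2 0 3 (qsf 1239849684 370763052 0 1230186008 0) ndF2q2b ndF6q3 pcF0 Cut.none Ext.none)

def k0_pp_203_b : ∃ t, chk3 f_pp_203_b t 1 1 1 = true :=
  ⟨(b (l 3) (l 3)), by decide +kernel⟩

theorem c_pp_203_b : CertFX 1239849684 370763052 0 1230186008 1046898278 26843546 false true true .up 2 0 3
    ndF2q2b ndF6q3 pcF0 Cut.none Ext.none :=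
  certFX0 (fam := false) (s1 := true) (s2 := true) (a := 2) (b := 0) (c := 3) (cn := .up) (n1 := ndF2q2b) (n2 := ndF6q3) (pc := pcF0) (cut := Cut.none) (xt := Ext.none) (P1 := 1239849684) (W1 := 370763052) (P2 := 0) (W2 := 1230186008) (P3 := 1046898278) (W3 := 26843546)
    rfl k0_pp_203_b

noncomputable def f_pp_213_a : ℕ → ℕ → ℕ → ℕ → Bool := onCell 0 420477299 0 1230186008 1046898278 26843546
    (rowFX 0 false true true .pnn 2 1 3 (qsf 0 420477299 0 1230186008 1) ndF2q2a ndF6q3 pcF1 Cut.none Ext.none)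

def k0_pp_213_a : ∃ t, chk3 f_pp_213_a t 1 1 1 = true :=
  ⟨(b (l 3) (l 3)), by decide +kernel⟩

theorem c_pp_213_a : CertFX 0 420477299 0 1230186008 1046898278 26843546 false true true .pnn 2 1 3
    ndF2q2a ndF6q3 pcF1 Cut.none Ext.none :=
  certFX0 (fam := false) (s1 := true) (s2 := true) (a := 2) (b := 1) (c := 3) (cn := .pnn) (n1 := ndF2q2a) (n2 := ndF6q3) (pc := pcF1) (cut := Cut.none) (xt := Ext.none) (P1 := 0) (W1 := 420477299) (P2 := 0) (W2 := 1230186008) (P3 := 1046898278) (W3 := 26843546)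
    rfl k0_pp_213_a

noncomputable def f_pp_213_b : ℕ → ℕ → ℕ → ℕ → Bool := onCell 1239849684 370763052 0 1230186008 1046898278 26843546
    (rowFX 0 false true true .pnn 2 1 3 (qsf 1239849684 370763052 0 1230186008 1) ndF2q2b ndF6q3 pcF1 Cut.none Ext.none)

def k0_pp_213_b : ∃ t, chk3 f_pp_213_b t 1 1 1 = true :=
  ⟨(b (l 3) (l 3)), by decide +kernel⟩

theorem c_pp_213_b : CertFX 1239849684 370763052 0 1230186008 1046898278 26843546 false true true .pnn 2 1 3
    ndF2q2b ndF6q3 pcF1 Cut.none Ext.none :=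
  certFX0 (fam := false) (s1 := true) (s2 := true) (a := 2) (b := 1) (c := 3) (cn := .pnn) (n1 := ndF2q2b) (n2 := ndF6q3) (pc := pcF1) (cut := Cut.none) (xt := Ext.none) (P1 := 1239849684) (W1 := 370763052) (P2 := 0) (W2 := 1230186008) (P3 := 1046898278) (W3 := 26843546)
    rfl k0_pp_213_b

noncomputable def f_pp_303 : ℕ → ℕ → ℕ → ℕ → Bool := onCell 1610612736 469762048 0 1230186008 1046898278 26843546
    (rowFX 0 false true true .npn 3 0 3 (qsf 1610612736 469762048 0 1230186008 0) ndF2q3 ndF6q3 pcF0 Cut.none Ext.none)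

def k0_pp_303 : ∃ t, chk3 f_pp_303 t 1 1 1 = true :=
  ⟨(b (l 3) (l 3)), by decide +kernel⟩

theorem c_pp_303 : CertFX 1610612736 469762048 0 1230186008 1046898278 26843546 false true true .npn 3 0 3
    ndF2q3 ndF6q3 pcF0 Cut.none Ext.none :=
  certFX0 (fam := false) (s1 := true) (s2 := true) (a := 3) (b := 0) (c := 3) (cn := .npn) (n1 := ndF2q3) (n2 := ndF6q3) (pc := pcF0) (cut := Cut.none) (xt := Ext.none) (P1 := 1610612736) (W1 := 469762048) (P2 := 0) (W2 := 1230186008) (P3 := 1046898278) (W3 := 26843546)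
    rfl k0_pp_303

noncomputable def f_pp_313 : ℕ → ℕ → ℕ → ℕ → Bool := onCell 1610612736 469762048 0 1230186008 1046898278 26843546
    (rowFX 0 false true true .dn 3 1 3 (qsf 1610612736 469762048 0 1230186008 1) ndF2q3 ndF6q3 pcF1 Cut.none Ext.none)

def k0_pp_313 : ∃ t, chk3 f_pp_313 t 1 1 1 = true :=
  ⟨(b (l 3) (l 1)), by decide +kernel⟩

theorem c_pp_313 : CertFX 1610612736 469762048 0 1230186008 1046898278 26843546 false true true .dn 3 1 3
    ndF2q3 ndF6q3 pcF1 Cut.none Ext.none :=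
  certFX0 (fam := false) (s1 := true) (s2 := true) (a := 3) (b := 1) (c := 3) (cn := .dn) (n1 := ndF2q3) (n2 := ndF6q3) (pc := pcF1) (cut := Cut.none) (xt := Ext.none) (P1 := 1610612736) (W1 := 469762048) (P2 := 0) (W2 := 1230186008) (P3 := 1046898278) (W3 := 26843546)
    rfl k0_pp_313

noncomputable def f_pm_001 : ℕ → ℕ → ℕ → ℕ → Bool := onCell 67108864 469762048 536870912 469762048 1046898278 26843546
    (rowFX 0 false true false .up 0 0 1 (qsf 67108864 469762048 536870912 469762048 0) ndF2q0 ndF6q1 pcF0 Cut.none Ext.none)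

def k0_pm_001 : ∃ t, chk3 f_pm_001 t 1 1 1 = true :=
  ⟨(l 4), by decide +kernel⟩

theorem c_pm_001 : CertFX 67108864 469762048 536870912 469762048 1046898278 26843546 false true false .up 0 0 1
    ndF2q0 ndF6q1 pcF0 Cut.none Ext.none :=
  certFX0 (fam := false) (s1 := true) (s2 := false) (a := 0) (b := 0) (c := 1) (cn := .up) (n1 := ndF2q0) (n2 := ndF6q1) (pc := pcF0) (cut := Cut.none) (xt := Ext.none) (P1 := 67108864) (W1 := 469762048) (P2 := 536870912) (W2 := 469762048) (P3 := 1046898278) (W3 := 26843546)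
    rfl k0_pm_001

noncomputable def f_pm_011 : ℕ → ℕ → ℕ → ℕ → Bool := onCell 67108864 469762048 536870912 469762048 1046898278 26843546
    (rowFX 0 false true false .pnn 0 1 1 (qsf 67108864 469762048 536870912 469762048 1) ndF2q0 ndF6q1 pcF1 Cut.none Ext.none)

def k0_pm_011 : ∃ t, chk3 f_pm_011 t 1 1 1 = true :=
  ⟨(l 4), by decide +kernel⟩

theorem c_pm_011 : CertFX 67108864 469762048 536870912 469762048 1046898278 26843546 false true false .pnn 0 1 1
    ndF2q0 ndF6q1 pcF1 Cut.none Ext.none :=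
  certFX0 (fam := false) (s1 := true) (s2 := false) (a := 0) (b := 1) (c := 1) (cn := .pnn) (n1 := ndF2q0) (n2 := ndF6q1) (pc := pcF1) (cut := Cut.none) (xt := Ext.none) (P1 := 67108864) (W1 := 469762048) (P2 := 536870912) (W2 := 469762048) (P3 := 1046898278) (W3 := 26843546)
    rfl k0_pm_011

noncomputable def f_pm_012 : ℕ → ℕ → ℕ → ℕ → Bool := onCell 67108864 469762048 1073741824 536870912 1046898278 26843546
    (rowFX 0 false true false .pnp 0 1 2 (qsf 67108864 469762048 1073741824 536870912 1) ndF2q0 ndF6q2 pcF1 Cut.none Ext.none)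

def k0_pm_012 : ∃ t, chk3 f_pm_012 t 1 1 1 = true :=
  ⟨(l 4), by decide +kernel⟩

theorem c_pm_012 : CertFX 67108864 469762048 1073741824 536870912 1046898278 26843546 false true false .pnp 0 1 2
    ndF2q0 ndF6q2 pcF1 Cut.none Ext.none :=
  certFX0 (fam := false) (s1 := true) (s2 := false) (a := 0) (b := 1) (c := 2) (cn := .pnp) (n1 := ndF2q0) (n2 := ndF6q2) (pc := pcF1) (cut := Cut.none) (xt := Ext.none) (P1 := 67108864) (W1 := 469762048) (P2 := 1073741824) (W2 := 536870912) (P3 := 1046898278) (W3 := 26843546)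
    rfl k0_pm_012

noncomputable def f_pm_022 : ℕ → ℕ → ℕ → ℕ → Bool := onCell 67108864 469762048 1073741824 536870912 1046898278 26843546
    (rowFX 0 false true false .pp 0 2 2 (qsf 67108864 469762048 1073741824 536870912 2) ndF2q0 ndF6q2 pcF2 Cut.none Ext.none)

def k0_pm_022 : ∃ t, chk3 f_pm_022 t 1 1 1 = true :=
  ⟨(l 4), by decide +kernel⟩

theorem c_pm_022 : CertFX 67108864 469762048 1073741824 536870912 1046898278 26843546 false true false .pp 0 2 2
    ndF2q0 ndF6q2 pcF2 Cut.none Ext.none :=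
  certFX0 (fam := false) (s1 := true) (s2 := false) (a := 0) (b := 2) (c := 2) (cn := .pp) (n1 := ndF2q0) (n2 := ndF6q2) (pc := pcF2) (cut := Cut.none) (xt := Ext.none) (P1 := 67108864) (W1 := 469762048) (P2 := 1073741824) (W2 := 536870912) (P3 := 1046898278) (W3 := 26843546)
    rfl k0_pm_022

noncomputable def f_pm_023 : ℕ → ℕ → ℕ → ℕ → Bool := onCell 67108864 469762048 0 1230186008 1046898278 26843546
    (rowFX 0 false true false .up 0 2 3 (qsf 67108864 469762048 0 1230186008 2) ndF2q0 ndF6q3 pcF2 Cut.none Ext.none)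

def k0_pm_023 : ∃ t, chk3 f_pm_023 t 1 1 1 = true :=
  ⟨(b (b (l 4) (l 4)) (l 4)), by decide +kernel⟩

theorem c_pm_023 : CertFX 67108864 469762048 0 1230186008 1046898278 26843546 false true false .up 0 2 3
    ndF2q0 ndF6q3 pcF2 Cut.none Ext.none :=
  certFX0 (fam := false) (s1 := true) (s2 := false) (a := 0) (b := 2) (c := 3) (cn := .up) (n1 := ndF2q0) (n2 := ndF6q3) (pc := pcF2) (cut := Cut.none) (xt := Ext.none) (P1 := 67108864) (W1 := 469762048) (P2 := 0) (W2 := 1230186008) (P3 := 1046898278) (W3 := 26843546)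
    rfl k0_pm_023

noncomputable def f_pm_033 : ℕ → ℕ → ℕ → ℕ → Bool := onCell 67108864 469762048 0 1230186008 1046898278 26843546
    (rowFX 0 false true false .pnn 0 3 3 (qsf 67108864 469762048 0 1230186008 3) ndF2q0 ndF6q3 pcF3 Cut.none Ext.none)

def k0_pm_033 : ∃ t, chk3 f_pm_033 t 1 1 1 = true :=
  ⟨(b (b (l 4) (l 4)) (l 4)), by decide +kernel⟩

theorem c_pm_033 : CertFX 67108864 469762048 0 1230186008 1046898278 26843546 false true false .pnn 0 3 3
    ndF2q0 ndF6q3 pcF3 Cut.none Ext.none :=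
  certFX0 (fam := false) (s1 := true) (s2 := false) (a := 0) (b := 3) (c := 3) (cn := .pnn) (n1 := ndF2q0) (n2 := ndF6q3) (pc := pcF3) (cut := Cut.none) (xt := Ext.none) (P1 := 67108864) (W1 := 469762048) (P2 := 0) (W2 := 1230186008) (P3 := 1046898278) (W3 := 26843546)
    rfl k0_pm_033

noncomputable def f_pm_101 : ℕ → ℕ → ℕ → ℕ → Bool := onCell 536870912 536870912 536870912 469762048 1046898278 26843546
    (rowFX 0 false true false .npn 1 0 1 (qsf 536870912 536870912 536870912 469762048 0) ndF2q1 ndF6q1 pcF0 Cut.none Ext.none)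

def k0_pm_101 : ∃ t, chk3 f_pm_101 t 1 1 1 = true :=
  ⟨(l 4), by decide +kernel⟩

theorem c_pm_101 : CertFX 536870912 536870912 536870912 469762048 1046898278 26843546 false true false .npn 1 0 1
    ndF2q1 ndF6q1 pcF0 Cut.none Ext.none :=
  certFX0 (fam := false) (s1 := true) (s2 := false) (a := 1) (b := 0) (c := 1) (cn := .npn) (n1 := ndF2q1) (n2 := ndF6q1) (pc := pcF0) (cut := Cut.none) (xt := Ext.none) (P1 := 536870912) (W1 := 536870912) (P2 := 536870912) (W2 := 469762048) (P3 := 1046898278) (W3 := 26843546)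
    rfl k0_pm_101

noncomputable def f_pm_102 : ℕ → ℕ → ℕ → ℕ → Bool := onCell 536870912 536870912 1073741824 536870912 1046898278 26843546
    (rowFX 0 false true false .npp 1 0 2 (qsf 536870912 536870912 1073741824 536870912 0) ndF2q1 ndF6q2 pcF0 Cut.none Ext.none)

def k0_pm_102 : ∃ t, chk3 f_pm_102 t 1 1 1 = true :=
  ⟨(l 4), by decide +kernel⟩

theorem c_pm_102 : CertFX 536870912 536870912 1073741824 536870912 1046898278 26843546 false true false .npp 1 0 2
    ndF2q1 ndF6q2 pcF0 Cut.none Ext.none :=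
  certFX0 (fam := false) (s1 := true) (s2 := false) (a := 1) (b := 0) (c := 2) (cn := .npp) (n1 := ndF2q1) (n2 := ndF6q2) (pc := pcF0) (cut := Cut.none) (xt := Ext.none) (P1 := 536870912) (W1 := 536870912) (P2 := 1073741824) (W2 := 536870912) (P3 := 1046898278) (W3 := 26843546)
    rfl k0_pm_102

noncomputable def f_pm_112 : ℕ → ℕ → ℕ → ℕ → Bool := onCell 536870912 536870912 1073741824 536870912 1046898278 26843546
    (rowFX 0 false true false .dn 1 1 2 (qsf 536870912 536870912 1073741824 536870912 1) ndF2q1 ndF6q2 pcF1 Cut.none Ext.none)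

def k0_pm_112 : ∃ t, chk3 f_pm_112 t 1 1 1 = true :=
  ⟨(l 4), by decide +kernel⟩

theorem c_pm_112 : CertFX 536870912 536870912 1073741824 536870912 1046898278 26843546 false true false .dn 1 1 2
    ndF2q1 ndF6q2 pcF1 Cut.none Ext.none :=
  certFX0 (fam := false) (s1 := true) (s2 := false) (a := 1) (b := 1) (c := 2) (cn := .dn) (n1 := ndF2q1) (n2 := ndF6q2) (pc := pcF1) (cut := Cut.none) (xt := Ext.none) (P1 := 536870912) (W1 := 536870912) (P2 := 1073741824) (W2 := 536870912) (P3 := 1046898278) (W3 := 26843546)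
    rfl k0_pm_112

noncomputable def f_pm_113 : ℕ → ℕ → ℕ → ℕ → Bool := onCell 536870912 536870912 0 1230186008 1046898278 26843546
    (rowFX 0 false true false .nn 1 1 3 (qsf 536870912 536870912 0 1230186008 1) ndF2q1 ndF6q3 pcF1 Cut.none Ext.none)

def k0_pm_113 : ∃ t, chk3 f_pm_113 t 1 1 1 = true :=
  ⟨(b (a (l 2) (a (l 2) (b (a (l 2) (b (l 15589976) (a (l 2) (l 15679104)))) (b (a (l 13972928) (a (l 14538896) (b (l 15239880) (l 15127808)))) (a (b (a (l 2) (l 13899768)) (a (b (l 13537224) (l 4)) (a (b (c (l 13764784) (c (l 13706752) (a (l 13607304) (l 13721520)))) (l 4)) (b (b (l 13952904) (c (l 14018392) (l 14002400))) (c (l 14036632) (l 13990640)))))) (b (a (l 14408776) (l 15131824)) (b (a (a (c (l 14346480) (l 14291640)) (l 14715776)) (l 15230568)) (c (a (a (b (b (l 14501200) (l 14287912)) (l 14337736)) (b (l 14874528) (a (l 14528808) (l 14851128)))) (a (l 15261336) (l 15568448))) (a (a (b (l 14404312) (l 14232128)) (b (l 14707536) (l 14610232))) (a (l 15047976) (l 15319472)))))))))))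 (b (a (l 4) (a (l 4) (b (a (l 4) (b (a (c (b (a (l 14352696) (l 14737776)) (l 14638112)) (b (l 14467192) (l 14503952))) (a (b (c (l 14800776) (l 14774896)) (l 14815048)) (b (b (l 15360312) (l 15155168)) (l 15219896)))) (a (l 4) (l 15122776)))) (l 4)))) (l 4))), by decide +kernel⟩

theorem c_pm_113 : CertFX 536870912 536870912 0 1230186008 1046898278 26843546 false true false .nn 1 1 3
    ndF2q1 ndF6q3 pcF1 Cut.none Ext.none :=
  certFX0 (fam := false) (s1 := true) (s2 := false) (a := 1) (b := 1) (c := 3) (cn := .nn) (n1 := ndF2q1) (n2 := ndF6q3) (pc := pcF1) (cut := Cut.none) (xt := Ext.none) (P1 := 536870912) (W1 := 536870912) (P2 := 0) (W2 := 1230186008) (P3 := 1046898278) (W3 := 26843546)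
    rfl k0_pm_113

noncomputable def f_pm_123 : ℕ → ℕ → ℕ → ℕ → Bool := onCell 1073741824 536870912 0 1230186008 1046898278 26843546
    (rowFX 2 false true false .npn 1 2 3 (qsf 536870912 536870912 0 1230186008 2) ndF2q1 ndF6q3 pcF2 Cut.none Ext.none)

def k0_pm_123 : ∃ t, chk3 f_pm_123 t 1 1 1 = true :=
  ⟨(b (b (a (a (a (b (l 15618168) (l 15060440)) (a (l 15300192) (l 15172024))) (a (a (l 15230376) (l 15641872)) (a (l 16004432) (l 16232224)))) (a (a (l 16412952) (l 16715208)) (c (l 16725328) (l 16722792)))) (a (a (a (b (a (l 14424640) (l 14540824)) (a (c (l 13916744) (l 13860336)) (b (l 14221408) (l 4)))) (a (b (l 14675248) (b (l 14477928) (l 4))) (b (l 14849896) (l 4)))) (a (b (a (l 15165096) (l 15522184)) (l 4)) (a (l 15770864) (l 16077736)))) (l 4))) (a (b (l 4) (l 4)) (l 4))), by decide +kernel⟩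

theorem c_pm_123 : CertFX 536870912 536870912 0 1230186008 1046898278 26843546 false true false .npn 1 2 3
    ndF2q1 ndF6q3 pcF2 Cut.none Ext.none :=
  certFX2 (fam := false) (s1 := true) (s2 := false) (a := 1) (b := 2) (c := 3) (cn := .npn) (n1 := ndF2q1) (n2 := ndF6q3) (pc := pcF2) (cut := Cut.none) (xt := Ext.none) (P1 := 536870912) (W1 := 536870912) (P2 := 0) (W2 := 1230186008) (P3 := 1046898278) (W3 := 26843546)
    rfl (fun _ => rfl) k0_pm_123

noncomputable def f_pm_133 : ℕ → ℕ → ℕ → ℕ → Bool := onCell 1610612736 536870912 0 1230186008 1046898278 26843546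
    (rowFX 2 false true false .dn 1 3 3 (qsf 536870912 536870912 0 1230186008 3) ndF2q1 ndF6q3 pcF3 Cut.none Ext.none)

def k0_pm_133 : ∃ t, chk3 f_pm_133 t 1 1 1 = true :=
  ⟨(b (a (a (l 4) (l 1)) (l 1)) (l 1)), by decide +kernel⟩

theorem c_pm_133 : CertFX 536870912 536870912 0 1230186008 1046898278 26843546 false true false .dn 1 3 3
    ndF2q1 ndF6q3 pcF3 Cut.none Ext.none :=
  certFX2 (fam := false) (s1 := true) (s2 := false) (a := 1) (b := 3) (c := 3) (cn := .dn) (n1 := ndF2q1) (n2 := ndF6q3) (pc := pcF3) (cut := Cut.none) (xt := Ext.none) (P1 := 536870912) (W1 := 536870912) (P2 := 0) (W2 := 1230186008) (P3 := 1046898278) (W3 := 26843546)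
    rfl (fun _ => rfl) k0_pm_133

noncomputable def f_pm_202_a : ℕ → ℕ → ℕ → ℕ → Bool := onCell 0 420477299 0 536870912 1046898278 26843546
    (rowFX 1 false true false .pp 2 0 2 (qsf 0 420477299 1073741824 536870912 0) ndF2q2a ndF6q2 pcF0 Cut.none Ext.none)

def k0_pm_202_a : ∃ t, chk3 f_pm_202_a t 2 8 1 = true :=
  ⟨(b (b (c (b (a (b (l 16294112) (a (l 16360680) (l 16213208))) (a (c (l 16118952) (l 15979312)) (b (l 15862320) (c (l 15892312) (b (l 15859976) (l 15861840)))))) (a (b (c (a (l 16468992) (b (l 16368368) (l 16382176))) (l 16242208)) (c (l 16464200) (l 16396464))) (b (c (a (l 16049872) (b (l 15927752) (l 15965072))) (a (l 16199064) (l 15924536))) (c (a (l 16301184) (l 16033296)) (a (l 16270952) (l 16040368)))))) (b (a (c (b (l 16275584) (b (l 16224752) (a (l 16416872) (l 16330560)))) (b (c (l 16017904) (b (l 16056896) (l 16286280))) (c (l 16350744) (l 16343296)))) (c (a (b (l 16056160) (b (l 16112400) (l 16154312))) (b (l 15835504) (b (c (l 15848192) (l 15846432)) (l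 15647168)))) (b (a (c (l 15984960) (b (l 16000824) (l 16063656))) (c (b (l 15814136) (l 15759360)) (b (c (l 15808808) (l 15805288)) (l 15816976)))) (a (l 16086408) (c (l 15862464) (l 15852144)))))) (a (c (b (l 16274344) (l 16512880)) (l 16459416)) (c (b (a (l 16201144) (l 15922328)) (l 16012520)) (l 15911024))))) (c (a (a (b (c (l 16403240) (l 16537280)) (l 16393000)) (b (c (l 16394568) (l 16556008)) (l 16401264))) (b (c (b (l 16008800) (a (l 16441960) (l 16136224))) (a (l 16304184) (l 16014624))) (a (l 16451920) (b (l 16240584) (l 16349304))))) (a (c (l 16353504) (l 16572768)) (a (l 16221680) (c (l 16103344) (l 16195400)))))) (a (b (c (c (l 16268576) (a (l 16265808) (l 16320016))) (l 16259104)) (c (b (l 16029384) (l 15995696)) (l 16094856))) (b (c (a (c (l 16515232) (l 16480576)) (c (l 16522904) (l 16354032))) (a (l 16552104) (l 16447832))) (c (a (c (l 16188104) (l 16318552)) (c (l 16363888) (l 16581488))) (l 16196840))))), by decide +kernel⟩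

def k1_pm_202_a : ∃ t, chk3 f_pm_202_a t 3 16 1 = true :=
  ⟨(a (b (c (b (a (c (l 15764272) (a (l 15756152) (l 15548216))) (l 15704632)) (a (b (c (b (l 15709328) (a (l 15728904) (l 15673432))) (a (l 15707200) (l 15678368))) (c (a (l 15776272) (l 15661544)) (a (l 15779184) (l 15662432)))) (b (l 15642904) (c (l 15616504) (l 15616192))))) (b (a (c (b (l 15751048) (b (l 15718728) (c (l 15704248) (l 15704952)))) (b (c (b (l 15749304) (l 15729104)) (b (c (l 15743656) (l 15739920)) (l 15723112))) (c (l 15703752) (l 15692576)))) (c (b (l 15699208) (l 15660304)) (b (c (l 15687360) (l 15679488)) (l 15647160)))) (c (a (b (a (l 15680736) (l 15671952)) (l 15688872)) (b (l 15630408) (l 15595096))) (a (a (l 15725808) (l 15632816)) (l 15587920))))) (c (a (b (c (b (l 15783592) (l 15605168)) (b (c (l 15592376) (l 15767600)) (l 15830832))) (l 15788144)) (b (a (c (b (l 15615208) (c (l 15609152) (l 15601192))) (b (l 15602696) (l 15574768))) (l 15555504)) (b (a (l 15580768) (l 15505856)) (l 15427568))))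 (a (b (c (l 15734392) (l 15756264)) (l 15905312)) (b (c (l 15374384) (l 15519280)) (a (l 15573984) (l 15436592)))))) (b (c (b (a (l 15671600) (a (l 15688752) (l 15634648))) (a (c (l 15596528) (b (l 15602512) (l 15577784))) (c (b (l 15629432) (l 15608992)) (b (l 15621088) (l 15606584))))) (b (a (c (b (l 15666312) (l 15626016)) (b (c (l 15654168) (l 15562208)) (l 15612272))) (c (b (l 15642024) (a (l 15652240) (l 15610136))) (b (a (b (l 15673192) (l 15660272)) (b (l 15589312) (l 15590552))) (c (l 15617440) (l 15606344))))) (a (c (l 15573944) (l 15550064)) (c (a (l 15599480) (l 15595336)) (l 15570920))))) (c (a (b (c (l 15545712) (l 15525056)) (l 15460376)) (b (c (l 15577400) (l 15557400)) (l 15489608))) (a (l 15440912) (c (l 15483624) (l 15462160)))))), by decide +kernel⟩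

def k2_pm_202_a : ∃ t, chk3 f_pm_202_a t 3 17 1 = true :=
  ⟨(a (b (a (c (c (l 16175720) (l 16023464)) (l 16130896)) (c (b (a (l 15759376) (l 15391272)) (l 15579392)) (b (l 15443832) (l 15731600)))) (c (a (c (l 16179936) (l 16421496)) (c (l 15737720) (l 15973264))) (a (l 16394648) (l 15958000)))) (a (b (b (c (l 15380384) (l 15325768)) (a (a (c (l 15428408) (l 15383080)) (l 15181744)) (l 15208616))) (c (b (a (l 15503360) (l 15287424)) (c (l 15356360) (l 15505776))) (a (l 15540864) (l 15265512)))) (b (c (l 15359000) (l 15307296)) (c (a (l 15131944) (l 15198264)) (a (l 15171360) (l 15153400)))))), by decide +kernel⟩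

def k3_pm_202_a : ∃ t, chk3 f_pm_202_a t 1 9 1 = true :=
  ⟨(a (b (a (b (b (c (l 15987616) (l 15966696)) (l 15978256)) (l 16046616)) (c (b (a (l 16133984) (l 16357656)) (l 16107984)) (a (l 15993208) (b (l 16347368) (l 16228880))))) (a (l 16169792) (l 16266672))) (a (b (b (a (b (l 16468336) (l 16632584)) (b (l 15988232) (l 16311008))) (a (l 16477552) (l 16480936))) (a (l 16418496) (b (l 16545464) (l 16578224)))) (b (a (b (c (l 15582040) (l 15638800)) (l 15995928)) (b (b (a (l 15229184) (l 15049224)) (a (l 15373952) (l 15093400))) (l 15292480))) (a (b (l 16131976) (l 16264992)) (b (l 15532480) (l 16004792)))))), by decide +kernel⟩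

def k4_pm_202_a : ∃ t, chk3 f_pm_202_a t 1 5 1 = true :=
  ⟨(a (b (a (b (b (l 16270616) (l 16329472)) (l 16436024)) (l 16364632)) (b (a (b (l 16585504) (l 16681592)) (l 16670384)) (a (l 16702392) (l 16752848)))) (b (a (l 16382064) (a (b (l 16450288) (l 16536576)) (b (a (b (l 16397120) (l 16501200)) (l 16010896)) (l 16421744)))) (a (b (l 16664904) (l 16609296)) (a (l 16232808) (b (l 16336544) (l 16285256)))))), by decide +kernel⟩

def k5_pm_202_a : ∃ t, chk3 f_pm_202_a t 1 3 1 = true :=
  ⟨(a (b (b (a (l 16702392) (l 16752704)) (a (l 16702392) (l 16752704))) (l 2)) (b (a (b (l 16609208) (l 16525320)) (b (a (l 16394016) (l 16285176)) (a (l 16394016) (l 16285176)))) (a (b (l 16609208) (l 2)) (b (a (l 16394016) (l 16285176)) (a (l 2) (l 16285176)))))), by decide +kernel⟩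

theorem s6_pm_202_a : ∃ t, chk3 f_pm_202_a t 3 8 1 = true := ex3_b k1_pm_202_a k2_pm_202_a

theorem s7_pm_202_a : ∃ t, chk3 f_pm_202_a t 1 8 1 = true := ex3_a k0_pm_202_a s6_pm_202_a

theorem s8_pm_202_a : ∃ t, chk3 f_pm_202_a t 1 4 1 = true := ex3_b s7_pm_202_a k3_pm_202_a

theorem s9_pm_202_a : ∃ t, chk3 f_pm_202_a t 1 2 1 = true := ex3_b s8_pm_202_a k4_pm_202_a

theorem s10_pm_202_a : ∃ t, chk3 f_pm_202_a t 1 1 1 = true := ex3_b s9_pm_202_a k5_pm_202_a

theorem c_pm_202_a : CertFX 0 420477299 1073741824 536870912 1046898278 26843546 false true false .pp 2 0 2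
    ndF2q2a ndF6q2 pcF0 Cut.none Ext.none :=
  certFX1 (fam := false) (s1 := true) (s2 := false) (a := 2) (b := 0) (c := 2) (cn := .pp) (n1 := ndF2q2a) (n2 := ndF6q2) (pc := pcF0) (cut := Cut.none) (xt := Ext.none) (P1 := 0) (W1 := 420477299) (P2 := 1073741824) (W2 := 536870912) (P3 := 1046898278) (W3 := 26843546)
    rfl (fun _ => rfl) s10_pm_202_a

noncomputable def f_pm_202_b : ℕ → ℕ → ℕ → ℕ → Bool := onCell 1239849684 370763052 0 536870912 1046898278 26843546
    (rowFX 1 false true false .pp 2 0 2 (qsf 1239849684 370763052 1073741824 536870912 0) ndF2q2b ndF6q2 pcF0 Cut.none Ext.none)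

def k0_pm_202_b : ∃ t, chk3 f_pm_202_b t 2 8 1 = true :=
  ⟨(b (a (b (c (b (a (a (c (l 16573072) (l 16331760)) (l 15973936)) (a (l 15642736) (l 15577824))) (a (b (a (c (l 16352768) (l 16462736)) (c (l 16054304) (l 16052520))) (c (l 15975888) (a (l 16389096) (l 15962440)))) (b (a (c (l 15719288) (l 15690464)) (l 15608576)) (c (l 15654984) (l 15610256))))) (b (a (c (b (l 16309304) (b (l 16180592) (l 16101088))) (b (c (l 16143120) (b (l 16224800) (l 16376832))) (l 16112464))) (c (a (b (l 15754728) (l 15711560)) (l 15562224)) (a (b (c (l 15749216) (l 15745472)) (l 15696944)) (l 15426112)))) (a (c (a (l 16268352) (l 15979840)) (l 16206488)) (c (a (l 15660472) (l 15574912)) (l 15626480))))) (c (a (b (a (c (b (l 16319504) (l 16105856)) (l 16178080)) (c (l 15781808) (l 15864496))) (a (l 15968408) (l 15545840))) (b (c (l 15570128) (l 15607392)) (l 15630576))) (a (a (b (l 16317024) (l 16199008)) (l 15665296)) (l 15645256)))) (b (c (b (l 15483304) (c (l 15531392) (l 15498992))) (b (c (l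 15466488) (b (l 15449776) (l 15458104))) (l 15476728))) (c (b (l 15503392) (l 15527192)) (l 15536752)))) (a (a (b (a (c (c (l 16005800) (l 15926768)) (l 16030920)) (c (a (l 15638016) (l 15730296)) (l 15774632))) (c (a (c (b (l 15916768) (l 15902160)) (l 15920032)) (l 15833104)) (a (l 15903592) (l 15816472)))) (c (b (l 15710680) (l 15815408)) (l 15756088))) (b (l 15594168) (l 15718752)))), by decide +kernel⟩

def k1_pm_202_b : ∃ t, chk3 f_pm_202_b t 3 8 1 = true :=
  ⟨(b (b (a (c (b (l 15311192) (l 15344624)) (b (l 15137576) (l 15303440))) (c (b (l 15067624) (c (l 15095408) (b (l 15106464) (l 15094656)))) (b (a (l 15133448) (c (l 15034312) (b (l 15009800) (l 15024584)))) (c (l 15078112) (l 15077568))))) (a (c (l 15354736) (l 15371008)) (c (a (b (l 15183648) (l 15221784)) (l 550926291639)) (l 15134880)))) (a (c (b (l 15187488) (c (l 15566176) (l 15582640))) (b (l 15416504) (l 15552280))) (b (c (a (l 15287152) (l 15217456)) (l 520324943591)) (c (c (l 15129128) (l 15351560)) (l 15320224))))),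 by decide +kernel⟩

def k2_pm_202_b : ∃ t, chk3 f_pm_202_b t 1 9 1 = true :=
  ⟨(a (b (b (a (c (a (l 15932232) (l 15914384)) (l 15900928)) (b (l 15799080) (l 15812360))) (a (l 16010184) (a (l 15959704) (l 15891208)))) (a (b (l 16110104) (a (l 16183712) (l 16155968))) (b (a (l 16047296) (l 15990384)) (l 16107808)))) (a (b (b (c (l 15679264) (l 15638048)) (l 15767080)) (b (l 15938016) (l 16004664))) (a (b (c (l 572402195655) (l 722726063335)) (l 2)) (l 2)))), by decide +kernel⟩

def k3_pm_202_b : ∃ t, chk3 f_pm_202_b t 1 5 1 = true :=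
  ⟨(b (a (a (b (a (b (l 16236768) (l 16326808)) (b (l 16248128) (l 16314680))) (a (b (l 16421024) (l 16498480)) (b (l 16408720) (l 16510432)))) (b (c (l 16238768) (l 16221048)) (a (l 16439504) (l 16419192)))) (b (a (l 508515709703) (l 2)) (l 597100252663))) (a (b (a (c (l 16529656) (l 16609472)) (l 16649952)) (a (a (l 16733160) (l 16772016)) (l 16777032))) (l 2))), by decide +kernel⟩

def k4_pm_202_b : ∃ t, chk3 f_pm_202_b t 1 3 1 = true :=
  ⟨(b (a (a (b (a (l 16733000) (l 16771848)) (a (l 16733000) (l 2))) (b (b (l 16777216) (l 2)) (l 2))) (l 2)) (l 2)), by decide +kernel⟩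

theorem s5_pm_202_b : ∃ t, chk3 f_pm_202_b t 1 8 1 = true := ex3_a k0_pm_202_b k1_pm_202_b

theorem s6_pm_202_b : ∃ t, chk3 f_pm_202_b t 1 4 1 = true := ex3_b s5_pm_202_b k2_pm_202_b

theorem s7_pm_202_b : ∃ t, chk3 f_pm_202_b t 1 2 1 = true := ex3_b s6_pm_202_b k3_pm_202_b

theorem s8_pm_202_b : ∃ t, chk3 f_pm_202_b t 1 1 1 = true := ex3_b s7_pm_202_b k4_pm_202_b

theorem c_pm_202_b : CertFX 1239849684 370763052 1073741824 536870912 1046898278 26843546 false true false .pp 2 0 2
    ndF2q2b ndF6q2 pcF0 Cut.none Ext.none :=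
  certFX1 (fam := false) (s1 := true) (s2 := false) (a := 2) (b := 0) (c := 2) (cn := .pp) (n1 := ndF2q2b) (n2 := ndF6q2) (pc := pcF0) (cut := Cut.none) (xt := Ext.none) (P1 := 1239849684) (W1 := 370763052) (P2 := 1073741824) (W2 := 536870912) (P3 := 1046898278) (W3 := 26843546)
    rfl (fun _ => rfl) s8_pm_202_b

noncomputable def f_pm_203_a : ℕ → ℕ → ℕ → ℕ → Bool := onCell 0 420477299 0 1230186008 1046898278 26843546
    (rowFX 0 false true false .up 2 0 3 (qsf 0 420477299 0 1230186008 0) ndF2q2a ndF6q3 pcF0 Cut.none Ext.none)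

def k0_pm_203_a : ∃ t, chk3 f_pm_203_a t 1 1 1 = true :=
  ⟨(b (l 2) (b (l 2) (a (b (b (l 2) (a (b (l 2) (l 16702392)) (l 16752704))) (b (a (l 16702392) (l 16752704)) (a (l 16702392) (l 16752704)))) (a (b (l 16609208) (b (l 16609208) (l 16567264))) (b (l 2) (b (a (l 16394016) (l 16285176)) (l 16294080))))))), by decide +kernel⟩

theorem c_pm_203_a : CertFX 0 420477299 0 1230186008 1046898278 26843546 false true false .up 2 0 3
    ndF2q2a ndF6q3 pcF0 Cut.none Ext.none :=
  certFX0 (fam := false) (s1 := true) (s2 := false) (a := 2) (b := 0) (c := 3) (cn := .up) (n1 := ndF2q2a) (n2 := ndF6q3) (pc := pcF0) (cut := Cut.none) (xt := Ext.none) (P1 := 0) (W1 := 420477299) (P2 := 0) (W2 := 1230186008) (P3 := 1046898278) (W3 := 26843546)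
    rfl k0_pm_203_a

noncomputable def f_pm_203_b : ℕ → ℕ → ℕ → ℕ → Bool := onCell 0 536870912 0 1230186008 1046898278 26843546
    (rowFX 2 false true false .up 2 0 3 (qsf 1239849684 370763052 0 1230186008 0) ndF2q2b ndF6q3 pcF0 Cut.none Ext.none)

def k0_pm_203_b : ∃ t, chk3 f_pm_203_b t 1 1 1 = true :=
  ⟨(b (l 3) (b (a (l 3) (a (l 3) (b (l 3) (a (l 3) (b (l 3) (a (l 3) (l 339470188391))))))) (b (b (a (l 3) (a (a (l 3) (c (l 366850605063) (l 325511544823))) (a (b (l 326585286647) (c (l 16777216) (l 16777216))) (a (c (l 16777192) (l 16777192)) (c (l 16770944) (l 16770776)))))) (a (a (l 2) (a (a (l 3) (l 318530986007)) (a (c (l 314773753287) (l 311552527639)) (b (l 3) (l 258402529447))))) (a (a (c (l 304036708359) (l 298131128311)) (c (l 16777216) (l 209010556919))) (a (c (a (l 16777216) (l 16773576)) (a (l 16777216) (l 16773480))) (c (a (l 16759048) (b (l 16746632) (l 16738352))) (a (l 16758576) (b (l 16745840) (l 16737344)))))))) (b (a (a (a (l 2) (a (c (a (l 15437176) (l 15624776))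 (l 709840943799)) (c (l 292760093127) (b (l 15700064) (l 15831632))))) (a (a (c (l 16107160) (l 293834324727)) (l 181628869895)) (a (c (l 16622456) (l 16618440)) (c (l 16772976) (l 16772872))))) (a (a (c (l 16777216) (l 16777216)) (c (l 16774856) (l 16774792))) (a (a (b (l 16751328) (l 16751736)) (l 16747120)) (b (l 16653744) (l 223371556999))))) (a (a (a (a (b (l 2) (a (c (a (l 14954120) (l 14987128)) (a (l 592265000135) (l 14966400))) (c (c (l 15045392) (l 15054048)) (l 15074288)))) (c (a (l 575085689575) (b (l 15326088) (l 15416136))) (a (l 15005184) (l 15299256)))) (a (c (a (l 15454728) (l 15715464)) (b (l 15574064) (l 15656648))) (c (l 15936720) (l 15914888)))) (a (a (l 16158888) (l 16402664)) (a (l 16644752) (l 16777024)))) (a (a (l 16773648) (b (l 16759496) (l 16752600))) (a (b (l 282964255431) (a (l 16705048) (l 1))) (l 1)))))))), by decide +kernel⟩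

theorem c_pm_203_b : CertFX 1239849684 370763052 0 1230186008 1046898278 26843546 false true false .up 2 0 3
    ndF2q2b ndF6q3 pcF0 Cut.none Ext.none :=
  certFX2 (fam := false) (s1 := true) (s2 := false) (a := 2) (b := 0) (c := 3) (cn := .up) (n1 := ndF2q2b) (n2 := ndF6q3) (pc := pcF0) (cut := Cut.none) (xt := Ext.none) (P1 := 1239849684) (W1 := 370763052) (P2 := 0) (W2 := 1230186008) (P3 := 1046898278) (W3 := 26843546)
    rfl (fun _ => rfl) k0_pm_203_b

noncomputable def f_pm_213_a : ℕ → ℕ → ℕ → ℕ → Bool := onCell 0 420477299 0 1230186008 1046898278 26843546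
    (rowFX 0 false true false .pnn 2 1 3 (qsf 0 420477299 0 1230186008 1) ndF2q2a ndF6q3 pcF1 Cut.none Ext.none)

def k0_pm_213_a : ∃ t, chk3 f_pm_213_a t 1 2 1 = true :=
  ⟨(b (a (l 3) (a (l 3) (b (l 3) (a (l 3) (b (l 3) (c (a (l 269139588743) (b (l 249812274983) (l 16486080))) (a (l 282024462039) (b (l 258939051591) (l 16456616))))))))) (a (b (l 3) (a (l 3) (b (l 3) (a (l 3) (b (l 558513417175) (l 16750288)))))) (b (a (a (l 3) (b (l 3) (c (l 206862427223) (l 240148429575)))) (a (b (a (l 3) (b (l 285245509111) (c (l 16383760) (l 16402224)))) (a (c (b (l 16428808) (l 16430624)) (l 128479118759)) (b (c (l 16382776) (l 16381656)) (c (l 16378168) (l 16377008))))) (b (a (c (b (l 16444632) (l 16394032)) (b (l 16428032) (l 16376392))) (c (l 16394712) (l 16363048))) (a (b (c (l 16354528) (l 16343904)) (c (l 16332760) (l 16330352))) (c (b (l 16324976) (l 16293800)) (l 16288400)))))) (a (b (a (b (l 3) (l 451139024247)) (b (a (l 382956275703) (l 16512568)) (l 16489768))) (a (b (l 16660584)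 (l 16676344)) (c (l 16546464) (l 16541328)))) (b (a (c (b (l 16407856) (l 16406040)) (b (l 16407144) (l 16401936))) (a (c (l 16327208) (l 16324152)) (b (c (a (l 16286240) (l 16260848)) (b (l 16271032) (l 16266648))) (l 16265224)))) (a (c (b (l 16401792) (l 16398336)) (l 16392064)) (c (b (l 16293928) (l 16291456)) (l 16283736)))))))), by decide +kernel⟩

def k1_pm_213_a : ∃ t, chk3 f_pm_213_a t 1 3 1 = true :=
  ⟨(b (a (b (a (b (l 3) (b (a (l 3) (l 16698808)) (a (l 16706216) (l 16698792)))) (b (a (l 324437640935) (l 16771232)) (a (b (l 16721432) (l 16721424)) (b (l 16771256) (l 16771248))))) (a (b (c (l 16703368) (l 143512109895)) (c (l 16703352) (l 16701432))) (b (c (l 16711096) (a (l 16720680) (l 16771144))) (c (a (l 16722096) (l 16771272)) (a (l 16720664) (l 16771112)))))) (b (a (b (c (l 16569448) (l 16565152)) (a (l 16676336) (l 16541400))) (c (b (a (l 16398976) (b (l 16292488) (l 16292408))) (a (l 16398984) (l 16291776))) (b (a (l 16389288) (b (l 16281408) (l 16280440))) (a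 (l 16389168) (l 16279264))))) (a (a (b (c (l 16677592) (l 16675008)) (b (l 16676272) (l 16676272))) (b (c (l 16544384) (l 16538336)) (l 16541336))) (a (l 16394024) (l 16285184))))) (b (a (b (a (c (b (l 16703352) (l 16703352)) (b (l 16701432) (l 16701432))) (b (a (c (l 16722096) (l 16720664)) (l 16771192)) (l 16752704))) (a (b (c (l 16703352) (l 16701432)) (l 16702392)) (l 16752704))) (a (l 16609208) (a (l 16394016) (l 16285176)))) (a (b (l 1) (l 1)) (a (b (l 16609208) (l 1)) (b (l 151429912711) (l 16189224)))))), by decide +kernel⟩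

theorem s2_pm_213_a : ∃ t, chk3 f_pm_213_a t 1 1 1 = true := ex3_b k0_pm_213_a k1_pm_213_a

theorem c_pm_213_a : CertFX 0 420477299 0 1230186008 1046898278 26843546 false true false .pnn 2 1 3
    ndF2q2a ndF6q3 pcF1 Cut.none Ext.none :=
  certFX0 (fam := false) (s1 := true) (s2 := false) (a := 2) (b := 1) (c := 3) (cn := .pnn) (n1 := ndF2q2a) (n2 := ndF6q3) (pc := pcF1) (cut := Cut.none) (xt := Ext.none) (P1 := 0) (W1 := 420477299) (P2 := 0) (W2 := 1230186008) (P3 := 1046898278) (W3 := 26843546)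
    rfl s2_pm_213_a

noncomputable def f_pm_213_b : ℕ → ℕ → ℕ → ℕ → Bool := onCell 1239849684 370763052 0 1230186008 1046898278 26843546
    (rowFX 0 false true false .pnn 2 1 3 (qsf 1239849684 370763052 0 1230186008 1) ndF2q2b ndF6q3 pcF1 Cut.none Ext.none)

def k0_pm_213_b : ∃ t, chk3 f_pm_213_b t 1 1 1 = true :=
  ⟨(b (b (l 3) (l 3)) (b (a (b (a (l 3) (l 3)) (b (a (a (c (l 208473550919) (l 94120044391)) (l 3)) (l 3)) (a (c (a (c (l 16733848) (l 16733288)) (l 198273094343)) (a (b (l 16732432) (l 16732432)) (b (l 16771776) (l 16771776)))) (a (c (l 430738243543) (l 355576315751)) (l 1))))) (l 3)) (a (b (a (a (b (c (c (l 16733848) (l 16733288)) (b (l 16732432) (l 16732432))) (b (c (l 16733568) (l 16732432)) (a (c (l 16721912) (l 16720480)) (l 1)))) (b (c (l 16771920) (b (l 16771776) (l 16771776))) (l 1))) (l 1)) (l 1)) (l 1)))), by decide +kernel⟩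

theorem c_pm_213_b : CertFX 1239849684 370763052 0 1230186008 1046898278 26843546 false true false .pnn 2 1 3
    ndF2q2b ndF6q3 pcF1 Cut.none Ext.none :=
  certFX0 (fam := false) (s1 := true) (s2 := false) (a := 2) (b := 1) (c := 3) (cn := .pnn) (n1 := ndF2q2b) (n2 := ndF6q3) (pc := pcF1) (cut := Cut.none) (xt := Ext.none) (P1 := 1239849684) (W1 := 370763052) (P2 := 0) (W2 := 1230186008) (P3 := 1046898278) (W3 := 26843546)
    rfl k0_pm_213_b

noncomputable def f_pm_303 : ℕ → ℕ → ℕ → ℕ → Bool := onCell 0 536870912 0 1230186008 1046898278 26843546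
    (rowFX 2 false true false .npn 3 0 3 (qsf 1610612736 469762048 0 1230186008 0) ndF2q3 ndF6q3 pcF0 Cut.none Ext.none)

def k0_pm_303 : ∃ t, chk3 f_pm_303 t 1 1 1 = true :=
  ⟨(b (l 3) (b (a (l 3) (a (l 3) (b (l 3) (l 1)))) (a (b (b (l 3) (a (l 3) (a (a (l 3) (l 324436566039)) (l 1)))) (b (a (a (b (l 3) (a (c (a (a (l 14783880) (a (l 14717096) (l 299200517847))) (l 14944368)) (a (a (c (l 317990791543) (a (l 14461520) (l 14749968))) (l 320138412551)) (l 317454296567))) (c (a (l 15037936) (l 15264416)) (l 15163328)))) (a (c (a (l 15437176) (l 15624776)) (a (l 320139580279) (l 15594712))) (c (l 289538867655) (b (l 15616184) (l 15831632))))) (a (a (c (l 16107160) (l 15901008)) (l 1)) (l 1))) (a (a (a (c (a (a (l 14805944) (b (a (l 14923208) (l 14884752)) (l 14987128))) (a (c (l 14909472) (l 14965336)) (l 14982832))) (a (b (a (c (l 14817824) (l 14805920)) (l 14858632)) (a (c (l 14930488) (l 14914856)) (l 14966400))) (b (l 14969792) (l 15074288)))) (c (a (b (l 15155576) (l 15217456))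 (b (l 15326088) (l 1))) (a (l 14963240) (l 15278280)))) (a (a (b (l 15392360) (l 1)) (l 1)) (l 1))) (l 1)))) (l 1)))), by decide +kernel⟩

theorem c_pm_303 : CertFX 1610612736 469762048 0 1230186008 1046898278 26843546 false true false .npn 3 0 3
    ndF2q3 ndF6q3 pcF0 Cut.none Ext.none :=
  certFX2 (fam := false) (s1 := true) (s2 := false) (a := 3) (b := 0) (c := 3) (cn := .npn) (n1 := ndF2q3) (n2 := ndF6q3) (pc := pcF0) (cut := Cut.none) (xt := Ext.none) (P1 := 1610612736) (W1 := 469762048) (P2 := 0) (W2 := 1230186008) (P3 := 1046898278) (W3 := 26843546)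
    rfl (fun _ => rfl) k0_pm_303

noncomputable def f_pm_313 : ℕ → ℕ → ℕ → ℕ → Bool := onCell 1610612736 469762048 0 1230186008 1046898278 26843546
    (rowFX 0 false true false .dn 3 1 3 (qsf 1610612736 469762048 0 1230186008 1) ndF2q3 ndF6q3 pcF1 Cut.none Ext.none)

def k0_pm_313 : ∃ t, chk3 f_pm_313 t 1 1 1 = true :=
  ⟨(b (l 3) (l 1)), by decide +kernel⟩

theorem c_pm_313 : CertFX 1610612736 469762048 0 1230186008 1046898278 26843546 false true false .dn 3 1 3
    ndF2q3 ndF6q3 pcF1 Cut.none Ext.none :=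
  certFX0 (fam := false) (s1 := true) (s2 := false) (a := 3) (b := 1) (c := 3) (cn := .dn) (n1 := ndF2q3) (n2 := ndF6q3) (pc := pcF1) (cut := Cut.none) (xt := Ext.none) (P1 := 1610612736) (W1 := 469762048) (P2 := 0) (W2 := 1230186008) (P3 := 1046898278) (W3 := 26843546)
    rfl k0_pm_313

noncomputable def f_mm_001 : ℕ → ℕ → ℕ → ℕ → Bool := onCell 67108864 469762048 536870912 469762048 1046898278 26843546
    (rowFX 0 false false false .up 0 0 1 (qsf 67108864 469762048 536870912 469762048 0) ndF2q0 ndF6q1 pcF0 Cut.none Ext.none)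

def k0_mm_001 : ∃ t, chk3 f_mm_001 t 1 1 1 = true :=
  ⟨(l 3), by decide +kernel⟩

theorem c_mm_001 : CertFX 67108864 469762048 536870912 469762048 1046898278 26843546 false false false .up 0 0 1
    ndF2q0 ndF6q1 pcF0 Cut.none Ext.none :=
  certFX0 (fam := false) (s1 := false) (s2 := false) (a := 0) (b := 0) (c := 1) (cn := .up) (n1 := ndF2q0) (n2 := ndF6q1) (pc := pcF0) (cut := Cut.none) (xt := Ext.none) (P1 := 67108864) (W1 := 469762048) (P2 := 536870912) (W2 := 469762048) (P3 := 1046898278) (W3 := 26843546)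
    rfl k0_mm_001

noncomputable def f_mm_011 : ℕ → ℕ → ℕ → ℕ → Bool := onCell 67108864 469762048 536870912 469762048 1046898278 26843546
    (rowFX 0 false false false .pnn 0 1 1 (qsf 67108864 469762048 536870912 469762048 1) ndF2q0 ndF6q1 pcF1 Cut.none Ext.none)

def k0_mm_011 : ∃ t, chk3 f_mm_011 t 1 1 1 = true :=
  ⟨(l 3), by decide +kernel⟩

theorem c_mm_011 : CertFX 67108864 469762048 536870912 469762048 1046898278 26843546 false false false .pnn 0 1 1
    ndF2q0 ndF6q1 pcF1 Cut.none Ext.none :=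
  certFX0 (fam := false) (s1 := false) (s2 := false) (a := 0) (b := 1) (c := 1) (cn := .pnn) (n1 := ndF2q0) (n2 := ndF6q1) (pc := pcF1) (cut := Cut.none) (xt := Ext.none) (P1 := 67108864) (W1 := 469762048) (P2 := 536870912) (W2 := 469762048) (P3 := 1046898278) (W3 := 26843546)
    rfl k0_mm_011

noncomputable def f_mm_012 : ℕ → ℕ → ℕ → ℕ → Bool := onCell 67108864 469762048 1073741824 536870912 1046898278 26843546
    (rowFX 0 false false false .pnp 0 1 2 (qsf 67108864 469762048 1073741824 536870912 1) ndF2q0 ndF6q2 pcF1 Cut.none Ext.none)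

def k0_mm_012 : ∃ t, chk3 f_mm_012 t 1 1 1 = true :=
  ⟨(l 5), by decide +kernel⟩

theorem c_mm_012 : CertFX 67108864 469762048 1073741824 536870912 1046898278 26843546 false false false .pnp 0 1 2
    ndF2q0 ndF6q2 pcF1 Cut.none Ext.none :=
  certFX0 (fam := false) (s1 := false) (s2 := false) (a := 0) (b := 1) (c := 2) (cn := .pnp) (n1 := ndF2q0) (n2 := ndF6q2) (pc := pcF1) (cut := Cut.none) (xt := Ext.none) (P1 := 67108864) (W1 := 469762048) (P2 := 1073741824) (W2 := 536870912) (P3 := 1046898278) (W3 := 26843546)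
    rfl k0_mm_012

noncomputable def f_mm_022 : ℕ → ℕ → ℕ → ℕ → Bool := onCell 67108864 469762048 1073741824 536870912 1046898278 26843546
    (rowFX 0 false false false .pp 0 2 2 (qsf 67108864 469762048 1073741824 536870912 2) ndF2q0 ndF6q2 pcF2 Cut.none Ext.none)

def k0_mm_022 : ∃ t, chk3 f_mm_022 t 1 1 1 = true :=
  ⟨(l 5), by decide +kernel⟩

theorem c_mm_022 : CertFX 67108864 469762048 1073741824 536870912 1046898278 26843546 false false false .pp 0 2 2
    ndF2q0 ndF6q2 pcF2 Cut.none Ext.none :=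
  certFX0 (fam := false) (s1 := false) (s2 := false) (a := 0) (b := 2) (c := 2) (cn := .pp) (n1 := ndF2q0) (n2 := ndF6q2) (pc := pcF2) (cut := Cut.none) (xt := Ext.none) (P1 := 67108864) (W1 := 469762048) (P2 := 1073741824) (W2 := 536870912) (P3 := 1046898278) (W3 := 26843546)
    rfl k0_mm_022

noncomputable def f_mm_023 : ℕ → ℕ → ℕ → ℕ → Bool := onCell 67108864 469762048 0 1230186008 1046898278 26843546
    (rowFX 0 false false false .up 0 2 3 (qsf 67108864 469762048 0 1230186008 2) ndF2q0 ndF6q3 pcF2 Cut.none Ext.none)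

def k0_mm_023 : ∃ t, chk3 f_mm_023 t 1 1 1 = true :=
  ⟨(l 5), by decide +kernel⟩

theorem c_mm_023 : CertFX 67108864 469762048 0 1230186008 1046898278 26843546 false false false .up 0 2 3
    ndF2q0 ndF6q3 pcF2 Cut.none Ext.none :=
  certFX0 (fam := false) (s1 := false) (s2 := false) (a := 0) (b := 2) (c := 3) (cn := .up) (n1 := ndF2q0) (n2 := ndF6q3) (pc := pcF2) (cut := Cut.none) (xt := Ext.none) (P1 := 67108864) (W1 := 469762048) (P2 := 0) (W2 := 1230186008) (P3 := 1046898278) (W3 := 26843546)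
    rfl k0_mm_023

noncomputable def f_mm_033 : ℕ → ℕ → ℕ → ℕ → Bool := onCell 67108864 469762048 0 1230186008 1046898278 26843546
    (rowFX 0 false false false .pnn 0 3 3 (qsf 67108864 469762048 0 1230186008 3) ndF2q0 ndF6q3 pcF3 Cut.none Ext.none)

def k0_mm_033 : ∃ t, chk3 f_mm_033 t 1 1 1 = true :=
  ⟨(l 5), by decide +kernel⟩

theorem c_mm_033 : CertFX 67108864 469762048 0 1230186008 1046898278 26843546 false false false .pnn 0 3 3
    ndF2q0 ndF6q3 pcF3 Cut.none Ext.none :=
  certFX0 (fam := false) (s1 := false) (s2 := false) (a := 0) (b := 3) (c := 3) (cn := .pnn) (n1 := ndF2q0) (n2 := ndF6q3) (pc := pcF3) (cut := Cut.none) (xt := Ext.none) (P1 := 67108864) (W1 := 469762048) (P2 := 0) (W2 := 1230186008) (P3 := 1046898278) (W3 := 26843546)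
    rfl k0_mm_033

noncomputable def f_mm_101 : ℕ → ℕ → ℕ → ℕ → Bool := onCell 536870912 536870912 536870912 469762048 1046898278 26843546
    (rowFX 0 false false false .npn 1 0 1 (qsf 536870912 536870912 536870912 469762048 0) ndF2q1 ndF6q1 pcF0 Cut.none Ext.none)

def k0_mm_101 : ∃ t, chk3 f_mm_101 t 1 1 1 = true :=
  ⟨(l 3), by decide +kernel⟩

theorem c_mm_101 : CertFX 536870912 536870912 536870912 469762048 1046898278 26843546 false false false .npn 1 0 1
    ndF2q1 ndF6q1 pcF0 Cut.none Ext.none :=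
  certFX0 (fam := false) (s1 := false) (s2 := false) (a := 1) (b := 0) (c := 1) (cn := .npn) (n1 := ndF2q1) (n2 := ndF6q1) (pc := pcF0) (cut := Cut.none) (xt := Ext.none) (P1 := 536870912) (W1 := 536870912) (P2 := 536870912) (W2 := 469762048) (P3 := 1046898278) (W3 := 26843546)
    rfl k0_mm_101

noncomputable def f_mm_102 : ℕ → ℕ → ℕ → ℕ → Bool := onCell 536870912 536870912 1073741824 536870912 1046898278 26843546
    (rowFX 0 false false false .npp 1 0 2 (qsf 536870912 536870912 1073741824 536870912 0) ndF2q1 ndF6q2 pcF0 Cut.none Ext.none)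

def k0_mm_102 : ∃ t, chk3 f_mm_102 t 1 1 1 = true :=
  ⟨(l 3), by decide +kernel⟩

theorem c_mm_102 : CertFX 536870912 536870912 1073741824 536870912 1046898278 26843546 false false false .npp 1 0 2
    ndF2q1 ndF6q2 pcF0 Cut.none Ext.none :=
  certFX0 (fam := false) (s1 := false) (s2 := false) (a := 1) (b := 0) (c := 2) (cn := .npp) (n1 := ndF2q1) (n2 := ndF6q2) (pc := pcF0) (cut := Cut.none) (xt := Ext.none) (P1 := 536870912) (W1 := 536870912) (P2 := 1073741824) (W2 := 536870912) (P3 := 1046898278) (W3 := 26843546)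
    rfl k0_mm_102

noncomputable def f_mm_112 : ℕ → ℕ → ℕ → ℕ → Bool := onCell 536870912 536870912 1073741824 536870912 1046898278 26843546
    (rowFX 0 false false false .dn 1 1 2 (qsf 536870912 536870912 1073741824 536870912 1) ndF2q1 ndF6q2 pcF1 Cut.none Ext.none)

def k0_mm_112 : ∃ t, chk3 f_mm_112 t 1 1 1 = true :=
  ⟨(l 3), by decide +kernel⟩

theorem c_mm_112 : CertFX 536870912 536870912 1073741824 536870912 1046898278 26843546 false false false .dn 1 1 2
    ndF2q1 ndF6q2 pcF1 Cut.none Ext.none :=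
  certFX0 (fam := false) (s1 := false) (s2 := false) (a := 1) (b := 1) (c := 2) (cn := .dn) (n1 := ndF2q1) (n2 := ndF6q2) (pc := pcF1) (cut := Cut.none) (xt := Ext.none) (P1 := 536870912) (W1 := 536870912) (P2 := 1073741824) (W2 := 536870912) (P3 := 1046898278) (W3 := 26843546)
    rfl k0_mm_112

noncomputable def f_mm_113 : ℕ → ℕ → ℕ → ℕ → Bool := onCell 536870912 536870912 0 1230186008 1046898278 26843546
    (rowFX 0 false false false .nn 1 1 3 (qsf 536870912 536870912 0 1230186008 1) ndF2q1 ndF6q3 pcF1 Cut.none Ext.none)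

def k0_mm_113 : ∃ t, chk3 f_mm_113 t 1 1 1 = true :=
  ⟨(l 5), by decide +kernel⟩

theorem c_mm_113 : CertFX 536870912 536870912 0 1230186008 1046898278 26843546 false false false .nn 1 1 3
    ndF2q1 ndF6q3 pcF1 Cut.none Ext.none :=
  certFX0 (fam := false) (s1 := false) (s2 := false) (a := 1) (b := 1) (c := 3) (cn := .nn) (n1 := ndF2q1) (n2 := ndF6q3) (pc := pcF1) (cut := Cut.none) (xt := Ext.none) (P1 := 536870912) (W1 := 536870912) (P2 := 0) (W2 := 1230186008) (P3 := 1046898278) (W3 := 26843546)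
    rfl k0_mm_113

noncomputable def f_mm_123 : ℕ → ℕ → ℕ → ℕ → Bool := onCell 536870912 536870912 0 1230186008 1046898278 26843546
    (rowFX 0 false false false .npn 1 2 3 (qsf 536870912 536870912 0 1230186008 2) ndF2q1 ndF6q3 pcF2 Cut.none Ext.none)

def k0_mm_123 : ∃ t, chk3 f_mm_123 t 1 1 1 = true :=
  ⟨(l 5), by decide +kernel⟩

theorem c_mm_123 : CertFX 536870912 536870912 0 1230186008 1046898278 26843546 false false false .npn 1 2 3
    ndF2q1 ndF6q3 pcF2 Cut.none Ext.none :=
  certFX0 (fam := false) (s1 := false) (s2 := false) (a := 1) (b := 2) (c := 3) (cn := .npn) (n1 := ndF2q1) (n2 := ndF6q3) (pc := pcF2) (cut := Cut.none) (xt := Ext.none) (P1 := 536870912) (W1 := 536870912) (P2 := 0) (W2 := 1230186008) (P3 := 1046898278) (W3 := 26843546)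
    rfl k0_mm_123

noncomputable def f_mm_133 : ℕ → ℕ → ℕ → ℕ → Bool := onCell 536870912 536870912 0 1230186008 1046898278 26843546
    (rowFX 0 false false false .dn 1 3 3 (qsf 536870912 536870912 0 1230186008 3) ndF2q1 ndF6q3 pcF3 Cut.none Ext.none)

def k0_mm_133 : ∃ t, chk3 f_mm_133 t 1 1 1 = true :=
  ⟨(l 5), by decide +kernel⟩

theorem c_mm_133 : CertFX 536870912 536870912 0 1230186008 1046898278 26843546 false false false .dn 1 3 3
    ndF2q1 ndF6q3 pcF3 Cut.none Ext.none :=
  certFX0 (fam := false) (s1 := false) (s2 := false) (a := 1) (b := 3) (c := 3) (cn := .dn) (n1 := ndF2q1) (n2 := ndF6q3) (pc := pcF3) (cut := Cut.none) (xt := Ext.none) (P1 := 536870912) (W1 := 536870912) (P2 := 0) (W2 := 1230186008) (P3 := 1046898278) (W3 := 26843546)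
    rfl k0_mm_133

noncomputable def f_mm_202_a : ℕ → ℕ → ℕ → ℕ → Bool := onCell 0 420477299 1073741824 536870912 1046898278 26843546
    (rowFX 0 false false false .pp 2 0 2 (qsf 0 420477299 1073741824 536870912 0) ndF2q2a ndF6q2 pcF0 Cut.none Ext.none)

def k0_mm_202_a : ∃ t, chk3 f_mm_202_a t 1 1 1 = true :=
  ⟨(l 3), by decide +kernel⟩

theorem c_mm_202_a : CertFX 0 420477299 1073741824 536870912 1046898278 26843546 false false false .pp 2 0 2
    ndF2q2a ndF6q2 pcF0 Cut.none Ext.none :=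
  certFX0 (fam := false) (s1 := false) (s2 := false) (a := 2) (b := 0) (c := 2) (cn := .pp) (n1 := ndF2q2a) (n2 := ndF6q2) (pc := pcF0) (cut := Cut.none) (xt := Ext.none) (P1 := 0) (W1 := 420477299) (P2 := 1073741824) (W2 := 536870912) (P3 := 1046898278) (W3 := 26843546)
    rfl k0_mm_202_a

noncomputable def f_mm_202_b : ℕ → ℕ → ℕ → ℕ → Bool := onCell 1239849684 370763052 1073741824 536870912 1046898278 26843546
    (rowFX 0 false false false .pp 2 0 2 (qsf 1239849684 370763052 1073741824 536870912 0) ndF2q2b ndF6q2 pcF0 Cut.none Ext.none)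

def k0_mm_202_b : ∃ t, chk3 f_mm_202_b t 1 1 1 = true :=
  ⟨(b (l 3) (l 3)), by decide +kernel⟩

theorem c_mm_202_b : CertFX 1239849684 370763052 1073741824 536870912 1046898278 26843546 false false false .pp 2 0 2
    ndF2q2b ndF6q2 pcF0 Cut.none Ext.none :=
  certFX0 (fam := false) (s1 := false) (s2 := false) (a := 2) (b := 0) (c := 2) (cn := .pp) (n1 := ndF2q2b) (n2 := ndF6q2) (pc := pcF0) (cut := Cut.none) (xt := Ext.none) (P1 := 1239849684) (W1 := 370763052) (P2 := 1073741824) (W2 := 536870912) (P3 := 1046898278) (W3 := 26843546)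
    rfl k0_mm_202_b

noncomputable def f_mm_203_a : ℕ → ℕ → ℕ → ℕ → Bool := onCell 0 420477299 0 1230186008 1046898278 26843546
    (rowFX 0 false false false .up 2 0 3 (qsf 0 420477299 0 1230186008 0) ndF2q2a ndF6q3 pcF0 Cut.none Ext.none)

def k0_mm_203_a : ∃ t, chk3 f_mm_203_a t 1 1 1 = true :=
  ⟨(b (l 2) (l 3)), by decide +kernel⟩

theorem c_mm_203_a : CertFX 0 420477299 0 1230186008 1046898278 26843546 false false false .up 2 0 3
    ndF2q2a ndF6q3 pcF0 Cut.none Ext.none :=
  certFX0 (fam := false) (s1 := false) (s2 := false) (a := 2) (b := 0) (c := 3) (cn := .up) (n1 := ndF2q2a) (n2 := ndF6q3) (pc := pcF0) (cut := Cut.none) (xt := Ext.none) (P1 := 0) (W1 := 420477299) (P2 := 0) (W2 := 1230186008) (P3 := 1046898278) (W3 := 26843546)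
    rfl k0_mm_203_a

noncomputable def f_mm_203_b : ℕ → ℕ → ℕ → ℕ → Bool := onCell 1239849684 370763052 0 1230186008 1046898278 26843546
    (rowFX 0 false false false .up 2 0 3 (qsf 1239849684 370763052 0 1230186008 0) ndF2q2b ndF6q3 pcF0 Cut.none Ext.none)

def k0_mm_203_b : ∃ t, chk3 f_mm_203_b t 1 1 1 = true :=
  ⟨(b (l 3) (l 3)), by decide +kernel⟩

theorem c_mm_203_b : CertFX 1239849684 370763052 0 1230186008 1046898278 26843546 false false false .up 2 0 3
    ndF2q2b ndF6q3 pcF0 Cut.none Ext.none :=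
  certFX0 (fam := false) (s1 := false) (s2 := false) (a := 2) (b := 0) (c := 3) (cn := .up) (n1 := ndF2q2b) (n2 := ndF6q3) (pc := pcF0) (cut := Cut.none) (xt := Ext.none) (P1 := 1239849684) (W1 := 370763052) (P2 := 0) (W2 := 1230186008) (P3 := 1046898278) (W3 := 26843546)
    rfl k0_mm_203_b

noncomputable def f_mm_213_a : ℕ → ℕ → ℕ → ℕ → Bool := onCell 0 420477299 0 1230186008 1046898278 26843546
    (rowFX 0 false false false .pnn 2 1 3 (qsf 0 420477299 0 1230186008 1) ndF2q2a ndF6q3 pcF1 Cut.none Ext.none)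

def k0_mm_213_a : ∃ t, chk3 f_mm_213_a t 1 1 1 = true :=
  ⟨(b (l 3) (l 3)), by decide +kernel⟩

theorem c_mm_213_a : CertFX 0 420477299 0 1230186008 1046898278 26843546 false false false .pnn 2 1 3
    ndF2q2a ndF6q3 pcF1 Cut.none Ext.none :=
  certFX0 (fam := false) (s1 := false) (s2 := false) (a := 2) (b := 1) (c := 3) (cn := .pnn) (n1 := ndF2q2a) (n2 := ndF6q3) (pc := pcF1) (cut := Cut.none) (xt := Ext.none) (P1 := 0) (W1 := 420477299) (P2 := 0) (W2 := 1230186008) (P3 := 1046898278) (W3 := 26843546)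
    rfl k0_mm_213_a

noncomputable def f_mm_213_b : ℕ → ℕ → ℕ → ℕ → Bool := onCell 1239849684 370763052 0 1230186008 1046898278 26843546
    (rowFX 0 false false false .pnn 2 1 3 (qsf 1239849684 370763052 0 1230186008 1) ndF2q2b ndF6q3 pcF1 Cut.none Ext.none)

def k0_mm_213_b : ∃ t, chk3 f_mm_213_b t 1 1 1 = true :=
  ⟨(b (l 3) (l 3)), by decide +kernel⟩

theorem c_mm_213_b : CertFX 1239849684 370763052 0 1230186008 1046898278 26843546 false false false .pnn 2 1 3
    ndF2q2b ndF6q3 pcF1 Cut.none Ext.none :=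
  certFX0 (fam := false) (s1 := false) (s2 := false) (a := 2) (b := 1) (c := 3) (cn := .pnn) (n1 := ndF2q2b) (n2 := ndF6q3) (pc := pcF1) (cut := Cut.none) (xt := Ext.none) (P1 := 1239849684) (W1 := 370763052) (P2 := 0) (W2 := 1230186008) (P3 := 1046898278) (W3 := 26843546)
    rfl k0_mm_213_b

noncomputable def f_mm_303 : ℕ → ℕ → ℕ → ℕ → Bool := onCell 1610612736 469762048 0 1230186008 1046898278 26843546
    (rowFX 0 false false false .npn 3 0 3 (qsf 1610612736 469762048 0 1230186008 0) ndF2q3 ndF6q3 pcF0 Cut.none Ext.none)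

def k0_mm_303 : ∃ t, chk3 f_mm_303 t 1 1 1 = true :=
  ⟨(b (l 3) (l 3)), by decide +kernel⟩

theorem c_mm_303 : CertFX 1610612736 469762048 0 1230186008 1046898278 26843546 false false false .npn 3 0 3
    ndF2q3 ndF6q3 pcF0 Cut.none Ext.none :=
  certFX0 (fam := false) (s1 := false) (s2 := false) (a := 3) (b := 0) (c := 3) (cn := .npn) (n1 := ndF2q3) (n2 := ndF6q3) (pc := pcF0) (cut := Cut.none) (xt := Ext.none) (P1 := 1610612736) (W1 := 469762048) (P2 := 0) (W2 := 1230186008) (P3 := 1046898278) (W3 := 26843546)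
    rfl k0_mm_303

noncomputable def f_mm_313 : ℕ → ℕ → ℕ → ℕ → Bool := onCell 1610612736 469762048 0 1230186008 1046898278 26843546
    (rowFX 0 false false false .dn 3 1 3 (qsf 1610612736 469762048 0 1230186008 1) ndF2q3 ndF6q3 pcF1 Cut.none Ext.none)

def k0_mm_313 : ∃ t, chk3 f_mm_313 t 1 1 1 = true :=
  ⟨(b (l 3) (l 1)), by decide +kernel⟩

theorem c_mm_313 : CertFX 1610612736 469762048 0 1230186008 1046898278 26843546 false false false .dn 3 1 3
    ndF2q3 ndF6q3 pcF1 Cut.none Ext.none :=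
  certFX0 (fam := false) (s1 := false) (s2 := false) (a := 3) (b := 1) (c := 3) (cn := .dn) (n1 := ndF2q3) (n2 := ndF6q3) (pc := pcF1) (cut := Cut.none) (xt := Ext.none) (P1 := 1610612736) (W1 := 469762048) (P2 := 0) (W2 := 1230186008) (P3 := 1046898278) (W3 := 26843546)
    rfl k0_mm_313

end Pool.Agent.Strip051.G.IE1.Tab.C.FB26

namespace Pool.Agent.Strip051.G.IE1.Tab.C.FB27

open Pool.Agent.Strip051.PB Pool.Agent.Strip051.PB.T
open Pool.Agent.Strip051.G.IE1.Tab

noncomputable def f_pp_001 : ℕ → ℕ → ℕ → ℕ → Bool := onCell 67108864 469762048 536870912 536870912 1046898278 26843546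
    (rowFX 0 false true true .up 0 0 1 (qsf 67108864 469762048 536870912 536870912 0) ndF2q0 ndF7q1 pcF0 Cut.none Ext.none)

def k0_pp_001 : ∃ t, chk3 f_pp_001 t 1 1 1 = true :=
  ⟨(l 3), by decide +kernel⟩

theorem c_pp_001 : CertFX 67108864 469762048 536870912 536870912 1046898278 26843546 false true true .up 0 0 1
    ndF2q0 ndF7q1 pcF0 Cut.none Ext.none :=
  certFX0 (fam := false) (s1 := true) (s2 := true) (a := 0) (b := 0) (c := 1) (cn := .up) (n1 := ndF2q0) (n2 := ndF7q1) (pc := pcF0) (cut := Cut.none) (xt := Ext.none) (P1 := 67108864) (W1 := 469762048) (P2 := 536870912) (W2 := 536870912) (P3 := 1046898278) (W3 := 26843546)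
    rfl k0_pp_001

noncomputable def f_pp_011 : ℕ → ℕ → ℕ → ℕ → Bool := onCell 67108864 469762048 536870912 536870912 1046898278 26843546
    (rowFX 0 false true true .pnn 0 1 1 (qsf 67108864 469762048 536870912 536870912 1) ndF2q0 ndF7q1 pcF1 Cut.none Ext.none)

def k0_pp_011 : ∃ t, chk3 f_pp_011 t 1 1 1 = true :=
  ⟨(l 3), by decide +kernel⟩

theorem c_pp_011 : CertFX 67108864 469762048 536870912 536870912 1046898278 26843546 false true true .pnn 0 1 1
    ndF2q0 ndF7q1 pcF1 Cut.none Ext.none :=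
  certFX0 (fam := false) (s1 := true) (s2 := true) (a := 0) (b := 1) (c := 1) (cn := .pnn) (n1 := ndF2q0) (n2 := ndF7q1) (pc := pcF1) (cut := Cut.none) (xt := Ext.none) (P1 := 67108864) (W1 := 469762048) (P2 := 536870912) (W2 := 536870912) (P3 := 1046898278) (W3 := 26843546)
    rfl k0_pp_011

noncomputable def f_pp_012 : ℕ → ℕ → ℕ → ℕ → Bool := onCell 67108864 469762048 536870912 536870912 1046898278 26843546
    (rowFX 1 false true true .pnp 0 1 2 (qsf 67108864 469762048 1073741824 536870912 1) ndF2q0 ndF7q2 pcF1 Cut.none Ext.none)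

def k0_pp_012 : ∃ t, chk3 f_pp_012 t 1 1 1 = true :=
  ⟨(a (a (l 3) (l 3)) (l 3)), by decide +kernel⟩

theorem c_pp_012 : CertFX 67108864 469762048 1073741824 536870912 1046898278 26843546 false true true .pnp 0 1 2
    ndF2q0 ndF7q2 pcF1 Cut.none Ext.none :=
  certFX1 (fam := false) (s1 := true) (s2 := true) (a := 0) (b := 1) (c := 2) (cn := .pnp) (n1 := ndF2q0) (n2 := ndF7q2) (pc := pcF1) (cut := Cut.none) (xt := Ext.none) (P1 := 67108864) (W1 := 469762048) (P2 := 1073741824) (W2 := 536870912) (P3 := 1046898278) (W3 := 26843546)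
    rfl (fun _ => rfl) k0_pp_012

noncomputable def f_pp_022 : ℕ → ℕ → ℕ → ℕ → Bool := onCell 67108864 469762048 1073741824 536870912 1046898278 26843546
    (rowFX 1 false true true .pp 0 2 2 (qsf 67108864 469762048 1073741824 536870912 2) ndF2q0 ndF7q2 pcF2 Cut.none Ext.none)

def k0_pp_022 : ∃ t, chk3 f_pp_022 t 2 8 1 = true :=
  ⟨(a (l 3) (l 3)), by decide +kernel⟩

def k1_pp_022 : ∃ t, chk3 f_pp_022 t 4 18 1 = true :=
  ⟨(a (a (a (b (c (b (c (l 16553824) (l 16552392)) (a (l 16535544) (l 16536832))) (b (c (l 16529440) (l 16506488)) (a (l 16531488) (l 16532344)))) (a (c (b (l 16535336) (c (l 16543112) (l 16541520))) (b (l 16531712) (c (l 16539832) (l 16538144)))) (c (b (l 16532584) (l 16532688)) (b (l 16528416) (c (l 16529936) (l 16527992)))))) (b (l 3) (c (b (a (l 16532792) (l 16533536)) (c (l 16522320) (l 16520032))) (b (a (l 16528336) (l 16528808)) (c (l 16517728) (l 16515424)))))) (a (a (b (l 3) (b (l 3) (c (l 16506528) (l 16501136)))) (l 3)) (l 3))) (l 3)), by decide +kernel⟩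

def k2_pp_022 : ∃ t, chk3 f_pp_022 t 4 19 1 = true :=
  ⟨(b (b (a (a (c (a (b (c (l 16506896) (l 16505920)) (a (l 16583888) (l 16505056))) (b (l 16517584) (l 16527880))) (b (a (c (l 16483456) (a (l 16554184) (l 16533808))) (l 16513288)) (a (c (l 16562800) (l 16561656)) (l 16524072)))) (c (a (b (l 16496232) (l 16516712)) (l 16529536)) (a (b (l 16490696) (l 16511936)) (l 16524648)))) (l 3)) (a (a (c (a (l 16625888) (b (l 16533088) (c (l 16586440) (l 16585544)))) (a (l 16626512) (b (c (l 16551944) (l 16550464)) (c (l 16584624) (l 16583712))))) (c (a (l 16554112) (l 16579600)) (a (l 16550672) (l 16576488)))) (a (a (c (l 16615936) (l 16613608)) (l 3)) (l 3)))) (a (b (c (a (a (l 16554456) (c (l 16529976) (l 16529904))) (a (b (l 16595224) (l 16623808)) (l 16630416))) (a (b (a (l 16570792) (a (l 16635768) (l 16607968))) (l 16550040)) (a (b (l 16593256) (l 16622888)) (l 16608208)))) (a (c (a (l 16489616) (l 16557352)) (a (l 16484712) (l 16554888))) (c (b (a (l 16601080) (l 16654872)) (a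 (l 16604432) (l 16621264))) (b (a (l 16579896) (l 16654640)) (a (l 16603048) (l 16620008)))))) (a (c (b (a (l 16666248) (l 16681872)) (b (l 16640248) (l 16609720))) (b (a (l 16665808) (l 16681552)) (b (l 16638872) (l 16607416)))) (a (b (l 3) (c (l 16618072) (l 16615312))) (l 3))))), by decide +kernel⟩

def k3_pp_022 : ∃ t, chk3 f_pp_022 t 5 9 1 = true :=
  ⟨(l 3), by decide +kernel⟩

def k4_pp_022 : ∃ t, chk3 f_pp_022 t 3 4 1 = true :=
  ⟨(l 3), by decide +kernel⟩

def k5_pp_022 : ∃ t, chk3 f_pp_022 t 4 20 1 = true :=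
  ⟨(a (a (b (c (b (l 16425400) (l 16403672)) (b (l 16461048) (l 16417344))) (b (c (l 16392592) (l 16384664)) (b (c (a (l 16341056) (l 16393328)) (a (l 16332856) (l 16386904))) (b (c (a (b (l 16315912) (l 16289144)) (l 16368248)) (a (b (l 16306976) (l 16279312)) (l 16361096))) (c (b (a (l 16243352) (b (b (l 16358216) (b (l 16353360) (l 16347800))) (l 16344320))) (l 16154512)) (b (a (l 16231960) (b (b (l 16350760) (b (l 16345744) (l 16339984))) (l 16336392))) (l 16227144))))))) (b (a (c (l 16483976) (l 16480344)) (b (b (c (l 16587424) (l 16585144)) (l 16552376)) (l 16509088))) (b (c (l 16464416) (l 16458968)) (b (c (l 16438976) (l 16432960)) (b (c (l 16419696) (l 16413136)) (c (a (a (c (l 16393264) (l 16389816)) (l 16413056)) (l 16409184)) (a (c (l 16396992) (l 16393616)) (l 16402008)))))))) (b (b (c (a (b (l 16578888) (c (l 16549432) (l 16547352))) (b (l 16580016) (l 16552048))) (a (b (l 16575648) (c (l 16545272) (l 16543192))) (b (l 16575872) (l 16547064)))) (a (a (b (c (l 16520800)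 (l 16516064)) (l 16490160)) (c (b (l 16517664) (l 16489160)) (b (l 16512352) (l 16483000)))) (c (b (l 16524360) (l 16496968)) (b (l 16518552) (l 16490360))))) (b (b (a (l 16462672) (c (c (l 16472368) (l 16468672)) (c (l 16464976) (l 16461288)))) (a (l 16441680) (a (l 16436704) (b (c (l 16458424) (l 16450480)) (c (l 16446944) (l 16438672)))))) (b (c (l 16383840) (a (l 16419680) (l 16418824))) (b (c (a (l 16410808) (l 16413488)) (a (l 16402808) (l 16404544))) (c (a (l 16398808) (l 16403872)) (a (l 16390472) (l 16394672)))))))), by decide +kernel⟩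

def k6_pp_022 : ∃ t, chk3 f_pp_022 t 4 21 1 = true :=
  ⟨(a (a (c (a (b (l 16169680) (l 16067184)) (l 16011096)) (a (b (l 16156208) (l 16050888)) (l 15998880))) (c (l 16161808) (a (l 16249672) (l 16262328)))) (c (a (l 16274160) (b (l 16365744) (l 16317864))) (a (l 16199088) (b (l 16355400) (l 16306064))))), by decide +kernel⟩

def k7_pp_022 : ∃ t, chk3 f_pp_022 t 4 11 1 = true :=
  ⟨(a (a (b (c (a (l 15880472) (l 15948208)) (a (l 15858552) (l 15928304))) (c (a (l 15648096) (l 15736408)) (b (l 15709944) (l 15616520)))) (c (b (a (l 16013104) (l 16044120)) (a (l 15850552) (l 15947912))) (b (a (l 15994344) (l 16025648)) (b (l 15888504) (l 15865112))))) (c (b (a (l 16022096) (l 16303664)) (a (l 16096336) (l 16300456))) (b (a (l 16026368) (l 16291408)) (l 16058456)))), by decide +kernel⟩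

def k8_pp_022 : ∃ t, chk3 f_pp_022 t 10 5 1 = true :=
  ⟨(a (b (b (b (b (b (l 3) (c (l 16584032) (l 16579192))) (c (b (l 16564648) (l 16527656)) (b (l 16559248) (l 16500832)))) (b (b (c (l 16514952) (l 16487768)) (c (b (l 16527136) (l 16481784)) (b (l 16520672) (l 16454248)))) (b (b (a (c (l 16471840) (l 16442976)) (c (l 16569664) (l 16564272))) (c (c (l 16501944) (l 16498632)) (c (l 16495320) (l 16512984)))) (b (b (l 16414576) (c (l 16525048) (l 16518576))) (c (l 16527712) (l 16521336)))))) (c (l 16523912) (l 16517416))) (c (b (l 16517928) (l 16516656)) (b (l 16511208) (l 16509888)))) (b (b (b (a (b (l 3) (c (l 16673568) (l 16670872))) (l 3)) (b (b (c (l 16676936) (l 16654448)) (c (c (l 16719256) (l 16718504)) (c (l 16717744) (l 16716984)))) (b (c (b (l 16718880) (l 16614176)) (b (l 16696392) (c (l 16717904) (l 16717152)))) (b (b (c (l 16635592) (a (l 16671544) (l 16763296))) (b (c (l 16677904) (l 16655456)) (a (l 16675408) (c (l 16764224) (l 16763888))))) (b (b (b (c (l 16658832)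 (l 16636456)) (c (l 16723504) (l 16722168))) (l 16639864)) (l 16639688)))))) (c (l 16637248) (l 16635824))) (c (b (l 16719104) (l 16718880)) (b (l 16717592) (l 16717368))))), by decide +kernel⟩

def k9_pp_022 : ∃ t, chk3 f_pp_022 t 11 5 1 = true :=
  ⟨(a (b (b (b (l 3) (b (b (l 3) (c (l 16777216) (l 16777216))) (b (c (b (l 16777216) (l 16777216)) (b (l 16777216) (l 16777216))) (b (c (b (l 16777216) (l 16777216)) (b (l 16777216) (l 16777216))) (b (b (b (c (l 16776856) (l 16776848)) (b (c (l 16776360) (l 16776336)) (b (b (c (l 16776080) (l 16776048)) (c (l 16775808) (l 16775776))) (l 16775768)))) (l 16775784)) (l 16775856)))))) (c (l 16776344) (l 16776320))) (b (l 16777216) (l 16777216))) (b (b (b (l 3) (b (l 3) (b (b (l 3) (c (l 16777216) (l 16777216))) (b (c (b (l 16777216) (l 16777216)) (b (l 16777216) (l 16777216))) (b (b (b (c (l 16777216) (l 16777216)) (b (c (l 16777216) (l 16777216)) (c (l 16777216) (l 16777216)))) (l 16777216)) (l 16777216)))))) (c (l 16777216) (l 16777216)))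 (b (c (l 16777216) (l 16777216)) (l 16777216)))), by decide +kernel⟩

def k10_pp_022 : ∃ t, chk3 f_pp_022 t 3 5 1 = true :=
  ⟨(a (b (b (b (l 3) (b (l 3) (a (b (l 3) (a (b (c (b (l 16777216) (l 16777216)) (b (l 16777216) (l 16777216))) (b (b (b (c (l 16777216) (l 16777216)) (b (c (l 16777216) (l 16777216)) (c (l 16777216) (l 16777216)))) (l 16777216)) (l 16777216))) (b (l 3) (b (b (b (c (l 16777216) (l 16777216)) (b (c (l 16777216) (l 16777216)) (c (l 16777216) (l 16777216)))) (l 16777216)) (l 16777216))))) (a (b (l 3) (a (b (c (l 9144690016263) (l 7825061314567)) (b (b (b (l 16777216) (b (l 16777216) (c (l 16777216) (l 16777216)))) (l 16777216)) (l 16777216))) (l 2))) (l 2))))) (a (a (c (l 16777216) (l 16777216)) (c (l 16777216) (l 16777216))) (a (c (l 16777216) (l 16777216)) (l 2)))) (a (a (b (c (l 16777216) (l 16777216)) (l 16777216)) (b (c (l 16777216) (l 16777216)) (l 2))) (l 2))) (l 2)), by decide +kernel⟩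

def k11_pp_022 : ∃ t, chk3 f_pp_022 t 1 3 1 = true :=
  ⟨(a (b (b (a (a (c (a (b (a (l 15513104) (l 15666072)) (l 15582624)) (b (l 15887904) (l 15887904))) (a (b (l 15560280) (l 15549848)) (l 15864792))) (a (c (l 16096328) (l 16078648)) (b (c (l 16300456) (l 16288072)) (l 16294264)))) (b (a (a (l 16513272) (l 16718120)) (a (l 16777216) (l 2))) (a (a (l 16513272) (l 16718120)) (l 2)))) (a (a (c (a (l 15582624) (b (l 15887904) (l 15887904))) (a (l 15549848) (l 15864792))) (c (a (l 16096328) (l 16300456)) (a (l 16078648) (l 16288072)))) (a (a (b (l 16513272) (l 2)) (l 2)) (l 2)))) (a (a (b (c (a (l 15582624) (l 15887904)) (a (l 15549848) (l 15864792))) (a (c (l 15582624) (l 15549848)) (l 2))) (b (c (a (l 16096328) (l 2)) (l 16058448)) (l 2))) (l 2))) (l 2)), by decide +kernel⟩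

theorem s12_pp_022 : ∃ t, chk3 f_pp_022 t 5 5 1 = true := ex3_a k8_pp_022 k9_pp_022

theorem s13_pp_022 : ∃ t, chk3 f_pp_022 t 4 10 1 = true := ex3_b k5_pp_022 k6_pp_022

theorem s14_pp_022 : ∃ t, chk3 f_pp_022 t 4 5 1 = true := ex3_b s13_pp_022 k7_pp_022

theorem s15_pp_022 : ∃ t, chk3 f_pp_022 t 2 5 1 = true := ex3_a s14_pp_022 s12_pp_022

theorem s16_pp_022 : ∃ t, chk3 f_pp_022 t 1 5 1 = true := ex3_a s15_pp_022 k10_pp_022

theorem s17_pp_022 : ∃ t, chk3 f_pp_022 t 4 9 1 = true := ex3_b k1_pp_022 k2_pp_022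

theorem s18_pp_022 : ∃ t, chk3 f_pp_022 t 2 9 1 = true := ex3_a s17_pp_022 k3_pp_022

theorem s19_pp_022 : ∃ t, chk3 f_pp_022 t 2 4 1 = true := ex3_b k0_pp_022 s18_pp_022

theorem s20_pp_022 : ∃ t, chk3 f_pp_022 t 1 4 1 = true := ex3_a s19_pp_022 k4_pp_022

theorem s21_pp_022 : ∃ t, chk3 f_pp_022 t 1 2 1 = true := ex3_b s20_pp_022 s16_pp_022

theorem s22_pp_022 : ∃ t, chk3 f_pp_022 t 1 1 1 = true := ex3_b s21_pp_022 k11_pp_022

theorem c_pp_022 : CertFX 67108864 469762048 1073741824 536870912 1046898278 26843546 false true true .pp 0 2 2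
    ndF2q0 ndF7q2 pcF2 Cut.none Ext.none :=
  certFX1 (fam := false) (s1 := true) (s2 := true) (a := 0) (b := 2) (c := 2) (cn := .pp) (n1 := ndF2q0) (n2 := ndF7q2) (pc := pcF2) (cut := Cut.none) (xt := Ext.none) (P1 := 67108864) (W1 := 469762048) (P2 := 1073741824) (W2 := 536870912) (P3 := 1046898278) (W3 := 26843546)
    rfl (fun _ => rfl) s22_pp_022

noncomputable def f_pp_023 : ℕ → ℕ → ℕ → ℕ → Bool := onCell 1073741824 536870912 0 1230186008 1046898278 26843546
    (rowFX 2 false true true .up 0 2 3 (qsf 67108864 469762048 0 1230186008 2) ndF2q0 ndF7q3 pcF2 Cut.none Ext.none)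

def k0_pp_023 : ∃ t, chk3 f_pp_023 t 1 2 1 = true :=
  ⟨(a (l 2) (a (l 2) (b (b (a (l 2) (l 16717832)) (l 16692088)) (b (l 16764032) (l 16777216))))), by decide +kernel⟩

def k1_pp_023 : ∃ t, chk3 f_pp_023 t 4 3 1 = true :=
  ⟨(b (l 2) (b (l 2) (l 3))), by decide +kernel⟩

def k2_pp_023 : ∃ t, chk3 f_pp_023 t 5 6 1 = true :=
  ⟨(a (l 2) (b (l 2) (b (l 2) (l 16729960)))), by decide +kernel⟩

def k3_pp_023 : ∃ t, chk3 f_pp_023 t 10 7 1 = true :=
  ⟨(a (b (b (l 2) (b (l 2) (a (a (c (l 16777208) (l 16777208)) (b (l 2) (c (l 16777208) (l 16777208)))) (a (c (a (l 16775248) (l 16768232)) (c (l 16769744) (l 16769648))) (a (l 16752768) (a (l 16743336) (l 16738696))))))) (a (b (a (a (l 3) (c (l 1735871430599) (l 1729428979655))) (c (c (l 1728892108759) (l 1743387623383)) (c (l 1739629526999) (l 1718691561431)))) (l 3)) (a (a (b (b (c (l 16777216) (l 16777216)) (b (l 633675448167) (l 16777216))) (l 3)) (b (c (b (l 16775696) (l 16777216)) (b (c (l 16775664) (l 16775640)) (l 16777216))) (c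 (c (l 3800140087271) (l 3641226297303)) (c (l 3450100252631) (l 3226761953239))))) (b (b (a (c (a (l 16773296) (l 16768608)) (a (l 16773192) (l 16768384))) (a (l 16759496) (l 16752720))) (a (c (a (l 16777216) (l 16776184)) (a (l 16777216) (l 16776160))) (a (a (c (l 16775200) (l 16775144)) (c (b (l 16769968) (l 16775448)) (b (l 16769784) (l 16775400)))) (a (a (a (c (l 16769528) (l 16769328)) (l 16765792)) (l 16763896)) (l 16764096))))) (b (a (c (a (l 16777216) (l 16777216)) (a (l 16777216) (l 16777216))) (a (a (c (l 16777216) (l 16777216)) (c (l 16777216) (l 16777216))) (a (a (a (c (l 16776728) (l 16776712)) (a (c (l 16776224) (l 16776200)) (c (b (l 16775280) (l 16777216)) (c (l 16775696) (l 16775680))))) (l 16775720)) (l 16775752)))) (a (a (l 3) (c (l 16777216) (l 16777216))) (a (a (c (l 16777216) (l 16777216)) (c (l 16777216) (l 16777216))) (a (a (a (c (l 16777216) (l 16777216)) (a (c (l 16777216) (l 16777216)) (c (l 16777216) (l 16777216)))) (l 16777216)) (l 16777216)))))))))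 (b (b (b (l 2) (l 16743576)) (l 16722344)) (b (c (l 16763328) (l 16762968)) (c (l 16776136) (l 16776104))))), by decide +kernel⟩

def k4_pp_023 : ∃ t, chk3 f_pp_023 t 11 7 1 = true :=
  ⟨(b (b (b (l 16763792) (l 16771936)) (c (l 16771864) (l 16771728))) (b (b (l 16774312) (l 16776072)) (b (l 16777080) (l 16777216)))), by decide +kernel⟩

def k5_pp_023 : ∃ t, chk3 f_pp_023 t 3 3 1 = true :=
  ⟨(b (a (c (b (l 204111609863) (b (l 16777216) (l 16777216))) (b (l 16777216) (l 16777216))) (b (c (l 16777216) (l 16777216)) (b (l 16777216) (l 16777216)))) (b (b (a (l 16777216) (b (l 16775824) (l 16750872))) (a (l 16777216) (a (l 16755896) (b (l 16623712) (l 16420656))))) (a (b (b (l 16777216) (a (l 16777216) (l 16751184))) (a (b (l 16777216) (b (l 16767592) (l 16728664))) (b (l 16638864) (b (l 16488264) (l 16355176))))) (b (a (b (l 16647440) (l 16453056)) (b (l 16218008) (a (l 16096856) (l 15829136)))) (a (b (c (l 16215632) (l 16201040)) (b (l 15989712) (l 15698752))) (b (c (l 15454544)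 (l 15615872)) (c (a (l 15449664) (l 15102752)) (a (l 15425176) (l 15064112))))))))), by decide +kernel⟩

theorem s6_pp_023 : ∃ t, chk3 f_pp_023 t 5 7 1 = true := ex3_a k3_pp_023 k4_pp_023

theorem s7_pp_023 : ∃ t, chk3 f_pp_023 t 5 3 1 = true := ex3_b k2_pp_023 s6_pp_023

theorem s8_pp_023 : ∃ t, chk3 f_pp_023 t 2 3 1 = true := ex3_a k1_pp_023 s7_pp_023

theorem s9_pp_023 : ∃ t, chk3 f_pp_023 t 1 3 1 = true := ex3_a s8_pp_023 k5_pp_023

theorem s10_pp_023 : ∃ t, chk3 f_pp_023 t 1 1 1 = true := ex3_b k0_pp_023 s9_pp_023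

theorem c_pp_023 : CertFX 67108864 469762048 0 1230186008 1046898278 26843546 false true true .up 0 2 3
    ndF2q0 ndF7q3 pcF2 Cut.none Ext.none :=
  certFX2 (fam := false) (s1 := true) (s2 := true) (a := 0) (b := 2) (c := 3) (cn := .up) (n1 := ndF2q0) (n2 := ndF7q3) (pc := pcF2) (cut := Cut.none) (xt := Ext.none) (P1 := 67108864) (W1 := 469762048) (P2 := 0) (W2 := 1230186008) (P3 := 1046898278) (W3 := 26843546)
    rfl (fun _ => rfl) s10_pp_023

noncomputable def f_pp_033 : ℕ → ℕ → ℕ → ℕ → Bool := onCell 67108864 469762048 0 1230186008 1046898278 26843546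
    (rowFX 0 false true true .pnn 0 3 3 (qsf 67108864 469762048 0 1230186008 3) ndF2q0 ndF7q3 pcF3 Cut.none Ext.none)

def k0_pp_033 : ∃ t, chk3 f_pp_033 t 1 2 1 = true :=
  ⟨(a (b (b (l 4) (a (l 4) (a (l 4) (c (l 16693184) (b (l 4) (l 16704648)))))) (a (b (b (a (l 4) (a (l 4) (b (l 4) (l 16289488)))) (a (b (a (l 4) (a (l 4) (l 15935992))) (a (c (l 15582624) (l 15549848)) (c (l 15887912) (l 15864800)))) (c (a (l 16096336) (l 16300456)) (a (l 16078648) (l 16288072))))) (a (b (b (a (a (l 15484944) (l 15652160)) (l 15876424)) (c (l 15729888) (l 15696776))) (c (a (l 15582632) (l 15887912)) (a (l 15549848) (l 15864792)))) (b (c (l 16199296) (l 16184280)) (b (l 16191784) (l 16191784))))) (b (a (c (b (a (l 16504792) (l 16700392)) (l 16618928)) (b (a (l 16489592) (l 16694856)) (l 16614816))) (b (c (l 16753616) (l 16753008)) (l 16777216))) (b (a (c (l 16618928) (l 16614816)) (l 16777216)) (l 16615168))))) (a (b (b (l 4) (a (c (l 16693184) (l 16691000)) (a (l 16692088) (l 16692088)))) (a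 (b (b (l 16753312) (l 16777216)) (l 16777216)) (b (b (l 16753312) (l 16777216)) (l 16777216)))) (b (c (b (l 16717560) (l 16693184)) (b (l 16717544) (l 16691000))) (b (b (l 16753312) (l 16777216)) (l 16777216))))), by decide +kernel⟩

def k1_pp_033 : ∃ t, chk3 f_pp_033 t 1 3 1 = true :=
  ⟨(b (a (a (b (b (a (c (l 15729880) (l 15696768)) (l 16191784)) (a (c (l 15729880) (l 15696776)) (l 16191784))) (a (b (c (l 15729880) (l 15696776)) (c (l 15729880) (l 15696776))) (b (l 16065952) (l 16191784)))) (b (b (l 16552248) (a (l 16616872) (l 16777216))) (b (a (c (l 16618928) (l 16614816)) (l 16777216)) (l 16531280)))) (a (b (b (l 16777216) (l 16777216)) (b (l 16777216) (l 16777216))) (b (l 1) (l 1)))) (a (a (b (b (a (c (l 15729880) (l 15696776)) (l 16191784)) (a (c (l 15729880) (l 15696776)) (l 16191784))) (b (a (c (l 15729880) (l 15696776)) (l 16191784)) (a (b (l 15714208) (l 1)) (l 1)))) (b (b (a (l 16616872) (l 16777216)) (a (l 16616872) (l 1))) (l 1))) (l 1))), by decide +kernel⟩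

theorem s2_pp_033 : ∃ t, chk3 f_pp_033 t 1 1 1 = true := ex3_b k0_pp_033 k1_pp_033

theorem c_pp_033 : CertFX 67108864 469762048 0 1230186008 1046898278 26843546 false true true .pnn 0 3 3
    ndF2q0 ndF7q3 pcF3 Cut.none Ext.none :=
  certFX0 (fam := false) (s1 := true) (s2 := true) (a := 0) (b := 3) (c := 3) (cn := .pnn) (n1 := ndF2q0) (n2 := ndF7q3) (pc := pcF3) (cut := Cut.none) (xt := Ext.none) (P1 := 67108864) (W1 := 469762048) (P2 := 0) (W2 := 1230186008) (P3 := 1046898278) (W3 := 26843546)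
    rfl s2_pp_033

noncomputable def f_pp_101 : ℕ → ℕ → ℕ → ℕ → Bool := onCell 536870912 536870912 536870912 536870912 1046898278 26843546
    (rowFX 0 false true true .npn 1 0 1 (qsf 536870912 536870912 536870912 536870912 0) ndF2q1 ndF7q1 pcF0 Cut.none Ext.none)

def k0_pp_101 : ∃ t, chk3 f_pp_101 t 1 1 1 = true :=
  ⟨(l 3), by decide +kernel⟩

theorem c_pp_101 : CertFX 536870912 536870912 536870912 536870912 1046898278 26843546 false true true .npn 1 0 1
    ndF2q1 ndF7q1 pcF0 Cut.none Ext.none :=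
  certFX0 (fam := false) (s1 := true) (s2 := true) (a := 1) (b := 0) (c := 1) (cn := .npn) (n1 := ndF2q1) (n2 := ndF7q1) (pc := pcF0) (cut := Cut.none) (xt := Ext.none) (P1 := 536870912) (W1 := 536870912) (P2 := 536870912) (W2 := 536870912) (P3 := 1046898278) (W3 := 26843546)
    rfl k0_pp_101

noncomputable def f_pp_102 : ℕ → ℕ → ℕ → ℕ → Bool := onCell 536870912 536870912 1073741824 536870912 1046898278 26843546
    (rowFX 0 false true true .npp 1 0 2 (qsf 536870912 536870912 1073741824 536870912 0) ndF2q1 ndF7q2 pcF0 Cut.none Ext.none)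

def k0_pp_102 : ∃ t, chk3 f_pp_102 t 1 1 1 = true :=
  ⟨(l 3), by decide +kernel⟩

theorem c_pp_102 : CertFX 536870912 536870912 1073741824 536870912 1046898278 26843546 false true true .npp 1 0 2
    ndF2q1 ndF7q2 pcF0 Cut.none Ext.none :=
  certFX0 (fam := false) (s1 := true) (s2 := true) (a := 1) (b := 0) (c := 2) (cn := .npp) (n1 := ndF2q1) (n2 := ndF7q2) (pc := pcF0) (cut := Cut.none) (xt := Ext.none) (P1 := 536870912) (W1 := 536870912) (P2 := 1073741824) (W2 := 536870912) (P3 := 1046898278) (W3 := 26843546)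
    rfl k0_pp_102

noncomputable def f_pp_112 : ℕ → ℕ → ℕ → ℕ → Bool := onCell 536870912 536870912 1073741824 536870912 1046898278 26843546
    (rowFX 0 false true true .dn 1 1 2 (qsf 536870912 536870912 1073741824 536870912 1) ndF2q1 ndF7q2 pcF1 Cut.none Ext.none)

def k0_pp_112 : ∃ t, chk3 f_pp_112 t 1 1 1 = true :=
  ⟨(l 3), by decide +kernel⟩

theorem c_pp_112 : CertFX 536870912 536870912 1073741824 536870912 1046898278 26843546 false true true .dn 1 1 2
    ndF2q1 ndF7q2 pcF1 Cut.none Ext.none :=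
  certFX0 (fam := false) (s1 := true) (s2 := true) (a := 1) (b := 1) (c := 2) (cn := .dn) (n1 := ndF2q1) (n2 := ndF7q2) (pc := pcF1) (cut := Cut.none) (xt := Ext.none) (P1 := 536870912) (W1 := 536870912) (P2 := 1073741824) (W2 := 536870912) (P3 := 1046898278) (W3 := 26843546)
    rfl k0_pp_112

noncomputable def f_pp_113 : ℕ → ℕ → ℕ → ℕ → Bool := onCell 536870912 536870912 0 1230186008 1046898278 26843546
    (rowFX 2 false true true .nn 1 1 3 (qsf 536870912 536870912 0 1230186008 1) ndF2q1 ndF7q3 pcF1 Cut.none Ext.none)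

def k0_pp_113 : ∃ t, chk3 f_pp_113 t 1 1 1 = true :=
  ⟨(a (b (l 2) (b (l 3) (l 3))) (b (a (l 2) (b (a (l 2) (b (b (l 16696584) (l 16737168)) (b (l 16604344) (l 709306947447)))) (a (b (a (l 2) (b (l 2) (c (l 793594907175) (l 1069545883703)))) (b (a (l 2) (c (a (l 834396994279) (l 16140784)) (a (l 1113569420343) (l 15972104)))) (a (l 3) (b (c (l 362017873287) (l 16031472)) (l 3))))) (a (a (b (b (l 2) (c (l 16203856) (l 15923656))) (c (b (l 16091816) (l 16045024)) (b (l 15914240) (l 15936832)))) (b (c (b (l 16446248) (l 16146576)) (b (l 15968224) (l 15879280))) (c (b (l 16002128) (l 15940384)) (b (l 15846328) (l 15851472))))) (a (b (b (l 16100408) (c (c (l 16096152) (l 15988560)) (l 15826464))) (c (b (l 16004600) (l 15871136)) (l 15802680))) (b (b (l 15990880) (b (l 15885328) (c (l 15910712) (l 15768840)))) (c (b (l 15853392) (l 15816928)) (b (l 15762000) (l 15770944))))))))) (b (a (l 3) (a (l 3) (b (a (b (c (l 16019608) (l 15949464)) (l 3)) (b (c (a (l 15869472) (l 15814688)) (l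 15828448)) (c (l 15867224) (l 15864840)))) (l 3)))) (l 3)))), by decide +kernel⟩

theorem c_pp_113 : CertFX 536870912 536870912 0 1230186008 1046898278 26843546 false true true .nn 1 1 3
    ndF2q1 ndF7q3 pcF1 Cut.none Ext.none :=
  certFX2 (fam := false) (s1 := true) (s2 := true) (a := 1) (b := 1) (c := 3) (cn := .nn) (n1 := ndF2q1) (n2 := ndF7q3) (pc := pcF1) (cut := Cut.none) (xt := Ext.none) (P1 := 536870912) (W1 := 536870912) (P2 := 0) (W2 := 1230186008) (P3 := 1046898278) (W3 := 26843546)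
    rfl (fun _ => rfl) k0_pp_113

noncomputable def f_pp_123 : ℕ → ℕ → ℕ → ℕ → Bool := onCell 1073741824 536870912 0 1230186008 1046898278 26843546
    (rowFX 2 false true true .npn 1 2 3 (qsf 536870912 536870912 0 1230186008 2) ndF2q1 ndF7q3 pcF2 Cut.none Ext.none)

def k0_pp_123 : ∃ t, chk3 f_pp_123 t 4 2 1 = true :=
  ⟨(b (b (a (b (l 15801408) (l 15857328)) (a (l 15657728) (l 15349336))) (a (b (l 15897744) (l 15909232)) (l 15357632))) (a (b (b (a (l 16023784) (l 15796712)) (a (l 16059824) (l 15773616))) (b (a (b (l 16123872) (b (l 16164136) (c (a (l 16277456) (l 16112368)) (a (l 16254416) (l 16079384))))) (l 15789152)) (a (c (a (c (l 16218696) (l 16200872)) (b (l 16113240) (l 16086904))) (a (c (l 16180944) (l 16160864)) (l 16067704))) (c (a (c (l 15946712) (l 15931848)) (b (l 15733912) (l 15797768))) (a (l 15915104) (l 15738864)))))) (b (b (l 15379024) (l 15311928)) (b (l 15266496) (a (c (b (b (l 15436728) (l 15445528)) (l 15521208)) (b (l 15416824) (l 15490800))) (b (l 15067392)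 (c (a (l 15232256) (l 15045928)) (l 15099936)))))))), by decide +kernel⟩

def k1_pp_123 : ∃ t, chk3 f_pp_123 t 8 3 1 = true :=
  ⟨(b (a (a (b (c (b (a (c (l 16018400) (l 15994560)) (c (l 16056672) (l 16027144))) (b (b (l 15945904) (l 15862776)) (l 15850208))) (b (c (a (l 15981856) (l 16000512)) (l 15987592)) (c (a (l 15812416) (l 15874216)) (a (l 15797784) (l 15854632))))) (l 3)) (b (c (b (l 16030632) (c (l 15991544) (l 15975520))) (b (l 15981024) (l 15928688))) (c (b (l 15976712) (l 3)) (l 868822907719)))) (b (c (a (b (l 15984256) (c (l 16071328) (l 16041656))) (b (c (l 15942336) (l 15922232)) (c (l 16073008) (l 16048584)))) (b (l 15916704) (a (l 16021496) (l 16042192)))) (b (c (a (l 16102360) (c (l 16252960) (l 16242272))) (a (l 16074272) (l 16231920))) (a (l 3) (c (l 16298616) (l 16306960)))))) (l 3)), by decide +kernel⟩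

def k2_pp_123 : ∃ t, chk3 f_pp_123 t 9 3 1 = true :=
  ⟨(b (a (b (c (b (a (l 15848672) (l 15562448)) (b (l 15912632) (a (l 16078912) (l 16039976)))) (b (l 15714968) (b (l 15938784) (a (l 16073048) (l 16034416))))) (a (b (c (a (l 16348696) (l 16293464)) (a (l 16337560) (l 16280896))) (c (l 880634952487) (b (l 16420216) (l 16482912)))) (b (b (l 16225448) (l 16372360)) (c (c (l 351817323911) (l 364702220663)) (a (l 395840969831) (b (l 16534848) (l 16663816))))))) (b (b (c (b (l 15343248) (a (l 15694656) (l 15546552))) (l 15414616)) (c (b (c (l 15744400) (l 15770608)) (a (l 15991232) (l 15905840))) (b (l 15762856) (a (l 15984064) (l 15893800))))) (b (a (b (l 16197784) (b (l 16333992) (l 16422280))) (l 16256576)) (a (b (a (l 16534016) (l 16527624)) (c (l 16698872) (l 16696840))) (b (l 16559816) (l 16660824)))))) (b (b (a (a (l 3) (c (l 1022906597655) (l 1084646752263))) (c (a (b (a (l 16752216) (l 16756392)) (l 1068540698327)) (a (b (l 16739568) (l 16771448)) (l 16746784))) (a (b (a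 (l 16751568) (l 16755856)) (a (l 16764984) (l 16777192))) (a (b (l 16738592) (l 16771304)) (l 16745992))))) (a (l 3) (a (l 3) (a (c (l 1256445706119) (l 1334828859271)) (c (l 1254298222519) (l 1332681375671)))))) (l 3))), by decide +kernel⟩

def k3_pp_123 : ∃ t, chk3 f_pp_123 t 5 2 1 = true :=
  ⟨(a (b (a (b (a (l 15131520) (l 15259528)) (a (l 15055912) (l 15207344))) (b (l 15729208) (l 15744608))) (b (a (a (l 14977288) (l 15140912)) (l 15727920)) (a (b (a (l 14879904) (l 15047456)) (b (l 14918536) (a (c (l 14872552) (l 14822456)) (b (l 14979640) (c (l 15019256) (l 14973336)))))) (b (l 15661288) (b (l 15630784) (c (l 15636440) (l 15606072))))))) (b (b (l 16391096) (a (l 16374576) (l 16672720))) (a (b (l 16436768) (l 16337768)) (b (l 16763608) (l 16776688))))), by decide +kernel⟩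

def k4_pp_123 : ∃ t, chk3 f_pp_123 t 5 3 1 = true :=
  ⟨(b (b (a (a (a (b (c (l 15201328) (l 15160392)) (c (b (l 15584872) (l 15818192)) (b (l 15570752) (l 15799272)))) (b (c (a (l 15191760) (l 15327520)) (l 15219864)) (b (c (a (l 15552528) (l 15617664)) (l 15547800)) (a (c (b (l 15641712) (l 15806208)) (l 15737768)) (b (l 15686256) (a (l 15743376) (c (l 15858912) (l 15828520)))))))) (b (b (c (l 15687800) (l 15659880)) (l 15802144)) (c (b (l 15962040) (l 16061056)) (l 15870760)))) (a (b (c (a (l 16255232) (l 16587936)) (l 16413808)) (c (b (l 16498616) (l 16515472)) (l 16514288))) (c (l 16776792) (l 16776800)))) (b (a (a (a (l 16178816) (a (l 16097056) (a (l 16054784) (l 16008512)))) (a (l 16156280) (c (l 16308640) (l 16306624)))) (b (a (c (l 16561312) (l 16559480)) (l 16776880)) (l 16696544))) (a (a (a (b (l 16560416) (a (l 16697224) (l 16724480))) (a (b (l 16464208) (l 16710744)) (a (l 16512896) (l 16444520)))) (l 16503864)) (l 16729960)))) (a (a (b (a (a (c (b (l 16749392) (c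 (l 16773656) (l 16773616))) (b (l 16748672) (c (l 16773568) (l 16773520)))) (b (l 16770656) (c (c (l 16776032) (l 16776016)) (c (l 16776008) (l 16775992))))) (a (b (b (l 16756384) (l 16748616)) (a (c (l 16771816) (l 651794790231)) (a (c (l 16764448) (l 16764112)) (l 16756304)))) (b (b (a (l 16744632) (a (l 16764480) (l 16702400))) (a (l 16716440) (a (l 16721368) (c (l 16731536) (l 16730352))))) (a (c (l 16744048) (l 16743192)) (a (l 424698316503) (b (l 16725032) (l 16738696))))))) (b (b (a (a (c (l 1585010704327) (l 1755198783431)) (l 1)) (l 1)) (l 1)) (l 1))) (b (b (b (l 16702280) (l 16743576)) (l 16743312)) (l 1))) (b (b (b (l 16763792) (l 16771936)) (l 1)) (l 1)))), by decide +kernel⟩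

def k5_pp_123 : ∃ t, chk3 f_pp_123 t 3 1 1 = true :=
  ⟨(b (a (b (b (a (l 16594744) (l 16712720)) (a (l 16673392) (l 16690968))) (b (l 16764032) (l 16777216))) (b (b (a (l 16717832) (l 16717832)) (l 16692088)) (b (l 16764032) (l 16777216)))) (b (a (b (c (a (l 16777216) (l 16777216)) (l 16777216)) (b (c (l 16777216) (l 16777216)) (l 16777216))) (b (l 47815065607) (l 1))) (l 1))), by decide +kernel⟩

theorem s6_pp_123 : ∃ t, chk3 f_pp_123 t 5 1 1 = true := ex3_b k3_pp_123 k4_pp_123

theorem s7_pp_123 : ∃ t, chk3 f_pp_123 t 4 3 1 = true := ex3_a k1_pp_123 k2_pp_123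

theorem s8_pp_123 : ∃ t, chk3 f_pp_123 t 4 1 1 = true := ex3_b k0_pp_123 s7_pp_123

theorem s9_pp_123 : ∃ t, chk3 f_pp_123 t 2 1 1 = true := ex3_a s8_pp_123 s6_pp_123

theorem s10_pp_123 : ∃ t, chk3 f_pp_123 t 1 1 1 = true := ex3_a s9_pp_123 k5_pp_123

theorem c_pp_123 : CertFX 536870912 536870912 0 1230186008 1046898278 26843546 false true true .npn 1 2 3
    ndF2q1 ndF7q3 pcF2 Cut.none Ext.none :=
  certFX2 (fam := false) (s1 := true) (s2 := true) (a := 1) (b := 2) (c := 3) (cn := .npn) (n1 := ndF2q1) (n2 := ndF7q3) (pc := pcF2) (cut := Cut.none) (xt := Ext.none) (P1 := 536870912) (W1 := 536870912) (P2 := 0) (W2 := 1230186008) (P3 := 1046898278) (W3 := 26843546)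
    rfl (fun _ => rfl) s10_pp_123

noncomputable def f_pp_133 : ℕ → ℕ → ℕ → ℕ → Bool := onCell 1610612736 536870912 0 1230186008 1046898278 26843546
    (rowFX 2 false true true .dn 1 3 3 (qsf 536870912 536870912 0 1230186008 3) ndF2q1 ndF7q3 pcF3 Cut.none Ext.none)

def k0_pp_133 : ∃ t, chk3 f_pp_133 t 1 1 1 = true :=
  ⟨(b (a (b (a (c (l 1502198168439) (l 1322346428727)) (l 1)) (l 1)) (l 1)) (l 1)), by decide +kernel⟩

theorem c_pp_133 : CertFX 536870912 536870912 0 1230186008 1046898278 26843546 false true true .dn 1 3 3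
    ndF2q1 ndF7q3 pcF3 Cut.none Ext.none :=
  certFX2 (fam := false) (s1 := true) (s2 := true) (a := 1) (b := 3) (c := 3) (cn := .dn) (n1 := ndF2q1) (n2 := ndF7q3) (pc := pcF3) (cut := Cut.none) (xt := Ext.none) (P1 := 536870912) (W1 := 536870912) (P2 := 0) (W2 := 1230186008) (P3 := 1046898278) (W3 := 26843546)
    rfl (fun _ => rfl) k0_pp_133

noncomputable def f_pp_202_a : ℕ → ℕ → ℕ → ℕ → Bool := onCell 0 420477299 1073741824 536870912 1046898278 26843546
    (rowFX 0 false true true .pp 2 0 2 (qsf 0 420477299 1073741824 536870912 0) ndF2q2a ndF7q2 pcF0 Cut.none Ext.none)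

def k0_pp_202_a : ∃ t, chk3 f_pp_202_a t 1 1 1 = true :=
  ⟨(l 5), by decide +kernel⟩

theorem c_pp_202_a : CertFX 0 420477299 1073741824 536870912 1046898278 26843546 false true true .pp 2 0 2
    ndF2q2a ndF7q2 pcF0 Cut.none Ext.none :=
  certFX0 (fam := false) (s1 := true) (s2 := true) (a := 2) (b := 0) (c := 2) (cn := .pp) (n1 := ndF2q2a) (n2 := ndF7q2) (pc := pcF0) (cut := Cut.none) (xt := Ext.none) (P1 := 0) (W1 := 420477299) (P2 := 1073741824) (W2 := 536870912) (P3 := 1046898278) (W3 := 26843546)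
    rfl k0_pp_202_a

noncomputable def f_pp_202_b : ℕ → ℕ → ℕ → ℕ → Bool := onCell 1239849684 370763052 1073741824 536870912 1046898278 26843546
    (rowFX 0 false true true .pp 2 0 2 (qsf 1239849684 370763052 1073741824 536870912 0) ndF2q2b ndF7q2 pcF0 Cut.none Ext.none)

def k0_pp_202_b : ∃ t, chk3 f_pp_202_b t 1 1 1 = true :=
  ⟨(l 5), by decide +kernel⟩

theorem c_pp_202_b : CertFX 1239849684 370763052 1073741824 536870912 1046898278 26843546 false true true .pp 2 0 2
    ndF2q2b ndF7q2 pcF0 Cut.none Ext.none :=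
  certFX0 (fam := false) (s1 := true) (s2 := true) (a := 2) (b := 0) (c := 2) (cn := .pp) (n1 := ndF2q2b) (n2 := ndF7q2) (pc := pcF0) (cut := Cut.none) (xt := Ext.none) (P1 := 1239849684) (W1 := 370763052) (P2 := 1073741824) (W2 := 536870912) (P3 := 1046898278) (W3 := 26843546)
    rfl k0_pp_202_b

noncomputable def f_pp_203_a : ℕ → ℕ → ℕ → ℕ → Bool := onCell 0 420477299 0 1230186008 1046898278 26843546
    (rowFX 0 false true true .up 2 0 3 (qsf 0 420477299 0 1230186008 0) ndF2q2a ndF7q3 pcF0 Cut.none Ext.none)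

def k0_pp_203_a : ∃ t, chk3 f_pp_203_a t 1 1 1 = true :=
  ⟨(b (l 2) (l 3)), by decide +kernel⟩

theorem c_pp_203_a : CertFX 0 420477299 0 1230186008 1046898278 26843546 false true true .up 2 0 3
    ndF2q2a ndF7q3 pcF0 Cut.none Ext.none :=
  certFX0 (fam := false) (s1 := true) (s2 := true) (a := 2) (b := 0) (c := 3) (cn := .up) (n1 := ndF2q2a) (n2 := ndF7q3) (pc := pcF0) (cut := Cut.none) (xt := Ext.none) (P1 := 0) (W1 := 420477299) (P2 := 0) (W2 := 1230186008) (P3 := 1046898278) (W3 := 26843546)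
    rfl k0_pp_203_a

end Pool.Agent.Strip051.G.IE1.Tab.C.FB27

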