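import Pool.Agent.Strip051.G.IE1.Tab

/-! # Certificates F45 (generated) -/

set_option linter.all false
set_option maxRecDepth 100000

namespace Pool.Agent.Strip051.G.IE1.Tab.C.FB27

open Pool.Agent.Strip051.PB Pool.Agent.Strip051.PB.T
open Pool.Agent.Strip051.G.IE1.Tab

noncomputable def f_pp_203_b : ℕ → ℕ → ℕ → ℕ → Bool := onCell 0 536870912 0 1230186008 1046898278 26843546
    (rowFX 2 false true true .up 2 0 3 (qsf 1239849684 370763052 0 1230186008 0) ndF2q2b ndF7q3 pcF0 Cut.none Ext.none)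

def k0_pp_203_b : ∃ t, chk3 f_pp_203_b t 1 1 1 = true :=
  ⟨(b (l 3) (l 5)), by decide +kernel⟩

theorem c_pp_203_b : CertFX 1239849684 370763052 0 1230186008 1046898278 26843546 false true true .up 2 0 3
    ndF2q2b ndF7q3 pcF0 Cut.none Ext.none :=
  certFX2 (fam := false) (s1 := true) (s2 := true) (a := 2) (b := 0) (c := 3) (cn := .up) (n1 := ndF2q2b) (n2 := ndF7q3) (pc := pcF0) (cut := Cut.none) (xt := Ext.none) (P1 := 1239849684) (W1 := 370763052) (P2 := 0) (W2 := 1230186008) (P3 := 1046898278) (W3 := 26843546)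
    rfl (fun _ => rfl) k0_pp_203_b

noncomputable def f_pp_213_a : ℕ → ℕ → ℕ → ℕ → Bool := onCell 0 420477299 0 1230186008 1046898278 26843546
    (rowFX 0 false true true .pnn 2 1 3 (qsf 0 420477299 0 1230186008 1) ndF2q2a ndF7q3 pcF1 Cut.none Ext.none)

def k0_pp_213_a : ∃ t, chk3 f_pp_213_a t 1 1 1 = true :=
  ⟨(b (l 3) (l 3)), by decide +kernel⟩

theorem c_pp_213_a : CertFX 0 420477299 0 1230186008 1046898278 26843546 false true true .pnn 2 1 3
    ndF2q2a ndF7q3 pcF1 Cut.none Ext.none :=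
  certFX0 (fam := false) (s1 := true) (s2 := true) (a := 2) (b := 1) (c := 3) (cn := .pnn) (n1 := ndF2q2a) (n2 := ndF7q3) (pc := pcF1) (cut := Cut.none) (xt := Ext.none) (P1 := 0) (W1 := 420477299) (P2 := 0) (W2 := 1230186008) (P3 := 1046898278) (W3 := 26843546)
    rfl k0_pp_213_a

noncomputable def f_pp_213_b : ℕ → ℕ → ℕ → ℕ → Bool := onCell 1239849684 370763052 0 1230186008 1046898278 26843546
    (rowFX 0 false true true .pnn 2 1 3 (qsf 1239849684 370763052 0 1230186008 1) ndF2q2b ndF7q3 pcF1 Cut.none Ext.none)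

def k0_pp_213_b : ∃ t, chk3 f_pp_213_b t 1 1 1 = true :=
  ⟨(b (l 3) (b (l 3) (l 3))), by decide +kernel⟩

theorem c_pp_213_b : CertFX 1239849684 370763052 0 1230186008 1046898278 26843546 false true true .pnn 2 1 3
    ndF2q2b ndF7q3 pcF1 Cut.none Ext.none :=
  certFX0 (fam := false) (s1 := true) (s2 := true) (a := 2) (b := 1) (c := 3) (cn := .pnn) (n1 := ndF2q2b) (n2 := ndF7q3) (pc := pcF1) (cut := Cut.none) (xt := Ext.none) (P1 := 1239849684) (W1 := 370763052) (P2 := 0) (W2 := 1230186008) (P3 := 1046898278) (W3 := 26843546)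
    rfl k0_pp_213_b

noncomputable def f_pp_303 : ℕ → ℕ → ℕ → ℕ → Bool := onCell 1610612736 469762048 0 1230186008 1046898278 26843546
    (rowFX 0 false true true .npn 3 0 3 (qsf 1610612736 469762048 0 1230186008 0) ndF2q3 ndF7q3 pcF0 Cut.none Ext.none)

def k0_pp_303 : ∃ t, chk3 f_pp_303 t 1 1 1 = true :=
  ⟨(b (l 3) (l 5)), by decide +kernel⟩

theorem c_pp_303 : CertFX 1610612736 469762048 0 1230186008 1046898278 26843546 false true true .npn 3 0 3
    ndF2q3 ndF7q3 pcF0 Cut.none Ext.none :=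
  certFX0 (fam := false) (s1 := true) (s2 := true) (a := 3) (b := 0) (c := 3) (cn := .npn) (n1 := ndF2q3) (n2 := ndF7q3) (pc := pcF0) (cut := Cut.none) (xt := Ext.none) (P1 := 1610612736) (W1 := 469762048) (P2 := 0) (W2 := 1230186008) (P3 := 1046898278) (W3 := 26843546)
    rfl k0_pp_303

noncomputable def f_pp_313 : ℕ → ℕ → ℕ → ℕ → Bool := onCell 1610612736 469762048 0 1230186008 1046898278 26843546
    (rowFX 0 false true true .dn 3 1 3 (qsf 1610612736 469762048 0 1230186008 1) ndF2q3 ndF7q3 pcF1 Cut.none Ext.none)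

def k0_pp_313 : ∃ t, chk3 f_pp_313 t 1 1 1 = true :=
  ⟨(b (l 3) (l 1)), by decide +kernel⟩

theorem c_pp_313 : CertFX 1610612736 469762048 0 1230186008 1046898278 26843546 false true true .dn 3 1 3
    ndF2q3 ndF7q3 pcF1 Cut.none Ext.none :=
  certFX0 (fam := false) (s1 := true) (s2 := true) (a := 3) (b := 1) (c := 3) (cn := .dn) (n1 := ndF2q3) (n2 := ndF7q3) (pc := pcF1) (cut := Cut.none) (xt := Ext.none) (P1 := 1610612736) (W1 := 469762048) (P2 := 0) (W2 := 1230186008) (P3 := 1046898278) (W3 := 26843546)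
    rfl k0_pp_313

noncomputable def f_pm_001 : ℕ → ℕ → ℕ → ℕ → Bool := onCell 67108864 469762048 536870912 536870912 1046898278 26843546
    (rowFX 0 false true false .up 0 0 1 (qsf 67108864 469762048 536870912 536870912 0) ndF2q0 ndF7q1 pcF0 Cut.none Ext.none)

def k0_pm_001 : ∃ t, chk3 f_pm_001 t 1 1 1 = true :=
  ⟨(l 4), by decide +kernel⟩

theorem c_pm_001 : CertFX 67108864 469762048 536870912 536870912 1046898278 26843546 false true false .up 0 0 1
    ndF2q0 ndF7q1 pcF0 Cut.none Ext.none :=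
  certFX0 (fam := false) (s1 := true) (s2 := false) (a := 0) (b := 0) (c := 1) (cn := .up) (n1 := ndF2q0) (n2 := ndF7q1) (pc := pcF0) (cut := Cut.none) (xt := Ext.none) (P1 := 67108864) (W1 := 469762048) (P2 := 536870912) (W2 := 536870912) (P3 := 1046898278) (W3 := 26843546)
    rfl k0_pm_001

noncomputable def f_pm_011 : ℕ → ℕ → ℕ → ℕ → Bool := onCell 67108864 469762048 536870912 536870912 1046898278 26843546
    (rowFX 0 false true false .pnn 0 1 1 (qsf 67108864 469762048 536870912 536870912 1) ndF2q0 ndF7q1 pcF1 Cut.none Ext.none)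

def k0_pm_011 : ∃ t, chk3 f_pm_011 t 1 1 1 = true :=
  ⟨(l 4), by decide +kernel⟩

theorem c_pm_011 : CertFX 67108864 469762048 536870912 536870912 1046898278 26843546 false true false .pnn 0 1 1
    ndF2q0 ndF7q1 pcF1 Cut.none Ext.none :=
  certFX0 (fam := false) (s1 := true) (s2 := false) (a := 0) (b := 1) (c := 1) (cn := .pnn) (n1 := ndF2q0) (n2 := ndF7q1) (pc := pcF1) (cut := Cut.none) (xt := Ext.none) (P1 := 67108864) (W1 := 469762048) (P2 := 536870912) (W2 := 536870912) (P3 := 1046898278) (W3 := 26843546)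
    rfl k0_pm_011

noncomputable def f_pm_012 : ℕ → ℕ → ℕ → ℕ → Bool := onCell 67108864 469762048 1073741824 536870912 1046898278 26843546
    (rowFX 0 false true false .pnp 0 1 2 (qsf 67108864 469762048 1073741824 536870912 1) ndF2q0 ndF7q2 pcF1 Cut.none Ext.none)

def k0_pm_012 : ∃ t, chk3 f_pm_012 t 1 1 1 = true :=
  ⟨(l 4), by decide +kernel⟩

theorem c_pm_012 : CertFX 67108864 469762048 1073741824 536870912 1046898278 26843546 false true false .pnp 0 1 2
    ndF2q0 ndF7q2 pcF1 Cut.none Ext.none :=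
  certFX0 (fam := false) (s1 := true) (s2 := false) (a := 0) (b := 1) (c := 2) (cn := .pnp) (n1 := ndF2q0) (n2 := ndF7q2) (pc := pcF1) (cut := Cut.none) (xt := Ext.none) (P1 := 67108864) (W1 := 469762048) (P2 := 1073741824) (W2 := 536870912) (P3 := 1046898278) (W3 := 26843546)
    rfl k0_pm_012

noncomputable def f_pm_022 : ℕ → ℕ → ℕ → ℕ → Bool := onCell 67108864 469762048 1073741824 536870912 1046898278 26843546
    (rowFX 0 false true false .pp 0 2 2 (qsf 67108864 469762048 1073741824 536870912 2) ndF2q0 ndF7q2 pcF2 Cut.none Ext.none)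

def k0_pm_022 : ∃ t, chk3 f_pm_022 t 1 1 1 = true :=
  ⟨(l 4), by decide +kernel⟩

theorem c_pm_022 : CertFX 67108864 469762048 1073741824 536870912 1046898278 26843546 false true false .pp 0 2 2
    ndF2q0 ndF7q2 pcF2 Cut.none Ext.none :=
  certFX0 (fam := false) (s1 := true) (s2 := false) (a := 0) (b := 2) (c := 2) (cn := .pp) (n1 := ndF2q0) (n2 := ndF7q2) (pc := pcF2) (cut := Cut.none) (xt := Ext.none) (P1 := 67108864) (W1 := 469762048) (P2 := 1073741824) (W2 := 536870912) (P3 := 1046898278) (W3 := 26843546)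
    rfl k0_pm_022

noncomputable def f_pm_023 : ℕ → ℕ → ℕ → ℕ → Bool := onCell 67108864 469762048 0 1230186008 1046898278 26843546
    (rowFX 0 false true false .up 0 2 3 (qsf 67108864 469762048 0 1230186008 2) ndF2q0 ndF7q3 pcF2 Cut.none Ext.none)

def k0_pm_023 : ∃ t, chk3 f_pm_023 t 1 1 1 = true :=
  ⟨(b (a (l 2) (l 4)) (l 4)), by decide +kernel⟩

theorem c_pm_023 : CertFX 67108864 469762048 0 1230186008 1046898278 26843546 false true false .up 0 2 3
    ndF2q0 ndF7q3 pcF2 Cut.none Ext.none :=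
  certFX0 (fam := false) (s1 := true) (s2 := false) (a := 0) (b := 2) (c := 3) (cn := .up) (n1 := ndF2q0) (n2 := ndF7q3) (pc := pcF2) (cut := Cut.none) (xt := Ext.none) (P1 := 67108864) (W1 := 469762048) (P2 := 0) (W2 := 1230186008) (P3 := 1046898278) (W3 := 26843546)
    rfl k0_pm_023

noncomputable def f_pm_033 : ℕ → ℕ → ℕ → ℕ → Bool := onCell 67108864 469762048 0 1230186008 1046898278 26843546
    (rowFX 0 false true false .pnn 0 3 3 (qsf 67108864 469762048 0 1230186008 3) ndF2q0 ndF7q3 pcF3 Cut.none Ext.none)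

def k0_pm_033 : ∃ t, chk3 f_pm_033 t 1 1 1 = true :=
  ⟨(b (a (l 4) (l 4)) (l 4)), by decide +kernel⟩

theorem c_pm_033 : CertFX 67108864 469762048 0 1230186008 1046898278 26843546 false true false .pnn 0 3 3
    ndF2q0 ndF7q3 pcF3 Cut.none Ext.none :=
  certFX0 (fam := false) (s1 := true) (s2 := false) (a := 0) (b := 3) (c := 3) (cn := .pnn) (n1 := ndF2q0) (n2 := ndF7q3) (pc := pcF3) (cut := Cut.none) (xt := Ext.none) (P1 := 67108864) (W1 := 469762048) (P2 := 0) (W2 := 1230186008) (P3 := 1046898278) (W3 := 26843546)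
    rfl k0_pm_033

noncomputable def f_pm_101 : ℕ → ℕ → ℕ → ℕ → Bool := onCell 536870912 536870912 536870912 536870912 1046898278 26843546
    (rowFX 0 false true false .npn 1 0 1 (qsf 536870912 536870912 536870912 536870912 0) ndF2q1 ndF7q1 pcF0 Cut.none Ext.none)

def k0_pm_101 : ∃ t, chk3 f_pm_101 t 1 1 1 = true :=
  ⟨(l 4), by decide +kernel⟩

theorem c_pm_101 : CertFX 536870912 536870912 536870912 536870912 1046898278 26843546 false true false .npn 1 0 1
    ndF2q1 ndF7q1 pcF0 Cut.none Ext.none :=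
  certFX0 (fam := false) (s1 := true) (s2 := false) (a := 1) (b := 0) (c := 1) (cn := .npn) (n1 := ndF2q1) (n2 := ndF7q1) (pc := pcF0) (cut := Cut.none) (xt := Ext.none) (P1 := 536870912) (W1 := 536870912) (P2 := 536870912) (W2 := 536870912) (P3 := 1046898278) (W3 := 26843546)
    rfl k0_pm_101

noncomputable def f_pm_102 : ℕ → ℕ → ℕ → ℕ → Bool := onCell 536870912 536870912 1073741824 536870912 1046898278 26843546
    (rowFX 0 false true false .npp 1 0 2 (qsf 536870912 536870912 1073741824 536870912 0) ndF2q1 ndF7q2 pcF0 Cut.none Ext.none)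

def k0_pm_102 : ∃ t, chk3 f_pm_102 t 1 1 1 = true :=
  ⟨(l 4), by decide +kernel⟩

theorem c_pm_102 : CertFX 536870912 536870912 1073741824 536870912 1046898278 26843546 false true false .npp 1 0 2
    ndF2q1 ndF7q2 pcF0 Cut.none Ext.none :=
  certFX0 (fam := false) (s1 := true) (s2 := false) (a := 1) (b := 0) (c := 2) (cn := .npp) (n1 := ndF2q1) (n2 := ndF7q2) (pc := pcF0) (cut := Cut.none) (xt := Ext.none) (P1 := 536870912) (W1 := 536870912) (P2 := 1073741824) (W2 := 536870912) (P3 := 1046898278) (W3 := 26843546)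
    rfl k0_pm_102

noncomputable def f_pm_112 : ℕ → ℕ → ℕ → ℕ → Bool := onCell 536870912 536870912 1073741824 536870912 1046898278 26843546
    (rowFX 0 false true false .dn 1 1 2 (qsf 536870912 536870912 1073741824 536870912 1) ndF2q1 ndF7q2 pcF1 Cut.none Ext.none)

def k0_pm_112 : ∃ t, chk3 f_pm_112 t 1 1 1 = true :=
  ⟨(l 4), by decide +kernel⟩

theorem c_pm_112 : CertFX 536870912 536870912 1073741824 536870912 1046898278 26843546 false true false .dn 1 1 2
    ndF2q1 ndF7q2 pcF1 Cut.none Ext.none :=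
  certFX0 (fam := false) (s1 := true) (s2 := false) (a := 1) (b := 1) (c := 2) (cn := .dn) (n1 := ndF2q1) (n2 := ndF7q2) (pc := pcF1) (cut := Cut.none) (xt := Ext.none) (P1 := 536870912) (W1 := 536870912) (P2 := 1073741824) (W2 := 536870912) (P3 := 1046898278) (W3 := 26843546)
    rfl k0_pm_112

noncomputable def f_pm_113 : ℕ → ℕ → ℕ → ℕ → Bool := onCell 536870912 536870912 0 1230186008 1046898278 26843546
    (rowFX 0 false true false .nn 1 1 3 (qsf 536870912 536870912 0 1230186008 1) ndF2q1 ndF7q3 pcF1 Cut.none Ext.none)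

def k0_pm_113 : ∃ t, chk3 f_pm_113 t 1 1 1 = true :=
  ⟨(b (a (l 2) (a (l 2) (b (a (l 2) (a (l 2) (b (l 16172408) (b (l 15459648) (l 14979712))))) (b (a (b (l 2) (c (l 13361904) (l 13241784))) (b (a (l 13880552) (l 14612128)) (b (a (c (l 13768632) (a (l 13468280) (a (l 13585112) (l 13716520)))) (b (l 14472320) (c (a (l 14274464) (l 14928240)) (a (l 14019552) (l 14480112))))) (a (l 4) (a (c (l 14215728) (l 13937136)) (c (b (a (l 14850400) (l 14924288)) (l 14768120)) (l 14513792))))))) (b (a (l 4) (a (l 4) (a (l 4) (c (l 14674536) (l 14292080))))) (l 4)))))) (l 4)), by decide +kernel⟩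

theorem c_pm_113 : CertFX 536870912 536870912 0 1230186008 1046898278 26843546 false true false .nn 1 1 3
    ndF2q1 ndF7q3 pcF1 Cut.none Ext.none :=
  certFX0 (fam := false) (s1 := true) (s2 := false) (a := 1) (b := 1) (c := 3) (cn := .nn) (n1 := ndF2q1) (n2 := ndF7q3) (pc := pcF1) (cut := Cut.none) (xt := Ext.none) (P1 := 536870912) (W1 := 536870912) (P2 := 0) (W2 := 1230186008) (P3 := 1046898278) (W3 := 26843546)
    rfl k0_pm_113

noncomputable def f_pm_123 : ℕ → ℕ → ℕ → ℕ → Bool := onCell 1073741824 536870912 0 1230186008 1046898278 26843546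
    (rowFX 2 false true false .npn 1 2 3 (qsf 536870912 536870912 0 1230186008 2) ndF2q1 ndF7q3 pcF2 Cut.none Ext.none)

def k0_pm_123 : ∃ t, chk3 f_pm_123 t 1 1 1 = true :=
  ⟨(b (a (a (b (a (b (a (l 15579528) (l 15495168)) (c (l 14906960) (l 14623040))) (b (a (l 15420200) (l 15250888)) (a (l 14874592) (l 14931672)))) (b (a (c (a (l 14066120) (l 14261872)) (a (l 13965480) (l 14210336))) (a (b (l 14526064) (l 4)) (l 14796616))) (l 4))) (b (a (b (a (l 15259608) (l 15696168)) (a (l 15163664) (l 15520888))) (b (l 16000064) (a (l 15810144) (l 16054016)))) (l 4))) (b (a (a (b (l 16481232) (a (l 16282624) (l 4))) (b (l 16709464) (l 4))) (c (l 16690704) (l 16691944))) (l 4))) (l 4)), by decide +kernel⟩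

theorem c_pm_123 : CertFX 536870912 536870912 0 1230186008 1046898278 26843546 false true false .npn 1 2 3
    ndF2q1 ndF7q3 pcF2 Cut.none Ext.none :=
  certFX2 (fam := false) (s1 := true) (s2 := false) (a := 1) (b := 2) (c := 3) (cn := .npn) (n1 := ndF2q1) (n2 := ndF7q3) (pc := pcF2) (cut := Cut.none) (xt := Ext.none) (P1 := 536870912) (W1 := 536870912) (P2 := 0) (W2 := 1230186008) (P3 := 1046898278) (W3 := 26843546)
    rfl (fun _ => rfl) k0_pm_123

noncomputable def f_pm_133 : ℕ → ℕ → ℕ → ℕ → Bool := onCell 1610612736 536870912 0 1230186008 1046898278 26843546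
    (rowFX 2 false true false .dn 1 3 3 (qsf 536870912 536870912 0 1230186008 3) ndF2q1 ndF7q3 pcF3 Cut.none Ext.none)

def k0_pm_133 : ∃ t, chk3 f_pm_133 t 1 1 1 = true :=
  ⟨(b (a (b (l 4) (l 1)) (l 1)) (l 1)), by decide +kernel⟩

theorem c_pm_133 : CertFX 536870912 536870912 0 1230186008 1046898278 26843546 false true false .dn 1 3 3
    ndF2q1 ndF7q3 pcF3 Cut.none Ext.none :=
  certFX2 (fam := false) (s1 := true) (s2 := false) (a := 1) (b := 3) (c := 3) (cn := .dn) (n1 := ndF2q1) (n2 := ndF7q3) (pc := pcF3) (cut := Cut.none) (xt := Ext.none) (P1 := 536870912) (W1 := 536870912) (P2 := 0) (W2 := 1230186008) (P3 := 1046898278) (W3 := 26843546)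
    rfl (fun _ => rfl) k0_pm_133

noncomputable def f_pm_202_a : ℕ → ℕ → ℕ → ℕ → Bool := onCell 0 420477299 0 536870912 1046898278 26843546
    (rowFX 1 false true false .pp 2 0 2 (qsf 0 420477299 1073741824 536870912 0) ndF2q2a ndF7q2 pcF0 Cut.none Ext.none)

def k0_pm_202_a : ∃ t, chk3 f_pm_202_a t 1 1 1 = true :=
  ⟨(b (b (b (a (a (b (b (c (b (l 15480032) (c (l 15580192) (l 15564824))) (b (c (l 15328824) (c (l 15316136) (l 15412520))) (c (l 15549216) (l 15533208)))) (c (b (l 15659232) (l 15738880)) (l 15670496))) (c (l 15866336) (l 15906016))) (a (b (l 4) (c (l 15745840) (l 15783448))) (l 4))) (l 4)) (a (b (a (c (l 16208264) (l 16193424)) (c (l 16019496) (l 15999808))) (a (l 16454512) (c (l 16283728) (l 16270864)))) (a (b (l 4) (c (l 15889032) (l 15802680))) (l 4)))) (a (b (a (b (l 16684152) (l 16700768)) (b (c (l 16527096) (l 16520528)) (l 16628072))) (a (b (l 16707936) (l 16702440)) (c (l 16755968) (l 16755672)))) (b (a (b (c (l 16143040) (l 16126048)) (c (l 16377992) (l 157000362343)))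 (l 4)) (a (b (c (l 16551896) (l 16545792)) (l 16608456)) (a (b (l 16011704) (l 16298320)) (l 4)))))) (b (b (a (a (l 16702392) (c (l 16753016) (l 16752392))) (a (c (l 16611360) (l 16607056)) (c (l 16146984) (a (l 16389104) (l 16271664))))) (a (a (l 16702392) (l 16752704)) (a (c (l 16611360) (l 16607056)) (c (l 16362384) (l 16351600))))) (a (l 2) (a (b (b (l 16609208) (l 2)) (l 2)) (c (b (l 16341408) (l 16362384)) (b (l 16330632) (l 16351600))))))), by decide +kernel⟩

theorem c_pm_202_a : CertFX 0 420477299 1073741824 536870912 1046898278 26843546 false true false .pp 2 0 2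
    ndF2q2a ndF7q2 pcF0 Cut.none Ext.none :=
  certFX1 (fam := false) (s1 := true) (s2 := false) (a := 2) (b := 0) (c := 2) (cn := .pp) (n1 := ndF2q2a) (n2 := ndF7q2) (pc := pcF0) (cut := Cut.none) (xt := Ext.none) (P1 := 0) (W1 := 420477299) (P2 := 1073741824) (W2 := 536870912) (P3 := 1046898278) (W3 := 26843546)
    rfl (fun _ => rfl) k0_pm_202_a

noncomputable def f_pm_202_b : ℕ → ℕ → ℕ → ℕ → Bool := onCell 1239849684 370763052 0 536870912 1046898278 26843546
    (rowFX 1 false true false .pp 2 0 2 (qsf 1239849684 370763052 1073741824 536870912 0) ndF2q2b ndF7q2 pcF0 Cut.none Ext.none)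

def k0_pm_202_b : ∃ t, chk3 f_pm_202_b t 1 1 1 = true :=
  ⟨(b (b (b (a (b (a (b (c (b (l 15736048) (a (c (l 15831808) (l 15820464)) (l 16178376))) (c (b (a (l 15663080) (l 16117592)) (l 15817248)) (b (b (a (l 15523848) (l 16090584)) (l 15790976)) (l 15994544)))) (c (a (l 15690752) (l 16302880)) (a (l 15917392) (l 16286216)))) (b (c (b (l 16661888) (a (l 16556688) (l 16448512))) (a (c (l 16292200) (l 16414488)) (a (l 16554480) (l 16378384)))) (c (a (l 16647248) (l 16397248)) (l 16572608)))) (a (c (a (l 15922672) (l 16486592)) (a (l 16134760) (l 16476480))) (c (a (l 16591464) (l 16381344)) (l 16499552)))) (b (a (c (b (l 16205512) (l 16194432)) (b (b (l 16197280) (l 16192144)) (l 16201088))) (b (c (b (l 15958000) (l 15970824)) (b (c (l 15884392) (l 15940280)) (l 15884728))) (c (l 15774520) (l 15972576)))) (a (a (l 16279640) (c (l 16073280) (l 16177032))) (c (l 15997104) (l 16016680))))) (a (a (b (a (c (l 16405232) (l 16395552)) (c (l 16698936) (l 16698080))) (a (c (l 16630688) (l 16626928))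 (l 16632832))) (b (c (l 16473280) (l 16465368)) (a (l 16533384) (l 16474832)))) (a (b (c (l 16314952) (l 16302728)) (l 16393040)) (b (l 16038712) (l 2))))) (a (b (a (a (c (l 16703608) (b (l 16715056) (l 16666824))) (b (l 16609704) (l 16654896))) (c (l 16548424) (l 16585512))) (a (c (b (l 16722840) (l 16753432)) (b (l 16721360) (l 16752816))) (b (l 16714592) (l 16777112)))) (b (a (l 16401328) (l 2)) (l 2)))) (b (a (b (a (c (l 16753368) (l 16752752)) (a (l 16777216) (l 2))) (a (a (b (l 16733000) (l 16733000)) (l 2)) (l 2))) (l 2)) (l 2))), by decide +kernel⟩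

theorem c_pm_202_b : CertFX 1239849684 370763052 1073741824 536870912 1046898278 26843546 false true false .pp 2 0 2
    ndF2q2b ndF7q2 pcF0 Cut.none Ext.none :=
  certFX1 (fam := false) (s1 := true) (s2 := false) (a := 2) (b := 0) (c := 2) (cn := .pp) (n1 := ndF2q2b) (n2 := ndF7q2) (pc := pcF0) (cut := Cut.none) (xt := Ext.none) (P1 := 1239849684) (W1 := 370763052) (P2 := 1073741824) (W2 := 536870912) (P3 := 1046898278) (W3 := 26843546)
    rfl (fun _ => rfl) k0_pm_202_b

noncomputable def f_pm_203_a : ℕ → ℕ → ℕ → ℕ → Bool := onCell 0 420477299 0 1230186008 1046898278 26843546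
    (rowFX 0 false true false .up 2 0 3 (qsf 0 420477299 0 1230186008 0) ndF2q2a ndF7q3 pcF0 Cut.none Ext.none)

def k0_pm_203_a : ∃ t, chk3 f_pm_203_a t 1 1 1 = true :=
  ⟨(b (l 2) (b (l 2) (b (b (l 2) (a (c (l 16735888) (l 16734816)) (a (l 16546296) (l 2)))) (a (b (b (l 16703896) (a (l 16702392) (l 16752704))) (b (c (l 16735888) (l 16734816)) (l 16735352))) (b (a (c (l 16611360) (l 16607056)) (c (l 16362384) (l 16351600))) (a (b (l 16609208) (l 16609208)) (b (l 16356992) (l 16356992)))))))), by decide +kernel⟩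

theorem c_pm_203_a : CertFX 0 420477299 0 1230186008 1046898278 26843546 false true false .up 2 0 3
    ndF2q2a ndF7q3 pcF0 Cut.none Ext.none :=
  certFX0 (fam := false) (s1 := true) (s2 := false) (a := 2) (b := 0) (c := 3) (cn := .up) (n1 := ndF2q2a) (n2 := ndF7q3) (pc := pcF0) (cut := Cut.none) (xt := Ext.none) (P1 := 0) (W1 := 420477299) (P2 := 0) (W2 := 1230186008) (P3 := 1046898278) (W3 := 26843546)
    rfl k0_pm_203_a

noncomputable def f_pm_203_b : ℕ → ℕ → ℕ → ℕ → Bool := onCell 0 536870912 0 1230186008 1046898278 26843546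
    (rowFX 2 false true false .up 2 0 3 (qsf 1239849684 370763052 0 1230186008 0) ndF2q2b ndF7q3 pcF0 Cut.none Ext.none)

def k0_pm_203_b : ∃ t, chk3 f_pm_203_b t 1 1 1 = true :=
  ⟨(a (b (l 2) (a (b (l 2) (b (l 2) (a (b (l 2) (a (c (a (l 15571032) (l 15771000)) (a (l 15699968) (l 15782504))) (l 15835792))) (a (b (l 15969608) (l 16124312)) (l 16159400))))) (b (b (l 2) (a (l 2) (a (l 2) (c (l 1312213394455) (l 1228461534583))))) (a (b (b (c (l 1107664375079) (l 1080820647623)) (c (l 16352024) (l 16338736))) (b (l 16421120) (l 16499656))) (b (b (a (l 16628984) (l 16777032)) (a (l 16665264) (l 16777056))) (b (a (l 16677592) (l 16777072)) (l 16739704))))))) (b (l 3) (b (a (a (b (l 2) (c (b (l 1375027068935) (l 16777216)) (b (l 1275705950199) (l 16777216)))) (b (b (l 3) (c (l 367924346887) (l 336248963079))) (b (c (c (l 16777216) (l 16777216)) (c (l 16777216) (l 16777216))) (l 16777216)))) (b (a (c (c (l 381346119687) (l 365776863239)) (c (l 349133864967) (l 331953995783))) (b (a (l 3)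 (b (l 3) (l 317458481159))) (c (b (l 16777216) (l 16777216)) (b (l 16777216) (l 16777216))))) (b (c (a (l 16777216) (l 16777216)) (a (l 16777216) (b (l 16777216) (l 16777216)))) (l 16777216)))) (b (c (a (b (l 16777216) (l 16777216)) (b (l 16774528) (l 16756904))) (a (b (l 16777216) (l 16777216)) (b (l 16774456) (l 16756376)))) (a (b (c (l 16775728) (l 16775696)) (a (l 16773648) (b (l 16759496) (l 16752600)))) (b (a (c (l 16752032) (l 16751376)) (b (l 16758600) (l 16661072))) (a (b (c (l 16753464) (l 16752848)) (b (l 16677032) (l 1))) (l 1)))))))), by decide +kernel⟩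

theorem c_pm_203_b : CertFX 1239849684 370763052 0 1230186008 1046898278 26843546 false true false .up 2 0 3
    ndF2q2b ndF7q3 pcF0 Cut.none Ext.none :=
  certFX2 (fam := false) (s1 := true) (s2 := false) (a := 2) (b := 0) (c := 3) (cn := .up) (n1 := ndF2q2b) (n2 := ndF7q3) (pc := pcF0) (cut := Cut.none) (xt := Ext.none) (P1 := 1239849684) (W1 := 370763052) (P2 := 0) (W2 := 1230186008) (P3 := 1046898278) (W3 := 26843546)
    rfl (fun _ => rfl) k0_pm_203_b

noncomputable def f_pm_213_a : ℕ → ℕ → ℕ → ℕ → Bool := onCell 0 420477299 0 1230186008 1046898278 26843546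
    (rowFX 0 false true false .pnn 2 1 3 (qsf 0 420477299 0 1230186008 1) ndF2q2a ndF7q3 pcF1 Cut.none Ext.none)

def k0_pm_213_a : ∃ t, chk3 f_pm_213_a t 1 4 1 = true :=
  ⟨(a (l 3) (a (b (l 3) (b (l 3) (a (c (l 319605550791) (l 338932852551)) (a (b (l 3) (c (l 16490960) (l 241759052423))) (b (c (l 259475913015) (l 280413774311)) (c (l 16483376) (l 16475816))))))) (b (b (l 3) (a (l 3) (b (l 3) (a (l 3) (c (l 261623584375) (b (l 3) (l 277192793847))))))) (b (a (b (l 3) (c (a (l 294372495447) (l 227800481031)) (a (l 308867953831) (l 232095433495)))) (c (b (a (l 255180991031) (b (l 143511915527) (l 16589816))) (a (l 16546344) (l 16564120))) (b (a (l 259475946695) (b (l 110762780967) (l 16584840))) (a (l 16540272) (l 16558864))))) (a (c (b (a (l 114520642807) (l 16498360)) (a (l 16459224) (l 16471800))) (b (a (l 117204966535) (l 16491272)) (l 16459520))) (a (c (l 16500184) (l 16495120)) (c (l 16503448) (l 16489208)))))))), by decide +kernel⟩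

def k1_pm_213_a : ∃ t, chk3 f_pm_213_a t 1 5 1 = true :=
  ⟨(a (c (b (a (b (l 3) (b (l 560123985703) (a (l 542407253095) (l 283635439671)))) (b (a (l 495699462615) (b (l 338396247431) (l 262160629575))) (a (b (l 16722960) (l 16724008)) (l 16746144)))) (a (b (b (a (l 280414251079) (l 16700048)) (l 16703352)) (b (l 16703352) (l 16703352))) (b (a (l 16723152) (l 16768704)) (a (l 16722096) (l 16771256))))) (b (a (b (l 3) (b (l 556365885479) (a (l 533280443959) (l 293299116023)))) (b (a (l 518784888967) (b (l 368997889095) (l 246054501399))) (a (b (l 16700584) (l 16722632)) (b (l 16767792) (l 16766496))))) (a (b (b (a (l 284172336039) (l 16698040)) (l 16701432)) (b (l 16701432) (l 16701432))) (b (a (l 16721744) (l 16768568)) (a (l 16720664) (l 16771104)))))) (b (a (b (a (c (b (l 224579394487) (l 16670448)) (b (l 246054218647) (l 16668744))) (b (c (a (l 16551392) (l 16480296)) (a (l 16545888) (l 16473696))) (c (l 16533456) (l 16532376)))) (c (a (l 16671008) (l 16532520)) (a (l 16669704)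 (l 16529192)))) (b (a (b (c (a (l 16436704) (l 16440968)) (a (l 16430576) (l 16440592))) (c (a (l 16418304) (l 16397360)) (a (l 16415488) (l 16385640)))) (c (b (l 16429104) (l 16370040)) (b (l 16404952) (l 16339424)))) (a (b (c (a (l 16406672) (l 16364848)) (a (l 16401936) (l 16356680))) (c (a (l 16408376) (l 16355776)) (l 16377912))) (b (c (a (l 16340472) (l 16309560)) (a (l 16322296) (l 16277944))) (a (c (l 16314888) (l 16305384)) (l 16266768)))))) (a (b (b (a (l 16650864) (b (l 16532856) (l 16534472))) (c (a (l 16674776) (l 16539272)) (l 16499368))) (b (a (l 16675720) (l 16539672)) (l 16608936))) (a (b (b (c (l 16387512) (l 16381848)) (l 16388880)) (l 16392872)) (b (b (c (l 16285992) (l 16276472)) (l 16281592)) (l 16285608)))))), by decide +kernel⟩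

def k2_pm_213_a : ∃ t, chk3 f_pm_213_a t 1 3 1 = true :=
  ⟨(b (a (b (b (a (c (l 16703352) (l 16701432)) (c (l 16753016) (l 16752392))) (a (l 16702392) (l 16752704))) (b (a (l 16702392) (l 16752704)) (a (l 16702392) (l 16752704)))) (b (a (b (l 16609208) (l 16609208)) (b (a (l 16394160) (l 16286560)) (c (l 16362480) (l 16351752)))) (a (b (l 16609208) (l 16609208)) (b (a (l 16394016) (l 16285176)) (l 16356992))))) (b (a (b (a (l 16702392) (l 16710760)) (c (l 16735888) (l 16734816))) (a (b (l 16609208) (l 16588232)) (b (l 16356992) (c (l 16362384) (l 16351600))))) (a (b (l 1) (l 1)) (b (a (c (l 16611360) (l 16607056)) (c (l 16362384) (l 16351600))) (a (l 1) (b (l 16356992) (l 1))))))), by decide +kernel⟩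

theorem s3_pm_213_a : ∃ t, chk3 f_pm_213_a t 1 2 1 = true := ex3_b k0_pm_213_a k1_pm_213_a

theorem s4_pm_213_a : ∃ t, chk3 f_pm_213_a t 1 1 1 = true := ex3_b s3_pm_213_a k2_pm_213_a

theorem c_pm_213_a : CertFX 0 420477299 0 1230186008 1046898278 26843546 false true false .pnn 2 1 3
    ndF2q2a ndF7q3 pcF1 Cut.none Ext.none :=
  certFX0 (fam := false) (s1 := true) (s2 := false) (a := 2) (b := 1) (c := 3) (cn := .pnn) (n1 := ndF2q2a) (n2 := ndF7q3) (pc := pcF1) (cut := Cut.none) (xt := Ext.none) (P1 := 0) (W1 := 420477299) (P2 := 0) (W2 := 1230186008) (P3 := 1046898278) (W3 := 26843546)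
    rfl s4_pm_213_a

noncomputable def f_pm_213_b : ℕ → ℕ → ℕ → ℕ → Bool := onCell 1239849684 370763052 0 1230186008 1046898278 26843546
    (rowFX 0 false true false .pnn 2 1 3 (qsf 1239849684 370763052 0 1230186008 1) ndF2q2b ndF7q3 pcF1 Cut.none Ext.none)

def k0_pm_213_b : ∃ t, chk3 f_pm_213_b t 1 1 1 = true :=
  ⟨(b (b (l 3) (a (b (l 3) (a (b (a (a (c (b (l 362555500295) (l 16721912)) (b (l 368997950999) (l 16720480))) (b (l 3) (c (l 16744864) (l 16744024)))) (a (c (l 404968418263) (l 411410847671)) (l 3))) (c (a (b (l 16733568) (l 16733568)) (b (c (l 16771952) (l 16771880)) (l 16771920))) (a (b (l 16732432) (l 16732432)) (b (a (l 16766160) (l 16777208)) (l 16771776))))) (b (l 3) (a (c (b (l 416779599879) (l 16777216)) (b (l 402284085255) (l 16777216))) (c (b (l 3) (l 425369534471)) (l 399062859783)))))) (l 3))) (b (a (a (b (a (b (c (b (l 16733568) (l 16733568)) (b (l 16732432) (l 16732432))) (b (c (l 16733568) (l 16732432)) (l 16733000))) (b (c (l 16771920) (b (l 16771776) (l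 16771776))) (c (b (l 16771920) (l 16771920)) (b (l 16771776) (l 16771776))))) (c (l 16711424) (b (l 16752752) (l 16752752)))) (b (c (b (a (b (l 16777216) (l 16777216)) (b (l 178408914951) (l 16777216))) (a (b (l 16777216) (l 16777216)) (b (l 16777216) (l 16777216)))) (b (a (b (l 16777216) (l 16777216)) (b (l 16777216) (l 16777216))) (a (b (l 16777216) (l 16777216)) (b (l 16777216) (l 16777216))))) (b (a (l 16777216) (b (c (l 16777216) (l 16777216)) (l 16777216))) (l 16777216)))) (a (b (b (b (c (l 417316470791) (l 367924346887)) (c (a (l 16777216) (l 16777216)) (a (l 16777216) (l 16777216)))) (a (c (b (l 16777216) (l 16777216)) (b (l 16777216) (l 16777216))) (l 1))) (l 1)) (l 1))) (a (b (a (b (c (l 16753368) (l 16752752)) (l 16753056)) (l 1)) (l 1)) (l 1)))), by decide +kernel⟩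

theorem c_pm_213_b : CertFX 1239849684 370763052 0 1230186008 1046898278 26843546 false true false .pnn 2 1 3
    ndF2q2b ndF7q3 pcF1 Cut.none Ext.none :=
  certFX0 (fam := false) (s1 := true) (s2 := false) (a := 2) (b := 1) (c := 3) (cn := .pnn) (n1 := ndF2q2b) (n2 := ndF7q3) (pc := pcF1) (cut := Cut.none) (xt := Ext.none) (P1 := 1239849684) (W1 := 370763052) (P2 := 0) (W2 := 1230186008) (P3 := 1046898278) (W3 := 26843546)
    rfl k0_pm_213_b

noncomputable def f_pm_303 : ℕ → ℕ → ℕ → ℕ → Bool := onCell 0 536870912 0 1230186008 1046898278 26843546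
    (rowFX 2 false true false .npn 3 0 3 (qsf 1610612736 469762048 0 1230186008 0) ndF2q3 ndF7q3 pcF0 Cut.none Ext.none)

def k0_pm_303 : ∃ t, chk3 f_pm_303 t 1 2 1 = true :=
  ⟨(a (l 3) (l 3)), by decide +kernel⟩

def k1_pm_303 : ∃ t, chk3 f_pm_303 t 1 6 1 = true :=
  ⟨(a (b (l 3) (a (b (l 3) (a (a (b (l 3) (a (c (c (l 344834379543) (a (l 14773712) (l 14721984))) (a (c (l 333560049591) (a (l 326580657911) (l 14751072))) (c (l 14818032) (l 14812400)))) (c (c (l 14946048) (l 14946152)) (c (l 14948288) (l 14934720))))) (a (c (c (l 15109608) (l 14970768)) (l 334097622791)) (c (c (l 349667253191) (l 15282536)) (l 331413573751)))) (c (a (a (l 344298843367) (l 15624776)) (b (l 15829544) (l 15869240))) (a (b (l 336245819031) (l 15391432)) (b (l 330340935143) (l 15845656)))))) (a (b (c (l 370607018279) (a (l 352890185159) (l 346448272775))) (c (a (l 16107160) (l 16365672)) (a (b (l 16072720) (l 16096568)) (l 16313040)))) (a (c (b (l 360407655959) (l 16625120)) (b (l 340543431879) (l 16579224)))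 (c (b (a (l 351817939671) (l 16777216)) (l 16772984)) (b (a (l 334101201319) (l 16777216)) (l 16772872))))))) (a (a (b (l 3) (c (b (l 336248963079) (l 16777216)) (b (c (l 16777216) (l 16777216)) (l 16777216)))) (b (b (l 3) (c (l 365776863239) (l 344838897671))) (a (b (c (l 16777216) (l 16777216)) (l 1)) (l 1)))) (a (b (b (l 3) (l 1)) (l 1)) (l 1)))), by decide +kernel⟩

def k2_pm_303 : ∃ t, chk3 f_pm_303 t 1 7 1 = true :=
  ⟨(a (b (a (a (a (a (c (b (a (b (l 14826912) (l 15016704)) (c (b (l 14966992) (l 15099064)) (b (l 14922832) (l 15055448)))) (a (l 15143392) (a (l 15096096) (l 15027944)))) (b (a (b (c (l 14845912) (l 14801176)) (c (l 14993000) (a (l 14963520) (l 14984000)))) (b (l 14812184) (l 15025136))) (b (b (a (a (l 14981552) (l 15014440)) (l 15115664)) (l 15165104)) (l 15260000)))) (c (a (b (c (l 14825584) (l 14944360)) (l 15066208)) (b (l 14892464) (l 15266704))) (b (b (l 15008928) (l 15140032)) (l 15233720)))) (c (b (a (c (l 15214776) (l 15222576)) (c (l 15171064) (l 15351560)))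 (a (l 15409952) (l 15568992))) (b (b (a (l 15185240) (l 15278280)) (l 15209424)) (l 15234064)))) (a (c (b (b (l 15621352) (l 15630784)) (l 15650264)) (b (b (b (l 15577832) (l 15644032)) (l 15656648)) (l 15800424))) (b (c (b (l 15936720) (l 16011024)) (b (l 15914888) (l 15985672))) (c (l 16065968) (l 16018672))))) (a (b (c (a (l 16178896) (l 16409216)) (b (l 16273256) (l 16334520))) (c (l 16352024) (l 16338736))) (b (a (b (l 16647704) (l 16654504)) (l 16777032)) (l 1)))) (a (a (c (a (a (b (l 15471192) (l 15571032)) (l 15485224)) (l 15633440)) (a (a (b (a (l 15406816) (l 15463656)) (l 15699968)) (l 15665856)) (l 15820424))) (a (b (l 15969608) (l 16124312)) (l 16180376))) (a (b (l 16421120) (l 1)) (l 1)))) (l 1)), by decide +kernel⟩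

theorem s3_pm_303 : ∃ t, chk3 f_pm_303 t 1 3 1 = true := ex3_b k1_pm_303 k2_pm_303

theorem s4_pm_303 : ∃ t, chk3 f_pm_303 t 1 1 1 = true := ex3_b k0_pm_303 s3_pm_303

theorem c_pm_303 : CertFX 1610612736 469762048 0 1230186008 1046898278 26843546 false true false .npn 3 0 3
    ndF2q3 ndF7q3 pcF0 Cut.none Ext.none :=
  certFX2 (fam := false) (s1 := true) (s2 := false) (a := 3) (b := 0) (c := 3) (cn := .npn) (n1 := ndF2q3) (n2 := ndF7q3) (pc := pcF0) (cut := Cut.none) (xt := Ext.none) (P1 := 1610612736) (W1 := 469762048) (P2 := 0) (W2 := 1230186008) (P3 := 1046898278) (W3 := 26843546)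
    rfl (fun _ => rfl) s4_pm_303

noncomputable def f_pm_313 : ℕ → ℕ → ℕ → ℕ → Bool := onCell 1610612736 469762048 0 1230186008 1046898278 26843546
    (rowFX 0 false true false .dn 3 1 3 (qsf 1610612736 469762048 0 1230186008 1) ndF2q3 ndF7q3 pcF1 Cut.none Ext.none)

def k0_pm_313 : ∃ t, chk3 f_pm_313 t 1 1 1 = true :=
  ⟨(b (l 3) (l 1)), by decide +kernel⟩

theorem c_pm_313 : CertFX 1610612736 469762048 0 1230186008 1046898278 26843546 false true false .dn 3 1 3
    ndF2q3 ndF7q3 pcF1 Cut.none Ext.none :=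
  certFX0 (fam := false) (s1 := true) (s2 := false) (a := 3) (b := 1) (c := 3) (cn := .dn) (n1 := ndF2q3) (n2 := ndF7q3) (pc := pcF1) (cut := Cut.none) (xt := Ext.none) (P1 := 1610612736) (W1 := 469762048) (P2 := 0) (W2 := 1230186008) (P3 := 1046898278) (W3 := 26843546)
    rfl k0_pm_313

noncomputable def f_mm_001 : ℕ → ℕ → ℕ → ℕ → Bool := onCell 67108864 469762048 536870912 536870912 1046898278 26843546
    (rowFX 0 false false false .up 0 0 1 (qsf 67108864 469762048 536870912 536870912 0) ndF2q0 ndF7q1 pcF0 Cut.none Ext.none)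

def k0_mm_001 : ∃ t, chk3 f_mm_001 t 1 1 1 = true :=
  ⟨(l 3), by decide +kernel⟩

theorem c_mm_001 : CertFX 67108864 469762048 536870912 536870912 1046898278 26843546 false false false .up 0 0 1
    ndF2q0 ndF7q1 pcF0 Cut.none Ext.none :=
  certFX0 (fam := false) (s1 := false) (s2 := false) (a := 0) (b := 0) (c := 1) (cn := .up) (n1 := ndF2q0) (n2 := ndF7q1) (pc := pcF0) (cut := Cut.none) (xt := Ext.none) (P1 := 67108864) (W1 := 469762048) (P2 := 536870912) (W2 := 536870912) (P3 := 1046898278) (W3 := 26843546)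
    rfl k0_mm_001

noncomputable def f_mm_011 : ℕ → ℕ → ℕ → ℕ → Bool := onCell 67108864 469762048 536870912 536870912 1046898278 26843546
    (rowFX 0 false false false .pnn 0 1 1 (qsf 67108864 469762048 536870912 536870912 1) ndF2q0 ndF7q1 pcF1 Cut.none Ext.none)

def k0_mm_011 : ∃ t, chk3 f_mm_011 t 1 1 1 = true :=
  ⟨(l 3), by decide +kernel⟩

theorem c_mm_011 : CertFX 67108864 469762048 536870912 536870912 1046898278 26843546 false false false .pnn 0 1 1
    ndF2q0 ndF7q1 pcF1 Cut.none Ext.none :=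
  certFX0 (fam := false) (s1 := false) (s2 := false) (a := 0) (b := 1) (c := 1) (cn := .pnn) (n1 := ndF2q0) (n2 := ndF7q1) (pc := pcF1) (cut := Cut.none) (xt := Ext.none) (P1 := 67108864) (W1 := 469762048) (P2 := 536870912) (W2 := 536870912) (P3 := 1046898278) (W3 := 26843546)
    rfl k0_mm_011

noncomputable def f_mm_012 : ℕ → ℕ → ℕ → ℕ → Bool := onCell 67108864 469762048 1073741824 536870912 1046898278 26843546
    (rowFX 0 false false false .pnp 0 1 2 (qsf 67108864 469762048 1073741824 536870912 1) ndF2q0 ndF7q2 pcF1 Cut.none Ext.none)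

def k0_mm_012 : ∃ t, chk3 f_mm_012 t 1 1 1 = true :=
  ⟨(l 5), by decide +kernel⟩

theorem c_mm_012 : CertFX 67108864 469762048 1073741824 536870912 1046898278 26843546 false false false .pnp 0 1 2
    ndF2q0 ndF7q2 pcF1 Cut.none Ext.none :=
  certFX0 (fam := false) (s1 := false) (s2 := false) (a := 0) (b := 1) (c := 2) (cn := .pnp) (n1 := ndF2q0) (n2 := ndF7q2) (pc := pcF1) (cut := Cut.none) (xt := Ext.none) (P1 := 67108864) (W1 := 469762048) (P2 := 1073741824) (W2 := 536870912) (P3 := 1046898278) (W3 := 26843546)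
    rfl k0_mm_012

noncomputable def f_mm_022 : ℕ → ℕ → ℕ → ℕ → Bool := onCell 67108864 469762048 1073741824 536870912 1046898278 26843546
    (rowFX 0 false false false .pp 0 2 2 (qsf 67108864 469762048 1073741824 536870912 2) ndF2q0 ndF7q2 pcF2 Cut.none Ext.none)

def k0_mm_022 : ∃ t, chk3 f_mm_022 t 1 1 1 = true :=
  ⟨(l 5), by decide +kernel⟩

theorem c_mm_022 : CertFX 67108864 469762048 1073741824 536870912 1046898278 26843546 false false false .pp 0 2 2
    ndF2q0 ndF7q2 pcF2 Cut.none Ext.none :=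
  certFX0 (fam := false) (s1 := false) (s2 := false) (a := 0) (b := 2) (c := 2) (cn := .pp) (n1 := ndF2q0) (n2 := ndF7q2) (pc := pcF2) (cut := Cut.none) (xt := Ext.none) (P1 := 67108864) (W1 := 469762048) (P2 := 1073741824) (W2 := 536870912) (P3 := 1046898278) (W3 := 26843546)
    rfl k0_mm_022

noncomputable def f_mm_023 : ℕ → ℕ → ℕ → ℕ → Bool := onCell 67108864 469762048 0 1230186008 1046898278 26843546
    (rowFX 0 false false false .up 0 2 3 (qsf 67108864 469762048 0 1230186008 2) ndF2q0 ndF7q3 pcF2 Cut.none Ext.none)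

def k0_mm_023 : ∃ t, chk3 f_mm_023 t 1 1 1 = true :=
  ⟨(l 5), by decide +kernel⟩

theorem c_mm_023 : CertFX 67108864 469762048 0 1230186008 1046898278 26843546 false false false .up 0 2 3
    ndF2q0 ndF7q3 pcF2 Cut.none Ext.none :=
  certFX0 (fam := false) (s1 := false) (s2 := false) (a := 0) (b := 2) (c := 3) (cn := .up) (n1 := ndF2q0) (n2 := ndF7q3) (pc := pcF2) (cut := Cut.none) (xt := Ext.none) (P1 := 67108864) (W1 := 469762048) (P2 := 0) (W2 := 1230186008) (P3 := 1046898278) (W3 := 26843546)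
    rfl k0_mm_023

noncomputable def f_mm_033 : ℕ → ℕ → ℕ → ℕ → Bool := onCell 67108864 469762048 0 1230186008 1046898278 26843546
    (rowFX 0 false false false .pnn 0 3 3 (qsf 67108864 469762048 0 1230186008 3) ndF2q0 ndF7q3 pcF3 Cut.none Ext.none)

def k0_mm_033 : ∃ t, chk3 f_mm_033 t 1 1 1 = true :=
  ⟨(l 5), by decide +kernel⟩

theorem c_mm_033 : CertFX 67108864 469762048 0 1230186008 1046898278 26843546 false false false .pnn 0 3 3
    ndF2q0 ndF7q3 pcF3 Cut.none Ext.none :=
  certFX0 (fam := false) (s1 := false) (s2 := false) (a := 0) (b := 3) (c := 3) (cn := .pnn) (n1 := ndF2q0) (n2 := ndF7q3) (pc := pcF3) (cut := Cut.none) (xt := Ext.none) (P1 := 67108864) (W1 := 469762048) (P2 := 0) (W2 := 1230186008) (P3 := 1046898278) (W3 := 26843546)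
    rfl k0_mm_033

noncomputable def f_mm_101 : ℕ → ℕ → ℕ → ℕ → Bool := onCell 536870912 536870912 536870912 536870912 1046898278 26843546
    (rowFX 0 false false false .npn 1 0 1 (qsf 536870912 536870912 536870912 536870912 0) ndF2q1 ndF7q1 pcF0 Cut.none Ext.none)

def k0_mm_101 : ∃ t, chk3 f_mm_101 t 1 1 1 = true :=
  ⟨(l 3), by decide +kernel⟩

theorem c_mm_101 : CertFX 536870912 536870912 536870912 536870912 1046898278 26843546 false false false .npn 1 0 1
    ndF2q1 ndF7q1 pcF0 Cut.none Ext.none :=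
  certFX0 (fam := false) (s1 := false) (s2 := false) (a := 1) (b := 0) (c := 1) (cn := .npn) (n1 := ndF2q1) (n2 := ndF7q1) (pc := pcF0) (cut := Cut.none) (xt := Ext.none) (P1 := 536870912) (W1 := 536870912) (P2 := 536870912) (W2 := 536870912) (P3 := 1046898278) (W3 := 26843546)
    rfl k0_mm_101

noncomputable def f_mm_102 : ℕ → ℕ → ℕ → ℕ → Bool := onCell 536870912 536870912 1073741824 536870912 1046898278 26843546
    (rowFX 0 false false false .npp 1 0 2 (qsf 536870912 536870912 1073741824 536870912 0) ndF2q1 ndF7q2 pcF0 Cut.none Ext.none)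

def k0_mm_102 : ∃ t, chk3 f_mm_102 t 1 1 1 = true :=
  ⟨(l 3), by decide +kernel⟩

theorem c_mm_102 : CertFX 536870912 536870912 1073741824 536870912 1046898278 26843546 false false false .npp 1 0 2
    ndF2q1 ndF7q2 pcF0 Cut.none Ext.none :=
  certFX0 (fam := false) (s1 := false) (s2 := false) (a := 1) (b := 0) (c := 2) (cn := .npp) (n1 := ndF2q1) (n2 := ndF7q2) (pc := pcF0) (cut := Cut.none) (xt := Ext.none) (P1 := 536870912) (W1 := 536870912) (P2 := 1073741824) (W2 := 536870912) (P3 := 1046898278) (W3 := 26843546)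
    rfl k0_mm_102

noncomputable def f_mm_112 : ℕ → ℕ → ℕ → ℕ → Bool := onCell 536870912 536870912 1073741824 536870912 1046898278 26843546
    (rowFX 0 false false false .dn 1 1 2 (qsf 536870912 536870912 1073741824 536870912 1) ndF2q1 ndF7q2 pcF1 Cut.none Ext.none)

def k0_mm_112 : ∃ t, chk3 f_mm_112 t 1 1 1 = true :=
  ⟨(l 3), by decide +kernel⟩

theorem c_mm_112 : CertFX 536870912 536870912 1073741824 536870912 1046898278 26843546 false false false .dn 1 1 2
    ndF2q1 ndF7q2 pcF1 Cut.none Ext.none :=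
  certFX0 (fam := false) (s1 := false) (s2 := false) (a := 1) (b := 1) (c := 2) (cn := .dn) (n1 := ndF2q1) (n2 := ndF7q2) (pc := pcF1) (cut := Cut.none) (xt := Ext.none) (P1 := 536870912) (W1 := 536870912) (P2 := 1073741824) (W2 := 536870912) (P3 := 1046898278) (W3 := 26843546)
    rfl k0_mm_112

noncomputable def f_mm_113 : ℕ → ℕ → ℕ → ℕ → Bool := onCell 536870912 536870912 0 1230186008 1046898278 26843546
    (rowFX 0 false false false .nn 1 1 3 (qsf 536870912 536870912 0 1230186008 1) ndF2q1 ndF7q3 pcF1 Cut.none Ext.none)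

def k0_mm_113 : ∃ t, chk3 f_mm_113 t 1 1 1 = true :=
  ⟨(l 5), by decide +kernel⟩

theorem c_mm_113 : CertFX 536870912 536870912 0 1230186008 1046898278 26843546 false false false .nn 1 1 3
    ndF2q1 ndF7q3 pcF1 Cut.none Ext.none :=
  certFX0 (fam := false) (s1 := false) (s2 := false) (a := 1) (b := 1) (c := 3) (cn := .nn) (n1 := ndF2q1) (n2 := ndF7q3) (pc := pcF1) (cut := Cut.none) (xt := Ext.none) (P1 := 536870912) (W1 := 536870912) (P2 := 0) (W2 := 1230186008) (P3 := 1046898278) (W3 := 26843546)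
    rfl k0_mm_113

noncomputable def f_mm_123 : ℕ → ℕ → ℕ → ℕ → Bool := onCell 536870912 536870912 0 1230186008 1046898278 26843546
    (rowFX 0 false false false .npn 1 2 3 (qsf 536870912 536870912 0 1230186008 2) ndF2q1 ndF7q3 pcF2 Cut.none Ext.none)

def k0_mm_123 : ∃ t, chk3 f_mm_123 t 1 1 1 = true :=
  ⟨(l 5), by decide +kernel⟩

theorem c_mm_123 : CertFX 536870912 536870912 0 1230186008 1046898278 26843546 false false false .npn 1 2 3
    ndF2q1 ndF7q3 pcF2 Cut.none Ext.none :=
  certFX0 (fam := false) (s1 := false) (s2 := false) (a := 1) (b := 2) (c := 3) (cn := .npn) (n1 := ndF2q1) (n2 := ndF7q3) (pc := pcF2) (cut := Cut.none) (xt := Ext.none) (P1 := 536870912) (W1 := 536870912) (P2 := 0) (W2 := 1230186008) (P3 := 1046898278) (W3 := 26843546)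
    rfl k0_mm_123

noncomputable def f_mm_133 : ℕ → ℕ → ℕ → ℕ → Bool := onCell 536870912 536870912 0 1230186008 1046898278 26843546
    (rowFX 0 false false false .dn 1 3 3 (qsf 536870912 536870912 0 1230186008 3) ndF2q1 ndF7q3 pcF3 Cut.none Ext.none)

def k0_mm_133 : ∃ t, chk3 f_mm_133 t 1 1 1 = true :=
  ⟨(l 5), by decide +kernel⟩

theorem c_mm_133 : CertFX 536870912 536870912 0 1230186008 1046898278 26843546 false false false .dn 1 3 3
    ndF2q1 ndF7q3 pcF3 Cut.none Ext.none :=
  certFX0 (fam := false) (s1 := false) (s2 := false) (a := 1) (b := 3) (c := 3) (cn := .dn) (n1 := ndF2q1) (n2 := ndF7q3) (pc := pcF3) (cut := Cut.none) (xt := Ext.none) (P1 := 536870912) (W1 := 536870912) (P2 := 0) (W2 := 1230186008) (P3 := 1046898278) (W3 := 26843546)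
    rfl k0_mm_133

noncomputable def f_mm_202_a : ℕ → ℕ → ℕ → ℕ → Bool := onCell 0 420477299 0 536870912 1046898278 26843546
    (rowFX 1 false false false .pp 2 0 2 (qsf 0 420477299 1073741824 536870912 0) ndF2q2a ndF7q2 pcF0 Cut.none Ext.none)

def k0_mm_202_a : ∃ t, chk3 f_mm_202_a t 4 4 1 = true :=
  ⟨(b (b (b (c (b (c (l 16479848) (c (l 16494096) (b (l 16498360) (l 16498408)))) (c (b (a (l 16479112) (l 16469600)) (l 16430056)) (b (l 16390432) (l 16384448)))) (b (c (b (l 16489104) (b (a (l 16500976) (l 16487632)) (l 16286440))) (b (b (c (l 16477032) (a (c (l 16477016) (l 16475680)) (l 16482744))) (c (l 16470776) (l 16492352))) (c (l 16479816) (l 16493176)))) (c (b (l 16326232) (l 16402496)) (l 16448832)))) (c (b (c (b (l 16330848) (c (l 16198352) (l 16290248))) (b (l 16342576) (l 16333760))) (c (a (l 16276632) (l 16272024)) (l 16330712))) (c (a (l 16388968) (l 16355240)) (l 16400448)))) (c (b (c (a (l 16304344) (l 16123248)) (a (l 16257976) (b (l 16324664) (l 16255384)))) (b (c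 (c (l 16289520) (l 16258464)) (l 16204488)) (b (a (l 16308984) (c (l 16307416) (l 16330400))) (a (l 16249184) (l 16179456))))) (b (b (l 16256128) (a (l 16347200) (l 16330744))) (a (c (l 16335056) (l 16328104)) (b (l 16346176) (l 16320728)))))) (a (b (c (b (b (l 16338000) (l 16340376)) (l 16380184)) (b (a (l 16313608) (l 16301408)) (l 16373328))) (b (c (l 16386592) (l 16379312)) (a (l 16362688) (c (l 16361536) (l 16352976))))) (b (c (b (b (l 16330760) (l 16339720)) (l 16362312)) (b (b (l 16323032) (l 16332168)) (l 16354960))) (c (b (b (l 16344744) (l 16383360)) (b (l 16371832) (l 16361216))) (b (b (l 16379656) (l 16375952)) (b (l 16363800) (l 16352584))))))), by decide +kernel⟩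

def k1_mm_202_a : ∃ t, chk3 f_mm_202_a t 5 8 1 = true :=
  ⟨(b (b (c (b (b (l 16465504) (a (l 16471616) (c (l 16431192) (l 16477352)))) (c (c (b (a (l 16471072) (l 16460504)) (a (l 16406640) (l 16401912))) (a (l 16435400) (b (a (l 16465680) (l 16460520)) (l 16398648)))) (b (a (l 16442912) (c (b (l 16471992) (a (l 16436560) (l 16435248))) (l 16429424))) (a (l 16371936) (c (a (l 16348976) (l 16353000)) (l 16311024)))))) (b (c (b (l 16494488) (a (l 16261000) (b (l 16480496) (l 16460616)))) (b (a (b (l 16409360) (l 16418288)) (b (a (l 16507344) (l 16507520)) (l 16414224))) (c (l 16464360) (l 16478312)))) (c (a (l 16409656) (l 16406096)) (l 16438184)))) (c (b (c (b (a (c (l 16326728) (l 16227248)) (c (l 16348232) (l 16331584))) (a (l 16160504) (l 16307112))) (a (l 16258408) (l 16235560))) (c (a (l 16291184) (l 16302856)) (a (l 16334176) (l 16308232)))) (a (c (l 16257976) (l 16381512)) (c (b (l 16351520) (l 16270632)) (l 16302120))))) (a (b (b (c (c (l 16308192) (l 16277560)) (l 16218336))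 (c (a (c (l 16328656) (l 16353704)) (l 16327040)) (a (l 16347864) (l 16335216)))) (c (c (b (b (l 16320264) (l 16322896)) (b (l 16323288) (l 16321672))) (b (l 16328080) (l 16325512))) (b (l 16322504) (l 16320200)))) (c (b (c (b (l 16212536) (b (l 16307824) (l 16311144))) (b (b (l 16351352) (l 16235944)) (b (l 16247408) (l 16332768)))) (c (b (a (l 16312928) (l 16306264)) (b (l 16308056) (l 16279096))) (b (l 16338992) (l 16300752)))) (b (b (b (l 16273896) (l 16324712)) (l 16332824)) (b (l 16333376) (l 16294672)))))), by decide +kernel⟩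

def k2_mm_202_a : ∃ t, chk3 f_mm_202_a t 5 9 1 = true :=
  ⟨(c (b (b (a (b (l 16323544) (a (l 16338808) (l 16333408))) (b (c (l 16262512) (l 16300024)) (a (l 16328072) (l 16312848)))) (a (b (a (l 16356048) (l 16349096)) (l 16365704)) (b (l 16325064) (l 16329624)))) (b (a (b (l 16372376) (l 16363288)) (b (l 16338400) (l 16351184))) (a (l 325510653559) (l 392082670551)))) (b (b (a (b (l 16315448) (a (l 16331120) (l 16325408))) (b (a (l 16305328) (l 16301624)) (a (l 16319752) (l 16304000)))) (a (b (a (l 16348576) (l 16341312)) (l 16358232)) (b (l 16316440) (l 16320904)))) (b (a (b (l 16364872) (l 16355248)) (b (l 16329640) (l 16342472))) (a (b (l 16355128) (l 16358840)) (l 404430662967))))), by decide +kernel⟩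

def k3_mm_202_a : ∃ t, chk3 f_mm_202_a t 2 5 1 = true :=
  ⟨(b (b (b (a (c (a (l 16346136) (l 16358480)) (a (b (l 16340408) (l 16334872)) (l 16349344))) (a (c (l 375439705031) (l 417852459559)) (l 3))) (a (c (a (l 16347272) (l 364702246455)) (a (l 16337176) (c (l 16364440) (l 355575395495)))) (l 3))) (a (a (b (c (l 16371496) (c (l 16364048) (l 16359088))) (c (a (l 16441280) (l 377050359815)) (c (l 16414304) (l 337858735511)))) (b (c (l 377050423879) (l 418389345207)) (l 3))) (l 3))) (b (b (a (a (c (l 374903095911) (l 366313283191)) (l 3)) (l 3)) (l 3)) (l 3))), by decide +kernel⟩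

def k4_mm_202_a : ∃ t, chk3 f_mm_202_a t 3 64 2 = true :=
  ⟨(a (a (b (l 16449712) (b (c (l 16461152) (l 16458224)) (c (l 16466160) (a (l 16480976) (c (l 16481840) (l 16484424)))))) (c (b (l 16472960) (l 16472056)) (b (a (l 16466440) (l 16475688)) (c (l 16486136) (a (b (l 16490992) (l 16487144)) (b (l 16497024) (l 16488976))))))) (a (c (a (l 16455160) (l 16506448)) (b (a (b (l 16479240) (l 16491976)) (l 16473560)) (c (l 16449016) (a (b (l 16497952) (l 16461800)) (l 16464944))))) (b (c (a (l 16567264) (l 16527752)) (a (l 16546928) (l 16589688))) (c (a (c (l 16542392) (l 16521488)) (a (l 16536952) (l 16551480))) (a (b (l 16536784) (l 16476496)) (b (l 16546096) (l 16469512))))))), by decide +kernel⟩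

def k5_mm_202_a : ∃ t, chk3 f_mm_202_a t 3 128 3 = true :=
  ⟨(c (a (a (l 16494592) (l 16502784)) (a (b (a (l 16495816) (l 16490864)) (c (a (l 16499480) (l 16526328)) (a (l 16511136) (c (l 16531728) (b (l 16536528) (l 16536160)))))) (b (a (l 16550200) (l 16594824)) (c (a (l 16559208) (l 16589392)) (a (c (l 16564960) (b (l 16566912) (l 16568200))) (b (l 16602480) (l 16594240))))))) (a (c (a (l 16500496) (l 16466680)) (b (a (l 16511632) (l 16519552)) (l 16501536))) (a (b (c (l 16523080) (a (l 16513920) (l 16537440))) (c (l 16476488) (l 16516848))) (b (c (a (l 16566848) (c (l 16589288) (l 16606528))) (c (l 16588848) (a (l 16571816) (l 16609152)))) (c (c (a (b (l 16560624) (c (l 16564640) (l 16530816))) (b (c (l 16607648) (l 16607456)) (c (l 16599072) (l 16596104)))) (a (b (l 16566120) (l 16527496)) (b (a (l 16593416) (c (l 16615144) (l 16610440))) (l 16588088)))) (c (a (l 16559208) (l 16597008)) (l 16585456))))))), by decide +kernel⟩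

def k6_mm_202_a : ∃ t, chk3 f_mm_202_a t 3 129 3 = true :=
  ⟨(a (a (c (b (l 16485032) (l 16465240)) (l 16468304)) (c (c (b (a (l 16499848) (c (l 16503480) (l 16504680))) (a (c (l 16480240) (l 16468600)) (c (l 16484744) (l 16471384)))) (b (l 16491080) (a (l 16451552) (l 16387816)))) (l 16414416))) (c (b (a (c (a (c (l 16486576) (b (l 16511560) (l 16507080))) (l 16524992)) (a (c (b (l 16510816) (l 16495392)) (l 16482320)) (c (b (l 16534152) (l 16520432)) (l 16489552)))) (c (a (l 16524888) (l 16530568)) (a (c (l 16549968) (l 16549344)) (c (l 16558400) (l 16563816))))) (a (c (a (a (l 16477672) (l 16486400)) (l 16502744)) (a (c (l 16448296) (l 16438656)) (c (l 16498784) (l 16475576)))) (c (a (l 16527240) (l 16543008)) (a (l 16491368) (l 16535056))))) (c (a (b (a (l 16485392) (l 16418344)) (l 16427368)) (c (b (a (l 16542320) (b (l 16584912) (l 16580488))) (l 16520528)) (a (l 16522448) (l 16589064)))) (a (l 16445448) (a (l 16529736) (l 16594640)))))), by decide +kernel⟩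

def k7_mm_202_a : ∃ t, chk3 f_mm_202_a t 3 65 1 = true :=
  ⟨(c (a (b (c (a (c (l 16454496) (b (l 16472536) (l 16452624))) (b (l 16447904) (l 16382592))) (a (c (b (a (l 16469912) (l 16473032)) (l 16437768)) (a (c (l 16436304) (l 16424368)) (l 16414024))) (c (b (l 16460096) (l 16428832)) (a (l 16446400) (l 16437984))))) (c (a (l 16397168) (a (l 16389216) (l 16386320))) (a (c (l 16322312) (l 16268616)) (a (l 16353112) (l 16341160))))) (c (a (b (a (l 16328704) (l 16398120)) (a (l 16380912) (l 16449688))) (a (b (c (l 16466496) (l 16498896)) (b (l 16477432) (l 16500528))) (b (c (l 16519888) (b (l 16553464) (l 16487392))) (c (a (l 16553056) (l 16590640)) (l 16529496))))) (a (b (a (c (l 16399320) (l 16446464)) (b (l 16435072) (l 16471896))) (a (l 16363424) (l 16385648))) (b (b (a (l 16487240) (l 16510168)) (l 16469696)) (a (l 16472656) (a (l 16544080) (l 16562736))))))) (a (c (b (a (b (l 16427264) (l 16339448)) (c (b (a (l 16341464) (l 16421192)) (l 16353872)) (l 16410368))) (a (l 16394240)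 (l 16353216))) (a (l 16435480) (c (l 16393040) (l 16444968)))) (c (a (b (c (a (b (l 16455064) (l 16445856)) (l 16446856)) (a (l 16418264) (l 16477408))) (a (l 16407392) (c (l 16465600) (l 16479120)))) (b (a (b (c (l 16525872) (l 16537568)) (l 16487272)) (c (l 16524072) (l 16514752))) (c (a (l 16531328) (l 16521544)) (a (l 16502352) (b (l 16577968) (l 16536408)))))) (a (a (c (l 16401392) (l 16468648)) (b (l 16449808) (c (l 16468848) (l 16510600)))) (c (b (c (a (l 16540440) (l 16566424)) (a (l 16526424) (l 16593328))) (a (l 16491368) (c (l 16505544) (l 16593048)))) (a (l 16511544) (l 16526920))))))), by decide +kernel⟩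

def k8_mm_202_a : ∃ t, chk3 f_mm_202_a t 3 66 1 = true :=
  ⟨(a (c (c (a (b (l 16352120) (l 16335136)) (b (l 16330016) (a (l 16362152) (l 16365728)))) (a (b (l 16280648) (l 16358808)) (b (a (l 16382400) (l 16401832)) (l 16317464)))) (c (a (b (l 16399080) (l 16345736)) (a (l 16366592) (c (l 16404384) (l 16354608)))) (a (l 16394912) (a (l 16418704) (l 16378016))))) (c (a (c (a (b (l 16369928) (l 16384616)) (b (l 16432960) (l 16438448))) (a (b (l 16347824) (l 16404552)) (b (l 16411808) (l 16455496)))) (c (a (b (l 16497192) (l 16451384)) (b (c (a (l 16534848) (l 16555712)) (l 16542960)) (a (l 16523688) (l 16509048)))) (b (a (l 16508912) (c (l 16526088) (l 16555208))) (a (l 16467920) (l 255717725175))))) (a (c (c (a (b (l 16428032) (l 16425080)) (b (l 16471880) (l 16478168))) (a (b (l 16399592) (l 16435568)) (b (l 16402064) (l 16407392)))) (a (l 16443776) (b (l 16511752) (l 16493928)))) (c (c (a (b (l 16525016) (l 16470864)) (b (l 16546608) (l 232632311303))) (a (b (b (l 16543592) (l 16502072))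 (c (l 16484576) (l 16552200))) (b (c (l 16560592) (b (l 16567352) (l 16573288))) (a (l 16557304) (l 16578704))))) (a (b (l 16550896) (l 16551400)) (b (l 16574312) (l 16595296))))))), by decide +kernel⟩

def k9_mm_202_a : ∃ t, chk3 f_mm_202_a t 3 67 1 = true :=
  ⟨(c (b (a (a (c (l 16339664) (l 16367440)) (c (l 16292224) (l 16314768))) (a (c (a (l 16369824) (l 16423672)) (a (l 16391784) (l 16403952))) (c (a (l 16486016) (l 16468576)) (a (a (l 16497016) (l 16521128)) (l 16531168))))) (a (a (c (l 16315504) (l 16298552)) (a (l 16328176) (l 16355280))) (a (c (a (l 16351488) (l 16412616)) (a (c (l 16368992) (l 16388696)) (c (l 16430680) (l 16451384)))) (a (c (l 16477088) (l 238000849191)) (c (l 16530448) (l 16520680)))))) (a (c (a (c (l 16259528) (l 16367672)) (c (a (l 16344744) (b (l 16399544) (l 16388616))) (l 16399400))) (a (l 16344112) (l 16397144))) (a (b (c (c (a (l 16415880) (l 16388976)) (l 16410472)) (l 16408616)) (c (c (c (a (l 16381904) (l 16466384)) (l 16400040)) (l 16399040))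 (l 16376200))) (c (c (a (b (a (l 16525328) (l 16550456)) (c (l 16513440) (l 16540768))) (b (l 16540472) (l 16568568))) (a (l 16545624) (l 16580920))) (a (l 16544320) (l 16579984)))))), by decide +kernel⟩

def k10_mm_202_a : ∃ t, chk3 f_mm_202_a t 3 17 1 = true :=
  ⟨(a (c (b (c (a (b (a (l 16308816) (l 16324128)) (b (l 16301504) (l 16291896))) (b (a (l 16318680) (l 16256488)) (c (a (l 16289008) (l 16302104)) (a (l 16310024) (l 16323696))))) (a (b (c (l 16320872) (b (l 16352488) (l 16346040))) (b (l 16329392) (l 16298296))) (b (a (l 16348528) (c (l 16345304) (b (l 16365472) (l 16365480)))) (c (a (b (l 16334456) (l 16332032)) (b (l 16344840) (l 16340352))) (l 16345856))))) (c (c (a (b (l 16265888) (b (a (l 16298752) (l 16294928)) (l 16303664))) (b (a (l 16290520) (l 16295488)) (a (l 220283722519) (l 503751593751)))) (a (b (b (l 16218856) (l 16308368)) (l 16308840)) (b (a (l 16307912) (l 239074261063)) (l 435032178679)))) (a (b (l 16311488) (l 16305576)) (b (a (l 16315920) (l 16323096))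 (l 400672442503))))) (b (a (b (c (l 16358048) (l 16354400)) (l 16320320)) (c (b (a (l 16363336) (l 16368456)) (l 16342832)) (b (l 16360912) (l 16339096)))) (a (c (l 16303456) (l 16299296)) (a (b (l 16309104) (l 16290016)) (b (l 16316128) (l 16294536)))))) (b (a (a (c (c (b (a (l 16289456) (l 16349936)) (c (l 16316200) (l 16338664))) (b (c (b (l 16368232) (l 16364328)) (b (a (l 16377776) (l 16398400)) (l 16383224))) (c (b (l 16360560) (l 16358296)) (l 16366624)))) (b (c (l 16393144) (l 16389352)) (l 16361712))) (c (c (b (b (l 16398784) (l 16389744)) (l 308330709671)) (b (b (c (l 16423296) (l 16445656)) (l 225115781127)) (c (l 16355168) (l 16428040)))) (c (b (l 16455352) (l 16425504)) (l 16443080)))) (a (b (c (c (l 16404328) (b (l 414631364679) (l 16482728))) (c (l 16525312) (l 16522936))) (l 3)) (l 3))) (a (a (b (c (c (a (l 262696575303) (l 16335232)) (l 16344704)) (l 408188702231)) (l 3)) (l 3)) (l 3)))), by decide +kernel⟩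

def k11_mm_202_a : ∃ t, chk3 f_mm_202_a t 3 9 1 = true :=
  ⟨(b (a (a (c (b (b (a (l 16301776) (l 16293120)) (l 321215523991)) (a (l 16312656) (l 16316320))) (b (b (a (l 16292056) (l 16282688)) (l 16283888)) (a (l 16303288) (l 16306744)))) (a (b (b (c (l 16290296) (l 16279312)) (l 3)) (l 3)) (l 3))) (l 3)) (l 3)), by decide +kernel⟩

def k12_mm_202_a : ∃ t, chk3 f_mm_202_a t 3 5 1 = true :=
  ⟨(l 3), by decide +kernel⟩

def k13_mm_202_a : ∃ t, chk3 f_mm_202_a t 1 3 1 = true :=
  ⟨(l 3), by decide +kernel⟩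

theorem s14_mm_202_a : ∃ t, chk3 f_mm_202_a t 3 33 1 = true := ex3_b k8_mm_202_a k9_mm_202_a

theorem s15_mm_202_a : ∃ t, chk3 f_mm_202_a t 3 64 3 = true := ex3_b k5_mm_202_a k6_mm_202_a

theorem s16_mm_202_a : ∃ t, chk3 f_mm_202_a t 3 64 1 = true := ex3_c k4_mm_202_a s15_mm_202_a

theorem s17_mm_202_a : ∃ t, chk3 f_mm_202_a t 3 32 1 = true := ex3_b s16_mm_202_a k7_mm_202_a

theorem s18_mm_202_a : ∃ t, chk3 f_mm_202_a t 3 16 1 = true := ex3_b s17_mm_202_a s14_mm_202_a

theorem s19_mm_202_a : ∃ t, chk3 f_mm_202_a t 3 8 1 = true := ex3_b s18_mm_202_a k10_mm_202_a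

theorem s20_mm_202_a : ∃ t, chk3 f_mm_202_a t 3 4 1 = true := ex3_b s19_mm_202_a k11_mm_202_a

theorem s21_mm_202_a : ∃ t, chk3 f_mm_202_a t 3 2 1 = true := ex3_b s20_mm_202_a k12_mm_202_a

theorem s22_mm_202_a : ∃ t, chk3 f_mm_202_a t 5 4 1 = true := ex3_b k1_mm_202_a k2_mm_202_a

theorem s23_mm_202_a : ∃ t, chk3 f_mm_202_a t 2 4 1 = true := ex3_a k0_mm_202_a s22_mm_202_a

theorem s24_mm_202_a : ∃ t, chk3 f_mm_202_a t 2 2 1 = true := ex3_b s23_mm_202_a k3_mm_202_a

theorem s25_mm_202_a : ∃ t, chk3 f_mm_202_a t 1 2 1 = true := ex3_a s24_mm_202_a s21_mm_202_a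

theorem s26_mm_202_a : ∃ t, chk3 f_mm_202_a t 1 1 1 = true := ex3_b s25_mm_202_a k13_mm_202_a

theorem c_mm_202_a : CertFX 0 420477299 1073741824 536870912 1046898278 26843546 false false false .pp 2 0 2
    ndF2q2a ndF7q2 pcF0 Cut.none Ext.none :=
  certFX1 (fam := false) (s1 := false) (s2 := false) (a := 2) (b := 0) (c := 2) (cn := .pp) (n1 := ndF2q2a) (n2 := ndF7q2) (pc := pcF0) (cut := Cut.none) (xt := Ext.none) (P1 := 0) (W1 := 420477299) (P2 := 1073741824) (W2 := 536870912) (P3 := 1046898278) (W3 := 26843546)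
    rfl (fun _ => rfl) s26_mm_202_a

noncomputable def f_mm_202_b : ℕ → ℕ → ℕ → ℕ → Bool := onCell 0 536870912 1073741824 536870912 1046898278 26843546
    (rowFX 2 false false false .pp 2 0 2 (qsf 1239849684 370763052 1073741824 536870912 0) ndF2q2b ndF7q2 pcF0 Cut.none Ext.none)

def k0_mm_202_b : ∃ t, chk3 f_mm_202_b t 4 4 1 = true :=
  ⟨(l 1), by decide +kernel⟩

def k1_mm_202_b : ∃ t, chk3 f_mm_202_b t 16 5 1 = true :=
  ⟨(b (a (b (a (a (a (c (l 16424128) (l 620655172103)) (l 1)) (l 1)) (l 1)) (c (a (c (l 16324352) (a (l 16309424) (a (l 16356280) (l 16170464)))) (c (a (a (l 16396640) (l 16182984)) (l 16255216)) (a (c (l 16223096) (l 16368432)) (b (l 16448696) (l 16268864))))) (a (c (a (l 16146792) (a (b (l 16454320) (l 16234416)) (c (l 16366296) (l 16344528)))) (a (c (a (l 16322176) (b (l 16436976) (l 16237592))) (a (b (b (l 16480688) (l 16369744)) (l 16119912)) (l 16252912))) (c (l 16203072) (l 16362136)))) (c (a (b (l 16431792) (l 16218232)) (l 16290392)) (l 16246344))))) (b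 (l 1) (c (a (c (b (l 693669734855) (a (l 16287312) (l 16277256))) (b (l 16345312) (l 16298120))) (c (b (l 1) (l 16268344)) (l 16408688))) (c (b (l 16367392) (l 16293928)) (l 16307768))))) (a (c (a (c (l 15769016) (b (l 15799024) (l 15632944))) (c (a (b (l 15937208) (l 15710328)) (b (l 16047624) (l 15713688))) (a (b (l 15970776) (l 15675504)) (b (l 15996656) (l 15656608))))) (a (c (a (b (l 15949496) (l 15611928)) (b (c (l 15967616) (l 15932840)) (c (l 15650016) (l 15633520)))) (c (a (b (l 15803016) (l 15608824)) (l 15605752)) (a (a (b (l 15796576) (l 15600712)) (l 15653368)) (l 15803600)))) (c (b (a (l 15942408) (l 16009440)) (l 15511616)) (l 15595120)))) (c (a (b (c (l 15850232) (l 15900712)) (c (b (l 15761592) (a (l 15430344) (l 15422824))) (l 15684928))) (b (c (l 16053584) (l 16117112)) (c (l 15728384) (l 15770600)))) (c (b (l 15987696) (l 15654368)) (l 15738184))))), by decide +kernel⟩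

def k2_mm_202_b : ∃ t, chk3 f_mm_202_b t 17 5 1 = true :=
  ⟨(b (a (a (a (b (l 1) (c (l 416107540855) (l 16503792))) (l 1)) (l 1)) (l 1)) (c (a (b (b (c (a (l 16231176) (l 16223096)) (b (l 16376520) (l 16139144))) (c (l 16061280) (l 15992024))) (c (a (l 15844352) (l 15930480)) (a (l 15857088) (l 15700032)))) (b (a (b (c (l 16417440) (l 16344192)) (c (l 16287928) (l 16309000))) (b (l 1) (a (l 16241112) (l 16324000)))) (c (a (l 15833232) (b (l 16216168) (l 16051488))) (a (l 16044792) (l 16140392))))) (a (b (b (l 16266528) (l 16072304)) (c (l 15691024) (l 15893280))) (b (b (c (l 16318896) (l 16421760)) (a (l 16287456) (l 16276776))) (c (l 15938888) (l 15969088)))))), by decide +kernel⟩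

def k3_mm_202_b : ∃ t, chk3 f_mm_202_b t 9 5 1 = true :=
  ⟨(b (l 1) (b (b (l 1) (b (l 1) (a (a (c (l 16421472) (l 16415376)) (l 1)) (l 1)))) (a (c (a (a (l 16211728) (l 162703960423)) (c (l 316786124231) (l 286721346423))) (a (a (l 16200368) (l 16237656)) (b (l 16404896) (l 16339864)))) (a (a (c (l 517576190871) (l 428455673239)) (l 1)) (l 1))))), by decide +kernel⟩

def k4_mm_202_b : ∃ t, chk3 f_mm_202_b t 5 2 1 = true :=
  ⟨(l 1), by decide +kernel⟩

def k5_mm_202_b : ∃ t, chk3 f_mm_202_b t 8 12 1 = true :=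
  ⟨(a (a (c (c (b (a (l 15226704) (a (c (l 15415992) (b (l 15486864) (l 15339000))) (c (l 15429160) (b (l 15469728) (l 15328416))))) (a (l 14847008) (b (a (l 15198192) (l 15191832)) (l 15040960)))) (a (a (l 15087160) (b (l 15364200) (c (l 15068768) (l 15017544)))) (a (b (a (l 15384640) (l 15161696)) (c (b (l 15179768) (l 15035760)) (l 15073192))) (c (b (l 15349136) (l 15102360)) (l 14953872))))) (a (c (a (l 15165096) (b (l 15338128) (c (l 15046888) (l 15045888)))) (a (c (l 15052280) (b (l 15299272) (l 15010200))) (b (l 15319528) (l 15031888)))) (c (b (l 15354264) (l 14946880)) (l 15217568)))) (c (c (a (b (a (c (l 15405072) (l 15368888)) (l 15397656)) (b (l 15200504) (l 15077008))) (b (l 15451232) (l 15201280))) (b (a (l 15389024) (l 15473160)) (a (l 15136496) (l 15211272)))) (b (c (a (l 15418216) (l 15485272)) (l 15444112)) (c (a (l 15146960) (l 15216888)) (l 15161744))))) (c (a (c (b (l 15436088) (a (l 15296536) (l 15384760))) (b (b (l 15596480) (l 15557392)) (c (l 15144416) (l 15292312))))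 (c (b (b (l 15851704) (a (l 15659712) (l 15617256))) (a (l 15476656) (l 15536640))) (b (b (l 15850432) (l 15696848)) (l 15395288)))) (a (b (c (l 15493720) (l 15600112)) (c (l 15345864) (l 15325696))) (b (b (l 15834808) (l 15677832)) (b (l 15540592) (l 15403856)))))), by decide +kernel⟩

def k6_mm_202_b : ∃ t, chk3 f_mm_202_b t 9 12 1 = true :=
  ⟨(a (c (a (b (a (l 15899728) (l 15991560)) (l 15659960)) (b (l 16129144) (b (l 15915864) (l 15778616)))) (a (b (a (l 15879176) (l 15973600)) (l 15630576)) (b (l 16114744) (b (l 15894936) (l 15753432))))) (c (b (a (a (l 16270096) (l 16334384)) (l 289942701671)) (a (b (l 16095248) (a (l 15921544) (l 15993312))) (b (l 16217912) (l 16084520)))) (b (a (a (l 16259408) (l 16325288)) (l 258804193815)) (a (b (l 16079096) (l 15936456)) (b (l 16204920) (l 16067472)))))), by decide +kernel⟩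

def k7_mm_202_b : ∃ t, chk3 f_mm_202_b t 5 12 1 = true :=
  ⟨(a (a (b (a (c (l 622266054295) (l 561599627047)) (l 1)) (c (a (b (l 220149471623) (l 16205200)) (b (l 619044779015) (l 213170142279))) (a (c (l 189547525031) (l 16124376)) (b (l 559452087767) (l 187400316743))))) (a (b (l 1) (b (l 1) (c (l 670584444087) (l 610454883687)))) (l 1))) (l 1)), by decide +kernel⟩

def k8_mm_202_b : ∃ t, chk3 f_mm_202_b t 2 26 1 = true :=
  ⟨(a (a (a (c (a (a (a (l 14830392) (c (l 14846544) (b (l 14884152) (l 14793200)))) (c (b (l 14898920) (l 14841392)) (a (b (l 14881576) (l 14810968)) (b (l 14902184) (l 14850024))))) (c (b (a (l 14956728) (l 15041536)) (l 14938608)) (b (l 15000160) (l 14940880)))) (a (a (c (a (l 14792640) (c (b (l 14861216) (l 14777968)) (l 14798672))) (a (c (l 14774544) (l 14769888)) (l 14791384))) (c (c (l 14848496) (l 14848144)) (l 14844352))) (c (c (l 14779264) (l 14966536)) (l 14954312)))) (c (a (c (b (l 15154544) (l 15087360)) (b (l 15162496) (l 15097624))) (c (b (c (l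 15298608) (l 15300280)) (a (l 15208424) (l 15282656))) (l 15285024))) (c (a (l 15118072) (l 15265584)) (l 15171504)))) (b (a (c (a (a (l 15423504) (l 15512520)) (l 15644168)) (a (l 15326912) (l 15614848))) (c (a (l 15809984) (l 15950616)) (a (l 15785120) (l 15929472)))) (a (c (a (l 15391096) (l 15560256)) (a (l 15354624) (l 15528592))) (c (l 15745224) (l 15678128))))) (b (a (a (c (l 16044808) (l 16070872)) (c (a (b (l 16378056) (l 16329488)) (l 679711306887)) (a (l 190084730839) (l 619581748407)))) (l 1)) (a (c (a (l 16096936) (c (l 196527194855) (l 189547862727))) (a (l 16079424) (c (l 16257432) (l 16336184)))) (a (a (a (c (l 659310421799) (l 379063792471)) (l 1)) (l 1)) (l 1))))), by decide +kernel⟩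

def k9_mm_202_b : ∃ t, chk3 f_mm_202_b t 2 27 1 = true :=
  ⟨(a (a (a (c (a (a (c (l 14796880) (l 14686904)) (l 14830560)) (c (l 14935192) (l 14935592))) (a (a (c (a (l 14733728) (l 14759856)) (a (l 14712536) (l 14749224))) (c (l 14814664) (l 14809176))) (c (l 14938640) (l 14925160)))) (b (c (a (c (l 15076080) (l 15087512)) (l 15096416)) (l 15143320)) (l 3))) (b (a (c (a (l 15366928) (l 15535440)) (l 15418992)) (c (l 15792144) (l 15766560))) (l 3))) (b (a (c (a (l 16086768) (l 16360832)) (a (l 16068912) (l 16350272))) (a (b (a (c (l 513818428423) (l 281890172215)) (l 1)) (l 3)) (l 1))) (l 3))), by decide +kernel⟩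

def k10_mm_202_b : ∃ t, chk3 f_mm_202_b t 2 7 1 = true :=
  ⟨(a (l 3) (l 3)), by decide +kernel⟩

def k11_mm_202_b : ∃ t, chk3 f_mm_202_b t 3 1 1 = true :=
  ⟨(b (l 1) (b (l 1) (a (a (l 3) (b (l 1) (l 3))) (l 1)))), by decide +kernel⟩

theorem s12_mm_202_b : ∃ t, chk3 f_mm_202_b t 2 13 1 = true := ex3_b k8_mm_202_b k9_mm_202_b

theorem s13_mm_202_b : ∃ t, chk3 f_mm_202_b t 4 12 1 = true := ex3_a k5_mm_202_b k6_mm_202_b

theorem s14_mm_202_b : ∃ t, chk3 f_mm_202_b t 2 12 1 = true := ex3_a s13_mm_202_b k7_mm_202_b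

theorem s15_mm_202_b : ∃ t, chk3 f_mm_202_b t 2 6 1 = true := ex3_b s14_mm_202_b s12_mm_202_b

theorem s16_mm_202_b : ∃ t, chk3 f_mm_202_b t 2 3 1 = true := ex3_b s15_mm_202_b k10_mm_202_b

theorem s17_mm_202_b : ∃ t, chk3 f_mm_202_b t 8 5 1 = true := ex3_a k1_mm_202_b k2_mm_202_b

theorem s18_mm_202_b : ∃ t, chk3 f_mm_202_b t 4 5 1 = true := ex3_a s17_mm_202_b k3_mm_202_b

theorem s19_mm_202_b : ∃ t, chk3 f_mm_202_b t 4 2 1 = true := ex3_b k0_mm_202_b s18_mm_202_b

theorem s20_mm_202_b : ∃ t, chk3 f_mm_202_b t 2 2 1 = true := ex3_a s19_mm_202_b k4_mm_202_b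

theorem s21_mm_202_b : ∃ t, chk3 f_mm_202_b t 2 1 1 = true := ex3_b s20_mm_202_b s16_mm_202_b

theorem s22_mm_202_b : ∃ t, chk3 f_mm_202_b t 1 1 1 = true := ex3_a s21_mm_202_b k11_mm_202_b

theorem c_mm_202_b : CertFX 1239849684 370763052 1073741824 536870912 1046898278 26843546 false false false .pp 2 0 2
    ndF2q2b ndF7q2 pcF0 Cut.none Ext.none :=
  certFX2 (fam := false) (s1 := false) (s2 := false) (a := 2) (b := 0) (c := 2) (cn := .pp) (n1 := ndF2q2b) (n2 := ndF7q2) (pc := pcF0) (cut := Cut.none) (xt := Ext.none) (P1 := 1239849684) (W1 := 370763052) (P2 := 1073741824) (W2 := 536870912) (P3 := 1046898278) (W3 := 26843546)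
    rfl (fun _ => rfl) s22_mm_202_b

noncomputable def f_mm_203_a : ℕ → ℕ → ℕ → ℕ → Bool := onCell 0 420477299 0 1230186008 1046898278 26843546
    (rowFX 0 false false false .up 2 0 3 (qsf 0 420477299 0 1230186008 0) ndF2q2a ndF7q3 pcF0 Cut.none Ext.none)

def k0_mm_203_a : ∃ t, chk3 f_mm_203_a t 1 1 1 = true :=
  ⟨(b (l 2) (l 3)), by decide +kernel⟩

theorem c_mm_203_a : CertFX 0 420477299 0 1230186008 1046898278 26843546 false false false .up 2 0 3
    ndF2q2a ndF7q3 pcF0 Cut.none Ext.none :=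
  certFX0 (fam := false) (s1 := false) (s2 := false) (a := 2) (b := 0) (c := 3) (cn := .up) (n1 := ndF2q2a) (n2 := ndF7q3) (pc := pcF0) (cut := Cut.none) (xt := Ext.none) (P1 := 0) (W1 := 420477299) (P2 := 0) (W2 := 1230186008) (P3 := 1046898278) (W3 := 26843546)
    rfl k0_mm_203_a

noncomputable def f_mm_203_b : ℕ → ℕ → ℕ → ℕ → Bool := onCell 1239849684 370763052 0 1230186008 1046898278 26843546
    (rowFX 0 false false false .up 2 0 3 (qsf 1239849684 370763052 0 1230186008 0) ndF2q2b ndF7q3 pcF0 Cut.none Ext.none)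

def k0_mm_203_b : ∃ t, chk3 f_mm_203_b t 1 1 1 = true :=
  ⟨(b (l 3) (b (l 3) (l 3))), by decide +kernel⟩

theorem c_mm_203_b : CertFX 1239849684 370763052 0 1230186008 1046898278 26843546 false false false .up 2 0 3
    ndF2q2b ndF7q3 pcF0 Cut.none Ext.none :=
  certFX0 (fam := false) (s1 := false) (s2 := false) (a := 2) (b := 0) (c := 3) (cn := .up) (n1 := ndF2q2b) (n2 := ndF7q3) (pc := pcF0) (cut := Cut.none) (xt := Ext.none) (P1 := 1239849684) (W1 := 370763052) (P2 := 0) (W2 := 1230186008) (P3 := 1046898278) (W3 := 26843546)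
    rfl k0_mm_203_b

noncomputable def f_mm_213_a : ℕ → ℕ → ℕ → ℕ → Bool := onCell 0 420477299 0 1230186008 1046898278 26843546
    (rowFX 0 false false false .pnn 2 1 3 (qsf 0 420477299 0 1230186008 1) ndF2q2a ndF7q3 pcF1 Cut.none Ext.none)

def k0_mm_213_a : ∃ t, chk3 f_mm_213_a t 1 1 1 = true :=
  ⟨(b (l 3) (l 3)), by decide +kernel⟩

theorem c_mm_213_a : CertFX 0 420477299 0 1230186008 1046898278 26843546 false false false .pnn 2 1 3
    ndF2q2a ndF7q3 pcF1 Cut.none Ext.none :=
  certFX0 (fam := false) (s1 := false) (s2 := false) (a := 2) (b := 1) (c := 3) (cn := .pnn) (n1 := ndF2q2a) (n2 := ndF7q3) (pc := pcF1) (cut := Cut.none) (xt := Ext.none) (P1 := 0) (W1 := 420477299) (P2 := 0) (W2 := 1230186008) (P3 := 1046898278) (W3 := 26843546)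
    rfl k0_mm_213_a

noncomputable def f_mm_213_b : ℕ → ℕ → ℕ → ℕ → Bool := onCell 1239849684 370763052 0 1230186008 1046898278 26843546
    (rowFX 0 false false false .pnn 2 1 3 (qsf 1239849684 370763052 0 1230186008 1) ndF2q2b ndF7q3 pcF1 Cut.none Ext.none)

def k0_mm_213_b : ∃ t, chk3 f_mm_213_b t 1 1 1 = true :=
  ⟨(b (l 3) (b (l 3) (l 3))), by decide +kernel⟩

theorem c_mm_213_b : CertFX 1239849684 370763052 0 1230186008 1046898278 26843546 false false false .pnn 2 1 3
    ndF2q2b ndF7q3 pcF1 Cut.none Ext.none :=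
  certFX0 (fam := false) (s1 := false) (s2 := false) (a := 2) (b := 1) (c := 3) (cn := .pnn) (n1 := ndF2q2b) (n2 := ndF7q3) (pc := pcF1) (cut := Cut.none) (xt := Ext.none) (P1 := 1239849684) (W1 := 370763052) (P2 := 0) (W2 := 1230186008) (P3 := 1046898278) (W3 := 26843546)
    rfl k0_mm_213_b

noncomputable def f_mm_303 : ℕ → ℕ → ℕ → ℕ → Bool := onCell 0 536870912 0 1230186008 1046898278 26843546
    (rowFX 2 false false false .npn 3 0 3 (qsf 1610612736 469762048 0 1230186008 0) ndF2q3 ndF7q3 pcF0 Cut.none Ext.none)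

def k0_mm_303 : ∃ t, chk3 f_mm_303 t 1 1 1 = true :=
  ⟨(b (l 3) (a (l 3) (l 3))), by decide +kernel⟩

theorem c_mm_303 : CertFX 1610612736 469762048 0 1230186008 1046898278 26843546 false false false .npn 3 0 3
    ndF2q3 ndF7q3 pcF0 Cut.none Ext.none :=
  certFX2 (fam := false) (s1 := false) (s2 := false) (a := 3) (b := 0) (c := 3) (cn := .npn) (n1 := ndF2q3) (n2 := ndF7q3) (pc := pcF0) (cut := Cut.none) (xt := Ext.none) (P1 := 1610612736) (W1 := 469762048) (P2 := 0) (W2 := 1230186008) (P3 := 1046898278) (W3 := 26843546)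
    rfl (fun _ => rfl) k0_mm_303

noncomputable def f_mm_313 : ℕ → ℕ → ℕ → ℕ → Bool := onCell 1610612736 469762048 0 1230186008 1046898278 26843546
    (rowFX 0 false false false .dn 3 1 3 (qsf 1610612736 469762048 0 1230186008 1) ndF2q3 ndF7q3 pcF1 Cut.none Ext.none)

def k0_mm_313 : ∃ t, chk3 f_mm_313 t 1 1 1 = true :=
  ⟨(b (l 3) (l 1)), by decide +kernel⟩

theorem c_mm_313 : CertFX 1610612736 469762048 0 1230186008 1046898278 26843546 false false false .dn 3 1 3
    ndF2q3 ndF7q3 pcF1 Cut.none Ext.none :=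
  certFX0 (fam := false) (s1 := false) (s2 := false) (a := 3) (b := 1) (c := 3) (cn := .dn) (n1 := ndF2q3) (n2 := ndF7q3) (pc := pcF1) (cut := Cut.none) (xt := Ext.none) (P1 := 1610612736) (W1 := 469762048) (P2 := 0) (W2 := 1230186008) (P3 := 1046898278) (W3 := 26843546)
    rfl k0_mm_313

end Pool.Agent.Strip051.G.IE1.Tab.C.FB27

namespace Pool.Agent.Strip051.G.IE1.Tab.C.FB30

open Pool.Agent.Strip051.PB Pool.Agent.Strip051.PB.T
open Pool.Agent.Strip051.G.IE1.Tab

noncomputable def f_pp_001 : ℕ → ℕ → ℕ → ℕ → Bool := onCell 0 536870912 536870912 536870912 1046898278 26843546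
    (rowFX 0 false true true .up 0 0 1 (qsf 0 536870912 536870912 536870912 0) ndF3q0 ndF0q1 pcF0 Cut.none Ext.none)

def k0_pp_001 : ∃ t, chk3 f_pp_001 t 1 1 1 = true :=
  ⟨(b (l 3) (b (l 3) (b (l 3) (a (l 2) (a (l 2) (b (l 3) (a (l 2) (b (l 3) (a (l 2) (c (l 217598367271) (c (l 227798849223) (b (l 3) (l 228335738727))))))))))))), by decide +kernel⟩

theorem c_pp_001 : CertFX 0 536870912 536870912 536870912 1046898278 26843546 false true true .up 0 0 1
    ndF3q0 ndF0q1 pcF0 Cut.none Ext.none :=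
  certFX0 (fam := false) (s1 := true) (s2 := true) (a := 0) (b := 0) (c := 1) (cn := .up) (n1 := ndF3q0) (n2 := ndF0q1) (pc := pcF0) (cut := Cut.none) (xt := Ext.none) (P1 := 0) (W1 := 536870912) (P2 := 536870912) (W2 := 536870912) (P3 := 1046898278) (W3 := 26843546)
    rfl k0_pp_001

noncomputable def cut_pp_011 : Cut := Cut.of [[⟨0, 0, 0, 67108864⟩, ⟨1, 1, 0, 67108864⟩, ⟨2, 1, 0, 67108864⟩, ⟨3, 0, 0, 1233125376⟩]]

noncomputable def f_pp_011 : ℕ → ℕ → ℕ → ℕ → Bool := onCell 0 536870912 536870912 536870912 1046898278 26843546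
    (rowFX 0 false true true .pnn 0 1 1 (qsf 0 536870912 536870912 536870912 1) ndF3q0 ndF0q1 pcF1 cut_pp_011 Ext.none)

def k0_pp_011 : ∃ t, chk3 f_pp_011 t 1 1 1 = true :=
  ⟨(b (l 3) (b (l 3) (b (l 3) (a (b (l 3) (b (a (l 3) (l 3)) (b (a (l 3) (l 3)) (b (a (a (l 3) (l 3)) (l 3)) (b (a (a (l 3) (l 3)) (a (l 3) (l 3))) (a (a (a (l 6) (a (l 6) (a (l 6) (a (l 6) (c (l 149952520055) (l 15097576)))))) (b (l 3) (a (c (a (a (l 15427208) (l 15399488)) (l 15380488)) (a (l 15119312) (l 15157032))) (c (a (a (l 15379472) (l 15371104)) (c (l 128477213351) (l 15314784))) (a (a (l 15193608) (l 15200400)) (l 15198760)))))) (a (c (a (a (a (l 123108492583) (a (b (l 3) (a (l 15337976) (l 119887259687))) (l 118276648023))) (c (c (l 102707438919) (l 15413568)) (l 15372600))) (c (a (l 100023195095) (l 15569752)) (l 15495224))) (a (a (c (l 15241240) (l 124718548535)) (l 113981377239)) (c (l 15458312) (l 15423744)))) (c (a (a (l 90896647671) (l 15721296)) (c (l 15777624) (l 15764544))) (a (l 15640440) (l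 15746840)))))))))) (b (l 3) (b (l 3) (b (l 3) (a (c (a (l 92507538583) (l 15781240)) (a (l 118277208455) (l 174648652903))) (c (a (l 15781240) (l 204713559191)) (a (c (l 15766296) (l 191828516711)) (c (l 214377158359) (a (l 15762472) (l 228335738727))))))))))))), by decide +kernel⟩

theorem c_pp_011 : CertFX 0 536870912 536870912 536870912 1046898278 26843546 false true true .pnn 0 1 1
    ndF3q0 ndF0q1 pcF1 cut_pp_011 Ext.none :=
  certFX0 (fam := false) (s1 := true) (s2 := true) (a := 0) (b := 1) (c := 1) (cn := .pnn) (n1 := ndF3q0) (n2 := ndF0q1) (pc := pcF1) (cut := cut_pp_011) (xt := Ext.none) (P1 := 0) (W1 := 536870912) (P2 := 536870912) (W2 := 536870912) (P3 := 1046898278) (W3 := 26843546)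
    rfl k0_pp_011

noncomputable def cut_pp_012 : Cut := Cut.of [[⟨0, 0, 0, 67108864⟩, ⟨1, 1, 0, 67108864⟩, ⟨2, 1, 0, 67108864⟩, ⟨3, 0, 0, 1233125376⟩]]

noncomputable def f_pp_012 : ℕ → ℕ → ℕ → ℕ → Bool := onCell 536870912 536870912 0 536870912 1046898278 26843546
    (rowFX 2 false true true .pnp 0 1 2 (qsf 0 536870912 0 536870912 1) ndF3q0 ndF0q2 pcF1 cut_pp_012 Ext.none)

def k0_pp_012 : ∃ t, chk3 f_pp_012 t 2 1 1 = true :=
  ⟨(b (b (a (l 2) (c (l 16777216) (l 16777216))) (b (a (l 2) (c (l 16777216) (l 16777216))) (a (c (l 16777216) (l 16777216)) (b (a (l 16777216) (l 16777216)) (l 16777216))))) (b (b (a (c (l 16777216) (l 16777216)) (c (l 16777216) (l 16777216))) (a (a (l 2) (b (l 16728592) (l 16590024))) (b (c (l 16729216) (l 16727968)) (c (l 16592424) (l 16587624))))) (a (b (a (a (l 2) (b (l 16433656) (c (c (l 16256688) (l 16249888)) (a (l 53786435639) (l 16239680))))) (b (c (l 16438056) (l 16429248)) (c (a (c (l 16256688) (l 16249888)) (l 16253288)) (a (c (l 16243080) (l 16236280))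 (l 16239680))))) (c (a (b (c (l 16045240) (l 16044168)) (c (l 15849384) (b (l 15891568) (l 15796464)))) (a (b (l 16045520) (l 15745496)) (b (l 16045520) (l 15850352)))) (a (b (c (l 16010296) (a (l 16021768) (l 16021768))) (b (c (l 15892544) (l 135927108839)) (c (a (l 15791016) (l 15791016)) (a (c (l 15788344) (l 15786320)) (l 15788352))))) (b (a (l 16026520) (l 16026520)) (a (c (l 15845568) (l 15842032)) (b (l 15886904) (l 15791176))))))) (b (a (a (c (b (l 16438056) (l 16253288)) (b (l 16429248) (l 16239680))) (c (b (l 16438056) (l 16253288)) (b (l 16429248) (l 16239680)))) (b (b (l 16474560) (c (l 16396864) (l 16386984))) (c (l 16253288) (l 16239680)))) (a (c (b (c (l 16045240) (l 16044168)) (b (l 15891648) (l 15802400))) (b (a (l 16026520) (l 16026520)) (c (l 15719744) (l 15779120)))) (b (c (a (l 16045520) (l 16045520)) (l 16026520)) (c (b (l 15891648) (l 15802400)) (b (l 15886904) (l 15791176))))))))), by decide +kernel⟩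

def k1_pp_012 : ∃ t, chk3 f_pp_012 t 3 2 1 = true :=
  ⟨(a (c (b (a (l 16774696) (a (l 16761504) (b (l 16732944) (l 16608040)))) (b (a (l 16774208) (a (l 16758848) (l 16759712))) (a (l 16773832) (a (l 16756792) (l 16758696))))) (b (a (l 16774632) (a (l 16761096) (b (l 16731792) (b (l 16763888) (l 16768128))))) (b (a (l 16774128) (a (l 16758376) (l 16759264))) (a (l 16773744) (a (l 16756264) (l 16674328)))))) (b (a (b (a (b (l 16475232) (l 16550472)) (c (l 16343952) (l 16332704))) (b (a (l 16627632) (l 16524368)) (a (c (l 16698656) (l 16696616)) (b (l 16568408) (l 16623688))))) (b (a (c (b (l 16233368) (l 16402056)) (l 16275456)) (c (b (l 16176408) (a (l 16475032) (l 16545632))) (b (l 16074904) (a (l 16482632) (l 16547008))))) (a (b (c (a (l 16552064) (l 16618496)) (a (l 16547560) (l 16617960))) (c (a (l 16642936) (l 16692880)) (l 16662240))) (b (b (a (l 16636760) (c (l 16691664) (l 16690112))) (c (a (l 16715688) (l 16645016)) (a (l 16714904) (l 16642800)))) (c (l 16610000) (l 16629640))))))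 (a (b (a (l 16661280) (c (l 16627288) (l 16623528))) (a (b (l 16688096) (l 16641080)) (b (c (l 16634680) (l 16631240)) (l 16617208)))) (b (a (c (l 16676640) (l 16674968)) (c (c (l 16581344) (l 16580632)) (a (l 16694856) (l 16611728)))) (a (c (b (l 16696272) (l 16719368)) (b (l 16695328) (l 16719184))) (c (b (a (l 16676296) (l 16616520)) (a (l 16654200) (l 16595464))) (b (l 16581384) (l 16580448)))))))), by decide +kernel⟩

def k2_pp_012 : ∃ t, chk3 f_pp_012 t 6 6 1 = true :=
  ⟨(b (c (a (l 16773448) (a (l 16754752) (a (l 16743192) (l 16774272)))) (a (l 16773344) (a (l 16754168) (a (l 16742312) (l 16774192))))) (a (b (c (l 16725568) (l 16723936)) (c (l 16588624) (l 16583392))) (a (b (l 16664120) (l 16566944)) (b (a (l 16652760) (c (l 16727632) (l 16704240))) (a (c (l 16558984) (l 16548352)) (c (l 16583896) (l 16573320))))))), by decide +kernel⟩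

def k3_pp_012 : ∃ t, chk3 f_pp_012 t 6 14 1 = true :=
  ⟨(b (b (a (l 16470408) (a (l 16450824) (a (l 16428136) (c (l 16453208) (l 16433104))))) (a (c (a (l 16396856) (l 16389240)) (a (l 16386976) (l 16378376))) (a (c (l 16373520) (a (l 16366456) (l 16354208))) (a (c (l 16341944) (l 16318784)) (c (l 16354456) (l 16326632)))))) (a (c (a (l 16253280) (l 16247344)) (a (l 16239672) (l 16232936))) (a (c (a (l 16235160) (l 16207752)) (a (l 16218456) (l 16184152))) (a (c (l 16168816) (l 16133392)) (c (l 16173456) (l 16089152)))))), by decide +kernel⟩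

def k4_pp_012 : ∃ t, chk3 f_pp_012 t 6 15 1 = true :=
  ⟨(a (b (c (a (l 16045512) (b (l 16083600) (a (l 15989992) (l 15974448)))) (a (l 16026512) (a (l 16024304) (l 16010048)))) (c (b (a (l 15891640) (c (a (l 15882848) (l 15842296)) (a (l 15886304) (l 15842176)))) (a (c (l 15807008) (l 15796360)) (a (b (l 15739088) (a (l 15767352) (l 15728680))) (c (b (l 15740320) (l 15677936)) (l 15690768))))) (a (b (l 15886896) (c (l 15790904) (l 15788240))) (b (a (l 15881064) (l 15831584)) (c (b (l 15753896) (l 15679552)) (b (l 15746752) (l 15667888))))))) (b (a (c (b (l 16026784) (l 15892760)) (l 15678760)) (c (a (l 15765184) (b (l 15950416) (l 15798488))) (a (l 15833680) (l 15812424)))) (a (c (b (c (l 15744944) (l 15734096)) (c (b (l 15634144) (a (c (l 15609456) (l 15594248)) (a (l 15547824) (l 15513728)))) (b (l 15605968) (l 15488600)))) (b (l 15707432) (c (b (l 15586016) (l 15496432)) (b (l 15564080) (l 15468528))))) (c (b (a (c (l 15661584) (l 15637056)) (b (l 15648512) (a (l 15572680) (l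 15582176)))) (a (b (l 15520760) (b (l 15459912) (c (a (l 15461912) (l 15429456)) (l 15391880)))) (a (b (c (l 15505744) (l 15452888)) (c (a (l 15427312) (a (l 15417888) (l 15418912))) (l 15360120))) (b (l 15485128) (c (l 15425376) (l 15358368)))))) (b (a (l 15589952) (c (l 15570280) (l 15524104))) (a (c (b (l 15462760) (l 15362256)) (b (l 15425392) (l 15317376))) (c (b (l 15408016) (a (l 15298392) (l 15292296))) (b (l 15359728) (a (l 15242864) (l 15232416)))))))))), by decide +kernel⟩

def k5_pp_012 : ∃ t, chk3 f_pp_012 t 7 6 1 = true :=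
  ⟨(a (b (a (b (c (l 16693680) (l 16691568)) (c (l 16722248) (l 16720984))) (c (b (l 16699480) (l 16741408)) (b (l 16698088) (l 16741320)))) (b (a (c (l 16739024) (l 16738104)) (c (l 16736232) (l 16735808))) (a (c (l 16697296) (l 16696008)) (l 16674752)))) (b (a (c (b (l 16678504) (l 16639648)) (b (l 16698688) (l 16658640))) (b (c (a (l 16624816) (l 16569136)) (l 16509984)) (c (a (l 16589112) (l 16537128)) (a (l 16585472) (l 16532288))))) (a (b (c (l 16599096) (l 16638984)) (c (l 16740984) (l 16740936))) (b (c (a (l 16596152) (b (l 16520088) (l 16548304))) (a (l 16592616) (b (l 16514736) (l 16543680)))) (a (c (l 16672912) (l 16671344)) (c (l 16583000) (l 16579224))))))), by decide +kernel⟩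

def k6_pp_012 : ∃ t, chk3 f_pp_012 t 14 7 1 = true :=
  ⟨(b (a (b (c (b (l 16570608) (l 16470704)) (b (l 16558480) (l 16449880))) (c (l 16114376) (l 16034312))) (b (c (b (l 16679168) (l 16656336)) (a (l 16665128) (l 16668096))) (c (b (l 16556536) (l 16406536)) (b (l 16543648) (l 16375232))))) (b (a (c (b (l 16046152) (c (l 15897296) (l 15866032))) (b (l 15985480) (l 15807544))) (c (b (a (l 16178760) (l 16296416)) (a (l 16000272) (a (l 16077792) (l 16137016)))) (a (l 16027104) (b (l 16247744) (l 16028240))))) (a (b (c (c (b (l 15752752) (l 15654328)) (b (l 15720840) (l 15609200))) (c (l 15561848) (l 15572720))) (c (a (b (l 15508400) (a (a (l 15399368) (l 15405152)) (l 15415120))) (b (l 15550288) (a (l 15430936) (a (l 15444104) (l 15449808))))) (b (c (a (l 15424712) (l 15456440)) (l 15381920)) (c (a (l 15300376) (a (l 15312640) (l 15318864))) (a (b (l 15269936) (l 15198208)) (b (l 15281592) (c (l 15216256) (l 15176992)))))))) (b (c (a (b (l 15842496) (l 15723536)) (b (l 15930752) (l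 15797472))) (a (b (l 15751032) (l 15609576)) (c (l 15777536) (l 15708536)))) (c (a (b (l 15594304) (l 15459272)) (b (l 15652688) (a (l 15486288) (l 15519744)))) (b (c (a (l 15482928) (l 15511464)) (a (l 15410040) (l 15418736))) (c (a (l 15309064) (l 15308664)) (a (b (l 15266848) (l 15161256)) (b (l 15247544) (l 15121064)))))))))), by decide +kernel⟩

def k7_pp_012 : ∃ t, chk3 f_pp_012 t 30 7 1 = true :=
  ⟨(a (b (b (c (l 16674944) (l 16672440)) (b (c (l 16630384) (l 16626544)) (c (l 16598736) (l 16595600)))) (b (c (b (l 16452336) (b (l 16310216) (l 16198616))) (b (l 16419208) (l 16179384))) (b (c (c (b (l 16095016) (l 16133128)) (b (l 16043472) (l 15884168))) (c (b (l 15984824) (l 15805256)) (l 15819488))) (b (c (c (a (l 15791272) (l 15877400)) (l 15792800)) (c (a (l 15565840) (l 15627168)) (l 15477688))) (a (c (c (a (l 15632224) (l 15668800)) (l 15492336)) (c (l 15335312) (l 15184480))) (l 6)))))) (a (b (b (b (l 16692280) (l 16662960)) (c (l 16639200) (l 16635616))) (b (b (c (l 16602424)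 (l 16601040)) (c (c (l 16428800) (l 16403920)) (l 16355696))) (b (b (c (c (l 16251592) (l 16200656)) (l 16109728)) (l 6)) (l 6)))) (b (b (c (l 16646400) (l 16697416)) (c (l 16626752) (l 16665968))) (b (c (b (l 16616248) (c (b (l 16598448) (l 16500248)) (l 16538976))) (b (l 16635048) (l 16509224))) (l 6))))), by decide +kernel⟩

def k8_pp_012 : ∃ t, chk3 f_pp_012 t 31 7 1 = true :=
  ⟨(a (b (c (c (b (a (l 16707416) (l 16705616)) (a (b (l 16711512) (l 16687576)) (b (l 16743504) (l 16717904)))) (b (b (l 16721912) (l 16741816)) (a (l 16702984) (b (l 16744216) (l 16722528))))) (b (b (l 16721568) (l 16741176)) (b (l 16710680) (l 16624280)))) (b (a (b (c (c (b (l 16668768) (l 16666864)) (l 16671048)) (l 16668928)) (l 6)) (l 6)) (l 6))) (b (c (b (a (b (l 16645288) (l 16668344)) (b (l 16593256) (l 16615656))) (b (a (c (l 16697984) (l 16696496)) (l 16618952)) (a (c (l 16735992) (l 16738664)) (l 16655016)))) (c (b (a (b (l 16643448) (l 16665376)) (b (l 16590560) (l 16613368))) (a (b (l 16692824)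 (l 16691496)) (b (l 16640696) (l 16682400)))) (b (a (l 16650720) (b (l 16525808) (l 16548160))) (a (l 16668192) (b (a (l 16651712) (l 16603392)) (a (l 16692528) (c (l 16667416) (l 16644512)))))))) (l 6))), by decide +kernel⟩

theorem s9_pp_012 : ∃ t, chk3 f_pp_012 t 15 7 1 = true := ex3_a k7_pp_012 k8_pp_012

theorem s10_pp_012 : ∃ t, chk3 f_pp_012 t 7 7 1 = true := ex3_a k6_pp_012 s9_pp_012

theorem s11_pp_012 : ∃ t, chk3 f_pp_012 t 7 3 1 = true := ex3_b k5_pp_012 s10_pp_012

theorem s12_pp_012 : ∃ t, chk3 f_pp_012 t 6 7 1 = true := ex3_b k3_pp_012 k4_pp_012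

theorem s13_pp_012 : ∃ t, chk3 f_pp_012 t 6 3 1 = true := ex3_b k2_pp_012 s12_pp_012

theorem s14_pp_012 : ∃ t, chk3 f_pp_012 t 3 3 1 = true := ex3_a s13_pp_012 s11_pp_012

theorem s15_pp_012 : ∃ t, chk3 f_pp_012 t 3 1 1 = true := ex3_b k1_pp_012 s14_pp_012

theorem s16_pp_012 : ∃ t, chk3 f_pp_012 t 1 1 1 = true := ex3_a k0_pp_012 s15_pp_012

theorem c_pp_012 : CertFX 0 536870912 0 536870912 1046898278 26843546 false true true .pnp 0 1 2
    ndF3q0 ndF0q2 pcF1 cut_pp_012 Ext.none :=
  certFX2 (fam := false) (s1 := true) (s2 := true) (a := 0) (b := 1) (c := 2) (cn := .pnp) (n1 := ndF3q0) (n2 := ndF0q2) (pc := pcF1) (cut := cut_pp_012) (xt := Ext.none) (P1 := 0) (W1 := 536870912) (P2 := 0) (W2 := 536870912) (P3 := 1046898278) (W3 := 26843546)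
    rfl (fun _ => rfl) s16_pp_012

noncomputable def cut_pp_022 : Cut := Cut.of [[⟨0, 0, 0, 67108864⟩, ⟨1, 1, 0, 67108864⟩, ⟨2, 1, 0, 67108864⟩, ⟨3, 0, 0, 1233125376⟩]]

noncomputable def f_pp_022 : ℕ → ℕ → ℕ → ℕ → Bool := onCell 0 536870912 0 536870912 1046898278 26843546
    (rowFX 0 false true true .pp 0 2 2 (qsf 0 536870912 0 536870912 2) ndF3q0 ndF0q2 pcF2 cut_pp_022 Ext.none)

def k0_pp_022 : ∃ t, chk3 f_pp_022 t 8 4 1 = true :=
  ⟨(a (b (a (a (c (b (l 16101584) (l 16154432)) (c (b (l 16167752) (l 16221784)) (b (l 16178400) (l 16212248)))) (a (c (b (l 16221912) (l 16276728)) (b (l 16304192) (l 16318712))) (b (c (a (l 16326792) (b (l 16368984) (l 16384752))) (a (l 16435592) (b (l 16468192) (l 16452480)))) (c (b (a (l 16406504) (l 16462696)) (a (l 16349896) (l 16466280))) (b (a (l 16469192) (l 16438712)) (a (l 16422680) (l 16430984))))))) (c (c (b (l 16446376) (l 16466288)) (b (l 16474016) (l 16481208))) (b (l 16483656) (l 16466176)))) (a (b (a (c (l 16193088) (c (l 16241232) (l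 16238128))) (c (a (b (l 16312832) (a (l 16437520) (c (l 16459376) (l 16453696)))) (b (l 16400256) (l 16462464))) (a (b (l 16377472) (a (l 16462584) (l 16384192))) (b (l 16430736) (l 16429792))))) (a (c (b (l 16313648) (a (l 16394056) (a (l 16460768) (l 16370712)))) (b (l 16225256) (a (l 16376616) (c (l 16312184) (l 16338832))))) (c (a (b (c (l 16384288) (l 16391768)) (l 16458744)) (l 16471752)) (b (a (a (l 16323024) (l 16420808)) (l 16434472)) (l 16435264))))) (c (b (c (l 16477504) (l 16477992)) (c (l 16479088) (l 16489608))) (b (l 16462704) (l 16453312))))) (b (c (b (a (c (l 16476424) (l 16495408)) (b (c (a (l 16482240) (l 16528168)) (l 16500720)) (l 16517456))) (c (a (l 16492336) (l 16523448)) (a (l 16511560) (l 16529360)))) (b (a (l 16503280) (b (c (l 16521064) (l 16520712)) (l 16520336))) (c (l 16521976) (l 16521832)))) (c (c (b (a (l 16499584) (l 16526912)) (a (l 16497128) (l 16520608))) (b (a (l 16518856) (l 16532832)) (a (l 16516264) (l 16526336)))) (c (b (l 16527360) (l 16522624))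 (b (l 16527240) (l 16522344)))))), by decide +kernel⟩

def k1_pp_022 : ∃ t, chk3 f_pp_022 t 9 4 1 = true :=
  ⟨(b (a (b (a (c (b (a (l 16536248) (l 16556824)) (a (c (l 16539728) (l 16539096)) (b (l 16525608) (l 16538800)))) (b (l 16503632) (a (l 16538456) (l 16522560)))) (c (b (l 16401232) (a (l 16522096) (l 16422504))) (b (l 16419552) (l 16471000)))) (a (c (c (a (l 16543232) (l 16567056)) (l 16492344)) (c (l 16554960) (l 16554656))) (c (b (a (l 16538832) (l 16458592)) (l 16500240)) (b (l 16494584) (l 16497408))))) (b (c (a (l 16142840) (l 16077864)) (a (l 16242008) (l 16068808))) (c (a (b (a (l 16370384) (l 16289896)) (l 16352560)) (b (l 16169136) (l 16201568))) (a (b (l 16323288) (l 16345184)) (b (l 16158984) (l 16211776)))))) (a (c (a (a (b (c (l 16544176) (l 16543560)) (c (l 16541728) (l 16540992))) (b (c (l 16578744) (l 16578664)) (l 16564296))) (b (l 16456664) (l 16461728))) (b (a (c (l 16520760) (l 16562480)) (l 16495680)) (a (b (l 16522056) (l 16523008)) (l 16500776)))) (c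 (b (a (l 16365296) (l 16255392)) (a (l 16385096) (l 16290672))) (b (a (l 16358088) (l 16244864)) (a (l 16378352) (l 16281032)))))), by decide +kernel⟩

def k2_pp_022 : ∃ t, chk3 f_pp_022 t 5 4 1 = true :=
  ⟨(a (a (b (c (b (l 15814432) (a (l 16034784) (l 15858104))) (b (l 15545832) (a (l 15979048) (l 15837760)))) (b (c (b (a (l 16113048) (l 15961920)) (a (l 16143472) (l 16002296))) (b (a (l 16098704) (l 15943240)) (a (l 16129640) (l 15984448)))) (c (c (l 16084000) (l 16118656)) (c (l 16111360) (l 16104064))))) (b (l 1) (l 1))) (l 1)), by decide +kernel⟩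

def k3_pp_022 : ∃ t, chk3 f_pp_022 t 8 5 1 = true :=
  ⟨(b (a (a (a (b (c (a (b (l 16463880) (a (l 16444984) (l 16433648))) (b (a (l 16443944) (l 16451408)) (l 16457824))) (a (b (l 16364560) (a (l 16359048) (l 16342520))) (b (c (l 16437264) (l 16421488)) (l 16438240)))) (c (b (l 16457576) (l 16481736)) (b (c (l 16449680) (l 16438184)) (l 16467304)))) (c (b (l 16441456) (l 16402208)) (c (l 16480784) (l 16468776)))) (c (b (l 16419616) (l 16377104)) (b (l 16502192) (l 16495184)))) (c (b (a (c (l 16483848) (l 16502648)) (c (l 16462112) (l 16509400))) (a (c (l 16458424) (l 16476672)) (c (a (l 16471648) (l 16472360)) (a (l 16478936) (l 16493952))))) (a (b (l 16510240) (l 16483424)) (b (l 16486912) (a (l 16476296) (l 16471008)))))) (a (c (a (b (c (l 16387800) (l 16379632)) (a (l 16393160) (l 16280488))) (b (c (l 16413656) (l 16440088)) (c (l 16363176) (l 16388616)))) (a (c (b (l 16417128) (l 16348136)) (b (l 16453312) (l 16383376))) (b (l 16416424) (l 16384432)))) (b (c (a (c (l 16419312)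 (l 16436768)) (c (a (l 16419128) (l 16477576)) (a (l 16446712) (l 16477792)))) (a (c (l 16441648) (l 16438704)) (b (l 16465032) (l 16451464)))) (c (a (c (a (l 16364536) (l 16377200)) (a (l 16384096) (l 16391024))) (c (b (l 16436520) (l 16418528)) (l 16410680))) (a (c (l 16370928) (l 16388016)) (b (l 16436592) (l 16417672))))))), by decide +kernel⟩

def k4_pp_022 : ∃ t, chk3 f_pp_022 t 9 5 1 = true :=
  ⟨(b (a (c (b (a (c (l 16483400) (l 16524760)) (l 16520728)) (c (a (l 16541888) (l 16554480)) (l 16449272))) (b (a (a (l 16516920) (l 16591856)) (l 16518176)) (a (l 16519344) (l 16552224)))) (c (b (a (l 16416456) (l 16337160)) (a (l 16442696) (l 16399200))) (b (a (l 16410464) (l 16328672)) (a (l 16458816) (l 16392256))))) (a (a (c (b (c (l 16503392) (l 16523160)) (c (l 16466864) (l 16485872))) (b (l 16500736) (b (l 16516240) (l 16491320)))) (c (b (b (l 16592040) (l 16625072)) (b (l 16589216) (l 16559744))) (b (l 16565640) (l 16510672)))) (b (c (a (b (l 16511912) (l 16551648)) (b (l 16458424)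 (l 16505384))) (a (l 16465200) (l 16476520))) (c (a (b (l 16577072) (l 16609832)) (b (l 16558944) (l 16577840))) (a (b (l 16596472) (l 16651520)) (l 16502664)))))), by decide +kernel⟩

def k5_pp_022 : ∃ t, chk3 f_pp_022 t 5 5 1 = true :=
  ⟨(a (a (a (b (c (b (l 16244576) (l 16300792)) (b (l 16233304) (l 16312448))) (c (b (b (l 16392192) (l 16446512)) (c (l 442951352663) (l 16476944))) (b (l 16370024) (l 316786681351)))) (b (c (b (l 16134944) (l 548714299063)) (b (l 16120472) (l 16215408))) (l 1))) (l 1)) (l 1)), by decide +kernel⟩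

def k6_pp_022 : ∃ t, chk3 f_pp_022 t 16 6 1 = true :=
  ⟨(b (c (a (b (c (l 16277864) (l 16246560)) (c (l 16193928) (l 16161104))) (b (c (l 16274712) (l 16319864)) (c (b (l 16236112) (l 16192512)) (a (l 16237072) (l 16238864))))) (a (b (c (l 16281888) (l 16315904)) (c (l 16194912) (l 16248384))) (b (c (l 16334096) (l 16336984)) (c (l 16209512) (l 16252896))))) (a (b (c (a (b (l 16228024) (l 16231360)) (b (l 16173520) (l 16178808))) (a (b (l 16216096) (l 16177272)) (c (l 16206264) (l 16216680)))) (c (b (a (b (l 16234120) (a (b (l 16256200) (c (a (l 16268544) (l 16247408)) (l 16252120))) (l 16212040))) (l 16140016)) (a (c (b (a (b (a (l 16260096) (l 16243776)) (l 16235624)) (b (l 16212968) (c (l 16209360) (l 16206408)))) (a (l 16208832) (c (l 16190512) (l 16187376)))) (b (a (b (l 16245816) (l 16230168)) (c (l 16204480) (l 16204000))) (a (l 16202912) (l 16184728)))) (b (c (l 16167768) (l 16184944)) (b (a (c (a (l 16174528) (a (l 16163144) (l 16158016))) (a (l 16181504) (l 16180600)))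 (l 16168312)) (c (c (a (a (l 16163640) (l 16151576)) (a (l 16143872) (l 16144072))) (a (l 16159032) (l 16156080))) (a (l 16171760) (l 16176696))))))) (a (b (a (b (l 16251472) (c (l 16247056) (l 16251760))) (l 16226680)) (c (a (b (l 16233432) (l 16197488)) (b (l 16214480) (l 16194056))) (a (b (l 16237816) (l 16201288)) (b (l 16229944) (l 16209096))))) (b (l 16211416) (b (l 16208168) (a (c (b (l 16205288) (l 16196112)) (l 16212760)) (c (l 16198328) (l 16205776)))))))) (b (c (b (c (l 16160368) (l 16182096)) (l 16175184)) (b (l 16193312) (l 16198328))) (c (b (l 16174968) (a (l 16167376) (l 16165840))) (b (l 16197792) (l 16188544)))))), by decide +kernel⟩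

def k7_pp_022 : ∃ t, chk3 f_pp_022 t 17 6 1 = true :=
  ⟨(b (b (c (a (c (b (l 16329672) (l 16300152)) (b (l 16345400) (l 16315320))) (c (b (l 16394176) (l 16362792)) (l 16339800))) (a (b (l 16348352) (l 16317440)) (b (l 16392128) (l 16359296)))) (c (a (c (l 16245752) (l 16259936)) (c (a (l 16287296) (l 16296008)) (b (l 16325424) (l 16277080)))) (a (c (l 16261536) (l 16255304)) (b (l 16318464) (l 16268896))))) (b (c (a (b (c (l 16188984) (l 16202144)) (l 16195224)) (b (c (a (l 16224752) (l 16250704)) (l 16236352)) (c (l 16231720) (l 16231704)))) (a (b (l 16201256) (l 16201192)) (b (c (l 16230096) (l 16224112)) (l 16222144)))) (c (a (b (l 16190312) (l 16177272)) (b (a (l 16213712) (l 16232704)) (a (l 16197560) (l 16214560)))) (a (b (l 16195824) (l 16182096)) (b (l 16212200) (l 16194240)))))), by decide +kernel⟩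

def k8_pp_022 : ∃ t, chk3 f_pp_022 t 9 6 1 = true :=
  ⟨(a (a (b (c (b (c (b (l 16466512) (l 16429720)) (l 16382656)) (c (b (l 16385424) (l 16332912)) (b (l 16381216) (l 16327816)))) (b (b (l 16459960) (l 16421504)) (b (l 16375272) (l 16320544)))) (b (c (b (c (l 16288152) (l 16282280)) (c (l 16279272) (l 16273128))) (b (c (l 16276656) (l 16271032)) (l 16264272))) (c (b (c (l 16265896) (l 16259400)) (a (l 16232880) (l 16252048))) (b (l 16250032) (l 16228112))))) (b (b (c (b (l 16545168) (l 16481944)) (b (l 16541920) (l 16498160))) (c (b (l 16379896) (c (l 16397720) (l 16393536))) (b (l 16446840) (l 16387248)))) (b (c (b (b (l 16350112) (l 16341680)) (c (l 16335488) (l 16330120))) (b (c (l 16338472) (l 16333448)) (l 16322072))) (b (c (l 16315344) (l 16303816)) (l 1))))) (a (b (c (b (b (a (l 16614776) (l 16642800)) (c (l 16540104) (l 16559608))) (a (b (l 16515824) (l 66604790039)) (b (l 16539304) (l 142840530103)))) (b (c (l 16519944) (l 16539872)) (c (b (l 16523496) (l 16459888)) (l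 16447488)))) (a (a (b (b (c (l 65530979639) (l 16383656)) (l 1)) (l 1)) (l 1)) (l 1))) (b (b (b (c (l 16632528) (l 16674264)) (c (l 330745612375) (l 16599912))) (l 1)) (l 1)))), by decide +kernel⟩

def k9_pp_022 : ∃ t, chk3 f_pp_022 t 5 6 1 = true :=
  ⟨(l 1), by decide +kernel⟩

def k10_pp_022 : ∃ t, chk3 f_pp_022 t 16 28 2 = true :=
  ⟨(a (b (b (a (c (a (l 16176624) (c (a (l 16163672) (b (l 16160296) (l 16146808))) (l 16155416))) (a (l 16170168) (c (l 16152032) (l 16151088)))) (c (a (c (c (l 16137312) (l 16136448)) (l 16138488)) (c (c (l 16128424) (l 16134328)) (l 16144384))) (a (l 16150960) (l 16164968)))) (a (c (c (a (a (b (l 16161280) (l 16148656)) (b (l 16152768) (l 16141496))) (c (l 16135000) (l 16133824))) (a (l 16147888) (l 16131448))) (a (c (l 16144432) (l 16140968)) (l 16127928))) (c (c (a (l 16114632) (l 16109896)) (a (l 16116712) (l 16123448))) (l 16136504)))) (c (a (c (b (a (c (c (l 16132136) (l 16131880)) (l 16131144)) (l 16116936)) (c (l 16112864) (l 16113504))) (b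 (a (l 16128928) (l 16115264)) (a (l 16118856) (l 16105936)))) (c (a (l 16092136) (l 16089144)) (a (b (l 16101616) (l 16093048)) (l 16104528)))) (a (a (b (l 16123480) (l 16113568)) (c (l 16106448) (l 16105088))) (c (a (l 16103488) (l 16120112)) (l 16123712))))) (b (a (a (c (b (c (l 16136320) (l 16150232)) (l 16107560)) (b (l 16167752) (l 16152960))) (c (b (b (l 16148584) (l 16143616)) (l 16134408)) (b (l 16166632) (l 16155776)))) (b (l 16152696) (a (c (l 16134368) (l 16153536)) (l 16143792)))) (c (a (c (l 16107000) (l 16121888)) (b (l 16123808) (l 16119000))) (a (c (b (l 16138680) (l 16133832)) (l 16145696)) (b (c (l 16138304) (l 16146376)) (l 16139112)))))), by decide +kernel⟩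

def k11_pp_022 : ∃ t, chk3 f_pp_022 t 16 28 3 = true :=
  ⟨(a (a (b (c (a (b (l 16164208) (l 16136280)) (b (l 16161040) (l 16136328))) (a (c (l 16149736) (l 16153864)) (b (l 16175568) (l 16150440)))) (c (a (b (l 16116704) (l 16106576)) (c (l 16108872) (l 16117368))) (a (c (l 16110144) (l 16113920)) (l 16128088)))) (b (a (c (l 16162736) (l 16174760)) (c (l 16175856) (l 16182824))) (c (c (l 16136240) (l 16145480)) (l 16148952)))) (b (a (c (b (l 16181208) (l 16168200)) (b (l 16182224) (l 16168944))) (b (l 16171544) (a (l 16161784) (l 16157232)))) (a (c (l 16155416) (l 16155848)) (c (b (l 16150496) (l 16148960)) (b (l 16144752) (l 16143320)))))), by decide +kernel⟩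

def k12_pp_022 : ∃ t, chk3 f_pp_022 t 17 28 1 = true :=
  ⟨(a (b (c (l 16155344) (l 16159224)) (a (b (a (b (l 16138640) (c (l 16085032) (l 16134576))) (l 16134360)) (c (c (a (l 16114208) (l 16111256)) (l 16128176)) (c (c (l 16130520) (l 16126504)) (l 16120704)))) (a (b (l 16135648) (c (c (l 16112992) (l 16123560)) (c (l 16117664) (l 16109600)))) (c (l 16131416) (l 16123496))))) (c (b (a (l 16172792) (l 16187960)) (a (l 16138608) (l 16152128))) (b (l 16167520) (l 16131256)))), by decide +kernel⟩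

def k13_pp_022 : ∃ t, chk3 f_pp_022 t 16 58 1 = true :=
  ⟨(c (a (c (a (c (b (l 16108632) (c (l 16115784) (l 16118096))) (b (a (l 16116472) (l 16103944)) (a (l 16127008) (l 16114544)))) (c (a (c (l 16087560) (l 16089512)) (l 16067064)) (b (l 16097456) (l 16109096)))) (a (c (b (l 16109408) (a (l 16127672) (l 16116696))) (a (l 16116400) (l 16108624))) (a (c (b (l 16101584) (l 16115144)) (l 16120712)) (c (l 16125032) (l 16141504))))) (c (a (c (b (l 16104040) (l 16116568)) (l 16126488)) (b (c (l 16115624) (l 16127752)) (c (l 16131344) (l 16144144)))) (a (c (l 16142552) (b (l 16148688) (l 16165552))) (b (l 16144048) (l 16161832))))) (a (a (c (a (b (l 16105480) (l 16119360)) (c (l 16112352) (l 16120784))) (a (c (l 16110728) (l 16114424)) (c (l 16131464) (l 16135256)))) (c (b (l 16140384) (l 16157384)) (b (l 16149048) (l 16166192)))) (c (a (c (b (l 16157656) (l 16176200)) (l 16170928)) (c (b (l 16156504) (l 16176448)) (b (l 16156736) (l 16178064)))) (a (b (l 16160160) (l 16179816)) (l 16160920))))),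 by decide +kernel⟩

def k14_pp_022 : ∃ t, chk3 f_pp_022 t 17 58 1 = true :=
  ⟨(a (a (c (c (b (c (l 16109928) (l 16119712)) (a (l 16136208) (l 16131552))) (b (l 16131320) (c (l 16148928) (l 16155480)))) (c (c (l 16144784) (b (l 16131720) (l 16154616))) (b (l 16126408) (l 16150680)))) (b (a (c (c (b (l 16101648) (l 16103264)) (b (l 16112184) (l 16114248))) (c (l 16109024) (l 16101240))) (b (l 16102832) (c (c (l 16097064) (l 16103448)) (c (l 16095416) (l 16087032))))) (c (c (a (l 16123560) (l 16111720)) (a (l 16134744) (l 16118224))) (c (a (l 16130208) (b (l 16100944) (l 16118040))) (a (c (l 16125616) (l 16122328)) (c (l 16104592) (l 16100696))))))) (b (c (l 16111632) (l 16098168)) (a (a (c (b (l 16096176) (l 16101536)) (c (l 16092776) (b (c (l 16081256) (l 16076944)) (l 16085064)))) (b (l 16091632) (l 1))) (l 1)))), by decide +kernel⟩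

def k15_pp_022 : ∃ t, chk3 f_pp_022 t 8 59 1 = true :=
  ⟨(b (a (a (c (c (a (c (a (l 16139272) (l 16128080)) (l 16140224)) (a (c (l 16113376) (l 16122616)) (l 16124096))) (a (c (a (l 16149848) (l 16138680)) (a (l 16148944) (l 16142224))) (c (l 16146888) (l 16143360)))) (a (c (a (l 16144016) (l 16152376)) (c (l 16134864) (l 16159944))) (c (a (l 16175464) (l 16193064)) (l 16193944)))) (c (c (a (a (l 16141488) (l 16153624)) (c (l 16157184) (l 16170176))) (a (l 16182624) (c (l 16182984) (l 16195160)))) (c (a (c (l 16203784) (l 16211280)) (c (l 16204896) (l 16208456))) (a (l 16209840) (l 16205264))))) (a (c (a (c (a (c (l 16160232) (l 16170896)) (l 16164304)) (a (l 16122912) (l 16116984))) (c (l 16153960) (c (l 16163696) (l 16162952)))) (a (c (a (l 16193800) (c (l 16181016) (l 16179416))) (c (l 16185600) (l 16183552))) (c (a (b (l 16155384) (l 16175920)) (l 16147568)) (a (c (l 16161104) (l 16158448)) (c (l 16141840) (b (l 16127584) (l 16149488))))))) (a (a (c (l 582000124887) (l 16121096))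 (l 1)) (l 1)))) (a (l 6) (a (l 6) (l 1)))), by decide +kernel⟩

def k16_pp_022 : ∃ t, chk3 f_pp_022 t 9 14 1 = true :=
  ⟨(a (a (b (c (b (l 126197015671) (l 175589061879)) (b (l 16197792) (l 16158328))) (l 1)) (l 1)) (l 1)), by decide +kernel⟩

def k17_pp_022 : ∃ t, chk3 f_pp_022 t 4 15 1 = true :=
  ⟨(a (a (l 6) (a (l 6) (l 1))) (l 1)), by decide +kernel⟩

def k18_pp_022 : ∃ t, chk3 f_pp_022 t 5 7 1 = true :=
  ⟨(l 1), by decide +kernel⟩

def k19_pp_022 : ∃ t, chk3 f_pp_022 t 3 1 1 = true :=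
  ⟨(l 1), by decide +kernel⟩

theorem s20_pp_022 : ∃ t, chk3 f_pp_022 t 8 58 1 = true := ex3_a k13_pp_022 k14_pp_022

theorem s21_pp_022 : ∃ t, chk3 f_pp_022 t 8 29 1 = true := ex3_b s20_pp_022 k15_pp_022

theorem s22_pp_022 : ∃ t, chk3 f_pp_022 t 16 28 1 = true := ex3_c k10_pp_022 k11_pp_022

theorem s23_pp_022 : ∃ t, chk3 f_pp_022 t 8 28 1 = true := ex3_a s22_pp_022 k12_pp_022

theorem s24_pp_022 : ∃ t, chk3 f_pp_022 t 8 14 1 = true := ex3_b s23_pp_022 s21_pp_022

theorem s25_pp_022 : ∃ t, chk3 f_pp_022 t 4 14 1 = true := ex3_a s24_pp_022 k16_pp_022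

theorem s26_pp_022 : ∃ t, chk3 f_pp_022 t 4 7 1 = true := ex3_b s25_pp_022 k17_pp_022

theorem s27_pp_022 : ∃ t, chk3 f_pp_022 t 2 7 1 = true := ex3_a s26_pp_022 k18_pp_022

theorem s28_pp_022 : ∃ t, chk3 f_pp_022 t 8 6 1 = true := ex3_a k6_pp_022 k7_pp_022

theorem s29_pp_022 : ∃ t, chk3 f_pp_022 t 4 6 1 = true := ex3_a s28_pp_022 k8_pp_022

theorem s30_pp_022 : ∃ t, chk3 f_pp_022 t 2 6 1 = true := ex3_a s29_pp_022 k9_pp_022

theorem s31_pp_022 : ∃ t, chk3 f_pp_022 t 2 3 1 = true := ex3_b s30_pp_022 s27_pp_022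

theorem s32_pp_022 : ∃ t, chk3 f_pp_022 t 4 5 1 = true := ex3_a k3_pp_022 k4_pp_022

theorem s33_pp_022 : ∃ t, chk3 f_pp_022 t 2 5 1 = true := ex3_a s32_pp_022 k5_pp_022

theorem s34_pp_022 : ∃ t, chk3 f_pp_022 t 4 4 1 = true := ex3_a k0_pp_022 k1_pp_022

theorem s35_pp_022 : ∃ t, chk3 f_pp_022 t 2 4 1 = true := ex3_a s34_pp_022 k2_pp_022

theorem s36_pp_022 : ∃ t, chk3 f_pp_022 t 2 2 1 = true := ex3_b s35_pp_022 s33_pp_022

theorem s37_pp_022 : ∃ t, chk3 f_pp_022 t 2 1 1 = true := ex3_b s36_pp_022 s31_pp_022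

theorem s38_pp_022 : ∃ t, chk3 f_pp_022 t 1 1 1 = true := ex3_a s37_pp_022 k19_pp_022

theorem c_pp_022 : CertFX 0 536870912 0 536870912 1046898278 26843546 false true true .pp 0 2 2
    ndF3q0 ndF0q2 pcF2 cut_pp_022 Ext.none :=
  certFX0 (fam := false) (s1 := true) (s2 := true) (a := 0) (b := 2) (c := 2) (cn := .pp) (n1 := ndF3q0) (n2 := ndF0q2) (pc := pcF2) (cut := cut_pp_022) (xt := Ext.none) (P1 := 0) (W1 := 536870912) (P2 := 0) (W2 := 536870912) (P3 := 1046898278) (W3 := 26843546)
    rfl s38_pp_022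

noncomputable def cut_pp_101 : Cut := Cut.of [[⟨0, 1, 0, 67108864⟩, ⟨1, 0, 0, 67108864⟩, ⟨2, 1, 0, 67108864⟩]]

noncomputable def f_pp_101 : ℕ → ℕ → ℕ → ℕ → Bool := onCell 536870912 536870912 536870912 536870912 1046898278 26843546
    (rowFX 0 false true true .npn 1 0 1 (qsf 536870912 536870912 536870912 536870912 0) ndF3q1 ndF0q1 pcF0 cut_pp_101 Ext.none)

def k0_pp_101 : ∃ t, chk3 f_pp_101 t 1 2 1 = true :=
  ⟨(l 3), by decide +kernel⟩

def k1_pp_101 : ∃ t, chk3 f_pp_101 t 1 6 1 = true :=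
  ⟨(l 3), by decide +kernel⟩

def k2_pp_101 : ∃ t, chk3 f_pp_101 t 1 14 1 = true :=
  ⟨(l 3), by decide +kernel⟩

def k3_pp_101 : ∃ t, chk3 f_pp_101 t 1 30 1 = true :=
  ⟨(l 3), by decide +kernel⟩

def k4_pp_101 : ∃ t, chk3 f_pp_101 t 2 31 1 = true :=
  ⟨(b (l 3) (b (l 3) (b (a (l 3) (l 3)) (a (c (a (l 15774480) (l 221893441879)) (a (c (l 15755088) (c (l 15747600) (l 233704486263))) (c (l 15755088) (c (l 15747600) (l 240146937207))))) (b (l 3) (c (a (a (l 15771224) (l 15771224)) (a (l 15771224) (l 272359293879))) (a (c (l 15751624) (a (l 15740904) (l 15740904))) (c (a (l 15751624) (l 15751624)) (a (l 15740904) (l 284170381831)))))))))), by decide +kernel⟩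

def k5_pp_101 : ∃ t, chk3 f_pp_101 t 3 31 1 = true :=
  ⟨(b (l 3) (b (l 3) (b (a (l 3) (l 3)) (b (a (l 3) (l 3)) (b (a (a (l 3) (l 3)) (a (l 3) (l 3))) (b (a (a (l 3) (l 3)) (a (l 3) (l 3))) (a (a (a (c (a (l 15768776) (c (l 15741360) (l 15727680))) (a (l 15722016) (c (l 15714000) (a (l 15726280) (l 15675064))))) (c (c (l 15575176) (l 15558760)) (c (a (l 15601976) (l 15481512)) (a (l 15586888) (l 15464560))))) (a (c (c (l 15332352) (l 15312200)) (c (l 280948000439) (a (l 298664956055) (c (l 15210720) (l 294906591111))))) (c (a (a (a (l 15176400) (a (l 15151520) (l 15147664))) (l 15205768)) (c (l 15360192) (l 15340792))) (a (a (c (a (l 15143024) (a (l 15117608) (l 15113704))) (a (l 292222166727) (a (l 291685260999) (c (l 15075744) (c (l 15088232) (l 294369605799)))))) (c (l 15173224) (l 287927195415))) (c (l 15321392) (c (l 15306848) (l 285779907447))))))) (a (b (a (l 3) (l 3)) (a (c (c (a (a (l 15508864) (l 15606064)) (c (a (l 277191108743) (a (a (a (l 15751368) (l 266453733687))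 (l 15773352)) (l 15793504))) (a (l 15692944) (l 15772736)))) (a (l 15540840) (a (l 15682256) (l 15762920)))) (a (c (l 15524496) (a (l 15457792) (l 15559432))) (a (l 280948887927) (c (l 15749832) (l 15736928))))) (b (l 3) (c (a (c (a (l 15831496) (l 15886928)) (l 15847192)) (a (c (l 15944256) (l 15933552)) (c (l 16021960) (l 16011976)))) (a (l 15829472) (a (l 15917616) (c (l 16002336) (a (l 15970456) (c (l 16017464) (l 16012880)))))))))) (a (a (a (a (a (a (b (l 3) (c (a (l 16042504) (l 6)) (c (l 16051960) (c (l 16045224) (l 234778867175))))) (l 6)) (l 6)) (l 6)) (l 6)) (l 6)) (l 6)))))))))), by decide +kernel⟩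

theorem s6_pp_101 : ∃ t, chk3 f_pp_101 t 1 31 1 = true := ex3_a k4_pp_101 k5_pp_101

theorem s7_pp_101 : ∃ t, chk3 f_pp_101 t 1 15 1 = true := ex3_b k3_pp_101 s6_pp_101

theorem s8_pp_101 : ∃ t, chk3 f_pp_101 t 1 7 1 = true := ex3_b k2_pp_101 s7_pp_101

theorem s9_pp_101 : ∃ t, chk3 f_pp_101 t 1 3 1 = true := ex3_b k1_pp_101 s8_pp_101

theorem s10_pp_101 : ∃ t, chk3 f_pp_101 t 1 1 1 = true := ex3_b k0_pp_101 s9_pp_101

theorem c_pp_101 : CertFX 536870912 536870912 536870912 536870912 1046898278 26843546 false true true .npn 1 0 1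
    ndF3q1 ndF0q1 pcF0 cut_pp_101 Ext.none :=
  certFX0 (fam := false) (s1 := true) (s2 := true) (a := 1) (b := 0) (c := 1) (cn := .npn) (n1 := ndF3q1) (n2 := ndF0q1) (pc := pcF0) (cut := cut_pp_101) (xt := Ext.none) (P1 := 536870912) (W1 := 536870912) (P2 := 536870912) (W2 := 536870912) (P3 := 1046898278) (W3 := 26843546)
    rfl s10_pp_101

noncomputable def cut_pp_102 : Cut := Cut.of [[⟨0, 1, 0, 67108864⟩, ⟨1, 0, 0, 67108864⟩, ⟨2, 1, 0, 67108864⟩]]

noncomputable def f_pp_102 : ℕ → ℕ → ℕ → ℕ → Bool := onCell 0 536870912 0 536870912 1046898278 26843546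
    (rowFX 2 false true true .npp 1 0 2 (qsf 536870912 536870912 0 536870912 0) ndF3q1 ndF0q2 pcF0 cut_pp_102 Ext.none)

def k0_pp_102 : ∃ t, chk3 f_pp_102 t 4 2 1 = true :=
  ⟨(a (l 2) (b (l 2) (a (l 2) (b (l 2) (b (l 2) (c (l 14241080) (l 14199088))))))), by decide +kernel⟩

def k1_pp_102 : ∃ t, chk3 f_pp_102 t 8 3 1 = true :=
  ⟨(b (l 2) (a (b (l 2) (l 6)) (a (b (b (l 2) (l 6)) (l 6)) (b (b (a (l 2) (b (l 2) (c (c (c (l 15422232) (l 15407488)) (l 15400480)) (c (l 15392640) (l 15389808))))) (a (l 6) (a (l 6) (a (l 6) (c (b (c (l 15591808) (l 15588464)) (l 15687472)) (b (c (l 15584336) (l 15669720)) (l 15971488))))))) (a (l 6) (a (l 6) (a (l 6) (a (l 6) (b (c (b (b (l 16100056) (l 16218464)) (c (l 16358248) (l 16486784))) (b (l 16275432) (l 16597728))) (c (b (c (c (l 16328208) (l 16347816)) (b (l 16528168) (l 16398192))) (b (c (c (l 16293440) (l 16261736)) (l 16257280)) (a (l 6) (c (b (l 16127768) (b (l 16117816) (l 16084408))) (l 16123552))))) (c (b (l 16375992) (b (l 16220528) (l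 16077128))) (b (l 16438016) (b (l 16244696) (b (c (l 16152864) (l 16153752)) (c (l 16079400) (b (c (l 16096360) (l 16096624)) (c (l 16059176) (b (l 16047304) (c (l 16048976) (b (l 16053520) (l 16043936))))))))))))))))))))), by decide +kernel⟩

def k2_pp_102 : ∃ t, chk3 f_pp_102 t 9 6 1 = true :=
  ⟨(b (a (l 2) (c (a (b (l 14340296) (l 14465472)) (b (l 14398408) (l 14584312))) (a (b (l 14283184) (a (l 14411080) (l 14454312))) (b (c (l 14383032) (l 14378184)) (c (l 14603296) (l 14617944)))))) (b (a (a (l 2) (c (l 14661936) (b (l 14545936) (l 14710096)))) (a (c (b (l 14611312) (a (l 14751648) (l 14819216))) (a (b (l 14562592) (l 14750848)) (l 14746168))) (c (b (l 14635280) (l 14968384)) (l 14891968)))) (a (a (a (l 2) (c (l 14983104) (l 14740104))) (c (b (l 14906736) (c (l 15054784) (l 15053864))) (b (a (l 14860680) (l 14899072)) (c (l 14956792) (l 15123032))))) (c (a (b (a (c (l 14905832) (l 14946664)) (l 15019368)) (a (c (l 15115096) (l 15181360)) (l 15259120))) (c (l 15199792) (l 15370232)))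 (a (a (c (l 15115360) (l 15141728)) (l 15239224)) (l 15406408)))))), by decide +kernel⟩

def k3_pp_102 : ∃ t, chk3 f_pp_102 t 9 14 1 = true :=
  ⟨(a (c (b (a (a (c (l 15159248) (l 15117488)) (b (l 15218296) (c (l 15406936) (l 15379392)))) (b (a (c (l 15236696) (l 15264384)) (l 15167144)) (a (b (l 15369696) (l 15558352)) (l 15578736)))) (a (b (a (c (l 15602768) (b (l 15554440) (l 15681080))) (b (c (l 15568248) (l 15622552)) (l 15762192))) (a (c (l 15871576) (l 15947960)) (c (l 15966632) (l 16064904)))) (b (c (l 15805392) (l 15886504)) (c (l 15993800) (l 16117872))))) (a (b (b (c (a (l 15205848) (l 15232200)) (a (l 15200400) (l 15251280))) (a (c (l 15409944) (b (l 15364928) (l 15501560))) (c (l 15483632) (l 15526264)))) (b (c (a (b (l 15598224) (l 15754480)) (l 15787608)) (l 15616144)) (l 15816416))) (b (b (c (l 15269496) (l 15385560)) (c (l 15630600) (l 15643624))) (b (l 15921424) (l 16215760))))) (a (c (b (a (b (b (l 15331152) (l 15491736)) (l 15705888)) (l 15602280)) (b (a (l 15995328)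 (l 16103136)) (a (c (l 16138096) (l 16307136)) (l 16340600)))) (b (b (l 15294728) (l 15806784)) (b (l 15962352) (l 16108800)))) (b (c (b (l 15743728) (l 15977784)) (l 15877824)) (b (c (l 16189752) (l 16247216)) (l 16412816))))), by decide +kernel⟩

def k4_pp_102 : ∃ t, chk3 f_pp_102 t 9 30 1 = true :=
  ⟨(a (c (c (a (b (a (l 16055712) (l 16191712)) (a (l 16358272) (l 16433000))) (b (b (l 16303712) (l 16377872)) (a (a (l 16461272) (l 16381424)) (l 16378784)))) (a (b (a (l 16181120) (b (l 16324744) (l 16482824))) (b (l 16401608) (l 16415608))) (b (l 16360928) (l 16470776)))) (a (b (a (l 16188696) (l 16419296)) (b (l 16524496) (l 16495048))) (b (b (l 16432176) (l 16574824)) (l 16429744)))) (a (c (b (a (c (l 16470800) (l 16585016)) (l 16660160)) (c (l 16285408) (l 16334224))) (b (l 16453848) (l 16332744))) (b (l 16352304) (c (l 16081120) (l 16247352))))), by decide +kernel⟩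

def k5_pp_102 : ∃ t, chk3 f_pp_102 t 18 31 2 = true :=
  ⟨(a (b (b (a (c (l 16418296) (l 16492472)) (c (l 16354368) (l 16457040))) (a (c (b (l 16422296) (c (l 16333408) (l 16328448))) (l 16323264)) (c (a (a (l 16290456) (l 16252296)) (l 16272264)) (l 16206912)))) (b (a (c (c (a (l 16242096) (b (l 16252744) (l 16179240))) (l 16182528)) (l 16220304)) (c (b (l 16197984) (l 16125496)) (l 16156632))) (a (a (c (c (b (c (l 16133096) (l 16144896)) (b (l 16097456) (l 16063208))) (l 16107536)) (l 16101256)) (b (l 16101696) (l 16030864))) (c (b (l 16053728) (a (l 15996080) (l 15966168))) (b (l 16044592) (l 15970928)))))) (b (b (c (a (l 16392672) (l 16337640)) (l 16313880)) (c (b (l 16259432) (l 16185200)) (l 16062920))) (b (c (l 16013384) (l 16070744)) (b (c (l 15905848) (l 15958464)) (c (a (c (l 15926640) (l 15921160)) (c (b (l 15889616) (l 15853176)) (l 15865536))) (l 15863768)))))), by decide +kernel⟩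

def k6_pp_102 : ∃ t, chk3 f_pp_102 t 18 31 3 = true :=
  ⟨(b (a (b (a (l 16518976) (l 16463896)) (a (b (l 16412840) (c (l 16341056) (l 16341960))) (c (b (l 16359792) (l 16285784)) (b (l 16358192) (l 16285968))))) (b (a (l 16410448) (l 16356656)) (c (b (l 16278808) (l 16198648)) (l 16133248)))) (a (b (b (a (c (l 16263424) (l 16267496)) (c (l 16201496) (l 16204752))) (a (c (l 16185424) (c (l 16189848) (l 16188688))) (c (l 16118288) (l 16121240)))) (a (c (b (l 16109064) (a (l 16058968) (l 16016688))) (b (c (b (l 16129136) (l 16088712)) (a (l 16087384) (l 16090384))) (c (a (l 16031840) (l 16010112)) (a (b (c (l 16070336) (l 16070512)) (c (l 16031864) (a (b (c (l 16051552) (l 16051616)) (c (l 16032432) (b (l 16037072) (l 16027264)))) (l 15999424)))) (b (l 16029464) (l 15988224)))))) (c (b (l 16036856) (l 15960768)) (b (c (l 16036256) (l 16036384)) (c (l 15953624) (a (l 15967768) (l 15936520))))))) (c (b (b (l 16114544) (l 16031104)) (a (l 15940368) (l 15883376))) (b (l 16032200) (b (c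 (l 15948072) (l 15947608)) (c (l 15865368) (a (l 15892352) (l 15834376)))))))), by decide +kernel⟩

def k7_pp_102 : ∃ t, chk3 f_pp_102 t 19 31 1 = true :=
  ⟨(c (b (a (b (a (c (l 16285920) (l 16299496)) (l 16052432)) (c (l 16000112) (l 16089232))) (b (c (a (l 16130296) (l 16033136)) (l 15838464)) (c (a (l 15984104) (l 15878024)) (l 15827664)))) (a (b (a (c (l 15994120) (l 15987432)) (c (b (l 15962808) (l 15891744)) (l 15918752))) (c (b (a (l 15886672) (a (l 15839888) (l 15795400))) (a (c (b (l 15835336) (a (l 15812432) (a (l 15792280) (b (l 15787120) (a (a (l 15774760) (l 15770672)) (l 15762664)))))) (l 15810320)) (a (a (b (l 15793840) (l 15752536)) (l 15750048)) (l 15714992)))) (a (l 15837920) (l 15742696)))) (c (a (b (l 15835696) (a (l 15686760) (l 15660312))) (b (l 15729416) (l 15583536))) (b (l 15646528) (a (l 15669512) (l 15567584)))))) (b (a (b (a (l 16303152) (l 16227560)) (c (l 16012624) (l 16072336))) (b (a (l 16016120) (l 15978312)) (c (a (l 15993112) (l 15883904)) (a (l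 15988160) (l 15877384))))) (a (b (c (a (l 15988968) (b (l 15961296) (l 15878008))) (a (l 15988512) (b (l 15961280) (l 15877664)))) (c (a (l 15742976) (b (l 15793400) (l 15710816))) (a (b (l 15780608) (c (l 15779472) (b (l 15798584) (l 15755216)))) (b (c (l 15769312) (l 15788728)) (c (l 15701072) (b (l 15721400) (l 15674224))))))) (b (c (b (l 15666280) (l 15664416)) (a (l 15676384) (l 15712144))) (c (a (l 15551152) (l 15489648)) (b (c (a (l 15691864) (l 15585728)) (l 15510000)) (c (a (l 15604688) (l 15501656)) (a (b (l 15623120) (l 15578128)) (b (l 15518560) (l 15475136)))))))))), by decide +kernel⟩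

def k8_pp_102 : ∃ t, chk3 f_pp_102 t 5 2 1 = true :=
  ⟨(a (c (b (a (l 13936000) (b (l 14173648) (l 14154152))) (a (b (l 14154280) (b (l 14317032) (a (l 14360496) (l 14555456)))) (b (l 14300552) (a (l 14540664) (l 15020536))))) (b (a (b (l 13823368) (a (l 2) (l 13983120))) (b (c (l 14185832) (l 14192016)) (c (l 14322976) (l 14327776)))) (a (b (a (l 14038896) (b (l 14105944) (l 14233800))) (b (a (l 14200968) (l 14406400)) (a (c (l 14360808) (l 14367768)) (l 14614896)))) (b (l 14556720) (b (l 14799776) (l 14981600)))))) (b (a (c (b (l 14757128) (l 14870416)) (b (l 14754976) (l 14859552))) (b (l 15329648) (l 15332408))) (a (b (c (l 15075400) (l 15054072)) (c (l 15179264) (b (l 15253280) (l 15421544)))) (b (c (l 15614184) (l 15583976)) (c (l 15710960) (a (l 15701304) (l 16042392))))))), by decide +kernel⟩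

def k9_pp_102 : ∃ t, chk3 f_pp_102 t 5 6 1 = true :=
  ⟨(a (b (a (c (b (a (l 14548184) (l 14794120)) (a (c (l 14776408) (l 14827312)) (l 15076008))) (b (a (l 14589816) (l 14849024)) (a (l 14860896) (l 15098096)))) (c (b (a (l 15092416) (l 15325336)) (c (l 15376064) (l 15439960))) (b (l 15197144) (a (l 15314480) (l 15514072))))) (a (a (b (c (c (b (l 15025048) (l 15262344)) (l 15198440)) (l 15199752)) (a (c (l 15555608) (l 15561728)) (l 15420488))) (b (c (c (l 15417112) (l 15423344)) (l 15402368)) (l 15697112))) (b (c (l 15708584) (a (l 15599752) (l 15801152))) (a (l 16009184) (l 16202368))))) (a (b (c (b (l 15637024) (l 15855336)) (b (l 15608440) (l 15830240))) (b (l 15971080) (l 16281576))) (b (b (a (l 15999368) (l 16345752)) (a (l 16235512) (l 16569536))) (b (a (l 16527656) (l 16763640)) (b (l 16459888) (l 16560296)))))), by decide +kernel⟩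

def k10_pp_102 : ∃ t, chk3 f_pp_102 t 10 14 1 = true :=
  ⟨(a (b (a (c (l 15872304) (l 16072400)) (b (l 16147528) (l 16348584))) (b (a (l 16389128) (l 16527376)) (a (l 16525824) (l 16279696)))) (b (a (b (l 16323024) (l 16554184)) (l 16437192)) (b (l 16257808) (l 16067952)))), by decide +kernel⟩

def k11_pp_102 : ∃ t, chk3 f_pp_102 t 10 30 1 = true :=
  ⟨(a (b (a (c (l 16304928) (l 16297336)) (l 15969240)) (b (c (a (l 16167696) (l 15949488)) (l 15856496)) (c (a (l 15874168) (l 15739848)) (a (l 15971840) (l 15788952))))) (b (a (l 15930352) (c (l 15841080) (l 15775160))) (c (a (c (l 15681832) (l 15677384)) (a (b (l 15667416) (l 15577880)) (l 15667944))) (a (b (l 15749584) (l 15546432)) (a (b (l 15643248) (l 15556856)) (l 15647168)))))), by decide +kernel⟩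

def k12_pp_102 : ∃ t, chk3 f_pp_102 t 20 31 1 = true :=
  ⟨(b (b (c (a (c (l 15864736) (l 15872136)) (l 15592968)) (a (l 15698744) (l 15604496))) (c (a (c (l 15714176) (l 15713632)) (l 15342184)) (a (c (l 15715120) (l 15706128)) (c (l 15503288) (l 15491120))))) (c (a (a (b (l 15618344) (a (l 15498624) (l 15448064))) (b (l 15514536) (l 15373304))) (a (b (l 15413408) (l 15275616)) (a (b (l 15339960) (a (l 15215944) (c (l 15190264) (b (l 15215560) (l 15138816))))) (b (l 15296096) (b (c (a (l 15220840) (l 15221640)) (l 15181288)) (l 15185216)))))) (b (c (a (b (l 15594000) (l 15512824)) (b (l 15386728) (a (l 15357920) (l 15198176)))) (a (b (l 15588656) (l 15423272)) (a (l 15388696) (a (l 15312336) (c (l 15250800) (l 15262760)))))) (a (c (b (l 15433376) (l 15233272)) (b (c (l 15300472) (l 15380168)) (c (a (l 15396976) (l 15294488)) (b (c (l 15360432) (l 15358128)) (c (l 15319480) (a (l 15368240) (l 15265288))))))) (a (c (b (l 15281160) (l 15209584)) (b (c (l 15272336) (l 15266976)) (c (l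 15194208) (b (l 15186328) (c (l 15168048) (l 15143512)))))) (c (a (b (l 15207400) (a (l 15149088) (b (l 15124856) (l 15104104)))) (b (a (l 15178824) (l 15179600)) (l 15152048))) (b (a (c (l 15197712) (l 15191776)) (a (b (l 15180072) (c (l 15151008) (l 15145584))) (c (b (l 15176640) (l 15160776)) (l 15163384)))) (a (c (a (l 15133000) (b (l 15129904) (l 15108208))) (b (a (l 15145008) (b (l 15130640) (c (l 15115256) (l 15112464)))) (a (b (l 15114304) (b (l 15099600) (l 15090936))) (b (c (l 15102800) (a (l 15097584) (l 15100872))) (c (l 15095352) (l 15090584)))))) (c (l 15135952) (b (c (l 15135136) (l 15131960)) (c (l 15123232) (l 15119480)))))))))))), by decide +kernel⟩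

def k13_pp_102 : ∃ t, chk3 f_pp_102 t 21 31 1 = true :=
  ⟨(b (c (a (b (a (l 15521280) (c (l 15471248) (l 15472464))) (a (b (l 15410440) (l 15265184)) (l 15394376))) (c (l 15522608) (l 15520768))) (a (b (a (l 15507600) (c (l 15465736) (l 15447800))) (a (a (l 15316536) (c (l 15275552) (l 15345016))) (c (l 15384800) (l 15370688)))) (c (l 15516080) (l 15501232)))) (c (b (a (a (b (a (l 15272720) (l 15303632)) (l 15248680)) (l 15345504)) (l 15444376)) (c (l 15350960) (a (l 15265568) (l 15395368)))) (b (c (a (a (a (b (l 15279088) (l 15230912)) (l 15276344)) (l 15328024)) (l 15324184)) (a (a (b (a (l 15268904) (l 15279120)) (b (l 15243720) (l 15228728))) (l 15317656)) (l 15420104))) (b (c (l 15216840) (c (a (l 15245488) (l 15379512)) (a (l 15239832) (l 15374808)))) (c (a (l 15236128) (l 15366880)) (c (a (l 15220904) (l 15353064)) (a (b (c (l 15220840) (l 15217952)) (b (l 15146888) (l 15162032))) (b (l 15354072) (c (l 15340792) (l 15337800)))))))))), by decide +kernel⟩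

def k14_pp_102 : ∃ t, chk3 f_pp_102 t 11 7 1 = true :=
  ⟨(b (a (b (b (l 16455568) (a (l 16433944) (l 16346624))) (b (a (l 16208784) (l 16219448)) (a (l 15905720) (l 16108864)))) (b (l 16384352) (c (l 16247848) (l 16234064)))) (a (b (b (c (l 15940800) (l 15919544)) (c (c (l 15693064) (l 15732400)) (a (l 15753088) (l 15888736)))) (c (b (c (l 15716528) (b (l 15749016) (l 15684360))) (a (b (l 15571440) (l 15528744)) (c (l 15676768) (b (l 15686696) (l 15640192))))) (b (c (b (l 15746280) (l 15601184)) (a (l 15637848) (l 15768496))) (c (b (c (l 15620792) (l 15453280)) (a (l 15483152) (l 15625968))) (b (a (l 15551944) (l 15678440)) (a (b (c (l 15508472) (l 15504704)) (c (l 15480416) (b (l 15482760) (l 15446800)))) (c (b (l 15632416) (l 15602976)) (b (l 15629600) (c (l 15599184) (l 15597864)))))))))) (b (b (b (l 16101344) (c (a (l 16060384) (l 16063744)) (a (l 16041176) (l 16044656)))) (c (a (a (l 15977776) (l 15987672)) (l 15990888)) (a (a (l 15966352) (l 15976568)) (l 15979888)))) (c (a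 (b (c (l 15848696) (b (l 15902256) (l 15842312))) (a (b (l 15775416) (l 15731672)) (a (l 15788440) (l 15802240)))) (b (c (l 15887640) (l 15891464)) (c (l 15807104) (l 15796464)))) (a (b (b (l 15834040) (a (l 15826504) (l 15794472))) (c (b (a (l 15767800) (l 15806240)) (a (l 15711936) (l 15758128))) (c (b (l 15723768) (a (l 15705472) (b (l 15763792) (l 15739112)))) (b (l 15781416) (b (l 15739520) (a (l 15687032) (l 15736120))))))) (b (c (l 15892440) (l 15883248)) (c (b (l 15812816) (l 15766016)) (b (l 15809760) (c (l 15760216) (l 15758784)))))))))), by decide +kernel⟩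

def k15_pp_102 : ∃ t, chk3 f_pp_102 t 3 2 1 = true :=
  ⟨(a (b (a (a (b (l 15963736) (l 16064368)) (b (l 16592904) (c (l 16664272) (l 16661344)))) (c (l 16772056) (l 16771920))) (a (b (a (l 16098208) (b (l 16729912) (l 16764656))) (a (a (l 16312624) (l 16420536)) (l 16770456))) (b (c (l 16773720) (l 16773624)) (l 16775184)))) (b (c (c (l 16777216) (l 16777216)) (c (l 16777216) (l 16777216))) (b (c (l 16777216) (l 16777216)) (a (l 16777216) (l 16777216))))), by decide +kernel⟩

def k16_pp_102 : ∃ t, chk3 f_pp_102 t 3 6 1 = true :=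
  ⟨(b (b (a (a (l 16509896) (l 16776416)) (c (l 16777216) (l 16777216))) (a (a (l 16775736) (l 16776928)) (c (l 16777216) (l 16777216)))) (a (a (b (l 16724304) (l 16587184)) (b (l 16728576) (l 16590024))) (b (c (l 16729216) (l 16727968)) (c (l 16592424) (l 16587624))))), by decide +kernel⟩

def k17_pp_102 : ∃ t, chk3 f_pp_102 t 6 7 1 = true :=
  ⟨(b (b (a (l 16432080) (l 16433656)) (a (l 16224896) (a (c (l 16253288) (l 16218704)) (b (l 16300424) (c (l 16198992) (l 16183968)))))) (c (b (a (c (b (l 16098800) (l 15992968)) (b (l 16084840) (l 15992768))) (a (b (l 16088264) (l 15991624)) (c (l 16045240) (l 16044168)))) (b (a (c (l 15887744) (a (l 15891568) (l 15891568))) (c (l 15887744) (a (l 15891568) (l 15891568)))) (a (a (c (l 15807104) (l 15796464)) (c (l 15807104) (l 15796464))) (a (l 15760456) (l 15802400))))) (b (a (a (b (l 16071376) (l 15980656)) (c (l 16031272) (l 16021768))) (a (b (l 16071520) (l 15980656)) (c (l 16031272) (l 16021768)))) (a (c (b (a (l 15892544) (l 15892544))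 (a (b (l 15812816) (l 15766016)) (b (l 15812816) (l 15766016)))) (b (a (l 15883352) (l 15883352)) (a (b (l 15809760) (c (l 15760216) (l 15758784))) (b (l 15809760) (c (l 15760216) (l 15758784)))))) (c (b (a (l 15892544) (l 15892544)) (a (b (l 15812816) (l 15766016)) (l 15770040))) (b (l 15883352) (a (b (l 15809760) (c (l 15760216) (l 15758784))) (c (l 15788344) (l 15786320))))))))), by decide +kernel⟩

def k18_pp_102 : ∃ t, chk3 f_pp_102 t 7 7 1 = true :=
  ⟨(a (b (b (l 16433656) (b (l 16300424) (c (c (l 16202744) (l 16195232)) (c (l 16187728) (l 16180216))))) (b (c (c (l 16045240) (l 16044168)) (c (l 16031272) (a (l 16021768) (l 16021768)))) (c (c (l 15807440) (b (l 15891568) (l 15796464))) (c (b (l 15892544) (a (l 15791016) (l 15791016))) (b (l 15883352) (a (b (l 15809760) (l 15718312)) (b (l 15809760) (l 15718312)))))))) (b (b (l 16433656) (c (c (l 16256688) (a (l 16249888) (l 16249888))) (c (a (l 16243080) (l 16243080)) (a (l 16236280) (l 16236280))))) (c (b (c (l 16045240) (l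 16044168)) (c (l 15849384) (b (l 15891568) (l 15796464)))) (b (c (l 16010296) (a (l 16021768) (l 16021768))) (c (b (l 15892544) (a (l 15791016) (l 15791016))) (b (a (l 15883352) (l 15883352)) (a (c (l 15788344) (l 15786320)) (c (l 15788344) (l 15786320))))))))), by decide +kernel⟩

theorem s19_pp_102 : ∃ t, chk3 f_pp_102 t 3 7 1 = true := ex3_a k17_pp_102 k18_pp_102

theorem s20_pp_102 : ∃ t, chk3 f_pp_102 t 3 3 1 = true := ex3_b k16_pp_102 s19_pp_102

theorem s21_pp_102 : ∃ t, chk3 f_pp_102 t 3 1 1 = true := ex3_b k15_pp_102 s20_pp_102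

theorem s22_pp_102 : ∃ t, chk3 f_pp_102 t 10 31 1 = true := ex3_a k12_pp_102 k13_pp_102

theorem s23_pp_102 : ∃ t, chk3 f_pp_102 t 10 15 1 = true := ex3_b k11_pp_102 s22_pp_102

theorem s24_pp_102 : ∃ t, chk3 f_pp_102 t 10 7 1 = true := ex3_b k10_pp_102 s23_pp_102

theorem s25_pp_102 : ∃ t, chk3 f_pp_102 t 5 7 1 = true := ex3_a s24_pp_102 k14_pp_102

theorem s26_pp_102 : ∃ t, chk3 f_pp_102 t 5 3 1 = true := ex3_b k9_pp_102 s25_pp_102

theorem s27_pp_102 : ∃ t, chk3 f_pp_102 t 5 1 1 = true := ex3_b k8_pp_102 s26_pp_102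

theorem s28_pp_102 : ∃ t, chk3 f_pp_102 t 18 31 1 = true := ex3_c k5_pp_102 k6_pp_102

theorem s29_pp_102 : ∃ t, chk3 f_pp_102 t 9 31 1 = true := ex3_a s28_pp_102 k7_pp_102

theorem s30_pp_102 : ∃ t, chk3 f_pp_102 t 9 15 1 = true := ex3_b k4_pp_102 s29_pp_102

theorem s31_pp_102 : ∃ t, chk3 f_pp_102 t 9 7 1 = true := ex3_b k3_pp_102 s30_pp_102

theorem s32_pp_102 : ∃ t, chk3 f_pp_102 t 9 3 1 = true := ex3_b k2_pp_102 s31_pp_102

theorem s33_pp_102 : ∃ t, chk3 f_pp_102 t 4 3 1 = true := ex3_a k1_pp_102 s32_pp_102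

theorem s34_pp_102 : ∃ t, chk3 f_pp_102 t 4 1 1 = true := ex3_b k0_pp_102 s33_pp_102

theorem s35_pp_102 : ∃ t, chk3 f_pp_102 t 2 1 1 = true := ex3_a s34_pp_102 s27_pp_102

theorem s36_pp_102 : ∃ t, chk3 f_pp_102 t 1 1 1 = true := ex3_a s35_pp_102 s21_pp_102

theorem c_pp_102 : CertFX 536870912 536870912 0 536870912 1046898278 26843546 false true true .npp 1 0 2
    ndF3q1 ndF0q2 pcF0 cut_pp_102 Ext.none :=
  certFX2 (fam := false) (s1 := true) (s2 := true) (a := 1) (b := 0) (c := 2) (cn := .npp) (n1 := ndF3q1) (n2 := ndF0q2) (pc := pcF0) (cut := cut_pp_102) (xt := Ext.none) (P1 := 536870912) (W1 := 536870912) (P2 := 0) (W2 := 536870912) (P3 := 1046898278) (W3 := 26843546)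
    rfl (fun _ => rfl) s36_pp_102

noncomputable def f_pp_112 : ℕ → ℕ → ℕ → ℕ → Bool := onCell 536870912 536870912 0 536870912 1046898278 26843546
    (rowFX 2 false true true .dn 1 1 2 (qsf 536870912 536870912 0 536870912 1) ndF3q1 ndF0q2 pcF1 Cut.none Ext.none)

def k0_pp_112 : ∃ t, chk3 f_pp_112 t 1 1 1 = true :=
  ⟨(a (a (b (b (b (c (l 16777216) (l 16777216)) (l 16777216)) (b (l 16777216) (c (l 16777216) (l 16777216)))) (b (b (c (l 16777216) (l 16777216)) (b (c (l 16729216) (l 16727968)) (c (l 16592424) (l 16587624)))) (a (b (b (l 16433656) (c (c (l 16256688) (l 16124056)) (c (a (l 16243080) (l 16243080)) (a (l 16236280) (l 16236280))))) (a (c (b (l 16024552) (c (l 15849384) (l 15846848))) (b (c (l 16031272) (l 16021768)) (c (b (l 15892544) (l 15791016)) (c (l 15758816) (l 28485556311))))) (b (c (l 16024552) (l 388726362647)) (l 1)))) (b (b (c (l 16438056) (l 16429248)) (l 1)) (l 1))))) (b (a (b (c (l 16777216) (l 16777216)) (b (l 16777216) (l 1669165219831))) (l 1)) (b (l 1) (l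 1)))) (l 1)), by decide +kernel⟩

theorem c_pp_112 : CertFX 536870912 536870912 0 536870912 1046898278 26843546 false true true .dn 1 1 2
    ndF3q1 ndF0q2 pcF1 Cut.none Ext.none :=
  certFX2 (fam := false) (s1 := true) (s2 := true) (a := 1) (b := 1) (c := 2) (cn := .dn) (n1 := ndF3q1) (n2 := ndF0q2) (pc := pcF1) (cut := Cut.none) (xt := Ext.none) (P1 := 536870912) (W1 := 536870912) (P2 := 0) (W2 := 536870912) (P3 := 1046898278) (W3 := 26843546)
    rfl (fun _ => rfl) k0_pp_112

noncomputable def f_pp_202 : ℕ → ℕ → ℕ → ℕ → Bool := onCell 1073741824 536870912 0 536870912 1046898278 26843546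
    (rowFX 0 false true true .pp 2 0 2 (qsf 1073741824 536870912 0 536870912 0) ndF3q2 ndF0q2 pcF0 Cut.none Ext.none)

def k0_pp_202 : ∃ t, chk3 f_pp_202 t 1 1 1 = true :=
  ⟨(l 3), by decide +kernel⟩

theorem c_pp_202 : CertFX 1073741824 536870912 0 536870912 1046898278 26843546 false true true .pp 2 0 2
    ndF3q2 ndF0q2 pcF0 Cut.none Ext.none :=
  certFX0 (fam := false) (s1 := true) (s2 := true) (a := 2) (b := 0) (c := 2) (cn := .pp) (n1 := ndF3q2) (n2 := ndF0q2) (pc := pcF0) (cut := Cut.none) (xt := Ext.none) (P1 := 1073741824) (W1 := 536870912) (P2 := 0) (W2 := 536870912) (P3 := 1046898278) (W3 := 26843546)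
    rfl k0_pp_202

noncomputable def f_pm_001 : ℕ → ℕ → ℕ → ℕ → Bool := onCell 0 536870912 0 536870912 1046898278 26843546
    (rowFX 1 false true false .up 0 0 1 (qsf 0 536870912 536870912 536870912 0) ndF3q0 ndF0q1 pcF0 Cut.none Ext.none)

def k0_pm_001 : ∃ t, chk3 f_pm_001 t 1 1 1 = true :=
  ⟨(a (l 4) (l 4)), by decide +kernel⟩

theorem c_pm_001 : CertFX 0 536870912 536870912 536870912 1046898278 26843546 false true false .up 0 0 1
    ndF3q0 ndF0q1 pcF0 Cut.none Ext.none :=
  certFX1 (fam := false) (s1 := true) (s2 := false) (a := 0) (b := 0) (c := 1) (cn := .up) (n1 := ndF3q0) (n2 := ndF0q1) (pc := pcF0) (cut := Cut.none) (xt := Ext.none) (P1 := 0) (W1 := 536870912) (P2 := 536870912) (W2 := 536870912) (P3 := 1046898278) (W3 := 26843546)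
    rfl (fun _ => rfl) k0_pm_001

noncomputable def cut_pm_011 : Cut := Cut.of [[⟨0, 0, 0, 67108864⟩, ⟨1, 1, 0, 67108864⟩, ⟨2, 1, 0, 67108864⟩]]

noncomputable def f_pm_011 : ℕ → ℕ → ℕ → ℕ → Bool := onCell 0 536870912 536870912 536870912 1046898278 26843546
    (rowFX 0 false true false .pnn 0 1 1 (qsf 0 536870912 536870912 536870912 1) ndF3q0 ndF0q1 pcF1 cut_pm_011 Ext.none)

def k0_pm_011 : ∃ t, chk3 f_pm_011 t 1 1 1 = true :=
  ⟨(b (l 4) (a (b (l 4) (a (b (l 4) (a (b (l 4) (a (b (l 4) (l 6)) (l 4))) (l 4))) (l 4))) (l 4))), by decide +kernel⟩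

theorem c_pm_011 : CertFX 0 536870912 536870912 536870912 1046898278 26843546 false true false .pnn 0 1 1
    ndF3q0 ndF0q1 pcF1 cut_pm_011 Ext.none :=
  certFX0 (fam := false) (s1 := true) (s2 := false) (a := 0) (b := 1) (c := 1) (cn := .pnn) (n1 := ndF3q0) (n2 := ndF0q1) (pc := pcF1) (cut := cut_pm_011) (xt := Ext.none) (P1 := 0) (W1 := 536870912) (P2 := 536870912) (W2 := 536870912) (P3 := 1046898278) (W3 := 26843546)
    rfl k0_pm_011

end Pool.Agent.Strip051.G.IE1.Tab.C.FB30

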