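import Pool.Agent.Strip051.G.IE1.Tab

/-! # Certificates F46 (generated) -/

set_option linter.all false
set_option maxRecDepth 100000

namespace Pool.Agent.Strip051.G.IE1.Tab.C.FB30

open Pool.Agent.Strip051.PB Pool.Agent.Strip051.PB.T
open Pool.Agent.Strip051.G.IE1.Tab

noncomputable def cut_pm_012 : Cut := Cut.of [[⟨0, 0, 0, 67108864⟩, ⟨1, 1, 0, 67108864⟩, ⟨2, 1, 0, 67108864⟩]]

noncomputable def f_pm_012 : ℕ → ℕ → ℕ → ℕ → Bool := onCell 536870912 536870912 0 536870912 1046898278 26843546
    (rowFX 2 false true false .pnp 0 1 2 (qsf 0 536870912 0 536870912 1) ndF3q0 ndF0q2 pcF1 cut_pm_012 Ext.none)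

def k0_pm_012 : ∃ t, chk3 f_pm_012 t 2 1 1 = true :=
  ⟨(b (a (b (l 2) (c (l 126802198535) (l 16777216))) (b (c (b (l 16777216) (l 16777216)) (b (l 16777216) (l 16777216))) (b (a (b (l 16777216) (l 16763560)) (a (b (l 16777216) (l 16767384)) (l 16777216))) (a (a (l 16747400) (l 16655720)) (b (a (l 16696544) (l 16718696)) (l 16481840)))))) (b (b (a (a (l 2) (l 4)) (b (a (a (l 16730976) (l 16556944)) (a (l 16372728) (l 16205944))) (l 4))) (l 4)) (l 4))), by decide +kernel⟩

def k1_pm_012 : ∃ t, chk3 f_pm_012 t 6 1 1 = true :=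
  ⟨(b (a (b (c (l 16776816) (b (l 16775112) (l 16899776))) (b (a (l 16777184) (b (l 16768720) (a (l 16764144) (l 16755144)))) (a (b (l 16741016) (b (l 16666432) (l 16423048))) (b (a (l 16684792) (l 16605560)) (a (l 16442424) (l 16253072)))))) (b (a (c (l 16764944) (l 16764624)) (b (c (l 16692824) (l 16690632)) (c (l 16654672) (l 16651488)))) (a (a (b (b (l 16768728) (l 16756088)) (b (b (c (l 16727296) (l 16730392)) (l 16528240)) (l 16178320))) (b (l 16765280) (b (b (c (l 16742080) (l 16752312)) (a (l 16556064) (b (l 16744744) (l 16554960)))) (b (a (l 16308888) (l 16392216)) (l 16075712))))) (b (a (l 16742920) (l 16492424)) (a (b (a (c (l 16731280) (c (l 16740528) (l 16746904))) (c (l 16627232) (l 16489888))) (b (a (b (c (l 16509776) (l 16516440)) (l 16328072)) (a (c (l 16539744) (l 16442888)) (b (l 16399160) (l 16240808)))) (l 16106296))) (b (l 16449224) (b (c (a (b (l 16463856) (l 16440344)) (l 16309072)) (a (a (b (l 16510736) (l 16333360)) (l 16345176)) (l 16223944))) (a (b (l 15999760)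 (l 16063608)) (b (a (c (l 16270800) (l 16182600)) (l 16156528)) (l 15935656)))))))))) (b (b (b (a (a (l 15929552) (l 15756304)) (a (b (a (l 15990384) (l 15841760)) (l 15706448)) (a (b (l 15771576) (a (l 15551080) (l 15526616))) (b (l 15846520) (l 15515272))))) (a (a (l 15716992) (b (l 15617728) (l 4))) (a (a (l 15516512) (l 15395576)) (b (a (l 15347816) (l 15337528)) (a (l 15193552) (l 15114968)))))) (b (a (l 4) (a (l 4) (b (a (l 15141720) (l 14994784)) (l 4)))) (l 4))) (l 4))), by decide +kernel⟩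

def k2_pm_012 : ∃ t, chk3 f_pm_012 t 7 2 1 = true :=
  ⟨(a (b (a (b (c (l 16371616) (l 16361080)) (c (l 16234504) (l 16220408))) (b (c (l 16114072) (l 16096856)) (c (l 15906424) (l 15883840)))) (b (a (l 16033656) (c (l 15731568) (l 15704536))) (a (a (b (l 16147632) (b (l 16110872) (a (c (l 16024624) (a (b (l 16176504) (l 16090736)) (l 16092576))) (l 15850224)))) (l 15834064)) (c (l 15607456) (l 15577368))))) (b (a (c (b (b (l 16076784) (l 15932296)) (l 15510240)) (b (l 16005912) (l 15743944))) (b (b (c (l 16107008) (l 15943752)) (c (l 15925728) (l 15742848))) (c (a (l 15666776) (l 15685176)) (a (l 15700520) (c (l 15681648) (l 15685936)))))) (a (c (b (l 15484792) (a (l 15438008) (l 15311040))) (b (l 15532968) (l 15376368))) (c (b (a (l 15397128) (l 15399528)) (a (l 15190296) (l 15181768))) (b (a (l 15442672) (l 15190904)) (a (l 15247704) (c (l 15178376) (l 15186728)))))))), by decide +kernel⟩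

def k3_pm_012 : ∃ t, chk3 f_pm_012 t 14 3 1 = true :=
  ⟨(b (b (b (a (a (b (a (b (l 15887928) (l 15793800)) (b (a (l 15846888) (l 15923248)) (l 15803248))) (l 15603104)) (c (a (b (l 15804616) (l 15699424)) (b (l 15700496) (l 15696488))) (a (b (l 15574904) (l 15633408)) (b (l 15678736) (b (l 15675584) (l 15586656)))))) (a (b (l 15610456) (a (c (l 15626288) (l 15601432)) (c (l 15577056) (l 15537008)))) (l 15478800))) (a (a (b (a (l 15339256) (l 15360584)) (l 15143408)) (b (a (l 15437480) (l 15474552)) (a (l 15254584) (c (l 15314904) (l 15278592))))) (a (a (b (c (l 15563912) (l 15539280)) (l 15324152)) (b (b (c (l 15562136) (l 15537072)) (c (l 15555184) (l 15527592))) (c (l 15403632) (l 15379976)))) (b (c (l 15457200) (l 15429848)) (a (a (c (l 15451064) (l 15425712)) (c (l 15468944) (l 15440624))) (a (c (l 15435824) (l 15407000)) (c (l 15404480) (l 15375816)))))))) (b (b (a (a (l 14953904) (c (l 15087560) (l 15043560))) (a (a (c (l 15197696) (l 15163320)) (c (l 15212104) (l 15184144)))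 (a (a (c (l 15237312) (l 15211600)) (l 15255824)) (a (c (l 15314552) (l 15292640)) (c (b (l 15403984) (l 15304208)) (l 15192200)))))) (a (a (l 14941848) (c (a (l 14945552) (l 14978160)) (l 14926200))) (a (c (a (l 15022456) (l 15075480)) (a (l 14981696) (l 15047768))) (a (b (c (l 15169248) (l 15146728)) (c (l 15099296) (l 15078208))) (a (c (l 15165232) (l 15146728)) (c (l 15177744) (l 15160520))))))) (a (l 4) (a (b (c (a (l 200483671367) (c (l 15000472) (l 15002672))) (a (l 14956664) (l 14969312))) (l 4)) (c (a (b (c (l 15019760) (l 15036832)) (l 4)) (b (a (l 15053120) (l 15082184)) (b (c (l 15016288) (l 15042248)) (l 4)))) (a (l 23853489239) (l 15092696))))))) (a (l 4) (l 4))), by decide +kernel⟩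

def k4_pm_012 : ∃ t, chk3 f_pm_012 t 30 12 1 = true :=
  ⟨(a (b (l 15353536) (l 15325880)) (c (l 15200168) (l 15230304))), by decide +kernel⟩

def k5_pm_012 : ∃ t, chk3 f_pm_012 t 30 26 1 = true :=
  ⟨(a (b (c (c (a (b (c (l 15124744) (l 15362832)) (a (l 15233264) (l 15363384))) (l 15283536)) (a (b (l 15352544) (l 15369192)) (l 15304888))) (a (b (l 15329480) (a (l 15331432) (l 15337416))) (l 15281320))) (b (c (a (a (l 15254016) (l 15307152)) (a (c (l 15288952) (l 15362840)) (c (l 15305616) (l 15335248)))) (a (l 15273704) (a (l 15339904) (l 15312408)))) (a (c (c (l 15197624) (l 15211864)) (l 15191056)) (c (a (c (l 15283152) (l 15300944)) (c (l 15335032) (l 15364696))) (a (l 15283984) (l 15342488)))))) (c (a (c (l 15215368) (l 15271824)) (l 15167480)) (l 15231200))), by decide +kernel⟩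

def k6_pm_012 : ∃ t, chk3 f_pm_012 t 30 27 1 = true :=
  ⟨(a (b (c (a (c (a (l 15097024) (a (l 15140288) (l 15151696))) (b (l 15166704) (l 15130968))) (b (a (l 15217800) (c (l 15257960) (l 15290112))) (a (c (l 15154408) (l 15182392)) (l 15071808)))) (a (b (l 15149576) (l 15115240)) (b (a (l 15214552) (l 15277760)) (a (l 15172488) (l 15207536))))) (c (b (a (c (l 15049640) (l 15085256)) (a (l 15122640) (c (l 15153088) (l 15186136)))) (c (a (l 15044856) (l 15087712)) (a (l 15085528) (l 15122456)))) (a (l 15163392) (b (a (l 15133352) (l 15185976)) (l 15127848))))) (a (a (c (b (b (c (l 15313136) (l 15363568)) (l 15244040)) (b (c (l 15174840) (l 15214400)) (c (l 15151032) (l 15187504)))) (b (b (l 15344912) (l 15259224)) (b (l 15215368) (l 15195752)))) (c (b (b (c (l 15264664) (l 15334816)) (c (l 15290880) (l 15316176))) (b (l 15237840) (c (l 15181096) (l 15222360)))) (b (b (l 15323408) (l 15348456)) (b (l 15265224) (l 15231480))))) (b (a (a (b (l 15296032) (c (c (l 15262768) (l 15345664))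 (l 15343176))) (c (l 15239832) (l 15310888))) (l 15264856)) (b (a (c (a (l 15151728) (c (l 15270096) (l 15355384))) (a (l 15317768) (l 15362368))) (c (a (l 15146824) (l 15267736)) (a (l 15356648) (l 15344128)))) (c (a (a (l 15227296) (l 15248136)) (a (l 15274128) (l 15303704))) (a (a (l 15263712) (l 15293088)) (a (l 15333264) (l 15377640)))))))), by decide +kernel⟩

def k7_pm_012 : ∃ t, chk3 f_pm_012 t 31 6 1 = true :=
  ⟨(b (c (a (l 15056136) (l 15038816)) (a (l 15125432) (c (l 15036808) (l 15047760)))) (b (a (c (l 15048640) (l 15128064)) (c (l 15044632) (a (l 15036200) (l 15046104)))) (a (a (a (b (l 15226336) (a (b (l 15292432) (c (l 15283072) (l 15372368))) (c (l 15237024) (l 15338864)))) (c (l 15175864) (l 15289400))) (c (l 15151400) (l 15253680))) (c (l 15214912) (a (l 15207800) (l 15233640)))))), by decide +kernel⟩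

def k8_pm_012 : ∃ t, chk3 f_pm_012 t 30 14 1 = true :=
  ⟨(b (a (a (l 4) (b (b (c (c (l 15088384) (l 15104176)) (l 15134704)) (l 4)) (l 4))) (a (b (c (c (l 15191240) (c (l 15214016) (l 15233952))) (c (c (l 15247536) (l 15247256)) (l 15233368))) (l 4)) (b (a (c (b (c (l 15196424) (l 15236952)) (l 15194600)) (b (l 15258112) (l 15232264))) (a (c (b (l 15234240) (l 15189704)) (b (l 15283888) (l 15277208))) (c (b (l 15256984) (l 15258288)) (b (l 15317128) (l 15310488))))) (c (a (c (l 15313712) (l 15155336)) (c (l 15315224) (l 15341280))) (c (c (l 15371568) (l 15383336)) (l 15372448)))))) (l 4)), by decide +kernel⟩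

def k9_pm_012 : ∃ t, chk3 f_pm_012 t 31 28 1 = true :=
  ⟨(b (a (c (a (a (b (a (l 15282904) (l 15311160)) (a (l 15275632) (l 15297824))) (b (a (b (l 15278896) (l 15310792)) (l 15278720)) (a (l 15324488) (a (l 15343568) (l 15339184))))) (a (c (a (l 15107256) (l 15260680)) (c (l 15302576) (l 15223480))) (l 15301224))) (a (a (b (a (l 15361344) (l 15369168)) (a (l 15293968) (l 15371720))) (a (b (a (l 15413696) (l 15388400)) (l 15422104)) (c (b (l 15405864) (b (l 15452968) (l 15448616))) (l 15390264)))) (a (b (l 15399560) (c (a (a (l 15462096) (l 15457312)) (l 15447464)) (a (l 15458168) (l 15462944)))) (l 15414640)))) (c (l 15381136) (a (l 15379304) (l 15406328)))) (c (a (a (a (a (b (l 15291920) (l 15322864)) (b (l 15323016) (l 15344784))) (c (c (l 15351920) (l 15366024)) (c (l 15320304) (l 15279736)))) (a (c (a (b (l 15356824) (l 15398920)) (b (l 15355800) (l 15418832))) (b (c (l 15401968) (l 15282584)) (a (l 15427224) (b (l 15443552) (l 15456232))))) (c (l 15406552) (c (l 15417568)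 (l 15453736))))) (a (l 15464208) (l 15545080))) (a (c (a (a (a (a (l 15312200) (l 270277644647)) (b (l 15378728) (l 15380280))) (c (c (l 15319760) (a (l 15356720) (l 15412096))) (c (l 15445376) (l 15452024)))) (a (a (b (b (l 15489616) (l 15474720)) (b (l 15472568) (l 15483496))) (b (b (l 15495184) (l 15525680)) (b (l 15517176) (l 15510096)))) (c (l 15250832) (c (l 15330248) (a (l 15419040) (l 15488192)))))) (a (a (l 15431448) (l 15448280)) (a (b (a (l 15524304) (l 15359816)) (a (l 15488864) (b (l 15536536) (l 15529816)))) (c (a (l 15396680) (l 15472864)) (l 15555360))))) (a (l 15510216) (l 15476336))))), by decide +kernel⟩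

def k10_pm_012 : ∃ t, chk3 f_pm_012 t 31 29 1 = true :=
  ⟨(b (c (a (a (c (l 15377256) (c (l 15514120) (l 15528544))) (c (a (a (l 15515432) (l 15538416)) (l 15574120)) (a (a (l 15523520) (l 15517760)) (a (l 15449832) (c (l 15577040) (b (l 15349896) (l 15606944))))))) (a (a (c (l 15590344) (a (b (l 15539344) (l 15555664)) (l 15589264))) (l 15619040)) (l 15696568))) (a (c (a (c (l 15547024) (l 15482376)) (a (a (l 15554592) (b (b (l 15522920) (l 15531184)) (l 15602368))) (a (b (b (l 15550552) (l 15566648)) (l 15602400)) (b (b (a (l 15583432) (l 15604032)) (l 15572712)) (b (l 15602048) (l 15636064)))))) (a (l 15568976) (a (b (c (l 15386192) (l 15569896)) (l 15623752)) (a (c (b (l 15575896) (l 15628624)) (l 15623016)) (c (b (b (l 15653016) (l 15609152)) (l 15566896)) (b (b (l 15646296) (l 15606328)) (l 15671136))))))) (a (a (c (a (b (l 15402456) (b (l 15654312) (l 15632904))) (c (l 15614104) (l 15621672))) (c (a (b (c (l 15667144) (l 15667400)) (b (l 15705184) (a (l 15692656) (l 15710048))))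 (c (l 15469496) (l 15707664))) (a (b (l 15663080) (l 15650232)) (l 15703776)))) (b (l 15617864) (b (l 15679744) (l 6)))) (c (l 15680024) (l 15697176))))) (a (a (l 4) (a (l 4) (b (c (l 15666104) (c (l 15580624) (c (l 15732936) (l 15733800)))) (l 4)))) (a (a (a (a (c (l 15752568) (c (l 15760168) (c (l 15789032) (l 15792784)))) (l 6)) (l 6)) (l 6)) (l 6)))), by decide +kernel⟩

def k11_pm_012 : ∃ t, chk3 f_pm_012 t 15 15 1 = true :=
  ⟨(a (l 4) (a (l 4) (l 6))), by decide +kernel⟩

theorem s12_pm_012 : ∃ t, chk3 f_pm_012 t 31 14 1 = true := ex3_b k9_pm_012 k10_pm_012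

theorem s13_pm_012 : ∃ t, chk3 f_pm_012 t 15 14 1 = true := ex3_a k8_pm_012 s12_pm_012

theorem s14_pm_012 : ∃ t, chk3 f_pm_012 t 15 7 1 = true := ex3_b s13_pm_012 k11_pm_012

theorem s15_pm_012 : ∃ t, chk3 f_pm_012 t 30 13 1 = true := ex3_b k5_pm_012 k6_pm_012

theorem s16_pm_012 : ∃ t, chk3 f_pm_012 t 30 6 1 = true := ex3_b k4_pm_012 s15_pm_012

theorem s17_pm_012 : ∃ t, chk3 f_pm_012 t 15 6 1 = true := ex3_a s16_pm_012 k7_pm_012

theorem s18_pm_012 : ∃ t, chk3 f_pm_012 t 15 3 1 = true := ex3_b s17_pm_012 s14_pm_012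

theorem s19_pm_012 : ∃ t, chk3 f_pm_012 t 7 3 1 = true := ex3_a k3_pm_012 s18_pm_012

theorem s20_pm_012 : ∃ t, chk3 f_pm_012 t 7 1 1 = true := ex3_b k2_pm_012 s19_pm_012

theorem s21_pm_012 : ∃ t, chk3 f_pm_012 t 3 1 1 = true := ex3_a k1_pm_012 s20_pm_012

theorem s22_pm_012 : ∃ t, chk3 f_pm_012 t 1 1 1 = true := ex3_a k0_pm_012 s21_pm_012

theorem c_pm_012 : CertFX 0 536870912 0 536870912 1046898278 26843546 false true false .pnp 0 1 2
    ndF3q0 ndF0q2 pcF1 cut_pm_012 Ext.none :=
  certFX2 (fam := false) (s1 := true) (s2 := false) (a := 0) (b := 1) (c := 2) (cn := .pnp) (n1 := ndF3q0) (n2 := ndF0q2) (pc := pcF1) (cut := cut_pm_012) (xt := Ext.none) (P1 := 0) (W1 := 536870912) (P2 := 0) (W2 := 536870912) (P3 := 1046898278) (W3 := 26843546)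
    rfl (fun _ => rfl) s22_pm_012

noncomputable def cut_pm_022 : Cut := Cut.of [[⟨0, 0, 0, 67108864⟩, ⟨1, 1, 0, 67108864⟩, ⟨2, 1, 0, 67108864⟩]]

noncomputable def f_pm_022 : ℕ → ℕ → ℕ → ℕ → Bool := onCell 0 536870912 0 536870912 1046898278 26843546
    (rowFX 0 false true false .pp 0 2 2 (qsf 0 536870912 0 536870912 2) ndF3q0 ndF0q2 pcF2 cut_pm_022 Ext.none)

def k0_pm_022 : ∃ t, chk3 f_pm_022 t 8 4 1 = true :=
  ⟨(b (a (a (b (a (c (c (l 16139216) (l 16135496)) (c (l 16140288) (l 16150528))) (c (a (c (l 16266920) (l 16282920)) (a (l 16296888) (b (l 16332928) (c (l 16343352) (l 16418416))))) (a (l 16295472) (b (l 16306944) (a (l 16399936) (l 16449352)))))) (a (c (b (c (l 16136248) (l 16132456)) (l 16151784)) (b (l 15976168) (l 16140576))) (a (c (b (l 16233808) (l 16293440)) (l 16220296)) (b (c (a (l 16317560) (l 16396144)) (a (l 16404400) (l 16443056))) (c (l 16337824) (l 16421984)))))) (c (b (c (b (l 16426432) (l 16375640)) (b (l 16453760) (l 16444752))) (c (l 16396096) (l 16444208)))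 (b (b (l 16473376) (l 16464152)) (l 16463544)))) (c (b (a (b (c (l 16405104) (l 16486880)) (l 16444888)) (c (l 16495440) (l 16532392))) (a (c (l 16498424) (l 16515496)) (c (l 16485816) (l 16480032)))) (b (a (b (l 16494552) (l 16504800)) (l 16532368)) (a (l 16509136) (l 16478856))))) (a (a (c (a (b (l 16131800) (b (l 16246296) (l 16239576))) (b (a (c (l 16292856) (l 16309496)) (l 16314664)) (b (l 16298200) (l 16360624)))) (b (a (l 16079880) (c (a (l 16338216) (l 16418720)) (l 16377024))) (a (a (l 16224888) (l 16173336)) (b (l 16399440) (l 16398816))))) (c (b (l 16328120) (l 16355624)) (b (l 16467088) (l 16473624)))) (c (b (a (l 16459696) (l 16438248)) (a (l 16481496) (l 16352432))) (b (a (l 16486752) (l 16432048)) (a (l 16465720) (l 16387472)))))), by decide +kernel⟩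

def k1_pm_022 : ∃ t, chk3 f_pm_022 t 9 4 1 = true :=
  ⟨(a (b (c (a (b (c (a (l 16515192) (l 16488208)) (l 16502800)) (a (l 16445200) (l 16337152))) (b (l 16220776) (l 16203528))) (a (b (l 16501344) (l 16420608)) (b (l 16344040) (l 16242960)))) (c (a (b (c (l 16216912) (l 16346576)) (a (l 16246248) (l 16213280))) (b (l 16141480) (l 16032424))) (a (b (l 16278880) (l 16237728)) (l 16086496)))) (c (a (b (b (l 16136184) (l 16023496)) (b (l 15907400) (l 15791928))) (b (b (l 15956512) (l 15833848)) (l 15602216))) (b (b (a (l 16132408) (l 15948968)) (l 15718624)) (c (a (l 15851080) (l 15642328)) (l 15742240))))), by decide +kernel⟩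

def k2_pm_022 : ∃ t, chk3 f_pm_022 t 4 5 1 = true :=
  ⟨(a (a (b (a (b (c (a (b (l 16246144) (l 16327184)) (l 16357728)) (a (a (l 16200024) (l 16311096)) (l 16395624))) (c (a (l 16334312) (l 16364936)) (a (l 16306880) (l 16402720)))) (c (b (l 16411720) (l 16437800)) (b (l 16487960) (l 16514520)))) (c (a (b (a (l 16345056) (l 16388784)) (a (l 16376656) (l 16412264))) (b (l 16477616) (l 16449072))) (a (b (a (l 16338520) (l 16426904)) (a (c (l 16383416) (l 16396408)) (l 16472232))) (b (l 16510976) (l 16482632))))) (b (c (a (b (l 16458968) (l 16431168)) (b (l 16195832) (a (l 16324288) (l 16195432)))) (a (b (l 16442144) (l 16412880)) (b (l 16340048) (l 16277608)))) (c (a (b (l 16386200) (a (l 16357424) (l 16172552))) (b (a (l 16171616) (l 16134224)) (l 15913656))) (a (b (l 16375208) (l 16190024)) (b (l 16193696) (l 16085680)))))) (b (a (c (a (b (l 15913088) (l 16055432)) (c (l 15846800) (l 15860664))) (b (l 15940176) (l 15841856))) (c (b (l 15470784) (l 15416720)) (a (l 15341664) (c (l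 15365184) (l 15365160))))) (a (c (a (c (l 15836752) (l 15729840)) (b (l 15660960) (l 15511288))) (c (a (l 15875960) (l 15597056)) (l 15734144))) (c (b (l 15270552) (l 15117504)) (b (a (l 15388256) (l 15137872)) (a (l 15228512) (l 14972728))))))), by decide +kernel⟩

def k3_pm_022 : ∃ t, chk3 f_pm_022 t 5 2 1 = true :=
  ⟨(a (a (b (c (b (b (l 15681936) (l 15548312)) (l 15342944)) (b (b (l 15517856) (l 15404256)) (b (l 15245168) (l 15081088)))) (c (b (l 15054416) (l 14741768)) (b (c (l 15026816) (l 14826224)) (c (l 14703856) (l 14683952))))) (b (b (l 1) (l 1)) (l 1))) (l 1)), by decide +kernel⟩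

def k4_pm_022 : ∃ t, chk3 f_pm_022 t 8 12 1 = true :=
  ⟨(a (c (a (b (a (b (l 16417000) (l 16429504)) (c (l 16481024) (l 16503784))) (c (a (b (l 16486728) (l 16526880)) (b (l 16538704) (l 16443264))) (a (b (l 16486904) (l 16527288)) (l 16491176)))) (b (c (a (l 16526608) (l 16422224)) (l 16458888)) (b (c (a (l 16479800) (l 16337488)) (l 16326128)) (a (c (a (l 16471912) (l 16406272)) (l 16428768)) (l 16169744))))) (a (a (b (c (l 16377064) (a (l 16430240) (l 16475136))) (c (a (l 16475408) (l 16530448)) (b (l 16488752) (l 16488040)))) (b (l 16409560) (c (l 16530112) (l 16516520)))) (b (b (l 16452768) (l 16426448)) (a (b (l 16443640) (l 16341752)) (l 16201416))))) (c (c (b (a (a (l 16221080) (l 16162912)) (l 15937384)) (a (l 15953624) (l 15785768))) (b (a (l 16019496) (l 15954264)) (a (l 16044320) (l 15803544)))) (a (b (l 16078064) (l 16103280)) (b (l 15961224) (l 15812688))))), by decide +kernel⟩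

def k5_pm_022 : ∃ t, chk3 f_pm_022 t 16 13 2 = true :=
  ⟨(a (b (a (b (c (b (l 16538528) (l 16518456)) (l 16494848)) (a (c (c (b (l 16546832) (l 16510048)) (l 16537264)) (l 16536784)) (c (b (l 16534936) (c (l 16523048) (l 16543336))) (b (l 16564568) (l 16522136))))) (c (b (a (c (l 16556920) (l 16569496)) (b (l 16507160) (l 16508184))) (a (a (b (l 16541584) (l 16586392)) (l 16475088)) (l 16494880))) (b (a (l 16554872) (l 16494592)) (a (l 16532616) (l 16503800))))) (a (b (c (a (b (c (a (b (l 16544464) (l 16525912)) (l 16502312)) (a (l 16526000) (l 16521240))) (c (b (l 16501472) (l 16531376)) (a (b (l 16527768) (l 16533208)) (l 16552696)))) (b (l 16526616) (l 16541456))) (a (b (a (l 16524856) (l 16540032)) (l 16515912)) (a (l 16561760) (l 16583632)))) (c (c (b (l 16526480) (l 16537704)) (a (c (b (l 16521704) (l 16540288)) (b (l 16528248) (l 16523120))) (l 16552680))) (a (c (l 16508296) (l 16549128)) (a (l 16559352) (l 16541240))))) (c (a (c (l 16492016) (b (l 16579800) (l 16551600)))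 (b (l 16476736) (l 16467984))) (c (a (b (l 16590368) (l 16565328)) (l 16463856)) (l 16502360))))) (b (a (b (c (l 16269016) (l 16394112)) (c (l 16362400) (l 16384336))) (c (b (l 16236936) (l 16222128)) (l 16175824))) (c (a (b (l 16374728) (l 16361544)) (l 16202048)) (a (b (l 16363336) (l 16292544)) (b (l 16223240) (l 16210216)))))), by decide +kernel⟩

def k6_pm_022 : ∃ t, chk3 f_pm_022 t 16 13 3 = true :=
  ⟨(a (c (b (a (b (a (l 16546168) (l 16581376)) (a (l 16536464) (b (l 16579768) (l 16516264)))) (b (a (l 16528960) (l 16470880)) (l 16471976))) (a (b (a (b (a (l 16523744) (l 16539576)) (l 16515360)) (l 16525504)) (a (l 16527888) (l 16543200))) (l 16483144))) (b (a (b (a (l 16513440) (l 16564024)) (a (l 16503432) (l 16510080))) (b (l 16484984) (l 16499232))) (a (a (b (b (a (l 16525488) (l 16509536)) (a (l 16506800) (l 16557832))) (c (l 16532280) (l 16518272))) (b (l 16588240) (l 16600448))) (l 16468040)))) (b (b (l 16154408) (l 16278568)) (c (a (l 16376768) (l 16219600)) (l 16293632)))),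 by decide +kernel⟩

def k7_pm_022 : ∃ t, chk3 f_pm_022 t 17 13 1 = true :=
  ⟨(c (b (a (c (l 15782000) (a (l 16081632) (l 15922696))) (c (l 15673208) (l 15599200))) (a (c (a (l 16040776) (l 15879872)) (a (l 15901816) (l 15881960))) (c (l 15649952) (l 15642944)))) (c (b (a (l 15967520) (l 15681800)) (a (a (l 16065688) (l 15904624)) (a (l 15739392) (l 15568072)))) (b (l 15753952) (a (l 15990256) (l 15670616))))), by decide +kernel⟩

def k8_pm_022 : ∃ t, chk3 f_pm_022 t 9 6 1 = true :=
  ⟨(b (a (c (b (a (l 15487992) (l 15354568)) (a (l 15493792) (l 15193280))) (b (a (l 15665896) (c (l 15359688) (l 15359216))) (a (l 15317464) (c (l 15182728) (l 15187904))))) (c (b (l 14958120) (l 14792504)) (c (l 14766152) (b (l 14799752) (l 14742384))))) (b (c (a (a (l 15374752) (l 15076776)) (l 14664160)) (a (c (a (l 15373984) (l 15051832)) (a (l 15383840) (l 15047336))) (l 14592664))) (a (c (l 15195576) (c (l 15175568) (a (l 15329640) (l 14995152)))) (l 1)))), by decide +kernel⟩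

def k9_pm_022 : ∃ t, chk3 f_pm_022 t 4 7 1 = true :=
  ⟨(a (b (b (a (b (c (a (c (a (a (a (c (l 16578424) (b (l 16539008) (l 16559432))) (b (l 16557416) (l 16575920))) (b (l 16545944) (l 16540200))) (a (c (l 16541928) (l 16519216)) (l 16479416))) (a (c (b (a (c (l 16527712) (l 16563104)) (l 16575752)) (a (c (a (c (l 16579328) (l 16548888)) (l 16581112)) (a (l 16563736) (l 16586680))) (l 16571688))) (a (l 16567504) (l 16548504))) (a (c (l 16497216) (l 16590232)) (l 16390224)))) (c (a (l 16352944) (l 16188152)) (a (c (l 16359232) (l 16371192)) (l 16193976)))) (a (a (c (a (c (l 16567024) (l 16546216)) (l 16541720)) (a (c (l 16529760) (a (l 16539264) (l 16595704))) (l 16588760))) (c (l 16523840) (l 16518744))) (c (a (l 16329216) (l 16211456)) (l 16291800)))) (b (b (b (c (a (c (a (c (a (l 16595552) (l 16587552)) (l 16554720)) (a (l 16525392) (l 16474800))) (a (c (a (c (l 16560592) (l 16542984)) (l 16600848)) (a (l 16578544) (l 16582312))) (a (c (l 16553128) (l 16587120)) (l 16490000))))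 (c (l 16101240) (a (l 16358304) (l 16181648)))) (a (a (a (c (l 16557376) (a (l 16548224) (l 16579832))) (c (l 16595344) (l 16635728))) (c (l 16538064) (l 16521696))) (c (a (l 16371768) (l 16205272)) (l 16290632)))) (l 6)) (l 6)) (l 6))) (c (a (c (l 15914432) (a (l 16018968) (l 15856216))) (l 15488168)) (a (a (c (b (l 16044176) (l 15906424)) (l 16047864)) (c (b (l 15879688) (l 15858160)) (l 15825240))) (c (l 15623616) (b (l 15636208) (l 15575488)))))) (a (l 6) (a (l 6) (a (l 6) (a (l 6) (l 1)))))) (a (l 6) (a (l 6) (l 1)))) (b (a (a (b (c (l 15327184) (c (l 15301992) (l 15290792))) (l 1)) (l 1)) (l 1)) (l 1))), by decide +kernel⟩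

def k10_pm_022 : ∃ t, chk3 f_pm_022 t 5 3 1 = true :=
  ⟨(b (l 1) (l 1)), by decide +kernel⟩

def k11_pm_022 : ∃ t, chk3 f_pm_022 t 3 1 1 = true :=
  ⟨(l 1), by decide +kernel⟩

theorem s12_pm_022 : ∃ t, chk3 f_pm_022 t 16 13 1 = true := ex3_c k5_pm_022 k6_pm_022

theorem s13_pm_022 : ∃ t, chk3 f_pm_022 t 8 13 1 = true := ex3_a s12_pm_022 k7_pm_022

theorem s14_pm_022 : ∃ t, chk3 f_pm_022 t 8 6 1 = true := ex3_b k4_pm_022 s13_pm_022

theorem s15_pm_022 : ∃ t, chk3 f_pm_022 t 4 6 1 = true := ex3_a s14_pm_022 k8_pm_022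

theorem s16_pm_022 : ∃ t, chk3 f_pm_022 t 4 3 1 = true := ex3_b s15_pm_022 k9_pm_022

theorem s17_pm_022 : ∃ t, chk3 f_pm_022 t 2 3 1 = true := ex3_a s16_pm_022 k10_pm_022

theorem s18_pm_022 : ∃ t, chk3 f_pm_022 t 4 4 1 = true := ex3_a k0_pm_022 k1_pm_022

theorem s19_pm_022 : ∃ t, chk3 f_pm_022 t 4 2 1 = true := ex3_b s18_pm_022 k2_pm_022

theorem s20_pm_022 : ∃ t, chk3 f_pm_022 t 2 2 1 = true := ex3_a s19_pm_022 k3_pm_022

theorem s21_pm_022 : ∃ t, chk3 f_pm_022 t 2 1 1 = true := ex3_b s20_pm_022 s17_pm_022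

theorem s22_pm_022 : ∃ t, chk3 f_pm_022 t 1 1 1 = true := ex3_a s21_pm_022 k11_pm_022

theorem c_pm_022 : CertFX 0 536870912 0 536870912 1046898278 26843546 false true false .pp 0 2 2
    ndF3q0 ndF0q2 pcF2 cut_pm_022 Ext.none :=
  certFX0 (fam := false) (s1 := true) (s2 := false) (a := 0) (b := 2) (c := 2) (cn := .pp) (n1 := ndF3q0) (n2 := ndF0q2) (pc := pcF2) (cut := cut_pm_022) (xt := Ext.none) (P1 := 0) (W1 := 536870912) (P2 := 0) (W2 := 536870912) (P3 := 1046898278) (W3 := 26843546)
    rfl s22_pm_022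

noncomputable def f_pm_101 : ℕ → ℕ → ℕ → ℕ → Bool := onCell 536870912 536870912 536870912 536870912 1046898278 26843546
    (rowFX 0 false true false .npn 1 0 1 (qsf 536870912 536870912 536870912 536870912 0) ndF3q1 ndF0q1 pcF0 Cut.none Ext.none)

def k0_pm_101 : ∃ t, chk3 f_pm_101 t 1 1 1 = true :=
  ⟨(l 4), by decide +kernel⟩

theorem c_pm_101 : CertFX 536870912 536870912 536870912 536870912 1046898278 26843546 false true false .npn 1 0 1
    ndF3q1 ndF0q1 pcF0 Cut.none Ext.none :=
  certFX0 (fam := false) (s1 := true) (s2 := false) (a := 1) (b := 0) (c := 1) (cn := .npn) (n1 := ndF3q1) (n2 := ndF0q1) (pc := pcF0) (cut := Cut.none) (xt := Ext.none) (P1 := 536870912) (W1 := 536870912) (P2 := 536870912) (W2 := 536870912) (P3 := 1046898278) (W3 := 26843546)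
    rfl k0_pm_101

noncomputable def f_pm_102 : ℕ → ℕ → ℕ → ℕ → Bool := onCell 536870912 536870912 0 536870912 1046898278 26843546
    (rowFX 0 false true false .npp 1 0 2 (qsf 536870912 536870912 0 536870912 0) ndF3q1 ndF0q2 pcF0 Cut.none Ext.none)

def k0_pm_102 : ∃ t, chk3 f_pm_102 t 1 1 1 = true :=
  ⟨(a (a (a (b (l 2) (b (l 2) (l 4))) (b (b (l 2) (c (l 16777216) (l 16777216))) (l 4))) (b (b (c (b (l 16777216) (l 16777216)) (b (l 16777216) (l 16777216))) (c (b (l 16777216) (l 16777216)) (l 16777216))) (l 4))) (b (a (b (a (b (l 16775704) (l 16775704)) (b (a (l 16768032) (l 16581336)) (a (l 16768032) (l 16497456)))) (a (b (l 16775704) (l 16775704)) (c (a (l 16768144) (l 16478992)) (a (l 16767912) (l 16369112))))) (a (b (b (a (l 15910368) (c (l 15304112) (l 15265856))) (c (l 15491368) (a (l 15899248) (l 15268040)))) (b (a (l 15910368) (c (l 15308648) (l 15270520))) (a (c (l 15921584) (l 15899360)) (c (l 15305632) (l 15267416))))) (b (a (c (b (l 14694424) (l 14686176)) (b (l 14699360)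 (l 14690864))) (c (b (l 14098232) (l 14064336)) (b (a (l 14258440) (l 13956568)) (c (l 14069464) (l 14074008))))) (c (a (b (l 14675360) (l 14654160)) (b (l 14029888) (l 32977818615))) (c (a (l 14685112) (b (l 14034208) (l 13990640))) (a (l 29221043703) (b (l 14038224) (l 13994008)))))))) (l 4))), by decide +kernel⟩

theorem c_pm_102 : CertFX 536870912 536870912 0 536870912 1046898278 26843546 false true false .npp 1 0 2
    ndF3q1 ndF0q2 pcF0 Cut.none Ext.none :=
  certFX0 (fam := false) (s1 := true) (s2 := false) (a := 1) (b := 0) (c := 2) (cn := .npp) (n1 := ndF3q1) (n2 := ndF0q2) (pc := pcF0) (cut := Cut.none) (xt := Ext.none) (P1 := 536870912) (W1 := 536870912) (P2 := 0) (W2 := 536870912) (P3 := 1046898278) (W3 := 26843546)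
    rfl k0_pm_102

noncomputable def f_pm_112 : ℕ → ℕ → ℕ → ℕ → Bool := onCell 536870912 536870912 0 536870912 1046898278 26843546
    (rowFX 2 false true false .dn 1 1 2 (qsf 536870912 536870912 0 536870912 1) ndF3q1 ndF0q2 pcF1 Cut.none Ext.none)

def k0_pm_112 : ∃ t, chk3 f_pm_112 t 1 1 1 = true :=
  ⟨(a (b (a (b (b (c (l 16777216) (l 16777216)) (a (l 16777216) (l 16777216))) (c (l 104924708871) (l 87207968775))) (b (c (l 430604025863) (l 563211141127)) (a (a (b (l 16773200) (l 16747400)) (l 1)) (l 1)))) (b (a (a (l 4) (a (l 4) (l 4))) (l 1)) (l 4))) (l 1)), by decide +kernel⟩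

theorem c_pm_112 : CertFX 536870912 536870912 0 536870912 1046898278 26843546 false true false .dn 1 1 2
    ndF3q1 ndF0q2 pcF1 Cut.none Ext.none :=
  certFX2 (fam := false) (s1 := true) (s2 := false) (a := 1) (b := 1) (c := 2) (cn := .dn) (n1 := ndF3q1) (n2 := ndF0q2) (pc := pcF1) (cut := Cut.none) (xt := Ext.none) (P1 := 536870912) (W1 := 536870912) (P2 := 0) (W2 := 536870912) (P3 := 1046898278) (W3 := 26843546)
    rfl (fun _ => rfl) k0_pm_112

noncomputable def cut_pm_202 : Cut := Cut.of [[⟨0, 1, 0, 67108864⟩, ⟨1, 0, 0, 67108864⟩, ⟨2, 1, 0, 67108864⟩, ⟨3, 0, 0, 1317011456⟩]]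

noncomputable def f_pm_202 : ℕ → ℕ → ℕ → ℕ → Bool := onCell 1073741824 536870912 0 536870912 1046898278 26843546
    (rowFX 0 false true false .pp 2 0 2 (qsf 1073741824 536870912 0 536870912 0) ndF3q2 ndF0q2 pcF0 cut_pm_202 Ext.none)

def k0_pm_202 : ∃ t, chk3 f_pm_202 t 1 1 1 = true :=
  ⟨(a (b (l 3) (b (l 3) (b (l 3) (a (a (b (l 3) (a (l 6) (l 1))) (l 1)) (l 1))))) (l 1)), by decide +kernel⟩

theorem c_pm_202 : CertFX 1073741824 536870912 0 536870912 1046898278 26843546 false true false .pp 2 0 2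
    ndF3q2 ndF0q2 pcF0 cut_pm_202 Ext.none :=
  certFX0 (fam := false) (s1 := true) (s2 := false) (a := 2) (b := 0) (c := 2) (cn := .pp) (n1 := ndF3q2) (n2 := ndF0q2) (pc := pcF0) (cut := cut_pm_202) (xt := Ext.none) (P1 := 1073741824) (W1 := 536870912) (P2 := 0) (W2 := 536870912) (P3 := 1046898278) (W3 := 26843546)
    rfl k0_pm_202

noncomputable def f_mm_001 : ℕ → ℕ → ℕ → ℕ → Bool := onCell 0 536870912 536870912 536870912 1046898278 26843546
    (rowFX 0 false false false .up 0 0 1 (qsf 0 536870912 536870912 536870912 0) ndF3q0 ndF0q1 pcF0 Cut.none Ext.none)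

def k0_mm_001 : ∃ t, chk3 f_mm_001 t 1 1 1 = true :=
  ⟨(l 5), by decide +kernel⟩

theorem c_mm_001 : CertFX 0 536870912 536870912 536870912 1046898278 26843546 false false false .up 0 0 1
    ndF3q0 ndF0q1 pcF0 Cut.none Ext.none :=
  certFX0 (fam := false) (s1 := false) (s2 := false) (a := 0) (b := 0) (c := 1) (cn := .up) (n1 := ndF3q0) (n2 := ndF0q1) (pc := pcF0) (cut := Cut.none) (xt := Ext.none) (P1 := 0) (W1 := 536870912) (P2 := 536870912) (W2 := 536870912) (P3 := 1046898278) (W3 := 26843546)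
    rfl k0_mm_001

noncomputable def f_mm_011 : ℕ → ℕ → ℕ → ℕ → Bool := onCell 0 536870912 536870912 536870912 1046898278 26843546
    (rowFX 0 false false false .pnn 0 1 1 (qsf 0 536870912 536870912 536870912 1) ndF3q0 ndF0q1 pcF1 Cut.none Ext.none)

def k0_mm_011 : ∃ t, chk3 f_mm_011 t 1 1 1 = true :=
  ⟨(l 5), by decide +kernel⟩

theorem c_mm_011 : CertFX 0 536870912 536870912 536870912 1046898278 26843546 false false false .pnn 0 1 1
    ndF3q0 ndF0q1 pcF1 Cut.none Ext.none :=
  certFX0 (fam := false) (s1 := false) (s2 := false) (a := 0) (b := 1) (c := 1) (cn := .pnn) (n1 := ndF3q0) (n2 := ndF0q1) (pc := pcF1) (cut := Cut.none) (xt := Ext.none) (P1 := 0) (W1 := 536870912) (P2 := 536870912) (W2 := 536870912) (P3 := 1046898278) (W3 := 26843546)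
    rfl k0_mm_011

noncomputable def f_mm_012 : ℕ → ℕ → ℕ → ℕ → Bool := onCell 0 536870912 0 536870912 1046898278 26843546
    (rowFX 0 false false false .pnp 0 1 2 (qsf 0 536870912 0 536870912 1) ndF3q0 ndF0q2 pcF1 Cut.none Ext.none)

def k0_mm_012 : ∃ t, chk3 f_mm_012 t 1 1 1 = true :=
  ⟨(l 5), by decide +kernel⟩

theorem c_mm_012 : CertFX 0 536870912 0 536870912 1046898278 26843546 false false false .pnp 0 1 2
    ndF3q0 ndF0q2 pcF1 Cut.none Ext.none :=
  certFX0 (fam := false) (s1 := false) (s2 := false) (a := 0) (b := 1) (c := 2) (cn := .pnp) (n1 := ndF3q0) (n2 := ndF0q2) (pc := pcF1) (cut := Cut.none) (xt := Ext.none) (P1 := 0) (W1 := 536870912) (P2 := 0) (W2 := 536870912) (P3 := 1046898278) (W3 := 26843546)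
    rfl k0_mm_012

noncomputable def f_mm_022 : ℕ → ℕ → ℕ → ℕ → Bool := onCell 0 536870912 0 536870912 1046898278 26843546
    (rowFX 0 false false false .pp 0 2 2 (qsf 0 536870912 0 536870912 2) ndF3q0 ndF0q2 pcF2 Cut.none Ext.none)

def k0_mm_022 : ∃ t, chk3 f_mm_022 t 1 1 1 = true :=
  ⟨(l 5), by decide +kernel⟩

theorem c_mm_022 : CertFX 0 536870912 0 536870912 1046898278 26843546 false false false .pp 0 2 2
    ndF3q0 ndF0q2 pcF2 Cut.none Ext.none :=
  certFX0 (fam := false) (s1 := false) (s2 := false) (a := 0) (b := 2) (c := 2) (cn := .pp) (n1 := ndF3q0) (n2 := ndF0q2) (pc := pcF2) (cut := Cut.none) (xt := Ext.none) (P1 := 0) (W1 := 536870912) (P2 := 0) (W2 := 536870912) (P3 := 1046898278) (W3 := 26843546)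
    rfl k0_mm_022

noncomputable def f_mm_101 : ℕ → ℕ → ℕ → ℕ → Bool := onCell 536870912 536870912 0 536870912 1046898278 26843546
    (rowFX 1 false false false .npn 1 0 1 (qsf 536870912 536870912 536870912 536870912 0) ndF3q1 ndF0q1 pcF0 Cut.none Ext.none)

def k0_mm_101 : ∃ t, chk3 f_mm_101 t 1 1 1 = true :=
  ⟨(a (l 5) (l 5)), by decide +kernel⟩

theorem c_mm_101 : CertFX 536870912 536870912 536870912 536870912 1046898278 26843546 false false false .npn 1 0 1
    ndF3q1 ndF0q1 pcF0 Cut.none Ext.none :=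
  certFX1 (fam := false) (s1 := false) (s2 := false) (a := 1) (b := 0) (c := 1) (cn := .npn) (n1 := ndF3q1) (n2 := ndF0q1) (pc := pcF0) (cut := Cut.none) (xt := Ext.none) (P1 := 536870912) (W1 := 536870912) (P2 := 536870912) (W2 := 536870912) (P3 := 1046898278) (W3 := 26843546)
    rfl (fun _ => rfl) k0_mm_101

noncomputable def f_mm_102 : ℕ → ℕ → ℕ → ℕ → Bool := onCell 536870912 536870912 0 536870912 1046898278 26843546
    (rowFX 0 false false false .npp 1 0 2 (qsf 536870912 536870912 0 536870912 0) ndF3q1 ndF0q2 pcF0 Cut.none Ext.none)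

def k0_mm_102 : ∃ t, chk3 f_mm_102 t 1 1 1 = true :=
  ⟨(l 5), by decide +kernel⟩

theorem c_mm_102 : CertFX 536870912 536870912 0 536870912 1046898278 26843546 false false false .npp 1 0 2
    ndF3q1 ndF0q2 pcF0 Cut.none Ext.none :=
  certFX0 (fam := false) (s1 := false) (s2 := false) (a := 1) (b := 0) (c := 2) (cn := .npp) (n1 := ndF3q1) (n2 := ndF0q2) (pc := pcF0) (cut := Cut.none) (xt := Ext.none) (P1 := 536870912) (W1 := 536870912) (P2 := 0) (W2 := 536870912) (P3 := 1046898278) (W3 := 26843546)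
    rfl k0_mm_102

noncomputable def f_mm_112 : ℕ → ℕ → ℕ → ℕ → Bool := onCell 536870912 536870912 0 536870912 1046898278 26843546
    (rowFX 0 false false false .dn 1 1 2 (qsf 536870912 536870912 0 536870912 1) ndF3q1 ndF0q2 pcF1 Cut.none Ext.none)

def k0_mm_112 : ∃ t, chk3 f_mm_112 t 1 1 1 = true :=
  ⟨(l 5), by decide +kernel⟩

theorem c_mm_112 : CertFX 536870912 536870912 0 536870912 1046898278 26843546 false false false .dn 1 1 2
    ndF3q1 ndF0q2 pcF1 Cut.none Ext.none :=
  certFX0 (fam := false) (s1 := false) (s2 := false) (a := 1) (b := 1) (c := 2) (cn := .dn) (n1 := ndF3q1) (n2 := ndF0q2) (pc := pcF1) (cut := Cut.none) (xt := Ext.none) (P1 := 536870912) (W1 := 536870912) (P2 := 0) (W2 := 536870912) (P3 := 1046898278) (W3 := 26843546)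
    rfl k0_mm_112

noncomputable def f_mm_202 : ℕ → ℕ → ℕ → ℕ → Bool := onCell 1073741824 536870912 0 536870912 1046898278 26843546
    (rowFX 0 false false false .pp 2 0 2 (qsf 1073741824 536870912 0 536870912 0) ndF3q2 ndF0q2 pcF0 Cut.none Ext.none)

def k0_mm_202 : ∃ t, chk3 f_mm_202 t 1 1 1 = true :=
  ⟨(l 3), by decide +kernel⟩

theorem c_mm_202 : CertFX 1073741824 536870912 0 536870912 1046898278 26843546 false false false .pp 2 0 2
    ndF3q2 ndF0q2 pcF0 Cut.none Ext.none :=
  certFX0 (fam := false) (s1 := false) (s2 := false) (a := 2) (b := 0) (c := 2) (cn := .pp) (n1 := ndF3q2) (n2 := ndF0q2) (pc := pcF0) (cut := Cut.none) (xt := Ext.none) (P1 := 1073741824) (W1 := 536870912) (P2 := 0) (W2 := 536870912) (P3 := 1046898278) (W3 := 26843546)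
    rfl k0_mm_202

end Pool.Agent.Strip051.G.IE1.Tab.C.FB30

namespace Pool.Agent.Strip051.G.IE1.Tab.C.FB31

open Pool.Agent.Strip051.PB Pool.Agent.Strip051.PB.T
open Pool.Agent.Strip051.G.IE1.Tab

noncomputable def f_pp_001 : ℕ → ℕ → ℕ → ℕ → Bool := onCell 0 536870912 0 536870912 1046898278 26843546
    (rowFX 1 false true true .up 0 0 1 (qsf 0 536870912 536870912 536870912 0) ndF3q0 ndF1q1 pcF0 Cut.none Ext.none)

def k0_pp_001 : ∃ t, chk3 f_pp_001 t 1 1 1 = true :=
  ⟨(l 3), by decide +kernel⟩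

theorem c_pp_001 : CertFX 0 536870912 536870912 536870912 1046898278 26843546 false true true .up 0 0 1
    ndF3q0 ndF1q1 pcF0 Cut.none Ext.none :=
  certFX1 (fam := false) (s1 := true) (s2 := true) (a := 0) (b := 0) (c := 1) (cn := .up) (n1 := ndF3q0) (n2 := ndF1q1) (pc := pcF0) (cut := Cut.none) (xt := Ext.none) (P1 := 0) (W1 := 536870912) (P2 := 536870912) (W2 := 536870912) (P3 := 1046898278) (W3 := 26843546)
    rfl (fun _ => rfl) k0_pp_001

noncomputable def f_pp_011 : ℕ → ℕ → ℕ → ℕ → Bool := onCell 0 536870912 536870912 536870912 1046898278 26843546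
    (rowFX 0 false true true .pnn 0 1 1 (qsf 0 536870912 536870912 536870912 1) ndF3q0 ndF1q1 pcF1 Cut.none Ext.none)

def k0_pp_011 : ∃ t, chk3 f_pp_011 t 1 1 1 = true :=
  ⟨(b (l 3) (a (l 3) (l 3))), by decide +kernel⟩

theorem c_pp_011 : CertFX 0 536870912 536870912 536870912 1046898278 26843546 false true true .pnn 0 1 1
    ndF3q0 ndF1q1 pcF1 Cut.none Ext.none :=
  certFX0 (fam := false) (s1 := true) (s2 := true) (a := 0) (b := 1) (c := 1) (cn := .pnn) (n1 := ndF3q0) (n2 := ndF1q1) (pc := pcF1) (cut := Cut.none) (xt := Ext.none) (P1 := 0) (W1 := 536870912) (P2 := 536870912) (W2 := 536870912) (P3 := 1046898278) (W3 := 26843546)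
    rfl k0_pp_011

noncomputable def f_pp_012_a : ℕ → ℕ → ℕ → ℕ → Bool := onCell 536870912 536870912 0 420477299 1046898278 26843546
    (rowFX 2 false true true .pnp 0 1 2 (qsf 0 536870912 0 420477299 1) ndF3q0 ndF1q2a pcF1 Cut.none Ext.none)

def k0_pp_012_a : ∃ t, chk3 f_pp_012_a t 2 1 1 = true :=
  ⟨(b (a (l 2) (b (a (l 16777216) (l 16777216)) (a (l 16777208) (l 16777208)))) (b (a (l 16777184) (a (l 16777184) (l 16777184))) (a (a (b (l 2) (l 16396504)) (b (l 16722320) (a (l 16501368) (c (l 16504904) (l 16497824))))) (b (a (l 16722320) (l 16701344)) (a (b (l 16569328) (c (l 16376560) (b (l 16467920) (l 16393896)))) (b (l 16569328) (c (l 16439472) (l 16430704)))))))), by decide +kernel⟩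

def k1_pp_012_a : ∃ t, chk3 f_pp_012_a t 3 1 1 = true :=
  ⟨(a (b (a (b (l 16774264) (l 16773840)) (b (a (l 16759224) (a (l 16751240) (l 16775976))) (a (l 16756864) (l 16758456)))) (b (a (l 16773328) (a (l 16754264) (a (l 16742504) (l 16774392)))) (b (a (c (l 16719264) (l 16717456)) (a (l 16699208) (a (l 16666664) (b (l 16763096) (l 16679200))))) (a (b (l 16565200) (c (a (l 16439464) (l 16431808)) (a (l 16430688) (l 16422072)))) (a (b (l 16545680) (c (l 16418056) (l 16406048))) (b (a (l 16533536) (l 16561664)) (a (c (l 16400176) (l 16382896)) (c (l 16419256) (l 16378128))))))))) (b (a (b (a (b (l 16699120) (l 16705320)) (b (l 16600760) (l 16595720))) (a (l 16686752) (b (l 16584160) (l 16587768)))) (b (a (a (l 16589592) (l 16637032)) (a (l 16681544) (l 16666568))) (a (a (l 16602752) (l 16636488)) (c (a (l 16672016) (l 16684984)) (l 16586376))))) (b (a (a (b (l 16670224) (l 16687296)) (b (l 16616312) (l 16678720))) (a (b (l 16663592) (l 16698664)) (b (a (l 16702448) (l 16646296)) (a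 (l 16652640) (l 16599928))))) (a (b (a (b (l 16711816) (l 16697328)) (b (l 16729176) (l 16709056))) (b (a (l 16671976) (l 16672520)) (a (c (l 16538392) (l 16527152)) (c (l 16629032) (l 16625232))))) (b (a (b (l 16685232) (l 16727752)) (b (a (l 16618856) (l 16568656)) (a (l 16665824) (l 16581192)))) (a (b (l 16689320) (a (l 16629472) (c (l 16637968) (l 16635056)))) (b (a (l 16720936) (l 16641864)) (a (c (a (l 16662440) (l 16697544)) (l 16680096)) (c (a (l 16713728) (l 16662016)) (a (l 16628360) (c (l 16659728) (l 16595520)))))))))))), by decide +kernel⟩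

theorem s2_pp_012_a : ∃ t, chk3 f_pp_012_a t 1 1 1 = true := ex3_a k0_pp_012_a k1_pp_012_a

theorem c_pp_012_a : CertFX 0 536870912 0 420477299 1046898278 26843546 false true true .pnp 0 1 2
    ndF3q0 ndF1q2a pcF1 Cut.none Ext.none :=
  certFX2 (fam := false) (s1 := true) (s2 := true) (a := 0) (b := 1) (c := 2) (cn := .pnp) (n1 := ndF3q0) (n2 := ndF1q2a) (pc := pcF1) (cut := Cut.none) (xt := Ext.none) (P1 := 0) (W1 := 536870912) (P2 := 0) (W2 := 420477299) (P3 := 1046898278) (W3 := 26843546)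
    rfl (fun _ => rfl) s2_pp_012_a

noncomputable def f_pp_012_b : ℕ → ℕ → ℕ → ℕ → Bool := onCell 536870912 536870912 1239849684 370763052 1046898278 26843546
    (rowFX 2 false true true .pnp 0 1 2 (qsf 0 536870912 1239849684 370763052 1) ndF3q0 ndF1q2b pcF1 Cut.none Ext.none)

def k0_pp_012_b : ∃ t, chk3 f_pp_012_b t 1 1 1 = true :=
  ⟨(a (a (l 2) (b (l 16777216) (l 2))) (a (b (a (l 16774712) (a (l 16761720) (b (l 16757624) (l 16724544)))) (a (l 2) (l 16737528))) (b (a (b (a (l 16599528) (l 16276928)) (a (l 16471912) (l 16248776))) (b (b (a (b (a (l 16525096) (l 16561344)) (l 16399272)) (b (a (b (l 16671192) (l 16576656)) (b (l 16699200) (l 16644304))) (a (l 16392920) (l 16455280)))) (a (l 16265752) (b (l 16121392) (l 16089104)))) (a (l 16040640) (b (l 15938216) (l 15748856))))) (a (a (l 16318160) (l 15987904)) (b (a (l 15774744) (l 15495408)) (a (l 15546448) (l 15194272))))))), by decide +kernel⟩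

theorem c_pp_012_b : CertFX 0 536870912 1239849684 370763052 1046898278 26843546 false true true .pnp 0 1 2
    ndF3q0 ndF1q2b pcF1 Cut.none Ext.none :=
  certFX2 (fam := false) (s1 := true) (s2 := true) (a := 0) (b := 1) (c := 2) (cn := .pnp) (n1 := ndF3q0) (n2 := ndF1q2b) (pc := pcF1) (cut := Cut.none) (xt := Ext.none) (P1 := 0) (W1 := 536870912) (P2 := 1239849684) (W2 := 370763052) (P3 := 1046898278) (W3 := 26843546)
    rfl (fun _ => rfl) k0_pp_012_b

noncomputable def f_pp_022_a : ℕ → ℕ → ℕ → ℕ → Bool := onCell 0 536870912 0 420477299 1046898278 26843546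
    (rowFX 0 false true true .pp 0 2 2 (qsf 0 536870912 0 420477299 2) ndF3q0 ndF1q2a pcF2 Cut.none Ext.none)

def k0_pp_022_a : ∃ t, chk3 f_pp_022_a t 4 2 1 = true :=
  ⟨(a (a (b (b (a (a (c (l 16259592) (a (l 16212416) (l 16324928))) (a (c (l 16407272) (l 16450760)) (b (c (l 16363688) (l 16372512)) (a (l 16274704) (b (l 16371768) (l 16344120)))))) (c (l 16415432) (l 16387216))) (a (a (c (l 16298600) (l 16188936)) (a (a (c (l 16320072) (l 16287360)) (b (l 16280960) (c (l 16385384) (l 16304880)))) (b (c (l 16322152) (l 16287464)) (l 16346568)))) (c (l 16411888) (l 16383208)))) (a (b (a (a (b (l 16354984) (c (l 16392048) (a (l 16427168) (l 16278912)))) (b (c (l 16332792) (b (l 16411272) (l 16292600))) (c (l 16383288) (c (l 16368976) (l 16310232))))) (b (a (c (l 16383912) (l 16306896)) (l 16382752)) (c (l 16411744) (l 16379120)))) (a (b (a (c (l 16353880) (b (l 16318784) (l 16366240))) (c (l 16406808) (l 16385480))) (l 16315840)) (c (l 16470696) (l 16438864)))) (c (b (l 16445144) (l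 16491016)) (b (l 16416744) (l 16492344))))) (b (c (a (b (l 16459976) (l 16439488)) (b (l 16503104) (l 16507720))) (a (l 16383320) (b (l 16499016) (l 16503624)))) (b (c (a (l 16498056) (l 16486792)) (a (l 16482600) (l 16546536))) (a (c (l 16510336) (l 16528152)) (c (b (l 16531040) (l 16443152)) (l 16480952)))))) (b (a (a (b (c (a (l 16535664) (l 16549456)) (l 16541712)) (c (a (l 16543016) (l 16544520)) (l 16540864))) (b (l 16482560) (l 16484952))) (b (a (l 16370128) (l 16281800)) (a (l 16392136) (l 16324192)))) (a (a (b (c (a (l 16553528) (l 16560696)) (l 16545296)) (c (l 16490088) (l 16551528))) (b (l 16490152) (b (l 16553280) (l 16596448)))) (b (a (c (l 16439448) (l 16434120)) (l 16388336)) (a (c (l 16498152) (l 16515752)) (c (l 16490024) (l 16485472))))))), by decide +kernel⟩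

def k1_pp_022_a : ∃ t, chk3 f_pp_022_a t 8 6 1 = true :=
  ⟨(a (a (c (b (l 16356616) (b (l 16385920) (l 16278176))) (b (a (l 16423920) (l 16492936)) (a (l 16350368) (l 16378968)))) (c (b (l 16417856) (l 16242664)) (b (l 16471712) (l 16313352)))) (b (a (c (b (l 16456376) (l 16411224)) (l 16407840)) (c (b (l 16435144) (l 16442424)) (l 16398176))) (a (c (b (l 16360424) (l 16300560)) (l 16280512)) (c (l 16282176) (l 16362296))))), by decide +kernel⟩

def k2_pp_022_a : ∃ t, chk3 f_pp_022_a t 16 14 1 = true :=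
  ⟨(a (b (c (a (l 16301048) (l 16243968)) (c (l 16227368) (l 16301888))) (b (a (c (a (b (l 16313648) (c (a (l 16320576) (l 16301552)) (l 16305656))) (l 16267600)) (a (c (l 16281536) (l 16245392)) (l 16284536))) (c (l 16233552) (l 16265040))) (c (a (c (a (b (l 16293296) (l 16264280)) (b (l 16263824) (l 16249080))) (a (l 16275560) (b (l 16260968) (l 16245888)))) (a (b (l 16236944) (c (l 16223096) (l 16236656))) (l 16224224))) (c (a (a (l 16271472) (b (l 16271832) (l 16256424))) (a (l 16262584) (l 16259368))) (a (a (l 16276616) (l 16279088)) (l 16248232)))))) (c (b (l 16229120) (l 16217968)) (b (l 16254376) (l 16242432)))), by decide +kernel⟩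

def k3_pp_022_a : ∃ t, chk3 f_pp_022_a t 16 15 2 = true :=
  ⟨(a (b (a (c (b (c (l 16221064) (l 16218296)) (c (l 16181176) (l 16178056))) (c (l 16151920) (l 16108448))) (b (c (a (c (l 16197360) (l 16199040)) (b (l 16204088) (l 16191888))) (a (l 16212592) (l 16224968))) (c (a (l 16159320) (c (b (l 16165888) (l 16150736)) (l 16170880))) (a (l 16171704) (l 16191840))))) (c (a (a (b (l 16156688) (b (l 16142424) (c (a (l 16120744) (l 16117984)) (l 16137608)))) (b (b (l 16149880) (c (l 16140624) (l 16137248))) (c (b (a (l 16136744) (l 16111208)) (l 16113320)) (l 16131784)))) (b (a (c (b (l 16136656) (l 16128120)) (l 16133640)) (c (l 16135368) (l 16149008))) (c (a (l 16123920) (l 16128760)) (a (l 16127360) (l 16144384))))) (c (a (b (l 16145776) (a (l 16135776) (l 16128192))) (b (a (l 16139760) (l 16163040)) (l 16147288))) (a (b (l 16122840) (a (l 16132264) (l 16127048))) (b (l 16121504) (l 16158336)))))) (b (b (a (a (b (l 16219264) (c (a (l 16200928) (l 16203696)) (l 16226968))) (l 16215648))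 (l 16209840)) (a (c (a (c (b (l 16183664) (l 16168680)) (l 16191672)) (c (l 16188104) (l 16201184))) (a (l 16209952) (l 16216448))) (b (l 16205472) (c (c (l 16189256) (l 16199848)) (l 16213192))))) (c (a (b (c (l 16162624) (l 16177016)) (c (l 16157312) (l 16173504))) (b (a (l 16184816) (l 16189584)) (l 16185288))) (a (b (l 16194232) (c (l 16187248) (l 16197720))) (b (a (l 16205824) (l 16208432)) (c (l 16202832) (l 16212280))))))), by decide +kernel⟩

def k4_pp_022_a : ∃ t, chk3 f_pp_022_a t 16 15 3 = true :=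
  ⟨(a (b (a (c (b (l 16177576) (l 16115144)) (c (l 16161536) (l 16187304))) (b (c (a (l 16237728) (l 16246264)) (l 16252008)) (c (a (l 16196176) (l 16212512)) (l 16214704)))) (a (c (b (a (l 16143824) (l 16147816)) (a (b (l 16129024) (l 16125704)) (b (l 16136608) (l 16137344)))) (b (a (l 16146856) (l 16162224)) (a (c (l 16127368) (l 16131320)) (l 16150816)))) (c (b (a (l 16170080) (l 16189912)) (l 16175240)) (b (l 16127192) (l 16184632))))) (b (a (b (a (c (l 16245680) (l 16249136)) (l 16241848)) (c (a (l 16227400) (l 16230864)) (l 16188896))) (b (l 16230904) (b (l 16226216) (l 16220960)))) (a (c (b (l 16209456) (l 16207712)) (l 16208248)) (b (c (l 16218040) (l 16213440)) (l 16215664))))), by decide +kernel⟩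

def k5_pp_022_a : ∃ t, chk3 f_pp_022_a t 17 7 1 = true :=
  ⟨(b (c (a (b (l 16238672) (l 16223432)) (b (l 16202928) (l 16245200))) (a (b (l 16246416) (l 16230280)) (b (l 16258576) (l 16236888)))) (a (b (c (l 16210552) (l 16216536)) (b (a (c (c (l 16189936) (c (l 16203544) (l 16209224))) (c (l 16207792) (l 16200664))) (l 16200304)) (c (c (a (l 16169160) (a (l 16186944) (l 16188296))) (a (a (l 16207928) (l 16204304)) (l 16198096))) (c (a (l 16209912) (c (l 16194776) (l 16191424))) (a (l 16202856) (l 16186368)))))) (c (b (l 16227640) (l 16206024)) (b (l 16218336) (l 16195608))))), by decide +kernel⟩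

def k6_pp_022_a : ∃ t, chk3 f_pp_022_a t 9 3 1 = true :=
  ⟨(b (a (a (b (c (b (l 16537736) (l 16498752)) (l 16494336)) (c (l 16349696) (l 16405008))) (b (b (l 16588584) (l 16542064)) (b (l 16502880) (l 16426992)))) (b (a (b (l 16588352) (l 16591792)) (b (l 16593328) (l 16646576))) (a (c (l 87542746583) (l 16441840)) (c (l 16429984) (l 16488648))))) (b (a (c (b (a (l 16303576) (l 16351616)) (a (l 16277864) (l 16321184))) (b (a (l 16292232) (l 16341856)) (a (l 16265336) (l 16310112)))) (a (b (c (b (l 16418664) (l 16391376)) (l 16396576)) (c (l 16370520) (l 16360352))) (l 1))) (a (b (c (a (l 16255920) (l 16295176)) (a (l 16242304) (l 16282936))) (a (c (l 16230696) (l 16215920)) (l 1))) (l 1)))), by decide +kernel⟩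

def k7_pp_022_a : ∃ t, chk3 f_pp_022_a t 5 1 1 = true :=
  ⟨(a (b (b (a (b (a (l 16179824) (l 16060504)) (a (l 16243056) (l 16144976))) (l 1)) (a (b (c (a (l 16331608) (l 16254976)) (l 16222536)) (c (a (l 16448680) (l 16370224)) (l 78415627207))) (l 1))) (b (b (a (a (b (l 16544232) (l 16601448)) (l 1)) (l 1)) (l 1)) (l 1))) (l 1)), by decide +kernel⟩

def k8_pp_022_a : ∃ t, chk3 f_pp_022_a t 3 1 1 = true :=
  ⟨(l 1), by decide +kernel⟩

theorem s9_pp_022_a : ∃ t, chk3 f_pp_022_a t 16 15 1 = true := ex3_c k3_pp_022_a k4_pp_022_a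

theorem s10_pp_022_a : ∃ t, chk3 f_pp_022_a t 16 7 1 = true := ex3_b k2_pp_022_a s9_pp_022_a

theorem s11_pp_022_a : ∃ t, chk3 f_pp_022_a t 8 7 1 = true := ex3_a s10_pp_022_a k5_pp_022_a

theorem s12_pp_022_a : ∃ t, chk3 f_pp_022_a t 8 3 1 = true := ex3_b k1_pp_022_a s11_pp_022_a

theorem s13_pp_022_a : ∃ t, chk3 f_pp_022_a t 4 3 1 = true := ex3_a s12_pp_022_a k6_pp_022_a

theorem s14_pp_022_a : ∃ t, chk3 f_pp_022_a t 4 1 1 = true := ex3_b k0_pp_022_a s13_pp_022_a

theorem s15_pp_022_a : ∃ t, chk3 f_pp_022_a t 2 1 1 = true := ex3_a s14_pp_022_a k7_pp_022_a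

theorem s16_pp_022_a : ∃ t, chk3 f_pp_022_a t 1 1 1 = true := ex3_a s15_pp_022_a k8_pp_022_a

theorem c_pp_022_a : CertFX 0 536870912 0 420477299 1046898278 26843546 false true true .pp 0 2 2
    ndF3q0 ndF1q2a pcF2 Cut.none Ext.none :=
  certFX0 (fam := false) (s1 := true) (s2 := true) (a := 0) (b := 2) (c := 2) (cn := .pp) (n1 := ndF3q0) (n2 := ndF1q2a) (pc := pcF2) (cut := Cut.none) (xt := Ext.none) (P1 := 0) (W1 := 536870912) (P2 := 0) (W2 := 420477299) (P3 := 1046898278) (W3 := 26843546)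
    rfl s16_pp_022_a

noncomputable def f_pp_022_b : ℕ → ℕ → ℕ → ℕ → Bool := onCell 0 536870912 1073741824 536870912 1046898278 26843546
    (rowFX 1 false true true .pp 0 2 2 (qsf 0 536870912 1239849684 370763052 2) ndF3q0 ndF1q2b pcF2 Cut.none Ext.none)

def k0_pp_022_b : ∃ t, chk3 f_pp_022_b t 1 4 1 = true :=
  ⟨(a (a (a (b (l 1) (a (b (l 1) (a (l 1) (c (l 179347111111) (l 16207128)))) (b (a (l 1) (b (l 1) (c (l 190621759799) (l 16377288)))) (c (a (l 236792576039) (b (l 16409480) (l 16250504))) (b (l 16291232) (l 16265688)))))) (b (a (b (l 1) (c (b (l 1) (l 206728154103)) (l 357588756823))) (b (a (l 1) (l 277594650119)) (b (l 352756506103) (l 292090084743)))) (b (a (b (a (l 354904563591) (l 16461736)) (a (c (l 16429928) (l 16513472)) (l 16287520))) (b (l 16266552) (a (l 16259848) (l 16168736)))) (a (c (a (l 16078520) (l 16138808)) (l 16025624)) (c (l 15978080) (l 15961312)))))) (b (a (a (b (c (l 395705723511) (l 16080632)) (b (l 16080664) (l 16079440))) (b (a (b (l 15881520) (l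 15889064)) (l 15736624)) (a (l 15897288) (l 15749632)))) (a (b (l 15498648) (l 15536624)) (b (l 15284448) (l 15345840)))) (a (b (a (b (l 16000232) (a (l 16080528) (l 15970944))) (l 15741776)) (a (a (l 15839984) (l 15732544)) (l 15575040))) (b (a (l 15551376) (l 15385368)) (l 15315312))))) (b (a (a (b (l 15134504) (l 15216120)) (c (l 15014272) (l 14989632))) (c (l 14793024) (l 14770960))) (a (b (a (l 15277760) (l 15147248)) (l 15163960)) (b (l 14978072) (l 15038432))))), by decide +kernel⟩

def k1_pp_022_b : ∃ t, chk3 f_pp_022_b t 1 5 1 = true :=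
  ⟨(a (b (a (a (b (b (a (a (a (l 1) (c (l 182568704471) (l 16376512))) (c (b (l 16434648) (l 16302520)) (l 16319256))) (a (c (l 16085360) (l 16212408)) (c (l 16059104) (l 16130104)))) (a (a (c (a (l 16202504) (l 16163000)) (b (l 16254960) (l 16107464))) (c (l 16237592) (l 16355920))) (a (l 16149624) (l 16087896)))) (a (a (c (b (l 15837672) (l 15601928)) (b (l 15832008) (l 15606936))) (c (b (l 16021744) (l 15740080)) (l 15813752))) (b (c (l 16095520) (l 16228800)) (l 15752296)))) (b (b (a (c (a (l 16019352) (l 15902088)) (l 15944832)) (a (l 15782672) (l 15707336))) (a (l 15804528) (l 15856816))) (a (a (l 16188584) (l 16403696)) (b (l 16168984) (l 16459624))))) (b (a (b (l 15495008) (l 15616680)) (b (l 15219640) (l 15362848))) (a (l 16058064) (l 15786616)))) (a (a (b (a (c (a (l 14999912) (l 15288616)) (a (l 15115720) (l 15288136))) (c (l 15443600) (l 15553168))) (a (c (a (l 14809232) (l 14989248)) (a (l 14788728) (l 14978728))) (c (l 15294712) (l 15269024)))) (b (a (a (l 15830320)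 (l 16002392)) (l 16241664)) (a (c (l 15690904) (l 15661768)) (l 16045184)))) (a (b (l 16524032) (l 16441560)) (b (l 16270032) (l 16523192))))) (b (b (b (l 15147608) (l 15308000)) (a (l 15693368) (l 2))) (b (a (l 16112912) (l 2)) (l 16154792)))), by decide +kernel⟩

def k2_pp_022_b : ∃ t, chk3 f_pp_022_b t 1 3 1 = true :=
  ⟨(a (b (a (a (b (a (c (l 14900208) (l 14884312)) (b (l 15282288) (l 15283456))) (a (b (l 14895440) (l 14895376)) (l 15155152))) (b (a (b (l 15684592) (l 15684152)) (l 16034704)) (a (l 15669720) (l 15997704)))) (b (a (l 16402504) (l 16637328)) (a (l 16348632) (l 16724288)))) (a (a (b (a (c (l 14900208) (l 14884312)) (l 15280376)) (a (l 14895376) (l 15280376))) (b (l 15796720) (l 15817696))) (b (a (l 16346384) (l 2)) (l 2)))) (b (b (a (l 16554184) (l 2)) (l 2)) (l 2))), by decide +kernel⟩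

theorem s3_pp_022_b : ∃ t, chk3 f_pp_022_b t 1 2 1 = true := ex3_b k0_pp_022_b k1_pp_022_b

theorem s4_pp_022_b : ∃ t, chk3 f_pp_022_b t 1 1 1 = true := ex3_b s3_pp_022_b k2_pp_022_b

theorem c_pp_022_b : CertFX 0 536870912 1239849684 370763052 1046898278 26843546 false true true .pp 0 2 2
    ndF3q0 ndF1q2b pcF2 Cut.none Ext.none :=
  certFX1 (fam := false) (s1 := true) (s2 := true) (a := 0) (b := 2) (c := 2) (cn := .pp) (n1 := ndF3q0) (n2 := ndF1q2b) (pc := pcF2) (cut := Cut.none) (xt := Ext.none) (P1 := 0) (W1 := 536870912) (P2 := 1239849684) (W2 := 370763052) (P3 := 1046898278) (W3 := 26843546)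
    rfl (fun _ => rfl) s4_pp_022_b

noncomputable def f_pp_023 : ℕ → ℕ → ℕ → ℕ → Bool := onCell 1073741824 536870912 1610612736 469762048 1046898278 26843546
    (rowFX 2 false true true .up 0 2 3 (qsf 0 536870912 1610612736 469762048 2) ndF3q0 ndF1q3 pcF2 Cut.none Ext.none)

def k0_pp_023 : ∃ t, chk3 f_pp_023 t 1 1 1 = true :=
  ⟨(a (a (b (a (b (l 14553232) (l 2)) (a (b (l 14915360) (l 2)) (l 14988936))) (l 2)) (a (b (a (a (l 15127552) (l 15297912)) (l 15625384)) (l 2)) (b (a (l 16005432) (l 16281464)) (a (l 15844960) (l 16109856))))) (b (a (a (b (l 16587616) (l 16510200)) (b (b (l 16505472) (l 16734512)) (l 16768728))) (b (a (b (a (l 16199072) (l 15913400)) (l 16463432)) (b (a (l 15600824) (b (l 15065168) (l 15400160))) (a (l 16133560) (l 15843832)))) (a (l 16734744) (b (l 16419360) (l 16690808))))) (a (b (a (l 16468064) (l 16767560)) (l 4)) (a (l 16771616) (l 4))))), by decide +kernel⟩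

theorem c_pp_023 : CertFX 0 536870912 1610612736 469762048 1046898278 26843546 false true true .up 0 2 3
    ndF3q0 ndF1q3 pcF2 Cut.none Ext.none :=
  certFX2 (fam := false) (s1 := true) (s2 := true) (a := 0) (b := 2) (c := 3) (cn := .up) (n1 := ndF3q0) (n2 := ndF1q3) (pc := pcF2) (cut := Cut.none) (xt := Ext.none) (P1 := 0) (W1 := 536870912) (P2 := 1610612736) (W2 := 469762048) (P3 := 1046898278) (W3 := 26843546)
    rfl (fun _ => rfl) k0_pp_023

noncomputable def f_pp_033 : ℕ → ℕ → ℕ → ℕ → Bool := onCell 0 536870912 1610612736 536870912 1046898278 26843546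
    (rowFX 1 false true true .pnn 0 3 3 (qsf 0 536870912 1610612736 469762048 3) ndF3q0 ndF1q3 pcF3 Cut.none Ext.none)

def k0_pp_033 : ∃ t, chk3 f_pp_033 t 1 1 1 = true :=
  ⟨(a (b (a (a (b (c (b (l 14982216) (a (l 14900208) (l 15294328))) (b (l 134784160791) (a (l 14884312) (l 15268632)))) (b (c (a (l 14900208) (l 15294328)) (b (l 14906768) (a (l 14884312) (l 4)))) (l 4))) (b (b (l 15775752) (c (l 15825816) (l 15801104))) (l 4))) (b (a (b (l 16346384) (l 4)) (l 4)) (l 4))) (a (l 4) (b (l 4) (l 2)))) (b (a (l 4) (b (l 4) (l 2))) (l 2))), by decide +kernel⟩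

theorem c_pp_033 : CertFX 0 536870912 1610612736 469762048 1046898278 26843546 false true true .pnn 0 3 3
    ndF3q0 ndF1q3 pcF3 Cut.none Ext.none :=
  certFX1 (fam := false) (s1 := true) (s2 := true) (a := 0) (b := 3) (c := 3) (cn := .pnn) (n1 := ndF3q0) (n2 := ndF1q3) (pc := pcF3) (cut := Cut.none) (xt := Ext.none) (P1 := 0) (W1 := 536870912) (P2 := 1610612736) (W2 := 469762048) (P3 := 1046898278) (W3 := 26843546)
    rfl (fun _ => rfl) k0_pp_033

noncomputable def f_pp_101 : ℕ → ℕ → ℕ → ℕ → Bool := onCell 536870912 536870912 536870912 536870912 1046898278 26843546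
    (rowFX 0 false true true .npn 1 0 1 (qsf 536870912 536870912 536870912 536870912 0) ndF3q1 ndF1q1 pcF0 Cut.none Ext.none)

def k0_pp_101 : ∃ t, chk3 f_pp_101 t 1 1 1 = true :=
  ⟨(l 3), by decide +kernel⟩

theorem c_pp_101 : CertFX 536870912 536870912 536870912 536870912 1046898278 26843546 false true true .npn 1 0 1
    ndF3q1 ndF1q1 pcF0 Cut.none Ext.none :=
  certFX0 (fam := false) (s1 := true) (s2 := true) (a := 1) (b := 0) (c := 1) (cn := .npn) (n1 := ndF3q1) (n2 := ndF1q1) (pc := pcF0) (cut := Cut.none) (xt := Ext.none) (P1 := 536870912) (W1 := 536870912) (P2 := 536870912) (W2 := 536870912) (P3 := 1046898278) (W3 := 26843546)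
    rfl k0_pp_101

noncomputable def f_pp_102_a : ℕ → ℕ → ℕ → ℕ → Bool := onCell 536870912 536870912 0 420477299 1046898278 26843546
    (rowFX 0 false true true .npp 1 0 2 (qsf 536870912 536870912 0 420477299 0) ndF3q1 ndF1q2a pcF0 Cut.none Ext.none)

def k0_pp_102_a : ∃ t, chk3 f_pp_102_a t 2 1 1 = true :=
  ⟨(b (a (l 2) (b (l 16777216) (a (l 16777208) (l 16777208)))) (a (b (l 16777184) (b (l 16659408) (b (l 16569328) (l 16435088)))) (b (a (l 16777184) (l 16777184)) (b (a (l 16722320) (l 16722320)) (b (l 16569328) (l 16435088)))))), by decide +kernel⟩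

def k1_pp_102_a : ∃ t, chk3 f_pp_102_a t 3 2 1 = true :=
  ⟨(a (a (b (l 16775704) (l 16775712)) (a (b (l 16768032) (l 16768040)) (l 16329688))) (a (a (b (l 15910368) (l 15910368)) (b (a (l 15431584) (l 15141504)) (a (b (l 15431584) (c (l 15460408) (l 15425944))) (b (a (l 15220088) (l 15101368)) (l 15211640))))) (b (a (l 14734624) (c (l 14206296) (l 14218728))) (a (c (a (l 14981832) (l 14694952)) (l 14708856)) (a (c (l 14395736) (l 14449824)) (b (l 14169712) (c (l 14245392) (l 14116144)))))))), by decide +kernel⟩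

def k2_pp_102_a : ∃ t, chk3 f_pp_102_a t 3 3 1 = true :=
  ⟨(a (b (a (l 16775736) (a (l 16768064) (l 16581360))) (a (b (l 16721184) (l 16500144)) (b (a (l 16715272) (a (l 16756928) (b (l 16437064) (l 16510984)))) (a (l 16430840) (b (a (l 16601560) (l 16637856)) (a (l 16242880) (l 16578800))))))) (b (a (a (b (l 15892744) (a (l 16088928) (l 15789416))) (b (a (b (l 15467344) (l 15505464)) (l 15287472)) (l 15491760))) (a (c (b (a (l 15087472) (l 14814344)) (a (l 15191704) (b (l 14894792) (l 14957480)))) (b (l 14931448) (a (l 15171112) (l 14961984)))) (c (a (b (l 14531336) (c (l 14597608) (l 14660184))) (b (l 14343064) (c (l 14481856) (l 14464808)))) (a (b (l 14590304) (l 14718768)) (b (l 14342368) (l 14471488)))))) (a (b (a (b (l 15947528) (l 16139336)) (c (l 15690664) (l 15663296))) (a (b (l 16201800) (l 16320024)) (b (a (l 16022480) (l 15845408)) (a (l 16232904) (l 16056832))))) (a (b (c (a (l 15218376) (b (l 15039688) (l 15204224))) (a (l 15370728) (l 15158264))) (a (c (b (l 15648584)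 (l 15757312)) (l 15584872)) (c (b (l 15393064) (c (l 15582072) (l 15654848))) (b (l 15438192) (l 15664456))))) (b (a (c (b (l 14757944) (l 14703888)) (b (l 14844688) (l 15001960))) (c (b (a (l 14603568) (l 14580432)) (a (c (l 14777160) (l 14769840)) (l 14758840))) (b (a (l 14635984) (l 14544776)) (a (c (l 14800776) (l 14844792)) (c (l 14735160) (l 14740736)))))) (a (c (b (a (l 15170664) (l 15051784)) (a (l 15412992) (l 15315368))) (b (l 15213840) (l 15346288))) (c (c (b (l 15005368) (a (l 15270000) (l 15286160))) (b (l 14998888) (a (l 15260656) (l 15268584)))) (b (a (c (l 15026272) (l 15073456)) (l 14752592)) (a (c (l 15299920) (l 15352664)) (c (l 15252080) (a (l 15274672) (l 15251904)))))))))))), by decide +kernel⟩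

theorem s3_pp_102_a : ∃ t, chk3 f_pp_102_a t 3 1 1 = true := ex3_b k1_pp_102_a k2_pp_102_a

theorem s4_pp_102_a : ∃ t, chk3 f_pp_102_a t 1 1 1 = true := ex3_a k0_pp_102_a s3_pp_102_a

theorem c_pp_102_a : CertFX 536870912 536870912 0 420477299 1046898278 26843546 false true true .npp 1 0 2
    ndF3q1 ndF1q2a pcF0 Cut.none Ext.none :=
  certFX0 (fam := false) (s1 := true) (s2 := true) (a := 1) (b := 0) (c := 2) (cn := .npp) (n1 := ndF3q1) (n2 := ndF1q2a) (pc := pcF0) (cut := Cut.none) (xt := Ext.none) (P1 := 536870912) (W1 := 536870912) (P2 := 0) (W2 := 420477299) (P3 := 1046898278) (W3 := 26843546)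
    rfl s4_pp_102_a

noncomputable def f_pp_102_b : ℕ → ℕ → ℕ → ℕ → Bool := onCell 536870912 536870912 1239849684 370763052 1046898278 26843546
    (rowFX 0 false true true .npp 1 0 2 (qsf 536870912 536870912 1239849684 370763052 0) ndF3q1 ndF1q2b pcF0 Cut.none Ext.none)

def k0_pp_102_b : ∃ t, chk3 f_pp_102_b t 1 1 1 = true :=
  ⟨(a (a (l 2) (b (c (l 16777216) (l 16777216)) (l 2))) (a (b (a (b (l 16775704) (l 16775704)) (b (a (l 16768032) (b (l 16581336) (l 16581336))) (a (l 16768032) (l 16476480)))) (a (l 2) (c (l 16687040) (l 16537896)))) (b (a (b (a (l 15910368) (l 15284192)) (a (l 15910368) (b (l 15284048) (l 15284048)))) (b (a (b (c (l 14679304) (l 14683816)) (l 14638568)) (b (a (l 14176448) (l 13971224)) (a (l 14090920) (l 13632024)))) (a (l 14638568) (c (l 13974584) (l 13979936))))) (a (b (a (l 15910368) (l 15284048)) (a (l 2) (l 15284048))) (a (b (l 14491768) (l 14638568)) (b (c (l 13974584) (l 13979936)) (l 13773912))))))), by decide +kernel⟩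

theorem c_pp_102_b : CertFX 536870912 536870912 1239849684 370763052 1046898278 26843546 false true true .npp 1 0 2
    ndF3q1 ndF1q2b pcF0 Cut.none Ext.none :=
  certFX0 (fam := false) (s1 := true) (s2 := true) (a := 1) (b := 0) (c := 2) (cn := .npp) (n1 := ndF3q1) (n2 := ndF1q2b) (pc := pcF0) (cut := Cut.none) (xt := Ext.none) (P1 := 536870912) (W1 := 536870912) (P2 := 1239849684) (W2 := 370763052) (P3 := 1046898278) (W3 := 26843546)
    rfl k0_pp_102_b

noncomputable def f_pp_112_a : ℕ → ℕ → ℕ → ℕ → Bool := onCell 536870912 536870912 0 420477299 1046898278 26843546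
    (rowFX 0 false true true .dn 1 1 2 (qsf 536870912 536870912 0 420477299 1) ndF3q1 ndF1q2a pcF1 Cut.none Ext.none)

def k0_pp_112_a : ∃ t, chk3 f_pp_112_a t 1 1 1 = true :=
  ⟨(a (b (a (b (l 16777216) (a (l 16777208) (l 16777208))) (b (l 16777216) (l 16777208))) (a (b (l 16777184) (b (a (l 16722320) (l 16722320)) (b (l 16569328) (l 16435088)))) (b (l 1376033701655) (l 1)))) (l 1)), by decide +kernel⟩

theorem c_pp_112_a : CertFX 536870912 536870912 0 420477299 1046898278 26843546 false true true .dn 1 1 2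
    ndF3q1 ndF1q2a pcF1 Cut.none Ext.none :=
  certFX0 (fam := false) (s1 := true) (s2 := true) (a := 1) (b := 1) (c := 2) (cn := .dn) (n1 := ndF3q1) (n2 := ndF1q2a) (pc := pcF1) (cut := Cut.none) (xt := Ext.none) (P1 := 536870912) (W1 := 536870912) (P2 := 0) (W2 := 420477299) (P3 := 1046898278) (W3 := 26843546)
    rfl k0_pp_112_a

noncomputable def f_pp_112_b : ℕ → ℕ → ℕ → ℕ → Bool := onCell 536870912 536870912 1239849684 370763052 1046898278 26843546
    (rowFX 2 false true true .dn 1 1 2 (qsf 536870912 536870912 1239849684 370763052 1) ndF3q1 ndF1q2b pcF1 Cut.none Ext.none)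

def k0_pp_112_b : ∃ t, chk3 f_pp_112_b t 1 1 1 = true :=
  ⟨(a (b (a (b (l 16777216) (l 16776344)) (l 16777216)) (a (b (a (b (l 16744960) (a (l 16223960) (l 16643064))) (l 16772680)) (a (b (a (l 15330880) (l 15980400)) (a (b (l 14657760) (l 14210576)) (l 15076840))) (b (l 16596704) (l 16005880)))) (b (l 16777192) (l 16754472)))) (a (a (l 623340647463) (b (l 639984163255) (l 16737528))) (b (l 1) (a (l 546029816199) (a (l 618506117495) (l 646422776391)))))), by decide +kernel⟩

theorem c_pp_112_b : CertFX 536870912 536870912 1239849684 370763052 1046898278 26843546 false true true .dn 1 1 2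
    ndF3q1 ndF1q2b pcF1 Cut.none Ext.none :=
  certFX2 (fam := false) (s1 := true) (s2 := true) (a := 1) (b := 1) (c := 2) (cn := .dn) (n1 := ndF3q1) (n2 := ndF1q2b) (pc := pcF1) (cut := Cut.none) (xt := Ext.none) (P1 := 536870912) (W1 := 536870912) (P2 := 1239849684) (W2 := 370763052) (P3 := 1046898278) (W3 := 26843546)
    rfl (fun _ => rfl) k0_pp_112_b

noncomputable def f_pp_113 : ℕ → ℕ → ℕ → ℕ → Bool := onCell 536870912 536870912 536870912 536870912 1046898278 26843546
    (rowFX 1 false true true .nn 1 1 3 (qsf 536870912 536870912 1610612736 469762048 1) ndF3q1 ndF1q3 pcF1 Cut.none Ext.none)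

def k0_pp_113 : ∃ t, chk3 f_pp_113 t 1 1 1 = true :=
  ⟨(b (a (l 624414425047) (a (b (l 685080831591) (l 16734776)) (a (b (l 15432920) (l 15621664)) (b (a (l 14638568) (l 13983624)) (a (l 14638568) (l 13983624)))))) (a (b (l 628173047271) (b (a (l 15997984) (l 15936648)) (a (b (l 15408552) (l 14922768)) (b (l 15157344) (l 14606232))))) (b (a (b (l 16736528) (l 16668680)) (a (l 15590088) (b (l 14374904) (l 14303360)))) (a (b (l 15780568) (b (l 14913184) (l 14305800))) (a (b (l 14698888) (l 13622176)) (b (l 13512936) (b (l 12965624) (a (l 12797896) (b (l 13025184) (l 2)))))))))), by decide +kernel⟩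

theorem c_pp_113 : CertFX 536870912 536870912 1610612736 469762048 1046898278 26843546 false true true .nn 1 1 3
    ndF3q1 ndF1q3 pcF1 Cut.none Ext.none :=
  certFX1 (fam := false) (s1 := true) (s2 := true) (a := 1) (b := 1) (c := 3) (cn := .nn) (n1 := ndF3q1) (n2 := ndF1q3) (pc := pcF1) (cut := Cut.none) (xt := Ext.none) (P1 := 536870912) (W1 := 536870912) (P2 := 1610612736) (W2 := 469762048) (P3 := 1046898278) (W3 := 26843546)
    rfl (fun _ => rfl) k0_pp_113

noncomputable def f_pp_123 : ℕ → ℕ → ℕ → ℕ → Bool := onCell 1073741824 536870912 1610612736 469762048 1046898278 26843546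
    (rowFX 2 false true true .npn 1 2 3 (qsf 536870912 536870912 1610612736 469762048 2) ndF3q1 ndF1q3 pcF2 Cut.none Ext.none)

def k0_pp_123 : ∃ t, chk3 f_pp_123 t 1 1 1 = true :=
  ⟨(b (a (b (a (a (l 14574200) (l 667896845543)) (l 1)) (a (a (l 14424840) (l 14776296)) (a (l 688298817543) (l 16078640)))) (l 1)) (b (a (a (a (l 14262648) (l 14729632)) (a (l 15376368) (l 15858000))) (a (a (l 16468064) (l 16767560)) (l 1))) (a (a (a (b (l 14108592) (a (l 13534888) (l 14164384))) (a (l 14514712) (l 14821744))) (a (l 15348248) (l 4))) (l 4)))), by decide +kernel⟩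

theorem c_pp_123 : CertFX 536870912 536870912 1610612736 469762048 1046898278 26843546 false true true .npn 1 2 3
    ndF3q1 ndF1q3 pcF2 Cut.none Ext.none :=
  certFX2 (fam := false) (s1 := true) (s2 := true) (a := 1) (b := 2) (c := 3) (cn := .npn) (n1 := ndF3q1) (n2 := ndF1q3) (pc := pcF2) (cut := Cut.none) (xt := Ext.none) (P1 := 536870912) (W1 := 536870912) (P2 := 1610612736) (W2 := 469762048) (P3 := 1046898278) (W3 := 26843546)
    rfl (fun _ => rfl) k0_pp_123

noncomputable def f_pp_133 : ℕ → ℕ → ℕ → ℕ → Bool := onCell 536870912 536870912 1610612736 469762048 1046898278 26843546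
    (rowFX 0 false true true .dn 1 3 3 (qsf 536870912 536870912 1610612736 469762048 3) ndF3q1 ndF1q3 pcF3 Cut.none Ext.none)

def k0_pp_133 : ∃ t, chk3 f_pp_133 t 1 1 1 = true :=
  ⟨(l 1), by decide +kernel⟩

theorem c_pp_133 : CertFX 536870912 536870912 1610612736 469762048 1046898278 26843546 false true true .dn 1 3 3
    ndF3q1 ndF1q3 pcF3 Cut.none Ext.none :=
  certFX0 (fam := false) (s1 := true) (s2 := true) (a := 1) (b := 3) (c := 3) (cn := .dn) (n1 := ndF3q1) (n2 := ndF1q3) (pc := pcF3) (cut := Cut.none) (xt := Ext.none) (P1 := 536870912) (W1 := 536870912) (P2 := 1610612736) (W2 := 469762048) (P3 := 1046898278) (W3 := 26843546)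
    rfl k0_pp_133

noncomputable def f_pp_202_a : ℕ → ℕ → ℕ → ℕ → Bool := onCell 1073741824 536870912 0 420477299 1046898278 26843546
    (rowFX 0 false true true .pp 2 0 2 (qsf 1073741824 536870912 0 420477299 0) ndF3q2 ndF1q2a pcF0 Cut.none Ext.none)

def k0_pp_202_a : ∃ t, chk3 f_pp_202_a t 1 1 1 = true :=
  ⟨(l 3), by decide +kernel⟩

theorem c_pp_202_a : CertFX 1073741824 536870912 0 420477299 1046898278 26843546 false true true .pp 2 0 2
    ndF3q2 ndF1q2a pcF0 Cut.none Ext.none :=
  certFX0 (fam := false) (s1 := true) (s2 := true) (a := 2) (b := 0) (c := 2) (cn := .pp) (n1 := ndF3q2) (n2 := ndF1q2a) (pc := pcF0) (cut := Cut.none) (xt := Ext.none) (P1 := 1073741824) (W1 := 536870912) (P2 := 0) (W2 := 420477299) (P3 := 1046898278) (W3 := 26843546)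
    rfl k0_pp_202_a

noncomputable def f_pp_202_b : ℕ → ℕ → ℕ → ℕ → Bool := onCell 1073741824 536870912 1239849684 370763052 1046898278 26843546
    (rowFX 0 false true true .pp 2 0 2 (qsf 1073741824 536870912 1239849684 370763052 0) ndF3q2 ndF1q2b pcF0 Cut.none Ext.none)

def k0_pp_202_b : ∃ t, chk3 f_pp_202_b t 1 1 1 = true :=
  ⟨(l 3), by decide +kernel⟩

theorem c_pp_202_b : CertFX 1073741824 536870912 1239849684 370763052 1046898278 26843546 false true true .pp 2 0 2
    ndF3q2 ndF1q2b pcF0 Cut.none Ext.none :=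
  certFX0 (fam := false) (s1 := true) (s2 := true) (a := 2) (b := 0) (c := 2) (cn := .pp) (n1 := ndF3q2) (n2 := ndF1q2b) (pc := pcF0) (cut := Cut.none) (xt := Ext.none) (P1 := 1073741824) (W1 := 536870912) (P2 := 1239849684) (W2 := 370763052) (P3 := 1046898278) (W3 := 26843546)
    rfl k0_pp_202_b

noncomputable def f_pp_203 : ℕ → ℕ → ℕ → ℕ → Bool := onCell 1073741824 536870912 1610612736 469762048 1046898278 26843546
    (rowFX 0 false true true .up 2 0 3 (qsf 1073741824 536870912 1610612736 469762048 0) ndF3q2 ndF1q3 pcF0 Cut.none Ext.none)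

def k0_pp_203 : ∃ t, chk3 f_pp_203 t 1 1 1 = true :=
  ⟨(l 3), by decide +kernel⟩

theorem c_pp_203 : CertFX 1073741824 536870912 1610612736 469762048 1046898278 26843546 false true true .up 2 0 3
    ndF3q2 ndF1q3 pcF0 Cut.none Ext.none :=
  certFX0 (fam := false) (s1 := true) (s2 := true) (a := 2) (b := 0) (c := 3) (cn := .up) (n1 := ndF3q2) (n2 := ndF1q3) (pc := pcF0) (cut := Cut.none) (xt := Ext.none) (P1 := 1073741824) (W1 := 536870912) (P2 := 1610612736) (W2 := 469762048) (P3 := 1046898278) (W3 := 26843546)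
    rfl k0_pp_203

noncomputable def f_pp_213 : ℕ → ℕ → ℕ → ℕ → Bool := onCell 1073741824 536870912 1610612736 469762048 1046898278 26843546
    (rowFX 0 false true true .pnn 2 1 3 (qsf 1073741824 536870912 1610612736 469762048 1) ndF3q2 ndF1q3 pcF1 Cut.none Ext.none)

def k0_pp_213 : ∃ t, chk3 f_pp_213 t 1 1 1 = true :=
  ⟨(l 3), by decide +kernel⟩

theorem c_pp_213 : CertFX 1073741824 536870912 1610612736 469762048 1046898278 26843546 false true true .pnn 2 1 3
    ndF3q2 ndF1q3 pcF1 Cut.none Ext.none :=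
  certFX0 (fam := false) (s1 := true) (s2 := true) (a := 2) (b := 1) (c := 3) (cn := .pnn) (n1 := ndF3q2) (n2 := ndF1q3) (pc := pcF1) (cut := Cut.none) (xt := Ext.none) (P1 := 1073741824) (W1 := 536870912) (P2 := 1610612736) (W2 := 469762048) (P3 := 1046898278) (W3 := 26843546)
    rfl k0_pp_213

noncomputable def f_pp_303 : ℕ → ℕ → ℕ → ℕ → Bool := onCell 1610612736 536870912 1610612736 469762048 1046898278 26843546
    (rowFX 0 false true true .npn 3 0 3 (qsf 1610612736 536870912 1610612736 469762048 0) ndF3q3 ndF1q3 pcF0 Cut.none Ext.none)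

def k0_pp_303 : ∃ t, chk3 f_pp_303 t 1 1 1 = true :=
  ⟨(l 3), by decide +kernel⟩

theorem c_pp_303 : CertFX 1610612736 536870912 1610612736 469762048 1046898278 26843546 false true true .npn 3 0 3
    ndF3q3 ndF1q3 pcF0 Cut.none Ext.none :=
  certFX0 (fam := false) (s1 := true) (s2 := true) (a := 3) (b := 0) (c := 3) (cn := .npn) (n1 := ndF3q3) (n2 := ndF1q3) (pc := pcF0) (cut := Cut.none) (xt := Ext.none) (P1 := 1610612736) (W1 := 536870912) (P2 := 1610612736) (W2 := 469762048) (P3 := 1046898278) (W3 := 26843546)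
    rfl k0_pp_303

noncomputable def f_pp_313 : ℕ → ℕ → ℕ → ℕ → Bool := onCell 1610612736 536870912 1610612736 469762048 1046898278 26843546
    (rowFX 0 false true true .dn 3 1 3 (qsf 1610612736 536870912 1610612736 469762048 1) ndF3q3 ndF1q3 pcF1 Cut.none Ext.none)

def k0_pp_313 : ∃ t, chk3 f_pp_313 t 1 1 1 = true :=
  ⟨(l 1), by decide +kernel⟩

theorem c_pp_313 : CertFX 1610612736 536870912 1610612736 469762048 1046898278 26843546 false true true .dn 3 1 3
    ndF3q3 ndF1q3 pcF1 Cut.none Ext.none :=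
  certFX0 (fam := false) (s1 := true) (s2 := true) (a := 3) (b := 1) (c := 3) (cn := .dn) (n1 := ndF3q3) (n2 := ndF1q3) (pc := pcF1) (cut := Cut.none) (xt := Ext.none) (P1 := 1610612736) (W1 := 536870912) (P2 := 1610612736) (W2 := 469762048) (P3 := 1046898278) (W3 := 26843546)
    rfl k0_pp_313

noncomputable def f_pm_001 : ℕ → ℕ → ℕ → ℕ → Bool := onCell 0 536870912 536870912 536870912 1046898278 26843546
    (rowFX 0 false true false .up 0 0 1 (qsf 0 536870912 536870912 536870912 0) ndF3q0 ndF1q1 pcF0 Cut.none Ext.none)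

def k0_pm_001 : ∃ t, chk3 f_pm_001 t 1 1 1 = true :=
  ⟨(l 4), by decide +kernel⟩

theorem c_pm_001 : CertFX 0 536870912 536870912 536870912 1046898278 26843546 false true false .up 0 0 1
    ndF3q0 ndF1q1 pcF0 Cut.none Ext.none :=
  certFX0 (fam := false) (s1 := true) (s2 := false) (a := 0) (b := 0) (c := 1) (cn := .up) (n1 := ndF3q0) (n2 := ndF1q1) (pc := pcF0) (cut := Cut.none) (xt := Ext.none) (P1 := 0) (W1 := 536870912) (P2 := 536870912) (W2 := 536870912) (P3 := 1046898278) (W3 := 26843546)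
    rfl k0_pm_001

noncomputable def f_pm_011 : ℕ → ℕ → ℕ → ℕ → Bool := onCell 0 536870912 536870912 536870912 1046898278 26843546
    (rowFX 0 false true false .pnn 0 1 1 (qsf 0 536870912 536870912 536870912 1) ndF3q0 ndF1q1 pcF1 Cut.none Ext.none)

def k0_pm_011 : ∃ t, chk3 f_pm_011 t 1 1 1 = true :=
  ⟨(l 4), by decide +kernel⟩

theorem c_pm_011 : CertFX 0 536870912 536870912 536870912 1046898278 26843546 false true false .pnn 0 1 1
    ndF3q0 ndF1q1 pcF1 Cut.none Ext.none :=
  certFX0 (fam := false) (s1 := true) (s2 := false) (a := 0) (b := 1) (c := 1) (cn := .pnn) (n1 := ndF3q0) (n2 := ndF1q1) (pc := pcF1) (cut := Cut.none) (xt := Ext.none) (P1 := 0) (W1 := 536870912) (P2 := 536870912) (W2 := 536870912) (P3 := 1046898278) (W3 := 26843546)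
    rfl k0_pm_011

noncomputable def f_pm_012_a : ℕ → ℕ → ℕ → ℕ → Bool := onCell 536870912 536870912 0 420477299 1046898278 26843546
    (rowFX 2 false true false .pnp 0 1 2 (qsf 0 536870912 0 420477299 1) ndF3q0 ndF1q2a pcF1 Cut.none Ext.none)

def k0_pm_012_a : ∃ t, chk3 f_pm_012_a t 2 1 1 = true :=
  ⟨(b (a (l 2) (b (b (l 16777216) (a (l 16766568) (a (l 16771560) (l 16777216)))) (b (a (l 16723320) (a (l 16689760) (l 16701880))) (a (l 16559048) (a (l 16456096) (l 16365832)))))) (a (l 4) (b (a (l 4) (b (b (l 16067048) (l 4)) (l 4))) (l 4)))), by decide +kernel⟩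

def k1_pm_012_a : ∃ t, chk3 f_pm_012_a t 6 1 1 = true :=
  ⟨(b (a (b (a (l 16777184) (b (l 16773768) (b (l 16768104) (l 16757880)))) (a (b (b (l 16776936) (l 16721384)) (l 16368976)) (b (b (l 16728032) (l 16573600)) (b (l 16217448) (l 16138552))))) (a (a (b (l 16756640) (b (b (b (l 16761552) (l 16618920)) (l 16427296)) (b (l 16196016) (l 15987256)))) (b (l 16764936) (b (a (b (l 16735976) (l 16489608)) (b (l 16744896) (c (l 16592992) (l 16510800)))) (b (l 16138232) (l 15833272))))) (b (l 16623248) (b (a (b (a (a (l 16741600) (l 16769440)) (l 16683088)) (a (b (c (l 16731032) (l 16743440)) (c (l 16500984) (l 16507424))) (a (b (l 16668104) (b (l 16617352) (l 16472032))) (l 16589080)))) (a (l 16414856) (l 16180360))) (a (b (a (l 16163592) (b (l 16355952) (l 16084376))) (l 15673432)) (b (b (a (a (l 16289856) (l 16117792)) (l 16199232)) (c (l 15997840) (l 15950560))) (l 15803632))))))) (b (b (a (a (b (l 15967032) (l 4)) (a (l 15795240) (l 15697760))) (a (b (l 15634256) (a (l 15482472) (l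 15356144))) (b (a (l 15428408) (l 15444984)) (a (l 15231208) (l 15157024))))) (a (l 4) (a (l 4) (b (a (l 15131160) (l 14979112)) (l 4))))) (l 4))), by decide +kernel⟩

def k2_pm_012_a : ∃ t, chk3 f_pm_012_a t 14 1 1 = true :=
  ⟨(b (b (a (l 16119440) (l 15717072)) (a (b (l 15992808) (a (a (b (a (c (l 16170896) (l 15994816)) (l 16099000)) (l 15858304)) (b (l 15979296) (b (b (l 15960264) (l 15886904)) (l 15756712)))) (b (l 15779080) (a (b (l 15797680) (l 15596256)) (l 15640480))))) (a (a (l 15365304) (l 15517480)) (l 15402672)))) (b (b (a (a (b (a (l 15440816) (l 15467064)) (a (l 15140216) (l 15170568))) (a (b (l 15504416) (l 15177936)) (b (b (l 15473592) (l 15378544)) (b (l 15252400) (l 15122792))))) (a (a (b (b (c (l 15499672) (l 15471264)) (l 15415488)) (a (l 15172728) (l 15196392))) (a (b (l 15352400) (l 15233128)) (b (l 15384224) (l 15210232)))) (a (b (l 15329560) (b (a (l 15233368) (l 15301848)) (l 15120112))) (b (l 15282552) (b (a (l 15266936) (l 15251288)) (c (l 15257672) (l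 15223936))))))) (b (a (a (l 14864984) (a (l 14833920) (l 14884184))) (b (a (a (l 15021192) (l 14946120)) (a (l 15065280) (c (l 15135208) (l 15108592)))) (c (a (l 14900576) (a (l 14962096) (l 14977808))) (a (l 14863912) (a (l 14933904) (l 14952712)))))) (a (a (l 4) (c (a (l 14730432) (l 14729096)) (l 14681384))) (c (a (c (b (l 14774832) (l 14712696)) (l 14672224)) (a (b (l 14833248) (l 14719680)) (b (l 14882728) (l 14755176)))) (a (b (l 14731600) (l 14668696)) (a (l 14801784) (b (l 14861632) (l 14737896)))))))) (a (l 4) (a (l 4) (b (b (b (c (a (c (l 14686176) (l 14702120)) (c (l 14671824) (l 14692680))) (l 14671928)) (l 4)) (l 4)) (l 4)))))), by decide +kernel⟩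

def k3_pm_012_a : ∃ t, chk3 f_pm_012_a t 15 2 1 = true :=
  ⟨(a (b (c (l 15486800) (l 15490448)) (c (l 15214344) (l 15221984))) (b (a (l 15154816) (c (l 15359776) (l 15358528))) (a (c (l 15018240) (l 15074824)) (c (l 14996504) (l 14996456))))), by decide +kernel⟩

def k4_pm_012_a : ∃ t, chk3 f_pm_012_a t 15 6 1 = true :=
  ⟨(b (a (a (a (a (c (l 15220664) (l 15188472)) (l 15190488)) (l 15136224)) (l 15019296)) (a (l 14858456) (a (l 14829952) (l 14830232)))) (a (a (b (b (c (a (a (c (l 15207344) (l 15194776)) (l 15165680)) (l 15038248)) (a (a (l 15167600) (l 15136240)) (l 15087528))) (a (a (l 15015064) (c (l 15101856) (l 15050096))) (a (c (c (l 15119144) (l 15127088)) (l 15099424)) (c (l 14869288) (l 15066504))))) (b (c (a (a (l 14897560) (l 14931728)) (a (l 14964432) (c (l 15018712) (l 15045544)))) (a (l 14648312) (a (l 14949680) (l 15021520)))) (a (c (a (l 14792704) (c (l 14817896) (l 14839744))) (l 14806760)) (c (a (c (l 14832656) (l 14855280)) (l 14866864)) (a (l 14837864) (l 14866648))))))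 (b (c (l 14825440) (l 14995136)) (b (a (c (a (b (l 15036168) (c (l 15004312) (l 15053152))) (l 14985936)) (a (b (l 15037848) (l 15027360)) (l 15003240))) (l 14939776)) (a (c (a (l 14921208) (a (l 14936056) (l 14741312))) (a (l 14929408) (b (l 15000056) (l 14935480)))) (c (a (a (l 14951168) (l 14923944)) (l 14885552)) (a (b (l 14972904) (l 14973664)) (l 14944768))))))) (a (c (l 14798248) (l 14873656)) (c (l 14764504) (l 14769328))))), by decide +kernel⟩

def k5_pm_012_a : ∃ t, chk3 f_pm_012_a t 15 28 1 = true :=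
  ⟨(a (a (c (a (c (l 233769234407) (l 257928478791)) (b (a (l 14740040) (c (l 14764880) (l 14792944))) (c (l 14763272) (l 14791960)))) (a (l 14789088) (b (a (l 14741376) (l 14786200)) (l 14787376)))) (c (b (b (a (a (l 14817568) (l 14852624)) (a (l 14900296) (l 14885912))) (a (a (l 14781352) (l 14797896)) (a (l 14832368) (l 14878616)))) (a (a (l 14727128) (b (l 14776624) (l 14745784))) (a (b (l 14794528) (l 14784016)) (b (l 14824736) (l 14797824))))) (a (c (c (a (l 14859576) (l 14830296)) (l 14837432)) (l 14567768)) (b (a (b (l 14920296) (l 14862328)) (b (l 14945888) (l 14937824))) (c (c (l 14807880) (l 14808560)) (l 14790632)))))) (a (a (c (c (a (c (l 14787320) (l 14829256)) (l 14686072)) (a (b (l 14868984) (l 14874272)) (l 14789912))) (c (c (a (c (l 14776472) (l 14946768)) (l 14726296)) (a (l 14898184) (l 14903296))) (a (l 14924520) (l 14887848)))) (l 14579424)) (c (l 14767088) (l 14711632)))), by decide +kernel⟩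

def k6_pm_012_a : ∃ t, chk3 f_pm_012_a t 15 29 1 = true :=
  ⟨(a (c (a (a (l 4) (c (l 14667352) (l 14760552))) (c (a (l 14836680) (a (l 14807424) (l 250412380471))) (a (l 14866000) (a (l 14831000) (c (l 14884192) (l 14716416)))))) (a (l 71097600727) (a (a (l 14883440) (l 82371800759)) (c (c (l 14725032) (l 14938264)) (l 14922568))))) (c (a (a (a (c (l 14824776) (l 14859368)) (c (b (a (l 14801952) (l 14814632)) (l 14837696)) (b (b (l 14886152) (l 14788992)) (l 14866272)))) (c (a (c (l 14815440) (l 14577360)) (l 14809568)) (a (b (l 14848936) (b (l 14880488) (l 14847208))) (l 14832736)))) (a (c (l 14837640) (a (l 14814840) (l 14831008))) (l 14896248))) (a (a (b (b (a (a (l 14852568) (l 14878856)) (a (l 14911360) (l 14944360))) (c (c (l 14819296) (l 14855016)) (l 14845504))) (c (c (l 14858336) (l 14917080)) (l 14907296))) (c (a (b (c (l 14916280) (l 14944360)) (b (l 14936320) (l 14886744))) (b (l 14885160) (l 14882096))) (a (b (l 14934320) (b (l 14945136) (l 14897288))) (l 14937328))))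 (a (c (l 14857672) (l 14900280)) (l 14873848))))), by decide +kernel⟩

def k7_pm_012_a : ∃ t, chk3 f_pm_012_a t 15 15 1 = true :=
  ⟨(a (l 4) (a (b (c (a (c (l 14949984) (l 14961728)) (b (c (a (l 14908320) (l 14917352)) (a (l 14924720) (l 14697488))) (l 14960592))) (c (a (c (l 14981160) (l 14996760)) (b (a (l 14941824) (a (l 14939608) (l 14909032))) (l 14974816))) (a (l 14993992) (b (a (l 14972864) (c (l 14780280) (l 15003608))) (l 15029768))))) (l 4)) (c (a (c (l 15057424) (a (b (l 14970488) (l 15212704)) (l 15131144))) (b (l 15072072) (l 15294104))) (a (c (a (b (b (a (b (l 14961072) (l 14981792)) (l 14968888)) (l 15050632)) (l 15213544)) (b (c (l 14997176) (l 14830416)) (a (l 15231696) (l 15127440)))) (c (a (b (b (a (b (l 15011104) (l 15020280)) (l 15026632)) (l 14908536)) (l 15233512)) (a (b (b (l 15018464) (l 15121848)) (l 15258664)) (b (l 15052520) (l 384630998487)))) (b (a (l 14899928) (a (l 15070544) (l 15066624))) (a (l 15237352) (b (l 15194848) (l 15310848)))))) (b (l 15054952)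 (c (a (l 15258192) (l 15285824)) (a (c (a (l 15276944) (l 15261488)) (c (a (l 15304216) (l 15286432)) (l 15299128))) (a (c (l 15264592) (b (l 15214200) (l 15232392))) (l 15288024))))))))), by decide +kernel⟩

theorem s8_pm_012_a : ∃ t, chk3 f_pm_012_a t 15 14 1 = true := ex3_b k5_pm_012_a k6_pm_012_a

theorem s9_pm_012_a : ∃ t, chk3 f_pm_012_a t 15 7 1 = true := ex3_b s8_pm_012_a k7_pm_012_a

theorem s10_pm_012_a : ∃ t, chk3 f_pm_012_a t 15 3 1 = true := ex3_b k4_pm_012_a s9_pm_012_a

theorem s11_pm_012_a : ∃ t, chk3 f_pm_012_a t 15 1 1 = true := ex3_b k3_pm_012_a s10_pm_012_a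

theorem s12_pm_012_a : ∃ t, chk3 f_pm_012_a t 7 1 1 = true := ex3_a k2_pm_012_a s11_pm_012_a

theorem s13_pm_012_a : ∃ t, chk3 f_pm_012_a t 3 1 1 = true := ex3_a k1_pm_012_a s12_pm_012_a

theorem s14_pm_012_a : ∃ t, chk3 f_pm_012_a t 1 1 1 = true := ex3_a k0_pm_012_a s13_pm_012_a

theorem c_pm_012_a : CertFX 0 536870912 0 420477299 1046898278 26843546 false true false .pnp 0 1 2
    ndF3q0 ndF1q2a pcF1 Cut.none Ext.none :=
  certFX2 (fam := false) (s1 := true) (s2 := false) (a := 0) (b := 1) (c := 2) (cn := .pnp) (n1 := ndF3q0) (n2 := ndF1q2a) (pc := pcF1) (cut := Cut.none) (xt := Ext.none) (P1 := 0) (W1 := 536870912) (P2 := 0) (W2 := 420477299) (P3 := 1046898278) (W3 := 26843546)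
    rfl (fun _ => rfl) s14_pm_012_a

noncomputable def f_pm_012_b : ℕ → ℕ → ℕ → ℕ → Bool := onCell 0 536870912 536870912 536870912 1046898278 26843546
    (rowFX 1 false true false .pnp 0 1 2 (qsf 0 536870912 1239849684 370763052 1) ndF3q0 ndF1q2b pcF1 Cut.none Ext.none)

def k0_pm_012_b : ∃ t, chk3 f_pm_012_b t 1 1 1 = true :=
  ⟨(b (a (l 1) (b (l 1) (a (l 1) (b (l 712460902423) (a (l 16718352) (l 16777216)))))) (a (b (l 1) (a (l 1) (b (a (l 1) (b (a (l 1) (l 16258848)) (a (l 16048224) (l 15847104)))) (a (b (a (l 1) (l 470867250583)) (a (b (l 1) (l 537439034743)) (b (l 15653496) (l 15473480)))) (b (a (l 15388632) (l 15409256)) (a (b (l 15285712) (l 15095936)) (c (l 14943552) (l 14943080)))))))) (b (a (b (a (l 1) (l 525092892599)) (b (a (l 16715400) (l 16766112)) (a (l 16654400) (l 16628976)))) (b (a (l 16775568) (l 16917176)) (b (a (l 16767032) (l 16751696)) (a (l 16607736) (b (a (l 16736352) (l 16683920)) (l 16443024)))))) (a (b (b (l 85394247031) (a (l 15725968) (l 15584544)))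 (b (a (c (l 15253808) (l 15254032)) (l 15058000)) (a (b (l 14834952) (l 14624136)) (b (l 14607568) (l 14382856))))) (b (b (l 15984928) (l 15416984)) (b (c (l 14842368) (l 14844816)) (a (l 14321488) (l 14160064)))))))), by decide +kernel⟩

theorem c_pm_012_b : CertFX 0 536870912 1239849684 370763052 1046898278 26843546 false true false .pnp 0 1 2
    ndF3q0 ndF1q2b pcF1 Cut.none Ext.none :=
  certFX1 (fam := false) (s1 := true) (s2 := false) (a := 0) (b := 1) (c := 2) (cn := .pnp) (n1 := ndF3q0) (n2 := ndF1q2b) (pc := pcF1) (cut := Cut.none) (xt := Ext.none) (P1 := 0) (W1 := 536870912) (P2 := 1239849684) (W2 := 370763052) (P3 := 1046898278) (W3 := 26843546)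
    rfl (fun _ => rfl) k0_pm_012_b

noncomputable def f_pm_022_a : ℕ → ℕ → ℕ → ℕ → Bool := onCell 0 536870912 0 420477299 1046898278 26843546
    (rowFX 0 false true false .pp 0 2 2 (qsf 0 536870912 0 420477299 2) ndF3q0 ndF1q2a pcF2 Cut.none Ext.none)

def k0_pm_022_a : ∃ t, chk3 f_pm_022_a t 4 2 1 = true :=
  ⟨(a (a (b (a (a (c (l 16111816) (l 16038392)) (b (a (l 16207576) (c (l 16368880) (l 16410832))) (c (a (l 16276144) (l 16381016)) (l 16195872)))) (b (c (l 16462816) (l 16480672)) (c (l 16476864) (l 16476168)))) (a (b (a (a (c (l 16266632) (l 16224264)) (c (l 16252048) (b (l 16324520) (l 16335928)))) (c (l 16375440) (l 16414040))) (a (b (c (l 16342200) (a (l 16316512) (l 16370896))) (c (l 16361240) (l 16376432))) (c (l 16407552) (l 16446648)))) (c (l 16277848) (l 16396928)))) (b (c (a (l 16410168) (l 16174688)) (a (l 16392744) (l 16290544))) (a (c (b (l 16349808) (l 16298248)) (l 16267152)) (b (c (l 16189264) (l 16185496)) (c (a (l 16153440) (l 16045280)) (l 16094536)))))) (b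 (a (a (c (b (l 16155472) (l 15986864)) (b (l 16215496) (l 16109432))) (c (l 15802272) (l 15947528))) (c (a (l 15570448) (l 15480152)) (a (l 15695368) (l 15477720)))) (a (b (c (a (l 15825976) (l 15732360)) (l 15719648)) (c (a (l 15847296) (l 15560872)) (l 15519608))) (c (b (l 15346168) (l 15162208)) (a (l 15203264) (b (l 15230496) (l 15032624))))))), by decide +kernel⟩

def k1_pm_022_a : ∃ t, chk3 f_pm_022_a t 4 6 1 = true :=
  ⟨(a (a (a (b (c (a (l 16385792) (l 16436992)) (c (l 16255344) (l 16291176))) (c (a (b (l 16481992) (l 16503376)) (c (l 16370448) (l 16478136))) (a (c (l 16352608) (l 16346312)) (l 16430176)))) (b (c (l 16402472) (l 16393160)) (c (b (l 16318112) (a (l 16308800) (c (l 16173392) (l 16252064)))) (b (l 16338672) (l 16079400))))) (b (a (c (a (l 16264792) (l 16011384)) (l 16136448)) (c (a (l 15926608) (l 15889456)) (l 15962792))) (c (a (b (a (l 16127352) (l 16051792)) (c (l 16012112) (l 16036320))) (c (l 15762416) (l 15784056))) (a (b (l 16110104) (l 16029176)) (l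 15789736))))) (a (c (b (a (l 15668496) (l 15373072)) (a (c (l 15449272) (l 15470848)) (l 15156480))) (b (a (l 15684144) (l 15375952)) (a (l 15474520) (c (l 15157824) (l 15159240))))) (c (b (l 14960016) (l 14742256)) (b (a (l 15060784) (l 14813192)) (a (c (l 14838576) (l 14835912)) (l 14576336)))))), by decide +kernel⟩

def k2_pm_022_a : ∃ t, chk3 f_pm_022_a t 16 14 1 = true :=
  ⟨(c (a (b (a (c (b (l 16535032) (l 16541072)) (l 16537504)) (c (a (l 16494744) (b (l 16447008) (l 16437056))) (l 16453448))) (b (a (c (l 16538840) (l 16563960)) (c (a (c (l 16480512) (l 16496720)) (l 16401800)) (l 16448176))) (a (c (a (c (l 16565784) (l 16584176)) (c (l 16466320) (l 16572144))) (a (l 16584224) (l 16571752))) (c (a (c (l 16484168) (l 16527712)) (l 16443136)) (l 16482056))))) (b (a (c (b (l 16237304) (l 16264760)) (l 16200808)) (c (l 16180152) (l 16187848))) (c (a (l 16297224) (l 16154568)) (a (l 16326216) (l 16166320))))) (a (b (a (c (l 16529224) (l 16516512)) (c (l 16406784) (l 16412552)))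 (a (a (c (l 16587136) (l 16582984)) (c (l 16547376) (l 16529272))) (b (a (l 16448872) (l 16408064)) (l 16346672)))) (b (b (l 16031360) (l 16186264)) (l 16230968)))), by decide +kernel⟩

def k3_pm_022_a : ∃ t, chk3 f_pm_022_a t 16 15 1 = true :=
  ⟨(c (a (b (a (b (c (a (b (c (l 16537688) (l 16581336)) (c (l 16542464) (l 16541296))) (l 16481728)) (a (l 16538696) (l 16589736))) (c (c (l 16561976) (l 16525344)) (l 16540744))) (a (c (a (l 16467336) (l 16458072)) (l 16535544)) (c (l 16382520) (l 16448712)))) (c (c (a (a (l 16557208) (l 16546344)) (l 16376688)) (a (b (l 16534304) (l 16564744)) (a (l 16496856) (l 16455248)))) (a (a (b (l 16564192) (c (l 16535016) (l 16582424))) (c (l 16560384) (l 16606720))) (a (c (l 16526528) (l 16561384)) (l 16385616))))) (c (b (a (l 16315496) (l 16142168)) (a (l 16323280) (l 16154800))) (b (a (l 16285464) (l 16161872)) (a (c (l 16334192) (l 16345192)) (l 16143504))))) (a (b (a (b (a (c (l 16538848) (a (l 16573472) (l 16601784))) (l 16547640)) (c (l 16529152)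 (l 16523288))) (l 16364816)) (a (c (a (l 16561704) (l 16604456)) (c (l 16519472) (l 16527032))) (c (l 16467040) (l 16493160)))) (b (c (l 16248256) (l 16237144)) (c (a (l 16300944) (l 16181232)) (l 16262616))))), by decide +kernel⟩

def k4_pm_022_a : ∃ t, chk3 f_pm_022_a t 17 7 1 = true :=
  ⟨(b (b (c (a (c (l 15938728) (l 15951232)) (c (l 15607912) (l 15627272))) (a (l 15949320) (l 15642384))) (c (a (c (l 15904048) (l 15817136)) (c (l 15576056) (l 15586632))) (a (l 15903272) (l 15566944)))) (c (a (b (c (l 15896736) (a (l 15988800) (l 15818000))) (c (l 15915152) (l 15824864))) (b (l 15578320) (l 15592544))) (a (c (b (l 15885096) (a (l 16012224) (l 15841640))) (b (l 15928128) (l 15936840))) (b (c (l 15587912) (l 15598880)) (c (l 15586416) (a (l 15683304) (l 15505296))))))), by decide +kernel⟩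

def k5_pm_022_a : ∃ t, chk3 f_pm_022_a t 9 7 1 = true :=
  ⟨(a (b (b (c (a (l 15304144) (l 14996976)) (a (c (l 15318984) (l 15315504)) (l 14864168))) (c (l 15122648) (a (c (l 15268352) (l 15280512)) (l 14943832)))) (c (b (l 15116472) (l 15149904)) (a (c (l 15116424) (b (l 15253520) (l 15088784))) (b (l 14925296) (l 1))))) (b (c (l 14567432) (b (l 14453304) (l 14494048))) (l 1))), by decide +kernel⟩

def k6_pm_022_a : ∃ t, chk3 f_pm_022_a t 5 1 1 = true :=
  ⟨(a (b (b (a (c (l 15162584) (b (l 15229776) (l 15053952))) (l 1)) (a (c (l 14795448) (b (l 14822056) (l 14657216))) (l 1))) (b (a (c (l 14368872) (b (l 14431936) (l 1))) (l 1)) (l 1))) (l 1)), by decide +kernel⟩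

def k7_pm_022_a : ∃ t, chk3 f_pm_022_a t 3 1 1 = true :=
  ⟨(l 1), by decide +kernel⟩

theorem s8_pm_022_a : ∃ t, chk3 f_pm_022_a t 16 7 1 = true := ex3_b k2_pm_022_a k3_pm_022_a

theorem s9_pm_022_a : ∃ t, chk3 f_pm_022_a t 8 7 1 = true := ex3_a s8_pm_022_a k4_pm_022_a

theorem s10_pm_022_a : ∃ t, chk3 f_pm_022_a t 4 7 1 = true := ex3_a s9_pm_022_a k5_pm_022_a

theorem s11_pm_022_a : ∃ t, chk3 f_pm_022_a t 4 3 1 = true := ex3_b k1_pm_022_a s10_pm_022_a

theorem s12_pm_022_a : ∃ t, chk3 f_pm_022_a t 4 1 1 = true := ex3_b k0_pm_022_a s11_pm_022_a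

theorem s13_pm_022_a : ∃ t, chk3 f_pm_022_a t 2 1 1 = true := ex3_a s12_pm_022_a k6_pm_022_a

theorem s14_pm_022_a : ∃ t, chk3 f_pm_022_a t 1 1 1 = true := ex3_a s13_pm_022_a k7_pm_022_a

theorem c_pm_022_a : CertFX 0 536870912 0 420477299 1046898278 26843546 false true false .pp 0 2 2
    ndF3q0 ndF1q2a pcF2 Cut.none Ext.none :=
  certFX0 (fam := false) (s1 := true) (s2 := false) (a := 0) (b := 2) (c := 2) (cn := .pp) (n1 := ndF3q0) (n2 := ndF1q2a) (pc := pcF2) (cut := Cut.none) (xt := Ext.none) (P1 := 0) (W1 := 536870912) (P2 := 0) (W2 := 420477299) (P3 := 1046898278) (W3 := 26843546)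
    rfl s14_pm_022_a

noncomputable def f_pm_022_b : ℕ → ℕ → ℕ → ℕ → Bool := onCell 0 536870912 1073741824 536870912 1046898278 26843546
    (rowFX 1 false true false .pp 0 2 2 (qsf 0 536870912 1239849684 370763052 2) ndF3q0 ndF1q2b pcF2 Cut.none Ext.none)

def k0_pm_022_b : ∃ t, chk3 f_pm_022_b t 1 4 1 = true :=
  ⟨(a (a (b (a (l 1) (a (b (l 1) (c (l 722123204519) (l 642129446935))) (b (c (l 15547520) (l 518111294439)) (c (l 15515760) (l 15742816))))) (a (a (b (l 1) (a (l 1) (c (l 474626116247) (l 16229920)))) (b (b (l 1) (c (l 469257739335) (l 367252304039))) (c (a (l 16389608) (l 16221304)) (l 67678048919)))) (b (b (a (c (l 16021888) (l 16189520)) (l 15778568)) (a (c (l 15973680) (l 16157592)) (l 15772960))) (a (a (l 16097584) (l 15946976)) (l 15723952))))) (b (a (c (b (l 15171048) (a (l 15420824) (l 15122840))) (b (a (l 15318560) (l 14983544)) (l 15177072))) (c (b (l 14597304) (l 14502624)) (b (a (l 14669936) (l 14462456)) (l 14735112)))) (a (b (c (b (l 15368200) (l 15401304))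 (l 15153584)) (l 15365056)) (b (c (a (l 15010120) (l 14854280)) (l 14901296)) (l 15028864))))) (b (a (c (b (l 14285280) (l 14481560)) (b (a (l 14328248) (l 14172144)) (l 14463128))) (c (l 14150320) (b (l 13988952) (l 14242048)))) (a (b (c (l 14709712) (l 14676840)) (l 14895568)) (b (c (l 14544384) (l 14510904)) (l 14820712))))), by decide +kernel⟩

def k1_pm_022_b : ∃ t, chk3 f_pm_022_b t 1 5 1 = true :=
  ⟨(a (a (b (a (b (c (a (b (a (l 696354171815) (l 16398688)) (a (l 16048336) (l 16241944))) (b (l 16237936) (l 16291904))) (b (a (a (l 404296135767) (l 16473920)) (l 16201040)) (a (c (l 229812769207) (l 16040416)) (l 16321840)))) (a (a (c (b (l 15897208) (l 15621968)) (b (l 15911072) (l 15627624))) (c (l 15770296) (l 15915752))) (b (c (l 16178616) (l 16249696)) (l 15823080)))) (b (b (a (l 15950872) (l 15700248)) (a (l 15981704) (l 15829912))) (a (a (l 16233608) (l 16335072)) (l 16159960)))) (a (b (a (c (a (l 15122216) (l 15445592)) (a (l 15179176) (l 15450416))) (c (l 15620912) (l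 15737448))) (a (c (a (l 14989008) (l 15199296)) (a (l 14974712) (l 15196136))) (l 15320432))) (b (a (a (l 16063880) (l 16247912)) (l 16478096)) (a (l 15949464) (l 16291720))))) (b (b (a (b (l 15434152) (l 15581440)) (b (l 15160800) (l 15328856))) (a (l 15900032) (l 15634576))) (b (a (l 16245832) (l 15962752)) (a (l 16461080) (l 16200064))))) (a (b (b (b (l 15105496) (l 15283992)) (l 15556248)) (b (l 15850136) (l 16105744))) (b (b (l 15165040) (l 2)) (l 2)))), by decide +kernel⟩

def k2_pm_022_b : ∃ t, chk3 f_pm_022_b t 1 3 1 = true :=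
  ⟨(a (b (a (a (b (a (c (b (l 15041888) (l 14974880)) (b (l 15031144) (l 14961832))) (b (l 15454960) (l 15369504))) (a (c (l 14736768) (l 14888824)) (c (l 15299184) (l 15273696)))) (b (a (c (l 15822160) (l 15798384)) (l 16144296)) (c (a (l 15685336) (l 16010808)) (l 15659592)))) (b (a (l 16319624) (b (l 16393192) (l 16595904))) (a (b (l 16355640) (l 16346384)) (b (l 16728808) (l 2))))) (a (a (b (c (a (l 14900208) (l 15294328)) (a (l 14884312) (l 15268632))) (c (l 14940272) (l 14948712))) (b (c (l 15825816) (l 15801104)) (c (l 15825816) (l 15801104)))) (b (a (c (l 16351912) (l 16340864)) (l 2)) (l 2)))) (b (b (b (l 16304616) (l 2)) (l 2)) (l 2))), by decide +kernel⟩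

theorem s3_pm_022_b : ∃ t, chk3 f_pm_022_b t 1 2 1 = true := ex3_b k0_pm_022_b k1_pm_022_b

theorem s4_pm_022_b : ∃ t, chk3 f_pm_022_b t 1 1 1 = true := ex3_b s3_pm_022_b k2_pm_022_b

theorem c_pm_022_b : CertFX 0 536870912 1239849684 370763052 1046898278 26843546 false true false .pp 0 2 2
    ndF3q0 ndF1q2b pcF2 Cut.none Ext.none :=
  certFX1 (fam := false) (s1 := true) (s2 := false) (a := 0) (b := 2) (c := 2) (cn := .pp) (n1 := ndF3q0) (n2 := ndF1q2b) (pc := pcF2) (cut := Cut.none) (xt := Ext.none) (P1 := 0) (W1 := 536870912) (P2 := 1239849684) (W2 := 370763052) (P3 := 1046898278) (W3 := 26843546)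
    rfl (fun _ => rfl) s4_pm_022_b

noncomputable def f_pm_023 : ℕ → ℕ → ℕ → ℕ → Bool := onCell 1073741824 536870912 1610612736 469762048 1046898278 26843546
    (rowFX 2 false true false .up 0 2 3 (qsf 0 536870912 1610612736 469762048 2) ndF3q0 ndF1q3 pcF2 Cut.none Ext.none)

def k0_pm_023 : ∃ t, chk3 f_pm_023 t 1 1 1 = true :=
  ⟨(b (b (a (a (a (c (l 14053784) (l 14040304)) (a (l 14497664) (l 14815712))) (a (a (l 15186200) (l 15536928)) (a (l 15829376) (l 16098424)))) (b (a (a (l 16474624) (a (l 16629488) (l 16427752))) (a (a (l 16199072) (l 15829512)) (a (l 15474992) (b (l 15065168) (l 15400160))))) (a (l 4) (a (l 4) (l 4))))) (a (a (l 4) (l 4)) (l 4))) (a (a (l 2) (l 4)) (l 4))), by decide +kernel⟩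

theorem c_pm_023 : CertFX 0 536870912 1610612736 469762048 1046898278 26843546 false true false .up 0 2 3
    ndF3q0 ndF1q3 pcF2 Cut.none Ext.none :=
  certFX2 (fam := false) (s1 := true) (s2 := false) (a := 0) (b := 2) (c := 3) (cn := .up) (n1 := ndF3q0) (n2 := ndF1q3) (pc := pcF2) (cut := Cut.none) (xt := Ext.none) (P1 := 0) (W1 := 536870912) (P2 := 1610612736) (W2 := 469762048) (P3 := 1046898278) (W3 := 26843546)
    rfl (fun _ => rfl) k0_pm_023

noncomputable def f_pm_033 : ℕ → ℕ → ℕ → ℕ → Bool := onCell 0 536870912 1610612736 469762048 1046898278 26843546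
    (rowFX 0 false true false .pnn 0 3 3 (qsf 0 536870912 1610612736 469762048 3) ndF3q0 ndF1q3 pcF3 Cut.none Ext.none)

def k0_pm_033 : ∃ t, chk3 f_pm_033 t 1 1 1 = true :=
  ⟨(a (b (b (a (a (b (a (c (l 14900208) (l 14884312)) (l 15196488)) (b (c (l 15108048) (l 14822880)) (l 4))) (b (l 1) (l 4))) (l 1)) (l 4)) (l 4)) (b (l 1) (l 4))), by decide +kernel⟩

theorem c_pm_033 : CertFX 0 536870912 1610612736 469762048 1046898278 26843546 false true false .pnn 0 3 3
    ndF3q0 ndF1q3 pcF3 Cut.none Ext.none :=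
  certFX0 (fam := false) (s1 := true) (s2 := false) (a := 0) (b := 3) (c := 3) (cn := .pnn) (n1 := ndF3q0) (n2 := ndF1q3) (pc := pcF3) (cut := Cut.none) (xt := Ext.none) (P1 := 0) (W1 := 536870912) (P2 := 1610612736) (W2 := 469762048) (P3 := 1046898278) (W3 := 26843546)
    rfl k0_pm_033

noncomputable def f_pm_101 : ℕ → ℕ → ℕ → ℕ → Bool := onCell 536870912 536870912 536870912 536870912 1046898278 26843546
    (rowFX 0 false true false .npn 1 0 1 (qsf 536870912 536870912 536870912 536870912 0) ndF3q1 ndF1q1 pcF0 Cut.none Ext.none)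

def k0_pm_101 : ∃ t, chk3 f_pm_101 t 1 1 1 = true :=
  ⟨(l 4), by decide +kernel⟩

theorem c_pm_101 : CertFX 536870912 536870912 536870912 536870912 1046898278 26843546 false true false .npn 1 0 1
    ndF3q1 ndF1q1 pcF0 Cut.none Ext.none :=
  certFX0 (fam := false) (s1 := true) (s2 := false) (a := 1) (b := 0) (c := 1) (cn := .npn) (n1 := ndF3q1) (n2 := ndF1q1) (pc := pcF0) (cut := Cut.none) (xt := Ext.none) (P1 := 536870912) (W1 := 536870912) (P2 := 536870912) (W2 := 536870912) (P3 := 1046898278) (W3 := 26843546)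
    rfl k0_pm_101

noncomputable def f_pm_102_a : ℕ → ℕ → ℕ → ℕ → Bool := onCell 536870912 536870912 0 420477299 1046898278 26843546
    (rowFX 0 false true false .npp 1 0 2 (qsf 536870912 536870912 0 420477299 0) ndF3q1 ndF1q2a pcF0 Cut.none Ext.none)

def k0_pm_102_a : ∃ t, chk3 f_pm_102_a t 1 1 1 = true :=
  ⟨(a (b (a (l 2) (c (l 79691775911) (l 73786195879))) (l 4)) (b (a (a (b (l 16775704) (l 16775696)) (a (l 61975010327) (b (l 16581336) (l 16518416)))) (a (a (b (l 15910368) (l 15910360)) (b (l 15285072) (c (l 15304408) (l 15266152)))) (a (b (c (l 14669416) (l 14673600)) (c (l 14653096) (l 14656792))) (c (b (l 14031168) (l 13987448)) (b (l 14038240) (a (l 14161784) (l 13824960))))))) (l 4))), by decide +kernel⟩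

theorem c_pm_102_a : CertFX 536870912 536870912 0 420477299 1046898278 26843546 false true false .npp 1 0 2
    ndF3q1 ndF1q2a pcF0 Cut.none Ext.none :=
  certFX0 (fam := false) (s1 := true) (s2 := false) (a := 1) (b := 0) (c := 2) (cn := .npp) (n1 := ndF3q1) (n2 := ndF1q2a) (pc := pcF0) (cut := Cut.none) (xt := Ext.none) (P1 := 536870912) (W1 := 536870912) (P2 := 0) (W2 := 420477299) (P3 := 1046898278) (W3 := 26843546)
    rfl k0_pm_102_a

noncomputable def f_pm_102_b : ℕ → ℕ → ℕ → ℕ → Bool := onCell 536870912 536870912 1239849684 370763052 1046898278 26843546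
    (rowFX 0 false true false .npp 1 0 2 (qsf 536870912 536870912 1239849684 370763052 0) ndF3q1 ndF1q2b pcF0 Cut.none Ext.none)

def k0_pm_102_b : ∃ t, chk3 f_pm_102_b t 1 1 1 = true :=
  ⟨(a (b (a (l 2) (b (l 16777216) (l 16777216))) (l 2)) (a (b (a (l 16775704) (a (l 16768032) (l 16329680))) (a (l 2) (l 16685864))) (b (a (b (a (l 15910368) (l 15284104)) (l 15537776)) (a (b (c (l 14654728) (l 14658496)) (l 14638568)) (b (c (l 13856584) (b (l 14026808) (l 13985368))) (l 13962656)))) (a (l 15370008) (a (l 14638568) (b (l 13983624) (l 13983624))))))), by decide +kernel⟩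

theorem c_pm_102_b : CertFX 536870912 536870912 1239849684 370763052 1046898278 26843546 false true false .npp 1 0 2
    ndF3q1 ndF1q2b pcF0 Cut.none Ext.none :=
  certFX0 (fam := false) (s1 := true) (s2 := false) (a := 1) (b := 0) (c := 2) (cn := .npp) (n1 := ndF3q1) (n2 := ndF1q2b) (pc := pcF0) (cut := Cut.none) (xt := Ext.none) (P1 := 536870912) (W1 := 536870912) (P2 := 1239849684) (W2 := 370763052) (P3 := 1046898278) (W3 := 26843546)
    rfl k0_pm_102_b

noncomputable def f_pm_112_a : ℕ → ℕ → ℕ → ℕ → Bool := onCell 536870912 536870912 0 420477299 1046898278 26843546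
    (rowFX 0 false true false .dn 1 1 2 (qsf 536870912 536870912 0 420477299 1) ndF3q1 ndF1q2a pcF1 Cut.none Ext.none)

def k0_pm_112_a : ∃ t, chk3 f_pm_112_a t 1 1 1 = true :=
  ⟨(a (b (a (a (a (b (l 16769464) (l 16769112)) (l 16777208)) (a (l 16777208) (l 16777208))) (c (l 190085857191) (l 288333234087))) (l 4)) (l 1)), by decide +kernel⟩

theorem c_pm_112_a : CertFX 536870912 536870912 0 420477299 1046898278 26843546 false true false .dn 1 1 2
    ndF3q1 ndF1q2a pcF1 Cut.none Ext.none :=
  certFX0 (fam := false) (s1 := true) (s2 := false) (a := 1) (b := 1) (c := 2) (cn := .dn) (n1 := ndF3q1) (n2 := ndF1q2a) (pc := pcF1) (cut := Cut.none) (xt := Ext.none) (P1 := 536870912) (W1 := 536870912) (P2 := 0) (W2 := 420477299) (P3 := 1046898278) (W3 := 26843546)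
    rfl k0_pm_112_a

noncomputable def f_pm_112_b : ℕ → ℕ → ℕ → ℕ → Bool := onCell 536870912 536870912 536870912 536870912 1046898278 26843546
    (rowFX 1 false true false .dn 1 1 2 (qsf 536870912 536870912 1239849684 370763052 1) ndF3q1 ndF1q2b pcF1 Cut.none Ext.none)

def k0_pm_112_b : ∃ t, chk3 f_pm_112_b t 1 1 1 = true :=
  ⟨(b (a (a (b (l 551400156583) (l 16777216)) (b (l 16777216) (l 16764624))) (a (b (l 16734776) (l 16711584)) (b (a (l 15621664) (a (l 14638568) (l 13983624))) (a (l 15587800) (l 2))))) (b (a (b (a (b (l 16777040) (l 16663312)) (b (l 16746232) (l 16479256))) (a (a (b (l 16633424) (b (a (l 16666032) (l 16391904)) (l 16339152))) (l 16087096)) (b (l 15971768) (l 15498992)))) (a (b (l 16454936) (l 2)) (l 2))) (a (b (a (b (a (b (l 15938808) (a (l 15716488) (l 15639568))) (l 15469560)) (a (a (l 15281568) (l 15137960)) (c (a (l 15033584) (l 14599328)) (l 14784736)))) (b (b (l 15209520) (l 2)) (l 2))) (a (a (a (b (l 14682264) (l 14057768)) (b (c (b (l 14799608) (l 14453496))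 (l 14625256)) (a (l 14013232) (l 2)))) (b (c (b (l 14459944) (l 2)) (l 14331264)) (l 2))) (l 2))) (l 2)))), by decide +kernel⟩

theorem c_pm_112_b : CertFX 536870912 536870912 1239849684 370763052 1046898278 26843546 false true false .dn 1 1 2
    ndF3q1 ndF1q2b pcF1 Cut.none Ext.none :=
  certFX1 (fam := false) (s1 := true) (s2 := false) (a := 1) (b := 1) (c := 2) (cn := .dn) (n1 := ndF3q1) (n2 := ndF1q2b) (pc := pcF1) (cut := Cut.none) (xt := Ext.none) (P1 := 536870912) (W1 := 536870912) (P2 := 1239849684) (W2 := 370763052) (P3 := 1046898278) (W3 := 26843546)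
    rfl (fun _ => rfl) k0_pm_112_b

noncomputable def f_pm_113 : ℕ → ℕ → ℕ → ℕ → Bool := onCell 536870912 536870912 536870912 536870912 1046898278 26843546
    (rowFX 1 false true false .nn 1 1 3 (qsf 536870912 536870912 1610612736 469762048 1) ndF3q1 ndF1q3 pcF1 Cut.none Ext.none)

def k0_pm_113 : ∃ t, chk3 f_pm_113 t 1 1 1 = true :=
  ⟨(b (a (a (l 1) (l 692597516839)) (a (b (l 16734776) (l 16711584)) (b (a (l 15621664) (a (l 14638568) (l 13983624))) (a (l 15587800) (a (l 14616176) (l 13983048)))))) (b (a (b (a (l 1) (l 666290098903)) (a (a (l 1) (l 16087096)) (b (l 15971768) (l 15498992)))) (a (b (l 16454936) (l 15444552)) (b (a (l 15358232) (a (l 14443176) (l 13848208))) (a (l 14497400) (a (l 13628904) (l 13073144)))))) (a (b (a (b (a (l 1) (l 15469560)) (a (a (l 1) (l 15137960)) (c (a (l 15033584) (l 14599328)) (l 14784736)))) (b (a (b (l 15294208) (l 15105896)) (l 14980720)) (c (a (l 14817096) (l 14628656)) (l 14784736)))) (b (a (c (a (b (l 650716671543) (l 14473840)) (b (l 14459944)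 (l 14221312))) (a (l 694739742055) (l 14331264))) (c (l 14228608) (l 14216712))) (a (c (b (l 13949744) (l 13854288)) (b (a (l 14173528) (l 13999808)) (c (l 13831344) (l 736077159271)))) (l 4)))) (a (b (b (l 14829008) (b (l 14466208) (l 4))) (l 4)) (a (b (b (l 13915392) (c (l 13735320) (l 13508976))) (b (c (l 13400488) (l 13150000)) (l 4))) (b (b (a (l 13169208) (l 12707088)) (a (l 12829040) (l 12483264))) (b (c (a (l 12929520) (l 12973160)) (l 12241904)) (c (a (l 4) (l 14474144)) (b (l 12107960) (l 12144784)))))))))), by decide +kernel⟩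

theorem c_pm_113 : CertFX 536870912 536870912 1610612736 469762048 1046898278 26843546 false true false .nn 1 1 3
    ndF3q1 ndF1q3 pcF1 Cut.none Ext.none :=
  certFX1 (fam := false) (s1 := true) (s2 := false) (a := 1) (b := 1) (c := 3) (cn := .nn) (n1 := ndF3q1) (n2 := ndF1q3) (pc := pcF1) (cut := Cut.none) (xt := Ext.none) (P1 := 536870912) (W1 := 536870912) (P2 := 1610612736) (W2 := 469762048) (P3 := 1046898278) (W3 := 26843546)
    rfl (fun _ => rfl) k0_pm_113

noncomputable def f_pm_123 : ℕ → ℕ → ℕ → ℕ → Bool := onCell 1073741824 536870912 1610612736 469762048 1046898278 26843546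
    (rowFX 2 false true false .npn 1 2 3 (qsf 536870912 536870912 1610612736 469762048 2) ndF3q1 ndF1q3 pcF2 Cut.none Ext.none)

def k0_pm_123 : ∃ t, chk3 f_pm_123 t 1 1 1 = true :=
  ⟨(a (b (b (a (a (c (l 14053784) (l 14040304)) (a (l 14497664) (l 14815712))) (l 1)) (a (l 4) (l 4))) (a (l 4) (l 4))) (b (l 1) (l 4))), by decide +kernel⟩

theorem c_pm_123 : CertFX 536870912 536870912 1610612736 469762048 1046898278 26843546 false true false .npn 1 2 3
    ndF3q1 ndF1q3 pcF2 Cut.none Ext.none :=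
  certFX2 (fam := false) (s1 := true) (s2 := false) (a := 1) (b := 2) (c := 3) (cn := .npn) (n1 := ndF3q1) (n2 := ndF1q3) (pc := pcF2) (cut := Cut.none) (xt := Ext.none) (P1 := 536870912) (W1 := 536870912) (P2 := 1610612736) (W2 := 469762048) (P3 := 1046898278) (W3 := 26843546)
    rfl (fun _ => rfl) k0_pm_123

noncomputable def f_pm_133 : ℕ → ℕ → ℕ → ℕ → Bool := onCell 536870912 536870912 1610612736 469762048 1046898278 26843546
    (rowFX 0 false true false .dn 1 3 3 (qsf 536870912 536870912 1610612736 469762048 3) ndF3q1 ndF1q3 pcF3 Cut.none Ext.none)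

def k0_pm_133 : ∃ t, chk3 f_pm_133 t 1 1 1 = true :=
  ⟨(l 1), by decide +kernel⟩

theorem c_pm_133 : CertFX 536870912 536870912 1610612736 469762048 1046898278 26843546 false true false .dn 1 3 3
    ndF3q1 ndF1q3 pcF3 Cut.none Ext.none :=
  certFX0 (fam := false) (s1 := true) (s2 := false) (a := 1) (b := 3) (c := 3) (cn := .dn) (n1 := ndF3q1) (n2 := ndF1q3) (pc := pcF3) (cut := Cut.none) (xt := Ext.none) (P1 := 536870912) (W1 := 536870912) (P2 := 1610612736) (W2 := 469762048) (P3 := 1046898278) (W3 := 26843546)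
    rfl k0_pm_133

noncomputable def f_pm_202_a : ℕ → ℕ → ℕ → ℕ → Bool := onCell 1073741824 536870912 0 420477299 1046898278 26843546
    (rowFX 0 false true false .pp 2 0 2 (qsf 1073741824 536870912 0 420477299 0) ndF3q2 ndF1q2a pcF0 Cut.none Ext.none)

def k0_pm_202_a : ∃ t, chk3 f_pm_202_a t 1 1 1 = true :=
  ⟨(l 3), by decide +kernel⟩

theorem c_pm_202_a : CertFX 1073741824 536870912 0 420477299 1046898278 26843546 false true false .pp 2 0 2
    ndF3q2 ndF1q2a pcF0 Cut.none Ext.none :=
  certFX0 (fam := false) (s1 := true) (s2 := false) (a := 2) (b := 0) (c := 2) (cn := .pp) (n1 := ndF3q2) (n2 := ndF1q2a) (pc := pcF0) (cut := Cut.none) (xt := Ext.none) (P1 := 1073741824) (W1 := 536870912) (P2 := 0) (W2 := 420477299) (P3 := 1046898278) (W3 := 26843546)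
    rfl k0_pm_202_a

noncomputable def f_pm_202_b : ℕ → ℕ → ℕ → ℕ → Bool := onCell 1073741824 536870912 1239849684 370763052 1046898278 26843546
    (rowFX 0 false true false .pp 2 0 2 (qsf 1073741824 536870912 1239849684 370763052 0) ndF3q2 ndF1q2b pcF0 Cut.none Ext.none)

def k0_pm_202_b : ∃ t, chk3 f_pm_202_b t 1 1 1 = true :=
  ⟨(l 3), by decide +kernel⟩

theorem c_pm_202_b : CertFX 1073741824 536870912 1239849684 370763052 1046898278 26843546 false true false .pp 2 0 2
    ndF3q2 ndF1q2b pcF0 Cut.none Ext.none :=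
  certFX0 (fam := false) (s1 := true) (s2 := false) (a := 2) (b := 0) (c := 2) (cn := .pp) (n1 := ndF3q2) (n2 := ndF1q2b) (pc := pcF0) (cut := Cut.none) (xt := Ext.none) (P1 := 1073741824) (W1 := 536870912) (P2 := 1239849684) (W2 := 370763052) (P3 := 1046898278) (W3 := 26843546)
    rfl k0_pm_202_b

noncomputable def f_pm_203 : ℕ → ℕ → ℕ → ℕ → Bool := onCell 1073741824 536870912 0 536870912 1046898278 26843546
    (rowFX 1 false true false .up 2 0 3 (qsf 1073741824 536870912 1610612736 469762048 0) ndF3q2 ndF1q3 pcF0 Cut.none Ext.none)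

def k0_pm_203 : ∃ t, chk3 f_pm_203 t 1 1 1 = true :=
  ⟨(l 3), by decide +kernel⟩

theorem c_pm_203 : CertFX 1073741824 536870912 1610612736 469762048 1046898278 26843546 false true false .up 2 0 3
    ndF3q2 ndF1q3 pcF0 Cut.none Ext.none :=
  certFX1 (fam := false) (s1 := true) (s2 := false) (a := 2) (b := 0) (c := 3) (cn := .up) (n1 := ndF3q2) (n2 := ndF1q3) (pc := pcF0) (cut := Cut.none) (xt := Ext.none) (P1 := 1073741824) (W1 := 536870912) (P2 := 1610612736) (W2 := 469762048) (P3 := 1046898278) (W3 := 26843546)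
    rfl (fun _ => rfl) k0_pm_203

noncomputable def f_pm_213 : ℕ → ℕ → ℕ → ℕ → Bool := onCell 1073741824 536870912 1610612736 469762048 1046898278 26843546
    (rowFX 0 false true false .pnn 2 1 3 (qsf 1073741824 536870912 1610612736 469762048 1) ndF3q2 ndF1q3 pcF1 Cut.none Ext.none)

def k0_pm_213 : ∃ t, chk3 f_pm_213 t 1 1 1 = true :=
  ⟨(a (l 3) (l 3)), by decide +kernel⟩

theorem c_pm_213 : CertFX 1073741824 536870912 1610612736 469762048 1046898278 26843546 false true false .pnn 2 1 3
    ndF3q2 ndF1q3 pcF1 Cut.none Ext.none :=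
  certFX0 (fam := false) (s1 := true) (s2 := false) (a := 2) (b := 1) (c := 3) (cn := .pnn) (n1 := ndF3q2) (n2 := ndF1q3) (pc := pcF1) (cut := Cut.none) (xt := Ext.none) (P1 := 1073741824) (W1 := 536870912) (P2 := 1610612736) (W2 := 469762048) (P3 := 1046898278) (W3 := 26843546)
    rfl k0_pm_213

noncomputable def f_pm_303 : ℕ → ℕ → ℕ → ℕ → Bool := onCell 1610612736 536870912 1610612736 469762048 1046898278 26843546
    (rowFX 0 false true false .npn 3 0 3 (qsf 1610612736 536870912 1610612736 469762048 0) ndF3q3 ndF1q3 pcF0 Cut.none Ext.none)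

def k0_pm_303 : ∃ t, chk3 f_pm_303 t 1 1 1 = true :=
  ⟨(l 3), by decide +kernel⟩

theorem c_pm_303 : CertFX 1610612736 536870912 1610612736 469762048 1046898278 26843546 false true false .npn 3 0 3
    ndF3q3 ndF1q3 pcF0 Cut.none Ext.none :=
  certFX0 (fam := false) (s1 := true) (s2 := false) (a := 3) (b := 0) (c := 3) (cn := .npn) (n1 := ndF3q3) (n2 := ndF1q3) (pc := pcF0) (cut := Cut.none) (xt := Ext.none) (P1 := 1610612736) (W1 := 536870912) (P2 := 1610612736) (W2 := 469762048) (P3 := 1046898278) (W3 := 26843546)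
    rfl k0_pm_303

noncomputable def f_pm_313 : ℕ → ℕ → ℕ → ℕ → Bool := onCell 1610612736 536870912 1610612736 469762048 1046898278 26843546
    (rowFX 0 false true false .dn 3 1 3 (qsf 1610612736 536870912 1610612736 469762048 1) ndF3q3 ndF1q3 pcF1 Cut.none Ext.none)

def k0_pm_313 : ∃ t, chk3 f_pm_313 t 1 1 1 = true :=
  ⟨(l 1), by decide +kernel⟩

theorem c_pm_313 : CertFX 1610612736 536870912 1610612736 469762048 1046898278 26843546 false true false .dn 3 1 3
    ndF3q3 ndF1q3 pcF1 Cut.none Ext.none :=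
  certFX0 (fam := false) (s1 := true) (s2 := false) (a := 3) (b := 1) (c := 3) (cn := .dn) (n1 := ndF3q3) (n2 := ndF1q3) (pc := pcF1) (cut := Cut.none) (xt := Ext.none) (P1 := 1610612736) (W1 := 536870912) (P2 := 1610612736) (W2 := 469762048) (P3 := 1046898278) (W3 := 26843546)
    rfl k0_pm_313

noncomputable def f_mm_001 : ℕ → ℕ → ℕ → ℕ → Bool := onCell 0 536870912 536870912 536870912 1046898278 26843546
    (rowFX 0 false false false .up 0 0 1 (qsf 0 536870912 536870912 536870912 0) ndF3q0 ndF1q1 pcF0 Cut.none Ext.none)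

def k0_mm_001 : ∃ t, chk3 f_mm_001 t 1 1 1 = true :=
  ⟨(l 5), by decide +kernel⟩

theorem c_mm_001 : CertFX 0 536870912 536870912 536870912 1046898278 26843546 false false false .up 0 0 1
    ndF3q0 ndF1q1 pcF0 Cut.none Ext.none :=
  certFX0 (fam := false) (s1 := false) (s2 := false) (a := 0) (b := 0) (c := 1) (cn := .up) (n1 := ndF3q0) (n2 := ndF1q1) (pc := pcF0) (cut := Cut.none) (xt := Ext.none) (P1 := 0) (W1 := 536870912) (P2 := 536870912) (W2 := 536870912) (P3 := 1046898278) (W3 := 26843546)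
    rfl k0_mm_001

noncomputable def f_mm_011 : ℕ → ℕ → ℕ → ℕ → Bool := onCell 0 536870912 536870912 536870912 1046898278 26843546
    (rowFX 0 false false false .pnn 0 1 1 (qsf 0 536870912 536870912 536870912 1) ndF3q0 ndF1q1 pcF1 Cut.none Ext.none)

def k0_mm_011 : ∃ t, chk3 f_mm_011 t 1 1 1 = true :=
  ⟨(l 5), by decide +kernel⟩

theorem c_mm_011 : CertFX 0 536870912 536870912 536870912 1046898278 26843546 false false false .pnn 0 1 1
    ndF3q0 ndF1q1 pcF1 Cut.none Ext.none :=
  certFX0 (fam := false) (s1 := false) (s2 := false) (a := 0) (b := 1) (c := 1) (cn := .pnn) (n1 := ndF3q0) (n2 := ndF1q1) (pc := pcF1) (cut := Cut.none) (xt := Ext.none) (P1 := 0) (W1 := 536870912) (P2 := 536870912) (W2 := 536870912) (P3 := 1046898278) (W3 := 26843546)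
    rfl k0_mm_011

noncomputable def f_mm_012_a : ℕ → ℕ → ℕ → ℕ → Bool := onCell 0 536870912 0 420477299 1046898278 26843546
    (rowFX 0 false false false .pnp 0 1 2 (qsf 0 536870912 0 420477299 1) ndF3q0 ndF1q2a pcF1 Cut.none Ext.none)

def k0_mm_012_a : ∃ t, chk3 f_mm_012_a t 1 1 1 = true :=
  ⟨(l 5), by decide +kernel⟩

theorem c_mm_012_a : CertFX 0 536870912 0 420477299 1046898278 26843546 false false false .pnp 0 1 2
    ndF3q0 ndF1q2a pcF1 Cut.none Ext.none :=
  certFX0 (fam := false) (s1 := false) (s2 := false) (a := 0) (b := 1) (c := 2) (cn := .pnp) (n1 := ndF3q0) (n2 := ndF1q2a) (pc := pcF1) (cut := Cut.none) (xt := Ext.none) (P1 := 0) (W1 := 536870912) (P2 := 0) (W2 := 420477299) (P3 := 1046898278) (W3 := 26843546)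
    rfl k0_mm_012_a

noncomputable def f_mm_012_b : ℕ → ℕ → ℕ → ℕ → Bool := onCell 0 536870912 1239849684 370763052 1046898278 26843546
    (rowFX 0 false false false .pnp 0 1 2 (qsf 0 536870912 1239849684 370763052 1) ndF3q0 ndF1q2b pcF1 Cut.none Ext.none)

def k0_mm_012_b : ∃ t, chk3 f_mm_012_b t 1 1 1 = true :=
  ⟨(l 5), by decide +kernel⟩

theorem c_mm_012_b : CertFX 0 536870912 1239849684 370763052 1046898278 26843546 false false false .pnp 0 1 2
    ndF3q0 ndF1q2b pcF1 Cut.none Ext.none :=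
  certFX0 (fam := false) (s1 := false) (s2 := false) (a := 0) (b := 1) (c := 2) (cn := .pnp) (n1 := ndF3q0) (n2 := ndF1q2b) (pc := pcF1) (cut := Cut.none) (xt := Ext.none) (P1 := 0) (W1 := 536870912) (P2 := 1239849684) (W2 := 370763052) (P3 := 1046898278) (W3 := 26843546)
    rfl k0_mm_012_b

noncomputable def f_mm_022_a : ℕ → ℕ → ℕ → ℕ → Bool := onCell 0 536870912 0 420477299 1046898278 26843546
    (rowFX 0 false false false .pp 0 2 2 (qsf 0 536870912 0 420477299 2) ndF3q0 ndF1q2a pcF2 Cut.none Ext.none)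

def k0_mm_022_a : ∃ t, chk3 f_mm_022_a t 1 1 1 = true :=
  ⟨(l 5), by decide +kernel⟩

theorem c_mm_022_a : CertFX 0 536870912 0 420477299 1046898278 26843546 false false false .pp 0 2 2
    ndF3q0 ndF1q2a pcF2 Cut.none Ext.none :=
  certFX0 (fam := false) (s1 := false) (s2 := false) (a := 0) (b := 2) (c := 2) (cn := .pp) (n1 := ndF3q0) (n2 := ndF1q2a) (pc := pcF2) (cut := Cut.none) (xt := Ext.none) (P1 := 0) (W1 := 536870912) (P2 := 0) (W2 := 420477299) (P3 := 1046898278) (W3 := 26843546)
    rfl k0_mm_022_a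

noncomputable def f_mm_022_b : ℕ → ℕ → ℕ → ℕ → Bool := onCell 0 536870912 1239849684 370763052 1046898278 26843546
    (rowFX 0 false false false .pp 0 2 2 (qsf 0 536870912 1239849684 370763052 2) ndF3q0 ndF1q2b pcF2 Cut.none Ext.none)

def k0_mm_022_b : ∃ t, chk3 f_mm_022_b t 1 1 1 = true :=
  ⟨(l 5), by decide +kernel⟩

theorem c_mm_022_b : CertFX 0 536870912 1239849684 370763052 1046898278 26843546 false false false .pp 0 2 2
    ndF3q0 ndF1q2b pcF2 Cut.none Ext.none :=
  certFX0 (fam := false) (s1 := false) (s2 := false) (a := 0) (b := 2) (c := 2) (cn := .pp) (n1 := ndF3q0) (n2 := ndF1q2b) (pc := pcF2) (cut := Cut.none) (xt := Ext.none) (P1 := 0) (W1 := 536870912) (P2 := 1239849684) (W2 := 370763052) (P3 := 1046898278) (W3 := 26843546)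
    rfl k0_mm_022_b

noncomputable def f_mm_023 : ℕ → ℕ → ℕ → ℕ → Bool := onCell 0 536870912 1610612736 469762048 1046898278 26843546
    (rowFX 0 false false false .up 0 2 3 (qsf 0 536870912 1610612736 469762048 2) ndF3q0 ndF1q3 pcF2 Cut.none Ext.none)

def k0_mm_023 : ∃ t, chk3 f_mm_023 t 1 1 1 = true :=
  ⟨(l 5), by decide +kernel⟩

theorem c_mm_023 : CertFX 0 536870912 1610612736 469762048 1046898278 26843546 false false false .up 0 2 3
    ndF3q0 ndF1q3 pcF2 Cut.none Ext.none :=
  certFX0 (fam := false) (s1 := false) (s2 := false) (a := 0) (b := 2) (c := 3) (cn := .up) (n1 := ndF3q0) (n2 := ndF1q3) (pc := pcF2) (cut := Cut.none) (xt := Ext.none) (P1 := 0) (W1 := 536870912) (P2 := 1610612736) (W2 := 469762048) (P3 := 1046898278) (W3 := 26843546)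
    rfl k0_mm_023

noncomputable def f_mm_033 : ℕ → ℕ → ℕ → ℕ → Bool := onCell 0 536870912 1610612736 469762048 1046898278 26843546
    (rowFX 0 false false false .pnn 0 3 3 (qsf 0 536870912 1610612736 469762048 3) ndF3q0 ndF1q3 pcF3 Cut.none Ext.none)

def k0_mm_033 : ∃ t, chk3 f_mm_033 t 1 1 1 = true :=
  ⟨(l 5), by decide +kernel⟩

theorem c_mm_033 : CertFX 0 536870912 1610612736 469762048 1046898278 26843546 false false false .pnn 0 3 3
    ndF3q0 ndF1q3 pcF3 Cut.none Ext.none :=
  certFX0 (fam := false) (s1 := false) (s2 := false) (a := 0) (b := 3) (c := 3) (cn := .pnn) (n1 := ndF3q0) (n2 := ndF1q3) (pc := pcF3) (cut := Cut.none) (xt := Ext.none) (P1 := 0) (W1 := 536870912) (P2 := 1610612736) (W2 := 469762048) (P3 := 1046898278) (W3 := 26843546)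
    rfl k0_mm_033

noncomputable def f_mm_101 : ℕ → ℕ → ℕ → ℕ → Bool := onCell 536870912 536870912 536870912 536870912 1046898278 26843546
    (rowFX 0 false false false .npn 1 0 1 (qsf 536870912 536870912 536870912 536870912 0) ndF3q1 ndF1q1 pcF0 Cut.none Ext.none)

def k0_mm_101 : ∃ t, chk3 f_mm_101 t 1 1 1 = true :=
  ⟨(l 3), by decide +kernel⟩

theorem c_mm_101 : CertFX 536870912 536870912 536870912 536870912 1046898278 26843546 false false false .npn 1 0 1
    ndF3q1 ndF1q1 pcF0 Cut.none Ext.none :=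
  certFX0 (fam := false) (s1 := false) (s2 := false) (a := 1) (b := 0) (c := 1) (cn := .npn) (n1 := ndF3q1) (n2 := ndF1q1) (pc := pcF0) (cut := Cut.none) (xt := Ext.none) (P1 := 536870912) (W1 := 536870912) (P2 := 536870912) (W2 := 536870912) (P3 := 1046898278) (W3 := 26843546)
    rfl k0_mm_101

noncomputable def f_mm_102_a : ℕ → ℕ → ℕ → ℕ → Bool := onCell 536870912 536870912 0 420477299 1046898278 26843546
    (rowFX 0 false false false .npp 1 0 2 (qsf 536870912 536870912 0 420477299 0) ndF3q1 ndF1q2a pcF0 Cut.none Ext.none)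

def k0_mm_102_a : ∃ t, chk3 f_mm_102_a t 1 1 1 = true :=
  ⟨(l 5), by decide +kernel⟩

theorem c_mm_102_a : CertFX 536870912 536870912 0 420477299 1046898278 26843546 false false false .npp 1 0 2
    ndF3q1 ndF1q2a pcF0 Cut.none Ext.none :=
  certFX0 (fam := false) (s1 := false) (s2 := false) (a := 1) (b := 0) (c := 2) (cn := .npp) (n1 := ndF3q1) (n2 := ndF1q2a) (pc := pcF0) (cut := Cut.none) (xt := Ext.none) (P1 := 536870912) (W1 := 536870912) (P2 := 0) (W2 := 420477299) (P3 := 1046898278) (W3 := 26843546)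
    rfl k0_mm_102_a

noncomputable def f_mm_102_b : ℕ → ℕ → ℕ → ℕ → Bool := onCell 536870912 536870912 1239849684 370763052 1046898278 26843546
    (rowFX 0 false false false .npp 1 0 2 (qsf 536870912 536870912 1239849684 370763052 0) ndF3q1 ndF1q2b pcF0 Cut.none Ext.none)

def k0_mm_102_b : ∃ t, chk3 f_mm_102_b t 1 1 1 = true :=
  ⟨(l 5), by decide +kernel⟩

theorem c_mm_102_b : CertFX 536870912 536870912 1239849684 370763052 1046898278 26843546 false false false .npp 1 0 2
    ndF3q1 ndF1q2b pcF0 Cut.none Ext.none :=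
  certFX0 (fam := false) (s1 := false) (s2 := false) (a := 1) (b := 0) (c := 2) (cn := .npp) (n1 := ndF3q1) (n2 := ndF1q2b) (pc := pcF0) (cut := Cut.none) (xt := Ext.none) (P1 := 536870912) (W1 := 536870912) (P2 := 1239849684) (W2 := 370763052) (P3 := 1046898278) (W3 := 26843546)
    rfl k0_mm_102_b

noncomputable def f_mm_112_a : ℕ → ℕ → ℕ → ℕ → Bool := onCell 536870912 536870912 0 420477299 1046898278 26843546
    (rowFX 0 false false false .dn 1 1 2 (qsf 536870912 536870912 0 420477299 1) ndF3q1 ndF1q2a pcF1 Cut.none Ext.none)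

def k0_mm_112_a : ∃ t, chk3 f_mm_112_a t 1 1 1 = true :=
  ⟨(l 5), by decide +kernel⟩

theorem c_mm_112_a : CertFX 536870912 536870912 0 420477299 1046898278 26843546 false false false .dn 1 1 2
    ndF3q1 ndF1q2a pcF1 Cut.none Ext.none :=
  certFX0 (fam := false) (s1 := false) (s2 := false) (a := 1) (b := 1) (c := 2) (cn := .dn) (n1 := ndF3q1) (n2 := ndF1q2a) (pc := pcF1) (cut := Cut.none) (xt := Ext.none) (P1 := 536870912) (W1 := 536870912) (P2 := 0) (W2 := 420477299) (P3 := 1046898278) (W3 := 26843546)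
    rfl k0_mm_112_a

noncomputable def f_mm_112_b : ℕ → ℕ → ℕ → ℕ → Bool := onCell 536870912 536870912 1239849684 370763052 1046898278 26843546
    (rowFX 0 false false false .dn 1 1 2 (qsf 536870912 536870912 1239849684 370763052 1) ndF3q1 ndF1q2b pcF1 Cut.none Ext.none)

def k0_mm_112_b : ∃ t, chk3 f_mm_112_b t 1 1 1 = true :=
  ⟨(l 5), by decide +kernel⟩

theorem c_mm_112_b : CertFX 536870912 536870912 1239849684 370763052 1046898278 26843546 false false false .dn 1 1 2
    ndF3q1 ndF1q2b pcF1 Cut.none Ext.none :=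
  certFX0 (fam := false) (s1 := false) (s2 := false) (a := 1) (b := 1) (c := 2) (cn := .dn) (n1 := ndF3q1) (n2 := ndF1q2b) (pc := pcF1) (cut := Cut.none) (xt := Ext.none) (P1 := 536870912) (W1 := 536870912) (P2 := 1239849684) (W2 := 370763052) (P3 := 1046898278) (W3 := 26843546)
    rfl k0_mm_112_b

noncomputable def f_mm_113 : ℕ → ℕ → ℕ → ℕ → Bool := onCell 536870912 536870912 1610612736 469762048 1046898278 26843546
    (rowFX 0 false false false .nn 1 1 3 (qsf 536870912 536870912 1610612736 469762048 1) ndF3q1 ndF1q3 pcF1 Cut.none Ext.none)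

def k0_mm_113 : ∃ t, chk3 f_mm_113 t 1 1 1 = true :=
  ⟨(l 5), by decide +kernel⟩

theorem c_mm_113 : CertFX 536870912 536870912 1610612736 469762048 1046898278 26843546 false false false .nn 1 1 3
    ndF3q1 ndF1q3 pcF1 Cut.none Ext.none :=
  certFX0 (fam := false) (s1 := false) (s2 := false) (a := 1) (b := 1) (c := 3) (cn := .nn) (n1 := ndF3q1) (n2 := ndF1q3) (pc := pcF1) (cut := Cut.none) (xt := Ext.none) (P1 := 536870912) (W1 := 536870912) (P2 := 1610612736) (W2 := 469762048) (P3 := 1046898278) (W3 := 26843546)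
    rfl k0_mm_113

noncomputable def f_mm_123 : ℕ → ℕ → ℕ → ℕ → Bool := onCell 536870912 536870912 1610612736 469762048 1046898278 26843546
    (rowFX 0 false false false .npn 1 2 3 (qsf 536870912 536870912 1610612736 469762048 2) ndF3q1 ndF1q3 pcF2 Cut.none Ext.none)

def k0_mm_123 : ∃ t, chk3 f_mm_123 t 1 1 1 = true :=
  ⟨(l 5), by decide +kernel⟩

theorem c_mm_123 : CertFX 536870912 536870912 1610612736 469762048 1046898278 26843546 false false false .npn 1 2 3
    ndF3q1 ndF1q3 pcF2 Cut.none Ext.none :=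
  certFX0 (fam := false) (s1 := false) (s2 := false) (a := 1) (b := 2) (c := 3) (cn := .npn) (n1 := ndF3q1) (n2 := ndF1q3) (pc := pcF2) (cut := Cut.none) (xt := Ext.none) (P1 := 536870912) (W1 := 536870912) (P2 := 1610612736) (W2 := 469762048) (P3 := 1046898278) (W3 := 26843546)
    rfl k0_mm_123

noncomputable def f_mm_133 : ℕ → ℕ → ℕ → ℕ → Bool := onCell 536870912 536870912 1610612736 469762048 1046898278 26843546
    (rowFX 0 false false false .dn 1 3 3 (qsf 536870912 536870912 1610612736 469762048 3) ndF3q1 ndF1q3 pcF3 Cut.none Ext.none)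

def k0_mm_133 : ∃ t, chk3 f_mm_133 t 1 1 1 = true :=
  ⟨(l 1), by decide +kernel⟩

theorem c_mm_133 : CertFX 536870912 536870912 1610612736 469762048 1046898278 26843546 false false false .dn 1 3 3
    ndF3q1 ndF1q3 pcF3 Cut.none Ext.none :=
  certFX0 (fam := false) (s1 := false) (s2 := false) (a := 1) (b := 3) (c := 3) (cn := .dn) (n1 := ndF3q1) (n2 := ndF1q3) (pc := pcF3) (cut := Cut.none) (xt := Ext.none) (P1 := 536870912) (W1 := 536870912) (P2 := 1610612736) (W2 := 469762048) (P3 := 1046898278) (W3 := 26843546)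
    rfl k0_mm_133

noncomputable def f_mm_202_a : ℕ → ℕ → ℕ → ℕ → Bool := onCell 1073741824 536870912 0 420477299 1046898278 26843546
    (rowFX 0 false false false .pp 2 0 2 (qsf 1073741824 536870912 0 420477299 0) ndF3q2 ndF1q2a pcF0 Cut.none Ext.none)

def k0_mm_202_a : ∃ t, chk3 f_mm_202_a t 1 1 1 = true :=
  ⟨(l 3), by decide +kernel⟩

theorem c_mm_202_a : CertFX 1073741824 536870912 0 420477299 1046898278 26843546 false false false .pp 2 0 2
    ndF3q2 ndF1q2a pcF0 Cut.none Ext.none :=
  certFX0 (fam := false) (s1 := false) (s2 := false) (a := 2) (b := 0) (c := 2) (cn := .pp) (n1 := ndF3q2) (n2 := ndF1q2a) (pc := pcF0) (cut := Cut.none) (xt := Ext.none) (P1 := 1073741824) (W1 := 536870912) (P2 := 0) (W2 := 420477299) (P3 := 1046898278) (W3 := 26843546)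
    rfl k0_mm_202_a

noncomputable def f_mm_202_b : ℕ → ℕ → ℕ → ℕ → Bool := onCell 1073741824 536870912 1239849684 370763052 1046898278 26843546
    (rowFX 0 false false false .pp 2 0 2 (qsf 1073741824 536870912 1239849684 370763052 0) ndF3q2 ndF1q2b pcF0 Cut.none Ext.none)

def k0_mm_202_b : ∃ t, chk3 f_mm_202_b t 1 1 1 = true :=
  ⟨(l 3), by decide +kernel⟩

theorem c_mm_202_b : CertFX 1073741824 536870912 1239849684 370763052 1046898278 26843546 false false false .pp 2 0 2
    ndF3q2 ndF1q2b pcF0 Cut.none Ext.none :=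
  certFX0 (fam := false) (s1 := false) (s2 := false) (a := 2) (b := 0) (c := 2) (cn := .pp) (n1 := ndF3q2) (n2 := ndF1q2b) (pc := pcF0) (cut := Cut.none) (xt := Ext.none) (P1 := 1073741824) (W1 := 536870912) (P2 := 1239849684) (W2 := 370763052) (P3 := 1046898278) (W3 := 26843546)
    rfl k0_mm_202_b

noncomputable def f_mm_203 : ℕ → ℕ → ℕ → ℕ → Bool := onCell 1073741824 536870912 1610612736 469762048 1046898278 26843546
    (rowFX 0 false false false .up 2 0 3 (qsf 1073741824 536870912 1610612736 469762048 0) ndF3q2 ndF1q3 pcF0 Cut.none Ext.none)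

def k0_mm_203 : ∃ t, chk3 f_mm_203 t 1 1 1 = true :=
  ⟨(l 3), by decide +kernel⟩

theorem c_mm_203 : CertFX 1073741824 536870912 1610612736 469762048 1046898278 26843546 false false false .up 2 0 3
    ndF3q2 ndF1q3 pcF0 Cut.none Ext.none :=
  certFX0 (fam := false) (s1 := false) (s2 := false) (a := 2) (b := 0) (c := 3) (cn := .up) (n1 := ndF3q2) (n2 := ndF1q3) (pc := pcF0) (cut := Cut.none) (xt := Ext.none) (P1 := 1073741824) (W1 := 536870912) (P2 := 1610612736) (W2 := 469762048) (P3 := 1046898278) (W3 := 26843546)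
    rfl k0_mm_203

noncomputable def f_mm_213 : ℕ → ℕ → ℕ → ℕ → Bool := onCell 1073741824 536870912 1610612736 469762048 1046898278 26843546
    (rowFX 0 false false false .pnn 2 1 3 (qsf 1073741824 536870912 1610612736 469762048 1) ndF3q2 ndF1q3 pcF1 Cut.none Ext.none)

def k0_mm_213 : ∃ t, chk3 f_mm_213 t 1 1 1 = true :=
  ⟨(l 3), by decide +kernel⟩

theorem c_mm_213 : CertFX 1073741824 536870912 1610612736 469762048 1046898278 26843546 false false false .pnn 2 1 3
    ndF3q2 ndF1q3 pcF1 Cut.none Ext.none :=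
  certFX0 (fam := false) (s1 := false) (s2 := false) (a := 2) (b := 1) (c := 3) (cn := .pnn) (n1 := ndF3q2) (n2 := ndF1q3) (pc := pcF1) (cut := Cut.none) (xt := Ext.none) (P1 := 1073741824) (W1 := 536870912) (P2 := 1610612736) (W2 := 469762048) (P3 := 1046898278) (W3 := 26843546)
    rfl k0_mm_213

noncomputable def f_mm_303 : ℕ → ℕ → ℕ → ℕ → Bool := onCell 1610612736 536870912 1610612736 469762048 1046898278 26843546
    (rowFX 0 false false false .npn 3 0 3 (qsf 1610612736 536870912 1610612736 469762048 0) ndF3q3 ndF1q3 pcF0 Cut.none Ext.none)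

def k0_mm_303 : ∃ t, chk3 f_mm_303 t 1 1 1 = true :=
  ⟨(l 3), by decide +kernel⟩

theorem c_mm_303 : CertFX 1610612736 536870912 1610612736 469762048 1046898278 26843546 false false false .npn 3 0 3
    ndF3q3 ndF1q3 pcF0 Cut.none Ext.none :=
  certFX0 (fam := false) (s1 := false) (s2 := false) (a := 3) (b := 0) (c := 3) (cn := .npn) (n1 := ndF3q3) (n2 := ndF1q3) (pc := pcF0) (cut := Cut.none) (xt := Ext.none) (P1 := 1610612736) (W1 := 536870912) (P2 := 1610612736) (W2 := 469762048) (P3 := 1046898278) (W3 := 26843546)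
    rfl k0_mm_303

noncomputable def f_mm_313 : ℕ → ℕ → ℕ → ℕ → Bool := onCell 1610612736 536870912 1610612736 469762048 1046898278 26843546
    (rowFX 0 false false false .dn 3 1 3 (qsf 1610612736 536870912 1610612736 469762048 1) ndF3q3 ndF1q3 pcF1 Cut.none Ext.none)

def k0_mm_313 : ∃ t, chk3 f_mm_313 t 1 1 1 = true :=
  ⟨(l 1), by decide +kernel⟩

theorem c_mm_313 : CertFX 1610612736 536870912 1610612736 469762048 1046898278 26843546 false false false .dn 3 1 3
    ndF3q3 ndF1q3 pcF1 Cut.none Ext.none :=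
  certFX0 (fam := false) (s1 := false) (s2 := false) (a := 3) (b := 1) (c := 3) (cn := .dn) (n1 := ndF3q3) (n2 := ndF1q3) (pc := pcF1) (cut := Cut.none) (xt := Ext.none) (P1 := 1610612736) (W1 := 536870912) (P2 := 1610612736) (W2 := 469762048) (P3 := 1046898278) (W3 := 26843546)
    rfl k0_mm_313

end Pool.Agent.Strip051.G.IE1.Tab.C.FB31

namespace Pool.Agent.Strip051.G.IE1.Tab.C.FB32

open Pool.Agent.Strip051.PB Pool.Agent.Strip051.PB.T
open Pool.Agent.Strip051.G.IE1.Tab

noncomputable def f_pp_001 : ℕ → ℕ → ℕ → ℕ → Bool := onCell 0 536870912 536870912 536870912 1046898278 26843546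
    (rowFX 0 false true true .up 0 0 1 (qsf 0 536870912 536870912 536870912 0) ndF3q0 ndF2q1 pcF0 Cut.none Ext.none)

def k0_pp_001 : ∃ t, chk3 f_pp_001 t 1 1 1 = true :=
  ⟨(l 3), by decide +kernel⟩

theorem c_pp_001 : CertFX 0 536870912 536870912 536870912 1046898278 26843546 false true true .up 0 0 1
    ndF3q0 ndF2q1 pcF0 Cut.none Ext.none :=
  certFX0 (fam := false) (s1 := true) (s2 := true) (a := 0) (b := 0) (c := 1) (cn := .up) (n1 := ndF3q0) (n2 := ndF2q1) (pc := pcF0) (cut := Cut.none) (xt := Ext.none) (P1 := 0) (W1 := 536870912) (P2 := 536870912) (W2 := 536870912) (P3 := 1046898278) (W3 := 26843546)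
    rfl k0_pp_001

noncomputable def f_pp_011 : ℕ → ℕ → ℕ → ℕ → Bool := onCell 0 536870912 536870912 536870912 1046898278 26843546
    (rowFX 0 false true true .pnn 0 1 1 (qsf 0 536870912 536870912 536870912 1) ndF3q0 ndF2q1 pcF1 Cut.none Ext.none)

def k0_pp_011 : ∃ t, chk3 f_pp_011 t 1 1 1 = true :=
  ⟨(l 3), by decide +kernel⟩

theorem c_pp_011 : CertFX 0 536870912 536870912 536870912 1046898278 26843546 false true true .pnn 0 1 1
    ndF3q0 ndF2q1 pcF1 Cut.none Ext.none :=
  certFX0 (fam := false) (s1 := true) (s2 := true) (a := 0) (b := 1) (c := 1) (cn := .pnn) (n1 := ndF3q0) (n2 := ndF2q1) (pc := pcF1) (cut := Cut.none) (xt := Ext.none) (P1 := 0) (W1 := 536870912) (P2 := 536870912) (W2 := 536870912) (P3 := 1046898278) (W3 := 26843546)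
    rfl k0_pp_011

noncomputable def f_pp_012_a : ℕ → ℕ → ℕ → ℕ → Bool := onCell 536870912 536870912 0 420477299 1046898278 26843546
    (rowFX 2 false true true .pnp 0 1 2 (qsf 0 536870912 0 420477299 1) ndF3q0 ndF2q2a pcF1 Cut.none Ext.none)

def k0_pp_012_a : ∃ t, chk3 f_pp_012_a t 1 1 1 = true :=
  ⟨(a (b (a (l 2) (b (l 16702392) (l 16752704))) (b (a (b (l 16676272) (l 16541336)) (b (l 16676272) (l 16541336))) (b (a (a (l 2) (b (l 16419464) (c (l 16373008) (l 16362504)))) (a (c (l 16398928) (l 16389104)) (c (l 16398928) (l 16389104)))) (a (c (a (l 16291480) (l 16291480)) (a (c (l 16282016) (l 16275712)) (a (l 16278864) (l 16278864)))) (a (c (l 16291480) (l 16278864)) (c (l 16291480) (l 16278864))))))) (a (b (a (b (l 16700072) (l 16750120)) (b (a (l 16688048) (l 16690304)) (a (l 16736824) (l 16740064)))) (b (a (l 16605112) (a (l 16585624) (l 16529376))) (a (b (c (l 16395120) (a (l 16389088) (l 16380608))) (c (l 16288576) (l 16275624))) (a (b (c (l 16377592) (l 16364776)) (c (l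 16275296) (l 16260224))) (b (a (l 16360368) (b (l 16421648) (l 16370480))) (a (c (l 16263032) (l 16244024)) (c (l 16285312) (l 16265096)))))))) (b (a (b (l 16453576) (a (l 16666232) (l 16449760))) (b (a (l 16538704) (l 16595800)) (a (l 16528160) (l 16574944)))) (a (b (a (b (l 16564072) (l 16483888)) (l 16350528)) (b (a (c (l 16440480) (b (l 16425024) (l 16437240))) (c (l 16416432) (l 16406952))) (a (c (l 16405696) (l 16397128)) (c (l 16454784) (l 16447024))))) (b (a (l 16461872) (b (l 16519392) (l 16461360))) (a (b (a (l 16401616) (c (l 16406888) (l 16397600))) (a (l 16435312) (c (l 16410200) (l 16423136)))) (b (a (c (b (l 16366936) (l 16414656)) (l 16405920)) (c (b (l 16423680) (l 16443712)) (a (l 16271952) (b (l 16399960) (l 16449352))))) (a (c (b (l 16391072) (a (l 16455160) (l 16484584))) (l 16430608)) (c (b (l 16485992) (l 16454776)) (a (b (l 16462368) (l 16519720)) (c (l 16530296) (l 16425136)))))))))))), by decide +kernel⟩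

theorem c_pp_012_a : CertFX 0 536870912 0 420477299 1046898278 26843546 false true true .pnp 0 1 2
    ndF3q0 ndF2q2a pcF1 Cut.none Ext.none :=
  certFX2 (fam := false) (s1 := true) (s2 := true) (a := 0) (b := 1) (c := 2) (cn := .pnp) (n1 := ndF3q0) (n2 := ndF2q2a) (pc := pcF1) (cut := Cut.none) (xt := Ext.none) (P1 := 0) (W1 := 536870912) (P2 := 0) (W2 := 420477299) (P3 := 1046898278) (W3 := 26843546)
    rfl (fun _ => rfl) k0_pp_012_a

noncomputable def f_pp_012_b : ℕ → ℕ → ℕ → ℕ → Bool := onCell 536870912 536870912 1239849684 370763052 1046898278 26843546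
    (rowFX 2 false true true .pnp 0 1 2 (qsf 0 536870912 1239849684 370763052 1) ndF3q0 ndF2q2b pcF1 Cut.none Ext.none)

def k0_pp_012_b : ∃ t, chk3 f_pp_012_b t 1 1 1 = true :=
  ⟨(a (a (l 2) (b (b (l 16753056) (l 16777216)) (l 2))) (a (b (a (b (l 16751296) (l 16773864)) (b (a (l 16741832) (l 16680008)) (l 16757816))) (a (l 2) (l 16826032))) (b (a (b (b (l 16547824) (l 16615864)) (l 16631392)) (b (b (a (b (l 16484312) (l 16417208)) (b (l 16522608) (l 16381872))) (a (l 16405552) (l 16287592))) (l 16210464))) (a (b (l 16652840) (l 16599768)) (b (l 16431664) (a (l 16388984) (l 16235808))))))), by decide +kernel⟩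

theorem c_pp_012_b : CertFX 0 536870912 1239849684 370763052 1046898278 26843546 false true true .pnp 0 1 2
    ndF3q0 ndF2q2b pcF1 Cut.none Ext.none :=
  certFX2 (fam := false) (s1 := true) (s2 := true) (a := 0) (b := 1) (c := 2) (cn := .pnp) (n1 := ndF3q0) (n2 := ndF2q2b) (pc := pcF1) (cut := Cut.none) (xt := Ext.none) (P1 := 0) (W1 := 536870912) (P2 := 1239849684) (W2 := 370763052) (P3 := 1046898278) (W3 := 26843546)
    rfl (fun _ => rfl) k0_pp_012_b

noncomputable def f_pp_022_a : ℕ → ℕ → ℕ → ℕ → Bool := onCell 0 536870912 0 420477299 1046898278 26843546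
    (rowFX 0 false true true .pp 0 2 2 (qsf 0 536870912 0 420477299 2) ndF3q0 ndF2q2a pcF2 Cut.none Ext.none)

def k0_pp_022_a : ∃ t, chk3 f_pp_022_a t 4 2 1 = true :=
  ⟨(a (b (b (a (a (a (l 16339704) (b (l 16218664) (l 16140296))) (l 16301632)) (l 16334352)) (a (a (a (l 16298944) (b (a (l 16340272) (l 16272704)) (c (l 16315344) (l 16238840)))) (l 16264064)) (a (l 16389648) (l 16458184)))) (a (a (a (b (b (l 16160944) (a (c (l 16317024) (l 16308088)) (l 16228680))) (b (c (l 16274800) (l 16254616)) (c (c (b (l 16288848) (l 16269592)) (a (l 16279616) (l 16314096))) (c (l 16185736) (a (l 16265704) (l 16281296)))))) (b (b (l 16227448) (l 16300920)) (l 16245864))) (c (b (l 16367008) (l 16404864)) (l 16293976))) (b (a (l 16426744) (l 16497976)) (a (l 16467744) (l 16538440))))) (b (a (a (b (l 16490256) (l 16518392)) (l 16524456)) (b (l 16504824) (l 16549656))) (a (a (b (l 16551904) (l 16585248)) (l 16487024)) (b (l 16597784) (l 16648264))))), by decide +kernel⟩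

def k1_pp_022_a : ∃ t, chk3 f_pp_022_a t 8 6 1 = true :=
  ⟨(a (b (a (c (b (a (c (l 16292072) (l 16310264)) (c (a (l 16336304) (l 16395112)) (a (l 16362288) (l 16388800)))) (a (c (l 16489256) (l 16487880)) (c (l 16445024) (l 16468320)))) (a (b (c (l 16322112) (l 16308856)) (c (l 16480048) (l 16468024))) (b (c (l 16324128) (l 16351672)) (c (l 16445000) (l 16431504))))) (b (l 16415888) (a (c (a (b (l 16442680) (l 16481816)) (b (l 16452920) (l 16477976))) (b (l 16375424) (l 16426856))) (b (l 16481560) (c (a (l 16490688) (l 16506888)) (l 16473768)))))) (a (c (c (a (b (l 16476928) (b (l 16426376) (l 16396600))) (b (a (l 16475744) (l 16494576)) (b (l 16376864) (l 16413344)))) (a (b (l 16477256) (l 16326544)) (b (l 16447512) (l 16343144)))) (a (c (b (l 16486104) (l 16334184)) (a (l 16322984) (l 16329240))) (b (c (l 16539168) (l 16544752)) (c (l 16433640) (l 16490240))))) (c (b (a (c (l 16436768) (l 16542944)) (c (b (l 16532976) (l 16566784)) (l 16531144))) (c (a (l 16442152) (l 16536112))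 (l 16391120))) (b (a (c (l 16525416) (l 16518840)) (c (l 16517744) (l 16515672))) (c (l 16513224) (l 16561064)))))) (a (b (l 16523040) (b (a (b (l 16543272) (c (l 16510664) (l 16555088))) (l 16590584)) (a (c (c (l 16528200) (l 16592360)) (c (l 16600456) (l 16599800))) (a (b (l 16599968) (c (l 16586728) (l 16598000))) (l 16594024))))) (b (l 16590032) (l 16589424)))), by decide +kernel⟩

def k2_pp_022_a : ∃ t, chk3 f_pp_022_a t 16 14 1 = true :=
  ⟨(c (a (b (a (c (b (a (l 16369688) (l 16372712)) (l 16336512)) (b (l 16370104) (l 16334224))) (c (b (l 16370472) (l 16357272)) (l 16268632))) (c (a (c (l 16277736) (l 16275456)) (c (l 16291968) (l 16299480))) (a (c (l 16273176) (l 16272328)) (l 16232736)))) (b (c (a (l 16349128) (b (l 16503384) (l 16469768))) (a (l 16419008) (l 16509280))) (a (c (b (l 16376072) (l 16338360)) (l 16341344)) (c (c (b (l 16402608) (l 16326352)) (l 16314304)) (b (l 16452376) (l 16418176)))))) (a (c (b (a (b (l 16356000) (l 16340456)) (l 16379064)) (a (a (l 16265384)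 (l 16286768)) (l 16341792))) (b (a (a (l 16310144) (l 16384144)) (l 16434632)) (a (l 16184176) (l 16354040)))) (b (c (l 16376712) (l 16454976)) (a (c (l 16401568) (l 16406064)) (c (l 16322272) (l 16405152)))))), by decide +kernel⟩

def k3_pp_022_a : ∃ t, chk3 f_pp_022_a t 16 15 1 = true :=
  ⟨(a (c (b (a (c (c (l 16210664) (l 16207776)) (c (l 16204888) (l 16203424))) (c (a (l 16173536) (b (l 16253664) (c (l 16218320) (l 16232144)))) (a (l 16228712) (b (l 16282312) (l 16253728))))) (c (a (b (a (c (c (l 16168304) (l 16168144)) (l 16165696)) (l 16171072)) (c (a (b (a (l 16150536) (c (l 16153584) (l 16153632))) (c (a (l 16125392) (c (l 16151800) (l 16150912))) (a (l 16143544) (l 16149312)))) (b (l 16161496) (c (l 16158160) (l 16162296)))) (a (a (b (l 16148448) (b (l 16141672) (l 16138072))) (l 16150048)) (l 16160128)))) (b (a (c (l 16177704) (l 16180416)) (l 16209712)) (c (l 16142344) (l 16155152)))) (a (b (a (l 16160792) (l 16166664)) (a (l 16143128) (l 16156912))) (b (a (l 16193352)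 (l 16240008)) (l 16193880))))) (b (a (c (a (l 16195792) (l 16216704)) (c (l 16214776) (l 16219648))) (c (b (l 16287496) (l 16194928)) (b (l 16298800) (l 16268608)))) (a (c (b (a (l 16154752) (l 16175728)) (a (b (l 16138448) (l 16133680)) (a (l 16152632) (l 16175320)))) (b (a (l 16157936) (l 16190496)) (a (c (l 16136688) (l 16119736)) (l 16180216)))) (c (b (a (l 16217968) (l 16261176)) (l 16238008)) (b (l 16208928) (l 16248240)))))) (c (b (a (c (b (a (l 16289728) (l 16281608)) (c (l 16234552) (l 16293016))) (b (l 16312144) (l 16311688))) (c (c (l 16349024) (l 16364528)) (l 16360728))) (c (a (c (l 16234288) (b (l 16280848) (l 16273776))) (b (l 16330376) (l 16318928))) (a (c (l 16250512) (l 16304408)) (b (l 16360112) (l 16352728))))) (b (a (c (b (l 16350480) (l 16328624)) (b (l 16354072) (l 16331776))) (c (l 16393824) (l 16391784))) (c (a (l 16315528) (l 16369904)) (a (l 16318304) (l 16367280)))))), by decide +kernel⟩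

def k4_pp_022_a : ∃ t, chk3 f_pp_022_a t 17 7 1 = true :=
  ⟨(b (b (a (c (a (c (b (l 16541800) (c (l 16440320) (l 16515824))) (b (l 16563384) (l 16530728))) (c (b (a (l 16565864) (l 16573176)) (l 16539032)) (b (l 16584200) (l 16555032)))) (a (b (l 16571728) (l 16538144)) (b (l 16584856) (l 16554896)))) (a (c (c (b (l 16576224) (l 16552400)) (l 16486904)) (l 16568432)) (l 16568336))) (a (c (c (a (b (l 16367464) (l 16440120)) (l 16422208)) (a (l 16435040) (l 16480856))) (a (c (l 16482872) (l 16479952)) (l 16500656))) (c (c (a (l 16482776) (l 16461776)) (a (l 16427840) (l 16461680))) (a (l 16466632) (c (l 16480424) (l 16498904)))))) (a (c (b (c (a (l 16336776) (l 16427528)) (a (l 16340584) (l 16405056))) (c (a (l 16362936) (l 16284432)) (a (c (l 16387872) (l 16399528)) (l 16348152)))) (b (a (l 16388328) (l 16425664)) (c (a (l 16403088) (l 16416296)) (l 16367232)))) (c (b (a (c (l 16441912) (l 16451744)) (c (b (l 16451872) (l 16429088)) (l 16445432))) (a (c (b (l 16410480) (a (l 16395840)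 (l 16400224))) (b (l 16421128) (l 16408232))) (c (b (l 16410104) (l 16400264)) (b (l 16410144) (l 16398960))))) (b (c (a (l 16450720) (l 16338808)) (a (l 16448088) (l 16441480))) (c (a (b (l 16422592) (l 16409880)) (b (l 16409264) (l 16313112))) (a (l 16414688) (b (l 16407616) (c (l 16395784) (l 16394912))))))))), by decide +kernel⟩

def k5_pp_022_a : ∃ t, chk3 f_pp_022_a t 9 3 1 = true :=
  ⟨(b (a (b (a (l 16603264) (l 16622600)) (a (l 16594120) (l 16609512))) (b (l 16645552) (l 16564336))) (a (b (a (c (l 16536816) (l 16531528)) (l 16528960)) (a (a (b (c (b (c (l 16360808) (l 16440936)) (c (l 16347560) (l 16343432))) (c (b (l 16437352) (l 16381688)) (b (l 16433688) (l 16398864)))) (c (b (c (l 16391776) (l 16387120)) (l 16379856)) (c (b (l 16383080) (l 16371824)) (b (a (l 16387560) (l 16369576)) (a (l 16375568) (l 16357784)))))) (a (b (b (l 16436872) (c (l 16375784) (c (l 16389288) (l 16384592)))) (b (c (l 16363184) (c (l 16355152) (l 16349888))) (l 1))) (b (l 16416168) (l 1)))) (b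 (l 16428608) (l 1)))) (b (a (l 16468008) (l 1)) (l 1)))), by decide +kernel⟩

def k6_pp_022_a : ∃ t, chk3 f_pp_022_a t 5 1 1 = true :=
  ⟨(a (b (b (a (b (l 16508320) (l 16573680)) (l 1)) (a (b (l 16641064) (l 16674880)) (l 1))) (b (a (b (l 16653120) (l 1)) (l 1)) (l 1))) (l 1)), by decide +kernel⟩

def k7_pp_022_a : ∃ t, chk3 f_pp_022_a t 3 1 1 = true :=
  ⟨(l 1), by decide +kernel⟩

theorem s8_pp_022_a : ∃ t, chk3 f_pp_022_a t 16 7 1 = true := ex3_b k2_pp_022_a k3_pp_022_a

theorem s9_pp_022_a : ∃ t, chk3 f_pp_022_a t 8 7 1 = true := ex3_a s8_pp_022_a k4_pp_022_a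

theorem s10_pp_022_a : ∃ t, chk3 f_pp_022_a t 8 3 1 = true := ex3_b k1_pp_022_a s9_pp_022_a

theorem s11_pp_022_a : ∃ t, chk3 f_pp_022_a t 4 3 1 = true := ex3_a s10_pp_022_a k5_pp_022_a

theorem s12_pp_022_a : ∃ t, chk3 f_pp_022_a t 4 1 1 = true := ex3_b k0_pp_022_a s11_pp_022_a

theorem s13_pp_022_a : ∃ t, chk3 f_pp_022_a t 2 1 1 = true := ex3_a s12_pp_022_a k6_pp_022_a

theorem s14_pp_022_a : ∃ t, chk3 f_pp_022_a t 1 1 1 = true := ex3_a s13_pp_022_a k7_pp_022_a

theorem c_pp_022_a : CertFX 0 536870912 0 420477299 1046898278 26843546 false true true .pp 0 2 2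
    ndF3q0 ndF2q2a pcF2 Cut.none Ext.none :=
  certFX0 (fam := false) (s1 := true) (s2 := true) (a := 0) (b := 2) (c := 2) (cn := .pp) (n1 := ndF3q0) (n2 := ndF2q2a) (pc := pcF2) (cut := Cut.none) (xt := Ext.none) (P1 := 0) (W1 := 536870912) (P2 := 0) (W2 := 420477299) (P3 := 1046898278) (W3 := 26843546)
    rfl s14_pp_022_a

noncomputable def f_pp_022_b : ℕ → ℕ → ℕ → ℕ → Bool := onCell 0 536870912 1073741824 536870912 1046898278 26843546
    (rowFX 1 false true true .pp 0 2 2 (qsf 0 536870912 1239849684 370763052 2) ndF3q0 ndF2q2b pcF2 Cut.none Ext.none)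

def k0_pp_022_b : ∃ t, chk3 f_pp_022_b t 1 4 1 = true :=
  ⟨(a (a (a (b (l 1) (a (b (l 1) (a (l 1) (b (l 1) (l 16242776)))) (b (a (l 1) (b (l 1) (l 16433088))) (a (b (l 16450504) (b (l 16381000) (l 16283248))) (b (a (l 16429112) (l 16320624)) (l 16185152)))))) (b (a (b (l 1) (a (l 1) (l 16559552))) (b (a (l 1) (l 16578488)) (a (b (l 16551968) (l 16418504)) (l 16275648)))) (a (b (b (a (l 16584408) (l 16477400)) (a (a (l 16451256) (l 16428672)) (l 16309472))) (a (l 15972552) (l 15995824))) (b (b (l 16266952) (l 16107376)) (l 15817840))))) (b (a (b (a (b (a (l 16550304) (l 16449936)) (l 16248840)) (l 16173160)) (a (l 16210912) (l 15973336))) (a (b (l 15899664) (l 15764728)) (l 15692784))) (a (b (a (l 15978624) (l 15804400)) (l 15583288)) (b (l 15611896) (l 15357680))))) (a (b (a (l 15650376) (l 15589656)) (a (l 15476664) (b (l 15603824) (l 15378520)))) (b (a (l 15400976) (l 15339080)) (b (l 15443368) (l 15275320))))), by decide +kernel⟩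

def k1_pp_022_b : ∃ t, chk3 f_pp_022_b t 1 5 1 = true :=
  ⟨(a (a (b (a (b (b (a (a (a (l 1) (c (l 16354456) (l 16299232))) (c (b (l 16327208) (l 16232352)) (l 16202432))) (a (l 16122712) (l 15977656))) (a (a (a (l 16163296) (l 16250368)) (l 16156496)) (a (l 16193464) (l 16074664)))) (a (a (b (l 15808960) (l 15608392)) (b (c (l 16158984) (l 16186256)) (l 15809144))) (a (l 15944200) (l 16181016)))) (b (b (a (a (l 15837568) (l 15708752)) (l 15558176)) (a (l 15883936) (l 15686040))) (a (b (l 16235632) (l 16370024)) (l 16215200)))) (a (b (a (a (a (l 15112600) (l 15179744)) (l 15225752)) (l 15426944)) (a (a (c (l 14809272) (l 14788768)) (l 14970920)) (l 15280808))) (b (a (l 15905520) (l 16241408)) (l 15566392)))) (b (b (b (a (l 15356904) (l 15161984)) (a (l 15493248) (l 15308360))) (a (l 16024680) (l 15841680))) (b (a (l 16544312) (l 16485256)) (a (l 16346656) (l 16725912))))) (a (b (b (b (l 15192480) (l 15332248)) (l 15821856)) (b (l 16393400) (l 16654032))) (b (b (l 15254896) (l 2))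 (l 2)))), by decide +kernel⟩

def k2_pp_022_b : ∃ t, chk3 f_pp_022_b t 1 3 1 = true :=
  ⟨(a (b (a (a (a (b (c (l 14900208) (l 14884312)) (c (l 14900208) (l 14884312))) (b (l 15280376) (l 15280376))) (b (l 15712832) (l 15817696))) (b (a (l 16346872) (l 16728824)) (a (l 16346576) (l 16722896)))) (a (a (a (b (l 14895376) (l 14895376)) (l 15280376)) (b (l 15817696) (l 15817696))) (b (a (l 16346384) (l 2)) (l 2)))) (b (b (a (l 16683280) (l 2)) (l 2)) (l 2))), by decide +kernel⟩

theorem s3_pp_022_b : ∃ t, chk3 f_pp_022_b t 1 2 1 = true := ex3_b k0_pp_022_b k1_pp_022_b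

theorem s4_pp_022_b : ∃ t, chk3 f_pp_022_b t 1 1 1 = true := ex3_b s3_pp_022_b k2_pp_022_b

theorem c_pp_022_b : CertFX 0 536870912 1239849684 370763052 1046898278 26843546 false true true .pp 0 2 2
    ndF3q0 ndF2q2b pcF2 Cut.none Ext.none :=
  certFX1 (fam := false) (s1 := true) (s2 := true) (a := 0) (b := 2) (c := 2) (cn := .pp) (n1 := ndF3q0) (n2 := ndF2q2b) (pc := pcF2) (cut := Cut.none) (xt := Ext.none) (P1 := 0) (W1 := 536870912) (P2 := 1239849684) (W2 := 370763052) (P3 := 1046898278) (W3 := 26843546)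
    rfl (fun _ => rfl) s4_pp_022_b

noncomputable def f_pp_023 : ℕ → ℕ → ℕ → ℕ → Bool := onCell 1073741824 536870912 1610612736 469762048 1046898278 26843546
    (rowFX 2 false true true .up 0 2 3 (qsf 0 536870912 1610612736 469762048 2) ndF3q0 ndF2q3 pcF2 Cut.none Ext.none)

def k0_pp_023 : ∃ t, chk3 f_pp_023 t 1 1 1 = true :=
  ⟨(a (a (b (a (b (l 15200008) (l 2)) (b (l 15311032) (l 15128976))) (l 2)) (b (a (b (a (l 15259904) (l 15782128)) (l 15246920)) (a (l 16252112) (l 16547760))) (a (l 2) (b (l 16144288) (l 2))))) (b (b (a (a (l 16724712) (b (l 16503536) (l 16733416))) (a (b (a (l 16199072) (l 15913400)) (l 16463432)) (b (a (l 15600824) (b (l 15065168) (l 15400160))) (a (l 16133560) (l 15843832))))) (a (l 16702608) (a (l 16734744) (b (l 16419360) (l 16690808))))) (a (a (b (l 16535528) (l 2)) (b (l 16769296) (l 16754384))) (c (b (l 16777184) (l 16760688)) (b (l 16777184) (l 16760256)))))), by decide +kernel⟩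

theorem c_pp_023 : CertFX 0 536870912 1610612736 469762048 1046898278 26843546 false true true .up 0 2 3
    ndF3q0 ndF2q3 pcF2 Cut.none Ext.none :=
  certFX2 (fam := false) (s1 := true) (s2 := true) (a := 0) (b := 2) (c := 3) (cn := .up) (n1 := ndF3q0) (n2 := ndF2q3) (pc := pcF2) (cut := Cut.none) (xt := Ext.none) (P1 := 0) (W1 := 536870912) (P2 := 1610612736) (W2 := 469762048) (P3 := 1046898278) (W3 := 26843546)
    rfl (fun _ => rfl) k0_pp_023

noncomputable def f_pp_033 : ℕ → ℕ → ℕ → ℕ → Bool := onCell 0 536870912 1610612736 536870912 1046898278 26843546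
    (rowFX 1 false true true .pnn 0 3 3 (qsf 0 536870912 1610612736 469762048 3) ndF3q0 ndF2q3 pcF3 Cut.none Ext.none)

def k0_pp_033 : ∃ t, chk3 f_pp_033 t 1 1 1 = true :=
  ⟨(a (b (a (b (a (b (a (l 14811488) (l 15280376)) (a (c (l 14900208) (l 14884312)) (l 15280376))) (b (l 15817696) (c (l 15825816) (l 15801104)))) (b (a (c (a (l 14900208) (l 15294328)) (a (l 14716544) (l 15268632))) (c (l 15783864) (b (l 15801104) (l 15801096)))) (b (a (c (a (l 14900208) (l 15294328)) (a (l 14884312) (l 15268632))) (a (l 15647328) (l 4))) (a (a (c (l 14900208) (l 14884312)) (l 4)) (l 4))))) (b (b (a (l 16346384) (l 16722328)) (c (a (l 16351904) (l 16723008)) (a (l 16340856) (l 16721600)))) (b (a (b (l 16346368) (l 4)) (l 4)) (l 4)))) (a (b (a (a (b (l 4) (l 4)) (l 4)) (l 4)) (l 4)) (b (l 4) (l 2)))) (b (a (b (a (b (l 16777192) (l 4)) (l 4)) (l 4)) (b (l 4) (l 2))) (l 2))), by decide +kernel⟩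

theorem c_pp_033 : CertFX 0 536870912 1610612736 469762048 1046898278 26843546 false true true .pnn 0 3 3
    ndF3q0 ndF2q3 pcF3 Cut.none Ext.none :=
  certFX1 (fam := false) (s1 := true) (s2 := true) (a := 0) (b := 3) (c := 3) (cn := .pnn) (n1 := ndF3q0) (n2 := ndF2q3) (pc := pcF3) (cut := Cut.none) (xt := Ext.none) (P1 := 0) (W1 := 536870912) (P2 := 1610612736) (W2 := 469762048) (P3 := 1046898278) (W3 := 26843546)
    rfl (fun _ => rfl) k0_pp_033

noncomputable def f_pp_101 : ℕ → ℕ → ℕ → ℕ → Bool := onCell 536870912 536870912 536870912 536870912 1046898278 26843546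
    (rowFX 0 false true true .npn 1 0 1 (qsf 536870912 536870912 536870912 536870912 0) ndF3q1 ndF2q1 pcF0 Cut.none Ext.none)

def k0_pp_101 : ∃ t, chk3 f_pp_101 t 1 1 1 = true :=
  ⟨(l 3), by decide +kernel⟩

theorem c_pp_101 : CertFX 536870912 536870912 536870912 536870912 1046898278 26843546 false true true .npn 1 0 1
    ndF3q1 ndF2q1 pcF0 Cut.none Ext.none :=
  certFX0 (fam := false) (s1 := true) (s2 := true) (a := 1) (b := 0) (c := 1) (cn := .npn) (n1 := ndF3q1) (n2 := ndF2q1) (pc := pcF0) (cut := Cut.none) (xt := Ext.none) (P1 := 536870912) (W1 := 536870912) (P2 := 536870912) (W2 := 536870912) (P3 := 1046898278) (W3 := 26843546)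
    rfl k0_pp_101

noncomputable def f_pp_102_a : ℕ → ℕ → ℕ → ℕ → Bool := onCell 536870912 536870912 0 420477299 1046898278 26843546
    (rowFX 0 false true true .npp 1 0 2 (qsf 536870912 536870912 0 420477299 0) ndF3q1 ndF2q2a pcF0 Cut.none Ext.none)

def k0_pp_102_a : ∃ t, chk3 f_pp_102_a t 2 1 1 = true :=
  ⟨(b (a (l 2) (b (l 16702392) (l 16752704))) (b (a (l 16609208) (l 16609208)) (b (a (b (l 16419464) (a (l 2) (c (l 16373008) (l 16362504)))) (a (a (c (l 16398928) (l 16389104)) (l 16394016)) (l 16394016))) (b (a (a (l 2) (c (l 16320840) (l 16308984))) (a (c (l 16320840) (l 16308984)) (c (l 16320840) (l 16308984)))) (a (c (a (l 16262112) (l 16262112)) (a (l 16248728) (l 16248728))) (a (c (l 16262112) (l 16248728)) (c (l 16262112) (l 16248728)))))))), by decide +kernel⟩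

def k1_pp_102_a : ∃ t, chk3 f_pp_102_a t 3 2 1 = true :=
  ⟨(a (a (b (l 16700968) (l 16751280)) (a (l 16726808) (b (l 16531576) (l 16564952)))) (a (a (b (l 15855176) (l 15892200)) (b (l 15019992) (b (l 15260664) (a (l 15449448) (l 15230704))))) (a (b (c (l 14721584) (l 14727232)) (a (b (l 14911800) (l 15033184)) (l 14741936))) (b (c (a (l 14310592) (l 14140720)) (a (l 14377272) (a (l 14169528) (l 14083568)))) (a (c (l 14459544) (l 14533736)) (c (l 14301592) (b (l 14229856) (l 14368192)))))))), by decide +kernel⟩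

def k2_pp_102_a : ∃ t, chk3 f_pp_102_a t 3 3 1 = true :=
  ⟨(a (b (a (l 16608168) (a (l 16602704) (l 16505824))) (a (b (l 16392880) (b (l 16313720) (c (l 16260888) (l 16226496)))) (a (b (l 16386976) (b (l 16307536) (a (l 16249112) (l 16246208)))) (b (a (l 16428712) (l 16590600)) (a (b (l 16346904) (l 16249720)) (l 16291552)))))) (a (b (b (a (l 15863576) (a (l 15578328) (l 15399944))) (a (a (l 16262048) (l 15977112)) (l 15715680))) (b (a (a (l 16400704) (l 16224696)) (b (l 15926424) (l 16056200))) (a (b (l 16458424) (l 16454792)) (a (l 16178352) (b (l 16118208) (l 16262416)))))) (a (a (b (b (l 15208808) (l 15451912)) (b (c (b (l 15678176) (l 15803816)) (l 15734464)) (c (c (l 15912440) (l 16016184)) (l 16003640)))) (b (b (l 14989120) (c (l 15222440) (l 15263624))) (b (c (l 15498248) (l 15547080)) (b (l 15539096) (a (l 15810832) (c (l 15646936) (l 15844936))))))) (b (b (a (c (l 14708936) (l 14790392)) (c (l 14554832) (l 14560656))) (a (c (l 14952544) (l 15040896)) (c (l 14802920) (a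 (l 14841376) (l 14761320))))) (c (b (a (l 15186768) (b (a (l 15027000) (l 15009600)) (a (l 15159984) (l 15161008)))) (a (a (b (l 15476544) (l 15581080)) (b (l 15156712) (l 15534768))) (b (l 15253600) (a (l 15526248) (l 15543392))))) (b (a (l 15324592) (a (b (l 15064104) (l 15200552)) (b (l 14887344) (l 15084696)))) (a (b (l 15428176) (a (l 15760712) (l 15676184))) (a (b (l 15371832) (l 15450560)) (b (l 15333728) (c (l 15529864) (a (l 15547288) (l 15529296)))))))))))), by decide +kernel⟩

theorem s3_pp_102_a : ∃ t, chk3 f_pp_102_a t 3 1 1 = true := ex3_b k1_pp_102_a k2_pp_102_a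

theorem s4_pp_102_a : ∃ t, chk3 f_pp_102_a t 1 1 1 = true := ex3_a k0_pp_102_a s3_pp_102_a

theorem c_pp_102_a : CertFX 536870912 536870912 0 420477299 1046898278 26843546 false true true .npp 1 0 2
    ndF3q1 ndF2q2a pcF0 Cut.none Ext.none :=
  certFX0 (fam := false) (s1 := true) (s2 := true) (a := 1) (b := 0) (c := 2) (cn := .npp) (n1 := ndF3q1) (n2 := ndF2q2a) (pc := pcF0) (cut := Cut.none) (xt := Ext.none) (P1 := 536870912) (W1 := 536870912) (P2 := 0) (W2 := 420477299) (P3 := 1046898278) (W3 := 26843546)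
    rfl s4_pp_102_a

noncomputable def f_pp_102_b : ℕ → ℕ → ℕ → ℕ → Bool := onCell 536870912 536870912 1239849684 370763052 1046898278 26843546
    (rowFX 0 false true true .npp 1 0 2 (qsf 536870912 536870912 1239849684 370763052 0) ndF3q1 ndF2q2b pcF0 Cut.none Ext.none)

def k0_pp_102_b : ∃ t, chk3 f_pp_102_b t 1 1 1 = true :=
  ⟨(a (b (a (l 2) (b (l 16753056) (l 16777216))) (l 2)) (a (b (a (b (l 16751616) (l 16775704)) (a (l 16757080) (b (l 16418992) (l 16581336)))) (a (l 2) (a (l 16768032) (l 16581336)))) (b (a (b (a (l 15871976) (b (l 15248816) (l 15279792))) (a (l 15910368) (l 15284048))) (b (a (b (a (b (l 14591896) (l 14790992)) (b (l 14528928) (l 14459376))) (l 14382224)) (b (a (b (c (l 14236008) (l 14303976)) (c (l 14127304) (l 14191576))) (c (l 14006760) (c (l 13998512) (l 14004248)))) (a (c (l 14084904) (l 14147856)) (b (c (l 13858952) (a (l 13877720) (l 13774472))) (l 13824240))))) (a (c (l 14646872) (l 14650384)) (c (l 13974584) (a (l 14150488) (l 13810152)))))) (a (a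 (l 15910368) (l 15284048)) (a (b (l 14638568) (l 14638568)) (b (c (l 13974584) (l 13979936)) (l 13983624))))))), by decide +kernel⟩

theorem c_pp_102_b : CertFX 536870912 536870912 1239849684 370763052 1046898278 26843546 false true true .npp 1 0 2
    ndF3q1 ndF2q2b pcF0 Cut.none Ext.none :=
  certFX0 (fam := false) (s1 := true) (s2 := true) (a := 1) (b := 0) (c := 2) (cn := .npp) (n1 := ndF3q1) (n2 := ndF2q2b) (pc := pcF0) (cut := Cut.none) (xt := Ext.none) (P1 := 536870912) (W1 := 536870912) (P2 := 1239849684) (W2 := 370763052) (P3 := 1046898278) (W3 := 26843546)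
    rfl k0_pp_102_b

noncomputable def f_pp_112_a : ℕ → ℕ → ℕ → ℕ → Bool := onCell 536870912 536870912 0 420477299 1046898278 26843546
    (rowFX 2 false true true .dn 1 1 2 (qsf 536870912 536870912 0 420477299 1) ndF3q1 ndF2q2a pcF1 Cut.none Ext.none)

def k0_pp_112_a : ∃ t, chk3 f_pp_112_a t 1 1 1 = true :=
  ⟨(a (b (a (b (l 16702392) (l 16752704)) (b (l 16702392) (l 163242139447))) (b (a (l 16609208) (l 571263841271)) (a (c (a (b (l 16398928) (l 16291480)) (b (l 16356984) (l 16291480))) (a (b (b (l 16414880) (l 16362504)) (l 16278864)) (b (b (l 16414880) (l 129955423463)) (a (l 16278864) (l 1))))) (l 1)))) (l 1)), by decide +kernel⟩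

theorem c_pp_112_a : CertFX 536870912 536870912 0 420477299 1046898278 26843546 false true true .dn 1 1 2
    ndF3q1 ndF2q2a pcF1 Cut.none Ext.none :=
  certFX2 (fam := false) (s1 := true) (s2 := true) (a := 1) (b := 1) (c := 2) (cn := .dn) (n1 := ndF3q1) (n2 := ndF2q2a) (pc := pcF1) (cut := Cut.none) (xt := Ext.none) (P1 := 536870912) (W1 := 536870912) (P2 := 0) (W2 := 420477299) (P3 := 1046898278) (W3 := 26843546)
    rfl (fun _ => rfl) k0_pp_112_a

noncomputable def f_pp_112_b : ℕ → ℕ → ℕ → ℕ → Bool := onCell 536870912 536870912 1239849684 370763052 1046898278 26843546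
    (rowFX 0 false true true .dn 1 1 2 (qsf 536870912 536870912 1239849684 370763052 1) ndF3q1 ndF2q2b pcF1 Cut.none Ext.none)

def k0_pp_112_b : ∃ t, chk3 f_pp_112_b t 1 1 1 = true :=
  ⟨(b (a (a (b (l 16753056) (l 16775288)) (b (l 16753056) (l 16777216))) (a (a (l 280816881031) (a (l 16757080) (l 1))) (l 1))) (a (a (b (a (b (l 16763000) (l 16761384)) (l 16771160)) (b (a (l 16633520) (l 16771120)) (a (l 16344992) (l 16644640)))) (b (l 16777168) (l 16771184))) (a (a (l 16775704) (l 429529598023)) (a (a (l 15910368) (l 15284048)) (a (l 444021018055) (b (l 1) (l 13983624))))))), by decide +kernel⟩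

theorem c_pp_112_b : CertFX 536870912 536870912 1239849684 370763052 1046898278 26843546 false true true .dn 1 1 2
    ndF3q1 ndF2q2b pcF1 Cut.none Ext.none :=
  certFX0 (fam := false) (s1 := true) (s2 := true) (a := 1) (b := 1) (c := 2) (cn := .dn) (n1 := ndF3q1) (n2 := ndF2q2b) (pc := pcF1) (cut := Cut.none) (xt := Ext.none) (P1 := 536870912) (W1 := 536870912) (P2 := 1239849684) (W2 := 370763052) (P3 := 1046898278) (W3 := 26843546)
    rfl k0_pp_112_b

noncomputable def f_pp_113 : ℕ → ℕ → ℕ → ℕ → Bool := onCell 536870912 536870912 536870912 536870912 1046898278 26843546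
    (rowFX 1 false true true .nn 1 1 3 (qsf 536870912 536870912 1610612736 469762048 1) ndF3q1 ndF2q3 pcF1 Cut.none Ext.none)

def k0_pp_113 : ∃ t, chk3 f_pp_113 t 1 1 1 = true :=
  ⟨(b (a (b (l 1) (l 433288380375)) (a (b (l 498786625127) (l 412886697575)) (a (b (l 15474864) (l 15621664)) (a (b (l 14638568) (l 14638568)) (b (l 13983624) (l 13983624)))))) (b (a (b (l 16774200) (l 502008348695)) (a (b (l 16737200) (l 16711280)) (a (b (l 15623848) (l 15585288)) (b (l 14375376) (l 14076368))))) (a (b (a (l 16569328) (l 16359920)) (a (b (l 16198600) (l 15864624)) (b (l 15820312) (l 15379144)))) (a (b (l 16113080) (b (l 15406640) (l 14853224))) (b (a (l 14931712) (a (l 13931552) (l 13258568))) (b (a (l 14185640) (l 13126576)) (a (l 13613656) (a (l 12986656) (b (l 13106192) (l 2)))))))))), by decide +kernel⟩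

theorem c_pp_113 : CertFX 536870912 536870912 1610612736 469762048 1046898278 26843546 false true true .nn 1 1 3
    ndF3q1 ndF2q3 pcF1 Cut.none Ext.none :=
  certFX1 (fam := false) (s1 := true) (s2 := true) (a := 1) (b := 1) (c := 3) (cn := .nn) (n1 := ndF3q1) (n2 := ndF2q3) (pc := pcF1) (cut := Cut.none) (xt := Ext.none) (P1 := 536870912) (W1 := 536870912) (P2 := 1610612736) (W2 := 469762048) (P3 := 1046898278) (W3 := 26843546)
    rfl (fun _ => rfl) k0_pp_113

noncomputable def f_pp_123 : ℕ → ℕ → ℕ → ℕ → Bool := onCell 1073741824 536870912 1610612736 469762048 1046898278 26843546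
    (rowFX 2 false true true .npn 1 2 3 (qsf 536870912 536870912 1610612736 469762048 2) ndF3q1 ndF2q3 pcF2 Cut.none Ext.none)

def k0_pp_123 : ∃ t, chk3 f_pp_123 t 1 1 1 = true :=
  ⟨(b (a (b (a (a (l 15200008) (l 15290064)) (l 1)) (a (a (l 14916832) (l 15128976)) (a (l 15225944) (l 16314352)))) (l 1)) (a (a (b (a (l 14636752) (l 14949968)) (a (b (l 14374256) (a (l 13735280) (l 14332736))) (a (l 14675728) (l 14899816)))) (a (b (l 15429696) (a (l 15209344) (l 15573352))) (b (l 16144288) (a (l 15875832) (l 16135568))))) (a (a (b (l 16535528) (l 16486856)) (b (l 16769296) (l 16754384))) (c (l 16865488) (l 972843938007))))), by decide +kernel⟩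

theorem c_pp_123 : CertFX 536870912 536870912 1610612736 469762048 1046898278 26843546 false true true .npn 1 2 3
    ndF3q1 ndF2q3 pcF2 Cut.none Ext.none :=
  certFX2 (fam := false) (s1 := true) (s2 := true) (a := 1) (b := 2) (c := 3) (cn := .npn) (n1 := ndF3q1) (n2 := ndF2q3) (pc := pcF2) (cut := Cut.none) (xt := Ext.none) (P1 := 536870912) (W1 := 536870912) (P2 := 1610612736) (W2 := 469762048) (P3 := 1046898278) (W3 := 26843546)
    rfl (fun _ => rfl) k0_pp_123

noncomputable def f_pp_133 : ℕ → ℕ → ℕ → ℕ → Bool := onCell 536870912 536870912 1610612736 469762048 1046898278 26843546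
    (rowFX 0 false true true .dn 1 3 3 (qsf 536870912 536870912 1610612736 469762048 3) ndF3q1 ndF2q3 pcF3 Cut.none Ext.none)

def k0_pp_133 : ∃ t, chk3 f_pp_133 t 1 1 1 = true :=
  ⟨(l 1), by decide +kernel⟩

theorem c_pp_133 : CertFX 536870912 536870912 1610612736 469762048 1046898278 26843546 false true true .dn 1 3 3
    ndF3q1 ndF2q3 pcF3 Cut.none Ext.none :=
  certFX0 (fam := false) (s1 := true) (s2 := true) (a := 1) (b := 3) (c := 3) (cn := .dn) (n1 := ndF3q1) (n2 := ndF2q3) (pc := pcF3) (cut := Cut.none) (xt := Ext.none) (P1 := 536870912) (W1 := 536870912) (P2 := 1610612736) (W2 := 469762048) (P3 := 1046898278) (W3 := 26843546)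
    rfl k0_pp_133

noncomputable def f_pp_202_a : ℕ → ℕ → ℕ → ℕ → Bool := onCell 1073741824 536870912 0 420477299 1046898278 26843546
    (rowFX 0 false true true .pp 2 0 2 (qsf 1073741824 536870912 0 420477299 0) ndF3q2 ndF2q2a pcF0 Cut.none Ext.none)

def k0_pp_202_a : ∃ t, chk3 f_pp_202_a t 1 1 1 = true :=
  ⟨(l 3), by decide +kernel⟩

theorem c_pp_202_a : CertFX 1073741824 536870912 0 420477299 1046898278 26843546 false true true .pp 2 0 2
    ndF3q2 ndF2q2a pcF0 Cut.none Ext.none :=
  certFX0 (fam := false) (s1 := true) (s2 := true) (a := 2) (b := 0) (c := 2) (cn := .pp) (n1 := ndF3q2) (n2 := ndF2q2a) (pc := pcF0) (cut := Cut.none) (xt := Ext.none) (P1 := 1073741824) (W1 := 536870912) (P2 := 0) (W2 := 420477299) (P3 := 1046898278) (W3 := 26843546)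
    rfl k0_pp_202_a

noncomputable def f_pp_202_b : ℕ → ℕ → ℕ → ℕ → Bool := onCell 1073741824 536870912 1239849684 370763052 1046898278 26843546
    (rowFX 0 false true true .pp 2 0 2 (qsf 1073741824 536870912 1239849684 370763052 0) ndF3q2 ndF2q2b pcF0 Cut.none Ext.none)

def k0_pp_202_b : ∃ t, chk3 f_pp_202_b t 1 1 1 = true :=
  ⟨(l 3), by decide +kernel⟩

theorem c_pp_202_b : CertFX 1073741824 536870912 1239849684 370763052 1046898278 26843546 false true true .pp 2 0 2
    ndF3q2 ndF2q2b pcF0 Cut.none Ext.none :=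
  certFX0 (fam := false) (s1 := true) (s2 := true) (a := 2) (b := 0) (c := 2) (cn := .pp) (n1 := ndF3q2) (n2 := ndF2q2b) (pc := pcF0) (cut := Cut.none) (xt := Ext.none) (P1 := 1073741824) (W1 := 536870912) (P2 := 1239849684) (W2 := 370763052) (P3 := 1046898278) (W3 := 26843546)
    rfl k0_pp_202_b

noncomputable def f_pp_203 : ℕ → ℕ → ℕ → ℕ → Bool := onCell 1073741824 536870912 1610612736 469762048 1046898278 26843546
    (rowFX 0 false true true .up 2 0 3 (qsf 1073741824 536870912 1610612736 469762048 0) ndF3q2 ndF2q3 pcF0 Cut.none Ext.none)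

def k0_pp_203 : ∃ t, chk3 f_pp_203 t 1 1 1 = true :=
  ⟨(l 3), by decide +kernel⟩

theorem c_pp_203 : CertFX 1073741824 536870912 1610612736 469762048 1046898278 26843546 false true true .up 2 0 3
    ndF3q2 ndF2q3 pcF0 Cut.none Ext.none :=
  certFX0 (fam := false) (s1 := true) (s2 := true) (a := 2) (b := 0) (c := 3) (cn := .up) (n1 := ndF3q2) (n2 := ndF2q3) (pc := pcF0) (cut := Cut.none) (xt := Ext.none) (P1 := 1073741824) (W1 := 536870912) (P2 := 1610612736) (W2 := 469762048) (P3 := 1046898278) (W3 := 26843546)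
    rfl k0_pp_203

noncomputable def f_pp_213 : ℕ → ℕ → ℕ → ℕ → Bool := onCell 1073741824 536870912 1610612736 469762048 1046898278 26843546
    (rowFX 0 false true true .pnn 2 1 3 (qsf 1073741824 536870912 1610612736 469762048 1) ndF3q2 ndF2q3 pcF1 Cut.none Ext.none)

def k0_pp_213 : ∃ t, chk3 f_pp_213 t 1 1 1 = true :=
  ⟨(l 3), by decide +kernel⟩

theorem c_pp_213 : CertFX 1073741824 536870912 1610612736 469762048 1046898278 26843546 false true true .pnn 2 1 3
    ndF3q2 ndF2q3 pcF1 Cut.none Ext.none :=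
  certFX0 (fam := false) (s1 := true) (s2 := true) (a := 2) (b := 1) (c := 3) (cn := .pnn) (n1 := ndF3q2) (n2 := ndF2q3) (pc := pcF1) (cut := Cut.none) (xt := Ext.none) (P1 := 1073741824) (W1 := 536870912) (P2 := 1610612736) (W2 := 469762048) (P3 := 1046898278) (W3 := 26843546)
    rfl k0_pp_213

noncomputable def f_pp_303 : ℕ → ℕ → ℕ → ℕ → Bool := onCell 1610612736 536870912 1610612736 469762048 1046898278 26843546
    (rowFX 0 false true true .npn 3 0 3 (qsf 1610612736 536870912 1610612736 469762048 0) ndF3q3 ndF2q3 pcF0 Cut.none Ext.none)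

def k0_pp_303 : ∃ t, chk3 f_pp_303 t 1 1 1 = true :=
  ⟨(l 3), by decide +kernel⟩

theorem c_pp_303 : CertFX 1610612736 536870912 1610612736 469762048 1046898278 26843546 false true true .npn 3 0 3
    ndF3q3 ndF2q3 pcF0 Cut.none Ext.none :=
  certFX0 (fam := false) (s1 := true) (s2 := true) (a := 3) (b := 0) (c := 3) (cn := .npn) (n1 := ndF3q3) (n2 := ndF2q3) (pc := pcF0) (cut := Cut.none) (xt := Ext.none) (P1 := 1610612736) (W1 := 536870912) (P2 := 1610612736) (W2 := 469762048) (P3 := 1046898278) (W3 := 26843546)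
    rfl k0_pp_303

noncomputable def f_pp_313 : ℕ → ℕ → ℕ → ℕ → Bool := onCell 1610612736 536870912 1610612736 469762048 1046898278 26843546
    (rowFX 0 false true true .dn 3 1 3 (qsf 1610612736 536870912 1610612736 469762048 1) ndF3q3 ndF2q3 pcF1 Cut.none Ext.none)

def k0_pp_313 : ∃ t, chk3 f_pp_313 t 1 1 1 = true :=
  ⟨(l 1), by decide +kernel⟩

theorem c_pp_313 : CertFX 1610612736 536870912 1610612736 469762048 1046898278 26843546 false true true .dn 3 1 3
    ndF3q3 ndF2q3 pcF1 Cut.none Ext.none :=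
  certFX0 (fam := false) (s1 := true) (s2 := true) (a := 3) (b := 1) (c := 3) (cn := .dn) (n1 := ndF3q3) (n2 := ndF2q3) (pc := pcF1) (cut := Cut.none) (xt := Ext.none) (P1 := 1610612736) (W1 := 536870912) (P2 := 1610612736) (W2 := 469762048) (P3 := 1046898278) (W3 := 26843546)
    rfl k0_pp_313

noncomputable def f_pm_001 : ℕ → ℕ → ℕ → ℕ → Bool := onCell 0 536870912 536870912 536870912 1046898278 26843546
    (rowFX 0 false true false .up 0 0 1 (qsf 0 536870912 536870912 536870912 0) ndF3q0 ndF2q1 pcF0 Cut.none Ext.none)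

def k0_pm_001 : ∃ t, chk3 f_pm_001 t 1 1 1 = true :=
  ⟨(l 4), by decide +kernel⟩

theorem c_pm_001 : CertFX 0 536870912 536870912 536870912 1046898278 26843546 false true false .up 0 0 1
    ndF3q0 ndF2q1 pcF0 Cut.none Ext.none :=
  certFX0 (fam := false) (s1 := true) (s2 := false) (a := 0) (b := 0) (c := 1) (cn := .up) (n1 := ndF3q0) (n2 := ndF2q1) (pc := pcF0) (cut := Cut.none) (xt := Ext.none) (P1 := 0) (W1 := 536870912) (P2 := 536870912) (W2 := 536870912) (P3 := 1046898278) (W3 := 26843546)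
    rfl k0_pm_001

noncomputable def f_pm_011 : ℕ → ℕ → ℕ → ℕ → Bool := onCell 0 536870912 536870912 536870912 1046898278 26843546
    (rowFX 0 false true false .pnn 0 1 1 (qsf 0 536870912 536870912 536870912 1) ndF3q0 ndF2q1 pcF1 Cut.none Ext.none)

def k0_pm_011 : ∃ t, chk3 f_pm_011 t 1 1 1 = true :=
  ⟨(l 4), by decide +kernel⟩

theorem c_pm_011 : CertFX 0 536870912 536870912 536870912 1046898278 26843546 false true false .pnn 0 1 1
    ndF3q0 ndF2q1 pcF1 Cut.none Ext.none :=
  certFX0 (fam := false) (s1 := true) (s2 := false) (a := 0) (b := 1) (c := 1) (cn := .pnn) (n1 := ndF3q0) (n2 := ndF2q1) (pc := pcF1) (cut := Cut.none) (xt := Ext.none) (P1 := 0) (W1 := 536870912) (P2 := 536870912) (W2 := 536870912) (P3 := 1046898278) (W3 := 26843546)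
    rfl k0_pm_011

noncomputable def f_pm_012_a : ℕ → ℕ → ℕ → ℕ → Bool := onCell 536870912 536870912 0 420477299 1046898278 26843546
    (rowFX 2 false true false .pnp 0 1 2 (qsf 0 536870912 0 420477299 1) ndF3q0 ndF2q2a pcF1 Cut.none Ext.none)

def k0_pm_012_a : ∃ t, chk3 f_pm_012_a t 1 1 1 = true :=
  ⟨(a (l 4) (a (b (l 4) (l 4)) (b (b (a (a (l 4) (a (l 4) (a (l 4) (c (c (l 14424640) (l 14434296)) (l 14400616))))) (a (b (c (a (c (l 14324648) (l 14343408)) (c (l 14314120) (a (l 14380664) (l 14304168)))) (a (l 14324464) (c (c (l 14354152) (l 14349336)) (l 14327248)))) (l 4)) (a (b (b (c (a (b (l 14307280) (l 14213896)) (l 14232720)) (a (c (b (c (l 14420448) (l 14425856)) (l 14249808)) (b (l 14402992) (l 14239832))) (c (l 14308976) (l 14318504)))) (c (a (l 14215752) (a (l 14165808) (l 14184296))) (c (a (l 14251696) (a (l 14195336) (l 14255016))) (a (l 14241752) (a (l 14195016) (l 14062104)))))) (l 4)) (c (a (l 14177280) (l 14168728)) (c (a (a (l 14077656) (l 14147824)) (l 14124792))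 (a (c (b (b (l 14249008) (l 14028240)) (l 14126128)) (b (l 14215776) (l 14124240))) (a (c (l 14123848) (l 14139752)) (b (l 14132160) (l 14064408))))))))) (l 4)) (l 4)))), by decide +kernel⟩

theorem c_pm_012_a : CertFX 0 536870912 0 420477299 1046898278 26843546 false true false .pnp 0 1 2
    ndF3q0 ndF2q2a pcF1 Cut.none Ext.none :=
  certFX2 (fam := false) (s1 := true) (s2 := false) (a := 0) (b := 1) (c := 2) (cn := .pnp) (n1 := ndF3q0) (n2 := ndF2q2a) (pc := pcF1) (cut := Cut.none) (xt := Ext.none) (P1 := 0) (W1 := 536870912) (P2 := 0) (W2 := 420477299) (P3 := 1046898278) (W3 := 26843546)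
    rfl (fun _ => rfl) k0_pm_012_a

noncomputable def f_pm_012_b : ℕ → ℕ → ℕ → ℕ → Bool := onCell 536870912 536870912 1239849684 370763052 1046898278 26843546
    (rowFX 2 false true false .pnp 0 1 2 (qsf 0 536870912 1239849684 370763052 1) ndF3q0 ndF2q2b pcF1 Cut.none Ext.none)

def k0_pm_012_b : ∃ t, chk3 f_pm_012_b t 1 1 1 = true :=
  ⟨(a (l 4) (a (l 4) (b (b (b (a (a (l 4) (a (l 4) (a (l 4) (c (c (l 14435496) (l 14445320)) (l 14411888))))) (b (a (c (a (c (l 14295416) (l 14166944)) (c (l 14171080) (b (a (l 14349808) (l 14273152)) (l 14152552)))) (a (l 14252208) (c (c (b (l 14306760) (l 14165200)) (l 14288200)) (l 14181568)))) (b (a (c (a (b (l 14209984) (a (l 14186568) (l 14199208))) (l 14035776)) (a (c (b (c (l 14406424) (l 14411368)) (a (l 14223544) (l 14118520))) (b (l 14388552) (l 14252960))) (c (l 14279128) (l 14288216)))) (l 14191088)) (c (a (a (l 14124296) (a (l 14074032) (l 14093400))) (l 14069504)) (a (c (a (l 14158216) (a (l 14101536) (l 14162064))) (a (l 14146920) (a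 (l 14099872) (c (l 14185056) (l 14169896))))) (a (c (l 13985376) (c (a (l 14131808) (l 14073272)) (l 14101040))) (c (l 14027464) (a (l 14024088) (l 14009232)))))))) (b (a (l 4) (c (a (l 14001296) (l 13981936)) (a (c (l 13749320) (l 13993952)) (a (c (l 13947472) (l 13853856)) (c (l 13928344) (a (l 13929296) (l 13896528))))))) (l 4)))) (l 4)) (l 4)) (l 4)))), by decide +kernel⟩

theorem c_pm_012_b : CertFX 0 536870912 1239849684 370763052 1046898278 26843546 false true false .pnp 0 1 2
    ndF3q0 ndF2q2b pcF1 Cut.none Ext.none :=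
  certFX2 (fam := false) (s1 := true) (s2 := false) (a := 0) (b := 1) (c := 2) (cn := .pnp) (n1 := ndF3q0) (n2 := ndF2q2b) (pc := pcF1) (cut := Cut.none) (xt := Ext.none) (P1 := 0) (W1 := 536870912) (P2 := 1239849684) (W2 := 370763052) (P3 := 1046898278) (W3 := 26843546)
    rfl (fun _ => rfl) k0_pm_012_b

noncomputable def f_pm_022_a : ℕ → ℕ → ℕ → ℕ → Bool := onCell 1073741824 536870912 0 420477299 1046898278 26843546
    (rowFX 2 false true false .pp 0 2 2 (qsf 0 536870912 0 420477299 2) ndF3q0 ndF2q2a pcF2 Cut.none Ext.none)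

def k0_pm_022_a : ∃ t, chk3 f_pm_022_a t 4 2 1 = true :=
  ⟨(a (a (c (b (l 14397472) (l 14465280)) (b (a (l 14231872) (l 14514200)) (a (l 4) (l 29221007287)))) (b (c (a (l 14774544) (l 15057112)) (l 14758424)) (c (a (l 212831360487) (b (l 15061304) (l 15180616))) (a (l 14632792) (l 15141304))))) (a (a (b (c (l 15369280) (l 15364264)) (c (b (l 15386368) (l 15500880)) (l 15446200))) (b (c (l 15653256) (l 15642752)) (c (b (l 15682480) (l 15784872)) (l 15737240)))) (b (c (a (l 15909960) (l 16160760)) (l 15823056)) (c (a (b (l 15957984) (l 16090952)) (b (l 16225424) (l 16342400))) (a (l 15934096) (b (l 16194392) (l 16330904))))))), by decide +kernel⟩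

def k1_pm_022_a : ∃ t, chk3 f_pm_022_a t 8 3 1 = true :=
  ⟨(a (l 4) (a (l 4) (b (c (b (l 15174952) (l 4)) (l 15304752)) (a (b (l 4) (b (l 4) (c (c (l 16185144) (c (l 353495170327) (l 264911427975))) (c (l 16312664) (l 16362312))))) (b (l 4) (c (b (c (l 16275928) (l 357790081367)) (c (b (l 16437712) (l 16523072)) (b (l 16414016) (b (l 16509816) (l 16491736))))) (b (l 16231624) (a (b (l 16451912) (l 16476856)) (c (l 16498432) (l 16484368)))))))))), by decide +kernel⟩

def k2_pm_022_a : ∃ t, chk3 f_pm_022_a t 9 3 1 = true :=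
  ⟨(b (c (a (a (b (c (l 15686808) (l 15715184)) (c (l 15764544) (l 15936216))) (a (b (l 15932936) (a (l 15972912) (l 16163320))) (b (l 16090536) (l 16254688)))) (b (a (l 16213112) (b (l 16308944) (l 811244341831))) (a (b (l 16343448) (c (l 16279864) (l 16248648))) (b (l 854193989591) (l 991632877031))))) (a (a (b (l 15699864) (l 15981584)) (b (l 15991072) (a (l 16182744) (l 16303232)))) (b (a (l 16198688) (a (l 16379168) (b (l 16447952) (l 16274936)))) (a (b (l 16355512) (a (l 16406600) (l 630318860231))) (b (a (l 16278528) (l 16255400)) (l 1307850021815)))))) (a (b (a (c (c (b (a (l 16156440) (l 16318920)) (a (l 16304736) (l 16413040))) (b (l 16117832) (l 16244544))) (b (l 16204472) (a (l 16332768) (l 16429584)))) (c (a (b (c (l 16348880) (l 16493936)) (c (b (l 16432240) (l 16370960)) (l 16366176))) (b (c (l 16399400) (l 16432552)) (l 840235559895))) (b (a (l 16371856) (l 16289248)) (a (c (l 16360976) (l 16375280)) (b (l 16352376) (l 16310960)))))) (a (c (c (b (a (l 16375184) (l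 779032427495)) (a (l 816613516743) (l 1775465035383))) (b (a (l 16430472) (l 16404472)) (a (b (l 16481264) (l 16458208)) (l 1248794679863)))) (b (a (c (l 16456920) (l 16484368)) (c (l 16375056) (l 285648058023))) (a (b (c (l 16510840) (l 16482656)) (c (l 16476792) (l 715144864583))) (b (l 950294246471) (l 1))))) (b (a (c (c (l 1169874339735) (l 874595402999)) (a (c (l 16389384) (l 686153676807)) (l 972305868359))) (l 1)) (l 1)))) (b (a (c (b (a (l 16349296) (l 16317144)) (l 1290133446231)) (b (a (b (l 16339888) (l 16332144)) (l 1199401998839)) (l 1283154107431))) (l 1)) (l 1)))), by decide +kernel⟩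

def k3_pm_022_a : ∃ t, chk3 f_pm_022_a t 5 1 1 = true :=
  ⟨(a (b (a (c (a (b (b (l 16386008) (l 16401440)) (b (a (l 16417048) (l 16335136)) (b (l 813928700183) (l 832719141911)))) (b (a (l 16175328) (l 860636258823)) (b (l 858488751911) (l 1156452364711)))) (a (b (l 16301488) (b (l 16251088) (a (l 16289776) (b (l 16305808) (l 16271768))))) (b (a (l 16200600) (l 947072366167)) (b (a (l 1618698326951) (l 16206376)) (l 1237519413623))))) (b (l 1) (l 1))) (b (a (a (b (a (c (l 987338011287) (b (l 1591318063991) (l 16302840))) (l 1)) (l 1)) (l 1)) (l 1)) (l 1))) (l 1)), by decide +kernel⟩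

def k4_pm_022_a : ∃ t, chk3 f_pm_022_a t 3 1 1 = true :=
  ⟨(l 1), by decide +kernel⟩

theorem s5_pm_022_a : ∃ t, chk3 f_pm_022_a t 4 3 1 = true := ex3_a k1_pm_022_a k2_pm_022_a

theorem s6_pm_022_a : ∃ t, chk3 f_pm_022_a t 4 1 1 = true := ex3_b k0_pm_022_a s5_pm_022_a

theorem s7_pm_022_a : ∃ t, chk3 f_pm_022_a t 2 1 1 = true := ex3_a s6_pm_022_a k3_pm_022_a

theorem s8_pm_022_a : ∃ t, chk3 f_pm_022_a t 1 1 1 = true := ex3_a s7_pm_022_a k4_pm_022_a

theorem c_pm_022_a : CertFX 0 536870912 0 420477299 1046898278 26843546 false true false .pp 0 2 2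
    ndF3q0 ndF2q2a pcF2 Cut.none Ext.none :=
  certFX2 (fam := false) (s1 := true) (s2 := false) (a := 0) (b := 2) (c := 2) (cn := .pp) (n1 := ndF3q0) (n2 := ndF2q2a) (pc := pcF2) (cut := Cut.none) (xt := Ext.none) (P1 := 0) (W1 := 536870912) (P2 := 0) (W2 := 420477299) (P3 := 1046898278) (W3 := 26843546)
    rfl (fun _ => rfl) s8_pm_022_a

noncomputable def f_pm_022_b : ℕ → ℕ → ℕ → ℕ → Bool := onCell 0 536870912 1073741824 536870912 1046898278 26843546
    (rowFX 1 false true false .pp 0 2 2 (qsf 0 536870912 1239849684 370763052 2) ndF3q0 ndF2q2b pcF2 Cut.none Ext.none)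

def k0_pm_022_b : ∃ t, chk3 f_pm_022_b t 1 2 1 = true :=
  ⟨(a (b (a (b (a (l 1) (a (b (l 1) (c (b (l 1) (l 922374746295)) (l 750039225367))) (b (c (l 882108286727) (b (l 1) (l 612599071495))) (c (b (l 14944840) (l 15020952)) (b (l 14954952) (l 15027632)))))) (a (b (a (l 1) (b (l 1) (c (a (l 1) (l 15782640)) (l 520796436503)))) (a (a (l 1) (c (l 375305157207) (l 217465189399))) (b (a (l 16047056) (l 15908920)) (a (l 16125056) (l 15976832))))) (b (a (c (b (l 774735294135) (l 15351912)) (b (l 15534144) (l 15570872))) (c (b (l 15140552) (l 15253848)) (l 15181584))) (a (c (l 15708768) (l 15686192)) (c (l 15431616) (l 15400224)))))) (a (a (b (b (c (l 14478104) (b (l 14365560) (l 14492400))) (c (l 14673968) (l 14672040))) (b (c (b (l 14883248) (l 15018144)) (l 14721480)) (l 14984376))) (b (c (b (l 14168432) (l 14447016)) (b (c (l 14141360) (l 14137656)) (l 14440624))) (l 4))) (l 4))) (a (b (a (b (a (b (a (c (l 16215784) (l 488048062823)) (c (l 16381536) (l 16352536))) (a (c (a (l 16265080)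 (l 16306256)) (a (l 16257344) (l 16343504))) (l 16181544))) (b (l 15938352) (l 16105240))) (a (a (c (l 15769672) (l 15764872)) (c (b (l 16191680) (l 16002760)) (l 16057872))) (c (a (l 16196264) (l 16420016)) (a (l 16188616) (l 16423248))))) (b (b (a (l 15625696) (l 15639000)) (a (l 15942472) (l 15795112))) (a (a (l 16097240) (l 16172752)) (l 15927504)))) (a (b (a (c (a (l 15588952) (l 15763400)) (a (l 15447536) (l 15779072))) (a (c (l 15964576) (l 15968992)) (l 16030376))) (a (c (a (l 15340672) (l 15533816)) (a (l 15296624) (l 15542496))) (c (l 15762920) (l 15736440)))) (a (a (b (l 16210144) (l 15913168)) (b (l 16386720) (l 4))) (l 4)))) (l 4))) (l 4)), by decide +kernel⟩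

def k1_pm_022_b : ∃ t, chk3 f_pm_022_b t 1 3 1 = true :=
  ⟨(a (a (b (a (b (a (c (b (l 15196328) (a (l 14982800) (l 15164520))) (b (l 15088680) (a (l 14968872) (l 15160752)))) (b (c (l 15652696) (l 15640648)) (c (l 15461768) (l 15442728)))) (a (c (b (b (l 14914904) (l 14900208)) (l 14900208)) (b (b (l 14921392) (l 14884312)) (l 14884312))) (l 4))) (l 4)) (l 4)) (l 4)) (l 4)), by decide +kernel⟩

theorem s2_pm_022_b : ∃ t, chk3 f_pm_022_b t 1 1 1 = true := ex3_b k0_pm_022_b k1_pm_022_b

theorem c_pm_022_b : CertFX 0 536870912 1239849684 370763052 1046898278 26843546 false true false .pp 0 2 2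
    ndF3q0 ndF2q2b pcF2 Cut.none Ext.none :=
  certFX1 (fam := false) (s1 := true) (s2 := false) (a := 0) (b := 2) (c := 2) (cn := .pp) (n1 := ndF3q0) (n2 := ndF2q2b) (pc := pcF2) (cut := Cut.none) (xt := Ext.none) (P1 := 0) (W1 := 536870912) (P2 := 1239849684) (W2 := 370763052) (P3 := 1046898278) (W3 := 26843546)
    rfl (fun _ => rfl) s2_pm_022_b

noncomputable def f_pm_023 : ℕ → ℕ → ℕ → ℕ → Bool := onCell 0 536870912 1610612736 469762048 1046898278 26843546
    (rowFX 0 false true false .up 0 2 3 (qsf 0 536870912 1610612736 469762048 2) ndF3q0 ndF2q3 pcF2 Cut.none Ext.none)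

def k0_pm_023 : ∃ t, chk3 f_pm_023 t 1 1 1 = true :=
  ⟨(a (l 4) (l 4)), by decide +kernel⟩

theorem c_pm_023 : CertFX 0 536870912 1610612736 469762048 1046898278 26843546 false true false .up 0 2 3
    ndF3q0 ndF2q3 pcF2 Cut.none Ext.none :=
  certFX0 (fam := false) (s1 := true) (s2 := false) (a := 0) (b := 2) (c := 3) (cn := .up) (n1 := ndF3q0) (n2 := ndF2q3) (pc := pcF2) (cut := Cut.none) (xt := Ext.none) (P1 := 0) (W1 := 536870912) (P2 := 1610612736) (W2 := 469762048) (P3 := 1046898278) (W3 := 26843546)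
    rfl k0_pm_023

noncomputable def f_pm_033 : ℕ → ℕ → ℕ → ℕ → Bool := onCell 0 536870912 1610612736 469762048 1046898278 26843546
    (rowFX 0 false true false .pnn 0 3 3 (qsf 0 536870912 1610612736 469762048 3) ndF3q0 ndF2q3 pcF3 Cut.none Ext.none)

def k0_pm_033 : ∃ t, chk3 f_pm_033 t 1 1 1 = true :=
  ⟨(a (l 4) (l 4)), by decide +kernel⟩

theorem c_pm_033 : CertFX 0 536870912 1610612736 469762048 1046898278 26843546 false true false .pnn 0 3 3
    ndF3q0 ndF2q3 pcF3 Cut.none Ext.none :=
  certFX0 (fam := false) (s1 := true) (s2 := false) (a := 0) (b := 3) (c := 3) (cn := .pnn) (n1 := ndF3q0) (n2 := ndF2q3) (pc := pcF3) (cut := Cut.none) (xt := Ext.none) (P1 := 0) (W1 := 536870912) (P2 := 1610612736) (W2 := 469762048) (P3 := 1046898278) (W3 := 26843546)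
    rfl k0_pm_033

noncomputable def f_pm_101 : ℕ → ℕ → ℕ → ℕ → Bool := onCell 536870912 536870912 536870912 536870912 1046898278 26843546
    (rowFX 0 false true false .npn 1 0 1 (qsf 536870912 536870912 536870912 536870912 0) ndF3q1 ndF2q1 pcF0 Cut.none Ext.none)

def k0_pm_101 : ∃ t, chk3 f_pm_101 t 1 1 1 = true :=
  ⟨(l 4), by decide +kernel⟩

theorem c_pm_101 : CertFX 536870912 536870912 536870912 536870912 1046898278 26843546 false true false .npn 1 0 1
    ndF3q1 ndF2q1 pcF0 Cut.none Ext.none :=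
  certFX0 (fam := false) (s1 := true) (s2 := false) (a := 1) (b := 0) (c := 1) (cn := .npn) (n1 := ndF3q1) (n2 := ndF2q1) (pc := pcF0) (cut := Cut.none) (xt := Ext.none) (P1 := 536870912) (W1 := 536870912) (P2 := 536870912) (W2 := 536870912) (P3 := 1046898278) (W3 := 26843546)
    rfl k0_pm_101

noncomputable def f_pm_102_a : ℕ → ℕ → ℕ → ℕ → Bool := onCell 536870912 536870912 0 420477299 1046898278 26843546
    (rowFX 0 false true false .npp 1 0 2 (qsf 536870912 536870912 0 420477299 0) ndF3q1 ndF2q2a pcF0 Cut.none Ext.none)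

def k0_pm_102_a : ∃ t, chk3 f_pm_102_a t 1 1 1 = true :=
  ⟨(l 4), by decide +kernel⟩

theorem c_pm_102_a : CertFX 536870912 536870912 0 420477299 1046898278 26843546 false true false .npp 1 0 2
    ndF3q1 ndF2q2a pcF0 Cut.none Ext.none :=
  certFX0 (fam := false) (s1 := true) (s2 := false) (a := 1) (b := 0) (c := 2) (cn := .npp) (n1 := ndF3q1) (n2 := ndF2q2a) (pc := pcF0) (cut := Cut.none) (xt := Ext.none) (P1 := 536870912) (W1 := 536870912) (P2 := 0) (W2 := 420477299) (P3 := 1046898278) (W3 := 26843546)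
    rfl k0_pm_102_a

noncomputable def f_pm_102_b : ℕ → ℕ → ℕ → ℕ → Bool := onCell 536870912 536870912 1239849684 370763052 1046898278 26843546
    (rowFX 0 false true false .npp 1 0 2 (qsf 536870912 536870912 1239849684 370763052 0) ndF3q1 ndF2q2b pcF0 Cut.none Ext.none)

def k0_pm_102_b : ∃ t, chk3 f_pm_102_b t 1 1 1 = true :=
  ⟨(l 4), by decide +kernel⟩

theorem c_pm_102_b : CertFX 536870912 536870912 1239849684 370763052 1046898278 26843546 false true false .npp 1 0 2
    ndF3q1 ndF2q2b pcF0 Cut.none Ext.none :=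
  certFX0 (fam := false) (s1 := true) (s2 := false) (a := 1) (b := 0) (c := 2) (cn := .npp) (n1 := ndF3q1) (n2 := ndF2q2b) (pc := pcF0) (cut := Cut.none) (xt := Ext.none) (P1 := 536870912) (W1 := 536870912) (P2 := 1239849684) (W2 := 370763052) (P3 := 1046898278) (W3 := 26843546)
    rfl k0_pm_102_b

noncomputable def f_pm_112_a : ℕ → ℕ → ℕ → ℕ → Bool := onCell 536870912 536870912 0 420477299 1046898278 26843546
    (rowFX 0 false true false .dn 1 1 2 (qsf 536870912 536870912 0 420477299 1) ndF3q1 ndF2q2a pcF1 Cut.none Ext.none)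

def k0_pm_112_a : ∃ t, chk3 f_pm_112_a t 1 1 1 = true :=
  ⟨(l 4), by decide +kernel⟩

theorem c_pm_112_a : CertFX 536870912 536870912 0 420477299 1046898278 26843546 false true false .dn 1 1 2
    ndF3q1 ndF2q2a pcF1 Cut.none Ext.none :=
  certFX0 (fam := false) (s1 := true) (s2 := false) (a := 1) (b := 1) (c := 2) (cn := .dn) (n1 := ndF3q1) (n2 := ndF2q2a) (pc := pcF1) (cut := Cut.none) (xt := Ext.none) (P1 := 536870912) (W1 := 536870912) (P2 := 0) (W2 := 420477299) (P3 := 1046898278) (W3 := 26843546)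
    rfl k0_pm_112_a

noncomputable def f_pm_112_b : ℕ → ℕ → ℕ → ℕ → Bool := onCell 536870912 536870912 1239849684 370763052 1046898278 26843546
    (rowFX 0 false true false .dn 1 1 2 (qsf 536870912 536870912 1239849684 370763052 1) ndF3q1 ndF2q2b pcF1 Cut.none Ext.none)

def k0_pm_112_b : ∃ t, chk3 f_pm_112_b t 1 1 1 = true :=
  ⟨(l 4), by decide +kernel⟩

theorem c_pm_112_b : CertFX 536870912 536870912 1239849684 370763052 1046898278 26843546 false true false .dn 1 1 2
    ndF3q1 ndF2q2b pcF1 Cut.none Ext.none :=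
  certFX0 (fam := false) (s1 := true) (s2 := false) (a := 1) (b := 1) (c := 2) (cn := .dn) (n1 := ndF3q1) (n2 := ndF2q2b) (pc := pcF1) (cut := Cut.none) (xt := Ext.none) (P1 := 536870912) (W1 := 536870912) (P2 := 1239849684) (W2 := 370763052) (P3 := 1046898278) (W3 := 26843546)
    rfl k0_pm_112_b

noncomputable def f_pm_113 : ℕ → ℕ → ℕ → ℕ → Bool := onCell 536870912 536870912 1610612736 469762048 1046898278 26843546
    (rowFX 0 false true false .nn 1 1 3 (qsf 536870912 536870912 1610612736 469762048 1) ndF3q1 ndF2q3 pcF1 Cut.none Ext.none)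

def k0_pm_113 : ∃ t, chk3 f_pm_113 t 1 1 1 = true :=
  ⟨(a (l 4) (l 4)), by decide +kernel⟩

theorem c_pm_113 : CertFX 536870912 536870912 1610612736 469762048 1046898278 26843546 false true false .nn 1 1 3
    ndF3q1 ndF2q3 pcF1 Cut.none Ext.none :=
  certFX0 (fam := false) (s1 := true) (s2 := false) (a := 1) (b := 1) (c := 3) (cn := .nn) (n1 := ndF3q1) (n2 := ndF2q3) (pc := pcF1) (cut := Cut.none) (xt := Ext.none) (P1 := 536870912) (W1 := 536870912) (P2 := 1610612736) (W2 := 469762048) (P3 := 1046898278) (W3 := 26843546)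
    rfl k0_pm_113

noncomputable def f_pm_123 : ℕ → ℕ → ℕ → ℕ → Bool := onCell 536870912 536870912 1610612736 469762048 1046898278 26843546
    (rowFX 0 false true false .npn 1 2 3 (qsf 536870912 536870912 1610612736 469762048 2) ndF3q1 ndF2q3 pcF2 Cut.none Ext.none)

def k0_pm_123 : ∃ t, chk3 f_pm_123 t 1 1 1 = true :=
  ⟨(b (l 4) (l 4)), by decide +kernel⟩

theorem c_pm_123 : CertFX 536870912 536870912 1610612736 469762048 1046898278 26843546 false true false .npn 1 2 3
    ndF3q1 ndF2q3 pcF2 Cut.none Ext.none :=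
  certFX0 (fam := false) (s1 := true) (s2 := false) (a := 1) (b := 2) (c := 3) (cn := .npn) (n1 := ndF3q1) (n2 := ndF2q3) (pc := pcF2) (cut := Cut.none) (xt := Ext.none) (P1 := 536870912) (W1 := 536870912) (P2 := 1610612736) (W2 := 469762048) (P3 := 1046898278) (W3 := 26843546)
    rfl k0_pm_123

noncomputable def f_pm_133 : ℕ → ℕ → ℕ → ℕ → Bool := onCell 536870912 536870912 1610612736 469762048 1046898278 26843546
    (rowFX 0 false true false .dn 1 3 3 (qsf 536870912 536870912 1610612736 469762048 3) ndF3q1 ndF2q3 pcF3 Cut.none Ext.none)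

def k0_pm_133 : ∃ t, chk3 f_pm_133 t 1 1 1 = true :=
  ⟨(l 1), by decide +kernel⟩

theorem c_pm_133 : CertFX 536870912 536870912 1610612736 469762048 1046898278 26843546 false true false .dn 1 3 3
    ndF3q1 ndF2q3 pcF3 Cut.none Ext.none :=
  certFX0 (fam := false) (s1 := true) (s2 := false) (a := 1) (b := 3) (c := 3) (cn := .dn) (n1 := ndF3q1) (n2 := ndF2q3) (pc := pcF3) (cut := Cut.none) (xt := Ext.none) (P1 := 536870912) (W1 := 536870912) (P2 := 1610612736) (W2 := 469762048) (P3 := 1046898278) (W3 := 26843546)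
    rfl k0_pm_133

noncomputable def f_pm_202_a : ℕ → ℕ → ℕ → ℕ → Bool := onCell 1073741824 536870912 0 420477299 1046898278 26843546
    (rowFX 0 false true false .pp 2 0 2 (qsf 1073741824 536870912 0 420477299 0) ndF3q2 ndF2q2a pcF0 Cut.none Ext.none)

def k0_pm_202_a : ∃ t, chk3 f_pm_202_a t 1 1 1 = true :=
  ⟨(a (l 3) (l 1)), by decide +kernel⟩

theorem c_pm_202_a : CertFX 1073741824 536870912 0 420477299 1046898278 26843546 false true false .pp 2 0 2
    ndF3q2 ndF2q2a pcF0 Cut.none Ext.none :=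
  certFX0 (fam := false) (s1 := true) (s2 := false) (a := 2) (b := 0) (c := 2) (cn := .pp) (n1 := ndF3q2) (n2 := ndF2q2a) (pc := pcF0) (cut := Cut.none) (xt := Ext.none) (P1 := 1073741824) (W1 := 536870912) (P2 := 0) (W2 := 420477299) (P3 := 1046898278) (W3 := 26843546)
    rfl k0_pm_202_a

noncomputable def f_pm_202_b : ℕ → ℕ → ℕ → ℕ → Bool := onCell 1073741824 536870912 1239849684 370763052 1046898278 26843546
    (rowFX 0 false true false .pp 2 0 2 (qsf 1073741824 536870912 1239849684 370763052 0) ndF3q2 ndF2q2b pcF0 Cut.none Ext.none)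

def k0_pm_202_b : ∃ t, chk3 f_pm_202_b t 1 1 1 = true :=
  ⟨(l 3), by decide +kernel⟩

theorem c_pm_202_b : CertFX 1073741824 536870912 1239849684 370763052 1046898278 26843546 false true false .pp 2 0 2
    ndF3q2 ndF2q2b pcF0 Cut.none Ext.none :=
  certFX0 (fam := false) (s1 := true) (s2 := false) (a := 2) (b := 0) (c := 2) (cn := .pp) (n1 := ndF3q2) (n2 := ndF2q2b) (pc := pcF0) (cut := Cut.none) (xt := Ext.none) (P1 := 1073741824) (W1 := 536870912) (P2 := 1239849684) (W2 := 370763052) (P3 := 1046898278) (W3 := 26843546)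
    rfl k0_pm_202_b

noncomputable def f_pm_203 : ℕ → ℕ → ℕ → ℕ → Bool := onCell 1073741824 536870912 0 536870912 1046898278 26843546
    (rowFX 1 false true false .up 2 0 3 (qsf 1073741824 536870912 1610612736 469762048 0) ndF3q2 ndF2q3 pcF0 Cut.none Ext.none)

def k0_pm_203 : ∃ t, chk3 f_pm_203 t 1 1 1 = true :=
  ⟨(l 3), by decide +kernel⟩

theorem c_pm_203 : CertFX 1073741824 536870912 1610612736 469762048 1046898278 26843546 false true false .up 2 0 3
    ndF3q2 ndF2q3 pcF0 Cut.none Ext.none :=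
  certFX1 (fam := false) (s1 := true) (s2 := false) (a := 2) (b := 0) (c := 3) (cn := .up) (n1 := ndF3q2) (n2 := ndF2q3) (pc := pcF0) (cut := Cut.none) (xt := Ext.none) (P1 := 1073741824) (W1 := 536870912) (P2 := 1610612736) (W2 := 469762048) (P3 := 1046898278) (W3 := 26843546)
    rfl (fun _ => rfl) k0_pm_203

noncomputable def f_pm_213 : ℕ → ℕ → ℕ → ℕ → Bool := onCell 1073741824 536870912 1610612736 469762048 1046898278 26843546
    (rowFX 0 false true false .pnn 2 1 3 (qsf 1073741824 536870912 1610612736 469762048 1) ndF3q2 ndF2q3 pcF1 Cut.none Ext.none)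

def k0_pm_213 : ∃ t, chk3 f_pm_213 t 1 1 1 = true :=
  ⟨(a (b (l 3) (l 3)) (l 3)), by decide +kernel⟩

theorem c_pm_213 : CertFX 1073741824 536870912 1610612736 469762048 1046898278 26843546 false true false .pnn 2 1 3
    ndF3q2 ndF2q3 pcF1 Cut.none Ext.none :=
  certFX0 (fam := false) (s1 := true) (s2 := false) (a := 2) (b := 1) (c := 3) (cn := .pnn) (n1 := ndF3q2) (n2 := ndF2q3) (pc := pcF1) (cut := Cut.none) (xt := Ext.none) (P1 := 1073741824) (W1 := 536870912) (P2 := 1610612736) (W2 := 469762048) (P3 := 1046898278) (W3 := 26843546)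
    rfl k0_pm_213

noncomputable def f_pm_303 : ℕ → ℕ → ℕ → ℕ → Bool := onCell 1610612736 536870912 1610612736 469762048 1046898278 26843546
    (rowFX 0 false true false .npn 3 0 3 (qsf 1610612736 536870912 1610612736 469762048 0) ndF3q3 ndF2q3 pcF0 Cut.none Ext.none)

def k0_pm_303 : ∃ t, chk3 f_pm_303 t 1 1 1 = true :=
  ⟨(l 3), by decide +kernel⟩

theorem c_pm_303 : CertFX 1610612736 536870912 1610612736 469762048 1046898278 26843546 false true false .npn 3 0 3
    ndF3q3 ndF2q3 pcF0 Cut.none Ext.none :=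
  certFX0 (fam := false) (s1 := true) (s2 := false) (a := 3) (b := 0) (c := 3) (cn := .npn) (n1 := ndF3q3) (n2 := ndF2q3) (pc := pcF0) (cut := Cut.none) (xt := Ext.none) (P1 := 1610612736) (W1 := 536870912) (P2 := 1610612736) (W2 := 469762048) (P3 := 1046898278) (W3 := 26843546)
    rfl k0_pm_303

noncomputable def f_pm_313 : ℕ → ℕ → ℕ → ℕ → Bool := onCell 1610612736 536870912 1610612736 469762048 1046898278 26843546
    (rowFX 0 false true false .dn 3 1 3 (qsf 1610612736 536870912 1610612736 469762048 1) ndF3q3 ndF2q3 pcF1 Cut.none Ext.none)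

def k0_pm_313 : ∃ t, chk3 f_pm_313 t 1 1 1 = true :=
  ⟨(l 1), by decide +kernel⟩

theorem c_pm_313 : CertFX 1610612736 536870912 1610612736 469762048 1046898278 26843546 false true false .dn 3 1 3
    ndF3q3 ndF2q3 pcF1 Cut.none Ext.none :=
  certFX0 (fam := false) (s1 := true) (s2 := false) (a := 3) (b := 1) (c := 3) (cn := .dn) (n1 := ndF3q3) (n2 := ndF2q3) (pc := pcF1) (cut := Cut.none) (xt := Ext.none) (P1 := 1610612736) (W1 := 536870912) (P2 := 1610612736) (W2 := 469762048) (P3 := 1046898278) (W3 := 26843546)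
    rfl k0_pm_313

noncomputable def f_mm_001 : ℕ → ℕ → ℕ → ℕ → Bool := onCell 0 536870912 536870912 536870912 1046898278 26843546
    (rowFX 0 false false false .up 0 0 1 (qsf 0 536870912 536870912 536870912 0) ndF3q0 ndF2q1 pcF0 Cut.none Ext.none)

def k0_mm_001 : ∃ t, chk3 f_mm_001 t 1 1 1 = true :=
  ⟨(l 3), by decide +kernel⟩

theorem c_mm_001 : CertFX 0 536870912 536870912 536870912 1046898278 26843546 false false false .up 0 0 1
    ndF3q0 ndF2q1 pcF0 Cut.none Ext.none :=
  certFX0 (fam := false) (s1 := false) (s2 := false) (a := 0) (b := 0) (c := 1) (cn := .up) (n1 := ndF3q0) (n2 := ndF2q1) (pc := pcF0) (cut := Cut.none) (xt := Ext.none) (P1 := 0) (W1 := 536870912) (P2 := 536870912) (W2 := 536870912) (P3 := 1046898278) (W3 := 26843546)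
    rfl k0_mm_001

noncomputable def f_mm_011 : ℕ → ℕ → ℕ → ℕ → Bool := onCell 0 536870912 536870912 536870912 1046898278 26843546
    (rowFX 0 false false false .pnn 0 1 1 (qsf 0 536870912 536870912 536870912 1) ndF3q0 ndF2q1 pcF1 Cut.none Ext.none)

def k0_mm_011 : ∃ t, chk3 f_mm_011 t 1 1 1 = true :=
  ⟨(l 3), by decide +kernel⟩

theorem c_mm_011 : CertFX 0 536870912 536870912 536870912 1046898278 26843546 false false false .pnn 0 1 1
    ndF3q0 ndF2q1 pcF1 Cut.none Ext.none :=
  certFX0 (fam := false) (s1 := false) (s2 := false) (a := 0) (b := 1) (c := 1) (cn := .pnn) (n1 := ndF3q0) (n2 := ndF2q1) (pc := pcF1) (cut := Cut.none) (xt := Ext.none) (P1 := 0) (W1 := 536870912) (P2 := 536870912) (W2 := 536870912) (P3 := 1046898278) (W3 := 26843546)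
    rfl k0_mm_011

noncomputable def f_mm_012_a : ℕ → ℕ → ℕ → ℕ → Bool := onCell 0 536870912 0 420477299 1046898278 26843546
    (rowFX 0 false false false .pnp 0 1 2 (qsf 0 536870912 0 420477299 1) ndF3q0 ndF2q2a pcF1 Cut.none Ext.none)

def k0_mm_012_a : ∃ t, chk3 f_mm_012_a t 1 1 1 = true :=
  ⟨(l 5), by decide +kernel⟩

theorem c_mm_012_a : CertFX 0 536870912 0 420477299 1046898278 26843546 false false false .pnp 0 1 2
    ndF3q0 ndF2q2a pcF1 Cut.none Ext.none :=
  certFX0 (fam := false) (s1 := false) (s2 := false) (a := 0) (b := 1) (c := 2) (cn := .pnp) (n1 := ndF3q0) (n2 := ndF2q2a) (pc := pcF1) (cut := Cut.none) (xt := Ext.none) (P1 := 0) (W1 := 536870912) (P2 := 0) (W2 := 420477299) (P3 := 1046898278) (W3 := 26843546)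
    rfl k0_mm_012_a

noncomputable def f_mm_012_b : ℕ → ℕ → ℕ → ℕ → Bool := onCell 0 536870912 1239849684 370763052 1046898278 26843546
    (rowFX 0 false false false .pnp 0 1 2 (qsf 0 536870912 1239849684 370763052 1) ndF3q0 ndF2q2b pcF1 Cut.none Ext.none)

def k0_mm_012_b : ∃ t, chk3 f_mm_012_b t 1 1 1 = true :=
  ⟨(l 5), by decide +kernel⟩

theorem c_mm_012_b : CertFX 0 536870912 1239849684 370763052 1046898278 26843546 false false false .pnp 0 1 2
    ndF3q0 ndF2q2b pcF1 Cut.none Ext.none :=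
  certFX0 (fam := false) (s1 := false) (s2 := false) (a := 0) (b := 1) (c := 2) (cn := .pnp) (n1 := ndF3q0) (n2 := ndF2q2b) (pc := pcF1) (cut := Cut.none) (xt := Ext.none) (P1 := 0) (W1 := 536870912) (P2 := 1239849684) (W2 := 370763052) (P3 := 1046898278) (W3 := 26843546)
    rfl k0_mm_012_b

noncomputable def f_mm_022_a : ℕ → ℕ → ℕ → ℕ → Bool := onCell 0 536870912 0 420477299 1046898278 26843546
    (rowFX 0 false false false .pp 0 2 2 (qsf 0 536870912 0 420477299 2) ndF3q0 ndF2q2a pcF2 Cut.none Ext.none)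

def k0_mm_022_a : ∃ t, chk3 f_mm_022_a t 1 1 1 = true :=
  ⟨(l 5), by decide +kernel⟩

theorem c_mm_022_a : CertFX 0 536870912 0 420477299 1046898278 26843546 false false false .pp 0 2 2
    ndF3q0 ndF2q2a pcF2 Cut.none Ext.none :=
  certFX0 (fam := false) (s1 := false) (s2 := false) (a := 0) (b := 2) (c := 2) (cn := .pp) (n1 := ndF3q0) (n2 := ndF2q2a) (pc := pcF2) (cut := Cut.none) (xt := Ext.none) (P1 := 0) (W1 := 536870912) (P2 := 0) (W2 := 420477299) (P3 := 1046898278) (W3 := 26843546)
    rfl k0_mm_022_a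

noncomputable def f_mm_022_b : ℕ → ℕ → ℕ → ℕ → Bool := onCell 0 536870912 1239849684 370763052 1046898278 26843546
    (rowFX 0 false false false .pp 0 2 2 (qsf 0 536870912 1239849684 370763052 2) ndF3q0 ndF2q2b pcF2 Cut.none Ext.none)

def k0_mm_022_b : ∃ t, chk3 f_mm_022_b t 1 1 1 = true :=
  ⟨(l 5), by decide +kernel⟩

theorem c_mm_022_b : CertFX 0 536870912 1239849684 370763052 1046898278 26843546 false false false .pp 0 2 2
    ndF3q0 ndF2q2b pcF2 Cut.none Ext.none :=
  certFX0 (fam := false) (s1 := false) (s2 := false) (a := 0) (b := 2) (c := 2) (cn := .pp) (n1 := ndF3q0) (n2 := ndF2q2b) (pc := pcF2) (cut := Cut.none) (xt := Ext.none) (P1 := 0) (W1 := 536870912) (P2 := 1239849684) (W2 := 370763052) (P3 := 1046898278) (W3 := 26843546)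
    rfl k0_mm_022_b

noncomputable def f_mm_023 : ℕ → ℕ → ℕ → ℕ → Bool := onCell 0 536870912 1610612736 469762048 1046898278 26843546
    (rowFX 0 false false false .up 0 2 3 (qsf 0 536870912 1610612736 469762048 2) ndF3q0 ndF2q3 pcF2 Cut.none Ext.none)

def k0_mm_023 : ∃ t, chk3 f_mm_023 t 1 1 1 = true :=
  ⟨(l 5), by decide +kernel⟩

theorem c_mm_023 : CertFX 0 536870912 1610612736 469762048 1046898278 26843546 false false false .up 0 2 3
    ndF3q0 ndF2q3 pcF2 Cut.none Ext.none :=
  certFX0 (fam := false) (s1 := false) (s2 := false) (a := 0) (b := 2) (c := 3) (cn := .up) (n1 := ndF3q0) (n2 := ndF2q3) (pc := pcF2) (cut := Cut.none) (xt := Ext.none) (P1 := 0) (W1 := 536870912) (P2 := 1610612736) (W2 := 469762048) (P3 := 1046898278) (W3 := 26843546)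
    rfl k0_mm_023

noncomputable def f_mm_033 : ℕ → ℕ → ℕ → ℕ → Bool := onCell 0 536870912 1610612736 469762048 1046898278 26843546
    (rowFX 0 false false false .pnn 0 3 3 (qsf 0 536870912 1610612736 469762048 3) ndF3q0 ndF2q3 pcF3 Cut.none Ext.none)

def k0_mm_033 : ∃ t, chk3 f_mm_033 t 1 1 1 = true :=
  ⟨(l 5), by decide +kernel⟩

theorem c_mm_033 : CertFX 0 536870912 1610612736 469762048 1046898278 26843546 false false false .pnn 0 3 3
    ndF3q0 ndF2q3 pcF3 Cut.none Ext.none :=
  certFX0 (fam := false) (s1 := false) (s2 := false) (a := 0) (b := 3) (c := 3) (cn := .pnn) (n1 := ndF3q0) (n2 := ndF2q3) (pc := pcF3) (cut := Cut.none) (xt := Ext.none) (P1 := 0) (W1 := 536870912) (P2 := 1610612736) (W2 := 469762048) (P3 := 1046898278) (W3 := 26843546)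
    rfl k0_mm_033

noncomputable def f_mm_101 : ℕ → ℕ → ℕ → ℕ → Bool := onCell 536870912 536870912 536870912 536870912 1046898278 26843546
    (rowFX 0 false false false .npn 1 0 1 (qsf 536870912 536870912 536870912 536870912 0) ndF3q1 ndF2q1 pcF0 Cut.none Ext.none)

def k0_mm_101 : ∃ t, chk3 f_mm_101 t 1 1 1 = true :=
  ⟨(l 3), by decide +kernel⟩

theorem c_mm_101 : CertFX 536870912 536870912 536870912 536870912 1046898278 26843546 false false false .npn 1 0 1
    ndF3q1 ndF2q1 pcF0 Cut.none Ext.none :=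
  certFX0 (fam := false) (s1 := false) (s2 := false) (a := 1) (b := 0) (c := 1) (cn := .npn) (n1 := ndF3q1) (n2 := ndF2q1) (pc := pcF0) (cut := Cut.none) (xt := Ext.none) (P1 := 536870912) (W1 := 536870912) (P2 := 536870912) (W2 := 536870912) (P3 := 1046898278) (W3 := 26843546)
    rfl k0_mm_101

noncomputable def f_mm_102_a : ℕ → ℕ → ℕ → ℕ → Bool := onCell 536870912 536870912 0 420477299 1046898278 26843546
    (rowFX 0 false false false .npp 1 0 2 (qsf 536870912 536870912 0 420477299 0) ndF3q1 ndF2q2a pcF0 Cut.none Ext.none)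

def k0_mm_102_a : ∃ t, chk3 f_mm_102_a t 1 1 1 = true :=
  ⟨(l 5), by decide +kernel⟩

theorem c_mm_102_a : CertFX 536870912 536870912 0 420477299 1046898278 26843546 false false false .npp 1 0 2
    ndF3q1 ndF2q2a pcF0 Cut.none Ext.none :=
  certFX0 (fam := false) (s1 := false) (s2 := false) (a := 1) (b := 0) (c := 2) (cn := .npp) (n1 := ndF3q1) (n2 := ndF2q2a) (pc := pcF0) (cut := Cut.none) (xt := Ext.none) (P1 := 536870912) (W1 := 536870912) (P2 := 0) (W2 := 420477299) (P3 := 1046898278) (W3 := 26843546)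
    rfl k0_mm_102_a

noncomputable def f_mm_102_b : ℕ → ℕ → ℕ → ℕ → Bool := onCell 536870912 536870912 1239849684 370763052 1046898278 26843546
    (rowFX 0 false false false .npp 1 0 2 (qsf 536870912 536870912 1239849684 370763052 0) ndF3q1 ndF2q2b pcF0 Cut.none Ext.none)

def k0_mm_102_b : ∃ t, chk3 f_mm_102_b t 1 1 1 = true :=
  ⟨(l 5), by decide +kernel⟩

theorem c_mm_102_b : CertFX 536870912 536870912 1239849684 370763052 1046898278 26843546 false false false .npp 1 0 2
    ndF3q1 ndF2q2b pcF0 Cut.none Ext.none :=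
  certFX0 (fam := false) (s1 := false) (s2 := false) (a := 1) (b := 0) (c := 2) (cn := .npp) (n1 := ndF3q1) (n2 := ndF2q2b) (pc := pcF0) (cut := Cut.none) (xt := Ext.none) (P1 := 536870912) (W1 := 536870912) (P2 := 1239849684) (W2 := 370763052) (P3 := 1046898278) (W3 := 26843546)
    rfl k0_mm_102_b

noncomputable def f_mm_112_a : ℕ → ℕ → ℕ → ℕ → Bool := onCell 536870912 536870912 0 420477299 1046898278 26843546
    (rowFX 0 false false false .dn 1 1 2 (qsf 536870912 536870912 0 420477299 1) ndF3q1 ndF2q2a pcF1 Cut.none Ext.none)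

def k0_mm_112_a : ∃ t, chk3 f_mm_112_a t 1 1 1 = true :=
  ⟨(l 5), by decide +kernel⟩

theorem c_mm_112_a : CertFX 536870912 536870912 0 420477299 1046898278 26843546 false false false .dn 1 1 2
    ndF3q1 ndF2q2a pcF1 Cut.none Ext.none :=
  certFX0 (fam := false) (s1 := false) (s2 := false) (a := 1) (b := 1) (c := 2) (cn := .dn) (n1 := ndF3q1) (n2 := ndF2q2a) (pc := pcF1) (cut := Cut.none) (xt := Ext.none) (P1 := 536870912) (W1 := 536870912) (P2 := 0) (W2 := 420477299) (P3 := 1046898278) (W3 := 26843546)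
    rfl k0_mm_112_a

noncomputable def f_mm_112_b : ℕ → ℕ → ℕ → ℕ → Bool := onCell 536870912 536870912 1239849684 370763052 1046898278 26843546
    (rowFX 0 false false false .dn 1 1 2 (qsf 536870912 536870912 1239849684 370763052 1) ndF3q1 ndF2q2b pcF1 Cut.none Ext.none)

def k0_mm_112_b : ∃ t, chk3 f_mm_112_b t 1 1 1 = true :=
  ⟨(l 5), by decide +kernel⟩

theorem c_mm_112_b : CertFX 536870912 536870912 1239849684 370763052 1046898278 26843546 false false false .dn 1 1 2
    ndF3q1 ndF2q2b pcF1 Cut.none Ext.none :=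
  certFX0 (fam := false) (s1 := false) (s2 := false) (a := 1) (b := 1) (c := 2) (cn := .dn) (n1 := ndF3q1) (n2 := ndF2q2b) (pc := pcF1) (cut := Cut.none) (xt := Ext.none) (P1 := 536870912) (W1 := 536870912) (P2 := 1239849684) (W2 := 370763052) (P3 := 1046898278) (W3 := 26843546)
    rfl k0_mm_112_b

noncomputable def f_mm_113 : ℕ → ℕ → ℕ → ℕ → Bool := onCell 536870912 536870912 1610612736 469762048 1046898278 26843546
    (rowFX 0 false false false .nn 1 1 3 (qsf 536870912 536870912 1610612736 469762048 1) ndF3q1 ndF2q3 pcF1 Cut.none Ext.none)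

def k0_mm_113 : ∃ t, chk3 f_mm_113 t 1 1 1 = true :=
  ⟨(l 5), by decide +kernel⟩

theorem c_mm_113 : CertFX 536870912 536870912 1610612736 469762048 1046898278 26843546 false false false .nn 1 1 3
    ndF3q1 ndF2q3 pcF1 Cut.none Ext.none :=
  certFX0 (fam := false) (s1 := false) (s2 := false) (a := 1) (b := 1) (c := 3) (cn := .nn) (n1 := ndF3q1) (n2 := ndF2q3) (pc := pcF1) (cut := Cut.none) (xt := Ext.none) (P1 := 536870912) (W1 := 536870912) (P2 := 1610612736) (W2 := 469762048) (P3 := 1046898278) (W3 := 26843546)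
    rfl k0_mm_113

noncomputable def f_mm_123 : ℕ → ℕ → ℕ → ℕ → Bool := onCell 536870912 536870912 1610612736 469762048 1046898278 26843546
    (rowFX 0 false false false .npn 1 2 3 (qsf 536870912 536870912 1610612736 469762048 2) ndF3q1 ndF2q3 pcF2 Cut.none Ext.none)

def k0_mm_123 : ∃ t, chk3 f_mm_123 t 1 1 1 = true :=
  ⟨(l 5), by decide +kernel⟩

theorem c_mm_123 : CertFX 536870912 536870912 1610612736 469762048 1046898278 26843546 false false false .npn 1 2 3
    ndF3q1 ndF2q3 pcF2 Cut.none Ext.none :=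
  certFX0 (fam := false) (s1 := false) (s2 := false) (a := 1) (b := 2) (c := 3) (cn := .npn) (n1 := ndF3q1) (n2 := ndF2q3) (pc := pcF2) (cut := Cut.none) (xt := Ext.none) (P1 := 536870912) (W1 := 536870912) (P2 := 1610612736) (W2 := 469762048) (P3 := 1046898278) (W3 := 26843546)
    rfl k0_mm_123

noncomputable def f_mm_133 : ℕ → ℕ → ℕ → ℕ → Bool := onCell 536870912 536870912 1610612736 469762048 1046898278 26843546
    (rowFX 0 false false false .dn 1 3 3 (qsf 536870912 536870912 1610612736 469762048 3) ndF3q1 ndF2q3 pcF3 Cut.none Ext.none)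

def k0_mm_133 : ∃ t, chk3 f_mm_133 t 1 1 1 = true :=
  ⟨(l 1), by decide +kernel⟩

theorem c_mm_133 : CertFX 536870912 536870912 1610612736 469762048 1046898278 26843546 false false false .dn 1 3 3
    ndF3q1 ndF2q3 pcF3 Cut.none Ext.none :=
  certFX0 (fam := false) (s1 := false) (s2 := false) (a := 1) (b := 3) (c := 3) (cn := .dn) (n1 := ndF3q1) (n2 := ndF2q3) (pc := pcF3) (cut := Cut.none) (xt := Ext.none) (P1 := 536870912) (W1 := 536870912) (P2 := 1610612736) (W2 := 469762048) (P3 := 1046898278) (W3 := 26843546)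
    rfl k0_mm_133

noncomputable def f_mm_202_a : ℕ → ℕ → ℕ → ℕ → Bool := onCell 1073741824 536870912 0 420477299 1046898278 26843546
    (rowFX 0 false false false .pp 2 0 2 (qsf 1073741824 536870912 0 420477299 0) ndF3q2 ndF2q2a pcF0 Cut.none Ext.none)

def k0_mm_202_a : ∃ t, chk3 f_mm_202_a t 1 1 1 = true :=
  ⟨(l 3), by decide +kernel⟩

theorem c_mm_202_a : CertFX 1073741824 536870912 0 420477299 1046898278 26843546 false false false .pp 2 0 2
    ndF3q2 ndF2q2a pcF0 Cut.none Ext.none :=
  certFX0 (fam := false) (s1 := false) (s2 := false) (a := 2) (b := 0) (c := 2) (cn := .pp) (n1 := ndF3q2) (n2 := ndF2q2a) (pc := pcF0) (cut := Cut.none) (xt := Ext.none) (P1 := 1073741824) (W1 := 536870912) (P2 := 0) (W2 := 420477299) (P3 := 1046898278) (W3 := 26843546)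
    rfl k0_mm_202_a

noncomputable def f_mm_202_b : ℕ → ℕ → ℕ → ℕ → Bool := onCell 1073741824 536870912 1239849684 370763052 1046898278 26843546
    (rowFX 0 false false false .pp 2 0 2 (qsf 1073741824 536870912 1239849684 370763052 0) ndF3q2 ndF2q2b pcF0 Cut.none Ext.none)

def k0_mm_202_b : ∃ t, chk3 f_mm_202_b t 1 1 1 = true :=
  ⟨(l 3), by decide +kernel⟩

theorem c_mm_202_b : CertFX 1073741824 536870912 1239849684 370763052 1046898278 26843546 false false false .pp 2 0 2
    ndF3q2 ndF2q2b pcF0 Cut.none Ext.none :=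
  certFX0 (fam := false) (s1 := false) (s2 := false) (a := 2) (b := 0) (c := 2) (cn := .pp) (n1 := ndF3q2) (n2 := ndF2q2b) (pc := pcF0) (cut := Cut.none) (xt := Ext.none) (P1 := 1073741824) (W1 := 536870912) (P2 := 1239849684) (W2 := 370763052) (P3 := 1046898278) (W3 := 26843546)
    rfl k0_mm_202_b

noncomputable def f_mm_203 : ℕ → ℕ → ℕ → ℕ → Bool := onCell 1073741824 536870912 1610612736 469762048 1046898278 26843546
    (rowFX 0 false false false .up 2 0 3 (qsf 1073741824 536870912 1610612736 469762048 0) ndF3q2 ndF2q3 pcF0 Cut.none Ext.none)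

def k0_mm_203 : ∃ t, chk3 f_mm_203 t 1 1 1 = true :=
  ⟨(l 3), by decide +kernel⟩

theorem c_mm_203 : CertFX 1073741824 536870912 1610612736 469762048 1046898278 26843546 false false false .up 2 0 3
    ndF3q2 ndF2q3 pcF0 Cut.none Ext.none :=
  certFX0 (fam := false) (s1 := false) (s2 := false) (a := 2) (b := 0) (c := 3) (cn := .up) (n1 := ndF3q2) (n2 := ndF2q3) (pc := pcF0) (cut := Cut.none) (xt := Ext.none) (P1 := 1073741824) (W1 := 536870912) (P2 := 1610612736) (W2 := 469762048) (P3 := 1046898278) (W3 := 26843546)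
    rfl k0_mm_203

noncomputable def f_mm_213 : ℕ → ℕ → ℕ → ℕ → Bool := onCell 1073741824 536870912 1610612736 469762048 1046898278 26843546
    (rowFX 0 false false false .pnn 2 1 3 (qsf 1073741824 536870912 1610612736 469762048 1) ndF3q2 ndF2q3 pcF1 Cut.none Ext.none)

def k0_mm_213 : ∃ t, chk3 f_mm_213 t 1 1 1 = true :=
  ⟨(l 3), by decide +kernel⟩

theorem c_mm_213 : CertFX 1073741824 536870912 1610612736 469762048 1046898278 26843546 false false false .pnn 2 1 3
    ndF3q2 ndF2q3 pcF1 Cut.none Ext.none :=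
  certFX0 (fam := false) (s1 := false) (s2 := false) (a := 2) (b := 1) (c := 3) (cn := .pnn) (n1 := ndF3q2) (n2 := ndF2q3) (pc := pcF1) (cut := Cut.none) (xt := Ext.none) (P1 := 1073741824) (W1 := 536870912) (P2 := 1610612736) (W2 := 469762048) (P3 := 1046898278) (W3 := 26843546)
    rfl k0_mm_213

noncomputable def f_mm_303 : ℕ → ℕ → ℕ → ℕ → Bool := onCell 1610612736 536870912 1610612736 469762048 1046898278 26843546
    (rowFX 0 false false false .npn 3 0 3 (qsf 1610612736 536870912 1610612736 469762048 0) ndF3q3 ndF2q3 pcF0 Cut.none Ext.none)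

def k0_mm_303 : ∃ t, chk3 f_mm_303 t 1 1 1 = true :=
  ⟨(l 3), by decide +kernel⟩

theorem c_mm_303 : CertFX 1610612736 536870912 1610612736 469762048 1046898278 26843546 false false false .npn 3 0 3
    ndF3q3 ndF2q3 pcF0 Cut.none Ext.none :=
  certFX0 (fam := false) (s1 := false) (s2 := false) (a := 3) (b := 0) (c := 3) (cn := .npn) (n1 := ndF3q3) (n2 := ndF2q3) (pc := pcF0) (cut := Cut.none) (xt := Ext.none) (P1 := 1610612736) (W1 := 536870912) (P2 := 1610612736) (W2 := 469762048) (P3 := 1046898278) (W3 := 26843546)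
    rfl k0_mm_303

noncomputable def f_mm_313 : ℕ → ℕ → ℕ → ℕ → Bool := onCell 1610612736 536870912 1610612736 469762048 1046898278 26843546
    (rowFX 0 false false false .dn 3 1 3 (qsf 1610612736 536870912 1610612736 469762048 1) ndF3q3 ndF2q3 pcF1 Cut.none Ext.none)

def k0_mm_313 : ∃ t, chk3 f_mm_313 t 1 1 1 = true :=
  ⟨(l 1), by decide +kernel⟩

theorem c_mm_313 : CertFX 1610612736 536870912 1610612736 469762048 1046898278 26843546 false false false .dn 3 1 3
    ndF3q3 ndF2q3 pcF1 Cut.none Ext.none :=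
  certFX0 (fam := false) (s1 := false) (s2 := false) (a := 3) (b := 1) (c := 3) (cn := .dn) (n1 := ndF3q3) (n2 := ndF2q3) (pc := pcF1) (cut := Cut.none) (xt := Ext.none) (P1 := 1610612736) (W1 := 536870912) (P2 := 1610612736) (W2 := 469762048) (P3 := 1046898278) (W3 := 26843546)
    rfl k0_mm_313

end Pool.Agent.Strip051.G.IE1.Tab.C.FB32

namespace Pool.Agent.Strip051.G.IE1.Tab.C.FB33

open Pool.Agent.Strip051.PB Pool.Agent.Strip051.PB.T
open Pool.Agent.Strip051.G.IE1.Tab

noncomputable def f_pp_001 : ℕ → ℕ → ℕ → ℕ → Bool := onCell 0 536870912 0 536870912 1046898278 26843546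
    (rowFX 1 false true true .up 0 0 1 (qsf 0 536870912 536870912 536870912 0) ndF3q0 ndF3q1 pcF0 Cut.none Ext.none)

def k0_pp_001 : ∃ t, chk3 f_pp_001 t 1 1 1 = true :=
  ⟨(l 3), by decide +kernel⟩

theorem c_pp_001 : CertFX 0 536870912 536870912 536870912 1046898278 26843546 false true true .up 0 0 1
    ndF3q0 ndF3q1 pcF0 Cut.none Ext.none :=
  certFX1 (fam := false) (s1 := true) (s2 := true) (a := 0) (b := 0) (c := 1) (cn := .up) (n1 := ndF3q0) (n2 := ndF3q1) (pc := pcF0) (cut := Cut.none) (xt := Ext.none) (P1 := 0) (W1 := 536870912) (P2 := 536870912) (W2 := 536870912) (P3 := 1046898278) (W3 := 26843546)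
    rfl (fun _ => rfl) k0_pp_001

noncomputable def cut_pp_011 : Cut := Cut.of [[⟨0, 0, 0, 67108864⟩, ⟨1, 1, 0, 67108864⟩, ⟨2, 1, 0, 67108864⟩]]

noncomputable def f_pp_011 : ℕ → ℕ → ℕ → ℕ → Bool := onCell 0 536870912 536870912 536870912 1046898278 26843546
    (rowFX 1 false true true .pnn 0 1 1 (qsf 0 536870912 536870912 536870912 1) ndF3q0 ndF3q1 pcF1 cut_pp_011 Ext.none)

def k0_pp_011 : ∃ t, chk3 f_pp_011 t 1 1 1 = true :=
  ⟨(b (l 3) (a (b (l 3) (a (b (l 3) (a (b (l 3) (a (l 6) (l 3))) (l 3))) (l 3))) (l 3))), by decide +kernel⟩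

theorem c_pp_011 : CertFX 0 536870912 536870912 536870912 1046898278 26843546 false true true .pnn 0 1 1
    ndF3q0 ndF3q1 pcF1 cut_pp_011 Ext.none :=
  certFX1 (fam := false) (s1 := true) (s2 := true) (a := 0) (b := 1) (c := 1) (cn := .pnn) (n1 := ndF3q0) (n2 := ndF3q1) (pc := pcF1) (cut := cut_pp_011) (xt := Ext.none) (P1 := 0) (W1 := 536870912) (P2 := 536870912) (W2 := 536870912) (P3 := 1046898278) (W3 := 26843546)
    rfl (fun _ => rfl) k0_pp_011

end Pool.Agent.Strip051.G.IE1.Tab.C.FB33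

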