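import Pool.Agent.Strip051.G.IE1.Tab

/-! # Certificates F47 (generated) -/

set_option linter.all false
set_option maxRecDepth 100000

namespace Pool.Agent.Strip051.G.IE1.Tab.C.FB33

open Pool.Agent.Strip051.PB Pool.Agent.Strip051.PB.T
open Pool.Agent.Strip051.G.IE1.Tab

noncomputable def cut_pp_012 : Cut := Cut.of [[⟨0, 0, 0, 67108864⟩, ⟨1, 1, 0, 67108864⟩, ⟨2, 1, 0, 67108864⟩, ⟨3, 0, 0, 1233125376⟩]]

noncomputable def f_pp_012 : ℕ → ℕ → ℕ → ℕ → Bool := onCell 536870912 536870912 1073741824 536870912 1046898278 26843546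
    (rowFX 2 false true true .pnp 0 1 2 (qsf 0 536870912 1073741824 536870912 1) ndF3q0 ndF3q2 pcF1 cut_pp_012 Ext.none)

def k0_pp_012 : ∃ t, chk3 f_pp_012 t 2 1 1 = true :=
  ⟨(b (b (a (a (b (c (b (b (c (l 15874800) (l 15850616)) (l 15957120)) (l 16038456)) (b (b (c (l 15733872) (c (l 15792864) (l 15735112))) (a (l 15879216) (l 15879216))) (l 126263579287))) (a (l 2) (b (l 66134262503) (l 2)))) (b (c (b (a (l 15798520) (l 15903376)) (l 16038456)) (b (a (b (l 15736184) (l 15879216)) (l 15713072)) (l 15996768))) (c (b (l 16069488) (l 15982784)) (b (l 16051104) (l 15962152))))) (b (a (a (b (c (l 15903376) (l 15817936)) (l 16021456)) (b (c (l 15903376) (l 15775992)) (l 16021456))) (b (c (b (a (l 15859560) (l 15859560)) (l 15957120)) (b (l 15799104) (l 15879216))) (c (l 16038456) (l 15996768)))) (a (c (l 16010400) (b (l 16051104) (l 15962152))) (b (l 16060296) (l 15972464))))) (a (a (l 2) (a (l 2) (b (b (l 15828440) (l 2)) (l 2)))) (b (a (b (c (l 15840608) (l 15816280)) (l 16106936))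 (b (l 15828440) (l 16106936))) (a (b (l 16532144) (l 2)) (b (l 16553112) (l 16776904)))))) (a (l 2) (a (l 2) (a (l 2) (l 16777216))))), by decide +kernel⟩

def k1_pp_012 : ∃ t, chk3 f_pp_012 t 6 4 1 = true :=
  ⟨(b (a (b (a (c (b (b (c (l 15829072) (l 15815728)) (l 15904472)) (l 15957120)) (b (c (l 15817664) (l 15784240)) (l 15879216))) (b (a (c (b (c (a (l 15815720) (l 15783096)) (l 15782496)) (c (a (l 15922168) (l 15909960)) (l 15881544))) (b (l 15614984) (l 15821512))) (c (b (c (l 15703808) (l 15702720)) (c (l 15862520) (l 15825464))) (b (l 15651480) (l 15758672)))) (c (a (l 15956488) (b (l 15918392) (l 15962296))) (l 15779304)))) (c (a (l 16038456) (b (l 16004152) (l 16061176))) (l 15995664))) (b (b (a (c (b (c (a (c (l 15594376) (l 15642760)) (a (l 15597040) (l 15563664))) (a (l 15620024) (l 15540688))) (c (a (l 15794128) (l 15731072)) (l 15713672))) (b (c (l 15412240) (l 15464896)) (l 15546312))) (c (b (a (c (b (a (l 15487432) (l 15455568)) (l 15561304)) (l 15465488)) (a (c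 (a (l 15479792) (b (c (l 15439040) (l 15406528)) (l 15518392))) (b (l 15364168) (l 15463288))) (c (b (l 15429392) (l 15527224)) (l 15413416)))) (a (c (l 15675360) (l 15613024)) (c (a (b (l 15610160) (l 15677808)) (l 15652008)) (a (l 15571968) (l 15578504))))) (a (b (c (l 15407112) (l 15338416)) (l 15508232)) (a (b (c (l 15345416) (l 15266432)) (l 15454688)) (b (c (l 15340632) (l 15257528)) (l 15456872)))))) (a (c (c (l 15804792) (l 15828432)) (l 15759104)) (c (a (l 15778256) (a (l 15751288) (l 15768104))) (a (l 15656488) (l 15623304))))) (b (a (c (a (l 15987160) (l 15949248)) (l 15906648)) (a (l 15747160) (c (l 15902208) (l 15815128)))) (a (c (l 16007496) (l 16020464)) (a (l 16000008) (l 15978088)))))) (a (b (c (l 16067904) (l 16049344)) (c (l 15980576) (l 15959704))) (a (b (l 16050328) (l 15958664)) (b (a (l 16040880) (b (l 16063672) (l 16056368))) (a (l 15951672) (l 15982584)))))), by decide +kernel⟩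

def k2_pp_012 : ∃ t, chk3 f_pp_012 t 6 5 1 = true :=
  ⟨(b (a (b (c (l 15837776) (l 15813176)) (l 16082368)) (b (a (l 15810840) (a (l 15801920) (l 15835576))) (a (l 16085560) (l 16072056)))) (a (b (c (l 16551976) (l 16545904)) (l 16772416)) (b (a (l 16528624) (b (l 16428416) (l 16640776))) (l 16754408)))), by decide +kernel⟩

def k3_pp_012 : ∃ t, chk3 f_pp_012 t 6 3 1 = true :=
  ⟨(b (a (l 16772976) (l 16755464)) (l 16763280)), by decide +kernel⟩

def k4_pp_012 : ∃ t, chk3 f_pp_012 t 14 4 1 = true :=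
  ⟨(b (b (a (b (c (b (a (a (b (l 15405304) (l 15508856)) (b (l 15417584) (l 15524936))) (b (a (l 15432736) (a (l 15445248) (l 15449720))) (c (l 15592800) (l 15517648)))) (a (c (l 15681848) (l 15604976)) (b (l 15653072) (l 15730328)))) (b (a (c (b (l 15300424) (l 15404424)) (b (l 15216784) (l 15312680))) (b (c (l 15313024) (a (l 15220792) (l 15219080))) (c (l 15431416) (l 15332128)))) (c (l 15534688) (l 15446400)))) (c (a (l 15808600) (l 15874536)) (a (l 15668656) (l 15731712)))) (b (c (b (a (b (l 15457144) (l 15591296)) (a (l 15555696) (b (l 15515080) (l 15664192)))) (a (b (a (l 15694824) (l 15719064)) (l 15795976)) (b (l 15770336) (l 15872896)))) (b (a (b (c (l 15302240) (l 15189256)) (c (l 15447256) (l 15334272))) (c (b (l 15297880) (l 15465904)) (b (l 15155072) (l 15330424)))) (a (c (l 15604480) (l 15506056)) (l 15606480)))) (a (c (b (l 15902320) (l 16014064)) (l 15751656)) (c (b (l 15997416) (l 16126160)) (b (l 15821992) (l 15998888)))))) (a (b (c (l 15816464) (l 15920288)) (c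 (l 16137032) (l 16097096))) (b (a (l 15985760) (c (l 16268240) (l 16205872))) (c (l 16343096) (l 16331168))))) (b (a (c (l 16194968) (l 16186472)) (a (l 16228208) (l 16207104))) (a (c (l 15902472) (l 15895352)) (c (l 15953880) (l 15934144))))), by decide +kernel⟩

def k5_pp_012 : ∃ t, chk3 f_pp_012 t 15 4 1 = true :=
  ⟨(b (a (b (a (b (b (b (a (c (c (a (l 15629208) (l 15665584)) (l 15484192)) (b (l 15177744) (l 15372088))) (l 6)) (c (c (a (l 15786808) (l 15871784)) (l 15687496)) (c (l 15537224) (l 15373712)))) (c (b (c (a (l 15915832) (l 16001856)) (l 15834112)) (a (l 15964592) (l 16051120))) (c (l 15763760) (l 15637520)))) (c (b (l 15932264) (l 16281800)) (b (l 15960792) (l 16163432)))) (b (a (b (l 6) (b (l 6) (c (l 16158360) (l 15925768)))) (l 6)) (b (c (a (l 16196112) (c (l 16472464) (l 16393016))) (a (l 16130576) (l 16278768))) (c (a (l 16440392) (l 16551720)) (l 16421448))))) (a (b (c (l 16418936) (l 16389872)) (l 16315752)) (a (b (l 16427576) (l 16324344)) (c (b (l 16461304)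 (l 16346648)) (l 16378880))))) (b (b (l 6) (b (l 6) (a (a (a (c (l 16535456) (l 16523616)) (l 6)) (l 6)) (l 6)))) (b (a (c (a (c (l 16501688) (l 16474104)) (c (l 16482688) (b (l 16525936) (l 16468088)))) (l 16433448)) (a (a (a (c (l 16405120) (l 16508872)) (l 6)) (l 6)) (l 6))) (a (c (c (a (l 16376832) (l 16397840)) (l 16381272)) (l 16378616)) (c (a (c (l 16429328) (l 16420256)) (b (l 16496200) (l 16440000))) (a (l 16424952) (c (l 16458112) (l 16460144)))))))) (a (b (a (l 16179984) (c (a (l 16164480) (l 16156632)) (l 16144616))) (a (l 15896824) (c (l 15855568) (l 15853352)))) (b (a (c (b (a (l 16229816) (l 16249184)) (l 15981960)) (l 16012528)) (c (b (l 16214464) (l 16113024)) (a (b (l 16277664) (l 16086936)) (b (l 16270304) (l 16113568))))) (a (c (c (l 15781680) (l 15857704)) (l 15841744)) (c (b (l 15947992) (l 15768320)) (a (l 15836608) (b (l 15931976) (l 15744232)))))))), by decide +kernel⟩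

def k6_pp_012 : ∃ t, chk3 f_pp_012 t 7 5 1 = true :=
  ⟨(a (b (b (a (l 15891928) (b (l 15715288) (l 15627920))) (a (l 16118328) (l 15868888))) (b (a (l 16460824) (l 16244800)) (l 16534024))) (b (c (a (b (a (l 15594768) (l 15560200)) (a (l 15714432) (l 15645504))) (b (a (b (l 15604808) (l 15467384)) (b (l 15591168) (l 15447400))) (a (l 15614712) (l 15603232)))) (a (b (l 15544544) (l 15573632)) (b (a (l 15503224) (b (l 15561944) (l 15412040))) (a (l 15582256) (l 15549824))))) (b (a (l 16035184) (l 15891568)) (l 16166208)))), by decide +kernel⟩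

def k7_pp_012 : ∃ t, chk3 f_pp_012 t 7 3 1 = true :=
  ⟨(a (b (l 16559920) (l 16600368)) (b (l 16164360) (l 16322168))), by decide +kernel⟩

theorem s8_pp_012 : ∃ t, chk3 f_pp_012 t 7 4 1 = true := ex3_a k4_pp_012 k5_pp_012

theorem s9_pp_012 : ∃ t, chk3 f_pp_012 t 7 2 1 = true := ex3_b s8_pp_012 k6_pp_012

theorem s10_pp_012 : ∃ t, chk3 f_pp_012 t 7 1 1 = true := ex3_b s9_pp_012 k7_pp_012

theorem s11_pp_012 : ∃ t, chk3 f_pp_012 t 6 2 1 = true := ex3_b k1_pp_012 k2_pp_012

theorem s12_pp_012 : ∃ t, chk3 f_pp_012 t 6 1 1 = true := ex3_b s11_pp_012 k3_pp_012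

theorem s13_pp_012 : ∃ t, chk3 f_pp_012 t 3 1 1 = true := ex3_a s12_pp_012 s10_pp_012

theorem s14_pp_012 : ∃ t, chk3 f_pp_012 t 1 1 1 = true := ex3_a k0_pp_012 s13_pp_012

theorem c_pp_012 : CertFX 0 536870912 1073741824 536870912 1046898278 26843546 false true true .pnp 0 1 2
    ndF3q0 ndF3q2 pcF1 cut_pp_012 Ext.none :=
  certFX2 (fam := false) (s1 := true) (s2 := true) (a := 0) (b := 1) (c := 2) (cn := .pnp) (n1 := ndF3q0) (n2 := ndF3q2) (pc := pcF1) (cut := cut_pp_012) (xt := Ext.none) (P1 := 0) (W1 := 536870912) (P2 := 1073741824) (W2 := 536870912) (P3 := 1046898278) (W3 := 26843546)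
    rfl (fun _ => rfl) s14_pp_012

noncomputable def cut_pp_022 : Cut := Cut.of [[⟨0, 0, 0, 67108864⟩, ⟨1, 1, 0, 67108864⟩, ⟨2, 1, 0, 67108864⟩, ⟨3, 0, 0, 1233125376⟩]]

noncomputable def f_pp_022 : ℕ → ℕ → ℕ → ℕ → Bool := onCell 0 536870912 1073741824 536870912 1046898278 26843546
    (rowFX 1 false true true .pp 0 2 2 (qsf 0 536870912 1073741824 536870912 2) ndF3q0 ndF3q2 pcF2 cut_pp_022 Ext.none)

def k0_pp_022 : ∃ t, chk3 f_pp_022 t 4 16 1 = true :=
  ⟨(b (a (a (l 6) (b (a (l 6) (c (c (a (l 16656480) (l 16693472)) (l 16646752)) (c (b (l 16691384) (l 16685448)) (b (l 16695176) (l 16696016))))) (c (a (a (l 6) (c (l 16525584) (l 16625616))) (c (a (l 16618576) (l 16708856)) (l 16586456))) (c (a (l 16617424) (l 16684264)) (a (l 16631720) (l 16675664)))))) (a (c (c (b (l 16510192) (a (l 16613648) (l 16412080))) (b (l 16529256) (a (l 16604992) (l 16445472)))) (c (b (a (l 16677408) (l 16523112)) (l 16427704)) (b (a (l 16628000) (l 16516128)) (a (l 16579344) (l 16423320))))) (a (c (b (l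 16278872) (c (l 16268880) (l 16260144))) (b (c (l 16396648) (l 16305896)) (l 16203896))) (c (b (l 16029704) (a (l 16148984) (l 16051280))) (b (c (l 16250360) (l 16180272)) (l 16038008)))))) (a (a (b (l 6) (b (l 6) (a (l 6) (a (l 6) (c (c (l 16451440) (l 16517192)) (l 16544624)))))) (c (a (c (a (b (c (l 16509232) (l 16436328)) (c (l 16487992) (l 16538240))) (b (l 16573224) (l 16610944))) (b (l 16495600) (l 16507744))) (c (l 16500208) (l 16621464))) (a (c (b (a (l 16608848) (l 16643752)) (l 16530584)) (a (l 16588024) (l 16662328))) (c (l 16562744) (l 16598080))))) (a (c (a (b (c (l 16528904) (l 16513696)) (l 16293824)) (b (l 16202952) (l 16194880))) (a (b (l 16325208) (l 16288960)) (c (l 16198008) (l 16231072)))) (a (c (c (l 16048536) (l 16035432)) (l 15954848)) (a (c (l 15867376) (l 15885944)) (l 15814128)))))), by decide +kernel⟩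

def k1_pp_022 : ∃ t, chk3 f_pp_022 t 32 17 1 = true :=
  ⟨(b (b (l 6) (a (l 6) (a (l 6) (a (l 6) (c (c (l 16302544) (l 16319048)) (c (l 16318184) (l 16393520))))))) (b (a (a (l 6) (a (l 6) (c (c (l 16224176) (l 16238976)) (c (a (l 6) (l 16240312)) (c (c (l 16270584) (l 16274592)) (l 16275872)))))) (c (c (c (l 16183336) (a (l 16245328) (l 16289592))) (a (l 16263496) (l 16316040))) (c (c (a (l 16283576) (l 16334920)) (a (c (l 16293760) (l 16296736)) (c (l 16340440) (l 16345248)))) (a (l 16302384) (l 16347168))))) (c (a (c (c (b (l 16186376) (l 16173064)) (l 16185392)) (a (l 16169016) (l 16168544))) (c (c (l 16203176) (l 16256536)) (c (l 16266776) (l 16278680)))) (a (c (c (a (l 16164016) (l 16192896)) (a (b (l 16175064) (l 16145504)) (c (l 16199128) (l 16206232)))) (a (a (b (l 6) (c (l 16135424) (c (c (l 16135312) (a (l 16129992) (l 16135352))) (c (l 16113592) (l 16137696))))) (c (c (l 16165760) (b (l 16183336) (l 16156480))) (c (a (c (l 16166840) (l 16170016)) (l 16182032)) (l 16177824))))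 (c (a (c (l 16195472) (c (l 16198488) (l 16200504))) (c (l 16225088) (l 16229800))) (l 16217832)))) (c (c (a (l 16258824) (l 16327368)) (c (l 16236224) (a (l 16270024) (l 16338352)))) (l 16307992)))))), by decide +kernel⟩

def k2_pp_022 : ∃ t, chk3 f_pp_022 t 33 17 1 = true :=
  ⟨(b (a (b (a (l 6) (c (c (l 16392480) (c (l 16442960) (l 16445248))) (l 16483552))) (c (c (l 16277992) (c (a (l 16382152) (l 16426368)) (l 16421400))) (c (a (c (l 16406840) (l 16415424)) (l 16452456)) (l 16437952)))) (c (c (b (l 16346224) (l 16427744)) (c (b (l 16494104) (l 16378592)) (l 16497984))) (b (l 16485664) (l 16527720)))) (c (c (c (b (l 16337968) (a (l 16374216) (a (l 16477016) (l 16543912)))) (a (b (l 16383664) (l 16392792)) (b (a (l 16478312) (l 16515968)) (l 16526120)))) (c (a (l 16300848) (l 16401744)) (a (b (l 16411688) (l 16395024)) (l 16540920)))) (a (c (c (c (l 16378216) (l 16426696)) (l 16430688)) (l 16431528)) (c (l 16549304) (l 16549424))))), by decide +kernel⟩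

def k3_pp_022 : ∃ t, chk3 f_pp_022 t 17 17 1 = true :=
  ⟨(c (b (c (a (c (l 16375888) (l 16401000)) (a (l 16560584) (l 16400552))) (a (a (l 16522104) (l 16640960)) (b (l 16520168) (l 16393088)))) (c (a (c (a (b (l 16604608) (a (l 16585008) (l 16607320))) (l 16493728)) (l 16438952)) (b (l 16253864) (l 16169040))) (a (l 16445272) (l 16206648)))) (b (a (a (l 16515880) (l 16632128)) (b (l 16467976) (l 16386744))) (a (c (l 16480176) (l 16438112)) (b (l 16315008) (l 16232104))))), by decide +kernel⟩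

def k4_pp_022 : ∃ t, chk3 f_pp_022 t 9 17 1 = true :=
  ⟨(a (c (b (c (a (l 16213136) (l 15997304)) (a (l 16154400) (l 15980952))) (c (a (l 15820976) (b (l 15792728) (l 15674632))) (a (l 15997432) (l 15723336)))) (b (a (l 16057640) (l 15964088)) (a (l 15983744) (l 15703824)))) (c (b (b (a (l 15818744) (a (l 15699720) (l 15703392))) (a (c (l 15695056) (l 15679184)) (l 15551280))) (a (c (b (l 15614352) (l 15584696)) (l 15488416)) (b (l 15679120) (l 15681384)))) (b (a (l 15729064) (l 15674640)) (a (b (l 15576216) (l 15546712)) (l 15653456))))), by decide +kernel⟩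

def k5_pp_022 : ∃ t, chk3 f_pp_022 t 5 8 1 = true :=
  ⟨(a (a (b (a (b (l 15968800) (l 15795888)) (l 15885288)) (l 15834744)) (b (l 16015112) (a (l 15965232) (l 15970824)))) (a (b (l 15905000) (l 15858696)) (l 15890808))), by decide +kernel⟩

def k6_pp_022 : ∃ t, chk3 f_pp_022 t 16 18 2 = true :=
  ⟨(a (c (a (b (l 16199840) (c (l 16269552) (l 16267200))) (b (c (l 16286744) (l 16294096)) (c (l 16248024) (l 16256208)))) (a (b (c (l 16195304) (l 16130792)) (c (l 16264856) (l 16242960))) (c (b (l 16304728) (l 16288648)) (b (a (l 16278832) (l 16359856)) (a (l 16361032) (l 16328360)))))) (b (c (a (c (l 16384304) (l 16379472)) (c (l 16372480) (a (l 16490632) (l 16530512)))) (c (a (b (l 16414040) (l 16396912)) (a (l 16477376) (l 16600032))) (a (c (l 16378816) (l 16361264)) (l 16594816)))) (c (a (c (l 16394504) (l 16331712)) (c (c (l 16364952) (l 16361528)) (c (l 16359632) (l 16376656)))) (a (c (c (l 16404264) (l 16407280)) (a (l 16367792) (l 16554296))) (l 16400256))))), by decide +kernel⟩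

def k7_pp_022 : ∃ t, chk3 f_pp_022 t 16 18 3 = true :=
  ⟨(c (a (a (b (c (a (l 16170096) (l 16218432)) (a (b (l 16150880) (l 16184392)) (c (l 16225320) (l 16148680)))) (c (l 16161152) (a (l 16235736) (c (l 16302432) (l 16305480))))) (a (b (c (l 16212248) (c (l 16302728) (l 16263280))) (c (c (l 16376032) (l 16360448)) (c (l 16341760) (l 16392024)))) (c (b (c (l 16367296) (l 16369376)) (b (l 16408400) (l 16465200))) (l 16300808)))) (b (a (a (c (l 16312448) (l 16449656)) (l 16515808)) (l 16556984)) (l 16307072))) (a (a (b (c (c (a (b (l 16150808) (l 16186016)) (c (l 16235896) (l 16216160))) (a (b (a (l 16137312) (c (l 16166448) (l 16167848))) (a (l 16171240) (l 16193816))) (a (c (l 16221344) (l 16224944)) (l 16260688)))) (a (c (b (a (b (c (l 16129600) (l 16127360)) (l 16142968)) (c (l 16166056) (l 16173752))) (l 16142936)) (b (b (l 16105216) (l 16164296)) (l 16191616))) (l 16244288))) (c (a (b (c (l 16221336) (l 16175920)) (c (l 16170688) (l 16228344))) (c (a (l 16288632) (l 16334032))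 (l 16317856))) (a (c (l 16213744) (l 16244056)) (l 16320416)))) (b (l 16305816) (l 16335416))) (b (l 16307592) (l 16279536)))), by decide +kernel⟩

def k8_pp_022 : ∃ t, chk3 f_pp_022 t 17 18 1 = true :=
  ⟨(b (c (a (a (c (c (a (l 16481872) (l 16458608)) (l 16487160)) (l 16451096)) (l 16126136)) (c (l 16050376) (l 16058192))) (a (b (a (l 16519664) (l 16359776)) (l 16233704)) (l 16025544))) (c (a (c (c (a (l 16147200) (l 16087536)) (l 16164168)) (l 16086720)) (a (l 15895016) (b (l 15787920) (l 15683688)))) (a (l 15902672) (l 15545824)))), by decide +kernel⟩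

def k9_pp_022 : ∃ t, chk3 f_pp_022 t 16 19 1 = true :=
  ⟨(c (b (a (c (b (a (c (l 16312504) (l 16331744)) (b (l 16347352) (l 16342240))) (a (l 16350120) (l 16410512))) (a (b (c (l 16330016) (l 16308736)) (l 16286344)) (c (b (l 16402008) (l 16499680)) (b (a (l 16448912) (l 16511952)) (l 16403144))))) (a (c (c (l 16233040) (b (l 16369944) (l 16245520))) (c (b (l 16312872) (l 16221424)) (b (l 16296072) (l 16231600)))) (c (b (c (l 16153480) (l 16169096)) (c (l 16155216) (l 16146584))) (l 16185144)))) (a (c (a (l 16377016) (a (l 16326808) (l 16214568))) (a (l 16270864) (c (a (l 16380024) (l 16209000)) (a (l 16279512) (l 16142320))))) (c (a (c (l 16041296) (l 15883872)) (a (c (l 15966008) (l 15996864)) (b (l 15890888) (l 15866560)))) (a (c (a (l 16136168) (l 16077464)) (l 16110976)) (l 15937400))))) (a (b (c (b (a (c (l 16229536) (a (l 16275624) (c (l 16353560) (l 16292152)))) (c (c (l 16406208) (l 16346224)) (a (c (l 16472968) (l 16481688)) (l 16563648)))) (a (c (l 16315560) (a (l 16336968)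 (c (l 16461008) (l 16463296)))) (c (a (l 16552656) (l 16452456)) (l 16488544)))) (a (c (b (c (a (a (l 16278800) (l 16288624)) (a (l 16315664) (l 16411776))) (a (b (l 16210656) (a (c (l 16287288) (l 16285232)) (l 16330464))) (l 16391768))) (a (c (a (l 16358184) (l 16392408)) (l 16219512)) (l 16477960))) (b (l 16308624) (l 16351648))) (l 16396744))) (c (a (c (a (l 16519472) (l 16306640)) (a (c (l 16523552) (l 16437768)) (c (l 16432560) (b (l 16513688) (l 16379176))))) (a (c (b (l 16424472) (l 16254400)) (l 16341272)) (l 16245416))) (a (a (c (c (c (l 16476632) (l 16294904)) (l 16301144)) (l 16509224)) (l 16433704)) (l 16281224)))) (b (b (a (l 16335000) (l 16228832)) (l 16027608)) (a (l 16047696) (l 15743776))))), by decide +kernel⟩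

def k10_pp_022 : ∃ t, chk3 f_pp_022 t 17 19 1 = true :=
  ⟨(c (a (b (b (c (l 15992560) (l 15968720)) (a (l 15943008) (l 15780752))) (c (a (l 15838704) (l 15765296)) (l 15681504))) (b (b (a (l 15731608) (l 15655184)) (l 15685368)) (l 15701992))) (b (a (b (l 15949208) (l 15748512)) (b (l 15675160) (l 15657448))) (a (a (l 15767944) (l 15723064)) (l 15675160)))), by decide +kernel⟩

def k11_pp_022 : ∃ t, chk3 f_pp_022 t 9 9 1 = true :=
  ⟨(b (a (c (b (a (b (l 15813520) (l 15694840)) (b (l 15596224) (l 15571456))) (a (b (l 15627376) (l 15610344)) (l 15582256))) (b (a (l 15692616) (l 15563672)) (a (l 15601040) (l 15553456)))) (a (c (b (a (l 15568080) (l 15597856)) (a (l 15565312) (l 15603984))) (b (l 15553144) (l 15559056))) (l 15679496))) (a (c (b (c (l 15616232) (l 15602488)) (a (l 15636480) (l 15570224))) (b (a (l 15603360) (l 15557776)) (a (l 15611208) (l 15542680)))) (a (a (b (c (l 15564256) (l 15535512)) (c (l 15556504) (l 15527984))) (l 15565728)) (l 15570800)))), by decide +kernel⟩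

def k12_pp_022 : ∃ t, chk3 f_pp_022 t 5 9 1 = true :=
  ⟨(a (b (a (b (l 15825800) (l 15742024)) (l 15710048)) (l 15425976)) (b (l 15519696) (l 15205240))), by decide +kernel⟩

def k13_pp_022 : ∃ t, chk3 f_pp_022 t 3 4 1 = true :=
  ⟨(b (a (a (l 15843944) (l 15784080)) (l 15697136)) (a (b (l 15521872) (l 15245072)) (l 15453768))), by decide +kernel⟩

def k14_pp_022 : ∃ t, chk3 f_pp_022 t 16 20 2 = true :=
  ⟨(b (a (c (a (l 16126552) (b (l 16150536) (a (l 16076624) (l 16005800)))) (a (a (l 16224760) (c (l 16210920) (l 16202280))) (b (c (l 16064832) (l 16000352)) (c (a (l 16060040) (l 15989456)) (a (l 16053264) (l 15977488)))))) (c (a (c (b (l 15808672) (l 15949328)) (b (a (l 15995744) (l 15931680)) (l 15945880))) (c (a (l 15912608) (l 15881352)) (l 15879552))) (a (c (a (b (l 15990072) (l 15943040)) (l 15913800)) (l 15934368)) (l 15859624)))) (b (a (c (a (a (l 16133144) (l 16090304)) (c (l 16069352) (l 16052648))) (a (c (l 16113768) (a (l 16126768) (l 16077312))) (c (a (l 16054168)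 (l 16039968)) (a (l 16050672) (l 16020328))))) (c (a (c (l 16029976) (l 16025336)) (l 15984520)) (l 15979176))) (a (c (a (b (l 16136736) (l 16235432)) (b (c (l 16153960) (l 16076488)) (l 16203960))) (a (b (c (l 16133088) (b (l 16102600) (l 16144112))) (l 16078632)) (c (b (b (l 16111784) (l 16158400)) (l 16241936)) (b (a (l 16070592) (l 16112688)) (l 16233520))))) (c (a (b (c (l 16048616) (a (l 16129936) (l 16111248))) (l 16157240)) (l 16154264)) (l 16144256))))), by decide +kernel⟩

def k15_pp_022 : ∃ t, chk3 f_pp_022 t 16 20 3 = true :=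
  ⟨(b (a (c (a (a (c (l 16217640) (c (l 16240264) (b (l 16349760) (l 16224664)))) (c (c (l 16199960) (l 16180448)) (c (l 16197192) (l 16185160)))) (a (c (c (l 16106064) (l 16093224)) (l 16083864)) (l 16004544))) (a (b (a (c (a (l 16304592) (l 16320120)) (l 16335720)) (l 16238104)) (l 16158120)) (l 16035272))) (a (b (l 15916032) (l 15887984)) (l 15833200))) (b (a (a (c (c (a (l 16120480) (c (l 16078744) (l 16075456))) (a (c (l 16125096) (l 16125000)) (l 16061744))) (l 16083344)) (l 15924360)) (l 15953904)) (a (c (a (a (b (c (b (l 16099432) (l 16139176)) (c (l 16039864) (l 16118528))) (c (l 16221296) (l 16163912))) (c (c (b (l 16132216) (l 16236368)) (l 16176664)) (l 16167880))) (l 16156344)) (l 16022968)) (l 16060272)))), by decide +kernel⟩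

def k16_pp_022 : ∃ t, chk3 f_pp_022 t 17 20 1 = true :=
  ⟨(b (c (c (a (l 15817152) (l 15724280)) (l 15649360)) (a (l 15771616) (l 15691352))) (c (b (c (a (l 15925944) (l 15845768)) (l 15850560)) (a (c (l 16118000) (l 16099560)) (l 15936192))) (b (a (l 15885672) (l 15817952)) (a (l 16085656) (l 16047280))))), by decide +kernel⟩

def k17_pp_022 : ∃ t, chk3 f_pp_022 t 9 20 1 = true :=
  ⟨(a (b (a (c (l 15632352) (l 15607688)) (c (a (l 15559384) (b (l 15529320) (l 15464144))) (a (l 15532016) (l 15464568)))) (c (b (a (l 15650088) (a (l 15628952) (l 15539616))) (a (b (l 15915640) (l 16015976)) (a (l 15809232) (l 15735696)))) (b (a (l 15734160) (l 15560376)) (a (l 15946528) (l 15755760))))) (b (l 15370744) (l 15512888))), by decide +kernel⟩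

def k18_pp_022 : ∃ t, chk3 f_pp_022 t 4 21 1 = true :=
  ⟨(a (a (c (c (b (a (a (l 16154000) (c (l 16079176) (b (l 16408296) (l 16173472)))) (a (c (b (l 16408384) (l 16198904)) (l 16125560)) (l 16293744))) (a (a (b (l 16010184) (l 15781632)) (c (l 15604208) (l 15604776))) (c (a (l 15738272) (l 15891264)) (l 15889840)))) (a (a (b (c (l 16116304) (b (l 16303920) (l 16180400))) (c (l 15701664) (b (l 16001912) (l 15764536)))) (b (c (b (l 16407024) (l 16179264)) (b (l 16397152) (l 16238984))) (c (l 15695360) (l 15877480)))) (b (l 16223392) (l 15903512)))) (b (a (c (a (b (c (a (l 16384128) (l 16397952)) (l 16212712)) (a (c (l 16250312) (l 16252712)) (l 16243640))) (l 16298504)) (l 16140960)) (l 16158752)) (a (c (a (c (c (l 15796904) (l 15885120)) (l 15888552)) (l 15893224)) (l 15814928)) (l 15848520)))) (c (b (a (b (l 16347296) (l 16232816)) (b (l 16216696) (l 16260880))) (a (b (l 15895424) (l 15656496)) (b (l 16216680) (l 16069000)))) (b (a (l 16332472) (l 16243408)) (a (l 15787560) (l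 16136408))))) (a (c (b (a (l 16084600) (l 15852624)) (a (l 16268608) (l 16384296))) (b (a (l 16224432) (l 16028192)) (a (l 16348200) (l 16424184)))) (l 16059896))), by decide +kernel⟩

def k19_pp_022 : ∃ t, chk3 f_pp_022 t 4 11 1 = true :=
  ⟨(b (a (a (c (a (b (c (a (c (l 15420416) (l 15287904)) (c (b (l 15506976) (l 15279072)) (l 15140672))) (a (c (l 15256520) (a (l 15430936) (l 15404424))) (l 15403216))) (a (c (b (c (l 15107440) (l 15096280)) (a (c (l 14907680) (l 14895808)) (c (l 14894040) (l 14881416)))) (c (b (l 15084496) (l 14879992)) (l 14975936))) (a (c (b (c (l 15063320) (l 15057736)) (l 14894232)) (l 14978328)) (c (l 14964648) (l 15017952))))) (b (c (a (l 15230872) (l 15482848)) (a (l 15433896) (l 15492664))) (c (l 15118200) (l 15146576)))) (a (b (c (l 15333080) (l 15417328)) (a (c (l 14926712) (l 14961424)) (c (l 15009032) (l 15003080)))) (b (c (l 15453056) (l 15465408)) (l 15136288)))) (c (b (a (l 15403152) (l 15850176)) (a (l 15355528) (l 15561832))) (b (l 15541504) (l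 15436912)))) (a (a (c (b (l 16047536) (l 15752384)) (l 15666928)) (l 16059160)) (l 16268832))) (a (c (a (a (b (b (a (b (b (c (b (l 14799080) (b (l 14787496) (l 14786264))) (c (l 14752992) (l 14762456))) (c (l 14786264) (l 14761448))) (c (l 14786264) (l 14761448))) (c (l 14836072) (l 14834432))) (c (a (l 14786264) (l 14834480)) (l 14799840))) (c (l 14811864) (l 14799840))) (b (c (l 14988472) (l 14993312)) (l 14988840))) (b (a (l 15196552) (l 15397352)) (l 15294328))) (a (a (c (a (l 14745800) (l 14837392)) (l 14782528)) (l 14978728)) (a (l 15173880) (l 15364768)))) (a (b (a (c (l 15588744) (l 15557088)) (l 15759304)) (l 15668312)) (l 15996144)))), by decide +kernel⟩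

def k20_pp_022 : ∃ t, chk3 f_pp_022 t 5 5 1 = true :=
  ⟨(b (b (a (b (l 15173456) (l 15323792)) (b (l 14984640) (l 15144880))) (a (l 15913896) (l 15735104))) (b (a (l 16566408) (l 16449592)) (a (l 16346688) (l 16722536)))), by decide +kernel⟩

def k21_pp_022 : ∃ t, chk3 f_pp_022 t 3 5 1 = true :=
  ⟨(a (b (b (b (l 15043736) (l 15200856)) (l 15765504)) (b (l 16445104) (l 16775512))) (b (b (b (l 15164960) (l 2)) (l 2)) (l 2))), by decide +kernel⟩

def k22_pp_022 : ∃ t, chk3 f_pp_022 t 1 3 1 = true :=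
  ⟨(a (a (b (b (a (c (a (b (a (c (l 14811864) (l 14799840)) (l 14988840)) (a (l 14808792) (l 14988840))) (b (l 15294328) (l 15294328))) (a (a (c (l 14791528) (l 14781904)) (l 14978296)) (l 15268632))) (l 15670896)) (a (a (c (b (a (l 14808792) (l 14988840)) (l 14900208)) (b (a (l 14788272) (l 14978296)) (l 14884312))) (b (b (l 15280376) (l 15280376)) (l 15280376))) (l 15817696))) (a (a (b (a (b (l 14780912) (l 14801880)) (l 14970448)) (l 14895376)) (l 15280376)) (l 15733808))) (b (a (l 16346384) (l 16722328)) (a (l 16346384) (l 2)))) (b (b (a (l 16762480) (l 2)) (l 2)) (l 2))), by decide +kernel⟩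

theorem s23_pp_022 : ∃ t, chk3 f_pp_022 t 16 20 1 = true := ex3_c k14_pp_022 k15_pp_022

theorem s24_pp_022 : ∃ t, chk3 f_pp_022 t 8 20 1 = true := ex3_a s23_pp_022 k16_pp_022

theorem s25_pp_022 : ∃ t, chk3 f_pp_022 t 4 20 1 = true := ex3_a s24_pp_022 k17_pp_022

theorem s26_pp_022 : ∃ t, chk3 f_pp_022 t 4 10 1 = true := ex3_b s25_pp_022 k18_pp_022

theorem s27_pp_022 : ∃ t, chk3 f_pp_022 t 4 5 1 = true := ex3_b s26_pp_022 k19_pp_022

theorem s28_pp_022 : ∃ t, chk3 f_pp_022 t 2 5 1 = true := ex3_a s27_pp_022 k20_pp_022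

theorem s29_pp_022 : ∃ t, chk3 f_pp_022 t 1 5 1 = true := ex3_a s28_pp_022 k21_pp_022

theorem s30_pp_022 : ∃ t, chk3 f_pp_022 t 8 19 1 = true := ex3_a k9_pp_022 k10_pp_022

theorem s31_pp_022 : ∃ t, chk3 f_pp_022 t 16 18 1 = true := ex3_c k6_pp_022 k7_pp_022

theorem s32_pp_022 : ∃ t, chk3 f_pp_022 t 8 18 1 = true := ex3_a s31_pp_022 k8_pp_022

theorem s33_pp_022 : ∃ t, chk3 f_pp_022 t 8 9 1 = true := ex3_b s32_pp_022 s30_pp_022

theorem s34_pp_022 : ∃ t, chk3 f_pp_022 t 4 9 1 = true := ex3_a s33_pp_022 k11_pp_022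

theorem s35_pp_022 : ∃ t, chk3 f_pp_022 t 2 9 1 = true := ex3_a s34_pp_022 k12_pp_022

theorem s36_pp_022 : ∃ t, chk3 f_pp_022 t 16 17 1 = true := ex3_a k1_pp_022 k2_pp_022

theorem s37_pp_022 : ∃ t, chk3 f_pp_022 t 8 17 1 = true := ex3_a s36_pp_022 k3_pp_022

theorem s38_pp_022 : ∃ t, chk3 f_pp_022 t 4 17 1 = true := ex3_a s37_pp_022 k4_pp_022

theorem s39_pp_022 : ∃ t, chk3 f_pp_022 t 4 8 1 = true := ex3_b k0_pp_022 s38_pp_022

theorem s40_pp_022 : ∃ t, chk3 f_pp_022 t 2 8 1 = true := ex3_a s39_pp_022 k5_pp_022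

theorem s41_pp_022 : ∃ t, chk3 f_pp_022 t 2 4 1 = true := ex3_b s40_pp_022 s35_pp_022

theorem s42_pp_022 : ∃ t, chk3 f_pp_022 t 1 4 1 = true := ex3_a s41_pp_022 k13_pp_022

theorem s43_pp_022 : ∃ t, chk3 f_pp_022 t 1 2 1 = true := ex3_b s42_pp_022 s29_pp_022

theorem s44_pp_022 : ∃ t, chk3 f_pp_022 t 1 1 1 = true := ex3_b s43_pp_022 k22_pp_022

theorem c_pp_022 : CertFX 0 536870912 1073741824 536870912 1046898278 26843546 false true true .pp 0 2 2
    ndF3q0 ndF3q2 pcF2 cut_pp_022 Ext.none :=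
  certFX1 (fam := false) (s1 := true) (s2 := true) (a := 0) (b := 2) (c := 2) (cn := .pp) (n1 := ndF3q0) (n2 := ndF3q2) (pc := pcF2) (cut := cut_pp_022) (xt := Ext.none) (P1 := 0) (W1 := 536870912) (P2 := 1073741824) (W2 := 536870912) (P3 := 1046898278) (W3 := 26843546)
    rfl (fun _ => rfl) s44_pp_022

noncomputable def f_pp_023 : ℕ → ℕ → ℕ → ℕ → Bool := onCell 0 536870912 1073741824 536870912 1046898278 26843546
    (rowFX 1 false true true .up 0 2 3 (qsf 0 536870912 1610612736 536870912 2) ndF3q0 ndF3q3 pcF2 Cut.none Ext.none)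

def k0_pp_023 : ∃ t, chk3 f_pp_023 t 1 1 1 = true :=
  ⟨(b (b (a (l 1) (b (a (l 1) (l 15697136)) (a (l 397314728999) (l 15411824)))) (a (a (l 1) (b (l 1) (b (l 1) (l 910028724007)))) (b (b (b (l 524015718007) (a (l 15200856) (l 15312912))) (a (l 15765504) (l 15821544))) (b (a (l 16445104) (l 16412976)) (a (l 16775512) (l 16677480)))))) (a (a (b (a (l 1) (l 688299641255)) (a (a (b (l 1) (l 14895376)) (l 15280376)) (l 15670896))) (b (a (l 16346384) (l 16722328)) (a (l 16325416) (b (l 16722328) (l 16722328))))) (b (b (a (l 16762480) (l 16681704)) (a (l 16775928) (l 16771720))) (a (b (l 16777208) (l 16777176)) (b (b (l 16773944) (l 16747328)) (l 16728360)))))), by decide +kernel⟩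

theorem c_pp_023 : CertFX 0 536870912 1610612736 536870912 1046898278 26843546 false true true .up 0 2 3
    ndF3q0 ndF3q3 pcF2 Cut.none Ext.none :=
  certFX1 (fam := false) (s1 := true) (s2 := true) (a := 0) (b := 2) (c := 3) (cn := .up) (n1 := ndF3q0) (n2 := ndF3q3) (pc := pcF2) (cut := Cut.none) (xt := Ext.none) (P1 := 0) (W1 := 536870912) (P2 := 1610612736) (W2 := 536870912) (P3 := 1046898278) (W3 := 26843546)
    rfl (fun _ => rfl) k0_pp_023

noncomputable def f_pp_033 : ℕ → ℕ → ℕ → ℕ → Bool := onCell 0 536870912 1610612736 536870912 1046898278 26843546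
    (rowFX 0 false true true .pnn 0 3 3 (qsf 0 536870912 1610612736 536870912 3) ndF3q0 ndF3q3 pcF3 Cut.none Ext.none)

def k0_pp_033 : ∃ t, chk3 f_pp_033 t 1 1 1 = true :=
  ⟨(a (b (a (b (a (a (b (l 14811488) (a (l 14801880) (l 14970448))) (l 15280376)) (l 15691864)) (b (a (a (c (l 14900208) (a (l 14788272) (l 14978296))) (l 15280376)) (a (l 15668312) (l 15995776))) (a (a (c (b (l 14900208) (l 14900208)) (b (l 14884312) (l 14884312))) (c (l 15294328) (l 15268632))) (c (l 15825816) (l 15612360))))) (b (a (l 16346384) (l 1)) (b (a (l 16346384) (l 16722328)) (a (l 16346384) (l 16722328))))) (b (b (a (b (a (a (c (l 14900208) (a (l 14788272) (l 14978296))) (c (l 15294328) (l 15268632))) (a (l 15668312) (l 15995776))) (a (a (b (c (l 14900200) (l 14884304)) (l 4)) (c (l 15294312) (l 15247632))) (c (l 15678992) (a (l 15650720) (l 15985728))))) (a (c (l 16351896) (l 16340848)) (l 16722320))) (b (a (l 4) (a (c (l 16351848) (l 16340792)) (c (l 16722976) (l 16721560)))) (l 4))) (l 4))) (b (b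 (l 1) (a (b (l 1) (l 16777216)) (l 1))) (b (a (b (l 16777200) (a (c (l 16777152) (l 16777152)) (l 16777152))) (c (l 624414424711) (l 684007095575))) (a (l 4) (a (l 4) (b (l 16750280) (l 4))))))), by decide +kernel⟩

theorem c_pp_033 : CertFX 0 536870912 1610612736 536870912 1046898278 26843546 false true true .pnn 0 3 3
    ndF3q0 ndF3q3 pcF3 Cut.none Ext.none :=
  certFX0 (fam := false) (s1 := true) (s2 := true) (a := 0) (b := 3) (c := 3) (cn := .pnn) (n1 := ndF3q0) (n2 := ndF3q3) (pc := pcF3) (cut := Cut.none) (xt := Ext.none) (P1 := 0) (W1 := 536870912) (P2 := 1610612736) (W2 := 536870912) (P3 := 1046898278) (W3 := 26843546)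
    rfl k0_pp_033

noncomputable def f_pp_101 : ℕ → ℕ → ℕ → ℕ → Bool := onCell 536870912 536870912 536870912 536870912 1046898278 26843546
    (rowFX 0 false true true .npn 1 0 1 (qsf 536870912 536870912 536870912 536870912 0) ndF3q1 ndF3q1 pcF0 Cut.none Ext.none)

def k0_pp_101 : ∃ t, chk3 f_pp_101 t 1 1 1 = true :=
  ⟨(l 3), by decide +kernel⟩

theorem c_pp_101 : CertFX 536870912 536870912 536870912 536870912 1046898278 26843546 false true true .npn 1 0 1
    ndF3q1 ndF3q1 pcF0 Cut.none Ext.none :=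
  certFX0 (fam := false) (s1 := true) (s2 := true) (a := 1) (b := 0) (c := 1) (cn := .npn) (n1 := ndF3q1) (n2 := ndF3q1) (pc := pcF0) (cut := Cut.none) (xt := Ext.none) (P1 := 536870912) (W1 := 536870912) (P2 := 536870912) (W2 := 536870912) (P3 := 1046898278) (W3 := 26843546)
    rfl k0_pp_101

noncomputable def cut_pp_102 : Cut := Cut.of [[⟨0, 1, 0, 67108864⟩, ⟨1, 0, 0, 67108864⟩, ⟨2, 1, 0, 67108864⟩]]

noncomputable def f_pp_102 : ℕ → ℕ → ℕ → ℕ → Bool := onCell 536870912 536870912 1073741824 536870912 1046898278 26843546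
    (rowFX 0 false true true .npp 1 0 2 (qsf 536870912 536870912 1073741824 536870912 0) ndF3q1 ndF3q2 pcF0 cut_pp_102 Ext.none)

def k0_pp_102 : ∃ t, chk3 f_pp_102 t 4 2 1 = true :=
  ⟨(a (b (b (b (c (b (c (l 15874800) (l 15850616)) (l 15957120)) (c (b (b (l 15795144) (l 15845648)) (l 15888720)) (b (b (c (l 15773632) (a (l 15756632) (l 15756632))) (l 15804952)) (l 15865792)))) (c (c (l 16050520) (l 16022624)) (c (l 16001704) (l 15991832)))) (b (c (l 16069488) (l 16051104)) (l 2))) (l 2)) (b (b (b (c (b (c (l 15874800) (b (l 15815840) (l 15890640))) (c (l 15983424) (l 15933304))) (b (c (a (l 15817752) (l 15775816)) (b (c (l 15773632) (a (l 15756632) (l 15756632))) (l 15804952))) (c (l 15888720) (l 15865792)))) (c (c (l 16050520) (l 16022624)) (c (l 16001704) (l 15991832)))) (c (b (l 16069488) (l 15982784)) (b (l 16051104) (l 15962152)))) (b (b (c (l 15840608) (l 15816280)) (l 2)) (l 2)))), by decide +kernel⟩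

def k1_pp_102 : ∃ t, chk3 f_pp_102 t 5 2 1 = true :=
  ⟨(a (b (b (b (c (b (c (a (l 15874800) (l 15874800)) (b (l 15815840) (l 15890640))) (c (l 15983424) (l 15933304))) (b (c (b (a (l 15795144) (l 15795144)) (l 15845648)) (b (b (a (l 15753296) (l 15753296)) (l 15780608)) (l 15804952))) (c (l 15888720) (l 15865792)))) (c (c (l 16050520) (l 16022624)) (b (l 15955544) (l 16037456)))) (c (b (l 16069488) (l 15982784)) (b (l 16051104) (l 15962152)))) (b (b (c (l 15840608) (l 15816280)) (c (l 16115536) (l 16098344))) (b (c (l 16555984) (l 16550240)) (l 2)))) (b (b (b (c (b (c (b (l 15829176) (l 15922544)) (b (a (l 15815840) (l 15815840)) (l 15890640))) (c (l 15983424) (l 15933304))) (b (c (b (a (l 15795144) (b (l 15776024) (l 15818240))) (l 15845648)) (b (c (b (l 15762152) (l 15787840)) (a (l 15756632) (l 15756632))) (l 15804952))) (c (l 15888720) (l 15865792)))) (c (b (l 16005832) (l 16063432)) (b (l 15955544) (l 16037456)))) (c (b (l 16069488) (l 15982784)) (b (l 16051104) (l 15962152))))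 (b (b (c (l 15840608) (l 15816280)) (c (l 16115536) (l 16098344))) (b (c (l 16555984) (l 16550240)) (c (l 16776904) (l 16776896)))))), by decide +kernel⟩

def k2_pp_102 : ∃ t, chk3 f_pp_102 t 12 8 1 = true :=
  ⟨(b (b (a (c (b (a (l 15801280) (a (b (l 15789984) (l 15849272)) (b (l 15752176) (l 15829640)))) (c (l 15920976) (b (l 15879432) (l 15902872)))) (b (a (c (l 15795144) (b (l 15732328) (l 15780608))) (c (b (a (l 15770344) (l 15731584)) (a (l 15818176) (l 15798048))) (b (a (b (c (l 15745544) (l 15734016)) (l 15761128)) (c (l 15717168) (l 15701096))) (a (l 15780544) (l 15760080))))) (c (l 15844032) (a (l 15804952) (l 15802176))))) (c (b (c (l 15575816) (b (l 15497296) (l 15664256))) (c (b (l 15780664) (l 15841552)) (b (l 15752592) (l 15801648)))) (b (c (b (a (l 15645384) (l 15525376)) (a (l 15716936) (l 15598000))) (b (a (c (l 15629928) (b (l 15600176) (l 15628992))) (c (l 15466584) (b (c (l 15482576) (l 15473648)) (l 15506896)))) (c (l 15625736) (l 15540752)))) (c (a (l 15785376)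 (l 15670752)) (a (l 15659824) (l 15627304)))))) (a (c (l 15957112) (c (l 15888720) (l 15865784))) (c (a (b (l 15903216) (l 15966896)) (b (l 15833240) (l 15911688))) (a (b (c (l 15849032) (l 15821592)) (l 15890864)) (b (l 15743064) (l 15833896)))))) (c (b (a (l 16005824) (a (l 16004384) (l 15987672))) (l 16062160)) (b (a (l 15955536) (a (l 15954048) (l 15936800))) (l 16036144)))), by decide +kernel⟩

def k3_pp_102 : ∃ t, chk3 f_pp_102 t 26 16 1 = true :=
  ⟨(b (c (b (c (l 15418656) (b (l 15314528) (l 15441408))) (c (l 15573192) (l 15514824))) (b (c (b (a (l 15379704) (l 15229352)) (a (l 15474200) (l 15345712))) (b (c (b (a (l 15364808) (l 15233800)) (l 15190584)) (b (a (b (l 15300560) (l 15359352)) (c (l 15223856) (b (l 15207136) (l 15222288)))) (a (l 15380096) (l 15248624)))) (c (l 15354488) (l 15288632)))) (c (l 15443376) (a (l 15503016) (l 15374056))))) (c (b (l 15592144) (l 15740528)) (c (l 15454368) (l 15532272)))), by decide +kernel⟩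

def k4_pp_102 : ∃ t, chk3 f_pp_102 t 27 16 1 = true :=
  ⟨(b (c (a (a (b (a (l 15221624) (c (l 15248328) (a (l 15227968) (l 15224088)))) (c (l 15418216) (l 15378600))) (b (c (l 15303512) (l 15282136)) (l 15395448))) (b (a (c (l 15397920) (l 15378064)) (b (l 15443296) (l 15527008))) (c (l 15472800) (l 15561936)))) (a (a (b (c (b (a (l 15188056) (a (l 15162728) (l 15158824))) (a (l 15263032) (a (l 15237872) (l 15233952)))) (b (a (c (l 15125600) (b (b (l 15125544) (l 15142776)) (l 15164080))) (a (c (l 15141952) (b (b (l 15099720) (l 15116992)) (l 15138360))) (c (b (l 15119984) (l 15158072)) (b (c (l 15109456) (a (b (l 15086976) (l 15102328)) (l 15104488))) (l 15134400))))) (a (l 15217080) (a (l 15191568) (l 15187616))))) (c (l 15325896) (a (l 15291072) (l 15263840)))) (b (c (b (l 15218088) (l 15292576)) (b (b (c (l 15180096) (b (l 15135440) (l 15173544))) (c (l 15217888) (l 15194680))) (l 15247168))) (c (l 15368056) (l 15320352)))) (b (c (b (a (l 15315952) (l 15415912)) (l 15355032))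 (b (c (b (l 15308720) (l 15366896)) (b (c (l 15257464) (b (l 15220312) (l 15319104))) (l 15302888))) (c (l 15404384) (l 15380840)))) (c (l 15512168) (l 15445712))))) (c (a (a (l 15543664) (l 15583088)) (l 15509144)) (a (a (b (l 15401160) (l 15501400)) (l 15494128)) (b (l 15584192) (l 15679752))))), by decide +kernel⟩

def k5_pp_102 : ∃ t, chk3 f_pp_102 t 13 17 1 = true :=
  ⟨(a (b (c (a (l 15919136) (l 15805592)) (l 15639728)) (c (a (l 16043656) (l 15976696)) (a (l 16017064) (l 15948096)))) (c (a (b (a (l 15716744) (l 15753928)) (a (l 15896392) (l 15931312))) (b (l 15883144) (l 16054200))) (a (b (l 15676968) (l 15883424)) (l 15824856)))), by decide +kernel⟩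

def k6_pp_102 : ∃ t, chk3 f_pp_102 t 6 9 1 = true :=
  ⟨(a (c (b (l 16068304) (c (l 15986888) (l 15976552))) (b (l 16049880) (l 15961048))) (a (b (b (c (l 16066472) (l 16047928)) (l 16040384)) (c (l 15976184) (l 15955328))) (b (a (b (c (l 16022728) (l 16024600)) (c (l 16038376) (l 16062392))) (c (l 16010856) (l 16144480))) (a (c (l 16015392) (l 15995824)) (c (b (l 16272984) (l 16193392)) (l 16114208)))))), by decide +kernel⟩

def k7_pp_102 : ∃ t, chk3 f_pp_102 t 6 5 1 = true :=
  ⟨(b (a (b (c (b (l 15864544) (l 15815464)) (l 15815304)) (c (l 16114712) (l 16097496))) (b (a (c (l 15834688) (l 15810160)) (c (a (l 15869960) (l 16071064)) (a (l 15846616) (l 16054696)))) (a (c (l 16110304) (l 16092928)) (a (a (l 16101048) (l 16166408)) (l 16064152))))) (a (b (c (l 16471400) (l 16486592)) (c (l 16776008) (l 16775992))) (a (b (c (l 16551440) (l 16545528)) (c (l 16768432) (l 16768224))) (b (a (c (l 16536832) (l 16573880)) (l 16406928)) (a (c (l 16733104) (l 16731960)) (l 16385688)))))), by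 decide +kernel⟩

def k8_pp_102 : ∃ t, chk3 f_pp_102 t 28 16 1 = true :=
  ⟨(b (c (b (a (c (a (l 15593064) (a (l 15668024) (a (l 15704984) (l 15686888)))) (b (l 15584224) (l 15668336))) (c (a (b (a (l 15719160) (a (l 15753160) (l 15754992))) (l 15830152)) (c (b (a (a (c (b (l 15765648) (l 15825512)) (l 15800288)) (l 15818280)) (l 15838352)) (l 15912056)) (l 15736512))) (a (l 15772160) (l 15810600)))) (a (c (b (l 15763480) (l 15825144)) (l 15759040)) (c (a (b (l 15912456) (l 15975232)) (b (l 15993200) (l 16059392))) (a (l 15910352) (l 15994480))))) (b (a (c (b (a (l 15517952) (l 15619328)) (l 15557352)) (b (c (b (l 15492672) (l 15551056)) (b (a (l 15470592) (l 15552488)) (l 15509544))) (c (l 15608976) (l 15586944)))) (c (a (b (l 15714232) (l 15791440)) (b (l 15795824) (l 15872888))) (b (a (b (l 15590064) (l 15709600)) (c (l 15782192) (b (l 15752224) (l 15783880)))) (a (l 15753512) (l 15836120))))) (a (c (l 15712264) (l 15669776)) (c (a (l 15865816) (l 15951168)) (a (l 15825576) (l 15912144))))))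 (c (a (c (l 15830128) (l 15884392)) (a (l 15931112) (b (l 16045736) (l 16185024)))) (a (b (l 15781960) (l 15872752)) (c (b (l 15992240) (l 16075760)) (l 15931520))))), by decide +kernel⟩

def k9_pp_102 : ∃ t, chk3 f_pp_102 t 29 16 1 = true :=
  ⟨(b (b (b (a (c (c (a (c (l 15836960) (l 15873080)) (l 15931136)) (l 15892200)) (c (l 15880576) (c (l 15867832) (l 15768992)))) (c (a (c (l 15966856) (l 15977752)) (c (l 16037800) (l 16049504))) (c (a (l 15967312) (a (l 16018464) (l 16061384))) (b (a (l 15931208) (c (l 16013888) (a (l 15960888) (c (b (l 16023416) (l 16038816)) (b (c (l 16020608) (b (b (l 16013048) (l 16016424)) (l 16020368))) (c (l 16031760) (l 16026968))))))) (a (l 15965160) (c (a (l 16023904) (l 16066784)) (a (l 16006512) (c (l 16052848) (l 16043344))))))))) (c (a (c (l 15928120) (l 15979576)) (a (c (l 16074056) (l 16063760)) (a (l 16112064) (l 16147520)))) (a (c (l 15957008) (l 15921424)) (c (a (l 16042352) (b (l 16050320) (l 16119224))) (a (l 16007936) (c (a (l 16059128)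 (l 16095672)) (a (l 16040240) (c (l 16079064) (l 16074000))))))))) (c (a (c (b (l 16032744) (l 16141016)) (l 15972336)) (b (a (l 16144088) (l 16180056)) (l 16105424))) (a (c (l 16035064) (l 15997224)) (c (a (l 16119384) (l 16156096)) (a (l 16082696) (c (b (l 16119800) (l 16167776)) (l 16030512))))))) (c (a (b (c (l 16218016) (l 16174560)) (l 16278248)) (b (l 16178936) (l 16370112))) (a (b (l 16053432) (l 16212128)) (c (b (l 16196400) (l 16332064)) (a (l 16242152) (l 16173216)))))), by decide +kernel⟩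

def k10_pp_102 : ∃ t, chk3 f_pp_102 t 14 17 1 = true :=
  ⟨(a (b (c (a (l 16062944) (c (l 16265200) (l 16226072))) (a (l 16015088) (l 16205448))) (c (a (l 16224936) (l 16293936)) (l 16104880))) (c (b (a (l 16261976) (c (l 16421344) (l 16365216))) (b (l 16347368) (l 16419424))) (a (b (l 16328952) (l 16459176)) (b (a (l 16405192) (c (l 16445456) (l 16422528))) (b (l 16508648) (l 16453280)))))), by decide +kernel⟩

def k11_pp_102 : ∃ t, chk3 f_pp_102 t 14 9 1 = true :=
  ⟨(a (b (c (b (l 16280560) (l 16329896)) (c (l 16228648) (l 16205312))) (b (c (a (l 16473072) (l 16504688)) (a (l 16469112) (l 16502632))) (a (l 16260560) (c (l 16448584) (l 16445608))))) (b (a (b (l 16468872) (l 16438272)) (c (l 16272512) (b (l 16345424) (l 16315688)))) (c (b (l 16288184) (l 16220488)) (b (l 16259304) (l 16211368))))), by decide +kernel⟩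

def k12_pp_102 : ∃ t, chk3 f_pp_102 t 30 16 1 = true :=
  ⟨(b (a (b (a (c (c (c (a (c (a (a (l 16145448) (l 16115304)) (c (l 16139840) (l 16130936))) (l 16158464)) (a (b (c (l 16168192) (l 16155416)) (l 16237640)) (b (l 6) (l 16266000)))) (l 16134864)) (b (l 16134624) (l 16205448))) (c (b (b (l 16108272) (l 16144504)) (b (l 16175368) (l 16198216))) (b (c (b (l 16101920) (l 16111160)) (b (c (b (l 16089576) (l 16104784)) (b (c (l 16044984) (b (c (l 16082032) (a (l 16058368) (l 6))) (l 16065776))) (c (l 16097888) (l 16072232)))) (c (l 16118512) (c (l 16110224) (l 16107736))))) (c (l 16159400) (c (l 16143104) (l 16138256)))))) (b (l 6) (b (l 6) (b (l 6) (c (c (c (l 16366048) (l 16336272)) (l 16315736)) (c (l 16289768) (l 16228592))))))) (c (c (a (c (a (b (l 16271072) (l 16332544)) (b (l 16324616) (l 16379424))) (l 16263544)) (a (c (l 16328344) (l 16325688)) (b (c (l 16380424) (l 16401624)) (l 16393144)))) (b (l 16219176) (l 16302360))) (c (a (b (l 16225736) (l 16261344)) (l 16323968))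 (a (c (b (l 16191088) (l 16229728)) (b (l 16158808) (l 16224640))) (c (l 16272360) (l 16284704)))))) (b (l 6) (b (l 6) (a (b (l 6) (c (c (l 16449640) (l 16443080)) (l 16333216))) (l 6))))) (c (a (a (c (c (a (l 16390352) (l 16388088)) (l 16421192)) (l 16366296)) (c (b (b (l 16383648) (l 16421864)) (l 16457800)) (l 16342112))) (c (c (b (b (l 16488472) (l 16429632)) (b (l 16376792) (l 16383848))) (b (a (l 16512872) (l 16476944)) (l 16395256))) (a (b (l 16414712) (l 16469096)) (a (l 16454992) (l 16475720))))) (a (b (c (a (l 16322400) (l 16366072)) (a (l 16280936) (l 16325464))) (c (l 16378760) (l 16350792))) (b (c (l 16425560) (l 16407528)) (c (l 16468208) (l 16441984)))))), by decide +kernel⟩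

def k13_pp_102 : ∃ t, chk3 f_pp_102 t 30 17 1 = true :=
  ⟨(c (a (c (b (a (l 16492400) (l 16475816)) (b (a (l 16525112) (l 16398680)) (l 16205688))) (b (l 16454768) (l 16376288))) (b (c (b (b (l 16317488) (l 16347936)) (l 16289336)) (c (b (l 16394376) (l 16368296)) (b (l 16459536) (l 16443472)))) (c (l 16013680) (l 16105384)))) (b (a (b (l 16434080) (l 16513440)) (b (c (l 16569000) (l 16526984)) (l 16472352))) (a (b (l 16431608) (l 16334296)) (l 16149672)))), by decide +kernel⟩

def k14_pp_102 : ∃ t, chk3 f_pp_102 t 31 8 1 = true :=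
  ⟨(a (a (b (a (b (l 6) (b (l 6) (b (l 6) (c (l 16262792) (l 16615656))))) (l 6)) (c (b (c (b (c (l 16155560) (l 16344480)) (l 16178512)) (b (l 16395048) (l 16336680))) (c (l 15927024) (l 16171632))) (b (c (b (l 16465088) (l 16394904)) (l 16395056)) (b (l 16250560) (l 16180344))))) (b (l 6) (c (c (b (c (b (l 16200144) (l 16124344)) (b (a (l 16248528) (l 6)) (l 16150296))) (b (l 15897448) (l 15930864))) (b (b (l 16175720) (l 16185112)) (l 15909176))) (b (c (l 16215112) (l 16398920)) (c (l 15963736) (l 16186856)))))) (b (l 6) (b (b (l 6) (a (c (a (c (l 16132712) (l 16156400)) (l 6)) (c (l 16208240) (l 16270136))) (l 6))) (c (c (b (a (c (l 16034480) (l 16037560)) (l 16058968)) (a (l 15931192) (l 15872864))) (a (a (l 15995344) (l 15986760)) (l 15991440))) (a (c (b (l 16099760) (l 15986600)) (b (l 16160440) (l 16046000))) (c (l 15990368) (a (l 15831616) (c (l 15984888) (l 15891312))))))))), by decide +kernel⟩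

def k15_pp_102 : ∃ t, chk3 f_pp_102 t 15 9 1 = true :=
  ⟨(a (b (c (a (c (b (l 16179200) (l 16152392)) (l 16230152)) (b (c (l 16039704) (l 16056320)) (l 15865992))) (b (a (l 16133536) (l 16118064)) (a (l 16166616) (l 16011832)))) (c (a (c (l 15976136) (l 16039328)) (b (l 15849624) (l 15789016))) (b (l 15944032) (l 15921928)))) (b (a (c (b (a (l 15910144) (l 15700488)) (a (l 15769048) (l 15653792))) (b (c (l 15900208) (l 16006280)) (l 15673128))) (c (b (a (l 15801056) (b (l 15857536) (l 15783760))) (a (l 15642864) (l 15662544))) (a (c (b (l 15845000) (l 15684120)) (b (l 15902816) (l 15740168))) (b (c (l 15810632) (a (l 15834568) (c (l 15808680) (l 15798056)))) (c (l 15650752) (l 15648496)))))) (c (a (b (a (l 15661896) (l 15557896)) (l 15561328)) (b (a (l 15513784) (l 15522264)) (l 15456200))) (a (b (l 15725960) (l 15668376)) (a (c (l 15521320) (l 15575736)) (c (l 15472296) (b (l 15525288) (l 15453088)))))))), by decide +kernel⟩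

def k16_pp_102 : ∃ t, chk3 f_pp_102 t 7 5 1 = true :=
  ⟨(a (b (b (a (a (b (l 16334160) (l 16259752)) (b (c (l 16445336) (l 16443200)) (l 16320968))) (a (b (l 16169832) (c (l 16151728) (l 16101784))) (b (l 16079104) (c (l 16011296) (l 15808944))))) (a (a (c (l 16483032) (l 16461448)) (c (l 16176184) (l 16146472))) (c (a (l 15966368) (l 15576960)) (a (l 15950032) (b (l 15782312) (l 15577024)))))) (a (b (a (l 16114336) (a (l 15980880) (l 15816856))) (c (l 15921696) (l 15899480))) (b (c (l 15478696) (l 15194936)) (c (l 15303440) (l 15139328))))) (b (a (b (c (a (b (l 15925408) (l 15773760)) (b (l 15725144) (l 15635336))) (b (l 15856512) (a (l 15838064) (l 15691368)))) (a (c (b (l 15503144) (l 15229232)) (b (l 15559136) (l 15298136))) (c (b (l 15339744) (l 15021704)) (b (l 15386928) (l 15058976))))) (b (a (c (b (l 15504744) (l 15415576)) (b (l 15611008) (l 15520000))) (c (b (l 15404504) (l 15322656)) (a (b (l 15450912) (l 15365056)) (b (l 15395672) (l 15231464))))) (a (c (l 14851384)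 (l 14899624)) (c (l 14828560) (c (l 14832256) (l 14682176)))))) (a (b (c (a (l 15025272) (b (l 14771928) (l 14577896))) (a (l 15000792) (b (l 14801200) (l 14600736)))) (c (a (l 14836944) (l 14473680)) (l 14587744))) (b (a (c (b (l 14447856) (l 14201664)) (b (l 14522792) (l 14268560))) (c (b (l 14305808) (l 13992288)) (a (b (l 14324336) (l 14010136)) (c (l 14086464) (l 14084072))))) (c (a (l 14087744) (b (l 13830880) (l 13826040))) (a (l 14150792) (a (l 13865320) (b (l 13735304) (l 13728744))))))))), by decide +kernel⟩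

def k17_pp_102 : ∃ t, chk3 f_pp_102 t 1 3 1 = true :=
  ⟨(a (b (b (a (l 2) (a (l 2) (a (l 2) (c (l 16777216) (l 16777216))))) (l 2)) (l 2)) (a (b (b (b (c (a (l 16775720) (a (l 16768144) (l 16520936))) (a (l 16775680) (a (l 16767912) (l 16473968)))) (a (l 16775704) (a (l 16768032) (l 16581336)))) (a (l 16775704) (a (l 16768032) (l 16581336)))) (a (l 2) (a (l 2) (l 16581336)))) (b (a (a (b (b (c (l 15921480) (l 15899248)) (l 15910368)) (l 15910368)) (b (c (b (l 15303192) (l 15303192)) (b (l 15264904) (l 15264904))) (l 15284048))) (b (a (c (b (a (l 14836680) (l 14473400)) (l 14395208)) (b (l 14650384) (l 14650384))) (c (a (b (l 14087456) (l 14087456)) (b (l 13826040) (l 13826040))) (c (a (l 14157128) (l 13805880)) (b (l 13771128) (l 13813072))))) (a (c (l 14646872) (l 14650384)) (c (l 13974584) (a (l 14150488) (l 13810152)))))) (a (a (l 15910368) (l 15284048)) (a (c (l 14646872) (l 14650384)) (c (l 13974584) (b (l 13979936) (l 13979936)))))))), by decide +kernel⟩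

theorem s18_pp_102 : ∃ t, chk3 f_pp_102 t 30 8 1 = true := ex3_b k12_pp_102 k13_pp_102

theorem s19_pp_102 : ∃ t, chk3 f_pp_102 t 15 8 1 = true := ex3_a s18_pp_102 k14_pp_102

theorem s20_pp_102 : ∃ t, chk3 f_pp_102 t 15 4 1 = true := ex3_b s19_pp_102 k15_pp_102

theorem s21_pp_102 : ∃ t, chk3 f_pp_102 t 14 16 1 = true := ex3_a k8_pp_102 k9_pp_102

theorem s22_pp_102 : ∃ t, chk3 f_pp_102 t 14 8 1 = true := ex3_b s21_pp_102 k10_pp_102

theorem s23_pp_102 : ∃ t, chk3 f_pp_102 t 14 4 1 = true := ex3_b s22_pp_102 k11_pp_102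

theorem s24_pp_102 : ∃ t, chk3 f_pp_102 t 7 4 1 = true := ex3_a s23_pp_102 s20_pp_102

theorem s25_pp_102 : ∃ t, chk3 f_pp_102 t 7 2 1 = true := ex3_b s24_pp_102 k16_pp_102

theorem s26_pp_102 : ∃ t, chk3 f_pp_102 t 13 16 1 = true := ex3_a k3_pp_102 k4_pp_102

theorem s27_pp_102 : ∃ t, chk3 f_pp_102 t 13 8 1 = true := ex3_b s26_pp_102 k5_pp_102

theorem s28_pp_102 : ∃ t, chk3 f_pp_102 t 6 8 1 = true := ex3_a k2_pp_102 s27_pp_102

theorem s29_pp_102 : ∃ t, chk3 f_pp_102 t 6 4 1 = true := ex3_b s28_pp_102 k6_pp_102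

theorem s30_pp_102 : ∃ t, chk3 f_pp_102 t 6 2 1 = true := ex3_b s29_pp_102 k7_pp_102

theorem s31_pp_102 : ∃ t, chk3 f_pp_102 t 3 2 1 = true := ex3_a s30_pp_102 s25_pp_102

theorem s32_pp_102 : ∃ t, chk3 f_pp_102 t 2 2 1 = true := ex3_a k0_pp_102 k1_pp_102

theorem s33_pp_102 : ∃ t, chk3 f_pp_102 t 1 2 1 = true := ex3_a s32_pp_102 s31_pp_102

theorem s34_pp_102 : ∃ t, chk3 f_pp_102 t 1 1 1 = true := ex3_b s33_pp_102 k17_pp_102

theorem c_pp_102 : CertFX 536870912 536870912 1073741824 536870912 1046898278 26843546 false true true .npp 1 0 2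
    ndF3q1 ndF3q2 pcF0 cut_pp_102 Ext.none :=
  certFX0 (fam := false) (s1 := true) (s2 := true) (a := 1) (b := 0) (c := 2) (cn := .npp) (n1 := ndF3q1) (n2 := ndF3q2) (pc := pcF0) (cut := cut_pp_102) (xt := Ext.none) (P1 := 536870912) (W1 := 536870912) (P2 := 1073741824) (W2 := 536870912) (P3 := 1046898278) (W3 := 26843546)
    rfl s34_pp_102

noncomputable def f_pp_112 : ℕ → ℕ → ℕ → ℕ → Bool := onCell 536870912 536870912 1073741824 536870912 1046898278 26843546
    (rowFX 2 false true true .dn 1 1 2 (qsf 536870912 536870912 1073741824 536870912 1) ndF3q1 ndF3q2 pcF1 Cut.none Ext.none)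

def k0_pp_112 : ∃ t, chk3 f_pp_112 t 1 1 1 = true :=
  ⟨(a (b (b (a (a (b (b (a (c (b (l 15859560) (l 15957120)) (b (c (l 15817752) (b (l 15764136) (l 15804952))) (l 15879216))) (c (l 408053238519) (l 524554139415))) (c (l 16038456) (l 15996768))) (c (l 15947480) (b (l 16051104) (l 15962152)))) (b (b (l 1) (c (l 16038456) (l 554619458199))) (c (b (l 16069488) (l 15982784)) (b (l 16051104) (l 15962152))))) (b (l 1) (a (c (l 15947480) (l 416643478375)) (l 1)))) (a (b (a (b (c (l 15840608) (l 15816280)) (l 16044024)) (b (c (l 15840608) (l 15816280)) (c (l 16115536) (l 16098344)))) (a (b (c (l 16555984) (l 16550240)) (l 16776904)) (a (a (l 16667800) (l 16667800)) (l 16667800)))) (b (a (b (c (l 15840608) (l 15816280)) (l 16106936)) (b (l 1) (l 16106936))) (a (b (l 16532144) (l 16776904)) (b (l 16553112) (l 16776904)))))) (a (b (b (a (c (l 16776504) (l 16776480)) (l 16777216)) (a (b (l 16773248) (l 16718608)) (l 16776496))) (a (b (a (b (l 16215616) (l 15621664)) (b (l 16685864) (l 16257560)))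 (a (b (l 14956864) (c (l 14238680) (l 14274344))) (b (l 15621664) (l 14956864)))) (b (l 16734776) (a (b (l 16257560) (l 15621664)) (b (l 16685864) (l 16257560)))))) (b (b (l 16777216) (l 16777216)) (a (b (l 16776496) (l 16734776)) (l 16776752))))) (a (b (b (l 1) (b (l 1) (a (b (l 1) (l 16772416)) (l 1)))) (b (a (l 16772976) (l 16755464)) (l 16763280))) (b (l 1) (a (l 555157178647) (b (l 1) (l 16322168)))))), by decide +kernel⟩

theorem c_pp_112 : CertFX 536870912 536870912 1073741824 536870912 1046898278 26843546 false true true .dn 1 1 2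
    ndF3q1 ndF3q2 pcF1 Cut.none Ext.none :=
  certFX2 (fam := false) (s1 := true) (s2 := true) (a := 1) (b := 1) (c := 2) (cn := .dn) (n1 := ndF3q1) (n2 := ndF3q2) (pc := pcF1) (cut := Cut.none) (xt := Ext.none) (P1 := 536870912) (W1 := 536870912) (P2 := 1073741824) (W2 := 536870912) (P3 := 1046898278) (W3 := 26843546)
    rfl (fun _ => rfl) k0_pp_112

noncomputable def f_pp_113 : ℕ → ℕ → ℕ → ℕ → Bool := onCell 536870912 536870912 536870912 536870912 1046898278 26843546
    (rowFX 1 false true true .nn 1 1 3 (qsf 536870912 536870912 1610612736 536870912 1) ndF3q1 ndF3q3 pcF1 Cut.none Ext.none)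

def k0_pp_113 : ∃ t, chk3 f_pp_113 t 1 1 1 = true :=
  ⟨(b (a (b (l 1) (b (l 1) (l 702260707287))) (a (b (a (l 1) (l 603475930791)) (a (l 16775704) (l 16685864))) (b (a (a (l 15910368) (l 15284048)) (a (l 448315985351) (c (l 13974584) (l 466031408167)))) (a (a (l 15910368) (l 15284048)) (a (l 14617600) (b (l 13983624) (l 13983624))))))) (b (a (b (l 16773296) (l 16882848)) (a (b (l 16737848) (a (l 16762048) (l 16685552))) (b (a (l 15624304) (l 14375856)) (a (l 15616624) (a (l 14622104) (l 13959184)))))) (a (b (a (l 16611408) (l 16620952)) (a (l 16378096) (b (l 16400888) (l 16143528)))) (a (b (a (l 16535264) (l 16327416)) (b (l 15900088) (l 15400656))) (b (a (l 15159952) (a (l 14098424) (l 13379072))) (b (a (l 14508024) (a (l 13520432) (l 12982248))) (a (l 13950624) (a (l 13173960) (b (l 13185008) (c (l 15699592) (l 12671320))))))))))), by decide +kernel⟩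

theorem c_pp_113 : CertFX 536870912 536870912 1610612736 536870912 1046898278 26843546 false true true .nn 1 1 3
    ndF3q1 ndF3q3 pcF1 Cut.none Ext.none :=
  certFX1 (fam := false) (s1 := true) (s2 := true) (a := 1) (b := 1) (c := 3) (cn := .nn) (n1 := ndF3q1) (n2 := ndF3q3) (pc := pcF1) (cut := Cut.none) (xt := Ext.none) (P1 := 536870912) (W1 := 536870912) (P2 := 1610612736) (W2 := 536870912) (P3 := 1046898278) (W3 := 26843546)
    rfl (fun _ => rfl) k0_pp_113

noncomputable def f_pp_123 : ℕ → ℕ → ℕ → ℕ → Bool := onCell 1073741824 536870912 1610612736 536870912 1046898278 26843546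
    (rowFX 2 false true true .npn 1 2 3 (qsf 536870912 536870912 1610612736 536870912 2) ndF3q1 ndF3q3 pcF2 Cut.none Ext.none)

def k0_pp_123 : ∃ t, chk3 f_pp_123 t 1 1 1 = true :=
  ⟨(a (a (b (b (a (l 15602688) (l 15470472)) (a (l 15330168) (l 15368376))) (b (a (b (l 14981840) (l 14708952)) (l 15075280)) (a (b (a (l 13972904) (l 14519016)) (b (l 14557128) (a (l 15030744) (l 14730624)))) (b (l 14856144) (a (b (l 14814256) (l 15420728)) (l 15084152)))))) (b (a (a (a (l 795672529959) (l 796746552791)) (l 784399757383)) (a (l 779568853175) (l 800508443623))) (a (b (l 15459544) (a (b (l 15223680) (l 15250792)) (l 15590240))) (b (l 16238152) (a (l 15896832) (l 16158424)))))) (b (a (b (l 1) (l 714072208951)) (l 1)) (a (a (b (l 16579312) (l 16311960)) (b (l 16770656) (l 16724904))) (b (l 684543966823) (c (l 16735536) (l 16731432)))))), by decide +kernel⟩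

theorem c_pp_123 : CertFX 536870912 536870912 1610612736 536870912 1046898278 26843546 false true true .npn 1 2 3
    ndF3q1 ndF3q3 pcF2 Cut.none Ext.none :=
  certFX2 (fam := false) (s1 := true) (s2 := true) (a := 1) (b := 2) (c := 3) (cn := .npn) (n1 := ndF3q1) (n2 := ndF3q3) (pc := pcF2) (cut := Cut.none) (xt := Ext.none) (P1 := 536870912) (W1 := 536870912) (P2 := 1610612736) (W2 := 536870912) (P3 := 1046898278) (W3 := 26843546)
    rfl (fun _ => rfl) k0_pp_123

noncomputable def f_pp_133 : ℕ → ℕ → ℕ → ℕ → Bool := onCell 1610612736 536870912 1610612736 536870912 1046898278 26843546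
    (rowFX 2 false true true .dn 1 3 3 (qsf 536870912 536870912 1610612736 536870912 3) ndF3q1 ndF3q3 pcF3 Cut.none Ext.none)

def k0_pp_133 : ∃ t, chk3 f_pp_133 t 1 1 1 = true :=
  ⟨(a (b (l 1) (a (b (l 1) (l 4)) (l 1))) (l 1)), by decide +kernel⟩

theorem c_pp_133 : CertFX 536870912 536870912 1610612736 536870912 1046898278 26843546 false true true .dn 1 3 3
    ndF3q1 ndF3q3 pcF3 Cut.none Ext.none :=
  certFX2 (fam := false) (s1 := true) (s2 := true) (a := 1) (b := 3) (c := 3) (cn := .dn) (n1 := ndF3q1) (n2 := ndF3q3) (pc := pcF3) (cut := Cut.none) (xt := Ext.none) (P1 := 536870912) (W1 := 536870912) (P2 := 1610612736) (W2 := 536870912) (P3 := 1046898278) (W3 := 26843546)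
    rfl (fun _ => rfl) k0_pp_133

noncomputable def f_pp_202 : ℕ → ℕ → ℕ → ℕ → Bool := onCell 1073741824 536870912 1073741824 536870912 1046898278 26843546
    (rowFX 0 false true true .pp 2 0 2 (qsf 1073741824 536870912 1073741824 536870912 0) ndF3q2 ndF3q2 pcF0 Cut.none Ext.none)

def k0_pp_202 : ∃ t, chk3 f_pp_202 t 1 1 1 = true :=
  ⟨(l 3), by decide +kernel⟩

theorem c_pp_202 : CertFX 1073741824 536870912 1073741824 536870912 1046898278 26843546 false true true .pp 2 0 2
    ndF3q2 ndF3q2 pcF0 Cut.none Ext.none :=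
  certFX0 (fam := false) (s1 := true) (s2 := true) (a := 2) (b := 0) (c := 2) (cn := .pp) (n1 := ndF3q2) (n2 := ndF3q2) (pc := pcF0) (cut := Cut.none) (xt := Ext.none) (P1 := 1073741824) (W1 := 536870912) (P2 := 1073741824) (W2 := 536870912) (P3 := 1046898278) (W3 := 26843546)
    rfl k0_pp_202

noncomputable def f_pp_203 : ℕ → ℕ → ℕ → ℕ → Bool := onCell 1073741824 536870912 0 536870912 1046898278 26843546
    (rowFX 1 false true true .up 2 0 3 (qsf 1073741824 536870912 1610612736 536870912 0) ndF3q2 ndF3q3 pcF0 Cut.none Ext.none)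

def k0_pp_203 : ∃ t, chk3 f_pp_203 t 1 1 1 = true :=
  ⟨(l 3), by decide +kernel⟩

theorem c_pp_203 : CertFX 1073741824 536870912 1610612736 536870912 1046898278 26843546 false true true .up 2 0 3
    ndF3q2 ndF3q3 pcF0 Cut.none Ext.none :=
  certFX1 (fam := false) (s1 := true) (s2 := true) (a := 2) (b := 0) (c := 3) (cn := .up) (n1 := ndF3q2) (n2 := ndF3q3) (pc := pcF0) (cut := Cut.none) (xt := Ext.none) (P1 := 1073741824) (W1 := 536870912) (P2 := 1610612736) (W2 := 536870912) (P3 := 1046898278) (W3 := 26843546)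
    rfl (fun _ => rfl) k0_pp_203

noncomputable def cut_pp_213 : Cut := Cut.of [[⟨0, 1, 0, 67108864⟩, ⟨1, 1, 0, 67108864⟩, ⟨2, 2, 0, 67108864⟩, ⟨3, 0, 0, 1233125376⟩]]

noncomputable def f_pp_213 : ℕ → ℕ → ℕ → ℕ → Bool := onCell 536870912 536870912 1610612736 536870912 1046898278 26843546
    (rowFX 2 false true true .pnn 2 1 3 (qsf 1073741824 536870912 1610612736 536870912 1) ndF3q2 ndF3q3 pcF1 cut_pp_213 Ext.none)

def k0_pp_213 : ∃ t, chk3 f_pp_213 t 1 1 1 = true :=
  ⟨(a (l 3) (a (l 3) (b (l 1) (b (l 3) (a (l 3) (b (l 3) (b (l 3) (a (l 3) (l 6))))))))), by decide +kernel⟩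

theorem c_pp_213 : CertFX 1073741824 536870912 1610612736 536870912 1046898278 26843546 false true true .pnn 2 1 3
    ndF3q2 ndF3q3 pcF1 cut_pp_213 Ext.none :=
  certFX2 (fam := false) (s1 := true) (s2 := true) (a := 2) (b := 1) (c := 3) (cn := .pnn) (n1 := ndF3q2) (n2 := ndF3q3) (pc := pcF1) (cut := cut_pp_213) (xt := Ext.none) (P1 := 1073741824) (W1 := 536870912) (P2 := 1610612736) (W2 := 536870912) (P3 := 1046898278) (W3 := 26843546)
    rfl (fun _ => rfl) k0_pp_213

noncomputable def f_pp_303 : ℕ → ℕ → ℕ → ℕ → Bool := onCell 1610612736 536870912 1610612736 536870912 1046898278 26843546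
    (rowFX 0 false true true .npn 3 0 3 (qsf 1610612736 536870912 1610612736 536870912 0) ndF3q3 ndF3q3 pcF0 Cut.none Ext.none)

def k0_pp_303 : ∃ t, chk3 f_pp_303 t 1 1 1 = true :=
  ⟨(l 3), by decide +kernel⟩

theorem c_pp_303 : CertFX 1610612736 536870912 1610612736 536870912 1046898278 26843546 false true true .npn 3 0 3
    ndF3q3 ndF3q3 pcF0 Cut.none Ext.none :=
  certFX0 (fam := false) (s1 := true) (s2 := true) (a := 3) (b := 0) (c := 3) (cn := .npn) (n1 := ndF3q3) (n2 := ndF3q3) (pc := pcF0) (cut := Cut.none) (xt := Ext.none) (P1 := 1610612736) (W1 := 536870912) (P2 := 1610612736) (W2 := 536870912) (P3 := 1046898278) (W3 := 26843546)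
    rfl k0_pp_303

noncomputable def f_pp_313 : ℕ → ℕ → ℕ → ℕ → Bool := onCell 1610612736 536870912 1610612736 536870912 1046898278 26843546
    (rowFX 0 false true true .dn 3 1 3 (qsf 1610612736 536870912 1610612736 536870912 1) ndF3q3 ndF3q3 pcF1 Cut.none Ext.none)

def k0_pp_313 : ∃ t, chk3 f_pp_313 t 1 1 1 = true :=
  ⟨(l 3), by decide +kernel⟩

theorem c_pp_313 : CertFX 1610612736 536870912 1610612736 536870912 1046898278 26843546 false true true .dn 3 1 3
    ndF3q3 ndF3q3 pcF1 Cut.none Ext.none :=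
  certFX0 (fam := false) (s1 := true) (s2 := true) (a := 3) (b := 1) (c := 3) (cn := .dn) (n1 := ndF3q3) (n2 := ndF3q3) (pc := pcF1) (cut := Cut.none) (xt := Ext.none) (P1 := 1610612736) (W1 := 536870912) (P2 := 1610612736) (W2 := 536870912) (P3 := 1046898278) (W3 := 26843546)
    rfl k0_pp_313

noncomputable def f_pm_001 : ℕ → ℕ → ℕ → ℕ → Bool := onCell 0 536870912 536870912 536870912 1046898278 26843546
    (rowFX 0 false true false .up 0 0 1 (qsf 0 536870912 536870912 536870912 0) ndF3q0 ndF3q1 pcF0 Cut.none Ext.none)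

def k0_pm_001 : ∃ t, chk3 f_pm_001 t 1 1 1 = true :=
  ⟨(l 4), by decide +kernel⟩

theorem c_pm_001 : CertFX 0 536870912 536870912 536870912 1046898278 26843546 false true false .up 0 0 1
    ndF3q0 ndF3q1 pcF0 Cut.none Ext.none :=
  certFX0 (fam := false) (s1 := true) (s2 := false) (a := 0) (b := 0) (c := 1) (cn := .up) (n1 := ndF3q0) (n2 := ndF3q1) (pc := pcF0) (cut := Cut.none) (xt := Ext.none) (P1 := 0) (W1 := 536870912) (P2 := 536870912) (W2 := 536870912) (P3 := 1046898278) (W3 := 26843546)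
    rfl k0_pm_001

noncomputable def f_pm_011 : ℕ → ℕ → ℕ → ℕ → Bool := onCell 0 536870912 536870912 536870912 1046898278 26843546
    (rowFX 0 false true false .pnn 0 1 1 (qsf 0 536870912 536870912 536870912 1) ndF3q0 ndF3q1 pcF1 Cut.none Ext.none)

def k0_pm_011 : ∃ t, chk3 f_pm_011 t 1 1 1 = true :=
  ⟨(l 4), by decide +kernel⟩

theorem c_pm_011 : CertFX 0 536870912 536870912 536870912 1046898278 26843546 false true false .pnn 0 1 1
    ndF3q0 ndF3q1 pcF1 Cut.none Ext.none :=
  certFX0 (fam := false) (s1 := true) (s2 := false) (a := 0) (b := 1) (c := 1) (cn := .pnn) (n1 := ndF3q0) (n2 := ndF3q1) (pc := pcF1) (cut := Cut.none) (xt := Ext.none) (P1 := 0) (W1 := 536870912) (P2 := 536870912) (W2 := 536870912) (P3 := 1046898278) (W3 := 26843546)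
    rfl k0_pm_011

noncomputable def cut_pm_012 : Cut := Cut.of [[⟨0, 0, 0, 67108864⟩, ⟨1, 1, 0, 67108864⟩, ⟨2, 1, 0, 67108864⟩]]

noncomputable def f_pm_012 : ℕ → ℕ → ℕ → ℕ → Bool := onCell 0 536870912 1073741824 536870912 1046898278 26843546
    (rowFX 0 false true false .pnp 0 1 2 (qsf 0 536870912 1073741824 536870912 1) ndF3q0 ndF3q2 pcF1 cut_pm_012 Ext.none)

def k0_pm_012 : ∃ t, chk3 f_pm_012 t 1 1 1 = true :=
  ⟨(a (b (a (b (a (a (b (b (l 6) (l 4)) (l 2)) (l 4)) (l 4)) (l 4)) (l 4)) (l 4)) (l 4)), by decide +kernel⟩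

theorem c_pm_012 : CertFX 0 536870912 1073741824 536870912 1046898278 26843546 false true false .pnp 0 1 2
    ndF3q0 ndF3q2 pcF1 cut_pm_012 Ext.none :=
  certFX0 (fam := false) (s1 := true) (s2 := false) (a := 0) (b := 1) (c := 2) (cn := .pnp) (n1 := ndF3q0) (n2 := ndF3q2) (pc := pcF1) (cut := cut_pm_012) (xt := Ext.none) (P1 := 0) (W1 := 536870912) (P2 := 1073741824) (W2 := 536870912) (P3 := 1046898278) (W3 := 26843546)
    rfl k0_pm_012

noncomputable def cut_pm_022 : Cut := Cut.of [[⟨0, 0, 0, 67108864⟩, ⟨1, 1, 0, 67108864⟩, ⟨2, 1, 0, 67108864⟩]]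

noncomputable def f_pm_022 : ℕ → ℕ → ℕ → ℕ → Bool := onCell 0 536870912 1073741824 536870912 1046898278 26843546
    (rowFX 0 false true false .pp 0 2 2 (qsf 0 536870912 1073741824 536870912 2) ndF3q0 ndF3q2 pcF2 cut_pm_022 Ext.none)

def k0_pm_022 : ∃ t, chk3 f_pm_022 t 1 1 1 = true :=
  ⟨(b (a (b (a (a (b (a (b (l 6) (l 4)) (l 4)) (l 4)) (l 4)) (l 4)) (l 4)) (l 4)) (l 4)), by decide +kernel⟩

theorem c_pm_022 : CertFX 0 536870912 1073741824 536870912 1046898278 26843546 false true false .pp 0 2 2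
    ndF3q0 ndF3q2 pcF2 cut_pm_022 Ext.none :=
  certFX0 (fam := false) (s1 := true) (s2 := false) (a := 0) (b := 2) (c := 2) (cn := .pp) (n1 := ndF3q0) (n2 := ndF3q2) (pc := pcF2) (cut := cut_pm_022) (xt := Ext.none) (P1 := 0) (W1 := 536870912) (P2 := 1073741824) (W2 := 536870912) (P3 := 1046898278) (W3 := 26843546)
    rfl k0_pm_022

noncomputable def f_pm_023 : ℕ → ℕ → ℕ → ℕ → Bool := onCell 0 536870912 1610612736 536870912 1046898278 26843546
    (rowFX 0 false true false .up 0 2 3 (qsf 0 536870912 1610612736 536870912 2) ndF3q0 ndF3q3 pcF2 Cut.none Ext.none)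

def k0_pm_023 : ∃ t, chk3 f_pm_023 t 1 1 1 = true :=
  ⟨(l 4), by decide +kernel⟩

theorem c_pm_023 : CertFX 0 536870912 1610612736 536870912 1046898278 26843546 false true false .up 0 2 3
    ndF3q0 ndF3q3 pcF2 Cut.none Ext.none :=
  certFX0 (fam := false) (s1 := true) (s2 := false) (a := 0) (b := 2) (c := 3) (cn := .up) (n1 := ndF3q0) (n2 := ndF3q3) (pc := pcF2) (cut := Cut.none) (xt := Ext.none) (P1 := 0) (W1 := 536870912) (P2 := 1610612736) (W2 := 536870912) (P3 := 1046898278) (W3 := 26843546)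
    rfl k0_pm_023

noncomputable def f_pm_033 : ℕ → ℕ → ℕ → ℕ → Bool := onCell 0 536870912 1610612736 536870912 1046898278 26843546
    (rowFX 0 false true false .pnn 0 3 3 (qsf 0 536870912 1610612736 536870912 3) ndF3q0 ndF3q3 pcF3 Cut.none Ext.none)

def k0_pm_033 : ∃ t, chk3 f_pm_033 t 1 1 1 = true :=
  ⟨(l 4), by decide +kernel⟩

theorem c_pm_033 : CertFX 0 536870912 1610612736 536870912 1046898278 26843546 false true false .pnn 0 3 3
    ndF3q0 ndF3q3 pcF3 Cut.none Ext.none :=
  certFX0 (fam := false) (s1 := true) (s2 := false) (a := 0) (b := 3) (c := 3) (cn := .pnn) (n1 := ndF3q0) (n2 := ndF3q3) (pc := pcF3) (cut := Cut.none) (xt := Ext.none) (P1 := 0) (W1 := 536870912) (P2 := 1610612736) (W2 := 536870912) (P3 := 1046898278) (W3 := 26843546)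
    rfl k0_pm_033

noncomputable def f_pm_101 : ℕ → ℕ → ℕ → ℕ → Bool := onCell 536870912 536870912 536870912 536870912 1046898278 26843546
    (rowFX 0 false true false .npn 1 0 1 (qsf 536870912 536870912 536870912 536870912 0) ndF3q1 ndF3q1 pcF0 Cut.none Ext.none)

def k0_pm_101 : ∃ t, chk3 f_pm_101 t 1 1 1 = true :=
  ⟨(l 4), by decide +kernel⟩

theorem c_pm_101 : CertFX 536870912 536870912 536870912 536870912 1046898278 26843546 false true false .npn 1 0 1
    ndF3q1 ndF3q1 pcF0 Cut.none Ext.none :=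
  certFX0 (fam := false) (s1 := true) (s2 := false) (a := 1) (b := 0) (c := 1) (cn := .npn) (n1 := ndF3q1) (n2 := ndF3q1) (pc := pcF0) (cut := Cut.none) (xt := Ext.none) (P1 := 536870912) (W1 := 536870912) (P2 := 536870912) (W2 := 536870912) (P3 := 1046898278) (W3 := 26843546)
    rfl k0_pm_101

noncomputable def f_pm_102 : ℕ → ℕ → ℕ → ℕ → Bool := onCell 536870912 536870912 1073741824 536870912 1046898278 26843546
    (rowFX 0 false true false .npp 1 0 2 (qsf 536870912 536870912 1073741824 536870912 0) ndF3q1 ndF3q2 pcF0 Cut.none Ext.none)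

def k0_pm_102 : ∃ t, chk3 f_pm_102 t 1 1 1 = true :=
  ⟨(l 4), by decide +kernel⟩

theorem c_pm_102 : CertFX 536870912 536870912 1073741824 536870912 1046898278 26843546 false true false .npp 1 0 2
    ndF3q1 ndF3q2 pcF0 Cut.none Ext.none :=
  certFX0 (fam := false) (s1 := true) (s2 := false) (a := 1) (b := 0) (c := 2) (cn := .npp) (n1 := ndF3q1) (n2 := ndF3q2) (pc := pcF0) (cut := Cut.none) (xt := Ext.none) (P1 := 536870912) (W1 := 536870912) (P2 := 1073741824) (W2 := 536870912) (P3 := 1046898278) (W3 := 26843546)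
    rfl k0_pm_102

noncomputable def f_pm_112 : ℕ → ℕ → ℕ → ℕ → Bool := onCell 536870912 536870912 1073741824 536870912 1046898278 26843546
    (rowFX 0 false true false .dn 1 1 2 (qsf 536870912 536870912 1073741824 536870912 1) ndF3q1 ndF3q2 pcF1 Cut.none Ext.none)

def k0_pm_112 : ∃ t, chk3 f_pm_112 t 1 1 1 = true :=
  ⟨(l 4), by decide +kernel⟩

theorem c_pm_112 : CertFX 536870912 536870912 1073741824 536870912 1046898278 26843546 false true false .dn 1 1 2
    ndF3q1 ndF3q2 pcF1 Cut.none Ext.none :=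
  certFX0 (fam := false) (s1 := true) (s2 := false) (a := 1) (b := 1) (c := 2) (cn := .dn) (n1 := ndF3q1) (n2 := ndF3q2) (pc := pcF1) (cut := Cut.none) (xt := Ext.none) (P1 := 536870912) (W1 := 536870912) (P2 := 1073741824) (W2 := 536870912) (P3 := 1046898278) (W3 := 26843546)
    rfl k0_pm_112

noncomputable def f_pm_113 : ℕ → ℕ → ℕ → ℕ → Bool := onCell 536870912 536870912 536870912 536870912 1046898278 26843546
    (rowFX 1 false true false .nn 1 1 3 (qsf 536870912 536870912 1610612736 536870912 1) ndF3q1 ndF3q3 pcF1 Cut.none Ext.none)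

def k0_pm_113 : ∃ t, chk3 f_pm_113 t 1 1 1 = true :=
  ⟨(b (l 4) (b (l 4) (a (l 4) (a (l 4) (b (l 4) (a (l 4) (b (l 4) (b (l 4) (c (l 13804656) (l 12150992)))))))))), by decide +kernel⟩

theorem c_pm_113 : CertFX 536870912 536870912 1610612736 536870912 1046898278 26843546 false true false .nn 1 1 3
    ndF3q1 ndF3q3 pcF1 Cut.none Ext.none :=
  certFX1 (fam := false) (s1 := true) (s2 := false) (a := 1) (b := 1) (c := 3) (cn := .nn) (n1 := ndF3q1) (n2 := ndF3q3) (pc := pcF1) (cut := Cut.none) (xt := Ext.none) (P1 := 536870912) (W1 := 536870912) (P2 := 1610612736) (W2 := 536870912) (P3 := 1046898278) (W3 := 26843546)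
    rfl (fun _ => rfl) k0_pm_113

noncomputable def f_pm_123 : ℕ → ℕ → ℕ → ℕ → Bool := onCell 536870912 536870912 1610612736 536870912 1046898278 26843546
    (rowFX 0 false true false .npn 1 2 3 (qsf 536870912 536870912 1610612736 536870912 2) ndF3q1 ndF3q3 pcF2 Cut.none Ext.none)

def k0_pm_123 : ∃ t, chk3 f_pm_123 t 1 1 1 = true :=
  ⟨(a (l 4) (b (l 4) (a (l 4) (b (l 4) (a (l 4) (b (l 4) (a (l 4) (c (l 16679920) (l 14592168))))))))), by decide +kernel⟩

theorem c_pm_123 : CertFX 536870912 536870912 1610612736 536870912 1046898278 26843546 false true false .npn 1 2 3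
    ndF3q1 ndF3q3 pcF2 Cut.none Ext.none :=
  certFX0 (fam := false) (s1 := true) (s2 := false) (a := 1) (b := 2) (c := 3) (cn := .npn) (n1 := ndF3q1) (n2 := ndF3q3) (pc := pcF2) (cut := Cut.none) (xt := Ext.none) (P1 := 536870912) (W1 := 536870912) (P2 := 1610612736) (W2 := 536870912) (P3 := 1046898278) (W3 := 26843546)
    rfl k0_pm_123

noncomputable def f_pm_133 : ℕ → ℕ → ℕ → ℕ → Bool := onCell 536870912 536870912 1610612736 536870912 1046898278 26843546
    (rowFX 0 false true false .dn 1 3 3 (qsf 536870912 536870912 1610612736 536870912 3) ndF3q1 ndF3q3 pcF3 Cut.none Ext.none)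

def k0_pm_133 : ∃ t, chk3 f_pm_133 t 1 1 1 = true :=
  ⟨(a (l 4) (l 1)), by decide +kernel⟩

theorem c_pm_133 : CertFX 536870912 536870912 1610612736 536870912 1046898278 26843546 false true false .dn 1 3 3
    ndF3q1 ndF3q3 pcF3 Cut.none Ext.none :=
  certFX0 (fam := false) (s1 := true) (s2 := false) (a := 1) (b := 3) (c := 3) (cn := .dn) (n1 := ndF3q1) (n2 := ndF3q3) (pc := pcF3) (cut := Cut.none) (xt := Ext.none) (P1 := 536870912) (W1 := 536870912) (P2 := 1610612736) (W2 := 536870912) (P3 := 1046898278) (W3 := 26843546)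
    rfl k0_pm_133

noncomputable def cut_pm_202 : Cut := Cut.of [[⟨0, 1, 0, 67108864⟩, ⟨1, 0, 0, 67108864⟩, ⟨2, 1, 0, 67108864⟩, ⟨3, 0, 0, 1317011456⟩]]

noncomputable def f_pm_202 : ℕ → ℕ → ℕ → ℕ → Bool := onCell 1073741824 536870912 0 536870912 1046898278 26843546
    (rowFX 1 false true false .pp 2 0 2 (qsf 1073741824 536870912 1073741824 536870912 0) ndF3q2 ndF3q2 pcF0 cut_pm_202 Ext.none)

def k0_pm_202 : ∃ t, chk3 f_pm_202 t 2 2 1 = true :=
  ⟨(b (a (a (b (b (a (a (l 6) (b (l 3) (l 3))) (l 3)) (a (a (a (b (l 6) (a (a (a (b (l 6) (b (l 6) (c (c (l 16559336) (l 16575656)) (l 16571928)))) (l 3)) (l 3)) (l 3))) (l 3)) (l 3)) (l 3))) (a (a (a (a (a (a (b (b (c (b (l 16528040) (l 16445008)) (b (l 16502320) (l 16436968))) (c (l 16188304) (c (l 16284736) (l 16172976)))) (a (b (a (c (b (c (l 16143952) (l 16136224)) (l 16042864)) (c (l 16067776) (b (b (l 16146784) (b (l 16108808) (l 16080560))) (l 15935296)))) (b (l 3) (l 3))) (b (c (l 15918568) (c (l 15880792) (l 15848176))) (c (l 15783800)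 (l 15757720)))) (b (l 3) (l 3)))) (b (b (l 3) (l 3)) (b (l 3) (l 3)))) (b (b (l 3) (l 3)) (l 3))) (b (l 3) (l 3))) (b (l 3) (l 3))) (l 3)) (l 3))) (b (l 3) (l 3))) (l 3)) (a (a (a (b (a (a (a (a (b (a (b (c (l 15693352) (c (l 15602296) (l 15585744))) (c (b (l 15469888) (l 15407520)) (b (l 15433664) (c (l 15400968) (l 15381328))))) (b (l 3) (l 3))) (b (c (l 15521424) (l 15442952)) (c (l 15625992) (l 15592632)))) (b (l 3) (l 3))) (b (l 3) (l 3))) (l 3)) (l 3)) (a (a (a (a (a (b (c (c (l 15765832) (l 15752560)) (c (l 15739280) (l 15640840))) (c (b (c (l 15813128) (l 15800656)) (l 15774856)) (b (b (l 15805840) (l 15756592)) (l 15747936)))) (b (l 3) (l 3))) (b (l 3) (l 3))) (l 3)) (l 3)) (l 3))) (l 3)) (l 3)) (l 3))), by decide +kernel⟩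

def k1_pm_202 : ∃ t, chk3 f_pm_202 t 2 3 1 = true :=
  ⟨(a (a (b (a (a (a (c (b (b (l 15822256) (l 15822256)) (b (l 15822256) (l 15822256))) (a (b (c (b (l 15776024) (l 15776024)) (c (l 15762152) (b (l 15746456) (l 15746456)))) (c (b (l 15776024) (l 15776024)) (b (c (l 15762152) (l 15746456)) (l 15753296)))) (b (l 3) (l 3)))) (b (l 3) (l 3))) (l 3)) (l 3)) (a (a (a (a (c (b (b (l 15795520) (l 15795520)) (c (l 15801896) (l 15789144))) (b (c (l 15776024) (c (l 15762152) (l 15746456))) (c (l 15776024) (c (l 15762152) (b (l 15746456) (l 15746456)))))) (b (l 3) (l 3))) (b (l 3) (l 3))) (l 3)) (l 3))) (l 3)) (l 3)), by decide +kernel⟩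

def k2_pm_202 : ∃ t, chk3 f_pm_202 t 3 1 1 = true :=
  ⟨(b (l 3) (l 3)), by decide +kernel⟩

theorem s3_pm_202 : ∃ t, chk3 f_pm_202 t 2 1 1 = true := ex3_b k0_pm_202 k1_pm_202

theorem s4_pm_202 : ∃ t, chk3 f_pm_202 t 1 1 1 = true := ex3_a s3_pm_202 k2_pm_202

theorem c_pm_202 : CertFX 1073741824 536870912 1073741824 536870912 1046898278 26843546 false true false .pp 2 0 2
    ndF3q2 ndF3q2 pcF0 cut_pm_202 Ext.none :=
  certFX1 (fam := false) (s1 := true) (s2 := false) (a := 2) (b := 0) (c := 2) (cn := .pp) (n1 := ndF3q2) (n2 := ndF3q2) (pc := pcF0) (cut := cut_pm_202) (xt := Ext.none) (P1 := 1073741824) (W1 := 536870912) (P2 := 1073741824) (W2 := 536870912) (P3 := 1046898278) (W3 := 26843546)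
    rfl (fun _ => rfl) s4_pm_202

noncomputable def f_pm_203 : ℕ → ℕ → ℕ → ℕ → Bool := onCell 0 536870912 1610612736 536870912 1046898278 26843546
    (rowFX 2 false true false .up 2 0 3 (qsf 1073741824 536870912 1610612736 536870912 0) ndF3q2 ndF3q3 pcF0 Cut.none Ext.none)

def k0_pm_203 : ∃ t, chk3 f_pm_203 t 1 1 1 = true :=
  ⟨(b (a (l 3) (a (l 3) (b (a (l 3) (a (l 3) (a (l 3) (b (a (l 3) (b (b (c (l 15884184) (c (l 15836824) (c (l 15812312) (l 15777024)))) (l 3)) (l 3))) (l 3))))) (l 3)))) (l 3)), by decide +kernel⟩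

theorem c_pm_203 : CertFX 1073741824 536870912 1610612736 536870912 1046898278 26843546 false true false .up 2 0 3
    ndF3q2 ndF3q3 pcF0 Cut.none Ext.none :=
  certFX2 (fam := false) (s1 := true) (s2 := false) (a := 2) (b := 0) (c := 3) (cn := .up) (n1 := ndF3q2) (n2 := ndF3q3) (pc := pcF0) (cut := Cut.none) (xt := Ext.none) (P1 := 1073741824) (W1 := 536870912) (P2 := 1610612736) (W2 := 536870912) (P3 := 1046898278) (W3 := 26843546)
    rfl (fun _ => rfl) k0_pm_203

noncomputable def cut_pm_213 : Cut := Cut.of [[⟨0, 1, 0, 67108864⟩, ⟨1, 1, 0, 67108864⟩, ⟨2, 2, 0, 67108864⟩, ⟨3, 0, 0, 1233125376⟩]]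

noncomputable def f_pm_213 : ℕ → ℕ → ℕ → ℕ → Bool := onCell 1073741824 536870912 1610612736 536870912 1046898278 26843546
    (rowFX 0 false true false .pnn 2 1 3 (qsf 1073741824 536870912 1610612736 536870912 1) ndF3q2 ndF3q3 pcF1 cut_pm_213 Ext.none)

def k0_pm_213 : ∃ t, chk3 f_pm_213 t 1 1 1 = true :=
  ⟨(a (a (b (a (b (a (a (a (a (b (c (l 15795520) (c (l 15776024) (c (l 15762152) (b (l 15725480) (l 15746456))))) (a (c (l 15750296) (c (l 15762360) (b (l 15745648) (l 15745648)))) (l 3))) (b (l 3) (l 3))) (l 3)) (l 3)) (l 3)) (a (a (a (c (b (l 15822256) (l 15822256)) (b (c (l 15795144) (c (l 15773632) (l 15756632))) (c (l 15795144) (l 15743160)))) (l 3)) (l 3)) (l 3))) (l 3)) (a (a (a (a (a (b (a (b (c (l 15781768) (l 15753360)) (b (c (l 15781808) (l 15753416)) (b (l 15767144) (c (l 15765568) (l 15732888))))) (b (l 3) (l 3))) (b (a (b (b (l 15670416) (b (l 15609288) (l 15575696))) (b (c (l 15603456) (l 15481840)) (c (l 15592536) (l 15417248)))) (l 3)) (b (b (a (a (b (c (l 15591712)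 (l 15346176)) (l 6)) (l 3)) (l 3)) (l 6)) (l 6)))) (b (b (l 3) (l 3)) (b (l 3) (l 3)))) (b (l 3) (b (l 3) (l 3)))) (b (l 3) (l 3))) (b (l 3) (l 3))) (l 3))) (b (l 3) (l 3))) (b (l 3) (l 3))), by decide +kernel⟩

theorem c_pm_213 : CertFX 1073741824 536870912 1610612736 536870912 1046898278 26843546 false true false .pnn 2 1 3
    ndF3q2 ndF3q3 pcF1 cut_pm_213 Ext.none :=
  certFX0 (fam := false) (s1 := true) (s2 := false) (a := 2) (b := 1) (c := 3) (cn := .pnn) (n1 := ndF3q2) (n2 := ndF3q3) (pc := pcF1) (cut := cut_pm_213) (xt := Ext.none) (P1 := 1073741824) (W1 := 536870912) (P2 := 1610612736) (W2 := 536870912) (P3 := 1046898278) (W3 := 26843546)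
    rfl k0_pm_213

noncomputable def f_pm_303 : ℕ → ℕ → ℕ → ℕ → Bool := onCell 1610612736 536870912 1610612736 536870912 1046898278 26843546
    (rowFX 0 false true false .npn 3 0 3 (qsf 1610612736 536870912 1610612736 536870912 0) ndF3q3 ndF3q3 pcF0 Cut.none Ext.none)

def k0_pm_303 : ∃ t, chk3 f_pm_303 t 1 1 1 = true :=
  ⟨(a (l 3) (l 3)), by decide +kernel⟩

theorem c_pm_303 : CertFX 1610612736 536870912 1610612736 536870912 1046898278 26843546 false true false .npn 3 0 3
    ndF3q3 ndF3q3 pcF0 Cut.none Ext.none :=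
  certFX0 (fam := false) (s1 := true) (s2 := false) (a := 3) (b := 0) (c := 3) (cn := .npn) (n1 := ndF3q3) (n2 := ndF3q3) (pc := pcF0) (cut := Cut.none) (xt := Ext.none) (P1 := 1610612736) (W1 := 536870912) (P2 := 1610612736) (W2 := 536870912) (P3 := 1046898278) (W3 := 26843546)
    rfl k0_pm_303

noncomputable def f_pm_313 : ℕ → ℕ → ℕ → ℕ → Bool := onCell 1610612736 536870912 1610612736 536870912 1046898278 26843546
    (rowFX 0 false true false .dn 3 1 3 (qsf 1610612736 536870912 1610612736 536870912 1) ndF3q3 ndF3q3 pcF1 Cut.none Ext.none)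

def k0_pm_313 : ∃ t, chk3 f_pm_313 t 1 1 1 = true :=
  ⟨(a (l 3) (l 1)), by decide +kernel⟩

theorem c_pm_313 : CertFX 1610612736 536870912 1610612736 536870912 1046898278 26843546 false true false .dn 3 1 3
    ndF3q3 ndF3q3 pcF1 Cut.none Ext.none :=
  certFX0 (fam := false) (s1 := true) (s2 := false) (a := 3) (b := 1) (c := 3) (cn := .dn) (n1 := ndF3q3) (n2 := ndF3q3) (pc := pcF1) (cut := Cut.none) (xt := Ext.none) (P1 := 1610612736) (W1 := 536870912) (P2 := 1610612736) (W2 := 536870912) (P3 := 1046898278) (W3 := 26843546)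
    rfl k0_pm_313

noncomputable def f_mm_001 : ℕ → ℕ → ℕ → ℕ → Bool := onCell 0 536870912 0 536870912 1046898278 26843546
    (rowFX 1 false false false .up 0 0 1 (qsf 0 536870912 536870912 536870912 0) ndF3q0 ndF3q1 pcF0 Cut.none Ext.none)

def k0_mm_001 : ∃ t, chk3 f_mm_001 t 1 1 1 = true :=
  ⟨(l 3), by decide +kernel⟩

theorem c_mm_001 : CertFX 0 536870912 536870912 536870912 1046898278 26843546 false false false .up 0 0 1
    ndF3q0 ndF3q1 pcF0 Cut.none Ext.none :=
  certFX1 (fam := false) (s1 := false) (s2 := false) (a := 0) (b := 0) (c := 1) (cn := .up) (n1 := ndF3q0) (n2 := ndF3q1) (pc := pcF0) (cut := Cut.none) (xt := Ext.none) (P1 := 0) (W1 := 536870912) (P2 := 536870912) (W2 := 536870912) (P3 := 1046898278) (W3 := 26843546)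
    rfl (fun _ => rfl) k0_mm_001

noncomputable def f_mm_011 : ℕ → ℕ → ℕ → ℕ → Bool := onCell 0 536870912 536870912 536870912 1046898278 26843546
    (rowFX 1 false false false .pnn 0 1 1 (qsf 0 536870912 536870912 536870912 1) ndF3q0 ndF3q1 pcF1 Cut.none Ext.none)

def k0_mm_011 : ∃ t, chk3 f_mm_011 t 1 1 1 = true :=
  ⟨(l 5), by decide +kernel⟩

theorem c_mm_011 : CertFX 0 536870912 536870912 536870912 1046898278 26843546 false false false .pnn 0 1 1
    ndF3q0 ndF3q1 pcF1 Cut.none Ext.none :=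
  certFX1 (fam := false) (s1 := false) (s2 := false) (a := 0) (b := 1) (c := 1) (cn := .pnn) (n1 := ndF3q0) (n2 := ndF3q1) (pc := pcF1) (cut := Cut.none) (xt := Ext.none) (P1 := 0) (W1 := 536870912) (P2 := 536870912) (W2 := 536870912) (P3 := 1046898278) (W3 := 26843546)
    rfl (fun _ => rfl) k0_mm_011

noncomputable def f_mm_012 : ℕ → ℕ → ℕ → ℕ → Bool := onCell 0 536870912 1073741824 536870912 1046898278 26843546
    (rowFX 0 false false false .pnp 0 1 2 (qsf 0 536870912 1073741824 536870912 1) ndF3q0 ndF3q2 pcF1 Cut.none Ext.none)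

def k0_mm_012 : ∃ t, chk3 f_mm_012 t 1 1 1 = true :=
  ⟨(l 5), by decide +kernel⟩

theorem c_mm_012 : CertFX 0 536870912 1073741824 536870912 1046898278 26843546 false false false .pnp 0 1 2
    ndF3q0 ndF3q2 pcF1 Cut.none Ext.none :=
  certFX0 (fam := false) (s1 := false) (s2 := false) (a := 0) (b := 1) (c := 2) (cn := .pnp) (n1 := ndF3q0) (n2 := ndF3q2) (pc := pcF1) (cut := Cut.none) (xt := Ext.none) (P1 := 0) (W1 := 536870912) (P2 := 1073741824) (W2 := 536870912) (P3 := 1046898278) (W3 := 26843546)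
    rfl k0_mm_012

noncomputable def f_mm_022 : ℕ → ℕ → ℕ → ℕ → Bool := onCell 0 536870912 1073741824 536870912 1046898278 26843546
    (rowFX 0 false false false .pp 0 2 2 (qsf 0 536870912 1073741824 536870912 2) ndF3q0 ndF3q2 pcF2 Cut.none Ext.none)

def k0_mm_022 : ∃ t, chk3 f_mm_022 t 1 1 1 = true :=
  ⟨(l 5), by decide +kernel⟩

theorem c_mm_022 : CertFX 0 536870912 1073741824 536870912 1046898278 26843546 false false false .pp 0 2 2
    ndF3q0 ndF3q2 pcF2 Cut.none Ext.none :=
  certFX0 (fam := false) (s1 := false) (s2 := false) (a := 0) (b := 2) (c := 2) (cn := .pp) (n1 := ndF3q0) (n2 := ndF3q2) (pc := pcF2) (cut := Cut.none) (xt := Ext.none) (P1 := 0) (W1 := 536870912) (P2 := 1073741824) (W2 := 536870912) (P3 := 1046898278) (W3 := 26843546)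
    rfl k0_mm_022

noncomputable def f_mm_023 : ℕ → ℕ → ℕ → ℕ → Bool := onCell 0 536870912 1610612736 536870912 1046898278 26843546
    (rowFX 0 false false false .up 0 2 3 (qsf 0 536870912 1610612736 536870912 2) ndF3q0 ndF3q3 pcF2 Cut.none Ext.none)

def k0_mm_023 : ∃ t, chk3 f_mm_023 t 1 1 1 = true :=
  ⟨(l 5), by decide +kernel⟩

theorem c_mm_023 : CertFX 0 536870912 1610612736 536870912 1046898278 26843546 false false false .up 0 2 3
    ndF3q0 ndF3q3 pcF2 Cut.none Ext.none :=
  certFX0 (fam := false) (s1 := false) (s2 := false) (a := 0) (b := 2) (c := 3) (cn := .up) (n1 := ndF3q0) (n2 := ndF3q3) (pc := pcF2) (cut := Cut.none) (xt := Ext.none) (P1 := 0) (W1 := 536870912) (P2 := 1610612736) (W2 := 536870912) (P3 := 1046898278) (W3 := 26843546)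
    rfl k0_mm_023

noncomputable def f_mm_033 : ℕ → ℕ → ℕ → ℕ → Bool := onCell 0 536870912 1610612736 536870912 1046898278 26843546
    (rowFX 0 false false false .pnn 0 3 3 (qsf 0 536870912 1610612736 536870912 3) ndF3q0 ndF3q3 pcF3 Cut.none Ext.none)

def k0_mm_033 : ∃ t, chk3 f_mm_033 t 1 1 1 = true :=
  ⟨(l 5), by decide +kernel⟩

theorem c_mm_033 : CertFX 0 536870912 1610612736 536870912 1046898278 26843546 false false false .pnn 0 3 3
    ndF3q0 ndF3q3 pcF3 Cut.none Ext.none :=
  certFX0 (fam := false) (s1 := false) (s2 := false) (a := 0) (b := 3) (c := 3) (cn := .pnn) (n1 := ndF3q0) (n2 := ndF3q3) (pc := pcF3) (cut := Cut.none) (xt := Ext.none) (P1 := 0) (W1 := 536870912) (P2 := 1610612736) (W2 := 536870912) (P3 := 1046898278) (W3 := 26843546)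
    rfl k0_mm_033

noncomputable def f_mm_101 : ℕ → ℕ → ℕ → ℕ → Bool := onCell 536870912 536870912 536870912 536870912 1046898278 26843546
    (rowFX 0 false false false .npn 1 0 1 (qsf 536870912 536870912 536870912 536870912 0) ndF3q1 ndF3q1 pcF0 Cut.none Ext.none)

def k0_mm_101 : ∃ t, chk3 f_mm_101 t 1 1 1 = true :=
  ⟨(l 3), by decide +kernel⟩

theorem c_mm_101 : CertFX 536870912 536870912 536870912 536870912 1046898278 26843546 false false false .npn 1 0 1
    ndF3q1 ndF3q1 pcF0 Cut.none Ext.none :=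
  certFX0 (fam := false) (s1 := false) (s2 := false) (a := 1) (b := 0) (c := 1) (cn := .npn) (n1 := ndF3q1) (n2 := ndF3q1) (pc := pcF0) (cut := Cut.none) (xt := Ext.none) (P1 := 536870912) (W1 := 536870912) (P2 := 536870912) (W2 := 536870912) (P3 := 1046898278) (W3 := 26843546)
    rfl k0_mm_101

noncomputable def f_mm_102 : ℕ → ℕ → ℕ → ℕ → Bool := onCell 536870912 536870912 1073741824 536870912 1046898278 26843546
    (rowFX 0 false false false .npp 1 0 2 (qsf 536870912 536870912 1073741824 536870912 0) ndF3q1 ndF3q2 pcF0 Cut.none Ext.none)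

def k0_mm_102 : ∃ t, chk3 f_mm_102 t 1 1 1 = true :=
  ⟨(l 5), by decide +kernel⟩

theorem c_mm_102 : CertFX 536870912 536870912 1073741824 536870912 1046898278 26843546 false false false .npp 1 0 2
    ndF3q1 ndF3q2 pcF0 Cut.none Ext.none :=
  certFX0 (fam := false) (s1 := false) (s2 := false) (a := 1) (b := 0) (c := 2) (cn := .npp) (n1 := ndF3q1) (n2 := ndF3q2) (pc := pcF0) (cut := Cut.none) (xt := Ext.none) (P1 := 536870912) (W1 := 536870912) (P2 := 1073741824) (W2 := 536870912) (P3 := 1046898278) (W3 := 26843546)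
    rfl k0_mm_102

noncomputable def f_mm_112 : ℕ → ℕ → ℕ → ℕ → Bool := onCell 536870912 536870912 1073741824 536870912 1046898278 26843546
    (rowFX 0 false false false .dn 1 1 2 (qsf 536870912 536870912 1073741824 536870912 1) ndF3q1 ndF3q2 pcF1 Cut.none Ext.none)

def k0_mm_112 : ∃ t, chk3 f_mm_112 t 1 1 1 = true :=
  ⟨(l 5), by decide +kernel⟩

theorem c_mm_112 : CertFX 536870912 536870912 1073741824 536870912 1046898278 26843546 false false false .dn 1 1 2
    ndF3q1 ndF3q2 pcF1 Cut.none Ext.none :=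
  certFX0 (fam := false) (s1 := false) (s2 := false) (a := 1) (b := 1) (c := 2) (cn := .dn) (n1 := ndF3q1) (n2 := ndF3q2) (pc := pcF1) (cut := Cut.none) (xt := Ext.none) (P1 := 536870912) (W1 := 536870912) (P2 := 1073741824) (W2 := 536870912) (P3 := 1046898278) (W3 := 26843546)
    rfl k0_mm_112

noncomputable def f_mm_113 : ℕ → ℕ → ℕ → ℕ → Bool := onCell 536870912 536870912 1610612736 536870912 1046898278 26843546
    (rowFX 0 false false false .nn 1 1 3 (qsf 536870912 536870912 1610612736 536870912 1) ndF3q1 ndF3q3 pcF1 Cut.none Ext.none)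

def k0_mm_113 : ∃ t, chk3 f_mm_113 t 1 1 1 = true :=
  ⟨(l 5), by decide +kernel⟩

theorem c_mm_113 : CertFX 536870912 536870912 1610612736 536870912 1046898278 26843546 false false false .nn 1 1 3
    ndF3q1 ndF3q3 pcF1 Cut.none Ext.none :=
  certFX0 (fam := false) (s1 := false) (s2 := false) (a := 1) (b := 1) (c := 3) (cn := .nn) (n1 := ndF3q1) (n2 := ndF3q3) (pc := pcF1) (cut := Cut.none) (xt := Ext.none) (P1 := 536870912) (W1 := 536870912) (P2 := 1610612736) (W2 := 536870912) (P3 := 1046898278) (W3 := 26843546)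
    rfl k0_mm_113

noncomputable def f_mm_123 : ℕ → ℕ → ℕ → ℕ → Bool := onCell 536870912 536870912 1610612736 536870912 1046898278 26843546
    (rowFX 0 false false false .npn 1 2 3 (qsf 536870912 536870912 1610612736 536870912 2) ndF3q1 ndF3q3 pcF2 Cut.none Ext.none)

def k0_mm_123 : ∃ t, chk3 f_mm_123 t 1 1 1 = true :=
  ⟨(l 5), by decide +kernel⟩

theorem c_mm_123 : CertFX 536870912 536870912 1610612736 536870912 1046898278 26843546 false false false .npn 1 2 3
    ndF3q1 ndF3q3 pcF2 Cut.none Ext.none :=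
  certFX0 (fam := false) (s1 := false) (s2 := false) (a := 1) (b := 2) (c := 3) (cn := .npn) (n1 := ndF3q1) (n2 := ndF3q3) (pc := pcF2) (cut := Cut.none) (xt := Ext.none) (P1 := 536870912) (W1 := 536870912) (P2 := 1610612736) (W2 := 536870912) (P3 := 1046898278) (W3 := 26843546)
    rfl k0_mm_123

noncomputable def f_mm_133 : ℕ → ℕ → ℕ → ℕ → Bool := onCell 536870912 536870912 1610612736 536870912 1046898278 26843546
    (rowFX 0 false false false .dn 1 3 3 (qsf 536870912 536870912 1610612736 536870912 3) ndF3q1 ndF3q3 pcF3 Cut.none Ext.none)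

def k0_mm_133 : ∃ t, chk3 f_mm_133 t 1 1 1 = true :=
  ⟨(l 5), by decide +kernel⟩

theorem c_mm_133 : CertFX 536870912 536870912 1610612736 536870912 1046898278 26843546 false false false .dn 1 3 3
    ndF3q1 ndF3q3 pcF3 Cut.none Ext.none :=
  certFX0 (fam := false) (s1 := false) (s2 := false) (a := 1) (b := 3) (c := 3) (cn := .dn) (n1 := ndF3q1) (n2 := ndF3q3) (pc := pcF3) (cut := Cut.none) (xt := Ext.none) (P1 := 536870912) (W1 := 536870912) (P2 := 1610612736) (W2 := 536870912) (P3 := 1046898278) (W3 := 26843546)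
    rfl k0_mm_133

noncomputable def f_mm_202 : ℕ → ℕ → ℕ → ℕ → Bool := onCell 1073741824 536870912 1073741824 536870912 1046898278 26843546
    (rowFX 0 false false false .pp 2 0 2 (qsf 1073741824 536870912 1073741824 536870912 0) ndF3q2 ndF3q2 pcF0 Cut.none Ext.none)

def k0_mm_202 : ∃ t, chk3 f_mm_202 t 1 1 1 = true :=
  ⟨(l 3), by decide +kernel⟩

theorem c_mm_202 : CertFX 1073741824 536870912 1073741824 536870912 1046898278 26843546 false false false .pp 2 0 2
    ndF3q2 ndF3q2 pcF0 Cut.none Ext.none :=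
  certFX0 (fam := false) (s1 := false) (s2 := false) (a := 2) (b := 0) (c := 2) (cn := .pp) (n1 := ndF3q2) (n2 := ndF3q2) (pc := pcF0) (cut := Cut.none) (xt := Ext.none) (P1 := 1073741824) (W1 := 536870912) (P2 := 1073741824) (W2 := 536870912) (P3 := 1046898278) (W3 := 26843546)
    rfl k0_mm_202

noncomputable def f_mm_203 : ℕ → ℕ → ℕ → ℕ → Bool := onCell 1073741824 536870912 0 536870912 1046898278 26843546
    (rowFX 1 false false false .up 2 0 3 (qsf 1073741824 536870912 1610612736 536870912 0) ndF3q2 ndF3q3 pcF0 Cut.none Ext.none)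

def k0_mm_203 : ∃ t, chk3 f_mm_203 t 1 1 1 = true :=
  ⟨(l 3), by decide +kernel⟩

theorem c_mm_203 : CertFX 1073741824 536870912 1610612736 536870912 1046898278 26843546 false false false .up 2 0 3
    ndF3q2 ndF3q3 pcF0 Cut.none Ext.none :=
  certFX1 (fam := false) (s1 := false) (s2 := false) (a := 2) (b := 0) (c := 3) (cn := .up) (n1 := ndF3q2) (n2 := ndF3q3) (pc := pcF0) (cut := Cut.none) (xt := Ext.none) (P1 := 1073741824) (W1 := 536870912) (P2 := 1610612736) (W2 := 536870912) (P3 := 1046898278) (W3 := 26843546)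
    rfl (fun _ => rfl) k0_mm_203

noncomputable def f_mm_213 : ℕ → ℕ → ℕ → ℕ → Bool := onCell 1073741824 536870912 1610612736 536870912 1046898278 26843546
    (rowFX 0 false false false .pnn 2 1 3 (qsf 1073741824 536870912 1610612736 536870912 1) ndF3q2 ndF3q3 pcF1 Cut.none Ext.none)

def k0_mm_213 : ∃ t, chk3 f_mm_213 t 1 1 1 = true :=
  ⟨(a (l 5) (l 3)), by decide +kernel⟩

theorem c_mm_213 : CertFX 1073741824 536870912 1610612736 536870912 1046898278 26843546 false false false .pnn 2 1 3
    ndF3q2 ndF3q3 pcF1 Cut.none Ext.none :=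
  certFX0 (fam := false) (s1 := false) (s2 := false) (a := 2) (b := 1) (c := 3) (cn := .pnn) (n1 := ndF3q2) (n2 := ndF3q3) (pc := pcF1) (cut := Cut.none) (xt := Ext.none) (P1 := 1073741824) (W1 := 536870912) (P2 := 1610612736) (W2 := 536870912) (P3 := 1046898278) (W3 := 26843546)
    rfl k0_mm_213

noncomputable def f_mm_303 : ℕ → ℕ → ℕ → ℕ → Bool := onCell 1610612736 536870912 1610612736 536870912 1046898278 26843546
    (rowFX 0 false false false .npn 3 0 3 (qsf 1610612736 536870912 1610612736 536870912 0) ndF3q3 ndF3q3 pcF0 Cut.none Ext.none)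

def k0_mm_303 : ∃ t, chk3 f_mm_303 t 1 1 1 = true :=
  ⟨(l 3), by decide +kernel⟩

theorem c_mm_303 : CertFX 1610612736 536870912 1610612736 536870912 1046898278 26843546 false false false .npn 3 0 3
    ndF3q3 ndF3q3 pcF0 Cut.none Ext.none :=
  certFX0 (fam := false) (s1 := false) (s2 := false) (a := 3) (b := 0) (c := 3) (cn := .npn) (n1 := ndF3q3) (n2 := ndF3q3) (pc := pcF0) (cut := Cut.none) (xt := Ext.none) (P1 := 1610612736) (W1 := 536870912) (P2 := 1610612736) (W2 := 536870912) (P3 := 1046898278) (W3 := 26843546)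
    rfl k0_mm_303

noncomputable def f_mm_313 : ℕ → ℕ → ℕ → ℕ → Bool := onCell 1610612736 536870912 1610612736 536870912 1046898278 26843546
    (rowFX 0 false false false .dn 3 1 3 (qsf 1610612736 536870912 1610612736 536870912 1) ndF3q3 ndF3q3 pcF1 Cut.none Ext.none)

def k0_mm_313 : ∃ t, chk3 f_mm_313 t 1 1 1 = true :=
  ⟨(l 3), by decide +kernel⟩

theorem c_mm_313 : CertFX 1610612736 536870912 1610612736 536870912 1046898278 26843546 false false false .dn 3 1 3
    ndF3q3 ndF3q3 pcF1 Cut.none Ext.none :=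
  certFX0 (fam := false) (s1 := false) (s2 := false) (a := 3) (b := 1) (c := 3) (cn := .dn) (n1 := ndF3q3) (n2 := ndF3q3) (pc := pcF1) (cut := Cut.none) (xt := Ext.none) (P1 := 1610612736) (W1 := 536870912) (P2 := 1610612736) (W2 := 536870912) (P3 := 1046898278) (W3 := 26843546)
    rfl k0_mm_313

end Pool.Agent.Strip051.G.IE1.Tab.C.FB33

namespace Pool.Agent.Strip051.G.IE1.Tab.C.FB35

open Pool.Agent.Strip051.PB Pool.Agent.Strip051.PB.T
open Pool.Agent.Strip051.G.IE1.Tab

noncomputable def f_pp_001 : ℕ → ℕ → ℕ → ℕ → Bool := onCell 0 536870912 0 536870912 1046898278 26843546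
    (rowFX 1 false true true .up 0 0 1 (qsf 0 536870912 536870912 469762048 0) ndF3q0 ndF5q1 pcF0 Cut.none Ext.none)

def k0_pp_001 : ∃ t, chk3 f_pp_001 t 1 1 1 = true :=
  ⟨(l 3), by decide +kernel⟩

theorem c_pp_001 : CertFX 0 536870912 536870912 469762048 1046898278 26843546 false true true .up 0 0 1
    ndF3q0 ndF5q1 pcF0 Cut.none Ext.none :=
  certFX1 (fam := false) (s1 := true) (s2 := true) (a := 0) (b := 0) (c := 1) (cn := .up) (n1 := ndF3q0) (n2 := ndF5q1) (pc := pcF0) (cut := Cut.none) (xt := Ext.none) (P1 := 0) (W1 := 536870912) (P2 := 536870912) (W2 := 469762048) (P3 := 1046898278) (W3 := 26843546)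
    rfl (fun _ => rfl) k0_pp_001

noncomputable def f_pp_011 : ℕ → ℕ → ℕ → ℕ → Bool := onCell 0 536870912 536870912 469762048 1046898278 26843546
    (rowFX 0 false true true .pnn 0 1 1 (qsf 0 536870912 536870912 469762048 1) ndF3q0 ndF5q1 pcF1 Cut.none Ext.none)

def k0_pp_011 : ∃ t, chk3 f_pp_011 t 1 1 1 = true :=
  ⟨(a (l 3) (l 3)), by decide +kernel⟩

theorem c_pp_011 : CertFX 0 536870912 536870912 469762048 1046898278 26843546 false true true .pnn 0 1 1
    ndF3q0 ndF5q1 pcF1 Cut.none Ext.none :=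
  certFX0 (fam := false) (s1 := true) (s2 := true) (a := 0) (b := 1) (c := 1) (cn := .pnn) (n1 := ndF3q0) (n2 := ndF5q1) (pc := pcF1) (cut := Cut.none) (xt := Ext.none) (P1 := 0) (W1 := 536870912) (P2 := 536870912) (W2 := 469762048) (P3 := 1046898278) (W3 := 26843546)
    rfl k0_pp_011

noncomputable def f_pp_012 : ℕ → ℕ → ℕ → ℕ → Bool := onCell 536870912 536870912 1073741824 536870912 1046898278 26843546
    (rowFX 2 false true true .pnp 0 1 2 (qsf 0 536870912 1073741824 536870912 1) ndF3q0 ndF5q2 pcF1 Cut.none Ext.none)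

def k0_pp_012 : ∃ t, chk3 f_pp_012 t 2 1 1 = true :=
  ⟨(b (b (l 3) (a (l 3) (b (l 3) (a (b (l 3) (l 2)) (b (l 286855551623) (l 16776664)))))) (b (a (l 2) (a (l 2) (l 16777216))) (l 2))), by decide +kernel⟩

def k1_pp_012 : ∃ t, chk3 f_pp_012 t 3 2 1 = true :=
  ⟨(a (b (l 3) (b (b (a (l 3) (a (l 3) (b (l 3) (l 14978808)))) (a (c (l 15428656) (l 15587272)) (a (l 15454880) (c (l 15448080) (l 15597568))))) (b (a (b (l 16133144) (l 16563592)) (a (l 16339296) (l 16201688))) (a (l 16775680) (a (l 16768432) (l 16775904)))))) (b (b (l 3) (b (l 3) (a (l 3) (a (c (a (l 3) (l 315306836119)) (l 14888840)) (b (l 3) (c (a (c (l 14760688) (l 14746560)) (l 14707432)) (a (l 14712680) (l 14667408)))))))) (a (b (b (b (a (l 3) (a (l 440934577047) (l 466167405895))) (a (l 15079520) (a (l 14959960) (l 14752808)))) (a (l 15457680) (c (l 15240992) (l 15397712)))) (b (a (l 16209640) (l 16001840)) (a (l 16603928) (l 16386736)))) (b (b (a (b (c (a (l 14676960) (l 14574144)) (l 14572104)) (c (a (l 14731440)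 (l 14635912)) (l 14629640))) (b (c (a (c (l 14513752) (l 14494944)) (l 14450976)) (a (l 14454928) (l 14401240))) (c (a (l 14571184) (l 14517200)) (a (l 14520568) (l 14467000))))) (a (a (a (l 15199168) (l 15042976)) (b (l 14909200) (l 15066912))) (c (a (c (l 15036920) (l 15021664)) (l 14995376)) (a (l 14989736) (l 14809568))))) (a (a (b (l 15866216) (l 16217552)) (b (l 15475264) (l 16101128))) (a (b (c (b (l 15471704) (l 15800616)) (l 15618608)) (l 15939576)) (b (c (l 15483104) (b (l 15407688) (l 15708776))) (c (l 15920048) (l 15903872))))))))), by decide +kernel⟩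

def k2_pp_012 : ∃ t, chk3 f_pp_012 t 3 3 1 = true :=
  ⟨(a (a (b (c (l 16774568) (l 16774496)) (l 2)) (a (b (l 16758840) (l 2)) (b (b (l 16771000) (l 16761552)) (l 16758432)))) (a (b (a (b (l 16610872) (l 16620384)) (b (l 16399688) (l 16418472))) (l 16550184)) (b (a (a (l 16259224) (b (l 16135416) (l 16179160))) (a (b (l 16022312) (l 16092632)) (b (a (l 15935128) (l 15934440)) (l 16010960)))) (l 16214768)))), by decide +kernel⟩

theorem s3_pp_012 : ∃ t, chk3 f_pp_012 t 3 1 1 = true := ex3_b k1_pp_012 k2_pp_012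

theorem s4_pp_012 : ∃ t, chk3 f_pp_012 t 1 1 1 = true := ex3_a k0_pp_012 s3_pp_012

theorem c_pp_012 : CertFX 0 536870912 1073741824 536870912 1046898278 26843546 false true true .pnp 0 1 2
    ndF3q0 ndF5q2 pcF1 Cut.none Ext.none :=
  certFX2 (fam := false) (s1 := true) (s2 := true) (a := 0) (b := 1) (c := 2) (cn := .pnp) (n1 := ndF3q0) (n2 := ndF5q2) (pc := pcF1) (cut := Cut.none) (xt := Ext.none) (P1 := 0) (W1 := 536870912) (P2 := 1073741824) (W2 := 536870912) (P3 := 1046898278) (W3 := 26843546)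
    rfl (fun _ => rfl) s4_pp_012

noncomputable def f_pp_022 : ℕ → ℕ → ℕ → ℕ → Bool := onCell 0 536870912 1073741824 536870912 1046898278 26843546
    (rowFX 1 false true true .pp 0 2 2 (qsf 0 536870912 1073741824 536870912 2) ndF3q0 ndF5q2 pcF2 Cut.none Ext.none)

def k0_pp_022 : ∃ t, chk3 f_pp_022 t 4 16 1 = true :=
  ⟨(a (l 3) (a (b (a (l 3) (b (l 3) (c (c (l 217596997095) (l 278263377703)) (c (l 441472100263) (l 15224376))))) (c (b (c (b (l 200417425095) (a (l 15587256) (l 15242288))) (a (l 269674094151) (l 234776768311))) (c (a (c (l 15422688) (l 15561832)) (c (a (l 15306176) (l 15139104)) (l 15129160))) (a (l 15542896) (l 15165840)))) (b (c (l 447377957351) (l 389395855255)) (a (b (l 15537704) (l 432345797031)) (a (l 15240376) (l 14986944)))))) (a (c (b (b (c (a (l 15063872) (l 14914528)) (l 316917470519)) (c (a (b (l 15027840) (a (l 15052784) (l 14993504))) (b (l 14905960) (l 14891400))) (c (l 226186237383) (l 14921272)))) (c (b (b (l 14798408) (a (l 14995672) (l 14859248)))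 (b (l 14902000) (l 14866248))) (b (c (l 14904488) (l 14880464)) (l 14837424)))) (b (c (b (b (l 14940224) (a (l 15000720) (l 14847936))) (a (b (l 14985576) (l 14967144)) (l 14821368))) (b (b (l 285241999927) (c (l 14907240) (l 14889832))) (c (l 14686832) (l 14860088)))) (c (a (l 14887640) (b (l 14752528) (l 14685704))) (a (l 14858032) (l 14687944))))) (b (c (c (b (a (l 14793072) (l 14702144)) (b (l 14753632) (l 14737360))) (b (a (l 14761888) (l 14672120)) (l 14697360))) (b (c (a (c (l 14737120) (l 14718224)) (c (l 14647056) (l 14586216))) (c (b (a (l 14469752) (l 14607672)) (l 14631232)) (b (b (l 14634112) (l 14630176)) (l 14606888)))) (c (l 14657096) (c (l 14592408) (l 14567520))))) (c (a (b (l 14719664) (c (l 14768440) (l 14698816))) (b (c (b (l 14663184) (l 14731848)) (l 14658432)) (l 14841120))) (b (c (a (l 14627480) (c (l 14608728) (l 14552304))) (a (l 14576888) (l 14539608))) (a (c (l 14437704) (l 14608648)) (l 14736440)))))))), by decide +kernel⟩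

def k1_pp_022 : ∃ t, chk3 f_pp_022 t 8 17 1 = true :=
  ⟨(a (b (l 3) (a (l 3) (b (l 3) (a (b (l 3) (b (l 3) (c (l 16582024) (l 16608872)))) (c (c (b (l 16359912) (l 16339168)) (l 16303688)) (c (l 16286712) (l 212230728967))))))) (a (b (b (l 3) (b (l 3) (c (l 454358949735) (l 315309320871)))) (c (b (b (c (l 16054176) (l 16196304)) (c (b (l 16128856) (l 444695210103)) (l 15979816))) (b (c (a (l 16281512) (l 16074504)) (l 15915296)) (a (c (l 16246664) (l 16220992)) (c (l 16037824) (l 16014056))))) (b (b (c (l 16183640) (l 16177992)) (c (l 16008824) (l 247663504135))) (b (c (l 15965072) (a (l 16237720) (l 16031832))) (a (l 16203568) (a (l 16050448) (l 15943312))))))) (b (c (b (c (l 432883455719) (l 15872104)) (a (c (l 15961456) (l 15940464)) (c (b (l 15776432) (l 15761520)) (l 15745112)))) (b (l 273432716503) (a (l 161227053511) (c (l 15731696) (l 15718720))))) (b (c (b (c (a (l 15931528) (l 15738560)) (l 15813784)) (a (c (l 15891376) (l 15892032)) (l 15683560))) (b (c (l 15802064) (l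 15727192)) (c (l 15779192) (l 15620152)))) (c (c (l 15740824) (l 15720928)) (l 15701472)))))), by decide +kernel⟩

def k2_pp_022 : ∃ t, chk3 f_pp_022 t 9 17 1 = true :=
  ⟨(a (a (b (c (b (c (b (l 15533304) (l 15517736)) (b (l 15506392) (l 15491504))) (a (c (l 15576608) (l 15554840)) (l 15365280))) (b (b (l 15246592) (a (l 15563848) (l 15360224))) (a (b (l 15547080) (l 15508344)) (l 15319120)))) (b (c (c (a (l 15509848) (l 15314160)) (l 15382224)) (a (l 15462352) (l 15257624))) (c (c (b (l 15357664) (l 15325920)) (l 15321912)) (b (l 15309096) (l 15278256))))) (a (b (c (b (b (l 15245360) (l 15214408)) (c (l 15191216) (l 15152320))) (b (l 15169904) (l 15118200))) (b (c (b (l 15125816) (l 15093576)) (l 15061680)) (b (l 15070496) (l 15121248)))) (b (c (b (c (l 15070536) (l 15021104)) (l 14982456)) (b (l 14976488) (l 14919584))) (b (c (c (l 15021592) (l 14986320)) (l 14951048)) (l 15150288))))) (c (b (a (b (a (l 14861208) (c (b (l 14788280) (l 14832600)) (l 14756888))) (a (c (l 14905632)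 (l 14854096)) (l 14952560))) (c (l 15098512) (c (l 15055096) (l 15033432)))) (c (a (b (l 15022176) (l 15239112)) (b (l 15392840) (l 15586600))) (a (l 15123720) (a (l 15400872) (l 15526640))))) (b (a (a (b (l 14779328) (l 14812528)) (b (l 14702256) (l 14882352))) (l 15001608)) (a (b (l 14864712) (a (l 15219208) (l 15339888))) (c (l 15448640) (l 15436488)))))), by decide +kernel⟩

def k3_pp_022 : ∃ t, chk3 f_pp_022 t 5 8 2 = true :=
  ⟨(a (a (a (b (b (c (b (a (l 14604056) (b (l 14544624) (l 14615504))) (a (b (l 14626152) (l 14684448)) (l 14787560))) (b (a (l 14575344) (c (l 14572576) (l 14361824))) (a (b (l 14586808) (l 14635680)) (c (l 14759280) (l 14728928))))) (b (c (l 14918184) (l 14859920)) (l 14880784))) (b (c (l 15388672) (l 15095872)) (c (c (l 15613248) (b (l 15636632) (l 15810664))) (l 15499192)))) (c (b (b (b (c (l 14833000) (l 14812464)) (c (b (l 15013744) (l 15121016)) (l 14981928))) (b (l 15123928) (l 15424584))) (b (l 15519352) (a (c (l 15873488) (l 15904496)) (l 16019744))))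 (b (b (c (b (l 14793016) (l 15023552)) (l 14895312)) (l 15195344)) (b (l 15628768) (l 15947944))))) (a (b (b (b (c (c (l 15199736) (l 15192448)) (l 15174744)) (l 15321680)) (l 15460552)) (b (l 15811176) (b (l 16071816) (l 16140832)))) (b (b (c (l 15582888) (l 15623984)) (l 15863552)) (b (c (l 16104960) (l 16083488)) (l 16050888))))) (b (a (b (a (c (l 15952176) (l 15957672)) (b (l 16158456) (l 16173168))) (a (c (l 16039544) (l 16123904)) (l 16159920))) (b (a (l 16135608) (l 16181720)) (l 16087984))) (a (b (l 15875056) (l 15773184)) (b (l 15927432) (a (l 15730840) (l 15719296)))))), by decide +kernel⟩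

def k4_pp_022 : ∃ t, chk3 f_pp_022 t 5 8 3 = true :=
  ⟨(a (b (a (b (a (a (c (b (c (l 14546920) (l 14318152)) (b (l 14510696) (l 14554816))) (b (l 14487896) (l 14506800))) (b (c (b (c (l 14484624) (l 14472040)) (l 14542784)) (l 14392672)) (l 14668448))) (c (l 14862416) (l 14695352))) (c (a (a (l 14728800) (l 14996424)) (l 15248872)) (l 14945664))) (b (c (b (l 15335216) (l 15506688)) (b (l 15179432) (l 15474536))) (c (l 15733792) (l 15714312)))) (a (b (a (l 15311512) (l 15598776)) (l 15564016)) (b (a (l 15878272) (l 16066384)) (a (l 16063832) (l 16052568))))) (b (a (b (a (c (l 15939208) (l 15920552)) (b (l 15949400) (l 16210848))) (a (c (l 16105144) (l 16093168)) (l 16132984))) (b (c (l 16211720) (b (l 16338680) (l 16260736))) (l 16110408))) (a (b (l 16017832) (l 15854096)) (b (l 15904296) (l 15701472))))), by decide +kernel⟩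

def k5_pp_022 : ∃ t, chk3 f_pp_022 t 8 36 1 = true :=
  ⟨(a (b (b (a (l 3) (c (a (l 16518552) (l 16395736)) (a (l 16545184) (l 16381344)))) (a (a (l 3) (c (a (l 16429208) (l 16460000)) (l 16411656))) (c (a (l 16528696) (c (l 16390768) (l 16365760))) (a (l 16533976) (l 16345168))))) (b (a (a (c (l 467244391079) (c (l 16335504) (l 16346520))) (c (c (l 16395848) (l 16438448)) (l 16405456))) (c (a (l 16472712) (c (l 16361264) (l 16336112))) (a (l 16477528) (l 16231264)))) (a (c (a (c (l 16323072) (l 16341352)) (c (l 16412664) (l 16434632))) (a (c (l 16326224) (l 16316520)) (l 16423120))) (c (a (a (l 16556544) (l 16410888)) (l 16306672)) (a (c (l 16490880) (l 16461648)) (l 16269496)))))) (a (b (c (a (b (c (l 16213224) (l 16187496)) (l 16168176)) (l 15968592)) (a (b (l 16148576) (l 16136408)) (l 15940128))) (c (l 15848096) (l 15960808))) (b (c (a (l 15757416) (l 15547464)) (l 15450600)) (c (a (l 15670752) (l 15462104)) (a (l 15639536) (l 15428064)))))), by decide +kernel⟩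

def k6_pp_022 : ∃ t, chk3 f_pp_022 t 8 37 1 = true :=
  ⟨(a (c (a (b (a (b (c (l 16358872) (l 16356496)) (c (l 16375832) (l 16373800))) (c (b (a (l 16463648) (l 16537768)) (c (l 16382624) (l 16391848))) (b (l 16412616) (l 16390576)))) (b (a (c (a (l 16359040) (l 16408672)) (a (l 16355664) (l 16408192))) (l 16398712)) (a (b (c (l 16330928) (l 16329640)) (l 16374960)) (l 16439736)))) (b (a (a (b (l 16466464) (l 16489240)) (l 16400104)) (l 16232136)) (a (l 16242544) (l 16122872)))) (a (b (a (b (c (l 16341672) (l 16332288)) (c (l 16338344) (l 16329304))) (c (b (l 16482760) (l 16461112)) (b (l 16560960) (l 16539696)))) (a (a (c (b (l 16352784) (l 16378096)) (b (l 16359128) (l 16321976))) (b (c (l 16400448) (l 16440368)) (l 16429368))) (l 16434880))) (b (a (b (l 16301472) (l 16392800)) (l 16193496)) (l 16068952)))) (a (c (b (l 15771456) (a (l 15898808) (c (l 15690408) (l 15663528)))) (b (l 15861040) (a (l 15861208) (l 15641984)))) (a (c (b (l 15507832) (b (a (l 15550312) (l 15490968))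 (l 15555384))) (b (l 15537048) (b (l 15392248) (l 15521600)))) (b (a (c (l 15448704) (l 15414584)) (l 15385768)) (l 15557256))))), by decide +kernel⟩

def k7_pp_022 : ∃ t, chk3 f_pp_022 t 9 18 1 = true :=
  ⟨(b (a (a (b (a (c (l 15353568) (l 15317560)) (c (l 15243280) (l 15203528))) (a (c (l 15344632) (l 15308512)) (l 15359600))) (c (l 15422776) (l 15387776))) (a (c (a (l 15554152) (l 15657976)) (a (c (l 15518744) (l 15512680)) (c (l 15622832) (l 15629384)))) (c (c (l 15828696) (a (l 15763184) (l 15866432))) (c (l 15751016) (l 15800648))))) (a (a (c (l 15608536) (l 15579936)) (a (l 15717864) (c (l 15798592) (c (l 15657608) (l 15745160))))) (c (a (a (l 15839576) (l 15879320)) (c (l 16095968) (a (l 16043680) (c (l 16134736) (l 16140136))))) (a (c (a (l 15775496) (l 15901296)) (a (l 15773032) (l 15957760))) (c (l 15898384) (l 16078560)))))), by decide +kernel⟩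

def k8_pp_022 : ∃ t, chk3 f_pp_022 t 8 19 1 = true :=
  ⟨(a (b (b (a (c (a (c (l 16351064) (l 16330208)) (c (a (l 16453936) (l 16371344)) (l 16338016))) (a (c (l 16296904) (l 16310976)) (c (l 16375632) (l 16360552)))) (c (c (a (l 16199720) (l 16018592)) (l 15933640)) (l 15885984))) (a (c (a (c (l 16443040) (l 16462328)) (a (l 16334568) (l 16275424))) (a (c (l 16453960) (l 16441256)) (l 16263656))) (c (a (l 16117008) (b (l 15931680) (l 15889528))) (a (l 16071736) (l 15860312))))) (a (a (b (c (c (l 16347368) (l 16344216)) (a (l 16415040) (l 16327616))) (c (l 16235792) (l 16193688))) (b (c (l 16078208) (l 16183552)) (c (a (l 16195032) (l 16105344)) (l 16061376)))) (b (a (c (b (l 16054104) (l 16014640)) (l 15982552)) (c (b (a (l 15905656) (l 15851472)) (l 15841224)) (b (a (l 15860648) (l 15808952)) (l 15881368)))) (a (c (b (a (l 16031264) (l 15977400)) (a (l 16037248) (l 16035232))) (b (a (l 15983176) (l 15932184)) (l 15998056))) (l 16004792))))) (b (b (a (c (a (b (l 15814832) (c (l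 15770592) (l 15740920))) (a (b (l 15653432) (l 15647560)) (l 15631672))) (a (b (l 15775352) (l 15715264)) (a (b (l 15616792) (l 15610976)) (l 15597416)))) (c (l 15713600) (l 15684952))) (a (a (b (a (l 15750552) (l 15632408)) (c (l 15793152) (l 15753944))) (l 15774664)) (l 15880552))) (a (b (l 15929744) (l 16095016)) (b (l 16046920) (l 16194136))))), by decide +kernel⟩

def k9_pp_022 : ∃ t, chk3 f_pp_022 t 9 19 1 = true :=
  ⟨(a (a (b (c (l 15714872) (b (l 15844344) (l 16006376))) (l 16011824)) (a (b (l 15828856) (l 16294592)) (c (b (l 15934016) (l 16236520)) (b (a (l 16079408) (c (l 16111776) (b (l 16028816) (l 16166872)))) (c (c (l 16339360) (l 16310120)) (b (l 16188384) (l 16371656))))))) (c (b (a (c (l 16115272) (a (l 16158832) (l 16227704))) (c (b (l 16109600) (l 16130240)) (c (b (l 16215544) (l 16284688)) (a (l 16275832) (l 16192704))))) (a (c (l 16333064) (a (l 16356216) (l 16238176))) (c (a (l 16251944) (l 16147456)) (c (a (l 16252392) (l 16154304)) (l 16247144))))) (b (a (b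 (c (a (l 16072096) (l 16108128)) (l 15952712)) (c (a (l 16190200) (l 16296832)) (l 16142992))) (a (c (b (l 16282112) (l 16365504)) (l 16269464)) (l 16262536))) (a (c (a (b (l 16306944) (l 16388672)) (b (l 16377224) (l 16366296))) (a (b (l 16336640) (l 16417160)) (l 16324032))) (c (l 16228704) (l 16188296)))))), by decide +kernel⟩

def k10_pp_022 : ∃ t, chk3 f_pp_022 t 5 9 1 = true :=
  ⟨(a (b (a (a (c (a (b (c (l 15975232) (l 15817856)) (c (b (l 16162288) (l 16249888)) (c (l 16206992) (l 16197192)))) (c (b (l 16058800) (c (l 16211656) (l 16209272))) (l 16022352))) (b (l 16006912) (l 16155128))) (b (c (c (b (l 15960032) (l 16051344)) (l 16134888)) (l 16124168)) (c (l 16100232) (l 16085520)))) (c (b (l 15999512) (l 15833264)) (b (l 15981336) (l 15810784)))) (a (c (c (a (b (c (b (l 16200456) (l 16125816)) (l 15955920)) (a (l 16054416) (l 15930232))) (l 15860360)) (l 15808976)) (b (l 15907848) (l 15851336))) (c (b (l 15653888) (l 15454152)) (l 15419232)))) (b (a (c (b (l 15688656) (l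 15489672)) (b (l 15661696) (l 15456928))) (b (a (l 15520208) (l 15516240)) (l 15332760))) (a (c (b (l 15252440) (l 15107144)) (b (l 15256144) (l 15063872))) (l 15076600)))), by decide +kernel⟩

def k11_pp_022 : ∃ t, chk3 f_pp_022 t 3 4 1 = true :=
  ⟨(b (a (a (l 15892712) (l 15911656)) (l 15816672)) (a (a (l 15277456) (l 15321072)) (l 15385448))), by decide +kernel⟩

def k12_pp_022 : ∃ t, chk3 f_pp_022 t 8 10 1 = true :=
  ⟨(b (b (a (a (b (a (c (b (l 16246808) (a (l 16245840) (l 16182152))) (a (l 16248872) (l 16103808))) (c (b (a (l 16143992) (l 16094112)) (a (l 16119760) (l 16141488))) (b (a (l 16099640) (l 16048296)) (l 16062112)))) (a (b (c (a (l 16206360) (l 16169968)) (a (l 16193536) (l 16141344))) (c (l 16176672) (l 16175176))) (c (l 16224432) (l 16186144)))) (b (c (l 16162296) (l 16125104)) (c (l 16271208) (l 16259824)))) (a (b (l 16238864) (l 16363208)) (b (l 16325024) (l 16441400)))) (c (b (a (a (a (l 16254704) (l 16308240)) (l 16374832)) (l 16315232)) (a (b (a (a (l 16306984)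 (l 16384888)) (l 16457032)) (b (a (a (l 16314384) (l 16401184)) (l 16457304)) (c (a (b (b (b (l 16277080) (a (l 16279752) (l 16402520))) (l 16267696)) (l 16266464)) (l 16308896)) (a (b (a (l 16223224) (l 16394576)) (l 16318896)) (l 16420144))))) (b (l 16386216) (b (l 16342136) (a (l 16341696) (l 16255992)))))) (b (a (a (a (l 16234472) (l 16295176)) (l 16367672)) (l 16378152)) (b (a (a (a (l 16288888) (l 16353432)) (l 16431648)) (l 16417120)) (a (b (a (a (l 16296808) (l 16370688)) (l 16462552)) (a (a (a (l 16220904) (l 16329784)) (l 16384640)) (l 16460800))) (b (l 16350104) (l 16302240))))))) (a (b (a (c (a (b (l 16310128) (l 16144096)) (l 15983552)) (a (l 16090488) (l 16144808))) (c (l 15929464) (l 16123768))) (a (c (a (l 15644240) (l 15590320)) (a (l 15771792) (l 15779016))) (c (l 15572688) (l 15689144)))) (b (a (l 15924064) (a (l 15915192) (l 16028760))) (a (c (a (l 15585360) (l 15657144)) (l 15648120)) (l 15792976))))), by decide +kernel⟩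

def k13_pp_022 : ∃ t, chk3 f_pp_022 t 9 10 1 = true :=
  ⟨(a (a (b (b (l 16247936) (b (l 16433480) (b (l 16370480) (b (l 16320456) (a (l 16236664) (l 16339872)))))) (a (b (l 16135560) (c (l 15980288) (l 15967840))) (c (l 16126584) (b (l 16238864) (l 16072056))))) (b (b (a (a (l 16500672) (c (l 16492848) (c (l 16491896) (b (l 16452408) (l 16521752))))) (c (b (l 16465536) (l 16437296)) (c (b (l 16470320) (l 16409704)) (b (l 16328768) (l 16447848))))) (c (a (b (l 16502296) (b (l 16481464) (b (l 16486448) (l 16459952)))) (b (l 16376296) (l 16376344))) (b (a (c (l 16498752) (l 16503224)) (l 16370464)) (b (c (a (l 16473312) (l 16349064)) (l 16430872)) (b (l 16357584) (l 16242952)))))) (c (b (c (l 16423600) (a (l 16366176) (l 16485392))) (l 16240384)) (c (l 16106120) (l 16293856))))) (b (c (b (c (a (l 16275080) (c (l 16030464) (l 16039368))) (a (c (l 16259832) (l 16261920)) (a (c (l 16097000) (l 16095928)) (l 15970136)))) (b (c (a (l 16179864) (l 15889800)) (a (c (l 16173200) (l 16197112))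 (l 15803744))) (c (a (l 16199640) (b (l 15915944) (l 16058768))) (a (c (l 16200864) (l 16226680)) (l 16011304))))) (c (b (a (c (l 16281528) (l 16291400)) (l 16021552)) (b (l 16098464) (l 16110536))) (b (l 16050768) (l 16074728)))) (c (b (c (a (a (l 16413536) (l 16323704)) (l 16250088)) (l 16208088)) (a (l 16425520) (l 16500872))) (b (l 16253944) (l 16512784))))), by decide +kernel⟩

def k14_pp_022 : ∃ t, chk3 f_pp_022 t 5 10 1 = true :=
  ⟨(a (b (b (a (c (c (a (c (l 15816352) (l 15803344)) (l 15580568)) (l 15680544)) (l 15661696)) (c (l 15249704) (l 15211800))) (a (c (b (l 15640768) (l 15739248)) (b (l 15614480) (l 15715632))) (c (b (l 15237488) (l 15387368)) (b (l 15198840) (l 15353784))))) (a (c (l 15958088) (l 16070328)) (b (c (l 15657000) (l 15629856)) (c (l 16019768) (l 16002176))))) (b (a (a (b (l 14837856) (b (l 14980456) (l 15192616))) (l 14943760)) (l 14931808)) (l 15662192))), by decide +kernel⟩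

def k15_pp_022 : ∃ t, chk3 f_pp_022 t 2 11 1 = true :=
  ⟨(a (b (a (a (a (c (b (a (c (l 15400376) (l 15385648)) (l 15062488)) (a (b (l 15055296) (a (b (l 14922656) (l 14822648)) (a (l 14839104) (l 14830168)))) (b (a (c (l 14974728) (l 14970744)) (l 14973056)) (c (l 14870952) (l 14869896))))) (b (a (l 15380712) (l 15299488)) (a (a (l 14942768) (l 14849912)) (b (l 14979072) (l 14865776))))) (b (c (a (b (l 15350632) (a (l 15140048) (l 15147928))) (b (l 15327936) (l 15209784))) (a (l 15259040) (l 15274016))) (c (l 14914576) (l 15053288)))) (c (b (l 15301280) (a (l 15279080) (l 15494840))) (a (l 15333088) (l 15547536)))) (a (c (a (b (l 15864992) (l 15689472)) (l 15866864)) (b (l 15831184) (l 15755056))) (c (b (l 16304640) (l 16115344)) (l 16206704)))) (a (a (c (a (a (b (b (c (b (a (l 14782360) (l 14794832)) (l 14786264)) (l 14763176)) (l 14774168)) (l 14774168)) (l 14794568)) (l 14989040)) (a (c (l 14792064) (l 14782448)) (l 14978512))) (c (a (l 15195912) (l 15396712)) (l 15268896)))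 (c (a (b (l 15680872) (l 15680272)) (l 16006096)) (a (l 15651040) (l 15986080))))) (b (a (a (b (l 16488216) (l 16355728)) (b (l 16208296) (l 16506144))) (l 16425136)) (a (c (l 16268312) (l 16299208)) (l 16722552)))), by decide +kernel⟩

def k16_pp_022 : ∃ t, chk3 f_pp_022 t 3 5 1 = true :=
  ⟨(b (b (b (l 14911984) (l 15137592)) (a (l 15697256) (l 2))) (a (b (l 16422280) (l 16776728)) (l 2))), by decide +kernel⟩

def k17_pp_022 : ∃ t, chk3 f_pp_022 t 1 3 1 = true :=
  ⟨(a (a (b (a (a (c (b (a (b (l 14808792) (l 14808792)) (l 14946896)) (b (a (l 14808792) (l 14988840)) (l 14900208))) (b (a (l 14788272) (l 14978296)) (a (b (l 14788272) (l 14788272)) (l 14978296)))) (b (c (b (l 15294328) (l 15294328)) (c (l 15277008) (l 15257896))) (b (c (l 15294328) (l 15268632)) (l 15280376)))) (b (a (c (l 15680272) (l 15650744)) (c (l 16005792) (l 15985752))) (b (a (l 15668312) (l 15995776)) (l 15817696)))) (a (a (a (b (c (l 14808792) (b (l 14788272) (l 14788272))) (c (l 14808792) (l 14788272))) (b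 (c (l 14988840) (l 14978296)) (l 14970448))) (b (c (l 15294328) (l 15268632)) (l 15280376))) (a (l 15668312) (l 15995776)))) (b (a (b (l 16157640) (l 16346384)) (l 16722328)) (a (l 16346384) (l 2)))) (b (b (a (l 16777216) (l 2)) (l 2)) (l 2))), by decide +kernel⟩

theorem s18_pp_022 : ∃ t, chk3 f_pp_022 t 4 10 1 = true := ex3_a k12_pp_022 k13_pp_022

theorem s19_pp_022 : ∃ t, chk3 f_pp_022 t 2 10 1 = true := ex3_a s18_pp_022 k14_pp_022

theorem s20_pp_022 : ∃ t, chk3 f_pp_022 t 2 5 1 = true := ex3_b s19_pp_022 k15_pp_022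

theorem s21_pp_022 : ∃ t, chk3 f_pp_022 t 1 5 1 = true := ex3_a s20_pp_022 k16_pp_022

theorem s22_pp_022 : ∃ t, chk3 f_pp_022 t 4 19 1 = true := ex3_a k8_pp_022 k9_pp_022

theorem s23_pp_022 : ∃ t, chk3 f_pp_022 t 8 18 1 = true := ex3_b k5_pp_022 k6_pp_022

theorem s24_pp_022 : ∃ t, chk3 f_pp_022 t 4 18 1 = true := ex3_a s23_pp_022 k7_pp_022

theorem s25_pp_022 : ∃ t, chk3 f_pp_022 t 4 9 1 = true := ex3_b s24_pp_022 s22_pp_022

theorem s26_pp_022 : ∃ t, chk3 f_pp_022 t 2 9 1 = true := ex3_a s25_pp_022 k10_pp_022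

theorem s27_pp_022 : ∃ t, chk3 f_pp_022 t 5 8 1 = true := ex3_c k3_pp_022 k4_pp_022

theorem s28_pp_022 : ∃ t, chk3 f_pp_022 t 4 17 1 = true := ex3_a k1_pp_022 k2_pp_022

theorem s29_pp_022 : ∃ t, chk3 f_pp_022 t 4 8 1 = true := ex3_b k0_pp_022 s28_pp_022

theorem s30_pp_022 : ∃ t, chk3 f_pp_022 t 2 8 1 = true := ex3_a s29_pp_022 s27_pp_022

theorem s31_pp_022 : ∃ t, chk3 f_pp_022 t 2 4 1 = true := ex3_b s30_pp_022 s26_pp_022

theorem s32_pp_022 : ∃ t, chk3 f_pp_022 t 1 4 1 = true := ex3_a s31_pp_022 k11_pp_022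

theorem s33_pp_022 : ∃ t, chk3 f_pp_022 t 1 2 1 = true := ex3_b s32_pp_022 s21_pp_022

theorem s34_pp_022 : ∃ t, chk3 f_pp_022 t 1 1 1 = true := ex3_b s33_pp_022 k17_pp_022

theorem c_pp_022 : CertFX 0 536870912 1073741824 536870912 1046898278 26843546 false true true .pp 0 2 2
    ndF3q0 ndF5q2 pcF2 Cut.none Ext.none :=
  certFX1 (fam := false) (s1 := true) (s2 := true) (a := 0) (b := 2) (c := 2) (cn := .pp) (n1 := ndF3q0) (n2 := ndF5q2) (pc := pcF2) (cut := Cut.none) (xt := Ext.none) (P1 := 0) (W1 := 536870912) (P2 := 1073741824) (W2 := 536870912) (P3 := 1046898278) (W3 := 26843546)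
    rfl (fun _ => rfl) s34_pp_022

noncomputable def f_pp_023 : ℕ → ℕ → ℕ → ℕ → Bool := onCell 1073741824 536870912 0 1230186008 1046898278 26843546
    (rowFX 2 false true true .up 0 2 3 (qsf 0 536870912 0 1230186008 2) ndF3q0 ndF5q3 pcF2 Cut.none Ext.none)

def k0_pp_023 : ∃ t, chk3 f_pp_023 t 1 1 1 = true :=
  ⟨(a (b (l 2) (a (b (l 2) (b (l 2) (a (l 15720928) (l 15407904)))) (b (a (l 2) (a (l 2) (l 16506032))) (a (b (a (a (l 15180112) (l 15317696)) (l 15825432)) (a (a (l 15057688) (l 15201440)) (l 15752528))) (a (b (l 16447608) (l 16434344)) (b (l 16759856) (l 16776736))))))) (b (a (l 2) (b (l 4) (b (l 4) (l 16750656)))) (b (a (a (l 16644176) (l 16772728)) (b (l 16777168) (l 16777200))) (b (a (l 16772152) (b (l 16757448) (a (l 16758432) (l 16532720)))) (a (b (l 16766144) (a (l 16751880) (l 16336952))) (b (a (l 16543136) (l 15885520)) (a (b (l 16269728) (l 15820232)) (b (a (l 15884008) (l 15539648)) (a (l 15499064) (b (l 15217784) (c (l 15011504) (l 14995680)))))))))))), by decide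 +kernel⟩

theorem c_pp_023 : CertFX 0 536870912 0 1230186008 1046898278 26843546 false true true .up 0 2 3
    ndF3q0 ndF5q3 pcF2 Cut.none Ext.none :=
  certFX2 (fam := false) (s1 := true) (s2 := true) (a := 0) (b := 2) (c := 3) (cn := .up) (n1 := ndF3q0) (n2 := ndF5q3) (pc := pcF2) (cut := Cut.none) (xt := Ext.none) (P1 := 0) (W1 := 536870912) (P2 := 0) (W2 := 1230186008) (P3 := 1046898278) (W3 := 26843546)
    rfl (fun _ => rfl) k0_pp_023

noncomputable def f_pp_033 : ℕ → ℕ → ℕ → ℕ → Bool := onCell 0 536870912 0 1230186008 1046898278 26843546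
    (rowFX 0 false true true .pnn 0 3 3 (qsf 0 536870912 0 1230186008 3) ndF3q0 ndF5q3 pcF3 Cut.none Ext.none)

def k0_pp_033 : ∃ t, chk3 f_pp_033 t 1 1 1 = true :=
  ⟨(b (b (l 4) (a (l 4) (b (l 4) (a (a (l 4) (b (l 4) (l 4))) (a (l 16750656) (l 16750656)))))) (b (b (a (b (a (l 4) (a (l 4) (c (l 16723008) (l 16721600)))) (a (a (b (l 4) (b (l 4) (a (c (l 14900160) (l 14716488)) (l 15217408)))) (c (a (l 15617296) (l 16005728)) (a (b (l 4) (l 15650680)) (l 15985680)))) (a (c (l 16351848) (l 16340792)) (l 16701288)))) (a (a (b (l 16777192) (l 16777144)) (l 16777168)) (l 455300087479))) (a (a (a (b (a (c (a (l 14808760) (l 14988808)) (b (a (l 14788232) (l 14978256)) (l 14884296))) (c (l 15294304) (l 15268600))) (b (a (c (l 14900208) (l 14884312)) (l 15280376)) (a (c (l 14900208) (l 14884312)) (l 15280376)))) (b (c (l 15762872) (a (l 15650712) (l 15985728))) (a (l 15668312) (l 15995776)))) (a (b (c (l 16351880) (l 16340832)) (l 16346384)) (b (l 16722304) (l 16722328)))) (a (b (l 16777184)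 (l 16777216)) (l 1)))) (a (b (a (b (a (a (c (l 14900208) (a (l 14788272) (l 14978296))) (l 15133576)) (a (l 15668312) (l 15995776))) (a (a (a (l 14801880) (l 14970448)) (l 15280376)) (l 15817696))) (a (b (l 16346384) (l 16346384)) (l 16722328))) (a (a (b (a (c (l 14900208) (l 14863344)) (l 15280376)) (a (b (l 14832464) (c (l 14900208) (l 14674600))) (l 15280376))) (a (l 15668312) (l 15995776))) (a (l 16346384) (l 1)))) (l 1)))), by decide +kernel⟩

theorem c_pp_033 : CertFX 0 536870912 0 1230186008 1046898278 26843546 false true true .pnn 0 3 3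
    ndF3q0 ndF5q3 pcF3 Cut.none Ext.none :=
  certFX0 (fam := false) (s1 := true) (s2 := true) (a := 0) (b := 3) (c := 3) (cn := .pnn) (n1 := ndF3q0) (n2 := ndF5q3) (pc := pcF3) (cut := Cut.none) (xt := Ext.none) (P1 := 0) (W1 := 536870912) (P2 := 0) (W2 := 1230186008) (P3 := 1046898278) (W3 := 26843546)
    rfl k0_pp_033

noncomputable def f_pp_101 : ℕ → ℕ → ℕ → ℕ → Bool := onCell 536870912 536870912 536870912 469762048 1046898278 26843546
    (rowFX 0 false true true .npn 1 0 1 (qsf 536870912 536870912 536870912 469762048 0) ndF3q1 ndF5q1 pcF0 Cut.none Ext.none)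

def k0_pp_101 : ∃ t, chk3 f_pp_101 t 1 1 1 = true :=
  ⟨(l 3), by decide +kernel⟩

theorem c_pp_101 : CertFX 536870912 536870912 536870912 469762048 1046898278 26843546 false true true .npn 1 0 1
    ndF3q1 ndF5q1 pcF0 Cut.none Ext.none :=
  certFX0 (fam := false) (s1 := true) (s2 := true) (a := 1) (b := 0) (c := 1) (cn := .npn) (n1 := ndF3q1) (n2 := ndF5q1) (pc := pcF0) (cut := Cut.none) (xt := Ext.none) (P1 := 536870912) (W1 := 536870912) (P2 := 536870912) (W2 := 469762048) (P3 := 1046898278) (W3 := 26843546)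
    rfl k0_pp_101

noncomputable def f_pp_102 : ℕ → ℕ → ℕ → ℕ → Bool := onCell 536870912 536870912 0 536870912 1046898278 26843546
    (rowFX 1 false true true .npp 1 0 2 (qsf 536870912 536870912 1073741824 536870912 0) ndF3q1 ndF5q2 pcF0 Cut.none Ext.none)

def k0_pp_102 : ∃ t, chk3 f_pp_102 t 1 1 1 = true :=
  ⟨(b (l 3) (a (l 3) (b (l 3) (a (b (l 3) (a (l 3) (a (c (l 16768144) (l 16767912)) (c (b (l 16583848) (l 16583848)) (a (l 16731768) (l 16422944)))))) (a (b (a (l 3) (c (l 15303192) (l 85526719239))) (c (a (l 15858560) (l 15303192)) (a (b (l 15899248) (l 15899248)) (b (l 15264904) (l 15264904))))) (b (a (b (l 3) (c (l 14646872) (l 14650384))) (c (a (l 14087456) (l 13826040)) (a (l 14150488) (c (l 13805880) (l 13807664))))) (a (c (c (l 14641712) (l 14661904)) (b (l 14650384) (l 14650384))) (a (c (l 14087456) (l 14150488)) (c (l 13826040) (a (l 13864640) (l 13728744))))))))))), by decide +kernel⟩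

theorem c_pp_102 : CertFX 536870912 536870912 1073741824 536870912 1046898278 26843546 false true true .npp 1 0 2
    ndF3q1 ndF5q2 pcF0 Cut.none Ext.none :=
  certFX1 (fam := false) (s1 := true) (s2 := true) (a := 1) (b := 0) (c := 2) (cn := .npp) (n1 := ndF3q1) (n2 := ndF5q2) (pc := pcF0) (cut := Cut.none) (xt := Ext.none) (P1 := 536870912) (W1 := 536870912) (P2 := 1073741824) (W2 := 536870912) (P3 := 1046898278) (W3 := 26843546)
    rfl (fun _ => rfl) k0_pp_102

noncomputable def f_pp_112 : ℕ → ℕ → ℕ → ℕ → Bool := onCell 536870912 536870912 1073741824 536870912 1046898278 26843546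
    (rowFX 2 false true true .dn 1 1 2 (qsf 536870912 536870912 1073741824 536870912 1) ndF3q1 ndF5q2 pcF1 Cut.none Ext.none)

def k0_pp_112 : ∃ t, chk3 f_pp_112 t 1 1 1 = true :=
  ⟨(a (b (b (l 3) (a (l 3) (b (l 3) (b (a (l 3) (l 238537169543)) (a (l 16776664) (l 16776664)))))) (a (b (a (b (l 16776496) (a (b (l 16771136) (a (b (l 16760440) (l 16581336)) (l 16768736))) (l 16773248))) (c (l 16776760) (l 16776752))) (a (a (b (a (b (l 16001968) (l 15320344)) (b (b (l 16581336) (l 16257168)) (l 15753504))) (b (c (l 14949832) (l 14962456)) (c (a (l 14139168) (l 14474536)) (a (l 14129232) (l 14469080))))) (b (b (a (l 16630592) (l 16768736)) (a (l 16043912) (l 16397576))) (c (b (l 15636480) (l 14970800)) (b (l 15439080) (l 14962456))))) (b (a (a (b (l 16769600) (l 16651568)) (l 16773504)) (l 16773248)) (a (b (a (l 16085856) (l 16418552)) (a (l 15446176) (l 15753504))) (b (l 16685864) (b (l 16418552) (l 16085856))))))) (b (a (c (l 16777216) (l 16777216)) (l 16777216)) (a (a (b (l 16776232)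 (b (l 16771136) (l 16685864))) (l 16774936)) (l 16776752))))) (b (a (b (l 1) (b (l 1) (b (l 1) (a (l 461205593991) (l 1))))) (l 1)) (a (a (b (c (l 16774568) (l 16774496)) (l 16773008)) (a (b (l 16758840) (l 16752104)) (b (l 550326442327) (l 16758432)))) (a (b (a (l 608844818631) (l 1)) (l 16550184)) (b (l 1) (l 16214768)))))), by decide +kernel⟩

theorem c_pp_112 : CertFX 536870912 536870912 1073741824 536870912 1046898278 26843546 false true true .dn 1 1 2
    ndF3q1 ndF5q2 pcF1 Cut.none Ext.none :=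
  certFX2 (fam := false) (s1 := true) (s2 := true) (a := 1) (b := 1) (c := 2) (cn := .dn) (n1 := ndF3q1) (n2 := ndF5q2) (pc := pcF1) (cut := Cut.none) (xt := Ext.none) (P1 := 536870912) (W1 := 536870912) (P2 := 1073741824) (W2 := 536870912) (P3 := 1046898278) (W3 := 26843546)
    rfl (fun _ => rfl) k0_pp_112

noncomputable def f_pp_113 : ℕ → ℕ → ℕ → ℕ → Bool := onCell 536870912 536870912 0 1230186008 1046898278 26843546
    (rowFX 0 false true true .nn 1 1 3 (qsf 536870912 536870912 0 1230186008 1) ndF3q1 ndF5q3 pcF1 Cut.none Ext.none)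

def k0_pp_113 : ∃ t, chk3 f_pp_113 t 1 1 1 = true :=
  ⟨(a (b (l 2) (b (a (l 2) (b (l 2) (a (l 2) (b (l 2) (l 15815536))))) (b (a (l 2) (b (a (b (l 2) (l 16136464)) (l 16308424)) (a (l 16287168) (l 16504320)))) (b (a (a (l 2) (l 16195200)) (a (l 16451408) (l 16684744))) (a (a (l 16036224) (l 16422648)) (a (l 16885072) (l 16766840))))))) (a (b (l 2) (b (b (a (l 2) (b (l 14959560) (l 15512376))) (b (a (l 15667416) (l 16073160)) (a (b (l 16108584) (l 16382976)) (a (l 16519728) (l 16467944))))) (b (b (a (l 16560912) (a (l 16729808) (l 16584248))) (a (l 16711392) (l 16530552))) (a (b (l 16767176) (l 16774896)) (b (l 16688472) (l 16685864)))))) (a (b (b (l 2) (b (l 13262024) (b (l 13798008) (l 14216760)))) (b (b (b (l 14689768) (l 15104640)) (b (l 15455400) (a (l 15888080) (l 15297240)))) (b (b (l 15634512) (l 15518528)) (a (l 15805504) (b (l 15284048) (b (l 15284048) (l 15284048))))))) (a (b (b (l 2) (b (l 13502680) (b (l 13579224) (l 13826160)))) (b (b (l 14313208) (b (l 14634256) (l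 14647664))) (b (l 14450464) (b (l 14638568) (b (l 14638568) (c (l 14646872) (l 14629408))))))) (b (b (b (b (l 16514240) (l 16643512)) (l 15638560)) (b (b (l 13490736) (l 13153392)) (l 13295296))) (b (b (b (l 13725120) (l 13947624)) (b (l 13994520) (l 13985968))) (b (b (l 13983624) (l 13983624)) (b (c (l 13974584) (l 13979936)) (b (l 13794880) (c (l 13974584) (c (l 13977656) (l 13980840)))))))))))), by decide +kernel⟩

theorem c_pp_113 : CertFX 536870912 536870912 0 1230186008 1046898278 26843546 false true true .nn 1 1 3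
    ndF3q1 ndF5q3 pcF1 Cut.none Ext.none :=
  certFX0 (fam := false) (s1 := true) (s2 := true) (a := 1) (b := 1) (c := 3) (cn := .nn) (n1 := ndF3q1) (n2 := ndF5q3) (pc := pcF1) (cut := Cut.none) (xt := Ext.none) (P1 := 536870912) (W1 := 536870912) (P2 := 0) (W2 := 1230186008) (P3 := 1046898278) (W3 := 26843546)
    rfl k0_pp_113

noncomputable def f_pp_123 : ℕ → ℕ → ℕ → ℕ → Bool := onCell 1073741824 536870912 0 1230186008 1046898278 26843546
    (rowFX 2 false true true .npn 1 2 3 (qsf 536870912 536870912 0 1230186008 2) ndF3q1 ndF5q3 pcF2 Cut.none Ext.none)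

def k0_pp_123 : ∃ t, chk3 f_pp_123 t 1 1 1 = true :=
  ⟨(a (b (a (b (a (b (a (l 15933560) (l 16262176)) (a (l 15094840) (l 15474688))) (a (l 15620192) (l 15406872))) (a (b (l 14726760) (a (l 14139672) (l 14701432))) (b (a (l 14967664) (l 14994472)) (l 14972808)))) (b (a (a (l 15195384) (l 15516784)) (l 4)) (a (b (l 15403432) (l 15445040)) (a (l 15948344) (l 16205704))))) (a (b (a (b (b (l 14807016) (l 15039992)) (l 15307256)) (b (l 15130704) (l 15344072))) (b (a (l 15576720) (l 15474544)) (a (l 15720928) (l 15407904)))) (b (a (a (l 15248832) (l 15737832)) (a (l 16226056) (l 16506032))) (a (a (a (l 695277563431) (l 700646555575)) (a (l 702794745671) (l 705479774695))) (a (l 706017597463) (l 730178245927)))))) (b (b (l 4) (a (a (l 16508664) (l 16736328)) (b (l 4) (l 16750656)))) (b (a (a (l 16644176) (l 16772728)) (b (l 16777168) (l 1))) (l 1)))), by decide +kernel⟩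

theorem c_pp_123 : CertFX 536870912 536870912 0 1230186008 1046898278 26843546 false true true .npn 1 2 3
    ndF3q1 ndF5q3 pcF2 Cut.none Ext.none :=
  certFX2 (fam := false) (s1 := true) (s2 := true) (a := 1) (b := 2) (c := 3) (cn := .npn) (n1 := ndF3q1) (n2 := ndF5q3) (pc := pcF2) (cut := Cut.none) (xt := Ext.none) (P1 := 536870912) (W1 := 536870912) (P2 := 0) (W2 := 1230186008) (P3 := 1046898278) (W3 := 26843546)
    rfl (fun _ => rfl) k0_pp_123

noncomputable def f_pp_133 : ℕ → ℕ → ℕ → ℕ → Bool := onCell 1610612736 536870912 0 1230186008 1046898278 26843546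
    (rowFX 2 false true true .dn 1 3 3 (qsf 536870912 536870912 0 1230186008 3) ndF3q1 ndF5q3 pcF3 Cut.none Ext.none)

def k0_pp_133 : ∃ t, chk3 f_pp_133 t 1 1 1 = true :=
  ⟨(b (b (l 4) (l 1)) (l 1)), by decide +kernel⟩

theorem c_pp_133 : CertFX 536870912 536870912 0 1230186008 1046898278 26843546 false true true .dn 1 3 3
    ndF3q1 ndF5q3 pcF3 Cut.none Ext.none :=
  certFX2 (fam := false) (s1 := true) (s2 := true) (a := 1) (b := 3) (c := 3) (cn := .dn) (n1 := ndF3q1) (n2 := ndF5q3) (pc := pcF3) (cut := Cut.none) (xt := Ext.none) (P1 := 536870912) (W1 := 536870912) (P2 := 0) (W2 := 1230186008) (P3 := 1046898278) (W3 := 26843546)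
    rfl (fun _ => rfl) k0_pp_133

noncomputable def f_pp_202 : ℕ → ℕ → ℕ → ℕ → Bool := onCell 1073741824 536870912 1073741824 536870912 1046898278 26843546
    (rowFX 0 false true true .pp 2 0 2 (qsf 1073741824 536870912 1073741824 536870912 0) ndF3q2 ndF5q2 pcF0 Cut.none Ext.none)

def k0_pp_202 : ∃ t, chk3 f_pp_202 t 1 1 1 = true :=
  ⟨(l 3), by decide +kernel⟩

theorem c_pp_202 : CertFX 1073741824 536870912 1073741824 536870912 1046898278 26843546 false true true .pp 2 0 2
    ndF3q2 ndF5q2 pcF0 Cut.none Ext.none :=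
  certFX0 (fam := false) (s1 := true) (s2 := true) (a := 2) (b := 0) (c := 2) (cn := .pp) (n1 := ndF3q2) (n2 := ndF5q2) (pc := pcF0) (cut := Cut.none) (xt := Ext.none) (P1 := 1073741824) (W1 := 536870912) (P2 := 1073741824) (W2 := 536870912) (P3 := 1046898278) (W3 := 26843546)
    rfl k0_pp_202

noncomputable def f_pp_203 : ℕ → ℕ → ℕ → ℕ → Bool := onCell 0 536870912 0 1230186008 1046898278 26843546
    (rowFX 2 false true true .up 2 0 3 (qsf 1073741824 536870912 0 1230186008 0) ndF3q2 ndF5q3 pcF0 Cut.none Ext.none)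

def k0_pp_203 : ∃ t, chk3 f_pp_203 t 1 1 1 = true :=
  ⟨(b (l 3) (l 3)), by decide +kernel⟩

theorem c_pp_203 : CertFX 1073741824 536870912 0 1230186008 1046898278 26843546 false true true .up 2 0 3
    ndF3q2 ndF5q3 pcF0 Cut.none Ext.none :=
  certFX2 (fam := false) (s1 := true) (s2 := true) (a := 2) (b := 0) (c := 3) (cn := .up) (n1 := ndF3q2) (n2 := ndF5q3) (pc := pcF0) (cut := Cut.none) (xt := Ext.none) (P1 := 1073741824) (W1 := 536870912) (P2 := 0) (W2 := 1230186008) (P3 := 1046898278) (W3 := 26843546)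
    rfl (fun _ => rfl) k0_pp_203

noncomputable def cut_pp_213 : Cut := Cut.of [[⟨0, 1, 0, 67108864⟩, ⟨1, 1, 0, 67108864⟩, ⟨2, 2, 0, 67108864⟩, ⟨3, 0, 0, 1233125376⟩]]

noncomputable def f_pp_213 : ℕ → ℕ → ℕ → ℕ → Bool := onCell 1073741824 536870912 0 1230186008 1046898278 26843546
    (rowFX 0 false true true .pnn 2 1 3 (qsf 1073741824 536870912 0 1230186008 1) ndF3q2 ndF5q3 pcF1 cut_pp_213 Ext.none)

def k0_pp_213 : ∃ t, chk3 f_pp_213 t 1 1 1 = true :=
  ⟨(b (a (a (b (a (a (l 6) (l 3)) (l 3)) (l 3)) (l 3)) (l 3)) (l 3)), by decide +kernel⟩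

theorem c_pp_213 : CertFX 1073741824 536870912 0 1230186008 1046898278 26843546 false true true .pnn 2 1 3
    ndF3q2 ndF5q3 pcF1 cut_pp_213 Ext.none :=
  certFX0 (fam := false) (s1 := true) (s2 := true) (a := 2) (b := 1) (c := 3) (cn := .pnn) (n1 := ndF3q2) (n2 := ndF5q3) (pc := pcF1) (cut := cut_pp_213) (xt := Ext.none) (P1 := 1073741824) (W1 := 536870912) (P2 := 0) (W2 := 1230186008) (P3 := 1046898278) (W3 := 26843546)
    rfl k0_pp_213

noncomputable def f_pp_303 : ℕ → ℕ → ℕ → ℕ → Bool := onCell 1610612736 536870912 0 1230186008 1046898278 26843546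
    (rowFX 0 false true true .npn 3 0 3 (qsf 1610612736 536870912 0 1230186008 0) ndF3q3 ndF5q3 pcF0 Cut.none Ext.none)

def k0_pp_303 : ∃ t, chk3 f_pp_303 t 1 1 1 = true :=
  ⟨(b (l 3) (l 3)), by decide +kernel⟩

theorem c_pp_303 : CertFX 1610612736 536870912 0 1230186008 1046898278 26843546 false true true .npn 3 0 3
    ndF3q3 ndF5q3 pcF0 Cut.none Ext.none :=
  certFX0 (fam := false) (s1 := true) (s2 := true) (a := 3) (b := 0) (c := 3) (cn := .npn) (n1 := ndF3q3) (n2 := ndF5q3) (pc := pcF0) (cut := Cut.none) (xt := Ext.none) (P1 := 1610612736) (W1 := 536870912) (P2 := 0) (W2 := 1230186008) (P3 := 1046898278) (W3 := 26843546)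
    rfl k0_pp_303

noncomputable def f_pp_313 : ℕ → ℕ → ℕ → ℕ → Bool := onCell 1610612736 536870912 0 1230186008 1046898278 26843546
    (rowFX 0 false true true .dn 3 1 3 (qsf 1610612736 536870912 0 1230186008 1) ndF3q3 ndF5q3 pcF1 Cut.none Ext.none)

def k0_pp_313 : ∃ t, chk3 f_pp_313 t 1 1 1 = true :=
  ⟨(b (l 3) (l 1)), by decide +kernel⟩

theorem c_pp_313 : CertFX 1610612736 536870912 0 1230186008 1046898278 26843546 false true true .dn 3 1 3
    ndF3q3 ndF5q3 pcF1 Cut.none Ext.none :=
  certFX0 (fam := false) (s1 := true) (s2 := true) (a := 3) (b := 1) (c := 3) (cn := .dn) (n1 := ndF3q3) (n2 := ndF5q3) (pc := pcF1) (cut := Cut.none) (xt := Ext.none) (P1 := 1610612736) (W1 := 536870912) (P2 := 0) (W2 := 1230186008) (P3 := 1046898278) (W3 := 26843546)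
    rfl k0_pp_313

noncomputable def f_pm_001 : ℕ → ℕ → ℕ → ℕ → Bool := onCell 0 536870912 536870912 469762048 1046898278 26843546
    (rowFX 0 false true false .up 0 0 1 (qsf 0 536870912 536870912 469762048 0) ndF3q0 ndF5q1 pcF0 Cut.none Ext.none)

def k0_pm_001 : ∃ t, chk3 f_pm_001 t 1 1 1 = true :=
  ⟨(l 4), by decide +kernel⟩

theorem c_pm_001 : CertFX 0 536870912 536870912 469762048 1046898278 26843546 false true false .up 0 0 1
    ndF3q0 ndF5q1 pcF0 Cut.none Ext.none :=
  certFX0 (fam := false) (s1 := true) (s2 := false) (a := 0) (b := 0) (c := 1) (cn := .up) (n1 := ndF3q0) (n2 := ndF5q1) (pc := pcF0) (cut := Cut.none) (xt := Ext.none) (P1 := 0) (W1 := 536870912) (P2 := 536870912) (W2 := 469762048) (P3 := 1046898278) (W3 := 26843546)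
    rfl k0_pm_001

noncomputable def f_pm_011 : ℕ → ℕ → ℕ → ℕ → Bool := onCell 0 536870912 536870912 469762048 1046898278 26843546
    (rowFX 0 false true false .pnn 0 1 1 (qsf 0 536870912 536870912 469762048 1) ndF3q0 ndF5q1 pcF1 Cut.none Ext.none)

def k0_pm_011 : ∃ t, chk3 f_pm_011 t 1 1 1 = true :=
  ⟨(l 4), by decide +kernel⟩

theorem c_pm_011 : CertFX 0 536870912 536870912 469762048 1046898278 26843546 false true false .pnn 0 1 1
    ndF3q0 ndF5q1 pcF1 Cut.none Ext.none :=
  certFX0 (fam := false) (s1 := true) (s2 := false) (a := 0) (b := 1) (c := 1) (cn := .pnn) (n1 := ndF3q0) (n2 := ndF5q1) (pc := pcF1) (cut := Cut.none) (xt := Ext.none) (P1 := 0) (W1 := 536870912) (P2 := 536870912) (W2 := 469762048) (P3 := 1046898278) (W3 := 26843546)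
    rfl k0_pm_011

noncomputable def f_pm_012 : ℕ → ℕ → ℕ → ℕ → Bool := onCell 0 536870912 1073741824 536870912 1046898278 26843546
    (rowFX 0 false true false .pnp 0 1 2 (qsf 0 536870912 1073741824 536870912 1) ndF3q0 ndF5q2 pcF1 Cut.none Ext.none)

def k0_pm_012 : ∃ t, chk3 f_pm_012 t 1 1 1 = true :=
  ⟨(l 4), by decide +kernel⟩

theorem c_pm_012 : CertFX 0 536870912 1073741824 536870912 1046898278 26843546 false true false .pnp 0 1 2
    ndF3q0 ndF5q2 pcF1 Cut.none Ext.none :=
  certFX0 (fam := false) (s1 := true) (s2 := false) (a := 0) (b := 1) (c := 2) (cn := .pnp) (n1 := ndF3q0) (n2 := ndF5q2) (pc := pcF1) (cut := Cut.none) (xt := Ext.none) (P1 := 0) (W1 := 536870912) (P2 := 1073741824) (W2 := 536870912) (P3 := 1046898278) (W3 := 26843546)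
    rfl k0_pm_012

noncomputable def f_pm_022 : ℕ → ℕ → ℕ → ℕ → Bool := onCell 0 536870912 1073741824 536870912 1046898278 26843546
    (rowFX 0 false true false .pp 0 2 2 (qsf 0 536870912 1073741824 536870912 2) ndF3q0 ndF5q2 pcF2 Cut.none Ext.none)

def k0_pm_022 : ∃ t, chk3 f_pm_022 t 1 1 1 = true :=
  ⟨(l 4), by decide +kernel⟩

theorem c_pm_022 : CertFX 0 536870912 1073741824 536870912 1046898278 26843546 false true false .pp 0 2 2
    ndF3q0 ndF5q2 pcF2 Cut.none Ext.none :=
  certFX0 (fam := false) (s1 := true) (s2 := false) (a := 0) (b := 2) (c := 2) (cn := .pp) (n1 := ndF3q0) (n2 := ndF5q2) (pc := pcF2) (cut := Cut.none) (xt := Ext.none) (P1 := 0) (W1 := 536870912) (P2 := 1073741824) (W2 := 536870912) (P3 := 1046898278) (W3 := 26843546)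
    rfl k0_pm_022

noncomputable def f_pm_023 : ℕ → ℕ → ℕ → ℕ → Bool := onCell 0 536870912 0 1230186008 1046898278 26843546
    (rowFX 0 false true false .up 0 2 3 (qsf 0 536870912 0 1230186008 2) ndF3q0 ndF5q3 pcF2 Cut.none Ext.none)

def k0_pm_023 : ∃ t, chk3 f_pm_023 t 1 1 1 = true :=
  ⟨(b (l 4) (l 4)), by decide +kernel⟩

theorem c_pm_023 : CertFX 0 536870912 0 1230186008 1046898278 26843546 false true false .up 0 2 3
    ndF3q0 ndF5q3 pcF2 Cut.none Ext.none :=
  certFX0 (fam := false) (s1 := true) (s2 := false) (a := 0) (b := 2) (c := 3) (cn := .up) (n1 := ndF3q0) (n2 := ndF5q3) (pc := pcF2) (cut := Cut.none) (xt := Ext.none) (P1 := 0) (W1 := 536870912) (P2 := 0) (W2 := 1230186008) (P3 := 1046898278) (W3 := 26843546)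
    rfl k0_pm_023

noncomputable def f_pm_033 : ℕ → ℕ → ℕ → ℕ → Bool := onCell 0 536870912 0 1230186008 1046898278 26843546
    (rowFX 0 false true false .pnn 0 3 3 (qsf 0 536870912 0 1230186008 3) ndF3q0 ndF5q3 pcF3 Cut.none Ext.none)

def k0_pm_033 : ∃ t, chk3 f_pm_033 t 1 1 1 = true :=
  ⟨(b (l 4) (l 4)), by decide +kernel⟩

theorem c_pm_033 : CertFX 0 536870912 0 1230186008 1046898278 26843546 false true false .pnn 0 3 3
    ndF3q0 ndF5q3 pcF3 Cut.none Ext.none :=
  certFX0 (fam := false) (s1 := true) (s2 := false) (a := 0) (b := 3) (c := 3) (cn := .pnn) (n1 := ndF3q0) (n2 := ndF5q3) (pc := pcF3) (cut := Cut.none) (xt := Ext.none) (P1 := 0) (W1 := 536870912) (P2 := 0) (W2 := 1230186008) (P3 := 1046898278) (W3 := 26843546)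
    rfl k0_pm_033

noncomputable def f_pm_101 : ℕ → ℕ → ℕ → ℕ → Bool := onCell 536870912 536870912 536870912 469762048 1046898278 26843546
    (rowFX 0 false true false .npn 1 0 1 (qsf 536870912 536870912 536870912 469762048 0) ndF3q1 ndF5q1 pcF0 Cut.none Ext.none)

def k0_pm_101 : ∃ t, chk3 f_pm_101 t 1 1 1 = true :=
  ⟨(l 4), by decide +kernel⟩

theorem c_pm_101 : CertFX 536870912 536870912 536870912 469762048 1046898278 26843546 false true false .npn 1 0 1
    ndF3q1 ndF5q1 pcF0 Cut.none Ext.none :=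
  certFX0 (fam := false) (s1 := true) (s2 := false) (a := 1) (b := 0) (c := 1) (cn := .npn) (n1 := ndF3q1) (n2 := ndF5q1) (pc := pcF0) (cut := Cut.none) (xt := Ext.none) (P1 := 536870912) (W1 := 536870912) (P2 := 536870912) (W2 := 469762048) (P3 := 1046898278) (W3 := 26843546)
    rfl k0_pm_101

noncomputable def f_pm_102 : ℕ → ℕ → ℕ → ℕ → Bool := onCell 536870912 536870912 1073741824 536870912 1046898278 26843546
    (rowFX 0 false true false .npp 1 0 2 (qsf 536870912 536870912 1073741824 536870912 0) ndF3q1 ndF5q2 pcF0 Cut.none Ext.none)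

def k0_pm_102 : ∃ t, chk3 f_pm_102 t 1 1 1 = true :=
  ⟨(l 4), by decide +kernel⟩

theorem c_pm_102 : CertFX 536870912 536870912 1073741824 536870912 1046898278 26843546 false true false .npp 1 0 2
    ndF3q1 ndF5q2 pcF0 Cut.none Ext.none :=
  certFX0 (fam := false) (s1 := true) (s2 := false) (a := 1) (b := 0) (c := 2) (cn := .npp) (n1 := ndF3q1) (n2 := ndF5q2) (pc := pcF0) (cut := Cut.none) (xt := Ext.none) (P1 := 536870912) (W1 := 536870912) (P2 := 1073741824) (W2 := 536870912) (P3 := 1046898278) (W3 := 26843546)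
    rfl k0_pm_102

noncomputable def f_pm_112 : ℕ → ℕ → ℕ → ℕ → Bool := onCell 536870912 536870912 1073741824 536870912 1046898278 26843546
    (rowFX 0 false true false .dn 1 1 2 (qsf 536870912 536870912 1073741824 536870912 1) ndF3q1 ndF5q2 pcF1 Cut.none Ext.none)

def k0_pm_112 : ∃ t, chk3 f_pm_112 t 1 1 1 = true :=
  ⟨(l 4), by decide +kernel⟩

theorem c_pm_112 : CertFX 536870912 536870912 1073741824 536870912 1046898278 26843546 false true false .dn 1 1 2
    ndF3q1 ndF5q2 pcF1 Cut.none Ext.none :=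
  certFX0 (fam := false) (s1 := true) (s2 := false) (a := 1) (b := 1) (c := 2) (cn := .dn) (n1 := ndF3q1) (n2 := ndF5q2) (pc := pcF1) (cut := Cut.none) (xt := Ext.none) (P1 := 536870912) (W1 := 536870912) (P2 := 1073741824) (W2 := 536870912) (P3 := 1046898278) (W3 := 26843546)
    rfl k0_pm_112

noncomputable def f_pm_113 : ℕ → ℕ → ℕ → ℕ → Bool := onCell 536870912 536870912 0 1230186008 1046898278 26843546
    (rowFX 0 false true false .nn 1 1 3 (qsf 536870912 536870912 0 1230186008 1) ndF3q1 ndF5q3 pcF1 Cut.none Ext.none)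

def k0_pm_113 : ∃ t, chk3 f_pm_113 t 1 1 1 = true :=
  ⟨(b (a (l 2) (b (a (l 2) (a (l 2) (a (l 2) (b (l 16484272) (l 4))))) (l 4))) (l 4)), by decide +kernel⟩

theorem c_pm_113 : CertFX 536870912 536870912 0 1230186008 1046898278 26843546 false true false .nn 1 1 3
    ndF3q1 ndF5q3 pcF1 Cut.none Ext.none :=
  certFX0 (fam := false) (s1 := true) (s2 := false) (a := 1) (b := 1) (c := 3) (cn := .nn) (n1 := ndF3q1) (n2 := ndF5q3) (pc := pcF1) (cut := Cut.none) (xt := Ext.none) (P1 := 536870912) (W1 := 536870912) (P2 := 0) (W2 := 1230186008) (P3 := 1046898278) (W3 := 26843546)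
    rfl k0_pm_113

noncomputable def f_pm_123 : ℕ → ℕ → ℕ → ℕ → Bool := onCell 536870912 536870912 0 1230186008 1046898278 26843546
    (rowFX 0 false true false .npn 1 2 3 (qsf 536870912 536870912 0 1230186008 2) ndF3q1 ndF5q3 pcF2 Cut.none Ext.none)

def k0_pm_123 : ∃ t, chk3 f_pm_123 t 1 1 1 = true :=
  ⟨(b (a (l 4) (b (a (l 4) (a (l 4) (a (l 4) (b (l 16240896) (l 4))))) (l 4))) (l 4)), by decide +kernel⟩

theorem c_pm_123 : CertFX 536870912 536870912 0 1230186008 1046898278 26843546 false true false .npn 1 2 3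
    ndF3q1 ndF5q3 pcF2 Cut.none Ext.none :=
  certFX0 (fam := false) (s1 := true) (s2 := false) (a := 1) (b := 2) (c := 3) (cn := .npn) (n1 := ndF3q1) (n2 := ndF5q3) (pc := pcF2) (cut := Cut.none) (xt := Ext.none) (P1 := 536870912) (W1 := 536870912) (P2 := 0) (W2 := 1230186008) (P3 := 1046898278) (W3 := 26843546)
    rfl k0_pm_123

noncomputable def f_pm_133 : ℕ → ℕ → ℕ → ℕ → Bool := onCell 536870912 536870912 0 1230186008 1046898278 26843546
    (rowFX 0 false true false .dn 1 3 3 (qsf 536870912 536870912 0 1230186008 3) ndF3q1 ndF5q3 pcF3 Cut.none Ext.none)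

def k0_pm_133 : ∃ t, chk3 f_pm_133 t 1 1 1 = true :=
  ⟨(b (a (l 4) (l 1)) (l 1)), by decide +kernel⟩

theorem c_pm_133 : CertFX 536870912 536870912 0 1230186008 1046898278 26843546 false true false .dn 1 3 3
    ndF3q1 ndF5q3 pcF3 Cut.none Ext.none :=
  certFX0 (fam := false) (s1 := true) (s2 := false) (a := 1) (b := 3) (c := 3) (cn := .dn) (n1 := ndF3q1) (n2 := ndF5q3) (pc := pcF3) (cut := Cut.none) (xt := Ext.none) (P1 := 536870912) (W1 := 536870912) (P2 := 0) (W2 := 1230186008) (P3 := 1046898278) (W3 := 26843546)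
    rfl k0_pm_133

noncomputable def f_pm_202 : ℕ → ℕ → ℕ → ℕ → Bool := onCell 1073741824 536870912 0 536870912 1046898278 26843546
    (rowFX 1 false true false .pp 2 0 2 (qsf 1073741824 536870912 1073741824 536870912 0) ndF3q2 ndF5q2 pcF0 Cut.none Ext.none)

def k0_pm_202 : ∃ t, chk3 f_pm_202 t 8 8 1 = true :=
  ⟨(b (b (c (a (b (a (b (l 16496296) (c (l 16581552) (l 16605144))) (l 16454552)) (a (c (b (l 16675024) (l 16724144)) (b (l 16665232) (l 16695232))) (c (l 16491736) (l 16532952)))) (b (a (l 16468448) (l 16318488)) (b (c (l 16228120) (l 16329216)) (c (l 16323720) (l 16337216))))) (a (b (c (b (a (l 16499072) (l 16691872)) (a (a (l 16518472) (l 16643512)) (l 16680440))) (b (b (c (l 16469568) (c (l 16455568) (l 16438392))) (c (b (l 16479704) (l 16494552)) (l 16470280))) (c (l 16445512) (l 16548664)))) (c (a (l 16451360) (l 16542904)) (a (l 16581488) (l 16567584)))) (b (c (b (l 16500152) (l 16415072)) (b (c (l 16493328) (l 16404984)) (l 16360808))) (c (l 16272520) (l 16306784)))))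 (c (b (a (a (c (l 16729104) (l 16660656)) (c (l 16580416) (l 16525288))) (c (l 16174648) (l 16200728))) (a (b (a (l 16602808) (l 16445800)) (a (l 16510232) (l 16355504))) (c (b (l 15951264) (l 16117072)) (l 16075696)))) (a (a (b (c (l 16568392) (l 16546464)) (c (l 16267592) (l 16405600))) (b (l 16363976) (c (l 16250768) (l 16249512)))) (b (l 16168256) (l 15801432))))) (b (c (a (c (a (l 16208336) (l 16181832)) (a (b (l 16312312) (l 16156840)) (l 16003272))) (c (l 15840792) (a (l 15901976) (l 15746456)))) (a (a (c (l 16160616) (l 16133488)) (l 16019448)) (l 15783760))) (c (a (c (a (b (l 16032640) (l 15855368)) (b (l 15909656) (l 15739080))) (a (l 15907336) (l 15759240))) (c (b (l 15647048) (l 15486504)) (l 15520352))) (a (a (l 15731344) (l 15702144)) (l 15485248))))), by decide +kernel⟩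

def k1_pm_202 : ∃ t, chk3 f_pm_202 t 8 9 1 = true :=
  ⟨(b (b (c (a (c (a (l 15610272) (l 15503536)) (a (l 15582688) (l 15447240))) (b (l 15319888) (a (l 15258472) (l 15119496)))) (a (a (l 15525792) (l 15383632)) (l 15186280))) (a (c (a (c (b (l 15373512) (l 15210384)) (l 15182864)) (b (l 15234256) (l 15028304))) (a (l 15196136) (l 15069056))) (a (c (c (b (l 15119432) (l 14974144)) (l 14993664)) (l 14946728)) (b (c (a (l 14998480) (c (l 15029848) (l 15011056))) (l 14968104)) (a (c (c (l 14953240) (l 14911992)) (l 14883320)) (l 15083304)))))) (b (a (c (b (a (c (l 15053520) (l 15013328)) (c (l 14969208) (l 14897664))) (a (l 14894232) (l 14803320))) (b (a (l 14953128) (l 14832104)) (a (l 14806576) (l 14692304)))) (c (a (a (b (l 14763912) (c (l 14821560) (l 14754016))) (b (c (l 14877840) (l 14822704)) (l 14954528))) (c (l 15026464) (l 15139216))) (a (b (a (l 14743408) (l 14779360)) (a (l 14696264) (l 14883680))) (b (l 15092096) (l 15252424))))) (a (b (a (c (l 14764032) (l 14670280))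 (a (l 14661064) (c (l 14736512) (l 14626128)))) (a (c (l 14639208) (l 14543240)) (a (c (a (l 14640640) (l 14693064)) (l 14555288)) (l 14808704)))) (a (l 15043912) (l 15527456))))), by decide +kernel⟩

def k2_pm_202 : ∃ t, chk3 f_pm_202 t 9 8 1 = true :=
  ⟨(a (b (b (b (c (l 15968256) (c (l 15800264) (b (l 15840104) (l 15986960)))) (c (c (l 15848864) (l 15876640)) (l 15649464))) (c (b (c (b (l 15865616) (c (l 15838224) (l 15831512))) (b (l 15734384) (l 15787672))) (c (l 15733168) (l 15666712))) (c (b (l 15768840) (l 15617488)) (l 15667672)))) (b (c (c (l 15499408) (l 15440920)) (l 15379568)) (c (a (c (l 15301200) (l 15267968)) (b (c (l 15211944) (l 15173168)) (c (l 15158360) (l 15196784)))) (a (l 15239336) (b (l 15143336) (l 15166848)))))) (b (b (b (c (l 15522808) (c (l 15345328) (c (l 15308944) (l 15276648)))) (c (b (l 15419304) (c (l 15311752) (l 15306096))) (c (b (l 15415000) (l 15358904)) (l 15284624)))) (c (b (c (a (b (l 15497256) (l 15466008)) (b (l 15236368) (a (l 15258144)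 (l 15233320)))) (a (l 15450192) (b (l 15222448) (l 15208344)))) (a (l 15344096) (c (l 15249952) (l 15245656)))) (a (c (l 15303224) (l 15293784)) (b (c (l 15167800) (l 15132424)) (a (l 15123040) (l 15219984)))))) (b (c (a (b (a (l 15261536) (l 15217528)) (c (l 15291080) (l 15236856))) (l 15358240)) (a (b (a (l 15180032) (l 15135784)) (l 15162080)) (l 15395616))) (c (b (l 15318328) (a (l 15524096) (l 15686632))) (l 15357192))))), by decide +kernel⟩

def k3_pm_202 : ∃ t, chk3 f_pm_202 t 9 9 1 = true :=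
  ⟨(b (b (a (c (c (a (b (l 15140896) (l 15119304)) (l 15395888)) (a (b (l 15119784) (l 15147304)) (l 15400856))) (a (b (l 15087912) (l 15107928)) (l 15367064))) (c (c (b (l 15684016) (l 15856544)) (l 15763816)) (a (l 15724296) (l 16017448)))) (a (c (b (l 15277520) (l 15337624)) (a (l 15300304) (l 15673360))) (c (b (l 15921248) (l 15991352)) (b (l 15936864) (l 16025544))))) (a (b (b (c (a (l 15551064) (l 15891864)) (l 15635912)) (l 15865480)) (l 15864560)) (b (a (c (l 16182944) (l 16215352)) (c (l 16362880) (l 16443656))) (a (l 16279288) (l 16489480))))), by decide +kernel⟩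

def k4_pm_202 : ∃ t, chk3 f_pm_202 t 4 5 1 = true :=
  ⟨(b (a (a (b (a (b (b (a (c (l 14521048) (l 14437880)) (c (a (l 14557808) (l 14623008)) (l 14490136))) (a (c (a (l 14402960) (l 14515808)) (a (l 14349640) (l 14424128))) (l 14650248))) (c (a (l 14670104) (l 14953384)) (l 14548640))) (c (b (l 14981704) (l 15300144)) (l 14853104))) (b (a (c (l 14989224) (l 14884904)) (l 15371008)) (a (a (l 15041344) (l 15404408)) (l 15599936)))) (b (a (b (l 15392272) (l 15679048)) (a (l 15730328) (l 15948008))) (a (b (l 15938240) (b (l 15901304) (l 16008808))) (b (a (l 16144640) (l 16377768)) (l 16319784))))) (b (a (b (a (l 16222792) (l 16276552)) (a (c (l 16327168) (l 16379992)) (l 16485704))) (b (l 16463656) (l 16385960))) (a (l 16278264) (l 16252968)))) (a (b (a (a (b (a (l 15393328) (l 15643800)) (c (a (l 15753888) (l 15931680)) (b (a (l 15666832) (l 15847840)) (a (a (l 15721632) (l 15810648)) (l 15869072))))) (b (c (a (l 15986984) (l 16105592)) (a (l 15755080) (l 16034224))) (c (l 16020512)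 (l 15944760)))) (c (l 16150944) (l 16113112))) (a (c (a (l 15859384) (l 15957296)) (a (c (l 15817576) (a (l 15679992) (l 15805144))) (l 15879392))) (l 15979680))) (b (a (l 16166056) (l 16069240)) (a (l 16060448) (l 15972608))))), by decide +kernel⟩

def k5_pm_202 : ∃ t, chk3 f_pm_202 t 10 16 1 = true :=
  ⟨(b (c (b (a (a (l 15092624) (a (l 15211176) (l 15165896))) (a (b (l 15836656) (l 15775200)) (c (l 16451168) (l 16296752)))) (a (c (b (a (a (l 15100856) (l 15176408)) (l 15283720)) (a (l 15212416) (l 15532232))) (b (a (l 15122856) (l 15429976)) (a (l 15224072) (l 15547424)))) (b (a (c (l 15892472) (l 15983160)) (c (l 16268104) (l 16349304))) (c (a (l 16072600) (l 16274136)) (a (l 16094568) (l 16227880)))))) (b (a (b (a (c (l 15107136) (b (l 15081488) (l 15065480))) (c (l 15233928) (l 15211472))) (a (c (l 15098328) (l 15079856)) (a (l 15201216) (c (l 15322952) (l 15413936))))) (c (b (a (l 15803584) (l 16400504)) (a (b (l 15862688) (l 15909040)) (l 16284272))) (b (c (a (l 15687464)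 (l 16249424)) (a (b (l 15761640) (l 15808816)) (b (l 16204704) (l 16415760)))) (a (l 15733760) (l 16344744))))) (a (c (a (b (a (l 15091008) (l 15168264)) (l 15191840)) (b (l 15428816) (l 15520408))) (a (a (l 15075560) (l 15173136)) (l 15436672))) (c (a (l 15799408) (l 16247376)) (a (l 15983992) (l 16314664)))))) (c (a (a (b (c (l 15385616) (l 15358440)) (l 15544088)) (b (c (l 15539016) (l 15684800)) (l 15775800))) (b (a (c (l 16028888) (l 16225160)) (c (a (l 16240352) (l 15943520)) (l 16079344))) (a (l 16261328) (c (l 15924688) (l 15983824))))) (a (a (l 15206864) (c (l 15673640) (l 15692440))) (a (c (l 16135688) (l 16183992)) (l 15895712))))), by decide +kernel⟩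

def k6_pm_202 : ∃ t, chk3 f_pm_202 t 10 17 1 = true :=
  ⟨(a (b (c (a (l 15693912) (a (l 15967712) (l 16070064))) (b (l 15592480) (l 15770448))) (c (a (c (l 15818104) (l 16018296)) (b (l 16053568) (c (l 16236368) (l 16385024)))) (a (l 16006744) (l 16201520)))) (c (c (b (a (l 16351616) (b (l 15845296) (l 15817544))) (a (b (l 16020696) (l 16136576)) (l 15831192))) (b (a (l 16402720) (l 15852896)) (a (l 16098120) (l 15914776)))) (b (a (l 16378248) (l 15879464)) (a (l 16098168) (l 15900424))))), by decide +kernel⟩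

def k7_pm_202 : ∃ t, chk3 f_pm_202 t 10 9 1 = true :=
  ⟨(b (b (a (a (c (l 16078312) (l 16247072)) (b (b (c (l 16389080) (l 16478032)) (l 16300976)) (l 16273008))) (c (c (l 16067160) (l 16126864)) (l 16113496))) (a (c (a (l 16255768) (l 16485136)) (a (l 16276112) (l 16486648))) (c (l 16276816) (l 16264376)))) (b (a (c (l 16426912) (l 16423696)) (l 16384248)) (a (l 16351168) (l 16461928)))), by decide +kernel⟩

def k8_pm_202 : ∃ t, chk3 f_pm_202 t 11 4 1 = true :=
  ⟨(b (a (b (b (c (b (a (l 15614272) (c (l 15284088) (l 15282208))) (b (a (c (l 15776976) (l 15743680)) (c (l 15269944) (l 15228176))) (c (a (l 15684688) (l 15237704)) (a (l 15628640) (l 15173936))))) (b (c (b (l 15517352) (c (l 15302008) (l 15263736))) (a (b (c (l 15881432) (l 15692056)) (l 15797240)) (b (c (l 15277784) (l 15272504)) (l 15219376)))) (c (a (l 15677512) (l 15192888)) (l 15245104)))) (c (b (a (c (l 15279600) (l 15531768)) (c (l 15184288) (l 15179296))) (a (l 15414584) (l 15228272))) (a (l 15354784) (l 15241896))))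 (c (b (c (l 15431592) (l 15461824)) (b (l 15585344) (l 15609272))) (b (l 15471416) (l 15564168)))) (b (b (c (b (c (l 15009392) (l 15003272)) (c (b (l 15085696) (l 15085656)) (l 15036520))) (b (c (b (l 14973248) (l 14997920)) (b (l 14852248) (l 14973136))) (l 14775456))) (c (b (c (l 15047192) (l 15040224)) (l 15094496)) (l 15102200))) (c (b (l 15234928) (c (l 15396152) (l 15392976))) (b (l 15231064) (l 15360336))))) (b (a (b (c (l 15762312) (l 15734088)) (l 15885960)) (c (b (l 15550016) (l 15702080)) (l 15555064))) (c (a (l 15837416) (l 15927792)) (a (l 16051984) (l 15905736))))), by decide +kernel⟩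

def k9_pm_202 : ∃ t, chk3 f_pm_202 t 5 5 1 = true :=
  ⟨(b (a (b (a (l 16243256) (l 16483360)) (a (l 16084984) (l 16338424))) (a (b (l 16264184) (l 16490984)) (b (l 16102960) (c (l 16360184) (l 16349352))))) (a (b (a (l 15916096) (l 16185208)) (a (l 15828568) (b (l 16107160) (l 16106936)))) (c (b (a (l 16623792) (l 16622952)) (a (l 16431272) (l 16769344))) (b (a (l 16621432) (l 16618952)) (a (l 16488488) (l 16769144)))))), by decide +kernel⟩

def k10_pm_202 : ∃ t, chk3 f_pm_202 t 2 3 1 = true :=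
  ⟨(a (b (a (a (b (c (l 15798520) (a (l 15799104) (l 15879216))) (a (b (l 15741696) (l 15825584)) (l 15930616))) (b (c (l 16038456) (l 15996768)) (l 16021456))) (b (a (l 16060296) (l 15972464)) (c (b (l 16010400) (l 16010400)) (b (l 15990480) (l 15990480))))) (b (a (a (a (l 15825584) (l 15930616)) (b (l 16021456) (c (l 16038456) (l 15996768)))) (c (a (l 16069488) (l 15982784)) (a (l 16051104) (l 15962152)))) (a (a (b (l 15867464) (c (l 15903376) (a (l 15799104) (l 15879216)))) (c (l 16017488) (b (l 15996768) (l 15996768)))) (c (l 16010400) (a (l 16051104) (l 2)))))) (b (a (b (c (a (l 15840608) (l 16115536)) (a (b (l 15816280) (l 15816280)) (l 16098344))) (a (c (l 15840608) (l 15816280)) (c (l 16115536) (l 16098344)))) (b (a (c (l 16555984) (l 16550240)) (c (l 16776904) (l 16776896))) (a (c (l 16555984) (l 16550240)) (l 2)))) (a (b (a (c (l 15840608) (l 15816280)) (l 2)) (l 2)) (l 2)))), by decide +kernel⟩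

def k11_pm_202 : ∃ t, chk3 f_pm_202 t 6 2 1 = true :=
  ⟨(a (b (b (b (c (c (b (b (l 14923360) (a (l 15041736) (b (l 14962672) (l 14975648)))) (b (l 14970584) (l 15040152))) (b (b (l 14940024) (b (l 14978648) (l 14943680))) (l 15016056))) (b (b (c (l 14750864) (c (l 14906808) (l 14900408))) (c (l 14947528) (l 14954168))) (c (l 15026480) (l 15022200)))) (c (b (a (c (l 15183840) (l 15198696)) (c (l 15151320) (l 15157880))) (c (l 15347576) (l 15338584))) (b (a (l 15182872) (l 15141296)) (a (l 15309472) (l 15296008))))) (b (c (b (l 15511776) (l 15642280)) (b (l 15477584) (l 15549776))) (c (b (l 15798752) (l 15921560)) (b (l 15773320) (l 15899336))))) (b (b (c (l 16093464) (l 16075704)) (a (l 16345984) (l 16335872))) (b (a (l 16595792) (l 16578480)) (a (l 16710792) (l 16760704))))) (b (b (b (c (b (b (a (l 14856336) (c (l 14822216) (l 14714440))) (a (c (a (l 14959448) (l 14909184)) (b (l 14894968) (l 14899224))) (c (b (l 14847008) (l 14862464)) (b (l 14817472) (l 14854272))))) (b (c (a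 (l 14942288) (l 14907752)) (l 14901384)) (l 14820232))) (b (b (c (a (l 14646832) (c (l 14780392) (l 14540784))) (b (c (l 14789880) (l 14788840)) (l 14799952))) (c (a (l 14875992) (l 14831224)) (l 14838264))) (c (a (l 14970400) (l 14843040)) (a (l 14958360) (l 14934488))))) (c (b (c (l 15109608) (a (l 15147616) (l 15105544))) (c (l 309401899191) (l 15265768))) (b (a (l 15128584) (l 15089336)) (l 15236240)))) (b (c (b (a (l 15426184) (l 15400568)) (l 303497071191)) (b (a (l 15389752) (l 15364008)) (a (l 15579448) (l 15551944)))) (c (b (l 301886788823) (l 15899536)) (b (l 297054929127) (l 297592173335))))) (b (b (c (l 318530482727) (l 299739954375)) (c (l 305646105767) (l 302424857991))) (l 3)))), by decide +kernel⟩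

def k12_pm_202 : ∃ t, chk3 f_pm_202 t 7 2 1 = true :=
  ⟨(b (a (a (b (b (b (c (b (b (l 14771824) (l 331412658167)) (l 14830560)) (b (c (b (l 14734064) (a (l 14634032) (l 14755752))) (b (c (l 14715328) (l 298126486231)) (l 14749496))) (c (l 14814664) (l 14809176)))) (c (l 327117974871) (c (l 312622462487) (l 14925160)))) (c (b (c (l 15076080) (l 15087512)) (l 3)) (l 333023966503))) (l 3)) (l 3)) (l 3)) (l 3)), by decide +kernel⟩

def k13_pm_202 : ∃ t, chk3 f_pm_202 t 3 3 1 = true :=
  ⟨(b (a (b (c (l 392553299975) (l 449461616567)) (l 2)) (l 2)) (l 2)), by decide +kernel⟩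

theorem s14_pm_202 : ∃ t, chk3 f_pm_202 t 3 2 1 = true := ex3_a k11_pm_202 k12_pm_202

theorem s15_pm_202 : ∃ t, chk3 f_pm_202 t 3 1 1 = true := ex3_b s14_pm_202 k13_pm_202

theorem s16_pm_202 : ∃ t, chk3 f_pm_202 t 10 8 1 = true := ex3_b k5_pm_202 k6_pm_202

theorem s17_pm_202 : ∃ t, chk3 f_pm_202 t 10 4 1 = true := ex3_b s16_pm_202 k7_pm_202

theorem s18_pm_202 : ∃ t, chk3 f_pm_202 t 5 4 1 = true := ex3_a s17_pm_202 k8_pm_202

theorem s19_pm_202 : ∃ t, chk3 f_pm_202 t 5 2 1 = true := ex3_b s18_pm_202 k9_pm_202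

theorem s20_pm_202 : ∃ t, chk3 f_pm_202 t 9 4 1 = true := ex3_b k2_pm_202 k3_pm_202

theorem s21_pm_202 : ∃ t, chk3 f_pm_202 t 8 4 1 = true := ex3_b k0_pm_202 k1_pm_202

theorem s22_pm_202 : ∃ t, chk3 f_pm_202 t 4 4 1 = true := ex3_a s21_pm_202 s20_pm_202

theorem s23_pm_202 : ∃ t, chk3 f_pm_202 t 4 2 1 = true := ex3_b s22_pm_202 k4_pm_202

theorem s24_pm_202 : ∃ t, chk3 f_pm_202 t 2 2 1 = true := ex3_a s23_pm_202 s19_pm_202

theorem s25_pm_202 : ∃ t, chk3 f_pm_202 t 2 1 1 = true := ex3_b s24_pm_202 k10_pm_202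

theorem s26_pm_202 : ∃ t, chk3 f_pm_202 t 1 1 1 = true := ex3_a s25_pm_202 s15_pm_202

theorem c_pm_202 : CertFX 1073741824 536870912 1073741824 536870912 1046898278 26843546 false true false .pp 2 0 2
    ndF3q2 ndF5q2 pcF0 Cut.none Ext.none :=
  certFX1 (fam := false) (s1 := true) (s2 := false) (a := 2) (b := 0) (c := 2) (cn := .pp) (n1 := ndF3q2) (n2 := ndF5q2) (pc := pcF0) (cut := Cut.none) (xt := Ext.none) (P1 := 1073741824) (W1 := 536870912) (P2 := 1073741824) (W2 := 536870912) (P3 := 1046898278) (W3 := 26843546)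
    rfl (fun _ => rfl) s26_pm_202

end Pool.Agent.Strip051.G.IE1.Tab.C.FB35

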