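import Pool.Agent.Strip051.G.IE1.Tab

/-! # Certificates F48 (generated) -/

set_option linter.all false
set_option maxRecDepth 100000

namespace Pool.Agent.Strip051.G.IE1.Tab.C.FB35

open Pool.Agent.Strip051.PB Pool.Agent.Strip051.PB.T
open Pool.Agent.Strip051.G.IE1.Tab

noncomputable def f_pm_203 : ℕ → ℕ → ℕ → ℕ → Bool := onCell 1073741824 536870912 0 1230186008 1046898278 26843546
    (rowFX 0 false true false .up 2 0 3 (qsf 1073741824 536870912 0 1230186008 0) ndF3q2 ndF5q3 pcF0 Cut.none Ext.none)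

def k0_pm_203 : ∃ t, chk3 f_pm_203 t 1 1 1 = true :=
  ⟨(b (a (l 2) (l 3)) (a (b (a (l 2) (a (l 2) (l 3))) (b (a (l 2) (a (b (a (l 2) (c (l 16115536) (l 16098344))) (a (c (l 15840608) (l 15816280)) (c (l 16115536) (l 16098344)))) (b (l 3) (a (c (l 16493072) (l 16550240)) (l 3))))) (b (a (a (l 2) (c (a (l 16069488) (l 15982784)) (a (l 16051104) (l 36069195527)))) (a (a (c (l 15840608) (l 15816280)) (c (l 16115536) (l 16098344))) (a (c (l 16514048) (l 16529272)) (c (l 16776904) (l 16776896))))) (a (a (a (b (l 2) (a (b (l 2) (l 15825584)) (c (l 15957120) (l 15879216)))) (c (b (l 16038456) (l 16038456)) (b (l 15996768) (l 15996768)))) (c (a (l 16069488) (l 15982784)) (a (c (l 16055704) (l 16046512)) (b (l 15962152) (l 15962152))))) (a (a (c (l 15840608) (l 15816280)) (c (l 16115536) (l 16098344))) (a (b (l 16469232) (c (l 16555984) (l 16550240))) (c (l 16776904) (l 16776896)))))))) (b (l 3) (b (l 3) (a (b (l 3) (a (b (a (l 16777216) (l 3)) (a (c (l 16770240) (l 16770064))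 (b (l 3) (l 603610312423)))) (l 3))) (l 3)))))), by decide +kernel⟩

theorem c_pm_203 : CertFX 1073741824 536870912 0 1230186008 1046898278 26843546 false true false .up 2 0 3
    ndF3q2 ndF5q3 pcF0 Cut.none Ext.none :=
  certFX0 (fam := false) (s1 := true) (s2 := false) (a := 2) (b := 0) (c := 3) (cn := .up) (n1 := ndF3q2) (n2 := ndF5q3) (pc := pcF0) (cut := Cut.none) (xt := Ext.none) (P1 := 1073741824) (W1 := 536870912) (P2 := 0) (W2 := 1230186008) (P3 := 1046898278) (W3 := 26843546)
    rfl k0_pm_203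

noncomputable def cut_pm_213 : Cut := Cut.of [[⟨0, 1, 0, 67108864⟩, ⟨1, 1, 0, 67108864⟩, ⟨2, 2, 0, 67108864⟩, ⟨3, 0, 0, 1233125376⟩]]

noncomputable def f_pm_213 : ℕ → ℕ → ℕ → ℕ → Bool := onCell 1073741824 536870912 0 1230186008 1046898278 26843546
    (rowFX 0 false true false .pnn 2 1 3 (qsf 1073741824 536870912 0 1230186008 1) ndF3q2 ndF5q3 pcF1 cut_pm_213 Ext.none)

def k0_pm_213 : ∃ t, chk3 f_pm_213 t 1 2 1 = true :=
  ⟨(a (a (b (a (a (l 6) (b (l 3) (b (l 3) (l 3)))) (l 3)) (a (b (a (b (a (l 6) (a (b (l 6) (c (l 16038776) (l 15790256))) (c (b (l 16174072) (l 16095464)) (b (l 15966312) (l 15904712))))) (b (a (a (l 6) (c (c (l 15945168) (l 15824176)) (l 15625952))) (c (l 16132872) (l 15819000))) (a (c (a (l 15749360) (c (l 15893000) (l 15794288))) (a (c (l 15516528) (l 15389792)) (l 15632872))) (c (l 15968320) (l 15807312))))) (a (b (c (b (l 16222408) (l 16154768)) (l 15975960)) (c (b (l 16102512) (l 16066288)) (l 15983816))) (b (l 3) (l 3)))) (a (b (a (c (b (a (l 15669568)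 (l 15820000)) (a (l 15668584) (l 15812048))) (a (b (l 15488504) (l 15526584)) (b (l 15648336) (l 15668952)))) (c (b (l 15943216) (l 15928144)) (l 15742792))) (a (b (c (l 15748720) (l 15610856)) (c (l 15777528) (l 15684424))) (b (c (l 15925688) (l 15823680)) (c (l 15939088) (l 15852072))))) (b (a (c (l 16027504) (l 15958648)) (b (l 16092720) (a (l 16055872) (l 16094112)))) (a (b (c (l 16009640) (l 15955952)) (l 15900312)) (b (l 16062912) (l 16051672)))))) (b (l 3) (b (l 3) (a (c (l 16075016) (l 16058424)) (l 3)))))) (b (l 3) (l 3))) (l 3)), by decide +kernel⟩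

def k1_pm_213 : ∃ t, chk3 f_pm_213 t 1 6 1 = true :=
  ⟨(a (a (b (a (a (b (a (b (a (l 15739848) (c (l 15888928) (l 15810776))) (a (c (l 15824200) (l 15780136)) (l 15873400))) (b (c (l 15958040) (l 15880504)) (l 15936344))) (c (a (l 15868080) (l 15960968)) (a (l 15809424) (l 15883968)))) (c (b (l 16039512) (l 16039248)) (b (l 15998320) (l 15997776)))) (a (b (l 16060344) (l 16060376)) (c (l 290613165895) (l 372754366311)))) (b (a (a (c (a (l 15862712) (l 15958008)) (a (l 15802760) (l 15880256))) (c (l 16038544) (l 15996864))) (a (l 16060320) (c (l 15982808) (l 15962176)))) (a (a (c (l 15861440) (l 15838912)) (c (l 16038456) (l 15996768))) (a (c (l 16069488) (l 16051104)) (c (l 15982784) (l 15962152)))))) (a (b (l 3) (a (b (l 3) (c (l 15840608) (l 15816280))) (l 3))) (l 3))) (l 3)), by decide +kernel⟩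

def k2_pm_213 : ∃ t, chk3 f_pm_213 t 1 7 1 = true :=
  ⟨(a (a (a (b (b (a (c (l 15798520) (l 15796960)) (c (l 16038456) (l 15996768))) (a (c (l 15840464) (c (l 15855456) (l 15824736))) (c (c (l 16050520) (l 16022624)) (l 15996768)))) (b (c (a (c (l 15925504) (l 15889200)) (c (l 16050520) (l 16022624))) (a (c (l 15834488) (b (l 15824736) (l 15824736))) (b (l 15996768) (l 15996768)))) (c (a (b (l 15903376) (c (l 15925504) (l 15889200))) (b (l 16038456) (l 16038456))) (a (b (c (l 15855456) (l 15824736)) (c (l 15855456) (l 15824736))) (b (l 15996768) (l 15996768)))))) (a (b (b (c (l 16069488) (l 16051104)) (c (l 16069488) (l 16051104))) (b (c (l 16069488) (l 16051104)) (c (l 16069488) (b (l 16051104) (l 1))))) (b (c (b (l 15982784) (l 15982784)) (b (l 15962152) (l 15962152))) (b (c (l 15982784) (l 15962152)) (l 1))))) (b (a (b (a (c (l 15798664) (l 15816280)) (c (l 16115536) (l 16098344))) (a (c (l 15840608) (l 15816280)) (c (l 16115536) (l 16098344)))) (b (l 3) (l 1))) (a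 (b (a (c (l 15840608) (l 15816280)) (l 1)) (l 1)) (l 1)))) (l 1)), by decide +kernel⟩

theorem s3_pm_213 : ∃ t, chk3 f_pm_213 t 1 3 1 = true := ex3_b k1_pm_213 k2_pm_213

theorem s4_pm_213 : ∃ t, chk3 f_pm_213 t 1 1 1 = true := ex3_b k0_pm_213 s3_pm_213

theorem c_pm_213 : CertFX 1073741824 536870912 0 1230186008 1046898278 26843546 false true false .pnn 2 1 3
    ndF3q2 ndF5q3 pcF1 cut_pm_213 Ext.none :=
  certFX0 (fam := false) (s1 := true) (s2 := false) (a := 2) (b := 1) (c := 3) (cn := .pnn) (n1 := ndF3q2) (n2 := ndF5q3) (pc := pcF1) (cut := cut_pm_213) (xt := Ext.none) (P1 := 1073741824) (W1 := 536870912) (P2 := 0) (W2 := 1230186008) (P3 := 1046898278) (W3 := 26843546)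
    rfl s4_pm_213

noncomputable def f_pm_303 : ℕ → ℕ → ℕ → ℕ → Bool := onCell 1610612736 536870912 0 1230186008 1046898278 26843546
    (rowFX 0 false true false .npn 3 0 3 (qsf 1610612736 536870912 0 1230186008 0) ndF3q3 ndF5q3 pcF0 Cut.none Ext.none)

def k0_pm_303 : ∃ t, chk3 f_pm_303 t 1 1 1 = true :=
  ⟨(b (l 3) (b (l 3) (a (l 3) (l 1)))), by decide +kernel⟩

theorem c_pm_303 : CertFX 1610612736 536870912 0 1230186008 1046898278 26843546 false true false .npn 3 0 3
    ndF3q3 ndF5q3 pcF0 Cut.none Ext.none :=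
  certFX0 (fam := false) (s1 := true) (s2 := false) (a := 3) (b := 0) (c := 3) (cn := .npn) (n1 := ndF3q3) (n2 := ndF5q3) (pc := pcF0) (cut := Cut.none) (xt := Ext.none) (P1 := 1610612736) (W1 := 536870912) (P2 := 0) (W2 := 1230186008) (P3 := 1046898278) (W3 := 26843546)
    rfl k0_pm_303

noncomputable def f_pm_313 : ℕ → ℕ → ℕ → ℕ → Bool := onCell 1610612736 536870912 0 1230186008 1046898278 26843546
    (rowFX 0 false true false .dn 3 1 3 (qsf 1610612736 536870912 0 1230186008 1) ndF3q3 ndF5q3 pcF1 Cut.none Ext.none)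

def k0_pm_313 : ∃ t, chk3 f_pm_313 t 1 1 1 = true :=
  ⟨(b (l 3) (l 1)), by decide +kernel⟩

theorem c_pm_313 : CertFX 1610612736 536870912 0 1230186008 1046898278 26843546 false true false .dn 3 1 3
    ndF3q3 ndF5q3 pcF1 Cut.none Ext.none :=
  certFX0 (fam := false) (s1 := true) (s2 := false) (a := 3) (b := 1) (c := 3) (cn := .dn) (n1 := ndF3q3) (n2 := ndF5q3) (pc := pcF1) (cut := Cut.none) (xt := Ext.none) (P1 := 1610612736) (W1 := 536870912) (P2 := 0) (W2 := 1230186008) (P3 := 1046898278) (W3 := 26843546)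
    rfl k0_pm_313

noncomputable def f_mm_001 : ℕ → ℕ → ℕ → ℕ → Bool := onCell 0 536870912 0 536870912 1046898278 26843546
    (rowFX 1 false false false .up 0 0 1 (qsf 0 536870912 536870912 469762048 0) ndF3q0 ndF5q1 pcF0 Cut.none Ext.none)

def k0_mm_001 : ∃ t, chk3 f_mm_001 t 1 1 1 = true :=
  ⟨(l 3), by decide +kernel⟩

theorem c_mm_001 : CertFX 0 536870912 536870912 469762048 1046898278 26843546 false false false .up 0 0 1
    ndF3q0 ndF5q1 pcF0 Cut.none Ext.none :=
  certFX1 (fam := false) (s1 := false) (s2 := false) (a := 0) (b := 0) (c := 1) (cn := .up) (n1 := ndF3q0) (n2 := ndF5q1) (pc := pcF0) (cut := Cut.none) (xt := Ext.none) (P1 := 0) (W1 := 536870912) (P2 := 536870912) (W2 := 469762048) (P3 := 1046898278) (W3 := 26843546)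
    rfl (fun _ => rfl) k0_mm_001

noncomputable def f_mm_011 : ℕ → ℕ → ℕ → ℕ → Bool := onCell 0 536870912 536870912 536870912 1046898278 26843546
    (rowFX 1 false false false .pnn 0 1 1 (qsf 0 536870912 536870912 469762048 1) ndF3q0 ndF5q1 pcF1 Cut.none Ext.none)

def k0_mm_011 : ∃ t, chk3 f_mm_011 t 1 1 1 = true :=
  ⟨(l 5), by decide +kernel⟩

theorem c_mm_011 : CertFX 0 536870912 536870912 469762048 1046898278 26843546 false false false .pnn 0 1 1
    ndF3q0 ndF5q1 pcF1 Cut.none Ext.none :=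
  certFX1 (fam := false) (s1 := false) (s2 := false) (a := 0) (b := 1) (c := 1) (cn := .pnn) (n1 := ndF3q0) (n2 := ndF5q1) (pc := pcF1) (cut := Cut.none) (xt := Ext.none) (P1 := 0) (W1 := 536870912) (P2 := 536870912) (W2 := 469762048) (P3 := 1046898278) (W3 := 26843546)
    rfl (fun _ => rfl) k0_mm_011

noncomputable def f_mm_012 : ℕ → ℕ → ℕ → ℕ → Bool := onCell 0 536870912 1073741824 536870912 1046898278 26843546
    (rowFX 0 false false false .pnp 0 1 2 (qsf 0 536870912 1073741824 536870912 1) ndF3q0 ndF5q2 pcF1 Cut.none Ext.none)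

def k0_mm_012 : ∃ t, chk3 f_mm_012 t 1 1 1 = true :=
  ⟨(l 5), by decide +kernel⟩

theorem c_mm_012 : CertFX 0 536870912 1073741824 536870912 1046898278 26843546 false false false .pnp 0 1 2
    ndF3q0 ndF5q2 pcF1 Cut.none Ext.none :=
  certFX0 (fam := false) (s1 := false) (s2 := false) (a := 0) (b := 1) (c := 2) (cn := .pnp) (n1 := ndF3q0) (n2 := ndF5q2) (pc := pcF1) (cut := Cut.none) (xt := Ext.none) (P1 := 0) (W1 := 536870912) (P2 := 1073741824) (W2 := 536870912) (P3 := 1046898278) (W3 := 26843546)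
    rfl k0_mm_012

noncomputable def f_mm_022 : ℕ → ℕ → ℕ → ℕ → Bool := onCell 0 536870912 1073741824 536870912 1046898278 26843546
    (rowFX 0 false false false .pp 0 2 2 (qsf 0 536870912 1073741824 536870912 2) ndF3q0 ndF5q2 pcF2 Cut.none Ext.none)

def k0_mm_022 : ∃ t, chk3 f_mm_022 t 1 1 1 = true :=
  ⟨(l 5), by decide +kernel⟩

theorem c_mm_022 : CertFX 0 536870912 1073741824 536870912 1046898278 26843546 false false false .pp 0 2 2
    ndF3q0 ndF5q2 pcF2 Cut.none Ext.none :=
  certFX0 (fam := false) (s1 := false) (s2 := false) (a := 0) (b := 2) (c := 2) (cn := .pp) (n1 := ndF3q0) (n2 := ndF5q2) (pc := pcF2) (cut := Cut.none) (xt := Ext.none) (P1 := 0) (W1 := 536870912) (P2 := 1073741824) (W2 := 536870912) (P3 := 1046898278) (W3 := 26843546)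
    rfl k0_mm_022

noncomputable def f_mm_023 : ℕ → ℕ → ℕ → ℕ → Bool := onCell 0 536870912 0 1230186008 1046898278 26843546
    (rowFX 0 false false false .up 0 2 3 (qsf 0 536870912 0 1230186008 2) ndF3q0 ndF5q3 pcF2 Cut.none Ext.none)

def k0_mm_023 : ∃ t, chk3 f_mm_023 t 1 1 1 = true :=
  ⟨(l 5), by decide +kernel⟩

theorem c_mm_023 : CertFX 0 536870912 0 1230186008 1046898278 26843546 false false false .up 0 2 3
    ndF3q0 ndF5q3 pcF2 Cut.none Ext.none :=
  certFX0 (fam := false) (s1 := false) (s2 := false) (a := 0) (b := 2) (c := 3) (cn := .up) (n1 := ndF3q0) (n2 := ndF5q3) (pc := pcF2) (cut := Cut.none) (xt := Ext.none) (P1 := 0) (W1 := 536870912) (P2 := 0) (W2 := 1230186008) (P3 := 1046898278) (W3 := 26843546)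
    rfl k0_mm_023

noncomputable def f_mm_033 : ℕ → ℕ → ℕ → ℕ → Bool := onCell 0 536870912 0 1230186008 1046898278 26843546
    (rowFX 0 false false false .pnn 0 3 3 (qsf 0 536870912 0 1230186008 3) ndF3q0 ndF5q3 pcF3 Cut.none Ext.none)

def k0_mm_033 : ∃ t, chk3 f_mm_033 t 1 1 1 = true :=
  ⟨(l 5), by decide +kernel⟩

theorem c_mm_033 : CertFX 0 536870912 0 1230186008 1046898278 26843546 false false false .pnn 0 3 3
    ndF3q0 ndF5q3 pcF3 Cut.none Ext.none :=
  certFX0 (fam := false) (s1 := false) (s2 := false) (a := 0) (b := 3) (c := 3) (cn := .pnn) (n1 := ndF3q0) (n2 := ndF5q3) (pc := pcF3) (cut := Cut.none) (xt := Ext.none) (P1 := 0) (W1 := 536870912) (P2 := 0) (W2 := 1230186008) (P3 := 1046898278) (W3 := 26843546)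
    rfl k0_mm_033

noncomputable def f_mm_101 : ℕ → ℕ → ℕ → ℕ → Bool := onCell 536870912 536870912 536870912 469762048 1046898278 26843546
    (rowFX 0 false false false .npn 1 0 1 (qsf 536870912 536870912 536870912 469762048 0) ndF3q1 ndF5q1 pcF0 Cut.none Ext.none)

def k0_mm_101 : ∃ t, chk3 f_mm_101 t 1 1 1 = true :=
  ⟨(l 3), by decide +kernel⟩

theorem c_mm_101 : CertFX 536870912 536870912 536870912 469762048 1046898278 26843546 false false false .npn 1 0 1
    ndF3q1 ndF5q1 pcF0 Cut.none Ext.none :=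
  certFX0 (fam := false) (s1 := false) (s2 := false) (a := 1) (b := 0) (c := 1) (cn := .npn) (n1 := ndF3q1) (n2 := ndF5q1) (pc := pcF0) (cut := Cut.none) (xt := Ext.none) (P1 := 536870912) (W1 := 536870912) (P2 := 536870912) (W2 := 469762048) (P3 := 1046898278) (W3 := 26843546)
    rfl k0_mm_101

noncomputable def f_mm_102 : ℕ → ℕ → ℕ → ℕ → Bool := onCell 536870912 536870912 1073741824 536870912 1046898278 26843546
    (rowFX 0 false false false .npp 1 0 2 (qsf 536870912 536870912 1073741824 536870912 0) ndF3q1 ndF5q2 pcF0 Cut.none Ext.none)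

def k0_mm_102 : ∃ t, chk3 f_mm_102 t 1 1 1 = true :=
  ⟨(l 5), by decide +kernel⟩

theorem c_mm_102 : CertFX 536870912 536870912 1073741824 536870912 1046898278 26843546 false false false .npp 1 0 2
    ndF3q1 ndF5q2 pcF0 Cut.none Ext.none :=
  certFX0 (fam := false) (s1 := false) (s2 := false) (a := 1) (b := 0) (c := 2) (cn := .npp) (n1 := ndF3q1) (n2 := ndF5q2) (pc := pcF0) (cut := Cut.none) (xt := Ext.none) (P1 := 536870912) (W1 := 536870912) (P2 := 1073741824) (W2 := 536870912) (P3 := 1046898278) (W3 := 26843546)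
    rfl k0_mm_102

noncomputable def f_mm_112 : ℕ → ℕ → ℕ → ℕ → Bool := onCell 536870912 536870912 1073741824 536870912 1046898278 26843546
    (rowFX 0 false false false .dn 1 1 2 (qsf 536870912 536870912 1073741824 536870912 1) ndF3q1 ndF5q2 pcF1 Cut.none Ext.none)

def k0_mm_112 : ∃ t, chk3 f_mm_112 t 1 1 1 = true :=
  ⟨(l 5), by decide +kernel⟩

theorem c_mm_112 : CertFX 536870912 536870912 1073741824 536870912 1046898278 26843546 false false false .dn 1 1 2
    ndF3q1 ndF5q2 pcF1 Cut.none Ext.none :=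
  certFX0 (fam := false) (s1 := false) (s2 := false) (a := 1) (b := 1) (c := 2) (cn := .dn) (n1 := ndF3q1) (n2 := ndF5q2) (pc := pcF1) (cut := Cut.none) (xt := Ext.none) (P1 := 536870912) (W1 := 536870912) (P2 := 1073741824) (W2 := 536870912) (P3 := 1046898278) (W3 := 26843546)
    rfl k0_mm_112

noncomputable def f_mm_113 : ℕ → ℕ → ℕ → ℕ → Bool := onCell 536870912 536870912 0 1230186008 1046898278 26843546
    (rowFX 0 false false false .nn 1 1 3 (qsf 536870912 536870912 0 1230186008 1) ndF3q1 ndF5q3 pcF1 Cut.none Ext.none)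

def k0_mm_113 : ∃ t, chk3 f_mm_113 t 1 1 1 = true :=
  ⟨(l 5), by decide +kernel⟩

theorem c_mm_113 : CertFX 536870912 536870912 0 1230186008 1046898278 26843546 false false false .nn 1 1 3
    ndF3q1 ndF5q3 pcF1 Cut.none Ext.none :=
  certFX0 (fam := false) (s1 := false) (s2 := false) (a := 1) (b := 1) (c := 3) (cn := .nn) (n1 := ndF3q1) (n2 := ndF5q3) (pc := pcF1) (cut := Cut.none) (xt := Ext.none) (P1 := 536870912) (W1 := 536870912) (P2 := 0) (W2 := 1230186008) (P3 := 1046898278) (W3 := 26843546)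
    rfl k0_mm_113

noncomputable def f_mm_123 : ℕ → ℕ → ℕ → ℕ → Bool := onCell 536870912 536870912 0 1230186008 1046898278 26843546
    (rowFX 0 false false false .npn 1 2 3 (qsf 536870912 536870912 0 1230186008 2) ndF3q1 ndF5q3 pcF2 Cut.none Ext.none)

def k0_mm_123 : ∃ t, chk3 f_mm_123 t 1 1 1 = true :=
  ⟨(l 5), by decide +kernel⟩

theorem c_mm_123 : CertFX 536870912 536870912 0 1230186008 1046898278 26843546 false false false .npn 1 2 3
    ndF3q1 ndF5q3 pcF2 Cut.none Ext.none :=
  certFX0 (fam := false) (s1 := false) (s2 := false) (a := 1) (b := 2) (c := 3) (cn := .npn) (n1 := ndF3q1) (n2 := ndF5q3) (pc := pcF2) (cut := Cut.none) (xt := Ext.none) (P1 := 536870912) (W1 := 536870912) (P2 := 0) (W2 := 1230186008) (P3 := 1046898278) (W3 := 26843546)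
    rfl k0_mm_123

noncomputable def f_mm_133 : ℕ → ℕ → ℕ → ℕ → Bool := onCell 536870912 536870912 0 1230186008 1046898278 26843546
    (rowFX 0 false false false .dn 1 3 3 (qsf 536870912 536870912 0 1230186008 3) ndF3q1 ndF5q3 pcF3 Cut.none Ext.none)

def k0_mm_133 : ∃ t, chk3 f_mm_133 t 1 1 1 = true :=
  ⟨(l 5), by decide +kernel⟩

theorem c_mm_133 : CertFX 536870912 536870912 0 1230186008 1046898278 26843546 false false false .dn 1 3 3
    ndF3q1 ndF5q3 pcF3 Cut.none Ext.none :=
  certFX0 (fam := false) (s1 := false) (s2 := false) (a := 1) (b := 3) (c := 3) (cn := .dn) (n1 := ndF3q1) (n2 := ndF5q3) (pc := pcF3) (cut := Cut.none) (xt := Ext.none) (P1 := 536870912) (W1 := 536870912) (P2 := 0) (W2 := 1230186008) (P3 := 1046898278) (W3 := 26843546)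
    rfl k0_mm_133

noncomputable def f_mm_202 : ℕ → ℕ → ℕ → ℕ → Bool := onCell 1073741824 536870912 1073741824 536870912 1046898278 26843546
    (rowFX 0 false false false .pp 2 0 2 (qsf 1073741824 536870912 1073741824 536870912 0) ndF3q2 ndF5q2 pcF0 Cut.none Ext.none)

def k0_mm_202 : ∃ t, chk3 f_mm_202 t 1 1 1 = true :=
  ⟨(l 3), by decide +kernel⟩

theorem c_mm_202 : CertFX 1073741824 536870912 1073741824 536870912 1046898278 26843546 false false false .pp 2 0 2
    ndF3q2 ndF5q2 pcF0 Cut.none Ext.none :=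
  certFX0 (fam := false) (s1 := false) (s2 := false) (a := 2) (b := 0) (c := 2) (cn := .pp) (n1 := ndF3q2) (n2 := ndF5q2) (pc := pcF0) (cut := Cut.none) (xt := Ext.none) (P1 := 1073741824) (W1 := 536870912) (P2 := 1073741824) (W2 := 536870912) (P3 := 1046898278) (W3 := 26843546)
    rfl k0_mm_202

noncomputable def f_mm_203 : ℕ → ℕ → ℕ → ℕ → Bool := onCell 1073741824 536870912 0 1230186008 1046898278 26843546
    (rowFX 0 false false false .up 2 0 3 (qsf 1073741824 536870912 0 1230186008 0) ndF3q2 ndF5q3 pcF0 Cut.none Ext.none)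

def k0_mm_203 : ∃ t, chk3 f_mm_203 t 1 1 1 = true :=
  ⟨(b (l 5) (l 3)), by decide +kernel⟩

theorem c_mm_203 : CertFX 1073741824 536870912 0 1230186008 1046898278 26843546 false false false .up 2 0 3
    ndF3q2 ndF5q3 pcF0 Cut.none Ext.none :=
  certFX0 (fam := false) (s1 := false) (s2 := false) (a := 2) (b := 0) (c := 3) (cn := .up) (n1 := ndF3q2) (n2 := ndF5q3) (pc := pcF0) (cut := Cut.none) (xt := Ext.none) (P1 := 1073741824) (W1 := 536870912) (P2 := 0) (W2 := 1230186008) (P3 := 1046898278) (W3 := 26843546)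
    rfl k0_mm_203

noncomputable def f_mm_213 : ℕ → ℕ → ℕ → ℕ → Bool := onCell 1073741824 536870912 0 1230186008 1046898278 26843546
    (rowFX 0 false false false .pnn 2 1 3 (qsf 1073741824 536870912 0 1230186008 1) ndF3q2 ndF5q3 pcF1 Cut.none Ext.none)

def k0_mm_213 : ∃ t, chk3 f_mm_213 t 1 1 1 = true :=
  ⟨(b (l 5) (l 3)), by decide +kernel⟩

theorem c_mm_213 : CertFX 1073741824 536870912 0 1230186008 1046898278 26843546 false false false .pnn 2 1 3
    ndF3q2 ndF5q3 pcF1 Cut.none Ext.none :=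
  certFX0 (fam := false) (s1 := false) (s2 := false) (a := 2) (b := 1) (c := 3) (cn := .pnn) (n1 := ndF3q2) (n2 := ndF5q3) (pc := pcF1) (cut := Cut.none) (xt := Ext.none) (P1 := 1073741824) (W1 := 536870912) (P2 := 0) (W2 := 1230186008) (P3 := 1046898278) (W3 := 26843546)
    rfl k0_mm_213

noncomputable def f_mm_303 : ℕ → ℕ → ℕ → ℕ → Bool := onCell 1610612736 536870912 0 1230186008 1046898278 26843546
    (rowFX 0 false false false .npn 3 0 3 (qsf 1610612736 536870912 0 1230186008 0) ndF3q3 ndF5q3 pcF0 Cut.none Ext.none)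

def k0_mm_303 : ∃ t, chk3 f_mm_303 t 1 1 1 = true :=
  ⟨(b (l 3) (l 3)), by decide +kernel⟩

theorem c_mm_303 : CertFX 1610612736 536870912 0 1230186008 1046898278 26843546 false false false .npn 3 0 3
    ndF3q3 ndF5q3 pcF0 Cut.none Ext.none :=
  certFX0 (fam := false) (s1 := false) (s2 := false) (a := 3) (b := 0) (c := 3) (cn := .npn) (n1 := ndF3q3) (n2 := ndF5q3) (pc := pcF0) (cut := Cut.none) (xt := Ext.none) (P1 := 1610612736) (W1 := 536870912) (P2 := 0) (W2 := 1230186008) (P3 := 1046898278) (W3 := 26843546)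
    rfl k0_mm_303

noncomputable def f_mm_313 : ℕ → ℕ → ℕ → ℕ → Bool := onCell 1610612736 536870912 0 1230186008 1046898278 26843546
    (rowFX 0 false false false .dn 3 1 3 (qsf 1610612736 536870912 0 1230186008 1) ndF3q3 ndF5q3 pcF1 Cut.none Ext.none)

def k0_mm_313 : ∃ t, chk3 f_mm_313 t 1 1 1 = true :=
  ⟨(b (l 3) (l 1)), by decide +kernel⟩

theorem c_mm_313 : CertFX 1610612736 536870912 0 1230186008 1046898278 26843546 false false false .dn 3 1 3
    ndF3q3 ndF5q3 pcF1 Cut.none Ext.none :=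
  certFX0 (fam := false) (s1 := false) (s2 := false) (a := 3) (b := 1) (c := 3) (cn := .dn) (n1 := ndF3q3) (n2 := ndF5q3) (pc := pcF1) (cut := Cut.none) (xt := Ext.none) (P1 := 1610612736) (W1 := 536870912) (P2 := 0) (W2 := 1230186008) (P3 := 1046898278) (W3 := 26843546)
    rfl k0_mm_313

end Pool.Agent.Strip051.G.IE1.Tab.C.FB35

namespace Pool.Agent.Strip051.G.IE1.Tab.C.FB36

open Pool.Agent.Strip051.PB Pool.Agent.Strip051.PB.T
open Pool.Agent.Strip051.G.IE1.Tab

noncomputable def f_pp_001 : ℕ → ℕ → ℕ → ℕ → Bool := onCell 0 536870912 0 536870912 1046898278 26843546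
    (rowFX 1 false true true .up 0 0 1 (qsf 0 536870912 536870912 469762048 0) ndF3q0 ndF6q1 pcF0 Cut.none Ext.none)

def k0_pp_001 : ∃ t, chk3 f_pp_001 t 1 1 1 = true :=
  ⟨(l 3), by decide +kernel⟩

theorem c_pp_001 : CertFX 0 536870912 536870912 469762048 1046898278 26843546 false true true .up 0 0 1
    ndF3q0 ndF6q1 pcF0 Cut.none Ext.none :=
  certFX1 (fam := false) (s1 := true) (s2 := true) (a := 0) (b := 0) (c := 1) (cn := .up) (n1 := ndF3q0) (n2 := ndF6q1) (pc := pcF0) (cut := Cut.none) (xt := Ext.none) (P1 := 0) (W1 := 536870912) (P2 := 536870912) (W2 := 469762048) (P3 := 1046898278) (W3 := 26843546)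
    rfl (fun _ => rfl) k0_pp_001

noncomputable def f_pp_011 : ℕ → ℕ → ℕ → ℕ → Bool := onCell 0 536870912 536870912 469762048 1046898278 26843546
    (rowFX 0 false true true .pnn 0 1 1 (qsf 0 536870912 536870912 469762048 1) ndF3q0 ndF6q1 pcF1 Cut.none Ext.none)

def k0_pp_011 : ∃ t, chk3 f_pp_011 t 1 1 1 = true :=
  ⟨(a (l 3) (l 3)), by decide +kernel⟩

theorem c_pp_011 : CertFX 0 536870912 536870912 469762048 1046898278 26843546 false true true .pnn 0 1 1
    ndF3q0 ndF6q1 pcF1 Cut.none Ext.none :=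
  certFX0 (fam := false) (s1 := true) (s2 := true) (a := 0) (b := 1) (c := 1) (cn := .pnn) (n1 := ndF3q0) (n2 := ndF6q1) (pc := pcF1) (cut := Cut.none) (xt := Ext.none) (P1 := 0) (W1 := 536870912) (P2 := 536870912) (W2 := 469762048) (P3 := 1046898278) (W3 := 26843546)
    rfl k0_pp_011

noncomputable def f_pp_012 : ℕ → ℕ → ℕ → ℕ → Bool := onCell 0 536870912 536870912 536870912 1046898278 26843546
    (rowFX 1 false true true .pnp 0 1 2 (qsf 0 536870912 1073741824 536870912 1) ndF3q0 ndF6q2 pcF1 Cut.none Ext.none)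

def k0_pp_012 : ∃ t, chk3 f_pp_012 t 1 1 1 = true :=
  ⟨(b (l 3) (a (l 3) (b (l 3) (b (l 3) (a (l 3) (b (l 3) (a (l 3) (l 729773022007)))))))), by decide +kernel⟩

theorem c_pp_012 : CertFX 0 536870912 1073741824 536870912 1046898278 26843546 false true true .pnp 0 1 2
    ndF3q0 ndF6q2 pcF1 Cut.none Ext.none :=
  certFX1 (fam := false) (s1 := true) (s2 := true) (a := 0) (b := 1) (c := 2) (cn := .pnp) (n1 := ndF3q0) (n2 := ndF6q2) (pc := pcF1) (cut := Cut.none) (xt := Ext.none) (P1 := 0) (W1 := 536870912) (P2 := 1073741824) (W2 := 536870912) (P3 := 1046898278) (W3 := 26843546)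
    rfl (fun _ => rfl) k0_pp_012

noncomputable def f_pp_022 : ℕ → ℕ → ℕ → ℕ → Bool := onCell 0 536870912 1073741824 536870912 1046898278 26843546
    (rowFX 1 false true true .pp 0 2 2 (qsf 0 536870912 1073741824 536870912 2) ndF3q0 ndF6q2 pcF2 Cut.none Ext.none)

def k0_pp_022 : ∃ t, chk3 f_pp_022 t 2 4 1 = true :=
  ⟨(b (l 3) (a (l 3) (b (l 3) (a (a (l 3) (a (l 3) (b (l 3) (b (l 3) (b (l 3) (l 16509432)))))) (a (b (l 3) (b (c (l 1096994606663) (l 972440544167)) (c (b (l 16626016) (l 16585144)) (b (l 16644144) (l 16582336))))) (b (c (b (l 843054889031) (l 16777072)) (b (b (l 931638628119) (l 916069471767)) (l 897815919687))) (b (c (b (l 16771296) (l 16766520)) (b (l 16771144) (l 16766240))) (c (b (l 16760824) (l 16753640)) (b (l 16760400) (l 16753024)))))))))), by decide +kernel⟩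

def k1_pp_022 : ∃ t, chk3 f_pp_022 t 3 8 1 = true :=
  ⟨(b (a (l 3) (b (a (c (l 802250534551) (b (l 3) (l 750174069415))) (c (a (b (l 15814408) (l 15801808)) (l 15936312)) (a (c (l 15683000) (l 15733456)) (l 15747064)))) (c (a (l 804398291591) (l 15743976)) (a (a (l 15946560) (l 15875112)) (l 15930968))))) (a (a (l 3) (b (c (l 798492994567) (l 795808632519)) (c (b (l 797956451223) (l 801714696951)) (b (l 785071579815) (l 778629285447))))) (b (a (c (a (l 363090655287) (l 16055056)) (a (l 15969200) (l 16018040))) (c (l 15975936) (l 15941160))) (a (a (c (b (l 16192048) (l 16203608)) (b (l 16195232) (l 16187376))) (c (l 15906680) (l 16045416))) (c (l 15763624) (l 15910040)))))), by decide +kernel⟩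

def k2_pp_022 : ∃ t, chk3 f_pp_022 t 3 9 1 = true :=
  ⟨(b (a (b (a (c (l 714205207335) (l 803325753351)) (a (b (c (l 369533722951) (l 446306243223)) (a (b (l 16492040) (l 16527200)) (l 16419856))) (b (a (l 16372864) (l 16278968)) (a (l 16365376) (l 16284216))))) (a (c (a (l 726553869143) (b (a (l 16619912) (l 16595136)) (l 16648256))) (a (b (l 828022251511) (l 816211264199)) (b (a (l 16615832) (l 16590400)) (a (l 16630376) (l 16623888))))) (b (a (b (l 16400384) (l 16487800)) (c (l 16320544) (l 16308680))) (a (l 16462424) (a (l 16340440) (l 16236080)))))) (b (a (a (b (l 16203216) (c (l 16123680) (l 16123552))) (c (l 16041048) (l 16064000))) (c (l 15740624) (l 15792056))) (a (c (a (l 16060712) (l 15957000)) (a (l 15971424) (l 15941112))) (l 2)))) (a (a (a (b (b (c (b (l 16741072) (l 16756208)) (b (l 16740128) (l 16755664))) (c (l 16738168) (b (l 16749504) (l 16734600)))) (b (c (l 16707760) (l 16705952)) (l 16697080))) (b (b (c (l 16649808) (l 16646504)) (l 16605600)) (b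 (l 16588704) (l 16581448)))) (b (a (b (c (l 16442960) (l 16434280)) (l 16442856)) (l 16233792)) (a (b (l 16433528) (l 16375648)) (l 16125808)))) (a (b (c (a (b (l 16018880) (l 15809768)) (l 15776688)) (a (l 15797608) (l 15780240))) (a (c (a (l 15903528) (l 15748840)) (l 15862824)) (l 2))) (l 2)))), by decide +kernel⟩

def k3_pp_022 : ∃ t, chk3 f_pp_022 t 8 40 1 = true :=
  ⟨(l 3), by decide +kernel⟩

def k4_pp_022 : ∃ t, chk3 f_pp_022 t 8 82 1 = true :=
  ⟨(l 3), by decide +kernel⟩

def k5_pp_022 : ∃ t, chk3 f_pp_022 t 8 166 1 = true :=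
  ⟨(b (l 3) (a (l 3) (a (l 3) (c (c (b (l 3) (l 3279373030583)) (l 3262730034087)) (l 3090394546311))))), by decide +kernel⟩

def k6_pp_022 : ∃ t, chk3 f_pp_022 t 8 167 1 = true :=
  ⟨(b (b (a (l 3) (a (l 3) (c (c (a (l 3311585285847) (l 15583808)) (l 1873308119335)) (l 1945248814391)))) (a (a (c (c (a (l 15978616) (l 15864448)) (a (l 15972360) (l 15878784))) (c (a (l 15974632) (l 15898960)) (l 15944424))) (l 3)) (c (a (b (l 6693872138391) (c (l 4102933142663) (l 3982137234791))) (c (b (l 15610320) (l 15601536)) (b (l 15601768) (l 15592848)))) (c (a (l 4294059258471) (l 15582224)) (a (l 15673920) (l 15567416)))))) (b (b (b (a (a (c (c (l 15846904) (l 15914888)) (c (l 15923672) (l 15931144))) (l 3)) (c (a (c (l 15676048) (l 15682328)) (c (l 15594960) (l 15586176))) (a (l 15671088) (l 15563440)))) (b (a (c (a (c (l 15885040) (l 15911024)) (a (l 15799176) (c (l 15742408) (l 15755640)))) (a (c (l 15919744) (l 15927168)) (a (l 15819104) (l 15755544)))) (c (c (a (l 15672584)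 (l 15591680)) (a (l 15678816) (l 15582840))) (c (l 15617472) (l 15603400)))) (b (b (a (c (a (c (l 15904424) (l 15909408)) (a (l 15797632) (l 15744208))) (a (l 15818512) (l 15784440))) (c (a (l 15673688) (c (l 15590312) (l 15581448))) (c (l 15616024) (l 15601928)))) (a (c (a (c (a (l 15959640) (l 15845912)) (l 15887792)) (a (l 15797016) (l 15743608))) (a (a (l 15939512) (l 15878528)) (l 15783808))) (c (a (c (l 15670568) (l 15676768)) (c (a (l 15610848) (l 15571464)) (l 15580896))) (c (l 15615440) (l 15601344))))) (a (a (c (l 15887280) (l 15921728)) (c (l 15769416) (l 15782872))) (c (a (l 15672240) (l 15583696)) (l 15608696)))))) (a (a (c (l 15881528) (l 15915800)) (c (l 15763928) (l 15777224))) (c (a (l 15667016) (l 15578744)) (l 15603456)))) (a (a (c (l 15866208) (l 15900040)) (c (l 15749320) (l 15762184))) (c (a (l 15653120) (l 15565544)) (l 15589496))))), by decide +kernel⟩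

def k7_pp_022 : ∃ t, chk3 f_pp_022 t 8 21 1 = true :=
  ⟨(a (a (c (a (l 15371280) (b (l 15664616) (l 15357896))) (a (l 15448528) (l 15521912))) (c (b (a (l 15610560) (l 15561680)) (l 15164904)) (b (l 15594128) (l 15289712)))) (a (b (c (l 15497928) (l 15484960)) (c (a (b (l 15305768) (l 15191472)) (b (l 15293496) (l 15248544))) (a (l 15234552) (l 15249968)))) (b (c (a (b (l 15508384) (l 15372992)) (b (a (l 15484344) (l 15491264)) (l 15447624))) (b (l 15474256) (l 15395584))) (c (l 15396872) (l 15364744))))), by decide +kernel⟩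

def k8_pp_022 : ∃ t, chk3 f_pp_022 t 18 10 1 = true :=
  ⟨(b (b (l 3) (b (a (l 3) (b (l 3) (c (b (l 3) (l 2570703513111)) (l 2602915718215)))) (b (b (c (a (a (l 3) (l 3349166163575)) (c (l 15778056) (l 15764992))) (a (l 3348629170871) (l 15745400))) (c (a (a (c (b (l 3604716678807) (a (l 15590840) (l 15580744))) (l 1634937298343)) (c (l 15640480) (l 15625616))) (c (l 15778056) (l 15764992))) (a (a (b (l 15560896) (l 15547568)) (l 15603328)) (l 15745400)))) (b (c (a (b (c (a (a (l 15573768) (l 15574728)) (l 15640480)) (l 15572368)) (c (a (b (l 15546608) (l 15542592)) (l 15640480)) (b (l 15588816) (l 15586728)))) (b (l 15771528) (b (l 15771520) (l 15771520)))) (b (a (c (l 15578088) (l 15562840)) (l 15745400)) (b (a (l 15565840) (l 15745400)) (c (l 15619672) (l 15647408))))) (b (b (a (b (c (c (a (l 15539408) (l 15640480)) (l 15584992)) (l 15561928)) (b (c (c (a (l 15537936) (l 15640480)) (l 15584200)) (l 15561120)) (b (b (c (c (l 15578496) (l 15583832)) (l 15560744)) (c (c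 (a (a (c (l 15547824) (l 15539736)) (l 15571968)) (l 15640480)) (a (l 15520968) (l 15625616))) (c (l 15568344) (l 15552952)))) (c (l 15592104) (l 15560544))))) (b (c (c (l 15777656) (l 15764592)) (l 15744992)) (b (c (c (l 15777216) (l 15764144)) (l 15702584)) (a (b (b (c (l 15725032) (l 15697696)) (c (c (l 15731688) (l 15718016)) (l 15697512))) (l 15711152)) (l 15802664))))) (a (c (l 15591808) (l 15560240)) (l 15756616))) (a (c (l 15590440) (l 15558824)) (l 15756560))))))) (a (c (a (l 15542160) (l 15632616)) (l 15555952)) (c (l 15768624) (l 15742408)))), by decide +kernel⟩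

def k9_pp_022 : ∃ t, chk3 f_pp_022 t 19 10 1 = true :=
  ⟨(b (b (a (l 3) (b (l 3) (b (l 3) (l 1792241347095)))) (b (c (b (a (l 2262539977719) (l 16067000)) (a (b (l 15944424) (l 15944424)) (c (l 16071608) (l 16062384)))) (b (a (l 2069803279671) (l 16048552)) (b (l 15985752) (l 15985752)))) (b (b (c (c (l 16010800) (l 16000784)) (l 15985752)) (a (c (c (l 15949832) (l 15939024)) (l 15922800)) (c (b (l 16066576) (l 16065792)) (b (l 16048112) (l 16047304))))) (b (a (b (c (c (l 15949504) (l 15938688)) (l 15922456)) (c (b (c (l 15949024) (l 15938192)) (c (l 15947952) (l 15937104))) (b (l 15921952) (c (l 15926256) (l 15915408))))) (b (c (a (l 16036256) (l 16091592)) (l 16045488)) (l 16050624))) (b (b (b (b (c (l 15999392) (l 15979144)) (l 15988160)) (l 15986104)) (l 15984696)) (l 15984736)))))) (l 15986104)), by decide +kernel⟩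

def k10_pp_022 : ∃ t, chk3 f_pp_022 t 5 10 1 = true :=
  ⟨(b (b (a (a (a (b (l 3) (b (l 1534006670295) (c (l 16184040) (l 16168632)))) (b (b (l 3) (l 1307447376759)) (b (c (l 16299840) (l 16287440)) (c (l 16299840) (l 16287440))))) (b (c (c (l 1022369136455) (l 1006799871767)) (c (l 993378093367) (l 981566925079))) (c (b (a (l 16407744) (l 16513136)) (a (l 16407720) (l 16512744))) (b (a (l 16398144) (l 16506280)) (a (l 16398128) (l 16505872)))))) (a (b (c (b (l 16586168) (l 16607752)) (b (l 16604376) (l 16605008))) (b (c (l 16670416) (l 16667664)) (l 16665968))) (l 16756056))) (a (b (a (c (b (a (l 16184040) (l 16299688)) (b (l 16220288) (a (l 16183688) (l 16297136)))) (b (b (l 16228176) (l 16227992)) (b (l 16227336) (c (l 16229632) (l 16222656))))) (b (a (c (l 16406736) (l 16397112)) (l 16505880)) (l 16447376))) (b (a (a (b (c (c (l 16186216) (l 16178480)) (l 16166888)) (b (c (l 16180096) (l 16164560)) (l 16169408))) (l 16283344)) (l 16437112)) (b (l 16200512) (a (l 16215856)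 (l 16429464))))) (b (a (l 16654472) (l 16756768)) (b (a (l 16638304) (l 16743216)) (b (a (l 16635368) (l 16711880)) (a (a (l 16583720) (l 16648952)) (c (l 16657424) (l 16718864)))))))) (a (l 16243256) (a (l 16489232) (l 16671576)))), by decide +kernel⟩

def k11_pp_022 : ∃ t, chk3 f_pp_022 t 2 11 1 = true :=
  ⟨(a (a (a (b (a (b (c (a (l 15147888) (l 15066544)) (l 15099560)) (a (c (l 14880440) (l 14851192)) (c (b (l 14882024) (l 14837192)) (l 14859000)))) (b (c (a (l 15043616) (b (l 15085264) (l 15040368))) (l 15060128)) (c (l 14989256) (l 14978736)))) (a (c (l 14809064) (l 14788560)) (l 14970448))) (a (c (l 15195832) (l 15173600)) (b (l 15339304) (l 15381272)))) (a (b (c (l 15595096) (l 15649408)) (l 15668304)) (l 15888552))) (a (a (l 16231720) (b (l 16449744) (l 16456360))) (b (a (l 16670616) (l 16712472)) (l 16722368)))), by decide +kernel⟩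

def k12_pp_022 : ∃ t, chk3 f_pp_022 t 3 5 1 = true :=
  ⟨(a (b (a (b (b (a (b (l 16711920) (l 16727800)) (b (l 16602480) (l 16530720))) (b (a (a (l 16769256) (l 16657536)) (l 16428432)) (b (l 16479120) (l 16402360)))) (l 16430096)) (a (b (b (l 16265232) (b (l 16130048) (b (l 16060616) (l 16054760)))) (c (l 16016712) (l 16070992))) (b (b (c (l 15694920) (l 15690368)) (b (c (l 15806600) (l 15792592)) (c (b (l 15784096) (a (l 15853240) (l 2))) (b (l 15764752) (l 15575392))))) (c (a (l 15991776) (l 2)) (l 15883040))))) (b (a (l 16628784) (b (c (l 16414888) (a (l 16439368) (l 2))) (l 2))) (c (l 16776944) (l 16776944)))) (b (b (b (a (a (a (b (l 15531880) (l 2)) (l 2)) (l 2)) (l 2)) (l 2)) (l 2)) (l 2))), by decide +kernel⟩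

def k13_pp_022 : ∃ t, chk3 f_pp_022 t 1 3 1 = true :=
  ⟨(a (a (b (a (a (b (a (l 14801880) (l 14970448)) (a (l 14801880) (l 14970448))) (b (b (l 15280376) (l 15280376)) (l 15280376))) (b (a (l 15668312) (l 15995776)) (a (l 15668312) (l 15995776)))) (a (a (b (l 14832464) (l 14895376)) (b (l 15280376) (l 15280376))) (b (l 15566032) (l 131631614375)))) (b (a (b (l 16346384) (l 16346384)) (b (a (l 16666528) (l 16777056)) (b (l 16722328) (l 2)))) (a (l 16346384) (l 2)))) (b (b (a (a (l 16777216) (l 2)) (l 2)) (l 2)) (l 2))), by decide +kernel⟩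

theorem s14_pp_022 : ∃ t, chk3 f_pp_022 t 9 10 1 = true := ex3_a k8_pp_022 k9_pp_022

theorem s15_pp_022 : ∃ t, chk3 f_pp_022 t 8 83 1 = true := ex3_b k5_pp_022 k6_pp_022

theorem s16_pp_022 : ∃ t, chk3 f_pp_022 t 8 41 1 = true := ex3_b k4_pp_022 s15_pp_022

theorem s17_pp_022 : ∃ t, chk3 f_pp_022 t 8 20 1 = true := ex3_b k3_pp_022 s16_pp_022

theorem s18_pp_022 : ∃ t, chk3 f_pp_022 t 8 10 1 = true := ex3_b s17_pp_022 k7_pp_022

theorem s19_pp_022 : ∃ t, chk3 f_pp_022 t 4 10 1 = true := ex3_a s18_pp_022 s14_pp_022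

theorem s20_pp_022 : ∃ t, chk3 f_pp_022 t 2 10 1 = true := ex3_a s19_pp_022 k10_pp_022

theorem s21_pp_022 : ∃ t, chk3 f_pp_022 t 2 5 1 = true := ex3_b s20_pp_022 k11_pp_022

theorem s22_pp_022 : ∃ t, chk3 f_pp_022 t 1 5 1 = true := ex3_a s21_pp_022 k12_pp_022

theorem s23_pp_022 : ∃ t, chk3 f_pp_022 t 3 4 1 = true := ex3_b k1_pp_022 k2_pp_022

theorem s24_pp_022 : ∃ t, chk3 f_pp_022 t 1 4 1 = true := ex3_a k0_pp_022 s23_pp_022

theorem s25_pp_022 : ∃ t, chk3 f_pp_022 t 1 2 1 = true := ex3_b s24_pp_022 s22_pp_022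

theorem s26_pp_022 : ∃ t, chk3 f_pp_022 t 1 1 1 = true := ex3_b s25_pp_022 k13_pp_022

theorem c_pp_022 : CertFX 0 536870912 1073741824 536870912 1046898278 26843546 false true true .pp 0 2 2
    ndF3q0 ndF6q2 pcF2 Cut.none Ext.none :=
  certFX1 (fam := false) (s1 := true) (s2 := true) (a := 0) (b := 2) (c := 2) (cn := .pp) (n1 := ndF3q0) (n2 := ndF6q2) (pc := pcF2) (cut := Cut.none) (xt := Ext.none) (P1 := 0) (W1 := 536870912) (P2 := 1073741824) (W2 := 536870912) (P3 := 1046898278) (W3 := 26843546)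
    rfl (fun _ => rfl) s26_pp_022

noncomputable def f_pp_023 : ℕ → ℕ → ℕ → ℕ → Bool := onCell 1073741824 536870912 0 1230186008 1046898278 26843546
    (rowFX 2 false true true .up 0 2 3 (qsf 0 536870912 0 1230186008 2) ndF3q0 ndF6q3 pcF2 Cut.none Ext.none)

def k0_pp_023 : ∃ t, chk3 f_pp_023 t 1 1 1 = true :=
  ⟨(b (a (l 2) (a (l 2) (b (a (l 2) (l 4)) (a (l 16755064) (l 16755064))))) (a (a (b (l 2) (b (l 2) (b (a (l 2) (a (b (l 2) (l 15423608)) (b (b (l 15071272) (l 15073864)) (l 15034864)))) (b (a (a (l 2) (l 15630160)) (a (l 15674408) (c (l 15579296) (l 15476160)))) (a (a (c (l 16037528) (l 16022232)) (c (l 15968192) (l 15927184))) (a (c (l 15882864) (l 15878408)) (c (a (l 15792008) (l 15613968)) (a (l 15816520) (l 15808144))))))))) (b (a (l 2) (a (l 2) (l 16751848))) (a (a (b (l 14985216) (b (a (b (l 14844728) (l 15044488)) (b (b (l 14982544) (l 15003384)) (l 15188384))) (b (c (a (l 15465080) (l 15272984)) (l 15229416)) (a (c (b (l 15637744) (l 15813504)) (l 15756768))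 (a (c (l 15489680) (l 15726528)) (b (l 15676936) (b (a (l 15734008) (l 15814400)) (a (l 15830848) (l 15913648))))))))) (b (l 15662520) (b (b (l 15508616) (l 15763552)) (b (c (l 15955448) (l 15934696)) (c (c (l 16108320) (l 16049272)) (l 15963992)))))) (a (b (l 16404392) (c (b (l 16421064) (b (l 16491712) (l 16563512))) (b (l 16419840) (b (l 16509472) (l 16559504))))) (b (l 16776736) (b (l 16776800) (l 16776888))))))) (b (b (a (l 16768704) (l 16777160)) (a (l 16777200) (l 16777200))) (a (b (b (l 16777216) (l 16777216)) (a (b (l 16777216) (b (l 16777216) (l 16742600))) (b (l 16760160) (a (l 16645712) (l 16472792))))) (b (b (l 16757448) (a (l 16758432) (l 16532720))) (b (a (l 16543136) (b (l 16279568) (l 15993232))) (a (b (l 16269728) (l 15883144)) (b (l 15570792) (a (l 15499064) (l 15016384)))))))))), by decide +kernel⟩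

theorem c_pp_023 : CertFX 0 536870912 0 1230186008 1046898278 26843546 false true true .up 0 2 3
    ndF3q0 ndF6q3 pcF2 Cut.none Ext.none :=
  certFX2 (fam := false) (s1 := true) (s2 := true) (a := 0) (b := 2) (c := 3) (cn := .up) (n1 := ndF3q0) (n2 := ndF6q3) (pc := pcF2) (cut := Cut.none) (xt := Ext.none) (P1 := 0) (W1 := 536870912) (P2 := 0) (W2 := 1230186008) (P3 := 1046898278) (W3 := 26843546)
    rfl (fun _ => rfl) k0_pp_023

noncomputable def f_pp_033 : ℕ → ℕ → ℕ → ℕ → Bool := onCell 0 536870912 0 1230186008 1046898278 26843546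
    (rowFX 0 false true true .pnn 0 3 3 (qsf 0 536870912 0 1230186008 3) ndF3q0 ndF6q3 pcF3 Cut.none Ext.none)

def k0_pp_033 : ∃ t, chk3 f_pp_033 t 1 1 1 = true :=
  ⟨(a (b (b (l 4) (b (l 4) (a (b (l 4) (b (a (l 4) (a (l 4) (l 839362186279))) (a (a (a (l 4) (c (l 14988776) (l 14978224))) (c (l 99015659639) (l 83446351751))) (a (c (l 15680208) (l 15650664)) (l 15995704))))) (b (a (a (l 4) (a (l 4) (l 16493256))) (a (l 16607576) (l 16757336))) (a (c (l 16349280) (a (l 16224912) (l 16448968))) (l 16719240)))))) (b (a (a (b (c (b (a (b (a (l 14808768) (l 14988808)) (l 14900152)) (l 15294296)) (a (b (l 14900120) (l 14900136)) (l 15294272))) (b (a (b (a (l 14788240) (l 14978264)) (l 14800360)) (l 15268584)) (a (b (l 14884208) (l 14884224)) (l 15268552)))) (b (a (l 14727568) (l 15280352)) (a (a (l 14801880) (l 14970448)) (l 15280376)))) (b (b (a (c (l 15680240) (l 15650704)) (l 15995736)) (c (l 15825760) (l 15591320))) (a (l 15668296) (l 15995760)))) (b (b (a (c (l 16351872)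 (l 16340824)) (l 16722296)) (a (l 16346320) (l 16722264))) (a (l 16346368) (l 16722320)))) (a (b (a (a (b (c (l 14900208) (a (l 14788272) (l 14978296))) (c (l 14900208) (l 14884312))) (b (l 15280376) (c (l 15294328) (l 15268632)))) (b (a (l 15668312) (l 15995776)) (a (l 15668312) (l 15995776)))) (a (a (b (l 14811488) (l 14895376)) (b (l 15280376) (l 15280376))) (b (a (l 15668312) (l 15995776)) (l 15817696)))) (b (a (b (l 16346384) (l 16346384)) (l 16722328)) (a (b (l 16346384) (l 1)) (l 1)))))) (b (b (l 4) (b (a (b (l 4) (a (l 4) (l 16755744))) (a (l 16747528) (l 16747528))) (a (a (b (l 16757480) (l 16773712)) (l 16764968)) (a (l 16764968) (l 16764968))))) (b (b (a (b (l 16777176) (l 16777152)) (l 16777160)) (l 16777200)) (l 1)))), by decide +kernel⟩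

theorem c_pp_033 : CertFX 0 536870912 0 1230186008 1046898278 26843546 false true true .pnn 0 3 3
    ndF3q0 ndF6q3 pcF3 Cut.none Ext.none :=
  certFX0 (fam := false) (s1 := true) (s2 := true) (a := 0) (b := 3) (c := 3) (cn := .pnn) (n1 := ndF3q0) (n2 := ndF6q3) (pc := pcF3) (cut := Cut.none) (xt := Ext.none) (P1 := 0) (W1 := 536870912) (P2 := 0) (W2 := 1230186008) (P3 := 1046898278) (W3 := 26843546)
    rfl k0_pp_033

noncomputable def f_pp_101 : ℕ → ℕ → ℕ → ℕ → Bool := onCell 536870912 536870912 536870912 469762048 1046898278 26843546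
    (rowFX 0 false true true .npn 1 0 1 (qsf 536870912 536870912 536870912 469762048 0) ndF3q1 ndF6q1 pcF0 Cut.none Ext.none)

def k0_pp_101 : ∃ t, chk3 f_pp_101 t 1 1 1 = true :=
  ⟨(l 3), by decide +kernel⟩

theorem c_pp_101 : CertFX 536870912 536870912 536870912 469762048 1046898278 26843546 false true true .npn 1 0 1
    ndF3q1 ndF6q1 pcF0 Cut.none Ext.none :=
  certFX0 (fam := false) (s1 := true) (s2 := true) (a := 1) (b := 0) (c := 1) (cn := .npn) (n1 := ndF3q1) (n2 := ndF6q1) (pc := pcF0) (cut := Cut.none) (xt := Ext.none) (P1 := 536870912) (W1 := 536870912) (P2 := 536870912) (W2 := 469762048) (P3 := 1046898278) (W3 := 26843546)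
    rfl k0_pp_101

noncomputable def f_pp_102 : ℕ → ℕ → ℕ → ℕ → Bool := onCell 536870912 536870912 0 536870912 1046898278 26843546
    (rowFX 1 false true true .npp 1 0 2 (qsf 536870912 536870912 1073741824 536870912 0) ndF3q1 ndF6q2 pcF0 Cut.none Ext.none)

def k0_pp_102 : ∃ t, chk3 f_pp_102 t 1 1 1 = true :=
  ⟨(l 3), by decide +kernel⟩

theorem c_pp_102 : CertFX 536870912 536870912 1073741824 536870912 1046898278 26843546 false true true .npp 1 0 2
    ndF3q1 ndF6q2 pcF0 Cut.none Ext.none :=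
  certFX1 (fam := false) (s1 := true) (s2 := true) (a := 1) (b := 0) (c := 2) (cn := .npp) (n1 := ndF3q1) (n2 := ndF6q2) (pc := pcF0) (cut := Cut.none) (xt := Ext.none) (P1 := 536870912) (W1 := 536870912) (P2 := 1073741824) (W2 := 536870912) (P3 := 1046898278) (W3 := 26843546)
    rfl (fun _ => rfl) k0_pp_102

noncomputable def f_pp_112 : ℕ → ℕ → ℕ → ℕ → Bool := onCell 536870912 536870912 1073741824 536870912 1046898278 26843546
    (rowFX 2 false true true .dn 1 1 2 (qsf 536870912 536870912 1073741824 536870912 1) ndF3q1 ndF6q2 pcF1 Cut.none Ext.none)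

def k0_pp_112 : ∃ t, chk3 f_pp_112 t 1 1 1 = true :=
  ⟨(a (l 3) (b (l 3) (b (l 3) (a (l 3) (a (l 3) (a (l 785071150103) (b (l 1) (l 901437501063)))))))), by decide +kernel⟩

theorem c_pp_112 : CertFX 536870912 536870912 1073741824 536870912 1046898278 26843546 false true true .dn 1 1 2
    ndF3q1 ndF6q2 pcF1 Cut.none Ext.none :=
  certFX2 (fam := false) (s1 := true) (s2 := true) (a := 1) (b := 1) (c := 2) (cn := .dn) (n1 := ndF3q1) (n2 := ndF6q2) (pc := pcF1) (cut := Cut.none) (xt := Ext.none) (P1 := 536870912) (W1 := 536870912) (P2 := 1073741824) (W2 := 536870912) (P3 := 1046898278) (W3 := 26843546)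
    rfl (fun _ => rfl) k0_pp_112

noncomputable def f_pp_113 : ℕ → ℕ → ℕ → ℕ → Bool := onCell 536870912 536870912 0 1230186008 1046898278 26843546
    (rowFX 2 false true true .nn 1 1 3 (qsf 536870912 536870912 0 1230186008 1) ndF3q1 ndF6q3 pcF1 Cut.none Ext.none)

def k0_pp_113 : ∃ t, chk3 f_pp_113 t 1 2 1 = true :=
  ⟨(a (l 2) (a (l 2) (b (a (l 2) (a (l 2) (b (a (l 2) (l 16354320)) (l 14944352)))) (a (b (l 12978568) (b (l 13459896) (a (l 13619728) (l 13981792)))) (b (a (l 13361960) (b (l 13972088) (l 14108912))) (a (b (l 13916912) (l 14550432)) (b (l 14532192) (l 15153448)))))))), by decide +kernel⟩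

def k1_pp_113 : ∃ t, chk3 f_pp_113 t 1 3 1 = true :=
  ⟨(a (b (a (l 2) (b (l 2) (a (l 2) (b (l 2) (a (l 2) (l 183166672695)))))) (b (a (l 2) (a (b (a (l 2) (l 13374104)) (a (l 3) (b (a (l 13670192) (b (l 13745248) (l 13886616))) (l 3)))) (b (a (b (l 13550672) (c (l 13859576) (a (l 13689656) (l 13917000)))) (a (b (l 13791728) (a (l 14127832) (l 14289928))) (b (l 14014216) (l 14312888)))) (a (b (c (l 151559865927) (a (l 14121832) (l 14455384))) (c (l 14872424) (l 14866872))) (b (c (l 14946864) (l 14937056)) (l 15474432)))))) (a (l 3) (b (l 3) (l 3))))) (b (a (b (a (l 2) (b (l 13545664) (a (l 13708936) (l 14140136)))) (a (b (a (l 13407304) (b (l 13626960) (l 13874176))) (a (b (l 13737984) (a (l 13890920) (l 14142912))) (b (l 14030448) (c (l 14683128) (l 14688720))))) (b (a (b (l 14055200) (l 14459696)) (l 14876080)) (a (l 15109544) (l 15783384))))) (b (a (b (a (l 14018952) (l 14548936)) (a (l 14654400) (l 15202832))) (a (l 15469432) (l 15912632))) (a (b (a (l 15424184) (l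 15943848)) (a (l 16232424) (l 16409440))) (b (l 16218152) (l 16257752))))) (a (b (a (b (a (c (b (l 14525144) (l 15049880)) (l 14750256)) (l 15395584)) (a (b (l 15573992) (l 16166856)) (b (l 16238536) (l 16652224)))) (b (a (b (l 15825840) (l 16346872)) (a (l 16524416) (l 16666144))) (a (l 16725552) (l 16771824)))) (a (b (a (b (l 16626112) (l 3)) (l 16771856)) (l 3)) (b (l 16776024) (l 16771176)))) (a (b (a (b (l 16617872) (l 16616128)) (l 16427152)) (b (l 16494272) (l 16479808))) (b (b (l 16195040) (a (l 16217016) (b (l 16068160) (l 16030056)))) (a (b (l 16166480) (l 16113136)) (b (l 15989368) (l 15901656)))))))), by decide +kernel⟩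

theorem s2_pp_113 : ∃ t, chk3 f_pp_113 t 1 1 1 = true := ex3_b k0_pp_113 k1_pp_113

theorem c_pp_113 : CertFX 536870912 536870912 0 1230186008 1046898278 26843546 false true true .nn 1 1 3
    ndF3q1 ndF6q3 pcF1 Cut.none Ext.none :=
  certFX2 (fam := false) (s1 := true) (s2 := true) (a := 1) (b := 1) (c := 3) (cn := .nn) (n1 := ndF3q1) (n2 := ndF6q3) (pc := pcF1) (cut := Cut.none) (xt := Ext.none) (P1 := 536870912) (W1 := 536870912) (P2 := 0) (W2 := 1230186008) (P3 := 1046898278) (W3 := 26843546)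
    rfl (fun _ => rfl) s2_pp_113

noncomputable def f_pp_123 : ℕ → ℕ → ℕ → ℕ → Bool := onCell 1073741824 536870912 0 1230186008 1046898278 26843546
    (rowFX 2 false true true .npn 1 2 3 (qsf 536870912 536870912 0 1230186008 2) ndF3q1 ndF6q3 pcF2 Cut.none Ext.none)

def k0_pp_123 : ∃ t, chk3 f_pp_123 t 1 1 1 = true :=
  ⟨(b (a (a (b (a (b (a (l 15933672) (l 16334992)) (a (l 15349800) (l 15760608))) (a (l 15771800) (l 15464856))) (a (b (a (l 15249432) (l 15233912)) (a (l 14862568) (l 15318528))) (b (a (l 15353712) (l 15198168)) (l 15215896)))) (b (a (b (l 15200504) (l 15423944)) (l 15972400)) (a (b (l 15473288) (l 15532872)) (a (l 16207984) (l 16478840))))) (a (b (a (l 16432200) (l 16714552)) (a (l 16623848) (l 16750704))) (b (a (l 16723688) (l 4)) (a (l 16755064) (l 16755064))))) (a (a (b (b (a (b (l 15511144) (l 15653808)) (l 15469768)) (a (l 15753184) (l 15396064))) (b (a (l 15894304) (l 15302664)) (b (b (a (l 15988912) (b (l 15246784) (a (l 15427968) (l 15073864))))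 (a (a (c (l 16229096) (l 16213352)) (c (l 15837808) (l 15811704))) (a (l 15423608) (l 14950976)))) (a (a (c (b (l 16161104) (l 16037528)) (a (l 16140400) (l 16022168))) (c (b (l 15895728) (l 15968192)) (l 15899072))) (a (b (l 15674408) (l 1)) (l 1)))))) (b (a (a (a (l 15111984) (l 15256128)) (l 15784528)) (a (l 16429296) (l 16751848))) (b (a (a (l 14985216) (l 15662520)) (a (l 16404392) (l 16776736))) (a (a (b (a (b (l 14844728) (l 1)) (l 1)) (l 1)) (l 1)) (l 1))))) (b (b (a (l 16768704) (l 16777160)) (l 484827987783)) (l 1)))), by decide +kernel⟩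

theorem c_pp_123 : CertFX 536870912 536870912 0 1230186008 1046898278 26843546 false true true .npn 1 2 3
    ndF3q1 ndF6q3 pcF2 Cut.none Ext.none :=
  certFX2 (fam := false) (s1 := true) (s2 := true) (a := 1) (b := 2) (c := 3) (cn := .npn) (n1 := ndF3q1) (n2 := ndF6q3) (pc := pcF2) (cut := Cut.none) (xt := Ext.none) (P1 := 536870912) (W1 := 536870912) (P2 := 0) (W2 := 1230186008) (P3 := 1046898278) (W3 := 26843546)
    rfl (fun _ => rfl) k0_pp_123

noncomputable def f_pp_133 : ℕ → ℕ → ℕ → ℕ → Bool := onCell 1610612736 536870912 0 1230186008 1046898278 26843546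
    (rowFX 2 false true true .dn 1 3 3 (qsf 536870912 536870912 0 1230186008 3) ndF3q1 ndF6q3 pcF3 Cut.none Ext.none)

def k0_pp_133 : ∃ t, chk3 f_pp_133 t 1 1 1 = true :=
  ⟨(a (b (b (l 4) (l 1)) (l 1)) (l 1)), by decide +kernel⟩

theorem c_pp_133 : CertFX 536870912 536870912 0 1230186008 1046898278 26843546 false true true .dn 1 3 3
    ndF3q1 ndF6q3 pcF3 Cut.none Ext.none :=
  certFX2 (fam := false) (s1 := true) (s2 := true) (a := 1) (b := 3) (c := 3) (cn := .dn) (n1 := ndF3q1) (n2 := ndF6q3) (pc := pcF3) (cut := Cut.none) (xt := Ext.none) (P1 := 536870912) (W1 := 536870912) (P2 := 0) (W2 := 1230186008) (P3 := 1046898278) (W3 := 26843546)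
    rfl (fun _ => rfl) k0_pp_133

noncomputable def f_pp_202 : ℕ → ℕ → ℕ → ℕ → Bool := onCell 1073741824 536870912 1073741824 536870912 1046898278 26843546
    (rowFX 0 false true true .pp 2 0 2 (qsf 1073741824 536870912 1073741824 536870912 0) ndF3q2 ndF6q2 pcF0 Cut.none Ext.none)

def k0_pp_202 : ∃ t, chk3 f_pp_202 t 1 1 1 = true :=
  ⟨(l 3), by decide +kernel⟩

theorem c_pp_202 : CertFX 1073741824 536870912 1073741824 536870912 1046898278 26843546 false true true .pp 2 0 2
    ndF3q2 ndF6q2 pcF0 Cut.none Ext.none :=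
  certFX0 (fam := false) (s1 := true) (s2 := true) (a := 2) (b := 0) (c := 2) (cn := .pp) (n1 := ndF3q2) (n2 := ndF6q2) (pc := pcF0) (cut := Cut.none) (xt := Ext.none) (P1 := 1073741824) (W1 := 536870912) (P2 := 1073741824) (W2 := 536870912) (P3 := 1046898278) (W3 := 26843546)
    rfl k0_pp_202

noncomputable def f_pp_203 : ℕ → ℕ → ℕ → ℕ → Bool := onCell 0 536870912 0 1230186008 1046898278 26843546
    (rowFX 2 false true true .up 2 0 3 (qsf 1073741824 536870912 0 1230186008 0) ndF3q2 ndF6q3 pcF0 Cut.none Ext.none)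

def k0_pp_203 : ∃ t, chk3 f_pp_203 t 1 1 1 = true :=
  ⟨(b (l 3) (l 3)), by decide +kernel⟩

theorem c_pp_203 : CertFX 1073741824 536870912 0 1230186008 1046898278 26843546 false true true .up 2 0 3
    ndF3q2 ndF6q3 pcF0 Cut.none Ext.none :=
  certFX2 (fam := false) (s1 := true) (s2 := true) (a := 2) (b := 0) (c := 3) (cn := .up) (n1 := ndF3q2) (n2 := ndF6q3) (pc := pcF0) (cut := Cut.none) (xt := Ext.none) (P1 := 1073741824) (W1 := 536870912) (P2 := 0) (W2 := 1230186008) (P3 := 1046898278) (W3 := 26843546)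
    rfl (fun _ => rfl) k0_pp_203

noncomputable def cut_pp_213 : Cut := Cut.of [[⟨0, 1, 0, 67108864⟩, ⟨1, 1, 0, 67108864⟩, ⟨2, 2, 0, 67108864⟩, ⟨3, 0, 0, 1233125376⟩]]

noncomputable def f_pp_213 : ℕ → ℕ → ℕ → ℕ → Bool := onCell 1073741824 536870912 0 1230186008 1046898278 26843546
    (rowFX 0 false true true .pnn 2 1 3 (qsf 1073741824 536870912 0 1230186008 1) ndF3q2 ndF6q3 pcF1 cut_pp_213 Ext.none)

def k0_pp_213 : ∃ t, chk3 f_pp_213 t 1 1 1 = true :=
  ⟨(b (a (a (a (b (a (l 6) (l 3)) (l 3)) (l 3)) (l 3)) (l 3)) (l 3)), by decide +kernel⟩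

theorem c_pp_213 : CertFX 1073741824 536870912 0 1230186008 1046898278 26843546 false true true .pnn 2 1 3
    ndF3q2 ndF6q3 pcF1 cut_pp_213 Ext.none :=
  certFX0 (fam := false) (s1 := true) (s2 := true) (a := 2) (b := 1) (c := 3) (cn := .pnn) (n1 := ndF3q2) (n2 := ndF6q3) (pc := pcF1) (cut := cut_pp_213) (xt := Ext.none) (P1 := 1073741824) (W1 := 536870912) (P2 := 0) (W2 := 1230186008) (P3 := 1046898278) (W3 := 26843546)
    rfl k0_pp_213

noncomputable def f_pp_303 : ℕ → ℕ → ℕ → ℕ → Bool := onCell 0 536870912 0 1230186008 1046898278 26843546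
    (rowFX 2 false true true .npn 3 0 3 (qsf 1610612736 536870912 0 1230186008 0) ndF3q3 ndF6q3 pcF0 Cut.none Ext.none)

def k0_pp_303 : ∃ t, chk3 f_pp_303 t 1 1 1 = true :=
  ⟨(b (l 3) (l 3)), by decide +kernel⟩

theorem c_pp_303 : CertFX 1610612736 536870912 0 1230186008 1046898278 26843546 false true true .npn 3 0 3
    ndF3q3 ndF6q3 pcF0 Cut.none Ext.none :=
  certFX2 (fam := false) (s1 := true) (s2 := true) (a := 3) (b := 0) (c := 3) (cn := .npn) (n1 := ndF3q3) (n2 := ndF6q3) (pc := pcF0) (cut := Cut.none) (xt := Ext.none) (P1 := 1610612736) (W1 := 536870912) (P2 := 0) (W2 := 1230186008) (P3 := 1046898278) (W3 := 26843546)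
    rfl (fun _ => rfl) k0_pp_303

noncomputable def f_pp_313 : ℕ → ℕ → ℕ → ℕ → Bool := onCell 1610612736 536870912 0 1230186008 1046898278 26843546
    (rowFX 0 false true true .dn 3 1 3 (qsf 1610612736 536870912 0 1230186008 1) ndF3q3 ndF6q3 pcF1 Cut.none Ext.none)

def k0_pp_313 : ∃ t, chk3 f_pp_313 t 1 1 1 = true :=
  ⟨(b (l 3) (l 1)), by decide +kernel⟩

theorem c_pp_313 : CertFX 1610612736 536870912 0 1230186008 1046898278 26843546 false true true .dn 3 1 3
    ndF3q3 ndF6q3 pcF1 Cut.none Ext.none :=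
  certFX0 (fam := false) (s1 := true) (s2 := true) (a := 3) (b := 1) (c := 3) (cn := .dn) (n1 := ndF3q3) (n2 := ndF6q3) (pc := pcF1) (cut := Cut.none) (xt := Ext.none) (P1 := 1610612736) (W1 := 536870912) (P2 := 0) (W2 := 1230186008) (P3 := 1046898278) (W3 := 26843546)
    rfl k0_pp_313

noncomputable def f_pm_001 : ℕ → ℕ → ℕ → ℕ → Bool := onCell 0 536870912 536870912 469762048 1046898278 26843546
    (rowFX 0 false true false .up 0 0 1 (qsf 0 536870912 536870912 469762048 0) ndF3q0 ndF6q1 pcF0 Cut.none Ext.none)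

def k0_pm_001 : ∃ t, chk3 f_pm_001 t 1 1 1 = true :=
  ⟨(l 4), by decide +kernel⟩

theorem c_pm_001 : CertFX 0 536870912 536870912 469762048 1046898278 26843546 false true false .up 0 0 1
    ndF3q0 ndF6q1 pcF0 Cut.none Ext.none :=
  certFX0 (fam := false) (s1 := true) (s2 := false) (a := 0) (b := 0) (c := 1) (cn := .up) (n1 := ndF3q0) (n2 := ndF6q1) (pc := pcF0) (cut := Cut.none) (xt := Ext.none) (P1 := 0) (W1 := 536870912) (P2 := 536870912) (W2 := 469762048) (P3 := 1046898278) (W3 := 26843546)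
    rfl k0_pm_001

noncomputable def f_pm_011 : ℕ → ℕ → ℕ → ℕ → Bool := onCell 0 536870912 536870912 469762048 1046898278 26843546
    (rowFX 0 false true false .pnn 0 1 1 (qsf 0 536870912 536870912 469762048 1) ndF3q0 ndF6q1 pcF1 Cut.none Ext.none)

def k0_pm_011 : ∃ t, chk3 f_pm_011 t 1 1 1 = true :=
  ⟨(l 4), by decide +kernel⟩

theorem c_pm_011 : CertFX 0 536870912 536870912 469762048 1046898278 26843546 false true false .pnn 0 1 1
    ndF3q0 ndF6q1 pcF1 Cut.none Ext.none :=
  certFX0 (fam := false) (s1 := true) (s2 := false) (a := 0) (b := 1) (c := 1) (cn := .pnn) (n1 := ndF3q0) (n2 := ndF6q1) (pc := pcF1) (cut := Cut.none) (xt := Ext.none) (P1 := 0) (W1 := 536870912) (P2 := 536870912) (W2 := 469762048) (P3 := 1046898278) (W3 := 26843546)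
    rfl k0_pm_011

noncomputable def f_pm_012 : ℕ → ℕ → ℕ → ℕ → Bool := onCell 0 536870912 1073741824 536870912 1046898278 26843546
    (rowFX 0 false true false .pnp 0 1 2 (qsf 0 536870912 1073741824 536870912 1) ndF3q0 ndF6q2 pcF1 Cut.none Ext.none)

def k0_pm_012 : ∃ t, chk3 f_pm_012 t 1 1 1 = true :=
  ⟨(l 4), by decide +kernel⟩

theorem c_pm_012 : CertFX 0 536870912 1073741824 536870912 1046898278 26843546 false true false .pnp 0 1 2
    ndF3q0 ndF6q2 pcF1 Cut.none Ext.none :=
  certFX0 (fam := false) (s1 := true) (s2 := false) (a := 0) (b := 1) (c := 2) (cn := .pnp) (n1 := ndF3q0) (n2 := ndF6q2) (pc := pcF1) (cut := Cut.none) (xt := Ext.none) (P1 := 0) (W1 := 536870912) (P2 := 1073741824) (W2 := 536870912) (P3 := 1046898278) (W3 := 26843546)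
    rfl k0_pm_012

noncomputable def f_pm_022 : ℕ → ℕ → ℕ → ℕ → Bool := onCell 0 536870912 1073741824 536870912 1046898278 26843546
    (rowFX 0 false true false .pp 0 2 2 (qsf 0 536870912 1073741824 536870912 2) ndF3q0 ndF6q2 pcF2 Cut.none Ext.none)

def k0_pm_022 : ∃ t, chk3 f_pm_022 t 1 1 1 = true :=
  ⟨(l 4), by decide +kernel⟩

theorem c_pm_022 : CertFX 0 536870912 1073741824 536870912 1046898278 26843546 false true false .pp 0 2 2
    ndF3q0 ndF6q2 pcF2 Cut.none Ext.none :=
  certFX0 (fam := false) (s1 := true) (s2 := false) (a := 0) (b := 2) (c := 2) (cn := .pp) (n1 := ndF3q0) (n2 := ndF6q2) (pc := pcF2) (cut := Cut.none) (xt := Ext.none) (P1 := 0) (W1 := 536870912) (P2 := 1073741824) (W2 := 536870912) (P3 := 1046898278) (W3 := 26843546)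
    rfl k0_pm_022

noncomputable def f_pm_023 : ℕ → ℕ → ℕ → ℕ → Bool := onCell 0 536870912 0 1230186008 1046898278 26843546
    (rowFX 0 false true false .up 0 2 3 (qsf 0 536870912 0 1230186008 2) ndF3q0 ndF6q3 pcF2 Cut.none Ext.none)

def k0_pm_023 : ∃ t, chk3 f_pm_023 t 1 1 1 = true :=
  ⟨(b (l 4) (l 4)), by decide +kernel⟩

theorem c_pm_023 : CertFX 0 536870912 0 1230186008 1046898278 26843546 false true false .up 0 2 3
    ndF3q0 ndF6q3 pcF2 Cut.none Ext.none :=
  certFX0 (fam := false) (s1 := true) (s2 := false) (a := 0) (b := 2) (c := 3) (cn := .up) (n1 := ndF3q0) (n2 := ndF6q3) (pc := pcF2) (cut := Cut.none) (xt := Ext.none) (P1 := 0) (W1 := 536870912) (P2 := 0) (W2 := 1230186008) (P3 := 1046898278) (W3 := 26843546)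
    rfl k0_pm_023

noncomputable def f_pm_033 : ℕ → ℕ → ℕ → ℕ → Bool := onCell 0 536870912 0 1230186008 1046898278 26843546
    (rowFX 0 false true false .pnn 0 3 3 (qsf 0 536870912 0 1230186008 3) ndF3q0 ndF6q3 pcF3 Cut.none Ext.none)

def k0_pm_033 : ∃ t, chk3 f_pm_033 t 1 1 1 = true :=
  ⟨(b (l 4) (l 4)), by decide +kernel⟩

theorem c_pm_033 : CertFX 0 536870912 0 1230186008 1046898278 26843546 false true false .pnn 0 3 3
    ndF3q0 ndF6q3 pcF3 Cut.none Ext.none :=
  certFX0 (fam := false) (s1 := true) (s2 := false) (a := 0) (b := 3) (c := 3) (cn := .pnn) (n1 := ndF3q0) (n2 := ndF6q3) (pc := pcF3) (cut := Cut.none) (xt := Ext.none) (P1 := 0) (W1 := 536870912) (P2 := 0) (W2 := 1230186008) (P3 := 1046898278) (W3 := 26843546)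
    rfl k0_pm_033

noncomputable def f_pm_101 : ℕ → ℕ → ℕ → ℕ → Bool := onCell 536870912 536870912 536870912 469762048 1046898278 26843546
    (rowFX 0 false true false .npn 1 0 1 (qsf 536870912 536870912 536870912 469762048 0) ndF3q1 ndF6q1 pcF0 Cut.none Ext.none)

def k0_pm_101 : ∃ t, chk3 f_pm_101 t 1 1 1 = true :=
  ⟨(l 4), by decide +kernel⟩

theorem c_pm_101 : CertFX 536870912 536870912 536870912 469762048 1046898278 26843546 false true false .npn 1 0 1
    ndF3q1 ndF6q1 pcF0 Cut.none Ext.none :=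
  certFX0 (fam := false) (s1 := true) (s2 := false) (a := 1) (b := 0) (c := 1) (cn := .npn) (n1 := ndF3q1) (n2 := ndF6q1) (pc := pcF0) (cut := Cut.none) (xt := Ext.none) (P1 := 536870912) (W1 := 536870912) (P2 := 536870912) (W2 := 469762048) (P3 := 1046898278) (W3 := 26843546)
    rfl k0_pm_101

noncomputable def f_pm_102 : ℕ → ℕ → ℕ → ℕ → Bool := onCell 536870912 536870912 1073741824 536870912 1046898278 26843546
    (rowFX 0 false true false .npp 1 0 2 (qsf 536870912 536870912 1073741824 536870912 0) ndF3q1 ndF6q2 pcF0 Cut.none Ext.none)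

def k0_pm_102 : ∃ t, chk3 f_pm_102 t 1 1 1 = true :=
  ⟨(l 4), by decide +kernel⟩

theorem c_pm_102 : CertFX 536870912 536870912 1073741824 536870912 1046898278 26843546 false true false .npp 1 0 2
    ndF3q1 ndF6q2 pcF0 Cut.none Ext.none :=
  certFX0 (fam := false) (s1 := true) (s2 := false) (a := 1) (b := 0) (c := 2) (cn := .npp) (n1 := ndF3q1) (n2 := ndF6q2) (pc := pcF0) (cut := Cut.none) (xt := Ext.none) (P1 := 536870912) (W1 := 536870912) (P2 := 1073741824) (W2 := 536870912) (P3 := 1046898278) (W3 := 26843546)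
    rfl k0_pm_102

noncomputable def f_pm_112 : ℕ → ℕ → ℕ → ℕ → Bool := onCell 536870912 536870912 1073741824 536870912 1046898278 26843546
    (rowFX 0 false true false .dn 1 1 2 (qsf 536870912 536870912 1073741824 536870912 1) ndF3q1 ndF6q2 pcF1 Cut.none Ext.none)

def k0_pm_112 : ∃ t, chk3 f_pm_112 t 1 1 1 = true :=
  ⟨(l 4), by decide +kernel⟩

theorem c_pm_112 : CertFX 536870912 536870912 1073741824 536870912 1046898278 26843546 false true false .dn 1 1 2
    ndF3q1 ndF6q2 pcF1 Cut.none Ext.none :=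
  certFX0 (fam := false) (s1 := true) (s2 := false) (a := 1) (b := 1) (c := 2) (cn := .dn) (n1 := ndF3q1) (n2 := ndF6q2) (pc := pcF1) (cut := Cut.none) (xt := Ext.none) (P1 := 536870912) (W1 := 536870912) (P2 := 1073741824) (W2 := 536870912) (P3 := 1046898278) (W3 := 26843546)
    rfl k0_pm_112

noncomputable def f_pm_113 : ℕ → ℕ → ℕ → ℕ → Bool := onCell 536870912 536870912 0 1230186008 1046898278 26843546
    (rowFX 0 false true false .nn 1 1 3 (qsf 536870912 536870912 0 1230186008 1) ndF3q1 ndF6q3 pcF1 Cut.none Ext.none)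

def k0_pm_113 : ∃ t, chk3 f_pm_113 t 1 1 1 = true :=
  ⟨(b (a (l 2) (b (a (l 2) (a (l 2) (a (l 2) (b (l 381814928887) (l 4))))) (l 4))) (l 4)), by decide +kernel⟩

theorem c_pm_113 : CertFX 536870912 536870912 0 1230186008 1046898278 26843546 false true false .nn 1 1 3
    ndF3q1 ndF6q3 pcF1 Cut.none Ext.none :=
  certFX0 (fam := false) (s1 := true) (s2 := false) (a := 1) (b := 1) (c := 3) (cn := .nn) (n1 := ndF3q1) (n2 := ndF6q3) (pc := pcF1) (cut := Cut.none) (xt := Ext.none) (P1 := 536870912) (W1 := 536870912) (P2 := 0) (W2 := 1230186008) (P3 := 1046898278) (W3 := 26843546)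
    rfl k0_pm_113

noncomputable def f_pm_123 : ℕ → ℕ → ℕ → ℕ → Bool := onCell 536870912 536870912 0 1230186008 1046898278 26843546
    (rowFX 0 false true false .npn 1 2 3 (qsf 536870912 536870912 0 1230186008 2) ndF3q1 ndF6q3 pcF2 Cut.none Ext.none)

def k0_pm_123 : ∃ t, chk3 f_pm_123 t 1 1 1 = true :=
  ⟨(b (a (l 4) (b (a (l 4) (a (l 4) (b (a (l 4) (l 16223488)) (l 4)))) (l 4))) (l 4)), by decide +kernel⟩

theorem c_pm_123 : CertFX 536870912 536870912 0 1230186008 1046898278 26843546 false true false .npn 1 2 3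
    ndF3q1 ndF6q3 pcF2 Cut.none Ext.none :=
  certFX0 (fam := false) (s1 := true) (s2 := false) (a := 1) (b := 2) (c := 3) (cn := .npn) (n1 := ndF3q1) (n2 := ndF6q3) (pc := pcF2) (cut := Cut.none) (xt := Ext.none) (P1 := 536870912) (W1 := 536870912) (P2 := 0) (W2 := 1230186008) (P3 := 1046898278) (W3 := 26843546)
    rfl k0_pm_123

noncomputable def f_pm_133 : ℕ → ℕ → ℕ → ℕ → Bool := onCell 536870912 536870912 0 1230186008 1046898278 26843546
    (rowFX 0 false true false .dn 1 3 3 (qsf 536870912 536870912 0 1230186008 3) ndF3q1 ndF6q3 pcF3 Cut.none Ext.none)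

def k0_pm_133 : ∃ t, chk3 f_pm_133 t 1 1 1 = true :=
  ⟨(b (a (l 4) (l 1)) (l 1)), by decide +kernel⟩

theorem c_pm_133 : CertFX 536870912 536870912 0 1230186008 1046898278 26843546 false true false .dn 1 3 3
    ndF3q1 ndF6q3 pcF3 Cut.none Ext.none :=
  certFX0 (fam := false) (s1 := true) (s2 := false) (a := 1) (b := 3) (c := 3) (cn := .dn) (n1 := ndF3q1) (n2 := ndF6q3) (pc := pcF3) (cut := Cut.none) (xt := Ext.none) (P1 := 536870912) (W1 := 536870912) (P2 := 0) (W2 := 1230186008) (P3 := 1046898278) (W3 := 26843546)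
    rfl k0_pm_133

noncomputable def f_pm_202 : ℕ → ℕ → ℕ → ℕ → Bool := onCell 1073741824 536870912 0 536870912 1046898278 26843546
    (rowFX 1 false true false .pp 2 0 2 (qsf 1073741824 536870912 1073741824 536870912 0) ndF3q2 ndF6q2 pcF0 Cut.none Ext.none)

def k0_pm_202 : ∃ t, chk3 f_pm_202 t 4 16 1 = true :=
  ⟨(a (b (c (b (a (a (a (l 14918144) (l 15038920)) (l 15118304)) (l 15252352)) (a (c (b (a (l 15008544) (l 15151976)) (l 15003912)) (b (a (l 14935888) (l 15095848)) (a (l 14993616) (l 15111504)))) (c (l 15256416) (b (l 15237800) (l 15253256))))) (b (c (a (b (a (l 14920360) (l 15027560)) (a (c (b (l 14936232) (l 14941816)) (b (l 14913808) (l 14921696))) (c (l 15041512) (l 15021096)))) (b (l 15194416) (l 14948480))) (b (a (c (a (b (l 14883824) (a (l 14837568) (l 14913184))) (l 14998080)) (c (b (a (l 14867016) (l 14987192)) (l 14931896)) (b (a (b (l 14856096) (l 14858144)) (l 14981192)) (l 14922224)))) (c (l 15178112) (b (l 15165512) (l 15169392)))) (a (c (a (a (l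 14865896) (l 14920472)) (l 15006488)) (l 14804816)) (l 15180536)))) (c (a (a (b (c (l 14954120) (l 14928160)) (l 14945400)) (l 14942776)) (l 15213888)) (a (a (c (l 14902112) (l 14878928)) (l 15007864)) (l 15187848))))) (c (a (b (c (a (l 15044320) (l 15187360)) (a (l 15005824) (l 15123440))) (a (l 15033208) (l 15165064))) (b (c (l 15300632) (l 15259576)) (a (l 15247824) (l 15293448)))) (a (c (a (a (l 14922584) (l 14990736)) (l 15060312)) (a (a (l 14876440) (l 14935208)) (l 15022928))) (a (l 15155600) (l 15236920))))) (b (c (b (a (l 15284352) (l 14971080)) (a (b (l 15126824) (l 15038680)) (c (l 14910536) (l 14890968)))) (b (a (c (b (l 15266976) (l 15100768)) (b (c (l 15251392) (b (l 15247768) (l 15240080))) (l 15228624))) (c (b (l 14951008) (l 14915056)) (b (c (l 14932424) (l 14920056)) (l 14891920)))) (a (c (l 15210912) (l 15184840)) (c (l 14867464) (l 14837024))))) (a (c (b (l 15187576) (l 15116408)) (l 15093504)) (c (b (a (l 14945368) (l 14791624)) (l 14734656)) (a (l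 14847824) (l 14774304)))))), by decide +kernel⟩

def k1_pm_202 : ∃ t, chk3 f_pm_202 t 4 17 1 = true :=
  ⟨(a (a (c (b (a (l 14911472) (l 15168544)) (a (l 15021048) (l 14970368))) (a (c (l 14975016) (a (l 14901408) (l 14959688))) (b (l 15058504) (l 15035568)))) (c (b (a (l 15216352) (l 15187936)) (l 14856040)) (b (a (l 15134000) (l 15127696)) (l 14995552)))) (a (b (c (l 14997024) (l 14939264)) (c (a (l 14917048) (l 14898160)) (a (l 14865560) (l 14846256)))) (b (a (c (l 14893424) (l 14833056)) (l 15022600)) (c (l 15223728) (l 15180592))))), by decide +kernel⟩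

def k2_pm_202 : ∃ t, chk3 f_pm_202 t 5 8 1 = true :=
  ⟨(b (a (b (a (c (b (a (l 14714432) (l 14866728)) (b (a (l 14733048) (l 14984240)) (l 14782808))) (b (a (c (l 14672080) (b (l 14629440) (l 14637616))) (b (l 14519336) (l 14643648))) (a (c (l 14734888) (l 14702808)) (l 14983136)))) (c (b (l 15654392) (a (l 15531688) (l 16067240))) (b (c (l 15462992) (b (l 15428536) (l 15655144))) (c (l 15787168) (l 15768864))))) (a (c (b (l 15056616) (l 15214832)) (l 15078080)) (c (a (l 15763336) (l 16286752)) (l 15745136)))) (b (a (c (b (l 16611296) (a (l 16575600) (l 16294856))) (b (a (c (l 16432136) (l 16427232)) (l 16169848)) (a (l 16574232) (l 16281672)))) (c (l 16103304) (b (l 16025144) (l 16092224)))) (a (c (l 16421104) (l 16436792)) (l 16022680)))) (b (a (a (c (l 15429592) (l 15383776)) (a (l 16000544) (l 16477544))) (a (l 16402016) (l 16084848))) (a (a (c (l 15702512) (l 15672544)) (a (l 16198448) (l 16528688))) (c (l 16150008) (l 16311584))))), by decide +kernel⟩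

def k3_pm_202 : ∃ t, chk3 f_pm_202 t 2 9 1 = true :=
  ⟨(a (a (b (a (c (a (b (l 15012592) (l 14897320)) (l 14941792)) (a (b (a (l 14925392) (l 14958168)) (l 14809848)) (l 14836320))) (b (c (l 14907184) (l 14835376)) (a (l 14744112) (l 14607992)))) (a (a (c (l 14660456) (l 14523528)) (b (l 14660568) (c (l 14690136) (l 14366664)))) (a (b (b (l 14673824) (l 14726056)) (l 14936024)) (l 15181568)))) (b (a (b (a (b (l 14824352) (l 14874840)) (l 15081448)) (l 15231888)) (b (l 15433720) (l 15774160))) (a (l 15585480) (b (l 15995584) (l 16123080))))) (a (b (a (b (a (l 15832240) (l 16006976)) (l 16029200)) (b (l 16385552) (l 16355336))) (a (l 16038488) (l 16307744))) (b (a (l 16396848) (l 16279328)) (l 16476400)))), by decide +kernel⟩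

def k4_pm_202 : ∃ t, chk3 f_pm_202 t 3 4 1 = true :=
  ⟨(b (b (a (b (c (b (l 15904872) (a (b (l 16021120) (l 16024112)) (l 15886912))) (b (a (a (l 16026952) (c (l 15965784) (l 15812112))) (c (l 15858704) (l 15850928))) (c (l 15944328) (l 15947352)))) (c (a (l 15774712) (l 15886864)) (l 15977648))) (b (c (b (l 15621488) (l 15643560)) (b (c (l 15606448) (l 15596544)) (l 15610968))) (c (l 15645008) (l 15657960)))) (a (c (b (l 16014928) (l 16073240)) (l 16045960)) (c (l 15762072) (l 15760208)))) (a (b (l 15976048) (l 16295136)) (b (b (l 15626872) (l 15961064)) (a (l 16147512) (l 2))))), by decide +kernel⟩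

def k5_pm_202 : ∃ t, chk3 f_pm_202 t 1 5 1 = true :=
  ⟨(a (a (b (a (a (b (a (b (c (l 14446416) (a (l 14399856) (l 14518576))) (l 14710424)) (l 14847968)) (a (c (l 15221064) (l 15119728)) (l 15483400))) (b (a (l 15391432) (l 15766040)) (a (b (l 15805224) (l 15999216)) (l 16046480)))) (b (a (b (l 16039680) (l 16163464)) (l 16136504)) (l 16108768))) (a (b (a (a (b (l 15581000) (l 15600240)) (b (l 15911096) (l 15953728))) (l 16063856)) (a (l 15846352) (l 16021528))) (b (l 16041872) (l 16000504)))) (b (a (a (l 15963056) (l 16235944)) (l 16593928)) (a (a (l 15848720) (l 16126088)) (b (l 16700608) (l 16667856))))) (a (b (b (l 16402792) (l 16521712)) (b (l 16669744) (l 16777056))) (b (b (l 16093496) (l 2)) (l 2)))), by decide +kernel⟩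

def k6_pm_202 : ∃ t, chk3 f_pm_202 t 1 3 1 = true :=
  ⟨(a (a (b (a (b (a (l 15867464) (l 16021456)) (a (l 15867464) (l 16021456))) (b (l 16000440) (l 16000440))) (c (a (b (l 15758584) (l 15947328)) (l 16010400)) (a (b (l 15851768) (l 15914688)) (l 15927568)))) (b (a (b (l 15970528) (a (l 15828440) (l 16106936))) (b (l 16667800) (l 16667800))) (a (b (l 15970528) (l 2)) (l 2)))) (b (a (b (l 16777216) (l 2)) (l 2)) (l 2))), by decide +kernel⟩

theorem s7_pm_202 : ∃ t, chk3 f_pm_202 t 4 8 1 = true := ex3_b k0_pm_202 k1_pm_202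

theorem s8_pm_202 : ∃ t, chk3 f_pm_202 t 2 8 1 = true := ex3_a s7_pm_202 k2_pm_202

theorem s9_pm_202 : ∃ t, chk3 f_pm_202 t 2 4 1 = true := ex3_b s8_pm_202 k3_pm_202

theorem s10_pm_202 : ∃ t, chk3 f_pm_202 t 1 4 1 = true := ex3_a s9_pm_202 k4_pm_202

theorem s11_pm_202 : ∃ t, chk3 f_pm_202 t 1 2 1 = true := ex3_b s10_pm_202 k5_pm_202

theorem s12_pm_202 : ∃ t, chk3 f_pm_202 t 1 1 1 = true := ex3_b s11_pm_202 k6_pm_202

theorem c_pm_202 : CertFX 1073741824 536870912 1073741824 536870912 1046898278 26843546 false true false .pp 2 0 2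
    ndF3q2 ndF6q2 pcF0 Cut.none Ext.none :=
  certFX1 (fam := false) (s1 := true) (s2 := false) (a := 2) (b := 0) (c := 2) (cn := .pp) (n1 := ndF3q2) (n2 := ndF6q2) (pc := pcF0) (cut := Cut.none) (xt := Ext.none) (P1 := 1073741824) (W1 := 536870912) (P2 := 1073741824) (W2 := 536870912) (P3 := 1046898278) (W3 := 26843546)
    rfl (fun _ => rfl) s12_pm_202

noncomputable def f_pm_203 : ℕ → ℕ → ℕ → ℕ → Bool := onCell 0 536870912 0 1230186008 1046898278 26843546
    (rowFX 2 false true false .up 2 0 3 (qsf 1073741824 536870912 0 1230186008 0) ndF3q2 ndF6q3 pcF0 Cut.none Ext.none)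

def k0_pm_203 : ∃ t, chk3 f_pm_203 t 1 1 1 = true :=
  ⟨(b (a (l 2) (l 3)) (a (a (b (l 2) (b (l 2) (b (a (l 2) (a (a (l 804867417575) (l 15827296)) (l 15914504))) (a (a (a (c (l 15352688) (l 589044653351)) (l 15420168)) (l 15630624)) (a (c (l 15885792) (l 15854344)) (l 16122208)))))) (b (a (l 2) (a (l 2) (a (l 2) (b (l 2) (l 1193027829415))))) (a (b (a (l 987404447975) (l 963783089495)) (b (l 336180868951) (l 16387320))) (b (a (b (l 939624349479) (l 16649728)) (a (a (l 16761992) (l 16775072)) (l 16777216))) (a (l 16666624) (l 16777056)))))) (b (a (b (l 3) (a (c (b (l 380272377735) (l 16777216)) (b (l 373293055783) (l 16777216))) (c (b (l 366313733927) (l 16777216)) (b (l 334101479207) (l 16777216))))) (b (a (c (l 383493603223) (l 361481895831)) (b (a (l 3) (l 361481895783)) (a (l 277730033447) (l 16777152)))) (a (c (b (l 276119420711) (l 16777216)) (b (l 16777192) (l 16777216))) (b (c (l 16777192) (l 16777192)) (l 16777216))))) (b (a (a (a (l 16777216) (l 16777216)) (l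 16777216)) (b (a (l 16777216) (l 16715952)) (a (l 16741032) (b (l 16507400) (l 16210960))))) (a (b (l 16756632) (a (l 16728432) (b (l 16534760) (a (l 16365144) (l 15997672))))) (b (a (b (l 16549976) (l 16229104)) (b (l 15995264) (l 15926320))) (a (b (l 15913952) (l 15965264)) (b (l 16006528) (l 15914264))))))))), by decide +kernel⟩

theorem c_pm_203 : CertFX 1073741824 536870912 0 1230186008 1046898278 26843546 false true false .up 2 0 3
    ndF3q2 ndF6q3 pcF0 Cut.none Ext.none :=
  certFX2 (fam := false) (s1 := true) (s2 := false) (a := 2) (b := 0) (c := 3) (cn := .up) (n1 := ndF3q2) (n2 := ndF6q3) (pc := pcF0) (cut := Cut.none) (xt := Ext.none) (P1 := 1073741824) (W1 := 536870912) (P2 := 0) (W2 := 1230186008) (P3 := 1046898278) (W3 := 26843546)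
    rfl (fun _ => rfl) k0_pm_203

noncomputable def cut_pm_213 : Cut := Cut.of [[⟨0, 1, 0, 67108864⟩, ⟨1, 1, 0, 67108864⟩, ⟨2, 2, 0, 67108864⟩, ⟨3, 0, 0, 1233125376⟩]]

noncomputable def f_pm_213 : ℕ → ℕ → ℕ → ℕ → Bool := onCell 1073741824 536870912 0 1230186008 1046898278 26843546
    (rowFX 0 false true false .pnn 2 1 3 (qsf 1073741824 536870912 0 1230186008 1) ndF3q2 ndF6q3 pcF1 cut_pm_213 Ext.none)

def k0_pm_213 : ∃ t, chk3 f_pm_213 t 4 4 1 = true :=
  ⟨(a (b (a (l 6) (a (l 6) (a (l 6) (b (l 3) (a (l 264844536375) (l 278266290439)))))) (b (a (l 6) (a (l 6) (c (b (l 16537440) (l 16486736)) (l 16416320)))) (a (a (c (a (b (c (l 16592912) (l 16253192)) (l 16161480)) (b (l 6) (l 16197712))) (a (b (l 15657888) (l 15564664)) (l 15809584))) (b (l 6) (a (l 16098656) (l 6)))) (a (c (b (l 16401048) (l 16304896)) (l 16213528)) (c (l 16370128) (l 16299712)))))) (b (a (l 3) (l 3)) (a (b (a (c (l 16423064) (l 16410016)) (l 232094773927)) (a (l 16307336) (l 16208760))) (b (l 3) (a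 (c (l 16088008) (l 16073944)) (b (l 15934824) (l 15933640))))))), by decide +kernel⟩

def k1_pm_213 : ∃ t, chk3 f_pm_213 t 4 5 1 = true :=
  ⟨(a (b (a (b (a (a (b (c (l 15961800) (l 15494032)) (l 15740368)) (c (l 16000728) (l 15683992))) (c (b (l 16148824) (l 16060504)) (b (l 15918184) (l 15848440)))) (a (a (b (c (l 15740608) (l 15453968)) (l 15582520)) (b (l 15755160) (c (l 15840784) (l 15638240)))) (c (b (l 15997888) (l 15958008)) (b (l 15810792) (l 15797432))))) (b (a (c (l 16177304) (l 16049624)) (c (l 16225576) (l 16158456))) (a (c (l 16065320) (l 15963424)) (c (l 16126600) (l 16077072))))) (b (a (a (c (l 15728584) (l 15431960)) (b (c (l 15934352) (l 15797504)) (l 15879472))) (a (b (c (l 16023856) (l 15945800)) (l 15981016)) (b (l 16072552) (a (l 16042632) (b (l 16080624) (l 16078560)))))) (a (a (c (l 15781400) (l 15685824)) (b (l 15892816) (l 15919352))) (a (b (l 15985432) (l 15992696)) (l 16058440))))) (b (a (b (a (l 16188552) (c (l 16124064) (l 16108168))) (a (b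 (l 16124408) (l 16100168)) (b (a (l 16078120) (l 16048912)) (a (l 16063368) (l 16047216))))) (b (a (b (l 16039840) (a (l 16037664) (l 15996896))) (l 15938568)) (c (l 15983200) (l 15974960)))) (b (a (b (a (a (l 16095600) (l 16076992)) (l 16056416)) (a (l 16081784) (l 16055056))) (c (l 15989304) (l 15975952))) (a (c (b (l 16070912) (l 16069040)) (b (l 16057664) (l 16053000))) (c (b (l 15985032) (l 15982128)) (l 15943712)))))), by decide +kernel⟩

def k2_pm_213 : ∃ t, chk3 f_pm_213 t 5 2 1 = true :=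
  ⟨(b (a (b (l 3) (a (b (l 3) (a (l 15845456) (l 3))) (l 3))) (l 3)) (a (b (a (b (a (l 15861928) (l 15814056)) (a (l 15863992) (l 15816496))) (b (l 203640025079) (c (l 16125160) (l 16117600)))) (a (b (c (a (l 15875848) (l 15828392)) (l 15832856)) (c (l 15843080) (l 15819464))) (b (c (l 16128264) (l 16116072)) (l 16088936)))) (b (a (b (l 3) (l 217599633655)) (l 3)) (a (b (c (l 16526176) (l 16546800)) (c (l 16516744) (l 16553536))) (b (c (l 16757512) (l 16756984)) (c (l 16773528) (l 16773432))))))), by decide +kernel⟩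

def k3_pm_213 : ∃ t, chk3 f_pm_213 t 3 2 1 = true :=
  ⟨(b (l 3) (a (b (l 3) (a (b (c (l 333027677063) (l 395304702151)) (c (a (l 16773752) (l 16773752)) (a (l 16773664) (l 16773664)))) (l 3))) (l 3))), by decide +kernel⟩

def k4_pm_213 : ∃ t, chk3 f_pm_213 t 1 3 1 = true :=
  ⟨(b (a (a (b (a (a (b (a (b (l 15805944) (l 15843336)) (b (l 15943800) (l 15948216))) (l 15882184)) (b (l 16029448) (l 16024904))) (a (l 16061504) (a (l 16012528) (b (l 15933464) (l 15933488))))) (a (a (b (l 15829648) (l 15867472)) (l 16021624)) (a (l 16060312) (l 15972480)))) (b (b (a (a (b (l 15828472) (l 15828488)) (c (l 16115568) (l 16098384))) (a (c (l 16556024) (l 16550280)) (c (l 16776936) (l 16776936)))) (a (a (l 15828504) (b (l 16107008) (l 16106992))) (a (b (l 16553184) (l 16553168)) (c (b (l 16776944) (l 16776960)) (l 16776960))))) (a (a (l 15828456) (l 16106952)) (a (l 16553128) (l 16776912))))) (a (a (b (c (b (c (l 16777176) (l 16777176)) (c (l 16777152) (l 16777152))) (b (l 16777176)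 (a (l 16777144) (l 16777144)))) (b (c (c (l 16777192) (l 16777192)) (c (l 16777192) (l 16777192))) (l 16777216))) (b (b (c (l 337322704743) (l 308331675399)) (c (l 16777152) (l 16777144))) (a (b (c (l 16777192) (l 16777192)) (l 1)) (l 1)))) (b (b (l 3) (l 1)) (l 1)))) (a (a (b (a (b (l 15841408) (l 15757520)) (b (l 16000440) (l 16000440))) (a (a (l 15867464) (l 16021456)) (b (l 16000440) (l 16000440)))) (b (a (b (l 15970528) (l 15970528)) (b (l 16667800) (l 1))) (a (b (l 15970528) (l 1)) (l 1)))) (l 1))), by decide +kernel⟩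

theorem s5_pm_213 : ∃ t, chk3 f_pm_213 t 4 2 1 = true := ex3_b k0_pm_213 k1_pm_213

theorem s6_pm_213 : ∃ t, chk3 f_pm_213 t 2 2 1 = true := ex3_a s5_pm_213 k2_pm_213

theorem s7_pm_213 : ∃ t, chk3 f_pm_213 t 1 2 1 = true := ex3_a s6_pm_213 k3_pm_213

theorem s8_pm_213 : ∃ t, chk3 f_pm_213 t 1 1 1 = true := ex3_b s7_pm_213 k4_pm_213

theorem c_pm_213 : CertFX 1073741824 536870912 0 1230186008 1046898278 26843546 false true false .pnn 2 1 3
    ndF3q2 ndF6q3 pcF1 cut_pm_213 Ext.none :=
  certFX0 (fam := false) (s1 := true) (s2 := false) (a := 2) (b := 1) (c := 3) (cn := .pnn) (n1 := ndF3q2) (n2 := ndF6q3) (pc := pcF1) (cut := cut_pm_213) (xt := Ext.none) (P1 := 1073741824) (W1 := 536870912) (P2 := 0) (W2 := 1230186008) (P3 := 1046898278) (W3 := 26843546)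
    rfl s8_pm_213

noncomputable def f_pm_303 : ℕ → ℕ → ℕ → ℕ → Bool := onCell 0 536870912 0 1230186008 1046898278 26843546
    (rowFX 2 false true false .npn 3 0 3 (qsf 1610612736 536870912 0 1230186008 0) ndF3q3 ndF6q3 pcF0 Cut.none Ext.none)

def k0_pm_303 : ∃ t, chk3 f_pm_303 t 1 2 1 = true :=
  ⟨(a (l 3) (l 3)), by decide +kernel⟩

def k1_pm_303 : ∃ t, chk3 f_pm_303 t 2 6 1 = true :=
  ⟨(b (l 3) (b (l 3) (a (l 3) (a (a (l 3) (l 359870046231)) (a (c (l 345375376919) (l 335711700407)) (c (l 334101641127) (l 327658675959))))))), by decide +kernel⟩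

def k2_pm_303 : ∃ t, chk3 f_pm_303 t 2 7 1 = true :=
  ⟨(a (a (b (a (a (b (l 3) (c (a (b (c (l 14796880) (l 14711712)) (l 14886880)) (c (b (l 14637352) (l 14975728)) (b (b (l 14821464) (l 14841384)) (l 14937304)))) (b (a (c (a (l 14737016) (l 326580757175)) (c (l 325506962903) (l 324970084071))) (c (l 14819176) (l 14814384))) (a (c (l 14881376) (a (l 14849664) (l 14876496))) (l 14919792))))) (b (a (l 3) (c (l 375973281271) (l 351814121607))) (c (b (c (l 14946048) (l 14946152)) (b (l 15028568) (l 15052104))) (b (c (l 14949936) (l 14935912)) (l 15046656))))) (b (b (l 3) (c (a (a (l 367920369895) (l 366309964023)) (l 363625850679)) (l 342150812023))) (b (c (a (c (l 15114736) (l 15123216)) (l 15326088)) (c (l 15191456) (l 15170960))) (c (a (l 15217456) (l 15185456)) (a (l 15196400) (l 15367968)))))) (a (b (a (c (a (l 15058720) (c (l 15076480) (b (l 15081176) (l 15189872)))) (a (b (c (l 15012880) (a (l 14982888) (l 15007384))) (l 15120784)) (c (l 15038304) (l 15116176)))) (c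 (c (l 15020608) (l 15194288)) (l 15100024))) (a (a (l 15072744) (l 15137216)) (l 15420168))) (b (c (a (l 15280472) (l 15350344)) (b (l 15394904) (l 15490216))) (l 15630624)))) (b (a (c (b (a (l 366310550759) (l 363626613335)) (b (l 15564504) (l 15567872))) (b (a (l 343761900407) (l 341077974903)) (b (l 15574064) (l 15656648)))) (c (b (a (l 360405697031) (l 15930480)) (l 15949328)) (b (a (l 338393980807) (l 334099406439)) (b (l 15916056) (l 15985672))))) (a (a (c (l 15632544) (l 15595632)) (b (l 15827296) (l 1))) (b (l 15914504) (l 1))))) (a (b (a (b (c (l 16023272) (l 328194063095)) (l 16158888)) (b (b (l 16265384) (l 16362712)) (l 16404432))) (b (l 16341600) (l 1))) (b (b (c (a (l 16624424) (l 16772984)) (a (l 16620456) (l 16772872))) (l 1)) (l 1)))), by decide +kernel⟩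

def k3_pm_303 : ∃ t, chk3 f_pm_303 t 3 3 1 = true :=
  ⟨(b (a (b (l 3) (b (a (c (l 375977410343) (l 409263406887)) (c (l 360408153895) (l 348060122919))) (a (c (l 16777216) (l 16777216)) (l 1)))) (b (a (b (l 3) (l 1)) (l 1)) (l 1))) (l 1)), by decide +kernel⟩

theorem s4_pm_303 : ∃ t, chk3 f_pm_303 t 2 3 1 = true := ex3_b k1_pm_303 k2_pm_303

theorem s5_pm_303 : ∃ t, chk3 f_pm_303 t 1 3 1 = true := ex3_a s4_pm_303 k3_pm_303

theorem s6_pm_303 : ∃ t, chk3 f_pm_303 t 1 1 1 = true := ex3_b k0_pm_303 s5_pm_303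

theorem c_pm_303 : CertFX 1610612736 536870912 0 1230186008 1046898278 26843546 false true false .npn 3 0 3
    ndF3q3 ndF6q3 pcF0 Cut.none Ext.none :=
  certFX2 (fam := false) (s1 := true) (s2 := false) (a := 3) (b := 0) (c := 3) (cn := .npn) (n1 := ndF3q3) (n2 := ndF6q3) (pc := pcF0) (cut := Cut.none) (xt := Ext.none) (P1 := 1610612736) (W1 := 536870912) (P2 := 0) (W2 := 1230186008) (P3 := 1046898278) (W3 := 26843546)
    rfl (fun _ => rfl) s6_pm_303

noncomputable def f_pm_313 : ℕ → ℕ → ℕ → ℕ → Bool := onCell 1610612736 536870912 0 1230186008 1046898278 26843546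
    (rowFX 0 false true false .dn 3 1 3 (qsf 1610612736 536870912 0 1230186008 1) ndF3q3 ndF6q3 pcF1 Cut.none Ext.none)

def k0_pm_313 : ∃ t, chk3 f_pm_313 t 1 1 1 = true :=
  ⟨(b (l 3) (l 1)), by decide +kernel⟩

theorem c_pm_313 : CertFX 1610612736 536870912 0 1230186008 1046898278 26843546 false true false .dn 3 1 3
    ndF3q3 ndF6q3 pcF1 Cut.none Ext.none :=
  certFX0 (fam := false) (s1 := true) (s2 := false) (a := 3) (b := 1) (c := 3) (cn := .dn) (n1 := ndF3q3) (n2 := ndF6q3) (pc := pcF1) (cut := Cut.none) (xt := Ext.none) (P1 := 1610612736) (W1 := 536870912) (P2 := 0) (W2 := 1230186008) (P3 := 1046898278) (W3 := 26843546)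
    rfl k0_pm_313

noncomputable def f_mm_001 : ℕ → ℕ → ℕ → ℕ → Bool := onCell 0 536870912 0 536870912 1046898278 26843546
    (rowFX 1 false false false .up 0 0 1 (qsf 0 536870912 536870912 469762048 0) ndF3q0 ndF6q1 pcF0 Cut.none Ext.none)

def k0_mm_001 : ∃ t, chk3 f_mm_001 t 1 1 1 = true :=
  ⟨(l 3), by decide +kernel⟩

theorem c_mm_001 : CertFX 0 536870912 536870912 469762048 1046898278 26843546 false false false .up 0 0 1
    ndF3q0 ndF6q1 pcF0 Cut.none Ext.none :=
  certFX1 (fam := false) (s1 := false) (s2 := false) (a := 0) (b := 0) (c := 1) (cn := .up) (n1 := ndF3q0) (n2 := ndF6q1) (pc := pcF0) (cut := Cut.none) (xt := Ext.none) (P1 := 0) (W1 := 536870912) (P2 := 536870912) (W2 := 469762048) (P3 := 1046898278) (W3 := 26843546)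
    rfl (fun _ => rfl) k0_mm_001

noncomputable def f_mm_011 : ℕ → ℕ → ℕ → ℕ → Bool := onCell 0 536870912 536870912 536870912 1046898278 26843546
    (rowFX 1 false false false .pnn 0 1 1 (qsf 0 536870912 536870912 469762048 1) ndF3q0 ndF6q1 pcF1 Cut.none Ext.none)

def k0_mm_011 : ∃ t, chk3 f_mm_011 t 1 1 1 = true :=
  ⟨(l 5), by decide +kernel⟩

theorem c_mm_011 : CertFX 0 536870912 536870912 469762048 1046898278 26843546 false false false .pnn 0 1 1
    ndF3q0 ndF6q1 pcF1 Cut.none Ext.none :=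
  certFX1 (fam := false) (s1 := false) (s2 := false) (a := 0) (b := 1) (c := 1) (cn := .pnn) (n1 := ndF3q0) (n2 := ndF6q1) (pc := pcF1) (cut := Cut.none) (xt := Ext.none) (P1 := 0) (W1 := 536870912) (P2 := 536870912) (W2 := 469762048) (P3 := 1046898278) (W3 := 26843546)
    rfl (fun _ => rfl) k0_mm_011

noncomputable def f_mm_012 : ℕ → ℕ → ℕ → ℕ → Bool := onCell 0 536870912 1073741824 536870912 1046898278 26843546
    (rowFX 0 false false false .pnp 0 1 2 (qsf 0 536870912 1073741824 536870912 1) ndF3q0 ndF6q2 pcF1 Cut.none Ext.none)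

def k0_mm_012 : ∃ t, chk3 f_mm_012 t 1 1 1 = true :=
  ⟨(l 5), by decide +kernel⟩

theorem c_mm_012 : CertFX 0 536870912 1073741824 536870912 1046898278 26843546 false false false .pnp 0 1 2
    ndF3q0 ndF6q2 pcF1 Cut.none Ext.none :=
  certFX0 (fam := false) (s1 := false) (s2 := false) (a := 0) (b := 1) (c := 2) (cn := .pnp) (n1 := ndF3q0) (n2 := ndF6q2) (pc := pcF1) (cut := Cut.none) (xt := Ext.none) (P1 := 0) (W1 := 536870912) (P2 := 1073741824) (W2 := 536870912) (P3 := 1046898278) (W3 := 26843546)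
    rfl k0_mm_012

noncomputable def f_mm_022 : ℕ → ℕ → ℕ → ℕ → Bool := onCell 0 536870912 1073741824 536870912 1046898278 26843546
    (rowFX 0 false false false .pp 0 2 2 (qsf 0 536870912 1073741824 536870912 2) ndF3q0 ndF6q2 pcF2 Cut.none Ext.none)

def k0_mm_022 : ∃ t, chk3 f_mm_022 t 1 1 1 = true :=
  ⟨(l 5), by decide +kernel⟩

theorem c_mm_022 : CertFX 0 536870912 1073741824 536870912 1046898278 26843546 false false false .pp 0 2 2
    ndF3q0 ndF6q2 pcF2 Cut.none Ext.none :=
  certFX0 (fam := false) (s1 := false) (s2 := false) (a := 0) (b := 2) (c := 2) (cn := .pp) (n1 := ndF3q0) (n2 := ndF6q2) (pc := pcF2) (cut := Cut.none) (xt := Ext.none) (P1 := 0) (W1 := 536870912) (P2 := 1073741824) (W2 := 536870912) (P3 := 1046898278) (W3 := 26843546)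
    rfl k0_mm_022

noncomputable def f_mm_023 : ℕ → ℕ → ℕ → ℕ → Bool := onCell 0 536870912 0 1230186008 1046898278 26843546
    (rowFX 0 false false false .up 0 2 3 (qsf 0 536870912 0 1230186008 2) ndF3q0 ndF6q3 pcF2 Cut.none Ext.none)

def k0_mm_023 : ∃ t, chk3 f_mm_023 t 1 1 1 = true :=
  ⟨(l 5), by decide +kernel⟩

theorem c_mm_023 : CertFX 0 536870912 0 1230186008 1046898278 26843546 false false false .up 0 2 3
    ndF3q0 ndF6q3 pcF2 Cut.none Ext.none :=
  certFX0 (fam := false) (s1 := false) (s2 := false) (a := 0) (b := 2) (c := 3) (cn := .up) (n1 := ndF3q0) (n2 := ndF6q3) (pc := pcF2) (cut := Cut.none) (xt := Ext.none) (P1 := 0) (W1 := 536870912) (P2 := 0) (W2 := 1230186008) (P3 := 1046898278) (W3 := 26843546)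
    rfl k0_mm_023

noncomputable def f_mm_033 : ℕ → ℕ → ℕ → ℕ → Bool := onCell 0 536870912 0 1230186008 1046898278 26843546
    (rowFX 0 false false false .pnn 0 3 3 (qsf 0 536870912 0 1230186008 3) ndF3q0 ndF6q3 pcF3 Cut.none Ext.none)

def k0_mm_033 : ∃ t, chk3 f_mm_033 t 1 1 1 = true :=
  ⟨(l 5), by decide +kernel⟩

theorem c_mm_033 : CertFX 0 536870912 0 1230186008 1046898278 26843546 false false false .pnn 0 3 3
    ndF3q0 ndF6q3 pcF3 Cut.none Ext.none :=
  certFX0 (fam := false) (s1 := false) (s2 := false) (a := 0) (b := 3) (c := 3) (cn := .pnn) (n1 := ndF3q0) (n2 := ndF6q3) (pc := pcF3) (cut := Cut.none) (xt := Ext.none) (P1 := 0) (W1 := 536870912) (P2 := 0) (W2 := 1230186008) (P3 := 1046898278) (W3 := 26843546)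
    rfl k0_mm_033

noncomputable def f_mm_101 : ℕ → ℕ → ℕ → ℕ → Bool := onCell 536870912 536870912 536870912 469762048 1046898278 26843546
    (rowFX 0 false false false .npn 1 0 1 (qsf 536870912 536870912 536870912 469762048 0) ndF3q1 ndF6q1 pcF0 Cut.none Ext.none)

def k0_mm_101 : ∃ t, chk3 f_mm_101 t 1 1 1 = true :=
  ⟨(l 3), by decide +kernel⟩

theorem c_mm_101 : CertFX 536870912 536870912 536870912 469762048 1046898278 26843546 false false false .npn 1 0 1
    ndF3q1 ndF6q1 pcF0 Cut.none Ext.none :=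
  certFX0 (fam := false) (s1 := false) (s2 := false) (a := 1) (b := 0) (c := 1) (cn := .npn) (n1 := ndF3q1) (n2 := ndF6q1) (pc := pcF0) (cut := Cut.none) (xt := Ext.none) (P1 := 536870912) (W1 := 536870912) (P2 := 536870912) (W2 := 469762048) (P3 := 1046898278) (W3 := 26843546)
    rfl k0_mm_101

noncomputable def f_mm_102 : ℕ → ℕ → ℕ → ℕ → Bool := onCell 536870912 536870912 1073741824 536870912 1046898278 26843546
    (rowFX 0 false false false .npp 1 0 2 (qsf 536870912 536870912 1073741824 536870912 0) ndF3q1 ndF6q2 pcF0 Cut.none Ext.none)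

def k0_mm_102 : ∃ t, chk3 f_mm_102 t 1 1 1 = true :=
  ⟨(l 5), by decide +kernel⟩

theorem c_mm_102 : CertFX 536870912 536870912 1073741824 536870912 1046898278 26843546 false false false .npp 1 0 2
    ndF3q1 ndF6q2 pcF0 Cut.none Ext.none :=
  certFX0 (fam := false) (s1 := false) (s2 := false) (a := 1) (b := 0) (c := 2) (cn := .npp) (n1 := ndF3q1) (n2 := ndF6q2) (pc := pcF0) (cut := Cut.none) (xt := Ext.none) (P1 := 536870912) (W1 := 536870912) (P2 := 1073741824) (W2 := 536870912) (P3 := 1046898278) (W3 := 26843546)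
    rfl k0_mm_102

noncomputable def f_mm_112 : ℕ → ℕ → ℕ → ℕ → Bool := onCell 536870912 536870912 1073741824 536870912 1046898278 26843546
    (rowFX 0 false false false .dn 1 1 2 (qsf 536870912 536870912 1073741824 536870912 1) ndF3q1 ndF6q2 pcF1 Cut.none Ext.none)

def k0_mm_112 : ∃ t, chk3 f_mm_112 t 1 1 1 = true :=
  ⟨(l 5), by decide +kernel⟩

theorem c_mm_112 : CertFX 536870912 536870912 1073741824 536870912 1046898278 26843546 false false false .dn 1 1 2
    ndF3q1 ndF6q2 pcF1 Cut.none Ext.none :=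
  certFX0 (fam := false) (s1 := false) (s2 := false) (a := 1) (b := 1) (c := 2) (cn := .dn) (n1 := ndF3q1) (n2 := ndF6q2) (pc := pcF1) (cut := Cut.none) (xt := Ext.none) (P1 := 536870912) (W1 := 536870912) (P2 := 1073741824) (W2 := 536870912) (P3 := 1046898278) (W3 := 26843546)
    rfl k0_mm_112

noncomputable def f_mm_113 : ℕ → ℕ → ℕ → ℕ → Bool := onCell 536870912 536870912 0 1230186008 1046898278 26843546
    (rowFX 0 false false false .nn 1 1 3 (qsf 536870912 536870912 0 1230186008 1) ndF3q1 ndF6q3 pcF1 Cut.none Ext.none)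

def k0_mm_113 : ∃ t, chk3 f_mm_113 t 1 1 1 = true :=
  ⟨(l 5), by decide +kernel⟩

theorem c_mm_113 : CertFX 536870912 536870912 0 1230186008 1046898278 26843546 false false false .nn 1 1 3
    ndF3q1 ndF6q3 pcF1 Cut.none Ext.none :=
  certFX0 (fam := false) (s1 := false) (s2 := false) (a := 1) (b := 1) (c := 3) (cn := .nn) (n1 := ndF3q1) (n2 := ndF6q3) (pc := pcF1) (cut := Cut.none) (xt := Ext.none) (P1 := 536870912) (W1 := 536870912) (P2 := 0) (W2 := 1230186008) (P3 := 1046898278) (W3 := 26843546)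
    rfl k0_mm_113

noncomputable def f_mm_123 : ℕ → ℕ → ℕ → ℕ → Bool := onCell 536870912 536870912 0 1230186008 1046898278 26843546
    (rowFX 0 false false false .npn 1 2 3 (qsf 536870912 536870912 0 1230186008 2) ndF3q1 ndF6q3 pcF2 Cut.none Ext.none)

def k0_mm_123 : ∃ t, chk3 f_mm_123 t 1 1 1 = true :=
  ⟨(l 5), by decide +kernel⟩

theorem c_mm_123 : CertFX 536870912 536870912 0 1230186008 1046898278 26843546 false false false .npn 1 2 3
    ndF3q1 ndF6q3 pcF2 Cut.none Ext.none :=
  certFX0 (fam := false) (s1 := false) (s2 := false) (a := 1) (b := 2) (c := 3) (cn := .npn) (n1 := ndF3q1) (n2 := ndF6q3) (pc := pcF2) (cut := Cut.none) (xt := Ext.none) (P1 := 536870912) (W1 := 536870912) (P2 := 0) (W2 := 1230186008) (P3 := 1046898278) (W3 := 26843546)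
    rfl k0_mm_123

noncomputable def f_mm_133 : ℕ → ℕ → ℕ → ℕ → Bool := onCell 536870912 536870912 0 1230186008 1046898278 26843546
    (rowFX 0 false false false .dn 1 3 3 (qsf 536870912 536870912 0 1230186008 3) ndF3q1 ndF6q3 pcF3 Cut.none Ext.none)

def k0_mm_133 : ∃ t, chk3 f_mm_133 t 1 1 1 = true :=
  ⟨(l 5), by decide +kernel⟩

theorem c_mm_133 : CertFX 536870912 536870912 0 1230186008 1046898278 26843546 false false false .dn 1 3 3
    ndF3q1 ndF6q3 pcF3 Cut.none Ext.none :=
  certFX0 (fam := false) (s1 := false) (s2 := false) (a := 1) (b := 3) (c := 3) (cn := .dn) (n1 := ndF3q1) (n2 := ndF6q3) (pc := pcF3) (cut := Cut.none) (xt := Ext.none) (P1 := 536870912) (W1 := 536870912) (P2 := 0) (W2 := 1230186008) (P3 := 1046898278) (W3 := 26843546)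
    rfl k0_mm_133

noncomputable def f_mm_202 : ℕ → ℕ → ℕ → ℕ → Bool := onCell 1073741824 536870912 1073741824 536870912 1046898278 26843546
    (rowFX 0 false false false .pp 2 0 2 (qsf 1073741824 536870912 1073741824 536870912 0) ndF3q2 ndF6q2 pcF0 Cut.none Ext.none)

def k0_mm_202 : ∃ t, chk3 f_mm_202 t 1 1 1 = true :=
  ⟨(l 3), by decide +kernel⟩

theorem c_mm_202 : CertFX 1073741824 536870912 1073741824 536870912 1046898278 26843546 false false false .pp 2 0 2
    ndF3q2 ndF6q2 pcF0 Cut.none Ext.none :=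
  certFX0 (fam := false) (s1 := false) (s2 := false) (a := 2) (b := 0) (c := 2) (cn := .pp) (n1 := ndF3q2) (n2 := ndF6q2) (pc := pcF0) (cut := Cut.none) (xt := Ext.none) (P1 := 1073741824) (W1 := 536870912) (P2 := 1073741824) (W2 := 536870912) (P3 := 1046898278) (W3 := 26843546)
    rfl k0_mm_202

noncomputable def f_mm_203 : ℕ → ℕ → ℕ → ℕ → Bool := onCell 1073741824 536870912 0 1230186008 1046898278 26843546
    (rowFX 0 false false false .up 2 0 3 (qsf 1073741824 536870912 0 1230186008 0) ndF3q2 ndF6q3 pcF0 Cut.none Ext.none)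

def k0_mm_203 : ∃ t, chk3 f_mm_203 t 1 1 1 = true :=
  ⟨(b (l 5) (l 3)), by decide +kernel⟩

theorem c_mm_203 : CertFX 1073741824 536870912 0 1230186008 1046898278 26843546 false false false .up 2 0 3
    ndF3q2 ndF6q3 pcF0 Cut.none Ext.none :=
  certFX0 (fam := false) (s1 := false) (s2 := false) (a := 2) (b := 0) (c := 3) (cn := .up) (n1 := ndF3q2) (n2 := ndF6q3) (pc := pcF0) (cut := Cut.none) (xt := Ext.none) (P1 := 1073741824) (W1 := 536870912) (P2 := 0) (W2 := 1230186008) (P3 := 1046898278) (W3 := 26843546)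
    rfl k0_mm_203

noncomputable def f_mm_213 : ℕ → ℕ → ℕ → ℕ → Bool := onCell 1073741824 536870912 0 1230186008 1046898278 26843546
    (rowFX 0 false false false .pnn 2 1 3 (qsf 1073741824 536870912 0 1230186008 1) ndF3q2 ndF6q3 pcF1 Cut.none Ext.none)

def k0_mm_213 : ∃ t, chk3 f_mm_213 t 1 1 1 = true :=
  ⟨(b (l 5) (l 3)), by decide +kernel⟩

theorem c_mm_213 : CertFX 1073741824 536870912 0 1230186008 1046898278 26843546 false false false .pnn 2 1 3
    ndF3q2 ndF6q3 pcF1 Cut.none Ext.none :=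
  certFX0 (fam := false) (s1 := false) (s2 := false) (a := 2) (b := 1) (c := 3) (cn := .pnn) (n1 := ndF3q2) (n2 := ndF6q3) (pc := pcF1) (cut := Cut.none) (xt := Ext.none) (P1 := 1073741824) (W1 := 536870912) (P2 := 0) (W2 := 1230186008) (P3 := 1046898278) (W3 := 26843546)
    rfl k0_mm_213

noncomputable def f_mm_303 : ℕ → ℕ → ℕ → ℕ → Bool := onCell 0 536870912 0 1230186008 1046898278 26843546
    (rowFX 2 false false false .npn 3 0 3 (qsf 1610612736 536870912 0 1230186008 0) ndF3q3 ndF6q3 pcF0 Cut.none Ext.none)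

def k0_mm_303 : ∃ t, chk3 f_mm_303 t 1 1 1 = true :=
  ⟨(b (l 3) (l 3)), by decide +kernel⟩

theorem c_mm_303 : CertFX 1610612736 536870912 0 1230186008 1046898278 26843546 false false false .npn 3 0 3
    ndF3q3 ndF6q3 pcF0 Cut.none Ext.none :=
  certFX2 (fam := false) (s1 := false) (s2 := false) (a := 3) (b := 0) (c := 3) (cn := .npn) (n1 := ndF3q3) (n2 := ndF6q3) (pc := pcF0) (cut := Cut.none) (xt := Ext.none) (P1 := 1610612736) (W1 := 536870912) (P2 := 0) (W2 := 1230186008) (P3 := 1046898278) (W3 := 26843546)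
    rfl (fun _ => rfl) k0_mm_303

noncomputable def f_mm_313 : ℕ → ℕ → ℕ → ℕ → Bool := onCell 1610612736 536870912 0 1230186008 1046898278 26843546
    (rowFX 0 false false false .dn 3 1 3 (qsf 1610612736 536870912 0 1230186008 1) ndF3q3 ndF6q3 pcF1 Cut.none Ext.none)

def k0_mm_313 : ∃ t, chk3 f_mm_313 t 1 1 1 = true :=
  ⟨(b (l 3) (l 1)), by decide +kernel⟩

theorem c_mm_313 : CertFX 1610612736 536870912 0 1230186008 1046898278 26843546 false false false .dn 3 1 3
    ndF3q3 ndF6q3 pcF1 Cut.none Ext.none :=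
  certFX0 (fam := false) (s1 := false) (s2 := false) (a := 3) (b := 1) (c := 3) (cn := .dn) (n1 := ndF3q3) (n2 := ndF6q3) (pc := pcF1) (cut := Cut.none) (xt := Ext.none) (P1 := 1610612736) (W1 := 536870912) (P2 := 0) (W2 := 1230186008) (P3 := 1046898278) (W3 := 26843546)
    rfl k0_mm_313

end Pool.Agent.Strip051.G.IE1.Tab.C.FB36

namespace Pool.Agent.Strip051.G.IE1.Tab.C.FB37

open Pool.Agent.Strip051.PB Pool.Agent.Strip051.PB.T
open Pool.Agent.Strip051.G.IE1.Tab

noncomputable def f_pp_001 : ℕ → ℕ → ℕ → ℕ → Bool := onCell 0 536870912 0 536870912 1046898278 26843546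
    (rowFX 1 false true true .up 0 0 1 (qsf 0 536870912 536870912 536870912 0) ndF3q0 ndF7q1 pcF0 Cut.none Ext.none)

def k0_pp_001 : ∃ t, chk3 f_pp_001 t 1 1 1 = true :=
  ⟨(l 3), by decide +kernel⟩

theorem c_pp_001 : CertFX 0 536870912 536870912 536870912 1046898278 26843546 false true true .up 0 0 1
    ndF3q0 ndF7q1 pcF0 Cut.none Ext.none :=
  certFX1 (fam := false) (s1 := true) (s2 := true) (a := 0) (b := 0) (c := 1) (cn := .up) (n1 := ndF3q0) (n2 := ndF7q1) (pc := pcF0) (cut := Cut.none) (xt := Ext.none) (P1 := 0) (W1 := 536870912) (P2 := 536870912) (W2 := 536870912) (P3 := 1046898278) (W3 := 26843546)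
    rfl (fun _ => rfl) k0_pp_001

noncomputable def cut_pp_011 : Cut := Cut.of [[⟨0, 0, 0, 67108864⟩, ⟨1, 1, 0, 67108864⟩, ⟨2, 1, 0, 67108864⟩]]

noncomputable def f_pp_011 : ℕ → ℕ → ℕ → ℕ → Bool := onCell 0 536870912 536870912 536870912 1046898278 26843546
    (rowFX 1 false true true .pnn 0 1 1 (qsf 0 536870912 536870912 536870912 1) ndF3q0 ndF7q1 pcF1 cut_pp_011 Ext.none)

def k0_pp_011 : ∃ t, chk3 f_pp_011 t 1 1 1 = true :=
  ⟨(a (b (l 3) (b (l 3) (a (b (l 3) (a (b (l 3) (a (l 6) (l 3))) (l 3))) (l 3)))) (l 3)), by decide +kernel⟩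

theorem c_pp_011 : CertFX 0 536870912 536870912 536870912 1046898278 26843546 false true true .pnn 0 1 1
    ndF3q0 ndF7q1 pcF1 cut_pp_011 Ext.none :=
  certFX1 (fam := false) (s1 := true) (s2 := true) (a := 0) (b := 1) (c := 1) (cn := .pnn) (n1 := ndF3q0) (n2 := ndF7q1) (pc := pcF1) (cut := cut_pp_011) (xt := Ext.none) (P1 := 0) (W1 := 536870912) (P2 := 536870912) (W2 := 536870912) (P3 := 1046898278) (W3 := 26843546)
    rfl (fun _ => rfl) k0_pp_011

noncomputable def cut_pp_012 : Cut := Cut.of [[⟨0, 0, 0, 67108864⟩, ⟨1, 1, 0, 67108864⟩, ⟨2, 1, 0, 67108864⟩]]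

noncomputable def f_pp_012 : ℕ → ℕ → ℕ → ℕ → Bool := onCell 0 536870912 536870912 536870912 1046898278 26843546
    (rowFX 1 false true true .pnp 0 1 2 (qsf 0 536870912 1073741824 536870912 1) ndF3q0 ndF7q2 pcF1 cut_pp_012 Ext.none)

def k0_pp_012 : ∃ t, chk3 f_pp_012 t 1 1 1 = true :=
  ⟨(b (l 3) (a (b (l 3) (a (b (l 3) (a (b (l 3) (a (l 6) (l 3))) (l 3))) (l 3))) (l 3))), by decide +kernel⟩

theorem c_pp_012 : CertFX 0 536870912 1073741824 536870912 1046898278 26843546 false true true .pnp 0 1 2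
    ndF3q0 ndF7q2 pcF1 cut_pp_012 Ext.none :=
  certFX1 (fam := false) (s1 := true) (s2 := true) (a := 0) (b := 1) (c := 2) (cn := .pnp) (n1 := ndF3q0) (n2 := ndF7q2) (pc := pcF1) (cut := cut_pp_012) (xt := Ext.none) (P1 := 0) (W1 := 536870912) (P2 := 1073741824) (W2 := 536870912) (P3 := 1046898278) (W3 := 26843546)
    rfl (fun _ => rfl) k0_pp_012

noncomputable def cut_pp_022 : Cut := Cut.of [[⟨0, 0, 0, 67108864⟩, ⟨1, 1, 0, 67108864⟩, ⟨2, 1, 0, 67108864⟩]]

noncomputable def f_pp_022 : ℕ → ℕ → ℕ → ℕ → Bool := onCell 0 536870912 1073741824 536870912 1046898278 26843546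
    (rowFX 1 false true true .pp 0 2 2 (qsf 0 536870912 1073741824 536870912 2) ndF3q0 ndF7q2 pcF2 cut_pp_022 Ext.none)

def k0_pp_022 : ∃ t, chk3 f_pp_022 t 32 8 1 = true :=
  ⟨(b (l 6) (b (a (l 6) (a (l 6) (b (l 6) (b (l 6) (c (c (l 16635160) (l 16673200)) (l 16666624)))))) (a (b (b (l 6) (a (l 6) (c (c (l 16608648) (c (l 16633952) (l 16609976))) (c (l 16602056) (l 16622472))))) (c (c (a (l 16571096) (c (l 16601960) (l 16612544))) (a (l 16536488) (c (b (l 16612792) (l 16587984)) (l 16589928)))) (a (c (l 16581384) (l 16569112)) (c (b (l 16589568) (l 16577024)) (a (l 16574968) (l 16636048)))))) (c (b (c (c (l 16588152) (a (l 16671208) (l 16655000))) (c (a (l 16637464) (l 16669520)) (l 16609912))) (c (c (l 16585520) (l 16567680)) (a (l 16579856) (l 16665384)))) (b (c (l 16609360) (l 16636848)) (c (l 16621648) (l 16649504))))))), by decide +kernel⟩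

def k1_pp_022 : ∃ t, chk3 f_pp_022 t 33 8 1 = true :=
  ⟨(b (a (l 6) (l 3)) (a (a (b (b (l 6) (b (a (l 6) (c (c (l 16606416) (l 16622256)) (l 16635424))) (c (c (l 16591432) (c (l 16643624) (l 16649912))) (c (l 16634752) (l 16625912))))) (c (b (b (c (l 16608240) (l 16643632)) (c (l 16617680) (l 16639216))) (c (l 16606304) (l 16634416))) (b (b (c (l 16625624) (l 16616832)) (l 16613976)) (l 16588272)))) (b (b (a (l 6) (a (l 6) (l 3))) (c (c (b (l 16595368) (l 16590680)) (b (l 16601840) (l 16620976))) (b (l 16615120) (l 16602296)))) (c (b (c (b (l 16550136) (l 16507728)) (b (l 16615320) (l 16604152))) (c (b (l 16598424) (l 16602960)) (b (l 16601488) (l 16599352)))) (b (b (c (l 16596288) (l 16590776)) (c (l 16584824) (l 16579304))) (b (c (l 16582400) (l 16576984)) (l 16577688)))))) (b (b (l 3) (c (c (c (l 16538944) (b (l 16611608) (l 16576664))) (b (l 16564472) (l 16585176))) (c (l 174650325895) (l 16537088)))) (c (b (c (b (a (l 16568400) (l 16551320)) (a (l 16567880) (l 16541224)))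 (b (l 16581936) (l 16558336))) (b (a (c (l 16551448) (l 16570072)) (l 16522432)) (c (l 16504448) (l 16551512)))) (b (c (b (l 16566144) (l 16521488)) (b (l 16562856) (l 16538960))) (b (b (l 16537280) (l 16515744)) (c (l 16535992) (l 16532640)))))))), by decide +kernel⟩

def k2_pp_022 : ∃ t, chk3 f_pp_022 t 16 18 1 = true :=
  ⟨(b (a (c (c (a (b (a (l 16556816) (b (l 16592472) (l 16562136))) (b (a (l 16524864) (l 16552624)) (l 16476576))) (b (c (l 16581232) (l 16484336)) (a (c (l 16549984) (l 16529448)) (l 16576472)))) (a (a (l 16438432) (b (b (l 16567920) (l 16547256)) (l 16514200))) (b (l 16569920) (l 16518432)))) (b (a (a (c (l 16543944) (l 16531368)) (c (b (l 16561016) (l 16561568)) (b (l 16602176) (l 16560608)))) (c (l 16598656) (l 16647160))) (a (a (l 16456264) (c (l 16486264) (l 16505976))) (c (l 16536328) (l 16593728))))) (b (c (a (c (l 16573144) (l 16608696)) (a (l 16524728) (c (l 16542840) (l 16519712)))) (a (c (l 16589376) (l 16581880)) (a (l 16535496) (c (l 16505560)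 (l 16502992))))) (c (a (l 16513192) (l 16539528)) (a (l 16582944) (l 16508216))))) (a (c (a (c (b (l 16411552) (l 16404264)) (l 16406080)) (b (a (c (l 16465888) (l 16501416)) (l 16511728)) (a (a (l 16434672) (l 16456528)) (l 16475040)))) (a (c (l 16329448) (b (l 16432072) (l 16419920))) (b (c (l 16449264) (l 16516736)) (a (c (l 16484784) (l 16501824)) (c (l 16537064) (l 16549624)))))) (c (b (a (l 16561648) (l 16552992)) (a (l 16525624) (l 16588784))) (b (a (l 16591304) (l 16523040)) (a (l 16565568) (l 16560848)))))), by decide +kernel⟩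

def k3_pp_022 : ∃ t, chk3 f_pp_022 t 16 19 1 = true :=
  ⟨(b (b (a (c (a (l 16345712) (a (b (l 16406472) (l 16371784)) (b (l 16446408) (l 16409768)))) (a (c (l 16350728) (l 16341576)) (c (a (l 16401888) (l 16446432)) (a (l 16439232) (l 16458200))))) (c (b (l 16469032) (l 16388448)) (c (l 16481488) (l 16529208)))) (a (a (c (l 16291824) (l 16198392)) (c (a (l 16331536) (l 16377912)) (a (l 16369808) (l 16396272)))) (c (a (l 16430728) (l 16499816)) (a (l 16467520) (l 16530448))))) (a (a (c (b (l 16225360) (l 16147504)) (b (l 16193296) (l 16155464))) (c (b (l 16299688) (l 16230680)) (b (l 16334064) (l 16263400)))) (c (a (b (l 16363944) (l 16256360)) (l 16290600)) (a (b (l 16399808) (l 16270352)) (b (l 16470920) (l 16422584)))))), by decide +kernel⟩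

def k4_pp_022 : ∃ t, chk3 f_pp_022 t 17 4 1 = true :=
  ⟨(a (b (b (l 3) (b (l 3) (b (b (l 3) (a (a (c (l 16524456) (l 16503192)) (l 3)) (l 3))) (c (c (b (l 16446792) (l 16453568)) (b (l 16513424) (l 16476240))) (c (b (l 16504872) (l 16488584)) (b (l 16503192) (l 16486784))))))) (b (a (b (c (b (b (l 16491240) (l 16484352)) (b (l 16457024) (c (l 16485400) (l 16464024)))) (b (b (l 16467448) (l 16460744)) (b (l 16412656) (c (l 16454424) (l 16452144))))) (c (b (c (l 16497488) (l 16476728)) (l 16526016)) (b (c (l 16467560) (l 16465608)) (l 16505712)))) (b (c (b (b (l 16453856) (l 16450144)) (b (l 16451024) (l 16452536))) (b (b (l 16437920) (l 16434392)) (b (l 16435592) (l 16437440)))) (c (b (c (l 16466912) (l 16450304)) (c (l 16455480) (l 16397560))) (b (c (l 16445960) (l 16443024)) (c (b (l 16449320) (l 16462736)) (b (l 16446584) (l 16460288))))))) (b (c (b (l 16480320) (l 16555440)) (b (l 16463184) (l 16593536))) (c (b (l 16515856) (l 16450336)) (b (l 16532440) (l 16465312))))))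 (b (l 3) (b (b (b (l 3) (c (c (l 16474536) (l 16466264)) (c (l 16463376) (l 16460272)))) (b (c (c (l 16458736) (l 16450552)) (c (l 16447656) (l 16444544))) (c (a (c (l 16452560) (l 16442680)) (l 16436832)) (a (c (l 16440232) (l 16437288)) (l 16429728))))) (b (b (c (b (a (c (l 16459424) (l 16449920)) (l 16442712)) (c (l 16452240) (l 16465952))) (b (a (c (l 16447712) (l 16445024)) (l 16436096)) (c (l 16463728) (l 16440320)))) (a (b (c (l 16516744) (l 16510128)) (l 16559792)) (c (b (l 16491448) (l 16508336)) (b (l 16486640) (l 16525800))))) (b (a (a (l 16537384) (l 16560000)) (b (c (l 16570344) (l 16568248)) (l 16606512))) (c (l 16530792) (l 16532424))))))), by decide +kernel⟩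

def k5_pp_022 : ∃ t, chk3 f_pp_022 t 9 4 1 = true :=
  ⟨(b (l 3) (a (a (a (b (b (l 3) (b (l 3) (c (l 16438816) (l 16432744)))) (b (b (c (b (l 16440392) (l 16465360)) (b (l 16434664) (l 16460520))) (c (l 16506040) (l 16502640))) (b (c (b (l 16549072) (l 16579024)) (b (l 16547200) (l 16578232))) (b (c (l 16612696) (l 16613120)) (l 16577608))))) (b (l 3) (b (b (c (l 16456448) (l 16450448)) (c (l 16507248) (l 16503048))) (c (b (l 16558688) (b (l 16599296) (l 16611888))) (b (l 16556360) (b (l 16598480) (l 16611632))))))) (b (l 3) (b (b (l 3) (c (l 16505040) (b (l 16486592) (l 16513752)))) (c (b (b (l 16544000) (l 16569632)) (b (l 16594944) (l 16620864))) (b (b (l 16540616) (l 16567176)) (b (l 16593440) (l 16620344))))))) (b (l 3) (b (l 3) (b (b (l 3) (c (l 16592256) (l 16589576))) (c (c (l 16630656) (l 16630016)) (c (l 16629376) (l 16628744)))))))), by decide +kernel⟩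

def k6_pp_022 : ∃ t, chk3 f_pp_022 t 5 4 1 = true :=
  ⟨(a (l 3) (l 3)), by decide +kernel⟩

def k7_pp_022 : ∃ t, chk3 f_pp_022 t 3 4 1 = true :=
  ⟨(a (l 3) (b (l 3) (a (b (l 3) (b (l 3) (a (c (l 1541524160407) (b (l 3) (l 16777200))) (l 2)))) (b (b (l 3) (l 2)) (l 2))))), by decide +kernel⟩

def k8_pp_022 : ∃ t, chk3 f_pp_022 t 16 10 1 = true :=
  ⟨(a (a (b (b (c (b (l 16059856) (l 15960392)) (b (l 16065568) (l 15963448))) (b (c (l 15843552) (l 15822400)) (b (c (l 15742440) (l 15739376)) (b (c (l 15689552) (l 15684960)) (c (c (l 15660648) (l 15649424)) (c (l 15646728) (l 15649464))))))) (c (a (l 15630552) (l 15598344)) (b (l 15633304) (l 15622920)))) (c (b (b (b (l 16148640) (l 16051664)) (b (l 15933680) (b (l 15826608) (b (l 15762280) (c (l 15691224) (l 15724080)))))) (b (l 15698560) (l 15672752))) (b (b (b (l 16179280) (l 16079720)) (b (l 15958448) (b (l 15848288) (b (l 15782064) (a (l 15715592) (l 15764880)))))) (c (l 15708720) (l 15713320))))) (b (b (b (c (a (l 16253080)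 (l 16345424)) (a (l 16286440) (l 16372688))) (b (a (l 16106976) (c (l 16311456) (l 16337992))) (c (l 16049080) (l 16138608)))) (b (c (l 16018736) (l 16084640)) (b (c (l 15971704) (l 16034392)) (b (c (l 15936872) (l 15955296)) (c (a (l 15830320) (l 15941208)) (l 15798392)))))) (c (b (l 15847872) (l 15795296)) (b (l 15863888) (l 15810256))))), by decide +kernel⟩

def k9_pp_022 : ∃ t, chk3 f_pp_022 t 17 10 1 = true :=
  ⟨(b (b (b (c (a (l 16400880) (l 16471288)) (a (l 16414752) (l 16471424))) (c (a (l 16359168) (l 16426200)) (a (l 16372152) (l 16425304)))) (b (a (c (a (b (l 16320928) (l 16285616)) (l 16350608)) (a (b (l 16335776) (l 16299536)) (l 16355432))) (c (l 16392696) (l 16391144))) (b (a (b (c (l 16114744) (l 16188872)) (c (l 16114816) (l 16187656))) (c (l 16365120) (l 16362984))) (b (a (c (l 16168440) (l 16176072)) (c (b (l 16342296) (a (l 16306584) (l 16354456))) (b (l 16339520) (l 16299240)))) (a (c (l 16104344) (l 16109944)) (a (a (l 16212440) (b (b (l 16287112)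 (l 16260792)) (l 16256248))) (b (b (b (l 16345056) (b (c (l 16341104) (l 16335256)) (c (l 16334472) (l 16328408)))) (l 16328328)) (l 16322424)))))))) (a (c (b (l 16043160) (l 15957528)) (b (l 16047168) (l 15959400))) (c (b (a (l 16181344) (l 16250368)) (l 16087616)) (b (l 16103888) (l 16077448))))), by decide +kernel⟩

def k10_pp_022 : ∃ t, chk3 f_pp_022 t 9 10 1 = true :=
  ⟨(a (b (b (a (b (c (l 16540008) (l 16537024)) (c (l 16482456) (l 16477952))) (b (c (b (l 16617744) (l 16562776)) (b (l 16617256) (l 16540336))) (b (c (l 16550808) (l 16506448)) (l 16519440)))) (b (c (l 16462120) (l 16456624)) (b (c (l 16434520) (l 16428392)) (b (c (l 16414576) (l 16407912)) (a (b (b (b (l 16383424) (c (l 16382848) (l 16375944))) (l 16379048)) (l 16372104)) (c (l 16423104) (l 16417312))))))) (c (l 16210768) (l 16220272))) (b (b (a (c (b (l 16644928) (b (l 16596832) (l 16565656))) (b (l 16623680) (b (l 16595112) (l 16563008)))) (c (b (a (l 16643280) (l 16639992)) (l 16580128)) (b (a (l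 16642512) (l 16638840)) (l 16577296)))) (b (a (a (l 16520680) (b (c (l 16539760) (l 16536184)) (l 16512688))) (c (b (l 16535256) (b (l 16513680) (l 16500728))) (b (l 16531064) (b (l 16508840) (l 16495520))))) (b (b (l 16490968) (l 16480368)) (b (c (l 16472680) (l 16467112)) (c (l 16461216) (l 16455328)))))) (c (l 16329568) (l 16256736)))), by decide +kernel⟩

def k11_pp_022 : ∃ t, chk3 f_pp_022 t 5 20 1 = true :=
  ⟨(b (a (a (b (a (b (l 3) (l 16621176)) (l 3)) (c (c (l 16579016) (l 16577120)) (c (l 16575224) (l 16573320)))) (l 3)) (l 3)) (b (a (c (b (a (a (l 16534560) (l 16537512)) (l 16540336)) (a (b (l 16514376) (l 16500600)) (a (l 16510672) (l 16528672)))) (b (a (a (l 16529736) (l 16532208)) (l 16534432)) (a (b (l 16508648) (l 16494456)) (a (l 16504088) (l 16522256))))) (l 3)) (b (b (a (c (a (c (l 16489208) (l 16485952)) (l 16505544)) (a (c (l 16482688) (l 16479424)) (l 16498624))) (l 3)) (a (c (a (c (l 16476704) (l 16473264)) (l 16497632)) (a (c (l 16469816) (l 16466368))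 (l 16448544))) (a (c (l 16667952) (l 16665112)) (l 3)))) (a (b (a (a (l 16461760) (b (c (l 16466872) (l 16459456)) (b (c (l 16462648) (l 16455112)) (c (l 16460912) (l 16453336))))) (b (c (l 16491440) (l 16484112)) (b (c (l 16488504) (l 16481088)) (c (l 16487248) (l 16479808))))) (a (c (l 16455136) (l 16447704)) (b (b (b (c (l 16486176) (l 16478696)) (a (b (c (l 16458072) (l 16449960)) (a (l 16455000) (a (l 16453872) (c (l 16457952) (c (l 16451752) (l 16447624)))))) (b (c (l 16512864) (l 16506000)) (c (l 16512952) (c (l 16507808) (l 16504376)))))) (a (l 16452888) (l 16509480))) (a (l 16448408) (l 16509464))))) (a (b (b (c (l 16667952) (l 16665112)) (c (l 16646976) (l 16644136))) (b (b (b (c (l 16667952) (l 16665112)) (b (c (l 16667952) (l 16665112)) (c (l 16667952) (l 16623168)))) (l 16666528)) (l 16666528))) (b (b (l 3) (c (l 16777056) (l 16777056))) (b (b (b (c (l 16777056) (l 16777056)) (b (c (l 16777056) (l 16777056)) (c (l 16777056) (l 16777056)))) (l 16777056)) (l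 16777056)))))))), by decide +kernel⟩

def k12_pp_022 : ∃ t, chk3 f_pp_022 t 5 21 1 = true :=
  ⟨(a (a (c (l 16228272) (a (l 16324680) (l 16352960))) (a (c (l 16421464) (l 16412280)) (l 16488472))) (a (c (l 16667952) (l 16665112)) (c (l 16777056) (l 16777056)))), by decide +kernel⟩

def k13_pp_022 : ∃ t, chk3 f_pp_022 t 2 11 1 = true :=
  ⟨(a (a (a (b (c (a (b (a (l 15603240) (l 15628824)) (l 15566576)) (b (l 15725360) (l 15639000))) (a (c (b (l 15621960) (l 15568168)) (l 15516560)) (l 15654232))) (c (a (b (l 15473832) (l 15349112)) (l 15468888)) (a (c (l 15408856) (l 15409544)) (l 15474712)))) (b (c (a (b (l 15857032) (l 15739696)) (l 15888544)) (a (b (l 15856152) (l 15735368)) (l 15872416))) (c (a (l 15516456) (l 15646320)) (a (l 15443584) (l 15622584))))) (a (c (b (a (l 15961264) (l 16029448)) (a (l 15729640) (l 15830528))) (b (a (l 15941664) (l 16011624)) (a (l 15702672) (l 15806352)))) (c (b (a (l 16091880) (l 16129584)) (l 15994296)) (b (a (l 16074952) (l 16113112))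 (l 15995536))))) (a (a (b (c (a (l 16198480) (l 16300264)) (a (l 16183528) (l 16287880))) (c (l 16242072) (l 16228176))) (b (c (l 16460520) (l 16452296)) (c (l 16460480) (l 16452256)))) (a (b (c (l 16667952) (l 16665112)) (l 16624584)) (b (l 16777056) (l 16777056))))), by decide +kernel⟩

def k14_pp_022 : ∃ t, chk3 f_pp_022 t 3 5 1 = true :=
  ⟨(a (a (b (b (b (l 3) (a (b (l 3) (b (a (l 3) (b (l 3) (l 3308903202823))) (b (b (c (l 16777216) (l 16777216)) (c (l 16777216) (l 16777216))) (b (b (b (c (l 16777216) (l 16777216)) (b (c (l 16777216) (l 16777216)) (c (l 16777216) (l 16777216)))) (l 16777216)) (l 16777216))))) (b (a (l 3) (b (l 3) (c (l 16777216) (l 16777216)))) (b (c (b (l 16777216) (l 16777216)) (b (l 16777216) (l 16777216))) (b (b (c (l 16777216) (l 16777216)) (c (l 16776376) (l 16776352))) (b (b (b (c (l 16775960) (l 16775928)) (b (c (l 16775384) (l 16775336)) (c (a (l 16776880) (l 16772992)) (c (l 16774656) (l 16774624))))) (l 16774504)) (l 16774408))))))) (a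 (c (l 16776648) (l 16776632)) (c (l 16772072) (l 16771944)))) (c (a (l 16777168) (l 16774448)) (a (l 16777168) (l 16774376)))) (a (b (b (b (b (l 3) (c (l 2266299891671) (l 2078395072471))) (b (c (c (l 1518438711255) (l 1505016938455)) (c (l 1483542101975) (l 1454551072679))) (b (c (b (l 16776560) (l 16774560)) (b (l 16776544) (l 16774488))) (b (b (c (l 16772768) (l 16772648)) (a (c (l 16773128) (l 16773024)) (l 16763608))) (l 16761824))))) (l 16759632)) (b (l 16768544) (l 2))) (b (b (b (c (b (l 1847003709383) (l 1195242422231)) (b (l 1651582697415) (l 1151219007447))) (b (b (c (l 16776576) (l 16776560)) (a (c (l 16775904) (l 16775872)) (l 2))) (b (b (c (l 16767384) (l 16767128)) (l 16758888)) (b (l 16750424) (l 16744072))))) (l 16747056)) (l 2)))) (b (b (b (b (a (a (c (l 16777208) (l 16777208)) (l 2)) (l 2)) (l 2)) (l 2)) (l 2)) (l 2))), by decide +kernel⟩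

def k15_pp_022 : ∃ t, chk3 f_pp_022 t 1 3 1 = true :=
  ⟨(a (a (b (a (b (a (c (b (a (l 15170528) (l 15238024)) (a (c (l 14951480) (l 14942096)) (b (l 15078000) (l 15007864)))) (b (a (l 15037120) (l 15236336)) (a (l 14892544) (l 15039128)))) (c (b (a (l 15337048) (l 15455280)) (a (l 15208272) (l 15396448))) (b (a (l 15319784) (l 15425200)) (l 15278392)))) (a (a (c (b (b (l 14827784) (l 14808792)) (l 14808792)) (b (l 14717440) (l 14788272))) (c (l 14967864) (l 14978296))) (c (c (l 15299520) (l 15290656)) (l 15268632)))) (b (a (c (b (a (l 15600504) (l 15771520)) (l 15680272)) (b (l 15660512) (l 15650744))) (c (b (l 16005792) (l 16005792)) (b (l 15985752) (l 15985752)))) (b (a (c (l 15680272) (l 15650744)) (l 15995776)) (a (c (l 15680272) (l 15650744)) (a (l 15933608) (l 16057776)))))) (a (b (a (c (b (l 14900208) (l 14900208)) (l 14884312)) (c (b (l 15294328) (l 15294328)) (l 15268632))) (a (c (l 14900208) (l 14884312)) (c (l 15273360) (l 15268632)))) (b (a (c (b (l 15680272)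 (l 15680272)) (l 15650744)) (c (l 16005792) (l 15985752))) (a (c (l 15680272) (l 15650744)) (l 2))))) (b (a (a (b (b (c (l 16242072) (l 16228176)) (l 16235120)) (c (l 16242072) (l 16228176))) (b (b (l 16456368) (l 16456368)) (c (l 16460480) (l 16452256)))) (b (c (a (l 16667952) (l 16777056)) (a (l 16665112) (l 16777056))) (a (l 16666528) (l 2)))) (a (b (a (c (l 16242072) (l 16228176)) (l 2)) (l 2)) (l 2)))) (b (b (b (a (a (l 16777216) (l 2)) (l 2)) (l 2)) (l 2)) (l 2))), by decide +kernel⟩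

theorem s16_pp_022 : ∃ t, chk3 f_pp_022 t 5 10 1 = true := ex3_b k11_pp_022 k12_pp_022

theorem s17_pp_022 : ∃ t, chk3 f_pp_022 t 8 10 1 = true := ex3_a k8_pp_022 k9_pp_022

theorem s18_pp_022 : ∃ t, chk3 f_pp_022 t 4 10 1 = true := ex3_a s17_pp_022 k10_pp_022

theorem s19_pp_022 : ∃ t, chk3 f_pp_022 t 2 10 1 = true := ex3_a s18_pp_022 s16_pp_022

theorem s20_pp_022 : ∃ t, chk3 f_pp_022 t 2 5 1 = true := ex3_b s19_pp_022 k13_pp_022

theorem s21_pp_022 : ∃ t, chk3 f_pp_022 t 1 5 1 = true := ex3_a s20_pp_022 k14_pp_022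

theorem s22_pp_022 : ∃ t, chk3 f_pp_022 t 16 9 1 = true := ex3_b k2_pp_022 k3_pp_022

theorem s23_pp_022 : ∃ t, chk3 f_pp_022 t 16 8 1 = true := ex3_a k0_pp_022 k1_pp_022

theorem s24_pp_022 : ∃ t, chk3 f_pp_022 t 16 4 1 = true := ex3_b s23_pp_022 s22_pp_022

theorem s25_pp_022 : ∃ t, chk3 f_pp_022 t 8 4 1 = true := ex3_a s24_pp_022 k4_pp_022

theorem s26_pp_022 : ∃ t, chk3 f_pp_022 t 4 4 1 = true := ex3_a s25_pp_022 k5_pp_022

theorem s27_pp_022 : ∃ t, chk3 f_pp_022 t 2 4 1 = true := ex3_a s26_pp_022 k6_pp_022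

theorem s28_pp_022 : ∃ t, chk3 f_pp_022 t 1 4 1 = true := ex3_a s27_pp_022 k7_pp_022

theorem s29_pp_022 : ∃ t, chk3 f_pp_022 t 1 2 1 = true := ex3_b s28_pp_022 s21_pp_022

theorem s30_pp_022 : ∃ t, chk3 f_pp_022 t 1 1 1 = true := ex3_b s29_pp_022 k15_pp_022

theorem c_pp_022 : CertFX 0 536870912 1073741824 536870912 1046898278 26843546 false true true .pp 0 2 2
    ndF3q0 ndF7q2 pcF2 cut_pp_022 Ext.none :=
  certFX1 (fam := false) (s1 := true) (s2 := true) (a := 0) (b := 2) (c := 2) (cn := .pp) (n1 := ndF3q0) (n2 := ndF7q2) (pc := pcF2) (cut := cut_pp_022) (xt := Ext.none) (P1 := 0) (W1 := 536870912) (P2 := 1073741824) (W2 := 536870912) (P3 := 1046898278) (W3 := 26843546)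
    rfl (fun _ => rfl) s30_pp_022

noncomputable def f_pp_023 : ℕ → ℕ → ℕ → ℕ → Bool := onCell 1073741824 536870912 0 1230186008 1046898278 26843546
    (rowFX 2 false true true .up 0 2 3 (qsf 0 536870912 0 1230186008 2) ndF3q0 ndF7q3 pcF2 Cut.none Ext.none)

def k0_pp_023 : ∃ t, chk3 f_pp_023 t 2 1 1 = true :=
  ⟨(b (l 2) (a (b (l 2) (b (l 2) (a (b (l 2) (l 3)) (b (b (a (l 2) (a (c (l 16572744) (l 16567432)) (l 16597864))) (a (a (c (l 16490368) (l 16482912)) (a (l 964924335543) (c (l 16614552) (l 16610328)))) (c (a (a (l 16733640) (l 16738024)) (l 16722152)) (a (a (l 16732512) (l 16737008)) (l 16720728))))) (a (l 3) (a (b (c (l 1173767607447) (l 1092699941495)) (l 3)) (c (b (a (l 16772560) (l 16769168)) (l 1443813654423)) (b (a (l 16772440) (l 16768960)) (c (l 16777200) (l 16777200)))))))))) (b (a (l 2) (a (l 2) (c (l 16776744) (l 16776744)))) (a (a (b (b (l 2) (b (l 2) (a (l 16375112) (a (l 16329968) (l 16270056))))) (a (b (b (b (l 16637240) (l 16711832)) (l 16751264))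 (c (a (b (l 16768624) (l 16777208)) (b (l 16774424) (c (l 16776760) (l 16776752)))) (a (b (l 16768400) (l 16777208)) (b (l 16774352) (c (l 16776744) (l 16776744)))))) (a (b (b (l 16675784) (l 16756496)) (b (l 16756704) (c (a (l 16775128) (l 16769736)) (a (l 16775072) (l 16769544))))) (b (b (l 16555680) (a (l 16738032) (a (l 16759976) (b (l 16709224) (l 16737104))))) (a (a (c (l 16747016) (l 16746232)) (l 16740648)) (b (a (l 16724360) (l 16722984)) (a (l 16747088) (l 16742288)))))))) (b (b (b (l 2) (c (l 521937196951) (l 16069608))) (l 16327648)) (b (b (l 16596112) (l 16774424)) (c (l 16746152) (l 16745344))))) (b (b (a (c (l 16530704) (l 16301416)) (l 16776872)) (l 16503600)) (b (b (l 16759096) (l 16774408)) (c (l 16773208) (l 16773104)))))))), by decide +kernel⟩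

def k1_pp_023 : ∃ t, chk3 f_pp_023 t 3 1 1 = true :=
  ⟨(a (b (l 2) (b (b (l 16777216) (a (l 16777216) (l 16777216))) (b (b (c (l 16777216) (l 16777216)) (l 16777216)) (b (b (l 16777216) (l 16763800)) (b (a (l 16777216) (l 16656816)) (a (l 16742600) (b (l 16527176) (l 16408720)))))))) (b (b (c (l 16690704) (l 16691944)) (b (l 16764032) (l 16777216))) (b (b (l 16777216) (b (l 16777216) (l 16777216))) (b (b (b (l 16775976) (l 16753960)) (a (l 16758432) (b (l 16643784) (l 16484912)))) (b (a (b (l 16664240) (l 16494856)) (b (l 16279568) (l 16014200))) (b (a (l 16269728) (a (l 15884008) (l 15539648))) (a (b (l 16060872) (l 15681552)) (a (b (l 15611472) (l 15391504)) (c (l 15133992) (l 15101616)))))))))), by decide +kernel⟩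

theorem s2_pp_023 : ∃ t, chk3 f_pp_023 t 1 1 1 = true := ex3_a k0_pp_023 k1_pp_023

theorem c_pp_023 : CertFX 0 536870912 0 1230186008 1046898278 26843546 false true true .up 0 2 3
    ndF3q0 ndF7q3 pcF2 Cut.none Ext.none :=
  certFX2 (fam := false) (s1 := true) (s2 := true) (a := 0) (b := 2) (c := 3) (cn := .up) (n1 := ndF3q0) (n2 := ndF7q3) (pc := pcF2) (cut := Cut.none) (xt := Ext.none) (P1 := 0) (W1 := 536870912) (P2 := 0) (W2 := 1230186008) (P3 := 1046898278) (W3 := 26843546)
    rfl (fun _ => rfl) s2_pp_023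

noncomputable def f_pp_033 : ℕ → ℕ → ℕ → ℕ → Bool := onCell 0 536870912 0 1230186008 1046898278 26843546
    (rowFX 0 false true true .pnn 0 3 3 (qsf 0 536870912 0 1230186008 3) ndF3q0 ndF7q3 pcF3 Cut.none Ext.none)

def k0_pp_033 : ∃ t, chk3 f_pp_033 t 1 2 1 = true :=
  ⟨(b (a (l 4) (a (l 4) (b (l 4) (c (l 16693184) (l 16691000))))) (b (a (b (a (l 4) (a (l 4) (a (l 4) (l 16753160)))) (a (a (l 4) (a (l 4) (a (l 4) (b (l 4) (l 16057776))))) (a (c (a (l 16242072) (l 16460480)) (a (l 16228176) (l 16452256))) (c (l 16723032) (l 16721624))))) (a (c (a (l 16764200) (l 16764200)) (a (l 16763864) (l 16763864))) (c (l 16764200) (l 16763864)))) (a (a (a (a (b (b (l 4) (a (b (l 4) (c (l 14808672) (l 14788080))) (c (l 14988808) (l 14978240)))) (b (c (a (l 14808344) (l 14988832)) (a (l 14787600) (l 14978296))) (c (l 14858248) (l 14863320)))) (b (b (a (l 4) (l 955862055607)) (c (l 15294328) (l 15268624))) (b (l 15196488) (l 15280360)))) (b (a (b (a (l 15574432) (l 15758464)) (l 15668312))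 (b (l 15995776) (l 15995776))) (a (c (l 15680272) (l 15650744)) (l 15974800)))) (b (a (c (l 16351912) (l 16340864)) (l 16617472)) (a (c (l 16351912) (l 16340864)) (l 16722328)))) (a (b (a (l 16777216) (l 16777216)) (l 16777216)) (b (l 16777216) (l 16777216)))))), by decide +kernel⟩

def k1_pp_033 : ∃ t, chk3 f_pp_033 t 1 3 1 = true :=
  ⟨(b (a (b (a (b (a (a (b (c (l 14900184) (l 14884280)) (l 14811448)) (c (l 15294312) (l 15268608))) (a (l 15668304) (l 15995776))) (a (a (c (l 14900176) (l 14884272)) (l 15280368)) (a (l 15668312) (l 15995776)))) (a (b (l 16346384) (l 16346384)) (l 16722328))) (a (b (a (c (a (l 14900200) (l 15294328)) (a (b (l 14884296) (l 14884312)) (l 15268624))) (c (l 15825816) (l 15801104))) (a (a (c (l 14900208) (l 14884312)) (c (l 15294328) (l 15268632))) (c (l 15825816) (l 15801104)))) (a (b (l 16346384) (l 16283472)) (b (l 16722328) (l 16722328))))) (a (b (l 16777216) (b (l 16777216) (l 16777216))) (b (l 16777216) (l 1)))) (a (a (b (a (a (b (c (l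 14900208) (l 14884312)) (c (l 14900208) (l 14800432))) (b (c (l 15294328) (l 15268632)) (l 15280376))) (c (b (l 15825816) (l 15825816)) (b (l 15801104) (l 15801104)))) (a (b (a (c (l 14900208) (l 14884312)) (c (l 15294328) (l 15268632))) (a (c (l 14900208) (l 14884312)) (b (l 15280376) (l 15280376)))) (b (l 15587008) (c (l 15825816) (l 15801104))))) (b (a (b (l 16346384) (l 16346384)) (b (l 16722328) (l 1))) (b (a (l 16346384) (l 1)) (l 1)))) (l 1))), by decide +kernel⟩

theorem s2_pp_033 : ∃ t, chk3 f_pp_033 t 1 1 1 = true := ex3_b k0_pp_033 k1_pp_033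

theorem c_pp_033 : CertFX 0 536870912 0 1230186008 1046898278 26843546 false true true .pnn 0 3 3
    ndF3q0 ndF7q3 pcF3 Cut.none Ext.none :=
  certFX0 (fam := false) (s1 := true) (s2 := true) (a := 0) (b := 3) (c := 3) (cn := .pnn) (n1 := ndF3q0) (n2 := ndF7q3) (pc := pcF3) (cut := Cut.none) (xt := Ext.none) (P1 := 0) (W1 := 536870912) (P2 := 0) (W2 := 1230186008) (P3 := 1046898278) (W3 := 26843546)
    rfl s2_pp_033

noncomputable def f_pp_101 : ℕ → ℕ → ℕ → ℕ → Bool := onCell 536870912 536870912 536870912 536870912 1046898278 26843546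
    (rowFX 0 false true true .npn 1 0 1 (qsf 536870912 536870912 536870912 536870912 0) ndF3q1 ndF7q1 pcF0 Cut.none Ext.none)

def k0_pp_101 : ∃ t, chk3 f_pp_101 t 1 1 1 = true :=
  ⟨(l 3), by decide +kernel⟩

theorem c_pp_101 : CertFX 536870912 536870912 536870912 536870912 1046898278 26843546 false true true .npn 1 0 1
    ndF3q1 ndF7q1 pcF0 Cut.none Ext.none :=
  certFX0 (fam := false) (s1 := true) (s2 := true) (a := 1) (b := 0) (c := 1) (cn := .npn) (n1 := ndF3q1) (n2 := ndF7q1) (pc := pcF0) (cut := Cut.none) (xt := Ext.none) (P1 := 536870912) (W1 := 536870912) (P2 := 536870912) (W2 := 536870912) (P3 := 1046898278) (W3 := 26843546)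
    rfl k0_pp_101

noncomputable def f_pp_102 : ℕ → ℕ → ℕ → ℕ → Bool := onCell 536870912 536870912 1073741824 536870912 1046898278 26843546
    (rowFX 0 false true true .npp 1 0 2 (qsf 536870912 536870912 1073741824 536870912 0) ndF3q1 ndF7q2 pcF0 Cut.none Ext.none)

def k0_pp_102 : ∃ t, chk3 f_pp_102 t 1 1 1 = true :=
  ⟨(l 3), by decide +kernel⟩

theorem c_pp_102 : CertFX 536870912 536870912 1073741824 536870912 1046898278 26843546 false true true .npp 1 0 2
    ndF3q1 ndF7q2 pcF0 Cut.none Ext.none :=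
  certFX0 (fam := false) (s1 := true) (s2 := true) (a := 1) (b := 0) (c := 2) (cn := .npp) (n1 := ndF3q1) (n2 := ndF7q2) (pc := pcF0) (cut := Cut.none) (xt := Ext.none) (P1 := 536870912) (W1 := 536870912) (P2 := 1073741824) (W2 := 536870912) (P3 := 1046898278) (W3 := 26843546)
    rfl k0_pp_102

noncomputable def f_pp_112 : ℕ → ℕ → ℕ → ℕ → Bool := onCell 536870912 536870912 1073741824 536870912 1046898278 26843546
    (rowFX 0 false true true .dn 1 1 2 (qsf 536870912 536870912 1073741824 536870912 1) ndF3q1 ndF7q2 pcF1 Cut.none Ext.none)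

def k0_pp_112 : ∃ t, chk3 f_pp_112 t 1 1 1 = true :=
  ⟨(l 3), by decide +kernel⟩

theorem c_pp_112 : CertFX 536870912 536870912 1073741824 536870912 1046898278 26843546 false true true .dn 1 1 2
    ndF3q1 ndF7q2 pcF1 Cut.none Ext.none :=
  certFX0 (fam := false) (s1 := true) (s2 := true) (a := 1) (b := 1) (c := 2) (cn := .dn) (n1 := ndF3q1) (n2 := ndF7q2) (pc := pcF1) (cut := Cut.none) (xt := Ext.none) (P1 := 536870912) (W1 := 536870912) (P2 := 1073741824) (W2 := 536870912) (P3 := 1046898278) (W3 := 26843546)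
    rfl k0_pp_112

noncomputable def f_pp_113 : ℕ → ℕ → ℕ → ℕ → Bool := onCell 536870912 536870912 0 1230186008 1046898278 26843546
    (rowFX 2 false true true .nn 1 1 3 (qsf 536870912 536870912 0 1230186008 1) ndF3q1 ndF7q3 pcF1 Cut.none Ext.none)

def k0_pp_113 : ∃ t, chk3 f_pp_113 t 1 1 1 = true :=
  ⟨(b (a (l 2) (a (l 2) (b (a (l 2) (a (l 2) (b (b (a (l 2) (l 16462168)) (l 15926616)) (l 273363251079)))) (b (a (b (l 2) (l 13264344)) (b (a (l 13423768) (l 14195128)) (a (l 13720784) (l 14462168)))) (a (b (l 13499080) (a (l 13590112) (l 13929712))) (a (b (l 14041096) (l 14496504)) (l 14947200))))))) (a (b (b (l 2) (b (l 2) (l 3))) (l 3)) (b (a (b (a (l 2) (b (a (l 2) (l 13675480)) (a (b (l 13578176) (c (l 13784616) (l 13748352))) (b (a (l 13831888) (l 14029512)) (c (l 14262024) (l 14284328)))))) (a (b (a (l 13407320) (b (l 346375587639) (c (l 13871672) (a (l 13701784) (l 13939792))))) (a (l 3) (b (c (l 14014744) (l 107536326503)) (l 3)))) (b (a (b (c (l 13997712) (a (l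 13870800) (l 14182656))) (c (a (l 14241192) (l 14590040)) (l 14419120))) (c (a (l 14717056) (l 15032552)) (l 14867600))) (a (c (l 15100568) (l 14927584)) (b (l 15422232) (l 15951552)))))) (a (b (b (a (b (l 13829304) (l 14087944)) (l 14469512)) (a (c (l 14626984) (l 14592368)) (b (l 14935424) (l 15262784)))) (b (a (c (l 15407808) (l 15356160)) (b (l 15628336) (l 16019672))) (a (b (l 15997088) (l 16390024)) (b (l 16286072) (l 16379664))))) (b (b (l 15303856) (a (l 15596320) (l 15927640))) (a (b (a (l 16074312) (l 16114488)) (l 16153280)) (b (b (l 16060880) (l 16021944)) (l 15969272)))))) (a (l 3) (b (a (b (a (l 295982945671) (l 16365136)) (l 3)) (b (a (l 16098008) (l 15903680)) (a (l 3) (l 15717184)))) (l 3)))))), by decide +kernel⟩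

theorem c_pp_113 : CertFX 536870912 536870912 0 1230186008 1046898278 26843546 false true true .nn 1 1 3
    ndF3q1 ndF7q3 pcF1 Cut.none Ext.none :=
  certFX2 (fam := false) (s1 := true) (s2 := true) (a := 1) (b := 1) (c := 3) (cn := .nn) (n1 := ndF3q1) (n2 := ndF7q3) (pc := pcF1) (cut := Cut.none) (xt := Ext.none) (P1 := 536870912) (W1 := 536870912) (P2 := 0) (W2 := 1230186008) (P3 := 1046898278) (W3 := 26843546)
    rfl (fun _ => rfl) k0_pp_113

noncomputable def f_pp_123 : ℕ → ℕ → ℕ → ℕ → Bool := onCell 1073741824 536870912 0 1230186008 1046898278 26843546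
    (rowFX 2 false true true .npn 1 2 3 (qsf 536870912 536870912 0 1230186008 2) ndF3q1 ndF7q3 pcF2 Cut.none Ext.none)

def k0_pp_123 : ∃ t, chk3 f_pp_123 t 1 2 1 = true :=
  ⟨(a (a (b (a (b (a (l 15930896) (l 16406752)) (a (l 15544632) (l 16006248))) (b (a (l 16000344) (l 15618768)) (a (l 15960416) (l 15509528)))) (b (a (b (l 15514784) (l 15678112)) (a (l 15692624) (l 15375112))) (a (b (l 15419256) (l 15532808)) (b (l 15497448) (l 15431856))))) (b (a (b (a (l 15317888) (l 15491520)) (a (l 15251792) (l 15599824))) (b (l 15928352) (l 16108208))) (a (b (a (a (l 15191232) (l 15337208)) (l 15783432)) (a (l 15214048) (l 15810088))) (b (l 16451512) (a (l 16447392) (l 16762824)))))) (b (a (a (b (l 16411632) (l 16464000)) (b (l 4) (l 16684472))) (c (l 16690704) (l 16691944))) (b (a (l 16715192) (l 16764032)) (a (l 16770312) (l 16777216))))), by decide +kernel⟩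

def k1_pp_123 : ∃ t, chk3 f_pp_123 t 4 3 1 = true :=
  ⟨(b (b (a (b (l 15711112) (l 15860544)) (l 15355776)) (a (b (l 15942144) (a (b (l 16210400) (c (l 16213224) (l 16193872))) (c (a (l 15926624) (l 15748584)) (l 15810560)))) (b (l 15277072) (a (c (l 15495272) (l 15461120)) (b (b (l 15068904) (l 15072384)) (l 15201480)))))) (a (b (a (c (b (b (l 16116528) (l 16007384)) (b (a (l 15854304) (l 15976048)) (l 774333563591))) (b (l 16014800) (c (a (l 15829560) (l 15946408)) (l 15878568)))) (b (c (b (l 15916216) (l 15978608)) (l 15919696)) (c (a (l 16097144) (b (l 16068328) (l 16248264))) (b (l 16075480) (a (l 16074056) (l 16231920)))))) (b (a (l 3) (c (a (l 16139232) (l 877413338007)) (a (l 16119640) (l 986398103431)))) (l 3))) (b (a (b (c (b (l 15773352) (l 15899008)) (l 15821392)) (b (c (l 16086704) (l 16078136)) (a (c (l 16272800) (l 16259696)) (b (l 16267128) (l 16368624))))) (b (c (b (l 15603072) (l 15749328)) (l 15668600)) (b (c (l 16029304) (l 16028576)) (a (b (l 16288384)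 (l 16376504)) (l 16391904))))) (b (a (a (c (l 879561512135) (b (l 16420216) (l 16482912))) (a (c (l 16543456) (l 994988911559)) (c (l 1019550792151) (a (l 1145715490823) (l 1145715509287))))) (a (a (b (l 16564328) (a (l 1051763500951) (l 1029214934983))) (b (l 16577176) (l 1))) (b (l 16597864) (l 1)))) (a (l 3) (l 1)))))), by decide +kernel⟩

def k2_pp_123 : ∃ t, chk3 f_pp_123 t 5 3 1 = true :=
  ⟨(b (a (b (a (a (l 14990168) (l 15142544)) (l 15717688)) (a (b (l 14953144) (a (b (l 14842816) (l 15044592)) (b (b (l 14985040) (l 14994720)) (l 15069320)))) (b (l 15644080) (c (l 15543936) (l 15664264))))) (a (b (l 16424328) (c (l 16426832) (l 16194840))) (c (l 16776744) (l 16776744)))) (a (b (a (a (b (b (l 15285520) (c (l 15749840) (l 15746072))) (b (c (l 15967584) (l 15975112)) (l 16375112))) (b (b (c (l 15512632) (l 15418344)) (b (l 15640104) (a (l 15651496) (a (l 15737960) (l 15816136))))) (a (l 16164408) (a (l 16135384) (l 972305011239))))) (b (c (b (l 15943496) (c (l 16093496)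 (l 16074224))) (b (l 15890856) (l 16069608))) (l 16327648))) (a (a (b (b (l 922914157911) (l 1)) (l 1)) (l 1)) (l 1))) (b (b (a (c (l 16530704) (l 16322392)) (l 16776872)) (l 1)) (l 1)))), by decide +kernel⟩

def k3_pp_123 : ∃ t, chk3 f_pp_123 t 3 3 1 = true :=
  ⟨(b (a (b (l 16777216) (a (l 16777216) (l 44056969223))) (b (l 16777216) (l 1))) (l 1)), by decide +kernel⟩

theorem s4_pp_123 : ∃ t, chk3 f_pp_123 t 2 3 1 = true := ex3_a k1_pp_123 k2_pp_123

theorem s5_pp_123 : ∃ t, chk3 f_pp_123 t 1 3 1 = true := ex3_a s4_pp_123 k3_pp_123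

theorem s6_pp_123 : ∃ t, chk3 f_pp_123 t 1 1 1 = true := ex3_b k0_pp_123 s5_pp_123

theorem c_pp_123 : CertFX 536870912 536870912 0 1230186008 1046898278 26843546 false true true .npn 1 2 3
    ndF3q1 ndF7q3 pcF2 Cut.none Ext.none :=
  certFX2 (fam := false) (s1 := true) (s2 := true) (a := 1) (b := 2) (c := 3) (cn := .npn) (n1 := ndF3q1) (n2 := ndF7q3) (pc := pcF2) (cut := Cut.none) (xt := Ext.none) (P1 := 536870912) (W1 := 536870912) (P2 := 0) (W2 := 1230186008) (P3 := 1046898278) (W3 := 26843546)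
    rfl (fun _ => rfl) s6_pp_123

noncomputable def f_pp_133 : ℕ → ℕ → ℕ → ℕ → Bool := onCell 1610612736 536870912 0 1230186008 1046898278 26843546
    (rowFX 2 false true true .dn 1 3 3 (qsf 536870912 536870912 0 1230186008 3) ndF3q1 ndF7q3 pcF3 Cut.none Ext.none)

def k0_pp_133 : ∃ t, chk3 f_pp_133 t 1 1 1 = true :=
  ⟨(b (b (b (l 4) (l 1)) (l 1)) (l 1)), by decide +kernel⟩

theorem c_pp_133 : CertFX 536870912 536870912 0 1230186008 1046898278 26843546 false true true .dn 1 3 3
    ndF3q1 ndF7q3 pcF3 Cut.none Ext.none :=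
  certFX2 (fam := false) (s1 := true) (s2 := true) (a := 1) (b := 3) (c := 3) (cn := .dn) (n1 := ndF3q1) (n2 := ndF7q3) (pc := pcF3) (cut := Cut.none) (xt := Ext.none) (P1 := 536870912) (W1 := 536870912) (P2 := 0) (W2 := 1230186008) (P3 := 1046898278) (W3 := 26843546)
    rfl (fun _ => rfl) k0_pp_133

noncomputable def f_pp_202 : ℕ → ℕ → ℕ → ℕ → Bool := onCell 1073741824 536870912 1073741824 536870912 1046898278 26843546
    (rowFX 0 false true true .pp 2 0 2 (qsf 1073741824 536870912 1073741824 536870912 0) ndF3q2 ndF7q2 pcF0 Cut.none Ext.none)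

def k0_pp_202 : ∃ t, chk3 f_pp_202 t 1 1 1 = true :=
  ⟨(l 5), by decide +kernel⟩

theorem c_pp_202 : CertFX 1073741824 536870912 1073741824 536870912 1046898278 26843546 false true true .pp 2 0 2
    ndF3q2 ndF7q2 pcF0 Cut.none Ext.none :=
  certFX0 (fam := false) (s1 := true) (s2 := true) (a := 2) (b := 0) (c := 2) (cn := .pp) (n1 := ndF3q2) (n2 := ndF7q2) (pc := pcF0) (cut := Cut.none) (xt := Ext.none) (P1 := 1073741824) (W1 := 536870912) (P2 := 1073741824) (W2 := 536870912) (P3 := 1046898278) (W3 := 26843546)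
    rfl k0_pp_202

noncomputable def f_pp_203 : ℕ → ℕ → ℕ → ℕ → Bool := onCell 0 536870912 0 1230186008 1046898278 26843546
    (rowFX 2 false true true .up 2 0 3 (qsf 1073741824 536870912 0 1230186008 0) ndF3q2 ndF7q3 pcF0 Cut.none Ext.none)

def k0_pp_203 : ∃ t, chk3 f_pp_203 t 1 1 1 = true :=
  ⟨(b (l 3) (l 3)), by decide +kernel⟩

theorem c_pp_203 : CertFX 1073741824 536870912 0 1230186008 1046898278 26843546 false true true .up 2 0 3
    ndF3q2 ndF7q3 pcF0 Cut.none Ext.none :=
  certFX2 (fam := false) (s1 := true) (s2 := true) (a := 2) (b := 0) (c := 3) (cn := .up) (n1 := ndF3q2) (n2 := ndF7q3) (pc := pcF0) (cut := Cut.none) (xt := Ext.none) (P1 := 1073741824) (W1 := 536870912) (P2 := 0) (W2 := 1230186008) (P3 := 1046898278) (W3 := 26843546)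
    rfl (fun _ => rfl) k0_pp_203

noncomputable def cut_pp_213 : Cut := Cut.of [[⟨0, 1, 0, 67108864⟩, ⟨1, 1, 0, 67108864⟩, ⟨2, 2, 0, 67108864⟩, ⟨3, 0, 0, 1233125376⟩]]

noncomputable def f_pp_213 : ℕ → ℕ → ℕ → ℕ → Bool := onCell 1073741824 536870912 0 1230186008 1046898278 26843546
    (rowFX 0 false true true .pnn 2 1 3 (qsf 1073741824 536870912 0 1230186008 1) ndF3q2 ndF7q3 pcF1 cut_pp_213 Ext.none)

def k0_pp_213 : ∃ t, chk3 f_pp_213 t 1 1 1 = true :=
  ⟨(b (a (a (a (b (a (l 6) (l 3)) (l 3)) (l 3)) (l 3)) (l 3)) (l 3)), by decide +kernel⟩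

theorem c_pp_213 : CertFX 1073741824 536870912 0 1230186008 1046898278 26843546 false true true .pnn 2 1 3
    ndF3q2 ndF7q3 pcF1 cut_pp_213 Ext.none :=
  certFX0 (fam := false) (s1 := true) (s2 := true) (a := 2) (b := 1) (c := 3) (cn := .pnn) (n1 := ndF3q2) (n2 := ndF7q3) (pc := pcF1) (cut := cut_pp_213) (xt := Ext.none) (P1 := 1073741824) (W1 := 536870912) (P2 := 0) (W2 := 1230186008) (P3 := 1046898278) (W3 := 26843546)
    rfl k0_pp_213

noncomputable def f_pp_303 : ℕ → ℕ → ℕ → ℕ → Bool := onCell 0 536870912 0 1230186008 1046898278 26843546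
    (rowFX 2 false true true .npn 3 0 3 (qsf 1610612736 536870912 0 1230186008 0) ndF3q3 ndF7q3 pcF0 Cut.none Ext.none)

def k0_pp_303 : ∃ t, chk3 f_pp_303 t 1 1 1 = true :=
  ⟨(b (l 3) (l 3)), by decide +kernel⟩

theorem c_pp_303 : CertFX 1610612736 536870912 0 1230186008 1046898278 26843546 false true true .npn 3 0 3
    ndF3q3 ndF7q3 pcF0 Cut.none Ext.none :=
  certFX2 (fam := false) (s1 := true) (s2 := true) (a := 3) (b := 0) (c := 3) (cn := .npn) (n1 := ndF3q3) (n2 := ndF7q3) (pc := pcF0) (cut := Cut.none) (xt := Ext.none) (P1 := 1610612736) (W1 := 536870912) (P2 := 0) (W2 := 1230186008) (P3 := 1046898278) (W3 := 26843546)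
    rfl (fun _ => rfl) k0_pp_303

noncomputable def f_pp_313 : ℕ → ℕ → ℕ → ℕ → Bool := onCell 1610612736 536870912 0 1230186008 1046898278 26843546
    (rowFX 0 false true true .dn 3 1 3 (qsf 1610612736 536870912 0 1230186008 1) ndF3q3 ndF7q3 pcF1 Cut.none Ext.none)

def k0_pp_313 : ∃ t, chk3 f_pp_313 t 1 1 1 = true :=
  ⟨(b (l 3) (l 1)), by decide +kernel⟩

theorem c_pp_313 : CertFX 1610612736 536870912 0 1230186008 1046898278 26843546 false true true .dn 3 1 3
    ndF3q3 ndF7q3 pcF1 Cut.none Ext.none :=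
  certFX0 (fam := false) (s1 := true) (s2 := true) (a := 3) (b := 1) (c := 3) (cn := .dn) (n1 := ndF3q3) (n2 := ndF7q3) (pc := pcF1) (cut := Cut.none) (xt := Ext.none) (P1 := 1610612736) (W1 := 536870912) (P2 := 0) (W2 := 1230186008) (P3 := 1046898278) (W3 := 26843546)
    rfl k0_pp_313

noncomputable def f_pm_001 : ℕ → ℕ → ℕ → ℕ → Bool := onCell 0 536870912 536870912 536870912 1046898278 26843546
    (rowFX 0 false true false .up 0 0 1 (qsf 0 536870912 536870912 536870912 0) ndF3q0 ndF7q1 pcF0 Cut.none Ext.none)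

def k0_pm_001 : ∃ t, chk3 f_pm_001 t 1 1 1 = true :=
  ⟨(l 4), by decide +kernel⟩

theorem c_pm_001 : CertFX 0 536870912 536870912 536870912 1046898278 26843546 false true false .up 0 0 1
    ndF3q0 ndF7q1 pcF0 Cut.none Ext.none :=
  certFX0 (fam := false) (s1 := true) (s2 := false) (a := 0) (b := 0) (c := 1) (cn := .up) (n1 := ndF3q0) (n2 := ndF7q1) (pc := pcF0) (cut := Cut.none) (xt := Ext.none) (P1 := 0) (W1 := 536870912) (P2 := 536870912) (W2 := 536870912) (P3 := 1046898278) (W3 := 26843546)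
    rfl k0_pm_001

noncomputable def f_pm_011 : ℕ → ℕ → ℕ → ℕ → Bool := onCell 0 536870912 536870912 536870912 1046898278 26843546
    (rowFX 0 false true false .pnn 0 1 1 (qsf 0 536870912 536870912 536870912 1) ndF3q0 ndF7q1 pcF1 Cut.none Ext.none)

def k0_pm_011 : ∃ t, chk3 f_pm_011 t 1 1 1 = true :=
  ⟨(l 4), by decide +kernel⟩

theorem c_pm_011 : CertFX 0 536870912 536870912 536870912 1046898278 26843546 false true false .pnn 0 1 1
    ndF3q0 ndF7q1 pcF1 Cut.none Ext.none :=
  certFX0 (fam := false) (s1 := true) (s2 := false) (a := 0) (b := 1) (c := 1) (cn := .pnn) (n1 := ndF3q0) (n2 := ndF7q1) (pc := pcF1) (cut := Cut.none) (xt := Ext.none) (P1 := 0) (W1 := 536870912) (P2 := 536870912) (W2 := 536870912) (P3 := 1046898278) (W3 := 26843546)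
    rfl k0_pm_011

noncomputable def f_pm_012 : ℕ → ℕ → ℕ → ℕ → Bool := onCell 0 536870912 1073741824 536870912 1046898278 26843546
    (rowFX 0 false true false .pnp 0 1 2 (qsf 0 536870912 1073741824 536870912 1) ndF3q0 ndF7q2 pcF1 Cut.none Ext.none)

def k0_pm_012 : ∃ t, chk3 f_pm_012 t 1 1 1 = true :=
  ⟨(l 4), by decide +kernel⟩

theorem c_pm_012 : CertFX 0 536870912 1073741824 536870912 1046898278 26843546 false true false .pnp 0 1 2
    ndF3q0 ndF7q2 pcF1 Cut.none Ext.none :=
  certFX0 (fam := false) (s1 := true) (s2 := false) (a := 0) (b := 1) (c := 2) (cn := .pnp) (n1 := ndF3q0) (n2 := ndF7q2) (pc := pcF1) (cut := Cut.none) (xt := Ext.none) (P1 := 0) (W1 := 536870912) (P2 := 1073741824) (W2 := 536870912) (P3 := 1046898278) (W3 := 26843546)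
    rfl k0_pm_012

noncomputable def f_pm_022 : ℕ → ℕ → ℕ → ℕ → Bool := onCell 0 536870912 1073741824 536870912 1046898278 26843546
    (rowFX 0 false true false .pp 0 2 2 (qsf 0 536870912 1073741824 536870912 2) ndF3q0 ndF7q2 pcF2 Cut.none Ext.none)

def k0_pm_022 : ∃ t, chk3 f_pm_022 t 1 1 1 = true :=
  ⟨(l 4), by decide +kernel⟩

theorem c_pm_022 : CertFX 0 536870912 1073741824 536870912 1046898278 26843546 false true false .pp 0 2 2
    ndF3q0 ndF7q2 pcF2 Cut.none Ext.none :=
  certFX0 (fam := false) (s1 := true) (s2 := false) (a := 0) (b := 2) (c := 2) (cn := .pp) (n1 := ndF3q0) (n2 := ndF7q2) (pc := pcF2) (cut := Cut.none) (xt := Ext.none) (P1 := 0) (W1 := 536870912) (P2 := 1073741824) (W2 := 536870912) (P3 := 1046898278) (W3 := 26843546)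
    rfl k0_pm_022

noncomputable def f_pm_023 : ℕ → ℕ → ℕ → ℕ → Bool := onCell 0 536870912 0 1230186008 1046898278 26843546
    (rowFX 0 false true false .up 0 2 3 (qsf 0 536870912 0 1230186008 2) ndF3q0 ndF7q3 pcF2 Cut.none Ext.none)

def k0_pm_023 : ∃ t, chk3 f_pm_023 t 1 1 1 = true :=
  ⟨(b (l 4) (l 4)), by decide +kernel⟩

theorem c_pm_023 : CertFX 0 536870912 0 1230186008 1046898278 26843546 false true false .up 0 2 3
    ndF3q0 ndF7q3 pcF2 Cut.none Ext.none :=
  certFX0 (fam := false) (s1 := true) (s2 := false) (a := 0) (b := 2) (c := 3) (cn := .up) (n1 := ndF3q0) (n2 := ndF7q3) (pc := pcF2) (cut := Cut.none) (xt := Ext.none) (P1 := 0) (W1 := 536870912) (P2 := 0) (W2 := 1230186008) (P3 := 1046898278) (W3 := 26843546)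
    rfl k0_pm_023

noncomputable def f_pm_033 : ℕ → ℕ → ℕ → ℕ → Bool := onCell 0 536870912 0 1230186008 1046898278 26843546
    (rowFX 0 false true false .pnn 0 3 3 (qsf 0 536870912 0 1230186008 3) ndF3q0 ndF7q3 pcF3 Cut.none Ext.none)

def k0_pm_033 : ∃ t, chk3 f_pm_033 t 1 1 1 = true :=
  ⟨(b (l 4) (l 4)), by decide +kernel⟩

theorem c_pm_033 : CertFX 0 536870912 0 1230186008 1046898278 26843546 false true false .pnn 0 3 3
    ndF3q0 ndF7q3 pcF3 Cut.none Ext.none :=
  certFX0 (fam := false) (s1 := true) (s2 := false) (a := 0) (b := 3) (c := 3) (cn := .pnn) (n1 := ndF3q0) (n2 := ndF7q3) (pc := pcF3) (cut := Cut.none) (xt := Ext.none) (P1 := 0) (W1 := 536870912) (P2 := 0) (W2 := 1230186008) (P3 := 1046898278) (W3 := 26843546)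
    rfl k0_pm_033

noncomputable def f_pm_101 : ℕ → ℕ → ℕ → ℕ → Bool := onCell 536870912 536870912 536870912 536870912 1046898278 26843546
    (rowFX 0 false true false .npn 1 0 1 (qsf 536870912 536870912 536870912 536870912 0) ndF3q1 ndF7q1 pcF0 Cut.none Ext.none)

def k0_pm_101 : ∃ t, chk3 f_pm_101 t 1 1 1 = true :=
  ⟨(l 4), by decide +kernel⟩

theorem c_pm_101 : CertFX 536870912 536870912 536870912 536870912 1046898278 26843546 false true false .npn 1 0 1
    ndF3q1 ndF7q1 pcF0 Cut.none Ext.none :=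
  certFX0 (fam := false) (s1 := true) (s2 := false) (a := 1) (b := 0) (c := 1) (cn := .npn) (n1 := ndF3q1) (n2 := ndF7q1) (pc := pcF0) (cut := Cut.none) (xt := Ext.none) (P1 := 536870912) (W1 := 536870912) (P2 := 536870912) (W2 := 536870912) (P3 := 1046898278) (W3 := 26843546)
    rfl k0_pm_101

noncomputable def f_pm_102 : ℕ → ℕ → ℕ → ℕ → Bool := onCell 536870912 536870912 1073741824 536870912 1046898278 26843546
    (rowFX 0 false true false .npp 1 0 2 (qsf 536870912 536870912 1073741824 536870912 0) ndF3q1 ndF7q2 pcF0 Cut.none Ext.none)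

def k0_pm_102 : ∃ t, chk3 f_pm_102 t 1 1 1 = true :=
  ⟨(l 4), by decide +kernel⟩

theorem c_pm_102 : CertFX 536870912 536870912 1073741824 536870912 1046898278 26843546 false true false .npp 1 0 2
    ndF3q1 ndF7q2 pcF0 Cut.none Ext.none :=
  certFX0 (fam := false) (s1 := true) (s2 := false) (a := 1) (b := 0) (c := 2) (cn := .npp) (n1 := ndF3q1) (n2 := ndF7q2) (pc := pcF0) (cut := Cut.none) (xt := Ext.none) (P1 := 536870912) (W1 := 536870912) (P2 := 1073741824) (W2 := 536870912) (P3 := 1046898278) (W3 := 26843546)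
    rfl k0_pm_102

noncomputable def f_pm_112 : ℕ → ℕ → ℕ → ℕ → Bool := onCell 536870912 536870912 1073741824 536870912 1046898278 26843546
    (rowFX 0 false true false .dn 1 1 2 (qsf 536870912 536870912 1073741824 536870912 1) ndF3q1 ndF7q2 pcF1 Cut.none Ext.none)

def k0_pm_112 : ∃ t, chk3 f_pm_112 t 1 1 1 = true :=
  ⟨(l 4), by decide +kernel⟩

theorem c_pm_112 : CertFX 536870912 536870912 1073741824 536870912 1046898278 26843546 false true false .dn 1 1 2
    ndF3q1 ndF7q2 pcF1 Cut.none Ext.none :=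
  certFX0 (fam := false) (s1 := true) (s2 := false) (a := 1) (b := 1) (c := 2) (cn := .dn) (n1 := ndF3q1) (n2 := ndF7q2) (pc := pcF1) (cut := Cut.none) (xt := Ext.none) (P1 := 536870912) (W1 := 536870912) (P2 := 1073741824) (W2 := 536870912) (P3 := 1046898278) (W3 := 26843546)
    rfl k0_pm_112

noncomputable def f_pm_113 : ℕ → ℕ → ℕ → ℕ → Bool := onCell 536870912 536870912 0 1230186008 1046898278 26843546
    (rowFX 0 false true false .nn 1 1 3 (qsf 536870912 536870912 0 1230186008 1) ndF3q1 ndF7q3 pcF1 Cut.none Ext.none)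

def k0_pm_113 : ∃ t, chk3 f_pm_113 t 1 1 1 = true :=
  ⟨(b (a (l 2) (b (a (l 2) (b (a (l 2) (a (l 2) (c (l 16607880) (l 16541096)))) (l 4))) (l 4))) (l 4)), by decide +kernel⟩

theorem c_pm_113 : CertFX 536870912 536870912 0 1230186008 1046898278 26843546 false true false .nn 1 1 3
    ndF3q1 ndF7q3 pcF1 Cut.none Ext.none :=
  certFX0 (fam := false) (s1 := true) (s2 := false) (a := 1) (b := 1) (c := 3) (cn := .nn) (n1 := ndF3q1) (n2 := ndF7q3) (pc := pcF1) (cut := Cut.none) (xt := Ext.none) (P1 := 536870912) (W1 := 536870912) (P2 := 0) (W2 := 1230186008) (P3 := 1046898278) (W3 := 26843546)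
    rfl k0_pm_113

noncomputable def f_pm_123 : ℕ → ℕ → ℕ → ℕ → Bool := onCell 536870912 536870912 0 1230186008 1046898278 26843546
    (rowFX 0 false true false .npn 1 2 3 (qsf 536870912 536870912 0 1230186008 2) ndF3q1 ndF7q3 pcF2 Cut.none Ext.none)

def k0_pm_123 : ∃ t, chk3 f_pm_123 t 1 1 1 = true :=
  ⟨(b (a (l 4) (b (a (l 4) (a (l 4) (b (a (l 4) (l 16207768)) (l 4)))) (l 4))) (l 4)), by decide +kernel⟩

theorem c_pm_123 : CertFX 536870912 536870912 0 1230186008 1046898278 26843546 false true false .npn 1 2 3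
    ndF3q1 ndF7q3 pcF2 Cut.none Ext.none :=
  certFX0 (fam := false) (s1 := true) (s2 := false) (a := 1) (b := 2) (c := 3) (cn := .npn) (n1 := ndF3q1) (n2 := ndF7q3) (pc := pcF2) (cut := Cut.none) (xt := Ext.none) (P1 := 536870912) (W1 := 536870912) (P2 := 0) (W2 := 1230186008) (P3 := 1046898278) (W3 := 26843546)
    rfl k0_pm_123

noncomputable def f_pm_133 : ℕ → ℕ → ℕ → ℕ → Bool := onCell 536870912 536870912 0 1230186008 1046898278 26843546
    (rowFX 0 false true false .dn 1 3 3 (qsf 536870912 536870912 0 1230186008 3) ndF3q1 ndF7q3 pcF3 Cut.none Ext.none)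

def k0_pm_133 : ∃ t, chk3 f_pm_133 t 1 1 1 = true :=
  ⟨(b (a (l 4) (l 1)) (l 1)), by decide +kernel⟩

theorem c_pm_133 : CertFX 536870912 536870912 0 1230186008 1046898278 26843546 false true false .dn 1 3 3
    ndF3q1 ndF7q3 pcF3 Cut.none Ext.none :=
  certFX0 (fam := false) (s1 := true) (s2 := false) (a := 1) (b := 3) (c := 3) (cn := .dn) (n1 := ndF3q1) (n2 := ndF7q3) (pc := pcF3) (cut := Cut.none) (xt := Ext.none) (P1 := 536870912) (W1 := 536870912) (P2 := 0) (W2 := 1230186008) (P3 := 1046898278) (W3 := 26843546)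
    rfl k0_pm_133

noncomputable def f_pm_202 : ℕ → ℕ → ℕ → ℕ → Bool := onCell 0 536870912 1073741824 536870912 1046898278 26843546
    (rowFX 2 false true false .pp 2 0 2 (qsf 1073741824 536870912 1073741824 536870912 0) ndF3q2 ndF7q2 pcF0 Cut.none Ext.none)

def k0_pm_202 : ∃ t, chk3 f_pm_202 t 1 1 1 = true :=
  ⟨(b (l 4) (b (b (l 4) (a (b (l 4) (a (a (a (a (a (l 16746288) (l 16751904)) (l 16757264)) (l 16766368)) (a (l 16774280) (l 16777096))) (l 4))) (l 4))) (a (a (a (a (c (a (l 16498808) (l 16524128)) (a (b (l 16603976) (l 16388400)) (l 16527024))) (c (l 16576320) (l 16575952))) (b (a (l 16704792) (l 16734408)) (l 16606256))) (a (b (b (l 16562232) (l 16748808)) (l 16706280)) (b (b (a (l 16335368) (l 15970528)) (a (l 16670072) (l 16335176))) (l 16728128)))) (b (a (b (l 4) (a (l 180621385591) (l 16016272))) (l 4)) (a (a (b (l 16173448) (l 16489600)) (b (l 15948928) (l 15967944))) (a (b (l 164515187735) (l 16016272)) (b (a (l 15689576) (l 15296128)) (a (l 15925288) (l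 15689576))))))))), by decide +kernel⟩

theorem c_pm_202 : CertFX 1073741824 536870912 1073741824 536870912 1046898278 26843546 false true false .pp 2 0 2
    ndF3q2 ndF7q2 pcF0 Cut.none Ext.none :=
  certFX2 (fam := false) (s1 := true) (s2 := false) (a := 2) (b := 0) (c := 2) (cn := .pp) (n1 := ndF3q2) (n2 := ndF7q2) (pc := pcF0) (cut := Cut.none) (xt := Ext.none) (P1 := 1073741824) (W1 := 536870912) (P2 := 1073741824) (W2 := 536870912) (P3 := 1046898278) (W3 := 26843546)
    rfl (fun _ => rfl) k0_pm_202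

noncomputable def f_pm_203 : ℕ → ℕ → ℕ → ℕ → Bool := onCell 0 536870912 0 1230186008 1046898278 26843546
    (rowFX 2 false true false .up 2 0 3 (qsf 1073741824 536870912 0 1230186008 0) ndF3q2 ndF7q3 pcF0 Cut.none Ext.none)

def k0_pm_203 : ∃ t, chk3 f_pm_203 t 1 1 1 = true :=
  ⟨(b (a (l 2) (b (l 3) (a (l 2) (b (l 3) (a (b (l 3) (c (c (l 365239992327) (l 353428832263)) (l 334638350343))) (b (b (l 3) (a (l 330343383047) (l 276656291847))) (c (b (l 16777216) (l 16777216)) (b (l 16777216) (l 16777216))))))))) (a (a (b (l 2) (b (l 2) (b (a (l 2) (l 16324464)) (a (a (c (l 16167416) (l 16160048)) (l 16285680)) (a (l 16416744) (l 16524112)))))) (b (a (l 2) (b (l 2) (a (l 2) (l 1398649440151)))) (b (a (b (l 1168867541511) (l 16491600)) (a (l 209479960711) (l 16777080))) (a (b (l 16568632) (l 16637328)) (b (l 16750824) (l 16760176)))))) (a (b (b (a (l 2) (c (b (l 1859284631559) (l 16777216)) (b (l 1719698194439) (l 16777216)))) (b (l 226123317239) (l 16777216))) (b (c (l 16777216)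 (l 16777216)) (b (l 16756632) (a (l 16728432) (b (l 16534760) (l 16153824)))))) (b (b (b (c (a (l 16777216) (l 16777216)) (a (l 16777216) (l 16777216))) (l 16777216)) (b (l 16777216) (l 16777216))) (b (b (a (l 16777216) (l 16715952)) (a (l 16741032) (b (l 16507400) (l 16210960)))) (b (a (b (l 16549976) (l 16229104)) (b (l 15995264) (l 15926320))) (a (b (l 15997840) (l 15965264)) (b (l 16006528) (l 15977184))))))))), by decide +kernel⟩

theorem c_pm_203 : CertFX 1073741824 536870912 0 1230186008 1046898278 26843546 false true false .up 2 0 3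
    ndF3q2 ndF7q3 pcF0 Cut.none Ext.none :=
  certFX2 (fam := false) (s1 := true) (s2 := false) (a := 2) (b := 0) (c := 3) (cn := .up) (n1 := ndF3q2) (n2 := ndF7q3) (pc := pcF0) (cut := Cut.none) (xt := Ext.none) (P1 := 1073741824) (W1 := 536870912) (P2 := 0) (W2 := 1230186008) (P3 := 1046898278) (W3 := 26843546)
    rfl (fun _ => rfl) k0_pm_203

noncomputable def cut_pm_213 : Cut := Cut.of [[⟨0, 1, 0, 67108864⟩, ⟨1, 1, 0, 67108864⟩, ⟨2, 2, 0, 67108864⟩, ⟨3, 0, 0, 1233125376⟩]]

noncomputable def f_pm_213 : ℕ → ℕ → ℕ → ℕ → Bool := onCell 1073741824 536870912 0 1230186008 1046898278 26843546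
    (rowFX 0 false true false .pnn 2 1 3 (qsf 1073741824 536870912 0 1230186008 1) ndF3q2 ndF7q3 pcF1 cut_pm_213 Ext.none)

def k0_pm_213 : ∃ t, chk3 f_pm_213 t 4 4 1 = true :=
  ⟨(a (b (a (a (a (b (l 6) (b (l 6) (a (c (l 16594136) (c (l 16585592) (l 16187856))) (l 6)))) (l 6)) (l 6)) (a (l 6) (a (l 6) (b (l 3) (b (c (l 16549736) (l 16541976)) (c (l 16505696) (l 16496264))))))) (a (b (c (a (b (a (c (l 16566672) (l 16538360)) (c (l 16618016) (l 16589072))) (a (c (l 16518936) (l 16512632)) (l 16438232))) (b (c (l 16546432) (l 16548824)) (a (l 16491264) (l 16487608)))) (a (b (a (c (l 16445016) (l 16044104)) (l 16247832)) (c (l 16227408) (l 15982224))) (b (l 16388384) (l 16250712)))) (a (b (c (a (b (l 16454536) (l 16304120)) (l 16340904)) (a (l 15706024) (l 15934904))) (c (l 16145680) (l 15721984))) (b (c (a (l 16356016) (l 16373288)) (l 16123984)) (c (l 16246784) (l 16014152))))) (b (c (a (b (l 16534424) (l 16479256)) (b (l 16482160) (l 16439056))) (b (a (l 16471552) (l 16467904))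 (a (l 16368456) (l 16417192)))) (a (b (c (l 16388552) (l 16266048)) (c (l 16296944) (l 16169200))) (c (b (l 16390768) (l 16322792)) (l 16299808)))))) (b (b (l 3) (b (a (c (l 229410527431) (l 243369130247)) (l 3)) (a (c (a (l 16426840) (l 16291192)) (a (l 16417400) (l 16277944))) (c (l 230483525399) (l 271285632759))))) (b (a (c (b (l 16327744) (l 16297496)) (b (l 16315976) (l 16286008))) (c (b (a (l 16120192) (l 15937440)) (a (l 16094200) (l 15917392))) (b (l 95191882983) (l 15986408)))) (a (c (l 16206288) (l 16138936)) (a (c (l 16057952) (l 16043080)) (c (b (l 15905240) (l 15905096)) (l 15890208))))))), by decide +kernel⟩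

def k1_pm_213 : ∃ t, chk3 f_pm_213 t 4 5 1 = true :=
  ⟨(b (a (a (b (c (a (a (l 15883576) (l 15997592)) (l 16092368)) (a (b (l 15644000) (l 15591664)) (l 15880704))) (c (a (b (l 15818416) (l 15781016)) (l 15966960)) (a (l 15460640) (l 15801808)))) (b (b (a (l 16146960) (c (l 16250584) (l 16183032))) (c (l 16159696) (l 16060928))) (c (l 16084736) (l 16004896)))) (a (c (b (b (l 16184312) (l 16132368)) (l 16019112)) (b (b (l 16161584) (l 16100936)) (l 16059072))) (b (b (a (c (l 16026680) (l 16021040)) (l 15912104)) (a (c (a (l 16028192) (l 15980936)) (l 15995776)) (l 15915832))) (b (c (l 15962848) (l 15946592)) (l 15960080))))) (a (a (b (c (a (l 15643808) (l 15927608)) (a (l 15636568) (l 15809152))) (c (b (l 15862800) (l 15884392)) (b (l 15774544) (l 15811400)))) (b (c (b (l 16047432) (l 16038664)) (l 15988496)) (b (c (l 16039040) (l 15998544)) (l 16027368)))) (b (a (b (l 16055552) (l 16056480)) (c (l 15976112) (l 15957504))) (c (l 16008600) (l 15990120))))), by decide +kernel⟩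

def k2_pm_213 : ∃ t, chk3 f_pm_213 t 5 2 1 = true :=
  ⟨(b (b (l 3) (a (b (a (a (b (l 232093912935) (l 15788216)) (c (l 206861018871) (l 295444462775))) (c (l 248737037767) (l 254105705607))) (a (c (l 15776648) (l 15777400)) (c (l 16074248) (l 16057352)))) (b (l 3) (a (c (l 16351464) (l 16469136)) (c (l 16685224) (l 16704344)))))) (b (a (b (a (c (a (l 15851000) (l 15808808)) (l 15822040)) (c (l 16115392) (l 16112688))) (a (b (c (l 15829744) (l 15807064)) (l 15822328)) (c (b (l 16113912) (l 16115024)) (l 16097160)))) (b (a (c (l 16465832) (l 16503336)) (c (l 16753336) (l 16752720))) (a (c (l 16493072) (l 16550240)) (c (l 16776904) (l 16776896))))) (c (a (a (b (l 15838392) (l 15840496)) (l 16115520)) (b (a (l 16555984) (l 16776904)) (l 16585320))) (a (a (l 15815320) (l 16098336)) (b (a (l 16550240) (l 16776896)) (l 16666400)))))), by decide +kernel⟩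

def k3_pm_213 : ∃ t, chk3 f_pm_213 t 3 2 1 = true :=
  ⟨(a (b (l 3) (a (b (b (c (b (l 16739768) (l 16769144)) (l 259476302807)) (c (l 16777216) (l 16777216))) (a (b (c (l 16777216) (l 16777216)) (l 16777216)) (c (b (l 16777216) (l 16777216)) (b (l 16777216) (l 16777216))))) (b (b (l 3) (a (c (l 16777216) (l 16777216)) (c (l 286319968263) (l 16777216)))) (c (b (b (l 16777216) (l 16777216)) (c (l 16777216) (l 16777216))) (b (b (l 16777216) (l 16777216)) (c (l 16777216) (l 16777216))))))) (b (l 3) (a (a (b (b (l 3) (c (l 334101479431) (l 16777216))) (b (c (l 16777216) (l 16777216)) (c (l 16777216) (l 16777216)))) (b (l 3) (b (c (l 301352353799) (l 16777216)) (c (l 16777216) (l 16777216))))) (b (l 3) (b (b (l 3) (l 1)) (l 1)))))), by decide +kernel⟩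

def k4_pm_213 : ∃ t, chk3 f_pm_213 t 1 3 1 = true :=
  ⟨(b (a (a (b (b (a (a (b (a (l 15817352) (l 15942464)) (a (l 15841592) (l 15944592))) (l 16027808)) (c (l 16010472) (l 15990968))) (a (a (b (l 15881072) (l 15876328)) (l 16003048)) (b (l 16000512) (l 16000440)))) (a (b (c (l 15948872) (l 15916512)) (a (l 15867464) (l 16021456))) (b (l 16000440) (l 16000440)))) (b (a (b (a (l 15828440) (l 16106936)) (a (l 15828440) (l 16106936))) (b (l 16458088) (a (l 16553112) (l 16776904)))) (a (b (a (l 15828440) (l 16106936)) (l 15970528)) (b (l 16604888) (l 16667800))))) (a (b (b (l 16777216) (l 16777216)) (b (l 16777216) (l 16777216))) (a (a (b (b (l 16777216) (l 1)) (l 1)) (l 1)) (l 1)))) (a (b (a (b (a (l 15736552) (l 16000440)) (a (c (l 15947328) (l 15914688)) (l 16000440))) (a (b (l 15781784) (c (l 15980872) (l 15960184))) (b (l 16667800) (l 1)))) (a (a (b (b (l 15925288) (l 15925288)) (c (l 15947328) (l 15914688))) (b (l 16000440) (l 16000440))) (b (a (l 15970528) (l 1)) (l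 1)))) (l 1))), by decide +kernel⟩

theorem s5_pm_213 : ∃ t, chk3 f_pm_213 t 4 2 1 = true := ex3_b k0_pm_213 k1_pm_213

theorem s6_pm_213 : ∃ t, chk3 f_pm_213 t 2 2 1 = true := ex3_a s5_pm_213 k2_pm_213

theorem s7_pm_213 : ∃ t, chk3 f_pm_213 t 1 2 1 = true := ex3_a s6_pm_213 k3_pm_213

theorem s8_pm_213 : ∃ t, chk3 f_pm_213 t 1 1 1 = true := ex3_b s7_pm_213 k4_pm_213

theorem c_pm_213 : CertFX 1073741824 536870912 0 1230186008 1046898278 26843546 false true false .pnn 2 1 3
    ndF3q2 ndF7q3 pcF1 cut_pm_213 Ext.none :=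
  certFX0 (fam := false) (s1 := true) (s2 := false) (a := 2) (b := 1) (c := 3) (cn := .pnn) (n1 := ndF3q2) (n2 := ndF7q3) (pc := pcF1) (cut := cut_pm_213) (xt := Ext.none) (P1 := 1073741824) (W1 := 536870912) (P2 := 0) (W2 := 1230186008) (P3 := 1046898278) (W3 := 26843546)
    rfl s8_pm_213

noncomputable def f_pm_303 : ℕ → ℕ → ℕ → ℕ → Bool := onCell 0 536870912 0 1230186008 1046898278 26843546
    (rowFX 2 false true false .npn 3 0 3 (qsf 1610612736 536870912 0 1230186008 0) ndF3q3 ndF7q3 pcF0 Cut.none Ext.none)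

def k0_pm_303 : ∃ t, chk3 f_pm_303 t 1 2 1 = true :=
  ⟨(b (l 3) (a (l 3) (b (l 3) (b (a (l 3) (a (l 3) (b (l 3) (l 1)))) (a (a (l 3) (c (l 377588023303) (l 364166250503))) (a (c (c (l 359871283207) (l 353428832263)) (l 342691414023)) (l 1))))))), by decide +kernel⟩

def k1_pm_303 : ∃ t, chk3 f_pm_303 t 4 6 1 = true :=
  ⟨(a (b (l 3) (a (b (b (l 3) (a (c (b (l 14805816) (a (l 14724616) (c (l 14855080) (l 14836584)))) (a (b (l 337318126535) (c (l 14625800) (a (l 14701336) (l 14757192)))) (c (l 14818600) (l 14813256)))) (c (c (l 14799240) (l 14946152)) (c (l 14949760) (l 14935568))))) (a (c (a (b (l 14638168) (l 15053592)) (c (b (l 14979000) (l 15149496)) (b (l 14940512) (l 15107216)))) (a (b (c (l 14868000) (a (l 14847224) (l 14876168))) (c (l 15032056) (b (l 14975072) (l 15045864)))) (b (l 14670232) (c (l 15082496) (l 15088680))))) (c (c (b (l 15290656) (l 15168464)) (b (l 15041784) (l 15180832))) (b (l 15053736) (l 15200808))))) (c (b (a (c (l 356646229447) (l 348056311815))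 (c (l 352351607751) (l 15282536))) (a (b (l 15070656) (l 15363216)) (c (l 15423368) (l 15412440)))) (b (b (l 341613941111) (c (l 15191456) (l 15171016))) (b (a (l 15205728) (l 15375640)) (l 15435952)))))) (a (b (l 3) (c (b (a (l 345372623175) (l 342151769927)) (a (l 15603432) (l 15783408))) (b (b (a (l 15296296) (l 15594712)) (l 15574064)) (b (l 15572768) (l 15743296))))) (b (b (l 3) (c (l 380270368487) (b (l 3) (l 345373320679)))) (b (c (b (a (l 15800328) (l 15925680)) (l 15936720)) (b (a (l 15774944) (l 15903560)) (l 15914888))) (c (l 16011024) (l 15985672)))))), by decide +kernel⟩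

def k2_pm_303 : ∃ t, chk3 f_pm_303 t 4 7 1 = true :=
  ⟨(a (b (a (a (c (b (l 15291944) (l 15577496)) (b (b (l 15068624) (l 15339848)) (a (l 15534368) (l 15573976)))) (c (b (l 15378168) (l 15649352)) (l 15527576))) (b (c (b (l 15503904) (l 15661832)) (l 15546920)) (l 15662600))) (a (b (a (c (l 15869512) (c (l 15857856) (l 15851808))) (c (l 15925296) (l 15935032))) (c (l 16167416) (l 16160048))) (b (l 16066256) (l 16285680)))) (b (b (a (c (l 15874040) (l 15842280)) (b (l 16077496) (l 16175232))) (a (l 16070800) (l 16271792))) (b (l 16324464) (a (l 16416744) (l 1))))), by decide +kernel⟩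

def k3_pm_303 : ∃ t, chk3 f_pm_303 t 5 3 1 = true :=
  ⟨(b (a (b (b (l 3) (c (a (l 371144173591) (l 362554665927)) (b (l 381344799415) (a (l 337320826663) (l 16345096))))) (b (a (b (c (l 16109488) (l 16092152)) (l 16157432)) (b (l 16374880) (l 16404376))) (c (l 16348640) (l 16334520)))) (b (b (a (l 3) (c (l 382419509415) (a (l 394230743463) (l 356113186775)))) (a (c (l 353964979559) (b (l 16581376) (l 16618832))) (a (c (l 16768656) (l 313163234151)) (b (l 16777216) (l 16777216))))) (a (b (b (l 16642352) (l 16650136)) (l 16665264)) (b (l 16777032) (l 16777056))))) (b (a (b (c (l 16397360) (l 16405616)) (l 16491600)) (b (a (l 16676496) (l 16777072)) (l 1))) (a (b (l 16568632) (l 1)) (l 1)))), by decide +kernel⟩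

def k4_pm_303 : ∃ t, chk3 f_pm_303 t 3 3 1 = true :=
  ⟨(b (a (b (c (a (b (l 365776863239) (l 16777216)) (b (l 261623906311) (l 16777216))) (a (b (l 344838897671) (l 16777216)) (b (l 313163513863) (l 16777216)))) (b (b (l 16777216) (l 16777216)) (l 16777216))) (a (b (b (c (l 16777216) (l 16777216)) (l 1)) (l 1)) (l 1))) (l 1)), by decide +kernel⟩

theorem s5_pm_303 : ∃ t, chk3 f_pm_303 t 4 3 1 = true := ex3_b k1_pm_303 k2_pm_303

theorem s6_pm_303 : ∃ t, chk3 f_pm_303 t 2 3 1 = true := ex3_a s5_pm_303 k3_pm_303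

theorem s7_pm_303 : ∃ t, chk3 f_pm_303 t 1 3 1 = true := ex3_a s6_pm_303 k4_pm_303

theorem s8_pm_303 : ∃ t, chk3 f_pm_303 t 1 1 1 = true := ex3_b k0_pm_303 s7_pm_303

theorem c_pm_303 : CertFX 1610612736 536870912 0 1230186008 1046898278 26843546 false true false .npn 3 0 3
    ndF3q3 ndF7q3 pcF0 Cut.none Ext.none :=
  certFX2 (fam := false) (s1 := true) (s2 := false) (a := 3) (b := 0) (c := 3) (cn := .npn) (n1 := ndF3q3) (n2 := ndF7q3) (pc := pcF0) (cut := Cut.none) (xt := Ext.none) (P1 := 1610612736) (W1 := 536870912) (P2 := 0) (W2 := 1230186008) (P3 := 1046898278) (W3 := 26843546)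
    rfl (fun _ => rfl) s8_pm_303

noncomputable def f_pm_313 : ℕ → ℕ → ℕ → ℕ → Bool := onCell 1610612736 536870912 0 1230186008 1046898278 26843546
    (rowFX 0 false true false .dn 3 1 3 (qsf 1610612736 536870912 0 1230186008 1) ndF3q3 ndF7q3 pcF1 Cut.none Ext.none)

def k0_pm_313 : ∃ t, chk3 f_pm_313 t 1 1 1 = true :=
  ⟨(b (b (l 3) (l 1)) (l 1)), by decide +kernel⟩

theorem c_pm_313 : CertFX 1610612736 536870912 0 1230186008 1046898278 26843546 false true false .dn 3 1 3
    ndF3q3 ndF7q3 pcF1 Cut.none Ext.none :=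
  certFX0 (fam := false) (s1 := true) (s2 := false) (a := 3) (b := 1) (c := 3) (cn := .dn) (n1 := ndF3q3) (n2 := ndF7q3) (pc := pcF1) (cut := Cut.none) (xt := Ext.none) (P1 := 1610612736) (W1 := 536870912) (P2 := 0) (W2 := 1230186008) (P3 := 1046898278) (W3 := 26843546)
    rfl k0_pm_313

noncomputable def f_mm_001 : ℕ → ℕ → ℕ → ℕ → Bool := onCell 0 536870912 0 536870912 1046898278 26843546
    (rowFX 1 false false false .up 0 0 1 (qsf 0 536870912 536870912 536870912 0) ndF3q0 ndF7q1 pcF0 Cut.none Ext.none)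

def k0_mm_001 : ∃ t, chk3 f_mm_001 t 1 1 1 = true :=
  ⟨(l 3), by decide +kernel⟩

theorem c_mm_001 : CertFX 0 536870912 536870912 536870912 1046898278 26843546 false false false .up 0 0 1
    ndF3q0 ndF7q1 pcF0 Cut.none Ext.none :=
  certFX1 (fam := false) (s1 := false) (s2 := false) (a := 0) (b := 0) (c := 1) (cn := .up) (n1 := ndF3q0) (n2 := ndF7q1) (pc := pcF0) (cut := Cut.none) (xt := Ext.none) (P1 := 0) (W1 := 536870912) (P2 := 536870912) (W2 := 536870912) (P3 := 1046898278) (W3 := 26843546)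
    rfl (fun _ => rfl) k0_mm_001

noncomputable def f_mm_011 : ℕ → ℕ → ℕ → ℕ → Bool := onCell 0 536870912 536870912 536870912 1046898278 26843546
    (rowFX 1 false false false .pnn 0 1 1 (qsf 0 536870912 536870912 536870912 1) ndF3q0 ndF7q1 pcF1 Cut.none Ext.none)

def k0_mm_011 : ∃ t, chk3 f_mm_011 t 1 1 1 = true :=
  ⟨(l 5), by decide +kernel⟩

theorem c_mm_011 : CertFX 0 536870912 536870912 536870912 1046898278 26843546 false false false .pnn 0 1 1
    ndF3q0 ndF7q1 pcF1 Cut.none Ext.none :=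
  certFX1 (fam := false) (s1 := false) (s2 := false) (a := 0) (b := 1) (c := 1) (cn := .pnn) (n1 := ndF3q0) (n2 := ndF7q1) (pc := pcF1) (cut := Cut.none) (xt := Ext.none) (P1 := 0) (W1 := 536870912) (P2 := 536870912) (W2 := 536870912) (P3 := 1046898278) (W3 := 26843546)
    rfl (fun _ => rfl) k0_mm_011

noncomputable def f_mm_012 : ℕ → ℕ → ℕ → ℕ → Bool := onCell 0 536870912 1073741824 536870912 1046898278 26843546
    (rowFX 0 false false false .pnp 0 1 2 (qsf 0 536870912 1073741824 536870912 1) ndF3q0 ndF7q2 pcF1 Cut.none Ext.none)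

def k0_mm_012 : ∃ t, chk3 f_mm_012 t 1 1 1 = true :=
  ⟨(l 5), by decide +kernel⟩

theorem c_mm_012 : CertFX 0 536870912 1073741824 536870912 1046898278 26843546 false false false .pnp 0 1 2
    ndF3q0 ndF7q2 pcF1 Cut.none Ext.none :=
  certFX0 (fam := false) (s1 := false) (s2 := false) (a := 0) (b := 1) (c := 2) (cn := .pnp) (n1 := ndF3q0) (n2 := ndF7q2) (pc := pcF1) (cut := Cut.none) (xt := Ext.none) (P1 := 0) (W1 := 536870912) (P2 := 1073741824) (W2 := 536870912) (P3 := 1046898278) (W3 := 26843546)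
    rfl k0_mm_012

noncomputable def f_mm_022 : ℕ → ℕ → ℕ → ℕ → Bool := onCell 0 536870912 1073741824 536870912 1046898278 26843546
    (rowFX 0 false false false .pp 0 2 2 (qsf 0 536870912 1073741824 536870912 2) ndF3q0 ndF7q2 pcF2 Cut.none Ext.none)

def k0_mm_022 : ∃ t, chk3 f_mm_022 t 1 1 1 = true :=
  ⟨(l 5), by decide +kernel⟩

theorem c_mm_022 : CertFX 0 536870912 1073741824 536870912 1046898278 26843546 false false false .pp 0 2 2
    ndF3q0 ndF7q2 pcF2 Cut.none Ext.none :=
  certFX0 (fam := false) (s1 := false) (s2 := false) (a := 0) (b := 2) (c := 2) (cn := .pp) (n1 := ndF3q0) (n2 := ndF7q2) (pc := pcF2) (cut := Cut.none) (xt := Ext.none) (P1 := 0) (W1 := 536870912) (P2 := 1073741824) (W2 := 536870912) (P3 := 1046898278) (W3 := 26843546)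
    rfl k0_mm_022

noncomputable def f_mm_023 : ℕ → ℕ → ℕ → ℕ → Bool := onCell 0 536870912 0 1230186008 1046898278 26843546
    (rowFX 0 false false false .up 0 2 3 (qsf 0 536870912 0 1230186008 2) ndF3q0 ndF7q3 pcF2 Cut.none Ext.none)

def k0_mm_023 : ∃ t, chk3 f_mm_023 t 1 1 1 = true :=
  ⟨(l 5), by decide +kernel⟩

theorem c_mm_023 : CertFX 0 536870912 0 1230186008 1046898278 26843546 false false false .up 0 2 3
    ndF3q0 ndF7q3 pcF2 Cut.none Ext.none :=
  certFX0 (fam := false) (s1 := false) (s2 := false) (a := 0) (b := 2) (c := 3) (cn := .up) (n1 := ndF3q0) (n2 := ndF7q3) (pc := pcF2) (cut := Cut.none) (xt := Ext.none) (P1 := 0) (W1 := 536870912) (P2 := 0) (W2 := 1230186008) (P3 := 1046898278) (W3 := 26843546)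
    rfl k0_mm_023

noncomputable def f_mm_033 : ℕ → ℕ → ℕ → ℕ → Bool := onCell 0 536870912 0 1230186008 1046898278 26843546
    (rowFX 0 false false false .pnn 0 3 3 (qsf 0 536870912 0 1230186008 3) ndF3q0 ndF7q3 pcF3 Cut.none Ext.none)

def k0_mm_033 : ∃ t, chk3 f_mm_033 t 1 1 1 = true :=
  ⟨(l 5), by decide +kernel⟩

theorem c_mm_033 : CertFX 0 536870912 0 1230186008 1046898278 26843546 false false false .pnn 0 3 3
    ndF3q0 ndF7q3 pcF3 Cut.none Ext.none :=
  certFX0 (fam := false) (s1 := false) (s2 := false) (a := 0) (b := 3) (c := 3) (cn := .pnn) (n1 := ndF3q0) (n2 := ndF7q3) (pc := pcF3) (cut := Cut.none) (xt := Ext.none) (P1 := 0) (W1 := 536870912) (P2 := 0) (W2 := 1230186008) (P3 := 1046898278) (W3 := 26843546)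
    rfl k0_mm_033

noncomputable def f_mm_101 : ℕ → ℕ → ℕ → ℕ → Bool := onCell 536870912 536870912 536870912 536870912 1046898278 26843546
    (rowFX 0 false false false .npn 1 0 1 (qsf 536870912 536870912 536870912 536870912 0) ndF3q1 ndF7q1 pcF0 Cut.none Ext.none)

def k0_mm_101 : ∃ t, chk3 f_mm_101 t 1 1 1 = true :=
  ⟨(l 3), by decide +kernel⟩

theorem c_mm_101 : CertFX 536870912 536870912 536870912 536870912 1046898278 26843546 false false false .npn 1 0 1
    ndF3q1 ndF7q1 pcF0 Cut.none Ext.none :=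
  certFX0 (fam := false) (s1 := false) (s2 := false) (a := 1) (b := 0) (c := 1) (cn := .npn) (n1 := ndF3q1) (n2 := ndF7q1) (pc := pcF0) (cut := Cut.none) (xt := Ext.none) (P1 := 536870912) (W1 := 536870912) (P2 := 536870912) (W2 := 536870912) (P3 := 1046898278) (W3 := 26843546)
    rfl k0_mm_101

noncomputable def f_mm_102 : ℕ → ℕ → ℕ → ℕ → Bool := onCell 536870912 536870912 1073741824 536870912 1046898278 26843546
    (rowFX 0 false false false .npp 1 0 2 (qsf 536870912 536870912 1073741824 536870912 0) ndF3q1 ndF7q2 pcF0 Cut.none Ext.none)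

def k0_mm_102 : ∃ t, chk3 f_mm_102 t 1 1 1 = true :=
  ⟨(l 3), by decide +kernel⟩

theorem c_mm_102 : CertFX 536870912 536870912 1073741824 536870912 1046898278 26843546 false false false .npp 1 0 2
    ndF3q1 ndF7q2 pcF0 Cut.none Ext.none :=
  certFX0 (fam := false) (s1 := false) (s2 := false) (a := 1) (b := 0) (c := 2) (cn := .npp) (n1 := ndF3q1) (n2 := ndF7q2) (pc := pcF0) (cut := Cut.none) (xt := Ext.none) (P1 := 536870912) (W1 := 536870912) (P2 := 1073741824) (W2 := 536870912) (P3 := 1046898278) (W3 := 26843546)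
    rfl k0_mm_102

noncomputable def f_mm_112 : ℕ → ℕ → ℕ → ℕ → Bool := onCell 536870912 536870912 1073741824 536870912 1046898278 26843546
    (rowFX 0 false false false .dn 1 1 2 (qsf 536870912 536870912 1073741824 536870912 1) ndF3q1 ndF7q2 pcF1 Cut.none Ext.none)

def k0_mm_112 : ∃ t, chk3 f_mm_112 t 1 1 1 = true :=
  ⟨(l 3), by decide +kernel⟩

theorem c_mm_112 : CertFX 536870912 536870912 1073741824 536870912 1046898278 26843546 false false false .dn 1 1 2
    ndF3q1 ndF7q2 pcF1 Cut.none Ext.none :=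
  certFX0 (fam := false) (s1 := false) (s2 := false) (a := 1) (b := 1) (c := 2) (cn := .dn) (n1 := ndF3q1) (n2 := ndF7q2) (pc := pcF1) (cut := Cut.none) (xt := Ext.none) (P1 := 536870912) (W1 := 536870912) (P2 := 1073741824) (W2 := 536870912) (P3 := 1046898278) (W3 := 26843546)
    rfl k0_mm_112

noncomputable def f_mm_113 : ℕ → ℕ → ℕ → ℕ → Bool := onCell 536870912 536870912 0 1230186008 1046898278 26843546
    (rowFX 0 false false false .nn 1 1 3 (qsf 536870912 536870912 0 1230186008 1) ndF3q1 ndF7q3 pcF1 Cut.none Ext.none)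

def k0_mm_113 : ∃ t, chk3 f_mm_113 t 1 1 1 = true :=
  ⟨(l 5), by decide +kernel⟩

theorem c_mm_113 : CertFX 536870912 536870912 0 1230186008 1046898278 26843546 false false false .nn 1 1 3
    ndF3q1 ndF7q3 pcF1 Cut.none Ext.none :=
  certFX0 (fam := false) (s1 := false) (s2 := false) (a := 1) (b := 1) (c := 3) (cn := .nn) (n1 := ndF3q1) (n2 := ndF7q3) (pc := pcF1) (cut := Cut.none) (xt := Ext.none) (P1 := 536870912) (W1 := 536870912) (P2 := 0) (W2 := 1230186008) (P3 := 1046898278) (W3 := 26843546)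
    rfl k0_mm_113

noncomputable def f_mm_123 : ℕ → ℕ → ℕ → ℕ → Bool := onCell 536870912 536870912 0 1230186008 1046898278 26843546
    (rowFX 0 false false false .npn 1 2 3 (qsf 536870912 536870912 0 1230186008 2) ndF3q1 ndF7q3 pcF2 Cut.none Ext.none)

def k0_mm_123 : ∃ t, chk3 f_mm_123 t 1 1 1 = true :=
  ⟨(l 5), by decide +kernel⟩

theorem c_mm_123 : CertFX 536870912 536870912 0 1230186008 1046898278 26843546 false false false .npn 1 2 3
    ndF3q1 ndF7q3 pcF2 Cut.none Ext.none :=
  certFX0 (fam := false) (s1 := false) (s2 := false) (a := 1) (b := 2) (c := 3) (cn := .npn) (n1 := ndF3q1) (n2 := ndF7q3) (pc := pcF2) (cut := Cut.none) (xt := Ext.none) (P1 := 536870912) (W1 := 536870912) (P2 := 0) (W2 := 1230186008) (P3 := 1046898278) (W3 := 26843546)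
    rfl k0_mm_123

noncomputable def f_mm_133 : ℕ → ℕ → ℕ → ℕ → Bool := onCell 536870912 536870912 0 1230186008 1046898278 26843546
    (rowFX 0 false false false .dn 1 3 3 (qsf 536870912 536870912 0 1230186008 3) ndF3q1 ndF7q3 pcF3 Cut.none Ext.none)

def k0_mm_133 : ∃ t, chk3 f_mm_133 t 1 1 1 = true :=
  ⟨(l 5), by decide +kernel⟩

theorem c_mm_133 : CertFX 536870912 536870912 0 1230186008 1046898278 26843546 false false false .dn 1 3 3
    ndF3q1 ndF7q3 pcF3 Cut.none Ext.none :=
  certFX0 (fam := false) (s1 := false) (s2 := false) (a := 1) (b := 3) (c := 3) (cn := .dn) (n1 := ndF3q1) (n2 := ndF7q3) (pc := pcF3) (cut := Cut.none) (xt := Ext.none) (P1 := 536870912) (W1 := 536870912) (P2 := 0) (W2 := 1230186008) (P3 := 1046898278) (W3 := 26843546)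
    rfl k0_mm_133

noncomputable def cut_mm_202 : Cut := Cut.of [[⟨0, 1, 0, 67108864⟩, ⟨1, 0, 0, 67108864⟩, ⟨2, 1, 0, 67108864⟩]]

noncomputable def f_mm_202 : ℕ → ℕ → ℕ → ℕ → Bool := onCell 1073741824 536870912 0 536870912 1046898278 26843546
    (rowFX 1 false false false .pp 2 0 2 (qsf 1073741824 536870912 1073741824 536870912 0) ndF3q2 ndF7q2 pcF0 cut_mm_202 Ext.none)

def k0_mm_202 : ∃ t, chk3 f_mm_202 t 1 1 1 = true :=
  ⟨(a (b (b (a (b (b (b (a (a (l 6) (l 3)) (l 3)) (l 3)) (l 3)) (l 3)) (l 3)) (l 3)) (l 3)) (b (l 3) (b (l 3) (l 2)))), by decide +kernel⟩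

theorem c_mm_202 : CertFX 1073741824 536870912 1073741824 536870912 1046898278 26843546 false false false .pp 2 0 2
    ndF3q2 ndF7q2 pcF0 cut_mm_202 Ext.none :=
  certFX1 (fam := false) (s1 := false) (s2 := false) (a := 2) (b := 0) (c := 2) (cn := .pp) (n1 := ndF3q2) (n2 := ndF7q2) (pc := pcF0) (cut := cut_mm_202) (xt := Ext.none) (P1 := 1073741824) (W1 := 536870912) (P2 := 1073741824) (W2 := 536870912) (P3 := 1046898278) (W3 := 26843546)
    rfl (fun _ => rfl) k0_mm_202

noncomputable def f_mm_203 : ℕ → ℕ → ℕ → ℕ → Bool := onCell 0 536870912 0 1230186008 1046898278 26843546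
    (rowFX 2 false false false .up 2 0 3 (qsf 1073741824 536870912 0 1230186008 0) ndF3q2 ndF7q3 pcF0 Cut.none Ext.none)

def k0_mm_203 : ∃ t, chk3 f_mm_203 t 1 1 1 = true :=
  ⟨(b (l 3) (l 3)), by decide +kernel⟩

theorem c_mm_203 : CertFX 1073741824 536870912 0 1230186008 1046898278 26843546 false false false .up 2 0 3
    ndF3q2 ndF7q3 pcF0 Cut.none Ext.none :=
  certFX2 (fam := false) (s1 := false) (s2 := false) (a := 2) (b := 0) (c := 3) (cn := .up) (n1 := ndF3q2) (n2 := ndF7q3) (pc := pcF0) (cut := Cut.none) (xt := Ext.none) (P1 := 1073741824) (W1 := 536870912) (P2 := 0) (W2 := 1230186008) (P3 := 1046898278) (W3 := 26843546)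
    rfl (fun _ => rfl) k0_mm_203

noncomputable def f_mm_213 : ℕ → ℕ → ℕ → ℕ → Bool := onCell 1073741824 536870912 0 1230186008 1046898278 26843546
    (rowFX 0 false false false .pnn 2 1 3 (qsf 1073741824 536870912 0 1230186008 1) ndF3q2 ndF7q3 pcF1 Cut.none Ext.none)

def k0_mm_213 : ∃ t, chk3 f_mm_213 t 1 1 1 = true :=
  ⟨(b (a (l 5) (l 3)) (l 3)), by decide +kernel⟩

theorem c_mm_213 : CertFX 1073741824 536870912 0 1230186008 1046898278 26843546 false false false .pnn 2 1 3
    ndF3q2 ndF7q3 pcF1 Cut.none Ext.none :=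
  certFX0 (fam := false) (s1 := false) (s2 := false) (a := 2) (b := 1) (c := 3) (cn := .pnn) (n1 := ndF3q2) (n2 := ndF7q3) (pc := pcF1) (cut := Cut.none) (xt := Ext.none) (P1 := 1073741824) (W1 := 536870912) (P2 := 0) (W2 := 1230186008) (P3 := 1046898278) (W3 := 26843546)
    rfl k0_mm_213

noncomputable def f_mm_303 : ℕ → ℕ → ℕ → ℕ → Bool := onCell 0 536870912 0 1230186008 1046898278 26843546
    (rowFX 2 false false false .npn 3 0 3 (qsf 1610612736 536870912 0 1230186008 0) ndF3q3 ndF7q3 pcF0 Cut.none Ext.none)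

def k0_mm_303 : ∃ t, chk3 f_mm_303 t 1 1 1 = true :=
  ⟨(b (l 3) (l 3)), by decide +kernel⟩

theorem c_mm_303 : CertFX 1610612736 536870912 0 1230186008 1046898278 26843546 false false false .npn 3 0 3
    ndF3q3 ndF7q3 pcF0 Cut.none Ext.none :=
  certFX2 (fam := false) (s1 := false) (s2 := false) (a := 3) (b := 0) (c := 3) (cn := .npn) (n1 := ndF3q3) (n2 := ndF7q3) (pc := pcF0) (cut := Cut.none) (xt := Ext.none) (P1 := 1610612736) (W1 := 536870912) (P2 := 0) (W2 := 1230186008) (P3 := 1046898278) (W3 := 26843546)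
    rfl (fun _ => rfl) k0_mm_303

noncomputable def f_mm_313 : ℕ → ℕ → ℕ → ℕ → Bool := onCell 1610612736 536870912 0 1230186008 1046898278 26843546
    (rowFX 0 false false false .dn 3 1 3 (qsf 1610612736 536870912 0 1230186008 1) ndF3q3 ndF7q3 pcF1 Cut.none Ext.none)

def k0_mm_313 : ∃ t, chk3 f_mm_313 t 1 1 1 = true :=
  ⟨(b (l 3) (l 1)), by decide +kernel⟩

theorem c_mm_313 : CertFX 1610612736 536870912 0 1230186008 1046898278 26843546 false false false .dn 3 1 3
    ndF3q3 ndF7q3 pcF1 Cut.none Ext.none :=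
  certFX0 (fam := false) (s1 := false) (s2 := false) (a := 3) (b := 1) (c := 3) (cn := .dn) (n1 := ndF3q3) (n2 := ndF7q3) (pc := pcF1) (cut := Cut.none) (xt := Ext.none) (P1 := 1610612736) (W1 := 536870912) (P2 := 0) (W2 := 1230186008) (P3 := 1046898278) (W3 := 26843546)
    rfl k0_mm_313

end Pool.Agent.Strip051.G.IE1.Tab.C.FB37

namespace Pool.Agent.Strip051.G.IE1.Tab.C.FB40

open Pool.Agent.Strip051.PB Pool.Agent.Strip051.PB.T
open Pool.Agent.Strip051.G.IE1.Tab

noncomputable def f_pp_001 : ℕ → ℕ → ℕ → ℕ → Bool := onCell 0 67108864 0 536870912 1046898278 26843546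
    (rowFX 1 false true true .up 0 0 1 (qsf 0 67108864 536870912 536870912 0) ndF4q0 ndF0q1 pcF0 Cut.none Ext.none)

def k0_pp_001 : ∃ t, chk3 f_pp_001 t 1 1 1 = true :=
  ⟨(l 3), by decide +kernel⟩

theorem c_pp_001 : CertFX 0 67108864 536870912 536870912 1046898278 26843546 false true true .up 0 0 1
    ndF4q0 ndF0q1 pcF0 Cut.none Ext.none :=
  certFX1 (fam := false) (s1 := true) (s2 := true) (a := 0) (b := 0) (c := 1) (cn := .up) (n1 := ndF4q0) (n2 := ndF0q1) (pc := pcF0) (cut := Cut.none) (xt := Ext.none) (P1 := 0) (W1 := 67108864) (P2 := 536870912) (W2 := 536870912) (P3 := 1046898278) (W3 := 26843546)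
    rfl (fun _ => rfl) k0_pp_001

noncomputable def cut_pp_011 : Cut := Cut.of [[⟨0, 0, 0, 67108864⟩, ⟨1, 1, 0, 67108864⟩, ⟨2, 1, 0, 67108864⟩, ⟨3, 0, 0, 1233125376⟩]]

noncomputable def f_pp_011 : ℕ → ℕ → ℕ → ℕ → Bool := onCell 0 67108864 536870912 536870912 1046898278 26843546
    (rowFX 0 false true true .pnn 0 1 1 (qsf 0 67108864 536870912 536870912 1) ndF4q0 ndF0q1 pcF1 cut_pp_011 Ext.none)

def k0_pp_011 : ∃ t, chk3 f_pp_011 t 1 1 1 = true :=
  ⟨(b (l 3) (b (l 3) (b (l 3) (b (l 3) (b (a (l 3) (l 3)) (a (l 6) (a (b (b (b (b (l 3) (l 6)) (l 6)) (l 6)) (l 6)) (c (c (b (a (c (l 90359630471) (b (l 15344704) (l 15407952))) (c (a (l 15446760) (l 15435064)) (l 15354296))) (a (l 15576272) (c (l 15559368) (l 15471800)))) (b (a (b (l 3) (l 15253624)) (l 87674520999)) (a (l 15369256) (l 15334096)))) (b (l 3) (c (b (a (l 15109400) (l 15114384)) (l 15188456)) (b (l 3) (c (l 15035000) (l 14911832))))))))))))), by decide +kernel⟩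

theorem c_pp_011 : CertFX 0 67108864 536870912 536870912 1046898278 26843546 false true true .pnn 0 1 1
    ndF4q0 ndF0q1 pcF1 cut_pp_011 Ext.none :=
  certFX0 (fam := false) (s1 := true) (s2 := true) (a := 0) (b := 1) (c := 1) (cn := .pnn) (n1 := ndF4q0) (n2 := ndF0q1) (pc := pcF1) (cut := cut_pp_011) (xt := Ext.none) (P1 := 0) (W1 := 67108864) (P2 := 536870912) (W2 := 536870912) (P3 := 1046898278) (W3 := 26843546)
    rfl k0_pp_011

noncomputable def cut_pp_012 : Cut := Cut.of [[⟨0, 0, 0, 67108864⟩, ⟨1, 1, 0, 67108864⟩, ⟨2, 1, 0, 67108864⟩, ⟨3, 0, 0, 1233125376⟩]]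

noncomputable def f_pp_012 : ℕ → ℕ → ℕ → ℕ → Bool := onCell 536870912 536870912 0 536870912 1046898278 26843546
    (rowFX 2 false true true .pnp 0 1 2 (qsf 0 67108864 0 536870912 1) ndF4q0 ndF0q2 pcF1 cut_pp_012 Ext.none)

def k0_pp_012 : ∃ t, chk3 f_pp_012 t 2 1 1 = true :=
  ⟨(l 2), by decide +kernel⟩

def k1_pp_012 : ∃ t, chk3 f_pp_012 t 3 1 1 = true :=
  ⟨(b (l 2) (a (l 2) (b (l 2) (a (b (l 2) (a (l 2) (a (l 2) (a (l 2) (b (l 2) (b (l 2) (b (l 2) (b (l 2) (c (l 15496008) (l 15196992)))))))))) (b (a (l 2) (a (b (l 2) (b (l 2) (c (c (a (l 16656952) (l 16689264)) (a (l 16667128) (l 16697072))) (a (l 16679672) (l 16714792))))) (b (a (l 2) (b (l 2) (c (c (l 16628048) (l 16641760)) (c (l 16607488) (a (l 16629544) (l 16581776)))))) (a (c (c (b (l 16727856) (l 16734456)) (b (l 16722440) (l 16728728))) (c (b (l 16688560) (l 16680696)) (l 16632320))) (c (b (c (l 16666576) (l 16672280)) (l 16591432)) (c (b (l 16658880) (l 16702336)) (b (a (l 16657848) (l 16609808)) (a (l 16699272)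 (c (l 16677816) (l 16648048)))))))))) (a (a (b (l 2) (b (a (l 2) (c (c (b (l 16138232) (l 16011448)) (l 15825432)) (b (l 15998928) (l 15804368)))) (b (c (c (a (l 15799208) (a (l 15858112) (l 6))) (l 15718368)) (c (a (l 15575440) (l 15635176)) (l 15481680))) (a (c (c (a (l 15644640) (l 15678376)) (l 15507376)) (c (l 15348384) (l 15190192))) (l 6))))) (a (b (b (l 2) (c (c (l 16413336) (l 16394784)) (l 16353160))) (b (b (c (c (l 16241976) (l 16196736)) (l 16109848)) (l 6)) (l 6))) (b (c (b (c (l 16611592) (l 16613600)) (c (b (l 16571976) (l 16480920)) (l 16523944))) (b (l 16625208) (l 16504384))) (l 6)))) (b (b (c (a (a (c (c (l 16597488) (l 16635952)) (l 16644016)) (c (l 16681856) (l 16650632))) (a (c (l 16734936) (l 16664576)) (c (l 16695064) (l 16699216)))) (c (a (l 16627992) (b (a (l 16721304) (l 16738648)) (l 6))) (a (l 16659368) (l 6)))) (l 6)) (l 6)))))))), by decide +kernel⟩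

theorem s2_pp_012 : ∃ t, chk3 f_pp_012 t 1 1 1 = true := ex3_a k0_pp_012 k1_pp_012

theorem c_pp_012 : CertFX 0 67108864 0 536870912 1046898278 26843546 false true true .pnp 0 1 2
    ndF4q0 ndF0q2 pcF1 cut_pp_012 Ext.none :=
  certFX2 (fam := false) (s1 := true) (s2 := true) (a := 0) (b := 1) (c := 2) (cn := .pnp) (n1 := ndF4q0) (n2 := ndF0q2) (pc := pcF1) (cut := cut_pp_012) (xt := Ext.none) (P1 := 0) (W1 := 67108864) (P2 := 0) (W2 := 536870912) (P3 := 1046898278) (W3 := 26843546)
    rfl (fun _ => rfl) s2_pp_012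

end Pool.Agent.Strip051.G.IE1.Tab.C.FB40

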