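import Pool.Agent.Strip051.G.IE1.Tab

/-! # Certificates F49 (generated) -/

set_option linter.all false
set_option maxRecDepth 100000

namespace Pool.Agent.Strip051.G.IE1.Tab.C.FB40

open Pool.Agent.Strip051.PB Pool.Agent.Strip051.PB.T
open Pool.Agent.Strip051.G.IE1.Tab

noncomputable def cut_pp_022 : Cut := Cut.of [[⟨0, 0, 0, 67108864⟩, ⟨1, 1, 0, 67108864⟩, ⟨2, 1, 0, 67108864⟩, ⟨3, 0, 0, 1233125376⟩]]

noncomputable def f_pp_022 : ℕ → ℕ → ℕ → ℕ → Bool := onCell 0 67108864 0 536870912 1046898278 26843546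
    (rowFX 0 false true true .pp 0 2 2 (qsf 0 67108864 0 536870912 2) ndF4q0 ndF0q2 pcF2 cut_pp_022 Ext.none)

def k0_pp_022 : ∃ t, chk3 f_pp_022 t 2 8 1 = true :=
  ⟨(a (c (a (b (c (l 16139280) (l 16114048)) (c (l 16212440) (a (l 16198792) (c (l 16350088) (l 16323648))))) (a (c (b (c (l 16336448) (l 16367768)) (a (l 16459888) (l 16372648))) (c (l 16269960) (l 16404632))) (a (b (c (b (l 16435808) (l 16457992)) (l 16432960)) (c (b (l 16411216) (a (l 16407952) (l 16382304))) (b (l 16470800) (l 16433792)))) (b (c (b (a (l 16455808) (l 16455944)) (l 16421752)) (b (l 16448048) (l 16464104))) (b (c (l 16429392) (l 16469720)) (l 16377936)))))) (a (c (a (b (l 16142680) (l 16195800)) (b (l 16197736) (l 16210280))) (a (c (l 16096360) (l 15983648)) (b (l 16236344) (l 16291784)))) (a (c (b (l 16326952) (l 16382784)) (l 16265088)) (b (c (a (l 16424728) (l 16410256)) (l 16328864)) (b (a (l 16383160) (l 16440792)) (c (l 16346784) (l 16429288))))))) (c (b (b (c (a (c (l 16420112) (l 16398616))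 (l 16393080)) (a (l 16450424) (l 16480728))) (c (a (c (l 16446816) (l 16449912)) (c (l 16400064) (l 16445808))) (l 16454824))) (c (a (c (l 16461744) (l 16464696)) (c (l 16432336) (l 16458808))) (c (l 16476816) (l 16483792)))) (c (b (l 16439896) (l 16464152)) (l 16447384)))), by decide +kernel⟩

def k1_pp_022 : ∃ t, chk3 f_pp_022 t 2 9 1 = true :=
  ⟨(a (c (a (b (c (l 16228512) (l 16163480)) (a (l 16282408) (a (b (l 16470464) (l 16439176)) (b (l 16347592) (c (l 16331240) (a (l 16372728) (l 16360608))))))) (b (a (a (c (l 16374288) (l 16347928)) (b (c (a (l 16414200) (l 16328944)) (l 16441792)) (c (a (b (l 16383312) (l 16370088)) (l 16351904)) (l 16415872)))) (b (a (c (l 16307680) (l 16438576)) (l 16375096)) (c (l 16404536) (l 16446144)))) (a (b (a (c (b (l 16385544) (l 16374672)) (c (l 16323888) (l 16405520))) (c (l 16373904) (l 16410440))) (c (l 16380480) (l 16405344))) (c (l 16391528) (l 16454728))))) (a (b (c (a (l 16277032) (c (l 16409896) (l 16388872))) (a (c (l 16266992)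 (l 16218152)) (l 16354904))) (a (c (l 16346592) (c (l 16338080) (l 16290264))) (c (b (l 16394224) (a (l 16443480) (c (l 16407448) (l 16428544)))) (b (l 16457712) (a (l 16458912) (l 16425048)))))) (b (a (c (b (l 16419864) (a (l 16466072) (l 16438600))) (b (l 16471480) (l 16354280))) (c (b (l 16440688) (l 16439632)) (l 16418648))) (b (a (c (a (l 16347888) (l 16433248)) (l 16417384)) (l 16443176)) (c (l 16437944) (l 16423968)))))) (c (c (a (b (c (l 16482776) (l 16477368)) (c (l 16471568) (l 16480600))) (b (l 16446400) (l 16458088))) (c (b (l 16488464) (l 16490504)) (l 16486272))) (c (b (l 16460424) (l 16471504)) (b (l 16455072) (l 16466472))))), by decide +kernel⟩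

def k2_pp_022 : ∃ t, chk3 f_pp_022 t 3 4 1 = true :=
  ⟨(b (c (b (a (c (b (l 16446584) (a (l 16431544) (l 16456784))) (b (a (l 16507856) (l 16502816)) (a (l 16510168) (l 16515728)))) (c (c (l 16428184) (a (l 16497536) (l 16485856))) (b (l 16495168) (a (l 16523656) (l 16529328))))) (a (c (b (a (l 16475464) (l 16471856)) (l 16498920)) (l 16510344)) (c (b (a (c (l 16501096) (l 16530520)) (c (b (l 16524832) (l 16541680)) (l 16537304))) (c (a (l 16542112) (l 16548488)) (l 16542616))) (b (a (l 16531848) (l 16548664)) (l 16541728))))) (b (a (c (b (l 16513352) (l 16512664)) (l 16510104)) (b (c (l 16528224) (l 16535944)) (c (l 16525704) (l 16530008)))) (c (a (l 16504496) (l 16548984)) (l 16528888)))) (c (c (a (b (l 16461504) (l 16459664)) (a (b (l 16523504) (l 16527344)) (c (b (l 16554136) (l 16568696)) (l 16539824)))) (a (b (l 16509832) (l 16503024)) (b (l 16545760) (l 16559672)))) (c (b (l 16477784) (a (l 16518592) (l 16545904))) (b (l 16534360) (l 16529552))))), by decide +kernel⟩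

def k3_pp_022 : ∃ t, chk3 f_pp_022 t 2 5 1 = true :=
  ⟨(b (a (a (b (c (a (b (l 16373416) (a (b (l 16460336) (l 16434488)) (l 16351984))) (b (a (b (l 16382128) (l 16395368)) (l 16389792)) (l 16406360))) (a (c (b (l 16429032) (a (l 16440456) (l 16406168))) (b (a (l 16454584) (l 16316240)) (a (c (l 16436224) (l 16333344)) (c (l 16412656) (l 16417960))))) (c (a (b (b (l 16406368) (l 16398472)) (l 16408880)) (l 16416432)) (b (a (l 16363888) (l 16421320)) (l 16429944))))) (c (b (a (l 16430224) (l 16425552)) (l 16451312)) (c (a (b (l 16421472) (l 16444840)) (l 16367776)) (a (a (b (l 16417480) (l 16440976)) (l 16436424)) (l 16463288))))) (c (c (b (a (l 16378176) (l 16414792)) (a (l 16395888) (l 16454760))) (c (a (l 16349248) (l 16494944)) (a (l 16455120) (l 16467936)))) (c (b (l 16458520) (l 16458480)) (l 16445816)))) (c (c (a (c (l 16335184) (a (l 16457704) (l 16398032))) (b (l 16448736) (l 16406520))) (a (b (l 16485464) (l 16444608)) (l 16407272))) (c (a (l 16445104) (l 16459656))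 (l 16454664)))) (c (b (a (a (c (l 16497016) (l 16473320)) (c (a (l 16431840) (l 16465192)) (c (l 16421184) (l 16404680)))) (c (a (a (l 16414840) (c (l 16405672) (l 16396920))) (l 16350872)) (c (l 16342704) (l 16447992)))) (a (a (c (l 16492120) (l 16469944)) (c (a (l 16434928) (l 16419080)) (c (l 16353592) (l 16336376)))) (a (c (c (l 16330160) (l 16289144)) (l 16298872)) (c (c (l 16329992) (l 16354392)) (l 16393176))))) (a (c (a (c (b (l 16456488) (l 16418728)) (a (l 16484528) (b (l 16509960) (l 16462920)))) (b (l 16414248) (l 16344872))) (a (c (a (b (l 16494384) (l 16474080)) (l 16432688)) (a (a (l 16370000) (l 16485704)) (l 16480216))) (l 16380928))) (c (b (l 16469872) (l 16418120)) (b (l 16470352) (l 16417128)))))), by decide +kernel⟩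

def k4_pp_022 : ∃ t, chk3 f_pp_022 t 3 5 1 = true :=
  ⟨(b (b (c (a (c (l 16447216) (l 16507200)) (c (a (l 16511936) (c (l 16489720) (l 16554640))) (l 16480448))) (a (l 16504464) (c (l 16528968) (l 16514440)))) (c (a (c (l 16422856) (l 16440056)) (c (a (c (l 16497472) (l 16516504)) (c (a (l 16504816) (l 16550560)) (l 16540040))) (a (l 16514512) (l 16487008)))) (a (l 16456992) (c (a (l 16498608) (l 16513904)) (l 16471592))))) (c (a (b (c (b (l 16438280) (l 16415736)) (c (l 16441400) (l 16471352))) (c (a (l 16342032) (b (l 16406544) (l 16386736))) (a (l 16388304) (b (l 16436184) (l 16415208))))) (b (c (a (b (c (l 16473240) (l 16491816)) (c (l 16460448) (l 16478576))) (c (l 16486584) (l 16529080))) (a (b (l 16489136) (l 16475216)) (l 16516600))) (c (a (c (l 16444712) (l 16461888)) (c (a (l 16496008) (l 16524672)) (l 16508048))) (a (l 16457072) (l 16493600))))) (a (b (c (l 16465384) (l 16446720)) (c (a (l 16414456) (l 16414624)) (l 16396448))) (b (c (a (l 16466936) (l 16499664))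 (l 16425288)) (c (l 16434120) (l 16435216)))))), by decide +kernel⟩

def k5_pp_022 : ∃ t, chk3 f_pp_022 t 2 12 1 = true :=
  ⟨(a (c (a (b (c (l 16431432) (l 16365560)) (c (l 16350904) (l 16282880))) (c (a (b (c (l 16465224) (l 16411576)) (c (l 16383568) (l 16370800))) (b (l 16334624) (l 16293296))) (b (a (l 16327496) (l 16286808)) (c (l 16225960) (l 16164832))))) (c (c (a (b (l 16333976) (l 16228712)) (b (l 16333776) (l 16268240))) (a (a (l 16313368) (a (l 16304152) (l 16293512))) (l 16191416))) (a (a (b (c (l 16388120) (l 16339488)) (c (l 16323176) (l 16252480))) (c (l 16278392) (l 16345072))) (b (l 16371648) (l 16282392))))) (c (b (c (a (c (l 16265472) (a (l 16324656) (l 16282128))) (c (a (l 16259968) (l 16266968)) (l 16287784))) (a (c (l 16284232) (l 16321272)) (l 16304216))) (c (a (a (l 16177440) (c (l 16128184) (l 16158560))) (b (c (l 16210680) (l 16233160)) (l 16187376))) (a (c (a (l 16221528) (l 16216832)) (l 16236856)) (l 16209592)))) (b (c (b (l 16368208) (l 16329224))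 (l 16346168)) (c (a (l 16266152) (l 16253944)) (l 16220912))))), by decide +kernel⟩

def k6_pp_022 : ∃ t, chk3 f_pp_022 t 2 13 1 = true :=
  ⟨(a (c (a (b (c (l 16295760) (b (l 16286472) (l 16291048))) (c (l 16308648) (l 16298864))) (b (c (a (b (l 16315440) (l 16323800)) (b (l 16278256) (l 16290448))) (a (b (l 16266600) (l 16273864)) (b (l 16205432) (l 16216016)))) (c (a (l 16336600) (l 16302112)) (a (l 16283464) (l 16224384))))) (b (a (c (a (l 16275600) (c (l 16276000) (l 16251760))) (a (c (l 16262816) (a (l 16258976) (l 16246864))) (c (l 16236624) (l 16238832)))) (c (b (a (l 16217632) (l 16200176)) (l 16221336)) (l 16223160))) (a (c (b (a (l 16281968) (l 16269952)) (a (b (l 16283088) (c (l 16281304) (l 16271032))) (c (l 16284440) (a (l 16266912) (l 16238536))))) (b (a (c (l 16268208) (c (l 16261152) (l 16192032))) (l 16239616)) (a (c (a (l 16256928) (b (l 16264040) (l 16250840))) (a (c (l 16241792) (l 16228232)) (l 16187800))) (c (l 16149800) (l 16228312))))) (c (l 16184872)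 (b (l 16229184) (b (l 16226712) (a (c (l 16228288) (l 16220632)) (l 16217728)))))))) (c (b (c (a (b (a (l 16209424) (l 16122544)) (l 16141280)) (b (l 16162464) (l 16173040))) (a (b (c (l 16169984) (l 16183544)) (l 16190600)) (l 16209296))) (a (c (a (l 16232912) (l 16184944)) (l 16196120)) (c (l 16178128) (l 16215000)))) (b (c (b (l 16214040) (l 16222000)) (b (l 16205264) (l 16211224))) (c (a (l 16222272) (l 16229688)) (l 16208024))))), by decide +kernel⟩

def k7_pp_022 : ∃ t, chk3 f_pp_022 t 3 6 1 = true :=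
  ⟨(b (c (a (b (c (a (b (l 16319048) (l 16292344)) (b (l 16368800) (l 16346480))) (a (b (l 16363808) (l 16335560)) (c (l 16386568) (l 16384712)))) (c (b (l 16247504) (l 16252768)) (a (l 16225000) (c (l 16323568) (l 16319632))))) (b (c (a (c (l 16408216) (l 16423768)) (c (b (l 16479672) (l 16452000)) (l 16464000))) (c (l 16394568) (l 16425232))) (c (a (c (l 16343616) (l 16357120)) (c (b (l 16417072) (l 16332224)) (l 16391816))) (a (l 16346696) (l 16308784))))) (b (a (c (b (l 16375096) (l 16346240)) (l 16297256)) (c (l 16366120) (l 16384696))) (a (c (l 16272408) (l 16266064)) (c (b (l 16353976) (l 16307192)) (l 16282584))))) (c (a (b (c (b (l 16160824) (l 16230408)) (b (a (l 16238536) (l 16266680)) (a (l 16244600) (l 16270192)))) (c (b (l 16232400) (l 16226760)) (a (l 16242792) (l 16264856)))) (b (c (a (b (c (l 16290424) (l 16302232)) (l 16297864)) (b (c (a (l 16330216) (l 16351328)) (l 16333032)) (c (l 16340184) (l 16333072)))) (b (a (l 16289224) (l 16310328)) (a (l 16290240)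 (l 16308928)))) (c (a (b (l 16296328) (l 16287392)) (c (b (l 16336888) (l 16326416)) (l 16323432))) (a (l 16281480) (l 16296848))))) (b (a (b (c (l 16238432) (l 16207536)) (c (l 16241248) (l 16208352))) (b (c (l 16268288) (l 16237008)) (c (l 16266128) (l 16232856)))) (a (c (l 16234304) (l 16197968)) (b (c (l 16259208) (l 16223736)) (c (l 16244512) (l 16206616))))))), by decide +kernel⟩

def k8_pp_022 : ∃ t, chk3 f_pp_022 t 2 28 2 = true :=
  ⟨(c (a (a (b (c (l 16308752) (b (l 16305752) (a (l 16286432) (l 16312296)))) (b (c (a (b (l 16288544) (l 16281560)) (l 16309272)) (a (l 16272720) (l 16300904))) (c (a (l 16267336) (l 16297280)) (l 16221856)))) (b (l 16266336) (a (c (l 16283888) (b (l 16229368) (l 16238808))) (b (l 16284256) (l 16271840))))) (a (b (l 16203968) (a (b (l 16212552) (l 16200632)) (l 16156304))) (l 16156192))) (a (a (b (a (b (l 16281520) (c (l 16276848) (l 16262832))) (b (c (l 16312200) (l 16299584)) (c (l 16303488) (l 16288536)))) (a (b (l 16244144) (l 16221584))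 (c (l 16281608) (l 16262328)))) (b (a (c (l 16296840) (l 16252968)) (l 16214096)) (c (a (b (l 16281936) (l 16269144)) (l 16164424)) (a (l 16230664) (l 16173440))))) (b (l 16191288) (a (c (b (l 16161968) (a (l 16149800) (l 16143920))) (b (l 16170376) (l 16157272))) (b (l 16182568) (c (l 16161256) (l 16177912))))))), by decide +kernel⟩

def k9_pp_022 : ∃ t, chk3 f_pp_022 t 2 28 3 = true :=
  ⟨(a (c (a (b (a (b (l 16215016) (l 16227496)) (c (b (a (l 16286456) (l 16268720)) (l 16258576)) (b (a (l 16252032) (l 16224760)) (l 16215712)))) (a (c (l 16202576) (l 16181568)) (c (l 16223464) (l 16163712)))) (b (b (c (l 16192712) (l 16210120)) (a (a (l 16208048) (l 16195240)) (l 16191768))) (a (c (l 16187696) (l 16165000)) (b (l 16179328) (l 16166352))))) (a (b (a (c (a (l 16196632) (l 16139680)) (a (c (l 16173416) (l 16157704)) (l 16167224))) (c (b (l 16212416) (l 16182504)) (l 16178696))) (a (c (a (l 16149304) (l 16158304)) (a (c (l 16128848) (l 16114992)) (l 16126952))) (c (l 16154824)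 (l 16142120)))) (b (c (b (l 16213424) (l 16195232)) (b (l 16199136) (l 16179688))) (c (l 16173576) (l 16158984))))) (c (c (b (l 16207040) (a (l 16181064) (b (l 16197944) (l 16184184)))) (b (a (l 16187640) (l 16206232)) (a (b (l 16193168) (l 16180912)) (l 16160944)))) (b (a (b (l 16197320) (c (l 16194992) (l 16174880))) (b (l 16183584) (l 16172568))) (a (b (l 16171712) (l 16168552)) (b (l 16159664) (l 16150752)))))), by decide +kernel⟩

def k10_pp_022 : ∃ t, chk3 f_pp_022 t 3 28 1 = true :=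
  ⟨(a (c (c (b (l 16212752) (l 16189592)) (b (l 16229128) (l 16203120))) (b (l 16191472) (c (a (c (l 16191400) (a (l 16171088) (l 16169464))) (l 16179328)) (a (b (l 16150512) (c (l 16143424) (l 16126008))) (c (l 16147520) (b (l 16135560) (l 16118216))))))) (c (c (a (b (l 16270352) (l 16244416)) (c (b (l 16308040) (l 16281024)) (l 16283888))) (b (l 16261192) (l 16231560))) (b (a (l 16195728) (l 16207944)) (a (l 16162648) (l 16173160))))), by decide +kernel⟩

def k11_pp_022 : ∃ t, chk3 f_pp_022 t 2 58 1 = true :=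
  ⟨(c (a (c (a (c (l 16257728) (b (l 16249760) (l 16245712))) (a (c (l 16308040) (l 16285008)) (c (l 16262408) (l 16238968)))) (a (c (l 16151272) (a (l 16200152) (l 16238416))) (c (a (a (l 16268200) (l 16243136)) (l 16190360)) (a (l 16212160) (l 16118080))))) (c (a (a (b (l 16188544) (l 16186280)) (c (l 16095824) (l 16121064))) (b (l 16124416) (a (l 16068680) (l 16118856)))) (a (c (a (l 16143048) (l 16134256)) (b (l 16147568) (l 16156416))) (b (l 16156024) (c (l 16141648) (l 16163240)))))) (a (a (c (a (c (l 16185632) (l 16169512)) (c (l 16125552) (a (l 16181392) (l 16161992)))) (a (c (a (l 16141480) (l 16089016)) (a (c (l 16124800) (l 16092504)) (l 16125592))) (c (l 16150576) (l 16142864)))) (c (a (c (l 16171608) (l 16158688)) (l 16165800)) (c (l 16173576) (l 16163928)))) (c (a (c (l 16174752) (l 16188704)) (c (b (a (l 16178016) (l 16174352)) (l 16178448)) (b (l 16168976) (l 16186416)))) (a (b (l 16171112) (l 16188240)) (b (l 16156744) (l 16176424)))))), by decide +kernel⟩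

def k12_pp_022 : ∃ t, chk3 f_pp_022 t 3 58 1 = true :=
  ⟨(c (a (a (c (l 16145176) (b (l 16173560) (c (a (l 16153184) (l 16166832)) (a (l 16168576) (l 16169376))))) (l 16178440)) (c (a (l 16212848) (l 463888811367)) (l 378526252951))) (a (c (a (c (b (l 16167440) (l 16142232)) (b (a (l 16152328) (l 16143712)) (a (l 16163408) (l 16144960)))) (b (l 16151032) (a (c (l 16148528) (l 16132472)) (b (l 16139200) (c (l 16142872) (l 16122280)))))) (a (b (c (l 16134800) (l 16123016)) (c (l 16144696) (l 16148280))) (b (c (a (l 16120320) (l 16117616)) (a (l 16105240) (l 16097880))) (c (a (l 16122528) (b (l 16107808) (l 16107800))) (a (l 16121400) (b (l 16094136) (l 16102808))))))) (c (l 16150376) (a (b (l 16109064) (a (c (l 83783914375) (b (a (l 16085672) (l 16083888)) (a (l 16088504) (l 16082024)))) (c (l 16104328) (l 16083312)))) (l 16108928))))), by decide +kernel⟩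

def k13_pp_022 : ∃ t, chk3 f_pp_022 t 2 59 1 = true :=
  ⟨(c (a (c (a (b (l 16252768) (l 16262728)) (a (c (l 16309232) (l 16296112)) (c (l 16288064) (l 16249088)))) (a (a (c (l 16230240) (l 16224040)) (c (l 16272248) (b (l 16254672) (l 16254848)))) (a (c (l 16272952) (l 16238760)) (b (l 16109472) (l 16213024))))) (a (c (b (c (l 16086000) (l 16152824)) (a (l 16204752) (l 16150528))) (c (a (l 16162088) (l 16154992)) (l 16182136))) (c (b (a (l 16048600) (l 16114968)) (a (l 16124944) (c (l 16108560) (l 16139584)))) (b (c (l 16146400) (l 16180896)) (a (l 16187792) (l 16148184)))))) (a (a (c (a (c (l 16215464) (l 16162904)) (c (a (l 16247936) (l 16240400)) (a (l 16218528) (l 16200320)))) (a (c (a (l 16181808) (c (l 16201976) (l 16186600))) (a (c (l 16169368) (a (l 16157968) (l 16162592))) (l 16151768))) (c (a (l 16188728) (l 16193864)) (l 16191736)))) (c (c (a (b (l 16194168) (l 16220336)) (b (l 16181984) (l 16208344))) (a (l 16198816) (l 16217704))) (c (b (l 16205120) (l 16238184))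 (l 16216280)))) (c (a (c (b (l 16200456) (l 16227304)) (b (l 16219624) (l 16229832))) (c (b (l 16204288) (l 16232832)) (b (l 16211000) (l 16242984)))) (a (b (l 16215672) (l 16252264)) (c (b (l 16207984) (l 16244232)) (l 16222896)))))), by decide +kernel⟩

def k14_pp_022 : ∃ t, chk3 f_pp_022 t 3 59 1 = true :=
  ⟨(a (a (c (c (b (a (c (l 16112232) (l 16130264)) (b (l 16137184) (l 16131664))) (c (l 16072912) (a (l 16139176) (l 16139448)))) (b (a (c (l 16152744) (l 16178648)) (c (l 16158448) (b (l 16165424) (l 16171088)))) (a (c (l 16172504) (l 16205368)) (c (l 16170016) (l 16194288))))) (c (b (a (l 16187776) (c (l 16168576) (l 16168176))) (a (c (l 16218712) (l 16221416)) (c (l 16200704) (l 16204856)))) (b (c (l 16179792) (l 16181464)) (c (a (l 16225560) (l 16210032)) (b (l 16212072) (l 6)))))) (b (c (c (l 16158216) (c (a (l 16166440) (l 16174128)) (a (l 16161240) (l 16154968)))) (c (a (c (b (l 16144656) (l 16151776)) (l 16127040)) (c (l 16138392) (l 16128472))) (a (c (l 16150064)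 (l 16154600)) (c (l 16128544) (b (l 16122832) (l 16143968)))))) (a (c (b (c (l 16140144) (l 16143360)) (c (l 16136240) (l 16173936))) (c (l 16182496) (c (l 16192632) (b (l 16187256) (l 6))))) (l 1)))) (b (a (a (a (c (l 16173296) (c (l 306048518455) (l 16112648))) (l 1)) (l 1)) (l 1)) (l 1))), by decide +kernel⟩

def k15_pp_022 : ∃ t, chk3 f_pp_022 t 1 15 1 = true :=
  ⟨(a (b (b (b (c (a (a (c (l 16280416) (c (l 16284584) (a (l 16264920) (l 16262584)))) (c (a (c (l 16332680) (l 16324640)) (l 16296272)) (a (c (l 16306912) (l 16279400)) (l 16177320)))) (a (c (a (l 16227376) (c (l 16172208) (l 16168808))) (c (a (l 16199376) (l 16194752)) (l 16225560))) (c (a (c (l 16136328) (l 16167192)) (l 16152640)) (a (c (l 16202192) (l 16238176)) (l 16100104))))) (b (c (c (a (c (a (a (l 16255240) (l 16289512)) (l 16218848)) (l 6)) (a (l 16252328) (l 16239232))) (l 6)) (l 6)) (l 6))) (c (c (a (a (l 16296656) (a (c (l 16350024) (l 16344488)) (l 16316824))) (a (a (l 16208424) (c (l 16197648) (l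 16196776))) (c (l 16166752) (l 16203344)))) (a (l 6) (l 6))) (l 6))) (l 6)) (l 6)) (b (b (a (a (c (c (b (c (l 16124888) (l 16168432)) (l 16183344)) (b (c (l 16208896) (l 16240952)) (l 6))) (b (c (c (l 16255808) (l 6)) (l 6)) (l 6))) (l 1)) (l 1)) (l 1)) (l 1))), by decide +kernel⟩

theorem s16_pp_022 : ∃ t, chk3 f_pp_022 t 1 59 1 = true := ex3_a k13_pp_022 k14_pp_022

theorem s17_pp_022 : ∃ t, chk3 f_pp_022 t 1 58 1 = true := ex3_a k11_pp_022 k12_pp_022

theorem s18_pp_022 : ∃ t, chk3 f_pp_022 t 1 29 1 = true := ex3_b s17_pp_022 s16_pp_022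

theorem s19_pp_022 : ∃ t, chk3 f_pp_022 t 2 28 1 = true := ex3_c k8_pp_022 k9_pp_022

theorem s20_pp_022 : ∃ t, chk3 f_pp_022 t 1 28 1 = true := ex3_a s19_pp_022 k10_pp_022

theorem s21_pp_022 : ∃ t, chk3 f_pp_022 t 1 14 1 = true := ex3_b s20_pp_022 s18_pp_022

theorem s22_pp_022 : ∃ t, chk3 f_pp_022 t 1 7 1 = true := ex3_b s21_pp_022 k15_pp_022

theorem s23_pp_022 : ∃ t, chk3 f_pp_022 t 2 6 1 = true := ex3_b k5_pp_022 k6_pp_022

theorem s24_pp_022 : ∃ t, chk3 f_pp_022 t 1 6 1 = true := ex3_a s23_pp_022 k7_pp_022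

theorem s25_pp_022 : ∃ t, chk3 f_pp_022 t 1 3 1 = true := ex3_b s24_pp_022 s22_pp_022

theorem s26_pp_022 : ∃ t, chk3 f_pp_022 t 1 5 1 = true := ex3_a k3_pp_022 k4_pp_022

theorem s27_pp_022 : ∃ t, chk3 f_pp_022 t 2 4 1 = true := ex3_b k0_pp_022 k1_pp_022

theorem s28_pp_022 : ∃ t, chk3 f_pp_022 t 1 4 1 = true := ex3_a s27_pp_022 k2_pp_022

theorem s29_pp_022 : ∃ t, chk3 f_pp_022 t 1 2 1 = true := ex3_b s28_pp_022 s26_pp_022

theorem s30_pp_022 : ∃ t, chk3 f_pp_022 t 1 1 1 = true := ex3_b s29_pp_022 s25_pp_022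

theorem c_pp_022 : CertFX 0 67108864 0 536870912 1046898278 26843546 false true true .pp 0 2 2
    ndF4q0 ndF0q2 pcF2 cut_pp_022 Ext.none :=
  certFX0 (fam := false) (s1 := true) (s2 := true) (a := 0) (b := 2) (c := 2) (cn := .pp) (n1 := ndF4q0) (n2 := ndF0q2) (pc := pcF2) (cut := cut_pp_022) (xt := Ext.none) (P1 := 0) (W1 := 67108864) (P2 := 0) (W2 := 536870912) (P3 := 1046898278) (W3 := 26843546)
    rfl s30_pp_022

noncomputable def f_pm_001 : ℕ → ℕ → ℕ → ℕ → Bool := onCell 0 67108864 0 536870912 1046898278 26843546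
    (rowFX 1 false true false .up 0 0 1 (qsf 0 67108864 536870912 536870912 0) ndF4q0 ndF0q1 pcF0 Cut.none Ext.none)

def k0_pm_001 : ∃ t, chk3 f_pm_001 t 1 1 1 = true :=
  ⟨(l 4), by decide +kernel⟩

theorem c_pm_001 : CertFX 0 67108864 536870912 536870912 1046898278 26843546 false true false .up 0 0 1
    ndF4q0 ndF0q1 pcF0 Cut.none Ext.none :=
  certFX1 (fam := false) (s1 := true) (s2 := false) (a := 0) (b := 0) (c := 1) (cn := .up) (n1 := ndF4q0) (n2 := ndF0q1) (pc := pcF0) (cut := Cut.none) (xt := Ext.none) (P1 := 0) (W1 := 67108864) (P2 := 536870912) (W2 := 536870912) (P3 := 1046898278) (W3 := 26843546)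
    rfl (fun _ => rfl) k0_pm_001

noncomputable def cut_pm_011 : Cut := Cut.of [[⟨0, 0, 0, 67108864⟩, ⟨1, 1, 0, 67108864⟩, ⟨2, 1, 0, 67108864⟩]]

noncomputable def f_pm_011 : ℕ → ℕ → ℕ → ℕ → Bool := onCell 0 67108864 536870912 536870912 1046898278 26843546
    (rowFX 0 false true false .pnn 0 1 1 (qsf 0 67108864 536870912 536870912 1) ndF4q0 ndF0q1 pcF1 cut_pm_011 Ext.none)

def k0_pm_011 : ∃ t, chk3 f_pm_011 t 1 1 1 = true :=
  ⟨(b (l 4) (b (l 4) (a (a (b (l 4) (b (l 4) (l 6))) (l 4)) (l 4)))), by decide +kernel⟩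

theorem c_pm_011 : CertFX 0 67108864 536870912 536870912 1046898278 26843546 false true false .pnn 0 1 1
    ndF4q0 ndF0q1 pcF1 cut_pm_011 Ext.none :=
  certFX0 (fam := false) (s1 := true) (s2 := false) (a := 0) (b := 1) (c := 1) (cn := .pnn) (n1 := ndF4q0) (n2 := ndF0q1) (pc := pcF1) (cut := cut_pm_011) (xt := Ext.none) (P1 := 0) (W1 := 67108864) (P2 := 536870912) (W2 := 536870912) (P3 := 1046898278) (W3 := 26843546)
    rfl k0_pm_011

noncomputable def cut_pm_012 : Cut := Cut.of [[⟨0, 0, 0, 67108864⟩, ⟨1, 1, 0, 67108864⟩, ⟨2, 1, 0, 67108864⟩]]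

noncomputable def f_pm_012 : ℕ → ℕ → ℕ → ℕ → Bool := onCell 0 67108864 0 536870912 1046898278 26843546
    (rowFX 0 false true false .pnp 0 1 2 (qsf 0 67108864 0 536870912 1) ndF4q0 ndF0q2 pcF1 cut_pm_012 Ext.none)

def k0_pm_012 : ∃ t, chk3 f_pm_012 t 1 1 1 = true :=
  ⟨(b (l 2) (b (l 2) (a (b (l 2) (l 6)) (b (b (a (l 2) (a (l 2) (b (l 2) (c (c (l 15409288) (l 15424296)) (c (c (l 15446560) (l 15329368)) (l 15485328)))))) (a (l 6) (a (l 6) (a (l 6) (a (l 6) (a (l 6) (a (l 6) (c (l 4) (c (b (b (b (l 15381648) (l 15528920)) (l 4)) (l 4)) (b (c (b (b (l 15499720) (c (l 15571176) (b (l 15622984) (c (l 15577632) (l 15653616))))) (c (l 15605224) (l 15651032))) (b (l 15593992) (b (b (c (l 15648472) (l 15700336)) (c (l 15647800) (b (l 15722184) (l 15695648)))) (l 15689704)))) (c (l 4) (l 15779736)))))))))))) (a (l 6) (a (l 6) (l 4))))))), by decide +kernel⟩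

theorem c_pm_012 : CertFX 0 67108864 0 536870912 1046898278 26843546 false true false .pnp 0 1 2
    ndF4q0 ndF0q2 pcF1 cut_pm_012 Ext.none :=
  certFX0 (fam := false) (s1 := true) (s2 := false) (a := 0) (b := 1) (c := 2) (cn := .pnp) (n1 := ndF4q0) (n2 := ndF0q2) (pc := pcF1) (cut := cut_pm_012) (xt := Ext.none) (P1 := 0) (W1 := 67108864) (P2 := 0) (W2 := 536870912) (P3 := 1046898278) (W3 := 26843546)
    rfl k0_pm_012

noncomputable def cut_pm_022 : Cut := Cut.of [[⟨0, 0, 0, 67108864⟩, ⟨1, 1, 0, 67108864⟩, ⟨2, 1, 0, 67108864⟩]]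

noncomputable def f_pm_022 : ℕ → ℕ → ℕ → ℕ → Bool := onCell 0 67108864 0 536870912 1046898278 26843546
    (rowFX 0 false true false .pp 0 2 2 (qsf 0 67108864 0 536870912 2) ndF4q0 ndF0q2 pcF2 cut_pm_022 Ext.none)

def k0_pm_022 : ∃ t, chk3 f_pm_022 t 2 4 1 = true :=
  ⟨(b (a (a (c (b (c (b (l 16163960) (l 16211904)) (b (l 16049128) (l 16093144))) (c (l 16237792) (l 16138816))) (a (c (b (l 16116664) (l 16135656)) (b (c (l 16103656) (l 16095448)) (c (l 16116368) (l 16082952)))) (c (b (c (l 16226728) (l 16223432)) (l 16211728)) (b (l 16207408) (l 16220328))))) (c (b (a (c (b (l 16291712) (l 16402360)) (b (l 16304936) (l 16349784))) (a (c (l 16438008) (l 16392872)) (b (c (l 16440152) (a (l 16433504) (l 16439144))) (l 16410080)))) (a (c (l 16382496) (l 16393240)) (c (l 16449488) (l 16431408)))) (b (c (a (b (l 16321928) (l 16319976)) (a (l 16356776) (b (l 16455168) (l 16449608)))) (a (l 16330920) (b (l 16451736) (l 16315624)))) (c (a (l 16340752) (l 16425176)) (a (l 16344696) (a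 (l 16305296) (l 16458520))))))) (c (c (a (b (c (l 16463200) (l 16439640)) (l 16457320)) (b (l 16445768) (l 16458808))) (b (a (c (l 16435632) (l 16449944)) (l 16486864)) (l 16409272))) (b (c (b (l 16469128) (l 16489144)) (l 16464912)) (c (l 16492392) (l 16481864))))) (a (c (a (b (a (l 16210504) (c (l 16359696) (l 16325008))) (a (l 16281904) (b (l 16399472) (l 16387624)))) (b (a (c (l 16336792) (l 16390392)) (c (l 16473968) (l 16435696))) (c (a (l 16445096) (l 16488976)) (a (l 16455504) (l 16432032))))) (a (c (a (l 16166800) (b (l 16263320) (a (l 16335464) (l 16394056)))) (a (c (l 16169088) (l 16114384)) (b (l 16271472) (b (l 16323184) (l 16333976))))) (b (c (a (l 16380768) (l 16428736)) (l 16344552)) (c (l 16364848) (l 16419152))))) (c (c (a (b (l 16458608) (l 16464712)) (l 16395816)) (b (l 16457464) (l 16489048))) (c (l 16374760) (l 16467112))))), by decide +kernel⟩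

def k1_pm_022 : ∃ t, chk3 f_pm_022 t 3 4 1 = true :=
  ⟨(c (b (b (a (c (l 16475120) (l 16482504)) (c (a (l 16443472) (l 16414024)) (l 16449288))) (a (c (l 16466848) (l 16453280)) (c (l 16315408) (l 16395616)))) (a (b (c (l 16441552) (l 16428504)) (l 16369832)) (c (b (l 16308376) (l 16279800)) (l 16283200)))) (b (a (b (c (l 16495824) (l 16492152)) (l 16480008)) (b (l 16477360) (l 16444288))) (c (a (l 16433304) (l 16337240)) (b (l 16446904) (l 16413056))))), by decide +kernel⟩

def k2_pm_022 : ∃ t, chk3 f_pm_022 t 1 5 1 = true :=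
  ⟨(a (b (a (c (c (a (b (l 16214576) (l 16431616)) (b (l 16503744) (l 16508080))) (a (b (a (l 16353048) (l 16442688)) (l 16418408)) (c (l 16468392) (l 16444896)))) (a (b (a (c (l 16343056) (a (l 16244392) (l 16340688))) (c (l 16403168) (l 16349600))) (c (a (l 16376360) (l 16387720)) (c (l 16370744) (l 16297200)))) (c (l 16422800) (l 16420832)))) (c (c (b (l 16506688) (l 16494040)) (b (l 16508744) (l 16497776))) (b (l 16490432) (l 16481080)))) (c (a (a (c (l 16433112) (l 16309656)) (c (b (l 16497704) (l 16468680)) (b (l 16501296) (l 16520448)))) (c (b (l 16467072) (l 16426224)) (b (l 16473448) (l 16436560)))) (a (a (c (a (l 16361832) (b (l 16427952) (l 16469896))) (a (c (l 16319024) (b (l 16355080) (l 16363888))) (l 16321040))) (c (l 16336112) (l 16453264))) (b (l 16460872) (l 16428368))))) (b (c (a (b (l 16382632) (l 16346824)) (b (c (l 16115024) (l 16248216)) (c (a (l 16200392) (l 16093512)) (l 16181496)))) (a (b (l 16407584) (l 16375456)) (b (l 16300712) (l 16152072)))) (c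 (a (b (c (l 16291832) (l 16295248)) (a (l 16217816) (c (l 16154168) (l 16171576)))) (b (c (a (l 16118992) (l 15979528)) (l 16093456)) (c (l 15927008) (l 15973624)))) (a (b (l 16334416) (a (l 16321880) (l 16226240))) (b (l 16044936) (l 16039784)))))), by decide +kernel⟩

def k3_pm_022 : ∃ t, chk3 f_pm_022 t 2 12 1 = true :=
  ⟨(a (c (a (b (l 16351952) (c (l 16479080) (l 16464192))) (c (b (l 16425504) (a (l 16353784) (l 16337248))) (b (l 16481952) (a (l 16438408) (l 16432928))))) (a (c (b (a (l 16486304) (l 16494880)) (a (l 16523424) (l 16458928))) (b (a (c (l 16459632) (a (l 16388296) (l 16450640))) (l 16489488)) (a (c (l 16454496) (c (l 16481088) (l 16471536))) (l 16483872)))) (c (b (l 16524528) (l 16477016)) (b (l 16540272) (l 16496688))))) (c (c (b (a (l 16409816) (l 16331576)) (a (b (l 16348656) (l 16193752)) (l 16095560))) (b (l 16363976) (a (b (l 16393912) (l 16350832)) (l 16234744)))) (b (a (l 16447152) (l 16288240)) (a (b (l 16404528) (l 16279336)) (l 16153808))))), by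 decide +kernel⟩

def k4_pm_022 : ∃ t, chk3 f_pm_022 t 2 13 1 = true :=
  ⟨(c (a (b (a (c (b (l 16444392) (a (l 16496568) (l 16367808))) (b (l 16479056) (a (l 16542832) (l 16399872)))) (c (b (a (l 16258696) (l 16284224)) (a (l 16176920) (l 16274896))) (a (b (l 16402880) (l 16415832)) (b (l 16389496) (l 16394512))))) (a (c (b (a (l 16466560) (l 16408664)) (l 16386352)) (b (a (l 16564480) (l 16474824)) (a (l 16574744) (l 16414960)))) (c (a (c (l 16276320) (l 16310040)) (l 16233320)) (c (l 16271816) (l 16358968))))) (b (c (a (b (l 16206328) (l 16230952)) (l 16118584)) (a (b (l 16312264) (l 16298696)) (l 16140288))) (c (a (l 16125520) (l 16078520)) (a (c (l 16262520) (l 16303696)) (l 16111384))))) (a (a (b (a (c (b (l 16544984) (l 16575752)) (c (b (l 16512144) (l 16479048)) (b (c (l 16511968) (l 16501496)) (c (l 16482072) (l 16470776))))) (c (b (l 16495976) (a (l 16528976) (l 16507664))) (b (l 16545968) (c (l 16564600) (l 16577888))))) (c (a (b (a (l 16575608) (l 16578264)) (l 16570272))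 (a (c (l 16507648) (l 16565448)) (l 16512008))) (a (b (c (a (l 16505472) (b (l 16556760) (l 16605632))) (a (c (b (l 16547696) (l 16508448)) (a (b (l 16527872) (l 16507960)) (l 16500912))) (b (l 16547264) (l 16574776)))) (c (a (l 16582560) (l 16577368)) (a (c (l 16521096) (a (l 16499232) (l 16557280))) (l 16567024)))) (c (a (l 16560928) (l 16571440)) (l 16557728))))) (b (c (b (a (l 16448800) (l 16420136)) (a (l 16422696) (l 16426232))) (b (l 16463056) (l 16476232))) (c (a (l 16453616) (l 16431784)) (l 16422920)))) (b (b (l 16088776) (l 16190648)) (c (a (l 16308728) (l 16140216)) (l 16265720))))), by decide +kernel⟩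

def k5_pm_022 : ∃ t, chk3 f_pm_022 t 3 6 1 = true :=
  ⟨(b (c (a (b (a (c (l 16191016) (l 16200384)) (l 15956976)) (c (l 15966128) (l 15993832))) (c (b (l 15779768) (l 15619760)) (b (l 15835688) (l 15678720)))) (a (b (a (l 16199384) (l 16117064)) (l 16053272)) (b (l 15913488) (l 15678624)))) (c (a (b (c (l 15847984) (a (l 15965024) (l 15794920))) (c (l 15811704) (a (l 15924008) (l 15746176)))) (b (c (l 15498864) (l 15551344)) (c (l 15468144) (l 15504328)))) (c (b (a (l 15930744) (l 15624016)) (a (l 15652936) (l 15489552))) (b (l 15748432) (a (l 15962304) (l 15642856)))))), by decide +kernel⟩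

def k6_pm_022 : ∃ t, chk3 f_pm_022 t 1 7 1 = true :=
  ⟨(b (b (c (a (a (c (a (b (a (l 16495208) (l 16383072)) (l 16361848)) (a (c (l 16245600) (l 16275864)) (l 16220888))) (a (c (a (l 16471464) (l 16381560)) (a (l 16571720) (b (l 16495144) (l 16382232)))) (c (b (l 16338008) (l 16320232)) (a (l 16437608) (l 16318376))))) (c (a (b (l 16182296) (l 16174056)) (l 16057064)) (a (c (l 16207056) (l 16214832)) (l 16055616)))) (a (c (l 15802696) (l 15597576)) (c (l 15480336) (l 15490264)))) (a (a (b (a (c (a (l 16579456) (c (l 16508288) (l 16567280))) (a (c (a (l 16580776) (l 16576112)) (a (c (l 16518832) (a (c (l 16563096) (l 16535296)) (l 16575800))) (l 16565144))) (c (l 16597624) (l 16613048)))) (c (l 16381568) (l 16472448))) (b (b (a (c (a (l 16605928) (c (l 16532912) (l 16571576))) (a (c (a (l 16614608) (l 16603304)) (a (c (l 16552352) (c (l 16542040) (l 16556480))) (l 16577936))) (c (l 16602472) (l 16618288)))) (c (l 16384080) (l 16496168))) (l 6)) (l 6))) (c (a (c (l 16271568)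 (l 16305936)) (c (l 16083208) (l 16138088))) (l 16177176))) (a (c (b (l 15729176) (l 15644552)) (b (l 15941968) (l 15747848))) (c (l 15537280) (b (l 15607240) (l 15482824)))))) (a (l 6) (a (l 6) (a (l 6) (a (l 6) (l 1)))))) (a (l 6) (a (l 6) (l 1)))), by decide +kernel⟩

theorem s7_pm_022 : ∃ t, chk3 f_pm_022 t 2 6 1 = true := ex3_b k3_pm_022 k4_pm_022

theorem s8_pm_022 : ∃ t, chk3 f_pm_022 t 1 6 1 = true := ex3_a s7_pm_022 k5_pm_022

theorem s9_pm_022 : ∃ t, chk3 f_pm_022 t 1 3 1 = true := ex3_b s8_pm_022 k6_pm_022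

theorem s10_pm_022 : ∃ t, chk3 f_pm_022 t 1 4 1 = true := ex3_a k0_pm_022 k1_pm_022

theorem s11_pm_022 : ∃ t, chk3 f_pm_022 t 1 2 1 = true := ex3_b s10_pm_022 k2_pm_022

theorem s12_pm_022 : ∃ t, chk3 f_pm_022 t 1 1 1 = true := ex3_b s11_pm_022 s9_pm_022

theorem c_pm_022 : CertFX 0 67108864 0 536870912 1046898278 26843546 false true false .pp 0 2 2
    ndF4q0 ndF0q2 pcF2 cut_pm_022 Ext.none :=
  certFX0 (fam := false) (s1 := true) (s2 := false) (a := 0) (b := 2) (c := 2) (cn := .pp) (n1 := ndF4q0) (n2 := ndF0q2) (pc := pcF2) (cut := cut_pm_022) (xt := Ext.none) (P1 := 0) (W1 := 67108864) (P2 := 0) (W2 := 536870912) (P3 := 1046898278) (W3 := 26843546)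
    rfl s12_pm_022

noncomputable def f_mm_001 : ℕ → ℕ → ℕ → ℕ → Bool := onCell 0 67108864 536870912 536870912 1046898278 26843546
    (rowFX 0 false false false .up 0 0 1 (qsf 0 67108864 536870912 536870912 0) ndF4q0 ndF0q1 pcF0 Cut.none Ext.none)

def k0_mm_001 : ∃ t, chk3 f_mm_001 t 1 1 1 = true :=
  ⟨(l 5), by decide +kernel⟩

theorem c_mm_001 : CertFX 0 67108864 536870912 536870912 1046898278 26843546 false false false .up 0 0 1
    ndF4q0 ndF0q1 pcF0 Cut.none Ext.none :=
  certFX0 (fam := false) (s1 := false) (s2 := false) (a := 0) (b := 0) (c := 1) (cn := .up) (n1 := ndF4q0) (n2 := ndF0q1) (pc := pcF0) (cut := Cut.none) (xt := Ext.none) (P1 := 0) (W1 := 67108864) (P2 := 536870912) (W2 := 536870912) (P3 := 1046898278) (W3 := 26843546)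
    rfl k0_mm_001

noncomputable def f_mm_011 : ℕ → ℕ → ℕ → ℕ → Bool := onCell 0 67108864 536870912 536870912 1046898278 26843546
    (rowFX 0 false false false .pnn 0 1 1 (qsf 0 67108864 536870912 536870912 1) ndF4q0 ndF0q1 pcF1 Cut.none Ext.none)

def k0_mm_011 : ∃ t, chk3 f_mm_011 t 1 1 1 = true :=
  ⟨(l 5), by decide +kernel⟩

theorem c_mm_011 : CertFX 0 67108864 536870912 536870912 1046898278 26843546 false false false .pnn 0 1 1
    ndF4q0 ndF0q1 pcF1 Cut.none Ext.none :=
  certFX0 (fam := false) (s1 := false) (s2 := false) (a := 0) (b := 1) (c := 1) (cn := .pnn) (n1 := ndF4q0) (n2 := ndF0q1) (pc := pcF1) (cut := Cut.none) (xt := Ext.none) (P1 := 0) (W1 := 67108864) (P2 := 536870912) (W2 := 536870912) (P3 := 1046898278) (W3 := 26843546)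
    rfl k0_mm_011

noncomputable def f_mm_012 : ℕ → ℕ → ℕ → ℕ → Bool := onCell 0 67108864 0 536870912 1046898278 26843546
    (rowFX 0 false false false .pnp 0 1 2 (qsf 0 67108864 0 536870912 1) ndF4q0 ndF0q2 pcF1 Cut.none Ext.none)

def k0_mm_012 : ∃ t, chk3 f_mm_012 t 1 1 1 = true :=
  ⟨(l 5), by decide +kernel⟩

theorem c_mm_012 : CertFX 0 67108864 0 536870912 1046898278 26843546 false false false .pnp 0 1 2
    ndF4q0 ndF0q2 pcF1 Cut.none Ext.none :=
  certFX0 (fam := false) (s1 := false) (s2 := false) (a := 0) (b := 1) (c := 2) (cn := .pnp) (n1 := ndF4q0) (n2 := ndF0q2) (pc := pcF1) (cut := Cut.none) (xt := Ext.none) (P1 := 0) (W1 := 67108864) (P2 := 0) (W2 := 536870912) (P3 := 1046898278) (W3 := 26843546)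
    rfl k0_mm_012

noncomputable def f_mm_022 : ℕ → ℕ → ℕ → ℕ → Bool := onCell 0 67108864 0 536870912 1046898278 26843546
    (rowFX 0 false false false .pp 0 2 2 (qsf 0 67108864 0 536870912 2) ndF4q0 ndF0q2 pcF2 Cut.none Ext.none)

def k0_mm_022 : ∃ t, chk3 f_mm_022 t 1 1 1 = true :=
  ⟨(l 5), by decide +kernel⟩

theorem c_mm_022 : CertFX 0 67108864 0 536870912 1046898278 26843546 false false false .pp 0 2 2
    ndF4q0 ndF0q2 pcF2 Cut.none Ext.none :=
  certFX0 (fam := false) (s1 := false) (s2 := false) (a := 0) (b := 2) (c := 2) (cn := .pp) (n1 := ndF4q0) (n2 := ndF0q2) (pc := pcF2) (cut := Cut.none) (xt := Ext.none) (P1 := 0) (W1 := 67108864) (P2 := 0) (W2 := 536870912) (P3 := 1046898278) (W3 := 26843546)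
    rfl k0_mm_022

end Pool.Agent.Strip051.G.IE1.Tab.C.FB40

namespace Pool.Agent.Strip051.G.IE1.Tab.C.FB41

open Pool.Agent.Strip051.PB Pool.Agent.Strip051.PB.T
open Pool.Agent.Strip051.G.IE1.Tab

noncomputable def f_pp_001 : ℕ → ℕ → ℕ → ℕ → Bool := onCell 0 67108864 536870912 536870912 1046898278 26843546
    (rowFX 0 false true true .up 0 0 1 (qsf 0 67108864 536870912 536870912 0) ndF4q0 ndF1q1 pcF0 Cut.none Ext.none)

def k0_pp_001 : ∃ t, chk3 f_pp_001 t 1 1 1 = true :=
  ⟨(l 3), by decide +kernel⟩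

theorem c_pp_001 : CertFX 0 67108864 536870912 536870912 1046898278 26843546 false true true .up 0 0 1
    ndF4q0 ndF1q1 pcF0 Cut.none Ext.none :=
  certFX0 (fam := false) (s1 := true) (s2 := true) (a := 0) (b := 0) (c := 1) (cn := .up) (n1 := ndF4q0) (n2 := ndF1q1) (pc := pcF0) (cut := Cut.none) (xt := Ext.none) (P1 := 0) (W1 := 67108864) (P2 := 536870912) (W2 := 536870912) (P3 := 1046898278) (W3 := 26843546)
    rfl k0_pp_001

noncomputable def f_pp_011 : ℕ → ℕ → ℕ → ℕ → Bool := onCell 0 67108864 536870912 536870912 1046898278 26843546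
    (rowFX 0 false true true .pnn 0 1 1 (qsf 0 67108864 536870912 536870912 1) ndF4q0 ndF1q1 pcF1 Cut.none Ext.none)

def k0_pp_011 : ∃ t, chk3 f_pp_011 t 1 1 1 = true :=
  ⟨(l 3), by decide +kernel⟩

theorem c_pp_011 : CertFX 0 67108864 536870912 536870912 1046898278 26843546 false true true .pnn 0 1 1
    ndF4q0 ndF1q1 pcF1 Cut.none Ext.none :=
  certFX0 (fam := false) (s1 := true) (s2 := true) (a := 0) (b := 1) (c := 1) (cn := .pnn) (n1 := ndF4q0) (n2 := ndF1q1) (pc := pcF1) (cut := Cut.none) (xt := Ext.none) (P1 := 0) (W1 := 67108864) (P2 := 536870912) (W2 := 536870912) (P3 := 1046898278) (W3 := 26843546)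
    rfl k0_pp_011

noncomputable def f_pp_012_a : ℕ → ℕ → ℕ → ℕ → Bool := onCell 0 67108864 0 420477299 1046898278 26843546
    (rowFX 0 false true true .pnp 0 1 2 (qsf 0 67108864 0 420477299 1) ndF4q0 ndF1q2a pcF1 Cut.none Ext.none)

def k0_pp_012_a : ∃ t, chk3 f_pp_012_a t 1 1 1 = true :=
  ⟨(b (l 2) (b (l 2) (a (l 2) (a (l 2) (a (l 2) (b (l 2) (b (l 2) (b (l 2) (c (l 16631832) (l 16607088)))))))))), by decide +kernel⟩

theorem c_pp_012_a : CertFX 0 67108864 0 420477299 1046898278 26843546 false true true .pnp 0 1 2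
    ndF4q0 ndF1q2a pcF1 Cut.none Ext.none :=
  certFX0 (fam := false) (s1 := true) (s2 := true) (a := 0) (b := 1) (c := 2) (cn := .pnp) (n1 := ndF4q0) (n2 := ndF1q2a) (pc := pcF1) (cut := Cut.none) (xt := Ext.none) (P1 := 0) (W1 := 67108864) (P2 := 0) (W2 := 420477299) (P3 := 1046898278) (W3 := 26843546)
    rfl k0_pp_012_a

noncomputable def f_pp_012_b : ℕ → ℕ → ℕ → ℕ → Bool := onCell 0 67108864 1239849684 370763052 1046898278 26843546
    (rowFX 0 false true true .pnp 0 1 2 (qsf 0 67108864 1239849684 370763052 1) ndF4q0 ndF1q2b pcF1 Cut.none Ext.none)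

def k0_pp_012_b : ∃ t, chk3 f_pp_012_b t 1 1 1 = true :=
  ⟨(l 2), by decide +kernel⟩

theorem c_pp_012_b : CertFX 0 67108864 1239849684 370763052 1046898278 26843546 false true true .pnp 0 1 2
    ndF4q0 ndF1q2b pcF1 Cut.none Ext.none :=
  certFX0 (fam := false) (s1 := true) (s2 := true) (a := 0) (b := 1) (c := 2) (cn := .pnp) (n1 := ndF4q0) (n2 := ndF1q2b) (pc := pcF1) (cut := Cut.none) (xt := Ext.none) (P1 := 0) (W1 := 67108864) (P2 := 1239849684) (W2 := 370763052) (P3 := 1046898278) (W3 := 26843546)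
    rfl k0_pp_012_b

noncomputable def f_pp_022_a : ℕ → ℕ → ℕ → ℕ → Bool := onCell 0 67108864 0 420477299 1046898278 26843546
    (rowFX 0 false true true .pp 0 2 2 (qsf 0 67108864 0 420477299 2) ndF4q0 ndF1q2a pcF2 Cut.none Ext.none)

def k0_pp_022_a : ∃ t, chk3 f_pp_022_a t 2 4 1 = true :=
  ⟨(a (a (c (b (l 16105576) (a (l 16277920) (l 16319728))) (c (b (a (l 16237688) (l 16297168)) (a (l 16319480) (l 16338728))) (a (b (l 16054456) (c (l 16289160) (l 16240784))) (b (l 16337320) (l 16401728))))) (b (c (a (a (l 16324552) (l 16277776)) (a (b (l 16356384) (c (l 16346944) (l 16393080))) (b (c (l 16359032) (l 16398224)) (c (l 16342192) (l 16360264))))) (a (l 16287480) (b (a (l 16423104) (l 16346768)) (a (l 16389176) (l 16350320))))) (c (a (b (c (l 16288544) (l 16375920)) (a (c (l 16338176) (b (l 16368856) (l 16335080))) (c (b (l 16263248) (l 16294264)) (l 16317256)))) (a (b (c (a (l 16292496) (l 16314616)) (l 16320760)) (l 16327808)) (l 16336176))) (a (b (l 16270264) (c (a (l 16385960)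 (l 16296912)) (a (l 16372096) (l 16335824)))) (b (c (l 16360912) (l 16337216)) (l 16356392)))))) (b (c (c (a (l 16349080) (l 16464960)) (l 16414376)) (l 16384664)) (c (c (a (l 16343824) (l 16461952)) (l 16410160)) (l 16380392)))), by decide +kernel⟩

def k1_pp_022_a : ∃ t, chk3 f_pp_022_a t 2 5 1 = true :=
  ⟨(a (b (a (c (b (a (l 16460376) (a (l 16390248) (b (l 16346920) (c (l 16319264) (l 16315656))))) (a (l 16258776) (a (l 16240328) (l 16320960)))) (a (b (c (l 16463336) (l 16263240)) (c (l 16249800) (a (l 16398848) (b (l 16385320) (l 16240032))))) (b (c (a (l 16393608) (b (l 16364464) (l 16314136))) (a (l 16408384) (l 16343600))) (b (c (a (l 16314864) (l 16330856)) (l 16264768)) (c (l 16319008) (l 16349424)))))) (c (a (b (a (c (l 16282280) (b (l 16314584) (l 16314568))) (l 16322208)) (l 16256576)) (c (l 16351080) (l 16371792))) (a (b (c (a (l 16308280) (l 16360416)) (l 16338216)) (l 16326360)) (l 16342440)))) (a (c (b (a (b (l 16319232) (l 16366248)) (l 16354512)) (l 16399216))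 (a (a (b (c (l 16339848) (b (c (l 16352648) (l 16312048)) (l 16350424))) (l 16323688)) (c (l 16263952) (b (l 16328240) (l 16394400)))) (c (c (l 16381808) (l 16394504)) (l 16379096)))) (c (a (c (l 16357848) (l 16384000)) (c (l 16397280) (l 16462512))) (c (l 16398528) (l 16426760))))) (c (a (c (b (l 16353312) (l 16402864)) (b (l 16434472) (l 16485528))) (b (l 16433568) (l 16395136))) (b (l 16371448) (l 16404304)))), by decide +kernel⟩

def k2_pp_022_a : ∃ t, chk3 f_pp_022_a t 3 2 1 = true :=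
  ⟨(b (c (a (b (c (l 16473608) (l 16440072)) (c (l 16473448) (l 16439800))) (a (b (l 16432608) (l 16414416)) (c (b (l 16468800) (l 16473520)) (l 16454528)))) (a (b (l 16435632) (l 16435592)) (b (l 16490744) (l 16495072)))) (c (a (b (c (l 16509456) (l 16476152)) (a (l 16436488) (l 16430304))) (b (c (a (l 16520192) (c (l 16535856) (l 16532832))) (l 16503448)) (a (c (l 16480976) (l 16553392)) (c (a (l 16520920) (l 16515504)) (l 16562392))))) (a (b (l 16473192) (l 16501720)) (b (l 16516448) (b (l 16547808) (l 16522448)))))), by decide +kernel⟩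

def k3_pp_022_a : ∃ t, chk3 f_pp_022_a t 1 6 1 = true :=
  ⟨(a (a (c (a (b (l 16404272) (l 16413936)) (c (b (a (l 16447120) (l 16488616)) (a (l 16480744) (l 16420320))) (a (b (l 16455512) (l 16393992)) (b (l 16482168) (l 16351768))))) (a (c (a (l 16353808) (b (l 16378072) (l 16339128))) (c (a (b (l 16464744) (l 16437288)) (l 16341040)) (b (l 16333112) (l 16233200)))) (c (b (l 16455944) (a (l 16370072) (l 16371792))) (l 16306152)))) (c (b (a (c (l 16325928) (l 16427144)) (l 16322536)) (a (c (l 16217272) (l 16315600)) (c (l 16212616) (l 16344952)))) (b (l 16396968) (b (l 16398800) (l 16330648))))) (c (c (a (b (b (l 16455888) (l 16392304)) (b (l 16367064) (l 16314288))) (b (a (b (l 16478504) (l 16470608)) (b (l 16541576) (l 16513968))) (a (l 16386976) (l 16341264)))) (b (a (b (l 16493272) (l 16428264)) (b (l 16498056) (l 16487880))) (a (b (l 16379984) (l 16345304)) (l 16376392)))) (b (a (b (l 16488040) (l 16441808)) (b (l 16472392) (l 16458904))) (a (b (l 16390352) (l 16330272))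 (l 16319896))))), by decide +kernel⟩

def k4_pp_022_a : ∃ t, chk3 f_pp_022_a t 2 14 1 = true :=
  ⟨(a (c (a (b (l 16360992) (l 16352440)) (c (b (a (l 16385536) (l 16345104)) (l 16270272)) (b (a (l 16338200) (l 16274016)) (l 16200952)))) (b (a (c (a (l 16348608) (l 16313296)) (a (c (l 16337184) (l 16308376)) (l 16307808))) (c (l 16285504) (l 16292544))) (c (a (a (c (l 16340624) (b (l 16338024) (l 16332200))) (l 16323848)) (l 16276168)) (b (a (a (c (l 16327072) (a (l 16276776) (l 16309208))) (l 16296984)) (l 16281704)) (a (a (c (a (l 16317688) (l 16315552)) (a (l 16228680) (l 16289832))) (c (l 16293608) (l 16289136))) (c (l 16284328) (l 16275208))))))) (c (b (a (c (l 16123768) (l 16240064)) (c (l 16210408) (l 16254904))) (a (c (l 16247984) (l 16235768)) (l 16227216))) (b (c (l 16272584) (l 16266136)) (l 16257184)))), by decide +kernel⟩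

def k5_pp_022_a : ∃ t, chk3 f_pp_022_a t 2 15 2 = true :=
  ⟨(a (b (a (a (c (b (l 16348976) (l 16324952)) (b (l 16317496) (l 16284424))) (b (l 16363704) (c (l 16370152) (c (l 16363224) (l 16348216))))) (c (l 16318120) (b (l 16287224) (a (c (l 16352136) (l 16310752)) (c (l 16282056) (l 16250864)))))) (a (b (c (a (l 16294576) (c (l 16309528) (l 16363120))) (c (l 16266976) (l 16237928))) (c (c (a (l 16320640) (b (l 16367184) (l 16354976))) (l 16300032)) (a (l 16265736) (a (l 16300760) (l 16317000))))) (c (b (a (c (c (l 16400664) (l 16395072)) (a (l 16384168) (l 16377192))) (c (l 16370648) (l 16324736))) (a (c (l 16307872) (l 16264264)) (c (l 16367440) (l 16320776)))) (a (b (c (a (l 16339792) (l 16333696)) (l 16298040)) (l 16300000)) (b (c (l 16277600) (l 16244000)) (l 16235136)))))) (b (a (l 16190728) (l 16227472)) (c (a (b (l 16252768) (c (l 16258352) (a (l 16247800) (l 16206248)))) (l 16209024)) (a (b (c (l 16224608) (l 16233880)) (c (a (l 16222896) (l 16216976)) (l 16231016)))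 (b (l 16244912) (c (l 16230720) (l 16248800))))))), by decide +kernel⟩

def k6_pp_022_a : ∃ t, chk3 f_pp_022_a t 2 15 3 = true :=
  ⟨(a (b (a (c (a (b (c (l 16328816) (l 16311928)) (l 16283672)) (c (b (l 16312192) (l 16316600)) (b (a (l 16313768) (l 16285752)) (l 16272472)))) (a (c (a (l 16248440) (l 16219208)) (c (l 16182648) (l 16186680))) (c (b (l 16274608) (l 16231944)) (l 16236112)))) (c (c (b (l 16270376) (a (l 16269968) (l 16247440))) (b (l 16268360) (a (l 16252616) (l 16262376)))) (b (c (l 16273952) (l 16261528)) (b (l 16163768) (l 16142776))))) (a (c (a (b (l 16242992) (c (l 16231920) (l 16207592))) (b (a (l 16261296) (l 16237424)) (a (l 16198344) (l 16239616)))) (a (c (b (l 16195224) (a (l 16170688) (l 16181640))) (a (b (l 16158880) (c (l 16147736) (l 16132192))) (b (l 16164088) (l 16146696)))) (b (c (l 16199072) (l 16179880)) (c (l 16183352) (l 16166936))))) (c (b (a (c (l 16244896) (l 16220440)) (l 16240168)) (a (l 16220688) (l 16222688))) (b (a (l 16206160) (l 16222096))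 (l 16204504))))) (b (a (c (b (l 16265624) (b (l 16263840) (l 16259520))) (b (a (l 16260680) (l 16253880)) (a (l 16250256) (l 16244008)))) (c (l 16265264) (b (l 16241328) (l 16232576)))) (c (a (b (c (l 16251384) (l 16259208)) (l 16209432)) (b (l 16255824) (l 16254824))) (a (b (l 16237752) (l 16227424)) (b (l 16227752) (l 16231008)))))), by decide +kernel⟩

def k7_pp_022_a : ∃ t, chk3 f_pp_022_a t 3 7 1 = true :=
  ⟨(b (c (a (b (c (l 16261552) (l 16289104)) (c (l 16256120) (l 16280592))) (b (c (a (l 16322976) (l 16272536)) (l 16325936)) (c (a (l 16313224) (l 16343888)) (l 16311712)))) (a (b (l 16268728) (l 16255432)) (b (l 16282648) (l 16263688)))) (a (c (b (c (l 16254056) (l 16275168)) (c (l 16248248) (l 16265632))) (b (l 16244824) (c (a (b (l 16252864) (c (l 16253448) (l 16236232))) (l 16244048)) (a (b (l 16215040) (l 16214832)) (b (l 16210160) (l 16180856)))))) (c (b (c (a (l 16307344) (l 16335568)) (l 16301288)) (c (a (l 16298304) (l 16324456)) (l 16287528))) (b (l 16248144)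 (l 16228736))))), by decide +kernel⟩

theorem s8_pp_022_a : ∃ t, chk3 f_pp_022_a t 2 15 1 = true := ex3_c k5_pp_022_a k6_pp_022_a

theorem s9_pp_022_a : ∃ t, chk3 f_pp_022_a t 2 7 1 = true := ex3_b k4_pp_022_a s8_pp_022_a

theorem s10_pp_022_a : ∃ t, chk3 f_pp_022_a t 1 7 1 = true := ex3_a s9_pp_022_a k7_pp_022_a

theorem s11_pp_022_a : ∃ t, chk3 f_pp_022_a t 1 3 1 = true := ex3_b k3_pp_022_a s10_pp_022_a

theorem s12_pp_022_a : ∃ t, chk3 f_pp_022_a t 2 2 1 = true := ex3_b k0_pp_022_a k1_pp_022_a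

theorem s13_pp_022_a : ∃ t, chk3 f_pp_022_a t 1 2 1 = true := ex3_a s12_pp_022_a k2_pp_022_a

theorem s14_pp_022_a : ∃ t, chk3 f_pp_022_a t 1 1 1 = true := ex3_b s13_pp_022_a s11_pp_022_a

theorem c_pp_022_a : CertFX 0 67108864 0 420477299 1046898278 26843546 false true true .pp 0 2 2
    ndF4q0 ndF1q2a pcF2 Cut.none Ext.none :=
  certFX0 (fam := false) (s1 := true) (s2 := true) (a := 0) (b := 2) (c := 2) (cn := .pp) (n1 := ndF4q0) (n2 := ndF1q2a) (pc := pcF2) (cut := Cut.none) (xt := Ext.none) (P1 := 0) (W1 := 67108864) (P2 := 0) (W2 := 420477299) (P3 := 1046898278) (W3 := 26843546)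
    rfl s14_pp_022_a

noncomputable def f_pp_022_b : ℕ → ℕ → ℕ → ℕ → Bool := onCell 0 67108864 1073741824 536870912 1046898278 26843546
    (rowFX 1 false true true .pp 0 2 2 (qsf 0 67108864 1239849684 370763052 2) ndF4q0 ndF1q2b pcF2 Cut.none Ext.none)

def k0_pp_022_b : ∃ t, chk3 f_pp_022_b t 1 4 1 = true :=
  ⟨(b (l 1) (a (a (l 1) (a (l 1) (a (l 1) (b (l 1) (c (l 200822085063) (l 16312232)))))) (a (b (l 1) (c (c (l 270615434199) (l 150893271703)) (l 183642393063))) (b (b (l 1) (c (c (a (l 1) (l 207264982247)) (l 16351376)) (l 16349344))) (c (c (b (a (l 16431016) (a (l 16432240) (l 16374472))) (a (l 16318008) (l 16264160))) (l 16255040)) (l 16283712)))))), by decide +kernel⟩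

def k1_pp_022_b : ∃ t, chk3 f_pp_022_b t 1 5 1 = true :=
  ⟨(b (b (a (b (a (a (l 1) (a (l 1) (c (c (l 126734145255) (l 16354392)) (c (l 16432456) (l 16452320))))) (c (a (a (c (l 16307304) (l 26876285863)) (c (c (l 16374136) (l 16398576)) (l 16412816))) (c (b (l 16459272) (l 16351088)) (l 16350536))) (c (l 16276248) (l 16374352)))) (a (c (c (a (l 16217592) (a (l 16276680) (l 16337784))) (a (l 16162752) (b (l 16319448) (l 16159656)))) (a (c (a (l 16249496) (l 16171800)) (a (b (l 1) (l 16097424)) (l 16253576))) (c (l 16226240) (l 16342880)))) (c (c (a (l 16253256) (l 16317752)) (l 16228352)) (l 16280064)))) (b (c (a (c (b (l 16335336) (l 16188584)) (l 16047856)) (c (a (l 16109536) (l 16059832)) (l 16125784))) (a (l 16163816) (l 16125168))) (c (a (l 16138120) (a (l 16156520) (l 16155432))) (l 16033160)))) (a (a (c (b (a (l 15816136) (c (l 15820328) (l 15876080))) (a (l 15644888) (c (l 15744872) (l 15688824)))) (a (c (a (l 15742560) (l 15545656)) (a (b (l 15794776) (l 15561536))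 (l 15742384))) (c (l 15651864) (l 15820680)))) (c (a (c (b (l 16042216) (l 15723328)) (l 15699560)) (b (l 16030848) (l 15779664))) (l 15698784))) (c (a (b (b (l 16244544) (l 16152056)) (l 15927168)) (b (l 16286624) (l 16084272))) (b (l 16159792) (l 15978496))))) (a (b (a (c (a (l 14982296) (c (l 15099584) (l 15222184))) (a (c (l 15052240) (l 14825856)) (l 15159752))) (c (b (l 15294248) (l 15179808)) (l 15302640))) (a (c (a (l 14856160) (c (l 14985464) (l 14912304))) (a (c (l 14789400) (l 14744432)) (l 14839216))) (c (b (l 15004208) (l 15024352)) (l 14995120)))) (b (c (a (l 15507008) (c (l 15677856) (l 15704584))) (l 15551192)) (c (a (l 15231992) (b (l 15453144) (l 15455424))) (l 15293184))))), by decide +kernel⟩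

def k2_pp_022_b : ∃ t, chk3 f_pp_022_b t 1 3 1 = true :=
  ⟨(b (a (b (a (c (a (l 14855728) (l 14945936)) (a (l 14638624) (l 14838776))) (c (b (l 15025544) (l 15027072)) (l 14995592))) (c (a (b (l 14893928) (l 14893672)) (l 15023064)) (a (c (l 14828520) (l 14788248)) (l 14994256)))) (b (c (a (l 15234360) (l 15453544)) (l 15193056)) (c (l 15333032) (l 15290144)))) (a (a (c (b (l 14893672) (l 14893672)) (b (a (l 14764448) (l 14838776)) (l 14806968))) (c (l 15024352) (l 14994696))) (c (l 15122056) (l 15289320)))), by decide +kernel⟩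

theorem s3_pp_022_b : ∃ t, chk3 f_pp_022_b t 1 2 1 = true := ex3_b k0_pp_022_b k1_pp_022_b

theorem s4_pp_022_b : ∃ t, chk3 f_pp_022_b t 1 1 1 = true := ex3_b s3_pp_022_b k2_pp_022_b

theorem c_pp_022_b : CertFX 0 67108864 1239849684 370763052 1046898278 26843546 false true true .pp 0 2 2
    ndF4q0 ndF1q2b pcF2 Cut.none Ext.none :=
  certFX1 (fam := false) (s1 := true) (s2 := true) (a := 0) (b := 2) (c := 2) (cn := .pp) (n1 := ndF4q0) (n2 := ndF1q2b) (pc := pcF2) (cut := Cut.none) (xt := Ext.none) (P1 := 0) (W1 := 67108864) (P2 := 1239849684) (W2 := 370763052) (P3 := 1046898278) (W3 := 26843546)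
    rfl (fun _ => rfl) s4_pp_022_b

noncomputable def f_pp_023 : ℕ → ℕ → ℕ → ℕ → Bool := onCell 0 67108864 1073741824 536870912 1046898278 26843546
    (rowFX 1 false true true .up 0 2 3 (qsf 0 67108864 1610612736 469762048 2) ndF4q0 ndF1q3 pcF2 Cut.none Ext.none)

def k0_pp_023 : ∃ t, chk3 f_pp_023 t 1 1 1 = true :=
  ⟨(b (l 1) (b (l 1) (b (a (l 1) (l 15221584)) (a (c (l 14865264) (a (l 14806968) (l 14994696))) (l 15305472))))), by decide +kernel⟩

theorem c_pp_023 : CertFX 0 67108864 1610612736 469762048 1046898278 26843546 false true true .up 0 2 3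
    ndF4q0 ndF1q3 pcF2 Cut.none Ext.none :=
  certFX1 (fam := false) (s1 := true) (s2 := true) (a := 0) (b := 2) (c := 3) (cn := .up) (n1 := ndF4q0) (n2 := ndF1q3) (pc := pcF2) (cut := Cut.none) (xt := Ext.none) (P1 := 0) (W1 := 67108864) (P2 := 1610612736) (W2 := 469762048) (P3 := 1046898278) (W3 := 26843546)
    rfl (fun _ => rfl) k0_pp_023

noncomputable def f_pp_033 : ℕ → ℕ → ℕ → ℕ → Bool := onCell 0 67108864 1610612736 536870912 1046898278 26843546
    (rowFX 1 false true true .pnn 0 3 3 (qsf 0 67108864 1610612736 469762048 3) ndF4q0 ndF1q3 pcF3 Cut.none Ext.none)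

def k0_pp_033 : ∃ t, chk3 f_pp_033 t 1 1 1 = true :=
  ⟨(b (b (c (a (b (l 14760408) (a (l 14893672) (l 15024352))) (b (l 15331768) (l 15331768))) (c (a (b (l 14916760) (l 14916760)) (l 15307976)) (a (b (l 14881168) (l 14881168)) (l 15268352)))) (b (c (a (c (l 14963800) (l 28684885175)) (l 15331768)) (a (a (b (l 14806968) (l 43180110183)) (l 14994696)) (b (l 15289320) (l 4)))) (l 4))) (l 4)), by decide +kernel⟩

theorem c_pp_033 : CertFX 0 67108864 1610612736 469762048 1046898278 26843546 false true true .pnn 0 3 3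
    ndF4q0 ndF1q3 pcF3 Cut.none Ext.none :=
  certFX1 (fam := false) (s1 := true) (s2 := true) (a := 0) (b := 3) (c := 3) (cn := .pnn) (n1 := ndF4q0) (n2 := ndF1q3) (pc := pcF3) (cut := Cut.none) (xt := Ext.none) (P1 := 0) (W1 := 67108864) (P2 := 1610612736) (W2 := 469762048) (P3 := 1046898278) (W3 := 26843546)
    rfl (fun _ => rfl) k0_pp_033

noncomputable def f_pm_001 : ℕ → ℕ → ℕ → ℕ → Bool := onCell 0 67108864 536870912 536870912 1046898278 26843546
    (rowFX 0 false true false .up 0 0 1 (qsf 0 67108864 536870912 536870912 0) ndF4q0 ndF1q1 pcF0 Cut.none Ext.none)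

def k0_pm_001 : ∃ t, chk3 f_pm_001 t 1 1 1 = true :=
  ⟨(l 4), by decide +kernel⟩

theorem c_pm_001 : CertFX 0 67108864 536870912 536870912 1046898278 26843546 false true false .up 0 0 1
    ndF4q0 ndF1q1 pcF0 Cut.none Ext.none :=
  certFX0 (fam := false) (s1 := true) (s2 := false) (a := 0) (b := 0) (c := 1) (cn := .up) (n1 := ndF4q0) (n2 := ndF1q1) (pc := pcF0) (cut := Cut.none) (xt := Ext.none) (P1 := 0) (W1 := 67108864) (P2 := 536870912) (W2 := 536870912) (P3 := 1046898278) (W3 := 26843546)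
    rfl k0_pm_001

noncomputable def f_pm_011 : ℕ → ℕ → ℕ → ℕ → Bool := onCell 0 67108864 536870912 536870912 1046898278 26843546
    (rowFX 0 false true false .pnn 0 1 1 (qsf 0 67108864 536870912 536870912 1) ndF4q0 ndF1q1 pcF1 Cut.none Ext.none)

def k0_pm_011 : ∃ t, chk3 f_pm_011 t 1 1 1 = true :=
  ⟨(l 4), by decide +kernel⟩

theorem c_pm_011 : CertFX 0 67108864 536870912 536870912 1046898278 26843546 false true false .pnn 0 1 1
    ndF4q0 ndF1q1 pcF1 Cut.none Ext.none :=
  certFX0 (fam := false) (s1 := true) (s2 := false) (a := 0) (b := 1) (c := 1) (cn := .pnn) (n1 := ndF4q0) (n2 := ndF1q1) (pc := pcF1) (cut := Cut.none) (xt := Ext.none) (P1 := 0) (W1 := 67108864) (P2 := 536870912) (W2 := 536870912) (P3 := 1046898278) (W3 := 26843546)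
    rfl k0_pm_011

noncomputable def f_pm_012_a : ℕ → ℕ → ℕ → ℕ → Bool := onCell 0 67108864 0 420477299 1046898278 26843546
    (rowFX 0 false true false .pnp 0 1 2 (qsf 0 67108864 0 420477299 1) ndF4q0 ndF1q2a pcF1 Cut.none Ext.none)

def k0_pm_012_a : ∃ t, chk3 f_pm_012_a t 1 1 1 = true :=
  ⟨(b (l 2) (b (l 2) (a (l 2) (a (l 2) (a (l 2) (b (l 2) (b (l 2) (c (l 15137688) (c (l 15329192) (l 15373304)))))))))), by decide +kernel⟩

theorem c_pm_012_a : CertFX 0 67108864 0 420477299 1046898278 26843546 false true false .pnp 0 1 2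
    ndF4q0 ndF1q2a pcF1 Cut.none Ext.none :=
  certFX0 (fam := false) (s1 := true) (s2 := false) (a := 0) (b := 1) (c := 2) (cn := .pnp) (n1 := ndF4q0) (n2 := ndF1q2a) (pc := pcF1) (cut := Cut.none) (xt := Ext.none) (P1 := 0) (W1 := 67108864) (P2 := 0) (W2 := 420477299) (P3 := 1046898278) (W3 := 26843546)
    rfl k0_pm_012_a

noncomputable def f_pm_012_b : ℕ → ℕ → ℕ → ℕ → Bool := onCell 0 67108864 1239849684 370763052 1046898278 26843546
    (rowFX 0 false true false .pnp 0 1 2 (qsf 0 67108864 1239849684 370763052 1) ndF4q0 ndF1q2b pcF1 Cut.none Ext.none)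

def k0_pm_012_b : ∃ t, chk3 f_pm_012_b t 1 1 1 = true :=
  ⟨(l 2), by decide +kernel⟩

theorem c_pm_012_b : CertFX 0 67108864 1239849684 370763052 1046898278 26843546 false true false .pnp 0 1 2
    ndF4q0 ndF1q2b pcF1 Cut.none Ext.none :=
  certFX0 (fam := false) (s1 := true) (s2 := false) (a := 0) (b := 1) (c := 2) (cn := .pnp) (n1 := ndF4q0) (n2 := ndF1q2b) (pc := pcF1) (cut := Cut.none) (xt := Ext.none) (P1 := 0) (W1 := 67108864) (P2 := 1239849684) (W2 := 370763052) (P3 := 1046898278) (W3 := 26843546)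
    rfl k0_pm_012_b

noncomputable def f_pm_022_a : ℕ → ℕ → ℕ → ℕ → Bool := onCell 0 67108864 0 420477299 1046898278 26843546
    (rowFX 0 false true false .pp 0 2 2 (qsf 0 67108864 0 420477299 2) ndF4q0 ndF1q2a pcF2 Cut.none Ext.none)

def k0_pm_022_a : ∃ t, chk3 f_pm_022_a t 1 2 1 = true :=
  ⟨(a (b (b (a (a (c (l 16187360) (a (l 15898112) (l 16057624))) (c (a (l 16402024) (c (l 16473984) (l 16424968))) (a (l 16284032) (l 16412400)))) (c (l 16342472) (l 16464520))) (a (a (c (l 16245184) (a (l 16024320) (c (l 16286272) (l 16273408)))) (c (a (l 16257920) (l 16315864)) (a (c (l 16374704) (l 16378376)) (l 16425552)))) (c (l 16459896) (l 16458480)))) (b (a (a (c (a (l 16320840) (l 16219840)) (a (c (l 16305200) (a (l 16261640) (l 16314120))) (c (b (l 16373512) (l 16406360)) (l 16269552)))) (c (a (l 16319824) (l 16484976)) (b (l 16423760) (l 16434456)))) (c (l 16443968) (l 16447376))) (a (c (a (a (l 16401320) (l 16481024)) (l 16320248)) (a (a (c (l 16385184) (b (a (l 16303816) (l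 16375000)) (l 16309824))) (c (l 16433224) (l 16398064))) (l 16464432))) (c (l 16343576) (l 16416824))))) (b (c (a (b (l 16366536) (l 16324856)) (b (l 16196384) (l 16167816))) (a (l 16363224) (l 16213688))) (a (c (b (l 16277408) (l 16192880)) (b (l 16296936) (l 16239408))) (c (b (l 15873464) (c (a (l 16029840) (l 15901120)) (l 16002352))) (b (l 16147400) (l 15990096)))))), by decide +kernel⟩

def k1_pm_022_a : ∃ t, chk3 f_pm_022_a t 1 6 1 = true :=
  ⟨(a (a (c (a (b (l 16451256) (l 16275888)) (b (c (l 16414520) (l 16463296)) (c (a (l 16340720) (l 16310912)) (l 16303256)))) (a (b (c (a (l 16448136) (l 16501784)) (a (c (l 16426680) (l 16412008)) (l 16461280))) (c (a (l 16510664) (l 16397208)) (a (c (l 16432728) (a (l 16391408) (l 16531120))) (l 16437656)))) (b (c (l 16498552) (l 16507736)) (c (l 16428984) (l 16443904))))) (c (b (a (l 16391016) (l 16307512)) (a (c (l 16200008) (l 16326576)) (b (l 16224536) (l 15950464)))) (b (l 16340816) (a (l 16331960) (l 16068504))))) (c (b (a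 (a (l 16172048) (c (l 16041632) (l 16056360))) (a (c (l 15886888) (l 15930752)) (l 15757312))) (a (b (a (l 16021768) (l 15929880)) (c (l 15903272) (l 15925920))) (c (l 15603848) (l 15664872)))) (a (b (l 16009864) (b (l 16063392) (l 15980336))) (b (l 15917816) (l 15741712))))), by decide +kernel⟩

def k2_pm_022_a : ∃ t, chk3 f_pm_022_a t 2 14 1 = true :=
  ⟨(c (a (a (a (b (l 16445616) (l 16409272)) (b (l 16282664) (c (l 16308856) (l 16360520)))) (b (c (a (l 16271248) (l 16224720)) (l 16199080)) (c (a (b (l 16264584) (l 16265048)) (l 16214360)) (a (l 16311560) (l 16331848))))) (b (a (c (b (l 16183936) (l 16184448)) (l 16206648)) (l 15914224)) (c (a (l 16167728) (l 16040504)) (l 16003288)))) (a (a (c (a (b (l 16483176) (l 16517232)) (b (l 16367864) (a (l 16446256) (l 16381576)))) (a (b (c (l 16510616) (b (l 16482992) (l 16512024))) (c (l 16548504) (a (l 16519848) (l 16558728)))) (b (l 16477080) (c (l 16500896) (l 16513280))))) (b (c (l 16330296) (l 16391888)) (c (a (l 16337576)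 (l 16362032)) (a (l 16381040) (l 16375136))))) (b (a (b (l 16264752) (l 16254192)) (l 16117792)) (l 16185456)))), by decide +kernel⟩

def k3_pm_022_a : ∃ t, chk3 f_pm_022_a t 2 15 1 = true :=
  ⟨(c (a (a (b (c (a (b (l 16460248) (l 16465240)) (l 16356808)) (a (l 16522976) (l 16366792))) (c (c (l 16391288) (l 16435656)) (c (l 16464184) (l 16458880)))) (c (b (a (l 16236728) (l 16206032)) (a (l 16259160) (l 16200936))) (c (b (l 16328856) (l 16315496)) (b (l 16372216) (l 16266160))))) (c (b (a (l 16156024) (l 16020008)) (a (l 16155848) (l 16033584))) (b (a (l 16237704) (l 16057120)) (c (l 15950232) (l 16057600))))) (a (a (c (a (b (b (l 16549568) (l 16567992)) (l 16599592)) (b (a (l 16458800) (l 16473192)) (a (l 16537912) (l 16466904)))) (b (a (c (b (a (l 16598816) (l 16566536)) (l 16561512)) (a (b (c (l 16595808) (l 16499344)) (l 16505632)) (b (l 16594360) (l 16612944)))) (c (l 16535312) (l 16549336))) (a (c (a (l 16616912) (l 16616840)) (a (c (l 16576144) (a (l 16553856) (l 16591416)))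 (l 16622928))) (c (l 16574136) (l 16589280))))) (c (b (l 16408440) (l 16377704)) (b (l 16433736) (l 16447048)))) (c (b (l 16177200) (a (l 16271664) (l 16098736))) (l 16034440)))), by decide +kernel⟩

def k4_pm_022_a : ∃ t, chk3 f_pm_022_a t 3 7 1 = true :=
  ⟨(c (b (a (c (l 15531944) (b (l 15835920) (l 15801104))) (c (b (l 15439296) (l 15402384)) (b (l 15500392) (l 15454288)))) (a (c (b (l 15749488) (l 15786544)) (b (l 15635856) (a (l 15862720) (l 15690280)))) (b (c (l 15416096) (l 15438064)) (c (l 15480784) (l 15476280))))) (b (c (a (l 15734368) (b (l 15569272) (l 15530744))) (a (l 15912160) (l 15602232))) (a (c (b (l 15844616) (a (l 15925736) (l 15756200))) (b (l 15900400) (l 15907832))) (c (b (l 15463456) (a (l 15586504) (l 15427824))) (b (l 15571280) (a (l 15654464) (l 15458288))))))), by decide +kernel⟩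

theorem s5_pm_022_a : ∃ t, chk3 f_pm_022_a t 2 7 1 = true := ex3_b k2_pm_022_a k3_pm_022_a

theorem s6_pm_022_a : ∃ t, chk3 f_pm_022_a t 1 7 1 = true := ex3_a s5_pm_022_a k4_pm_022_a

theorem s7_pm_022_a : ∃ t, chk3 f_pm_022_a t 1 3 1 = true := ex3_b k1_pm_022_a s6_pm_022_a

theorem s8_pm_022_a : ∃ t, chk3 f_pm_022_a t 1 1 1 = true := ex3_b k0_pm_022_a s7_pm_022_a

theorem c_pm_022_a : CertFX 0 67108864 0 420477299 1046898278 26843546 false true false .pp 0 2 2
    ndF4q0 ndF1q2a pcF2 Cut.none Ext.none :=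
  certFX0 (fam := false) (s1 := true) (s2 := false) (a := 0) (b := 2) (c := 2) (cn := .pp) (n1 := ndF4q0) (n2 := ndF1q2a) (pc := pcF2) (cut := Cut.none) (xt := Ext.none) (P1 := 0) (W1 := 67108864) (P2 := 0) (W2 := 420477299) (P3 := 1046898278) (W3 := 26843546)
    rfl s8_pm_022_a

noncomputable def f_pm_022_b : ℕ → ℕ → ℕ → ℕ → Bool := onCell 0 67108864 1073741824 536870912 1046898278 26843546
    (rowFX 1 false true false .pp 0 2 2 (qsf 0 67108864 1239849684 370763052 2) ndF4q0 ndF1q2b pcF2 Cut.none Ext.none)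

def k0_pm_022_b : ∃ t, chk3 f_pm_022_b t 1 2 1 = true :=
  ⟨(b (b (l 1) (a (a (l 1) (b (l 1) (c (a (l 1) (l 477310772855)) (l 418254794055)))) (a (b (l 1) (c (l 80563195607) (l 16363568))) (b (a (l 1) (b (l 1) (c (l 16197328) (l 16377432)))) (c (l 205116637575) (l 16224808)))))) (b (a (b (a (a (b (l 1) (c (a (l 16228328) (l 16249880)) (c (b (l 743598736999) (l 16103192)) (a (l 16035464) (l 16207752))))) (b (c (a (l 1) (l 456909767351)) (l 405370011863)) (c (c (l 16270656) (l 16217240)) (c (l 16266200) (l 16265928))))) (b (c (a (l 16428376) (l 16441152)) (l 16458888)) (c (l 16114712) (l 16333872)))) (a (c (a (l 15582104) (c (l 15718368) (l 15673624))) (a (c (a (l 15759848) (l 15759888)) (a (l 15510280) (l 15753296))) (c (l 15835912) (l 15822944)))) (c (b (l 15931776) (l 15793192)) (l 15814216)))) (b (b (c (a (l 16303616) (l 16136048)) (a (l 16299360) (l 16150768))) (c (a (l 16400136) (l 16241744)) (l 16222040))) (c (a (b (l 16271176) (l 16045048)) (l 16157288)) (a (l 16033808)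 (l 16301560))))) (a (b (a (c (a (l 15341640) (c (l 15483328) (l 15401744))) (a (c (l 15218448) (a (l 15180864) (l 15224288))) (l 15189160))) (c (a (l 15477000) (l 15558624)) (l 15483096))) (a (c (a (l 15083328) (c (l 15233968) (l 15147096))) (a (c (l 14993848) (l 14932928)) (l 15052280))) (c (l 15285592) (l 15230048)))) (b (c (a (l 15741992) (l 15942264)) (l 15583968)) (c (a (l 15511208) (l 15744048)) (l 15559144)))))), by decide +kernel⟩

def k1_pm_022_b : ∃ t, chk3 f_pm_022_b t 1 3 1 = true :=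
  ⟨(b (a (b (c (a (a (l 14981440) (b (l 15117368) (l 15034504))) (b (l 15207640) (l 15118272))) (a (a (b (l 14761856) (l 14841160)) (l 14958160)) (l 15123392))) (c (a (b (l 14903200) (l 14893672)) (l 15029616)) (a (c (l 14833320) (l 14792776)) (l 14999648)))) (b (c (b (l 15532080) (l 15432712)) (l 15411160)) (c (b (l 15342496) (l 15331768)) (l 15294616)))) (c (a (b (a (l 14893672) (l 15024352)) (a (l 14893672) (l 15024352))) (b (l 15331768) (l 15331768))) (c (a (b (l 14916760) (l 14916760)) (l 15307976)) (a (b (l 14881168) (l 14881168)) (l 15268352))))), by decide +kernel⟩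

theorem s2_pm_022_b : ∃ t, chk3 f_pm_022_b t 1 1 1 = true := ex3_b k0_pm_022_b k1_pm_022_b

theorem c_pm_022_b : CertFX 0 67108864 1239849684 370763052 1046898278 26843546 false true false .pp 0 2 2
    ndF4q0 ndF1q2b pcF2 Cut.none Ext.none :=
  certFX1 (fam := false) (s1 := true) (s2 := false) (a := 0) (b := 2) (c := 2) (cn := .pp) (n1 := ndF4q0) (n2 := ndF1q2b) (pc := pcF2) (cut := Cut.none) (xt := Ext.none) (P1 := 0) (W1 := 67108864) (P2 := 1239849684) (W2 := 370763052) (P3 := 1046898278) (W3 := 26843546)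
    rfl (fun _ => rfl) s2_pm_022_b

noncomputable def f_pm_023 : ℕ → ℕ → ℕ → ℕ → Bool := onCell 0 67108864 1073741824 536870912 1046898278 26843546
    (rowFX 1 false true false .up 0 2 3 (qsf 0 67108864 1610612736 469762048 2) ndF4q0 ndF1q3 pcF2 Cut.none Ext.none)

def k0_pm_023 : ∃ t, chk3 f_pm_023 t 1 1 1 = true :=
  ⟨(b (l 1) (b (l 1) (b (a (l 1) (c (l 15331768) (l 15289320))) (a (c (l 506298706951) (l 456369500647)) (c (l 15331768) (l 15289320)))))), by decide +kernel⟩

theorem c_pm_023 : CertFX 0 67108864 1610612736 469762048 1046898278 26843546 false true false .up 0 2 3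
    ndF4q0 ndF1q3 pcF2 Cut.none Ext.none :=
  certFX1 (fam := false) (s1 := true) (s2 := false) (a := 0) (b := 2) (c := 3) (cn := .up) (n1 := ndF4q0) (n2 := ndF1q3) (pc := pcF2) (cut := Cut.none) (xt := Ext.none) (P1 := 0) (W1 := 67108864) (P2 := 1610612736) (W2 := 469762048) (P3 := 1046898278) (W3 := 26843546)
    rfl (fun _ => rfl) k0_pm_023

noncomputable def f_pm_033 : ℕ → ℕ → ℕ → ℕ → Bool := onCell 0 67108864 1610612736 469762048 1046898278 26843546
    (rowFX 0 false true false .pnn 0 3 3 (qsf 0 67108864 1610612736 469762048 3) ndF4q0 ndF1q3 pcF3 Cut.none Ext.none)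

def k0_pm_033 : ∃ t, chk3 f_pm_033 t 1 1 1 = true :=
  ⟨(b (b (c (b (a (a (l 14893672) (l 15024352)) (l 15331768)) (l 4)) (c (a (b (l 14916760) (l 14895792)) (l 15307976)) (a (b (l 14881168) (l 14839224)) (l 15268352)))) (l 4)) (l 4)), by decide +kernel⟩

theorem c_pm_033 : CertFX 0 67108864 1610612736 469762048 1046898278 26843546 false true false .pnn 0 3 3
    ndF4q0 ndF1q3 pcF3 Cut.none Ext.none :=
  certFX0 (fam := false) (s1 := true) (s2 := false) (a := 0) (b := 3) (c := 3) (cn := .pnn) (n1 := ndF4q0) (n2 := ndF1q3) (pc := pcF3) (cut := Cut.none) (xt := Ext.none) (P1 := 0) (W1 := 67108864) (P2 := 1610612736) (W2 := 469762048) (P3 := 1046898278) (W3 := 26843546)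
    rfl k0_pm_033

noncomputable def f_mm_001 : ℕ → ℕ → ℕ → ℕ → Bool := onCell 0 67108864 536870912 536870912 1046898278 26843546
    (rowFX 0 false false false .up 0 0 1 (qsf 0 67108864 536870912 536870912 0) ndF4q0 ndF1q1 pcF0 Cut.none Ext.none)

def k0_mm_001 : ∃ t, chk3 f_mm_001 t 1 1 1 = true :=
  ⟨(l 3), by decide +kernel⟩

theorem c_mm_001 : CertFX 0 67108864 536870912 536870912 1046898278 26843546 false false false .up 0 0 1
    ndF4q0 ndF1q1 pcF0 Cut.none Ext.none :=
  certFX0 (fam := false) (s1 := false) (s2 := false) (a := 0) (b := 0) (c := 1) (cn := .up) (n1 := ndF4q0) (n2 := ndF1q1) (pc := pcF0) (cut := Cut.none) (xt := Ext.none) (P1 := 0) (W1 := 67108864) (P2 := 536870912) (W2 := 536870912) (P3 := 1046898278) (W3 := 26843546)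
    rfl k0_mm_001

noncomputable def f_mm_011 : ℕ → ℕ → ℕ → ℕ → Bool := onCell 0 67108864 536870912 536870912 1046898278 26843546
    (rowFX 0 false false false .pnn 0 1 1 (qsf 0 67108864 536870912 536870912 1) ndF4q0 ndF1q1 pcF1 Cut.none Ext.none)

def k0_mm_011 : ∃ t, chk3 f_mm_011 t 1 1 1 = true :=
  ⟨(l 3), by decide +kernel⟩

theorem c_mm_011 : CertFX 0 67108864 536870912 536870912 1046898278 26843546 false false false .pnn 0 1 1
    ndF4q0 ndF1q1 pcF1 Cut.none Ext.none :=
  certFX0 (fam := false) (s1 := false) (s2 := false) (a := 0) (b := 1) (c := 1) (cn := .pnn) (n1 := ndF4q0) (n2 := ndF1q1) (pc := pcF1) (cut := Cut.none) (xt := Ext.none) (P1 := 0) (W1 := 67108864) (P2 := 536870912) (W2 := 536870912) (P3 := 1046898278) (W3 := 26843546)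
    rfl k0_mm_011

noncomputable def f_mm_012_a : ℕ → ℕ → ℕ → ℕ → Bool := onCell 0 67108864 0 420477299 1046898278 26843546
    (rowFX 0 false false false .pnp 0 1 2 (qsf 0 67108864 0 420477299 1) ndF4q0 ndF1q2a pcF1 Cut.none Ext.none)

def k0_mm_012_a : ∃ t, chk3 f_mm_012_a t 1 1 1 = true :=
  ⟨(l 5), by decide +kernel⟩

theorem c_mm_012_a : CertFX 0 67108864 0 420477299 1046898278 26843546 false false false .pnp 0 1 2
    ndF4q0 ndF1q2a pcF1 Cut.none Ext.none :=
  certFX0 (fam := false) (s1 := false) (s2 := false) (a := 0) (b := 1) (c := 2) (cn := .pnp) (n1 := ndF4q0) (n2 := ndF1q2a) (pc := pcF1) (cut := Cut.none) (xt := Ext.none) (P1 := 0) (W1 := 67108864) (P2 := 0) (W2 := 420477299) (P3 := 1046898278) (W3 := 26843546)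
    rfl k0_mm_012_a

noncomputable def f_mm_012_b : ℕ → ℕ → ℕ → ℕ → Bool := onCell 0 67108864 1239849684 370763052 1046898278 26843546
    (rowFX 0 false false false .pnp 0 1 2 (qsf 0 67108864 1239849684 370763052 1) ndF4q0 ndF1q2b pcF1 Cut.none Ext.none)

def k0_mm_012_b : ∃ t, chk3 f_mm_012_b t 1 1 1 = true :=
  ⟨(l 2), by decide +kernel⟩

theorem c_mm_012_b : CertFX 0 67108864 1239849684 370763052 1046898278 26843546 false false false .pnp 0 1 2
    ndF4q0 ndF1q2b pcF1 Cut.none Ext.none :=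
  certFX0 (fam := false) (s1 := false) (s2 := false) (a := 0) (b := 1) (c := 2) (cn := .pnp) (n1 := ndF4q0) (n2 := ndF1q2b) (pc := pcF1) (cut := Cut.none) (xt := Ext.none) (P1 := 0) (W1 := 67108864) (P2 := 1239849684) (W2 := 370763052) (P3 := 1046898278) (W3 := 26843546)
    rfl k0_mm_012_b

noncomputable def f_mm_022_a : ℕ → ℕ → ℕ → ℕ → Bool := onCell 0 67108864 0 420477299 1046898278 26843546
    (rowFX 0 false false false .pp 0 2 2 (qsf 0 67108864 0 420477299 2) ndF4q0 ndF1q2a pcF2 Cut.none Ext.none)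

def k0_mm_022_a : ∃ t, chk3 f_mm_022_a t 1 1 1 = true :=
  ⟨(l 5), by decide +kernel⟩

theorem c_mm_022_a : CertFX 0 67108864 0 420477299 1046898278 26843546 false false false .pp 0 2 2
    ndF4q0 ndF1q2a pcF2 Cut.none Ext.none :=
  certFX0 (fam := false) (s1 := false) (s2 := false) (a := 0) (b := 2) (c := 2) (cn := .pp) (n1 := ndF4q0) (n2 := ndF1q2a) (pc := pcF2) (cut := Cut.none) (xt := Ext.none) (P1 := 0) (W1 := 67108864) (P2 := 0) (W2 := 420477299) (P3 := 1046898278) (W3 := 26843546)
    rfl k0_mm_022_a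

noncomputable def f_mm_022_b : ℕ → ℕ → ℕ → ℕ → Bool := onCell 0 67108864 1239849684 370763052 1046898278 26843546
    (rowFX 0 false false false .pp 0 2 2 (qsf 0 67108864 1239849684 370763052 2) ndF4q0 ndF1q2b pcF2 Cut.none Ext.none)

def k0_mm_022_b : ∃ t, chk3 f_mm_022_b t 1 1 1 = true :=
  ⟨(l 5), by decide +kernel⟩

theorem c_mm_022_b : CertFX 0 67108864 1239849684 370763052 1046898278 26843546 false false false .pp 0 2 2
    ndF4q0 ndF1q2b pcF2 Cut.none Ext.none :=
  certFX0 (fam := false) (s1 := false) (s2 := false) (a := 0) (b := 2) (c := 2) (cn := .pp) (n1 := ndF4q0) (n2 := ndF1q2b) (pc := pcF2) (cut := Cut.none) (xt := Ext.none) (P1 := 0) (W1 := 67108864) (P2 := 1239849684) (W2 := 370763052) (P3 := 1046898278) (W3 := 26843546)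
    rfl k0_mm_022_b

noncomputable def f_mm_023 : ℕ → ℕ → ℕ → ℕ → Bool := onCell 0 67108864 1610612736 469762048 1046898278 26843546
    (rowFX 0 false false false .up 0 2 3 (qsf 0 67108864 1610612736 469762048 2) ndF4q0 ndF1q3 pcF2 Cut.none Ext.none)

def k0_mm_023 : ∃ t, chk3 f_mm_023 t 1 1 1 = true :=
  ⟨(l 5), by decide +kernel⟩

theorem c_mm_023 : CertFX 0 67108864 1610612736 469762048 1046898278 26843546 false false false .up 0 2 3
    ndF4q0 ndF1q3 pcF2 Cut.none Ext.none :=
  certFX0 (fam := false) (s1 := false) (s2 := false) (a := 0) (b := 2) (c := 3) (cn := .up) (n1 := ndF4q0) (n2 := ndF1q3) (pc := pcF2) (cut := Cut.none) (xt := Ext.none) (P1 := 0) (W1 := 67108864) (P2 := 1610612736) (W2 := 469762048) (P3 := 1046898278) (W3 := 26843546)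
    rfl k0_mm_023

noncomputable def f_mm_033 : ℕ → ℕ → ℕ → ℕ → Bool := onCell 0 67108864 1610612736 469762048 1046898278 26843546
    (rowFX 0 false false false .pnn 0 3 3 (qsf 0 67108864 1610612736 469762048 3) ndF4q0 ndF1q3 pcF3 Cut.none Ext.none)

def k0_mm_033 : ∃ t, chk3 f_mm_033 t 1 1 1 = true :=
  ⟨(l 5), by decide +kernel⟩

theorem c_mm_033 : CertFX 0 67108864 1610612736 469762048 1046898278 26843546 false false false .pnn 0 3 3
    ndF4q0 ndF1q3 pcF3 Cut.none Ext.none :=
  certFX0 (fam := false) (s1 := false) (s2 := false) (a := 0) (b := 3) (c := 3) (cn := .pnn) (n1 := ndF4q0) (n2 := ndF1q3) (pc := pcF3) (cut := Cut.none) (xt := Ext.none) (P1 := 0) (W1 := 67108864) (P2 := 1610612736) (W2 := 469762048) (P3 := 1046898278) (W3 := 26843546)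
    rfl k0_mm_033

end Pool.Agent.Strip051.G.IE1.Tab.C.FB41

namespace Pool.Agent.Strip051.G.IE1.Tab.C.FB42

open Pool.Agent.Strip051.PB Pool.Agent.Strip051.PB.T
open Pool.Agent.Strip051.G.IE1.Tab

noncomputable def f_pp_001 : ℕ → ℕ → ℕ → ℕ → Bool := onCell 0 67108864 536870912 536870912 1046898278 26843546
    (rowFX 0 false true true .up 0 0 1 (qsf 0 67108864 536870912 536870912 0) ndF4q0 ndF2q1 pcF0 Cut.none Ext.none)

def k0_pp_001 : ∃ t, chk3 f_pp_001 t 1 1 1 = true :=
  ⟨(l 3), by decide +kernel⟩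

theorem c_pp_001 : CertFX 0 67108864 536870912 536870912 1046898278 26843546 false true true .up 0 0 1
    ndF4q0 ndF2q1 pcF0 Cut.none Ext.none :=
  certFX0 (fam := false) (s1 := true) (s2 := true) (a := 0) (b := 0) (c := 1) (cn := .up) (n1 := ndF4q0) (n2 := ndF2q1) (pc := pcF0) (cut := Cut.none) (xt := Ext.none) (P1 := 0) (W1 := 67108864) (P2 := 536870912) (W2 := 536870912) (P3 := 1046898278) (W3 := 26843546)
    rfl k0_pp_001

noncomputable def f_pp_011 : ℕ → ℕ → ℕ → ℕ → Bool := onCell 0 67108864 536870912 536870912 1046898278 26843546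
    (rowFX 0 false true true .pnn 0 1 1 (qsf 0 67108864 536870912 536870912 1) ndF4q0 ndF2q1 pcF1 Cut.none Ext.none)

def k0_pp_011 : ∃ t, chk3 f_pp_011 t 1 1 1 = true :=
  ⟨(l 3), by decide +kernel⟩

theorem c_pp_011 : CertFX 0 67108864 536870912 536870912 1046898278 26843546 false true true .pnn 0 1 1
    ndF4q0 ndF2q1 pcF1 Cut.none Ext.none :=
  certFX0 (fam := false) (s1 := true) (s2 := true) (a := 0) (b := 1) (c := 1) (cn := .pnn) (n1 := ndF4q0) (n2 := ndF2q1) (pc := pcF1) (cut := Cut.none) (xt := Ext.none) (P1 := 0) (W1 := 67108864) (P2 := 536870912) (W2 := 536870912) (P3 := 1046898278) (W3 := 26843546)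
    rfl k0_pp_011

noncomputable def f_pp_012_a : ℕ → ℕ → ℕ → ℕ → Bool := onCell 0 67108864 0 420477299 1046898278 26843546
    (rowFX 0 false true true .pnp 0 1 2 (qsf 0 67108864 0 420477299 1) ndF4q0 ndF2q2a pcF1 Cut.none Ext.none)

def k0_pp_012_a : ∃ t, chk3 f_pp_012_a t 1 1 1 = true :=
  ⟨(b (l 2) (b (l 2) (a (l 2) (a (l 2) (a (l 2) (b (l 2) (b (l 2) (c (l 16606504) (l 16624808))))))))), by decide +kernel⟩

theorem c_pp_012_a : CertFX 0 67108864 0 420477299 1046898278 26843546 false true true .pnp 0 1 2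
    ndF4q0 ndF2q2a pcF1 Cut.none Ext.none :=
  certFX0 (fam := false) (s1 := true) (s2 := true) (a := 0) (b := 1) (c := 2) (cn := .pnp) (n1 := ndF4q0) (n2 := ndF2q2a) (pc := pcF1) (cut := Cut.none) (xt := Ext.none) (P1 := 0) (W1 := 67108864) (P2 := 0) (W2 := 420477299) (P3 := 1046898278) (W3 := 26843546)
    rfl k0_pp_012_a

noncomputable def f_pp_012_b : ℕ → ℕ → ℕ → ℕ → Bool := onCell 0 67108864 1239849684 370763052 1046898278 26843546
    (rowFX 0 false true true .pnp 0 1 2 (qsf 0 67108864 1239849684 370763052 1) ndF4q0 ndF2q2b pcF1 Cut.none Ext.none)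

def k0_pp_012_b : ∃ t, chk3 f_pp_012_b t 1 1 1 = true :=
  ⟨(l 2), by decide +kernel⟩

theorem c_pp_012_b : CertFX 0 67108864 1239849684 370763052 1046898278 26843546 false true true .pnp 0 1 2
    ndF4q0 ndF2q2b pcF1 Cut.none Ext.none :=
  certFX0 (fam := false) (s1 := true) (s2 := true) (a := 0) (b := 1) (c := 2) (cn := .pnp) (n1 := ndF4q0) (n2 := ndF2q2b) (pc := pcF1) (cut := Cut.none) (xt := Ext.none) (P1 := 0) (W1 := 67108864) (P2 := 1239849684) (W2 := 370763052) (P3 := 1046898278) (W3 := 26843546)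
    rfl k0_pp_012_b

noncomputable def f_pp_022_a : ℕ → ℕ → ℕ → ℕ → Bool := onCell 0 67108864 0 420477299 1046898278 26843546
    (rowFX 0 false true true .pp 0 2 2 (qsf 0 67108864 0 420477299 2) ndF4q0 ndF2q2a pcF2 Cut.none Ext.none)

def k0_pp_022_a : ∃ t, chk3 f_pp_022_a t 1 2 1 = true :=
  ⟨(a (b (a (a (c (b (l 16406656) (l 16415256)) (a (c (l 16331920) (a (l 16200560) (l 16254632))) (c (l 16245616) (l 16319800)))) (b (c (a (l 16344032) (a (l 16266808) (l 16255328))) (a (l 16371536) (l 16191104))) (c (a (b (l 16296672) (l 16155992)) (a (l 16141496) (l 16269080))) (a (b (l 16322480) (l 16180600)) (b (l 16260440) (l 16272704)))))) (b (c (l 16225584) (l 16273824)) (c (a (l 16315600) (l 16367240)) (l 16299032)))) (a (b (a (c (b (l 16246576) (a (l 16309576) (l 16234168))) (a (c (l 16269920) (a (l 16338064) (l 16153424))) (b (c (l 16293416) (l 16281192)) (c (l 16243016) (l 16251040))))) (c (a (b (l 16237496) (l 16244600)) (l 16272504)) (c (l 16220048) (l 16266784)))) (c (a (b (l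 16245640) (l 16256336)) (l 16125520)) (a (b (a (a (l 16170128) (l 16204376)) (l 16198944)) (c (l 16257680) (a (c (l 16249408) (a (l 16253400) (l 16262816))) (l 16240800)))) (l 16270200)))) (c (b (a (l 16347712) (l 16400968)) (a (l 16361632) (l 16437848))) (b (l 16333008) (l 16370048))))) (b (c (a (b (l 16369216) (l 16395840)) (c (l 16327488) (l 16403896))) (a (l 16359544) (l 16414056))) (a (b (c (l 16410280) (l 16407784)) (l 16399696)) (c (b (l 16480752) (c (l 16517496) (l 16512272))) (b (l 16487344) (l 16526784)))))), by decide +kernel⟩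

def k1_pp_022_a : ∃ t, chk3 f_pp_022_a t 2 6 1 = true :=
  ⟨(c (a (b (b (a (l 16277888) (l 16325136)) (c (a (l 16309072) (l 16335168)) (a (c (l 16307832) (l 16253072)) (a (l 16339456) (l 16399528))))) (c (a (b (c (l 16343872) (l 16329408)) (b (l 16330832) (l 16417504))) (b (a (l 16278560) (l 16382040)) (a (c (b (l 16357184) (l 16382904)) (b (l 16372056) (l 16409256))) (c (l 16383072) (l 16439496))))) (a (b (c (l 16342024) (l 16387168)) (l 16333552)) (b (a (c (l 16362224) (l 16397784)) (c (l 16427280) (l 16450832))) (a (c (l 16409824) (l 16491288)) (c (l 16481424) (l 16520456))))))) (b (l 16347056) (c (b (l 16512288) (a (a (l 16474744) (l 16550488)) (l 16579640))) (b (a (a (l 16479136) (l 16493688)) (l 16510192)) (a (c (l 16537728) (l 16531304)) (l 16551536)))))) (a (b (c (a (b (a (l 16240672) (l 16172088)) (a (l 16285784) (c (l 16327808) (l 16318720)))) (b (l 16347368) (c (l 16348800) (l 16370440)))) (a (b (a (c (l 16260904) (l 16251896)) (c (l 16317720) (l 16328536))) (a (c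 (l 16410720) (l 16453488)) (l 16418360))) (b (c (l 16339536) (l 16345592)) (c (l 16371048) (l 16391536))))) (a (a (c (l 16389952) (c (l 16369816) (a (l 16340408) (l 16456248)))) (c (b (l 16444984) (l 16426104)) (b (l 16533448) (l 16375032)))) (c (b (a (l 16453048) (l 16459112)) (l 16449304)) (b (l 16506072) (l 16464872))))) (b (b (l 16406344) (c (a (l 16419208) (l 16450320)) (a (a (l 16390504) (l 16386400)) (l 16459688)))) (c (b (a (c (l 16463472) (l 16456656)) (l 16487568)) (a (l 16528424) (l 16535704))) (b (a (b (l 16463456) (l 16505200)) (l 16506048)) (a (l 16578224) (l 16568792))))))), by decide +kernel⟩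

def k2_pp_022_a : ∃ t, chk3 f_pp_022_a t 3 6 1 = true :=
  ⟨(a (c (b (l 16521464) (l 16581728)) (b (l 16502088) (b (c (l 16544616) (l 16392176)) (c (a (l 16566560) (l 16601600)) (a (l 16590664) (a (l 16608576) (l 16606544))))))) (c (b (l 16560048) (l 16615848)) (b (l 16575840) (l 16610352)))), by decide +kernel⟩

def k3_pp_022_a : ∃ t, chk3 f_pp_022_a t 2 7 2 = true :=
  ⟨(b (a (a (b (c (l 16314568) (c (l 16528160) (l 16407920))) (c (l 16472680) (l 16307832))) (c (b (a (c (l 16411304) (l 16493784)) (b (l 16424488) (l 16526512))) (a (l 16521928) (l 16572296))) (b (a (l 16506904) (l 16551920)) (a (l 16468440) (l 16478352))))) (b (c (a (c (b (l 16545344) (l 16568840)) (a (l 16576568) (l 16572504))) (b (l 16580400) (l 16557664))) (a (b (l 16582712) (l 16555760)) (l 16438328))) (a (c (c (l 16359048) (l 16503632)) (a (l 16448400) (l 16489104))) (c (b (a (l 16519816) (l 16508992)) (a (l 16372912) (l 16430224))) (b (l 16552448) (l 16506624)))))) (a (a (b (c (l 16400096) (l 16220240))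 (c (b (l 16381000) (a (l 16318488) (l 16378400))) (a (l 16247344) (b (l 16360392) (l 16336384))))) (b (a (c (l 16407144) (l 16359504)) (c (a (l 16418120) (l 16361816)) (l 16265320))) (c (a (b (c (l 16471256) (l 16441144)) (l 16363064)) (l 16261568)) (a (b (l 16348904) (l 16350760)) (l 16333528))))) (b (a (c (b (a (l 16470400) (l 16331816)) (a (l 16387520) (l 16396904))) (a (l 16237488) (l 16406800))) (c (c (l 16337664) (l 16427912)) (l 16449048))) (c (a (c (l 16378136) (a (l 16355904) (l 16334040))) (l 16287832)) (a (c (l 16296472) (l 16344384)) (l 16329208)))))), by decide +kernel⟩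

def k4_pp_022_a : ∃ t, chk3 f_pp_022_a t 2 7 3 = true :=
  ⟨(b (a (a (c (a (b (l 16392192) (l 16385632)) (b (l 16359064) (c (l 16443160) (l 16392416)))) (b (b (a (c (l 16414776) (l 16330952)) (l 16416832)) (c (l 16283888) (l 16246048))) (a (c (l 16329024) (l 16227616)) (l 16313096)))) (c (b (l 16411424) (l 16342944)) (b (l 16427200) (l 16385088)))) (b (c (a (l 16566256) (l 16545064)) (l 16435008)) (c (a (l 16477160) (b (l 16544032) (l 16502448))) (a (l 16437176) (b (l 16492816) (l 16455080)))))) (a (a (c (b (a (l 16304416) (c (l 16360032) (l 16312424))) (a (b (l 16253928) (l 16186672)) (b (a (l 16284640) (l 16290520)) (a (l 16242688) (l 16273936))))) (b (a (c (l 16210696) (a (l 16167224) (l 16223168))) (l 16133056)) (a (c (a (l 16186504) (b (l 16216576) (l 16195152))) (a (c (l 16099872) (a (l 16121136) (l 16149744))) (b (l 16179416) (l 16160296)))) (c (b (l 16227256) (l 16212656)) (b (l 16208248) (l 16196432)))))) (b (c (a (l 16331464) (l 16348696)) (b (l 16327016) (l 16273696)))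 (c (a (b (l 16263984) (l 16272128)) (l 16301536)) (b (l 16169304) (l 16268104))))) (b (a (c (b (l 16416896) (l 16386760)) (b (l 16382072) (l 16356984))) (c (l 16452544) (l 16413008))) (c (a (l 16358784) (l 16409440)) (a (l 16338480) (l 16382008)))))), by decide +kernel⟩

def k5_pp_022_a : ∃ t, chk3 f_pp_022_a t 3 7 1 = true :=
  ⟨(b (c (a (b (c (l 16595344) (a (b (l 16596768) (l 16552680)) (l 16632792))) (c (a (a (b (l 16540744) (l 16484840)) (l 16438072)) (l 16551832)) (a (b (l 16581408) (l 16544400)) (b (l 16589408) (l 16553952))))) (l 16432112)) (a (b (a (c (b (l 16600768) (l 16608384)) (b (l 16596344) (l 16560992))) (c (l 16485496) (b (l 16597728) (l 16572520)))) (a (c (l 16513344) (l 16501608)) (c (l 16550752) (l 16524504)))) (b (c (l 16603968) (a (l 16578912) (l 16577608))) (c (a (l 16541992) (l 16538712)) (a (l 16497416) (l 16490136)))))) (c (a (b (c (a (b (l 16452984) (l 16436392)) (l 16435896)) (a (c (l 16469288) (l 16493504)) (b (l 16496752) (l 16482400)))) (c (a (l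 16381280) (b (l 16421104) (l 16386936))) (a (l 16363800) (l 16393264)))) (b (c (a (c (l 16495272) (l 16504552)) (l 16514808)) (a (b (l 16513976) (l 16475504)) (l 16361136))) (c (a (b (l 16416312) (a (l 16395040) (l 16378040))) (b (l 16449592) (c (l 16407448) (l 16400384)))) (a (b (l 16439192) (l 16387952)) (b (a (l 16425528) (l 16421968)) (a (l 16388160) (l 16379448))))))) (a (b (a (l 16356944) (c (l 16449136) (l 16455912))) (c (a (l 16431536) (l 16430696)) (l 16332304))) (b (c (a (b (l 16488416) (l 16455520)) (b (l 16480080) (l 16378568))) (a (l 16465256) (b (l 16457088) (l 16426672)))) (c (a (b (l 16428096) (l 16406880)) (b (l 16281064) (a (l 16387816) (l 16372176)))) (a (l 16414584) (b (l 16404592) (c (l 16386856) (l 16391784))))))))), by decide +kernel⟩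

theorem s6_pp_022_a : ∃ t, chk3 f_pp_022_a t 2 7 1 = true := ex3_c k3_pp_022_a k4_pp_022_a

theorem s7_pp_022_a : ∃ t, chk3 f_pp_022_a t 1 7 1 = true := ex3_a s6_pp_022_a k5_pp_022_a

theorem s8_pp_022_a : ∃ t, chk3 f_pp_022_a t 1 6 1 = true := ex3_a k1_pp_022_a k2_pp_022_a

theorem s9_pp_022_a : ∃ t, chk3 f_pp_022_a t 1 3 1 = true := ex3_b s8_pp_022_a s7_pp_022_a

theorem s10_pp_022_a : ∃ t, chk3 f_pp_022_a t 1 1 1 = true := ex3_b k0_pp_022_a s9_pp_022_a

theorem c_pp_022_a : CertFX 0 67108864 0 420477299 1046898278 26843546 false true true .pp 0 2 2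
    ndF4q0 ndF2q2a pcF2 Cut.none Ext.none :=
  certFX0 (fam := false) (s1 := true) (s2 := true) (a := 0) (b := 2) (c := 2) (cn := .pp) (n1 := ndF4q0) (n2 := ndF2q2a) (pc := pcF2) (cut := Cut.none) (xt := Ext.none) (P1 := 0) (W1 := 67108864) (P2 := 0) (W2 := 420477299) (P3 := 1046898278) (W3 := 26843546)
    rfl s10_pp_022_a

noncomputable def f_pp_022_b : ℕ → ℕ → ℕ → ℕ → Bool := onCell 0 67108864 1073741824 536870912 1046898278 26843546
    (rowFX 1 false true true .pp 0 2 2 (qsf 0 67108864 1239849684 370763052 2) ndF4q0 ndF2q2b pcF2 Cut.none Ext.none)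

def k0_pp_022_b : ∃ t, chk3 f_pp_022_b t 1 2 1 = true :=
  ⟨(b (b (l 1) (a (a (l 1) (b (l 1) (c (a (l 1) (l 16329208)) (l 16273272)))) (b (a (l 1) (c (b (l 1) (a (l 1) (l 16436664))) (l 16405384))) (a (c (b (l 16390104) (a (l 16375832) (l 16278704))) (b (l 16473600) (l 16267960))) (c (a (b (l 16374488) (l 16216152)) (l 16031112)) (b (l 16382816) (l 16173296))))))) (b (a (b (b (a (a (l 1) (a (l 1) (a (l 1) (c (l 16278528) (l 16309664))))) (c (a (b (l 16337496) (l 16229208)) (l 16267192)) (l 16095208))) (a (c (a (l 16291680) (a (l 16289840) (l 16269104))) (a (c (b (l 16293216) (l 16288768)) (a (b (l 1) (l 16262624)) (l 16369360))) (l 16222616))) (c (b (l 16205128) (l 16379456)) (l 16320040)))) (a (c (a (l 15694000) (c (l 15751168) (l 15720784))) (b (a (c (l 15975312) (l 15788872)) (l 16034616)) (a (c (l 15665568) (l 15639392)) (l 15709280)))) (c (b (a (l 16117896) (l 16191576)) (l 15836128)) (b (l 16196192) (l 15842320))))) (b (b (c (a (l 16074008) (l 15915352)) (l 15887088))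 (a (l 16005000) (c (l 16031520) (l 16063376)))) (a (b (l 16232488) (l 15962848)) (c (l 16173784) (l 16320144))))) (a (b (a (c (a (l 15197088) (c (l 15318728) (l 15253096))) (a (c (l 15141848) (l 14936872)) (l 15191424))) (c (l 15226632) (l 15337600))) (a (c (a (l 14856200) (l 14945968)) (a (c (l 14789440) (l 14744472)) (l 14839272))) (c (l 15024816) (l 14995176)))) (a (b (l 15464808) (l 15208216)) (b (l 15528232) (l 15415248)))))), by decide +kernel⟩

def k1_pp_022_b : ∃ t, chk3 f_pp_022_b t 1 3 1 = true :=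
  ⟨(c (b (a (a (b (a (l 14855728) (l 14945488)) (l 14893672)) (b (l 15024352) (l 15024352))) (b (l 15331768) (l 15331768))) (a (a (l 14893672) (l 15024352)) (l 15331768))) (b (a (a (c (a (l 14705064) (l 14857264)) (a (b (l 14743968) (l 14743968)) (l 14837368))) (l 14994696)) (l 15289320)) (a (a (a (c (l 14788952) (l 14743968)) (l 14838776)) (l 14994696)) (l 15289320)))), by decide +kernel⟩

theorem s2_pp_022_b : ∃ t, chk3 f_pp_022_b t 1 1 1 = true := ex3_b k0_pp_022_b k1_pp_022_b

theorem c_pp_022_b : CertFX 0 67108864 1239849684 370763052 1046898278 26843546 false true true .pp 0 2 2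
    ndF4q0 ndF2q2b pcF2 Cut.none Ext.none :=
  certFX1 (fam := false) (s1 := true) (s2 := true) (a := 0) (b := 2) (c := 2) (cn := .pp) (n1 := ndF4q0) (n2 := ndF2q2b) (pc := pcF2) (cut := Cut.none) (xt := Ext.none) (P1 := 0) (W1 := 67108864) (P2 := 1239849684) (W2 := 370763052) (P3 := 1046898278) (W3 := 26843546)
    rfl (fun _ => rfl) s2_pp_022_b

noncomputable def f_pp_023 : ℕ → ℕ → ℕ → ℕ → Bool := onCell 0 67108864 1073741824 536870912 1046898278 26843546
    (rowFX 1 false true true .up 0 2 3 (qsf 0 67108864 1610612736 469762048 2) ndF4q0 ndF2q3 pcF2 Cut.none Ext.none)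

def k0_pp_023 : ∃ t, chk3 f_pp_023 t 1 1 1 = true :=
  ⟨(b (l 1) (b (l 1) (a (a (c (l 14893672) (a (l 426841400631) (l 14838776))) (l 119751688695)) (c (l 15331768) (l 15289320))))), by decide +kernel⟩

theorem c_pp_023 : CertFX 0 67108864 1610612736 469762048 1046898278 26843546 false true true .up 0 2 3
    ndF4q0 ndF2q3 pcF2 Cut.none Ext.none :=
  certFX1 (fam := false) (s1 := true) (s2 := true) (a := 0) (b := 2) (c := 3) (cn := .up) (n1 := ndF4q0) (n2 := ndF2q3) (pc := pcF2) (cut := Cut.none) (xt := Ext.none) (P1 := 0) (W1 := 67108864) (P2 := 1610612736) (W2 := 469762048) (P3 := 1046898278) (W3 := 26843546)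
    rfl (fun _ => rfl) k0_pp_023

noncomputable def f_pp_033 : ℕ → ℕ → ℕ → ℕ → Bool := onCell 0 67108864 1610612736 536870912 1046898278 26843546
    (rowFX 1 false true true .pnn 0 3 3 (qsf 0 67108864 1610612736 469762048 3) ndF4q0 ndF2q3 pcF3 Cut.none Ext.none)

def k0_pp_033 : ∃ t, chk3 f_pp_033 t 1 1 1 = true :=
  ⟨(a (b (b (c (b (a (l 14893672) (l 15024352)) (a (l 14893672) (l 15024352))) (b (a (l 14765024) (l 14994696)) (c (l 14728016) (l 14713392)))) (c (b (a (l 14893672) (l 15024352)) (b (a (l 14893672) (l 15024352)) (a (l 14893672) (l 15024352)))) (b (a (c (l 14828616) (l 14788264)) (l 14994696)) (b (c (l 14916760) (l 14881168)) (c (l 14811904) (l 14881168)))))) (b (b (l 4) (l 4)) (l 4))) (b (b (b (c (l 15331768) (l 15289320)) (c (l 15331768) (l 15289320))) (c (b (l 15331768) (b (l 15331768) (l 4))) (b (l 15289320) (b (l 15289320) (l 4))))) (l 4))), by decide +kernel⟩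

theorem c_pp_033 : CertFX 0 67108864 1610612736 469762048 1046898278 26843546 false true true .pnn 0 3 3
    ndF4q0 ndF2q3 pcF3 Cut.none Ext.none :=
  certFX1 (fam := false) (s1 := true) (s2 := true) (a := 0) (b := 3) (c := 3) (cn := .pnn) (n1 := ndF4q0) (n2 := ndF2q3) (pc := pcF3) (cut := Cut.none) (xt := Ext.none) (P1 := 0) (W1 := 67108864) (P2 := 1610612736) (W2 := 469762048) (P3 := 1046898278) (W3 := 26843546)
    rfl (fun _ => rfl) k0_pp_033

noncomputable def f_pm_001 : ℕ → ℕ → ℕ → ℕ → Bool := onCell 0 67108864 536870912 536870912 1046898278 26843546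
    (rowFX 0 false true false .up 0 0 1 (qsf 0 67108864 536870912 536870912 0) ndF4q0 ndF2q1 pcF0 Cut.none Ext.none)

def k0_pm_001 : ∃ t, chk3 f_pm_001 t 1 1 1 = true :=
  ⟨(l 4), by decide +kernel⟩

theorem c_pm_001 : CertFX 0 67108864 536870912 536870912 1046898278 26843546 false true false .up 0 0 1
    ndF4q0 ndF2q1 pcF0 Cut.none Ext.none :=
  certFX0 (fam := false) (s1 := true) (s2 := false) (a := 0) (b := 0) (c := 1) (cn := .up) (n1 := ndF4q0) (n2 := ndF2q1) (pc := pcF0) (cut := Cut.none) (xt := Ext.none) (P1 := 0) (W1 := 67108864) (P2 := 536870912) (W2 := 536870912) (P3 := 1046898278) (W3 := 26843546)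
    rfl k0_pm_001

noncomputable def f_pm_011 : ℕ → ℕ → ℕ → ℕ → Bool := onCell 0 67108864 536870912 536870912 1046898278 26843546
    (rowFX 0 false true false .pnn 0 1 1 (qsf 0 67108864 536870912 536870912 1) ndF4q0 ndF2q1 pcF1 Cut.none Ext.none)

def k0_pm_011 : ∃ t, chk3 f_pm_011 t 1 1 1 = true :=
  ⟨(l 4), by decide +kernel⟩

theorem c_pm_011 : CertFX 0 67108864 536870912 536870912 1046898278 26843546 false true false .pnn 0 1 1
    ndF4q0 ndF2q1 pcF1 Cut.none Ext.none :=
  certFX0 (fam := false) (s1 := true) (s2 := false) (a := 0) (b := 1) (c := 1) (cn := .pnn) (n1 := ndF4q0) (n2 := ndF2q1) (pc := pcF1) (cut := Cut.none) (xt := Ext.none) (P1 := 0) (W1 := 67108864) (P2 := 536870912) (W2 := 536870912) (P3 := 1046898278) (W3 := 26843546)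
    rfl k0_pm_011

noncomputable def f_pm_012_a : ℕ → ℕ → ℕ → ℕ → Bool := onCell 536870912 536870912 0 420477299 1046898278 26843546
    (rowFX 2 false true false .pnp 0 1 2 (qsf 0 67108864 0 420477299 1) ndF4q0 ndF2q2a pcF1 Cut.none Ext.none)

def k0_pm_012_a : ∃ t, chk3 f_pm_012_a t 1 1 1 = true :=
  ⟨(a (l 2) (a (l 2) (b (l 2) (l 4)))), by decide +kernel⟩

theorem c_pm_012_a : CertFX 0 67108864 0 420477299 1046898278 26843546 false true false .pnp 0 1 2
    ndF4q0 ndF2q2a pcF1 Cut.none Ext.none :=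
  certFX2 (fam := false) (s1 := true) (s2 := false) (a := 0) (b := 1) (c := 2) (cn := .pnp) (n1 := ndF4q0) (n2 := ndF2q2a) (pc := pcF1) (cut := Cut.none) (xt := Ext.none) (P1 := 0) (W1 := 67108864) (P2 := 0) (W2 := 420477299) (P3 := 1046898278) (W3 := 26843546)
    rfl (fun _ => rfl) k0_pm_012_a

noncomputable def f_pm_012_b : ℕ → ℕ → ℕ → ℕ → Bool := onCell 0 67108864 1239849684 370763052 1046898278 26843546
    (rowFX 0 false true false .pnp 0 1 2 (qsf 0 67108864 1239849684 370763052 1) ndF4q0 ndF2q2b pcF1 Cut.none Ext.none)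

def k0_pm_012_b : ∃ t, chk3 f_pm_012_b t 1 1 1 = true :=
  ⟨(l 2), by decide +kernel⟩

theorem c_pm_012_b : CertFX 0 67108864 1239849684 370763052 1046898278 26843546 false true false .pnp 0 1 2
    ndF4q0 ndF2q2b pcF1 Cut.none Ext.none :=
  certFX0 (fam := false) (s1 := true) (s2 := false) (a := 0) (b := 1) (c := 2) (cn := .pnp) (n1 := ndF4q0) (n2 := ndF2q2b) (pc := pcF1) (cut := Cut.none) (xt := Ext.none) (P1 := 0) (W1 := 67108864) (P2 := 1239849684) (W2 := 370763052) (P3 := 1046898278) (W3 := 26843546)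
    rfl k0_pm_012_b

noncomputable def f_pm_022_a : ℕ → ℕ → ℕ → ℕ → Bool := onCell 0 67108864 0 420477299 1046898278 26843546
    (rowFX 0 false true false .pp 0 2 2 (qsf 0 67108864 0 420477299 2) ndF4q0 ndF2q2a pcF2 Cut.none Ext.none)

def k0_pm_022_a : ∃ t, chk3 f_pm_022_a t 1 2 1 = true :=
  ⟨(a (b (a (a (c (l 16159640) (c (b (l 16306928) (l 16335864)) (a (b (l 16238624) (l 16291168)) (l 16349096)))) (c (b (a (l 16476296) (l 16418152)) (a (l 16359560) (l 16392968))) (b (a (l 16411536) (l 16463328)) (a (l 16246720) (l 16439272))))) (b (c (l 16319128) (l 16310872)) (c (l 16287504) (l 16280952)))) (a (b (a (c (b (l 16429920) (l 16217128)) (a (c (l 16371600) (a (l 16331672) (l 16356648))) (c (b (l 16444016) (l 16459368)) (b (l 16413032) (l 16428064))))) (c (a (l 16405152) (l 16378200)) (a (l 16290584) (l 16429976)))) (a (c (a (l 16378816) (l 16489504)) (c (a (l 16321184) (l 16476720)) (a (b (a (l 16363744) (l 16402552)) (l 16385912)) (l 16442216)))) (c (l 16300544) (l 16460056))))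 (c (b (l 16240528) (a (l 16273728) (l 16188696))) (b (l 16259552) (l 16208176))))) (b (a (c (l 15933848) (l 16045184)) (c (b (l 15789128) (l 15728944)) (l 15796960))) (a (c (b (l 15975440) (l 15836688)) (b (l 15985512) (l 15970432))) (c (b (c (l 15663472) (l 15685976)) (c (a (l 15724576) (l 4)) (l 15671440))) (b (l 15723280) (l 15449584)))))), by decide +kernel⟩

def k1_pm_022_a : ∃ t, chk3 f_pm_022_a t 1 6 1 = true :=
  ⟨(a (a (c (b (a (l 16404248) (c (l 16376592) (l 16421496))) (a (c (l 16526256) (l 16351056)) (c (b (l 16344400) (l 4)) (a (l 16461736) (l 16438544))))) (a (c (b (l 16319928) (a (l 16466952) (l 16479248))) (a (b (c (l 16389864) (l 16396048)) (c (l 16439592) (a (l 16382880) (l 16436944)))) (b (l 16467704) (l 16494320)))) (b (l 16319960) (c (l 16482096) (l 16497000))))) (c (b (a (c (l 16311848) (l 16325048)) (l 16154448)) (c (l 4) (a (l 16320680) (l 16071568)))) (b (l 16107184) (a (l 16291760) (b (l 16199936) (l 16120024)))))) (c (a (b (c (l 4) (a (l 16025480) (l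 15884032))) (l 4)) (l 4)) (b (a (a (l 16042712) (l 15887856)) (b (l 15695248) (l 15702096))) (a (b (a (l 16061400) (l 15925520)) (l 16017776)) (l 15731912))))), by decide +kernel⟩

def k2_pm_022_a : ∃ t, chk3 f_pm_022_a t 1 7 1 = true :=
  ⟨(a (c (a (b (c (l 4) (a (b (l 16471136) (a (l 16548752) (l 16550960))) (b (a (l 16504840) (l 4)) (l 4)))) (a (l 4) (l 4))) (l 4)) (a (b (a (c (a (b (l 16483200) (l 16527176)) (b (l 16532648) (a (l 16588688) (l 16510712)))) (a (a (b (l 16384064) (l 16403520)) (b (l 16464000) (l 16505664))) (b (l 16500064) (l 16459784)))) (b (c (l 16501448) (l 16538752)) (c (a (b (l 16550504) (l 16545288)) (l 16489016)) (b (l 16510592) (l 16523264))))) (a (a (c (b (b (l 16503496) (l 16592952)) (l 16590464)) (b (a (b (c (l 16515248) (l 16447280)) (l 16490656)) (c (l 16525656) (l 16536560))) (c (l 16480344) (c (l 16513424) (l 16532224))))) (c (a (b (l 16589376) (l 16581864)) (l 212298251447)) (b (l 16494224) (c (l 16601704) (l 16612736))))) (c (a (l 213908911719)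 (l 4)) (b (l 16512536) (l 269206637719))))) (b (b (a (b (l 16307424) (l 16309360)) (l 16249216)) (l 16168808)) (c (l 4) (a (l 16341544) (l 4)))))) (c (l 4) (b (c (l 4) (a (l 16043840) (l 4))) (l 4)))), by decide +kernel⟩

theorem s3_pm_022_a : ∃ t, chk3 f_pm_022_a t 1 3 1 = true := ex3_b k1_pm_022_a k2_pm_022_a

theorem s4_pm_022_a : ∃ t, chk3 f_pm_022_a t 1 1 1 = true := ex3_b k0_pm_022_a s3_pm_022_a

theorem c_pm_022_a : CertFX 0 67108864 0 420477299 1046898278 26843546 false true false .pp 0 2 2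
    ndF4q0 ndF2q2a pcF2 Cut.none Ext.none :=
  certFX0 (fam := false) (s1 := true) (s2 := false) (a := 0) (b := 2) (c := 2) (cn := .pp) (n1 := ndF4q0) (n2 := ndF2q2a) (pc := pcF2) (cut := Cut.none) (xt := Ext.none) (P1 := 0) (W1 := 67108864) (P2 := 0) (W2 := 420477299) (P3 := 1046898278) (W3 := 26843546)
    rfl s4_pm_022_a

noncomputable def f_pm_022_b : ℕ → ℕ → ℕ → ℕ → Bool := onCell 0 67108864 1073741824 536870912 1046898278 26843546
    (rowFX 1 false true false .pp 0 2 2 (qsf 0 67108864 1239849684 370763052 2) ndF4q0 ndF2q2b pcF2 Cut.none Ext.none)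

def k0_pm_022_b : ∃ t, chk3 f_pm_022_b t 1 2 1 = true :=
  ⟨(b (b (l 1) (a (a (l 1) (a (l 1) (b (l 1) (c (l 688837517719) (l 16143704))))) (a (b (l 1) (c (b (l 16083520) (l 16100592)) (l 190084018903))) (b (c (b (l 1) (l 678099091159)) (l 534754656567)) (c (l 108479170583) (l 15905528)))))) (b (a (b (b (a (a (l 1) (a (l 1) (c (l 16408944) (l 16460920)))) (c (a (l 16384464) (l 16318088)) (l 16337496))) (a (c (a (l 16310208) (l 16190008)) (a (a (b (l 1) (l 16122736)) (a (l 16200976) (l 16227016))) (l 16272464))) (c (l 16406704) (l 16460728)))) (a (c (a (l 15936120) (c (l 16038080) (l 15975528))) (a (c (l 15800872) (a (l 15791720) (l 15965720))) (l 15792008))) (c (b (l 16191416) (l 16046304)) (b (l 16242104) (l 16051952))))) (b (b (c (a (l 16193032) (l 16042024)) (l 16077976)) (c (l 16159584) (l 16244144))) (c (a (l 16166880) (l 16208472)) (a (l 16155080) (l 16364456))))) (a (b (a (c (a (l 15688576) (c (l 15814312) (l 15738336))) (a (c (l 15553032) (a (l 15524672) (l 15581752)))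 (c (l 15680352) (l 15656528)))) (c (c (l 15844040) (l 15830544)) (l 15790776))) (a (c (a (l 15439288) (c (l 15578304) (l 15497496))) (a (c (l 15359024) (a (l 15280584) (l 15322976))) (l 15306904))) (c (c (l 15617352) (l 15602032)) (l 15576408)))) (b (c (a (l 15934472) (l 16088680)) (a (l 16006160) (l 16184528))) (c (a (l 15772864) (l 15949360)) (a (l 15782208) (l 15962344))))))), by decide +kernel⟩

def k1_pm_022_b : ∃ t, chk3 f_pm_022_b t 1 3 1 = true :=
  ⟨(b (b (a (c (a (b (a (l 15244752) (l 15189064)) (a (l 15043184) (c (l 15170384) (l 15098920)))) (b (l 15368048) (l 15184048))) (a (c (a (b (l 15170160) (l 14975680)) (l 14912288)) (b (l 14956232) (l 14973392))) (b (l 15380312) (l 15178976)))) (c (b (l 8285154055) (l 4)) (b (l 15579184) (l 15463496)))) (a (c (a (b (a (l 14874424) (l 4)) (l 4)) (l 4)) (b (a (c (a (l 14807976) (l 14876048)) (l 14807200)) (l 15012992)) (a (l 410936684903) (l 4)))) (l 4))) (l 4)), by decide +kernel⟩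

theorem s2_pm_022_b : ∃ t, chk3 f_pm_022_b t 1 1 1 = true := ex3_b k0_pm_022_b k1_pm_022_b

theorem c_pm_022_b : CertFX 0 67108864 1239849684 370763052 1046898278 26843546 false true false .pp 0 2 2
    ndF4q0 ndF2q2b pcF2 Cut.none Ext.none :=
  certFX1 (fam := false) (s1 := true) (s2 := false) (a := 0) (b := 2) (c := 2) (cn := .pp) (n1 := ndF4q0) (n2 := ndF2q2b) (pc := pcF2) (cut := Cut.none) (xt := Ext.none) (P1 := 0) (W1 := 67108864) (P2 := 1239849684) (W2 := 370763052) (P3 := 1046898278) (W3 := 26843546)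
    rfl (fun _ => rfl) s2_pm_022_b

noncomputable def f_pm_023 : ℕ → ℕ → ℕ → ℕ → Bool := onCell 0 67108864 1610612736 469762048 1046898278 26843546
    (rowFX 0 false true false .up 0 2 3 (qsf 0 67108864 1610612736 469762048 2) ndF4q0 ndF2q3 pcF2 Cut.none Ext.none)

def k0_pm_023 : ∃ t, chk3 f_pm_023 t 1 1 1 = true :=
  ⟨(l 4), by decide +kernel⟩

theorem c_pm_023 : CertFX 0 67108864 1610612736 469762048 1046898278 26843546 false true false .up 0 2 3
    ndF4q0 ndF2q3 pcF2 Cut.none Ext.none :=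
  certFX0 (fam := false) (s1 := true) (s2 := false) (a := 0) (b := 2) (c := 3) (cn := .up) (n1 := ndF4q0) (n2 := ndF2q3) (pc := pcF2) (cut := Cut.none) (xt := Ext.none) (P1 := 0) (W1 := 67108864) (P2 := 1610612736) (W2 := 469762048) (P3 := 1046898278) (W3 := 26843546)
    rfl k0_pm_023

noncomputable def f_pm_033 : ℕ → ℕ → ℕ → ℕ → Bool := onCell 0 67108864 1610612736 469762048 1046898278 26843546
    (rowFX 0 false true false .pnn 0 3 3 (qsf 0 67108864 1610612736 469762048 3) ndF4q0 ndF2q3 pcF3 Cut.none Ext.none)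

def k0_pm_033 : ∃ t, chk3 f_pm_033 t 1 1 1 = true :=
  ⟨(l 4), by decide +kernel⟩

theorem c_pm_033 : CertFX 0 67108864 1610612736 469762048 1046898278 26843546 false true false .pnn 0 3 3
    ndF4q0 ndF2q3 pcF3 Cut.none Ext.none :=
  certFX0 (fam := false) (s1 := true) (s2 := false) (a := 0) (b := 3) (c := 3) (cn := .pnn) (n1 := ndF4q0) (n2 := ndF2q3) (pc := pcF3) (cut := Cut.none) (xt := Ext.none) (P1 := 0) (W1 := 67108864) (P2 := 1610612736) (W2 := 469762048) (P3 := 1046898278) (W3 := 26843546)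
    rfl k0_pm_033

noncomputable def f_mm_001 : ℕ → ℕ → ℕ → ℕ → Bool := onCell 0 67108864 536870912 536870912 1046898278 26843546
    (rowFX 0 false false false .up 0 0 1 (qsf 0 67108864 536870912 536870912 0) ndF4q0 ndF2q1 pcF0 Cut.none Ext.none)

def k0_mm_001 : ∃ t, chk3 f_mm_001 t 1 1 1 = true :=
  ⟨(l 3), by decide +kernel⟩

theorem c_mm_001 : CertFX 0 67108864 536870912 536870912 1046898278 26843546 false false false .up 0 0 1
    ndF4q0 ndF2q1 pcF0 Cut.none Ext.none :=
  certFX0 (fam := false) (s1 := false) (s2 := false) (a := 0) (b := 0) (c := 1) (cn := .up) (n1 := ndF4q0) (n2 := ndF2q1) (pc := pcF0) (cut := Cut.none) (xt := Ext.none) (P1 := 0) (W1 := 67108864) (P2 := 536870912) (W2 := 536870912) (P3 := 1046898278) (W3 := 26843546)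
    rfl k0_mm_001

noncomputable def f_mm_011 : ℕ → ℕ → ℕ → ℕ → Bool := onCell 0 67108864 536870912 536870912 1046898278 26843546
    (rowFX 0 false false false .pnn 0 1 1 (qsf 0 67108864 536870912 536870912 1) ndF4q0 ndF2q1 pcF1 Cut.none Ext.none)

def k0_mm_011 : ∃ t, chk3 f_mm_011 t 1 1 1 = true :=
  ⟨(l 3), by decide +kernel⟩

theorem c_mm_011 : CertFX 0 67108864 536870912 536870912 1046898278 26843546 false false false .pnn 0 1 1
    ndF4q0 ndF2q1 pcF1 Cut.none Ext.none :=
  certFX0 (fam := false) (s1 := false) (s2 := false) (a := 0) (b := 1) (c := 1) (cn := .pnn) (n1 := ndF4q0) (n2 := ndF2q1) (pc := pcF1) (cut := Cut.none) (xt := Ext.none) (P1 := 0) (W1 := 67108864) (P2 := 536870912) (W2 := 536870912) (P3 := 1046898278) (W3 := 26843546)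
    rfl k0_mm_011

noncomputable def f_mm_012_a : ℕ → ℕ → ℕ → ℕ → Bool := onCell 0 67108864 0 420477299 1046898278 26843546
    (rowFX 0 false false false .pnp 0 1 2 (qsf 0 67108864 0 420477299 1) ndF4q0 ndF2q2a pcF1 Cut.none Ext.none)

def k0_mm_012_a : ∃ t, chk3 f_mm_012_a t 1 1 1 = true :=
  ⟨(l 5), by decide +kernel⟩

theorem c_mm_012_a : CertFX 0 67108864 0 420477299 1046898278 26843546 false false false .pnp 0 1 2
    ndF4q0 ndF2q2a pcF1 Cut.none Ext.none :=
  certFX0 (fam := false) (s1 := false) (s2 := false) (a := 0) (b := 1) (c := 2) (cn := .pnp) (n1 := ndF4q0) (n2 := ndF2q2a) (pc := pcF1) (cut := Cut.none) (xt := Ext.none) (P1 := 0) (W1 := 67108864) (P2 := 0) (W2 := 420477299) (P3 := 1046898278) (W3 := 26843546)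
    rfl k0_mm_012_a

noncomputable def f_mm_012_b : ℕ → ℕ → ℕ → ℕ → Bool := onCell 0 67108864 1239849684 370763052 1046898278 26843546
    (rowFX 0 false false false .pnp 0 1 2 (qsf 0 67108864 1239849684 370763052 1) ndF4q0 ndF2q2b pcF1 Cut.none Ext.none)

def k0_mm_012_b : ∃ t, chk3 f_mm_012_b t 1 1 1 = true :=
  ⟨(l 2), by decide +kernel⟩

theorem c_mm_012_b : CertFX 0 67108864 1239849684 370763052 1046898278 26843546 false false false .pnp 0 1 2
    ndF4q0 ndF2q2b pcF1 Cut.none Ext.none :=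
  certFX0 (fam := false) (s1 := false) (s2 := false) (a := 0) (b := 1) (c := 2) (cn := .pnp) (n1 := ndF4q0) (n2 := ndF2q2b) (pc := pcF1) (cut := Cut.none) (xt := Ext.none) (P1 := 0) (W1 := 67108864) (P2 := 1239849684) (W2 := 370763052) (P3 := 1046898278) (W3 := 26843546)
    rfl k0_mm_012_b

noncomputable def f_mm_022_a : ℕ → ℕ → ℕ → ℕ → Bool := onCell 0 67108864 0 420477299 1046898278 26843546
    (rowFX 0 false false false .pp 0 2 2 (qsf 0 67108864 0 420477299 2) ndF4q0 ndF2q2a pcF2 Cut.none Ext.none)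

def k0_mm_022_a : ∃ t, chk3 f_mm_022_a t 1 1 1 = true :=
  ⟨(l 5), by decide +kernel⟩

theorem c_mm_022_a : CertFX 0 67108864 0 420477299 1046898278 26843546 false false false .pp 0 2 2
    ndF4q0 ndF2q2a pcF2 Cut.none Ext.none :=
  certFX0 (fam := false) (s1 := false) (s2 := false) (a := 0) (b := 2) (c := 2) (cn := .pp) (n1 := ndF4q0) (n2 := ndF2q2a) (pc := pcF2) (cut := Cut.none) (xt := Ext.none) (P1 := 0) (W1 := 67108864) (P2 := 0) (W2 := 420477299) (P3 := 1046898278) (W3 := 26843546)
    rfl k0_mm_022_a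

noncomputable def f_mm_022_b : ℕ → ℕ → ℕ → ℕ → Bool := onCell 0 67108864 1239849684 370763052 1046898278 26843546
    (rowFX 0 false false false .pp 0 2 2 (qsf 0 67108864 1239849684 370763052 2) ndF4q0 ndF2q2b pcF2 Cut.none Ext.none)

def k0_mm_022_b : ∃ t, chk3 f_mm_022_b t 1 1 1 = true :=
  ⟨(l 5), by decide +kernel⟩

theorem c_mm_022_b : CertFX 0 67108864 1239849684 370763052 1046898278 26843546 false false false .pp 0 2 2
    ndF4q0 ndF2q2b pcF2 Cut.none Ext.none :=
  certFX0 (fam := false) (s1 := false) (s2 := false) (a := 0) (b := 2) (c := 2) (cn := .pp) (n1 := ndF4q0) (n2 := ndF2q2b) (pc := pcF2) (cut := Cut.none) (xt := Ext.none) (P1 := 0) (W1 := 67108864) (P2 := 1239849684) (W2 := 370763052) (P3 := 1046898278) (W3 := 26843546)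
    rfl k0_mm_022_b

noncomputable def f_mm_023 : ℕ → ℕ → ℕ → ℕ → Bool := onCell 0 67108864 1610612736 469762048 1046898278 26843546
    (rowFX 0 false false false .up 0 2 3 (qsf 0 67108864 1610612736 469762048 2) ndF4q0 ndF2q3 pcF2 Cut.none Ext.none)

def k0_mm_023 : ∃ t, chk3 f_mm_023 t 1 1 1 = true :=
  ⟨(l 5), by decide +kernel⟩

theorem c_mm_023 : CertFX 0 67108864 1610612736 469762048 1046898278 26843546 false false false .up 0 2 3
    ndF4q0 ndF2q3 pcF2 Cut.none Ext.none :=
  certFX0 (fam := false) (s1 := false) (s2 := false) (a := 0) (b := 2) (c := 3) (cn := .up) (n1 := ndF4q0) (n2 := ndF2q3) (pc := pcF2) (cut := Cut.none) (xt := Ext.none) (P1 := 0) (W1 := 67108864) (P2 := 1610612736) (W2 := 469762048) (P3 := 1046898278) (W3 := 26843546)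
    rfl k0_mm_023

noncomputable def f_mm_033 : ℕ → ℕ → ℕ → ℕ → Bool := onCell 0 67108864 1610612736 469762048 1046898278 26843546
    (rowFX 0 false false false .pnn 0 3 3 (qsf 0 67108864 1610612736 469762048 3) ndF4q0 ndF2q3 pcF3 Cut.none Ext.none)

def k0_mm_033 : ∃ t, chk3 f_mm_033 t 1 1 1 = true :=
  ⟨(l 5), by decide +kernel⟩

theorem c_mm_033 : CertFX 0 67108864 1610612736 469762048 1046898278 26843546 false false false .pnn 0 3 3
    ndF4q0 ndF2q3 pcF3 Cut.none Ext.none :=
  certFX0 (fam := false) (s1 := false) (s2 := false) (a := 0) (b := 3) (c := 3) (cn := .pnn) (n1 := ndF4q0) (n2 := ndF2q3) (pc := pcF3) (cut := Cut.none) (xt := Ext.none) (P1 := 0) (W1 := 67108864) (P2 := 1610612736) (W2 := 469762048) (P3 := 1046898278) (W3 := 26843546)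
    rfl k0_mm_033

end Pool.Agent.Strip051.G.IE1.Tab.C.FB42

namespace Pool.Agent.Strip051.G.IE1.Tab.C.FB43

open Pool.Agent.Strip051.PB Pool.Agent.Strip051.PB.T
open Pool.Agent.Strip051.G.IE1.Tab

noncomputable def f_pp_001 : ℕ → ℕ → ℕ → ℕ → Bool := onCell 0 67108864 0 536870912 1046898278 26843546
    (rowFX 1 false true true .up 0 0 1 (qsf 0 67108864 536870912 536870912 0) ndF4q0 ndF3q1 pcF0 Cut.none Ext.none)

def k0_pp_001 : ∃ t, chk3 f_pp_001 t 1 1 1 = true :=
  ⟨(l 3), by decide +kernel⟩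

theorem c_pp_001 : CertFX 0 67108864 536870912 536870912 1046898278 26843546 false true true .up 0 0 1
    ndF4q0 ndF3q1 pcF0 Cut.none Ext.none :=
  certFX1 (fam := false) (s1 := true) (s2 := true) (a := 0) (b := 0) (c := 1) (cn := .up) (n1 := ndF4q0) (n2 := ndF3q1) (pc := pcF0) (cut := Cut.none) (xt := Ext.none) (P1 := 0) (W1 := 67108864) (P2 := 536870912) (W2 := 536870912) (P3 := 1046898278) (W3 := 26843546)
    rfl (fun _ => rfl) k0_pp_001

noncomputable def cut_pp_011 : Cut := Cut.of [[⟨0, 0, 0, 67108864⟩, ⟨1, 1, 0, 67108864⟩, ⟨2, 1, 0, 67108864⟩]]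

noncomputable def f_pp_011 : ℕ → ℕ → ℕ → ℕ → Bool := onCell 0 67108864 536870912 536870912 1046898278 26843546
    (rowFX 1 false true true .pnn 0 1 1 (qsf 0 67108864 536870912 536870912 1) ndF4q0 ndF3q1 pcF1 cut_pp_011 Ext.none)

def k0_pp_011 : ∃ t, chk3 f_pp_011 t 1 1 1 = true :=
  ⟨(b (l 3) (b (l 3) (b (l 3) (b (l 3) (a (l 6) (l 3)))))), by decide +kernel⟩

theorem c_pp_011 : CertFX 0 67108864 536870912 536870912 1046898278 26843546 false true true .pnn 0 1 1
    ndF4q0 ndF3q1 pcF1 cut_pp_011 Ext.none :=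
  certFX1 (fam := false) (s1 := true) (s2 := true) (a := 0) (b := 1) (c := 1) (cn := .pnn) (n1 := ndF4q0) (n2 := ndF3q1) (pc := pcF1) (cut := cut_pp_011) (xt := Ext.none) (P1 := 0) (W1 := 67108864) (P2 := 536870912) (W2 := 536870912) (P3 := 1046898278) (W3 := 26843546)
    rfl (fun _ => rfl) k0_pp_011

noncomputable def cut_pp_012 : Cut := Cut.of [[⟨0, 0, 0, 67108864⟩, ⟨1, 1, 0, 67108864⟩, ⟨2, 1, 0, 67108864⟩, ⟨3, 0, 0, 1233125376⟩]]

noncomputable def f_pp_012 : ℕ → ℕ → ℕ → ℕ → Bool := onCell 0 67108864 1073741824 536870912 1046898278 26843546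
    (rowFX 0 false true true .pnp 0 1 2 (qsf 0 67108864 1073741824 536870912 1) ndF4q0 ndF3q2 pcF1 cut_pp_012 Ext.none)

def k0_pp_012 : ∃ t, chk3 f_pp_012 t 1 1 1 = true :=
  ⟨(b (b (b (b (a (l 6) (a (l 6) (a (l 6) (a (l 6) (a (l 6) (b (c (b (l 15665368) (l 16008600)) (b (c (l 15434232) (l 15260856)) (l 15760976))) (c (b (l 16307000) (l 16524880)) (l 16316016)))))))) (b (a (l 6) (a (l 6) (a (l 6) (a (l 6) (a (l 6) (c (c (l 16479248) (l 16462552)) (l 16466768))))))) (a (l 2) (b (a (l 6) (a (l 6) (a (l 6) (c (l 16411728) (l 16384272))))) (a (l 2) (c (a (l 16489632) (l 16434896)) (a (l 16493696) (c (l 16441744) (l 16452432))))))))) (a (l 2) (b (a (l 2) (a (l 2) (c (l 16135960) (b (l 16391584) (l 2))))) (l 2)))) (l 2)) (l 2)), by decide +kernel⟩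

theorem c_pp_012 : CertFX 0 67108864 1073741824 536870912 1046898278 26843546 false true true .pnp 0 1 2
    ndF4q0 ndF3q2 pcF1 cut_pp_012 Ext.none :=
  certFX0 (fam := false) (s1 := true) (s2 := true) (a := 0) (b := 1) (c := 2) (cn := .pnp) (n1 := ndF4q0) (n2 := ndF3q2) (pc := pcF1) (cut := cut_pp_012) (xt := Ext.none) (P1 := 0) (W1 := 67108864) (P2 := 1073741824) (W2 := 536870912) (P3 := 1046898278) (W3 := 26843546)
    rfl k0_pp_012

noncomputable def cut_pp_022 : Cut := Cut.of [[⟨0, 0, 0, 67108864⟩, ⟨1, 1, 0, 67108864⟩, ⟨2, 1, 0, 67108864⟩, ⟨3, 0, 0, 1233125376⟩]]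

noncomputable def f_pp_022 : ℕ → ℕ → ℕ → ℕ → Bool := onCell 0 67108864 1073741824 536870912 1046898278 26843546
    (rowFX 1 false true true .pp 0 2 2 (qsf 0 67108864 1073741824 536870912 2) ndF4q0 ndF3q2 pcF2 cut_pp_022 Ext.none)

def k0_pp_022 : ∃ t, chk3 f_pp_022 t 1 16 1 = true :=
  ⟨(b (a (l 6) (a (b (l 6) (c (c (l 16368040) (a (l 6) (l 16615456))) (c (l 16632064) (l 16628752)))) (c (c (b (a (l 16595648) (l 16643320)) (a (l 16617792) (l 16696504))) (b (l 16655192) (l 16620072))) (b (c (l 16565544) (b (l 16686472) (l 16689616))) (c (l 16697464) (l 16672248)))))) (a (b (l 6) (a (l 6) (a (l 6) (a (l 6) (c (l 16492728) (l 16574328)))))) (c (a (c (c (l 16330520) (l 16392440)) (b (l 16477896) (l 16571584))) (c (l 16462736) (l 16628704))) (a (c (c (l 16520856) (l 16522072)) (a (l 16591920) (l 16665808))) (c (l 16557416) (l 16596632)))))), by decide +kernel⟩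

def k1_pp_022 : ∃ t, chk3 f_pp_022 t 1 17 1 = true :=
  ⟨(a (a (a (b (l 6) (b (a (l 6) (a (l 6) (c (c (l 16402880) (l 16405432)) (c (l 16317760) (l 16240496))))) (c (c (c (b (l 16371304) (l 16332648)) (l 16361528)) (a (l 16289240) (a (l 16345888) (l 16385248)))) (c (a (c (l 16257944) (a (l 16216504) (l 16254512))) (a (l 16185208) (l 16266856))) (a (a (b (l 6) (c (c (l 16184904) (l 16174112)) (c (l 16137344) (a (c (l 16141680) (l 16134360)) (l 16147520))))) (c (c (l 16230144) (l 16208912)) (c (l 16192088) (l 16183864)))) (c (l 16224160) (l 16229688))))))) (a (b (l 6) (c (c (b (c (l 16477176) (l 16467000)) (l 16421744)) (c (l 16435944) (l 16385840))) (b (c (l 16273872) (l 16298848)) (c (l 16325272) (l 16298648))))) (c (c (b (l 16470704) (c (l 16522848) (l 16476176))) (b (c (l 16433104) (l 16411832)) (l 16407872))) (c (b (l 16420648) (l 16376856)) (b (l 16430456) (l 16283304)))))) (c (b (a (c (a (l 16437224) (l 16384456)) (c (l 16352144) (l 16453872))) (a (b (l 16337400) (l 16430120))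 (l 16345656))) (c (a (b (l 16458112) (l 16479000)) (l 16453440)) (a (l 16429536) (l 16609568)))) (b (a (c (l 16375368) (b (l 16487488) (l 16454616))) (c (l 16523624) (l 16521496))) (c (l 16354944) (l 16346776))))) (c (b (a (c (l 16560992) (l 16480848)) (c (a (l 16492672) (l 16368560)) (b (l 16456960) (l 16372792)))) (a (c (b (l 16545248) (l 16340792)) (l 16375488)) (c (c (l 15951536) (l 16035792)) (l 16175752)))) (a (b (l 16491408) (c (l 16439568) (l 16417288))) (b (b (l 16493568) (l 16319584)) (b (l 16239080) (l 16189456)))))), by decide +kernel⟩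

def k2_pp_022 : ∃ t, chk3 f_pp_022 t 2 18 1 = true :=
  ⟨(a (c (a (c (b (c (l 16328232) (l 16303208)) (b (l 16332008) (l 16321784))) (c (b (l 16235632) (l 16271032)) (a (b (l 16308440) (l 16356944)) (l 16286472)))) (c (b (l 16339336) (a (l 16404168) (l 16433416))) (a (b (l 16405040) (l 16515008)) (b (l 16461192) (l 16562384))))) (a (c (a (c (b (l 16176712) (l 16304712)) (a (b (b (l 16210360) (l 16249784)) (l 16310696)) (l 16261064))) (c (l 16221784) (b (l 16296048) (l 16385376)))) (a (b (a (c (c (l 16210808) (l 16198432)) (c (l 16159640) (c (l 16147216) (l 16139280)))) (c (l 16219832) (l 16203048))) (c (l 16299056) (l 16114248))) (b (c (l 16279432) (l 16258880)) (l 16263152)))) (c (a (b (l 16356216) (l 16393816)) (l 16284416)) (b (l 16313008) (l 16306424))))) (c (b (a (a (l 16373984) (l 16437040)) (l 16358504)) (a (c (b (l 16482304) (l 16317656)) (l 16411376)) (l 16135488))) (b (a (l 16324664) (l 16353024)) (c (l 16192504) (l 16244480))))), by decide +kernel⟩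

def k3_pp_022 : ∃ t, chk3 f_pp_022 t 2 19 1 = true :=
  ⟨(a (c (a (a (b (c (b (l 16413656) (l 16428216)) (b (a (l 16439768) (l 16523688)) (l 16435304))) (c (c (l 16208384) (l 16221608)) (l 16332360))) (b (c (l 16329168) (l 16375040)) (l 16031864))) (b (c (b (a (l 16327424) (l 16301104)) (l 16121944)) (a (l 16315448) (l 16304744))) (c (l 15851728) (l 15969296)))) (a (a (c (b (l 16302752) (l 16404320)) (b (c (a (l 16343384) (l 16306720)) (a (b (l 16258776) (l 16340384)) (l 16301192))) (c (l 16445544) (l 16341088)))) (c (c (l 16158280) (l 16209480)) (b (b (l 16320560) (l 16412272)) (l 16352504)))) (c (b (l 16302400) (l 16116808)) (c (l 16122840) (l 16157616))))) (a (c (b (c (l 16016056) (l 16139904)) (c (l 15882136) (l 15945952))) (b (b (c (l 16318928) (l 16374912)) (l 16175000)) (l 15947912))) (c (b (l 15849664) (b (l 15805280) (l 15688744))) (b (l 15898424) (l 15661304))))), by decide +kernel⟩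

def k4_pp_022 : ∃ t, chk3 f_pp_022 t 3 9 1 = true :=
  ⟨(b (c (a (b (a (b (l 16395216) (l 16286704)) (l 16131256)) (c (l 15986560) (l 15997832))) (b (c (l 15904688) (l 15930520)) (a (l 15718040) (c (l 15542304) (l 15582776))))) (a (b (b (a (l 16465976) (l 16307728)) (l 16154600)) (l 15836744)) (b (l 15889520) (a (l 15808184) (l 15653552))))) (c (a (b (b (l 15728368) (a (l 15744448) (l 15574904))) (a (l 15508760) (l 15535120))) (b (a (b (l 15532664) (l 15488920)) (l 15459024)) (l 15461120))) (a (b (b (l 15875696) (l 15650464)) (a (l 15706608) (l 15642760))) (b (b (l 15605448) (l 15584256)) (l 15597840))))), by decide +kernel⟩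

def k5_pp_022 : ∃ t, chk3 f_pp_022 t 1 10 1 = true :=
  ⟨(b (a (b (a (a (c (c (l 15932944) (l 15984624)) (c (l 15861560) (a (c (l 16204560) (l 16231232)) (l 16130800)))) (c (a (c (l 15762072) (l 15861624)) (c (l 15704672) (l 15819328))) (c (l 15822472) (l 15970024)))) (c (a (c (b (l 15697464) (l 15659544)) (l 15754400)) (l 15655328)) (c (l 15551944) (l 15703144)))) (a (c (b (a (a (l 15894600) (l 15810216)) (c (l 15731784) (l 15821208))) (a (l 15846328) (c (l 15920256) (l 15976624)))) (a (b (c (a (l 15991288) (l 15925704)) (a (l 16025936) (l 16007448))) (c (l 15914272) (a (l 15999192) (l 16122536)))) (b (l 15786632) (l 15965856)))) (c (b (c (l 15760928) (l 15806712)) (c (l 15845312) (l 16006528))) (b (l 15876896) (l 16018536))))) (b (c (a (l 15365344) (c (l 15450352) (l 15506184))) (a (l 15684936) (l 15608752))) (c (b (a (l 15644136) (c (l 15536536) (l 15648288))) (a (l 15794392) (c (l 15618592) (l 15905880)))) (b (a (l 15806776) (l 15742856)) (a (l 16020744) (l 15985736))))))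 (a (a (c (b (a (l 16085248) (c (l 16068064) (l 16160912))) (a (b (l 16187184) (l 15935664)) (b (c (l 16234512) (l 16086992)) (c (l 15980360) (l 15897600))))) (a (b (c (l 16166528) (c (l 16203112) (l 16194016))) (c (l 15810048) (a (l 15816712) (l 15914944)))) (b (c (l 16368968) (l 16427632)) (l 15744024)))) (c (b (b (l 16018184) (l 16164928)) (b (c (l 16076856) (l 16116424)) (l 15714160))) (b (l 16210120) (l 15892832)))) (c (a (b (b (l 16198576) (l 16427480)) (b (a (l 16156656) (l 16202392)) (l 15925192))) (b (c (a (l 16160520) (l 16015392)) (l 16033016)) (c (l 16071008) (l 16246336)))) (b (a (l 16314992) (l 16170480)) (a (b (l 16120472) (l 15911824)) (l 16181192)))))), by decide +kernel⟩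

def k6_pp_022 : ∃ t, chk3 f_pp_022 t 1 11 1 = true :=
  ⟨(b (a (a (c (a (b (l 15480776) (b (l 15200920) (l 14979864))) (b (c (l 15542760) (l 15525488)) (c (a (l 15173224) (l 15174208)) (a (l 15095656) (l 15073928))))) (a (c (b (l 15445984) (a (l 15017176) (l 15027080))) (a (b (l 15437792) (l 14968048)) (l 14946472))) (b (l 15398864) (c (l 15038808) (l 15015448))))) (c (b (a (c (l 15504840) (l 15484944)) (l 15439728)) (c (l 15193248) (l 15178608))) (b (a (l 15467880) (l 15525488)) (l 15158728)))) (c (b (a (c (l 15712280) (l 15717872)) (c (l 15936400) (l 15923608))) (a (l 15341480) (l 15533112))) (a (l 15326224) (b (l 15867384) (l 15558544))))) (a (c (c (a (b (a (l 14874920) (l 14985960)) (l 14925520)) (b (l 14980440) (l 15021440))) (a (a (l 14798160) (l 14912320)) (l 15010224))) (a (a (c (a (l 14769672) (l 14816144)) (a (l 14723248) (l 14760888))) (c (l 14857696) (l 14837800))) (l 14995144))) (c (a (c (l 15162720) (l 15238464)) (c (l 15457968) (l 15439464))) (c (l 15308440) (l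 15268816))))), by decide +kernel⟩

def k7_pp_022 : ∃ t, chk3 f_pp_022 t 1 3 1 = true :=
  ⟨(b (b (a (c (a (c (b (l 14925520) (l 14925520)) (a (l 14839424) (l 14911872))) (c (l 15021440) (l 15009760))) (a (c (a (l 14788952) (l 14857264)) (c (l 14799496) (l 14780232))) (l 14994696))) (c (c (l 15339200) (l 15330144)) (c (l 15307976) (l 15268352)))) (a (c (a (b (c (l 14925520) (l 14871064)) (l 14893672)) (c (l 15021440) (l 15009760))) (c (a (a (l 14788952) (l 14857264)) (l 15011816)) (a (c (l 14715608) (l 14780232)) (l 14983248)))) (c (l 15331768) (c (l 15307976) (l 15268352))))) (a (a (c (a (l 14855728) (l 14945488)) (b (c (l 14744736) (a (l 14743968) (l 14837368))) (a (l 14764448) (l 14838776)))) (c (l 15024352) (l 14994696))) (c (l 15331768) (l 15289320)))), by decide +kernel⟩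

theorem s8_pp_022 : ∃ t, chk3 f_pp_022 t 1 5 1 = true := ex3_b k5_pp_022 k6_pp_022

theorem s9_pp_022 : ∃ t, chk3 f_pp_022 t 2 9 1 = true := ex3_b k2_pp_022 k3_pp_022

theorem s10_pp_022 : ∃ t, chk3 f_pp_022 t 1 9 1 = true := ex3_a s9_pp_022 k4_pp_022

theorem s11_pp_022 : ∃ t, chk3 f_pp_022 t 1 8 1 = true := ex3_b k0_pp_022 k1_pp_022

theorem s12_pp_022 : ∃ t, chk3 f_pp_022 t 1 4 1 = true := ex3_b s11_pp_022 s10_pp_022

theorem s13_pp_022 : ∃ t, chk3 f_pp_022 t 1 2 1 = true := ex3_b s12_pp_022 s8_pp_022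

theorem s14_pp_022 : ∃ t, chk3 f_pp_022 t 1 1 1 = true := ex3_b s13_pp_022 k7_pp_022

theorem c_pp_022 : CertFX 0 67108864 1073741824 536870912 1046898278 26843546 false true true .pp 0 2 2
    ndF4q0 ndF3q2 pcF2 cut_pp_022 Ext.none :=
  certFX1 (fam := false) (s1 := true) (s2 := true) (a := 0) (b := 2) (c := 2) (cn := .pp) (n1 := ndF4q0) (n2 := ndF3q2) (pc := pcF2) (cut := cut_pp_022) (xt := Ext.none) (P1 := 0) (W1 := 67108864) (P2 := 1073741824) (W2 := 536870912) (P3 := 1046898278) (W3 := 26843546)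
    rfl (fun _ => rfl) s14_pp_022

noncomputable def f_pp_023 : ℕ → ℕ → ℕ → ℕ → Bool := onCell 0 67108864 1073741824 536870912 1046898278 26843546
    (rowFX 1 false true true .up 0 2 3 (qsf 0 67108864 1610612736 536870912 2) ndF4q0 ndF3q3 pcF2 Cut.none Ext.none)

def k0_pp_023 : ∃ t, chk3 f_pp_023 t 1 1 1 = true :=
  ⟨(b (l 1) (b (l 1) (b (a (l 1) (l 15305472)) (a (a (a (l 404829761271) (l 14755512)) (l 14989320)) (l 15305472))))), by decide +kernel⟩

theorem c_pp_023 : CertFX 0 67108864 1610612736 536870912 1046898278 26843546 false true true .up 0 2 3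
    ndF4q0 ndF3q3 pcF2 Cut.none Ext.none :=
  certFX1 (fam := false) (s1 := true) (s2 := true) (a := 0) (b := 2) (c := 3) (cn := .up) (n1 := ndF4q0) (n2 := ndF3q3) (pc := pcF2) (cut := Cut.none) (xt := Ext.none) (P1 := 0) (W1 := 67108864) (P2 := 1610612736) (W2 := 536870912) (P3 := 1046898278) (W3 := 26843546)
    rfl (fun _ => rfl) k0_pp_023

noncomputable def f_pp_033 : ℕ → ℕ → ℕ → ℕ → Bool := onCell 0 67108864 1610612736 536870912 1046898278 26843546
    (rowFX 0 false true true .pnn 0 3 3 (qsf 0 67108864 1610612736 536870912 3) ndF4q0 ndF3q3 pcF3 Cut.none Ext.none)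

def k0_pp_033 : ∃ t, chk3 f_pp_033 t 1 1 1 = true :=
  ⟨(b (b (a (a (a (c (l 14855728) (b (l 14764448) (l 14764448))) (c (l 14945488) (l 14838776))) (c (l 15024352) (l 14994696))) (c (l 15331768) (l 15289320))) (b (a (c (a (l 14872704) (l 15024352)) (a (c (l 14828616) (l 14641464)) (l 14994696))) (c (l 15331768) (l 15289320))) (a (c (a (c (l 14925520) (l 14871064)) (l 15024352)) (a (c (l 14744736) (a (l 14743968) (l 14837368))) (l 14994696))) (c (l 15331768) (l 15289320))))) (b (b (a (b (c (a (l 14893672) (l 15024352)) (a (c (l 14828616) (l 14788264)) (l 14994696))) (b (c (a (l 14893664) (l 15024344)) (c (l 41032825111) (l 14797264))) (l 4))) (c (c (l 15339184) (l 15330136)) (b (l 15289320) (c (l 15307952) (l 15268328))))) (l 4)) (l 4))), by decide +kernel⟩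

theorem c_pp_033 : CertFX 0 67108864 1610612736 536870912 1046898278 26843546 false true true .pnn 0 3 3
    ndF4q0 ndF3q3 pcF3 Cut.none Ext.none :=
  certFX0 (fam := false) (s1 := true) (s2 := true) (a := 0) (b := 3) (c := 3) (cn := .pnn) (n1 := ndF4q0) (n2 := ndF3q3) (pc := pcF3) (cut := Cut.none) (xt := Ext.none) (P1 := 0) (W1 := 67108864) (P2 := 1610612736) (W2 := 536870912) (P3 := 1046898278) (W3 := 26843546)
    rfl k0_pp_033

noncomputable def f_pm_001 : ℕ → ℕ → ℕ → ℕ → Bool := onCell 0 67108864 536870912 536870912 1046898278 26843546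
    (rowFX 0 false true false .up 0 0 1 (qsf 0 67108864 536870912 536870912 0) ndF4q0 ndF3q1 pcF0 Cut.none Ext.none)

def k0_pm_001 : ∃ t, chk3 f_pm_001 t 1 1 1 = true :=
  ⟨(l 4), by decide +kernel⟩

theorem c_pm_001 : CertFX 0 67108864 536870912 536870912 1046898278 26843546 false true false .up 0 0 1
    ndF4q0 ndF3q1 pcF0 Cut.none Ext.none :=
  certFX0 (fam := false) (s1 := true) (s2 := false) (a := 0) (b := 0) (c := 1) (cn := .up) (n1 := ndF4q0) (n2 := ndF3q1) (pc := pcF0) (cut := Cut.none) (xt := Ext.none) (P1 := 0) (W1 := 67108864) (P2 := 536870912) (W2 := 536870912) (P3 := 1046898278) (W3 := 26843546)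
    rfl k0_pm_001

noncomputable def f_pm_011 : ℕ → ℕ → ℕ → ℕ → Bool := onCell 0 67108864 536870912 536870912 1046898278 26843546
    (rowFX 0 false true false .pnn 0 1 1 (qsf 0 67108864 536870912 536870912 1) ndF4q0 ndF3q1 pcF1 Cut.none Ext.none)

def k0_pm_011 : ∃ t, chk3 f_pm_011 t 1 1 1 = true :=
  ⟨(l 4), by decide +kernel⟩

theorem c_pm_011 : CertFX 0 67108864 536870912 536870912 1046898278 26843546 false true false .pnn 0 1 1
    ndF4q0 ndF3q1 pcF1 Cut.none Ext.none :=
  certFX0 (fam := false) (s1 := true) (s2 := false) (a := 0) (b := 1) (c := 1) (cn := .pnn) (n1 := ndF4q0) (n2 := ndF3q1) (pc := pcF1) (cut := Cut.none) (xt := Ext.none) (P1 := 0) (W1 := 67108864) (P2 := 536870912) (W2 := 536870912) (P3 := 1046898278) (W3 := 26843546)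
    rfl k0_pm_011

noncomputable def cut_pm_012 : Cut := Cut.of [[⟨0, 0, 0, 67108864⟩, ⟨1, 1, 0, 67108864⟩, ⟨2, 1, 0, 67108864⟩]]

noncomputable def f_pm_012 : ℕ → ℕ → ℕ → ℕ → Bool := onCell 0 67108864 1073741824 536870912 1046898278 26843546
    (rowFX 0 false true false .pnp 0 1 2 (qsf 0 67108864 1073741824 536870912 1) ndF4q0 ndF3q2 pcF1 cut_pm_012 Ext.none)

def k0_pm_012 : ∃ t, chk3 f_pm_012 t 1 1 1 = true :=
  ⟨(b (a (b (b (b (l 6) (l 4)) (l 2)) (l 2)) (l 4)) (l 2)), by decide +kernel⟩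

theorem c_pm_012 : CertFX 0 67108864 1073741824 536870912 1046898278 26843546 false true false .pnp 0 1 2
    ndF4q0 ndF3q2 pcF1 cut_pm_012 Ext.none :=
  certFX0 (fam := false) (s1 := true) (s2 := false) (a := 0) (b := 1) (c := 2) (cn := .pnp) (n1 := ndF4q0) (n2 := ndF3q2) (pc := pcF1) (cut := cut_pm_012) (xt := Ext.none) (P1 := 0) (W1 := 67108864) (P2 := 1073741824) (W2 := 536870912) (P3 := 1046898278) (W3 := 26843546)
    rfl k0_pm_012

noncomputable def cut_pm_022 : Cut := Cut.of [[⟨0, 0, 0, 67108864⟩, ⟨1, 1, 0, 67108864⟩, ⟨2, 1, 0, 67108864⟩]]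

noncomputable def f_pm_022 : ℕ → ℕ → ℕ → ℕ → Bool := onCell 0 67108864 1073741824 536870912 1046898278 26843546
    (rowFX 0 false true false .pp 0 2 2 (qsf 0 67108864 1073741824 536870912 2) ndF4q0 ndF3q2 pcF2 cut_pm_022 Ext.none)

def k0_pm_022 : ∃ t, chk3 f_pm_022 t 1 1 1 = true :=
  ⟨(b (b (a (b (b (l 6) (l 4)) (l 4)) (l 4)) (l 4)) (l 4)), by decide +kernel⟩

theorem c_pm_022 : CertFX 0 67108864 1073741824 536870912 1046898278 26843546 false true false .pp 0 2 2
    ndF4q0 ndF3q2 pcF2 cut_pm_022 Ext.none :=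
  certFX0 (fam := false) (s1 := true) (s2 := false) (a := 0) (b := 2) (c := 2) (cn := .pp) (n1 := ndF4q0) (n2 := ndF3q2) (pc := pcF2) (cut := cut_pm_022) (xt := Ext.none) (P1 := 0) (W1 := 67108864) (P2 := 1073741824) (W2 := 536870912) (P3 := 1046898278) (W3 := 26843546)
    rfl k0_pm_022

noncomputable def f_pm_023 : ℕ → ℕ → ℕ → ℕ → Bool := onCell 0 67108864 1610612736 536870912 1046898278 26843546
    (rowFX 0 false true false .up 0 2 3 (qsf 0 67108864 1610612736 536870912 2) ndF4q0 ndF3q3 pcF2 Cut.none Ext.none)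

def k0_pm_023 : ∃ t, chk3 f_pm_023 t 1 1 1 = true :=
  ⟨(l 4), by decide +kernel⟩

theorem c_pm_023 : CertFX 0 67108864 1610612736 536870912 1046898278 26843546 false true false .up 0 2 3
    ndF4q0 ndF3q3 pcF2 Cut.none Ext.none :=
  certFX0 (fam := false) (s1 := true) (s2 := false) (a := 0) (b := 2) (c := 3) (cn := .up) (n1 := ndF4q0) (n2 := ndF3q3) (pc := pcF2) (cut := Cut.none) (xt := Ext.none) (P1 := 0) (W1 := 67108864) (P2 := 1610612736) (W2 := 536870912) (P3 := 1046898278) (W3 := 26843546)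
    rfl k0_pm_023

noncomputable def f_pm_033 : ℕ → ℕ → ℕ → ℕ → Bool := onCell 0 67108864 1610612736 536870912 1046898278 26843546
    (rowFX 0 false true false .pnn 0 3 3 (qsf 0 67108864 1610612736 536870912 3) ndF4q0 ndF3q3 pcF3 Cut.none Ext.none)

def k0_pm_033 : ∃ t, chk3 f_pm_033 t 1 1 1 = true :=
  ⟨(l 4), by decide +kernel⟩

theorem c_pm_033 : CertFX 0 67108864 1610612736 536870912 1046898278 26843546 false true false .pnn 0 3 3
    ndF4q0 ndF3q3 pcF3 Cut.none Ext.none :=
  certFX0 (fam := false) (s1 := true) (s2 := false) (a := 0) (b := 3) (c := 3) (cn := .pnn) (n1 := ndF4q0) (n2 := ndF3q3) (pc := pcF3) (cut := Cut.none) (xt := Ext.none) (P1 := 0) (W1 := 67108864) (P2 := 1610612736) (W2 := 536870912) (P3 := 1046898278) (W3 := 26843546)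
    rfl k0_pm_033

noncomputable def f_mm_001 : ℕ → ℕ → ℕ → ℕ → Bool := onCell 0 67108864 536870912 536870912 1046898278 26843546
    (rowFX 0 false false false .up 0 0 1 (qsf 0 67108864 536870912 536870912 0) ndF4q0 ndF3q1 pcF0 Cut.none Ext.none)

def k0_mm_001 : ∃ t, chk3 f_mm_001 t 1 1 1 = true :=
  ⟨(l 5), by decide +kernel⟩

theorem c_mm_001 : CertFX 0 67108864 536870912 536870912 1046898278 26843546 false false false .up 0 0 1
    ndF4q0 ndF3q1 pcF0 Cut.none Ext.none :=
  certFX0 (fam := false) (s1 := false) (s2 := false) (a := 0) (b := 0) (c := 1) (cn := .up) (n1 := ndF4q0) (n2 := ndF3q1) (pc := pcF0) (cut := Cut.none) (xt := Ext.none) (P1 := 0) (W1 := 67108864) (P2 := 536870912) (W2 := 536870912) (P3 := 1046898278) (W3 := 26843546)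
    rfl k0_mm_001

noncomputable def f_mm_011 : ℕ → ℕ → ℕ → ℕ → Bool := onCell 0 67108864 536870912 536870912 1046898278 26843546
    (rowFX 0 false false false .pnn 0 1 1 (qsf 0 67108864 536870912 536870912 1) ndF4q0 ndF3q1 pcF1 Cut.none Ext.none)

def k0_mm_011 : ∃ t, chk3 f_mm_011 t 1 1 1 = true :=
  ⟨(l 5), by decide +kernel⟩

theorem c_mm_011 : CertFX 0 67108864 536870912 536870912 1046898278 26843546 false false false .pnn 0 1 1
    ndF4q0 ndF3q1 pcF1 Cut.none Ext.none :=
  certFX0 (fam := false) (s1 := false) (s2 := false) (a := 0) (b := 1) (c := 1) (cn := .pnn) (n1 := ndF4q0) (n2 := ndF3q1) (pc := pcF1) (cut := Cut.none) (xt := Ext.none) (P1 := 0) (W1 := 67108864) (P2 := 536870912) (W2 := 536870912) (P3 := 1046898278) (W3 := 26843546)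
    rfl k0_mm_011

noncomputable def f_mm_012 : ℕ → ℕ → ℕ → ℕ → Bool := onCell 0 67108864 1073741824 536870912 1046898278 26843546
    (rowFX 0 false false false .pnp 0 1 2 (qsf 0 67108864 1073741824 536870912 1) ndF4q0 ndF3q2 pcF1 Cut.none Ext.none)

def k0_mm_012 : ∃ t, chk3 f_mm_012 t 1 1 1 = true :=
  ⟨(l 5), by decide +kernel⟩

theorem c_mm_012 : CertFX 0 67108864 1073741824 536870912 1046898278 26843546 false false false .pnp 0 1 2
    ndF4q0 ndF3q2 pcF1 Cut.none Ext.none :=
  certFX0 (fam := false) (s1 := false) (s2 := false) (a := 0) (b := 1) (c := 2) (cn := .pnp) (n1 := ndF4q0) (n2 := ndF3q2) (pc := pcF1) (cut := Cut.none) (xt := Ext.none) (P1 := 0) (W1 := 67108864) (P2 := 1073741824) (W2 := 536870912) (P3 := 1046898278) (W3 := 26843546)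
    rfl k0_mm_012

noncomputable def f_mm_022 : ℕ → ℕ → ℕ → ℕ → Bool := onCell 0 67108864 1073741824 536870912 1046898278 26843546
    (rowFX 0 false false false .pp 0 2 2 (qsf 0 67108864 1073741824 536870912 2) ndF4q0 ndF3q2 pcF2 Cut.none Ext.none)

def k0_mm_022 : ∃ t, chk3 f_mm_022 t 1 1 1 = true :=
  ⟨(l 5), by decide +kernel⟩

theorem c_mm_022 : CertFX 0 67108864 1073741824 536870912 1046898278 26843546 false false false .pp 0 2 2
    ndF4q0 ndF3q2 pcF2 Cut.none Ext.none :=
  certFX0 (fam := false) (s1 := false) (s2 := false) (a := 0) (b := 2) (c := 2) (cn := .pp) (n1 := ndF4q0) (n2 := ndF3q2) (pc := pcF2) (cut := Cut.none) (xt := Ext.none) (P1 := 0) (W1 := 67108864) (P2 := 1073741824) (W2 := 536870912) (P3 := 1046898278) (W3 := 26843546)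
    rfl k0_mm_022

noncomputable def f_mm_023 : ℕ → ℕ → ℕ → ℕ → Bool := onCell 0 67108864 1610612736 536870912 1046898278 26843546
    (rowFX 0 false false false .up 0 2 3 (qsf 0 67108864 1610612736 536870912 2) ndF4q0 ndF3q3 pcF2 Cut.none Ext.none)

def k0_mm_023 : ∃ t, chk3 f_mm_023 t 1 1 1 = true :=
  ⟨(l 5), by decide +kernel⟩

theorem c_mm_023 : CertFX 0 67108864 1610612736 536870912 1046898278 26843546 false false false .up 0 2 3
    ndF4q0 ndF3q3 pcF2 Cut.none Ext.none :=
  certFX0 (fam := false) (s1 := false) (s2 := false) (a := 0) (b := 2) (c := 3) (cn := .up) (n1 := ndF4q0) (n2 := ndF3q3) (pc := pcF2) (cut := Cut.none) (xt := Ext.none) (P1 := 0) (W1 := 67108864) (P2 := 1610612736) (W2 := 536870912) (P3 := 1046898278) (W3 := 26843546)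
    rfl k0_mm_023

noncomputable def f_mm_033 : ℕ → ℕ → ℕ → ℕ → Bool := onCell 0 67108864 1610612736 536870912 1046898278 26843546
    (rowFX 0 false false false .pnn 0 3 3 (qsf 0 67108864 1610612736 536870912 3) ndF4q0 ndF3q3 pcF3 Cut.none Ext.none)

def k0_mm_033 : ∃ t, chk3 f_mm_033 t 1 1 1 = true :=
  ⟨(l 5), by decide +kernel⟩

theorem c_mm_033 : CertFX 0 67108864 1610612736 536870912 1046898278 26843546 false false false .pnn 0 3 3
    ndF4q0 ndF3q3 pcF3 Cut.none Ext.none :=
  certFX0 (fam := false) (s1 := false) (s2 := false) (a := 0) (b := 3) (c := 3) (cn := .pnn) (n1 := ndF4q0) (n2 := ndF3q3) (pc := pcF3) (cut := Cut.none) (xt := Ext.none) (P1 := 0) (W1 := 67108864) (P2 := 1610612736) (W2 := 536870912) (P3 := 1046898278) (W3 := 26843546)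
    rfl k0_mm_033

end Pool.Agent.Strip051.G.IE1.Tab.C.FB43

namespace Pool.Agent.Strip051.G.IE1.Tab.C.FB45

open Pool.Agent.Strip051.PB Pool.Agent.Strip051.PB.T
open Pool.Agent.Strip051.G.IE1.Tab

noncomputable def f_pp_001 : ℕ → ℕ → ℕ → ℕ → Bool := onCell 0 67108864 536870912 469762048 1046898278 26843546
    (rowFX 0 false true true .up 0 0 1 (qsf 0 67108864 536870912 469762048 0) ndF4q0 ndF5q1 pcF0 Cut.none Ext.none)

def k0_pp_001 : ∃ t, chk3 f_pp_001 t 1 1 1 = true :=
  ⟨(l 3), by decide +kernel⟩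

theorem c_pp_001 : CertFX 0 67108864 536870912 469762048 1046898278 26843546 false true true .up 0 0 1
    ndF4q0 ndF5q1 pcF0 Cut.none Ext.none :=
  certFX0 (fam := false) (s1 := true) (s2 := true) (a := 0) (b := 0) (c := 1) (cn := .up) (n1 := ndF4q0) (n2 := ndF5q1) (pc := pcF0) (cut := Cut.none) (xt := Ext.none) (P1 := 0) (W1 := 67108864) (P2 := 536870912) (W2 := 469762048) (P3 := 1046898278) (W3 := 26843546)
    rfl k0_pp_001

noncomputable def f_pp_011 : ℕ → ℕ → ℕ → ℕ → Bool := onCell 0 67108864 536870912 469762048 1046898278 26843546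
    (rowFX 0 false true true .pnn 0 1 1 (qsf 0 67108864 536870912 469762048 1) ndF4q0 ndF5q1 pcF1 Cut.none Ext.none)

def k0_pp_011 : ∃ t, chk3 f_pp_011 t 1 1 1 = true :=
  ⟨(l 3), by decide +kernel⟩

theorem c_pp_011 : CertFX 0 67108864 536870912 469762048 1046898278 26843546 false true true .pnn 0 1 1
    ndF4q0 ndF5q1 pcF1 Cut.none Ext.none :=
  certFX0 (fam := false) (s1 := true) (s2 := true) (a := 0) (b := 1) (c := 1) (cn := .pnn) (n1 := ndF4q0) (n2 := ndF5q1) (pc := pcF1) (cut := Cut.none) (xt := Ext.none) (P1 := 0) (W1 := 67108864) (P2 := 536870912) (W2 := 469762048) (P3 := 1046898278) (W3 := 26843546)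
    rfl k0_pp_011

noncomputable def f_pp_012 : ℕ → ℕ → ℕ → ℕ → Bool := onCell 0 67108864 536870912 536870912 1046898278 26843546
    (rowFX 1 false true true .pnp 0 1 2 (qsf 0 67108864 1073741824 536870912 1) ndF4q0 ndF5q2 pcF1 Cut.none Ext.none)

def k0_pp_012 : ∃ t, chk3 f_pp_012 t 1 1 1 = true :=
  ⟨(b (l 1) (l 3)), by decide +kernel⟩

theorem c_pp_012 : CertFX 0 67108864 1073741824 536870912 1046898278 26843546 false true true .pnp 0 1 2
    ndF4q0 ndF5q2 pcF1 Cut.none Ext.none :=
  certFX1 (fam := false) (s1 := true) (s2 := true) (a := 0) (b := 1) (c := 2) (cn := .pnp) (n1 := ndF4q0) (n2 := ndF5q2) (pc := pcF1) (cut := Cut.none) (xt := Ext.none) (P1 := 0) (W1 := 67108864) (P2 := 1073741824) (W2 := 536870912) (P3 := 1046898278) (W3 := 26843546)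
    rfl (fun _ => rfl) k0_pp_012

noncomputable def f_pp_022 : ℕ → ℕ → ℕ → ℕ → Bool := onCell 0 67108864 1073741824 536870912 1046898278 26843546
    (rowFX 1 false true true .pp 0 2 2 (qsf 0 67108864 1073741824 536870912 2) ndF4q0 ndF5q2 pcF2 Cut.none Ext.none)

def k0_pp_022 : ∃ t, chk3 f_pp_022 t 2 8 1 = true :=
  ⟨(b (l 3) (a (b (l 3) (c (b (a (c (b (l 3) (l 411409803543)) (l 3)) (c (a (c (l 163912809879) (a (l 3) (l 748028489831))) (c (l 16604600) (l 16627488))) (c (l 677698289719) (l 3)))) (a (c (b (l 16295696) (l 16305600)) (c (l 16293504) (a (l 3) (l 431274220823)))) (c (a (c (b (l 16586584) (l 16627736)) (b (l 16551208) (l 16595648))) (b (l 16528688) (c (l 16599888) (l 16649704)))) (c (a (l 16466112) (l 16600344)) (a (l 16532952) (l 16530560)))))) (a (l 3) (c (b (l 3) (c (l 431274309079) (l 698099132183))) (l 3))))) (b (c (c (b (a (l 3) (l 16473880)) (a (a (l 16642472) (l 16528232)) (a (l 16575592) (b (l 16480768) (l 16455632))))) (b (l 3) (a (l 3) (l 16412880)))) (l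 3)) (a (c (b (b (c (l 16544496) (l 16551192)) (c (c (l 16610400) (l 16624264)) (l 16555416))) (c (c (b (l 16539144) (l 16461656)) (a (l 16558960) (b (l 16572360) (l 16531256)))) (c (a (l 16536448) (l 16527704)) (l 16475312)))) (b (c (l 780777433991) (l 3)) (c (l 204177979415) (b (l 16482760) (l 16476096))))) (c (b (c (a (b (l 16538392) (c (l 16515064) (l 16484272))) (b (l 16433656) (l 16407088))) (b (l 16453896) (l 16357056))) (c (b (l 16254376) (l 16361928)) (b (l 16351584) (l 16298800)))) (b (c (l 378660708343) (l 685214035847)) (c (b (l 16270896) (l 16181880)) (b (l 16386264) (l 16221328))))))))), by decide +kernel⟩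

def k1_pp_022 : ∃ t, chk3 f_pp_022 t 3 16 1 = true :=
  ⟨(b (c (a (l 3) (b (l 3) (c (l 374901515255) (l 3)))) (l 3)) (c (a (b (l 3) (c (l 383492056087) (l 16167912))) (c (b (c (l 379733284695) (l 388323206999)) (c (b (l 15890328) (l 15741968)) (l 15763976))) (b (l 404966207895) (l 15858328)))) (a (l 3) (b (l 3) (c (l 333562265895) (l 15880720)))))), by decide +kernel⟩

def k2_pp_022 : ∃ t, chk3 f_pp_022 t 3 17 1 = true :=
  ⟨(b (c (a (c (b (b (l 16094352) (l 16008632)) (b (c (l 16046312) (l 15993512)) (a (l 16291824) (l 16068888)))) (b (c (l 407651026055) (l 16110328)) (a (b (l 16276328) (l 16248896)) (b (a (l 16116480) (l 16019560)) (l 16047856))))) (c (b (a (l 15745848) (l 15490312)) (a (c (l 15856960) (l 15840352)) (c (l 15645144) (l 15633000)))) (b (c (l 15808856) (l 15639616)) (a (b (l 15871896) (l 15842904)) (b (l 15657552) (l 15623688)))))) (b (a (l 716351916535) (c (l 293833723831) (b (l 15845536) (l 235851660551)))) (a (c (b (l 16177176) (a (l 16256136) (l 16061048)))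 (l 314772440407)) (c (b (l 15642096) (a (l 15872512) (l 15656744))) (b (c (l 15604344) (a (l 15917488) (l 15719560))) (a (l 15889216) (l 15696880))))))) (c (a (c (b (a (b (l 16265792) (l 16229992)) (l 15999296)) (a (l 16152456) (l 15917400))) (b (b (a (l 16230456) (l 16023088)) (a (l 16207792) (l 15974560))) (a (l 16066432) (l 15915280)))) (c (b (a (l 15628096) (c (l 15566392) (l 15563056))) (a (l 15617432) (l 15486824))) (b (a (l 15776008) (l 15576984)) (a (l 15703624) (l 15511568))))) (a (b (c (b (a (l 16229088) (l 16043808)) (a (l 16210464) (l 16021104))) (a (l 268601843479) (b (l 16061360) (l 15980984)))) (c (a (b (l 16184824) (l 16152648)) (l 15962664)) (a (b (l 16123496) (c (l 16177944) (l 16189480))) (b (l 15976392) (l 15963944))))) (b (c (a (b (l 15847168) (l 15798920)) (l 15602848)) (a (b (l 15872568) (l 15849288)) (l 15523912))) (c (a (l 15737440) (l 15534424)) (b (l 15690656) (l 15647504))))))), by decide +kernel⟩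

def k3_pp_022 : ∃ t, chk3 f_pp_022 t 2 36 1 = true :=
  ⟨(c (a (a (b (c (a (b (l 16375360) (l 16311416)) (a (b (l 16469888) (l 16494256)) (b (l 16543088) (l 16562320)))) (a (l 16324656) (c (l 16473624) (l 16379704)))) (c (b (a (l 16409984) (l 16527352)) (l 16287120)) (a (b (l 16377272) (l 16398144)) (b (a (l 16482128) (l 16544800)) (l 16406088))))) (b (c (a (b (c (l 16649920) (l 16624960)) (l 16527576)) (b (c (l 16562296) (l 16611416)) (l 16550152))) (a (c (b (l 16583024) (l 16606488)) (l 16558632)) (c (l 16614400) (l 16477056)))) (b (c (a (l 16546760) (l 16503424)) (a (l 16536720) (l 16606368))) (c (l 16375464) (a (l 16583608) (l 16555704)))))) (b (a (c (c (l 16466480) (a (l 16538528) (l 16466928))) (c (a (l 16505776) (l 16484544)) (l 16448040))) (c (l 16297576) (l 16257240))) (a (c (l 16324360) (l 16411520)) (c (l 16194512) (l 16195144))))) (a (a (c (b (a (c (l 16358856) (l 433958362119)) (c (b (l 16432336) (l 16448728)) (b (l 16403216) (l 16415416)))) (a (l 16257176) (b (l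 16386240) (c (l 16468632) (l 16451224))))) (a (b (l 3) (c (b (l 16320408) (l 16335104)) (b (l 16243016) (l 16170768)))) (b (c (l 450601528199) (l 3)) (c (l 16404808) (l 16425800))))) (b (c (c (b (l 16445656) (l 16401120)) (l 16408200)) (c (l 16418368) (l 370071092391))) (b (c (a (l 16526912) (l 16624136)) (l 16461000)) (c (a (l 16482936) (l 16602120)) (l 16419648))))) (b (c (a (c (l 16403112) (a (l 16520024) (l 16398824))) (b (l 16198248) (l 16249432))) (a (a (l 16520568) (c (l 16410432) (l 16479280))) (b (l 16199968) (l 16221488)))) (a (c (a (b (l 16523640) (l 16478624)) (l 16351632)) (a (b (l 16541824) (l 16509808)) (b (l 16442024) (l 16405640)))) (c (l 16208832) (l 16061968)))))), by decide +kernel⟩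

def k4_pp_022 : ∃ t, chk3 f_pp_022 t 2 37 1 = true :=
  ⟨(a (c (b (a (c (l 16439480) (b (a (l 16398288) (l 16479520)) (l 16321032))) (c (a (l 16396936) (l 16374160)) (a (l 16544336) (l 16475936)))) (a (a (l 16445072) (l 16333408)) (c (l 16075848) (a (l 16428648) (l 16360200))))) (b (a (c (a (b (l 16365752) (l 16302664)) (c (b (l 16468312) (l 16547728)) (b (l 16430672) (l 16456392)))) (a (c (a (l 16339016) (l 16372192)) (a (l 16296536) (l 16364240))) (c (l 16375344) (l 16366776)))) (c (c (l 16408440) (l 16407736)) (b (a (l 16549432) (l 16576816)) (l 16406376)))) (a (c (a (b (l 16358688) (l 16490512)) (l 16419576)) (a (b (c (a (l 16368840) (l 16424968)) (a (l 16304528) (l 16394736))) (c (a (l 16409928) (l 16471296)) (a (l 16310776) (l 16430408)))) (c (l 16419568) (l 16375512)))) (c (l 16393728) (l 16455976))))) (c (b (a (c (l 16191968) (l 16327440)) (c (l 16047560) (l 16083280))) (c (a (a (l 16197696) (l 16130576)) (l 15963576)) (a (l 16208216) (l 15972328)))) (b (c (l 16120272)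 (a (a (b (l 16467744) (l 16411040)) (l 16326128)) (l 16158288))) (c (l 15892928) (l 16113728))))), by decide +kernel⟩

def k5_pp_022 : ∃ t, chk3 f_pp_022 t 3 18 1 = true :=
  ⟨(b (c (c (a (b (a (l 16058680) (l 15835336)) (a (l 15964904) (l 15737280))) (b (l 15297992) (l 15400528))) (a (b (a (l 16052664) (l 15826104)) (a (l 15951424) (l 15735952))) (b (l 15487552) (l 15426288)))) (a (b (a (c (l 16077000) (b (l 16071936) (l 16120160))) (l 15887936)) (c (l 15723088) (l 15929120))) (b (c (b (l 15577376) (l 15535072)) (a (l 15696736) (l 15483416))) (c (a (l 15566480) (l 15357144)) (a (l 15598448) (l 15397112)))))) (c (a (b (c (l 15581712) (a (l 15851592) (l 15635488))) (c (l 15627088) (a (l 15748264) (l 15517592)))) (a (b (l 15408248) (l 15382144)) (b (l 15283104) (l 15401408)))) (a (b (c (a (l 15876304) (l 15671048)) (a (l 15936824) (l 15710152))) (c (a (l 15770784) (l 15567584)) (a (l 15817384) (l 15546200)))) (b (a (c (l 15464616) (l 15505328)) (b (a (l 15351344) (l 15294200))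 (l 15359552))) (a (b (a (l 15458000) (l 15396184)) (l 15459776)) (l 15483480)))))), by decide +kernel⟩

def k6_pp_022 : ∃ t, chk3 f_pp_022 t 2 19 1 = true :=
  ⟨(b (c (a (b (a (c (l 16292952) (l 16281240)) (c (a (b (l 16254984) (l 16190672)) (b (l 16165376) (l 16108240))) (a (l 16285016) (l 16238544)))) (a (c (l 16156688) (l 16290488)) (c (a (c (l 16110424) (l 16136936)) (l 16044256)) (a (l 16200624) (l 16133880))))) (b (c (a (b (l 16077856) (a (l 16059288) (l 15986320))) (l 15859568)) (a (b (l 16116136) (l 16059224)) (l 15865456))) (a (c (l 15862792) (l 15829912)) (l 15755712)))) (a (a (b (c (a (l 16459088) (l 16329768)) (a (a (l 16280776) (l 16365560)) (l 16462744))) (c (a (l 16456496) (l 16289048)) (a (a (l 16468864) (l 16455064)) (l 16409608)))) (b (c (a (l 16388760) (l 16283872)) (l 16266960)) (c (l 16219376) (l 16247208)))) (b (c (a (l 16100048) (l 15745808)) (b (l 16065744) (l 15955776))) (c (a (l 15997768) (l 15764744)) (a (l 16030240) (l 15720568)))))) (a (c (b (a (c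 (b (l 16244736) (l 16181904)) (a (l 16323896) (l 16198536))) (c (a (l 16009696) (l 15937552)) (a (l 16070552) (l 16048280)))) (a (c (l 16029680) (a (l 16213376) (l 16004568))) (c (l 15759448) (a (l 16004592) (l 15926256))))) (a (c (b (a (l 16351496) (l 16256392)) (a (l 16265680) (c (l 16156216) (l 16186768)))) (a (b (c (l 16358240) (l 16398168)) (l 16215592)) (b (l 16300000) (l 16218096)))) (b (c (a (l 16179808) (l 16085088)) (l 16146016)) (c (a (l 15988848) (l 15991744)) (b (l 16086072) (l 15984584)))))) (c (b (a (c (l 15831680) (l 15893720)) (a (l 15734448) (l 15692720))) (a (a (c (l 15779488) (l 15861304)) (l 15756888)) (l 15827392))) (b (a (c (l 15730128) (b (l 15967432) (l 15930440))) (c (l 15764288) (b (a (l 15824696) (l 15765480)) (l 15835760)))) (a (c (l 15865048) (b (a (l 15943592) (l 15885120)) (l 15947424))) (l 15910448)))))), by decide +kernel⟩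

def k7_pp_022 : ∃ t, chk3 f_pp_022 t 3 19 1 = true :=
  ⟨(b (a (c (b (a (l 15626048) (b (l 15461680) (l 15485000))) (a (b (l 15575928) (l 15601496)) (l 15600544))) (b (a (c (l 15581328) (b (l 15734344) (l 15683112))) (c (l 15532672) (b (a (l 15582176) (l 15519768)) (l 15584264)))) (a (b (a (l 15669568) (l 15607360)) (l 15575080)) (l 15688904)))) (c (b (l 15538864) (l 15700208)) (b (l 15623024) (l 15801512)))) (c (a (b (l 15739952) (l 15889888)) (c (a (l 15859304) (l 15871664)) (l 15936472))) (a (b (l 15834072) (l 15997792)) (b (l 15963912) (l 16109320))))), by decide +kernel⟩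

def k8_pp_022 : ∃ t, chk3 f_pp_022 t 2 20 1 = true :=
  ⟨(b (a (c (a (b (c (l 15973048) (l 15897336)) (a (l 15953408) (l 15790544))) (b (a (b (l 15858096) (l 15812128)) (c (l 15786560) (l 15900496))) (c (l 15883376) (l 15981064)))) (b (a (c (a (l 16070648) (b (l 16103272) (l 16028448))) (a (c (l 16127016) (l 16164816)) (b (l 16157104) (l 16028064)))) (c (a (l 15999128) (l 15967184)) (b (a (l 16057400) (l 15992624)) (l 16048752)))) (a (c (a (l 16059984) (l 15979736)) (a (b (c (l 16134520) (l 16000120)) (a (l 16116080) (l 16098280))) (b (l 16088720) (l 16125976)))) (c (l 16067640) (l 16131344))))) (c (a (b (l 15902328) (l 16012904)) (l 15887904)) (b (l 15958416) (l 16114024)))) (b (a (c (a (l 15988472) (c (l 15997240) (l 16072744))) (a (c (l 16021096) (a (l 16043728) (l 16204856))) (c (l 16179392) (l 16242736)))) (c (a (l 16061184) (l 16208584)) (l 16224312))) (b (a (c (a (l 16057008) (c (l 16071560) (l 16142632))) (a (c (l 16125152) (a (l 16184328) (l 16263456))) (l 16217432)))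 (c (a (c (l 16193304) (l 16258736)) (l 16286376)) (l 16356416))) (b (a (c (a (l 16089232) (c (l 16116304) (l 16200720))) (a (c (l 16166568) (a (l 16236208) (l 16278104))) (l 16305864))) (c (l 16132000) (l 16395440))) (a (c (c (a (l 16087112) (a (l 16117152) (l 16173736))) (a (l 16118064) (a (l 16196976) (l 16269312)))) (a (c (a (l 16181808) (l 16157560)) (a (b (l 16063576) (l 16242248)) (l 16290224))) (l 16094848))) (c (a (l 16095008) (l 16385176)) (l 16403536))))))), by decide +kernel⟩

def k9_pp_022 : ∃ t, chk3 f_pp_022 t 3 20 1 = true :=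
  ⟨(b (c (a (b (l 16024928) (l 16146776)) (a (l 16032656) (c (l 15901344) (l 16210304)))) (a (b (l 16142016) (l 16268616)) (b (l 16240328) (l 16358720)))) (b (c (a (l 16255656) (a (l 16303344) (c (l 16302640) (c (l 16345608) (l 16389960))))) (a (l 16377080) (l 16464976))) (b (c (a (l 16338648) (c (l 16334096) (a (l 16415824) (l 16450368)))) (l 16240392)) (c (a (b (l 16408144) (l 16458472)) (b (c (l 16466040) (l 16308880)) (c (a (l 16475816) (l 16422416)) (l 16231960)))) (b (l 16355240) (a (l 16422304) (l 16311144))))))), by decide +kernel⟩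

def k10_pp_022 : ∃ t, chk3 f_pp_022 t 1 21 1 = true :=
  ⟨(a (a (c (a (b (b (l 16161416) (l 16362712)) (l 15877320)) (b (c (b (l 16182584) (l 16361936)) (b (l 16278976) (l 16294432))) (a (l 15797704) (l 15745864)))) (a (b (c (b (l 16204136) (l 16273136)) (a (l 16145736) (l 16313168))) (c (l 15751248) (a (l 15797560) (l 15857376)))) (b (c (l 16288200) (l 16312232)) (l 15714600)))) (b (c (a (l 16108912) (l 16260888)) (l 16200632)) (c (a (l 15719424) (l 15743712)) (l 15733440)))) (c (b (a (l 16188088) (c (a (l 16114808) (l 16225552)) (a (l 16158744) (b (l 16250680) (l 16100120))))) (a (a (l 15732784) (c (l 15783880) (l 15770152))) (c (l 15936616) (l 15813256)))) (a (b (l 16133760) (l 15696120)) (b (b (l 16171896) (a (l 15948056) (l 15980096))) (l 15689224))))), by decide +kernel⟩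

def k11_pp_022 : ∃ t, chk3 f_pp_022 t 1 11 1 = true :=
  ⟨(b (a (a (c (a (b (l 15528064) (b (l 15164360) (a (l 14937320) (l 14962288)))) (b (c (l 15476536) (l 15415536)) (a (b (l 15129464) (l 14985792)) (c (l 15098064) (l 14996528))))) (a (b (c (l 15408536) (l 15166880)) (c (a (l 15000280) (l 14981696)) (a (l 14950912) (l 14922560)))) (b (l 15328168) (c (l 14969968) (l 14945504))))) (c (b (a (b (l 15446968) (l 15230280)) (l 15338000)) (a (l 15063288) (l 15144016))) (b (a (l 15291432) (l 15312016)) (l 15075704)))) (c (a (b (a (l 15437048) (l 15333088)) (l 15332896)) (b (c (l 15751464) (l 15727616)) (l 15549352))) (a (l 15365664) (l 15553304)))) (a (a (c (a (b (l 14856864) (l 14855728)) (c (l 14985280) (l 14912096))) (a (c (l 14789584) (a (l 14723224) (l 14760648))) (l 14838976))) (c (b (l 15024856) (l 15024352)) (l 14994928))) (c (a (l 15229216) (l 15445824)) (l 15289592)))), by decide +kernel⟩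

def k12_pp_022 : ∃ t, chk3 f_pp_022 t 1 3 1 = true :=
  ⟨(b (b (a (c (a (b (a (l 14855728) (l 14945488)) (a (l 14855728) (l 14945488))) (c (l 15021440) (l 15009760))) (a (a (c (l 14788952) (l 14618144)) (l 14838776)) (l 14994696))) (c (a (l 15228936) (l 15445536)) (l 15289320))) (a (c (a (c (l 14925520) (a (l 14839424) (l 14911872))) (l 15024352)) (a (c (a (l 14788952) (l 14857264)) (c (l 14757552) (l 14780232))) (l 14994696))) (b (c (l 15331768) (l 15289320)) (l 15158672)))) (a (a (c (b (a (l 14855728) (l 14945488)) (l 14830760)) (b (a (c (l 14788952) (l 14743968)) (l 14838776)) (a (c (l 14788952) (l 14743968)) (l 14838776)))) (c (l 15024352) (b (l 14994696) (l 14994696)))) (c (l 15289832) (b (l 15289320) (l 15289320))))), by decide +kernel⟩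

theorem s13_pp_022 : ∃ t, chk3 f_pp_022 t 1 20 1 = true := ex3_a k8_pp_022 k9_pp_022

theorem s14_pp_022 : ∃ t, chk3 f_pp_022 t 1 10 1 = true := ex3_b s13_pp_022 k10_pp_022

theorem s15_pp_022 : ∃ t, chk3 f_pp_022 t 1 5 1 = true := ex3_b s14_pp_022 k11_pp_022

theorem s16_pp_022 : ∃ t, chk3 f_pp_022 t 1 19 1 = true := ex3_a k6_pp_022 k7_pp_022

theorem s17_pp_022 : ∃ t, chk3 f_pp_022 t 2 18 1 = true := ex3_b k3_pp_022 k4_pp_022

theorem s18_pp_022 : ∃ t, chk3 f_pp_022 t 1 18 1 = true := ex3_a s17_pp_022 k5_pp_022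

theorem s19_pp_022 : ∃ t, chk3 f_pp_022 t 1 9 1 = true := ex3_b s18_pp_022 s16_pp_022

theorem s20_pp_022 : ∃ t, chk3 f_pp_022 t 3 8 1 = true := ex3_b k1_pp_022 k2_pp_022

theorem s21_pp_022 : ∃ t, chk3 f_pp_022 t 1 8 1 = true := ex3_a k0_pp_022 s20_pp_022

theorem s22_pp_022 : ∃ t, chk3 f_pp_022 t 1 4 1 = true := ex3_b s21_pp_022 s19_pp_022

theorem s23_pp_022 : ∃ t, chk3 f_pp_022 t 1 2 1 = true := ex3_b s22_pp_022 s15_pp_022

theorem s24_pp_022 : ∃ t, chk3 f_pp_022 t 1 1 1 = true := ex3_b s23_pp_022 k12_pp_022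

theorem c_pp_022 : CertFX 0 67108864 1073741824 536870912 1046898278 26843546 false true true .pp 0 2 2
    ndF4q0 ndF5q2 pcF2 Cut.none Ext.none :=
  certFX1 (fam := false) (s1 := true) (s2 := true) (a := 0) (b := 2) (c := 2) (cn := .pp) (n1 := ndF4q0) (n2 := ndF5q2) (pc := pcF2) (cut := Cut.none) (xt := Ext.none) (P1 := 0) (W1 := 67108864) (P2 := 1073741824) (W2 := 536870912) (P3 := 1046898278) (W3 := 26843546)
    rfl (fun _ => rfl) s24_pp_022

noncomputable def f_pp_023 : ℕ → ℕ → ℕ → ℕ → Bool := onCell 0 67108864 0 1230186008 1046898278 26843546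
    (rowFX 0 false true true .up 0 2 3 (qsf 0 67108864 0 1230186008 2) ndF4q0 ndF5q3 pcF2 Cut.none Ext.none)

def k0_pp_023 : ∃ t, chk3 f_pp_023 t 1 1 1 = true :=
  ⟨(b (l 2) (b (l 2) (b (l 2) (b (l 2) (a (b (l 2) (a (c (l 14893672) (a (l 107470316855) (l 14838776))) (c (l 15024352) (l 14994696)))) (l 15305472)))))), by decide +kernel⟩

theorem c_pp_023 : CertFX 0 67108864 0 1230186008 1046898278 26843546 false true true .up 0 2 3
    ndF4q0 ndF5q3 pcF2 Cut.none Ext.none :=
  certFX0 (fam := false) (s1 := true) (s2 := true) (a := 0) (b := 2) (c := 3) (cn := .up) (n1 := ndF4q0) (n2 := ndF5q3) (pc := pcF2) (cut := Cut.none) (xt := Ext.none) (P1 := 0) (W1 := 67108864) (P2 := 0) (W2 := 1230186008) (P3 := 1046898278) (W3 := 26843546)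
    rfl k0_pp_023

noncomputable def f_pp_033 : ℕ → ℕ → ℕ → ℕ → Bool := onCell 0 67108864 0 1230186008 1046898278 26843546
    (rowFX 0 false true true .pnn 0 3 3 (qsf 0 67108864 0 1230186008 3) ndF4q0 ndF5q3 pcF3 Cut.none Ext.none)

def k0_pp_033 : ∃ t, chk3 f_pp_033 t 1 1 1 = true :=
  ⟨(b (l 4) (b (b (b (l 4) (b (l 4) (a (c (l 4) (a (c (l 4) (l 2086510763703)) (l 14994632))) (c (l 15331720) (l 15289256))))) (c (a (b (a (c (l 14925496) (l 14871032)) (l 15024328)) (a (c (l 14925520) (l 14871064)) (l 15024352))) (b (c (l 15339168) (l 15330120)) (l 15331768))) (b (b (a (a (c (l 14828576) (l 14788216)) (l 14994656)) (l 15289280)) (a (a (c (l 14828600) (l 14788240)) (l 14994680)) (l 15289304))) (a (a (c (l 14723760) (a (l 14743968) (l 14837368))) (l 14994696)) (l 15289320))))) (b (b (a (c (a (c (l 14925520) (l 14871064)) (l 15024352)) (a (c (l 14702792) (a (l 14743968) (l 14837368))) (l 14994696))) (c (l 15331768) (l 15289320))) (a (a (c (l 14893672) (a (c (l 14788952) (l 14743968))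 (l 14838776))) (l 14905432)) (l 15137696))) (c (a (a (b (l 14893672) (a (l 14855728) (l 14945488))) (l 15024352)) (l 15310800)) (a (b (a (a (c (l 14788952) (l 14743968)) (l 14838776)) (l 14994696)) (a (b (a (l 14764448) (l 14838776)) (c (l 14828616) (l 14788264))) (l 14994696))) (b (l 15289320) (l 15289320))))))), by decide +kernel⟩

theorem c_pp_033 : CertFX 0 67108864 0 1230186008 1046898278 26843546 false true true .pnn 0 3 3
    ndF4q0 ndF5q3 pcF3 Cut.none Ext.none :=
  certFX0 (fam := false) (s1 := true) (s2 := true) (a := 0) (b := 3) (c := 3) (cn := .pnn) (n1 := ndF4q0) (n2 := ndF5q3) (pc := pcF3) (cut := Cut.none) (xt := Ext.none) (P1 := 0) (W1 := 67108864) (P2 := 0) (W2 := 1230186008) (P3 := 1046898278) (W3 := 26843546)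
    rfl k0_pp_033

noncomputable def f_pm_001 : ℕ → ℕ → ℕ → ℕ → Bool := onCell 0 67108864 536870912 469762048 1046898278 26843546
    (rowFX 0 false true false .up 0 0 1 (qsf 0 67108864 536870912 469762048 0) ndF4q0 ndF5q1 pcF0 Cut.none Ext.none)

def k0_pm_001 : ∃ t, chk3 f_pm_001 t 1 1 1 = true :=
  ⟨(l 4), by decide +kernel⟩

theorem c_pm_001 : CertFX 0 67108864 536870912 469762048 1046898278 26843546 false true false .up 0 0 1
    ndF4q0 ndF5q1 pcF0 Cut.none Ext.none :=
  certFX0 (fam := false) (s1 := true) (s2 := false) (a := 0) (b := 0) (c := 1) (cn := .up) (n1 := ndF4q0) (n2 := ndF5q1) (pc := pcF0) (cut := Cut.none) (xt := Ext.none) (P1 := 0) (W1 := 67108864) (P2 := 536870912) (W2 := 469762048) (P3 := 1046898278) (W3 := 26843546)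
    rfl k0_pm_001

noncomputable def f_pm_011 : ℕ → ℕ → ℕ → ℕ → Bool := onCell 0 67108864 536870912 469762048 1046898278 26843546
    (rowFX 0 false true false .pnn 0 1 1 (qsf 0 67108864 536870912 469762048 1) ndF4q0 ndF5q1 pcF1 Cut.none Ext.none)

def k0_pm_011 : ∃ t, chk3 f_pm_011 t 1 1 1 = true :=
  ⟨(l 4), by decide +kernel⟩

theorem c_pm_011 : CertFX 0 67108864 536870912 469762048 1046898278 26843546 false true false .pnn 0 1 1
    ndF4q0 ndF5q1 pcF1 Cut.none Ext.none :=
  certFX0 (fam := false) (s1 := true) (s2 := false) (a := 0) (b := 1) (c := 1) (cn := .pnn) (n1 := ndF4q0) (n2 := ndF5q1) (pc := pcF1) (cut := Cut.none) (xt := Ext.none) (P1 := 0) (W1 := 67108864) (P2 := 536870912) (W2 := 469762048) (P3 := 1046898278) (W3 := 26843546)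
    rfl k0_pm_011

noncomputable def f_pm_012 : ℕ → ℕ → ℕ → ℕ → Bool := onCell 0 67108864 1073741824 536870912 1046898278 26843546
    (rowFX 0 false true false .pnp 0 1 2 (qsf 0 67108864 1073741824 536870912 1) ndF4q0 ndF5q2 pcF1 Cut.none Ext.none)

def k0_pm_012 : ∃ t, chk3 f_pm_012 t 1 1 1 = true :=
  ⟨(l 4), by decide +kernel⟩

theorem c_pm_012 : CertFX 0 67108864 1073741824 536870912 1046898278 26843546 false true false .pnp 0 1 2
    ndF4q0 ndF5q2 pcF1 Cut.none Ext.none :=
  certFX0 (fam := false) (s1 := true) (s2 := false) (a := 0) (b := 1) (c := 2) (cn := .pnp) (n1 := ndF4q0) (n2 := ndF5q2) (pc := pcF1) (cut := Cut.none) (xt := Ext.none) (P1 := 0) (W1 := 67108864) (P2 := 1073741824) (W2 := 536870912) (P3 := 1046898278) (W3 := 26843546)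
    rfl k0_pm_012

noncomputable def f_pm_022 : ℕ → ℕ → ℕ → ℕ → Bool := onCell 0 67108864 1073741824 536870912 1046898278 26843546
    (rowFX 0 false true false .pp 0 2 2 (qsf 0 67108864 1073741824 536870912 2) ndF4q0 ndF5q2 pcF2 Cut.none Ext.none)

def k0_pm_022 : ∃ t, chk3 f_pm_022 t 1 1 1 = true :=
  ⟨(l 4), by decide +kernel⟩

theorem c_pm_022 : CertFX 0 67108864 1073741824 536870912 1046898278 26843546 false true false .pp 0 2 2
    ndF4q0 ndF5q2 pcF2 Cut.none Ext.none :=
  certFX0 (fam := false) (s1 := true) (s2 := false) (a := 0) (b := 2) (c := 2) (cn := .pp) (n1 := ndF4q0) (n2 := ndF5q2) (pc := pcF2) (cut := Cut.none) (xt := Ext.none) (P1 := 0) (W1 := 67108864) (P2 := 1073741824) (W2 := 536870912) (P3 := 1046898278) (W3 := 26843546)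
    rfl k0_pm_022

noncomputable def f_pm_023 : ℕ → ℕ → ℕ → ℕ → Bool := onCell 0 67108864 0 1230186008 1046898278 26843546
    (rowFX 0 false true false .up 0 2 3 (qsf 0 67108864 0 1230186008 2) ndF4q0 ndF5q3 pcF2 Cut.none Ext.none)

def k0_pm_023 : ∃ t, chk3 f_pm_023 t 1 1 1 = true :=
  ⟨(b (l 2) (l 4)), by decide +kernel⟩

theorem c_pm_023 : CertFX 0 67108864 0 1230186008 1046898278 26843546 false true false .up 0 2 3
    ndF4q0 ndF5q3 pcF2 Cut.none Ext.none :=
  certFX0 (fam := false) (s1 := true) (s2 := false) (a := 0) (b := 2) (c := 3) (cn := .up) (n1 := ndF4q0) (n2 := ndF5q3) (pc := pcF2) (cut := Cut.none) (xt := Ext.none) (P1 := 0) (W1 := 67108864) (P2 := 0) (W2 := 1230186008) (P3 := 1046898278) (W3 := 26843546)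
    rfl k0_pm_023

noncomputable def f_pm_033 : ℕ → ℕ → ℕ → ℕ → Bool := onCell 0 67108864 0 1230186008 1046898278 26843546
    (rowFX 0 false true false .pnn 0 3 3 (qsf 0 67108864 0 1230186008 3) ndF4q0 ndF5q3 pcF3 Cut.none Ext.none)

def k0_pm_033 : ∃ t, chk3 f_pm_033 t 1 1 1 = true :=
  ⟨(b (l 4) (l 4)), by decide +kernel⟩

theorem c_pm_033 : CertFX 0 67108864 0 1230186008 1046898278 26843546 false true false .pnn 0 3 3
    ndF4q0 ndF5q3 pcF3 Cut.none Ext.none :=
  certFX0 (fam := false) (s1 := true) (s2 := false) (a := 0) (b := 3) (c := 3) (cn := .pnn) (n1 := ndF4q0) (n2 := ndF5q3) (pc := pcF3) (cut := Cut.none) (xt := Ext.none) (P1 := 0) (W1 := 67108864) (P2 := 0) (W2 := 1230186008) (P3 := 1046898278) (W3 := 26843546)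
    rfl k0_pm_033

noncomputable def f_mm_001 : ℕ → ℕ → ℕ → ℕ → Bool := onCell 0 67108864 536870912 469762048 1046898278 26843546
    (rowFX 0 false false false .up 0 0 1 (qsf 0 67108864 536870912 469762048 0) ndF4q0 ndF5q1 pcF0 Cut.none Ext.none)

def k0_mm_001 : ∃ t, chk3 f_mm_001 t 1 1 1 = true :=
  ⟨(l 3), by decide +kernel⟩

theorem c_mm_001 : CertFX 0 67108864 536870912 469762048 1046898278 26843546 false false false .up 0 0 1
    ndF4q0 ndF5q1 pcF0 Cut.none Ext.none :=
  certFX0 (fam := false) (s1 := false) (s2 := false) (a := 0) (b := 0) (c := 1) (cn := .up) (n1 := ndF4q0) (n2 := ndF5q1) (pc := pcF0) (cut := Cut.none) (xt := Ext.none) (P1 := 0) (W1 := 67108864) (P2 := 536870912) (W2 := 469762048) (P3 := 1046898278) (W3 := 26843546)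
    rfl k0_mm_001

noncomputable def f_mm_011 : ℕ → ℕ → ℕ → ℕ → Bool := onCell 0 67108864 536870912 469762048 1046898278 26843546
    (rowFX 0 false false false .pnn 0 1 1 (qsf 0 67108864 536870912 469762048 1) ndF4q0 ndF5q1 pcF1 Cut.none Ext.none)

def k0_mm_011 : ∃ t, chk3 f_mm_011 t 1 1 1 = true :=
  ⟨(l 3), by decide +kernel⟩

theorem c_mm_011 : CertFX 0 67108864 536870912 469762048 1046898278 26843546 false false false .pnn 0 1 1
    ndF4q0 ndF5q1 pcF1 Cut.none Ext.none :=
  certFX0 (fam := false) (s1 := false) (s2 := false) (a := 0) (b := 1) (c := 1) (cn := .pnn) (n1 := ndF4q0) (n2 := ndF5q1) (pc := pcF1) (cut := Cut.none) (xt := Ext.none) (P1 := 0) (W1 := 67108864) (P2 := 536870912) (W2 := 469762048) (P3 := 1046898278) (W3 := 26843546)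
    rfl k0_mm_011

noncomputable def f_mm_012 : ℕ → ℕ → ℕ → ℕ → Bool := onCell 0 67108864 1073741824 536870912 1046898278 26843546
    (rowFX 0 false false false .pnp 0 1 2 (qsf 0 67108864 1073741824 536870912 1) ndF4q0 ndF5q2 pcF1 Cut.none Ext.none)

def k0_mm_012 : ∃ t, chk3 f_mm_012 t 1 1 1 = true :=
  ⟨(l 5), by decide +kernel⟩

theorem c_mm_012 : CertFX 0 67108864 1073741824 536870912 1046898278 26843546 false false false .pnp 0 1 2
    ndF4q0 ndF5q2 pcF1 Cut.none Ext.none :=
  certFX0 (fam := false) (s1 := false) (s2 := false) (a := 0) (b := 1) (c := 2) (cn := .pnp) (n1 := ndF4q0) (n2 := ndF5q2) (pc := pcF1) (cut := Cut.none) (xt := Ext.none) (P1 := 0) (W1 := 67108864) (P2 := 1073741824) (W2 := 536870912) (P3 := 1046898278) (W3 := 26843546)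
    rfl k0_mm_012

noncomputable def f_mm_022 : ℕ → ℕ → ℕ → ℕ → Bool := onCell 0 67108864 1073741824 536870912 1046898278 26843546
    (rowFX 0 false false false .pp 0 2 2 (qsf 0 67108864 1073741824 536870912 2) ndF4q0 ndF5q2 pcF2 Cut.none Ext.none)

def k0_mm_022 : ∃ t, chk3 f_mm_022 t 1 1 1 = true :=
  ⟨(l 5), by decide +kernel⟩

theorem c_mm_022 : CertFX 0 67108864 1073741824 536870912 1046898278 26843546 false false false .pp 0 2 2
    ndF4q0 ndF5q2 pcF2 Cut.none Ext.none :=
  certFX0 (fam := false) (s1 := false) (s2 := false) (a := 0) (b := 2) (c := 2) (cn := .pp) (n1 := ndF4q0) (n2 := ndF5q2) (pc := pcF2) (cut := Cut.none) (xt := Ext.none) (P1 := 0) (W1 := 67108864) (P2 := 1073741824) (W2 := 536870912) (P3 := 1046898278) (W3 := 26843546)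
    rfl k0_mm_022

noncomputable def f_mm_023 : ℕ → ℕ → ℕ → ℕ → Bool := onCell 0 67108864 0 1230186008 1046898278 26843546
    (rowFX 0 false false false .up 0 2 3 (qsf 0 67108864 0 1230186008 2) ndF4q0 ndF5q3 pcF2 Cut.none Ext.none)

def k0_mm_023 : ∃ t, chk3 f_mm_023 t 1 1 1 = true :=
  ⟨(l 5), by decide +kernel⟩

theorem c_mm_023 : CertFX 0 67108864 0 1230186008 1046898278 26843546 false false false .up 0 2 3
    ndF4q0 ndF5q3 pcF2 Cut.none Ext.none :=
  certFX0 (fam := false) (s1 := false) (s2 := false) (a := 0) (b := 2) (c := 3) (cn := .up) (n1 := ndF4q0) (n2 := ndF5q3) (pc := pcF2) (cut := Cut.none) (xt := Ext.none) (P1 := 0) (W1 := 67108864) (P2 := 0) (W2 := 1230186008) (P3 := 1046898278) (W3 := 26843546)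
    rfl k0_mm_023

noncomputable def f_mm_033 : ℕ → ℕ → ℕ → ℕ → Bool := onCell 0 67108864 0 1230186008 1046898278 26843546
    (rowFX 0 false false false .pnn 0 3 3 (qsf 0 67108864 0 1230186008 3) ndF4q0 ndF5q3 pcF3 Cut.none Ext.none)

def k0_mm_033 : ∃ t, chk3 f_mm_033 t 1 1 1 = true :=
  ⟨(l 5), by decide +kernel⟩

theorem c_mm_033 : CertFX 0 67108864 0 1230186008 1046898278 26843546 false false false .pnn 0 3 3
    ndF4q0 ndF5q3 pcF3 Cut.none Ext.none :=
  certFX0 (fam := false) (s1 := false) (s2 := false) (a := 0) (b := 3) (c := 3) (cn := .pnn) (n1 := ndF4q0) (n2 := ndF5q3) (pc := pcF3) (cut := Cut.none) (xt := Ext.none) (P1 := 0) (W1 := 67108864) (P2 := 0) (W2 := 1230186008) (P3 := 1046898278) (W3 := 26843546)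
    rfl k0_mm_033

end Pool.Agent.Strip051.G.IE1.Tab.C.FB45

namespace Pool.Agent.Strip051.G.IE1.Tab.C.FB46

open Pool.Agent.Strip051.PB Pool.Agent.Strip051.PB.T
open Pool.Agent.Strip051.G.IE1.Tab

noncomputable def f_pp_001 : ℕ → ℕ → ℕ → ℕ → Bool := onCell 0 67108864 536870912 469762048 1046898278 26843546
    (rowFX 0 false true true .up 0 0 1 (qsf 0 67108864 536870912 469762048 0) ndF4q0 ndF6q1 pcF0 Cut.none Ext.none)

def k0_pp_001 : ∃ t, chk3 f_pp_001 t 1 1 1 = true :=
  ⟨(l 3), by decide +kernel⟩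

theorem c_pp_001 : CertFX 0 67108864 536870912 469762048 1046898278 26843546 false true true .up 0 0 1
    ndF4q0 ndF6q1 pcF0 Cut.none Ext.none :=
  certFX0 (fam := false) (s1 := true) (s2 := true) (a := 0) (b := 0) (c := 1) (cn := .up) (n1 := ndF4q0) (n2 := ndF6q1) (pc := pcF0) (cut := Cut.none) (xt := Ext.none) (P1 := 0) (W1 := 67108864) (P2 := 536870912) (W2 := 469762048) (P3 := 1046898278) (W3 := 26843546)
    rfl k0_pp_001

noncomputable def f_pp_011 : ℕ → ℕ → ℕ → ℕ → Bool := onCell 0 67108864 536870912 469762048 1046898278 26843546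
    (rowFX 0 false true true .pnn 0 1 1 (qsf 0 67108864 536870912 469762048 1) ndF4q0 ndF6q1 pcF1 Cut.none Ext.none)

def k0_pp_011 : ∃ t, chk3 f_pp_011 t 1 1 1 = true :=
  ⟨(l 3), by decide +kernel⟩

theorem c_pp_011 : CertFX 0 67108864 536870912 469762048 1046898278 26843546 false true true .pnn 0 1 1
    ndF4q0 ndF6q1 pcF1 Cut.none Ext.none :=
  certFX0 (fam := false) (s1 := true) (s2 := true) (a := 0) (b := 1) (c := 1) (cn := .pnn) (n1 := ndF4q0) (n2 := ndF6q1) (pc := pcF1) (cut := Cut.none) (xt := Ext.none) (P1 := 0) (W1 := 67108864) (P2 := 536870912) (W2 := 469762048) (P3 := 1046898278) (W3 := 26843546)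
    rfl k0_pp_011

noncomputable def f_pp_012 : ℕ → ℕ → ℕ → ℕ → Bool := onCell 0 67108864 536870912 536870912 1046898278 26843546
    (rowFX 1 false true true .pnp 0 1 2 (qsf 0 67108864 1073741824 536870912 1) ndF4q0 ndF6q2 pcF1 Cut.none Ext.none)

def k0_pp_012 : ∃ t, chk3 f_pp_012 t 1 1 1 = true :=
  ⟨(l 3), by decide +kernel⟩

theorem c_pp_012 : CertFX 0 67108864 1073741824 536870912 1046898278 26843546 false true true .pnp 0 1 2
    ndF4q0 ndF6q2 pcF1 Cut.none Ext.none :=
  certFX1 (fam := false) (s1 := true) (s2 := true) (a := 0) (b := 1) (c := 2) (cn := .pnp) (n1 := ndF4q0) (n2 := ndF6q2) (pc := pcF1) (cut := Cut.none) (xt := Ext.none) (P1 := 0) (W1 := 67108864) (P2 := 1073741824) (W2 := 536870912) (P3 := 1046898278) (W3 := 26843546)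
    rfl (fun _ => rfl) k0_pp_012

end Pool.Agent.Strip051.G.IE1.Tab.C.FB46

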