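import Pool.Agent.Strip051.G.IE1.Tab

/-! # Certificates F50 (generated) -/

set_option linter.all false
set_option maxRecDepth 100000

namespace Pool.Agent.Strip051.G.IE1.Tab.C.FB46

open Pool.Agent.Strip051.PB Pool.Agent.Strip051.PB.T
open Pool.Agent.Strip051.G.IE1.Tab

noncomputable def f_pp_022 : ℕ → ℕ → ℕ → ℕ → Bool := onCell 0 67108864 1073741824 536870912 1046898278 26843546
    (rowFX 1 false true true .pp 0 2 2 (qsf 0 67108864 1073741824 536870912 2) ndF4q0 ndF6q2 pcF2 Cut.none Ext.none)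

def k0_pp_022 : ∃ t, chk3 f_pp_022 t 1 4 1 = true :=
  ⟨(l 3), by decide +kernel⟩

def k1_pp_022 : ∃ t, chk3 f_pp_022 t 1 40 1 = true :=
  ⟨(l 3), by decide +kernel⟩

def k2_pp_022 : ∃ t, chk3 f_pp_022 t 1 82 1 = true :=
  ⟨(a (l 3) (l 3)), by decide +kernel⟩

def k3_pp_022 : ∃ t, chk3 f_pp_022 t 1 166 1 = true :=
  ⟨(a (l 3) (c (b (a (l 3) (c (a (l 2308710660743) (c (a (l 1562460035559) (l 1137258238599)) (l 1538300847367))) (l 2020947906503))) (a (c (b (l 3) (a (l 3) (l 1860423426487))) (l 3456003845143)) (c (c (a (l 924657360519) (c (l 15696800) (l 15696208))) (a (l 1338048014935) (l 15688496))) (b (l 1447569696055) (l 15680688))))) (b (l 3) (a (l 3) (c (l 1674129166295) (l 15623272)))))), by decide +kernel⟩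

def k4_pp_022 : ∃ t, chk3 f_pp_022 t 1 334 2 = true :=
  ⟨(a (a (l 3) (b (a (l 3) (c (l 4556589086375) (l 3))) (c (a (b (l 3) (c (l 4254330796359) (l 6373360263943))) (b (l 3098984544551) (c (l 15745048) (l 15761992)))) (a (l 10843347528279) (l 3370104447031))))) (b (a (c (c (l 1145848210839) (l 1576955605239)) (a (l 3749672149975) (l 15737592))) (c (c (a (l 15694168) (l 15648704)) (l 15678696)) (l 15662768))) (a (c (b (l 15720608) (l 15711368)) (b (l 15741024) (l 15731640))) (c (c (b (l 15667064) (a (l 15671976) (l 15627096))) (b (l 15665448) (l 15656632))) (b (l 15649376) (l 15640456)))))), by decide +kernel⟩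

def k5_pp_022 : ∃ t, chk3 f_pp_022 t 2 335 2 = true :=
  ⟨(a (b (a (b (c (b (l 3) (b (l 16049240) (c (l 16049888) (l 16043432)))) (b (l 16037280) (b (l 16033368) (c (l 16036944) (a (l 16031920) (l 16023208)))))) (l 16031440)) (b (c (b (a (l 3) (l 15976160)) (b (a (c (l 16047672) (l 16029512)) (l 15972416)) (a (c (l 16045160) (a (l 16039944) (l 16019328))) (c (a (l 16017896) (l 15969056)) (l 15947608))))) (b (l 3) (b (a (l 15977576) (l 15890504)) (a (c (l 15997232) (l 15956080)) (c (l 15900936) (l 15869000)))))) (c (a (l 16026840) (l 15963688)) (a (l 15968608) (l 15881648))))) (a (l 15994976) (c (a (l 16011720) (l 15948744)) (a (l 15953272) (l 15866480))))) (b (b (b (c (a (c (l 15851840) (l 15782416)) (l 15747024)) (a (l 5909503837159) (l 15782200))) (b (c (a (c (l 15848176) (l 15820672)) (l 15743432)) (a (l 15819120) (l 15778560))) (c (b (b (a (c (l 15846648) (l 15819128)) (l 15741936)) (a (c (l 15846040) (l 15818520)) (c (l 15732224) (l 15749072)))) (a (l 15836016) (l 15740440))) (c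 (a (a (l 15823344) (l 15791472)) (l 15767528)) (l 15801752))))) (c (a (l 15830512) (l 15735064)) (l 15790800))) (c (a (l 15815832) (l 15720744)) (l 15776088)))), by decide +kernel⟩

def k6_pp_022 : ∃ t, chk3 f_pp_022 t 3 335 2 = true :=
  ⟨(b (a (b (b (c (l 15704440) (l 15724616)) (b (c (l 15700984) (l 15721104)) (b (b (c (l 15699544) (l 15719640)) (c (a (l 15712008) (l 15688200)) (l 15719056))) (c (l 15698104) (l 15718184))))) (c (l 15692920) (l 15712920))) (b (b (c (c (a (l 15665344) (l 15641600)) (l 15650032)) (l 15633784)) (b (c (c (a (l 15662024) (l 15617392)) (l 15646736)) (l 15630448)) (b (b (c (c (a (l 15660640) (l 15615952)) (l 15645360)) (l 15629056)) (c (b (a (c (l 15660232) (l 15670136)) (b (b (l 15610360) (b (l 15610264) (a (l 15642312) (a (l 15629280) (l 15618768))))) (l 15610080))) (a (l 15663512) (l 15609880))) (l 15628504))) (c (a (l 15662824) (l 15609200)) (l 15627672))))) (c (a (l 15657832) (l 15625304)) (l 15622672)))) (a (c (l 15679128) (l 15698920)) (c (a (l 15644560)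 (l 15612352)) (l 15609376)))), by decide +kernel⟩

def k7_pp_022 : ∃ t, chk3 f_pp_022 t 1 167 3 = true :=
  ⟨(b (b (a (l 3) (a (l 4458878409687) (c (l 15629312) (l 15595576)))) (a (a (a (c (a (l 16040936) (l 16002960)) (a (c (l 16021408) (l 16008104)) (l 15965640))) (c (l 3) (l 15915360))) (c (a (l 3) (l 7892168157447)) (l 3))) (a (c (b (l 15725560) (l 15716040)) (l 15685032)) (c (l 15611192) (l 15577192))))) (a (b (a (b (a (c (b (a (l 16027616) (l 15989792)) (b (a (l 16023624) (l 15985848)) (a (l 16020960) (c (l 15999256) (l 15970440))))) (b (a (l 16000216) (l 15952288)) (b (a (l 15996168) (l 15948280)) (a (c (l 15938312) (a (l 15977736) (l 15974568))) (c (l 15950680) (l 15948216)))))) (c (b (a (l 15923080) (l 3)) (b (a (l 15919176) (l 15876008)) (c (a (l 15917544) (l 15865824)) (l 15895096)))) (b (l 15902232) (b (l 15898304) (l 15895680))))) (a (c (l 15991960) (a (l 15986728) (l 15938952))) (c (l 15893384) (l 15889128)))) (b (b (c (l 15817240) (l 15800776)) (b (c (l 15813496) (l 15796976))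 (c (a (l 15839696) (l 15789120)) (a (l 15828536) (l 15759664))))) (l 15793616))) (a (a (c (l 15976128) (a (l 15970576) (l 15922984))) (c (l 15877912) (l 15873440))) (l 15778584))) (b (b (b (c (l 15651912) (l 15617376)) (b (c (l 15648440) (l 15613856)) (b (b (c (l 15646992) (l 15612384)) (c (a (l 15703264) (l 15594536)) (l 15611800))) (l 15629384)))) (l 15624144)) (l 15610192)))), by decide +kernel⟩

def k8_pp_022 : ∃ t, chk3 f_pp_022 t 1 21 1 = true :=
  ⟨(a (a (c (a (c (b (l 15852824) (l 15540872)) (b (l 15834064) (l 15517400))) (c (a (b (l 15737880) (l 15536456)) (b (l 15781776) (l 15479272))) (a (b (l 15781776) (l 15470840)) (l 15331784)))) (a (c (a (l 15656624) (b (l 15784840) (l 15465384))) (a (c (l 15632968) (l 15616904)) (l 15580336))) (c (b (l 15704928) (l 15391256)) (l 15536824)))) (b (c (c (a (a (l 15685520) (l 15526048)) (l 15560768)) (l 15422944)) (l 15610528)) (c (a (c (l 15354984) (l 15327664)) (l 15282344)) (l 15306112)))) (a (b (c (c (l 15525104) (l 15542560)) (l 15507016))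 (c (a (b (l 15334536) (l 15157328)) (b (c (l 15333000) (l 15341352)) (l 15290136))) (a (l 15257280) (l 15271400)))) (c (b (a (b (l 15557856) (c (a (l 15440280) (l 15456176)) (l 15439352))) (b (c (a (b (l 15580280) (l 15519720)) (b (l 15569800) (l 15520944))) (l 15531216)) (c (l 15451352) (l 15485688)))) (c (a (l 15406824) (l 15513000)) (l 15438984))) (b (b (l 15493688) (l 15415016)) (l 15384048))))), by decide +kernel⟩

def k9_pp_022 : ∃ t, chk3 f_pp_022 t 1 11 1 = true :=
  ⟨(a (a (b (c (a (b (l 15229448) (b (l 15015376) (l 14901384))) (b (c (l 15150472) (l 15143936)) (c (a (l 15018040) (l 15010352)) (a (l 14944128) (l 14913472))))) (a (c (a (l 15042904) (b (l 15161448) (l 14892656))) (a (l 14812136) (l 14974480))) (b (l 15076424) (c (l 14888256) (l 14868864))))) (c (a (l 14856064) (c (l 14985048) (l 14911872))) (a (c (l 14789296) (l 14744320)) (l 14838776)))) (c (b (b (a (c (b (l 15142328) (l 15029088)) (l 15057784)) (b (l 15055648) (l 15052696))) (a (l 14976480) (l 15051832))) (l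 15024352)) (b (b (a (l 15055768) (l 15080496)) (l 14995136)) (l 14994696)))) (c (a (b (c (l 15225264) (l 15238232)) (l 15228928)) (b (c (l 15456656) (l 15438472)) (l 15445536))) (a (l 15195608) (l 15383776)))), by decide +kernel⟩

def k10_pp_022 : ∃ t, chk3 f_pp_022 t 1 3 1 = true :=
  ⟨(a (b (a (c (b (a (l 14855728) (l 14945488)) (l 14893672)) (b (a (l 14764448) (l 14838776)) (a (l 14764448) (l 14838776)))) (c (b (l 15024352) (l 15024352)) (l 14994696))) (a (c (l 14893672) (c (l 14828616) (l 14767288))) (b (l 14989320) (l 14989320)))) (b (a (b (l 15165832) (l 15207768)) (c (l 15445536) (l 15383744))) (b (l 15305472) (l 15242552)))), by decide +kernel⟩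

theorem s11_pp_022 : ∃ t, chk3 f_pp_022 t 1 335 2 = true := ex3_a k5_pp_022 k6_pp_022

theorem s12_pp_022 : ∃ t, chk3 f_pp_022 t 1 167 2 = true := ex3_b k4_pp_022 s11_pp_022

theorem s13_pp_022 : ∃ t, chk3 f_pp_022 t 1 167 1 = true := ex3_c s12_pp_022 k7_pp_022

theorem s14_pp_022 : ∃ t, chk3 f_pp_022 t 1 83 1 = true := ex3_b k3_pp_022 s13_pp_022

theorem s15_pp_022 : ∃ t, chk3 f_pp_022 t 1 41 1 = true := ex3_b k2_pp_022 s14_pp_022

theorem s16_pp_022 : ∃ t, chk3 f_pp_022 t 1 20 1 = true := ex3_b k1_pp_022 s15_pp_022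

theorem s17_pp_022 : ∃ t, chk3 f_pp_022 t 1 10 1 = true := ex3_b s16_pp_022 k8_pp_022

theorem s18_pp_022 : ∃ t, chk3 f_pp_022 t 1 5 1 = true := ex3_b s17_pp_022 k9_pp_022

theorem s19_pp_022 : ∃ t, chk3 f_pp_022 t 1 2 1 = true := ex3_b k0_pp_022 s18_pp_022

theorem s20_pp_022 : ∃ t, chk3 f_pp_022 t 1 1 1 = true := ex3_b s19_pp_022 k10_pp_022

theorem c_pp_022 : CertFX 0 67108864 1073741824 536870912 1046898278 26843546 false true true .pp 0 2 2
    ndF4q0 ndF6q2 pcF2 Cut.none Ext.none :=
  certFX1 (fam := false) (s1 := true) (s2 := true) (a := 0) (b := 2) (c := 2) (cn := .pp) (n1 := ndF4q0) (n2 := ndF6q2) (pc := pcF2) (cut := Cut.none) (xt := Ext.none) (P1 := 0) (W1 := 67108864) (P2 := 1073741824) (W2 := 536870912) (P3 := 1046898278) (W3 := 26843546)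
    rfl (fun _ => rfl) s20_pp_022

noncomputable def f_pp_023 : ℕ → ℕ → ℕ → ℕ → Bool := onCell 0 67108864 0 1230186008 1046898278 26843546
    (rowFX 0 false true true .up 0 2 3 (qsf 0 67108864 0 1230186008 2) ndF4q0 ndF6q3 pcF2 Cut.none Ext.none)

def k0_pp_023 : ∃ t, chk3 f_pp_023 t 1 1 1 = true :=
  ⟨(b (l 2) (b (l 2) (b (l 2) (b (l 2) (a (a (c (l 14893672) (l 14806968)) (l 14989320)) (l 15305472)))))), by decide +kernel⟩

theorem c_pp_023 : CertFX 0 67108864 0 1230186008 1046898278 26843546 false true true .up 0 2 3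
    ndF4q0 ndF6q3 pcF2 Cut.none Ext.none :=
  certFX0 (fam := false) (s1 := true) (s2 := true) (a := 0) (b := 2) (c := 3) (cn := .up) (n1 := ndF4q0) (n2 := ndF6q3) (pc := pcF2) (cut := Cut.none) (xt := Ext.none) (P1 := 0) (W1 := 67108864) (P2 := 0) (W2 := 1230186008) (P3 := 1046898278) (W3 := 26843546)
    rfl k0_pp_023

noncomputable def f_pp_033 : ℕ → ℕ → ℕ → ℕ → Bool := onCell 0 67108864 0 1230186008 1046898278 26843546
    (rowFX 0 false true true .pnn 0 3 3 (qsf 0 67108864 0 1230186008 3) ndF4q0 ndF6q3 pcF3 Cut.none Ext.none)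

def k0_pp_033 : ∃ t, chk3 f_pp_033 t 1 1 1 = true :=
  ⟨(b (b (l 4) (b (l 4) (b (l 4) (b (l 4) (c (a (l 4) (l 1257583649223)) (a (a (l 4) (l 14994616)) (a (l 15195408) (l 15383664)))))))) (b (b (a (b (c (a (b (a (l 14855704) (l 14945464)) (l 14893624)) (b (l 15024328) (l 15024304))) (a (c (a (l 14788904) (l 14857216)) (a (l 23315875671) (l 14837320))) (b (l 14994664) (l 14994624)))) (c (a (c (l 14925448) (l 14870976)) (l 15024288)) (a (a (b (l 14764336) (l 14764344)) (l 14838672)) (l 14994608)))) (b (c (c (l 15339160) (l 15330104)) (c (l 15307936) (l 15268304))) (c (l 15331712) (l 15289248)))) (b (a (c (a (l 14893632) (l 15024328)) (a (a (l 14764400) (l 14838736)) (l 14994664))) (c (l 15331744) (l 15289288))) (a (a (c (l 14893672) (a (l 14722504) (l 14838776))) (l 14989320)) (l 15242552)))) (b (a (c (a (b (l 14893672) (l 14893672)) (b (l 15024352) (l 15024352))) (a (b (a (c (l 14788952) (l 14743968)) (l 14838776)) (c (l 14828616) (l 14725352))) (b (l 14994696) (l 14994696)))) (b (c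 (l 15331768) (l 15289320)) (c (l 15331768) (l 15289320)))) (b (a (a (c (l 14893672) (a (l 14764448) (l 14838776))) (l 14989320)) (c (l 15331768) (l 15289320))) (a (a (c (l 14893672) (l 14806968)) (l 14989320)) (l 15305472)))))), by decide +kernel⟩

theorem c_pp_033 : CertFX 0 67108864 0 1230186008 1046898278 26843546 false true true .pnn 0 3 3
    ndF4q0 ndF6q3 pcF3 Cut.none Ext.none :=
  certFX0 (fam := false) (s1 := true) (s2 := true) (a := 0) (b := 3) (c := 3) (cn := .pnn) (n1 := ndF4q0) (n2 := ndF6q3) (pc := pcF3) (cut := Cut.none) (xt := Ext.none) (P1 := 0) (W1 := 67108864) (P2 := 0) (W2 := 1230186008) (P3 := 1046898278) (W3 := 26843546)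
    rfl k0_pp_033

noncomputable def f_pm_001 : ℕ → ℕ → ℕ → ℕ → Bool := onCell 0 67108864 536870912 469762048 1046898278 26843546
    (rowFX 0 false true false .up 0 0 1 (qsf 0 67108864 536870912 469762048 0) ndF4q0 ndF6q1 pcF0 Cut.none Ext.none)

def k0_pm_001 : ∃ t, chk3 f_pm_001 t 1 1 1 = true :=
  ⟨(l 4), by decide +kernel⟩

theorem c_pm_001 : CertFX 0 67108864 536870912 469762048 1046898278 26843546 false true false .up 0 0 1
    ndF4q0 ndF6q1 pcF0 Cut.none Ext.none :=
  certFX0 (fam := false) (s1 := true) (s2 := false) (a := 0) (b := 0) (c := 1) (cn := .up) (n1 := ndF4q0) (n2 := ndF6q1) (pc := pcF0) (cut := Cut.none) (xt := Ext.none) (P1 := 0) (W1 := 67108864) (P2 := 536870912) (W2 := 469762048) (P3 := 1046898278) (W3 := 26843546)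
    rfl k0_pm_001

noncomputable def f_pm_011 : ℕ → ℕ → ℕ → ℕ → Bool := onCell 0 67108864 536870912 469762048 1046898278 26843546
    (rowFX 0 false true false .pnn 0 1 1 (qsf 0 67108864 536870912 469762048 1) ndF4q0 ndF6q1 pcF1 Cut.none Ext.none)

def k0_pm_011 : ∃ t, chk3 f_pm_011 t 1 1 1 = true :=
  ⟨(l 4), by decide +kernel⟩

theorem c_pm_011 : CertFX 0 67108864 536870912 469762048 1046898278 26843546 false true false .pnn 0 1 1
    ndF4q0 ndF6q1 pcF1 Cut.none Ext.none :=
  certFX0 (fam := false) (s1 := true) (s2 := false) (a := 0) (b := 1) (c := 1) (cn := .pnn) (n1 := ndF4q0) (n2 := ndF6q1) (pc := pcF1) (cut := Cut.none) (xt := Ext.none) (P1 := 0) (W1 := 67108864) (P2 := 536870912) (W2 := 469762048) (P3 := 1046898278) (W3 := 26843546)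
    rfl k0_pm_011

noncomputable def f_pm_012 : ℕ → ℕ → ℕ → ℕ → Bool := onCell 0 67108864 1073741824 536870912 1046898278 26843546
    (rowFX 0 false true false .pnp 0 1 2 (qsf 0 67108864 1073741824 536870912 1) ndF4q0 ndF6q2 pcF1 Cut.none Ext.none)

def k0_pm_012 : ∃ t, chk3 f_pm_012 t 1 1 1 = true :=
  ⟨(l 4), by decide +kernel⟩

theorem c_pm_012 : CertFX 0 67108864 1073741824 536870912 1046898278 26843546 false true false .pnp 0 1 2
    ndF4q0 ndF6q2 pcF1 Cut.none Ext.none :=
  certFX0 (fam := false) (s1 := true) (s2 := false) (a := 0) (b := 1) (c := 2) (cn := .pnp) (n1 := ndF4q0) (n2 := ndF6q2) (pc := pcF1) (cut := Cut.none) (xt := Ext.none) (P1 := 0) (W1 := 67108864) (P2 := 1073741824) (W2 := 536870912) (P3 := 1046898278) (W3 := 26843546)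
    rfl k0_pm_012

noncomputable def f_pm_022 : ℕ → ℕ → ℕ → ℕ → Bool := onCell 0 67108864 1073741824 536870912 1046898278 26843546
    (rowFX 0 false true false .pp 0 2 2 (qsf 0 67108864 1073741824 536870912 2) ndF4q0 ndF6q2 pcF2 Cut.none Ext.none)

def k0_pm_022 : ∃ t, chk3 f_pm_022 t 1 1 1 = true :=
  ⟨(l 4), by decide +kernel⟩

theorem c_pm_022 : CertFX 0 67108864 1073741824 536870912 1046898278 26843546 false true false .pp 0 2 2
    ndF4q0 ndF6q2 pcF2 Cut.none Ext.none :=
  certFX0 (fam := false) (s1 := true) (s2 := false) (a := 0) (b := 2) (c := 2) (cn := .pp) (n1 := ndF4q0) (n2 := ndF6q2) (pc := pcF2) (cut := Cut.none) (xt := Ext.none) (P1 := 0) (W1 := 67108864) (P2 := 1073741824) (W2 := 536870912) (P3 := 1046898278) (W3 := 26843546)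
    rfl k0_pm_022

noncomputable def f_pm_023 : ℕ → ℕ → ℕ → ℕ → Bool := onCell 0 67108864 0 1230186008 1046898278 26843546
    (rowFX 0 false true false .up 0 2 3 (qsf 0 67108864 0 1230186008 2) ndF4q0 ndF6q3 pcF2 Cut.none Ext.none)

def k0_pm_023 : ∃ t, chk3 f_pm_023 t 1 1 1 = true :=
  ⟨(b (l 2) (l 4)), by decide +kernel⟩

theorem c_pm_023 : CertFX 0 67108864 0 1230186008 1046898278 26843546 false true false .up 0 2 3
    ndF4q0 ndF6q3 pcF2 Cut.none Ext.none :=
  certFX0 (fam := false) (s1 := true) (s2 := false) (a := 0) (b := 2) (c := 3) (cn := .up) (n1 := ndF4q0) (n2 := ndF6q3) (pc := pcF2) (cut := Cut.none) (xt := Ext.none) (P1 := 0) (W1 := 67108864) (P2 := 0) (W2 := 1230186008) (P3 := 1046898278) (W3 := 26843546)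
    rfl k0_pm_023

noncomputable def f_pm_033 : ℕ → ℕ → ℕ → ℕ → Bool := onCell 0 67108864 0 1230186008 1046898278 26843546
    (rowFX 0 false true false .pnn 0 3 3 (qsf 0 67108864 0 1230186008 3) ndF4q0 ndF6q3 pcF3 Cut.none Ext.none)

def k0_pm_033 : ∃ t, chk3 f_pm_033 t 1 1 1 = true :=
  ⟨(b (l 4) (l 4)), by decide +kernel⟩

theorem c_pm_033 : CertFX 0 67108864 0 1230186008 1046898278 26843546 false true false .pnn 0 3 3
    ndF4q0 ndF6q3 pcF3 Cut.none Ext.none :=
  certFX0 (fam := false) (s1 := true) (s2 := false) (a := 0) (b := 3) (c := 3) (cn := .pnn) (n1 := ndF4q0) (n2 := ndF6q3) (pc := pcF3) (cut := Cut.none) (xt := Ext.none) (P1 := 0) (W1 := 67108864) (P2 := 0) (W2 := 1230186008) (P3 := 1046898278) (W3 := 26843546)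
    rfl k0_pm_033

noncomputable def f_mm_001 : ℕ → ℕ → ℕ → ℕ → Bool := onCell 0 67108864 536870912 469762048 1046898278 26843546
    (rowFX 0 false false false .up 0 0 1 (qsf 0 67108864 536870912 469762048 0) ndF4q0 ndF6q1 pcF0 Cut.none Ext.none)

def k0_mm_001 : ∃ t, chk3 f_mm_001 t 1 1 1 = true :=
  ⟨(l 3), by decide +kernel⟩

theorem c_mm_001 : CertFX 0 67108864 536870912 469762048 1046898278 26843546 false false false .up 0 0 1
    ndF4q0 ndF6q1 pcF0 Cut.none Ext.none :=
  certFX0 (fam := false) (s1 := false) (s2 := false) (a := 0) (b := 0) (c := 1) (cn := .up) (n1 := ndF4q0) (n2 := ndF6q1) (pc := pcF0) (cut := Cut.none) (xt := Ext.none) (P1 := 0) (W1 := 67108864) (P2 := 536870912) (W2 := 469762048) (P3 := 1046898278) (W3 := 26843546)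
    rfl k0_mm_001

noncomputable def f_mm_011 : ℕ → ℕ → ℕ → ℕ → Bool := onCell 0 67108864 536870912 469762048 1046898278 26843546
    (rowFX 0 false false false .pnn 0 1 1 (qsf 0 67108864 536870912 469762048 1) ndF4q0 ndF6q1 pcF1 Cut.none Ext.none)

def k0_mm_011 : ∃ t, chk3 f_mm_011 t 1 1 1 = true :=
  ⟨(l 3), by decide +kernel⟩

theorem c_mm_011 : CertFX 0 67108864 536870912 469762048 1046898278 26843546 false false false .pnn 0 1 1
    ndF4q0 ndF6q1 pcF1 Cut.none Ext.none :=
  certFX0 (fam := false) (s1 := false) (s2 := false) (a := 0) (b := 1) (c := 1) (cn := .pnn) (n1 := ndF4q0) (n2 := ndF6q1) (pc := pcF1) (cut := Cut.none) (xt := Ext.none) (P1 := 0) (W1 := 67108864) (P2 := 536870912) (W2 := 469762048) (P3 := 1046898278) (W3 := 26843546)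
    rfl k0_mm_011

noncomputable def f_mm_012 : ℕ → ℕ → ℕ → ℕ → Bool := onCell 0 67108864 1073741824 536870912 1046898278 26843546
    (rowFX 0 false false false .pnp 0 1 2 (qsf 0 67108864 1073741824 536870912 1) ndF4q0 ndF6q2 pcF1 Cut.none Ext.none)

def k0_mm_012 : ∃ t, chk3 f_mm_012 t 1 1 1 = true :=
  ⟨(l 5), by decide +kernel⟩

theorem c_mm_012 : CertFX 0 67108864 1073741824 536870912 1046898278 26843546 false false false .pnp 0 1 2
    ndF4q0 ndF6q2 pcF1 Cut.none Ext.none :=
  certFX0 (fam := false) (s1 := false) (s2 := false) (a := 0) (b := 1) (c := 2) (cn := .pnp) (n1 := ndF4q0) (n2 := ndF6q2) (pc := pcF1) (cut := Cut.none) (xt := Ext.none) (P1 := 0) (W1 := 67108864) (P2 := 1073741824) (W2 := 536870912) (P3 := 1046898278) (W3 := 26843546)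
    rfl k0_mm_012

noncomputable def f_mm_022 : ℕ → ℕ → ℕ → ℕ → Bool := onCell 0 67108864 1073741824 536870912 1046898278 26843546
    (rowFX 0 false false false .pp 0 2 2 (qsf 0 67108864 1073741824 536870912 2) ndF4q0 ndF6q2 pcF2 Cut.none Ext.none)

def k0_mm_022 : ∃ t, chk3 f_mm_022 t 1 1 1 = true :=
  ⟨(l 5), by decide +kernel⟩

theorem c_mm_022 : CertFX 0 67108864 1073741824 536870912 1046898278 26843546 false false false .pp 0 2 2
    ndF4q0 ndF6q2 pcF2 Cut.none Ext.none :=
  certFX0 (fam := false) (s1 := false) (s2 := false) (a := 0) (b := 2) (c := 2) (cn := .pp) (n1 := ndF4q0) (n2 := ndF6q2) (pc := pcF2) (cut := Cut.none) (xt := Ext.none) (P1 := 0) (W1 := 67108864) (P2 := 1073741824) (W2 := 536870912) (P3 := 1046898278) (W3 := 26843546)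
    rfl k0_mm_022

noncomputable def f_mm_023 : ℕ → ℕ → ℕ → ℕ → Bool := onCell 0 67108864 0 1230186008 1046898278 26843546
    (rowFX 0 false false false .up 0 2 3 (qsf 0 67108864 0 1230186008 2) ndF4q0 ndF6q3 pcF2 Cut.none Ext.none)

def k0_mm_023 : ∃ t, chk3 f_mm_023 t 1 1 1 = true :=
  ⟨(l 5), by decide +kernel⟩

theorem c_mm_023 : CertFX 0 67108864 0 1230186008 1046898278 26843546 false false false .up 0 2 3
    ndF4q0 ndF6q3 pcF2 Cut.none Ext.none :=
  certFX0 (fam := false) (s1 := false) (s2 := false) (a := 0) (b := 2) (c := 3) (cn := .up) (n1 := ndF4q0) (n2 := ndF6q3) (pc := pcF2) (cut := Cut.none) (xt := Ext.none) (P1 := 0) (W1 := 67108864) (P2 := 0) (W2 := 1230186008) (P3 := 1046898278) (W3 := 26843546)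
    rfl k0_mm_023

noncomputable def f_mm_033 : ℕ → ℕ → ℕ → ℕ → Bool := onCell 0 67108864 0 1230186008 1046898278 26843546
    (rowFX 0 false false false .pnn 0 3 3 (qsf 0 67108864 0 1230186008 3) ndF4q0 ndF6q3 pcF3 Cut.none Ext.none)

def k0_mm_033 : ∃ t, chk3 f_mm_033 t 1 1 1 = true :=
  ⟨(l 5), by decide +kernel⟩

theorem c_mm_033 : CertFX 0 67108864 0 1230186008 1046898278 26843546 false false false .pnn 0 3 3
    ndF4q0 ndF6q3 pcF3 Cut.none Ext.none :=
  certFX0 (fam := false) (s1 := false) (s2 := false) (a := 0) (b := 3) (c := 3) (cn := .pnn) (n1 := ndF4q0) (n2 := ndF6q3) (pc := pcF3) (cut := Cut.none) (xt := Ext.none) (P1 := 0) (W1 := 67108864) (P2 := 0) (W2 := 1230186008) (P3 := 1046898278) (W3 := 26843546)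
    rfl k0_mm_033

end Pool.Agent.Strip051.G.IE1.Tab.C.FB46

namespace Pool.Agent.Strip051.G.IE1.Tab.C.FB47

open Pool.Agent.Strip051.PB Pool.Agent.Strip051.PB.T
open Pool.Agent.Strip051.G.IE1.Tab

noncomputable def f_pp_001 : ℕ → ℕ → ℕ → ℕ → Bool := onCell 0 67108864 0 536870912 1046898278 26843546
    (rowFX 1 false true true .up 0 0 1 (qsf 0 67108864 536870912 536870912 0) ndF4q0 ndF7q1 pcF0 Cut.none Ext.none)

def k0_pp_001 : ∃ t, chk3 f_pp_001 t 1 1 1 = true :=
  ⟨(l 3), by decide +kernel⟩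

theorem c_pp_001 : CertFX 0 67108864 536870912 536870912 1046898278 26843546 false true true .up 0 0 1
    ndF4q0 ndF7q1 pcF0 Cut.none Ext.none :=
  certFX1 (fam := false) (s1 := true) (s2 := true) (a := 0) (b := 0) (c := 1) (cn := .up) (n1 := ndF4q0) (n2 := ndF7q1) (pc := pcF0) (cut := Cut.none) (xt := Ext.none) (P1 := 0) (W1 := 67108864) (P2 := 536870912) (W2 := 536870912) (P3 := 1046898278) (W3 := 26843546)
    rfl (fun _ => rfl) k0_pp_001

noncomputable def cut_pp_011 : Cut := Cut.of [[⟨0, 0, 0, 67108864⟩, ⟨1, 1, 0, 67108864⟩, ⟨2, 1, 0, 67108864⟩]]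

noncomputable def f_pp_011 : ℕ → ℕ → ℕ → ℕ → Bool := onCell 0 67108864 536870912 536870912 1046898278 26843546
    (rowFX 1 false true true .pnn 0 1 1 (qsf 0 67108864 536870912 536870912 1) ndF4q0 ndF7q1 pcF1 cut_pp_011 Ext.none)

def k0_pp_011 : ∃ t, chk3 f_pp_011 t 1 1 1 = true :=
  ⟨(b (l 3) (a (b (l 3) (b (l 3) (b (l 3) (l 6)))) (l 3))), by decide +kernel⟩

theorem c_pp_011 : CertFX 0 67108864 536870912 536870912 1046898278 26843546 false true true .pnn 0 1 1
    ndF4q0 ndF7q1 pcF1 cut_pp_011 Ext.none :=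
  certFX1 (fam := false) (s1 := true) (s2 := true) (a := 0) (b := 1) (c := 1) (cn := .pnn) (n1 := ndF4q0) (n2 := ndF7q1) (pc := pcF1) (cut := cut_pp_011) (xt := Ext.none) (P1 := 0) (W1 := 67108864) (P2 := 536870912) (W2 := 536870912) (P3 := 1046898278) (W3 := 26843546)
    rfl (fun _ => rfl) k0_pp_011

noncomputable def cut_pp_012 : Cut := Cut.of [[⟨0, 0, 0, 67108864⟩, ⟨1, 1, 0, 67108864⟩, ⟨2, 1, 0, 67108864⟩]]

noncomputable def f_pp_012 : ℕ → ℕ → ℕ → ℕ → Bool := onCell 0 67108864 536870912 536870912 1046898278 26843546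
    (rowFX 1 false true true .pnp 0 1 2 (qsf 0 67108864 1073741824 536870912 1) ndF4q0 ndF7q2 pcF1 cut_pp_012 Ext.none)

def k0_pp_012 : ∃ t, chk3 f_pp_012 t 1 1 1 = true :=
  ⟨(b (l 1) (a (b (l 1) (b (l 1) (b (l 3) (l 6)))) (l 3))), by decide +kernel⟩

theorem c_pp_012 : CertFX 0 67108864 1073741824 536870912 1046898278 26843546 false true true .pnp 0 1 2
    ndF4q0 ndF7q2 pcF1 cut_pp_012 Ext.none :=
  certFX1 (fam := false) (s1 := true) (s2 := true) (a := 0) (b := 1) (c := 2) (cn := .pnp) (n1 := ndF4q0) (n2 := ndF7q2) (pc := pcF1) (cut := cut_pp_012) (xt := Ext.none) (P1 := 0) (W1 := 67108864) (P2 := 1073741824) (W2 := 536870912) (P3 := 1046898278) (W3 := 26843546)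
    rfl (fun _ => rfl) k0_pp_012

noncomputable def cut_pp_022 : Cut := Cut.of [[⟨0, 0, 0, 67108864⟩, ⟨1, 1, 0, 67108864⟩, ⟨2, 1, 0, 67108864⟩]]

noncomputable def f_pp_022 : ℕ → ℕ → ℕ → ℕ → Bool := onCell 0 67108864 1073741824 536870912 1046898278 26843546
    (rowFX 1 false true true .pp 0 2 2 (qsf 0 67108864 1073741824 536870912 2) ndF4q0 ndF7q2 pcF2 cut_pp_022 Ext.none)

def k0_pp_022 : ∃ t, chk3 f_pp_022 t 4 8 1 = true :=
  ⟨(b (l 6) (b (b (l 6) (b (l 6) (a (l 6) (a (l 6) (a (l 6) (c (c (l 3) (c (l 16564456) (l 16612112))) (c (l 16575120) (c (l 16608608) (l 16633000))))))))) (b (b (a (l 6) (a (a (l 6) (b (l 6) (c (c (l 16366144) (l 16498128)) (c (l 16601696) (l 16641040))))) (c (c (l 16343704) (c (l 16510984) (l 16574360))) (c (c (a (l 16617896) (l 16597264)) (l 16531064)) (c (a (l 16614936) (l 16596816)) (l 16632192)))))) (a (a (l 6) (a (l 6) (c (c (c (l 16398192) (l 16450768)) (c (l 16502536) (l 16554336))) (c (l 16613864) (l 16651768))))) (c (c (a (c (l 16375704) (a (l 16428664)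 (l 16422136))) (l 16267928)) (c (a (l 16395888) (l 16520712)) (a (l 16563584) (l 16585992)))) (c (a (c (l 16589072) (l 16632864)) (c (l 16597224) (l 16590656))) (l 16629944))))) (c (c (a (b (c (l 16347736) (l 16373152)) (c (l 16370776) (l 16382848))) (c (a (b (l 16372944) (l 16385720)) (l 16349088)) (a (b (l 16440560) (l 16447328)) (b (l 16461256) (l 16469808))))) (a (c (l 16546632) (l 16525608)) (c (a (b (l 16486200) (l 16509008)) (b (l 16542224) (l 16540056))) (a (b (l 16560080) (l 16560120)) (b (l 16580648) (l 16575128)))))) (a (c (a (c (l 16634320) (l 16594600)) (c (l 16595568) (l 16633520))) (a (c (a (l 16583328) (c (l 16654136) (l 16633168))) (a (c (l 16583464) (l 16548984)) (c (l 16597776) (l 16611360)))) (c (l 16637944) (l 16578432)))) (c (c (a (l 16606584) (b (l 16591080) (l 16590216))) (l 16607928)) (c (l 16614160) (l 16633944)))))))), by decide +kernel⟩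

def k1_pp_022 : ∃ t, chk3 f_pp_022 t 5 8 1 = true :=
  ⟨(a (b (l 6) (b (b (a (l 6) (a (l 6) (a (l 6) (l 3)))) (c (c (l 3) (c (l 3) (l 16624152))) (b (c (l 16568456) (c (l 16605056) (l 16587312))) (c (l 16543768) (c (l 16552088) (b (l 16570616) (l 16560272))))))) (c (c (b (c (l 3) (a (b (l 3) (l 16496128)) (l 3))) (c (b (l 16429240) (l 16402664)) (a (l 16415120) (l 16517920)))) (b (c (b (l 16533656) (l 16535096)) (l 16533960)) (c (l 16466432) (b (l 16545688) (l 16505664))))) (b (c (c (b (l 16566592) (l 16516272)) (b (l 16483800) (a (l 16554992) (l 16522448)))) (b (c (a (l 16512224) (l 16553744)) (a (b (l 16604800) (l 16599312)) (l 16538040))) (c (a (l 16567208) (l 16543296)) (a (l 16593856) (l 16567280))))) (c (c (b (l 16501664) (l 16446168)) (b (a (l 16548840) (l 16516760)) (a (l 16544944) (l 16514288)))) (b (c (a (l 16563200) (l 16538800)) (a (l 16592576) (l 16561216))) (a (l 16576528) (c (l 16533616) (l 16559904))))))))) (b (l 3) (c (b (l 3) (b (l 3) (c (c (l 3) (l 16543688)) (l 16490072))))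 (b (b (l 3) (c (l 3) (l 16526064))) (b (c (b (l 16537640) (l 16493240)) (b (l 16551976) (l 16528184))) (c (c (l 16485488) (l 16486712)) (b (c (l 16505144) (l 16470776)) (c (l 16465408) (a (l 16532520) (l 16504368)))))))))), by decide +kernel⟩

def k2_pp_022 : ∃ t, chk3 f_pp_022 t 3 8 1 = true :=
  ⟨(a (b (l 3) (c (l 3) (b (l 3) (b (c (l 3) (b (l 3) (l 16511440))) (c (b (l 3) (l 16459920)) (b (l 16493400) (l 16477080))))))) (l 3)), by decide +kernel⟩

def k3_pp_022 : ∃ t, chk3 f_pp_022 t 2 18 2 = true :=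
  ⟨(b (a (c (a (b (c (l 16296160) (l 16511528)) (l 16475576)) (b (a (c (b (l 16389560) (l 16389864)) (a (l 16449048) (l 16446272))) (c (b (l 16394560) (l 16394600)) (l 16305160))) (a (l 16316040) (c (l 16394704) (l 16457792))))) (a (b (c (l 16557336) (l 16563728)) (l 16533120)) (b (a (l 16507816) (c (l 16524760) (l 16525728))) (a (l 16502000) (l 16531552))))) (c (a (b (c (l 16339288) (a (l 16427328) (l 16522872))) (c (l 16332408) (a (l 16484168) (l 16492328)))) (b (l 16447616) (l 16467632))) (b (a (c (a (b (l 16544704) (l 16529832)) (l 16498568)) (a (l 16541768) (l 16461216))) (l 16470240)) (a (c (a (l 16514200) (l 16488424)) (l 16428416)) (l 16381848))))) (a (a (c (b (l 16492176) (l 16545000)) (b (l 16462696) (c (l 16585208) (l 16429224)))) (a (c (b (l 16421024) (l 16457816)) (l 16472600)) (c (l 16437592) (l 16477696)))) (b (a (a (c (l 16447968) (l 16517704)) (c (c (l 16452160) (l 16472032)) (l 16476016))) (c (l 16412800) (b (l 16421944) (l 16425736)))) (c (a (a (l 16465480) (l 16410376))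 (c (l 16459952) (l 16450856))) (a (l 16518352) (b (l 16435320) (l 16454760))))))), by decide +kernel⟩

def k4_pp_022 : ∃ t, chk3 f_pp_022 t 2 18 3 = true :=
  ⟨(c (a (b (a (a (a (b (l 16555776) (l 16556952)) (b (l 16589696) (l 16551272))) (b (c (l 16591448) (l 16610024)) (c (l 16594528) (l 16623408)))) (b (a (l 16606664) (l 16581328)) (l 16524000))) (a (a (b (c (l 16563368) (l 16493056)) (c (l 16517208) (l 16485872))) (a (b (l 16488008) (l 16418936)) (b (l 16591800) (l 16497208)))) (b (l 16531360) (l 16513448)))) (b (b (a (c (a (l 16536864) (l 16382824)) (a (l 16537184) (l 16498936))) (a (c (l 16421600) (l 16383560)) (l 16441064))) (a (c (l 16446352) (l 16509408)) (c (a (l 16436016) (l 16409232)) (b (l 16441656) (l 16431784))))) (b (a (l 16510304) (a (l 16448296) (l 16354608))) (l 16442528)))) (a (b (a (b (a (c (a (c (l 16596416) (l 16583056)) (c (l 16620272) (l 16600608))) (a (c (l 16546304) (l 16510792)) (c (l 16563080) (l 16573536)))) (c (l 16540472) (b (l 16618976) (l 16599104))))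 (a (c (a (l 16541464) (c (l 16578880) (l 16535400))) (a (l 16445992) (l 16528256))) (c (a (l 16572160) (l 16592208)) (l 16546688)))) (b (l 16558216) (a (l 16578704) (l 16603128)))) (a (a (c (b (a (l 16490712) (l 16476608)) (l 16427752)) (a (l 16323144) (l 16449960))) (b (c (l 16528552) (l 16479728)) (c (l 16450488) (l 16467664)))) (b (a (l 16512008) (l 16613000)) (a (l 16491144) (l 16584336))))) (b (a (b (c (a (l 16555088) (l 16525584)) (l 16567760)) (l 16547328)) (b (b (a (l 16511496) (c (l 16472760) (l 16498688))) (a (l 16498448) (l 16474072))) (b (c (l 16462672) (l 16488840)) (l 16378672)))) (b (l 16460608) (l 16512744))))), by decide +kernel⟩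

def k5_pp_022 : ∃ t, chk3 f_pp_022 t 2 19 1 = true :=
  ⟨(b (c (c (a (b (a (l 16567936) (a (l 16485808) (l 16481400))) (a (l 16542392) (l 16534104))) (b (a (l 16511312) (b (l 16431240) (l 16501760))) (l 16478080))) (a (a (b (b (l 16403856) (a (l 16490288) (l 16568848))) (a (l 16469496) (l 16529224))) (b (a (l 16570432) (l 16583640)) (l 16437344))) (b (l 16443696) (l 16518168)))) (c (a (a (b (a (c (l 16467112) (l 16432616)) (c (b (l 16536136) (l 16509416)) (a (l 16434624) (l 16429952)))) (a (l 16364344) (c (l 16481136) (l 16390992)))) (b (a (b (l 16532112) (l 16493272)) (l 16545296)) (a (l 16390912) (l 16481688)))) (b (l 16488808) (l 16551720))) (a (a (b (a (c (l 16393040) (l 16292864)) (c (l 16354320) (l 16409280))) (a (c (l 16345232) (l 16283152)) (l 16365144))) (a (b (b (l 16489600) (l 16436088)) (l 16399968)) (b (l 16468048) (l 16455088)))) (b (l 16517560) (l 16462648))))) (a (c (a (b (c (l 16493776) (a (l 16382680) (l 16443720))) (c (l 16405000) (a (l 16353080) (c (l 16455832) (l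 16420112))))) (c (b (l 16561952) (l 16510488)) (b (a (l 16492504) (l 16465336)) (a (l 16425160) (l 16413896))))) (a (c (a (l 16225840) (b (c (l 16390976) (l 16371440)) (l 16287336))) (a (c (l 16177984) (l 16047312)) (l 16137824))) (c (b (a (l 16306096) (l 16427568)) (a (l 16273184) (l 16382168))) (b (a (l 16362144) (l 16390632)) (l 16280048))))) (c (b (c (l 16514584) (l 16503360)) (c (l 16443904) (l 16419608))) (c (b (l 16505208) (l 16377312)) (a (b (l 16445848) (l 16356832)) (l 16465264)))))), by decide +kernel⟩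

def k6_pp_022 : ∃ t, chk3 f_pp_022 t 6 9 1 = true :=
  ⟨(b (b (c (c (b (l 3) (l 16440456)) (b (a (l 16438456) (l 3)) (l 16409392))) (a (b (c (l 16433632) (b (l 16461328) (l 16455600))) (c (l 16395056) (b (l 16440888) (l 16433056)))) (b (c (l 16436368) (l 16451408)) (c (l 16416232) (l 16430848))))) (c (b (c (l 16423240) (l 16324056)) (c (l 16405416) (a (b (l 16397016) (l 16402488)) (l 16379528)))) (b (c (b (l 16413120) (l 16347776)) (a (b (l 16411320) (l 16445256)) (l 16433400))) (c (a (b (l 16411232) (l 16423352)) (b (l 16399824) (l 16405944))) (a (b (l 16461112) (l 16485600)) (b (l 16431992) (l 16439168))))))) (b (c (b (c (b (a (l 16430792) (l 16398992)) (a (l 16445056) (l 16418864))) (b (a (l 16392056) (l 16388896)) (a (l 16434856) (l 16404840)))) (c (a (l 16443520) (l 16473936)) (a (l 16505048) (b (l 16439904) (l 16482728))))) (b (c (b (a (l 16446352) (l 16414216)) (a (l 16475984) (l 16431144))) (a (l 16523272) (b (l 16412080) (l 16482472)))) (c (a (l 16536592) (b (l 16474088) (l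 16523488))) (l 16569704)))) (c (b (c (a (l 16572776) (l 16460920)) (b (l 16506408) (l 16584232))) (l 16519400)) (b (l 16554208) (l 16499696))))), by decide +kernel⟩

def k7_pp_022 : ∃ t, chk3 f_pp_022 t 7 9 1 = true :=
  ⟨(b (b (c (l 3) (b (l 3) (c (l 16439056) (l 16452040)))) (c (c (b (l 3) (l 16401664)) (b (l 16411488) (l 16398944))) (b (c (l 16423824) (l 16436472)) (c (l 16410968) (b (l 16426456) (l 16434896)))))) (b (c (b (c (b (l 16397728) (l 16413208)) (b (l 16395080) (l 16410872))) (c (l 16398456) (a (l 16458168) (l 16464248)))) (b (c (b (l 16406960) (l 16431024)) (b (a (l 16433080) (l 16422536)) (a (l 16448176) (l 16442104)))) (c (a (b (l 16457456) (l 16497328)) (l 16480928)) (a (b (l 16486552) (l 16533872)) (l 16416336))))) (c (b (c (a (l 16484864) (l 16516944)) (b (a (l 16510520) (l 16511752)) (l 16546864))) (c (b (l 16570216) (l 16535328)) (a (l 16591736) (l 16563656)))) (b (c (b (a (l 16539976) (l 16529480)) (l 16571064)) (a (l 16599728) (b (l 16552344) (l 16589336)))) (c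 (b (l 16600384) (l 16559544)) (l 16547504)))))), by decide +kernel⟩

def k8_pp_022 : ∃ t, chk3 f_pp_022 t 1 20 2 = true :=
  ⟨(b (a (a (a (b (a (l 16230592) (c (l 16428400) (l 16316664))) (c (l 16238128) (l 16192680))) (b (c (a (l 16472336) (l 16459264)) (a (c (l 16425584) (l 16362936)) (l 16302384))) (c (a (b (l 16436264) (l 16396304)) (l 16407312)) (a (l 16300048) (l 16216576))))) (b (c (l 16344832) (l 16339352)) (a (c (l 16316344) (a (l 16261088) (l 16326024))) (l 16338488)))) (b (a (l 16450904) (c (b (l 16560760) (l 16525656)) (l 16534984))) (a (l 16401024) (l 16477352)))) (a (b (a (a (l 15964024) (c (b (a (l 16334904) (l 16337472)) (l 16250928)) (l 16080280))) (a (c (b (l 16281200) (l 16161272)) (b (l 16224528) (l 16211216))) (c (l 16278096) (b (l 16329368) (l 16303160))))) (a (a (b (l 15931776) (b (l 15938744) (a (l 15850640) (l 15820824)))) (b (c (l 16139960) (l 16023168)) (b (c (l 16091192) (l 15980824)) (c (a (l 16028552) (l 16044544)) (a (l 15920904) (l 15915184)))))) (b (a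 (c (b (l 16225944) (l 16169336)) (l 16120216)) (c (b (l 16255800) (l 16225728)) (b (l 16277784) (l 16232832)))) (b (a (l 15988200) (b (l 16185832) (l 16142632))) (a (c (l 16032880) (l 15968656)) (l 16089296)))))) (b (a (l 16345752) (l 16371344)) (b (a (a (c (l 16300344) (l 16269200)) (l 16365376)) (l 16407720)) (b (a (b (a (l 16240248) (l 16341184)) (c (l 16238024) (a (l 16266216) (l 16338504)))) (l 16364736)) (b (b (b (a (a (l 16233880) (l 16314016)) (l 16375928)) (b (a (a (l 16217280) (l 16306984)) (l 16371616)) (a (a (l 16199656) (a (l 16243048) (l 16260280))) (c (l 16378792) (l 16370344))))) (a (a (l 16190952) (l 16295320)) (l 16365976))) (a (a (l 16186584) (l 16289304)) (l 16359208)))))))), by decide +kernel⟩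

def k9_pp_022 : ∃ t, chk3 f_pp_022 t 1 21 2 = true :=
  ⟨(a (a (a (b (l 15846096) (l 15798656)) (c (a (l 15949656) (l 15959328)) (a (l 15855560) (l 15843176)))) (a (c (l 15933280) (l 15881664)) (a (l 15952016) (l 15837424)))) (a (b (c (l 15982576) (a (l 16135952) (l 16225960))) (c (l 16038448) (l 15972328))) (c (l 16217704) (l 16208584)))), by decide +kernel⟩

def k10_pp_022 : ∃ t, chk3 f_pp_022 t 1 11 2 = true :=
  ⟨(a (b (a (a (b (l 15737976) (l 15659968)) (c (l 15572840) (a (l 15718280) (l 15689024)))) (a (b (l 15780744) (l 15566088)) (b (l 15816904) (l 15690136)))) (a (a (l 15488928) (c (l 15550712) (l 15487912))) (c (l 15497432) (l 15493928)))) (b (a (c (l 15834192) (l 15729472)) (l 15937232)) (a (l 15591656) (l 15695408)))), by decide +kernel⟩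

def k11_pp_022 : ∃ t, chk3 f_pp_022 t 1 10 3 = true :=
  ⟨(b (b (a (a (c (a (b (l 16002288) (l 15922360)) (b (a (l 16273824) (l 16323656)) (l 16205408))) (a (a (b (l 15959984) (l 15898680)) (l 15938680)) (l 16035520))) (b (a (c (l 16312816) (l 16239312)) (l 16334968)) (a (c (b (l 16338576) (l 16300584)) (l 16239424)) (c (l 16370224) (l 16248504))))) (b (a (l 16442584) (l 16496232)) (a (l 16372072) (l 16445456)))) (a (b (a (a (c (a (l 15961664) (l 16022064)) (a (l 15693104) (l 15913864))) (c (l 16081736) (l 16010952))) (c (a (l 16043496) (b (l 16336544) (l 16277168))) (b (l 16105672) (l 16163752)))) (b (a (a (c (a (l 15852240) (l 15909608)) (a (l 15629328) (l 15804976))) (c (l 15964928) (l 15897520))) (b (l 16035576) (l 16088472))) (a (b (a (c (l 15643472) (a (l 15657368) (l 15742936))) (c (l 15887312) (l 15826800))) (a (c (a (l 15747544) (a (l 15791232) (l 15805864))) (a (c (l 15685288) (l 15517160)) (l 15702472))) (c (l 15773808) (l 15781032)))) (b (l 15982544) (a (l 15893792) (l 16025208))))))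 (b (a (b (l 16343976) (a (l 16225880) (l 16367288))) (l 16407992)) (b (a (a (b (l 16244248) (l 16204560)) (b (l 16352304) (l 16326736))) (l 16377296)) (b (a (b (a (l 16222920) (l 16302304)) (a (l 16178536) (l 16251024))) (b (l 16355112) (l 16232624))) (a (b (b (b (l 16198584) (l 16171144)) (l 16155424)) (l 16151632)) (b (b (b (l 16328952) (b (l 16280992) (a (l 16276104) (l 16347960)))) (l 16313912)) (l 16307592)))))))) (a (a (a (c (a (l 15709264) (b (l 15762928) (l 15731032))) (a (c (l 15658296) (l 15623664)) (l 15671904))) (c (l 15697928) (l 15740352))) (c (l 15790512) (l 15867720))) (a (b (l 15940368) (a (l 15971928) (l 16036688))) (b (a (l 16194992) (l 16259184)) (l 16095968))))), by decide +kernel⟩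

def k12_pp_022 : ∃ t, chk3 f_pp_022 t 1 11 3 = true :=
  ⟨(a (b (a (a (c (a (l 15628504) (l 15651544)) (a (c (l 15595504) (l 15573096)) (l 15597320))) (c (l 15657472) (l 15638344))) (b (l 15771760) (l 15672440))) (a (a (c (l 15438416) (a (l 15399288) (l 15404528))) (c (l 15443056) (l 15432920))) (c (l 15504152) (l 15483752)))) (b (a (b (l 15740392) (l 15758400)) (l 15891144)) (a (l 15528552) (l 15642016)))), by decide +kernel⟩

def k13_pp_022 : ∃ t, chk3 f_pp_022 t 1 3 1 = true :=
  ⟨(b (a (b (b (c (a (a (l 15246424) (c (l 15315368) (l 15248144))) (c (l 15268416) (l 15261160))) (a (a (c (l 15190144) (l 15152160)) (l 14995232)) (l 15252728))) (a (c (a (l 15023040) (c (l 15098848) (l 15027816))) (a (c (l 14960968) (l 14919128)) (l 14957936))) (c (c (l 15079552) (l 15068960)) (l 15055528)))) (c (a (b (a (l 14870840) (l 14906344)) (a (l 14855728) (l 14945488))) (c (l 15021440) (l 15009760))) (a (c (a (b (l 14804512) (l 14788952)) (l 14858920)) (b (l 14801432) (l 14788264))) (l 14994696))))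 (b (c (b (a (l 15370304) (c (l 15515840) (l 15498360))) (a (l 15241528) (l 15445536))) (b (a (l 15341840) (l 15444632)) (l 15131312))) (c (c (a (l 15225168) (l 15457520)) (l 15330144)) (l 15289320)))) (a (c (b (a (c (l 14925520) (l 14871064)) (l 15024352)) (a (l 14893672) (l 15024352))) (b (a (c (l 14828616) (l 14788264)) (l 14994696)) (a (l 14806968) (l 14994696)))) (b (c (a (l 15228936) (l 15445536)) (l 15289320)) (c (l 15184968) (l 15289320))))), by decide +kernel⟩

theorem s14_pp_022 : ∃ t, chk3 f_pp_022 t 1 5 3 = true := ex3_b k11_pp_022 k12_pp_022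

theorem s15_pp_022 : ∃ t, chk3 f_pp_022 t 1 10 2 = true := ex3_b k8_pp_022 k9_pp_022

theorem s16_pp_022 : ∃ t, chk3 f_pp_022 t 1 5 2 = true := ex3_b s15_pp_022 k10_pp_022

theorem s17_pp_022 : ∃ t, chk3 f_pp_022 t 1 5 1 = true := ex3_c s16_pp_022 s14_pp_022

theorem s18_pp_022 : ∃ t, chk3 f_pp_022 t 3 9 1 = true := ex3_a k6_pp_022 k7_pp_022

theorem s19_pp_022 : ∃ t, chk3 f_pp_022 t 2 18 1 = true := ex3_c k3_pp_022 k4_pp_022

theorem s20_pp_022 : ∃ t, chk3 f_pp_022 t 2 9 1 = true := ex3_b s19_pp_022 k5_pp_022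

theorem s21_pp_022 : ∃ t, chk3 f_pp_022 t 1 9 1 = true := ex3_a s20_pp_022 s18_pp_022

theorem s22_pp_022 : ∃ t, chk3 f_pp_022 t 2 8 1 = true := ex3_a k0_pp_022 k1_pp_022

theorem s23_pp_022 : ∃ t, chk3 f_pp_022 t 1 8 1 = true := ex3_a s22_pp_022 k2_pp_022

theorem s24_pp_022 : ∃ t, chk3 f_pp_022 t 1 4 1 = true := ex3_b s23_pp_022 s21_pp_022

theorem s25_pp_022 : ∃ t, chk3 f_pp_022 t 1 2 1 = true := ex3_b s24_pp_022 s17_pp_022

theorem s26_pp_022 : ∃ t, chk3 f_pp_022 t 1 1 1 = true := ex3_b s25_pp_022 k13_pp_022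

theorem c_pp_022 : CertFX 0 67108864 1073741824 536870912 1046898278 26843546 false true true .pp 0 2 2
    ndF4q0 ndF7q2 pcF2 cut_pp_022 Ext.none :=
  certFX1 (fam := false) (s1 := true) (s2 := true) (a := 0) (b := 2) (c := 2) (cn := .pp) (n1 := ndF4q0) (n2 := ndF7q2) (pc := pcF2) (cut := cut_pp_022) (xt := Ext.none) (P1 := 0) (W1 := 67108864) (P2 := 1073741824) (W2 := 536870912) (P3 := 1046898278) (W3 := 26843546)
    rfl (fun _ => rfl) s26_pp_022

noncomputable def f_pp_023 : ℕ → ℕ → ℕ → ℕ → Bool := onCell 0 67108864 0 1230186008 1046898278 26843546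
    (rowFX 0 false true true .up 0 2 3 (qsf 0 67108864 0 1230186008 2) ndF4q0 ndF7q3 pcF2 Cut.none Ext.none)

def k0_pp_023 : ∃ t, chk3 f_pp_023 t 1 1 1 = true :=
  ⟨(b (l 2) (b (l 2) (b (l 2) (b (l 2) (a (b (l 2) (c (l 14970120) (l 14895832))) (c (l 15331768) (l 15289320))))))), by decide +kernel⟩

theorem c_pp_023 : CertFX 0 67108864 0 1230186008 1046898278 26843546 false true true .up 0 2 3
    ndF4q0 ndF7q3 pcF2 Cut.none Ext.none :=
  certFX0 (fam := false) (s1 := true) (s2 := true) (a := 0) (b := 2) (c := 3) (cn := .up) (n1 := ndF4q0) (n2 := ndF7q3) (pc := pcF2) (cut := Cut.none) (xt := Ext.none) (P1 := 0) (W1 := 67108864) (P2 := 0) (W2 := 1230186008) (P3 := 1046898278) (W3 := 26843546)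
    rfl k0_pp_023

noncomputable def f_pp_033 : ℕ → ℕ → ℕ → ℕ → Bool := onCell 0 67108864 0 1230186008 1046898278 26843546
    (rowFX 0 false true true .pnn 0 3 3 (qsf 0 67108864 0 1230186008 3) ndF4q0 ndF7q3 pcF3 Cut.none Ext.none)

def k0_pp_033 : ∃ t, chk3 f_pp_033 t 1 1 1 = true :=
  ⟨(b (b (l 4) (b (l 4) (b (a (b (l 4) (a (b (l 4) (c (l 1063235121223) (a (l 14764352) (l 14838688)))) (c (l 152702579303) (l 14994648)))) (a (b (l 4) (c (l 15228928) (l 15195480))) (c (l 171493883943) (l 15383736)))) (a (c (a (b (a (l 14855424) (l 14945416)) (l 14893656)) (b (l 15024352) (l 15024344))) (c (a (b (l 14828168) (l 14828592)) (l 15011808)) (a (b (l 14787600) (l 14788232)) (l 14983232)))) (c (b (l 15331768) (l 15331768)) (b (l 15289312) (l 15289304))))))) (b (b (b (a (c (a (b (l 14872680) (l 14893632)) (l 15024328)) (a (c (l 14702752) (l 14725304)) (l 14994656))) (c (l 15331760) (l 15289296))) (a (c (a (l 14893632) (l 15024328)) (a (c (l 14828568) (l 14788208)) (l 14994664))) (c (l 15331760)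 (l 15289304)))) (a (b (c (a (l 14767824) (l 15024352)) (a (c (l 14828600) (l 14725328)) (l 14994688))) (c (a (l 14893672) (l 15024352)) (a (c (l 14828616) (l 14788264)) (l 14994696)))) (b (c (l 15331768) (l 15289320)) (c (l 15331768) (l 15289320))))) (b (c (a (b (a (l 14893672) (l 15024352)) (a (l 14893672) (l 15024352))) (b (l 15331768) (l 15331768))) (a (b (c (l 14811904) (l 14881168)) (a (c (l 14828616) (l 14788264)) (l 14994696))) (b (l 15289320) (l 15289320)))) (c (a (b (a (l 14893672) (l 15024352)) (a (l 14893672) (l 15024352))) (b (l 15331768) (l 15331768))) (a (b (b (l 14790976) (l 14895832)) (a (l 14806968) (l 14994696))) (b (l 15289320) (l 15289320))))))), by decide +kernel⟩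

theorem c_pp_033 : CertFX 0 67108864 0 1230186008 1046898278 26843546 false true true .pnn 0 3 3
    ndF4q0 ndF7q3 pcF3 Cut.none Ext.none :=
  certFX0 (fam := false) (s1 := true) (s2 := true) (a := 0) (b := 3) (c := 3) (cn := .pnn) (n1 := ndF4q0) (n2 := ndF7q3) (pc := pcF3) (cut := Cut.none) (xt := Ext.none) (P1 := 0) (W1 := 67108864) (P2 := 0) (W2 := 1230186008) (P3 := 1046898278) (W3 := 26843546)
    rfl k0_pp_033

noncomputable def f_pm_001 : ℕ → ℕ → ℕ → ℕ → Bool := onCell 0 67108864 536870912 536870912 1046898278 26843546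
    (rowFX 0 false true false .up 0 0 1 (qsf 0 67108864 536870912 536870912 0) ndF4q0 ndF7q1 pcF0 Cut.none Ext.none)

def k0_pm_001 : ∃ t, chk3 f_pm_001 t 1 1 1 = true :=
  ⟨(l 4), by decide +kernel⟩

theorem c_pm_001 : CertFX 0 67108864 536870912 536870912 1046898278 26843546 false true false .up 0 0 1
    ndF4q0 ndF7q1 pcF0 Cut.none Ext.none :=
  certFX0 (fam := false) (s1 := true) (s2 := false) (a := 0) (b := 0) (c := 1) (cn := .up) (n1 := ndF4q0) (n2 := ndF7q1) (pc := pcF0) (cut := Cut.none) (xt := Ext.none) (P1 := 0) (W1 := 67108864) (P2 := 536870912) (W2 := 536870912) (P3 := 1046898278) (W3 := 26843546)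
    rfl k0_pm_001

noncomputable def f_pm_011 : ℕ → ℕ → ℕ → ℕ → Bool := onCell 0 67108864 536870912 536870912 1046898278 26843546
    (rowFX 0 false true false .pnn 0 1 1 (qsf 0 67108864 536870912 536870912 1) ndF4q0 ndF7q1 pcF1 Cut.none Ext.none)

def k0_pm_011 : ∃ t, chk3 f_pm_011 t 1 1 1 = true :=
  ⟨(l 4), by decide +kernel⟩

theorem c_pm_011 : CertFX 0 67108864 536870912 536870912 1046898278 26843546 false true false .pnn 0 1 1
    ndF4q0 ndF7q1 pcF1 Cut.none Ext.none :=
  certFX0 (fam := false) (s1 := true) (s2 := false) (a := 0) (b := 1) (c := 1) (cn := .pnn) (n1 := ndF4q0) (n2 := ndF7q1) (pc := pcF1) (cut := Cut.none) (xt := Ext.none) (P1 := 0) (W1 := 67108864) (P2 := 536870912) (W2 := 536870912) (P3 := 1046898278) (W3 := 26843546)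
    rfl k0_pm_011

noncomputable def f_pm_012 : ℕ → ℕ → ℕ → ℕ → Bool := onCell 0 67108864 1073741824 536870912 1046898278 26843546
    (rowFX 0 false true false .pnp 0 1 2 (qsf 0 67108864 1073741824 536870912 1) ndF4q0 ndF7q2 pcF1 Cut.none Ext.none)

def k0_pm_012 : ∃ t, chk3 f_pm_012 t 1 1 1 = true :=
  ⟨(l 4), by decide +kernel⟩

theorem c_pm_012 : CertFX 0 67108864 1073741824 536870912 1046898278 26843546 false true false .pnp 0 1 2
    ndF4q0 ndF7q2 pcF1 Cut.none Ext.none :=
  certFX0 (fam := false) (s1 := true) (s2 := false) (a := 0) (b := 1) (c := 2) (cn := .pnp) (n1 := ndF4q0) (n2 := ndF7q2) (pc := pcF1) (cut := Cut.none) (xt := Ext.none) (P1 := 0) (W1 := 67108864) (P2 := 1073741824) (W2 := 536870912) (P3 := 1046898278) (W3 := 26843546)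
    rfl k0_pm_012

noncomputable def f_pm_022 : ℕ → ℕ → ℕ → ℕ → Bool := onCell 0 67108864 1073741824 536870912 1046898278 26843546
    (rowFX 0 false true false .pp 0 2 2 (qsf 0 67108864 1073741824 536870912 2) ndF4q0 ndF7q2 pcF2 Cut.none Ext.none)

def k0_pm_022 : ∃ t, chk3 f_pm_022 t 1 1 1 = true :=
  ⟨(l 4), by decide +kernel⟩

theorem c_pm_022 : CertFX 0 67108864 1073741824 536870912 1046898278 26843546 false true false .pp 0 2 2
    ndF4q0 ndF7q2 pcF2 Cut.none Ext.none :=
  certFX0 (fam := false) (s1 := true) (s2 := false) (a := 0) (b := 2) (c := 2) (cn := .pp) (n1 := ndF4q0) (n2 := ndF7q2) (pc := pcF2) (cut := Cut.none) (xt := Ext.none) (P1 := 0) (W1 := 67108864) (P2 := 1073741824) (W2 := 536870912) (P3 := 1046898278) (W3 := 26843546)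
    rfl k0_pm_022

noncomputable def f_pm_023 : ℕ → ℕ → ℕ → ℕ → Bool := onCell 0 67108864 0 1230186008 1046898278 26843546
    (rowFX 0 false true false .up 0 2 3 (qsf 0 67108864 0 1230186008 2) ndF4q0 ndF7q3 pcF2 Cut.none Ext.none)

def k0_pm_023 : ∃ t, chk3 f_pm_023 t 1 1 1 = true :=
  ⟨(l 4), by decide +kernel⟩

theorem c_pm_023 : CertFX 0 67108864 0 1230186008 1046898278 26843546 false true false .up 0 2 3
    ndF4q0 ndF7q3 pcF2 Cut.none Ext.none :=
  certFX0 (fam := false) (s1 := true) (s2 := false) (a := 0) (b := 2) (c := 3) (cn := .up) (n1 := ndF4q0) (n2 := ndF7q3) (pc := pcF2) (cut := Cut.none) (xt := Ext.none) (P1 := 0) (W1 := 67108864) (P2 := 0) (W2 := 1230186008) (P3 := 1046898278) (W3 := 26843546)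
    rfl k0_pm_023

noncomputable def f_pm_033 : ℕ → ℕ → ℕ → ℕ → Bool := onCell 0 67108864 0 1230186008 1046898278 26843546
    (rowFX 0 false true false .pnn 0 3 3 (qsf 0 67108864 0 1230186008 3) ndF4q0 ndF7q3 pcF3 Cut.none Ext.none)

def k0_pm_033 : ∃ t, chk3 f_pm_033 t 1 1 1 = true :=
  ⟨(l 4), by decide +kernel⟩

theorem c_pm_033 : CertFX 0 67108864 0 1230186008 1046898278 26843546 false true false .pnn 0 3 3
    ndF4q0 ndF7q3 pcF3 Cut.none Ext.none :=
  certFX0 (fam := false) (s1 := true) (s2 := false) (a := 0) (b := 3) (c := 3) (cn := .pnn) (n1 := ndF4q0) (n2 := ndF7q3) (pc := pcF3) (cut := Cut.none) (xt := Ext.none) (P1 := 0) (W1 := 67108864) (P2 := 0) (W2 := 1230186008) (P3 := 1046898278) (W3 := 26843546)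
    rfl k0_pm_033

noncomputable def f_mm_001 : ℕ → ℕ → ℕ → ℕ → Bool := onCell 0 67108864 536870912 536870912 1046898278 26843546
    (rowFX 0 false false false .up 0 0 1 (qsf 0 67108864 536870912 536870912 0) ndF4q0 ndF7q1 pcF0 Cut.none Ext.none)

def k0_mm_001 : ∃ t, chk3 f_mm_001 t 1 1 1 = true :=
  ⟨(l 5), by decide +kernel⟩

theorem c_mm_001 : CertFX 0 67108864 536870912 536870912 1046898278 26843546 false false false .up 0 0 1
    ndF4q0 ndF7q1 pcF0 Cut.none Ext.none :=
  certFX0 (fam := false) (s1 := false) (s2 := false) (a := 0) (b := 0) (c := 1) (cn := .up) (n1 := ndF4q0) (n2 := ndF7q1) (pc := pcF0) (cut := Cut.none) (xt := Ext.none) (P1 := 0) (W1 := 67108864) (P2 := 536870912) (W2 := 536870912) (P3 := 1046898278) (W3 := 26843546)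
    rfl k0_mm_001

noncomputable def f_mm_011 : ℕ → ℕ → ℕ → ℕ → Bool := onCell 0 67108864 536870912 536870912 1046898278 26843546
    (rowFX 0 false false false .pnn 0 1 1 (qsf 0 67108864 536870912 536870912 1) ndF4q0 ndF7q1 pcF1 Cut.none Ext.none)

def k0_mm_011 : ∃ t, chk3 f_mm_011 t 1 1 1 = true :=
  ⟨(l 5), by decide +kernel⟩

theorem c_mm_011 : CertFX 0 67108864 536870912 536870912 1046898278 26843546 false false false .pnn 0 1 1
    ndF4q0 ndF7q1 pcF1 Cut.none Ext.none :=
  certFX0 (fam := false) (s1 := false) (s2 := false) (a := 0) (b := 1) (c := 1) (cn := .pnn) (n1 := ndF4q0) (n2 := ndF7q1) (pc := pcF1) (cut := Cut.none) (xt := Ext.none) (P1 := 0) (W1 := 67108864) (P2 := 536870912) (W2 := 536870912) (P3 := 1046898278) (W3 := 26843546)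
    rfl k0_mm_011

noncomputable def f_mm_012 : ℕ → ℕ → ℕ → ℕ → Bool := onCell 0 67108864 1073741824 536870912 1046898278 26843546
    (rowFX 0 false false false .pnp 0 1 2 (qsf 0 67108864 1073741824 536870912 1) ndF4q0 ndF7q2 pcF1 Cut.none Ext.none)

def k0_mm_012 : ∃ t, chk3 f_mm_012 t 1 1 1 = true :=
  ⟨(l 5), by decide +kernel⟩

theorem c_mm_012 : CertFX 0 67108864 1073741824 536870912 1046898278 26843546 false false false .pnp 0 1 2
    ndF4q0 ndF7q2 pcF1 Cut.none Ext.none :=
  certFX0 (fam := false) (s1 := false) (s2 := false) (a := 0) (b := 1) (c := 2) (cn := .pnp) (n1 := ndF4q0) (n2 := ndF7q2) (pc := pcF1) (cut := Cut.none) (xt := Ext.none) (P1 := 0) (W1 := 67108864) (P2 := 1073741824) (W2 := 536870912) (P3 := 1046898278) (W3 := 26843546)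
    rfl k0_mm_012

noncomputable def f_mm_022 : ℕ → ℕ → ℕ → ℕ → Bool := onCell 0 67108864 1073741824 536870912 1046898278 26843546
    (rowFX 0 false false false .pp 0 2 2 (qsf 0 67108864 1073741824 536870912 2) ndF4q0 ndF7q2 pcF2 Cut.none Ext.none)

def k0_mm_022 : ∃ t, chk3 f_mm_022 t 1 1 1 = true :=
  ⟨(l 5), by decide +kernel⟩

theorem c_mm_022 : CertFX 0 67108864 1073741824 536870912 1046898278 26843546 false false false .pp 0 2 2
    ndF4q0 ndF7q2 pcF2 Cut.none Ext.none :=
  certFX0 (fam := false) (s1 := false) (s2 := false) (a := 0) (b := 2) (c := 2) (cn := .pp) (n1 := ndF4q0) (n2 := ndF7q2) (pc := pcF2) (cut := Cut.none) (xt := Ext.none) (P1 := 0) (W1 := 67108864) (P2 := 1073741824) (W2 := 536870912) (P3 := 1046898278) (W3 := 26843546)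
    rfl k0_mm_022

noncomputable def f_mm_023 : ℕ → ℕ → ℕ → ℕ → Bool := onCell 0 67108864 0 1230186008 1046898278 26843546
    (rowFX 0 false false false .up 0 2 3 (qsf 0 67108864 0 1230186008 2) ndF4q0 ndF7q3 pcF2 Cut.none Ext.none)

def k0_mm_023 : ∃ t, chk3 f_mm_023 t 1 1 1 = true :=
  ⟨(l 5), by decide +kernel⟩

theorem c_mm_023 : CertFX 0 67108864 0 1230186008 1046898278 26843546 false false false .up 0 2 3
    ndF4q0 ndF7q3 pcF2 Cut.none Ext.none :=
  certFX0 (fam := false) (s1 := false) (s2 := false) (a := 0) (b := 2) (c := 3) (cn := .up) (n1 := ndF4q0) (n2 := ndF7q3) (pc := pcF2) (cut := Cut.none) (xt := Ext.none) (P1 := 0) (W1 := 67108864) (P2 := 0) (W2 := 1230186008) (P3 := 1046898278) (W3 := 26843546)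
    rfl k0_mm_023

noncomputable def f_mm_033 : ℕ → ℕ → ℕ → ℕ → Bool := onCell 0 67108864 0 1230186008 1046898278 26843546
    (rowFX 0 false false false .pnn 0 3 3 (qsf 0 67108864 0 1230186008 3) ndF4q0 ndF7q3 pcF3 Cut.none Ext.none)

def k0_mm_033 : ∃ t, chk3 f_mm_033 t 1 1 1 = true :=
  ⟨(l 5), by decide +kernel⟩

theorem c_mm_033 : CertFX 0 67108864 0 1230186008 1046898278 26843546 false false false .pnn 0 3 3
    ndF4q0 ndF7q3 pcF3 Cut.none Ext.none :=
  certFX0 (fam := false) (s1 := false) (s2 := false) (a := 0) (b := 3) (c := 3) (cn := .pnn) (n1 := ndF4q0) (n2 := ndF7q3) (pc := pcF3) (cut := Cut.none) (xt := Ext.none) (P1 := 0) (W1 := 67108864) (P2 := 0) (W2 := 1230186008) (P3 := 1046898278) (W3 := 26843546)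
    rfl k0_mm_033

end Pool.Agent.Strip051.G.IE1.Tab.C.FB47

namespace Pool.Agent.Strip051.G.IE1.Tab.C.FB50

open Pool.Agent.Strip051.PB Pool.Agent.Strip051.PB.T
open Pool.Agent.Strip051.G.IE1.Tab

noncomputable def f_pp_001 : ℕ → ℕ → ℕ → ℕ → Bool := onCell 0 536870912 536870912 536870912 1046898278 26843546
    (rowFX 0 false true true .up 0 0 1 (qsf 0 536870912 536870912 536870912 0) ndF5q0 ndF0q1 pcF0 Cut.none Ext.none)

def k0_pp_001 : ∃ t, chk3 f_pp_001 t 1 1 1 = true :=
  ⟨(b (l 3) (b (l 3) (a (l 2) (b (l 3) (a (l 2) (b (l 3) (a (l 2) (b (c (c (l 15905712) (l 163374577831)) (c (l 170353976727) (a (l 15891408) (l 181628251495)))) (a (l 2) (c (l 15802904) (c (l 15795120) (l 15792576)))))))))))), by decide +kernel⟩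

theorem c_pp_001 : CertFX 0 536870912 536870912 536870912 1046898278 26843546 false true true .up 0 0 1
    ndF5q0 ndF0q1 pcF0 Cut.none Ext.none :=
  certFX0 (fam := false) (s1 := true) (s2 := true) (a := 0) (b := 0) (c := 1) (cn := .up) (n1 := ndF5q0) (n2 := ndF0q1) (pc := pcF0) (cut := Cut.none) (xt := Ext.none) (P1 := 0) (W1 := 536870912) (P2 := 536870912) (W2 := 536870912) (P3 := 1046898278) (W3 := 26843546)
    rfl k0_pp_001

noncomputable def f_pp_011 : ℕ → ℕ → ℕ → ℕ → Bool := onCell 0 536870912 536870912 536870912 1046898278 26843546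
    (rowFX 0 false true true .pnn 0 1 1 (qsf 0 536870912 536870912 536870912 1) ndF5q0 ndF0q1 pcF1 Cut.none Ext.none)

def k0_pp_011 : ∃ t, chk3 f_pp_011 t 1 2 1 = true :=
  ⟨(l 3), by decide +kernel⟩

def k1_pp_011 : ∃ t, chk3 f_pp_011 t 2 6 1 = true :=
  ⟨(l 3), by decide +kernel⟩

def k2_pp_011 : ∃ t, chk3 f_pp_011 t 4 14 1 = true :=
  ⟨(l 3), by decide +kernel⟩

def k3_pp_011 : ∃ t, chk3 f_pp_011 t 4 60 1 = true :=
  ⟨(l 3), by decide +kernel⟩

def k4_pp_011 : ∃ t, chk3 f_pp_011 t 4 122 1 = true :=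
  ⟨(a (b (l 3) (b (l 3) (a (a (c (a (c (l 15145440) (a (l 14694848) (c (l 14857776) (l 131697233895)))) (c (a (a (l 15160744) (c (l 15252624) (l 15074192))) (l 15137648)) (a (c (l 128476478295) (l 14685896)) (l 107538469895)))) (a (c (a (l 14243784) (c (l 133307503335) (l 137065195975))) (a (c (a (l 13859240) (l 13938176)) (a (l 151022197239) (l 13711680))) (l 147265221303))) (c (a (l 135455005511) (l 14481456)) (l 14139496)))) (c (a (c (a (l 15097312) (c (l 15138576) (l 15007832))) (c (l 110759696615) (l 14767760))) (c (l 15096056) (l 14919864))) (c (l 14666752) (l 14436656)))) (a (l 3) (l 3))))) (a (l 3) (l 3))), by decide +kernel⟩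

def k5_pp_011 : ∃ t, chk3 f_pp_011 t 4 123 1 = true :=
  ⟨(a (a (a (c (a (a (b (l 15021496) (c (l 15477584) (l 14909472))) (c (l 15323936) (a (l 14861808) (c (l 14990872) (l 14766512))))) (c (a (a (l 15307488) (c (c (l 15444496) (l 15348208)) (l 15194440))) (b (l 15202120) (l 15307864))) (a (c (a (l 14994456) (l 14979848)) (l 14764312)) (c (l 14952624) (l 14762032))))) (a (c (a (c (l 14438904) (l 14172576)) (a (c (l 14505632) (l 14252680)) (c (l 14527824) (l 14282600)))) (a (c (a (l 13859816) (l 13938312)) (a (c (l 13648056) (l 13506784)) (l 13673992))) (c (l 14035040) (l 13813656)))) (c (a (c (l 14544184) (l 14346136)) (l 14516936)) (l 14132816)))) (c (a (c (a (l 15195536) (c (l 15231232) (l 15085808))) (a (c (l 14938992) (l 14794776)) (l 14902176))) (c (b (l 15133104) (l 15195720)) (l 14962224))) (c (a (l 14629304) (l 14751512)) (l 14435488)))) (c (a (c (l 15222376) (l 15067240)) (a (l 15305680) (l 15267056))) (a (l 14796752) (l 14963448)))) (a (c (a (l 15324248) (b (l 15394768) (l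 15392144))) (a (l 15098152) (l 15210656))) (a (c (a (b (a (l 15438992) (b (l 15462568) (l 15454624))) (c (l 15479424) (l 15400040))) (b (l 15482504) (c (l 15500576) (l 15428064)))) (a (b (l 15357104) (l 15280520)) (l 285243310903))) (c (c (b (l 15561024) (l 15540840)) (l 15489544)) (l 15397256))))), by decide +kernel⟩

def k6_pp_011 : ∃ t, chk3 f_pp_011 t 32 31 2 = true :=
  ⟨(b (a (c (b (b (c (a (l 15914192) (l 15749592)) (l 15521784)) (c (l 16153352) (l 15800912))) (b (c (l 16589584) (l 16173008)) (a (l 16722128) (l 16649248)))) (b (a (l 15204064) (c (l 15298352) (l 15005272))) (c (b (l 15765440) (l 16191584)) (a (l 15637872) (a (l 15478336) (l 15403088)))))) (a (c (c (b (b (l 15643264) (l 15850968)) (a (l 16334720) (l 16193592))) (b (a (l 15517104) (b (l 15391512) (l 15559928))) (a (l 16003696) (l 15890488)))) (a (c (b (l 15255888) (l 15671392)) (l 15133680)) (b (l 15085304) (l 15423664)))) (c (b (c (c (l 15679960) (l 15565904)) (l 15392176)) (b (l 15772416) (l 15996696))) (b (c (l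 15159160) (l 14932200)) (c (l 15468440) (l 15199344)))))) (a (b (c (l 16580024) (a (b (l 16661304) (l 16656032)) (c (l 16620256) (a (l 16373296) (l 16115880))))) (c (l 16608840) (a (l 16611504) (c (l 16571704) (l 16527680))))) (c (b (a (c (l 16605336) (a (l 16612920) (l 16541648))) (c (l 16540296) (l 16264608))) (a (l 16509512) (l 16568272))) (a (b (c (a (l 16359616) (l 16160704)) (l 15843048)) (c (l 16543024) (l 16589696))) (b (c (l 15939368) (l 15613336)) (c (l 16611840) (l 16256296))))))), by decide +kernel⟩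

def k7_pp_011 : ∃ t, chk3 f_pp_011 t 32 31 3 = true :=
  ⟨(b (a (c (a (c (l 14876416) (l 14464792)) (c (a (l 14859456) (l 14843960)) (a (l 14494776) (l 14504360)))) (a (c (a (l 14003120) (l 14071992)) (a (c (l 13671032) (l 13449560)) (l 13673840))) (c (l 14162336) (l 13836928)))) (c (a (c (b (l 14700264) (l 14970200)) (l 14541832)) (b (l 14629264) (l 14825464))) (b (l 14170128) (l 14274784)))) (a (c (b (a (c (l 16186024) (l 15399432)) (c (a (l 15780936) (l 15608680)) (a (l 15183992) (l 15095968)))) (a (b (c (l 16612264) (l 16571136)) (l 16581000)) (c (b (l 16531800) (l 16562208)) (a (b (l 16016816) (l 16568336)) (l 16049384))))) (a (b (c (a (l 14615992) (l 14589016)) (a (l 13731512) (l 13873296))) (c (b (a (l 15789296) (l 15375656)) (a (l 16578856) (l 16532160))) (a (b (l 14174136) (c (l 16261512) (c (l 15114632) (l 14351384)))) (b (l 14262024) (l 14861664))))) (b (l 14325328) (c (b (l 15128584) (l 15602936)) (l 14463800))))) (c (b (c (a (l 15429480) (l 15297632)) (l 15008456)) (a (c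 (l 16238928) (l 15709472)) (l 15676656))) (b (l 14492888) (b (l 14797216) (l 15108608)))))), by decide +kernel⟩

def k8_pp_011 : ∃ t, chk3 f_pp_011 t 33 31 1 = true :=
  ⟨(c (b (c (a (b (a (l 15409840) (c (l 15425448) (l 15258688))) (a (b (l 15627336) (l 15807088)) (c (l 15693080) (l 15497128)))) (b (c (l 15365840) (l 15245296)) (l 15495448))) (c (a (a (b (l 15114600) (l 15368016)) (l 15203368)) (l 15198120)) (b (l 14979752) (l 15144480)))) (a (c (b (a (l 16143872) (c (l 16062208) (l 15831816))) (a (l 16578024) (c (l 16539416) (l 16284920)))) (b (c (l 15669048) (l 15436512)) (c (l 16131840) (l 15852984)))) (b (c (a (l 15806984) (l 15707176)) (l 15415040)) (c (l 16089024) (l 15696440))))) (b (c (a (b (l 14719304) (l 14870904)) (l 14869616)) (a (l 14424344) (l 14577552))) (b (c (a (l 15104376) (l 15099024)) (l 14712528)) (c (l 15373096) (l 14959744))))), by decide +kernel⟩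

def k9_pp_011 : ∃ t, chk3 f_pp_011 t 17 31 1 = true :=
  ⟨(b (c (a (c (b (a (l 15300328) (l 15314312)) (l 15412128)) (b (a (l 15114096) (l 15156840)) (a (l 15216352) (l 15228896)))) (c (b (a (l 15336824) (l 15359632)) (a (l 15393896) (l 15395000))) (b (l 15211680) (l 15253168)))) (a (c (l 14968480) (l 14748168)) (l 14997568))) (c (a (b (c (l 15558352) (l 15358408)) (c (a (l 15834712) (l 15691600)) (l 15507584))) (c (a (l 15624680) (b (l 15455472) (l 15553920))) (b (l 15312960) (l 15414960)))) (a (b (c (l 15118552) (l 14882704)) (c (l 15275512) (l 15042240))) (b (l 15077496) (c (l 15253824) (l 15097408)))))), by decide +kernel⟩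

def k10_pp_011 : ∃ t, chk3 f_pp_011 t 9 31 1 = true :=
  ⟨(a (b (c (a (c (l 15561712) (l 15284408)) (b (l 15446952) (l 15380928))) (a (l 15108840) (l 15202672))) (c (a (c (l 15468904) (l 15350776)) (l 15410624)) (a (b (l 15149752) (l 15209208)) (l 15234384)))) (b (c (a (b (a (c (l 15461976) (l 15391464)) (c (b (l 15480648) (l 15465104)) (l 15409176))) (c (l 15444088) (l 15382168))) (b (c (b (l 15513808) (l 15487624)) (l 15446800)) (c (a (l 15446064) (l 15457904)) (a (l 15392184) (l 15410016))))) (a (b (a (l 15268648) (l 15295864)) (l 15272640)) (b (l 15348176) (l 15310096)))) (c (b (a (l 15407424) (l 15402200)) (l 15418256)) (b (a (l 15269048) (l 15283280)) (l 15283168))))), by decide +kernel⟩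

def k11_pp_011 : ∃ t, chk3 f_pp_011 t 5 7 1 = true :=
  ⟨(b (l 3) (b (b (l 3) (b (a (l 3) (l 3)) (a (c (a (c (b (a (l 160689902119) (l 131699008535)) (a (l 15602096) (l 15668224))) (a (l 15563384) (l 15640040))) (c (a (a (l 188070592679) (l 177333238231)) (a (l 166059014615) (l 163911472375))) (l 196123381783))) (a (a (l 15488584) (l 15580120)) (l 15669416))) (a (c (c (c (l 149952795127) (l 15917896)) (l 15906216)) (l 15882848)) (c (l 115056611879) (l 15973408)))))) (a (b (c (a (b (c (a (l 15558280) (l 15622496)) (l 15554200)) (c (l 15527344) (l 15495928))) (c (b (c (l 15725208) (l 15719768)) (l 15656576)) (b (l 15704360) (l 15644528)))) (a (b (l 15483176) (l 15431672)) (c (l 15649048) (l 15619144)))) (a (a (c (b (l 15426960) (l 15404104)) (b (l 15329840) (l 15292808))) (c (l 15473160) (l 15395120))) (c (b (l 15593816) (l 15553216)) (b (l 15550776) (l 15496088))))) (b (c (a (c (b (c (l 15861416) (l 15862472)) (l 15795576)) (b (l 15856768) (l 15797072))) (c (b (l 15938008) (l 15872120))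 (l 15908128))) (a (l 15808408) (l 15898992))) (c (a (c (l 15726016) (l 15714472)) (l 15802784)) (a (l 15619440) (l 15795560))))))), by decide +kernel⟩

def k12_pp_011 : ∃ t, chk3 f_pp_011 t 3 3 1 = true :=
  ⟨(b (l 3) (b (l 3) (a (b (a (b (l 3) (b (l 3) (c (l 15994200) (l 15973544)))) (l 3)) (c (a (b (a (c (l 15905712) (l 15908248)) (l 15908056)) (a (l 15802904) (l 15802904))) (b (c (l 15905712) (l 15908248)) (l 15802904))) (a (b (l 15899120) (a (l 15795696) (l 15795696))) (b (l 15899120) (c (l 15795120) (l 15792576)))))) (b (l 3) (c (a (b (c (l 15905712) (l 15908248)) (a (l 15802904) (l 15802904))) (b (c (l 15905712) (l 162837706919)) (c (l 15803536) (l 15797936)))) (a (b (a (l 15899120) (l 15899120)) (a (l 15795696) (c (l 15795120) (l 15792576)))) (b (c (l 168743363991) (a (l 15891408) (l 586831572327))) (c (b (l 15820656) (l 15766296)) (a (l 15792576) (l 15792576)))))))))), by decide +kernel⟩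

theorem s13_pp_011 : ∃ t, chk3 f_pp_011 t 32 31 1 = true := ex3_c k6_pp_011 k7_pp_011

theorem s14_pp_011 : ∃ t, chk3 f_pp_011 t 16 31 1 = true := ex3_a s13_pp_011 k8_pp_011

theorem s15_pp_011 : ∃ t, chk3 f_pp_011 t 8 31 1 = true := ex3_a s14_pp_011 k9_pp_011

theorem s16_pp_011 : ∃ t, chk3 f_pp_011 t 4 31 1 = true := ex3_a s15_pp_011 k10_pp_011

theorem s17_pp_011 : ∃ t, chk3 f_pp_011 t 4 61 1 = true := ex3_b k4_pp_011 k5_pp_011

theorem s18_pp_011 : ∃ t, chk3 f_pp_011 t 4 30 1 = true := ex3_b k3_pp_011 s17_pp_011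

theorem s19_pp_011 : ∃ t, chk3 f_pp_011 t 4 15 1 = true := ex3_b s18_pp_011 s16_pp_011

theorem s20_pp_011 : ∃ t, chk3 f_pp_011 t 4 7 1 = true := ex3_b k2_pp_011 s19_pp_011

theorem s21_pp_011 : ∃ t, chk3 f_pp_011 t 2 7 1 = true := ex3_a s20_pp_011 k11_pp_011

theorem s22_pp_011 : ∃ t, chk3 f_pp_011 t 2 3 1 = true := ex3_b k1_pp_011 s21_pp_011

theorem s23_pp_011 : ∃ t, chk3 f_pp_011 t 1 3 1 = true := ex3_a s22_pp_011 k12_pp_011

theorem s24_pp_011 : ∃ t, chk3 f_pp_011 t 1 1 1 = true := ex3_b k0_pp_011 s23_pp_011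

theorem c_pp_011 : CertFX 0 536870912 536870912 536870912 1046898278 26843546 false true true .pnn 0 1 1
    ndF5q0 ndF0q1 pcF1 Cut.none Ext.none :=
  certFX0 (fam := false) (s1 := true) (s2 := true) (a := 0) (b := 1) (c := 1) (cn := .pnn) (n1 := ndF5q0) (n2 := ndF0q1) (pc := pcF1) (cut := Cut.none) (xt := Ext.none) (P1 := 0) (W1 := 536870912) (P2 := 536870912) (W2 := 536870912) (P3 := 1046898278) (W3 := 26843546)
    rfl s24_pp_011

noncomputable def f_pp_012 : ℕ → ℕ → ℕ → ℕ → Bool := onCell 536870912 536870912 0 536870912 1046898278 26843546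
    (rowFX 2 false true true .pnp 0 1 2 (qsf 0 536870912 0 536870912 1) ndF5q0 ndF0q2 pcF1 Cut.none Ext.none)

def k0_pp_012 : ∃ t, chk3 f_pp_012 t 2 1 1 = true :=
  ⟨(b (b (a (l 2) (c (l 16777216) (b (l 16777216) (l 16777216)))) (a (b (l 2) (b (l 2) (l 16777216))) (b (l 16777216) (c (l 16777216) (l 16777216))))) (b (b (a (c (l 16777216) (l 16777216)) (c (l 16777216) (l 16777216))) (a (b (c (l 16729216) (l 16727968)) (l 16590024)) (b (c (l 16729216) (l 16727968)) (c (l 16592424) (l 16587624))))) (b (a (b (c (l 16438056) (l 16429248)) (c (l 16253288) (l 16239680))) (b (c (l 16438056) (l 16429248)) (c (l 16253288) (l 16239680)))) (a (c (a (b (c (l 16045240) (l 16044168)) (c (l 15849384) (l 15846848))) (b (a (l 15982608) (l 16045520)) (a (l 15850352) (l 15850352)))) (c (a (b (l 16010296) (b (l 15892544) (l 15791016))) (b (l 16031272) (l 15803624))) (a (b (a (l 16021768) (l 16021768)) (a (l 15842032) (l 15842032))) (b (l 15937880) (l 15779120))))) (a (c (b (c (l 16045240) (l 16044168)) (c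 (l 15849384) (l 15846848))) (b (a (l 16026520) (l 16026520)) (c (l 15845568) (l 15842032)))) (c (b (b (l 16088264) (l 15991624)) (l 15850352)) (b (l 16026520) (b (l 15886904) (l 15791176))))))))), by decide +kernel⟩

def k1_pp_012 : ∃ t, chk3 f_pp_012 t 3 2 1 = true :=
  ⟨(a (b (a (b (l 16775104) (l 16774776)) (b (a (l 16763880) (c (l 16692344) (l 16690136))) (a (l 16762072) (c (l 16734088) (l 16732968))))) (b (a (l 16774440) (a (l 16760144) (a (l 16756208) (a (l 16775624) (l 16743592))))) (a (b (l 16774184) (l 16773992)) (c (a (l 16758576) (l 16758752)) (a (l 16758088) (l 16758272)))))) (b (a (b (a (l 16166896) (c (l 16082216) (l 16064168))) (a (b (l 16469472) (l 16547592)) (b (l 16257344) (l 16387896)))) (a (b (c (l 15712696) (l 15922736)) (c (b (l 16182192) (l 16369696)) (l 16276024))) (b (b (c (l 15756328) (l 15740176)) (c (l 15963416) (l 15925280))) (b (c (l 16140464) (l 16017584)) (c (a (l 16392648) (l 16430792)) (a (l 16402080) (l 16410152))))))) (a (b (b (a (l 16627392) (l 16526200))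 (a (l 16699376) (b (l 16608640) (l 16654464)))) (a (c (l 16707264) (l 16705456)) (c (l 16676192) (l 16673864)))) (b (b (a (c (l 16567920) (l 16566864)) (a (c (l 16631792) (l 16635528)) (b (l 16567096) (c (l 16659168) (l 16657480))))) (a (c (a (l 16681216) (l 16717176)) (l 16674424)) (c (a (l 16696848) (l 16643392)) (a (l 16695792) (l 16641160))))) (c (a (b (l 16717944) (l 16733344)) (b (a (l 16683920) (l 16634352)) (a (l 16668288) (l 16620376)))) (a (b (l 16717392) (l 16733328)) (b (l 16615280) (l 16600256)))))))), by decide +kernel⟩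

def k2_pp_012 : ∃ t, chk3 f_pp_012 t 6 3 1 = true :=
  ⟨(b (b (c (a (l 16773752) (a (l 16756520) (l 16716744))) (a (l 16773664) (a (l 16755976) (a (l 16744984) (l 16771624))))) (a (b (l 16641168) (l 16586312)) (a (b (l 16707800) (l 16568664)) (b (a (l 16697280) (c (l 16725624) (l 16723016))) (a (l 16556536) (l 16536248)))))) (b (a (b (l 16387824) (l 16137560)) (b (a (c (l 16415984) (l 16403616)) (a (c (l 16393584) (l 16374552)) (l 16396896))) (a (c (l 16216008) (l 16195192)) (c (l 16174888) (l 16075160))))) (a (b (c (a (l 16045512) (l 15907240)) (a (l 16026504) (b (l 16062328) (l 15965136)))) (c (a (l 15850280) (b (l 15862400) (l 15742240))) (a (l 15782832) (b (l 15853080) (l 15721800))))) (a (b (c (b (l 16024552) (l 15896152)) (b (l 15995064) (l 15866192))) (c (l 15538184) (b (l 15721304) (l 15559168)))) (b (a (c (l 15897120) (l 15842048)) (c (l 15815720) (l 15836040))) (c (a (l 15596800) (b (l 15658704) (l 15486784))) (a (l 15533672) (b (l 15588840) (l 15391312))))))))), by decide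 +kernel⟩

def k3_pp_012 : ∃ t, chk3 f_pp_012 t 7 6 1 = true :=
  ⟨(a (b (a (c (l 16622000) (b (l 16707984) (l 16731552))) (c (l 16691512) (l 16711984))) (b (a (c (l 16740056) (l 16739112)) (c (l 16750520) (l 16750400))) (a (l 16680784) (l 16698944)))) (b (a (c (b (l 16687920) (l 16678600)) (b (l 16708144) (l 16676944))) (c (b (a (l 16647024) (l 16601952)) (a (l 16620648) (l 16578664))) (b (a (l 16644800) (l 16598680)) (a (l 16617664) (l 16574728))))) (a (b (c (l 16648232) (l 16688744)) (c (l 16712840) (l 16711784))) (b (a (c (l 16637720) (l 16635152)) (c (b (l 16569792) (l 16605472)) (b (l 16565584) (l 16602200)))) (a (c (l 16727568) (l 16727376)) (c (l 16612384) (a (l 16675120) (l 16629272)))))))), by decide +kernel⟩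

def k4_pp_012 : ∃ t, chk3 f_pp_012 t 14 7 1 = true :=
  ⟨(b (b (a (c (l 16511120) (l 16495920)) (l 16622632)) (a (c (l 16284240) (l 16250312)) (l 16329520))) (a (b (c (l 15802552) (l 15886888)) (c (b (l 15728936) (l 15535408)) (b (l 15652912) (l 15425808)))) (b (c (b (l 16233640) (l 15978680)) (a (l 16051800) (l 16156144))) (c (b (a (l 15821168) (l 15895560)) (a (l 15589360) (l 15636336))) (b (l 15678992) (a (l 15452360) (c (l 15503152) (l 15419440)))))))), by decide +kernel⟩

def k5_pp_012 : ∃ t, chk3 f_pp_012 t 15 14 1 = true :=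
  ⟨(a (b (c (l 16596824) (l 16593360)) (b (l 16538352) (l 16516056))) (b (b (a (l 16693744) (l 16641688)) (a (l 16670664) (c (a (l 16715712) (l 16676288)) (l 16731304)))) (c (a (b (l 16644176) (l 16606936)) (b (c (l 16626328) (l 16699248)) (c (l 16684544) (l 16661608)))) (a (l 16621592) (b (l 16698368) (l 16652344)))))), by decide +kernel⟩

def k6_pp_012 : ∃ t, chk3 f_pp_012 t 30 15 1 = true :=
  ⟨(b (a (c (b (l 16414696) (l 16238504)) (l 16294984)) (c (b (a (l 16510680) (l 16532784)) (a (l 16367632) (l 16344672))) (b (l 16517480) (l 16386736)))) (c (a (b (c (l 16032480) (l 15982112)) (c (a (l 15751888) (l 15821352)) (l 15670960))) (b (a (b (l 16200256) (l 16067832)) (c (l 16278632) (l 16221200))) (a (c (l 15917752) (l 15774952)) (b (l 16037560) (l 15891360))))) (a (b (l 15896432) (c (l 15559688) (l 15451336))) (b (l 16072128) (c (b (l 15795544) (l 15544064)) (l 15331216)))))), by decide +kernel⟩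

def k7_pp_012 : ∃ t, chk3 f_pp_012 t 31 30 1 = true :=
  ⟨(c (a (b (b (l 16577160) (a (l 16532336) (l 16459520))) (c (a (l 16553968) (l 16595624)) (l 16450760))) (b (b (l 16650816) (a (l 16591520) (l 16666832))) (c (a (l 16644168) (l 16688040)) (a (l 16600952) (l 16644176))))) (a (b (l 16559688) (l 16549352)) (a (b (l 16511232) (l 16495064)) (c (b (l 16619296) (l 16608968)) (b (l 16555368) (l 16600680)))))), by decide +kernel⟩

def k8_pp_012 : ∃ t, chk3 f_pp_012 t 31 31 1 = true :=
  ⟨(c (a (b (c (a (l 16424016) (l 16584840)) (a (l 16364064) (l 16513272))) (c (a (l 16264888) (b (l 16530840) (a (l 16524552) (l 16602816)))) (a (l 16040960) (b (l 16338280) (l 16246264))))) (b (a (c (b (l 16643232) (l 16608280)) (l 16478904)) (b (c (l 16650816) (l 16622760)) (c (a (l 16618896) (l 16566928)) (a (l 16625216) (l 16599280))))) (c (b (a (l 16554184) (a (l 16545664) (l 16497344))) (a (a (l 16545088) (b (l 16548952) (l 16534440))) (a (l 16470536) (l 16586472)))) (b (a (a (l 16545216) (l 16597088))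 (a (c (l 16582712) (l 16597592)) (b (l 16558592) (l 16564312)))) (a (a (l 16566432) (b (l 16581880) (l 16516408))) (a (b (l 16537648) (l 16550712)) (l 16551800))))))) (a (b (c (l 16411288) (l 16370568)) (c (b (l 16069456) (l 15645112)) (b (l 15925584) (l 15516400)))) (b (c (a (c (l 16577536) (l 16569992)) (a (l 16596944) (l 16511744))) (a (l 16566880) (a (l 16579208) (l 16590184)))) (a (c (b (l 16479768) (c (a (l 16252608) (l 16530680)) (l 16171904))) (b (l 16383064) (l 15860784))) (c (b (a (c (l 16594384) (l 16582672)) (b (l 16599880) (c (l 16576136) (l 16587304)))) (a (b (l 16570440) (c (l 16558416) (l 16518112))) (b (c (l 16564448) (a (l 16568392) (l 16566664))) (a (l 16560376) (l 16570392))))) (b (c (a (l 16570104) (l 16584992)) (l 16570752)) (a (c (b (l 16478664) (l 16277768)) (l 16558320)) (c (b (a (l 16573896) (l 16570064)) (a (l 16539464) (l 16563944))) (b (l 16567464) (a (l 16564512) (c (l 16541504) (l 16541672)))))))))))), by decide +kernel⟩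

theorem s9_pp_012 : ∃ t, chk3 f_pp_012 t 31 15 1 = true := ex3_b k7_pp_012 k8_pp_012

theorem s10_pp_012 : ∃ t, chk3 f_pp_012 t 15 15 1 = true := ex3_a k6_pp_012 s9_pp_012

theorem s11_pp_012 : ∃ t, chk3 f_pp_012 t 15 7 1 = true := ex3_b k5_pp_012 s10_pp_012

theorem s12_pp_012 : ∃ t, chk3 f_pp_012 t 7 7 1 = true := ex3_a k4_pp_012 s11_pp_012

theorem s13_pp_012 : ∃ t, chk3 f_pp_012 t 7 3 1 = true := ex3_b k3_pp_012 s12_pp_012

theorem s14_pp_012 : ∃ t, chk3 f_pp_012 t 3 3 1 = true := ex3_a k2_pp_012 s13_pp_012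

theorem s15_pp_012 : ∃ t, chk3 f_pp_012 t 3 1 1 = true := ex3_b k1_pp_012 s14_pp_012

theorem s16_pp_012 : ∃ t, chk3 f_pp_012 t 1 1 1 = true := ex3_a k0_pp_012 s15_pp_012

theorem c_pp_012 : CertFX 0 536870912 0 536870912 1046898278 26843546 false true true .pnp 0 1 2
    ndF5q0 ndF0q2 pcF1 Cut.none Ext.none :=
  certFX2 (fam := false) (s1 := true) (s2 := true) (a := 0) (b := 1) (c := 2) (cn := .pnp) (n1 := ndF5q0) (n2 := ndF0q2) (pc := pcF1) (cut := Cut.none) (xt := Ext.none) (P1 := 0) (W1 := 536870912) (P2 := 0) (W2 := 536870912) (P3 := 1046898278) (W3 := 26843546)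
    rfl (fun _ => rfl) s16_pp_012

noncomputable def f_pp_022 : ℕ → ℕ → ℕ → ℕ → Bool := onCell 0 536870912 0 536870912 1046898278 26843546
    (rowFX 0 false true true .pp 0 2 2 (qsf 0 536870912 0 536870912 2) ndF5q0 ndF0q2 pcF2 Cut.none Ext.none)

def k0_pp_022 : ∃ t, chk3 f_pp_022 t 4 8 1 = true :=
  ⟨(a (a (a (c (a (c (b (l 16337600) (l 16290536)) (b (l 16289752) (a (l 16384472) (l 16416416)))) (c (a (b (l 16350360) (c (l 16372808) (l 16330992))) (b (a (l 16347808) (l 16329744)) (b (l 16292824) (a (l 16305832) (l 16336320))))) (a (b (l 16426944) (l 16346200)) (b (l 16303968) (c (l 16361744) (l 16327432)))))) (a (c (c (a (l 16391392) (l 16424216)) (a (l 16398712) (l 16438504))) (b (c (l 16253664) (l 16342088)) (c (a (l 16405240) (l 16507456)) (l 16274760)))) (c (b (a (l 16440120) (l 16351440)) (a (l 16380096) (l 16306208))) (a (l 16366920) (b (l 16322424) (l 16318976)))))) (c (c (a (b (c (l 16364152) (l 16369040)) (c (l 16359936) (l 16323016))) (b (l 16376792) (c (l 16418584) (l 16394744))))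 (c (a (b (l 16361992) (l 16378968)) (l 16355088)) (l 16321088))) (c (b (l 16305248) (l 16328776)) (l 16302136)))) (c (a (c (b (l 16325608) (l 16290160)) (b (l 16285464) (c (l 16339240) (l 16325920)))) (c (b (a (l 16264208) (l 16230904)) (c (a (l 16340960) (l 16312440)) (l 16316424))) (b (l 16233224) (l 16307296)))) (c (b (l 16251568) (a (l 16318824) (l 16303360))) (b (l 16247160) (l 16310296))))) (a (c (a (a (b (l 16198712) (c (l 16290712) (l 16287800))) (b (l 16075704) (c (l 16255760) (l 16255832)))) (b (l 16019544) (l 16015152))) (a (b (l 16149720) (a (l 16281336) (l 16248528))) (b (l 16013088) (l 16113360)))) (a (c (b (l 15816080) (l 15926256)) (l 15866392)) (c (l 15700424) (l 15628840))))), by decide +kernel⟩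

def k1_pp_022 : ∃ t, chk3 f_pp_022 t 32 9 2 = true :=
  ⟨(a (b (b (c (l 16281408) (c (l 16358072) (l 16290840))) (c (l 16377608) (l 16303240))) (b (c (l 16309824) (c (l 16362200) (l 16273344))) (a (l 16373904) (a (b (l 16379128) (l 16350544)) (a (b (l 16270272) (c (l 16321768) (l 16306512))) (c (b (l 16317736) (l 16314488)) (b (c (l 16305856) (l 16305592)) (l 16303328)))))))) (b (a (b (b (c (a (l 16399232) (l 16303664)) (l 16366368)) (c (a (l 16384536) (a (c (l 16341992) (l 16340472)) (c (b (l 16318152) (l 16311792)) (l 16323816)))) (a (l 16389096) (l 16356400)))) (a (c (l 16310064) (l 16272200)) (c (a (b (c (l 16321656) (l 16319976)) (c (l 16308456) (l 16285696))) (c (b (l 16285432) (l 16304992)) (l 16314064))) (b (l 16321608) (l 16334160))))) (b (c (b (l 16313512) (b (l 16295784) (l 16319072))) (b (l 16361584) (c (l 16363840) (l 16371512)))) (c (l 16319400) (l 16367672)))) (a (a (b (a (c (b (l 16331368) (l 16313504)) (b (l 16328552) (c (l 16304704) (l 16314160)))) (c (b (a (l 16311416)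 (l 16304768)) (l 16305672)) (b (l 16317624) (l 16313808)))) (c (l 16310960) (l 16314424))) (c (c (l 16310208) (l 16313808)) (l 16336848))) (c (c (l 16337288) (l 16354224)) (c (l 16371616) (l 16379408)))))), by decide +kernel⟩

def k2_pp_022 : ∃ t, chk3 f_pp_022 t 32 9 3 = true :=
  ⟨(a (b (c (a (l 16310376) (c (a (l 16389352) (l 16388304)) (b (l 16438152) (l 16438976)))) (a (c (l 16336440) (a (l 16438216) (l 16490752))) (c (l 16376776) (l 16450984)))) (a (c (l 16359120) (c (l 16354568) (l 16309648))) (c (a (b (l 16387800) (l 16311464)) (b (l 16341048) (c (b (l 16325080) (l 16313456)) (b (l 16338296) (l 16326624))))) (b (c (l 16390064) (l 16379784)) (a (l 16335312) (c (l 16306576) (l 16313280))))))) (b (a (b (c (b (l 16399976) (a (l 16410168) (l 16303720))) (l 16328928)) (c (a (l 16376720) (c (a (l 16358928) (l 16356272)) (l 16344504))) (a (l 16355640) (l 16299792)))) (b (c (b (l 16345920) (l 16350176)) (l 16319024)) (c (l 16351992) (l 16322584)))) (b (c (a (a (c (b (l 16346912) (l 16335624))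 (b (l 16348232) (l 16336856))) (l 16343784)) (l 16354624)) (a (a (l 16258072) (l 16313808)) (l 16325088))) (c (l 16284312) (l 16324856))))), by decide +kernel⟩

def k3_pp_022 : ∃ t, chk3 f_pp_022 t 33 9 1 = true :=
  ⟨(c (b (c (a (a (b (l 16365560) (l 16354288)) (b (c (l 16427768) (l 16426120)) (c (c (l 16440768) (l 16425440)) (c (l 16424976) (l 16439472))))) (b (l 16396016) (c (b (a (l 16448416) (l 16470808)) (l 16435256)) (l 16449048)))) (a (b (c (l 16380400) (l 16382896)) (c (a (l 16408304) (l 16421664)) (l 16395128))) (b (l 16389816) (l 16412384)))) (c (a (c (a (l 16394824) (l 16408960)) (a (l 16411800) (l 16428400))) (c (a (l 16440552) (l 16489224)) (l 16461776))) (c (a (a (l 16414992) (l 16429704)) (l 16436856)) (l 16407616)))) (b (c (b (l 16356344) (a (l 16363168) (l 16379056))) (b (l 16341800) (l 16358096))) (c (c (l 16387328) (l 16374856)) (l 16368520)))), by decide +kernel⟩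

def k4_pp_022 : ∃ t, chk3 f_pp_022 t 17 9 1 = true :=
  ⟨(c (b (a (b (c (l 16399032) (l 16359944)) (c (a (b (l 16452312) (l 16447256)) (l 16408920)) (a (c (l 16422928) (l 16404152)) (l 16416248)))) (c (c (a (l 16402832) (b (l 16380384) (l 16410944))) (a (l 16383080) (l 16398744))) (b (l 16372248) (l 16421872)))) (a (c (b (a (l 16477440) (b (c (l 16490424) (l 16465336)) (l 16484872))) (c (l 16502216) (l 16476864))) (b (a (l 16431728) (c (b (l 16446280) (l 16453032)) (l 16441928))) (c (l 16455896) (l 16443136)))) (c (b (a (b (c (l 16484688) (l 16465264)) (c (l 16499456) (l 16480080))) (c (b (l 16453096) (a (b (l 16496360) (l 16504384)) (b (l 16494104) (c (l 16509208) (l 16505800))))) (b (l 16467120) (l 16494024)))) (c (a (l 16509040) (c (l 16519208) (l 16513856))) (a (l 16489640) (l 16510152)))) (b (b (a (l 16457504) (l 16465776)) (a (l 16472456) (l 16492952))) (l 16495984))))) (b (a (b (l 16363456) (c (l 16403064) (l 16401592))) (c (l 16394256) (l 16391632))) (a (c (b (l 16426112) (l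 16437112)) (l 16430048)) (b (c (b (l 16459176) (l 16479856)) (l 16467640)) (l 16493920))))), by decide +kernel⟩

def k5_pp_022 : ∃ t, chk3 f_pp_022 t 9 9 1 = true :=
  ⟨(a (c (a (b (a (c (b (l 16366448) (l 16403232)) (l 16394104)) (b (l 16330528) (l 16338752))) (a (a (b (c (b (l 16470824) (l 16503400)) (l 16485992)) (c (b (c (l 16525432) (l 16524936)) (l 16532864)) (l 16527240))) (b (c (l 16441240) (l 16482152)) (b (c (b (l 16520624) (l 16525184)) (l 16520392)) (l 16522624)))) (b (c (l 16431048) (l 16429952)) (b (c (l 16468344) (l 16466608)) (l 16475232))))) (b (c (l 16221720) (l 16221424)) (b (l 16278944) (b (l 16340224) (a (l 16404608) (l 16324280)))))) (b (a (a (c (l 16391224) (l 16388352)) (l 16349496)) (l 16214976)) (a (b (a (c (l 16482144) (l 16480472)) (l 16426120)) (a (c (a (l 16526176) (l 16518024)) (l 16518240)) (b (l 16463496) (l 16471296)))) (b (l 16293256) (l 16283208))))) (c (b (a (l 16037368) (l 15880728)) (b (l 15986752) (l 15963176))) (c (a (l 16046544) (l 15933656))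 (l 15796024)))), by decide +kernel⟩

def k6_pp_022 : ∃ t, chk3 f_pp_022 t 32 10 1 = true :=
  ⟨(a (a (b (c (b (b (l 16392824) (c (l 16307360) (l 16333728))) (a (b (l 16380120) (a (l 16362168) (b (l 16343120) (l 16339248)))) (b (a (b (l 16342544) (l 16333976)) (l 16328088)) (l 16335160)))) (b (c (a (l 16406640) (l 16282752)) (a (c (l 16395640) (l 16392368)) (c (l 16301728) (l 16343064)))) (c (a (b (l 16356320) (l 16330064)) (a (l 16293896) (l 16308232))) (a (a (l 16296720) (c (l 16319224) (l 16231800))) (c (b (l 16289144) (l 16309232)) (l 16289744)))))) (b (c (c (l 16315904) (l 16341456)) (c (a (l 16326136) (l 16324496)) (a (c (l 16314008) (l 16247144)) (l 16275368)))) (c (l 16369384) (c (l 16345560) (c (l 16339360) (l 16314328)))))) (c (b (b (a (b (a (l 16336696) (b (l 16318128) (l 16315088))) (b (l 16319968) (l 16320888))) (c (l 16322312) (l 16310224))) (c (l 16336184) (l 16322920))) (c (l 16363144) (c (l 16351152) (l 16346848)))) (b (c (a (b (b (a (l 16318728) (l 16308104)) (a (l 16304000)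 (l 16309096))) (l 16316824)) (l 16282832)) (b (a (b (c (l 16323888) (l 16312640)) (l 16310696)) (l 16318840)) (l 16324824))) (c (c (l 16349808) (l 16355704)) (l 16310696))))) (c (c (a (b (c (l 16329504) (a (l 16322416) (l 16332336))) (c (l 16363232) (a (l 16356056) (l 16366512)))) (b (c (l 16356576) (l 16373840)) (c (l 16349544) (l 16409256)))) (c (a (b (l 16335888) (l 16328200)) (l 16326080)) (a (l 16346552) (b (l 16399576) (l 16435824))))) (c (b (c (l 16351800) (l 16360616)) (c (l 16324536) (l 16396288))) (b (l 16341472) (l 16377152))))), by decide +kernel⟩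

def k7_pp_022 : ∃ t, chk3 f_pp_022 t 33 10 1 = true :=
  ⟨(a (c (a (c (b (l 16360816) (b (l 16428192) (l 16429880))) (c (b (l 16436272) (l 16431712)) (l 16398040))) (c (b (c (l 16431224) (l 16429792)) (c (l 16448552) (l 16473528))) (b (l 16439504) (l 16477816)))) (c (b (l 16391688) (l 16429296)) (l 16372176))) (c (c (a (b (c (l 16484944) (l 16482800)) (c (l 16476712) (l 16522232))) (b (l 16500680) (l 16499088))) (b (l 16448320) (l 16466952))) (c (b (l 16414712) (l 16454264)) (l 16408384)))), by decide +kernel⟩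

def k8_pp_022 : ∃ t, chk3 f_pp_022 t 16 11 1 = true :=
  ⟨(c (b (a (a (c (l 16415336) (c (l 16403440) (a (l 16397040) (l 16355696)))) (c (a (c (c (l 16415056) (l 16412376)) (a (l 16406944) (l 16376032))) (b (l 16374776) (l 16384696))) (a (c (a (l 16387208) (l 16433752)) (l 16436720)) (c (l 16460048) (l 16426928))))) (c (a (c (b (l 16436448) (l 16447680)) (a (l 16482872) (a (l 16478160) (l 16513160)))) (c (a (b (l 16497072) (l 16457048)) (l 16491600)) (l 16500240))) (c (a (a (b (l 16512576) (l 16523936)) (l 16546568)) (l 16536608)) (l 16525296)))) (a (a (c (l 16463480) (c (l 16472936) (b (l 16405448) (l 16424568)))) (c (c (a (c (l 16484928) (l 16440464)) (b (l 16452616) (l 16472448))) (a (a (l 16477000) (c (l 16442616) (l 16469768))) (l 16492368))) (a (a (c (l 16415792) (l 16492288)) (l 16473088)) (c (l 16512144) (l 16479664))))) (c (a (c (c (l 16426512) (b (l 16429144) (l 16424024))) (a (l 16450784) (c (a (l 16471480) (l 16480760)) (l 16475736)))) (c (a (a (b (l 16454872) (l 16428144))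 (l 16440008)) (l 16423760)) (l 16453464))) (c (a (a (a (l 16470040) (l 16477536)) (l 16499208)) (l 16485632)) (l 16491472))))) (a (c (a (a (b (l 16385656) (l 16434488)) (b (c (l 16338064) (l 16344384)) (a (c (l 16460304) (l 16467336)) (c (l 16479544) (l 16494624))))) (b (a (c (l 16428656) (l 16444176)) (l 16447264)) (c (a (l 16459232) (l 16553408)) (l 16481216)))) (a (c (a (b (l 16337784) (a (l 16443712) (l 16433224))) (b (l 16407616) (l 16458352))) (a (a (b (l 16370040) (l 16377472)) (l 16335032)) (l 16391048))) (b (l 16430800) (l 16488672)))) (c (b (c (a (l 16493160) (l 16493192)) (l 16450424)) (c (l 16496472) (l 16506064))) (b (l 16465824) (l 16522040))))), by decide +kernel⟩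

def k9_pp_022 : ∃ t, chk3 f_pp_022 t 17 10 1 = true :=
  ⟨(c (a (c (b (c (a (l 16520208) (l 16527360)) (l 16477528)) (c (c (l 16497400) (l 16518120)) (l 16504184))) (c (b (a (l 16469832) (l 16482904)) (a (l 16511224) (l 16484144))) (b (l 16443720) (l 16423168)))) (b (c (c (a (l 16511648) (b (c (l 16513384) (l 16529024)) (a (l 16546416) (c (a (l 16552784) (l 16552256)) (l 16548824))))) (a (b (l 16503920) (l 16522192)) (b (l 16525360) (l 16542712)))) (b (l 16510840) (a (l 16514816) (l 16542072)))) (c (a (c (b (l 16564112) (l 16569888)) (b (l 16523664) (l 16553032))) (c (b (a (c (l 16573072) (l 16542352)) (c (a (l 16546368) (l 16556008)) (l 16558048))) (a (a (l 16547912) (l 16560384)) (l 16541280))) (b (a (l 16559840) (l 16557784)) (l 16525352)))) (a (b (l 16537408) (l 16543376)) (b (a (l 16559496) (l 16557272)) (l 16545872)))))) (a (c (b (l 16458800) (l 16480488)) (b (l 16458000) (l 16501160))) (b (c (b (l 16509608) (l 16527624)) (l 16517272)) (c (a (l 16529784) (b (l 16555744) (l 16566272)))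 (a (l 16550136) (l 16557400)))))), by decide +kernel⟩

def k10_pp_022 : ∃ t, chk3 f_pp_022 t 17 11 1 = true :=
  ⟨(c (a (a (b (c (b (l 16509456) (l 16488944)) (c (l 16549592) (l 16530680))) (c (b (l 16443656) (c (b (l 16469704) (l 16454864)) (l 16473416))) (c (b (l 16553928) (l 16525440)) (b (l 16577320) (l 16527592))))) (b (c (b (l 16506496) (c (l 16511368) (l 16542920))) (b (l 16504328) (c (l 16566504) (l 16595368)))) (c (c (b (a (l 16502736) (b (l 16500320) (l 16515232))) (a (b (l 16464168) (l 16478320)) (l 16512032))) (b (a (l 16534448) (l 16508856)) (a (l 16472488) (l 16543216)))) (b (c (a (l 16541880) (l 16529464)) (l 16574824)) (c (a (l 16500680) (l 16563720)) (l 16560200)))))) (c (b (a (b (c (a (l 16548440) (b (l 16567968) (l 16543936))) (a (l 16575912) (c (l 16577376) (l 16595080)))) (c (a (b (l 16534872) (l 16530064)) (l 16565920)) (a (a (l 16535872) (l 16545984)) (l 16586896)))) (c (a (b (l 16571304) (l 16557544)) (c (b (l 16546216) (l 16554984)) (l 16567664))) (b (l 16573624)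 (l 16581584)))) (a (c (b (l 16526232) (l 16501408)) (b (c (l 16547288) (l 16575968)) (b (l 16547440) (l 16544176)))) (a (c (b (l 16570392) (b (l 16576504) (l 16572096))) (l 16570376)) (c (c (b (l 16569352) (l 16568992)) (l 16554704)) (l 16554544))))) (b (a (b (a (l 16588040) (l 16595040)) (a (l 16572984) (l 16607632))) (b (l 16573192) (l 16581192))) (b (a (l 16578928) (l 16594896)) (a (l 16574888) (l 16593976)))))) (a (b (c (a (l 16502784) (l 16559864)) (l 16541792)) (c (a (l 16528952) (b (l 16574264) (l 16559408))) (b (l 16579560) (l 16558720)))) (b (c (a (b (l 16590088) (l 16603000)) (l 16576208)) (a (l 16576272) (l 16575688))) (c (b (l 16611008) (l 16595168)) (l 16556680))))), by decide +kernel⟩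

def k11_pp_022 : ∃ t, chk3 f_pp_022 t 9 5 1 = true :=
  ⟨(b (a (c (a (b (c (a (a (a (b (l 16540592) (l 16545392)) (b (l 16537304) (l 16533256))) (l 16515440)) (l 16472528)) (a (b (l 16525776) (l 16525264)) (l 16470456))) (c (a (b (l 16503608) (l 16505384)) (l 16475328)) (a (l 16523864) (l 16473224)))) (a (b (l 16409600) (l 16419320)) (b (l 16341024) (l 16359688)))) (b (a (c (a (l 16501432) (l 16468384)) (l 16451880)) (b (l 16366368) (l 16371728))) (a (c (l 16476536) (l 16495816)) (l 16383208)))) (b (c (a (b (a (l 16262552) (l 16198104)) (l 16248880)) (b (l 16100936) (l 16135968))) (a (b (l 16218248) (l 16237864)) (b (l 16087232) (l 16121880)))) (c (a (l 16270840) (l 16173112)) (a (l 16260344) (l 16159792))))) (a (c (a (b (c (a (b (c (l 16532928) (l 16532320)) (c (l 16544120) (l 16543568))) (l 16473680)) (b (l 16488296) (l 16501296))) (a (c (b (a (l 16548456) (l 16551576)) (b (l 16556272) (l 16569488))) (b (l 16559712) (l 16583048))) (b (l 16521728) (c (l 16548912) (l 16547584))))) (b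 (b (l 16410400) (l 16430104)) (b (l 16413464) (c (l 16488112) (l 16485784))))) (c (a (b (l 16450816) (b (l 16539656) (l 16543968))) (b (l 16415088) (l 16466824))) (a (b (l 16512168) (l 16550568)) (b (l 16411976) (l 16464312))))) (c (b (a (b (l 16301760) (l 16328456)) (b (l 16215328) (l 16249488))) (a (b (l 16360696) (l 16399112)) (b (l 16289152) (l 16334976)))) (b (a (l 16305160) (l 16220016)) (a (l 16308536) (l 16301576)))))), by decide +kernel⟩

def k12_pp_022 : ∃ t, chk3 f_pp_022 t 5 2 1 = true :=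
  ⟨(a (a (b (c (b (l 15447504) (b (l 15644472) (l 15777120))) (b (c (l 15429600) (l 15421904)) (b (l 15539792) (c (l 15760616) (l 15751048))))) (b (b (c (b (l 15878264) (a (l 16012624) (l 15873752))) (b (l 15858064) (a (l 15995120) (l 15852216)))) (a (c (l 16065016) (l 16048640)) (b (l 1) (l 1)))) (a (c (b (b (l 16118776) (l 16160560)) (c (l 16173968) (l 16230824))) (b (l 16124608) (l 16179792))) (l 1)))) (b (b (l 1) (l 1)) (l 1))) (l 1)), by decide +kernel⟩

def k13_pp_022 : ∃ t, chk3 f_pp_022 t 3 2 1 = true :=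
  ⟨(l 1), by decide +kernel⟩

def k14_pp_022 : ∃ t, chk3 f_pp_022 t 32 12 2 = true :=
  ⟨(a (c (b (l 16511952) (l 16437192)) (b (c (l 16542936) (a (l 16557456) (a (l 16556120) (l 16477368)))) (c (l 16492272) (a (l 16514344) (a (l 16525808) (l 16462744)))))) (c (a (b (c (b (l 16507664) (l 16558840)) (a (l 16526472) (b (l 16512864) (l 16534208)))) (c (c (l 16518856) (l 16458512)) (a (l 16503448) (c (l 16457960) (l 16470128))))) (c (b (b (l 16518736) (l 16468528)) (b (l 16450488) (l 16406216))) (b (l 16480832) (l 16422928)))) (c (a (b (b (l 16475456) (a (l 16560840) (l 16553632))) (a (c (l 16483392) (l 16477320)) (l 16492096))) (b (l 16454560) (l 16416912))) (a (b (l 16520536) (l 16462368)) (b (c (l 16439456) (l 16460008)) (c (l 16380304) (l 16400496))))))), by decide +kernel⟩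

def k15_pp_022 : ∃ t, chk3 f_pp_022 t 33 12 2 = true :=
  ⟨(c (a (b (a (c (l 16436408) (c (l 16437608) (l 16425712))) (c (c (l 16393808) (b (l 16423624) (l 16346376))) (c (a (l 16389000) (l 16418696)) (l 16392680)))) (a (b (c (l 16442376) (l 16416400)) (c (l 16399216) (l 16330912))) (c (b (a (l 16389056) (c (l 16360744) (l 16354120))) (a (l 16350184) (c (l 16328104) (l 16321328)))) (b (a (l 16334560) (l 16368224)) (a (c (l 16333832) (l 16336784)) (l 16335208)))))) (a (b (c (c (a (b (l 16411856) (l 16355328)) (l 16369064)) (l 16405208)) (l 16387560)) (b (c (a (c (a (l 16318136) (l 16313072)) (l 16348112)) (l 16347040)) (l 16376432)) (c (c (a (l 16312024) (l 16316728)) (l 16327128)) (l 16350880)))) (b (b (l 16394536) (b (l 16388864) (c (l 16378424) (l 16410296)))) (b (c (l 16363160) (l 16394880)) (l 16357960))))) (b (a (c (a (c (a (l 16471672) (l 16429992)) (l 16424944)) (l 16457664)) (l 16466816)) (b (l 16475816) (b (l 16469816) (l 16410784)))) (a (a (c (b (a (l 16414088) (l 16399616))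 (a (l 16368752) (l 16355984))) (l 16406304)) (b (l 16414560) (l 16378560))) (b (a (l 16381168) (l 16440760)) (l 16407704))))), by decide +kernel⟩

def k16_pp_022 : ∃ t, chk3 f_pp_022 t 16 12 3 = true :=
  ⟨(a (a (c (a (b (b (l 16500216) (l 16572800)) (l 16442864)) (c (b (b (l 16475120) (l 16495696)) (a (l 16488080) (l 16468760))) (b (a (l 16518088) (l 16548192)) (c (l 16445264) (l 16441736))))) (c (a (b (a (l 16535632) (l 16483840)) (a (l 16537128) (l 16445296))) (b (l 16531136) (l 16442192))) (c (a (b (l 16456144) (a (l 16539688) (l 16526176))) (l 16452128)) (b (l 16445216) (a (l 16452432) (l 16519928)))))) (c (c (b (a (l 16460128) (l 16475216)) (a (l 16401256) (l 16436144))) (b (l 16464936) (l 16404768))) (b (l 16509144) (l 16447912)))) (b (c (b (a (l 16525816) (l 16516816)) (a (l 16489416) (c (l 16479184) (l 16507216)))) (b (l 16554992) (l 16497768))) (c (a (b (l 16427088) (c (l 16419784) (l 16441680))) (b (c (l 16449360) (l 16477120)) (l 16447040))) (b (l 16442000) (a (l 16447952)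 (l 16449440)))))), by decide +kernel⟩

def k17_pp_022 : ∃ t, chk3 f_pp_022 t 32 13 1 = true :=
  ⟨(c (b (a (c (b (l 16446496) (l 16455440)) (a (l 16459344) (a (l 16449416) (c (l 16474992) (b (l 16470144) (l 16479752)))))) (a (c (b (a (l 16465504) (c (l 16468512) (a (l 16467384) (l 16455176)))) (a (l 16478640) (c (l 16486680) (l 16478248)))) (a (c (b (l 16444304) (l 16478440)) (l 16410656)) (b (l 16422704) (l 16441008)))) (c (b (a (b (l 16419056) (l 16443784)) (l 16410592)) (l 16408968)) (b (c (l 16386296) (b (l 16347232) (l 16374424))) (c (l 16410576) (l 16396656)))))) (a (a (l 16436872) (c (l 16494848) (b (l 16475032) (l 16517224)))) (c (a (a (l 16514584) (c (l 16523168) (l 16514888))) (l 16402200)) (a (b (l 16436840) (l 16477640)) (c (l 16445960) (l 16390224)))))) (a (c (b (a (b (l 16471592) (l 16479248)) (c (b (a (l 16474448) (l 16454688)) (a (l 16482184) (l 16464280))) (a (l 16424976) (b (l 16432992) (l 16442592))))) (a (b (l 16492400) (l 16512424)) (c (a (l 16512584) (l 16498464))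 (a (l 16501432) (l 16476888))))) (b (a (c (a (l 16485120) (c (l 16479992) (l 16474656))) (a (c (l 16487304) (l 16446712)) (l 16474640))) (c (b (l 16448312) (l 16457528)) (l 16465040))) (a (c (a (l 16510680) (b (l 16494968) (l 16516488))) (a (c (l 16512880) (l 16451328)) (l 16504480))) (c (l 16468480) (l 16501544))))) (b (c (b (a (c (l 16386720) (l 16412512)) (l 16334344)) (a (c (l 16423912) (l 16428776)) (l 16421792))) (b (l 16414144) (l 16454960))) (c (a (c (l 16439176) (l 16465152)) (l 16457512)) (l 16490848))))), by decide +kernel⟩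

def k18_pp_022 : ∃ t, chk3 f_pp_022 t 33 13 1 = true :=
  ⟨(c (b (c (a (b (a (b (c (l 16373720) (l 16347120)) (l 16372896)) (c (c (l 16331280) (a (l 16331320) (l 16310960))) (a (c (l 16321608) (l 16324480)) (l 16324728)))) (a (l 16395072) (c (l 16354408) (l 16353744)))) (b (c (a (c (a (l 16269928) (l 16305320)) (l 16316032)) (l 16329536)) (l 16350136)) (c (a (l 16336456) (l 16353224)) (l 16374648)))) (a (c (a (b (a (b (l 16340328) (l 16352168)) (l 16339512)) (l 16373808)) (b (l 16350952) (l 16377808))) (b (l 16372504) (l 16399992))) (b (l 16353568) (l 16420176)))) (a (c (a (l 16407144) (c (l 16385288) (b (l 16376384) (l 16391984)))) (a (b (l 16367424) (l 16426392)) (l 16424328))) (c (b (l 16318128) (l 16394624)) (l 16385224)))) (b (c (b (a (c (l 16402056) (l 16423760)) (c (l 16432584) (l 16438984))) (a (l 16439424) (l 16459424))) (b (l 16433352) (l 16459800))) (c (a (b (l 16463104) (l 16479496)) (b (l 16480192) (l 16493824))) (b (l 16482168) (l 16497216))))), by decide +kernel⟩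

def k19_pp_022 : ∃ t, chk3 f_pp_022 t 17 12 2 = true :=
  ⟨(a (b (c (a (b (a (b (l 16451000) (c (l 16419408) (l 16451224))) (b (c (l 16447376) (l 16479000)) (l 16414104))) (b (a (c (l 16408064) (l 16439768)) (l 16430088)) (l 16367512))) (b (c (l 16447056) (l 16499104)) (c (b (l 16480592) (l 16472920)) (l 16486872)))) (a (b (c (a (l 16490656) (l 16507096)) (a (l 16518496) (l 16527216))) (c (l 16438880) (a (l 16495128) (l 16514152)))) (c (b (l 16501240) (a (l 16520904) (l 16543520))) (l 16523968)))) (c (b (a (c (l 16360136) (l 16433464)) (c (l 16395184) (l 16467864))) (a (c (l 16378880) (l 16410032)) (c (l 16410896) (l 16462352)))) (c (a (b (l 16463896) (l 16440232)) (b (a (l 16502488) (l 16523536)) (a (l 16476512) (l 16496048)))) (a (b (l 16486400) (l 16462504)) (l 16484904))))) (a (b (c (c (b (l 16492184) (c (l 16490344) (l 16526888))) (a (b (l 16545832) (l 16510264)) (b (l 16572096) (l 16534968)))) (b (l 16565368) (l 16549728))) (c (c (b (b (l 16503248) (l 16511520)) (l 16425936))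 (a (b (l 16488952) (l 16481200)) (b (l 16533120) (l 16502936)))) (b (l 16548296) (l 16518432)))) (b (c (c (b (a (c (l 16578608) (l 16590320)) (c (l 16594888) (l 16635040))) (a (c (l 16561152) (l 16572768)) (c (a (l 16585576) (l 16599072)) (l 16595440)))) (b (l 16604192) (l 16585744))) (b (l 16604128) (l 16585384))) (c (c (b (a (c (l 16558104) (l 16548632)) (c (a (l 16581432) (l 16573240)) (l 16590816))) (a (c (l 16526840) (l 16517224)) (c (a (l 16549112) (c (l 16539656) (l 16562392))) (l 16557992)))) (b (l 16560688) (a (l 16541560) (l 16557432)))) (b (l 16559960) (c (l 16548536) (l 16547736))))))), by decide +kernel⟩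

def k20_pp_022 : ∃ t, chk3 f_pp_022 t 17 12 3 = true :=
  ⟨(b (a (c (a (b (l 16530432) (l 16510512)) (l 16501912)) (b (l 16518624) (l 16521584))) (c (b (l 16562800) (l 16545240)) (l 16512144))) (a (c (b (l 16505328) (l 16479504)) (b (l 16502528) (l 16476224))) (c (b (l 16520840) (a (l 16515984) (l 16546536))) (b (l 16561592) (l 16529088))))), by decide +kernel⟩

def k21_pp_022 : ∃ t, chk3 f_pp_022 t 17 13 1 = true :=
  ⟨(c (b (a (c (b (b (a (l 16375072) (l 16362232)) (a (l 16383952) (l 16432584))) (a (l 16401216) (l 16405808))) (b (a (c (l 16425072) (l 16405224)) (c (b (l 16441904) (l 16470352)) (l 16473352))) (a (c (l 16446768) (l 16468952)) (c (l 16485592) (l 16492264))))) (c (a (b (c (b (l 16465120) (l 16471152)) (b (a (l 16478760) (l 16499424)) (l 16451784))) (c (l 16484256) (a (l 16498800) (l 16517752)))) (b (b (c (a (c (l 16501592) (l 16512832)) (c (a (l 16523088) (b (l 16536680) (l 16532560))) (l 16531592))) (l 16502280)) (c (a (l 16511600) (a (l 16529448) (l 16539120))) (l 16527928)))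 (c (a (c (l 16518208) (l 16529464)) (c (a (l 16538480) (c (l 16548704) (l 16550408))) (l 16546584))) (a (l 16532672) (l 16545848))))) (b (a (b (l 16494144) (l 16500200)) (b (l 16500744) (l 16526392))) (a (l 16513392) (c (l 16538072) (l 16537056)))))) (a (c (b (a (l 16418936) (l 16462784)) (a (l 16429896) (l 16471184))) (a (b (l 16453528) (l 16485448)) (b (c (l 16500664) (l 16507368)) (l 16511112)))) (c (a (b (c (l 16496664) (l 16477336)) (c (l 16502616) (l 16525192))) (c (b (a (l 16533720) (a (l 16549904) (l 16558480))) (a (l 16537872) (c (l 16555464) (l 16558808)))) (b (l 16548944) (l 16552448)))) (a (b (l 16525824) (l 16531664)) (b (l 16547416) (l 16550824)))))) (b (a (b (c (a (l 16453296) (l 16471192)) (l 16458728)) (c (l 16461848) (l 16479312))) (b (c (b (l 16484064) (l 16510392)) (b (l 16502800) (l 16508168))) (c (a (l 16510592) (l 16535520)) (l 16520456)))) (a (c (b (l 16499344) (l 16508944)) (b (l 16495912) (l 16505480))) (b (c (a (l 16523040) (l 16545352)) (l 16531576)) (c (a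 (l 16528792) (l 16548624)) (l 16535968)))))), by decide +kernel⟩

def k22_pp_022 : ∃ t, chk3 f_pp_022 t 9 12 1 = true :=
  ⟨(a (c (c (a (b (a (b (b (l 16584472) (l 16601312)) (c (c (l 16602920) (l 16602904)) (l 16602888))) (b (l 16582168) (l 16623016))) (a (b (c (a (l 16587504) (l 16605144)) (l 16574928)) (c (a (l 16553360) (l 16590600)) (l 16560744))) (b (l 16612048) (l 16574336)))) (b (b (l 16526320) (l 16530144)) (b (l 16584184) (l 16589256)))) (b (a (b (a (l 16613392) (l 16581232)) (a (l 16602856) (l 16622568))) (b (l 16524456) (l 16549808))) (a (b (a (l 16574488) (l 16632880)) (a (b (l 16590488) (l 16570736)) (l 16594480))) (b (l 16625472) (l 16610112))))) (b (a (c (b (l 16597304) (l 16595512)) (b (l 16596648) (l 16637256))) (b (l 16521664) (l 16526872))) (a (c (b (l 16571400) (a (l 16579552) (l 16614624))) (b (l 16592000) (l 16574592))) (b (l 16585176) (c (l 16630968) (l 16651824)))))) (a (b (c (b (l 16402448) (c (l 16498448) (l 16495976))) (b (l 16438136) (l 16492256))) (c (b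 (c (l 16538200) (l 16557448)) (c (l 16565960) (l 16586064))) (b (l 16533880) (l 16563792)))) (b (b (c (l 16387616) (l 16379640)) (c (l 352756954311) (l 16441288))) (l 1)))), by decide +kernel⟩

def k23_pp_022 : ∃ t, chk3 f_pp_022 t 9 13 1 = true :=
  ⟨(b (b (a (b (c (a (c (a (c (b (l 16556744) (l 16552192)) (l 16553608)) (l 16586328)) (a (l 16531328) (l 16584952))) (b (l 16601120) (l 16594904))) (a (c (l 16524624) (l 16565000)) (l 16596624))) (a (c (c (a (c (l 16557872) (l 16556960)) (l 16588408)) (a (l 16555624) (l 16586984))) (c (l 16569200) (l 16567592))) (c (c (l 16619616) (l 16639784)) (l 16617616)))) (a (a (a (c (l 16668552) (l 16689264)) (l 1)) (l 1)) (l 1))) (a (a (c (c (a (c (b (l 16564384) (l 16569544)) (l 16566168)) (l 16595752)) (a (c (l 16565288) (l 16564408)) (l 16594304))) (c (a (l 16563080) (l 16592864)) (l 16554872))) (c (c (l 16603312) (l 16623416)) (c (l 16622544) (l 16642648)))) (l 1))) (a (b (a (c (c (a (a (l 16567968) (l 16580424)) (l 16600800)) (a (l 16572200)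 (l 16599240))) (c (a (l 16570376) (l 16597688)) (l 16581800))) (a (c (l 16630168) (l 16627720)) (l 1))) (a (c (a (c (a (l 16569752) (l 16581072)) (l 16573248)) (c (l 16599768) (l 16598008))) (c (a (l 16571248) (l 16596248)) (l 16581320))) (l 1))) (l 1))), by decide +kernel⟩

def k24_pp_022 : ∃ t, chk3 f_pp_022 t 32 14 1 = true :=
  ⟨(c (a (b (a (l 16505672) (b (l 16501624) (l 16526712))) (b (l 16473840) (l 16516288))) (b (c (a (a (l 16538384) (l 16497032)) (l 16464672)) (a (c (l 16504016) (l 16502768)) (c (l 16466448) (l 16452632)))) (c (a (b (l 16534336) (l 16533376)) (l 16502752)) (a (l 16426480) (b (l 16458288) (l 16456088)))))) (a (c (b (a (l 16530152) (c (l 16466088) (a (l 16527936) (l 16502048)))) (a (l 16532448) (c (l 16508056) (l 16434072)))) (b (a (c (a (l 16538136) (l 16512720)) (a (c (l 16540352) (l 16520752)) (l 16531832))) (c (l 16515280) (l 16527384))) (a (c (a (l 16540792) (l 16535152)) (a (c (l 16542888) (l 16544184)) (l 16533120))) (c (l 16514952) (l 16526872))))) (b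 (c (a (c (l 16483272) (l 16488264)) (l 16477936)) (b (l 16510976) (l 16512864))) (c (a (b (l 16487168) (l 16485800)) (l 16473224)) (l 16466664))))), by decide +kernel⟩

def k25_pp_022 : ∃ t, chk3 f_pp_022 t 32 30 1 = true :=
  ⟨(a (c (b (l 16503080) (b (l 16470160) (c (l 16386592) (a (l 16444216) (l 16431896))))) (c (b (a (l 16517720) (l 16442920)) (a (b (l 16479456) (l 16453896)) (c (l 16353584) (b (l 16462560) (l 16430584))))) (b (a (a (l 16465968) (l 16440824)) (l 16500928)) (a (c (b (l 16482648) (l 16456920)) (a (b (l 16489232) (l 16464584)) (l 16464064))) (c (l 16380152) (l 16454288)))))) (c (c (a (b (l 16512856) (l 16476504)) (l 16400216)) (a (l 16337328) (b (l 16439264) (l 16386304)))) (c (a (l 16358488) (l 16426584)) (l 16440944)))), by decide +kernel⟩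

def k26_pp_022 : ∃ t, chk3 f_pp_022 t 32 31 1 = true :=
  ⟨(a (c (b (c (b (a (l 16444104) (l 16450248)) (l 16436784)) (b (a (l 16442088) (c (l 16445960) (l 16438592))) (a (l 16457120) (l 16332112)))) (c (b (l 16470296) (l 16491336)) (a (b (l 16477768) (l 16500704)) (c (l 16493184) (l 457446779191))))) (b (c (a (c (l 16450112) (l 16454552)) (b (c (l 16426256) (l 16414744)) (c (l 16334976) (a (l 16438208) (l 16400728))))) (a (c (a (l 16463296) (l 16449088)) (a (l 16465168) (l 16446696))) (c (b (l 16411296) (l 16419664)) (l 16406624)))) (c (a (b (b (l 16455384) (l 16470232)) (l 16472680)) (c (b (l 16428072) (l 16501304)) (b (a (l 16464896) (l 16429344)) (l 16446568)))) (a (c (b (a (l 16487504) (l 16411288)) (a (l 16521160) (l 16426680))) (b (a (l 16469296) (l 16472336)) (a (c (b (l 16511152) (l 16531880)) (b (l 16512896) (l 16447304))) (c (l 16503864) (l 16507872))))) (b (c (b (l 16433416) (l 16449888)) (b (l 16445848) (l 16459600))) (c (l 16481208) (l 322155325975))))))) (b (c (c (a (b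 (a (l 16453184) (l 16446464)) (l 16453392)) (b (l 16407456) (l 16396448))) (a (b (c (l 16357400) (l 16387264)) (l 16393008)) (b (b (l 16345800) (l 16334072)) (l 16273008)))) (c (b (a (c (l 16319976) (l 16365752)) (b (l 16351968) (l 16334008))) (a (c (l 16369808) (l 16367784)) (l 16312664))) (c (b (a (l 16388192) (l 16354704)) (a (l 16390008) (l 16360840))) (b (a (l 16396048) (l 16375648)) (a (l 16398192) (b (l 16356488) (l 16363912))))))) (b (a (b (c (a (l 16418632) (l 16394176)) (c (l 16395376) (l 16409088))) (l 1)) (l 1)) (l 1)))), by decide +kernel⟩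

def k27_pp_022 : ∃ t, chk3 f_pp_022 t 33 7 1 = true :=
  ⟨(a (b (c (b (c (b (a (l 16445168) (l 16404104)) (l 16344296)) (c (a (l 16424896) (l 16424184)) (l 16448760))) (b (c (l 16380816) (l 16433336)) (c (l 16419272) (l 16429608)))) (b (c (b (l 16487872) (l 16487416)) (l 16506640)) (c (b (l 16481464) (l 16477504)) (l 16498040)))) (b (c (b (c (l 16354576) (l 16411440)) (c (l 16316288) (l 16357312))) (b (l 16465672) (l 16407128))) (b (b (c (c (l 16320536) (l 16309832)) (l 16349872)) (l 1)) (l 1)))) (b (c (b (c (b (l 16400560) (l 16398104)) (l 16417616)) (b (c (l 16390512) (l 16449704)) (l 16307224))) (b (c (b (l 16499584) (l 16496704)) (l 16501072)) (b (l 16468664) (l 16483536)))) (b (c (b (c (l 16360568) (l 16424072)) (c (l 16320760) (l 16368424))) (b (l 16462920) (l 16402840))) (l 1)))), by decide +kernel⟩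

def k28_pp_022 : ∃ t, chk3 f_pp_022 t 17 7 1 = true :=
  ⟨(a (b (b (c (c (b (l 16409680) (l 16403808)) (b (a (l 16488800) (l 16512032)) (a (l 16483800) (l 16504784)))) (b (c (l 16510920) (l 16507312)) (c (l 16504520) (l 16500640)))) (c (b (c (l 16414048) (a (l 16473784) (l 16492696))) (c (l 16426744) (a (l 16466160) (l 16483200)))) (b (c (l 16493112) (l 16488904)) (a (l 16483120) (l 16482848))))) (b (a (b (c (c (l 16385384) (l 16444520)) (l 16460776)) (l 1)) (l 1)) (l 1))) (b (a (b (c (c (b (c (l 16501424) (l 16523904)) (c (l 16492376) (l 16514696))) (b (l 16530232) (l 16520792))) (b (l 16525888) (l 16515976))) (c (b (c (c (l 16478752) (l 16500888)) (l 16506696)) (c (l 16435704) (l 16495400))) (b (l 16501312) (l 16489504)))) (b (c (c (b (c (a (l 16535000) (l 16531552)) (l 16548904)) (c (a (l 16524384) (l 16519920)) (l 16537600))) (b (l 16547104) (l 16535544))) (b (a (l 16538624) (l 16548536)) (c (l 16532760) (l 16529984)))) (a (b (b (c (l 391948711479) (l 16513496)) (l 1)) (l 1)) (l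 1)))) (l 1))), by decide +kernel⟩

def k29_pp_022 : ∃ t, chk3 f_pp_022 t 9 7 1 = true :=
  ⟨(b (a (b (a (a (c (b (c (l 16569664) (l 16567320)) (c (l 16556448) (l 16553712))) (b (c (l 16565048) (l 16562776)) (c (l 16551064) (l 16548416)))) (b (c (l 16590976) (l 16586848)) (l 1))) (l 1)) (l 1)) (l 1)) (l 1)), by decide +kernel⟩

def k30_pp_022 : ∃ t, chk3 f_pp_022 t 5 3 1 = true :=
  ⟨(b (l 1) (l 1)), by decide +kernel⟩

def k31_pp_022 : ∃ t, chk3 f_pp_022 t 3 3 1 = true :=
  ⟨(l 1), by decide +kernel⟩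

theorem s32_pp_022 : ∃ t, chk3 f_pp_022 t 32 15 1 = true := ex3_b k25_pp_022 k26_pp_022

theorem s33_pp_022 : ∃ t, chk3 f_pp_022 t 32 7 1 = true := ex3_b k24_pp_022 s32_pp_022

theorem s34_pp_022 : ∃ t, chk3 f_pp_022 t 16 7 1 = true := ex3_a s33_pp_022 k27_pp_022

theorem s35_pp_022 : ∃ t, chk3 f_pp_022 t 8 7 1 = true := ex3_a s34_pp_022 k28_pp_022

theorem s36_pp_022 : ∃ t, chk3 f_pp_022 t 4 7 1 = true := ex3_a s35_pp_022 k29_pp_022

theorem s37_pp_022 : ∃ t, chk3 f_pp_022 t 9 6 1 = true := ex3_b k22_pp_022 k23_pp_022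

theorem s38_pp_022 : ∃ t, chk3 f_pp_022 t 17 12 1 = true := ex3_c k19_pp_022 k20_pp_022

theorem s39_pp_022 : ∃ t, chk3 f_pp_022 t 17 6 1 = true := ex3_b s38_pp_022 k21_pp_022

theorem s40_pp_022 : ∃ t, chk3 f_pp_022 t 16 13 1 = true := ex3_a k17_pp_022 k18_pp_022

theorem s41_pp_022 : ∃ t, chk3 f_pp_022 t 16 12 2 = true := ex3_a k14_pp_022 k15_pp_022

theorem s42_pp_022 : ∃ t, chk3 f_pp_022 t 16 12 1 = true := ex3_c s41_pp_022 k16_pp_022

theorem s43_pp_022 : ∃ t, chk3 f_pp_022 t 16 6 1 = true := ex3_b s42_pp_022 s40_pp_022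

theorem s44_pp_022 : ∃ t, chk3 f_pp_022 t 8 6 1 = true := ex3_a s43_pp_022 s39_pp_022

theorem s45_pp_022 : ∃ t, chk3 f_pp_022 t 4 6 1 = true := ex3_a s44_pp_022 s37_pp_022

theorem s46_pp_022 : ∃ t, chk3 f_pp_022 t 4 3 1 = true := ex3_b s45_pp_022 s36_pp_022

theorem s47_pp_022 : ∃ t, chk3 f_pp_022 t 2 3 1 = true := ex3_a s46_pp_022 k30_pp_022

theorem s48_pp_022 : ∃ t, chk3 f_pp_022 t 1 3 1 = true := ex3_a s47_pp_022 k31_pp_022

theorem s49_pp_022 : ∃ t, chk3 f_pp_022 t 17 5 1 = true := ex3_b k9_pp_022 k10_pp_022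

theorem s50_pp_022 : ∃ t, chk3 f_pp_022 t 16 10 1 = true := ex3_a k6_pp_022 k7_pp_022

theorem s51_pp_022 : ∃ t, chk3 f_pp_022 t 16 5 1 = true := ex3_b s50_pp_022 k8_pp_022

theorem s52_pp_022 : ∃ t, chk3 f_pp_022 t 8 5 1 = true := ex3_a s51_pp_022 s49_pp_022

theorem s53_pp_022 : ∃ t, chk3 f_pp_022 t 4 5 1 = true := ex3_a s52_pp_022 k11_pp_022

theorem s54_pp_022 : ∃ t, chk3 f_pp_022 t 32 9 1 = true := ex3_c k1_pp_022 k2_pp_022

theorem s55_pp_022 : ∃ t, chk3 f_pp_022 t 16 9 1 = true := ex3_a s54_pp_022 k3_pp_022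

theorem s56_pp_022 : ∃ t, chk3 f_pp_022 t 8 9 1 = true := ex3_a s55_pp_022 k4_pp_022

theorem s57_pp_022 : ∃ t, chk3 f_pp_022 t 4 9 1 = true := ex3_a s56_pp_022 k5_pp_022

theorem s58_pp_022 : ∃ t, chk3 f_pp_022 t 4 4 1 = true := ex3_b k0_pp_022 s57_pp_022

theorem s59_pp_022 : ∃ t, chk3 f_pp_022 t 4 2 1 = true := ex3_b s58_pp_022 s53_pp_022

theorem s60_pp_022 : ∃ t, chk3 f_pp_022 t 2 2 1 = true := ex3_a s59_pp_022 k12_pp_022

theorem s61_pp_022 : ∃ t, chk3 f_pp_022 t 1 2 1 = true := ex3_a s60_pp_022 k13_pp_022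

theorem s62_pp_022 : ∃ t, chk3 f_pp_022 t 1 1 1 = true := ex3_b s61_pp_022 s48_pp_022

theorem c_pp_022 : CertFX 0 536870912 0 536870912 1046898278 26843546 false true true .pp 0 2 2
    ndF5q0 ndF0q2 pcF2 Cut.none Ext.none :=
  certFX0 (fam := false) (s1 := true) (s2 := true) (a := 0) (b := 2) (c := 2) (cn := .pp) (n1 := ndF5q0) (n2 := ndF0q2) (pc := pcF2) (cut := Cut.none) (xt := Ext.none) (P1 := 0) (W1 := 536870912) (P2 := 0) (W2 := 536870912) (P3 := 1046898278) (W3 := 26843546)
    rfl s62_pp_022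

noncomputable def f_pp_101 : ℕ → ℕ → ℕ → ℕ → Bool := onCell 536870912 469762048 536870912 536870912 1046898278 26843546
    (rowFX 0 false true true .npn 1 0 1 (qsf 536870912 469762048 536870912 536870912 0) ndF5q1 ndF0q1 pcF0 Cut.none Ext.none)

def k0_pp_101 : ∃ t, chk3 f_pp_101 t 1 2 1 = true :=
  ⟨(l 3), by decide +kernel⟩

def k1_pp_101 : ∃ t, chk3 f_pp_101 t 1 6 1 = true :=
  ⟨(l 3), by decide +kernel⟩

def k2_pp_101 : ∃ t, chk3 f_pp_101 t 1 14 1 = true :=
  ⟨(l 3), by decide +kernel⟩

def k3_pp_101 : ∃ t, chk3 f_pp_101 t 2 15 1 = true :=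
  ⟨(b (l 3) (b (b (a (a (l 3) (l 3)) (l 3)) (a (c (a (c (l 15872232) (l 15879384)) (c (l 15872232) (l 15879384))) (a (c (l 15877704) (l 173038318775)) (c (l 198808236471) (l 206324315319)))) (a (c (c (l 223504284871) (l 246589592727)) (c (l 239073554871) (l 242294666423))) (a (l 3) (l 3))))) (a (c (a (c (l 15803536) (l 15797936)) (c (l 15803536) (l 15797936))) (a (c (b (l 15820656) (l 15766296)) (b (l 15814488) (l 15699560))) (c (b (l 15820656) (l 15766296)) (b (l 15814488) (c (l 15762272) (l 15760832)))))) (c (a (c (l 15803536) (b (l 15817560) (l 15774848))) (c (a (l 15803536) (l 206861131175)) (b (a (l 15817560) (l 221893575223)) (l 15774848)))) (a (c (b (a (l 15820656) (l 15820656)) (l 15766296)) (b (l 15814488) (a (l 15762472) (l 15762472)))) (c (b (a (l 210082242775) (b (l 15835112) (l 15804256))) (a (l 15766296) (l 15766296))) (b (a (l 15814488) (l 15814488)) (a (l 15762472) (l 15762472))))))))), by decide +kernel⟩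

def k4_pp_101 : ∃ t, chk3 f_pp_101 t 3 30 1 = true :=
  ⟨(l 3), by decide +kernel⟩

def k5_pp_101 : ∃ t, chk3 f_pp_101 t 6 62 1 = true :=
  ⟨(l 3), by decide +kernel⟩

def k6_pp_101 : ∃ t, chk3 f_pp_101 t 12 63 1 = true :=
  ⟨(a (c (b (c (l 15818672) (b (l 15830752) (l 15801512))) (c (l 15787456) (l 15774848))) (b (c (b (l 276117459399) (l 15804256)) (l 237999707591)) (c (l 15766296) (b (l 15773160) (l 15747328))))) (b (b (a (a (c (l 646558481255) (l 759838114343)) (l 3)) (l 3)) (c (a (c (l 15806936) (l 15800456)) (c (l 15760696) (b (l 15751680) (l 15754032)))) (a (c (b (l 244442002231) (l 15795944)) (l 15800120)) (c (b (l 265379794135) (c (l 15752376) (l 15755992))) (b (l 15750184) (l 15752560)))))) (c (a (l 15781240) (b (a (l 15759280) (l 15748616)) (a (l 15774008) (l 15758704)))) (a (c (l 15766296) (b (l 15773160) (l 15747328))) (c (b (a (l 15767296) (l 15734856)) (l 15745272)) (b (a (l 15765312) (l 15732336)) (a (l 15746832) (l 15730880)))))))), by decide +kernel⟩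

def k7_pp_101 : ∃ t, chk3 f_pp_101 t 13 63 1 = true :=
  ⟨(b (b (l 3) (a (c (a (c (l 15674240) (a (l 15682976) (l 15626792))) (c (l 15621744) (l 262695223079))) (c (a (a (c (l 15682552) (l 15684696)) (b (l 289538849959) (l 15647736))) (c (l 272895779207) (l 278801351927))) (a (a (l 15678736) (l 15642400)) (l 282022608855)))) (b (l 3) (c (c (l 15551904) (l 260547540951)) (c (c (l 269137477639) (a (l 269674450727) (l 276653669383))) (a (l 270748193623) (l 279338024903))))))) (c (a (a (a (c (l 15720880) (l 15707152)) (l 15659392)) (c (l 15650216) (l 15635336))) (c (l 15573568) (a (l 15583760) (l 15530904)))) (a (c (a (b (a (l 15689728) (l 15653376)) (l 15686296)) (b (b (l 15613624) (l 15617080)) (l 15631192))) (a (b (a (l 15686472) (l 15649544)) (a (l 15694600) (l 15661064))) (b (c (l 15613928) (l 15609096)) (c (l 15622208) (l 15619248))))) (c (b (a (c (l 15564432) (l 15562280)) (c (l 15512080) (l 15509544))) (l 15550736)) (b (a (b (l 15557792) (l 15560640)) (c (b (l 15508464) (l 15508296))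 (l 15503224))) (c (l 15540840) (b (l 15534192) (l 15538192)))))))), by decide +kernel⟩

def k8_pp_101 : ∃ t, chk3 f_pp_101 t 7 62 1 = true :=
  ⟨(l 3), by decide +kernel⟩

def k9_pp_101 : ∃ t, chk3 f_pp_101 t 7 126 1 = true :=
  ⟨(b (l 3) (b (l 3) (a (a (a (c (c (l 15476472) (l 15441368)) (c (c (l 278801061031) (l 282559143815)) (l 327119430375))) (l 3)) (l 3)) (l 3)))), by decide +kernel⟩

def k10_pp_101 : ∃ t, chk3 f_pp_101 t 14 127 1 = true :=
  ⟨(a (c (a (c (l 15494056) (l 204175998663)) (a (c (l 15453912) (l 15415144)) (b (b (c (l 253031414215) (l 256252482375)) (l 15422600)) (l 15432280)))) (a (c (b (c (l 15458664) (b (l 15455616) (l 15454552))) (l 15467136)) (b (c (b (c (l 15456480) (l 15454608)) (l 15453504)) (l 15448696)) (c (l 15456344) (b (l 15450008) (l 15452208))))) (c (a (b (b (c (l 15416680) (l 15415368)) (l 15416904)) (l 15424424)) (b (a (c (l 247662498919) (a (l 243904391751) (l 15397056))) (c (l 15434216) (l 247125709127))) (l 15426472))) (a (b (c (b (l 15382976) (l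 15412096)) (l 15407560)) (c (l 15413192) (b (l 15407088) (l 15408056)))) (b (c (b (a (a (l 250346830503) (l 15406480)) (l 15430120)) (a (a (l 15395944) (l 15404680)) (l 15428672))) (a (a (l 15391160) (l 15399848)) (l 15423848))) (c (b (l 15413080) (l 15416056)) (b (l 15409576) (l 15409744)))))))) (a (c (b (c (l 256789632919) (b (l 15548336) (l 15527064))) (l 15547416)) (c (b (b (c (l 15510728) (l 265379311287)) (c (l 15515152) (l 15510088))) (l 15522848)) (b (c (b (c (l 265379318967) (l 15467784)) (c (l 15509240) (l 15509720))) (b (l 261621230727) (l 15505744))) (c (l 15512776) (b (l 15507032) (l 15508744)))))) (c (b (c (a (l 15623552) (b (l 1294024468295) (l 15679928))) (b (l 266990371111) (l 15654720))) (c (l 15685888) (l 15671416))) (c (b (a (b (l 271285213207) (l 15610752)) (b (l 275043362807) (l 15675120))) (l 15657080)) (b (b (a (l 278264451943) (c (l 284170183335) (l 15665176))) (c (a (l 15608160) (l 15652264)) (l 15637720))) (c (l 15554136) (b (l 15642400) (l 15646952)))))))),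 by decide +kernel⟩

def k11_pp_101 : ∃ t, chk3 f_pp_101 t 15 254 1 = true :=
  ⟨(b (a (l 3) (l 3)) (a (c (c (a (a (l 279875460823) (a (l 280412388951) (b (l 279338772567) (l 15828760)))) (c (a (a (b (l 1278992430519) (l 15858552)) (b (l 3) (a (l 303498048455) (l 299739974647)))) (b (l 3) (b (l 273970179671) (l 15917856)))) (a (l 276654459783) (l 15885192)))) (a (l 15770856) (a (l 15851856) (l 15896528)))) (c (a (b (l 258400487495) (l 15763200)) (a (l 15842696) (l 15887664))) (a (c (b (l 15715504) (l 15761376)) (l 15736688)) (c (a (l 262158810983) (l 15888016)) (l 265380060919))))) (b (l 3) (a (c (c (a (c (l 273970285735) (l 15953440)) (l 295445223607)) (l 932710993319)) (c (l 15955552) (c (l 15955704) (l 15955968)))) (l 3))))), by decide +kernel⟩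

def k12_pp_101 : ∃ t, chk3 f_pp_101 t 15 255 1 = true :=
  ⟨(a (c (a (c (a (l 15781208) (b (l 15809312) (l 15848920))) (l 15797816)) (c (a (b (a (l 15872320) (l 15896576)) (l 15906496)) (c (b (l 15931848) (l 15954456)) (l 15936872))) (a (l 15883800) (l 15927632)))) (a (c (b (l 15776440) (l 15793784)) (c (b (l 15770184) (l 15784504)) (b (l 15769296) (l 15780904)))) (c (a (l 15872496) (l 15916608)) (c (b (l 15877816) (l 15897800)) (b (l 15809512) (l 15832072)))))) (c (a (c (a (b (c (l 15975536) (l 15968576)) (l 15994720)) (b (l 16016168) (l 16038760))) (a (l 15969936) (l 16012928))) (a (c (b (a (l 281486683927) (l 16086096)) (l 16087144)) (b (a (l 16037680) (l 16070192)) (l 16071744))) (c (a (b (l 271823150663) (l 16133200)) (c (b (b (l 268065110471) (l 16160816)) (l 16169952)) (l 277191947287))) (b (a (l 16104536) (l 259475123255)) (l 16133728))))) (a (c (l 15980640) (c (l 15975472) (b (l 15965136) (l 15982704)))) (a (c (b (l 16043592) (l 16061368)) (b (c (l 16040064) (a (l 16024152)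 (l 16057440))) (a (l 16040416) (l 16068528)))) (c (b (a (l 16094376) (l 250348265671)) (l 16123480)) (b (c (b (a (l 16090464) (l 242832065767)) (l 16109392)) (b (a (l 16091808) (c (l 239610851591) (l 238000245175))) (a (l 16093512) (c (l 16128408) (l 16128624))))) (c (l 16117544) (a (l 16078496) (b (c (l 16129864) (l 16130648)) (l 16113496)))))))))), by decide +kernel⟩

theorem s13_pp_101 : ∃ t, chk3 f_pp_101 t 15 127 1 = true := ex3_b k11_pp_101 k12_pp_101

theorem s14_pp_101 : ∃ t, chk3 f_pp_101 t 7 127 1 = true := ex3_a k10_pp_101 s13_pp_101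

theorem s15_pp_101 : ∃ t, chk3 f_pp_101 t 7 63 1 = true := ex3_b k9_pp_101 s14_pp_101

theorem s16_pp_101 : ∃ t, chk3 f_pp_101 t 7 31 1 = true := ex3_b k8_pp_101 s15_pp_101

theorem s17_pp_101 : ∃ t, chk3 f_pp_101 t 6 63 1 = true := ex3_a k6_pp_101 k7_pp_101

theorem s18_pp_101 : ∃ t, chk3 f_pp_101 t 6 31 1 = true := ex3_b k5_pp_101 s17_pp_101

theorem s19_pp_101 : ∃ t, chk3 f_pp_101 t 3 31 1 = true := ex3_a s18_pp_101 s16_pp_101

theorem s20_pp_101 : ∃ t, chk3 f_pp_101 t 3 15 1 = true := ex3_b k4_pp_101 s19_pp_101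

theorem s21_pp_101 : ∃ t, chk3 f_pp_101 t 1 15 1 = true := ex3_a k3_pp_101 s20_pp_101

theorem s22_pp_101 : ∃ t, chk3 f_pp_101 t 1 7 1 = true := ex3_b k2_pp_101 s21_pp_101

theorem s23_pp_101 : ∃ t, chk3 f_pp_101 t 1 3 1 = true := ex3_b k1_pp_101 s22_pp_101

theorem s24_pp_101 : ∃ t, chk3 f_pp_101 t 1 1 1 = true := ex3_b k0_pp_101 s23_pp_101

theorem c_pp_101 : CertFX 536870912 469762048 536870912 536870912 1046898278 26843546 false true true .npn 1 0 1
    ndF5q1 ndF0q1 pcF0 Cut.none Ext.none :=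
  certFX0 (fam := false) (s1 := true) (s2 := true) (a := 1) (b := 0) (c := 1) (cn := .npn) (n1 := ndF5q1) (n2 := ndF0q1) (pc := pcF0) (cut := Cut.none) (xt := Ext.none) (P1 := 536870912) (W1 := 469762048) (P2 := 536870912) (W2 := 536870912) (P3 := 1046898278) (W3 := 26843546)
    rfl s24_pp_101

noncomputable def f_pp_102 : ℕ → ℕ → ℕ → ℕ → Bool := onCell 536870912 469762048 0 536870912 1046898278 26843546
    (rowFX 0 false true true .npp 1 0 2 (qsf 536870912 469762048 0 536870912 0) ndF5q1 ndF0q2 pcF0 Cut.none Ext.none)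

def k0_pp_102 : ∃ t, chk3 f_pp_102 t 1 2 1 = true :=
  ⟨(a (a (l 2) (b (c (l 16777216) (b (l 16777216) (l 16777216))) (b (c (l 16777216) (l 16777216)) (l 16777216)))) (a (b (b (l 16737208) (a (l 16777216) (l 16631304))) (c (b (a (l 16777216) (l 16695280)) (l 16653832)) (a (l 16777216) (l 16609264)))) (a (b (a (c (l 16518512) (l 16511792)) (c (l 16151400) (l 16135144))) (a (b (l 16515152) (l 16515152)) (b (l 16143272) (l 16143272)))) (b (b (c (l 15400336) (l 15262912)) (a (l 15632304) (c (l 15156776) (l 15120080)))) (a (b (l 15632304) (a (l 15760168) (b (l 15399360) (a (l 15569272) (l 15469752))))) (b (c (l 15182096) (l 15146136)) (c (b (l 15224232) (l 15280968)) (b (a (l 15276632) (l 15096224)) (l 15239560))))))))), by decide +kernel⟩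

def k1_pp_102 : ∃ t, chk3 f_pp_102 t 2 3 1 = true :=
  ⟨(b (b (a (c (l 16777216) (l 16777216)) (c (l 16777216) (l 16777216))) (a (b (l 16728592) (l 16590024)) (b (l 16707616) (l 16590024)))) (b (a (b (l 16433656) (c (l 16253288) (l 16239680))) (b (c (l 16438056) (l 16429248)) (c (l 16253288) (l 16239680)))) (a (c (b (a (c (l 16045240) (l 15939312)) (c (b (l 16098872) (l 15992968)) (b (l 16084920) (l 15992768)))) (a (c (l 15849384) (b (l 15891568) (l 15796464))) (c (l 15849384) (b (l 15891568) (l 15796464))))) (b (a (c (b (l 16075984) (l 15985696)) (b (l 16067056) (l 15975608))) (c (b (l 16075984) (l 15985696)) (b (l 16067056) (l 15975608)))) (a (c (b (l 15892544) (l 15791016)) (c (l 15779784) (l 15795976))) (c (b (l 15892544) (l 15791016)) (b (l 15883352) (c (l 15788344) (l 15786320))))))) (a (b (b (l 16081376) (c (c (l 15992968) (l 15992768)) (c (l 15985696) (l 15975608)))) (c (c (l 15849384) (b (l 15891568) (l 15796464))) (c (b (l 15892544) (l 15791016)) (b (l 15883352) (b (l 15809760)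 (l 15760256)))))) (b (b (l 16081376) (c (c (l 15992968) (l 15992768)) (c (l 15985696) (l 15975608)))) (c (b (c (l 15887744) (l 15891568)) (a (l 15802400) (l 15802400))) (b (c (l 15892544) (l 15883352)) (c (a (l 15791016) (l 15791016)) (a (l 15788352) (l 15788352)))))))))), by decide +kernel⟩

def k2_pp_102 : ∃ t, chk3 f_pp_102 t 3 6 1 = true :=
  ⟨(a (b (a (l 16777216) (l 16694216)) (a (b (l 16728592) (l 16590024)) (b (l 16721272) (l 16656328)))) (a (b (a (l 16515152) (b (l 16143272) (l 16146360))) (b (a (l 16546696) (a (l 16304024) (l 16098320))) (a (b (l 16613232) (l 16664432)) (b (l 16318472) (l 16375096))))) (b (a (b (a (c (l 15782976) (l 15756936)) (c (l 15583936) (l 15553824))) (a (l 15811984) (l 15639848))) (c (b (l 15337880) (l 15408232)) (b (l 15308464) (l 15297200)))) (a (b (l 15850952) (l 16063880)) (b (c (l 15541688) (a (l 15603888) (l 15438960))) (c (l 15775464) (l 15756144))))))), by decide +kernel⟩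

def k3_pp_102 : ∃ t, chk3 f_pp_102 t 6 7 1 = true :=
  ⟨(b (b (a (l 16433656) (l 16503040)) (a (l 16246480) (b (l 16372200) (a (l 16218376) (l 16261216))))) (a (b (b (l 16081376) (c (c (l 15992968) (l 15992768)) (c (l 15985696) (l 15975608)))) (c (b (c (l 15887744) (l 15891568)) (a (l 15802400) (b (l 15819344) (a (l 15784424) (l 15782400))))) (b (c (l 15892544) (l 15883352)) (a (c (l 15791016) (l 15746408)) (b (c (l 15812816) (l 15809760)) (c (l 15764832) (c (l 15759016) (l 15715624)))))))) (a (b (b (l 16108952) (b (l 16036520) (c (a (l 15974040) (b (l 16031336) (l 16004464))) (a (l 15964968) (l 15925504))))) (b (c (a (b (l 15921760) (a (l 15865240) (l 15873760))) (b (l 15891200) (l 15876104))) (a (b (l 15919992) (a (l 15862960) (l 15871776))) (b (l 15953432) (c (l 15877576) (l 15870832))))) (c (a (b (a (l 15814816) (l 15811648)) (a (l 15763296) (l 15741968))) (b (l 15789512) (l 15706104))) (a (b (c (a (l 15808184) (l 15804936)) (a (l 15805048) (l 15801744))) (c (l 15732480) (a (l 15738240)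 (l 15716024)))) (c (b (l 15782264) (l 15685760)) (b (l 15778728) (l 15678712))))))) (b (a (b (l 16176144) (b (l 16088440) (c (l 16021424) (l 16013944)))) (b (l 16169592) (l 15897480))) (c (b (c (l 15848336) (b (l 15902160) (l 15797976))) (b (c (l 15711784) (l 15700720)) (l 15624792))) (b (c (b (l 15901880) (l 15800520)) (a (l 15872528) (l 15810768))) (b (c (l 15655936) (l 15693048)) (c (l 15602552) (c (l 15594832) (l 15487264)))))))))), by decide +kernel⟩

def k4_pp_102 : ∃ t, chk3 f_pp_102 t 7 14 1 = true :=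
  ⟨(a (a (b (a (l 16470696) (b (l 16697400) (l 16574136))) (b (a (l 16457000) (l 16423384)) (l 16270888))) (b (b (l 16529656) (l 16654344)) (b (l 16531040) (l 16377880)))) (a (b (a (l 16320848) (b (l 16173184) (l 16310184))) (b (a (l 16596664) (l 16415968)) (a (l 16532880) (l 16620904)))) (b (b (l 15874984) (c (l 16104016) (l 16093864))) (b (c (l 16185688) (l 16242456)) (a (l 16462696) (l 16171728)))))), by decide +kernel⟩

def k5_pp_102 : ∃ t, chk3 f_pp_102 t 14 15 1 = true :=
  ⟨(b (a (c (b (l 16095688) (l 15857704)) (b (l 16079456) (l 15907688))) (b (l 15964384) (c (l 15797032) (l 15997328)))) (a (c (b (a (b (l 15805752) (l 15709856)) (b (l 15669760) (l 15617680))) (a (b (l 15618808) (l 15539616)) (a (l 15534456) (b (l 15569016) (l 15494896))))) (b (a (b (l 15800520) (l 15702864)) (b (l 15704984) (a (l 15653952) (l 15648424)))) (a (c (b (l 15607648) (l 15515480)) (b (l 15601504) (b (l 15529920) (l 15481512)))) (c (b (a (l 15560768) (l 15556840)) (a (l 15470504) (l 15469864))) (b (a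 (l 15553960) (l 15550016)) (a (c (l 15461376) (l 15457720)) (b (l 15481792) (c (l 15437880) (l 15432672))))))))) (b (c (b (a (l 15826752) (l 15935192)) (a (l 15739224) (l 15876128))) (a (b (l 15822408) (c (l 15737736) (l 15729016))) (b (l 15955800) (c (l 15877784) (l 15871160))))) (c (a (b (l 15659344) (l 15589816)) (b (l 15798168) (l 15725920))) (c (b (a (l 15649312) (l 15791320)) (a (l 15567032) (l 15706256))) (b (a (l 15643912) (l 15788048)) (b (c (l 15628744) (l 15647144)) (c (l 15606040) (a (l 15532352) (l 15673024)))))))))), by decide +kernel⟩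

def k6_pp_102 : ∃ t, chk3 f_pp_102 t 15 30 1 = true :=
  ⟨(b (a (c (l 16287456) (l 16303240)) (a (l 16485744) (c (c (l 16409672) (l 16503056)) (l 16423752)))) (a (c (a (l 16228936) (l 16335384)) (l 16238152)) (c (a (c (l 16419024) (l 16454416)) (c (l 16439480) (l 16504936))) (a (l 16453328) (l 16463056))))), by decide +kernel⟩

def k7_pp_102 : ∃ t, chk3 f_pp_102 t 15 31 1 = true :=
  ⟨(c (a (b (b (a (l 16107896) (l 16258784)) (a (c (l 16021744) (l 16025800)) (c (b (l 16190688) (l 16151296)) (l 16113912)))) (a (a (b (l 15907280) (l 15830288)) (b (l 15981160) (l 15897528))) (c (b (a (l 16055888) (l 16117928)) (a (b (l 15991264) (l 15942848)) (l 16016968))) (b (l 16079976) (a (l 15956632) (l 16005792)))))) (b (b (a (c (l 16383008) (l 16394072)) (c (l 16476832) (l 16486112))) (a (b (l 16298552) (a (l 16206816) (l 16290376))) (c (l 16312008) (l 16292960)))) (b (a (c (l 16188568) (l 16180616)) (b (c (l 16282144) (l 16253200)) (a (l 16221712) (a (l 16255016) (l 16278832))))) (a (c (b (l 16108848)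 (l 16055136)) (l 16048288)) (a (c (b (l 16175056) (l 16122704)) (l 16071728)) (c (b (l 16224120) (l 16178264)) (b (l 16209296) (l 16162440)))))))) (a (b (b (l 16167800) (a (c (l 16031896) (l 16027520)) (c (b (l 16207232) (l 16162872)) (b (l 16203648) (l 16161472))))) (b (a (c (l 15772488) (l 15876224)) (c (b (l 16110072) (l 16054640)) (a (l 16052832) (l 16115744)))) (a (c (l 15721056) (b (c (l 15866296) (l 15865280)) (c (l 15815960) (l 15792560)))) (c (a (l 15947240) (l 15996752)) (b (a (l 15973456) (l 16026544)) (c (l 15937120) (a (l 15912088) (l 15959736)))))))) (b (b (a (l 16398872) (l 16491544)) (c (b (l 16288408) (a (l 16278448) (l 16359568))) (a (l 16196816) (l 16302272)))) (b (a (c (l 16162960) (l 16186192)) (a (c (l 16248752) (l 16251864)) (c (b (l 16323272) (l 16260088)) (b (l 16328216) (l 16223040))))) (a (c (l 16060504) (b (l 16091024) (l 16026176))) (c (a (l 16105192) (b (l 16201592) (l 16152656))) (a (b (l 16156680) (c (l 16092328) (l 16091768))) (b (c (l 16181704) (l 16203920))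 (c (l 16147472) (b (l 16161008) (c (l 16132984) (l 16132840)))))))))))), by decide +kernel⟩

theorem s8_pp_102 : ∃ t, chk3 f_pp_102 t 15 15 1 = true := ex3_b k6_pp_102 k7_pp_102

theorem s9_pp_102 : ∃ t, chk3 f_pp_102 t 7 15 1 = true := ex3_a k5_pp_102 s8_pp_102

theorem s10_pp_102 : ∃ t, chk3 f_pp_102 t 7 7 1 = true := ex3_b k4_pp_102 s9_pp_102

theorem s11_pp_102 : ∃ t, chk3 f_pp_102 t 3 7 1 = true := ex3_a k3_pp_102 s10_pp_102

theorem s12_pp_102 : ∃ t, chk3 f_pp_102 t 3 3 1 = true := ex3_b k2_pp_102 s11_pp_102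

theorem s13_pp_102 : ∃ t, chk3 f_pp_102 t 1 3 1 = true := ex3_a k1_pp_102 s12_pp_102

theorem s14_pp_102 : ∃ t, chk3 f_pp_102 t 1 1 1 = true := ex3_b k0_pp_102 s13_pp_102

theorem c_pp_102 : CertFX 536870912 469762048 0 536870912 1046898278 26843546 false true true .npp 1 0 2
    ndF5q1 ndF0q2 pcF0 Cut.none Ext.none :=
  certFX0 (fam := false) (s1 := true) (s2 := true) (a := 1) (b := 0) (c := 2) (cn := .npp) (n1 := ndF5q1) (n2 := ndF0q2) (pc := pcF0) (cut := Cut.none) (xt := Ext.none) (P1 := 536870912) (W1 := 469762048) (P2 := 0) (W2 := 536870912) (P3 := 1046898278) (W3 := 26843546)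
    rfl s14_pp_102

noncomputable def f_pp_112 : ℕ → ℕ → ℕ → ℕ → Bool := onCell 536870912 536870912 0 536870912 1046898278 26843546
    (rowFX 2 false true true .dn 1 1 2 (qsf 536870912 469762048 0 536870912 1) ndF5q1 ndF0q2 pcF1 Cut.none Ext.none)

def k0_pp_112 : ∃ t, chk3 f_pp_112 t 1 1 1 = true :=
  ⟨(a (a (b (b (b (c (l 16777216) (l 16777216)) (c (l 16777216) (l 16777216))) (b (l 16777216) (b (l 16777216) (l 16777216)))) (b (b (c (l 16777216) (l 219613757447)) (b (l 105260116295) (l 16569048))) (a (b (b (l 16433656) (l 16246480)) (a (c (b (l 16003576) (l 15850352)) (b (c (l 16031272) (l 16021768)) (c (l 15845568) (l 15842032)))) (b (c (l 16003576) (l 622802080279)) (l 1)))) (b (b (l 16433656) (l 1)) (l 1))))) (b (b (c (l 16777216) (l 396244287495)) (b (l 16777216) (c (l 1898945970183) (l 1851164458999)))) (b (l 1) (l 1)))) (l 1)), by decide +kernel⟩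

theorem c_pp_112 : CertFX 536870912 469762048 0 536870912 1046898278 26843546 false true true .dn 1 1 2
    ndF5q1 ndF0q2 pcF1 Cut.none Ext.none :=
  certFX2 (fam := false) (s1 := true) (s2 := true) (a := 1) (b := 1) (c := 2) (cn := .dn) (n1 := ndF5q1) (n2 := ndF0q2) (pc := pcF1) (cut := Cut.none) (xt := Ext.none) (P1 := 536870912) (W1 := 469762048) (P2 := 0) (W2 := 536870912) (P3 := 1046898278) (W3 := 26843546)
    rfl (fun _ => rfl) k0_pp_112

noncomputable def f_pp_202 : ℕ → ℕ → ℕ → ℕ → Bool := onCell 1073741824 536870912 0 536870912 1046898278 26843546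
    (rowFX 0 false true true .pp 2 0 2 (qsf 1073741824 536870912 0 536870912 0) ndF5q2 ndF0q2 pcF0 Cut.none Ext.none)

def k0_pp_202 : ∃ t, chk3 f_pp_202 t 1 1 1 = true :=
  ⟨(l 3), by decide +kernel⟩

theorem c_pp_202 : CertFX 1073741824 536870912 0 536870912 1046898278 26843546 false true true .pp 2 0 2
    ndF5q2 ndF0q2 pcF0 Cut.none Ext.none :=
  certFX0 (fam := false) (s1 := true) (s2 := true) (a := 2) (b := 0) (c := 2) (cn := .pp) (n1 := ndF5q2) (n2 := ndF0q2) (pc := pcF0) (cut := Cut.none) (xt := Ext.none) (P1 := 1073741824) (W1 := 536870912) (P2 := 0) (W2 := 536870912) (P3 := 1046898278) (W3 := 26843546)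
    rfl k0_pp_202

noncomputable def f_pm_001 : ℕ → ℕ → ℕ → ℕ → Bool := onCell 0 536870912 0 536870912 1046898278 26843546
    (rowFX 1 false true false .up 0 0 1 (qsf 0 536870912 536870912 536870912 0) ndF5q0 ndF0q1 pcF0 Cut.none Ext.none)

def k0_pm_001 : ∃ t, chk3 f_pm_001 t 1 1 1 = true :=
  ⟨(l 4), by decide +kernel⟩

theorem c_pm_001 : CertFX 0 536870912 536870912 536870912 1046898278 26843546 false true false .up 0 0 1
    ndF5q0 ndF0q1 pcF0 Cut.none Ext.none :=
  certFX1 (fam := false) (s1 := true) (s2 := false) (a := 0) (b := 0) (c := 1) (cn := .up) (n1 := ndF5q0) (n2 := ndF0q1) (pc := pcF0) (cut := Cut.none) (xt := Ext.none) (P1 := 0) (W1 := 536870912) (P2 := 536870912) (W2 := 536870912) (P3 := 1046898278) (W3 := 26843546)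
    rfl (fun _ => rfl) k0_pm_001

noncomputable def f_pm_011 : ℕ → ℕ → ℕ → ℕ → Bool := onCell 0 536870912 536870912 536870912 1046898278 26843546
    (rowFX 0 false true false .pnn 0 1 1 (qsf 0 536870912 536870912 536870912 1) ndF5q0 ndF0q1 pcF1 Cut.none Ext.none)

def k0_pm_011 : ∃ t, chk3 f_pm_011 t 1 1 1 = true :=
  ⟨(b (l 4) (l 4)), by decide +kernel⟩

theorem c_pm_011 : CertFX 0 536870912 536870912 536870912 1046898278 26843546 false true false .pnn 0 1 1
    ndF5q0 ndF0q1 pcF1 Cut.none Ext.none :=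
  certFX0 (fam := false) (s1 := true) (s2 := false) (a := 0) (b := 1) (c := 1) (cn := .pnn) (n1 := ndF5q0) (n2 := ndF0q1) (pc := pcF1) (cut := Cut.none) (xt := Ext.none) (P1 := 0) (W1 := 536870912) (P2 := 536870912) (W2 := 536870912) (P3 := 1046898278) (W3 := 26843546)
    rfl k0_pm_011

end Pool.Agent.Strip051.G.IE1.Tab.C.FB50

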