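import Pool.Agent.Strip051.G.IE1.Tab

/-! # Certificates F51 (generated) -/

set_option linter.all false
set_option maxRecDepth 100000

namespace Pool.Agent.Strip051.G.IE1.Tab.C.FB50

open Pool.Agent.Strip051.PB Pool.Agent.Strip051.PB.T
open Pool.Agent.Strip051.G.IE1.Tab

noncomputable def f_pm_012 : ℕ → ℕ → ℕ → ℕ → Bool := onCell 536870912 536870912 0 536870912 1046898278 26843546
    (rowFX 2 false true false .pnp 0 1 2 (qsf 0 536870912 0 536870912 1) ndF5q0 ndF0q2 pcF1 Cut.none Ext.none)

def k0_pm_012 : ∃ t, chk3 f_pm_012 t 2 2 1 = true :=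
  ⟨(b (a (l 2) (a (b (l 16777216) (b (l 16777216) (l 16772176))) (c (l 16777216) (l 16777216)))) (b (a (l 2) (a (a (l 16756464) (l 16696424)) (b (l 16723960) (l 16529608)))) (b (a (l 2) (a (l 16651800) (a (l 16388072) (l 16212008)))) (l 4)))), by decide +kernel⟩

def k1_pm_012 : ∃ t, chk3 f_pm_012 t 6 2 1 = true :=
  ⟨(a (b (b (l 16775416) (a (l 16777184) (b (l 16768736) (a (l 16764704) (l 16754184))))) (b (a (b (l 16750008) (l 16540960)) (b (a (l 16681712) (l 16580664)) (b (l 16478056) (l 16187720)))) (b (a (l 15951296) (b (l 16001992) (l 15745776))) (l 4)))) (b (a (b (l 16765624) (b (l 16766888) (c (l 16747504) (l 16756224)))) (b (c (l 16652216) (l 16648976)) (a (l 16741488) (l 16483176)))) (b (b (a (a (b (l 16659696) (l 16415480)) (b (b (l 16756656) (a (l 16592024) (l 16673496))) (l 16441856))) (a (b (a (c (l 16731152) (l 16743568)) (a (l 16627256) (l 16640432))) (a (c (a (l 16495368) (l 16599216)) (l 16494272)) (b (c (l 16623456) (l 16632816)) (l 16416200)))) (b (l 16444000) (a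 (c (l 16453160) (a (b (l 16511176) (l 16437136)) (l 16366432))) (l 16098376))))) (a (b (l 16180472) (a (l 16054848) (l 15866496))) (b (a (l 16133200) (b (a (l 16101640) (a (l 16012384) (l 16071384))) (l 15859400))) (a (l 15758816) (l 15774168))))) (b (a (a (l 15690256) (l 15541104)) (b (a (l 15449512) (l 15454704)) (l 15244296))) (b (a (l 15382976) (a (l 15146792) (l 15001496))) (l 4)))))), by decide +kernel⟩

def k2_pm_012 : ∃ t, chk3 f_pm_012 t 7 4 1 = true :=
  ⟨(a (a (b (l 15999288) (l 15838080)) (b (c (l 15852336) (l 15828320)) (c (l 15641048) (l 15611568)))) (a (c (b (l 15525344) (l 15253304)) (b (l 15611248) (l 15341560))) (c (b (a (l 15472376) (l 15451656)) (a (l 15137848) (l 15095456))) (b (b (l 15483192) (l 15238208)) (c (l 14987352) (l 15139296)))))), by decide +kernel⟩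

def k3_pm_012 : ∃ t, chk3 f_pm_012 t 14 5 1 = true :=
  ⟨(b (a (b (a (c (l 16115240) (l 16040544)) (l 15815984)) (a (b (c (a (l 15994080) (l 15968096)) (a (b (l 16133864) (l 15973640)) (l 15890424))) (a (l 15753056) (l 15755288))) (b (a (l 15807224) (l 15683536)) (a (b (l 15592456) (l 15639648)) (c (l 15631768) (l 15606496)))))) (a (c (l 15519096) (l 15408672)) (l 15342520))) (b (b (a (a (l 15419640) (a (l 15419872) (l 15407832))) (a (b (c (l 15422864) (a (l 15412064) (l 15344296))) (c (l 15330784) (l 15261064))) (a (a (c (l 15304720) (l 15271760)) (l 15250816)) (c (l 15203936) (l 15169664))))) (a (a (l 15172368) (a (l 15157792) (c (l 15144768) (l 15103736)))) (b (a (l 15141472) (a (l 15065792) (c (l 15180344) (l 15144688)))) (a (c (l 15023648) (l 14987080)) (a (l 15008896) (c (l 15047856) (l 15018528))))))) (a (c (a (l 15066280) (b (l 14841744) (l 14670272))) (a (l 15021840) (b (l 14790712) (l 14613944)))) (b (b (c (a (l 14913520) (a (l 14892816) (l 14886840))) (a (l 14876128) (a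 (l 14861872) (l 14858408)))) (c (a (l 14750120) (a (l 14763992) (l 14770680))) (a (l 14712296) (a (l 14733216) (l 14746128))))) (c (a (b (l 14623952) (l 4)) (c (l 14686184) (l 14609144))) (a (l 14708584) (l 14665056))))))), by decide +kernel⟩

def k4_pm_012 : ∃ t, chk3 f_pm_012 t 15 5 1 = true :=
  ⟨(a (b (c (l 15107680) (l 15115040)) (b (a (a (b (l 15124624) (c (a (b (l 15119168) (l 14948432)) (b (l 15095312) (l 15059464))) (b (l 15063880) (l 15043824)))) (c (l 14887064) (l 14995664))) (l 14876480)) (a (b (b (c (a (a (l 14901912) (l 14933544)) (a (l 14956088) (l 14945560))) (a (l 14904408) (a (l 14934048) (l 14929592)))) (a (c (c (l 14753040) (l 14765008)) (l 14738928)) (c (a (l 14784544) (l 14808728)) (l 14858464)))) (b (c (a (c (l 14634976) (l 14655496)) (a (l 14657016) (l 14653704))) (a (l 14631096) (l 14626880))) (c (c (l 14568864) (l 14591208)) (l 14577640)))) (c (c (a (b (l 14616240) (l 14583184)) (b (l 14689032) (b (l 14672352) (l 14507568)))) (b (a (c (a (l 14844736) (l 14847776))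 (l 14860448)) (a (l 14605328) (l 14760912))) (a (l 14405392) (b (a (l 14760880) (l 14720816)) (l 14540576))))) (b (b (l 14829704) (a (a (l 14830912) (b (l 14836336) (l 14804240))) (c (l 14579376) (l 14742864)))) (a (c (l 14471808) (l 14596816)) (b (c (l 14659616) (l 14739608)) (c (l 14559264) (l 14541776))))))))) (b (c (a (l 14851392) (l 14791280)) (a (l 14910216) (l 14788992))) (a (a (b (l 14704296) (c (a (l 14372104) (l 14537696)) (c (c (l 14599704) (l 14686536)) (l 14668720)))) (b (l 14643400) (a (c (l 14510824) (c (l 14608704) (l 14609560))) (l 14522584)))) (c (l 14543992) (c (l 14535944) (l 14544464)))))), by decide +kernel⟩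

def k5_pm_012 : ∃ t, chk3 f_pm_012 t 1 3 1 = true :=
  ⟨(a (l 4) (b (a (l 4) (b (b (a (l 4) (a (c (a (c (l 14603432) (l 14626256)) (a (l 14534128) (c (l 14543856) (l 14577352)))) (a (l 14613400) (c (c (l 14401432) (l 14629248)) (l 14568144)))) (c (a (a (l 14484104) (a (c (l 14470648) (l 14526104)) (l 14203640))) (c (l 14433888) (l 14393792))) (a (c (a (c (l 14521224) (l 14530624)) (b (a (c (l 14572264) (l 14388008)) (a (l 14511776) (l 14496792))) (l 14417464))) (a (l 14519576) (b (c (a (l 14549240) (l 14541720)) (l 14556008)) (l 14422448)))) (c (a (a (l 14458392) (l 14400320)) (l 14374120)) (a (c (a (l 14503688) (l 14440664)) (l 14473656)) (c (l 14369152) (a (l 14394624) (l 14348176))))))))) (l 4)) (l 4))) (l 4))), by decide +kernel⟩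

theorem s6_pm_012 : ∃ t, chk3 f_pm_012 t 7 5 1 = true := ex3_a k3_pm_012 k4_pm_012

theorem s7_pm_012 : ∃ t, chk3 f_pm_012 t 7 2 1 = true := ex3_b k2_pm_012 s6_pm_012

theorem s8_pm_012 : ∃ t, chk3 f_pm_012 t 3 2 1 = true := ex3_a k1_pm_012 s7_pm_012

theorem s9_pm_012 : ∃ t, chk3 f_pm_012 t 1 2 1 = true := ex3_a k0_pm_012 s8_pm_012

theorem s10_pm_012 : ∃ t, chk3 f_pm_012 t 1 1 1 = true := ex3_b s9_pm_012 k5_pm_012

theorem c_pm_012 : CertFX 0 536870912 0 536870912 1046898278 26843546 false true false .pnp 0 1 2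
    ndF5q0 ndF0q2 pcF1 Cut.none Ext.none :=
  certFX2 (fam := false) (s1 := true) (s2 := false) (a := 0) (b := 1) (c := 2) (cn := .pnp) (n1 := ndF5q0) (n2 := ndF0q2) (pc := pcF1) (cut := Cut.none) (xt := Ext.none) (P1 := 0) (W1 := 536870912) (P2 := 0) (W2 := 536870912) (P3 := 1046898278) (W3 := 26843546)
    rfl (fun _ => rfl) s10_pm_012

noncomputable def f_pm_022 : ℕ → ℕ → ℕ → ℕ → Bool := onCell 0 536870912 0 536870912 1046898278 26843546
    (rowFX 0 false true false .pp 0 2 2 (qsf 0 536870912 0 536870912 2) ndF5q0 ndF0q2 pcF2 Cut.none Ext.none)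

def k0_pm_022 : ∃ t, chk3 f_pm_022 t 8 4 1 = true :=
  ⟨(a (a (c (b (a (c (l 16276840) (a (l 16354264) (l 16390584))) (c (a (b (l 16410728) (l 16391000)) (b (l 16340152) (l 16335776))) (a (c (l 16404960) (l 16418976)) (b (l 16367184) (l 16362816))))) (a (b (l 16339136) (b (l 16470656) (l 16341400))) (b (a (c (l 16299472) (l 16354408)) (c (l 16332976) (l 16360128))) (a (c (l 16324552) (l 16358352)) (l 16253344))))) (b (a (c (a (l 16349760) (c (l 16497032) (l 16503856))) (c (a (l 16396344) (l 16505080)) (l 16240504))) (c (b (l 16266064) (a (l 16417224) (l 16347248))) (b (l 16370784) (l 16359648)))) (a (c (b (l 16310376) (a (l 16487832) (l 16343800))) (a (c (l 16487944) (l 16422456)) (b (l 16453248) (l 16406504)))) (b (c (a (l 16387856) (l 16344376)) (l 16282160)) (c (l 16293024) (l 16333768)))))) (b (c (c (a (b (l 16357216) (l 16355712)) (l 16309496)) (c (l 16251440) (l 16314048))) (c (l 16225904) (l 16273424))) (c (c (a (l 16330888) (l 16320184)) (b (l 16310168) (l 16295952))) (c (l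 16248040) (l 16253104))))) (c (b (a (c (l 16145336) (b (l 16246568) (l 16212104))) (c (b (l 16187424) (l 16130096)) (l 16141416))) (a (b (l 16178872) (l 16160512)) (c (b (l 16073224) (l 16011600)) (l 16025384)))) (b (c (a (l 16213064) (l 16135200)) (b (l 16194584) (l 16147248))) (b (a (l 16155264) (l 16043232)) (a (l 16114408) (l 15981288)))))), by decide +kernel⟩

def k1_pm_022 : ∃ t, chk3 f_pm_022 t 8 5 1 = true :=
  ⟨(a (b (a (c (a (b (a (l 16454272) (l 16383904)) (l 16400464)) (c (l 16224488) (a (l 16347304) (l 16344624)))) (a (b (a (c (l 16433040) (a (l 16438472) (l 16403792))) (c (l 16380800) (l 16359152))) (c (l 16321280) (a (l 16398864) (l 16367544)))) (c (l 16340848) (l 16317888)))) (c (c (a (l 16315200) (l 16257048)) (l 16106368)) (b (l 16227752) (l 16185896)))) (c (a (a (b (l 16375224) (l 16325624)) (c (b (l 16277904) (l 16214496)) (b (l 16289416) (l 16225296)))) (b (a (l 16230608) (l 16147432)) (a (l 16161816) (l 16074848)))) (a (a (c (a (l 16362080) (l 16251096)) (a (c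 (l 16355792) (l 16309728)) (l 16312088))) (c (l 16174592) (l 16233312))) (b (l 16127848) (l 16052800))))) (b (c (a (b (l 16113040) (l 16055024)) (a (b (l 15977736) (l 15891976)) (b (l 15880376) (l 15678568)))) (a (l 15995904) (b (l 15910776) (l 15823128)))) (c (a (b (l 15801904) (c (l 15765400) (l 15862120))) (b (c (l 15475968) (l 15731968)) (c (l 15587864) (l 15592864)))) (a (b (l 15930024) (l 15832208)) (b (l 15714640) (l 15584856)))))), by decide +kernel⟩

def k2_pm_022 : ∃ t, chk3 f_pm_022 t 9 2 1 = true :=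
  ⟨(b (a (c (b (b (a (c (l 16051024) (l 16093520)) (l 15918512)) (a (a (l 16042904) (l 15975584)) (l 15815032))) (a (b (a (l 15961928) (l 15879320)) (a (l 15878088) (l 15773088))) (c (l 15641352) (l 15653544)))) (b (a (b (l 16083040) (l 15997888)) (l 15860528)) (a (b (l 15910696) (l 15816320)) (l 15644104)))) (c (b (b (l 15447152) (l 15369488)) (c (l 15300184) (l 15075272))) (b (c (l 15536640) (l 15545352)) (c (l 15205184) (l 15297096))))) (a (b (c (a (b (c (l 15711504) (l 15726968)) (l 15591688)) (c (l 15382424) (l 15402072))) (a (l 15462024) (l 15391152))) (c (a (c (l 15364312) (l 15367312)) (b (l 15180056) (l 15011576))) (c (a (l 15384688) (l 15108368)) (l 15239904)))) (c (b (a (l 15072808) (l 14911832)) (b (l 14793504) (l 14628248))) (b (c (a (l 15141688) (l 14902064)) (l 15026040)) (c (a (l 14816968) (l 14568904)) (a (l 14818576) (l 14562128))))))), by decide +kernel⟩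

def k3_pm_022 : ∃ t, chk3 f_pm_022 t 5 2 1 = true :=
  ⟨(a (a (b (c (b (l 15182128) (l 14904480)) (b (c (l 15162288) (l 15155424)) (c (l 14879760) (l 14870728)))) (c (b (l 14605552) (l 14277760)) (b (c (l 14570512) (l 14556160)) (c (l 14230552) (l 14206072))))) (b (b (l 1) (l 1)) (l 1))) (l 1)), by decide +kernel⟩

def k4_pm_022 : ∃ t, chk3 f_pm_022 t 2 3 1 = true :=
  ⟨(a (b (a (a (b (c (a (a (b (l 16249184) (l 16157224)) (c (b (l 16134112) (l 16019656)) (b (l 16144016) (l 16046224)))) (b (a (l 16035712) (c (l 15989824) (l 15947640))) (a (c (l 15837568) (l 15965024)) (c (l 15847920) (l 15819976))))) (a (a (c (b (l 16170608) (l 16117072)) (a (b (l 16206952) (l 16131184)) (l 16028392))) (c (l 15947448) (l 16065448))) (b (l 15833344) (a (l 15838520) (l 15765688))))) (b (a (c (a (c (l 16018728) (l 16080808)) (c (b (l 15813672) (l 15840920)) (a (l 15986984) (l 15962344)))) (a (c (a (l 16100056) (l 15953488)) (a (l 15961744) (l 16031144))) (c (b (l 15963856) (l 15961232)) (l 15826704))))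 (c (c (a (l 15752040) (l 15740272)) (a (l 15804392) (l 15718272))) (b (l 15745608) (l 15751640)))) (b (a (a (a (b (c (l 16121368) (a (l 16112640) (l 16014848))) (l 4)) (l 4)) (l 4)) (l 4)) (l 4)))) (a (b (c (b (c (l 15670304) (l 15516216)) (c (l 15590920) (l 15576488))) (b (l 15707000) (l 15558176))) (b (b (b (c (l 15297400) (l 15467688)) (l 4)) (l 4)) (l 4))) (b (c (c (b (l 15423232) (l 15252064)) (b (l 15436840) (l 15265888))) (b (l 15440344) (l 15209304))) (l 4)))) (b (a (c (b (c (l 14979968) (l 14842336)) (a (l 14970560) (l 14698880))) (b (a (l 15143608) (c (l 14840736) (l 14838672))) (a (c (l 14981592) (l 14973792)) (c (l 14683176) (l 14688160))))) (c (l 14418448) (b (c (l 14433088) (a (l 14538184) (l 14285552))) (a (l 14418816) (l 1))))) (l 4))) (l 4)) (b (l 1) (l 1))), by decide +kernel⟩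

def k5_pm_022 : ∃ t, chk3 f_pm_022 t 3 1 1 = true :=
  ⟨(l 1), by decide +kernel⟩

theorem s6_pm_022 : ∃ t, chk3 f_pm_022 t 8 2 1 = true := ex3_b k0_pm_022 k1_pm_022

theorem s7_pm_022 : ∃ t, chk3 f_pm_022 t 4 2 1 = true := ex3_a s6_pm_022 k2_pm_022

theorem s8_pm_022 : ∃ t, chk3 f_pm_022 t 2 2 1 = true := ex3_a s7_pm_022 k3_pm_022

theorem s9_pm_022 : ∃ t, chk3 f_pm_022 t 2 1 1 = true := ex3_b s8_pm_022 k4_pm_022

theorem s10_pm_022 : ∃ t, chk3 f_pm_022 t 1 1 1 = true := ex3_a s9_pm_022 k5_pm_022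

theorem c_pm_022 : CertFX 0 536870912 0 536870912 1046898278 26843546 false true false .pp 0 2 2
    ndF5q0 ndF0q2 pcF2 Cut.none Ext.none :=
  certFX0 (fam := false) (s1 := true) (s2 := false) (a := 0) (b := 2) (c := 2) (cn := .pp) (n1 := ndF5q0) (n2 := ndF0q2) (pc := pcF2) (cut := Cut.none) (xt := Ext.none) (P1 := 0) (W1 := 536870912) (P2 := 0) (W2 := 536870912) (P3 := 1046898278) (W3 := 26843546)
    rfl s10_pm_022

noncomputable def f_pm_101 : ℕ → ℕ → ℕ → ℕ → Bool := onCell 536870912 469762048 536870912 536870912 1046898278 26843546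
    (rowFX 0 false true false .npn 1 0 1 (qsf 536870912 469762048 536870912 536870912 0) ndF5q1 ndF0q1 pcF0 Cut.none Ext.none)

def k0_pm_101 : ∃ t, chk3 f_pm_101 t 1 1 1 = true :=
  ⟨(l 4), by decide +kernel⟩

theorem c_pm_101 : CertFX 536870912 469762048 536870912 536870912 1046898278 26843546 false true false .npn 1 0 1
    ndF5q1 ndF0q1 pcF0 Cut.none Ext.none :=
  certFX0 (fam := false) (s1 := true) (s2 := false) (a := 1) (b := 0) (c := 1) (cn := .npn) (n1 := ndF5q1) (n2 := ndF0q1) (pc := pcF0) (cut := Cut.none) (xt := Ext.none) (P1 := 536870912) (W1 := 469762048) (P2 := 536870912) (W2 := 536870912) (P3 := 1046898278) (W3 := 26843546)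
    rfl k0_pm_101

noncomputable def f_pm_102 : ℕ → ℕ → ℕ → ℕ → Bool := onCell 536870912 469762048 0 536870912 1046898278 26843546
    (rowFX 0 false true false .npp 1 0 2 (qsf 536870912 469762048 0 536870912 0) ndF5q1 ndF0q2 pcF0 Cut.none Ext.none)

def k0_pm_102 : ∃ t, chk3 f_pm_102 t 1 1 1 = true :=
  ⟨(b (a (a (l 2) (b (b (l 16777216) (l 16777216)) (c (l 16777216) (l 16777216)))) (a (b (b (l 16737208) (a (l 16777216) (l 16694216))) (c (b (l 16737720) (l 16737720)) (b (l 16736696) (l 16652808)))) (a (b (b (a (l 16515152) (l 16143272)) (a (l 16515152) (l 16143272))) (c (a (l 16518512) (l 16151400)) (a (l 16511792) (l 16135144)))) (b (b (c (l 15337224) (a (l 15617760) (l 15112632))) (c (l 15401416) (l 15326936))) (b (c (l 15402800) (l 15118640)) (c (a (l 15646952) (l 15150528)) (a (l 15617928) (l 15113648)))))))) (l 4)), by decide +kernel⟩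

theorem c_pm_102 : CertFX 536870912 469762048 0 536870912 1046898278 26843546 false true false .npp 1 0 2
    ndF5q1 ndF0q2 pcF0 Cut.none Ext.none :=
  certFX0 (fam := false) (s1 := true) (s2 := false) (a := 1) (b := 0) (c := 2) (cn := .npp) (n1 := ndF5q1) (n2 := ndF0q2) (pc := pcF0) (cut := Cut.none) (xt := Ext.none) (P1 := 536870912) (W1 := 469762048) (P2 := 0) (W2 := 536870912) (P3 := 1046898278) (W3 := 26843546)
    rfl k0_pm_102

noncomputable def f_pm_112 : ℕ → ℕ → ℕ → ℕ → Bool := onCell 536870912 469762048 0 536870912 1046898278 26843546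
    (rowFX 0 false true false .dn 1 1 2 (qsf 536870912 469762048 0 536870912 1) ndF5q1 ndF0q2 pcF1 Cut.none Ext.none)

def k0_pm_112 : ∃ t, chk3 f_pm_112 t 1 1 1 = true :=
  ⟨(b (a (b (b (a (l 16777216) (l 16777216)) (a (b (l 16777216) (l 16776688)) (l 16777216))) (c (a (a (l 16773912) (l 16777216)) (l 16777216)) (a (a (l 16773832) (l 16777216)) (l 252362883079)))) (l 1)) (l 4)), by decide +kernel⟩

theorem c_pm_112 : CertFX 536870912 469762048 0 536870912 1046898278 26843546 false true false .dn 1 1 2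
    ndF5q1 ndF0q2 pcF1 Cut.none Ext.none :=
  certFX0 (fam := false) (s1 := true) (s2 := false) (a := 1) (b := 1) (c := 2) (cn := .dn) (n1 := ndF5q1) (n2 := ndF0q2) (pc := pcF1) (cut := Cut.none) (xt := Ext.none) (P1 := 536870912) (W1 := 469762048) (P2 := 0) (W2 := 536870912) (P3 := 1046898278) (W3 := 26843546)
    rfl k0_pm_112

noncomputable def f_pm_202 : ℕ → ℕ → ℕ → ℕ → Bool := onCell 0 536870912 0 536870912 1046898278 26843546
    (rowFX 2 false true false .pp 2 0 2 (qsf 1073741824 536870912 0 536870912 0) ndF5q2 ndF0q2 pcF0 Cut.none Ext.none)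

def k0_pm_202 : ∃ t, chk3 f_pm_202 t 2 2 1 = true :=
  ⟨(l 3), by decide +kernel⟩

def k1_pm_202 : ∃ t, chk3 f_pm_202 t 16 12 1 = true :=
  ⟨(l 3), by decide +kernel⟩

def k2_pm_202 : ∃ t, chk3 f_pm_202 t 16 26 1 = true :=
  ⟨(l 3), by decide +kernel⟩

def k3_pm_202 : ∃ t, chk3 f_pm_202 t 16 54 1 = true :=
  ⟨(b (l 3) (a (b (l 3) (c (a (a (c (l 16263344) (l 16258448)) (c (l 16226736) (l 16221640))) (a (a (a (l 16182280) (l 16174536)) (l 169280887767)) (c (l 16161000) (l 16117200)))) (c (a (a (a (l 16263264) (l 16244176)) (l 16199248)) (c (a (l 16192336) (l 16163584)) (a (l 16197904) (l 16175488)))) (a (c (a (a (a (l 16265048) (l 16254448)) (l 16242592)) (l 16225912)) (a (a (a (c (l 16263120) (c (l 16262616) (l 16263264))) (l 16255880)) (c (l 16245600) (l 16249328))) (c (l 16232976) (l 16233896)))) (c (a (c (l 16205784) (l 16212040)) (l 16187240)) (l 16203096)))))) (c (a (a (b (l 3) (c (l 16129064) (l 16131224))) (c (b (l 166059476071) (c (l 16099328) (l 16100648))) (b (l 16107880)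 (l 16110232)))) (c (b (c (a (l 161764463511) (l 16028280)) (l 16065848)) (c (a (l 16052920) (l 16053648)) (l 16069576))) (b (c (l 16075632) (l 16092872)) (c (l 16079288) (l 16095888))))) (c (a (c (a (l 16146512) (l 16092576)) (c (a (l 16159000) (l 16146848)) (l 198808634007))) (c (b (l 16108600) (c (l 16108800) (l 16113808))) (l 16119464))) (l 208472250199))))), by decide +kernel⟩

def k4_pm_202 : ∃ t, chk3 f_pm_202 t 64 55 1 = true :=
  ⟨(c (c (a (b (l 16241016) (l 16268160)) (b (b (l 16220016) (l 16219472)) (l 16227712))) (a (b (l 16257896) (l 16267248)) (c (b (l 16216464) (l 16227832)) (a (l 16210952) (b (l 16204664) (l 16216528)))))) (c (a (a (b (l 16240432) (l 16275880)) (b (b (l 16241384) (c (l 16247576) (l 16249496))) (c (l 16265216) (a (l 16274256) (c (l 16269264) (b (l 16262256) (l 16278456))))))) (c (b (a (l 16223376) (l 16209264)) (a (l 16246088) (l 16220368))) (a (b (b (l 16225440) (l 16227816)) (c (l 16248952) (b (l 16240200) (l 16252824)))) (c (b (l 16214936) (l 16221456))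 (a (l 16218648) (l 16214184)))))) (a (c (a (a (l 16270168) (b (b (l 16233432) (l 16268992)) (l 16275888))) (c (b (b (l 16241208) (a (l 16258296) (l 16245768))) (a (l 16250960) (l 16240832))) (a (b (b (l 16225848) (l 16261960)) (l 16267384)) (b (l 16240856) (l 16252424))))) (c (a (a (l 16273200) (c (l 16218008) (l 16261744))) (l 16249440)) (a (a (a (l 16281616) (l 16275104)) (l 16266168)) (l 16254672)))) (c (a (c (a (b (l 16233440) (l 16246312)) (l 16226680)) (l 16233504)) (l 16224320)) (l 16236104))))), by decide +kernel⟩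

def k5_pm_202 : ∃ t, chk3 f_pm_202 t 65 55 1 = true :=
  ⟨(a (c (b (c (c (b (l 16189240) (l 16158744)) (a (l 16191968) (b (l 16178912) (l 16171640)))) (c (a (l 16190848) (l 16178088)) (l 16186784))) (c (a (b (l 16183232) (l 16193440)) (c (l 16165792) (l 16168984))) (c (a (l 16190368) (l 16177912)) (l 16193248)))) (c (b (c (l 16169624) (l 16196872)) (c (a (l 16205376) (l 16198528)) (l 16210680))) (c (c (l 16202632) (l 16146120)) (l 16210104)))) (c (b (c (b (l 16158448) (a (l 16160600) (l 16150872))) (b (l 16118208) (a (l 16171408) (l 16160232)))) (c (c (c (a (l 16152000) (l 16143000)) (l 16151184)) (l 16156688)) (c (l 16164072) (l 16150864)))) (c (c (b (b (l 16166192) (l 16180680)) (l 16180208)) (b (b (l 16177536) (l 16190304)) (l 16190736))) (c (b (c (l 16191416) (l 16193384)) (l 16197984)) (l 16189376))))), by decide +kernel⟩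

def k6_pm_202 : ∃ t, chk3 f_pm_202 t 33 55 1 = true :=
  ⟨(c (c (a (b (b (a (b (l 16131352) (l 16132616)) (c (b (l 16082392) (l 16105248)) (l 16086208))) (a (l 16134704) (l 16111744))) (a (b (l 16137920) (a (l 16142960) (l 16135344))) (b (l 16117168) (c (l 16118640) (l 16126224))))) (b (b (c (a (a (l 16064824) (l 16075720)) (l 16061472)) (l 16077608)) (c (l 16077592) (l 16084288))) (a (l 16101256) (l 16082064)))) (a (a (b (a (l 16101296) (l 16131928)) (b (l 16151512) (l 16155864))) (b (c (l 16113152) (l 16121408)) (b (l 16131632) (l 16138600)))) (b (b (a (c (l 16094256) (l 16106696)) (c (l 16078848) (l 16096456))) (l 16102104)) (a (l 16118992) (l 16104064))))) (c (c (c (a (b (l 16140064) (l 16157424)) (b (b (a (l 16120840) (l 16109080)) (l 16119512)) (l 16135496))) (a (b (l 16127168) (l 16163480)) (b (a (l 16106808) (l 16112096)) (l 16138392)))) (a (b (b (c (a (l 16159224) (l 16148344)) (l 16157664)) (l 16161008)) (c (l 16147376) (l 16171264))) (b (l 16120264) (l 16138784)))) (b (a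 (l 16159200) (l 16114488)) (a (l 16169832) (l 16133128))))), by decide +kernel⟩

def k7_pm_202 : ∃ t, chk3 f_pm_202 t 17 12 1 = true :=
  ⟨(l 3), by decide +kernel⟩

def k8_pm_202 : ∃ t, chk3 f_pm_202 t 17 26 1 = true :=
  ⟨(l 3), by decide +kernel⟩

def k9_pm_202 : ∃ t, chk3 f_pm_202 t 17 54 1 = true :=
  ⟨(b (b (l 3) (b (l 3) (a (l 3) (c (c (a (a (l 3) (c (c (a (l 287928959095) (c (l 188607830679) (l 15963880))) (l 15976864)) (l 193439708343))) (c (a (c (l 189681563671) (b (l 3) (l 191292167287))) (c (c (a (l 15954712) (a (c (l 15952544) (l 15955496)) (c (l 191292178183) (l 15951880)))) (a (b (l 246053035831) (l 15960888)) (l 15953352))) (l 15956360))) (l 15962672))) (l 199882187943)) (l 15960880))))) (c (a (c (b (c (a (a (l 161227513127) (c (b (c (l 158006264119) (l 15986248)) (c (l 16006872) (l 15987768))) (l 162301221479))) (a (a (b (a (b (l 3) (l 160690578759)) (l 175186087399)) (l 15982504)) (b (l 190755339351) (l 15996008))) (b (l 190755329847) (l 15988976)))) (a (a (l 16016928)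 (l 16025448)) (a (l 15994640) (l 192365968935)))) (a (c (a (l 16034152) (c (l 15992928) (l 15998312))) (l 16037816)) (a (c (l 15983264) (l 16021872)) (c (l 15994528) (l 16014864))))) (a (c (b (l 16051232) (l 16055976)) (a (b (l 16075280) (l 16079248)) (c (l 16065680) (l 16068408)))) (c (a (c (l 16014920) (l 16047192)) (c (l 191829133319) (l 16031672))) (l 16038776)))) (c (c (a (a (c (b (b (l 192365953463) (l 15975344)) (l 15980840)) (a (l 15967248) (l 15963888))) (c (b (a (c (l 15964488) (l 15969216)) (b (c (l 15958776) (l 15965584)) (l 15965976))) (l 15952032)) (l 15962024))) (a (c (l 15945424) (b (c (l 15952832) (l 15956296)) (l 15959912))) (a (c (c (l 15962184) (l 15946864)) (l 15968248)) (b (c (c (a (l 15958240) (l 15966392)) (l 15957728)) (l 15955776)) (l 15941392))))) (a (a (c (l 15979128) (b (l 15987776) (l 15993504))) (c (b (l 15970536) (l 15976520)) (l 15996760))) (l 15969272))) (a (l 16001048) (l 15961560)))) (c (a (a (l 16074568) (l 16031992)) (l 15971208)) (a (l 16050128)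 (l 15961432))))), by decide +kernel⟩

def k10_pm_202 : ∃ t, chk3 f_pm_202 t 17 55 1 = true :=
  ⟨(c (a (c (a (a (b (b (c (l 16042392) (l 16051672)) (l 16054280)) (l 16065160)) (b (c (b (c (l 16001056) (l 16006368)) (b (l 16009208) (l 16034352))) (l 16042424)) (l 16050352))) (c (b (b (l 15985896) (l 16013528)) (l 16024960)) (b (b (l 16025528) (b (l 16009392) (l 16033648))) (l 16041504)))) (b (a (b (c (l 16063216) (a (l 16064440) (l 16073696))) (a (l 16081328) (c (l 16063344) (c (l 16077688) (l 16079776))))) (c (a (c (l 16048048) (b (l 16055016) (l 16059768))) (c (b (l 16037408) (l 16042424)) (l 16042800))) (l 16049480))) (a (c (l 16078104) (l 16090640)) (c (l 16054448) (l 16058976))))) (c (b (a (c (b (a (l 15971872) (l 15965720)) (a (l 15978592) (l 15993328))) (a (c (l 15992560) (b (l 16020192) (l 16025592))) (c (b (l 15982384) (l 16009192)) (l 16009104)))) (c (a (c (l 15959536) (b (l 15965928) (l 15972184))) (c (b (l 15949856) (a (l 15959536) (l 15954632))) (l 15976504))) (l 15982272)))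 (a (c (l 16006760) (l 16019816)) (c (a (l 15993672) (l 15964776)) (l 15992480)))) (b (a (l 16013272) (l 15974712)) (l 16003888)))) (a (c (b (a (l 16080816) (l 16042736)) (l 16073224)) (b (l 16051984) (l 16063840))) (b (c (l 15984296) (l 15974608)) (l 15989344)))), by decide +kernel⟩

def k11_pm_202 : ∃ t, chk3 f_pm_202 t 9 6 1 = true :=
  ⟨(b (l 3) (a (b (l 3) (a (b (b (b (l 3) (c (a (c (c (b (l 236926113223) (a (l 149953113239) (l 15921152))) (l 192902707559)) (l 15915888)) (c (c (a (a (b (l 189144609703) (l 15908664)) (l 187533981495)) (b (l 15895016) (l 15901288))) (l 188070796007)) (l 15866144))) (a (l 15899680) (l 199345085063)))) (c (a (c (c (a (l 15927672) (l 15914200)) (l 15915488)) (l 15928448)) (c (a (a (l 15922696) (l 15918736)) (l 15915888)) (l 15907168))) (a (l 15912416) (l 15890536)))) (b (c (a (c (b (l 15932768) (l 15942760)) (l 15948616)) (c (l 15924720) (l 15934848))) (a (l 15932880) (l 15918688))) (c (c (b (a (l 15948504) (l 15940648)) (l 15948480)) (a (l 15940120)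 (l 15952264))) (a (l 15945520) (b (l 15935024) (l 15940024)))))) (a (b (c (c (b (b (b (l 3) (c (l 205787579383) (l 15880304))) (c (a (l 15894304) (l 15890736)) (l 15886784))) (l 15889368)) (b (l 190218251175) (l 15899032))) (b (b (l 15833920) (l 15860848)) (l 15882104))) (l 1)) (l 1)))) (a (b (l 3) (l 1)) (l 1)))), by decide +kernel⟩

def k12_pm_202 : ∃ t, chk3 f_pm_202 t 32 28 2 = true :=
  ⟨(b (a (c (a (b (l 16274984) (l 16285568)) (l 16260504)) (b (a (c (l 16277568) (l 16281272)) (c (l 16256528) (a (l 16273000) (l 16253576)))) (a (c (l 16286664) (l 16290424)) (c (l 16287272) (a (l 16294368) (c (l 16291136) (a (l 16296312) (l 16282912)))))))) (c (a (c (a (l 16232632) (l 16209968)) (a (l 16238248) (c (l 16212944) (l 16214160)))) (b (c (a (l 16166840) (l 16149784)) (l 16165040)) (c (l 16189648) (l 16189648)))) (a (c (a (c (l 16242792) (l 16243808)) (l 16213616)) (b (l 16211656) (b (l 16228208) (l 16162168)))) (b (c (l 16171616) (l 16177984)) (c (l 16185392) (l 16180808)))))) (a (a (c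 (c (l 16293096) (l 16297240)) (c (b (l 16298912) (l 16315864)) (l 16316280))) (c (c (b (l 16290752) (l 16304088)) (b (l 16297728) (l 16310424))) (b (c (l 16302664) (a (l 16313472) (c (l 16309816) (l 16307496)))) (l 16321296)))) (a (c (c (b (l 16272232) (a (l 16307976) (l 16303976))) (a (b (l 16294072) (l 16314056)) (b (l 16268464) (c (l 16305080) (l 16295424))))) (c (a (c (b (l 16299048) (l 16317784)) (b (l 16271720) (l 16311144))) (b (l 16257760) (l 16271840))) (b (c (l 16257320) (l 16241832)) (l 16266840)))) (c (c (c (l 16218512) (l 16236664)) (b (l 16212864) (l 16132144))) (c (b (l 16198264) (c (l 16214648) (l 16198208))) (a (c (l 16199432) (l 16185760)) (l 16171096))))))), by decide +kernel⟩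

def k13_pm_202 : ∃ t, chk3 f_pm_202 t 32 28 3 = true :=
  ⟨(a (c (a (b (b (a (l 16279992) (c (l 16192272) (c (l 16277872) (l 16294232)))) (l 16304288)) (l 16327488)) (b (b (c (a (c (l 16281824) (a (l 16287312) (l 16278608))) (c (l 16255448) (l 16249312))) (a (c (c (l 16194680) (l 16273448)) (l 16234424)) (c (l 16233768) (l 16226640)))) (c (a (c (l 16300352) (l 16301856)) (c (l 16257288) (l 16264200))) (l 16271352))) (c (l 16307480) (l 16251976)))) (a (c (a (l 16323016) (l 16203816)) (a (c (l 16324568) (l 16199656)) (l 16305256))) (c (b (a (l 16262152) (l 16245456)) (l 16289400)) (l 16285864)))) (c (a (c (a (b (b (l 16218784) (c (l 16236440) (l 16220944))) (l 16251560)) (c (b (l 16181024) (l 16210432)) (l 16204640))) (b (l 16216712) (l 16240240))) (b (c (l 16184424) (l 16198712)) (l 16205944))) (b (c (l 16196064) (l 16221240)) (l 16255200)))), by decide +kernel⟩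

def k14_pm_202 : ∃ t, chk3 f_pm_202 t 33 28 1 = true :=
  ⟨(c (c (a (b (a (b (c (l 16138840) (l 16149072)) (c (l 16149696) (l 16153736))) (c (c (l 16126888) (l 16131568)) (l 16096912))) (a (c (l 16171680) (c (l 16161928) (l 16154576))) (c (l 16128704) (l 16130008)))) (b (b (a (b (l 16109200) (l 16116200)) (l 16095512)) (a (l 16124840) (l 16109216))) (c (a (l 16105920) (l 16101840)) (l 16115232)))) (a (a (b (b (l 16163752) (l 16164088)) (c (c (l 16150472) (l 16150856)) (l 16163688))) (b (l 16154632) (l 16154248))) (b (b (a (l 16129624) (c (l 16109224) (l 16121632))) (a (l 16144456) (l 16127848))) (c (l 16127192) (b (l 16139136) (l 16152984)))))) (c (a (b (c (l 16173944) (a (l 16190648) (l 16177488))) (c (l 16184416) (l 16199136))) (b (c (b (a (l 16145120) (l 16129200)) (l 16114560)) (b (l 16135744) (l 16155896))) (c (b (l 16148904) (l 16169104)) (l 16152568)))) (b (a (l 16100008) (b (l 16129984) (l 16148720))) (a (l 16202112) (l 16145832))))), by decide +kernel⟩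

def k15_pm_202 : ∃ t, chk3 f_pm_202 t 17 28 1 = true :=
  ⟨(c (a (c (b (a (b (a (l 16059648) (l 16065392)) (a (l 16092960) (l 16076368))) (a (b (l 16052032) (l 16064488)) (c (l 16042384) (l 16056824)))) (a (b (l 16099448) (a (l 16109152) (l 16102024))) (a (l 16084408) (l 16070568)))) (b (a (a (b (c (l 16097040) (l 16109728)) (l 16112944)) (c (l 16090208) (l 16078800))) (c (b (l 16065120) (a (l 16082544) (l 16071336))) (b (l 16068512) (l 16077864)))) (a (c (b (l 16114696) (l 16111640)) (b (l 16087360) (l 16119728))) (a (b (l 16092824) (l 16103544)) (l 16082008))))) (c (b (a (c (l 16027224) (a (l 16044984) (l 16033184))) (c (a (l 16011248) (l 16002264)) (l 16008472))) (a (b (c (l 16041664) (a (l 16058320) (l 16047320))) (l 16057384)) (c (a (b (l 16028792) (l 16038368)) (b (l 16019144) (l 16026560))) (l 16027320)))) (a (b (l 16039752) (l 16053768)) (b (l 16001088) (l 16020040))))) (a (a (b (c (b (l 16103176) (l 16108064)) (l 16095744)) (c (c (l 16128504) (l 16125512)) (l 16116440))) (b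 (b (l 16057520) (l 16066912)) (c (l 16104448) (l 16071888)))) (b (a (l 16025424) (l 15986336)) (a (l 16039464) (l 16005480))))), by decide +kernel⟩

def k16_pm_202 : ∃ t, chk3 f_pm_202 t 16 29 1 = true :=
  ⟨(a (c (a (c (l 16352968) (c (l 16364728) (a (l 16371016) (a (l 16373392) (l 16345832))))) (a (c (c (b (b (c (l 16322224) (l 16262384)) (l 16346208)) (l 16376536)) (a (l 16362520) (l 16262488))) (c (a (l 16293912) (l 16319528)) (l 16311408))) (c (b (c (c (b (a (l 16309712) (l 16266976)) (l 16173296)) (b (l 16273680) (l 16296840))) (c (l 16140128) (l 16230888))) (l 16317832)) (c (l 16251064) (l 16171544))))) (a (c (a (c (l 16379048) (l 16385720)) (c (a (l 16376336) (l 16348984)) (a (l 16363176) (l 16324432)))) (a (c (a (l 16394248) (c (l 16382832) (l 16376592))) (a (c (l 16332936) (a (l 16317440) (l 16391256))) (l 16312896))) (c (a (l 16349976) (l 16331584)) (l 16354824)))) (c (a (c (l 16246928) (l 16292968)) (l 16259976)) (c (l 16304704) (l 16310488))))) (c (c (a (a (b (c (b (l 16196024)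 (l 16210912)) (a (l 16087152) (a (l 16160808) (l 16142328)))) (l 16229264)) (c (b (b (l 16125592) (l 16027960)) (c (l 16159664) (l 16150200))) (b (c (l 16077448) (l 16123040)) (l 16154552)))) (a (b (l 16047088) (l 16102944)) (b (l 16108864) (l 16117240)))) (a (a (c (a (c (l 16123312) (l 16186544)) (l 16168096)) (l 16201128)) (l 16172360)) (b (l 16087736) (l 16174592)))) (c (a (l 16111280) (b (c (l 16112616) (l 16179696)) (l 16221072))) (l 16143832)))), by decide +kernel⟩

def k17_pm_202 : ∃ t, chk3 f_pm_202 t 17 29 1 = true :=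
  ⟨(b (c (a (c (a (l 16107528) (a (l 16097888) (l 16091376))) (a (c (l 16140432) (b (l 16138712) (l 16149616))) (c (a (l 16114840) (l 16102704)) (l 16058224)))) (b (c (a (l 16068000) (l 16041144)) (l 16052384)) (a (c (a (l 16089312) (l 16079784)) (l 16085344)) (l 1)))) (a (a (c (c (l 16150384) (l 16141712)) (l 16133984)) (c (b (l 16098744) (l 16105488)) (b (l 16089248) (l 16096608)))) (a (c (l 16073568) (l 16063400)) (l 16028360)))) (a (c (c (a (l 16117000) (a (l 16116752) (l 16112856))) (a (c (l 16147640) (b (l 16113880) (l 16184504))) (c (b (l 16131552) (l 16146488)) (l 16139896)))) (c (a (l 16169848) (l 16130360)) (l 16147320))) (a (a (c (c (l 16106744) (l 330207697239)) (l 272762460551)) (l 1)) (l 1)))), by decide +kernel⟩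

def k18_pm_202 : ∃ t, chk3 f_pm_202 t 8 30 1 = true :=
  ⟨(a (a (c (a (c (b (l 16407032) (l 16435920)) (a (l 16432672) (c (l 16428984) (a (l 16437760) (a (l 16434128) (l 16423440)))))) (c (a (a (l 16338080) (c (b (l 16407872) (l 16432944)) (b (l 16401368) (l 16414168)))) (b (l 16326208) (l 16349384))) (a (c (b (l 16372040) (l 16297584)) (l 16371296)) (c (l 16308896) (a (l 16306624) (l 16277608)))))) (a (c (a (a (l 16451656) (b (l 16441200) (l 16429880))) (a (c (a (l 16444920) (l 16437888)) (l 16323408)) (c (l 16410880) (l 16387624)))) (a (c (a (l 16441944) (a (b (l 16446160) (l 16455592)) (c (l 16443432) (l 16432152)))) (a (c (a (l 16469224) (b (l 16452944) (l 16462128))) (a (b (l 16461960) (c (l 16470656) (l 16471128))) (l 16459552))) (c (l 16421128) (l 16447736)))) (c (a (b (l 16409360) (l 16418872)) (l 16394480)) (l 16419792)))) (c (a (c (a (l 16365568) (l 16330408)) (l 16311968)) (l 16319144)) (c (l 16363424) (l 16368976))))) (c (a (c (c (b (l 16232120) (l 16257896)) (a (l 16252920)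 (b (l 16189728) (l 16203280)))) (a (c (b (l 16239544) (l 16249480)) (l 16259832)) (l 16228184))) (c (b (l 16126632) (c (l 16158440) (l 16178592))) (b (l 16213472) (l 16219128)))) (c (a (b (l 16290992) (l 16294736)) (b (l 16252264) (l 16253608))) (b (l 16279664) (l 16218800))))) (b (a (a (c (c (l 16083016) (l 16192336)) (l 16205792)) (l 1)) (l 1)) (l 1))), by decide +kernel⟩

def k19_pm_202 : ∃ t, chk3 f_pm_202 t 8 31 1 = true :=
  ⟨(a (a (a (c (b (c (l 16446344) (a (l 16450016) (a (l 16447856) (c (l 16445864) (b (l 16432376) (l 16442968)))))) (l 16435408)) (a (c (b (l 16451336) (l 16451832)) (c (b (l 16451880) (a (l 16457576) (l 16440040))) (a (c (l 16455368) (l 16415312)) (l 16432856)))) (c (b (a (l 16433216) (c (l 16413208) (l 16387288))) (c (l 16428400) (l 16390776))) (b (c (a (l 16415328) (l 16393376)) (l 16415872)) (c (l 16402264) (l 16408288)))))) (a (c (b (b (c (a (l 16447744) (c (l 16449528) (l 16431464))) (c (a (l 16430816) (l 16395264)) (l 16378712))) (l 16266800)) (c (l 16419224)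 (l 16391352))) (c (b (b (c (l 16332248) (l 16356880)) (l 16361640)) (l 540661485623)) (b (b (l 16381936) (l 16379688)) (l 16371264)))) (b (c (c (b (l 16387032) (l 16321544)) (c (l 16331208) (b (l 16283280) (b (l 16308912) (l 16315200))))) (c (c (l 16268800) (l 16334632)) (l 16351600))) (l 1)))) (b (b (a (c (c (a (l 16298400) (c (l 16231328) (l 16220496))) (a (a (l 16251496) (l 16255088)) (l 16243056))) (c (l 16291744) (l 16307312))) (l 1)) (l 1)) (l 1))) (l 1)), by decide +kernel⟩

def k20_pm_202 : ∃ t, chk3 f_pm_202 t 9 7 1 = true :=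
  ⟨(a (a (b (b (a (c (b (c (l 15986664) (l 15976248)) (c (l 16005792) (l 15995544))) (b (l 15960848) (l 15980376))) (b (c (l 96131787783) (l 15948712)) (l 1))) (l 1)) (l 1)) (l 1)) (l 1)), by decide +kernel⟩

def k21_pm_202 : ∃ t, chk3 f_pm_202 t 5 3 1 = true :=
  ⟨(b (l 1) (l 1)), by decide +kernel⟩

def k22_pm_202 : ∃ t, chk3 f_pm_202 t 3 1 1 = true :=
  ⟨(l 1), by decide +kernel⟩

theorem s23_pm_202 : ∃ t, chk3 f_pm_202 t 8 15 1 = true := ex3_b k18_pm_202 k19_pm_202

theorem s24_pm_202 : ∃ t, chk3 f_pm_202 t 8 29 1 = true := ex3_a k16_pm_202 k17_pm_202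

theorem s25_pm_202 : ∃ t, chk3 f_pm_202 t 32 28 1 = true := ex3_c k12_pm_202 k13_pm_202

theorem s26_pm_202 : ∃ t, chk3 f_pm_202 t 16 28 1 = true := ex3_a s25_pm_202 k14_pm_202

theorem s27_pm_202 : ∃ t, chk3 f_pm_202 t 8 28 1 = true := ex3_a s26_pm_202 k15_pm_202

theorem s28_pm_202 : ∃ t, chk3 f_pm_202 t 8 14 1 = true := ex3_b s27_pm_202 s24_pm_202

theorem s29_pm_202 : ∃ t, chk3 f_pm_202 t 8 7 1 = true := ex3_b s28_pm_202 s23_pm_202

theorem s30_pm_202 : ∃ t, chk3 f_pm_202 t 4 7 1 = true := ex3_a s29_pm_202 k20_pm_202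

theorem s31_pm_202 : ∃ t, chk3 f_pm_202 t 17 27 1 = true := ex3_b k9_pm_202 k10_pm_202

theorem s32_pm_202 : ∃ t, chk3 f_pm_202 t 17 13 1 = true := ex3_b k8_pm_202 s31_pm_202

theorem s33_pm_202 : ∃ t, chk3 f_pm_202 t 17 6 1 = true := ex3_b k7_pm_202 s32_pm_202

theorem s34_pm_202 : ∃ t, chk3 f_pm_202 t 32 55 1 = true := ex3_a k4_pm_202 k5_pm_202

theorem s35_pm_202 : ∃ t, chk3 f_pm_202 t 16 55 1 = true := ex3_a s34_pm_202 k6_pm_202

theorem s36_pm_202 : ∃ t, chk3 f_pm_202 t 16 27 1 = true := ex3_b k3_pm_202 s35_pm_202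

theorem s37_pm_202 : ∃ t, chk3 f_pm_202 t 16 13 1 = true := ex3_b k2_pm_202 s36_pm_202

theorem s38_pm_202 : ∃ t, chk3 f_pm_202 t 16 6 1 = true := ex3_b k1_pm_202 s37_pm_202

theorem s39_pm_202 : ∃ t, chk3 f_pm_202 t 8 6 1 = true := ex3_a s38_pm_202 s33_pm_202

theorem s40_pm_202 : ∃ t, chk3 f_pm_202 t 4 6 1 = true := ex3_a s39_pm_202 k11_pm_202

theorem s41_pm_202 : ∃ t, chk3 f_pm_202 t 4 3 1 = true := ex3_b s40_pm_202 s30_pm_202

theorem s42_pm_202 : ∃ t, chk3 f_pm_202 t 2 3 1 = true := ex3_a s41_pm_202 k21_pm_202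

theorem s43_pm_202 : ∃ t, chk3 f_pm_202 t 2 1 1 = true := ex3_b k0_pm_202 s42_pm_202

theorem s44_pm_202 : ∃ t, chk3 f_pm_202 t 1 1 1 = true := ex3_a s43_pm_202 k22_pm_202

theorem c_pm_202 : CertFX 1073741824 536870912 0 536870912 1046898278 26843546 false true false .pp 2 0 2
    ndF5q2 ndF0q2 pcF0 Cut.none Ext.none :=
  certFX2 (fam := false) (s1 := true) (s2 := false) (a := 2) (b := 0) (c := 2) (cn := .pp) (n1 := ndF5q2) (n2 := ndF0q2) (pc := pcF0) (cut := Cut.none) (xt := Ext.none) (P1 := 1073741824) (W1 := 536870912) (P2 := 0) (W2 := 536870912) (P3 := 1046898278) (W3 := 26843546)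
    rfl (fun _ => rfl) s44_pm_202

noncomputable def f_mm_001 : ℕ → ℕ → ℕ → ℕ → Bool := onCell 0 536870912 536870912 536870912 1046898278 26843546
    (rowFX 0 false false false .up 0 0 1 (qsf 0 536870912 536870912 536870912 0) ndF5q0 ndF0q1 pcF0 Cut.none Ext.none)

def k0_mm_001 : ∃ t, chk3 f_mm_001 t 1 1 1 = true :=
  ⟨(l 5), by decide +kernel⟩

theorem c_mm_001 : CertFX 0 536870912 536870912 536870912 1046898278 26843546 false false false .up 0 0 1
    ndF5q0 ndF0q1 pcF0 Cut.none Ext.none :=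
  certFX0 (fam := false) (s1 := false) (s2 := false) (a := 0) (b := 0) (c := 1) (cn := .up) (n1 := ndF5q0) (n2 := ndF0q1) (pc := pcF0) (cut := Cut.none) (xt := Ext.none) (P1 := 0) (W1 := 536870912) (P2 := 536870912) (W2 := 536870912) (P3 := 1046898278) (W3 := 26843546)
    rfl k0_mm_001

noncomputable def f_mm_011 : ℕ → ℕ → ℕ → ℕ → Bool := onCell 0 536870912 536870912 536870912 1046898278 26843546
    (rowFX 0 false false false .pnn 0 1 1 (qsf 0 536870912 536870912 536870912 1) ndF5q0 ndF0q1 pcF1 Cut.none Ext.none)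

def k0_mm_011 : ∃ t, chk3 f_mm_011 t 1 1 1 = true :=
  ⟨(l 5), by decide +kernel⟩

theorem c_mm_011 : CertFX 0 536870912 536870912 536870912 1046898278 26843546 false false false .pnn 0 1 1
    ndF5q0 ndF0q1 pcF1 Cut.none Ext.none :=
  certFX0 (fam := false) (s1 := false) (s2 := false) (a := 0) (b := 1) (c := 1) (cn := .pnn) (n1 := ndF5q0) (n2 := ndF0q1) (pc := pcF1) (cut := Cut.none) (xt := Ext.none) (P1 := 0) (W1 := 536870912) (P2 := 536870912) (W2 := 536870912) (P3 := 1046898278) (W3 := 26843546)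
    rfl k0_mm_011

noncomputable def f_mm_012 : ℕ → ℕ → ℕ → ℕ → Bool := onCell 0 536870912 0 536870912 1046898278 26843546
    (rowFX 0 false false false .pnp 0 1 2 (qsf 0 536870912 0 536870912 1) ndF5q0 ndF0q2 pcF1 Cut.none Ext.none)

def k0_mm_012 : ∃ t, chk3 f_mm_012 t 1 1 1 = true :=
  ⟨(l 5), by decide +kernel⟩

theorem c_mm_012 : CertFX 0 536870912 0 536870912 1046898278 26843546 false false false .pnp 0 1 2
    ndF5q0 ndF0q2 pcF1 Cut.none Ext.none :=
  certFX0 (fam := false) (s1 := false) (s2 := false) (a := 0) (b := 1) (c := 2) (cn := .pnp) (n1 := ndF5q0) (n2 := ndF0q2) (pc := pcF1) (cut := Cut.none) (xt := Ext.none) (P1 := 0) (W1 := 536870912) (P2 := 0) (W2 := 536870912) (P3 := 1046898278) (W3 := 26843546)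
    rfl k0_mm_012

noncomputable def f_mm_022 : ℕ → ℕ → ℕ → ℕ → Bool := onCell 0 536870912 0 536870912 1046898278 26843546
    (rowFX 0 false false false .pp 0 2 2 (qsf 0 536870912 0 536870912 2) ndF5q0 ndF0q2 pcF2 Cut.none Ext.none)

def k0_mm_022 : ∃ t, chk3 f_mm_022 t 1 1 1 = true :=
  ⟨(l 5), by decide +kernel⟩

theorem c_mm_022 : CertFX 0 536870912 0 536870912 1046898278 26843546 false false false .pp 0 2 2
    ndF5q0 ndF0q2 pcF2 Cut.none Ext.none :=
  certFX0 (fam := false) (s1 := false) (s2 := false) (a := 0) (b := 2) (c := 2) (cn := .pp) (n1 := ndF5q0) (n2 := ndF0q2) (pc := pcF2) (cut := Cut.none) (xt := Ext.none) (P1 := 0) (W1 := 536870912) (P2 := 0) (W2 := 536870912) (P3 := 1046898278) (W3 := 26843546)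
    rfl k0_mm_022

noncomputable def f_mm_101 : ℕ → ℕ → ℕ → ℕ → Bool := onCell 536870912 469762048 536870912 536870912 1046898278 26843546
    (rowFX 0 false false false .npn 1 0 1 (qsf 536870912 469762048 536870912 536870912 0) ndF5q1 ndF0q1 pcF0 Cut.none Ext.none)

def k0_mm_101 : ∃ t, chk3 f_mm_101 t 1 1 1 = true :=
  ⟨(b (l 3) (l 5)), by decide +kernel⟩

theorem c_mm_101 : CertFX 536870912 469762048 536870912 536870912 1046898278 26843546 false false false .npn 1 0 1
    ndF5q1 ndF0q1 pcF0 Cut.none Ext.none :=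
  certFX0 (fam := false) (s1 := false) (s2 := false) (a := 1) (b := 0) (c := 1) (cn := .npn) (n1 := ndF5q1) (n2 := ndF0q1) (pc := pcF0) (cut := Cut.none) (xt := Ext.none) (P1 := 536870912) (W1 := 469762048) (P2 := 536870912) (W2 := 536870912) (P3 := 1046898278) (W3 := 26843546)
    rfl k0_mm_101

noncomputable def f_mm_102 : ℕ → ℕ → ℕ → ℕ → Bool := onCell 536870912 469762048 0 536870912 1046898278 26843546
    (rowFX 0 false false false .npp 1 0 2 (qsf 536870912 469762048 0 536870912 0) ndF5q1 ndF0q2 pcF0 Cut.none Ext.none)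

def k0_mm_102 : ∃ t, chk3 f_mm_102 t 1 1 1 = true :=
  ⟨(l 5), by decide +kernel⟩

theorem c_mm_102 : CertFX 536870912 469762048 0 536870912 1046898278 26843546 false false false .npp 1 0 2
    ndF5q1 ndF0q2 pcF0 Cut.none Ext.none :=
  certFX0 (fam := false) (s1 := false) (s2 := false) (a := 1) (b := 0) (c := 2) (cn := .npp) (n1 := ndF5q1) (n2 := ndF0q2) (pc := pcF0) (cut := Cut.none) (xt := Ext.none) (P1 := 536870912) (W1 := 469762048) (P2 := 0) (W2 := 536870912) (P3 := 1046898278) (W3 := 26843546)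
    rfl k0_mm_102

noncomputable def f_mm_112 : ℕ → ℕ → ℕ → ℕ → Bool := onCell 536870912 469762048 0 536870912 1046898278 26843546
    (rowFX 0 false false false .dn 1 1 2 (qsf 536870912 469762048 0 536870912 1) ndF5q1 ndF0q2 pcF1 Cut.none Ext.none)

def k0_mm_112 : ∃ t, chk3 f_mm_112 t 1 1 1 = true :=
  ⟨(l 5), by decide +kernel⟩

theorem c_mm_112 : CertFX 536870912 469762048 0 536870912 1046898278 26843546 false false false .dn 1 1 2
    ndF5q1 ndF0q2 pcF1 Cut.none Ext.none :=
  certFX0 (fam := false) (s1 := false) (s2 := false) (a := 1) (b := 1) (c := 2) (cn := .dn) (n1 := ndF5q1) (n2 := ndF0q2) (pc := pcF1) (cut := Cut.none) (xt := Ext.none) (P1 := 536870912) (W1 := 469762048) (P2 := 0) (W2 := 536870912) (P3 := 1046898278) (W3 := 26843546)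
    rfl k0_mm_112

noncomputable def f_mm_202 : ℕ → ℕ → ℕ → ℕ → Bool := onCell 1073741824 536870912 0 536870912 1046898278 26843546
    (rowFX 0 false false false .pp 2 0 2 (qsf 1073741824 536870912 0 536870912 0) ndF5q2 ndF0q2 pcF0 Cut.none Ext.none)

def k0_mm_202 : ∃ t, chk3 f_mm_202 t 1 1 1 = true :=
  ⟨(l 3), by decide +kernel⟩

theorem c_mm_202 : CertFX 1073741824 536870912 0 536870912 1046898278 26843546 false false false .pp 2 0 2
    ndF5q2 ndF0q2 pcF0 Cut.none Ext.none :=
  certFX0 (fam := false) (s1 := false) (s2 := false) (a := 2) (b := 0) (c := 2) (cn := .pp) (n1 := ndF5q2) (n2 := ndF0q2) (pc := pcF0) (cut := Cut.none) (xt := Ext.none) (P1 := 1073741824) (W1 := 536870912) (P2 := 0) (W2 := 536870912) (P3 := 1046898278) (W3 := 26843546)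
    rfl k0_mm_202

end Pool.Agent.Strip051.G.IE1.Tab.C.FB50

namespace Pool.Agent.Strip051.G.IE1.Tab.C.FB51

open Pool.Agent.Strip051.PB Pool.Agent.Strip051.PB.T
open Pool.Agent.Strip051.G.IE1.Tab

noncomputable def f_pp_001 : ℕ → ℕ → ℕ → ℕ → Bool := onCell 0 536870912 0 536870912 1046898278 26843546
    (rowFX 1 false true true .up 0 0 1 (qsf 0 536870912 536870912 536870912 0) ndF5q0 ndF1q1 pcF0 Cut.none Ext.none)

def k0_pp_001 : ∃ t, chk3 f_pp_001 t 1 1 1 = true :=
  ⟨(b (l 3) (l 3)), by decide +kernel⟩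

theorem c_pp_001 : CertFX 0 536870912 536870912 536870912 1046898278 26843546 false true true .up 0 0 1
    ndF5q0 ndF1q1 pcF0 Cut.none Ext.none :=
  certFX1 (fam := false) (s1 := true) (s2 := true) (a := 0) (b := 0) (c := 1) (cn := .up) (n1 := ndF5q0) (n2 := ndF1q1) (pc := pcF0) (cut := Cut.none) (xt := Ext.none) (P1 := 0) (W1 := 536870912) (P2 := 536870912) (W2 := 536870912) (P3 := 1046898278) (W3 := 26843546)
    rfl (fun _ => rfl) k0_pp_001

noncomputable def f_pp_011 : ℕ → ℕ → ℕ → ℕ → Bool := onCell 0 536870912 536870912 536870912 1046898278 26843546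
    (rowFX 0 false true true .pnn 0 1 1 (qsf 0 536870912 536870912 536870912 1) ndF5q0 ndF1q1 pcF1 Cut.none Ext.none)

def k0_pp_011 : ∃ t, chk3 f_pp_011 t 1 1 1 = true :=
  ⟨(a (b (l 3) (a (l 3) (l 3))) (l 3)), by decide +kernel⟩

theorem c_pp_011 : CertFX 0 536870912 536870912 536870912 1046898278 26843546 false true true .pnn 0 1 1
    ndF5q0 ndF1q1 pcF1 Cut.none Ext.none :=
  certFX0 (fam := false) (s1 := true) (s2 := true) (a := 0) (b := 1) (c := 1) (cn := .pnn) (n1 := ndF5q0) (n2 := ndF1q1) (pc := pcF1) (cut := Cut.none) (xt := Ext.none) (P1 := 0) (W1 := 536870912) (P2 := 536870912) (W2 := 536870912) (P3 := 1046898278) (W3 := 26843546)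
    rfl k0_pp_011

noncomputable def f_pp_012_a : ℕ → ℕ → ℕ → ℕ → Bool := onCell 536870912 536870912 0 420477299 1046898278 26843546
    (rowFX 2 false true true .pnp 0 1 2 (qsf 0 536870912 0 420477299 1) ndF5q0 ndF1q2a pcF1 Cut.none Ext.none)

def k0_pp_012_a : ∃ t, chk3 f_pp_012_a t 1 1 1 = true :=
  ⟨(a (b (a (l 2) (b (l 16777216) (a (l 16777208) (l 16777208)))) (b (a (a (l 2) (l 16777184)) (l 16777184)) (b (a (l 16701344) (a (l 16722320) (l 16722320))) (a (c (l 16504904) (l 16497824)) (a (l 16501368) (l 16480392)))))) (b (a (b (a (l 16774560) (a (l 16760896) (l 16760736))) (a (l 16774144) (a (l 16758672) (a (l 16749592) (l 16772104))))) (a (b (a (l 16606496) (b (l 16394224) (l 16552888))) (a (l 16699712) (b (l 16619320) (l 16621904)))) (b (a (b (l 16350576) (b (l 16513704) (a (l 16600432) (l 16641144)))) (b (a (l 16377544) (l 16373368)) (b (a (l 16573656) (l 16624184)) (a (l 16681224) (c (l 16706424) (l 16706024)))))) (a (c (l 16652080) (l 16649576)) (c (l 16627304) (l 16648176))))))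 (a (b (a (l 16773640) (a (l 16756016) (l 16695496))) (a (b (l 16697688) (l 16371656)) (b (a (l 16700936) (a (l 16690192) (l 16593480))) (a (l 16374296) (a (b (l 16536176) (l 16393672)) (c (l 16492840) (l 16478472))))))) (b (a (a (b (l 16689472) (l 16702216)) (b (l 16642744) (l 16692544))) (a (a (l 16694008) (l 16651736)) (b (a (l 16713688) (l 16668152)) (a (l 16676168) (l 16634104))))) (a (b (a (b (l 16720184) (l 16697480)) (l 16717880)) (a (b (l 16661592) (l 16520928)) (l 16542600))) (b (a (c (l 16709696) (l 16730544)) (a (c (l 16681008) (l 16679792)) (b (l 16571624) (l 16615568)))) (a (b (l 16662736) (l 16591536)) (b (a (l 16682768) (l 16690136)) (a (l 16623488) (c (l 16683904) (l 16683024))))))))))), by decide +kernel⟩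

theorem c_pp_012_a : CertFX 0 536870912 0 420477299 1046898278 26843546 false true true .pnp 0 1 2
    ndF5q0 ndF1q2a pcF1 Cut.none Ext.none :=
  certFX2 (fam := false) (s1 := true) (s2 := true) (a := 0) (b := 1) (c := 2) (cn := .pnp) (n1 := ndF5q0) (n2 := ndF1q2a) (pc := pcF1) (cut := Cut.none) (xt := Ext.none) (P1 := 0) (W1 := 536870912) (P2 := 0) (W2 := 420477299) (P3 := 1046898278) (W3 := 26843546)
    rfl (fun _ => rfl) k0_pp_012_a

noncomputable def f_pp_012_b : ℕ → ℕ → ℕ → ℕ → Bool := onCell 536870912 536870912 1239849684 370763052 1046898278 26843546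
    (rowFX 2 false true true .pnp 0 1 2 (qsf 0 536870912 1239849684 370763052 1) ndF5q0 ndF1q2b pcF1 Cut.none Ext.none)

def k0_pp_012_b : ∃ t, chk3 f_pp_012_b t 1 1 1 = true :=
  ⟨(a (a (l 2) (b (l 16777216) (l 2))) (a (b (a (l 16774936) (a (l 16763120) (b (l 16719752) (l 16692736)))) (a (l 2) (l 16725624))) (b (b (a (a (l 16454384) (l 16221104)) (a (b (a (l 16138664) (l 16078856)) (l 15930480)) (b (a (l 15955112) (l 15926320)) (a (l 15743768) (l 15673528))))) (a (l 15995456) (a (l 15743760) (b (l 15532776) (l 15375336))))) (a (a (l 16225784) (l 15830024)) (a (l 15205984) (b (l 15166256) (l 14920256))))))), by decide +kernel⟩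

theorem c_pp_012_b : CertFX 0 536870912 1239849684 370763052 1046898278 26843546 false true true .pnp 0 1 2
    ndF5q0 ndF1q2b pcF1 Cut.none Ext.none :=
  certFX2 (fam := false) (s1 := true) (s2 := true) (a := 0) (b := 1) (c := 2) (cn := .pnp) (n1 := ndF5q0) (n2 := ndF1q2b) (pc := pcF1) (cut := Cut.none) (xt := Ext.none) (P1 := 0) (W1 := 536870912) (P2 := 1239849684) (W2 := 370763052) (P3 := 1046898278) (W3 := 26843546)
    rfl (fun _ => rfl) k0_pp_012_b

noncomputable def f_pp_022_a : ℕ → ℕ → ℕ → ℕ → Bool := onCell 0 536870912 0 420477299 1046898278 26843546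
    (rowFX 0 false true true .pp 0 2 2 (qsf 0 536870912 0 420477299 2) ndF5q0 ndF1q2a pcF2 Cut.none Ext.none)

def k0_pp_022_a : ∃ t, chk3 f_pp_022_a t 32 4 1 = true :=
  ⟨(a (c (b (c (l 16311208) (a (l 16384168) (l 16370800))) (c (l 16290472) (c (l 16301056) (l 16212280)))) (c (b (a (l 16400776) (a (l 16481328) (l 16413920))) (a (l 16410504) (c (l 16279720) (l 16306712)))) (a (b (c (l 16405528) (l 16366624)) (c (l 16406400) (l 16340816))) (b (l 16440448) (l 16283336))))) (b (c (a (a (c (l 16373792) (l 16336576)) (c (c (l 16316936) (l 16320712)) (l 16364648))) (a (b (c (l 16317528) (l 16349472)) (c (a (l 16292560) (l 16277048)) (l 16316800))) (b (c (a (l 16295016) (l 16296224)) (a (l 16324072) (l 16320368))) (c (b (l 16281752) (l 16274776)) (c (l 16304232) (l 16266040)))))) (a (c (l 16332592) (l 16373808)) (a (c (b (l 16340976) (l 16307800)) (l 16271296)) (b (c (l 16294536) (l 16266656)) (c (l 16276800) (l 16248600)))))) (c (a (b (c (a (l 16333792) (c (l 16276176) (l 16279504))) (l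 16236784)) (a (c (b (l 16290152) (l 16236552)) (a (l 16284776) (l 16224056))) (c (b (a (l 16246640) (c (l 16207408) (l 16235704))) (a (c (l 16228936) (l 16226568)) (l 16231064))) (b (l 16265136) (l 16253744))))) (a (b (c (a (b (l 16259440) (c (l 16212904) (l 16249088))) (b (l 16253720) (l 16249600))) (b (l 16226696) (l 16257032))) (c (l 16246384) (l 16277648))) (c (l 16273904) (l 16299120)))) (a (b (c (l 16290376) (l 16309560)) (c (a (l 16212616) (b (l 16190168) (l 16262512))) (a (l 16274256) (l 16198680)))) (a (b (c (b (l 16280168) (l 16268368)) (l 16244520)) (l 16258312)) (l 16257064)))))), by decide +kernel⟩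

def k1_pp_022_a : ∃ t, chk3 f_pp_022_a t 33 4 1 = true :=
  ⟨(b (c (a (c (c (l 16282176) (a (l 16333968) (l 16371048))) (c (l 16321664) (l 16323880))) (c (c (l 16365448) (l 16383528)) (l 16346576))) (c (l 16304072) (l 16288912))) (c (c (a (a (l 16317160) (c (l 16366208) (l 16364104))) (c (l 16381240) (l 16378088))) (a (c (l 16334920) (l 16315928)) (l 16340752))) (c (l 16296824) (l 16281416)))), by decide +kernel⟩

def k2_pp_022_a : ∃ t, chk3 f_pp_022_a t 32 5 1 = true :=
  ⟨(b (a (c (b (a (l 16368976) (a (l 16315344) (b (c (l 16280856) (l 16268352)) (c (a (l 16258664) (l 16241816)) (a (l 16242512) (c (l 16229080) (l 16228248))))))) (a (b (l 16345104) (a (l 16327680) (b (l 16278600) (l 16265952)))) (a (b (b (l 16263416) (l 16251728)) (l 16252864)) (c (l 16253648) (c (l 16240824) (l 16237920)))))) (a (c (b (l 16368160) (a (l 16328040) (b (l 16289256) (a (l 16256360) (l 16237888))))) (a (b (l 16344280) (l 16250064)) (b (l 16308848) (b (l 16281768) (c (l 16184296) (l 16245912)))))) (b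 (c (a (l 16302872) (b (l 16275696) (a (l 16249368) (l 16247456)))) (a (l 16305016) (b (l 16275760) (l 16246288)))) (c (a (b (a (l 16247680) (l 16236696)) (l 16238768)) (l 16184616)) (a (b (c (l 16252424) (l 16240664)) (l 16239976)) (l 16247144)))))) (c (a (b (a (c (b (a (l 16240768) (l 16229128)) (l 16236192)) (b (a (c (l 16231168) (l 16240088)) (l 16236144)) (l 16238560))) (c (l 16238864) (l 16260816))) (c (a (l 16251960) (l 16258560)) (l 16268688))) (c (l 16262064) (l 16288840))) (c (b (a (a (b (c (l 16260088) (l 16260776)) (l 16257664)) (l 16269728)) (l 16282152)) (l 16288336)) (b (b (l 16201568) (l 16248168)) (l 16264928))))) (a (a (c (b (b (a (b (l 16291544) (l 16279992)) (l 16268440)) (l 16285464)) (l 16315664)) (b (c (b (a (l 16262704) (l 16243432)) (l 16260064)) (a (b (c (l 16249992) (a (l 16247840) (l 16234056))) (l 16243488)) (c (l 16248848) (l 16247528)))) (c (l 16290584) (c (l 16283768) (l 16279296))))) (c (c (l 16302576) (l 16267616)) (c (c (l 16287688) (l 16293136)) (l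 16289408)))) (c (a (c (c (l 16304392) (l 16240816)) (l 16234584)) (c (l 16301224) (l 16308456))) (c (c (l 16285744) (l 16336096)) (l 16316312))))), by decide +kernel⟩

def k3_pp_022_a : ∃ t, chk3 f_pp_022_a t 33 5 1 = true :=
  ⟨(c (a (b (c (a (l 16342152) (c (l 16392848) (l 16390856))) (c (l 16297976) (l 16341744))) (c (c (l 16321648) (a (l 16413880) (l 16413688))) (c (l 16320024) (l 16405680)))) (b (c (c (l 16388888) (l 16406480)) (l 16368800)) (c (c (l 16413664) (l 16452064)) (l 16435088)))) (b (c (l 16323544) (l 16308216)) (c (l 16304760) (l 16373784)))), by decide +kernel⟩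

def k4_pp_022_a : ∃ t, chk3 f_pp_022_a t 17 2 1 = true :=
  ⟨(a (b (c (b (c (b (a (l 16408400) (l 16413416)) (l 16402784)) (a (l 16358048) (b (l 16378720) (l 16370584)))) (c (a (l 16400696) (l 16408856)) (a (l 16354240) (l 16373736)))) (b (c (l 16353272) (l 16351168)) (l 16348272))) (c (b (c (a (l 16431272) (l 16420512)) (a (l 16384440) (l 16385248))) (c (b (l 16442016) (l 16508384)) (a (l 16390136) (l 16414392)))) (b (l 16358992) (l 16366904)))) (b (c (b (c (b (a (b (c (l 16426952) (l 16386472)) (l 16418144)) (b (c (a (l 16422616) (l 16420328)) (l 16415448)) (c (a (l 16429848) (b (l 16414104) (l 16435584))) (l 16425464)))) (a (l 16392504) (c (l 16409608) (l 16423328)))) (b (b (a (l 16399232) (l 16413616)) (l 16410792)) (l 16408344))) (c (a (c (l 16427280) (l 16407568)) (c (b (l 16410888) (l 16420464)) (l 16429792))) (l 16414008))) (b (b (c (l 16383416) (l 16401952)) (l 16404600)) (l 16410328))) (a (b (c (c (c (l 16462048) (l 16421280)) (l 16434144)) (l 16431376)) (c (b (c (l 16460544)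 (l 16483840)) (c (c (l 16535984) (l 16495240)) (l 16529752))) (l 16442344))) (b (c (c (c (b (l 16417832) (a (l 16481864) (l 16490800))) (l 16466784)) (l 16465392)) (l 16462648)) (c (c (c (b (a (l 16518696) (c (l 16476800) (l 16515232))) (a (l 16509400) (l 16535456))) (b (l 16510376) (l 16536912))) (b (l 16509376) (l 16536128))) (b (l 16507408) (l 16534600))))))), by decide +kernel⟩

def k5_pp_022_a : ∃ t, chk3 f_pp_022_a t 9 2 1 = true :=
  ⟨(b (a (b (a (c (b (a (b (l 16421280) (a (b (l 16438968) (l 16444000)) (l 16449528))) (a (l 16440208) (l 16423800))) (a (c (l 16450264) (l 16448240)) (a (l 16467816) (l 16454632)))) (b (a (l 16429120) (l 16427504)) (a (l 16445096) (l 16455248)))) (b (c (l 16318016) (l 16311176)) (c (b (a (l 16403240) (l 16323576)) (l 16372888)) (l 16358600)))) (a (c (a (c (b (l 16452616) (l 16462712)) (l 16455896)) (b (l 16455968) (l 16452168))) (a (l 16452856) (l 16447672))) (c (l 16371448) (l 16364352)))) (b (a (c (b (l 16145792) (l 16215976)) (l 16173520)) (l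 15927328)) (a (a (l 16271096) (l 16216256)) (c (l 16119520) (l 16126832))))) (a (a (b (c (a (b (c (a (l 16475152) (l 16478520)) (l 16473408)) (a (c (l 16493960) (l 16492432)) (l 16481728))) (l 16449824)) (a (b (l 16470656) (l 16482944)) (l 16445152))) (c (a (b (c (l 16497384) (l 16495824)) (l 16490144)) (l 16469752)) (b (l 16475552) (l 16492704)))) (b (c (l 16378016) (l 16370984)) (c (l 16410976) (l 16404656)))) (b (a (c (l 16275488) (l 16265240)) (l 16187760)) (a (c (l 16326328) (l 16317304)) (l 16174608))))), by decide +kernel⟩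

def k6_pp_022_a : ∃ t, chk3 f_pp_022_a t 5 2 1 = true :=
  ⟨(a (a (b (b (c (l 15815000) (l 15795856)) (b (a (b (l 15983480) (l 16016696)) (l 15857104)) (a (l 16044200) (c (l 15926824) (l 15906704))))) (b (c (l 15968208) (l 16035304)) (c (a (l 16191952) (l 16106960)) (l 16074064)))) (b (l 1) (l 1))) (l 1)), by decide +kernel⟩

def k7_pp_022_a : ∃ t, chk3 f_pp_022_a t 8 6 1 = true :=
  ⟨(a (a (c (a (b (c (l 16403280) (a (l 16387696) (l 16326192))) (c (l 16530992) (a (l 16537240) (l 16413776)))) (a (c (b (b (l 16333488) (l 16395480)) (a (l 16508616) (l 16412256))) (b (c (l 16349336) (l 16427224)) (l 16405720))) (c (b (l 16362040) (l 16453696)) (b (l 16371496) (l 16432472))))) (a (c (a (b (l 16371824) (l 16459744)) (b (c (l 16347224) (l 16332528)) (a (l 16408808) (l 16405416)))) (a (b (c (l 16323688) (a (l 16313288) (l 16369400))) (c (l 16391832) (a (l 16381752) (l 16501792)))) (b (l 16308696) (l 16400256)))) (c (b (b (l 16348976) (l 16392464)) (c (l 16411976) (l 16510752))) (b (l 16421776)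 (l 16515880))))) (c (b (a (c (a (l 16405376) (a (l 16449136) (l 16442784))) (c (l 16385792) (l 16513472))) (c (b (l 16498448) (l 16456784)) (l 16503408))) (a (c (c (l 16340440) (b (l 16425352) (l 16383912))) (c (l 16344056) (l 16509224))) (b (c (l 16425296) (l 16529088)) (c (a (l 16383600) (l 16413568)) (l 16471928))))) (b (c (l 16372080) (l 16421064)) (b (l 16463936) (a (l 16463176) (l 16451408)))))) (b (c (a (a (c (l 16487408) (l 16460928)) (c (b (l 16544256) (l 16467024)) (b (l 16536512) (l 16530240)))) (a (b (c (a (l 16532848) (l 16524688)) (l 16572968)) (c (l 16532048) (l 16611928))) (c (c (b (l 16526288) (l 16561208)) (l 16536000)) (l 16556504)))) (a (b (l 16468272) (a (l 16581552) (l 16598000))) (b (a (l 16572704) (l 16559592)) (l 16604408)))) (b (a (c (a (c (l 16440472) (l 16476808)) (c (l 16500568) (l 16552696))) (a (l 16560816) (l 16567104))) (c (c (a (l 16508872) (l 16552560)) (l 16605744)) (l 16605352))) (c (a (c (l 16380008) (a (l 16477328) (l 16529176))) (c (a (l 16492856)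 (c (l 16530560) (l 16579744))) (l 16545208))) (a (l 16505144) (l 16564640)))))), by decide +kernel⟩

def k8_pp_022_a : ∃ t, chk3 f_pp_022_a t 16 7 1 = true :=
  ⟨(b (a (c (a (b (c (l 16515152) (l 16530232)) (a (l 16513272) (l 16482424))) (c (b (a (a (l 16533344) (l 16529016)) (l 16426152)) (a (l 16486944) (l 16496240))) (a (b (a (l 16522840) (l 16491104)) (l 16463728)) (b (l 16382296) (l 16452256))))) (a (c (a (b (l 16542864) (l 16538864)) (b (a (l 16537152) (l 16500208)) (a (l 16532728) (l 16496408)))) (a (b (c (l 16526944) (a (l 16535760) (l 16543640))) (a (l 16552912) (l 16530272))) (b (c (l 16519744) (l 16532296)) (l 16476744)))) (c (b (a (l 16441680) (l 16461616)) (a (l 16462416) (l 16468536))) (b (l 16502280) (l 16506360))))) (c (a (b (c (a (l 16378784) (b (l 16333544) (l 16372832))) (b (l 16353096) (l 16388472))) (c (l 16314112) (l 16430400))) (b (c (b (l 16371704) (l 16371832)) (l 16432152)) (c (l 16392048) (l 16452160)))) (b (c (a (l 16442280) (l 16471840)) (l 16458992)) (c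 (l 16482480) (l 16496552))))) (a (c (a (b (l 16474920) (l 16526344)) (c (a (b (l 16556072) (l 16585672)) (l 16437784)) (a (b (l 16512016) (l 16541768)) (b (l 16482104) (l 16510352))))) (a (c (a (b (l 16554664) (l 16585784)) (b (c (l 16529896) (l 16519336)) (a (l 16564040) (l 16551624)))) (a (b (c (l 16517536) (a (l 16524504) (l 16555960))) (c (l 16590720) (a (l 16597896) (l 16587992)))) (b (l 16519800) (l 16530368)))) (c (b (l 16466880) (l 16475040)) (l 16467736)))) (c (a (b (c (l 16405272) (l 16458800)) (c (l 16431200) (l 16484824))) (b (l 16381824) (l 16362968))) (b (c (l 16509368) (l 16523568)) (c (l 16513016) (l 16548264)))))), by decide +kernel⟩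

def k9_pp_022_a : ∃ t, chk3 f_pp_022_a t 17 7 1 = true :=
  ⟨(b (c (a (b (c (b (l 16430344) (l 16427824)) (b (l 16434544) (l 16473832))) (c (l 16444240) (l 16406424))) (b (c (a (b (l 16497320) (l 16492248)) (b (l 16492872) (l 16528104))) (b (l 16526672) (l 16520584))) (c (a (l 16505040) (c (l 16536424) (l 16543176))) (l 16532176)))) (a (b (c (l 16489592) (l 16486440)) (l 16504680)) (b (b (l 16524056) (l 16517672)) (l 16529248)))) (c (a (b (c (l 16464600) (l 16468760)) (c (l 16483504) (a (l 16523712) (l 16541824)))) (b (c (a (l 16520936) (c (l 16549472) (l 16556192))) (l 16546568)) (c (a (l 16535896) (l 16501120)) (l 16560160)))) (a (b (l 16525128) (l 16544008)) (b (l 16543560) (l 16515064))))), by decide +kernel⟩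

def k10_pp_022_a : ∃ t, chk3 f_pp_022_a t 9 3 1 = true :=
  ⟨(b (b (a (a (a (c (b (l 16516072) (l 16555192)) (l 16532912)) (b (l 16508264) (l 16551976))) (c (l 16421536) (l 16479864))) (a (c (l 16417056) (l 16410256)) (c (l 16373280) (l 16365064)))) (a (a (a (c (b (l 16609640) (l 16564920)) (l 16566576)) (b (l 16590168) (l 16593432))) (b (l 16510560) (l 16593568))) (b (a (l 16517784) (l 16487224)) (c (a (l 16610120) (l 16589080)) (l 16515152))))) (b (a (c (a (b (a (b (l 16563904) (l 16555480)) (l 16564704)) (a (l 16563640) (l 16586328))) (b (l 16567640) (l 16626928))) (b (a (b (l 16573792) (l 16564088)) (l 16586960)) (a (l 16570968) (l 16624648)))) (a (b (c (l 16648408) (l 16690120)) (c (l 16681400) (l 16680328))) (l 1))) (a (a (c (b (a (l 16573848) (l 16593848)) (a (l 16583784) (l 16601424))) (b (l 16579512) (b (l 16585296) (l 16589096)))) (b (c (l 16630600) (l 16627832)) (l 1))) (l 1)))), by decide +kernel⟩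

def k11_pp_022_a : ∃ t, chk3 f_pp_022_a t 5 3 1 = true :=
  ⟨(b (a (b (a (c (a (l 16320224) (l 1)) (l 238939724519)) (l 1)) (l 1)) (l 1)) (l 1)), by decide +kernel⟩

def k12_pp_022_a : ∃ t, chk3 f_pp_022_a t 3 1 1 = true :=
  ⟨(l 1), by decide +kernel⟩

theorem s13_pp_022_a : ∃ t, chk3 f_pp_022_a t 8 7 1 = true := ex3_a k8_pp_022_a k9_pp_022_a

theorem s14_pp_022_a : ∃ t, chk3 f_pp_022_a t 8 3 1 = true := ex3_b k7_pp_022_a s13_pp_022_a

theorem s15_pp_022_a : ∃ t, chk3 f_pp_022_a t 4 3 1 = true := ex3_a s14_pp_022_a k10_pp_022_a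

theorem s16_pp_022_a : ∃ t, chk3 f_pp_022_a t 2 3 1 = true := ex3_a s15_pp_022_a k11_pp_022_a

theorem s17_pp_022_a : ∃ t, chk3 f_pp_022_a t 16 5 1 = true := ex3_a k2_pp_022_a k3_pp_022_a

theorem s18_pp_022_a : ∃ t, chk3 f_pp_022_a t 16 4 1 = true := ex3_a k0_pp_022_a k1_pp_022_a

theorem s19_pp_022_a : ∃ t, chk3 f_pp_022_a t 16 2 1 = true := ex3_b s18_pp_022_a s17_pp_022_a

theorem s20_pp_022_a : ∃ t, chk3 f_pp_022_a t 8 2 1 = true := ex3_a s19_pp_022_a k4_pp_022_a

theorem s21_pp_022_a : ∃ t, chk3 f_pp_022_a t 4 2 1 = true := ex3_a s20_pp_022_a k5_pp_022_a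

theorem s22_pp_022_a : ∃ t, chk3 f_pp_022_a t 2 2 1 = true := ex3_a s21_pp_022_a k6_pp_022_a

theorem s23_pp_022_a : ∃ t, chk3 f_pp_022_a t 2 1 1 = true := ex3_b s22_pp_022_a s16_pp_022_a

theorem s24_pp_022_a : ∃ t, chk3 f_pp_022_a t 1 1 1 = true := ex3_a s23_pp_022_a k12_pp_022_a

theorem c_pp_022_a : CertFX 0 536870912 0 420477299 1046898278 26843546 false true true .pp 0 2 2
    ndF5q0 ndF1q2a pcF2 Cut.none Ext.none :=
  certFX0 (fam := false) (s1 := true) (s2 := true) (a := 0) (b := 2) (c := 2) (cn := .pp) (n1 := ndF5q0) (n2 := ndF1q2a) (pc := pcF2) (cut := Cut.none) (xt := Ext.none) (P1 := 0) (W1 := 536870912) (P2 := 0) (W2 := 420477299) (P3 := 1046898278) (W3 := 26843546)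
    rfl s24_pp_022_a

noncomputable def f_pp_022_b : ℕ → ℕ → ℕ → ℕ → Bool := onCell 0 536870912 1073741824 536870912 1046898278 26843546
    (rowFX 1 false true true .pp 0 2 2 (qsf 0 536870912 1239849684 370763052 2) ndF5q0 ndF1q2b pcF2 Cut.none Ext.none)

def k0_pp_022_b : ∃ t, chk3 f_pp_022_b t 1 4 1 = true :=
  ⟨(b (a (a (a (l 1) (a (a (l 1) (b (l 1) (l 765610208727))) (b (c (l 557303687095) (l 447781931143)) (c (l 342018406839) (l 16027256))))) (a (b (c (l 525090428119) (a (l 15713832) (l 15423464))) (c (a (l 15757696) (l 15498488)) (l 15610712))) (c (a (l 15219176) (l 15049008)) (a (l 15195968) (l 15023968))))) (a (c (b (l 14798616) (l 14917128)) (b (l 14766048) (l 14894112))) (c (l 14606144) (l 14586248)))) (b (a (a (a (a (l 1) (a (l 1) (a (l 1) (a (l 1) (b (l 1) (c (b (l 1) (l 393022238263)) (l 16476872))))))) (c (a (a (b (l 702796858983) (a (b (l 848825659735) (l 435434894343)) (l 16221464))) (b (l 16285760) (l 16218568))) (b (l 16045688) (l 15995360))) (a (b (l 786548213047)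 (l 465499151639)) (l 15754552)))) (a (b (l 15617304) (l 15634488)) (a (l 15316136) (l 15176008)))) (a (a (l 15085800) (l 14976936)) (l 14837160))) (a (a (a (b (a (l 1) (c (a (a (l 1) (a (l 1) (a (l 1) (b (l 1) (c (l 16413136) (l 16426032)))))) (a (c (b (a (l 1) (l 377452969911)) (l 427381779287)) (l 427918668375)) (c (a (l 440266601143) (l 16198408)) (l 16339864)))) (a (l 228739780231) (l 466036327655)))) (a (a (l 1) (a (l 1) (a (l 1) (c (l 85395168439) (l 16396992))))) (a (c (a (c (b (l 16441192) (l 16336040)) (l 358125373639)) (c (b (l 457446563175) (l 16314816)) (l 496637922391))) (l 475163083815)) (c (c (a (b (l 16266312) (l 16225864)) (l 16140976)) (l 16210152)) (l 16202664))))) (a (a (c (b (a (l 16198384) (l 16183088)) (l 16070112)) (l 16069160)) (l 15947144)) (l 15797976))) (a (l 15506536) (l 15195408))) (a (l 15068240) (l 14964032))))), by decide +kernel⟩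

def k1_pp_022_b : ∃ t, chk3 f_pp_022_b t 8 20 1 = true :=
  ⟨(a (b (a (b (l 1) (a (l 1) (a (l 1) (a (l 1) (c (c (l 257193653991) (c (l 16358152) (l 16320368))) (l 303364475895)))))) (c (a (a (b (l 1) (c (b (l 16363840) (b (l 16333144) (l 16273896))) (b (l 16366216) (c (l 275447313463) (l 16320184))))) (c (b (l 250214546967) (b (l 246456373271) (b (l 16335416) (c (l 16301120) (l 16319792))))) (l 343629788439))) (c (b (l 235182010823) (b (l 16329592) (b (l 16299352) (c (l 16231712) (l 16270920))))) (b (l 16342872) (l 16220064)))) (c (b (l 16321816) (l 354903879591)) (l 16223464)))) (a (c (a (c (l 16314280) (l 263636110503)) (c (a (c (l 16274608) (l 410201885447)) (l 16268504)) (c (l 16268032) (l 16272256)))) (a (c (a (l 16386872) (l 307659574455)) (a (c (l 16371368) (l 16332952)) (l 16356144))) (c (l 16270352) (l 16397800)))) (c (a (c (c (l 16301560) (l 16286192)) (l 16249320)) (b (c (l 16258304) (l 16317056)) (l 16268936))) (a (l 16269304) (l 16211368))))) (b (c (a (a (b (c (l 16295144)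 (l 16270256)) (c (b (l 16255120) (l 16132504)) (a (l 16165552) (l 16170576)))) (c (l 16192544) (l 16156952))) (c (a (l 16110896) (l 16037016)) (l 16057896))) (a (a (b (l 16248088) (l 16166216)) (l 16145200)) (l 16047528))) (c (a (c (l 16131040) (l 16115888)) (l 15932072)) (b (l 16068256) (l 16280712))))), by decide +kernel⟩

def k2_pp_022_b : ∃ t, chk3 f_pp_022_b t 8 21 1 = true :=
  ⟨(a (a (c (b (a (c (l 16121960) (l 16007128)) (c (a (l 16051384) (l 16178712)) (a (l 16151144) (l 16174400)))) (a (l 15572624) (c (a (l 15904088) (l 15910048)) (a (l 15873200) (l 15859000))))) (a (c (a (l 15804128) (b (l 16041368) (l 15838488))) (a (c (l 15783056) (l 15719952)) (l 15823400))) (c (b (l 16119568) (l 15860008)) (l 15935896)))) (c (b (a (c (a (l 16189920) (l 16072896)) (l 16071768)) (c (l 16093696) (l 16279152))) (a (c (l 15865936) (l 15892144)) (l 15957888))) (b (c (l 16175008) (l 16292952)) (l 15978056)))) (c (a (b (l 16170272) (l 16021760)) (b (l 16314120) (l 16283216))) (a (l 16214640)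 (l 16416584)))), by decide +kernel⟩

def k3_pp_022_b : ∃ t, chk3 f_pp_022_b t 9 10 1 = true :=
  ⟨(b (a (b (c (a (l 15937016) (l 15816608)) (l 15857648)) (c (l 15981848) (l 15966072))) (b (l 15651752) (l 15771568))) (a (a (b (l 16248008) (l 16436056)) (l 16324120)) (l 16174088))), by decide +kernel⟩

def k4_pp_022_b : ∃ t, chk3 f_pp_022_b t 4 11 1 = true :=
  ⟨(a (a (b (a (c (a (b (l 15519016) (l 15235040)) (c (b (a (l 15608592) (l 15621768)) (l 15344704)) (a (l 15434080) (l 15431832)))) (a (c (a (l 15344888) (l 15362072)) (a (l 15250400) (l 15364304))) (c (l 15420880) (l 15431952)))) (c (a (c (l 15482048) (l 15480760)) (l 15565240)) (l 15564872))) (a (c (a (a (l 15052840) (l 15130648)) (c (l 15212824) (l 15171832))) (a (c (l 15005288) (a (l 15031728) (l 15075240))) (l 15144128))) (c (l 15283648) (l 15303536)))) (b (c (a (l 15649456) (l 15936816)) (l 15798096)) (c (l 15597064) (l 15598312)))) (b (a (a (l 16087560) (l 16271112)) (l 16473136)) (a (l 15977560) (l 16283440)))), by decide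 +kernel⟩

def k5_pp_022_b : ∃ t, chk3 f_pp_022_b t 5 5 1 = true :=
  ⟨(b (b (a (b (l 15424760) (l 15559904)) (b (l 15190384) (l 15343800))) (a (l 15950048) (l 15719048))) (b (a (l 16388224) (l 16135976)) (a (l 16596624) (l 16379504)))), by decide +kernel⟩

def k6_pp_022_b : ∃ t, chk3 f_pp_022_b t 3 5 1 = true :=
  ⟨(b (b (b (l 15129840) (l 15297632)) (l 15611952)) (b (l 15757296) (a (l 16240864) (l 2)))), by decide +kernel⟩

def k7_pp_022_b : ∃ t, chk3 f_pp_022_b t 1 3 1 = true :=
  ⟨(a (a (b (a (a (b (a (c (a (l 15104536) (l 15191976)) (c (l 15016952) (l 15111328))) (c (l 15272512) (l 15292136))) (c (a (l 15109488) (l 15225752)) (a (l 14829760) (l 15243632)))) (b (c (l 15562808) (l 15563008)) (c (l 15499144) (l 15496904)))) (b (a (l 15918544) (l 16207536)) (a (l 15837344) (l 16116880)))) (a (a (c (b (a (l 15107344) (l 15223200)) (l 15175120)) (b (l 14988000) (l 15155776))) (b (l 15490848) (l 15490848))) (b (c (l 15976144) (l 15955336)) (l 15799792)))) (b (b (a (l 16507752) (l 16568840))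 (a (l 16414248) (l 16733488))) (b (a (l 16410784) (l 2)) (l 2)))) (b (b (a (l 16501648) (l 2)) (l 2)) (l 2))), by decide +kernel⟩

theorem s8_pp_022_b : ∃ t, chk3 f_pp_022_b t 8 10 1 = true := ex3_b k1_pp_022_b k2_pp_022_b

theorem s9_pp_022_b : ∃ t, chk3 f_pp_022_b t 4 10 1 = true := ex3_a s8_pp_022_b k3_pp_022_b

theorem s10_pp_022_b : ∃ t, chk3 f_pp_022_b t 4 5 1 = true := ex3_b s9_pp_022_b k4_pp_022_b

theorem s11_pp_022_b : ∃ t, chk3 f_pp_022_b t 2 5 1 = true := ex3_a s10_pp_022_b k5_pp_022_b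

theorem s12_pp_022_b : ∃ t, chk3 f_pp_022_b t 1 5 1 = true := ex3_a s11_pp_022_b k6_pp_022_b

theorem s13_pp_022_b : ∃ t, chk3 f_pp_022_b t 1 2 1 = true := ex3_b k0_pp_022_b s12_pp_022_b

theorem s14_pp_022_b : ∃ t, chk3 f_pp_022_b t 1 1 1 = true := ex3_b s13_pp_022_b k7_pp_022_b

theorem c_pp_022_b : CertFX 0 536870912 1239849684 370763052 1046898278 26843546 false true true .pp 0 2 2
    ndF5q0 ndF1q2b pcF2 Cut.none Ext.none :=
  certFX1 (fam := false) (s1 := true) (s2 := true) (a := 0) (b := 2) (c := 2) (cn := .pp) (n1 := ndF5q0) (n2 := ndF1q2b) (pc := pcF2) (cut := Cut.none) (xt := Ext.none) (P1 := 0) (W1 := 536870912) (P2 := 1239849684) (W2 := 370763052) (P3 := 1046898278) (W3 := 26843546)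
    rfl (fun _ => rfl) s14_pp_022_b

noncomputable def f_pp_023 : ℕ → ℕ → ℕ → ℕ → Bool := onCell 1073741824 536870912 1610612736 469762048 1046898278 26843546
    (rowFX 2 false true true .up 0 2 3 (qsf 0 536870912 1610612736 469762048 2) ndF5q0 ndF1q3 pcF2 Cut.none Ext.none)

def k0_pp_023 : ∃ t, chk3 f_pp_023 t 1 1 1 = true :=
  ⟨(a (a (b (a (b (l 14463776) (l 2)) (b (l 14632856) (l 14675520))) (l 2)) (a (b (a (a (l 15113256) (l 15289272)) (l 15584168)) (l 2)) (b (a (l 15916128) (l 16181936)) (a (l 15832240) (l 4))))) (b (a (a (b (l 16526808) (l 16472936)) (b (b (l 16548256) (l 16742032)) (l 16767648))) (b (a (b (a (l 16286232) (l 16051512)) (l 16511296)) (b (a (l 15640264) (b (c (l 15183120) (l 15298088)) (l 15595304))) (a (l 16230792) (l 15983320)))) (a (l 16741512) (b (l 16473912) (l 4))))) (a (l 4) (l 4)))), by decide +kernel⟩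

theorem c_pp_023 : CertFX 0 536870912 1610612736 469762048 1046898278 26843546 false true true .up 0 2 3
    ndF5q0 ndF1q3 pcF2 Cut.none Ext.none :=
  certFX2 (fam := false) (s1 := true) (s2 := true) (a := 0) (b := 2) (c := 3) (cn := .up) (n1 := ndF5q0) (n2 := ndF1q3) (pc := pcF2) (cut := Cut.none) (xt := Ext.none) (P1 := 0) (W1 := 536870912) (P2 := 1610612736) (W2 := 469762048) (P3 := 1046898278) (W3 := 26843546)
    rfl (fun _ => rfl) k0_pp_023

noncomputable def f_pp_033 : ℕ → ℕ → ℕ → ℕ → Bool := onCell 0 536870912 1610612736 536870912 1046898278 26843546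
    (rowFX 1 false true true .pnn 0 3 3 (qsf 0 536870912 1610612736 469762048 3) ndF5q0 ndF1q3 pcF3 Cut.none Ext.none)

def k0_pp_033 : ∃ t, chk3 f_pp_033 t 1 1 1 = true :=
  ⟨(a (b (a (b (a (b (a (c (l 15175120) (l 15155776)) (l 15490848)) (c (a (l 14923464) (l 15496128)) (a (c (l 15162528) (l 15154424)) (l 15493760)))) (b (c (l 15976144) (l 15955336)) (l 4))) (l 4)) (l 4)) (a (l 4) (b (l 4) (l 2)))) (b (a (l 4) (b (l 4) (l 2))) (l 2))), by decide +kernel⟩

theorem c_pp_033 : CertFX 0 536870912 1610612736 469762048 1046898278 26843546 false true true .pnn 0 3 3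
    ndF5q0 ndF1q3 pcF3 Cut.none Ext.none :=
  certFX1 (fam := false) (s1 := true) (s2 := true) (a := 0) (b := 3) (c := 3) (cn := .pnn) (n1 := ndF5q0) (n2 := ndF1q3) (pc := pcF3) (cut := Cut.none) (xt := Ext.none) (P1 := 0) (W1 := 536870912) (P2 := 1610612736) (W2 := 469762048) (P3 := 1046898278) (W3 := 26843546)
    rfl (fun _ => rfl) k0_pp_033

noncomputable def f_pp_101 : ℕ → ℕ → ℕ → ℕ → Bool := onCell 536870912 469762048 536870912 536870912 1046898278 26843546
    (rowFX 0 false true true .npn 1 0 1 (qsf 536870912 469762048 536870912 536870912 0) ndF5q1 ndF1q1 pcF0 Cut.none Ext.none)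

def k0_pp_101 : ∃ t, chk3 f_pp_101 t 1 1 1 = true :=
  ⟨(l 3), by decide +kernel⟩

theorem c_pp_101 : CertFX 536870912 469762048 536870912 536870912 1046898278 26843546 false true true .npn 1 0 1
    ndF5q1 ndF1q1 pcF0 Cut.none Ext.none :=
  certFX0 (fam := false) (s1 := true) (s2 := true) (a := 1) (b := 0) (c := 1) (cn := .npn) (n1 := ndF5q1) (n2 := ndF1q1) (pc := pcF0) (cut := Cut.none) (xt := Ext.none) (P1 := 536870912) (W1 := 469762048) (P2 := 536870912) (W2 := 536870912) (P3 := 1046898278) (W3 := 26843546)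
    rfl k0_pp_101

noncomputable def f_pp_102_a : ℕ → ℕ → ℕ → ℕ → Bool := onCell 536870912 469762048 0 420477299 1046898278 26843546
    (rowFX 0 false true true .npp 1 0 2 (qsf 536870912 469762048 0 420477299 0) ndF5q1 ndF1q2a pcF0 Cut.none Ext.none)

def k0_pp_102_a : ∃ t, chk3 f_pp_102_a t 1 1 1 = true :=
  ⟨(a (b (a (l 2) (b (l 16777216) (l 16777208))) (b (a (l 16777184) (a (l 16777184) (l 16777184))) (b (a (l 16722320) (l 16722320)) (a (l 16459424) (b (l 16569328) (l 16435088)))))) (a (b (b (a (l 16777216) (l 16694216)) (a (l 16777208) (l 16694224))) (b (a (l 16777184) (l 16694232)) (b (a (l 16722320) (l 16724632)) (a (l 16501368) (l 16526512))))) (b (a (a (b (l 16515152) (l 16515160)) (l 16143272)) (a (l 15443568) (b (l 15134696) (b (a (l 15256528) (c (l 15054000) (l 15014760))) (a (c (l 15290976) (l 15255584)) (l 15087280)))))) (b (a (a (l 16515176) (l 16143296)) (a (b (b (l 15402656) (l 15643216)) (a (l 15778920) (l 15583144))) (b (c (l 15262488) (a (l 15310480) (l 15145160)))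 (c (l 15364616) (l 15332928))))) (a (b (a (l 16550672) (b (l 16159432) (a (l 16337480) (l 16138648)))) (a (b (l 16650648) (a (l 16621736) (l 16617096))) (b (a (l 16447136) (l 16294200)) (l 16550624)))) (b (a (b (l 15766864) (l 15904872)) (c (l 15546376) (l 15520640))) (a (b (l 16076088) (l 16152192)) (b (l 15685744) (a (l 16011968) (l 15908232)))))))))), by decide +kernel⟩

theorem c_pp_102_a : CertFX 536870912 469762048 0 420477299 1046898278 26843546 false true true .npp 1 0 2
    ndF5q1 ndF1q2a pcF0 Cut.none Ext.none :=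
  certFX0 (fam := false) (s1 := true) (s2 := true) (a := 1) (b := 0) (c := 2) (cn := .npp) (n1 := ndF5q1) (n2 := ndF1q2a) (pc := pcF0) (cut := Cut.none) (xt := Ext.none) (P1 := 536870912) (W1 := 469762048) (P2 := 0) (W2 := 420477299) (P3 := 1046898278) (W3 := 26843546)
    rfl k0_pp_102_a

noncomputable def f_pp_102_b : ℕ → ℕ → ℕ → ℕ → Bool := onCell 536870912 469762048 1239849684 370763052 1046898278 26843546
    (rowFX 0 false true true .npp 1 0 2 (qsf 536870912 469762048 1239849684 370763052 0) ndF5q1 ndF1q2b pcF0 Cut.none Ext.none)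

def k0_pp_102_b : ∃ t, chk3 f_pp_102_b t 1 1 1 = true :=
  ⟨(a (b (a (l 2) (b (l 16777216) (l 2))) (l 2)) (a (b (b (a (l 16777216) (l 16631304)) (a (l 16777216) (l 16694216))) (b (l 16737208) (l 2))) (b (a (b (a (l 16452240) (l 16143272)) (a (l 16515152) (l 16143272))) (b (a (l 15632304) (l 15130032)) (b (l 15382600) (l 15256768)))) (a (b (l 16290184) (l 2)) (b (c (l 15399608) (l 15367016)) (l 15382600)))))), by decide +kernel⟩

theorem c_pp_102_b : CertFX 536870912 469762048 1239849684 370763052 1046898278 26843546 false true true .npp 1 0 2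
    ndF5q1 ndF1q2b pcF0 Cut.none Ext.none :=
  certFX0 (fam := false) (s1 := true) (s2 := true) (a := 1) (b := 0) (c := 2) (cn := .npp) (n1 := ndF5q1) (n2 := ndF1q2b) (pc := pcF0) (cut := Cut.none) (xt := Ext.none) (P1 := 536870912) (W1 := 469762048) (P2 := 1239849684) (W2 := 370763052) (P3 := 1046898278) (W3 := 26843546)
    rfl k0_pp_102_b

noncomputable def f_pp_112_a : ℕ → ℕ → ℕ → ℕ → Bool := onCell 536870912 469762048 0 420477299 1046898278 26843546
    (rowFX 0 false true true .dn 1 1 2 (qsf 536870912 469762048 0 420477299 1) ndF5q1 ndF1q2a pcF1 Cut.none Ext.none)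

def k0_pp_112_a : ∃ t, chk3 f_pp_112_a t 1 1 1 = true :=
  ⟨(a (a (b (b (l 16777216) (l 16777208)) (b (a (l 16777184) (l 16777184)) (b (l 16722320) (b (l 16569328) (l 16435088))))) (b (b (l 16777216) (l 16777208)) (b (l 16777184) (l 1)))) (l 1)), by decide +kernel⟩

theorem c_pp_112_a : CertFX 536870912 469762048 0 420477299 1046898278 26843546 false true true .dn 1 1 2
    ndF5q1 ndF1q2a pcF1 Cut.none Ext.none :=
  certFX0 (fam := false) (s1 := true) (s2 := true) (a := 1) (b := 1) (c := 2) (cn := .dn) (n1 := ndF5q1) (n2 := ndF1q2a) (pc := pcF1) (cut := Cut.none) (xt := Ext.none) (P1 := 536870912) (W1 := 469762048) (P2 := 0) (W2 := 420477299) (P3 := 1046898278) (W3 := 26843546)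
    rfl k0_pp_112_a

noncomputable def f_pp_112_b : ℕ → ℕ → ℕ → ℕ → Bool := onCell 536870912 469762048 536870912 536870912 1046898278 26843546
    (rowFX 1 false true true .dn 1 1 2 (qsf 536870912 469762048 1239849684 370763052 1) ndF5q1 ndF1q2b pcF1 Cut.none Ext.none)

def k0_pp_112_b : ∃ t, chk3 f_pp_112_b t 1 1 1 = true :=
  ⟨(b (a (b (a (l 586296744119) (l 16777216)) (l 16777216)) (a (b (l 16737208) (l 16737208)) (a (b (l 16332128) (l 16332128)) (b (l 15382600) (l 2))))) (a (b (b (l 16775200) (l 16721080)) (b (b (l 16157032) (l 15673736)) (b (l 15051680) (a (l 14718376) (l 2))))) (b (a (l 16706208) (l 2)) (l 2)))), by decide +kernel⟩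

theorem c_pp_112_b : CertFX 536870912 469762048 1239849684 370763052 1046898278 26843546 false true true .dn 1 1 2
    ndF5q1 ndF1q2b pcF1 Cut.none Ext.none :=
  certFX1 (fam := false) (s1 := true) (s2 := true) (a := 1) (b := 1) (c := 2) (cn := .dn) (n1 := ndF5q1) (n2 := ndF1q2b) (pc := pcF1) (cut := Cut.none) (xt := Ext.none) (P1 := 536870912) (W1 := 469762048) (P2 := 1239849684) (W2 := 370763052) (P3 := 1046898278) (W3 := 26843546)
    rfl (fun _ => rfl) k0_pp_112_b

noncomputable def f_pp_113 : ℕ → ℕ → ℕ → ℕ → Bool := onCell 536870912 469762048 536870912 536870912 1046898278 26843546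
    (rowFX 1 false true true .nn 1 1 3 (qsf 536870912 469762048 1610612736 469762048 1) ndF5q1 ndF1q3 pcF1 Cut.none Ext.none)

def k0_pp_113 : ∃ t, chk3 f_pp_113 t 1 1 1 = true :=
  ⟨(b (a (l 1) (a (l 530461689063) (a (b (l 16332128) (l 16332128)) (b (l 15382600) (l 15382600))))) (a (b (l 611529976951) (b (l 586294441639) (b (l 15051680) (a (l 14718376) (l 14495016))))) (b (a (l 16706208) (a (l 16300080) (l 15349848))) (a (b (l 15763584) (l 14634464)) (b (l 14901520) (a (l 14185368) (l 13392264))))))), by decide +kernel⟩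

theorem c_pp_113 : CertFX 536870912 469762048 1610612736 469762048 1046898278 26843546 false true true .nn 1 1 3
    ndF5q1 ndF1q3 pcF1 Cut.none Ext.none :=
  certFX1 (fam := false) (s1 := true) (s2 := true) (a := 1) (b := 1) (c := 3) (cn := .nn) (n1 := ndF5q1) (n2 := ndF1q3) (pc := pcF1) (cut := Cut.none) (xt := Ext.none) (P1 := 536870912) (W1 := 469762048) (P2 := 1610612736) (W2 := 469762048) (P3 := 1046898278) (W3 := 26843546)
    rfl (fun _ => rfl) k0_pp_113

noncomputable def f_pp_123 : ℕ → ℕ → ℕ → ℕ → Bool := onCell 536870912 469762048 1073741824 536870912 1046898278 26843546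
    (rowFX 1 false true true .npn 1 2 3 (qsf 536870912 469762048 1610612736 469762048 2) ndF5q1 ndF1q3 pcF2 Cut.none Ext.none)

def k0_pp_123 : ∃ t, chk3 f_pp_123 t 1 1 1 = true :=
  ⟨(b (a (b (b (a (l 14412128) (l 14267400)) (b (l 14632808) (l 14859488))) (b (b (l 15189896) (l 15541864)) (b (l 15834176) (l 4)))) (b (a (b (l 14123152) (b (l 14497608) (l 14819272))) (b (a (l 13905736) (l 14301200)) (l 4))) (a (l 4) (l 2)))) (a (b (l 4) (a (l 4) (l 2))) (l 2))), by decide +kernel⟩

theorem c_pp_123 : CertFX 536870912 469762048 1610612736 469762048 1046898278 26843546 false true true .npn 1 2 3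
    ndF5q1 ndF1q3 pcF2 Cut.none Ext.none :=
  certFX1 (fam := false) (s1 := true) (s2 := true) (a := 1) (b := 2) (c := 3) (cn := .npn) (n1 := ndF5q1) (n2 := ndF1q3) (pc := pcF2) (cut := Cut.none) (xt := Ext.none) (P1 := 536870912) (W1 := 469762048) (P2 := 1610612736) (W2 := 469762048) (P3 := 1046898278) (W3 := 26843546)
    rfl (fun _ => rfl) k0_pp_123

noncomputable def f_pp_133 : ℕ → ℕ → ℕ → ℕ → Bool := onCell 536870912 469762048 1610612736 469762048 1046898278 26843546
    (rowFX 0 false true true .dn 1 3 3 (qsf 536870912 469762048 1610612736 469762048 3) ndF5q1 ndF1q3 pcF3 Cut.none Ext.none)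

def k0_pp_133 : ∃ t, chk3 f_pp_133 t 1 1 1 = true :=
  ⟨(l 1), by decide +kernel⟩

theorem c_pp_133 : CertFX 536870912 469762048 1610612736 469762048 1046898278 26843546 false true true .dn 1 3 3
    ndF5q1 ndF1q3 pcF3 Cut.none Ext.none :=
  certFX0 (fam := false) (s1 := true) (s2 := true) (a := 1) (b := 3) (c := 3) (cn := .dn) (n1 := ndF5q1) (n2 := ndF1q3) (pc := pcF3) (cut := Cut.none) (xt := Ext.none) (P1 := 536870912) (W1 := 469762048) (P2 := 1610612736) (W2 := 469762048) (P3 := 1046898278) (W3 := 26843546)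
    rfl k0_pp_133

noncomputable def f_pp_202_a : ℕ → ℕ → ℕ → ℕ → Bool := onCell 1073741824 536870912 0 420477299 1046898278 26843546
    (rowFX 0 false true true .pp 2 0 2 (qsf 1073741824 536870912 0 420477299 0) ndF5q2 ndF1q2a pcF0 Cut.none Ext.none)

def k0_pp_202_a : ∃ t, chk3 f_pp_202_a t 1 1 1 = true :=
  ⟨(l 3), by decide +kernel⟩

theorem c_pp_202_a : CertFX 1073741824 536870912 0 420477299 1046898278 26843546 false true true .pp 2 0 2
    ndF5q2 ndF1q2a pcF0 Cut.none Ext.none :=
  certFX0 (fam := false) (s1 := true) (s2 := true) (a := 2) (b := 0) (c := 2) (cn := .pp) (n1 := ndF5q2) (n2 := ndF1q2a) (pc := pcF0) (cut := Cut.none) (xt := Ext.none) (P1 := 1073741824) (W1 := 536870912) (P2 := 0) (W2 := 420477299) (P3 := 1046898278) (W3 := 26843546)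
    rfl k0_pp_202_a

noncomputable def f_pp_202_b : ℕ → ℕ → ℕ → ℕ → Bool := onCell 1073741824 536870912 1239849684 370763052 1046898278 26843546
    (rowFX 0 false true true .pp 2 0 2 (qsf 1073741824 536870912 1239849684 370763052 0) ndF5q2 ndF1q2b pcF0 Cut.none Ext.none)

def k0_pp_202_b : ∃ t, chk3 f_pp_202_b t 1 1 1 = true :=
  ⟨(l 3), by decide +kernel⟩

theorem c_pp_202_b : CertFX 1073741824 536870912 1239849684 370763052 1046898278 26843546 false true true .pp 2 0 2
    ndF5q2 ndF1q2b pcF0 Cut.none Ext.none :=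
  certFX0 (fam := false) (s1 := true) (s2 := true) (a := 2) (b := 0) (c := 2) (cn := .pp) (n1 := ndF5q2) (n2 := ndF1q2b) (pc := pcF0) (cut := Cut.none) (xt := Ext.none) (P1 := 1073741824) (W1 := 536870912) (P2 := 1239849684) (W2 := 370763052) (P3 := 1046898278) (W3 := 26843546)
    rfl k0_pp_202_b

noncomputable def f_pp_203 : ℕ → ℕ → ℕ → ℕ → Bool := onCell 1073741824 536870912 0 536870912 1046898278 26843546
    (rowFX 1 false true true .up 2 0 3 (qsf 1073741824 536870912 1610612736 469762048 0) ndF5q2 ndF1q3 pcF0 Cut.none Ext.none)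

def k0_pp_203 : ∃ t, chk3 f_pp_203 t 1 1 1 = true :=
  ⟨(l 3), by decide +kernel⟩

theorem c_pp_203 : CertFX 1073741824 536870912 1610612736 469762048 1046898278 26843546 false true true .up 2 0 3
    ndF5q2 ndF1q3 pcF0 Cut.none Ext.none :=
  certFX1 (fam := false) (s1 := true) (s2 := true) (a := 2) (b := 0) (c := 3) (cn := .up) (n1 := ndF5q2) (n2 := ndF1q3) (pc := pcF0) (cut := Cut.none) (xt := Ext.none) (P1 := 1073741824) (W1 := 536870912) (P2 := 1610612736) (W2 := 469762048) (P3 := 1046898278) (W3 := 26843546)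
    rfl (fun _ => rfl) k0_pp_203

noncomputable def f_pp_213 : ℕ → ℕ → ℕ → ℕ → Bool := onCell 1073741824 536870912 1610612736 469762048 1046898278 26843546
    (rowFX 0 false true true .pnn 2 1 3 (qsf 1073741824 536870912 1610612736 469762048 1) ndF5q2 ndF1q3 pcF1 Cut.none Ext.none)

def k0_pp_213 : ∃ t, chk3 f_pp_213 t 1 1 1 = true :=
  ⟨(a (b (l 3) (a (b (l 3) (a (b (l 3) (a (b (a (l 16247216) (l 3)) (a (l 16150504) (l 16045768))) (b (l 3) (a (l 15890672) (l 3))))) (l 3))) (l 3))) (l 3)), by decide +kernel⟩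

theorem c_pp_213 : CertFX 1073741824 536870912 1610612736 469762048 1046898278 26843546 false true true .pnn 2 1 3
    ndF5q2 ndF1q3 pcF1 Cut.none Ext.none :=
  certFX0 (fam := false) (s1 := true) (s2 := true) (a := 2) (b := 1) (c := 3) (cn := .pnn) (n1 := ndF5q2) (n2 := ndF1q3) (pc := pcF1) (cut := Cut.none) (xt := Ext.none) (P1 := 1073741824) (W1 := 536870912) (P2 := 1610612736) (W2 := 469762048) (P3 := 1046898278) (W3 := 26843546)
    rfl k0_pp_213

noncomputable def f_pp_303 : ℕ → ℕ → ℕ → ℕ → Bool := onCell 0 1230186008 1610612736 469762048 1046898278 26843546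
    (rowFX 0 false true true .npn 3 0 3 (qsf 0 1230186008 1610612736 469762048 0) ndF5q3 ndF1q3 pcF0 Cut.none Ext.none)

def k0_pp_303 : ∃ t, chk3 f_pp_303 t 1 1 1 = true :=
  ⟨(a (l 3) (l 3)), by decide +kernel⟩

theorem c_pp_303 : CertFX 0 1230186008 1610612736 469762048 1046898278 26843546 false true true .npn 3 0 3
    ndF5q3 ndF1q3 pcF0 Cut.none Ext.none :=
  certFX0 (fam := false) (s1 := true) (s2 := true) (a := 3) (b := 0) (c := 3) (cn := .npn) (n1 := ndF5q3) (n2 := ndF1q3) (pc := pcF0) (cut := Cut.none) (xt := Ext.none) (P1 := 0) (W1 := 1230186008) (P2 := 1610612736) (W2 := 469762048) (P3 := 1046898278) (W3 := 26843546)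
    rfl k0_pp_303

noncomputable def f_pp_313 : ℕ → ℕ → ℕ → ℕ → Bool := onCell 0 1230186008 1610612736 469762048 1046898278 26843546
    (rowFX 0 false true true .dn 3 1 3 (qsf 0 1230186008 1610612736 469762048 1) ndF5q3 ndF1q3 pcF1 Cut.none Ext.none)

def k0_pp_313 : ∃ t, chk3 f_pp_313 t 1 1 1 = true :=
  ⟨(l 1), by decide +kernel⟩

theorem c_pp_313 : CertFX 0 1230186008 1610612736 469762048 1046898278 26843546 false true true .dn 3 1 3
    ndF5q3 ndF1q3 pcF1 Cut.none Ext.none :=
  certFX0 (fam := false) (s1 := true) (s2 := true) (a := 3) (b := 1) (c := 3) (cn := .dn) (n1 := ndF5q3) (n2 := ndF1q3) (pc := pcF1) (cut := Cut.none) (xt := Ext.none) (P1 := 0) (W1 := 1230186008) (P2 := 1610612736) (W2 := 469762048) (P3 := 1046898278) (W3 := 26843546)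
    rfl k0_pp_313

noncomputable def f_pm_001 : ℕ → ℕ → ℕ → ℕ → Bool := onCell 0 536870912 536870912 536870912 1046898278 26843546
    (rowFX 0 false true false .up 0 0 1 (qsf 0 536870912 536870912 536870912 0) ndF5q0 ndF1q1 pcF0 Cut.none Ext.none)

def k0_pm_001 : ∃ t, chk3 f_pm_001 t 1 1 1 = true :=
  ⟨(l 4), by decide +kernel⟩

theorem c_pm_001 : CertFX 0 536870912 536870912 536870912 1046898278 26843546 false true false .up 0 0 1
    ndF5q0 ndF1q1 pcF0 Cut.none Ext.none :=
  certFX0 (fam := false) (s1 := true) (s2 := false) (a := 0) (b := 0) (c := 1) (cn := .up) (n1 := ndF5q0) (n2 := ndF1q1) (pc := pcF0) (cut := Cut.none) (xt := Ext.none) (P1 := 0) (W1 := 536870912) (P2 := 536870912) (W2 := 536870912) (P3 := 1046898278) (W3 := 26843546)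
    rfl k0_pm_001

noncomputable def f_pm_011 : ℕ → ℕ → ℕ → ℕ → Bool := onCell 0 536870912 536870912 536870912 1046898278 26843546
    (rowFX 0 false true false .pnn 0 1 1 (qsf 0 536870912 536870912 536870912 1) ndF5q0 ndF1q1 pcF1 Cut.none Ext.none)

def k0_pm_011 : ∃ t, chk3 f_pm_011 t 1 1 1 = true :=
  ⟨(l 4), by decide +kernel⟩

theorem c_pm_011 : CertFX 0 536870912 536870912 536870912 1046898278 26843546 false true false .pnn 0 1 1
    ndF5q0 ndF1q1 pcF1 Cut.none Ext.none :=
  certFX0 (fam := false) (s1 := true) (s2 := false) (a := 0) (b := 1) (c := 1) (cn := .pnn) (n1 := ndF5q0) (n2 := ndF1q1) (pc := pcF1) (cut := Cut.none) (xt := Ext.none) (P1 := 0) (W1 := 536870912) (P2 := 536870912) (W2 := 536870912) (P3 := 1046898278) (W3 := 26843546)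
    rfl k0_pm_011

noncomputable def f_pm_012_a : ℕ → ℕ → ℕ → ℕ → Bool := onCell 536870912 536870912 0 420477299 1046898278 26843546
    (rowFX 2 false true false .pnp 0 1 2 (qsf 0 536870912 0 420477299 1) ndF5q0 ndF1q2a pcF1 Cut.none Ext.none)

def k0_pm_012_a : ∃ t, chk3 f_pm_012_a t 2 1 1 = true :=
  ⟨(b (a (l 2) (b (a (b (l 16766032) (l 16714048)) (a (b (l 16762272) (l 16625984)) (b (l 16777216) (l 16618496)))) (b (a (l 16655288) (a (l 16398864) (l 16226992))) (l 4)))) (l 4)), by decide +kernel⟩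

def k1_pm_012_a : ∃ t, chk3 f_pm_012_a t 6 1 1 = true :=
  ⟨(b (b (a (a (b (l 16777064) (b (l 16733824) (l 16519080))) (b (b (l 16776984) (l 16664472)) (b (l 16546744) (l 16391552)))) (a (b (b (l 16772360) (a (l 16659976) (a (l 16724672) (a (l 16729768) (l 16743680))))) (b (a (l 16364104) (l 16384040)) (a (l 16113840) (l 15949648)))) (b (a (a (a (l 16741720) (l 16544920)) (l 16634328)) (l 16454272)) (a (b (a (b (l 16508264) (l 16254688)) (b (b (l 16620040) (l 16432328)) (l 16196528))) (l 15901032)) (b (b (a (l 16467816) (l 16223472)) (a (c (l 16234424) (l 16253912)) (b (l 16233496) (l 16085336)))) (l 15734464)))))) (b (a (a (l 15904368) (b (l 16031408) (l 15720904))) (a (b (l 15545800) (l 15470160)) (b (a (l 15462776) (l 15459128)) (l 15188216)))) (a (l 4) (a (l 4) (a (l 4) (l 15195136)))))) (l 4)), by decide +kernel⟩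

def k2_pm_012_a : ∃ t, chk3 f_pm_012_a t 14 1 1 = true :=
  ⟨(b (b (a (b (l 16005488) (a (b (l 15938672) (b (a (l 15925952) (l 15804416)) (l 15755456))) (b (l 15781968) (b (a (l 15797520) (l 15645056)) (a (l 15715992) (l 15577408)))))) (a (a (l 15595008) (l 15482624)) (l 15339552))) (b (b (b (a (a (l 15535776) (a (l 15492968) (l 15470552))) (a (a (l 15453984) (l 15333936)) (a (l 15208584) (l 15129480)))) (a (a (l 15332440) (l 15308112)) (a (c (l 15240896) (l 15209184)) (a (c (l 15192728) (l 15156408)) (a (l 15102976) (l 15062112)))))) (a (a (l 15052712) (b (a (l 15149328) (l 15118608)) (l 14911184))) (b (a (a (l 15048888) (l 15002928)) (a (l 14955928) (c (l 15013360) (l 14978200)))) (c (a (l 14875840) (a (l 14793008) (l 14770768))) (a (l 14837984) (a (l 14759280) (l 14740088))))))) (b (a (a (l 14795616) (c (l 14693064) (l 14833288))) (c (a (b (l 14644776) (l 14518656)) (a (l 14509352) (b (l 14617520) (l 14443104)))) (a (l 14696856) (b (a (l 14576304) (l 14591336)) (l 14431376)))))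 (l 4)))) (l 4)), by decide +kernel⟩

def k3_pm_012_a : ∃ t, chk3 f_pm_012_a t 30 1 1 = true :=
  ⟨(b (a (b (l 15169024) (a (b (b (c (l 15043712) (l 14997248)) (a (b (c (l 15010304) (l 14971696)) (l 14773408)) (b (c (l 14965912) (l 14930888)) (c (l 14816984) (l 14790464))))) (a (c (c (l 14601408) (l 14486856)) (l 14456840)) (c (c (l 14626968) (l 14642672)) (l 14615664)))) (b (b (l 14944120) (b (c (l 14891960) (l 14871904)) (c (b (l 14825128) (l 14788456)) (b (l 14846472) (l 14751752))))) (c (c (l 14567720) (l 14526384)) (b (l 14389368) (l 14463768)))))) (b (l 15013856) (b (b (l 14799472) (b (l 14744888) (a (c (a (b (l 14794352) (l 14781696)) (l 14731320)) (c (l 14591624) (l 14630984))) (l 14666200)))) (c (a (b (b (b (a (l 14682000) (l 14703784)) (l 14573296)) (b (l 14483888) (l 14396576))) (l 14407480)) (b (b (c (l 14570616) (l 14561168)) (a (l 14432584) (b (l 14490632) (l 14397856)))) (l 14352712))) (b (b (c (a (l 14717456) (l 14659192)) (a (l 14735864) (l 14634760))) (a (b (l 14488352)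 (l 14401960)) (c (c (l 14509704) (l 14546896)) (l 14401904)))) (c (l 14400696) (l 14382048))))))) (l 4)), by decide +kernel⟩

def k4_pm_012_a : ∃ t, chk3 f_pm_012_a t 31 1 1 = true :=
  ⟨(b (b (a (l 14653536) (c (l 14776440) (l 14772200))) (b (a (l 14554384) (l 14472000)) (b (a (a (b (c (l 14481200) (l 14563888)) (c (a (b (l 14493568) (l 14352608)) (l 14421104)) (c (a (b (l 14577456) (l 14393248)) (l 14521216)) (a (b (l 14555240) (l 14379792)) (l 14507232))))) (c (l 14364624) (c (l 14442232) (l 14453168)))) (l 14346832)) (c (a (a (l 14352448) (a (l 14331760) (l 14317344))) (l 14288008)) (a (c (a (l 14391392) (a (l 14396408) (l 14390792))) (a (l 14383448) (a (l 14397704) (l 14241680)))) (c (a (l 14293208) (l 14233248)) (a (c (l 14202792) (l 14328952)) (a (l 14235864) (l 14209816))))))))) (a (l 4) (b (a (l 4) (b (l 4) (l 4))) (l 4)))), by decide +kernel⟩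

theorem s5_pm_012_a : ∃ t, chk3 f_pm_012_a t 15 1 1 = true := ex3_a k3_pm_012_a k4_pm_012_a

theorem s6_pm_012_a : ∃ t, chk3 f_pm_012_a t 7 1 1 = true := ex3_a k2_pm_012_a s5_pm_012_a

theorem s7_pm_012_a : ∃ t, chk3 f_pm_012_a t 3 1 1 = true := ex3_a k1_pm_012_a s6_pm_012_a

theorem s8_pm_012_a : ∃ t, chk3 f_pm_012_a t 1 1 1 = true := ex3_a k0_pm_012_a s7_pm_012_a

theorem c_pm_012_a : CertFX 0 536870912 0 420477299 1046898278 26843546 false true false .pnp 0 1 2
    ndF5q0 ndF1q2a pcF1 Cut.none Ext.none :=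
  certFX2 (fam := false) (s1 := true) (s2 := false) (a := 0) (b := 1) (c := 2) (cn := .pnp) (n1 := ndF5q0) (n2 := ndF1q2a) (pc := pcF1) (cut := Cut.none) (xt := Ext.none) (P1 := 0) (W1 := 536870912) (P2 := 0) (W2 := 420477299) (P3 := 1046898278) (W3 := 26843546)
    rfl (fun _ => rfl) s8_pm_012_a

noncomputable def f_pm_012_b : ℕ → ℕ → ℕ → ℕ → Bool := onCell 0 536870912 536870912 536870912 1046898278 26843546
    (rowFX 1 false true false .pnp 0 1 2 (qsf 0 536870912 1239849684 370763052 1) ndF5q0 ndF1q2b pcF1 Cut.none Ext.none)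

def k0_pm_012_b : ∃ t, chk3 f_pm_012_b t 1 1 1 = true :=
  ⟨(b (a (l 1) (b (l 1) (a (l 1) (b (l 607771074583) (a (l 16718352) (l 16777216)))))) (a (a (l 1) (b (l 1) (b (a (l 1) (b (a (l 1) (l 16092832)) (l 390872856375))) (a (b (a (l 1) (l 496636161639)) (b (a (l 1) (l 15123448)) (c (l 15080144) (l 364028129607)))) (a (b (l 199745969815) (c (l 14716424) (l 14720784))) (b (l 15053792) (c (l 14501520) (l 14503704)))))))) (b (a (b (a (l 1) (b (l 16724320) (l 16768872))) (b (a (l 16716728) (a (l 16767528) (l 16751584))) (a (l 16612216) (b (b (a (l 16766208) (a (l 16766736) (l 16737264))) (l 16682920)) (l 16445512))))) (b (a (b (l 16777096) (l 16718664)) (l 16686872)) (a (b (a (a (l 16716536) (l 16608968)) (l 16457792)) (b (a (b (a (l 16737112) (l 16547624)) (l 16465008)) (a (l 16420144) (l 16216448))) (a (l 16385944) (l 16114816)))) (b (l 16218280) (b (l 15899272) (l 15681160)))))) (a (b (b (l 15889080) (l 15428888)) (b (a (c (l 14928744) (l 14930720)) (l 14768824)) (a (b (l 14440560)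 (l 14203816)) (b (l 14257648) (l 14009936))))) (a (b (b (a (b (l 16053336) (l 15715648)) (b (l 15847496) (l 15565424))) (a (c (l 15293760) (l 15261616)) (c (l 15193032) (l 15160576)))) (b (c (b (c (a (l 14858000) (l 14797992)) (l 14775896)) (a (l 14511920) (l 14448656))) (a (l 14669672) (b (l 14770496) (l 14468560)))) (a (l 14039624) (c (b (l 14075568) (l 13830312)) (b (c (l 14138064) (l 14135216)) (c (l 13807248) (l 13807576))))))) (b (b (a (l 15465056) (b (l 15364528) (l 15169824))) (b (a (l 15074264) (l 14894936)) (c (l 14446704) (l 14666864)))) (b (c (b (c (l 14453600) (l 14467840)) (l 14221312)) (b (l 14443912) (l 14225248))) (c (l 13903368) (b (l 13999808) (l 13756016)))))))))), by decide +kernel⟩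

theorem c_pm_012_b : CertFX 0 536870912 1239849684 370763052 1046898278 26843546 false true false .pnp 0 1 2
    ndF5q0 ndF1q2b pcF1 Cut.none Ext.none :=
  certFX1 (fam := false) (s1 := true) (s2 := false) (a := 0) (b := 1) (c := 2) (cn := .pnp) (n1 := ndF5q0) (n2 := ndF1q2b) (pc := pcF1) (cut := Cut.none) (xt := Ext.none) (P1 := 0) (W1 := 536870912) (P2 := 1239849684) (W2 := 370763052) (P3 := 1046898278) (W3 := 26843546)
    rfl (fun _ => rfl) k0_pm_012_b

noncomputable def f_pm_022_a : ℕ → ℕ → ℕ → ℕ → Bool := onCell 0 536870912 0 420477299 1046898278 26843546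
    (rowFX 0 false true false .pp 0 2 2 (qsf 0 536870912 0 420477299 2) ndF5q0 ndF1q2a pcF2 Cut.none Ext.none)

def k0_pm_022_a : ∃ t, chk3 f_pm_022_a t 4 2 1 = true :=
  ⟨(a (a (b (a (a (c (l 16285432) (c (a (l 16463160) (l 16466656)) (a (l 16217464) (l 16467424)))) (c (b (a (l 16408592) (c (l 16340304) (l 16367352))) (a (l 16334192) (a (l 16319016) (l 16339344)))) (b (c (l 16386000) (l 16364776)) (a (l 16278072) (l 16333920))))) (c (b (l 16187576) (l 16187960)) (b (l 16243272) (l 16221640)))) (a (b (a (c (a (l 16478336) (l 16353816)) (a (c (l 16457904) (l 16284560)) (c (b (l 16403360) (l 16378064)) (l 16350616)))) (c (a (l 16343016) (l 16309544)) (b (l 16336088) (l 16319856)))) (c (a (a (l 16417656) (l 16347712)) (l 16155720)) (a (a (b (c (l 16407112) (l 16400568)) (l 16374008)) (c (l 16343624) (l 16342304))) (l 16235312)))) (c (a (l 16061368) (l 16051712)) (l 15892072)))) (b (c (a (l 15949464) (b (l 15975032) (l 15894208))) (a (l 16070536) (l 15909576))) (a (c (b (l 16018680) (l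 15921880)) (l 15923968)) (b (c (l 15786008) (l 15769728)) (c (a (l 15721432) (l 15529352)) (l 15641344)))))) (b (a (a (c (b (l 15806856) (l 15606976)) (b (l 15796056) (l 15679960))) (c (l 15516592) (l 15511816))) (c (a (l 15260456) (l 15039936)) (a (l 15259520) (l 15038480)))) (a (c (a (b (l 15343264) (l 15383344)) (b (l 15284096) (l 15092808))) (b (l 15397144) (l 15091456))) (c (b (l 14895584) (l 14697136)) (a (l 14913032) (b (l 14780984) (l 14566360))))))), by decide +kernel⟩

def k1_pm_022_a : ∃ t, chk3 f_pm_022_a t 4 3 1 = true :=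
  ⟨(a (b (a (a (c (b (a (l 16303336) (l 15952392)) (a (l 16168584) (c (l 15995032) (l 16047032)))) (a (b (c (l 16226624) (a (l 16266784) (l 16254344))) (c (l 15941440) (a (l 16042824) (l 16109832)))) (b (l 16091752) (c (l 16042000) (l 16012792))))) (c (b (a (l 16103592) (l 15997448)) (a (c (l 15944512) (l 15964344)) (b (l 15872016) (l 15597400)))) (b (l 15984888) (b (l 15873272) (l 15636544))))) (b (c (a (c (l 15585304) (l 15765080)) (a (b (l 15605512) (l 15507208)) (l 15404872))) (a (l 15733432) (l 15473416))) (b (c (a (a (l 15703400) (l 15572192)) (c (l 15339280) (l 15355912))) (a (l 15611400) (l 15351200))) (l 4)))) (a (b (b (a (a (a (a (c (l 16135288) (l 16090072)) (l 4)) (l 4)) (l 4)) (l 4)) (l 4)) (l 4)) (l 4))) (b (b (a (c (a (c (l 15170040) (l 15199560)) (l 14858760)) (a (l 15199632) (l 14901416))) (c (l 14523040) (b (a (l 14664976) (l 14405560)) (l 4)))) (l 4)) (l 4))), by decide +kernel⟩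

def k2_pm_022_a : ∃ t, chk3 f_pm_022_a t 5 1 1 = true :=
  ⟨(a (b (b (a (c (l 14728192) (c (l 14704648) (l 14697984))) (l 1)) (a (c (l 14350976) (b (l 14415264) (l 14053680))) (l 1))) (b (b (a (c (l 14110448) (l 14048408)) (l 1)) (l 1)) (l 1))) (l 1)), by decide +kernel⟩

def k3_pm_022_a : ∃ t, chk3 f_pm_022_a t 3 1 1 = true :=
  ⟨(l 1), by decide +kernel⟩

theorem s4_pm_022_a : ∃ t, chk3 f_pm_022_a t 4 1 1 = true := ex3_b k0_pm_022_a k1_pm_022_a

theorem s5_pm_022_a : ∃ t, chk3 f_pm_022_a t 2 1 1 = true := ex3_a s4_pm_022_a k2_pm_022_a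

theorem s6_pm_022_a : ∃ t, chk3 f_pm_022_a t 1 1 1 = true := ex3_a s5_pm_022_a k3_pm_022_a

theorem c_pm_022_a : CertFX 0 536870912 0 420477299 1046898278 26843546 false true false .pp 0 2 2
    ndF5q0 ndF1q2a pcF2 Cut.none Ext.none :=
  certFX0 (fam := false) (s1 := true) (s2 := false) (a := 0) (b := 2) (c := 2) (cn := .pp) (n1 := ndF5q0) (n2 := ndF1q2a) (pc := pcF2) (cut := Cut.none) (xt := Ext.none) (P1 := 0) (W1 := 536870912) (P2 := 0) (W2 := 420477299) (P3 := 1046898278) (W3 := 26843546)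
    rfl s6_pm_022_a

noncomputable def f_pm_022_b : ℕ → ℕ → ℕ → ℕ → Bool := onCell 0 536870912 1073741824 536870912 1046898278 26843546
    (rowFX 1 false true false .pp 0 2 2 (qsf 0 536870912 1239849684 370763052 2) ndF5q0 ndF1q2b pcF2 Cut.none Ext.none)

def k0_pm_022_b : ∃ t, chk3 f_pm_022_b t 1 4 1 = true :=
  ⟨(a (a (a (b (l 1) (a (a (l 1) (b (l 1) (c (a (l 1) (l 16239808)) (l 459593681351)))) (b (a (l 1) (c (b (l 1) (l 518112076999)) (l 483752371255))) (c (a (l 16095040) (l 16001528)) (l 15846920))))) (b (a (b (l 1) (c (l 986262705335) (l 826812049767))) (c (b (l 15207848) (l 15316040)) (b (l 565354954535) (l 15312584)))) (b (a (c (b (l 15666264) (l 15774648)) (l 207263174679)) (c (l 15235272) (l 15429504))) (a (c (l 15770760) (l 15748648)) (l 15497064))))) (b (a (c (b (l 14765832) (l 14768304)) (b (a (l 14885648) (l 14602152)) (l 14905648))) (c (b (l 14282088) (l 14478816)) (b (a (l 14337264) (l 14163880)) (l 14462216)))) (b (a (c (b (l 15054752) (l 15130072)) (l 15068248)) (c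 (l 14710216) (l 14678504))) (a (l 15211112) (l 14908952))))) (b (a (c (b (l 14026968) (l 14262032)) (b (l 13993856) (l 14245912))) (c (l 13956152) (b (l 13846336) (l 14157256)))) (a (b (a (l 14532576) (l 14496032)) (l 14821824)) (l 4)))), by decide +kernel⟩

def k1_pm_022_b : ∃ t, chk3 f_pm_022_b t 1 5 1 = true :=
  ⟨(a (a (b (a (a (b (a (a (b (l 1) (c (l 16450392) (c (l 16356296) (a (l 16393592) (l 16496992))))) (b (c (c (l 16329464) (l 16320744)) (l 437582218359)) (c (c (l 16451080) (l 16464520)) (l 16335640)))) (b (c (a (l 16311128) (l 16276904)) (l 16249136)) (c (l 16234728) (l 16359504)))) (a (c (a (l 15950024) (b (c (l 16312816) (l 16289408)) (l 15865864))) (a (c (a (l 16106336) (l 16035856)) (a (l 15897616) (l 16112608))) (b (l 16210096) (l 16058776)))) (c (b (l 16174448) (l 16026512)) (l 16138632)))) (b (b (c (l 15894696) (l 16048408)) (c (a (l 16267208) (l 16126584)) (l 16169480))) (c (a (l 16240664) (l 16344176)) (l 16230752)))) (b (b (a (l 15698608) (l 15589640)) (a (l 15894776)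 (l 15735560))) (a (a (l 16109624) (l 16160784)) (l 16012264)))) (a (c (a (b (a (a (l 15696024) (c (l 15797312) (l 15766128))) (a (l 15808120) (l 15876512))) (a (a (l 15448216) (c (l 15557232) (l 15522272))) (l 15618240))) (b (a (l 16012104) (l 16221128)) (l 15780128))) (a (b (a (a (c (l 15689360) (a (l 15665616) (l 15700232))) (l 15648272)) (l 15890672)) (a (a (c (l 15435800) (l 15427648)) (l 15503632)) (l 15649920))) (b (l 16069064) (l 15918512)))) (b (a (c (l 16456416) (l 16454928)) (l 16300584)) (a (c (l 16260656) (l 16252208)) (l 16493560))))) (b (b (b (a (l 15363896) (l 15131536)) (a (l 15524664) (l 15309832))) (a (l 15791960) (l 15570600))) (b (a (l 16067600) (l 15853520)) (a (l 16283552) (l 4))))) (b (b (b (l 15092408) (l 15277688)) (l 4)) (l 4))), by decide +kernel⟩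

def k2_pm_022_b : ∃ t, chk3 f_pm_022_b t 1 3 1 = true :=
  ⟨(a (a (b (a (b (a (c (a (a (l 15268464) (c (l 15373368) (l 15335432))) (b (l 15492344) (l 15357448))) (a (a (c (l 15251752) (l 15240728)) (l 15270376)) (l 15451152))) (c (b (l 15772704) (l 15632776)) (l 15708944))) (a (c (a (c (l 15130768) (l 14980696)) (l 15104624)) (a (c (l 14967560) (l 15082408)) (l 15248528))) (c (b (l 15510376) (l 15496128)) (l 15501328)))) (b (a (c (l 16051584) (l 16035440)) (b (l 16388088) (l 16244856))) (b (a (l 15743200) (l 16126184)) (a (l 15833864) (l 4))))) (a (b (a (c (a (c (l 15123704) (l 15099312)) (l 15223200)) (c (l 15015728) (l 15154424))) (c (l 15496128) (l 15493760))) (a (a (c (l 15107344) (l 15079184)) (l 4)) (l 4))) (l 4))) (b (b (a (b (l 16483168) (l 16518944)) (l 4)) (l 4)) (l 4))) (l 4)), by decide +kernel⟩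

theorem s3_pm_022_b : ∃ t, chk3 f_pm_022_b t 1 2 1 = true := ex3_b k0_pm_022_b k1_pm_022_b

theorem s4_pm_022_b : ∃ t, chk3 f_pm_022_b t 1 1 1 = true := ex3_b s3_pm_022_b k2_pm_022_b

theorem c_pm_022_b : CertFX 0 536870912 1239849684 370763052 1046898278 26843546 false true false .pp 0 2 2
    ndF5q0 ndF1q2b pcF2 Cut.none Ext.none :=
  certFX1 (fam := false) (s1 := true) (s2 := false) (a := 0) (b := 2) (c := 2) (cn := .pp) (n1 := ndF5q0) (n2 := ndF1q2b) (pc := pcF2) (cut := Cut.none) (xt := Ext.none) (P1 := 0) (W1 := 536870912) (P2 := 1239849684) (W2 := 370763052) (P3 := 1046898278) (W3 := 26843546)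
    rfl (fun _ => rfl) s4_pm_022_b

noncomputable def f_pm_023 : ℕ → ℕ → ℕ → ℕ → Bool := onCell 0 536870912 1610612736 469762048 1046898278 26843546
    (rowFX 0 false true false .up 0 2 3 (qsf 0 536870912 1610612736 469762048 2) ndF5q0 ndF1q3 pcF2 Cut.none Ext.none)

def k0_pm_023 : ∃ t, chk3 f_pm_023 t 1 1 1 = true :=
  ⟨(b (a (l 4) (l 4)) (l 4)), by decide +kernel⟩

theorem c_pm_023 : CertFX 0 536870912 1610612736 469762048 1046898278 26843546 false true false .up 0 2 3
    ndF5q0 ndF1q3 pcF2 Cut.none Ext.none :=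
  certFX0 (fam := false) (s1 := true) (s2 := false) (a := 0) (b := 2) (c := 3) (cn := .up) (n1 := ndF5q0) (n2 := ndF1q3) (pc := pcF2) (cut := Cut.none) (xt := Ext.none) (P1 := 0) (W1 := 536870912) (P2 := 1610612736) (W2 := 469762048) (P3 := 1046898278) (W3 := 26843546)
    rfl k0_pm_023

noncomputable def f_pm_033 : ℕ → ℕ → ℕ → ℕ → Bool := onCell 0 536870912 1610612736 469762048 1046898278 26843546
    (rowFX 0 false true false .pnn 0 3 3 (qsf 0 536870912 1610612736 469762048 3) ndF5q0 ndF1q3 pcF3 Cut.none Ext.none)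

def k0_pm_033 : ∃ t, chk3 f_pm_033 t 1 1 1 = true :=
  ⟨(b (a (l 4) (l 1)) (l 4)), by decide +kernel⟩

theorem c_pm_033 : CertFX 0 536870912 1610612736 469762048 1046898278 26843546 false true false .pnn 0 3 3
    ndF5q0 ndF1q3 pcF3 Cut.none Ext.none :=
  certFX0 (fam := false) (s1 := true) (s2 := false) (a := 0) (b := 3) (c := 3) (cn := .pnn) (n1 := ndF5q0) (n2 := ndF1q3) (pc := pcF3) (cut := Cut.none) (xt := Ext.none) (P1 := 0) (W1 := 536870912) (P2 := 1610612736) (W2 := 469762048) (P3 := 1046898278) (W3 := 26843546)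
    rfl k0_pm_033

noncomputable def f_pm_101 : ℕ → ℕ → ℕ → ℕ → Bool := onCell 536870912 469762048 536870912 536870912 1046898278 26843546
    (rowFX 0 false true false .npn 1 0 1 (qsf 536870912 469762048 536870912 536870912 0) ndF5q1 ndF1q1 pcF0 Cut.none Ext.none)

def k0_pm_101 : ∃ t, chk3 f_pm_101 t 1 1 1 = true :=
  ⟨(l 4), by decide +kernel⟩

theorem c_pm_101 : CertFX 536870912 469762048 536870912 536870912 1046898278 26843546 false true false .npn 1 0 1
    ndF5q1 ndF1q1 pcF0 Cut.none Ext.none :=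
  certFX0 (fam := false) (s1 := true) (s2 := false) (a := 1) (b := 0) (c := 1) (cn := .npn) (n1 := ndF5q1) (n2 := ndF1q1) (pc := pcF0) (cut := Cut.none) (xt := Ext.none) (P1 := 536870912) (W1 := 469762048) (P2 := 536870912) (W2 := 536870912) (P3 := 1046898278) (W3 := 26843546)
    rfl k0_pm_101

noncomputable def f_pm_102_a : ℕ → ℕ → ℕ → ℕ → Bool := onCell 536870912 469762048 0 420477299 1046898278 26843546
    (rowFX 0 false true false .npp 1 0 2 (qsf 536870912 469762048 0 420477299 0) ndF5q1 ndF1q2a pcF0 Cut.none Ext.none)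

def k0_pm_102_a : ∃ t, chk3 f_pm_102_a t 1 1 1 = true :=
  ⟨(b (a (a (l 2) (a (l 16777208) (l 16777208))) (a (c (l 68953953703) (l 64122113447)) (a (a (b (l 16515152) (l 16515144)) (b (l 16143272) (l 16143264))) (b (a (l 15632304) (l 15130944)) (a (l 15632296) (c (l 15149576) (l 15112672))))))) (l 4)), by decide +kernel⟩

theorem c_pm_102_a : CertFX 536870912 469762048 0 420477299 1046898278 26843546 false true false .npp 1 0 2
    ndF5q1 ndF1q2a pcF0 Cut.none Ext.none :=
  certFX0 (fam := false) (s1 := true) (s2 := false) (a := 1) (b := 0) (c := 2) (cn := .npp) (n1 := ndF5q1) (n2 := ndF1q2a) (pc := pcF0) (cut := Cut.none) (xt := Ext.none) (P1 := 536870912) (W1 := 469762048) (P2 := 0) (W2 := 420477299) (P3 := 1046898278) (W3 := 26843546)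
    rfl k0_pm_102_a

noncomputable def f_pm_102_b : ℕ → ℕ → ℕ → ℕ → Bool := onCell 536870912 469762048 1239849684 370763052 1046898278 26843546
    (rowFX 0 false true false .npp 1 0 2 (qsf 536870912 469762048 1239849684 370763052 0) ndF5q1 ndF1q2b pcF0 Cut.none Ext.none)

def k0_pm_102_b : ∃ t, chk3 f_pm_102_b t 1 1 1 = true :=
  ⟨(a (b (a (l 2) (l 16777216)) (l 2)) (a (b (b (l 16737208) (l 16737208)) (l 16590408)) (b (a (a (l 16515152) (l 16143272)) (b (a (l 15632304) (l 15129936)) (l 15382600))) (a (l 16332128) (l 15382600))))), by decide +kernel⟩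

theorem c_pm_102_b : CertFX 536870912 469762048 1239849684 370763052 1046898278 26843546 false true false .npp 1 0 2
    ndF5q1 ndF1q2b pcF0 Cut.none Ext.none :=
  certFX0 (fam := false) (s1 := true) (s2 := false) (a := 1) (b := 0) (c := 2) (cn := .npp) (n1 := ndF5q1) (n2 := ndF1q2b) (pc := pcF0) (cut := Cut.none) (xt := Ext.none) (P1 := 536870912) (W1 := 469762048) (P2 := 1239849684) (W2 := 370763052) (P3 := 1046898278) (W3 := 26843546)
    rfl k0_pm_102_b

noncomputable def f_pm_112_a : ℕ → ℕ → ℕ → ℕ → Bool := onCell 536870912 469762048 0 420477299 1046898278 26843546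
    (rowFX 0 false true false .dn 1 1 2 (qsf 536870912 469762048 0 420477299 1) ndF5q1 ndF1q2a pcF1 Cut.none Ext.none)

def k0_pm_112_a : ∃ t, chk3 f_pm_112_a t 1 1 1 = true :=
  ⟨(a (b (a (a (b (l 16772552) (l 16771792)) (l 89355452375)) (c (l 16777208) (l 16777208))) (l 4)) (l 1)), by decide +kernel⟩

theorem c_pm_112_a : CertFX 536870912 469762048 0 420477299 1046898278 26843546 false true false .dn 1 1 2
    ndF5q1 ndF1q2a pcF1 Cut.none Ext.none :=
  certFX0 (fam := false) (s1 := true) (s2 := false) (a := 1) (b := 1) (c := 2) (cn := .dn) (n1 := ndF5q1) (n2 := ndF1q2a) (pc := pcF1) (cut := Cut.none) (xt := Ext.none) (P1 := 536870912) (W1 := 469762048) (P2 := 0) (W2 := 420477299) (P3 := 1046898278) (W3 := 26843546)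
    rfl k0_pm_112_a

noncomputable def f_pm_112_b : ℕ → ℕ → ℕ → ℕ → Bool := onCell 536870912 469762048 536870912 536870912 1046898278 26843546
    (rowFX 1 false true false .dn 1 1 2 (qsf 536870912 469762048 1239849684 370763052 1) ndF5q1 ndF1q2b pcF1 Cut.none Ext.none)

def k0_pm_112_b : ∃ t, chk3 f_pm_112_b t 1 1 1 = true :=
  ⟨(b (a (b (a (l 569116877543) (l 16777216)) (a (l 16927424) (l 16714576))) (a (b (l 16737208) (l 16640112)) (b (a (l 16332128) (l 15382600)) (a (l 16242592) (l 2))))) (b (a (b (a (b (l 16718728) (l 16427264)) (l 16305936)) (a (a (b (l 15964888) (l 15466256)) (l 15309168)) (b (l 15597680) (l 15121952)))) (b (a (l 16160248) (l 2)) (l 2))) (a (b (b (b (a (a (l 15155496) (l 14904296)) (l 14793224)) (a (l 14692768) (l 4))) (c (a (l 14418936) (l 2)) (l 14597160))) (a (a (b (c (l 14228608) (l 14216712)) (l 4)) (l 4)) (l 2))) (l 2)))), by decide +kernel⟩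

theorem c_pm_112_b : CertFX 536870912 469762048 1239849684 370763052 1046898278 26843546 false true false .dn 1 1 2
    ndF5q1 ndF1q2b pcF1 Cut.none Ext.none :=
  certFX1 (fam := false) (s1 := true) (s2 := false) (a := 1) (b := 1) (c := 2) (cn := .dn) (n1 := ndF5q1) (n2 := ndF1q2b) (pc := pcF1) (cut := Cut.none) (xt := Ext.none) (P1 := 536870912) (W1 := 469762048) (P2 := 1239849684) (W2 := 370763052) (P3 := 1046898278) (W3 := 26843546)
    rfl (fun _ => rfl) k0_pm_112_b

noncomputable def f_pm_113 : ℕ → ℕ → ℕ → ℕ → Bool := onCell 536870912 469762048 536870912 536870912 1046898278 26843546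
    (rowFX 1 false true false .nn 1 1 3 (qsf 536870912 469762048 1610612736 469762048 1) ndF5q1 ndF1q3 pcF1 Cut.none Ext.none)

def k0_pm_113 : ∃ t, chk3 f_pm_113 t 1 1 1 = true :=
  ⟨(b (a (l 1) (a (b (l 1) (l 16640112)) (b (a (l 16332128) (l 15382600)) (a (l 16242592) (l 15316816))))) (b (a (a (l 1) (b (l 16305936) (b (l 15597680) (l 15121952)))) (b (a (l 16160248) (a (l 15825128) (l 15000144))) (a (b (l 15483656) (l 15033920)) (a (l 14945232) (l 14163016))))) (b (a (b (b (a (l 669508166807) (l 14793224)) (a (l 14713744) (l 4))) (c (a (l 14397968) (l 4)) (l 14597160))) (a (l 4) (a (b (l 297119085239) (l 4)) (b (l 13572664) (l 144109049623))))) (b (a (c (b (l 635683304743) (l 4)) (l 687759547415)) (l 4)) (l 4))))), by decide +kernel⟩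

theorem c_pm_113 : CertFX 536870912 469762048 1610612736 469762048 1046898278 26843546 false true false .nn 1 1 3
    ndF5q1 ndF1q3 pcF1 Cut.none Ext.none :=
  certFX1 (fam := false) (s1 := true) (s2 := false) (a := 1) (b := 1) (c := 3) (cn := .nn) (n1 := ndF5q1) (n2 := ndF1q3) (pc := pcF1) (cut := Cut.none) (xt := Ext.none) (P1 := 536870912) (W1 := 469762048) (P2 := 1610612736) (W2 := 469762048) (P3 := 1046898278) (W3 := 26843546)
    rfl (fun _ => rfl) k0_pm_113

noncomputable def f_pm_123 : ℕ → ℕ → ℕ → ℕ → Bool := onCell 1073741824 536870912 1610612736 469762048 1046898278 26843546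
    (rowFX 2 false true false .npn 1 2 3 (qsf 536870912 469762048 1610612736 469762048 2) ndF5q1 ndF1q3 pcF2 Cut.none Ext.none)

def k0_pm_123 : ∃ t, chk3 f_pm_123 t 1 1 1 = true :=
  ⟨(a (a (b (l 4) (l 4)) (l 4)) (b (l 1) (l 4))), by decide +kernel⟩

theorem c_pm_123 : CertFX 536870912 469762048 1610612736 469762048 1046898278 26843546 false true false .npn 1 2 3
    ndF5q1 ndF1q3 pcF2 Cut.none Ext.none :=
  certFX2 (fam := false) (s1 := true) (s2 := false) (a := 1) (b := 2) (c := 3) (cn := .npn) (n1 := ndF5q1) (n2 := ndF1q3) (pc := pcF2) (cut := Cut.none) (xt := Ext.none) (P1 := 536870912) (W1 := 469762048) (P2 := 1610612736) (W2 := 469762048) (P3 := 1046898278) (W3 := 26843546)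
    rfl (fun _ => rfl) k0_pm_123

noncomputable def f_pm_133 : ℕ → ℕ → ℕ → ℕ → Bool := onCell 536870912 469762048 1610612736 469762048 1046898278 26843546
    (rowFX 0 false true false .dn 1 3 3 (qsf 536870912 469762048 1610612736 469762048 3) ndF5q1 ndF1q3 pcF3 Cut.none Ext.none)

def k0_pm_133 : ∃ t, chk3 f_pm_133 t 1 1 1 = true :=
  ⟨(l 1), by decide +kernel⟩

theorem c_pm_133 : CertFX 536870912 469762048 1610612736 469762048 1046898278 26843546 false true false .dn 1 3 3
    ndF5q1 ndF1q3 pcF3 Cut.none Ext.none :=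
  certFX0 (fam := false) (s1 := true) (s2 := false) (a := 1) (b := 3) (c := 3) (cn := .dn) (n1 := ndF5q1) (n2 := ndF1q3) (pc := pcF3) (cut := Cut.none) (xt := Ext.none) (P1 := 536870912) (W1 := 469762048) (P2 := 1610612736) (W2 := 469762048) (P3 := 1046898278) (W3 := 26843546)
    rfl k0_pm_133

noncomputable def f_pm_202_a : ℕ → ℕ → ℕ → ℕ → Bool := onCell 0 536870912 0 420477299 1046898278 26843546
    (rowFX 2 false true false .pp 2 0 2 (qsf 1073741824 536870912 0 420477299 0) ndF5q2 ndF1q2a pcF0 Cut.none Ext.none)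

def k0_pm_202_a : ∃ t, chk3 f_pm_202_a t 4 2 1 = true :=
  ⟨(l 3), by decide +kernel⟩

def k1_pm_202_a : ∃ t, chk3 f_pm_202_a t 8 6 1 = true :=
  ⟨(l 3), by decide +kernel⟩

def k2_pm_202_a : ∃ t, chk3 f_pm_202_a t 16 28 1 = true :=
  ⟨(l 3), by decide +kernel⟩

def k3_pm_202_a : ∃ t, chk3 f_pm_202_a t 16 29 2 = true :=
  ⟨(a (a (a (b (b (l 3) (l 16317480)) (c (l 16320616) (l 16318984))) (b (c (l 16283432) (l 148879890631)) (c (l 16279712) (a (l 16288720) (c (l 16265576) (l 16245296)))))) (a (b (c (l 148879858519) (l 16249352)) (c (c (l 16237664) (a (l 16244976) (l 16228520))) (c (a (l 16246216) (l 16235256)) (l 16227184)))) (c (b (l 153174771159) (c (l 16209064) (l 16215896))) (b (b (l 16221344) (l 16219520)) (c (l 16223568) (l 16231816)))))) (b (a (b (b (l 3) (c (l 16173720) (l 16138800))) (c (a (l 16189568) (c (l 16161288) (l 16164208))) (a (l 16195272) (l 16175120)))) (c (b (c (l 16121104) (l 16127264)) (a (l 16140480) (l 16120816))) (c (b (l 16137624) (l 16144704)) (a (l 16168232)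 (l 16137728))))) (c (a (b (l 16181248) (a (l 16196280) (l 16176896))) (a (l 16152360) (b (l 16128688) (l 16138752)))) (a (b (l 16193672) (a (l 16211312) (l 16192800))) (a (l 16170960) (c (l 16143064) (l 16160192))))))), by decide +kernel⟩

def k4_pm_202_a : ∃ t, chk3 f_pm_202_a t 16 29 3 = true :=
  ⟨(c (a (b (a (a (b (l 3) (a (l 16321488) (l 16302216))) (a (l 16287136) (l 16272896))) (c (a (l 16252712) (l 16231656)) (a (l 16258864) (l 16243456)))) (a (a (a (l 16336648) (c (l 16310464) (b (l 16305008) (c (l 16323192) (l 16328672))))) (c (a (b (l 16281984) (l 16297520)) (l 16249368)) (a (b (l 16285624) (c (l 16300784) (l 16300696))) (b (l 16275712) (l 16280448))))) (a (b (l 16218000) (a (l 16268688) (l 16263944))) (c (l 16240360) (l 16250400))))) (a (c (b (c (l 175186411447) (l 177870778903)) (b (l 16209248) (l 16136560))) (c (b (a (l 16227264) (l 16174248)) (l 16148504)) (b (a (l 16234928) (l 16219496)) (l 16235624)))) (c (b (b (l 178407577271) (a (l 16183216) (l 16167424))) (a (l 16192288)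 (c (l 16172352) (l 16176232)))) (l 173575756711)))) (a (a (a (c (a (b (l 145121842759) (l 16333448)) (c (b (b (l 3) (b (l 16301792) (l 16300248))) (a (l 16310280) (b (l 16301768) (l 16320376)))) (a (b (l 16245792) (l 16324032)) (b (l 16302232) (l 16305064))))) (a (a (c (l 16323168) (b (l 141363731559) (l 16340128))) (c (b (l 142437463319) (l 16329072)) (l 16317872))) (c (l 135994996743) (l 16309872)))) (c (b (l 16288800) (a (c (a (l 16298456) (l 16286104)) (l 16292880)) (l 16284072))) (c (l 16293384) (l 16294496)))) (c (a (c (l 16267192) (l 16252240)) (c (l 170354658855) (l 16255360))) (b (l 16265440) (l 16269976)))) (a (b (l 16226648) (l 16234960)) (l 16181824)))), by decide +kernel⟩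

def k5_pm_202_a : ∃ t, chk3 f_pm_202_a t 32 15 2 = true :=
  ⟨(b (b (c (a (l 16298624) (a (a (l 16269064) (c (l 16241608) (l 16245104))) (b (l 16212984) (l 16159920)))) (a (c (l 16323960) (a (l 16338736) (a (l 16323880) (l 16304432)))) (a (c (a (l 16274760) (l 16250560)) (l 16264256)) (c (l 16231448) (l 16239864))))) (a (c (a (l 16348464) (l 16337072)) (a (c (l 16350800) (b (l 16349776) (l 16364280))) (c (l 16351736) (a (l 16358712) (c (l 16355680) (a (l 16360704) (l 16347520))))))) (c (a (c (l 16302936) (l 16224152)) (c (l 16254184) (l 16254536))) (c (a (a (l 16327776) (l 16293512)) (l 16250504)) (a (b (l 16291376) (l 16245592)) (l 16246896)))))) (b (a (c (a (l 16363176) (c (l 16366568) (l 16371904))) (a (l 16380808) (c (l 16377984) (l 16386104)))) (c (a (c (l 16355080) (a (l 16373288) (c (l 16354728) (l 16352600)))) (c (l 16302200) (l 16293408))) (a (a (c (c (l 16354424) (l 16326584)) (l 16285120)) (c (l 16334032) (l 16282664))) (c (l 16169280) (c (l 16192624) (l 16167904)))))) (a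 (c (c (a (l 16388880) (l 16391736)) (l 16400760)) (l 16326968)) (a (c (c (a (l 16396576) (c (l 16397984) (l 16399408))) (a (l 16405136) (b (l 16276968) (l 16400600)))) (l 16369416)) (c (c (c (a (l 16381184) (l 16337320)) (l 16348472)) (c (l 16334056) (l 16318528))) (c (b (l 16288528) (l 16305288)) (l 16281512))))))), by decide +kernel⟩

def k6_pm_202_a : ∃ t, chk3 f_pm_202_a t 32 15 3 = true :=
  ⟨(a (c (a (b (a (l 16349976) (c (b (l 16295120) (l 16352664)) (a (l 16349784) (c (l 16325008) (c (l 16263760) (l 16284376)))))) (l 16412624)) (b (b (c (b (a (l 16320792) (l 16294360)) (a (c (l 16345192) (l 16345296)) (l 16295800))) (a (c (b (l 16324784) (a (l 16348712) (l 16330488))) (l 16252184)) (c (l 16295920) (l 16288240)))) (c (b (a (c (l 16359488) (l 16338792)) (c (l 16338504) (l 16324072))) (l 16357312)) (a (l 16353328) (l 16225120)))) (c (l 16350464) (l 16295696)))) (a (a (c (l 16397920) (c (l 16274112) (a (l 16300584) (l 16395848)))) (c (b (c (a (l 16367272) (l 16343712)) (l 16352824))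 (l 16410896)) (l 16255136))) (c (a (b (l 16239104) (l 16382344)) (l 16334784)) (l 16359936)))) (c (b (a (c (b (b (l 16262336) (l 16270688)) (a (c (l 16302032) (l 16283304)) (l 16245016))) (l 16211936)) (c (l 16249168) (l 16263952))) (a (c (l 16321392) (l 16326192)) (l 16290904))) (b (c (b (l 16276896) (l 16296024)) (l 16285592)) (l 16342056)))), by decide +kernel⟩

def k7_pm_202_a : ∃ t, chk3 f_pm_202_a t 33 15 1 = true :=
  ⟨(c (b (b (a (c (a (b (l 16200024) (l 16204472)) (b (l 16183136) (l 16191944))) (a (l 16226320) (l 16196528))) (c (a (l 16169680) (l 16154456)) (a (l 16188880) (c (l 16169064) (l 16182440))))) (a (c (a (c (l 16210688) (l 16213584)) (l 16132680)) (c (l 16214280) (l 16224952))) (c (a (l 16188464) (l 16175120)) (a (l 16209512) (l 16195760))))) (a (a (c (b (l 16194840) (c (l 16271424) (l 16142104))) (c (a (c (l 16236992) (l 16231072)) (l 16222240)) (l 16243728))) (c (c (l 16204816) (l 16205704)) (l 16232616))) (c (b (a (l 16193920) (l 16181304)) (l 16193432)) (b (a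 (l 16220520) (l 16203976)) (l 16232888))))) (c (b (a (b (a (l 16185904) (c (l 16212952) (l 16220912))) (c (l 16239376) (l 16228576))) (c (b (a (l 16205936) (l 16190920)) (l 16204576)) (b (l 16200648) (l 16224648)))) (a (c (l 16265800) (l 16282720)) (c (b (a (l 16252360) (l 16219600)) (l 16254840)) (l 16233288)))) (b (a (b (a (l 16255504) (l 16219144)) (l 16249368)) (b (l 16195792) (l 16218888))) (a (l 16288592) (l 16229208))))), by decide +kernel⟩

def k8_pm_202_a : ∃ t, chk3 f_pm_202_a t 17 14 1 = true :=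
  ⟨(b (b (l 3) (b (l 3) (a (a (l 3) (a (l 3) (c (c (l 16040480) (l 16090984)) (l 16081288)))) (c (c (a (c (l 156932536247) (a (l 163911904727) (l 16054728))) (c (a (a (l 170891174487) (l 185386698135)) (c (l 187534179479) (l 16021896))) (l 16028600))) (l 181628566551)) (l 186997270327))))) (a (b (c (c (a (b (c (l 16082472) (l 16095048)) (c (l 16090288) (l 16102552))) (c (l 16060200) (a (l 16083048) (l 16076384)))) (a (c (b (l 16114352) (l 16120760)) (b (a (l 16138528) (l 16127928)) (a (l 16143904) (l 16133096)))) (c (a (c (l 16100272) (l 16111568)) (c (l 16093832) (l 16096536))) (l 16103728)))) (a (c (l 16141184) (l 16133784)) (l 16094056))) (c (b (c (a (b (c (l 16096928) (l 16108944)) (l 16108520)) (b (a (l 16085560) (l 16076616)) (l 16087000))) (b (a (c (l 16126296) (a (l 16148536) (l 16137512))) (c (a (l 16112208) (l 16102592)) (l 16111464))) (a (l 16136160) (l 16107816)))) (c (a (l 16115584) (l 16093432)) (a (l 16141936) (l 16113280)))) (c (a (l 16144816) (l 16103728)) (l 16116840))))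 (a (b (c (c (c (b (c (l 16013600) (l 16025832)) (l 16048968)) (a (c (l 16065048) (l 16076544)) (c (l 16059656) (l 16062152)))) (l 16066896)) (l 16054040)) (c (c (b (c (a (l 16059640) (l 16053792)) (a (c (l 16076096) (l 16086472)) (c (l 16070128) (l 16072264)))) (l 16071240)) (l 16078824)) (l 16066000))) (b (c (c (c (a (c (l 16031720) (b (l 16018928) (l 16025576))) (c (b (l 16002712) (l 16009544)) (l 16029288))) (l 16035200)) (l 16028392)) (l 16014992)) (c (c (c (b (a (c (l 16043688) (l 16054120)) (c (l 16038416) (l 16040360))) (l 16047792)) (l 16048240)) (l 16041544)) (l 16028232)))))), by decide +kernel⟩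

def k9_pm_202_a : ∃ t, chk3 f_pm_202_a t 17 15 1 = true :=
  ⟨(c (a (c (b (a (b (a (l 16139200) (l 16122792)) (b (l 16123512) (l 16157776))) (b (l 16044152) (c (l 16119184) (l 16132824)))) (a (b (a (l 16181536) (l 16169160)) (a (l 16191248) (l 16185264))) (b (l 16148928) (l 16173584)))) (b (c (a (b (l 16151992) (l 16166304)) (b (l 16125656) (a (l 16149872) (l 16138984)))) (a (b (a (l 16170504) (l 16155968)) (b (l 16130104) (l 16182264))) (b (l 16129864) (l 16145824)))) (a (c (b (l 16190592) (l 16196496)) (a (l 16167760) (l 16120248))) (b (l 16161784) (a (l 16193200) (l 16179296)))))) (c (a (b (b (c (l 16079104) (l 16091672)) (c (l 16101104) (a (l 16118536) (l 16106680)))) (a (l 16143352) (c (l 16125512) (l 16134312)))) (b (c (a (l 16075136) (l 16066544)) (l 16073144)) (b (c (a (l 16105016) (l 16096488)) (l 16101752)) (l 16122112)))) (b (b (l 16076264) (l 16096592)) (b (a (l 16128640) (l 16095368)) (l 16134728))))) (a (a (b (c (b (l 16165208) (l 16176240)) (l 16163112)) (c (b (l 16202680)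 (l 16166712)) (l 16197224))) (b (b (l 16120288) (l 16136336)) (b (l 16154480) (l 16181464)))) (b (b (l 16063504) (l 16084088)) (b (l 16098744) (l 16122552))))), by decide +kernel⟩

def k10_pm_202_a : ∃ t, chk3 f_pm_202_a t 9 3 1 = true :=
  ⟨(b (l 3) (b (b (a (b (l 3) (a (b (l 3) (c (a (c (c (l 15974712) (l 15969760)) (l 15983520)) (c (l 182165363831) (l 15935296))) (a (l 15969104) (l 15941064)))) (c (c (b (b (l 3) (l 247663564151)) (a (l 15958696) (l 15952640))) (b (l 190218381175) (l 15924176))) (c (l 179480923895) (l 15921816))))) (a (b (l 3) (a (c (c (b (l 180554767623) (l 15946728)) (l 15909192)) (c (l 15919320) (l 15908480))) (l 1))) (l 1))) (b (a (c (a (a (c (c (l 15988960) (l 16005072)) (l 15997944)) (c (l 15968760) (l 15979792))) (c (l 15958488) (l 15969192))) (a (a (l 15983688) (l 15964936)) (c (l 15958944) (l 15948704)))) (a (a (c (c (l 15970032) (l 15959512)) (l 15943736)) (l 1)) (l 1))) (a (c (a (a (c (b (l 16004560) (l 16033448)) (l 16018952)) (c (b (l 16015144) (l 16004536))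 (l 16010824))) (c (b (l 16004280) (l 15995376)) (a (l 16004616) (l 15998856)))) (c (a (a (l 16009616) (l 16001232)) (l 15991552)) (a (a (l 16000280) (l 15991640)) (l 15981648)))) (l 1)))) (a (a (c (b (a (c (l 16051792) (l 16042456)) (c (l 16040920) (l 16031384))) (a (c (l 16088224) (l 16079184)) (c (l 16073128) (l 16063872)))) (b (a (l 16028672) (l 16017184)) (a (l 16065816) (l 16050064)))) (b (c (c (l 16007312) (l 16018464)) (l 16003784)) (l 1))) (l 1)))), by decide +kernel⟩

def k11_pm_202_a : ∃ t, chk3 f_pm_202_a t 5 1 1 = true :=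
  ⟨(b (l 3) (b (b (l 3) (l 1)) (l 1))), by decide +kernel⟩

def k12_pm_202_a : ∃ t, chk3 f_pm_202_a t 3 1 1 = true :=
  ⟨(l 1), by decide +kernel⟩

theorem s13_pm_202_a : ∃ t, chk3 f_pm_202_a t 17 7 1 = true := ex3_b k8_pm_202_a k9_pm_202_a

theorem s14_pm_202_a : ∃ t, chk3 f_pm_202_a t 32 15 1 = true := ex3_c k5_pm_202_a k6_pm_202_a

theorem s15_pm_202_a : ∃ t, chk3 f_pm_202_a t 16 15 1 = true := ex3_a s14_pm_202_a k7_pm_202_a

theorem s16_pm_202_a : ∃ t, chk3 f_pm_202_a t 16 29 1 = true := ex3_c k3_pm_202_a k4_pm_202_a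

theorem s17_pm_202_a : ∃ t, chk3 f_pm_202_a t 16 14 1 = true := ex3_b k2_pm_202_a s16_pm_202_a

theorem s18_pm_202_a : ∃ t, chk3 f_pm_202_a t 16 7 1 = true := ex3_b s17_pm_202_a s15_pm_202_a

theorem s19_pm_202_a : ∃ t, chk3 f_pm_202_a t 8 7 1 = true := ex3_a s18_pm_202_a s13_pm_202_a

theorem s20_pm_202_a : ∃ t, chk3 f_pm_202_a t 8 3 1 = true := ex3_b k1_pm_202_a s19_pm_202_a

theorem s21_pm_202_a : ∃ t, chk3 f_pm_202_a t 4 3 1 = true := ex3_a s20_pm_202_a k10_pm_202_a

theorem s22_pm_202_a : ∃ t, chk3 f_pm_202_a t 4 1 1 = true := ex3_b k0_pm_202_a s21_pm_202_a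

theorem s23_pm_202_a : ∃ t, chk3 f_pm_202_a t 2 1 1 = true := ex3_a s22_pm_202_a k11_pm_202_a

theorem s24_pm_202_a : ∃ t, chk3 f_pm_202_a t 1 1 1 = true := ex3_a s23_pm_202_a k12_pm_202_a

theorem c_pm_202_a : CertFX 1073741824 536870912 0 420477299 1046898278 26843546 false true false .pp 2 0 2
    ndF5q2 ndF1q2a pcF0 Cut.none Ext.none :=
  certFX2 (fam := false) (s1 := true) (s2 := false) (a := 2) (b := 0) (c := 2) (cn := .pp) (n1 := ndF5q2) (n2 := ndF1q2a) (pc := pcF0) (cut := Cut.none) (xt := Ext.none) (P1 := 1073741824) (W1 := 536870912) (P2 := 0) (W2 := 420477299) (P3 := 1046898278) (W3 := 26843546)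
    rfl (fun _ => rfl) s24_pm_202_a

noncomputable def f_pm_202_b : ℕ → ℕ → ℕ → ℕ → Bool := onCell 1073741824 536870912 1239849684 370763052 1046898278 26843546
    (rowFX 0 false true false .pp 2 0 2 (qsf 1073741824 536870912 1239849684 370763052 0) ndF5q2 ndF1q2b pcF0 Cut.none Ext.none)

def k0_pm_202_b : ∃ t, chk3 f_pm_202_b t 1 1 1 = true :=
  ⟨(l 3), by decide +kernel⟩

theorem c_pm_202_b : CertFX 1073741824 536870912 1239849684 370763052 1046898278 26843546 false true false .pp 2 0 2
    ndF5q2 ndF1q2b pcF0 Cut.none Ext.none :=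
  certFX0 (fam := false) (s1 := true) (s2 := false) (a := 2) (b := 0) (c := 2) (cn := .pp) (n1 := ndF5q2) (n2 := ndF1q2b) (pc := pcF0) (cut := Cut.none) (xt := Ext.none) (P1 := 1073741824) (W1 := 536870912) (P2 := 1239849684) (W2 := 370763052) (P3 := 1046898278) (W3 := 26843546)
    rfl k0_pm_202_b

noncomputable def f_pm_203 : ℕ → ℕ → ℕ → ℕ → Bool := onCell 1073741824 536870912 0 536870912 1046898278 26843546
    (rowFX 1 false true false .up 2 0 3 (qsf 1073741824 536870912 1610612736 469762048 0) ndF5q2 ndF1q3 pcF0 Cut.none Ext.none)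

def k0_pm_203 : ∃ t, chk3 f_pm_203 t 1 1 1 = true :=
  ⟨(l 3), by decide +kernel⟩

theorem c_pm_203 : CertFX 1073741824 536870912 1610612736 469762048 1046898278 26843546 false true false .up 2 0 3
    ndF5q2 ndF1q3 pcF0 Cut.none Ext.none :=
  certFX1 (fam := false) (s1 := true) (s2 := false) (a := 2) (b := 0) (c := 3) (cn := .up) (n1 := ndF5q2) (n2 := ndF1q3) (pc := pcF0) (cut := Cut.none) (xt := Ext.none) (P1 := 1073741824) (W1 := 536870912) (P2 := 1610612736) (W2 := 469762048) (P3 := 1046898278) (W3 := 26843546)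
    rfl (fun _ => rfl) k0_pm_203

noncomputable def f_pm_213 : ℕ → ℕ → ℕ → ℕ → Bool := onCell 1073741824 536870912 1610612736 469762048 1046898278 26843546
    (rowFX 0 false true false .pnn 2 1 3 (qsf 1073741824 536870912 1610612736 469762048 1) ndF5q2 ndF1q3 pcF1 Cut.none Ext.none)

def k0_pm_213 : ∃ t, chk3 f_pm_213 t 1 1 1 = true :=
  ⟨(a (b (l 3) (a (b (l 3) (a (b (a (b (l 16247392) (a (l 16343024) (l 16135256))) (l 108613347143)) (a (b (a (l 16252696) (l 16103184)) (a (l 16171160) (l 16062816))) (b (a (l 15913632) (l 15709808)) (a (l 15905592) (l 15716200))))) (b (l 3) (a (b (l 3) (l 102706900487)) (l 3))))) (l 3))) (l 3)), by decide +kernel⟩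

theorem c_pm_213 : CertFX 1073741824 536870912 1610612736 469762048 1046898278 26843546 false true false .pnn 2 1 3
    ndF5q2 ndF1q3 pcF1 Cut.none Ext.none :=
  certFX0 (fam := false) (s1 := true) (s2 := false) (a := 2) (b := 1) (c := 3) (cn := .pnn) (n1 := ndF5q2) (n2 := ndF1q3) (pc := pcF1) (cut := Cut.none) (xt := Ext.none) (P1 := 1073741824) (W1 := 536870912) (P2 := 1610612736) (W2 := 469762048) (P3 := 1046898278) (W3 := 26843546)
    rfl k0_pm_213

noncomputable def f_pm_303 : ℕ → ℕ → ℕ → ℕ → Bool := onCell 0 1230186008 1610612736 469762048 1046898278 26843546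
    (rowFX 0 false true false .npn 3 0 3 (qsf 0 1230186008 1610612736 469762048 0) ndF5q3 ndF1q3 pcF0 Cut.none Ext.none)

def k0_pm_303 : ∃ t, chk3 f_pm_303 t 1 1 1 = true :=
  ⟨(a (l 3) (l 3)), by decide +kernel⟩

theorem c_pm_303 : CertFX 0 1230186008 1610612736 469762048 1046898278 26843546 false true false .npn 3 0 3
    ndF5q3 ndF1q3 pcF0 Cut.none Ext.none :=
  certFX0 (fam := false) (s1 := true) (s2 := false) (a := 3) (b := 0) (c := 3) (cn := .npn) (n1 := ndF5q3) (n2 := ndF1q3) (pc := pcF0) (cut := Cut.none) (xt := Ext.none) (P1 := 0) (W1 := 1230186008) (P2 := 1610612736) (W2 := 469762048) (P3 := 1046898278) (W3 := 26843546)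
    rfl k0_pm_303

noncomputable def f_pm_313 : ℕ → ℕ → ℕ → ℕ → Bool := onCell 0 1230186008 1610612736 469762048 1046898278 26843546
    (rowFX 0 false true false .dn 3 1 3 (qsf 0 1230186008 1610612736 469762048 1) ndF5q3 ndF1q3 pcF1 Cut.none Ext.none)

def k0_pm_313 : ∃ t, chk3 f_pm_313 t 1 1 1 = true :=
  ⟨(l 1), by decide +kernel⟩

theorem c_pm_313 : CertFX 0 1230186008 1610612736 469762048 1046898278 26843546 false true false .dn 3 1 3
    ndF5q3 ndF1q3 pcF1 Cut.none Ext.none :=
  certFX0 (fam := false) (s1 := true) (s2 := false) (a := 3) (b := 1) (c := 3) (cn := .dn) (n1 := ndF5q3) (n2 := ndF1q3) (pc := pcF1) (cut := Cut.none) (xt := Ext.none) (P1 := 0) (W1 := 1230186008) (P2 := 1610612736) (W2 := 469762048) (P3 := 1046898278) (W3 := 26843546)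
    rfl k0_pm_313

noncomputable def f_mm_001 : ℕ → ℕ → ℕ → ℕ → Bool := onCell 0 536870912 536870912 536870912 1046898278 26843546
    (rowFX 0 false false false .up 0 0 1 (qsf 0 536870912 536870912 536870912 0) ndF5q0 ndF1q1 pcF0 Cut.none Ext.none)

def k0_mm_001 : ∃ t, chk3 f_mm_001 t 1 1 1 = true :=
  ⟨(l 5), by decide +kernel⟩

theorem c_mm_001 : CertFX 0 536870912 536870912 536870912 1046898278 26843546 false false false .up 0 0 1
    ndF5q0 ndF1q1 pcF0 Cut.none Ext.none :=
  certFX0 (fam := false) (s1 := false) (s2 := false) (a := 0) (b := 0) (c := 1) (cn := .up) (n1 := ndF5q0) (n2 := ndF1q1) (pc := pcF0) (cut := Cut.none) (xt := Ext.none) (P1 := 0) (W1 := 536870912) (P2 := 536870912) (W2 := 536870912) (P3 := 1046898278) (W3 := 26843546)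
    rfl k0_mm_001

noncomputable def f_mm_011 : ℕ → ℕ → ℕ → ℕ → Bool := onCell 0 536870912 536870912 536870912 1046898278 26843546
    (rowFX 0 false false false .pnn 0 1 1 (qsf 0 536870912 536870912 536870912 1) ndF5q0 ndF1q1 pcF1 Cut.none Ext.none)

def k0_mm_011 : ∃ t, chk3 f_mm_011 t 1 1 1 = true :=
  ⟨(l 5), by decide +kernel⟩

theorem c_mm_011 : CertFX 0 536870912 536870912 536870912 1046898278 26843546 false false false .pnn 0 1 1
    ndF5q0 ndF1q1 pcF1 Cut.none Ext.none :=
  certFX0 (fam := false) (s1 := false) (s2 := false) (a := 0) (b := 1) (c := 1) (cn := .pnn) (n1 := ndF5q0) (n2 := ndF1q1) (pc := pcF1) (cut := Cut.none) (xt := Ext.none) (P1 := 0) (W1 := 536870912) (P2 := 536870912) (W2 := 536870912) (P3 := 1046898278) (W3 := 26843546)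
    rfl k0_mm_011

noncomputable def f_mm_012_a : ℕ → ℕ → ℕ → ℕ → Bool := onCell 0 536870912 0 420477299 1046898278 26843546
    (rowFX 0 false false false .pnp 0 1 2 (qsf 0 536870912 0 420477299 1) ndF5q0 ndF1q2a pcF1 Cut.none Ext.none)

def k0_mm_012_a : ∃ t, chk3 f_mm_012_a t 1 1 1 = true :=
  ⟨(l 5), by decide +kernel⟩

theorem c_mm_012_a : CertFX 0 536870912 0 420477299 1046898278 26843546 false false false .pnp 0 1 2
    ndF5q0 ndF1q2a pcF1 Cut.none Ext.none :=
  certFX0 (fam := false) (s1 := false) (s2 := false) (a := 0) (b := 1) (c := 2) (cn := .pnp) (n1 := ndF5q0) (n2 := ndF1q2a) (pc := pcF1) (cut := Cut.none) (xt := Ext.none) (P1 := 0) (W1 := 536870912) (P2 := 0) (W2 := 420477299) (P3 := 1046898278) (W3 := 26843546)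
    rfl k0_mm_012_a

noncomputable def f_mm_012_b : ℕ → ℕ → ℕ → ℕ → Bool := onCell 0 536870912 1239849684 370763052 1046898278 26843546
    (rowFX 0 false false false .pnp 0 1 2 (qsf 0 536870912 1239849684 370763052 1) ndF5q0 ndF1q2b pcF1 Cut.none Ext.none)

def k0_mm_012_b : ∃ t, chk3 f_mm_012_b t 1 1 1 = true :=
  ⟨(l 5), by decide +kernel⟩

theorem c_mm_012_b : CertFX 0 536870912 1239849684 370763052 1046898278 26843546 false false false .pnp 0 1 2
    ndF5q0 ndF1q2b pcF1 Cut.none Ext.none :=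
  certFX0 (fam := false) (s1 := false) (s2 := false) (a := 0) (b := 1) (c := 2) (cn := .pnp) (n1 := ndF5q0) (n2 := ndF1q2b) (pc := pcF1) (cut := Cut.none) (xt := Ext.none) (P1 := 0) (W1 := 536870912) (P2 := 1239849684) (W2 := 370763052) (P3 := 1046898278) (W3 := 26843546)
    rfl k0_mm_012_b

noncomputable def f_mm_022_a : ℕ → ℕ → ℕ → ℕ → Bool := onCell 0 536870912 0 420477299 1046898278 26843546
    (rowFX 0 false false false .pp 0 2 2 (qsf 0 536870912 0 420477299 2) ndF5q0 ndF1q2a pcF2 Cut.none Ext.none)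

def k0_mm_022_a : ∃ t, chk3 f_mm_022_a t 1 1 1 = true :=
  ⟨(l 5), by decide +kernel⟩

theorem c_mm_022_a : CertFX 0 536870912 0 420477299 1046898278 26843546 false false false .pp 0 2 2
    ndF5q0 ndF1q2a pcF2 Cut.none Ext.none :=
  certFX0 (fam := false) (s1 := false) (s2 := false) (a := 0) (b := 2) (c := 2) (cn := .pp) (n1 := ndF5q0) (n2 := ndF1q2a) (pc := pcF2) (cut := Cut.none) (xt := Ext.none) (P1 := 0) (W1 := 536870912) (P2 := 0) (W2 := 420477299) (P3 := 1046898278) (W3 := 26843546)
    rfl k0_mm_022_a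

noncomputable def f_mm_022_b : ℕ → ℕ → ℕ → ℕ → Bool := onCell 0 536870912 1239849684 370763052 1046898278 26843546
    (rowFX 0 false false false .pp 0 2 2 (qsf 0 536870912 1239849684 370763052 2) ndF5q0 ndF1q2b pcF2 Cut.none Ext.none)

def k0_mm_022_b : ∃ t, chk3 f_mm_022_b t 1 1 1 = true :=
  ⟨(l 5), by decide +kernel⟩

theorem c_mm_022_b : CertFX 0 536870912 1239849684 370763052 1046898278 26843546 false false false .pp 0 2 2
    ndF5q0 ndF1q2b pcF2 Cut.none Ext.none :=
  certFX0 (fam := false) (s1 := false) (s2 := false) (a := 0) (b := 2) (c := 2) (cn := .pp) (n1 := ndF5q0) (n2 := ndF1q2b) (pc := pcF2) (cut := Cut.none) (xt := Ext.none) (P1 := 0) (W1 := 536870912) (P2 := 1239849684) (W2 := 370763052) (P3 := 1046898278) (W3 := 26843546)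
    rfl k0_mm_022_b

noncomputable def f_mm_023 : ℕ → ℕ → ℕ → ℕ → Bool := onCell 0 536870912 1610612736 469762048 1046898278 26843546
    (rowFX 0 false false false .up 0 2 3 (qsf 0 536870912 1610612736 469762048 2) ndF5q0 ndF1q3 pcF2 Cut.none Ext.none)

def k0_mm_023 : ∃ t, chk3 f_mm_023 t 1 1 1 = true :=
  ⟨(l 5), by decide +kernel⟩

theorem c_mm_023 : CertFX 0 536870912 1610612736 469762048 1046898278 26843546 false false false .up 0 2 3
    ndF5q0 ndF1q3 pcF2 Cut.none Ext.none :=
  certFX0 (fam := false) (s1 := false) (s2 := false) (a := 0) (b := 2) (c := 3) (cn := .up) (n1 := ndF5q0) (n2 := ndF1q3) (pc := pcF2) (cut := Cut.none) (xt := Ext.none) (P1 := 0) (W1 := 536870912) (P2 := 1610612736) (W2 := 469762048) (P3 := 1046898278) (W3 := 26843546)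
    rfl k0_mm_023

noncomputable def f_mm_033 : ℕ → ℕ → ℕ → ℕ → Bool := onCell 0 536870912 1610612736 469762048 1046898278 26843546
    (rowFX 0 false false false .pnn 0 3 3 (qsf 0 536870912 1610612736 469762048 3) ndF5q0 ndF1q3 pcF3 Cut.none Ext.none)

def k0_mm_033 : ∃ t, chk3 f_mm_033 t 1 1 1 = true :=
  ⟨(l 5), by decide +kernel⟩

theorem c_mm_033 : CertFX 0 536870912 1610612736 469762048 1046898278 26843546 false false false .pnn 0 3 3
    ndF5q0 ndF1q3 pcF3 Cut.none Ext.none :=
  certFX0 (fam := false) (s1 := false) (s2 := false) (a := 0) (b := 3) (c := 3) (cn := .pnn) (n1 := ndF5q0) (n2 := ndF1q3) (pc := pcF3) (cut := Cut.none) (xt := Ext.none) (P1 := 0) (W1 := 536870912) (P2 := 1610612736) (W2 := 469762048) (P3 := 1046898278) (W3 := 26843546)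
    rfl k0_mm_033

noncomputable def f_mm_101 : ℕ → ℕ → ℕ → ℕ → Bool := onCell 536870912 469762048 536870912 536870912 1046898278 26843546
    (rowFX 0 false false false .npn 1 0 1 (qsf 536870912 469762048 536870912 536870912 0) ndF5q1 ndF1q1 pcF0 Cut.none Ext.none)

def k0_mm_101 : ∃ t, chk3 f_mm_101 t 1 1 1 = true :=
  ⟨(l 3), by decide +kernel⟩

theorem c_mm_101 : CertFX 536870912 469762048 536870912 536870912 1046898278 26843546 false false false .npn 1 0 1
    ndF5q1 ndF1q1 pcF0 Cut.none Ext.none :=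
  certFX0 (fam := false) (s1 := false) (s2 := false) (a := 1) (b := 0) (c := 1) (cn := .npn) (n1 := ndF5q1) (n2 := ndF1q1) (pc := pcF0) (cut := Cut.none) (xt := Ext.none) (P1 := 536870912) (W1 := 469762048) (P2 := 536870912) (W2 := 536870912) (P3 := 1046898278) (W3 := 26843546)
    rfl k0_mm_101

noncomputable def f_mm_102_a : ℕ → ℕ → ℕ → ℕ → Bool := onCell 536870912 469762048 0 420477299 1046898278 26843546
    (rowFX 0 false false false .npp 1 0 2 (qsf 536870912 469762048 0 420477299 0) ndF5q1 ndF1q2a pcF0 Cut.none Ext.none)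

def k0_mm_102_a : ∃ t, chk3 f_mm_102_a t 1 1 1 = true :=
  ⟨(l 5), by decide +kernel⟩

theorem c_mm_102_a : CertFX 536870912 469762048 0 420477299 1046898278 26843546 false false false .npp 1 0 2
    ndF5q1 ndF1q2a pcF0 Cut.none Ext.none :=
  certFX0 (fam := false) (s1 := false) (s2 := false) (a := 1) (b := 0) (c := 2) (cn := .npp) (n1 := ndF5q1) (n2 := ndF1q2a) (pc := pcF0) (cut := Cut.none) (xt := Ext.none) (P1 := 536870912) (W1 := 469762048) (P2 := 0) (W2 := 420477299) (P3 := 1046898278) (W3 := 26843546)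
    rfl k0_mm_102_a

noncomputable def f_mm_102_b : ℕ → ℕ → ℕ → ℕ → Bool := onCell 536870912 469762048 1239849684 370763052 1046898278 26843546
    (rowFX 0 false false false .npp 1 0 2 (qsf 536870912 469762048 1239849684 370763052 0) ndF5q1 ndF1q2b pcF0 Cut.none Ext.none)

def k0_mm_102_b : ∃ t, chk3 f_mm_102_b t 1 1 1 = true :=
  ⟨(l 5), by decide +kernel⟩

theorem c_mm_102_b : CertFX 536870912 469762048 1239849684 370763052 1046898278 26843546 false false false .npp 1 0 2
    ndF5q1 ndF1q2b pcF0 Cut.none Ext.none :=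
  certFX0 (fam := false) (s1 := false) (s2 := false) (a := 1) (b := 0) (c := 2) (cn := .npp) (n1 := ndF5q1) (n2 := ndF1q2b) (pc := pcF0) (cut := Cut.none) (xt := Ext.none) (P1 := 536870912) (W1 := 469762048) (P2 := 1239849684) (W2 := 370763052) (P3 := 1046898278) (W3 := 26843546)
    rfl k0_mm_102_b

noncomputable def f_mm_112_a : ℕ → ℕ → ℕ → ℕ → Bool := onCell 536870912 469762048 0 420477299 1046898278 26843546
    (rowFX 0 false false false .dn 1 1 2 (qsf 536870912 469762048 0 420477299 1) ndF5q1 ndF1q2a pcF1 Cut.none Ext.none)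

def k0_mm_112_a : ∃ t, chk3 f_mm_112_a t 1 1 1 = true :=
  ⟨(l 5), by decide +kernel⟩

theorem c_mm_112_a : CertFX 536870912 469762048 0 420477299 1046898278 26843546 false false false .dn 1 1 2
    ndF5q1 ndF1q2a pcF1 Cut.none Ext.none :=
  certFX0 (fam := false) (s1 := false) (s2 := false) (a := 1) (b := 1) (c := 2) (cn := .dn) (n1 := ndF5q1) (n2 := ndF1q2a) (pc := pcF1) (cut := Cut.none) (xt := Ext.none) (P1 := 536870912) (W1 := 469762048) (P2 := 0) (W2 := 420477299) (P3 := 1046898278) (W3 := 26843546)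
    rfl k0_mm_112_a

noncomputable def f_mm_112_b : ℕ → ℕ → ℕ → ℕ → Bool := onCell 536870912 469762048 1239849684 370763052 1046898278 26843546
    (rowFX 0 false false false .dn 1 1 2 (qsf 536870912 469762048 1239849684 370763052 1) ndF5q1 ndF1q2b pcF1 Cut.none Ext.none)

def k0_mm_112_b : ∃ t, chk3 f_mm_112_b t 1 1 1 = true :=
  ⟨(l 5), by decide +kernel⟩

theorem c_mm_112_b : CertFX 536870912 469762048 1239849684 370763052 1046898278 26843546 false false false .dn 1 1 2
    ndF5q1 ndF1q2b pcF1 Cut.none Ext.none :=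
  certFX0 (fam := false) (s1 := false) (s2 := false) (a := 1) (b := 1) (c := 2) (cn := .dn) (n1 := ndF5q1) (n2 := ndF1q2b) (pc := pcF1) (cut := Cut.none) (xt := Ext.none) (P1 := 536870912) (W1 := 469762048) (P2 := 1239849684) (W2 := 370763052) (P3 := 1046898278) (W3 := 26843546)
    rfl k0_mm_112_b

noncomputable def f_mm_113 : ℕ → ℕ → ℕ → ℕ → Bool := onCell 536870912 469762048 1610612736 469762048 1046898278 26843546
    (rowFX 0 false false false .nn 1 1 3 (qsf 536870912 469762048 1610612736 469762048 1) ndF5q1 ndF1q3 pcF1 Cut.none Ext.none)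

def k0_mm_113 : ∃ t, chk3 f_mm_113 t 1 1 1 = true :=
  ⟨(l 5), by decide +kernel⟩

theorem c_mm_113 : CertFX 536870912 469762048 1610612736 469762048 1046898278 26843546 false false false .nn 1 1 3
    ndF5q1 ndF1q3 pcF1 Cut.none Ext.none :=
  certFX0 (fam := false) (s1 := false) (s2 := false) (a := 1) (b := 1) (c := 3) (cn := .nn) (n1 := ndF5q1) (n2 := ndF1q3) (pc := pcF1) (cut := Cut.none) (xt := Ext.none) (P1 := 536870912) (W1 := 469762048) (P2 := 1610612736) (W2 := 469762048) (P3 := 1046898278) (W3 := 26843546)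
    rfl k0_mm_113

noncomputable def f_mm_123 : ℕ → ℕ → ℕ → ℕ → Bool := onCell 536870912 469762048 1610612736 469762048 1046898278 26843546
    (rowFX 0 false false false .npn 1 2 3 (qsf 536870912 469762048 1610612736 469762048 2) ndF5q1 ndF1q3 pcF2 Cut.none Ext.none)

def k0_mm_123 : ∃ t, chk3 f_mm_123 t 1 1 1 = true :=
  ⟨(l 5), by decide +kernel⟩

theorem c_mm_123 : CertFX 536870912 469762048 1610612736 469762048 1046898278 26843546 false false false .npn 1 2 3
    ndF5q1 ndF1q3 pcF2 Cut.none Ext.none :=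
  certFX0 (fam := false) (s1 := false) (s2 := false) (a := 1) (b := 2) (c := 3) (cn := .npn) (n1 := ndF5q1) (n2 := ndF1q3) (pc := pcF2) (cut := Cut.none) (xt := Ext.none) (P1 := 536870912) (W1 := 469762048) (P2 := 1610612736) (W2 := 469762048) (P3 := 1046898278) (W3 := 26843546)
    rfl k0_mm_123

noncomputable def f_mm_133 : ℕ → ℕ → ℕ → ℕ → Bool := onCell 536870912 469762048 1610612736 469762048 1046898278 26843546
    (rowFX 0 false false false .dn 1 3 3 (qsf 536870912 469762048 1610612736 469762048 3) ndF5q1 ndF1q3 pcF3 Cut.none Ext.none)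

def k0_mm_133 : ∃ t, chk3 f_mm_133 t 1 1 1 = true :=
  ⟨(l 1), by decide +kernel⟩

theorem c_mm_133 : CertFX 536870912 469762048 1610612736 469762048 1046898278 26843546 false false false .dn 1 3 3
    ndF5q1 ndF1q3 pcF3 Cut.none Ext.none :=
  certFX0 (fam := false) (s1 := false) (s2 := false) (a := 1) (b := 3) (c := 3) (cn := .dn) (n1 := ndF5q1) (n2 := ndF1q3) (pc := pcF3) (cut := Cut.none) (xt := Ext.none) (P1 := 536870912) (W1 := 469762048) (P2 := 1610612736) (W2 := 469762048) (P3 := 1046898278) (W3 := 26843546)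
    rfl k0_mm_133

noncomputable def f_mm_202_a : ℕ → ℕ → ℕ → ℕ → Bool := onCell 1073741824 536870912 0 420477299 1046898278 26843546
    (rowFX 0 false false false .pp 2 0 2 (qsf 1073741824 536870912 0 420477299 0) ndF5q2 ndF1q2a pcF0 Cut.none Ext.none)

def k0_mm_202_a : ∃ t, chk3 f_mm_202_a t 1 1 1 = true :=
  ⟨(l 3), by decide +kernel⟩

theorem c_mm_202_a : CertFX 1073741824 536870912 0 420477299 1046898278 26843546 false false false .pp 2 0 2
    ndF5q2 ndF1q2a pcF0 Cut.none Ext.none :=
  certFX0 (fam := false) (s1 := false) (s2 := false) (a := 2) (b := 0) (c := 2) (cn := .pp) (n1 := ndF5q2) (n2 := ndF1q2a) (pc := pcF0) (cut := Cut.none) (xt := Ext.none) (P1 := 1073741824) (W1 := 536870912) (P2 := 0) (W2 := 420477299) (P3 := 1046898278) (W3 := 26843546)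
    rfl k0_mm_202_a

noncomputable def f_mm_202_b : ℕ → ℕ → ℕ → ℕ → Bool := onCell 1073741824 536870912 1239849684 370763052 1046898278 26843546
    (rowFX 0 false false false .pp 2 0 2 (qsf 1073741824 536870912 1239849684 370763052 0) ndF5q2 ndF1q2b pcF0 Cut.none Ext.none)

def k0_mm_202_b : ∃ t, chk3 f_mm_202_b t 1 1 1 = true :=
  ⟨(l 3), by decide +kernel⟩

theorem c_mm_202_b : CertFX 1073741824 536870912 1239849684 370763052 1046898278 26843546 false false false .pp 2 0 2
    ndF5q2 ndF1q2b pcF0 Cut.none Ext.none :=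
  certFX0 (fam := false) (s1 := false) (s2 := false) (a := 2) (b := 0) (c := 2) (cn := .pp) (n1 := ndF5q2) (n2 := ndF1q2b) (pc := pcF0) (cut := Cut.none) (xt := Ext.none) (P1 := 1073741824) (W1 := 536870912) (P2 := 1239849684) (W2 := 370763052) (P3 := 1046898278) (W3 := 26843546)
    rfl k0_mm_202_b

noncomputable def f_mm_203 : ℕ → ℕ → ℕ → ℕ → Bool := onCell 1073741824 536870912 1610612736 469762048 1046898278 26843546
    (rowFX 0 false false false .up 2 0 3 (qsf 1073741824 536870912 1610612736 469762048 0) ndF5q2 ndF1q3 pcF0 Cut.none Ext.none)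

def k0_mm_203 : ∃ t, chk3 f_mm_203 t 1 1 1 = true :=
  ⟨(l 5), by decide +kernel⟩

theorem c_mm_203 : CertFX 1073741824 536870912 1610612736 469762048 1046898278 26843546 false false false .up 2 0 3
    ndF5q2 ndF1q3 pcF0 Cut.none Ext.none :=
  certFX0 (fam := false) (s1 := false) (s2 := false) (a := 2) (b := 0) (c := 3) (cn := .up) (n1 := ndF5q2) (n2 := ndF1q3) (pc := pcF0) (cut := Cut.none) (xt := Ext.none) (P1 := 1073741824) (W1 := 536870912) (P2 := 1610612736) (W2 := 469762048) (P3 := 1046898278) (W3 := 26843546)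
    rfl k0_mm_203

noncomputable def f_mm_213 : ℕ → ℕ → ℕ → ℕ → Bool := onCell 1073741824 536870912 1610612736 469762048 1046898278 26843546
    (rowFX 0 false false false .pnn 2 1 3 (qsf 1073741824 536870912 1610612736 469762048 1) ndF5q2 ndF1q3 pcF1 Cut.none Ext.none)

def k0_mm_213 : ∃ t, chk3 f_mm_213 t 1 1 1 = true :=
  ⟨(l 5), by decide +kernel⟩

theorem c_mm_213 : CertFX 1073741824 536870912 1610612736 469762048 1046898278 26843546 false false false .pnn 2 1 3
    ndF5q2 ndF1q3 pcF1 Cut.none Ext.none :=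
  certFX0 (fam := false) (s1 := false) (s2 := false) (a := 2) (b := 1) (c := 3) (cn := .pnn) (n1 := ndF5q2) (n2 := ndF1q3) (pc := pcF1) (cut := Cut.none) (xt := Ext.none) (P1 := 1073741824) (W1 := 536870912) (P2 := 1610612736) (W2 := 469762048) (P3 := 1046898278) (W3 := 26843546)
    rfl k0_mm_213

noncomputable def f_mm_303 : ℕ → ℕ → ℕ → ℕ → Bool := onCell 0 1230186008 1610612736 469762048 1046898278 26843546
    (rowFX 0 false false false .npn 3 0 3 (qsf 0 1230186008 1610612736 469762048 0) ndF5q3 ndF1q3 pcF0 Cut.none Ext.none)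

def k0_mm_303 : ∃ t, chk3 f_mm_303 t 1 1 1 = true :=
  ⟨(a (l 3) (l 3)), by decide +kernel⟩

theorem c_mm_303 : CertFX 0 1230186008 1610612736 469762048 1046898278 26843546 false false false .npn 3 0 3
    ndF5q3 ndF1q3 pcF0 Cut.none Ext.none :=
  certFX0 (fam := false) (s1 := false) (s2 := false) (a := 3) (b := 0) (c := 3) (cn := .npn) (n1 := ndF5q3) (n2 := ndF1q3) (pc := pcF0) (cut := Cut.none) (xt := Ext.none) (P1 := 0) (W1 := 1230186008) (P2 := 1610612736) (W2 := 469762048) (P3 := 1046898278) (W3 := 26843546)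
    rfl k0_mm_303

noncomputable def f_mm_313 : ℕ → ℕ → ℕ → ℕ → Bool := onCell 0 1230186008 1610612736 469762048 1046898278 26843546
    (rowFX 0 false false false .dn 3 1 3 (qsf 0 1230186008 1610612736 469762048 1) ndF5q3 ndF1q3 pcF1 Cut.none Ext.none)

def k0_mm_313 : ∃ t, chk3 f_mm_313 t 1 1 1 = true :=
  ⟨(l 1), by decide +kernel⟩

theorem c_mm_313 : CertFX 0 1230186008 1610612736 469762048 1046898278 26843546 false false false .dn 3 1 3
    ndF5q3 ndF1q3 pcF1 Cut.none Ext.none :=
  certFX0 (fam := false) (s1 := false) (s2 := false) (a := 3) (b := 1) (c := 3) (cn := .dn) (n1 := ndF5q3) (n2 := ndF1q3) (pc := pcF1) (cut := Cut.none) (xt := Ext.none) (P1 := 0) (W1 := 1230186008) (P2 := 1610612736) (W2 := 469762048) (P3 := 1046898278) (W3 := 26843546)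
    rfl k0_mm_313

end Pool.Agent.Strip051.G.IE1.Tab.C.FB51

namespace Pool.Agent.Strip051.G.IE1.Tab.C.FB52

open Pool.Agent.Strip051.PB Pool.Agent.Strip051.PB.T
open Pool.Agent.Strip051.G.IE1.Tab

noncomputable def f_pp_001 : ℕ → ℕ → ℕ → ℕ → Bool := onCell 0 536870912 536870912 536870912 1046898278 26843546
    (rowFX 0 false true true .up 0 0 1 (qsf 0 536870912 536870912 536870912 0) ndF5q0 ndF2q1 pcF0 Cut.none Ext.none)

def k0_pp_001 : ∃ t, chk3 f_pp_001 t 1 1 1 = true :=
  ⟨(l 3), by decide +kernel⟩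

theorem c_pp_001 : CertFX 0 536870912 536870912 536870912 1046898278 26843546 false true true .up 0 0 1
    ndF5q0 ndF2q1 pcF0 Cut.none Ext.none :=
  certFX0 (fam := false) (s1 := true) (s2 := true) (a := 0) (b := 0) (c := 1) (cn := .up) (n1 := ndF5q0) (n2 := ndF2q1) (pc := pcF0) (cut := Cut.none) (xt := Ext.none) (P1 := 0) (W1 := 536870912) (P2 := 536870912) (W2 := 536870912) (P3 := 1046898278) (W3 := 26843546)
    rfl k0_pp_001

noncomputable def f_pp_011 : ℕ → ℕ → ℕ → ℕ → Bool := onCell 0 536870912 536870912 536870912 1046898278 26843546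
    (rowFX 0 false true true .pnn 0 1 1 (qsf 0 536870912 536870912 536870912 1) ndF5q0 ndF2q1 pcF1 Cut.none Ext.none)

def k0_pp_011 : ∃ t, chk3 f_pp_011 t 1 1 1 = true :=
  ⟨(l 3), by decide +kernel⟩

theorem c_pp_011 : CertFX 0 536870912 536870912 536870912 1046898278 26843546 false true true .pnn 0 1 1
    ndF5q0 ndF2q1 pcF1 Cut.none Ext.none :=
  certFX0 (fam := false) (s1 := true) (s2 := true) (a := 0) (b := 1) (c := 1) (cn := .pnn) (n1 := ndF5q0) (n2 := ndF2q1) (pc := pcF1) (cut := Cut.none) (xt := Ext.none) (P1 := 0) (W1 := 536870912) (P2 := 536870912) (W2 := 536870912) (P3 := 1046898278) (W3 := 26843546)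
    rfl k0_pp_011

noncomputable def f_pp_012_a : ℕ → ℕ → ℕ → ℕ → Bool := onCell 536870912 536870912 0 420477299 1046898278 26843546
    (rowFX 2 false true true .pnp 0 1 2 (qsf 0 536870912 0 420477299 1) ndF5q0 ndF2q2a pcF1 Cut.none Ext.none)

def k0_pp_012_a : ∃ t, chk3 f_pp_012_a t 1 1 1 = true :=
  ⟨(a (b (a (l 2) (b (l 16702392) (l 16752704))) (b (a (l 16609208) (l 16609208)) (a (b (l 16394016) (l 16285176)) (b (l 16394016) (a (l 16285176) (l 16285176)))))) (a (b (a (b (l 16700248) (l 16750304)) (b (l 16689688) (a (l 16737936) (l 16740104)))) (a (b (l 16605400) (b (l 16390016) (l 16281040))) (b (a (l 16587248) (l 16571376)) (b (a (l 16371216) (l 16229912)) (a (l 16261704) (a (l 16245544) (l 16271520))))))) (b (a (b (l 16587672) (a (l 16685432) (l 16526784))) (b (a (l 16579848) (l 16625432)) (a (l 16559520) (l 16594688)))) (a (b (a (b (l 16583288) (l 16498600)) (l 16475048)) (b (a (l 16439144) (l 16405936)) (a (l 16390768) (l 16416048)))) (b (a (l 16473248) (l 16427344)) (b (a (l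 16387632) (l 16373904)) (a (l 16390336) (a (l 16400144) (b (l 16424168) (l 16455960)))))))))), by decide +kernel⟩

theorem c_pp_012_a : CertFX 0 536870912 0 420477299 1046898278 26843546 false true true .pnp 0 1 2
    ndF5q0 ndF2q2a pcF1 Cut.none Ext.none :=
  certFX2 (fam := false) (s1 := true) (s2 := true) (a := 0) (b := 1) (c := 2) (cn := .pnp) (n1 := ndF5q0) (n2 := ndF2q2a) (pc := pcF1) (cut := Cut.none) (xt := Ext.none) (P1 := 0) (W1 := 536870912) (P2 := 0) (W2 := 420477299) (P3 := 1046898278) (W3 := 26843546)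
    rfl (fun _ => rfl) k0_pp_012_a

noncomputable def f_pp_012_b : ℕ → ℕ → ℕ → ℕ → Bool := onCell 536870912 536870912 1239849684 370763052 1046898278 26843546
    (rowFX 2 false true true .pnp 0 1 2 (qsf 0 536870912 1239849684 370763052 1) ndF5q0 ndF2q2b pcF1 Cut.none Ext.none)

def k0_pp_012_b : ∃ t, chk3 f_pp_012_b t 1 1 1 = true :=
  ⟨(a (b (a (l 2) (b (l 16753056) (l 16777216))) (l 2)) (a (b (a (b (l 16751424) (l 16774088)) (b (a (l 16742632) (l 16742952)) (l 16758480))) (a (l 2) (l 16769768))) (b (a (b (b (l 16660176) (l 16642144)) (l 16654576)) (b (b (a (l 16448656) (l 16501400)) (a (l 16460120) (l 16355904))) (l 16350416))) (a (b (l 16620816) (l 16488720)) (b (a (l 16424080) (l 16258176)) (l 15957576)))))), by decide +kernel⟩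

theorem c_pp_012_b : CertFX 0 536870912 1239849684 370763052 1046898278 26843546 false true true .pnp 0 1 2
    ndF5q0 ndF2q2b pcF1 Cut.none Ext.none :=
  certFX2 (fam := false) (s1 := true) (s2 := true) (a := 0) (b := 1) (c := 2) (cn := .pnp) (n1 := ndF5q0) (n2 := ndF2q2b) (pc := pcF1) (cut := Cut.none) (xt := Ext.none) (P1 := 0) (W1 := 536870912) (P2 := 1239849684) (W2 := 370763052) (P3 := 1046898278) (W3 := 26843546)
    rfl (fun _ => rfl) k0_pp_012_b

noncomputable def f_pp_022_a : ℕ → ℕ → ℕ → ℕ → Bool := onCell 0 536870912 0 420477299 1046898278 26843546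
    (rowFX 0 false true true .pp 0 2 2 (qsf 0 536870912 0 420477299 2) ndF5q0 ndF2q2a pcF2 Cut.none Ext.none)

def k0_pp_022_a : ∃ t, chk3 f_pp_022_a t 8 2 1 = true :=
  ⟨(a (b (a (a (c (b (l 16406904) (l 16231104)) (c (b (l 16272152) (b (l 16247568) (l 16174072))) (a (b (l 16426432) (l 16227640)) (l 16151144)))) (c (b (a (l 16230648) (a (l 16177280) (b (l 16184864) (l 16180552)))) (a (b (l 16205208) (a (l 16196872) (c (l 16158320) (l 16178976)))) (a (b (l 16170192) (l 16175768)) (l 16197560)))) (b (a (l 16234448) (c (l 16149880) (l 16160504))) (a (b (l 16207640) (c (l 16160336) (l 16177512))) (b (l 16085888) (l 16180120)))))) (b (c (a (l 16199288) (l 16269320)) (l 16187416)) (c (a (c (l 16254368) (l 16240008)) (l 16291960)) (l 16209544)))) (a (b (a (c (a (b (l 16335144) (l 16230120)) (b (l 16126032) (l 16117976))) (c (a (b (l 16311656) (l 16203984)) (b (a (l 16219376) (l 16177272)) (a (l 16145024) (l 16146960)))) (a (a (l 16208848) (b (l 16270168) (l 16099768))) (b (l 16158072) (l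 16148048))))) (c (a (b (a (l 16114800) (l 16166920)) (l 16170592)) (l 16177512)) (b (c (l 16164784) (l 16161168)) (l 16185088)))) (a (c (b (a (l 16168264) (l 16160376)) (l 16172992)) (a (b (c (l 16140408) (a (l 16040808) (l 16120512))) (c (l 16142984) (l 16132512))) (c (l 16159712) (l 16155800)))) (c (a (l 16190048) (l 16223424)) (c (l 16212512) (l 16187528))))) (c (b (a (l 16205776) (l 16320776)) (a (l 16254040) (l 16350192))) (b (l 16237304) (l 16264904))))) (b (c (a (b (l 16300296) (l 16303624)) (b (l 16308312) (c (l 16382512) (l 16367488)))) (b (l 16298808) (l 16261848))) (c (b (a (l 16355320) (c (l 16415824) (l 16400976))) (a (l 16386896) (c (l 16357912) (l 16426840)))) (b (l 16273344) (a (l 16345824) (l 16423096)))))), by decide +kernel⟩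

def k1_pp_022_a : ∃ t, chk3 f_pp_022_a t 9 2 1 = true :=
  ⟨(b (a (a (c (b (l 16409040) (l 16388720)) (b (l 16404032) (l 16426208))) (l 16411672)) (b (l 16349376) (l 16384792))) (a (c (b (a (l 16449224) (l 16438960)) (a (l 16455008) (l 16447232))) (b (l 16399072) (l 16448608))) (b (l 16413904) (l 16435416)))), by decide +kernel⟩

def k2_pp_022_a : ∃ t, chk3 f_pp_022_a t 4 3 1 = true :=
  ⟨(a (b (a (a (c (a (b (l 16198984) (l 16240968)) (b (a (l 16223960) (l 16258808)) (c (l 16283016) (l 16274016)))) (a (c (b (l 16120032) (l 16162128)) (a (b (l 16074248) (c (l 16201608) (l 16196160))) (l 16107608))) (c (b (l 16247952) (l 16293344)) (l 16246824)))) (c (b (a (l 16292344) (l 16391024)) (a (l 16320128) (l 16418792))) (b (l 16303496) (l 16350264)))) (b (a (c (l 16364064) (l 16385432)) (c (a (l 16451824) (l 16457528)) (l 16443248))) (a (c (l 16397504) (l 16417752)) (c (l 16453536) (l 16460640))))) (a (a (c (b (a (l 16327368) (a (l 16270392) (l 16243600))) (a (l 16511608) (c (l 16506040) (l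 16438624)))) (b (a (c (a (l 16296536) (l 16281448)) (a (c (l 16288672) (l 16241576)) (l 16321032))) (c (l 16318336) (l 16355288))) (a (c (a (l 16484168) (l 16446328)) (a (b (l 16360520) (l 16488784)) (l 16467112))) (c (l 16523992) (l 16540888))))) (b (c (a (b (l 16388224) (l 16503536)) (l 16473056)) (l 16261024)) (c (a (l 16437728) (l 16626192)) (l 16423728)))) (b (c (a (b (l 16491896) (l 16564824)) (b (l 16506576) (l 16581800))) (a (l 16463952) (l 16509848))) (c (a (l 16499048) (b (l 16677264) (l 16658200))) (a (l 16587984) (l 16660088)))))) (b (a (a (b (l 16460952) (l 16420208)) (b (l 16461304) (l 16490536))) (b (l 16464648) (l 16484416))) (b (a (a (c (l 16519688) (l 16537280)) (l 16530576)) (a (l 16494824) (l 1))) (a (a (c (l 16628784) (l 16669800)) (l 240551395735)) (l 1))))), by decide +kernel⟩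

def k3_pp_022_a : ∃ t, chk3 f_pp_022_a t 5 1 1 = true :=
  ⟨(a (b (b (a (b (l 16288896) (l 16345192)) (l 1)) (a (b (l 16394280) (l 16434904)) (l 1))) (b (a (b (l 16482336) (l 1)) (l 1)) (l 1))) (l 1)), by decide +kernel⟩

def k4_pp_022_a : ∃ t, chk3 f_pp_022_a t 3 1 1 = true :=
  ⟨(l 1), by decide +kernel⟩

theorem s5_pp_022_a : ∃ t, chk3 f_pp_022_a t 4 2 1 = true := ex3_a k0_pp_022_a k1_pp_022_a

theorem s6_pp_022_a : ∃ t, chk3 f_pp_022_a t 4 1 1 = true := ex3_b s5_pp_022_a k2_pp_022_a

theorem s7_pp_022_a : ∃ t, chk3 f_pp_022_a t 2 1 1 = true := ex3_a s6_pp_022_a k3_pp_022_a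

theorem s8_pp_022_a : ∃ t, chk3 f_pp_022_a t 1 1 1 = true := ex3_a s7_pp_022_a k4_pp_022_a

theorem c_pp_022_a : CertFX 0 536870912 0 420477299 1046898278 26843546 false true true .pp 0 2 2
    ndF5q0 ndF2q2a pcF2 Cut.none Ext.none :=
  certFX0 (fam := false) (s1 := true) (s2 := true) (a := 0) (b := 2) (c := 2) (cn := .pp) (n1 := ndF5q0) (n2 := ndF2q2a) (pc := pcF2) (cut := Cut.none) (xt := Ext.none) (P1 := 0) (W1 := 536870912) (P2 := 0) (W2 := 420477299) (P3 := 1046898278) (W3 := 26843546)
    rfl s8_pp_022_a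

noncomputable def f_pp_022_b : ℕ → ℕ → ℕ → ℕ → Bool := onCell 0 536870912 1073741824 536870912 1046898278 26843546
    (rowFX 1 false true true .pp 0 2 2 (qsf 0 536870912 1239849684 370763052 2) ndF5q0 ndF2q2b pcF2 Cut.none Ext.none)

def k0_pp_022_b : ∃ t, chk3 f_pp_022_b t 1 4 1 = true :=
  ⟨(a (a (a (b (l 1) (a (a (l 1) (b (l 1) (c (a (l 1) (b (l 1) (l 16273952))) (l 105795832583)))) (b (b (l 1) (a (l 1) (a (l 1) (a (l 1) (b (l 1) (l 264709989927)))))) (c (a (b (a (l 1) (l 16292728)) (c (l 16204176) (l 16163744))) (b (a (l 246992963415) (l 16225856)) (l 15940080))) (a (l 272225635623) (l 15951448)))))) (b (a (b (l 1) (a (l 1) (l 439193081655))) (b (a (l 1) (l 16333288)) (b (l 338261028375) (l 16191840)))) (a (b (a (b (a (l 1) (l 16453512)) (c (a (l 16305272) (l 16354840)) (l 16310480))) (b (l 16377272) (l 16248216))) (c (a (l 15964992) (l 15965688)) (l 15928944))) (b (b (l 16196512) (l 16073256)) (l 15803880))))) (b (a (b (a (b (l 267930804103) (l 16208304)) (l 15999352)) (a (l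 16098112) (l 15891904))) (a (l 15713896) (l 15618640))) (a (b (b (l 15922944) (l 15836864)) (l 15603928)) (b (l 15641176) (l 15410720))))) (b (a (a (b (l 15568224) (l 15587776)) (b (l 15468400) (l 15485192))) (a (l 15315632) (l 15166768))) (a (b (a (l 15596168) (l 15486320)) (l 15336168)) (b (l 15302464) (l 15200912))))), by decide +kernel⟩

def k1_pp_022_b : ∃ t, chk3 f_pp_022_b t 4 5 1 = true :=
  ⟨(b (a (a (b (b (a (a (l 1) (a (l 1) (a (l 1) (c (l 114385696215) (l 16215216))))) (c (a (c (b (l 16294424) (l 16214288)) (l 253435187367)) (l 282962908311)) (a (l 322691434375) (l 16132296)))) (a (c (a (l 497174769399) (c (l 16140488) (l 16131448))) (a (c (a (l 16299472) (l 16154328)) (a (c (l 16231424) (l 16144176)) (l 16237816))) (c (l 16236400) (l 16341144)))) (c (a (l 16126040) (l 16201688)) (l 16174448)))) (a (c (a (b (a (l 16201856) (l 16258040)) (l 15883824)) (b (c (l 16259984) (l 16257392)) (c (l 15966960) (l 15938240)))) (a (b (c (a (l 16223160) (l 16252584)) (c (l 16169432) (l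 16219768))) (c (l 15881224) (l 15753784))) (b (l 16150952) (l 15928936)))) (c (b (a (l 16229768) (l 16338528)) (l 15831880)) (l 16061456)))) (b (b (c (a (c (l 16101600) (l 16060368)) (c (l 15948168) (l 15928680))) (a (l 16037416) (l 15915680))) (c (a (b (l 16091016) (l 16253160)) (l 16014720)) (l 16011088))) (a (c (b (l 16379728) (l 16109480)) (l 16344256)) (b (l 16142120) (l 16245856))))) (b (b (a (c (l 15612680) (l 15737416)) (l 15563648)) (a (a (l 15909128) (l 15808528)) (l 15689672))) (a (c (l 16132488) (l 16316848)) (l 16197888)))) (a (a (b (a (c (a (l 15399232) (c (l 15496344) (l 15460080))) (a (c (l 15385200) (l 15229168)) (l 15439472))) (c (a (l 15497616) (l 15558736)) (l 15565144))) (a (c (a (l 15074152) (l 15111792)) (a (c (l 15052072) (l 15037472)) (l 15107064))) (c (l 15223640) (l 15241432)))) (b (c (a (l 15704008) (l 15879520)) (l 15794936)) (c (l 15496528) (l 15494176)))) (b (a (l 16013536) (l 16345600)) (a (l 15834232) (l 16113568))))), by decide +kernel⟩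

def k2_pp_022_b : ∃ t, chk3 f_pp_022_b t 5 5 1 = true :=
  ⟨(b (b (b (a (l 15393280) (l 15226568)) (a (l 15526504) (l 15365216))) (a (l 16036456) (l 15862200))) (b (a (l 16600904) (l 16444256)) (a (l 16419192) (l 16702544)))), by decide +kernel⟩

def k3_pp_022_b : ∃ t, chk3 f_pp_022_b t 3 5 1 = true :=
  ⟨(b (a (b (l 15265616) (l 15780704)) (b (l 15242648) (l 2))) (b (a (l 16284256) (l 2)) (l 16376392))), by decide +kernel⟩

def k4_pp_022_b : ∃ t, chk3 f_pp_022_b t 1 3 1 = true :=
  ⟨(a (a (b (a (a (c (a (b (a (l 15073704) (l 15153280)) (l 15107344)) (b (l 15223200) (l 15223200))) (a (b (a (l 15042544) (l 15106592)) (l 15079184)) (l 15240976))) (b (c (l 15496128) (l 15493760)) (l 15490848))) (b (a (l 15833864) (l 16115008)) (a (l 15833752) (l 16112504)))) (a (a (c (a (l 15002488) (l 15223200)) (b (l 15155776) (l 15155776))) (b (l 15490848) (l 15490848))) (b (l 15967568) (l 15967568)))) (b (b (a (l 16423704) (l 16714312)) (l 16326120)) (b (l 16555552) (l 2)))) (b (b (a (l 16627576)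 (l 2)) (l 2)) (l 2))), by decide +kernel⟩

theorem s5_pp_022_b : ∃ t, chk3 f_pp_022_b t 2 5 1 = true := ex3_a k1_pp_022_b k2_pp_022_b

theorem s6_pp_022_b : ∃ t, chk3 f_pp_022_b t 1 5 1 = true := ex3_a s5_pp_022_b k3_pp_022_b

theorem s7_pp_022_b : ∃ t, chk3 f_pp_022_b t 1 2 1 = true := ex3_b k0_pp_022_b s6_pp_022_b

theorem s8_pp_022_b : ∃ t, chk3 f_pp_022_b t 1 1 1 = true := ex3_b s7_pp_022_b k4_pp_022_b

theorem c_pp_022_b : CertFX 0 536870912 1239849684 370763052 1046898278 26843546 false true true .pp 0 2 2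
    ndF5q0 ndF2q2b pcF2 Cut.none Ext.none :=
  certFX1 (fam := false) (s1 := true) (s2 := true) (a := 0) (b := 2) (c := 2) (cn := .pp) (n1 := ndF5q0) (n2 := ndF2q2b) (pc := pcF2) (cut := Cut.none) (xt := Ext.none) (P1 := 0) (W1 := 536870912) (P2 := 1239849684) (W2 := 370763052) (P3 := 1046898278) (W3 := 26843546)
    rfl (fun _ => rfl) s8_pp_022_b

noncomputable def f_pp_023 : ℕ → ℕ → ℕ → ℕ → Bool := onCell 1073741824 536870912 1610612736 469762048 1046898278 26843546
    (rowFX 2 false true true .up 0 2 3 (qsf 0 536870912 1610612736 469762048 2) ndF5q0 ndF2q3 pcF2 Cut.none Ext.none)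

def k0_pp_023 : ∃ t, chk3 f_pp_023 t 1 1 1 = true :=
  ⟨(a (a (b (a (b (l 15047632) (l 2)) (b (l 15207416) (l 15049176))) (l 2)) (b (a (a (l 15048912) (l 15703240)) (a (l 16160664) (l 16442504))) (a (l 2) (b (l 16076712) (l 2))))) (b (a (a (b (l 16663640) (l 16576896)) (b (l 16559192) (l 16770648))) (b (a (b (a (l 16286232) (l 16051512)) (l 16511296)) (b (a (l 15766096) (b (c (l 15246040) (l 15298088)) (l 15595304))) (l 16077240))) (a (l 16741512) (l 16553352)))) (a (a (b (l 16499248) (l 2)) (b (l 16768192) (l 4))) (c (l 16907416) (b (l 16777192) (l 4)))))), by decide +kernel⟩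

theorem c_pp_023 : CertFX 0 536870912 1610612736 469762048 1046898278 26843546 false true true .up 0 2 3
    ndF5q0 ndF2q3 pcF2 Cut.none Ext.none :=
  certFX2 (fam := false) (s1 := true) (s2 := true) (a := 0) (b := 2) (c := 3) (cn := .up) (n1 := ndF5q0) (n2 := ndF2q3) (pc := pcF2) (cut := Cut.none) (xt := Ext.none) (P1 := 0) (W1 := 536870912) (P2 := 1610612736) (W2 := 469762048) (P3 := 1046898278) (W3 := 26843546)
    rfl (fun _ => rfl) k0_pp_023

noncomputable def f_pp_033 : ℕ → ℕ → ℕ → ℕ → Bool := onCell 0 536870912 1610612736 536870912 1046898278 26843546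
    (rowFX 1 false true true .pnn 0 3 3 (qsf 0 536870912 1610612736 469762048 3) ndF5q0 ndF2q3 pcF3 Cut.none Ext.none)

def k0_pp_033 : ∃ t, chk3 f_pp_033 t 1 1 1 = true :=
  ⟨(a (b (a (b (a (c (a (b (l 15175120) (l 15175120)) (l 15496128)) (a (b (l 15155776) (l 15113832)) (l 15493760))) (b (l 15967568) (c (l 15976144) (l 15955336)))) (b (a (c (a (a (l 15107344) (l 15223200)) (l 15496128)) (a (a (l 15079184) (l 15240976)) (l 15493760))) (b (l 15925624) (l 4))) (b (a (a (c (l 15133176) (l 14988000)) (l 4)) (l 4)) (l 4)))) (b (c (b (l 16558392) (l 16558376)) (b (l 16552704) (l 16510744))) (l 4))) (a (l 4) (b (l 4) (l 2)))) (b (a (b (l 4) (l 4)) (b (l 4) (l 2))) (l 2))), by decide +kernel⟩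

theorem c_pp_033 : CertFX 0 536870912 1610612736 469762048 1046898278 26843546 false true true .pnn 0 3 3
    ndF5q0 ndF2q3 pcF3 Cut.none Ext.none :=
  certFX1 (fam := false) (s1 := true) (s2 := true) (a := 0) (b := 3) (c := 3) (cn := .pnn) (n1 := ndF5q0) (n2 := ndF2q3) (pc := pcF3) (cut := Cut.none) (xt := Ext.none) (P1 := 0) (W1 := 536870912) (P2 := 1610612736) (W2 := 469762048) (P3 := 1046898278) (W3 := 26843546)
    rfl (fun _ => rfl) k0_pp_033

noncomputable def f_pp_101 : ℕ → ℕ → ℕ → ℕ → Bool := onCell 536870912 469762048 536870912 536870912 1046898278 26843546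
    (rowFX 0 false true true .npn 1 0 1 (qsf 536870912 469762048 536870912 536870912 0) ndF5q1 ndF2q1 pcF0 Cut.none Ext.none)

def k0_pp_101 : ∃ t, chk3 f_pp_101 t 1 1 1 = true :=
  ⟨(l 3), by decide +kernel⟩

theorem c_pp_101 : CertFX 536870912 469762048 536870912 536870912 1046898278 26843546 false true true .npn 1 0 1
    ndF5q1 ndF2q1 pcF0 Cut.none Ext.none :=
  certFX0 (fam := false) (s1 := true) (s2 := true) (a := 1) (b := 0) (c := 1) (cn := .npn) (n1 := ndF5q1) (n2 := ndF2q1) (pc := pcF0) (cut := Cut.none) (xt := Ext.none) (P1 := 536870912) (W1 := 469762048) (P2 := 536870912) (W2 := 536870912) (P3 := 1046898278) (W3 := 26843546)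
    rfl k0_pp_101

noncomputable def f_pp_102_a : ℕ → ℕ → ℕ → ℕ → Bool := onCell 536870912 469762048 0 420477299 1046898278 26843546
    (rowFX 0 false true true .npp 1 0 2 (qsf 536870912 469762048 0 420477299 0) ndF5q1 ndF2q2a pcF0 Cut.none Ext.none)

def k0_pp_102_a : ∃ t, chk3 f_pp_102_a t 1 1 1 = true :=
  ⟨(a (a (b (l 2) (b (l 16609208) (b (l 16394016) (l 16285176)))) (b (b (l 16702392) (l 16752704)) (b (l 16609208) (b (l 16394016) (l 16285176))))) (a (b (b (l 16701864) (l 16599816)) (b (l 16447840) (b (l 16361016) (a (l 16285176) (l 16352296))))) (b (a (a (b (l 16468512) (l 16499768)) (l 15946640)) (a (b (l 15576096) (l 15613808)) (b (a (l 15196288) (l 14952816)) (b (l 15108552) (a (l 15281384) (l 15106696)))))) (b (a (a (l 16621776) (l 16260632)) (a (b (l 15572496) (a (l 15957360) (l 15777032))) (b (a (l 15420768) (l 15275032)) (l 15576200)))) (a (b (a (l 16595432) (a (l 16533968) (l 16248960))) (a (b (l 16525624) (l 16414016)) (b (l 16559648) (l 16613312)))) (b (a (l 15914968)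 (c (l 15859320) (l 15843208))) (a (a (l 16432480) (l 16287440)) (c (b (l 16059032) (l 16183080)) (b (l 16048448) (l 16176432)))))))))), by decide +kernel⟩

theorem c_pp_102_a : CertFX 536870912 469762048 0 420477299 1046898278 26843546 false true true .npp 1 0 2
    ndF5q1 ndF2q2a pcF0 Cut.none Ext.none :=
  certFX0 (fam := false) (s1 := true) (s2 := true) (a := 1) (b := 0) (c := 2) (cn := .npp) (n1 := ndF5q1) (n2 := ndF2q2a) (pc := pcF0) (cut := Cut.none) (xt := Ext.none) (P1 := 536870912) (W1 := 469762048) (P2 := 0) (W2 := 420477299) (P3 := 1046898278) (W3 := 26843546)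
    rfl k0_pp_102_a

noncomputable def f_pp_102_b : ℕ → ℕ → ℕ → ℕ → Bool := onCell 536870912 469762048 1239849684 370763052 1046898278 26843546
    (rowFX 0 false true true .npp 1 0 2 (qsf 536870912 469762048 1239849684 370763052 0) ndF5q1 ndF2q2b pcF0 Cut.none Ext.none)

def k0_pp_102_b : ∃ t, chk3 f_pp_102_b t 1 1 1 = true :=
  ⟨(a (b (b (a (l 2) (l 16753056)) (l 2)) (l 2)) (a (b (b (a (l 16753056) (l 16682168)) (l 16737208)) (l 16737208)) (a (b (b (a (l 16500664) (l 16127144)) (a (l 16515152) (l 16143272))) (l 16248248)) (b (b (a (l 15614536) (b (l 15094456) (l 15125600))) (a (l 15632304) (l 15129880))) (a (l 15632304) (l 15129880)))))), by decide +kernel⟩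

theorem c_pp_102_b : CertFX 536870912 469762048 1239849684 370763052 1046898278 26843546 false true true .npp 1 0 2
    ndF5q1 ndF2q2b pcF0 Cut.none Ext.none :=
  certFX0 (fam := false) (s1 := true) (s2 := true) (a := 1) (b := 0) (c := 2) (cn := .npp) (n1 := ndF5q1) (n2 := ndF2q2b) (pc := pcF0) (cut := Cut.none) (xt := Ext.none) (P1 := 536870912) (W1 := 469762048) (P2 := 1239849684) (W2 := 370763052) (P3 := 1046898278) (W3 := 26843546)
    rfl k0_pp_102_b

noncomputable def f_pp_112_a : ℕ → ℕ → ℕ → ℕ → Bool := onCell 536870912 469762048 0 420477299 1046898278 26843546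
    (rowFX 0 false true true .dn 1 1 2 (qsf 536870912 469762048 0 420477299 1) ndF5q1 ndF2q2a pcF1 Cut.none Ext.none)

def k0_pp_112_a : ∃ t, chk3 f_pp_112_a t 1 1 1 = true :=
  ⟨(a (b (a (b (l 16702392) (l 16752704)) (b (l 16702392) (l 16752704))) (b (a (l 16609208) (l 16609208)) (a (b (l 16394016) (l 16285176)) (l 1)))) (l 1)), by decide +kernel⟩

theorem c_pp_112_a : CertFX 536870912 469762048 0 420477299 1046898278 26843546 false true true .dn 1 1 2
    ndF5q1 ndF2q2a pcF1 Cut.none Ext.none :=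
  certFX0 (fam := false) (s1 := true) (s2 := true) (a := 1) (b := 1) (c := 2) (cn := .dn) (n1 := ndF5q1) (n2 := ndF2q2a) (pc := pcF1) (cut := Cut.none) (xt := Ext.none) (P1 := 536870912) (W1 := 469762048) (P2 := 0) (W2 := 420477299) (P3 := 1046898278) (W3 := 26843546)
    rfl k0_pp_112_a

noncomputable def f_pp_112_b : ℕ → ℕ → ℕ → ℕ → Bool := onCell 536870912 469762048 1239849684 370763052 1046898278 26843546
    (rowFX 0 false true true .dn 1 1 2 (qsf 536870912 469762048 1239849684 370763052 1) ndF5q1 ndF2q2b pcF1 Cut.none Ext.none)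

def k0_pp_112_b : ∃ t, chk3 f_pp_112_b t 1 1 1 = true :=
  ⟨(b (a (a (b (l 16753056) (l 16775328)) (b (l 16753056) (l 16777216))) (a (b (l 314102538551) (l 16737208)) (l 1))) (a (b (a (b (l 16767536) (l 16749136)) (l 16776744)) (a (a (b (l 16506832) (l 16095128)) (l 16605752)) (l 16768888))) (a (l 16737208) (a (l 16206304) (l 453686182535))))), by decide +kernel⟩

theorem c_pp_112_b : CertFX 536870912 469762048 1239849684 370763052 1046898278 26843546 false true true .dn 1 1 2
    ndF5q1 ndF2q2b pcF1 Cut.none Ext.none :=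
  certFX0 (fam := false) (s1 := true) (s2 := true) (a := 1) (b := 1) (c := 2) (cn := .dn) (n1 := ndF5q1) (n2 := ndF2q2b) (pc := pcF1) (cut := Cut.none) (xt := Ext.none) (P1 := 536870912) (W1 := 469762048) (P2 := 1239849684) (W2 := 370763052) (P3 := 1046898278) (W3 := 26843546)
    rfl k0_pp_112_b

noncomputable def f_pp_113 : ℕ → ℕ → ℕ → ℕ → Bool := onCell 536870912 469762048 536870912 536870912 1046898278 26843546
    (rowFX 1 false true true .nn 1 1 3 (qsf 536870912 469762048 1610612736 469762048 1) ndF5q1 ndF2q3 pcF1 Cut.none Ext.none)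

def k0_pp_113 : ∃ t, chk3 f_pp_113 t 1 1 1 = true :=
  ⟨(b (a (l 1) (a (b (l 1) (l 16737208)) (a (l 478384227431) (b (l 15382600) (l 15382600))))) (a (b (b (l 16774296) (l 653942680087)) (b (l 590590295399) (a (b (l 16040424) (l 15670080)) (l 15560592)))) (b (a (l 16730584) (a (l 16320448) (l 15367520))) (a (b (l 16127992) (l 15208936)) (b (a (l 15642008) (l 14677368)) (a (l 14618368) (b (l 13936472) (l 13374240)))))))), by decide +kernel⟩

theorem c_pp_113 : CertFX 536870912 469762048 1610612736 469762048 1046898278 26843546 false true true .nn 1 1 3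
    ndF5q1 ndF2q3 pcF1 Cut.none Ext.none :=
  certFX1 (fam := false) (s1 := true) (s2 := true) (a := 1) (b := 1) (c := 3) (cn := .nn) (n1 := ndF5q1) (n2 := ndF2q3) (pc := pcF1) (cut := Cut.none) (xt := Ext.none) (P1 := 536870912) (W1 := 469762048) (P2 := 1610612736) (W2 := 469762048) (P3 := 1046898278) (W3 := 26843546)
    rfl (fun _ => rfl) k0_pp_113

end Pool.Agent.Strip051.G.IE1.Tab.C.FB52

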