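import Pool.Agent.Strip051.G.IE1.Tab

/-! # Certificates F52 (generated) -/

set_option linter.all false
set_option maxRecDepth 100000

namespace Pool.Agent.Strip051.G.IE1.Tab.C.FB52

open Pool.Agent.Strip051.PB Pool.Agent.Strip051.PB.T
open Pool.Agent.Strip051.G.IE1.Tab

noncomputable def f_pp_123 : ℕ → ℕ → ℕ → ℕ → Bool := onCell 1073741824 536870912 1610612736 469762048 1046898278 26843546
    (rowFX 2 false true true .npn 1 2 3 (qsf 536870912 469762048 1610612736 469762048 2) ndF5q1 ndF2q3 pcF2 Cut.none Ext.none)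

def k0_pp_123 : ∃ t, chk3 f_pp_123 t 1 1 1 = true :=
  ⟨(b (a (b (a (a (l 15047632) (l 15207416)) (l 1)) (a (a (l 14802952) (l 15049176)) (a (l 15265792) (l 16227144)))) (l 1)) (a (a (b (a (l 14541632) (l 14892104)) (a (b (l 14238136) (a (l 13601416) (l 14256184))) (a (l 14618256) (l 14878328)))) (a (b (l 15412304) (a (l 15207768) (l 15561064))) (a (l 15847640) (l 15982032)))) (a (a (b (l 16499248) (l 16480088)) (l 765612019911)) (b (l 1) (l 4))))), by decide +kernel⟩

theorem c_pp_123 : CertFX 536870912 469762048 1610612736 469762048 1046898278 26843546 false true true .npn 1 2 3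
    ndF5q1 ndF2q3 pcF2 Cut.none Ext.none :=
  certFX2 (fam := false) (s1 := true) (s2 := true) (a := 1) (b := 2) (c := 3) (cn := .npn) (n1 := ndF5q1) (n2 := ndF2q3) (pc := pcF2) (cut := Cut.none) (xt := Ext.none) (P1 := 536870912) (W1 := 469762048) (P2 := 1610612736) (W2 := 469762048) (P3 := 1046898278) (W3 := 26843546)
    rfl (fun _ => rfl) k0_pp_123

noncomputable def f_pp_133 : ℕ → ℕ → ℕ → ℕ → Bool := onCell 536870912 469762048 1610612736 469762048 1046898278 26843546
    (rowFX 0 false true true .dn 1 3 3 (qsf 536870912 469762048 1610612736 469762048 3) ndF5q1 ndF2q3 pcF3 Cut.none Ext.none)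

def k0_pp_133 : ∃ t, chk3 f_pp_133 t 1 1 1 = true :=
  ⟨(l 1), by decide +kernel⟩

theorem c_pp_133 : CertFX 536870912 469762048 1610612736 469762048 1046898278 26843546 false true true .dn 1 3 3
    ndF5q1 ndF2q3 pcF3 Cut.none Ext.none :=
  certFX0 (fam := false) (s1 := true) (s2 := true) (a := 1) (b := 3) (c := 3) (cn := .dn) (n1 := ndF5q1) (n2 := ndF2q3) (pc := pcF3) (cut := Cut.none) (xt := Ext.none) (P1 := 536870912) (W1 := 469762048) (P2 := 1610612736) (W2 := 469762048) (P3 := 1046898278) (W3 := 26843546)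
    rfl k0_pp_133

noncomputable def f_pp_202_a : ℕ → ℕ → ℕ → ℕ → Bool := onCell 1073741824 536870912 0 420477299 1046898278 26843546
    (rowFX 0 false true true .pp 2 0 2 (qsf 1073741824 536870912 0 420477299 0) ndF5q2 ndF2q2a pcF0 Cut.none Ext.none)

def k0_pp_202_a : ∃ t, chk3 f_pp_202_a t 1 1 1 = true :=
  ⟨(l 3), by decide +kernel⟩

theorem c_pp_202_a : CertFX 1073741824 536870912 0 420477299 1046898278 26843546 false true true .pp 2 0 2
    ndF5q2 ndF2q2a pcF0 Cut.none Ext.none :=
  certFX0 (fam := false) (s1 := true) (s2 := true) (a := 2) (b := 0) (c := 2) (cn := .pp) (n1 := ndF5q2) (n2 := ndF2q2a) (pc := pcF0) (cut := Cut.none) (xt := Ext.none) (P1 := 1073741824) (W1 := 536870912) (P2 := 0) (W2 := 420477299) (P3 := 1046898278) (W3 := 26843546)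
    rfl k0_pp_202_a

noncomputable def f_pp_202_b : ℕ → ℕ → ℕ → ℕ → Bool := onCell 1073741824 536870912 1239849684 370763052 1046898278 26843546
    (rowFX 0 false true true .pp 2 0 2 (qsf 1073741824 536870912 1239849684 370763052 0) ndF5q2 ndF2q2b pcF0 Cut.none Ext.none)

def k0_pp_202_b : ∃ t, chk3 f_pp_202_b t 1 1 1 = true :=
  ⟨(l 3), by decide +kernel⟩

theorem c_pp_202_b : CertFX 1073741824 536870912 1239849684 370763052 1046898278 26843546 false true true .pp 2 0 2
    ndF5q2 ndF2q2b pcF0 Cut.none Ext.none :=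
  certFX0 (fam := false) (s1 := true) (s2 := true) (a := 2) (b := 0) (c := 2) (cn := .pp) (n1 := ndF5q2) (n2 := ndF2q2b) (pc := pcF0) (cut := Cut.none) (xt := Ext.none) (P1 := 1073741824) (W1 := 536870912) (P2 := 1239849684) (W2 := 370763052) (P3 := 1046898278) (W3 := 26843546)
    rfl k0_pp_202_b

noncomputable def f_pp_203 : ℕ → ℕ → ℕ → ℕ → Bool := onCell 1073741824 536870912 0 536870912 1046898278 26843546
    (rowFX 1 false true true .up 2 0 3 (qsf 1073741824 536870912 1610612736 469762048 0) ndF5q2 ndF2q3 pcF0 Cut.none Ext.none)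

def k0_pp_203 : ∃ t, chk3 f_pp_203 t 1 1 1 = true :=
  ⟨(l 3), by decide +kernel⟩

theorem c_pp_203 : CertFX 1073741824 536870912 1610612736 469762048 1046898278 26843546 false true true .up 2 0 3
    ndF5q2 ndF2q3 pcF0 Cut.none Ext.none :=
  certFX1 (fam := false) (s1 := true) (s2 := true) (a := 2) (b := 0) (c := 3) (cn := .up) (n1 := ndF5q2) (n2 := ndF2q3) (pc := pcF0) (cut := Cut.none) (xt := Ext.none) (P1 := 1073741824) (W1 := 536870912) (P2 := 1610612736) (W2 := 469762048) (P3 := 1046898278) (W3 := 26843546)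
    rfl (fun _ => rfl) k0_pp_203

noncomputable def f_pp_213 : ℕ → ℕ → ℕ → ℕ → Bool := onCell 1073741824 536870912 1610612736 469762048 1046898278 26843546
    (rowFX 0 false true true .pnn 2 1 3 (qsf 1073741824 536870912 1610612736 469762048 1) ndF5q2 ndF2q3 pcF1 Cut.none Ext.none)

def k0_pp_213 : ∃ t, chk3 f_pp_213 t 1 1 1 = true :=
  ⟨(a (b (l 3) (a (b (l 3) (a (b (l 3) (a (b (l 3) (a (l 190755154087) (l 3))) (l 3))) (l 3))) (l 3))) (l 3)), by decide +kernel⟩

theorem c_pp_213 : CertFX 1073741824 536870912 1610612736 469762048 1046898278 26843546 false true true .pnn 2 1 3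
    ndF5q2 ndF2q3 pcF1 Cut.none Ext.none :=
  certFX0 (fam := false) (s1 := true) (s2 := true) (a := 2) (b := 1) (c := 3) (cn := .pnn) (n1 := ndF5q2) (n2 := ndF2q3) (pc := pcF1) (cut := Cut.none) (xt := Ext.none) (P1 := 1073741824) (W1 := 536870912) (P2 := 1610612736) (W2 := 469762048) (P3 := 1046898278) (W3 := 26843546)
    rfl k0_pp_213

noncomputable def f_pp_303 : ℕ → ℕ → ℕ → ℕ → Bool := onCell 0 1230186008 1610612736 469762048 1046898278 26843546
    (rowFX 0 false true true .npn 3 0 3 (qsf 0 1230186008 1610612736 469762048 0) ndF5q3 ndF2q3 pcF0 Cut.none Ext.none)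

def k0_pp_303 : ∃ t, chk3 f_pp_303 t 1 1 1 = true :=
  ⟨(a (l 3) (l 3)), by decide +kernel⟩

theorem c_pp_303 : CertFX 0 1230186008 1610612736 469762048 1046898278 26843546 false true true .npn 3 0 3
    ndF5q3 ndF2q3 pcF0 Cut.none Ext.none :=
  certFX0 (fam := false) (s1 := true) (s2 := true) (a := 3) (b := 0) (c := 3) (cn := .npn) (n1 := ndF5q3) (n2 := ndF2q3) (pc := pcF0) (cut := Cut.none) (xt := Ext.none) (P1 := 0) (W1 := 1230186008) (P2 := 1610612736) (W2 := 469762048) (P3 := 1046898278) (W3 := 26843546)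
    rfl k0_pp_303

noncomputable def f_pp_313 : ℕ → ℕ → ℕ → ℕ → Bool := onCell 0 1230186008 1610612736 469762048 1046898278 26843546
    (rowFX 0 false true true .dn 3 1 3 (qsf 0 1230186008 1610612736 469762048 1) ndF5q3 ndF2q3 pcF1 Cut.none Ext.none)

def k0_pp_313 : ∃ t, chk3 f_pp_313 t 1 1 1 = true :=
  ⟨(l 1), by decide +kernel⟩

theorem c_pp_313 : CertFX 0 1230186008 1610612736 469762048 1046898278 26843546 false true true .dn 3 1 3
    ndF5q3 ndF2q3 pcF1 Cut.none Ext.none :=
  certFX0 (fam := false) (s1 := true) (s2 := true) (a := 3) (b := 1) (c := 3) (cn := .dn) (n1 := ndF5q3) (n2 := ndF2q3) (pc := pcF1) (cut := Cut.none) (xt := Ext.none) (P1 := 0) (W1 := 1230186008) (P2 := 1610612736) (W2 := 469762048) (P3 := 1046898278) (W3 := 26843546)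
    rfl k0_pp_313

noncomputable def f_pm_001 : ℕ → ℕ → ℕ → ℕ → Bool := onCell 0 536870912 536870912 536870912 1046898278 26843546
    (rowFX 0 false true false .up 0 0 1 (qsf 0 536870912 536870912 536870912 0) ndF5q0 ndF2q1 pcF0 Cut.none Ext.none)

def k0_pm_001 : ∃ t, chk3 f_pm_001 t 1 1 1 = true :=
  ⟨(l 4), by decide +kernel⟩

theorem c_pm_001 : CertFX 0 536870912 536870912 536870912 1046898278 26843546 false true false .up 0 0 1
    ndF5q0 ndF2q1 pcF0 Cut.none Ext.none :=
  certFX0 (fam := false) (s1 := true) (s2 := false) (a := 0) (b := 0) (c := 1) (cn := .up) (n1 := ndF5q0) (n2 := ndF2q1) (pc := pcF0) (cut := Cut.none) (xt := Ext.none) (P1 := 0) (W1 := 536870912) (P2 := 536870912) (W2 := 536870912) (P3 := 1046898278) (W3 := 26843546)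
    rfl k0_pm_001

noncomputable def f_pm_011 : ℕ → ℕ → ℕ → ℕ → Bool := onCell 0 536870912 536870912 536870912 1046898278 26843546
    (rowFX 0 false true false .pnn 0 1 1 (qsf 0 536870912 536870912 536870912 1) ndF5q0 ndF2q1 pcF1 Cut.none Ext.none)

def k0_pm_011 : ∃ t, chk3 f_pm_011 t 1 1 1 = true :=
  ⟨(l 4), by decide +kernel⟩

theorem c_pm_011 : CertFX 0 536870912 536870912 536870912 1046898278 26843546 false true false .pnn 0 1 1
    ndF5q0 ndF2q1 pcF1 Cut.none Ext.none :=
  certFX0 (fam := false) (s1 := true) (s2 := false) (a := 0) (b := 1) (c := 1) (cn := .pnn) (n1 := ndF5q0) (n2 := ndF2q1) (pc := pcF1) (cut := Cut.none) (xt := Ext.none) (P1 := 0) (W1 := 536870912) (P2 := 536870912) (W2 := 536870912) (P3 := 1046898278) (W3 := 26843546)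
    rfl k0_pm_011

noncomputable def f_pm_012_a : ℕ → ℕ → ℕ → ℕ → Bool := onCell 536870912 536870912 0 420477299 1046898278 26843546
    (rowFX 2 false true false .pnp 0 1 2 (qsf 0 536870912 0 420477299 1) ndF5q0 ndF2q2a pcF1 Cut.none Ext.none)

def k0_pm_012_a : ∃ t, chk3 f_pm_012_a t 1 1 1 = true :=
  ⟨(a (l 4) (l 4)), by decide +kernel⟩

theorem c_pm_012_a : CertFX 0 536870912 0 420477299 1046898278 26843546 false true false .pnp 0 1 2
    ndF5q0 ndF2q2a pcF1 Cut.none Ext.none :=
  certFX2 (fam := false) (s1 := true) (s2 := false) (a := 0) (b := 1) (c := 2) (cn := .pnp) (n1 := ndF5q0) (n2 := ndF2q2a) (pc := pcF1) (cut := Cut.none) (xt := Ext.none) (P1 := 0) (W1 := 536870912) (P2 := 0) (W2 := 420477299) (P3 := 1046898278) (W3 := 26843546)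
    rfl (fun _ => rfl) k0_pm_012_a

noncomputable def f_pm_012_b : ℕ → ℕ → ℕ → ℕ → Bool := onCell 536870912 536870912 1239849684 370763052 1046898278 26843546
    (rowFX 2 false true false .pnp 0 1 2 (qsf 0 536870912 1239849684 370763052 1) ndF5q0 ndF2q2b pcF1 Cut.none Ext.none)

def k0_pm_012_b : ∃ t, chk3 f_pm_012_b t 1 1 1 = true :=
  ⟨(a (l 4) (l 4)), by decide +kernel⟩

theorem c_pm_012_b : CertFX 0 536870912 1239849684 370763052 1046898278 26843546 false true false .pnp 0 1 2
    ndF5q0 ndF2q2b pcF1 Cut.none Ext.none :=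
  certFX2 (fam := false) (s1 := true) (s2 := false) (a := 0) (b := 1) (c := 2) (cn := .pnp) (n1 := ndF5q0) (n2 := ndF2q2b) (pc := pcF1) (cut := Cut.none) (xt := Ext.none) (P1 := 0) (W1 := 536870912) (P2 := 1239849684) (W2 := 370763052) (P3 := 1046898278) (W3 := 26843546)
    rfl (fun _ => rfl) k0_pm_012_b

noncomputable def f_pm_022_a : ℕ → ℕ → ℕ → ℕ → Bool := onCell 0 536870912 0 420477299 1046898278 26843546
    (rowFX 0 false true false .pp 0 2 2 (qsf 0 536870912 0 420477299 2) ndF5q0 ndF2q2a pcF2 Cut.none Ext.none)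

def k0_pm_022_a : ∃ t, chk3 f_pm_022_a t 1 1 1 = true :=
  ⟨(a (b (a (a (a (b (b (a (a (c (l 16428136) (c (l 16418728) (l 16391328))) (b (c (l 16288280) (l 16306304)) (l 4))) (c (l 16107128) (l 16095720))) (l 4)) (l 4)) (l 4)) (l 4)) (l 4)) (l 4)) (l 1)), by decide +kernel⟩

theorem c_pm_022_a : CertFX 0 536870912 0 420477299 1046898278 26843546 false true false .pp 0 2 2
    ndF5q0 ndF2q2a pcF2 Cut.none Ext.none :=
  certFX0 (fam := false) (s1 := true) (s2 := false) (a := 0) (b := 2) (c := 2) (cn := .pp) (n1 := ndF5q0) (n2 := ndF2q2a) (pc := pcF2) (cut := Cut.none) (xt := Ext.none) (P1 := 0) (W1 := 536870912) (P2 := 0) (W2 := 420477299) (P3 := 1046898278) (W3 := 26843546)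
    rfl k0_pm_022_a

noncomputable def f_pm_022_b : ℕ → ℕ → ℕ → ℕ → Bool := onCell 0 536870912 1239849684 370763052 1046898278 26843546
    (rowFX 0 false true false .pp 0 2 2 (qsf 0 536870912 1239849684 370763052 2) ndF5q0 ndF2q2b pcF2 Cut.none Ext.none)

def k0_pm_022_b : ∃ t, chk3 f_pm_022_b t 1 1 1 = true :=
  ⟨(a (b (a (b (a (a (b (b (a (a (c (l 16373672) (c (l 16278792) (a (l 16313912) (l 16482920)))) (b (c (l 16131448) (l 16298032)) (l 4))) (a (b (l 4) (l 4)) (l 4))) (l 4)) (l 4)) (l 4)) (l 4)) (l 4)) (l 4)) (l 4)) (l 4)), by decide +kernel⟩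

theorem c_pm_022_b : CertFX 0 536870912 1239849684 370763052 1046898278 26843546 false true false .pp 0 2 2
    ndF5q0 ndF2q2b pcF2 Cut.none Ext.none :=
  certFX0 (fam := false) (s1 := true) (s2 := false) (a := 0) (b := 2) (c := 2) (cn := .pp) (n1 := ndF5q0) (n2 := ndF2q2b) (pc := pcF2) (cut := Cut.none) (xt := Ext.none) (P1 := 0) (W1 := 536870912) (P2 := 1239849684) (W2 := 370763052) (P3 := 1046898278) (W3 := 26843546)
    rfl k0_pm_022_b

noncomputable def f_pm_023 : ℕ → ℕ → ℕ → ℕ → Bool := onCell 0 536870912 1610612736 469762048 1046898278 26843546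
    (rowFX 0 false true false .up 0 2 3 (qsf 0 536870912 1610612736 469762048 2) ndF5q0 ndF2q3 pcF2 Cut.none Ext.none)

def k0_pm_023 : ∃ t, chk3 f_pm_023 t 1 1 1 = true :=
  ⟨(l 4), by decide +kernel⟩

theorem c_pm_023 : CertFX 0 536870912 1610612736 469762048 1046898278 26843546 false true false .up 0 2 3
    ndF5q0 ndF2q3 pcF2 Cut.none Ext.none :=
  certFX0 (fam := false) (s1 := true) (s2 := false) (a := 0) (b := 2) (c := 3) (cn := .up) (n1 := ndF5q0) (n2 := ndF2q3) (pc := pcF2) (cut := Cut.none) (xt := Ext.none) (P1 := 0) (W1 := 536870912) (P2 := 1610612736) (W2 := 469762048) (P3 := 1046898278) (W3 := 26843546)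
    rfl k0_pm_023

noncomputable def f_pm_033 : ℕ → ℕ → ℕ → ℕ → Bool := onCell 0 536870912 1610612736 469762048 1046898278 26843546
    (rowFX 0 false true false .pnn 0 3 3 (qsf 0 536870912 1610612736 469762048 3) ndF5q0 ndF2q3 pcF3 Cut.none Ext.none)

def k0_pm_033 : ∃ t, chk3 f_pm_033 t 1 1 1 = true :=
  ⟨(l 4), by decide +kernel⟩

theorem c_pm_033 : CertFX 0 536870912 1610612736 469762048 1046898278 26843546 false true false .pnn 0 3 3
    ndF5q0 ndF2q3 pcF3 Cut.none Ext.none :=
  certFX0 (fam := false) (s1 := true) (s2 := false) (a := 0) (b := 3) (c := 3) (cn := .pnn) (n1 := ndF5q0) (n2 := ndF2q3) (pc := pcF3) (cut := Cut.none) (xt := Ext.none) (P1 := 0) (W1 := 536870912) (P2 := 1610612736) (W2 := 469762048) (P3 := 1046898278) (W3 := 26843546)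
    rfl k0_pm_033

noncomputable def f_pm_101 : ℕ → ℕ → ℕ → ℕ → Bool := onCell 536870912 469762048 536870912 536870912 1046898278 26843546
    (rowFX 0 false true false .npn 1 0 1 (qsf 536870912 469762048 536870912 536870912 0) ndF5q1 ndF2q1 pcF0 Cut.none Ext.none)

def k0_pm_101 : ∃ t, chk3 f_pm_101 t 1 1 1 = true :=
  ⟨(l 4), by decide +kernel⟩

theorem c_pm_101 : CertFX 536870912 469762048 536870912 536870912 1046898278 26843546 false true false .npn 1 0 1
    ndF5q1 ndF2q1 pcF0 Cut.none Ext.none :=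
  certFX0 (fam := false) (s1 := true) (s2 := false) (a := 1) (b := 0) (c := 1) (cn := .npn) (n1 := ndF5q1) (n2 := ndF2q1) (pc := pcF0) (cut := Cut.none) (xt := Ext.none) (P1 := 536870912) (W1 := 469762048) (P2 := 536870912) (W2 := 536870912) (P3 := 1046898278) (W3 := 26843546)
    rfl k0_pm_101

noncomputable def f_pm_102_a : ℕ → ℕ → ℕ → ℕ → Bool := onCell 536870912 469762048 0 420477299 1046898278 26843546
    (rowFX 0 false true false .npp 1 0 2 (qsf 536870912 469762048 0 420477299 0) ndF5q1 ndF2q2a pcF0 Cut.none Ext.none)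

def k0_pm_102_a : ∃ t, chk3 f_pm_102_a t 1 1 1 = true :=
  ⟨(l 4), by decide +kernel⟩

theorem c_pm_102_a : CertFX 536870912 469762048 0 420477299 1046898278 26843546 false true false .npp 1 0 2
    ndF5q1 ndF2q2a pcF0 Cut.none Ext.none :=
  certFX0 (fam := false) (s1 := true) (s2 := false) (a := 1) (b := 0) (c := 2) (cn := .npp) (n1 := ndF5q1) (n2 := ndF2q2a) (pc := pcF0) (cut := Cut.none) (xt := Ext.none) (P1 := 536870912) (W1 := 469762048) (P2 := 0) (W2 := 420477299) (P3 := 1046898278) (W3 := 26843546)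
    rfl k0_pm_102_a

noncomputable def f_pm_102_b : ℕ → ℕ → ℕ → ℕ → Bool := onCell 536870912 469762048 1239849684 370763052 1046898278 26843546
    (rowFX 0 false true false .npp 1 0 2 (qsf 536870912 469762048 1239849684 370763052 0) ndF5q1 ndF2q2b pcF0 Cut.none Ext.none)

def k0_pm_102_b : ∃ t, chk3 f_pm_102_b t 1 1 1 = true :=
  ⟨(l 4), by decide +kernel⟩

theorem c_pm_102_b : CertFX 536870912 469762048 1239849684 370763052 1046898278 26843546 false true false .npp 1 0 2
    ndF5q1 ndF2q2b pcF0 Cut.none Ext.none :=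
  certFX0 (fam := false) (s1 := true) (s2 := false) (a := 1) (b := 0) (c := 2) (cn := .npp) (n1 := ndF5q1) (n2 := ndF2q2b) (pc := pcF0) (cut := Cut.none) (xt := Ext.none) (P1 := 536870912) (W1 := 469762048) (P2 := 1239849684) (W2 := 370763052) (P3 := 1046898278) (W3 := 26843546)
    rfl k0_pm_102_b

noncomputable def f_pm_112_a : ℕ → ℕ → ℕ → ℕ → Bool := onCell 536870912 469762048 0 420477299 1046898278 26843546
    (rowFX 0 false true false .dn 1 1 2 (qsf 536870912 469762048 0 420477299 1) ndF5q1 ndF2q2a pcF1 Cut.none Ext.none)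

def k0_pm_112_a : ∃ t, chk3 f_pm_112_a t 1 1 1 = true :=
  ⟨(l 4), by decide +kernel⟩

theorem c_pm_112_a : CertFX 536870912 469762048 0 420477299 1046898278 26843546 false true false .dn 1 1 2
    ndF5q1 ndF2q2a pcF1 Cut.none Ext.none :=
  certFX0 (fam := false) (s1 := true) (s2 := false) (a := 1) (b := 1) (c := 2) (cn := .dn) (n1 := ndF5q1) (n2 := ndF2q2a) (pc := pcF1) (cut := Cut.none) (xt := Ext.none) (P1 := 536870912) (W1 := 469762048) (P2 := 0) (W2 := 420477299) (P3 := 1046898278) (W3 := 26843546)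
    rfl k0_pm_112_a

noncomputable def f_pm_112_b : ℕ → ℕ → ℕ → ℕ → Bool := onCell 536870912 469762048 1239849684 370763052 1046898278 26843546
    (rowFX 0 false true false .dn 1 1 2 (qsf 536870912 469762048 1239849684 370763052 1) ndF5q1 ndF2q2b pcF1 Cut.none Ext.none)

def k0_pm_112_b : ∃ t, chk3 f_pm_112_b t 1 1 1 = true :=
  ⟨(l 4), by decide +kernel⟩

theorem c_pm_112_b : CertFX 536870912 469762048 1239849684 370763052 1046898278 26843546 false true false .dn 1 1 2
    ndF5q1 ndF2q2b pcF1 Cut.none Ext.none :=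
  certFX0 (fam := false) (s1 := true) (s2 := false) (a := 1) (b := 1) (c := 2) (cn := .dn) (n1 := ndF5q1) (n2 := ndF2q2b) (pc := pcF1) (cut := Cut.none) (xt := Ext.none) (P1 := 536870912) (W1 := 469762048) (P2 := 1239849684) (W2 := 370763052) (P3 := 1046898278) (W3 := 26843546)
    rfl k0_pm_112_b

noncomputable def f_pm_113 : ℕ → ℕ → ℕ → ℕ → Bool := onCell 536870912 469762048 1610612736 469762048 1046898278 26843546
    (rowFX 0 false true false .nn 1 1 3 (qsf 536870912 469762048 1610612736 469762048 1) ndF5q1 ndF2q3 pcF1 Cut.none Ext.none)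

def k0_pm_113 : ∃ t, chk3 f_pm_113 t 1 1 1 = true :=
  ⟨(l 4), by decide +kernel⟩

theorem c_pm_113 : CertFX 536870912 469762048 1610612736 469762048 1046898278 26843546 false true false .nn 1 1 3
    ndF5q1 ndF2q3 pcF1 Cut.none Ext.none :=
  certFX0 (fam := false) (s1 := true) (s2 := false) (a := 1) (b := 1) (c := 3) (cn := .nn) (n1 := ndF5q1) (n2 := ndF2q3) (pc := pcF1) (cut := Cut.none) (xt := Ext.none) (P1 := 536870912) (W1 := 469762048) (P2 := 1610612736) (W2 := 469762048) (P3 := 1046898278) (W3 := 26843546)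
    rfl k0_pm_113

noncomputable def f_pm_123 : ℕ → ℕ → ℕ → ℕ → Bool := onCell 536870912 469762048 1610612736 469762048 1046898278 26843546
    (rowFX 0 false true false .npn 1 2 3 (qsf 536870912 469762048 1610612736 469762048 2) ndF5q1 ndF2q3 pcF2 Cut.none Ext.none)

def k0_pm_123 : ∃ t, chk3 f_pm_123 t 1 1 1 = true :=
  ⟨(l 4), by decide +kernel⟩

theorem c_pm_123 : CertFX 536870912 469762048 1610612736 469762048 1046898278 26843546 false true false .npn 1 2 3
    ndF5q1 ndF2q3 pcF2 Cut.none Ext.none :=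
  certFX0 (fam := false) (s1 := true) (s2 := false) (a := 1) (b := 2) (c := 3) (cn := .npn) (n1 := ndF5q1) (n2 := ndF2q3) (pc := pcF2) (cut := Cut.none) (xt := Ext.none) (P1 := 536870912) (W1 := 469762048) (P2 := 1610612736) (W2 := 469762048) (P3 := 1046898278) (W3 := 26843546)
    rfl k0_pm_123

noncomputable def f_pm_133 : ℕ → ℕ → ℕ → ℕ → Bool := onCell 536870912 469762048 1610612736 469762048 1046898278 26843546
    (rowFX 0 false true false .dn 1 3 3 (qsf 536870912 469762048 1610612736 469762048 3) ndF5q1 ndF2q3 pcF3 Cut.none Ext.none)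

def k0_pm_133 : ∃ t, chk3 f_pm_133 t 1 1 1 = true :=
  ⟨(l 1), by decide +kernel⟩

theorem c_pm_133 : CertFX 536870912 469762048 1610612736 469762048 1046898278 26843546 false true false .dn 1 3 3
    ndF5q1 ndF2q3 pcF3 Cut.none Ext.none :=
  certFX0 (fam := false) (s1 := true) (s2 := false) (a := 1) (b := 3) (c := 3) (cn := .dn) (n1 := ndF5q1) (n2 := ndF2q3) (pc := pcF3) (cut := Cut.none) (xt := Ext.none) (P1 := 536870912) (W1 := 469762048) (P2 := 1610612736) (W2 := 469762048) (P3 := 1046898278) (W3 := 26843546)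
    rfl k0_pm_133

noncomputable def f_pm_202_a : ℕ → ℕ → ℕ → ℕ → Bool := onCell 0 536870912 0 420477299 1046898278 26843546
    (rowFX 2 false true false .pp 2 0 2 (qsf 1073741824 536870912 0 420477299 0) ndF5q2 ndF2q2a pcF0 Cut.none Ext.none)

def k0_pm_202_a : ∃ t, chk3 f_pm_202_a t 8 2 1 = true :=
  ⟨(b (l 3) (b (l 3) (a (a (b (l 3) (c (a (a (l 16260952) (c (l 16301256) (l 16297448))) (a (c (l 16339064) (l 16331776)) (l 16324792))) (a (c (a (c (l 16255936) (l 16191352)) (b (l 16283272) (c (l 16301192) (a (l 16288384) (l 16300088))))) (a (c (a (l 16242912) (a (l 16255904) (l 16264496))) (a (c (l 16241088) (l 16237960)) (l 16252952))) (c (l 16280128) (l 16271432)))) (c (a (l 16318520) (l 16344520)) (c (l 16293504) (l 16309832)))))) (c (c (a (b (l 16368264) (l 16390552)) (b (l 16449048) (l 16476720))) (a (a (l 16353608) (l 16357936)) (c (l 200419833703) (l 214378477607)))) (c (a (c (l 16327904) (l 16273248)) (c (l 219210290407) (l 16405536))) (l 16313504)))) (c (a (c (a (b (l 16479864)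 (l 16499184)) (a (a (l 146195929591) (l 16485192)) (l 145659018183))) (c (a (l 150490783207) (b (l 163912659559) (b (l 16527336) (l 16533088)))) (a (b (l 16441112) (l 16490784)) (l 16431888)))) (c (c (a (b (l 16464056) (l 16477000)) (b (l 160154477911) (a (l 16446240) (l 16461744)))) (a (b (l 16484448) (a (l 16501688) (l 16494944))) (l 16476896))) (b (l 16468680) (l 16489144)))) (a (c (b (l 16482208) (l 16510976)) (l 16361576)) (b (l 16466944) (l 16487304))))))), by decide +kernel⟩

def k1_pm_202_a : ∃ t, chk3 f_pm_202_a t 32 3 2 = true :=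
  ⟨(b (a (b (c (b (l 16305208) (l 16318360)) (a (l 16219048) (b (l 16235080) (c (l 16321440) (a (l 16303360) (l 16318816)))))) (a (b (l 16245552) (l 16310672)) (c (b (l 16339840) (l 16359032)) (b (c (l 16328416) (b (a (l 16312840) (l 16322752)) (l 16323120))) (l 16338760))))) (b (c (b (a (l 16327168) (l 16382768)) (a (l 16353296) (l 16422360))) (a (b (c (l 16362632) (l 16356304)) (c (l 16365856) (l 16364216))) (b (l 16365440) (l 16410656)))) (c (a (b (c (l 16372984) (l 16341864)) (c (l 16328320) (a (l 16358352) (l 16292480)))) (b (l 16402392) (c (l 16355520) (l 16432720)))) (a (c (b (a (l 16302872) (l 16377768)) (a (c (l 16352848) (l 16355456)) (l 16393504))) (b (c (l 16371232) (l 16381320)) (l 16390648))) (c (b (l 16430376) (l 16454096)) (a (l 16443568) (l 16465048))))))) (a (b (c (l 16411592) (a (l 16388696) (l 16252544))) (c (l 16573104) (a (l 16550560) (l 16374664)))) (a (b (c (c (c (l 16388408) (l 16424064)) (l 16258480)) (a (l 16320520) (l 16463656))) (c (b (l 16462232) (l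 16513640)) (l 16381760))) (b (c (b (c (a (l 16293576) (l 16439176)) (l 16408048)) (l 16518288)) (l 16352616)) (c (l 16525544) (l 16504512)))))), by decide +kernel⟩

def k2_pm_202_a : ∃ t, chk3 f_pm_202_a t 32 3 3 = true :=
  ⟨(b (a (c (c (b (a (l 16279560) (a (c (l 16205096) (l 16164744)) (b (b (l 16321176) (l 16321400)) (l 16200872)))) (l 16195632)) (a (b (l 16192088) (l 16299472)) (b (a (c (l 16210720) (l 16300896)) (l 16247600)) (l 16338688)))) (c (a (b (c (l 16211344) (l 16146944)) (l 16275640)) (b (l 16292776) (l 16338720))) (a (a (b (l 16256096) (l 16240520)) (l 16188592)) (l 16258912)))) (c (b (a (c (b (a (l 16338872) (l 16356600)) (l 16281112)) (l 16358224)) (l 16321672)) (c (a (b (l 16394464) (l 16405728)) (l 16441984)) (l 16405952))) (b (c (l 16314784) (l 16351504)) (l 16379768)))) (a (c (b (a (l 16370000) (c (l 16315560) (a (l 16391200) (l 16428160)))) (a (l 16533296) (a (l 16428904) (l 16391288)))) (b (a (c (a (l 16352704) (l 16328144)) (a (c (l 16348944) (l 16283616))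 (l 16369360))) (c (l 16386136) (l 16394080))) (a (a (c (l 16516504) (a (l 16442056) (l 16451800))) (c (l 16472288) (l 16535328))) (c (l 16574336) (l 16561992))))) (c (b (b (l 16420136) (l 16450192)) (a (l 16462992) (l 16628704))) (b (l 16409592) (l 16622992))))), by decide +kernel⟩

def k3_pm_202_a : ∃ t, chk3 f_pm_202_a t 33 3 1 = true :=
  ⟨(c (b (b (b (c (a (l 16439880) (l 16461976)) (a (l 16420784) (l 16398040))) (a (c (l 16401352) (a (l 16434736) (l 16452256))) (c (l 16434912) (l 16431776)))) (a (b (c (a (l 16475152) (l 16507768)) (l 16451392)) (c (a (c (l 16493856) (l 16505320)) (l 16546896)) (l 16447464))) (c (l 16522616) (l 16409112)))) (b (a (c (a (b (c (l 16479600) (l 16418744)) (l 16604544)) (c (b (l 16573960) (l 16534072)) (l 16468720))) (b (c (l 16459040) (l 16541912)) (l 16614776))) (c (b (l 16579032) (l 16529408)) (l 16459280))) (a (c (c (l 16495664) (a (l 16552744) (l 16494968))) (c (l 16472904) (l 16561104))) (c (c (l 16399568) (l 16474280)) (l 16524896))))) (b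 (b (c (a (c (l 16420576) (l 16378568)) (c (b (l 16444192) (l 16477192)) (l 16453848))) (b (l 16392008) (l 16384008))) (c (a (l 16457776) (b (l 16495344) (l 16517376))) (a (l 16443784) (l 16513216)))) (b (c (b (l 16390872) (l 16604344)) (l 16551424)) (c (l 16458016) (l 16600320))))), by decide +kernel⟩

def k4_pm_202_a : ∃ t, chk3 f_pm_202_a t 17 3 1 = true :=
  ⟨(b (b (c (a (b (c (l 16485664) (a (l 16518128) (l 16543928))) (c (a (l 16554328) (l 16535584)) (a (c (l 16544000) (l 16532776)) (l 16496072)))) (a (c (l 16442032) (l 16522624)) (c (c (l 16419072) (l 16489704)) (l 16488568)))) (a (c (b (l 16532088) (l 16510352)) (l 16469952)) (b (l 16497640) (l 16510248)))) (c (a (c (a (l 16518296) (b (l 16547824) (l 16569712))) (a (c (l 16575072) (l 16523184)) (b (a (l 16578864) (l 16564384)) (l 16597992)))) (b (c (a (c (l 16521472) (l 16534808)) (a (l 16512704) (l 16503672))) (l 16525800)) (a (l 16549736) (l 16501464)))) (a (c (a (l 16495664) (l 16439272)) (b (l 16538480) (l 16603584)))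 (b (l 16523896) (l 16538536))))) (c (a (b (c (b (a (l 16577208) (l 16568816)) (l 16443624)) (b (a (l 16535128) (b (l 16595952) (l 16588640))) (a (l 16572976) (l 16562848)))) (b (c (l 16340120) (a (l 16522088) (l 16436792))) (c (l 16228288) (l 16464328)))) (b (c (a (b (l 16556304) (l 16514312)) (b (l 16509432) (c (l 16475472) (l 16498928)))) (a (b (l 16574072) (l 16521464)) (b (l 16531656) (l 16503944)))) (a (c (b (l 16466680) (l 16254032)) (l 16384768)) (b (c (a (l 16453576) (l 16441248)) (l 16444024)) (c (l 16371264) (l 16386960)))))) (a (b (c (b (l 16449864) (l 16576072)) (l 16427848)) (c (l 16392424) (l 16502640))) (b (b (l 16466624) (a (l 16517288) (l 16495960))) (b (a (l 16463536) (l 16433064)) (l 16362696)))))), by decide +kernel⟩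

def k5_pm_202_a : ∃ t, chk3 f_pm_202_a t 9 1 1 = true :=
  ⟨(b (b (l 3) (b (b (l 3) (a (a (c (l 197198534759) (l 16409024)) (c (l 16386480) (l 16380328))) (c (a (a (l 16374864) (l 16367488)) (l 197735354375)) (a (l 198272257063) (l 16341176))))) (a (c (a (b (a (l 16428528) (l 16407056)) (a (l 16429496) (l 16441088))) (b (l 16401048) (l 16434672))) (b (a (a (l 16423400) (l 16401800)) (l 16394912)) (a (a (l 16445848) (l 16436176)) (l 16428992)))) (c (a (a (c (l 16413424) (l 16410072)) (l 16394608)) (b (l 16354184) (l 16359280))) (a (a (l 16405040) (l 16386936)) (b (l 16344856) (l 16349768))))))) (a (a (b (c (b (a (l 16469176) (l 16461552)) (a (c (l 16495176) (l 16492864)) (l 16460248))) (b (l 16458200) (a (l 16489608) (l 16475840)))) (b (c (a (l 16466080) (l 16464880)) (b (l 16488680) (l 16448712))) (c (a (c (b (l 16421176) (l 16363168)) (l 16219888)) (b (l 16404912) (l 16334496))) (b (l 16400600) (a (l 16347096) (l 16318960)))))) (b (c (b (b (c (l 16450928) (l 16448128)) (l 16455584))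 (c (l 16466432) (l 16463264))) (b (b (l 16443992) (l 16449608)) (l 16458544))) (b (c (b (c (l 16464152) (l 16460560)) (l 16419312)) (l 16387920)) (b (c (l 16362504) (l 16351704)) (l 1))))) (a (b (c (b (b (a (l 16444720) (l 16417496)) (l 16433280)) (a (l 16450616) (l 16420520))) (b (a (l 16416760) (l 16408856)) (l 16427408))) (b (c (a (b (l 16385624) (l 16400216)) (l 16391288)) (a (l 16413424) (l 16381192))) (l 1))) (b (b (b (c (l 16361088) (l 16351288)) (l 16356272)) (l 16355392)) (l 1))))), by decide +kernel⟩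

def k6_pm_202_a : ∃ t, chk3 f_pm_202_a t 5 1 1 = true :=
  ⟨(a (b (b (a (l 3) (l 1)) (a (b (c (a (b (l 16318048) (l 16308840)) (l 185924155031)) (a (l 203103943511) (l 191829568199))) (c (a (l 16298664) (l 16243912)) (a (l 16286840) (l 16230112)))) (l 1))) (b (a (a (b (a (c (l 16305392) (l 16293400)) (l 1)) (l 1)) (l 1)) (l 1)) (l 1))) (l 1)), by decide +kernel⟩

def k7_pm_202_a : ∃ t, chk3 f_pm_202_a t 3 1 1 = true :=
  ⟨(l 1), by decide +kernel⟩

theorem s8_pm_202_a : ∃ t, chk3 f_pm_202_a t 32 3 1 = true := ex3_c k1_pm_202_a k2_pm_202_a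

theorem s9_pm_202_a : ∃ t, chk3 f_pm_202_a t 16 3 1 = true := ex3_a s8_pm_202_a k3_pm_202_a

theorem s10_pm_202_a : ∃ t, chk3 f_pm_202_a t 8 3 1 = true := ex3_a s9_pm_202_a k4_pm_202_a

theorem s11_pm_202_a : ∃ t, chk3 f_pm_202_a t 8 1 1 = true := ex3_b k0_pm_202_a s10_pm_202_a

theorem s12_pm_202_a : ∃ t, chk3 f_pm_202_a t 4 1 1 = true := ex3_a s11_pm_202_a k5_pm_202_a

theorem s13_pm_202_a : ∃ t, chk3 f_pm_202_a t 2 1 1 = true := ex3_a s12_pm_202_a k6_pm_202_a

theorem s14_pm_202_a : ∃ t, chk3 f_pm_202_a t 1 1 1 = true := ex3_a s13_pm_202_a k7_pm_202_a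

theorem c_pm_202_a : CertFX 1073741824 536870912 0 420477299 1046898278 26843546 false true false .pp 2 0 2
    ndF5q2 ndF2q2a pcF0 Cut.none Ext.none :=
  certFX2 (fam := false) (s1 := true) (s2 := false) (a := 2) (b := 0) (c := 2) (cn := .pp) (n1 := ndF5q2) (n2 := ndF2q2a) (pc := pcF0) (cut := Cut.none) (xt := Ext.none) (P1 := 1073741824) (W1 := 536870912) (P2 := 0) (W2 := 420477299) (P3 := 1046898278) (W3 := 26843546)
    rfl (fun _ => rfl) s14_pm_202_a

noncomputable def f_pm_202_b : ℕ → ℕ → ℕ → ℕ → Bool := onCell 1073741824 536870912 1239849684 370763052 1046898278 26843546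
    (rowFX 0 false true false .pp 2 0 2 (qsf 1073741824 536870912 1239849684 370763052 0) ndF5q2 ndF2q2b pcF0 Cut.none Ext.none)

def k0_pm_202_b : ∃ t, chk3 f_pm_202_b t 1 1 1 = true :=
  ⟨(a (b (l 3) (a (l 3) (l 3))) (l 3)), by decide +kernel⟩

theorem c_pm_202_b : CertFX 1073741824 536870912 1239849684 370763052 1046898278 26843546 false true false .pp 2 0 2
    ndF5q2 ndF2q2b pcF0 Cut.none Ext.none :=
  certFX0 (fam := false) (s1 := true) (s2 := false) (a := 2) (b := 0) (c := 2) (cn := .pp) (n1 := ndF5q2) (n2 := ndF2q2b) (pc := pcF0) (cut := Cut.none) (xt := Ext.none) (P1 := 1073741824) (W1 := 536870912) (P2 := 1239849684) (W2 := 370763052) (P3 := 1046898278) (W3 := 26843546)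
    rfl k0_pm_202_b

noncomputable def f_pm_203 : ℕ → ℕ → ℕ → ℕ → Bool := onCell 1073741824 536870912 0 536870912 1046898278 26843546
    (rowFX 1 false true false .up 2 0 3 (qsf 1073741824 536870912 1610612736 469762048 0) ndF5q2 ndF2q3 pcF0 Cut.none Ext.none)

def k0_pm_203 : ∃ t, chk3 f_pm_203 t 1 1 1 = true :=
  ⟨(a (a (b (l 1) (l 3)) (l 3)) (l 3)), by decide +kernel⟩

theorem c_pm_203 : CertFX 1073741824 536870912 1610612736 469762048 1046898278 26843546 false true false .up 2 0 3
    ndF5q2 ndF2q3 pcF0 Cut.none Ext.none :=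
  certFX1 (fam := false) (s1 := true) (s2 := false) (a := 2) (b := 0) (c := 3) (cn := .up) (n1 := ndF5q2) (n2 := ndF2q3) (pc := pcF0) (cut := Cut.none) (xt := Ext.none) (P1 := 1073741824) (W1 := 536870912) (P2 := 1610612736) (W2 := 469762048) (P3 := 1046898278) (W3 := 26843546)
    rfl (fun _ => rfl) k0_pm_203

noncomputable def f_pm_213 : ℕ → ℕ → ℕ → ℕ → Bool := onCell 1073741824 536870912 1610612736 469762048 1046898278 26843546
    (rowFX 0 false true false .pnn 2 1 3 (qsf 1073741824 536870912 1610612736 469762048 1) ndF5q2 ndF2q3 pcF1 Cut.none Ext.none)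

def k0_pm_213 : ∃ t, chk3 f_pm_213 t 1 1 1 = true :=
  ⟨(a (b (a (a (a (b (b (l 3) (c (l 231020756423) (l 16177440))) (b (c (l 16128120) (l 16198416)) (c (l 16253952) (l 16240360)))) (b (l 3) (b (c (l 445231433655) (l 15799912)) (c (l 15824656) (l 15799912))))) (l 3)) (l 3)) (a (b (a (b (a (l 16247152) (c (l 15824656) (l 15799912))) (a (l 16144104) (l 15812368))) (a (b (l 364700036087) (a (l 15509272) (l 15318496))) (l 3))) (a (b (a (b (l 16254112) (a (l 16351512) (l 16141864))) (l 15667024)) (a (b (a (l 16259976) (l 16108768)) (a (l 16191792) (l 16080120))) (b (a (l 15917952) (l 15712752)) (a (l 15920736) (l 15730216))))) (b (a (l 15412904) (l 3)) (a (b (l 15415248) (a (l 15530696) (l 15339272))) (l 89821283975))))) (l 3))) (l 3)), by decide +kernel⟩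

theorem c_pm_213 : CertFX 1073741824 536870912 1610612736 469762048 1046898278 26843546 false true false .pnn 2 1 3
    ndF5q2 ndF2q3 pcF1 Cut.none Ext.none :=
  certFX0 (fam := false) (s1 := true) (s2 := false) (a := 2) (b := 1) (c := 3) (cn := .pnn) (n1 := ndF5q2) (n2 := ndF2q3) (pc := pcF1) (cut := Cut.none) (xt := Ext.none) (P1 := 1073741824) (W1 := 536870912) (P2 := 1610612736) (W2 := 469762048) (P3 := 1046898278) (W3 := 26843546)
    rfl k0_pm_213

noncomputable def f_pm_303 : ℕ → ℕ → ℕ → ℕ → Bool := onCell 0 1230186008 1610612736 469762048 1046898278 26843546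
    (rowFX 0 false true false .npn 3 0 3 (qsf 0 1230186008 1610612736 469762048 0) ndF5q3 ndF2q3 pcF0 Cut.none Ext.none)

def k0_pm_303 : ∃ t, chk3 f_pm_303 t 1 1 1 = true :=
  ⟨(a (l 3) (l 3)), by decide +kernel⟩

theorem c_pm_303 : CertFX 0 1230186008 1610612736 469762048 1046898278 26843546 false true false .npn 3 0 3
    ndF5q3 ndF2q3 pcF0 Cut.none Ext.none :=
  certFX0 (fam := false) (s1 := true) (s2 := false) (a := 3) (b := 0) (c := 3) (cn := .npn) (n1 := ndF5q3) (n2 := ndF2q3) (pc := pcF0) (cut := Cut.none) (xt := Ext.none) (P1 := 0) (W1 := 1230186008) (P2 := 1610612736) (W2 := 469762048) (P3 := 1046898278) (W3 := 26843546)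
    rfl k0_pm_303

noncomputable def f_pm_313 : ℕ → ℕ → ℕ → ℕ → Bool := onCell 0 1230186008 1610612736 469762048 1046898278 26843546
    (rowFX 0 false true false .dn 3 1 3 (qsf 0 1230186008 1610612736 469762048 1) ndF5q3 ndF2q3 pcF1 Cut.none Ext.none)

def k0_pm_313 : ∃ t, chk3 f_pm_313 t 1 1 1 = true :=
  ⟨(l 1), by decide +kernel⟩

theorem c_pm_313 : CertFX 0 1230186008 1610612736 469762048 1046898278 26843546 false true false .dn 3 1 3
    ndF5q3 ndF2q3 pcF1 Cut.none Ext.none :=
  certFX0 (fam := false) (s1 := true) (s2 := false) (a := 3) (b := 1) (c := 3) (cn := .dn) (n1 := ndF5q3) (n2 := ndF2q3) (pc := pcF1) (cut := Cut.none) (xt := Ext.none) (P1 := 0) (W1 := 1230186008) (P2 := 1610612736) (W2 := 469762048) (P3 := 1046898278) (W3 := 26843546)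
    rfl k0_pm_313

noncomputable def f_mm_001 : ℕ → ℕ → ℕ → ℕ → Bool := onCell 0 536870912 536870912 536870912 1046898278 26843546
    (rowFX 0 false false false .up 0 0 1 (qsf 0 536870912 536870912 536870912 0) ndF5q0 ndF2q1 pcF0 Cut.none Ext.none)

def k0_mm_001 : ∃ t, chk3 f_mm_001 t 1 1 1 = true :=
  ⟨(l 3), by decide +kernel⟩

theorem c_mm_001 : CertFX 0 536870912 536870912 536870912 1046898278 26843546 false false false .up 0 0 1
    ndF5q0 ndF2q1 pcF0 Cut.none Ext.none :=
  certFX0 (fam := false) (s1 := false) (s2 := false) (a := 0) (b := 0) (c := 1) (cn := .up) (n1 := ndF5q0) (n2 := ndF2q1) (pc := pcF0) (cut := Cut.none) (xt := Ext.none) (P1 := 0) (W1 := 536870912) (P2 := 536870912) (W2 := 536870912) (P3 := 1046898278) (W3 := 26843546)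
    rfl k0_mm_001

noncomputable def f_mm_011 : ℕ → ℕ → ℕ → ℕ → Bool := onCell 0 536870912 536870912 536870912 1046898278 26843546
    (rowFX 0 false false false .pnn 0 1 1 (qsf 0 536870912 536870912 536870912 1) ndF5q0 ndF2q1 pcF1 Cut.none Ext.none)

def k0_mm_011 : ∃ t, chk3 f_mm_011 t 1 1 1 = true :=
  ⟨(l 3), by decide +kernel⟩

theorem c_mm_011 : CertFX 0 536870912 536870912 536870912 1046898278 26843546 false false false .pnn 0 1 1
    ndF5q0 ndF2q1 pcF1 Cut.none Ext.none :=
  certFX0 (fam := false) (s1 := false) (s2 := false) (a := 0) (b := 1) (c := 1) (cn := .pnn) (n1 := ndF5q0) (n2 := ndF2q1) (pc := pcF1) (cut := Cut.none) (xt := Ext.none) (P1 := 0) (W1 := 536870912) (P2 := 536870912) (W2 := 536870912) (P3 := 1046898278) (W3 := 26843546)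
    rfl k0_mm_011

noncomputable def f_mm_012_a : ℕ → ℕ → ℕ → ℕ → Bool := onCell 0 536870912 0 420477299 1046898278 26843546
    (rowFX 0 false false false .pnp 0 1 2 (qsf 0 536870912 0 420477299 1) ndF5q0 ndF2q2a pcF1 Cut.none Ext.none)

def k0_mm_012_a : ∃ t, chk3 f_mm_012_a t 1 1 1 = true :=
  ⟨(l 5), by decide +kernel⟩

theorem c_mm_012_a : CertFX 0 536870912 0 420477299 1046898278 26843546 false false false .pnp 0 1 2
    ndF5q0 ndF2q2a pcF1 Cut.none Ext.none :=
  certFX0 (fam := false) (s1 := false) (s2 := false) (a := 0) (b := 1) (c := 2) (cn := .pnp) (n1 := ndF5q0) (n2 := ndF2q2a) (pc := pcF1) (cut := Cut.none) (xt := Ext.none) (P1 := 0) (W1 := 536870912) (P2 := 0) (W2 := 420477299) (P3 := 1046898278) (W3 := 26843546)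
    rfl k0_mm_012_a

noncomputable def f_mm_012_b : ℕ → ℕ → ℕ → ℕ → Bool := onCell 0 536870912 1239849684 370763052 1046898278 26843546
    (rowFX 0 false false false .pnp 0 1 2 (qsf 0 536870912 1239849684 370763052 1) ndF5q0 ndF2q2b pcF1 Cut.none Ext.none)

def k0_mm_012_b : ∃ t, chk3 f_mm_012_b t 1 1 1 = true :=
  ⟨(l 5), by decide +kernel⟩

theorem c_mm_012_b : CertFX 0 536870912 1239849684 370763052 1046898278 26843546 false false false .pnp 0 1 2
    ndF5q0 ndF2q2b pcF1 Cut.none Ext.none :=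
  certFX0 (fam := false) (s1 := false) (s2 := false) (a := 0) (b := 1) (c := 2) (cn := .pnp) (n1 := ndF5q0) (n2 := ndF2q2b) (pc := pcF1) (cut := Cut.none) (xt := Ext.none) (P1 := 0) (W1 := 536870912) (P2 := 1239849684) (W2 := 370763052) (P3 := 1046898278) (W3 := 26843546)
    rfl k0_mm_012_b

noncomputable def f_mm_022_a : ℕ → ℕ → ℕ → ℕ → Bool := onCell 0 536870912 0 420477299 1046898278 26843546
    (rowFX 0 false false false .pp 0 2 2 (qsf 0 536870912 0 420477299 2) ndF5q0 ndF2q2a pcF2 Cut.none Ext.none)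

def k0_mm_022_a : ∃ t, chk3 f_mm_022_a t 1 1 1 = true :=
  ⟨(l 5), by decide +kernel⟩

theorem c_mm_022_a : CertFX 0 536870912 0 420477299 1046898278 26843546 false false false .pp 0 2 2
    ndF5q0 ndF2q2a pcF2 Cut.none Ext.none :=
  certFX0 (fam := false) (s1 := false) (s2 := false) (a := 0) (b := 2) (c := 2) (cn := .pp) (n1 := ndF5q0) (n2 := ndF2q2a) (pc := pcF2) (cut := Cut.none) (xt := Ext.none) (P1 := 0) (W1 := 536870912) (P2 := 0) (W2 := 420477299) (P3 := 1046898278) (W3 := 26843546)
    rfl k0_mm_022_a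

noncomputable def f_mm_022_b : ℕ → ℕ → ℕ → ℕ → Bool := onCell 0 536870912 1239849684 370763052 1046898278 26843546
    (rowFX 0 false false false .pp 0 2 2 (qsf 0 536870912 1239849684 370763052 2) ndF5q0 ndF2q2b pcF2 Cut.none Ext.none)

def k0_mm_022_b : ∃ t, chk3 f_mm_022_b t 1 1 1 = true :=
  ⟨(l 5), by decide +kernel⟩

theorem c_mm_022_b : CertFX 0 536870912 1239849684 370763052 1046898278 26843546 false false false .pp 0 2 2
    ndF5q0 ndF2q2b pcF2 Cut.none Ext.none :=
  certFX0 (fam := false) (s1 := false) (s2 := false) (a := 0) (b := 2) (c := 2) (cn := .pp) (n1 := ndF5q0) (n2 := ndF2q2b) (pc := pcF2) (cut := Cut.none) (xt := Ext.none) (P1 := 0) (W1 := 536870912) (P2 := 1239849684) (W2 := 370763052) (P3 := 1046898278) (W3 := 26843546)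
    rfl k0_mm_022_b

noncomputable def f_mm_023 : ℕ → ℕ → ℕ → ℕ → Bool := onCell 0 536870912 1610612736 469762048 1046898278 26843546
    (rowFX 0 false false false .up 0 2 3 (qsf 0 536870912 1610612736 469762048 2) ndF5q0 ndF2q3 pcF2 Cut.none Ext.none)

def k0_mm_023 : ∃ t, chk3 f_mm_023 t 1 1 1 = true :=
  ⟨(l 5), by decide +kernel⟩

theorem c_mm_023 : CertFX 0 536870912 1610612736 469762048 1046898278 26843546 false false false .up 0 2 3
    ndF5q0 ndF2q3 pcF2 Cut.none Ext.none :=
  certFX0 (fam := false) (s1 := false) (s2 := false) (a := 0) (b := 2) (c := 3) (cn := .up) (n1 := ndF5q0) (n2 := ndF2q3) (pc := pcF2) (cut := Cut.none) (xt := Ext.none) (P1 := 0) (W1 := 536870912) (P2 := 1610612736) (W2 := 469762048) (P3 := 1046898278) (W3 := 26843546)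
    rfl k0_mm_023

noncomputable def f_mm_033 : ℕ → ℕ → ℕ → ℕ → Bool := onCell 0 536870912 1610612736 469762048 1046898278 26843546
    (rowFX 0 false false false .pnn 0 3 3 (qsf 0 536870912 1610612736 469762048 3) ndF5q0 ndF2q3 pcF3 Cut.none Ext.none)

def k0_mm_033 : ∃ t, chk3 f_mm_033 t 1 1 1 = true :=
  ⟨(l 5), by decide +kernel⟩

theorem c_mm_033 : CertFX 0 536870912 1610612736 469762048 1046898278 26843546 false false false .pnn 0 3 3
    ndF5q0 ndF2q3 pcF3 Cut.none Ext.none :=
  certFX0 (fam := false) (s1 := false) (s2 := false) (a := 0) (b := 3) (c := 3) (cn := .pnn) (n1 := ndF5q0) (n2 := ndF2q3) (pc := pcF3) (cut := Cut.none) (xt := Ext.none) (P1 := 0) (W1 := 536870912) (P2 := 1610612736) (W2 := 469762048) (P3 := 1046898278) (W3 := 26843546)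
    rfl k0_mm_033

noncomputable def f_mm_101 : ℕ → ℕ → ℕ → ℕ → Bool := onCell 536870912 469762048 536870912 536870912 1046898278 26843546
    (rowFX 0 false false false .npn 1 0 1 (qsf 536870912 469762048 536870912 536870912 0) ndF5q1 ndF2q1 pcF0 Cut.none Ext.none)

def k0_mm_101 : ∃ t, chk3 f_mm_101 t 1 1 1 = true :=
  ⟨(l 3), by decide +kernel⟩

theorem c_mm_101 : CertFX 536870912 469762048 536870912 536870912 1046898278 26843546 false false false .npn 1 0 1
    ndF5q1 ndF2q1 pcF0 Cut.none Ext.none :=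
  certFX0 (fam := false) (s1 := false) (s2 := false) (a := 1) (b := 0) (c := 1) (cn := .npn) (n1 := ndF5q1) (n2 := ndF2q1) (pc := pcF0) (cut := Cut.none) (xt := Ext.none) (P1 := 536870912) (W1 := 469762048) (P2 := 536870912) (W2 := 536870912) (P3 := 1046898278) (W3 := 26843546)
    rfl k0_mm_101

noncomputable def f_mm_102_a : ℕ → ℕ → ℕ → ℕ → Bool := onCell 536870912 469762048 0 420477299 1046898278 26843546
    (rowFX 0 false false false .npp 1 0 2 (qsf 536870912 469762048 0 420477299 0) ndF5q1 ndF2q2a pcF0 Cut.none Ext.none)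

def k0_mm_102_a : ∃ t, chk3 f_mm_102_a t 1 1 1 = true :=
  ⟨(l 5), by decide +kernel⟩

theorem c_mm_102_a : CertFX 536870912 469762048 0 420477299 1046898278 26843546 false false false .npp 1 0 2
    ndF5q1 ndF2q2a pcF0 Cut.none Ext.none :=
  certFX0 (fam := false) (s1 := false) (s2 := false) (a := 1) (b := 0) (c := 2) (cn := .npp) (n1 := ndF5q1) (n2 := ndF2q2a) (pc := pcF0) (cut := Cut.none) (xt := Ext.none) (P1 := 536870912) (W1 := 469762048) (P2 := 0) (W2 := 420477299) (P3 := 1046898278) (W3 := 26843546)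
    rfl k0_mm_102_a

noncomputable def f_mm_102_b : ℕ → ℕ → ℕ → ℕ → Bool := onCell 536870912 469762048 1239849684 370763052 1046898278 26843546
    (rowFX 0 false false false .npp 1 0 2 (qsf 536870912 469762048 1239849684 370763052 0) ndF5q1 ndF2q2b pcF0 Cut.none Ext.none)

def k0_mm_102_b : ∃ t, chk3 f_mm_102_b t 1 1 1 = true :=
  ⟨(l 5), by decide +kernel⟩

theorem c_mm_102_b : CertFX 536870912 469762048 1239849684 370763052 1046898278 26843546 false false false .npp 1 0 2
    ndF5q1 ndF2q2b pcF0 Cut.none Ext.none :=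
  certFX0 (fam := false) (s1 := false) (s2 := false) (a := 1) (b := 0) (c := 2) (cn := .npp) (n1 := ndF5q1) (n2 := ndF2q2b) (pc := pcF0) (cut := Cut.none) (xt := Ext.none) (P1 := 536870912) (W1 := 469762048) (P2 := 1239849684) (W2 := 370763052) (P3 := 1046898278) (W3 := 26843546)
    rfl k0_mm_102_b

noncomputable def f_mm_112_a : ℕ → ℕ → ℕ → ℕ → Bool := onCell 536870912 469762048 0 420477299 1046898278 26843546
    (rowFX 0 false false false .dn 1 1 2 (qsf 536870912 469762048 0 420477299 1) ndF5q1 ndF2q2a pcF1 Cut.none Ext.none)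

def k0_mm_112_a : ∃ t, chk3 f_mm_112_a t 1 1 1 = true :=
  ⟨(l 5), by decide +kernel⟩

theorem c_mm_112_a : CertFX 536870912 469762048 0 420477299 1046898278 26843546 false false false .dn 1 1 2
    ndF5q1 ndF2q2a pcF1 Cut.none Ext.none :=
  certFX0 (fam := false) (s1 := false) (s2 := false) (a := 1) (b := 1) (c := 2) (cn := .dn) (n1 := ndF5q1) (n2 := ndF2q2a) (pc := pcF1) (cut := Cut.none) (xt := Ext.none) (P1 := 536870912) (W1 := 469762048) (P2 := 0) (W2 := 420477299) (P3 := 1046898278) (W3 := 26843546)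
    rfl k0_mm_112_a

noncomputable def f_mm_112_b : ℕ → ℕ → ℕ → ℕ → Bool := onCell 536870912 469762048 1239849684 370763052 1046898278 26843546
    (rowFX 0 false false false .dn 1 1 2 (qsf 536870912 469762048 1239849684 370763052 1) ndF5q1 ndF2q2b pcF1 Cut.none Ext.none)

def k0_mm_112_b : ∃ t, chk3 f_mm_112_b t 1 1 1 = true :=
  ⟨(l 5), by decide +kernel⟩

theorem c_mm_112_b : CertFX 536870912 469762048 1239849684 370763052 1046898278 26843546 false false false .dn 1 1 2
    ndF5q1 ndF2q2b pcF1 Cut.none Ext.none :=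
  certFX0 (fam := false) (s1 := false) (s2 := false) (a := 1) (b := 1) (c := 2) (cn := .dn) (n1 := ndF5q1) (n2 := ndF2q2b) (pc := pcF1) (cut := Cut.none) (xt := Ext.none) (P1 := 536870912) (W1 := 469762048) (P2 := 1239849684) (W2 := 370763052) (P3 := 1046898278) (W3 := 26843546)
    rfl k0_mm_112_b

noncomputable def f_mm_113 : ℕ → ℕ → ℕ → ℕ → Bool := onCell 536870912 469762048 1610612736 469762048 1046898278 26843546
    (rowFX 0 false false false .nn 1 1 3 (qsf 536870912 469762048 1610612736 469762048 1) ndF5q1 ndF2q3 pcF1 Cut.none Ext.none)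

def k0_mm_113 : ∃ t, chk3 f_mm_113 t 1 1 1 = true :=
  ⟨(l 5), by decide +kernel⟩

theorem c_mm_113 : CertFX 536870912 469762048 1610612736 469762048 1046898278 26843546 false false false .nn 1 1 3
    ndF5q1 ndF2q3 pcF1 Cut.none Ext.none :=
  certFX0 (fam := false) (s1 := false) (s2 := false) (a := 1) (b := 1) (c := 3) (cn := .nn) (n1 := ndF5q1) (n2 := ndF2q3) (pc := pcF1) (cut := Cut.none) (xt := Ext.none) (P1 := 536870912) (W1 := 469762048) (P2 := 1610612736) (W2 := 469762048) (P3 := 1046898278) (W3 := 26843546)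
    rfl k0_mm_113

noncomputable def f_mm_123 : ℕ → ℕ → ℕ → ℕ → Bool := onCell 536870912 469762048 1610612736 469762048 1046898278 26843546
    (rowFX 0 false false false .npn 1 2 3 (qsf 536870912 469762048 1610612736 469762048 2) ndF5q1 ndF2q3 pcF2 Cut.none Ext.none)

def k0_mm_123 : ∃ t, chk3 f_mm_123 t 1 1 1 = true :=
  ⟨(l 5), by decide +kernel⟩

theorem c_mm_123 : CertFX 536870912 469762048 1610612736 469762048 1046898278 26843546 false false false .npn 1 2 3
    ndF5q1 ndF2q3 pcF2 Cut.none Ext.none :=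
  certFX0 (fam := false) (s1 := false) (s2 := false) (a := 1) (b := 2) (c := 3) (cn := .npn) (n1 := ndF5q1) (n2 := ndF2q3) (pc := pcF2) (cut := Cut.none) (xt := Ext.none) (P1 := 536870912) (W1 := 469762048) (P2 := 1610612736) (W2 := 469762048) (P3 := 1046898278) (W3 := 26843546)
    rfl k0_mm_123

noncomputable def f_mm_133 : ℕ → ℕ → ℕ → ℕ → Bool := onCell 536870912 469762048 1610612736 469762048 1046898278 26843546
    (rowFX 0 false false false .dn 1 3 3 (qsf 536870912 469762048 1610612736 469762048 3) ndF5q1 ndF2q3 pcF3 Cut.none Ext.none)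

def k0_mm_133 : ∃ t, chk3 f_mm_133 t 1 1 1 = true :=
  ⟨(l 1), by decide +kernel⟩

theorem c_mm_133 : CertFX 536870912 469762048 1610612736 469762048 1046898278 26843546 false false false .dn 1 3 3
    ndF5q1 ndF2q3 pcF3 Cut.none Ext.none :=
  certFX0 (fam := false) (s1 := false) (s2 := false) (a := 1) (b := 3) (c := 3) (cn := .dn) (n1 := ndF5q1) (n2 := ndF2q3) (pc := pcF3) (cut := Cut.none) (xt := Ext.none) (P1 := 536870912) (W1 := 469762048) (P2 := 1610612736) (W2 := 469762048) (P3 := 1046898278) (W3 := 26843546)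
    rfl k0_mm_133

noncomputable def f_mm_202_a : ℕ → ℕ → ℕ → ℕ → Bool := onCell 1073741824 536870912 0 420477299 1046898278 26843546
    (rowFX 0 false false false .pp 2 0 2 (qsf 1073741824 536870912 0 420477299 0) ndF5q2 ndF2q2a pcF0 Cut.none Ext.none)

def k0_mm_202_a : ∃ t, chk3 f_mm_202_a t 1 1 1 = true :=
  ⟨(l 3), by decide +kernel⟩

theorem c_mm_202_a : CertFX 1073741824 536870912 0 420477299 1046898278 26843546 false false false .pp 2 0 2
    ndF5q2 ndF2q2a pcF0 Cut.none Ext.none :=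
  certFX0 (fam := false) (s1 := false) (s2 := false) (a := 2) (b := 0) (c := 2) (cn := .pp) (n1 := ndF5q2) (n2 := ndF2q2a) (pc := pcF0) (cut := Cut.none) (xt := Ext.none) (P1 := 1073741824) (W1 := 536870912) (P2 := 0) (W2 := 420477299) (P3 := 1046898278) (W3 := 26843546)
    rfl k0_mm_202_a

noncomputable def f_mm_202_b : ℕ → ℕ → ℕ → ℕ → Bool := onCell 1073741824 536870912 1239849684 370763052 1046898278 26843546
    (rowFX 0 false false false .pp 2 0 2 (qsf 1073741824 536870912 1239849684 370763052 0) ndF5q2 ndF2q2b pcF0 Cut.none Ext.none)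

def k0_mm_202_b : ∃ t, chk3 f_mm_202_b t 1 1 1 = true :=
  ⟨(l 3), by decide +kernel⟩

theorem c_mm_202_b : CertFX 1073741824 536870912 1239849684 370763052 1046898278 26843546 false false false .pp 2 0 2
    ndF5q2 ndF2q2b pcF0 Cut.none Ext.none :=
  certFX0 (fam := false) (s1 := false) (s2 := false) (a := 2) (b := 0) (c := 2) (cn := .pp) (n1 := ndF5q2) (n2 := ndF2q2b) (pc := pcF0) (cut := Cut.none) (xt := Ext.none) (P1 := 1073741824) (W1 := 536870912) (P2 := 1239849684) (W2 := 370763052) (P3 := 1046898278) (W3 := 26843546)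
    rfl k0_mm_202_b

noncomputable def f_mm_203 : ℕ → ℕ → ℕ → ℕ → Bool := onCell 1073741824 536870912 1610612736 469762048 1046898278 26843546
    (rowFX 0 false false false .up 2 0 3 (qsf 1073741824 536870912 1610612736 469762048 0) ndF5q2 ndF2q3 pcF0 Cut.none Ext.none)

def k0_mm_203 : ∃ t, chk3 f_mm_203 t 1 1 1 = true :=
  ⟨(l 5), by decide +kernel⟩

theorem c_mm_203 : CertFX 1073741824 536870912 1610612736 469762048 1046898278 26843546 false false false .up 2 0 3
    ndF5q2 ndF2q3 pcF0 Cut.none Ext.none :=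
  certFX0 (fam := false) (s1 := false) (s2 := false) (a := 2) (b := 0) (c := 3) (cn := .up) (n1 := ndF5q2) (n2 := ndF2q3) (pc := pcF0) (cut := Cut.none) (xt := Ext.none) (P1 := 1073741824) (W1 := 536870912) (P2 := 1610612736) (W2 := 469762048) (P3 := 1046898278) (W3 := 26843546)
    rfl k0_mm_203

noncomputable def f_mm_213 : ℕ → ℕ → ℕ → ℕ → Bool := onCell 1073741824 536870912 1610612736 469762048 1046898278 26843546
    (rowFX 0 false false false .pnn 2 1 3 (qsf 1073741824 536870912 1610612736 469762048 1) ndF5q2 ndF2q3 pcF1 Cut.none Ext.none)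

def k0_mm_213 : ∃ t, chk3 f_mm_213 t 1 1 1 = true :=
  ⟨(l 5), by decide +kernel⟩

theorem c_mm_213 : CertFX 1073741824 536870912 1610612736 469762048 1046898278 26843546 false false false .pnn 2 1 3
    ndF5q2 ndF2q3 pcF1 Cut.none Ext.none :=
  certFX0 (fam := false) (s1 := false) (s2 := false) (a := 2) (b := 1) (c := 3) (cn := .pnn) (n1 := ndF5q2) (n2 := ndF2q3) (pc := pcF1) (cut := Cut.none) (xt := Ext.none) (P1 := 1073741824) (W1 := 536870912) (P2 := 1610612736) (W2 := 469762048) (P3 := 1046898278) (W3 := 26843546)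
    rfl k0_mm_213

noncomputable def f_mm_303 : ℕ → ℕ → ℕ → ℕ → Bool := onCell 0 1230186008 1610612736 469762048 1046898278 26843546
    (rowFX 0 false false false .npn 3 0 3 (qsf 0 1230186008 1610612736 469762048 0) ndF5q3 ndF2q3 pcF0 Cut.none Ext.none)

def k0_mm_303 : ∃ t, chk3 f_mm_303 t 1 1 1 = true :=
  ⟨(a (l 3) (l 3)), by decide +kernel⟩

theorem c_mm_303 : CertFX 0 1230186008 1610612736 469762048 1046898278 26843546 false false false .npn 3 0 3
    ndF5q3 ndF2q3 pcF0 Cut.none Ext.none :=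
  certFX0 (fam := false) (s1 := false) (s2 := false) (a := 3) (b := 0) (c := 3) (cn := .npn) (n1 := ndF5q3) (n2 := ndF2q3) (pc := pcF0) (cut := Cut.none) (xt := Ext.none) (P1 := 0) (W1 := 1230186008) (P2 := 1610612736) (W2 := 469762048) (P3 := 1046898278) (W3 := 26843546)
    rfl k0_mm_303

noncomputable def f_mm_313 : ℕ → ℕ → ℕ → ℕ → Bool := onCell 0 1230186008 1610612736 469762048 1046898278 26843546
    (rowFX 0 false false false .dn 3 1 3 (qsf 0 1230186008 1610612736 469762048 1) ndF5q3 ndF2q3 pcF1 Cut.none Ext.none)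

def k0_mm_313 : ∃ t, chk3 f_mm_313 t 1 1 1 = true :=
  ⟨(l 1), by decide +kernel⟩

theorem c_mm_313 : CertFX 0 1230186008 1610612736 469762048 1046898278 26843546 false false false .dn 3 1 3
    ndF5q3 ndF2q3 pcF1 Cut.none Ext.none :=
  certFX0 (fam := false) (s1 := false) (s2 := false) (a := 3) (b := 1) (c := 3) (cn := .dn) (n1 := ndF5q3) (n2 := ndF2q3) (pc := pcF1) (cut := Cut.none) (xt := Ext.none) (P1 := 0) (W1 := 1230186008) (P2 := 1610612736) (W2 := 469762048) (P3 := 1046898278) (W3 := 26843546)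
    rfl k0_mm_313

end Pool.Agent.Strip051.G.IE1.Tab.C.FB52

namespace Pool.Agent.Strip051.G.IE1.Tab.C.FB53

open Pool.Agent.Strip051.PB Pool.Agent.Strip051.PB.T
open Pool.Agent.Strip051.G.IE1.Tab

noncomputable def f_pp_001 : ℕ → ℕ → ℕ → ℕ → Bool := onCell 0 536870912 0 536870912 1046898278 26843546
    (rowFX 1 false true true .up 0 0 1 (qsf 0 536870912 536870912 536870912 0) ndF5q0 ndF3q1 pcF0 Cut.none Ext.none)

def k0_pp_001 : ∃ t, chk3 f_pp_001 t 1 1 1 = true :=
  ⟨(l 3), by decide +kernel⟩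

theorem c_pp_001 : CertFX 0 536870912 536870912 536870912 1046898278 26843546 false true true .up 0 0 1
    ndF5q0 ndF3q1 pcF0 Cut.none Ext.none :=
  certFX1 (fam := false) (s1 := true) (s2 := true) (a := 0) (b := 0) (c := 1) (cn := .up) (n1 := ndF5q0) (n2 := ndF3q1) (pc := pcF0) (cut := Cut.none) (xt := Ext.none) (P1 := 0) (W1 := 536870912) (P2 := 536870912) (W2 := 536870912) (P3 := 1046898278) (W3 := 26843546)
    rfl (fun _ => rfl) k0_pp_001

noncomputable def f_pp_011 : ℕ → ℕ → ℕ → ℕ → Bool := onCell 0 536870912 536870912 536870912 1046898278 26843546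
    (rowFX 1 false true true .pnn 0 1 1 (qsf 0 536870912 536870912 536870912 1) ndF5q0 ndF3q1 pcF1 Cut.none Ext.none)

def k0_pp_011 : ∃ t, chk3 f_pp_011 t 1 1 1 = true :=
  ⟨(l 3), by decide +kernel⟩

theorem c_pp_011 : CertFX 0 536870912 536870912 536870912 1046898278 26843546 false true true .pnn 0 1 1
    ndF5q0 ndF3q1 pcF1 Cut.none Ext.none :=
  certFX1 (fam := false) (s1 := true) (s2 := true) (a := 0) (b := 1) (c := 1) (cn := .pnn) (n1 := ndF5q0) (n2 := ndF3q1) (pc := pcF1) (cut := Cut.none) (xt := Ext.none) (P1 := 0) (W1 := 536870912) (P2 := 536870912) (W2 := 536870912) (P3 := 1046898278) (W3 := 26843546)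
    rfl (fun _ => rfl) k0_pp_011

noncomputable def f_pp_012 : ℕ → ℕ → ℕ → ℕ → Bool := onCell 536870912 536870912 1073741824 536870912 1046898278 26843546
    (rowFX 2 false true true .pnp 0 1 2 (qsf 0 536870912 1073741824 536870912 1) ndF5q0 ndF3q2 pcF1 Cut.none Ext.none)

def k0_pp_012 : ∃ t, chk3 f_pp_012 t 2 1 1 = true :=
  ⟨(b (b (a (c (b (b (a (c (l 15925504) (l 15889200)) (a (l 15903376) (l 15903376))) (a (l 16038456) (l 16038456))) (a (l 16010400) (l 16010400))) (b (a (b (c (l 15792544) (a (l 15824736) (l 15824736))) (l 15996768)) (b (a (l 15817936) (l 15838904)) (l 15996768))) (a (b (l 16051104) (l 2)) (b (l 16051104) (l 15962152))))) (b (a (b (c (b (l 15859560) (l 15957120)) (c (l 15855456) (l 15824736))) (c (l 16038456) (l 15996768))) (b (c (l 15903376) (l 15817936)) (l 15916600))) (a (c (l 16010400) (l 15990480)) (b (l 16060296) (l 15972464))))) (a (a (l 2) (a (l 2) (a (l 2) (b (l 15718872) (l 2))))) (b (a (b (c (l 15840608) (l 15816280)) (l 16106936)) (b (l 15828440)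 (l 16106936))) (l 16562944)))) (a (l 2) (l 16777216))), by decide +kernel⟩

def k1_pp_012 : ∃ t, chk3 f_pp_012 t 6 2 1 = true :=
  ⟨(b (a (b (b (a (c (l 15903320) (l 15838840)) (c (b (l 15807568) (l 15941656)) (b (l 15718112) (l 15861312)))) (c (l 16035704) (l 15993672))) (b (l 16056824) (c (l 15978960) (l 15957920)))) (b (b (a (c (b (l 15682512) (l 15861664)) (l 15512768)) (a (b (l 15485552) (l 15742400)) (b (c (l 15569248) (l 15430576)) (l 15731048)))) (a (c (l 16002784) (l 15953736)) (a (l 15937896) (l 15881288)))) (a (b (l 16039872) (l 15948944)) (b (a (l 16025960) (l 16054384)) (a (l 15937488) (l 15974632)))))) (b (a (b (b (l 15849432) (l 15799656)) (l 16102744)) (b (l 15807968) (l 16086512))) (b (a (l 16548976) (l 16532640)) (l 16761928)))), by decide +kernel⟩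

def k2_pp_012 : ∃ t, chk3 f_pp_012 t 14 4 1 = true :=
  ⟨(b (b (a (b (c (l 15624992) (l 15474856)) (l 15731560)) (b (a (c (l 15690736) (l 15519672)) (b (c (l 15631896) (l 15415168)) (l 15763368))) (a (l 15928344) (l 16021712)))) (a (c (l 16083424) (l 16023632)) (c (l 16247352) (l 16233376)))) (a (b (l 16181768) (b (l 16092672) (l 15992920))) (b (l 16178888) (l 15852960)))), by decide +kernel⟩

def k3_pp_012 : ∃ t, chk3 f_pp_012 t 30 8 1 = true :=
  ⟨(b (a (b (c (a (b (l 15690696) (l 15934152)) (b (l 15750368) (l 16003224))) (b (l 15449984) (l 15761024))) (c (l 16199496) (l 16076864))) (c (b (a (b (l 15834800) (l 16070064)) (b (l 15958360) (l 16204136))) (a (l 16328720) (b (l 16375184) (l 16440776)))) (b (b (a (l 15507008) (l 15572616)) (l 15920560)) (l 16283856)))) (a (b (l 16320168) (l 16265840)) (a (l 16278752) (c (l 16240520) (l 16292112))))), by decide +kernel⟩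

def k4_pp_012 : ∃ t, chk3 f_pp_012 t 31 16 1 = true :=
  ⟨(c (a (b (b (c (a (l 16281216) (b (l 16532584) (l 16573160))) (a (l 16025216) (b (l 16255376) (l 16330216)))) (c (a (l 16416496) (l 16599520)) (a (l 16294248) (l 16482640)))) (a (a (l 16300960) (l 16381320)) (c (l 16525552) (l 16472464)))) (b (a (b (c (a (b (l 16574864) (l 16640168)) (b (l 16510592) (l 16605536))) (b (a (l 16600576) (c (l 16571880) (l 16579504))) (a (l 16562680) (l 16625816)))) (c (b (l 16667824) (l 16683968)) (l 16514224))) (b (b (a (c (l 16565928) (b (l 16555192) (l 16571656))) (l 16597984)) (a (c (l 16568360) (c (l 16607264) (l 16610960))) (c (l 16598480) (b (l 16590976) (l 16605416))))) (c (b (a (l 16638240) (l 16597408)) (a (l 16682392) (l 16650504))) (b (a (l 16643144) (l 16559440)) (l 16593672))))) (a (c (l 16613136) (l 16482648)) (b (c (l 16671760) (l 16559696)) (c (l 16633400) (l 16527584)))))) (b (a (c (b (a (l 15792424) (l 15992984)) (l 16266472)) (a (l 15843112) (l 16290600))) (c (a (b (b (a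 (l 16126944) (l 16456656)) (l 16416672)) (l 16504568)) (b (b (a (c (b (l 16563112) (l 16583592)) (a (l 16545792) (l 16551656))) (b (l 16574768) (a (l 16555656) (l 16582688)))) (a (l 16556000) (a (l 16507240) (b (l 16587616) (l 16563784))))) (a (l 16548984) (l 16496104)))) (a (b (b (l 15753248) (l 16203088)) (l 16501472)) (b (a (c (b (l 16506440) (l 16554312)) (l 16540720)) (c (b (b (a (l 16566176) (l 16569584)) (a (l 16578088) (l 16574824))) (l 16566264)) (b (a (l 16554088) (b (c (l 16564336) (l 16557568)) (l 16561264))) (l 16540896)))) (a (l 16514192) (l 16525352)))))) (a (a (l 16422568) (l 16439624)) (a (c (l 16446664) (l 16451896)) (c (l 16410728) (l 16468800)))))), by decide +kernel⟩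

def k5_pp_012 : ∃ t, chk3 f_pp_012 t 31 17 1 = true :=
  ⟨(a (c (b (c (a (l 16401608) (l 16424384)) (l 16372624)) (c (l 16307792) (l 16293520))) (l 16321168)) (c (b (a (c (l 16462056) (l 16406432)) (l 16416280)) (c (l 16358624) (l 16333960))) (a (b (l 16385600) (l 16316072)) (c (l 16374344) (l 16308152))))), by decide +kernel⟩

def k6_pp_012 : ∃ t, chk3 f_pp_012 t 15 9 1 = true :=
  ⟨(a (a (b (l 16135792) (l 15886848)) (b (c (l 16121672) (l 16104408)) (l 15858720))) (b (a (c (b (l 16182496) (l 16047264)) (l 16102480)) (b (c (l 16218664) (l 16101064)) (c (l 16056952) (l 15912520)))) (l 15832616))), by decide +kernel⟩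

def k7_pp_012 : ∃ t, chk3 f_pp_012 t 7 5 1 = true :=
  ⟨(b (a (b (a (l 15904728) (l 15701944)) (l 16019960)) (b (a (l 15585544) (l 15525304)) (a (l 15721816) (l 15638152)))) (a (b (l 16379792) (l 16559552)) (b (l 15883840) (l 16227696)))), by decide +kernel⟩

def k8_pp_012 : ∃ t, chk3 f_pp_012 t 3 3 1 = true :=
  ⟨(a (b (a (l 16773176) (l 16756088)) (l 16763656)) (a (b (l 16581840) (l 16616944)) (b (l 16280488) (l 16363192)))), by decide +kernel⟩

theorem s9_pp_012 : ∃ t, chk3 f_pp_012 t 31 8 1 = true := ex3_b k4_pp_012 k5_pp_012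

theorem s10_pp_012 : ∃ t, chk3 f_pp_012 t 15 8 1 = true := ex3_a k3_pp_012 s9_pp_012

theorem s11_pp_012 : ∃ t, chk3 f_pp_012 t 15 4 1 = true := ex3_b s10_pp_012 k6_pp_012

theorem s12_pp_012 : ∃ t, chk3 f_pp_012 t 7 4 1 = true := ex3_a k2_pp_012 s11_pp_012

theorem s13_pp_012 : ∃ t, chk3 f_pp_012 t 7 2 1 = true := ex3_b s12_pp_012 k7_pp_012

theorem s14_pp_012 : ∃ t, chk3 f_pp_012 t 3 2 1 = true := ex3_a k1_pp_012 s13_pp_012

theorem s15_pp_012 : ∃ t, chk3 f_pp_012 t 3 1 1 = true := ex3_b s14_pp_012 k8_pp_012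

theorem s16_pp_012 : ∃ t, chk3 f_pp_012 t 1 1 1 = true := ex3_a k0_pp_012 s15_pp_012

theorem c_pp_012 : CertFX 0 536870912 1073741824 536870912 1046898278 26843546 false true true .pnp 0 1 2
    ndF5q0 ndF3q2 pcF1 Cut.none Ext.none :=
  certFX2 (fam := false) (s1 := true) (s2 := true) (a := 0) (b := 1) (c := 2) (cn := .pnp) (n1 := ndF5q0) (n2 := ndF3q2) (pc := pcF1) (cut := Cut.none) (xt := Ext.none) (P1 := 0) (W1 := 536870912) (P2 := 1073741824) (W2 := 536870912) (P3 := 1046898278) (W3 := 26843546)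
    rfl (fun _ => rfl) s16_pp_012

noncomputable def f_pp_022 : ℕ → ℕ → ℕ → ℕ → Bool := onCell 0 536870912 1073741824 536870912 1046898278 26843546
    (rowFX 1 false true true .pp 0 2 2 (qsf 0 536870912 1073741824 536870912 2) ndF5q0 ndF3q2 pcF2 Cut.none Ext.none)

def k0_pp_022 : ∃ t, chk3 f_pp_022 t 8 16 1 = true :=
  ⟨(a (c (a (b (a (b (c (l 16466112) (c (l 16483472) (a (l 16489792) (l 16496864)))) (c (l 16437632) (c (l 16492328) (l 16497504)))) (c (b (a (l 16468072) (l 16436960)) (a (l 16475896) (l 16481344))) (b (a (l 16447720) (l 16423312)) (c (l 16493448) (l 16509632))))) (a (b (c (l 16491928) (l 16510928)) (l 16338512)) (c (b (l 16479464) (l 16608000)) (a (l 16604336) (l 16573712))))) (a (b (c (b (l 16366752) (l 16427936)) (b (l 16415808) (l 16440064))) (c (b (l 16498976) (l 16569024)) (l 16554216))) (b (c (l 16182992) (b (l 16454144) (l 16524968))) (c (l 16436840) (l 16619280))))) (a (c (b (a (b (a (b (l 16513360) (l 16513256)) (c (b (l 16494456) (l 16507712)) (b (l 16497968)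 (l 16518832)))) (a (l 16544536) (c (l 16548744) (l 16560232)))) (b (c (l 16337440) (b (l 16481344) (l 16509032))) (l 16432056))) (a (a (l 16488296) (c (l 16628800) (l 16627056))) (b (l 16590352) (l 16637168)))) (b (b (a (c (a (b (a (l 16532584) (l 16526304)) (l 16523616)) (b (l 16511888) (l 16536312))) (a (a (b (c (l 16543552) (l 16530208)) (l 16543384)) (a (l 16466000) (l 16525104))) (l 16546600))) (b (l 16457280) (l 16543344))) (a (a (c (l 16516008) (l 16524656)) (l 16510672)) (l 16577632))) (a (a (c (l 16631640) (a (l 16634408) (l 16632824))) (l 16629136)) (l 16642344)))) (b (c (b (b (l 16487792) (l 16497296)) (l 16521152)) (b (b (l 16511496) (l 16538960)) (l 16581144))) (c (b (l 16620600) (l 16676448)) (l 16664384))))) (a (b (a (a (c (b (l 16380040) (c (l 16481776) (l 16566512))) (b (c (l 16526824) (l 16523448)) (l 16592888))) (l 16412520)) (l 16365936)) (a (b (c (l 16507384) (l 16669808)) (l 16640712)) (l 16499648))) (c (b (l 16474144) (l 16520160)) (l 16397024)))), by decide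 +kernel⟩

def k1_pp_022 : ∃ t, chk3 f_pp_022 t 8 17 1 = true :=
  ⟨(a (c (a (b (a (c (l 16631984) (l 16513080)) (c (l 16573808) (c (l 16698216) (l 16698880)))) (c (a (l 16461432) (b (l 16539624) (a (l 16458688) (l 16424408)))) (a (l 16582704) (l 16409592)))) (b (c (a (l 16671632) (l 16623936)) (a (l 16627360) (l 16603784))) (c (a (b (l 16538800) (l 16404976)) (b (l 16461736) (l 16324624))) (l 16267064)))) (c (a (a (a (l 16576296) (b (l 16703120) (l 16560752))) (b (l 16697040) (l 16515096))) (b (l 16537088) (a (l 16407056) (l 16291072)))) (a (c (a (b (l 16552608) (l 16468776)) (l 16454016)) (a (b (l 16599528) (l 16484600)) (l 16488272))) (b (l 16562800) (l 16268800))))) (a (b (l 16219216) (l 15962072)) (c (l 15890520) (l 16012072)))), by decide +kernel⟩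

def k2_pp_022 : ∃ t, chk3 f_pp_022 t 8 9 1 = true :=
  ⟨(a (b (a (c (b (a (c (l 16391280) (l 16352776)) (c (l 16232168) (l 16244368))) (a (l 15984368) (c (l 15965768) (l 15994888)))) (c (a (a (l 16185848) (l 15994976)) (b (l 16262816) (l 15988872))) (a (a (a (l 16083568) (l 16048632)) (l 16032768)) (l 15927064)))) (a (c (b (c (l 16201128) (l 16182760)) (c (l 15909000) (l 15887272))) (b (l 16121072) (l 15738496))) (b (c (l 15858336) (l 16005256)) (l 15532280)))) (a (c (a (b (c (l 15864824) (l 15841632)) (l 15539568)) (b (c (l 15683472) (l 15687048)) (c (l 15363440) (l 15362232)))) (a (c (b (l 15577800) (l 15509488)) (b (c (l 15628464) (l 15598224)) (a (l 15532848) (l 15449064)))) (c (b (l 15677008) (l 15347952)) (b (l 15642872) (l 15310528))))) (a (c (b (c (l 15596288) (l 15570944)) (c (l 15296672) (l 15267824))) (b (l 15355328) (l 15195536))) (c (l 15343024) (l 15246768))))) (b (a (c (l 15730320) (l 15689376)) (b (l 15648632) (l 15369200))) (a (b (l 15286840) (l 15144728)) (b (l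 15224224) (l 15229584))))), by decide +kernel⟩

def k3_pp_022 : ∃ t, chk3 f_pp_022 t 9 4 1 = true :=
  ⟨(b (a (b (a (b (l 16528208) (l 16194688)) (l 15996696)) (a (a (l 15836304) (l 15805872)) (l 15641208))) (b (b (l 16014560) (l 15738264)) (a (l 15352080) (l 15541576)))) (a (b (a (b (l 15444120) (l 15309592)) (l 15395376)) (l 15384744)) (b (l 15564744) (l 15526736)))), by decide +kernel⟩

def k4_pp_022 : ∃ t, chk3 f_pp_022 t 5 4 1 = true :=
  ⟨(b (a (b (a (b (l 15543648) (l 15651768)) (l 15841264)) (a (l 15721848) (l 15870320))) (a (b (l 15956696) (l 15806784)) (l 15816656))) (a (b (a (l 15742576) (l 15710688)) (l 15446608)) (l 15231848))), by decide +kernel⟩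

def k5_pp_022 : ∃ t, chk3 f_pp_022 t 3 4 1 = true :=
  ⟨(b (a (a (l 15775976) (l 15723776)) (l 15647240)) (a (b (l 15552176) (l 15296016)) (b (l 15591232) (l 15363832)))), by decide +kernel⟩

def k6_pp_022 : ∃ t, chk3 f_pp_022 t 1 5 1 = true :=
  ⟨(a (a (b (a (b (a (a (a (b (c (l 15227096) (c (l 15191304) (a (l 15211752) (l 15126040)))) (c (b (l 15181016) (l 15408968)) (b (c (l 15144728) (a (l 15140928) (l 15090368))) (c (l 15378272) (a (l 15356216) (l 15361696)))))) (b (c (c (a (l 15084528) (l 15052280)) (a (l 15079832) (l 15061768))) (c (l 15013320) (l 15014936))) (a (c (b (l 15115336) (l 15417520)) (b (l 15086472) (l 15396792))) (c (l 15304896) (l 15278272))))) (b (c (a (l 15076040) (l 15116448)) (l 15016048)) (c (l 15421640) (l 15350216)))) (b (l 15024920) (l 15330672))) (a (a (a (c (b (l 15737576) (l 16240872)) (b (c (l 15736560) (a (l 15795784) (l 15817176))) (a (c (l 16383072) (l 16251904)) (l 16317832)))) (c (b (l 15786464) (l 16365000)) (b (l 15876680) (l 16444144))))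 (c (b (l 15911640) (l 16324712)) (b (l 15964232) (l 16378656)))) (b (a (l 16057888) (l 16132112)) (a (l 16314992) (l 16391984))))) (b (b (a (l 15400216) (l 15376192)) (a (l 15642080) (l 15516496))) (a (l 16140424) (l 16084472)))) (a (b (c (a (a (a (l 15436424) (b (l 15845248) (l 15369616))) (b (l 15805360) (l 15410160))) (l 15779424)) (a (a (a (b (l 15649488) (l 15265712)) (l 15358112)) (l 15624072)) (l 15830224))) (a (a (c (a (l 15074472) (l 15153792)) (a (l 15043336) (l 15107120))) (l 15194144)) (l 15491304))) (b (a (l 16128376) (l 16373008)) (l 15863088)))) (b (b (b (a (l 15209832) (l 15050504)) (a (l 15357048) (l 15206152))) (a (l 15925656) (l 15774448))) (b (a (l 16611472) (l 16460672)) (a (l 16411064) (l 16731056))))) (a (b (b (b (l 15103800) (l 15256776)) (l 15802552)) (b (l 16448560) (l 16752920))) (b (b (b (l 15192144) (l 2)) (l 2)) (l 2)))), by decide +kernel⟩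

def k7_pp_022 : ∃ t, chk3 f_pp_022 t 1 3 1 = true :=
  ⟨(a (a (b (a (a (c (a (b (l 15107344) (l 15107344)) (l 15223200)) (a (b (l 15016272) (l 15079184)) (l 15240976))) (b (l 15490848) (l 15490848))) (b (l 15736880) (l 15967568))) (a (a (a (c (l 15107344) (l 15079184)) (l 15214624)) (l 15490848)) (b (l 15967568) (l 15967568)))) (b (a (l 16410784) (b (l 16730856) (l 16730976))) (b (l 16555552) (l 2)))) (b (b (a (l 16744800) (l 2)) (l 2)) (l 2))), by decide +kernel⟩

theorem s8_pp_022 : ∃ t, chk3 f_pp_022 t 8 8 1 = true := ex3_b k0_pp_022 k1_pp_022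

theorem s9_pp_022 : ∃ t, chk3 f_pp_022 t 8 4 1 = true := ex3_b s8_pp_022 k2_pp_022

theorem s10_pp_022 : ∃ t, chk3 f_pp_022 t 4 4 1 = true := ex3_a s9_pp_022 k3_pp_022

theorem s11_pp_022 : ∃ t, chk3 f_pp_022 t 2 4 1 = true := ex3_a s10_pp_022 k4_pp_022

theorem s12_pp_022 : ∃ t, chk3 f_pp_022 t 1 4 1 = true := ex3_a s11_pp_022 k5_pp_022

theorem s13_pp_022 : ∃ t, chk3 f_pp_022 t 1 2 1 = true := ex3_b s12_pp_022 k6_pp_022

theorem s14_pp_022 : ∃ t, chk3 f_pp_022 t 1 1 1 = true := ex3_b s13_pp_022 k7_pp_022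

theorem c_pp_022 : CertFX 0 536870912 1073741824 536870912 1046898278 26843546 false true true .pp 0 2 2
    ndF5q0 ndF3q2 pcF2 Cut.none Ext.none :=
  certFX1 (fam := false) (s1 := true) (s2 := true) (a := 0) (b := 2) (c := 2) (cn := .pp) (n1 := ndF5q0) (n2 := ndF3q2) (pc := pcF2) (cut := Cut.none) (xt := Ext.none) (P1 := 0) (W1 := 536870912) (P2 := 1073741824) (W2 := 536870912) (P3 := 1046898278) (W3 := 26843546)
    rfl (fun _ => rfl) s14_pp_022

noncomputable def f_pp_023 : ℕ → ℕ → ℕ → ℕ → Bool := onCell 1073741824 536870912 1610612736 536870912 1046898278 26843546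
    (rowFX 2 false true true .up 0 2 3 (qsf 0 536870912 1610612736 536870912 2) ndF5q0 ndF3q3 pcF2 Cut.none Ext.none)

def k0_pp_023 : ∃ t, chk3 f_pp_023 t 1 1 1 = true :=
  ⟨(a (a (b (b (a (l 15544192) (b (l 15487888) (l 15473464))) (a (l 2) (l 15291912))) (l 2)) (b (a (b (a (a (l 15192088) (l 15328920)) (l 15829456)) (l 15513928)) (b (a (l 16442752) (l 16752136)) (l 16419624))) (a (l 2) (b (l 16177128) (l 2))))) (b (b (a (a (l 16765088) (b (l 16555552) (l 16754776))) (b (a (l 16168264) (b (a (l 15658672) (b (a (l 15276208) (l 15069944)) (l 15421112))) (l 15776952))) (a (l 16555552) (b (l 16064800) (l 16310512))))) (a (l 16722680) (a (l 16762616) (l 16610160)))) (a (b (a (l 16544264) (l 16769440)) (a (l 2) (l 16724800))) (b (a (l 16777168) (l 16777168)) (l 4))))), by decide +kernel⟩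

theorem c_pp_023 : CertFX 0 536870912 1610612736 536870912 1046898278 26843546 false true true .up 0 2 3
    ndF5q0 ndF3q3 pcF2 Cut.none Ext.none :=
  certFX2 (fam := false) (s1 := true) (s2 := true) (a := 0) (b := 2) (c := 3) (cn := .up) (n1 := ndF5q0) (n2 := ndF3q3) (pc := pcF2) (cut := Cut.none) (xt := Ext.none) (P1 := 0) (W1 := 536870912) (P2 := 1610612736) (W2 := 536870912) (P3 := 1046898278) (W3 := 26843546)
    rfl (fun _ => rfl) k0_pp_023

noncomputable def f_pp_033 : ℕ → ℕ → ℕ → ℕ → Bool := onCell 0 536870912 1610612736 536870912 1046898278 26843546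
    (rowFX 1 false true true .pnn 0 3 3 (qsf 0 536870912 1610612736 536870912 3) ndF5q0 ndF3q3 pcF3 Cut.none Ext.none)

def k0_pp_033 : ∃ t, chk3 f_pp_033 t 1 1 1 = true :=
  ⟨(a (b (a (b (a (a (c (a (l 15107344) (l 15223200)) (b (l 15155776) (l 14904112))) (b (l 15490848) (l 15490848))) (b (l 15967568) (l 15862712))) (a (c (b (a (l 14923464) (l 15496128)) (a (a (l 15107344) (l 15223200)) (l 15496120))) (b (a (a (l 15079184) (l 15240976)) (l 15493760)) (a (c (l 15015728) (l 15154424)) (l 38349687479)))) (c (b (l 15976136) (l 77542632135)) (b (l 15892416) (b (l 15955304) (l 4)))))) (b (b (a (l 16410784) (l 16730848)) (c (l 16558360) (l 16510728))) (b (a (b (l 16410752) (l 4)) (l 4)) (l 4)))) (a (b (a (b (l 4) (l 4)) (l 4)) (l 4)) (b (l 4) (a (b (l 4) (l 2)) (l 2))))) (b (a (b (b (l 16745664) (l 4)) (l 4)) (b (l 4) (a (b (l 4) (l 2)) (l 2)))) (a (b (a (b (l 4) (l 2)) (l 2)) (l 2)) (l 2)))), by decide +kernel⟩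

theorem c_pp_033 : CertFX 0 536870912 1610612736 536870912 1046898278 26843546 false true true .pnn 0 3 3
    ndF5q0 ndF3q3 pcF3 Cut.none Ext.none :=
  certFX1 (fam := false) (s1 := true) (s2 := true) (a := 0) (b := 3) (c := 3) (cn := .pnn) (n1 := ndF5q0) (n2 := ndF3q3) (pc := pcF3) (cut := Cut.none) (xt := Ext.none) (P1 := 0) (W1 := 536870912) (P2 := 1610612736) (W2 := 536870912) (P3 := 1046898278) (W3 := 26843546)
    rfl (fun _ => rfl) k0_pp_033

noncomputable def f_pp_101 : ℕ → ℕ → ℕ → ℕ → Bool := onCell 536870912 469762048 536870912 536870912 1046898278 26843546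
    (rowFX 0 false true true .npn 1 0 1 (qsf 536870912 469762048 536870912 536870912 0) ndF5q1 ndF3q1 pcF0 Cut.none Ext.none)

def k0_pp_101 : ∃ t, chk3 f_pp_101 t 1 1 1 = true :=
  ⟨(l 3), by decide +kernel⟩

theorem c_pp_101 : CertFX 536870912 469762048 536870912 536870912 1046898278 26843546 false true true .npn 1 0 1
    ndF5q1 ndF3q1 pcF0 Cut.none Ext.none :=
  certFX0 (fam := false) (s1 := true) (s2 := true) (a := 1) (b := 0) (c := 1) (cn := .npn) (n1 := ndF5q1) (n2 := ndF3q1) (pc := pcF0) (cut := Cut.none) (xt := Ext.none) (P1 := 536870912) (W1 := 469762048) (P2 := 536870912) (W2 := 536870912) (P3 := 1046898278) (W3 := 26843546)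
    rfl k0_pp_101

noncomputable def f_pp_102 : ℕ → ℕ → ℕ → ℕ → Bool := onCell 536870912 469762048 1073741824 536870912 1046898278 26843546
    (rowFX 0 false true true .npp 1 0 2 (qsf 536870912 469762048 1073741824 536870912 0) ndF5q1 ndF3q2 pcF0 Cut.none Ext.none)

def k0_pp_102 : ∃ t, chk3 f_pp_102 t 2 2 1 = true :=
  ⟨(a (b (a (b (c (b (c (l 15925504) (l 15763368)) (l 15996520)) (b (c (b (l 15817752) (l 15888720)) (b (l 15742400) (l 15865792))) (c (l 16001704) (l 15991832)))) (l 2)) (b (b (c (b (c (l 15874800) (l 15850616)) (l 15957120)) (b (c (l 15817752) (l 15742400)) (c (l 15888720) (l 15865792)))) (c (c (l 16050520) (l 16022624)) (c (l 16001704) (l 15991832)))) (c (b (l 16069488) (l 15982784)) (b (l 16051104) (l 15962152))))) (l 2)) (b (b (c (b (a (b (c (l 15874800) (l 15850616)) (l 15957120)) (b (a (l 15859560) (b (l 15822256) (l 15904472))) (l 15957120))) (a (l 15954576) (c (l 16050520) (l 16022624)))) (b (a (b (c (l 15817752) (b (l 15764136) (l 15804952))) (l 15879216))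 (b (a (b (l 15777672) (l 15831592)) (c (l 15817752) (l 15784344))) (l 15879216))) (a (l 15996768) (l 15996768)))) (c (a (b (l 16069488) (l 15982784)) (b (l 16069488) (l 15982784))) (a (b (l 16051104) (l 15962152)) (b (l 16051104) (l 15962152))))) (b (b (c (a (l 15840608) (l 15840608)) (a (l 15816280) (l 15816280))) (a (c (l 16115536) (l 16098344)) (c (l 16115536) (l 16098344)))) (a (l 2) (b (a (l 16469232) (l 16427288)) (l 16776904)))))), by decide +kernel⟩

def k1_pp_102 : ∃ t, chk3 f_pp_102 t 6 4 1 = true :=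
  ⟨(b (a (a (b (c (b (b (l 15822256) (l 15904472)) (l 15957120)) (b (c (l 15817752) (l 15763368)) (l 15879216))) (c (l 16038456) (l 15996768))) (b (c (b (b (a (l 15822256) (l 15820272)) (l 15904472)) (l 15957120)) (b (b (b (a (l 15762512) (a (l 15762512) (l 15758360))) (l 15797344)) (l 15831592)) (l 15879216))) (c (l 16038456) (l 15996768)))) (b (b (a (c (a (b (a (l 15802856) (l 15782048)) (a (l 15902768) (l 15902056))) (b (l 15748912) (l 15885192))) (a (b (b (c (l 15735440) (l 15712048)) (c (l 15798048) (l 15760080))) (c (l 15841520) (l 15800760))) (b (c (l 15720000) (l 15624872)) (l 15811704)))) (c (b (l 15648440) (c (l 15830248) (l 15796896))) (b (c (l 15575728) (b (l 15494752) (l 15637304))) (c (l 15750456) (l 15708304))))) (a (c (a (l 15963168) (b (l 15968256) (l 16013480))) (a (l 15885472) (b (l 15882456) (l 15939016)))) (c (b (l 15911760) (l 15990424)) (c (l 15880064) (l 15857056))))) (a (c (b (l 16032536) (l 16088952)) (l 16023784)) (b (c (a (l 16087760) (l 16081568)) (a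 (l 16040232) (l 16033872))) (c (l 16152048) (l 16150744)))))) (a (c (b (l 16069488) (l 15982784)) (b (l 16051104) (l 15962152))) (c (b (l 16134600) (a (l 16004136) (l 16080688))) (b (l 16097512) (l 16001992))))), by decide +kernel⟩

def k2_pp_102 : ∃ t, chk3 f_pp_102 t 7 8 2 = true :=
  ⟨(a (b (b (a (a (b (l 15586400) (l 15729392)) (b (a (l 15543640) (l 15543232)) (a (l 15687104) (l 15685584)))) (a (b (l 15572744) (l 15772136)) (b (c (l 15775552) (l 15761456)) (l 15837456)))) (a (a (l 15871768) (l 15829248)) (a (l 15909440) (l 16028048)))) (a (b (a (l 16037400) (l 15995560)) (a (l 16195728) (l 16167632))) (b (l 16083224) (l 16269248)))) (b (b (a (b (a (c (a (l 15876088) (l 15940392)) (l 15895504)) (c (a (l 16000672) (l 16049304)) (a (l 15989720) (l 16037632)))) (a (c (l 16051624) (l 16021800)) (c (b (l 16146312) (l 16206968)) (l 16145960)))) (b (a (c (l 16030864) (l 16017616)) (a (c (l 16160520) (l 16061736)) (c (b (l 16194472) (l 16272088)) (b (l 16178808) (l 16256536))))) (a (c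 (l 16186536) (l 16218768)) (c (b (l 16327584) (l 16391680)) (b (l 16300632) (l 16353032)))))) (a (a (l 16094080) (c (l 16203320) (l 16262368))) (a (c (l 16288504) (l 16304104)) (c (l 16361008) (l 16332976))))) (b (a (a (l 16296992) (l 16334584)) (a (l 16383320) (c (l 16549760) (l 16467408)))) (a (a (l 16449720) (l 16475064)) (c (l 16279600) (l 16355792)))))), by decide +kernel⟩

def k3_pp_102 : ∃ t, chk3 f_pp_102 t 7 8 3 = true :=
  ⟨(a (b (b (a (b (a (c (l 15553800) (b (l 15492336) (l 15551488))) (a (c (l 15510128) (b (l 15447928) (l 15507336))) (c (b (l 15475200) (l 15547736)) (b (c (l 15457960) (l 15440016)) (l 15506104))))) (a (l 15651176) (a (l 15607688) (l 15564248)))) (b (c (b (l 15597256) (l 15645040)) (b (a (l 15440992) (l 15600328)) (l 15563912))) (c (l 15775800) (l 15671288)))) (a (a (l 15791416) (a (l 15748616) (l 15746800))) (a (l 15830488) (l 15889864)))) (a (b (l 15925056) (a (l 16174208) (l 16145296))) (b (l 16079160) (l 16272048)))) (b (a (b (b (a (c (b (l 15843600)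 (l 15913216)) (b (c (l 15830480) (l 15794312)) (l 15877032))) (c (b (l 15960808) (l 16034040)) (b (a (l 15854528) (l 15964960)) (l 15999560)))) (a (c (l 15978896) (l 15940280)) (c (l 16104640) (l 16067800)))) (a (l 16064664) (b (l 16172704) (l 16255624)))) (b (b (a (c (l 16021040) (b (l 16029384) (l 16090192))) (c (b (a (l 16114304) (l 16168872)) (a (l 16187752) (l 16214592))) (b (a (b (l 16080616) (l 16113544)) (c (l 16117128) (b (c (l 16138968) (l 16132392)) (l 16160064)))) (a (l 16155344) (c (l 16209544) (l 16170704)))))) (a (c (l 16198984) (l 16163440)) (c (l 16242800) (c (l 16211832) (l 16223952))))) (a (b (l 16254648) (l 16365256)) (c (b (l 16372888) (l 16463512)) (a (l 16383560) (l 16385360)))))) (a (b (l 16172048) (l 16346192)) (a (c (l 16366064) (l 16323344)) (b (a (l 16512912) (l 16500304)) (c (l 16402096) (l 16378944))))))), by decide +kernel⟩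

def k4_pp_102 : ∃ t, chk3 f_pp_102 t 7 9 1 = true :=
  ⟨(a (b (a (b (a (l 16252280) (c (l 16279024) (l 16267568))) (c (l 16257888) (l 16245976))) (b (c (l 16412928) (l 16406200)) (c (l 16314408) (l 16341456)))) (a (c (l 16171912) (l 16157816)) (b (a (l 16292072) (c (l 16562096) (l 16561536))) (c (l 16394480) (l 16388816))))) (a (b (c (a (l 16575848) (l 16477744)) (b (l 16532520) (l 16457168))) (a (b (l 16375040) (l 16283592)) (c (l 16241648) (l 16276336)))) (b (c (b (l 16221024) (l 16256080)) (b (a (l 16426016) (l 16307976)) (l 16252216))) (c (b (l 16149488) (l 16079680)) (b (l 16143184) (l 16072104)))))), by decide +kernel⟩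

def k5_pp_102 : ∃ t, chk3 f_pp_102 t 3 5 1 = true :=
  ⟨(a (b (a (b (c (l 15840608) (l 15816280)) (c (l 16115536) (l 16098344))) (b (c (b (l 15919424) (l 15867088)) (l 15870536)) (c (l 16161416) (l 16146032)))) (a (b (c (l 16555984) (l 16539752)) (l 16776904)) (b (c (l 16469432) (l 16486432)) (c (l 16674456) (l 16651360))))) (b (a (b (a (c (l 16010504) (l 15992232)) (b (l 16205840) (c (l 16222104) (l 16212064)))) (a (c (l 16265912) (l 16254488)) (c (l 16380960) (l 16337000)))) (b (a (b (c (l 16090144) (l 16106432)) (c (l 16300528) (l 16255512))) (b (c (l 16018520) (l 16009920)) (c (a (l 16048360) (l 15880264)) (a (l 15975912) (l 15869320))))) (a (c (l 15946920) (l 15935704)) (c (a (l 15796256) (l 15466432)) (a (l 15778432) (b (l 15653496) (l 15448840))))))) (a (b (a (c (l 16606216) (l 16605456)) (b (l 16217576) (l 16200824))) (a (c (l 16518688) (l 16511976)) (c (l 16151600) (l 16135352)))) (b (a (c (l 15808096) (l 15784952)) (c (l 15325136) (l 15294400))) (a (c (l 15647016) (l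 15617992)) (c (l 15148768) (l 15111848))))))), by decide +kernel⟩

def k6_pp_102 : ∃ t, chk3 f_pp_102 t 1 3 1 = true :=
  ⟨(a (l 2) (a (b (a (l 16777216) (l 16694216)) (l 2)) (a (a (b (l 16515152) (l 2)) (b (b (l 16143272) (l 16143272)) (l 16143272))) (b (b (b (c (a (l 15646792) (l 15148528)) (a (l 15617760) (l 15111592))) (a (l 15632304) (l 15129880))) (a (l 15632304) (l 15129880))) (a (l 15632304) (l 15129880)))))), by decide +kernel⟩

theorem s7_pp_102 : ∃ t, chk3 f_pp_102 t 7 8 1 = true := ex3_c k2_pp_102 k3_pp_102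

theorem s8_pp_102 : ∃ t, chk3 f_pp_102 t 7 4 1 = true := ex3_b s7_pp_102 k4_pp_102

theorem s9_pp_102 : ∃ t, chk3 f_pp_102 t 3 4 1 = true := ex3_a k1_pp_102 s8_pp_102

theorem s10_pp_102 : ∃ t, chk3 f_pp_102 t 3 2 1 = true := ex3_b s9_pp_102 k5_pp_102

theorem s11_pp_102 : ∃ t, chk3 f_pp_102 t 1 2 1 = true := ex3_a k0_pp_102 s10_pp_102

theorem s12_pp_102 : ∃ t, chk3 f_pp_102 t 1 1 1 = true := ex3_b s11_pp_102 k6_pp_102

theorem c_pp_102 : CertFX 536870912 469762048 1073741824 536870912 1046898278 26843546 false true true .npp 1 0 2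
    ndF5q1 ndF3q2 pcF0 Cut.none Ext.none :=
  certFX0 (fam := false) (s1 := true) (s2 := true) (a := 1) (b := 0) (c := 2) (cn := .npp) (n1 := ndF5q1) (n2 := ndF3q2) (pc := pcF0) (cut := Cut.none) (xt := Ext.none) (P1 := 536870912) (W1 := 469762048) (P2 := 1073741824) (W2 := 536870912) (P3 := 1046898278) (W3 := 26843546)
    rfl s12_pp_102

noncomputable def f_pp_112 : ℕ → ℕ → ℕ → ℕ → Bool := onCell 536870912 469762048 536870912 536870912 1046898278 26843546
    (rowFX 1 false true true .dn 1 1 2 (qsf 536870912 469762048 1073741824 536870912 1) ndF5q1 ndF3q2 pcF1 Cut.none Ext.none)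

def k0_pp_112 : ∃ t, chk3 f_pp_112 t 1 1 1 = true :=
  ⟨(b (a (b (a (b (a (b (a (c (b (l 15931112) (l 16009200)) (b (l 15805448) (l 15950064))) (c (l 16052472) (l 16016424))) (c (a (l 16057608) (l 16034768)) (a (l 16023952) (l 16013840)))) (b (c (l 15988240) (l 15922208)) (a (l 15937232) (l 15722904)))) (a (b (c (l 15954136) (l 15932760)) (a (l 15897928) (l 15818264))) (b (b (a (l 15849960) (l 16025864)) (l 15964664)) (a (l 16194192) (l 16556368))))) (b (a (b (a (l 15882392) (l 15881328)) (a (l 15987944) (b (l 16362888) (l 16573048)))) (b (b (a (l 16307112) (l 16652832)) (l 16437904)) (l 16732784))) (a (b (a (b (l 16418032) (l 16615512)) (l 16730256)) (l 16756728)) (l 16777216)))) (a (b (a (b (a (b (l 15864808) (l 15979976)) (l 16250800)) (l 16335648)) (l 16648448)) (a (l 16721536) (l 16777216))) (l 16777216))) (a (b (b (l 16737224) (l 16737208)) (l 16737208)) (a (b (a (l 16515152) (l 16143272)) (l 16332128)) (b (a (l 15632304) (l 15129880)) (l 2))))) (b (a (b (l 16773408) (l 16757304))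 (a (b (l 16740368) (l 2)) (l 2))) (a (b (a (l 16624448) (l 16627624)) (a (l 16387432) (l 2))) (l 2)))), by decide +kernel⟩

theorem c_pp_112 : CertFX 536870912 469762048 1073741824 536870912 1046898278 26843546 false true true .dn 1 1 2
    ndF5q1 ndF3q2 pcF1 Cut.none Ext.none :=
  certFX1 (fam := false) (s1 := true) (s2 := true) (a := 1) (b := 1) (c := 2) (cn := .dn) (n1 := ndF5q1) (n2 := ndF3q2) (pc := pcF1) (cut := Cut.none) (xt := Ext.none) (P1 := 536870912) (W1 := 469762048) (P2 := 1073741824) (W2 := 536870912) (P3 := 1046898278) (W3 := 26843546)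
    rfl (fun _ => rfl) k0_pp_112

noncomputable def f_pp_113 : ℕ → ℕ → ℕ → ℕ → Bool := onCell 536870912 469762048 536870912 536870912 1046898278 26843546
    (rowFX 1 false true true .nn 1 1 3 (qsf 536870912 469762048 1610612736 536870912 1) ndF5q1 ndF3q3 pcF1 Cut.none Ext.none)

def k0_pp_113 : ∃ t, chk3 f_pp_113 t 1 1 1 = true :=
  ⟨(b (a (l 1) (a (b (l 1) (l 16737208)) (a (b (l 374231539191) (l 16332128)) (b (l 425232024199) (l 15214824))))) (b (a (l 513282622471) (a (b (l 16740368) (l 16738664)) (a (b (l 16334904) (l 16316944)) (b (l 15385192) (l 15374600))))) (a (b (l 506301985783) (a (l 16387432) (b (l 16404424) (l 16120688)))) (a (b (l 16491824) (b (l 15991944) (l 15528224))) (b (a (l 15933656) (l 14899352)) (a (l 15050968) (b (l 14248200) (l 13698760)))))))), by decide +kernel⟩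

theorem c_pp_113 : CertFX 536870912 469762048 1610612736 536870912 1046898278 26843546 false true true .nn 1 1 3
    ndF5q1 ndF3q3 pcF1 Cut.none Ext.none :=
  certFX1 (fam := false) (s1 := true) (s2 := true) (a := 1) (b := 1) (c := 3) (cn := .nn) (n1 := ndF5q1) (n2 := ndF3q3) (pc := pcF1) (cut := Cut.none) (xt := Ext.none) (P1 := 536870912) (W1 := 469762048) (P2 := 1610612736) (W2 := 536870912) (P3 := 1046898278) (W3 := 26843546)
    rfl (fun _ => rfl) k0_pp_113

noncomputable def f_pp_123 : ℕ → ℕ → ℕ → ℕ → Bool := onCell 1073741824 536870912 1610612736 536870912 1046898278 26843546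
    (rowFX 2 false true true .npn 1 2 3 (qsf 536870912 469762048 1610612736 536870912 2) ndF5q1 ndF3q3 pcF2 Cut.none Ext.none)

def k0_pp_123 : ∃ t, chk3 f_pp_123 t 1 1 1 = true :=
  ⟨(a (a (b (b (a (l 15544192) (l 741986047479)) (a (l 15219832) (l 15291912))) (b (a (b (l 14895592) (l 14573880)) (l 15022096)) (a (b (a (l 13839336) (l 14437568)) (b (l 14550376) (a (l 15029024) (l 14723880)))) (b (l 14838704) (a (b (l 14871720) (l 15528352)) (l 15223200)))))) (b (a (b (a (l 767755422631) (l 1)) (l 15513928)) (b (l 1) (l 16419624))) (a (b (l 15444072) (b (l 15413256) (a (l 15387896) (l 15623464)))) (b (l 16177128) (b (l 16019416) (l 4)))))) (b (a (b (l 1) (l 16869480)) (l 1)) (a (b (a (l 16544264) (l 16769440)) (a (l 16474048) (l 16724800))) (b (l 747357863527) (l 4))))), by decide +kernel⟩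

theorem c_pp_123 : CertFX 536870912 469762048 1610612736 536870912 1046898278 26843546 false true true .npn 1 2 3
    ndF5q1 ndF3q3 pcF2 Cut.none Ext.none :=
  certFX2 (fam := false) (s1 := true) (s2 := true) (a := 1) (b := 2) (c := 3) (cn := .npn) (n1 := ndF5q1) (n2 := ndF3q3) (pc := pcF2) (cut := Cut.none) (xt := Ext.none) (P1 := 536870912) (W1 := 469762048) (P2 := 1610612736) (W2 := 536870912) (P3 := 1046898278) (W3 := 26843546)
    rfl (fun _ => rfl) k0_pp_123

noncomputable def f_pp_133 : ℕ → ℕ → ℕ → ℕ → Bool := onCell 1610612736 536870912 1610612736 536870912 1046898278 26843546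
    (rowFX 2 false true true .dn 1 3 3 (qsf 536870912 469762048 1610612736 536870912 3) ndF5q1 ndF3q3 pcF3 Cut.none Ext.none)

def k0_pp_133 : ∃ t, chk3 f_pp_133 t 1 1 1 = true :=
  ⟨(a (b (l 1) (b (l 1) (l 4))) (l 1)), by decide +kernel⟩

theorem c_pp_133 : CertFX 536870912 469762048 1610612736 536870912 1046898278 26843546 false true true .dn 1 3 3
    ndF5q1 ndF3q3 pcF3 Cut.none Ext.none :=
  certFX2 (fam := false) (s1 := true) (s2 := true) (a := 1) (b := 3) (c := 3) (cn := .dn) (n1 := ndF5q1) (n2 := ndF3q3) (pc := pcF3) (cut := Cut.none) (xt := Ext.none) (P1 := 536870912) (W1 := 469762048) (P2 := 1610612736) (W2 := 536870912) (P3 := 1046898278) (W3 := 26843546)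
    rfl (fun _ => rfl) k0_pp_133

noncomputable def f_pp_202 : ℕ → ℕ → ℕ → ℕ → Bool := onCell 1073741824 536870912 1073741824 536870912 1046898278 26843546
    (rowFX 0 false true true .pp 2 0 2 (qsf 1073741824 536870912 1073741824 536870912 0) ndF5q2 ndF3q2 pcF0 Cut.none Ext.none)

def k0_pp_202 : ∃ t, chk3 f_pp_202 t 1 1 1 = true :=
  ⟨(l 3), by decide +kernel⟩

theorem c_pp_202 : CertFX 1073741824 536870912 1073741824 536870912 1046898278 26843546 false true true .pp 2 0 2
    ndF5q2 ndF3q2 pcF0 Cut.none Ext.none :=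
  certFX0 (fam := false) (s1 := true) (s2 := true) (a := 2) (b := 0) (c := 2) (cn := .pp) (n1 := ndF5q2) (n2 := ndF3q2) (pc := pcF0) (cut := Cut.none) (xt := Ext.none) (P1 := 1073741824) (W1 := 536870912) (P2 := 1073741824) (W2 := 536870912) (P3 := 1046898278) (W3 := 26843546)
    rfl k0_pp_202

noncomputable def f_pp_203 : ℕ → ℕ → ℕ → ℕ → Bool := onCell 1073741824 536870912 0 536870912 1046898278 26843546
    (rowFX 1 false true true .up 2 0 3 (qsf 1073741824 536870912 1610612736 536870912 0) ndF5q2 ndF3q3 pcF0 Cut.none Ext.none)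

def k0_pp_203 : ∃ t, chk3 f_pp_203 t 1 1 1 = true :=
  ⟨(l 3), by decide +kernel⟩

theorem c_pp_203 : CertFX 1073741824 536870912 1610612736 536870912 1046898278 26843546 false true true .up 2 0 3
    ndF5q2 ndF3q3 pcF0 Cut.none Ext.none :=
  certFX1 (fam := false) (s1 := true) (s2 := true) (a := 2) (b := 0) (c := 3) (cn := .up) (n1 := ndF5q2) (n2 := ndF3q3) (pc := pcF0) (cut := Cut.none) (xt := Ext.none) (P1 := 1073741824) (W1 := 536870912) (P2 := 1610612736) (W2 := 536870912) (P3 := 1046898278) (W3 := 26843546)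
    rfl (fun _ => rfl) k0_pp_203

noncomputable def f_pp_213 : ℕ → ℕ → ℕ → ℕ → Bool := onCell 1073741824 536870912 1610612736 536870912 1046898278 26843546
    (rowFX 0 false true true .pnn 2 1 3 (qsf 1073741824 536870912 1610612736 536870912 1) ndF5q2 ndF3q3 pcF1 Cut.none Ext.none)

def k0_pp_213 : ∃ t, chk3 f_pp_213 t 1 1 1 = true :=
  ⟨(a (b (l 3) (a (b (l 3) (b (l 3) (a (b (a (b (a (l 228336029911) (l 16026384)) (a (b (l 16123544) (l 16173320)) (l 16116424))) (b (l 3) (a (l 15990120) (l 3)))) (a (b (a (c (a (l 16183512) (l 16414408)) (l 16377288)) (c (l 16391336) (l 16189272))) (a (b (c (l 16151872) (l 16369056)) (c (l 16263024) (l 16156768))) (c (b (l 16569320) (l 16652304)) (l 16235264)))) (b (a (l 16173320) (l 15963936)) (a (c (l 16328768) (l 16391608)) (l 16151432))))) (b (l 3) (a (b (l 144046299383) (a (l 15919008) (l 15616112))) (b (l 3) (a (l 15322272) (l 15000216)))))))) (l 3))) (l 3)), by decide +kernel⟩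

theorem c_pp_213 : CertFX 1073741824 536870912 1610612736 536870912 1046898278 26843546 false true true .pnn 2 1 3
    ndF5q2 ndF3q3 pcF1 Cut.none Ext.none :=
  certFX0 (fam := false) (s1 := true) (s2 := true) (a := 2) (b := 1) (c := 3) (cn := .pnn) (n1 := ndF5q2) (n2 := ndF3q3) (pc := pcF1) (cut := Cut.none) (xt := Ext.none) (P1 := 1073741824) (W1 := 536870912) (P2 := 1610612736) (W2 := 536870912) (P3 := 1046898278) (W3 := 26843546)
    rfl k0_pp_213

noncomputable def f_pp_303 : ℕ → ℕ → ℕ → ℕ → Bool := onCell 0 1230186008 1610612736 536870912 1046898278 26843546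
    (rowFX 0 false true true .npn 3 0 3 (qsf 0 1230186008 1610612736 536870912 0) ndF5q3 ndF3q3 pcF0 Cut.none Ext.none)

def k0_pp_303 : ∃ t, chk3 f_pp_303 t 1 1 1 = true :=
  ⟨(a (l 3) (l 3)), by decide +kernel⟩

theorem c_pp_303 : CertFX 0 1230186008 1610612736 536870912 1046898278 26843546 false true true .npn 3 0 3
    ndF5q3 ndF3q3 pcF0 Cut.none Ext.none :=
  certFX0 (fam := false) (s1 := true) (s2 := true) (a := 3) (b := 0) (c := 3) (cn := .npn) (n1 := ndF5q3) (n2 := ndF3q3) (pc := pcF0) (cut := Cut.none) (xt := Ext.none) (P1 := 0) (W1 := 1230186008) (P2 := 1610612736) (W2 := 536870912) (P3 := 1046898278) (W3 := 26843546)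
    rfl k0_pp_303

noncomputable def f_pp_313 : ℕ → ℕ → ℕ → ℕ → Bool := onCell 0 1230186008 1610612736 536870912 1046898278 26843546
    (rowFX 0 false true true .dn 3 1 3 (qsf 0 1230186008 1610612736 536870912 1) ndF5q3 ndF3q3 pcF1 Cut.none Ext.none)

def k0_pp_313 : ∃ t, chk3 f_pp_313 t 1 1 1 = true :=
  ⟨(a (l 1) (l 3)), by decide +kernel⟩

theorem c_pp_313 : CertFX 0 1230186008 1610612736 536870912 1046898278 26843546 false true true .dn 3 1 3
    ndF5q3 ndF3q3 pcF1 Cut.none Ext.none :=
  certFX0 (fam := false) (s1 := true) (s2 := true) (a := 3) (b := 1) (c := 3) (cn := .dn) (n1 := ndF5q3) (n2 := ndF3q3) (pc := pcF1) (cut := Cut.none) (xt := Ext.none) (P1 := 0) (W1 := 1230186008) (P2 := 1610612736) (W2 := 536870912) (P3 := 1046898278) (W3 := 26843546)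
    rfl k0_pp_313

noncomputable def f_pm_001 : ℕ → ℕ → ℕ → ℕ → Bool := onCell 0 536870912 536870912 536870912 1046898278 26843546
    (rowFX 0 false true false .up 0 0 1 (qsf 0 536870912 536870912 536870912 0) ndF5q0 ndF3q1 pcF0 Cut.none Ext.none)

def k0_pm_001 : ∃ t, chk3 f_pm_001 t 1 1 1 = true :=
  ⟨(l 4), by decide +kernel⟩

theorem c_pm_001 : CertFX 0 536870912 536870912 536870912 1046898278 26843546 false true false .up 0 0 1
    ndF5q0 ndF3q1 pcF0 Cut.none Ext.none :=
  certFX0 (fam := false) (s1 := true) (s2 := false) (a := 0) (b := 0) (c := 1) (cn := .up) (n1 := ndF5q0) (n2 := ndF3q1) (pc := pcF0) (cut := Cut.none) (xt := Ext.none) (P1 := 0) (W1 := 536870912) (P2 := 536870912) (W2 := 536870912) (P3 := 1046898278) (W3 := 26843546)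
    rfl k0_pm_001

noncomputable def f_pm_011 : ℕ → ℕ → ℕ → ℕ → Bool := onCell 0 536870912 536870912 536870912 1046898278 26843546
    (rowFX 0 false true false .pnn 0 1 1 (qsf 0 536870912 536870912 536870912 1) ndF5q0 ndF3q1 pcF1 Cut.none Ext.none)

def k0_pm_011 : ∃ t, chk3 f_pm_011 t 1 1 1 = true :=
  ⟨(l 4), by decide +kernel⟩

theorem c_pm_011 : CertFX 0 536870912 536870912 536870912 1046898278 26843546 false true false .pnn 0 1 1
    ndF5q0 ndF3q1 pcF1 Cut.none Ext.none :=
  certFX0 (fam := false) (s1 := true) (s2 := false) (a := 0) (b := 1) (c := 1) (cn := .pnn) (n1 := ndF5q0) (n2 := ndF3q1) (pc := pcF1) (cut := Cut.none) (xt := Ext.none) (P1 := 0) (W1 := 536870912) (P2 := 536870912) (W2 := 536870912) (P3 := 1046898278) (W3 := 26843546)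
    rfl k0_pm_011

noncomputable def f_pm_012 : ℕ → ℕ → ℕ → ℕ → Bool := onCell 0 536870912 1073741824 536870912 1046898278 26843546
    (rowFX 0 false true false .pnp 0 1 2 (qsf 0 536870912 1073741824 536870912 1) ndF5q0 ndF3q2 pcF1 Cut.none Ext.none)

def k0_pm_012 : ∃ t, chk3 f_pm_012 t 1 1 1 = true :=
  ⟨(l 4), by decide +kernel⟩

theorem c_pm_012 : CertFX 0 536870912 1073741824 536870912 1046898278 26843546 false true false .pnp 0 1 2
    ndF5q0 ndF3q2 pcF1 Cut.none Ext.none :=
  certFX0 (fam := false) (s1 := true) (s2 := false) (a := 0) (b := 1) (c := 2) (cn := .pnp) (n1 := ndF5q0) (n2 := ndF3q2) (pc := pcF1) (cut := Cut.none) (xt := Ext.none) (P1 := 0) (W1 := 536870912) (P2 := 1073741824) (W2 := 536870912) (P3 := 1046898278) (W3 := 26843546)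
    rfl k0_pm_012

noncomputable def f_pm_022 : ℕ → ℕ → ℕ → ℕ → Bool := onCell 0 536870912 1073741824 536870912 1046898278 26843546
    (rowFX 0 false true false .pp 0 2 2 (qsf 0 536870912 1073741824 536870912 2) ndF5q0 ndF3q2 pcF2 Cut.none Ext.none)

def k0_pm_022 : ∃ t, chk3 f_pm_022 t 1 1 1 = true :=
  ⟨(l 4), by decide +kernel⟩

theorem c_pm_022 : CertFX 0 536870912 1073741824 536870912 1046898278 26843546 false true false .pp 0 2 2
    ndF5q0 ndF3q2 pcF2 Cut.none Ext.none :=
  certFX0 (fam := false) (s1 := true) (s2 := false) (a := 0) (b := 2) (c := 2) (cn := .pp) (n1 := ndF5q0) (n2 := ndF3q2) (pc := pcF2) (cut := Cut.none) (xt := Ext.none) (P1 := 0) (W1 := 536870912) (P2 := 1073741824) (W2 := 536870912) (P3 := 1046898278) (W3 := 26843546)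
    rfl k0_pm_022

noncomputable def f_pm_023 : ℕ → ℕ → ℕ → ℕ → Bool := onCell 0 536870912 1610612736 536870912 1046898278 26843546
    (rowFX 0 false true false .up 0 2 3 (qsf 0 536870912 1610612736 536870912 2) ndF5q0 ndF3q3 pcF2 Cut.none Ext.none)

def k0_pm_023 : ∃ t, chk3 f_pm_023 t 1 1 1 = true :=
  ⟨(l 4), by decide +kernel⟩

theorem c_pm_023 : CertFX 0 536870912 1610612736 536870912 1046898278 26843546 false true false .up 0 2 3
    ndF5q0 ndF3q3 pcF2 Cut.none Ext.none :=
  certFX0 (fam := false) (s1 := true) (s2 := false) (a := 0) (b := 2) (c := 3) (cn := .up) (n1 := ndF5q0) (n2 := ndF3q3) (pc := pcF2) (cut := Cut.none) (xt := Ext.none) (P1 := 0) (W1 := 536870912) (P2 := 1610612736) (W2 := 536870912) (P3 := 1046898278) (W3 := 26843546)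
    rfl k0_pm_023

noncomputable def f_pm_033 : ℕ → ℕ → ℕ → ℕ → Bool := onCell 0 536870912 1610612736 536870912 1046898278 26843546
    (rowFX 0 false true false .pnn 0 3 3 (qsf 0 536870912 1610612736 536870912 3) ndF5q0 ndF3q3 pcF3 Cut.none Ext.none)

def k0_pm_033 : ∃ t, chk3 f_pm_033 t 1 1 1 = true :=
  ⟨(l 4), by decide +kernel⟩

theorem c_pm_033 : CertFX 0 536870912 1610612736 536870912 1046898278 26843546 false true false .pnn 0 3 3
    ndF5q0 ndF3q3 pcF3 Cut.none Ext.none :=
  certFX0 (fam := false) (s1 := true) (s2 := false) (a := 0) (b := 3) (c := 3) (cn := .pnn) (n1 := ndF5q0) (n2 := ndF3q3) (pc := pcF3) (cut := Cut.none) (xt := Ext.none) (P1 := 0) (W1 := 536870912) (P2 := 1610612736) (W2 := 536870912) (P3 := 1046898278) (W3 := 26843546)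
    rfl k0_pm_033

noncomputable def f_pm_101 : ℕ → ℕ → ℕ → ℕ → Bool := onCell 536870912 469762048 536870912 536870912 1046898278 26843546
    (rowFX 0 false true false .npn 1 0 1 (qsf 536870912 469762048 536870912 536870912 0) ndF5q1 ndF3q1 pcF0 Cut.none Ext.none)

def k0_pm_101 : ∃ t, chk3 f_pm_101 t 1 1 1 = true :=
  ⟨(l 4), by decide +kernel⟩

theorem c_pm_101 : CertFX 536870912 469762048 536870912 536870912 1046898278 26843546 false true false .npn 1 0 1
    ndF5q1 ndF3q1 pcF0 Cut.none Ext.none :=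
  certFX0 (fam := false) (s1 := true) (s2 := false) (a := 1) (b := 0) (c := 1) (cn := .npn) (n1 := ndF5q1) (n2 := ndF3q1) (pc := pcF0) (cut := Cut.none) (xt := Ext.none) (P1 := 536870912) (W1 := 469762048) (P2 := 536870912) (W2 := 536870912) (P3 := 1046898278) (W3 := 26843546)
    rfl k0_pm_101

noncomputable def f_pm_102 : ℕ → ℕ → ℕ → ℕ → Bool := onCell 536870912 469762048 1073741824 536870912 1046898278 26843546
    (rowFX 0 false true false .npp 1 0 2 (qsf 536870912 469762048 1073741824 536870912 0) ndF5q1 ndF3q2 pcF0 Cut.none Ext.none)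

def k0_pm_102 : ∃ t, chk3 f_pm_102 t 1 1 1 = true :=
  ⟨(l 4), by decide +kernel⟩

theorem c_pm_102 : CertFX 536870912 469762048 1073741824 536870912 1046898278 26843546 false true false .npp 1 0 2
    ndF5q1 ndF3q2 pcF0 Cut.none Ext.none :=
  certFX0 (fam := false) (s1 := true) (s2 := false) (a := 1) (b := 0) (c := 2) (cn := .npp) (n1 := ndF5q1) (n2 := ndF3q2) (pc := pcF0) (cut := Cut.none) (xt := Ext.none) (P1 := 536870912) (W1 := 469762048) (P2 := 1073741824) (W2 := 536870912) (P3 := 1046898278) (W3 := 26843546)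
    rfl k0_pm_102

noncomputable def f_pm_112 : ℕ → ℕ → ℕ → ℕ → Bool := onCell 536870912 469762048 1073741824 536870912 1046898278 26843546
    (rowFX 0 false true false .dn 1 1 2 (qsf 536870912 469762048 1073741824 536870912 1) ndF5q1 ndF3q2 pcF1 Cut.none Ext.none)

def k0_pm_112 : ∃ t, chk3 f_pm_112 t 1 1 1 = true :=
  ⟨(l 4), by decide +kernel⟩

theorem c_pm_112 : CertFX 536870912 469762048 1073741824 536870912 1046898278 26843546 false true false .dn 1 1 2
    ndF5q1 ndF3q2 pcF1 Cut.none Ext.none :=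
  certFX0 (fam := false) (s1 := true) (s2 := false) (a := 1) (b := 1) (c := 2) (cn := .dn) (n1 := ndF5q1) (n2 := ndF3q2) (pc := pcF1) (cut := Cut.none) (xt := Ext.none) (P1 := 536870912) (W1 := 469762048) (P2 := 1073741824) (W2 := 536870912) (P3 := 1046898278) (W3 := 26843546)
    rfl k0_pm_112

noncomputable def f_pm_113 : ℕ → ℕ → ℕ → ℕ → Bool := onCell 536870912 469762048 536870912 536870912 1046898278 26843546
    (rowFX 1 false true false .nn 1 1 3 (qsf 536870912 469762048 1610612736 536870912 1) ndF5q1 ndF3q3 pcF1 Cut.none Ext.none)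

def k0_pm_113 : ∃ t, chk3 f_pm_113 t 1 1 1 = true :=
  ⟨(l 4), by decide +kernel⟩

theorem c_pm_113 : CertFX 536870912 469762048 1610612736 536870912 1046898278 26843546 false true false .nn 1 1 3
    ndF5q1 ndF3q3 pcF1 Cut.none Ext.none :=
  certFX1 (fam := false) (s1 := true) (s2 := false) (a := 1) (b := 1) (c := 3) (cn := .nn) (n1 := ndF5q1) (n2 := ndF3q3) (pc := pcF1) (cut := Cut.none) (xt := Ext.none) (P1 := 536870912) (W1 := 469762048) (P2 := 1610612736) (W2 := 536870912) (P3 := 1046898278) (W3 := 26843546)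
    rfl (fun _ => rfl) k0_pm_113

noncomputable def f_pm_123 : ℕ → ℕ → ℕ → ℕ → Bool := onCell 536870912 469762048 1610612736 536870912 1046898278 26843546
    (rowFX 0 false true false .npn 1 2 3 (qsf 536870912 469762048 1610612736 536870912 2) ndF5q1 ndF3q3 pcF2 Cut.none Ext.none)

def k0_pm_123 : ∃ t, chk3 f_pm_123 t 1 1 1 = true :=
  ⟨(b (l 4) (l 4)), by decide +kernel⟩

theorem c_pm_123 : CertFX 536870912 469762048 1610612736 536870912 1046898278 26843546 false true false .npn 1 2 3
    ndF5q1 ndF3q3 pcF2 Cut.none Ext.none :=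
  certFX0 (fam := false) (s1 := true) (s2 := false) (a := 1) (b := 2) (c := 3) (cn := .npn) (n1 := ndF5q1) (n2 := ndF3q3) (pc := pcF2) (cut := Cut.none) (xt := Ext.none) (P1 := 536870912) (W1 := 469762048) (P2 := 1610612736) (W2 := 536870912) (P3 := 1046898278) (W3 := 26843546)
    rfl k0_pm_123

noncomputable def f_pm_133 : ℕ → ℕ → ℕ → ℕ → Bool := onCell 536870912 469762048 1610612736 536870912 1046898278 26843546
    (rowFX 0 false true false .dn 1 3 3 (qsf 536870912 469762048 1610612736 536870912 3) ndF5q1 ndF3q3 pcF3 Cut.none Ext.none)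

def k0_pm_133 : ∃ t, chk3 f_pm_133 t 1 1 1 = true :=
  ⟨(b (l 1) (l 4)), by decide +kernel⟩

theorem c_pm_133 : CertFX 536870912 469762048 1610612736 536870912 1046898278 26843546 false true false .dn 1 3 3
    ndF5q1 ndF3q3 pcF3 Cut.none Ext.none :=
  certFX0 (fam := false) (s1 := true) (s2 := false) (a := 1) (b := 3) (c := 3) (cn := .dn) (n1 := ndF5q1) (n2 := ndF3q3) (pc := pcF3) (cut := Cut.none) (xt := Ext.none) (P1 := 536870912) (W1 := 469762048) (P2 := 1610612736) (W2 := 536870912) (P3 := 1046898278) (W3 := 26843546)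
    rfl k0_pm_133

noncomputable def f_pm_202 : ℕ → ℕ → ℕ → ℕ → Bool := onCell 1073741824 536870912 0 536870912 1046898278 26843546
    (rowFX 1 false true false .pp 2 0 2 (qsf 1073741824 536870912 1073741824 536870912 0) ndF5q2 ndF3q2 pcF0 Cut.none Ext.none)

def k0_pm_202 : ∃ t, chk3 f_pm_202 t 8 8 1 = true :=
  ⟨(a (b (b (c (b (a (c (l 16449704) (l 16397624)) (l 16431104)) (b (c (a (l 16427640) (l 16621936)) (l 16346680)) (c (l 16388088) (l 16349376)))) (b (c (b (a (l 16504984) (l 16656184)) (a (c (l 16504376) (l 16465048)) (l 16659680))) (b (c (a (l 16376880) (l 16671000)) (c (a (l 16447800) (l 16673248)) (l 16397600))) (a (l 16415992) (l 16662536)))) (c (a (l 16340408) (l 16639120)) (l 16472112)))) (c (b (a (c (l 16391104) (l 16436744)) (l 16431944)) (b (l 16259328) (l 16286536))) (b (a (l 16500792) (l 16659360)) (a (l 16541904) (l 16649088))))) (b (b (c (a (a (l 16324752) (l 16463376)) (l 16405280)) (l 16439120)) (c (c (l 16405464) (l 16415880)) (l 16548040))) (c (a (b (l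 16350656) (l 16389016)) (c (l 16385296) (l 16599080))) (l 16472736)))) (b (b (c (b (a (l 16640600) (l 16418992)) (c (a (l 16574344) (l 16310512)) (b (l 16441568) (l 16506608)))) (b (c (b (l 16534592) (l 16422032)) (b (c (l 16528112) (l 16419032)) (l 16484480))) (c (l 16422256) (l 16459152)))) (c (b (a (l 16495088) (l 16352392)) (c (a (l 16493808) (l 16370664)) (l 16422040))) (b (l 16306624) (a (l 16451976) (l 16284608))))) (b (c (c (a (l 16526928) (l 16251672)) (a (l 16478832) (l 16201576))) (a (l 16457904) (l 16175864))) (c (c (b (l 16066872) (l 15943608)) (l 16077432)) (l 15983048))))), by decide +kernel⟩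

def k1_pm_202 : ∃ t, chk3 f_pm_202 t 8 9 1 = true :=
  ⟨(b (b (c (a (b (l 16434784) (l 16375264)) (b (l 15965776) (l 15799376))) (a (a (l 16727896) (l 16392648)) (l 15938304))) (a (a (c (c (l 16318544) (l 16481480)) (l 16555056)) (b (l 16106400) (l 16138176))) (c (a (l 15871048) (b (l 15681248) (l 15586856))) (l 15632504)))) (b (c (a (b (c (l 16082304) (l 16016560)) (l 16003192)) (b (a (l 15766184) (c (l 15557488) (l 15535896))) (a (l 15698104) (l 15583152)))) (a (b (l 16033496) (l 16142832)) (b (a (l 15748960) (l 15521240)) (l 15540848)))) (b (a (c (l 15964496) (l 16053960)) (c (a (l 15685328) (l 15649856)) (l 15644240))) (a (a (l 16134816) (l 15834576)) (l 15713952))))), by decide +kernel⟩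

def k2_pm_202 : ∃ t, chk3 f_pm_202 t 8 5 1 = true :=
  ⟨(b (b (a (b (a (l 16023760) (l 15847032)) (a (l 15993952) (l 15960408))) (l 15802552)) (a (l 16151040) (b (a (l 16072760) (l 16015424)) (a (l 16132992) (l 15972752))))) (b (a (b (a (l 16318888) (l 16250480)) (a (l 16368672) (l 16198352))) (c (l 15934240) (l 15913240))) (a (l 16184264) (l 15812448)))), by decide +kernel⟩

def k3_pm_202 : ∃ t, chk3 f_pm_202 t 9 2 1 = true :=
  ⟨(b (a (b (b (b (c (b (l 16006352) (c (l 15814424) (l 15885760))) (b (c (l 15860160) (b (l 15881728) (l 16048272))) (c (l 16026872) (l 15996240)))) (c (b (b (l 15939112) (c (c (l 15969808) (l 15922608)) (l 15985912))) (c (b (l 15849216) (l 15946504)) (l 15905072))) (c (b (l 15889104) (l 15859424)) (l 15776320)))) (b (c (c (l 15805296) (l 15688696)) (l 15718120)) (c (b (l 15616816) (c (l 15533512) (l 15513640))) (l 15537976)))) (b (c (b (b (a (l 15564216) (l 15354736)) (a (l 15500088) (l 15392744))) (a (b (l 15462936) (l 15473608)) (l 15457816))) (b (l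 15209400) (l 15443608))) (b (c (b (l 15533568) (l 15591328)) (l 15534704)) (l 15687680)))) (b (b (b (b (c (l 15544168) (c (l 15472056) (b (l 15282392) (l 15479048)))) (c (b (l 15473456) (c (l 15448072) (l 15464472))) (c (b (l 15470400) (l 15434592)) (l 15413696)))) (c (b (c (b (l 15449136) (l 15437272)) (l 15307592)) (c (l 15389328) (l 15322664))) (b (l 15194320) (l 15260872)))) (c (b (c (a (l 15373384) (l 15231976)) (a (l 15316256) (l 15174568))) (b (c (l 15279432) (l 15243520)) (l 15297344))) (b (a (l 15275224) (l 15131536)) (l 15245544)))) (b (c (b (c (l 15395984) (l 15381952)) (b (l 15461616) (l 15514544))) (b (l 15351648) (l 15463680))) (b (b (c (a (l 15551264) (l 15544248)) (l 15519688)) (l 15567224)) (a (l 15650392) (l 15514288)))))) (b (b (a (b (a (l 15817248) (l 15771928)) (a (l 15895776) (l 15747680))) (b (l 15533048) (l 15455608))) (a (c (l 15723016) (l 15697960)) (l 15322856))) (b (a (l 15516552) (l 15144432)) (l 15227048)))), by decide +kernel⟩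

def k4_pm_202 : ∃ t, chk3 f_pm_202 t 20 4 1 = true :=
  ⟨(b (b (b (c (b (a (l 15117272) (a (l 15109408) (l 15201448))) (a (b (b (l 15052288) (c (l 15038976) (l 15044352))) (c (l 15046352) (l 15055872))) (b (c (l 15239040) (l 15257200)) (c (l 15314888) (l 15327168))))) (b (a (c (l 15079328) (l 14949048)) (a (b (l 15052960) (l 15040688)) (b (l 15300528) (c (l 15353600) (l 15338768))))) (a (c (b (l 15040416) (l 15021552)) (l 14993304)) (c (l 15125104) (l 15235440))))) (c (a (b (c (b (l 15082296) (l 15120336)) (l 15075112)) (l 15133736)) (b (c (l 15422456) (l 15396688)) (l 15485552))) (a (b (l 14999800) (l 15034592)) (l 15366632)))) (c (b (a (l 15211360) (l 15496872)) (a (c (l 15295992) (l 15297192)) (b (l 15629544) (l 15457840)))) (a (b (l 15139856) (l 15271400)) (b (l 15499688) (l 15624000))))) (b (c (b (a (c (l 15422296) (l 15411880)) (c (l 15456736) (l 15703280))) (a (b (l 15474616) (l 15477656)) (l 15659056))) (a (b (l 15387952) (l 15441144)) (b (l 15689136) (l 15636264)))) (c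 (a (l 15383904) (l 15524120)) (a (l 15351672) (l 15495832))))), by decide +kernel⟩

def k5_pm_202 : ∃ t, chk3 f_pm_202 t 21 4 1 = true :=
  ⟨(b (b (b (c (b (a (c (l 15834848) (l 15772456)) (c (l 16411680) (l 16358840))) (c (b (a (l 15866144) (l 16380272)) (a (l 15919264) (l 16406216))) (b (a (l 15871424) (l 16445952)) (a (l 15939088) (l 16362304))))) (b (c (b (a (l 15780448) (l 16378744)) (a (l 15589088) (l 16269904))) (b (c (a (l 15706048) (l 16269368)) (a (b (l 15749968) (l 15773728)) (b (l 16214568) (l 16382528)))) (a (l 15727592) (l 16333544)))) (c (a (l 15789752) (l 16406856)) (a (l 15867664) (l 16434104))))) (c (b (a (c (l 15832920) (l 16005144)) (c (l 16047176) (l 16290352))) (a (l 16001416) (l 16043968))) (a (l 15820320) (l 16316456)))) (c (b (a (l 15924224) (c (l 16159528) (l 16229560))) (a (c (b (l 16079728) (l 16002440)) (l 16158592)) (b (l 16150896) (l 16219416)))) (b (a (l 16113784) (l 16243672)) (a (l 16187376) (l 16274240))))) (b (c (b (a (l 15913736) (l 16180728))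 (a (l 16048920) (l 16421168))) (b (l 16164688) (l 16190152))) (b (c (l 16021824) (l 16137088)) (l 16011304)))), by decide +kernel⟩

def k6_pm_202 : ∃ t, chk3 f_pm_202 t 11 4 1 = true :=
  ⟨(b (a (b (b (b (c (a (l 15673512) (l 15059744)) (c (b (l 15577848) (c (l 15416880) (l 15420984))) (b (c (l 15343192) (b (l 15348384) (l 15580952))) (a (l 15856816) (l 15267248))))) (c (c (b (a (l 15849808) (l 15336264)) (a (l 15815144) (l 15317272))) (b (a (l 15839104) (l 15295640)) (l 15277952))) (c (a (l 15793552) (l 15264888)) (l 15545672)))) (c (c (b (a (l 15560352) (l 15269808)) (l 15374664)) (a (l 15599800) (l 15304920))) (a (l 15761152) (l 15330712)))) (c (b (c (l 15455592) (l 15575416)) (b (l 15604536) (l 15582064))) (b (l 15631072) (l 15747760)))) (b (b (c (b (c (l 15010248) (l 15004128)) (c (b (l 15087848) (l 15088568)) (l 15039120))) (b (c (b (l 14973688) (l 14999368)) (b (l 14852696) (l 14974600))) (c (l 15013352) (l 15019768)))) (c (b (c (l 15051336) (l 15044392)) (l 15099736)) (l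 15106984))) (c (b (l 15132192) (c (l 15396048) (l 15393800))) (b (l 15237160) (l 15362080))))) (b (c (a (b (b (l 15826064) (l 15941480)) (l 16034104)) (b (l 15583792) (l 15709952))) (a (b (l 15874616) (l 16017888)) (b (l 15547160) (l 15682136)))) (a (b (b (l 16138232) (l 16189712)) (l 16255864)) (c (l 15819488) (l 15902200))))), by decide +kernel⟩

def k7_pm_202 : ∃ t, chk3 f_pm_202 t 5 5 1 = true :=
  ⟨(b (a (a (b (a (l 15220952) (l 15367984)) (a (l 15058992) (l 15213104))) (b (a (l 15776000) (l 16166224)) (l 15829712))) (a (b (l 16340864) (l 16481032)) (b (l 16114976) (l 16363400)))) (a (a (b (a (l 14889784) (l 15051256)) (a (l 14801640) (l 14967608))) (b (l 15679232) (l 15602472))) (b (a (l 16368464) (c (l 16633408) (l 16629680))) (a (b (l 16343344) (l 16238296)) (c (l 16774784) (l 16774728)))))), by decide +kernel⟩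

def k8_pm_202 : ∃ t, chk3 f_pm_202 t 2 3 1 = true :=
  ⟨(a (b (a (b (l 15899696) (l 15962608)) (b (l 15226904) (l 15226904))) (a (a (l 16247152) (l 15812288)) (c (b (b (l 15246776) (l 15246776)) (c (l 15235744) (l 15236840))) (b (l 15207024) (l 15207024))))) (b (a (a (a (l 14801512) (b (l 14967488) (b (l 14967488) (l 14967488)))) (c (b (b (l 15617424) (l 15617424)) (l 15512568)) (b (l 15587304) (l 15587304)))) (b (a (b (a (l 16133328) (l 16527352)) (l 72040036023)) (c (l 16776672) (l 16776656))) (a (b (l 16280240) (l 2)) (l 2)))) (a (b (a (c (a (l 14826840) (l 2)) (l 14861016)) (l 2)) (l 2)) (l 2)))), by decide +kernel⟩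

def k9_pm_202 : ∃ t, chk3 f_pm_202 t 6 2 1 = true :=
  ⟨(a (b (b (b (c (c (b (b (l 14924504) (a (l 15044072) (b (l 14964040) (l 14976744)))) (b (l 14971856) (l 15041472))) (b (b (l 14940848) (b (l 14980656) (l 14946640))) (l 15018640))) (b (b (c (l 14835576) (c (l 14907648) (l 14901248))) (c (l 14949976) (l 14956600))) (l 15025464))) (c (b (c (l 15130888) (l 15205464)) (c (l 15326608) (l 15338584))) (b (l 15184656) (a (l 15355880) (l 15296008))))) (b (c (b (l 15511776) (l 15701496)) (b (l 15477584) (l 15673448))) (b (c (l 15807016) (l 15781800)) (l 15916416)))) (b (b (c (l 16096584) (l 16078912)) (l 16224016)) (a (b (l 16573856) (l 16768344)) (b (l 16589568) (l 16762416))))) (b (b (b (c (b (b (a (l 14856504) (c (l 14822208) (l 14756472))) (c (a (l 14723192) (b (l 14849968) (l 14863920))) (c (a (l 14911008) (l 14839536)) (b (l 14805088) (l 14855576))))) (b (c (a (l 14942288) (l 14907752)) (l 14901568)) (l 14778288))) (b (b (c (a (l 14731976) (c (l 14780672) (l 14646136))) (b (c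 (l 14790384) (l 14789272)) (l 14801360))) (c (a (l 14877248) (l 14831448)) (l 14839600))) (c (a (l 14970640) (l 14947960)) (l 14833120)))) (c (b (c (l 15114736) (a (l 15156984) (l 15105544))) (c (b (l 15245264) (l 15312368)) (l 15282536))) (b (a (l 15138248) (l 15089336)) (a (l 15253312) (l 15236240))))) (b (c (b (a (l 15431064) (l 15400568)) (l 15477976)) (b (a (l 15394816) (l 15364008)) (l 287927754615))) (a (c (l 247662864711) (b (l 15759200) (l 15871336))) (c (l 321751049799) (l 299202422247))))) (b (c (b (l 16085344) (l 16347808)) (b (l 289539407047) (l 16315680))) (b (a (l 16576232) (l 2)) (l 2))))), by decide +kernel⟩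

def k10_pm_202 : ∃ t, chk3 f_pm_202 t 7 2 1 = true :=
  ⟨(b (a (a (b (b (b (c (b (b (l 14771824) (l 331412658167)) (l 14830560)) (b (c (b (l 14734064) (a (l 14696944) (l 14755752))) (b (c (l 14715328) (l 298126486279)) (l 14749536))) (c (l 14814664) (l 14809176)))) (c (l 327117974871) (c (l 310474978839) (l 14925160)))) (c (b (c (l 15076080) (l 15087512)) (l 3)) (l 301885453607))) (l 3)) (l 3)) (l 3)) (l 3)), by decide +kernel⟩

def k11_pm_202 : ∃ t, chk3 f_pm_202 t 3 3 1 = true :=
  ⟨(a (b (b (b (l 340476821511) (l 2)) (l 2)) (l 2)) (l 2)), by decide +kernel⟩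

theorem s12_pm_202 : ∃ t, chk3 f_pm_202 t 3 2 1 = true := ex3_a k9_pm_202 k10_pm_202

theorem s13_pm_202 : ∃ t, chk3 f_pm_202 t 3 1 1 = true := ex3_b s12_pm_202 k11_pm_202

theorem s14_pm_202 : ∃ t, chk3 f_pm_202 t 10 4 1 = true := ex3_a k4_pm_202 k5_pm_202

theorem s15_pm_202 : ∃ t, chk3 f_pm_202 t 5 4 1 = true := ex3_a s14_pm_202 k6_pm_202

theorem s16_pm_202 : ∃ t, chk3 f_pm_202 t 5 2 1 = true := ex3_b s15_pm_202 k7_pm_202

theorem s17_pm_202 : ∃ t, chk3 f_pm_202 t 8 4 1 = true := ex3_b k0_pm_202 k1_pm_202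

theorem s18_pm_202 : ∃ t, chk3 f_pm_202 t 8 2 1 = true := ex3_b s17_pm_202 k2_pm_202

theorem s19_pm_202 : ∃ t, chk3 f_pm_202 t 4 2 1 = true := ex3_a s18_pm_202 k3_pm_202

theorem s20_pm_202 : ∃ t, chk3 f_pm_202 t 2 2 1 = true := ex3_a s19_pm_202 s16_pm_202

theorem s21_pm_202 : ∃ t, chk3 f_pm_202 t 2 1 1 = true := ex3_b s20_pm_202 k8_pm_202

theorem s22_pm_202 : ∃ t, chk3 f_pm_202 t 1 1 1 = true := ex3_a s21_pm_202 s13_pm_202

theorem c_pm_202 : CertFX 1073741824 536870912 1073741824 536870912 1046898278 26843546 false true false .pp 2 0 2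
    ndF5q2 ndF3q2 pcF0 Cut.none Ext.none :=
  certFX1 (fam := false) (s1 := true) (s2 := false) (a := 2) (b := 0) (c := 2) (cn := .pp) (n1 := ndF5q2) (n2 := ndF3q2) (pc := pcF0) (cut := Cut.none) (xt := Ext.none) (P1 := 1073741824) (W1 := 536870912) (P2 := 1073741824) (W2 := 536870912) (P3 := 1046898278) (W3 := 26843546)
    rfl (fun _ => rfl) s22_pm_202

noncomputable def f_pm_203 : ℕ → ℕ → ℕ → ℕ → Bool := onCell 1073741824 536870912 1610612736 536870912 1046898278 26843546
    (rowFX 0 false true false .up 2 0 3 (qsf 1073741824 536870912 1610612736 536870912 0) ndF5q2 ndF3q3 pcF0 Cut.none Ext.none)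

def k0_pm_203 : ∃ t, chk3 f_pm_203 t 1 1 1 = true :=
  ⟨(a (b (a (b (a (b (l 15983576) (l 15983576)) (b (a (l 15412808) (b (l 15049472) (c (l 15071624) (l 15027320)))) (c (c (a (l 15439048) (l 15082696)) (a (l 15421552) (l 15060544))) (a (l 15395320) (l 15027320))))) (a (l 2) (a (l 2) (b (c (l 15071624) (l 15027320)) (l 2))))) (a (b (b (a (c (a (l 14826840) (l 14990696)) (a (l 14776184) (l 14944288))) (c (c (l 15624960) (l 15609896)) (l 15587304))) (a (c (a (l 14826840) (l 14990696)) (a (l 14776184) (l 14944288))) (c (l 15470624) (l 15587304)))) (b (a (c (a (l 14826840) (l 14990696)) (a (l 14776184) (l 14944288))) (c (l 15491600) (l 15587304))) (a (l 2) (c (l 15512568) (l 15587304))))) (b (b (a (c (a (l 16203696) (l 16571960)) (l 16296184)) (c (l 16776672) (l 16776656))) (a (c (l 16264296) (l 16359096)) (c (l 16776672) (l 16776656)))) (a (b (c (l 16264296) (l 16359096)) (c (l 16243320) (l 16338128))) (c (b (l 16776672) (l 16776672)) (b (l 16776656) (l 16776656))))))) (a (l 2) (b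 (a (l 2) (a (l 2) (l 3))) (l 2)))) (b (a (a (b (b (b (a (c (l 16772264) (l 16772136)) (a (l 16725944) (l 16637016))) (a (l 16777216) (l 16769512))) (a (c (l 16777216) (l 16777216)) (l 16777216))) (b (c (l 16777216) (l 16777216)) (l 3))) (b (b (a (b (l 16268216) (l 3)) (l 3)) (l 3)) (l 3))) (b (l 3) (l 3))) (b (l 3) (l 3)))), by decide +kernel⟩

theorem c_pm_203 : CertFX 1073741824 536870912 1610612736 536870912 1046898278 26843546 false true false .up 2 0 3
    ndF5q2 ndF3q3 pcF0 Cut.none Ext.none :=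
  certFX0 (fam := false) (s1 := true) (s2 := false) (a := 2) (b := 0) (c := 3) (cn := .up) (n1 := ndF5q2) (n2 := ndF3q3) (pc := pcF0) (cut := Cut.none) (xt := Ext.none) (P1 := 1073741824) (W1 := 536870912) (P2 := 1610612736) (W2 := 536870912) (P3 := 1046898278) (W3 := 26843546)
    rfl k0_pm_203

noncomputable def f_pm_213 : ℕ → ℕ → ℕ → ℕ → Bool := onCell 1073741824 536870912 536870912 536870912 1046898278 26843546
    (rowFX 1 false true false .pnn 2 1 3 (qsf 1073741824 536870912 1610612736 536870912 1) ndF5q2 ndF3q3 pcF1 Cut.none Ext.none)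

def k0_pm_213 : ∃ t, chk3 f_pm_213 t 2 2 1 = true :=
  ⟨(a (b (b (a (l 16025520) (c (b (l 15246776) (l 15246776)) (l 15207024))) (a (a (l 16247152) (c (b (l 15824656) (l 15824656)) (l 15799912))) (c (b (l 15246776) (l 15246776)) (l 15207024)))) (b (a (c (a (l 16253952) (l 15824656)) (l 15890056)) (c (l 15246784) (l 15207032))) (a (a (l 16226184) (l 15812296)) (c (l 15246816) (l 15207072))))) (b (b (a (a (c (a (l 14826840) (l 14990696)) (l 14861016)) (c (l 15617424) (l 15587304))) (a (c (l 16285264) (l 16359096)) (l 3))) (a (a (c (a (l 14826840) (l 14990696)) (l 14798104)) (c (l 15596464) (l 15587312))) (a (c (l 16369184) (l 16380104)) (l 3)))) (a (b (a (a (l 14801536) (l 14967528)) (c (l 15617472) (l 15587352))) (a (a (l 14801552) (l 14970408)) (b (l 15606160) (l 15624736)))) (b (l 3) (l 3))))), by decide +kernel⟩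

def k1_pm_213 : ∃ t, chk3 f_pm_213 t 2 3 1 = true :=
  ⟨(a (b (b (a (b (a (l 16247176) (l 15812336)) (l 15904024)) (b (a (l 15412864) (l 15053176)) (a (l 15417016) (l 15070792)))) (a (b (a (l 16262880) (l 15821496)) (a (b (l 16268152) (l 16243976)) (b (l 15827944) (l 15834904)))) (b (a (l 15433672) (l 15078544)) (a (b (l 15443816) (l 15448440)) (b (l 15067064) (a (l 15154320) (l 14986560))))))) (b (a (b (a (l 16184800) (l 15851744)) (a (l 16155256) (b (l 15942248) (l 16072312)))) (a (b (b (l 15497024) (l 15587840)) (b (l 15667376) (l 15734232))) (b (a (b (l 15251960) (l 15370936)) (l 439324399559)) (b (l 15390952) (l 2))))) (a (b (b (a (l 16216272) (a (l 16291568) (l 16276432))) (a (b (l 16289448) (l 16278816)) (a (l 16237192) (l 16377208)))) (a (b (c (a (l 16367600) (l 16530104)) (l 16344056)) (c (a (l 16332728) (l 16527400)) (a (l 16188232) (l 16279448)))) (b (c (l 562740485271) (l 16359824)) (l 2)))) (b (a (b (l 15717816) (l 2)) (l 2)) (l 2))))) (b (a (b (a (a (b (l 14812432)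 (l 14837192)) (b (l 14993272) (l 3))) (l 3)) (a (a (b (l 255713914151) (l 3)) (l 3)) (l 3))) (l 3)) (a (b (a (l 3) (l 2)) (l 2)) (l 2)))), by decide +kernel⟩

def k2_pm_213 : ∃ t, chk3 f_pm_213 t 3 1 1 = true :=
  ⟨(b (a (b (l 3) (l 3)) (b (l 3) (a (b (l 3) (l 2)) (l 2)))) (a (b (a (b (l 3) (l 2)) (l 2)) (l 2)) (l 2))), by decide +kernel⟩

theorem s3_pm_213 : ∃ t, chk3 f_pm_213 t 2 1 1 = true := ex3_b k0_pm_213 k1_pm_213

theorem s4_pm_213 : ∃ t, chk3 f_pm_213 t 1 1 1 = true := ex3_a s3_pm_213 k2_pm_213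

theorem c_pm_213 : CertFX 1073741824 536870912 1610612736 536870912 1046898278 26843546 false true false .pnn 2 1 3
    ndF5q2 ndF3q3 pcF1 Cut.none Ext.none :=
  certFX1 (fam := false) (s1 := true) (s2 := false) (a := 2) (b := 1) (c := 3) (cn := .pnn) (n1 := ndF5q2) (n2 := ndF3q3) (pc := pcF1) (cut := Cut.none) (xt := Ext.none) (P1 := 1073741824) (W1 := 536870912) (P2 := 1610612736) (W2 := 536870912) (P3 := 1046898278) (W3 := 26843546)
    rfl (fun _ => rfl) s4_pm_213

noncomputable def f_pm_303 : ℕ → ℕ → ℕ → ℕ → Bool := onCell 0 1230186008 1610612736 536870912 1046898278 26843546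
    (rowFX 0 false true false .npn 3 0 3 (qsf 0 1230186008 1610612736 536870912 0) ndF5q3 ndF3q3 pcF0 Cut.none Ext.none)

def k0_pm_303 : ∃ t, chk3 f_pm_303 t 1 1 1 = true :=
  ⟨(a (l 3) (a (l 3) (b (l 3) (l 3)))), by decide +kernel⟩

theorem c_pm_303 : CertFX 0 1230186008 1610612736 536870912 1046898278 26843546 false true false .npn 3 0 3
    ndF5q3 ndF3q3 pcF0 Cut.none Ext.none :=
  certFX0 (fam := false) (s1 := true) (s2 := false) (a := 3) (b := 0) (c := 3) (cn := .npn) (n1 := ndF5q3) (n2 := ndF3q3) (pc := pcF0) (cut := Cut.none) (xt := Ext.none) (P1 := 0) (W1 := 1230186008) (P2 := 1610612736) (W2 := 536870912) (P3 := 1046898278) (W3 := 26843546)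
    rfl k0_pm_303

noncomputable def f_pm_313 : ℕ → ℕ → ℕ → ℕ → Bool := onCell 0 1230186008 1610612736 536870912 1046898278 26843546
    (rowFX 0 false true false .dn 3 1 3 (qsf 0 1230186008 1610612736 536870912 1) ndF5q3 ndF3q3 pcF1 Cut.none Ext.none)

def k0_pm_313 : ∃ t, chk3 f_pm_313 t 1 1 1 = true :=
  ⟨(a (l 1) (b (l 1) (l 3))), by decide +kernel⟩

theorem c_pm_313 : CertFX 0 1230186008 1610612736 536870912 1046898278 26843546 false true false .dn 3 1 3
    ndF5q3 ndF3q3 pcF1 Cut.none Ext.none :=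
  certFX0 (fam := false) (s1 := true) (s2 := false) (a := 3) (b := 1) (c := 3) (cn := .dn) (n1 := ndF5q3) (n2 := ndF3q3) (pc := pcF1) (cut := Cut.none) (xt := Ext.none) (P1 := 0) (W1 := 1230186008) (P2 := 1610612736) (W2 := 536870912) (P3 := 1046898278) (W3 := 26843546)
    rfl k0_pm_313

noncomputable def f_mm_001 : ℕ → ℕ → ℕ → ℕ → Bool := onCell 0 536870912 0 536870912 1046898278 26843546
    (rowFX 1 false false false .up 0 0 1 (qsf 0 536870912 536870912 536870912 0) ndF5q0 ndF3q1 pcF0 Cut.none Ext.none)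

def k0_mm_001 : ∃ t, chk3 f_mm_001 t 1 1 1 = true :=
  ⟨(l 3), by decide +kernel⟩

theorem c_mm_001 : CertFX 0 536870912 536870912 536870912 1046898278 26843546 false false false .up 0 0 1
    ndF5q0 ndF3q1 pcF0 Cut.none Ext.none :=
  certFX1 (fam := false) (s1 := false) (s2 := false) (a := 0) (b := 0) (c := 1) (cn := .up) (n1 := ndF5q0) (n2 := ndF3q1) (pc := pcF0) (cut := Cut.none) (xt := Ext.none) (P1 := 0) (W1 := 536870912) (P2 := 536870912) (W2 := 536870912) (P3 := 1046898278) (W3 := 26843546)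
    rfl (fun _ => rfl) k0_mm_001

noncomputable def f_mm_011 : ℕ → ℕ → ℕ → ℕ → Bool := onCell 0 536870912 536870912 536870912 1046898278 26843546
    (rowFX 1 false false false .pnn 0 1 1 (qsf 0 536870912 536870912 536870912 1) ndF5q0 ndF3q1 pcF1 Cut.none Ext.none)

def k0_mm_011 : ∃ t, chk3 f_mm_011 t 1 1 1 = true :=
  ⟨(l 3), by decide +kernel⟩

theorem c_mm_011 : CertFX 0 536870912 536870912 536870912 1046898278 26843546 false false false .pnn 0 1 1
    ndF5q0 ndF3q1 pcF1 Cut.none Ext.none :=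
  certFX1 (fam := false) (s1 := false) (s2 := false) (a := 0) (b := 1) (c := 1) (cn := .pnn) (n1 := ndF5q0) (n2 := ndF3q1) (pc := pcF1) (cut := Cut.none) (xt := Ext.none) (P1 := 0) (W1 := 536870912) (P2 := 536870912) (W2 := 536870912) (P3 := 1046898278) (W3 := 26843546)
    rfl (fun _ => rfl) k0_mm_011

noncomputable def f_mm_012 : ℕ → ℕ → ℕ → ℕ → Bool := onCell 0 536870912 1073741824 536870912 1046898278 26843546
    (rowFX 0 false false false .pnp 0 1 2 (qsf 0 536870912 1073741824 536870912 1) ndF5q0 ndF3q2 pcF1 Cut.none Ext.none)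

def k0_mm_012 : ∃ t, chk3 f_mm_012 t 1 1 1 = true :=
  ⟨(l 5), by decide +kernel⟩

theorem c_mm_012 : CertFX 0 536870912 1073741824 536870912 1046898278 26843546 false false false .pnp 0 1 2
    ndF5q0 ndF3q2 pcF1 Cut.none Ext.none :=
  certFX0 (fam := false) (s1 := false) (s2 := false) (a := 0) (b := 1) (c := 2) (cn := .pnp) (n1 := ndF5q0) (n2 := ndF3q2) (pc := pcF1) (cut := Cut.none) (xt := Ext.none) (P1 := 0) (W1 := 536870912) (P2 := 1073741824) (W2 := 536870912) (P3 := 1046898278) (W3 := 26843546)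
    rfl k0_mm_012

noncomputable def f_mm_022 : ℕ → ℕ → ℕ → ℕ → Bool := onCell 0 536870912 1073741824 536870912 1046898278 26843546
    (rowFX 0 false false false .pp 0 2 2 (qsf 0 536870912 1073741824 536870912 2) ndF5q0 ndF3q2 pcF2 Cut.none Ext.none)

def k0_mm_022 : ∃ t, chk3 f_mm_022 t 1 1 1 = true :=
  ⟨(l 5), by decide +kernel⟩

theorem c_mm_022 : CertFX 0 536870912 1073741824 536870912 1046898278 26843546 false false false .pp 0 2 2
    ndF5q0 ndF3q2 pcF2 Cut.none Ext.none :=
  certFX0 (fam := false) (s1 := false) (s2 := false) (a := 0) (b := 2) (c := 2) (cn := .pp) (n1 := ndF5q0) (n2 := ndF3q2) (pc := pcF2) (cut := Cut.none) (xt := Ext.none) (P1 := 0) (W1 := 536870912) (P2 := 1073741824) (W2 := 536870912) (P3 := 1046898278) (W3 := 26843546)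
    rfl k0_mm_022

noncomputable def f_mm_023 : ℕ → ℕ → ℕ → ℕ → Bool := onCell 0 536870912 1610612736 536870912 1046898278 26843546
    (rowFX 0 false false false .up 0 2 3 (qsf 0 536870912 1610612736 536870912 2) ndF5q0 ndF3q3 pcF2 Cut.none Ext.none)

def k0_mm_023 : ∃ t, chk3 f_mm_023 t 1 1 1 = true :=
  ⟨(l 5), by decide +kernel⟩

theorem c_mm_023 : CertFX 0 536870912 1610612736 536870912 1046898278 26843546 false false false .up 0 2 3
    ndF5q0 ndF3q3 pcF2 Cut.none Ext.none :=
  certFX0 (fam := false) (s1 := false) (s2 := false) (a := 0) (b := 2) (c := 3) (cn := .up) (n1 := ndF5q0) (n2 := ndF3q3) (pc := pcF2) (cut := Cut.none) (xt := Ext.none) (P1 := 0) (W1 := 536870912) (P2 := 1610612736) (W2 := 536870912) (P3 := 1046898278) (W3 := 26843546)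
    rfl k0_mm_023

noncomputable def f_mm_033 : ℕ → ℕ → ℕ → ℕ → Bool := onCell 0 536870912 1610612736 536870912 1046898278 26843546
    (rowFX 0 false false false .pnn 0 3 3 (qsf 0 536870912 1610612736 536870912 3) ndF5q0 ndF3q3 pcF3 Cut.none Ext.none)

def k0_mm_033 : ∃ t, chk3 f_mm_033 t 1 1 1 = true :=
  ⟨(l 5), by decide +kernel⟩

theorem c_mm_033 : CertFX 0 536870912 1610612736 536870912 1046898278 26843546 false false false .pnn 0 3 3
    ndF5q0 ndF3q3 pcF3 Cut.none Ext.none :=
  certFX0 (fam := false) (s1 := false) (s2 := false) (a := 0) (b := 3) (c := 3) (cn := .pnn) (n1 := ndF5q0) (n2 := ndF3q3) (pc := pcF3) (cut := Cut.none) (xt := Ext.none) (P1 := 0) (W1 := 536870912) (P2 := 1610612736) (W2 := 536870912) (P3 := 1046898278) (W3 := 26843546)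
    rfl k0_mm_033

noncomputable def f_mm_101 : ℕ → ℕ → ℕ → ℕ → Bool := onCell 536870912 469762048 536870912 536870912 1046898278 26843546
    (rowFX 0 false false false .npn 1 0 1 (qsf 536870912 469762048 536870912 536870912 0) ndF5q1 ndF3q1 pcF0 Cut.none Ext.none)

def k0_mm_101 : ∃ t, chk3 f_mm_101 t 1 1 1 = true :=
  ⟨(l 3), by decide +kernel⟩

theorem c_mm_101 : CertFX 536870912 469762048 536870912 536870912 1046898278 26843546 false false false .npn 1 0 1
    ndF5q1 ndF3q1 pcF0 Cut.none Ext.none :=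
  certFX0 (fam := false) (s1 := false) (s2 := false) (a := 1) (b := 0) (c := 1) (cn := .npn) (n1 := ndF5q1) (n2 := ndF3q1) (pc := pcF0) (cut := Cut.none) (xt := Ext.none) (P1 := 536870912) (W1 := 469762048) (P2 := 536870912) (W2 := 536870912) (P3 := 1046898278) (W3 := 26843546)
    rfl k0_mm_101

noncomputable def f_mm_102 : ℕ → ℕ → ℕ → ℕ → Bool := onCell 536870912 469762048 1073741824 536870912 1046898278 26843546
    (rowFX 0 false false false .npp 1 0 2 (qsf 536870912 469762048 1073741824 536870912 0) ndF5q1 ndF3q2 pcF0 Cut.none Ext.none)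

def k0_mm_102 : ∃ t, chk3 f_mm_102 t 1 1 1 = true :=
  ⟨(l 5), by decide +kernel⟩

theorem c_mm_102 : CertFX 536870912 469762048 1073741824 536870912 1046898278 26843546 false false false .npp 1 0 2
    ndF5q1 ndF3q2 pcF0 Cut.none Ext.none :=
  certFX0 (fam := false) (s1 := false) (s2 := false) (a := 1) (b := 0) (c := 2) (cn := .npp) (n1 := ndF5q1) (n2 := ndF3q2) (pc := pcF0) (cut := Cut.none) (xt := Ext.none) (P1 := 536870912) (W1 := 469762048) (P2 := 1073741824) (W2 := 536870912) (P3 := 1046898278) (W3 := 26843546)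
    rfl k0_mm_102

noncomputable def f_mm_112 : ℕ → ℕ → ℕ → ℕ → Bool := onCell 536870912 469762048 1073741824 536870912 1046898278 26843546
    (rowFX 0 false false false .dn 1 1 2 (qsf 536870912 469762048 1073741824 536870912 1) ndF5q1 ndF3q2 pcF1 Cut.none Ext.none)

def k0_mm_112 : ∃ t, chk3 f_mm_112 t 1 1 1 = true :=
  ⟨(l 5), by decide +kernel⟩

theorem c_mm_112 : CertFX 536870912 469762048 1073741824 536870912 1046898278 26843546 false false false .dn 1 1 2
    ndF5q1 ndF3q2 pcF1 Cut.none Ext.none :=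
  certFX0 (fam := false) (s1 := false) (s2 := false) (a := 1) (b := 1) (c := 2) (cn := .dn) (n1 := ndF5q1) (n2 := ndF3q2) (pc := pcF1) (cut := Cut.none) (xt := Ext.none) (P1 := 536870912) (W1 := 469762048) (P2 := 1073741824) (W2 := 536870912) (P3 := 1046898278) (W3 := 26843546)
    rfl k0_mm_112

noncomputable def f_mm_113 : ℕ → ℕ → ℕ → ℕ → Bool := onCell 536870912 469762048 1610612736 536870912 1046898278 26843546
    (rowFX 0 false false false .nn 1 1 3 (qsf 536870912 469762048 1610612736 536870912 1) ndF5q1 ndF3q3 pcF1 Cut.none Ext.none)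

def k0_mm_113 : ∃ t, chk3 f_mm_113 t 1 1 1 = true :=
  ⟨(l 5), by decide +kernel⟩

theorem c_mm_113 : CertFX 536870912 469762048 1610612736 536870912 1046898278 26843546 false false false .nn 1 1 3
    ndF5q1 ndF3q3 pcF1 Cut.none Ext.none :=
  certFX0 (fam := false) (s1 := false) (s2 := false) (a := 1) (b := 1) (c := 3) (cn := .nn) (n1 := ndF5q1) (n2 := ndF3q3) (pc := pcF1) (cut := Cut.none) (xt := Ext.none) (P1 := 536870912) (W1 := 469762048) (P2 := 1610612736) (W2 := 536870912) (P3 := 1046898278) (W3 := 26843546)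
    rfl k0_mm_113

noncomputable def f_mm_123 : ℕ → ℕ → ℕ → ℕ → Bool := onCell 536870912 469762048 1610612736 536870912 1046898278 26843546
    (rowFX 0 false false false .npn 1 2 3 (qsf 536870912 469762048 1610612736 536870912 2) ndF5q1 ndF3q3 pcF2 Cut.none Ext.none)

def k0_mm_123 : ∃ t, chk3 f_mm_123 t 1 1 1 = true :=
  ⟨(l 5), by decide +kernel⟩

theorem c_mm_123 : CertFX 536870912 469762048 1610612736 536870912 1046898278 26843546 false false false .npn 1 2 3
    ndF5q1 ndF3q3 pcF2 Cut.none Ext.none :=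
  certFX0 (fam := false) (s1 := false) (s2 := false) (a := 1) (b := 2) (c := 3) (cn := .npn) (n1 := ndF5q1) (n2 := ndF3q3) (pc := pcF2) (cut := Cut.none) (xt := Ext.none) (P1 := 536870912) (W1 := 469762048) (P2 := 1610612736) (W2 := 536870912) (P3 := 1046898278) (W3 := 26843546)
    rfl k0_mm_123

noncomputable def f_mm_133 : ℕ → ℕ → ℕ → ℕ → Bool := onCell 536870912 469762048 1610612736 536870912 1046898278 26843546
    (rowFX 0 false false false .dn 1 3 3 (qsf 536870912 469762048 1610612736 536870912 3) ndF5q1 ndF3q3 pcF3 Cut.none Ext.none)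

def k0_mm_133 : ∃ t, chk3 f_mm_133 t 1 1 1 = true :=
  ⟨(l 5), by decide +kernel⟩

theorem c_mm_133 : CertFX 536870912 469762048 1610612736 536870912 1046898278 26843546 false false false .dn 1 3 3
    ndF5q1 ndF3q3 pcF3 Cut.none Ext.none :=
  certFX0 (fam := false) (s1 := false) (s2 := false) (a := 1) (b := 3) (c := 3) (cn := .dn) (n1 := ndF5q1) (n2 := ndF3q3) (pc := pcF3) (cut := Cut.none) (xt := Ext.none) (P1 := 536870912) (W1 := 469762048) (P2 := 1610612736) (W2 := 536870912) (P3 := 1046898278) (W3 := 26843546)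
    rfl k0_mm_133

noncomputable def f_mm_202 : ℕ → ℕ → ℕ → ℕ → Bool := onCell 1073741824 536870912 1073741824 536870912 1046898278 26843546
    (rowFX 0 false false false .pp 2 0 2 (qsf 1073741824 536870912 1073741824 536870912 0) ndF5q2 ndF3q2 pcF0 Cut.none Ext.none)

def k0_mm_202 : ∃ t, chk3 f_mm_202 t 1 1 1 = true :=
  ⟨(l 3), by decide +kernel⟩

theorem c_mm_202 : CertFX 1073741824 536870912 1073741824 536870912 1046898278 26843546 false false false .pp 2 0 2
    ndF5q2 ndF3q2 pcF0 Cut.none Ext.none :=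
  certFX0 (fam := false) (s1 := false) (s2 := false) (a := 2) (b := 0) (c := 2) (cn := .pp) (n1 := ndF5q2) (n2 := ndF3q2) (pc := pcF0) (cut := Cut.none) (xt := Ext.none) (P1 := 1073741824) (W1 := 536870912) (P2 := 1073741824) (W2 := 536870912) (P3 := 1046898278) (W3 := 26843546)
    rfl k0_mm_202

noncomputable def f_mm_203 : ℕ → ℕ → ℕ → ℕ → Bool := onCell 1073741824 536870912 1610612736 536870912 1046898278 26843546
    (rowFX 0 false false false .up 2 0 3 (qsf 1073741824 536870912 1610612736 536870912 0) ndF5q2 ndF3q3 pcF0 Cut.none Ext.none)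

def k0_mm_203 : ∃ t, chk3 f_mm_203 t 1 1 1 = true :=
  ⟨(l 5), by decide +kernel⟩

theorem c_mm_203 : CertFX 1073741824 536870912 1610612736 536870912 1046898278 26843546 false false false .up 2 0 3
    ndF5q2 ndF3q3 pcF0 Cut.none Ext.none :=
  certFX0 (fam := false) (s1 := false) (s2 := false) (a := 2) (b := 0) (c := 3) (cn := .up) (n1 := ndF5q2) (n2 := ndF3q3) (pc := pcF0) (cut := Cut.none) (xt := Ext.none) (P1 := 1073741824) (W1 := 536870912) (P2 := 1610612736) (W2 := 536870912) (P3 := 1046898278) (W3 := 26843546)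
    rfl k0_mm_203

noncomputable def f_mm_213 : ℕ → ℕ → ℕ → ℕ → Bool := onCell 1073741824 536870912 1610612736 536870912 1046898278 26843546
    (rowFX 0 false false false .pnn 2 1 3 (qsf 1073741824 536870912 1610612736 536870912 1) ndF5q2 ndF3q3 pcF1 Cut.none Ext.none)

def k0_mm_213 : ∃ t, chk3 f_mm_213 t 1 1 1 = true :=
  ⟨(l 5), by decide +kernel⟩

theorem c_mm_213 : CertFX 1073741824 536870912 1610612736 536870912 1046898278 26843546 false false false .pnn 2 1 3
    ndF5q2 ndF3q3 pcF1 Cut.none Ext.none :=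
  certFX0 (fam := false) (s1 := false) (s2 := false) (a := 2) (b := 1) (c := 3) (cn := .pnn) (n1 := ndF5q2) (n2 := ndF3q3) (pc := pcF1) (cut := Cut.none) (xt := Ext.none) (P1 := 1073741824) (W1 := 536870912) (P2 := 1610612736) (W2 := 536870912) (P3 := 1046898278) (W3 := 26843546)
    rfl k0_mm_213

noncomputable def f_mm_303 : ℕ → ℕ → ℕ → ℕ → Bool := onCell 0 1230186008 1610612736 536870912 1046898278 26843546
    (rowFX 0 false false false .npn 3 0 3 (qsf 0 1230186008 1610612736 536870912 0) ndF5q3 ndF3q3 pcF0 Cut.none Ext.none)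

def k0_mm_303 : ∃ t, chk3 f_mm_303 t 1 1 1 = true :=
  ⟨(a (l 3) (l 3)), by decide +kernel⟩

theorem c_mm_303 : CertFX 0 1230186008 1610612736 536870912 1046898278 26843546 false false false .npn 3 0 3
    ndF5q3 ndF3q3 pcF0 Cut.none Ext.none :=
  certFX0 (fam := false) (s1 := false) (s2 := false) (a := 3) (b := 0) (c := 3) (cn := .npn) (n1 := ndF5q3) (n2 := ndF3q3) (pc := pcF0) (cut := Cut.none) (xt := Ext.none) (P1 := 0) (W1 := 1230186008) (P2 := 1610612736) (W2 := 536870912) (P3 := 1046898278) (W3 := 26843546)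
    rfl k0_mm_303

noncomputable def f_mm_313 : ℕ → ℕ → ℕ → ℕ → Bool := onCell 0 1230186008 1610612736 536870912 1046898278 26843546
    (rowFX 0 false false false .dn 3 1 3 (qsf 0 1230186008 1610612736 536870912 1) ndF5q3 ndF3q3 pcF1 Cut.none Ext.none)

def k0_mm_313 : ∃ t, chk3 f_mm_313 t 1 1 1 = true :=
  ⟨(a (l 1) (l 3)), by decide +kernel⟩

theorem c_mm_313 : CertFX 0 1230186008 1610612736 536870912 1046898278 26843546 false false false .dn 3 1 3
    ndF5q3 ndF3q3 pcF1 Cut.none Ext.none :=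
  certFX0 (fam := false) (s1 := false) (s2 := false) (a := 3) (b := 1) (c := 3) (cn := .dn) (n1 := ndF5q3) (n2 := ndF3q3) (pc := pcF1) (cut := Cut.none) (xt := Ext.none) (P1 := 0) (W1 := 1230186008) (P2 := 1610612736) (W2 := 536870912) (P3 := 1046898278) (W3 := 26843546)
    rfl k0_mm_313

end Pool.Agent.Strip051.G.IE1.Tab.C.FB53

namespace Pool.Agent.Strip051.G.IE1.Tab.C.FB55

open Pool.Agent.Strip051.PB Pool.Agent.Strip051.PB.T
open Pool.Agent.Strip051.G.IE1.Tab

noncomputable def f_pp_001 : ℕ → ℕ → ℕ → ℕ → Bool := onCell 0 536870912 536870912 469762048 1046898278 26843546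
    (rowFX 0 false true true .up 0 0 1 (qsf 0 536870912 536870912 469762048 0) ndF5q0 ndF5q1 pcF0 Cut.none Ext.none)

def k0_pp_001 : ∃ t, chk3 f_pp_001 t 1 1 1 = true :=
  ⟨(l 3), by decide +kernel⟩

theorem c_pp_001 : CertFX 0 536870912 536870912 469762048 1046898278 26843546 false true true .up 0 0 1
    ndF5q0 ndF5q1 pcF0 Cut.none Ext.none :=
  certFX0 (fam := false) (s1 := true) (s2 := true) (a := 0) (b := 0) (c := 1) (cn := .up) (n1 := ndF5q0) (n2 := ndF5q1) (pc := pcF0) (cut := Cut.none) (xt := Ext.none) (P1 := 0) (W1 := 536870912) (P2 := 536870912) (W2 := 469762048) (P3 := 1046898278) (W3 := 26843546)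
    rfl k0_pp_001

noncomputable def f_pp_011 : ℕ → ℕ → ℕ → ℕ → Bool := onCell 0 536870912 536870912 469762048 1046898278 26843546
    (rowFX 0 false true true .pnn 0 1 1 (qsf 0 536870912 536870912 469762048 1) ndF5q0 ndF5q1 pcF1 Cut.none Ext.none)

def k0_pp_011 : ∃ t, chk3 f_pp_011 t 1 1 1 = true :=
  ⟨(l 3), by decide +kernel⟩

theorem c_pp_011 : CertFX 0 536870912 536870912 469762048 1046898278 26843546 false true true .pnn 0 1 1
    ndF5q0 ndF5q1 pcF1 Cut.none Ext.none :=
  certFX0 (fam := false) (s1 := true) (s2 := true) (a := 0) (b := 1) (c := 1) (cn := .pnn) (n1 := ndF5q0) (n2 := ndF5q1) (pc := pcF1) (cut := Cut.none) (xt := Ext.none) (P1 := 0) (W1 := 536870912) (P2 := 536870912) (W2 := 469762048) (P3 := 1046898278) (W3 := 26843546)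
    rfl k0_pp_011

noncomputable def f_pp_012 : ℕ → ℕ → ℕ → ℕ → Bool := onCell 536870912 536870912 1073741824 536870912 1046898278 26843546
    (rowFX 2 false true true .pnp 0 1 2 (qsf 0 536870912 1073741824 536870912 1) ndF5q0 ndF5q2 pcF1 Cut.none Ext.none)

def k0_pp_012 : ∃ t, chk3 f_pp_012 t 2 1 1 = true :=
  ⟨(b (b (a (l 3) (b (l 3) (a (l 3) (c (l 280410824039) (l 15207024))))) (a (b (l 3) (l 2)) (b (b (a (b (l 3) (l 14925552)) (b (l 14801512) (l 14967488))) (a (c (l 15554512) (l 15587304)) (c (l 15617424) (l 15587304)))) (b (a (l 98883560647) (l 16238296)) (a (l 2) (l 16776664)))))) (a (l 2) (a (l 2) (b (l 16777216) (l 2))))), by decide +kernel⟩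

def k1_pp_012 : ∃ t, chk3 f_pp_012 t 6 2 1 = true :=
  ⟨(b (b (l 3) (a (c (b (l 3) (l 15176344)) (l 528981976583)) (a (c (b (l 422145237431) (l 15069720)) (l 15100848)) (b (a (b (l 3) (l 15317600)) (c (b (l 15530472) (l 15312232)) (l 15405088))) (c (a (l 15067400) (l 15088704)) (l 15035096)))))) (b (a (b (b (c (l 14826448) (l 14775752)) (c (l 14990024) (l 14943552))) (c (l 15616336) (l 15586112))) (b (b (a (l 14796888) (l 14805696)) (a (l 14961136) (l 14969696))) (a (l 15593440) (l 15601624)))) (a (b (c (l 16388464) (l 16378272)) (l 16774272)) (b (a (l 16372720) (l 16296512)) (a (l 16759856) (l 16767280)))))), by decide +kernel⟩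

def k2_pp_012 : ∃ t, chk3 f_pp_012 t 7 2 1 = true :=
  ⟨(b (a (b (b (l 3) (b (l 3) (a (l 264843038423) (a (l 15949136) (l 15946096))))) (a (b (c (b (l 15649624) (l 15474848)) (l 15544416)) (c (b (l 15295056) (l 15119792)) (l 15195576))) (b (c (b (l 15719184) (l 15476784)) (l 15578528)) (c (l 15132352) (l 15104200))))) (b (a (b (l 3) (a (b (l 16191240) (l 15885448)) (a (l 88749426183) (b (l 15984664) (l 15833624))))) (b (b (l 3) (b (l 3) (a (l 3) (a (l 3) (c (l 16482568) (l 16429152)))))) (a (c (b (a (l 16191256) (l 15993592)) (l 15791120)) (l 519319920615)) (c (b (a (l 16080600) (l 16251784)) (c (l 15888944) (l 15873856))) (b (a (l 16214184) (l 16146600)) (a (l 15859240) (l 15874880))))))) (a (a (b (c (l 15501360) (l 15470672)) (l 14995192)) (b (c (a (l 15440840) (l 15410488)) (l 15390720)) (c (l 14927376) (l 14881208)))) (b (a (c (b (l 15531016) (l 15242912)) (l 15362480)) (c (a (l 15372752) (l 15387472)) (b (l 15525056) (l 15193984)))) (a (c (c (l 14872056) (l 14854472)) (l 14820176))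 (c (l 14811464) (l 14767528))))))) (a (b (b (b (a (l 14948016) (c (l 14822416) (l 14789544))) (a (l 15112832) (l 14889368))) (a (l 15718416) (l 15308296))) (b (a (l 16303520) (l 16084416)) (a (l 16613536) (l 16405328)))) (b (a (a (b (b (l 14657864) (l 14727536)) (l 15222600)) (b (b (l 14559840) (l 14635528)) (c (l 15134728) (l 15089872)))) (b (b (c (a (l 14512296) (l 14447048)) (l 14279656)) (c (a (l 14591504) (l 14528024)) (l 14463968))) (c (a (l 15070576) (l 15025976)) (a (l 15025976) (l 14980424))))) (a (b (c (l 15626312) (l 15827600)) (c (l 16210880) (l 16194968))) (a (b (c (l 15638608) (l 15673464)) (l 15977088)) (b (c (l 15643080) (l 15613680)) (c (l 15982680) (l 15962368)))))))), by decide +kernel⟩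

def k3_pp_012 : ∃ t, chk3 f_pp_012 t 3 3 1 = true :=
  ⟨(a (a (b (b (l 16773920) (l 16772960)) (l 2)) (b (a (l 16753368) (b (l 16761504) (l 16758440))) (l 16755488))) (a (b (a (l 16625064) (l 16304392)) (l 16566760)) (b (b (a (a (l 16273944) (l 16183120)) (l 16056152)) (l 16188032)) (l 16255792)))), by decide +kernel⟩

theorem s4_pp_012 : ∃ t, chk3 f_pp_012 t 3 2 1 = true := ex3_a k1_pp_012 k2_pp_012

theorem s5_pp_012 : ∃ t, chk3 f_pp_012 t 3 1 1 = true := ex3_b s4_pp_012 k3_pp_012

theorem s6_pp_012 : ∃ t, chk3 f_pp_012 t 1 1 1 = true := ex3_a k0_pp_012 s5_pp_012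

theorem c_pp_012 : CertFX 0 536870912 1073741824 536870912 1046898278 26843546 false true true .pnp 0 1 2
    ndF5q0 ndF5q2 pcF1 Cut.none Ext.none :=
  certFX2 (fam := false) (s1 := true) (s2 := true) (a := 0) (b := 1) (c := 2) (cn := .pnp) (n1 := ndF5q0) (n2 := ndF5q2) (pc := pcF1) (cut := Cut.none) (xt := Ext.none) (P1 := 0) (W1 := 536870912) (P2 := 1073741824) (W2 := 536870912) (P3 := 1046898278) (W3 := 26843546)
    rfl (fun _ => rfl) s6_pp_012

noncomputable def f_pp_022 : ℕ → ℕ → ℕ → ℕ → Bool := onCell 0 536870912 1073741824 536870912 1046898278 26843546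
    (rowFX 1 false true true .pp 0 2 2 (qsf 0 536870912 1073741824 536870912 2) ndF5q0 ndF5q2 pcF2 Cut.none Ext.none)

def k0_pp_022 : ∃ t, chk3 f_pp_022 t 16 16 1 = true :=
  ⟨(b (b (a (l 3) (a (b (l 3) (c (l 253033420103) (c (l 16578168) (l 114520754439)))) (c (c (l 16553920) (l 16466376)) (b (c (l 16430744) (c (a (l 16554160) (l 16460192)) (c (l 16421992) (l 16420096)))) (c (l 16316056) (c (l 16392064) (l 16385288))))))) (a (a (l 3) (c (c (a (l 16652024) (l 16724440)) (c (l 16565064) (l 451138715399))) (b (l 3) (c (c (l 16571560) (l 16651608)) (l 16615624))))) (c (b (a (c (l 16712264) (l 16678096)) (c (l 16520256) (l 16511872))) (c (a (l 16539400) (l 16530944)) (a (l 16525144) (l 16433640)))) (c (a (b (l 16483888) (l 16449208)) (c (l 16336648) (l 16400048))) (a (a (l 16655704) (l 16427632)) (c (l 16285536) (l 16403824))))))) (c (a (a (c (b (b (l 16533448) (l 1638697264167)) (l 16362504)) (b (a (l 16399224) (c (l 16606152) (l 334637855943))) (l 16381312))) (c (a (b (b (l 16695632)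 (l 16710976)) (l 16665816)) (b (l 16594016) (l 16615192))) (b (c (l 16581624) (l 244443465207)) (a (l 16712696) (l 16652872))))) (c (b (a (c (l 16651648) (l 16612392)) (l 16443912)) (a (b (l 16570816) (l 16545072)) (l 16349224))) (b (c (l 16306784) (l 16351688)) (a (l 16469040) (l 16306376))))) (a (a (c (a (b (l 16495616) (a (l 16518008) (l 16578312))) (c (a (l 243369611975) (l 16541344)) (c (l 16452464) (l 247664596327)))) (a (b (c (l 16479456) (l 371681589751)) (a (c (l 16530240) (l 16469360)) (c (l 16556520) (l 16575560)))) (c (l 248201457255) (l 16503920)))) (c (b (b (l 16502664) (l 16505776)) (a (l 16718760) (l 16617456))) (b (l 16626256) (l 16540736)))) (c (a (b (c (l 16560920) (l 16479888)) (a (l 16504184) (l 16390624))) (b (l 16310568) (l 16232552))) (a (l 16343032) (l 16267104)))))), by decide +kernel⟩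

def k1_pp_022 : ∃ t, chk3 f_pp_022 t 16 17 1 = true :=
  ⟨(c (a (b (a (b (c (l 16579888) (l 16508136)) (c (l 16621896) (l 16573952))) (b (c (a (l 16618768) (l 16545440)) (a (l 16613720) (l 16555264))) (a (c (l 16526040) (l 16524184)) (l 16339488)))) (a (b (a (l 16607656) (l 16542160)) (l 16448288)) (c (b (l 16333472) (l 16259136)) (l 16250016)))) (b (a (c (l 16315088) (b (l 16398976) (l 16325688))) (c (l 16170680) (l 16011240))) (a (b (l 16100344) (l 16050808)) (b (l 15979488) (l 15846848))))) (a (c (b (a (b (a (l 16615136) (l 16684424)) (a (l 16675224) (l 16620224))) (b (l 16488208) (l 16485888))) (a (b (a (l 16639992) (l 16533256)) (l 16475584)) (l 16311344))) (b (a (b (a (c (l 16619824) (l 16497008)) (l 16686232)) (a (a (l 16655960) (l 16685880)) (l 16621040))) (b (l 16524000) (l 16458208))) (a (a (b (c (l 16634448) (l 16609880)) (l 16538600)) (l 16486280)) (l 16324712)))) (a (b (l 16239840) (l 16129984)) (b (l 15988728) (c (l 15906360) (l 15917384)))))), by decide +kernel⟩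

def k2_pp_022 : ∃ t, chk3 f_pp_022 t 17 8 1 = true :=
  ⟨(c (c (b (b (a (b (l 16271704) (l 16220936)) (b (l 16013528) (l 15890072))) (a (l 16062464) (b (l 15856416) (l 15744216)))) (a (b (l 15949520) (l 15526224)) (b (l 15562744) (c (l 15342720) (l 15083160))))) (b (b (a (b (a (l 16361408) (l 16209696)) (l 16064752)) (b (c (l 15996040) (l 15902904)) (c (l 15923768) (l 15903096)))) (a (l 15993176) (l 15548672))) (b (a (c (l 15875208) (l 15845288)) (l 15321152)) (a (a (l 15767016) (l 15566408)) (l 15158016))))) (c (b (b (b (a (b (a (l 16353800) (l 15978288)) (c (l 16161568) (l 16052760))) (a (b (l 15870216) (c (l 16035600) (l 16005536))) (l 15898176))) (a (c (l 16023816) (l 16095608)) (l 15689336))) (c (b (l 15693880) (l 15621472)) (a (l 15786824) (l 15690928)))) (b (l 15486984) (a (l 15638376) (l 15285280)))) (b (b (a (b (b (b (c (l 16220376) (l 16120648)) (c (l 16143032) (l 16246552))) (c (l 16188840) (l 16207688))) (c (l 16024176) (l 16136416))) (l 15702832)) (a (l 16002216) (l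 15677648))) (b (l 15452640) (a (l 15632864) (l 15253936)))))), by decide +kernel⟩

def k3_pp_022 : ∃ t, chk3 f_pp_022 t 9 8 1 = true :=
  ⟨(b (a (c (b (c (b (a (l 15553056) (c (l 15452408) (l 15446008))) (a (b (l 15624872) (l 15618680)) (l 15356040))) (a (c (b (l 15702704) (l 15618160)) (l 15652208)) (l 15377176))) (a (c (b (l 15532560) (l 15410448)) (l 15415416)) (l 15147320))) (b (c (b (l 15546112) (l 15429704)) (b (l 15455376) (l 15394160))) (a (l 15376200) (l 15072744)))) (c (b (b (c (l 15096856) (l 15072880)) (c (l 14957344) (l 14945128))) (a (c (l 14887208) (l 14844192)) (b (a (l 14762888) (l 14738328)) (a (l 14700120) (l 14814928))))) (b (b (a (l 15134960) (l 14926632)) (l 14890888)) (a (l 14788808) (b (l 14688000) (l 14696048)))))) (a (c (a (c (b (l 15220104) (b (l 14844672) (a (l 14999048) (l 14822280)))) (l 14873576)) (b (l 14775824) (c (b (l 14756160) (l 14778616)) (l 14761392)))) (b (l 14828872) (a (l 14903960) (b (l 14681384) (l 14710576))))) (b (c (a (b (a (l 14717888)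 (l 14671736)) (a (l 14664360) (l 14757576))) (l 14889192)) (a (b (l 14638216) (l 14658536)) (l 14872408))) (c (b (l 14746848) (l 14857392)) (l 14996488))))), by decide +kernel⟩

def k4_pp_022 : ∃ t, chk3 f_pp_022 t 5 8 1 = true :=
  ⟨(a (b (b (a (c (a (b (a (l 14840616) (l 14832856)) (a (c (l 14800840) (l 14767488)) (l 14912232))) (b (l 15069296) (l 15190840))) (a (b (c (l 14807304) (l 14775064)) (l 14792840)) (c (l 15091776) (l 15065168)))) (a (b (c (l 15455456) (l 15415744)) (c (l 15547568) (l 15510968))) (l 15794128))) (a (c (c (l 15051760) (l 15170152)) (l 15047032)) (a (c (l 15671784) (l 15640208)) (l 15938696)))) (a (c (b (c (l 15406312) (l 15383368)) (c (a (l 15460384) (l 15710296)) (l 15569352))) (b (l 15353976) (l 15545904))) (a (b (c (l 15761160) (l 15798872)) (b (c (l 15909824) (l 15888192)) (l 15890264))) (b (l 16004184) (l 15898568))))) (a (b (b (a (l 16059184) (l 16233432)) (l 16106208)) (l 15871608)) (l 15911048))), by decide +kernel⟩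

def k5_pp_022 : ∃ t, chk3 f_pp_022 t 8 18 1 = true :=
  ⟨(a (c (a (b (a (b (l 16361576) (l 16278296)) (c (l 16065688) (l 16097048))) (a (l 16083584) (c (l 15870144) (l 15876576)))) (b (a (c (l 15992600) (l 15970520)) (c (l 15824256) (l 15758576))) (a (c (l 15730576) (l 15705720)) (c (l 15552152) (l 15484552))))) (a (b (a (a (c (l 16375768) (b (l 16345896) (l 16301856))) (c (l 16270184) (l 16266752))) (c (l 16134656) (l 16104288))) (a (c (l 16000232) (a (l 16018008) (l 16000496))) (l 15732648))) (b (c (b (l 15750048) (l 15554536)) (a (l 15884888) (l 15698600))) (c (a (a (l 15702448) (l 15596656)) (l 15266960)) (a (l 15531656) (l 15420424)))))) (a (c (a (c (l 15465472) (l 15399776)) (c (l 15246432) (b (l 15326680) (l 15048928)))) (c (b (l 15198696) (c (a (l 15226704) (l 15060680)) (l 15140592))) (b (l 15398352) (l 15115432)))) (c (b (c (a (l 15170520) (l 14975528)) (c (l 15051800) (l 15066856))) (c (a (b (l 14957680) (l 14902168)) (b (l 14850136) (l 14939256))) (a (c (l 14919352)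 (l 14908880)) (l 14872240)))) (b (l 15009016) (b (l 14806560) (l 14861056)))))), by decide +kernel⟩

def k6_pp_022 : ∃ t, chk3 f_pp_022 t 8 19 1 = true :=
  ⟨(a (c (a (a (b (b (l 15885768) (l 15744040)) (l 15515720)) (b (c (b (l 15675152) (l 15530072)) (l 15521360)) (a (l 15341424) (c (l 15246944) (l 15259592))))) (c (b (a (b (l 15536640) (l 15388168)) (l 15274104)) (a (b (l 15229696) (l 15152064)) (l 15167648))) (b (a (l 15434952) (l 15205392)) (a (b (l 15199696) (l 15120512)) (l 15099768))))) (a (b (a (c (a (l 15841632) (l 15733880)) (a (b (l 15897976) (l 15753232)) (l 15723648))) (c (l 15593960) (l 15558576))) (a (c (l 15485072) (a (l 15498720) (l 15412696))) (a (l 15318776) (c (l 15225472) (c (l 15175200) (l 15172872)))))) (b (c (a (a (l 15429512) (l 15314072)) (c (l 15157656) (b (l 15210960) (l 15064840)))) (b (a (c (l 15415400) (l 15416640)) (l 15224176)) (a (l 15206288) (l 15074200)))) (a (a (c (l 15094120) (b (l 15155216) (l 14809048))) (c (b (l 15077752) (c (l 15045464)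 (l 15017152))) (b (l 15054168) (l 14912696)))) (c (b (c (l 15001040) (a (l 14986352) (l 14995960))) (c (l 15072832) (l 15081416))) (a (b (c (l 15001048) (l 14967680)) (l 15055880)) (l 15011992))))))) (c (b (a (c (b (a (l 15124400) (l 14985392)) (l 15041192)) (a (b (l 15051128) (l 14980952)) (b (c (l 14931264) (l 14923064)) (l 15010696)))) (c (b (c (l 15043328) (l 15032360)) (l 14938736)) (c (a (l 15036088) (l 15115360)) (l 15061600)))) (a (c (l 15179176) (c (l 15162320) (a (l 15104096) (l 15191264)))) (c (c (l 15345544) (l 15333392)) (l 15301088)))) (a (b (c (b (a (c (l 15023064) (l 15038104)) (b (a (l 14943328) (l 14849096)) (l 14894568))) (a (c (l 14958392) (a (l 14977776) (l 14921456))) (l 14978240))) (b (l 14952216) (l 14952960))) (c (c (a (l 15021760) (l 15172424)) (l 15122440)) (l 15107408))) (b (l 15034792) (l 15273936))))), by decide +kernel⟩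

def k7_pp_022 : ∃ t, chk3 f_pp_022 t 9 9 1 = true :=
  ⟨(b (a (c (a (b (c (a (b (l 14869944) (l 14810984)) (l 14823168)) (l 14834880)) (c (c (l 15017880) (l 15000208)) (l 14983048))) (b (l 14937208) (l 15185328))) (b (a (b (l 14768232) (l 14775184)) (l 14889208)) (l 14923352))) (c (b (l 15069272) (l 15369136)) (b (l 15240144) (l 15441288)))) (a (c (b (c (l 15336536) (l 15318416)) (l 15517480)) (b (a (l 15208064) (l 15369384)) (l 15487456))) (c (b (a (l 15554696) (l 15649744)) (a (l 15629848) (l 15531440))) (b (a (l 15524888) (l 15623000)) (a (l 15602944) (l 15501960)))))), by decide +kernel⟩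

def k8_pp_022 : ∃ t, chk3 f_pp_022 t 5 9 1 = true :=
  ⟨(a (a (b (c (b (a (l 15623776) (b (l 15790616) (l 15782376))) (a (l 15604720) (l 15670664))) (b (a (l 15594856) (l 15749264)) (a (l 15662840) (l 15643720)))) (a (c (b (l 15574200) (l 15373576)) (b (l 15545328) (l 15339304))) (l 15366520))) (b (l 15645600) (l 15282000))) (l 15231584)), by decide +kernel⟩

def k9_pp_022 : ∃ t, chk3 f_pp_022 t 3 4 1 = true :=
  ⟨(b (a (a (l 15908632) (l 15851344)) (l 15766776)) (a (b (l 15492568) (l 15197896)) (l 15417096))), by decide +kernel⟩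

def k10_pp_022 : ∃ t, chk3 f_pp_022 t 8 40 1 = true :=
  ⟨(a (a (a (c (b (l 15282112) (l 15210496)) (b (c (l 15247200) (l 15077000)) (c (l 15174448) (a (l 15150320) (l 15128024))))) (a (b (c (l 15140376) (l 15112200)) (c (l 15189256) (c (l 15179664) (l 15132192)))) (c (c (l 15049672) (l 15207528)) (c (l 15132032) (b (c (l 15062136) (l 15056648)) (l 15188208)))))) (c (c (l 15264712) (a (l 15259056) (l 15305896))) (c (c (a (l 15216112) (c (l 15272424) (l 15268616))) (a (l 15063872) (l 15286928))) (a (l 14955024) (l 15245456))))) (c (c (a (c (l 15449920) (l 15421968)) (a (l 15505104) (l 15557936))) (a (c (a (l 15371280) (l 15437200)) (a (l 15358744) (l 15413248))) (l 15510672))) (c (a (b (l 15201120) (l 15424648)) (l 15495696)) (l 15418512)))), by decide +kernel⟩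

def k11_pp_022 : ∃ t, chk3 f_pp_022 t 8 41 1 = true :=
  ⟨(a (a (c (b (a (l 15283504) (c (l 15364448) (l 15361896))) (b (a (l 15395400) (c (l 15481680) (l 15480968))) (b (a (l 15484432) (l 15502960)) (a (b (l 15413416) (l 15572600)) (l 15650632))))) (b (a (c (l 15249280) (l 15163416)) (c (a (l 15323712) (l 15365072)) (a (l 15280776) (l 15323184)))) (b (a (c (l 15363728) (l 15321520)) (c (a (l 15444168) (l 15490176)) (l 15293864))) (b (a (a (l 15426048) (c (l 15479112) (l 15459984))) (c (l 15577680) (l 15550720))) (a (a (c (l 15511824) (b (l 15327680) (l 15506872))) (c (l 15556832) (b (l 15352064) (l 15552128)))) (c (l 15626912) (l 15611384))))))) (c (b (c (l 15531696) (a (l 15465448) (l 15516288))) (c (l 15609096) (a (l 15666248) (l 15607160)))) (b (c (c (a (l 15420168) (l 15515328)) (l 15326568)) (l 15436632)) (c (b (b (l 15414952) (l 15628480)) (l 15722888)) (l 15416928))))) (c (b (a (c (l 15396880) (c (l 15625416) (l 15439600))) (c (c (l 15764944) (l 15742288)) (l 15728072)))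 (a (c (b (l 15617168) (l 15953640)) (c (l 15644728) (l 15616392))) (l 15990512))) (b (a (l 15576424) (l 15710496)) (a (l 15811728) (l 15967784))))), by decide +kernel⟩

def k12_pp_022 : ∃ t, chk3 f_pp_022 t 8 21 1 = true :=
  ⟨(a (c (a (a (b (l 15707848) (l 16225600)) (b (c (l 15888280) (a (l 15943184) (l 16021240))) (c (l 16378512) (l 16377728)))) (b (c (a (l 16096704) (l 16219600)) (a (l 16034320) (l 15950424))) (c (a (l 16232784) (l 16126144)) (b (l 16336112) (l 16053120))))) (a (a (b (c (a (l 15685864) (l 15861200)) (a (a (l 15803384) (l 15696792)) (l 15684024))) (c (a (l 16397648) (l 16337272)) (a (b (l 16162184) (l 16367128)) (l 16368808)))) (b (c (b (l 15806920) (l 16086440)) (l 15827296)) (c (l 16289568) (l 16387240)))) (b (c (b (l 15824872) (l 16207352)) (l 15887896)) (c (l 16217024) (l 16264992))))) (c (a (b (c (c (l 16270288) (l 16275856)) (a (l 16043808) (l 16323072))) (c (a (l 15982208) (l 16114864)) (l 16161824))) (b (b (l 16273976) (l 16485376)) (l 16255496))) (b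 (a (l 16125000) (l 16130552)) (a (l 16067024) (l 16257960))))), by decide +kernel⟩

def k13_pp_022 : ∃ t, chk3 f_pp_022 t 9 10 1 = true :=
  ⟨(b (a (a (b (c (l 15631240) (l 15604952)) (c (b (l 15829912) (l 16023488)) (b (l 15809704) (l 16008992)))) (b (c (l 15660200) (l 15634672)) (b (l 15505760) (l 15843320)))) (b (c (a (l 15518400) (l 15308000)) (l 15207584)) (c (b (l 15173624) (l 15473320)) (b (l 15371704) (l 15550064))))) (a (c (b (l 16179648) (l 16477512)) (b (l 16169720) (l 16476864))) (b (c (l 15751520) (l 15814760)) (a (l 16250120) (l 16170232))))), by decide +kernel⟩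

def k14_pp_022 : ∃ t, chk3 f_pp_022 t 5 10 1 = true :=
  ⟨(b (b (a (a (a (c (l 15191664) (l 15152208)) (l 15108360)) (l 15035208)) (l 14929304)) (a (l 15240944) (l 15094432))) (a (l 15849840) (l 15701544))), by decide +kernel⟩

def k15_pp_022 : ∃ t, chk3 f_pp_022 t 2 11 1 = true :=
  ⟨(a (b (c (a (a (a (a (b (l 15825336) (c (l 15335104) (l 15333536))) (b (c (l 15815032) (l 15618608)) (c (l 15343320) (l 15302744)))) (b (a (c (l 15672048) (l 15619144)) (c (l 15636688) (l 15668552))) (c (l 15340968) (l 15353832)))) (b (a (l 15537344) (l 15999504)) (l 15641424))) (a (b (l 16262752) (l 15998416)) (l 16161080))) (a (a (a (b (a (c (l 15744248) (l 15628920)) (l 15532136)) (a (c (l 15317840) (l 15179168)) (l 15254440))) (b (b (l 15760216) (l 15601272)) (l 15381712))) (b (l 15903312) (l 15644080))) (a (b (l 16253456) (l 15979264)) (l 16217720)))) (a (a (c (a (b (a (l 15075128) (l 15070096)) (l 15107344)) (l 15139672)) (a (c (l 14939952) (l 15075648)) (l 15241368))) (c (l 15496528) (l 15494176)))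 (a (c (l 15845392) (l 15820752)) (l 16113632)))) (b (a (l 16586136) (l 16436216)) (l 16367064))), by decide +kernel⟩

def k16_pp_022 : ∃ t, chk3 f_pp_022 t 3 5 1 = true :=
  ⟨(b (b (b (l 15049424) (l 15208416)) (a (l 15734312) (l 2))) (a (b (l 16434976) (l 16776744)) (l 2))), by decide +kernel⟩

def k17_pp_022 : ∃ t, chk3 f_pp_022 t 1 3 1 = true :=
  ⟨(a (a (b (a (c (a (b (a (a (l 15073704) (l 15153280)) (l 15223200)) (a (b (l 15107344) (l 15107344)) (b (l 15223200) (l 15223200)))) (b (b (l 15496128) (l 15496128)) (l 15496128))) (a (b (c (l 14910872) (l 15154424)) (a (c (l 15086032) (l 15074912)) (l 15240976))) (b (l 15493760) (l 15493760)))) (a (b (c (l 15844976) (l 15820328)) (l 15833864)) (l 16113256))) (a (a (a (c (l 15107344) (b (l 15079184) (l 15079184))) (c (l 15223200) (l 15240976))) (l 15490848)) (l 15967568))) (b (a (l 16410784) (l 16730856)) (b (l 16555552) (l 2)))) (b (b (a (l 16770192) (l 2)) (l 2)) (l 2))), by decide +kernel⟩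

theorem s18_pp_022 : ∃ t, chk3 f_pp_022 t 8 20 1 = true := ex3_b k10_pp_022 k11_pp_022

theorem s19_pp_022 : ∃ t, chk3 f_pp_022 t 8 10 1 = true := ex3_b s18_pp_022 k12_pp_022

theorem s20_pp_022 : ∃ t, chk3 f_pp_022 t 4 10 1 = true := ex3_a s19_pp_022 k13_pp_022

theorem s21_pp_022 : ∃ t, chk3 f_pp_022 t 2 10 1 = true := ex3_a s20_pp_022 k14_pp_022

theorem s22_pp_022 : ∃ t, chk3 f_pp_022 t 2 5 1 = true := ex3_b s21_pp_022 k15_pp_022

theorem s23_pp_022 : ∃ t, chk3 f_pp_022 t 1 5 1 = true := ex3_a s22_pp_022 k16_pp_022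

theorem s24_pp_022 : ∃ t, chk3 f_pp_022 t 8 9 1 = true := ex3_b k5_pp_022 k6_pp_022

theorem s25_pp_022 : ∃ t, chk3 f_pp_022 t 4 9 1 = true := ex3_a s24_pp_022 k7_pp_022

theorem s26_pp_022 : ∃ t, chk3 f_pp_022 t 2 9 1 = true := ex3_a s25_pp_022 k8_pp_022

theorem s27_pp_022 : ∃ t, chk3 f_pp_022 t 16 8 1 = true := ex3_b k0_pp_022 k1_pp_022

theorem s28_pp_022 : ∃ t, chk3 f_pp_022 t 8 8 1 = true := ex3_a s27_pp_022 k2_pp_022

theorem s29_pp_022 : ∃ t, chk3 f_pp_022 t 4 8 1 = true := ex3_a s28_pp_022 k3_pp_022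

theorem s30_pp_022 : ∃ t, chk3 f_pp_022 t 2 8 1 = true := ex3_a s29_pp_022 k4_pp_022

theorem s31_pp_022 : ∃ t, chk3 f_pp_022 t 2 4 1 = true := ex3_b s30_pp_022 s26_pp_022

theorem s32_pp_022 : ∃ t, chk3 f_pp_022 t 1 4 1 = true := ex3_a s31_pp_022 k9_pp_022

theorem s33_pp_022 : ∃ t, chk3 f_pp_022 t 1 2 1 = true := ex3_b s32_pp_022 s23_pp_022

theorem s34_pp_022 : ∃ t, chk3 f_pp_022 t 1 1 1 = true := ex3_b s33_pp_022 k17_pp_022

theorem c_pp_022 : CertFX 0 536870912 1073741824 536870912 1046898278 26843546 false true true .pp 0 2 2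
    ndF5q0 ndF5q2 pcF2 Cut.none Ext.none :=
  certFX1 (fam := false) (s1 := true) (s2 := true) (a := 0) (b := 2) (c := 2) (cn := .pp) (n1 := ndF5q0) (n2 := ndF5q2) (pc := pcF2) (cut := Cut.none) (xt := Ext.none) (P1 := 0) (W1 := 536870912) (P2 := 1073741824) (W2 := 536870912) (P3 := 1046898278) (W3 := 26843546)
    rfl (fun _ => rfl) s34_pp_022

noncomputable def f_pp_023 : ℕ → ℕ → ℕ → ℕ → Bool := onCell 1073741824 536870912 0 1230186008 1046898278 26843546
    (rowFX 2 false true true .up 0 2 3 (qsf 0 536870912 0 1230186008 2) ndF5q0 ndF5q3 pcF2 Cut.none Ext.none)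

def k0_pp_023 : ∃ t, chk3 f_pp_023 t 1 1 1 = true :=
  ⟨(a (b (l 2) (a (b (l 2) (b (l 2) (a (l 15680952) (l 15437256)))) (b (a (l 2) (l 266387199031)) (a (b (a (a (l 15195880) (l 15333552)) (l 15827152)) (a (l 14924456) (l 15784048))) (a (b (l 16427728) (l 16445848)) (b (l 16730568) (l 16776752))))))) (b (a (l 2) (b (l 4) (a (l 16743472) (l 4)))) (b (a (a (l 16609376) (l 16771432)) (a (l 16777184) (l 16777184))) (b (a (l 16763344) (a (l 16766480) (l 16613368))) (a (b (l 16767944) (a (l 16755904) (l 16564304))) (b (a (l 16579008) (l 16235104)) (a (b (l 16346408) (l 16079952)) (a (l 15573936) (b (l 15716864) (a (l 15444656) (c (l 15124896) (l 15258680)))))))))))), by decide +kernel⟩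

theorem c_pp_023 : CertFX 0 536870912 0 1230186008 1046898278 26843546 false true true .up 0 2 3
    ndF5q0 ndF5q3 pcF2 Cut.none Ext.none :=
  certFX2 (fam := false) (s1 := true) (s2 := true) (a := 0) (b := 2) (c := 3) (cn := .up) (n1 := ndF5q0) (n2 := ndF5q3) (pc := pcF2) (cut := Cut.none) (xt := Ext.none) (P1 := 0) (W1 := 536870912) (P2 := 0) (W2 := 1230186008) (P3 := 1046898278) (W3 := 26843546)
    rfl (fun _ => rfl) k0_pp_023

noncomputable def f_pp_033 : ℕ → ℕ → ℕ → ℕ → Bool := onCell 0 536870912 0 1230186008 1046898278 26843546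
    (rowFX 0 false true true .pnn 0 3 3 (qsf 0 536870912 0 1230186008 3) ndF5q0 ndF5q3 pcF3 Cut.none Ext.none)

def k0_pp_033 : ∃ t, chk3 f_pp_033 t 1 1 1 = true :=
  ⟨(b (a (l 4) (a (l 4) (b (l 4) (a (l 4) (b (l 4) (l 16750656)))))) (b (b (b (a (l 4) (a (a (l 4) (l 16777192)) (l 16777192))) (a (a (l 4) (a (l 4) (c (l 16731384) (l 16730192)))) (a (a (l 16777144) (l 16777144)) (l 1)))) (a (b (a (b (a (l 4) (a (l 4) (l 16113216))) (a (a (b (l 4) (c (l 15175112) (l 1426697147991))) (c (l 15496112) (l 15493744))) (a (l 15833856) (l 16113240)))) (a (c (l 16415456) (l 16406056)) (l 16730824))) (a (a (a (c (a (l 15107344) (l 15223200)) (c (l 15099616) (l 15154424))) (c (l 15496128) (l 15493760))) (c (l 15976144) (l 15955336))) (a (l 16410784) (l 16730856)))) (a (b (l 16777184) (l 16777216)) (l 1)))) (a (a (b (a (b (a (c (a (l 15107344) (l 15223200)) (a (l 15079184) (l 15240976))) (l 15490848)) (a (c (l 14986376) (a (l 15079184) (l 15240976))) (l 15490848))) (b (l 15715904) (l 15967568)))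 (a (a (a (c (l 15107344) (b (l 15079184) (l 15079184))) (l 14962960)) (l 15490848)) (l 15946592))) (b (b (a (l 16410784) (l 16730856)) (l 16555552)) (l 16555552))) (l 1)))), by decide +kernel⟩

theorem c_pp_033 : CertFX 0 536870912 0 1230186008 1046898278 26843546 false true true .pnn 0 3 3
    ndF5q0 ndF5q3 pcF3 Cut.none Ext.none :=
  certFX0 (fam := false) (s1 := true) (s2 := true) (a := 0) (b := 3) (c := 3) (cn := .pnn) (n1 := ndF5q0) (n2 := ndF5q3) (pc := pcF3) (cut := Cut.none) (xt := Ext.none) (P1 := 0) (W1 := 536870912) (P2 := 0) (W2 := 1230186008) (P3 := 1046898278) (W3 := 26843546)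
    rfl k0_pp_033

noncomputable def f_pp_101 : ℕ → ℕ → ℕ → ℕ → Bool := onCell 536870912 469762048 536870912 469762048 1046898278 26843546
    (rowFX 0 false true true .npn 1 0 1 (qsf 536870912 469762048 536870912 469762048 0) ndF5q1 ndF5q1 pcF0 Cut.none Ext.none)

def k0_pp_101 : ∃ t, chk3 f_pp_101 t 1 1 1 = true :=
  ⟨(l 3), by decide +kernel⟩

theorem c_pp_101 : CertFX 536870912 469762048 536870912 469762048 1046898278 26843546 false true true .npn 1 0 1
    ndF5q1 ndF5q1 pcF0 Cut.none Ext.none :=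
  certFX0 (fam := false) (s1 := true) (s2 := true) (a := 1) (b := 0) (c := 1) (cn := .npn) (n1 := ndF5q1) (n2 := ndF5q1) (pc := pcF0) (cut := Cut.none) (xt := Ext.none) (P1 := 536870912) (W1 := 469762048) (P2 := 536870912) (W2 := 469762048) (P3 := 1046898278) (W3 := 26843546)
    rfl k0_pp_101

noncomputable def f_pp_102 : ℕ → ℕ → ℕ → ℕ → Bool := onCell 536870912 469762048 0 536870912 1046898278 26843546
    (rowFX 1 false true true .npp 1 0 2 (qsf 536870912 469762048 1073741824 536870912 0) ndF5q1 ndF5q2 pcF0 Cut.none Ext.none)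

def k0_pp_102 : ∃ t, chk3 f_pp_102 t 1 1 1 = true :=
  ⟨(b (l 3) (a (l 3) (b (l 3) (a (b (l 3) (a (l 3) (b (l 3) (l 16694216)))) (a (b (l 3) (b (a (l 16515152) (l 16143272)) (a (l 16515152) (l 16143272)))) (b (c (a (l 15646792) (l 15148528)) (a (l 15617760) (l 14985760))) (c (a (l 15646792) (l 15148528)) (a (l 15617760) (l 15111592))))))))), by decide +kernel⟩

theorem c_pp_102 : CertFX 536870912 469762048 1073741824 536870912 1046898278 26843546 false true true .npp 1 0 2
    ndF5q1 ndF5q2 pcF0 Cut.none Ext.none :=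
  certFX1 (fam := false) (s1 := true) (s2 := true) (a := 1) (b := 0) (c := 2) (cn := .npp) (n1 := ndF5q1) (n2 := ndF5q2) (pc := pcF0) (cut := Cut.none) (xt := Ext.none) (P1 := 536870912) (W1 := 469762048) (P2 := 1073741824) (W2 := 536870912) (P3 := 1046898278) (W3 := 26843546)
    rfl (fun _ => rfl) k0_pp_102

noncomputable def f_pp_112 : ℕ → ℕ → ℕ → ℕ → Bool := onCell 536870912 536870912 1073741824 536870912 1046898278 26843546
    (rowFX 2 false true true .dn 1 1 2 (qsf 536870912 469762048 1073741824 536870912 1) ndF5q1 ndF5q2 pcF1 Cut.none Ext.none)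

def k0_pp_112 : ∃ t, chk3 f_pp_112 t 1 1 1 = true :=
  ⟨(a (b (b (a (l 3) (a (l 3) (l 1))) (a (b (l 3) (b (a (l 3) (c (l 16264296) (l 16338128))) (a (l 303499778679) (c (l 16776672) (l 16776656))))) (b (b (a (b (l 3) (l 198269131271)) (l 1)) (a (c (l 15596456) (l 15587304)) (l 423084980071))) (b (a (c (l 16306240) (l 16359096)) (l 16238296)) (a (l 16776664) (l 16776664)))))) (a (b (a (b (a (l 16756152) (l 16777184)) (a (b (l 16647896) (a (l 16328864) (l 16536064))) (l 16671728))) (c (l 16641672) (l 16767248))) (a (b (a (b (c (l 15980568) (l 15919816)) (c (l 15472024) (l 15336560))) (b (c (l 16453376) (l 16444968)) (a (l 15890576) (l 16173384)))) (a (b (c (l 14881928) (l 14862072)) (a (l 2) (b (l 261551757943) (l 2)))) (c (b (l 15472024) (l 14881928)) (b (l 15441416) (l 14862072))))) (b (a (c (l 16542920) (l 16494896)) (l 16692704)) (a (a (c (l 15557000) (l 15381208)) (b (l 16173384) (l 15600568))) (b (l 16449168) (l 15992160)))))) (b (a (l 16777216) (l 16777216)) (a (a (b (l 16756152)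 (l 16518912)) (l 16728608)) (l 16767376))))) (b (a (b (l 1) (b (l 1) (a (b (l 1) (l 16774272)) (l 1)))) (l 1)) (a (a (b (b (l 16773920) (l 16772960)) (l 16772936)) (b (a (l 16753368) (l 582001877991)) (l 16755488))) (b (b (l 1) (l 564283721703)) (a (l 16566760) (l 16255792)))))), by decide +kernel⟩

theorem c_pp_112 : CertFX 536870912 469762048 1073741824 536870912 1046898278 26843546 false true true .dn 1 1 2
    ndF5q1 ndF5q2 pcF1 Cut.none Ext.none :=
  certFX2 (fam := false) (s1 := true) (s2 := true) (a := 1) (b := 1) (c := 2) (cn := .dn) (n1 := ndF5q1) (n2 := ndF5q2) (pc := pcF1) (cut := Cut.none) (xt := Ext.none) (P1 := 536870912) (W1 := 469762048) (P2 := 1073741824) (W2 := 536870912) (P3 := 1046898278) (W3 := 26843546)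
    rfl (fun _ => rfl) k0_pp_112

noncomputable def f_pp_113 : ℕ → ℕ → ℕ → ℕ → Bool := onCell 536870912 469762048 0 1230186008 1046898278 26843546
    (rowFX 0 false true true .nn 1 1 3 (qsf 536870912 469762048 0 1230186008 1) ndF5q1 ndF5q3 pcF1 Cut.none Ext.none)

def k0_pp_113 : ∃ t, chk3 f_pp_113 t 1 1 1 = true :=
  ⟨(b (a (l 2) (b (l 2) (a (l 2) (a (l 2) (b (l 13146864) (b (l 13632816) (l 14027728))))))) (b (a (l 2) (b (a (a (l 2) (l 14766536)) (a (b (l 14694344) (l 15240440)) (b (l 14472304) (l 14876888)))) (a (b (a (l 2) (l 15645528)) (a (l 15891632) (l 16207952))) (a (b (l 15785304) (l 16182008)) (b (l 15223896) (a (l 15618384) (l 15144048))))))) (a (b (a (l 2) (a (b (l 2) (l 16197984)) (b (l 16106832) (l 16423128)))) (a (b (a (l 2) (l 16192376)) (a (l 16188304) (l 16396536))) (b (a (l 16398384) (l 16607512)) (a (l 16623936) (l 16762704))))) (b (a (b (a (l 16399136) (l 16548896)) (a (l 16615672) (l 16673960))) (a (b (l 16132696) (l 16343144)) (a (l 15640408) (l 15133208))))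 (a (b (a (l 16753992) (l 16705056)) (l 16743448)) (b (a (l 16333120) (l 15382600)) (a (l 16332128) (a (l 15632304) (l 15129880))))))))), by decide +kernel⟩

theorem c_pp_113 : CertFX 536870912 469762048 0 1230186008 1046898278 26843546 false true true .nn 1 1 3
    ndF5q1 ndF5q3 pcF1 Cut.none Ext.none :=
  certFX0 (fam := false) (s1 := true) (s2 := true) (a := 1) (b := 1) (c := 3) (cn := .nn) (n1 := ndF5q1) (n2 := ndF5q3) (pc := pcF1) (cut := Cut.none) (xt := Ext.none) (P1 := 536870912) (W1 := 469762048) (P2 := 0) (W2 := 1230186008) (P3 := 1046898278) (W3 := 26843546)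
    rfl k0_pp_113

noncomputable def f_pp_123 : ℕ → ℕ → ℕ → ℕ → Bool := onCell 1073741824 536870912 0 1230186008 1046898278 26843546
    (rowFX 2 false true true .npn 1 2 3 (qsf 536870912 469762048 0 1230186008 2) ndF5q1 ndF5q3 pcF2 Cut.none Ext.none)

def k0_pp_123 : ∃ t, chk3 f_pp_123 t 1 1 1 = true :=
  ⟨(a (b (a (b (a (a (l 2) (b (l 16303848) (l 15502064))) (a (l 15713832) (l 15591168))) (a (b (a (l 14731176) (l 14779848)) (a (l 14015048) (l 14628848))) (b (a (l 15026040) (l 15105720)) (l 14964792)))) (b (a (a (l 15556984) (l 4)) (l 4)) (a (b (l 15463848) (l 15441816)) (a (l 15921888) (l 16176008))))) (b (a (a (b (l 14769576) (l 15215280)) (b (l 15084056) (l 15287528))) (a (l 15275056) (l 16247640))) (a (b (a (l 15534424) (l 15467200)) (a (l 15680952) (l 15437256))) (a (a (a (l 738764169287) (l 744133160151)) (a (l 746281330791) (l 750040080679))) (a (l 745209161351) (l 768833075799)))))) (b (b (l 4) (a (a (l 16497656) (l 16736048)) (a (l 16743472) (l 4)))) (b (a (a (l 16609376)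 (l 16771432)) (l 1012572094903)) (l 1)))), by decide +kernel⟩

theorem c_pp_123 : CertFX 536870912 469762048 0 1230186008 1046898278 26843546 false true true .npn 1 2 3
    ndF5q1 ndF5q3 pcF2 Cut.none Ext.none :=
  certFX2 (fam := false) (s1 := true) (s2 := true) (a := 1) (b := 2) (c := 3) (cn := .npn) (n1 := ndF5q1) (n2 := ndF5q3) (pc := pcF2) (cut := Cut.none) (xt := Ext.none) (P1 := 536870912) (W1 := 469762048) (P2 := 0) (W2 := 1230186008) (P3 := 1046898278) (W3 := 26843546)
    rfl (fun _ => rfl) k0_pp_123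

noncomputable def f_pp_133 : ℕ → ℕ → ℕ → ℕ → Bool := onCell 1610612736 536870912 0 1230186008 1046898278 26843546
    (rowFX 2 false true true .dn 1 3 3 (qsf 536870912 469762048 0 1230186008 3) ndF5q1 ndF5q3 pcF3 Cut.none Ext.none)

def k0_pp_133 : ∃ t, chk3 f_pp_133 t 1 1 1 = true :=
  ⟨(b (b (l 4) (l 1)) (l 1)), by decide +kernel⟩

theorem c_pp_133 : CertFX 536870912 469762048 0 1230186008 1046898278 26843546 false true true .dn 1 3 3
    ndF5q1 ndF5q3 pcF3 Cut.none Ext.none :=
  certFX2 (fam := false) (s1 := true) (s2 := true) (a := 1) (b := 3) (c := 3) (cn := .dn) (n1 := ndF5q1) (n2 := ndF5q3) (pc := pcF3) (cut := Cut.none) (xt := Ext.none) (P1 := 536870912) (W1 := 469762048) (P2 := 0) (W2 := 1230186008) (P3 := 1046898278) (W3 := 26843546)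
    rfl (fun _ => rfl) k0_pp_133

noncomputable def f_pp_202 : ℕ → ℕ → ℕ → ℕ → Bool := onCell 1073741824 536870912 1073741824 536870912 1046898278 26843546
    (rowFX 0 false true true .pp 2 0 2 (qsf 1073741824 536870912 1073741824 536870912 0) ndF5q2 ndF5q2 pcF0 Cut.none Ext.none)

def k0_pp_202 : ∃ t, chk3 f_pp_202 t 1 1 1 = true :=
  ⟨(l 3), by decide +kernel⟩

theorem c_pp_202 : CertFX 1073741824 536870912 1073741824 536870912 1046898278 26843546 false true true .pp 2 0 2
    ndF5q2 ndF5q2 pcF0 Cut.none Ext.none :=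
  certFX0 (fam := false) (s1 := true) (s2 := true) (a := 2) (b := 0) (c := 2) (cn := .pp) (n1 := ndF5q2) (n2 := ndF5q2) (pc := pcF0) (cut := Cut.none) (xt := Ext.none) (P1 := 1073741824) (W1 := 536870912) (P2 := 1073741824) (W2 := 536870912) (P3 := 1046898278) (W3 := 26843546)
    rfl k0_pp_202

noncomputable def f_pp_203 : ℕ → ℕ → ℕ → ℕ → Bool := onCell 0 536870912 0 1230186008 1046898278 26843546
    (rowFX 2 false true true .up 2 0 3 (qsf 1073741824 536870912 0 1230186008 0) ndF5q2 ndF5q3 pcF0 Cut.none Ext.none)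

def k0_pp_203 : ∃ t, chk3 f_pp_203 t 1 1 1 = true :=
  ⟨(b (l 3) (l 3)), by decide +kernel⟩

theorem c_pp_203 : CertFX 1073741824 536870912 0 1230186008 1046898278 26843546 false true true .up 2 0 3
    ndF5q2 ndF5q3 pcF0 Cut.none Ext.none :=
  certFX2 (fam := false) (s1 := true) (s2 := true) (a := 2) (b := 0) (c := 3) (cn := .up) (n1 := ndF5q2) (n2 := ndF5q3) (pc := pcF0) (cut := Cut.none) (xt := Ext.none) (P1 := 1073741824) (W1 := 536870912) (P2 := 0) (W2 := 1230186008) (P3 := 1046898278) (W3 := 26843546)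
    rfl (fun _ => rfl) k0_pp_203

noncomputable def f_pp_213 : ℕ → ℕ → ℕ → ℕ → Bool := onCell 1073741824 536870912 0 1230186008 1046898278 26843546
    (rowFX 0 false true true .pnn 2 1 3 (qsf 1073741824 536870912 0 1230186008 1) ndF5q2 ndF5q3 pcF1 Cut.none Ext.none)

def k0_pp_213 : ∃ t, chk3 f_pp_213 t 1 1 1 = true :=
  ⟨(b (a (a (b (a (b (a (a (c (b (l 16326976) (l 16218448)) (b (l 16259568) (l 16131888))) (c (b (l 16633440) (l 16633168)) (l 16572560))) (a (c (l 16384352) (l 16539512)) (l 16199928))) (a (a (b (c (a (l 16248336) (l 16415760)) (l 16170064)) (c (b (l 16332776) (l 16376760)) (l 16352160))) (b (c (l 16437296) (l 16441432)) (b (l 16369600) (l 16278984)))) (b (a (l 16392088) (l 16154152)) (a (l 148879598199) (l 15989000))))) (b (a (b (l 15820776) (l 15682144)) (b (l 15234648) (l 15217928))) (a (b (a (l 15878024) (l 15591216)) (l 3)) (l 3)))) (a (b (a (b (a (b (a (l 16212808) (l 16195936)) (l 16140944)) (l 234778604167)) (l 3)) (l 3)) (l 3)) (l 3))) (b (b (l 3) (l 3))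 (l 3))) (l 3)) (b (l 3) (l 3))), by decide +kernel⟩

theorem c_pp_213 : CertFX 1073741824 536870912 0 1230186008 1046898278 26843546 false true true .pnn 2 1 3
    ndF5q2 ndF5q3 pcF1 Cut.none Ext.none :=
  certFX0 (fam := false) (s1 := true) (s2 := true) (a := 2) (b := 1) (c := 3) (cn := .pnn) (n1 := ndF5q2) (n2 := ndF5q3) (pc := pcF1) (cut := Cut.none) (xt := Ext.none) (P1 := 1073741824) (W1 := 536870912) (P2 := 0) (W2 := 1230186008) (P3 := 1046898278) (W3 := 26843546)
    rfl k0_pp_213

noncomputable def f_pp_303 : ℕ → ℕ → ℕ → ℕ → Bool := onCell 0 1230186008 0 1230186008 1046898278 26843546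
    (rowFX 0 false true true .npn 3 0 3 (qsf 0 1230186008 0 1230186008 0) ndF5q3 ndF5q3 pcF0 Cut.none Ext.none)

def k0_pp_303 : ∃ t, chk3 f_pp_303 t 1 1 1 = true :=
  ⟨(a (b (l 3) (l 3)) (b (l 3) (l 3))), by decide +kernel⟩

theorem c_pp_303 : CertFX 0 1230186008 0 1230186008 1046898278 26843546 false true true .npn 3 0 3
    ndF5q3 ndF5q3 pcF0 Cut.none Ext.none :=
  certFX0 (fam := false) (s1 := true) (s2 := true) (a := 3) (b := 0) (c := 3) (cn := .npn) (n1 := ndF5q3) (n2 := ndF5q3) (pc := pcF0) (cut := Cut.none) (xt := Ext.none) (P1 := 0) (W1 := 1230186008) (P2 := 0) (W2 := 1230186008) (P3 := 1046898278) (W3 := 26843546)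
    rfl k0_pp_303

noncomputable def f_pp_313 : ℕ → ℕ → ℕ → ℕ → Bool := onCell 0 1230186008 0 1230186008 1046898278 26843546
    (rowFX 0 false true true .dn 3 1 3 (qsf 0 1230186008 0 1230186008 1) ndF5q3 ndF5q3 pcF1 Cut.none Ext.none)

def k0_pp_313 : ∃ t, chk3 f_pp_313 t 1 1 1 = true :=
  ⟨(a (l 1) (b (l 3) (l 1))), by decide +kernel⟩

theorem c_pp_313 : CertFX 0 1230186008 0 1230186008 1046898278 26843546 false true true .dn 3 1 3
    ndF5q3 ndF5q3 pcF1 Cut.none Ext.none :=
  certFX0 (fam := false) (s1 := true) (s2 := true) (a := 3) (b := 1) (c := 3) (cn := .dn) (n1 := ndF5q3) (n2 := ndF5q3) (pc := pcF1) (cut := Cut.none) (xt := Ext.none) (P1 := 0) (W1 := 1230186008) (P2 := 0) (W2 := 1230186008) (P3 := 1046898278) (W3 := 26843546)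
    rfl k0_pp_313

noncomputable def f_pm_001 : ℕ → ℕ → ℕ → ℕ → Bool := onCell 0 536870912 536870912 469762048 1046898278 26843546
    (rowFX 0 false true false .up 0 0 1 (qsf 0 536870912 536870912 469762048 0) ndF5q0 ndF5q1 pcF0 Cut.none Ext.none)

def k0_pm_001 : ∃ t, chk3 f_pm_001 t 1 1 1 = true :=
  ⟨(l 4), by decide +kernel⟩

theorem c_pm_001 : CertFX 0 536870912 536870912 469762048 1046898278 26843546 false true false .up 0 0 1
    ndF5q0 ndF5q1 pcF0 Cut.none Ext.none :=
  certFX0 (fam := false) (s1 := true) (s2 := false) (a := 0) (b := 0) (c := 1) (cn := .up) (n1 := ndF5q0) (n2 := ndF5q1) (pc := pcF0) (cut := Cut.none) (xt := Ext.none) (P1 := 0) (W1 := 536870912) (P2 := 536870912) (W2 := 469762048) (P3 := 1046898278) (W3 := 26843546)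
    rfl k0_pm_001

noncomputable def f_pm_011 : ℕ → ℕ → ℕ → ℕ → Bool := onCell 0 536870912 536870912 469762048 1046898278 26843546
    (rowFX 0 false true false .pnn 0 1 1 (qsf 0 536870912 536870912 469762048 1) ndF5q0 ndF5q1 pcF1 Cut.none Ext.none)

def k0_pm_011 : ∃ t, chk3 f_pm_011 t 1 1 1 = true :=
  ⟨(l 4), by decide +kernel⟩

theorem c_pm_011 : CertFX 0 536870912 536870912 469762048 1046898278 26843546 false true false .pnn 0 1 1
    ndF5q0 ndF5q1 pcF1 Cut.none Ext.none :=
  certFX0 (fam := false) (s1 := true) (s2 := false) (a := 0) (b := 1) (c := 1) (cn := .pnn) (n1 := ndF5q0) (n2 := ndF5q1) (pc := pcF1) (cut := Cut.none) (xt := Ext.none) (P1 := 0) (W1 := 536870912) (P2 := 536870912) (W2 := 469762048) (P3 := 1046898278) (W3 := 26843546)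
    rfl k0_pm_011

noncomputable def f_pm_012 : ℕ → ℕ → ℕ → ℕ → Bool := onCell 0 536870912 1073741824 536870912 1046898278 26843546
    (rowFX 0 false true false .pnp 0 1 2 (qsf 0 536870912 1073741824 536870912 1) ndF5q0 ndF5q2 pcF1 Cut.none Ext.none)

def k0_pm_012 : ∃ t, chk3 f_pm_012 t 1 1 1 = true :=
  ⟨(l 4), by decide +kernel⟩

theorem c_pm_012 : CertFX 0 536870912 1073741824 536870912 1046898278 26843546 false true false .pnp 0 1 2
    ndF5q0 ndF5q2 pcF1 Cut.none Ext.none :=
  certFX0 (fam := false) (s1 := true) (s2 := false) (a := 0) (b := 1) (c := 2) (cn := .pnp) (n1 := ndF5q0) (n2 := ndF5q2) (pc := pcF1) (cut := Cut.none) (xt := Ext.none) (P1 := 0) (W1 := 536870912) (P2 := 1073741824) (W2 := 536870912) (P3 := 1046898278) (W3 := 26843546)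
    rfl k0_pm_012

noncomputable def f_pm_022 : ℕ → ℕ → ℕ → ℕ → Bool := onCell 0 536870912 1073741824 536870912 1046898278 26843546
    (rowFX 0 false true false .pp 0 2 2 (qsf 0 536870912 1073741824 536870912 2) ndF5q0 ndF5q2 pcF2 Cut.none Ext.none)

def k0_pm_022 : ∃ t, chk3 f_pm_022 t 1 1 1 = true :=
  ⟨(l 4), by decide +kernel⟩

theorem c_pm_022 : CertFX 0 536870912 1073741824 536870912 1046898278 26843546 false true false .pp 0 2 2
    ndF5q0 ndF5q2 pcF2 Cut.none Ext.none :=
  certFX0 (fam := false) (s1 := true) (s2 := false) (a := 0) (b := 2) (c := 2) (cn := .pp) (n1 := ndF5q0) (n2 := ndF5q2) (pc := pcF2) (cut := Cut.none) (xt := Ext.none) (P1 := 0) (W1 := 536870912) (P2 := 1073741824) (W2 := 536870912) (P3 := 1046898278) (W3 := 26843546)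
    rfl k0_pm_022

noncomputable def f_pm_023 : ℕ → ℕ → ℕ → ℕ → Bool := onCell 0 536870912 0 1230186008 1046898278 26843546
    (rowFX 0 false true false .up 0 2 3 (qsf 0 536870912 0 1230186008 2) ndF5q0 ndF5q3 pcF2 Cut.none Ext.none)

def k0_pm_023 : ∃ t, chk3 f_pm_023 t 1 1 1 = true :=
  ⟨(b (l 4) (l 4)), by decide +kernel⟩

theorem c_pm_023 : CertFX 0 536870912 0 1230186008 1046898278 26843546 false true false .up 0 2 3
    ndF5q0 ndF5q3 pcF2 Cut.none Ext.none :=
  certFX0 (fam := false) (s1 := true) (s2 := false) (a := 0) (b := 2) (c := 3) (cn := .up) (n1 := ndF5q0) (n2 := ndF5q3) (pc := pcF2) (cut := Cut.none) (xt := Ext.none) (P1 := 0) (W1 := 536870912) (P2 := 0) (W2 := 1230186008) (P3 := 1046898278) (W3 := 26843546)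
    rfl k0_pm_023

noncomputable def f_pm_033 : ℕ → ℕ → ℕ → ℕ → Bool := onCell 0 536870912 0 1230186008 1046898278 26843546
    (rowFX 0 false true false .pnn 0 3 3 (qsf 0 536870912 0 1230186008 3) ndF5q0 ndF5q3 pcF3 Cut.none Ext.none)

def k0_pm_033 : ∃ t, chk3 f_pm_033 t 1 1 1 = true :=
  ⟨(b (l 4) (l 4)), by decide +kernel⟩

theorem c_pm_033 : CertFX 0 536870912 0 1230186008 1046898278 26843546 false true false .pnn 0 3 3
    ndF5q0 ndF5q3 pcF3 Cut.none Ext.none :=
  certFX0 (fam := false) (s1 := true) (s2 := false) (a := 0) (b := 3) (c := 3) (cn := .pnn) (n1 := ndF5q0) (n2 := ndF5q3) (pc := pcF3) (cut := Cut.none) (xt := Ext.none) (P1 := 0) (W1 := 536870912) (P2 := 0) (W2 := 1230186008) (P3 := 1046898278) (W3 := 26843546)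
    rfl k0_pm_033

noncomputable def f_pm_101 : ℕ → ℕ → ℕ → ℕ → Bool := onCell 536870912 469762048 536870912 469762048 1046898278 26843546
    (rowFX 0 false true false .npn 1 0 1 (qsf 536870912 469762048 536870912 469762048 0) ndF5q1 ndF5q1 pcF0 Cut.none Ext.none)

def k0_pm_101 : ∃ t, chk3 f_pm_101 t 1 1 1 = true :=
  ⟨(l 4), by decide +kernel⟩

theorem c_pm_101 : CertFX 536870912 469762048 536870912 469762048 1046898278 26843546 false true false .npn 1 0 1
    ndF5q1 ndF5q1 pcF0 Cut.none Ext.none :=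
  certFX0 (fam := false) (s1 := true) (s2 := false) (a := 1) (b := 0) (c := 1) (cn := .npn) (n1 := ndF5q1) (n2 := ndF5q1) (pc := pcF0) (cut := Cut.none) (xt := Ext.none) (P1 := 536870912) (W1 := 469762048) (P2 := 536870912) (W2 := 469762048) (P3 := 1046898278) (W3 := 26843546)
    rfl k0_pm_101

noncomputable def f_pm_102 : ℕ → ℕ → ℕ → ℕ → Bool := onCell 536870912 469762048 1073741824 536870912 1046898278 26843546
    (rowFX 0 false true false .npp 1 0 2 (qsf 536870912 469762048 1073741824 536870912 0) ndF5q1 ndF5q2 pcF0 Cut.none Ext.none)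

def k0_pm_102 : ∃ t, chk3 f_pm_102 t 1 1 1 = true :=
  ⟨(l 4), by decide +kernel⟩

theorem c_pm_102 : CertFX 536870912 469762048 1073741824 536870912 1046898278 26843546 false true false .npp 1 0 2
    ndF5q1 ndF5q2 pcF0 Cut.none Ext.none :=
  certFX0 (fam := false) (s1 := true) (s2 := false) (a := 1) (b := 0) (c := 2) (cn := .npp) (n1 := ndF5q1) (n2 := ndF5q2) (pc := pcF0) (cut := Cut.none) (xt := Ext.none) (P1 := 536870912) (W1 := 469762048) (P2 := 1073741824) (W2 := 536870912) (P3 := 1046898278) (W3 := 26843546)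
    rfl k0_pm_102

noncomputable def f_pm_112 : ℕ → ℕ → ℕ → ℕ → Bool := onCell 536870912 469762048 1073741824 536870912 1046898278 26843546
    (rowFX 0 false true false .dn 1 1 2 (qsf 536870912 469762048 1073741824 536870912 1) ndF5q1 ndF5q2 pcF1 Cut.none Ext.none)

def k0_pm_112 : ∃ t, chk3 f_pm_112 t 1 1 1 = true :=
  ⟨(l 4), by decide +kernel⟩

theorem c_pm_112 : CertFX 536870912 469762048 1073741824 536870912 1046898278 26843546 false true false .dn 1 1 2
    ndF5q1 ndF5q2 pcF1 Cut.none Ext.none :=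
  certFX0 (fam := false) (s1 := true) (s2 := false) (a := 1) (b := 1) (c := 2) (cn := .dn) (n1 := ndF5q1) (n2 := ndF5q2) (pc := pcF1) (cut := Cut.none) (xt := Ext.none) (P1 := 536870912) (W1 := 469762048) (P2 := 1073741824) (W2 := 536870912) (P3 := 1046898278) (W3 := 26843546)
    rfl k0_pm_112

noncomputable def f_pm_113 : ℕ → ℕ → ℕ → ℕ → Bool := onCell 536870912 469762048 0 1230186008 1046898278 26843546
    (rowFX 0 false true false .nn 1 1 3 (qsf 536870912 469762048 0 1230186008 1) ndF5q1 ndF5q3 pcF1 Cut.none Ext.none)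

def k0_pm_113 : ∃ t, chk3 f_pm_113 t 1 1 1 = true :=
  ⟨(b (b (l 2) (l 4)) (l 4)), by decide +kernel⟩

theorem c_pm_113 : CertFX 536870912 469762048 0 1230186008 1046898278 26843546 false true false .nn 1 1 3
    ndF5q1 ndF5q3 pcF1 Cut.none Ext.none :=
  certFX0 (fam := false) (s1 := true) (s2 := false) (a := 1) (b := 1) (c := 3) (cn := .nn) (n1 := ndF5q1) (n2 := ndF5q3) (pc := pcF1) (cut := Cut.none) (xt := Ext.none) (P1 := 536870912) (W1 := 469762048) (P2 := 0) (W2 := 1230186008) (P3 := 1046898278) (W3 := 26843546)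
    rfl k0_pm_113

noncomputable def f_pm_123 : ℕ → ℕ → ℕ → ℕ → Bool := onCell 536870912 469762048 0 1230186008 1046898278 26843546
    (rowFX 0 false true false .npn 1 2 3 (qsf 536870912 469762048 0 1230186008 2) ndF5q1 ndF5q3 pcF2 Cut.none Ext.none)

def k0_pm_123 : ∃ t, chk3 f_pm_123 t 1 1 1 = true :=
  ⟨(b (b (l 4) (l 4)) (l 4)), by decide +kernel⟩

theorem c_pm_123 : CertFX 536870912 469762048 0 1230186008 1046898278 26843546 false true false .npn 1 2 3
    ndF5q1 ndF5q3 pcF2 Cut.none Ext.none :=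
  certFX0 (fam := false) (s1 := true) (s2 := false) (a := 1) (b := 2) (c := 3) (cn := .npn) (n1 := ndF5q1) (n2 := ndF5q3) (pc := pcF2) (cut := Cut.none) (xt := Ext.none) (P1 := 536870912) (W1 := 469762048) (P2 := 0) (W2 := 1230186008) (P3 := 1046898278) (W3 := 26843546)
    rfl k0_pm_123

noncomputable def f_pm_133 : ℕ → ℕ → ℕ → ℕ → Bool := onCell 1610612736 536870912 0 1230186008 1046898278 26843546
    (rowFX 2 false true false .dn 1 3 3 (qsf 536870912 469762048 0 1230186008 3) ndF5q1 ndF5q3 pcF3 Cut.none Ext.none)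

def k0_pm_133 : ∃ t, chk3 f_pm_133 t 1 1 1 = true :=
  ⟨(b (l 4) (l 1)), by decide +kernel⟩

theorem c_pm_133 : CertFX 536870912 469762048 0 1230186008 1046898278 26843546 false true false .dn 1 3 3
    ndF5q1 ndF5q3 pcF3 Cut.none Ext.none :=
  certFX2 (fam := false) (s1 := true) (s2 := false) (a := 1) (b := 3) (c := 3) (cn := .dn) (n1 := ndF5q1) (n2 := ndF5q3) (pc := pcF3) (cut := Cut.none) (xt := Ext.none) (P1 := 536870912) (W1 := 469762048) (P2 := 0) (W2 := 1230186008) (P3 := 1046898278) (W3 := 26843546)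
    rfl (fun _ => rfl) k0_pm_133

noncomputable def f_pm_202 : ℕ → ℕ → ℕ → ℕ → Bool := onCell 1073741824 536870912 0 536870912 1046898278 26843546
    (rowFX 1 false true false .pp 2 0 2 (qsf 1073741824 536870912 1073741824 536870912 0) ndF5q2 ndF5q2 pcF0 Cut.none Ext.none)

def k0_pm_202 : ∃ t, chk3 f_pm_202 t 4 16 1 = true :=
  ⟨(a (b (c (b (a (a (l 56403831431) (b (l 16646080) (l 16430672))) (c (l 15932664) (l 15764760))) (a (c (a (b (l 16415640) (l 16635920)) (b (l 16350312) (l 16401400))) (a (b (l 16565496) (l 16604048)) (b (l 16487416) (l 16447000)))) (c (b (l 15619408) (l 15757624)) (b (l 15810200) (l 15772512))))) (b (a (c (b (l 16437432) (a (l 16347904) (l 16531920))) (b (a (b (l 16281464) (l 16319608)) (c (l 16620536) (l 16533408))) (a (l 16489784) (l 16551760)))) (c (b (l 15931896) (l 15716416)) (b (c (l 15920528) (l 15724272)) (l 15853344)))) (a (c (a (l 16501056) (l 16461176)) (l 16490368)) (c (l 15776816) (l 15746568))))) (c (a (b (a (c (l 16520064) (l 16634488)) (c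 (b (l 16391432) (l 16328000)) (l 16352424))) (a (l 16515552) (l 16180872))) (b (c (l 15475960) (l 15683432)) (l 15460864))) (a (a (l 16513880) (l 16166096)) (l 15553016)))) (b (c (b (a (l 15079488) (l 14308456)) (c (a (b (l 14979320) (l 14933128)) (b (l 14222080) (l 14180488))) (b (l 14473296) (l 14299648)))) (b (c (b (l 14668456) (a (l 15006976) (l 14224136))) (b (a (l 14919344) (l 14247272)) (l 14497952))) (c (a (l 14927672) (l 14152192)) (l 14492408)))) (c (a (b (c (l 14887392) (l 14854064)) (l 14751872)) (b (a (l 14294696) (c (l 14021320) (l 13977416))) (a (l 14188784) (l 14048008)))) (a (l 14715416) (a (l 14135552) (l 13936448)))))), by decide +kernel⟩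

def k1_pm_202 : ∃ t, chk3 f_pm_202 t 4 17 1 = true :=
  ⟨(a (a (b (c (a (a (l 16448592) (l 16239312)) (l 15944264)) (l 15952872)) (c (a (l 15955640) (l 15683400)) (l 15870744))) (c (b (c (l 15367008) (l 15314616)) (c (l 15072088) (l 15038616))) (l 15056288))) (a (b (c (l 14546304) (l 14459240)) (c (a (l 14470552) (b (l 14219960) (l 14250696))) (l 14113624))) (b (a (c (b (l 14115352) (l 14143368)) (l 14060264)) (l 14209944)) (c (l 14463976) (l 14398192))))), by decide +kernel⟩

def k2_pm_202 : ∃ t, chk3 f_pm_202 t 5 8 1 = true :=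
  ⟨(a (b (b (a (c (a (b (c (l 13858648) (l 13812184)) (c (b (l 13848056) (l 13915416)) (l 13870432))) (b (l 14222312) (c (l 14412240) (l 14393432)))) (b (a (c (l 13731456) (b (c (l 13728856) (l 13707944)) (l 13719624))) (c (l 14167912) (b (l 14082456) (l 14182504)))) (a (c (l 13835368) (l 13783240)) (l 14346912)))) (c (b (a (l 15031584) (l 15803752)) (a (c (l 15207912) (l 15199544)) (c (l 15882376) (l 15968224)))) (b (a (b (l 14701656) (l 14789736)) (c (l 15719352) (b (l 15618288) (l 15814232)))) (a (l 15169352) (l 15702592))))) (a (c (a (c (l 14176408) (l 14124544)) (b (l 14609392) (l 14787016))) (a (l 14045752) (l 14609440))) (c (a (b (l 15400736) (l 15569592)) (b (l 16091296) (l 16313800))) (a (l 15419264) (l 16128368))))) (b (a (a (l 14439120) (l 14978400)) (a (c (l 15781512) (l 15734608)) (c (l 16418744) (l 16413720)))) (a (a (l 14753968) (l 15277000)) (a (a (l 15791552) (l 16128560)) (l 16452560))))) (b (b (a (c (b (a (l 16460328) (l 15739160)) (a (c (l 16316752) (l 16296920))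 (c (l 15694048) (l 15663752)))) (b (c (a (l 16468176) (l 15708736)) (a (b (l 16339872) (l 16427288)) (b (l 15661568) (l 15685656)))) (a (l 16126800) (l 15604184)))) (c (b (l 15371616) (l 15410128)) (b (c (l 15353368) (l 15341328)) (l 15370832)))) (a (c (a (b (l 16069784) (l 16055832)) (l 15652448)) (a (l 16151776) (l 15673992))) (c (l 15430032) (l 15445464)))) (a (c (b (l 15923608) (l 16035920)) (l 15984232)) (l 15595808)))), by decide +kernel⟩

def k3_pm_202 : ∃ t, chk3 f_pm_202 t 2 9 1 = true :=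
  ⟨(a (a (b (a (b (c (l 15610296) (l 15579568)) (l 15311496)) (b (c (l 14789072) (l 14737152)) (a (l 14698176) (c (l 14503952) (l 14443904))))) (a (a (l 15126160) (b (l 14835728) (a (l 14763744) (l 14724672)))) (a (b (a (l 14597848) (l 14562416)) (l 14834584)) (l 14856264)))) (b (a (b (a (c (l 14379584) (l 14317248)) (l 14433608)) (l 14658944)) (c (l 14931712) (l 14885424))) (a (l 15017352) (b (a (l 15255112) (l 15354024)) (l 15421752))))) (a (b (a (a (b (l 15051488) (l 15256592)) (b (l 15483504) (l 15505048))) (c (l 16153944) (l 16142920))) (a (b (l 15184256) (a (l 15220224) (l 15369648))) (b (b (l 16048616) (l 16019544)) (l 15977896)))) (a (b (b (l 16133792) (l 16231632)) (b (l 16340784) (l 16406248))) (b (c (l 15668424) (l 15827128)) (b (l 16024488) (l 16095080)))))), by decide +kernel⟩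

def k4_pm_202 : ∃ t, chk3 f_pm_202 t 2 5 1 = true :=
  ⟨(a (b (a (b (a (a (b (a (l 14935016) (l 14891944)) (l 15159424)) (l 15170672)) (b (l 15273792) (l 15383736))) (b (a (l 15478328) (a (l 15816784) (l 15886480))) (a (l 15891448) (a (l 16028712) (l 15915536))))) (b (a (a (b (l 15529688) (l 15706688)) (b (l 15509896) (l 15647936))) (c (l 15413496) (l 15377672))) (c (a (l 15664464) (l 15285472)) (l 15440272)))) (b (a (a (a (b (l 16113584) (l 16229376)) (b (l 16170536) (l 16187288))) (c (l 15910768) (l 15889432))) (c (l 15323632) (l 15287376))) (a (c (a (l 16253688) (l 15824640)) (l 15826944)) (l 15163848)))) (b (a (a (b (a (l 15126168) (l 15288456)) (a (l 15003712) (l 15163672))) (b (l 15756848) (l 15761616))) (a (b (l 16433608) (l 16416576)) (b (l 16234696) (l 16457288)))) (a (b (a (a (l 14870888) (l 15032584)) (l 15667472)) (a (l 14885376) (l 15602456))) (b (a (l 16442544) (l 16654608)) (a (l 16385136) (l 16776720)))))), by decide +kernel⟩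

def k5_pm_202 : ∃ t, chk3 f_pm_202 t 6 2 1 = true :=
  ⟨(b (c (b (b (b (b (l 15241536) (a (l 15338872) (l 15230152))) (a (l 15358952) (c (b (l 15168992) (l 15236400)) (l 15073504)))) (b (a (l 15324248) (l 15288648)) (a (c (l 15586672) (l 15609600)) (c (l 15479248) (l 15467112))))) (b (b (a (l 15741352) (l 15657096)) (l 15783408)) (b (l 15825808) (l 15994816)))) (b (b (b (b (c (l 15221600) (a (l 15266584) (l 15153120))) (l 15240208)) (a (l 15375176) (l 15259640))) (c (a (l 15507112) (l 15465712)) (a (l 15486376) (l 15443784)))) (b (a (l 15797568) (b (l 15610528) (l 15750432))) (b (a (l 15960768) (l 15924304)) (l 15846704))))) (b (b (a (l 16229928) (l 16158888)) (l 349602420087)) (b (a (l 16648752) (l 432281338727)) (a (l 16777024) (l 2))))), by decide +kernel⟩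

def k6_pm_202 : ∃ t, chk3 f_pm_202 t 7 2 1 = true :=
  ⟨(b (b (b (b (a (b (c (l 15059376) (c (b (l 15027784) (l 15054480)) (b (a (l 15042280) (l 14977648)) (l 15030528)))) (a (c (b (l 15141224) (l 15152376)) (l 15093296)) (c (l 15005800) (l 15019600)))) (a (c (b (l 14946760) (c (l 14984104) (l 14953704))) (b (b (l 14868016) (l 14918224)) (l 14943688))) (c (b (l 14863488) (c (l 601928691783) (l 599781157863))) (b (c (l 14828488) (l 589580516055)) (l 595486160759))))) (c (a (b (a (l 15133944) (l 15061672)) (l 15097688)) (a (b (l 14993112) (l 15060232)) (c (l 14967392) (l 14971208)))) (a (a (l 15181080) (l 15109712)) (a (l 15018312) (l 14818816))))) (c (b (a (c (l 15214776) (l 15222576)) (c (l 15114736) (a (l 15163528) (l 15117568)))) (a (c (l 15276568) (l 15412440)) (l 607835041927))) (a (b (l 15176832) (l 15378592)) (b (a (l 15144976) (l 15100552)) (l 15253312))))) (b (c (b (a (a (l 15603432) (l 15527448)) (l 620183421255)) (l 597098358231)) (a (b (l 540189640167) (l 549853807351))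 (l 618036056183))) (a (c (l 577234602215) (l 563812782967)) (l 2)))) (b (b (l 627700898583) (l 2)) (l 2))), by decide +kernel⟩

def k7_pm_202 : ∃ t, chk3 f_pm_202 t 1 3 1 = true :=
  ⟨(a (a (b (b (a (l 16025520) (l 15226904)) (a (l 16025520) (l 15226904))) (a (b (l 16025520) (l 16025520)) (b (l 15226904) (l 15226904)))) (a (b (b (a (l 14885272) (l 15602360)) (a (l 14885272) (l 15602360))) (a (a (l 14801512) (l 2)) (l 2))) (b (a (b (l 16385096) (l 16385096)) (l 150961331463)) (l 2)))) (b (a (b (l 409733169111) (l 2)) (l 2)) (l 2))), by decide +kernel⟩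

theorem s8_pm_202 : ∃ t, chk3 f_pm_202 t 3 2 1 = true := ex3_a k5_pm_202 k6_pm_202

theorem s9_pm_202 : ∃ t, chk3 f_pm_202 t 4 8 1 = true := ex3_b k0_pm_202 k1_pm_202

theorem s10_pm_202 : ∃ t, chk3 f_pm_202 t 2 8 1 = true := ex3_a s9_pm_202 k2_pm_202

theorem s11_pm_202 : ∃ t, chk3 f_pm_202 t 2 4 1 = true := ex3_b s10_pm_202 k3_pm_202

theorem s12_pm_202 : ∃ t, chk3 f_pm_202 t 2 2 1 = true := ex3_b s11_pm_202 k4_pm_202

theorem s13_pm_202 : ∃ t, chk3 f_pm_202 t 1 2 1 = true := ex3_a s12_pm_202 s8_pm_202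

theorem s14_pm_202 : ∃ t, chk3 f_pm_202 t 1 1 1 = true := ex3_b s13_pm_202 k7_pm_202

theorem c_pm_202 : CertFX 1073741824 536870912 1073741824 536870912 1046898278 26843546 false true false .pp 2 0 2
    ndF5q2 ndF5q2 pcF0 Cut.none Ext.none :=
  certFX1 (fam := false) (s1 := true) (s2 := false) (a := 2) (b := 0) (c := 2) (cn := .pp) (n1 := ndF5q2) (n2 := ndF5q2) (pc := pcF0) (cut := Cut.none) (xt := Ext.none) (P1 := 1073741824) (W1 := 536870912) (P2 := 1073741824) (W2 := 536870912) (P3 := 1046898278) (W3 := 26843546)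
    rfl (fun _ => rfl) s14_pm_202

noncomputable def f_pm_203 : ℕ → ℕ → ℕ → ℕ → Bool := onCell 0 536870912 0 1230186008 1046898278 26843546
    (rowFX 2 false true false .up 2 0 3 (qsf 1073741824 536870912 0 1230186008 0) ndF5q2 ndF5q3 pcF0 Cut.none Ext.none)

def k0_pm_203 : ∃ t, chk3 f_pm_203 t 2 1 1 = true :=
  ⟨(b (l 2) (b (l 3) (b (b (l 3) (a (l 2) (a (l 3) (a (a (l 435569393863) (l 332490636519)) (b (l 3) (l 291688521015)))))) (a (b (b (l 3) (a (l 2) (a (a (l 3) (c (l 15583064) (l 341614875623))) (c (l 320140437063) (a (l 326582839783) (l 15876736)))))) (a (a (b (l 2) (a (b (l 2) (c (a (l 14834208) (c (l 14862424) (l 14850832))) (a (b (l 2) (c (l 14782656) (l 657762997607))) (l 645415112151)))) (a (c (l 597096870983) (l 651857694599)) (c (l 14988000) (l 14982808))))) (c (a (c (l 596560407991) (l 621256485863)) (c (b (l 15248752) (l 15331872)) (l 15240592))) (a (l 660984899335) (l 313696833655)))) (a (c (a (b (l 15437176) (l 15511776)) (l 15474512)) (b (a (l 15233384) (l 15582312))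 (l 15553096))) (c (b (l 15751400) (l 15909888)) (b (a (l 15763672) (l 15898136)) (l 15887352)))))) (a (c (a (b (l 325509743351) (l 16107160)) (b (l 323362818679) (l 16374520))) (a (b (b (l 399061083591) (l 16067376)) (l 16068784)) (b (l 322289013527) (l 16364064)))) (a (b (c (l 317458086503) (a (l 16551064) (l 16683240))) (l 16641192)) (b (a (a (l 16761952) (l 16775072)) (l 16777216)) (l 16777024)))))))), by decide +kernel⟩

def k1_pm_203 : ∃ t, chk3 f_pm_203 t 3 1 1 = true :=
  ⟨(b (l 3) (b (b (l 3) (a (l 3) (a (c (l 352891961159) (l 403357826727)) (c (c (l 204715589447) (l 16777200)) (l 275582549831))))) (b (a (a (b (c (l 461339885575) (l 466171723735)) (c (l 326048415751) (l 317995352055))) (c (b (l 319605964807) (l 16777216)) (b (l 315310997495) (l 16777216)))) (a (a (c (l 16777216) (l 16777216)) (b (l 16777216) (b (l 16777216) (l 16645368)))) (b (b (c (l 16769968) (l 16769776)) (a (l 16776336) (c (a (l 16692584) (l 16470576)) (l 16551704)))) (a (b (b (c (l 16717848) (l 16716304))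 (l 16560456)) (a (l 16246552) (l 15924936))) (b (l 15930112) (l 15127832)))))) (a (b (a (c (l 16777216) (l 16777216)) (a (l 16777216) (b (l 16777216) (l 16657672)))) (a (b (l 16777216) (a (l 16776944) (b (l 16728840) (l 16531056)))) (b (a (l 16638808) (b (l 16336320) (l 15929528))) (a (b (l 16273632) (l 15834488)) (b (l 15482472) (l 15087096)))))) (b (a (b (a (l 16659616) (a (l 16350296) (l 15972800))) (a (b (l 16358544) (l 15976952)) (l 15224256))) (b (a (l 15214584) (l 14762624)) (a (l 14855208) (l 15147728)))) (a (b (a (l 15113968) (l 14899928)) (a (l 14984192) (l 15201768))) (b (l 15347712) (l 15783968)))))))), by decide +kernel⟩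

theorem s2_pm_203 : ∃ t, chk3 f_pm_203 t 1 1 1 = true := ex3_a k0_pm_203 k1_pm_203

theorem c_pm_203 : CertFX 1073741824 536870912 0 1230186008 1046898278 26843546 false true false .up 2 0 3
    ndF5q2 ndF5q3 pcF0 Cut.none Ext.none :=
  certFX2 (fam := false) (s1 := true) (s2 := false) (a := 2) (b := 0) (c := 3) (cn := .up) (n1 := ndF5q2) (n2 := ndF5q3) (pc := pcF0) (cut := Cut.none) (xt := Ext.none) (P1 := 1073741824) (W1 := 536870912) (P2 := 0) (W2 := 1230186008) (P3 := 1046898278) (W3 := 26843546)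
    rfl (fun _ => rfl) s2_pm_203

noncomputable def f_pm_213 : ℕ → ℕ → ℕ → ℕ → Bool := onCell 1073741824 536870912 0 1230186008 1046898278 26843546
    (rowFX 0 false true false .pnn 2 1 3 (qsf 1073741824 536870912 0 1230186008 1) ndF5q2 ndF5q3 pcF1 Cut.none Ext.none)

def k0_pm_213 : ∃ t, chk3 f_pm_213 t 1 2 1 = true :=
  ⟨(a (a (b (a (b (a (a (c (b (l 16347120) (l 16277128)) (b (l 16281648) (l 16230136))) (c (b (l 16653680) (l 16682224)) (l 16675648))) (a (a (l 16458344) (l 16488664)) (l 16226312))) (a (a (b (c (a (l 16359088) (l 16504824)) (l 16413240)) (c (a (l 16418368) (l 16485904)) (l 16449616))) (c (b (l 16591704) (l 16420096)) (l 16244216))) (a (b (l 16388888) (l 16195776)) (b (l 16138688) (l 15979680))))) (b (a (c (l 15800664) (l 15775136)) (b (l 15223496) (l 15191160))) (a (b (l 15712344) (l 15602224)) (b (l 15098536) (a (l 15206744) (l 14973040)))))) (a (b (a (b (a (b (l 16233640) (l 16229472)) (l 16191296)) (a (l 16204408) (l 16117376))) (b (l 15872192) (c (l 15902880)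 (l 15851432)))) (a (b (a (l 16214904) (l 16095824)) (l 16190704)) (b (a (l 15932992) (b (l 15749160) (l 15734984))) (a (b (l 15925184) (l 15926792)) (l 15698664))))) (b (a (b (l 15505544) (a (l 15561520) (b (l 15347184) (l 15344744)))) (b (a (l 15155128) (l 14967440)) (l 15071016))) (b (a (a (b (l 15542448) (l 15532912)) (l 15344624)) (l 15077768)) (a (l 15398184) (l 15055264)))))) (b (a (a (b (a (l 312085342631) (l 3)) (a (b (l 14788984) (l 14799224)) (l 14943192))) (b (l 3) (l 373290197719))) (l 3)) (a (b (a (a (l 14820000) (l 14988648)) (b (l 15613944) (l 15632128))) (a (a (b (l 14832704) (l 14808072)) (b (l 14999912) (l 14974176))) (b (l 15635320) (l 15609120)))) (b (a (l 438253149031) (l 3)) (a (b (l 16344616) (l 16287072)) (c (l 16750704) (l 16749792))))))) (a (b (l 3) (l 3)) (l 3))), by decide +kernel⟩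

def k1_pm_213 : ∃ t, chk3 f_pm_213 t 1 3 1 = true :=
  ⟨(b (a (a (b (b (a (a (l 16247088) (a (l 15929376) (l 15714808))) (a (c (l 15431088) (l 15397008)) (l 15049488))) (a (l 16034488) (a (c (l 15430536) (l 15395640)) (c (l 15071680) (l 15027392))))) (a (a (l 16250200) (l 15812480)) (b (a (l 15412840) (c (l 15071648) (l 15027352))) (l 15226904)))) (b (a (b (a (a (l 14801536) (l 14967512)) (l 15602384)) (a (a (l 14801576) (l 14967560)) (l 15413688))) (a (c (l 16306280) (l 16380112)) (c (l 16755744) (l 16776704)))) (c (a (a (b (a (l 14826872) (l 14990720)) (a (l 14826840) (l 14990696))) (b (l 15617456) (c (l 15624960) (l 15609896)))) (a (b (l 16390152) (a (l 16203696) (l 16571960))) (b (l 16776696) (l 16776672)))) (a (a (b (l 14861048) (l 14819072)) (b (l 15587328) (l 15587304))) (a (b (l 16380096) (l 16380072)) (l 16734728)))))) (a (a (b (b (l 189146333063) (c (l 16777144) (l 16777144))) (b (c (l 16777184) (l 16777184)) (c (l 16777216) (l 16777216)))) (b (l 3) (b (l 3) (l 1))))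 (b (l 3) (l 1)))) (a (a (b (a (a (l 16247152) (l 15812288)) (b (l 15226904) (l 15226904))) (a (b (l 16025520) (l 16025520)) (b (l 15226904) (l 15226904)))) (b (b (a (a (l 14885272) (b (c (l 15617424) (l 15587304)) (l 15602360))) (a (c (b (l 16369152) (l 16348176)) (l 16338128)) (c (l 16776672) (l 16776656)))) (a (a (l 14885272) (l 15602360)) (l 1))) (a (a (a (l 14801512) (l 1)) (l 1)) (l 1)))) (l 1))), by decide +kernel⟩

theorem s2_pm_213 : ∃ t, chk3 f_pm_213 t 1 1 1 = true := ex3_b k0_pm_213 k1_pm_213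

theorem c_pm_213 : CertFX 1073741824 536870912 0 1230186008 1046898278 26843546 false true false .pnn 2 1 3
    ndF5q2 ndF5q3 pcF1 Cut.none Ext.none :=
  certFX0 (fam := false) (s1 := true) (s2 := false) (a := 2) (b := 1) (c := 3) (cn := .pnn) (n1 := ndF5q2) (n2 := ndF5q3) (pc := pcF1) (cut := Cut.none) (xt := Ext.none) (P1 := 1073741824) (W1 := 536870912) (P2 := 0) (W2 := 1230186008) (P3 := 1046898278) (W3 := 26843546)
    rfl s2_pm_213

noncomputable def f_pm_303 : ℕ → ℕ → ℕ → ℕ → Bool := onCell 0 1230186008 0 1230186008 1046898278 26843546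
    (rowFX 0 false true false .npn 3 0 3 (qsf 0 1230186008 0 1230186008 0) ndF5q3 ndF5q3 pcF0 Cut.none Ext.none)

def k0_pm_303 : ∃ t, chk3 f_pm_303 t 1 1 1 = true :=
  ⟨(a (b (l 3) (l 3)) (b (l 3) (a (l 3) (b (l 3) (a (l 3) (b (l 3) (b (l 3) (a (l 3) (a (b (l 3) (b (l 3) (l 1))) (a (b (l 3) (a (b (b (l 3) (b (b (l 3) (l 1)) (l 1))) (l 1)) (b (c (b (l 14811336) (b (l 14772016) (l 14730752))) (b (c (l 14786600) (c (l 14780072) (l 14776384))) (c (b (a (l 14716408) (b (l 14753664) (l 14740696))) (l 14682552)) (b (a (c (l 14697056) (b (l 354497913239) (l 14675344))) (c (l 14693496) (l 14731200))) (a (l 14636536) (c (l 14695376) (b (l 14700848) (l 14680272)))))))) (b (c (l 14640288) (c (l 14560352) (l 367785193319))) (l 1))))) (b (b (l 3) (c (a (b (l 3) (l 282557645719)) (c (l 15082960) (l 15092192))) (c (a (l 321212520359) (l 15082440)) (l 15021824)))) (b (b (c (c (l 14924984) (l 14692128)) (c (a (l 14644272) (l 14963800)) (l 14913360))) (c (a (b (l 14829840) (l 14802008)) (l 14896096))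 (a (c (b (l 14814248) (a (c (l 14756496) (l 14746832)) (l 14670904))) (b (l 14809056) (a (c (l 14742096) (l 14736864)) (l 14785320)))) (c (l 14894040) (l 14880368))))) (b (c (a (b (l 14707504) (l 14741536)) (b (l 14844656) (a (l 14819200) (l 14832952)))) (a (c (b (a (l 14727096) (l 14637768)) (l 14699032)) (c (a (l 14549136) (b (l 14753440) (l 14712888))) (b (a (a (l 14689256) (l 14715224)) (l 14748016)) (l 14681608)))) (c (b (a (l 14809624) (l 14859528)) (a (l 14780696) (l 14816856))) (b (l 14825136) (c (l 14554200) (l 14780632)))))) (c (a (l 14646720) (l 14609160)) (a (c (l 14590688) (l 14584448)) (c (b (a (l 14736720) (l 14785816)) (l 14714672)) (a (l 14681752) (b (c (l 14778648) (l 14776200)) (l 14742960))))))))))))))))))), by decide +kernel⟩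

theorem c_pm_303 : CertFX 0 1230186008 0 1230186008 1046898278 26843546 false true false .npn 3 0 3
    ndF5q3 ndF5q3 pcF0 Cut.none Ext.none :=
  certFX0 (fam := false) (s1 := true) (s2 := false) (a := 3) (b := 0) (c := 3) (cn := .npn) (n1 := ndF5q3) (n2 := ndF5q3) (pc := pcF0) (cut := Cut.none) (xt := Ext.none) (P1 := 0) (W1 := 1230186008) (P2 := 0) (W2 := 1230186008) (P3 := 1046898278) (W3 := 26843546)
    rfl k0_pm_303

noncomputable def f_pm_313 : ℕ → ℕ → ℕ → ℕ → Bool := onCell 0 1230186008 0 1230186008 1046898278 26843546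
    (rowFX 0 false true false .dn 3 1 3 (qsf 0 1230186008 0 1230186008 1) ndF5q3 ndF5q3 pcF1 Cut.none Ext.none)

def k0_pm_313 : ∃ t, chk3 f_pm_313 t 1 1 1 = true :=
  ⟨(a (l 1) (b (l 3) (l 1))), by decide +kernel⟩

theorem c_pm_313 : CertFX 0 1230186008 0 1230186008 1046898278 26843546 false true false .dn 3 1 3
    ndF5q3 ndF5q3 pcF1 Cut.none Ext.none :=
  certFX0 (fam := false) (s1 := true) (s2 := false) (a := 3) (b := 1) (c := 3) (cn := .dn) (n1 := ndF5q3) (n2 := ndF5q3) (pc := pcF1) (cut := Cut.none) (xt := Ext.none) (P1 := 0) (W1 := 1230186008) (P2 := 0) (W2 := 1230186008) (P3 := 1046898278) (W3 := 26843546)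
    rfl k0_pm_313

noncomputable def f_mm_001 : ℕ → ℕ → ℕ → ℕ → Bool := onCell 0 536870912 536870912 469762048 1046898278 26843546
    (rowFX 0 false false false .up 0 0 1 (qsf 0 536870912 536870912 469762048 0) ndF5q0 ndF5q1 pcF0 Cut.none Ext.none)

def k0_mm_001 : ∃ t, chk3 f_mm_001 t 1 1 1 = true :=
  ⟨(l 3), by decide +kernel⟩

theorem c_mm_001 : CertFX 0 536870912 536870912 469762048 1046898278 26843546 false false false .up 0 0 1
    ndF5q0 ndF5q1 pcF0 Cut.none Ext.none :=
  certFX0 (fam := false) (s1 := false) (s2 := false) (a := 0) (b := 0) (c := 1) (cn := .up) (n1 := ndF5q0) (n2 := ndF5q1) (pc := pcF0) (cut := Cut.none) (xt := Ext.none) (P1 := 0) (W1 := 536870912) (P2 := 536870912) (W2 := 469762048) (P3 := 1046898278) (W3 := 26843546)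
    rfl k0_mm_001

noncomputable def f_mm_011 : ℕ → ℕ → ℕ → ℕ → Bool := onCell 0 536870912 536870912 469762048 1046898278 26843546
    (rowFX 0 false false false .pnn 0 1 1 (qsf 0 536870912 536870912 469762048 1) ndF5q0 ndF5q1 pcF1 Cut.none Ext.none)

def k0_mm_011 : ∃ t, chk3 f_mm_011 t 1 1 1 = true :=
  ⟨(l 3), by decide +kernel⟩

theorem c_mm_011 : CertFX 0 536870912 536870912 469762048 1046898278 26843546 false false false .pnn 0 1 1
    ndF5q0 ndF5q1 pcF1 Cut.none Ext.none :=
  certFX0 (fam := false) (s1 := false) (s2 := false) (a := 0) (b := 1) (c := 1) (cn := .pnn) (n1 := ndF5q0) (n2 := ndF5q1) (pc := pcF1) (cut := Cut.none) (xt := Ext.none) (P1 := 0) (W1 := 536870912) (P2 := 536870912) (W2 := 469762048) (P3 := 1046898278) (W3 := 26843546)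
    rfl k0_mm_011

noncomputable def f_mm_012 : ℕ → ℕ → ℕ → ℕ → Bool := onCell 0 536870912 1073741824 536870912 1046898278 26843546
    (rowFX 0 false false false .pnp 0 1 2 (qsf 0 536870912 1073741824 536870912 1) ndF5q0 ndF5q2 pcF1 Cut.none Ext.none)

def k0_mm_012 : ∃ t, chk3 f_mm_012 t 1 1 1 = true :=
  ⟨(l 5), by decide +kernel⟩

theorem c_mm_012 : CertFX 0 536870912 1073741824 536870912 1046898278 26843546 false false false .pnp 0 1 2
    ndF5q0 ndF5q2 pcF1 Cut.none Ext.none :=
  certFX0 (fam := false) (s1 := false) (s2 := false) (a := 0) (b := 1) (c := 2) (cn := .pnp) (n1 := ndF5q0) (n2 := ndF5q2) (pc := pcF1) (cut := Cut.none) (xt := Ext.none) (P1 := 0) (W1 := 536870912) (P2 := 1073741824) (W2 := 536870912) (P3 := 1046898278) (W3 := 26843546)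
    rfl k0_mm_012

noncomputable def f_mm_022 : ℕ → ℕ → ℕ → ℕ → Bool := onCell 0 536870912 1073741824 536870912 1046898278 26843546
    (rowFX 0 false false false .pp 0 2 2 (qsf 0 536870912 1073741824 536870912 2) ndF5q0 ndF5q2 pcF2 Cut.none Ext.none)

def k0_mm_022 : ∃ t, chk3 f_mm_022 t 1 1 1 = true :=
  ⟨(l 5), by decide +kernel⟩

theorem c_mm_022 : CertFX 0 536870912 1073741824 536870912 1046898278 26843546 false false false .pp 0 2 2
    ndF5q0 ndF5q2 pcF2 Cut.none Ext.none :=
  certFX0 (fam := false) (s1 := false) (s2 := false) (a := 0) (b := 2) (c := 2) (cn := .pp) (n1 := ndF5q0) (n2 := ndF5q2) (pc := pcF2) (cut := Cut.none) (xt := Ext.none) (P1 := 0) (W1 := 536870912) (P2 := 1073741824) (W2 := 536870912) (P3 := 1046898278) (W3 := 26843546)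
    rfl k0_mm_022

noncomputable def f_mm_023 : ℕ → ℕ → ℕ → ℕ → Bool := onCell 0 536870912 0 1230186008 1046898278 26843546
    (rowFX 0 false false false .up 0 2 3 (qsf 0 536870912 0 1230186008 2) ndF5q0 ndF5q3 pcF2 Cut.none Ext.none)

def k0_mm_023 : ∃ t, chk3 f_mm_023 t 1 1 1 = true :=
  ⟨(l 5), by decide +kernel⟩

theorem c_mm_023 : CertFX 0 536870912 0 1230186008 1046898278 26843546 false false false .up 0 2 3
    ndF5q0 ndF5q3 pcF2 Cut.none Ext.none :=
  certFX0 (fam := false) (s1 := false) (s2 := false) (a := 0) (b := 2) (c := 3) (cn := .up) (n1 := ndF5q0) (n2 := ndF5q3) (pc := pcF2) (cut := Cut.none) (xt := Ext.none) (P1 := 0) (W1 := 536870912) (P2 := 0) (W2 := 1230186008) (P3 := 1046898278) (W3 := 26843546)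
    rfl k0_mm_023

noncomputable def f_mm_033 : ℕ → ℕ → ℕ → ℕ → Bool := onCell 0 536870912 0 1230186008 1046898278 26843546
    (rowFX 0 false false false .pnn 0 3 3 (qsf 0 536870912 0 1230186008 3) ndF5q0 ndF5q3 pcF3 Cut.none Ext.none)

def k0_mm_033 : ∃ t, chk3 f_mm_033 t 1 1 1 = true :=
  ⟨(l 5), by decide +kernel⟩

theorem c_mm_033 : CertFX 0 536870912 0 1230186008 1046898278 26843546 false false false .pnn 0 3 3
    ndF5q0 ndF5q3 pcF3 Cut.none Ext.none :=
  certFX0 (fam := false) (s1 := false) (s2 := false) (a := 0) (b := 3) (c := 3) (cn := .pnn) (n1 := ndF5q0) (n2 := ndF5q3) (pc := pcF3) (cut := Cut.none) (xt := Ext.none) (P1 := 0) (W1 := 536870912) (P2 := 0) (W2 := 1230186008) (P3 := 1046898278) (W3 := 26843546)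
    rfl k0_mm_033

noncomputable def f_mm_101 : ℕ → ℕ → ℕ → ℕ → Bool := onCell 536870912 469762048 536870912 469762048 1046898278 26843546
    (rowFX 0 false false false .npn 1 0 1 (qsf 536870912 469762048 536870912 469762048 0) ndF5q1 ndF5q1 pcF0 Cut.none Ext.none)

def k0_mm_101 : ∃ t, chk3 f_mm_101 t 1 1 1 = true :=
  ⟨(l 3), by decide +kernel⟩

theorem c_mm_101 : CertFX 536870912 469762048 536870912 469762048 1046898278 26843546 false false false .npn 1 0 1
    ndF5q1 ndF5q1 pcF0 Cut.none Ext.none :=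
  certFX0 (fam := false) (s1 := false) (s2 := false) (a := 1) (b := 0) (c := 1) (cn := .npn) (n1 := ndF5q1) (n2 := ndF5q1) (pc := pcF0) (cut := Cut.none) (xt := Ext.none) (P1 := 536870912) (W1 := 469762048) (P2 := 536870912) (W2 := 469762048) (P3 := 1046898278) (W3 := 26843546)
    rfl k0_mm_101

noncomputable def f_mm_102 : ℕ → ℕ → ℕ → ℕ → Bool := onCell 536870912 469762048 1073741824 536870912 1046898278 26843546
    (rowFX 0 false false false .npp 1 0 2 (qsf 536870912 469762048 1073741824 536870912 0) ndF5q1 ndF5q2 pcF0 Cut.none Ext.none)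

def k0_mm_102 : ∃ t, chk3 f_mm_102 t 1 1 1 = true :=
  ⟨(l 5), by decide +kernel⟩

theorem c_mm_102 : CertFX 536870912 469762048 1073741824 536870912 1046898278 26843546 false false false .npp 1 0 2
    ndF5q1 ndF5q2 pcF0 Cut.none Ext.none :=
  certFX0 (fam := false) (s1 := false) (s2 := false) (a := 1) (b := 0) (c := 2) (cn := .npp) (n1 := ndF5q1) (n2 := ndF5q2) (pc := pcF0) (cut := Cut.none) (xt := Ext.none) (P1 := 536870912) (W1 := 469762048) (P2 := 1073741824) (W2 := 536870912) (P3 := 1046898278) (W3 := 26843546)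
    rfl k0_mm_102

noncomputable def f_mm_112 : ℕ → ℕ → ℕ → ℕ → Bool := onCell 536870912 469762048 1073741824 536870912 1046898278 26843546
    (rowFX 0 false false false .dn 1 1 2 (qsf 536870912 469762048 1073741824 536870912 1) ndF5q1 ndF5q2 pcF1 Cut.none Ext.none)

def k0_mm_112 : ∃ t, chk3 f_mm_112 t 1 1 1 = true :=
  ⟨(l 5), by decide +kernel⟩

theorem c_mm_112 : CertFX 536870912 469762048 1073741824 536870912 1046898278 26843546 false false false .dn 1 1 2
    ndF5q1 ndF5q2 pcF1 Cut.none Ext.none :=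
  certFX0 (fam := false) (s1 := false) (s2 := false) (a := 1) (b := 1) (c := 2) (cn := .dn) (n1 := ndF5q1) (n2 := ndF5q2) (pc := pcF1) (cut := Cut.none) (xt := Ext.none) (P1 := 536870912) (W1 := 469762048) (P2 := 1073741824) (W2 := 536870912) (P3 := 1046898278) (W3 := 26843546)
    rfl k0_mm_112

noncomputable def f_mm_113 : ℕ → ℕ → ℕ → ℕ → Bool := onCell 536870912 469762048 0 1230186008 1046898278 26843546
    (rowFX 0 false false false .nn 1 1 3 (qsf 536870912 469762048 0 1230186008 1) ndF5q1 ndF5q3 pcF1 Cut.none Ext.none)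

def k0_mm_113 : ∃ t, chk3 f_mm_113 t 1 1 1 = true :=
  ⟨(l 5), by decide +kernel⟩

theorem c_mm_113 : CertFX 536870912 469762048 0 1230186008 1046898278 26843546 false false false .nn 1 1 3
    ndF5q1 ndF5q3 pcF1 Cut.none Ext.none :=
  certFX0 (fam := false) (s1 := false) (s2 := false) (a := 1) (b := 1) (c := 3) (cn := .nn) (n1 := ndF5q1) (n2 := ndF5q3) (pc := pcF1) (cut := Cut.none) (xt := Ext.none) (P1 := 536870912) (W1 := 469762048) (P2 := 0) (W2 := 1230186008) (P3 := 1046898278) (W3 := 26843546)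
    rfl k0_mm_113

noncomputable def f_mm_123 : ℕ → ℕ → ℕ → ℕ → Bool := onCell 536870912 469762048 0 1230186008 1046898278 26843546
    (rowFX 0 false false false .npn 1 2 3 (qsf 536870912 469762048 0 1230186008 2) ndF5q1 ndF5q3 pcF2 Cut.none Ext.none)

def k0_mm_123 : ∃ t, chk3 f_mm_123 t 1 1 1 = true :=
  ⟨(l 5), by decide +kernel⟩

theorem c_mm_123 : CertFX 536870912 469762048 0 1230186008 1046898278 26843546 false false false .npn 1 2 3
    ndF5q1 ndF5q3 pcF2 Cut.none Ext.none :=
  certFX0 (fam := false) (s1 := false) (s2 := false) (a := 1) (b := 2) (c := 3) (cn := .npn) (n1 := ndF5q1) (n2 := ndF5q3) (pc := pcF2) (cut := Cut.none) (xt := Ext.none) (P1 := 536870912) (W1 := 469762048) (P2 := 0) (W2 := 1230186008) (P3 := 1046898278) (W3 := 26843546)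
    rfl k0_mm_123

noncomputable def f_mm_133 : ℕ → ℕ → ℕ → ℕ → Bool := onCell 536870912 469762048 0 1230186008 1046898278 26843546
    (rowFX 0 false false false .dn 1 3 3 (qsf 536870912 469762048 0 1230186008 3) ndF5q1 ndF5q3 pcF3 Cut.none Ext.none)

def k0_mm_133 : ∃ t, chk3 f_mm_133 t 1 1 1 = true :=
  ⟨(l 5), by decide +kernel⟩

theorem c_mm_133 : CertFX 536870912 469762048 0 1230186008 1046898278 26843546 false false false .dn 1 3 3
    ndF5q1 ndF5q3 pcF3 Cut.none Ext.none :=
  certFX0 (fam := false) (s1 := false) (s2 := false) (a := 1) (b := 3) (c := 3) (cn := .dn) (n1 := ndF5q1) (n2 := ndF5q3) (pc := pcF3) (cut := Cut.none) (xt := Ext.none) (P1 := 536870912) (W1 := 469762048) (P2 := 0) (W2 := 1230186008) (P3 := 1046898278) (W3 := 26843546)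
    rfl k0_mm_133

noncomputable def f_mm_202 : ℕ → ℕ → ℕ → ℕ → Bool := onCell 1073741824 536870912 1073741824 536870912 1046898278 26843546
    (rowFX 0 false false false .pp 2 0 2 (qsf 1073741824 536870912 1073741824 536870912 0) ndF5q2 ndF5q2 pcF0 Cut.none Ext.none)

def k0_mm_202 : ∃ t, chk3 f_mm_202 t 1 1 1 = true :=
  ⟨(l 3), by decide +kernel⟩

theorem c_mm_202 : CertFX 1073741824 536870912 1073741824 536870912 1046898278 26843546 false false false .pp 2 0 2
    ndF5q2 ndF5q2 pcF0 Cut.none Ext.none :=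
  certFX0 (fam := false) (s1 := false) (s2 := false) (a := 2) (b := 0) (c := 2) (cn := .pp) (n1 := ndF5q2) (n2 := ndF5q2) (pc := pcF0) (cut := Cut.none) (xt := Ext.none) (P1 := 1073741824) (W1 := 536870912) (P2 := 1073741824) (W2 := 536870912) (P3 := 1046898278) (W3 := 26843546)
    rfl k0_mm_202

noncomputable def f_mm_203 : ℕ → ℕ → ℕ → ℕ → Bool := onCell 0 536870912 0 1230186008 1046898278 26843546
    (rowFX 2 false false false .up 2 0 3 (qsf 1073741824 536870912 0 1230186008 0) ndF5q2 ndF5q3 pcF0 Cut.none Ext.none)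

def k0_mm_203 : ∃ t, chk3 f_mm_203 t 1 1 1 = true :=
  ⟨(b (l 3) (l 3)), by decide +kernel⟩

theorem c_mm_203 : CertFX 1073741824 536870912 0 1230186008 1046898278 26843546 false false false .up 2 0 3
    ndF5q2 ndF5q3 pcF0 Cut.none Ext.none :=
  certFX2 (fam := false) (s1 := false) (s2 := false) (a := 2) (b := 0) (c := 3) (cn := .up) (n1 := ndF5q2) (n2 := ndF5q3) (pc := pcF0) (cut := Cut.none) (xt := Ext.none) (P1 := 1073741824) (W1 := 536870912) (P2 := 0) (W2 := 1230186008) (P3 := 1046898278) (W3 := 26843546)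
    rfl (fun _ => rfl) k0_mm_203

noncomputable def f_mm_213 : ℕ → ℕ → ℕ → ℕ → Bool := onCell 536870912 536870912 0 1230186008 1046898278 26843546
    (rowFX 2 false false false .pnn 2 1 3 (qsf 1073741824 536870912 0 1230186008 1) ndF5q2 ndF5q3 pcF1 Cut.none Ext.none)

def k0_mm_213 : ∃ t, chk3 f_mm_213 t 1 1 1 = true :=
  ⟨(b (l 5) (l 5)), by decide +kernel⟩

theorem c_mm_213 : CertFX 1073741824 536870912 0 1230186008 1046898278 26843546 false false false .pnn 2 1 3
    ndF5q2 ndF5q3 pcF1 Cut.none Ext.none :=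
  certFX2 (fam := false) (s1 := false) (s2 := false) (a := 2) (b := 1) (c := 3) (cn := .pnn) (n1 := ndF5q2) (n2 := ndF5q3) (pc := pcF1) (cut := Cut.none) (xt := Ext.none) (P1 := 1073741824) (W1 := 536870912) (P2 := 0) (W2 := 1230186008) (P3 := 1046898278) (W3 := 26843546)
    rfl (fun _ => rfl) k0_mm_213

noncomputable def f_mm_303 : ℕ → ℕ → ℕ → ℕ → Bool := onCell 0 1230186008 0 1230186008 1046898278 26843546
    (rowFX 0 false false false .npn 3 0 3 (qsf 0 1230186008 0 1230186008 0) ndF5q3 ndF5q3 pcF0 Cut.none Ext.none)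

def k0_mm_303 : ∃ t, chk3 f_mm_303 t 1 1 1 = true :=
  ⟨(a (b (l 3) (l 3)) (b (l 3) (l 3))), by decide +kernel⟩

theorem c_mm_303 : CertFX 0 1230186008 0 1230186008 1046898278 26843546 false false false .npn 3 0 3
    ndF5q3 ndF5q3 pcF0 Cut.none Ext.none :=
  certFX0 (fam := false) (s1 := false) (s2 := false) (a := 3) (b := 0) (c := 3) (cn := .npn) (n1 := ndF5q3) (n2 := ndF5q3) (pc := pcF0) (cut := Cut.none) (xt := Ext.none) (P1 := 0) (W1 := 1230186008) (P2 := 0) (W2 := 1230186008) (P3 := 1046898278) (W3 := 26843546)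
    rfl k0_mm_303

noncomputable def f_mm_313 : ℕ → ℕ → ℕ → ℕ → Bool := onCell 0 1230186008 0 1230186008 1046898278 26843546
    (rowFX 0 false false false .dn 3 1 3 (qsf 0 1230186008 0 1230186008 1) ndF5q3 ndF5q3 pcF1 Cut.none Ext.none)

def k0_mm_313 : ∃ t, chk3 f_mm_313 t 1 1 1 = true :=
  ⟨(a (l 1) (b (l 3) (l 1))), by decide +kernel⟩

theorem c_mm_313 : CertFX 0 1230186008 0 1230186008 1046898278 26843546 false false false .dn 3 1 3
    ndF5q3 ndF5q3 pcF1 Cut.none Ext.none :=
  certFX0 (fam := false) (s1 := false) (s2 := false) (a := 3) (b := 1) (c := 3) (cn := .dn) (n1 := ndF5q3) (n2 := ndF5q3) (pc := pcF1) (cut := Cut.none) (xt := Ext.none) (P1 := 0) (W1 := 1230186008) (P2 := 0) (W2 := 1230186008) (P3 := 1046898278) (W3 := 26843546)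
    rfl k0_mm_313

end Pool.Agent.Strip051.G.IE1.Tab.C.FB55

namespace Pool.Agent.Strip051.G.IE1.Tab.C.FB56

open Pool.Agent.Strip051.PB Pool.Agent.Strip051.PB.T
open Pool.Agent.Strip051.G.IE1.Tab

noncomputable def f_pp_001 : ℕ → ℕ → ℕ → ℕ → Bool := onCell 0 536870912 536870912 469762048 1046898278 26843546
    (rowFX 0 false true true .up 0 0 1 (qsf 0 536870912 536870912 469762048 0) ndF5q0 ndF6q1 pcF0 Cut.none Ext.none)

def k0_pp_001 : ∃ t, chk3 f_pp_001 t 1 1 1 = true :=
  ⟨(l 3), by decide +kernel⟩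

theorem c_pp_001 : CertFX 0 536870912 536870912 469762048 1046898278 26843546 false true true .up 0 0 1
    ndF5q0 ndF6q1 pcF0 Cut.none Ext.none :=
  certFX0 (fam := false) (s1 := true) (s2 := true) (a := 0) (b := 0) (c := 1) (cn := .up) (n1 := ndF5q0) (n2 := ndF6q1) (pc := pcF0) (cut := Cut.none) (xt := Ext.none) (P1 := 0) (W1 := 536870912) (P2 := 536870912) (W2 := 469762048) (P3 := 1046898278) (W3 := 26843546)
    rfl k0_pp_001

noncomputable def f_pp_011 : ℕ → ℕ → ℕ → ℕ → Bool := onCell 0 536870912 536870912 469762048 1046898278 26843546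
    (rowFX 0 false true true .pnn 0 1 1 (qsf 0 536870912 536870912 469762048 1) ndF5q0 ndF6q1 pcF1 Cut.none Ext.none)

def k0_pp_011 : ∃ t, chk3 f_pp_011 t 1 1 1 = true :=
  ⟨(l 3), by decide +kernel⟩

theorem c_pp_011 : CertFX 0 536870912 536870912 469762048 1046898278 26843546 false true true .pnn 0 1 1
    ndF5q0 ndF6q1 pcF1 Cut.none Ext.none :=
  certFX0 (fam := false) (s1 := true) (s2 := true) (a := 0) (b := 1) (c := 1) (cn := .pnn) (n1 := ndF5q0) (n2 := ndF6q1) (pc := pcF1) (cut := Cut.none) (xt := Ext.none) (P1 := 0) (W1 := 536870912) (P2 := 536870912) (W2 := 469762048) (P3 := 1046898278) (W3 := 26843546)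
    rfl k0_pp_011

noncomputable def f_pp_012 : ℕ → ℕ → ℕ → ℕ → Bool := onCell 0 536870912 536870912 536870912 1046898278 26843546
    (rowFX 1 false true true .pnp 0 1 2 (qsf 0 536870912 1073741824 536870912 1) ndF5q0 ndF6q2 pcF1 Cut.none Ext.none)

def k0_pp_012 : ∃ t, chk3 f_pp_012 t 1 1 1 = true :=
  ⟨(b (l 3) (a (l 3) (b (l 3) (b (l 3) (a (l 3) (b (a (l 3) (l 16082280)) (a (l 724404301127) (l 331951692391)))))))), by decide +kernel⟩

theorem c_pp_012 : CertFX 0 536870912 1073741824 536870912 1046898278 26843546 false true true .pnp 0 1 2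
    ndF5q0 ndF6q2 pcF1 Cut.none Ext.none :=
  certFX1 (fam := false) (s1 := true) (s2 := true) (a := 0) (b := 1) (c := 2) (cn := .pnp) (n1 := ndF5q0) (n2 := ndF6q2) (pc := pcF1) (cut := Cut.none) (xt := Ext.none) (P1 := 0) (W1 := 536870912) (P2 := 1073741824) (W2 := 536870912) (P3 := 1046898278) (W3 := 26843546)
    rfl (fun _ => rfl) k0_pp_012

end Pool.Agent.Strip051.G.IE1.Tab.C.FB56

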