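import Pool.Agent.Strip051.G.IE1.Tab

/-! # Certificates F53 (generated) -/

set_option linter.all false
set_option maxRecDepth 100000

namespace Pool.Agent.Strip051.G.IE1.Tab.C.FB56

open Pool.Agent.Strip051.PB Pool.Agent.Strip051.PB.T
open Pool.Agent.Strip051.G.IE1.Tab

noncomputable def f_pp_022 : ℕ → ℕ → ℕ → ℕ → Bool := onCell 0 536870912 1073741824 536870912 1046898278 26843546
    (rowFX 1 false true true .pp 0 2 2 (qsf 0 536870912 1073741824 536870912 2) ndF5q0 ndF6q2 pcF2 Cut.none Ext.none)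

def k0_pp_022 : ∃ t, chk3 f_pp_022 t 2 4 1 = true :=
  ⟨(b (l 3) (a (b (l 3) (a (l 3) (b (l 3) (b (l 3) (b (l 3) (a (l 3) (a (l 3) (c (l 16173704) (l 16158032))))))))) (a (b (l 3) (a (b (l 3) (c (b (c (l 1314426652327) (l 1233896006311)) (c (l 912310339223) (l 905331008151))) (b (c (l 1149607261287) (l 1062634161719)) (c (l 902646641767) (l 16306800))))) (b (b (a (l 3) (b (l 3) (l 16549808))) (c (l 1130817186647) (l 973513996759))) (b (c (b (l 16487760) (l 16469840)) (b (l 16459816) (l 16462968))) (c (b (l 16514320) (l 16517560)) (b (l 16507536) (l 16510880))))))) (a (b (b (l 3) (b (l 3) (c (l 1035254520391) (l 882783179767)))) (b (b (c (b (l 16612232) (l 16628000)) (b (l 16568272) (l 672866606727))) (c (a (l 16645360) (l 16742176)) (b (l 16585808) (l 16611936)))) (a (b (c (l 16632928) (l 16608848)) (l 16667752)) (l 16730664)))) (b (b (c (l 853791623703) (l 882245767143)) (b (b (c (l 16598920) (l 16594288)) (c (l 16627608) (l 16623728))) (c (b (l 16659216) (l 16686488)) (b (l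 16635184) (l 16684128))))) (b (b (a (c (l 16733760) (b (l 16726248) (l 16728760))) (l 16648072)) (l 16648920)) (b (l 16635496) (l 16636880)))))))), by decide +kernel⟩

def k1_pp_022 : ∃ t, chk3 f_pp_022 t 3 8 1 = true :=
  ⟨(b (b (a (l 3) (a (c (c (b (l 15822440) (l 15887960)) (a (l 716351192343) (l 363090106135))) (c (b (l 725477910983) (l 15863856)) (b (l 711519238471) (l 15845672)))) (a (c (l 15905472) (l 15986672)) (l 15895944)))) (a (a (l 3) (c (b (l 737826226487) (l 15939392)) (l 754469220935))) (c (a (a (l 15975496) (l 16003496)) (l 16029288)) (a (a (l 15918056) (l 15923272)) (l 16011120))))) (a (b (a (c (l 723868118567) (l 789366362103)) (c (a (l 15928256) (l 15955376)) (b (l 16033000) (l 16051120)))) (a (c (b (l 684676688791) (l 659443905271)) (b (l 763059872423) (a (l 16286632) (l 16258976)))) (b (a (c (l 16238848) (l 16222624)) (l 16012104)) (c (a (l 16203608) (l 15943288)) (a (l 16187376) (l 16162200)))))) (a (a (c (b (l 16012024) (l 15882888)) (l 15774312)) (c (l 15806992)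 (l 15942512))) (c (b (l 15975936) (l 15784368)) (l 15778360))))), by decide +kernel⟩

def k2_pp_022 : ∃ t, chk3 f_pp_022 t 3 9 1 = true :=
  ⟨(b (a (a (b (b (c (a (l 676623884615) (l 16368592)) (a (a (l 16436784) (l 16418736)) (l 16274640))) (a (b (c (l 16490688) (l 16483248)) (c (l 16525568) (l 16519032))) (a (l 16428696) (l 16353072)))) (a (b (c (l 16555584) (l 16528856)) (l 16539616)) (b (l 16330752) (c (l 16371608) (l 16361072))))) (a (b (b (a (l 16273064) (l 16220920)) (l 16228704)) (b (l 16221248) (l 16189032))) (c (b (l 16091536) (l 15770384)) (b (l 16082912) (l 16016152))))) (a (c (a (l 15872336) (l 15809816)) (a (l 15908000) (l 15735360))) (a (l 15360664) (l 2)))) (a (a (b (b (a (l 16487112) (a (l 16390616) (l 16292952))) (a (l 16495256) (l 16317744))) (a (b (l 16510920) (l 16495184)) (l 16252056))) (b (a (c (b (l 16161080) (l 16046416)) (l 15824328)) (c (a (l 15975176) (l 15844800)) (l 15852944))) (a (c (l 15785904) (l 15779568)) (c (l 15697864) (l 15737032))))) (a (a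 (c (b (l 15747256) (l 15575008)) (l 15575528)) (c (l 15366704) (l 15330072))) (l 2)))), by decide +kernel⟩

def k3_pp_022 : ∃ t, chk3 f_pp_022 t 4 40 1 = true :=
  ⟨(a (b (l 3) (b (l 3) (a (l 3) (a (l 3) (c (a (l 3) (a (l 3) (b (l 3) (c (l 1226916306455) (l 16019816))))) (l 1317647588871)))))) (a (a (b (l 3) (c (b (a (l 3) (l 2026317042135)) (c (a (b (l 2185230862599) (c (l 626694573223) (l 15978376))) (l 419999207911)) (a (l 768428568951) (l 15925600)))) (b (l 1929143226759) (c (l 696487479127) (l 15936248))))) (b (b (l 3) (c (a (l 3) (l 1984441000695)) (l 1785261812167))) (b (a (c (c (l 754469801847) (l 796882445495)) (l 760375180215)) (c (l 504824729015) (l 15942400))) (c (c (a (l 15888440) (l 15967672)) (l 15929552)) (c (l 15918632) (l 15907712)))))) (a (b (b (c (l 1577492960007) (l 16051856)) (c (l 622399614711) (l 16051152))) (b (c (l 16069536) (l 16051152)) (c (l 16069528) (l 16051144)))) (b (b (c (l 16173704) (l 16158032)) (c (l 16173712) (l 16158032))) (c (b (l 16173888)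 (c (l 16177520) (l 16169680))) (b (l 16158216) (l 16157920))))))), by decide +kernel⟩

def k4_pp_022 : ∃ t, chk3 f_pp_022 t 4 82 1 = true :=
  ⟨(b (a (a (l 3) (a (a (l 3) (c (a (l 3) (c (l 1289730243287) (l 1391735689127))) (l 1466897618647))) (c (c (c (a (b (l 1299393914903) (l 16008264)) (b (a (l 825336872871) (l 15992736)) (l 15967432))) (a (b (l 1340732900487) (l 649243098903)) (l 306182699991))) (b (l 970291839591) (l 531131363479))) (c (l 759838350471) (l 15995872))))) (a (a (c (c (a (c (l 15930680) (l 15925280)) (b (l 15885112) (l 15856768))) (a (l 15917224) (l 15861072))) (c (a (l 15906472) (l 15849352)) (l 15866720))) (c (c (l 15929464) (l 15918376)) (c (l 15907296) (l 15896216)))) (a (c (c (l 16073184) (l 16063976)) (c (l 16054768) (l 16045568))) (l 16162208)))) (a (a (b (l 3) (a (l 3) (a (l 3) (c (c (c (a (l 1600578416663) (l 16042576)) (l 1288119588007)) (l 1296709565543)) (c (l 16162952) (l 16161992)))))) (c (a (c (b (a (l 1306373272823) (c (l 16008176) (l 16035792)))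 (c (a (l 16010304) (l 15970920)) (l 16018304))) (b (a (l 1355765332055) (l 16056112)) (c (l 15977664) (l 16052080)))) (c (c (b (a (l 15971704) (l 15931792)) (a (l 15935376) (c (l 15895128) (l 15898696)))) (a (b (l 15990856) (l 15954256)) (l 15916464))) (b (l 15958584) (l 15922048)))) (a (c (b (l 16091192) (l 16052208)) (l 804935604967)) (c (b (l 15948848) (l 15911776)) (l 15920160))))) (a (c (a (b (c (a (l 15875672) (a (l 15831704) (l 15833608))) (a (l 15864064) (l 15823104))) (a (c (c (l 15844000) (l 15837952)) (l 15828920)) (c (a (l 15786472) (l 15831128)) (l 15808184)))) (b (c (l 15928056) (l 15916952)) (c (a (l 15888568) (l 15963376)) (l 15915080)))) (a (b (c (l 15832320) (l 15820424)) (c (a (l 15816880) (l 15795696)) (l 15795728))) (b (l 15900296) (c (l 15903944) (l 15892816))))) (b (c (a (l 16065176) (l 16163904)) (l 16097400)) (l 16100536))))), by decide +kernel⟩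

def k5_pp_022 : ∃ t, chk3 f_pp_022 t 8 166 1 = true :=
  ⟨(b (a (a (a (l 3) (a (l 3) (a (l 3) (c (c (l 1867940467335) (l 1864719158711)) (l 1935049305623))))) (c (a (a (b (l 3) (c (l 16161880) (l 16107768))) (c (c (c (l 16093560) (l 903719984471)) (l 911236185319)) (l 16125072))) (c (c (b (l 15984848) (l 16007408)) (l 16044688)) (l 16087352))) (c (a (l 16190336) (l 16122768)) (l 16163904)))) (c (c (a (c (l 15952672) (l 15980536)) (c (a (l 15899280) (c (l 15860016) (l 15863456))) (a (l 15917888) (l 15863208)))) (a (c (l 16002536) (l 16013760)) (c (l 15888592) (l 15883128)))) (c (a (l 16013456) (l 15874936)) (l 15932368)))) (a (c (c (a (b (a (l 2531513163895) (a (c (l 16309472) (l 1521658840199)) (l 16176352))) (a (l 16311032) (a (c (l 16289144) (l 16285784)) (l 16198128)))) (a (c (c (l 16103120) (l 16049264)) (a (l 16117312) (l 16027080))) (c (b (l 15988080) (l 15968816)) (l 16005752)))) (a (a (c (l 16333400) (l 1726206693127)) (a (b (l 1524343085959) (l 16259336)) (b (l 16192736)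 (l 16172272)))) (c (a (a (l 16108640) (l 16070448)) (l 16034432)) (l 16086808)))) (a (a (c (a (l 2034370700903) (c (l 1540449314519) (l 16247824))) (a (c (l 16279848) (l 1979609761655)) (l 1521121924231))) (c (c (l 703467287351) (l 16227368)) (l 16247672))) (c (c (l 16109520) (l 16121576)) (l 16122896)))) (c (c (a (c (b (l 15924712) (l 15906152)) (l 15943016)) (b (a (c (l 15872360) (l 15890776)) (c (c (a (l 15843376) (l 15804448)) (l 15836888)) (l 15836496))) (a (c (l 15854328) (l 15872608)) (c (a (b (l 15833872) (l 15824480)) (b (l 15790528) (l 15801040))) (l 15817824))))) (a (c (a (l 15990048) (l 15942704)) (l 15975672)) (b (c (l 15861296) (l 15855624)) (a (l 15872592) (l 15824456))))) (c (a (l 15974952) (b (l 15847128) (l 15827984))) (a (l 15964912) (b (l 15835792) (l 15816368))))))), by decide +kernel⟩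

def k6_pp_022 : ∃ t, chk3 f_pp_022 t 16 334 1 = true :=
  ⟨(c (a (a (b (c (l 16290328) (c (l 16301984) (l 16306760))) (c (b (l 16274840) (l 16264528)) (c (l 16281120) (b (l 16290992) (l 16280496))))) (c (b (a (c (l 16268872) (l 16244392)) (c (l 16213472) (l 16185416))) (a (c (b (l 16253712) (l 16243624)) (b (l 16250088) (l 16218952))) (b (l 16183960) (c (l 16188520) (l 16160272))))) (b (c (l 16140784) (l 16131968)) (a (b (l 16223256) (l 16150064)) (b (l 16136608) (l 16084512)))))) (b (c (a (c (l 15963624) (a (l 16087376) (l 16018472))) (c (c (l 15942568) (l 15954888)) (l 15976704))) (c (a (l 16061248) (l 16005176)) (l 16056976))) (c (a (c (b (l 16032792) (c (l 16049176) (l 16037056))) (b (a (l 16072464) (l 16003736)) (a (l 16062536) (l 15993928)))) (b (c (l 15935248) (l 15962232)) (c (c (l 15918688) (l 15930920)) (l 15952600)))) (c (a (b (l 16046312) (l 16036376)) (l 15985744)) (l 16037160))))) (a (c (a (b (a (l 16327584) (c (l 16290440) (l 16278824))) (a (l 16306224) (c (l 16269392)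 (l 16257632)))) (b (l 16130688) (b (l 16178032) (l 16104752)))) (a (b (a (c (l 16331240) (l 16333552)) (l 16277704)) (c (a (l 16309648) (l 16253936)) (a (l 16248896) (l 16265176)))) (b (l 16215976) (l 16194920)))) (b (c (l 16082944) (l 16092304)) (c (b (l 16067912) (l 16057912)) (l 16071976))))), by decide +kernel⟩

def k7_pp_022 : ∃ t, chk3 f_pp_022 t 17 334 1 = true :=
  ⟨(c (b (a (c (b (l 15905216) (c (l 15882816) (l 15910160))) (c (a (l 15961496) (l 15914640)) (l 15947008))) (a (c (c (b (l 15819520) (l 15830512)) (b (l 15858664) (l 15848608))) (b (l 15858488) (l 15848320))) (c (l 15794904) (l 15787560)))) (a (b (c (a (l 15906520) (c (b (l 15857824) (l 15852744)) (l 15881600))) (a (l 15955576) (c (l 15900088) (l 15902840)))) (c (a (b (l 15899280) (c (l 15880136) (l 15907904))) (b (l 15860040) (l 15853696))) (a (c (l 15937112) (l 15956000)) (b (l 15892032) (l 15885584))))) (c (a (l 15820920) (c (l 15773328) (l 15774664))) (l 15797072)))) (b (c (a (l 15945968) (a (l 15841368)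 (l 15775080))) (a (l 15935512) (l 15795992))) (a (b (c (l 15931080) (l 15920400)) (c (a (l 15957296) (l 15883312)) (l 15909528))) (l 15778824)))), by decide +kernel⟩

def k8_pp_022 : ∃ t, chk3 f_pp_022 t 32 670 2 = true :=
  ⟨(c (b (b (a (l 16256808) (a (c (l 16236064) (l 16232312)) (c (l 16181048) (l 16152752)))) (b (a (l 16252952) (a (c (l 16232288) (l 16207536)) (c (l 16177320) (l 16148992)))) (b (b (a (l 16251344) (a (c (l 16230712) (l 16226928)) (l 16161152))) (a (l 16250704) (a (c (c (l 16229752) (l 16231512)) (a (l 16240064) (l 16217256))) (c (a (c (l 16206400) (l 16193936)) (l 16151536)) (l 16146800))))) (a (l 16249744) (a (l 16203648) (l 16159592)))))) (a (l 16243960) (a (l 16176992) (l 16153984)))) (b (a (b (l 16227352) (b (c (l 16264208) (l 16268712)) (b (b (l 16263760) (c (l 16261936) (l 16224480))) (l 16262128)))) (b (c (l 16128656) (l 16119600)) (b (c (l 16103880) (l 16073824)) (b (b (a (l 16199832) (l 16113464)) (c (a (l 16133808) (l 16117936)) (a (l 16188928) (l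 16102512)))) (a (l 16198232) (l 16111880)))))) (a (l 16256264) (a (l 16192472) (l 16106192))))), by decide +kernel⟩

def k9_pp_022 : ∃ t, chk3 f_pp_022 t 33 670 2 = true :=
  ⟨(b (b (c (a (c (l 15973720) (a (l 16055104) (l 15986584))) (c (a (l 15930416) (l 15905632)) (l 15945048))) (a (c (l 16028928) (l 16049496)) (l 15986608))) (a (b (c (c (c (l 16038200) (l 16026040)) (a (l 16051392) (l 15982912))) (c (l 16025208) (l 16045752))) (c (a (b (b (l 16064696) (c (l 16077512) (a (l 16072840) (l 16025328)))) (l 16063160)) (b (b (c (a (l 16005088) (l 15961320)) (l 15981200)) (a (b (b (b (l 15998912) (c (l 16004520) (c (l 15986568) (l 15988456)))) (l 15998544)) (l 15998312)) (b (b (b (l 15966824) (l 15966296)) (l 15965888)) (l 15965656)))) (c (l 15982072) (l 15979216)))) (b (b (c (l 15960544) (l 16043992)) (c (a (a (l 16051336) (l 16023424)) (l 16002208)) (l 16043184))) (l 16034304)))) (b (c (c (a (b (l 15927344) (l 15925816)) (l 15900992)) (l 15940768)) (a (l 15994896) (l 15970792)))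 (a (b (b (b (c (l 15937888) (l 15993104)) (l 15942848)) (c (l 15935744) (l 15990928))) (l 15961232)) (l 15937976))))) (a (c (a (l 16057616) (c (l 15976584) (l 15973680))) (l 16028696)) (c (l 15917048) (l 15971144)))), by decide +kernel⟩

def k10_pp_022 : ∃ t, chk3 f_pp_022 t 16 670 3 = true :=
  ⟨(a (b (b (a (c (a (l 16292904) (c (l 16256272) (l 16244416))) (a (c (l 16296184) (l 16298256)) (l 16242928))) (c (l 16138936) (l 16181792))) (b (a (c (a (l 16288912) (c (l 16252336) (l 16240456))) (a (c (l 16292152) (l 16294192)) (l 16238928))) (c (l 16093112) (l 16177864))) (b (b (a (c (a (l 16287248) (l 16180392)) (a (c (l 16290472) (l 16292504)) (l 16237264))) (c (l 16154408) (l 16176224))) (a (c (a (l 16286584) (c (l 16250048) (l 16238144))) (a (c (l 16289800) (l 16270856)) (l 16236592))) (c (c (l 16080840) (l 16156024)) (l 16175568)))) (a (c (a (l 16285584) (l 16241664)) (a (l 16205024) (l 16235592))) (c (l 16152800) (l 16174584)))))) (a (c (a (l 16279600) (l 16235752)) (a (l 16198960)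 (l 16229600))) (c (l 16146984) (l 16168688)))) (b (b (c (a (l 16085992) (l 16020544)) (l 16058920)) (b (c (a (l 16082200) (l 16016144)) (l 16054600)) (b (b (c (a (l 16080424) (l 16013488)) (l 16052616)) (a (c (c (l 16070840) (l 16090656)) (l 16093808)) (l 16010368))) (l 16043640)))) (l 16037968))), by decide +kernel⟩

def k11_pp_022 : ∃ t, chk3 f_pp_022 t 17 670 1 = true :=
  ⟨(a (b (b (c (c (a (b (l 15889920) (l 15886360)) (l 15847032)) (a (a (l 15951728) (l 15924712)) (l 15878816))) (c (l 15911240) (l 15900264))) (c (b (c (l 15860760) (l 15898992)) (c (l 15856560) (l 15894720))) (l 15899344))) (c (c (l 15849928) (l 15887992)) (l 15890272))) (c (b (b (c (a (l 15805928) (l 15758376)) (l 15782160)) (c (b (a (l 15800608) (l 15753312)) (a (l 15796712) (l 15749616))) (l 15774968))) (a (l 15793072) (l 15739088))) (l 15754960))), by decide +kernel⟩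

def k12_pp_022 : ∃ t, chk3 f_pp_022 t 8 671 1 = true :=
  ⟨(a (a (c (a (c (l 16228576) (l 16240656)) (c (a (l 16161880) (l 16139040)) (a (l 16177136) (l 16091032)))) (a (c (a (l 16263672) (l 16220008)) (a (l 16182808) (l 16213632))) (c (l 16131512) (l 16153000)))) (c (a (c (a (l 16042856) (c (l 15961968) (l 15958952))) (l 16013768)) (c (l 15902672) (l 15956552))) (l 16022872))) (c (a (c (l 15836144) (l 15873992)) (a (l 15779768) (l 15726168))) (l 15801752))), by decide +kernel⟩

def k13_pp_022 : ∃ t, chk3 f_pp_022 t 9 83 1 = true :=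
  ⟨(b (a (a (a (c (b (c (b (l 15815224) (a (l 15812888) (b (l 15787624) (l 15779528)))) (b (l 15802720) (l 15785288))) (b (c (a (c (l 15797856) (l 15791488)) (a (l 15771472) (l 15764240))) (c (l 15772152) (l 15765688))) (c (l 15744792) (l 15752520)))) (b (c (l 15781344) (l 15768792)) (b (c (l 15755992) (l 15743072)) (l 15732768)))) (b (c (c (b (c (l 15794640) (l 15809304)) (l 15809016)) (b (l 15799848) (l 15796344))) (c (l 15785880) (l 15773248))) (l 15784848))) (l 15900736)) (l 16090864)) (a (b (a (c (a (a (c (l 15722032) (l 15729464)) (l 15715296)) (l 15790216)) (l 15739448)) (l 15891584)) (c (a (b (a (b (b (l 15700720) (a (b (l 15709016) (l 15685064)) (l 15726864))) (l 15714648)) (b (b (l 15785800) (l 15783640)) (l 15782480))) (l 15747576)) (l 15877280)) (a (a (a (l 15677424) (l 15700440)) (l 15758640)) (l 15875272)))) (b (l 16084048) (a (l 16030128) (l 16131520))))), by decide +kernel⟩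

def k14_pp_022 : ∃ t, chk3 f_pp_022 t 4 21 1 = true :=
  ⟨(a (a (a (c (a (c (b (l 16056544) (l 15744600)) (b (l 15940264) (l 15749432))) (c (a (b (c (l 16040080) (l 15909040)) (l 15623672)) (b (l 15825256) (l 15669232))) (a (b (l 15942736) (l 15694664)) (b (l 15900576) (l 15614088))))) (a (c (a (l 15838032) (b (l 15897152) (l 15724504))) (a (c (l 15774408) (l 15710904)) (l 15766128))) (c (b (l 15853648) (l 15644512)) (l 15753096)))) (c (c (b (a (a (b (l 15954784) (l 15801264)) (c (l 15736008) (l 15794680))) (a (l 15606088) (l 15730304))) (a (a (l 15577760) (l 15504672)) (l 15452624))) (a (b (a (l 15672320) (l 15828784)) (l 15544336)) (l 15539704))) (b (c (l 15727760) (l 15859592)) (l 15549048)))) (c (a (b (c (b (l 15754168) (l 15611600)) (l 15654976)) (a (b (l 15509440) (c (l 15376008) (l 15416912))) (b (c (l 15483296) (l 15509520)) (l 15450792)))) (b (a (b (c (l 15698744) (l 15706592)) (c (a (l 15577968) (l 15586488)) (l 15592336))) (b (c (a (l 15673304) (c (l 15678080) (l 15673472)))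 (l 15669320)) (l 15629888))) (c (l 15587760) (l 15587744)))) (a (b (l 15716352) (a (l 15475624) (l 15474768))) (b (b (l 15670704) (l 15593304)) (l 15564800))))) (a (c (a (b (l 15747432) (l 15751440)) (l 15902200)) (l 15800640)) (l 16087288))), by decide +kernel⟩

def k15_pp_022 : ∃ t, chk3 f_pp_022 t 5 10 1 = true :=
  ⟨(a (a (b (b (b (c (b (a (l 16272656) (l 16371912)) (a (l 16273344) (l 16373704))) (b (a (l 16259552) (l 16361400)) (a (l 16260256) (l 16363240)))) (a (b (c (l 16273792) (l 16260720)) (l 16265664)) (l 16367016))) (b (l 16301632) (b (l 16281760) (b (l 16277608) (a (l 16228280) (l 16325352)))))) (a (l 16236640) (l 16346688))) (b (b (b (b (c (l 16521032) (l 16514480)) (l 16517080)) (l 16507992)) (b (l 16483928) (b (l 16455104) (a (b (l 16424672) (a (l 16403184) (l 16471928))) (b (l 16545336) (l 16585896)))))) (l 16542904))) (b (b (a (b (l 16709768) (l 16698976)) (b (l 16654800) (l 16635168))) (b (a (a (l 16630096) (l 16747208)) (l 16531336)) (b (a (l 16721896) (l 16436960))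 (a (l 16643408) (l 16368280))))) (l 16510664))), by decide +kernel⟩

def k16_pp_022 : ∃ t, chk3 f_pp_022 t 2 11 1 = true :=
  ⟨(a (a (a (a (b (c (a (b (l 15447352) (b (l 15233256) (l 15119288))) (b (c (a (l 15437408) (l 15381424)) (a (l 15398944) (l 15321720))) (c (a (l 15209784) (l 15200016)) (a (l 15167616) (l 15137368))))) (a (c (a (l 15308144) (b (l 15420504) (l 15151704))) (a (b (l 15445536) (l 15151912)) (l 15223048))) (b (l 15196792) (c (l 15141328) (l 15147864))))) (c (a (l 15074056) (c (l 15176856) (l 15135232))) (a (c (l 15051976) (l 15037376)) (l 15106592)))) (c (b (b (a (c (b (l 15332112) (l 15219112)) (l 15274400)) (b (c (l 15269888) (l 15314000)) (l 15245296))) (c (l 15208456) (l 15220480))) (l 15223192)) (b (b (a (l 15306616) (l 15315616)) (l 15240032)) (l 15240968)))) (c (b (a (l 15295992) (l 15591024)) (l 15496112)) (b (l 15489008) (l 15493752)))) (a (c (b (l 15837448) (l 15844968)) (l 15816216)) (b (l 16103560) (l 16113240)))) (b (a (a (l 16315544) (l 16531856))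 (l 16671952)) (a (l 16410824) (b (l 16731040) (l 16730856))))), by decide +kernel⟩

def k17_pp_022 : ∃ t, chk3 f_pp_022 t 3 5 1 = true :=
  ⟨(a (b (b (b (a (a (l 16387384) (l 16109448)) (c (a (a (l 15848864) (l 15730856)) (l 15568024)) (a (l 15647712) (l 15564360)))) (b (a (l 16118976) (c (a (a (l 15764200) (l 15625944)) (l 15517728)) (a (l 15726952) (l 15437784)))) (a (a (b (l 16179360) (l 16152416)) (b (l 15924848) (c (l 15794240) (l 15748008)))) (a (a (b (l 15709224) (l 15594088)) (l 15666032)) (l 15563360))))) (a (a (l 16264704) (c (a (l 16131680) (l 15994312)) (l 15909872))) (a (c (a (l 16009840) (l 15992096)) (l 15972776)) (a (l 15719480) (l 2))))) (b (b (a (c (l 16426032) (a (l 16472224) (l 16419936))) (l 16360216)) (a (l 16586016) (l 2))) (a (l 16776872) (l 2)))) (b (b (b (a (a (l 15262600) (l 2)) (l 2)) (l 2)) (l 2)) (l 2))), by decide +kernel⟩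

def k18_pp_022 : ∃ t, chk3 f_pp_022 t 1 3 1 = true :=
  ⟨(a (a (b (a (a (a (c (b (a (l 15073704) (l 15153280)) (l 15107344)) (a (b (l 15042544) (l 15042544)) (l 15106592))) (c (b (l 15223200) (l 15223200)) (l 15240976))) (b (c (l 15496128) (l 15493760)) (l 15490848))) (a (b (l 15833864) (l 15833864)) (b (l 16113256) (l 16113256)))) (a (a (a (c (l 15107344) (l 15079184)) (c (l 15223200) (l 15240976))) (b (l 15490848) (l 15490848))) (a (l 15833864) (l 16113256)))) (b (b (a (l 16410784) (l 16730856)) (a (b (l 16410784) (l 16410784)) (l 16730856))) (a (l 16410784) (l 2)))) (b (b (a (l 16777216) (l 2)) (l 2)) (l 2))), by decide +kernel⟩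

theorem s19_pp_022 : ∃ t, chk3 f_pp_022 t 16 670 2 = true := ex3_a k8_pp_022 k9_pp_022

theorem s20_pp_022 : ∃ t, chk3 f_pp_022 t 16 670 1 = true := ex3_c s19_pp_022 k10_pp_022

theorem s21_pp_022 : ∃ t, chk3 f_pp_022 t 8 670 1 = true := ex3_a s20_pp_022 k11_pp_022

theorem s22_pp_022 : ∃ t, chk3 f_pp_022 t 8 335 1 = true := ex3_b s21_pp_022 k12_pp_022

theorem s23_pp_022 : ∃ t, chk3 f_pp_022 t 8 334 1 = true := ex3_a k6_pp_022 k7_pp_022

theorem s24_pp_022 : ∃ t, chk3 f_pp_022 t 8 167 1 = true := ex3_b s23_pp_022 s22_pp_022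

theorem s25_pp_022 : ∃ t, chk3 f_pp_022 t 8 83 1 = true := ex3_b k5_pp_022 s24_pp_022

theorem s26_pp_022 : ∃ t, chk3 f_pp_022 t 4 83 1 = true := ex3_a s25_pp_022 k13_pp_022

theorem s27_pp_022 : ∃ t, chk3 f_pp_022 t 4 41 1 = true := ex3_b k4_pp_022 s26_pp_022

theorem s28_pp_022 : ∃ t, chk3 f_pp_022 t 4 20 1 = true := ex3_b k3_pp_022 s27_pp_022

theorem s29_pp_022 : ∃ t, chk3 f_pp_022 t 4 10 1 = true := ex3_b s28_pp_022 k14_pp_022

theorem s30_pp_022 : ∃ t, chk3 f_pp_022 t 2 10 1 = true := ex3_a s29_pp_022 k15_pp_022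

theorem s31_pp_022 : ∃ t, chk3 f_pp_022 t 2 5 1 = true := ex3_b s30_pp_022 k16_pp_022

theorem s32_pp_022 : ∃ t, chk3 f_pp_022 t 1 5 1 = true := ex3_a s31_pp_022 k17_pp_022

theorem s33_pp_022 : ∃ t, chk3 f_pp_022 t 3 4 1 = true := ex3_b k1_pp_022 k2_pp_022

theorem s34_pp_022 : ∃ t, chk3 f_pp_022 t 1 4 1 = true := ex3_a k0_pp_022 s33_pp_022

theorem s35_pp_022 : ∃ t, chk3 f_pp_022 t 1 2 1 = true := ex3_b s34_pp_022 s32_pp_022

theorem s36_pp_022 : ∃ t, chk3 f_pp_022 t 1 1 1 = true := ex3_b s35_pp_022 k18_pp_022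

theorem c_pp_022 : CertFX 0 536870912 1073741824 536870912 1046898278 26843546 false true true .pp 0 2 2
    ndF5q0 ndF6q2 pcF2 Cut.none Ext.none :=
  certFX1 (fam := false) (s1 := true) (s2 := true) (a := 0) (b := 2) (c := 2) (cn := .pp) (n1 := ndF5q0) (n2 := ndF6q2) (pc := pcF2) (cut := Cut.none) (xt := Ext.none) (P1 := 0) (W1 := 536870912) (P2 := 1073741824) (W2 := 536870912) (P3 := 1046898278) (W3 := 26843546)
    rfl (fun _ => rfl) s36_pp_022

noncomputable def f_pp_023 : ℕ → ℕ → ℕ → ℕ → Bool := onCell 1073741824 536870912 0 1230186008 1046898278 26843546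
    (rowFX 2 false true true .up 0 2 3 (qsf 0 536870912 0 1230186008 2) ndF5q0 ndF6q3 pcF2 Cut.none Ext.none)

def k0_pp_023 : ∃ t, chk3 f_pp_023 t 1 1 1 = true :=
  ⟨(b (a (l 2) (a (l 2) (b (l 4) (a (l 16755064) (l 16755064))))) (a (a (b (l 2) (b (l 2) (a (b (l 2) (b (a (l 2) (c (l 15837344) (l 15811312))) (a (a (l 16225616) (l 16077968)) (l 15711688)))) (a (b (l 15433960) (b (l 15478624) (l 15658152))) (b (b (l 15096680) (l 14876264)) (b (l 15136912) (l 15456008))))))) (b (a (l 2) (a (l 2) (l 16740088))) (a (b (a (l 15020472) (l 15686824)) (b (b (l 15289528) (a (b (l 14906720) (a (l 14824264) (l 14989296))) (l 15543768))) (a (a (b (l 15005008) (c (l 15412304) (l 15296952))) (b (l 15150240) (a (l 15291776) (l 15515080)))) (b (l 15734392) (c (l 15936352) (l 15882152)))))) (a (b (l 16413344) (b (l 16423896) (a (l 16360216) (l 16627920)))) (b (l 16776704) (b (l 16776720) (l 16776816))))))) (b (b (a (l 16760784) (l 16777160)) (a (l 16777200) (l 16777200))) (a (b (l 16777216) (b (a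 (l 16777216) (l 16762880)) (a (l 16755904) (a (l 16665944) (l 16518984))))) (b (a (l 16766480) (l 16613368)) (b (a (l 16579008) (l 16172192)) (a (b (l 16346408) (l 15975096)) (b (l 15658648) (a (l 15680936) (b (l 15450800) (a (l 15284872) (l 15121200)))))))))))), by decide +kernel⟩

theorem c_pp_023 : CertFX 0 536870912 0 1230186008 1046898278 26843546 false true true .up 0 2 3
    ndF5q0 ndF6q3 pcF2 Cut.none Ext.none :=
  certFX2 (fam := false) (s1 := true) (s2 := true) (a := 0) (b := 2) (c := 3) (cn := .up) (n1 := ndF5q0) (n2 := ndF6q3) (pc := pcF2) (cut := Cut.none) (xt := Ext.none) (P1 := 0) (W1 := 536870912) (P2 := 0) (W2 := 1230186008) (P3 := 1046898278) (W3 := 26843546)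
    rfl (fun _ => rfl) k0_pp_023

noncomputable def f_pp_033 : ℕ → ℕ → ℕ → ℕ → Bool := onCell 0 536870912 0 1230186008 1046898278 26843546
    (rowFX 0 false true true .pnn 0 3 3 (qsf 0 536870912 0 1230186008 3) ndF5q0 ndF6q3 pcF3 Cut.none Ext.none)

def k0_pp_033 : ∃ t, chk3 f_pp_033 t 1 1 1 = true :=
  ⟨(b (b (l 4) (b (a (l 4) (a (l 4) (a (l 16747528) (l 16747528)))) (a (a (l 4) (b (l 4) (c (a (l 577369921319) (l 16728608)) (a (b (l 4) (l 16406008)) (l 16726912))))) (a (c (c (l 16765288) (l 16765008)) (c (l 16764848) (l 16764688))) (a (l 16764968) (l 16764968)))))) (b (a (a (a (b (b (b (l 4) (a (a (c (l 15107304) (l 15079136)) (c (l 15223160) (l 15240920))) (a (l 15405496) (l 15585856)))) (a (c (a (l 15107280) (l 15223136)) (c (l 15162456) (l 15154344))) (a (l 15405480) (l 15585840)))) (b (a (a (c (l 15107312) (l 15016232)) (l 15046816)) (c (l 15496104) (l 15493736))) (a (a (l 15089808) (l 15214624)) (l 15490848)))) (b (c (b (a (l 15844944) (l 16121728)) (l 15976088)) (b (a (l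 15820288) (l 16104704)) (l 15955272))) (b (a (l 15833840) (l 16113224)) (l 15967568)))) (b (a (b (c (l 16415448) (l 16406040)) (l 16410720)) (b (l 16730816) (l 16730792))) (a (b (l 16410760) (l 16410784)) (l 16730840)))) (a (b (a (l 16777160) (l 16777160)) (l 16777200)) (b (l 16777160) (l 1)))) (a (a (a (b (a (a (c (l 15107344) (b (l 15079184) (l 15079184))) (c (l 15223200) (l 15240976))) (b (l 15490848) (l 15490848))) (a (b (c (l 14986376) (a (l 15079184) (l 15240976))) (a (l 15089808) (l 15214624))) (b (l 15490848) (l 15490848)))) (b (b (l 15967568) (l 15967568)) (b (l 15967568) (l 15967568)))) (b (a (l 16410784) (l 16730856)) (a (l 16347864) (l 1)))) (l 1)))), by decide +kernel⟩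

theorem c_pp_033 : CertFX 0 536870912 0 1230186008 1046898278 26843546 false true true .pnn 0 3 3
    ndF5q0 ndF6q3 pcF3 Cut.none Ext.none :=
  certFX0 (fam := false) (s1 := true) (s2 := true) (a := 0) (b := 3) (c := 3) (cn := .pnn) (n1 := ndF5q0) (n2 := ndF6q3) (pc := pcF3) (cut := Cut.none) (xt := Ext.none) (P1 := 0) (W1 := 536870912) (P2 := 0) (W2 := 1230186008) (P3 := 1046898278) (W3 := 26843546)
    rfl k0_pp_033

noncomputable def f_pp_101 : ℕ → ℕ → ℕ → ℕ → Bool := onCell 536870912 469762048 536870912 469762048 1046898278 26843546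
    (rowFX 0 false true true .npn 1 0 1 (qsf 536870912 469762048 536870912 469762048 0) ndF5q1 ndF6q1 pcF0 Cut.none Ext.none)

def k0_pp_101 : ∃ t, chk3 f_pp_101 t 1 1 1 = true :=
  ⟨(l 3), by decide +kernel⟩

theorem c_pp_101 : CertFX 536870912 469762048 536870912 469762048 1046898278 26843546 false true true .npn 1 0 1
    ndF5q1 ndF6q1 pcF0 Cut.none Ext.none :=
  certFX0 (fam := false) (s1 := true) (s2 := true) (a := 1) (b := 0) (c := 1) (cn := .npn) (n1 := ndF5q1) (n2 := ndF6q1) (pc := pcF0) (cut := Cut.none) (xt := Ext.none) (P1 := 536870912) (W1 := 469762048) (P2 := 536870912) (W2 := 469762048) (P3 := 1046898278) (W3 := 26843546)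
    rfl k0_pp_101

noncomputable def f_pp_102 : ℕ → ℕ → ℕ → ℕ → Bool := onCell 536870912 469762048 0 536870912 1046898278 26843546
    (rowFX 1 false true true .npp 1 0 2 (qsf 536870912 469762048 1073741824 536870912 0) ndF5q1 ndF6q2 pcF0 Cut.none Ext.none)

def k0_pp_102 : ∃ t, chk3 f_pp_102 t 1 1 1 = true :=
  ⟨(l 3), by decide +kernel⟩

theorem c_pp_102 : CertFX 536870912 469762048 1073741824 536870912 1046898278 26843546 false true true .npp 1 0 2
    ndF5q1 ndF6q2 pcF0 Cut.none Ext.none :=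
  certFX1 (fam := false) (s1 := true) (s2 := true) (a := 1) (b := 0) (c := 2) (cn := .npp) (n1 := ndF5q1) (n2 := ndF6q2) (pc := pcF0) (cut := Cut.none) (xt := Ext.none) (P1 := 536870912) (W1 := 469762048) (P2 := 1073741824) (W2 := 536870912) (P3 := 1046898278) (W3 := 26843546)
    rfl (fun _ => rfl) k0_pp_102

noncomputable def f_pp_112 : ℕ → ℕ → ℕ → ℕ → Bool := onCell 536870912 536870912 1073741824 536870912 1046898278 26843546
    (rowFX 2 false true true .dn 1 1 2 (qsf 536870912 469762048 1073741824 536870912 1) ndF5q1 ndF6q2 pcF1 Cut.none Ext.none)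

def k0_pp_112 : ∃ t, chk3 f_pp_112 t 1 1 1 = true :=
  ⟨(b (l 3) (a (l 3) (b (l 3) (a (l 3) (a (b (l 3) (l 16475888)) (a (l 816075459639) (b (l 1) (l 15874832)))))))), by decide +kernel⟩

theorem c_pp_112 : CertFX 536870912 469762048 1073741824 536870912 1046898278 26843546 false true true .dn 1 1 2
    ndF5q1 ndF6q2 pcF1 Cut.none Ext.none :=
  certFX2 (fam := false) (s1 := true) (s2 := true) (a := 1) (b := 1) (c := 2) (cn := .dn) (n1 := ndF5q1) (n2 := ndF6q2) (pc := pcF1) (cut := Cut.none) (xt := Ext.none) (P1 := 536870912) (W1 := 469762048) (P2 := 1073741824) (W2 := 536870912) (P3 := 1046898278) (W3 := 26843546)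
    rfl (fun _ => rfl) k0_pp_112

noncomputable def f_pp_113 : ℕ → ℕ → ℕ → ℕ → Bool := onCell 536870912 536870912 0 1230186008 1046898278 26843546
    (rowFX 2 false true true .nn 1 1 3 (qsf 536870912 469762048 0 1230186008 1) ndF5q1 ndF6q3 pcF1 Cut.none Ext.none)

def k0_pp_113 : ∃ t, chk3 f_pp_113 t 1 1 1 = true :=
  ⟨(b (a (l 2) (a (l 2) (b (l 2) (a (l 2) (b (a (l 2) (b (l 2) (l 14053536))) (a (b (l 2) (l 14471528)) (b (l 14438112) (l 15014696)))))))) (a (b (l 2) (b (a (l 2) (a (l 2) (b (a (l 2) (b (l 2) (c (l 294300646743) (l 14302832)))) (a (b (l 2) (c (l 14790008) (l 14772544))) (b (c (l 14858272) (l 14837824)) (l 15305456)))))) (a (l 3) (a (l 3) (b (a (l 3) (b (l 15893776) (l 3))) (l 3)))))) (b (a (b (l 2) (a (b (l 2) (a (l 2) (b (l 2) (c (l 14618216) (l 14605752))))) (b (a (b (l 2) (l 14408176)) (l 14795256)) (a (l 15011456) (l 15595504))))) (b (a (b (a (l 2) (l 14479552)) (a (l 14582224) (l 15076648))) (a (l 15309224) (l 15723136))) (a (b (a (l 15278344) (l 15736848))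 (a (l 16009584) (l 16216960))) (b (l 16066744) (l 16201672))))) (a (b (a (b (a (c (b (l 14472536) (l 14953544)) (l 14646600)) (b (l 15063568) (l 15531616))) (a (c (l 15723448) (l 15614528)) (b (l 16018296) (l 16408232)))) (b (a (l 15861072) (b (l 16214368) (l 16506368))) (a (l 16539824) (l 16696864)))) (a (b (a (l 16400960) (l 16657112)) (l 3)) (b (l 16756792) (l 16772368)))) (a (b (a (b (l 16463232) (l 16597544)) (l 16397656)) (b (l 16500128) (l 16484496))) (b (a (b (l 16279704) (l 16232960)) (l 16108352)) (a (l 16166264) (b (l 16013360) (l 15951968))))))))), by decide +kernel⟩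

theorem c_pp_113 : CertFX 536870912 469762048 0 1230186008 1046898278 26843546 false true true .nn 1 1 3
    ndF5q1 ndF6q3 pcF1 Cut.none Ext.none :=
  certFX2 (fam := false) (s1 := true) (s2 := true) (a := 1) (b := 1) (c := 3) (cn := .nn) (n1 := ndF5q1) (n2 := ndF6q3) (pc := pcF1) (cut := Cut.none) (xt := Ext.none) (P1 := 536870912) (W1 := 469762048) (P2 := 0) (W2 := 1230186008) (P3 := 1046898278) (W3 := 26843546)
    rfl (fun _ => rfl) k0_pp_113

noncomputable def f_pp_123 : ℕ → ℕ → ℕ → ℕ → Bool := onCell 1073741824 536870912 0 1230186008 1046898278 26843546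
    (rowFX 2 false true true .npn 1 2 3 (qsf 536870912 469762048 0 1230186008 2) ndF5q1 ndF6q3 pcF2 Cut.none Ext.none)

def k0_pp_123 : ∃ t, chk3 f_pp_123 t 1 1 1 = true :=
  ⟨(b (a (a (a (a (b (l 2) (b (l 15240576) (l 14727168))) (b (b (l 16373632) (l 15782912)) (b (l 15225368) (l 15242696)))) (b (b (l 15906784) (l 15676328)) (b (a (l 15407904) (l 15308112)) (l 15354040)))) (b (a (a (l 15333736) (l 15679968)) (a (l 15871664) (l 16083520))) (a (b (l 15531032) (l 15529584)) (a (l 16171832) (l 16433480))))) (a (b (a (l 16427216) (l 16714456)) (a (l 16602416) (l 16749984))) (b (l 4) (a (l 16755064) (l 16755064))))) (a (a (b (b (a (b (l 15393416) (l 15560704)) (l 15465680)) (a (l 15716616) (l 15412512))) (b (a (l 15865464) (l 15324608)) (a (b (l 15972968) (a (c (a (l 16288480) (l 16109368)) (b (l 16214496) (l 16091328))) (c (l 383357516743) (l 15750504)))) (a (b (l 15433960) (b (l 15478624) (l 1))) (b (b (l 15096680) (l 14855296)) (l 1)))))) (b (a (a (a (l 15132784) (l 15276416)) (l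 15794752)) (a (l 16424776) (l 16740088))) (b (a (a (l 15020472) (l 15686824)) (l 614749890199)) (a (b (b (l 15289528) (l 1)) (l 1)) (l 1))))) (b (b (a (l 16760784) (l 16777160)) (a (l 16777200) (l 1))) (l 1)))), by decide +kernel⟩

theorem c_pp_123 : CertFX 536870912 469762048 0 1230186008 1046898278 26843546 false true true .npn 1 2 3
    ndF5q1 ndF6q3 pcF2 Cut.none Ext.none :=
  certFX2 (fam := false) (s1 := true) (s2 := true) (a := 1) (b := 2) (c := 3) (cn := .npn) (n1 := ndF5q1) (n2 := ndF6q3) (pc := pcF2) (cut := Cut.none) (xt := Ext.none) (P1 := 536870912) (W1 := 469762048) (P2 := 0) (W2 := 1230186008) (P3 := 1046898278) (W3 := 26843546)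
    rfl (fun _ => rfl) k0_pp_123

noncomputable def f_pp_133 : ℕ → ℕ → ℕ → ℕ → Bool := onCell 1610612736 536870912 0 1230186008 1046898278 26843546
    (rowFX 2 false true true .dn 1 3 3 (qsf 536870912 469762048 0 1230186008 3) ndF5q1 ndF6q3 pcF3 Cut.none Ext.none)

def k0_pp_133 : ∃ t, chk3 f_pp_133 t 1 1 1 = true :=
  ⟨(b (b (l 4) (l 1)) (l 1)), by decide +kernel⟩

theorem c_pp_133 : CertFX 536870912 469762048 0 1230186008 1046898278 26843546 false true true .dn 1 3 3
    ndF5q1 ndF6q3 pcF3 Cut.none Ext.none :=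
  certFX2 (fam := false) (s1 := true) (s2 := true) (a := 1) (b := 3) (c := 3) (cn := .dn) (n1 := ndF5q1) (n2 := ndF6q3) (pc := pcF3) (cut := Cut.none) (xt := Ext.none) (P1 := 536870912) (W1 := 469762048) (P2 := 0) (W2 := 1230186008) (P3 := 1046898278) (W3 := 26843546)
    rfl (fun _ => rfl) k0_pp_133

noncomputable def f_pp_202 : ℕ → ℕ → ℕ → ℕ → Bool := onCell 1073741824 536870912 1073741824 536870912 1046898278 26843546
    (rowFX 0 false true true .pp 2 0 2 (qsf 1073741824 536870912 1073741824 536870912 0) ndF5q2 ndF6q2 pcF0 Cut.none Ext.none)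

def k0_pp_202 : ∃ t, chk3 f_pp_202 t 1 1 1 = true :=
  ⟨(l 3), by decide +kernel⟩

theorem c_pp_202 : CertFX 1073741824 536870912 1073741824 536870912 1046898278 26843546 false true true .pp 2 0 2
    ndF5q2 ndF6q2 pcF0 Cut.none Ext.none :=
  certFX0 (fam := false) (s1 := true) (s2 := true) (a := 2) (b := 0) (c := 2) (cn := .pp) (n1 := ndF5q2) (n2 := ndF6q2) (pc := pcF0) (cut := Cut.none) (xt := Ext.none) (P1 := 1073741824) (W1 := 536870912) (P2 := 1073741824) (W2 := 536870912) (P3 := 1046898278) (W3 := 26843546)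
    rfl k0_pp_202

noncomputable def f_pp_203 : ℕ → ℕ → ℕ → ℕ → Bool := onCell 0 536870912 0 1230186008 1046898278 26843546
    (rowFX 2 false true true .up 2 0 3 (qsf 1073741824 536870912 0 1230186008 0) ndF5q2 ndF6q3 pcF0 Cut.none Ext.none)

def k0_pp_203 : ∃ t, chk3 f_pp_203 t 1 1 1 = true :=
  ⟨(b (l 3) (l 3)), by decide +kernel⟩

theorem c_pp_203 : CertFX 1073741824 536870912 0 1230186008 1046898278 26843546 false true true .up 2 0 3
    ndF5q2 ndF6q3 pcF0 Cut.none Ext.none :=
  certFX2 (fam := false) (s1 := true) (s2 := true) (a := 2) (b := 0) (c := 3) (cn := .up) (n1 := ndF5q2) (n2 := ndF6q3) (pc := pcF0) (cut := Cut.none) (xt := Ext.none) (P1 := 1073741824) (W1 := 536870912) (P2 := 0) (W2 := 1230186008) (P3 := 1046898278) (W3 := 26843546)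
    rfl (fun _ => rfl) k0_pp_203

noncomputable def f_pp_213 : ℕ → ℕ → ℕ → ℕ → Bool := onCell 1073741824 536870912 0 1230186008 1046898278 26843546
    (rowFX 0 false true true .pnn 2 1 3 (qsf 1073741824 536870912 0 1230186008 1) ndF5q2 ndF6q3 pcF1 Cut.none Ext.none)

def k0_pp_213 : ∃ t, chk3 f_pp_213 t 1 1 1 = true :=
  ⟨(b (b (a (a (a (b (a (a (b (c (l 16298696) (l 16106784)) (b (c (l 16255952) (l 16193344)) (c (l 16218544) (l 16117136)))) (b (c (l 16542792) (l 16607904)) (c (a (l 16481440) (l 16626680)) (l 16560096)))) (a (b (l 16493208) (b (l 16596832) (l 16520000))) (b (l 16309696) (l 16249448)))) (b (a (a (a (c (b (l 16155848) (l 16117992)) (b (l 16155696) (l 16153520))) (c (l 271286154791) (l 16294280))) (a (c (l 16401920) (l 16393936)) (l 266454602551))) (a (l 266991657911) (l 3))) (l 3))) (b (a (b (l 15689616) (l 213840023687)) (b (l 15141288) (l 3))) (l 3))) (l 3)) (l 3)) (l 3)) (l 3)), by decide +kernel⟩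

theorem c_pp_213 : CertFX 1073741824 536870912 0 1230186008 1046898278 26843546 false true true .pnn 2 1 3
    ndF5q2 ndF6q3 pcF1 Cut.none Ext.none :=
  certFX0 (fam := false) (s1 := true) (s2 := true) (a := 2) (b := 1) (c := 3) (cn := .pnn) (n1 := ndF5q2) (n2 := ndF6q3) (pc := pcF1) (cut := Cut.none) (xt := Ext.none) (P1 := 1073741824) (W1 := 536870912) (P2 := 0) (W2 := 1230186008) (P3 := 1046898278) (W3 := 26843546)
    rfl k0_pp_213

noncomputable def f_pp_303 : ℕ → ℕ → ℕ → ℕ → Bool := onCell 0 1230186008 0 1230186008 1046898278 26843546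
    (rowFX 0 false true true .npn 3 0 3 (qsf 0 1230186008 0 1230186008 0) ndF5q3 ndF6q3 pcF0 Cut.none Ext.none)

def k0_pp_303 : ∃ t, chk3 f_pp_303 t 1 1 1 = true :=
  ⟨(a (b (l 3) (l 5)) (b (l 3) (l 3))), by decide +kernel⟩

theorem c_pp_303 : CertFX 0 1230186008 0 1230186008 1046898278 26843546 false true true .npn 3 0 3
    ndF5q3 ndF6q3 pcF0 Cut.none Ext.none :=
  certFX0 (fam := false) (s1 := true) (s2 := true) (a := 3) (b := 0) (c := 3) (cn := .npn) (n1 := ndF5q3) (n2 := ndF6q3) (pc := pcF0) (cut := Cut.none) (xt := Ext.none) (P1 := 0) (W1 := 1230186008) (P2 := 0) (W2 := 1230186008) (P3 := 1046898278) (W3 := 26843546)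
    rfl k0_pp_303

noncomputable def f_pp_313 : ℕ → ℕ → ℕ → ℕ → Bool := onCell 0 1230186008 0 1230186008 1046898278 26843546
    (rowFX 0 false true true .dn 3 1 3 (qsf 0 1230186008 0 1230186008 1) ndF5q3 ndF6q3 pcF1 Cut.none Ext.none)

def k0_pp_313 : ∃ t, chk3 f_pp_313 t 1 1 1 = true :=
  ⟨(a (l 1) (b (l 3) (l 1))), by decide +kernel⟩

theorem c_pp_313 : CertFX 0 1230186008 0 1230186008 1046898278 26843546 false true true .dn 3 1 3
    ndF5q3 ndF6q3 pcF1 Cut.none Ext.none :=
  certFX0 (fam := false) (s1 := true) (s2 := true) (a := 3) (b := 1) (c := 3) (cn := .dn) (n1 := ndF5q3) (n2 := ndF6q3) (pc := pcF1) (cut := Cut.none) (xt := Ext.none) (P1 := 0) (W1 := 1230186008) (P2 := 0) (W2 := 1230186008) (P3 := 1046898278) (W3 := 26843546)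
    rfl k0_pp_313

noncomputable def f_pm_001 : ℕ → ℕ → ℕ → ℕ → Bool := onCell 0 536870912 536870912 469762048 1046898278 26843546
    (rowFX 0 false true false .up 0 0 1 (qsf 0 536870912 536870912 469762048 0) ndF5q0 ndF6q1 pcF0 Cut.none Ext.none)

def k0_pm_001 : ∃ t, chk3 f_pm_001 t 1 1 1 = true :=
  ⟨(l 4), by decide +kernel⟩

theorem c_pm_001 : CertFX 0 536870912 536870912 469762048 1046898278 26843546 false true false .up 0 0 1
    ndF5q0 ndF6q1 pcF0 Cut.none Ext.none :=
  certFX0 (fam := false) (s1 := true) (s2 := false) (a := 0) (b := 0) (c := 1) (cn := .up) (n1 := ndF5q0) (n2 := ndF6q1) (pc := pcF0) (cut := Cut.none) (xt := Ext.none) (P1 := 0) (W1 := 536870912) (P2 := 536870912) (W2 := 469762048) (P3 := 1046898278) (W3 := 26843546)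
    rfl k0_pm_001

noncomputable def f_pm_011 : ℕ → ℕ → ℕ → ℕ → Bool := onCell 0 536870912 536870912 469762048 1046898278 26843546
    (rowFX 0 false true false .pnn 0 1 1 (qsf 0 536870912 536870912 469762048 1) ndF5q0 ndF6q1 pcF1 Cut.none Ext.none)

def k0_pm_011 : ∃ t, chk3 f_pm_011 t 1 1 1 = true :=
  ⟨(l 4), by decide +kernel⟩

theorem c_pm_011 : CertFX 0 536870912 536870912 469762048 1046898278 26843546 false true false .pnn 0 1 1
    ndF5q0 ndF6q1 pcF1 Cut.none Ext.none :=
  certFX0 (fam := false) (s1 := true) (s2 := false) (a := 0) (b := 1) (c := 1) (cn := .pnn) (n1 := ndF5q0) (n2 := ndF6q1) (pc := pcF1) (cut := Cut.none) (xt := Ext.none) (P1 := 0) (W1 := 536870912) (P2 := 536870912) (W2 := 469762048) (P3 := 1046898278) (W3 := 26843546)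
    rfl k0_pm_011

noncomputable def f_pm_012 : ℕ → ℕ → ℕ → ℕ → Bool := onCell 0 536870912 1073741824 536870912 1046898278 26843546
    (rowFX 0 false true false .pnp 0 1 2 (qsf 0 536870912 1073741824 536870912 1) ndF5q0 ndF6q2 pcF1 Cut.none Ext.none)

def k0_pm_012 : ∃ t, chk3 f_pm_012 t 1 1 1 = true :=
  ⟨(l 4), by decide +kernel⟩

theorem c_pm_012 : CertFX 0 536870912 1073741824 536870912 1046898278 26843546 false true false .pnp 0 1 2
    ndF5q0 ndF6q2 pcF1 Cut.none Ext.none :=
  certFX0 (fam := false) (s1 := true) (s2 := false) (a := 0) (b := 1) (c := 2) (cn := .pnp) (n1 := ndF5q0) (n2 := ndF6q2) (pc := pcF1) (cut := Cut.none) (xt := Ext.none) (P1 := 0) (W1 := 536870912) (P2 := 1073741824) (W2 := 536870912) (P3 := 1046898278) (W3 := 26843546)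
    rfl k0_pm_012

noncomputable def f_pm_022 : ℕ → ℕ → ℕ → ℕ → Bool := onCell 0 536870912 1073741824 536870912 1046898278 26843546
    (rowFX 0 false true false .pp 0 2 2 (qsf 0 536870912 1073741824 536870912 2) ndF5q0 ndF6q2 pcF2 Cut.none Ext.none)

def k0_pm_022 : ∃ t, chk3 f_pm_022 t 1 1 1 = true :=
  ⟨(l 4), by decide +kernel⟩

theorem c_pm_022 : CertFX 0 536870912 1073741824 536870912 1046898278 26843546 false true false .pp 0 2 2
    ndF5q0 ndF6q2 pcF2 Cut.none Ext.none :=
  certFX0 (fam := false) (s1 := true) (s2 := false) (a := 0) (b := 2) (c := 2) (cn := .pp) (n1 := ndF5q0) (n2 := ndF6q2) (pc := pcF2) (cut := Cut.none) (xt := Ext.none) (P1 := 0) (W1 := 536870912) (P2 := 1073741824) (W2 := 536870912) (P3 := 1046898278) (W3 := 26843546)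
    rfl k0_pm_022

noncomputable def f_pm_023 : ℕ → ℕ → ℕ → ℕ → Bool := onCell 0 536870912 0 1230186008 1046898278 26843546
    (rowFX 0 false true false .up 0 2 3 (qsf 0 536870912 0 1230186008 2) ndF5q0 ndF6q3 pcF2 Cut.none Ext.none)

def k0_pm_023 : ∃ t, chk3 f_pm_023 t 1 1 1 = true :=
  ⟨(b (l 4) (l 4)), by decide +kernel⟩

theorem c_pm_023 : CertFX 0 536870912 0 1230186008 1046898278 26843546 false true false .up 0 2 3
    ndF5q0 ndF6q3 pcF2 Cut.none Ext.none :=
  certFX0 (fam := false) (s1 := true) (s2 := false) (a := 0) (b := 2) (c := 3) (cn := .up) (n1 := ndF5q0) (n2 := ndF6q3) (pc := pcF2) (cut := Cut.none) (xt := Ext.none) (P1 := 0) (W1 := 536870912) (P2 := 0) (W2 := 1230186008) (P3 := 1046898278) (W3 := 26843546)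
    rfl k0_pm_023

noncomputable def f_pm_033 : ℕ → ℕ → ℕ → ℕ → Bool := onCell 0 536870912 0 1230186008 1046898278 26843546
    (rowFX 0 false true false .pnn 0 3 3 (qsf 0 536870912 0 1230186008 3) ndF5q0 ndF6q3 pcF3 Cut.none Ext.none)

def k0_pm_033 : ∃ t, chk3 f_pm_033 t 1 1 1 = true :=
  ⟨(b (l 4) (l 4)), by decide +kernel⟩

theorem c_pm_033 : CertFX 0 536870912 0 1230186008 1046898278 26843546 false true false .pnn 0 3 3
    ndF5q0 ndF6q3 pcF3 Cut.none Ext.none :=
  certFX0 (fam := false) (s1 := true) (s2 := false) (a := 0) (b := 3) (c := 3) (cn := .pnn) (n1 := ndF5q0) (n2 := ndF6q3) (pc := pcF3) (cut := Cut.none) (xt := Ext.none) (P1 := 0) (W1 := 536870912) (P2 := 0) (W2 := 1230186008) (P3 := 1046898278) (W3 := 26843546)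
    rfl k0_pm_033

noncomputable def f_pm_101 : ℕ → ℕ → ℕ → ℕ → Bool := onCell 536870912 469762048 536870912 469762048 1046898278 26843546
    (rowFX 0 false true false .npn 1 0 1 (qsf 536870912 469762048 536870912 469762048 0) ndF5q1 ndF6q1 pcF0 Cut.none Ext.none)

def k0_pm_101 : ∃ t, chk3 f_pm_101 t 1 1 1 = true :=
  ⟨(l 4), by decide +kernel⟩

theorem c_pm_101 : CertFX 536870912 469762048 536870912 469762048 1046898278 26843546 false true false .npn 1 0 1
    ndF5q1 ndF6q1 pcF0 Cut.none Ext.none :=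
  certFX0 (fam := false) (s1 := true) (s2 := false) (a := 1) (b := 0) (c := 1) (cn := .npn) (n1 := ndF5q1) (n2 := ndF6q1) (pc := pcF0) (cut := Cut.none) (xt := Ext.none) (P1 := 536870912) (W1 := 469762048) (P2 := 536870912) (W2 := 469762048) (P3 := 1046898278) (W3 := 26843546)
    rfl k0_pm_101

noncomputable def f_pm_102 : ℕ → ℕ → ℕ → ℕ → Bool := onCell 536870912 469762048 1073741824 536870912 1046898278 26843546
    (rowFX 0 false true false .npp 1 0 2 (qsf 536870912 469762048 1073741824 536870912 0) ndF5q1 ndF6q2 pcF0 Cut.none Ext.none)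

def k0_pm_102 : ∃ t, chk3 f_pm_102 t 1 1 1 = true :=
  ⟨(l 4), by decide +kernel⟩

theorem c_pm_102 : CertFX 536870912 469762048 1073741824 536870912 1046898278 26843546 false true false .npp 1 0 2
    ndF5q1 ndF6q2 pcF0 Cut.none Ext.none :=
  certFX0 (fam := false) (s1 := true) (s2 := false) (a := 1) (b := 0) (c := 2) (cn := .npp) (n1 := ndF5q1) (n2 := ndF6q2) (pc := pcF0) (cut := Cut.none) (xt := Ext.none) (P1 := 536870912) (W1 := 469762048) (P2 := 1073741824) (W2 := 536870912) (P3 := 1046898278) (W3 := 26843546)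
    rfl k0_pm_102

noncomputable def f_pm_112 : ℕ → ℕ → ℕ → ℕ → Bool := onCell 536870912 469762048 1073741824 536870912 1046898278 26843546
    (rowFX 0 false true false .dn 1 1 2 (qsf 536870912 469762048 1073741824 536870912 1) ndF5q1 ndF6q2 pcF1 Cut.none Ext.none)

def k0_pm_112 : ∃ t, chk3 f_pm_112 t 1 1 1 = true :=
  ⟨(l 4), by decide +kernel⟩

theorem c_pm_112 : CertFX 536870912 469762048 1073741824 536870912 1046898278 26843546 false true false .dn 1 1 2
    ndF5q1 ndF6q2 pcF1 Cut.none Ext.none :=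
  certFX0 (fam := false) (s1 := true) (s2 := false) (a := 1) (b := 1) (c := 2) (cn := .dn) (n1 := ndF5q1) (n2 := ndF6q2) (pc := pcF1) (cut := Cut.none) (xt := Ext.none) (P1 := 536870912) (W1 := 469762048) (P2 := 1073741824) (W2 := 536870912) (P3 := 1046898278) (W3 := 26843546)
    rfl k0_pm_112

noncomputable def f_pm_113 : ℕ → ℕ → ℕ → ℕ → Bool := onCell 536870912 469762048 0 1230186008 1046898278 26843546
    (rowFX 0 false true false .nn 1 1 3 (qsf 536870912 469762048 0 1230186008 1) ndF5q1 ndF6q3 pcF1 Cut.none Ext.none)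

def k0_pm_113 : ∃ t, chk3 f_pm_113 t 1 1 1 = true :=
  ⟨(b (b (l 2) (l 4)) (l 4)), by decide +kernel⟩

theorem c_pm_113 : CertFX 536870912 469762048 0 1230186008 1046898278 26843546 false true false .nn 1 1 3
    ndF5q1 ndF6q3 pcF1 Cut.none Ext.none :=
  certFX0 (fam := false) (s1 := true) (s2 := false) (a := 1) (b := 1) (c := 3) (cn := .nn) (n1 := ndF5q1) (n2 := ndF6q3) (pc := pcF1) (cut := Cut.none) (xt := Ext.none) (P1 := 536870912) (W1 := 469762048) (P2 := 0) (W2 := 1230186008) (P3 := 1046898278) (W3 := 26843546)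
    rfl k0_pm_113

noncomputable def f_pm_123 : ℕ → ℕ → ℕ → ℕ → Bool := onCell 536870912 469762048 0 1230186008 1046898278 26843546
    (rowFX 0 false true false .npn 1 2 3 (qsf 536870912 469762048 0 1230186008 2) ndF5q1 ndF6q3 pcF2 Cut.none Ext.none)

def k0_pm_123 : ∃ t, chk3 f_pm_123 t 1 1 1 = true :=
  ⟨(b (b (l 4) (l 4)) (l 4)), by decide +kernel⟩

theorem c_pm_123 : CertFX 536870912 469762048 0 1230186008 1046898278 26843546 false true false .npn 1 2 3
    ndF5q1 ndF6q3 pcF2 Cut.none Ext.none :=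
  certFX0 (fam := false) (s1 := true) (s2 := false) (a := 1) (b := 2) (c := 3) (cn := .npn) (n1 := ndF5q1) (n2 := ndF6q3) (pc := pcF2) (cut := Cut.none) (xt := Ext.none) (P1 := 536870912) (W1 := 469762048) (P2 := 0) (W2 := 1230186008) (P3 := 1046898278) (W3 := 26843546)
    rfl k0_pm_123

noncomputable def f_pm_133 : ℕ → ℕ → ℕ → ℕ → Bool := onCell 1610612736 536870912 0 1230186008 1046898278 26843546
    (rowFX 2 false true false .dn 1 3 3 (qsf 536870912 469762048 0 1230186008 3) ndF5q1 ndF6q3 pcF3 Cut.none Ext.none)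

def k0_pm_133 : ∃ t, chk3 f_pm_133 t 1 1 1 = true :=
  ⟨(b (l 4) (l 1)), by decide +kernel⟩

theorem c_pm_133 : CertFX 536870912 469762048 0 1230186008 1046898278 26843546 false true false .dn 1 3 3
    ndF5q1 ndF6q3 pcF3 Cut.none Ext.none :=
  certFX2 (fam := false) (s1 := true) (s2 := false) (a := 1) (b := 3) (c := 3) (cn := .dn) (n1 := ndF5q1) (n2 := ndF6q3) (pc := pcF3) (cut := Cut.none) (xt := Ext.none) (P1 := 536870912) (W1 := 469762048) (P2 := 0) (W2 := 1230186008) (P3 := 1046898278) (W3 := 26843546)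
    rfl (fun _ => rfl) k0_pm_133

noncomputable def f_pm_202 : ℕ → ℕ → ℕ → ℕ → Bool := onCell 1073741824 536870912 0 536870912 1046898278 26843546
    (rowFX 1 false true false .pp 2 0 2 (qsf 1073741824 536870912 1073741824 536870912 0) ndF5q2 ndF6q2 pcF0 Cut.none Ext.none)

def k0_pm_202 : ∃ t, chk3 f_pm_202 t 4 4 1 = true :=
  ⟨(b (b (b (a (a (l 4) (c (b (l 14675048) (c (l 14709448) (l 14682576))) (b (c (b (l 14628344) (l 14638896)) (b (c (l 14607792) (l 14573120)) (l 14611664))) (c (l 14655552) (l 14628280))))) (c (b (l 14023768) (b (l 13992288) (l 13803200))) (b (c (b (l 13984328) (a (l 14259648) (l 13680016))) (b (a (c (l 14249480) (l 14233448)) (l 13671480)) (a (l 14227624) (l 13640648)))) (c (l 13927512) (l 13890168))))) (a (c (a (b (l 516163895079) (l 15080888)) (b (l 14712936) (l 14712600))) (a (l 415768964711) (l 14651336))) (c (a (l 14193664) (b (l 13667360) (l 13685184))) (a (l 14124448) (l 13487120))))) (b (a (a (c (l 15110576) (l 15066504)) (c (l 14668056) (l 14611888)))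 (a (c (l 14070336) (l 13997744)) (c (l 13818504) (l 13738584)))) (a (a (c (l 15127032) (l 15083128)) (c (l 14573416) (l 14515168))) (a (c (l 14035712) (l 13963360)) (l 14047192))))) (a (b (a (c (l 15030096) (b (l 15041560) (l 14943128))) (b (l 14417696) (l 14381928))) (a (b (l 14839656) (a (l 14890400) (l 14677768))) (b (l 14502864) (l 14771224)))) (b (b (a (c (l 14156176) (l 14087264)) (l 14369760)) (l 14536096)) (a (l 14865984) (l 14974192))))), by decide +kernel⟩

def k1_pm_202 : ∃ t, chk3 f_pm_202 t 5 4 1 = true :=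
  ⟨(b (a (b (b (a (c (b (a (l 13392720) (l 13772504)) (a (l 13459248) (l 13942288))) (b (a (c (l 13326192) (b (l 13265384) (l 13277072))) (b (l 13565032) (l 13652880))) (a (l 13310424) (l 13868984)))) (c (b (l 14909464) (l 14857272)) (b (c (l 14872328) (b (l 14638240) (l 14889064))) (l 14771352)))) (a (c (a (l 13688776) (l 14192592)) (a (l 13604648) (l 14121136))) (c (l 15089696) (l 15256184)))) (a (c (a (l 14175064) (l 14653872)) (a (l 14104864) (l 14596016))) (b (c (l 15547424) (l 15469496)) (c (l 15688528) (l 15659544))))) (b (b (a (c (b (l 16295544) (a (l 16114472) (l 16691960))) (b (a (b (l 15824848) (l 15858128)) (b (l 16525440) (l 16579776))) (a (l 16097992) (l 16691624)))) (c (l 16464840) (c (l 16460832) (l 16458760)))) (a (c (l 16320976) (l 16287680)) (c (l 16457120) (l 16460800)))) (a (c (l 16531760) (l 16523048)) (l 16473704)))) (a (a (b (a (l 14506168) (l 14934064)) (l 14970904)) (b (l 15715616) (l 15696856))) (a (b (l 16507952) (l 16485080)) (l 16531144)))), by decide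 +kernel⟩

def k2_pm_202 : ∃ t, chk3 f_pm_202 t 2 5 1 = true :=
  ⟨(a (b (a (b (a (b (a (l 14899360) (l 14916760)) (l 15193056)) (l 15249024)) (a (l 15667376) (l 15696656))) (b (a (l 15317944) (l 15113360)) (l 15269984))) (a (b (a (l 15984032) (l 15826584)) (l 16025408)) (l 15236368))) (b (a (a (l 14946848) (l 15667824)) (a (l 16452240) (l 16626848))) (a (a (l 14895600) (l 15611704)) (a (l 16394544) (l 16757320))))), by decide +kernel⟩

def k3_pm_202 : ∃ t, chk3 f_pm_202 t 3 2 1 = true :=
  ⟨(b (b (b (a (b (c (l 16286816) (c (l 16280512) (l 16277240))) (c (l 16283464) (l 16289112))) (b (a (a (l 16082664) (c (l 15997400) (b (l 15978160) (l 15987144)))) (c (l 15726344) (l 15836576))) (c (l 15970648) (l 15979864)))) (a (a (l 16364520) (b (l 16240792) (l 16269000))) (a (l 16121016) (l 15941960)))) (a (b (a (l 16442096) (l 16336512)) (l 16462704)) (b (l 16149808) (l 16277496)))) (b (a (a (l 16600952) (l 16538520)) (b (l 16366672) (l 2))) (a (b (l 16711072) (l 16777104)) (l 2)))), by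 decide +kernel⟩

def k4_pm_202 : ∃ t, chk3 f_pm_202 t 1 3 1 = true :=
  ⟨(a (a (b (a (b (l 16025520) (l 16025520)) (b (l 15226904) (l 15226904))) (a (b (l 16025520) (l 16025520)) (b (l 15226904) (l 15226904)))) (a (b (b (l 15146736) (l 15251592)) (a (b (l 14885272) (l 2)) (l 2))) (b (a (l 16385096) (l 16776664)) (l 2)))) (b (a (l 16777216) (l 2)) (l 2))), by decide +kernel⟩

theorem s5_pm_202 : ∃ t, chk3 f_pm_202 t 2 4 1 = true := ex3_a k0_pm_202 k1_pm_202

theorem s6_pm_202 : ∃ t, chk3 f_pm_202 t 2 2 1 = true := ex3_b s5_pm_202 k2_pm_202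

theorem s7_pm_202 : ∃ t, chk3 f_pm_202 t 1 2 1 = true := ex3_a s6_pm_202 k3_pm_202

theorem s8_pm_202 : ∃ t, chk3 f_pm_202 t 1 1 1 = true := ex3_b s7_pm_202 k4_pm_202

theorem c_pm_202 : CertFX 1073741824 536870912 1073741824 536870912 1046898278 26843546 false true false .pp 2 0 2
    ndF5q2 ndF6q2 pcF0 Cut.none Ext.none :=
  certFX1 (fam := false) (s1 := true) (s2 := false) (a := 2) (b := 0) (c := 2) (cn := .pp) (n1 := ndF5q2) (n2 := ndF6q2) (pc := pcF0) (cut := Cut.none) (xt := Ext.none) (P1 := 1073741824) (W1 := 536870912) (P2 := 1073741824) (W2 := 536870912) (P3 := 1046898278) (W3 := 26843546)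
    rfl (fun _ => rfl) s8_pm_202

noncomputable def f_pm_203 : ℕ → ℕ → ℕ → ℕ → Bool := onCell 0 536870912 0 1230186008 1046898278 26843546
    (rowFX 2 false true false .up 2 0 3 (qsf 1073741824 536870912 0 1230186008 0) ndF5q2 ndF6q3 pcF0 Cut.none Ext.none)

def k0_pm_203 : ∃ t, chk3 f_pm_203 t 1 1 1 = true :=
  ⟨(b (a (l 2) (b (l 3) (a (l 2) (b (l 3) (a (c (l 378661741063) (l 402820931271)) (b (l 3) (c (l 351281320071) (l 362555608711)))))))) (a (a (b (l 2) (b (l 2) (b (a (l 2) (l 16065160)) (a (a (a (c (l 15650624) (l 15631624)) (l 15564680)) (l 15886184)) (l 16200504))))) (b (a (l 2) (b (l 2) (a (l 2) (l 1273021820359)))) (a (b (a (l 1064177398375) (l 1035186898631)) (b (l 16427464) (l 16507040))) (b (a (l 16653496) (l 16777040)) (a (l 16693800) (l 16777096)))))) (b (a (b (a (l 2) (a (l 1487233089559) (b (l 360408153959) (l 16777152)))) (b (a (l 1329929912183) (l 16777192)) (l 16777216))) (b (a (c (b (l 342154542951) (l 16777152)) (b (l 16777176) (l 16777144))) (c (b (l 16777176)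 (l 16777152)) (b (l 16777176) (l 16777144)))) (b (l 16777192) (l 16777216)))) (b (a (a (l 16777216) (l 16777216)) (a (b (l 16777216) (l 16714016)) (b (l 16649216) (a (l 16336680) (l 15695584))))) (a (b (a (l 16777216) (l 16720056)) (a (l 16692016) (b (l 16290104) (a (l 16055624) (l 15306800))))) (b (a (b (a (l 16659616) (l 16162360)) (a (l 16167024) (l 15392024))) (a (b (l 15382352) (l 14981040)) (b (l 14972336) (l 15147728)))) (a (b (l 15042848) (l 15195032)) (l 15562712)))))))), by decide +kernel⟩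

theorem c_pm_203 : CertFX 1073741824 536870912 0 1230186008 1046898278 26843546 false true false .up 2 0 3
    ndF5q2 ndF6q3 pcF0 Cut.none Ext.none :=
  certFX2 (fam := false) (s1 := true) (s2 := false) (a := 2) (b := 0) (c := 3) (cn := .up) (n1 := ndF5q2) (n2 := ndF6q3) (pc := pcF0) (cut := Cut.none) (xt := Ext.none) (P1 := 1073741824) (W1 := 536870912) (P2 := 0) (W2 := 1230186008) (P3 := 1046898278) (W3 := 26843546)
    rfl (fun _ => rfl) k0_pm_203

noncomputable def f_pm_213 : ℕ → ℕ → ℕ → ℕ → Bool := onCell 1073741824 536870912 0 1230186008 1046898278 26843546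
    (rowFX 0 false true false .pnn 2 1 3 (qsf 1073741824 536870912 0 1230186008 1) ndF5q2 ndF6q3 pcF1 Cut.none Ext.none)

def k0_pm_213 : ∃ t, chk3 f_pm_213 t 2 2 1 = true :=
  ⟨(a (b (a (a (b (a (b (c (l 16373568) (a (l 16294320) (l 16449800))) (c (a (l 16387464) (l 16539576)) (a (l 16253592) (l 16535480)))) (b (c (l 16681400) (l 16682840)) (c (l 16610448) (l 16690496)))) (b (a (l 16544264) (a (l 16568136) (l 16520264))) (l 16450952))) (b (a (b (l 16483472) (b (l 16507168) (l 16467168))) (l 15958392)) (b (a (l 16371904) (l 16103648)) (l 16081776)))) (b (a (b (l 15788992) (l 15729936)) (b (l 15209976) (l 15158728))) (a (b (l 15646048) (a (l 15719680) (l 15458672))) (b (l 15030864) (a (l 15194952) (l 14954944)))))) (a (b (a (b (l 16380696) (l 16184848)) (b (l 15938024) (l 15853752))) (a (b (l 16179496) (l 16188920)) (b (l 15782056) (b (l 15818560) (l 15818392))))) (b (a (b (l 15492176) (l 15435784)) (b (b (a (l 15150536) (l 14946952)) (l 15040704)) (l 15048344))) (b (a (l 15423376)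 (l 15058432)) (l 15228632))))) (b (b (a (a (a (b (l 14809440) (l 14774440)) (l 137602544631)) (l 314771217351)) (l 3)) (a (a (a (b (l 14763592) (l 14777632)) (l 14942792)) (c (l 15592464) (l 15567088))) (a (b (l 16256256) (l 16278128)) (l 127942771431)))) (a (b (a (a (b (l 14793000) (l 14805312)) (b (l 14965856) (l 14975792))) (b (l 15609456) (c (l 15626192) (l 15605624)))) (a (a (l 14810024) (l 14976944)) (l 15423632))) (b (a (b (l 16284448) (l 16210384)) (l 16747048)) (b (a (l 16148776) (c (l 16757328) (l 16756792))) (a (l 16388104) (l 16773304))))))), by decide +kernel⟩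

def k1_pm_213 : ∃ t, chk3 f_pm_213 t 3 2 1 = true :=
  ⟨(b (b (l 3) (a (a (a (l 16725344) (l 3)) (l 3)) (l 3))) (b (a (a (b (l 16753096) (l 16755744)) (b (l 3) (a (l 16755744) (l 16755744)))) (l 3)) (b (a (a (c (l 16757760) (l 16757240)) (c (l 16757760) (l 16757240))) (a (a (l 261623845879) (l 380272317591)) (l 3))) (a (c (a (a (l 16773752) (l 16773752)) (a (l 16773752) (l 16773752))) (a (a (l 16773664) (l 16773664)) (l 16773664))) (a (a (l 16773712) (a (l 16773712) (l 1))) (l 1)))))), by decide +kernel⟩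

def k2_pm_213 : ∃ t, chk3 f_pm_213 t 1 3 1 = true :=
  ⟨(b (a (a (b (a (b (a (b (l 16247488) (l 16261576)) (l 15818984)) (l 16032256)) (b (l 15227240) (l 15227040))) (a (b (l 16027464) (l 16025528)) (b (l 15226928) (l 15226904)))) (a (b (a (a (l 14801560) (l 14967544)) (l 15602416)) (a (b (l 14885296) (l 14885272)) (l 15581408))) (b (a (l 16385144) (l 16776712)) (a (l 16385112) (l 16776680))))) (a (b (a (l 16777160) (c (c (l 16777160) (l 16777160)) (a (l 16777160) (l 16777160)))) (b (l 16777192) (l 16777216))) (a (b (b (c (l 445636411239) (l 459058183943)) (l 1)) (l 1)) (l 1)))) (a (a (b (a (l 16025520) (l 15226904)) (a (b (l 16025520) (l 16025520)) (b (l 15226904) (l 15226904)))) (a (b (a (l 14885272) (l 15602360)) (b (a (l 14885272) (l 1)) (l 1))) (b (a (l 16385096) (l 16776664)) (l 1)))) (l 1))), by decide +kernel⟩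

theorem s3_pm_213 : ∃ t, chk3 f_pm_213 t 1 2 1 = true := ex3_a k0_pm_213 k1_pm_213

theorem s4_pm_213 : ∃ t, chk3 f_pm_213 t 1 1 1 = true := ex3_b s3_pm_213 k2_pm_213

theorem c_pm_213 : CertFX 1073741824 536870912 0 1230186008 1046898278 26843546 false true false .pnn 2 1 3
    ndF5q2 ndF6q3 pcF1 Cut.none Ext.none :=
  certFX0 (fam := false) (s1 := true) (s2 := false) (a := 2) (b := 1) (c := 3) (cn := .pnn) (n1 := ndF5q2) (n2 := ndF6q3) (pc := pcF1) (cut := Cut.none) (xt := Ext.none) (P1 := 1073741824) (W1 := 536870912) (P2 := 0) (W2 := 1230186008) (P3 := 1046898278) (W3 := 26843546)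
    rfl s4_pm_213

noncomputable def f_pm_303 : ℕ → ℕ → ℕ → ℕ → Bool := onCell 0 1230186008 0 1230186008 1046898278 26843546
    (rowFX 0 false true false .npn 3 0 3 (qsf 0 1230186008 0 1230186008 0) ndF5q3 ndF6q3 pcF0 Cut.none Ext.none)

def k0_pm_303 : ∃ t, chk3 f_pm_303 t 2 1 1 = true :=
  ⟨(b (l 3) (b (l 3) (l 1))), by decide +kernel⟩

def k1_pm_303 : ∃ t, chk3 f_pm_303 t 3 2 1 = true :=
  ⟨(a (l 3) (b (l 3) (a (l 3) (l 3)))), by decide +kernel⟩

def k2_pm_303 : ∃ t, chk3 f_pm_303 t 6 3 1 = true :=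
  ⟨(b (a (l 3) (l 3)) (a (l 1) (b (b (b (b (l 3) (l 1)) (l 1)) (l 1)) (l 1)))), by decide +kernel⟩

def k3_pm_303 : ∃ t, chk3 f_pm_303 t 7 6 1 = true :=
  ⟨(a (b (l 3) (a (b (l 3) (b (l 3) (a (a (l 3) (a (l 3) (a (l 3) (b (l 3) (c (l 397984957991) (l 14739384)))))) (c (b (c (a (l 3) (l 15135752)) (l 389932466151)) (c (a (l 15069224) (l 15208400)) (a (l 389932145623) (l 15204856)))) (b (l 15042664) (c (l 15025152) (l 15109320))))))) (a (b (l 3) (c (b (a (l 395838845639) (l 391544163655)) (a (b (l 282558694471) (b (l 15364712) (l 15326416))) (l 15403800))) (b (a (l 347520404039) (b (l 15702768) (l 15698136))) (a (b (l 15407000) (l 15306048)) (b (l 15597104) (l 15469936)))))) (b (b (l 3) (c (l 409798487463) (l 375975586583))) (c (b (a (l 15840832) (l 16032296)) (b (l 15702784) (l 15779832))) (b (a (l 323898636487) (l 16012952)) (b (a (l 15758328) (l 15903504)) (l 15753840)))))))) (b (b (a (l 3) (a (l 3) (a (l 16777176) (l 16777176)))) (b (a (l 3) (a (l 16777144) (l 16777144))) (a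 (a (l 3) (a (l 3) (l 16777152))) (a (l 16777152) (l 16777152))))) (a (b (a (b (a (l 3) (l 16577120)) (b (l 16408568) (l 16328808))) (b (a (l 262160336215) (l 16762912)) (a (l 16572616) (b (l 16732144) (l 16681768))))) (b (a (c (l 16210608) (l 16153952)) (a (l 16401256) (l 16553744))) (a (l 16056752) (l 16310320)))) (b (b (c (l 16777176) (l 16777176)) (a (a (b (l 16776904) (l 16767304)) (l 16777184)) (l 16777200))) (a (b (l 16713360) (l 16584288)) (b (l 16777216) (l 16753680))))))), by decide +kernel⟩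

def k4_pm_303 : ∃ t, chk3 f_pm_303 t 28 56 1 = true :=
  ⟨(b (a (c (b (l 14597248) (a (l 14736016) (b (l 14831144) (l 14620656)))) (a (b (l 3) (a (b (l 3) (l 1)) (c (l 382415234711) (b (c (l 371677808295) (a (l 365235311735) (l 14716712))) (a (l 14657424) (c (l 14694600) (l 14688224))))))) (c (b (c (l 14846848) (l 14848640)) (b (l 14812704) (a (b (l 14756808) (l 14749448)) (l 14817352)))) (a (b (l 14810168) (b (l 14765704) (c (l 14513208) (l 14737960)))) (l 14764752))))) (c (a (c (l 14947448) (b (l 14981656) (l 14939512))) (c (l 15124048) (l 15125912))) (c (a (b (l 14981008) (l 14939952)) (l 15113864)) (l 14980736)))) (a (b (a (a (l 1) (c (l 14679768) (c (l 14626936) (l 14607800)))) (c (a (l 14775768) (c (l 14819800) (l 14714272))) (a (c (l 14723416) (b (c (l 14726304) (a (l 14700104) (l 14734840))) (a (l 14666888) (l 14633736)))) (c (b (c (l 14795784) (l 14797336)) (l 14574104)) (c (b (l 14790728) (l 14772248)) (l 14773112)))))) (a (l 1) (c (l 14737264) (a (l 443484076967) (c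 (l 14738264) (b (l 14753928) (l 14730712))))))) (a (c (b (c (l 14897040) (b (l 14902040) (l 14880600))) (a (c (l 14854200) (l 14844256)) (c (l 14906424) (b (l 14889880) (l 14878904))))) (c (a (b (b (l 14866008) (l 14845760)) (c (l 14801184) (l 14751624))) (l 14799288)) (b (l 14879024) (b (l 14841008) (l 14835688))))) (c (c (l 14873312) (l 15022344)) (l 15005728))))), by decide +kernel⟩

def k5_pm_303 : ∃ t, chk3 f_pm_303 t 28 57 1 = true :=
  ⟨(a (a (l 1) (b (c (l 466569517239) (l 14580008)) (l 1))) (b (b (c (a (a (l 14795448) (c (l 14886280) (l 14858560))) (a (c (l 14893728) (l 14753728)) (l 14971560))) (a (c (a (l 14781832) (l 14859576)) (a (b (l 14789496) (l 14765448)) (l 14846088))) (c (l 14942272) (l 14943544)))) (c (a (l 14775960) (c (a (l 14901192) (l 14966344)) (a (l 14911104) (l 14953544)))) (a (a (l 14708648) (c (l 14816160) (b (l 14823760) (l 14799888)))) (a (c (l 14893416) (l 14880240)) (l 14933584))))) (a (c (l 14657640) (l 14650376)) (c (b (l 14796456) (l 14841584))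 (b (a (c (l 14850472) (b (l 14858016) (l 14834320))) (c (l 14927232) (l 14914368))) (a (l 14778136) (c (l 14884768) (b (l 14892256) (l 14868744))))))))), by decide +kernel⟩

def k6_pm_303 : ∃ t, chk3 f_pm_303 t 29 28 1 = true :=
  ⟨(c (b (a (b (b (l 15238160) (a (l 15241464) (l 15398728))) (a (l 15178784) (l 15352808))) (b (l 15684168) (l 15498328))) (b (a (a (c (l 15073928) (l 15063880)) (l 15200768)) (b (l 15414272) (l 15215280))) (a (a (b (a (l 14988816) (l 15004056)) (a (l 14986632) (l 14979648))) (b (l 15121112) (l 15105120))) (a (l 15267040) (l 15451280))))) (a (b (b (l 15139336) (a (l 15166000) (l 15324208))) (b (l 15032008) (a (a (b (l 14967160) (c (l 14961032) (l 14948456))) (l 15031088)) (l 15131512)))) (b (b (l 15655648) (l 15551896)) (b (l 15436360) (l 15352176))))), by decide +kernel⟩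

def k7_pm_303 : ∃ t, chk3 f_pm_303 t 14 29 1 = true :=
  ⟨(a (b (a (l 1) (a (l 1) (b (b (l 14762512) (l 1)) (l 1)))) (l 1)) (b (a (a (b (c (b (l 14759248) (l 14913408)) (b (a (c (l 14919040) (b (l 14926472) (l 14903160))) (c (l 14994792) (l 14982520))) (a (l 14849840) (c (l 14953304) (b (l 14960672) (l 14937560)))))) (c (l 14789160) (l 14783048))) (b (c (b (a (l 14991416) (l 15103064)) (a (l 15053096) (l 15003160))) (b (l 15081896) (a (c (l 15028528) (l 15016536)) (l 15067648)))) (b (c (a (l 15000784) (l 14879056)) (a (c (l 14988488) (b (l 14953816) (l 14970264))) (c (l 14876176) (l 14864504)))) (l 14978368)))) (a (b (c (c (l 15178784) (l 15188408)) (l 15198808)) (b (c (a (c (l 15151144) (l 15129440)) (l 15168592)) (l 15151440)) (b (c (a (l 15130288) (l 15175448)) (c (l 15026912) (l 15123888))) (l 15037008)))) (c (b (l 15340848) (b (l 15262456) (l 15154192))) (l 15105632)))) (a (l 459590403831) (b (a (c (l 15070640) (b (l 15085184) (l 15040920))) (c (l 15217336) (l 15197640)))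 (a (l 14939064) (c (l 15138784) (b (l 15132040) (l 15109768)))))))), by decide +kernel⟩

def k8_pm_303 : ∃ t, chk3 f_pm_303 t 14 15 1 = true :=
  ⟨(a (l 1) (b (b (a (l 1) (l 419325382855)) (l 1)) (l 1))), by decide +kernel⟩

def k9_pm_303 : ∃ t, chk3 f_pm_303 t 15 14 1 = true :=
  ⟨(a (b (b (a (b (c (l 15970968) (l 15950024)) (l 15879056)) (l 16137760)) (b (a (c (l 15805984) (l 15779592)) (l 16059528)) (a (c (a (l 15626328) (l 15761792)) (l 15647496)) (a (l 15680480) (l 16063128))))) (a (b (c (b (a (l 15506176) (l 15670920)) (a (l 15413048) (l 15581936))) (b (l 15576440) (l 15472600))) (b (b (c (a (l 15325720) (l 15505048)) (l 15424808)) (l 15383784)) (a (c (l 15283176) (l 15222552)) (l 15358280)))) (b (a (b (l 15822416) (l 15479472)) (b (l 15981504) (l 15889976))) (b (c (a (l 15519488) (l 15806392)) (l 15703168)) (l 15614904))))) (b (a (b (l 16412256) (l 16281264)) (b (l 16661480) (l 16506984))) (a (a (b (l 15892456) (c (l 15892552) (l 15881944))) (b (l 16150408) (l 16030272)))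 (b (l 16340168) (l 16216880))))), by decide +kernel⟩

def k10_pm_303 : ∃ t, chk3 f_pm_303 t 15 15 1 = true :=
  ⟨(b (a (b (a (b (a (c (l 15206760) (b (l 15136776) (l 15178512))) (c (l 15285840) (l 15247160))) (a (l 15081144) (c (l 15274560) (b (l 15120328) (l 15247120))))) (b (l 15385144) (a (c (l 15288208) (l 15250448)) (l 15485968)))) (a (l 380134106471) (b (a (c (l 15342144) (b (l 15124608) (l 15315568))) (c (l 15247880) (l 15274336))) (a (l 15223448) (c (l 15409488) (c (l 15173560) (l 15396872))))))) (b (a (l 15759808) (l 16069520)) (a (b (l 15670200) (a (c (b (l 15556336) (l 15533536)) (l 15297808)) (l 15528048))) (l 15794568)))) (a (b (a (l 1) (b (l 15201744) (l 1))) (l 1)) (b (a (c (b (a (l 15455584) (l 15606888)) (l 15457048)) (b (b (c (l 15548152) (l 15540240)) (a (l 15326040) (l 15519080))) (a (l 15361344) (b (l 15555112) (l 15330904))))) (b (l 15791432) (c (a (l 15670392) (l 15770128)) (l 15716048)))) (a (b (l 15348832) (l 1)) (b (a (b (c (l 15634280) (l 15621016)) (l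 15591640)) (c (l 15733400) (l 15721896))) (a (l 15507848) (b (c (l 15678088) (l 15686512)) (l 15658592)))))))), by decide +kernel⟩

theorem s11_pm_303 : ∃ t, chk3 f_pm_303 t 15 7 1 = true := ex3_b k9_pm_303 k10_pm_303

theorem s12_pm_303 : ∃ t, chk3 f_pm_303 t 28 28 1 = true := ex3_b k4_pm_303 k5_pm_303

theorem s13_pm_303 : ∃ t, chk3 f_pm_303 t 14 28 1 = true := ex3_a s12_pm_303 k6_pm_303

theorem s14_pm_303 : ∃ t, chk3 f_pm_303 t 14 14 1 = true := ex3_b s13_pm_303 k7_pm_303

theorem s15_pm_303 : ∃ t, chk3 f_pm_303 t 14 7 1 = true := ex3_b s14_pm_303 k8_pm_303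

theorem s16_pm_303 : ∃ t, chk3 f_pm_303 t 7 7 1 = true := ex3_a s15_pm_303 s11_pm_303

theorem s17_pm_303 : ∃ t, chk3 f_pm_303 t 7 3 1 = true := ex3_b k3_pm_303 s16_pm_303

theorem s18_pm_303 : ∃ t, chk3 f_pm_303 t 3 3 1 = true := ex3_a k2_pm_303 s17_pm_303

theorem s19_pm_303 : ∃ t, chk3 f_pm_303 t 3 1 1 = true := ex3_b k1_pm_303 s18_pm_303

theorem s20_pm_303 : ∃ t, chk3 f_pm_303 t 1 1 1 = true := ex3_a k0_pm_303 s19_pm_303

theorem c_pm_303 : CertFX 0 1230186008 0 1230186008 1046898278 26843546 false true false .npn 3 0 3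
    ndF5q3 ndF6q3 pcF0 Cut.none Ext.none :=
  certFX0 (fam := false) (s1 := true) (s2 := false) (a := 3) (b := 0) (c := 3) (cn := .npn) (n1 := ndF5q3) (n2 := ndF6q3) (pc := pcF0) (cut := Cut.none) (xt := Ext.none) (P1 := 0) (W1 := 1230186008) (P2 := 0) (W2 := 1230186008) (P3 := 1046898278) (W3 := 26843546)
    rfl s20_pm_303

noncomputable def f_pm_313 : ℕ → ℕ → ℕ → ℕ → Bool := onCell 0 1230186008 0 1230186008 1046898278 26843546
    (rowFX 0 false true false .dn 3 1 3 (qsf 0 1230186008 0 1230186008 1) ndF5q3 ndF6q3 pcF1 Cut.none Ext.none)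

def k0_pm_313 : ∃ t, chk3 f_pm_313 t 1 1 1 = true :=
  ⟨(a (l 1) (b (b (l 3) (l 1)) (l 1))), by decide +kernel⟩

theorem c_pm_313 : CertFX 0 1230186008 0 1230186008 1046898278 26843546 false true false .dn 3 1 3
    ndF5q3 ndF6q3 pcF1 Cut.none Ext.none :=
  certFX0 (fam := false) (s1 := true) (s2 := false) (a := 3) (b := 1) (c := 3) (cn := .dn) (n1 := ndF5q3) (n2 := ndF6q3) (pc := pcF1) (cut := Cut.none) (xt := Ext.none) (P1 := 0) (W1 := 1230186008) (P2 := 0) (W2 := 1230186008) (P3 := 1046898278) (W3 := 26843546)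
    rfl k0_pm_313

noncomputable def f_mm_001 : ℕ → ℕ → ℕ → ℕ → Bool := onCell 0 536870912 536870912 469762048 1046898278 26843546
    (rowFX 0 false false false .up 0 0 1 (qsf 0 536870912 536870912 469762048 0) ndF5q0 ndF6q1 pcF0 Cut.none Ext.none)

def k0_mm_001 : ∃ t, chk3 f_mm_001 t 1 1 1 = true :=
  ⟨(l 3), by decide +kernel⟩

theorem c_mm_001 : CertFX 0 536870912 536870912 469762048 1046898278 26843546 false false false .up 0 0 1
    ndF5q0 ndF6q1 pcF0 Cut.none Ext.none :=
  certFX0 (fam := false) (s1 := false) (s2 := false) (a := 0) (b := 0) (c := 1) (cn := .up) (n1 := ndF5q0) (n2 := ndF6q1) (pc := pcF0) (cut := Cut.none) (xt := Ext.none) (P1 := 0) (W1 := 536870912) (P2 := 536870912) (W2 := 469762048) (P3 := 1046898278) (W3 := 26843546)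
    rfl k0_mm_001

noncomputable def f_mm_011 : ℕ → ℕ → ℕ → ℕ → Bool := onCell 0 536870912 536870912 469762048 1046898278 26843546
    (rowFX 0 false false false .pnn 0 1 1 (qsf 0 536870912 536870912 469762048 1) ndF5q0 ndF6q1 pcF1 Cut.none Ext.none)

def k0_mm_011 : ∃ t, chk3 f_mm_011 t 1 1 1 = true :=
  ⟨(l 3), by decide +kernel⟩

theorem c_mm_011 : CertFX 0 536870912 536870912 469762048 1046898278 26843546 false false false .pnn 0 1 1
    ndF5q0 ndF6q1 pcF1 Cut.none Ext.none :=
  certFX0 (fam := false) (s1 := false) (s2 := false) (a := 0) (b := 1) (c := 1) (cn := .pnn) (n1 := ndF5q0) (n2 := ndF6q1) (pc := pcF1) (cut := Cut.none) (xt := Ext.none) (P1 := 0) (W1 := 536870912) (P2 := 536870912) (W2 := 469762048) (P3 := 1046898278) (W3 := 26843546)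
    rfl k0_mm_011

noncomputable def f_mm_012 : ℕ → ℕ → ℕ → ℕ → Bool := onCell 0 536870912 1073741824 536870912 1046898278 26843546
    (rowFX 0 false false false .pnp 0 1 2 (qsf 0 536870912 1073741824 536870912 1) ndF5q0 ndF6q2 pcF1 Cut.none Ext.none)

def k0_mm_012 : ∃ t, chk3 f_mm_012 t 1 1 1 = true :=
  ⟨(l 5), by decide +kernel⟩

theorem c_mm_012 : CertFX 0 536870912 1073741824 536870912 1046898278 26843546 false false false .pnp 0 1 2
    ndF5q0 ndF6q2 pcF1 Cut.none Ext.none :=
  certFX0 (fam := false) (s1 := false) (s2 := false) (a := 0) (b := 1) (c := 2) (cn := .pnp) (n1 := ndF5q0) (n2 := ndF6q2) (pc := pcF1) (cut := Cut.none) (xt := Ext.none) (P1 := 0) (W1 := 536870912) (P2 := 1073741824) (W2 := 536870912) (P3 := 1046898278) (W3 := 26843546)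
    rfl k0_mm_012

noncomputable def f_mm_022 : ℕ → ℕ → ℕ → ℕ → Bool := onCell 0 536870912 1073741824 536870912 1046898278 26843546
    (rowFX 0 false false false .pp 0 2 2 (qsf 0 536870912 1073741824 536870912 2) ndF5q0 ndF6q2 pcF2 Cut.none Ext.none)

def k0_mm_022 : ∃ t, chk3 f_mm_022 t 1 1 1 = true :=
  ⟨(l 5), by decide +kernel⟩

theorem c_mm_022 : CertFX 0 536870912 1073741824 536870912 1046898278 26843546 false false false .pp 0 2 2
    ndF5q0 ndF6q2 pcF2 Cut.none Ext.none :=
  certFX0 (fam := false) (s1 := false) (s2 := false) (a := 0) (b := 2) (c := 2) (cn := .pp) (n1 := ndF5q0) (n2 := ndF6q2) (pc := pcF2) (cut := Cut.none) (xt := Ext.none) (P1 := 0) (W1 := 536870912) (P2 := 1073741824) (W2 := 536870912) (P3 := 1046898278) (W3 := 26843546)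
    rfl k0_mm_022

noncomputable def f_mm_023 : ℕ → ℕ → ℕ → ℕ → Bool := onCell 0 536870912 0 1230186008 1046898278 26843546
    (rowFX 0 false false false .up 0 2 3 (qsf 0 536870912 0 1230186008 2) ndF5q0 ndF6q3 pcF2 Cut.none Ext.none)

def k0_mm_023 : ∃ t, chk3 f_mm_023 t 1 1 1 = true :=
  ⟨(l 5), by decide +kernel⟩

theorem c_mm_023 : CertFX 0 536870912 0 1230186008 1046898278 26843546 false false false .up 0 2 3
    ndF5q0 ndF6q3 pcF2 Cut.none Ext.none :=
  certFX0 (fam := false) (s1 := false) (s2 := false) (a := 0) (b := 2) (c := 3) (cn := .up) (n1 := ndF5q0) (n2 := ndF6q3) (pc := pcF2) (cut := Cut.none) (xt := Ext.none) (P1 := 0) (W1 := 536870912) (P2 := 0) (W2 := 1230186008) (P3 := 1046898278) (W3 := 26843546)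
    rfl k0_mm_023

noncomputable def f_mm_033 : ℕ → ℕ → ℕ → ℕ → Bool := onCell 0 536870912 0 1230186008 1046898278 26843546
    (rowFX 0 false false false .pnn 0 3 3 (qsf 0 536870912 0 1230186008 3) ndF5q0 ndF6q3 pcF3 Cut.none Ext.none)

def k0_mm_033 : ∃ t, chk3 f_mm_033 t 1 1 1 = true :=
  ⟨(l 5), by decide +kernel⟩

theorem c_mm_033 : CertFX 0 536870912 0 1230186008 1046898278 26843546 false false false .pnn 0 3 3
    ndF5q0 ndF6q3 pcF3 Cut.none Ext.none :=
  certFX0 (fam := false) (s1 := false) (s2 := false) (a := 0) (b := 3) (c := 3) (cn := .pnn) (n1 := ndF5q0) (n2 := ndF6q3) (pc := pcF3) (cut := Cut.none) (xt := Ext.none) (P1 := 0) (W1 := 536870912) (P2 := 0) (W2 := 1230186008) (P3 := 1046898278) (W3 := 26843546)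
    rfl k0_mm_033

noncomputable def f_mm_101 : ℕ → ℕ → ℕ → ℕ → Bool := onCell 536870912 469762048 536870912 469762048 1046898278 26843546
    (rowFX 0 false false false .npn 1 0 1 (qsf 536870912 469762048 536870912 469762048 0) ndF5q1 ndF6q1 pcF0 Cut.none Ext.none)

def k0_mm_101 : ∃ t, chk3 f_mm_101 t 1 1 1 = true :=
  ⟨(l 3), by decide +kernel⟩

theorem c_mm_101 : CertFX 536870912 469762048 536870912 469762048 1046898278 26843546 false false false .npn 1 0 1
    ndF5q1 ndF6q1 pcF0 Cut.none Ext.none :=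
  certFX0 (fam := false) (s1 := false) (s2 := false) (a := 1) (b := 0) (c := 1) (cn := .npn) (n1 := ndF5q1) (n2 := ndF6q1) (pc := pcF0) (cut := Cut.none) (xt := Ext.none) (P1 := 536870912) (W1 := 469762048) (P2 := 536870912) (W2 := 469762048) (P3 := 1046898278) (W3 := 26843546)
    rfl k0_mm_101

noncomputable def f_mm_102 : ℕ → ℕ → ℕ → ℕ → Bool := onCell 536870912 469762048 1073741824 536870912 1046898278 26843546
    (rowFX 0 false false false .npp 1 0 2 (qsf 536870912 469762048 1073741824 536870912 0) ndF5q1 ndF6q2 pcF0 Cut.none Ext.none)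

def k0_mm_102 : ∃ t, chk3 f_mm_102 t 1 1 1 = true :=
  ⟨(l 5), by decide +kernel⟩

theorem c_mm_102 : CertFX 536870912 469762048 1073741824 536870912 1046898278 26843546 false false false .npp 1 0 2
    ndF5q1 ndF6q2 pcF0 Cut.none Ext.none :=
  certFX0 (fam := false) (s1 := false) (s2 := false) (a := 1) (b := 0) (c := 2) (cn := .npp) (n1 := ndF5q1) (n2 := ndF6q2) (pc := pcF0) (cut := Cut.none) (xt := Ext.none) (P1 := 536870912) (W1 := 469762048) (P2 := 1073741824) (W2 := 536870912) (P3 := 1046898278) (W3 := 26843546)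
    rfl k0_mm_102

noncomputable def f_mm_112 : ℕ → ℕ → ℕ → ℕ → Bool := onCell 536870912 469762048 1073741824 536870912 1046898278 26843546
    (rowFX 0 false false false .dn 1 1 2 (qsf 536870912 469762048 1073741824 536870912 1) ndF5q1 ndF6q2 pcF1 Cut.none Ext.none)

def k0_mm_112 : ∃ t, chk3 f_mm_112 t 1 1 1 = true :=
  ⟨(l 5), by decide +kernel⟩

theorem c_mm_112 : CertFX 536870912 469762048 1073741824 536870912 1046898278 26843546 false false false .dn 1 1 2
    ndF5q1 ndF6q2 pcF1 Cut.none Ext.none :=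
  certFX0 (fam := false) (s1 := false) (s2 := false) (a := 1) (b := 1) (c := 2) (cn := .dn) (n1 := ndF5q1) (n2 := ndF6q2) (pc := pcF1) (cut := Cut.none) (xt := Ext.none) (P1 := 536870912) (W1 := 469762048) (P2 := 1073741824) (W2 := 536870912) (P3 := 1046898278) (W3 := 26843546)
    rfl k0_mm_112

noncomputable def f_mm_113 : ℕ → ℕ → ℕ → ℕ → Bool := onCell 536870912 469762048 0 1230186008 1046898278 26843546
    (rowFX 0 false false false .nn 1 1 3 (qsf 536870912 469762048 0 1230186008 1) ndF5q1 ndF6q3 pcF1 Cut.none Ext.none)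

def k0_mm_113 : ∃ t, chk3 f_mm_113 t 1 1 1 = true :=
  ⟨(l 5), by decide +kernel⟩

theorem c_mm_113 : CertFX 536870912 469762048 0 1230186008 1046898278 26843546 false false false .nn 1 1 3
    ndF5q1 ndF6q3 pcF1 Cut.none Ext.none :=
  certFX0 (fam := false) (s1 := false) (s2 := false) (a := 1) (b := 1) (c := 3) (cn := .nn) (n1 := ndF5q1) (n2 := ndF6q3) (pc := pcF1) (cut := Cut.none) (xt := Ext.none) (P1 := 536870912) (W1 := 469762048) (P2 := 0) (W2 := 1230186008) (P3 := 1046898278) (W3 := 26843546)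
    rfl k0_mm_113

noncomputable def f_mm_123 : ℕ → ℕ → ℕ → ℕ → Bool := onCell 536870912 469762048 0 1230186008 1046898278 26843546
    (rowFX 0 false false false .npn 1 2 3 (qsf 536870912 469762048 0 1230186008 2) ndF5q1 ndF6q3 pcF2 Cut.none Ext.none)

def k0_mm_123 : ∃ t, chk3 f_mm_123 t 1 1 1 = true :=
  ⟨(l 5), by decide +kernel⟩

theorem c_mm_123 : CertFX 536870912 469762048 0 1230186008 1046898278 26843546 false false false .npn 1 2 3
    ndF5q1 ndF6q3 pcF2 Cut.none Ext.none :=
  certFX0 (fam := false) (s1 := false) (s2 := false) (a := 1) (b := 2) (c := 3) (cn := .npn) (n1 := ndF5q1) (n2 := ndF6q3) (pc := pcF2) (cut := Cut.none) (xt := Ext.none) (P1 := 536870912) (W1 := 469762048) (P2 := 0) (W2 := 1230186008) (P3 := 1046898278) (W3 := 26843546)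
    rfl k0_mm_123

noncomputable def f_mm_133 : ℕ → ℕ → ℕ → ℕ → Bool := onCell 536870912 469762048 0 1230186008 1046898278 26843546
    (rowFX 0 false false false .dn 1 3 3 (qsf 536870912 469762048 0 1230186008 3) ndF5q1 ndF6q3 pcF3 Cut.none Ext.none)

def k0_mm_133 : ∃ t, chk3 f_mm_133 t 1 1 1 = true :=
  ⟨(l 5), by decide +kernel⟩

theorem c_mm_133 : CertFX 536870912 469762048 0 1230186008 1046898278 26843546 false false false .dn 1 3 3
    ndF5q1 ndF6q3 pcF3 Cut.none Ext.none :=
  certFX0 (fam := false) (s1 := false) (s2 := false) (a := 1) (b := 3) (c := 3) (cn := .dn) (n1 := ndF5q1) (n2 := ndF6q3) (pc := pcF3) (cut := Cut.none) (xt := Ext.none) (P1 := 536870912) (W1 := 469762048) (P2 := 0) (W2 := 1230186008) (P3 := 1046898278) (W3 := 26843546)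
    rfl k0_mm_133

noncomputable def f_mm_202 : ℕ → ℕ → ℕ → ℕ → Bool := onCell 1073741824 536870912 1073741824 536870912 1046898278 26843546
    (rowFX 0 false false false .pp 2 0 2 (qsf 1073741824 536870912 1073741824 536870912 0) ndF5q2 ndF6q2 pcF0 Cut.none Ext.none)

def k0_mm_202 : ∃ t, chk3 f_mm_202 t 1 1 1 = true :=
  ⟨(l 3), by decide +kernel⟩

theorem c_mm_202 : CertFX 1073741824 536870912 1073741824 536870912 1046898278 26843546 false false false .pp 2 0 2
    ndF5q2 ndF6q2 pcF0 Cut.none Ext.none :=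
  certFX0 (fam := false) (s1 := false) (s2 := false) (a := 2) (b := 0) (c := 2) (cn := .pp) (n1 := ndF5q2) (n2 := ndF6q2) (pc := pcF0) (cut := Cut.none) (xt := Ext.none) (P1 := 1073741824) (W1 := 536870912) (P2 := 1073741824) (W2 := 536870912) (P3 := 1046898278) (W3 := 26843546)
    rfl k0_mm_202

noncomputable def f_mm_203 : ℕ → ℕ → ℕ → ℕ → Bool := onCell 1073741824 536870912 0 1230186008 1046898278 26843546
    (rowFX 0 false false false .up 2 0 3 (qsf 1073741824 536870912 0 1230186008 0) ndF5q2 ndF6q3 pcF0 Cut.none Ext.none)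

def k0_mm_203 : ∃ t, chk3 f_mm_203 t 1 1 1 = true :=
  ⟨(b (l 5) (l 3)), by decide +kernel⟩

theorem c_mm_203 : CertFX 1073741824 536870912 0 1230186008 1046898278 26843546 false false false .up 2 0 3
    ndF5q2 ndF6q3 pcF0 Cut.none Ext.none :=
  certFX0 (fam := false) (s1 := false) (s2 := false) (a := 2) (b := 0) (c := 3) (cn := .up) (n1 := ndF5q2) (n2 := ndF6q3) (pc := pcF0) (cut := Cut.none) (xt := Ext.none) (P1 := 1073741824) (W1 := 536870912) (P2 := 0) (W2 := 1230186008) (P3 := 1046898278) (W3 := 26843546)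
    rfl k0_mm_203

noncomputable def f_mm_213 : ℕ → ℕ → ℕ → ℕ → Bool := onCell 1073741824 536870912 0 1230186008 1046898278 26843546
    (rowFX 0 false false false .pnn 2 1 3 (qsf 1073741824 536870912 0 1230186008 1) ndF5q2 ndF6q3 pcF1 Cut.none Ext.none)

def k0_mm_213 : ∃ t, chk3 f_mm_213 t 1 1 1 = true :=
  ⟨(b (l 5) (l 3)), by decide +kernel⟩

theorem c_mm_213 : CertFX 1073741824 536870912 0 1230186008 1046898278 26843546 false false false .pnn 2 1 3
    ndF5q2 ndF6q3 pcF1 Cut.none Ext.none :=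
  certFX0 (fam := false) (s1 := false) (s2 := false) (a := 2) (b := 1) (c := 3) (cn := .pnn) (n1 := ndF5q2) (n2 := ndF6q3) (pc := pcF1) (cut := Cut.none) (xt := Ext.none) (P1 := 1073741824) (W1 := 536870912) (P2 := 0) (W2 := 1230186008) (P3 := 1046898278) (W3 := 26843546)
    rfl k0_mm_213

noncomputable def f_mm_303 : ℕ → ℕ → ℕ → ℕ → Bool := onCell 0 1230186008 0 1230186008 1046898278 26843546
    (rowFX 0 false false false .npn 3 0 3 (qsf 0 1230186008 0 1230186008 0) ndF5q3 ndF6q3 pcF0 Cut.none Ext.none)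

def k0_mm_303 : ∃ t, chk3 f_mm_303 t 1 1 1 = true :=
  ⟨(a (b (l 3) (a (l 1) (l 3))) (b (l 3) (l 3))), by decide +kernel⟩

theorem c_mm_303 : CertFX 0 1230186008 0 1230186008 1046898278 26843546 false false false .npn 3 0 3
    ndF5q3 ndF6q3 pcF0 Cut.none Ext.none :=
  certFX0 (fam := false) (s1 := false) (s2 := false) (a := 3) (b := 0) (c := 3) (cn := .npn) (n1 := ndF5q3) (n2 := ndF6q3) (pc := pcF0) (cut := Cut.none) (xt := Ext.none) (P1 := 0) (W1 := 1230186008) (P2 := 0) (W2 := 1230186008) (P3 := 1046898278) (W3 := 26843546)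
    rfl k0_mm_303

noncomputable def f_mm_313 : ℕ → ℕ → ℕ → ℕ → Bool := onCell 0 1230186008 0 1230186008 1046898278 26843546
    (rowFX 0 false false false .dn 3 1 3 (qsf 0 1230186008 0 1230186008 1) ndF5q3 ndF6q3 pcF1 Cut.none Ext.none)

def k0_mm_313 : ∃ t, chk3 f_mm_313 t 1 1 1 = true :=
  ⟨(a (l 1) (b (l 3) (l 1))), by decide +kernel⟩

theorem c_mm_313 : CertFX 0 1230186008 0 1230186008 1046898278 26843546 false false false .dn 3 1 3
    ndF5q3 ndF6q3 pcF1 Cut.none Ext.none :=
  certFX0 (fam := false) (s1 := false) (s2 := false) (a := 3) (b := 1) (c := 3) (cn := .dn) (n1 := ndF5q3) (n2 := ndF6q3) (pc := pcF1) (cut := Cut.none) (xt := Ext.none) (P1 := 0) (W1 := 1230186008) (P2 := 0) (W2 := 1230186008) (P3 := 1046898278) (W3 := 26843546)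
    rfl k0_mm_313

end Pool.Agent.Strip051.G.IE1.Tab.C.FB56

namespace Pool.Agent.Strip051.G.IE1.Tab.C.FB57

open Pool.Agent.Strip051.PB Pool.Agent.Strip051.PB.T
open Pool.Agent.Strip051.G.IE1.Tab

noncomputable def f_pp_001 : ℕ → ℕ → ℕ → ℕ → Bool := onCell 0 536870912 0 536870912 1046898278 26843546
    (rowFX 1 false true true .up 0 0 1 (qsf 0 536870912 536870912 536870912 0) ndF5q0 ndF7q1 pcF0 Cut.none Ext.none)

def k0_pp_001 : ∃ t, chk3 f_pp_001 t 1 1 1 = true :=
  ⟨(l 3), by decide +kernel⟩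

theorem c_pp_001 : CertFX 0 536870912 536870912 536870912 1046898278 26843546 false true true .up 0 0 1
    ndF5q0 ndF7q1 pcF0 Cut.none Ext.none :=
  certFX1 (fam := false) (s1 := true) (s2 := true) (a := 0) (b := 0) (c := 1) (cn := .up) (n1 := ndF5q0) (n2 := ndF7q1) (pc := pcF0) (cut := Cut.none) (xt := Ext.none) (P1 := 0) (W1 := 536870912) (P2 := 536870912) (W2 := 536870912) (P3 := 1046898278) (W3 := 26843546)
    rfl (fun _ => rfl) k0_pp_001

noncomputable def f_pp_011 : ℕ → ℕ → ℕ → ℕ → Bool := onCell 0 536870912 536870912 536870912 1046898278 26843546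
    (rowFX 0 false true true .pnn 0 1 1 (qsf 0 536870912 536870912 536870912 1) ndF5q0 ndF7q1 pcF1 Cut.none Ext.none)

def k0_pp_011 : ∃ t, chk3 f_pp_011 t 1 1 1 = true :=
  ⟨(a (b (l 3) (l 3)) (l 3)), by decide +kernel⟩

theorem c_pp_011 : CertFX 0 536870912 536870912 536870912 1046898278 26843546 false true true .pnn 0 1 1
    ndF5q0 ndF7q1 pcF1 Cut.none Ext.none :=
  certFX0 (fam := false) (s1 := true) (s2 := true) (a := 0) (b := 1) (c := 1) (cn := .pnn) (n1 := ndF5q0) (n2 := ndF7q1) (pc := pcF1) (cut := Cut.none) (xt := Ext.none) (P1 := 0) (W1 := 536870912) (P2 := 536870912) (W2 := 536870912) (P3 := 1046898278) (W3 := 26843546)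
    rfl k0_pp_011

noncomputable def f_pp_012 : ℕ → ℕ → ℕ → ℕ → Bool := onCell 536870912 536870912 1073741824 536870912 1046898278 26843546
    (rowFX 2 false true true .pnp 0 1 2 (qsf 0 536870912 1073741824 536870912 1) ndF5q0 ndF7q2 pcF1 Cut.none Ext.none)

def k0_pp_012 : ∃ t, chk3 f_pp_012 t 1 1 1 = true :=
  ⟨(b (l 3) (l 3)), by decide +kernel⟩

theorem c_pp_012 : CertFX 0 536870912 1073741824 536870912 1046898278 26843546 false true true .pnp 0 1 2
    ndF5q0 ndF7q2 pcF1 Cut.none Ext.none :=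
  certFX2 (fam := false) (s1 := true) (s2 := true) (a := 0) (b := 1) (c := 2) (cn := .pnp) (n1 := ndF5q0) (n2 := ndF7q2) (pc := pcF1) (cut := Cut.none) (xt := Ext.none) (P1 := 0) (W1 := 536870912) (P2 := 1073741824) (W2 := 536870912) (P3 := 1046898278) (W3 := 26843546)
    rfl (fun _ => rfl) k0_pp_012

noncomputable def f_pp_022 : ℕ → ℕ → ℕ → ℕ → Bool := onCell 0 536870912 1073741824 536870912 1046898278 26843546
    (rowFX 1 false true true .pp 0 2 2 (qsf 0 536870912 1073741824 536870912 2) ndF5q0 ndF7q2 pcF2 Cut.none Ext.none)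

def k0_pp_022 : ∃ t, chk3 f_pp_022 t 2 4 1 = true :=
  ⟨(a (b (l 3) (a (b (b (l 3) (a (a (b (a (a (c (l 16154512) (c (l 16138512) (l 16126272))) (l 3)) (l 3)) (a (c (l 16131376) (c (l 16112464) (a (l 16098952) (l 16102040)))) (a (c (l 16116432) (l 16114824)) (l 3)))) (l 3)) (l 3))) (a (b (a (c (b (a (c (l 16135312) (l 16115600)) (c (l 16128432) (l 16012176))) (a (c (l 16185992) (l 16167408)) (c (l 16189912) (l 16200160)))) (c (a (b (a (l 16104408) (l 16104072)) (a (l 16150176) (l 16157064))) (b (l 16133856) (l 16196960))) (b (a (a (c (l 16094680) (l 16088280)) (l 16098728)) (l 16105360)) (a (a (c (l 16141120) (l 16135160)) (l 16152552)) (l 16169912))))) (b (b (l 3) (c (l 16103208) (l 16171784))) (c (a (l 16247264) (l 16306624)) (c (l 16232728) (l 16214624))))) (b (c (a (a (b (l 16235456) (l 16282456)) (c (l 16201272) (a (l 16255768) (l 16301576)))) (a (c (l 16348928) (l 16334400)) (l 16373608))) (a (a (a (l 16130592) (c (l 16197552) (l 16236240))) (c (l 16252288) (l 16247856)))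 (b (l 16278616) (l 16313560)))) (c (a (a (l 16340776) (a (l 16337984) (c (l 16348600) (l 16376680)))) (a (c (l 16418696) (l 16405608)) (l 16397944))) (a (a (c (l 16327560) (l 16192768)) (c (l 16328728) (l 16325968))) (c (l 16355248) (l 16360960)))))) (b (l 3) (c (c (b (l 16326096) (a (l 16468608) (l 16469656))) (b (a (l 16364080) (l 3)) (a (l 16430312) (l 16455864)))) (c (b (l 16371416) (l 16392144)) (b (l 16367704) (l 16410448))))))) (l 3))) (l 3)), by decide +kernel⟩

def k1_pp_022 : ∃ t, chk3 f_pp_022 t 3 4 1 = true :=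
  ⟨(b (l 3) (b (a (l 3) (a (l 3) (a (b (l 3) (l 2)) (l 2)))) (a (a (l 3) (b (l 3) (b (l 3) (c (l 1597895606199) (l 1472267812791))))) (a (a (b (c (l 1342881976183) (l 1217254182471)) (b (c (l 16777192) (l 16777192)) (c (l 16771544) (l 16771392)))) (b (b (c (l 16765288) (l 16764984)) (l 2)) (l 2))) (l 2))))), by decide +kernel⟩

def k2_pp_022 : ∃ t, chk3 f_pp_022 t 4 40 1 = true :=
  ⟨(a (a (a (c (a (l 16421968) (c (l 16438392) (l 16367728))) (a (c (a (l 16402512) (l 16415456)) (a (b (l 16372872) (l 16413504)) (l 16415032))) (c (l 16452440) (l 16431104)))) (c (b (a (l 16478072) (c (l 16527840) (l 16481064))) (l 16417944)) (b (a (l 16431456) (b (l 16427928) (l 16463656))) (l 16501904)))) (c (b (a (b (l 16497456) (l 16485040)) (c (l 16521488) (l 16508920))) (c (a (b (l 16569992) (l 16542528)) (l 16550720)) (a (b (l 16535064) (l 16559544)) (l 16560344)))) (a (b (b (l 16461592) (l 16492576)) (b (l 16500176) (a (l 16540032) (l 16554216)))) (b (l 16485448) (b (l 16546000) (l 16571976))))))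 (a (b (c (c (l 16541832) (l 16540208)) (c (l 16538584) (l 16536952))) (a (c (b (l 16568592) (l 16593696)) (c (l 16580432) (l 16579752))) (b (l 16587360) (c (l 16613480) (l 16612504))))) (l 3))), by decide +kernel⟩

def k3_pp_022 : ∃ t, chk3 f_pp_022 t 4 82 1 = true :=
  ⟨(a (a (a (c (a (l 16464728) (c (l 16490048) (l 16503848))) (a (c (l 16455648) (l 16344576)) (l 16501056))) (c (a (l 16496640) (l 16479408)) (l 16538032))) (c (a (l 16521104) (b (c (l 16575704) (l 16590992)) (b (l 16474160) (l 16545616)))) (a (l 16564872) (b (c (l 16591072) (l 16591032)) (b (l 16567480) (l 16554736)))))) (c (a (b (a (l 16613856) (l 16638320)) (a (b (l 16589240) (l 16552672)) (l 16607200))) (b (l 16649544) (a (l 16628056) (l 16611520)))) (a (b (a (l 16613440) (l 16638304)) (b (l 16600664) (a (l 16572080) (l 16598048)))) (b (l 16648888) (a (l 16627040) (l 16609368)))))), by decide +kernel⟩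

def k4_pp_022 : ∃ t, chk3 f_pp_022 t 4 83 1 = true :=
  ⟨(a (a (a (a (b (c (l 16479344) (c (l 16470960) (l 16465216))) (b (c (l 16501384) (c (l 16493704) (a (l 16477544) (l 16499864)))) (c (b (b (b (l 16493568) (a (l 16467296) (l 16502168))) (l 16475320)) (l 16467288)) (c (b (b (b (l 16504128) (a (l 16494376) (l 16501904))) (l 16485800)) (l 16477608)) (b (b (b (l 16499056) (a (b (l 16496728) (l 16494208)) (l 16499792))) (l 16492912)) (l 16484608)))))) (c (b (l 16368696) (a (b (l 16512560) (c (l 16506200) (l 16421368))) (b (l 16491216) (c (l 16477840) (l 16435192))))) (b (l 16518480) (b (l 16489920) (c (a (l 16421368) (l 16452808)) (l 16488824)))))) (c (b (l 16421288) (b (l 16398336) (a (c (l 16363600) (l 16418336)) (l 16367688)))) (b (l 16519320) (b (l 16495800) (b (l 16400128) (l 16474872)))))) (b (c (a (l 16487544) (l 16529088)) (l 16531888)) (b (c (a (l 16467688) (l 16490464)) (l 16512696)) (c (a (c (l 16431632) (l 16478936)) (c (l 16493760) (l 16508000))) (a (l 16495168) (l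 16506488)))))) (a (b (b (c (c (l 16550712) (l 16549896)) (c (l 16549072) (l 16569224))) (a (l 16527584) (a (c (l 16562176) (l 16560088)) (c (l 16575832) (l 16573760))))) (b (a (c (l 16538744) (l 16536272)) (b (c (l 16559704) (l 16557368)) (l 16554848))) (c (l 16495408) (l 16534376)))) (b (c (b (l 16596656) (l 16581688)) (b (l 16594352) (l 16578920))) (b (c (b (l 16571008) (b (l 16565824) (l 16562752))) (b (l 16567912) (b (l 16562576) (l 16559416)))) (b (b (b (c (l 16560616) (l 16557216)) (a (l 16569312) (c (b (l 16551312) (c (l 16551968) (l 16549952))) (b (l 16547296) (c (l 16547944) (l 16545936)))))) (l 16556544)) (l 16550736)))))), by decide +kernel⟩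

def k5_pp_022 : ∃ t, chk3 f_pp_022 t 4 21 1 = true :=
  ⟨(a (a (a (c (a (b (l 16373880) (l 16214296)) (c (l 16271848) (a (l 16305480) (l 16262120)))) (a (c (b (l 16277480) (l 16219528)) (a (b (l 16325696) (l 16224568)) (l 16301712))) (c (l 16284120) (l 16308304)))) (c (c (l 16130544) (l 16221864)) (b (l 16388024) (l 16230064)))) (c (a (l 16190144) (l 16264600)) (a (l 16332656) (l 16352080)))) (a (c (l 16314696) (l 16370464)) (c (l 16325608) (a (l 16430160) (l 16417344))))), by decide +kernel⟩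

def k6_pp_022 : ∃ t, chk3 f_pp_022 t 5 10 1 = true :=
  ⟨(b (b (l 3) (b (a (l 3) (l 3)) (a (a (b (b (c (l 16565896) (l 16561464)) (c (l 16552072) (l 16547216))) (b (b (c (l 16541760) (l 16536584)) (c (l 16534904) (l 16529520))) (b (b (b (c (l 16530632) (l 16525120)) (b (c (l 16529352) (l 16523800)) (c (l 16528496) (l 16501944)))) (l 16523536)) (l 16518336)))) (b (l 3) (b (a (c (l 16519984) (l 16513496)) (l 3)) (b (b (b (c (l 16532816) (l 16526544)) (b (c (l 16532128) (l 16525840)) (c (l 16531744) (l 16504472)))) (l 16527920)) (l 16526072))))) (a (b (l 3) (b (b (l 9407219523959) (c (l 16684720) (l 16682320))) (b (b (b (c (l 16684720) (l 16682320)) (b (a (l 16639368) (l 16727184)) (c (l 16684720) (l 16682320)))) (l 16683520)) (l 16683520)))) (b (b (l 3379233277607) (c (l 16777080) (l 16777080))) (b (b (c (l 16777080) (l 16777080)) (c (l 16777080) (l 16777080))) (b (b (b (c (l 16777080) (l 16777080)) (b (c (l 16777080) (l 16777080)) (c (l 16777080) (l 16777080)))) (l 16777080)) (l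 16777080)))))))) (a (a (c (l 16426976) (l 16418336)) (c (l 16517336) (l 16510624))) (a (c (l 16684720) (l 16682320)) (c (l 16775784) (l 16775752))))), by decide +kernel⟩

def k7_pp_022 : ∃ t, chk3 f_pp_022 t 2 11 1 = true :=
  ⟨(b (a (a (a (a (c (a (l 15982472) (c (l 16010464) (l 15982672))) (a (c (l 15982816) (l 15752480)) (l 15827960))) (c (l 15732816) (l 16005576))) (c (a (l 16015608) (l 16083144)) (l 16017600))) (a (c (a (l 16133344) (l 16175112)) (a (l 16118656) (l 16161032))) (c (a (l 16211920) (l 16232840)) (a (l 16198064) (l 16219016))))) (a (a (c (l 16331072) (l 16319536)) (c (l 16507824) (l 16500824))) (a (c (l 16684640) (l 16682232)) (l 16775712)))) (a (a (a (c (a (a (l 15706952) (l 15493760)) (l 15661312)) (a (a (c (l 15701152) (l 15613520)) (l 15697320)) (l 15737408))) (c (a (l 15767264) (l 15846432)) (c (l 15815576) (l 15804496)))) (a (c (a (l 15908248) (l 15982224)) (a (l 15886392) (l 15961992))) (c (l 16131240) (l 16114520)))) (a (a (c (l 16321576) (l 16309744))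 (l 16504328)) (a (l 16662544) (l 16777080))))), by decide +kernel⟩

def k8_pp_022 : ∃ t, chk3 f_pp_022 t 3 5 1 = true :=
  ⟨(b (b (b (b (a (a (l 3) (c (a (l 1676815630279) (l 16775968)) (a (l 1562462126023) (l 16775936)))) (a (a (c (l 16767800) (l 16767552)) (l 2)) (l 2))) (a (a (a (l 3) (c (l 1764325588951) (l 1772915523543))) (c (a (l 1190947454935) (l 16776216)) (a (l 1148534652887) (l 16776192)))) (l 2))) (a (b (a (a (c (c (l 2375284686807) (l 2380116525015)) (c (l 2383337750487) (l 2382800879527))) (b (a (l 926806966263) (l 343228284935)) (b (l 16777216) (a (l 16777216) (l 16777120))))) (a (c (b (l 16776176) (l 16771896)) (b (l 16776152) (l 16771760))) (b (c (l 16770352) (l 16770176)) (l 16755160)))) (b (b (c (a (a (l 16777216) (l 16775376)) (l 16751136)) (a (a (l 16777216) (l 16775328)) (l 16750456))) (a (c (a (l 16777216) (l 16772688)) (a (l 16777216) (l 16772568))) (l 16743160))) (a (a (b (c (b (l 16776752) (l 16775104)) (b (l 16776744) (a (l 16777216) (l 16774808)))) (b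 (b (b (c (l 16774184) (l 16774104)) (b (c (l 16772888) (l 16772776)) (a (c (l 16774848) (l 16774784)) (l 16767000)))) (l 16770072)) (l 16769912))) (b (b (c (l 16769072) (l 16768856)) (l 16763048)) (l 16756920))) (b (l 16715784) (c (l 16732904) (l 16731760)))))) (l 2))) (a (a (a (l 16768120) (l 16756400)) (c (l 16757408) (l 16756896))) (l 2))) (a (a (c (l 16772840) (l 16772728)) (b (c (l 16774176) (l 16774096)) (l 2))) (l 2))), by decide +kernel⟩

def k9_pp_022 : ∃ t, chk3 f_pp_022 t 1 3 1 = true :=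
  ⟨(a (a (b (a (a (b (c (a (a (l 15265784) (c (l 15395912) (l 15358328))) (b (l 15472376) (c (l 15267464) (l 15280600)))) (a (c (a (l 15272248) (l 15338024)) (a (b (l 15445192) (l 15212160)) (l 15348104))) (b (l 15499008) (l 15301800)))) (c (a (a (l 15019112) (c (l 15178448) (l 15136856))) (c (l 15209360) (l 15221400))) (a (c (a (l 15060184) (l 15112544)) (l 14977928)) (l 15240976)))) (b (b (c (a (l 15545944) (l 15655424)) (a (l 15560376) (l 15637240))) (c (a (l 15417168) (l 15596592)) (l 15503520))) (c (b (l 15307384) (l 15496128)) (b (l 15493760) (l 15493760))))) (b (a (c (b (a (l 15779136) (l 15923232)) (l 15844976)) (b (l 15830096) (l 15820328))) (b (c (l 16121768) (l 16104744)) (l 16113256))) (a (c (b (l 15844976) (l 15844976)) (l 15736440)) (b (l 16113256) (l 16113256))))) (a (a (c (b (a (a (l 15073704) (l 15153280)) (l 15139312)) (a (l 15107344) (l 15223200))) (b (a (c (l 15086032) (l 15074912)) (l 15240976)) (a (l 15079184) (l 15240976)))) (b (c (c (l 15493496) (l 15502736))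 (l 15493760)) (c (l 15496128) (l 15493760)))) (b (a (c (l 15844976) (l 15820328)) (l 16113256)) (a (l 15729008) (l 2))))) (b (a (b (c (a (l 16321576) (l 16507824)) (a (l 16309744) (l 16500824))) (a (c (l 16321576) (l 16309744)) (l 16504328))) (b (c (l 16731448) (l 16730264)) (a (l 16683520) (l 2)))) (a (b (a (l 16315664) (l 2)) (l 2)) (l 2)))) (b (b (a (a (a (l 16777216) (l 2)) (l 2)) (l 2)) (l 2)) (l 2))), by decide +kernel⟩

theorem s10_pp_022 : ∃ t, chk3 f_pp_022 t 4 41 1 = true := ex3_b k3_pp_022 k4_pp_022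

theorem s11_pp_022 : ∃ t, chk3 f_pp_022 t 4 20 1 = true := ex3_b k2_pp_022 s10_pp_022

theorem s12_pp_022 : ∃ t, chk3 f_pp_022 t 4 10 1 = true := ex3_b s11_pp_022 k5_pp_022

theorem s13_pp_022 : ∃ t, chk3 f_pp_022 t 2 10 1 = true := ex3_a s12_pp_022 k6_pp_022

theorem s14_pp_022 : ∃ t, chk3 f_pp_022 t 2 5 1 = true := ex3_b s13_pp_022 k7_pp_022

theorem s15_pp_022 : ∃ t, chk3 f_pp_022 t 1 5 1 = true := ex3_a s14_pp_022 k8_pp_022

theorem s16_pp_022 : ∃ t, chk3 f_pp_022 t 1 4 1 = true := ex3_a k0_pp_022 k1_pp_022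

theorem s17_pp_022 : ∃ t, chk3 f_pp_022 t 1 2 1 = true := ex3_b s16_pp_022 s15_pp_022

theorem s18_pp_022 : ∃ t, chk3 f_pp_022 t 1 1 1 = true := ex3_b s17_pp_022 k9_pp_022

theorem c_pp_022 : CertFX 0 536870912 1073741824 536870912 1046898278 26843546 false true true .pp 0 2 2
    ndF5q0 ndF7q2 pcF2 Cut.none Ext.none :=
  certFX1 (fam := false) (s1 := true) (s2 := true) (a := 0) (b := 2) (c := 2) (cn := .pp) (n1 := ndF5q0) (n2 := ndF7q2) (pc := pcF2) (cut := Cut.none) (xt := Ext.none) (P1 := 0) (W1 := 536870912) (P2 := 1073741824) (W2 := 536870912) (P3 := 1046898278) (W3 := 26843546)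
    rfl (fun _ => rfl) s18_pp_022

noncomputable def f_pp_023 : ℕ → ℕ → ℕ → ℕ → Bool := onCell 1073741824 536870912 0 1230186008 1046898278 26843546
    (rowFX 2 false true true .up 0 2 3 (qsf 0 536870912 0 1230186008 2) ndF5q0 ndF7q3 pcF2 Cut.none Ext.none)

def k0_pp_023 : ∃ t, chk3 f_pp_023 t 2 1 1 = true :=
  ⟨(b (l 2) (a (b (l 2) (b (l 2) (a (b (l 2) (l 3)) (b (b (a (l 2) (a (b (l 2) (l 16400768)) (l 16439816))) (a (a (c (l 16429256) (l 16420216)) (c (l 16579784) (l 16553680))) (a (l 16592440) (l 16610312)))) (a (b (a (c (l 16490368) (l 16482912)) (a (l 997136590263) (b (l 16620968) (l 1035791469175)))) (l 3)) (b (c (a (a (l 16739200) (l 16744800)) (l 16727512)) (a (a (l 16738216) (l 16743960)) (l 16726224))) (a (c (l 1190410624887) (l 1093236989831)) (c (a (l 16773816) (l 16769856)) (a (l 16773728) (l 16769664)))))))))) (b (a (l 2) (a (l 2) (b (l 2) (l 16776728)))) (a (b (a (b (l 2) (b (l 2) (a (l 16082376) (a (l 16036784) (a (l 16014264) (l 16040984)))))) (b (c (l 15922520)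 (l 15848008)) (b (c (l 16074384) (l 16079120)) (l 16253032)))) (a (a (b (b (l 16412336) (l 16673632)) (b (l 16752080) (c (a (l 16769056) (l 16774480)) (a (l 16768840) (l 16774408))))) (b (a (b (l 16360632) (l 16692088)) (a (l 16472192) (l 16419056))) (a (b (l 16754328) (l 16756744)) (a (b (l 16735832) (l 16729848)) (b (a (l 16757080) (b (l 16715184) (l 16735672))) (a (l 16724168) (l 16722768))))))) (b (l 16512776) (b (l 16775152) (l 16738256))))) (b (a (b (c (l 16491712) (l 16472856)) (b (c (l 16532128) (l 16547760)) (l 16610896))) (c (l 16776944) (l 16776944))) (b (b (l 16727560) (l 16757744)) (b (l 16774512) (l 16771720)))))))), by decide +kernel⟩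

def k1_pp_023 : ∃ t, chk3 f_pp_023 t 3 1 1 = true :=
  ⟨(a (b (l 2) (b (c (l 16777216) (l 16777216)) (b (c (b (l 16777216) (l 16777216)) (l 16777216)) (b (b (l 16777216) (l 16765952)) (b (l 16717032) (a (l 16748040) (l 16513272))))))) (b (b (c (l 16690704) (l 16691944)) (b (l 16764032) (l 16777216))) (b (b (l 16777216) (l 16777216)) (b (b (l 16760632) (a (l 16761424) (l 16570096))) (b (b (l 16500072) (l 16309768)) (a (b (l 16346408) (b (l 16169216) (l 15948296))) (b (a (l 16018984) (l 15716864)) (a (l 15429280) (b (l 15450800) (c (l 15177456) (l 15248304))))))))))), by decide +kernel⟩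

theorem s2_pp_023 : ∃ t, chk3 f_pp_023 t 1 1 1 = true := ex3_a k0_pp_023 k1_pp_023

theorem c_pp_023 : CertFX 0 536870912 0 1230186008 1046898278 26843546 false true true .up 0 2 3
    ndF5q0 ndF7q3 pcF2 Cut.none Ext.none :=
  certFX2 (fam := false) (s1 := true) (s2 := true) (a := 0) (b := 2) (c := 3) (cn := .up) (n1 := ndF5q0) (n2 := ndF7q3) (pc := pcF2) (cut := Cut.none) (xt := Ext.none) (P1 := 0) (W1 := 536870912) (P2 := 0) (W2 := 1230186008) (P3 := 1046898278) (W3 := 26843546)
    rfl (fun _ => rfl) s2_pp_023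

noncomputable def f_pp_033 : ℕ → ℕ → ℕ → ℕ → Bool := onCell 0 536870912 0 1230186008 1046898278 26843546
    (rowFX 0 false true true .pnn 0 3 3 (qsf 0 536870912 0 1230186008 3) ndF5q0 ndF7q3 pcF3 Cut.none Ext.none)

def k0_pp_033 : ∃ t, chk3 f_pp_033 t 2 1 1 = true :=
  ⟨(b (b (l 4) (a (b (l 4) (b (a (l 4) (c (a (l 15844984) (l 16121768)) (a (l 15820328) (l 16104744)))) (a (a (a (b (l 4) (c (l 15107336) (l 15079184))) (c (l 196726623767) (l 15240968))) (b (c (l 15496128) (l 15493760)) (l 15490840))) (a (c (l 15844976) (l 15820328)) (l 16113256))))) (a (b (l 4) (c (b (l 26003541911) (l 16415480)) (c (l 16408432) (l 16361792)))) (b (c (l 548379551255) (b (l 4) (l 16730264))) (b (c (l 16731448) (l 16730264)) (l 16730856)))))) (b (a (b (a (b (a (c (a (l 15107320) (l 15223176)) (a (l 15079160) (l 15240944))) (c (l 15496112) (l 15493744))) (a (a (c (l 15107304) (l 15079136)) (l 15214592)) (l 15490832))) (b (a (l 15833864) (l 16113256)) (l 15967568))) (a (a (b (c (l 15175112) (l 15155760))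 (c (a (l 15107344) (l 15223200)) (a (l 15079184) (l 15240976)))) (b (l 15490848) (l 15490848))) (b (l 15967568) (l 15841736)))) (b (b (a (l 16410784) (l 16730856)) (l 16534584)) (b (l 16555552) (a (l 16410784) (l 16730856))))) (a (b (b (a (a (c (l 14944432) (a (l 15079184) (l 15240976))) (l 15490848)) (c (l 15976144) (l 15955336))) (a (a (c (l 15175120) (l 15071888)) (l 15490848)) (l 15967568))) (b (a (a (c (l 15175120) (l 15155776)) (l 15490848)) (l 15967568)) (a (a (c (a (l 15107344) (l 15223200)) (l 15155776)) (l 15323072)) (l 762924997767)))) (b (b (a (l 16410784) (l 16730856)) (a (l 16410784) (l 1))) (b (a (l 16410784) (l 1)) (l 1)))))), by decide +kernel⟩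

def k1_pp_033 : ∃ t, chk3 f_pp_033 t 3 1 1 = true :=
  ⟨(b (b (a (l 4) (a (l 4) (b (l 4) (l 16692088)))) (b (a (c (a (l 16764200) (l 16764200)) (a (l 16763864) (l 16763864))) (c (l 16764200) (l 16763864))) (a (b (a (l 16777216) (l 16777216)) (l 16777216)) (b (l 16777216) (l 16777216))))) (b (b (b (a (l 16777216) (l 16777216)) (l 16777216)) (b (l 16777216) (l 16777216))) (l 1))), by decide +kernel⟩

theorem s2_pp_033 : ∃ t, chk3 f_pp_033 t 1 1 1 = true := ex3_a k0_pp_033 k1_pp_033

theorem c_pp_033 : CertFX 0 536870912 0 1230186008 1046898278 26843546 false true true .pnn 0 3 3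
    ndF5q0 ndF7q3 pcF3 Cut.none Ext.none :=
  certFX0 (fam := false) (s1 := true) (s2 := true) (a := 0) (b := 3) (c := 3) (cn := .pnn) (n1 := ndF5q0) (n2 := ndF7q3) (pc := pcF3) (cut := Cut.none) (xt := Ext.none) (P1 := 0) (W1 := 536870912) (P2 := 0) (W2 := 1230186008) (P3 := 1046898278) (W3 := 26843546)
    rfl s2_pp_033

noncomputable def f_pp_101 : ℕ → ℕ → ℕ → ℕ → Bool := onCell 536870912 469762048 536870912 536870912 1046898278 26843546
    (rowFX 0 false true true .npn 1 0 1 (qsf 536870912 469762048 536870912 536870912 0) ndF5q1 ndF7q1 pcF0 Cut.none Ext.none)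

def k0_pp_101 : ∃ t, chk3 f_pp_101 t 1 1 1 = true :=
  ⟨(l 3), by decide +kernel⟩

theorem c_pp_101 : CertFX 536870912 469762048 536870912 536870912 1046898278 26843546 false true true .npn 1 0 1
    ndF5q1 ndF7q1 pcF0 Cut.none Ext.none :=
  certFX0 (fam := false) (s1 := true) (s2 := true) (a := 1) (b := 0) (c := 1) (cn := .npn) (n1 := ndF5q1) (n2 := ndF7q1) (pc := pcF0) (cut := Cut.none) (xt := Ext.none) (P1 := 536870912) (W1 := 469762048) (P2 := 536870912) (W2 := 536870912) (P3 := 1046898278) (W3 := 26843546)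
    rfl k0_pp_101

noncomputable def f_pp_102 : ℕ → ℕ → ℕ → ℕ → Bool := onCell 536870912 469762048 1073741824 536870912 1046898278 26843546
    (rowFX 0 false true true .npp 1 0 2 (qsf 536870912 469762048 1073741824 536870912 0) ndF5q1 ndF7q2 pcF0 Cut.none Ext.none)

def k0_pp_102 : ∃ t, chk3 f_pp_102 t 1 1 1 = true :=
  ⟨(l 3), by decide +kernel⟩

theorem c_pp_102 : CertFX 536870912 469762048 1073741824 536870912 1046898278 26843546 false true true .npp 1 0 2
    ndF5q1 ndF7q2 pcF0 Cut.none Ext.none :=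
  certFX0 (fam := false) (s1 := true) (s2 := true) (a := 1) (b := 0) (c := 2) (cn := .npp) (n1 := ndF5q1) (n2 := ndF7q2) (pc := pcF0) (cut := Cut.none) (xt := Ext.none) (P1 := 536870912) (W1 := 469762048) (P2 := 1073741824) (W2 := 536870912) (P3 := 1046898278) (W3 := 26843546)
    rfl k0_pp_102

noncomputable def f_pp_112 : ℕ → ℕ → ℕ → ℕ → Bool := onCell 536870912 469762048 1073741824 536870912 1046898278 26843546
    (rowFX 0 false true true .dn 1 1 2 (qsf 536870912 469762048 1073741824 536870912 1) ndF5q1 ndF7q2 pcF1 Cut.none Ext.none)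

def k0_pp_112 : ∃ t, chk3 f_pp_112 t 1 1 1 = true :=
  ⟨(l 3), by decide +kernel⟩

theorem c_pp_112 : CertFX 536870912 469762048 1073741824 536870912 1046898278 26843546 false true true .dn 1 1 2
    ndF5q1 ndF7q2 pcF1 Cut.none Ext.none :=
  certFX0 (fam := false) (s1 := true) (s2 := true) (a := 1) (b := 1) (c := 2) (cn := .dn) (n1 := ndF5q1) (n2 := ndF7q2) (pc := pcF1) (cut := Cut.none) (xt := Ext.none) (P1 := 536870912) (W1 := 469762048) (P2 := 1073741824) (W2 := 536870912) (P3 := 1046898278) (W3 := 26843546)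
    rfl k0_pp_112

noncomputable def f_pp_113 : ℕ → ℕ → ℕ → ℕ → Bool := onCell 536870912 536870912 0 1230186008 1046898278 26843546
    (rowFX 2 false true true .nn 1 1 3 (qsf 536870912 469762048 0 1230186008 1) ndF5q1 ndF7q3 pcF1 Cut.none Ext.none)

def k0_pp_113 : ∃ t, chk3 f_pp_113 t 1 1 1 = true :=
  ⟨(b (a (l 2) (a (l 2) (b (l 2) (a (l 2) (b (b (l 2) (a (l 2) (l 14410232))) (a (b (l 2) (l 14424976)) (l 14712648))))))) (a (b (l 2) (l 3)) (b (a (b (l 2) (a (b (l 2) (b (l 2) (l 3))) (b (a (b (l 2) (c (l 473078684647) (l 14312152))) (c (a (l 14651408) (l 14936872)) (l 14776032))) (a (c (l 73111469319) (l 14735176)) (b (l 15275592) (l 15772120)))))) (a (b (b (a (l 2) (l 14400272)) (a (c (l 14561440) (l 14509192)) (b (l 14828464) (l 15133160)))) (b (a (c (l 15263880) (l 15206712)) (b (l 15458272) (l 15795120))) (a (b (l 15793928) (l 16143912)) (l 16116112)))) (b (b (l 15091720) (a (l 15422624) (l 15729208))) (a (b (a (l 15849360) (l 15910136)) (l 16062176)) (a (b (l 15920656) (l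 15989368)) (b (l 15905576) (l 15935232))))))) (b (a (l 3) (a (b (a (l 16424536) (l 16307832)) (l 3)) (b (a (l 16099024) (l 15920528)) (a (l 16080856) (l 15724368))))) (l 3))))), by decide +kernel⟩

theorem c_pp_113 : CertFX 536870912 469762048 0 1230186008 1046898278 26843546 false true true .nn 1 1 3
    ndF5q1 ndF7q3 pcF1 Cut.none Ext.none :=
  certFX2 (fam := false) (s1 := true) (s2 := true) (a := 1) (b := 1) (c := 3) (cn := .nn) (n1 := ndF5q1) (n2 := ndF7q3) (pc := pcF1) (cut := Cut.none) (xt := Ext.none) (P1 := 536870912) (W1 := 469762048) (P2 := 0) (W2 := 1230186008) (P3 := 1046898278) (W3 := 26843546)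
    rfl (fun _ => rfl) k0_pp_113

noncomputable def f_pp_123 : ℕ → ℕ → ℕ → ℕ → Bool := onCell 1073741824 536870912 0 1230186008 1046898278 26843546
    (rowFX 2 false true true .npn 1 2 3 (qsf 536870912 469762048 0 1230186008 2) ndF5q1 ndF7q3 pcF2 Cut.none Ext.none)

def k0_pp_123 : ∃ t, chk3 f_pp_123 t 1 2 1 = true :=
  ⟨(a (a (b (a (a (l 2) (b (l 16447344) (l 16023832))) (b (a (l 16108672) (l 15788960)) (a (l 16034776) (l 15698704)))) (a (b (b (l 15494856) (l 15494280)) (b (l 15350880) (l 15437360))) (b (a (l 15739696) (l 15482024)) (b (l 15543640) (l 15451856))))) (b (a (b (a (l 15582384) (l 15679952)) (l 15533064)) (b (l 15953872) (l 16092944))) (a (b (l 15588160) (a (a (l 15168632) (l 15304456)) (l 15817552))) (b (l 16414200) (a (l 16442840) (l 16752232)))))) (b (a (a (b (l 16410224) (l 16446800)) (b (l 4) (l 16683952))) (c (l 16690704) (l 16691944))) (a (b (l 16703792) (l 16765672)) (b (l 16764032) (l 16777216))))), by decide +kernel⟩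

def k1_pp_123 : ∃ t, chk3 f_pp_123 t 4 3 1 = true :=
  ⟨(b (b (a (b (l 15600840) (l 15767360)) (l 15363712)) (b (a (l 15902248) (l 15292304)) (b (l 15602296) (a (b (l 16012360) (a (c (l 16237856) (l 16222168)) (l 15822360))) (a (l 15336664) (l 14905904)))))) (a (a (b (c (b (c (l 16105352) (l 16115848)) (b (l 15993784) (a (l 15848312) (l 15975496)))) (b (l 16090704) (c (l 15715248) (l 15893392)))) (a (l 3) (c (l 924120504631) (l 1018073013975)))) (b (c (b (b (l 15879120) (l 15954128)) (b (l 15984680) (a (l 16055056) (l 16151064)))) (b (l 15877280) (b (l 15960992) (l 16056528)))) (b (c (a (l 16117000) (b (l 16248264) (l 16276696))) (a (l 16092288) (l 920899792343))) (l 3)))) (b (b (c (b (l 15356488) (a (l 15832576) (l 15664272))) (a (l 15666992) (l 15435592))) (a (c (b (l 16047872) (l 16086704)) (b (l 16040552) (l 16084200))) (b (b (l 15793016) (a (l 15950088) (l 15789320))) (l 15951200)))) (b (b (a (a (b (l 16271816) (l 16360424)) (b (l 16316584) (l 16401640))) (a (b (l 16329552)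 (l 16421736)) (l 16439816))) (a (a (c (l 16429256) (l 16420216)) (c (l 16579784) (l 16448824))) (a (l 16592440) (l 1)))) (a (a (c (l 1073908718375) (l 1147996889335)) (l 1)) (l 1)))))), by decide +kernel⟩

def k2_pp_123 : ∃ t, chk3 f_pp_123 t 5 3 1 = true :=
  ⟨(b (a (b (a (l 15088120) (l 15732776)) (b (l 15201936) (b (l 15260408) (a (a (l 14855264) (c (l 15033168) (l 14987328))) (l 15528232))))) (a (b (l 16430048) (c (l 16431488) (l 16430312))) (b (l 16776728) (l 16776728)))) (a (b (a (b (c (b (l 15196568) (a (l 15518656) (l 15548064))) (a (l 15259792) (l 15339120))) (b (b (a (l 15660448) (l 15654984)) (a (l 15651520) (a (l 15712696) (a (l 15755376) (l 15829144))))) (a (l 16082376) (a (l 16036784) (a (l 16014264) (l 16040984)))))) (b (c (l 15922520) (l 15848008)) (b (c (l 16074384) (l 16079120)) (l 16253032)))) (a (a (b (b (l 16412336) (l 1)) (l 1)) (l 1)) (l 1))) (b (b (a (c (l 16491712) (l 16472856)) (l 16776816)) (l 1)) (l 1)))), by decide +kernel⟩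

def k3_pp_123 : ∃ t, chk3 f_pp_123 t 3 3 1 = true :=
  ⟨(b (a (c (l 16777216) (l 16777216)) (b (l 16777216) (l 1))) (l 1)), by decide +kernel⟩

theorem s4_pp_123 : ∃ t, chk3 f_pp_123 t 2 3 1 = true := ex3_a k1_pp_123 k2_pp_123

theorem s5_pp_123 : ∃ t, chk3 f_pp_123 t 1 3 1 = true := ex3_a s4_pp_123 k3_pp_123

theorem s6_pp_123 : ∃ t, chk3 f_pp_123 t 1 1 1 = true := ex3_b k0_pp_123 s5_pp_123

theorem c_pp_123 : CertFX 536870912 469762048 0 1230186008 1046898278 26843546 false true true .npn 1 2 3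
    ndF5q1 ndF7q3 pcF2 Cut.none Ext.none :=
  certFX2 (fam := false) (s1 := true) (s2 := true) (a := 1) (b := 2) (c := 3) (cn := .npn) (n1 := ndF5q1) (n2 := ndF7q3) (pc := pcF2) (cut := Cut.none) (xt := Ext.none) (P1 := 536870912) (W1 := 469762048) (P2 := 0) (W2 := 1230186008) (P3 := 1046898278) (W3 := 26843546)
    rfl (fun _ => rfl) s6_pp_123

noncomputable def f_pp_133 : ℕ → ℕ → ℕ → ℕ → Bool := onCell 1610612736 536870912 0 1230186008 1046898278 26843546
    (rowFX 2 false true true .dn 1 3 3 (qsf 536870912 469762048 0 1230186008 3) ndF5q1 ndF7q3 pcF3 Cut.none Ext.none)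

def k0_pp_133 : ∃ t, chk3 f_pp_133 t 1 1 1 = true :=
  ⟨(b (b (b (l 4) (l 1)) (l 1)) (l 1)), by decide +kernel⟩

theorem c_pp_133 : CertFX 536870912 469762048 0 1230186008 1046898278 26843546 false true true .dn 1 3 3
    ndF5q1 ndF7q3 pcF3 Cut.none Ext.none :=
  certFX2 (fam := false) (s1 := true) (s2 := true) (a := 1) (b := 3) (c := 3) (cn := .dn) (n1 := ndF5q1) (n2 := ndF7q3) (pc := pcF3) (cut := Cut.none) (xt := Ext.none) (P1 := 536870912) (W1 := 469762048) (P2 := 0) (W2 := 1230186008) (P3 := 1046898278) (W3 := 26843546)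
    rfl (fun _ => rfl) k0_pp_133

noncomputable def f_pp_202 : ℕ → ℕ → ℕ → ℕ → Bool := onCell 1073741824 536870912 1073741824 536870912 1046898278 26843546
    (rowFX 0 false true true .pp 2 0 2 (qsf 1073741824 536870912 1073741824 536870912 0) ndF5q2 ndF7q2 pcF0 Cut.none Ext.none)

def k0_pp_202 : ∃ t, chk3 f_pp_202 t 1 1 1 = true :=
  ⟨(l 5), by decide +kernel⟩

theorem c_pp_202 : CertFX 1073741824 536870912 1073741824 536870912 1046898278 26843546 false true true .pp 2 0 2
    ndF5q2 ndF7q2 pcF0 Cut.none Ext.none :=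
  certFX0 (fam := false) (s1 := true) (s2 := true) (a := 2) (b := 0) (c := 2) (cn := .pp) (n1 := ndF5q2) (n2 := ndF7q2) (pc := pcF0) (cut := Cut.none) (xt := Ext.none) (P1 := 1073741824) (W1 := 536870912) (P2 := 1073741824) (W2 := 536870912) (P3 := 1046898278) (W3 := 26843546)
    rfl k0_pp_202

noncomputable def f_pp_203 : ℕ → ℕ → ℕ → ℕ → Bool := onCell 0 536870912 0 1230186008 1046898278 26843546
    (rowFX 2 false true true .up 2 0 3 (qsf 1073741824 536870912 0 1230186008 0) ndF5q2 ndF7q3 pcF0 Cut.none Ext.none)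

def k0_pp_203 : ∃ t, chk3 f_pp_203 t 1 1 1 = true :=
  ⟨(b (l 3) (l 3)), by decide +kernel⟩

theorem c_pp_203 : CertFX 1073741824 536870912 0 1230186008 1046898278 26843546 false true true .up 2 0 3
    ndF5q2 ndF7q3 pcF0 Cut.none Ext.none :=
  certFX2 (fam := false) (s1 := true) (s2 := true) (a := 2) (b := 0) (c := 3) (cn := .up) (n1 := ndF5q2) (n2 := ndF7q3) (pc := pcF0) (cut := Cut.none) (xt := Ext.none) (P1 := 1073741824) (W1 := 536870912) (P2 := 0) (W2 := 1230186008) (P3 := 1046898278) (W3 := 26843546)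
    rfl (fun _ => rfl) k0_pp_203

noncomputable def f_pp_213 : ℕ → ℕ → ℕ → ℕ → Bool := onCell 1073741824 536870912 0 1230186008 1046898278 26843546
    (rowFX 0 false true true .pnn 2 1 3 (qsf 1073741824 536870912 0 1230186008 1) ndF5q2 ndF7q3 pcF1 Cut.none Ext.none)

def k0_pp_213 : ∃ t, chk3 f_pp_213 t 1 1 1 = true :=
  ⟨(b (b (a (a (a (b (a (b (a (c (l 16105576) (a (l 16170224) (l 16347840))) (c (a (l 16439088) (l 16657176)) (l 16584336))) (a (c (b (l 16176376) (a (l 16086752) (l 16247312))) (b (a (l 16116984) (l 16273736)) (a (c (l 16086696) (l 16086832)) (l 16250384)))) (c (b (a (l 16430512) (l 16588488)) (l 16331728)) (l 16359864)))) (b (a (c (l 16603840) (l 16614048)) (l 16160120)) (b (a (l 16537664) (l 16344880)) (l 3)))) (b (l 3) (l 3))) (b (b (a (c (l 15819168) (l 317456096775)) (c (l 15276160) (l 289000738263))) (l 3)) (l 3))) (l 3)) (l 3)) (l 3)) (l 3)), by decide +kernel⟩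

theorem c_pp_213 : CertFX 1073741824 536870912 0 1230186008 1046898278 26843546 false true true .pnn 2 1 3
    ndF5q2 ndF7q3 pcF1 Cut.none Ext.none :=
  certFX0 (fam := false) (s1 := true) (s2 := true) (a := 2) (b := 1) (c := 3) (cn := .pnn) (n1 := ndF5q2) (n2 := ndF7q3) (pc := pcF1) (cut := Cut.none) (xt := Ext.none) (P1 := 1073741824) (W1 := 536870912) (P2 := 0) (W2 := 1230186008) (P3 := 1046898278) (W3 := 26843546)
    rfl k0_pp_213

noncomputable def f_pp_303 : ℕ → ℕ → ℕ → ℕ → Bool := onCell 0 1230186008 0 1230186008 1046898278 26843546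
    (rowFX 0 false true true .npn 3 0 3 (qsf 0 1230186008 0 1230186008 0) ndF5q3 ndF7q3 pcF0 Cut.none Ext.none)

def k0_pp_303 : ∃ t, chk3 f_pp_303 t 1 1 1 = true :=
  ⟨(a (b (l 3) (l 5)) (b (l 3) (a (l 5) (l 3)))), by decide +kernel⟩

theorem c_pp_303 : CertFX 0 1230186008 0 1230186008 1046898278 26843546 false true true .npn 3 0 3
    ndF5q3 ndF7q3 pcF0 Cut.none Ext.none :=
  certFX0 (fam := false) (s1 := true) (s2 := true) (a := 3) (b := 0) (c := 3) (cn := .npn) (n1 := ndF5q3) (n2 := ndF7q3) (pc := pcF0) (cut := Cut.none) (xt := Ext.none) (P1 := 0) (W1 := 1230186008) (P2 := 0) (W2 := 1230186008) (P3 := 1046898278) (W3 := 26843546)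
    rfl k0_pp_303

noncomputable def f_pp_313 : ℕ → ℕ → ℕ → ℕ → Bool := onCell 0 1230186008 0 1230186008 1046898278 26843546
    (rowFX 0 false true true .dn 3 1 3 (qsf 0 1230186008 0 1230186008 1) ndF5q3 ndF7q3 pcF1 Cut.none Ext.none)

def k0_pp_313 : ∃ t, chk3 f_pp_313 t 1 1 1 = true :=
  ⟨(a (l 1) (b (l 3) (l 1))), by decide +kernel⟩

theorem c_pp_313 : CertFX 0 1230186008 0 1230186008 1046898278 26843546 false true true .dn 3 1 3
    ndF5q3 ndF7q3 pcF1 Cut.none Ext.none :=
  certFX0 (fam := false) (s1 := true) (s2 := true) (a := 3) (b := 1) (c := 3) (cn := .dn) (n1 := ndF5q3) (n2 := ndF7q3) (pc := pcF1) (cut := Cut.none) (xt := Ext.none) (P1 := 0) (W1 := 1230186008) (P2 := 0) (W2 := 1230186008) (P3 := 1046898278) (W3 := 26843546)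
    rfl k0_pp_313

noncomputable def f_pm_001 : ℕ → ℕ → ℕ → ℕ → Bool := onCell 0 536870912 536870912 536870912 1046898278 26843546
    (rowFX 0 false true false .up 0 0 1 (qsf 0 536870912 536870912 536870912 0) ndF5q0 ndF7q1 pcF0 Cut.none Ext.none)

def k0_pm_001 : ∃ t, chk3 f_pm_001 t 1 1 1 = true :=
  ⟨(l 4), by decide +kernel⟩

theorem c_pm_001 : CertFX 0 536870912 536870912 536870912 1046898278 26843546 false true false .up 0 0 1
    ndF5q0 ndF7q1 pcF0 Cut.none Ext.none :=
  certFX0 (fam := false) (s1 := true) (s2 := false) (a := 0) (b := 0) (c := 1) (cn := .up) (n1 := ndF5q0) (n2 := ndF7q1) (pc := pcF0) (cut := Cut.none) (xt := Ext.none) (P1 := 0) (W1 := 536870912) (P2 := 536870912) (W2 := 536870912) (P3 := 1046898278) (W3 := 26843546)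
    rfl k0_pm_001

noncomputable def f_pm_011 : ℕ → ℕ → ℕ → ℕ → Bool := onCell 0 536870912 536870912 536870912 1046898278 26843546
    (rowFX 0 false true false .pnn 0 1 1 (qsf 0 536870912 536870912 536870912 1) ndF5q0 ndF7q1 pcF1 Cut.none Ext.none)

def k0_pm_011 : ∃ t, chk3 f_pm_011 t 1 1 1 = true :=
  ⟨(l 4), by decide +kernel⟩

theorem c_pm_011 : CertFX 0 536870912 536870912 536870912 1046898278 26843546 false true false .pnn 0 1 1
    ndF5q0 ndF7q1 pcF1 Cut.none Ext.none :=
  certFX0 (fam := false) (s1 := true) (s2 := false) (a := 0) (b := 1) (c := 1) (cn := .pnn) (n1 := ndF5q0) (n2 := ndF7q1) (pc := pcF1) (cut := Cut.none) (xt := Ext.none) (P1 := 0) (W1 := 536870912) (P2 := 536870912) (W2 := 536870912) (P3 := 1046898278) (W3 := 26843546)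
    rfl k0_pm_011

noncomputable def f_pm_012 : ℕ → ℕ → ℕ → ℕ → Bool := onCell 0 536870912 1073741824 536870912 1046898278 26843546
    (rowFX 0 false true false .pnp 0 1 2 (qsf 0 536870912 1073741824 536870912 1) ndF5q0 ndF7q2 pcF1 Cut.none Ext.none)

def k0_pm_012 : ∃ t, chk3 f_pm_012 t 1 1 1 = true :=
  ⟨(l 4), by decide +kernel⟩

theorem c_pm_012 : CertFX 0 536870912 1073741824 536870912 1046898278 26843546 false true false .pnp 0 1 2
    ndF5q0 ndF7q2 pcF1 Cut.none Ext.none :=
  certFX0 (fam := false) (s1 := true) (s2 := false) (a := 0) (b := 1) (c := 2) (cn := .pnp) (n1 := ndF5q0) (n2 := ndF7q2) (pc := pcF1) (cut := Cut.none) (xt := Ext.none) (P1 := 0) (W1 := 536870912) (P2 := 1073741824) (W2 := 536870912) (P3 := 1046898278) (W3 := 26843546)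
    rfl k0_pm_012

noncomputable def f_pm_022 : ℕ → ℕ → ℕ → ℕ → Bool := onCell 0 536870912 1073741824 536870912 1046898278 26843546
    (rowFX 0 false true false .pp 0 2 2 (qsf 0 536870912 1073741824 536870912 2) ndF5q0 ndF7q2 pcF2 Cut.none Ext.none)

def k0_pm_022 : ∃ t, chk3 f_pm_022 t 1 1 1 = true :=
  ⟨(l 4), by decide +kernel⟩

theorem c_pm_022 : CertFX 0 536870912 1073741824 536870912 1046898278 26843546 false true false .pp 0 2 2
    ndF5q0 ndF7q2 pcF2 Cut.none Ext.none :=
  certFX0 (fam := false) (s1 := true) (s2 := false) (a := 0) (b := 2) (c := 2) (cn := .pp) (n1 := ndF5q0) (n2 := ndF7q2) (pc := pcF2) (cut := Cut.none) (xt := Ext.none) (P1 := 0) (W1 := 536870912) (P2 := 1073741824) (W2 := 536870912) (P3 := 1046898278) (W3 := 26843546)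
    rfl k0_pm_022

noncomputable def f_pm_023 : ℕ → ℕ → ℕ → ℕ → Bool := onCell 0 536870912 0 1230186008 1046898278 26843546
    (rowFX 0 false true false .up 0 2 3 (qsf 0 536870912 0 1230186008 2) ndF5q0 ndF7q3 pcF2 Cut.none Ext.none)

def k0_pm_023 : ∃ t, chk3 f_pm_023 t 1 1 1 = true :=
  ⟨(l 4), by decide +kernel⟩

theorem c_pm_023 : CertFX 0 536870912 0 1230186008 1046898278 26843546 false true false .up 0 2 3
    ndF5q0 ndF7q3 pcF2 Cut.none Ext.none :=
  certFX0 (fam := false) (s1 := true) (s2 := false) (a := 0) (b := 2) (c := 3) (cn := .up) (n1 := ndF5q0) (n2 := ndF7q3) (pc := pcF2) (cut := Cut.none) (xt := Ext.none) (P1 := 0) (W1 := 536870912) (P2 := 0) (W2 := 1230186008) (P3 := 1046898278) (W3 := 26843546)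
    rfl k0_pm_023

noncomputable def f_pm_033 : ℕ → ℕ → ℕ → ℕ → Bool := onCell 0 536870912 0 1230186008 1046898278 26843546
    (rowFX 0 false true false .pnn 0 3 3 (qsf 0 536870912 0 1230186008 3) ndF5q0 ndF7q3 pcF3 Cut.none Ext.none)

def k0_pm_033 : ∃ t, chk3 f_pm_033 t 1 1 1 = true :=
  ⟨(l 4), by decide +kernel⟩

theorem c_pm_033 : CertFX 0 536870912 0 1230186008 1046898278 26843546 false true false .pnn 0 3 3
    ndF5q0 ndF7q3 pcF3 Cut.none Ext.none :=
  certFX0 (fam := false) (s1 := true) (s2 := false) (a := 0) (b := 3) (c := 3) (cn := .pnn) (n1 := ndF5q0) (n2 := ndF7q3) (pc := pcF3) (cut := Cut.none) (xt := Ext.none) (P1 := 0) (W1 := 536870912) (P2 := 0) (W2 := 1230186008) (P3 := 1046898278) (W3 := 26843546)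
    rfl k0_pm_033

noncomputable def f_pm_101 : ℕ → ℕ → ℕ → ℕ → Bool := onCell 536870912 469762048 536870912 536870912 1046898278 26843546
    (rowFX 0 false true false .npn 1 0 1 (qsf 536870912 469762048 536870912 536870912 0) ndF5q1 ndF7q1 pcF0 Cut.none Ext.none)

def k0_pm_101 : ∃ t, chk3 f_pm_101 t 1 1 1 = true :=
  ⟨(l 4), by decide +kernel⟩

theorem c_pm_101 : CertFX 536870912 469762048 536870912 536870912 1046898278 26843546 false true false .npn 1 0 1
    ndF5q1 ndF7q1 pcF0 Cut.none Ext.none :=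
  certFX0 (fam := false) (s1 := true) (s2 := false) (a := 1) (b := 0) (c := 1) (cn := .npn) (n1 := ndF5q1) (n2 := ndF7q1) (pc := pcF0) (cut := Cut.none) (xt := Ext.none) (P1 := 536870912) (W1 := 469762048) (P2 := 536870912) (W2 := 536870912) (P3 := 1046898278) (W3 := 26843546)
    rfl k0_pm_101

noncomputable def f_pm_102 : ℕ → ℕ → ℕ → ℕ → Bool := onCell 536870912 469762048 1073741824 536870912 1046898278 26843546
    (rowFX 0 false true false .npp 1 0 2 (qsf 536870912 469762048 1073741824 536870912 0) ndF5q1 ndF7q2 pcF0 Cut.none Ext.none)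

def k0_pm_102 : ∃ t, chk3 f_pm_102 t 1 1 1 = true :=
  ⟨(l 4), by decide +kernel⟩

theorem c_pm_102 : CertFX 536870912 469762048 1073741824 536870912 1046898278 26843546 false true false .npp 1 0 2
    ndF5q1 ndF7q2 pcF0 Cut.none Ext.none :=
  certFX0 (fam := false) (s1 := true) (s2 := false) (a := 1) (b := 0) (c := 2) (cn := .npp) (n1 := ndF5q1) (n2 := ndF7q2) (pc := pcF0) (cut := Cut.none) (xt := Ext.none) (P1 := 536870912) (W1 := 469762048) (P2 := 1073741824) (W2 := 536870912) (P3 := 1046898278) (W3 := 26843546)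
    rfl k0_pm_102

noncomputable def f_pm_112 : ℕ → ℕ → ℕ → ℕ → Bool := onCell 536870912 469762048 1073741824 536870912 1046898278 26843546
    (rowFX 0 false true false .dn 1 1 2 (qsf 536870912 469762048 1073741824 536870912 1) ndF5q1 ndF7q2 pcF1 Cut.none Ext.none)

def k0_pm_112 : ∃ t, chk3 f_pm_112 t 1 1 1 = true :=
  ⟨(l 4), by decide +kernel⟩

theorem c_pm_112 : CertFX 536870912 469762048 1073741824 536870912 1046898278 26843546 false true false .dn 1 1 2
    ndF5q1 ndF7q2 pcF1 Cut.none Ext.none :=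
  certFX0 (fam := false) (s1 := true) (s2 := false) (a := 1) (b := 1) (c := 2) (cn := .dn) (n1 := ndF5q1) (n2 := ndF7q2) (pc := pcF1) (cut := Cut.none) (xt := Ext.none) (P1 := 536870912) (W1 := 469762048) (P2 := 1073741824) (W2 := 536870912) (P3 := 1046898278) (W3 := 26843546)
    rfl k0_pm_112

noncomputable def f_pm_113 : ℕ → ℕ → ℕ → ℕ → Bool := onCell 536870912 469762048 0 1230186008 1046898278 26843546
    (rowFX 0 false true false .nn 1 1 3 (qsf 536870912 469762048 0 1230186008 1) ndF5q1 ndF7q3 pcF1 Cut.none Ext.none)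

def k0_pm_113 : ∃ t, chk3 f_pm_113 t 1 1 1 = true :=
  ⟨(b (b (l 2) (l 4)) (l 4)), by decide +kernel⟩

theorem c_pm_113 : CertFX 536870912 469762048 0 1230186008 1046898278 26843546 false true false .nn 1 1 3
    ndF5q1 ndF7q3 pcF1 Cut.none Ext.none :=
  certFX0 (fam := false) (s1 := true) (s2 := false) (a := 1) (b := 1) (c := 3) (cn := .nn) (n1 := ndF5q1) (n2 := ndF7q3) (pc := pcF1) (cut := Cut.none) (xt := Ext.none) (P1 := 536870912) (W1 := 469762048) (P2 := 0) (W2 := 1230186008) (P3 := 1046898278) (W3 := 26843546)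
    rfl k0_pm_113

noncomputable def f_pm_123 : ℕ → ℕ → ℕ → ℕ → Bool := onCell 536870912 469762048 0 1230186008 1046898278 26843546
    (rowFX 0 false true false .npn 1 2 3 (qsf 536870912 469762048 0 1230186008 2) ndF5q1 ndF7q3 pcF2 Cut.none Ext.none)

def k0_pm_123 : ∃ t, chk3 f_pm_123 t 1 1 1 = true :=
  ⟨(b (b (l 4) (l 4)) (l 4)), by decide +kernel⟩

theorem c_pm_123 : CertFX 536870912 469762048 0 1230186008 1046898278 26843546 false true false .npn 1 2 3
    ndF5q1 ndF7q3 pcF2 Cut.none Ext.none :=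
  certFX0 (fam := false) (s1 := true) (s2 := false) (a := 1) (b := 2) (c := 3) (cn := .npn) (n1 := ndF5q1) (n2 := ndF7q3) (pc := pcF2) (cut := Cut.none) (xt := Ext.none) (P1 := 536870912) (W1 := 469762048) (P2 := 0) (W2 := 1230186008) (P3 := 1046898278) (W3 := 26843546)
    rfl k0_pm_123

noncomputable def f_pm_133 : ℕ → ℕ → ℕ → ℕ → Bool := onCell 1610612736 536870912 0 1230186008 1046898278 26843546
    (rowFX 2 false true false .dn 1 3 3 (qsf 536870912 469762048 0 1230186008 3) ndF5q1 ndF7q3 pcF3 Cut.none Ext.none)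

def k0_pm_133 : ∃ t, chk3 f_pm_133 t 1 1 1 = true :=
  ⟨(b (l 4) (l 1)), by decide +kernel⟩

theorem c_pm_133 : CertFX 536870912 469762048 0 1230186008 1046898278 26843546 false true false .dn 1 3 3
    ndF5q1 ndF7q3 pcF3 Cut.none Ext.none :=
  certFX2 (fam := false) (s1 := true) (s2 := false) (a := 1) (b := 3) (c := 3) (cn := .dn) (n1 := ndF5q1) (n2 := ndF7q3) (pc := pcF3) (cut := Cut.none) (xt := Ext.none) (P1 := 536870912) (W1 := 469762048) (P2 := 0) (W2 := 1230186008) (P3 := 1046898278) (W3 := 26843546)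
    rfl (fun _ => rfl) k0_pm_133

noncomputable def f_pm_202 : ℕ → ℕ → ℕ → ℕ → Bool := onCell 0 536870912 1073741824 536870912 1046898278 26843546
    (rowFX 2 false true false .pp 2 0 2 (qsf 1073741824 536870912 1073741824 536870912 0) ndF5q2 ndF7q2 pcF0 Cut.none Ext.none)

def k0_pm_202 : ∃ t, chk3 f_pm_202 t 1 1 1 = true :=
  ⟨(a (b (l 4) (b (l 4) (b (l 4) (a (a (a (c (a (l 16700520) (l 16717448)) (l 100630144631)) (l 16738256)) (a (l 16759488) (l 16770752))) (a (l 16775600) (l 4)))))) (l 4)), by decide +kernel⟩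

theorem c_pm_202 : CertFX 1073741824 536870912 1073741824 536870912 1046898278 26843546 false true false .pp 2 0 2
    ndF5q2 ndF7q2 pcF0 Cut.none Ext.none :=
  certFX2 (fam := false) (s1 := true) (s2 := false) (a := 2) (b := 0) (c := 2) (cn := .pp) (n1 := ndF5q2) (n2 := ndF7q2) (pc := pcF0) (cut := Cut.none) (xt := Ext.none) (P1 := 1073741824) (W1 := 536870912) (P2 := 1073741824) (W2 := 536870912) (P3 := 1046898278) (W3 := 26843546)
    rfl (fun _ => rfl) k0_pm_202

noncomputable def f_pm_203 : ℕ → ℕ → ℕ → ℕ → Bool := onCell 0 536870912 0 1230186008 1046898278 26843546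
    (rowFX 2 false true false .up 2 0 3 (qsf 1073741824 536870912 0 1230186008 0) ndF5q2 ndF7q3 pcF0 Cut.none Ext.none)

def k0_pm_203 : ∃ t, chk3 f_pm_203 t 1 1 1 = true :=
  ⟨(b (a (l 2) (b (l 3) (a (l 2) (b (b (l 3) (a (c (l 2604998328327) (l 2628083777543)) (c (l 325511544839) (l 328732770311)))) (a (c (b (l 517644222471) (l 16777216)) (b (l 555225186311) (l 16777216))) (b (c (c (l 16777216) (l 16777216)) (l 16777216)) (l 16777216))))))) (a (a (b (l 2) (b (l 2) (b (a (l 2) (l 16492152)) (a (a (c (l 16459376) (l 16455536)) (l 16542864)) (l 16651744))))) (b (b (l 2) (a (l 2) (a (l 2) (l 16777056)))) (b (b (l 252966025911) (a (l 16584728) (l 16753952))) (b (l 16709536) (a (l 16735744) (l 16773832)))))) (b (a (b (b (a (l 2) (l 16777216)) (l 371078463479)) (b (l 16777216) (l 16777216))) (b (b (l 16777216) (l 16777216)) (c (l 16777216) (l 16777216)))) (b (a (b (l 16777216) (l 16777216)) (b (a (l 16777216) (l 16670184)) (a (l 16714016) (b (l 16305072) (l 15730624))))) (a (b (a (l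 16777216) (l 16720056)) (a (b (l 16777216) (l 16658744)) (b (l 200486379495) (l 4)))) (b (a (b (l 16379672) (a (l 16167024) (l 15392024))) (b (l 15123584) (l 14988496))) (a (b (a (l 15365624) (l 4)) (l 4)) (l 4)))))))), by decide +kernel⟩

theorem c_pm_203 : CertFX 1073741824 536870912 0 1230186008 1046898278 26843546 false true false .up 2 0 3
    ndF5q2 ndF7q3 pcF0 Cut.none Ext.none :=
  certFX2 (fam := false) (s1 := true) (s2 := false) (a := 2) (b := 0) (c := 3) (cn := .up) (n1 := ndF5q2) (n2 := ndF7q3) (pc := pcF0) (cut := Cut.none) (xt := Ext.none) (P1 := 1073741824) (W1 := 536870912) (P2 := 0) (W2 := 1230186008) (P3 := 1046898278) (W3 := 26843546)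
    rfl (fun _ => rfl) k0_pm_203

noncomputable def f_pm_213 : ℕ → ℕ → ℕ → ℕ → Bool := onCell 1073741824 536870912 0 1230186008 1046898278 26843546
    (rowFX 0 false true false .pnn 2 1 3 (qsf 1073741824 536870912 0 1230186008 1) ndF5q2 ndF7q3 pcF1 Cut.none Ext.none)

def k0_pm_213 : ∃ t, chk3 f_pm_213 t 1 4 1 = true :=
  ⟨(b (a (b (a (a (a (a (c (a (l 16333992) (l 16441112)) (a (l 16197432) (l 16456608))) (c (l 16539024) (l 16707352))) (a (c (l 16547512) (l 16540592)) (l 16229752))) (a (c (l 15785744) (l 15759152)) (c (l 15217784) (l 15174592)))) (a (a (a (c (l 14823608) (l 14769888)) (l 326581110615)) (l 289001416311)) (l 3))) (a (a (a (a (l 16531320) (b (c (l 16756000) (l 16755840)) (l 16694328))) (b (a (l 16453600) (l 16154048)) (a (l 16402392) (l 16109912)))) (a (c (l 15702976) (l 15674072)) (c (l 15147432) (l 15103664)))) (a (a (a (c (l 14768424) (l 14714328)) (l 14891152)) (c (l 15549952) (l 15513408))) (a (c (l 16296872) (l 16239776)) (l 281487828039))))) (l 3)) (b (a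 (a (a (a (c (l 16607544) (l 16434336)) (l 16032160)) (a (c (l 15388216) (l 15615672)) (b (l 15089072) (b (l 15075120) (l 15066792))))) (a (a (a (b (l 14721640) (l 14725024)) (l 14891440)) (c (l 15545664) (l 15513552))) (a (l 16074104) (l 16685816)))) (a (a (a (l 16686344) (l 16686344)) (l 3)) (l 3))) (a (a (a (a (c (l 16532648) (l 16382248)) (l 16054000)) (a (l 15561320) (l 15060744))) (a (a (a (l 14762304) (c (l 14945992) (l 14923928))) (c (l 15579912) (l 15557760))) (a (c (l 16276768) (l 16327528)) (l 16705048)))) (a (a (c (l 16706488) (l 16704648)) (a (l 16705568) (l 16705568))) (a (l 3) (l 3)))))), by decide +kernel⟩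

def k1_pm_213 : ∃ t, chk3 f_pm_213 t 1 5 1 = true :=
  ⟨(b (a (a (a (b (a (c (l 16396984) (l 16311368)) (c (l 15952424) (l 15882192))) (a (c (l 16239888) (l 16146168)) (c (l 15859872) (l 15806456)))) (b (a (l 15477048) (c (l 15062984) (l 15035408))) (a (c (l 15437328) (l 15399760)) (l 15036968)))) (a (a (c (a (l 14817528) (l 14986432)) (a (l 14775048) (l 14947016))) (b (l 15608280) (l 15601136))) (a (b (l 16284520) (l 16364120)) (b (c (l 16753128) (l 16752504)) (l 16776664))))) (a (c (a (b (l 16753616) (l 16777216)) (b (l 16753616) (a (l 16777216) (l 16777216)))) (a (b (l 16753008) (l 16777216)) (b (l 16753008) (a (l 16777216) (l 16777216))))) (a (c (b (a (l 16753616) (l 16753616)) (a (l 16777216) (l 16777216))) (b (a (l 16753008) (l 16753008)) (a (l 16777216) (l 16777216)))) (a (b (l 370608584167) (c (l 16777216) (l 16777216))) (b (l 3) (l 1)))))) (b (a (a (a (a (b (l 16187888) (l 16196088)) (b (l 15812784) (l 15811056))) (a (b (l 15408368) (l 15409640)) (l 15044776))) (a (a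 (a (l 14799320) (l 14966824)) (l 15602360)) (a (l 16385096) (l 16776664)))) (a (l 16777216) (c (a (l 16777216) (l 445099540487)) (a (l 16777216) (l 471406215175))))) (a (a (a (a (b (l 16195712) (l 16187080)) (b (a (l 15916440) (l 15711440)) (l 15814944))) (c (l 15245304) (l 15206728))) (a (a (a (l 14801416) (l 14967488)) (l 15602360)) (a (l 16385096) (l 16776664)))) (a (l 16777216) (a (l 16777216) (l 1)))))), by decide +kernel⟩

def k2_pm_213 : ∃ t, chk3 f_pm_213 t 1 3 1 = true :=
  ⟨(b (a (b (a (b (a (a (b (l 16205448) (l 16234568)) (l 15816688)) (l 15227120)) (a (b (l 16030112) (l 16028920)) (l 15226952))) (a (b (a (l 14885272) (l 15602360)) (a (l 14885272) (l 15602360))) (b (a (l 16385096) (l 16776664)) (a (l 16385096) (l 16776664))))) (a (b (a (l 16026728) (l 15226904)) (a (b (l 16025616) (l 16025520)) (l 15226904))) (a (b (a (l 14885272) (l 15602360)) (a (l 14885272) (l 15602360))) (b (l 16543960) (a (l 16385096) (l 16776664)))))) (b (c (a (l 16777216) (l 253973495815)) (a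 (l 16777216) (l 16777216))) (c (l 16777216) (l 16777216)))) (a (a (b (b (b (l 15609328) (a (l 16014584) (l 15226824))) (a (b (l 15933800) (l 16012840)) (l 15226904))) (b (c (l 15603328) (l 15489496)) (l 4))) (b (a (b (l 15125768) (l 14999936)) (b (l 16585904) (l 1))) (a (a (b (l 14885272) (l 1)) (l 1)) (l 1)))) (l 1))), by decide +kernel⟩

theorem s3_pm_213 : ∃ t, chk3 f_pm_213 t 1 2 1 = true := ex3_b k0_pm_213 k1_pm_213

theorem s4_pm_213 : ∃ t, chk3 f_pm_213 t 1 1 1 = true := ex3_b s3_pm_213 k2_pm_213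

theorem c_pm_213 : CertFX 1073741824 536870912 0 1230186008 1046898278 26843546 false true false .pnn 2 1 3
    ndF5q2 ndF7q3 pcF1 Cut.none Ext.none :=
  certFX0 (fam := false) (s1 := true) (s2 := false) (a := 2) (b := 1) (c := 3) (cn := .pnn) (n1 := ndF5q2) (n2 := ndF7q3) (pc := pcF1) (cut := Cut.none) (xt := Ext.none) (P1 := 1073741824) (W1 := 536870912) (P2 := 0) (W2 := 1230186008) (P3 := 1046898278) (W3 := 26843546)
    rfl s4_pm_213

noncomputable def f_pm_303 : ℕ → ℕ → ℕ → ℕ → Bool := onCell 0 1230186008 0 1230186008 1046898278 26843546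
    (rowFX 0 false true false .npn 3 0 3 (qsf 0 1230186008 0 1230186008 0) ndF5q3 ndF7q3 pcF0 Cut.none Ext.none)

def k0_pm_303 : ∃ t, chk3 f_pm_303 t 2 1 1 = true :=
  ⟨(b (l 3) (b (b (l 3) (l 1)) (l 1))), by decide +kernel⟩

def k1_pm_303 : ∃ t, chk3 f_pm_303 t 3 2 1 = true :=
  ⟨(a (l 3) (b (l 3) (a (b (l 3) (a (l 3) (b (l 3) (a (b (l 3) (b (l 3) (l 384566792007))) (c (l 364703223031) (l 331417226471)))))) (b (a (l 3) (a (l 3) (b (l 3) (b (l 3) (l 342154543111))))) (b (b (a (l 3) (a (l 341617672199) (l 242296553479))) (a (c (l 395304763399) (l 408189665287)) (c (l 16777216) (l 16777216)))) (a (c (a (l 16777216) (l 16777216)) (a (l 321753448455) (l 16777216))) (c (c (l 16777216) (l 16777216)) (c (l 16777216) (l 16777216))))))))), by decide +kernel⟩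

def k2_pm_303 : ∃ t, chk3 f_pm_303 t 12 6 1 = true :=
  ⟨(b (a (l 3) (l 3)) (b (b (b (b (b (b (l 3) (l 1)) (l 1)) (l 1)) (l 1)) (l 1)) (l 1))), by decide +kernel⟩

def k3_pm_303 : ∃ t, chk3 f_pm_303 t 13 12 1 = true :=
  ⟨(b (a (l 3) (a (l 3) (a (l 3) (c (l 392618846855) (l 366848507271))))) (b (a (a (l 3) (c (c (b (l 3) (l 404965059479)) (l 396375261847)) (l 385100617255))) (c (a (a (b (l 3) (l 15352632)) (l 15396200)) (b (l 15695448) (l 15679728))) (a (a (l 376510998039) (l 370068880359)) (b (l 15564656) (l 15631256))))) (b (a (a (l 3) (c (c (l 316381272999) (l 320676445063)) (l 257862006759))) (c (a (a (c (l 15314040) (l 15305064)) (l 15422864)) (l 15642496)) (a (l 15084864) (l 15612888)))) (a (c (a (a (l 14816256) (l 14895840)) (c (l 15054896) (a (l 15002296) (l 15117200)))) (a (c (a (l 14772184) (l 388858036503)) (a (c (l 14724192) (l 14783096)) (l 14873320))) (c (l 14909080) (l 15033800)))) (c (a (c (l 15337624) (l 15285576)) (l 15595168)) (a (l 15302624) (l 15563032))))))),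 by decide +kernel⟩

def k4_pm_303 : ∃ t, chk3 f_pm_303 t 26 26 1 = true :=
  ⟨(b (a (c (b (b (a (b (l 14778824) (l 14768184)) (b (l 14848872) (l 14840648))) (a (l 14740832) (b (l 14843984) (l 14846936)))) (a (l 14636424) (b (l 14670720) (l 14774408)))) (b (a (c (b (a (l 14714160) (c (l 14754224) (l 14744200))) (l 14693200)) (c (b (a (l 14697288) (l 14634896)) (l 488581395063)) (b (a (b (l 14657976) (l 14677848)) (l 14736624)) (l 14681584)))) (c (b (a (l 14720848) (l 14858624)) (a (l 14650272) (l 14851240))) (b (l 14825032) (b (l 14803536) (l 14803032))))) (a (l 14610056) (c (b (a (l 14770704) (l 14803464)) (l 14764992)) (b (a (l 14761712) (l 14816880)) (l 473549040471)))))) (a (c (b (c (b (l 14943880) (l 14926808)) (l 14880744)) (c (b (l 14942720) (l 14909904)) (b (a (l 14891872) (l 14923816)) (l 14912160)))) (b (c (l 14922784) (l 14911096)) (c (b (l 14776960) (l 14875872)) (b (l 14898840) (l 14863320))))) (c (b (l 15062888) (c (b (l 15009632) (l 15000472)) (l 14999088))) (c (l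 15022568) (l 15010720))))) (a (b (c (l 14611024) (l 14603696)) (l 1)) (b (c (a (l 14871328) (b (c (l 15017912) (l 14995280)) (l 14999008))) (a (b (c (l 14837072) (a (l 14840864) (l 14895536))) (a (l 14797072) (c (l 14888776) (l 14859520)))) (c (b (l 14987944) (l 14974896)) (b (l 14977152) (l 14962920))))) (c (b (l 14782080) (l 14847456)) (a (l 14778328) (b (c (l 14957624) (a (l 14836264) (l 14974240))) (a (l 14879552) (c (l 14967624) (l 14959832))))))))), by decide +kernel⟩

def k5_pm_303 : ∃ t, chk3 f_pm_303 t 27 26 1 = true :=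
  ⟨(a (b (c (b (l 15232320) (l 15189568)) (b (l 15257424) (l 15184832))) (c (b (c (a (l 15081664) (l 15154048)) (l 15134248)) (a (b (c (l 15092608) (l 15072048)) (a (l 15054392) (l 15113472))) (c (l 15168360) (l 15148768)))) (b (l 15011616) (a (c (b (l 15065840) (l 15052768)) (b (l 15055368) (l 15041528))) (l 15118608))))) (c (b (b (l 15553408) (c (l 15451664) (l 15441136))) (b (l 15380872) (l 15317664))) (b (b (l 15520448) (l 15415432)) (b (l 15385520) (l 15338448))))), by decide +kernel⟩

def k6_pm_303 : ∃ t, chk3 f_pm_303 t 13 27 1 = true :=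
  ⟨(a (b (b (a (l 1) (c (l 14766024) (l 14571416))) (l 1)) (l 1)) (b (b (a (b (a (c (l 15048720) (b (a (l 15019936) (l 15081688)) (l 15027088))) (c (c (l 15167360) (l 15148856)) (c (l 15143704) (l 15133584)))) (c (l 15078320) (l 549248625415))) (c (a (b (l 15223560) (l 15240408)) (l 15307768)) (c (l 15288208) (l 15288592)))) (a (c (l 15022672) (a (l 14935384) (l 15093240))) (c (l 15273840) (l 15256672)))) (a (c (l 14903840) (l 14898312)) (b (c (l 15242384) (a (l 15172832) (l 15275960))) (a (l 15095384) (c (l 15263792) (l 15252504))))))), by decide +kernel⟩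

def k7_pm_303 : ∃ t, chk3 f_pm_303 t 6 7 1 = true :=
  ⟨(a (l 1) (b (a (l 1) (b (b (c (l 14936648) (l 610988870711)) (l 1)) (l 1))) (l 1))), by decide +kernel⟩

def k8_pm_303 : ∃ t, chk3 f_pm_303 t 7 6 1 = true :=
  ⟨(a (b (a (a (b (b (l 3) (c (l 16060776) (l 15895912))) (c (b (l 15980776) (l 15753088)) (b (a (l 15902304) (l 16000336)) (b (l 15893712) (l 15840024))))) (b (b (c (l 16421160) (l 16348992)) (c (l 16293272) (l 16280704))) (b (b (l 16148336) (l 16143448)) (l 16081984)))) (b (a (b (c (l 350743686519) (l 321215778871)) (c (l 16523208) (l 16516608))) (b (b (l 16688672) (a (l 16760696) (l 16777176))) (a (b (l 16733008) (l 16678616)) (l 16766408)))) (b (a (l 16402024) (l 16636344)) (a (l 16287808) (l 16510728))))) (b (a (a (b (b (l 15790008) (c (l 15742568) (l 15695296))) (c (b (l 15664384) (l 15605792)) (l 15577824))) (b (c (l 16013320) (b (l 16008768) (l 15964712))) (c (l 15891456) (l 15772368)))) (a (b (l 16147760) (c (l 16080960) (l 16058288))) (b (l 16409680) (l 16273816))))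 (a (a (b (b (c (a (l 15475200) (l 15617576)) (l 15534856)) (l 15402392)) (c (b (l 15457632) (l 15425976)) (b (l 15443192) (l 15411152)))) (b (b (c (l 15811328) (l 15787848)) (l 15736872)) (c (l 15654000) (l 15652440)))) (b (a (c (l 16008592) (l 15810016)) (l 16204904)) (a (l 15899144) (l 16124800)))))) (b (a (b (b (c (l 16777216) (l 16777216)) (l 16777216)) (a (b (l 16765976) (b (l 16736304) (l 16694200))) (l 16777216))) (b (l 16777216) (l 16777216))) (a (b (b (a (l 16606160) (l 16752536)) (a (l 16489032) (l 16682280))) (b (l 16445552) (l 16394768))) (b (c (l 16775608) (l 16775496)) (a (b (l 16732544) (l 16651792)) (b (l 16777216) (l 16761536))))))), by decide +kernel⟩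

def k9_pm_303 : ∃ t, chk3 f_pm_303 t 7 7 1 = true :=
  ⟨(a (b (b (a (b (a (b (c (a (l 15342536) (l 15458344)) (a (l 15332240) (l 15431368))) (a (l 15261776) (c (l 15421336) (l 15412024)))) (a (b (l 15528720) (c (l 15533832) (l 15517104))) (b (l 15588096) (l 15597136)))) (a (l 15102264) (b (c (a (l 15500568) (l 15609904)) (a (b (l 15504384) (l 15486392)) (l 15594416))) (a (l 15437864) (c (l 15580080) (b (l 15583272) (l 15566992))))))) (b (a (l 15794272) (l 16026800)) (a (a (b (l 15671544) (c (l 15685808) (l 15671528))) (l 15779640)) (l 15933944)))) (a (b (a (l 1) (l 15427088)) (l 1)) (b (a (b (a (c (l 15659560) (b (l 15662096) (l 15647640))) (c (l 15761528) (l 15748400))) (a (l 15606600) (c (l 15739008) (b (l 15740832) (l 15728320))))) (a (b (l 15819552) (c (l 15837032) (l 15825024))) (l 15924024))) (a (l 15619832) (b (a (c (l 15818392) (b (l 15819480) (l 15809024))) (c (l 15912288) (l 15901368))) (a (l 15779280) (c (l 15900592) (b (l 15898000) (l 15891256))))))))) (a (l 1) (a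 (l 1) (b (b (l 441876835815) (l 1)) (l 1))))) (b (a (b (b (l 16309488) (a (l 16147760) (l 16332888))) (b (a (l 16069104) (l 16261968)) (a (b (l 16031712) (a (c (l 15990432) (l 15980664)) (l 16042832))) (l 16207776)))) (b (l 16580688) (b (l 16490408) (a (l 16375408) (l 16511280))))) (a (b (b (a (b (l 16013264) (l 16004776)) (b (l 16171440) (l 16165640))) (a (l 15975928) (b (a (l 16133416) (l 16202704)) (l 16169304)))) (b (a (l 1) (l 16163648)) (l 1))) (b (b (l 16391296) (a (b (l 16313408) (l 16310312)) (l 16443280))) (b (c (a (b (l 16324264) (l 16333016)) (l 16582680)) (a (b (l 16318464) (l 16332552)) (l 16448168))) (a (l 16353712) (b (a (l 16448224) (l 16497568)) (a (l 16466232) (l 16526472))))))))), by decide +kernel⟩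

theorem s10_pm_303 : ∃ t, chk3 f_pm_303 t 7 3 1 = true := ex3_b k8_pm_303 k9_pm_303

theorem s11_pm_303 : ∃ t, chk3 f_pm_303 t 13 26 1 = true := ex3_a k4_pm_303 k5_pm_303

theorem s12_pm_303 : ∃ t, chk3 f_pm_303 t 13 13 1 = true := ex3_b s11_pm_303 k6_pm_303

theorem s13_pm_303 : ∃ t, chk3 f_pm_303 t 13 6 1 = true := ex3_b k3_pm_303 s12_pm_303

theorem s14_pm_303 : ∃ t, chk3 f_pm_303 t 6 6 1 = true := ex3_a k2_pm_303 s13_pm_303

theorem s15_pm_303 : ∃ t, chk3 f_pm_303 t 6 3 1 = true := ex3_b s14_pm_303 k7_pm_303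

theorem s16_pm_303 : ∃ t, chk3 f_pm_303 t 3 3 1 = true := ex3_a s15_pm_303 s10_pm_303

theorem s17_pm_303 : ∃ t, chk3 f_pm_303 t 3 1 1 = true := ex3_b k1_pm_303 s16_pm_303

theorem s18_pm_303 : ∃ t, chk3 f_pm_303 t 1 1 1 = true := ex3_a k0_pm_303 s17_pm_303

theorem c_pm_303 : CertFX 0 1230186008 0 1230186008 1046898278 26843546 false true false .npn 3 0 3
    ndF5q3 ndF7q3 pcF0 Cut.none Ext.none :=
  certFX0 (fam := false) (s1 := true) (s2 := false) (a := 3) (b := 0) (c := 3) (cn := .npn) (n1 := ndF5q3) (n2 := ndF7q3) (pc := pcF0) (cut := Cut.none) (xt := Ext.none) (P1 := 0) (W1 := 1230186008) (P2 := 0) (W2 := 1230186008) (P3 := 1046898278) (W3 := 26843546)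
    rfl s18_pm_303

noncomputable def f_pm_313 : ℕ → ℕ → ℕ → ℕ → Bool := onCell 0 1230186008 0 1230186008 1046898278 26843546
    (rowFX 0 false true false .dn 3 1 3 (qsf 0 1230186008 0 1230186008 1) ndF5q3 ndF7q3 pcF1 Cut.none Ext.none)

def k0_pm_313 : ∃ t, chk3 f_pm_313 t 1 1 1 = true :=
  ⟨(a (l 1) (b (b (l 3) (l 1)) (l 1))), by decide +kernel⟩

theorem c_pm_313 : CertFX 0 1230186008 0 1230186008 1046898278 26843546 false true false .dn 3 1 3
    ndF5q3 ndF7q3 pcF1 Cut.none Ext.none :=
  certFX0 (fam := false) (s1 := true) (s2 := false) (a := 3) (b := 1) (c := 3) (cn := .dn) (n1 := ndF5q3) (n2 := ndF7q3) (pc := pcF1) (cut := Cut.none) (xt := Ext.none) (P1 := 0) (W1 := 1230186008) (P2 := 0) (W2 := 1230186008) (P3 := 1046898278) (W3 := 26843546)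
    rfl k0_pm_313

noncomputable def f_mm_001 : ℕ → ℕ → ℕ → ℕ → Bool := onCell 0 536870912 0 536870912 1046898278 26843546
    (rowFX 1 false false false .up 0 0 1 (qsf 0 536870912 536870912 536870912 0) ndF5q0 ndF7q1 pcF0 Cut.none Ext.none)

def k0_mm_001 : ∃ t, chk3 f_mm_001 t 1 1 1 = true :=
  ⟨(l 3), by decide +kernel⟩

theorem c_mm_001 : CertFX 0 536870912 536870912 536870912 1046898278 26843546 false false false .up 0 0 1
    ndF5q0 ndF7q1 pcF0 Cut.none Ext.none :=
  certFX1 (fam := false) (s1 := false) (s2 := false) (a := 0) (b := 0) (c := 1) (cn := .up) (n1 := ndF5q0) (n2 := ndF7q1) (pc := pcF0) (cut := Cut.none) (xt := Ext.none) (P1 := 0) (W1 := 536870912) (P2 := 536870912) (W2 := 536870912) (P3 := 1046898278) (W3 := 26843546)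
    rfl (fun _ => rfl) k0_mm_001

noncomputable def f_mm_011 : ℕ → ℕ → ℕ → ℕ → Bool := onCell 0 536870912 536870912 536870912 1046898278 26843546
    (rowFX 1 false false false .pnn 0 1 1 (qsf 0 536870912 536870912 536870912 1) ndF5q0 ndF7q1 pcF1 Cut.none Ext.none)

def k0_mm_011 : ∃ t, chk3 f_mm_011 t 1 1 1 = true :=
  ⟨(l 5), by decide +kernel⟩

theorem c_mm_011 : CertFX 0 536870912 536870912 536870912 1046898278 26843546 false false false .pnn 0 1 1
    ndF5q0 ndF7q1 pcF1 Cut.none Ext.none :=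
  certFX1 (fam := false) (s1 := false) (s2 := false) (a := 0) (b := 1) (c := 1) (cn := .pnn) (n1 := ndF5q0) (n2 := ndF7q1) (pc := pcF1) (cut := Cut.none) (xt := Ext.none) (P1 := 0) (W1 := 536870912) (P2 := 536870912) (W2 := 536870912) (P3 := 1046898278) (W3 := 26843546)
    rfl (fun _ => rfl) k0_mm_011

noncomputable def f_mm_012 : ℕ → ℕ → ℕ → ℕ → Bool := onCell 0 536870912 1073741824 536870912 1046898278 26843546
    (rowFX 0 false false false .pnp 0 1 2 (qsf 0 536870912 1073741824 536870912 1) ndF5q0 ndF7q2 pcF1 Cut.none Ext.none)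

def k0_mm_012 : ∃ t, chk3 f_mm_012 t 1 1 1 = true :=
  ⟨(l 5), by decide +kernel⟩

theorem c_mm_012 : CertFX 0 536870912 1073741824 536870912 1046898278 26843546 false false false .pnp 0 1 2
    ndF5q0 ndF7q2 pcF1 Cut.none Ext.none :=
  certFX0 (fam := false) (s1 := false) (s2 := false) (a := 0) (b := 1) (c := 2) (cn := .pnp) (n1 := ndF5q0) (n2 := ndF7q2) (pc := pcF1) (cut := Cut.none) (xt := Ext.none) (P1 := 0) (W1 := 536870912) (P2 := 1073741824) (W2 := 536870912) (P3 := 1046898278) (W3 := 26843546)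
    rfl k0_mm_012

noncomputable def f_mm_022 : ℕ → ℕ → ℕ → ℕ → Bool := onCell 0 536870912 1073741824 536870912 1046898278 26843546
    (rowFX 0 false false false .pp 0 2 2 (qsf 0 536870912 1073741824 536870912 2) ndF5q0 ndF7q2 pcF2 Cut.none Ext.none)

def k0_mm_022 : ∃ t, chk3 f_mm_022 t 1 1 1 = true :=
  ⟨(l 5), by decide +kernel⟩

theorem c_mm_022 : CertFX 0 536870912 1073741824 536870912 1046898278 26843546 false false false .pp 0 2 2
    ndF5q0 ndF7q2 pcF2 Cut.none Ext.none :=
  certFX0 (fam := false) (s1 := false) (s2 := false) (a := 0) (b := 2) (c := 2) (cn := .pp) (n1 := ndF5q0) (n2 := ndF7q2) (pc := pcF2) (cut := Cut.none) (xt := Ext.none) (P1 := 0) (W1 := 536870912) (P2 := 1073741824) (W2 := 536870912) (P3 := 1046898278) (W3 := 26843546)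
    rfl k0_mm_022

noncomputable def f_mm_023 : ℕ → ℕ → ℕ → ℕ → Bool := onCell 0 536870912 0 1230186008 1046898278 26843546
    (rowFX 0 false false false .up 0 2 3 (qsf 0 536870912 0 1230186008 2) ndF5q0 ndF7q3 pcF2 Cut.none Ext.none)

def k0_mm_023 : ∃ t, chk3 f_mm_023 t 1 1 1 = true :=
  ⟨(l 5), by decide +kernel⟩

theorem c_mm_023 : CertFX 0 536870912 0 1230186008 1046898278 26843546 false false false .up 0 2 3
    ndF5q0 ndF7q3 pcF2 Cut.none Ext.none :=
  certFX0 (fam := false) (s1 := false) (s2 := false) (a := 0) (b := 2) (c := 3) (cn := .up) (n1 := ndF5q0) (n2 := ndF7q3) (pc := pcF2) (cut := Cut.none) (xt := Ext.none) (P1 := 0) (W1 := 536870912) (P2 := 0) (W2 := 1230186008) (P3 := 1046898278) (W3 := 26843546)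
    rfl k0_mm_023

noncomputable def f_mm_033 : ℕ → ℕ → ℕ → ℕ → Bool := onCell 0 536870912 0 1230186008 1046898278 26843546
    (rowFX 0 false false false .pnn 0 3 3 (qsf 0 536870912 0 1230186008 3) ndF5q0 ndF7q3 pcF3 Cut.none Ext.none)

def k0_mm_033 : ∃ t, chk3 f_mm_033 t 1 1 1 = true :=
  ⟨(l 5), by decide +kernel⟩

theorem c_mm_033 : CertFX 0 536870912 0 1230186008 1046898278 26843546 false false false .pnn 0 3 3
    ndF5q0 ndF7q3 pcF3 Cut.none Ext.none :=
  certFX0 (fam := false) (s1 := false) (s2 := false) (a := 0) (b := 3) (c := 3) (cn := .pnn) (n1 := ndF5q0) (n2 := ndF7q3) (pc := pcF3) (cut := Cut.none) (xt := Ext.none) (P1 := 0) (W1 := 536870912) (P2 := 0) (W2 := 1230186008) (P3 := 1046898278) (W3 := 26843546)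
    rfl k0_mm_033

noncomputable def f_mm_101 : ℕ → ℕ → ℕ → ℕ → Bool := onCell 536870912 469762048 536870912 536870912 1046898278 26843546
    (rowFX 0 false false false .npn 1 0 1 (qsf 536870912 469762048 536870912 536870912 0) ndF5q1 ndF7q1 pcF0 Cut.none Ext.none)

def k0_mm_101 : ∃ t, chk3 f_mm_101 t 1 1 1 = true :=
  ⟨(l 3), by decide +kernel⟩

theorem c_mm_101 : CertFX 536870912 469762048 536870912 536870912 1046898278 26843546 false false false .npn 1 0 1
    ndF5q1 ndF7q1 pcF0 Cut.none Ext.none :=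
  certFX0 (fam := false) (s1 := false) (s2 := false) (a := 1) (b := 0) (c := 1) (cn := .npn) (n1 := ndF5q1) (n2 := ndF7q1) (pc := pcF0) (cut := Cut.none) (xt := Ext.none) (P1 := 536870912) (W1 := 469762048) (P2 := 536870912) (W2 := 536870912) (P3 := 1046898278) (W3 := 26843546)
    rfl k0_mm_101

noncomputable def f_mm_102 : ℕ → ℕ → ℕ → ℕ → Bool := onCell 536870912 469762048 1073741824 536870912 1046898278 26843546
    (rowFX 0 false false false .npp 1 0 2 (qsf 536870912 469762048 1073741824 536870912 0) ndF5q1 ndF7q2 pcF0 Cut.none Ext.none)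

def k0_mm_102 : ∃ t, chk3 f_mm_102 t 1 1 1 = true :=
  ⟨(l 3), by decide +kernel⟩

theorem c_mm_102 : CertFX 536870912 469762048 1073741824 536870912 1046898278 26843546 false false false .npp 1 0 2
    ndF5q1 ndF7q2 pcF0 Cut.none Ext.none :=
  certFX0 (fam := false) (s1 := false) (s2 := false) (a := 1) (b := 0) (c := 2) (cn := .npp) (n1 := ndF5q1) (n2 := ndF7q2) (pc := pcF0) (cut := Cut.none) (xt := Ext.none) (P1 := 536870912) (W1 := 469762048) (P2 := 1073741824) (W2 := 536870912) (P3 := 1046898278) (W3 := 26843546)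
    rfl k0_mm_102

noncomputable def f_mm_112 : ℕ → ℕ → ℕ → ℕ → Bool := onCell 536870912 469762048 1073741824 536870912 1046898278 26843546
    (rowFX 0 false false false .dn 1 1 2 (qsf 536870912 469762048 1073741824 536870912 1) ndF5q1 ndF7q2 pcF1 Cut.none Ext.none)

def k0_mm_112 : ∃ t, chk3 f_mm_112 t 1 1 1 = true :=
  ⟨(l 3), by decide +kernel⟩

theorem c_mm_112 : CertFX 536870912 469762048 1073741824 536870912 1046898278 26843546 false false false .dn 1 1 2
    ndF5q1 ndF7q2 pcF1 Cut.none Ext.none :=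
  certFX0 (fam := false) (s1 := false) (s2 := false) (a := 1) (b := 1) (c := 2) (cn := .dn) (n1 := ndF5q1) (n2 := ndF7q2) (pc := pcF1) (cut := Cut.none) (xt := Ext.none) (P1 := 536870912) (W1 := 469762048) (P2 := 1073741824) (W2 := 536870912) (P3 := 1046898278) (W3 := 26843546)
    rfl k0_mm_112

noncomputable def f_mm_113 : ℕ → ℕ → ℕ → ℕ → Bool := onCell 536870912 469762048 0 1230186008 1046898278 26843546
    (rowFX 0 false false false .nn 1 1 3 (qsf 536870912 469762048 0 1230186008 1) ndF5q1 ndF7q3 pcF1 Cut.none Ext.none)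

def k0_mm_113 : ∃ t, chk3 f_mm_113 t 1 1 1 = true :=
  ⟨(l 5), by decide +kernel⟩

theorem c_mm_113 : CertFX 536870912 469762048 0 1230186008 1046898278 26843546 false false false .nn 1 1 3
    ndF5q1 ndF7q3 pcF1 Cut.none Ext.none :=
  certFX0 (fam := false) (s1 := false) (s2 := false) (a := 1) (b := 1) (c := 3) (cn := .nn) (n1 := ndF5q1) (n2 := ndF7q3) (pc := pcF1) (cut := Cut.none) (xt := Ext.none) (P1 := 536870912) (W1 := 469762048) (P2 := 0) (W2 := 1230186008) (P3 := 1046898278) (W3 := 26843546)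
    rfl k0_mm_113

noncomputable def f_mm_123 : ℕ → ℕ → ℕ → ℕ → Bool := onCell 536870912 469762048 0 1230186008 1046898278 26843546
    (rowFX 0 false false false .npn 1 2 3 (qsf 536870912 469762048 0 1230186008 2) ndF5q1 ndF7q3 pcF2 Cut.none Ext.none)

def k0_mm_123 : ∃ t, chk3 f_mm_123 t 1 1 1 = true :=
  ⟨(l 5), by decide +kernel⟩

theorem c_mm_123 : CertFX 536870912 469762048 0 1230186008 1046898278 26843546 false false false .npn 1 2 3
    ndF5q1 ndF7q3 pcF2 Cut.none Ext.none :=
  certFX0 (fam := false) (s1 := false) (s2 := false) (a := 1) (b := 2) (c := 3) (cn := .npn) (n1 := ndF5q1) (n2 := ndF7q3) (pc := pcF2) (cut := Cut.none) (xt := Ext.none) (P1 := 536870912) (W1 := 469762048) (P2 := 0) (W2 := 1230186008) (P3 := 1046898278) (W3 := 26843546)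
    rfl k0_mm_123

noncomputable def f_mm_133 : ℕ → ℕ → ℕ → ℕ → Bool := onCell 536870912 469762048 0 1230186008 1046898278 26843546
    (rowFX 0 false false false .dn 1 3 3 (qsf 536870912 469762048 0 1230186008 3) ndF5q1 ndF7q3 pcF3 Cut.none Ext.none)

def k0_mm_133 : ∃ t, chk3 f_mm_133 t 1 1 1 = true :=
  ⟨(l 5), by decide +kernel⟩

theorem c_mm_133 : CertFX 536870912 469762048 0 1230186008 1046898278 26843546 false false false .dn 1 3 3
    ndF5q1 ndF7q3 pcF3 Cut.none Ext.none :=
  certFX0 (fam := false) (s1 := false) (s2 := false) (a := 1) (b := 3) (c := 3) (cn := .dn) (n1 := ndF5q1) (n2 := ndF7q3) (pc := pcF3) (cut := Cut.none) (xt := Ext.none) (P1 := 536870912) (W1 := 469762048) (P2 := 0) (W2 := 1230186008) (P3 := 1046898278) (W3 := 26843546)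
    rfl k0_mm_133

noncomputable def f_mm_202 : ℕ → ℕ → ℕ → ℕ → Bool := onCell 1073741824 536870912 1073741824 536870912 1046898278 26843546
    (rowFX 0 false false false .pp 2 0 2 (qsf 1073741824 536870912 1073741824 536870912 0) ndF5q2 ndF7q2 pcF0 Cut.none Ext.none)

def k0_mm_202 : ∃ t, chk3 f_mm_202 t 1 1 1 = true :=
  ⟨(a (l 3) (b (a (l 3) (l 1)) (l 3))), by decide +kernel⟩

theorem c_mm_202 : CertFX 1073741824 536870912 1073741824 536870912 1046898278 26843546 false false false .pp 2 0 2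
    ndF5q2 ndF7q2 pcF0 Cut.none Ext.none :=
  certFX0 (fam := false) (s1 := false) (s2 := false) (a := 2) (b := 0) (c := 2) (cn := .pp) (n1 := ndF5q2) (n2 := ndF7q2) (pc := pcF0) (cut := Cut.none) (xt := Ext.none) (P1 := 1073741824) (W1 := 536870912) (P2 := 1073741824) (W2 := 536870912) (P3 := 1046898278) (W3 := 26843546)
    rfl k0_mm_202

noncomputable def f_mm_203 : ℕ → ℕ → ℕ → ℕ → Bool := onCell 1073741824 536870912 0 1230186008 1046898278 26843546
    (rowFX 0 false false false .up 2 0 3 (qsf 1073741824 536870912 0 1230186008 0) ndF5q2 ndF7q3 pcF0 Cut.none Ext.none)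

def k0_mm_203 : ∃ t, chk3 f_mm_203 t 1 1 1 = true :=
  ⟨(b (l 5) (l 3)), by decide +kernel⟩

theorem c_mm_203 : CertFX 1073741824 536870912 0 1230186008 1046898278 26843546 false false false .up 2 0 3
    ndF5q2 ndF7q3 pcF0 Cut.none Ext.none :=
  certFX0 (fam := false) (s1 := false) (s2 := false) (a := 2) (b := 0) (c := 3) (cn := .up) (n1 := ndF5q2) (n2 := ndF7q3) (pc := pcF0) (cut := Cut.none) (xt := Ext.none) (P1 := 1073741824) (W1 := 536870912) (P2 := 0) (W2 := 1230186008) (P3 := 1046898278) (W3 := 26843546)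
    rfl k0_mm_203

noncomputable def f_mm_213 : ℕ → ℕ → ℕ → ℕ → Bool := onCell 1073741824 536870912 0 1230186008 1046898278 26843546
    (rowFX 0 false false false .pnn 2 1 3 (qsf 1073741824 536870912 0 1230186008 1) ndF5q2 ndF7q3 pcF1 Cut.none Ext.none)

def k0_mm_213 : ∃ t, chk3 f_mm_213 t 1 1 1 = true :=
  ⟨(b (l 5) (l 3)), by decide +kernel⟩

theorem c_mm_213 : CertFX 1073741824 536870912 0 1230186008 1046898278 26843546 false false false .pnn 2 1 3
    ndF5q2 ndF7q3 pcF1 Cut.none Ext.none :=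
  certFX0 (fam := false) (s1 := false) (s2 := false) (a := 2) (b := 1) (c := 3) (cn := .pnn) (n1 := ndF5q2) (n2 := ndF7q3) (pc := pcF1) (cut := Cut.none) (xt := Ext.none) (P1 := 1073741824) (W1 := 536870912) (P2 := 0) (W2 := 1230186008) (P3 := 1046898278) (W3 := 26843546)
    rfl k0_mm_213

noncomputable def f_mm_303 : ℕ → ℕ → ℕ → ℕ → Bool := onCell 0 1230186008 0 1230186008 1046898278 26843546
    (rowFX 0 false false false .npn 3 0 3 (qsf 0 1230186008 0 1230186008 0) ndF5q3 ndF7q3 pcF0 Cut.none Ext.none)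

def k0_mm_303 : ∃ t, chk3 f_mm_303 t 1 1 1 = true :=
  ⟨(a (b (l 3) (b (l 3) (l 1))) (b (l 3) (a (b (l 3) (a (l 1) (l 3))) (l 3)))), by decide +kernel⟩

theorem c_mm_303 : CertFX 0 1230186008 0 1230186008 1046898278 26843546 false false false .npn 3 0 3
    ndF5q3 ndF7q3 pcF0 Cut.none Ext.none :=
  certFX0 (fam := false) (s1 := false) (s2 := false) (a := 3) (b := 0) (c := 3) (cn := .npn) (n1 := ndF5q3) (n2 := ndF7q3) (pc := pcF0) (cut := Cut.none) (xt := Ext.none) (P1 := 0) (W1 := 1230186008) (P2 := 0) (W2 := 1230186008) (P3 := 1046898278) (W3 := 26843546)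
    rfl k0_mm_303

noncomputable def f_mm_313 : ℕ → ℕ → ℕ → ℕ → Bool := onCell 0 1230186008 0 1230186008 1046898278 26843546
    (rowFX 0 false false false .dn 3 1 3 (qsf 0 1230186008 0 1230186008 1) ndF5q3 ndF7q3 pcF1 Cut.none Ext.none)

def k0_mm_313 : ∃ t, chk3 f_mm_313 t 1 1 1 = true :=
  ⟨(a (l 1) (b (l 3) (l 1))), by decide +kernel⟩

theorem c_mm_313 : CertFX 0 1230186008 0 1230186008 1046898278 26843546 false false false .dn 3 1 3
    ndF5q3 ndF7q3 pcF1 Cut.none Ext.none :=
  certFX0 (fam := false) (s1 := false) (s2 := false) (a := 3) (b := 1) (c := 3) (cn := .dn) (n1 := ndF5q3) (n2 := ndF7q3) (pc := pcF1) (cut := Cut.none) (xt := Ext.none) (P1 := 0) (W1 := 1230186008) (P2 := 0) (W2 := 1230186008) (P3 := 1046898278) (W3 := 26843546)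
    rfl k0_mm_313

end Pool.Agent.Strip051.G.IE1.Tab.C.FB57

namespace Pool.Agent.Strip051.G.IE1.Tab.C.FB60

open Pool.Agent.Strip051.PB Pool.Agent.Strip051.PB.T
open Pool.Agent.Strip051.G.IE1.Tab

noncomputable def f_pp_001 : ℕ → ℕ → ℕ → ℕ → Bool := onCell 0 536870912 536870912 536870912 1046898278 26843546
    (rowFX 2 false true true .up 0 0 1 (qsf 0 536870912 536870912 536870912 0) ndF6q0 ndF0q1 pcF0 Cut.none Ext.none)

def k0_pp_001 : ∃ t, chk3 f_pp_001 t 1 1 1 = true :=
  ⟨(b (l 3) (b (a (l 3) (a (l 3) (a (l 3) (a (l 3) (b (l 3) (b (l 3) (c (l 152102151783) (b (l 3) (l 16751728))))))))) (a (l 2) (a (b (b (b (l 3) (l 2)) (l 2)) (l 2)) (b (a (b (c (a (l 193977561703) (l 203641251223)) (a (b (l 3) (l 175723945927)) (l 167670874887))) (c (a (l 176730125799) (l 16344360)) (a (l 234712139303) (l 16354640)))) (a (c (b (l 228337313175) (l 16365336)) (b (l 135458633271) (l 16354640))) (c (b (l 258402085559) (l 16365336)) (b (l 124184331015) (l 16354640))))) (b (a (b (c (l 163308037703)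 (l 216995097479)) (l 2)) (c (b (l 16172304) (a (l 16023368) (l 16023368))) (a (b (l 16156592) (l 16007240)) (l 16081376)))) (a (l 2) (b (l 15901224) (l 15802216))))))))), by decide +kernel⟩

theorem c_pp_001 : CertFX 0 536870912 536870912 536870912 1046898278 26843546 false true true .up 0 0 1
    ndF6q0 ndF0q1 pcF0 Cut.none Ext.none :=
  certFX2 (fam := false) (s1 := true) (s2 := true) (a := 0) (b := 0) (c := 1) (cn := .up) (n1 := ndF6q0) (n2 := ndF0q1) (pc := pcF0) (cut := Cut.none) (xt := Ext.none) (P1 := 0) (W1 := 536870912) (P2 := 536870912) (W2 := 536870912) (P3 := 1046898278) (W3 := 26843546)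
    rfl (fun _ => rfl) k0_pp_001

noncomputable def f_pp_011 : ℕ → ℕ → ℕ → ℕ → Bool := onCell 0 536870912 536870912 536870912 1046898278 26843546
    (rowFX 0 false true true .pnn 0 1 1 (qsf 0 536870912 536870912 536870912 1) ndF6q0 ndF0q1 pcF1 Cut.none Ext.none)

def k0_pp_011 : ∃ t, chk3 f_pp_011 t 1 2 1 = true :=
  ⟨(a (l 3) (l 3)), by decide +kernel⟩

def k1_pp_011 : ∃ t, chk3 f_pp_011 t 2 12 1 = true :=
  ⟨(a (b (l 3) (b (l 3) (a (a (a (c (a (c (l 192902910391) (c (l 15976472) (a (l 15959088) (a (l 15983960) (b (l 120425215143) (l 15997136)))))) (c (a (a (b (l 96803002279) (l 16019008)) (c (c (l 16036104) (l 175723017607)) (b (a (l 91971139351) (l 16027368)) (l 15984920)))) (c (c (a (b (l 74791313655) (l 16045120)) (l 16041216)) (l 16034840)) (l 16021744))) (a (a (a (c (l 190755356839) (l 15999376)) (l 191292216983)) (l 16002576)) (c (l 16004600) (a (l 185923489543) (l 181091637639)))))) (a (c (a (c (l 15958312) (l 222430594151)) (c (a (l 210082630503) (l 15985000)) (a (l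 216525068215) (l 212230106583)))) (a (c (a (l 15948200) (c (l 225651853703) (l 229409937095))) (a (a (c (l 15943560) (a (l 242831696887) (l 241757959079))) (c (l 236389258071) (l 15945552))) (c (l 15952648) (l 15953096)))) (c (a (l 222967496711) (l 15969344)) (l 15967368)))) (c (a (c (b (l 116667097463) (l 15982768)) (l 205250786263)) (l 192902789671)) (c (l 207398294631) (l 15996032))))) (c (c (a (a (c (l 156395729271) (l 161764353799)) (c (c (l 16024760) (a (l 16018664) (l 145121357191))) (a (a (l 155858753047) (l 153174400935)) (l 149416352567)))) (c (a (a (a (c (l 138142141159) (l 16022184)) (l 137068318583)) (l 132773363255)) (l 125794143239)) (l 16053056))) (a (a (c (a (l 170354240215) (l 165522414455)) (l 16009960)) (l 16030424)) (l 147805778135))) (c (c (l 168206774615) (l 175722988327)) (l 186997298407)))) (b (l 3) (c (c (a (c (l 160154105863) (l 16130896)) (a (c (l 16198064) (l 121499377623)) (c (a (l 88213522679) (l 71570565319)) (l 16247128)))) (a (c (l 172501909431)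 (l 179481253447)) (l 16222872))) (c (a (l 16139160) (l 16215776)) (l 16170064))))) (a (a (a (c (c (l 83918655255) (l 16280112)) (l 16270520)) (l 3)) (l 3)) (l 3))))) (l 3)), by decide +kernel⟩

def k2_pp_011 : ∃ t, chk3 f_pp_011 t 8 13 1 = true :=
  ⟨(a (a (b (c (a (c (l 15982360) (b (c (l 15979248) (l 15935248)) (l 15982912))) (c (a (a (l 16022632) (c (l 16038448) (l 16030304))) (b (l 16031624) (l 16035016))) (a (b (c (l 16013176) (l 15998352)) (l 16009392)) (c (l 16008000) (l 15976376))))) (a (c (a (l 15963576) (b (c (l 15984760) (l 15954160)) (l 15963696))) (a (c (a (l 15954912) (l 15922080)) (a (b (c (l 15949440) (l 15947752)) (l 15955320)) (l 15958656))) (c (l 15971888) (l 15973184)))) (c (a (c (l 15986896) (l 15984976)) (l 16003064)) (l 16000632)))) (c (a (b (l 15990352) (l 15959832)) (b (c (l 16034688) (l 16016480)) (a (l 16006280) (l 16019240)))) (c (a (b (l 15982424) (a (l 15934032) (l 15965136))) (b (l 16006400) (l 15988088))) (a (b (a (l 15969816) (l 15982760)) (a (b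 (l 15964432) (l 15885680)) (l 15952856))) (l 16000040))))) (c (b (c (a (b (a (l 16023088) (c (l 16023120) (l 16018856))) (l 15985592)) (b (a (c (l 16031328) (l 16040896)) (l 16061000)) (l 16050992))) (c (a (b (a (l 16006960) (l 16026240)) (l 16020456)) (l 16065392)) (l 16050608))) (c (b (a (l 16031464) (l 16054056)) (l 16032472)) (b (l 16052808) (l 16037712)))) (b (c (b (c (l 16057088) (l 16059736)) (l 16060272)) (l 16057256)) (b (l 16063536) (l 16046360))))) (b (c (a (c (b (b (l 16125080) (l 16125312)) (l 16126264)) (b (c (l 16097416) (l 16142584)) (l 16141032))) (c (b (c (a (l 16198064) (b (c (l 16246560) (l 16247808)) (l 16246936))) (a (l 16205560) (l 16247128))) (a (l 16201592) (l 16246536))) (b (l 16222872) (l 16223136)))) (c (b (a (l 16139360) (l 16215776)) (l 16178600)) (b (l 16170184) (l 16171064)))) (c (b (a (l 16113920) (c (l 16223960) (l 16224280))) (a (l 16118448) (l 16205176))) (b (l 16176680) (l 16156152))))), by decide +kernel⟩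

def k3_pp_011 : ∃ t, chk3 f_pp_011 t 9 13 1 = true :=
  ⟨(b (a (c (c (b (a (b (c (l 16306616) (l 16303528)) (l 16305128)) (l 195588027047)) (a (l 16305128) (l 16378848))) (b (a (l 16319880) (l 16373640)) (l 16336064))) (b (a (b (l 16289680) (l 16289680)) (l 231021376679)) (a (l 16289680) (l 16365832)))) (c (b (a (c (a (l 172502690055) (l 155322860135)) (l 177334444311)) (c (l 130090021127) (l 147269883591))) (a (l 16444456) (l 16493448))) (b (a (b (l 146195902727) (l 16435816)) (l 173576454823)) (a (l 16435816) (l 16486080))))) (a (c (b (a (l 16302408) (l 16376248)) (a (l 16283416) (l 16356448))) (b (l 16327744) (l 16304544))) (b (c (l 16469104) (l 16461104)) (c (l 16448776) (l 16437120))))), by decide +kernel⟩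

def k4_pp_011 : ∃ t, chk3 f_pp_011 t 5 13 1 = true :=
  ⟨(b (b (b (l 3) (a (a (c (c (a (l 137606281655) (c (l 87677357383) (l 16584984))) (l 137606200759)) (c (l 155859805511) (l 16534088))) (l 3)) (l 3))) (a (c (a (c (a (l 16540976) (b (l 45264594055) (l 16585608))) (a (l 16537888) (l 16583104))) (c (b (a (l 16629592) (l 16672480)) (l 16651192)) (b (l 16649544) (l 16649544)))) (a (a (l 16533256) (b (l 16579344) (l 16579344))) (c (l 213305175815) (l 230485041703)))) (a (c (c (l 145122748631) (l 16712904)) (c (l 16712344) (l 16690816))) (c (l 116668753399) (l 133311751655))))) (a (c (a (b (l 16562048) (l 16541160)) (b (c (l 16651192) (l 16649544)) (l 16628800))) (a (b (l 16556456) (l 16532288)) (b (l 16626104) (l 16622680)))) (c (b (a (c (l 16734432) (l 16733880)) (c (l 16777152) (l 16777152))) (a (l 16711360) (l 16752320))) (b (a (l 16733040) (c (l 16777152) (l 16777152))) (a (l 16708232) (l 16751664)))))), by decide +kernel⟩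

def k5_pp_011 : ∃ t, chk3 f_pp_011 t 4 14 1 = true :=
  ⟨(a (b (a (a (c (a (l 15768152) (b (c (l 15923552) (l 15887536)) (l 15534152))) (a (c (l 15704080) (a (l 15573696) (l 15683080))) (b (l 15849464) (l 15680248)))) (c (b (a (c (l 15941232) (l 15925712)) (l 15975496)) (a (l 15827504) (l 15879672))) (b (l 15943768) (l 15804104)))) (b (c (l 16084768) (l 16062984)) (a (c (l 15816288) (l 15920096)) (l 16021584)))) (a (a (c (a (l 15595464) (l 15556768)) (a (c (l 15419032) (l 15280592)) (l 15456800))) (c (l 15726936) (l 15591984))) (c (a (l 15831016) (l 15917272)) (l 15546240)))) (b (a (c (b (l 16238680) (l 16149928)) (l 16154368)) (c (b (l 16362504) (l 16265216)) (l 16282688))) (b (a (a (l 15992768) (l 16056016)) (l 16137648)) (a (l 15897624) (l 16023264))))), by decide +kernel⟩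

def k6_pp_011 : ∃ t, chk3 f_pp_011 t 4 15 1 = true :=
  ⟨(a (a (a (b (c (a (l 15696120) (c (l 15769152) (l 15548880))) (a (c (a (l 15261136) (l 15294608)) (a (l 14965352) (l 15037344))) (c (l 15338784) (l 15142248)))) (c (a (b (l 16182256) (l 16048672)) (b (c (l 16091960) (l 15761032)) (c (l 16041616) (l 15965120)))) (a (c (b (l 15529584) (a (l 16039088) (c (l 16034584) (l 15885112)))) (a (b (l 14930088) (c (l 15922808) (a (l 15348680) (l 15230432)))) (b (l 14995840) (l 15295832)))) (b (l 15262480) (c (l 15652264) (l 15220568)))))) (b (c (c (l 15717944) (l 15573104)) (l 15370736)) (c (b (c (l 15808728) (l 15622992)) (a (l 15931816) (l 15786216))) (b (l 15349144) (b (l 15427056) (l 15530240)))))) (b (c (b (l 15753160) (l 15676288)) (l 15548808)) (c (b (a (l 15656256) (l 15659072)) (a (l 15695736) (l 15661656))) (b (l 15480288) (a (l 15508096) (l 15536552)))))) (b (a (b (a (l 15776328) (l 15823384)) (c (l 15740752) (l 15628272))) (b (l 15889976) (l 15747352))) (a (c (b (l 15677552)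 (l 15646920)) (b (l 15576360) (l 15562608))) (b (c (l 15691136) (l 15619240)) (l 15475408))))), by decide +kernel⟩

def k7_pp_011 : ∃ t, chk3 f_pp_011 t 5 7 1 = true :=
  ⟨(b (a (b (c (a (l 16378152) (l 16479584)) (a (l 16375432) (l 16463432))) (b (c (l 16276360) (l 16247752)) (l 16143992))) (b (c (a (b (l 16610888) (l 16500408)) (l 16510320)) (a (l 16483848) (l 16526536))) (a (c (l 16327392) (l 16312168)) (c (l 16365280) (l 16354576))))) (b (a (b (l 16007608) (l 15857336)) (l 15976128)) (a (b (l 15738112) (a (c (l 15623056) (l 15573648)) (l 15674056))) (c (l 15796320) (l 15664000))))), by decide +kernel⟩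

def k8_pp_011 : ∃ t, chk3 f_pp_011 t 3 3 1 = true :=
  ⟨(b (b (l 3) (b (a (l 3) (l 1)) (b (a (a (c (c (l 172503334919) (a (l 16777216) (l 16777216))) (c (a (l 16777216) (l 16777216)) (a (l 204715589479) (l 16777216)))) (l 3)) (l 1)) (a (a (c (a (l 16752376) (c (l 16752536) (l 16752216))) (a (l 16751728) (c (l 16751888) (l 16751568)))) (c (a (l 163913349335) (l 126869256727)) (c (a (l 16751888) (l 16751888)) (a (l 16751568) (l 16751568))))) (a (a (c (l 504692161047) (l 297996833735)) (l 1)) (l 1)))))) (b (b (a (a (a (c (l 16594264) (l 16547568)) (b (c (l 16650008) (l 16646704)) (l 16535824))) (a (c (b (l 16650008) (l 16538920)) (b (l 16646704) (l 16532736))) (c (b (l 16650008) (l 16538920)) (b (l 16625728) (l 16532736))))) (a (a (c (b (l 16650008) (l 16538920)) (b (l 16604760) (l 16532736))) (c (l 650183633591) (l 592201548551))) (l 1))) (a (b (a (c (l 16424496) (l 16415336)) (c (l 16424496) (a (l 16415336) (l 16415336)))) (a (c (l 16306800) (l 16294576)) (a (l 16300688) (c (l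 16306800) (l 16294576))))) (a (c (b (l 133176723767) (l 119754716871)) (c (l 16336336) (l 107943495095))) (a (c (l 814465663015) (l 752188613191)) (l 1))))) (a (b (a (l 16079760) (b (b (a (l 16202280) (c (l 16209656) (l 16194912))) (l 16126856)) (l 16016104))) (c (b (l 15908056) (l 15802904)) (l 15812824))) (a (b (b (c (a (l 16172304) (l 16172304)) (a (l 16156592) (l 16156592))) (l 16016104)) (b (l 15901224) (l 15802216))) (b (b (a (c (l 16172304) (l 16156592)) (l 1)) (b (c (l 106332583895) (l 146597902215)) (l 15986024))) (l 76803757751)))))), by decide +kernel⟩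

theorem s9_pp_011 : ∃ t, chk3 f_pp_011 t 4 7 1 = true := ex3_b k5_pp_011 k6_pp_011

theorem s10_pp_011 : ∃ t, chk3 f_pp_011 t 2 7 1 = true := ex3_a s9_pp_011 k7_pp_011

theorem s11_pp_011 : ∃ t, chk3 f_pp_011 t 4 13 1 = true := ex3_a k2_pp_011 k3_pp_011

theorem s12_pp_011 : ∃ t, chk3 f_pp_011 t 2 13 1 = true := ex3_a s11_pp_011 k4_pp_011

theorem s13_pp_011 : ∃ t, chk3 f_pp_011 t 2 6 1 = true := ex3_b k1_pp_011 s12_pp_011

theorem s14_pp_011 : ∃ t, chk3 f_pp_011 t 2 3 1 = true := ex3_b s13_pp_011 s10_pp_011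

theorem s15_pp_011 : ∃ t, chk3 f_pp_011 t 1 3 1 = true := ex3_a s14_pp_011 k8_pp_011

theorem s16_pp_011 : ∃ t, chk3 f_pp_011 t 1 1 1 = true := ex3_b k0_pp_011 s15_pp_011

theorem c_pp_011 : CertFX 0 536870912 536870912 536870912 1046898278 26843546 false true true .pnn 0 1 1
    ndF6q0 ndF0q1 pcF1 Cut.none Ext.none :=
  certFX0 (fam := false) (s1 := true) (s2 := true) (a := 0) (b := 1) (c := 1) (cn := .pnn) (n1 := ndF6q0) (n2 := ndF0q1) (pc := pcF1) (cut := Cut.none) (xt := Ext.none) (P1 := 0) (W1 := 536870912) (P2 := 536870912) (W2 := 536870912) (P3 := 1046898278) (W3 := 26843546)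
    rfl s16_pp_011

end Pool.Agent.Strip051.G.IE1.Tab.C.FB60

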