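import Pool.Agent.Strip051.G.IE1.Tab

/-! # Certificates F54 (generated) -/

set_option linter.all false
set_option maxRecDepth 100000

namespace Pool.Agent.Strip051.G.IE1.Tab.C.FB60

open Pool.Agent.Strip051.PB Pool.Agent.Strip051.PB.T
open Pool.Agent.Strip051.G.IE1.Tab

noncomputable def f_pp_012 : ℕ → ℕ → ℕ → ℕ → Bool := onCell 536870912 536870912 0 536870912 1046898278 26843546
    (rowFX 2 false true true .pnp 0 1 2 (qsf 0 536870912 0 536870912 1) ndF6q0 ndF0q2 pcF1 Cut.none Ext.none)

def k0_pp_012 : ∃ t, chk3 f_pp_012 t 2 1 1 = true :=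
  ⟨(b (b (a (l 2) (b (b (l 16886960) (l 16777216)) (c (l 16777216) (l 16777216)))) (a (b (l 2) (l 16777216)) (b (l 16777216) (l 16777216)))) (b (b (a (l 16777216) (l 16777216)) (a (b (l 16728592) (l 16590024)) (b (l 16728592) (l 16590024)))) (b (a (b (l 16433656) (l 16246480)) (b (l 16433656) (l 16246480))) (b (a (l 16009536) (l 15988568)) (a (c (l 15850352) (l 15845824)) (c (l 15850352) (l 15845824))))))), by decide +kernel⟩

def k1_pp_012 : ∃ t, chk3 f_pp_012 t 6 2 1 = true :=
  ⟨(b (a (b (b (a (l 16740912) (l 16451400)) (a (l 16777064) (l 16707720))) (a (l 16777184) (b (l 16768624) (l 16773728)))) (b (b (b (a (l 15930488) (b (l 15414976) (l 15553584))) (a (l 16195472) (l 15859368))) (a (b (l 16320552) (c (l 16729728) (a (l 16742088) (l 16735728)))) (b (a (b (l 16239904) (a (l 16514432) (l 16423560))) (b (l 15977496) (b (l 16111296) (l 16330296)))) (a (a (c (l 16731088) (l 16743496)) (l 16524112)) (a (l 16470408) (l 16184624)))))) (a (c (l 16748072) (l 16966520)) (a (l 16741256) (l 16475976)))))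 (a (b (l 16775280) (l 16774960)) (a (b (l 16765312) (l 16763496)) (b (l 16483136) (l 16441784))))), by decide +kernel⟩

def k2_pp_012 : ∃ t, chk3 f_pp_012 t 7 4 1 = true :=
  ⟨(a (b (b (a (b (a (l 15278184) (b (l 15018984) (l 15195408))) (a (l 15611112) (a (l 15473816) (l 15399048)))) (c (b (b (l 14532456) (l 14663880)) (b (l 15025264) (a (l 15342152) (l 15119328)))) (b (b (l 14648104) (l 14821592)) (b (l 14991712) (a (l 15275464) (l 15081536)))))) (a (a (b (b (l 15888440) (l 15947640)) (l 15901648)) (b (c (l 15588104) (a (l 15772232) (l 15612144))) (l 15774128))) (c (l 15078752) (b (l 15104096) (l 15347912))))) (a (l 15906792) (c (l 15534744) (l 15502488)))) (a (b (b (c (a (a (b (b (l 14393720) (l 14565728)) (b (l 14655384) (c (l 14928792) (l 14917920)))) (b (b (l 14296928) (l 14471368)) (b (l 14706016) (l 14790160)))) (b (c (l 14271736) (l 14298864)) (c (l 14384080) (a (l 14391320) (l 14492864))))) (b (a (b (l 14340952) (l 14498376)) (c (l 14264248) (l 14283064))) (a (a (b (l 14751008) (l 14885360))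 (b (l 14685440) (l 14767216))) (b (c (l 14302984) (l 14528472)) (l 14585384))))) (c (l 14815168) (l 14819544))) (c (l 15066440) (l 15069816))) (c (b (b (a (a (b (a (l 14221696) (l 14183432)) (l 14289296)) (c (l 14105480) (l 14134056))) (l 14018936)) (l 14318360)) (a (l 14693576) (l 14540120))) (b (b (c (a (a (b (c (l 14245240) (l 14249592)) (l 14372784)) (c (l 14185312) (l 14023080))) (a (l 14037368) (l 13942144))) (a (b (a (l 14232128) (l 13927448)) (l 14293592)) (a (c (l 14069392) (l 14067704)) (a (l 13952120) (l 13903520))))) (l 14200720)) (a (l 14745672) (l 14299904)))))), by decide +kernel⟩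

def k3_pp_012 : ∃ t, chk3 f_pp_012 t 7 5 1 = true :=
  ⟨(a (a (b (l 16142224) (b (l 16299440) (l 16379520))) (b (c (l 15784480) (l 15758744)) (c (l 16053600) (l 16034920)))) (a (b (c (l 15417104) (l 15419408)) (c (b (l 15692536) (l 15883984)) (l 15790312))) (b (c (a (l 15117448) (l 14991248)) (a (l 15158128) (l 14794664))) (b (c (l 15405816) (l 15178952)) (c (l 15641952) (l 15393464)))))), by decide +kernel⟩

def k4_pp_012 : ∃ t, chk3 f_pp_012 t 6 3 1 = true :=
  ⟨(a (b (b (l 16774632) (b (l 16725952) (l 16587232))) (b (b (l 16430712) (l 16243392)) (b (l 15920768) (c (l 15834824) (l 15807136))))) (b (b (a (l 16761648) (b (l 16725816) (l 16747736))) (b (a (l 16713000) (l 16713512)) (a (l 16573808) (a (l 16566096) (l 16583848))))) (b (a (b (l 16415952) (l 16220560)) (b (a (l 16400832) (l 16409568)) (a (l 16193128) (l 16200592)))) (a (b (l 15981680) (c (l 15761800) (l 15740336))) (b (c (l 15968312) (l 15927864)) (c (l 15715288) (a (l 15679152) (l 15673688)))))))), by decide +kernel⟩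

def k5_pp_012 : ∃ t, chk3 f_pp_012 t 7 6 1 = true :=
  ⟨(a (b (a (b (l 16466352) (l 16562024)) (b (l 16266096) (l 16423008))) (b (a (l 16632080) (l 16546040)) (a (l 16617440) (b (l 16587816) (l 16603664))))) (b (a (c (b (l 16081560) (l 16285720)) (l 16059488)) (c (b (l 15801360) (a (l 16161584) (l 16103008))) (a (l 15890016) (b (l 15838168) (l 16100408))))) (a (b (c (l 16454240) (l 16453936)) (b (l 16525184) (c (l 16568912) (l 16564184)))) (b (c (a (l 16369288) (l 16331992)) (a (l 16377344) (b (l 16288040) (l 16368336)))) (a (c (l 16446560) (l 16424216)) (c (l 16495344) (b (l 16448448) (l 16530568)))))))), by decide +kernel⟩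

def k6_pp_012 : ∃ t, chk3 f_pp_012 t 7 7 1 = true :=
  ⟨(a (b (b (a (l 16470912) (l 16532248)) (c (l 16321616) (l 16305952))) (b (a (l 15965880) (l 16065296)) (a (c (l 15767344) (l 15727304)) (b (l 15902376) (c (l 15748832) (l 15689376)))))) (b (a (b (c (l 16505648) (l 16498560)) (c (l 16367472) (l 16357688))) (b (a (c (l 16500456) (l 16493200)) (b (l 16495544) (c (l 16375096) (l 16471256)))) (c (a (b (l 16403872) (l 16324440)) (b (c (l 16415960) (l 16406280)) (c (l 16339736) (l 16323576)))) (a (l 16353440) (b (l 16399064) (l 16311160)))))) (a (b (c (a (l 16207744) (b (l 16244968) (l 16178296))) (l 16209512)) (c (b (a (l 15982560) (l 16052904)) (a (l 15802760) (l 15870600))) (b (l 15995488) (c (l 15777984) (l 15742128))))) (b (c (a (b (l 16244912) (l 16184776)) (b (c (l 16271656) (l 16240584)) (c (a (l 16201056) (l 16206048)) (l 16182176)))) (a (l 16197568) (b (l 16221624) (l 16157960)))) (c (a (b (l 16121112) (c (a (l 15994776) (l 16057016)) (l 15967128))) (b (c (a (l 16131296) (b (l 16136952)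 (a (l 16095496) (l 16071152)))) (a (l 16117680) (b (l 16135968) (l 16088280)))) (a (b (l 15917976) (c (a (l 16026232) (l 16012384)) (a (l 16024672) (l 16009904)))) (b (c (a (l 16045368) (l 16032112)) (a (l 16044832) (b (l 16040968) (l 16020088)))) (a (c (l 16017216) (l 15991384)) (l 16015488)))))) (a (b (l 16102584) (c (l 15918704) (l 15882944))) (b (c (a (l 16101456) (b (l 16116680) (l 16082688))) (l 16086136)) (c (a (b (l 16047464) (l 15966800)) (b (a (l 16046408) (c (l 16033256) (l 16037032))) (a (b (l 16014096) (l 15987352)) (b (l 15854592) (l 15989632))))) (a (l 16024384) (b (l 16029720) (a (l 16000608) (c (b (l 15998176) (l 15980456)) (b (l 15995424) (l 15955792)))))))))))))), by decide +kernel⟩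

theorem s7_pp_012 : ∃ t, chk3 f_pp_012 t 7 3 1 = true := ex3_b k5_pp_012 k6_pp_012

theorem s8_pp_012 : ∃ t, chk3 f_pp_012 t 3 3 1 = true := ex3_a k4_pp_012 s7_pp_012

theorem s9_pp_012 : ∃ t, chk3 f_pp_012 t 7 2 1 = true := ex3_b k2_pp_012 k3_pp_012

theorem s10_pp_012 : ∃ t, chk3 f_pp_012 t 3 2 1 = true := ex3_a k1_pp_012 s9_pp_012

theorem s11_pp_012 : ∃ t, chk3 f_pp_012 t 3 1 1 = true := ex3_b s10_pp_012 s8_pp_012

theorem s12_pp_012 : ∃ t, chk3 f_pp_012 t 1 1 1 = true := ex3_a k0_pp_012 s11_pp_012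

theorem c_pp_012 : CertFX 0 536870912 0 536870912 1046898278 26843546 false true true .pnp 0 1 2
    ndF6q0 ndF0q2 pcF1 Cut.none Ext.none :=
  certFX2 (fam := false) (s1 := true) (s2 := true) (a := 0) (b := 1) (c := 2) (cn := .pnp) (n1 := ndF6q0) (n2 := ndF0q2) (pc := pcF1) (cut := Cut.none) (xt := Ext.none) (P1 := 0) (W1 := 536870912) (P2 := 0) (W2 := 536870912) (P3 := 1046898278) (W3 := 26843546)
    rfl (fun _ => rfl) s12_pp_012

noncomputable def f_pp_022 : ℕ → ℕ → ℕ → ℕ → Bool := onCell 0 536870912 0 536870912 1046898278 26843546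
    (rowFX 0 false true true .pp 0 2 2 (qsf 0 536870912 0 536870912 2) ndF6q0 ndF0q2 pcF2 Cut.none Ext.none)

def k0_pp_022 : ∃ t, chk3 f_pp_022 t 4 4 1 = true :=
  ⟨(a (a (a (b (c (a (l 15874896) (a (l 15788624) (b (l 15745440) (l 15734176)))) (a (c (l 15854944) (a (l 15868640) (l 15815680))) (c (l 15709480) (l 15729968)))) (c (a (b (l 15853312) (l 15817352)) (b (a (l 15760680) (l 15715584)) (a (l 15731944) (l 15698728)))) (c (a (a (l 15843928) (l 15719816)) (b (l 15725984) (l 15702136))) (a (a (l 15830600) (l 15771464)) (l 15503624))))) (b (c (c (l 15639776) (l 15614520)) (l 15575968)) (c (c (l 15636560) (l 15611104)) (l 15572240)))) (b (c (a (l 15401784) (l 15192880)) (b (l 15237048) (l 15267016))) (c (a (l 15450464) (l 15294728)) (b (l 15308496) (l 15353520))))) (a (c (b (a (b (l 14963896) (l 15024632)) (l 14791976)) (a (c (l 15137400) (l 15142824)) (l 14954704))) (b (a (l 14965960) (l 14774968)) (a (l 15111440) (l 14941400)))) (c (b (c (l 14480664) (l 14498480)) (c (l 14682648) (l 14687856)))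 (b (c (l 14501016) (l 14477000)) (c (l 14690768) (l 14670824)))))), by decide +kernel⟩

def k1_pp_022 : ∃ t, chk3 f_pp_022 t 4 5 1 = true :=
  ⟨(a (a (a (b (c (a (b (l 15734200) (l 15751624)) (c (l 15704352) (l 15698168))) (a (b (c (a (l 15773336) (l 15727096)) (a (l 15633176) (l 15715088))) (c (l 15728904) (a (l 15724656) (l 15703888)))) (c (l 15686008) (l 15663296)))) (c (a (b (l 15759696) (l 15795896)) (c (b (l 15729344) (l 15779888)) (a (l 15745896) (l 15749776)))) (a (c (a (l 15756872) (b (l 15727824) (l 15768176))) (a (c (l 15745592) (l 15738104)) (l 15732384))) (c (b (l 15711816) (l 15763832)) (l 15711680))))) (c (b (c (l 15591544) (l 15628912)) (b (c (l 15714920) (l 15689840)) (c (a (l 15795608) (l 15795752)) (l 15769160)))) (b (l 15589912) (b (l 15651520) (l 15731968))))) (a (b (c (l 15364032) (l 15484864)) (c (b (l 15634248) (c (l 15745680) (l 15724008))) (b (l 15597720) (l 15697552)))) (b (c (b (l 15384376) (c (l 15468400) (l 15460760))) (l 15246152)) (c (b (c (l 15545624) (l 15542640))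 (c (l 15623088) (l 15617688))) (b (l 15519960) (l 15602136)))))) (b (a (c (b (a (l 15248256) (l 15076064)) (l 15199064)) (b (l 15149336) (l 15222488))) (c (b (l 14836040) (l 14936352)) (c (l 14878928) (l 14871080)))) (b (a (c (c (l 15319720) (l 15322240)) (l 15307248)) (c (l 15039584) (l 14915984))) (a (c (c (l 15405768) (l 15406936)) (l 15229864)) (c (l 15148760) (l 15123656)))))), by decide +kernel⟩

def k2_pp_022 : ∃ t, chk3 f_pp_022 t 5 2 1 = true :=
  ⟨(a (b (c (b (l 14015136) (l 14266200)) (c (b (l 13724680) (l 14228192)) (a (b (l 14113280) (l 14347856)) (l 2846516895127)))) (c (b (l 14515488) (l 14661672)) (b (a (c (l 14596336) (l 14579280)) (l 1)) (b (l 14633136) (l 14781984))))) (l 1)), by decide +kernel⟩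

def k3_pp_022 : ∃ t, chk3 f_pp_022 t 16 12 1 = true :=
  ⟨(c (a (a (b (c (l 15877736) (l 15860616)) (c (l 15999296) (l 15983640))) (c (b (a (l 15864024) (l 15874704)) (a (c (l 15998456) (l 15995168)) (l 16012272))) (b (a (l 15860760) (l 15879256)) (a (l 15996968) (l 16023088))))) (b (a (c (l 15904432) (l 15889168)) (c (l 15911520) (l 15882712))) (a (c (b (l 16009848) (a (l 16083544) (l 16091208))) (b (l 15999544) (l 16073896))) (c (b (l 16008176) (l 16056008)) (l 16003176))))) (a (a (c (a (b (l 15847376) (l 15967528)) (b (l 15805016) (c (l 15976496) (l 15975416)))) (a (c (b (l 15836864) (l 15958104)) (b (l 15829888) (a (l 15949128) (l 15955240)))) (b (l 15836440) (l 15967624)))) (c (b (l 15857824) (a (l 15995336) (l 16006768))) (b (l 15836528) (l 15979640)))) (b (c (l 15857696) (l 15840344)) (c (b (l 15960376) (l 16023480)) (l 15844632))))), by decide +kernel⟩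

def k4_pp_022 : ∃ t, chk3 f_pp_022 t 16 13 2 = true :=
  ⟨(a (b (a (c (b (l 16106952) (l 16140056)) (a (l 16108872) (b (l 16094880) (a (l 16131120) (l 16129984))))) (c (a (b (a (l 16107512) (l 16112272)) (a (l 16132400) (l 16123904))) (b (l 16122272) (l 16117784))) (a (b (l 16113800) (l 16131048)) (b (l 16134304) (l 16130072))))) (a (b (c (l 16153768) (a (l 16154408) (l 16131432))) (a (l 16133824) (b (c (l 16128248) (l 16114688)) (l 16005224)))) (c (a (b (l 16112256) (a (l 16087272) (b (l 16091568) (l 16062880)))) (b (l 16099144) (l 16073008))) (a (b (l 16114736) (b (l 16099448) (l 16069224))) (b (l 16110168) (c (l 16082528) (l 16062488))))))) (b (c (a (a (l 16123072) (c (l 16116232) (l 16115848))) (l 16077728)) (a (b (l 16116888) (l 16099968)) (l 16048728))) (a (c (b (l 16073104) (a (l 16076552) (b (l 16081448) (l 16062488)))) (b (l 16082176) (b (l 16069384) (l 16047216)))) (b (l 15916848) (c (l 16000528) (l 16006784)))))), by decide +kernel⟩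

def k5_pp_022 : ∃ t, chk3 f_pp_022 t 16 13 3 = true :=
  ⟨(a (a (b (c (a (l 16093832) (c (b (l 16089696) (l 16124560)) (b (l 16089416) (l 16061640)))) (a (c (a (l 16080968) (l 16088984)) (a (c (l 16076768) (l 16074008)) (l 16085288))) (c (b (l 16086024) (l 16121384)) (l 16092976)))) (c (a (b (l 16139744) (l 16110984)) (b (a (l 16129944) (l 16121848)) (c (a (l 16093120) (l 16088280)) (a (l 16093104) (l 16092448))))) (a (b (c (a (l 16134616) (l 16131864)) (a (c (l 16130632) (l 16128016)) (l 16128416))) (c (a (l 16107032) (b (l 16117040) (l 16080664))) (a (c (l 16102880) (l 16016264)) (l 16093856)))) (b (c (l 16123448) (l 16114320)) (c (l 16087904) (l 16078432)))))) (b (c (b (a (l 16113840) (l 16119248)) (a (c (l 16136072) (l 16129760)) (l 16114744))) (b (l 16093968) (l 16101688))) (c (b (a (l 16114984) (l 16094640)) (a (c (l 16087960) (l 16081208)) (l 16065704))) (b (l 16084000) (l 16052536))))) (b (c (b (l 16061496) (l 16046016)) (l 16038104)) (b (c (l 16027960) (l 16012048)) (c (b (l 16014752)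 (l 15972768)) (l 15925304))))), by decide +kernel⟩

def k6_pp_022 : ∃ t, chk3 f_pp_022 t 17 6 1 = true :=
  ⟨(b (c (b (a (c (l 15841888) (a (l 15852592) (l 15793232))) (c (l 15701256) (l 15696208))) (c (a (l 15931616) (l 15793576)) (a (l 15910712) (l 15785264)))) (b (b (l 15532784) (l 15769032)) (c (l 15839936) (l 15829064)))) (c (b (c (a (l 15981432) (b (l 15855904) (l 15852056))) (a (b (l 15963952) (l 15951744)) (l 15840600))) (a (b (c (l 15967064) (l 15938368)) (c (l 15957464) (a (l 15930704) (l 15898512)))) (c (b (l 15845976) (a (l 15868248) (l 15811064))) (b (l 15828368) (l 15822448))))) (b (c (b (l 15896248) (l 15885168)) (l 15754480)) (a (b (l 15917656) (b (l 15906728) (c (l 15901488) (l 15891184)))) (b (l 15814544) (b (l 15805936) (l 15801024))))))), by decide +kernel⟩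

def k7_pp_022 : ∃ t, chk3 f_pp_022 t 9 6 1 = true :=
  ⟨(b (c (a (b (c (l 15503752) (l 15498168)) (c (l 15613096) (l 15603344))) (b (l 15264816) (l 15387984))) (a (b (c (l 15494992) (l 15483792)) (c (l 15448856) (l 15503976))) (b (c (l 15239880) (l 15226808)) (c (l 15361880) (l 15347296))))) (a (b (c (c (l 15686072) (l 15673432)) (b (a (l 15718296) (l 15597800)) (a (l 15712424) (l 15596792)))) (c (a (b (l 15728808) (a (l 15749920) (l 15697304))) (l 15619840)) (a (b (l 15704752) (l 15698016)) (l 15590600)))) (b (c (l 15448928) (l 702794635751)) (l 1)))), by decide +kernel⟩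

def k8_pp_022 : ∃ t, chk3 f_pp_022 t 8 14 1 = true :=
  ⟨(a (a (c (a (b (c (l 16012424) (b (l 16014120) (l 15958472))) (c (l 15860520) (b (l 15883240) (l 15801848)))) (b (c (a (b (l 16011264) (l 15938416)) (l 15968608)) (a (c (l 15949560) (l 15974360)) (c (l 15977168) (l 15977392)))) (c (a (b (l 15866976) (l 15789488)) (l 15826296)) (a (c (l 15822536) (l 15825680)) (c (l 15833976) (l 15833400)))))) (a (c (b (a (l 15991728) (c (a (l 15976768) (l 15973952)) (a (l 15976072) (l 15977560)))) (a (l 15833288) (c (a (l 15821624) (l 15820984)) (a (l 15820040) (l 15823872))))) (a (b (c (a (l 15985344) (l 15956792)) (a (c (l 15980544) (l 15977392)) (l 15973288))) (c (a (l 15824192) (l 15755704)) (a (c (l 15818552) (l 15772888)) (l 15813096)))) (b (c (l 15971336) (l 15960944)) (c (l 15815408) (l 15803776))))) (c (b (a (c (l 15977056) (l 15969480)) (l 15958232)) (a (c (l 15827640) (l 15818944)) (l 15812336))) (b (l 15920696) (l 15707320))))) (c (b (c (a (a (l 15976624) (c (l 15981552) (l 15975936))) (l 15911056))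 (a (b (l 15951872) (l 15925512)) (l 15914840))) (c (a (b (l 15876632) (l 15804960)) (l 15805240)) (a (c (l 15726152) (l 15814176)) (l 15785240)))) (b (c (b (l 15941984) (l 15874344)) (l 15805672)) (c (b (l 15808256) (l 15736072)) (b (l 15788904) (l 15715600)))))) (b (c (a (c (l 15879568) (b (l 15876328) (l 15817688))) (c (a (l 15801624) (b (l 15777216) (l 15729504))) (b (l 15784472) (l 15733928)))) (a (b (l 15851352) (l 15749384)) (b (l 15765544) (l 15713880)))) (c (a (c (b (l 15795872) (l 15734312)) (b (l 15760704) (l 15697824))) (c (b (a (l 15726648) (l 15683576)) (l 258802815335)) (b (l 15685136) (l 15630568)))) (a (b (l 15691032) (l 15668576)) (b (l 15663968) (l 15608104)))))), by decide +kernel⟩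

def k9_pp_022 : ∃ t, chk3 f_pp_022 t 9 14 1 = true :=
  ⟨(a (a (b (c (b (a (l 15721480) (l 15672952)) (l 149818086439)) (b (b (l 15681040) (l 15660240)) (l 15628312))) (l 1)) (l 1)) (l 1)), by decide +kernel⟩

def k10_pp_022 : ∃ t, chk3 f_pp_022 t 4 15 1 = true :=
  ⟨(a (b (a (a (c (a (c (l 15726888) (c (l 15717128) (l 15663888))) (c (a (b (l 15727040) (l 15675672)) (l 15702536)) (a (c (l 15699872) (l 15700856)) (c (l 15716304) (l 15713456))))) (a (c (a (l 15698712) (c (l 15692160) (a (l 15688016) (l 15694288)))) (a (c (a (l 15687104) (l 15683600)) (a (c (l 15680728) (l 15676520)) (l 15677192))) (c (l 15683704) (l 15670968)))) (c (a (c (l 15702272) (l 15692616)) (l 15690672)) (l 15665200)))) (a (c (c (b (l 15748424) (l 15703104)) (b (l 15723400) (l 15692408))) (b (l 15675328) (l 15646152))) (c (b (l 15672600) (c (l 15700304) (l 15666112))) (b (l 15651024) (l 15626056))))) (b (a (a (c (l 15679464) (l 15626984)) (l 1)) (l 1)) (l 1))) (a (a (c (a (c (l 15663496) (b (l 15593256) (l 15643408))) (c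 (a (b (l 15639256) (l 15642880)) (l 15649360)) (a (b (l 15650000) (l 15640384)) (b (l 15666432) (l 1))))) (a (c (a (b (l 15653792) (l 15634448)) (b (c (l 15648848) (l 15649600)) (c (l 15629688) (l 15631920)))) (a (c (b (l 15642608) (a (l 15627400) (l 15626552))) (c (a (l 15632448) (l 15633600)) (b (l 15631328) (l 15619816)))) (b (l 15638512) (c (l 15630928) (l 15621704))))) (c (b (a (l 15615512) (l 15655688)) (c (l 392483745911) (l 15636808))) (b (l 15629664) (l 377451335671))))) (a (b (b (c (c (l 15675344) (l 15673240)) (l 15634720)) (l 1)) (l 1)) (l 1))) (l 1))) (l 1)), by decide +kernel⟩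

def k11_pp_022 : ∃ t, chk3 f_pp_022 t 5 3 1 = true :=
  ⟨(b (l 1) (l 1)), by decide +kernel⟩

def k12_pp_022 : ∃ t, chk3 f_pp_022 t 3 1 1 = true :=
  ⟨(l 1), by decide +kernel⟩

theorem s13_pp_022 : ∃ t, chk3 f_pp_022 t 4 14 1 = true := ex3_a k8_pp_022 k9_pp_022

theorem s14_pp_022 : ∃ t, chk3 f_pp_022 t 4 7 1 = true := ex3_b s13_pp_022 k10_pp_022

theorem s15_pp_022 : ∃ t, chk3 f_pp_022 t 16 13 1 = true := ex3_c k4_pp_022 k5_pp_022

theorem s16_pp_022 : ∃ t, chk3 f_pp_022 t 16 6 1 = true := ex3_b k3_pp_022 s15_pp_022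

theorem s17_pp_022 : ∃ t, chk3 f_pp_022 t 8 6 1 = true := ex3_a s16_pp_022 k6_pp_022

theorem s18_pp_022 : ∃ t, chk3 f_pp_022 t 4 6 1 = true := ex3_a s17_pp_022 k7_pp_022

theorem s19_pp_022 : ∃ t, chk3 f_pp_022 t 4 3 1 = true := ex3_b s18_pp_022 s14_pp_022

theorem s20_pp_022 : ∃ t, chk3 f_pp_022 t 2 3 1 = true := ex3_a s19_pp_022 k11_pp_022

theorem s21_pp_022 : ∃ t, chk3 f_pp_022 t 4 2 1 = true := ex3_b k0_pp_022 k1_pp_022

theorem s22_pp_022 : ∃ t, chk3 f_pp_022 t 2 2 1 = true := ex3_a s21_pp_022 k2_pp_022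

theorem s23_pp_022 : ∃ t, chk3 f_pp_022 t 2 1 1 = true := ex3_b s22_pp_022 s20_pp_022

theorem s24_pp_022 : ∃ t, chk3 f_pp_022 t 1 1 1 = true := ex3_a s23_pp_022 k12_pp_022

theorem c_pp_022 : CertFX 0 536870912 0 536870912 1046898278 26843546 false true true .pp 0 2 2
    ndF6q0 ndF0q2 pcF2 Cut.none Ext.none :=
  certFX0 (fam := false) (s1 := true) (s2 := true) (a := 0) (b := 2) (c := 2) (cn := .pp) (n1 := ndF6q0) (n2 := ndF0q2) (pc := pcF2) (cut := Cut.none) (xt := Ext.none) (P1 := 0) (W1 := 536870912) (P2 := 0) (W2 := 536870912) (P3 := 1046898278) (W3 := 26843546)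
    rfl s24_pp_022

noncomputable def f_pp_101 : ℕ → ℕ → ℕ → ℕ → Bool := onCell 0 536870912 536870912 536870912 1046898278 26843546
    (rowFX 2 false true true .npn 1 0 1 (qsf 536870912 469762048 536870912 536870912 0) ndF6q1 ndF0q1 pcF0 Cut.none Ext.none)

def k0_pp_101 : ∃ t, chk3 f_pp_101 t 2 2 1 = true :=
  ⟨(l 3), by decide +kernel⟩

def k1_pp_101 : ∃ t, chk3 f_pp_101 t 4 6 1 = true :=
  ⟨(l 3), by decide +kernel⟩

def k2_pp_101 : ∃ t, chk3 f_pp_101 t 8 14 1 = true :=
  ⟨(l 3), by decide +kernel⟩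

def k3_pp_101 : ∃ t, chk3 f_pp_101 t 8 30 1 = true :=
  ⟨(l 3), by decide +kernel⟩

def k4_pp_101 : ∃ t, chk3 f_pp_101 t 8 62 1 = true :=
  ⟨(a (l 3) (b (l 3) (b (l 3) (b (l 3) (a (l 3) (a (l 3) (a (l 3) (a (l 3) (a (l 3) (c (c (c (l 273971091591) (l 311015184343)) (c (l 367923493015) (l 276118547463))) (c (l 16360072) (l 16354672)))))))))))), by decide +kernel⟩

def k5_pp_101 : ∃ t, chk3 f_pp_101 t 8 252 1 = true :=
  ⟨(a (l 2) (a (b (l 3) (l 2)) (c (a (a (b (l 3) (a (b (l 3) (l 2)) (c (c (b (c (l 367386853095) (l 302425465383)) (c (a (l 246590905431) (l 16451456)) (l 260012668007))) (c (l 251959604631) (c (b (l 306720481159) (l 253570252647)) (l 246054030503)))) (c (c (l 241222164935) (b (c (l 394230375479) (l 361481266615)) (c (l 16468640) (l 16464896)))) (l 227263510151))))) (c (a (b (l 3) (c (c (l 261086355639) (l 253570176407)) (c (c (l 16473416) (l 244980268503)) (l 239074673991)))) (c (b (l 272897511335) (b (l 256791362647) (l 16458048))) (c (b (l 344301338519) (c (l 248201467271) (l 16462016)))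 (l 238537740743)))) (b (c (c (l 358259995335) (l 395304070535)) (l 432885047303)) (c (c (a (l 232095324583) (l 16445608)) (b (l 225115967783) (l 16446040))) (l 213304807415))))) (c (c (a (c (b (l 278266180759) (l 16434704)) (a (c (l 254106977143) (a (l 250348897511) (l 250348886455))) (b (c (l 256791316599) (l 16417168)) (l 16414920)))) (c (c (a (l 259475621959) (b (a (l 264307459751) (l 16364320)) (l 16409168))) (a (b (b (l 275581787735) (l 16386688)) (l 16423056)) (l 16398088))) (l 250348786247))) (b (a (l 248201361415) (l 221894707831)) (a (l 16435776) (l 16403504)))) (c (a (c (b (l 231021474535) (l 16422560)) (b (l 240685210871) (l 16412432))) (c (l 228873916263) (l 221357719287))) (b (l 211694050791) (l 16402080))))) (a (a (b (l 3) (a (b (l 3) (l 2)) (c (c (b (l 482814080839) (c (l 16476104) (l 224042325735))) (b (l 512878875767) (l 248671288807))) (b (a (l 3) (l 577303376375)) (a (l 256791470743) (c (l 16481208) (l 192366945031))))))) (c (b (c (l 511805028247) (l 542943555431)) (c (b (l 199346174375)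 (l 16459120)) (l 16440288))) (b (l 554754757175) (b (l 174650126327) (l 16462400))))) (c (c (b (a (c (l 201493585015) (l 16416936)) (l 16362640)) (l 16370000)) (a (l 185387462711) (l 16393632))) (a (l 174650031815) (l 16389976))))))), by decide +kernel⟩

def k6_pp_101 : ∃ t, chk3 f_pp_101 t 8 253 1 = true :=
  ⟨(a (l 2) (a (l 2) (a (a (b (a (l 2) (c (c (c (c (l 224512090391) (l 16490704)) (c (l 16497664) (l 240081367703))) (c (c (l 16491520) (l 16478112)) (l 16475544))) (c (c (l 16484072) (l 261556189687)) (l 16491496)))) (l 2)) (c (c (a (c (c (b (c (l 16482416) (l 16482112)) (l 16506256)) (l 16475832)) (c (b (c (l 16492336) (l 16494480)) (l 16513424)) (l 16478440))) (c (b (l 16476600) (l 16501832)) (c (b (l 16482680) (l 16505760)) (l 16485784)))) (c (b (c (l 16470936) (a (l 16465672) (l 16451808))) (l 214311480839)) (b (l 16459064) (l 16472680)))) (c (c (b (l 16467592) (l 16477480)) (b (c (l 16453720) (l 16477040)) (l 16485952))) (b (b (l 16450088) (l 16479088)) (l 16489800))))) (c (c (c (a (c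 (l 16473032) (a (c (l 16483112) (l 16484928)) (l 16450400))) (c (a (l 16459160) (l 16446448)) (l 16447736))) (b (l 16439696) (l 16421160))) (c (a (a (b (l 16444240) (l 16443656)) (l 16439192)) (l 16416944)) (l 16425936))) (c (c (l 16431952) (b (l 16431968) (l 16446576))) (l 16378080)))))), by decide +kernel⟩

def k7_pp_101 : ∃ t, chk3 f_pp_101 t 8 127 1 = true :=
  ⟨(a (l 2) (a (l 2) (a (b (b (a (l 2) (c (c (c (l 227196479895) (l 240081372135)) (c (l 16504072) (l 16487496))) (c (l 16493152) (l 16501112)))) (l 2)) (l 2)) (c (c (c (c (a (b (l 16524688) (l 16573600)) (b (l 16463720) (b (l 16545768) (l 16528320)))) (a (b (a (l 16532136) (l 16522784)) (b (l 16561312) (l 2))) (l 16483904))) (b (l 16457488) (l 16546704))) (b (c (a (l 16469512) (l 16463440)) (l 16463048)) (c (l 16480952) (l 16506608)))) (c (b (b (l 16458976) (l 16474312)) (l 16503072)) (b (c (a (l 16445048) (l 16461296)) (l 16474568)) (b (c (l 16494088) (l 16498032)) (l 16470576)))))))), by decide +kernel⟩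

def k8_pp_101 : ∃ t, chk3 f_pp_101 t 9 14 1 = true :=
  ⟨(l 3), by decide +kernel⟩

def k9_pp_101 : ∃ t, chk3 f_pp_101 t 9 30 2 = true :=
  ⟨(a (l 3) (b (l 3) (a (l 3) (b (l 3) (a (l 3) (a (l 3) (c (l 303498805911) (l 306719913479)))))))), by decide +kernel⟩

def k10_pp_101 : ∃ t, chk3 f_pp_101 t 72 31 2 = true :=
  ⟨(b (b (l 3) (b (l 3) (a (b (l 3) (c (a (c (l 273971086247) (l 255717465111)) (c (l 279339763095) (l 257328044135))) (c (c (l 16332624) (l 278266030311)) (l 275044740423)))) (c (b (c (c (l 275581581351) (l 263770418231)) (l 307793833655)) (c (b (a (l 271823511415) (l 265381024807)) (l 16314072)) (b (l 261622961815) (l 16308536)))) (c (b (l 271286638039) (l 258401678679)) (b (l 276118407271) (l 258938553367))))))) (b (c (c (b (a (b (b (l 16356768) (l 16367232)) (l 16383440)) (b (l 16331000) (l 16354184))) (l 16366184)) (b (a (b (l 16353240) (l 16373272)) (l 16335096)) (l 16394320))) (c (b (a (c (l 16354880) (l 16349152)) (b (l 16318008) (l 16336544))) (a (l 16390624) (l 16368496)))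 (b (b (l 16334736) (l 16348712)) (l 16375600)))) (c (b (l 16435808) (a (l 16522848) (l 16504128))) (a (b (l 16435416) (l 16467208)) (b (l 16417208) (l 16471968)))))), by decide +kernel⟩

def k11_pp_101 : ∃ t, chk3 f_pp_101 t 73 31 2 = true :=
  ⟨(b (b (l 3) (b (a (l 3) (b (l 3) (c (c (c (b (l 3) (c (b (l 3) (l 278265758087)) (l 268602122023))) (l 282560765655)) (l 321752352327)) (c (l 268602161463) (l 285782030855))))) (c (b (c (a (c (b (a (l 3) (l 275581490679)) (a (l 273970901879) (l 277192092935))) (a (l 268065312103) (l 266991550743))) (b (c (a (b (l 275581464151) (l 271823340487)) (c (l 280413254327) (l 16210672))) (l 268602124871)) (c (l 16221672) (l 16242128)))) (a (a (l 256791043383) (l 253032917415)) (l 262696580423))) (a (c (a (l 16264248) (l 16273512)) (a (l 16282184) (l 16271448))) (c (l 16260136) (l 16259544)))) (c (a (b (a (l 269139092087) (l 268065322711)) (l 16276984)) (b (l 256254099895) (l 16262144))) (a (b (b (l 286855837479) (c (l 16271848) (l 16275848))) (l 16283768)) (b (b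 (l 16251080) (l 16257128)) (l 16269952))))))) (b (c (b (a (b (c (l 16303216) (l 16298376)) (l 16324768)) (l 16294904)) (a (l 16365576) (l 16347808))) (b (c (a (l 16283840) (l 16290184)) (a (l 16308312) (l 16294720))) (c (l 16341336) (l 16339592)))) (c (b (l 16416528) (l 16476776)) (b (l 16393416) (l 16429232))))), by decide +kernel⟩

def k12_pp_101 : ∃ t, chk3 f_pp_101 t 37 62 2 = true :=
  ⟨(a (b (l 3) (b (a (b (l 3) (a (b (l 3) (c (c (c (b (b (l 3) (b (l 3) (c (a (l 3) (a (l 3) (a (l 16201840) (c (l 268065206935) (l 16201184))))) (l 310477977207)))) (c (c (a (l 292224419143) (a (l 16206928) (l 16204568))) (l 272360146839)) (l 268602054903))) (l 255180293847)) (l 16195944)) (c (l 262159673959) (l 16211968)))) (c (c (b (l 404430433799) (a (c (b (c (b (l 396914226983) (l 256254047591)) (l 16204920)) (a (c (b (l 16202832) (l 16204464)) (l 16204752)) (l 16205616))) (l 16187384)) (b (l 250885314119) (l 16210216)))) (l 232094866983)) (c (b (l 16207520) (l 16205624)) (l 269675863319))))) (c (c (b (l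 401746106087) (c (b (a (l 244979739831) (l 16199136)) (l 16196688)) (l 16200368))) (l 231021133591)) (c (b (l 323362990135) (l 253569732855)) (l 268602129207)))) (c (a (b (c (a (c (l 16202056) (l 16224104)) (b (a (c (l 16190056) (l 16212960)) (l 16191328)) (l 16199792))) (a (l 16228376) (l 16202040))) (c (l 16242376) (l 16243736))) (b (c (c (l 16201264) (l 16202960)) (l 16229128)) (c (l 16212672) (l 16215480)))) (c (a (b (a (l 16236184) (l 16231824)) (l 16248728)) (b (l 16238432) (l 16243216))) (a (b (b (l 16239488) (l 16245008)) (l 16257568)) (b (l 16245592) (l 16252840))))))) (b (a (l 3) (b (l 3) (c (c (l 421073502599) (l 337858562743)) (l 306720024487)))) (c (b (c (b (a (l 238000479927) (l 250348531879)) (a (l 16213120) (l 16249104))) (b (l 233705512039) (l 16249928))) (c (l 16249464) (l 16254256))) (b (b (c (a (l 257327867063) (l 16267344)) (l 264844057959)) (c (l 16260304) (l 16266056))) (c (l 16262496) (l 16271072)))))), by decide +kernel⟩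

def k13_pp_101 : ∃ t, chk3 f_pp_101 t 37 63 2 = true :=
  ⟨(b (c (a (b (a (l 16278064) (b (l 16250912) (l 16273184))) (l 16322488)) (b (a (l 16260448) (l 16273016)) (l 16299704))) (a (b (c (b (l 16260632) (l 16279752)) (l 16276888)) (l 16315240)) (b (a (l 16247760) (l 16281856)) (l 16277552)))) (c (b (a (l 16382408) (l 16349920)) (l 16423824)) (b (a (l 16366608) (l 16341232)) (l 16387280)))), by decide +kernel⟩

def k14_pp_101 : ∃ t, chk3 f_pp_101 t 19 31 2 = true :=
  ⟨(b (a (a (b (b (l 3) (c (c (b (l 432884721479) (a (l 239611147927) (l 16253600))) (b (l 298666975895) (l 241758629111))) (b (l 299203885479) (a (l 262159750151) (l 253569835239))))) (c (b (c (l 16270016) (l 16279344)) (l 16282320)) (b (c (b (l 16289088) (l 16290392)) (l 16292760)) (l 16254464)))) (b (c (b (c (l 441474718407) (l 309941357319)) (c (a (l 246053636215) (l 16279360)) (b (l 241758691543) (l 16304712)))) (b (l 295982705271) (b (l 257327958407) (l 16310576)))) (c (b (l 16299840) (l 16302816)) (b (c (l 16313000) (l 16317352))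 (l 16317280))))) (b (a (c (b (c (b (l 379734570423) (l 16322312)) (l 245516846535)) (c (l 16315864) (l 16326048))) (b (b (l 318531322903) (l 256791132983)) (a (l 16325392) (l 16313896)))) (a (c (b (b (c (l 224042009319) (l 16335056)) (l 16333576)) (l 16329384)) (b (b (a (l 16313776) (l 270749777687)) (l 16336576)) (l 16339392))) (c (b (c (l 222431304055) (l 233705609079)) (l 16307664)) (b (b (l 16303928) (l 16323640)) (l 16317704))))) (c (a (l 16316792) (l 16322928)) (c (a (l 16306840) (l 16334080)) (b (l 16318304) (l 16338112)))))) (a (b (c (a (l 16306712) (l 16321624)) (a (l 16291504) (l 16327688))) (a (c (b (l 16346448) (l 16382336)) (b (l 16341808) (l 16376432))) (l 16362016))) (b (c (l 16326736) (a (l 16332752) (l 16332824))) (b (l 16346592) (l 16362768))))), by decide +kernel⟩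

def k15_pp_101 : ∃ t, chk3 f_pp_101 t 9 30 3 = true :=
  ⟨(a (l 3) (b (l 3) (a (l 3) (b (l 3) (a (l 3) (a (l 3) (b (l 3) (c (l 304572559799) (l 301888192375))))))))), by decide +kernel⟩

def k16_pp_101 : ∃ t, chk3 f_pp_101 t 18 31 3 = true :=
  ⟨(b (a (b (l 3) (b (a (l 3) (b (l 3) (c (l 301888141591) (l 314772996455)))) (a (b (c (l 297056388647) (l 316383725063)) (c (a (l 295445857031) (l 16311992)) (l 158006828087))) (c (b (a (l 292761368455) (l 16252224)) (a (l 16287272) (l 16273344))) (a (b (l 307256863911) (l 16280960)) (l 16256264)))))) (b (a (l 3) (a (l 3) (c (l 287392683335) (l 301888184791)))) (b (a (b (c (l 286855748119) (l 301888119671)) (a (c (a (l 291150695111) (l 282023894439)) (a (l 302961837815) (l 288466331207))) (c (l 16238432) (l 16231584)))) (a (c (l 272360236887) (a (l 277192076791) (l 269675896135))) (c (l 239611136967) (l 205788269431)))) (a (c (a (b (l 16240568) (l 16260856)) (b (l 16245160) (l 16256096))) (a (b (l 16233768) (l 16254240)) (b (l 16238456) (l 16249448))))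 (c (l 16272784) (l 16266304)))))) (b (a (a (c (b (c (a (l 16341904) (l 16337952)) (l 16352920)) (c (l 16381312) (l 16388288))) (b (l 16348888) (l 16389584))) (c (b (c (a (l 16316016) (l 16302352)) (l 16311624)) (c (l 16345088) (l 16351856))) (b (l 16307224) (l 16352832)))) (c (a (b (a (l 16289832) (l 16257560)) (l 16323160)) (b (b (l 16281192) (l 16289936)) (c (l 16304360) (l 16310920)))) (a (b (l 16282144) (l 16327120)) (b (l 16283976) (l 16311584))))) (a (a (c (b (l 16421992) (l 16468952)) (b (l 16407872) (b (l 16459944) (l 16480584)))) (c (b (l 16390672) (l 16441344)) (b (l 16397176) (b (l 16432608) (l 16453496))))) (b (c (l 16353464) (l 16359568)) (c (l 16401640) (b (l 16393800) (l 16413416))))))), by decide +kernel⟩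

def k17_pp_101 : ∃ t, chk3 f_pp_101 t 19 31 3 = true :=
  ⟨(a (a (b (b (b (l 3) (c (b (l 284708358215) (a (l 275581515527) (l 16264288))) (b (l 298130118375) (a (l 280950224343) (l 224041929175))))) (c (b (l 16267256) (l 16303760)) (a (l 16261280) (l 16297480)))) (b (c (b (l 16315736) (l 16327328)) (l 16323160)) (b (c (l 16343088) (l 16349160)) (c (l 16371872) (l 16330856))))) (c (b (b (b (l 284708404119) (b (a (l 273434078087) (l 16306328)) (l 16304776))) (b (l 16313144) (l 16325016))) (b (b (l 16333200) (l 16340872)) (l 16359672))) (b (b (b (l 298130164919) (b (a (l 277729045079) (l 234779394295)) (l 16298936))) (b (l 16307504) (l 16319408))) (b (l 16338960) (b (l 16357392) (l 16366656)))))) (b (b (a (c (b (b (l 296519604167) (a (l 272897252567) (l 260549242567))) (a (l 16319760) (l 16329408))) (b (b (l 295982721911) (a (l 276118478055) (l 238000663991))) (a (l 16314160) (l 16323992)))) (b (a (b (a (c (l 276655384071) (l 282560963719)) (c (b (l 289003377591) (l 254643659351)) (b (l 290077119143)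 (a (l 16324712) (l 16320936))))) (c (l 16310176) (l 16325712))) (b (c (l 16298008) (l 16292080)) (a (c (l 16326640) (l 16321168)) (l 16307752)))) (a (l 16331376) (a (l 16333696) (b (l 16326944) (l 16335720)))))) (a (c (b (l 16331048) (l 16337976)) (l 16329112)) (c (l 16341248) (l 16335760)))) (b (c (b (l 16342184) (l 16342880)) (l 16344664)) (b (c (l 16346080) (l 16352392)) (l 16358768))))), by decide +kernel⟩

def k18_pp_101 : ∃ t, chk3 f_pp_101 t 5 6 1 = true :=
  ⟨(l 3), by decide +kernel⟩

def k19_pp_101 : ∃ t, chk3 f_pp_101 t 5 14 1 = true :=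
  ⟨(a (l 3) (a (l 3) (b (l 3) (a (l 3) (a (l 3) (b (l 3) (c (l 450601505527) (l 444158967223)))))))), by decide +kernel⟩

def k20_pp_101 : ∃ t, chk3 f_pp_101 t 20 30 1 = true :=
  ⟨(b (l 3) (a (b (l 3) (b (a (l 3) (a (l 3) (c (c (l 300277245127) (l 301350926695)) (b (l 3) (c (l 299203484567) (l 294371628327)))))) (c (c (a (l 270749467383) (b (l 16139552) (l 16158304))) (a (b (l 303498696391) (l 247127184663)) (a (l 269138778487) (l 257864415943)))) (c (a (a (l 296519418279) (l 287392451767)) (a (l 267528145799) (l 256790652119))) (c (a (b (l 300814316007) (l 261622681479)) (b (l 263769973207) (l 16136432))) (a (l 278802579815) (l 244979478871))))))) (a (b (l 3) (c (b (c (l 282023524455) (c (l 286855242887) (a (l 292760954919) (l 283097204391)))) (c (l 16074520) (a (l 16084344) (l 16046624)))) (a (b (b (l 3) (c (l 278802294631) (l 267527961335))) (c (l 16075272) (l 16066200))) (b (b (c (l 295445202567) (l 305645729191)) (c (l 199345372231) (l 244442437607))) (c (l 16037016) (l 16027408)))))) (b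 (a (l 3) (b (l 3) (c (c (l 293297583159) (l 296518785223)) (c (b (l 3) (l 292760676551)) (l 331415347703))))) (c (b (c (b (l 176259809799) (l 15974984)) (b (c (l 181091648023) (a (l 282560242807) (l 227799340503))) (l 15985096))) (c (l 16001112) (l 15991016))) (b (c (b (a (b (l 291150153927) (l 233168124887)) (b (l 251421642135) (l 15921344))) (a (l 15971704) (l 15934960))) (c (a (l 254106000359) (l 242831638903)) (l 241757880487))) (c (l 15980600) (l 15970192)))))))), by decide +kernel⟩

def k21_pp_101 : ∃ t, chk3 f_pp_101 t 21 60 1 = true :=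
  ⟨(a (l 3) (a (l 3) (b (l 3) (a (l 3) (c (c (l 394766044935) (l 395839760887)) (c (l 407650895079) (l 427515092967))))))), by decide +kernel⟩

def k22_pp_101 : ∃ t, chk3 f_pp_101 t 42 61 1 = true :=
  ⟨(b (b (a (l 3) (a (l 3) (b (l 3) (c (c (l 287391694887) (l 291686592167)) (c (l 326046344391) (l 374901569303)))))) (c (c (a (l 273970125047) (b (l 221893488215) (l 15807776))) (a (b (a (l 3) (l 293297406919)) (a (l 279338834423) (l 251421482551))) (b (a (l 278264930455) (l 260548120791)) (a (l 15811568) (l 15777296))))) (a (c (b (a (l 3) (l 309403508615)) (a (l 277191347511) (l 264843255543))) (b (l 343763257639) (c (l 260548220647) (l 15815160)))) (c (a (c (l 268601266039) (l 264843156407)) (c (l 262158757543) (l 260011273719))) (c (l 253031861415) (l 244978780135)))))) (b (c (c (a (l 15896288) (l 15828016)) (a (b (c (l 15878784) (l 15872696)) (l 15892816)) (l 15814952))) (c (a (b (a (l 15881496) (l 15845760)) (l 15880920)) (l 15801896)) (a (c (l 15842216) (l 15857168)) (l 15788832)))) (c (c (l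 15855040) (l 15885336)) (c (l 15789496) (l 15840456))))), by decide +kernel⟩

def k23_pp_101 : ∃ t, chk3 f_pp_101 t 43 61 1 = true :=
  ⟨(b (b (a (a (b (l 3) (b (b (l 3) (c (c (l 280412307751) (c (l 306182043223) (l 316919461223))) (c (c (l 327656879639) (l 339468039719)) (l 357184779911)))) (c (c (l 15738528) (l 263232381527)) (c (l 265916735575) (l 15695008))))) (a (b (l 3) (c (c (a (b (l 234778254439) (a (l 15720176) (l 15718464))) (l 213303431079)) (b (c (b (l 15718408) (l 233167619175)) (l 262158599127)) (a (b (a (l 15704120) (l 15703592)) (l 15704696)) (l 15706168)))) (c (b (c (l 263769211495) (l 15673096)) (a (c (l 15672992) (l 15665600)) (l 15670416))) (b (l 15683040) (a (l 15654504) (l 15676608)))))) (c (c (l 225651509127) (l 250347504839)) (c (b (l 387786470759) (l 15706896)) (l 251421252839))))) (c (c (l 216524759895) (a (l 243368246791) (l 15780576))) (c (c (l 261621782039) (l 261621761223)) (l 254105551495)))) (a (a (c (c (l 15752176) (l 15737904)) (c (l 15723632) (l 15709360))) (b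 (c (b (a (c (a (l 15723368) (l 15717160)) (a (l 15708640) (b (l 15701608) (l 15701984)))) (c (l 15721736) (l 15706968))) (a (l 15717440) (c (a (l 15714536) (l 15715704)) (a (l 15699680) (l 15700864))))) (c (a (a (l 15696752) (l 15668712)) (b (l 15692208) (l 15665368))) (a (l 15678824) (l 15675456)))) (c (c (l 15725608) (l 15689968)) (c (l 15696272) (l 15681608))))) (b (c (c (l 15752056) (l 15737736)) (c (l 15723424) (l 15709104))) (c (c (l 15713352) (l 15719776)) (c (a (l 15691376) (l 15718616)) (l 15690672)))))) (c (a (c (l 15779368) (l 15765816)) (b (a (a (l 15693616) (b (b (l 15704400) (l 15700336)) (l 15707528))) (l 15696040)) (c (l 15737912) (l 15723832)))) (a (c (l 15752048) (l 15738272)) (b (a (c (b (l 15663448) (l 15693232)) (l 15676176)) (c (l 15695024) (l 15680360))) (a (l 15713840) (l 15688312)))))), by decide +kernel⟩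

def k24_pp_101 : ∃ t, chk3 f_pp_101 t 10 31 1 = true :=
  ⟨(a (b (c (b (a (c (b (c (a (l 16256096) (l 16180368)) (a (l 16262008) (l 16185744))) (a (b (l 16282984) (l 16297552)) (l 16212072))) (a (b (l 16257448) (b (l 16289288) (l 16309288))) (b (l 16180368) (l 16220480)))) (c (b (a (l 16103736) (l 16029128)) (l 16095488)) (a (l 16121944) (l 16045632)))) (a (c (a (b (l 16309920) (l 16318208)) (l 16258440)) (a (b (a (l 16337064) (l 16315064)) (l 16333144)) (b (l 16255216) (l 16287976)))) (c (l 16138296) (a (l 16188832) (l 16109992))))) (b (a (a (a (b (c (l 16270360) (l 16264096)) (b (l 16300376) (l 16320352))) (c (l 16231664) (l 16225224))) (b (c (l 16172768) (l 16165160)) (l 16210064))) (a (c (l 16113344) (l 16104960)) (c (l 16035928) (l 16026448)))) (a (a (b (a (l 16335192) (l 16312760)) (c (l 16341344) (l 16336208))) (b (l 16251656) (l 16293424))) (a (l 16188824) (l 16108280))))) (c (a (b (a (l 16328944) (b (l 16245032) (l 16321480))) (l 16341984)) (b (c (l 16209568) (l 16151424)) (a (l 16319136)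 (l 16265920)))) (b (a (c (a (l 16340952) (b (l 16320968) (l 16331384))) (a (l 16342232) (l 16324936))) (c (a (l 16264472) (l 16182704)) (l 16223040))) (a (c (l 16339624) (b (l 16340656) (l 16344240))) (b (c (l 16248888) (a (l 16312336) (l 16241280))) (a (l 16333536) (l 16288560))))))) (b (c (b (a (c (b (l 15925688) (l 15954960)) (l 15920056)) (c (l 15809400) (l 15808200))) (c (a (l 15998072) (l 15868960)) (a (l 16007008) (l 15875936)))) (a (b (a (l 15959392) (l 15889656)) (l 15940128)) (b (c (l 15794976) (l 15781968)) (l 15869016)))) (c (b (a (l 16031864) (l 15945720)) (a (l 16166592) (l 16037072))) (c (b (a (l 16080400) (l 15949424)) (l 16009912)) (b (l 15864272) (a (l 16162792) (l 16028432))))))), by decide +kernel⟩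

def k25_pp_101 : ∃ t, chk3 f_pp_101 t 22 15 1 = true :=
  ⟨(b (b (a (b (l 3) (a (b (l 3) (c (c (l 240147272199) (l 261085180983)) (c (b (l 413019664455) (l 265916936183)) (l 270211872103)))) (c (c (l 247126726903) (a (l 263769675495) (l 257327277015))) (c (a (l 268064619255) (l 261622221575)) (l 258400946663))))) (c (c (b (l 414630751847) (a (l 250884796471) (l 16047416))) (b (l 438253053191) (a (l 261622182711) (l 16037496)))) (b (c (l 468854676407) (l 503751266903)) (c (a (b (l 273970289431) (l 15956600)) (l 16006608)) (a (l 249274125431) (l 16017656)))))) (c (b (a (c (a (l 15817312) (l 15872608)) (a (l 15741040) (l 15860104))) (c (l 15954336) (l 15943136))) (a (b (l 15787928) (c (l 15772136) (l 15758576))) (l 15786864))) (a (b (c (a (b (l 15809432) (l 15771856)) (l 15847600)) (a (l 15777240) (l 15835088))) (a (b (l 15730992) (l 15707768)) (l 15778848))) (b (c (l 15931944) (l 15920752)) (l 15846632))))) (b (c (a (b (a (b (c (l 15729240) (l 15701784)) (c (l 15735864) (l 15737120))) (c (l 15757488)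 (l 15755472))) (a (l 15779496) (c (l 15737888) (l 15742792)))) (b (c (l 15845752) (l 15845176)) (c (l 15790432) (l 15796192)))) (a (a (b (a (l 15712048) (l 15705056)) (l 15772720)) (b (l 15734520) (l 15732768))) (c (l 15812568) (l 15799968)))) (b (c (a (l 15822728) (a (b (l 15743560) (l 15756272)) (l 15778176))) (a (l 15777656) (a (c (l 15754456) (l 15747200)) (l 15773656)))) (c (l 15774640) (a (l 15899984) (l 15768120)))))), by decide +kernel⟩

def k26_pp_101 : ∃ t, chk3 f_pp_101 t 23 15 1 = true :=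
  ⟨(b (b (a (c (c (b (a (l 283634256855) (l 268601964791)) (a (l 16095968) (l 16133312))) (b (a (l 269675730423) (l 271286299111)) (a (l 16086872) (l 16124864)))) (b (a (c (l 269138843095) (l 270749314887)) (c (l 265917589431) (l 252495800327))) (a (c (l 16077776) (l 16068672)) (a (l 16105848) (l 16118376))))) (c (c (l 175186590407) (l 244979527831)) (c (l 236389593255) (l 16110720)))) (c (a (b (a (l 16023664) (l 16054784)) (a (l 15966376) (l 15990416))) (b (l 16059776) (l 15994200))) (a (a (b (l 16003776) (l 15944752)) (b (l 16035976) (l 15969624))) (c (l 16012112) (l 16002368))))) (b (c (a (a (b (l 15917216) (l 15866936)) (b (l 15933632) (l 15875144))) (c (l 15905712) (l 15908248))) (a (a (l 15884488) (l 15897264)) (l 15899120))) (b (a (b (c (l 15810608) (l 15829792)) (l 15787944)) (c (l 15819832) (l 15816712))) (c (l 15781352) (l 15765936))))), by decide +kernel⟩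

def k27_pp_101 : ∃ t, chk3 f_pp_101 t 3 2 1 = true :=
  ⟨(l 3), by decide +kernel⟩

def k28_pp_101 : ∃ t, chk3 f_pp_101 t 3 6 1 = true :=
  ⟨(a (l 3) (a (l 3) (l 1))), by decide +kernel⟩

def k29_pp_101 : ∃ t, chk3 f_pp_101 t 3 14 1 = true :=
  ⟨(b (a (a (l 3) (a (l 3) (c (l 222431838007) (l 439864610775)))) (a (c (a (l 232095396455) (l 415571043735)) (a (l 234242867975) (l 424697824007))) (l 1))) (a (a (a (b (l 3) (b (c (l 521468546695) (a (l 3) (l 450601613895))) (c (c (l 203104001431) (l 210620194311)) (c (l 209546452279) (l 229410562423))))) (b (c (l 548312267879) (l 433958745303)) (c (a (l 213304446423) (l 16306800)) (c (l 214915058535) (l 210083206135))))) (c (a (b (l 223505235047) (l 16306800)) (b (l 16424496) (l 16306800))) (a (b (l 234779503255) (l 16294576)) (b (l 16373392) (l 16294576))))) (a (c (a (b (l 16424496) (l 16306800)) (l 16344360)) (a (b (l 16415336) (l 16294576)) (l 16354640))) (a (c (l 16365336) (l 16354640)) (l 1))))), by decide +kernel⟩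

def k30_pp_101 : ∃ t, chk3 f_pp_101 t 3 15 1 = true :=
  ⟨(b (a (a (c (a (b (c (l 16218176) (a (l 16168376) (l 16168376))) (c (l 16037656) (l 16021856))) (b (c (l 16176232) (l 16168376)) (c (l 16037656) (l 16021856)))) (a (b (c (a (l 16160520) (l 16160520)) (l 16152664)) (c (l 16012112) (l 16002368))) (b (c (l 16160520) (l 16152664)) (l 16007240)))) (c (a (b (l 16172304) (l 16023368)) (b (l 16172304) (l 16023368))) (a (b (l 16156592) (l 16007240)) (b (l 16156592) (l 16007240))))) (a (c (a (b (l 16172304) (l 16023368)) (b (l 16172304) (l 16023368))) (a (b (l 16156592) (l 16007240)) (l 15976520))) (a (c (b (l 16172304) (l 16023368)) (b (l 16156592) (l 16007240))) (c (l 478920661079) (l 16060408))))) (b (a (a (c (a (c (l 15905712) (l 15908248)) (c (l 15905712) (l 15908248))) (a (c (l 15902536) (l 15891408)) (l 15899120))) (c (a (l 15908056) (l 15908056)) (a (l 15899120) (l 15899120)))) (a (a (c (l 15908056) (l 15899120)) (l 15901224)) (l 15901224))) (b (a (a (a (c (l 15819832) (l 15816712)) (l 15825344))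 (l 15825344)) (l 15678544)) (a (c (l 15781240) (l 15765824)) (l 15777520))))), by decide +kernel⟩

theorem s31_pp_101 : ∃ t, chk3 f_pp_101 t 3 7 1 = true := ex3_b k29_pp_101 k30_pp_101

theorem s32_pp_101 : ∃ t, chk3 f_pp_101 t 3 3 1 = true := ex3_b k28_pp_101 s31_pp_101

theorem s33_pp_101 : ∃ t, chk3 f_pp_101 t 3 1 1 = true := ex3_b k27_pp_101 s32_pp_101

theorem s34_pp_101 : ∃ t, chk3 f_pp_101 t 11 15 1 = true := ex3_a k25_pp_101 k26_pp_101

theorem s35_pp_101 : ∃ t, chk3 f_pp_101 t 21 61 1 = true := ex3_a k22_pp_101 k23_pp_101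

theorem s36_pp_101 : ∃ t, chk3 f_pp_101 t 21 30 1 = true := ex3_b k21_pp_101 s35_pp_101

theorem s37_pp_101 : ∃ t, chk3 f_pp_101 t 10 30 1 = true := ex3_a k20_pp_101 s36_pp_101

theorem s38_pp_101 : ∃ t, chk3 f_pp_101 t 10 15 1 = true := ex3_b s37_pp_101 k24_pp_101

theorem s39_pp_101 : ∃ t, chk3 f_pp_101 t 5 15 1 = true := ex3_a s38_pp_101 s34_pp_101

theorem s40_pp_101 : ∃ t, chk3 f_pp_101 t 5 7 1 = true := ex3_b k19_pp_101 s39_pp_101

theorem s41_pp_101 : ∃ t, chk3 f_pp_101 t 5 3 1 = true := ex3_b k18_pp_101 s40_pp_101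

theorem s42_pp_101 : ∃ t, chk3 f_pp_101 t 9 31 3 = true := ex3_a k16_pp_101 k17_pp_101

theorem s43_pp_101 : ∃ t, chk3 f_pp_101 t 9 15 3 = true := ex3_b k15_pp_101 s42_pp_101

theorem s44_pp_101 : ∃ t, chk3 f_pp_101 t 37 31 2 = true := ex3_b k12_pp_101 k13_pp_101

theorem s45_pp_101 : ∃ t, chk3 f_pp_101 t 36 31 2 = true := ex3_a k10_pp_101 k11_pp_101

theorem s46_pp_101 : ∃ t, chk3 f_pp_101 t 18 31 2 = true := ex3_a s45_pp_101 s44_pp_101

theorem s47_pp_101 : ∃ t, chk3 f_pp_101 t 9 31 2 = true := ex3_a s46_pp_101 k14_pp_101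

theorem s48_pp_101 : ∃ t, chk3 f_pp_101 t 9 15 2 = true := ex3_b k9_pp_101 s47_pp_101

theorem s49_pp_101 : ∃ t, chk3 f_pp_101 t 9 15 1 = true := ex3_c s48_pp_101 s43_pp_101

theorem s50_pp_101 : ∃ t, chk3 f_pp_101 t 9 7 1 = true := ex3_b k8_pp_101 s49_pp_101

theorem s51_pp_101 : ∃ t, chk3 f_pp_101 t 8 126 1 = true := ex3_b k5_pp_101 k6_pp_101

theorem s52_pp_101 : ∃ t, chk3 f_pp_101 t 8 63 1 = true := ex3_b s51_pp_101 k7_pp_101

theorem s53_pp_101 : ∃ t, chk3 f_pp_101 t 8 31 1 = true := ex3_b k4_pp_101 s52_pp_101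

theorem s54_pp_101 : ∃ t, chk3 f_pp_101 t 8 15 1 = true := ex3_b k3_pp_101 s53_pp_101

theorem s55_pp_101 : ∃ t, chk3 f_pp_101 t 8 7 1 = true := ex3_b k2_pp_101 s54_pp_101

theorem s56_pp_101 : ∃ t, chk3 f_pp_101 t 4 7 1 = true := ex3_a s55_pp_101 s50_pp_101

theorem s57_pp_101 : ∃ t, chk3 f_pp_101 t 4 3 1 = true := ex3_b k1_pp_101 s56_pp_101

theorem s58_pp_101 : ∃ t, chk3 f_pp_101 t 2 3 1 = true := ex3_a s57_pp_101 s41_pp_101

theorem s59_pp_101 : ∃ t, chk3 f_pp_101 t 2 1 1 = true := ex3_b k0_pp_101 s58_pp_101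

theorem s60_pp_101 : ∃ t, chk3 f_pp_101 t 1 1 1 = true := ex3_a s59_pp_101 s33_pp_101

theorem c_pp_101 : CertFX 536870912 469762048 536870912 536870912 1046898278 26843546 false true true .npn 1 0 1
    ndF6q1 ndF0q1 pcF0 Cut.none Ext.none :=
  certFX2 (fam := false) (s1 := true) (s2 := true) (a := 1) (b := 0) (c := 1) (cn := .npn) (n1 := ndF6q1) (n2 := ndF0q1) (pc := pcF0) (cut := Cut.none) (xt := Ext.none) (P1 := 536870912) (W1 := 469762048) (P2 := 536870912) (W2 := 536870912) (P3 := 1046898278) (W3 := 26843546)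
    rfl (fun _ => rfl) s60_pp_101

noncomputable def f_pp_102 : ℕ → ℕ → ℕ → ℕ → Bool := onCell 536870912 469762048 0 536870912 1046898278 26843546
    (rowFX 0 false true true .npp 1 0 2 (qsf 536870912 469762048 0 536870912 0) ndF6q1 ndF0q2 pcF0 Cut.none Ext.none)

def k0_pp_102 : ∃ t, chk3 f_pp_102 t 1 2 1 = true :=
  ⟨(a (a (l 2) (b (b (l 16777216) (l 16777216)) (b (l 16777216) (c (l 16777216) (l 16777216))))) (a (b (a (l 16777216) (c (l 16434592) (l 16278888))) (a (c (l 16777216) (l 16777216)) (c (a (l 16651432) (l 16211048)) (a (l 16648168) (l 16196344))))) (a (b (c (l 15587632) (l 15556728)) (c (l 15587632) (b (l 15556728) (l 15556728)))) (b (b (c (l 14889192) (l 14938992)) (a (l 15182144) (b (l 14719952) (l 14578544)))) (b (a (l 15182144) (c (l 14826776) (l 14797712))) (a (b (c (l 15202720) (l 15163168)) (c (l 15003728) (l 15174048))) (c (a (l 14972824) (l 14817152)) (b (l 14670648) (l 14887608))))))))), by decide +kernel⟩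

def k1_pp_102 : ∃ t, chk3 f_pp_102 t 2 3 1 = true :=
  ⟨(b (b (c (l 16777216) (l 16777216)) (b (a (l 16728592) (l 16728592)) (a (l 16590024) (l 16590024)))) (b (a (b (l 16433656) (l 16246480)) (b (l 16433656) (l 16246480))) (a (b (l 16009536) (c (l 15850352) (l 15845824))) (b (c (l 16045520) (l 16026520)) (c (l 15850352) (l 15782912)))))), by decide +kernel⟩

def k2_pp_102 : ∃ t, chk3 f_pp_102 t 3 6 1 = true :=
  ⟨(a (a (b (l 16777216) (l 16618760)) (b (c (l 16182936) (l 16174032)) (a (b (l 16675440) (l 16691216)) (l 16188736)))) (a (b (a (l 15723360) (b (l 15417160) (b (l 15417152) (l 15420664)))) (a (b (l 15754928) (l 15847952)) (b (c (l 15497096) (l 15464024)) (l 15619192)))) (b (a (b (a (c (l 15281088) (l 15242432)) (c (l 15193976) (l 15154224))) (c (b (l 15272504) (l 15308224)) (l 15256736))) (c (b (l 14984864) (l 15050520)) (b (l 14952440) (l 15032744)))) (a (c (b (l 15410696) (l 15616536)) (b (l 15376296) (l 15588656))) (c (b (c (l 15185160) (l 15187128)) (a (l 15474752) (l 15295376)))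 (b (l 15165280) (l 15385744))))))), by decide +kernel⟩

def k3_pp_102 : ∃ t, chk3 f_pp_102 t 6 7 1 = true :=
  ⟨(b (a (b (l 16433656) (l 16246480)) (b (a (l 16539720) (l 16409712)) (a (b (l 16410360) (l 16304160)) (b (l 16470856) (a (l 16596168) (l 16465344)))))) (a (b (l 16030512) (c (l 15850352) (l 15845824))) (b (a (c (l 15908880) (l 16124496)) (b (a (l 16491776) (l 16579896)) (c (a (l 16356552) (l 16497616)) (l 16333064)))) (a (b (a (c (l 15919400) (l 15915600)) (c (l 16065136) (l 16087888))) (c (a (l 15822576) (l 15948696)) (a (a (l 15791240) (l 15838160)) (l 15942336)))) (c (b (l 16255928) (l 16114928)) (b (l 16284856) (l 15988024))))))), by decide +kernel⟩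

def k4_pp_102 : ∃ t, chk3 f_pp_102 t 7 7 1 = true :=
  ⟨(a (b (a (b (a (b (l 16036200) (l 16098040)) (l 15887168)) (b (a (l 16188896) (l 16060176)) (l 16261552))) (b (l 15857936) (b (l 16053256) (l 16206552)))) (b (a (c (b (l 16414672) (l 16518864)) (l 16416544)) (b (l 16368768) (c (l 16530648) (l 16520808)))) (a (b (c (l 16313248) (l 16391000)) (c (l 16173752) (b (l 16222816) (a (l 16245584) (l 16274168))))) (b (c (l 16400480) (l 16479736)) (c (l 16421752) (b (l 16425904) (l 16389048))))))) (b (b (a (c (l 15835848) (l 15835728)) (c (a (l 15727336) (l 15600400)) (l 15655776))) (a (a (b (l 16069552) (l 16229704)) (b (l 16043760) (c (l 16209840) (l 16200096)))) (c (a (l 15811912) (b (l 15816528) (l 15982272))) (b (l 15875800) (l 16045672))))) (a (b (a (b (l 16396016) (l 16550792)) (c (b (l 16374680) (l 16511216)) (l 16445800))) (c (b (a (l 16578872) (b (l 16613536) (l 16559952))) (a (l 16438168) (c (a (l 16452176) (l 16452432)) (a (l 16450328) (l 16445480))))) (b (l 16425752) (a (b (l 16484200)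 (l 16406336)) (b (c (l 16470528) (l 16498520)) (c (l 16428376) (a (l 16418256) (l 16449400)))))))) (b (c (b (a (l 16269344) (c (b (l 16105088) (l 16192912)) (l 15983184))) (a (c (l 16366576) (l 16392496)) (c (a (l 16358632) (l 16327136)) (l 16233328)))) (a (b (l 16269928) (l 16431056)) (b (l 16087008) (l 16359160)))) (c (b (a (c (l 16451536) (b (l 16568824) (l 16668784))) (c (l 16479208) (l 16472592))) (a (c (l 16484624) (l 16447432)) (a (c (l 16532472) (l 16485704)) (b (c (l 16669448) (l 16640328)) (c (l 16543456) (l 16508736)))))) (b (a (b (l 16560944) (l 16620864)) (l 16510736)) (c (a (l 16427696) (b (l 16629328) (l 16484312))) (b (l 16549552) (a (l 16485568) (b (l 16560584) (l 16420504))))))))))), by decide +kernel⟩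

theorem s5_pp_102 : ∃ t, chk3 f_pp_102 t 3 7 1 = true := ex3_a k3_pp_102 k4_pp_102

theorem s6_pp_102 : ∃ t, chk3 f_pp_102 t 3 3 1 = true := ex3_b k2_pp_102 s5_pp_102

theorem s7_pp_102 : ∃ t, chk3 f_pp_102 t 1 3 1 = true := ex3_a k1_pp_102 s6_pp_102

theorem s8_pp_102 : ∃ t, chk3 f_pp_102 t 1 1 1 = true := ex3_b k0_pp_102 s7_pp_102

theorem c_pp_102 : CertFX 536870912 469762048 0 536870912 1046898278 26843546 false true true .npp 1 0 2
    ndF6q1 ndF0q2 pcF0 Cut.none Ext.none :=
  certFX0 (fam := false) (s1 := true) (s2 := true) (a := 1) (b := 0) (c := 2) (cn := .npp) (n1 := ndF6q1) (n2 := ndF0q2) (pc := pcF0) (cut := Cut.none) (xt := Ext.none) (P1 := 536870912) (W1 := 469762048) (P2 := 0) (W2 := 536870912) (P3 := 1046898278) (W3 := 26843546)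
    rfl s8_pp_102

noncomputable def f_pp_112 : ℕ → ℕ → ℕ → ℕ → Bool := onCell 536870912 536870912 0 536870912 1046898278 26843546
    (rowFX 2 false true true .dn 1 1 2 (qsf 536870912 469762048 0 536870912 1) ndF6q1 ndF0q2 pcF1 Cut.none Ext.none)

def k0_pp_112 : ∃ t, chk3 f_pp_112 t 1 1 1 = true :=
  ⟨(a (a (b (b (b (b (l 16777216) (l 16777216)) (l 16777216)) (b (l 16777216) (l 16777216))) (b (b (l 16777216) (b (l 16728592) (l 16590024))) (b (b (l 16433656) (l 16246480)) (b (l 16009536) (c (l 15850352) (l 15845824)))))) (b (b (b (b (l 331820165319) (l 16777216)) (l 344704679927)) (l 1465154273287)) (b (l 1) (l 1)))) (l 1)), by decide +kernel⟩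

theorem c_pp_112 : CertFX 536870912 469762048 0 536870912 1046898278 26843546 false true true .dn 1 1 2
    ndF6q1 ndF0q2 pcF1 Cut.none Ext.none :=
  certFX2 (fam := false) (s1 := true) (s2 := true) (a := 1) (b := 1) (c := 2) (cn := .dn) (n1 := ndF6q1) (n2 := ndF0q2) (pc := pcF1) (cut := Cut.none) (xt := Ext.none) (P1 := 536870912) (W1 := 469762048) (P2 := 0) (W2 := 536870912) (P3 := 1046898278) (W3 := 26843546)
    rfl (fun _ => rfl) k0_pp_112

noncomputable def f_pp_202 : ℕ → ℕ → ℕ → ℕ → Bool := onCell 0 536870912 0 536870912 1046898278 26843546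
    (rowFX 2 false true true .pp 2 0 2 (qsf 1073741824 536870912 0 536870912 0) ndF6q2 ndF0q2 pcF0 Cut.none Ext.none)

def k0_pp_202 : ∃ t, chk3 f_pp_202 t 32 8 2 = true :=
  ⟨(a (b (b (a (c (c (l 16129600) (l 16110352)) (c (b (l 16148816) (l 16127144)) (l 16146960))) (c (c (l 16198552) (l 16162680)) (b (c (l 16264848) (l 16291736)) (c (l 16244664) (a (l 16238904) (c (l 16304088) (l 16259176))))))) (c (l 16059112) (a (c (l 16112552) (l 15986408)) (c (l 16225712) (b (a (l 16221096) (l 16193952)) (l 16216008)))))) (b (a (b (l 16097592) (l 16094792)) (c (l 16188152) (c (l 16186104) (l 16038832)))) (l 16155768))) (b (b (c (a (c (a (l 16351136) (l 16371760)) (a (b (l 16336960) (l 16344128)) (c (l 16370448) (l 16410144)))) (c (a (l 16442152) (l 16464512)) (b (l 16460784) (l 16430144)))) (a (c (c (a (b (l 16339224) (l 16354848)) (l 16400456)) (a (a (l 16292288) (l 16370352)) (l 16366648))) (b (l 16368128) (c (l 16353824) (l 16339160)))) (a (c (l 16419232) (c (l 16377800) (l 16344280))) (c (l 16440104)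 (l 16429272))))) (c (a (c (l 16305088) (l 16226416)) (c (a (l 16345432) (l 16397160)) (a (l 16371928) (l 16404552)))) (a (c (l 16167656) (b (l 16326728) (l 16302312))) (b (c (l 16402728) (l 16402160)) (c (l 16385296) (l 16394896)))))) (a (b (b (c (l 16227408) (l 16177592)) (c (l 16257328) (l 16282080))) (l 16296648)) (b (a (c (l 16284992) (a (l 16303456) (l 16359344))) (c (l 16375512) (l 16374512))) (c (l 16361680) (l 16327720)))))), by decide +kernel⟩

def k1_pp_202 : ∃ t, chk3 f_pp_202 t 32 8 3 = true :=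
  ⟨(b (a (c (b (a (l 16158136) (c (l 16273776) (l 16261064))) (a (c (l 16070096) (c (l 16113552) (l 16010968))) (c (b (a (c (l 16226320) (l 16183168)) (c (l 16272400) (l 16258520))) (a (l 16181696) (l 16241520))) (a (b (l 16214368) (c (l 16201136) (l 16184144))) (l 16192360))))) (a (c (a (l 16116864) (c (l 16144504) (l 16169008))) (a (l 16055088) (l 16168152))) (c (l 16172120) (l 16252488)))) (c (a (c (a (c (b (l 16270104) (l 16253640)) (l 16272744)) (c (l 16297816) (l 16338912))) (l 16264544)) (c (l 16286472) (l 16368936))) (b (l 16405856) (a (l 16316256) (l 16435728))))) (a (c (b (a (a (l 16060792) (c (l 16109488) (b (l 16096864) (l 16005752)))) (c (b (l 16148312) (l 16183848)) (a (c (b (l 16170472) (l 16158144)) (l 16157616)) (l 16105824)))) (l 16149984)) (c (b (a (a (l 16057776) (c (b (l 16130640) (l 16109248)) (l 16023856))) (l 16064984)) (l 16151640)) (a (a (c (l 16043616) (l 16003040)) (l 16100816)) (l 16208200)))) (c (a (b (c (b (l 16298088) (l 16289312)) (l 16252760)) (l 16301784)) (c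 (b (l 16351104) (l 16380048)) (a (l 16385160) (l 16409280)))) (c (a (c (l 16313592) (l 16299752)) (l 16344504)) (a (l 16322904) (l 16409104)))))), by decide +kernel⟩

def k2_pp_202 : ∃ t, chk3 f_pp_202 t 33 8 1 = true :=
  ⟨(a (c (b (c (a (b (a (l 16445576) (l 16428376)) (c (l 16374464) (l 16383808))) (b (c (l 16413856) (l 16417920)) (l 16340592))) (c (b (c (l 16427632) (l 16434088)) (l 16418704)) (l 16437744))) (c (a (b (l 16377920) (l 16359600)) (b (l 16316208) (l 16329792))) (c (b (l 16373096) (l 16364896)) (l 16322608)))) (c (b (c (l 16434664) (l 16406736)) (c (l 16399240) (l 16413168))) (b (l 16475320) (l 16419256)))) (c (b (c (c (c (l 16363744) (l 16391992)) (l 16382616)) (c (l 16439856) (a (l 16452968) (l 16461000)))) (c (b (b (l 16381096) (l 16358408)) (b (l 16338144) (l 16328128))) (c (b (l 16380376) (l 16360984)) (b (l 16416088) (l 16357880))))) (c (b (c (a (l 16469400) (l 16476320)) (l 16475632)) (c (b (l 16428472) (l 16352920)) (l 16391200))) (b (l 16472888) (l 16390000))))), by decide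 +kernel⟩

def k3_pp_202 : ∃ t, chk3 f_pp_202 t 17 8 1 = true :=
  ⟨(c (a (c (b (b (a (b (l 16409472) (l 16422240)) (c (l 16454584) (l 16447616))) (b (l 16385216) (a (l 16380104) (l 16369400)))) (b (a (b (l 16381840) (l 16358952)) (l 16379768)) (a (l 16290896) (c (l 16327392) (l 16349072))))) (b (b (a (c (l 16444472) (l 16413304)) (b (l 16487744) (l 16469016))) (b (l 16428232) (a (c (l 16422840) (l 16435552)) (c (l 16411120) (l 16438000))))) (b (a (b (l 16390104) (l 16390592)) (l 16361992)) (a (c (l 16359592) (l 16335640)) (c (c (l 16364856) (l 16373808)) (l 16376088)))))) (c (a (b (b (l 16468416) (c (l 16423592) (a (l 16393728) (l 16441384)))) (b (l 16347184) (c (l 16318576) (c (l 16292536) (l 16365008))))) (c (b (b (l 16473568) (a (l 16392416) (l 16420016))) (b (l 16374104) (b (a (l 16318512) (l 16368664)) (l 16299880)))) (b (b (l 16478080) (l 16442504)) (b (l 16402320) (l 16358920))))) (b (b (l 16478000) (l 16379152)) (b (l 16403040) (l 16362400))))) (a (b (c (b (c (l 16482992) (l 16484936))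 (a (l 16417080) (l 16443536))) (b (l 16481752) (l 16436720))) (b (b (l 16403816) (l 16404960)) (c (l 16347592) (l 16386640)))) (b (b (l 16476416) (l 16418856)) (b (l 16399928) (l 16358184))))), by decide +kernel⟩

def k4_pp_202 : ∃ t, chk3 f_pp_202 t 8 9 1 = true :=
  ⟨(b (b (a (l 3) (a (a (l 3) (c (c (c (l 16308392) (l 16330824)) (c (l 16328536) (l 16359008))) (l 16355784))) (c (c (a (b (l 16316776) (l 3)) (b (c (l 16319376) (l 16330512)) (l 16305048))) (l 16341544)) (l 16336640)))) (l 3)) (l 3)), by decide +kernel⟩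

def k5_pp_202 : ∃ t, chk3 f_pp_202 t 8 5 1 = true :=
  ⟨(l 3), by decide +kernel⟩

def k6_pp_202 : ∃ t, chk3 f_pp_202 t 9 2 1 = true :=
  ⟨(b (b (a (c (a (b (a (c (b (l 16481800) (l 16449008)) (l 16461048)) (c (b (l 16497512) (l 16471336)) (l 16462296))) (a (b (l 16409424) (c (l 16369272) (l 16366216))) (b (l 16418920) (b (l 16417296) (l 16335104))))) (b (c (l 16503672) (l 16545336)) (b (l 16506320) (c (l 16458968) (l 16521232))))) (a (b (a (b (l 16478552) (l 16444600)) (b (l 16494456) (l 16467328))) (b (l 16376128) (a (l 16361904) (b (l 16412224) (l 16392416))))) (b (b (l 16558120) (l 16577576)) (b (l 16568624) (b (l 16551648) (l 16494712)))))) (c (b (a (a (c (l 16450200) (l 16448008)) (l 16388672)) (l 16309936)) (a (b (l 16384272) (a (c (l 16498752) (l 16497344)) (l 16434416))) (l 16344992))) (b (a (a (l 16423744) (l 16382400)) (l 16301288)) (a (b (l 16442760) (a (l 16495224) (l 16429592))) (l 16337440))))) (b (a (b (c (a (a (b (l 16328960) (l 16306024)) (c (l 16351688) (l 16348352))) (l 16389984))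 (a (a (l 16325488) (l 16343400)) (l 16429216))) (b (a (c (l 90897863815) (l 16302744)) (c (l 16436240) (l 16453496))) (l 3))) (c (a (b (a (l 16537416) (l 16464384)) (l 16461704)) (b (l 16371368) (l 16396776))) (a (b (l 16392024) (l 16460384)) (b (l 16343656) (l 16390816))))) (a (l 3) (a (l 3) (b (c (l 16410112) (l 16404528)) (l 3)))))) (l 3)), by decide +kernel⟩

def k7_pp_202 : ∃ t, chk3 f_pp_202 t 5 2 1 = true :=
  ⟨(a (a (b (b (b (c (a (l 16200832) (l 16084328)) (a (l 16188976) (l 16069088))) (c (a (l 16234264) (l 16115712)) (l 16121104))) (c (b (a (b (l 16255704) (l 16265912)) (c (l 16139280) (l 16132448))) (b (a (l 16273176) (l 16136136)) (l 16163032))) (b (b (a (l 16245528) (l 16122648)) (a (l 16256040) (l 16124000))) (b (a (l 16263496) (l 16122456)) (l 16193272))))) (l 3)) (b (b (l 1) (l 1)) (l 1))) (l 1)), by decide +kernel⟩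

def k8_pp_202 : ∃ t, chk3 f_pp_202 t 2 3 1 = true :=
  ⟨(l 3), by decide +kernel⟩

def k9_pp_202 : ∃ t, chk3 f_pp_202 t 3 1 1 = true :=
  ⟨(l 1), by decide +kernel⟩

theorem s10_pp_202 : ∃ t, chk3 f_pp_202 t 32 8 1 = true := ex3_c k0_pp_202 k1_pp_202

theorem s11_pp_202 : ∃ t, chk3 f_pp_202 t 16 8 1 = true := ex3_a s10_pp_202 k2_pp_202

theorem s12_pp_202 : ∃ t, chk3 f_pp_202 t 8 8 1 = true := ex3_a s11_pp_202 k3_pp_202

theorem s13_pp_202 : ∃ t, chk3 f_pp_202 t 8 4 1 = true := ex3_b s12_pp_202 k4_pp_202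

theorem s14_pp_202 : ∃ t, chk3 f_pp_202 t 8 2 1 = true := ex3_b s13_pp_202 k5_pp_202

theorem s15_pp_202 : ∃ t, chk3 f_pp_202 t 4 2 1 = true := ex3_a s14_pp_202 k6_pp_202

theorem s16_pp_202 : ∃ t, chk3 f_pp_202 t 2 2 1 = true := ex3_a s15_pp_202 k7_pp_202

theorem s17_pp_202 : ∃ t, chk3 f_pp_202 t 2 1 1 = true := ex3_b s16_pp_202 k8_pp_202

theorem s18_pp_202 : ∃ t, chk3 f_pp_202 t 1 1 1 = true := ex3_a s17_pp_202 k9_pp_202

theorem c_pp_202 : CertFX 1073741824 536870912 0 536870912 1046898278 26843546 false true true .pp 2 0 2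
    ndF6q2 ndF0q2 pcF0 Cut.none Ext.none :=
  certFX2 (fam := false) (s1 := true) (s2 := true) (a := 2) (b := 0) (c := 2) (cn := .pp) (n1 := ndF6q2) (n2 := ndF0q2) (pc := pcF0) (cut := Cut.none) (xt := Ext.none) (P1 := 1073741824) (W1 := 536870912) (P2 := 0) (W2 := 536870912) (P3 := 1046898278) (W3 := 26843546)
    rfl (fun _ => rfl) s18_pp_202

noncomputable def f_pm_001 : ℕ → ℕ → ℕ → ℕ → Bool := onCell 0 536870912 536870912 536870912 1046898278 26843546
    (rowFX 0 false true false .up 0 0 1 (qsf 0 536870912 536870912 536870912 0) ndF6q0 ndF0q1 pcF0 Cut.none Ext.none)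

def k0_pm_001 : ∃ t, chk3 f_pm_001 t 1 1 1 = true :=
  ⟨(l 4), by decide +kernel⟩

theorem c_pm_001 : CertFX 0 536870912 536870912 536870912 1046898278 26843546 false true false .up 0 0 1
    ndF6q0 ndF0q1 pcF0 Cut.none Ext.none :=
  certFX0 (fam := false) (s1 := true) (s2 := false) (a := 0) (b := 0) (c := 1) (cn := .up) (n1 := ndF6q0) (n2 := ndF0q1) (pc := pcF0) (cut := Cut.none) (xt := Ext.none) (P1 := 0) (W1 := 536870912) (P2 := 536870912) (W2 := 536870912) (P3 := 1046898278) (W3 := 26843546)
    rfl k0_pm_001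

noncomputable def f_pm_011 : ℕ → ℕ → ℕ → ℕ → Bool := onCell 0 536870912 536870912 536870912 1046898278 26843546
    (rowFX 0 false true false .pnn 0 1 1 (qsf 0 536870912 536870912 536870912 1) ndF6q0 ndF0q1 pcF1 Cut.none Ext.none)

def k0_pm_011 : ∃ t, chk3 f_pm_011 t 1 1 1 = true :=
  ⟨(l 4), by decide +kernel⟩

theorem c_pm_011 : CertFX 0 536870912 536870912 536870912 1046898278 26843546 false true false .pnn 0 1 1
    ndF6q0 ndF0q1 pcF1 Cut.none Ext.none :=
  certFX0 (fam := false) (s1 := true) (s2 := false) (a := 0) (b := 1) (c := 1) (cn := .pnn) (n1 := ndF6q0) (n2 := ndF0q1) (pc := pcF1) (cut := Cut.none) (xt := Ext.none) (P1 := 0) (W1 := 536870912) (P2 := 536870912) (W2 := 536870912) (P3 := 1046898278) (W3 := 26843546)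
    rfl k0_pm_011

noncomputable def f_pm_012 : ℕ → ℕ → ℕ → ℕ → Bool := onCell 0 536870912 0 536870912 1046898278 26843546
    (rowFX 0 false true false .pnp 0 1 2 (qsf 0 536870912 0 536870912 1) ndF6q0 ndF0q2 pcF1 Cut.none Ext.none)

def k0_pm_012 : ∃ t, chk3 f_pm_012 t 1 1 1 = true :=
  ⟨(b (b (b (b (a (a (l 2) (b (a (l 4) (c (a (c (l 254706201479) (a (l 14215968) (l 14376088))) (c (l 14467104) (l 14445056))) (a (a (l 14212456) (l 14353216)) (a (l 14518944) (l 14714208))))) (l 4))) (a (a (c (a (a (l 14751704) (l 15083248)) (l 15310712)) (a (a (l 14892080) (l 15039248)) (l 15041936))) (a (b (l 15713600) (l 15481192)) (l 15840568))) (a (l 16379456) (l 16683544)))) (a (l 4) (a (a (l 4) (a (l 4) (b (l 15682624) (l 4)))) (a (a (l 15795008) (l 16234808)) (l 16548712))))) (a (l 4) (a (l 4) (a (l 4) (a (l 16588792) (l 16686728)))))) (l 4)) (l 4)), by decide +kernel⟩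

theorem c_pm_012 : CertFX 0 536870912 0 536870912 1046898278 26843546 false true false .pnp 0 1 2
    ndF6q0 ndF0q2 pcF1 Cut.none Ext.none :=
  certFX0 (fam := false) (s1 := true) (s2 := false) (a := 0) (b := 1) (c := 2) (cn := .pnp) (n1 := ndF6q0) (n2 := ndF0q2) (pc := pcF1) (cut := Cut.none) (xt := Ext.none) (P1 := 0) (W1 := 536870912) (P2 := 0) (W2 := 536870912) (P3 := 1046898278) (W3 := 26843546)
    rfl k0_pm_012

noncomputable def f_pm_022 : ℕ → ℕ → ℕ → ℕ → Bool := onCell 0 536870912 0 536870912 1046898278 26843546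
    (rowFX 0 false true false .pp 0 2 2 (qsf 0 536870912 0 536870912 2) ndF6q0 ndF0q2 pcF2 Cut.none Ext.none)

def k0_pm_022 : ∃ t, chk3 f_pm_022 t 1 1 1 = true :=
  ⟨(a (b (a (l 4) (b (a (l 4) (l 1)) (l 4))) (l 4)) (l 1)), by decide +kernel⟩

theorem c_pm_022 : CertFX 0 536870912 0 536870912 1046898278 26843546 false true false .pp 0 2 2
    ndF6q0 ndF0q2 pcF2 Cut.none Ext.none :=
  certFX0 (fam := false) (s1 := true) (s2 := false) (a := 0) (b := 2) (c := 2) (cn := .pp) (n1 := ndF6q0) (n2 := ndF0q2) (pc := pcF2) (cut := Cut.none) (xt := Ext.none) (P1 := 0) (W1 := 536870912) (P2 := 0) (W2 := 536870912) (P3 := 1046898278) (W3 := 26843546)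
    rfl k0_pm_022

noncomputable def f_pm_101 : ℕ → ℕ → ℕ → ℕ → Bool := onCell 536870912 469762048 536870912 536870912 1046898278 26843546
    (rowFX 0 false true false .npn 1 0 1 (qsf 536870912 469762048 536870912 536870912 0) ndF6q1 ndF0q1 pcF0 Cut.none Ext.none)

def k0_pm_101 : ∃ t, chk3 f_pm_101 t 1 1 1 = true :=
  ⟨(l 4), by decide +kernel⟩

theorem c_pm_101 : CertFX 536870912 469762048 536870912 536870912 1046898278 26843546 false true false .npn 1 0 1
    ndF6q1 ndF0q1 pcF0 Cut.none Ext.none :=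
  certFX0 (fam := false) (s1 := true) (s2 := false) (a := 1) (b := 0) (c := 1) (cn := .npn) (n1 := ndF6q1) (n2 := ndF0q1) (pc := pcF0) (cut := Cut.none) (xt := Ext.none) (P1 := 536870912) (W1 := 469762048) (P2 := 536870912) (W2 := 536870912) (P3 := 1046898278) (W3 := 26843546)
    rfl k0_pm_101

noncomputable def f_pm_102 : ℕ → ℕ → ℕ → ℕ → Bool := onCell 536870912 469762048 0 536870912 1046898278 26843546
    (rowFX 0 false true false .npp 1 0 2 (qsf 536870912 469762048 0 536870912 0) ndF6q1 ndF0q2 pcF0 Cut.none Ext.none)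

def k0_pm_102 : ∃ t, chk3 f_pm_102 t 1 1 1 = true :=
  ⟨(b (a (a (l 2) (b (c (l 16777216) (l 16777216)) (c (l 16777216) (l 16777216)))) (a (b (a (b (l 16777216) (l 16777216)) (c (l 16350704) (a (l 16648168) (l 16196344)))) (b (a (l 16777216) (a (l 16649800) (l 16203696))) (l 4))) (a (b (c (l 15587632) (l 15430904)) (c (l 49624038551) (b (l 15556728) (l 15556728)))) (b (b (c (a (l 15201816) (l 14795704)) (l 14854912)) (c (l 14952944) (l 14939856))) (c (b (a (l 15201816) (l 14798736)) (a (l 15201832) (l 14795440))) (b (l 14793688) (a (l 15162256) (l 14765464)))))))) (l 4)), by decide +kernel⟩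

theorem c_pm_102 : CertFX 536870912 469762048 0 536870912 1046898278 26843546 false true false .npp 1 0 2
    ndF6q1 ndF0q2 pcF0 Cut.none Ext.none :=
  certFX0 (fam := false) (s1 := true) (s2 := false) (a := 1) (b := 0) (c := 2) (cn := .npp) (n1 := ndF6q1) (n2 := ndF0q2) (pc := pcF0) (cut := Cut.none) (xt := Ext.none) (P1 := 536870912) (W1 := 469762048) (P2 := 0) (W2 := 536870912) (P3 := 1046898278) (W3 := 26843546)
    rfl k0_pm_102

noncomputable def f_pm_112 : ℕ → ℕ → ℕ → ℕ → Bool := onCell 536870912 536870912 0 536870912 1046898278 26843546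
    (rowFX 2 false true false .dn 1 1 2 (qsf 536870912 469762048 0 536870912 1) ndF6q1 ndF0q2 pcF1 Cut.none Ext.none)

def k0_pm_112 : ∃ t, chk3 f_pm_112 t 1 1 1 = true :=
  ⟨(a (b (b (a (c (l 16777216) (l 16777216)) (a (c (l 16711624) (l 411812906023)) (l 1))) (l 4)) (l 4)) (l 1)), by decide +kernel⟩

theorem c_pm_112 : CertFX 536870912 469762048 0 536870912 1046898278 26843546 false true false .dn 1 1 2
    ndF6q1 ndF0q2 pcF1 Cut.none Ext.none :=
  certFX2 (fam := false) (s1 := true) (s2 := false) (a := 1) (b := 1) (c := 2) (cn := .dn) (n1 := ndF6q1) (n2 := ndF0q2) (pc := pcF1) (cut := Cut.none) (xt := Ext.none) (P1 := 536870912) (W1 := 469762048) (P2 := 0) (W2 := 536870912) (P3 := 1046898278) (W3 := 26843546)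
    rfl (fun _ => rfl) k0_pm_112

noncomputable def f_pm_202 : ℕ → ℕ → ℕ → ℕ → Bool := onCell 0 536870912 0 536870912 1046898278 26843546
    (rowFX 2 false true false .pp 2 0 2 (qsf 1073741824 536870912 0 536870912 0) ndF6q2 ndF0q2 pcF0 Cut.none Ext.none)

def k0_pm_202 : ∃ t, chk3 f_pm_202 t 32 8 1 = true :=
  ⟨(c (a (c (b (a (l 16195624) (c (b (l 16194768) (l 16352328)) (l 16337296))) (b (l 16239448) (l 16259608))) (c (l 16082984) (a (l 16190856) (a (l 16326496) (b (c (l 16363648) (l 16338880)) (b (l 16418184) (l 16388664))))))) (a (c (c (b (b (b (a (l 16391920) (c (l 16458200) (l 16460408))) (l 16430040)) (l 16403376)) (c (l 16379624) (a (l 16468856) (a (l 16424160) (l 16334224))))) (c (b (b (a (l 16414008) (b (l 16457520) (l 16482528))) (l 16384368)) (a (l 16465496) (a (l 16380368) (l 16402376)))) (a (l 16329952) (l 16310544)))) (c (a (b (l 16352256) (c (l 16337120) (l 16404080))) (l 16387800)) (l 16419992))) (c (b (b (c (a (c (b (l 16471888) (l 16432200)) (l 16472224)) (b (l 16454496) (l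 16439760))) (b (c (l 16478928) (l 16474648)) (l 16466928))) (a (l 16351200) (l 16426456))) (c (c (a (a (b (l 16394904) (l 16329992)) (l 16363904)) (l 16375128)) (l 16342816)) (l 16335984))) (b (a (l 16389224) (c (b (c (l 16478592) (l 16465736)) (l 16455400)) (l 16435344))) (c (l 16375392) (a (c (l 16424544) (l 16388880)) (c (l 16404608) (l 16420288)))))))) (a (c (a (b (l 16101888) (c (l 16338464) (a (l 16312784) (c (l 16379008) (l 16380760))))) (c (a (b (l 16282248) (a (l 16423368) (l 16409416))) (l 16306680)) (a (b (l 16311840) (l 16404024)) (b (l 16341168) (l 16454792))))) (a (c (a (l 16201840) (b (l 16196576) (a (l 16322296) (l 16386848)))) (a (c (l 16098752) (a (l 16107880) (l 16279480))) (b (l 16256784) (l 16351024)))) (c (b (l 16263944) (l 16315088)) (l 16335784)))) (c (a (c (b (l 16342400) (a (l 16497648) (l 16378328))) (b (l 16390632) (l 16368920))) (b (l 16321344) (c (l 16310752) (l 16392448)))) (b (l 16299784) (c (l 16251728) (l 16392168)))))), by decide +kernel⟩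

def k1_pm_202 : ∃ t, chk3 f_pm_202 t 33 8 1 = true :=
  ⟨(a (c (a (c (b (b (c (b (l 16474544) (l 16394568)) (a (l 16366192) (c (l 16446280) (l 16432784)))) (l 16404032)) (c (l 16403376) (l 16358464))) (c (b (c (a (l 16403968) (l 16452024)) (l 16468024)) (c (a (l 16441056) (l 16461016)) (l 16425328))) (l 16455856))) (c (b (c (b (a (l 16439152) (l 16374656)) (c (l 16393408) (l 16448544))) (c (b (l 16419232) (l 16448696)) (l 16440816))) (c (c (l 16481240) (a (l 16475160) (l 16470000))) (c (a (l 16481632) (l 16495528)) (l 16480608)))) (b (l 16416280) (l 16449680)))) (c (c (l 16434216) (l 16331632)) (l 16366192))) (c (b (c (c (a (b (l 16412160) (b (l 16374040) (l 16412720))) (l 16412544)) (l 16421648)) (c (l 16437976) (l 16433864))) (c (c (c (a (a (l 16451984) (l 16470296)) (l 16477176)) (l 16490664)) (l 16496512)) (l 16458576))) (c (c (b (l 16417152) (l 16426848)) (l 16386832)) (l 16422136)))), by decide +kernel⟩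

def k2_pm_202 : ∃ t, chk3 f_pm_202 t 64 9 1 = true :=
  ⟨(c (b (c (b (b (l 16289472) (l 16366208)) (l 16379216)) (b (a (l 16339664) (c (l 16452632) (a (l 16496856) (a (l 16390080) (b (l 16442224) (l 16394728)))))) (a (l 16502976) (l 16330944)))) (c (b (l 16316608) (a (l 16410168) (l 16285208))) (c (l 16214008) (a (l 16406032) (a (l 16339424) (b (l 16320696) (l 16267880))))))) (b (b (c (a (c (l 16437064) (a (l 16412424) (l 16373120))) (c (a (b (l 16421520) (l 16478576)) (l 16430944)) (a (l 16416528) (l 16402976)))) (c (a (a (l 16420632) (a (l 16463848) (l 16444616))) (a (l 16444544) (l 16459288))) (a (a (c (l 16349680) (a (l 16391144) (l 16436424))) (l 16409408)) (l 16472536)))) (c (a (l 16496104) (c (l 16373384) (l 16400352))) (a (c (l 16492256) (l 16426840)) (l 16377232)))) (c (a (l 16312336) (a (c (l 16334840) (l 16340096)) (c (l 16304816) (l 16316760)))) (a (c (l 16265400) (a (l 16349112) (l 16386088))) (c (l 16266072) (l 16318752)))))), by decide +kernel⟩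

def k3_pm_202 : ∃ t, chk3 f_pm_202 t 65 9 1 = true :=
  ⟨(c (b (b (a (c (a (c (l 16397784) (c (l 16392376) (l 16326320))) (c (a (l 16352832) (c (l 16326544) (b (l 16338192) (b (l 16297584) (l 16308048))))) (a (c (a (l 16354832) (l 16299952)) (l 16331192)) (b (l 16347440) (l 16323768))))) (a (c (a (c (l 16400448) (l 16359144)) (c (l 16334456) (l 16383760))) (l 16404360)) (l 16346704))) (c (c (a (a (c (b (l 16278464) (b (l 16288240) (l 16305680))) (l 16320128)) (l 16326704)) (l 16349048)) (l 16353432)) (c (l 16370768) (a (c (l 16369840) (l 16354664)) (c (l 16392168) (l 16386880)))))) (a (c (a (l 16338552) (c (a (l 16304720) (l 16295032)) (l 16263792))) (a (l 16300232) (l 16327896))) (c (c (l 16321816) (l 16338144)) (l 16335824)))) (c (a (a (b (c (l 16294760) (l 16287296)) (l 16268312)) (c (l 16277104) (l 16280024))) (b (l 16254928) (l 16245096))) (a (a (c (b (l 16287528) (l 16264256)) (l 16289320)) (l 16300936)) (c (l 16336544) (l 16343440))))) (c (b (b (a (c (a (l 16421344) (c (l 16366680) (l 16366088)))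 (a (l 16339328) (l 16372200))) (c (l 16326216) (l 16345336))) (a (c (l 16355512) (l 16349928)) (l 16341144))) (a (c (a (l 16304336) (l 16317280)) (l 16306088)) (l 16322528))) (b (b (a (c (l 16357728) (l 16370480)) (l 16327888)) (l 16323576)) (l 16291056)))), by decide +kernel⟩

def k4_pm_202 : ∃ t, chk3 f_pm_202 t 33 9 1 = true :=
  ⟨(c (b (a (a (c (c (b (l 16394360) (l 16381744)) (c (l 16338616) (a (l 16395528) (b (l 16431320) (l 16395624))))) (c (b (a (c (l 16409776) (l 16411336)) (l 16404160)) (a (l 16394328) (c (l 16352848) (l 16406120)))) (l 16393264))) (c (c (b (a (l 16441128) (c (l 16467080) (l 16450168))) (c (l 16437928) (a (l 16431296) (b (a (l 16455240) (l 16443408)) (l 16451208))))) (b (a (c (l 16451656) (l 16448536)) (l 16459504)) (b (a (b (c (l 16420024) (l 16437856)) (l 16434168)) (l 16447304)) (l 16432664)))) (b (l 16420456) (l 16406920)))) (c (c (a (b (c (a (l 16448104) (l 16498200)) (l 16483728)) (b (c (a (a (l 16453520) (l 16481656)) (l 16484944)) (l 16470608)) (l 16468080)))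 (b (l 16496400) (l 16459760))) (b (l 16467792) (l 16431984))) (b (l 16430656) (c (l 16428192) (l 16404056))))) (c (a (c (b (l 16332912) (l 16343568)) (a (l 16378544) (c (l 16422512) (l 16416144)))) (c (b (l 16421232) (l 16411024)) (l 16435224))) (c (a (a (l 16360200) (l 16398840)) (l 16411064)) (l 16379248)))) (b (c (a (c (l 16372696) (b (l 16360944) (l 16349520))) (c (b (l 16399544) (a (l 16379216) (l 16390080))) (l 16382760))) (b (l 16370400) (l 16338576))) (c (c (l 16359592) (l 16347376)) (l 16340848)))), by decide +kernel⟩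

def k5_pm_202 : ∃ t, chk3 f_pm_202 t 32 5 2 = true :=
  ⟨(c (b (a (b (b (a (l 16336144) (l 16268512)) (a (l 16278872) (l 16255712))) (l 16252384)) (a (c (b (l 16262928) (l 16258784)) (a (l 16253368) (b (l 16265632) (l 16261544)))) (c (b (l 16270152) (l 16245536)) (l 16304208)))) (a (b (l 16255336) (l 16269192)) (a (c (a (l 16272536) (c (l 16276392) (b (l 16264576) (l 16281952)))) (c (a (l 16266912) (b (l 16265304) (a (l 16277480) (l 16286384)))) (a (l 16263528) (l 16278392)))) (c (a (c (b (l 16277672) (l 16274624)) (l 16292688)) (l 16317200)) (l 16316336))))) (a (a (b (b (l 16192024) (l 16235440)) (l 16245144)) (b (a (b (l 16249984) (l 16236456)) (c (l 16245032) (b (l 16243672) (l 16238232)))) (c (l 16254056) (a (l 16245144) (b (l 16243248) (a (l 16254824) (l 16261408))))))) (b (a (c (a (b (l 16254448) (l 16249696)) (l 16276184)) (l 16276240)) (c (l 16318640) (b (l 16326768) (l 16320672)))) (c (a (a (b (c (l 16253456) (l 16255520)) (a (l 16266696) (l 16275152))) (l 16287560)) (l 16328992)) (a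 (l 16286192) (b (a (l 16317336) (l 16336296)) (a (l 16332744) (l 16351888)))))))), by decide +kernel⟩

def k6_pm_202 : ∃ t, chk3 f_pm_202 t 32 5 3 = true :=
  ⟨(a (b (c (a (b (b (l 16306168) (l 16205520)) (l 16198816)) (b (a (c (l 16219752) (l 16244864)) (c (l 16250488) (l 16261288))) (c (a (l 16227120) (l 16244448)) (a (l 16230728) (l 16254456))))) (a (b (c (a (l 16284520) (b (l 16274640) (l 16225752))) (a (c (l 16281280) (l 16258208)) (l 16253184))) (c (a (l 16206680) (l 16216264)) (a (c (l 16203008) (l 16200624)) (l 16214280)))) (c (b (l 16252168) (l 16239336)) (l 16217536)))) (c (a (b (l 16222184) (l 16172992)) (c (a (b (l 16231424) (l 16246496)) (l 16257520)) (a (l 16221952) (l 16266504)))) (a (c (a (l 16216408) (b (l 16219608) (l 16149904))) (a (c (l 16212768) (a (l 16207240) (l 16214064))) (l 16225472))) (c (b (l 16243104) (l 16257816)) (l 16241520))))) (b (c (c (a (b (l 16287856) (l 16281448)) (l 16314568)) (l 16244384)) (l 16268344)) (c (c (a (b (l 16285680) (l 16258888)) (l 16324528))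 (b (l 16287552) (l 16303656))) (c (l 16282400) (l 16275672))))), by decide +kernel⟩

def k7_pm_202 : ∃ t, chk3 f_pm_202 t 33 5 1 = true :=
  ⟨(c (c (b (a (a (b (l 16333824) (l 16328920)) (c (b (l 16382896) (l 16377688)) (b (l 16359896) (a (l 16391880) (l 16403816))))) (c (a (b (l 16416872) (l 16411952)) (l 16448384)) (l 16420200))) (a (c (a (l 16359104) (c (l 16412048) (b (l 16406968) (l 16381400)))) (a (b (l 16362488) (l 16378744)) (b (a (l 16376056) (l 16409440)) (a (c (l 16415864) (l 16412872)) (l 16426200))))) (c (c (a (a (b (l 16439264) (l 16455784)) (l 16459024)) (l 16468888)) (l 16451608)) (l 16414696)))) (b (c (a (a (b (l 16364784) (l 16317096)) (l 16381904)) (l 16397304)) (l 16364608)) (c (a (a (b (a (l 16357784) (l 16373520)) (a (l 16373568) (l 16389664))) (l 16394424)) (l 16414728)) (b (l 16370016) (l 16389296))))) (b (c (c (a (l 16332160) (l 16357848)) (a (l 16315296) (l 16350992))) (l 16327472)) (c (a (c (l 16346736) (l 16331176)) (b (l 16364160) (l 16344192))) (b (l 16334656) (l 16355504))))),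 by decide +kernel⟩

def k8_pm_202 : ∃ t, chk3 f_pm_202 t 17 8 2 = true :=
  ⟨(a (c (b (a (b (l 16451264) (c (l 16459624) (l 16488072))) (b (a (l 16479944) (l 16489256)) (c (l 16492352) (l 16519216)))) (a (l 16413856) (b (b (c (l 16502136) (l 16526944)) (l 16529328)) (l 16515856)))) (b (a (c (b (l 16477984) (l 16427920)) (b (l 16451224) (l 16416640))) (b (a (c (l 16508184) (l 16524224)) (b (l 16503144) (l 16521120))) (c (b (l 16525232) (c (l 16519432) (l 16513208))) (l 16522544)))) (c (a (l 16479896) (l 16470976)) (a (l 16460472) (l 16484984))))) (c (b (a (b (c (l 16495000) (a (l 16505160) (l 16510424))) (c (l 16519064) (l 16519192))) (b (c (a (l 16509040) (l 16514672)) (l 16514896)) (c (l 16538776) (l 16543840)))) (a (b (c (l 16456512) (c (a (l 16530976) (l 16534072)) (l 16506232))) (c (l 16532904) (l 16512608))) (c (b (a (l 16507760) (c (l 16557032) (l 16553856))) (a (l 16535992) (c (b (l 16548136) (l 16540096)) (l 16540824)))) (b (l 16548904) (l 16533384))))) (b (b (a (b (l 16505368) (l 16519440))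 (l 16500904)) (c (a (l 16519096) (l 16557128)) (l 16506648))) (b (c (a (b (l 16529088) (l 16517856)) (b (l 16553392) (l 16546384))) (l 16461000)) (l 16477376))))), by decide +kernel⟩

def k9_pm_202 : ∃ t, chk3 f_pm_202 t 17 9 2 = true :=
  ⟨(c (a (a (b (b (l 16491568) (b (l 16480512) (c (l 16486352) (l 16461128)))) (c (l 16474232) (l 16449536))) (b (c (l 16463720) (l 16459176)) (b (b (c (l 16471568) (l 16467504)) (l 16475256)) (l 16470296)))) (b (a (c (l 16492064) (c (a (l 16492160) (l 16497632)) (l 16467888))) (c (a (c (l 16522360) (l 16491384)) (c (a (l 16524232) (l 16506864)) (l 16523104))) (l 16515808))) (b (a (c (b (l 16499072) (l 16476928)) (c (a (l 16478152) (b (l 16485560) (l 16462384))) (a (b (l 16468848) (l 16466176)) (l 16480152)))) (c (a (c (l 16508192) (b (l 16501184) (a (l 16495816) (l 16499792)))) (c (a (b (l 16513632) (l 16489360)) (a (l 16513912) (l 16516872))) (l 16510104))) (b (l 16504984) (l 16501808)))) (a (c (l 16492728) (l 16473720)) (c (a (l 16500664) (l 16489056)) (l 16499592))))))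 (a (b (a (a (b (l 16418920) (c (l 16435688) (l 16413256))) (c (l 16447088) (l 16377784))) (c (c (l 16442288) (l 16435824)) (l 16453832))) (a (c (l 16425432) (l 16407048)) (b (c (b (a (l 16442520) (l 16452104)) (l 16443784)) (l 16440872)) (l 16436712)))) (b (c (l 16458976) (l 16500400)) (b (a (c (l 16472232) (l 16471632)) (b (l 16504080) (l 16500864))) (l 16482632))))), by decide +kernel⟩

def k10_pm_202 : ∃ t, chk3 f_pm_202 t 17 4 3 = true :=
  ⟨(b (b (c (a (a (b (l 16511976) (l 16484496)) (b (b (l 16502248) (l 16518528)) (l 16521680))) (b (a (l 16513256) (l 16516744)) (l 16523000))) (a (l 16428648) (b (a (l 16508896) (l 16515152)) (l 16540760)))) (c (a (l 16452592) (c (l 16492696) (l 16527336))) (a (l 16468144) (l 16527000)))) (b (a (c (c (l 16392120) (l 16433208)) (l 16410856)) (c (l 16478656) (l 16498584))) (b (a (a (l 16401000) (c (l 16439800) (l 16437928))) (c (a (l 16470544) (l 16499832)) (l 16483680))) (a (l 16410432) (l 16480192))))), by decide +kernel⟩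

def k11_pm_202 : ∃ t, chk3 f_pm_202 t 17 5 1 = true :=
  ⟨(c (b (a (c (b (c (l 16469736) (l 16445880)) (c (l 16470192) (l 16447312))) (c (a (l 16416200) (a (l 16430536) (l 16422744))) (b (l 16413864) (l 16395536)))) (c (a (b (c (l 16490048) (l 16471576)) (c (l 16495696) (l 16436072))) (b (c (a (l 16499944) (b (l 16509224) (c (l 16509240) (l 16505920)))) (l 16497888)) (c (a (b (l 16503696) (l 16497056)) (b (l 16475432) (l 16472064))) (b (l 16492128) (l 16478000))))) (b (a (l 16464032) (l 16496672)) (a (l 16470664) (b (l 16490728) (l 16476368)))))) (a (c (b (c (l 16481992) (l 16460168)) (a (l 16481640) (b (l 16491256) (l 16480432)))) (b (c (a (l 16427704) (l 16454608)) (a (l 16411368) (l 16448208))) (a (c (l 16451160) (l 16435664)) (c (b (l 16443712) (l 16412416)) (l 16449328))))) (c (b (a (c (b (l 16499144) (l 16488704)) (b (a (l 16482024) (l 16484112)) (a (l 16482040) (l 16463384)))) (c (a (l 16460216) (l 16429568)) (l 16439120))) (a (c (l 16448712) (l 16327336)) (c (a (l 16399840) (l 16370152))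 (l 16378952)))) (b (a (b (l 16474824) (l 16464632)) (l 16436960)) (l 16295904))))) (b (a (c (b (l 16407648) (l 16410352)) (l 16407992)) (b (c (l 16478592) (l 16476832)) (c (a (l 16468952) (l 16478408)) (l 16467656)))) (a (b (c (l 16424752) (l 16422600)) (c (a (l 16428544) (l 16447392)) (l 16409648))) (b (c (a (l 16464088) (l 16434104)) (l 16401200)) (c (l 16397160) (l 16393632)))))), by decide +kernel⟩

def k12_pm_202 : ∃ t, chk3 f_pm_202 t 18 4 2 = true :=
  ⟨(a (a (b (b (c (b (l 16517376) (l 16542488)) (b (l 16525136) (b (l 16536704) (l 16553712)))) (c (c (b (l 16572760) (c (l 16561808) (l 16562304))) (b (l 16572968) (b (l 16565296) (l 16556968)))) (b (c (l 16527120) (l 16565640)) (a (l 16553168) (l 16567016))))) (b (c (c (b (l 16548784) (l 16539808)) (l 16523136)) (l 16501680)) (a (c (b (c (l 16526184) (l 16525704)) (b (c (l 16524856) (l 16524304)) (l 16522168))) (b (l 16524792) (l 16523200))) (b (c (l 16514552) (l 16534576)) (b (c (l 16504336) (l 16524120)) (l 16513816)))))) (b (b (b (l 16506168)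 (c (l 16556248) (b (l 16550184) (l 16560864)))) (c (b (a (l 16572368) (l 16580144)) (c (l 16545128) (a (l 16578648) (l 16557752)))) (b (c (l 16496672) (l 16584048)) (b (c (l 16573192) (l 16579456)) (l 16561792))))) (b (c (b (l 16546568) (l 16525360)) (l 16513080)) (b (c (l 16501904) (l 16500376)) (c (b (l 16482840) (l 16472568)) (l 16476192)))))) (b (b (a (b (l 16573560) (b (l 16557664) (l 16545120))) (l 16490464)) (b (c (a (l 16532560) (l 16462456)) (c (l 16477760) (l 16432528))) (c (a (b (l 16512904) (l 16503192)) (c (l 16440864) (l 16438328))) (a (l 16491424) (l 16438240))))) (c (b (b (a (c (l 16488872) (l 16485896)) (b (l 16425800) (l 16416288))) (l 16431120)) (b (l 16408600) (a (l 16416040) (l 16352256)))) (b (a (l 16473080) (l 16392312)) (b (l 16405584) (l 16380600)))))), by decide +kernel⟩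

def k13_pm_202 : ∃ t, chk3 f_pm_202 t 18 4 3 = true :=
  ⟨(b (a (b (b (a (l 16482160) (l 16525488)) (c (a (l 16541896) (l 16497152)) (a (l 16539000) (l 16555816)))) (c (b (a (l 16564416) (l 16581872)) (l 16562440)) (a (l 16567624) (l 16577448)))) (c (b (l 16499472) (a (l 16474216) (l 16410416))) (b (l 16520360) (b (l 16495912) (l 16471400))))) (b (a (c (a (l 16542984) (l 16533128)) (l 16471632)) (c (l 16437376) (l 16434944))) (a (a (c (b (l 16527712) (b (l 16522048) (l 16514624))) (b (l 16526736) (l 16517296))) (b (l 16498088) (l 16431464))) (c (l 16324792) (l 16384456))))), by decide +kernel⟩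

def k14_pm_202 : ∃ t, chk3 f_pm_202 t 19 4 1 = true :=
  ⟨(c (a (b (b (a (l 16414776) (l 16356040)) (c (a (b (l 16387616) (l 16367512)) (l 16319256)) (a (b (l 16380576) (l 16360312)) (l 16313688)))) (b (a (b (c (c (l 16349632) (l 16312216)) (l 16330984)) (l 16326808)) (c (l 16266800) (l 16285032))) (a (c (l 16297552) (l 16292816)) (l 16241672)))) (b (b (l 16278664) (c (l 16240440) (l 16237216))) (b (c (l 16102776) (l 16205368)) (l 16169792)))) (b (b (a (l 16358312) (l 16269024)) (b (a (a (l 16315120) (l 16317912)) (l 16242752)) (a (a (l 16342136) (l 16305920)) (l 16223528)))) (b (a (a (l 16329016) (l 16275672)) (c (l 16201488) (l 16195224))) (a (a (l 16285776) (l 16230616)) (l 16156672))))), by decide +kernel⟩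

def k15_pm_202 : ∃ t, chk3 f_pm_202 t 9 5 1 = true :=
  ⟨(a (a (b (c (b (c (a (b (a (l 16514216) (l 16495680)) (l 16483296)) (l 16440456)) (b (l 16413584) (l 16453568))) (c (a (l 16443736) (l 16389096)) (l 16413736))) (b (c (l 16419648) (l 16459376)) (l 16325208))) (c (c (b (a (l 16388320) (l 16335144)) (l 16262272)) (b (l 16358088) (l 16299288))) (c (b (l 16354064) (l 16294296)) (l 16257032)))) (b (b (a (c (l 16379512) (l 16372448)) (c (b (l 16330472) (l 16305048)) (l 16247712))) (c (l 16299408) (l 16289760))) (c (b (l 16247688) (l 16192856)) (b (l 16236352) (l 16179768))))) (b (b (a (b (c (a (b (l 16268008) (l 16257096)) (l 16210128)) (a (l 16253368) (l 16198000))) (c (l 16214728) (l 16202712))) (c (c (l 16133480) (l 16126256)) (c (l 16119040) (l 16111824)))) (c (a (l 16180584) (l 16086976)) (l 16120256))) (c (b (a (l 16132784) (l 16041776)) (a (l 16081904) (l 15993520))) (b (a (l 16118168) (l 16024648)) (a (l 16065712) (l 15974928)))))), by decide +kernel⟩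

def k16_pm_202 : ∃ t, chk3 f_pm_202 t 32 12 2 = true :=
  ⟨(a (c (b (l 16293928) (l 16330176)) (c (l 16302384) (a (l 16290408) (a (l 16297696) (b (a (l 16281736) (l 16267640)) (a (l 16320528) (c (l 16326048) (l 16328384)))))))) (c (a (c (c (l 16331560) (a (l 16325976) (a (l 16329248) (b (l 16312192) (l 16352880))))) (a (b (l 16300408) (l 16339952)) (c (a (b (l 16305936) (l 16346256)) (l 16336176)) (b (l 16314256) (l 16354440))))) (c (c (a (a (b (l 16318648) (l 16338712)) (l 16351680)) (l 16372200)) (l 16364360)) (l 16372952))) (a (c (a (a (c (l 16314720) (b (l 16293552) (l 16333128))) (b (l 16302976) (l 16342728))) (l 16343328)) (l 16340680)) (c (l 16384096) (a (b (l 16359568) (l 16398472)) (c (b (l 16382096) (l 16421128)) (l 16398256))))))), by decide +kernel⟩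

def k17_pm_202 : ∃ t, chk3 f_pm_202 t 32 13 2 = true :=
  ⟨(a (b (c (b (l 16348040) (l 16308512)) (a (l 16311048) (c (l 16323768) (a (l 16317000) (a (b (l 16340272) (l 16301208)) (c (b (l 16346176) (l 16303000)) (l 16326776))))))) (c (b (l 16235264) (l 16126808)) (a (b (l 16232720) (l 16125600)) (a (l 16158936) (c (l 16148144) (b (a (l 16207136) (l 16161728)) (b (a (l 16117720) (l 16114232)) (l 16056792)))))))) (c (b (a (a (b (l 16321712) (c (l 16313984) (l 16307600))) (c (c (l 16232904) (a (l 16337000) (b (l 16310752) (l 16300968)))) (b (a (c (l 16367424) (l 16368904)) (l 16378672)) (a (c (l 16303744) (l 16304888)) (l 16305304))))) (a (c (a (b (c (b (l 16387640) (l 16370048)) (l 16382048)) (l 16257464)) (l 16260712)) (l 16266280)) (b (l 16405064) (l 16308776)))) (a (a (b (l 16206128) (l 16069504)) (c (b (l 16132480) (b (l 16108080) (l 16049600))) (a (b (l 16110784) (b (l 16106720) (l 16047784))) (l 16069712)))) (c (b (a (l 16148088) (l 16193488)) (b (l 16104480) (l 16045744))) (l 16137256))))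 (c (b (a (a (b (a (c (l 16354032) (l 16353576)) (l 16363352)) (a (c (l 16305560) (l 16304888)) (l 16244584))) (l 16282656)) (l 16237536)) (a (a (b (a (l 16158696) (l 16198632)) (b (a (l 16111920) (l 16109880)) (l 16052208))) (l 16138824)) (l 16144192))) (a (b (l 16260176) (l 16143968)) (a (b (b (c (l 16411248) (l 16393440)) (l 16325352)) (b (l 16211368) (l 16008112))) (b (c (b (b (l 16444272) (l 16407648)) (l 16325784)) (l 16286880)) (b (l 16145800) (b (l 16118696) (l 16057752))))))))), by decide +kernel⟩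

def k18_pm_202 : ∃ t, chk3 f_pm_202 t 32 6 6 = true :=
  ⟨(a (b (a (c (l 16283200) (b (l 16257208) (c (l 16295232) (l 16292416)))) (c (c (a (l 16292720) (l 16287592)) (a (b (l 16271608) (l 16288896)) (l 16313456))) (a (b (l 16275392) (l 16313392)) (b (l 16298936) (l 16337000))))) (a (b (a (l 16293896) (c (l 16304320) (b (l 16315768) (l 16279968)))) (a (b (l 16223328) (l 16117208)) (a (l 16096920) (c (l 16157864) (b (l 16213808) (c (l 16097272) (l 16094928))))))) (b (c (a (a (l 16309504) (c (l 16314104) (l 16230392))) (b (l 16348984) (l 16305992))) (a (c (a (l 16265160) (l 16317776)) (l 16315608)) (c (l 16333928) (b (l 16357488) (l 16313640))))) (b (a (c (a (l 16213984) (l 16146344)) (l 16150120)) (c (l 16208784) (l 16214096))) (b (a (c (a (l 16124112) (l 16056288)) (l 16101360)) (c (l 16118480) (l 16122872))) (c (l 16060832) (l 16060400))))))) (c (b (a (a (l 16337488) (b (l 16318504) (c (l 16379584) (l 16378488)))) (b (l 16359064) (l 16398784))) (b (a (c (b (l 16385496) (l 16321160)) (a (l 16307192)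 (b (l 16397440) (l 16325888)))) (b (l 16321928) (l 16314528))) (a (a (l 16064960) (a (b (l 16213272) (l 16030616)) (c (l 16003808) (l 16146656)))) (b (l 16199928) (l 16079800))))) (c (b (a (b (l 16326008) (l 16364696)) (l 16366912)) (b (a (a (b (l 16377952) (l 16322544)) (l 16353176)) (l 16346480)) (a (a (b (l 16213576) (l 16093512)) (l 16141128)) (l 16123872)))) (b (l 16348832) (b (l 16273080) (l 16127000)))))), by decide +kernel⟩

def k19_pm_202 : ∃ t, chk3 f_pm_202 t 32 6 7 = true :=
  ⟨(b (a (a (c (a (l 16266368) (b (c (l 16258328) (l 16259456)) (c (l 16295840) (l 16296880)))) (a (a (c (l 16259448) (a (l 16255224) (l 16258120))) (c (l 16244784) (l 16264648))) (b (l 16257088) (l 16294624)))) (c (b (l 16221024) (a (l 16315840) (l 16330432))) (l 16295040))) (c (b (l 16318200) (l 16358944)) (l 16333440))) (a (a (b (c (a (l 16283816) (c (a (l 16291664) (l 16301120)) (a (l 16292504) (l 16304312)))) (a (c (a (l 16276720) (l 16241704)) (a (a (l 16272440) (l 16275672)) (l 16282496))) (c (l 16296816)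 (l 16292640)))) (c (a (b (l 16212776) (l 16105784)) (a (b (c (l 16212712) (l 16213120)) (b (l 16084656) (l 16065048))) (c (l 16046200) (b (l 16216360) (l 16097672))))) (a (c (a (b (l 16209328) (l 16103440)) (b (l 16189880) (b (l 16127960) (l 16065976)))) (a (b (c (l 16207496) (l 16206304)) (b (c (l 16130224) (l 16128904)) (l 16067336))) (b (l 16209408) (l 16097384)))) (c (b (l 16211920) (l 16095328)) (l 16082320))))) (b (c (a (c (l 16255464) (l 16315848)) (l 16306792)) (l 16269408)) (c (a (b (c (l 16216224) (l 16213384)) (c (l 16096280) (l 16093080))) (l 16059328)) (b (l 16200800) (l 16080024))))) (b (c (b (l 16286392) (l 16293568)) (l 16237432)) (c (b (l 16181816) (l 16019144)) (l 16110640))))), by decide +kernel⟩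

def k20_pm_202 : ∃ t, chk3 f_pm_202 t 33 6 2 = true :=
  ⟨(b (a (c (a (b (c (l 16395120) (l 16406440)) (c (l 16433000) (b (l 16434456) (l 16411456)))) (c (b (c (l 16447544) (a (l 16439584) (l 16463872))) (a (l 16467880) (c (l 16483528) (b (l 16491576) (l 16483968))))) (c (b (a (l 16443472) (l 16459296)) (a (b (l 16471472) (l 16479080)) (l 16460456))) (b (l 16445096) (b (l 16473224) (l 16471912)))))) (c (a (b (a (c (l 16401472) (l 16402024)) (l 16417360)) (a (c (l 16440600) (l 16441128)) (c (a (l 16456832) (l 16462040)) (l 16450984)))) (b (l 16431184) (l 16456584))) (b (l 16403816) (l 16432616)))) (c (c (b (a (c (a (l 16483856) (l 16495464)) (l 16481568)) (l 16498568)) (a (a (c (b (l 16464624) (l 16483376)) (l 16487608)) (l 16485672)) (l 16469152))) (b (l 16471872) (l 16415200))) (b (b (l 16436624) (l 16451632)) (b (l 16446768) (l 16417376))))) (a (c (b (a (b (c (l 16414000) (a (l 16421416) (l 16426984))) (l 16315216)) (c (c (l 16371096) (a (l 16373336) (b (l 16427152) (l 16322176)))) (a (c (b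 (l 16428376) (l 16323192)) (l 16310416)) (l 16366240)))) (a (b (l 16203232) (c (l 16082624) (l 16088600))) (c (a (l 16143752) (b (l 16208456) (l 16068464))) (a (b (l 16165712) (c (l 16090920) (l 16087144))) (l 16115992))))) (b (c (a (a (c (l 16334824) (b (l 16366128) (l 16324216))) (b (l 16382336) (l 16318456))) (l 16354624)) (l 16327944)) (c (a (a (b (l 16167960) (c (l 16091696) (l 16090696))) (b (l 16204816) (l 16064080))) (l 16124728)) (l 16118696)))) (b (c (c (a (c (a (b (l 16425576) (l 16320816)) (l 16364288)) (l 16361312)) (l 16340608)) (l 16334928)) (l 16266184)) (c (a (a (c (b (l 16204560) (l 16085184)) (l 16125064)) (l 16122264)) (l 16103896)) (b (l 16142368) (l 16022544)))))), by decide +kernel⟩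

def k21_pm_202 : ∃ t, chk3 f_pm_202 t 33 6 3 = true :=
  ⟨(b (c (b (a (c (l 16385320) (l 16370976)) (c (a (l 16411648) (l 16428056)) (l 16413456))) (a (c (l 16415248) (b (l 16401632) (l 16408744))) (c (b (l 16402744) (l 16394640)) (l 16401208)))) (b (l 16323400) (a (l 16394872) (l 16398504)))) (b (c (a (c (l 16331968) (b (l 16350320) (l 16265480))) (c (b (l 16337472) (l 16232080)) (l 16278728))) (b (l 16345680) (l 16238824))) (c (a (c (l 16101360) (b (l 16151112) (l 15988552))) (c (b (l 16118872) (l 15956680)) (l 16047952))) (b (l 16123600) (l 15917784))))), by decide +kernel⟩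

def k22_pm_202 : ∃ t, chk3 f_pm_202 t 17 6 1 = true :=
  ⟨(b (c (a (a (b (c (b (l 16490752) (l 16473712)) (c (l 16407416) (b (l 16404632) (l 16430360)))) (c (l 16419256) (c (l 16391168) (l 16376704)))) (c (b (l 16434864) (l 16362544)) (c (b (l 16388304) (l 16337552)) (l 16367336)))) (c (a (c (l 16222288) (b (l 16324736) (l 16296680))) (c (b (a (l 16335696) (l 16306992)) (a (l 16267128) (l 16239456))) (l 16281232))) (b (l 16293400) (l 16265456)))) (a (b (a (c (b (l 16439640) (l 16423320)) (l 16424624)) (l 16398440)) (c (l 16348176) (l 16344200))) (b (c (l 16330656) (l 16326048)) (c (l 16259664) (l 16253944))))) (c (a (c (b (b (l 16316336) (l 16213152)) (b (l 16102312) (l 15983664))) (b (a (c (l 16264192) (b (l 16301296) (l 16197096))) (c (b (l 16263488) (l 16160576)) (l 16205200))) (a (c (l 16038112) (b (l 16085152) (l 15965664))) (c (b (l 16050000) (l 15931720)) (l 15980584))))) (c (b (a (c (l 16189560) (b (l 16224088) (l 16122560))) (c (a (l 16146080) (l 16098536)) (l 16125536))) (a (c (l 15970336)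 (b (l 16013448) (l 15896864))) (c (a (l 15929984) (l 15905152)) (l 15908704)))) (b (a (l 16164104) (l 16119640)) (a (l 15942432) (l 15900496))))) (a (b (c (l 16073760) (l 16172720)) (c (b (l 16054984) (l 15934488)) (b (l 16046744) (l 15924576)))) (b (b (l 16140536) (l 16015296)) (c (l 15784560) (b (l 15961296) (l 15840688))))))), by decide +kernel⟩

def k23_pm_202 : ∃ t, chk3 f_pm_202 t 16 14 1 = true :=
  ⟨(a (c (a (b (a (l 15942024) (c (l 15923544) (b (l 15972256) (l 15841088)))) (c (l 15651320) (b (l 15564864) (l 15549512)))) (c (b (a (a (l 15902904) (c (l 15893880) (l 15891016))) (l 15891864)) (a (c (l 15617800) (l 15526896)) (l 15607296))) (a (b (c (l 15768544) (l 15896792)) (c (l 15607136) (l 15606744))) (b (c (l 15898048) (l 15897216)) (c (l 15608968) (l 15605672)))))) (a (c (a (b (l 15915992) (l 15560056)) (b (c (a (l 15901080) (l 15897248)) (a (l 15899424) (l 15899464))) (c (a (l 15609840) (l 15605704)) (a (l 15605840) (l 15605136))))) (a (c (b (a (l 15909440) (l 15733488)) (a (l 15613712)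 (c (l 15606472) (l 15604416)))) (a (b (c (l 15904384) (l 15796192)) (c (l 15607320) (a (l 15583936) (l 15601576)))) (b (l 15896232) (l 15598680)))) (c (b (l 15893496) (l 15513776)) (b (l 15883144) (l 15585912))))) (c (b (a (c (l 15898192) (l 15890336)) (l 15878384)) (c (a (l 15605448) (l 15593760)) (l 15522952))) (b (l 15841576) (c (l 15571304) (l 15561160)))))) (c (b (c (a (a (l 15896984) (c (l 15900040) (l 15893912))) (l 15808040)) (a (c (a (l 15895808) (l 15878136)) (l 15871248)) (l 15834152))) (c (a (b (l 15666408) (l 15526552)) (l 15562760)) (a (b (l 15605240) (l 15505472)) (l 15545848)))) (b (c (b (l 15892704) (l 15739272)) (l 15808872)) (c (b (l 15595760) (l 15453440)) (l 15409616))))), by decide +kernel⟩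

def k24_pm_202 : ∃ t, chk3 f_pm_202 t 16 15 1 = true :=
  ⟨(a (c (a (b (c (l 15327936) (b (l 15382832) (l 15231744))) (a (l 15013720) (c (l 14998488) (b (l 15057816) (l 14898736))))) (b (c (a (b (l 15376120) (l 15212920)) (l 15285592)) (a (c (l 15289128) (l 15284016)) (c (l 15289008) (l 15281360)))) (c (a (b (l 15047824) (l 14904640)) (l 14969440)) (b (c (l 15001544) (a (l 15047320) (l 15043480))) (a (l 14887080) (l 1)))))) (a (c (b (a (l 15296880) (c (a (l 15285736) (l 15281288)) (a (l 15279176) (l 15277696)))) (a (b (l 15065568) (l 14898632)) (c (b (l 15052584) (l 14821800)) (b (a (l 15049272) (l 15047184)) (a (l 14881704) (l 14879216)))))) (a (b (c (a (l 15284664) (c (l 15278280) (l 15274944))) (a (c (l 15255832) (a (l 15126592) (l 15270064))) (l 15225712))) (c (a (b (l 15053360) (l 14889600)) (b (l 15045688) (c (l 14882632) (l 14880472)))) (a (c (b (l 15044496) (l 14883080)) (a (b (l 15040392) (l 14879072)) (l 14959416))) (c (l 14961864) (l 14953496))))) (b (c (l 15163696) (l 15255264)) (c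 (b (l 15037232) (a (l 14877408) (l 14870544))) (l 14821744))))) (c (b (a (c (l 15279768) (l 15268392)) (l 15258832)) (a (c (b (l 15047168) (l 14878608)) (b (l 15037856) (l 14869880))) (b (l 15027544) (l 1)))) (b (c (l 15243088) (l 15231168)) (b (l 15006280) (c (l 329668113735) (l 14839624))))))) (b (c (c (a (a (l 15286632) (c (l 15285976) (l 15282128))) (b (l 15342272) (l 15177616))) (a (a (c (l 15284320) (l 15267088)) (l 15259760)) (l 15228760))) (c (b (l 15222768) (a (l 15154480) (l 15117648))) (b (l 15261592) (l 15111240)))) (b (a (b (c (c (l 15073256) (l 15066176)) (c (l 15041160) (l 15012968))) (l 1)) (l 1)) (l 1)))), by decide +kernel⟩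

def k25_pm_202 : ∃ t, chk3 f_pm_202 t 17 7 1 = true :=
  ⟨(a (b (c (b (c (l 15799392) (b (l 15830912) (l 15701360))) (c (l 15516080) (b (l 15560984) (l 15401216)))) (b (c (l 15747176) (l 15734696)) (c (l 15375288) (l 15358896)))) (b (b (a (c (l 15253592) (l 15219336)) (l 1)) (l 1)) (l 1))) (b (b (c (c (a (l 15724152) (c (l 15681568) (l 15671096))) (l 15681160)) (b (l 15724608) (l 15594440))) (c (c (a (l 15256704) (c (l 15406576) (l 15394544))) (l 209946866439)) (b (l 15453360) (l 15292600)))) (l 1))), by decide +kernel⟩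

def k26_pm_202 : ∃ t, chk3 f_pm_202 t 9 3 1 = true :=
  ⟨(b (b (b (a (c (a (c (l 16242688) (l 16236760)) (l 16134400)) (a (c (l 16230776) (l 16224784)) (l 16119496))) (c (a (c (l 16031960) (l 16023040)) (l 273835911095)) (c (l 15908176) (l 15961608)))) (a (c (a (c (l 16176864) (l 16169904)) (l 16071768)) (a (c (l 16162880) (l 16155864)) (l 16054968))) (a (a (c (l 15991104) (l 15972112)) (c (l 15946712) (l 15926536))) (l 1)))) (a (c (a (b (c (b (l 16107640) (l 16008664)) (l 16049880)) (c (a (l 15868496) (l 15824064)) (l 15834208))) (b (b (l 16004968) (l 15907352)) (l 15747608))) (b (a (c (l 15978200) (l 15906520)) (b (l 15986208) (l 15885776))) (a (a (l 15818776) (l 15793784)) (l 15721440)))) (a (a (a (b (c (l 15871400) (l 15870480)) (l 1)) (l 1)) (l 1)) (l 1)))) (b (a (b (a (c (b (c (l 15674200) (l 15659984)) (l 15478072)) (b (a (l 15660088) (l 15615696)) (l 15509000))) (l 1)) (l 1)) (l 1)) (l 1))), by decide +kernel⟩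

def k27_pm_202 : ∃ t, chk3 f_pm_202 t 5 1 1 = true :=
  ⟨(b (a (a (b (b (b (c (b (a (l 16178528) (l 16061144)) (l 16103240)) (b (a (l 16165976) (l 16045192)) (l 16088464))) (c (a (b (l 16144088) (l 16057912)) (l 16018840)) (a (l 16054296) (l 16001576)))) (c (b (c (a (b (l 16112960) (l 16093648)) (c (l 15991704) (l 15901216))) (a (b (l 16104608) (l 16089640)) (b (l 15984736) (l 15974440)))) (c (a (b (l 16085624) (l 16061152)) (c (l 15859544) (l 15960160))) (a (l 16067032) (l 15952840)))) (b (c (a (l 16095000) (l 15971432)) (a (l 16087448) (l 15963336))) (c (l 15833160) (l 15988792))))) (a (b (b (c (b (l 16038568) (l 16019816)) (c (l 16014408) (l 16005752))) (c (l 15989560) (l 15971112))) (c (b (l 15947384) (l 15902176)) (b (l 15927656) (l 15881088)))) (a (b (b (c (l 15946432) (l 15926880)) (c (l 15911416) (l 15890776))) (l 1)) (l 1)))) (b (b (l 1) (l 1)) (l 1))) (l 1)) (b (l 1) (l 1))), by decide +kernel⟩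

def k28_pm_202 : ∃ t, chk3 f_pm_202 t 3 1 1 = true :=
  ⟨(l 1), by decide +kernel⟩

theorem s29_pm_202 : ∃ t, chk3 f_pm_202 t 16 7 1 = true := ex3_b k23_pm_202 k24_pm_202

theorem s30_pm_202 : ∃ t, chk3 f_pm_202 t 8 7 1 = true := ex3_a s29_pm_202 k25_pm_202

theorem s31_pm_202 : ∃ t, chk3 f_pm_202 t 33 6 1 = true := ex3_c k20_pm_202 k21_pm_202

theorem s32_pm_202 : ∃ t, chk3 f_pm_202 t 32 6 3 = true := ex3_c k18_pm_202 k19_pm_202

theorem s33_pm_202 : ∃ t, chk3 f_pm_202 t 32 6 2 = true := ex3_b k16_pm_202 k17_pm_202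

theorem s34_pm_202 : ∃ t, chk3 f_pm_202 t 32 6 1 = true := ex3_c s33_pm_202 s32_pm_202

theorem s35_pm_202 : ∃ t, chk3 f_pm_202 t 16 6 1 = true := ex3_a s34_pm_202 s31_pm_202

theorem s36_pm_202 : ∃ t, chk3 f_pm_202 t 8 6 1 = true := ex3_a s35_pm_202 k22_pm_202

theorem s37_pm_202 : ∃ t, chk3 f_pm_202 t 8 3 1 = true := ex3_b s36_pm_202 s30_pm_202

theorem s38_pm_202 : ∃ t, chk3 f_pm_202 t 4 3 1 = true := ex3_a s37_pm_202 k26_pm_202

theorem s39_pm_202 : ∃ t, chk3 f_pm_202 t 18 4 1 = true := ex3_c k12_pm_202 k13_pm_202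

theorem s40_pm_202 : ∃ t, chk3 f_pm_202 t 9 4 1 = true := ex3_a s39_pm_202 k14_pm_202

theorem s41_pm_202 : ∃ t, chk3 f_pm_202 t 9 2 1 = true := ex3_b s40_pm_202 k15_pm_202

theorem s42_pm_202 : ∃ t, chk3 f_pm_202 t 17 4 2 = true := ex3_b k8_pm_202 k9_pm_202

theorem s43_pm_202 : ∃ t, chk3 f_pm_202 t 17 4 1 = true := ex3_c s42_pm_202 k10_pm_202

theorem s44_pm_202 : ∃ t, chk3 f_pm_202 t 17 2 1 = true := ex3_b s43_pm_202 k11_pm_202

theorem s45_pm_202 : ∃ t, chk3 f_pm_202 t 32 5 1 = true := ex3_c k5_pm_202 k6_pm_202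

theorem s46_pm_202 : ∃ t, chk3 f_pm_202 t 16 5 1 = true := ex3_a s45_pm_202 k7_pm_202

theorem s47_pm_202 : ∃ t, chk3 f_pm_202 t 32 9 1 = true := ex3_a k2_pm_202 k3_pm_202

theorem s48_pm_202 : ∃ t, chk3 f_pm_202 t 16 9 1 = true := ex3_a s47_pm_202 k4_pm_202

theorem s49_pm_202 : ∃ t, chk3 f_pm_202 t 16 8 1 = true := ex3_a k0_pm_202 k1_pm_202

theorem s50_pm_202 : ∃ t, chk3 f_pm_202 t 16 4 1 = true := ex3_b s49_pm_202 s48_pm_202

theorem s51_pm_202 : ∃ t, chk3 f_pm_202 t 16 2 1 = true := ex3_b s50_pm_202 s46_pm_202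

theorem s52_pm_202 : ∃ t, chk3 f_pm_202 t 8 2 1 = true := ex3_a s51_pm_202 s44_pm_202

theorem s53_pm_202 : ∃ t, chk3 f_pm_202 t 4 2 1 = true := ex3_a s52_pm_202 s41_pm_202

theorem s54_pm_202 : ∃ t, chk3 f_pm_202 t 4 1 1 = true := ex3_b s53_pm_202 s38_pm_202

theorem s55_pm_202 : ∃ t, chk3 f_pm_202 t 2 1 1 = true := ex3_a s54_pm_202 k27_pm_202

theorem s56_pm_202 : ∃ t, chk3 f_pm_202 t 1 1 1 = true := ex3_a s55_pm_202 k28_pm_202

theorem c_pm_202 : CertFX 1073741824 536870912 0 536870912 1046898278 26843546 false true false .pp 2 0 2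
    ndF6q2 ndF0q2 pcF0 Cut.none Ext.none :=
  certFX2 (fam := false) (s1 := true) (s2 := false) (a := 2) (b := 0) (c := 2) (cn := .pp) (n1 := ndF6q2) (n2 := ndF0q2) (pc := pcF0) (cut := Cut.none) (xt := Ext.none) (P1 := 1073741824) (W1 := 536870912) (P2 := 0) (W2 := 536870912) (P3 := 1046898278) (W3 := 26843546)
    rfl (fun _ => rfl) s56_pm_202

noncomputable def f_mm_001 : ℕ → ℕ → ℕ → ℕ → Bool := onCell 0 536870912 536870912 536870912 1046898278 26843546
    (rowFX 0 false false false .up 0 0 1 (qsf 0 536870912 536870912 536870912 0) ndF6q0 ndF0q1 pcF0 Cut.none Ext.none)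

def k0_mm_001 : ∃ t, chk3 f_mm_001 t 1 1 1 = true :=
  ⟨(l 5), by decide +kernel⟩

theorem c_mm_001 : CertFX 0 536870912 536870912 536870912 1046898278 26843546 false false false .up 0 0 1
    ndF6q0 ndF0q1 pcF0 Cut.none Ext.none :=
  certFX0 (fam := false) (s1 := false) (s2 := false) (a := 0) (b := 0) (c := 1) (cn := .up) (n1 := ndF6q0) (n2 := ndF0q1) (pc := pcF0) (cut := Cut.none) (xt := Ext.none) (P1 := 0) (W1 := 536870912) (P2 := 536870912) (W2 := 536870912) (P3 := 1046898278) (W3 := 26843546)
    rfl k0_mm_001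

noncomputable def f_mm_011 : ℕ → ℕ → ℕ → ℕ → Bool := onCell 0 536870912 536870912 536870912 1046898278 26843546
    (rowFX 0 false false false .pnn 0 1 1 (qsf 0 536870912 536870912 536870912 1) ndF6q0 ndF0q1 pcF1 Cut.none Ext.none)

def k0_mm_011 : ∃ t, chk3 f_mm_011 t 1 1 1 = true :=
  ⟨(l 5), by decide +kernel⟩

theorem c_mm_011 : CertFX 0 536870912 536870912 536870912 1046898278 26843546 false false false .pnn 0 1 1
    ndF6q0 ndF0q1 pcF1 Cut.none Ext.none :=
  certFX0 (fam := false) (s1 := false) (s2 := false) (a := 0) (b := 1) (c := 1) (cn := .pnn) (n1 := ndF6q0) (n2 := ndF0q1) (pc := pcF1) (cut := Cut.none) (xt := Ext.none) (P1 := 0) (W1 := 536870912) (P2 := 536870912) (W2 := 536870912) (P3 := 1046898278) (W3 := 26843546)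
    rfl k0_mm_011

noncomputable def f_mm_012 : ℕ → ℕ → ℕ → ℕ → Bool := onCell 0 536870912 0 536870912 1046898278 26843546
    (rowFX 0 false false false .pnp 0 1 2 (qsf 0 536870912 0 536870912 1) ndF6q0 ndF0q2 pcF1 Cut.none Ext.none)

def k0_mm_012 : ∃ t, chk3 f_mm_012 t 1 1 1 = true :=
  ⟨(l 5), by decide +kernel⟩

theorem c_mm_012 : CertFX 0 536870912 0 536870912 1046898278 26843546 false false false .pnp 0 1 2
    ndF6q0 ndF0q2 pcF1 Cut.none Ext.none :=
  certFX0 (fam := false) (s1 := false) (s2 := false) (a := 0) (b := 1) (c := 2) (cn := .pnp) (n1 := ndF6q0) (n2 := ndF0q2) (pc := pcF1) (cut := Cut.none) (xt := Ext.none) (P1 := 0) (W1 := 536870912) (P2 := 0) (W2 := 536870912) (P3 := 1046898278) (W3 := 26843546)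
    rfl k0_mm_012

noncomputable def f_mm_022 : ℕ → ℕ → ℕ → ℕ → Bool := onCell 0 536870912 0 536870912 1046898278 26843546
    (rowFX 0 false false false .pp 0 2 2 (qsf 0 536870912 0 536870912 2) ndF6q0 ndF0q2 pcF2 Cut.none Ext.none)

def k0_mm_022 : ∃ t, chk3 f_mm_022 t 1 1 1 = true :=
  ⟨(l 5), by decide +kernel⟩

theorem c_mm_022 : CertFX 0 536870912 0 536870912 1046898278 26843546 false false false .pp 0 2 2
    ndF6q0 ndF0q2 pcF2 Cut.none Ext.none :=
  certFX0 (fam := false) (s1 := false) (s2 := false) (a := 0) (b := 2) (c := 2) (cn := .pp) (n1 := ndF6q0) (n2 := ndF0q2) (pc := pcF2) (cut := Cut.none) (xt := Ext.none) (P1 := 0) (W1 := 536870912) (P2 := 0) (W2 := 536870912) (P3 := 1046898278) (W3 := 26843546)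
    rfl k0_mm_022

noncomputable def f_mm_101 : ℕ → ℕ → ℕ → ℕ → Bool := onCell 0 536870912 536870912 536870912 1046898278 26843546
    (rowFX 2 false false false .npn 1 0 1 (qsf 536870912 469762048 536870912 536870912 0) ndF6q1 ndF0q1 pcF0 Cut.none Ext.none)

def k0_mm_101 : ∃ t, chk3 f_mm_101 t 1 1 1 = true :=
  ⟨(l 5), by decide +kernel⟩

theorem c_mm_101 : CertFX 536870912 469762048 536870912 536870912 1046898278 26843546 false false false .npn 1 0 1
    ndF6q1 ndF0q1 pcF0 Cut.none Ext.none :=
  certFX2 (fam := false) (s1 := false) (s2 := false) (a := 1) (b := 0) (c := 1) (cn := .npn) (n1 := ndF6q1) (n2 := ndF0q1) (pc := pcF0) (cut := Cut.none) (xt := Ext.none) (P1 := 536870912) (W1 := 469762048) (P2 := 536870912) (W2 := 536870912) (P3 := 1046898278) (W3 := 26843546)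
    rfl (fun _ => rfl) k0_mm_101

noncomputable def f_mm_102 : ℕ → ℕ → ℕ → ℕ → Bool := onCell 536870912 469762048 0 536870912 1046898278 26843546
    (rowFX 0 false false false .npp 1 0 2 (qsf 536870912 469762048 0 536870912 0) ndF6q1 ndF0q2 pcF0 Cut.none Ext.none)

def k0_mm_102 : ∃ t, chk3 f_mm_102 t 1 1 1 = true :=
  ⟨(l 5), by decide +kernel⟩

theorem c_mm_102 : CertFX 536870912 469762048 0 536870912 1046898278 26843546 false false false .npp 1 0 2
    ndF6q1 ndF0q2 pcF0 Cut.none Ext.none :=
  certFX0 (fam := false) (s1 := false) (s2 := false) (a := 1) (b := 0) (c := 2) (cn := .npp) (n1 := ndF6q1) (n2 := ndF0q2) (pc := pcF0) (cut := Cut.none) (xt := Ext.none) (P1 := 536870912) (W1 := 469762048) (P2 := 0) (W2 := 536870912) (P3 := 1046898278) (W3 := 26843546)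
    rfl k0_mm_102

noncomputable def f_mm_112 : ℕ → ℕ → ℕ → ℕ → Bool := onCell 536870912 469762048 0 536870912 1046898278 26843546
    (rowFX 0 false false false .dn 1 1 2 (qsf 536870912 469762048 0 536870912 1) ndF6q1 ndF0q2 pcF1 Cut.none Ext.none)

def k0_mm_112 : ∃ t, chk3 f_mm_112 t 1 1 1 = true :=
  ⟨(l 5), by decide +kernel⟩

theorem c_mm_112 : CertFX 536870912 469762048 0 536870912 1046898278 26843546 false false false .dn 1 1 2
    ndF6q1 ndF0q2 pcF1 Cut.none Ext.none :=
  certFX0 (fam := false) (s1 := false) (s2 := false) (a := 1) (b := 1) (c := 2) (cn := .dn) (n1 := ndF6q1) (n2 := ndF0q2) (pc := pcF1) (cut := Cut.none) (xt := Ext.none) (P1 := 536870912) (W1 := 469762048) (P2 := 0) (W2 := 536870912) (P3 := 1046898278) (W3 := 26843546)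
    rfl k0_mm_112

noncomputable def f_mm_202 : ℕ → ℕ → ℕ → ℕ → Bool := onCell 1073741824 536870912 0 536870912 1046898278 26843546
    (rowFX 0 false false false .pp 2 0 2 (qsf 1073741824 536870912 0 536870912 0) ndF6q2 ndF0q2 pcF0 Cut.none Ext.none)

def k0_mm_202 : ∃ t, chk3 f_mm_202 t 1 1 1 = true :=
  ⟨(l 5), by decide +kernel⟩

theorem c_mm_202 : CertFX 1073741824 536870912 0 536870912 1046898278 26843546 false false false .pp 2 0 2
    ndF6q2 ndF0q2 pcF0 Cut.none Ext.none :=
  certFX0 (fam := false) (s1 := false) (s2 := false) (a := 2) (b := 0) (c := 2) (cn := .pp) (n1 := ndF6q2) (n2 := ndF0q2) (pc := pcF0) (cut := Cut.none) (xt := Ext.none) (P1 := 1073741824) (W1 := 536870912) (P2 := 0) (W2 := 536870912) (P3 := 1046898278) (W3 := 26843546)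
    rfl k0_mm_202

end Pool.Agent.Strip051.G.IE1.Tab.C.FB60

namespace Pool.Agent.Strip051.G.IE1.Tab.C.FB61

open Pool.Agent.Strip051.PB Pool.Agent.Strip051.PB.T
open Pool.Agent.Strip051.G.IE1.Tab

noncomputable def f_pp_001 : ℕ → ℕ → ℕ → ℕ → Bool := onCell 0 536870912 536870912 536870912 1046898278 26843546
    (rowFX 2 false true true .up 0 0 1 (qsf 0 536870912 536870912 536870912 0) ndF6q0 ndF1q1 pcF0 Cut.none Ext.none)

def k0_pp_001 : ∃ t, chk3 f_pp_001 t 1 1 1 = true :=
  ⟨(b (l 3) (l 3)), by decide +kernel⟩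

theorem c_pp_001 : CertFX 0 536870912 536870912 536870912 1046898278 26843546 false true true .up 0 0 1
    ndF6q0 ndF1q1 pcF0 Cut.none Ext.none :=
  certFX2 (fam := false) (s1 := true) (s2 := true) (a := 0) (b := 0) (c := 1) (cn := .up) (n1 := ndF6q0) (n2 := ndF1q1) (pc := pcF0) (cut := Cut.none) (xt := Ext.none) (P1 := 0) (W1 := 536870912) (P2 := 536870912) (W2 := 536870912) (P3 := 1046898278) (W3 := 26843546)
    rfl (fun _ => rfl) k0_pp_001

noncomputable def f_pp_011 : ℕ → ℕ → ℕ → ℕ → Bool := onCell 0 536870912 536870912 536870912 1046898278 26843546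
    (rowFX 0 false true true .pnn 0 1 1 (qsf 0 536870912 536870912 536870912 1) ndF6q0 ndF1q1 pcF1 Cut.none Ext.none)

def k0_pp_011 : ∃ t, chk3 f_pp_011 t 1 2 1 = true :=
  ⟨(l 3), by decide +kernel⟩

def k1_pp_011 : ∃ t, chk3 f_pp_011 t 1 6 1 = true :=
  ⟨(a (l 3) (l 3)), by decide +kernel⟩

def k2_pp_011 : ∃ t, chk3 f_pp_011 t 1 14 1 = true :=
  ⟨(a (b (a (a (b (l 3) (a (a (c (a (l 15712976) (l 15690064)) (a (c (l 15626576) (l 15569096)) (l 15691416))) (c (l 15873336) (l 15821496))) (c (l 355037431159) (l 15978120)))) (l 3)) (l 3)) (a (a (a (a (c (a (l 15594440) (c (l 15728512) (l 15618792))) (a (c (l 15416392) (l 15297848)) (l 15469440))) (c (a (l 15718664) (l 15774080)) (l 15621312))) (a (c (l 15866896) (l 15770240)) (c (b (l 15995712) (l 15926480)) (l 15870832)))) (a (a (b (l 16032192) (l 15947000)) (l 16053832)) (l 116667720055))) (a (c (l 114519846791) (l 16242768)) (l 3)))) (l 3)), by decide +kernel⟩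

def k3_pp_011 : ∃ t, chk3 f_pp_011 t 1 15 1 = true :=
  ⟨(b (a (a (a (a (a (c (a (b (l 15622504) (l 15822240)) (c (l 15794984) (l 15584872))) (a (c (l 15291368) (a (l 14961512) (l 15055544))) (l 15281640))) (c (a (l 15693352) (l 15720488)) (l 15452328))) (c (a (l 15781272) (l 15848408)) (l 15665736))) (a (a (c (l 15895816) (l 15783872)) (b (l 15920328) (l 15850816))) (b (l 15990760) (a (l 15881056) (l 15911592))))) (a (c (a (l 16041992) (l 16111448)) (l 233167849767)) (a (c (l 16181536) (l 16162112)) (l 16211584)))) (a (a (c (l 16218888) (l 16204384)) (l 3)) (l 3))) (a (a (a (a (a (c (b (a (l 16169280) (c (l 16126896) (l 15812024))) (a (b (l 15994400) (l 15988848)) (b (c (l 16061752) (l 16034848)) (l 15992736)))) (b (a (c (l 15554152) (l 15008456)) (l 15340408)) (a (a (l 15992320) (b (l 15556792) (l 15849216))) (c (l 15713888) (l 15346368))))) (c (b (a (l 15837040) (l 15796752)) (b (a (l 15952384) (l 15871936)) (l 15944232))) (b (l 15482144) (l 15414736)))) (b (c (l 15810712) (l 15659736)) (c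 (a (c (l 15896888) (l 15831320)) (l 15864608)) (l 15749648)))) (a (c (b (l 15856520) (l 15862272)) (l 15763312)) (b (a (l 15821744) (l 15821576)) (l 15794744)))) (a (a (b (l 15866672) (a (l 15759536) (l 15782856))) (c (l 15915672) (l 15876592))) (c (a (l 15988296) (l 16026520)) (l 15985208)))) (a (a (c (a (l 16026576) (l 16026576)) (l 16007080)) (c (l 16026576) (l 16007080))) (a (c (l 132236339607) (l 130625678695)) (l 3))))), by decide +kernel⟩

theorem s4_pp_011 : ∃ t, chk3 f_pp_011 t 1 7 1 = true := ex3_b k2_pp_011 k3_pp_011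

theorem s5_pp_011 : ∃ t, chk3 f_pp_011 t 1 3 1 = true := ex3_b k1_pp_011 s4_pp_011

theorem s6_pp_011 : ∃ t, chk3 f_pp_011 t 1 1 1 = true := ex3_b k0_pp_011 s5_pp_011

theorem c_pp_011 : CertFX 0 536870912 536870912 536870912 1046898278 26843546 false true true .pnn 0 1 1
    ndF6q0 ndF1q1 pcF1 Cut.none Ext.none :=
  certFX0 (fam := false) (s1 := true) (s2 := true) (a := 0) (b := 1) (c := 1) (cn := .pnn) (n1 := ndF6q0) (n2 := ndF1q1) (pc := pcF1) (cut := Cut.none) (xt := Ext.none) (P1 := 0) (W1 := 536870912) (P2 := 536870912) (W2 := 536870912) (P3 := 1046898278) (W3 := 26843546)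
    rfl s6_pp_011

noncomputable def f_pp_012_a : ℕ → ℕ → ℕ → ℕ → Bool := onCell 536870912 536870912 0 420477299 1046898278 26843546
    (rowFX 2 false true true .pnp 0 1 2 (qsf 0 536870912 0 420477299 1) ndF6q0 ndF1q2a pcF1 Cut.none Ext.none)

def k0_pp_012_a : ∃ t, chk3 f_pp_012_a t 1 1 1 = true :=
  ⟨(a (b (a (l 2) (b (l 16777216) (l 16777208))) (b (a (l 16777184) (l 16777184)) (a (b (l 16722320) (l 16501368)) (b (l 16722320) (l 16501368))))) (a (b (a (l 16775176) (a (l 16764768) (a (l 16759760) (l 16566216)))) (b (a (l 16774536) (a (l 16761304) (l 16743968))) (b (a (l 16719552) (a (l 16706024) (a (l 16700152) (l 16727760)))) (a (l 16498416) (a (l 16484344) (a (l 16473696) (l 16486880))))))) (b (a (a (b (l 16133336) (l 16323688)) (b (l 15675896) (l 15993352))) (a (b (c (l 15271904) (l 15273872)) (c (l 15648504) (l 15712016))) (b (a (l 14862272) (c (l 14807072) (l 14797904))) (a (c (l 15475776) (l 15505344)) (c (l 15372568) (l 15281624)))))) (b (a (a (l 16531792) (l 16250136)) (a (b (l 16068744)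 (l 16246120)) (b (a (l 15909816) (l 15833504)) (a (l 16221208) (l 16081536))))) (a (b (a (l 16657392) (b (l 16600032) (l 16642888))) (a (l 16549896) (l 16537720))) (b (a (a (l 16556192) (l 16436448)) (a (b (l 16453072) (l 16544632)) (b (l 16372016) (l 16520200)))) (a (b (l 16535952) (l 16476208)) (b (b (a (l 16582840) (l 16560000)) (l 16547824)) (a (l 16463336) (c (l 16475840) (l 16468344))))))))))), by decide +kernel⟩

theorem c_pp_012_a : CertFX 0 536870912 0 420477299 1046898278 26843546 false true true .pnp 0 1 2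
    ndF6q0 ndF1q2a pcF1 Cut.none Ext.none :=
  certFX2 (fam := false) (s1 := true) (s2 := true) (a := 0) (b := 1) (c := 2) (cn := .pnp) (n1 := ndF6q0) (n2 := ndF1q2a) (pc := pcF1) (cut := Cut.none) (xt := Ext.none) (P1 := 0) (W1 := 536870912) (P2 := 0) (W2 := 420477299) (P3 := 1046898278) (W3 := 26843546)
    rfl (fun _ => rfl) k0_pp_012_a

noncomputable def f_pp_012_b : ℕ → ℕ → ℕ → ℕ → Bool := onCell 536870912 536870912 1239849684 370763052 1046898278 26843546
    (rowFX 2 false true true .pnp 0 1 2 (qsf 0 536870912 1239849684 370763052 1) ndF6q0 ndF1q2b pcF1 Cut.none Ext.none)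

def k0_pp_012_b : ∃ t, chk3 f_pp_012_b t 1 1 1 = true :=
  ⟨(a (a (l 2) (l 16777216)) (a (a (c (l 17023968) (l 17025408)) (b (a (l 16767336) (l 16476296)) (l 16689936))) (b (a (a (l 15981144) (b (l 15487392) (l 15420528))) (a (b (c (l 14974376) (l 14976552)) (l 14853128)) (b (a (c (l 14539512) (l 14590672)) (b (l 14436648) (l 14267432))) (l 14161328)))) (a (a (l 15948648) (l 15356376)) (a (l 14751424) (b (l 14178808) (l 14098216))))))), by decide +kernel⟩

theorem c_pp_012_b : CertFX 0 536870912 1239849684 370763052 1046898278 26843546 false true true .pnp 0 1 2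
    ndF6q0 ndF1q2b pcF1 Cut.none Ext.none :=
  certFX2 (fam := false) (s1 := true) (s2 := true) (a := 0) (b := 1) (c := 2) (cn := .pnp) (n1 := ndF6q0) (n2 := ndF1q2b) (pc := pcF1) (cut := Cut.none) (xt := Ext.none) (P1 := 0) (W1 := 536870912) (P2 := 1239849684) (W2 := 370763052) (P3 := 1046898278) (W3 := 26843546)
    rfl (fun _ => rfl) k0_pp_012_b

end Pool.Agent.Strip051.G.IE1.Tab.C.FB61

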